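import Pool.Agent.Lib.MP_5854e1_co.DtD

/-!
# Windows and cells of the rings
-/

set_option autoImplicit false
set_option maxRecDepth 100000
set_option deprecated.oldSectionVars true

namespace Pool.Agent.Lib.MP_5854e1_co.Cz

open Pool.Agent.Lib.MP_5854e1_co

noncomputable section

noncomputable def tv3620 : DT := (.nd (nat_lit 0) (.nd (nat_lit 1) (.nd (nat_lit 2) (.nd (nat_lit 3) (.nd (nat_lit 4) (.nd (nat_lit 5) (.nd (nat_lit 6) 
(.lf (nat_lit 284928) (.g (nat_lit 1769) (.e (nat_lit 286735) (nat_lit 3) (.e (nat_lit 98342) (nat_lit 20) (.e (nat_lit 221215) (nat_lit 23) (.e (nat_lit 204801) (nat_lit 0) .nil)))) .nil)) 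
(.lf (nat_lit 284992) (.g (nat_lit 3748) (.e (nat_lit 286735) (nat_lit 3) (.e (nat_lit 98350) (nat_lit 24) (.e (nat_lit 409645) (nat_lit 18) (.e (nat_lit 303119) (nat_lit 3) (.e (nat_lit 204821) (nat_lit 17) (.e (nat_lit 6114) (nat_lit 332) (.e (nat_lit 2779) (nat_lit 178) .nil))))))) (.g (nat_lit 4) .nil .nil)))) (.nd (nat_lit 6) 
(.lf (nat_lit 284960) (.g (nat_lit 1822) (.e (nat_lit 286735) (nat_lit 3) (.e (nat_lit 98350) (nat_lit 24) (.e (nat_lit 409616) (nat_lit 10) (.e (nat_lit 5757) (nat_lit 315) .nil)))) .nil)) 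
(.lf (nat_lit 285024) (.g (nat_lit 2170) (.e (nat_lit 286735) (nat_lit 3) (.e (nat_lit 98353) (nat_lit 25) (.e (nat_lit 417810) (nat_lit 6) (.e (nat_lit 286734) (nat_lit 3) (.e (nat_lit 98350) (nat_lit 24) (.e (nat_lit 417536) (nat_lit 6) .nil)))))) (.g (nat_lit 4) .nil .nil))))) (.nd (nat_lit 5) (.nd (nat_lit 6) 
(.lf (nat_lit 284944) (.g (nat_lit 1513) (.e (nat_lit 286735) (nat_lit 3) (.e (nat_lit 98350) (nat_lit 24) (.e (nat_lit 409602) (nat_lit 0) (.e (nat_lit 5373) (nat_lit 299) .nil)))) .nil)) 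
(.lf (nat_lit 285008) (.g (nat_lit 1099) (.e (nat_lit 286735) (nat_lit 3) (.e (nat_lit 98350) (nat_lit 24) (.e (nat_lit 409648) (nat_lit 18) (.e (nat_lit 303119) (nat_lit 3) .nil)))) .nil))) (.nd (nat_lit 6) 
(.lf (nat_lit 284976) (.g (nat_lit 3910) (.e (nat_lit 286735) (nat_lit 3) (.e (nat_lit 98350) (nat_lit 24) (.e (nat_lit 409641) (nat_lit 17) (.e (nat_lit 294928) (nat_lit 2) (.e (nat_lit 90165) (nat_lit 12) (.e (nat_lit 164208) (nat_lit 176) (.e (nat_lit 2781) (nat_lit 178) .nil))))))) (.g (nat_lit 4) .nil .nil))) 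
(.lf (nat_lit 285040) (.g (nat_lit 3782) (.e (nat_lit 286735) (nat_lit 3) (.e (nat_lit 98356) (nat_lit 26) (.e (nat_lit 426244) (nat_lit 9) (.e (nat_lit 426139) (nat_lit 3) (.e (nat_lit 204846) (nat_lit 24) (.e (nat_lit 327424) (nat_lit 16) .nil)))))) (.g (nat_lit 5) .nil .nil)))))) (.nd (nat_lit 4) (.nd (nat_lit 5) (.nd (nat_lit 6) 
(.lf (nat_lit 284936) (.g (nat_lit 2996) (.e (nat_lit 286735) (nat_lit 3) (.e (nat_lit 98349) (nat_lit 24) (.e (nat_lit 409641) (nat_lit 17) (.e (nat_lit 294928) (nat_lit 2) (.e (nat_lit 90165) (nat_lit 12) (.e (nat_lit 164208) (nat_lit 176) (.e (nat_lit 2781) (nat_lit 178) .nil))))))) (.g (nat_lit 4) .nil .nil))) 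
(.lf (nat_lit 285000) (.g (nat_lit 3979) (.e (nat_lit 286735) (nat_lit 3) (.e (nat_lit 98350) (nat_lit 24) (.e (nat_lit 409647) (nat_lit 18) (.e (nat_lit 303119) (nat_lit 3) (.e (nat_lit 204821) (nat_lit 17) (.e (nat_lit 6114) (nat_lit 332) (.e (nat_lit 2779) (nat_lit 178) .nil))))))) (.g (nat_lit 5) .nil .nil)))) (.nd (nat_lit 6) 
(.lf (nat_lit 284968) (.g (nat_lit 3520) (.e (nat_lit 286735) (nat_lit 3) (.e (nat_lit 98350) (nat_lit 24) (.e (nat_lit 409617) (nat_lit 10) (.e (nat_lit 5355) (nat_lit 298) (.e (nat_lit 1253) (nat_lit 92) (.e (nat_lit 98350) (nat_lit 24) (.e (nat_lit 417536) (nat_lit 16) .nil))))))) (.g (nat_lit 6) .nil .nil))) 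
(.lf (nat_lit 285032) (.g (nat_lit 1005) (.e (nat_lit 286735) (nat_lit 3) (.e (nat_lit 98353) (nat_lit 25) (.e (nat_lit 417813) (nat_lit 9) (.e (nat_lit 311312) (nat_lit 2) (.e (nat_lit 196661) (nat_lit 12) .nil))))) .nil)))) (.nd (nat_lit 5) (.nd (nat_lit 6) 
(.lf (nat_lit 284952) (.g (nat_lit 1739) (.e (nat_lit 286735) (nat_lit 3) (.e (nat_lit 98350) (nat_lit 24) (.e (nat_lit 409616) (nat_lit 10) (.e (nat_lit 5345) (nat_lit 298) .nil)))) .nil)) 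
(.lf (nat_lit 285016) (.g (nat_lit 3264) (.e (nat_lit 286735) (nat_lit 3) (.e (nat_lit 98350) (nat_lit 24) (.e (nat_lit 409649) (nat_lit 18) (.e (nat_lit 303119) (nat_lit 3) (.e (nat_lit 204845) (nat_lit 24) (.e (nat_lit 327424) (nat_lit 6) .nil)))))) (.g (nat_lit 5) .nil .nil)))) (.nd (nat_lit 6) 
(.lf (nat_lit 284984) (.g (nat_lit 3438) (.e (nat_lit 286735) (nat_lit 3) (.e (nat_lit 98350) (nat_lit 24) (.e (nat_lit 409643) (nat_lit 18) (.e (nat_lit 303119) (nat_lit 3) (.e (nat_lit 204821) (nat_lit 17) (.e (nat_lit 6114) (nat_lit 332) (.e (nat_lit 2779) (nat_lit 178) .nil))))))) (.g (nat_lit 5) .nil .nil))) 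
(.lf (nat_lit 285048) (.g (nat_lit 898) (.e (nat_lit 286735) (nat_lit 3) (.e (nat_lit 98356) (nat_lit 26) (.e (nat_lit 426273) (nat_lit 10) .nil))) .nil)))))) (.nd (nat_lit 3) (.nd (nat_lit 4) (.nd (nat_lit 5) (.nd (nat_lit 6) 
(.lf (nat_lit 284932) (.g (nat_lit 574) (.e (nat_lit 286735) (nat_lit 3) (.e (nat_lit 98349) (nat_lit 24) (.e (nat_lit 409603) (nat_lit 0) .nil))) .nil)) 
(.lf (nat_lit 284996) (.g (nat_lit 3249) (.e (nat_lit 286735) (nat_lit 3) (.e (nat_lit 98350) (nat_lit 24) (.e (nat_lit 409646) (nat_lit 18) (.e (nat_lit 303119) (nat_lit 3) (.e (nat_lit 204846) (nat_lit 24) (.e (nat_lit 327424) (nat_lit 6) .nil)))))) (.g (nat_lit 5) .nil .nil)))) (.nd (nat_lit 6) 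
(.lf (nat_lit 284964) (.g (nat_lit 1991) (.e (nat_lit 286735) (nat_lit 3) (.e (nat_lit 98350) (nat_lit 24) (.e (nat_lit 409617) (nat_lit 10) (.e (nat_lit 5355) (nat_lit 298) (.e (nat_lit 1252) (nat_lit 92) .nil))))) .nil)) 
(.lf (nat_lit 285028) (.g (nat_lit 3129) (.e (nat_lit 286735) (nat_lit 3) (.e (nat_lit 98353) (nat_lit 25) (.e (nat_lit 417811) (nat_lit 6) (.e (nat_lit 286735) (nat_lit 3) (.e (nat_lit 98320) (nat_lit 17) (.e (nat_lit 7065) (nat_lit 377) (.e (nat_lit 1348) (nat_lit 102) .nil))))))) (.g (nat_lit 4) .nil .nil))))) (.nd (nat_lit 5) (.nd (nat_lit 6) 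
(.lf (nat_lit 284948) (.g (nat_lit 925) (.e (nat_lit 286735) (nat_lit 3) (.e (nat_lit 98350) (nat_lit 24) (.e (nat_lit 409606) (nat_lit 0) .nil))) .nil)) 
(.lf (nat_lit 285012) (.g (nat_lit 2094) (.e (nat_lit 286735) (nat_lit 3) (.e (nat_lit 98350) (nat_lit 24) (.e (nat_lit 409649) (nat_lit 18) (.e (nat_lit 303116) (nat_lit 2) (.e (nat_lit 196661) (nat_lit 12) .nil))))) .nil))) (.nd (nat_lit 6) 
(.lf (nat_lit 284980) (.g (nat_lit 2386) (.e (nat_lit 286735) (nat_lit 3) (.e (nat_lit 98350) (nat_lit 24) (.e (nat_lit 409641) (nat_lit 17) (.e (nat_lit 294931) (nat_lit 3) (.e (nat_lit 98349) (nat_lit 24) .nil))))) .nil)) 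
(.lf (nat_lit 285044) (.g (nat_lit 684) (.e (nat_lit 286735) (nat_lit 3) (.e (nat_lit 98356) (nat_lit 26) (.e (nat_lit 426255) (nat_lit 9) .nil))) .nil))))) (.nd (nat_lit 4) (.nd (nat_lit 5) (.nd (nat_lit 6) 
(.lf (nat_lit 284940) (.g (nat_lit 3374) (.e (nat_lit 286735) (nat_lit 3) (.e (nat_lit 98349) (nat_lit 24) (.e (nat_lit 409646) (nat_lit 18) (.e (nat_lit 303119) (nat_lit 3) (.e (nat_lit 204846) (nat_lit 24) (.e (nat_lit 327424) (nat_lit 6) .nil)))))) (.g (nat_lit 5) .nil .nil))) 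
(.lf (nat_lit 285004) (.g (nat_lit 2460) (.e (nat_lit 286735) (nat_lit 3) (.e (nat_lit 98350) (nat_lit 24) (.e (nat_lit 409648) (nat_lit 18) (.e (nat_lit 303116) (nat_lit 2) (.e (nat_lit 196661) (nat_lit 12) .nil))))) .nil))) (.nd (nat_lit 6) 
(.lf (nat_lit 284972) (.g (nat_lit 4259) (.e (nat_lit 286735) (nat_lit 3) (.e (nat_lit 98350) (nat_lit 24) (.e (nat_lit 409640) (nat_lit 17) (.e (nat_lit 294931) (nat_lit 3) (.e (nat_lit 98323) (nat_lit 17) (.e (nat_lit 6989) (nat_lit 377) (.e (nat_lit 2777) (nat_lit 178) .nil))))))) (.g (nat_lit 0) .nil .nil))) 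
(.lf (nat_lit 285036) (.g (nat_lit 532) (.e (nat_lit 286735) (nat_lit 3) (.e (nat_lit 98356) (nat_lit 26) (.e (nat_lit 426244) (nat_lit 9) .nil))) .nil)))) (.nd (nat_lit 5) (.nd (nat_lit 6) 
(.lf (nat_lit 284956) (.g (nat_lit 3233) (.e (nat_lit 286735) (nat_lit 3) (.e (nat_lit 98350) (nat_lit 24) (.e (nat_lit 409616) (nat_lit 10) (.e (nat_lit 5355) (nat_lit 298) (.e (nat_lit 1234) (nat_lit 91) (.e (nat_lit 90165) (nat_lit 12) (.e (nat_lit 164208) (nat_lit 176) (.e (nat_lit 2781) (nat_lit 178) .nil)))))))) (.g (nat_lit 4) .nil .nil))) 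
(.lf (nat_lit 285020) (.g (nat_lit 2580) (.e (nat_lit 286735) (nat_lit 3) (.e (nat_lit 98352) (nat_lit 25) (.e (nat_lit 417810) (nat_lit 6) (.e (nat_lit 286735) (nat_lit 3) (.e (nat_lit 98320) (nat_lit 17) (.e (nat_lit 7065) (nat_lit 377) (.e (nat_lit 1349) (nat_lit 102) .nil))))))) (.g (nat_lit 4) .nil .nil)))) (.nd (nat_lit 6) 
(.lf (nat_lit 284988) (.g (nat_lit 3215) (.e (nat_lit 286735) (nat_lit 3) (.e (nat_lit 98350) (nat_lit 24) (.e (nat_lit 409644) (nat_lit 18) (.e (nat_lit 303119) (nat_lit 3) (.e (nat_lit 204821) (nat_lit 17) (.e (nat_lit 6114) (nat_lit 332) (.e (nat_lit 2779) (nat_lit 178) .nil))))))) (.g (nat_lit 4) .nil .nil))) 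
(.lf (nat_lit 285052) (.g (nat_lit 953) (.e (nat_lit 286735) (nat_lit 3) (.e (nat_lit 98358) (nat_lit 26) (.e (nat_lit 426294) (nat_lit 11) .nil))) .nil))))))) (.nd (nat_lit 2) (.nd (nat_lit 3) (.nd (nat_lit 4) (.nd (nat_lit 5) (.nd (nat_lit 6) 
(.lf (nat_lit 284930) (.g (nat_lit 1969) (.e (nat_lit 286735) (nat_lit 3) (.e (nat_lit 98349) (nat_lit 24) (.e (nat_lit 409602) (nat_lit 0) (.e (nat_lit 5389) (nat_lit 301) .nil)))) .nil)) 
(.lf (nat_lit 284994) (.g (nat_lit 3416) (.e (nat_lit 286735) (nat_lit 3) (.e (nat_lit 98350) (nat_lit 24) (.e (nat_lit 409646) (nat_lit 18) (.e (nat_lit 303119) (nat_lit 3) (.e (nat_lit 204819) (nat_lit 17) (.e (nat_lit 6113) (nat_lit 332) (.e (nat_lit 2777) (nat_lit 178) .nil))))))) (.g (nat_lit 6) .nil .nil)))) (.nd (nat_lit 6) 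
(.lf (nat_lit 284962) (.g (nat_lit 3100) (.e (nat_lit 286735) (nat_lit 3) (.e (nat_lit 98350) (nat_lit 24) (.e (nat_lit 409617) (nat_lit 10) (.e (nat_lit 5355) (nat_lit 298) (.e (nat_lit 1234) (nat_lit 91) (.e (nat_lit 90165) (nat_lit 12) (.e (nat_lit 164208) (nat_lit 176) (.e (nat_lit 2779) (nat_lit 178) .nil)))))))) (.g (nat_lit 4) .nil .nil))) 
(.lf (nat_lit 285026) (.g (nat_lit 4681) (.e (nat_lit 286735) (nat_lit 3) (.e (nat_lit 98353) (nat_lit 25) (.e (nat_lit 417810) (nat_lit 6) (.e (nat_lit 286735) (nat_lit 3) (.e (nat_lit 98350) (nat_lit 24) (.e (nat_lit 417536) (nat_lit 6) .nil)))))) (.g (nat_lit 5) .nil .nil))))) (.nd (nat_lit 5) (.nd (nat_lit 6) 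
(.lf (nat_lit 284946) (.g (nat_lit 3259) (.e (nat_lit 286735) (nat_lit 3) (.e (nat_lit 98350) (nat_lit 24) (.e (nat_lit 409602) (nat_lit 0) (.e (nat_lit 5664) (nat_lit 312) (.e (nat_lit 2679) (nat_lit 168) (.e (nat_lit 204846) (nat_lit 24) (.e (nat_lit 327424) (nat_lit 16) .nil))))))) (.g (nat_lit 6) .nil .nil))) 
(.lf (nat_lit 285010) (.g (nat_lit 3218) (.e (nat_lit 286735) (nat_lit 3) (.e (nat_lit 98350) (nat_lit 24) (.e (nat_lit 409648) (nat_lit 18) (.e (nat_lit 303119) (nat_lit 3) (.e (nat_lit 204846) (nat_lit 24) (.e (nat_lit 327424) (nat_lit 6) .nil)))))) (.g (nat_lit 5) .nil .nil)))) (.nd (nat_lit 6) 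
(.lf (nat_lit 284978) (.g (nat_lit 1765) (.e (nat_lit 286735) (nat_lit 3) (.e (nat_lit 98350) (nat_lit 24) (.e (nat_lit 409641) (nat_lit 17) (.e (nat_lit 294931) (nat_lit 3) .nil)))) .nil)) 
(.lf (nat_lit 285042) (.g (nat_lit 898) (.e (nat_lit 286735) (nat_lit 3) (.e (nat_lit 98356) (nat_lit 26) (.e (nat_lit 426250) (nat_lit 9) .nil))) .nil))))) (.nd (nat_lit 4) (.nd (nat_lit 5) (.nd (nat_lit 6) 
(.lf (nat_lit 284938) (.g (nat_lit 2221) (.e (nat_lit 286735) (nat_lit 3) (.e (nat_lit 98349) (nat_lit 24) (.e (nat_lit 409644) (nat_lit 18) (.e (nat_lit 303119) (nat_lit 3) (.e (nat_lit 204821) (nat_lit 17) .nil))))) .nil)) 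
(.lf (nat_lit 285002) (.g (nat_lit 2890) (.e (nat_lit 286735) (nat_lit 3) (.e (nat_lit 98350) (nat_lit 24) (.e (nat_lit 409647) (nat_lit 18) (.e (nat_lit 303119) (nat_lit 3) (.e (nat_lit 204846) (nat_lit 24) (.e (nat_lit 327424) (nat_lit 6) .nil)))))) (.g (nat_lit 5) .nil .nil)))) (.nd (nat_lit 6) 
(.lf (nat_lit 284970) (.g (nat_lit 3069) (.e (nat_lit 286735) (nat_lit 3) (.e (nat_lit 98350) (nat_lit 24) (.e (nat_lit 409623) (nat_lit 10) (.e (nat_lit 5293) (nat_lit 298) (.e (nat_lit 1250) (nat_lit 92) (.e (nat_lit 98350) (nat_lit 24) (.e (nat_lit 417536) (nat_lit 16) .nil))))))) (.g (nat_lit 6) .nil .nil))) 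
(.lf (nat_lit 285034) (.g (nat_lit 545) (.e (nat_lit 286735) (nat_lit 3) (.e (nat_lit 98356) (nat_lit 26) (.e (nat_lit 426241) (nat_lit 9) .nil))) .nil)))) (.nd (nat_lit 5) (.nd (nat_lit 6) 
(.lf (nat_lit 284954) (.g (nat_lit 1496) (.e (nat_lit 286735) (nat_lit 3) (.e (nat_lit 98350) (nat_lit 24) (.e (nat_lit 409616) (nat_lit 10) (.e (nat_lit 5355) (nat_lit 298) .nil)))) .nil)) 
(.lf (nat_lit 285018) (.g (nat_lit 2844) (.e (nat_lit 286735) (nat_lit 3) (.e (nat_lit 98350) (nat_lit 24) (.e (nat_lit 417536) (nat_lit 18) (.e (nat_lit 303119) (nat_lit 3) (.e (nat_lit 204821) (nat_lit 17) (.e (nat_lit 6114) (nat_lit 332) (.e (nat_lit 2779) (nat_lit 178) .nil))))))) (.g (nat_lit 4) .nil .nil)))) (.nd (nat_lit 6) 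
(.lf (nat_lit 284986) (.g (nat_lit 2554) (.e (nat_lit 286735) (nat_lit 3) (.e (nat_lit 98350) (nat_lit 24) (.e (nat_lit 409643) (nat_lit 18) (.e (nat_lit 303119) (nat_lit 3) (.e (nat_lit 204846) (nat_lit 24) (.e (nat_lit 327424) (nat_lit 6) .nil)))))) (.g (nat_lit 5) .nil .nil))) 
(.lf (nat_lit 285050) (.g (nat_lit 902) (.e (nat_lit 286735) (nat_lit 3) (.e (nat_lit 98356) (nat_lit 26) (.e (nat_lit 426294) (nat_lit 11) .nil))) .nil)))))) (.nd (nat_lit 3) (.nd (nat_lit 4) (.nd (nat_lit 5) (.nd (nat_lit 6) 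
(.lf (nat_lit 284934) (.g (nat_lit 1701) (.e (nat_lit 286735) (nat_lit 3) (.e (nat_lit 98349) (nat_lit 24) (.e (nat_lit 409640) (nat_lit 17) (.e (nat_lit 294931) (nat_lit 3) (.e (nat_lit 98350) (nat_lit 24) .nil))))) .nil)) 
(.lf (nat_lit 284998) (.g (nat_lit 1827) (.e (nat_lit 286735) (nat_lit 3) (.e (nat_lit 98350) (nat_lit 24) (.e (nat_lit 409647) (nat_lit 18) (.e (nat_lit 303118) (nat_lit 3) (.e (nat_lit 204845) (nat_lit 24) (.e (nat_lit 327424) (nat_lit 6) .nil)))))) (.g (nat_lit 4) .nil .nil)))) (.nd (nat_lit 6) 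
(.lf (nat_lit 284966) (.g (nat_lit 3230) (.e (nat_lit 286735) (nat_lit 3) (.e (nat_lit 98350) (nat_lit 24) (.e (nat_lit 409617) (nat_lit 10) (.e (nat_lit 5355) (nat_lit 298) (.e (nat_lit 1253) (nat_lit 92) (.e (nat_lit 98323) (nat_lit 17) (.e (nat_lit 6989) (nat_lit 377) (.e (nat_lit 2779) (nat_lit 178) .nil)))))))) (.g (nat_lit 4) .nil .nil))) 
(.lf (nat_lit 285030) (.g (nat_lit 325) (.e (nat_lit 286735) (nat_lit 3) (.e (nat_lit 98353) (nat_lit 25) (.e (nat_lit 417813) (nat_lit 9) .nil))) .nil)))) (.nd (nat_lit 5) (.nd (nat_lit 6) 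
(.lf (nat_lit 284950) (.g (nat_lit 1148) (.e (nat_lit 286735) (nat_lit 3) (.e (nat_lit 98350) (nat_lit 24) (.e (nat_lit 417536) (nat_lit 8) (.e (nat_lit 303117) (nat_lit 2) (.e (nat_lit 196661) (nat_lit 12) .nil))))) .nil)) 
(.lf (nat_lit 285014) (.g (nat_lit 3374) (.e (nat_lit 286735) (nat_lit 3) (.e (nat_lit 98350) (nat_lit 24) (.e (nat_lit 409649) (nat_lit 18) (.e (nat_lit 303118) (nat_lit 3) (.e (nat_lit 204846) (nat_lit 24) (.e (nat_lit 327424) (nat_lit 6) .nil)))))) (.g (nat_lit 5) .nil .nil)))) (.nd (nat_lit 6) 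
(.lf (nat_lit 284982) (.g (nat_lit 2227) (.e (nat_lit 286735) (nat_lit 3) (.e (nat_lit 98350) (nat_lit 24) (.e (nat_lit 409642) (nat_lit 17) (.e (nat_lit 294928) (nat_lit 2) .nil)))) .nil)) 
(.lf (nat_lit 285046) (.g (nat_lit 898) (.e (nat_lit 286735) (nat_lit 3) (.e (nat_lit 98356) (nat_lit 26) (.e (nat_lit 426269) (nat_lit 9) .nil))) .nil))))) (.nd (nat_lit 4) (.nd (nat_lit 5) (.nd (nat_lit 6) 
(.lf (nat_lit 284942) (.g (nat_lit 382) (.e (nat_lit 286735) (nat_lit 3) (.e (nat_lit 98350) (nat_lit 24) (.e (nat_lit 409602) (nat_lit 0) .nil))) .nil)) 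
(.lf (nat_lit 285006) (.g (nat_lit 3246) (.e (nat_lit 286735) (nat_lit 3) (.e (nat_lit 98350) (nat_lit 24) (.e (nat_lit 409648) (nat_lit 18) (.e (nat_lit 303118) (nat_lit 3) (.e (nat_lit 204845) (nat_lit 24) (.e (nat_lit 327424) (nat_lit 6) .nil)))))) (.g (nat_lit 5) .nil .nil)))) (.nd (nat_lit 6) 
(.lf (nat_lit 284974) (.g (nat_lit 1823) (.e (nat_lit 286735) (nat_lit 3) (.e (nat_lit 98350) (nat_lit 24) (.e (nat_lit 409641) (nat_lit 17) (.e (nat_lit 294927) (nat_lit 2) .nil)))) .nil)) 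
(.lf (nat_lit 285038) (.g (nat_lit 2029) (.e (nat_lit 286735) (nat_lit 3) (.e (nat_lit 98356) (nat_lit 26) (.e (nat_lit 426244) (nat_lit 9) (.e (nat_lit 426133) (nat_lit 3) (.e (nat_lit 204846) (nat_lit 24) .nil))))) .nil)))) (.nd (nat_lit 5) (.nd (nat_lit 6) 
(.lf (nat_lit 284958) (.g (nat_lit 2881) (.e (nat_lit 286735) (nat_lit 3) (.e (nat_lit 98350) (nat_lit 24) (.e (nat_lit 409616) (nat_lit 10) (.e (nat_lit 5355) (nat_lit 298) (.e (nat_lit 1253) (nat_lit 92) (.e (nat_lit 98349) (nat_lit 24) (.e (nat_lit 417536) (nat_lit 16) .nil))))))) (.g (nat_lit 4) .nil .nil))) 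
(.lf (nat_lit 285022) (.g (nat_lit 3480) (.e (nat_lit 286735) (nat_lit 3) (.e (nat_lit 98353) (nat_lit 25) (.e (nat_lit 417809) (nat_lit 6) (.e (nat_lit 286735) (nat_lit 3) (.e (nat_lit 98323) (nat_lit 17) (.e (nat_lit 6989) (nat_lit 377) (.e (nat_lit 1361) (nat_lit 102) .nil))))))) (.g (nat_lit 0) .nil .nil)))) (.nd (nat_lit 6) 
(.lf (nat_lit 284990) (.g (nat_lit 2890) (.e (nat_lit 286735) (nat_lit 3) (.e (nat_lit 98350) (nat_lit 24) (.e (nat_lit 409644) (nat_lit 18) (.e (nat_lit 303119) (nat_lit 3) (.e (nat_lit 204846) (nat_lit 24) (.e (nat_lit 327424) (nat_lit 6) .nil)))))) (.g (nat_lit 5) .nil .nil))) 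
(.lf (nat_lit 285054) (.g (nat_lit 3424) (.e (nat_lit 286735) (nat_lit 3) (.e (nat_lit 98359) (nat_lit 26) (.e (nat_lit 426185) (nat_lit 9) (.e (nat_lit 426125) (nat_lit 2) (.e (nat_lit 196630) (nat_lit 9) (.e (nat_lit 1393) (nat_lit 106) (.e (nat_lit 319531) (nat_lit 16) .nil))))))) (.g (nat_lit 5) .nil .nil))))))))) 
(.nd (nat_lit 1) (.nd (nat_lit 2) (.nd (nat_lit 3) (.nd (nat_lit 4) (.nd (nat_lit 5) 
(.nd (nat_lit 6) 
(.lf (nat_lit 284929) (.g (nat_lit 3029) (.e (nat_lit 286735) (nat_lit 3) (.e (nat_lit 98349) (nat_lit 24) (.e (nat_lit 409602) (nat_lit 0) (.e (nat_lit 5293) (nat_lit 298) (.e (nat_lit 1250) (nat_lit 92) .nil))))) .nil)) 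
(.lf (nat_lit 284993) (.g (nat_lit 2860) (.e (nat_lit 286735) (nat_lit 3) (.e (nat_lit 98350) (nat_lit 24) (.e (nat_lit 409646) (nat_lit 18) (.e (nat_lit 303117) (nat_lit 2) (.e (nat_lit 196661) (nat_lit 12) .nil))))) .nil))) (.nd (nat_lit 6) 
(.lf (nat_lit 284961) (.g (nat_lit 1341) (.e (nat_lit 286735) (nat_lit 3) (.e (nat_lit 98350) (nat_lit 24) (.e (nat_lit 409617) (nat_lit 10) (.e (nat_lit 5355) (nat_lit 298) .nil)))) .nil)) 
(.lf (nat_lit 285025) (.g (nat_lit 5211) (.e (nat_lit 286735) (nat_lit 3) (.e (nat_lit 98353) (nat_lit 25) (.e (nat_lit 417810) (nat_lit 6) (.e (nat_lit 286735) (nat_lit 3) (.e (nat_lit 98323) (nat_lit 17) (.e (nat_lit 6989) (nat_lit 377) (.e (nat_lit 1361) (nat_lit 102) .nil))))))) (.g (nat_lit 0) .nil .nil))))) (.nd (nat_lit 5) (.nd (nat_lit 6) 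
(.lf (nat_lit 284945) (.g (nat_lit 1508) (.e (nat_lit 286735) (nat_lit 3) (.e (nat_lit 98350) (nat_lit 24) (.e (nat_lit 409602) (nat_lit 0) (.e (nat_lit 5642) (nat_lit 312) .nil)))) .nil)) 
(.lf (nat_lit 285009) (.g (nat_lit 4642) (.e (nat_lit 286735) (nat_lit 3) (.e (nat_lit 98350) (nat_lit 24) (.e (nat_lit 409648) (nat_lit 18) (.e (nat_lit 303119) (nat_lit 3) (.e (nat_lit 204821) (nat_lit 17) (.e (nat_lit 6114) (nat_lit 332) (.e (nat_lit 2779) (nat_lit 178) .nil))))))) (.g (nat_lit 5) .nil .nil)))) (.nd (nat_lit 6) 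
(.lf (nat_lit 284977) (.g (nat_lit 1767) (.e (nat_lit 286735) (nat_lit 3) (.e (nat_lit 98350) (nat_lit 24) (.e (nat_lit 409641) (nat_lit 17) (.e (nat_lit 294930) (nat_lit 3) .nil)))) .nil)) 
(.lf (nat_lit 285041) (.g (nat_lit 2132) (.e (nat_lit 286735) (nat_lit 3) (.e (nat_lit 98356) (nat_lit 26) (.e (nat_lit 426246) (nat_lit 9) (.e (nat_lit 426140) (nat_lit 3) (.e (nat_lit 204846) (nat_lit 24) .nil))))) .nil))))) (.nd (nat_lit 4) (.nd (nat_lit 5) (.nd (nat_lit 6) 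
(.lf (nat_lit 284937) (.g (nat_lit 1014) (.e (nat_lit 286735) (nat_lit 3) (.e (nat_lit 98349) (nat_lit 24) (.e (nat_lit 409642) (nat_lit 17) (.e (nat_lit 294928) (nat_lit 2) .nil)))) .nil)) 
(.lf (nat_lit 285001) (.g (nat_lit 2646) (.e (nat_lit 286735) (nat_lit 3) (.e (nat_lit 98350) (nat_lit 24) (.e (nat_lit 409647) (nat_lit 18) (.e (nat_lit 303119) (nat_lit 3) (.e (nat_lit 204845) (nat_lit 24) (.e (nat_lit 327424) (nat_lit 6) .nil)))))) (.g (nat_lit 5) .nil .nil)))) (.nd (nat_lit 6) 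
(.lf (nat_lit 284969) (.g (nat_lit 1424) (.e (nat_lit 286735) (nat_lit 3) (.e (nat_lit 98350) (nat_lit 24) (.e (nat_lit 409617) (nat_lit 10) (.e (nat_lit 5762) (nat_lit 315) .nil)))) .nil)) 
(.lf (nat_lit 285033) (.g (nat_lit 898) (.e (nat_lit 286735) (nat_lit 3) (.e (nat_lit 98356) (nat_lit 26) (.e (nat_lit 426240) (nat_lit 9) .nil))) .nil)))) (.nd (nat_lit 5) (.nd (nat_lit 6) 
(.lf (nat_lit 284953) (.g (nat_lit 1917) (.e (nat_lit 286735) (nat_lit 3) (.e (nat_lit 98350) (nat_lit 24) (.e (nat_lit 409616) (nat_lit 10) (.e (nat_lit 5345) (nat_lit 298) (.e (nat_lit 1234) (nat_lit 91) .nil))))) .nil)) 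
(.lf (nat_lit 285017) (.g (nat_lit 3249) (.e (nat_lit 286735) (nat_lit 3) (.e (nat_lit 98350) (nat_lit 24) (.e (nat_lit 409649) (nat_lit 18) (.e (nat_lit 303119) (nat_lit 3) (.e (nat_lit 204846) (nat_lit 24) (.e (nat_lit 327424) (nat_lit 6) .nil)))))) (.g (nat_lit 5) .nil .nil)))) (.nd (nat_lit 6) 
(.lf (nat_lit 284985) (.g (nat_lit 2019) (.e (nat_lit 286735) (nat_lit 3) (.e (nat_lit 98350) (nat_lit 24) (.e (nat_lit 409643) (nat_lit 18) (.e (nat_lit 303119) (nat_lit 3) (.e (nat_lit 204845) (nat_lit 24) (.e (nat_lit 327424) (nat_lit 6) .nil)))))) (.g (nat_lit 4) .nil .nil))) 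
(.lf (nat_lit 285049) (.g (nat_lit 763) (.e (nat_lit 286735) (nat_lit 3) (.e (nat_lit 98356) (nat_lit 26) (.e (nat_lit 426274) (nat_lit 10) .nil))) .nil)))))) (.nd (nat_lit 3) (.nd (nat_lit 4) (.nd (nat_lit 5) (.nd (nat_lit 6) 
(.lf (nat_lit 284933) (.g (nat_lit 1845) (.e (nat_lit 286735) (nat_lit 3) (.e (nat_lit 98349) (nat_lit 24) (.e (nat_lit 409640) (nat_lit 17) (.e (nat_lit 294928) (nat_lit 2) (.e (nat_lit 90165) (nat_lit 12) .nil))))) .nil)) 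
(.lf (nat_lit 284997) (.g (nat_lit 2716) (.e (nat_lit 286735) (nat_lit 3) (.e (nat_lit 98350) (nat_lit 24) (.e (nat_lit 409647) (nat_lit 18) (.e (nat_lit 303117) (nat_lit 2) (.e (nat_lit 196661) (nat_lit 12) (.e (nat_lit 57712) (nat_lit 176) (.e (nat_lit 2777) (nat_lit 178) .nil))))))) (.g (nat_lit 4) .nil .nil)))) (.nd (nat_lit 6) 
(.lf (nat_lit 284965) (.g (nat_lit 2013) (.e (nat_lit 286735) (nat_lit 3) (.e (nat_lit 98350) (nat_lit 24) (.e (nat_lit 409617) (nat_lit 10) (.e (nat_lit 5355) (nat_lit 298) (.e (nat_lit 1253) (nat_lit 92) .nil))))) .nil)) 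
(.lf (nat_lit 285029) (.g (nat_lit 2760) (.e (nat_lit 286735) (nat_lit 3) (.e (nat_lit 98353) (nat_lit 25) (.e (nat_lit 417811) (nat_lit 6) (.e (nat_lit 286735) (nat_lit 3) (.e (nat_lit 98320) (nat_lit 17) (.e (nat_lit 7065) (nat_lit 377) (.e (nat_lit 1349) (nat_lit 102) .nil))))))) (.g (nat_lit 4) .nil .nil))))) (.nd (nat_lit 5) (.nd (nat_lit 6) 
(.lf (nat_lit 284949) (.g (nat_lit 2304) (.e (nat_lit 286735) (nat_lit 3) (.e (nat_lit 98350) (nat_lit 24) (.e (nat_lit 417536) (nat_lit 6) (.e (nat_lit 286735) (nat_lit 3) (.e (nat_lit 98350) (nat_lit 24) (.e (nat_lit 417536) (nat_lit 6) .nil)))))) (.g (nat_lit 5) .nil .nil))) 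
(.lf (nat_lit 285013) (.g (nat_lit 3264) (.e (nat_lit 286735) (nat_lit 3) (.e (nat_lit 98350) (nat_lit 24) (.e (nat_lit 409649) (nat_lit 18) (.e (nat_lit 303118) (nat_lit 3) (.e (nat_lit 204845) (nat_lit 24) (.e (nat_lit 327424) (nat_lit 6) .nil)))))) (.g (nat_lit 5) .nil .nil)))) (.nd (nat_lit 6) 
(.lf (nat_lit 284981) (.g (nat_lit 4681) (.e (nat_lit 286735) (nat_lit 3) (.e (nat_lit 98350) (nat_lit 24) (.e (nat_lit 409641) (nat_lit 17) (.e (nat_lit 294931) (nat_lit 3) (.e (nat_lit 98350) (nat_lit 24) (.e (nat_lit 417536) (nat_lit 16) .nil)))))) (.g (nat_lit 5) .nil .nil))) 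
(.lf (nat_lit 285045) (.g (nat_lit 1840) (.e (nat_lit 286735) (nat_lit 3) (.e (nat_lit 98356) (nat_lit 26) (.e (nat_lit 426255) (nat_lit 9) (.e (nat_lit 426139) (nat_lit 3) (.e (nat_lit 204846) (nat_lit 24) .nil))))) .nil))))) (.nd (nat_lit 4) (.nd (nat_lit 5) (.nd (nat_lit 6) 
(.lf (nat_lit 284941) (.g (nat_lit 1020) (.e (nat_lit 286735) (nat_lit 3) (.e (nat_lit 98350) (nat_lit 24) (.e (nat_lit 409601) (nat_lit 0) .nil))) .nil)) 
(.lf (nat_lit 285005) (.g (nat_lit 2498) (.e (nat_lit 286735) (nat_lit 3) (.e (nat_lit 98350) (nat_lit 24) (.e (nat_lit 409648) (nat_lit 18) (.e (nat_lit 303118) (nat_lit 3) (.e (nat_lit 204821) (nat_lit 17) .nil))))) .nil))) (.nd (nat_lit 6) 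
(.lf (nat_lit 284973) (.g (nat_lit 2678) (.e (nat_lit 286735) (nat_lit 3) (.e (nat_lit 98350) (nat_lit 24) (.e (nat_lit 409640) (nat_lit 17) (.e (nat_lit 294931) (nat_lit 3) (.e (nat_lit 98350) (nat_lit 24) (.e (nat_lit 417536) (nat_lit 16) .nil)))))) (.g (nat_lit 5) .nil .nil))) 
(.lf (nat_lit 285037) (.g (nat_lit 2238) (.e (nat_lit 286735) (nat_lit 3) (.e (nat_lit 98356) (nat_lit 26) (.e (nat_lit 426244) (nat_lit 9) (.e (nat_lit 426133) (nat_lit 3) (.e (nat_lit 204845) (nat_lit 24) .nil))))) .nil)))) (.nd (nat_lit 5) (.nd (nat_lit 6) 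
(.lf (nat_lit 284957) (.g (nat_lit 3636) (.e (nat_lit 286735) (nat_lit 3) (.e (nat_lit 98350) (nat_lit 24) (.e (nat_lit 409616) (nat_lit 10) (.e (nat_lit 5355) (nat_lit 298) (.e (nat_lit 1253) (nat_lit 92) (.e (nat_lit 98323) (nat_lit 17) (.e (nat_lit 6989) (nat_lit 377) (.e (nat_lit 2779) (nat_lit 178) .nil)))))))) (.g (nat_lit 4) .nil .nil))) 
(.lf (nat_lit 285021) (.g (nat_lit 1844) (.e (nat_lit 286735) (nat_lit 3) (.e (nat_lit 98353) (nat_lit 25) (.e (nat_lit 417809) (nat_lit 6) (.e (nat_lit 286734) (nat_lit 3) (.e (nat_lit 98323) (nat_lit 17) (.e (nat_lit 6989) (nat_lit 377) (.e (nat_lit 1361) (nat_lit 102) .nil))))))) (.g (nat_lit 4) .nil .nil)))) (.nd (nat_lit 6) 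
(.lf (nat_lit 284989) (.g (nat_lit 1826) (.e (nat_lit 286735) (nat_lit 3) (.e (nat_lit 98350) (nat_lit 24) (.e (nat_lit 409644) (nat_lit 18) (.e (nat_lit 303119) (nat_lit 3) (.e (nat_lit 204845) (nat_lit 24) .nil))))) .nil)) 
(.lf (nat_lit 285053) (.g (nat_lit 1190) (.e (nat_lit 286735) (nat_lit 3) (.e (nat_lit 98359) (nat_lit 26) (.e (nat_lit 426177) (nat_lit 8) (.e (nat_lit 417805) (nat_lit 2) .nil)))) .nil))))))) (.nd (nat_lit 2) (.nd (nat_lit 3) (.nd (nat_lit 4) (.nd (nat_lit 5) (.nd (nat_lit 6) 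
(.lf (nat_lit 284931) (.g (nat_lit 2099) (.e (nat_lit 286735) (nat_lit 3) (.e (nat_lit 98349) (nat_lit 24) (.e (nat_lit 409602) (nat_lit 0) (.e (nat_lit 5394) (nat_lit 301) (.e (nat_lit 57464) (nat_lit 23) .nil))))) .nil)) 
(.lf (nat_lit 284995) (.g (nat_lit 3995) (.e (nat_lit 286735) (nat_lit 3) (.e (nat_lit 98350) (nat_lit 24) (.e (nat_lit 409646) (nat_lit 18) (.e (nat_lit 303119) (nat_lit 3) (.e (nat_lit 204821) (nat_lit 17) (.e (nat_lit 6114) (nat_lit 332) (.e (nat_lit 2779) (nat_lit 178) .nil))))))) (.g (nat_lit 4) .nil .nil)))) (.nd (nat_lit 6) 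
(.lf (nat_lit 284963) (.g (nat_lit 4172) (.e (nat_lit 286735) (nat_lit 3) (.e (nat_lit 98350) (nat_lit 24) (.e (nat_lit 409617) (nat_lit 10) (.e (nat_lit 5355) (nat_lit 298) (.e (nat_lit 1235) (nat_lit 91) (.e (nat_lit 90165) (nat_lit 12) (.e (nat_lit 164208) (nat_lit 176) (.e (nat_lit 2779) (nat_lit 178) .nil)))))))) (.g (nat_lit 5) .nil .nil))) 
(.lf (nat_lit 285027) (.g (nat_lit 4654) (.e (nat_lit 286735) (nat_lit 3) (.e (nat_lit 98353) (nat_lit 25) (.e (nat_lit 417810) (nat_lit 6) (.e (nat_lit 286735) (nat_lit 3) (.e (nat_lit 98353) (nat_lit 25) (.e (nat_lit 417809) (nat_lit 6) .nil)))))) (.g (nat_lit 6) .nil .nil))))) (.nd (nat_lit 5) (.nd (nat_lit 6) 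
(.lf (nat_lit 284947) (.g (nat_lit 739) (.e (nat_lit 286735) (nat_lit 3) (.e (nat_lit 98350) (nat_lit 24) (.e (nat_lit 409603) (nat_lit 0) .nil))) .nil)) 
(.lf (nat_lit 285011) (.g (nat_lit 1973) (.e (nat_lit 286735) (nat_lit 3) (.e (nat_lit 98350) (nat_lit 24) (.e (nat_lit 409649) (nat_lit 18) (.e (nat_lit 303111) (nat_lit 0) (.e (nat_lit 3296) (nat_lit 202) .nil))))) .nil))) (.nd (nat_lit 6) 
(.lf (nat_lit 284979) (.g (nat_lit 6145) (.e (nat_lit 286735) (nat_lit 3) (.e (nat_lit 98350) (nat_lit 24) (.e (nat_lit 409641) (nat_lit 17) (.e (nat_lit 294931) (nat_lit 3) (.e (nat_lit 98323) (nat_lit 17) (.e (nat_lit 6989) (nat_lit 377) (.e (nat_lit 2777) (nat_lit 178) .nil))))))) (.g (nat_lit 7) .nil .nil))) 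
(.lf (nat_lit 285043) (.g (nat_lit 2824) (.e (nat_lit 286735) (nat_lit 3) (.e (nat_lit 98356) (nat_lit 26) (.e (nat_lit 426250) (nat_lit 9) (.e (nat_lit 426125) (nat_lit 2) (.e (nat_lit 196661) (nat_lit 12) (.e (nat_lit 57712) (nat_lit 176) (.e (nat_lit 1361) (nat_lit 102) .nil))))))) (.g (nat_lit 4) .nil .nil)))))) (.nd (nat_lit 4) (.nd (nat_lit 5) (.nd (nat_lit 6) 
(.lf (nat_lit 284939) (.g (nat_lit 2529) (.e (nat_lit 286735) (nat_lit 3) (.e (nat_lit 98349) (nat_lit 24) (.e (nat_lit 409646) (nat_lit 18) (.e (nat_lit 303119) (nat_lit 3) (.e (nat_lit 204845) (nat_lit 24) .nil))))) .nil)) 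
(.lf (nat_lit 285003) (.g (nat_lit 1979) (.e (nat_lit 286735) (nat_lit 3) (.e (nat_lit 98350) (nat_lit 24) (.e (nat_lit 409648) (nat_lit 18) (.e (nat_lit 303108) (nat_lit 0) (.e (nat_lit 3272) (nat_lit 199) (.e (nat_lit 548898) (nat_lit 14) (.e (nat_lit 2828) (nat_lit 182) (.e (nat_lit 417536) (nat_lit 16) .nil)))))))) (.g (nat_lit 4) .nil .nil)))) (.nd (nat_lit 6) 
(.lf (nat_lit 284971) (.g (nat_lit 2304) (.e (nat_lit 286735) (nat_lit 3) (.e (nat_lit 98350) (nat_lit 24) (.e (nat_lit 417536) (nat_lit 16) (.e (nat_lit 286735) (nat_lit 3) (.e (nat_lit 98350) (nat_lit 24) (.e (nat_lit 417536) (nat_lit 16) .nil)))))) (.g (nat_lit 5) .nil .nil))) 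
(.lf (nat_lit 285035) (.g (nat_lit 3720) (.e (nat_lit 286735) (nat_lit 3) (.e (nat_lit 98356) (nat_lit 26) (.e (nat_lit 426241) (nat_lit 9) (.e (nat_lit 426139) (nat_lit 3) (.e (nat_lit 204819) (nat_lit 17) (.e (nat_lit 6113) (nat_lit 332) (.e (nat_lit 1361) (nat_lit 102) .nil))))))) (.g (nat_lit 6) .nil .nil))))) (.nd (nat_lit 5) (.nd (nat_lit 6) 
(.lf (nat_lit 284955) (.g (nat_lit 3603) (.e (nat_lit 286735) (nat_lit 3) (.e (nat_lit 98350) (nat_lit 24) (.e (nat_lit 409616) (nat_lit 10) (.e (nat_lit 5355) (nat_lit 298) (.e (nat_lit 1234) (nat_lit 91) (.e (nat_lit 90165) (nat_lit 12) (.e (nat_lit 164208) (nat_lit 176) (.e (nat_lit 2779) (nat_lit 178) .nil)))))))) (.g (nat_lit 4) .nil .nil))) 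
(.lf (nat_lit 285019) (.g (nat_lit 2304) (.e (nat_lit 286735) (nat_lit 3) (.e (nat_lit 98350) (nat_lit 24) (.e (nat_lit 417536) (nat_lit 18) (.e (nat_lit 303119) (nat_lit 3) (.e (nat_lit 204846) (nat_lit 24) (.e (nat_lit 327424) (nat_lit 6) .nil)))))) (.g (nat_lit 5) .nil .nil)))) (.nd (nat_lit 6) 
(.lf (nat_lit 284987) (.g (nat_lit 2509) (.e (nat_lit 286735) (nat_lit 3) (.e (nat_lit 98350) (nat_lit 24) (.e (nat_lit 409644) (nat_lit 18) (.e (nat_lit 303119) (nat_lit 3) (.e (nat_lit 204821) (nat_lit 17) (.e (nat_lit 6114) (nat_lit 332) (.e (nat_lit 2777) (nat_lit 178) .nil))))))) (.g (nat_lit 4) .nil .nil))) 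
(.lf (nat_lit 285051) (.g (nat_lit 967) (.e (nat_lit 286735) (nat_lit 3) (.e (nat_lit 98358) (nat_lit 26) (.e (nat_lit 426272) (nat_lit 10) .nil))) .nil)))))) (.nd (nat_lit 3) (.nd (nat_lit 4) (.nd (nat_lit 5) (.nd (nat_lit 6) 
(.lf (nat_lit 284935) (.g (nat_lit 493) (.e (nat_lit 286735) (nat_lit 3) (.e (nat_lit 98349) (nat_lit 24) (.e (nat_lit 409641) (nat_lit 17) .nil))) .nil)) 
(.lf (nat_lit 284999) (.g (nat_lit 2126) (.e (nat_lit 286735) (nat_lit 3) (.e (nat_lit 98350) (nat_lit 24) (.e (nat_lit 409647) (nat_lit 18) (.e (nat_lit 303118) (nat_lit 3) (.e (nat_lit 204846) (nat_lit 24) (.e (nat_lit 327424) (nat_lit 6) .nil)))))) (.g (nat_lit 4) .nil .nil)))) (.nd (nat_lit 6) 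
(.lf (nat_lit 284967) (.g (nat_lit 2401) (.e (nat_lit 286735) (nat_lit 3) (.e (nat_lit 98350) (nat_lit 24) (.e (nat_lit 409617) (nat_lit 10) (.e (nat_lit 5355) (nat_lit 298) (.e (nat_lit 1253) (nat_lit 92) (.e (nat_lit 98349) (nat_lit 24) (.e (nat_lit 417536) (nat_lit 16) .nil))))))) (.g (nat_lit 4) .nil .nil))) 
(.lf (nat_lit 285031) (.g (nat_lit 1798) (.e (nat_lit 286735) (nat_lit 3) (.e (nat_lit 98353) (nat_lit 25) (.e (nat_lit 417813) (nat_lit 9) (.e (nat_lit 311312) (nat_lit 2) (.e (nat_lit 196626) (nat_lit 9) (.e (nat_lit 1400) (nat_lit 106) (.e (nat_lit 327424) (nat_lit 16) .nil))))))) (.g (nat_lit 5) .nil .nil))))) (.nd (nat_lit 5) (.nd (nat_lit 6) 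
(.lf (nat_lit 284951) (.g (nat_lit 1016) (.e (nat_lit 286735) (nat_lit 3) (.e (nat_lit 98350) (nat_lit 24) (.e (nat_lit 409612) (nat_lit 10) .nil))) .nil)) 
(.lf (nat_lit 285015) (.g (nat_lit 2690) (.e (nat_lit 286735) (nat_lit 3) (.e (nat_lit 98350) (nat_lit 24) (.e (nat_lit 409649) (nat_lit 18) (.e (nat_lit 303119) (nat_lit 3) (.e (nat_lit 204814) (nat_lit 17) .nil))))) .nil))) (.nd (nat_lit 6) 
(.lf (nat_lit 284983) (.g (nat_lit 2200) (.e (nat_lit 286735) (nat_lit 3) (.e (nat_lit 98350) (nat_lit 24) (.e (nat_lit 409642) (nat_lit 17) (.e (nat_lit 294931) (nat_lit 3) .nil)))) .nil)) 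
(.lf (nat_lit 285047) (.g (nat_lit 893) (.e (nat_lit 286735) (nat_lit 3) (.e (nat_lit 98356) (nat_lit 26) (.e (nat_lit 426270) (nat_lit 9) .nil))) .nil))))) (.nd (nat_lit 4) (.nd (nat_lit 5) (.nd (nat_lit 6) 
(.lf (nat_lit 284943) (.g (nat_lit 3729) (.e (nat_lit 286735) (nat_lit 3) (.e (nat_lit 98350) (nat_lit 24) (.e (nat_lit 409602) (nat_lit 0) (.e (nat_lit 5293) (nat_lit 298) (.e (nat_lit 1250) (nat_lit 92) (.e (nat_lit 98350) (nat_lit 24) (.e (nat_lit 417536) (nat_lit 6) .nil))))))) (.g (nat_lit 6) .nil .nil))) 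
(.lf (nat_lit 285007) (.g (nat_lit 3358) (.e (nat_lit 286735) (nat_lit 3) (.e (nat_lit 98350) (nat_lit 24) (.e (nat_lit 409648) (nat_lit 18) (.e (nat_lit 303118) (nat_lit 3) (.e (nat_lit 204846) (nat_lit 24) (.e (nat_lit 327424) (nat_lit 6) .nil)))))) (.g (nat_lit 5) .nil .nil)))) (.nd (nat_lit 6) 
(.lf (nat_lit 284975) (.g (nat_lit 1814) (.e (nat_lit 286735) (nat_lit 3) (.e (nat_lit 98350) (nat_lit 24) (.e (nat_lit 409641) (nat_lit 17) (.e (nat_lit 294928) (nat_lit 2) .nil)))) .nil)) 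
(.lf (nat_lit 285039) (.g (nat_lit 4060) (.e (nat_lit 286735) (nat_lit 3) (.e (nat_lit 98356) (nat_lit 26) (.e (nat_lit 426244) (nat_lit 9) (.e (nat_lit 426139) (nat_lit 3) (.e (nat_lit 204846) (nat_lit 24) (.e (nat_lit 319528) (nat_lit 16) .nil)))))) (.g (nat_lit 5) .nil .nil))))) (.nd (nat_lit 5) (.nd (nat_lit 6) 
(.lf (nat_lit 284959) (.g (nat_lit 4014) (.e (nat_lit 286735) (nat_lit 3) (.e (nat_lit 98350) (nat_lit 24) (.e (nat_lit 409616) (nat_lit 10) (.e (nat_lit 5355) (nat_lit 298) (.e (nat_lit 1253) (nat_lit 92) (.e (nat_lit 98350) (nat_lit 24) (.e (nat_lit 417536) (nat_lit 16) .nil))))))) (.g (nat_lit 6) .nil .nil))) 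
(.lf (nat_lit 285023) (.g (nat_lit 2678) (.e (nat_lit 286735) (nat_lit 3) (.e (nat_lit 98353) (nat_lit 25) (.e (nat_lit 417809) (nat_lit 6) (.e (nat_lit 286735) (nat_lit 3) (.e (nat_lit 98350) (nat_lit 24) (.e (nat_lit 417536) (nat_lit 6) .nil)))))) (.g (nat_lit 5) .nil .nil)))) (.nd (nat_lit 6) 
(.lf (nat_lit 284991) (.g (nat_lit 2732) (.e (nat_lit 286735) (nat_lit 3) (.e (nat_lit 98350) (nat_lit 24) (.e (nat_lit 409645) (nat_lit 18) (.e (nat_lit 303117) (nat_lit 2) (.e (nat_lit 196661) (nat_lit 12) .nil))))) .nil)) 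
(.lf (nat_lit 285055) (.g (nat_lit 3660) (.e (nat_lit 286735) (nat_lit 3) (.e (nat_lit 98359) (nat_lit 26) (.e (nat_lit 426185) (nat_lit 9) (.e (nat_lit 426125) (nat_lit 2) (.e (nat_lit 196630) (nat_lit 9) (.e (nat_lit 1395) (nat_lit 106) (.e (nat_lit 319530) (nat_lit 16) .nil))))))) (.g (nat_lit 5) .nil .nil))))))))))

noncomputable def tv3621 : DT := (.nd (nat_lit 0) (.nd (nat_lit 1) (.nd (nat_lit 2) (.nd (nat_lit 3) (.nd (nat_lit 4) (.nd (nat_lit 5) (.nd (nat_lit 6) 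
(.lf (nat_lit 285056) (.g (nat_lit 3782) (.e (nat_lit 286735) (nat_lit 3) (.e (nat_lit 98359) (nat_lit 26) (.e (nat_lit 426185) (nat_lit 9) (.e (nat_lit 426125) (nat_lit 2) (.e (nat_lit 196661) (nat_lit 12) (.e (nat_lit 57712) (nat_lit 176) (.e (nat_lit 1361) (nat_lit 102) .nil))))))) (.g (nat_lit 5) .nil .nil))) 
(.lf (nat_lit 285120) (.g (nat_lit 1392) (.e (nat_lit 286735) (nat_lit 3) (.e (nat_lit 98365) (nat_lit 26) (.e (nat_lit 426298) (nat_lit 11) (.e (nat_lit 458781) (nat_lit 19) (.e (nat_lit 499961) (nat_lit 14) .nil))))) .nil))) (.nd (nat_lit 6) 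
(.lf (nat_lit 285088) (.g (nat_lit 768) (.e (nat_lit 286735) (nat_lit 3) (.e (nat_lit 98359) (nat_lit 26) (.e (nat_lit 426219) (nat_lit 9) .nil))) .nil)) 
(.lf (nat_lit 285152) (.g (nat_lit 3142) (.e (nat_lit 286735) (nat_lit 3) (.e (nat_lit 98370) (nat_lit 28) (.e (nat_lit 442425) (nat_lit 23) (.e (nat_lit 204846) (nat_lit 24) (.e (nat_lit 319528) (nat_lit 16) .nil))))) (.g (nat_lit 4) .nil .nil))))) (.nd (nat_lit 5) (.nd (nat_lit 6) 
(.lf (nat_lit 285072) (.g (nat_lit 4651) (.e (nat_lit 286735) (nat_lit 3) (.e (nat_lit 98359) (nat_lit 26) (.e (nat_lit 426211) (nat_lit 9) (.e (nat_lit 426125) (nat_lit 2) (.e (nat_lit 196626) (nat_lit 9) (.e (nat_lit 1400) (nat_lit 106) (.e (nat_lit 319533) (nat_lit 16) .nil))))))) (.g (nat_lit 4) .nil .nil))) 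
(.lf (nat_lit 285136) (.g (nat_lit 756) (.e (nat_lit 286735) (nat_lit 3) (.e (nat_lit 98370) (nat_lit 28) (.e (nat_lit 442400) (nat_lit 20) .nil))) .nil))) (.nd (nat_lit 6) 
(.lf (nat_lit 285104) (.g (nat_lit 2022) (.e (nat_lit 286735) (nat_lit 3) (.e (nat_lit 98359) (nat_lit 26) (.e (nat_lit 426338) (nat_lit 14) (.e (nat_lit 491526) (nat_lit 0) (.e (nat_lit 1774) (nat_lit 118) .nil))))) .nil)) 
(.lf (nat_lit 285168) (.g (nat_lit 2963) (.e (nat_lit 286735) (nat_lit 3) (.e (nat_lit 98370) (nat_lit 28) (.e (nat_lit 442427) (nat_lit 23) (.e (nat_lit 204846) (nat_lit 24) (.e (nat_lit 327424) (nat_lit 16) .nil))))) (.g (nat_lit 4) .nil .nil)))))) (.nd (nat_lit 4) (.nd (nat_lit 5) (.nd (nat_lit 6) 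
(.lf (nat_lit 285064) (.g (nat_lit 3550) (.e (nat_lit 286735) (nat_lit 3) (.e (nat_lit 98359) (nat_lit 26) (.e (nat_lit 426208) (nat_lit 9) (.e (nat_lit 426125) (nat_lit 2) (.e (nat_lit 196630) (nat_lit 9) (.e (nat_lit 1395) (nat_lit 106) (.e (nat_lit 319530) (nat_lit 16) .nil))))))) (.g (nat_lit 5) .nil .nil))) 
(.lf (nat_lit 285128) (.g (nat_lit 662) (.e (nat_lit 286735) (nat_lit 3) (.e (nat_lit 98367) (nat_lit 27) (.e (nat_lit 434180) (nat_lit 0) .nil))) .nil))) (.nd (nat_lit 6) 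
(.lf (nat_lit 285096) (.g (nat_lit 1914) (.e (nat_lit 286735) (nat_lit 3) (.e (nat_lit 98359) (nat_lit 26) (.e (nat_lit 426284) (nat_lit 10) (.e (nat_lit 434231) (nat_lit 23) (.e (nat_lit 532523) (nat_lit 7) .nil))))) .nil)) 
(.lf (nat_lit 285160) (.g (nat_lit 2363) (.e (nat_lit 286735) (nat_lit 3) (.e (nat_lit 98370) (nat_lit 28) (.e (nat_lit 442427) (nat_lit 23) (.e (nat_lit 204817) (nat_lit 17) (.e (nat_lit 7936) (nat_lit 332) .nil))))) .nil)))) (.nd (nat_lit 5) (.nd (nat_lit 6) 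
(.lf (nat_lit 285080) (.g (nat_lit 3684) (.e (nat_lit 286735) (nat_lit 3) (.e (nat_lit 98359) (nat_lit 26) (.e (nat_lit 426211) (nat_lit 9) (.e (nat_lit 426125) (nat_lit 2) (.e (nat_lit 196660) (nat_lit 12) .nil))))) .nil)) 
(.lf (nat_lit 285144) (.g (nat_lit 2322) (.e (nat_lit 286735) (nat_lit 3) (.e (nat_lit 98370) (nat_lit 28) (.e (nat_lit 442424) (nat_lit 22) (.e (nat_lit 196630) (nat_lit 9) (.e (nat_lit 1394) (nat_lit 106) .nil))))) .nil))) (.nd (nat_lit 6) 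
(.lf (nat_lit 285112) (.g (nat_lit 1629) (.e (nat_lit 286735) (nat_lit 3) (.e (nat_lit 98365) (nat_lit 26) (.e (nat_lit 426188) (nat_lit 9) (.e (nat_lit 426128) (nat_lit 2) .nil)))) .nil)) 
(.lf (nat_lit 285176) (.g (nat_lit 454) (.e (nat_lit 286735) (nat_lit 3) (.e (nat_lit 98372) (nat_lit 29) (.e (nat_lit 450571) (nat_lit 1) .nil))) .nil)))))) (.nd (nat_lit 3) (.nd (nat_lit 4) (.nd (nat_lit 5) (.nd (nat_lit 6) 
(.lf (nat_lit 285060) (.g (nat_lit 1071) (.e (nat_lit 286735) (nat_lit 3) (.e (nat_lit 98359) (nat_lit 26) (.e (nat_lit 426203) (nat_lit 9) .nil))) .nil)) 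
(.lf (nat_lit 285124) (.g (nat_lit 2769) (.e (nat_lit 286735) (nat_lit 3) (.e (nat_lit 98365) (nat_lit 26) (.e (nat_lit 426306) (nat_lit 12) (.e (nat_lit 475185) (nat_lit 29) (.e (nat_lit 557070) (nat_lit 9) .nil))))) .nil))) (.nd (nat_lit 6) 
(.lf (nat_lit 285092) (.g (nat_lit 987) (.e (nat_lit 286735) (nat_lit 3) (.e (nat_lit 98359) (nat_lit 26) (.e (nat_lit 426280) (nat_lit 10) .nil))) .nil)) 
(.lf (nat_lit 285156) (.g (nat_lit 284) (.e (nat_lit 286735) (nat_lit 3) (.e (nat_lit 98370) (nat_lit 28) (.e (nat_lit 442427) (nat_lit 23) .nil))) .nil)))) (.nd (nat_lit 5) (.nd (nat_lit 6) 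
(.lf (nat_lit 285076) (.g (nat_lit 5042) (.e (nat_lit 286735) (nat_lit 3) (.e (nat_lit 98359) (nat_lit 26) (.e (nat_lit 426211) (nat_lit 9) (.e (nat_lit 426125) (nat_lit 2) (.e (nat_lit 196630) (nat_lit 9) (.e (nat_lit 1395) (nat_lit 106) (.e (nat_lit 319530) (nat_lit 16) .nil))))))) (.g (nat_lit 5) .nil .nil))) 
(.lf (nat_lit 285140) (.g (nat_lit 1683) (.e (nat_lit 286735) (nat_lit 3) (.e (nat_lit 98370) (nat_lit 28) (.e (nat_lit 442424) (nat_lit 22) (.e (nat_lit 196623) (nat_lit 9) .nil)))) .nil))) (.nd (nat_lit 6) 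
(.lf (nat_lit 285108) (.g (nat_lit 1089) (.e (nat_lit 286735) (nat_lit 3) (.e (nat_lit 98359) (nat_lit 26) (.e (nat_lit 426346) (nat_lit 14) .nil))) .nil)) 
(.lf (nat_lit 285172) (.g (nat_lit 1056) (.e (nat_lit 286735) (nat_lit 3) (.e (nat_lit 98370) (nat_lit 28) (.e (nat_lit 442433) (nat_lit 25) (.e (nat_lit 245793) (nat_lit 16) .nil)))) .nil))))) (.nd (nat_lit 4) (.nd (nat_lit 5) (.nd (nat_lit 6) 
(.lf (nat_lit 285068) (.g (nat_lit 1723) (.e (nat_lit 286735) (nat_lit 3) (.e (nat_lit 98359) (nat_lit 26) (.e (nat_lit 426210) (nat_lit 9) (.e (nat_lit 426125) (nat_lit 2) (.e (nat_lit 196661) (nat_lit 12) .nil))))) .nil)) 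
(.lf (nat_lit 285132) (.g (nat_lit 859) (.e (nat_lit 286735) (nat_lit 3) (.e (nat_lit 98367) (nat_lit 27) (.e (nat_lit 434197) (nat_lit 16) .nil))) .nil))) (.nd (nat_lit 6) 
(.lf (nat_lit 285100) (.g (nat_lit 3827) (.e (nat_lit 286735) (nat_lit 3) (.e (nat_lit 98359) (nat_lit 26) (.e (nat_lit 426290) (nat_lit 10) (.e (nat_lit 434231) (nat_lit 23) (.e (nat_lit 532490) (nat_lit 0) (.e (nat_lit 7936) (nat_lit 332) (.e (nat_lit 1348) (nat_lit 102) .nil))))))) (.g (nat_lit 5) .nil .nil))) 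
(.lf (nat_lit 285164) (.g (nat_lit 4193) (.e (nat_lit 286735) (nat_lit 3) (.e (nat_lit 98370) (nat_lit 28) (.e (nat_lit 442427) (nat_lit 23) (.e (nat_lit 204845) (nat_lit 24) (.e (nat_lit 319531) (nat_lit 16) .nil))))) (.g (nat_lit 0) .nil .nil))))) (.nd (nat_lit 5) (.nd (nat_lit 6) 
(.lf (nat_lit 285084) (.g (nat_lit 4185) (.e (nat_lit 286735) (nat_lit 3) (.e (nat_lit 98359) (nat_lit 26) (.e (nat_lit 426212) (nat_lit 9) (.e (nat_lit 426125) (nat_lit 2) (.e (nat_lit 196661) (nat_lit 12) (.e (nat_lit 57713) (nat_lit 176) (.e (nat_lit 1348) (nat_lit 102) .nil))))))) (.g (nat_lit 5) .nil .nil))) 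
(.lf (nat_lit 285148) (.g (nat_lit 1959) (.e (nat_lit 286735) (nat_lit 3) (.e (nat_lit 98370) (nat_lit 28) (.e (nat_lit 442424) (nat_lit 22) (.e (nat_lit 196661) (nat_lit 12) (.e (nat_lit 57718) (nat_lit 176) .nil))))) .nil))) (.nd (nat_lit 6) 
(.lf (nat_lit 285116) (.g (nat_lit 1677) (.e (nat_lit 286735) (nat_lit 3) (.e (nat_lit 98365) (nat_lit 26) (.e (nat_lit 426296) (nat_lit 11) (.e (nat_lit 458789) (nat_lit 23) (.e (nat_lit 540416) (nat_lit 7) (.e (nat_lit 319531) (nat_lit 16) .nil)))))) (.g (nat_lit 4) .nil .nil))) 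
(.lf (nat_lit 285180) (.g (nat_lit 1460) (.e (nat_lit 286735) (nat_lit 3) (.e (nat_lit 98372) (nat_lit 29) (.e (nat_lit 450579) (nat_lit 5) (.e (nat_lit 532480) (nat_lit 0) .nil)))) .nil))))))) (.nd (nat_lit 2) (.nd (nat_lit 3) (.nd (nat_lit 4) (.nd (nat_lit 5) (.nd (nat_lit 6) 
(.lf (nat_lit 285058) (.g (nat_lit 3101) (.e (nat_lit 286735) (nat_lit 3) (.e (nat_lit 98359) (nat_lit 26) (.e (nat_lit 426185) (nat_lit 9) (.e (nat_lit 426140) (nat_lit 3) (.e (nat_lit 204846) (nat_lit 24) (.e (nat_lit 327424) (nat_lit 16) .nil)))))) (.g (nat_lit 5) .nil .nil))) 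
(.lf (nat_lit 285122) (.g (nat_lit 2496) (.e (nat_lit 286735) (nat_lit 3) (.e (nat_lit 98365) (nat_lit 26) (.e (nat_lit 426298) (nat_lit 11) (.e (nat_lit 458789) (nat_lit 23) (.e (nat_lit 532480) (nat_lit 0) (.e (nat_lit 6113) (nat_lit 332) (.e (nat_lit 1361) (nat_lit 102) .nil))))))) (.g (nat_lit 4) .nil .nil)))) (.nd (nat_lit 6) 
(.lf (nat_lit 285090) (.g (nat_lit 2132) (.e (nat_lit 286735) (nat_lit 3) (.e (nat_lit 98359) (nat_lit 26) (.e (nat_lit 426239) (nat_lit 9) (.e (nat_lit 426139) (nat_lit 3) (.e (nat_lit 204846) (nat_lit 24) .nil))))) .nil)) 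
(.lf (nat_lit 285154) (.g (nat_lit 2818) (.e (nat_lit 286735) (nat_lit 3) (.e (nat_lit 98370) (nat_lit 28) (.e (nat_lit 442425) (nat_lit 23) (.e (nat_lit 204846) (nat_lit 24) (.e (nat_lit 327424) (nat_lit 16) .nil))))) (.g (nat_lit 4) .nil .nil))))) (.nd (nat_lit 5) (.nd (nat_lit 6) 
(.lf (nat_lit 285074) (.g (nat_lit 3951) (.e (nat_lit 286735) (nat_lit 3) (.e (nat_lit 98359) (nat_lit 26) (.e (nat_lit 426211) (nat_lit 9) (.e (nat_lit 426125) (nat_lit 2) (.e (nat_lit 196627) (nat_lit 9) (.e (nat_lit 1395) (nat_lit 106) (.e (nat_lit 319530) (nat_lit 16) .nil))))))) (.g (nat_lit 4) .nil .nil))) 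
(.lf (nat_lit 285138) (.g (nat_lit 412) (.e (nat_lit 286735) (nat_lit 3) (.e (nat_lit 98370) (nat_lit 28) (.e (nat_lit 442424) (nat_lit 22) .nil))) .nil))) (.nd (nat_lit 6) 
(.lf (nat_lit 285106) (.g (nat_lit 2671) (.e (nat_lit 286735) (nat_lit 3) (.e (nat_lit 98359) (nat_lit 26) (.e (nat_lit 426338) (nat_lit 14) (.e (nat_lit 491540) (nat_lit 3) (.e (nat_lit 98350) (nat_lit 24) (.e (nat_lit 417536) (nat_lit 6) .nil)))))) (.g (nat_lit 4) .nil .nil))) 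
(.lf (nat_lit 285170) (.g (nat_lit 902) (.e (nat_lit 286735) (nat_lit 3) (.e (nat_lit 98370) (nat_lit 28) (.e (nat_lit 442433) (nat_lit 25) (.e (nat_lit 245784) (nat_lit 9) .nil)))) .nil))))) (.nd (nat_lit 4) (.nd (nat_lit 5) (.nd (nat_lit 6) 
(.lf (nat_lit 285066) (.g (nat_lit 3324) (.e (nat_lit 286735) (nat_lit 3) (.e (nat_lit 98359) (nat_lit 26) (.e (nat_lit 426208) (nat_lit 9) (.e (nat_lit 426125) (nat_lit 2) (.e (nat_lit 196661) (nat_lit 12) (.e (nat_lit 65280) (nat_lit 176) (.e (nat_lit 1348) (nat_lit 102) .nil))))))) (.g (nat_lit 5) .nil .nil))) 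
(.lf (nat_lit 285130) (.g (nat_lit 865) (.e (nat_lit 286735) (nat_lit 3) (.e (nat_lit 98367) (nat_lit 27) (.e (nat_lit 434186) (nat_lit 13) .nil))) .nil))) (.nd (nat_lit 6) 
(.lf (nat_lit 285098) (.g (nat_lit 4568) (.e (nat_lit 286735) (nat_lit 3) (.e (nat_lit 98359) (nat_lit 26) (.e (nat_lit 426286) (nat_lit 10) (.e (nat_lit 434231) (nat_lit 23) (.e (nat_lit 532523) (nat_lit 7) (.e (nat_lit 319530) (nat_lit 16) .nil)))))) (.g (nat_lit 5) .nil .nil))) 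
(.lf (nat_lit 285162) (.g (nat_lit 1315) (.e (nat_lit 286735) (nat_lit 3) (.e (nat_lit 98370) (nat_lit 28) (.e (nat_lit 442427) (nat_lit 23) (.e (nat_lit 204821) (nat_lit 17) .nil)))) .nil)))) (.nd (nat_lit 5) (.nd (nat_lit 6) 
(.lf (nat_lit 285082) (.g (nat_lit 4050) (.e (nat_lit 286735) (nat_lit 3) (.e (nat_lit 98359) (nat_lit 26) (.e (nat_lit 426212) (nat_lit 9) (.e (nat_lit 426125) (nat_lit 2) (.e (nat_lit 196661) (nat_lit 12) (.e (nat_lit 57711) (nat_lit 176) (.e (nat_lit 1349) (nat_lit 102) .nil))))))) (.g (nat_lit 5) .nil .nil))) 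
(.lf (nat_lit 285146) (.g (nat_lit 1122) (.e (nat_lit 286735) (nat_lit 3) (.e (nat_lit 98370) (nat_lit 28) (.e (nat_lit 442424) (nat_lit 22) (.e (nat_lit 196661) (nat_lit 12) .nil)))) .nil))) (.nd (nat_lit 6) 
(.lf (nat_lit 285114) (.g (nat_lit 1878) (.e (nat_lit 286735) (nat_lit 3) (.e (nat_lit 98365) (nat_lit 26) (.e (nat_lit 426223) (nat_lit 9) (.e (nat_lit 426140) (nat_lit 3) (.e (nat_lit 204846) (nat_lit 24) .nil))))) .nil)) 
(.lf (nat_lit 285178) (.g (nat_lit 422) (.e (nat_lit 286735) (nat_lit 3) (.e (nat_lit 98372) (nat_lit 29) (.e (nat_lit 450575) (nat_lit 1) .nil))) .nil)))))) (.nd (nat_lit 3) (.nd (nat_lit 4) (.nd (nat_lit 5) (.nd (nat_lit 6) 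
(.lf (nat_lit 285062) (.g (nat_lit 1002) (.e (nat_lit 286735) (nat_lit 3) (.e (nat_lit 98359) (nat_lit 26) (.e (nat_lit 426206) (nat_lit 9) .nil))) .nil)) 
(.lf (nat_lit 285126) (.g (nat_lit 2267) (.e (nat_lit 286735) (nat_lit 3) (.e (nat_lit 98365) (nat_lit 26) (.e (nat_lit 426341) (nat_lit 14) (.e (nat_lit 491526) (nat_lit 0) (.e (nat_lit 1842) (nat_lit 123) .nil))))) .nil))) (.nd (nat_lit 6) 
(.lf (nat_lit 285094) (.g (nat_lit 1089) (.e (nat_lit 286735) (nat_lit 3) (.e (nat_lit 98359) (nat_lit 26) (.e (nat_lit 426283) (nat_lit 10) .nil))) .nil)) 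
(.lf (nat_lit 285158) (.g (nat_lit 2128) (.e (nat_lit 286735) (nat_lit 3) (.e (nat_lit 98370) (nat_lit 28) (.e (nat_lit 442427) (nat_lit 23) (.e (nat_lit 204815) (nat_lit 17) .nil)))) .nil)))) (.nd (nat_lit 5) (.nd (nat_lit 6) 
(.lf (nat_lit 285078) (.g (nat_lit 3911) (.e (nat_lit 286735) (nat_lit 3) (.e (nat_lit 98359) (nat_lit 26) (.e (nat_lit 426211) (nat_lit 9) (.e (nat_lit 426125) (nat_lit 2) (.e (nat_lit 196657) (nat_lit 12) (.e (nat_lit 57713) (nat_lit 176) (.e (nat_lit 1348) (nat_lit 102) .nil))))))) (.g (nat_lit 4) .nil .nil))) 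
(.lf (nat_lit 285142) (.g (nat_lit 1839) (.e (nat_lit 286735) (nat_lit 3) (.e (nat_lit 98370) (nat_lit 28) (.e (nat_lit 442424) (nat_lit 22) (.e (nat_lit 196627) (nat_lit 9) (.e (nat_lit 1401) (nat_lit 106) .nil))))) .nil))) (.nd (nat_lit 6) 
(.lf (nat_lit 285110) (.g (nat_lit 2944) (.e (nat_lit 286735) (nat_lit 3) (.e (nat_lit 98363) (nat_lit 26) (.e (nat_lit 426347) (nat_lit 14) (.e (nat_lit 491537) (nat_lit 2) (.e (nat_lit 90133) (nat_lit 9) (.e (nat_lit 2397) (nat_lit 157) (.e (nat_lit 7064) (nat_lit 377) (.e (nat_lit 1348) (nat_lit 102) .nil)))))))) (.g (nat_lit 4) .nil .nil))) 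
(.lf (nat_lit 285174) (.g (nat_lit 3127) (.e (nat_lit 286735) (nat_lit 3) (.e (nat_lit 98371) (nat_lit 28) (.e (nat_lit 442427) (nat_lit 23) (.e (nat_lit 204819) (nat_lit 17) (.e (nat_lit 6113) (nat_lit 332) (.e (nat_lit 1361) (nat_lit 102) .nil)))))) (.g (nat_lit 5) .nil .nil)))))) (.nd (nat_lit 4) (.nd (nat_lit 5) (.nd (nat_lit 6) 
(.lf (nat_lit 285070) (.g (nat_lit 3283) (.e (nat_lit 286735) (nat_lit 3) (.e (nat_lit 98359) (nat_lit 26) (.e (nat_lit 426211) (nat_lit 9) (.e (nat_lit 426125) (nat_lit 2) (.e (nat_lit 196617) (nat_lit 9) .nil))))) .nil)) 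
(.lf (nat_lit 285134) (.g (nat_lit 1153) (.e (nat_lit 286735) (nat_lit 3) (.e (nat_lit 98369) (nat_lit 28) (.e (nat_lit 442427) (nat_lit 23) (.e (nat_lit 212736) (nat_lit 24) .nil)))) .nil))) (.nd (nat_lit 6) 
(.lf (nat_lit 285102) (.g (nat_lit 2067) (.e (nat_lit 286735) (nat_lit 3) (.e (nat_lit 98359) (nat_lit 26) (.e (nat_lit 426301) (nat_lit 11) (.e (nat_lit 458789) (nat_lit 23) (.e (nat_lit 532522) (nat_lit 7) .nil))))) .nil)) 
(.lf (nat_lit 285166) (.g (nat_lit 3211) (.e (nat_lit 286735) (nat_lit 3) (.e (nat_lit 98370) (nat_lit 28) (.e (nat_lit 442427) (nat_lit 23) (.e (nat_lit 204846) (nat_lit 24) (.e (nat_lit 319528) (nat_lit 16) .nil))))) (.g (nat_lit 4) .nil .nil))))) (.nd (nat_lit 5) (.nd (nat_lit 6) 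
(.lf (nat_lit 285086) (.g (nat_lit 3839) (.e (nat_lit 286735) (nat_lit 3) (.e (nat_lit 98359) (nat_lit 26) (.e (nat_lit 426212) (nat_lit 9) (.e (nat_lit 426140) (nat_lit 3) (.e (nat_lit 204845) (nat_lit 24) (.e (nat_lit 319529) (nat_lit 16) .nil)))))) (.g (nat_lit 5) .nil .nil))) 
(.lf (nat_lit 285150) (.g (nat_lit 3434) (.e (nat_lit 286735) (nat_lit 3) (.e (nat_lit 98370) (nat_lit 28) (.e (nat_lit 442425) (nat_lit 23) (.e (nat_lit 204819) (nat_lit 17) (.e (nat_lit 6113) (nat_lit 332) (.e (nat_lit 1361) (nat_lit 102) .nil)))))) (.g (nat_lit 5) .nil .nil)))) (.nd (nat_lit 6) 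
(.lf (nat_lit 285118) (.g (nat_lit 441) (.e (nat_lit 286735) (nat_lit 3) (.e (nat_lit 98365) (nat_lit 26) (.e (nat_lit 426298) (nat_lit 11) .nil))) .nil)) 
(.lf (nat_lit 285182) (.g (nat_lit 2532) (.e (nat_lit 286735) (nat_lit 3) (.e (nat_lit 98372) (nat_lit 29) (.e (nat_lit 450579) (nat_lit 5) (.e (nat_lit 532481) (nat_lit 0) (.e (nat_lit 6079) (nat_lit 332) .nil))))) .nil)))))))) (.nd (nat_lit 1) (.nd (nat_lit 2) (.nd (nat_lit 3) (.nd (nat_lit 4) (.nd (nat_lit 5) (.nd (nat_lit 6) 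
(.lf (nat_lit 285057) (.g (nat_lit 3463) (.e (nat_lit 286735) (nat_lit 3) (.e (nat_lit 98359) (nat_lit 26) (.e (nat_lit 426185) (nat_lit 9) (.e (nat_lit 426140) (nat_lit 3) (.e (nat_lit 204846) (nat_lit 24) (.e (nat_lit 319528) (nat_lit 16) .nil)))))) (.g (nat_lit 5) .nil .nil))) 
(.lf (nat_lit 285121) (.g (nat_lit 2111) (.e (nat_lit 286735) (nat_lit 3) (.e (nat_lit 98365) (nat_lit 26) (.e (nat_lit 426298) (nat_lit 11) (.e (nat_lit 458789) (nat_lit 23) (.e (nat_lit 532480) (nat_lit 0) .nil))))) .nil))) (.nd (nat_lit 6) 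
(.lf (nat_lit 285089) (.g (nat_lit 1599) (.e (nat_lit 286735) (nat_lit 3) (.e (nat_lit 98359) (nat_lit 26) (.e (nat_lit 426219) (nat_lit 9) (.e (nat_lit 426125) (nat_lit 2) (.e (nat_lit 196661) (nat_lit 12) .nil))))) .nil)) 
(.lf (nat_lit 285153) (.g (nat_lit 3456) (.e (nat_lit 286735) (nat_lit 3) (.e (nat_lit 98370) (nat_lit 28) (.e (nat_lit 442425) (nat_lit 23) (.e (nat_lit 204846) (nat_lit 24) (.e (nat_lit 319529) (nat_lit 16) .nil))))) (.g (nat_lit 4) .nil .nil))))) (.nd (nat_lit 5) (.nd (nat_lit 6) 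
(.lf (nat_lit 285073) (.g (nat_lit 3791) (.e (nat_lit 286735) (nat_lit 3) (.e (nat_lit 98359) (nat_lit 26) (.e (nat_lit 426211) (nat_lit 9) (.e (nat_lit 426125) (nat_lit 2) (.e (nat_lit 196626) (nat_lit 9) (.e (nat_lit 1400) (nat_lit 106) (.e (nat_lit 319534) (nat_lit 16) .nil))))))) (.g (nat_lit 4) .nil .nil))) 
(.lf (nat_lit 285137) (.g (nat_lit 709) (.e (nat_lit 286735) (nat_lit 3) (.e (nat_lit 98370) (nat_lit 28) (.e (nat_lit 442401) (nat_lit 20) .nil))) .nil))) (.nd (nat_lit 6) 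
(.lf (nat_lit 285105) (.g (nat_lit 2808) (.e (nat_lit 286735) (nat_lit 3) (.e (nat_lit 98359) (nat_lit 26) (.e (nat_lit 426338) (nat_lit 14) (.e (nat_lit 491540) (nat_lit 3) (.e (nat_lit 98349) (nat_lit 24) (.e (nat_lit 417536) (nat_lit 6) .nil)))))) (.g (nat_lit 4) .nil .nil))) 
(.lf (nat_lit 285169) (.g (nat_lit 1881) (.e (nat_lit 286735) (nat_lit 3) (.e (nat_lit 98370) (nat_lit 28) (.e (nat_lit 442427) (nat_lit 23) (.e (nat_lit 212736) (nat_lit 24) .nil)))) .nil))))) (.nd (nat_lit 4) (.nd (nat_lit 5) (.nd (nat_lit 6) 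
(.lf (nat_lit 285065) (.g (nat_lit 3872) (.e (nat_lit 286735) (nat_lit 3) (.e (nat_lit 98359) (nat_lit 26) (.e (nat_lit 426208) (nat_lit 9) (.e (nat_lit 426125) (nat_lit 2) (.e (nat_lit 196661) (nat_lit 12) (.e (nat_lit 57715) (nat_lit 176) (.e (nat_lit 1348) (nat_lit 102) .nil))))))) (.g (nat_lit 5) .nil .nil))) 
(.lf (nat_lit 285129) (.g (nat_lit 858) (.e (nat_lit 286735) (nat_lit 3) (.e (nat_lit 98367) (nat_lit 27) (.e (nat_lit 434184) (nat_lit 8) .nil))) .nil))) (.nd (nat_lit 6) 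
(.lf (nat_lit 285097) (.g (nat_lit 1721) (.e (nat_lit 286735) (nat_lit 3) (.e (nat_lit 98359) (nat_lit 26) (.e (nat_lit 426285) (nat_lit 10) (.e (nat_lit 434227) (nat_lit 20) (.e (nat_lit 507942) (nat_lit 15) .nil))))) .nil)) 
(.lf (nat_lit 285161) (.g (nat_lit 1948) (.e (nat_lit 286735) (nat_lit 3) (.e (nat_lit 98370) (nat_lit 28) (.e (nat_lit 442427) (nat_lit 23) (.e (nat_lit 204819) (nat_lit 17) .nil)))) .nil)))) (.nd (nat_lit 5) (.nd (nat_lit 6) 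
(.lf (nat_lit 285081) (.g (nat_lit 3684) (.e (nat_lit 286735) (nat_lit 3) (.e (nat_lit 98359) (nat_lit 26) (.e (nat_lit 426211) (nat_lit 9) (.e (nat_lit 426125) (nat_lit 2) (.e (nat_lit 196675) (nat_lit 16) .nil))))) .nil)) 
(.lf (nat_lit 285145) (.g (nat_lit 2308) (.e (nat_lit 286735) (nat_lit 3) (.e (nat_lit 98370) (nat_lit 28) (.e (nat_lit 442424) (nat_lit 22) (.e (nat_lit 196630) (nat_lit 9) (.e (nat_lit 1398) (nat_lit 106) .nil))))) .nil))) (.nd (nat_lit 6) 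
(.lf (nat_lit 285113) (.g (nat_lit 1602) (.e (nat_lit 286735) (nat_lit 3) (.e (nat_lit 98365) (nat_lit 26) (.e (nat_lit 426188) (nat_lit 9) (.e (nat_lit 426130) (nat_lit 3) .nil)))) .nil)) 
(.lf (nat_lit 285177) (.g (nat_lit 2769) (.e (nat_lit 286735) (nat_lit 3) (.e (nat_lit 98372) (nat_lit 29) (.e (nat_lit 450574) (nat_lit 1) (.e (nat_lit 499991) (nat_lit 14) (.e (nat_lit 1399) (nat_lit 106) (.e (nat_lit 319533) (nat_lit 16) .nil)))))) (.g (nat_lit 6) .nil .nil))))))) (.nd (nat_lit 3) (.nd (nat_lit 4) (.nd (nat_lit 5) (.nd (nat_lit 6) 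
(.lf (nat_lit 285061) (.g (nat_lit 1053) (.e (nat_lit 286735) (nat_lit 3) (.e (nat_lit 98359) (nat_lit 26) (.e (nat_lit 426205) (nat_lit 9) .nil))) .nil)) 
(.lf (nat_lit 285125) (.g (nat_lit 2974) (.e (nat_lit 286735) (nat_lit 3) (.e (nat_lit 98365) (nat_lit 26) (.e (nat_lit 426306) (nat_lit 12) (.e (nat_lit 475185) (nat_lit 29) (.e (nat_lit 557093) (nat_lit 12) .nil))))) .nil))) (.nd (nat_lit 6) 
(.lf (nat_lit 285093) (.g (nat_lit 511) (.e (nat_lit 286735) (nat_lit 3) (.e (nat_lit 98359) (nat_lit 26) (.e (nat_lit 426282) (nat_lit 10) (.e (nat_lit 434235) (nat_lit 24) .nil)))) .nil)) 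
(.lf (nat_lit 285157) (.g (nat_lit 2145) (.e (nat_lit 286735) (nat_lit 3) (.e (nat_lit 98370) (nat_lit 28) (.e (nat_lit 442427) (nat_lit 23) (.e (nat_lit 204814) (nat_lit 17) .nil)))) .nil)))) (.nd (nat_lit 5) (.nd (nat_lit 6) 
(.lf (nat_lit 285077) (.g (nat_lit 3372) (.e (nat_lit 286735) (nat_lit 3) (.e (nat_lit 98359) (nat_lit 26) (.e (nat_lit 426211) (nat_lit 9) (.e (nat_lit 426125) (nat_lit 2) (.e (nat_lit 196657) (nat_lit 12) .nil))))) .nil)) 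
(.lf (nat_lit 285141) (.g (nat_lit 1735) (.e (nat_lit 286735) (nat_lit 3) (.e (nat_lit 98370) (nat_lit 28) (.e (nat_lit 442424) (nat_lit 22) (.e (nat_lit 196626) (nat_lit 9) (.e (nat_lit 1400) (nat_lit 106) .nil))))) .nil))) (.nd (nat_lit 6) 
(.lf (nat_lit 285109) (.g (nat_lit 966) (.e (nat_lit 286735) (nat_lit 3) (.e (nat_lit 98362) (nat_lit 26) (.e (nat_lit 426211) (nat_lit 9) (.e (nat_lit 426125) (nat_lit 2) (.e (nat_lit 204544) (nat_lit 18) .nil))))) .nil)) 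
(.lf (nat_lit 285173) (.g (nat_lit 2236) (.e (nat_lit 286735) (nat_lit 3) (.e (nat_lit 98371) (nat_lit 28) (.e (nat_lit 442425) (nat_lit 23) (.e (nat_lit 204819) (nat_lit 17) (.e (nat_lit 6113) (nat_lit 332) (.e (nat_lit 1361) (nat_lit 102) .nil)))))) (.g (nat_lit 5) .nil .nil)))))) (.nd (nat_lit 4) (.nd (nat_lit 5) (.nd (nat_lit 6) 
(.lf (nat_lit 285069) (.g (nat_lit 961) (.e (nat_lit 286735) (nat_lit 3) (.e (nat_lit 98359) (nat_lit 26) (.e (nat_lit 426211) (nat_lit 9) (.e (nat_lit 426125) (nat_lit 2) .nil)))) .nil)) 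
(.lf (nat_lit 285133) (.g (nat_lit 360) (.e (nat_lit 286735) (nat_lit 3) (.e (nat_lit 98369) (nat_lit 28) (.e (nat_lit 442417) (nat_lit 20) .nil))) .nil))) (.nd (nat_lit 6) 
(.lf (nat_lit 285101) (.g (nat_lit 941) (.e (nat_lit 286735) (nat_lit 3) (.e (nat_lit 98359) (nat_lit 26) (.e (nat_lit 426301) (nat_lit 11) .nil))) .nil)) 
(.lf (nat_lit 285165) (.g (nat_lit 2224) (.e (nat_lit 286735) (nat_lit 3) (.e (nat_lit 98370) (nat_lit 28) (.e (nat_lit 442427) (nat_lit 23) (.e (nat_lit 204845) (nat_lit 24) (.e (nat_lit 327424) (nat_lit 16) .nil))))) .nil)))) (.nd (nat_lit 5) (.nd (nat_lit 6) 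
(.lf (nat_lit 285085) (.g (nat_lit 3886) (.e (nat_lit 286735) (nat_lit 3) (.e (nat_lit 98359) (nat_lit 26) (.e (nat_lit 426212) (nat_lit 9) (.e (nat_lit 426125) (nat_lit 2) (.e (nat_lit 196661) (nat_lit 12) (.e (nat_lit 57714) (nat_lit 176) (.e (nat_lit 1349) (nat_lit 102) .nil))))))) (.g (nat_lit 5) .nil .nil))) 
(.lf (nat_lit 285149) (.g (nat_lit 419) (.e (nat_lit 286735) (nat_lit 3) (.e (nat_lit 98370) (nat_lit 28) (.e (nat_lit 442425) (nat_lit 23) .nil))) .nil))) (.nd (nat_lit 6) 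
(.lf (nat_lit 285117) (.g (nat_lit 421) (.e (nat_lit 286735) (nat_lit 3) (.e (nat_lit 98365) (nat_lit 26) (.e (nat_lit 426297) (nat_lit 11) .nil))) .nil)) 
(.lf (nat_lit 285181) (.g (nat_lit 1666) (.e (nat_lit 286735) (nat_lit 3) (.e (nat_lit 98372) (nat_lit 29) (.e (nat_lit 450579) (nat_lit 5) (.e (nat_lit 532481) (nat_lit 0) .nil)))) .nil))))))) (.nd (nat_lit 2) (.nd (nat_lit 3) (.nd (nat_lit 4) (.nd (nat_lit 5) (.nd (nat_lit 6) 
(.lf (nat_lit 285059) (.g (nat_lit 1878) (.e (nat_lit 286735) (nat_lit 3) (.e (nat_lit 98359) (nat_lit 26) (.e (nat_lit 426192) (nat_lit 9) (.e (nat_lit 426131) (nat_lit 3) (.e (nat_lit 204846) (nat_lit 24) .nil))))) .nil)) 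
(.lf (nat_lit 285123) (.g (nat_lit 3880) (.e (nat_lit 286735) (nat_lit 3) (.e (nat_lit 98365) (nat_lit 26) (.e (nat_lit 426298) (nat_lit 11) (.e (nat_lit 458789) (nat_lit 23) (.e (nat_lit 532522) (nat_lit 7) (.e (nat_lit 319530) (nat_lit 16) .nil)))))) (.g (nat_lit 0) .nil .nil)))) (.nd (nat_lit 6) 
(.lf (nat_lit 285091) (.g (nat_lit 1061) (.e (nat_lit 286735) (nat_lit 3) (.e (nat_lit 98359) (nat_lit 26) (.e (nat_lit 426277) (nat_lit 10) .nil))) .nil)) 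
(.lf (nat_lit 285155) (.g (nat_lit 1849) (.e (nat_lit 286735) (nat_lit 3) (.e (nat_lit 98370) (nat_lit 28) (.e (nat_lit 442426) (nat_lit 23) (.e (nat_lit 204846) (nat_lit 24) (.e (nat_lit 327424) (nat_lit 16) .nil))))) .nil)))) (.nd (nat_lit 5) (.nd (nat_lit 6) 
(.lf (nat_lit 285075) (.g (nat_lit 4907) (.e (nat_lit 286735) (nat_lit 3) (.e (nat_lit 98359) (nat_lit 26) (.e (nat_lit 426211) (nat_lit 9) (.e (nat_lit 426125) (nat_lit 2) (.e (nat_lit 196630) (nat_lit 9) (.e (nat_lit 1393) (nat_lit 106) (.e (nat_lit 319531) (nat_lit 16) .nil))))))) (.g (nat_lit 5) .nil .nil))) 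
(.lf (nat_lit 285139) (.g (nat_lit 1634) (.e (nat_lit 286735) (nat_lit 3) (.e (nat_lit 98370) (nat_lit 28) (.e (nat_lit 442424) (nat_lit 22) (.e (nat_lit 196617) (nat_lit 9) .nil)))) .nil))) (.nd (nat_lit 6) 
(.lf (nat_lit 285107) (.g (nat_lit 1089) (.e (nat_lit 286735) (nat_lit 3) (.e (nat_lit 98359) (nat_lit 26) (.e (nat_lit 426345) (nat_lit 14) .nil))) .nil)) 
(.lf (nat_lit 285171) (.g (nat_lit 3150) (.e (nat_lit 286735) (nat_lit 3) (.e (nat_lit 98370) (nat_lit 28) (.e (nat_lit 442433) (nat_lit 25) (.e (nat_lit 245784) (nat_lit 9) (.e (nat_lit 1399) (nat_lit 106) (.e (nat_lit 319534) (nat_lit 16) .nil)))))) (.g (nat_lit 0) .nil .nil)))))) (.nd (nat_lit 4) (.nd (nat_lit 5) (.nd (nat_lit 6) 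
(.lf (nat_lit 285067) (.g (nat_lit 999) (.e (nat_lit 286735) (nat_lit 3) (.e (nat_lit 98359) (nat_lit 26) (.e (nat_lit 426209) (nat_lit 9) .nil))) .nil)) 
(.lf (nat_lit 285131) (.g (nat_lit 858) (.e (nat_lit 286735) (nat_lit 3) (.e (nat_lit 98367) (nat_lit 27) (.e (nat_lit 434196) (nat_lit 15) .nil))) .nil))) (.nd (nat_lit 6) 
(.lf (nat_lit 285099) (.g (nat_lit 1396) (.e (nat_lit 286735) (nat_lit 3) (.e (nat_lit 98359) (nat_lit 26) (.e (nat_lit 426286) (nat_lit 10) (.e (nat_lit 434234) (nat_lit 23) .nil)))) .nil)) 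
(.lf (nat_lit 285163) (.g (nat_lit 2112) (.e (nat_lit 286735) (nat_lit 3) (.e (nat_lit 98370) (nat_lit 28) (.e (nat_lit 442427) (nat_lit 23) (.e (nat_lit 204826) (nat_lit 17) .nil)))) .nil)))) (.nd (nat_lit 5) (.nd (nat_lit 6) 
(.lf (nat_lit 285083) (.g (nat_lit 3718) (.e (nat_lit 286735) (nat_lit 3) (.e (nat_lit 98359) (nat_lit 26) (.e (nat_lit 426212) (nat_lit 9) (.e (nat_lit 426125) (nat_lit 2) (.e (nat_lit 196661) (nat_lit 12) (.e (nat_lit 57712) (nat_lit 176) (.e (nat_lit 1361) (nat_lit 102) .nil))))))) (.g (nat_lit 5) .nil .nil))) 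
(.lf (nat_lit 285147) (.g (nat_lit 1643) (.e (nat_lit 286735) (nat_lit 3) (.e (nat_lit 98370) (nat_lit 28) (.e (nat_lit 442424) (nat_lit 22) (.e (nat_lit 196661) (nat_lit 12) (.e (nat_lit 57711) (nat_lit 176) .nil))))) .nil))) (.nd (nat_lit 6) 
(.lf (nat_lit 285115) (.g (nat_lit 2239) (.e (nat_lit 286735) (nat_lit 3) (.e (nat_lit 98365) (nat_lit 26) (.e (nat_lit 426296) (nat_lit 11) (.e (nat_lit 458789) (nat_lit 23) (.e (nat_lit 532486) (nat_lit 0) (.e (nat_lit 6113) (nat_lit 332) (.e (nat_lit 1361) (nat_lit 102) .nil))))))) (.g (nat_lit 4) .nil .nil))) 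
(.lf (nat_lit 285179) (.g (nat_lit 682) (.e (nat_lit 286735) (nat_lit 3) (.e (nat_lit 98372) (nat_lit 29) (.e (nat_lit 450576) (nat_lit 2) (.e (nat_lit 515840) (nat_lit 14) .nil)))) .nil)))))) (.nd (nat_lit 3) (.nd (nat_lit 4) (.nd (nat_lit 5) (.nd (nat_lit 6) 
(.lf (nat_lit 285063) (.g (nat_lit 829) (.e (nat_lit 286735) (nat_lit 3) (.e (nat_lit 98359) (nat_lit 26) (.e (nat_lit 426207) (nat_lit 9) .nil))) .nil)) 
(.lf (nat_lit 285127) (.g (nat_lit 861) (.e (nat_lit 286735) (nat_lit 3) (.e (nat_lit 98367) (nat_lit 27) (.e (nat_lit 434177) (nat_lit 0) .nil))) .nil))) (.nd (nat_lit 6) 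
(.lf (nat_lit 285095) (.g (nat_lit 1046) (.e (nat_lit 286735) (nat_lit 3) (.e (nat_lit 98359) (nat_lit 26) (.e (nat_lit 426284) (nat_lit 10) .nil))) .nil)) 
(.lf (nat_lit 285159) (.g (nat_lit 2519) (.e (nat_lit 286735) (nat_lit 3) (.e (nat_lit 98370) (nat_lit 28) (.e (nat_lit 442427) (nat_lit 23) (.e (nat_lit 204816) (nat_lit 17) (.e (nat_lit 6192) (nat_lit 332) .nil))))) .nil)))) (.nd (nat_lit 5) (.nd (nat_lit 6) 
(.lf (nat_lit 285079) (.g (nat_lit 3869) (.e (nat_lit 286735) (nat_lit 3) (.e (nat_lit 98359) (nat_lit 26) (.e (nat_lit 426211) (nat_lit 9) (.e (nat_lit 426125) (nat_lit 2) (.e (nat_lit 196657) (nat_lit 12) (.e (nat_lit 57716) (nat_lit 176) (.e (nat_lit 1348) (nat_lit 102) .nil))))))) (.g (nat_lit 4) .nil .nil))) 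
(.lf (nat_lit 285143) (.g (nat_lit 1448) (.e (nat_lit 286735) (nat_lit 3) (.e (nat_lit 98370) (nat_lit 28) (.e (nat_lit 442424) (nat_lit 22) (.e (nat_lit 196628) (nat_lit 9) .nil)))) .nil))) (.nd (nat_lit 6) 
(.lf (nat_lit 285111) (.g (nat_lit 2454) (.e (nat_lit 286735) (nat_lit 3) (.e (nat_lit 98364) (nat_lit 26) (.e (nat_lit 426298) (nat_lit 11) (.e (nat_lit 458789) (nat_lit 23) (.e (nat_lit 532490) (nat_lit 0) (.e (nat_lit 7936) (nat_lit 332) (.e (nat_lit 1348) (nat_lit 102) .nil))))))) (.g (nat_lit 4) .nil .nil))) 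
(.lf (nat_lit 285175) (.g (nat_lit 2195) (.e (nat_lit 286735) (nat_lit 3) (.e (nat_lit 98371) (nat_lit 28) (.e (nat_lit 442427) (nat_lit 23) (.e (nat_lit 204846) (nat_lit 24) (.e (nat_lit 327424) (nat_lit 16) .nil))))) .nil))))) (.nd (nat_lit 4) (.nd (nat_lit 5) (.nd (nat_lit 6) 
(.lf (nat_lit 285071) (.g (nat_lit 3555) (.e (nat_lit 286735) (nat_lit 3) (.e (nat_lit 98359) (nat_lit 26) (.e (nat_lit 426211) (nat_lit 9) (.e (nat_lit 426125) (nat_lit 2) (.e (nat_lit 196617) (nat_lit 9) (.e (nat_lit 1394) (nat_lit 106) (.e (nat_lit 319531) (nat_lit 16) .nil))))))) (.g (nat_lit 4) .nil .nil))) 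
(.lf (nat_lit 285135) (.g (nat_lit 753) (.e (nat_lit 286735) (nat_lit 3) (.e (nat_lit 98370) (nat_lit 28) (.e (nat_lit 442394) (nat_lit 20) .nil))) .nil))) (.nd (nat_lit 6) 
(.lf (nat_lit 285103) (.g (nat_lit 1028) (.e (nat_lit 286735) (nat_lit 3) (.e (nat_lit 98359) (nat_lit 26) (.e (nat_lit 426302) (nat_lit 11) .nil))) .nil)) 
(.lf (nat_lit 285167) (.g (nat_lit 3633) (.e (nat_lit 286735) (nat_lit 3) (.e (nat_lit 98370) (nat_lit 28) (.e (nat_lit 442427) (nat_lit 23) (.e (nat_lit 204846) (nat_lit 24) (.e (nat_lit 319532) (nat_lit 16) .nil))))) (.g (nat_lit 5) .nil .nil))))) (.nd (nat_lit 5) (.nd (nat_lit 6) 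
(.lf (nat_lit 285087) (.g (nat_lit 1010) (.e (nat_lit 286735) (nat_lit 3) (.e (nat_lit 98359) (nat_lit 26) (.e (nat_lit 426218) (nat_lit 9) .nil))) .nil)) 
(.lf (nat_lit 285151) (.g (nat_lit 1200) (.e (nat_lit 286735) (nat_lit 3) (.e (nat_lit 98370) (nat_lit 28) (.e (nat_lit 442425) (nat_lit 23) (.e (nat_lit 204821) (nat_lit 17) .nil)))) .nil))) (.nd (nat_lit 6) 
(.lf (nat_lit 285119) (.g (nat_lit 1159) (.e (nat_lit 286735) (nat_lit 3) (.e (nat_lit 98365) (nat_lit 26) (.e (nat_lit 426298) (nat_lit 11) (.e (nat_lit 458781) (nat_lit 19) .nil)))) .nil)) 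
(.lf (nat_lit 285183) (.g (nat_lit 2543) (.e (nat_lit 286735) (nat_lit 3) (.e (nat_lit 98372) (nat_lit 29) (.e (nat_lit 450579) (nat_lit 5) (.e (nat_lit 532481) (nat_lit 0) (.e (nat_lit 6157) (nat_lit 332) .nil))))) .nil)))))))))

noncomputable def tv3622 : DT := (.nd (nat_lit 0) (.nd (nat_lit 1) (.nd (nat_lit 2) (.nd (nat_lit 3) (.nd (nat_lit 4) (.nd (nat_lit 5) (.nd (nat_lit 6) 
(.lf (nat_lit 285184) (.g (nat_lit 2197) (.e (nat_lit 286735) (nat_lit 3) (.e (nat_lit 98372) (nat_lit 29) (.e (nat_lit 450579) (nat_lit 5) (.e (nat_lit 532484) (nat_lit 0) (.e (nat_lit 6168) (nat_lit 332) (.e (nat_lit 7936) (nat_lit 102) .nil)))))) (.g (nat_lit 4) .nil .nil))) 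
(.lf (nat_lit 285248) (.g (nat_lit 2454) (.e (nat_lit 286735) (nat_lit 3) (.e (nat_lit 98373) (nat_lit 29) (.e (nat_lit 450579) (nat_lit 5) (.e (nat_lit 532492) (nat_lit 0) .nil)))) .nil))) (.nd (nat_lit 6) 
(.lf (nat_lit 285216) (.g (nat_lit 1336) (.e (nat_lit 286735) (nat_lit 3) (.e (nat_lit 98373) (nat_lit 29) (.e (nat_lit 450562) (nat_lit 0) (.e (nat_lit 4176) (nat_lit 251) .nil)))) .nil)) 
(.lf (nat_lit 285280) (.g (nat_lit 2968) (.e (nat_lit 286735) (nat_lit 3) (.e (nat_lit 98373) (nat_lit 29) (.e (nat_lit 450587) (nat_lit 10) (.e (nat_lit 573443) (nat_lit 0) .nil)))) .nil)))) (.nd (nat_lit 5) (.nd (nat_lit 6) 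
(.lf (nat_lit 285200) (.g (nat_lit 1119) (.e (nat_lit 286735) (nat_lit 3) (.e (nat_lit 98372) (nat_lit 29) (.e (nat_lit 450580) (nat_lit 5) (.e (nat_lit 540416) (nat_lit 7) .nil)))) .nil)) 
(.lf (nat_lit 285264) (.g (nat_lit 2808) (.e (nat_lit 286735) (nat_lit 3) (.e (nat_lit 98373) (nat_lit 29) (.e (nat_lit 450581) (nat_lit 5) (.e (nat_lit 532489) (nat_lit 0) .nil)))) .nil))) (.nd (nat_lit 6) 
(.lf (nat_lit 285232) (.g (nat_lit 2951) (.e (nat_lit 286735) (nat_lit 3) (.e (nat_lit 98373) (nat_lit 29) (.e (nat_lit 450564) (nat_lit 0) (.e (nat_lit 3851) (nat_lit 233) .nil)))) .nil)) 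
(.lf (nat_lit 285296) (.g (nat_lit 3381) (.e (nat_lit 286735) (nat_lit 3) (.e (nat_lit 98373) (nat_lit 29) (.e (nat_lit 450587) (nat_lit 10) (.e (nat_lit 573454) (nat_lit 9) (.e (nat_lit 88) (nat_lit 0) (.e (nat_lit 7936) (nat_lit 377) (.e (nat_lit 1348) (nat_lit 102) .nil))))))) (.g (nat_lit 4) .nil .nil)))))) (.nd (nat_lit 4) (.nd (nat_lit 5) (.nd (nat_lit 6) 
(.lf (nat_lit 285192) (.g (nat_lit 2904) (.e (nat_lit 286735) (nat_lit 3) (.e (nat_lit 98372) (nat_lit 29) (.e (nat_lit 450579) (nat_lit 5) (.e (nat_lit 532523) (nat_lit 7) (.e (nat_lit 327424) (nat_lit 16) .nil))))) (.g (nat_lit 4) .nil .nil))) 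
(.lf (nat_lit 285256) (.g (nat_lit 4110) (.e (nat_lit 286735) (nat_lit 3) (.e (nat_lit 98373) (nat_lit 29) (.e (nat_lit 450580) (nat_lit 5) (.e (nat_lit 532523) (nat_lit 7) (.e (nat_lit 319532) (nat_lit 16) .nil))))) (.g (nat_lit 4) .nil .nil)))) (.nd (nat_lit 6) 
(.lf (nat_lit 285224) (.g (nat_lit 1548) (.e (nat_lit 286735) (nat_lit 3) (.e (nat_lit 98373) (nat_lit 29) (.e (nat_lit 450563) (nat_lit 0) (.e (nat_lit 3866) (nat_lit 233) .nil)))) .nil)) 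
(.lf (nat_lit 285288) (.g (nat_lit 2105) (.e (nat_lit 286735) (nat_lit 3) (.e (nat_lit 98373) (nat_lit 29) (.e (nat_lit 450587) (nat_lit 10) (.e (nat_lit 573448) (nat_lit 9) (.e (nat_lit 4) (nat_lit 0) .nil))))) .nil)))) (.nd (nat_lit 5) (.nd (nat_lit 6) 
(.lf (nat_lit 285208) (.g (nat_lit 2958) (.e (nat_lit 286735) (nat_lit 3) (.e (nat_lit 98372) (nat_lit 29) (.e (nat_lit 450588) (nat_lit 10) (.e (nat_lit 573452) (nat_lit 9) (.e (nat_lit 365) (nat_lit 31) .nil))))) .nil)) 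
(.lf (nat_lit 285272) (.g (nat_lit 3108) (.e (nat_lit 286735) (nat_lit 3) (.e (nat_lit 98373) (nat_lit 29) (.e (nat_lit 450581) (nat_lit 5) (.e (nat_lit 532523) (nat_lit 7) (.e (nat_lit 327424) (nat_lit 16) .nil))))) (.g (nat_lit 4) .nil .nil)))) (.nd (nat_lit 6) 
(.lf (nat_lit 285240) (.g (nat_lit 424) (.e (nat_lit 286735) (nat_lit 3) (.e (nat_lit 98373) (nat_lit 29) (.e (nat_lit 450570) (nat_lit 1) .nil))) .nil)) 
(.lf (nat_lit 285304) (.g (nat_lit 3761) (.e (nat_lit 286735) (nat_lit 3) (.e (nat_lit 98373) (nat_lit 29) (.e (nat_lit 450587) (nat_lit 10) (.e (nat_lit 573461) (nat_lit 9) .nil)))) .nil)))))) (.nd (nat_lit 3) (.nd (nat_lit 4) (.nd (nat_lit 5) (.nd (nat_lit 6) 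
(.lf (nat_lit 285188) (.g (nat_lit 2466) (.e (nat_lit 286735) (nat_lit 3) (.e (nat_lit 98372) (nat_lit 29) (.e (nat_lit 450579) (nat_lit 5) (.e (nat_lit 532522) (nat_lit 7) (.e (nat_lit 327424) (nat_lit 16) .nil))))) (.g (nat_lit 4) .nil .nil))) 
(.lf (nat_lit 285252) (.g (nat_lit 2314) (.e (nat_lit 286735) (nat_lit 3) (.e (nat_lit 98373) (nat_lit 29) (.e (nat_lit 450580) (nat_lit 5) (.e (nat_lit 532490) (nat_lit 0) .nil)))) .nil))) (.nd (nat_lit 6) 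
(.lf (nat_lit 285220) (.g (nat_lit 1919) (.e (nat_lit 286735) (nat_lit 3) (.e (nat_lit 98373) (nat_lit 29) (.e (nat_lit 450562) (nat_lit 0) (.e (nat_lit 4284) (nat_lit 253) .nil)))) .nil)) 
(.lf (nat_lit 285284) (.g (nat_lit 2762) (.e (nat_lit 286735) (nat_lit 3) (.e (nat_lit 98373) (nat_lit 29) (.e (nat_lit 450587) (nat_lit 10) (.e (nat_lit 573447) (nat_lit 0) .nil)))) .nil)))) (.nd (nat_lit 5) (.nd (nat_lit 6) 
(.lf (nat_lit 285204) (.g (nat_lit 1232) (.e (nat_lit 286735) (nat_lit 3) (.e (nat_lit 98372) (nat_lit 29) (.e (nat_lit 450586) (nat_lit 10) (.e (nat_lit 573451) (nat_lit 9) .nil)))) .nil)) 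
(.lf (nat_lit 285268) (.g (nat_lit 2553) (.e (nat_lit 286735) (nat_lit 3) (.e (nat_lit 98373) (nat_lit 29) (.e (nat_lit 450581) (nat_lit 5) (.e (nat_lit 532493) (nat_lit 0) .nil)))) .nil))) (.nd (nat_lit 6) 
(.lf (nat_lit 285236) (.g (nat_lit 1087) (.e (nat_lit 286735) (nat_lit 3) (.e (nat_lit 98373) (nat_lit 29) (.e (nat_lit 450567) (nat_lit 0) .nil))) .nil)) 
(.lf (nat_lit 285300) (.g (nat_lit 1903) (.e (nat_lit 286735) (nat_lit 3) (.e (nat_lit 98373) (nat_lit 29) (.e (nat_lit 450587) (nat_lit 10) (.e (nat_lit 573457) (nat_lit 9) (.e (nat_lit 7936) (nat_lit 30) (.e (nat_lit 417536) (nat_lit 6) .nil)))))) (.g (nat_lit 4) .nil .nil)))))) (.nd (nat_lit 4) (.nd (nat_lit 5) (.nd (nat_lit 6) 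
(.lf (nat_lit 285196) (.g (nat_lit 1896) (.e (nat_lit 286735) (nat_lit 3) (.e (nat_lit 98372) (nat_lit 29) (.e (nat_lit 450580) (nat_lit 5) (.e (nat_lit 532522) (nat_lit 7) (.e (nat_lit 319531) (nat_lit 16) .nil))))) .nil)) 
(.lf (nat_lit 285260) (.g (nat_lit 3063) (.e (nat_lit 286735) (nat_lit 3) (.e (nat_lit 98373) (nat_lit 29) (.e (nat_lit 450581) (nat_lit 5) (.e (nat_lit 532483) (nat_lit 0) .nil)))) .nil))) (.nd (nat_lit 6) 
(.lf (nat_lit 285228) (.g (nat_lit 1189) (.e (nat_lit 286735) (nat_lit 3) (.e (nat_lit 98373) (nat_lit 29) (.e (nat_lit 450563) (nat_lit 0) (.e (nat_lit 4175) (nat_lit 251) .nil)))) .nil)) 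
(.lf (nat_lit 285292) (.g (nat_lit 3501) (.e (nat_lit 286735) (nat_lit 3) (.e (nat_lit 98373) (nat_lit 29) (.e (nat_lit 450587) (nat_lit 10) (.e (nat_lit 573452) (nat_lit 9) .nil)))) .nil)))) (.nd (nat_lit 5) (.nd (nat_lit 6) 
(.lf (nat_lit 285212) (.g (nat_lit 1033) (.e (nat_lit 286735) (nat_lit 3) (.e (nat_lit 98373) (nat_lit 29) (.e (nat_lit 450561) (nat_lit 0) .nil))) .nil)) 
(.lf (nat_lit 285276) (.g (nat_lit 1536) (.e (nat_lit 286735) (nat_lit 3) (.e (nat_lit 98373) (nat_lit 29) (.e (nat_lit 450585) (nat_lit 10) (.e (nat_lit 573451) (nat_lit 9) .nil)))) .nil))) (.nd (nat_lit 6) 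
(.lf (nat_lit 285244) (.g (nat_lit 1890) (.e (nat_lit 286735) (nat_lit 3) (.e (nat_lit 98373) (nat_lit 29) (.e (nat_lit 450573) (nat_lit 1) (.e (nat_lit 500056) (nat_lit 17) .nil)))) .nil)) 
(.lf (nat_lit 285308) (.g (nat_lit 3170) (.e (nat_lit 286735) (nat_lit 3) (.e (nat_lit 98373) (nat_lit 29) (.e (nat_lit 450587) (nat_lit 10) (.e (nat_lit 573467) (nat_lit 10) (.e (nat_lit 16128) (nat_lit 180) .nil))))) .nil))))))) (.nd (nat_lit 2) (.nd (nat_lit 3) (.nd (nat_lit 4) (.nd (nat_lit 5) (.nd (nat_lit 6) 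
(.lf (nat_lit 285186) (.g (nat_lit 2054) (.e (nat_lit 286735) (nat_lit 3) (.e (nat_lit 98372) (nat_lit 29) (.e (nat_lit 450579) (nat_lit 5) (.e (nat_lit 532494) (nat_lit 0) .nil)))) .nil)) 
(.lf (nat_lit 285250) (.g (nat_lit 2371) (.e (nat_lit 286735) (nat_lit 3) (.e (nat_lit 98373) (nat_lit 29) (.e (nat_lit 450579) (nat_lit 5) (.e (nat_lit 532524) (nat_lit 8) .nil)))) .nil))) (.nd (nat_lit 6) 
(.lf (nat_lit 285218) (.g (nat_lit 1336) (.e (nat_lit 286735) (nat_lit 3) (.e (nat_lit 98373) (nat_lit 29) (.e (nat_lit 450562) (nat_lit 0) (.e (nat_lit 4279) (nat_lit 253) .nil)))) .nil)) 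
(.lf (nat_lit 285282) (.g (nat_lit 4082) (.e (nat_lit 286735) (nat_lit 3) (.e (nat_lit 98373) (nat_lit 29) (.e (nat_lit 450587) (nat_lit 10) (.e (nat_lit 573444) (nat_lit 0) (.e (nat_lit 75) (nat_lit 0) .nil))))) .nil)))) (.nd (nat_lit 5) (.nd (nat_lit 6) 
(.lf (nat_lit 285202) (.g (nat_lit 3363) (.e (nat_lit 286735) (nat_lit 3) (.e (nat_lit 98372) (nat_lit 29) (.e (nat_lit 450581) (nat_lit 5) (.e (nat_lit 532523) (nat_lit 7) (.e (nat_lit 319533) (nat_lit 16) .nil))))) (.g (nat_lit 5) .nil .nil))) 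
(.lf (nat_lit 285266) (.g (nat_lit 2808) (.e (nat_lit 286735) (nat_lit 3) (.e (nat_lit 98373) (nat_lit 29) (.e (nat_lit 450581) (nat_lit 5) (.e (nat_lit 532491) (nat_lit 0) .nil)))) .nil))) (.nd (nat_lit 6) 
(.lf (nat_lit 285234) (.g (nat_lit 1281) (.e (nat_lit 286735) (nat_lit 3) (.e (nat_lit 98373) (nat_lit 29) (.e (nat_lit 450565) (nat_lit 0) .nil))) .nil)) 
(.lf (nat_lit 285298) (.g (nat_lit 1318) (.e (nat_lit 286735) (nat_lit 3) (.e (nat_lit 98373) (nat_lit 29) (.e (nat_lit 450587) (nat_lit 10) (.e (nat_lit 573456) (nat_lit 9) (.e (nat_lit 67) (nat_lit 0) .nil))))) .nil))))) (.nd (nat_lit 4) (.nd (nat_lit 5) (.nd (nat_lit 6) 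
(.lf (nat_lit 285194) (.g (nat_lit 1588) (.e (nat_lit 286735) (nat_lit 3) (.e (nat_lit 98372) (nat_lit 29) (.e (nat_lit 450579) (nat_lit 5) (.e (nat_lit 532525) (nat_lit 8) .nil)))) .nil)) 
(.lf (nat_lit 285258) (.g (nat_lit 2808) (.e (nat_lit 286735) (nat_lit 3) (.e (nat_lit 98373) (nat_lit 29) (.e (nat_lit 450581) (nat_lit 5) (.e (nat_lit 532480) (nat_lit 0) .nil)))) .nil))) (.nd (nat_lit 6) 
(.lf (nat_lit 285226) (.g (nat_lit 1093) (.e (nat_lit 286735) (nat_lit 3) (.e (nat_lit 98373) (nat_lit 29) (.e (nat_lit 450563) (nat_lit 0) (.e (nat_lit 3996) (nat_lit 240) .nil)))) .nil)) 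
(.lf (nat_lit 285290) (.g (nat_lit 3433) (.e (nat_lit 286735) (nat_lit 3) (.e (nat_lit 98373) (nat_lit 29) (.e (nat_lit 450587) (nat_lit 10) (.e (nat_lit 573449) (nat_lit 9) .nil)))) .nil)))) (.nd (nat_lit 5) (.nd (nat_lit 6) 
(.lf (nat_lit 285210) (.g (nat_lit 2335) (.e (nat_lit 286735) (nat_lit 3) (.e (nat_lit 98372) (nat_lit 29) (.e (nat_lit 450588) (nat_lit 10) (.e (nat_lit 573457) (nat_lit 9) .nil)))) .nil)) 
(.lf (nat_lit 285274) (.g (nat_lit 2382) (.e (nat_lit 286735) (nat_lit 3) (.e (nat_lit 98373) (nat_lit 29) (.e (nat_lit 450583) (nat_lit 7) (.e (nat_lit 548909) (nat_lit 17) .nil)))) .nil))) (.nd (nat_lit 6) 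
(.lf (nat_lit 285242) (.g (nat_lit 469) (.e (nat_lit 286735) (nat_lit 3) (.e (nat_lit 98373) (nat_lit 29) (.e (nat_lit 450572) (nat_lit 1) .nil))) .nil)) 
(.lf (nat_lit 285306) (.g (nat_lit 3603) (.e (nat_lit 286735) (nat_lit 3) (.e (nat_lit 98373) (nat_lit 29) (.e (nat_lit 450587) (nat_lit 10) (.e (nat_lit 573465) (nat_lit 9) .nil)))) .nil)))))) (.nd (nat_lit 3) (.nd (nat_lit 4) (.nd (nat_lit 5) (.nd (nat_lit 6) 
(.lf (nat_lit 285190) (.g (nat_lit 2528) (.e (nat_lit 286735) (nat_lit 3) (.e (nat_lit 98372) (nat_lit 29) (.e (nat_lit 450579) (nat_lit 5) (.e (nat_lit 532523) (nat_lit 7) (.e (nat_lit 319530) (nat_lit 16) .nil))))) .nil)) 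
(.lf (nat_lit 285254) (.g (nat_lit 3801) (.e (nat_lit 286735) (nat_lit 3) (.e (nat_lit 98373) (nat_lit 29) (.e (nat_lit 450580) (nat_lit 5) (.e (nat_lit 532522) (nat_lit 7) (.e (nat_lit 319531) (nat_lit 16) .nil))))) (.g (nat_lit 4) .nil .nil)))) (.nd (nat_lit 6) 
(.lf (nat_lit 285222) (.g (nat_lit 1336) (.e (nat_lit 286735) (nat_lit 3) (.e (nat_lit 98373) (nat_lit 29) (.e (nat_lit 450562) (nat_lit 0) (.e (nat_lit 4299) (nat_lit 256) .nil)))) .nil)) 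
(.lf (nat_lit 285286) (.g (nat_lit 1911) (.e (nat_lit 286735) (nat_lit 3) (.e (nat_lit 98373) (nat_lit 29) (.e (nat_lit 450587) (nat_lit 10) (.e (nat_lit 581376) (nat_lit 1) .nil)))) .nil)))) (.nd (nat_lit 5) (.nd (nat_lit 6) 
(.lf (nat_lit 285206) (.g (nat_lit 3074) (.e (nat_lit 286735) (nat_lit 3) (.e (nat_lit 98372) (nat_lit 29) (.e (nat_lit 450588) (nat_lit 10) (.e (nat_lit 573451) (nat_lit 9) .nil)))) .nil)) 
(.lf (nat_lit 285270) (.g (nat_lit 2808) (.e (nat_lit 286735) (nat_lit 3) (.e (nat_lit 98373) (nat_lit 29) (.e (nat_lit 450581) (nat_lit 5) (.e (nat_lit 532495) (nat_lit 0) .nil)))) .nil))) (.nd (nat_lit 6) 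
(.lf (nat_lit 285238) (.g (nat_lit 1269) (.e (nat_lit 286735) (nat_lit 3) (.e (nat_lit 98373) (nat_lit 29) (.e (nat_lit 450568) (nat_lit 0) .nil))) .nil)) 
(.lf (nat_lit 285302) (.g (nat_lit 4310) (.e (nat_lit 286735) (nat_lit 3) (.e (nat_lit 98373) (nat_lit 29) (.e (nat_lit 450587) (nat_lit 10) (.e (nat_lit 573458) (nat_lit 9) (.e (nat_lit 42) (nat_lit 0) (.e (nat_lit 7936) (nat_lit 377) (.e (nat_lit 1348) (nat_lit 102) .nil))))))) (.g (nat_lit 4) .nil .nil)))))) (.nd (nat_lit 4) (.nd (nat_lit 5) (.nd (nat_lit 6) 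
(.lf (nat_lit 285198) (.g (nat_lit 3675) (.e (nat_lit 286735) (nat_lit 3) (.e (nat_lit 98372) (nat_lit 29) (.e (nat_lit 450580) (nat_lit 5) (.e (nat_lit 532523) (nat_lit 7) (.e (nat_lit 319534) (nat_lit 16) .nil))))) (.g (nat_lit 0) .nil .nil))) 
(.lf (nat_lit 285262) (.g (nat_lit 2808) (.e (nat_lit 286735) (nat_lit 3) (.e (nat_lit 98373) (nat_lit 29) (.e (nat_lit 450581) (nat_lit 5) (.e (nat_lit 532485) (nat_lit 0) .nil)))) .nil))) (.nd (nat_lit 6) 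
(.lf (nat_lit 285230) (.g (nat_lit 1265) (.e (nat_lit 286735) (nat_lit 3) (.e (nat_lit 98373) (nat_lit 29) (.e (nat_lit 450563) (nat_lit 0) (.e (nat_lit 4202) (nat_lit 251) .nil)))) .nil)) 
(.lf (nat_lit 285294) (.g (nat_lit 3228) (.e (nat_lit 286735) (nat_lit 3) (.e (nat_lit 98373) (nat_lit 29) (.e (nat_lit 450587) (nat_lit 10) (.e (nat_lit 573454) (nat_lit 9) (.e (nat_lit 72) (nat_lit 0) .nil))))) .nil)))) (.nd (nat_lit 5) (.nd (nat_lit 6) 
(.lf (nat_lit 285214) (.g (nat_lit 220) (.e (nat_lit 286735) (nat_lit 3) (.e (nat_lit 98373) (nat_lit 29) (.e (nat_lit 450562) (nat_lit 0) .nil))) .nil)) 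
(.lf (nat_lit 285278) (.g (nat_lit 3800) (.e (nat_lit 286735) (nat_lit 3) (.e (nat_lit 98373) (nat_lit 29) (.e (nat_lit 450587) (nat_lit 10) (.e (nat_lit 573441) (nat_lit 0) .nil)))) .nil))) (.nd (nat_lit 6) 
(.lf (nat_lit 285246) (.g (nat_lit 468) (.e (nat_lit 286735) (nat_lit 3) (.e (nat_lit 98373) (nat_lit 29) (.e (nat_lit 450575) (nat_lit 1) .nil))) .nil)) 
(.lf (nat_lit 285310) (.g (nat_lit 1911) (.e (nat_lit 286735) (nat_lit 3) (.e (nat_lit 98373) (nat_lit 29) (.e (nat_lit 450587) (nat_lit 10) (.e (nat_lit 581376) (nat_lit 10) .nil)))) .nil)))))))) (.nd (nat_lit 1) (.nd (nat_lit 2) (.nd (nat_lit 3) (.nd (nat_lit 4) (.nd (nat_lit 5) (.nd (nat_lit 6) 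
(.lf (nat_lit 285185) (.g (nat_lit 2044) (.e (nat_lit 286735) (nat_lit 3) (.e (nat_lit 98372) (nat_lit 29) (.e (nat_lit 450579) (nat_lit 5) (.e (nat_lit 532490) (nat_lit 0) .nil)))) .nil)) 
(.lf (nat_lit 285249) (.g (nat_lit 2454) (.e (nat_lit 286735) (nat_lit 3) (.e (nat_lit 98373) (nat_lit 29) (.e (nat_lit 450579) (nat_lit 5) (.e (nat_lit 532497) (nat_lit 0) .nil)))) .nil))) (.nd (nat_lit 6) 
(.lf (nat_lit 285217) (.g (nat_lit 1336) (.e (nat_lit 286735) (nat_lit 3) (.e (nat_lit 98373) (nat_lit 29) (.e (nat_lit 450562) (nat_lit 0) (.e (nat_lit 4180) (nat_lit 251) .nil)))) .nil)) 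
(.lf (nat_lit 285281) (.g (nat_lit 3729) (.e (nat_lit 286735) (nat_lit 3) (.e (nat_lit 98373) (nat_lit 29) (.e (nat_lit 450587) (nat_lit 10) (.e (nat_lit 573444) (nat_lit 0) .nil)))) .nil)))) (.nd (nat_lit 5) (.nd (nat_lit 6) 
(.lf (nat_lit 285201) (.g (nat_lit 1752) (.e (nat_lit 286735) (nat_lit 3) (.e (nat_lit 98372) (nat_lit 29) (.e (nat_lit 450581) (nat_lit 5) (.e (nat_lit 532523) (nat_lit 7) (.e (nat_lit 319531) (nat_lit 16) .nil))))) .nil)) 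
(.lf (nat_lit 285265) (.g (nat_lit 2604) (.e (nat_lit 286735) (nat_lit 3) (.e (nat_lit 98373) (nat_lit 29) (.e (nat_lit 450581) (nat_lit 5) (.e (nat_lit 532490) (nat_lit 0) .nil)))) .nil))) (.nd (nat_lit 6) 
(.lf (nat_lit 285233) (.g (nat_lit 3464) (.e (nat_lit 286735) (nat_lit 3) (.e (nat_lit 98373) (nat_lit 29) (.e (nat_lit 450564) (nat_lit 0) (.e (nat_lit 3851) (nat_lit 233) (.e (nat_lit 1009) (nat_lit 81) .nil))))) .nil)) 
(.lf (nat_lit 285297) (.g (nat_lit 3516) (.e (nat_lit 286735) (nat_lit 3) (.e (nat_lit 98373) (nat_lit 29) (.e (nat_lit 450587) (nat_lit 10) (.e (nat_lit 573455) (nat_lit 9) .nil)))) .nil))))) (.nd (nat_lit 4) (.nd (nat_lit 5) (.nd (nat_lit 6) 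
(.lf (nat_lit 285193) (.g (nat_lit 1565) (.e (nat_lit 286735) (nat_lit 3) (.e (nat_lit 98372) (nat_lit 29) (.e (nat_lit 450579) (nat_lit 5) (.e (nat_lit 532524) (nat_lit 8) .nil)))) .nil)) 
(.lf (nat_lit 285257) (.g (nat_lit 3189) (.e (nat_lit 286735) (nat_lit 3) (.e (nat_lit 98373) (nat_lit 29) (.e (nat_lit 450580) (nat_lit 5) (.e (nat_lit 532523) (nat_lit 7) (.e (nat_lit 327424) (nat_lit 16) .nil))))) (.g (nat_lit 4) .nil .nil)))) (.nd (nat_lit 6) 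
(.lf (nat_lit 285225) (.g (nat_lit 1183) (.e (nat_lit 286735) (nat_lit 3) (.e (nat_lit 98373) (nat_lit 29) (.e (nat_lit 450563) (nat_lit 0) (.e (nat_lit 3868) (nat_lit 233) .nil)))) .nil)) 
(.lf (nat_lit 285289) (.g (nat_lit 2113) (.e (nat_lit 286735) (nat_lit 3) (.e (nat_lit 98373) (nat_lit 29) (.e (nat_lit 450587) (nat_lit 10) (.e (nat_lit 573448) (nat_lit 9) (.e (nat_lit 60) (nat_lit 0) .nil))))) .nil)))) (.nd (nat_lit 5) (.nd (nat_lit 6) 
(.lf (nat_lit 285209) (.g (nat_lit 3372) (.e (nat_lit 286735) (nat_lit 3) (.e (nat_lit 98372) (nat_lit 29) (.e (nat_lit 450588) (nat_lit 10) (.e (nat_lit 573452) (nat_lit 9) (.e (nat_lit 365) (nat_lit 31) (.e (nat_lit 417811) (nat_lit 6) .nil)))))) (.g (nat_lit 4) .nil .nil))) 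
(.lf (nat_lit 285273) (.g (nat_lit 2808) (.e (nat_lit 286735) (nat_lit 3) (.e (nat_lit 98373) (nat_lit 29) (.e (nat_lit 450581) (nat_lit 5) (.e (nat_lit 532524) (nat_lit 8) .nil)))) .nil))) (.nd (nat_lit 6) 
(.lf (nat_lit 285241) (.g (nat_lit 1514) (.e (nat_lit 286735) (nat_lit 3) (.e (nat_lit 98373) (nat_lit 29) (.e (nat_lit 450570) (nat_lit 1) (.e (nat_lit 499961) (nat_lit 14) .nil)))) .nil)) 
(.lf (nat_lit 285305) (.g (nat_lit 3583) (.e (nat_lit 286735) (nat_lit 3) (.e (nat_lit 98373) (nat_lit 29) (.e (nat_lit 450587) (nat_lit 10) (.e (nat_lit 573462) (nat_lit 9) .nil)))) .nil)))))) (.nd (nat_lit 3) (.nd (nat_lit 4) (.nd (nat_lit 5) (.nd (nat_lit 6) 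
(.lf (nat_lit 285189) (.g (nat_lit 3557) (.e (nat_lit 286735) (nat_lit 3) (.e (nat_lit 98372) (nat_lit 29) (.e (nat_lit 450579) (nat_lit 5) (.e (nat_lit 532523) (nat_lit 7) (.e (nat_lit 319528) (nat_lit 16) .nil))))) (.g (nat_lit 4) .nil .nil))) 
(.lf (nat_lit 285253) (.g (nat_lit 3735) (.e (nat_lit 286735) (nat_lit 3) (.e (nat_lit 98373) (nat_lit 29) (.e (nat_lit 450580) (nat_lit 5) (.e (nat_lit 532522) (nat_lit 7) (.e (nat_lit 319530) (nat_lit 16) .nil))))) (.g (nat_lit 4) .nil .nil)))) (.nd (nat_lit 6) 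
(.lf (nat_lit 285221) (.g (nat_lit 1383) (.e (nat_lit 286735) (nat_lit 3) (.e (nat_lit 98373) (nat_lit 29) (.e (nat_lit 450562) (nat_lit 0) (.e (nat_lit 4298) (nat_lit 256) .nil)))) .nil)) 
(.lf (nat_lit 285285) (.g (nat_lit 1911) (.e (nat_lit 286735) (nat_lit 3) (.e (nat_lit 98373) (nat_lit 29) (.e (nat_lit 450587) (nat_lit 10) (.e (nat_lit 581376) (nat_lit 0) .nil)))) .nil)))) (.nd (nat_lit 5) (.nd (nat_lit 6) 
(.lf (nat_lit 285205) (.g (nat_lit 2839) (.e (nat_lit 286735) (nat_lit 3) (.e (nat_lit 98372) (nat_lit 29) (.e (nat_lit 450586) (nat_lit 10) (.e (nat_lit 573451) (nat_lit 9) (.e (nat_lit 365) (nat_lit 31) .nil))))) .nil)) 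
(.lf (nat_lit 285269) (.g (nat_lit 2808) (.e (nat_lit 286735) (nat_lit 3) (.e (nat_lit 98373) (nat_lit 29) (.e (nat_lit 450581) (nat_lit 5) (.e (nat_lit 532494) (nat_lit 0) .nil)))) .nil))) (.nd (nat_lit 6) 
(.lf (nat_lit 285237) (.g (nat_lit 2163) (.e (nat_lit 286735) (nat_lit 3) (.e (nat_lit 98373) (nat_lit 29) (.e (nat_lit 450567) (nat_lit 0) (.e (nat_lit 4211) (nat_lit 251) .nil)))) .nil)) 
(.lf (nat_lit 285301) (.g (nat_lit 3659) (.e (nat_lit 286735) (nat_lit 3) (.e (nat_lit 98373) (nat_lit 29) (.e (nat_lit 450587) (nat_lit 10) (.e (nat_lit 573458) (nat_lit 9) .nil)))) .nil))))) (.nd (nat_lit 4) (.nd (nat_lit 5) (.nd (nat_lit 6) 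
(.lf (nat_lit 285197) (.g (nat_lit 4292) (.e (nat_lit 286735) (nat_lit 3) (.e (nat_lit 98372) (nat_lit 29) (.e (nat_lit 450580) (nat_lit 5) (.e (nat_lit 532523) (nat_lit 7) (.e (nat_lit 319533) (nat_lit 16) .nil))))) (.g (nat_lit 0) .nil .nil))) 
(.lf (nat_lit 285261) (.g (nat_lit 2431) (.e (nat_lit 286735) (nat_lit 3) (.e (nat_lit 98373) (nat_lit 29) (.e (nat_lit 450581) (nat_lit 5) (.e (nat_lit 532484) (nat_lit 0) .nil)))) .nil))) (.nd (nat_lit 6) 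
(.lf (nat_lit 285229) (.g (nat_lit 1317) (.e (nat_lit 286735) (nat_lit 3) (.e (nat_lit 98373) (nat_lit 29) (.e (nat_lit 450563) (nat_lit 0) (.e (nat_lit 4176) (nat_lit 251) (.e (nat_lit 1112) (nat_lit 82) .nil))))) .nil)) 
(.lf (nat_lit 285293) (.g (nat_lit 2147) (.e (nat_lit 286735) (nat_lit 3) (.e (nat_lit 98373) (nat_lit 29) (.e (nat_lit 450587) (nat_lit 10) (.e (nat_lit 573454) (nat_lit 9) .nil)))) .nil)))) (.nd (nat_lit 5) (.nd (nat_lit 6) 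
(.lf (nat_lit 285213) (.g (nat_lit 2171) (.e (nat_lit 286735) (nat_lit 3) (.e (nat_lit 98373) (nat_lit 29) (.e (nat_lit 450561) (nat_lit 0) (.e (nat_lit 3868) (nat_lit 233) .nil)))) .nil)) 
(.lf (nat_lit 285277) (.g (nat_lit 3646) (.e (nat_lit 286735) (nat_lit 3) (.e (nat_lit 98373) (nat_lit 29) (.e (nat_lit 450587) (nat_lit 10) (.e (nat_lit 573440) (nat_lit 0) .nil)))) .nil))) (.nd (nat_lit 6) 
(.lf (nat_lit 285245) (.g (nat_lit 1777) (.e (nat_lit 286735) (nat_lit 3) (.e (nat_lit 98373) (nat_lit 29) (.e (nat_lit 450574) (nat_lit 1) (.e (nat_lit 499972) (nat_lit 14) .nil)))) .nil)) 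
(.lf (nat_lit 285309) (.g (nat_lit 3841) (.e (nat_lit 286735) (nat_lit 3) (.e (nat_lit 98373) (nat_lit 29) (.e (nat_lit 450587) (nat_lit 10) (.e (nat_lit 573468) (nat_lit 10) .nil)))) .nil))))))) (.nd (nat_lit 2) (.nd (nat_lit 3) (.nd (nat_lit 4) (.nd (nat_lit 5) (.nd (nat_lit 6) 
(.lf (nat_lit 285187) (.g (nat_lit 1147) (.e (nat_lit 286735) (nat_lit 3) (.e (nat_lit 98372) (nat_lit 29) (.e (nat_lit 450579) (nat_lit 5) (.e (nat_lit 540416) (nat_lit 0) .nil)))) .nil)) 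
(.lf (nat_lit 285251) (.g (nat_lit 2553) (.e (nat_lit 286735) (nat_lit 3) (.e (nat_lit 98373) (nat_lit 29) (.e (nat_lit 450580) (nat_lit 5) (.e (nat_lit 532484) (nat_lit 0) (.e (nat_lit 7936) (nat_lit 332) .nil))))) .nil))) (.nd (nat_lit 6) 
(.lf (nat_lit 285219) (.g (nat_lit 1326) (.e (nat_lit 286735) (nat_lit 3) (.e (nat_lit 98373) (nat_lit 29) (.e (nat_lit 450562) (nat_lit 0) (.e (nat_lit 4281) (nat_lit 253) .nil)))) .nil)) 
(.lf (nat_lit 285283) (.g (nat_lit 3192) (.e (nat_lit 286735) (nat_lit 3) (.e (nat_lit 98373) (nat_lit 29) (.e (nat_lit 450587) (nat_lit 10) (.e (nat_lit 573446) (nat_lit 0) .nil)))) .nil)))) (.nd (nat_lit 5) (.nd (nat_lit 6) 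
(.lf (nat_lit 285203) (.g (nat_lit 2498) (.e (nat_lit 286735) (nat_lit 3) (.e (nat_lit 98372) (nat_lit 29) (.e (nat_lit 450581) (nat_lit 5) (.e (nat_lit 532523) (nat_lit 7) (.e (nat_lit 327424) (nat_lit 16) .nil))))) (.g (nat_lit 4) .nil .nil))) 
(.lf (nat_lit 285267) (.g (nat_lit 2834) (.e (nat_lit 286735) (nat_lit 3) (.e (nat_lit 98373) (nat_lit 29) (.e (nat_lit 450581) (nat_lit 5) (.e (nat_lit 532492) (nat_lit 0) .nil)))) .nil))) (.nd (nat_lit 6) 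
(.lf (nat_lit 285235) (.g (nat_lit 1298) (.e (nat_lit 286735) (nat_lit 3) (.e (nat_lit 98373) (nat_lit 29) (.e (nat_lit 450566) (nat_lit 0) .nil))) .nil)) 
(.lf (nat_lit 285299) (.g (nat_lit 2673) (.e (nat_lit 286735) (nat_lit 3) (.e (nat_lit 98373) (nat_lit 29) (.e (nat_lit 450587) (nat_lit 10) (.e (nat_lit 573457) (nat_lit 9) (.e (nat_lit 359) (nat_lit 30) (.e (nat_lit 417536) (nat_lit 6) .nil)))))) (.g (nat_lit 5) .nil .nil)))))) (.nd (nat_lit 4) (.nd (nat_lit 5) (.nd (nat_lit 6) 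
(.lf (nat_lit 285195) (.g (nat_lit 2149) (.e (nat_lit 286735) (nat_lit 3) (.e (nat_lit 98372) (nat_lit 29) (.e (nat_lit 450579) (nat_lit 5) (.e (nat_lit 532526) (nat_lit 8) (.e (nat_lit 335616) (nat_lit 16) .nil))))) .nil)) 
(.lf (nat_lit 285259) (.g (nat_lit 2809) (.e (nat_lit 286735) (nat_lit 3) (.e (nat_lit 98373) (nat_lit 29) (.e (nat_lit 450581) (nat_lit 5) (.e (nat_lit 532481) (nat_lit 0) .nil)))) .nil))) (.nd (nat_lit 6) 
(.lf (nat_lit 285227) (.g (nat_lit 1235) (.e (nat_lit 286735) (nat_lit 3) (.e (nat_lit 98373) (nat_lit 29) (.e (nat_lit 450563) (nat_lit 0) (.e (nat_lit 4168) (nat_lit 251) .nil)))) .nil)) 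
(.lf (nat_lit 285291) (.g (nat_lit 3416) (.e (nat_lit 286735) (nat_lit 3) (.e (nat_lit 98373) (nat_lit 29) (.e (nat_lit 450587) (nat_lit 10) (.e (nat_lit 573450) (nat_lit 9) .nil)))) .nil)))) (.nd (nat_lit 5) (.nd (nat_lit 6) 
(.lf (nat_lit 285211) (.g (nat_lit 2877) (.e (nat_lit 286735) (nat_lit 3) (.e (nat_lit 98372) (nat_lit 29) (.e (nat_lit 450588) (nat_lit 10) (.e (nat_lit 573468) (nat_lit 10) .nil)))) .nil)) 
(.lf (nat_lit 285275) (.g (nat_lit 602) (.e (nat_lit 286735) (nat_lit 3) (.e (nat_lit 98373) (nat_lit 29) (.e (nat_lit 450585) (nat_lit 10) .nil))) .nil))) (.nd (nat_lit 6) 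
(.lf (nat_lit 285243) (.g (nat_lit 681) (.e (nat_lit 286735) (nat_lit 3) (.e (nat_lit 98373) (nat_lit 29) (.e (nat_lit 450573) (nat_lit 1) .nil))) .nil)) 
(.lf (nat_lit 285307) (.g (nat_lit 4157) (.e (nat_lit 286735) (nat_lit 3) (.e (nat_lit 98373) (nat_lit 29) (.e (nat_lit 450587) (nat_lit 10) (.e (nat_lit 573465) (nat_lit 9) (.e (nat_lit 39) (nat_lit 0) .nil))))) .nil)))))) (.nd (nat_lit 3) (.nd (nat_lit 4) (.nd (nat_lit 5) (.nd (nat_lit 6) 
(.lf (nat_lit 285191) (.g (nat_lit 4294) (.e (nat_lit 286735) (nat_lit 3) (.e (nat_lit 98372) (nat_lit 29) (.e (nat_lit 450579) (nat_lit 5) (.e (nat_lit 532523) (nat_lit 7) (.e (nat_lit 319534) (nat_lit 16) .nil))))) (.g (nat_lit 0) .nil .nil))) 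
(.lf (nat_lit 285255) (.g (nat_lit 3848) (.e (nat_lit 286735) (nat_lit 3) (.e (nat_lit 98373) (nat_lit 29) (.e (nat_lit 450580) (nat_lit 5) (.e (nat_lit 532523) (nat_lit 7) (.e (nat_lit 319528) (nat_lit 16) .nil))))) (.g (nat_lit 4) .nil .nil)))) (.nd (nat_lit 6) 
(.lf (nat_lit 285223) (.g (nat_lit 172) (.e (nat_lit 286735) (nat_lit 3) (.e (nat_lit 98373) (nat_lit 29) (.e (nat_lit 450563) (nat_lit 0) .nil))) .nil)) 
(.lf (nat_lit 285287) (.g (nat_lit 1854) (.e (nat_lit 286735) (nat_lit 3) (.e (nat_lit 98373) (nat_lit 29) (.e (nat_lit 450587) (nat_lit 10) (.e (nat_lit 573448) (nat_lit 9) .nil)))) .nil)))) (.nd (nat_lit 5) (.nd (nat_lit 6) 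
(.lf (nat_lit 285207) (.g (nat_lit 2201) (.e (nat_lit 286735) (nat_lit 3) (.e (nat_lit 98372) (nat_lit 29) (.e (nat_lit 450588) (nat_lit 10) (.e (nat_lit 573452) (nat_lit 9) .nil)))) .nil)) 
(.lf (nat_lit 285271) (.g (nat_lit 3646) (.e (nat_lit 286735) (nat_lit 3) (.e (nat_lit 98373) (nat_lit 29) (.e (nat_lit 450581) (nat_lit 5) (.e (nat_lit 532522) (nat_lit 7) (.e (nat_lit 319531) (nat_lit 16) .nil))))) (.g (nat_lit 0) .nil .nil)))) (.nd (nat_lit 6) 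
(.lf (nat_lit 285239) (.g (nat_lit 2718) (.e (nat_lit 286735) (nat_lit 3) (.e (nat_lit 98373) (nat_lit 29) (.e (nat_lit 450569) (nat_lit 0) (.e (nat_lit 4215) (nat_lit 251) .nil)))) .nil)) 
(.lf (nat_lit 285303) (.g (nat_lit 3790) (.e (nat_lit 286735) (nat_lit 3) (.e (nat_lit 98373) (nat_lit 29) (.e (nat_lit 450587) (nat_lit 10) (.e (nat_lit 573459) (nat_lit 9) .nil)))) .nil))))) (.nd (nat_lit 4) (.nd (nat_lit 5) (.nd (nat_lit 6) 
(.lf (nat_lit 285199) (.g (nat_lit 2211) (.e (nat_lit 286735) (nat_lit 3) (.e (nat_lit 98372) (nat_lit 29) (.e (nat_lit 450580) (nat_lit 5) (.e (nat_lit 532523) (nat_lit 7) (.e (nat_lit 327424) (nat_lit 16) .nil))))) (.g (nat_lit 4) .nil .nil))) 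
(.lf (nat_lit 285263) (.g (nat_lit 2808) (.e (nat_lit 286735) (nat_lit 3) (.e (nat_lit 98373) (nat_lit 29) (.e (nat_lit 450581) (nat_lit 5) (.e (nat_lit 532488) (nat_lit 0) .nil)))) .nil))) (.nd (nat_lit 6) 
(.lf (nat_lit 285231) (.g (nat_lit 1265) (.e (nat_lit 286735) (nat_lit 3) (.e (nat_lit 98373) (nat_lit 29) (.e (nat_lit 450563) (nat_lit 0) (.e (nat_lit 4300) (nat_lit 256) .nil)))) .nil)) 
(.lf (nat_lit 285295) (.g (nat_lit 3228) (.e (nat_lit 286735) (nat_lit 3) (.e (nat_lit 98373) (nat_lit 29) (.e (nat_lit 450587) (nat_lit 10) (.e (nat_lit 573454) (nat_lit 9) (.e (nat_lit 86) (nat_lit 0) .nil))))) .nil)))) (.nd (nat_lit 5) (.nd (nat_lit 6) 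
(.lf (nat_lit 285215) (.g (nat_lit 4557) (.e (nat_lit 286735) (nat_lit 3) (.e (nat_lit 98373) (nat_lit 29) (.e (nat_lit 450562) (nat_lit 0) (.e (nat_lit 3868) (nat_lit 233) (.e (nat_lit 1010) (nat_lit 81) (.e (nat_lit 1401) (nat_lit 106) (.e (nat_lit 319531) (nat_lit 16) .nil))))))) (.g (nat_lit 7) .nil .nil))) 
(.lf (nat_lit 285279) (.g (nat_lit 2676) (.e (nat_lit 286735) (nat_lit 3) (.e (nat_lit 98373) (nat_lit 29) (.e (nat_lit 450587) (nat_lit 10) (.e (nat_lit 573442) (nat_lit 0) .nil)))) .nil))) (.nd (nat_lit 6) 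
(.lf (nat_lit 285247) (.g (nat_lit 4470) (.e (nat_lit 286735) (nat_lit 3) (.e (nat_lit 98373) (nat_lit 29) (.e (nat_lit 450579) (nat_lit 5) (.e (nat_lit 532489) (nat_lit 0) (.e (nat_lit 7936) (nat_lit 332) (.e (nat_lit 1348) (nat_lit 102) .nil)))))) (.g (nat_lit 4) .nil .nil))) 
(.lf (nat_lit 285311) (.g (nat_lit 3689) (.e (nat_lit 286735) (nat_lit 3) (.e (nat_lit 98373) (nat_lit 29) (.e (nat_lit 450587) (nat_lit 10) (.e (nat_lit 573473) (nat_lit 12) .nil)))) .nil)))))))))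

noncomputable def tv3623 : DT := (.nd (nat_lit 0) (.nd (nat_lit 1) (.nd (nat_lit 2) (.nd (nat_lit 3) (.nd (nat_lit 4) (.nd (nat_lit 5) (.nd (nat_lit 6) 
(.lf (nat_lit 285312) (.g (nat_lit 4106) (.e (nat_lit 286735) (nat_lit 3) (.e (nat_lit 98373) (nat_lit 29) (.e (nat_lit 450587) (nat_lit 10) (.e (nat_lit 573475) (nat_lit 12) .nil)))) .nil)) 
(.lf (nat_lit 285376) (.g (nat_lit 2459) (.e (nat_lit 286735) (nat_lit 3) (.e (nat_lit 98374) (nat_lit 29) (.e (nat_lit 450580) (nat_lit 5) (.e (nat_lit 532523) (nat_lit 7) (.e (nat_lit 327424) (nat_lit 16) .nil))))) (.g (nat_lit 4) .nil .nil)))) (.nd (nat_lit 6) 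
(.lf (nat_lit 285344) (.g (nat_lit 3514) (.e (nat_lit 286735) (nat_lit 3) (.e (nat_lit 98373) (nat_lit 29) (.e (nat_lit 450588) (nat_lit 10) (.e (nat_lit 573452) (nat_lit 9) (.e (nat_lit 61) (nat_lit 0) (.e (nat_lit 6995) (nat_lit 377) (.e (nat_lit 7936) (nat_lit 102) .nil))))))) (.g (nat_lit 4) .nil .nil))) 
(.lf (nat_lit 285408) (.g (nat_lit 1663) (.e (nat_lit 286735) (nat_lit 3) (.e (nat_lit 98389) (nat_lit 33) (.e (nat_lit 491560) (nat_lit 10) (.e (nat_lit 344120) (nat_lit 21) .nil)))) .nil)))) (.nd (nat_lit 5) (.nd (nat_lit 6) 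
(.lf (nat_lit 285328) (.g (nat_lit 1918) (.e (nat_lit 286735) (nat_lit 3) (.e (nat_lit 98373) (nat_lit 29) (.e (nat_lit 450588) (nat_lit 10) (.e (nat_lit 573450) (nat_lit 9) .nil)))) .nil)) 
(.lf (nat_lit 285392) (.g (nat_lit 1409) (.e (nat_lit 286735) (nat_lit 3) (.e (nat_lit 98382) (nat_lit 31) (.e (nat_lit 466974) (nat_lit 22) (.e (nat_lit 196624) (nat_lit 9) (.e (nat_lit 7936) (nat_lit 106) .nil))))) .nil))) (.nd (nat_lit 6) 
(.lf (nat_lit 285360) (.g (nat_lit 865) (.e (nat_lit 286735) (nat_lit 3) (.e (nat_lit 98373) (nat_lit 29) (.e (nat_lit 450588) (nat_lit 10) (.e (nat_lit 573473) (nat_lit 12) .nil)))) .nil)) 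
(.lf (nat_lit 285424) (.g (nat_lit 1846) (.e (nat_lit 286738) (nat_lit 6) (.e (nat_lit 147495) (nat_lit 11) (.e (nat_lit 24660) (nat_lit 13) (.e (nat_lit 393260) (nat_lit 21) (.e (nat_lit 417536) (nat_lit 16) .nil))))) (.g (nat_lit 4) .nil .nil)))))) (.nd (nat_lit 4) (.nd (nat_lit 5) (.nd (nat_lit 6) 
(.lf (nat_lit 285320) (.g (nat_lit 1874) (.e (nat_lit 286735) (nat_lit 3) (.e (nat_lit 98373) (nat_lit 29) (.e (nat_lit 450588) (nat_lit 10) (.e (nat_lit 581376) (nat_lit 1) .nil)))) .nil)) 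
(.lf (nat_lit 285384) (.g (nat_lit 224) (.e (nat_lit 286735) (nat_lit 3) (.e (nat_lit 98381) (nat_lit 31) (.e (nat_lit 466977) (nat_lit 22) .nil))) .nil))) (.nd (nat_lit 6) 
(.lf (nat_lit 285352) (.g (nat_lit 3603) (.e (nat_lit 286735) (nat_lit 3) (.e (nat_lit 98373) (nat_lit 29) (.e (nat_lit 450588) (nat_lit 10) (.e (nat_lit 573456) (nat_lit 9) .nil)))) .nil)) 
(.lf (nat_lit 285416) (.g (nat_lit 1915) (.e (nat_lit 294656) (nat_lit 3) (.e (nat_lit 98372) (nat_lit 29) (.e (nat_lit 450580) (nat_lit 5) (.e (nat_lit 532523) (nat_lit 7) (.e (nat_lit 319533) (nat_lit 16) .nil))))) .nil)))) (.nd (nat_lit 5) (.nd (nat_lit 6) 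
(.lf (nat_lit 285336) (.g (nat_lit 992) (.e (nat_lit 286735) (nat_lit 3) (.e (nat_lit 98373) (nat_lit 29) (.e (nat_lit 450588) (nat_lit 10) (.e (nat_lit 573452) (nat_lit 9) .nil)))) .nil)) 
(.lf (nat_lit 285400) (.g (nat_lit 3857) (.e (nat_lit 286735) (nat_lit 3) (.e (nat_lit 98389) (nat_lit 33) (.e (nat_lit 491558) (nat_lit 10) (.e (nat_lit 344117) (nat_lit 21) (.e (nat_lit 516106) (nat_lit 0) (.e (nat_lit 6986) (nat_lit 377) (.e (nat_lit 2779) (nat_lit 178) .nil))))))) (.g (nat_lit 5) .nil .nil)))) (.nd (nat_lit 6) 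
(.lf (nat_lit 285368) (.g (nat_lit 423) (.e (nat_lit 286735) (nat_lit 3) (.e (nat_lit 98374) (nat_lit 29) (.e (nat_lit 450572) (nat_lit 1) (.e (nat_lit 499965) (nat_lit 14) .nil)))) .nil)) 
(.lf (nat_lit 285432) (.g (nat_lit 536) (.e (nat_lit 286739) (nat_lit 7) (.e (nat_lit 319505) (nat_lit 10) (.e (nat_lit 7936) (nat_lit 313) .nil))) .nil)))))) (.nd (nat_lit 3) (.nd (nat_lit 4) (.nd (nat_lit 5) (.nd (nat_lit 6) 
(.lf (nat_lit 285316) (.g (nat_lit 3023) (.e (nat_lit 286735) (nat_lit 3) (.e (nat_lit 98373) (nat_lit 29) (.e (nat_lit 450588) (nat_lit 10) (.e (nat_lit 573441) (nat_lit 0) (.e (nat_lit 7936) (nat_lit 19) .nil))))) .nil)) 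
(.lf (nat_lit 285380) (.g (nat_lit 572) (.e (nat_lit 286735) (nat_lit 3) (.e (nat_lit 98381) (nat_lit 31) (.e (nat_lit 466959) (nat_lit 20) .nil))) .nil))) (.nd (nat_lit 6) 
(.lf (nat_lit 285348) (.g (nat_lit 3397) (.e (nat_lit 286735) (nat_lit 3) (.e (nat_lit 98373) (nat_lit 29) (.e (nat_lit 450588) (nat_lit 10) (.e (nat_lit 573454) (nat_lit 9) .nil)))) .nil)) 
(.lf (nat_lit 285412) (.g (nat_lit 1241) (.e (nat_lit 294656) (nat_lit 3) (.e (nat_lit 98359) (nat_lit 26) (.e (nat_lit 426285) (nat_lit 10) (.e (nat_lit 434233) (nat_lit 23) .nil)))) .nil)))) (.nd (nat_lit 5) (.nd (nat_lit 6) 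
(.lf (nat_lit 285332) (.g (nat_lit 4759) (.e (nat_lit 286735) (nat_lit 3) (.e (nat_lit 98373) (nat_lit 29) (.e (nat_lit 450588) (nat_lit 10) (.e (nat_lit 573451) (nat_lit 9) (.e (nat_lit 63) (nat_lit 0) .nil))))) .nil)) 
(.lf (nat_lit 285396) (.g (nat_lit 2260) (.e (nat_lit 286735) (nat_lit 3) (.e (nat_lit 98382) (nat_lit 31) (.e (nat_lit 466979) (nat_lit 23) (.e (nat_lit 204819) (nat_lit 17) (.e (nat_lit 6113) (nat_lit 332) (.e (nat_lit 1361) (nat_lit 102) .nil)))))) (.g (nat_lit 5) .nil .nil)))) (.nd (nat_lit 6) 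
(.lf (nat_lit 285364) (.g (nat_lit 4966) (.e (nat_lit 286735) (nat_lit 3) (.e (nat_lit 98373) (nat_lit 29) (.e (nat_lit 450588) (nat_lit 10) (.e (nat_lit 573475) (nat_lit 12) (.e (nat_lit 57348) (nat_lit 0) (.e (nat_lit 6927) (nat_lit 372) (.e (nat_lit 8305) (nat_lit 58) .nil))))))) (.g (nat_lit 5) .nil .nil))) 
(.lf (nat_lit 285428) (.g (nat_lit 2399) (.e (nat_lit 286739) (nat_lit 7) (.e (nat_lit 319505) (nat_lit 10) (.e (nat_lit 618) (nat_lit 48) (.e (nat_lit 557109) (nat_lit 15) (.e (nat_lit 188427) (nat_lit 20) .nil))))) .nil))))) (.nd (nat_lit 4) (.nd (nat_lit 5) (.nd (nat_lit 6) 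
(.lf (nat_lit 285324) (.g (nat_lit 1975) (.e (nat_lit 286735) (nat_lit 3) (.e (nat_lit 98373) (nat_lit 29) (.e (nat_lit 450588) (nat_lit 10) (.e (nat_lit 573449) (nat_lit 9) (.e (nat_lit 1) (nat_lit 0) .nil))))) .nil)) 
(.lf (nat_lit 285388) (.g (nat_lit 2125) (.e (nat_lit 286735) (nat_lit 3) (.e (nat_lit 98381) (nat_lit 31) (.e (nat_lit 466981) (nat_lit 23) (.e (nat_lit 204846) (nat_lit 24) (.e (nat_lit 319528) (nat_lit 16) .nil))))) .nil))) (.nd (nat_lit 6) 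
(.lf (nat_lit 285356) (.g (nat_lit 3180) (.e (nat_lit 286735) (nat_lit 3) (.e (nat_lit 98373) (nat_lit 29) (.e (nat_lit 450588) (nat_lit 10) (.e (nat_lit 573458) (nat_lit 9) .nil)))) .nil)) 
(.lf (nat_lit 285420) (.g (nat_lit 1569) (.e (nat_lit 286738) (nat_lit 6) (.e (nat_lit 147476) (nat_lit 9) (.e (nat_lit 290) (nat_lit 21) (.e (nat_lit 336222) (nat_lit 13) (.e (nat_lit 393260) (nat_lit 21) (.e (nat_lit 417536) (nat_lit 16) .nil)))))) (.g (nat_lit 5) .nil .nil))))) (.nd (nat_lit 5) (.nd (nat_lit 6) 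
(.lf (nat_lit 285340) (.g (nat_lit 4298) (.e (nat_lit 286735) (nat_lit 3) (.e (nat_lit 98373) (nat_lit 29) (.e (nat_lit 450588) (nat_lit 10) (.e (nat_lit 573452) (nat_lit 9) (.e (nat_lit 11) (nat_lit 0) (.e (nat_lit 6956) (nat_lit 377) (.e (nat_lit 1353) (nat_lit 102) .nil))))))) (.g (nat_lit 4) .nil .nil))) 
(.lf (nat_lit 285404) (.g (nat_lit 2204) (.e (nat_lit 286735) (nat_lit 3) (.e (nat_lit 98389) (nat_lit 33) (.e (nat_lit 491560) (nat_lit 10) (.e (nat_lit 344117) (nat_lit 21) (.e (nat_lit 516096) (nat_lit 0) .nil))))) .nil))) (.nd (nat_lit 6) 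
(.lf (nat_lit 285372) (.g (nat_lit 2622) (.e (nat_lit 286735) (nat_lit 3) (.e (nat_lit 98374) (nat_lit 29) (.e (nat_lit 450579) (nat_lit 5) (.e (nat_lit 532523) (nat_lit 7) (.e (nat_lit 319530) (nat_lit 16) .nil))))) .nil)) 
(.lf (nat_lit 285436) (.g (nat_lit 1727) (.e (nat_lit 286739) (nat_lit 7) (.e (nat_lit 319530) (nat_lit 16) (.e (nat_lit 286759) (nat_lit 12) (.e (nat_lit 385087) (nat_lit 46) .nil)))) .nil))))))) (.nd (nat_lit 2) (.nd (nat_lit 3) (.nd (nat_lit 4) (.nd (nat_lit 5) (.nd (nat_lit 6) 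
(.lf (nat_lit 285314) (.g (nat_lit 2615) (.e (nat_lit 286735) (nat_lit 3) (.e (nat_lit 98373) (nat_lit 29) (.e (nat_lit 450588) (nat_lit 10) (.e (nat_lit 573441) (nat_lit 0) .nil)))) .nil)) 
(.lf (nat_lit 285378) (.g (nat_lit 1951) (.e (nat_lit 286735) (nat_lit 3) (.e (nat_lit 98380) (nat_lit 31) (.e (nat_lit 466967) (nat_lit 20) (.e (nat_lit 3253) (nat_lit 197) (.e (nat_lit 532486) (nat_lit 0) (.e (nat_lit 6113) (nat_lit 332) (.e (nat_lit 1361) (nat_lit 102) .nil))))))) (.g (nat_lit 4) .nil .nil)))) (.nd (nat_lit 6) 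
(.lf (nat_lit 285346) (.g (nat_lit 3401) (.e (nat_lit 286735) (nat_lit 3) (.e (nat_lit 98373) (nat_lit 29) (.e (nat_lit 450588) (nat_lit 10) (.e (nat_lit 573452) (nat_lit 9) (.e (nat_lit 7936) (nat_lit 30) (.e (nat_lit 417536) (nat_lit 6) .nil)))))) (.g (nat_lit 4) .nil .nil))) 
(.lf (nat_lit 285410) (.g (nat_lit 818) (.e (nat_lit 294656) (nat_lit 3) (.e (nat_lit 98358) (nat_lit 26) (.e (nat_lit 426294) (nat_lit 11) .nil))) .nil)))) (.nd (nat_lit 5) (.nd (nat_lit 6) 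
(.lf (nat_lit 285330) (.g (nat_lit 3138) (.e (nat_lit 286735) (nat_lit 3) (.e (nat_lit 98373) (nat_lit 29) (.e (nat_lit 450588) (nat_lit 10) (.e (nat_lit 573451) (nat_lit 9) .nil)))) .nil)) 
(.lf (nat_lit 285394) (.g (nat_lit 2145) (.e (nat_lit 286735) (nat_lit 3) (.e (nat_lit 98382) (nat_lit 31) (.e (nat_lit 466977) (nat_lit 22) (.e (nat_lit 196624) (nat_lit 9) (.e (nat_lit 7936) (nat_lit 106) (.e (nat_lit 319531) (nat_lit 16) .nil)))))) (.g (nat_lit 4) .nil .nil)))) (.nd (nat_lit 6) 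
(.lf (nat_lit 285362) (.g (nat_lit 4516) (.e (nat_lit 286735) (nat_lit 3) (.e (nat_lit 98373) (nat_lit 29) (.e (nat_lit 450588) (nat_lit 10) (.e (nat_lit 573474) (nat_lit 12) .nil)))) .nil)) 
(.lf (nat_lit 285426) (.g (nat_lit 4460) (.e (nat_lit 286739) (nat_lit 7) (.e (nat_lit 319500) (nat_lit 10) (.e (nat_lit 806) (nat_lit 67) (.e (nat_lit 712755) (nat_lit 30) (.e (nat_lit 450588) (nat_lit 10) (.e (nat_lit 573503) (nat_lit 18) (.e (nat_lit 1349) (nat_lit 102) .nil))))))) (.g (nat_lit 7) .nil .nil)))))) (.nd (nat_lit 4) (.nd (nat_lit 5) (.nd (nat_lit 6) 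
(.lf (nat_lit 285322) (.g (nat_lit 2281) (.e (nat_lit 286735) (nat_lit 3) (.e (nat_lit 98373) (nat_lit 29) (.e (nat_lit 450588) (nat_lit 10) (.e (nat_lit 573448) (nat_lit 9) (.e (nat_lit 365) (nat_lit 31) .nil))))) .nil)) 
(.lf (nat_lit 285386) (.g (nat_lit 1626) (.e (nat_lit 286735) (nat_lit 3) (.e (nat_lit 98381) (nat_lit 31) (.e (nat_lit 466977) (nat_lit 22) (.e (nat_lit 196625) (nat_lit 9) (.e (nat_lit 1398) (nat_lit 106) .nil))))) .nil))) (.nd (nat_lit 6) 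
(.lf (nat_lit 285354) (.g (nat_lit 5347) (.e (nat_lit 286735) (nat_lit 3) (.e (nat_lit 98373) (nat_lit 29) (.e (nat_lit 450588) (nat_lit 10) (.e (nat_lit 573457) (nat_lit 9) (.e (nat_lit 365) (nat_lit 31) (.e (nat_lit 417810) (nat_lit 6) .nil)))))) (.g (nat_lit 6) .nil .nil))) 
(.lf (nat_lit 285418) (.g (nat_lit 2772) (.e (nat_lit 294656) (nat_lit 3) (.e (nat_lit 98373) (nat_lit 29) (.e (nat_lit 450580) (nat_lit 5) (.e (nat_lit 532523) (nat_lit 7) (.e (nat_lit 319534) (nat_lit 16) .nil))))) .nil)))) (.nd (nat_lit 5) (.nd (nat_lit 6) 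
(.lf (nat_lit 285338) (.g (nat_lit 3926) (.e (nat_lit 286735) (nat_lit 3) (.e (nat_lit 98373) (nat_lit 29) (.e (nat_lit 450588) (nat_lit 10) (.e (nat_lit 573452) (nat_lit 9) (.e (nat_lit 11) (nat_lit 0) (.e (nat_lit 6954) (nat_lit 377) (.e (nat_lit 1353) (nat_lit 102) .nil))))))) (.g (nat_lit 4) .nil .nil))) 
(.lf (nat_lit 285402) (.g (nat_lit 3216) (.e (nat_lit 286735) (nat_lit 3) (.e (nat_lit 98389) (nat_lit 33) (.e (nat_lit 491558) (nat_lit 10) (.e (nat_lit 344119) (nat_lit 21) (.e (nat_lit 516139) (nat_lit 7) (.e (nat_lit 417536) (nat_lit 16) .nil)))))) (.g (nat_lit 5) .nil .nil)))) (.nd (nat_lit 6) 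
(.lf (nat_lit 285370) (.g (nat_lit 350) (.e (nat_lit 286735) (nat_lit 3) (.e (nat_lit 98374) (nat_lit 29) (.e (nat_lit 450576) (nat_lit 2) .nil))) .nil)) 
(.lf (nat_lit 285434) (.g (nat_lit 1528) (.e (nat_lit 286739) (nat_lit 7) (.e (nat_lit 319530) (nat_lit 16) (.e (nat_lit 286728) (nat_lit 0) (.e (nat_lit 991) (nat_lit 81) (.e (nat_lit 4500) (nat_lit 263) .nil))))) .nil)))))) (.nd (nat_lit 3) (.nd (nat_lit 4) (.nd (nat_lit 5) (.nd (nat_lit 6) 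
(.lf (nat_lit 285318) (.g (nat_lit 3612) (.e (nat_lit 286735) (nat_lit 3) (.e (nat_lit 98373) (nat_lit 29) (.e (nat_lit 450588) (nat_lit 10) (.e (nat_lit 573446) (nat_lit 0) .nil)))) .nil)) 
(.lf (nat_lit 285382) (.g (nat_lit 1109) (.e (nat_lit 286735) (nat_lit 3) (.e (nat_lit 98381) (nat_lit 31) (.e (nat_lit 466974) (nat_lit 22) (.e (nat_lit 196626) (nat_lit 9) .nil)))) .nil))) (.nd (nat_lit 6) 
(.lf (nat_lit 285350) (.g (nat_lit 4190) (.e (nat_lit 286735) (nat_lit 3) (.e (nat_lit 98373) (nat_lit 29) (.e (nat_lit 450588) (nat_lit 10) (.e (nat_lit 573454) (nat_lit 9) (.e (nat_lit 4) (nat_lit 0) .nil))))) .nil)) 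
(.lf (nat_lit 285414) (.g (nat_lit 429) (.e (nat_lit 294656) (nat_lit 3) (.e (nat_lit 98372) (nat_lit 29) (.e (nat_lit 450579) (nat_lit 5) .nil))) .nil)))) (.nd (nat_lit 5) (.nd (nat_lit 6) 
(.lf (nat_lit 285334) (.g (nat_lit 4384) (.e (nat_lit 286735) (nat_lit 3) (.e (nat_lit 98373) (nat_lit 29) (.e (nat_lit 450588) (nat_lit 10) (.e (nat_lit 573451) (nat_lit 9) (.e (nat_lit 359) (nat_lit 30) .nil))))) .nil)) 
(.lf (nat_lit 285398) (.g (nat_lit 2523) (.e (nat_lit 286735) (nat_lit 3) (.e (nat_lit 98389) (nat_lit 33) (.e (nat_lit 491546) (nat_lit 9) (.e (nat_lit 336028) (nat_lit 3) (.e (nat_lit 98325) (nat_lit 17) (.e (nat_lit 6966) (nat_lit 377) (.e (nat_lit 2779) (nat_lit 178) .nil))))))) (.g (nat_lit 4) .nil .nil)))) (.nd (nat_lit 6) 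
(.lf (nat_lit 285366) (.g (nat_lit 1265) (.e (nat_lit 286735) (nat_lit 3) (.e (nat_lit 98373) (nat_lit 29) (.e (nat_lit 450589) (nat_lit 11) .nil))) .nil)) 
(.lf (nat_lit 285430) (.g (nat_lit 1926) (.e (nat_lit 286739) (nat_lit 7) (.e (nat_lit 319505) (nat_lit 10) (.e (nat_lit 618) (nat_lit 48) (.e (nat_lit 557109) (nat_lit 15) (.e (nat_lit 188461) (nat_lit 26) (.e (nat_lit 261888) (nat_lit 14) (.e (nat_lit 1348) (nat_lit 102) .nil))))))) (.g (nat_lit 4) .nil .nil)))))) (.nd (nat_lit 4) (.nd (nat_lit 5) (.nd (nat_lit 6) 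
(.lf (nat_lit 285326) (.g (nat_lit 2003) (.e (nat_lit 286735) (nat_lit 3) (.e (nat_lit 98373) (nat_lit 29) (.e (nat_lit 450588) (nat_lit 10) (.e (nat_lit 573449) (nat_lit 9) (.e (nat_lit 21) (nat_lit 0) .nil))))) .nil)) 
(.lf (nat_lit 285390) (.g (nat_lit 572) (.e (nat_lit 286735) (nat_lit 3) (.e (nat_lit 98381) (nat_lit 31) (.e (nat_lit 466983) (nat_lit 25) .nil))) .nil))) (.nd (nat_lit 6) 
(.lf (nat_lit 285358) (.g (nat_lit 3516) (.e (nat_lit 286735) (nat_lit 3) (.e (nat_lit 98373) (nat_lit 29) (.e (nat_lit 450588) (nat_lit 10) (.e (nat_lit 573459) (nat_lit 9) .nil)))) .nil)) 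
(.lf (nat_lit 285422) (.g (nat_lit 1451) (.e (nat_lit 286738) (nat_lit 6) (.e (nat_lit 147494) (nat_lit 11) (.e (nat_lit 24660) (nat_lit 13) (.e (nat_lit 393260) (nat_lit 21) (.e (nat_lit 417536) (nat_lit 16) .nil))))) .nil)))) (.nd (nat_lit 5) (.nd (nat_lit 6) 
(.lf (nat_lit 285342) (.g (nat_lit 3178) (.e (nat_lit 286735) (nat_lit 3) (.e (nat_lit 98373) (nat_lit 29) (.e (nat_lit 450588) (nat_lit 10) (.e (nat_lit 573452) (nat_lit 9) (.e (nat_lit 16) (nat_lit 0) (.e (nat_lit 6995) (nat_lit 377) (.e (nat_lit 7936) (nat_lit 102) .nil))))))) (.g (nat_lit 4) .nil .nil))) 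
(.lf (nat_lit 285406) (.g (nat_lit 4267) (.e (nat_lit 286735) (nat_lit 3) (.e (nat_lit 98389) (nat_lit 33) (.e (nat_lit 491560) (nat_lit 10) (.e (nat_lit 344117) (nat_lit 21) (.e (nat_lit 516106) (nat_lit 0) (.e (nat_lit 6986) (nat_lit 377) (.e (nat_lit 2781) (nat_lit 178) .nil))))))) (.g (nat_lit 5) .nil .nil)))) (.nd (nat_lit 6) 
(.lf (nat_lit 285374) (.g (nat_lit 2820) (.e (nat_lit 286735) (nat_lit 3) (.e (nat_lit 98374) (nat_lit 29) (.e (nat_lit 450580) (nat_lit 5) (.e (nat_lit 532486) (nat_lit 0) (.e (nat_lit 6113) (nat_lit 332) (.e (nat_lit 1361) (nat_lit 102) .nil)))))) (.g (nat_lit 0) .nil .nil))) 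
(.lf (nat_lit 285438) (.g (nat_lit 1661) (.e (nat_lit 286739) (nat_lit 7) (.e (nat_lit 319531) (nat_lit 16) (.e (nat_lit 286728) (nat_lit 0) (.e (nat_lit 991) (nat_lit 81) (.e (nat_lit 4500) (nat_lit 263) .nil))))) .nil)))))))) (.nd (nat_lit 1) (.nd (nat_lit 2) (.nd (nat_lit 3) (.nd (nat_lit 4) (.nd (nat_lit 5) (.nd (nat_lit 6) 
(.lf (nat_lit 285313) (.g (nat_lit 3396) (.e (nat_lit 286735) (nat_lit 3) (.e (nat_lit 98373) (nat_lit 29) (.e (nat_lit 450588) (nat_lit 10) (.e (nat_lit 573440) (nat_lit 0) .nil)))) .nil)) 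
(.lf (nat_lit 285377) (.g (nat_lit 350) (.e (nat_lit 286735) (nat_lit 3) (.e (nat_lit 98374) (nat_lit 29) (.e (nat_lit 450582) (nat_lit 6) .nil))) .nil))) (.nd (nat_lit 6) 
(.lf (nat_lit 285345) (.g (nat_lit 3916) (.e (nat_lit 286735) (nat_lit 3) (.e (nat_lit 98373) (nat_lit 29) (.e (nat_lit 450588) (nat_lit 10) (.e (nat_lit 573452) (nat_lit 9) (.e (nat_lit 359) (nat_lit 30) (.e (nat_lit 417536) (nat_lit 6) .nil)))))) (.g (nat_lit 5) .nil .nil))) 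
(.lf (nat_lit 285409) (.g (nat_lit 1957) (.e (nat_lit 286735) (nat_lit 3) (.e (nat_lit 98389) (nat_lit 33) (.e (nat_lit 491560) (nat_lit 10) (.e (nat_lit 344120) (nat_lit 21) (.e (nat_lit 516139) (nat_lit 7) .nil))))) .nil)))) (.nd (nat_lit 5) (.nd (nat_lit 6) 
(.lf (nat_lit 285329) (.g (nat_lit 3041) (.e (nat_lit 286735) (nat_lit 3) (.e (nat_lit 98373) (nat_lit 29) (.e (nat_lit 450588) (nat_lit 10) (.e (nat_lit 573450) (nat_lit 9) (.e (nat_lit 5) (nat_lit 0) .nil))))) .nil)) 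
(.lf (nat_lit 285393) (.g (nat_lit 2358) (.e (nat_lit 286735) (nat_lit 3) (.e (nat_lit 98382) (nat_lit 31) (.e (nat_lit 466974) (nat_lit 22) (.e (nat_lit 196626) (nat_lit 9) (.e (nat_lit 1400) (nat_lit 106) (.e (nat_lit 327424) (nat_lit 16) .nil)))))) (.g (nat_lit 5) .nil .nil)))) (.nd (nat_lit 6) 
(.lf (nat_lit 285361) (.g (nat_lit 3926) (.e (nat_lit 286735) (nat_lit 3) (.e (nat_lit 98373) (nat_lit 29) (.e (nat_lit 450588) (nat_lit 10) (.e (nat_lit 573473) (nat_lit 12) (.e (nat_lit 57347) (nat_lit 0) (.e (nat_lit 6927) (nat_lit 372) (.e (nat_lit 8305) (nat_lit 58) .nil))))))) (.g (nat_lit 4) .nil .nil))) 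
(.lf (nat_lit 285425) (.g (nat_lit 4010) (.e (nat_lit 286739) (nat_lit 7) (.e (nat_lit 319500) (nat_lit 10) (.e (nat_lit 804) (nat_lit 67) (.e (nat_lit 712755) (nat_lit 30) (.e (nat_lit 450588) (nat_lit 10) (.e (nat_lit 573503) (nat_lit 18) (.e (nat_lit 1349) (nat_lit 102) .nil))))))) (.g (nat_lit 7) .nil .nil)))))) (.nd (nat_lit 4) (.nd (nat_lit 5) (.nd (nat_lit 6) 
(.lf (nat_lit 285321) (.g (nat_lit 2095) (.e (nat_lit 286735) (nat_lit 3) (.e (nat_lit 98373) (nat_lit 29) (.e (nat_lit 450588) (nat_lit 10) (.e (nat_lit 573448) (nat_lit 9) .nil)))) .nil)) 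
(.lf (nat_lit 285385) (.g (nat_lit 1317) (.e (nat_lit 286735) (nat_lit 3) (.e (nat_lit 98381) (nat_lit 31) (.e (nat_lit 466977) (nat_lit 22) (.e (nat_lit 196623) (nat_lit 9) .nil)))) .nil))) (.nd (nat_lit 6) 
(.lf (nat_lit 285353) (.g (nat_lit 2329) (.e (nat_lit 286735) (nat_lit 3) (.e (nat_lit 98373) (nat_lit 29) (.e (nat_lit 450588) (nat_lit 10) (.e (nat_lit 573457) (nat_lit 9) .nil)))) .nil)) 
(.lf (nat_lit 285417) (.g (nat_lit 580) (.e (nat_lit 294656) (nat_lit 3) (.e (nat_lit 98372) (nat_lit 29) (.e (nat_lit 450581) (nat_lit 5) .nil))) .nil)))) (.nd (nat_lit 5) (.nd (nat_lit 6) 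
(.lf (nat_lit 285337) (.g (nat_lit 1954) (.e (nat_lit 286735) (nat_lit 3) (.e (nat_lit 98373) (nat_lit 29) (.e (nat_lit 450588) (nat_lit 10) (.e (nat_lit 573452) (nat_lit 9) (.e (nat_lit 11) (nat_lit 0) .nil))))) .nil)) 
(.lf (nat_lit 285401) (.g (nat_lit 3813) (.e (nat_lit 286735) (nat_lit 3) (.e (nat_lit 98389) (nat_lit 33) (.e (nat_lit 491558) (nat_lit 10) (.e (nat_lit 344117) (nat_lit 21) (.e (nat_lit 516106) (nat_lit 0) (.e (nat_lit 6986) (nat_lit 377) (.e (nat_lit 2781) (nat_lit 178) .nil))))))) (.g (nat_lit 5) .nil .nil)))) (.nd (nat_lit 6) 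
(.lf (nat_lit 285369) (.g (nat_lit 1296) (.e (nat_lit 286735) (nat_lit 3) (.e (nat_lit 98374) (nat_lit 29) (.e (nat_lit 450575) (nat_lit 1) (.e (nat_lit 499991) (nat_lit 14) (.e (nat_lit 1399) (nat_lit 106) (.e (nat_lit 327424) (nat_lit 16) .nil)))))) (.g (nat_lit 5) .nil .nil))) 
(.lf (nat_lit 285433) (.g (nat_lit 1352) (.e (nat_lit 286739) (nat_lit 7) (.e (nat_lit 319530) (nat_lit 16) (.e (nat_lit 286728) (nat_lit 0) (.e (nat_lit 990) (nat_lit 81) .nil)))) .nil)))))) (.nd (nat_lit 3) (.nd (nat_lit 4) (.nd (nat_lit 5) (.nd (nat_lit 6) 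
(.lf (nat_lit 285317) (.g (nat_lit 2939) (.e (nat_lit 286735) (nat_lit 3) (.e (nat_lit 98373) (nat_lit 29) (.e (nat_lit 450588) (nat_lit 10) (.e (nat_lit 573442) (nat_lit 0) .nil)))) .nil)) 
(.lf (nat_lit 285381) (.g (nat_lit 509) (.e (nat_lit 286735) (nat_lit 3) (.e (nat_lit 98381) (nat_lit 31) (.e (nat_lit 466960) (nat_lit 20) .nil))) .nil))) (.nd (nat_lit 6) 
(.lf (nat_lit 285349) (.g (nat_lit 4255) (.e (nat_lit 286735) (nat_lit 3) (.e (nat_lit 98373) (nat_lit 29) (.e (nat_lit 450588) (nat_lit 10) (.e (nat_lit 573454) (nat_lit 9) (.e (nat_lit 0) (nat_lit 0) .nil))))) .nil)) 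
(.lf (nat_lit 285413) (.g (nat_lit 1881) (.e (nat_lit 294656) (nat_lit 3) (.e (nat_lit 98370) (nat_lit 28) (.e (nat_lit 442427) (nat_lit 23) (.e (nat_lit 204846) (nat_lit 24) .nil)))) .nil)))) (.nd (nat_lit 5) (.nd (nat_lit 6) 
(.lf (nat_lit 285333) (.g (nat_lit 4759) (.e (nat_lit 286735) (nat_lit 3) (.e (nat_lit 98373) (nat_lit 29) (.e (nat_lit 450588) (nat_lit 10) (.e (nat_lit 573451) (nat_lit 9) (.e (nat_lit 67) (nat_lit 0) .nil))))) .nil)) 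
(.lf (nat_lit 285397) (.g (nat_lit 3401) (.e (nat_lit 286735) (nat_lit 3) (.e (nat_lit 98388) (nat_lit 33) (.e (nat_lit 491560) (nat_lit 10) (.e (nat_lit 344117) (nat_lit 21) (.e (nat_lit 516106) (nat_lit 0) (.e (nat_lit 6986) (nat_lit 377) (.e (nat_lit 2781) (nat_lit 178) .nil))))))) (.g (nat_lit 4) .nil .nil)))) (.nd (nat_lit 6) 
(.lf (nat_lit 285365) (.g (nat_lit 4005) (.e (nat_lit 286735) (nat_lit 3) (.e (nat_lit 98373) (nat_lit 29) (.e (nat_lit 450588) (nat_lit 10) (.e (nat_lit 573475) (nat_lit 12) (.e (nat_lit 57351) (nat_lit 0) (.e (nat_lit 6927) (nat_lit 372) (.e (nat_lit 8305) (nat_lit 58) .nil))))))) (.g (nat_lit 4) .nil .nil))) 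
(.lf (nat_lit 285429) (.g (nat_lit 1906) (.e (nat_lit 286739) (nat_lit 7) (.e (nat_lit 319505) (nat_lit 10) (.e (nat_lit 618) (nat_lit 48) (.e (nat_lit 557109) (nat_lit 15) (.e (nat_lit 188461) (nat_lit 26) .nil))))) .nil))))) (.nd (nat_lit 4) (.nd (nat_lit 5) (.nd (nat_lit 6) 
(.lf (nat_lit 285325) (.g (nat_lit 2003) (.e (nat_lit 286735) (nat_lit 3) (.e (nat_lit 98373) (nat_lit 29) (.e (nat_lit 450588) (nat_lit 10) (.e (nat_lit 573449) (nat_lit 9) (.e (nat_lit 12) (nat_lit 0) .nil))))) .nil)) 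
(.lf (nat_lit 285389) (.g (nat_lit 1760) (.e (nat_lit 286735) (nat_lit 3) (.e (nat_lit 98381) (nat_lit 31) (.e (nat_lit 466981) (nat_lit 23) (.e (nat_lit 204846) (nat_lit 24) (.e (nat_lit 327424) (nat_lit 16) .nil))))) .nil))) (.nd (nat_lit 6) 
(.lf (nat_lit 285357) (.g (nat_lit 3809) (.e (nat_lit 286735) (nat_lit 3) (.e (nat_lit 98373) (nat_lit 29) (.e (nat_lit 450588) (nat_lit 10) (.e (nat_lit 573458) (nat_lit 9) (.e (nat_lit 42) (nat_lit 0) .nil))))) .nil)) 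
(.lf (nat_lit 285421) (.g (nat_lit 1203) (.e (nat_lit 286738) (nat_lit 6) (.e (nat_lit 147493) (nat_lit 11) (.e (nat_lit 24660) (nat_lit 13) (.e (nat_lit 393260) (nat_lit 21) (.e (nat_lit 417536) (nat_lit 16) .nil))))) (.g (nat_lit 4) .nil .nil))))) (.nd (nat_lit 5) (.nd (nat_lit 6) 
(.lf (nat_lit 285341) (.g (nat_lit 4081) (.e (nat_lit 286735) (nat_lit 3) (.e (nat_lit 98373) (nat_lit 29) (.e (nat_lit 450588) (nat_lit 10) (.e (nat_lit 573452) (nat_lit 9) (.e (nat_lit 11) (nat_lit 0) (.e (nat_lit 7048) (nat_lit 377) (.e (nat_lit 1353) (nat_lit 102) .nil))))))) (.g (nat_lit 4) .nil .nil))) 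
(.lf (nat_lit 285405) (.g (nat_lit 4311) (.e (nat_lit 286735) (nat_lit 3) (.e (nat_lit 98389) (nat_lit 33) (.e (nat_lit 491560) (nat_lit 10) (.e (nat_lit 344117) (nat_lit 21) (.e (nat_lit 516106) (nat_lit 0) (.e (nat_lit 6986) (nat_lit 377) (.e (nat_lit 2779) (nat_lit 178) .nil))))))) (.g (nat_lit 5) .nil .nil)))) (.nd (nat_lit 6) 
(.lf (nat_lit 285373) (.g (nat_lit 1032) (.e (nat_lit 286735) (nat_lit 3) (.e (nat_lit 98374) (nat_lit 29) (.e (nat_lit 450579) (nat_lit 5) (.e (nat_lit 540416) (nat_lit 7) .nil)))) .nil)) 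
(.lf (nat_lit 285437) (.g (nat_lit 1734) (.e (nat_lit 286739) (nat_lit 7) (.e (nat_lit 319531) (nat_lit 16) (.e (nat_lit 286728) (nat_lit 0) (.e (nat_lit 990) (nat_lit 81) (.e (nat_lit 4500) (nat_lit 263) .nil))))) .nil))))))) (.nd (nat_lit 2) (.nd (nat_lit 3) (.nd (nat_lit 4) (.nd (nat_lit 5) (.nd (nat_lit 6) 
(.lf (nat_lit 285315) (.g (nat_lit 3016) (.e (nat_lit 286735) (nat_lit 3) (.e (nat_lit 98373) (nat_lit 29) (.e (nat_lit 450588) (nat_lit 10) (.e (nat_lit 573441) (nat_lit 0) (.e (nat_lit 75) (nat_lit 0) .nil))))) .nil)) 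
(.lf (nat_lit 285379) (.g (nat_lit 1091) (.e (nat_lit 286735) (nat_lit 3) (.e (nat_lit 98380) (nat_lit 31) (.e (nat_lit 466974) (nat_lit 22) (.e (nat_lit 196661) (nat_lit 12) .nil)))) .nil))) (.nd (nat_lit 6) 
(.lf (nat_lit 285347) (.g (nat_lit 3573) (.e (nat_lit 286735) (nat_lit 3) (.e (nat_lit 98373) (nat_lit 29) (.e (nat_lit 450588) (nat_lit 10) (.e (nat_lit 573453) (nat_lit 9) .nil)))) .nil)) 
(.lf (nat_lit 285411) (.g (nat_lit 729) (.e (nat_lit 294656) (nat_lit 3) (.e (nat_lit 98359) (nat_lit 26) (.e (nat_lit 426275) (nat_lit 10) .nil))) .nil)))) (.nd (nat_lit 5) (.nd (nat_lit 6) 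
(.lf (nat_lit 285331) (.g (nat_lit 4759) (.e (nat_lit 286735) (nat_lit 3) (.e (nat_lit 98373) (nat_lit 29) (.e (nat_lit 450588) (nat_lit 10) (.e (nat_lit 573451) (nat_lit 9) (.e (nat_lit 34) (nat_lit 0) .nil))))) .nil)) 
(.lf (nat_lit 285395) (.g (nat_lit 2344) (.e (nat_lit 286735) (nat_lit 3) (.e (nat_lit 98382) (nat_lit 31) (.e (nat_lit 466977) (nat_lit 22) (.e (nat_lit 196626) (nat_lit 9) (.e (nat_lit 1400) (nat_lit 106) (.e (nat_lit 327424) (nat_lit 16) .nil)))))) (.g (nat_lit 5) .nil .nil)))) (.nd (nat_lit 6) 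
(.lf (nat_lit 285363) (.g (nat_lit 726) (.e (nat_lit 286735) (nat_lit 3) (.e (nat_lit 98373) (nat_lit 29) (.e (nat_lit 450588) (nat_lit 10) (.e (nat_lit 573475) (nat_lit 12) .nil)))) .nil)) 
(.lf (nat_lit 285427) (.g (nat_lit 2074) (.e (nat_lit 286739) (nat_lit 7) (.e (nat_lit 319505) (nat_lit 10) (.e (nat_lit 618) (nat_lit 48) (.e (nat_lit 557107) (nat_lit 15) (.e (nat_lit 188459) (nat_lit 26) .nil))))) .nil))))) (.nd (nat_lit 4) (.nd (nat_lit 5) (.nd (nat_lit 6) 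
(.lf (nat_lit 285323) (.g (nat_lit 1342) (.e (nat_lit 286735) (nat_lit 3) (.e (nat_lit 98373) (nat_lit 29) (.e (nat_lit 450588) (nat_lit 10) (.e (nat_lit 573449) (nat_lit 9) .nil)))) .nil)) 
(.lf (nat_lit 285387) (.g (nat_lit 1340) (.e (nat_lit 286735) (nat_lit 3) (.e (nat_lit 98381) (nat_lit 31) (.e (nat_lit 466977) (nat_lit 22) (.e (nat_lit 196627) (nat_lit 9) .nil)))) .nil))) (.nd (nat_lit 6) 
(.lf (nat_lit 285355) (.g (nat_lit 5329) (.e (nat_lit 286735) (nat_lit 3) (.e (nat_lit 98373) (nat_lit 29) (.e (nat_lit 450588) (nat_lit 10) (.e (nat_lit 573457) (nat_lit 9) (.e (nat_lit 365) (nat_lit 31) (.e (nat_lit 417811) (nat_lit 6) .nil)))))) (.g (nat_lit 6) .nil .nil))) 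
(.lf (nat_lit 285419) (.g (nat_lit 2254) (.e (nat_lit 294656) (nat_lit 3) (.e (nat_lit 98373) (nat_lit 29) (.e (nat_lit 450581) (nat_lit 5) (.e (nat_lit 532523) (nat_lit 7) (.e (nat_lit 319534) (nat_lit 16) .nil))))) .nil)))) (.nd (nat_lit 5) (.nd (nat_lit 6) 
(.lf (nat_lit 285339) (.g (nat_lit 4261) (.e (nat_lit 286735) (nat_lit 3) (.e (nat_lit 98373) (nat_lit 29) (.e (nat_lit 450588) (nat_lit 10) (.e (nat_lit 573452) (nat_lit 9) (.e (nat_lit 11) (nat_lit 0) (.e (nat_lit 6955) (nat_lit 377) (.e (nat_lit 1353) (nat_lit 102) .nil))))))) (.g (nat_lit 4) .nil .nil))) 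
(.lf (nat_lit 285403) (.g (nat_lit 1901) (.e (nat_lit 286735) (nat_lit 3) (.e (nat_lit 98389) (nat_lit 33) (.e (nat_lit 491560) (nat_lit 10) (.e (nat_lit 344116) (nat_lit 21) .nil)))) .nil))) (.nd (nat_lit 6) 
(.lf (nat_lit 285371) (.g (nat_lit 2084) (.e (nat_lit 286735) (nat_lit 3) (.e (nat_lit 98374) (nat_lit 29) (.e (nat_lit 450579) (nat_lit 5) (.e (nat_lit 532523) (nat_lit 7) (.e (nat_lit 319529) (nat_lit 16) .nil))))) .nil)) 
(.lf (nat_lit 285435) (.g (nat_lit 792) (.e (nat_lit 286739) (nat_lit 7) (.e (nat_lit 319530) (nat_lit 16) (.e (nat_lit 286739) (nat_lit 7) (.e (nat_lit 319530) (nat_lit 16) .nil)))) .nil)))))) (.nd (nat_lit 3) (.nd (nat_lit 4) (.nd (nat_lit 5) (.nd (nat_lit 6) 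
(.lf (nat_lit 285319) (.g (nat_lit 1874) (.e (nat_lit 286735) (nat_lit 3) (.e (nat_lit 98373) (nat_lit 29) (.e (nat_lit 450588) (nat_lit 10) (.e (nat_lit 581376) (nat_lit 0) .nil)))) .nil)) 
(.lf (nat_lit 285383) (.g (nat_lit 1210) (.e (nat_lit 286735) (nat_lit 3) (.e (nat_lit 98381) (nat_lit 31) (.e (nat_lit 466974) (nat_lit 22) (.e (nat_lit 196661) (nat_lit 12) .nil)))) .nil))) (.nd (nat_lit 6) 
(.lf (nat_lit 285351) (.g (nat_lit 1784) (.e (nat_lit 286735) (nat_lit 3) (.e (nat_lit 98373) (nat_lit 29) (.e (nat_lit 450588) (nat_lit 10) (.e (nat_lit 573455) (nat_lit 9) .nil)))) .nil)) 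
(.lf (nat_lit 285415) (.g (nat_lit 1078) (.e (nat_lit 294656) (nat_lit 3) (.e (nat_lit 98372) (nat_lit 29) (.e (nat_lit 450580) (nat_lit 5) (.e (nat_lit 532523) (nat_lit 7) .nil)))) .nil)))) (.nd (nat_lit 5) (.nd (nat_lit 6) 
(.lf (nat_lit 285335) (.g (nat_lit 5818) (.e (nat_lit 286735) (nat_lit 3) (.e (nat_lit 98373) (nat_lit 29) (.e (nat_lit 450588) (nat_lit 10) (.e (nat_lit 573451) (nat_lit 9) (.e (nat_lit 365) (nat_lit 31) (.e (nat_lit 417811) (nat_lit 6) .nil)))))) (.g (nat_lit 5) .nil .nil))) 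
(.lf (nat_lit 285399) (.g (nat_lit 3894) (.e (nat_lit 286735) (nat_lit 3) (.e (nat_lit 98389) (nat_lit 33) (.e (nat_lit 491546) (nat_lit 9) (.e (nat_lit 336028) (nat_lit 3) (.e (nat_lit 98325) (nat_lit 17) (.e (nat_lit 6986) (nat_lit 377) (.e (nat_lit 2779) (nat_lit 178) .nil))))))) (.g (nat_lit 6) .nil .nil)))) (.nd (nat_lit 6) 
(.lf (nat_lit 285367) (.g (nat_lit 2279) (.e (nat_lit 286735) (nat_lit 3) (.e (nat_lit 98373) (nat_lit 29) (.e (nat_lit 450589) (nat_lit 11) (.e (nat_lit 581632) (nat_lit 0) .nil)))) .nil)) 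
(.lf (nat_lit 285431) (.g (nat_lit 553) (.e (nat_lit 286739) (nat_lit 7) (.e (nat_lit 319505) (nat_lit 10) (.e (nat_lit 5714) (nat_lit 312) .nil))) .nil))))) (.nd (nat_lit 4) (.nd (nat_lit 5) (.nd (nat_lit 6) 
(.lf (nat_lit 285327) (.g (nat_lit 2004) (.e (nat_lit 286735) (nat_lit 3) (.e (nat_lit 98373) (nat_lit 29) (.e (nat_lit 450588) (nat_lit 10) (.e (nat_lit 573449) (nat_lit 9) (.e (nat_lit 64) (nat_lit 0) .nil))))) .nil)) 
(.lf (nat_lit 285391) (.g (nat_lit 3048) (.e (nat_lit 286735) (nat_lit 3) (.e (nat_lit 98382) (nat_lit 31) (.e (nat_lit 466967) (nat_lit 20) (.e (nat_lit 3253) (nat_lit 197) (.e (nat_lit 532486) (nat_lit 0) (.e (nat_lit 6113) (nat_lit 332) (.e (nat_lit 1361) (nat_lit 102) .nil))))))) (.g (nat_lit 0) .nil .nil)))) (.nd (nat_lit 6) 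
(.lf (nat_lit 285359) (.g (nat_lit 1874) (.e (nat_lit 286735) (nat_lit 3) (.e (nat_lit 98373) (nat_lit 29) (.e (nat_lit 450588) (nat_lit 10) (.e (nat_lit 581376) (nat_lit 10) .nil)))) .nil)) 
(.lf (nat_lit 285423) (.g (nat_lit 1016) (.e (nat_lit 286738) (nat_lit 6) (.e (nat_lit 147495) (nat_lit 11) (.e (nat_lit 24660) (nat_lit 13) (.e (nat_lit 393259) (nat_lit 21) .nil)))) .nil)))) (.nd (nat_lit 5) (.nd (nat_lit 6) 
(.lf (nat_lit 285343) (.g (nat_lit 3888) (.e (nat_lit 286735) (nat_lit 3) (.e (nat_lit 98373) (nat_lit 29) (.e (nat_lit 450588) (nat_lit 10) (.e (nat_lit 573452) (nat_lit 9) (.e (nat_lit 61) (nat_lit 0) (.e (nat_lit 6988) (nat_lit 377) (.e (nat_lit 7936) (nat_lit 102) .nil))))))) (.g (nat_lit 4) .nil .nil))) 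
(.lf (nat_lit 285407) (.g (nat_lit 2845) (.e (nat_lit 286735) (nat_lit 3) (.e (nat_lit 98389) (nat_lit 33) (.e (nat_lit 491560) (nat_lit 10) (.e (nat_lit 344118) (nat_lit 21) (.e (nat_lit 516139) (nat_lit 7) (.e (nat_lit 417536) (nat_lit 16) .nil)))))) (.g (nat_lit 5) .nil .nil)))) (.nd (nat_lit 6) 
(.lf (nat_lit 285375) (.g (nat_lit 1322) (.e (nat_lit 286735) (nat_lit 3) (.e (nat_lit 98374) (nat_lit 29) (.e (nat_lit 450580) (nat_lit 5) (.e (nat_lit 532522) (nat_lit 7) (.e (nat_lit 319528) (nat_lit 16) .nil))))) .nil)) 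
(.lf (nat_lit 285439) (.g (nat_lit 1449) (.e (nat_lit 286739) (nat_lit 7) (.e (nat_lit 319531) (nat_lit 16) (.e (nat_lit 286728) (nat_lit 0) (.e (nat_lit 1907) (nat_lit 129) .nil)))) .nil)))))))))

noncomputable def tv3624 : DT := (.nd (nat_lit 0) (.nd (nat_lit 1) (.nd (nat_lit 2) (.nd (nat_lit 3) (.nd (nat_lit 4) (.nd (nat_lit 5) (.nd (nat_lit 6) 
(.lf (nat_lit 285440) (.g (nat_lit 1423) (.e (nat_lit 286739) (nat_lit 7) (.e (nat_lit 319531) (nat_lit 16) (.e (nat_lit 286728) (nat_lit 0) (.e (nat_lit 1908) (nat_lit 129) .nil)))) .nil)) 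
(.lf (nat_lit 285504) (.g (nat_lit 2924) (.e (nat_lit 286740) (nat_lit 7) (.e (nat_lit 319505) (nat_lit 10) (.e (nat_lit 618) (nat_lit 48) (.e (nat_lit 557109) (nat_lit 15) (.e (nat_lit 188428) (nat_lit 20) (.e (nat_lit 3572) (nat_lit 222) (.e (nat_lit 737300) (nat_lit 7) .nil))))))) (.g (nat_lit 4) .nil .nil)))) (.nd (nat_lit 6) 
(.lf (nat_lit 285472) (.g (nat_lit 1669) (.e (nat_lit 286739) (nat_lit 7) (.e (nat_lit 319533) (nat_lit 16) (.e (nat_lit 286753) (nat_lit 10) (.e (nat_lit 344157) (nat_lit 36) (.e (nat_lit 638986) (nat_lit 5) (.e (nat_lit 2828) (nat_lit 182) (.e (nat_lit 417536) (nat_lit 6) .nil))))))) (.g (nat_lit 6) .nil .nil))) 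
(.lf (nat_lit 285536) (.g (nat_lit 1054) (.e (nat_lit 286740) (nat_lit 7) (.e (nat_lit 319533) (nat_lit 16) (.e (nat_lit 286753) (nat_lit 10) (.e (nat_lit 344152) (nat_lit 34) .nil)))) .nil)))) (.nd (nat_lit 5) (.nd (nat_lit 6) 
(.lf (nat_lit 285456) (.g (nat_lit 1648) (.e (nat_lit 286739) (nat_lit 7) (.e (nat_lit 319531) (nat_lit 16) (.e (nat_lit 286756) (nat_lit 10) (.e (nat_lit 344151) (nat_lit 34) .nil)))) .nil)) 
(.lf (nat_lit 285520) (.g (nat_lit 1243) (.e (nat_lit 286740) (nat_lit 7) (.e (nat_lit 319531) (nat_lit 16) (.e (nat_lit 286728) (nat_lit 0) (.e (nat_lit 1910) (nat_lit 129) .nil)))) .nil))) (.nd (nat_lit 6) 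
(.lf (nat_lit 285488) (.g (nat_lit 1292) (.e (nat_lit 286739) (nat_lit 7) (.e (nat_lit 319534) (nat_lit 16) (.e (nat_lit 286756) (nat_lit 10) (.e (nat_lit 344150) (nat_lit 34) .nil)))) .nil)) 
(.lf (nat_lit 285552) (.g (nat_lit 458) (.e (nat_lit 286740) (nat_lit 7) (.e (nat_lit 319539) (nat_lit 19) (.e (nat_lit 319232) (nat_lit 30) .nil))) .nil))))) (.nd (nat_lit 4) (.nd (nat_lit 5) (.nd (nat_lit 6) 
(.lf (nat_lit 285448) (.g (nat_lit 1932) (.e (nat_lit 286739) (nat_lit 7) (.e (nat_lit 319531) (nat_lit 16) (.e (nat_lit 286739) (nat_lit 7) (.e (nat_lit 319534) (nat_lit 16) (.e (nat_lit 286740) (nat_lit 7) (.e (nat_lit 319530) (nat_lit 16) .nil)))))) (.g (nat_lit 4) .nil .nil))) 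
(.lf (nat_lit 285512) (.g (nat_lit 443) (.e (nat_lit 286740) (nat_lit 7) (.e (nat_lit 319524) (nat_lit 14) (.e (nat_lit 270354) (nat_lit 8) (.e (nat_lit 303124) (nat_lit 7) (.e (nat_lit 409639) (nat_lit 15) (.e (nat_lit 278567) (nat_lit 16) .nil)))))) (.g (nat_lit 0) .nil .nil)))) (.nd (nat_lit 6) 
(.lf (nat_lit 285480) (.g (nat_lit 562) (.e (nat_lit 286739) (nat_lit 7) (.e (nat_lit 319534) (nat_lit 16) (.e (nat_lit 286740) (nat_lit 7) .nil))) .nil)) 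
(.lf (nat_lit 285544) (.g (nat_lit 812) (.e (nat_lit 286740) (nat_lit 7) (.e (nat_lit 319534) (nat_lit 16) (.e (nat_lit 286749) (nat_lit 9) .nil))) .nil)))) (.nd (nat_lit 5) (.nd (nat_lit 6) 
(.lf (nat_lit 285464) (.g (nat_lit 1816) (.e (nat_lit 286739) (nat_lit 7) (.e (nat_lit 319533) (nat_lit 16) (.e (nat_lit 286740) (nat_lit 7) (.e (nat_lit 319531) (nat_lit 16) (.e (nat_lit 286739) (nat_lit 7) .nil))))) .nil)) 
(.lf (nat_lit 285528) (.g (nat_lit 1528) (.e (nat_lit 286740) (nat_lit 7) (.e (nat_lit 319531) (nat_lit 16) (.e (nat_lit 286756) (nat_lit 10) (.e (nat_lit 344154) (nat_lit 35) .nil)))) .nil))) (.nd (nat_lit 6) 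
(.lf (nat_lit 285496) (.g (nat_lit 466) (.e (nat_lit 286739) (nat_lit 7) (.e (nat_lit 319538) (nat_lit 19) (.e (nat_lit 311300) (nat_lit 0) .nil))) .nil)) 
(.lf (nat_lit 285560) (.g (nat_lit 786) (.e (nat_lit 286742) (nat_lit 9) (.e (nat_lit 336013) (nat_lit 2) (.e (nat_lit 90170) (nat_lit 13) .nil))) .nil)))))) (.nd (nat_lit 3) (.nd (nat_lit 4) (.nd (nat_lit 5) (.nd (nat_lit 6) 
(.lf (nat_lit 285444) (.g (nat_lit 959) (.e (nat_lit 286739) (nat_lit 7) (.e (nat_lit 319531) (nat_lit 16) (.e (nat_lit 286739) (nat_lit 7) (.e (nat_lit 319533) (nat_lit 16) .nil)))) .nil)) 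
(.lf (nat_lit 285508) (.g (nat_lit 972) (.e (nat_lit 286740) (nat_lit 7) (.e (nat_lit 319519) (nat_lit 12) (.e (nat_lit 32787) (nat_lit 9) (.e (nat_lit 65609) (nat_lit 10) (.e (nat_lit 344115) (nat_lit 20) .nil))))) .nil))) (.nd (nat_lit 6) 
(.lf (nat_lit 285476) (.g (nat_lit 1521) (.e (nat_lit 286739) (nat_lit 7) (.e (nat_lit 319534) (nat_lit 16) (.e (nat_lit 286728) (nat_lit 0) (.e (nat_lit 1910) (nat_lit 129) (.e (nat_lit 598039) (nat_lit 8) .nil))))) .nil)) 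
(.lf (nat_lit 285540) (.g (nat_lit 1545) (.e (nat_lit 286740) (nat_lit 7) (.e (nat_lit 319533) (nat_lit 16) (.e (nat_lit 286753) (nat_lit 10) (.e (nat_lit 344160) (nat_lit 37) (.e (nat_lit 647188) (nat_lit 9) .nil))))) .nil)))) (.nd (nat_lit 5) (.nd (nat_lit 6) 
(.lf (nat_lit 285460) (.g (nat_lit 1944) (.e (nat_lit 286739) (nat_lit 7) (.e (nat_lit 319531) (nat_lit 16) (.e (nat_lit 286765) (nat_lit 15) (.e (nat_lit 3459) (nat_lit 216) .nil)))) .nil)) 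
(.lf (nat_lit 285524) (.g (nat_lit 622) (.e (nat_lit 286740) (nat_lit 7) (.e (nat_lit 319531) (nat_lit 16) (.e (nat_lit 286740) (nat_lit 7) .nil))) .nil))) (.nd (nat_lit 6) 
(.lf (nat_lit 285492) (.g (nat_lit 1368) (.e (nat_lit 286739) (nat_lit 7) (.e (nat_lit 319534) (nat_lit 16) (.e (nat_lit 286756) (nat_lit 10) (.e (nat_lit 344154) (nat_lit 35) (.e (nat_lit 630793) (nat_lit 5) .nil))))) .nil)) 
(.lf (nat_lit 285556) (.g (nat_lit 1455) (.e (nat_lit 286742) (nat_lit 9) (.e (nat_lit 335997) (nat_lit 1) (.e (nat_lit 57851) (nat_lit 252) (.e (nat_lit 57364) (nat_lit 1) .nil)))) .nil))))) (.nd (nat_lit 4) (.nd (nat_lit 5) (.nd (nat_lit 6) 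
(.lf (nat_lit 285452) (.g (nat_lit 2000) (.e (nat_lit 286739) (nat_lit 7) (.e (nat_lit 319531) (nat_lit 16) (.e (nat_lit 286740) (nat_lit 7) (.e (nat_lit 319531) (nat_lit 16) (.e (nat_lit 286739) (nat_lit 7) .nil))))) .nil)) 
(.lf (nat_lit 285516) (.g (nat_lit 1826) (.e (nat_lit 286740) (nat_lit 7) (.e (nat_lit 319530) (nat_lit 16) (.e (nat_lit 286739) (nat_lit 7) (.e (nat_lit 319534) (nat_lit 16) (.e (nat_lit 286740) (nat_lit 7) .nil))))) .nil))) (.nd (nat_lit 6) 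
(.lf (nat_lit 285484) (.g (nat_lit 1883) (.e (nat_lit 286739) (nat_lit 7) (.e (nat_lit 319534) (nat_lit 16) (.e (nat_lit 286740) (nat_lit 7) (.e (nat_lit 319533) (nat_lit 16) (.e (nat_lit 286739) (nat_lit 7) .nil))))) .nil)) 
(.lf (nat_lit 285548) (.g (nat_lit 1493) (.e (nat_lit 286740) (nat_lit 7) (.e (nat_lit 319534) (nat_lit 16) (.e (nat_lit 286756) (nat_lit 10) (.e (nat_lit 344157) (nat_lit 36) .nil)))) .nil)))) (.nd (nat_lit 5) (.nd (nat_lit 6) 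
(.lf (nat_lit 285468) (.g (nat_lit 346) (.e (nat_lit 286739) (nat_lit 7) (.e (nat_lit 319533) (nat_lit 16) (.e (nat_lit 286753) (nat_lit 10) .nil))) .nil)) 
(.lf (nat_lit 285532) (.g (nat_lit 1699) (.e (nat_lit 286740) (nat_lit 7) (.e (nat_lit 319531) (nat_lit 16) (.e (nat_lit 286759) (nat_lit 12) (.e (nat_lit 385047) (nat_lit 21) .nil)))) .nil))) (.nd (nat_lit 6) 
(.lf (nat_lit 285500) (.g (nat_lit 2844) (.e (nat_lit 286740) (nat_lit 7) (.e (nat_lit 319505) (nat_lit 10) (.e (nat_lit 618) (nat_lit 48) (.e (nat_lit 557109) (nat_lit 15) (.e (nat_lit 188425) (nat_lit 20) .nil))))) .nil)) 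
(.lf (nat_lit 285564) (.g (nat_lit 2601) (.e (nat_lit 286742) (nat_lit 9) (.e (nat_lit 336028) (nat_lit 3) (.e (nat_lit 98350) (nat_lit 24) (.e (nat_lit 409616) (nat_lit 10) .nil)))) .nil))))))) (.nd (nat_lit 2) (.nd (nat_lit 3) (.nd (nat_lit 4) (.nd (nat_lit 5) (.nd (nat_lit 6) 
(.lf (nat_lit 285442) (.g (nat_lit 1203) (.e (nat_lit 286739) (nat_lit 7) (.e (nat_lit 319531) (nat_lit 16) (.e (nat_lit 286739) (nat_lit 7) (.e (nat_lit 319530) (nat_lit 16) .nil)))) .nil)) 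
(.lf (nat_lit 285506) (.g (nat_lit 3412) (.e (nat_lit 286740) (nat_lit 7) (.e (nat_lit 319505) (nat_lit 10) (.e (nat_lit 618) (nat_lit 48) (.e (nat_lit 557109) (nat_lit 15) (.e (nat_lit 188461) (nat_lit 26) (.e (nat_lit 254010) (nat_lit 14) (.e (nat_lit 7936) (nat_lit 102) .nil))))))) (.g (nat_lit 5) .nil .nil)))) (.nd (nat_lit 6) 
(.lf (nat_lit 285474) (.g (nat_lit 1780) (.e (nat_lit 286739) (nat_lit 7) (.e (nat_lit 319533) (nat_lit 16) (.e (nat_lit 286753) (nat_lit 10) (.e (nat_lit 344160) (nat_lit 37) (.e (nat_lit 647198) (nat_lit 10) (.e (nat_lit 16128) (nat_lit 180) (.e (nat_lit 1348) (nat_lit 102) .nil))))))) (.g (nat_lit 4) .nil .nil))) 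
(.lf (nat_lit 285538) (.g (nat_lit 2207) (.e (nat_lit 286740) (nat_lit 7) (.e (nat_lit 319533) (nat_lit 16) (.e (nat_lit 286753) (nat_lit 10) (.e (nat_lit 344157) (nat_lit 36) (.e (nat_lit 638985) (nat_lit 5) (.e (nat_lit 2828) (nat_lit 182) (.e (nat_lit 417536) (nat_lit 6) .nil))))))) (.g (nat_lit 6) .nil .nil))))) (.nd (nat_lit 5) (.nd (nat_lit 6) 
(.lf (nat_lit 285458) (.g (nat_lit 1876) (.e (nat_lit 286739) (nat_lit 7) (.e (nat_lit 319531) (nat_lit 16) (.e (nat_lit 286756) (nat_lit 10) (.e (nat_lit 344160) (nat_lit 37) .nil)))) .nil)) 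
(.lf (nat_lit 285522) (.g (nat_lit 1061) (.e (nat_lit 286740) (nat_lit 7) (.e (nat_lit 319531) (nat_lit 16) (.e (nat_lit 286739) (nat_lit 7) (.e (nat_lit 319530) (nat_lit 16) .nil)))) .nil))) (.nd (nat_lit 6) 
(.lf (nat_lit 285490) (.g (nat_lit 1297) (.e (nat_lit 286739) (nat_lit 7) (.e (nat_lit 319534) (nat_lit 16) (.e (nat_lit 286756) (nat_lit 10) (.e (nat_lit 344152) (nat_lit 34) .nil)))) .nil)) 
(.lf (nat_lit 285554) (.g (nat_lit 2339) (.e (nat_lit 286742) (nat_lit 9) (.e (nat_lit 335997) (nat_lit 1) (.e (nat_lit 57847) (nat_lit 252) (.e (nat_lit 57365) (nat_lit 1) (.e (nat_lit 57829) (nat_lit 250) .nil))))) .nil))))) (.nd (nat_lit 4) (.nd (nat_lit 5) (.nd (nat_lit 6) 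
(.lf (nat_lit 285450) (.g (nat_lit 738) (.e (nat_lit 286739) (nat_lit 7) (.e (nat_lit 319531) (nat_lit 16) (.e (nat_lit 286740) (nat_lit 7) .nil))) .nil)) 
(.lf (nat_lit 285514) (.g (nat_lit 1240) (.e (nat_lit 286740) (nat_lit 7) (.e (nat_lit 319530) (nat_lit 16) (.e (nat_lit 286728) (nat_lit 0) (.e (nat_lit 1909) (nat_lit 129) .nil)))) .nil))) (.nd (nat_lit 6) 
(.lf (nat_lit 285482) (.g (nat_lit 1928) (.e (nat_lit 286739) (nat_lit 7) (.e (nat_lit 319534) (nat_lit 16) (.e (nat_lit 286740) (nat_lit 7) (.e (nat_lit 319531) (nat_lit 16) (.e (nat_lit 286739) (nat_lit 7) (.e (nat_lit 319530) (nat_lit 16) .nil)))))) (.g (nat_lit 4) .nil .nil))) 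
(.lf (nat_lit 285546) (.g (nat_lit 1561) (.e (nat_lit 286740) (nat_lit 7) (.e (nat_lit 319534) (nat_lit 16) (.e (nat_lit 286756) (nat_lit 10) (.e (nat_lit 344153) (nat_lit 35) .nil)))) .nil)))) (.nd (nat_lit 5) (.nd (nat_lit 6) 
(.lf (nat_lit 285466) (.g (nat_lit 1871) (.e (nat_lit 286739) (nat_lit 7) (.e (nat_lit 319533) (nat_lit 16) (.e (nat_lit 286740) (nat_lit 7) (.e (nat_lit 319531) (nat_lit 16) (.e (nat_lit 286740) (nat_lit 7) .nil))))) .nil)) 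
(.lf (nat_lit 285530) (.g (nat_lit 1457) (.e (nat_lit 286740) (nat_lit 7) (.e (nat_lit 319531) (nat_lit 16) (.e (nat_lit 286756) (nat_lit 10) (.e (nat_lit 344160) (nat_lit 37) .nil)))) .nil))) (.nd (nat_lit 6) 
(.lf (nat_lit 285498) (.g (nat_lit 2506) (.e (nat_lit 286740) (nat_lit 7) (.e (nat_lit 319505) (nat_lit 10) (.e (nat_lit 618) (nat_lit 48) (.e (nat_lit 557107) (nat_lit 15) (.e (nat_lit 188431) (nat_lit 20) .nil))))) .nil)) 
(.lf (nat_lit 285562) (.g (nat_lit 4189) (.e (nat_lit 286742) (nat_lit 9) (.e (nat_lit 336013) (nat_lit 2) (.e (nat_lit 90170) (nat_lit 13) (.e (nat_lit 172060) (nat_lit 1) .nil)))) .nil)))))) (.nd (nat_lit 3) (.nd (nat_lit 4) (.nd (nat_lit 5) (.nd (nat_lit 6) 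
(.lf (nat_lit 285446) (.g (nat_lit 1953) (.e (nat_lit 286739) (nat_lit 7) (.e (nat_lit 319531) (nat_lit 16) (.e (nat_lit 286739) (nat_lit 7) (.e (nat_lit 319533) (nat_lit 16) (.e (nat_lit 286740) (nat_lit 7) (.e (nat_lit 319531) (nat_lit 16) .nil)))))) (.g (nat_lit 4) .nil .nil))) 
(.lf (nat_lit 285510) (.g (nat_lit 1933) (.e (nat_lit 286740) (nat_lit 7) (.e (nat_lit 319519) (nat_lit 12) (.e (nat_lit 32787) (nat_lit 9) (.e (nat_lit 65611) (nat_lit 10) (.e (nat_lit 344115) (nat_lit 20) (.e (nat_lit 507923) (nat_lit 6) .nil)))))) (.g (nat_lit 0) .nil .nil)))) (.nd (nat_lit 6) 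
(.lf (nat_lit 285478) (.g (nat_lit 1953) (.e (nat_lit 286739) (nat_lit 7) (.e (nat_lit 319534) (nat_lit 16) (.e (nat_lit 286739) (nat_lit 7) (.e (nat_lit 319534) (nat_lit 16) (.e (nat_lit 286740) (nat_lit 7) (.e (nat_lit 319530) (nat_lit 16) .nil)))))) (.g (nat_lit 4) .nil .nil))) 
(.lf (nat_lit 285542) (.g (nat_lit 738) (.e (nat_lit 286740) (nat_lit 7) (.e (nat_lit 319534) (nat_lit 16) (.e (nat_lit 286739) (nat_lit 7) .nil))) .nil)))) (.nd (nat_lit 5) (.nd (nat_lit 6) 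
(.lf (nat_lit 285462) (.g (nat_lit 777) (.e (nat_lit 286739) (nat_lit 7) (.e (nat_lit 319533) (nat_lit 16) (.e (nat_lit 286740) (nat_lit 7) .nil))) .nil)) 
(.lf (nat_lit 285526) (.g (nat_lit 1945) (.e (nat_lit 286740) (nat_lit 7) (.e (nat_lit 319531) (nat_lit 16) (.e (nat_lit 286756) (nat_lit 10) (.e (nat_lit 344152) (nat_lit 34) .nil)))) .nil))) (.nd (nat_lit 6) 
(.lf (nat_lit 285494) (.g (nat_lit 1862) (.e (nat_lit 286739) (nat_lit 7) (.e (nat_lit 319534) (nat_lit 16) (.e (nat_lit 286756) (nat_lit 10) (.e (nat_lit 344160) (nat_lit 37) (.e (nat_lit 647190) (nat_lit 9) .nil))))) .nil)) 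
(.lf (nat_lit 285558) (.g (nat_lit 737) (.e (nat_lit 286742) (nat_lit 9) (.e (nat_lit 336013) (nat_lit 2) (.e (nat_lit 90165) (nat_lit 12) .nil))) .nil))))) (.nd (nat_lit 4) (.nd (nat_lit 5) (.nd (nat_lit 6) 
(.lf (nat_lit 285454) (.g (nat_lit 215) (.e (nat_lit 286739) (nat_lit 7) (.e (nat_lit 319531) (nat_lit 16) (.e (nat_lit 286756) (nat_lit 10) .nil))) .nil)) 
(.lf (nat_lit 285518) (.g (nat_lit 934) (.e (nat_lit 286740) (nat_lit 7) (.e (nat_lit 319531) (nat_lit 16) (.e (nat_lit 286721) (nat_lit 0) .nil))) .nil))) (.nd (nat_lit 6) 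
(.lf (nat_lit 285486) (.g (nat_lit 1024) (.e (nat_lit 286739) (nat_lit 7) (.e (nat_lit 319534) (nat_lit 16) (.e (nat_lit 286741) (nat_lit 8) .nil))) .nil)) 
(.lf (nat_lit 285550) (.g (nat_lit 1985) (.e (nat_lit 286740) (nat_lit 7) (.e (nat_lit 319534) (nat_lit 16) (.e (nat_lit 286756) (nat_lit 10) (.e (nat_lit 344157) (nat_lit 36) (.e (nat_lit 638986) (nat_lit 5) (.e (nat_lit 2824) (nat_lit 182) (.e (nat_lit 417536) (nat_lit 6) .nil))))))) (.g (nat_lit 5) .nil .nil))))) (.nd (nat_lit 5) (.nd (nat_lit 6) 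
(.lf (nat_lit 285470) (.g (nat_lit 745) (.e (nat_lit 286739) (nat_lit 7) (.e (nat_lit 319533) (nat_lit 16) (.e (nat_lit 286753) (nat_lit 10) (.e (nat_lit 344154) (nat_lit 35) .nil)))) .nil)) 
(.lf (nat_lit 285534) (.g (nat_lit 1090) (.e (nat_lit 286740) (nat_lit 7) (.e (nat_lit 319533) (nat_lit 16) (.e (nat_lit 286739) (nat_lit 7) (.e (nat_lit 319530) (nat_lit 16) .nil)))) .nil))) (.nd (nat_lit 6) 
(.lf (nat_lit 285502) (.g (nat_lit 3738) (.e (nat_lit 286740) (nat_lit 7) (.e (nat_lit 319505) (nat_lit 10) (.e (nat_lit 618) (nat_lit 48) (.e (nat_lit 557109) (nat_lit 15) (.e (nat_lit 188427) (nat_lit 20) (.e (nat_lit 3572) (nat_lit 222) (.e (nat_lit 737300) (nat_lit 7) .nil))))))) (.g (nat_lit 7) .nil .nil))) 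
(.lf (nat_lit 285566) (.g (nat_lit 2216) (.e (nat_lit 286742) (nat_lit 9) (.e (nat_lit 336028) (nat_lit 3) (.e (nat_lit 98366) (nat_lit 27) (.e (nat_lit 434275) (nat_lit 39) (.e (nat_lit 663584) (nat_lit 12) .nil))))) .nil)))))))) (.nd (nat_lit 1) (.nd (nat_lit 2) (.nd (nat_lit 3) (.nd (nat_lit 4) (.nd (nat_lit 5) (.nd (nat_lit 6) 
(.lf (nat_lit 285441) (.g (nat_lit 1453) (.e (nat_lit 286739) (nat_lit 7) (.e (nat_lit 319531) (nat_lit 16) (.e (nat_lit 286728) (nat_lit 0) (.e (nat_lit 1910) (nat_lit 129) .nil)))) .nil)) 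
(.lf (nat_lit 285505) (.g (nat_lit 2172) (.e (nat_lit 286740) (nat_lit 7) (.e (nat_lit 319505) (nat_lit 10) (.e (nat_lit 618) (nat_lit 48) (.e (nat_lit 557109) (nat_lit 15) (.e (nat_lit 188461) (nat_lit 26) .nil))))) .nil))) (.nd (nat_lit 6) 
(.lf (nat_lit 285473) (.g (nat_lit 1104) (.e (nat_lit 286739) (nat_lit 7) (.e (nat_lit 319533) (nat_lit 16) (.e (nat_lit 286753) (nat_lit 10) (.e (nat_lit 344157) (nat_lit 36) (.e (nat_lit 638987) (nat_lit 5) .nil))))) .nil)) 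
(.lf (nat_lit 285537) (.g (nat_lit 957) (.e (nat_lit 286740) (nat_lit 7) (.e (nat_lit 319533) (nat_lit 16) (.e (nat_lit 286753) (nat_lit 10) (.e (nat_lit 344154) (nat_lit 35) .nil)))) .nil)))) (.nd (nat_lit 5) (.nd (nat_lit 6) 
(.lf (nat_lit 285457) (.g (nat_lit 1833) (.e (nat_lit 286739) (nat_lit 7) (.e (nat_lit 319531) (nat_lit 16) (.e (nat_lit 286756) (nat_lit 10) (.e (nat_lit 344152) (nat_lit 34) .nil)))) .nil)) 
(.lf (nat_lit 285521) (.g (nat_lit 562) (.e (nat_lit 286740) (nat_lit 7) (.e (nat_lit 319531) (nat_lit 16) (.e (nat_lit 286739) (nat_lit 7) .nil))) .nil))) (.nd (nat_lit 6) 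
(.lf (nat_lit 285489) (.g (nat_lit 1313) (.e (nat_lit 286739) (nat_lit 7) (.e (nat_lit 319534) (nat_lit 16) (.e (nat_lit 286756) (nat_lit 10) (.e (nat_lit 344151) (nat_lit 34) (.e (nat_lit 622602) (nat_lit 5) .nil))))) .nil)) 
(.lf (nat_lit 285553) (.g (nat_lit 1769) (.e (nat_lit 286742) (nat_lit 9) (.e (nat_lit 335997) (nat_lit 1) (.e (nat_lit 57846) (nat_lit 252) (.e (nat_lit 57365) (nat_lit 1) (.e (nat_lit 57829) (nat_lit 250) .nil))))) .nil))))) (.nd (nat_lit 4) (.nd (nat_lit 5) (.nd (nat_lit 6) 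
(.lf (nat_lit 285449) (.g (nat_lit 2203) (.e (nat_lit 286739) (nat_lit 7) (.e (nat_lit 319531) (nat_lit 16) (.e (nat_lit 286739) (nat_lit 7) (.e (nat_lit 319534) (nat_lit 16) (.e (nat_lit 286740) (nat_lit 7) (.e (nat_lit 319531) (nat_lit 16) .nil)))))) (.g (nat_lit 4) .nil .nil))) 
(.lf (nat_lit 285513) (.g (nat_lit 637) (.e (nat_lit 286740) (nat_lit 7) (.e (nat_lit 319530) (nat_lit 16) (.e (nat_lit 286728) (nat_lit 0) .nil))) .nil))) (.nd (nat_lit 6) 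
(.lf (nat_lit 285481) (.g (nat_lit 1816) (.e (nat_lit 286739) (nat_lit 7) (.e (nat_lit 319534) (nat_lit 16) (.e (nat_lit 286740) (nat_lit 7) (.e (nat_lit 319530) (nat_lit 16) (.e (nat_lit 286739) (nat_lit 7) .nil))))) .nil)) 
(.lf (nat_lit 285545) (.g (nat_lit 1550) (.e (nat_lit 286740) (nat_lit 7) (.e (nat_lit 319534) (nat_lit 16) (.e (nat_lit 286756) (nat_lit 10) (.e (nat_lit 344150) (nat_lit 34) .nil)))) .nil)))) (.nd (nat_lit 5) (.nd (nat_lit 6) 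
(.lf (nat_lit 285465) (.g (nat_lit 1932) (.e (nat_lit 286739) (nat_lit 7) (.e (nat_lit 319533) (nat_lit 16) (.e (nat_lit 286740) (nat_lit 7) (.e (nat_lit 319531) (nat_lit 16) (.e (nat_lit 286739) (nat_lit 7) (.e (nat_lit 319534) (nat_lit 16) .nil)))))) (.g (nat_lit 4) .nil .nil))) 
(.lf (nat_lit 285529) (.g (nat_lit 1494) (.e (nat_lit 286740) (nat_lit 7) (.e (nat_lit 319531) (nat_lit 16) (.e (nat_lit 286756) (nat_lit 10) (.e (nat_lit 344157) (nat_lit 36) .nil)))) .nil))) (.nd (nat_lit 6) 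
(.lf (nat_lit 285497) (.g (nat_lit 579) (.e (nat_lit 286740) (nat_lit 7) (.e (nat_lit 319505) (nat_lit 10) (.e (nat_lit 618) (nat_lit 48) .nil))) .nil)) 
(.lf (nat_lit 285561) (.g (nat_lit 3075) (.e (nat_lit 286742) (nat_lit 9) (.e (nat_lit 336013) (nat_lit 2) (.e (nat_lit 90170) (nat_lit 13) (.e (nat_lit 172059) (nat_lit 1) .nil)))) .nil)))))) (.nd (nat_lit 3) (.nd (nat_lit 4) (.nd (nat_lit 5) (.nd (nat_lit 6) 
(.lf (nat_lit 285445) (.g (nat_lit 1904) (.e (nat_lit 286739) (nat_lit 7) (.e (nat_lit 319531) (nat_lit 16) (.e (nat_lit 286739) (nat_lit 7) (.e (nat_lit 319533) (nat_lit 16) (.e (nat_lit 286740) (nat_lit 7) .nil))))) .nil)) 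
(.lf (nat_lit 285509) (.g (nat_lit 2406) (.e (nat_lit 286740) (nat_lit 7) (.e (nat_lit 319519) (nat_lit 12) (.e (nat_lit 32787) (nat_lit 9) (.e (nat_lit 65610) (nat_lit 10) (.e (nat_lit 344115) (nat_lit 20) (.e (nat_lit 507923) (nat_lit 6) .nil)))))) (.g (nat_lit 0) .nil .nil)))) (.nd (nat_lit 6) 
(.lf (nat_lit 285477) (.g (nat_lit 1932) (.e (nat_lit 286739) (nat_lit 7) (.e (nat_lit 319534) (nat_lit 16) (.e (nat_lit 286739) (nat_lit 7) (.e (nat_lit 319530) (nat_lit 16) (.e (nat_lit 286740) (nat_lit 7) .nil))))) .nil)) 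
(.lf (nat_lit 285541) (.g (nat_lit 765) (.e (nat_lit 286740) (nat_lit 7) (.e (nat_lit 319534) (nat_lit 16) (.e (nat_lit 286728) (nat_lit 0) .nil))) .nil)))) (.nd (nat_lit 5) (.nd (nat_lit 6) 
(.lf (nat_lit 285461) (.g (nat_lit 620) (.e (nat_lit 286739) (nat_lit 7) (.e (nat_lit 319533) (nat_lit 16) (.e (nat_lit 286725) (nat_lit 0) .nil))) .nil)) 
(.lf (nat_lit 285525) (.g (nat_lit 2178) (.e (nat_lit 286740) (nat_lit 7) (.e (nat_lit 319531) (nat_lit 16) (.e (nat_lit 286749) (nat_lit 9) (.e (nat_lit 335997) (nat_lit 1) .nil)))) .nil))) (.nd (nat_lit 6) 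
(.lf (nat_lit 285493) (.g (nat_lit 1307) (.e (nat_lit 286739) (nat_lit 7) (.e (nat_lit 319534) (nat_lit 16) (.e (nat_lit 286756) (nat_lit 10) (.e (nat_lit 344160) (nat_lit 37) .nil)))) .nil)) 
(.lf (nat_lit 285557) (.g (nat_lit 1452) (.e (nat_lit 286742) (nat_lit 9) (.e (nat_lit 335997) (nat_lit 1) (.e (nat_lit 57853) (nat_lit 252) (.e (nat_lit 57364) (nat_lit 1) .nil)))) .nil))))) (.nd (nat_lit 4) (.nd (nat_lit 5) (.nd (nat_lit 6) 
(.lf (nat_lit 285453) (.g (nat_lit 1116) (.e (nat_lit 286739) (nat_lit 7) (.e (nat_lit 319531) (nat_lit 16) (.e (nat_lit 286741) (nat_lit 8) .nil))) .nil)) 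
(.lf (nat_lit 285517) (.g (nat_lit 751) (.e (nat_lit 286740) (nat_lit 7) (.e (nat_lit 319530) (nat_lit 16) (.e (nat_lit 286759) (nat_lit 12) .nil))) .nil))) (.nd (nat_lit 6) 
(.lf (nat_lit 285485) (.g (nat_lit 2000) (.e (nat_lit 286739) (nat_lit 7) (.e (nat_lit 319534) (nat_lit 16) (.e (nat_lit 286740) (nat_lit 7) (.e (nat_lit 319534) (nat_lit 16) (.e (nat_lit 286739) (nat_lit 7) .nil))))) .nil)) 
(.lf (nat_lit 285549) (.g (nat_lit 2786) (.e (nat_lit 286740) (nat_lit 7) (.e (nat_lit 319534) (nat_lit 16) (.e (nat_lit 286756) (nat_lit 10) (.e (nat_lit 344157) (nat_lit 36) (.e (nat_lit 638985) (nat_lit 5) (.e (nat_lit 2828) (nat_lit 182) (.e (nat_lit 417536) (nat_lit 6) .nil))))))) (.g (nat_lit 6) .nil .nil))))) (.nd (nat_lit 5) (.nd (nat_lit 6) 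
(.lf (nat_lit 285469) (.g (nat_lit 834) (.e (nat_lit 286739) (nat_lit 7) (.e (nat_lit 319533) (nat_lit 16) (.e (nat_lit 286753) (nat_lit 10) (.e (nat_lit 344152) (nat_lit 34) .nil)))) .nil)) 
(.lf (nat_lit 285533) (.g (nat_lit 1837) (.e (nat_lit 286740) (nat_lit 7) (.e (nat_lit 319531) (nat_lit 16) (.e (nat_lit 286759) (nat_lit 12) (.e (nat_lit 385087) (nat_lit 46) .nil)))) .nil))) (.nd (nat_lit 6) 
(.lf (nat_lit 285501) (.g (nat_lit 2665) (.e (nat_lit 286740) (nat_lit 7) (.e (nat_lit 319505) (nat_lit 10) (.e (nat_lit 618) (nat_lit 48) (.e (nat_lit 557109) (nat_lit 15) (.e (nat_lit 188427) (nat_lit 20) .nil))))) .nil)) 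
(.lf (nat_lit 285565) (.g (nat_lit 828) (.e (nat_lit 286742) (nat_lit 9) (.e (nat_lit 336028) (nat_lit 3) (.e (nat_lit 98366) (nat_lit 27) .nil))) .nil))))))) (.nd (nat_lit 2) (.nd (nat_lit 3) (.nd (nat_lit 4) (.nd (nat_lit 5) (.nd (nat_lit 6) 
(.lf (nat_lit 285443) (.g (nat_lit 2001) (.e (nat_lit 286739) (nat_lit 7) (.e (nat_lit 319531) (nat_lit 16) (.e (nat_lit 286739) (nat_lit 7) (.e (nat_lit 319531) (nat_lit 16) (.e (nat_lit 286739) (nat_lit 7) .nil))))) .nil)) 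
(.lf (nat_lit 285507) (.g (nat_lit 756) (.e (nat_lit 286740) (nat_lit 7) (.e (nat_lit 319519) (nat_lit 12) (.e (nat_lit 32787) (nat_lit 9) (.e (nat_lit 65595) (nat_lit 9) .nil)))) .nil))) (.nd (nat_lit 6) 
(.lf (nat_lit 285475) (.g (nat_lit 1404) (.e (nat_lit 286739) (nat_lit 7) (.e (nat_lit 319534) (nat_lit 16) (.e (nat_lit 286728) (nat_lit 0) (.e (nat_lit 1910) (nat_lit 129) .nil)))) .nil)) 
(.lf (nat_lit 285539) (.g (nat_lit 1785) (.e (nat_lit 286740) (nat_lit 7) (.e (nat_lit 319533) (nat_lit 16) (.e (nat_lit 286753) (nat_lit 10) (.e (nat_lit 344157) (nat_lit 36) (.e (nat_lit 638986) (nat_lit 5) (.e (nat_lit 2828) (nat_lit 182) (.e (nat_lit 417536) (nat_lit 6) .nil))))))) (.g (nat_lit 6) .nil .nil))))) (.nd (nat_lit 5) (.nd (nat_lit 6) 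
(.lf (nat_lit 285459) (.g (nat_lit 1019) (.e (nat_lit 286739) (nat_lit 7) (.e (nat_lit 319531) (nat_lit 16) (.e (nat_lit 286759) (nat_lit 12) .nil))) .nil)) 
(.lf (nat_lit 285523) (.g (nat_lit 1834) (.e (nat_lit 286740) (nat_lit 7) (.e (nat_lit 319531) (nat_lit 16) (.e (nat_lit 286739) (nat_lit 7) (.e (nat_lit 319534) (nat_lit 16) (.e (nat_lit 286740) (nat_lit 7) .nil))))) .nil))) (.nd (nat_lit 6) 
(.lf (nat_lit 285491) (.g (nat_lit 1300) (.e (nat_lit 286739) (nat_lit 7) (.e (nat_lit 319534) (nat_lit 16) (.e (nat_lit 286756) (nat_lit 10) (.e (nat_lit 344153) (nat_lit 35) .nil)))) .nil)) 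
(.lf (nat_lit 285555) (.g (nat_lit 1753) (.e (nat_lit 286742) (nat_lit 9) (.e (nat_lit 335997) (nat_lit 1) (.e (nat_lit 57849) (nat_lit 252) (.e (nat_lit 57368) (nat_lit 1) .nil)))) .nil))))) (.nd (nat_lit 4) (.nd (nat_lit 5) (.nd (nat_lit 6) 
(.lf (nat_lit 285451) (.g (nat_lit 1154) (.e (nat_lit 286739) (nat_lit 7) (.e (nat_lit 319531) (nat_lit 16) (.e (nat_lit 286740) (nat_lit 7) (.e (nat_lit 319530) (nat_lit 16) .nil)))) .nil)) 
(.lf (nat_lit 285515) (.g (nat_lit 777) (.e (nat_lit 286740) (nat_lit 7) (.e (nat_lit 319530) (nat_lit 16) (.e (nat_lit 286739) (nat_lit 7) .nil))) .nil))) (.nd (nat_lit 6) 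
(.lf (nat_lit 285483) (.g (nat_lit 1928) (.e (nat_lit 286739) (nat_lit 7) (.e (nat_lit 319534) (nat_lit 16) (.e (nat_lit 286740) (nat_lit 7) (.e (nat_lit 319531) (nat_lit 16) (.e (nat_lit 286739) (nat_lit 7) (.e (nat_lit 319533) (nat_lit 16) .nil)))))) (.g (nat_lit 4) .nil .nil))) 
(.lf (nat_lit 285547) (.g (nat_lit 1464) (.e (nat_lit 286740) (nat_lit 7) (.e (nat_lit 319534) (nat_lit 16) (.e (nat_lit 286756) (nat_lit 10) (.e (nat_lit 344154) (nat_lit 35) .nil)))) .nil)))) (.nd (nat_lit 5) (.nd (nat_lit 6) 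
(.lf (nat_lit 285467) (.g (nat_lit 1855) (.e (nat_lit 286739) (nat_lit 7) (.e (nat_lit 319533) (nat_lit 16) (.e (nat_lit 286740) (nat_lit 7) (.e (nat_lit 319534) (nat_lit 16) (.e (nat_lit 286740) (nat_lit 7) .nil))))) .nil)) 
(.lf (nat_lit 285531) (.g (nat_lit 675) (.e (nat_lit 286740) (nat_lit 7) (.e (nat_lit 319531) (nat_lit 16) (.e (nat_lit 286759) (nat_lit 12) .nil))) .nil))) (.nd (nat_lit 6) 
(.lf (nat_lit 285499) (.g (nat_lit 2322) (.e (nat_lit 286740) (nat_lit 7) (.e (nat_lit 319505) (nat_lit 10) (.e (nat_lit 618) (nat_lit 48) (.e (nat_lit 557107) (nat_lit 15) (.e (nat_lit 188459) (nat_lit 26) .nil))))) .nil)) 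
(.lf (nat_lit 285563) (.g (nat_lit 3510) (.e (nat_lit 286742) (nat_lit 9) (.e (nat_lit 336013) (nat_lit 2) (.e (nat_lit 90170) (nat_lit 13) (.e (nat_lit 172061) (nat_lit 1) .nil)))) .nil)))))) (.nd (nat_lit 3) (.nd (nat_lit 4) (.nd (nat_lit 5) (.nd (nat_lit 6) 
(.lf (nat_lit 285447) (.g (nat_lit 1990) (.e (nat_lit 286739) (nat_lit 7) (.e (nat_lit 319531) (nat_lit 16) (.e (nat_lit 286739) (nat_lit 7) (.e (nat_lit 319534) (nat_lit 16) (.e (nat_lit 286739) (nat_lit 7) .nil))))) .nil)) 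
(.lf (nat_lit 285511) (.g (nat_lit 1915) (.e (nat_lit 286740) (nat_lit 7) (.e (nat_lit 319519) (nat_lit 12) (.e (nat_lit 32787) (nat_lit 9) (.e (nat_lit 65616) (nat_lit 10) (.e (nat_lit 344115) (nat_lit 20) (.e (nat_lit 507923) (nat_lit 6) .nil)))))) (.g (nat_lit 0) .nil .nil)))) (.nd (nat_lit 6) 
(.lf (nat_lit 285479) (.g (nat_lit 2203) (.e (nat_lit 286739) (nat_lit 7) (.e (nat_lit 319534) (nat_lit 16) (.e (nat_lit 286739) (nat_lit 7) (.e (nat_lit 319534) (nat_lit 16) (.e (nat_lit 286740) (nat_lit 7) (.e (nat_lit 319531) (nat_lit 16) .nil)))))) (.g (nat_lit 4) .nil .nil))) 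
(.lf (nat_lit 285543) (.g (nat_lit 622) (.e (nat_lit 286740) (nat_lit 7) (.e (nat_lit 319534) (nat_lit 16) (.e (nat_lit 286740) (nat_lit 7) .nil))) .nil)))) (.nd (nat_lit 5) (.nd (nat_lit 6) 
(.lf (nat_lit 285463) (.g (nat_lit 1917) (.e (nat_lit 286739) (nat_lit 7) (.e (nat_lit 319533) (nat_lit 16) (.e (nat_lit 286740) (nat_lit 7) (.e (nat_lit 319530) (nat_lit 16) (.e (nat_lit 286739) (nat_lit 7) .nil))))) .nil)) 
(.lf (nat_lit 285527) (.g (nat_lit 1952) (.e (nat_lit 286740) (nat_lit 7) (.e (nat_lit 319531) (nat_lit 16) (.e (nat_lit 286756) (nat_lit 10) (.e (nat_lit 344153) (nat_lit 35) .nil)))) .nil))) (.nd (nat_lit 6) 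
(.lf (nat_lit 285495) (.g (nat_lit 431) (.e (nat_lit 286739) (nat_lit 7) (.e (nat_lit 319537) (nat_lit 19) (.e (nat_lit 311300) (nat_lit 0) .nil))) .nil)) 
(.lf (nat_lit 285559) (.g (nat_lit 2209) (.e (nat_lit 286742) (nat_lit 9) (.e (nat_lit 336013) (nat_lit 2) (.e (nat_lit 90165) (nat_lit 12) (.e (nat_lit 164208) (nat_lit 176) .nil)))) .nil))))) (.nd (nat_lit 4) (.nd (nat_lit 5) (.nd (nat_lit 6) 
(.lf (nat_lit 285455) (.g (nat_lit 1842) (.e (nat_lit 286739) (nat_lit 7) (.e (nat_lit 319531) (nat_lit 16) (.e (nat_lit 286756) (nat_lit 10) (.e (nat_lit 344150) (nat_lit 34) .nil)))) .nil)) 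
(.lf (nat_lit 285519) (.g (nat_lit 570) (.e (nat_lit 286740) (nat_lit 7) (.e (nat_lit 319531) (nat_lit 16) (.e (nat_lit 286728) (nat_lit 0) .nil))) .nil))) (.nd (nat_lit 6) 
(.lf (nat_lit 285487) (.g (nat_lit 290) (.e (nat_lit 286739) (nat_lit 7) (.e (nat_lit 319534) (nat_lit 16) (.e (nat_lit 286756) (nat_lit 10) .nil))) .nil)) 
(.lf (nat_lit 285551) (.g (nat_lit 2506) (.e (nat_lit 286740) (nat_lit 7) (.e (nat_lit 319534) (nat_lit 16) (.e (nat_lit 286756) (nat_lit 10) (.e (nat_lit 344157) (nat_lit 36) (.e (nat_lit 638986) (nat_lit 5) (.e (nat_lit 2828) (nat_lit 182) (.e (nat_lit 417536) (nat_lit 6) .nil))))))) (.g (nat_lit 6) .nil .nil))))) (.nd (nat_lit 5) (.nd (nat_lit 6) 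
(.lf (nat_lit 285471) (.g (nat_lit 2091) (.e (nat_lit 286739) (nat_lit 7) (.e (nat_lit 319533) (nat_lit 16) (.e (nat_lit 286753) (nat_lit 10) (.e (nat_lit 344157) (nat_lit 36) (.e (nat_lit 638985) (nat_lit 5) (.e (nat_lit 2828) (nat_lit 182) (.e (nat_lit 417536) (nat_lit 6) .nil))))))) (.g (nat_lit 6) .nil .nil))) 
(.lf (nat_lit 285535) (.g (nat_lit 439) (.e (nat_lit 286740) (nat_lit 7) (.e (nat_lit 319533) (nat_lit 16) (.e (nat_lit 286753) (nat_lit 10) .nil))) .nil))) (.nd (nat_lit 6) 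
(.lf (nat_lit 285503) (.g (nat_lit 2850) (.e (nat_lit 286740) (nat_lit 7) (.e (nat_lit 319505) (nat_lit 10) (.e (nat_lit 618) (nat_lit 48) (.e (nat_lit 557109) (nat_lit 15) (.e (nat_lit 188428) (nat_lit 20) (.e (nat_lit 3571) (nat_lit 222) (.e (nat_lit 737300) (nat_lit 7) .nil))))))) (.g (nat_lit 4) .nil .nil))) 
(.lf (nat_lit 285567) (.g (nat_lit 1691) (.e (nat_lit 286742) (nat_lit 9) (.e (nat_lit 336028) (nat_lit 3) (.e (nat_lit 98367) (nat_lit 27) (.e (nat_lit 434209) (nat_lit 18) .nil)))) .nil)))))))))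

noncomputable def tv3625 : DT := (.nd (nat_lit 0) (.nd (nat_lit 1) (.nd (nat_lit 2) (.nd (nat_lit 3) (.nd (nat_lit 4) (.nd (nat_lit 5) (.nd (nat_lit 6) 
(.lf (nat_lit 285568) (.g (nat_lit 2685) (.e (nat_lit 286742) (nat_lit 9) (.e (nat_lit 336028) (nat_lit 3) (.e (nat_lit 98367) (nat_lit 27) (.e (nat_lit 434275) (nat_lit 39) (.e (nat_lit 663584) (nat_lit 12) .nil))))) .nil)) 
(.lf (nat_lit 285632) (.g (nat_lit 1478) (.e (nat_lit 286743) (nat_lit 9) (.e (nat_lit 336434) (nat_lit 30) (.e (nat_lit 450593) (nat_lit 16) (.e (nat_lit 655364) (nat_lit 0) (.e (nat_lit 2828) (nat_lit 182) (.e (nat_lit 417536) (nat_lit 6) .nil)))))) (.g (nat_lit 4) .nil .nil)))) (.nd (nat_lit 6) 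
(.lf (nat_lit 285600) (.g (nat_lit 2236) (.e (nat_lit 286743) (nat_lit 9) (.e (nat_lit 336427) (nat_lit 29) (.e (nat_lit 442430) (nat_lit 24) (.e (nat_lit 229678) (nat_lit 244) (.e (nat_lit 163846) (nat_lit 0) (.e (nat_lit 6989) (nat_lit 377) (.e (nat_lit 1361) (nat_lit 102) .nil))))))) (.g (nat_lit 4) .nil .nil))) 
(.lf (nat_lit 285664) (.g (nat_lit 1158) (.e (nat_lit 286747) (nat_lit 9) (.e (nat_lit 335997) (nat_lit 1) (.e (nat_lit 57682) (nat_lit 155) (.e (nat_lit 122914) (nat_lit 14) (.e (nat_lit 352272) (nat_lit 10) .nil))))) .nil)))) (.nd (nat_lit 5) (.nd (nat_lit 6) 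
(.lf (nat_lit 285584) (.g (nat_lit 1350) (.e (nat_lit 286743) (nat_lit 9) (.e (nat_lit 336316) (nat_lit 17) (.e (nat_lit 204544) (nat_lit 6) (.e (nat_lit 188461) (nat_lit 26) (.e (nat_lit 254009) (nat_lit 14) (.e (nat_lit 7936) (nat_lit 102) .nil)))))) (.g (nat_lit 4) .nil .nil))) 
(.lf (nat_lit 285648) (.g (nat_lit 584) (.e (nat_lit 286745) (nat_lit 9) (.e (nat_lit 336389) (nat_lit 27) (.e (nat_lit 426012) (nat_lit 0) .nil))) .nil))) (.nd (nat_lit 6) 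
(.lf (nat_lit 285616) (.g (nat_lit 1454) (.e (nat_lit 286743) (nat_lit 9) (.e (nat_lit 336432) (nat_lit 30) (.e (nat_lit 450569) (nat_lit 0) (.e (nat_lit 5948) (nat_lit 322) (.e (nat_lit 57400) (nat_lit 10) (.e (nat_lit 327424) (nat_lit 16) .nil)))))) (.g (nat_lit 5) .nil .nil))) 
(.lf (nat_lit 285680) (.g (nat_lit 1297) (.e (nat_lit 286747) (nat_lit 9) (.e (nat_lit 336013) (nat_lit 2) (.e (nat_lit 90168) (nat_lit 13) .nil))) .nil))))) (.nd (nat_lit 4) (.nd (nat_lit 5) (.nd (nat_lit 6) 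
(.lf (nat_lit 285576) (.g (nat_lit 1640) (.e (nat_lit 286743) (nat_lit 9) (.e (nat_lit 336316) (nat_lit 17) (.e (nat_lit 204544) (nat_lit 6) (.e (nat_lit 188459) (nat_lit 26) (.e (nat_lit 254003) (nat_lit 14) (.e (nat_lit 7936) (nat_lit 102) .nil)))))) (.g (nat_lit 5) .nil .nil))) 
(.lf (nat_lit 285640) (.g (nat_lit 2114) (.e (nat_lit 286743) (nat_lit 9) (.e (nat_lit 336443) (nat_lit 32) (.e (nat_lit 466972) (nat_lit 21) (.e (nat_lit 164403) (nat_lit 256) (.e (nat_lit 57400) (nat_lit 10) (.e (nat_lit 327424) (nat_lit 16) .nil)))))) (.g (nat_lit 4) .nil .nil)))) (.nd (nat_lit 6) 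
(.lf (nat_lit 285608) (.g (nat_lit 1927) (.e (nat_lit 286743) (nat_lit 9) (.e (nat_lit 336430) (nat_lit 29) (.e (nat_lit 442430) (nat_lit 24) (.e (nat_lit 229678) (nat_lit 244) (.e (nat_lit 163896) (nat_lit 10) (.e (nat_lit 417536) (nat_lit 6) .nil)))))) (.g (nat_lit 4) .nil .nil))) 
(.lf (nat_lit 285672) (.g (nat_lit 1747) (.e (nat_lit 286747) (nat_lit 9) (.e (nat_lit 336013) (nat_lit 2) (.e (nat_lit 90153) (nat_lit 10) (.e (nat_lit 16128) (nat_lit 241) .nil)))) .nil)))) (.nd (nat_lit 5) (.nd (nat_lit 6) 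
(.lf (nat_lit 285592) (.g (nat_lit 1909) (.e (nat_lit 286743) (nat_lit 9) (.e (nat_lit 336369) (nat_lit 27) (.e (nat_lit 426173) (nat_lit 7) (.e (nat_lit 409649) (nat_lit 18) (.e (nat_lit 311040) (nat_lit 25) (.e (nat_lit 319532) (nat_lit 16) .nil)))))) (.g (nat_lit 4) .nil .nil))) 
(.lf (nat_lit 285656) (.g (nat_lit 445) (.e (nat_lit 286746) (nat_lit 9) (.e (nat_lit 335907) (nat_lit 0) (.e (nat_lit 2336) (nat_lit 151) .nil))) .nil))) (.nd (nat_lit 6) 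
(.lf (nat_lit 285624) (.g (nat_lit 1872) (.e (nat_lit 286743) (nat_lit 9) (.e (nat_lit 336433) (nat_lit 30) (.e (nat_lit 450563) (nat_lit 0) (.e (nat_lit 5945) (nat_lit 322) (.e (nat_lit 57350) (nat_lit 0) (.e (nat_lit 6113) (nat_lit 332) (.e (nat_lit 1361) (nat_lit 102) .nil))))))) (.g (nat_lit 7) .nil .nil))) 
(.lf (nat_lit 285688) (.g (nat_lit 4338) (.e (nat_lit 286747) (nat_lit 9) (.e (nat_lit 336013) (nat_lit 2) (.e (nat_lit 90170) (nat_lit 13) (.e (nat_lit 172060) (nat_lit 1) .nil)))) .nil)))))) (.nd (nat_lit 3) (.nd (nat_lit 4) (.nd (nat_lit 5) (.nd (nat_lit 6) 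
(.lf (nat_lit 285572) (.g (nat_lit 1195) (.e (nat_lit 286742) (nat_lit 9) (.e (nat_lit 336426) (nat_lit 29) (.e (nat_lit 442430) (nat_lit 24) (.e (nat_lit 229707) (nat_lit 256) (.e (nat_lit 57400) (nat_lit 10) .nil))))) .nil)) 
(.lf (nat_lit 285636) (.g (nat_lit 612) (.e (nat_lit 286743) (nat_lit 9) (.e (nat_lit 336443) (nat_lit 32) (.e (nat_lit 466972) (nat_lit 21) .nil))) .nil))) (.nd (nat_lit 6) 
(.lf (nat_lit 285604) (.g (nat_lit 1558) (.e (nat_lit 286743) (nat_lit 9) (.e (nat_lit 336427) (nat_lit 29) (.e (nat_lit 442430) (nat_lit 24) (.e (nat_lit 229681) (nat_lit 244) (.e (nat_lit 163896) (nat_lit 10) (.e (nat_lit 417536) (nat_lit 6) .nil)))))) (.g (nat_lit 4) .nil .nil))) 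
(.lf (nat_lit 285668) (.g (nat_lit 1023) (.e (nat_lit 286747) (nat_lit 9) (.e (nat_lit 336013) (nat_lit 2) (.e (nat_lit 90134) (nat_lit 9) .nil))) .nil)))) (.nd (nat_lit 5) (.nd (nat_lit 6) 
(.lf (nat_lit 285588) (.g (nat_lit 2260) (.e (nat_lit 286743) (nat_lit 9) (.e (nat_lit 336337) (nat_lit 20) (.e (nat_lit 221219) (nat_lit 24) (.e (nat_lit 213030) (nat_lit 11) (.e (nat_lit 24584) (nat_lit 0) (.e (nat_lit 6113) (nat_lit 332) (.e (nat_lit 1361) (nat_lit 102) .nil))))))) (.g (nat_lit 0) .nil .nil))) 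
(.lf (nat_lit 285652) (.g (nat_lit 560) (.e (nat_lit 286746) (nat_lit 9) (.e (nat_lit 335907) (nat_lit 0) (.e (nat_lit 2292) (nat_lit 151) (.e (nat_lit 778348) (nat_lit 9) .nil)))) .nil))) (.nd (nat_lit 6) 
(.lf (nat_lit 285620) (.g (nat_lit 304) (.e (nat_lit 286743) (nat_lit 9) (.e (nat_lit 336432) (nat_lit 30) (.e (nat_lit 450595) (nat_lit 17) .nil))) .nil)) 
(.lf (nat_lit 285684) (.g (nat_lit 3171) (.e (nat_lit 286747) (nat_lit 9) (.e (nat_lit 336013) (nat_lit 2) (.e (nat_lit 90170) (nat_lit 13) (.e (nat_lit 172059) (nat_lit 1) .nil)))) .nil))))) (.nd (nat_lit 4) (.nd (nat_lit 5) (.nd (nat_lit 6) 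
(.lf (nat_lit 285580) (.g (nat_lit 1480) (.e (nat_lit 286743) (nat_lit 9) (.e (nat_lit 336316) (nat_lit 17) (.e (nat_lit 204544) (nat_lit 6) (.e (nat_lit 188459) (nat_lit 26) (.e (nat_lit 254009) (nat_lit 14) (.e (nat_lit 7936) (nat_lit 102) .nil)))))) (.g (nat_lit 4) .nil .nil))) 
(.lf (nat_lit 285644) (.g (nat_lit 1888) (.e (nat_lit 286743) (nat_lit 9) (.e (nat_lit 336444) (nat_lit 32) (.e (nat_lit 466972) (nat_lit 21) (.e (nat_lit 164402) (nat_lit 256) (.e (nat_lit 57400) (nat_lit 10) (.e (nat_lit 327424) (nat_lit 16) .nil)))))) (.g (nat_lit 5) .nil .nil)))) (.nd (nat_lit 6) 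
(.lf (nat_lit 285612) (.g (nat_lit 966) (.e (nat_lit 286743) (nat_lit 9) (.e (nat_lit 336432) (nat_lit 30) (.e (nat_lit 450568) (nat_lit 0) (.e (nat_lit 5948) (nat_lit 322) (.e (nat_lit 57400) (nat_lit 10) .nil))))) .nil)) 
(.lf (nat_lit 285676) (.g (nat_lit 2206) (.e (nat_lit 286747) (nat_lit 9) (.e (nat_lit 336013) (nat_lit 2) (.e (nat_lit 90165) (nat_lit 12) (.e (nat_lit 164207) (nat_lit 176) (.e (nat_lit 2777) (nat_lit 178) .nil))))) .nil)))) (.nd (nat_lit 5) (.nd (nat_lit 6) 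
(.lf (nat_lit 285596) (.g (nat_lit 1627) (.e (nat_lit 286743) (nat_lit 9) (.e (nat_lit 336426) (nat_lit 29) (.e (nat_lit 442430) (nat_lit 24) (.e (nat_lit 229680) (nat_lit 244) (.e (nat_lit 163896) (nat_lit 10) (.e (nat_lit 417536) (nat_lit 6) .nil)))))) (.g (nat_lit 4) .nil .nil))) 
(.lf (nat_lit 285660) (.g (nat_lit 1182) (.e (nat_lit 286747) (nat_lit 9) (.e (nat_lit 335997) (nat_lit 1) (.e (nat_lit 57652) (nat_lit 152) (.e (nat_lit 1217) (nat_lit 90) (.e (nat_lit 89856) (nat_lit 10) .nil))))) .nil))) (.nd (nat_lit 6) 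
(.lf (nat_lit 285628) (.g (nat_lit 1792) (.e (nat_lit 286743) (nat_lit 9) (.e (nat_lit 336433) (nat_lit 30) (.e (nat_lit 450597) (nat_lit 17) (.e (nat_lit 663555) (nat_lit 0) (.e (nat_lit 1003) (nat_lit 81) (.e (nat_lit 6113) (nat_lit 332) (.e (nat_lit 1361) (nat_lit 102) .nil))))))) (.g (nat_lit 0) .nil .nil))) 
(.lf (nat_lit 285692) (.g (nat_lit 1297) (.e (nat_lit 286747) (nat_lit 9) (.e (nat_lit 336013) (nat_lit 2) (.e (nat_lit 90172) (nat_lit 14) .nil))) .nil))))))) (.nd (nat_lit 2) (.nd (nat_lit 3) (.nd (nat_lit 4) (.nd (nat_lit 5) (.nd (nat_lit 6) 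
(.lf (nat_lit 285570) (.g (nat_lit 1225) (.e (nat_lit 286742) (nat_lit 9) (.e (nat_lit 336369) (nat_lit 27) (.e (nat_lit 426173) (nat_lit 7) (.e (nat_lit 409648) (nat_lit 18) .nil)))) .nil)) 
(.lf (nat_lit 285634) (.g (nat_lit 808) (.e (nat_lit 286743) (nat_lit 9) (.e (nat_lit 336443) (nat_lit 32) (.e (nat_lit 466971) (nat_lit 21) .nil))) .nil))) (.nd (nat_lit 6) 
(.lf (nat_lit 285602) (.g (nat_lit 779) (.e (nat_lit 286743) (nat_lit 9) (.e (nat_lit 336427) (nat_lit 29) (.e (nat_lit 442430) (nat_lit 24) (.e (nat_lit 229680) (nat_lit 244) .nil)))) .nil)) 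
(.lf (nat_lit 285666) (.g (nat_lit 1819) (.e (nat_lit 286747) (nat_lit 9) (.e (nat_lit 335997) (nat_lit 1) (.e (nat_lit 57857) (nat_lit 254) (.e (nat_lit 163908) (nat_lit 12) (.e (nat_lit 426171) (nat_lit 7) (.e (nat_lit 409639) (nat_lit 15) (.e (nat_lit 278567) (nat_lit 16) .nil))))))) (.g (nat_lit 5) .nil .nil))))) (.nd (nat_lit 5) (.nd (nat_lit 6) 
(.lf (nat_lit 285586) (.g (nat_lit 1890) (.e (nat_lit 286743) (nat_lit 9) (.e (nat_lit 336337) (nat_lit 20) (.e (nat_lit 221217) (nat_lit 24) (.e (nat_lit 213030) (nat_lit 11) (.e (nat_lit 24584) (nat_lit 0) (.e (nat_lit 6113) (nat_lit 332) (.e (nat_lit 1361) (nat_lit 102) .nil))))))) (.g (nat_lit 5) .nil .nil))) 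
(.lf (nat_lit 285650) (.g (nat_lit 376) (.e (nat_lit 286746) (nat_lit 9) (.e (nat_lit 335907) (nat_lit 0) (.e (nat_lit 1994) (nat_lit 137) .nil))) .nil))) (.nd (nat_lit 6) 
(.lf (nat_lit 285618) (.g (nat_lit 1616) (.e (nat_lit 286743) (nat_lit 9) (.e (nat_lit 336432) (nat_lit 30) (.e (nat_lit 450569) (nat_lit 0) (.e (nat_lit 5949) (nat_lit 322) (.e (nat_lit 57400) (nat_lit 10) (.e (nat_lit 327424) (nat_lit 16) .nil)))))) (.g (nat_lit 5) .nil .nil))) 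
(.lf (nat_lit 285682) (.g (nat_lit 3510) (.e (nat_lit 286747) (nat_lit 9) (.e (nat_lit 336013) (nat_lit 2) (.e (nat_lit 90170) (nat_lit 13) (.e (nat_lit 172046) (nat_lit 0) .nil)))) .nil))))) (.nd (nat_lit 4) (.nd (nat_lit 5) (.nd (nat_lit 6) 
(.lf (nat_lit 285578) (.g (nat_lit 1403) (.e (nat_lit 286743) (nat_lit 9) (.e (nat_lit 336316) (nat_lit 17) (.e (nat_lit 204544) (nat_lit 6) (.e (nat_lit 188459) (nat_lit 26) (.e (nat_lit 254006) (nat_lit 14) (.e (nat_lit 7936) (nat_lit 102) .nil)))))) (.g (nat_lit 4) .nil .nil))) 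
(.lf (nat_lit 285642) (.g (nat_lit 1068) (.e (nat_lit 286743) (nat_lit 9) (.e (nat_lit 336444) (nat_lit 32) (.e (nat_lit 466971) (nat_lit 21) (.e (nat_lit 164401) (nat_lit 256) (.e (nat_lit 57400) (nat_lit 10) .nil))))) .nil))) (.nd (nat_lit 6) 
(.lf (nat_lit 285610) (.g (nat_lit 1813) (.e (nat_lit 286743) (nat_lit 9) (.e (nat_lit 336432) (nat_lit 30) (.e (nat_lit 450568) (nat_lit 0) (.e (nat_lit 5599) (nat_lit 310) (.e (nat_lit 163846) (nat_lit 0) (.e (nat_lit 6989) (nat_lit 377) (.e (nat_lit 1361) (nat_lit 102) .nil))))))) (.g (nat_lit 6) .nil .nil))) 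
(.lf (nat_lit 285674) (.g (nat_lit 421) (.e (nat_lit 286747) (nat_lit 9) (.e (nat_lit 336013) (nat_lit 2) (.e (nat_lit 90165) (nat_lit 12) .nil))) .nil)))) (.nd (nat_lit 5) (.nd (nat_lit 6) 
(.lf (nat_lit 285594) (.g (nat_lit 1445) (.e (nat_lit 286743) (nat_lit 9) (.e (nat_lit 336369) (nat_lit 27) (.e (nat_lit 426173) (nat_lit 7) (.e (nat_lit 409649) (nat_lit 18) (.e (nat_lit 311040) (nat_lit 26) .nil))))) .nil)) 
(.lf (nat_lit 285658) (.g (nat_lit 445) (.e (nat_lit 286746) (nat_lit 9) (.e (nat_lit 335907) (nat_lit 0) (.e (nat_lit 2372) (nat_lit 154) .nil))) .nil))) (.nd (nat_lit 6) 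
(.lf (nat_lit 285626) (.g (nat_lit 1137) (.e (nat_lit 286743) (nat_lit 9) (.e (nat_lit 336433) (nat_lit 30) (.e (nat_lit 450568) (nat_lit 0) (.e (nat_lit 5599) (nat_lit 310) (.e (nat_lit 163896) (nat_lit 10) (.e (nat_lit 417536) (nat_lit 6) .nil)))))) (.g (nat_lit 4) .nil .nil))) 
(.lf (nat_lit 285690) (.g (nat_lit 5588) (.e (nat_lit 286747) (nat_lit 9) (.e (nat_lit 336013) (nat_lit 2) (.e (nat_lit 90170) (nat_lit 13) (.e (nat_lit 172061) (nat_lit 1) (.e (nat_lit 164327) (nat_lit 230) (.e (nat_lit 163868) (nat_lit 2) (.e (nat_lit 196691) (nat_lit 18) (.e (nat_lit 1349) (nat_lit 102) .nil)))))))) (.g (nat_lit 6) .nil .nil))))))) 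
(.nd (nat_lit 3) (.nd (nat_lit 4) (.nd (nat_lit 5) (.nd (nat_lit 6) 
(.lf (nat_lit 285574) (.g (nat_lit 531) (.e (nat_lit 286742) (nat_lit 9) (.e (nat_lit 336443) (nat_lit 32) (.e (nat_lit 466972) (nat_lit 21) .nil))) .nil)) 
(.lf (nat_lit 285638) (.g (nat_lit 2554) (.e (nat_lit 286743) (nat_lit 9) (.e (nat_lit 336443) (nat_lit 32) (.e (nat_lit 466972) (nat_lit 21) (.e (nat_lit 164403) (nat_lit 256) (.e (nat_lit 57350) (nat_lit 0) .nil))))) .nil))) (.nd (nat_lit 6) 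
(.lf (nat_lit 285606) (.g (nat_lit 1890) (.e (nat_lit 286743) (nat_lit 9) (.e (nat_lit 336430) (nat_lit 29) (.e (nat_lit 442428) (nat_lit 24) (.e (nat_lit 229678) (nat_lit 244) (.e (nat_lit 163899) (nat_lit 11) .nil))))) .nil)) 
(.lf (nat_lit 285670) (.g (nat_lit 4618) (.e (nat_lit 286747) (nat_lit 9) (.e (nat_lit 336013) (nat_lit 2) (.e (nat_lit 90134) (nat_lit 9) (.e (nat_lit 3098) (nat_lit 192) (.e (nat_lit 491558) (nat_lit 10) (.e (nat_lit 344115) (nat_lit 20) (.e (nat_lit 507923) (nat_lit 6) .nil))))))) (.g (nat_lit 5) .nil .nil))))) (.nd (nat_lit 5) (.nd (nat_lit 6) 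
(.lf (nat_lit 285590) (.g (nat_lit 1463) (.e (nat_lit 286743) (nat_lit 9) (.e (nat_lit 336369) (nat_lit 27) (.e (nat_lit 426173) (nat_lit 7) (.e (nat_lit 409648) (nat_lit 18) (.e (nat_lit 311040) (nat_lit 25) .nil))))) .nil)) 
(.lf (nat_lit 285654) (.g (nat_lit 1181) (.e (nat_lit 286746) (nat_lit 9) (.e (nat_lit 335907) (nat_lit 0) (.e (nat_lit 2298) (nat_lit 151) (.e (nat_lit 778339) (nat_lit 9) (.e (nat_lit 311) (nat_lit 23) (.e (nat_lit 352271) (nat_lit 9) (.e (nat_lit 417536) (nat_lit 6) .nil))))))) (.g (nat_lit 5) .nil .nil)))) (.nd (nat_lit 6) 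
(.lf (nat_lit 285622) (.g (nat_lit 1758) (.e (nat_lit 286743) (nat_lit 9) (.e (nat_lit 336433) (nat_lit 30) (.e (nat_lit 450562) (nat_lit 0) (.e (nat_lit 5954) (nat_lit 322) (.e (nat_lit 57400) (nat_lit 10) .nil))))) .nil)) 
(.lf (nat_lit 285686) (.g (nat_lit 4163) (.e (nat_lit 286747) (nat_lit 9) (.e (nat_lit 336013) (nat_lit 2) (.e (nat_lit 90170) (nat_lit 13) (.e (nat_lit 172059) (nat_lit 1) (.e (nat_lit 164327) (nat_lit 230) (.e (nat_lit 163868) (nat_lit 2) (.e (nat_lit 196691) (nat_lit 18) (.e (nat_lit 1358) (nat_lit 102) .nil)))))))) (.g (nat_lit 5) .nil .nil)))))) 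
(.nd (nat_lit 4) (.nd (nat_lit 5) (.nd (nat_lit 6) 
(.lf (nat_lit 285582) (.g (nat_lit 1719) (.e (nat_lit 286743) (nat_lit 9) (.e (nat_lit 336316) (nat_lit 17) (.e (nat_lit 204544) (nat_lit 6) (.e (nat_lit 188461) (nat_lit 26) (.e (nat_lit 254003) (nat_lit 14) (.e (nat_lit 7936) (nat_lit 102) .nil)))))) (.g (nat_lit 5) .nil .nil))) 
(.lf (nat_lit 285646) (.g (nat_lit 2046) (.e (nat_lit 286743) (nat_lit 9) (.e (nat_lit 336446) (nat_lit 33) (.e (nat_lit 483072) (nat_lit 5) (.e (nat_lit 180252) (nat_lit 10) (.e (nat_lit 573503) (nat_lit 18) (.e (nat_lit 1347) (nat_lit 102) .nil)))))) (.g (nat_lit 5) .nil .nil)))) (.nd (nat_lit 6) 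
(.lf (nat_lit 285614) (.g (nat_lit 1788) (.e (nat_lit 286743) (nat_lit 9) (.e (nat_lit 336432) (nat_lit 30) (.e (nat_lit 450569) (nat_lit 0) (.e (nat_lit 5599) (nat_lit 310) (.e (nat_lit 163896) (nat_lit 10) (.e (nat_lit 417536) (nat_lit 6) .nil)))))) (.g (nat_lit 5) .nil .nil))) 
(.lf (nat_lit 285678) (.g (nat_lit 2175) (.e (nat_lit 286747) (nat_lit 9) (.e (nat_lit 336013) (nat_lit 2) (.e (nat_lit 90165) (nat_lit 12) (.e (nat_lit 164214) (nat_lit 176) .nil)))) .nil)))) (.nd (nat_lit 5) (.nd (nat_lit 6) 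
(.lf (nat_lit 285598) (.g (nat_lit 987) (.e (nat_lit 286743) (nat_lit 9) (.e (nat_lit 336426) (nat_lit 29) (.e (nat_lit 442430) (nat_lit 24) (.e (nat_lit 229707) (nat_lit 256) .nil)))) .nil)) 
(.lf (nat_lit 285662) (.g (nat_lit 696) (.e (nat_lit 286747) (nat_lit 9) (.e (nat_lit 335997) (nat_lit 1) (.e (nat_lit 57660) (nat_lit 152) (.e (nat_lit 1215) (nat_lit 90) .nil)))) .nil))) (.nd (nat_lit 6) 
(.lf (nat_lit 285630) (.g (nat_lit 164) (.e (nat_lit 286743) (nat_lit 9) (.e (nat_lit 336434) (nat_lit 30) (.e (nat_lit 450568) (nat_lit 0) .nil))) .nil)) 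
(.lf (nat_lit 285694) (.g (nat_lit 2091) (.e (nat_lit 286747) (nat_lit 9) (.e (nat_lit 336013) (nat_lit 2) (.e (nat_lit 90174) (nat_lit 14) (.e (nat_lit 180228) (nat_lit 0) .nil)))) .nil)))))))) (.nd (nat_lit 1) (.nd (nat_lit 2) (.nd (nat_lit 3) (.nd (nat_lit 4) (.nd (nat_lit 5) (.nd (nat_lit 6) 
(.lf (nat_lit 285569) (.g (nat_lit 766) (.e (nat_lit 286742) (nat_lit 9) (.e (nat_lit 336028) (nat_lit 3) (.e (nat_lit 98389) (nat_lit 33) .nil))) .nil)) 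
(.lf (nat_lit 285633) (.g (nat_lit 2456) (.e (nat_lit 286743) (nat_lit 9) (.e (nat_lit 336443) (nat_lit 32) (.e (nat_lit 466969) (nat_lit 21) (.e (nat_lit 164403) (nat_lit 256) (.e (nat_lit 57400) (nat_lit 10) .nil))))) .nil))) (.nd (nat_lit 6) 
(.lf (nat_lit 285601) (.g (nat_lit 2630) (.e (nat_lit 286743) (nat_lit 9) (.e (nat_lit 336427) (nat_lit 29) (.e (nat_lit 442430) (nat_lit 24) (.e (nat_lit 229678) (nat_lit 244) (.e (nat_lit 163896) (nat_lit 10) (.e (nat_lit 417536) (nat_lit 6) .nil)))))) (.g (nat_lit 5) .nil .nil))) 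
(.lf (nat_lit 285665) (.g (nat_lit 1971) (.e (nat_lit 286747) (nat_lit 9) (.e (nat_lit 335997) (nat_lit 1) (.e (nat_lit 57849) (nat_lit 252) (.e (nat_lit 57368) (nat_lit 1) (.e (nat_lit 57829) (nat_lit 250) .nil))))) .nil)))) (.nd (nat_lit 5) (.nd (nat_lit 6) 
(.lf (nat_lit 285585) (.g (nat_lit 1828) (.e (nat_lit 286743) (nat_lit 9) (.e (nat_lit 336316) (nat_lit 17) (.e (nat_lit 204544) (nat_lit 6) (.e (nat_lit 188461) (nat_lit 26) (.e (nat_lit 254010) (nat_lit 14) (.e (nat_lit 7936) (nat_lit 102) .nil)))))) (.g (nat_lit 5) .nil .nil))) 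
(.lf (nat_lit 285649) (.g (nat_lit 452) (.e (nat_lit 286746) (nat_lit 9) (.e (nat_lit 335886) (nat_lit 0) (.e (nat_lit 2270) (nat_lit 149) (.e (nat_lit 761868) (nat_lit 5) .nil)))) .nil))) (.nd (nat_lit 6) 
(.lf (nat_lit 285617) (.g (nat_lit 1997) (.e (nat_lit 286743) (nat_lit 9) (.e (nat_lit 336432) (nat_lit 30) (.e (nat_lit 450569) (nat_lit 0) (.e (nat_lit 5949) (nat_lit 322) (.e (nat_lit 57350) (nat_lit 0) (.e (nat_lit 6113) (nat_lit 332) (.e (nat_lit 1361) (nat_lit 102) .nil))))))) (.g (nat_lit 0) .nil .nil))) 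
(.lf (nat_lit 285681) (.g (nat_lit 3532) (.e (nat_lit 286747) (nat_lit 9) (.e (nat_lit 336013) (nat_lit 2) (.e (nat_lit 90170) (nat_lit 13) (.e (nat_lit 172042) (nat_lit 0) .nil)))) .nil))))) (.nd (nat_lit 4) (.nd (nat_lit 5) (.nd (nat_lit 6) 
(.lf (nat_lit 285577) (.g (nat_lit 1451) (.e (nat_lit 286743) (nat_lit 9) (.e (nat_lit 336316) (nat_lit 17) (.e (nat_lit 204544) (nat_lit 6) (.e (nat_lit 188459) (nat_lit 26) (.e (nat_lit 254004) (nat_lit 14) (.e (nat_lit 7936) (nat_lit 102) .nil)))))) (.g (nat_lit 4) .nil .nil))) 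
(.lf (nat_lit 285641) (.g (nat_lit 1502) (.e (nat_lit 286743) (nat_lit 9) (.e (nat_lit 336444) (nat_lit 32) (.e (nat_lit 466969) (nat_lit 21) (.e (nat_lit 164403) (nat_lit 256) (.e (nat_lit 57400) (nat_lit 10) .nil))))) .nil))) (.nd (nat_lit 6) 
(.lf (nat_lit 285609) (.g (nat_lit 983) (.e (nat_lit 286743) (nat_lit 9) (.e (nat_lit 336430) (nat_lit 29) (.e (nat_lit 442430) (nat_lit 24) (.e (nat_lit 229681) (nat_lit 244) .nil)))) .nil)) 
(.lf (nat_lit 285673) (.g (nat_lit 1297) (.e (nat_lit 286747) (nat_lit 9) (.e (nat_lit 336013) (nat_lit 2) (.e (nat_lit 90154) (nat_lit 10) .nil))) .nil)))) (.nd (nat_lit 5) (.nd (nat_lit 6) 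
(.lf (nat_lit 285593) (.g (nat_lit 1900) (.e (nat_lit 286743) (nat_lit 9) (.e (nat_lit 336369) (nat_lit 27) (.e (nat_lit 426173) (nat_lit 7) (.e (nat_lit 409649) (nat_lit 18) (.e (nat_lit 311040) (nat_lit 25) (.e (nat_lit 327424) (nat_lit 16) .nil)))))) (.g (nat_lit 4) .nil .nil))) 
(.lf (nat_lit 285657) (.g (nat_lit 1276) (.e (nat_lit 286746) (nat_lit 9) (.e (nat_lit 335907) (nat_lit 0) (.e (nat_lit 2336) (nat_lit 151) (.e (nat_lit 778334) (nat_lit 9) (.e (nat_lit 311) (nat_lit 23) (.e (nat_lit 352271) (nat_lit 9) (.e (nat_lit 417536) (nat_lit 6) .nil))))))) (.g (nat_lit 5) .nil .nil)))) (.nd (nat_lit 6) 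
(.lf (nat_lit 285625) (.g (nat_lit 1515) (.e (nat_lit 286743) (nat_lit 9) (.e (nat_lit 336433) (nat_lit 30) (.e (nat_lit 450568) (nat_lit 0) (.e (nat_lit 5599) (nat_lit 310) (.e (nat_lit 163846) (nat_lit 0) (.e (nat_lit 6989) (nat_lit 377) (.e (nat_lit 1361) (nat_lit 102) .nil))))))) (.g (nat_lit 6) .nil .nil))) 
(.lf (nat_lit 285689) (.g (nat_lit 3139) (.e (nat_lit 286747) (nat_lit 9) (.e (nat_lit 336013) (nat_lit 2) (.e (nat_lit 90170) (nat_lit 13) (.e (nat_lit 172061) (nat_lit 1) .nil)))) .nil)))))) (.nd (nat_lit 3) (.nd (nat_lit 4) (.nd (nat_lit 5) (.nd (nat_lit 6) 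
(.lf (nat_lit 285573) (.g (nat_lit 538) (.e (nat_lit 286742) (nat_lit 9) (.e (nat_lit 336430) (nat_lit 29) (.e (nat_lit 442409) (nat_lit 20) .nil))) .nil)) 
(.lf (nat_lit 285637) (.g (nat_lit 2418) (.e (nat_lit 286743) (nat_lit 9) (.e (nat_lit 336443) (nat_lit 32) (.e (nat_lit 466972) (nat_lit 21) (.e (nat_lit 164402) (nat_lit 256) (.e (nat_lit 57400) (nat_lit 10) (.e (nat_lit 327424) (nat_lit 16) .nil)))))) (.g (nat_lit 4) .nil .nil)))) (.nd (nat_lit 6) 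
(.lf (nat_lit 285605) (.g (nat_lit 540) (.e (nat_lit 286743) (nat_lit 9) (.e (nat_lit 336430) (nat_lit 29) (.e (nat_lit 442421) (nat_lit 21) .nil))) .nil)) 
(.lf (nat_lit 285669) (.g (nat_lit 2517) (.e (nat_lit 286747) (nat_lit 9) (.e (nat_lit 336013) (nat_lit 2) (.e (nat_lit 90134) (nat_lit 9) (.e (nat_lit 2978) (nat_lit 185) .nil)))) .nil)))) (.nd (nat_lit 5) (.nd (nat_lit 6) 
(.lf (nat_lit 285589) (.g (nat_lit 1833) (.e (nat_lit 286743) (nat_lit 9) (.e (nat_lit 336365) (nat_lit 26) (.e (nat_lit 417810) (nat_lit 6) (.e (nat_lit 286759) (nat_lit 12) (.e (nat_lit 392960) (nat_lit 16) .nil))))) .nil)) 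
(.lf (nat_lit 285653) (.g (nat_lit 610) (.e (nat_lit 286746) (nat_lit 9) (.e (nat_lit 335907) (nat_lit 0) (.e (nat_lit 2298) (nat_lit 151) (.e (nat_lit 778337) (nat_lit 9) .nil)))) .nil))) (.nd (nat_lit 6) 
(.lf (nat_lit 285621) (.g (nat_lit 1299) (.e (nat_lit 286743) (nat_lit 9) (.e (nat_lit 336433) (nat_lit 30) (.e (nat_lit 450562) (nat_lit 0) (.e (nat_lit 5945) (nat_lit 322) (.e (nat_lit 57350) (nat_lit 0) .nil))))) .nil)) 
(.lf (nat_lit 285685) (.g (nat_lit 5840) (.e (nat_lit 286747) (nat_lit 9) (.e (nat_lit 336013) (nat_lit 2) (.e (nat_lit 90170) (nat_lit 13) (.e (nat_lit 172059) (nat_lit 1) (.e (nat_lit 164327) (nat_lit 230) (.e (nat_lit 163868) (nat_lit 2) (.e (nat_lit 196691) (nat_lit 18) (.e (nat_lit 1349) (nat_lit 102) .nil)))))))) (.g (nat_lit 6) .nil .nil)))))) 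
(.nd (nat_lit 4) (.nd (nat_lit 5) (.nd (nat_lit 6) 
(.lf (nat_lit 285581) (.g (nat_lit 1543) (.e (nat_lit 286743) (nat_lit 9) (.e (nat_lit 336316) (nat_lit 17) (.e (nat_lit 204544) (nat_lit 6) (.e (nat_lit 188459) (nat_lit 26) (.e (nat_lit 254010) (nat_lit 14) (.e (nat_lit 7936) (nat_lit 102) .nil)))))) (.g (nat_lit 5) .nil .nil))) 
(.lf (nat_lit 285645) (.g (nat_lit 1846) (.e (nat_lit 286743) (nat_lit 9) (.e (nat_lit 336444) (nat_lit 32) (.e (nat_lit 466972) (nat_lit 21) (.e (nat_lit 164403) (nat_lit 256) (.e (nat_lit 57399) (nat_lit 10) .nil))))) .nil))) (.nd (nat_lit 6) 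
(.lf (nat_lit 285613) (.g (nat_lit 2201) (.e (nat_lit 286743) (nat_lit 9) (.e (nat_lit 336432) (nat_lit 30) (.e (nat_lit 450569) (nat_lit 0) (.e (nat_lit 5599) (nat_lit 310) (.e (nat_lit 163846) (nat_lit 0) (.e (nat_lit 6989) (nat_lit 377) (.e (nat_lit 1361) (nat_lit 102) .nil))))))) (.g (nat_lit 0) .nil .nil))) 
(.lf (nat_lit 285677) (.g (nat_lit 3499) (.e (nat_lit 286747) (nat_lit 9) (.e (nat_lit 336013) (nat_lit 2) (.e (nat_lit 90165) (nat_lit 12) (.e (nat_lit 164208) (nat_lit 176) (.e (nat_lit 2777) (nat_lit 178) (.e (nat_lit 286722) (nat_lit 0) (.e (nat_lit 1776) (nat_lit 118) (.e (nat_lit 507923) (nat_lit 6) .nil)))))))) (.g (nat_lit 5) .nil .nil))))) (.nd (nat_lit 5) (.nd (nat_lit 6) 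
(.lf (nat_lit 285597) (.g (nat_lit 2054) (.e (nat_lit 286743) (nat_lit 9) (.e (nat_lit 336426) (nat_lit 29) (.e (nat_lit 442430) (nat_lit 24) (.e (nat_lit 229681) (nat_lit 244) (.e (nat_lit 163896) (nat_lit 10) (.e (nat_lit 417536) (nat_lit 6) .nil)))))) (.g (nat_lit 5) .nil .nil))) 
(.lf (nat_lit 285661) (.g (nat_lit 1228) (.e (nat_lit 286747) (nat_lit 9) (.e (nat_lit 335997) (nat_lit 1) (.e (nat_lit 57654) (nat_lit 152) (.e (nat_lit 1217) (nat_lit 90) (.e (nat_lit 89856) (nat_lit 10) .nil))))) .nil))) (.nd (nat_lit 6) 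
(.lf (nat_lit 285629) (.g (nat_lit 1139) (.e (nat_lit 286743) (nat_lit 9) (.e (nat_lit 336433) (nat_lit 30) (.e (nat_lit 450597) (nat_lit 17) (.e (nat_lit 663555) (nat_lit 0) (.e (nat_lit 1399) (nat_lit 106) (.e (nat_lit 327424) (nat_lit 16) .nil)))))) (.g (nat_lit 5) .nil .nil))) 
(.lf (nat_lit 285693) (.g (nat_lit 1297) (.e (nat_lit 286747) (nat_lit 9) (.e (nat_lit 336013) (nat_lit 2) (.e (nat_lit 90173) (nat_lit 14) .nil))) .nil))))))) (.nd (nat_lit 2) (.nd (nat_lit 3) (.nd (nat_lit 4) (.nd (nat_lit 5) (.nd (nat_lit 6) 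
(.lf (nat_lit 285571) (.g (nat_lit 1472) (.e (nat_lit 286742) (nat_lit 9) (.e (nat_lit 336369) (nat_lit 27) (.e (nat_lit 426173) (nat_lit 7) (.e (nat_lit 409649) (nat_lit 18) (.e (nat_lit 311040) (nat_lit 25) .nil))))) .nil)) 
(.lf (nat_lit 285635) (.g (nat_lit 2362) (.e (nat_lit 286743) (nat_lit 9) (.e (nat_lit 336443) (nat_lit 32) (.e (nat_lit 466971) (nat_lit 21) (.e (nat_lit 164403) (nat_lit 256) (.e (nat_lit 57400) (nat_lit 10) .nil))))) .nil))) (.nd (nat_lit 6) 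
(.lf (nat_lit 285603) (.g (nat_lit 1608) (.e (nat_lit 286743) (nat_lit 9) (.e (nat_lit 336427) (nat_lit 29) (.e (nat_lit 442430) (nat_lit 24) (.e (nat_lit 229681) (nat_lit 244) (.e (nat_lit 163846) (nat_lit 0) (.e (nat_lit 6989) (nat_lit 377) (.e (nat_lit 1361) (nat_lit 102) .nil))))))) (.g (nat_lit 4) .nil .nil))) 
(.lf (nat_lit 285667) (.g (nat_lit 432) (.e (nat_lit 286747) (nat_lit 9) (.e (nat_lit 336013) (nat_lit 2) (.e (nat_lit 98048) (nat_lit 2) (.e (nat_lit 16429) (nat_lit 8) (.e (nat_lit 417806) (nat_lit 3) (.e (nat_lit 49204) (nat_lit 14) (.e (nat_lit 7936) (nat_lit 102) .nil))))))) (.g (nat_lit 4) .nil .nil))))) (.nd (nat_lit 5) (.nd (nat_lit 6) 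
(.lf (nat_lit 285587) (.g (nat_lit 2496) (.e (nat_lit 286743) (nat_lit 9) (.e (nat_lit 336337) (nat_lit 20) (.e (nat_lit 221218) (nat_lit 24) (.e (nat_lit 213030) (nat_lit 11) (.e (nat_lit 24584) (nat_lit 0) (.e (nat_lit 6113) (nat_lit 332) (.e (nat_lit 1361) (nat_lit 102) .nil))))))) (.g (nat_lit 7) .nil .nil))) 
(.lf (nat_lit 285651) (.g (nat_lit 379) (.e (nat_lit 286746) (nat_lit 9) (.e (nat_lit 335907) (nat_lit 0) (.e (nat_lit 1996) (nat_lit 137) .nil))) .nil))) (.nd (nat_lit 6) 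
(.lf (nat_lit 285619) (.g (nat_lit 1527) (.e (nat_lit 286743) (nat_lit 9) (.e (nat_lit 336432) (nat_lit 30) (.e (nat_lit 450593) (nat_lit 16) (.e (nat_lit 655364) (nat_lit 0) (.e (nat_lit 2828) (nat_lit 182) (.e (nat_lit 417536) (nat_lit 6) .nil)))))) (.g (nat_lit 4) .nil .nil))) 
(.lf (nat_lit 285683) (.g (nat_lit 3244) (.e (nat_lit 286747) (nat_lit 9) (.e (nat_lit 336013) (nat_lit 2) (.e (nat_lit 90170) (nat_lit 13) (.e (nat_lit 172049) (nat_lit 0) .nil)))) .nil))))) (.nd (nat_lit 4) (.nd (nat_lit 5) (.nd (nat_lit 6) 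
(.lf (nat_lit 285579) (.g (nat_lit 1219) (.e (nat_lit 286743) (nat_lit 9) (.e (nat_lit 336316) (nat_lit 17) (.e (nat_lit 204544) (nat_lit 6) (.e (nat_lit 188459) (nat_lit 26) (.e (nat_lit 254007) (nat_lit 14) (.e (nat_lit 7936) (nat_lit 102) .nil)))))) (.g (nat_lit 4) .nil .nil))) 
(.lf (nat_lit 285643) (.g (nat_lit 2105) (.e (nat_lit 286743) (nat_lit 9) (.e (nat_lit 336444) (nat_lit 32) (.e (nat_lit 466971) (nat_lit 21) (.e (nat_lit 164403) (nat_lit 256) (.e (nat_lit 57400) (nat_lit 10) (.e (nat_lit 327424) (nat_lit 16) .nil)))))) (.g (nat_lit 5) .nil .nil)))) (.nd (nat_lit 6) 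
(.lf (nat_lit 285611) (.g (nat_lit 1381) (.e (nat_lit 286743) (nat_lit 9) (.e (nat_lit 336432) (nat_lit 30) (.e (nat_lit 450568) (nat_lit 0) (.e (nat_lit 5599) (nat_lit 310) (.e (nat_lit 163896) (nat_lit 10) (.e (nat_lit 417536) (nat_lit 6) .nil)))))) (.g (nat_lit 4) .nil .nil))) 
(.lf (nat_lit 285675) (.g (nat_lit 1874) (.e (nat_lit 286747) (nat_lit 9) (.e (nat_lit 336013) (nat_lit 2) (.e (nat_lit 90165) (nat_lit 12) (.e (nat_lit 164207) (nat_lit 176) .nil)))) .nil)))) (.nd (nat_lit 5) (.nd (nat_lit 6) 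
(.lf (nat_lit 285595) (.g (nat_lit 2675) (.e (nat_lit 286743) (nat_lit 9) (.e (nat_lit 336426) (nat_lit 29) (.e (nat_lit 442430) (nat_lit 24) (.e (nat_lit 229678) (nat_lit 244) (.e (nat_lit 163896) (nat_lit 10) (.e (nat_lit 417536) (nat_lit 6) .nil)))))) (.g (nat_lit 5) .nil .nil))) 
(.lf (nat_lit 285659) (.g (nat_lit 617) (.e (nat_lit 286746) (nat_lit 9) (.e (nat_lit 336295) (nat_lit 15) (.e (nat_lit 3305) (nat_lit 202) .nil))) .nil))) (.nd (nat_lit 6) 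
(.lf (nat_lit 285627) (.g (nat_lit 1930) (.e (nat_lit 286743) (nat_lit 9) (.e (nat_lit 336433) (nat_lit 30) (.e (nat_lit 450593) (nat_lit 16) (.e (nat_lit 655364) (nat_lit 0) (.e (nat_lit 2828) (nat_lit 182) (.e (nat_lit 417536) (nat_lit 6) .nil)))))) (.g (nat_lit 5) .nil .nil))) 
(.lf (nat_lit 285691) (.g (nat_lit 3911) (.e (nat_lit 286747) (nat_lit 9) (.e (nat_lit 336013) (nat_lit 2) (.e (nat_lit 90170) (nat_lit 13) (.e (nat_lit 172061) (nat_lit 1) (.e (nat_lit 164327) (nat_lit 230) (.e (nat_lit 163868) (nat_lit 2) (.e (nat_lit 196691) (nat_lit 18) (.e (nat_lit 1358) (nat_lit 102) .nil)))))))) (.g (nat_lit 4) .nil .nil))))))) 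
(.nd (nat_lit 3) (.nd (nat_lit 4) (.nd (nat_lit 5) (.nd (nat_lit 6) 
(.lf (nat_lit 285575) (.g (nat_lit 752) (.e (nat_lit 286743) (nat_lit 9) (.e (nat_lit 336019) (nat_lit 3) (.e (nat_lit 98389) (nat_lit 33) .nil))) .nil)) 
(.lf (nat_lit 285639) (.g (nat_lit 2520) (.e (nat_lit 286743) (nat_lit 9) (.e (nat_lit 336443) (nat_lit 32) (.e (nat_lit 466972) (nat_lit 21) (.e (nat_lit 164403) (nat_lit 256) (.e (nat_lit 57399) (nat_lit 10) .nil))))) .nil))) (.nd (nat_lit 6) 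
(.lf (nat_lit 285607) (.g (nat_lit 1184) (.e (nat_lit 286743) (nat_lit 9) (.e (nat_lit 336430) (nat_lit 29) (.e (nat_lit 442428) (nat_lit 24) (.e (nat_lit 229681) (nat_lit 244) .nil)))) .nil)) 
(.lf (nat_lit 285671) (.g (nat_lit 1297) (.e (nat_lit 286747) (nat_lit 9) (.e (nat_lit 336013) (nat_lit 2) (.e (nat_lit 90140) (nat_lit 9) .nil))) .nil)))) (.nd (nat_lit 5) (.nd (nat_lit 6) 
(.lf (nat_lit 285591) (.g (nat_lit 1445) (.e (nat_lit 286743) (nat_lit 9) (.e (nat_lit 336369) (nat_lit 27) (.e (nat_lit 426173) (nat_lit 7) (.e (nat_lit 409649) (nat_lit 18) (.e (nat_lit 311040) (nat_lit 25) .nil))))) .nil)) 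
(.lf (nat_lit 285655) (.g (nat_lit 979) (.e (nat_lit 286746) (nat_lit 9) (.e (nat_lit 335907) (nat_lit 0) (.e (nat_lit 2298) (nat_lit 151) (.e (nat_lit 778340) (nat_lit 9) (.e (nat_lit 311) (nat_lit 23) (.e (nat_lit 352271) (nat_lit 9) (.e (nat_lit 417536) (nat_lit 6) .nil))))))) (.g (nat_lit 5) .nil .nil)))) (.nd (nat_lit 6) 
(.lf (nat_lit 285623) (.g (nat_lit 830) (.e (nat_lit 286743) (nat_lit 9) (.e (nat_lit 336433) (nat_lit 30) (.e (nat_lit 450563) (nat_lit 0) (.e (nat_lit 5934) (nat_lit 322) .nil)))) .nil)) 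
(.lf (nat_lit 285687) (.g (nat_lit 4368) (.e (nat_lit 286747) (nat_lit 9) (.e (nat_lit 336013) (nat_lit 2) (.e (nat_lit 90170) (nat_lit 13) (.e (nat_lit 172059) (nat_lit 1) (.e (nat_lit 164327) (nat_lit 230) (.e (nat_lit 163868) (nat_lit 2) (.e (nat_lit 196691) (nat_lit 18) (.e (nat_lit 1359) (nat_lit 102) .nil)))))))) (.g (nat_lit 5) .nil .nil)))))) 
(.nd (nat_lit 4) (.nd (nat_lit 5) (.nd (nat_lit 6) 
(.lf (nat_lit 285583) (.g (nat_lit 1723) (.e (nat_lit 286743) (nat_lit 9) (.e (nat_lit 336316) (nat_lit 17) (.e (nat_lit 204544) (nat_lit 6) (.e (nat_lit 188461) (nat_lit 26) (.e (nat_lit 254007) (nat_lit 14) (.e (nat_lit 7936) (nat_lit 102) .nil)))))) (.g (nat_lit 5) .nil .nil))) 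
(.lf (nat_lit 285647) (.g (nat_lit 402) (.e (nat_lit 286743) (nat_lit 9) (.e (nat_lit 336456) (nat_lit 34) (.e (nat_lit 491264) (nat_lit 3) .nil))) .nil))) (.nd (nat_lit 6) 
(.lf (nat_lit 285615) (.g (nat_lit 1881) (.e (nat_lit 286743) (nat_lit 9) (.e (nat_lit 336432) (nat_lit 30) (.e (nat_lit 450569) (nat_lit 0) (.e (nat_lit 5947) (nat_lit 322) (.e (nat_lit 57350) (nat_lit 0) (.e (nat_lit 6113) (nat_lit 332) (.e (nat_lit 1361) (nat_lit 102) .nil))))))) (.g (nat_lit 7) .nil .nil))) 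
(.lf (nat_lit 285679) (.g (nat_lit 1385) (.e (nat_lit 286747) (nat_lit 9) (.e (nat_lit 336013) (nat_lit 2) (.e (nat_lit 90165) (nat_lit 12) (.e (nat_lit 171776) (nat_lit 194) .nil)))) .nil)))) (.nd (nat_lit 5) (.nd (nat_lit 6) 
(.lf (nat_lit 285599) (.g (nat_lit 2108) (.e (nat_lit 286743) (nat_lit 9) (.e (nat_lit 336427) (nat_lit 29) (.e (nat_lit 442428) (nat_lit 24) (.e (nat_lit 229678) (nat_lit 244) (.e (nat_lit 163896) (nat_lit 10) (.e (nat_lit 417536) (nat_lit 6) .nil)))))) (.g (nat_lit 5) .nil .nil))) 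
(.lf (nat_lit 285663) (.g (nat_lit 2205) (.e (nat_lit 286747) (nat_lit 9) (.e (nat_lit 335997) (nat_lit 1) (.e (nat_lit 57681) (nat_lit 155) (.e (nat_lit 122914) (nat_lit 14) (.e (nat_lit 352272) (nat_lit 10) .nil))))) .nil))) (.nd (nat_lit 6) 
(.lf (nat_lit 285631) (.g (nat_lit 1614) (.e (nat_lit 286743) (nat_lit 9) (.e (nat_lit 336434) (nat_lit 30) (.e (nat_lit 450568) (nat_lit 0) (.e (nat_lit 5599) (nat_lit 310) (.e (nat_lit 163896) (nat_lit 10) (.e (nat_lit 417536) (nat_lit 6) .nil)))))) (.g (nat_lit 5) .nil .nil))) 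
(.lf (nat_lit 285695) (.g (nat_lit 2692) (.e (nat_lit 286747) (nat_lit 9) (.e (nat_lit 336013) (nat_lit 2) (.e (nat_lit 90185) (nat_lit 17) (.e (nat_lit 237582) (nat_lit 1) .nil)))) .nil)))))))))

noncomputable def tv3626 : DT := (.nd (nat_lit 0) (.nd (nat_lit 1) (.nd (nat_lit 2) (.nd (nat_lit 3) (.nd (nat_lit 4) (.nd (nat_lit 5) (.nd (nat_lit 6) 
(.lf (nat_lit 285696) (.g (nat_lit 2566) (.e (nat_lit 286747) (nat_lit 9) (.e (nat_lit 336013) (nat_lit 2) (.e (nat_lit 90185) (nat_lit 17) (.e (nat_lit 237584) (nat_lit 1) .nil)))) .nil)) 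
(.lf (nat_lit 285760) (.g (nat_lit 2447) (.e (nat_lit 286748) (nat_lit 9) (.e (nat_lit 336295) (nat_lit 15) (.e (nat_lit 3305) (nat_lit 202) (.e (nat_lit 573456) (nat_lit 9) (.e (nat_lit 1442) (nat_lit 108) .nil))))) .nil))) (.nd (nat_lit 6) 
(.lf (nat_lit 285728) (.g (nat_lit 1723) (.e (nat_lit 286748) (nat_lit 9) (.e (nat_lit 336020) (nat_lit 3) (.e (nat_lit 98367) (nat_lit 27) (.e (nat_lit 434275) (nat_lit 39) (.e (nat_lit 663584) (nat_lit 12) .nil))))) .nil)) 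
(.lf (nat_lit 285792) (.g (nat_lit 2640) (.e (nat_lit 286748) (nat_lit 9) (.e (nat_lit 336295) (nat_lit 15) (.e (nat_lit 3305) (nat_lit 202) (.e (nat_lit 573481) (nat_lit 13) (.e (nat_lit 65598) (nat_lit 9) (.e (nat_lit 336013) (nat_lit 2) (.e (nat_lit 98048) (nat_lit 18) (.e (nat_lit 1348) (nat_lit 102) .nil)))))))) (.g (nat_lit 4) .nil .nil))))) (.nd (nat_lit 5) (.nd (nat_lit 6) 
(.lf (nat_lit 285712) (.g (nat_lit 2011) (.e (nat_lit 286748) (nat_lit 9) (.e (nat_lit 335992) (nat_lit 1) (.e (nat_lit 57852) (nat_lit 252) (.e (nat_lit 57364) (nat_lit 1) (.e (nat_lit 57829) (nat_lit 250) .nil))))) .nil)) 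
(.lf (nat_lit 285776) (.g (nat_lit 2467) (.e (nat_lit 286748) (nat_lit 9) (.e (nat_lit 336295) (nat_lit 15) (.e (nat_lit 3305) (nat_lit 202) (.e (nat_lit 573456) (nat_lit 9) (.e (nat_lit 1559) (nat_lit 110) .nil))))) .nil))) (.nd (nat_lit 6) 
(.lf (nat_lit 285744) (.g (nat_lit 2912) (.e (nat_lit 286748) (nat_lit 9) (.e (nat_lit 336295) (nat_lit 15) (.e (nat_lit 3230) (nat_lit 197) (.e (nat_lit 532514) (nat_lit 3) (.e (nat_lit 114712) (nat_lit 21) (.e (nat_lit 57692) (nat_lit 156) (.e (nat_lit 163869) (nat_lit 2) (.e (nat_lit 196691) (nat_lit 18) (.e (nat_lit 1349) (nat_lit 102) .nil))))))))) (.g (nat_lit 6) .nil .nil))) 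
(.lf (nat_lit 285808) (.g (nat_lit 1785) (.e (nat_lit 286748) (nat_lit 9) (.e (nat_lit 336295) (nat_lit 15) (.e (nat_lit 3632) (nat_lit 227) (.e (nat_lit 778241) (nat_lit 0) (.e (nat_lit 1454) (nat_lit 108) .nil))))) .nil))))) (.nd (nat_lit 4) (.nd (nat_lit 5) (.nd (nat_lit 6) 
(.lf (nat_lit 285704) (.g (nat_lit 1796) (.e (nat_lit 286747) (nat_lit 9) (.e (nat_lit 336028) (nat_lit 3) (.e (nat_lit 98350) (nat_lit 24) (.e (nat_lit 409617) (nat_lit 10) .nil)))) .nil)) 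
(.lf (nat_lit 285768) (.g (nat_lit 3090) (.e (nat_lit 286748) (nat_lit 9) (.e (nat_lit 336295) (nat_lit 15) (.e (nat_lit 3305) (nat_lit 202) (.e (nat_lit 573456) (nat_lit 9) (.e (nat_lit 1449) (nat_lit 108) (.e (nat_lit 336099) (nat_lit 9) (.e (nat_lit 336013) (nat_lit 2) (.e (nat_lit 98048) (nat_lit 18) (.e (nat_lit 1348) (nat_lit 102) .nil))))))))) (.g (nat_lit 6) .nil .nil)))) (.nd (nat_lit 6) 
(.lf (nat_lit 285736) (.g (nat_lit 2522) (.e (nat_lit 286748) (nat_lit 9) (.e (nat_lit 336028) (nat_lit 3) (.e (nat_lit 98367) (nat_lit 27) (.e (nat_lit 434276) (nat_lit 39) (.e (nat_lit 663584) (nat_lit 12) .nil))))) .nil)) 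
(.lf (nat_lit 285800) (.g (nat_lit 1288) (.e (nat_lit 286748) (nat_lit 9) (.e (nat_lit 336295) (nat_lit 15) (.e (nat_lit 3305) (nat_lit 202) (.e (nat_lit 573491) (nat_lit 15) .nil)))) .nil)))) (.nd (nat_lit 5) (.nd (nat_lit 6) 
(.lf (nat_lit 285720) (.g (nat_lit 1589) (.e (nat_lit 286748) (nat_lit 9) (.e (nat_lit 336001) (nat_lit 2) (.e (nat_lit 90172) (nat_lit 14) (.e (nat_lit 180229) (nat_lit 0) (.e (nat_lit 5223) (nat_lit 296) .nil))))) .nil)) 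
(.lf (nat_lit 285784) (.g (nat_lit 2447) (.e (nat_lit 286748) (nat_lit 9) (.e (nat_lit 336295) (nat_lit 15) (.e (nat_lit 3305) (nat_lit 202) (.e (nat_lit 573456) (nat_lit 9) (.e (nat_lit 1569) (nat_lit 110) .nil))))) .nil))) (.nd (nat_lit 6) 
(.lf (nat_lit 285752) (.g (nat_lit 1807) (.e (nat_lit 286748) (nat_lit 9) (.e (nat_lit 336295) (nat_lit 15) (.e (nat_lit 3305) (nat_lit 202) (.e (nat_lit 573452) (nat_lit 9) .nil)))) .nil)) 
(.lf (nat_lit 285816) (.g (nat_lit 1894) (.e (nat_lit 286748) (nat_lit 9) (.e (nat_lit 336295) (nat_lit 15) (.e (nat_lit 3632) (nat_lit 227) (.e (nat_lit 778317) (nat_lit 3) (.e (nat_lit 57354) (nat_lit 0) .nil))))) .nil)))))) (.nd (nat_lit 3) (.nd (nat_lit 4) (.nd (nat_lit 5) (.nd (nat_lit 6) 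
(.lf (nat_lit 285700) (.g (nat_lit 1297) (.e (nat_lit 286747) (nat_lit 9) (.e (nat_lit 336013) (nat_lit 2) (.e (nat_lit 90192) (nat_lit 18) .nil))) .nil)) 
(.lf (nat_lit 285764) (.g (nat_lit 2615) (.e (nat_lit 286748) (nat_lit 9) (.e (nat_lit 336295) (nat_lit 15) (.e (nat_lit 3305) (nat_lit 202) (.e (nat_lit 573456) (nat_lit 9) (.e (nat_lit 1444) (nat_lit 108) (.e (nat_lit 336099) (nat_lit 9) (.e (nat_lit 336013) (nat_lit 2) (.e (nat_lit 98048) (nat_lit 18) (.e (nat_lit 1348) (nat_lit 102) .nil))))))))) (.g (nat_lit 4) .nil .nil)))) (.nd (nat_lit 6) 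
(.lf (nat_lit 285732) (.g (nat_lit 2068) (.e (nat_lit 286748) (nat_lit 9) (.e (nat_lit 336028) (nat_lit 3) (.e (nat_lit 98366) (nat_lit 27) (.e (nat_lit 434276) (nat_lit 39) (.e (nat_lit 663584) (nat_lit 12) .nil))))) .nil)) 
(.lf (nat_lit 285796) (.g (nat_lit 3589) (.e (nat_lit 286748) (nat_lit 9) (.e (nat_lit 336295) (nat_lit 15) (.e (nat_lit 3305) (nat_lit 202) (.e (nat_lit 573484) (nat_lit 13) (.e (nat_lit 65598) (nat_lit 9) (.e (nat_lit 336013) (nat_lit 2) (.e (nat_lit 98048) (nat_lit 18) (.e (nat_lit 1349) (nat_lit 102) .nil)))))))) (.g (nat_lit 6) .nil .nil))))) (.nd (nat_lit 5) (.nd (nat_lit 6) 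
(.lf (nat_lit 285716) (.g (nat_lit 1715) (.e (nat_lit 286748) (nat_lit 9) (.e (nat_lit 335997) (nat_lit 1) (.e (nat_lit 57853) (nat_lit 252) (.e (nat_lit 57364) (nat_lit 1) (.e (nat_lit 57851) (nat_lit 252) .nil))))) .nil)) 
(.lf (nat_lit 285780) (.g (nat_lit 2752) (.e (nat_lit 286748) (nat_lit 9) (.e (nat_lit 336295) (nat_lit 15) (.e (nat_lit 3305) (nat_lit 202) (.e (nat_lit 573456) (nat_lit 9) (.e (nat_lit 1563) (nat_lit 110) (.e (nat_lit 352312) (nat_lit 22) (.e (nat_lit 98048) (nat_lit 18) (.e (nat_lit 1349) (nat_lit 102) .nil)))))))) (.g (nat_lit 4) .nil .nil)))) (.nd (nat_lit 6) 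
(.lf (nat_lit 285748) (.g (nat_lit 3834) (.e (nat_lit 286748) (nat_lit 9) (.e (nat_lit 336295) (nat_lit 15) (.e (nat_lit 3304) (nat_lit 202) (.e (nat_lit 573493) (nat_lit 15) (.e (nat_lit 81953) (nat_lit 22) (.e (nat_lit 98048) (nat_lit 18) (.e (nat_lit 1349) (nat_lit 102) .nil))))))) (.g (nat_lit 5) .nil .nil))) 
(.lf (nat_lit 285812) (.g (nat_lit 1765) (.e (nat_lit 286748) (nat_lit 9) (.e (nat_lit 336295) (nat_lit 15) (.e (nat_lit 3632) (nat_lit 227) (.e (nat_lit 778290) (nat_lit 0) .nil)))) .nil))))) (.nd (nat_lit 4) (.nd (nat_lit 5) (.nd (nat_lit 6) 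
(.lf (nat_lit 285708) (.g (nat_lit 2946) (.e (nat_lit 286747) (nat_lit 9) (.e (nat_lit 336028) (nat_lit 3) (.e (nat_lit 98388) (nat_lit 33) (.e (nat_lit 491560) (nat_lit 10) (.e (nat_lit 344115) (nat_lit 20) (.e (nat_lit 507923) (nat_lit 6) .nil)))))) (.g (nat_lit 4) .nil .nil))) 
(.lf (nat_lit 285772) (.g (nat_lit 3206) (.e (nat_lit 286748) (nat_lit 9) (.e (nat_lit 336295) (nat_lit 15) (.e (nat_lit 3305) (nat_lit 202) (.e (nat_lit 573456) (nat_lit 9) (.e (nat_lit 1455) (nat_lit 108) (.e (nat_lit 336099) (nat_lit 9) (.e (nat_lit 336013) (nat_lit 2) (.e (nat_lit 98048) (nat_lit 18) (.e (nat_lit 1348) (nat_lit 102) .nil))))))))) (.g (nat_lit 6) .nil .nil)))) (.nd (nat_lit 6) 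
(.lf (nat_lit 285740) (.g (nat_lit 1696) (.e (nat_lit 286748) (nat_lit 9) (.e (nat_lit 336048) (nat_lit 6) (.e (nat_lit 147496) (nat_lit 11) (.e (nat_lit 24648) (nat_lit 12) (.e (nat_lit 392960) (nat_lit 16) .nil))))) .nil)) 
(.lf (nat_lit 285804) (.g (nat_lit 2421) (.e (nat_lit 286748) (nat_lit 9) (.e (nat_lit 336295) (nat_lit 15) (.e (nat_lit 3305) (nat_lit 202) (.e (nat_lit 573493) (nat_lit 15) (.e (nat_lit 81962) (nat_lit 25) .nil))))) .nil)))) (.nd (nat_lit 5) (.nd (nat_lit 6) 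
(.lf (nat_lit 285724) (.g (nat_lit 2986) (.e (nat_lit 286748) (nat_lit 9) (.e (nat_lit 336013) (nat_lit 2) (.e (nat_lit 90170) (nat_lit 13) (.e (nat_lit 172059) (nat_lit 1) .nil)))) .nil)) 
(.lf (nat_lit 285788) (.g (nat_lit 1724) (.e (nat_lit 286748) (nat_lit 9) (.e (nat_lit 336295) (nat_lit 15) (.e (nat_lit 3305) (nat_lit 202) (.e (nat_lit 573457) (nat_lit 9) .nil)))) .nil))) (.nd (nat_lit 6) 
(.lf (nat_lit 285756) (.g (nat_lit 2347) (.e (nat_lit 286748) (nat_lit 9) (.e (nat_lit 336295) (nat_lit 15) (.e (nat_lit 3305) (nat_lit 202) (.e (nat_lit 573452) (nat_lit 9) (.e (nat_lit 1572) (nat_lit 110) .nil))))) .nil)) 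
(.lf (nat_lit 285820) (.g (nat_lit 2226) (.e (nat_lit 286748) (nat_lit 9) (.e (nat_lit 336295) (nat_lit 15) (.e (nat_lit 3632) (nat_lit 227) (.e (nat_lit 778318) (nat_lit 3) (.e (nat_lit 57354) (nat_lit 0) .nil))))) .nil))))))) (.nd (nat_lit 2) (.nd (nat_lit 3) (.nd (nat_lit 4) (.nd (nat_lit 5) (.nd (nat_lit 6) 
(.lf (nat_lit 285698) (.g (nat_lit 771) (.e (nat_lit 286747) (nat_lit 9) (.e (nat_lit 336013) (nat_lit 2) (.e (nat_lit 90187) (nat_lit 18) .nil))) .nil)) 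
(.lf (nat_lit 285762) (.g (nat_lit 3143) (.e (nat_lit 286748) (nat_lit 9) (.e (nat_lit 336295) (nat_lit 15) (.e (nat_lit 3305) (nat_lit 202) (.e (nat_lit 573456) (nat_lit 9) (.e (nat_lit 1443) (nat_lit 108) (.e (nat_lit 336099) (nat_lit 9) (.e (nat_lit 336013) (nat_lit 2) (.e (nat_lit 98048) (nat_lit 18) (.e (nat_lit 1348) (nat_lit 102) .nil))))))))) (.g (nat_lit 5) .nil .nil)))) (.nd (nat_lit 6) 
(.lf (nat_lit 285730) (.g (nat_lit 1793) (.e (nat_lit 286748) (nat_lit 9) (.e (nat_lit 336024) (nat_lit 3) (.e (nat_lit 98367) (nat_lit 27) (.e (nat_lit 434209) (nat_lit 18) (.e (nat_lit 5224) (nat_lit 296) .nil))))) .nil)) 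
(.lf (nat_lit 285794) (.g (nat_lit 1724) (.e (nat_lit 286748) (nat_lit 9) (.e (nat_lit 336295) (nat_lit 15) (.e (nat_lit 3305) (nat_lit 202) (.e (nat_lit 573483) (nat_lit 13) .nil)))) .nil)))) (.nd (nat_lit 5) (.nd (nat_lit 6) 
(.lf (nat_lit 285714) (.g (nat_lit 1838) (.e (nat_lit 286748) (nat_lit 9) (.e (nat_lit 335997) (nat_lit 1) (.e (nat_lit 57849) (nat_lit 252) (.e (nat_lit 57368) (nat_lit 1) (.e (nat_lit 57853) (nat_lit 252) .nil))))) .nil)) 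
(.lf (nat_lit 285778) (.g (nat_lit 2468) (.e (nat_lit 286748) (nat_lit 9) (.e (nat_lit 336295) (nat_lit 15) (.e (nat_lit 3305) (nat_lit 202) (.e (nat_lit 573456) (nat_lit 9) (.e (nat_lit 1563) (nat_lit 110) .nil))))) .nil))) (.nd (nat_lit 6) 
(.lf (nat_lit 285746) (.g (nat_lit 4680) (.e (nat_lit 286748) (nat_lit 9) (.e (nat_lit 336295) (nat_lit 15) (.e (nat_lit 3295) (nat_lit 202) (.e (nat_lit 573492) (nat_lit 15) (.e (nat_lit 81953) (nat_lit 22) (.e (nat_lit 98048) (nat_lit 18) (.e (nat_lit 1349) (nat_lit 102) .nil))))))) (.g (nat_lit 5) .nil .nil))) 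
(.lf (nat_lit 285810) (.g (nat_lit 1930) (.e (nat_lit 286748) (nat_lit 9) (.e (nat_lit 336295) (nat_lit 15) (.e (nat_lit 3632) (nat_lit 227) (.e (nat_lit 778246) (nat_lit 0) (.e (nat_lit 1183) (nat_lit 87) .nil))))) .nil))))) (.nd (nat_lit 4) (.nd (nat_lit 5) (.nd (nat_lit 6) 
(.lf (nat_lit 285706) (.g (nat_lit 2121) (.e (nat_lit 286747) (nat_lit 9) (.e (nat_lit 336028) (nat_lit 3) (.e (nat_lit 98366) (nat_lit 27) (.e (nat_lit 434275) (nat_lit 39) (.e (nat_lit 663584) (nat_lit 12) .nil))))) .nil)) 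
(.lf (nat_lit 285770) (.g (nat_lit 2447) (.e (nat_lit 286748) (nat_lit 9) (.e (nat_lit 336295) (nat_lit 15) (.e (nat_lit 3305) (nat_lit 202) (.e (nat_lit 573456) (nat_lit 9) (.e (nat_lit 1453) (nat_lit 108) .nil))))) .nil))) (.nd (nat_lit 6) 
(.lf (nat_lit 285738) (.g (nat_lit 1491) (.e (nat_lit 286748) (nat_lit 9) (.e (nat_lit 336046) (nat_lit 6) (.e (nat_lit 147496) (nat_lit 11) (.e (nat_lit 24648) (nat_lit 12) (.e (nat_lit 392960) (nat_lit 16) .nil))))) .nil)) 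
(.lf (nat_lit 285802) (.g (nat_lit 1561) (.e (nat_lit 286748) (nat_lit 9) (.e (nat_lit 336295) (nat_lit 15) (.e (nat_lit 3305) (nat_lit 202) (.e (nat_lit 573492) (nat_lit 15) .nil)))) .nil)))) (.nd (nat_lit 5) (.nd (nat_lit 6) 
(.lf (nat_lit 285722) (.g (nat_lit 809) (.e (nat_lit 286748) (nat_lit 9) (.e (nat_lit 336013) (nat_lit 2) (.e (nat_lit 90165) (nat_lit 12) .nil))) .nil)) 
(.lf (nat_lit 285786) (.g (nat_lit 2454) (.e (nat_lit 286748) (nat_lit 9) (.e (nat_lit 336295) (nat_lit 15) (.e (nat_lit 3305) (nat_lit 202) (.e (nat_lit 573456) (nat_lit 9) (.e (nat_lit 1573) (nat_lit 110) .nil))))) .nil))) (.nd (nat_lit 6) 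
(.lf (nat_lit 285754) (.g (nat_lit 2348) (.e (nat_lit 286748) (nat_lit 9) (.e (nat_lit 336295) (nat_lit 15) (.e (nat_lit 3305) (nat_lit 202) (.e (nat_lit 573452) (nat_lit 9) (.e (nat_lit 1567) (nat_lit 110) .nil))))) .nil)) 
(.lf (nat_lit 285818) (.g (nat_lit 2243) (.e (nat_lit 286748) (nat_lit 9) (.e (nat_lit 336295) (nat_lit 15) (.e (nat_lit 3632) (nat_lit 227) (.e (nat_lit 778317) (nat_lit 3) (.e (nat_lit 57521) (nat_lit 44) (.e (nat_lit 688176) (nat_lit 16) (.e (nat_lit 65586) (nat_lit 7) (.e (nat_lit 319531) (nat_lit 16) .nil)))))))) (.g (nat_lit 4) .nil .nil))))))) 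
(.nd (nat_lit 3) (.nd (nat_lit 4) (.nd (nat_lit 5) (.nd (nat_lit 6) 
(.lf (nat_lit 285702) (.g (nat_lit 1297) (.e (nat_lit 286747) (nat_lit 9) (.e (nat_lit 336013) (nat_lit 2) (.e (nat_lit 90198) (nat_lit 18) .nil))) .nil)) 
(.lf (nat_lit 285766) (.g (nat_lit 2554) (.e (nat_lit 286748) (nat_lit 9) (.e (nat_lit 336295) (nat_lit 15) (.e (nat_lit 3305) (nat_lit 202) (.e (nat_lit 573456) (nat_lit 9) (.e (nat_lit 1446) (nat_lit 108) (.e (nat_lit 336099) (nat_lit 9) (.e (nat_lit 336013) (nat_lit 2) (.e (nat_lit 98048) (nat_lit 18) (.e (nat_lit 1348) (nat_lit 102) .nil))))))))) (.g (nat_lit 4) .nil .nil)))) (.nd (nat_lit 6) 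
(.lf (nat_lit 285734) (.g (nat_lit 2673) (.e (nat_lit 286748) (nat_lit 9) (.e (nat_lit 336028) (nat_lit 3) (.e (nat_lit 98367) (nat_lit 27) (.e (nat_lit 434275) (nat_lit 39) (.e (nat_lit 663585) (nat_lit 12) .nil))))) .nil)) 
(.lf (nat_lit 285798) (.g (nat_lit 2816) (.e (nat_lit 286748) (nat_lit 9) (.e (nat_lit 336295) (nat_lit 15) (.e (nat_lit 3305) (nat_lit 202) (.e (nat_lit 573489) (nat_lit 14) (.e (nat_lit 73731) (nat_lit 0) .nil))))) .nil)))) (.nd (nat_lit 5) (.nd (nat_lit 6) 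
(.lf (nat_lit 285718) (.g (nat_lit 2244) (.e (nat_lit 286748) (nat_lit 9) (.e (nat_lit 335997) (nat_lit 1) (.e (nat_lit 57873) (nat_lit 264) (.e (nat_lit 1181) (nat_lit 87) (.e (nat_lit 57520) (nat_lit 44) .nil))))) .nil)) 
(.lf (nat_lit 285782) (.g (nat_lit 2467) (.e (nat_lit 286748) (nat_lit 9) (.e (nat_lit 336295) (nat_lit 15) (.e (nat_lit 3305) (nat_lit 202) (.e (nat_lit 573456) (nat_lit 9) (.e (nat_lit 1566) (nat_lit 110) .nil))))) .nil))) (.nd (nat_lit 6) 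
(.lf (nat_lit 285750) (.g (nat_lit 2255) (.e (nat_lit 286748) (nat_lit 9) (.e (nat_lit 336295) (nat_lit 15) (.e (nat_lit 3305) (nat_lit 202) (.e (nat_lit 573451) (nat_lit 9) (.e (nat_lit 1595) (nat_lit 111) .nil))))) .nil)) 
(.lf (nat_lit 285814) (.g (nat_lit 1663) (.e (nat_lit 286748) (nat_lit 9) (.e (nat_lit 336295) (nat_lit 15) (.e (nat_lit 3632) (nat_lit 227) (.e (nat_lit 778297) (nat_lit 0) .nil)))) .nil))))) (.nd (nat_lit 4) (.nd (nat_lit 5) (.nd (nat_lit 6) 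
(.lf (nat_lit 285710) (.g (nat_lit 1092) (.e (nat_lit 286748) (nat_lit 9) (.e (nat_lit 335938) (nat_lit 0) (.e (nat_lit 2270) (nat_lit 149) (.e (nat_lit 761868) (nat_lit 5) (.e (nat_lit 1574) (nat_lit 110) (.e (nat_lit 352271) (nat_lit 9) (.e (nat_lit 417536) (nat_lit 6) .nil))))))) (.g (nat_lit 4) .nil .nil))) 
(.lf (nat_lit 285774) (.g (nat_lit 2563) (.e (nat_lit 286748) (nat_lit 9) (.e (nat_lit 336295) (nat_lit 15) (.e (nat_lit 3305) (nat_lit 202) (.e (nat_lit 573456) (nat_lit 9) (.e (nat_lit 1461) (nat_lit 108) (.e (nat_lit 336099) (nat_lit 9) (.e (nat_lit 336013) (nat_lit 2) (.e (nat_lit 98048) (nat_lit 18) (.e (nat_lit 1348) (nat_lit 102) .nil))))))))) (.g (nat_lit 4) .nil .nil)))) (.nd (nat_lit 6) 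
(.lf (nat_lit 285742) (.g (nat_lit 604) (.e (nat_lit 286748) (nat_lit 9) (.e (nat_lit 336295) (nat_lit 15) (.e (nat_lit 3216) (nat_lit 196) .nil))) .nil)) 
(.lf (nat_lit 285806) (.g (nat_lit 604) (.e (nat_lit 286748) (nat_lit 9) (.e (nat_lit 336295) (nat_lit 15) (.e (nat_lit 3343) (nat_lit 206) .nil))) .nil)))) (.nd (nat_lit 5) (.nd (nat_lit 6) 
(.lf (nat_lit 285726) (.g (nat_lit 3020) (.e (nat_lit 286748) (nat_lit 9) (.e (nat_lit 336013) (nat_lit 2) (.e (nat_lit 90170) (nat_lit 13) (.e (nat_lit 172061) (nat_lit 1) .nil)))) .nil)) 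
(.lf (nat_lit 285790) (.g (nat_lit 2137) (.e (nat_lit 286748) (nat_lit 9) (.e (nat_lit 336295) (nat_lit 15) (.e (nat_lit 3305) (nat_lit 202) (.e (nat_lit 573457) (nat_lit 9) (.e (nat_lit 1562) (nat_lit 110) .nil))))) .nil))) (.nd (nat_lit 6) 
(.lf (nat_lit 285758) (.g (nat_lit 2509) (.e (nat_lit 286748) (nat_lit 9) (.e (nat_lit 336295) (nat_lit 15) (.e (nat_lit 3305) (nat_lit 202) (.e (nat_lit 573456) (nat_lit 9) (.e (nat_lit 1413) (nat_lit 108) (.e (nat_lit 336099) (nat_lit 9) (.e (nat_lit 336013) (nat_lit 2) (.e (nat_lit 98048) (nat_lit 18) (.e (nat_lit 1349) (nat_lit 102) .nil))))))))) (.g (nat_lit 4) .nil .nil))) 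
(.lf (nat_lit 285822) (.g (nat_lit 2519) (.e (nat_lit 286748) (nat_lit 9) (.e (nat_lit 336295) (nat_lit 15) (.e (nat_lit 3632) (nat_lit 227) (.e (nat_lit 778318) (nat_lit 3) (.e (nat_lit 57354) (nat_lit 0) (.e (nat_lit 6298) (nat_lit 337) (.e (nat_lit 1196) (nat_lit 88) (.e (nat_lit 65583) (nat_lit 7) (.e (nat_lit 319530) (nat_lit 16) .nil))))))))) (.g (nat_lit 4) .nil .nil))))))))) 
(.nd (nat_lit 1) (.nd (nat_lit 2) (.nd (nat_lit 3) (.nd (nat_lit 4) (.nd (nat_lit 5) 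
(.nd (nat_lit 6) 
(.lf (nat_lit 285697) (.g (nat_lit 2539) (.e (nat_lit 286747) (nat_lit 9) (.e (nat_lit 336013) (nat_lit 2) (.e (nat_lit 90185) (nat_lit 17) (.e (nat_lit 237585) (nat_lit 1) .nil)))) .nil)) 
(.lf (nat_lit 285761) (.g (nat_lit 2521) (.e (nat_lit 286748) (nat_lit 9) (.e (nat_lit 336295) (nat_lit 15) (.e (nat_lit 3305) (nat_lit 202) (.e (nat_lit 573456) (nat_lit 9) (.e (nat_lit 1442) (nat_lit 108) (.e (nat_lit 336099) (nat_lit 9) (.e (nat_lit 336013) (nat_lit 2) (.e (nat_lit 98048) (nat_lit 18) (.e (nat_lit 1348) (nat_lit 102) .nil))))))))) (.g (nat_lit 4) .nil .nil)))) (.nd (nat_lit 6) 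
(.lf (nat_lit 285729) (.g (nat_lit 2984) (.e (nat_lit 286748) (nat_lit 9) (.e (nat_lit 336020) (nat_lit 3) (.e (nat_lit 98367) (nat_lit 27) (.e (nat_lit 434275) (nat_lit 39) (.e (nat_lit 663584) (nat_lit 12) (.e (nat_lit 163976) (nat_lit 30) (.e (nat_lit 573503) (nat_lit 18) (.e (nat_lit 1349) (nat_lit 102) .nil)))))))) (.g (nat_lit 5) .nil .nil))) 
(.lf (nat_lit 285793) (.g (nat_lit 1429) (.e (nat_lit 286748) (nat_lit 9) (.e (nat_lit 336295) (nat_lit 15) (.e (nat_lit 3305) (nat_lit 202) (.e (nat_lit 573482) (nat_lit 13) .nil)))) .nil)))) (.nd (nat_lit 5) (.nd (nat_lit 6) 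
(.lf (nat_lit 285713) (.g (nat_lit 1951) (.e (nat_lit 286748) (nat_lit 9) (.e (nat_lit 335997) (nat_lit 1) (.e (nat_lit 57847) (nat_lit 252) (.e (nat_lit 57366) (nat_lit 1) (.e (nat_lit 57830) (nat_lit 250) .nil))))) .nil)) 
(.lf (nat_lit 285777) (.g (nat_lit 2517) (.e (nat_lit 286748) (nat_lit 9) (.e (nat_lit 336295) (nat_lit 15) (.e (nat_lit 3305) (nat_lit 202) (.e (nat_lit 573456) (nat_lit 9) (.e (nat_lit 1562) (nat_lit 110) .nil))))) .nil))) (.nd (nat_lit 6) 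
(.lf (nat_lit 285745) (.g (nat_lit 3057) (.e (nat_lit 286748) (nat_lit 9) (.e (nat_lit 336295) (nat_lit 15) (.e (nat_lit 3253) (nat_lit 197) (.e (nat_lit 532515) (nat_lit 3) (.e (nat_lit 114711) (nat_lit 21) (.e (nat_lit 57688) (nat_lit 156) (.e (nat_lit 163867) (nat_lit 2) (.e (nat_lit 196691) (nat_lit 18) (.e (nat_lit 1349) (nat_lit 102) .nil))))))))) (.g (nat_lit 5) .nil .nil))) 
(.lf (nat_lit 285809) (.g (nat_lit 1928) (.e (nat_lit 286748) (nat_lit 9) (.e (nat_lit 336295) (nat_lit 15) (.e (nat_lit 3632) (nat_lit 227) (.e (nat_lit 778246) (nat_lit 0) (.e (nat_lit 1022) (nat_lit 81) .nil))))) .nil))))) (.nd (nat_lit 4) (.nd (nat_lit 5) (.nd (nat_lit 6) 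
(.lf (nat_lit 285705) (.g (nat_lit 1363) (.e (nat_lit 286747) (nat_lit 9) (.e (nat_lit 336028) (nat_lit 3) (.e (nat_lit 98366) (nat_lit 27) (.e (nat_lit 434209) (nat_lit 18) .nil)))) .nil)) 
(.lf (nat_lit 285769) (.g (nat_lit 2467) (.e (nat_lit 286748) (nat_lit 9) (.e (nat_lit 336295) (nat_lit 15) (.e (nat_lit 3305) (nat_lit 202) (.e (nat_lit 573456) (nat_lit 9) (.e (nat_lit 1452) (nat_lit 108) (.e (nat_lit 336099) (nat_lit 9) (.e (nat_lit 336013) (nat_lit 2) (.e (nat_lit 98048) (nat_lit 18) (.e (nat_lit 1349) (nat_lit 102) .nil))))))))) (.g (nat_lit 4) .nil .nil)))) (.nd (nat_lit 6) 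
(.lf (nat_lit 285737) (.g (nat_lit 1867) (.e (nat_lit 286748) (nat_lit 9) (.e (nat_lit 336028) (nat_lit 3) (.e (nat_lit 98367) (nat_lit 27) (.e (nat_lit 434278) (nat_lit 39) .nil)))) .nil)) 
(.lf (nat_lit 285801) (.g (nat_lit 2176) (.e (nat_lit 286748) (nat_lit 9) (.e (nat_lit 336295) (nat_lit 15) (.e (nat_lit 3305) (nat_lit 202) (.e (nat_lit 573491) (nat_lit 15) (.e (nat_lit 81947) (nat_lit 20) .nil))))) .nil)))) (.nd (nat_lit 5) (.nd (nat_lit 6) 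
(.lf (nat_lit 285721) (.g (nat_lit 1621) (.e (nat_lit 286748) (nat_lit 9) (.e (nat_lit 336008) (nat_lit 2) (.e (nat_lit 90174) (nat_lit 14) (.e (nat_lit 180228) (nat_lit 0) (.e (nat_lit 5224) (nat_lit 296) .nil))))) .nil)) 
(.lf (nat_lit 285785) (.g (nat_lit 2740) (.e (nat_lit 286748) (nat_lit 9) (.e (nat_lit 336295) (nat_lit 15) (.e (nat_lit 3305) (nat_lit 202) (.e (nat_lit 573456) (nat_lit 9) (.e (nat_lit 1572) (nat_lit 110) (.e (nat_lit 352312) (nat_lit 22) (.e (nat_lit 98048) (nat_lit 18) (.e (nat_lit 1349) (nat_lit 102) .nil)))))))) (.g (nat_lit 4) .nil .nil)))) (.nd (nat_lit 6) 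
(.lf (nat_lit 285753) (.g (nat_lit 2347) (.e (nat_lit 286748) (nat_lit 9) (.e (nat_lit 336295) (nat_lit 15) (.e (nat_lit 3305) (nat_lit 202) (.e (nat_lit 573452) (nat_lit 9) (.e (nat_lit 1553) (nat_lit 110) .nil))))) .nil)) 
(.lf (nat_lit 285817) (.g (nat_lit 2021) (.e (nat_lit 286748) (nat_lit 9) (.e (nat_lit 336295) (nat_lit 15) (.e (nat_lit 3632) (nat_lit 227) (.e (nat_lit 778317) (nat_lit 3) (.e (nat_lit 57521) (nat_lit 44) .nil))))) .nil)))))) (.nd (nat_lit 3) (.nd (nat_lit 4) (.nd (nat_lit 5) (.nd (nat_lit 6) 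
(.lf (nat_lit 285701) (.g (nat_lit 1272) (.e (nat_lit 286747) (nat_lit 9) (.e (nat_lit 336013) (nat_lit 2) (.e (nat_lit 90193) (nat_lit 18) .nil))) .nil)) 
(.lf (nat_lit 285765) (.g (nat_lit 2447) (.e (nat_lit 286748) (nat_lit 9) (.e (nat_lit 336295) (nat_lit 15) (.e (nat_lit 3305) (nat_lit 202) (.e (nat_lit 573456) (nat_lit 9) (.e (nat_lit 1446) (nat_lit 108) .nil))))) .nil))) (.nd (nat_lit 6) 
(.lf (nat_lit 285733) (.g (nat_lit 5407) (.e (nat_lit 286748) (nat_lit 9) (.e (nat_lit 336028) (nat_lit 3) (.e (nat_lit 98367) (nat_lit 27) (.e (nat_lit 434275) (nat_lit 39) (.e (nat_lit 663584) (nat_lit 12) (.e (nat_lit 163979) (nat_lit 30) (.e (nat_lit 573503) (nat_lit 18) (.e (nat_lit 1349) (nat_lit 102) .nil)))))))) (.g (nat_lit 7) .nil .nil))) 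
(.lf (nat_lit 285797) (.g (nat_lit 1726) (.e (nat_lit 286748) (nat_lit 9) (.e (nat_lit 336295) (nat_lit 15) (.e (nat_lit 3305) (nat_lit 202) (.e (nat_lit 581376) (nat_lit 13) .nil)))) .nil)))) (.nd (nat_lit 5) (.nd (nat_lit 6) 
(.lf (nat_lit 285717) (.g (nat_lit 387) (.e (nat_lit 286748) (nat_lit 9) (.e (nat_lit 335997) (nat_lit 1) (.e (nat_lit 57872) (nat_lit 264) .nil))) .nil)) 
(.lf (nat_lit 285781) (.g (nat_lit 2447) (.e (nat_lit 286748) (nat_lit 9) (.e (nat_lit 336295) (nat_lit 15) (.e (nat_lit 3305) (nat_lit 202) (.e (nat_lit 573456) (nat_lit 9) (.e (nat_lit 1564) (nat_lit 110) .nil))))) .nil))) (.nd (nat_lit 6) 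
(.lf (nat_lit 285749) (.g (nat_lit 1724) (.e (nat_lit 286748) (nat_lit 9) (.e (nat_lit 336295) (nat_lit 15) (.e (nat_lit 3305) (nat_lit 202) (.e (nat_lit 573449) (nat_lit 9) .nil)))) .nil)) 
(.lf (nat_lit 285813) (.g (nat_lit 1663) (.e (nat_lit 286748) (nat_lit 9) (.e (nat_lit 336295) (nat_lit 15) (.e (nat_lit 3632) (nat_lit 227) (.e (nat_lit 778291) (nat_lit 0) .nil)))) .nil))))) (.nd (nat_lit 4) (.nd (nat_lit 5) (.nd (nat_lit 6) 
(.lf (nat_lit 285709) (.g (nat_lit 2951) (.e (nat_lit 286747) (nat_lit 9) (.e (nat_lit 336028) (nat_lit 3) (.e (nat_lit 98389) (nat_lit 33) (.e (nat_lit 491560) (nat_lit 10) (.e (nat_lit 344115) (nat_lit 20) (.e (nat_lit 507923) (nat_lit 6) .nil)))))) (.g (nat_lit 6) .nil .nil))) 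
(.lf (nat_lit 285773) (.g (nat_lit 2447) (.e (nat_lit 286748) (nat_lit 9) (.e (nat_lit 336295) (nat_lit 15) (.e (nat_lit 3305) (nat_lit 202) (.e (nat_lit 573456) (nat_lit 9) (.e (nat_lit 1461) (nat_lit 108) .nil))))) .nil))) (.nd (nat_lit 6) 
(.lf (nat_lit 285741) (.g (nat_lit 604) (.e (nat_lit 286748) (nat_lit 9) (.e (nat_lit 336295) (nat_lit 15) (.e (nat_lit 2505) (nat_lit 157) .nil))) .nil)) 
(.lf (nat_lit 285805) (.g (nat_lit 3339) (.e (nat_lit 286748) (nat_lit 9) (.e (nat_lit 336295) (nat_lit 15) (.e (nat_lit 3305) (nat_lit 202) (.e (nat_lit 573493) (nat_lit 15) (.e (nat_lit 81962) (nat_lit 25) (.e (nat_lit 139299) (nat_lit 18) (.e (nat_lit 1349) (nat_lit 102) .nil))))))) (.g (nat_lit 5) .nil .nil))))) (.nd (nat_lit 5) (.nd (nat_lit 6) 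
(.lf (nat_lit 285725) (.g (nat_lit 4136) (.e (nat_lit 286748) (nat_lit 9) (.e (nat_lit 336013) (nat_lit 2) (.e (nat_lit 90170) (nat_lit 13) (.e (nat_lit 172060) (nat_lit 1) .nil)))) .nil)) 
(.lf (nat_lit 285789) (.g (nat_lit 2137) (.e (nat_lit 286748) (nat_lit 9) (.e (nat_lit 336295) (nat_lit 15) (.e (nat_lit 3305) (nat_lit 202) (.e (nat_lit 573457) (nat_lit 9) (.e (nat_lit 1553) (nat_lit 110) .nil))))) .nil))) (.nd (nat_lit 6) 
(.lf (nat_lit 285757) (.g (nat_lit 1728) (.e (nat_lit 286748) (nat_lit 9) (.e (nat_lit 336295) (nat_lit 15) (.e (nat_lit 3305) (nat_lit 202) (.e (nat_lit 573456) (nat_lit 9) .nil)))) .nil)) 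
(.lf (nat_lit 285821) (.g (nat_lit 2391) (.e (nat_lit 286748) (nat_lit 9) (.e (nat_lit 336295) (nat_lit 15) (.e (nat_lit 3632) (nat_lit 227) (.e (nat_lit 778318) (nat_lit 3) (.e (nat_lit 57354) (nat_lit 0) (.e (nat_lit 6286) (nat_lit 337) (.e (nat_lit 1202) (nat_lit 88) (.e (nat_lit 65586) (nat_lit 7) (.e (nat_lit 319531) (nat_lit 16) .nil))))))))) (.g (nat_lit 4) .nil .nil)))))))) 
(.nd (nat_lit 2) (.nd (nat_lit 3) (.nd (nat_lit 4) (.nd (nat_lit 5) (.nd (nat_lit 6) 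
(.lf (nat_lit 285699) (.g (nat_lit 692) (.e (nat_lit 286747) (nat_lit 9) (.e (nat_lit 336013) (nat_lit 2) (.e (nat_lit 90189) (nat_lit 18) .nil))) .nil)) 
(.lf (nat_lit 285763) (.g (nat_lit 2447) (.e (nat_lit 286748) (nat_lit 9) (.e (nat_lit 336295) (nat_lit 15) (.e (nat_lit 3305) (nat_lit 202) (.e (nat_lit 573456) (nat_lit 9) (.e (nat_lit 1444) (nat_lit 108) .nil))))) .nil))) (.nd (nat_lit 6) 
(.lf (nat_lit 285731) (.g (nat_lit 1977) (.e (nat_lit 286748) (nat_lit 9) (.e (nat_lit 336028) (nat_lit 3) (.e (nat_lit 98366) (nat_lit 27) (.e (nat_lit 434275) (nat_lit 39) (.e (nat_lit 663585) (nat_lit 12) .nil))))) .nil)) 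
(.lf (nat_lit 285795) (.g (nat_lit 2133) (.e (nat_lit 286748) (nat_lit 9) (.e (nat_lit 336295) (nat_lit 15) (.e (nat_lit 3305) (nat_lit 202) (.e (nat_lit 573484) (nat_lit 13) (.e (nat_lit 65589) (nat_lit 9) (.e (nat_lit 336013) (nat_lit 2) (.e (nat_lit 98048) (nat_lit 18) (.e (nat_lit 1349) (nat_lit 102) .nil)))))))) (.g (nat_lit 6) .nil .nil))))) (.nd (nat_lit 5) (.nd (nat_lit 6) 
(.lf (nat_lit 285715) (.g (nat_lit 1770) (.e (nat_lit 286748) (nat_lit 9) (.e (nat_lit 335997) (nat_lit 1) (.e (nat_lit 57853) (nat_lit 252) (.e (nat_lit 57364) (nat_lit 1) (.e (nat_lit 57829) (nat_lit 250) .nil))))) .nil)) 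
(.lf (nat_lit 285779) (.g (nat_lit 2480) (.e (nat_lit 286748) (nat_lit 9) (.e (nat_lit 336295) (nat_lit 15) (.e (nat_lit 3305) (nat_lit 202) (.e (nat_lit 573456) (nat_lit 9) (.e (nat_lit 1563) (nat_lit 110) (.e (nat_lit 352311) (nat_lit 22) (.e (nat_lit 98048) (nat_lit 18) (.e (nat_lit 1348) (nat_lit 102) .nil)))))))) (.g (nat_lit 4) .nil .nil)))) (.nd (nat_lit 6) 
(.lf (nat_lit 285747) (.g (nat_lit 4003) (.e (nat_lit 286748) (nat_lit 9) (.e (nat_lit 336295) (nat_lit 15) (.e (nat_lit 3295) (nat_lit 202) (.e (nat_lit 573493) (nat_lit 15) (.e (nat_lit 81953) (nat_lit 22) (.e (nat_lit 98048) (nat_lit 18) (.e (nat_lit 1349) (nat_lit 102) .nil))))))) (.g (nat_lit 5) .nil .nil))) 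
(.lf (nat_lit 285811) (.g (nat_lit 1770) (.e (nat_lit 286748) (nat_lit 9) (.e (nat_lit 336295) (nat_lit 15) (.e (nat_lit 3632) (nat_lit 227) (.e (nat_lit 778258) (nat_lit 0) (.e (nat_lit 7936) (nat_lit 81) .nil))))) .nil))))) (.nd (nat_lit 4) (.nd (nat_lit 5) (.nd (nat_lit 6) 
(.lf (nat_lit 285707) (.g (nat_lit 1521) (.e (nat_lit 286747) (nat_lit 9) (.e (nat_lit 336028) (nat_lit 3) (.e (nat_lit 98367) (nat_lit 27) (.e (nat_lit 434209) (nat_lit 18) .nil)))) .nil)) 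
(.lf (nat_lit 285771) (.g (nat_lit 2589) (.e (nat_lit 286748) (nat_lit 9) (.e (nat_lit 336295) (nat_lit 15) (.e (nat_lit 3305) (nat_lit 202) (.e (nat_lit 573456) (nat_lit 9) (.e (nat_lit 1453) (nat_lit 108) (.e (nat_lit 336099) (nat_lit 9) (.e (nat_lit 336013) (nat_lit 2) (.e (nat_lit 98048) (nat_lit 18) (.e (nat_lit 1348) (nat_lit 102) .nil))))))))) (.g (nat_lit 4) .nil .nil)))) (.nd (nat_lit 6) 
(.lf (nat_lit 285739) (.g (nat_lit 1361) (.e (nat_lit 286748) (nat_lit 9) (.e (nat_lit 336048) (nat_lit 6) (.e (nat_lit 147494) (nat_lit 11) (.e (nat_lit 24665) (nat_lit 14) (.e (nat_lit 409344) (nat_lit 25) .nil))))) .nil)) 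
(.lf (nat_lit 285803) (.g (nat_lit 1374) (.e (nat_lit 286748) (nat_lit 9) (.e (nat_lit 336295) (nat_lit 15) (.e (nat_lit 3305) (nat_lit 202) (.e (nat_lit 573493) (nat_lit 15) .nil)))) .nil)))) (.nd (nat_lit 5) (.nd (nat_lit 6) 
(.lf (nat_lit 285723) (.g (nat_lit 3330) (.e (nat_lit 286748) (nat_lit 9) (.e (nat_lit 336013) (nat_lit 2) (.e (nat_lit 90170) (nat_lit 13) (.e (nat_lit 172042) (nat_lit 0) .nil)))) .nil)) 
(.lf (nat_lit 285787) (.g (nat_lit 2453) (.e (nat_lit 286748) (nat_lit 9) (.e (nat_lit 336295) (nat_lit 15) (.e (nat_lit 3305) (nat_lit 202) (.e (nat_lit 573456) (nat_lit 9) (.e (nat_lit 1596) (nat_lit 111) .nil))))) .nil))) (.nd (nat_lit 6) 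
(.lf (nat_lit 285755) (.g (nat_lit 2565) (.e (nat_lit 286748) (nat_lit 9) (.e (nat_lit 336295) (nat_lit 15) (.e (nat_lit 3305) (nat_lit 202) (.e (nat_lit 573452) (nat_lit 9) (.e (nat_lit 1571) (nat_lit 110) (.e (nat_lit 352312) (nat_lit 22) (.e (nat_lit 98048) (nat_lit 18) (.e (nat_lit 1349) (nat_lit 102) .nil)))))))) (.g (nat_lit 4) .nil .nil))) 
(.lf (nat_lit 285819) (.g (nat_lit 1378) (.e (nat_lit 286748) (nat_lit 9) (.e (nat_lit 336295) (nat_lit 15) (.e (nat_lit 3632) (nat_lit 227) (.e (nat_lit 778318) (nat_lit 3) .nil)))) .nil)))))) (.nd (nat_lit 3) (.nd (nat_lit 4) (.nd (nat_lit 5) (.nd (nat_lit 6) 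
(.lf (nat_lit 285703) (.g (nat_lit 887) (.e (nat_lit 286747) (nat_lit 9) (.e (nat_lit 336028) (nat_lit 3) (.e (nat_lit 98319) (nat_lit 17) .nil))) .nil)) 
(.lf (nat_lit 285767) (.g (nat_lit 2469) (.e (nat_lit 286748) (nat_lit 9) (.e (nat_lit 336295) (nat_lit 15) (.e (nat_lit 3305) (nat_lit 202) (.e (nat_lit 573456) (nat_lit 9) (.e (nat_lit 1447) (nat_lit 108) (.e (nat_lit 336099) (nat_lit 9) (.e (nat_lit 336013) (nat_lit 2) (.e (nat_lit 98048) (nat_lit 18) (.e (nat_lit 1349) (nat_lit 102) .nil))))))))) (.g (nat_lit 4) .nil .nil)))) (.nd (nat_lit 6) 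
(.lf (nat_lit 285735) (.g (nat_lit 1855) (.e (nat_lit 286748) (nat_lit 9) (.e (nat_lit 336028) (nat_lit 3) (.e (nat_lit 98367) (nat_lit 27) (.e (nat_lit 434276) (nat_lit 39) .nil)))) .nil)) 
(.lf (nat_lit 285799) (.g (nat_lit 3622) (.e (nat_lit 286748) (nat_lit 9) (.e (nat_lit 336295) (nat_lit 15) (.e (nat_lit 3305) (nat_lit 202) (.e (nat_lit 573489) (nat_lit 14) (.e (nat_lit 73731) (nat_lit 0) (.e (nat_lit 4539) (nat_lit 267) (.e (nat_lit 163871) (nat_lit 2) (.e (nat_lit 196691) (nat_lit 18) (.e (nat_lit 1349) (nat_lit 102) .nil))))))))) (.g (nat_lit 5) .nil .nil))))) 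
(.nd (nat_lit 5) (.nd (nat_lit 6) 
(.lf (nat_lit 285719) (.g (nat_lit 1649) (.e (nat_lit 286748) (nat_lit 9) (.e (nat_lit 336001) (nat_lit 2) (.e (nat_lit 90170) (nat_lit 13) (.e (nat_lit 172059) (nat_lit 1) .nil)))) .nil)) 
(.lf (nat_lit 285783) (.g (nat_lit 2477) (.e (nat_lit 286748) (nat_lit 9) (.e (nat_lit 336295) (nat_lit 15) (.e (nat_lit 3305) (nat_lit 202) (.e (nat_lit 573456) (nat_lit 9) (.e (nat_lit 1567) (nat_lit 110) .nil))))) .nil))) (.nd (nat_lit 6) 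
(.lf (nat_lit 285751) (.g (nat_lit 2503) (.e (nat_lit 286748) (nat_lit 9) (.e (nat_lit 336295) (nat_lit 15) (.e (nat_lit 3305) (nat_lit 202) (.e (nat_lit 573451) (nat_lit 9) (.e (nat_lit 1595) (nat_lit 111) (.e (nat_lit 360460) (nat_lit 1) (.e (nat_lit 507648) (nat_lit 0) (.e (nat_lit 1349) (nat_lit 102) .nil)))))))) (.g (nat_lit 4) .nil .nil))) 
(.lf (nat_lit 285815) (.g (nat_lit 1703) (.e (nat_lit 286748) (nat_lit 9) (.e (nat_lit 336295) (nat_lit 15) (.e (nat_lit 3632) (nat_lit 227) (.e (nat_lit 778298) (nat_lit 0) (.e (nat_lit 7936) (nat_lit 81) .nil))))) .nil))))) (.nd (nat_lit 4) (.nd (nat_lit 5) (.nd (nat_lit 6) 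
(.lf (nat_lit 285711) (.g (nat_lit 1493) (.e (nat_lit 286748) (nat_lit 9) (.e (nat_lit 335989) (nat_lit 1) (.e (nat_lit 57849) (nat_lit 252) (.e (nat_lit 57365) (nat_lit 1) (.e (nat_lit 57851) (nat_lit 252) .nil))))) .nil)) 
(.lf (nat_lit 285775) (.g (nat_lit 2514) (.e (nat_lit 286748) (nat_lit 9) (.e (nat_lit 336295) (nat_lit 15) (.e (nat_lit 3305) (nat_lit 202) (.e (nat_lit 573456) (nat_lit 9) (.e (nat_lit 1553) (nat_lit 110) .nil))))) .nil))) (.nd (nat_lit 6) 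
(.lf (nat_lit 285743) (.g (nat_lit 3156) (.e (nat_lit 286748) (nat_lit 9) (.e (nat_lit 336295) (nat_lit 15) (.e (nat_lit 3230) (nat_lit 197) (.e (nat_lit 532514) (nat_lit 3) (.e (nat_lit 114711) (nat_lit 21) (.e (nat_lit 57688) (nat_lit 156) (.e (nat_lit 163867) (nat_lit 2) (.e (nat_lit 196691) (nat_lit 18) (.e (nat_lit 1349) (nat_lit 102) .nil))))))))) (.g (nat_lit 6) .nil .nil))) 
(.lf (nat_lit 285807) (.g (nat_lit 330) (.e (nat_lit 286748) (nat_lit 9) (.e (nat_lit 336295) (nat_lit 15) (.e (nat_lit 3597) (nat_lit 225) .nil))) .nil)))) (.nd (nat_lit 5) (.nd (nat_lit 6) 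
(.lf (nat_lit 285727) (.g (nat_lit 2263) (.e (nat_lit 286748) (nat_lit 9) (.e (nat_lit 336020) (nat_lit 3) (.e (nat_lit 98367) (nat_lit 27) (.e (nat_lit 434209) (nat_lit 18) (.e (nat_lit 5224) (nat_lit 296) (.e (nat_lit 163868) (nat_lit 2) (.e (nat_lit 196691) (nat_lit 18) (.e (nat_lit 1349) (nat_lit 102) .nil)))))))) (.g (nat_lit 4) .nil .nil))) 
(.lf (nat_lit 285791) (.g (nat_lit 1724) (.e (nat_lit 286748) (nat_lit 9) (.e (nat_lit 336295) (nat_lit 15) (.e (nat_lit 3305) (nat_lit 202) (.e (nat_lit 573458) (nat_lit 9) .nil)))) .nil))) (.nd (nat_lit 6) 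
(.lf (nat_lit 285759) (.g (nat_lit 2447) (.e (nat_lit 286748) (nat_lit 9) (.e (nat_lit 336295) (nat_lit 15) (.e (nat_lit 3305) (nat_lit 202) (.e (nat_lit 573456) (nat_lit 9) (.e (nat_lit 1439) (nat_lit 108) .nil))))) .nil)) 
(.lf (nat_lit 285823) (.g (nat_lit 3080) (.e (nat_lit 286748) (nat_lit 9) (.e (nat_lit 336295) (nat_lit 15) (.e (nat_lit 3632) (nat_lit 227) (.e (nat_lit 778318) (nat_lit 3) (.e (nat_lit 57354) (nat_lit 0) (.e (nat_lit 6298) (nat_lit 337) (.e (nat_lit 1196) (nat_lit 88) (.e (nat_lit 65586) (nat_lit 7) (.e (nat_lit 319531) (nat_lit 16) .nil))))))))) (.g (nat_lit 5) .nil .nil))))))))))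

noncomputable def tv3627 : DT := (.nd (nat_lit 0) (.nd (nat_lit 1) (.nd (nat_lit 2) (.nd (nat_lit 3) (.nd (nat_lit 4) (.nd (nat_lit 5) (.nd (nat_lit 6) 
(.lf (nat_lit 285824) (.g (nat_lit 3162) (.e (nat_lit 286748) (nat_lit 9) (.e (nat_lit 336295) (nat_lit 15) (.e (nat_lit 3632) (nat_lit 227) (.e (nat_lit 778318) (nat_lit 3) (.e (nat_lit 57354) (nat_lit 0) (.e (nat_lit 6308) (nat_lit 337) (.e (nat_lit 1199) (nat_lit 88) (.e (nat_lit 65586) (nat_lit 7) (.e (nat_lit 319531) (nat_lit 16) .nil))))))))) (.g (nat_lit 5) .nil .nil))) 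
(.lf (nat_lit 285888) (.g (nat_lit 1699) (.e (nat_lit 286748) (nat_lit 9) (.e (nat_lit 336389) (nat_lit 27) (.e (nat_lit 426190) (nat_lit 9) (.e (nat_lit 426366) (nat_lit 15) (.e (nat_lit 2251) (nat_lit 147) .nil))))) .nil))) (.nd (nat_lit 6) 
(.lf (nat_lit 285856) (.g (nat_lit 794) (.e (nat_lit 286748) (nat_lit 9) (.e (nat_lit 336389) (nat_lit 27) (.e (nat_lit 426012) (nat_lit 0) (.e (nat_lit 7111) (nat_lit 381) .nil)))) .nil)) 
(.lf (nat_lit 285920) (.g (nat_lit 1663) (.e (nat_lit 286748) (nat_lit 9) (.e (nat_lit 336389) (nat_lit 27) (.e (nat_lit 426315) (nat_lit 12) (.e (nat_lit 475221) (nat_lit 45) .nil)))) .nil)))) (.nd (nat_lit 5) (.nd (nat_lit 6) 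
(.lf (nat_lit 285840) (.g (nat_lit 3206) (.e (nat_lit 286748) (nat_lit 9) (.e (nat_lit 336295) (nat_lit 15) (.e (nat_lit 3748) (nat_lit 228) (.e (nat_lit 786483) (nat_lit 30) (.e (nat_lit 360483) (nat_lit 15) (.e (nat_lit 647203) (nat_lit 14) (.e (nat_lit 1349) (nat_lit 102) .nil))))))) (.g (nat_lit 7) .nil .nil))) 
(.lf (nat_lit 285904) (.g (nat_lit 1635) (.e (nat_lit 286748) (nat_lit 9) (.e (nat_lit 336389) (nat_lit 27) (.e (nat_lit 426306) (nat_lit 12) (.e (nat_lit 475220) (nat_lit 44) .nil)))) .nil))) (.nd (nat_lit 6) 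
(.lf (nat_lit 285872) (.g (nat_lit 471) (.e (nat_lit 286748) (nat_lit 9) (.e (nat_lit 336389) (nat_lit 27) (.e (nat_lit 426182) (nat_lit 8) .nil))) .nil)) 
(.lf (nat_lit 285936) (.g (nat_lit 1986) (.e (nat_lit 286748) (nat_lit 9) (.e (nat_lit 336389) (nat_lit 27) (.e (nat_lit 426343) (nat_lit 14) (.e (nat_lit 491547) (nat_lit 9) (.e (nat_lit 336242) (nat_lit 15) .nil))))) .nil))))) (.nd (nat_lit 4) (.nd (nat_lit 5) (.nd (nat_lit 6) 
(.lf (nat_lit 285832) (.g (nat_lit 1663) (.e (nat_lit 286748) (nat_lit 9) (.e (nat_lit 336295) (nat_lit 15) (.e (nat_lit 3632) (nat_lit 227) (.e (nat_lit 778510) (nat_lit 14) .nil)))) .nil)) 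
(.lf (nat_lit 285896) (.g (nat_lit 3557) (.e (nat_lit 286748) (nat_lit 9) (.e (nat_lit 336389) (nat_lit 27) (.e (nat_lit 426263) (nat_lit 9) (.e (nat_lit 426100) (nat_lit 1) (.e (nat_lit 164403) (nat_lit 256) (.e (nat_lit 57400) (nat_lit 10) (.e (nat_lit 319531) (nat_lit 16) .nil))))))) (.g (nat_lit 5) .nil .nil)))) (.nd (nat_lit 6) 
(.lf (nat_lit 285864) (.g (nat_lit 717) (.e (nat_lit 286748) (nat_lit 9) (.e (nat_lit 336389) (nat_lit 27) (.e (nat_lit 426161) (nat_lit 6) .nil))) .nil)) 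
(.lf (nat_lit 285928) (.g (nat_lit 377) (.e (nat_lit 286748) (nat_lit 9) (.e (nat_lit 336389) (nat_lit 27) (.e (nat_lit 426343) (nat_lit 14) .nil))) .nil)))) (.nd (nat_lit 5) (.nd (nat_lit 6) 
(.lf (nat_lit 285848) (.g (nat_lit 983) (.e (nat_lit 286748) (nat_lit 9) (.e (nat_lit 336295) (nat_lit 15) (.e (nat_lit 7083) (nat_lit 379) (.e (nat_lit 123207) (nat_lit 270) .nil)))) .nil)) 
(.lf (nat_lit 285912) (.g (nat_lit 1157) (.e (nat_lit 286748) (nat_lit 9) (.e (nat_lit 336389) (nat_lit 27) (.e (nat_lit 426308) (nat_lit 12) (.e (nat_lit 475208) (nat_lit 41) .nil)))) .nil))) (.nd (nat_lit 6) 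
(.lf (nat_lit 285880) (.g (nat_lit 1598) (.e (nat_lit 286748) (nat_lit 9) (.e (nat_lit 336389) (nat_lit 27) (.e (nat_lit 426190) (nat_lit 9) (.e (nat_lit 425986) (nat_lit 0) (.e (nat_lit 3421) (nat_lit 213) .nil))))) .nil)) 
(.lf (nat_lit 285944) (.g (nat_lit 997) (.e (nat_lit 286748) (nat_lit 9) (.e (nat_lit 336389) (nat_lit 27) (.e (nat_lit 426343) (nat_lit 14) (.e (nat_lit 491556) (nat_lit 9) .nil)))) .nil)))))) (.nd (nat_lit 3) (.nd (nat_lit 4) (.nd (nat_lit 5) (.nd (nat_lit 6) 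
(.lf (nat_lit 285828) (.g (nat_lit 2310) (.e (nat_lit 286748) (nat_lit 9) (.e (nat_lit 336295) (nat_lit 15) (.e (nat_lit 3632) (nat_lit 227) (.e (nat_lit 778318) (nat_lit 3) (.e (nat_lit 57524) (nat_lit 45) .nil))))) .nil)) 
(.lf (nat_lit 285892) (.g (nat_lit 727) (.e (nat_lit 286748) (nat_lit 9) (.e (nat_lit 336389) (nat_lit 27) (.e (nat_lit 426220) (nat_lit 9) .nil))) .nil))) (.nd (nat_lit 6) 
(.lf (nat_lit 285860) (.g (nat_lit 1800) (.e (nat_lit 286748) (nat_lit 9) (.e (nat_lit 336389) (nat_lit 27) (.e (nat_lit 426012) (nat_lit 0) (.e (nat_lit 7589) (nat_lit 406) (.e (nat_lit 65632) (nat_lit 15) (.e (nat_lit 6952) (nat_lit 377) (.e (nat_lit 7936) (nat_lit 102) .nil))))))) (.g (nat_lit 4) .nil .nil))) 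
(.lf (nat_lit 285924) (.g (nat_lit 1670) (.e (nat_lit 286748) (nat_lit 9) (.e (nat_lit 336389) (nat_lit 27) (.e (nat_lit 426341) (nat_lit 14) (.e (nat_lit 491562) (nat_lit 12) (.e (nat_lit 392960) (nat_lit 16) .nil))))) .nil)))) (.nd (nat_lit 5) (.nd (nat_lit 6) 
(.lf (nat_lit 285844) (.g (nat_lit 604) (.e (nat_lit 286748) (nat_lit 9) (.e (nat_lit 336295) (nat_lit 15) (.e (nat_lit 3803) (nat_lit 231) .nil))) .nil)) 
(.lf (nat_lit 285908) (.g (nat_lit 1338) (.e (nat_lit 286748) (nat_lit 9) (.e (nat_lit 336389) (nat_lit 27) (.e (nat_lit 426308) (nat_lit 12) (.e (nat_lit 475163) (nat_lit 21) .nil)))) .nil))) (.nd (nat_lit 6) 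
(.lf (nat_lit 285876) (.g (nat_lit 1082) (.e (nat_lit 286748) (nat_lit 9) (.e (nat_lit 336389) (nat_lit 27) (.e (nat_lit 426185) (nat_lit 9) (.e (nat_lit 426144) (nat_lit 4) .nil)))) .nil)) 
(.lf (nat_lit 285940) (.g (nat_lit 2987) (.e (nat_lit 286748) (nat_lit 9) (.e (nat_lit 336389) (nat_lit 27) (.e (nat_lit 426343) (nat_lit 14) (.e (nat_lit 491552) (nat_lit 9) (.e (nat_lit 336358) (nat_lit 25) (.e (nat_lit 417536) (nat_lit 6) .nil)))))) (.g (nat_lit 5) .nil .nil)))))) (.nd (nat_lit 4) (.nd (nat_lit 5) (.nd (nat_lit 6) 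
(.lf (nat_lit 285836) (.g (nat_lit 1321) (.e (nat_lit 286748) (nat_lit 9) (.e (nat_lit 336295) (nat_lit 15) (.e (nat_lit 3747) (nat_lit 228) (.e (nat_lit 786483) (nat_lit 30) (.e (nat_lit 360484) (nat_lit 15) .nil))))) .nil)) 
(.lf (nat_lit 285900) (.g (nat_lit 1115) (.e (nat_lit 286748) (nat_lit 9) (.e (nat_lit 336389) (nat_lit 27) (.e (nat_lit 426298) (nat_lit 11) (.e (nat_lit 458805) (nat_lit 39) .nil)))) .nil))) (.nd (nat_lit 6) 
(.lf (nat_lit 285868) (.g (nat_lit 681) (.e (nat_lit 286748) (nat_lit 9) (.e (nat_lit 336389) (nat_lit 27) (.e (nat_lit 426180) (nat_lit 8) .nil))) .nil)) 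
(.lf (nat_lit 285932) (.g (nat_lit 2514) (.e (nat_lit 286748) (nat_lit 9) (.e (nat_lit 336389) (nat_lit 27) (.e (nat_lit 426343) (nat_lit 14) (.e (nat_lit 491546) (nat_lit 9) (.e (nat_lit 336270) (nat_lit 15) .nil))))) .nil)))) (.nd (nat_lit 5) (.nd (nat_lit 6) 
(.lf (nat_lit 285852) (.g (nat_lit 1244) (.e (nat_lit 286748) (nat_lit 9) (.e (nat_lit 336389) (nat_lit 27) (.e (nat_lit 426012) (nat_lit 0) (.e (nat_lit 3544) (nat_lit 219) (.e (nat_lit 712717) (nat_lit 15) .nil))))) .nil)) 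
(.lf (nat_lit 285916) (.g (nat_lit 1192) (.e (nat_lit 286748) (nat_lit 9) (.e (nat_lit 336389) (nat_lit 27) (.e (nat_lit 426313) (nat_lit 12) (.e (nat_lit 475220) (nat_lit 44) .nil)))) .nil))) (.nd (nat_lit 6) 
(.lf (nat_lit 285884) (.g (nat_lit 1612) (.e (nat_lit 286748) (nat_lit 9) (.e (nat_lit 336389) (nat_lit 27) (.e (nat_lit 426190) (nat_lit 9) (.e (nat_lit 426112) (nat_lit 1) (.e (nat_lit 164386) (nat_lit 254) .nil))))) .nil)) 
(.lf (nat_lit 285948) (.g (nat_lit 2859) (.e (nat_lit 286748) (nat_lit 9) (.e (nat_lit 336389) (nat_lit 27) (.e (nat_lit 426343) (nat_lit 14) (.e (nat_lit 491556) (nat_lit 9) (.e (nat_lit 343808) (nat_lit 25) (.e (nat_lit 417536) (nat_lit 6) .nil)))))) (.g (nat_lit 4) .nil .nil)))))))) (.nd (nat_lit 2) (.nd (nat_lit 3) (.nd (nat_lit 4) (.nd (nat_lit 5) (.nd (nat_lit 6) 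
(.lf (nat_lit 285826) (.g (nat_lit 3074) (.e (nat_lit 286748) (nat_lit 9) (.e (nat_lit 336295) (nat_lit 15) (.e (nat_lit 3632) (nat_lit 227) (.e (nat_lit 778318) (nat_lit 3) (.e (nat_lit 57354) (nat_lit 0) (.e (nat_lit 6319) (nat_lit 337) (.e (nat_lit 1199) (nat_lit 88) (.e (nat_lit 65586) (nat_lit 7) (.e (nat_lit 319531) (nat_lit 16) .nil))))))))) (.g (nat_lit 5) .nil .nil))) 
(.lf (nat_lit 285890) (.g (nat_lit 2371) (.e (nat_lit 286748) (nat_lit 9) (.e (nat_lit 336389) (nat_lit 27) (.e (nat_lit 426198) (nat_lit 9) (.e (nat_lit 426364) (nat_lit 15) (.e (nat_lit 2247) (nat_lit 147) .nil))))) .nil))) (.nd (nat_lit 6) 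
(.lf (nat_lit 285858) (.g (nat_lit 793) (.e (nat_lit 286748) (nat_lit 9) (.e (nat_lit 336389) (nat_lit 27) (.e (nat_lit 426012) (nat_lit 0) (.e (nat_lit 7523) (nat_lit 402) .nil)))) .nil)) 
(.lf (nat_lit 285922) (.g (nat_lit 1788) (.e (nat_lit 286748) (nat_lit 9) (.e (nat_lit 336389) (nat_lit 27) (.e (nat_lit 426316) (nat_lit 12) (.e (nat_lit 475221) (nat_lit 45) .nil)))) .nil)))) (.nd (nat_lit 5) (.nd (nat_lit 6) 
(.lf (nat_lit 285842) (.g (nat_lit 298) (.e (nat_lit 286748) (nat_lit 9) (.e (nat_lit 336295) (nat_lit 15) (.e (nat_lit 3757) (nat_lit 229) .nil))) .nil)) 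
(.lf (nat_lit 285906) (.g (nat_lit 1073) (.e (nat_lit 286748) (nat_lit 9) (.e (nat_lit 336389) (nat_lit 27) (.e (nat_lit 426307) (nat_lit 12) (.e (nat_lit 475221) (nat_lit 45) .nil)))) .nil))) (.nd (nat_lit 6) 
(.lf (nat_lit 285874) (.g (nat_lit 3826) (.e (nat_lit 286748) (nat_lit 9) (.e (nat_lit 336389) (nat_lit 27) (.e (nat_lit 426182) (nat_lit 8) (.e (nat_lit 417820) (nat_lit 10) (.e (nat_lit 5626) (nat_lit 312) (.e (nat_lit 214) (nat_lit 19) (.e (nat_lit 319530) (nat_lit 16) .nil))))))) (.g (nat_lit 5) .nil .nil))) 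
(.lf (nat_lit 285938) (.g (nat_lit 1331) (.e (nat_lit 286748) (nat_lit 9) (.e (nat_lit 336389) (nat_lit 27) (.e (nat_lit 426343) (nat_lit 14) (.e (nat_lit 491552) (nat_lit 9) .nil)))) .nil))))) (.nd (nat_lit 4) (.nd (nat_lit 5) (.nd (nat_lit 6) 
(.lf (nat_lit 285834) (.g (nat_lit 4186) (.e (nat_lit 286748) (nat_lit 9) (.e (nat_lit 336295) (nat_lit 15) (.e (nat_lit 3733) (nat_lit 228) (.e (nat_lit 786447) (nat_lit 15) (.e (nat_lit 2030) (nat_lit 140) (.e (nat_lit 688177) (nat_lit 16) (.e (nat_lit 65586) (nat_lit 7) (.e (nat_lit 319531) (nat_lit 16) .nil)))))))) (.g (nat_lit 8) .nil .nil))) 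
(.lf (nat_lit 285898) (.g (nat_lit 3809) (.e (nat_lit 286748) (nat_lit 9) (.e (nat_lit 336389) (nat_lit 27) (.e (nat_lit 426265) (nat_lit 9) (.e (nat_lit 426100) (nat_lit 1) (.e (nat_lit 164398) (nat_lit 256) (.e (nat_lit 57399) (nat_lit 10) (.e (nat_lit 319531) (nat_lit 16) .nil))))))) (.g (nat_lit 0) .nil .nil)))) (.nd (nat_lit 6) 
(.lf (nat_lit 285866) (.g (nat_lit 1909) (.e (nat_lit 286748) (nat_lit 9) (.e (nat_lit 336389) (nat_lit 27) (.e (nat_lit 426172) (nat_lit 7) (.e (nat_lit 409644) (nat_lit 18) (.e (nat_lit 311040) (nat_lit 25) (.e (nat_lit 319531) (nat_lit 16) .nil)))))) (.g (nat_lit 4) .nil .nil))) 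
(.lf (nat_lit 285930) (.g (nat_lit 2536) (.e (nat_lit 286748) (nat_lit 9) (.e (nat_lit 336389) (nat_lit 27) (.e (nat_lit 426343) (nat_lit 14) (.e (nat_lit 491546) (nat_lit 9) (.e (nat_lit 336238) (nat_lit 15) .nil))))) .nil)))) (.nd (nat_lit 5) (.nd (nat_lit 6) 
(.lf (nat_lit 285850) (.g (nat_lit 1335) (.e (nat_lit 286748) (nat_lit 9) (.e (nat_lit 336389) (nat_lit 27) (.e (nat_lit 426011) (nat_lit 0) (.e (nat_lit 7110) (nat_lit 380) .nil)))) .nil)) 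
(.lf (nat_lit 285914) (.g (nat_lit 2104) (.e (nat_lit 286748) (nat_lit 9) (.e (nat_lit 336389) (nat_lit 27) (.e (nat_lit 426308) (nat_lit 12) (.e (nat_lit 475221) (nat_lit 45) (.e (nat_lit 745473) (nat_lit 0) .nil))))) .nil))) (.nd (nat_lit 6) 
(.lf (nat_lit 285882) (.g (nat_lit 1815) (.e (nat_lit 286748) (nat_lit 9) (.e (nat_lit 336389) (nat_lit 27) (.e (nat_lit 426190) (nat_lit 9) (.e (nat_lit 426095) (nat_lit 0) (.e (nat_lit 3437) (nat_lit 214) .nil))))) .nil)) 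
(.lf (nat_lit 285946) (.g (nat_lit 3560) (.e (nat_lit 286748) (nat_lit 9) (.e (nat_lit 336389) (nat_lit 27) (.e (nat_lit 426343) (nat_lit 14) (.e (nat_lit 491556) (nat_lit 9) (.e (nat_lit 336241) (nat_lit 15) (.e (nat_lit 7064) (nat_lit 377) (.e (nat_lit 1349) (nat_lit 102) .nil))))))) (.g (nat_lit 0) .nil .nil))))))) (.nd (nat_lit 3) (.nd (nat_lit 4) (.nd (nat_lit 5) (.nd (nat_lit 6) 
(.lf (nat_lit 285830) (.g (nat_lit 1663) (.e (nat_lit 286748) (nat_lit 9) (.e (nat_lit 336295) (nat_lit 15) (.e (nat_lit 3632) (nat_lit 227) (.e (nat_lit 778348) (nat_lit 9) .nil)))) .nil)) 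
(.lf (nat_lit 285894) (.g (nat_lit 712) (.e (nat_lit 286748) (nat_lit 9) (.e (nat_lit 336389) (nat_lit 27) (.e (nat_lit 426263) (nat_lit 9) .nil))) .nil))) (.nd (nat_lit 6) 
(.lf (nat_lit 285862) (.g (nat_lit 897) (.e (nat_lit 286748) (nat_lit 9) (.e (nat_lit 336389) (nat_lit 27) (.e (nat_lit 426012) (nat_lit 0) (.e (nat_lit 7604) (nat_lit 409) (.e (nat_lit 139008) (nat_lit 15) .nil))))) .nil)) 
(.lf (nat_lit 285926) (.g (nat_lit 3143) (.e (nat_lit 286748) (nat_lit 9) (.e (nat_lit 336389) (nat_lit 27) (.e (nat_lit 426341) (nat_lit 14) (.e (nat_lit 491563) (nat_lit 12) (.e (nat_lit 392960) (nat_lit 16) (.e (nat_lit 1348) (nat_lit 102) .nil)))))) (.g (nat_lit 4) .nil .nil))))) (.nd (nat_lit 5) (.nd (nat_lit 6) 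
(.lf (nat_lit 285846) (.g (nat_lit 335) (.e (nat_lit 286748) (nat_lit 9) (.e (nat_lit 336295) (nat_lit 15) (.e (nat_lit 3806) (nat_lit 231) .nil))) .nil)) 
(.lf (nat_lit 285910) (.g (nat_lit 1355) (.e (nat_lit 286748) (nat_lit 9) (.e (nat_lit 336389) (nat_lit 27) (.e (nat_lit 426308) (nat_lit 12) (.e (nat_lit 475201) (nat_lit 40) .nil)))) .nil))) (.nd (nat_lit 6) 
(.lf (nat_lit 285878) (.g (nat_lit 720) (.e (nat_lit 286748) (nat_lit 9) (.e (nat_lit 336389) (nat_lit 27) (.e (nat_lit 426186) (nat_lit 9) .nil))) .nil)) 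
(.lf (nat_lit 285942) (.g (nat_lit 2958) (.e (nat_lit 286748) (nat_lit 9) (.e (nat_lit 336389) (nat_lit 27) (.e (nat_lit 426343) (nat_lit 14) (.e (nat_lit 491552) (nat_lit 9) (.e (nat_lit 336363) (nat_lit 26) (.e (nat_lit 417809) (nat_lit 6) .nil)))))) (.g (nat_lit 4) .nil .nil)))))) (.nd (nat_lit 4) (.nd (nat_lit 5) (.nd (nat_lit 6) 
(.lf (nat_lit 285838) (.g (nat_lit 4485) (.e (nat_lit 286748) (nat_lit 9) (.e (nat_lit 336295) (nat_lit 15) (.e (nat_lit 3748) (nat_lit 228) (.e (nat_lit 786446) (nat_lit 15) (.e (nat_lit 2030) (nat_lit 140) (.e (nat_lit 688177) (nat_lit 16) (.e (nat_lit 65586) (nat_lit 7) (.e (nat_lit 319531) (nat_lit 16) .nil)))))))) (.g (nat_lit 8) .nil .nil))) 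
(.lf (nat_lit 285902) (.g (nat_lit 1780) (.e (nat_lit 286748) (nat_lit 9) (.e (nat_lit 336389) (nat_lit 27) (.e (nat_lit 426305) (nat_lit 12) (.e (nat_lit 475220) (nat_lit 44) (.e (nat_lit 737290) (nat_lit 0) .nil))))) .nil))) (.nd (nat_lit 6) 
(.lf (nat_lit 285870) (.g (nat_lit 382) (.e (nat_lit 286748) (nat_lit 9) (.e (nat_lit 336389) (nat_lit 27) (.e (nat_lit 426181) (nat_lit 8) .nil))) .nil)) 
(.lf (nat_lit 285934) (.g (nat_lit 2514) (.e (nat_lit 286748) (nat_lit 9) (.e (nat_lit 336389) (nat_lit 27) (.e (nat_lit 426343) (nat_lit 14) (.e (nat_lit 491546) (nat_lit 9) (.e (nat_lit 336302) (nat_lit 15) .nil))))) .nil)))) (.nd (nat_lit 5) (.nd (nat_lit 6) 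
(.lf (nat_lit 285854) (.g (nat_lit 1215) (.e (nat_lit 286748) (nat_lit 9) (.e (nat_lit 336389) (nat_lit 27) (.e (nat_lit 426012) (nat_lit 0) (.e (nat_lit 7109) (nat_lit 380) (.e (nat_lit 164353) (nat_lit 246) .nil))))) .nil)) 
(.lf (nat_lit 285918) (.g (nat_lit 1311) (.e (nat_lit 286748) (nat_lit 9) (.e (nat_lit 336389) (nat_lit 27) (.e (nat_lit 426314) (nat_lit 12) (.e (nat_lit 475221) (nat_lit 45) .nil)))) .nil))) (.nd (nat_lit 6) 
(.lf (nat_lit 285886) (.g (nat_lit 2114) (.e (nat_lit 286748) (nat_lit 9) (.e (nat_lit 336389) (nat_lit 27) (.e (nat_lit 426190) (nat_lit 9) (.e (nat_lit 426354) (nat_lit 15) (.e (nat_lit 2250) (nat_lit 147) .nil))))) .nil)) 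
(.lf (nat_lit 285950) (.g (nat_lit 2478) (.e (nat_lit 286748) (nat_lit 9) (.e (nat_lit 336389) (nat_lit 27) (.e (nat_lit 426343) (nat_lit 14) (.e (nat_lit 491572) (nat_lit 14) (.e (nat_lit 409344) (nat_lit 25) .nil))))) .nil)))))))) (.nd (nat_lit 1) (.nd (nat_lit 2) (.nd (nat_lit 3) (.nd (nat_lit 4) (.nd (nat_lit 5) (.nd (nat_lit 6) 
(.lf (nat_lit 285825) (.g (nat_lit 2378) (.e (nat_lit 286748) (nat_lit 9) (.e (nat_lit 336295) (nat_lit 15) (.e (nat_lit 3632) (nat_lit 227) (.e (nat_lit 778318) (nat_lit 3) (.e (nat_lit 57354) (nat_lit 0) (.e (nat_lit 6319) (nat_lit 337) (.e (nat_lit 1196) (nat_lit 88) (.e (nat_lit 65586) (nat_lit 7) (.e (nat_lit 319531) (nat_lit 16) .nil))))))))) (.g (nat_lit 4) .nil .nil))) 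
(.lf (nat_lit 285889) (.g (nat_lit 1866) (.e (nat_lit 286748) (nat_lit 9) (.e (nat_lit 336389) (nat_lit 27) (.e (nat_lit 426198) (nat_lit 9) (.e (nat_lit 425986) (nat_lit 0) .nil)))) .nil))) (.nd (nat_lit 6) 
(.lf (nat_lit 285857) (.g (nat_lit 1934) (.e (nat_lit 286748) (nat_lit 9) (.e (nat_lit 336389) (nat_lit 27) (.e (nat_lit 426012) (nat_lit 0) (.e (nat_lit 7513) (nat_lit 402) (.e (nat_lit 1638) (nat_lit 114) (.e (nat_lit 392960) (nat_lit 16) (.e (nat_lit 1348) (nat_lit 102) .nil))))))) (.g (nat_lit 5) .nil .nil))) 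
(.lf (nat_lit 285921) (.g (nat_lit 1774) (.e (nat_lit 286748) (nat_lit 9) (.e (nat_lit 336389) (nat_lit 27) (.e (nat_lit 426316) (nat_lit 12) (.e (nat_lit 475220) (nat_lit 44) .nil)))) .nil)))) (.nd (nat_lit 5) (.nd (nat_lit 6) 
(.lf (nat_lit 285841) (.g (nat_lit 3741) (.e (nat_lit 286748) (nat_lit 9) (.e (nat_lit 336295) (nat_lit 15) (.e (nat_lit 3748) (nat_lit 228) (.e (nat_lit 786483) (nat_lit 30) (.e (nat_lit 360484) (nat_lit 15) (.e (nat_lit 647203) (nat_lit 14) (.e (nat_lit 1349) (nat_lit 102) .nil))))))) (.g (nat_lit 0) .nil .nil))) 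
(.lf (nat_lit 285905) (.g (nat_lit 694) (.e (nat_lit 286748) (nat_lit 9) (.e (nat_lit 336389) (nat_lit 27) (.e (nat_lit 426307) (nat_lit 12) .nil))) .nil))) (.nd (nat_lit 6) 
(.lf (nat_lit 285873) (.g (nat_lit 1100) (.e (nat_lit 286748) (nat_lit 9) (.e (nat_lit 336389) (nat_lit 27) (.e (nat_lit 426182) (nat_lit 8) (.e (nat_lit 417814) (nat_lit 10) .nil)))) .nil)) 
(.lf (nat_lit 285937) (.g (nat_lit 1273) (.e (nat_lit 286748) (nat_lit 9) (.e (nat_lit 336389) (nat_lit 27) (.e (nat_lit 426343) (nat_lit 14) (.e (nat_lit 491549) (nat_lit 9) .nil)))) .nil))))) (.nd (nat_lit 4) (.nd (nat_lit 5) (.nd (nat_lit 6) 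
(.lf (nat_lit 285833) (.g (nat_lit 1663) (.e (nat_lit 286748) (nat_lit 9) (.e (nat_lit 336295) (nat_lit 15) (.e (nat_lit 3632) (nat_lit 227) (.e (nat_lit 778583) (nat_lit 17) .nil)))) .nil)) 
(.lf (nat_lit 285897) (.g (nat_lit 402) (.e (nat_lit 286748) (nat_lit 9) (.e (nat_lit 336389) (nat_lit 27) (.e (nat_lit 426265) (nat_lit 9) .nil))) .nil))) (.nd (nat_lit 6) 
(.lf (nat_lit 285865) (.g (nat_lit 1023) (.e (nat_lit 286748) (nat_lit 9) (.e (nat_lit 336389) (nat_lit 27) (.e (nat_lit 426161) (nat_lit 6) (.e (nat_lit 261888) (nat_lit 7) .nil)))) .nil)) 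
(.lf (nat_lit 285929) (.g (nat_lit 1268) (.e (nat_lit 286748) (nat_lit 9) (.e (nat_lit 336389) (nat_lit 27) (.e (nat_lit 426343) (nat_lit 14) (.e (nat_lit 491546) (nat_lit 9) .nil)))) .nil)))) (.nd (nat_lit 5) (.nd (nat_lit 6) 
(.lf (nat_lit 285849) (.g (nat_lit 924) (.e (nat_lit 286748) (nat_lit 9) (.e (nat_lit 336389) (nat_lit 27) (.e (nat_lit 426003) (nat_lit 0) (.e (nat_lit 6981) (nat_lit 377) .nil)))) .nil)) 
(.lf (nat_lit 285913) (.g (nat_lit 1338) (.e (nat_lit 286748) (nat_lit 9) (.e (nat_lit 336389) (nat_lit 27) (.e (nat_lit 426308) (nat_lit 12) (.e (nat_lit 475217) (nat_lit 44) .nil)))) .nil))) (.nd (nat_lit 6) 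
(.lf (nat_lit 285881) (.g (nat_lit 1871) (.e (nat_lit 286748) (nat_lit 9) (.e (nat_lit 336389) (nat_lit 27) (.e (nat_lit 426190) (nat_lit 9) (.e (nat_lit 426068) (nat_lit 0) (.e (nat_lit 3434) (nat_lit 214) .nil))))) .nil)) 
(.lf (nat_lit 285945) (.g (nat_lit 2161) (.e (nat_lit 286748) (nat_lit 9) (.e (nat_lit 336389) (nat_lit 27) (.e (nat_lit 426343) (nat_lit 14) (.e (nat_lit 491556) (nat_lit 9) (.e (nat_lit 336237) (nat_lit 15) .nil))))) .nil)))))) (.nd (nat_lit 3) (.nd (nat_lit 4) (.nd (nat_lit 5) (.nd (nat_lit 6) 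
(.lf (nat_lit 285829) (.g (nat_lit 1663) (.e (nat_lit 286748) (nat_lit 9) (.e (nat_lit 336295) (nat_lit 15) (.e (nat_lit 3632) (nat_lit 227) (.e (nat_lit 778328) (nat_lit 7) .nil)))) .nil)) 
(.lf (nat_lit 285893) (.g (nat_lit 727) (.e (nat_lit 286748) (nat_lit 9) (.e (nat_lit 336389) (nat_lit 27) (.e (nat_lit 426222) (nat_lit 9) .nil))) .nil))) (.nd (nat_lit 6) 
(.lf (nat_lit 285861) (.g (nat_lit 2069) (.e (nat_lit 286748) (nat_lit 9) (.e (nat_lit 336389) (nat_lit 27) (.e (nat_lit 426012) (nat_lit 0) (.e (nat_lit 7589) (nat_lit 406) (.e (nat_lit 65647) (nat_lit 25) (.e (nat_lit 417536) (nat_lit 6) .nil)))))) (.g (nat_lit 5) .nil .nil))) 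
(.lf (nat_lit 285925) (.g (nat_lit 2675) (.e (nat_lit 286748) (nat_lit 9) (.e (nat_lit 336389) (nat_lit 27) (.e (nat_lit 426341) (nat_lit 14) (.e (nat_lit 491563) (nat_lit 12) (.e (nat_lit 392960) (nat_lit 16) .nil))))) .nil)))) (.nd (nat_lit 5) (.nd (nat_lit 6) 
(.lf (nat_lit 285845) (.g (nat_lit 382) (.e (nat_lit 286748) (nat_lit 9) (.e (nat_lit 336295) (nat_lit 15) (.e (nat_lit 3805) (nat_lit 231) .nil))) .nil)) 
(.lf (nat_lit 285909) (.g (nat_lit 1407) (.e (nat_lit 286748) (nat_lit 9) (.e (nat_lit 336389) (nat_lit 27) (.e (nat_lit 426308) (nat_lit 12) (.e (nat_lit 475163) (nat_lit 21) (.e (nat_lit 6766) (nat_lit 365) .nil))))) .nil))) (.nd (nat_lit 6) 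
(.lf (nat_lit 285877) (.g (nat_lit 4120) (.e (nat_lit 286748) (nat_lit 9) (.e (nat_lit 336389) (nat_lit 27) (.e (nat_lit 426185) (nat_lit 9) (.e (nat_lit 426144) (nat_lit 4) (.e (nat_lit 229678) (nat_lit 244) (.e (nat_lit 163842) (nat_lit 0) (.e (nat_lit 7065) (nat_lit 377) (.e (nat_lit 1349) (nat_lit 102) .nil)))))))) (.g (nat_lit 8) .nil .nil))) 
(.lf (nat_lit 285941) (.g (nat_lit 1886) (.e (nat_lit 286748) (nat_lit 9) (.e (nat_lit 336389) (nat_lit 27) (.e (nat_lit 426343) (nat_lit 14) (.e (nat_lit 491552) (nat_lit 9) (.e (nat_lit 343808) (nat_lit 25) .nil))))) .nil))))) (.nd (nat_lit 4) (.nd (nat_lit 5) (.nd (nat_lit 6) 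
(.lf (nat_lit 285837) (.g (nat_lit 522) (.e (nat_lit 286748) (nat_lit 9) (.e (nat_lit 336295) (nat_lit 15) (.e (nat_lit 3748) (nat_lit 228) .nil))) .nil)) 
(.lf (nat_lit 285901) (.g (nat_lit 1421) (.e (nat_lit 286748) (nat_lit 9) (.e (nat_lit 336389) (nat_lit 27) (.e (nat_lit 426305) (nat_lit 12) (.e (nat_lit 475220) (nat_lit 44) .nil)))) .nil))) (.nd (nat_lit 6) 
(.lf (nat_lit 285869) (.g (nat_lit 2047) (.e (nat_lit 286748) (nat_lit 9) (.e (nat_lit 336389) (nat_lit 27) (.e (nat_lit 426180) (nat_lit 8) (.e (nat_lit 417829) (nat_lit 18) (.e (nat_lit 311040) (nat_lit 25) (.e (nat_lit 319530) (nat_lit 16) .nil)))))) (.g (nat_lit 4) .nil .nil))) 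
(.lf (nat_lit 285933) (.g (nat_lit 2510) (.e (nat_lit 286748) (nat_lit 9) (.e (nat_lit 336389) (nat_lit 27) (.e (nat_lit 426343) (nat_lit 14) (.e (nat_lit 491546) (nat_lit 9) (.e (nat_lit 336292) (nat_lit 15) .nil))))) .nil)))) (.nd (nat_lit 5) (.nd (nat_lit 6) 
(.lf (nat_lit 285853) (.g (nat_lit 887) (.e (nat_lit 286748) (nat_lit 9) (.e (nat_lit 336389) (nat_lit 27) (.e (nat_lit 426012) (nat_lit 0) (.e (nat_lit 7109) (nat_lit 380) .nil)))) .nil)) 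
(.lf (nat_lit 285917) (.g (nat_lit 1828) (.e (nat_lit 286748) (nat_lit 9) (.e (nat_lit 336389) (nat_lit 27) (.e (nat_lit 426314) (nat_lit 12) (.e (nat_lit 475220) (nat_lit 44) (.e (nat_lit 737281) (nat_lit 0) .nil))))) .nil))) (.nd (nat_lit 6) 
(.lf (nat_lit 285885) (.g (nat_lit 1683) (.e (nat_lit 286748) (nat_lit 9) (.e (nat_lit 336389) (nat_lit 27) (.e (nat_lit 426190) (nat_lit 9) (.e (nat_lit 426141) (nat_lit 4) (.e (nat_lit 229681) (nat_lit 244) .nil))))) .nil)) 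
(.lf (nat_lit 285949) (.g (nat_lit 2554) (.e (nat_lit 286748) (nat_lit 9) (.e (nat_lit 336389) (nat_lit 27) (.e (nat_lit 426343) (nat_lit 14) (.e (nat_lit 491563) (nat_lit 12) (.e (nat_lit 392960) (nat_lit 16) (.e (nat_lit 1349) (nat_lit 102) .nil)))))) (.g (nat_lit 4) .nil .nil)))))))) (.nd (nat_lit 2) (.nd (nat_lit 3) (.nd (nat_lit 4) (.nd (nat_lit 5) (.nd (nat_lit 6) 
(.lf (nat_lit 285827) (.g (nat_lit 3005) (.e (nat_lit 286748) (nat_lit 9) (.e (nat_lit 336295) (nat_lit 15) (.e (nat_lit 3632) (nat_lit 227) (.e (nat_lit 778318) (nat_lit 3) (.e (nat_lit 57354) (nat_lit 0) (.e (nat_lit 6321) (nat_lit 337) (.e (nat_lit 1199) (nat_lit 88) (.e (nat_lit 65586) (nat_lit 7) (.e (nat_lit 319531) (nat_lit 16) .nil))))))))) (.g (nat_lit 5) .nil .nil))) 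
(.lf (nat_lit 285891) (.g (nat_lit 687) (.e (nat_lit 286748) (nat_lit 9) (.e (nat_lit 336389) (nat_lit 27) (.e (nat_lit 426213) (nat_lit 9) .nil))) .nil))) (.nd (nat_lit 6) 
(.lf (nat_lit 285859) (.g (nat_lit 1202) (.e (nat_lit 286748) (nat_lit 9) (.e (nat_lit 336389) (nat_lit 27) (.e (nat_lit 426012) (nat_lit 0) (.e (nat_lit 7587) (nat_lit 406) (.e (nat_lit 65632) (nat_lit 15) .nil))))) .nil)) 
(.lf (nat_lit 285923) (.g (nat_lit 2195) (.e (nat_lit 286748) (nat_lit 9) (.e (nat_lit 336389) (nat_lit 27) (.e (nat_lit 426341) (nat_lit 14) (.e (nat_lit 491550) (nat_lit 9) (.e (nat_lit 336242) (nat_lit 15) .nil))))) .nil)))) (.nd (nat_lit 5) (.nd (nat_lit 6) 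
(.lf (nat_lit 285843) (.g (nat_lit 611) (.e (nat_lit 286748) (nat_lit 9) (.e (nat_lit 336295) (nat_lit 15) (.e (nat_lit 3794) (nat_lit 231) .nil))) .nil)) 
(.lf (nat_lit 285907) (.g (nat_lit 1338) (.e (nat_lit 286748) (nat_lit 9) (.e (nat_lit 336389) (nat_lit 27) (.e (nat_lit 426308) (nat_lit 12) (.e (nat_lit 475160) (nat_lit 21) .nil)))) .nil))) (.nd (nat_lit 6) 
(.lf (nat_lit 285875) (.g (nat_lit 1706) (.e (nat_lit 286748) (nat_lit 9) (.e (nat_lit 336389) (nat_lit 27) (.e (nat_lit 426182) (nat_lit 8) (.e (nat_lit 417830) (nat_lit 19) (.e (nat_lit 319232) (nat_lit 25) .nil))))) .nil)) 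
(.lf (nat_lit 285939) (.g (nat_lit 1895) (.e (nat_lit 286748) (nat_lit 9) (.e (nat_lit 336389) (nat_lit 27) (.e (nat_lit 426343) (nat_lit 14) (.e (nat_lit 491552) (nat_lit 9) (.e (nat_lit 336253) (nat_lit 15) .nil))))) .nil))))) (.nd (nat_lit 4) (.nd (nat_lit 5) (.nd (nat_lit 6) 
(.lf (nat_lit 285835) (.g (nat_lit 2417) (.e (nat_lit 286748) (nat_lit 9) (.e (nat_lit 336295) (nat_lit 15) (.e (nat_lit 3747) (nat_lit 228) (.e (nat_lit 786450) (nat_lit 15) (.e (nat_lit 2028) (nat_lit 140) (.e (nat_lit 688177) (nat_lit 16) (.e (nat_lit 65583) (nat_lit 7) (.e (nat_lit 319530) (nat_lit 16) .nil)))))))) (.g (nat_lit 4) .nil .nil))) 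
(.lf (nat_lit 285899) (.g (nat_lit 2239) (.e (nat_lit 286748) (nat_lit 9) (.e (nat_lit 336389) (nat_lit 27) (.e (nat_lit 426278) (nat_lit 10) (.e (nat_lit 434272) (nat_lit 38) (.e (nat_lit 655364) (nat_lit 0) (.e (nat_lit 2828) (nat_lit 182) (.e (nat_lit 417536) (nat_lit 6) .nil))))))) (.g (nat_lit 4) .nil .nil)))) (.nd (nat_lit 6) 
(.lf (nat_lit 285867) (.g (nat_lit 2080) (.e (nat_lit 286748) (nat_lit 9) (.e (nat_lit 336389) (nat_lit 27) (.e (nat_lit 426172) (nat_lit 7) (.e (nat_lit 409645) (nat_lit 18) (.e (nat_lit 311040) (nat_lit 25) .nil))))) .nil)) 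
(.lf (nat_lit 285931) (.g (nat_lit 2526) (.e (nat_lit 286748) (nat_lit 9) (.e (nat_lit 336389) (nat_lit 27) (.e (nat_lit 426343) (nat_lit 14) (.e (nat_lit 491546) (nat_lit 9) (.e (nat_lit 336249) (nat_lit 15) .nil))))) .nil)))) (.nd (nat_lit 5) (.nd (nat_lit 6) 
(.lf (nat_lit 285851) (.g (nat_lit 1337) (.e (nat_lit 286748) (nat_lit 9) (.e (nat_lit 336389) (nat_lit 27) (.e (nat_lit 426011) (nat_lit 0) (.e (nat_lit 7534) (nat_lit 402) .nil)))) .nil)) 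
(.lf (nat_lit 285915) (.g (nat_lit 712) (.e (nat_lit 286748) (nat_lit 9) (.e (nat_lit 336389) (nat_lit 27) (.e (nat_lit 426313) (nat_lit 12) .nil))) .nil))) (.nd (nat_lit 6) 
(.lf (nat_lit 285883) (.g (nat_lit 1374) (.e (nat_lit 286748) (nat_lit 9) (.e (nat_lit 336389) (nat_lit 27) (.e (nat_lit 426190) (nat_lit 9) (.e (nat_lit 426111) (nat_lit 1) .nil)))) .nil)) 
(.lf (nat_lit 285947) (.g (nat_lit 2259) (.e (nat_lit 286748) (nat_lit 9) (.e (nat_lit 336389) (nat_lit 27) (.e (nat_lit 426343) (nat_lit 14) (.e (nat_lit 491556) (nat_lit 9) (.e (nat_lit 336300) (nat_lit 15) (.e (nat_lit 7936) (nat_lit 377) (.e (nat_lit 1349) (nat_lit 102) .nil))))))) (.g (nat_lit 4) .nil .nil))))))) (.nd (nat_lit 3) (.nd (nat_lit 4) (.nd (nat_lit 5) (.nd (nat_lit 6) 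
(.lf (nat_lit 285831) (.g (nat_lit 1663) (.e (nat_lit 286748) (nat_lit 9) (.e (nat_lit 336295) (nat_lit 15) (.e (nat_lit 3632) (nat_lit 227) (.e (nat_lit 778458) (nat_lit 10) .nil)))) .nil)) 
(.lf (nat_lit 285895) (.g (nat_lit 2038) (.e (nat_lit 286748) (nat_lit 9) (.e (nat_lit 336389) (nat_lit 27) (.e (nat_lit 426263) (nat_lit 9) (.e (nat_lit 426100) (nat_lit 1) (.e (nat_lit 164399) (nat_lit 256) .nil))))) .nil))) (.nd (nat_lit 6) 
(.lf (nat_lit 285863) (.g (nat_lit 740) (.e (nat_lit 286748) (nat_lit 9) (.e (nat_lit 336389) (nat_lit 27) (.e (nat_lit 426054) (nat_lit 0) .nil))) .nil)) 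
(.lf (nat_lit 285927) (.g (nat_lit 2297) (.e (nat_lit 286748) (nat_lit 9) (.e (nat_lit 336389) (nat_lit 27) (.e (nat_lit 426342) (nat_lit 14) (.e (nat_lit 491563) (nat_lit 12) (.e (nat_lit 392960) (nat_lit 16) (.e (nat_lit 1349) (nat_lit 102) .nil)))))) (.g (nat_lit 4) .nil .nil))))) (.nd (nat_lit 5) (.nd (nat_lit 6) 
(.lf (nat_lit 285847) (.g (nat_lit 604) (.e (nat_lit 286748) (nat_lit 9) (.e (nat_lit 336295) (nat_lit 15) (.e (nat_lit 6991) (nat_lit 377) .nil))) .nil)) 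
(.lf (nat_lit 285911) (.g (nat_lit 1781) (.e (nat_lit 286748) (nat_lit 9) (.e (nat_lit 336389) (nat_lit 27) (.e (nat_lit 426308) (nat_lit 12) (.e (nat_lit 475201) (nat_lit 40) (.e (nat_lit 704839) (nat_lit 15) .nil))))) .nil))) (.nd (nat_lit 6) 
(.lf (nat_lit 285879) (.g (nat_lit 2030) (.e (nat_lit 286748) (nat_lit 9) (.e (nat_lit 336389) (nat_lit 27) (.e (nat_lit 426188) (nat_lit 9) (.e (nat_lit 425986) (nat_lit 0) .nil)))) .nil)) 
(.lf (nat_lit 285943) (.g (nat_lit 2964) (.e (nat_lit 286748) (nat_lit 9) (.e (nat_lit 336389) (nat_lit 27) (.e (nat_lit 426343) (nat_lit 14) (.e (nat_lit 491552) (nat_lit 9) (.e (nat_lit 336363) (nat_lit 26) (.e (nat_lit 417810) (nat_lit 6) .nil)))))) (.g (nat_lit 4) .nil .nil)))))) (.nd (nat_lit 4) (.nd (nat_lit 5) (.nd (nat_lit 6) 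
(.lf (nat_lit 285839) (.g (nat_lit 3476) (.e (nat_lit 286748) (nat_lit 9) (.e (nat_lit 336295) (nat_lit 15) (.e (nat_lit 3748) (nat_lit 228) (.e (nat_lit 786481) (nat_lit 30) (.e (nat_lit 360482) (nat_lit 15) (.e (nat_lit 647203) (nat_lit 14) (.e (nat_lit 1349) (nat_lit 102) .nil))))))) (.g (nat_lit 7) .nil .nil))) 
(.lf (nat_lit 285903) (.g (nat_lit 1570) (.e (nat_lit 286748) (nat_lit 9) (.e (nat_lit 336389) (nat_lit 27) (.e (nat_lit 426306) (nat_lit 12) (.e (nat_lit 475201) (nat_lit 40) .nil)))) .nil))) (.nd (nat_lit 6) 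
(.lf (nat_lit 285871) (.g (nat_lit 606) (.e (nat_lit 286748) (nat_lit 9) (.e (nat_lit 336389) (nat_lit 27) (.e (nat_lit 426181) (nat_lit 8) (.e (nat_lit 425728) (nat_lit 19) .nil)))) .nil)) 
(.lf (nat_lit 285935) (.g (nat_lit 2795) (.e (nat_lit 286748) (nat_lit 9) (.e (nat_lit 336389) (nat_lit 27) (.e (nat_lit 426343) (nat_lit 14) (.e (nat_lit 491546) (nat_lit 9) (.e (nat_lit 336358) (nat_lit 25) (.e (nat_lit 417536) (nat_lit 6) .nil)))))) (.g (nat_lit 4) .nil .nil))))) (.nd (nat_lit 5) (.nd (nat_lit 6) 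
(.lf (nat_lit 285855) (.g (nat_lit 1829) (.e (nat_lit 286748) (nat_lit 9) (.e (nat_lit 336389) (nat_lit 27) (.e (nat_lit 426012) (nat_lit 0) (.e (nat_lit 7110) (nat_lit 380) (.e (nat_lit 164368) (nat_lit 247) (.e (nat_lit 16128) (nat_lit 225) (.e (nat_lit 1348) (nat_lit 102) .nil))))))) (.g (nat_lit 4) .nil .nil))) 
(.lf (nat_lit 285919) (.g (nat_lit 1324) (.e (nat_lit 286748) (nat_lit 9) (.e (nat_lit 336389) (nat_lit 27) (.e (nat_lit 426315) (nat_lit 12) (.e (nat_lit 475216) (nat_lit 44) .nil)))) .nil))) (.nd (nat_lit 6) 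
(.lf (nat_lit 285887) (.g (nat_lit 1678) (.e (nat_lit 286748) (nat_lit 9) (.e (nat_lit 336389) (nat_lit 27) (.e (nat_lit 426190) (nat_lit 9) (.e (nat_lit 426355) (nat_lit 15) (.e (nat_lit 2242) (nat_lit 147) .nil))))) .nil)) 
(.lf (nat_lit 285951) (.g (nat_lit 472) (.e (nat_lit 286748) (nat_lit 9) (.e (nat_lit 336389) (nat_lit 27) (.e (nat_lit 426344) (nat_lit 14) .nil))) .nil)))))))))

noncomputable def tv3628 : DT := (.nd (nat_lit 0) (.nd (nat_lit 1) (.nd (nat_lit 2) (.nd (nat_lit 3) (.nd (nat_lit 4) (.nd (nat_lit 5) (.nd (nat_lit 6) 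
(.lf (nat_lit 285952) (.g (nat_lit 2133) (.e (nat_lit 286748) (nat_lit 9) (.e (nat_lit 336389) (nat_lit 27) (.e (nat_lit 426344) (nat_lit 14) (.e (nat_lit 491546) (nat_lit 9) (.e (nat_lit 336238) (nat_lit 15) .nil))))) .nil)) 
(.lf (nat_lit 286016) (.g (nat_lit 1351) (.e (nat_lit 286749) (nat_lit 9) (.e (nat_lit 336028) (nat_lit 3) (.e (nat_lit 98359) (nat_lit 26) (.e (nat_lit 426103) (nat_lit 1) .nil)))) .nil))) (.nd (nat_lit 6) 
(.lf (nat_lit 285984) (.g (nat_lit 410) (.e (nat_lit 286749) (nat_lit 9) (.e (nat_lit 335997) (nat_lit 1) (.e (nat_lit 57857) (nat_lit 254) .nil))) .nil)) 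
(.lf (nat_lit 286048) (.g (nat_lit 2338) (.e (nat_lit 286749) (nat_lit 9) (.e (nat_lit 336358) (nat_lit 25) (.e (nat_lit 409602) (nat_lit 0) (.e (nat_lit 5293) (nat_lit 298) (.e (nat_lit 1423) (nat_lit 108) .nil))))) .nil)))) (.nd (nat_lit 5) (.nd (nat_lit 6) 
(.lf (nat_lit 285968) (.g (nat_lit 1504) (.e (nat_lit 286749) (nat_lit 9) (.e (nat_lit 335997) (nat_lit 1) (.e (nat_lit 57680) (nat_lit 155) (.e (nat_lit 122914) (nat_lit 14) (.e (nat_lit 352271) (nat_lit 9) (.e (nat_lit 417536) (nat_lit 6) .nil)))))) (.g (nat_lit 4) .nil .nil))) 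
(.lf (nat_lit 286032) (.g (nat_lit 2481) (.e (nat_lit 286749) (nat_lit 9) (.e (nat_lit 336028) (nat_lit 3) (.e (nat_lit 98367) (nat_lit 27) (.e (nat_lit 434209) (nat_lit 18) (.e (nat_lit 5223) (nat_lit 296) .nil))))) .nil))) (.nd (nat_lit 6) 
(.lf (nat_lit 286000) (.g (nat_lit 1829) (.e (nat_lit 286749) (nat_lit 9) (.e (nat_lit 336013) (nat_lit 2) (.e (nat_lit 90170) (nat_lit 13) (.e (nat_lit 172059) (nat_lit 1) .nil)))) .nil)) 
(.lf (nat_lit 286064) (.g (nat_lit 1697) (.e (nat_lit 286751) (nat_lit 10) (.e (nat_lit 344117) (nat_lit 21) (.e (nat_lit 516097) (nat_lit 0) (.e (nat_lit 7593) (nat_lit 407) (.e (nat_lit 73744) (nat_lit 2) .nil))))) .nil))))) (.nd (nat_lit 4) (.nd (nat_lit 5) (.nd (nat_lit 6) 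
(.lf (nat_lit 285960) (.g (nat_lit 2029) (.e (nat_lit 286748) (nat_lit 9) (.e (nat_lit 336389) (nat_lit 27) (.e (nat_lit 426344) (nat_lit 14) (.e (nat_lit 491556) (nat_lit 9) (.e (nat_lit 343808) (nat_lit 15) .nil))))) .nil)) 
(.lf (nat_lit 286024) (.g (nat_lit 1973) (.e (nat_lit 286749) (nat_lit 9) (.e (nat_lit 336028) (nat_lit 3) (.e (nat_lit 98366) (nat_lit 27) (.e (nat_lit 434275) (nat_lit 39) (.e (nat_lit 663584) (nat_lit 12) .nil))))) .nil))) (.nd (nat_lit 6) 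
(.lf (nat_lit 285992) (.g (nat_lit 1760) (.e (nat_lit 286749) (nat_lit 9) (.e (nat_lit 336013) (nat_lit 2) (.e (nat_lit 90165) (nat_lit 12) (.e (nat_lit 164208) (nat_lit 176) .nil)))) .nil)) 
(.lf (nat_lit 286056) (.g (nat_lit 1606) (.e (nat_lit 294656) (nat_lit 9) (.e (nat_lit 336443) (nat_lit 32) (.e (nat_lit 466972) (nat_lit 21) (.e (nat_lit 164402) (nat_lit 256) .nil)))) .nil)))) (.nd (nat_lit 5) (.nd (nat_lit 6) 
(.lf (nat_lit 285976) (.g (nat_lit 2138) (.e (nat_lit 286749) (nat_lit 9) (.e (nat_lit 335997) (nat_lit 1) (.e (nat_lit 57683) (nat_lit 155) (.e (nat_lit 122916) (nat_lit 14) (.e (nat_lit 352263) (nat_lit 0) .nil))))) .nil)) 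
(.lf (nat_lit 286040) (.g (nat_lit 2986) (.e (nat_lit 286749) (nat_lit 9) (.e (nat_lit 336028) (nat_lit 3) (.e (nat_lit 98367) (nat_lit 27) (.e (nat_lit 434275) (nat_lit 39) (.e (nat_lit 663584) (nat_lit 12) (.e (nat_lit 163979) (nat_lit 30) (.e (nat_lit 573503) (nat_lit 18) (.e (nat_lit 7936) (nat_lit 102) .nil)))))))) (.g (nat_lit 4) .nil .nil)))) (.nd (nat_lit 6) 
(.lf (nat_lit 286008) (.g (nat_lit 893) (.e (nat_lit 286749) (nat_lit 9) (.e (nat_lit 336028) (nat_lit 3) (.e (nat_lit 98319) (nat_lit 17) .nil))) .nil)) 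
(.lf (nat_lit 286072) (.g (nat_lit 2267) (.e (nat_lit 286751) (nat_lit 10) (.e (nat_lit 344117) (nat_lit 21) (.e (nat_lit 516160) (nat_lit 10) (.e (nat_lit 434209) (nat_lit 18) .nil)))) .nil)))))) (.nd (nat_lit 3) (.nd (nat_lit 4) (.nd (nat_lit 5) (.nd (nat_lit 6) 
(.lf (nat_lit 285956) (.g (nat_lit 1133) (.e (nat_lit 286748) (nat_lit 9) (.e (nat_lit 336389) (nat_lit 27) (.e (nat_lit 426344) (nat_lit 14) (.e (nat_lit 491556) (nat_lit 9) .nil)))) .nil)) 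
(.lf (nat_lit 286020) (.g (nat_lit 2052) (.e (nat_lit 286749) (nat_lit 9) (.e (nat_lit 336028) (nat_lit 3) (.e (nat_lit 98366) (nat_lit 27) (.e (nat_lit 434209) (nat_lit 18) (.e (nat_lit 5223) (nat_lit 296) .nil))))) .nil))) (.nd (nat_lit 6) 
(.lf (nat_lit 285988) (.g (nat_lit 1968) (.e (nat_lit 286749) (nat_lit 9) (.e (nat_lit 336013) (nat_lit 2) (.e (nat_lit 90134) (nat_lit 9) (.e (nat_lit 2978) (nat_lit 185) .nil)))) .nil)) 
(.lf (nat_lit 286052) (.g (nat_lit 610) (.e (nat_lit 286749) (nat_lit 9) (.e (nat_lit 336389) (nat_lit 27) (.e (nat_lit 426265) (nat_lit 9) .nil))) .nil)))) (.nd (nat_lit 5) (.nd (nat_lit 6) 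
(.lf (nat_lit 285972) (.g (nat_lit 2368) (.e (nat_lit 286749) (nat_lit 9) (.e (nat_lit 335997) (nat_lit 1) (.e (nat_lit 57681) (nat_lit 155) (.e (nat_lit 122916) (nat_lit 14) (.e (nat_lit 352263) (nat_lit 0) .nil))))) .nil)) 
(.lf (nat_lit 286036) (.g (nat_lit 4767) (.e (nat_lit 286749) (nat_lit 9) (.e (nat_lit 336028) (nat_lit 3) (.e (nat_lit 98367) (nat_lit 27) (.e (nat_lit 434275) (nat_lit 39) (.e (nat_lit 663584) (nat_lit 12) (.e (nat_lit 163976) (nat_lit 30) (.e (nat_lit 573503) (nat_lit 18) (.e (nat_lit 1359) (nat_lit 102) .nil)))))))) (.g (nat_lit 7) .nil .nil)))) (.nd (nat_lit 6) 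
(.lf (nat_lit 286004) (.g (nat_lit 2180) (.e (nat_lit 286749) (nat_lit 9) (.e (nat_lit 336013) (nat_lit 2) (.e (nat_lit 90170) (nat_lit 13) (.e (nat_lit 172061) (nat_lit 1) .nil)))) .nil)) 
(.lf (nat_lit 286068) (.g (nat_lit 2873) (.e (nat_lit 286751) (nat_lit 10) (.e (nat_lit 344117) (nat_lit 21) (.e (nat_lit 516151) (nat_lit 9) (.e (nat_lit 426097) (nat_lit 1) .nil)))) .nil))))) (.nd (nat_lit 4) (.nd (nat_lit 5) (.nd (nat_lit 6) 
(.lf (nat_lit 285964) (.g (nat_lit 2354) (.e (nat_lit 286748) (nat_lit 9) (.e (nat_lit 336389) (nat_lit 27) (.e (nat_lit 426344) (nat_lit 14) (.e (nat_lit 491572) (nat_lit 14) (.e (nat_lit 409344) (nat_lit 25) .nil))))) .nil)) 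
(.lf (nat_lit 286028) (.g (nat_lit 2601) (.e (nat_lit 286749) (nat_lit 9) (.e (nat_lit 336028) (nat_lit 3) (.e (nat_lit 98366) (nat_lit 27) (.e (nat_lit 434275) (nat_lit 39) (.e (nat_lit 663584) (nat_lit 12) (.e (nat_lit 163979) (nat_lit 30) (.e (nat_lit 573503) (nat_lit 18) (.e (nat_lit 7936) (nat_lit 102) .nil)))))))) (.g (nat_lit 4) .nil .nil)))) (.nd (nat_lit 6) 
(.lf (nat_lit 285996) (.g (nat_lit 1374) (.e (nat_lit 286749) (nat_lit 9) (.e (nat_lit 336013) (nat_lit 2) (.e (nat_lit 90165) (nat_lit 12) (.e (nat_lit 171776) (nat_lit 191) .nil)))) .nil)) 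
(.lf (nat_lit 286060) (.g (nat_lit 1693) (.e (nat_lit 286751) (nat_lit 10) (.e (nat_lit 344096) (nat_lit 18) (.e (nat_lit 7125) (nat_lit 382) (.e (nat_lit 1224) (nat_lit 90) (.e (nat_lit 89856) (nat_lit 10) .nil))))) .nil)))) (.nd (nat_lit 5) (.nd (nat_lit 6) 
(.lf (nat_lit 285980) (.g (nat_lit 310) (.e (nat_lit 286749) (nat_lit 9) (.e (nat_lit 335997) (nat_lit 1) (.e (nat_lit 57848) (nat_lit 252) .nil))) .nil)) 
(.lf (nat_lit 286044) (.g (nat_lit 3019) (.e (nat_lit 286749) (nat_lit 9) (.e (nat_lit 336028) (nat_lit 3) (.e (nat_lit 98388) (nat_lit 33) (.e (nat_lit 491560) (nat_lit 10) (.e (nat_lit 344115) (nat_lit 20) (.e (nat_lit 507923) (nat_lit 6) .nil)))))) (.g (nat_lit 4) .nil .nil)))) (.nd (nat_lit 6) 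
(.lf (nat_lit 286012) (.g (nat_lit 2686) (.e (nat_lit 286749) (nat_lit 9) (.e (nat_lit 336028) (nat_lit 3) (.e (nat_lit 98350) (nat_lit 24) (.e (nat_lit 409617) (nat_lit 10) (.e (nat_lit 7936) (nat_lit 301) .nil))))) .nil)) 
(.lf (nat_lit 286076) (.g (nat_lit 1329) (.e (nat_lit 286751) (nat_lit 10) (.e (nat_lit 344117) (nat_lit 21) (.e (nat_lit 516185) (nat_lit 16) (.e (nat_lit 491560) (nat_lit 10) .nil)))) .nil))))))) (.nd (nat_lit 2) (.nd (nat_lit 3) (.nd (nat_lit 4) (.nd (nat_lit 5) (.nd (nat_lit 6) 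
(.lf (nat_lit 285954) (.g (nat_lit 1257) (.e (nat_lit 286748) (nat_lit 9) (.e (nat_lit 336389) (nat_lit 27) (.e (nat_lit 426344) (nat_lit 14) (.e (nat_lit 491552) (nat_lit 9) .nil)))) .nil)) 
(.lf (nat_lit 286018) (.g (nat_lit 893) (.e (nat_lit 286749) (nat_lit 9) (.e (nat_lit 336028) (nat_lit 3) (.e (nat_lit 98365) (nat_lit 26) .nil))) .nil))) (.nd (nat_lit 6) 
(.lf (nat_lit 285986) (.g (nat_lit 2443) (.e (nat_lit 286749) (nat_lit 9) (.e (nat_lit 335997) (nat_lit 1) (.e (nat_lit 57857) (nat_lit 254) (.e (nat_lit 163908) (nat_lit 12) (.e (nat_lit 426171) (nat_lit 7) (.e (nat_lit 409639) (nat_lit 15) (.e (nat_lit 278567) (nat_lit 16) .nil))))))) (.g (nat_lit 5) .nil .nil))) 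
(.lf (nat_lit 286050) (.g (nat_lit 1275) (.e (nat_lit 286749) (nat_lit 9) (.e (nat_lit 336358) (nat_lit 25) (.e (nat_lit 409602) (nat_lit 0) (.e (nat_lit 5425) (nat_lit 305) (.e (nat_lit 139008) (nat_lit 25) (.e (nat_lit 417536) (nat_lit 6) .nil)))))) (.g (nat_lit 4) .nil .nil))))) (.nd (nat_lit 5) (.nd (nat_lit 6) 
(.lf (nat_lit 285970) (.g (nat_lit 1749) (.e (nat_lit 286749) (nat_lit 9) (.e (nat_lit 335997) (nat_lit 1) (.e (nat_lit 57680) (nat_lit 155) (.e (nat_lit 122916) (nat_lit 14) (.e (nat_lit 352271) (nat_lit 9) .nil))))) .nil)) 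
(.lf (nat_lit 286034) (.g (nat_lit 1744) (.e (nat_lit 286749) (nat_lit 9) (.e (nat_lit 336028) (nat_lit 3) (.e (nat_lit 98367) (nat_lit 27) (.e (nat_lit 434275) (nat_lit 39) .nil)))) .nil))) (.nd (nat_lit 6) 
(.lf (nat_lit 286002) (.g (nat_lit 2801) (.e (nat_lit 286749) (nat_lit 9) (.e (nat_lit 336013) (nat_lit 2) (.e (nat_lit 90170) (nat_lit 13) (.e (nat_lit 172059) (nat_lit 1) (.e (nat_lit 164327) (nat_lit 230) (.e (nat_lit 163868) (nat_lit 2) (.e (nat_lit 196694) (nat_lit 18) (.e (nat_lit 7936) (nat_lit 102) .nil)))))))) (.g (nat_lit 5) .nil .nil))) 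
(.lf (nat_lit 286066) (.g (nat_lit 1153) (.e (nat_lit 286751) (nat_lit 10) (.e (nat_lit 344117) (nat_lit 21) (.e (nat_lit 516098) (nat_lit 0) (.e (nat_lit 7593) (nat_lit 407) .nil)))) .nil))))) (.nd (nat_lit 4) (.nd (nat_lit 5) (.nd (nat_lit 6) 
(.lf (nat_lit 285962) (.g (nat_lit 2295) (.e (nat_lit 286748) (nat_lit 9) (.e (nat_lit 336389) (nat_lit 27) (.e (nat_lit 426344) (nat_lit 14) (.e (nat_lit 491556) (nat_lit 9) (.e (nat_lit 343808) (nat_lit 25) (.e (nat_lit 417536) (nat_lit 6) .nil)))))) (.g (nat_lit 4) .nil .nil))) 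
(.lf (nat_lit 286026) (.g (nat_lit 3185) (.e (nat_lit 286749) (nat_lit 9) (.e (nat_lit 336028) (nat_lit 3) (.e (nat_lit 98366) (nat_lit 27) (.e (nat_lit 434275) (nat_lit 39) (.e (nat_lit 663584) (nat_lit 12) (.e (nat_lit 163976) (nat_lit 30) (.e (nat_lit 573504) (nat_lit 18) (.e (nat_lit 7936) (nat_lit 102) .nil)))))))) (.g (nat_lit 5) .nil .nil)))) (.nd (nat_lit 6) 
(.lf (nat_lit 285994) (.g (nat_lit 1633) (.e (nat_lit 286749) (nat_lit 9) (.e (nat_lit 336013) (nat_lit 2) (.e (nat_lit 90165) (nat_lit 12) (.e (nat_lit 164236) (nat_lit 187) .nil)))) .nil)) 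
(.lf (nat_lit 286058) (.g (nat_lit 546) (.e (nat_lit 286751) (nat_lit 10) (.e (nat_lit 344096) (nat_lit 18) (.e (nat_lit 7122) (nat_lit 382) .nil))) .nil)))) (.nd (nat_lit 5) (.nd (nat_lit 6) 
(.lf (nat_lit 285978) (.g (nat_lit 2174) (.e (nat_lit 286749) (nat_lit 9) (.e (nat_lit 335997) (nat_lit 1) (.e (nat_lit 57847) (nat_lit 252) (.e (nat_lit 57365) (nat_lit 1) (.e (nat_lit 57852) (nat_lit 252) .nil))))) .nil)) 
(.lf (nat_lit 286042) (.g (nat_lit 1369) (.e (nat_lit 286749) (nat_lit 9) (.e (nat_lit 336028) (nat_lit 3) (.e (nat_lit 98368) (nat_lit 27) (.e (nat_lit 434276) (nat_lit 39) .nil)))) .nil))) (.nd (nat_lit 6) 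
(.lf (nat_lit 286010) (.g (nat_lit 1324) (.e (nat_lit 286749) (nat_lit 9) (.e (nat_lit 336028) (nat_lit 3) (.e (nat_lit 98325) (nat_lit 17) (.e (nat_lit 7936) (nat_lit 407) (.e (nat_lit 73743) (nat_lit 1) (.e (nat_lit 499767) (nat_lit 0) (.e (nat_lit 7936) (nat_lit 102) .nil))))))) (.g (nat_lit 6) .nil .nil))) 
(.lf (nat_lit 286074) (.g (nat_lit 1636) (.e (nat_lit 286751) (nat_lit 10) (.e (nat_lit 344117) (nat_lit 21) (.e (nat_lit 516185) (nat_lit 16) (.e (nat_lit 491546) (nat_lit 9) .nil)))) .nil)))))) (.nd (nat_lit 3) (.nd (nat_lit 4) (.nd (nat_lit 5) (.nd (nat_lit 6) 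
(.lf (nat_lit 285958) (.g (nat_lit 2768) (.e (nat_lit 286748) (nat_lit 9) (.e (nat_lit 336389) (nat_lit 27) (.e (nat_lit 426344) (nat_lit 14) (.e (nat_lit 491556) (nat_lit 9) (.e (nat_lit 336300) (nat_lit 15) (.e (nat_lit 7936) (nat_lit 377) (.e (nat_lit 1348) (nat_lit 102) .nil))))))) (.g (nat_lit 4) .nil .nil))) 
(.lf (nat_lit 286022) (.g (nat_lit 3843) (.e (nat_lit 286749) (nat_lit 9) (.e (nat_lit 336028) (nat_lit 3) (.e (nat_lit 98366) (nat_lit 27) (.e (nat_lit 434209) (nat_lit 18) (.e (nat_lit 5224) (nat_lit 296) (.e (nat_lit 163868) (nat_lit 2) (.e (nat_lit 196691) (nat_lit 18) (.e (nat_lit 1359) (nat_lit 102) .nil)))))))) (.g (nat_lit 6) .nil .nil)))) (.nd (nat_lit 6) 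
(.lf (nat_lit 285990) (.g (nat_lit 1362) (.e (nat_lit 286749) (nat_lit 9) (.e (nat_lit 336013) (nat_lit 2) (.e (nat_lit 90154) (nat_lit 10) .nil))) .nil)) 
(.lf (nat_lit 286054) (.g (nat_lit 1158) (.e (nat_lit 286750) (nat_lit 9) (.e (nat_lit 336021) (nat_lit 3) (.e (nat_lit 98389) (nat_lit 33) .nil))) .nil)))) (.nd (nat_lit 5) (.nd (nat_lit 6) 
(.lf (nat_lit 285974) (.g (nat_lit 2968) (.e (nat_lit 286749) (nat_lit 9) (.e (nat_lit 335997) (nat_lit 1) (.e (nat_lit 57681) (nat_lit 155) (.e (nat_lit 122916) (nat_lit 14) (.e (nat_lit 352272) (nat_lit 10) (.e (nat_lit 417811) (nat_lit 6) .nil)))))) (.g (nat_lit 4) .nil .nil))) 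
(.lf (nat_lit 286038) (.g (nat_lit 3547) (.e (nat_lit 286749) (nat_lit 9) (.e (nat_lit 336028) (nat_lit 3) (.e (nat_lit 98367) (nat_lit 27) (.e (nat_lit 434275) (nat_lit 39) (.e (nat_lit 663584) (nat_lit 12) (.e (nat_lit 163979) (nat_lit 30) (.e (nat_lit 573503) (nat_lit 18) (.e (nat_lit 1358) (nat_lit 102) .nil)))))))) (.g (nat_lit 5) .nil .nil)))) (.nd (nat_lit 6) 
(.lf (nat_lit 286006) (.g (nat_lit 2902) (.e (nat_lit 286749) (nat_lit 9) (.e (nat_lit 336013) (nat_lit 2) (.e (nat_lit 90170) (nat_lit 13) (.e (nat_lit 172061) (nat_lit 1) (.e (nat_lit 164327) (nat_lit 230) (.e (nat_lit 163868) (nat_lit 2) (.e (nat_lit 196694) (nat_lit 18) (.e (nat_lit 7936) (nat_lit 102) .nil)))))))) (.g (nat_lit 4) .nil .nil))) 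
(.lf (nat_lit 286070) (.g (nat_lit 2081) (.e (nat_lit 286751) (nat_lit 10) (.e (nat_lit 344117) (nat_lit 21) (.e (nat_lit 516159) (nat_lit 10) (.e (nat_lit 434275) (nat_lit 39) .nil)))) .nil))))) (.nd (nat_lit 4) (.nd (nat_lit 5) (.nd (nat_lit 6) 
(.lf (nat_lit 285966) (.g (nat_lit 1789) (.e (nat_lit 286749) (nat_lit 9) (.e (nat_lit 335997) (nat_lit 1) (.e (nat_lit 57660) (nat_lit 152) (.e (nat_lit 977) (nat_lit 81) (.e (nat_lit 1574) (nat_lit 110) (.e (nat_lit 352271) (nat_lit 9) (.e (nat_lit 417536) (nat_lit 6) .nil))))))) (.g (nat_lit 5) .nil .nil))) 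
(.lf (nat_lit 286030) (.g (nat_lit 1566) (.e (nat_lit 286749) (nat_lit 9) (.e (nat_lit 336028) (nat_lit 3) (.e (nat_lit 98366) (nat_lit 27) (.e (nat_lit 434276) (nat_lit 39) .nil)))) .nil))) (.nd (nat_lit 6) 
(.lf (nat_lit 285998) (.g (nat_lit 2343) (.e (nat_lit 286749) (nat_lit 9) (.e (nat_lit 336013) (nat_lit 2) (.e (nat_lit 90170) (nat_lit 13) (.e (nat_lit 172042) (nat_lit 0) .nil)))) .nil)) 
(.lf (nat_lit 286062) (.g (nat_lit 2318) (.e (nat_lit 286751) (nat_lit 10) (.e (nat_lit 344097) (nat_lit 18) (.e (nat_lit 5907) (nat_lit 320) (.e (nat_lit 1181) (nat_lit 87) (.e (nat_lit 57520) (nat_lit 44) (.e (nat_lit 688177) (nat_lit 16) (.e (nat_lit 65583) (nat_lit 7) (.e (nat_lit 319530) (nat_lit 16) .nil)))))))) (.g (nat_lit 4) .nil .nil))))) (.nd (nat_lit 5) (.nd (nat_lit 6) 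
(.lf (nat_lit 285982) (.g (nat_lit 1441) (.e (nat_lit 286749) (nat_lit 9) (.e (nat_lit 335997) (nat_lit 1) (.e (nat_lit 57852) (nat_lit 252) (.e (nat_lit 65280) (nat_lit 65) .nil)))) .nil)) 
(.lf (nat_lit 286046) (.g (nat_lit 2114) (.e (nat_lit 286749) (nat_lit 9) (.e (nat_lit 336028) (nat_lit 3) (.e (nat_lit 98389) (nat_lit 33) (.e (nat_lit 491560) (nat_lit 10) (.e (nat_lit 344114) (nat_lit 20) .nil))))) .nil))) (.nd (nat_lit 6) 
(.lf (nat_lit 286014) (.g (nat_lit 524) (.e (nat_lit 286749) (nat_lit 9) (.e (nat_lit 336028) (nat_lit 3) (.e (nat_lit 98359) (nat_lit 26) .nil))) .nil)) 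
(.lf (nat_lit 286078) (.g (nat_lit 655) (.e (nat_lit 286751) (nat_lit 10) (.e (nat_lit 344129) (nat_lit 26) (.e (nat_lit 557066) (nat_lit 9) .nil))) .nil)))))))) (.nd (nat_lit 1) (.nd (nat_lit 2) (.nd (nat_lit 3) (.nd (nat_lit 4) (.nd (nat_lit 5) (.nd (nat_lit 6) 
(.lf (nat_lit 285953) (.g (nat_lit 1452) (.e (nat_lit 286748) (nat_lit 9) (.e (nat_lit 336389) (nat_lit 27) (.e (nat_lit 426344) (nat_lit 14) (.e (nat_lit 491547) (nat_lit 9) (.e (nat_lit 336242) (nat_lit 15) .nil))))) .nil)) 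
(.lf (nat_lit 286017) (.g (nat_lit 1248) (.e (nat_lit 286749) (nat_lit 9) (.e (nat_lit 336028) (nat_lit 3) (.e (nat_lit 98359) (nat_lit 26) (.e (nat_lit 426104) (nat_lit 1) .nil)))) .nil))) (.nd (nat_lit 6) 
(.lf (nat_lit 285985) (.g (nat_lit 2095) (.e (nat_lit 286749) (nat_lit 9) (.e (nat_lit 335997) (nat_lit 1) (.e (nat_lit 57857) (nat_lit 254) (.e (nat_lit 163908) (nat_lit 12) (.e (nat_lit 426171) (nat_lit 7) (.e (nat_lit 409638) (nat_lit 15) (.e (nat_lit 278567) (nat_lit 16) .nil))))))) (.g (nat_lit 5) .nil .nil))) 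
(.lf (nat_lit 286049) (.g (nat_lit 2506) (.e (nat_lit 286749) (nat_lit 9) (.e (nat_lit 336358) (nat_lit 25) (.e (nat_lit 409602) (nat_lit 0) (.e (nat_lit 5293) (nat_lit 298) (.e (nat_lit 1423) (nat_lit 108) (.e (nat_lit 336365) (nat_lit 26) (.e (nat_lit 417811) (nat_lit 6) .nil))))))) (.g (nat_lit 4) .nil .nil))))) (.nd (nat_lit 5) (.nd (nat_lit 6) 
(.lf (nat_lit 285969) (.g (nat_lit 1755) (.e (nat_lit 286749) (nat_lit 9) (.e (nat_lit 335997) (nat_lit 1) (.e (nat_lit 57680) (nat_lit 155) (.e (nat_lit 122916) (nat_lit 14) (.e (nat_lit 352263) (nat_lit 0) .nil))))) .nil)) 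
(.lf (nat_lit 286033) (.g (nat_lit 2430) (.e (nat_lit 286749) (nat_lit 9) (.e (nat_lit 336028) (nat_lit 3) (.e (nat_lit 98367) (nat_lit 27) (.e (nat_lit 434209) (nat_lit 18) (.e (nat_lit 5224) (nat_lit 296) .nil))))) .nil))) (.nd (nat_lit 6) 
(.lf (nat_lit 286001) (.g (nat_lit 3234) (.e (nat_lit 286749) (nat_lit 9) (.e (nat_lit 336013) (nat_lit 2) (.e (nat_lit 90170) (nat_lit 13) (.e (nat_lit 172059) (nat_lit 1) (.e (nat_lit 164327) (nat_lit 230) (.e (nat_lit 163868) (nat_lit 2) (.e (nat_lit 196690) (nat_lit 18) (.e (nat_lit 1359) (nat_lit 102) .nil)))))))) (.g (nat_lit 5) .nil .nil))) 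
(.lf (nat_lit 286065) (.g (nat_lit 1250) (.e (nat_lit 286751) (nat_lit 10) (.e (nat_lit 344117) (nat_lit 21) (.e (nat_lit 516098) (nat_lit 0) (.e (nat_lit 7591) (nat_lit 407) .nil)))) .nil))))) (.nd (nat_lit 4) (.nd (nat_lit 5) (.nd (nat_lit 6) 
(.lf (nat_lit 285961) (.g (nat_lit 2509) (.e (nat_lit 286748) (nat_lit 9) (.e (nat_lit 336389) (nat_lit 27) (.e (nat_lit 426344) (nat_lit 14) (.e (nat_lit 491556) (nat_lit 9) (.e (nat_lit 343808) (nat_lit 15) (.e (nat_lit 7064) (nat_lit 377) (.e (nat_lit 1349) (nat_lit 102) .nil))))))) (.g (nat_lit 4) .nil .nil))) 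
(.lf (nat_lit 286025) (.g (nat_lit 3514) (.e (nat_lit 286749) (nat_lit 9) (.e (nat_lit 336028) (nat_lit 3) (.e (nat_lit 98366) (nat_lit 27) (.e (nat_lit 434275) (nat_lit 39) (.e (nat_lit 663584) (nat_lit 12) (.e (nat_lit 163976) (nat_lit 30) (.e (nat_lit 573500) (nat_lit 18) (.e (nat_lit 7936) (nat_lit 102) .nil)))))))) (.g (nat_lit 6) .nil .nil)))) (.nd (nat_lit 6) 
(.lf (nat_lit 285993) (.g (nat_lit 1855) (.e (nat_lit 286749) (nat_lit 9) (.e (nat_lit 336013) (nat_lit 2) (.e (nat_lit 90165) (nat_lit 12) (.e (nat_lit 164210) (nat_lit 176) .nil)))) .nil)) 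
(.lf (nat_lit 286057) (.g (nat_lit 1587) (.e (nat_lit 294656) (nat_lit 9) (.e (nat_lit 336443) (nat_lit 32) (.e (nat_lit 466972) (nat_lit 21) (.e (nat_lit 164403) (nat_lit 256) .nil)))) .nil)))) (.nd (nat_lit 5) (.nd (nat_lit 6) 
(.lf (nat_lit 285977) (.g (nat_lit 2063) (.e (nat_lit 286749) (nat_lit 9) (.e (nat_lit 335997) (nat_lit 1) (.e (nat_lit 57684) (nat_lit 155) (.e (nat_lit 122914) (nat_lit 14) (.e (nat_lit 352271) (nat_lit 9) (.e (nat_lit 417536) (nat_lit 6) .nil)))))) (.g (nat_lit 5) .nil .nil))) 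
(.lf (nat_lit 286041) (.g (nat_lit 4179) (.e (nat_lit 286749) (nat_lit 9) (.e (nat_lit 336028) (nat_lit 3) (.e (nat_lit 98367) (nat_lit 27) (.e (nat_lit 434275) (nat_lit 39) (.e (nat_lit 663585) (nat_lit 12) (.e (nat_lit 163977) (nat_lit 30) (.e (nat_lit 573503) (nat_lit 18) (.e (nat_lit 1359) (nat_lit 102) .nil)))))))) (.g (nat_lit 6) .nil .nil)))) (.nd (nat_lit 6) 
(.lf (nat_lit 286009) (.g (nat_lit 390) (.e (nat_lit 286749) (nat_lit 9) (.e (nat_lit 336028) (nat_lit 3) (.e (nat_lit 98325) (nat_lit 17) .nil))) .nil)) 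
(.lf (nat_lit 286073) (.g (nat_lit 2504) (.e (nat_lit 286751) (nat_lit 10) (.e (nat_lit 344117) (nat_lit 21) (.e (nat_lit 516160) (nat_lit 10) (.e (nat_lit 434275) (nat_lit 39) .nil)))) .nil)))))) (.nd (nat_lit 3) (.nd (nat_lit 4) (.nd (nat_lit 5) (.nd (nat_lit 6) 
(.lf (nat_lit 285957) (.g (nat_lit 2419) (.e (nat_lit 286748) (nat_lit 9) (.e (nat_lit 336389) (nat_lit 27) (.e (nat_lit 426344) (nat_lit 14) (.e (nat_lit 491556) (nat_lit 9) (.e (nat_lit 336237) (nat_lit 15) .nil))))) .nil)) 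
(.lf (nat_lit 286021) (.g (nat_lit 2054) (.e (nat_lit 286749) (nat_lit 9) (.e (nat_lit 336028) (nat_lit 3) (.e (nat_lit 98366) (nat_lit 27) (.e (nat_lit 434209) (nat_lit 18) (.e (nat_lit 5224) (nat_lit 296) .nil))))) .nil))) (.nd (nat_lit 6) 
(.lf (nat_lit 285989) (.g (nat_lit 1744) (.e (nat_lit 286749) (nat_lit 9) (.e (nat_lit 336013) (nat_lit 2) (.e (nat_lit 90153) (nat_lit 10) (.e (nat_lit 16128) (nat_lit 241) .nil)))) .nil)) 
(.lf (nat_lit 286053) (.g (nat_lit 1285) (.e (nat_lit 286750) (nat_lit 9) (.e (nat_lit 336021) (nat_lit 3) (.e (nat_lit 98388) (nat_lit 33) .nil))) .nil)))) (.nd (nat_lit 5) (.nd (nat_lit 6) 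
(.lf (nat_lit 285973) (.g (nat_lit 2362) (.e (nat_lit 286749) (nat_lit 9) (.e (nat_lit 335997) (nat_lit 1) (.e (nat_lit 57681) (nat_lit 155) (.e (nat_lit 122916) (nat_lit 14) (.e (nat_lit 352271) (nat_lit 9) .nil))))) .nil)) 
(.lf (nat_lit 286037) (.g (nat_lit 3554) (.e (nat_lit 286749) (nat_lit 9) (.e (nat_lit 336028) (nat_lit 3) (.e (nat_lit 98367) (nat_lit 27) (.e (nat_lit 434275) (nat_lit 39) (.e (nat_lit 663584) (nat_lit 12) (.e (nat_lit 163976) (nat_lit 30) (.e (nat_lit 573504) (nat_lit 18) (.e (nat_lit 7936) (nat_lit 102) .nil)))))))) (.g (nat_lit 5) .nil .nil)))) (.nd (nat_lit 6) 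
(.lf (nat_lit 286005) (.g (nat_lit 2810) (.e (nat_lit 286749) (nat_lit 9) (.e (nat_lit 336013) (nat_lit 2) (.e (nat_lit 90170) (nat_lit 13) (.e (nat_lit 172061) (nat_lit 1) (.e (nat_lit 164326) (nat_lit 230) (.e (nat_lit 163868) (nat_lit 2) (.e (nat_lit 196694) (nat_lit 18) (.e (nat_lit 7936) (nat_lit 102) .nil)))))))) (.g (nat_lit 4) .nil .nil))) 
(.lf (nat_lit 286069) (.g (nat_lit 958) (.e (nat_lit 286751) (nat_lit 10) (.e (nat_lit 344117) (nat_lit 21) (.e (nat_lit 516159) (nat_lit 10) .nil))) .nil))))) (.nd (nat_lit 4) (.nd (nat_lit 5) (.nd (nat_lit 6) 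
(.lf (nat_lit 285965) (.g (nat_lit 704) (.e (nat_lit 286748) (nat_lit 9) (.e (nat_lit 336389) (nat_lit 27) (.e (nat_lit 426521) (nat_lit 27) .nil))) .nil)) 
(.lf (nat_lit 286029) (.g (nat_lit 3706) (.e (nat_lit 286749) (nat_lit 9) (.e (nat_lit 336028) (nat_lit 3) (.e (nat_lit 98366) (nat_lit 27) (.e (nat_lit 434275) (nat_lit 39) (.e (nat_lit 663585) (nat_lit 12) (.e (nat_lit 163977) (nat_lit 30) (.e (nat_lit 573503) (nat_lit 18) (.e (nat_lit 1359) (nat_lit 102) .nil)))))))) (.g (nat_lit 6) .nil .nil)))) (.nd (nat_lit 6) 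
(.lf (nat_lit 285997) (.g (nat_lit 1374) (.e (nat_lit 286749) (nat_lit 9) (.e (nat_lit 336013) (nat_lit 2) (.e (nat_lit 90165) (nat_lit 12) (.e (nat_lit 171776) (nat_lit 192) .nil)))) .nil)) 
(.lf (nat_lit 286061) (.g (nat_lit 1720) (.e (nat_lit 286751) (nat_lit 10) (.e (nat_lit 344097) (nat_lit 18) (.e (nat_lit 5907) (nat_lit 320) (.e (nat_lit 1172) (nat_lit 87) (.e (nat_lit 57521) (nat_lit 44) .nil))))) .nil)))) (.nd (nat_lit 5) (.nd (nat_lit 6) 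
(.lf (nat_lit 285981) (.g (nat_lit 743) (.e (nat_lit 286749) (nat_lit 9) (.e (nat_lit 335997) (nat_lit 1) (.e (nat_lit 57848) (nat_lit 252) (.e (nat_lit 57368) (nat_lit 1) .nil)))) .nil)) 
(.lf (nat_lit 286045) (.g (nat_lit 546) (.e (nat_lit 286749) (nat_lit 9) (.e (nat_lit 336028) (nat_lit 3) (.e (nat_lit 98389) (nat_lit 33) .nil))) .nil))) (.nd (nat_lit 6) 
(.lf (nat_lit 286013) (.g (nat_lit 2286) (.e (nat_lit 286749) (nat_lit 9) (.e (nat_lit 336028) (nat_lit 3) (.e (nat_lit 98350) (nat_lit 24) (.e (nat_lit 409649) (nat_lit 18) (.e (nat_lit 303111) (nat_lit 0) (.e (nat_lit 3205) (nat_lit 194) (.e (nat_lit 515840) (nat_lit 16) .nil))))))) (.g (nat_lit 4) .nil .nil))) 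
(.lf (nat_lit 286077) (.g (nat_lit 2657) (.e (nat_lit 286751) (nat_lit 10) (.e (nat_lit 344126) (nat_lit 25) (.e (nat_lit 548889) (nat_lit 9) (.e (nat_lit 65598) (nat_lit 9) (.e (nat_lit 336013) (nat_lit 2) .nil))))) .nil))))))) (.nd (nat_lit 2) (.nd (nat_lit 3) (.nd (nat_lit 4) (.nd (nat_lit 5) (.nd (nat_lit 6) 
(.lf (nat_lit 285955) (.g (nat_lit 1688) (.e (nat_lit 286748) (nat_lit 9) (.e (nat_lit 336389) (nat_lit 27) (.e (nat_lit 426344) (nat_lit 14) (.e (nat_lit 491552) (nat_lit 9) (.e (nat_lit 336248) (nat_lit 15) .nil))))) .nil)) 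
(.lf (nat_lit 286019) (.g (nat_lit 1819) (.e (nat_lit 286749) (nat_lit 9) (.e (nat_lit 336028) (nat_lit 3) (.e (nat_lit 98365) (nat_lit 26) (.e (nat_lit 426098) (nat_lit 1) .nil)))) .nil))) (.nd (nat_lit 6) 
(.lf (nat_lit 285987) (.g (nat_lit 802) (.e (nat_lit 286749) (nat_lit 9) (.e (nat_lit 336013) (nat_lit 2) (.e (nat_lit 98048) (nat_lit 2) .nil))) .nil)) 
(.lf (nat_lit 286051) (.g (nat_lit 2158) (.e (nat_lit 286749) (nat_lit 9) (.e (nat_lit 336358) (nat_lit 25) (.e (nat_lit 409603) (nat_lit 0) (.e (nat_lit 5293) (nat_lit 298) (.e (nat_lit 1423) (nat_lit 108) (.e (nat_lit 336365) (nat_lit 26) (.e (nat_lit 417811) (nat_lit 6) .nil))))))) (.g (nat_lit 4) .nil .nil))))) (.nd (nat_lit 5) (.nd (nat_lit 6) 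
(.lf (nat_lit 285971) (.g (nat_lit 2805) (.e (nat_lit 286749) (nat_lit 9) (.e (nat_lit 335997) (nat_lit 1) (.e (nat_lit 57681) (nat_lit 155) (.e (nat_lit 122914) (nat_lit 14) (.e (nat_lit 352271) (nat_lit 9) (.e (nat_lit 417536) (nat_lit 6) .nil)))))) (.g (nat_lit 5) .nil .nil))) 
(.lf (nat_lit 286035) (.g (nat_lit 3883) (.e (nat_lit 286749) (nat_lit 9) (.e (nat_lit 336028) (nat_lit 3) (.e (nat_lit 98367) (nat_lit 27) (.e (nat_lit 434275) (nat_lit 39) (.e (nat_lit 663584) (nat_lit 12) (.e (nat_lit 163976) (nat_lit 30) (.e (nat_lit 573500) (nat_lit 18) (.e (nat_lit 7936) (nat_lit 102) .nil)))))))) (.g (nat_lit 5) .nil .nil)))) (.nd (nat_lit 6) 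
(.lf (nat_lit 286003) (.g (nat_lit 2940) (.e (nat_lit 286749) (nat_lit 9) (.e (nat_lit 336013) (nat_lit 2) (.e (nat_lit 90170) (nat_lit 13) (.e (nat_lit 172060) (nat_lit 1) .nil)))) .nil)) 
(.lf (nat_lit 286067) (.g (nat_lit 853) (.e (nat_lit 286751) (nat_lit 10) (.e (nat_lit 344117) (nat_lit 21) (.e (nat_lit 516151) (nat_lit 9) .nil))) .nil))))) (.nd (nat_lit 4) (.nd (nat_lit 5) (.nd (nat_lit 6) 
(.lf (nat_lit 285963) (.g (nat_lit 3588) (.e (nat_lit 286748) (nat_lit 9) (.e (nat_lit 336389) (nat_lit 27) (.e (nat_lit 426344) (nat_lit 14) (.e (nat_lit 491563) (nat_lit 12) (.e (nat_lit 392960) (nat_lit 16) (.e (nat_lit 1349) (nat_lit 102) .nil)))))) (.g (nat_lit 4) .nil .nil))) 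
(.lf (nat_lit 286027) (.g (nat_lit 3162) (.e (nat_lit 286749) (nat_lit 9) (.e (nat_lit 336028) (nat_lit 3) (.e (nat_lit 98366) (nat_lit 27) (.e (nat_lit 434275) (nat_lit 39) (.e (nat_lit 663584) (nat_lit 12) (.e (nat_lit 163979) (nat_lit 30) (.e (nat_lit 573503) (nat_lit 18) (.e (nat_lit 1358) (nat_lit 102) .nil)))))))) (.g (nat_lit 5) .nil .nil)))) (.nd (nat_lit 6) 
(.lf (nat_lit 285995) (.g (nat_lit 1777) (.e (nat_lit 286749) (nat_lit 9) (.e (nat_lit 336013) (nat_lit 2) (.e (nat_lit 90165) (nat_lit 12) (.e (nat_lit 164237) (nat_lit 187) .nil)))) .nil)) 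
(.lf (nat_lit 286059) (.g (nat_lit 1728) (.e (nat_lit 286751) (nat_lit 10) (.e (nat_lit 344096) (nat_lit 18) (.e (nat_lit 7125) (nat_lit 382) (.e (nat_lit 1222) (nat_lit 90) (.e (nat_lit 89856) (nat_lit 10) .nil))))) .nil)))) (.nd (nat_lit 5) (.nd (nat_lit 6) 
(.lf (nat_lit 285979) (.g (nat_lit 2466) (.e (nat_lit 286749) (nat_lit 9) (.e (nat_lit 335997) (nat_lit 1) (.e (nat_lit 57847) (nat_lit 252) (.e (nat_lit 57365) (nat_lit 1) (.e (nat_lit 57852) (nat_lit 252) (.e (nat_lit 57404) (nat_lit 12) (.e (nat_lit 336060) (nat_lit 7) (.e (nat_lit 319534) (nat_lit 16) .nil)))))))) (.g (nat_lit 4) .nil .nil))) 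
(.lf (nat_lit 286043) (.g (nat_lit 708) (.e (nat_lit 286749) (nat_lit 9) (.e (nat_lit 336028) (nat_lit 3) (.e (nat_lit 98387) (nat_lit 33) .nil))) .nil))) (.nd (nat_lit 6) 
(.lf (nat_lit 286011) (.g (nat_lit 734) (.e (nat_lit 286749) (nat_lit 9) (.e (nat_lit 336028) (nat_lit 3) (.e (nat_lit 98349) (nat_lit 24) .nil))) .nil)) 
(.lf (nat_lit 286075) (.g (nat_lit 1947) (.e (nat_lit 286751) (nat_lit 10) (.e (nat_lit 344117) (nat_lit 21) (.e (nat_lit 516185) (nat_lit 16) (.e (nat_lit 491552) (nat_lit 9) .nil)))) .nil)))))) (.nd (nat_lit 3) (.nd (nat_lit 4) (.nd (nat_lit 5) (.nd (nat_lit 6) 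
(.lf (nat_lit 285959) (.g (nat_lit 2333) (.e (nat_lit 286748) (nat_lit 9) (.e (nat_lit 336389) (nat_lit 27) (.e (nat_lit 426344) (nat_lit 14) (.e (nat_lit 491556) (nat_lit 9) (.e (nat_lit 336300) (nat_lit 15) (.e (nat_lit 7936) (nat_lit 377) (.e (nat_lit 1349) (nat_lit 102) .nil))))))) (.g (nat_lit 4) .nil .nil))) 
(.lf (nat_lit 286023) (.g (nat_lit 1386) (.e (nat_lit 286749) (nat_lit 9) (.e (nat_lit 336028) (nat_lit 3) (.e (nat_lit 98366) (nat_lit 27) (.e (nat_lit 434275) (nat_lit 39) .nil)))) .nil))) (.nd (nat_lit 6) 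
(.lf (nat_lit 285991) (.g (nat_lit 470) (.e (nat_lit 286749) (nat_lit 9) (.e (nat_lit 336013) (nat_lit 2) (.e (nat_lit 90165) (nat_lit 12) .nil))) .nil)) 
(.lf (nat_lit 286055) (.g (nat_lit 1444) (.e (nat_lit 294656) (nat_lit 9) (.e (nat_lit 335988) (nat_lit 1) (.e (nat_lit 57854) (nat_lit 252) (.e (nat_lit 57364) (nat_lit 1) .nil)))) .nil)))) (.nd (nat_lit 5) (.nd (nat_lit 6) 
(.lf (nat_lit 285975) (.g (nat_lit 2056) (.e (nat_lit 286749) (nat_lit 9) (.e (nat_lit 335997) (nat_lit 1) (.e (nat_lit 57683) (nat_lit 155) (.e (nat_lit 122914) (nat_lit 14) (.e (nat_lit 352271) (nat_lit 9) (.e (nat_lit 417536) (nat_lit 6) .nil)))))) (.g (nat_lit 4) .nil .nil))) 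
(.lf (nat_lit 286039) (.g (nat_lit 5536) (.e (nat_lit 286749) (nat_lit 9) (.e (nat_lit 336028) (nat_lit 3) (.e (nat_lit 98367) (nat_lit 27) (.e (nat_lit 434275) (nat_lit 39) (.e (nat_lit 663584) (nat_lit 12) (.e (nat_lit 163979) (nat_lit 30) (.e (nat_lit 573503) (nat_lit 18) (.e (nat_lit 1359) (nat_lit 102) .nil)))))))) (.g (nat_lit 7) .nil .nil)))) (.nd (nat_lit 6) 
(.lf (nat_lit 286007) (.g (nat_lit 1362) (.e (nat_lit 286749) (nat_lit 9) (.e (nat_lit 336013) (nat_lit 2) (.e (nat_lit 90185) (nat_lit 17) .nil))) .nil)) 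
(.lf (nat_lit 286071) (.g (nat_lit 2627) (.e (nat_lit 286751) (nat_lit 10) (.e (nat_lit 344117) (nat_lit 21) (.e (nat_lit 516159) (nat_lit 10) (.e (nat_lit 434275) (nat_lit 39) (.e (nat_lit 663584) (nat_lit 12) .nil))))) .nil))))) (.nd (nat_lit 4) (.nd (nat_lit 5) (.nd (nat_lit 6) 
(.lf (nat_lit 285967) (.g (nat_lit 1479) (.e (nat_lit 286749) (nat_lit 9) (.e (nat_lit 335997) (nat_lit 1) (.e (nat_lit 57666) (nat_lit 152) (.e (nat_lit 1077) (nat_lit 81) (.e (nat_lit 1574) (nat_lit 110) .nil))))) .nil)) 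
(.lf (nat_lit 286031) (.g (nat_lit 822) (.e (nat_lit 286749) (nat_lit 9) (.e (nat_lit 336028) (nat_lit 3) (.e (nat_lit 98367) (nat_lit 27) .nil))) .nil))) (.nd (nat_lit 6) 
(.lf (nat_lit 285999) (.g (nat_lit 2112) (.e (nat_lit 286749) (nat_lit 9) (.e (nat_lit 336013) (nat_lit 2) (.e (nat_lit 90170) (nat_lit 13) (.e (nat_lit 172046) (nat_lit 0) .nil)))) .nil)) 
(.lf (nat_lit 286063) (.g (nat_lit 1547) (.e (nat_lit 286751) (nat_lit 10) (.e (nat_lit 344117) (nat_lit 21) (.e (nat_lit 516097) (nat_lit 0) (.e (nat_lit 7591) (nat_lit 407) .nil)))) .nil)))) (.nd (nat_lit 5) (.nd (nat_lit 6) 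
(.lf (nat_lit 285983) (.g (nat_lit 1654) (.e (nat_lit 286749) (nat_lit 9) (.e (nat_lit 335997) (nat_lit 1) (.e (nat_lit 57854) (nat_lit 252) (.e (nat_lit 57366) (nat_lit 1) (.e (nat_lit 57852) (nat_lit 252) .nil))))) .nil)) 
(.lf (nat_lit 286047) (.g (nat_lit 1130) (.e (nat_lit 286749) (nat_lit 9) (.e (nat_lit 336295) (nat_lit 15) (.e (nat_lit 3806) (nat_lit 231) (.e (nat_lit 811045) (nat_lit 14) .nil)))) .nil))) (.nd (nat_lit 6) 
(.lf (nat_lit 286015) (.g (nat_lit 3425) (.e (nat_lit 286749) (nat_lit 9) (.e (nat_lit 336028) (nat_lit 3) (.e (nat_lit 98359) (nat_lit 26) (.e (nat_lit 426097) (nat_lit 1) (.e (nat_lit 164327) (nat_lit 230) (.e (nat_lit 163868) (nat_lit 2) (.e (nat_lit 196691) (nat_lit 18) (.e (nat_lit 1359) (nat_lit 102) .nil)))))))) (.g (nat_lit 6) .nil .nil))) 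
(.lf (nat_lit 286079) (.g (nat_lit 2065) (.e (nat_lit 286751) (nat_lit 10) (.e (nat_lit 344129) (nat_lit 26) (.e (nat_lit 557087) (nat_lit 11) (.e (nat_lit 24639) (nat_lit 10) .nil)))) .nil)))))))))

noncomputable def tv3629 : DT := (.nd (nat_lit 0) (.nd (nat_lit 1) (.nd (nat_lit 2) (.nd (nat_lit 3) (.nd (nat_lit 4) (.nd (nat_lit 5) (.nd (nat_lit 6) 
(.lf (nat_lit 286080) (.g (nat_lit 2061) (.e (nat_lit 286751) (nat_lit 10) (.e (nat_lit 344129) (nat_lit 26) (.e (nat_lit 557087) (nat_lit 11) (.e (nat_lit 24640) (nat_lit 10) .nil)))) .nil)) 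
(.lf (nat_lit 286144) (.g (nat_lit 442) (.e (nat_lit 286752) (nat_lit 10) (.e (nat_lit 344177) (nat_lit 43) (.e (nat_lit 770058) (nat_lit 5) .nil))) .nil))) (.nd (nat_lit 6) 
(.lf (nat_lit 286112) (.g (nat_lit 444) (.e (nat_lit 286752) (nat_lit 10) (.e (nat_lit 344126) (nat_lit 25) (.e (nat_lit 548874) (nat_lit 5) .nil))) .nil)) 
(.lf (nat_lit 286176) (.g (nat_lit 2919) (.e (nat_lit 286753) (nat_lit 10) (.e (nat_lit 344117) (nat_lit 21) (.e (nat_lit 516139) (nat_lit 7) (.e (nat_lit 409616) (nat_lit 10) .nil)))) .nil)))) (.nd (nat_lit 5) (.nd (nat_lit 6) 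
(.lf (nat_lit 286096) (.g (nat_lit 542) (.e (nat_lit 286751) (nat_lit 10) (.e (nat_lit 344177) (nat_lit 43) (.e (nat_lit 770057) (nat_lit 5) .nil))) .nil)) 
(.lf (nat_lit 286160) (.g (nat_lit 2000) (.e (nat_lit 286753) (nat_lit 10) (.e (nat_lit 344097) (nat_lit 18) (.e (nat_lit 7270) (nat_lit 385) (.e (nat_lit 122916) (nat_lit 14) (.e (nat_lit 352257) (nat_lit 0) .nil))))) .nil))) (.nd (nat_lit 6) 
(.lf (nat_lit 286128) (.g (nat_lit 650) (.e (nat_lit 286752) (nat_lit 10) (.e (nat_lit 344129) (nat_lit 26) (.e (nat_lit 557066) (nat_lit 9) .nil))) .nil)) 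
(.lf (nat_lit 286192) (.g (nat_lit 2412) (.e (nat_lit 286753) (nat_lit 10) (.e (nat_lit 344117) (nat_lit 21) (.e (nat_lit 516151) (nat_lit 9) (.e (nat_lit 433920) (nat_lit 1) .nil)))) .nil))))) (.nd (nat_lit 4) (.nd (nat_lit 5) (.nd (nat_lit 6) 
(.lf (nat_lit 286088) (.g (nat_lit 1456) (.e (nat_lit 286751) (nat_lit 10) (.e (nat_lit 344160) (nat_lit 37) (.e (nat_lit 647200) (nat_lit 12) (.e (nat_lit 57353) (nat_lit 0) .nil)))) .nil)) 
(.lf (nat_lit 286152) (.g (nat_lit 317) (.e (nat_lit 286753) (nat_lit 10) (.e (nat_lit 344090) (nat_lit 18) (.e (nat_lit 7119) (nat_lit 382) .nil))) .nil))) (.nd (nat_lit 6) 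
(.lf (nat_lit 286120) (.g (nat_lit 2513) (.e (nat_lit 286752) (nat_lit 10) (.e (nat_lit 344126) (nat_lit 25) (.e (nat_lit 548889) (nat_lit 9) (.e (nat_lit 65610) (nat_lit 10) (.e (nat_lit 344115) (nat_lit 20) .nil))))) .nil)) 
(.lf (nat_lit 286184) (.g (nat_lit 1712) (.e (nat_lit 286753) (nat_lit 10) (.e (nat_lit 344117) (nat_lit 21) (.e (nat_lit 516145) (nat_lit 9) (.e (nat_lit 426112) (nat_lit 1) (.e (nat_lit 164327) (nat_lit 230) .nil))))) .nil)))) (.nd (nat_lit 5) (.nd (nat_lit 6) 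
(.lf (nat_lit 286104) (.g (nat_lit 2709) (.e (nat_lit 286752) (nat_lit 10) (.e (nat_lit 344117) (nat_lit 21) (.e (nat_lit 516185) (nat_lit 16) (.e (nat_lit 491558) (nat_lit 10) (.e (nat_lit 344115) (nat_lit 20) .nil))))) .nil)) 
(.lf (nat_lit 286168) (.g (nat_lit 535) (.e (nat_lit 286753) (nat_lit 10) (.e (nat_lit 344117) (nat_lit 21) (.e (nat_lit 516097) (nat_lit 0) .nil))) .nil))) (.nd (nat_lit 6) 
(.lf (nat_lit 286136) (.g (nat_lit 2367) (.e (nat_lit 286752) (nat_lit 10) (.e (nat_lit 344169) (nat_lit 40) (.e (nat_lit 671762) (nat_lit 4) (.e (nat_lit 65617) (nat_lit 10) (.e (nat_lit 344161) (nat_lit 37) .nil))))) .nil)) 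
(.lf (nat_lit 286200) (.g (nat_lit 609) (.e (nat_lit 286753) (nat_lit 10) (.e (nat_lit 344117) (nat_lit 21) (.e (nat_lit 516160) (nat_lit 10) .nil))) .nil)))))) (.nd (nat_lit 3) (.nd (nat_lit 4) (.nd (nat_lit 5) (.nd (nat_lit 6) 
(.lf (nat_lit 286084) (.g (nat_lit 1785) (.e (nat_lit 286751) (nat_lit 10) (.e (nat_lit 344160) (nat_lit 37) (.e (nat_lit 647195) (nat_lit 9) (.e (nat_lit 422) (nat_lit 32) .nil)))) .nil)) 
(.lf (nat_lit 286148) (.g (nat_lit 1405) (.e (nat_lit 286752) (nat_lit 10) (.e (nat_lit 344177) (nat_lit 43) (.e (nat_lit 770074) (nat_lit 10) (.e (nat_lit 81921) (nat_lit 0) .nil)))) .nil))) (.nd (nat_lit 6) 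
(.lf (nat_lit 286116) (.g (nat_lit 1703) (.e (nat_lit 286752) (nat_lit 10) (.e (nat_lit 344126) (nat_lit 25) (.e (nat_lit 548874) (nat_lit 5) (.e (nat_lit 1598) (nat_lit 111) (.e (nat_lit 360464) (nat_lit 2) .nil))))) .nil)) 
(.lf (nat_lit 286180) (.g (nat_lit 2827) (.e (nat_lit 286753) (nat_lit 10) (.e (nat_lit 344117) (nat_lit 21) (.e (nat_lit 516139) (nat_lit 7) (.e (nat_lit 409641) (nat_lit 17) (.e (nat_lit 294916) (nat_lit 0) .nil))))) .nil)))) (.nd (nat_lit 5) (.nd (nat_lit 6) 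
(.lf (nat_lit 286100) (.g (nat_lit 2179) (.e (nat_lit 286752) (nat_lit 10) (.e (nat_lit 344117) (nat_lit 21) (.e (nat_lit 516097) (nat_lit 0) (.e (nat_lit 7593) (nat_lit 407) (.e (nat_lit 73744) (nat_lit 2) (.e (nat_lit 507921) (nat_lit 6) .nil)))))) (.g (nat_lit 5) .nil .nil))) 
(.lf (nat_lit 286164) (.g (nat_lit 174) (.e (nat_lit 286753) (nat_lit 10) (.e (nat_lit 344115) (nat_lit 20) (.e (nat_lit 507908) (nat_lit 0) .nil))) .nil))) (.nd (nat_lit 6) 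
(.lf (nat_lit 286132) (.g (nat_lit 519) (.e (nat_lit 286752) (nat_lit 10) (.e (nat_lit 344160) (nat_lit 37) (.e (nat_lit 647195) (nat_lit 9) .nil))) .nil)) 
(.lf (nat_lit 286196) (.g (nat_lit 1895) (.e (nat_lit 286753) (nat_lit 10) (.e (nat_lit 344117) (nat_lit 21) (.e (nat_lit 516159) (nat_lit 10) (.e (nat_lit 434209) (nat_lit 18) (.e (nat_lit 5224) (nat_lit 296) (.e (nat_lit 163871) (nat_lit 2) (.e (nat_lit 196690) (nat_lit 18) (.e (nat_lit 1358) (nat_lit 102) .nil)))))))) (.g (nat_lit 4) .nil .nil)))))) 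
(.nd (nat_lit 4) (.nd (nat_lit 5) (.nd (nat_lit 6) 
(.lf (nat_lit 286092) (.g (nat_lit 444) (.e (nat_lit 286751) (nat_lit 10) (.e (nat_lit 344174) (nat_lit 42) (.e (nat_lit 761867) (nat_lit 5) .nil))) .nil)) 
(.lf (nat_lit 286156) (.g (nat_lit 568) (.e (nat_lit 286753) (nat_lit 10) (.e (nat_lit 344097) (nat_lit 18) (.e (nat_lit 7252) (nat_lit 383) .nil))) .nil))) (.nd (nat_lit 6) 
(.lf (nat_lit 286124) (.g (nat_lit 2387) (.e (nat_lit 286752) (nat_lit 10) (.e (nat_lit 344126) (nat_lit 25) (.e (nat_lit 548889) (nat_lit 9) (.e (nat_lit 65619) (nat_lit 10) (.e (nat_lit 344115) (nat_lit 20) .nil))))) .nil)) 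
(.lf (nat_lit 286188) (.g (nat_lit 4175) (.e (nat_lit 286753) (nat_lit 10) (.e (nat_lit 344117) (nat_lit 21) (.e (nat_lit 516151) (nat_lit 9) (.e (nat_lit 426097) (nat_lit 1) (.e (nat_lit 164327) (nat_lit 230) (.e (nat_lit 163868) (nat_lit 2) (.e (nat_lit 196692) (nat_lit 18) (.e (nat_lit 1358) (nat_lit 102) .nil)))))))) (.g (nat_lit 6) .nil .nil))))) (.nd (nat_lit 5) (.nd (nat_lit 6) 
(.lf (nat_lit 286108) (.g (nat_lit 934) (.e (nat_lit 286752) (nat_lit 10) (.e (nat_lit 344126) (nat_lit 25) (.e (nat_lit 548872) (nat_lit 5) (.e (nat_lit 1599) (nat_lit 111) .nil)))) .nil)) 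
(.lf (nat_lit 286172) (.g (nat_lit 1381) (.e (nat_lit 286753) (nat_lit 10) (.e (nat_lit 344117) (nat_lit 21) (.e (nat_lit 516102) (nat_lit 0) (.e (nat_lit 6989) (nat_lit 377) .nil)))) .nil))) (.nd (nat_lit 6) 
(.lf (nat_lit 286140) (.g (nat_lit 453) (.e (nat_lit 286752) (nat_lit 10) (.e (nat_lit 344177) (nat_lit 43) (.e (nat_lit 770056) (nat_lit 5) .nil))) .nil)) 
(.lf (nat_lit 286204) (.g (nat_lit 5107) (.e (nat_lit 286753) (nat_lit 10) (.e (nat_lit 344117) (nat_lit 21) (.e (nat_lit 516160) (nat_lit 10) (.e (nat_lit 434275) (nat_lit 39) (.e (nat_lit 663584) (nat_lit 12) (.e (nat_lit 163979) (nat_lit 30) (.e (nat_lit 573503) (nat_lit 18) (.e (nat_lit 1358) (nat_lit 102) .nil)))))))) (.g (nat_lit 7) .nil .nil)))))))) 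
(.nd (nat_lit 2) (.nd (nat_lit 3) (.nd (nat_lit 4) (.nd (nat_lit 5) (.nd (nat_lit 6) 
(.lf (nat_lit 286082) (.g (nat_lit 412) (.e (nat_lit 286751) (nat_lit 10) (.e (nat_lit 344156) (nat_lit 36) (.e (nat_lit 638998) (nat_lit 8) .nil))) .nil)) 
(.lf (nat_lit 286146) (.g (nat_lit 1005) (.e (nat_lit 286752) (nat_lit 10) (.e (nat_lit 344177) (nat_lit 43) (.e (nat_lit 770058) (nat_lit 5) (.e (nat_lit 1575) (nat_lit 110) (.e (nat_lit 352257) (nat_lit 0) .nil))))) .nil))) (.nd (nat_lit 6) 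
(.lf (nat_lit 286114) (.g (nat_lit 2297) (.e (nat_lit 286752) (nat_lit 10) (.e (nat_lit 344126) (nat_lit 25) (.e (nat_lit 548874) (nat_lit 5) (.e (nat_lit 1589) (nat_lit 111) (.e (nat_lit 360464) (nat_lit 2) (.e (nat_lit 507921) (nat_lit 6) .nil)))))) (.g (nat_lit 4) .nil .nil))) 
(.lf (nat_lit 286178) (.g (nat_lit 3084) (.e (nat_lit 286753) (nat_lit 10) (.e (nat_lit 344117) (nat_lit 21) (.e (nat_lit 516139) (nat_lit 7) (.e (nat_lit 417536) (nat_lit 10) .nil)))) .nil)))) (.nd (nat_lit 5) (.nd (nat_lit 6) 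
(.lf (nat_lit 286098) (.g (nat_lit 1490) (.e (nat_lit 286752) (nat_lit 10) (.e (nat_lit 344117) (nat_lit 21) (.e (nat_lit 516097) (nat_lit 0) (.e (nat_lit 7591) (nat_lit 407) .nil)))) .nil)) 
(.lf (nat_lit 286162) (.g (nat_lit 455) (.e (nat_lit 286753) (nat_lit 10) (.e (nat_lit 344097) (nat_lit 18) (.e (nat_lit 7273) (nat_lit 385) .nil))) .nil))) (.nd (nat_lit 6) 
(.lf (nat_lit 286130) (.g (nat_lit 412) (.e (nat_lit 286752) (nat_lit 10) (.e (nat_lit 344156) (nat_lit 36) (.e (nat_lit 638998) (nat_lit 8) .nil))) .nil)) 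
(.lf (nat_lit 286194) (.g (nat_lit 657) (.e (nat_lit 286753) (nat_lit 10) (.e (nat_lit 344117) (nat_lit 21) (.e (nat_lit 516159) (nat_lit 10) .nil))) .nil))))) (.nd (nat_lit 4) (.nd (nat_lit 5) (.nd (nat_lit 6) 
(.lf (nat_lit 286090) (.g (nat_lit 1584) (.e (nat_lit 286751) (nat_lit 10) (.e (nat_lit 344169) (nat_lit 40) (.e (nat_lit 671748) (nat_lit 0) (.e (nat_lit 1047) (nat_lit 81) .nil)))) .nil)) 
(.lf (nat_lit 286154) (.g (nat_lit 509) (.e (nat_lit 286753) (nat_lit 10) (.e (nat_lit 344097) (nat_lit 18) (.e (nat_lit 5055) (nat_lit 292) .nil))) .nil))) (.nd (nat_lit 6) 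
(.lf (nat_lit 286122) (.g (nat_lit 2023) (.e (nat_lit 286752) (nat_lit 10) (.e (nat_lit 344126) (nat_lit 25) (.e (nat_lit 548889) (nat_lit 9) (.e (nat_lit 65616) (nat_lit 10) .nil)))) .nil)) 
(.lf (nat_lit 286186) (.g (nat_lit 2643) (.e (nat_lit 286753) (nat_lit 10) (.e (nat_lit 344117) (nat_lit 21) (.e (nat_lit 516151) (nat_lit 9) (.e (nat_lit 426042) (nat_lit 0) .nil)))) .nil)))) (.nd (nat_lit 5) (.nd (nat_lit 6) 
(.lf (nat_lit 286106) (.g (nat_lit 2738) (.e (nat_lit 286752) (nat_lit 10) (.e (nat_lit 344117) (nat_lit 21) (.e (nat_lit 516185) (nat_lit 16) (.e (nat_lit 491560) (nat_lit 10) (.e (nat_lit 344115) (nat_lit 20) (.e (nat_lit 507923) (nat_lit 6) .nil)))))) (.g (nat_lit 4) .nil .nil))) 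
(.lf (nat_lit 286170) (.g (nat_lit 2968) (.e (nat_lit 286753) (nat_lit 10) (.e (nat_lit 344117) (nat_lit 21) (.e (nat_lit 516098) (nat_lit 0) (.e (nat_lit 7593) (nat_lit 407) (.e (nat_lit 73744) (nat_lit 2) (.e (nat_lit 507923) (nat_lit 6) .nil)))))) (.g (nat_lit 0) .nil .nil)))) (.nd (nat_lit 6) 
(.lf (nat_lit 286138) (.g (nat_lit 513) (.e (nat_lit 286752) (nat_lit 10) (.e (nat_lit 344177) (nat_lit 43) (.e (nat_lit 770055) (nat_lit 5) .nil))) .nil)) 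
(.lf (nat_lit 286202) (.g (nat_lit 2225) (.e (nat_lit 286753) (nat_lit 10) (.e (nat_lit 344117) (nat_lit 21) (.e (nat_lit 516160) (nat_lit 10) (.e (nat_lit 434209) (nat_lit 18) (.e (nat_lit 5224) (nat_lit 296) (.e (nat_lit 163871) (nat_lit 2) (.e (nat_lit 196690) (nat_lit 18) (.e (nat_lit 1358) (nat_lit 102) .nil)))))))) (.g (nat_lit 4) .nil .nil))))))) 
(.nd (nat_lit 3) (.nd (nat_lit 4) (.nd (nat_lit 5) (.nd (nat_lit 6) 
(.lf (nat_lit 286086) (.g (nat_lit 2498) (.e (nat_lit 286751) (nat_lit 10) (.e (nat_lit 344160) (nat_lit 37) (.e (nat_lit 647200) (nat_lit 12) (.e (nat_lit 57347) (nat_lit 0) (.e (nat_lit 7125) (nat_lit 382) .nil))))) .nil)) 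
(.lf (nat_lit 286150) (.g (nat_lit 1923) (.e (nat_lit 286752) (nat_lit 10) (.e (nat_lit 344179) (nat_lit 44) (.e (nat_lit 778466) (nat_lit 11) (.e (nat_lit 24662) (nat_lit 14) .nil)))) .nil))) (.nd (nat_lit 6) 
(.lf (nat_lit 286118) (.g (nat_lit 2770) (.e (nat_lit 286752) (nat_lit 10) (.e (nat_lit 344126) (nat_lit 25) (.e (nat_lit 548889) (nat_lit 9) (.e (nat_lit 65598) (nat_lit 9) (.e (nat_lit 336013) (nat_lit 2) .nil))))) .nil)) 
(.lf (nat_lit 286182) (.g (nat_lit 860) (.e (nat_lit 286753) (nat_lit 10) (.e (nat_lit 344117) (nat_lit 21) (.e (nat_lit 516141) (nat_lit 8) .nil))) .nil)))) (.nd (nat_lit 5) (.nd (nat_lit 6) 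
(.lf (nat_lit 286102) (.g (nat_lit 1714) (.e (nat_lit 286752) (nat_lit 10) (.e (nat_lit 344117) (nat_lit 21) (.e (nat_lit 516098) (nat_lit 0) (.e (nat_lit 7593) (nat_lit 407) (.e (nat_lit 73744) (nat_lit 2) .nil))))) .nil)) 
(.lf (nat_lit 286166) (.g (nat_lit 891) (.e (nat_lit 286753) (nat_lit 10) (.e (nat_lit 344115) (nat_lit 20) (.e (nat_lit 507908) (nat_lit 0) (.e (nat_lit 5403) (nat_lit 302) (.e (nat_lit 65557) (nat_lit 0) .nil))))) .nil))) (.nd (nat_lit 6) 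
(.lf (nat_lit 286134) (.g (nat_lit 1231) (.e (nat_lit 286752) (nat_lit 10) (.e (nat_lit 344169) (nat_lit 40) (.e (nat_lit 671751) (nat_lit 0) (.e (nat_lit 1182) (nat_lit 87) .nil)))) .nil)) 
(.lf (nat_lit 286198) (.g (nat_lit 3784) (.e (nat_lit 286753) (nat_lit 10) (.e (nat_lit 344117) (nat_lit 21) (.e (nat_lit 516159) (nat_lit 10) (.e (nat_lit 434275) (nat_lit 39) (.e (nat_lit 663584) (nat_lit 12) (.e (nat_lit 163978) (nat_lit 30) (.e (nat_lit 573502) (nat_lit 18) (.e (nat_lit 1358) (nat_lit 102) .nil)))))))) (.g (nat_lit 6) .nil .nil)))))) 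
(.nd (nat_lit 4) (.nd (nat_lit 5) (.nd (nat_lit 6) 
(.lf (nat_lit 286094) (.g (nat_lit 538) (.e (nat_lit 286751) (nat_lit 10) (.e (nat_lit 344177) (nat_lit 43) (.e (nat_lit 770055) (nat_lit 5) .nil))) .nil)) 
(.lf (nat_lit 286158) (.g (nat_lit 1912) (.e (nat_lit 286753) (nat_lit 10) (.e (nat_lit 344097) (nat_lit 18) (.e (nat_lit 7270) (nat_lit 385) (.e (nat_lit 122914) (nat_lit 14) (.e (nat_lit 352257) (nat_lit 0) .nil))))) .nil))) (.nd (nat_lit 6) 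
(.lf (nat_lit 286126) (.g (nat_lit 2069) (.e (nat_lit 286752) (nat_lit 10) (.e (nat_lit 344126) (nat_lit 25) (.e (nat_lit 548891) (nat_lit 11) (.e (nat_lit 81946) (nat_lit 20) .nil)))) .nil)) 
(.lf (nat_lit 286190) (.g (nat_lit 2825) (.e (nat_lit 286753) (nat_lit 10) (.e (nat_lit 344117) (nat_lit 21) (.e (nat_lit 516151) (nat_lit 9) (.e (nat_lit 426103) (nat_lit 1) .nil)))) .nil)))) (.nd (nat_lit 5) (.nd (nat_lit 6) 
(.lf (nat_lit 286110) (.g (nat_lit 1325) (.e (nat_lit 286752) (nat_lit 10) (.e (nat_lit 344126) (nat_lit 25) (.e (nat_lit 548873) (nat_lit 5) (.e (nat_lit 1589) (nat_lit 111) (.e (nat_lit 360464) (nat_lit 2) .nil))))) .nil)) 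
(.lf (nat_lit 286174) (.g (nat_lit 2159) (.e (nat_lit 286753) (nat_lit 10) (.e (nat_lit 344117) (nat_lit 21) (.e (nat_lit 516106) (nat_lit 0) (.e (nat_lit 7936) (nat_lit 407) .nil)))) .nil))) (.nd (nat_lit 6) 
(.lf (nat_lit 286142) (.g (nat_lit 929) (.e (nat_lit 286752) (nat_lit 10) (.e (nat_lit 344177) (nat_lit 43) (.e (nat_lit 770057) (nat_lit 5) (.e (nat_lit 1562) (nat_lit 110) .nil)))) .nil)) 
(.lf (nat_lit 286206) (.g (nat_lit 2778) (.e (nat_lit 286753) (nat_lit 10) (.e (nat_lit 344117) (nat_lit 21) (.e (nat_lit 516169) (nat_lit 13) (.e (nat_lit 458774) (nat_lit 18) (.e (nat_lit 5224) (nat_lit 296) (.e (nat_lit 163868) (nat_lit 2) (.e (nat_lit 196691) (nat_lit 18) (.e (nat_lit 1358) (nat_lit 102) .nil)))))))) (.g (nat_lit 6) .nil .nil))))))))) 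
(.nd (nat_lit 1) (.nd (nat_lit 2) (.nd (nat_lit 3) (.nd (nat_lit 4) (.nd (nat_lit 5) 
(.nd (nat_lit 6) 
(.lf (nat_lit 286081) (.g (nat_lit 2258) (.e (nat_lit 286751) (nat_lit 10) (.e (nat_lit 344129) (nat_lit 26) (.e (nat_lit 557087) (nat_lit 11) (.e (nat_lit 24641) (nat_lit 10) .nil)))) .nil)) 
(.lf (nat_lit 286145) (.g (nat_lit 813) (.e (nat_lit 286752) (nat_lit 10) (.e (nat_lit 344177) (nat_lit 43) (.e (nat_lit 770058) (nat_lit 5) (.e (nat_lit 1575) (nat_lit 110) .nil)))) .nil))) (.nd (nat_lit 6) 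
(.lf (nat_lit 286113) (.g (nat_lit 2196) (.e (nat_lit 286752) (nat_lit 10) (.e (nat_lit 344126) (nat_lit 25) (.e (nat_lit 548874) (nat_lit 5) (.e (nat_lit 1589) (nat_lit 111) (.e (nat_lit 360464) (nat_lit 2) .nil))))) .nil)) 
(.lf (nat_lit 286177) (.g (nat_lit 3080) (.e (nat_lit 286753) (nat_lit 10) (.e (nat_lit 344117) (nat_lit 21) (.e (nat_lit 516139) (nat_lit 7) (.e (nat_lit 409617) (nat_lit 10) .nil)))) .nil)))) (.nd (nat_lit 5) (.nd (nat_lit 6) 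
(.lf (nat_lit 286097) (.g (nat_lit 600) (.e (nat_lit 286751) (nat_lit 10) (.e (nat_lit 344177) (nat_lit 43) (.e (nat_lit 770058) (nat_lit 5) .nil))) .nil)) 
(.lf (nat_lit 286161) (.g (nat_lit 988) (.e (nat_lit 286753) (nat_lit 10) (.e (nat_lit 344097) (nat_lit 18) (.e (nat_lit 7272) (nat_lit 385) (.e (nat_lit 122913) (nat_lit 13) .nil)))) .nil))) (.nd (nat_lit 6) 
(.lf (nat_lit 286129) (.g (nat_lit 2056) (.e (nat_lit 286752) (nat_lit 10) (.e (nat_lit 344129) (nat_lit 26) (.e (nat_lit 557087) (nat_lit 11) (.e (nat_lit 24640) (nat_lit 10) .nil)))) .nil)) 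
(.lf (nat_lit 286193) (.g (nat_lit 2412) (.e (nat_lit 286753) (nat_lit 10) (.e (nat_lit 344117) (nat_lit 21) (.e (nat_lit 516151) (nat_lit 9) (.e (nat_lit 433920) (nat_lit 20) .nil)))) .nil))))) (.nd (nat_lit 4) (.nd (nat_lit 5) (.nd (nat_lit 6) 
(.lf (nat_lit 286089) (.g (nat_lit 1429) (.e (nat_lit 286751) (nat_lit 10) (.e (nat_lit 344160) (nat_lit 37) (.e (nat_lit 647201) (nat_lit 12) (.e (nat_lit 57570) (nat_lit 54) .nil)))) .nil)) 
(.lf (nat_lit 286153) (.g (nat_lit 1707) (.e (nat_lit 286753) (nat_lit 10) (.e (nat_lit 344090) (nat_lit 18) (.e (nat_lit 7122) (nat_lit 382) (.e (nat_lit 1222) (nat_lit 90) (.e (nat_lit 89856) (nat_lit 10) .nil))))) .nil))) (.nd (nat_lit 6) 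
(.lf (nat_lit 286121) (.g (nat_lit 1888) (.e (nat_lit 286752) (nat_lit 10) (.e (nat_lit 344126) (nat_lit 25) (.e (nat_lit 548889) (nat_lit 9) (.e (nat_lit 65611) (nat_lit 10) .nil)))) .nil)) 
(.lf (nat_lit 286185) (.g (nat_lit 1267) (.e (nat_lit 286753) (nat_lit 10) (.e (nat_lit 344117) (nat_lit 21) (.e (nat_lit 516145) (nat_lit 9) (.e (nat_lit 426448) (nat_lit 20) .nil)))) .nil)))) (.nd (nat_lit 5) (.nd (nat_lit 6) 
(.lf (nat_lit 286105) (.g (nat_lit 2774) (.e (nat_lit 286752) (nat_lit 10) (.e (nat_lit 344117) (nat_lit 21) (.e (nat_lit 516185) (nat_lit 16) (.e (nat_lit 491560) (nat_lit 10) (.e (nat_lit 344114) (nat_lit 20) .nil))))) .nil)) 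
(.lf (nat_lit 286169) (.g (nat_lit 463) (.e (nat_lit 286753) (nat_lit 10) (.e (nat_lit 344117) (nat_lit 21) (.e (nat_lit 516098) (nat_lit 0) .nil))) .nil))) (.nd (nat_lit 6) 
(.lf (nat_lit 286137) (.g (nat_lit 2381) (.e (nat_lit 286752) (nat_lit 10) (.e (nat_lit 344169) (nat_lit 40) (.e (nat_lit 671762) (nat_lit 4) (.e (nat_lit 65619) (nat_lit 10) (.e (nat_lit 344160) (nat_lit 37) .nil))))) .nil)) 
(.lf (nat_lit 286201) (.g (nat_lit 2384) (.e (nat_lit 286753) (nat_lit 10) (.e (nat_lit 344117) (nat_lit 21) (.e (nat_lit 516160) (nat_lit 10) (.e (nat_lit 434209) (nat_lit 18) (.e (nat_lit 5224) (nat_lit 296) (.e (nat_lit 163868) (nat_lit 2) (.e (nat_lit 196692) (nat_lit 18) (.e (nat_lit 1358) (nat_lit 102) .nil)))))))) (.g (nat_lit 4) .nil .nil))))))) 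
(.nd (nat_lit 3) (.nd (nat_lit 4) (.nd (nat_lit 5) (.nd (nat_lit 6) 
(.lf (nat_lit 286085) (.g (nat_lit 520) (.e (nat_lit 286751) (nat_lit 10) (.e (nat_lit 344160) (nat_lit 37) (.e (nat_lit 647200) (nat_lit 12) .nil))) .nil)) 
(.lf (nat_lit 286149) (.g (nat_lit 1372) (.e (nat_lit 286752) (nat_lit 10) (.e (nat_lit 344177) (nat_lit 43) (.e (nat_lit 770074) (nat_lit 10) (.e (nat_lit 89856) (nat_lit 0) .nil)))) .nil))) (.nd (nat_lit 6) 
(.lf (nat_lit 286117) (.g (nat_lit 1580) (.e (nat_lit 286752) (nat_lit 10) (.e (nat_lit 344126) (nat_lit 25) (.e (nat_lit 548874) (nat_lit 5) (.e (nat_lit 1599) (nat_lit 111) .nil)))) .nil)) 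
(.lf (nat_lit 286181) (.g (nat_lit 2795) (.e (nat_lit 286753) (nat_lit 10) (.e (nat_lit 344117) (nat_lit 21) (.e (nat_lit 516139) (nat_lit 7) (.e (nat_lit 409642) (nat_lit 17) (.e (nat_lit 294917) (nat_lit 0) .nil))))) .nil)))) (.nd (nat_lit 5) (.nd (nat_lit 6) 
(.lf (nat_lit 286101) (.g (nat_lit 1637) (.e (nat_lit 286752) (nat_lit 10) (.e (nat_lit 344117) (nat_lit 21) (.e (nat_lit 516098) (nat_lit 0) (.e (nat_lit 7591) (nat_lit 407) (.e (nat_lit 73744) (nat_lit 2) .nil))))) .nil)) 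
(.lf (nat_lit 286165) (.g (nat_lit 746) (.e (nat_lit 286753) (nat_lit 10) (.e (nat_lit 344115) (nat_lit 20) (.e (nat_lit 507908) (nat_lit 0) (.e (nat_lit 5401) (nat_lit 302) (.e (nat_lit 65559) (nat_lit 0) .nil))))) .nil))) (.nd (nat_lit 6) 
(.lf (nat_lit 286133) (.g (nat_lit 1424) (.e (nat_lit 286752) (nat_lit 10) (.e (nat_lit 344169) (nat_lit 40) (.e (nat_lit 671748) (nat_lit 0) (.e (nat_lit 1183) (nat_lit 87) .nil)))) .nil)) 
(.lf (nat_lit 286197) (.g (nat_lit 1373) (.e (nat_lit 286753) (nat_lit 10) (.e (nat_lit 344117) (nat_lit 21) (.e (nat_lit 516159) (nat_lit 10) (.e (nat_lit 434275) (nat_lit 39) .nil)))) .nil))))) (.nd (nat_lit 4) (.nd (nat_lit 5) (.nd (nat_lit 6) 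
(.lf (nat_lit 286093) (.g (nat_lit 432) (.e (nat_lit 286751) (nat_lit 10) (.e (nat_lit 344174) (nat_lit 42) (.e (nat_lit 761869) (nat_lit 5) .nil))) .nil)) 
(.lf (nat_lit 286157) (.g (nat_lit 1187) (.e (nat_lit 286753) (nat_lit 10) (.e (nat_lit 344097) (nat_lit 18) (.e (nat_lit 7252) (nat_lit 383) (.e (nat_lit 8200) (nat_lit 0) (.e (nat_lit 5023) (nat_lit 290) .nil))))) .nil))) (.nd (nat_lit 6) 
(.lf (nat_lit 286125) (.g (nat_lit 2018) (.e (nat_lit 286752) (nat_lit 10) (.e (nat_lit 344126) (nat_lit 25) (.e (nat_lit 548889) (nat_lit 9) (.e (nat_lit 65620) (nat_lit 10) .nil)))) .nil)) 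
(.lf (nat_lit 286189) (.g (nat_lit 2542) (.e (nat_lit 286753) (nat_lit 10) (.e (nat_lit 344117) (nat_lit 21) (.e (nat_lit 516151) (nat_lit 9) (.e (nat_lit 426097) (nat_lit 1) (.e (nat_lit 164327) (nat_lit 230) (.e (nat_lit 163871) (nat_lit 2) (.e (nat_lit 196690) (nat_lit 18) (.e (nat_lit 1358) (nat_lit 102) .nil)))))))) (.g (nat_lit 5) .nil .nil))))) (.nd (nat_lit 5) (.nd (nat_lit 6) 
(.lf (nat_lit 286109) (.g (nat_lit 443) (.e (nat_lit 286752) (nat_lit 10) (.e (nat_lit 344126) (nat_lit 25) (.e (nat_lit 548873) (nat_lit 5) .nil))) .nil)) 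
(.lf (nat_lit 286173) (.g (nat_lit 1916) (.e (nat_lit 286753) (nat_lit 10) (.e (nat_lit 344117) (nat_lit 21) (.e (nat_lit 516106) (nat_lit 0) (.e (nat_lit 6986) (nat_lit 377) .nil)))) .nil))) (.nd (nat_lit 6) 
(.lf (nat_lit 286141) (.g (nat_lit 1041) (.e (nat_lit 286752) (nat_lit 10) (.e (nat_lit 344177) (nat_lit 43) (.e (nat_lit 770056) (nat_lit 5) (.e (nat_lit 1575) (nat_lit 110) (.e (nat_lit 352271) (nat_lit 9) .nil))))) .nil)) 
(.lf (nat_lit 286205) (.g (nat_lit 2675) (.e (nat_lit 286753) (nat_lit 10) (.e (nat_lit 344117) (nat_lit 21) (.e (nat_lit 516160) (nat_lit 10) (.e (nat_lit 434276) (nat_lit 39) (.e (nat_lit 663584) (nat_lit 12) (.e (nat_lit 163979) (nat_lit 30) (.e (nat_lit 573503) (nat_lit 18) (.e (nat_lit 1358) (nat_lit 102) .nil)))))))) (.g (nat_lit 4) .nil .nil)))))))) 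
(.nd (nat_lit 2) (.nd (nat_lit 3) (.nd (nat_lit 4) (.nd (nat_lit 5) (.nd (nat_lit 6) 
(.lf (nat_lit 286083) (.g (nat_lit 1845) (.e (nat_lit 286751) (nat_lit 10) (.e (nat_lit 344160) (nat_lit 37) (.e (nat_lit 647190) (nat_lit 9) (.e (nat_lit 1032) (nat_lit 81) .nil)))) .nil)) 
(.lf (nat_lit 286147) (.g (nat_lit 1601) (.e (nat_lit 286752) (nat_lit 10) (.e (nat_lit 344177) (nat_lit 43) (.e (nat_lit 770074) (nat_lit 10) (.e (nat_lit 81920) (nat_lit 0) .nil)))) .nil))) (.nd (nat_lit 6) 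
(.lf (nat_lit 286115) (.g (nat_lit 1940) (.e (nat_lit 286752) (nat_lit 10) (.e (nat_lit 344126) (nat_lit 25) (.e (nat_lit 548874) (nat_lit 5) (.e (nat_lit 1595) (nat_lit 111) (.e (nat_lit 360464) (nat_lit 2) .nil))))) .nil)) 
(.lf (nat_lit 286179) (.g (nat_lit 3084) (.e (nat_lit 286753) (nat_lit 10) (.e (nat_lit 344117) (nat_lit 21) (.e (nat_lit 516139) (nat_lit 7) (.e (nat_lit 417536) (nat_lit 16) .nil)))) .nil)))) (.nd (nat_lit 5) (.nd (nat_lit 6) 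
(.lf (nat_lit 286099) (.g (nat_lit 1291) (.e (nat_lit 286752) (nat_lit 10) (.e (nat_lit 344117) (nat_lit 21) (.e (nat_lit 516097) (nat_lit 0) (.e (nat_lit 7593) (nat_lit 407) .nil)))) .nil)) 
(.lf (nat_lit 286163) (.g (nat_lit 440) (.e (nat_lit 286753) (nat_lit 10) (.e (nat_lit 344115) (nat_lit 20) (.e (nat_lit 507906) (nat_lit 0) (.e (nat_lit 5406) (nat_lit 302) .nil)))) .nil))) (.nd (nat_lit 6) 
(.lf (nat_lit 286131) (.g (nat_lit 1072) (.e (nat_lit 286752) (nat_lit 10) (.e (nat_lit 344156) (nat_lit 36) (.e (nat_lit 638998) (nat_lit 8) (.e (nat_lit 172079) (nat_lit 7) .nil)))) .nil)) 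
(.lf (nat_lit 286195) (.g (nat_lit 2054) (.e (nat_lit 286753) (nat_lit 10) (.e (nat_lit 344117) (nat_lit 21) (.e (nat_lit 516159) (nat_lit 10) (.e (nat_lit 434209) (nat_lit 18) (.e (nat_lit 5224) (nat_lit 296) (.e (nat_lit 163868) (nat_lit 2) (.e (nat_lit 196692) (nat_lit 18) (.e (nat_lit 1358) (nat_lit 102) .nil)))))))) (.g (nat_lit 4) .nil .nil)))))) 
(.nd (nat_lit 4) (.nd (nat_lit 5) (.nd (nat_lit 6) 
(.lf (nat_lit 286091) (.g (nat_lit 435) (.e (nat_lit 286751) (nat_lit 10) (.e (nat_lit 344174) (nat_lit 42) (.e (nat_lit 761866) (nat_lit 5) .nil))) .nil)) 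
(.lf (nat_lit 286155) (.g (nat_lit 541) (.e (nat_lit 286753) (nat_lit 10) (.e (nat_lit 344097) (nat_lit 18) (.e (nat_lit 7145) (nat_lit 382) .nil))) .nil))) (.nd (nat_lit 6) 
(.lf (nat_lit 286123) (.g (nat_lit 2464) (.e (nat_lit 286752) (nat_lit 10) (.e (nat_lit 344126) (nat_lit 25) (.e (nat_lit 548889) (nat_lit 9) (.e (nat_lit 65617) (nat_lit 10) (.e (nat_lit 344115) (nat_lit 20) .nil))))) .nil)) 
(.lf (nat_lit 286187) (.g (nat_lit 1808) (.e (nat_lit 286753) (nat_lit 10) (.e (nat_lit 344117) (nat_lit 21) (.e (nat_lit 516151) (nat_lit 9) (.e (nat_lit 426097) (nat_lit 1) .nil)))) .nil)))) (.nd (nat_lit 5) (.nd (nat_lit 6) 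
(.lf (nat_lit 286107) (.g (nat_lit 497) (.e (nat_lit 286752) (nat_lit 10) (.e (nat_lit 344126) (nat_lit 25) (.e (nat_lit 548872) (nat_lit 5) .nil))) .nil)) 
(.lf (nat_lit 286171) (.g (nat_lit 385) (.e (nat_lit 286753) (nat_lit 10) (.e (nat_lit 344117) (nat_lit 21) (.e (nat_lit 516099) (nat_lit 0) .nil))) .nil))) (.nd (nat_lit 6) 
(.lf (nat_lit 286139) (.g (nat_lit 906) (.e (nat_lit 286752) (nat_lit 10) (.e (nat_lit 344177) (nat_lit 43) (.e (nat_lit 770055) (nat_lit 5) (.e (nat_lit 1575) (nat_lit 110) .nil)))) .nil)) 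
(.lf (nat_lit 286203) (.g (nat_lit 1581) (.e (nat_lit 286753) (nat_lit 10) (.e (nat_lit 344117) (nat_lit 21) (.e (nat_lit 516160) (nat_lit 10) (.e (nat_lit 434275) (nat_lit 39) .nil)))) .nil)))))) (.nd (nat_lit 3) (.nd (nat_lit 4) (.nd (nat_lit 5) (.nd (nat_lit 6) 
(.lf (nat_lit 286087) (.g (nat_lit 1369) (.e (nat_lit 286751) (nat_lit 10) (.e (nat_lit 344160) (nat_lit 37) (.e (nat_lit 647200) (nat_lit 12) (.e (nat_lit 57348) (nat_lit 0) .nil)))) .nil)) 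
(.lf (nat_lit 286151) (.g (nat_lit 1223) (.e (nat_lit 286753) (nat_lit 10) (.e (nat_lit 344090) (nat_lit 18) (.e (nat_lit 6923) (nat_lit 371) (.e (nat_lit 2640) (nat_lit 165) (.e (nat_lit 180264) (nat_lit 21) .nil))))) .nil))) (.nd (nat_lit 6) 
(.lf (nat_lit 286119) (.g (nat_lit 3044) (.e (nat_lit 286752) (nat_lit 10) (.e (nat_lit 344126) (nat_lit 25) (.e (nat_lit 548889) (nat_lit 9) (.e (nat_lit 65598) (nat_lit 9) (.e (nat_lit 336013) (nat_lit 2) (.e (nat_lit 98048) (nat_lit 18) (.e (nat_lit 1353) (nat_lit 102) .nil))))))) (.g (nat_lit 4) .nil .nil))) 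
(.lf (nat_lit 286183) (.g (nat_lit 2725) (.e (nat_lit 286753) (nat_lit 10) (.e (nat_lit 344117) (nat_lit 21) (.e (nat_lit 516143) (nat_lit 9) (.e (nat_lit 426109) (nat_lit 1) (.e (nat_lit 164326) (nat_lit 230) (.e (nat_lit 163868) (nat_lit 2) (.e (nat_lit 196691) (nat_lit 18) (.e (nat_lit 1358) (nat_lit 102) .nil)))))))) (.g (nat_lit 6) .nil .nil))))) (.nd (nat_lit 5) (.nd (nat_lit 6) 
(.lf (nat_lit 286103) (.g (nat_lit 2081) (.e (nat_lit 286752) (nat_lit 10) (.e (nat_lit 344117) (nat_lit 21) (.e (nat_lit 516185) (nat_lit 16) (.e (nat_lit 491546) (nat_lit 9) .nil)))) .nil)) 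
(.lf (nat_lit 286167) (.g (nat_lit 2140) (.e (nat_lit 286753) (nat_lit 10) (.e (nat_lit 344115) (nat_lit 20) (.e (nat_lit 507923) (nat_lit 6) (.e (nat_lit 286753) (nat_lit 10) (.e (nat_lit 344115) (nat_lit 20) (.e (nat_lit 507923) (nat_lit 6) .nil)))))) (.g (nat_lit 0) .nil .nil)))) (.nd (nat_lit 6) 
(.lf (nat_lit 286135) (.g (nat_lit 2500) (.e (nat_lit 286752) (nat_lit 10) (.e (nat_lit 344169) (nat_lit 40) (.e (nat_lit 671762) (nat_lit 4) (.e (nat_lit 65610) (nat_lit 10) (.e (nat_lit 344160) (nat_lit 37) .nil))))) .nil)) 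
(.lf (nat_lit 286199) (.g (nat_lit 1342) (.e (nat_lit 286753) (nat_lit 10) (.e (nat_lit 344117) (nat_lit 21) (.e (nat_lit 516159) (nat_lit 10) (.e (nat_lit 434276) (nat_lit 39) .nil)))) .nil))))) (.nd (nat_lit 4) (.nd (nat_lit 5) (.nd (nat_lit 6) 
(.lf (nat_lit 286095) (.g (nat_lit 563) (.e (nat_lit 286751) (nat_lit 10) (.e (nat_lit 344177) (nat_lit 43) (.e (nat_lit 770056) (nat_lit 5) .nil))) .nil)) 
(.lf (nat_lit 286159) (.g (nat_lit 1338) (.e (nat_lit 286753) (nat_lit 10) (.e (nat_lit 344097) (nat_lit 18) (.e (nat_lit 7270) (nat_lit 385) (.e (nat_lit 122916) (nat_lit 14) .nil)))) .nil))) (.nd (nat_lit 6) 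
(.lf (nat_lit 286127) (.g (nat_lit 1834) (.e (nat_lit 286752) (nat_lit 10) (.e (nat_lit 344126) (nat_lit 25) (.e (nat_lit 548891) (nat_lit 11) (.e (nat_lit 81947) (nat_lit 20) .nil)))) .nil)) 
(.lf (nat_lit 286191) (.g (nat_lit 3832) (.e (nat_lit 286753) (nat_lit 10) (.e (nat_lit 344117) (nat_lit 21) (.e (nat_lit 516151) (nat_lit 9) (.e (nat_lit 426104) (nat_lit 1) (.e (nat_lit 164327) (nat_lit 230) (.e (nat_lit 163868) (nat_lit 2) (.e (nat_lit 196691) (nat_lit 18) (.e (nat_lit 1358) (nat_lit 102) .nil)))))))) (.g (nat_lit 5) .nil .nil))))) (.nd (nat_lit 5) (.nd (nat_lit 6) 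
(.lf (nat_lit 286111) (.g (nat_lit 987) (.e (nat_lit 286752) (nat_lit 10) (.e (nat_lit 344126) (nat_lit 25) (.e (nat_lit 548873) (nat_lit 5) (.e (nat_lit 1599) (nat_lit 111) (.e (nat_lit 360464) (nat_lit 2) .nil))))) .nil)) 
(.lf (nat_lit 286175) (.g (nat_lit 1025) (.e (nat_lit 286753) (nat_lit 10) (.e (nat_lit 344117) (nat_lit 21) (.e (nat_lit 516139) (nat_lit 7) .nil))) .nil))) (.nd (nat_lit 6) 
(.lf (nat_lit 286143) (.g (nat_lit 947) (.e (nat_lit 286752) (nat_lit 10) (.e (nat_lit 344177) (nat_lit 43) (.e (nat_lit 770057) (nat_lit 5) (.e (nat_lit 1575) (nat_lit 110) (.e (nat_lit 352271) (nat_lit 9) .nil))))) .nil)) 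
(.lf (nat_lit 286207) (.g (nat_lit 468) (.e (nat_lit 286753) (nat_lit 10) (.e (nat_lit 344117) (nat_lit 21) (.e (nat_lit 516170) (nat_lit 13) .nil))) .nil)))))))))

noncomputable def tv3630 : DT := (.nd (nat_lit 0) (.nd (nat_lit 1) (.nd (nat_lit 2) (.nd (nat_lit 3) (.nd (nat_lit 4) (.nd (nat_lit 5) (.nd (nat_lit 6) 
(.lf (nat_lit 286208) (.g (nat_lit 1912) (.e (nat_lit 286753) (nat_lit 10) (.e (nat_lit 344117) (nat_lit 21) (.e (nat_lit 516170) (nat_lit 13) (.e (nat_lit 458774) (nat_lit 18) (.e (nat_lit 5224) (nat_lit 296) (.e (nat_lit 163868) (nat_lit 2) (.e (nat_lit 196692) (nat_lit 18) (.e (nat_lit 1358) (nat_lit 102) .nil)))))))) (.g (nat_lit 4) .nil .nil))) 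
(.lf (nat_lit 286272) (.g (nat_lit 1067) (.e (nat_lit 286753) (nat_lit 10) (.e (nat_lit 344156) (nat_lit 36) (.e (nat_lit 638998) (nat_lit 8) (.e (nat_lit 172079) (nat_lit 7) .nil)))) .nil))) (.nd (nat_lit 6) 
(.lf (nat_lit 286240) (.g (nat_lit 306) (.e (nat_lit 286753) (nat_lit 10) (.e (nat_lit 344126) (nat_lit 25) (.e (nat_lit 548889) (nat_lit 9) .nil))) .nil)) 
(.lf (nat_lit 286304) (.g (nat_lit 2216) (.e (nat_lit 286753) (nat_lit 10) (.e (nat_lit 344169) (nat_lit 40) (.e (nat_lit 671748) (nat_lit 0) (.e (nat_lit 1183) (nat_lit 87) (.e (nat_lit 57727) (nat_lit 181) .nil))))) .nil)))) (.nd (nat_lit 5) (.nd (nat_lit 6) 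
(.lf (nat_lit 286224) (.g (nat_lit 1383) (.e (nat_lit 286753) (nat_lit 10) (.e (nat_lit 344126) (nat_lit 25) (.e (nat_lit 548874) (nat_lit 5) (.e (nat_lit 1559) (nat_lit 110) .nil)))) .nil)) 
(.lf (nat_lit 286288) (.g (nat_lit 3992) (.e (nat_lit 286753) (nat_lit 10) (.e (nat_lit 344160) (nat_lit 37) (.e (nat_lit 647199) (nat_lit 11) (.e (nat_lit 16388) (nat_lit 0) (.e (nat_lit 7490) (nat_lit 402) (.e (nat_lit 1400) (nat_lit 106) (.e (nat_lit 319533) (nat_lit 16) .nil))))))) (.g (nat_lit 7) .nil .nil)))) (.nd (nat_lit 6) 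
(.lf (nat_lit 286256) (.g (nat_lit 1239) (.e (nat_lit 286753) (nat_lit 10) (.e (nat_lit 344129) (nat_lit 26) (.e (nat_lit 557074) (nat_lit 9) (.e (nat_lit 7936) (nat_lit 26) .nil)))) .nil)) 
(.lf (nat_lit 286320) (.g (nat_lit 3117) (.e (nat_lit 286753) (nat_lit 10) (.e (nat_lit 344169) (nat_lit 40) (.e (nat_lit 671762) (nat_lit 4) (.e (nat_lit 65619) (nat_lit 10) (.e (nat_lit 344160) (nat_lit 37) (.e (nat_lit 647203) (nat_lit 14) (.e (nat_lit 1355) (nat_lit 102) .nil))))))) (.g (nat_lit 5) .nil .nil)))))) (.nd (nat_lit 4) (.nd (nat_lit 5) (.nd (nat_lit 6) 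
(.lf (nat_lit 286216) (.g (nat_lit 1037) (.e (nat_lit 286753) (nat_lit 10) (.e (nat_lit 344117) (nat_lit 21) (.e (nat_lit 516191) (nat_lit 17) (.e (nat_lit 6209) (nat_lit 333) .nil)))) .nil)) 
(.lf (nat_lit 286280) (.g (nat_lit 1982) (.e (nat_lit 286753) (nat_lit 10) (.e (nat_lit 344160) (nat_lit 37) (.e (nat_lit 647190) (nat_lit 9) (.e (nat_lit 1183) (nat_lit 87) (.e (nat_lit 57681) (nat_lit 155) .nil))))) .nil))) (.nd (nat_lit 6) 
(.lf (nat_lit 286248) (.g (nat_lit 1807) (.e (nat_lit 286753) (nat_lit 10) (.e (nat_lit 344126) (nat_lit 25) (.e (nat_lit 548891) (nat_lit 11) (.e (nat_lit 81940) (nat_lit 20) .nil)))) .nil)) 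
(.lf (nat_lit 286312) (.g (nat_lit 659) (.e (nat_lit 286753) (nat_lit 10) (.e (nat_lit 344169) (nat_lit 40) (.e (nat_lit 671751) (nat_lit 0) .nil))) .nil)))) (.nd (nat_lit 5) (.nd (nat_lit 6) 
(.lf (nat_lit 286232) (.g (nat_lit 1284) (.e (nat_lit 286753) (nat_lit 10) (.e (nat_lit 344126) (nat_lit 25) (.e (nat_lit 548874) (nat_lit 5) (.e (nat_lit 1589) (nat_lit 111) .nil)))) .nil)) 
(.lf (nat_lit 286296) (.g (nat_lit 1836) (.e (nat_lit 286753) (nat_lit 10) (.e (nat_lit 344168) (nat_lit 40) (.e (nat_lit 671762) (nat_lit 4) (.e (nat_lit 65610) (nat_lit 10) (.e (nat_lit 344160) (nat_lit 37) .nil))))) .nil))) (.nd (nat_lit 6) 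
(.lf (nat_lit 286264) (.g (nat_lit 828) (.e (nat_lit 286753) (nat_lit 10) (.e (nat_lit 344138) (nat_lit 29) (.e (nat_lit 581653) (nat_lit 6) (.e (nat_lit 188427) (nat_lit 20) .nil)))) .nil)) 
(.lf (nat_lit 286328) (.g (nat_lit 1578) (.e (nat_lit 286753) (nat_lit 10) (.e (nat_lit 344177) (nat_lit 43) (.e (nat_lit 770072) (nat_lit 8) (.e (nat_lit 65591) (nat_lit 9) .nil)))) .nil)))))) (.nd (nat_lit 3) (.nd (nat_lit 4) (.nd (nat_lit 5) (.nd (nat_lit 6) 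
(.lf (nat_lit 286212) (.g (nat_lit 2987) (.e (nat_lit 286753) (nat_lit 10) (.e (nat_lit 344117) (nat_lit 21) (.e (nat_lit 516185) (nat_lit 16) (.e (nat_lit 491552) (nat_lit 9) (.e (nat_lit 335924) (nat_lit 0) (.e (nat_lit 1774) (nat_lit 118) (.e (nat_lit 507923) (nat_lit 6) .nil))))))) (.g (nat_lit 4) .nil .nil))) 
(.lf (nat_lit 286276) (.g (nat_lit 2297) (.e (nat_lit 286753) (nat_lit 10) (.e (nat_lit 344160) (nat_lit 37) (.e (nat_lit 647190) (nat_lit 9) (.e (nat_lit 359) (nat_lit 30) (.e (nat_lit 409603) (nat_lit 0) .nil))))) .nil))) (.nd (nat_lit 6) 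
(.lf (nat_lit 286244) (.g (nat_lit 2983) (.e (nat_lit 286753) (nat_lit 10) (.e (nat_lit 344126) (nat_lit 25) (.e (nat_lit 548889) (nat_lit 9) (.e (nat_lit 65598) (nat_lit 9) (.e (nat_lit 336013) (nat_lit 2) (.e (nat_lit 90189) (nat_lit 18) (.e (nat_lit 7936) (nat_lit 102) .nil))))))) (.g (nat_lit 4) .nil .nil))) 
(.lf (nat_lit 286308) (.g (nat_lit 2254) (.e (nat_lit 286753) (nat_lit 10) (.e (nat_lit 344169) (nat_lit 40) (.e (nat_lit 671748) (nat_lit 0) (.e (nat_lit 1589) (nat_lit 111) (.e (nat_lit 360457) (nat_lit 0) (.e (nat_lit 5557) (nat_lit 307) (.e (nat_lit 8305) (nat_lit 58) .nil))))))) (.g (nat_lit 4) .nil .nil))))) (.nd (nat_lit 5) (.nd (nat_lit 6) 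
(.lf (nat_lit 286228) (.g (nat_lit 1578) (.e (nat_lit 286753) (nat_lit 10) (.e (nat_lit 344126) (nat_lit 25) (.e (nat_lit 548874) (nat_lit 5) (.e (nat_lit 1564) (nat_lit 110) .nil)))) .nil)) 
(.lf (nat_lit 286292) (.g (nat_lit 3392) (.e (nat_lit 286753) (nat_lit 10) (.e (nat_lit 344160) (nat_lit 37) (.e (nat_lit 647200) (nat_lit 12) (.e (nat_lit 57354) (nat_lit 0) (.e (nat_lit 7270) (nat_lit 385) (.e (nat_lit 122907) (nat_lit 12) (.e (nat_lit 336060) (nat_lit 7) (.e (nat_lit 319533) (nat_lit 16) .nil)))))))) (.g (nat_lit 5) .nil .nil)))) (.nd (nat_lit 6) 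
(.lf (nat_lit 286260) (.g (nat_lit 2116) (.e (nat_lit 286753) (nat_lit 10) (.e (nat_lit 344129) (nat_lit 26) (.e (nat_lit 557087) (nat_lit 11) (.e (nat_lit 24631) (nat_lit 9) .nil)))) .nil)) 
(.lf (nat_lit 286324) (.g (nat_lit 1072) (.e (nat_lit 286753) (nat_lit 10) (.e (nat_lit 344177) (nat_lit 43) (.e (nat_lit 770057) (nat_lit 5) (.e (nat_lit 1562) (nat_lit 110) (.e (nat_lit 352272) (nat_lit 10) .nil))))) .nil))))) (.nd (nat_lit 4) (.nd (nat_lit 5) (.nd (nat_lit 6) 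
(.lf (nat_lit 286220) (.g (nat_lit 2875) (.e (nat_lit 286753) (nat_lit 10) (.e (nat_lit 344117) (nat_lit 21) (.e (nat_lit 516195) (nat_lit 26) (.e (nat_lit 335996) (nat_lit 1) (.e (nat_lit 57851) (nat_lit 252) (.e (nat_lit 57354) (nat_lit 0) (.e (nat_lit 2235) (nat_lit 146) (.e (nat_lit 737299) (nat_lit 7) .nil)))))))) (.g (nat_lit 4) .nil .nil))) 
(.lf (nat_lit 286284) (.g (nat_lit 1532) (.e (nat_lit 286753) (nat_lit 10) (.e (nat_lit 344160) (nat_lit 37) (.e (nat_lit 647195) (nat_lit 9) (.e (nat_lit 7936) (nat_lit 81) .nil)))) .nil))) (.nd (nat_lit 6) 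
(.lf (nat_lit 286252) (.g (nat_lit 580) (.e (nat_lit 286753) (nat_lit 10) (.e (nat_lit 344129) (nat_lit 26) (.e (nat_lit 557065) (nat_lit 9) .nil))) .nil)) 
(.lf (nat_lit 286316) (.g (nat_lit 2043) (.e (nat_lit 286753) (nat_lit 10) (.e (nat_lit 344169) (nat_lit 40) (.e (nat_lit 671762) (nat_lit 4) (.e (nat_lit 65610) (nat_lit 10) (.e (nat_lit 344160) (nat_lit 37) .nil))))) .nil)))) (.nd (nat_lit 5) (.nd (nat_lit 6) 
(.lf (nat_lit 286236) (.g (nat_lit 1614) (.e (nat_lit 286753) (nat_lit 10) (.e (nat_lit 344126) (nat_lit 25) (.e (nat_lit 548874) (nat_lit 5) (.e (nat_lit 1595) (nat_lit 111) (.e (nat_lit 360458) (nat_lit 1) .nil))))) .nil)) 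
(.lf (nat_lit 286300) (.g (nat_lit 3364) (.e (nat_lit 286753) (nat_lit 10) (.e (nat_lit 344168) (nat_lit 40) (.e (nat_lit 671762) (nat_lit 4) (.e (nat_lit 65619) (nat_lit 10) (.e (nat_lit 344160) (nat_lit 37) (.e (nat_lit 647203) (nat_lit 14) (.e (nat_lit 1358) (nat_lit 102) .nil))))))) (.g (nat_lit 6) .nil .nil)))) (.nd (nat_lit 6) 
(.lf (nat_lit 286268) (.g (nat_lit 926) (.e (nat_lit 286753) (nat_lit 10) (.e (nat_lit 344138) (nat_lit 29) (.e (nat_lit 581653) (nat_lit 6) (.e (nat_lit 188460) (nat_lit 26) .nil)))) .nil)) 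
(.lf (nat_lit 286332) (.g (nat_lit 1164) (.e (nat_lit 286753) (nat_lit 10) (.e (nat_lit 344177) (nat_lit 43) (.e (nat_lit 770074) (nat_lit 10) (.e (nat_lit 89856) (nat_lit 0) .nil)))) .nil))))))) (.nd (nat_lit 2) (.nd (nat_lit 3) (.nd (nat_lit 4) (.nd (nat_lit 5) (.nd (nat_lit 6) 
(.lf (nat_lit 286210) (.g (nat_lit 475) (.e (nat_lit 286753) (nat_lit 10) (.e (nat_lit 344117) (nat_lit 21) (.e (nat_lit 516185) (nat_lit 16) .nil))) .nil)) 
(.lf (nat_lit 286274) (.g (nat_lit 1586) (.e (nat_lit 286753) (nat_lit 10) (.e (nat_lit 344156) (nat_lit 36) (.e (nat_lit 638998) (nat_lit 8) (.e (nat_lit 172082) (nat_lit 7) (.e (nat_lit 409639) (nat_lit 15) .nil))))) .nil))) (.nd (nat_lit 6) 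
(.lf (nat_lit 286242) (.g (nat_lit 2105) (.e (nat_lit 286753) (nat_lit 10) (.e (nat_lit 344126) (nat_lit 25) (.e (nat_lit 548889) (nat_lit 9) (.e (nat_lit 65593) (nat_lit 9) .nil)))) .nil)) 
(.lf (nat_lit 286306) (.g (nat_lit 1898) (.e (nat_lit 286753) (nat_lit 10) (.e (nat_lit 344169) (nat_lit 40) (.e (nat_lit 671748) (nat_lit 0) (.e (nat_lit 1586) (nat_lit 111) (.e (nat_lit 360448) (nat_lit 0) .nil))))) .nil)))) (.nd (nat_lit 5) (.nd (nat_lit 6) 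
(.lf (nat_lit 286226) (.g (nat_lit 1351) (.e (nat_lit 286753) (nat_lit 10) (.e (nat_lit 344126) (nat_lit 25) (.e (nat_lit 548874) (nat_lit 5) (.e (nat_lit 1562) (nat_lit 110) .nil)))) .nil)) 
(.lf (nat_lit 286290) (.g (nat_lit 4441) (.e (nat_lit 286753) (nat_lit 10) (.e (nat_lit 344160) (nat_lit 37) (.e (nat_lit 647199) (nat_lit 11) (.e (nat_lit 16473) (nat_lit 14) (.e (nat_lit 491544) (nat_lit 7) (.e (nat_lit 319533) (nat_lit 16) .nil)))))) (.g (nat_lit 0) .nil .nil)))) (.nd (nat_lit 6) 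
(.lf (nat_lit 286258) (.g (nat_lit 2247) (.e (nat_lit 286753) (nat_lit 10) (.e (nat_lit 344129) (nat_lit 26) (.e (nat_lit 557087) (nat_lit 11) (.e (nat_lit 24617) (nat_lit 7) .nil)))) .nil)) 
(.lf (nat_lit 286322) (.g (nat_lit 1067) (.e (nat_lit 286753) (nat_lit 10) (.e (nat_lit 344176) (nat_lit 43) (.e (nat_lit 770074) (nat_lit 10) (.e (nat_lit 89856) (nat_lit 10) .nil)))) .nil))))) (.nd (nat_lit 4) (.nd (nat_lit 5) (.nd (nat_lit 6) 
(.lf (nat_lit 286218) (.g (nat_lit 2355) (.e (nat_lit 286753) (nat_lit 10) (.e (nat_lit 344117) (nat_lit 21) (.e (nat_lit 516195) (nat_lit 26) (.e (nat_lit 335995) (nat_lit 1) (.e (nat_lit 57848) (nat_lit 252) (.e (nat_lit 57383) (nat_lit 4) (.e (nat_lit 106543) (nat_lit 14) (.e (nat_lit 1358) (nat_lit 102) .nil)))))))) (.g (nat_lit 4) .nil .nil))) 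
(.lf (nat_lit 286282) (.g (nat_lit 1532) (.e (nat_lit 286753) (nat_lit 10) (.e (nat_lit 344160) (nat_lit 37) (.e (nat_lit 647195) (nat_lit 9) (.e (nat_lit 7936) (nat_lit 0) .nil)))) .nil))) (.nd (nat_lit 6) 
(.lf (nat_lit 286250) (.g (nat_lit 1938) (.e (nat_lit 286753) (nat_lit 10) (.e (nat_lit 344126) (nat_lit 25) (.e (nat_lit 548891) (nat_lit 11) (.e (nat_lit 81942) (nat_lit 20) (.e (nat_lit 1774) (nat_lit 118) .nil))))) .nil)) 
(.lf (nat_lit 286314) (.g (nat_lit 2520) (.e (nat_lit 286753) (nat_lit 10) (.e (nat_lit 344169) (nat_lit 40) (.e (nat_lit 671760) (nat_lit 4) (.e (nat_lit 65619) (nat_lit 10) (.e (nat_lit 344160) (nat_lit 37) (.e (nat_lit 647203) (nat_lit 14) (.e (nat_lit 1358) (nat_lit 102) .nil))))))) (.g (nat_lit 5) .nil .nil))))) (.nd (nat_lit 5) (.nd (nat_lit 6) 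
(.lf (nat_lit 286234) (.g (nat_lit 1310) (.e (nat_lit 286753) (nat_lit 10) (.e (nat_lit 344126) (nat_lit 25) (.e (nat_lit 548874) (nat_lit 5) (.e (nat_lit 1592) (nat_lit 111) .nil)))) .nil)) 
(.lf (nat_lit 286298) (.g (nat_lit 3026) (.e (nat_lit 286753) (nat_lit 10) (.e (nat_lit 344168) (nat_lit 40) (.e (nat_lit 671762) (nat_lit 4) (.e (nat_lit 65617) (nat_lit 10) (.e (nat_lit 344164) (nat_lit 37) (.e (nat_lit 647203) (nat_lit 14) (.e (nat_lit 1358) (nat_lit 102) .nil))))))) (.g (nat_lit 6) .nil .nil)))) (.nd (nat_lit 6) 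
(.lf (nat_lit 286266) (.g (nat_lit 1357) (.e (nat_lit 286753) (nat_lit 10) (.e (nat_lit 344138) (nat_lit 29) (.e (nat_lit 581653) (nat_lit 6) (.e (nat_lit 188431) (nat_lit 20) (.e (nat_lit 3569) (nat_lit 222) .nil))))) .nil)) 
(.lf (nat_lit 286330) (.g (nat_lit 2542) (.e (nat_lit 286753) (nat_lit 10) (.e (nat_lit 344177) (nat_lit 43) (.e (nat_lit 770072) (nat_lit 8) (.e (nat_lit 65628) (nat_lit 14) (.e (nat_lit 409344) (nat_lit 25) .nil))))) .nil)))))) (.nd (nat_lit 3) (.nd (nat_lit 4) (.nd (nat_lit 5) (.nd (nat_lit 6) 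
(.lf (nat_lit 286214) (.g (nat_lit 3989) (.e (nat_lit 286753) (nat_lit 10) (.e (nat_lit 344117) (nat_lit 21) (.e (nat_lit 516185) (nat_lit 16) (.e (nat_lit 491560) (nat_lit 10) (.e (nat_lit 344115) (nat_lit 20) (.e (nat_lit 507923) (nat_lit 6) .nil)))))) (.g (nat_lit 0) .nil .nil))) 
(.lf (nat_lit 286278) (.g (nat_lit 1517) (.e (nat_lit 286753) (nat_lit 10) (.e (nat_lit 344160) (nat_lit 37) (.e (nat_lit 647190) (nat_lit 9) (.e (nat_lit 392) (nat_lit 32) .nil)))) .nil))) (.nd (nat_lit 6) 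
(.lf (nat_lit 286246) (.g (nat_lit 2134) (.e (nat_lit 286753) (nat_lit 10) (.e (nat_lit 344126) (nat_lit 25) (.e (nat_lit 548889) (nat_lit 9) (.e (nat_lit 65605) (nat_lit 9) .nil)))) .nil)) 
(.lf (nat_lit 286310) (.g (nat_lit 1273) (.e (nat_lit 286753) (nat_lit 10) (.e (nat_lit 344169) (nat_lit 40) (.e (nat_lit 671748) (nat_lit 0) (.e (nat_lit 1598) (nat_lit 111) .nil)))) .nil)))) (.nd (nat_lit 5) (.nd (nat_lit 6) 
(.lf (nat_lit 286230) (.g (nat_lit 1346) (.e (nat_lit 286753) (nat_lit 10) (.e (nat_lit 344126) (nat_lit 25) (.e (nat_lit 548874) (nat_lit 5) (.e (nat_lit 1575) (nat_lit 110) .nil)))) .nil)) 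
(.lf (nat_lit 286294) (.g (nat_lit 2397) (.e (nat_lit 286753) (nat_lit 10) (.e (nat_lit 344161) (nat_lit 37) (.e (nat_lit 647201) (nat_lit 12) (.e (nat_lit 57574) (nat_lit 55) (.e (nat_lit 778464) (nat_lit 11) .nil))))) .nil))) (.nd (nat_lit 6) 
(.lf (nat_lit 286262) (.g (nat_lit 1158) (.e (nat_lit 286753) (nat_lit 10) (.e (nat_lit 344138) (nat_lit 29) (.e (nat_lit 581651) (nat_lit 4) (.e (nat_lit 172094) (nat_lit 9) (.e (nat_lit 426158) (nat_lit 6) (.e (nat_lit 254008) (nat_lit 14) (.e (nat_lit 1358) (nat_lit 102) .nil))))))) (.g (nat_lit 4) .nil .nil))) 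
(.lf (nat_lit 286326) (.g (nat_lit 1185) (.e (nat_lit 286753) (nat_lit 10) (.e (nat_lit 344177) (nat_lit 43) (.e (nat_lit 770071) (nat_lit 8) (.e (nat_lit 65591) (nat_lit 9) .nil)))) .nil))))) (.nd (nat_lit 4) (.nd (nat_lit 5) (.nd (nat_lit 6) 
(.lf (nat_lit 286222) (.g (nat_lit 428) (.e (nat_lit 286753) (nat_lit 10) (.e (nat_lit 344126) (nat_lit 25) (.e (nat_lit 548872) (nat_lit 5) .nil))) .nil)) 
(.lf (nat_lit 286286) (.g (nat_lit 4492) (.e (nat_lit 286753) (nat_lit 10) (.e (nat_lit 344160) (nat_lit 37) (.e (nat_lit 647195) (nat_lit 9) (.e (nat_lit 1310) (nat_lit 98) (.e (nat_lit 147496) (nat_lit 11) (.e (nat_lit 24617) (nat_lit 7) (.e (nat_lit 319533) (nat_lit 16) .nil))))))) (.g (nat_lit 0) .nil .nil)))) (.nd (nat_lit 6) 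
(.lf (nat_lit 286254) (.g (nat_lit 2426) (.e (nat_lit 286753) (nat_lit 10) (.e (nat_lit 344129) (nat_lit 26) (.e (nat_lit 557066) (nat_lit 9) (.e (nat_lit 232) (nat_lit 21) (.e (nat_lit 336175) (nat_lit 10) (.e (nat_lit 344115) (nat_lit 20) (.e (nat_lit 507923) (nat_lit 6) .nil))))))) (.g (nat_lit 4) .nil .nil))) 
(.lf (nat_lit 286318) (.g (nat_lit 1912) (.e (nat_lit 286753) (nat_lit 10) (.e (nat_lit 344169) (nat_lit 40) (.e (nat_lit 671762) (nat_lit 4) (.e (nat_lit 65617) (nat_lit 10) (.e (nat_lit 344161) (nat_lit 37) .nil))))) .nil)))) (.nd (nat_lit 5) (.nd (nat_lit 6) 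
(.lf (nat_lit 286238) (.g (nat_lit 1111) (.e (nat_lit 286753) (nat_lit 10) (.e (nat_lit 344126) (nat_lit 25) (.e (nat_lit 548874) (nat_lit 5) (.e (nat_lit 1598) (nat_lit 111) .nil)))) .nil)) 
(.lf (nat_lit 286302) (.g (nat_lit 2131) (.e (nat_lit 286753) (nat_lit 10) (.e (nat_lit 344169) (nat_lit 40) (.e (nat_lit 671747) (nat_lit 0) (.e (nat_lit 1595) (nat_lit 111) (.e (nat_lit 360457) (nat_lit 0) (.e (nat_lit 5557) (nat_lit 307) (.e (nat_lit 8305) (nat_lit 58) .nil))))))) (.g (nat_lit 4) .nil .nil)))) (.nd (nat_lit 6) 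
(.lf (nat_lit 286270) (.g (nat_lit 1072) (.e (nat_lit 286753) (nat_lit 10) (.e (nat_lit 344156) (nat_lit 36) (.e (nat_lit 638998) (nat_lit 8) (.e (nat_lit 172077) (nat_lit 7) .nil)))) .nil)) 
(.lf (nat_lit 286334) (.g (nat_lit 1766) (.e (nat_lit 286753) (nat_lit 10) (.e (nat_lit 344179) (nat_lit 44) (.e (nat_lit 778465) (nat_lit 11) (.e (nat_lit 24664) (nat_lit 14) .nil)))) .nil)))))))) (.nd (nat_lit 1) (.nd (nat_lit 2) (.nd (nat_lit 3) (.nd (nat_lit 4) (.nd (nat_lit 5) (.nd (nat_lit 6) 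
(.lf (nat_lit 286209) (.g (nat_lit 1762) (.e (nat_lit 286753) (nat_lit 10) (.e (nat_lit 344117) (nat_lit 21) (.e (nat_lit 516170) (nat_lit 13) (.e (nat_lit 458774) (nat_lit 18) (.e (nat_lit 5224) (nat_lit 296) (.e (nat_lit 163871) (nat_lit 2) (.e (nat_lit 196690) (nat_lit 18) (.e (nat_lit 1358) (nat_lit 102) .nil)))))))) (.g (nat_lit 4) .nil .nil))) 
(.lf (nat_lit 286273) (.g (nat_lit 1862) (.e (nat_lit 286753) (nat_lit 10) (.e (nat_lit 344156) (nat_lit 36) (.e (nat_lit 638998) (nat_lit 8) (.e (nat_lit 172082) (nat_lit 7) (.e (nat_lit 409638) (nat_lit 15) (.e (nat_lit 278566) (nat_lit 16) .nil)))))) (.g (nat_lit 4) .nil .nil)))) (.nd (nat_lit 6) 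
(.lf (nat_lit 286241) (.g (nat_lit 2054) (.e (nat_lit 286753) (nat_lit 10) (.e (nat_lit 344126) (nat_lit 25) (.e (nat_lit 548889) (nat_lit 9) (.e (nat_lit 65592) (nat_lit 9) .nil)))) .nil)) 
(.lf (nat_lit 286305) (.g (nat_lit 1226) (.e (nat_lit 286753) (nat_lit 10) (.e (nat_lit 344169) (nat_lit 40) (.e (nat_lit 671748) (nat_lit 0) (.e (nat_lit 1586) (nat_lit 111) .nil)))) .nil)))) (.nd (nat_lit 5) (.nd (nat_lit 6) 
(.lf (nat_lit 286225) (.g (nat_lit 1658) (.e (nat_lit 286753) (nat_lit 10) (.e (nat_lit 344126) (nat_lit 25) (.e (nat_lit 548874) (nat_lit 5) (.e (nat_lit 1559) (nat_lit 110) (.e (nat_lit 352302) (nat_lit 20) .nil))))) .nil)) 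
(.lf (nat_lit 286289) (.g (nat_lit 1628) (.e (nat_lit 286753) (nat_lit 10) (.e (nat_lit 344160) (nat_lit 37) (.e (nat_lit 647199) (nat_lit 11) (.e (nat_lit 16473) (nat_lit 14) (.e (nat_lit 491544) (nat_lit 7) .nil))))) .nil))) (.nd (nat_lit 6) 
(.lf (nat_lit 286257) (.g (nat_lit 461) (.e (nat_lit 286753) (nat_lit 10) (.e (nat_lit 344129) (nat_lit 26) (.e (nat_lit 557087) (nat_lit 11) .nil))) .nil)) 
(.lf (nat_lit 286321) (.g (nat_lit 2188) (.e (nat_lit 286753) (nat_lit 10) (.e (nat_lit 344169) (nat_lit 40) (.e (nat_lit 671762) (nat_lit 4) (.e (nat_lit 65619) (nat_lit 10) (.e (nat_lit 344160) (nat_lit 37) (.e (nat_lit 647203) (nat_lit 14) (.e (nat_lit 1359) (nat_lit 102) .nil))))))) (.g (nat_lit 4) .nil .nil)))))) (.nd (nat_lit 4) (.nd (nat_lit 5) (.nd (nat_lit 6) 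
(.lf (nat_lit 286217) (.g (nat_lit 1375) (.e (nat_lit 286753) (nat_lit 10) (.e (nat_lit 344117) (nat_lit 21) (.e (nat_lit 516191) (nat_lit 17) (.e (nat_lit 7936) (nat_lit 362) .nil)))) .nil)) 
(.lf (nat_lit 286281) (.g (nat_lit 4513) (.e (nat_lit 286753) (nat_lit 10) (.e (nat_lit 344160) (nat_lit 37) (.e (nat_lit 647190) (nat_lit 9) (.e (nat_lit 1312) (nat_lit 98) (.e (nat_lit 147496) (nat_lit 11) (.e (nat_lit 24617) (nat_lit 7) (.e (nat_lit 319533) (nat_lit 16) .nil))))))) (.g (nat_lit 0) .nil .nil)))) (.nd (nat_lit 6) 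
(.lf (nat_lit 286249) (.g (nat_lit 1937) (.e (nat_lit 286753) (nat_lit 10) (.e (nat_lit 344126) (nat_lit 25) (.e (nat_lit 548891) (nat_lit 11) (.e (nat_lit 81941) (nat_lit 20) .nil)))) .nil)) 
(.lf (nat_lit 286313) (.g (nat_lit 1863) (.e (nat_lit 286753) (nat_lit 10) (.e (nat_lit 344169) (nat_lit 40) (.e (nat_lit 671759) (nat_lit 3) (.e (nat_lit 57520) (nat_lit 44) (.e (nat_lit 688178) (nat_lit 16) .nil))))) .nil)))) (.nd (nat_lit 5) (.nd (nat_lit 6) 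
(.lf (nat_lit 286233) (.g (nat_lit 2018) (.e (nat_lit 286753) (nat_lit 10) (.e (nat_lit 344126) (nat_lit 25) (.e (nat_lit 548874) (nat_lit 5) (.e (nat_lit 1589) (nat_lit 111) (.e (nat_lit 368384) (nat_lit 2) .nil))))) .nil)) 
(.lf (nat_lit 286297) (.g (nat_lit 3167) (.e (nat_lit 286753) (nat_lit 10) (.e (nat_lit 344168) (nat_lit 40) (.e (nat_lit 671762) (nat_lit 4) (.e (nat_lit 65610) (nat_lit 10) (.e (nat_lit 344160) (nat_lit 37) (.e (nat_lit 647203) (nat_lit 14) (.e (nat_lit 1358) (nat_lit 102) .nil))))))) (.g (nat_lit 6) .nil .nil)))) (.nd (nat_lit 6) 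
(.lf (nat_lit 286265) (.g (nat_lit 1372) (.e (nat_lit 286753) (nat_lit 10) (.e (nat_lit 344138) (nat_lit 29) (.e (nat_lit 581653) (nat_lit 6) (.e (nat_lit 188431) (nat_lit 20) (.e (nat_lit 3483) (nat_lit 218) .nil))))) .nil)) 
(.lf (nat_lit 286329) (.g (nat_lit 1667) (.e (nat_lit 286753) (nat_lit 10) (.e (nat_lit 344177) (nat_lit 43) (.e (nat_lit 770072) (nat_lit 8) (.e (nat_lit 65592) (nat_lit 9) .nil)))) .nil)))))) (.nd (nat_lit 3) (.nd (nat_lit 4) (.nd (nat_lit 5) (.nd (nat_lit 6) 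
(.lf (nat_lit 286213) (.g (nat_lit 3899) (.e (nat_lit 286753) (nat_lit 10) (.e (nat_lit 344117) (nat_lit 21) (.e (nat_lit 516185) (nat_lit 16) (.e (nat_lit 491558) (nat_lit 10) (.e (nat_lit 344115) (nat_lit 20) (.e (nat_lit 507923) (nat_lit 6) .nil)))))) (.g (nat_lit 0) .nil .nil))) 
(.lf (nat_lit 286277) (.g (nat_lit 2390) (.e (nat_lit 286753) (nat_lit 10) (.e (nat_lit 344160) (nat_lit 37) (.e (nat_lit 647190) (nat_lit 9) (.e (nat_lit 359) (nat_lit 30) (.e (nat_lit 409604) (nat_lit 0) .nil))))) .nil))) (.nd (nat_lit 6) 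
(.lf (nat_lit 286245) (.g (nat_lit 3113) (.e (nat_lit 286753) (nat_lit 10) (.e (nat_lit 344126) (nat_lit 25) (.e (nat_lit 548889) (nat_lit 9) (.e (nat_lit 65598) (nat_lit 9) (.e (nat_lit 336013) (nat_lit 2) (.e (nat_lit 98048) (nat_lit 18) (.e (nat_lit 1353) (nat_lit 102) .nil))))))) (.g (nat_lit 4) .nil .nil))) 
(.lf (nat_lit 286309) (.g (nat_lit 2058) (.e (nat_lit 286753) (nat_lit 10) (.e (nat_lit 344169) (nat_lit 40) (.e (nat_lit 671748) (nat_lit 0) (.e (nat_lit 1589) (nat_lit 111) (.e (nat_lit 360482) (nat_lit 15) .nil))))) .nil)))) (.nd (nat_lit 5) (.nd (nat_lit 6) 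
(.lf (nat_lit 286229) (.g (nat_lit 1508) (.e (nat_lit 286753) (nat_lit 10) (.e (nat_lit 344126) (nat_lit 25) (.e (nat_lit 548874) (nat_lit 5) (.e (nat_lit 1572) (nat_lit 110) .nil)))) .nil)) 
(.lf (nat_lit 286293) (.g (nat_lit 2531) (.e (nat_lit 286753) (nat_lit 10) (.e (nat_lit 344160) (nat_lit 37) (.e (nat_lit 647200) (nat_lit 12) (.e (nat_lit 57575) (nat_lit 55) (.e (nat_lit 778361) (nat_lit 9) (.e (nat_lit 232) (nat_lit 21) (.e (nat_lit 336060) (nat_lit 7) (.e (nat_lit 319533) (nat_lit 16) .nil)))))))) (.g (nat_lit 4) .nil .nil)))) (.nd (nat_lit 6) 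
(.lf (nat_lit 286261) (.g (nat_lit 2628) (.e (nat_lit 286753) (nat_lit 10) (.e (nat_lit 344129) (nat_lit 26) (.e (nat_lit 557090) (nat_lit 12) (.e (nat_lit 163993) (nat_lit 36) .nil)))) .nil)) 
(.lf (nat_lit 286325) (.g (nat_lit 1180) (.e (nat_lit 286753) (nat_lit 10) (.e (nat_lit 344177) (nat_lit 43) (.e (nat_lit 770057) (nat_lit 5) (.e (nat_lit 1575) (nat_lit 110) (.e (nat_lit 352271) (nat_lit 9) (.e (nat_lit 417536) (nat_lit 6) .nil)))))) (.g (nat_lit 4) .nil .nil)))))) (.nd (nat_lit 4) (.nd (nat_lit 5) (.nd (nat_lit 6) 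
(.lf (nat_lit 286221) (.g (nat_lit 685) (.e (nat_lit 286753) (nat_lit 10) (.e (nat_lit 344123) (nat_lit 24) (.e (nat_lit 540724) (nat_lit 28) (.e (nat_lit 442399) (nat_lit 20) (.e (nat_lit 7936) (nat_lit 222) (.e (nat_lit 737300) (nat_lit 7) .nil)))))) (.g (nat_lit 4) .nil .nil))) 
(.lf (nat_lit 286285) (.g (nat_lit 1755) (.e (nat_lit 286753) (nat_lit 10) (.e (nat_lit 344160) (nat_lit 37) (.e (nat_lit 647195) (nat_lit 9) (.e (nat_lit 1181) (nat_lit 87) (.e (nat_lit 57655) (nat_lit 152) .nil))))) .nil))) (.nd (nat_lit 6) 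
(.lf (nat_lit 286253) (.g (nat_lit 496) (.e (nat_lit 286753) (nat_lit 10) (.e (nat_lit 344129) (nat_lit 26) (.e (nat_lit 557066) (nat_lit 9) .nil))) .nil)) 
(.lf (nat_lit 286317) (.g (nat_lit 1880) (.e (nat_lit 286753) (nat_lit 10) (.e (nat_lit 344169) (nat_lit 40) (.e (nat_lit 671762) (nat_lit 4) (.e (nat_lit 65617) (nat_lit 10) (.e (nat_lit 344158) (nat_lit 37) .nil))))) .nil)))) (.nd (nat_lit 5) (.nd (nat_lit 6) 
(.lf (nat_lit 286237) (.g (nat_lit 1614) (.e (nat_lit 286753) (nat_lit 10) (.e (nat_lit 344126) (nat_lit 25) (.e (nat_lit 548874) (nat_lit 5) (.e (nat_lit 1595) (nat_lit 111) (.e (nat_lit 360462) (nat_lit 1) .nil))))) .nil)) 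
(.lf (nat_lit 286301) (.g (nat_lit 1589) (.e (nat_lit 286753) (nat_lit 10) (.e (nat_lit 344169) (nat_lit 40) (.e (nat_lit 671747) (nat_lit 0) (.e (nat_lit 1586) (nat_lit 111) (.e (nat_lit 360456) (nat_lit 0) .nil))))) .nil))) (.nd (nat_lit 6) 
(.lf (nat_lit 286269) (.g (nat_lit 437) (.e (nat_lit 286753) (nat_lit 10) (.e (nat_lit 344156) (nat_lit 36) (.e (nat_lit 638998) (nat_lit 8) .nil))) .nil)) 
(.lf (nat_lit 286333) (.g (nat_lit 2159) (.e (nat_lit 286753) (nat_lit 10) (.e (nat_lit 344179) (nat_lit 44) (.e (nat_lit 778464) (nat_lit 11) (.e (nat_lit 24665) (nat_lit 14) (.e (nat_lit 409344) (nat_lit 25) (.e (nat_lit 319533) (nat_lit 16) .nil)))))) (.g (nat_lit 4) .nil .nil)))))))) (.nd (nat_lit 2) (.nd (nat_lit 3) (.nd (nat_lit 4) (.nd (nat_lit 5) (.nd (nat_lit 6) 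
(.lf (nat_lit 286211) (.g (nat_lit 1388) (.e (nat_lit 286753) (nat_lit 10) (.e (nat_lit 344117) (nat_lit 21) (.e (nat_lit 516185) (nat_lit 16) (.e (nat_lit 491546) (nat_lit 9) .nil)))) .nil)) 
(.lf (nat_lit 286275) (.g (nat_lit 1697) (.e (nat_lit 286753) (nat_lit 10) (.e (nat_lit 344160) (nat_lit 37) (.e (nat_lit 647188) (nat_lit 9) (.e (nat_lit 359) (nat_lit 30) (.e (nat_lit 409603) (nat_lit 0) .nil))))) .nil))) (.nd (nat_lit 6) 
(.lf (nat_lit 286243) (.g (nat_lit 1899) (.e (nat_lit 286753) (nat_lit 10) (.e (nat_lit 344126) (nat_lit 25) (.e (nat_lit 548889) (nat_lit 9) (.e (nat_lit 65598) (nat_lit 9) .nil)))) .nil)) 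
(.lf (nat_lit 286307) (.g (nat_lit 2443) (.e (nat_lit 286753) (nat_lit 10) (.e (nat_lit 344169) (nat_lit 40) (.e (nat_lit 671748) (nat_lit 0) (.e (nat_lit 1586) (nat_lit 111) (.e (nat_lit 360484) (nat_lit 15) (.e (nat_lit 647203) (nat_lit 14) (.e (nat_lit 1358) (nat_lit 102) .nil))))))) (.g (nat_lit 5) .nil .nil))))) (.nd (nat_lit 5) (.nd (nat_lit 6) 
(.lf (nat_lit 286227) (.g (nat_lit 1727) (.e (nat_lit 286753) (nat_lit 10) (.e (nat_lit 344126) (nat_lit 25) (.e (nat_lit 548874) (nat_lit 5) (.e (nat_lit 1562) (nat_lit 110) (.e (nat_lit 352302) (nat_lit 20) .nil))))) .nil)) 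
(.lf (nat_lit 286291) (.g (nat_lit 1261) (.e (nat_lit 286753) (nat_lit 10) (.e (nat_lit 344160) (nat_lit 37) (.e (nat_lit 647200) (nat_lit 12) (.e (nat_lit 57354) (nat_lit 0) .nil)))) .nil))) (.nd (nat_lit 6) 
(.lf (nat_lit 286259) (.g (nat_lit 3601) (.e (nat_lit 286753) (nat_lit 10) (.e (nat_lit 344129) (nat_lit 26) (.e (nat_lit 557087) (nat_lit 11) (.e (nat_lit 24617) (nat_lit 7) (.e (nat_lit 319490) (nat_lit 0) .nil))))) .nil)) 
(.lf (nat_lit 286323) (.g (nat_lit 1115) (.e (nat_lit 286753) (nat_lit 10) (.e (nat_lit 344177) (nat_lit 43) (.e (nat_lit 770056) (nat_lit 5) (.e (nat_lit 1575) (nat_lit 110) (.e (nat_lit 352271) (nat_lit 9) (.e (nat_lit 417536) (nat_lit 6) .nil)))))) (.g (nat_lit 4) .nil .nil)))))) (.nd (nat_lit 4) (.nd (nat_lit 5) (.nd (nat_lit 6) 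
(.lf (nat_lit 286219) (.g (nat_lit 2283) (.e (nat_lit 286753) (nat_lit 10) (.e (nat_lit 344117) (nat_lit 21) (.e (nat_lit 516195) (nat_lit 26) (.e (nat_lit 335996) (nat_lit 1) (.e (nat_lit 57851) (nat_lit 252) .nil))))) .nil)) 
(.lf (nat_lit 286283) (.g (nat_lit 1728) (.e (nat_lit 286753) (nat_lit 10) (.e (nat_lit 344160) (nat_lit 37) (.e (nat_lit 647195) (nat_lit 9) (.e (nat_lit 426) (nat_lit 32) (.e (nat_lit 426011) (nat_lit 0) .nil))))) .nil))) (.nd (nat_lit 6) 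
(.lf (nat_lit 286251) (.g (nat_lit 434) (.e (nat_lit 286753) (nat_lit 10) (.e (nat_lit 344126) (nat_lit 25) (.e (nat_lit 556800) (nat_lit 11) .nil))) .nil)) 
(.lf (nat_lit 286315) (.g (nat_lit 1915) (.e (nat_lit 286753) (nat_lit 10) (.e (nat_lit 344169) (nat_lit 40) (.e (nat_lit 671761) (nat_lit 4) (.e (nat_lit 65610) (nat_lit 10) (.e (nat_lit 344160) (nat_lit 37) .nil))))) .nil)))) (.nd (nat_lit 5) (.nd (nat_lit 6) 
(.lf (nat_lit 286235) (.g (nat_lit 968) (.e (nat_lit 286753) (nat_lit 10) (.e (nat_lit 344126) (nat_lit 25) (.e (nat_lit 548874) (nat_lit 5) (.e (nat_lit 1595) (nat_lit 111) .nil)))) .nil)) 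
(.lf (nat_lit 286299) (.g (nat_lit 2242) (.e (nat_lit 286753) (nat_lit 10) (.e (nat_lit 344168) (nat_lit 40) (.e (nat_lit 671762) (nat_lit 4) (.e (nat_lit 65619) (nat_lit 10) (.e (nat_lit 344160) (nat_lit 37) (.e (nat_lit 647203) (nat_lit 14) (.e (nat_lit 1355) (nat_lit 102) .nil))))))) (.g (nat_lit 4) .nil .nil)))) (.nd (nat_lit 6) 
(.lf (nat_lit 286267) (.g (nat_lit 1185) (.e (nat_lit 286753) (nat_lit 10) (.e (nat_lit 344138) (nat_lit 29) (.e (nat_lit 581653) (nat_lit 6) (.e (nat_lit 188431) (nat_lit 20) (.e (nat_lit 3571) (nat_lit 222) .nil))))) .nil)) 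
(.lf (nat_lit 286331) (.g (nat_lit 2267) (.e (nat_lit 286753) (nat_lit 10) (.e (nat_lit 344177) (nat_lit 43) (.e (nat_lit 770072) (nat_lit 8) (.e (nat_lit 65630) (nat_lit 14) (.e (nat_lit 409344) (nat_lit 25) .nil))))) .nil)))))) (.nd (nat_lit 3) (.nd (nat_lit 4) (.nd (nat_lit 5) (.nd (nat_lit 6) 
(.lf (nat_lit 286215) (.g (nat_lit 649) (.e (nat_lit 286753) (nat_lit 10) (.e (nat_lit 344117) (nat_lit 21) (.e (nat_lit 516191) (nat_lit 17) .nil))) .nil)) 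
(.lf (nat_lit 286279) (.g (nat_lit 1689) (.e (nat_lit 286753) (nat_lit 10) (.e (nat_lit 344160) (nat_lit 37) (.e (nat_lit 647190) (nat_lit 9) (.e (nat_lit 1177) (nat_lit 87) (.e (nat_lit 57666) (nat_lit 152) .nil))))) .nil))) (.nd (nat_lit 6) 
(.lf (nat_lit 286247) (.g (nat_lit 2157) (.e (nat_lit 286753) (nat_lit 10) (.e (nat_lit 344126) (nat_lit 25) (.e (nat_lit 548889) (nat_lit 9) (.e (nat_lit 65609) (nat_lit 10) .nil)))) .nil)) 
(.lf (nat_lit 286311) (.g (nat_lit 1471) (.e (nat_lit 286753) (nat_lit 10) (.e (nat_lit 344169) (nat_lit 40) (.e (nat_lit 671748) (nat_lit 0) (.e (nat_lit 1599) (nat_lit 111) (.e (nat_lit 360456) (nat_lit 0) .nil))))) .nil)))) (.nd (nat_lit 5) (.nd (nat_lit 6) 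
(.lf (nat_lit 286231) (.g (nat_lit 1457) (.e (nat_lit 286753) (nat_lit 10) (.e (nat_lit 344126) (nat_lit 25) (.e (nat_lit 548874) (nat_lit 5) (.e (nat_lit 1576) (nat_lit 110) .nil)))) .nil)) 
(.lf (nat_lit 286295) (.g (nat_lit 1540) (.e (nat_lit 286753) (nat_lit 10) (.e (nat_lit 344168) (nat_lit 40) (.e (nat_lit 671751) (nat_lit 0) (.e (nat_lit 1181) (nat_lit 87) (.e (nat_lit 57724) (nat_lit 181) .nil))))) .nil))) (.nd (nat_lit 6) 
(.lf (nat_lit 286263) (.g (nat_lit 2190) (.e (nat_lit 286753) (nat_lit 10) (.e (nat_lit 344138) (nat_lit 29) (.e (nat_lit 581651) (nat_lit 4) (.e (nat_lit 172094) (nat_lit 9) (.e (nat_lit 426160) (nat_lit 6) (.e (nat_lit 254008) (nat_lit 14) (.e (nat_lit 1358) (nat_lit 102) .nil))))))) (.g (nat_lit 7) .nil .nil))) 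
(.lf (nat_lit 286327) (.g (nat_lit 1880) (.e (nat_lit 286753) (nat_lit 10) (.e (nat_lit 344177) (nat_lit 43) (.e (nat_lit 770071) (nat_lit 8) (.e (nat_lit 65630) (nat_lit 14) (.e (nat_lit 409344) (nat_lit 25) .nil))))) .nil))))) (.nd (nat_lit 4) (.nd (nat_lit 5) (.nd (nat_lit 6) 
(.lf (nat_lit 286223) (.g (nat_lit 347) (.e (nat_lit 286753) (nat_lit 10) (.e (nat_lit 344126) (nat_lit 25) (.e (nat_lit 548873) (nat_lit 5) .nil))) .nil)) 
(.lf (nat_lit 286287) (.g (nat_lit 1115) (.e (nat_lit 286753) (nat_lit 10) (.e (nat_lit 344160) (nat_lit 37) (.e (nat_lit 647199) (nat_lit 11) (.e (nat_lit 16388) (nat_lit 0) .nil)))) .nil))) (.nd (nat_lit 6) 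
(.lf (nat_lit 286255) (.g (nat_lit 1038) (.e (nat_lit 286753) (nat_lit 10) (.e (nat_lit 344129) (nat_lit 26) (.e (nat_lit 557067) (nat_lit 9) (.e (nat_lit 7936) (nat_lit 23) .nil)))) .nil)) 
(.lf (nat_lit 286319) (.g (nat_lit 2455) (.e (nat_lit 286753) (nat_lit 10) (.e (nat_lit 344169) (nat_lit 40) (.e (nat_lit 671762) (nat_lit 4) (.e (nat_lit 65617) (nat_lit 10) (.e (nat_lit 344161) (nat_lit 37) (.e (nat_lit 647203) (nat_lit 14) (.e (nat_lit 1355) (nat_lit 102) .nil))))))) (.g (nat_lit 4) .nil .nil))))) (.nd (nat_lit 5) (.nd (nat_lit 6) 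
(.lf (nat_lit 286239) (.g (nat_lit 1227) (.e (nat_lit 286753) (nat_lit 10) (.e (nat_lit 344126) (nat_lit 25) (.e (nat_lit 548874) (nat_lit 5) (.e (nat_lit 1599) (nat_lit 111) .nil)))) .nil)) 
(.lf (nat_lit 286303) (.g (nat_lit 2215) (.e (nat_lit 286753) (nat_lit 10) (.e (nat_lit 344169) (nat_lit 40) (.e (nat_lit 671748) (nat_lit 0) (.e (nat_lit 1183) (nat_lit 87) (.e (nat_lit 57725) (nat_lit 181) .nil))))) .nil))) (.nd (nat_lit 6) 
(.lf (nat_lit 286271) (.g (nat_lit 1072) (.e (nat_lit 286753) (nat_lit 10) (.e (nat_lit 344156) (nat_lit 36) (.e (nat_lit 638998) (nat_lit 8) (.e (nat_lit 172078) (nat_lit 7) .nil)))) .nil)) 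
(.lf (nat_lit 286335) (.g (nat_lit 1143) (.e (nat_lit 286753) (nat_lit 10) (.e (nat_lit 352000) (nat_lit 46) (.e (nat_lit 794637) (nat_lit 11) (.e (nat_lit 336231) (nat_lit 14) (.e (nat_lit 409344) (nat_lit 25) (.e (nat_lit 319533) (nat_lit 16) .nil)))))) (.g (nat_lit 4) .nil .nil))))))))))

noncomputable def tv3631 : DT := (.nd (nat_lit 0) (.nd (nat_lit 1) (.nd (nat_lit 2) (.nd (nat_lit 3) (.nd (nat_lit 4) (.nd (nat_lit 5) (.nd (nat_lit 6) 
(.lf (nat_lit 286336) (.g (nat_lit 2734) (.e (nat_lit 286753) (nat_lit 10) (.e (nat_lit 344183) (nat_lit 49) (.e (nat_lit 819219) (nat_lit 4) (.e (nat_lit 172106) (nat_lit 10) (.e (nat_lit 434244) (nat_lit 28) (.e (nat_lit 573502) (nat_lit 18) (.e (nat_lit 1358) (nat_lit 102) .nil))))))) (.g (nat_lit 5) .nil .nil))) 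
(.lf (nat_lit 286400) (.g (nat_lit 2381) (.e (nat_lit 286755) (nat_lit 10) (.e (nat_lit 344117) (nat_lit 21) (.e (nat_lit 516185) (nat_lit 16) (.e (nat_lit 491558) (nat_lit 10) (.e (nat_lit 344115) (nat_lit 20) .nil))))) .nil))) (.nd (nat_lit 6) 
(.lf (nat_lit 286368) (.g (nat_lit 2487) (.e (nat_lit 286754) (nat_lit 10) (.e (nat_lit 344133) (nat_lit 26) (.e (nat_lit 557087) (nat_lit 11) (.e (nat_lit 24631) (nat_lit 9) .nil)))) .nil)) 
(.lf (nat_lit 286432) (.g (nat_lit 1453) (.e (nat_lit 286755) (nat_lit 10) (.e (nat_lit 344156) (nat_lit 36) (.e (nat_lit 638998) (nat_lit 8) (.e (nat_lit 172080) (nat_lit 7) (.e (nat_lit 409638) (nat_lit 15) .nil))))) .nil)))) (.nd (nat_lit 5) (.nd (nat_lit 6) 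
(.lf (nat_lit 286352) (.g (nat_lit 1254) (.e (nat_lit 286754) (nat_lit 10) (.e (nat_lit 344126) (nat_lit 25) (.e (nat_lit 548874) (nat_lit 5) (.e (nat_lit 1589) (nat_lit 111) .nil)))) .nil)) 
(.lf (nat_lit 286416) (.g (nat_lit 2023) (.e (nat_lit 286755) (nat_lit 10) (.e (nat_lit 344126) (nat_lit 25) (.e (nat_lit 548891) (nat_lit 11) (.e (nat_lit 81928) (nat_lit 20) .nil)))) .nil))) (.nd (nat_lit 6) 
(.lf (nat_lit 286384) (.g (nat_lit 1623) (.e (nat_lit 286754) (nat_lit 10) (.e (nat_lit 344177) (nat_lit 43) (.e (nat_lit 770058) (nat_lit 5) (.e (nat_lit 1572) (nat_lit 110) (.e (nat_lit 352272) (nat_lit 10) (.e (nat_lit 417811) (nat_lit 6) .nil)))))) (.g (nat_lit 4) .nil .nil))) 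
(.lf (nat_lit 286448) (.g (nat_lit 740) (.e (nat_lit 286755) (nat_lit 10) (.e (nat_lit 344177) (nat_lit 43) (.e (nat_lit 770057) (nat_lit 5) (.e (nat_lit 1575) (nat_lit 110) .nil)))) .nil))))) (.nd (nat_lit 4) (.nd (nat_lit 5) (.nd (nat_lit 6) 
(.lf (nat_lit 286344) (.g (nat_lit 1728) (.e (nat_lit 286754) (nat_lit 10) (.e (nat_lit 344117) (nat_lit 21) (.e (nat_lit 516097) (nat_lit 0) (.e (nat_lit 7593) (nat_lit 407) (.e (nat_lit 73744) (nat_lit 2) .nil))))) .nil)) 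
(.lf (nat_lit 286408) (.g (nat_lit 1789) (.e (nat_lit 286755) (nat_lit 10) (.e (nat_lit 344126) (nat_lit 25) (.e (nat_lit 548874) (nat_lit 5) (.e (nat_lit 1586) (nat_lit 111) (.e (nat_lit 368384) (nat_lit 2) .nil))))) .nil))) (.nd (nat_lit 6) 
(.lf (nat_lit 286376) (.g (nat_lit 2459) (.e (nat_lit 286754) (nat_lit 10) (.e (nat_lit 344169) (nat_lit 40) (.e (nat_lit 671762) (nat_lit 4) (.e (nat_lit 65619) (nat_lit 10) (.e (nat_lit 344160) (nat_lit 37) (.e (nat_lit 647203) (nat_lit 14) (.e (nat_lit 1358) (nat_lit 102) .nil))))))) (.g (nat_lit 4) .nil .nil))) 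
(.lf (nat_lit 286440) (.g (nat_lit 1183) (.e (nat_lit 286755) (nat_lit 10) (.e (nat_lit 344169) (nat_lit 40) (.e (nat_lit 671751) (nat_lit 0) (.e (nat_lit 1182) (nat_lit 87) .nil)))) .nil)))) (.nd (nat_lit 5) (.nd (nat_lit 6) 
(.lf (nat_lit 286360) (.g (nat_lit 2303) (.e (nat_lit 286754) (nat_lit 10) (.e (nat_lit 344126) (nat_lit 25) (.e (nat_lit 548891) (nat_lit 11) (.e (nat_lit 81938) (nat_lit 20) (.e (nat_lit 1774) (nat_lit 118) .nil))))) .nil)) 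
(.lf (nat_lit 286424) (.g (nat_lit 2341) (.e (nat_lit 286755) (nat_lit 10) (.e (nat_lit 344129) (nat_lit 26) (.e (nat_lit 557087) (nat_lit 11) (.e (nat_lit 24641) (nat_lit 10) .nil)))) .nil))) (.nd (nat_lit 6) 
(.lf (nat_lit 286392) (.g (nat_lit 2234) (.e (nat_lit 286755) (nat_lit 10) (.e (nat_lit 344097) (nat_lit 18) (.e (nat_lit 5907) (nat_lit 320) (.e (nat_lit 1181) (nat_lit 87) (.e (nat_lit 57520) (nat_lit 44) .nil))))) .nil)) 
(.lf (nat_lit 286456) (.g (nat_lit 402) (.e (nat_lit 286756) (nat_lit 10) (.e (nat_lit 344097) (nat_lit 18) (.e (nat_lit 5195) (nat_lit 294) .nil))) .nil)))))) (.nd (nat_lit 3) (.nd (nat_lit 4) (.nd (nat_lit 5) (.nd (nat_lit 6) 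
(.lf (nat_lit 286340) (.g (nat_lit 1401) (.e (nat_lit 286754) (nat_lit 10) (.e (nat_lit 344091) (nat_lit 18) (.e (nat_lit 7125) (nat_lit 382) (.e (nat_lit 1224) (nat_lit 90) (.e (nat_lit 89856) (nat_lit 10) .nil))))) .nil)) 
(.lf (nat_lit 286404) (.g (nat_lit 453) (.e (nat_lit 286755) (nat_lit 10) (.e (nat_lit 344123) (nat_lit 24) (.e (nat_lit 540724) (nat_lit 28) (.e (nat_lit 442395) (nat_lit 20) .nil)))) .nil))) (.nd (nat_lit 6) 
(.lf (nat_lit 286372) (.g (nat_lit 1131) (.e (nat_lit 286754) (nat_lit 10) (.e (nat_lit 344156) (nat_lit 36) (.e (nat_lit 638998) (nat_lit 8) (.e (nat_lit 172082) (nat_lit 7) .nil)))) .nil)) 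
(.lf (nat_lit 286436) (.g (nat_lit 1273) (.e (nat_lit 286755) (nat_lit 10) (.e (nat_lit 344156) (nat_lit 36) (.e (nat_lit 638998) (nat_lit 8) (.e (nat_lit 172081) (nat_lit 7) (.e (nat_lit 409638) (nat_lit 15) (.e (nat_lit 278567) (nat_lit 16) .nil)))))) (.g (nat_lit 4) .nil .nil))))) (.nd (nat_lit 5) (.nd (nat_lit 6) 
(.lf (nat_lit 286356) (.g (nat_lit 1841) (.e (nat_lit 286754) (nat_lit 10) (.e (nat_lit 344126) (nat_lit 25) (.e (nat_lit 548889) (nat_lit 9) (.e (nat_lit 65598) (nat_lit 9) .nil)))) .nil)) 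
(.lf (nat_lit 286420) (.g (nat_lit 2275) (.e (nat_lit 286755) (nat_lit 10) (.e (nat_lit 344126) (nat_lit 25) (.e (nat_lit 548891) (nat_lit 11) (.e (nat_lit 81947) (nat_lit 20) (.e (nat_lit 1774) (nat_lit 118) (.e (nat_lit 507923) (nat_lit 6) .nil)))))) (.g (nat_lit 4) .nil .nil)))) (.nd (nat_lit 6) 
(.lf (nat_lit 286388) (.g (nat_lit 428) (.e (nat_lit 286754) (nat_lit 10) (.e (nat_lit 344177) (nat_lit 43) (.e (nat_lit 770074) (nat_lit 10) .nil))) .nil)) 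
(.lf (nat_lit 286452) (.g (nat_lit 1634) (.e (nat_lit 286755) (nat_lit 10) (.e (nat_lit 344177) (nat_lit 43) (.e (nat_lit 770072) (nat_lit 8) (.e (nat_lit 65591) (nat_lit 9) .nil)))) .nil))))) (.nd (nat_lit 4) (.nd (nat_lit 5) (.nd (nat_lit 6) 
(.lf (nat_lit 286348) (.g (nat_lit 677) (.e (nat_lit 286754) (nat_lit 10) (.e (nat_lit 344123) (nat_lit 24) (.e (nat_lit 540724) (nat_lit 28) (.e (nat_lit 442395) (nat_lit 20) (.e (nat_lit 3567) (nat_lit 222) .nil))))) .nil)) 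
(.lf (nat_lit 286412) (.g (nat_lit 1773) (.e (nat_lit 286755) (nat_lit 10) (.e (nat_lit 344126) (nat_lit 25) (.e (nat_lit 548889) (nat_lit 9) (.e (nat_lit 65598) (nat_lit 9) .nil)))) .nil))) (.nd (nat_lit 6) 
(.lf (nat_lit 286380) (.g (nat_lit 436) (.e (nat_lit 286754) (nat_lit 10) (.e (nat_lit 344177) (nat_lit 43) (.e (nat_lit 770055) (nat_lit 5) .nil))) .nil)) 
(.lf (nat_lit 286444) (.g (nat_lit 1893) (.e (nat_lit 286755) (nat_lit 10) (.e (nat_lit 344174) (nat_lit 42) (.e (nat_lit 761869) (nat_lit 5) (.e (nat_lit 1574) (nat_lit 110) (.e (nat_lit 352272) (nat_lit 10) (.e (nat_lit 417811) (nat_lit 6) .nil)))))) (.g (nat_lit 0) .nil .nil))))) (.nd (nat_lit 5) (.nd (nat_lit 6) 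
(.lf (nat_lit 286364) (.g (nat_lit 2845) (.e (nat_lit 286754) (nat_lit 10) (.e (nat_lit 344129) (nat_lit 26) (.e (nat_lit 557087) (nat_lit 11) (.e (nat_lit 24640) (nat_lit 10) (.e (nat_lit 344115) (nat_lit 20) .nil))))) .nil)) 
(.lf (nat_lit 286428) (.g (nat_lit 428) (.e (nat_lit 286755) (nat_lit 10) (.e (nat_lit 344156) (nat_lit 36) (.e (nat_lit 638998) (nat_lit 8) .nil))) .nil))) (.nd (nat_lit 6) 
(.lf (nat_lit 286396) (.g (nat_lit 1122) (.e (nat_lit 286755) (nat_lit 10) (.e (nat_lit 344100) (nat_lit 18) (.e (nat_lit 7147) (nat_lit 382) (.e (nat_lit 1217) (nat_lit 90) (.e (nat_lit 89856) (nat_lit 10) .nil))))) .nil)) 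
(.lf (nat_lit 286460) (.g (nat_lit 627) (.e (nat_lit 286756) (nat_lit 10) (.e (nat_lit 344097) (nat_lit 18) (.e (nat_lit 7147) (nat_lit 382) (.e (nat_lit 1216) (nat_lit 90) .nil)))) .nil))))))) (.nd (nat_lit 2) (.nd (nat_lit 3) (.nd (nat_lit 4) (.nd (nat_lit 5) (.nd (nat_lit 6) 
(.lf (nat_lit 286338) (.g (nat_lit 3756) (.e (nat_lit 286753) (nat_lit 10) (.e (nat_lit 344183) (nat_lit 49) (.e (nat_lit 819219) (nat_lit 4) (.e (nat_lit 172113) (nat_lit 10) (.e (nat_lit 434248) (nat_lit 28) (.e (nat_lit 573503) (nat_lit 18) (.e (nat_lit 1358) (nat_lit 102) .nil))))))) (.g (nat_lit 0) .nil .nil))) 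
(.lf (nat_lit 286402) (.g (nat_lit 2341) (.e (nat_lit 286755) (nat_lit 10) (.e (nat_lit 344117) (nat_lit 21) (.e (nat_lit 516185) (nat_lit 16) (.e (nat_lit 491560) (nat_lit 10) (.e (nat_lit 344115) (nat_lit 20) (.e (nat_lit 507923) (nat_lit 6) .nil)))))) (.g (nat_lit 4) .nil .nil)))) (.nd (nat_lit 6) 
(.lf (nat_lit 286370) (.g (nat_lit 3574) (.e (nat_lit 286754) (nat_lit 10) (.e (nat_lit 344133) (nat_lit 26) (.e (nat_lit 557087) (nat_lit 11) (.e (nat_lit 24641) (nat_lit 10) (.e (nat_lit 344115) (nat_lit 20) .nil))))) .nil)) 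
(.lf (nat_lit 286434) (.g (nat_lit 1496) (.e (nat_lit 286755) (nat_lit 10) (.e (nat_lit 344156) (nat_lit 36) (.e (nat_lit 638998) (nat_lit 8) (.e (nat_lit 172080) (nat_lit 7) (.e (nat_lit 409639) (nat_lit 15) (.e (nat_lit 278566) (nat_lit 16) .nil)))))) (.g (nat_lit 4) .nil .nil))))) (.nd (nat_lit 5) (.nd (nat_lit 6) 
(.lf (nat_lit 286354) (.g (nat_lit 1775) (.e (nat_lit 286754) (nat_lit 10) (.e (nat_lit 344126) (nat_lit 25) (.e (nat_lit 548874) (nat_lit 5) (.e (nat_lit 1595) (nat_lit 111) (.e (nat_lit 368384) (nat_lit 2) (.e (nat_lit 507923) (nat_lit 6) .nil)))))) (.g (nat_lit 4) .nil .nil))) 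
(.lf (nat_lit 286418) (.g (nat_lit 1718) (.e (nat_lit 286755) (nat_lit 10) (.e (nat_lit 344126) (nat_lit 25) (.e (nat_lit 548891) (nat_lit 11) (.e (nat_lit 81942) (nat_lit 20) .nil)))) .nil))) (.nd (nat_lit 6) 
(.lf (nat_lit 286386) (.g (nat_lit 465) (.e (nat_lit 286754) (nat_lit 10) (.e (nat_lit 344177) (nat_lit 43) (.e (nat_lit 770072) (nat_lit 8) .nil))) .nil)) 
(.lf (nat_lit 286450) (.g (nat_lit 815) (.e (nat_lit 286755) (nat_lit 10) (.e (nat_lit 344177) (nat_lit 43) (.e (nat_lit 770058) (nat_lit 5) (.e (nat_lit 1575) (nat_lit 110) (.e (nat_lit 352271) (nat_lit 9) .nil))))) .nil))))) (.nd (nat_lit 4) (.nd (nat_lit 5) (.nd (nat_lit 6) 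
(.lf (nat_lit 286346) (.g (nat_lit 2379) (.e (nat_lit 286754) (nat_lit 10) (.e (nat_lit 344117) (nat_lit 21) (.e (nat_lit 516185) (nat_lit 16) (.e (nat_lit 491560) (nat_lit 10) (.e (nat_lit 344114) (nat_lit 20) .nil))))) .nil)) 
(.lf (nat_lit 286410) (.g (nat_lit 1570) (.e (nat_lit 286755) (nat_lit 10) (.e (nat_lit 344126) (nat_lit 25) (.e (nat_lit 548874) (nat_lit 5) (.e (nat_lit 1595) (nat_lit 111) (.e (nat_lit 368384) (nat_lit 2) .nil))))) .nil))) (.nd (nat_lit 6) 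
(.lf (nat_lit 286378) (.g (nat_lit 657) (.e (nat_lit 286754) (nat_lit 10) (.e (nat_lit 344169) (nat_lit 40) (.e (nat_lit 679680) (nat_lit 14) .nil))) .nil)) 
(.lf (nat_lit 286442) (.g (nat_lit 549) (.e (nat_lit 286755) (nat_lit 10) (.e (nat_lit 344174) (nat_lit 42) (.e (nat_lit 761868) (nat_lit 5) (.e (nat_lit 1568) (nat_lit 110) .nil)))) .nil)))) (.nd (nat_lit 5) (.nd (nat_lit 6) 
(.lf (nat_lit 286362) (.g (nat_lit 2646) (.e (nat_lit 286754) (nat_lit 10) (.e (nat_lit 344126) (nat_lit 25) (.e (nat_lit 548891) (nat_lit 11) (.e (nat_lit 81947) (nat_lit 20) (.e (nat_lit 1774) (nat_lit 118) (.e (nat_lit 507923) (nat_lit 6) .nil)))))) (.g (nat_lit 5) .nil .nil))) 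
(.lf (nat_lit 286426) (.g (nat_lit 500) (.e (nat_lit 286755) (nat_lit 10) (.e (nat_lit 344154) (nat_lit 35) (.e (nat_lit 630802) (nat_lit 8) (.e (nat_lit 172081) (nat_lit 7) (.e (nat_lit 409639) (nat_lit 15) (.e (nat_lit 278567) (nat_lit 16) .nil)))))) (.g (nat_lit 0) .nil .nil)))) (.nd (nat_lit 6) 
(.lf (nat_lit 286394) (.g (nat_lit 1059) (.e (nat_lit 286755) (nat_lit 10) (.e (nat_lit 344097) (nat_lit 18) (.e (nat_lit 7147) (nat_lit 382) (.e (nat_lit 1217) (nat_lit 90) .nil)))) .nil)) 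
(.lf (nat_lit 286458) (.g (nat_lit 451) (.e (nat_lit 286756) (nat_lit 10) (.e (nat_lit 344097) (nat_lit 18) (.e (nat_lit 5907) (nat_lit 320) .nil))) .nil)))))) (.nd (nat_lit 3) (.nd (nat_lit 4) (.nd (nat_lit 5) (.nd (nat_lit 6) 
(.lf (nat_lit 286342) (.g (nat_lit 546) (.e (nat_lit 286754) (nat_lit 10) (.e (nat_lit 344115) (nat_lit 20) (.e (nat_lit 507906) (nat_lit 0) (.e (nat_lit 5272) (nat_lit 298) .nil)))) .nil)) 
(.lf (nat_lit 286406) (.g (nat_lit 342) (.e (nat_lit 286755) (nat_lit 10) (.e (nat_lit 344126) (nat_lit 25) (.e (nat_lit 548873) (nat_lit 5) .nil))) .nil))) (.nd (nat_lit 6) 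
(.lf (nat_lit 286374) (.g (nat_lit 2359) (.e (nat_lit 286754) (nat_lit 10) (.e (nat_lit 344169) (nat_lit 40) (.e (nat_lit 671762) (nat_lit 4) (.e (nat_lit 65610) (nat_lit 10) (.e (nat_lit 344160) (nat_lit 37) .nil))))) .nil)) 
(.lf (nat_lit 286438) (.g (nat_lit 1642) (.e (nat_lit 286755) (nat_lit 10) (.e (nat_lit 344156) (nat_lit 36) (.e (nat_lit 638998) (nat_lit 8) (.e (nat_lit 172082) (nat_lit 7) (.e (nat_lit 409638) (nat_lit 15) .nil))))) .nil)))) (.nd (nat_lit 5) (.nd (nat_lit 6) 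
(.lf (nat_lit 286358) (.g (nat_lit 2001) (.e (nat_lit 286754) (nat_lit 10) (.e (nat_lit 344126) (nat_lit 25) (.e (nat_lit 548889) (nat_lit 9) (.e (nat_lit 65609) (nat_lit 10) .nil)))) .nil)) 
(.lf (nat_lit 286422) (.g (nat_lit 2060) (.e (nat_lit 286755) (nat_lit 10) (.e (nat_lit 344129) (nat_lit 26) (.e (nat_lit 557087) (nat_lit 11) (.e (nat_lit 24639) (nat_lit 10) .nil)))) .nil))) (.nd (nat_lit 6) 
(.lf (nat_lit 286390) (.g (nat_lit 2127) (.e (nat_lit 286755) (nat_lit 10) (.e (nat_lit 344096) (nat_lit 18) (.e (nat_lit 7122) (nat_lit 382) (.e (nat_lit 1222) (nat_lit 90) (.e (nat_lit 89856) (nat_lit 10) .nil))))) .nil)) 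
(.lf (nat_lit 286454) (.g (nat_lit 2134) (.e (nat_lit 286756) (nat_lit 10) (.e (nat_lit 344090) (nat_lit 18) (.e (nat_lit 7710) (nat_lit 414) (.e (nat_lit 163843) (nat_lit 0) (.e (nat_lit 3602) (nat_lit 225) .nil))))) .nil))))) (.nd (nat_lit 4) (.nd (nat_lit 5) (.nd (nat_lit 6) 
(.lf (nat_lit 286350) (.g (nat_lit 1420) (.e (nat_lit 286754) (nat_lit 10) (.e (nat_lit 344126) (nat_lit 25) (.e (nat_lit 548873) (nat_lit 5) (.e (nat_lit 1595) (nat_lit 111) (.e (nat_lit 368384) (nat_lit 2) (.e (nat_lit 507923) (nat_lit 6) .nil)))))) (.g (nat_lit 4) .nil .nil))) 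
(.lf (nat_lit 286414) (.g (nat_lit 1912) (.e (nat_lit 286755) (nat_lit 10) (.e (nat_lit 344126) (nat_lit 25) (.e (nat_lit 548889) (nat_lit 9) (.e (nat_lit 65609) (nat_lit 10) .nil)))) .nil))) (.nd (nat_lit 6) 
(.lf (nat_lit 286382) (.g (nat_lit 407) (.e (nat_lit 286754) (nat_lit 10) (.e (nat_lit 344177) (nat_lit 43) (.e (nat_lit 770057) (nat_lit 5) .nil))) .nil)) 
(.lf (nat_lit 286446) (.g (nat_lit 796) (.e (nat_lit 286755) (nat_lit 10) (.e (nat_lit 344177) (nat_lit 43) (.e (nat_lit 770055) (nat_lit 5) (.e (nat_lit 1575) (nat_lit 110) .nil)))) .nil)))) (.nd (nat_lit 5) (.nd (nat_lit 6) 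
(.lf (nat_lit 286366) (.g (nat_lit 2363) (.e (nat_lit 286754) (nat_lit 10) (.e (nat_lit 344130) (nat_lit 26) (.e (nat_lit 557087) (nat_lit 11) (.e (nat_lit 24640) (nat_lit 10) (.e (nat_lit 344115) (nat_lit 20) (.e (nat_lit 507923) (nat_lit 6) .nil)))))) (.g (nat_lit 5) .nil .nil))) 
(.lf (nat_lit 286430) (.g (nat_lit 2172) (.e (nat_lit 286755) (nat_lit 10) (.e (nat_lit 344156) (nat_lit 36) (.e (nat_lit 638998) (nat_lit 8) (.e (nat_lit 172079) (nat_lit 7) (.e (nat_lit 409638) (nat_lit 15) (.e (nat_lit 278566) (nat_lit 16) .nil)))))) (.g (nat_lit 6) .nil .nil)))) (.nd (nat_lit 6) 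
(.lf (nat_lit 286398) (.g (nat_lit 1106) (.e (nat_lit 286755) (nat_lit 10) (.e (nat_lit 344117) (nat_lit 21) (.e (nat_lit 516098) (nat_lit 0) (.e (nat_lit 7591) (nat_lit 407) .nil)))) .nil)) 
(.lf (nat_lit 286462) (.g (nat_lit 1061) (.e (nat_lit 286756) (nat_lit 10) (.e (nat_lit 344097) (nat_lit 18) (.e (nat_lit 7254) (nat_lit 383) (.e (nat_lit 8198) (nat_lit 0) .nil)))) .nil)))))))) (.nd (nat_lit 1) (.nd (nat_lit 2) (.nd (nat_lit 3) (.nd (nat_lit 4) (.nd (nat_lit 5) (.nd (nat_lit 6) 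
(.lf (nat_lit 286337) (.g (nat_lit 3417) (.e (nat_lit 286753) (nat_lit 10) (.e (nat_lit 344183) (nat_lit 49) (.e (nat_lit 819219) (nat_lit 4) (.e (nat_lit 172113) (nat_lit 10) (.e (nat_lit 434245) (nat_lit 28) (.e (nat_lit 573503) (nat_lit 18) (.e (nat_lit 1358) (nat_lit 102) .nil))))))) (.g (nat_lit 0) .nil .nil))) 
(.lf (nat_lit 286401) (.g (nat_lit 2341) (.e (nat_lit 286755) (nat_lit 10) (.e (nat_lit 344117) (nat_lit 21) (.e (nat_lit 516185) (nat_lit 16) (.e (nat_lit 491560) (nat_lit 10) (.e (nat_lit 344114) (nat_lit 20) .nil))))) .nil))) (.nd (nat_lit 6) 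
(.lf (nat_lit 286369) (.g (nat_lit 3232) (.e (nat_lit 286754) (nat_lit 10) (.e (nat_lit 344133) (nat_lit 26) (.e (nat_lit 557087) (nat_lit 11) (.e (nat_lit 24639) (nat_lit 10) (.e (nat_lit 344115) (nat_lit 20) (.e (nat_lit 507923) (nat_lit 6) .nil)))))) (.g (nat_lit 4) .nil .nil))) 
(.lf (nat_lit 286433) (.g (nat_lit 1918) (.e (nat_lit 286755) (nat_lit 10) (.e (nat_lit 344156) (nat_lit 36) (.e (nat_lit 638998) (nat_lit 8) (.e (nat_lit 172080) (nat_lit 7) (.e (nat_lit 409638) (nat_lit 15) (.e (nat_lit 278566) (nat_lit 16) .nil)))))) (.g (nat_lit 6) .nil .nil))))) (.nd (nat_lit 5) (.nd (nat_lit 6) 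
(.lf (nat_lit 286353) (.g (nat_lit 1458) (.e (nat_lit 286754) (nat_lit 10) (.e (nat_lit 344126) (nat_lit 25) (.e (nat_lit 548874) (nat_lit 5) (.e (nat_lit 1595) (nat_lit 111) (.e (nat_lit 360464) (nat_lit 2) .nil))))) .nil)) 
(.lf (nat_lit 286417) (.g (nat_lit 1726) (.e (nat_lit 286755) (nat_lit 10) (.e (nat_lit 344126) (nat_lit 25) (.e (nat_lit 548891) (nat_lit 11) (.e (nat_lit 81938) (nat_lit 20) .nil)))) .nil))) (.nd (nat_lit 6) 
(.lf (nat_lit 286385) (.g (nat_lit 500) (.e (nat_lit 286754) (nat_lit 10) (.e (nat_lit 344177) (nat_lit 43) (.e (nat_lit 770071) (nat_lit 8) .nil))) .nil)) 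
(.lf (nat_lit 286449) (.g (nat_lit 1460) (.e (nat_lit 286755) (nat_lit 10) (.e (nat_lit 344177) (nat_lit 43) (.e (nat_lit 770058) (nat_lit 5) (.e (nat_lit 1572) (nat_lit 110) (.e (nat_lit 352272) (nat_lit 10) (.e (nat_lit 417811) (nat_lit 6) .nil)))))) (.g (nat_lit 4) .nil .nil)))))) (.nd (nat_lit 4) (.nd (nat_lit 5) (.nd (nat_lit 6) 
(.lf (nat_lit 286345) (.g (nat_lit 2670) (.e (nat_lit 286754) (nat_lit 10) (.e (nat_lit 344117) (nat_lit 21) (.e (nat_lit 516185) (nat_lit 16) (.e (nat_lit 491558) (nat_lit 10) (.e (nat_lit 344115) (nat_lit 20) (.e (nat_lit 507923) (nat_lit 6) .nil)))))) (.g (nat_lit 4) .nil .nil))) 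
(.lf (nat_lit 286409) (.g (nat_lit 1237) (.e (nat_lit 286755) (nat_lit 10) (.e (nat_lit 344126) (nat_lit 25) (.e (nat_lit 548874) (nat_lit 5) (.e (nat_lit 1592) (nat_lit 111) (.e (nat_lit 360464) (nat_lit 2) .nil))))) .nil))) (.nd (nat_lit 6) 
(.lf (nat_lit 286377) (.g (nat_lit 658) (.e (nat_lit 286754) (nat_lit 10) (.e (nat_lit 344169) (nat_lit 40) (.e (nat_lit 671786) (nat_lit 14) .nil))) .nil)) 
(.lf (nat_lit 286441) (.g (nat_lit 1540) (.e (nat_lit 286755) (nat_lit 10) (.e (nat_lit 344169) (nat_lit 40) (.e (nat_lit 671762) (nat_lit 4) (.e (nat_lit 65610) (nat_lit 10) .nil)))) .nil)))) (.nd (nat_lit 5) (.nd (nat_lit 6) 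
(.lf (nat_lit 286361) (.g (nat_lit 1675) (.e (nat_lit 286754) (nat_lit 10) (.e (nat_lit 344126) (nat_lit 25) (.e (nat_lit 548891) (nat_lit 11) (.e (nat_lit 81942) (nat_lit 20) .nil)))) .nil)) 
(.lf (nat_lit 286425) (.g (nat_lit 720) (.e (nat_lit 286755) (nat_lit 10) (.e (nat_lit 344154) (nat_lit 35) (.e (nat_lit 630802) (nat_lit 8) (.e (nat_lit 172079) (nat_lit 7) (.e (nat_lit 409639) (nat_lit 15) (.e (nat_lit 278567) (nat_lit 16) .nil)))))) (.g (nat_lit 0) .nil .nil)))) (.nd (nat_lit 6) 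
(.lf (nat_lit 286393) (.g (nat_lit 645) (.e (nat_lit 286755) (nat_lit 10) (.e (nat_lit 344097) (nat_lit 18) (.e (nat_lit 7147) (nat_lit 382) .nil))) .nil)) 
(.lf (nat_lit 286457) (.g (nat_lit 697) (.e (nat_lit 286756) (nat_lit 10) (.e (nat_lit 344097) (nat_lit 18) (.e (nat_lit 5243) (nat_lit 297) .nil))) .nil)))))) (.nd (nat_lit 3) (.nd (nat_lit 4) (.nd (nat_lit 5) (.nd (nat_lit 6) 
(.lf (nat_lit 286341) (.g (nat_lit 1208) (.e (nat_lit 286754) (nat_lit 10) (.e (nat_lit 344091) (nat_lit 18) (.e (nat_lit 7266) (nat_lit 384) (.e (nat_lit 57423) (nat_lit 14) (.e (nat_lit 352272) (nat_lit 10) .nil))))) .nil)) 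
(.lf (nat_lit 286405) (.g (nat_lit 777) (.e (nat_lit 286755) (nat_lit 10) (.e (nat_lit 344126) (nat_lit 25) (.e (nat_lit 548872) (nat_lit 5) (.e (nat_lit 1598) (nat_lit 111) .nil)))) .nil))) (.nd (nat_lit 6) 
(.lf (nat_lit 286373) (.g (nat_lit 1710) (.e (nat_lit 286754) (nat_lit 10) (.e (nat_lit 344156) (nat_lit 36) (.e (nat_lit 638998) (nat_lit 8) (.e (nat_lit 172082) (nat_lit 7) (.e (nat_lit 409638) (nat_lit 15) .nil))))) .nil)) 
(.lf (nat_lit 286437) (.g (nat_lit 1072) (.e (nat_lit 286755) (nat_lit 10) (.e (nat_lit 344156) (nat_lit 36) (.e (nat_lit 638998) (nat_lit 8) (.e (nat_lit 172082) (nat_lit 7) .nil)))) .nil)))) (.nd (nat_lit 5) (.nd (nat_lit 6) 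
(.lf (nat_lit 286357) (.g (nat_lit 2478) (.e (nat_lit 286754) (nat_lit 10) (.e (nat_lit 344126) (nat_lit 25) (.e (nat_lit 548889) (nat_lit 9) (.e (nat_lit 65598) (nat_lit 9) (.e (nat_lit 336013) (nat_lit 2) .nil))))) .nil)) 
(.lf (nat_lit 286421) (.g (nat_lit 650) (.e (nat_lit 286755) (nat_lit 10) (.e (nat_lit 344129) (nat_lit 26) (.e (nat_lit 557066) (nat_lit 9) .nil))) .nil))) (.nd (nat_lit 6) 
(.lf (nat_lit 286389) (.g (nat_lit 1215) (.e (nat_lit 286754) (nat_lit 10) (.e (nat_lit 344177) (nat_lit 43) (.e (nat_lit 770074) (nat_lit 10) (.e (nat_lit 81921) (nat_lit 0) .nil)))) .nil)) 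
(.lf (nat_lit 286453) (.g (nat_lit 1751) (.e (nat_lit 286755) (nat_lit 10) (.e (nat_lit 344177) (nat_lit 43) (.e (nat_lit 770072) (nat_lit 8) (.e (nat_lit 65592) (nat_lit 9) .nil)))) .nil))))) (.nd (nat_lit 4) (.nd (nat_lit 5) (.nd (nat_lit 6) 
(.lf (nat_lit 286349) (.g (nat_lit 756) (.e (nat_lit 286754) (nat_lit 10) (.e (nat_lit 344126) (nat_lit 25) (.e (nat_lit 548872) (nat_lit 5) (.e (nat_lit 1598) (nat_lit 111) .nil)))) .nil)) 
(.lf (nat_lit 286413) (.g (nat_lit 2410) (.e (nat_lit 286755) (nat_lit 10) (.e (nat_lit 344126) (nat_lit 25) (.e (nat_lit 548889) (nat_lit 9) (.e (nat_lit 65598) (nat_lit 9) (.e (nat_lit 336013) (nat_lit 2) .nil))))) .nil))) (.nd (nat_lit 6) 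
(.lf (nat_lit 286381) (.g (nat_lit 422) (.e (nat_lit 286754) (nat_lit 10) (.e (nat_lit 344177) (nat_lit 43) (.e (nat_lit 770056) (nat_lit 5) .nil))) .nil)) 
(.lf (nat_lit 286445) (.g (nat_lit 618) (.e (nat_lit 286755) (nat_lit 10) (.e (nat_lit 344177) (nat_lit 43) (.e (nat_lit 770054) (nat_lit 5) .nil))) .nil)))) (.nd (nat_lit 5) (.nd (nat_lit 6) 
(.lf (nat_lit 286365) (.g (nat_lit 2341) (.e (nat_lit 286754) (nat_lit 10) (.e (nat_lit 344129) (nat_lit 26) (.e (nat_lit 557087) (nat_lit 11) (.e (nat_lit 24641) (nat_lit 10) .nil)))) .nil)) 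
(.lf (nat_lit 286429) (.g (nat_lit 1597) (.e (nat_lit 286755) (nat_lit 10) (.e (nat_lit 344156) (nat_lit 36) (.e (nat_lit 638998) (nat_lit 8) (.e (nat_lit 172079) (nat_lit 7) (.e (nat_lit 409636) (nat_lit 14) .nil))))) .nil))) (.nd (nat_lit 6) 
(.lf (nat_lit 286397) (.g (nat_lit 1617) (.e (nat_lit 286755) (nat_lit 10) (.e (nat_lit 344117) (nat_lit 21) (.e (nat_lit 516097) (nat_lit 0) (.e (nat_lit 7593) (nat_lit 407) (.e (nat_lit 73744) (nat_lit 2) .nil))))) .nil)) 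
(.lf (nat_lit 286461) (.g (nat_lit 695) (.e (nat_lit 286756) (nat_lit 10) (.e (nat_lit 344097) (nat_lit 18) (.e (nat_lit 7160) (nat_lit 382) .nil))) .nil))))))) (.nd (nat_lit 2) (.nd (nat_lit 3) (.nd (nat_lit 4) (.nd (nat_lit 5) (.nd (nat_lit 6) 
(.lf (nat_lit 286339) (.g (nat_lit 1474) (.e (nat_lit 286754) (nat_lit 10) (.e (nat_lit 344091) (nat_lit 18) (.e (nat_lit 7125) (nat_lit 382) (.e (nat_lit 1222) (nat_lit 90) (.e (nat_lit 89856) (nat_lit 10) .nil))))) .nil)) 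
(.lf (nat_lit 286403) (.g (nat_lit 195) (.e (nat_lit 286755) (nat_lit 10) (.e (nat_lit 344123) (nat_lit 24) (.e (nat_lit 540724) (nat_lit 28) .nil))) .nil))) (.nd (nat_lit 6) 
(.lf (nat_lit 286371) (.g (nat_lit 459) (.e (nat_lit 286754) (nat_lit 10) (.e (nat_lit 344156) (nat_lit 36) (.e (nat_lit 638998) (nat_lit 8) .nil))) .nil)) 
(.lf (nat_lit 286435) (.g (nat_lit 1041) (.e (nat_lit 286755) (nat_lit 10) (.e (nat_lit 344156) (nat_lit 36) (.e (nat_lit 638998) (nat_lit 8) (.e (nat_lit 172081) (nat_lit 7) .nil)))) .nil)))) (.nd (nat_lit 5) (.nd (nat_lit 6) 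
(.lf (nat_lit 286355) (.g (nat_lit 1185) (.e (nat_lit 286754) (nat_lit 10) (.e (nat_lit 344126) (nat_lit 25) (.e (nat_lit 548874) (nat_lit 5) (.e (nat_lit 1599) (nat_lit 111) .nil)))) .nil)) 
(.lf (nat_lit 286419) (.g (nat_lit 2485) (.e (nat_lit 286755) (nat_lit 10) (.e (nat_lit 344126) (nat_lit 25) (.e (nat_lit 548891) (nat_lit 11) (.e (nat_lit 81946) (nat_lit 20) (.e (nat_lit 1774) (nat_lit 118) .nil))))) .nil))) (.nd (nat_lit 6) 
(.lf (nat_lit 286387) (.g (nat_lit 1730) (.e (nat_lit 286754) (nat_lit 10) (.e (nat_lit 344177) (nat_lit 43) (.e (nat_lit 770072) (nat_lit 8) (.e (nat_lit 65592) (nat_lit 9) .nil)))) .nil)) 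
(.lf (nat_lit 286451) (.g (nat_lit 456) (.e (nat_lit 286755) (nat_lit 10) (.e (nat_lit 344177) (nat_lit 43) (.e (nat_lit 770071) (nat_lit 8) .nil))) .nil))))) (.nd (nat_lit 4) (.nd (nat_lit 5) (.nd (nat_lit 6) 
(.lf (nat_lit 286347) (.g (nat_lit 2542) (.e (nat_lit 286754) (nat_lit 10) (.e (nat_lit 344117) (nat_lit 21) (.e (nat_lit 516185) (nat_lit 16) (.e (nat_lit 491560) (nat_lit 10) (.e (nat_lit 344115) (nat_lit 20) (.e (nat_lit 507923) (nat_lit 6) .nil)))))) (.g (nat_lit 4) .nil .nil))) 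
(.lf (nat_lit 286411) (.g (nat_lit 1494) (.e (nat_lit 286755) (nat_lit 10) (.e (nat_lit 344126) (nat_lit 25) (.e (nat_lit 548874) (nat_lit 5) (.e (nat_lit 1598) (nat_lit 111) (.e (nat_lit 368384) (nat_lit 2) .nil))))) .nil))) (.nd (nat_lit 6) 
(.lf (nat_lit 286379) (.g (nat_lit 586) (.e (nat_lit 286754) (nat_lit 10) (.e (nat_lit 344177) (nat_lit 43) (.e (nat_lit 770054) (nat_lit 5) .nil))) .nil)) 
(.lf (nat_lit 286443) (.g (nat_lit 1754) (.e (nat_lit 286755) (nat_lit 10) (.e (nat_lit 344174) (nat_lit 42) (.e (nat_lit 761869) (nat_lit 5) (.e (nat_lit 1555) (nat_lit 110) (.e (nat_lit 352272) (nat_lit 10) (.e (nat_lit 417811) (nat_lit 6) .nil)))))) (.g (nat_lit 0) .nil .nil))))) (.nd (nat_lit 5) (.nd (nat_lit 6) 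
(.lf (nat_lit 286363) (.g (nat_lit 2536) (.e (nat_lit 286754) (nat_lit 10) (.e (nat_lit 344129) (nat_lit 26) (.e (nat_lit 557087) (nat_lit 11) (.e (nat_lit 24639) (nat_lit 10) (.e (nat_lit 344115) (nat_lit 20) .nil))))) .nil)) 
(.lf (nat_lit 286427) (.g (nat_lit 898) (.e (nat_lit 286755) (nat_lit 10) (.e (nat_lit 344154) (nat_lit 35) (.e (nat_lit 630802) (nat_lit 8) (.e (nat_lit 172082) (nat_lit 7) (.e (nat_lit 409639) (nat_lit 15) (.e (nat_lit 278567) (nat_lit 16) .nil)))))) (.g (nat_lit 0) .nil .nil)))) (.nd (nat_lit 6) 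
(.lf (nat_lit 286395) (.g (nat_lit 853) (.e (nat_lit 286755) (nat_lit 10) (.e (nat_lit 344100) (nat_lit 18) (.e (nat_lit 7147) (nat_lit 382) (.e (nat_lit 1216) (nat_lit 90) (.e (nat_lit 89856) (nat_lit 10) .nil))))) .nil)) 
(.lf (nat_lit 286459) (.g (nat_lit 711) (.e (nat_lit 286756) (nat_lit 10) (.e (nat_lit 344097) (nat_lit 18) (.e (nat_lit 7146) (nat_lit 382) .nil))) .nil)))))) (.nd (nat_lit 3) (.nd (nat_lit 4) (.nd (nat_lit 5) (.nd (nat_lit 6) 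
(.lf (nat_lit 286343) (.g (nat_lit 751) (.e (nat_lit 286754) (nat_lit 10) (.e (nat_lit 344115) (nat_lit 20) (.e (nat_lit 507923) (nat_lit 6) (.e (nat_lit 286747) (nat_lit 9) .nil)))) .nil)) 
(.lf (nat_lit 286407) (.g (nat_lit 1172) (.e (nat_lit 286755) (nat_lit 10) (.e (nat_lit 344126) (nat_lit 25) (.e (nat_lit 548873) (nat_lit 5) (.e (nat_lit 1595) (nat_lit 111) (.e (nat_lit 368384) (nat_lit 2) .nil))))) .nil))) (.nd (nat_lit 6) 
(.lf (nat_lit 286375) (.g (nat_lit 2286) (.e (nat_lit 286754) (nat_lit 10) (.e (nat_lit 344169) (nat_lit 40) (.e (nat_lit 671762) (nat_lit 4) (.e (nat_lit 65617) (nat_lit 10) (.e (nat_lit 344161) (nat_lit 37) .nil))))) .nil)) 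
(.lf (nat_lit 286439) (.g (nat_lit 2147) (.e (nat_lit 286755) (nat_lit 10) (.e (nat_lit 344160) (nat_lit 37) (.e (nat_lit 647200) (nat_lit 12) (.e (nat_lit 57572) (nat_lit 54) (.e (nat_lit 770072) (nat_lit 8) .nil))))) .nil)))) (.nd (nat_lit 5) (.nd (nat_lit 6) 
(.lf (nat_lit 286359) (.g (nat_lit 1978) (.e (nat_lit 286754) (nat_lit 10) (.e (nat_lit 344126) (nat_lit 25) (.e (nat_lit 548891) (nat_lit 11) (.e (nat_lit 81928) (nat_lit 20) .nil)))) .nil)) 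
(.lf (nat_lit 286423) (.g (nat_lit 2845) (.e (nat_lit 286755) (nat_lit 10) (.e (nat_lit 344129) (nat_lit 26) (.e (nat_lit 557087) (nat_lit 11) (.e (nat_lit 24640) (nat_lit 10) (.e (nat_lit 344115) (nat_lit 20) .nil))))) .nil))) (.nd (nat_lit 6) 
(.lf (nat_lit 286391) (.g (nat_lit 488) (.e (nat_lit 286755) (nat_lit 10) (.e (nat_lit 344096) (nat_lit 18) (.e (nat_lit 7265) (nat_lit 384) .nil))) .nil)) 
(.lf (nat_lit 286455) (.g (nat_lit 705) (.e (nat_lit 286756) (nat_lit 10) (.e (nat_lit 344097) (nat_lit 18) (.e (nat_lit 5055) (nat_lit 292) .nil))) .nil))))) (.nd (nat_lit 4) (.nd (nat_lit 5) (.nd (nat_lit 6) 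
(.lf (nat_lit 286351) (.g (nat_lit 1257) (.e (nat_lit 286754) (nat_lit 10) (.e (nat_lit 344126) (nat_lit 25) (.e (nat_lit 548874) (nat_lit 5) (.e (nat_lit 1575) (nat_lit 110) .nil)))) .nil)) 
(.lf (nat_lit 286415) (.g (nat_lit 3317) (.e (nat_lit 286755) (nat_lit 10) (.e (nat_lit 344126) (nat_lit 25) (.e (nat_lit 548889) (nat_lit 9) (.e (nat_lit 65617) (nat_lit 10) (.e (nat_lit 344115) (nat_lit 20) (.e (nat_lit 507923) (nat_lit 6) .nil)))))) (.g (nat_lit 0) .nil .nil)))) (.nd (nat_lit 6) 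
(.lf (nat_lit 286383) (.g (nat_lit 399) (.e (nat_lit 286754) (nat_lit 10) (.e (nat_lit 344177) (nat_lit 43) (.e (nat_lit 770058) (nat_lit 5) .nil))) .nil)) 
(.lf (nat_lit 286447) (.g (nat_lit 774) (.e (nat_lit 286755) (nat_lit 10) (.e (nat_lit 344177) (nat_lit 43) (.e (nat_lit 770056) (nat_lit 5) (.e (nat_lit 1575) (nat_lit 110) .nil)))) .nil)))) (.nd (nat_lit 5) (.nd (nat_lit 6) 
(.lf (nat_lit 286367) (.g (nat_lit 1110) (.e (nat_lit 286754) (nat_lit 10) (.e (nat_lit 344133) (nat_lit 26) (.e (nat_lit 557087) (nat_lit 11) .nil))) .nil)) 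
(.lf (nat_lit 286431) (.g (nat_lit 1091) (.e (nat_lit 286755) (nat_lit 10) (.e (nat_lit 344156) (nat_lit 36) (.e (nat_lit 638998) (nat_lit 8) (.e (nat_lit 172080) (nat_lit 7) .nil)))) .nil))) (.nd (nat_lit 6) 
(.lf (nat_lit 286399) (.g (nat_lit 1001) (.e (nat_lit 286755) (nat_lit 10) (.e (nat_lit 344117) (nat_lit 21) (.e (nat_lit 516098) (nat_lit 0) (.e (nat_lit 7593) (nat_lit 407) .nil)))) .nil)) 
(.lf (nat_lit 286463) (.g (nat_lit 1979) (.e (nat_lit 286756) (nat_lit 10) (.e (nat_lit 344097) (nat_lit 18) (.e (nat_lit 7270) (nat_lit 385) (.e (nat_lit 122914) (nat_lit 14) .nil)))) .nil)))))))))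

noncomputable def tv3632 : DT := (.nd (nat_lit 0) (.nd (nat_lit 1) (.nd (nat_lit 2) (.nd (nat_lit 3) (.nd (nat_lit 4) (.nd (nat_lit 5) (.nd (nat_lit 6) 
(.lf (nat_lit 286464) (.g (nat_lit 1932) (.e (nat_lit 286756) (nat_lit 10) (.e (nat_lit 344097) (nat_lit 18) (.e (nat_lit 7270) (nat_lit 385) (.e (nat_lit 122916) (nat_lit 14) .nil)))) .nil)) 
(.lf (nat_lit 286528) (.g (nat_lit 1157) (.e (nat_lit 286756) (nat_lit 10) (.e (nat_lit 344126) (nat_lit 25) (.e (nat_lit 548874) (nat_lit 5) (.e (nat_lit 1599) (nat_lit 111) .nil)))) .nil))) (.nd (nat_lit 6) 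
(.lf (nat_lit 286496) (.g (nat_lit 3318) (.e (nat_lit 286756) (nat_lit 10) (.e (nat_lit 344117) (nat_lit 21) (.e (nat_lit 516185) (nat_lit 16) (.e (nat_lit 491558) (nat_lit 10) (.e (nat_lit 344115) (nat_lit 20) (.e (nat_lit 507923) (nat_lit 6) .nil)))))) (.g (nat_lit 0) .nil .nil))) 
(.lf (nat_lit 286560) (.g (nat_lit 1072) (.e (nat_lit 286756) (nat_lit 10) (.e (nat_lit 344156) (nat_lit 36) (.e (nat_lit 638998) (nat_lit 8) (.e (nat_lit 172081) (nat_lit 7) .nil)))) .nil)))) (.nd (nat_lit 5) (.nd (nat_lit 6) 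
(.lf (nat_lit 286480) (.g (nat_lit 3133) (.e (nat_lit 286756) (nat_lit 10) (.e (nat_lit 344117) (nat_lit 21) (.e (nat_lit 516151) (nat_lit 9) (.e (nat_lit 426104) (nat_lit 1) .nil)))) .nil)) 
(.lf (nat_lit 286544) (.g (nat_lit 2154) (.e (nat_lit 286756) (nat_lit 10) (.e (nat_lit 344129) (nat_lit 26) (.e (nat_lit 557066) (nat_lit 9) (.e (nat_lit 232) (nat_lit 21) (.e (nat_lit 336175) (nat_lit 10) (.e (nat_lit 344115) (nat_lit 20) (.e (nat_lit 507923) (nat_lit 6) .nil))))))) (.g (nat_lit 4) .nil .nil)))) (.nd (nat_lit 6) 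
(.lf (nat_lit 286512) (.g (nat_lit 1441) (.e (nat_lit 286756) (nat_lit 10) (.e (nat_lit 344126) (nat_lit 25) (.e (nat_lit 548874) (nat_lit 5) (.e (nat_lit 1564) (nat_lit 110) .nil)))) .nil)) 
(.lf (nat_lit 286576) (.g (nat_lit 1953) (.e (nat_lit 286756) (nat_lit 10) (.e (nat_lit 344160) (nat_lit 37) (.e (nat_lit 647195) (nat_lit 9) (.e (nat_lit 1181) (nat_lit 87) (.e (nat_lit 57666) (nat_lit 152) .nil))))) .nil))))) (.nd (nat_lit 4) (.nd (nat_lit 5) (.nd (nat_lit 6) 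
(.lf (nat_lit 286472) (.g (nat_lit 733) (.e (nat_lit 286756) (nat_lit 10) (.e (nat_lit 344117) (nat_lit 21) (.e (nat_lit 516106) (nat_lit 0) .nil))) .nil)) 
(.lf (nat_lit 286536) (.g (nat_lit 3367) (.e (nat_lit 286756) (nat_lit 10) (.e (nat_lit 344126) (nat_lit 25) (.e (nat_lit 548889) (nat_lit 9) (.e (nat_lit 65598) (nat_lit 9) (.e (nat_lit 336013) (nat_lit 2) (.e (nat_lit 98048) (nat_lit 18) (.e (nat_lit 1357) (nat_lit 102) .nil))))))) (.g (nat_lit 5) .nil .nil)))) (.nd (nat_lit 6) 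
(.lf (nat_lit 286504) (.g (nat_lit 849) (.e (nat_lit 286756) (nat_lit 10) (.e (nat_lit 344119) (nat_lit 21) (.e (nat_lit 516139) (nat_lit 7) (.e (nat_lit 409616) (nat_lit 10) .nil)))) .nil)) 
(.lf (nat_lit 286568) (.g (nat_lit 3718) (.e (nat_lit 286756) (nat_lit 10) (.e (nat_lit 344160) (nat_lit 37) (.e (nat_lit 647195) (nat_lit 9) (.e (nat_lit 982) (nat_lit 81) (.e (nat_lit 2342) (nat_lit 151) (.e (nat_lit 778362) (nat_lit 9) (.e (nat_lit 232) (nat_lit 21) (.e (nat_lit 336060) (nat_lit 7) (.e (nat_lit 319534) (nat_lit 16) .nil))))))))) (.g (nat_lit 7) .nil .nil))))) 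
(.nd (nat_lit 5) (.nd (nat_lit 6) 
(.lf (nat_lit 286488) (.g (nat_lit 2339) (.e (nat_lit 286756) (nat_lit 10) (.e (nat_lit 344117) (nat_lit 21) (.e (nat_lit 516160) (nat_lit 10) (.e (nat_lit 434275) (nat_lit 39) .nil)))) .nil)) 
(.lf (nat_lit 286552) (.g (nat_lit 2863) (.e (nat_lit 286756) (nat_lit 10) (.e (nat_lit 344129) (nat_lit 26) (.e (nat_lit 557087) (nat_lit 11) (.e (nat_lit 24617) (nat_lit 7) (.e (nat_lit 319505) (nat_lit 10) (.e (nat_lit 13) (nat_lit 0) (.e (nat_lit 3994) (nat_lit 240) (.e (nat_lit 8305) (nat_lit 58) .nil)))))))) (.g (nat_lit 4) .nil .nil)))) (.nd (nat_lit 6) 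
(.lf (nat_lit 286520) (.g (nat_lit 1263) (.e (nat_lit 286756) (nat_lit 10) (.e (nat_lit 344126) (nat_lit 25) (.e (nat_lit 548874) (nat_lit 5) (.e (nat_lit 1592) (nat_lit 111) .nil)))) .nil)) 
(.lf (nat_lit 286584) (.g (nat_lit 1610) (.e (nat_lit 286756) (nat_lit 10) (.e (nat_lit 344168) (nat_lit 40) (.e (nat_lit 671761) (nat_lit 4) (.e (nat_lit 65610) (nat_lit 10) (.e (nat_lit 344160) (nat_lit 37) .nil))))) .nil)))))) (.nd (nat_lit 3) (.nd (nat_lit 4) (.nd (nat_lit 5) (.nd (nat_lit 6) 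
(.lf (nat_lit 286468) (.g (nat_lit 1403) (.e (nat_lit 286756) (nat_lit 10) (.e (nat_lit 344115) (nat_lit 20) (.e (nat_lit 507923) (nat_lit 6) (.e (nat_lit 286747) (nat_lit 9) (.e (nat_lit 336013) (nat_lit 2) (.e (nat_lit 98048) (nat_lit 18) (.e (nat_lit 1354) (nat_lit 102) .nil))))))) (.g (nat_lit 4) .nil .nil))) 
(.lf (nat_lit 286532) (.g (nat_lit 2558) (.e (nat_lit 286756) (nat_lit 10) (.e (nat_lit 344126) (nat_lit 25) (.e (nat_lit 548889) (nat_lit 9) (.e (nat_lit 65598) (nat_lit 9) (.e (nat_lit 336013) (nat_lit 2) .nil))))) .nil))) (.nd (nat_lit 6) 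
(.lf (nat_lit 286500) (.g (nat_lit 3469) (.e (nat_lit 286756) (nat_lit 10) (.e (nat_lit 344117) (nat_lit 21) (.e (nat_lit 516185) (nat_lit 16) (.e (nat_lit 491560) (nat_lit 10) (.e (nat_lit 344115) (nat_lit 20) (.e (nat_lit 507923) (nat_lit 6) .nil)))))) (.g (nat_lit 0) .nil .nil))) 
(.lf (nat_lit 286564) (.g (nat_lit 4242) (.e (nat_lit 286756) (nat_lit 10) (.e (nat_lit 344160) (nat_lit 37) (.e (nat_lit 647190) (nat_lit 9) (.e (nat_lit 1047) (nat_lit 81) (.e (nat_lit 2346) (nat_lit 151) (.e (nat_lit 778362) (nat_lit 9) (.e (nat_lit 232) (nat_lit 21) (.e (nat_lit 336060) (nat_lit 7) (.e (nat_lit 319534) (nat_lit 16) .nil))))))))) (.g (nat_lit 7) .nil .nil))))) 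
(.nd (nat_lit 5) (.nd (nat_lit 6) 
(.lf (nat_lit 286484) (.g (nat_lit 3586) (.e (nat_lit 286756) (nat_lit 10) (.e (nat_lit 344117) (nat_lit 21) (.e (nat_lit 516159) (nat_lit 10) (.e (nat_lit 434275) (nat_lit 39) (.e (nat_lit 663584) (nat_lit 12) (.e (nat_lit 163978) (nat_lit 30) (.e (nat_lit 573502) (nat_lit 18) (.e (nat_lit 1359) (nat_lit 102) .nil)))))))) (.g (nat_lit 5) .nil .nil))) 
(.lf (nat_lit 286548) (.g (nat_lit 4744) (.e (nat_lit 286756) (nat_lit 10) (.e (nat_lit 344129) (nat_lit 26) (.e (nat_lit 557087) (nat_lit 11) (.e (nat_lit 24617) (nat_lit 7) (.e (nat_lit 319490) (nat_lit 0) (.e (nat_lit 539) (nat_lit 41) (.e (nat_lit 499718) (nat_lit 0) (.e (nat_lit 1359) (nat_lit 102) .nil)))))))) (.g (nat_lit 5) .nil .nil)))) (.nd (nat_lit 6) 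
(.lf (nat_lit 286516) (.g (nat_lit 1353) (.e (nat_lit 286756) (nat_lit 10) (.e (nat_lit 344126) (nat_lit 25) (.e (nat_lit 548874) (nat_lit 5) (.e (nat_lit 1576) (nat_lit 110) .nil)))) .nil)) 
(.lf (nat_lit 286580) (.g (nat_lit 2745) (.e (nat_lit 286756) (nat_lit 10) (.e (nat_lit 344160) (nat_lit 37) (.e (nat_lit 647200) (nat_lit 12) (.e (nat_lit 57573) (nat_lit 55) (.e (nat_lit 778469) (nat_lit 11) .nil))))) .nil))))) (.nd (nat_lit 4) (.nd (nat_lit 5) (.nd (nat_lit 6) 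
(.lf (nat_lit 286476) (.g (nat_lit 1015) (.e (nat_lit 286756) (nat_lit 10) (.e (nat_lit 344117) (nat_lit 21) (.e (nat_lit 516145) (nat_lit 9) .nil))) .nil)) 
(.lf (nat_lit 286540) (.g (nat_lit 2077) (.e (nat_lit 286756) (nat_lit 10) (.e (nat_lit 344126) (nat_lit 25) (.e (nat_lit 548891) (nat_lit 11) (.e (nat_lit 81940) (nat_lit 20) .nil)))) .nil))) (.nd (nat_lit 6) 
(.lf (nat_lit 286508) (.g (nat_lit 1513) (.e (nat_lit 286756) (nat_lit 10) (.e (nat_lit 344126) (nat_lit 25) (.e (nat_lit 548873) (nat_lit 5) (.e (nat_lit 1595) (nat_lit 111) (.e (nat_lit 360464) (nat_lit 2) (.e (nat_lit 507921) (nat_lit 6) .nil)))))) (.g (nat_lit 4) .nil .nil))) 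
(.lf (nat_lit 286572) (.g (nat_lit 4089) (.e (nat_lit 286756) (nat_lit 10) (.e (nat_lit 344160) (nat_lit 37) (.e (nat_lit 647195) (nat_lit 9) (.e (nat_lit 1042) (nat_lit 81) (.e (nat_lit 2342) (nat_lit 151) (.e (nat_lit 778362) (nat_lit 9) (.e (nat_lit 232) (nat_lit 21) (.e (nat_lit 336060) (nat_lit 7) (.e (nat_lit 319534) (nat_lit 16) .nil))))))))) (.g (nat_lit 7) .nil .nil))))) 
(.nd (nat_lit 5) (.nd (nat_lit 6) 
(.lf (nat_lit 286492) (.g (nat_lit 1669) (.e (nat_lit 286756) (nat_lit 10) (.e (nat_lit 344117) (nat_lit 21) (.e (nat_lit 516185) (nat_lit 16) (.e (nat_lit 491552) (nat_lit 9) .nil)))) .nil)) 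
(.lf (nat_lit 286556) (.g (nat_lit 2952) (.e (nat_lit 286756) (nat_lit 10) (.e (nat_lit 344129) (nat_lit 26) (.e (nat_lit 557090) (nat_lit 12) (.e (nat_lit 163993) (nat_lit 36) .nil)))) .nil))) (.nd (nat_lit 6) 
(.lf (nat_lit 286524) (.g (nat_lit 1461) (.e (nat_lit 286756) (nat_lit 10) (.e (nat_lit 344126) (nat_lit 25) (.e (nat_lit 548874) (nat_lit 5) (.e (nat_lit 1595) (nat_lit 111) (.e (nat_lit 360463) (nat_lit 1) .nil))))) .nil)) 
(.lf (nat_lit 286588) (.g (nat_lit 2193) (.e (nat_lit 286756) (nat_lit 10) (.e (nat_lit 344169) (nat_lit 40) (.e (nat_lit 671748) (nat_lit 0) (.e (nat_lit 1183) (nat_lit 87) (.e (nat_lit 57724) (nat_lit 181) .nil))))) .nil))))))) (.nd (nat_lit 2) (.nd (nat_lit 3) (.nd (nat_lit 4) (.nd (nat_lit 5) (.nd (nat_lit 6) 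
(.lf (nat_lit 286466) (.g (nat_lit 1603) (.e (nat_lit 286756) (nat_lit 10) (.e (nat_lit 344115) (nat_lit 20) (.e (nat_lit 507907) (nat_lit 0) (.e (nat_lit 5406) (nat_lit 302) (.e (nat_lit 65536) (nat_lit 0) (.e (nat_lit 1774) (nat_lit 118) (.e (nat_lit 507923) (nat_lit 6) .nil))))))) (.g (nat_lit 7) .nil .nil))) 
(.lf (nat_lit 286530) (.g (nat_lit 1947) (.e (nat_lit 286756) (nat_lit 10) (.e (nat_lit 344126) (nat_lit 25) (.e (nat_lit 548889) (nat_lit 9) (.e (nat_lit 65593) (nat_lit 9) .nil)))) .nil))) (.nd (nat_lit 6) 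
(.lf (nat_lit 286498) (.g (nat_lit 2861) (.e (nat_lit 286756) (nat_lit 10) (.e (nat_lit 344117) (nat_lit 21) (.e (nat_lit 516185) (nat_lit 16) (.e (nat_lit 491560) (nat_lit 10) (.e (nat_lit 344106) (nat_lit 19) .nil))))) .nil)) 
(.lf (nat_lit 286562) (.g (nat_lit 2498) (.e (nat_lit 286756) (nat_lit 10) (.e (nat_lit 344156) (nat_lit 36) (.e (nat_lit 638998) (nat_lit 8) (.e (nat_lit 172126) (nat_lit 14) (.e (nat_lit 491545) (nat_lit 8) (.e (nat_lit 327716) (nat_lit 16) .nil)))))) (.g (nat_lit 4) .nil .nil))))) (.nd (nat_lit 5) (.nd (nat_lit 6) 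
(.lf (nat_lit 286482) (.g (nat_lit 2356) (.e (nat_lit 286756) (nat_lit 10) (.e (nat_lit 344117) (nat_lit 21) (.e (nat_lit 516159) (nat_lit 10) (.e (nat_lit 434209) (nat_lit 18) (.e (nat_lit 5223) (nat_lit 296) .nil))))) .nil)) 
(.lf (nat_lit 286546) (.g (nat_lit 419) (.e (nat_lit 286756) (nat_lit 10) (.e (nat_lit 344129) (nat_lit 26) (.e (nat_lit 557087) (nat_lit 11) .nil))) .nil))) (.nd (nat_lit 6) 
(.lf (nat_lit 286514) (.g (nat_lit 1319) (.e (nat_lit 286756) (nat_lit 10) (.e (nat_lit 344126) (nat_lit 25) (.e (nat_lit 548874) (nat_lit 5) (.e (nat_lit 1575) (nat_lit 110) .nil)))) .nil)) 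
(.lf (nat_lit 286578) (.g (nat_lit 2375) (.e (nat_lit 286756) (nat_lit 10) (.e (nat_lit 344160) (nat_lit 37) (.e (nat_lit 647200) (nat_lit 12) (.e (nat_lit 57347) (nat_lit 0) (.e (nat_lit 7124) (nat_lit 382) .nil))))) .nil))))) (.nd (nat_lit 4) (.nd (nat_lit 5) (.nd (nat_lit 6) 
(.lf (nat_lit 286474) (.g (nat_lit 3142) (.e (nat_lit 286756) (nat_lit 10) (.e (nat_lit 344117) (nat_lit 21) (.e (nat_lit 516139) (nat_lit 7) (.e (nat_lit 409641) (nat_lit 17) (.e (nat_lit 294917) (nat_lit 0) .nil))))) .nil)) 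
(.lf (nat_lit 286538) (.g (nat_lit 1973) (.e (nat_lit 286756) (nat_lit 10) (.e (nat_lit 344126) (nat_lit 25) (.e (nat_lit 548889) (nat_lit 9) (.e (nat_lit 65609) (nat_lit 10) .nil)))) .nil))) (.nd (nat_lit 6) 
(.lf (nat_lit 286506) (.g (nat_lit 1537) (.e (nat_lit 286756) (nat_lit 10) (.e (nat_lit 344126) (nat_lit 25) (.e (nat_lit 548873) (nat_lit 5) (.e (nat_lit 1595) (nat_lit 111) (.e (nat_lit 360458) (nat_lit 1) (.e (nat_lit 499762) (nat_lit 0) (.e (nat_lit 1359) (nat_lit 102) .nil))))))) (.g (nat_lit 4) .nil .nil))) 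
(.lf (nat_lit 286570) (.g (nat_lit 3693) (.e (nat_lit 286756) (nat_lit 10) (.e (nat_lit 344160) (nat_lit 37) (.e (nat_lit 647195) (nat_lit 9) (.e (nat_lit 1014) (nat_lit 81) (.e (nat_lit 2328) (nat_lit 151) (.e (nat_lit 778362) (nat_lit 9) (.e (nat_lit 232) (nat_lit 21) (.e (nat_lit 336060) (nat_lit 7) (.e (nat_lit 319534) (nat_lit 16) .nil))))))))) (.g (nat_lit 7) .nil .nil))))) 
(.nd (nat_lit 5) (.nd (nat_lit 6) 
(.lf (nat_lit 286490) (.g (nat_lit 2389) (.e (nat_lit 286756) (nat_lit 10) (.e (nat_lit 344117) (nat_lit 21) (.e (nat_lit 516160) (nat_lit 10) (.e (nat_lit 434276) (nat_lit 39) .nil)))) .nil)) 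
(.lf (nat_lit 286554) (.g (nat_lit 1177) (.e (nat_lit 286756) (nat_lit 10) (.e (nat_lit 344129) (nat_lit 26) (.e (nat_lit 557087) (nat_lit 11) (.e (nat_lit 24632) (nat_lit 9) .nil)))) .nil))) (.nd (nat_lit 6) 
(.lf (nat_lit 286522) (.g (nat_lit 1966) (.e (nat_lit 286756) (nat_lit 10) (.e (nat_lit 344126) (nat_lit 25) (.e (nat_lit 548874) (nat_lit 5) (.e (nat_lit 1595) (nat_lit 111) (.e (nat_lit 360458) (nat_lit 1) (.e (nat_lit 499762) (nat_lit 0) (.e (nat_lit 1359) (nat_lit 102) .nil))))))) (.g (nat_lit 4) .nil .nil))) 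
(.lf (nat_lit 286586) (.g (nat_lit 4148) (.e (nat_lit 286756) (nat_lit 10) (.e (nat_lit 344168) (nat_lit 40) (.e (nat_lit 671762) (nat_lit 4) (.e (nat_lit 65617) (nat_lit 10) (.e (nat_lit 344161) (nat_lit 37) (.e (nat_lit 647203) (nat_lit 14) (.e (nat_lit 1359) (nat_lit 102) .nil))))))) (.g (nat_lit 7) .nil .nil))))))) (.nd (nat_lit 3) (.nd (nat_lit 4) (.nd (nat_lit 5) (.nd (nat_lit 6) 
(.lf (nat_lit 286470) (.g (nat_lit 1763) (.e (nat_lit 286756) (nat_lit 10) (.e (nat_lit 344117) (nat_lit 21) (.e (nat_lit 516097) (nat_lit 0) (.e (nat_lit 7591) (nat_lit 407) (.e (nat_lit 73744) (nat_lit 2) .nil))))) .nil)) 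
(.lf (nat_lit 286534) (.g (nat_lit 2767) (.e (nat_lit 286756) (nat_lit 10) (.e (nat_lit 344126) (nat_lit 25) (.e (nat_lit 548889) (nat_lit 9) (.e (nat_lit 65598) (nat_lit 9) (.e (nat_lit 336013) (nat_lit 2) (.e (nat_lit 98048) (nat_lit 18) (.e (nat_lit 1350) (nat_lit 102) .nil))))))) (.g (nat_lit 4) .nil .nil)))) (.nd (nat_lit 6) 
(.lf (nat_lit 286502) (.g (nat_lit 741) (.e (nat_lit 286756) (nat_lit 10) (.e (nat_lit 344117) (nat_lit 21) (.e (nat_lit 516195) (nat_lit 26) .nil))) .nil)) 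
(.lf (nat_lit 286566) (.g (nat_lit 331) (.e (nat_lit 286756) (nat_lit 10) (.e (nat_lit 344160) (nat_lit 37) (.e (nat_lit 647195) (nat_lit 9) .nil))) .nil)))) (.nd (nat_lit 5) (.nd (nat_lit 6) 
(.lf (nat_lit 286486) (.g (nat_lit 2129) (.e (nat_lit 286756) (nat_lit 10) (.e (nat_lit 344117) (nat_lit 21) (.e (nat_lit 516160) (nat_lit 10) (.e (nat_lit 434209) (nat_lit 18) .nil)))) .nil)) 
(.lf (nat_lit 286550) (.g (nat_lit 2918) (.e (nat_lit 286756) (nat_lit 10) (.e (nat_lit 344129) (nat_lit 26) (.e (nat_lit 557087) (nat_lit 11) (.e (nat_lit 24617) (nat_lit 7) (.e (nat_lit 319504) (nat_lit 10) .nil))))) .nil))) (.nd (nat_lit 6) 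
(.lf (nat_lit 286518) (.g (nat_lit 2190) (.e (nat_lit 286756) (nat_lit 10) (.e (nat_lit 344126) (nat_lit 25) (.e (nat_lit 548874) (nat_lit 5) (.e (nat_lit 1589) (nat_lit 111) (.e (nat_lit 360464) (nat_lit 2) (.e (nat_lit 507921) (nat_lit 6) .nil)))))) (.g (nat_lit 4) .nil .nil))) 
(.lf (nat_lit 286582) (.g (nat_lit 2638) (.e (nat_lit 286756) (nat_lit 10) (.e (nat_lit 344160) (nat_lit 37) (.e (nat_lit 647200) (nat_lit 12) (.e (nat_lit 57575) (nat_lit 55) (.e (nat_lit 778359) (nat_lit 9) (.e (nat_lit 232) (nat_lit 21) (.e (nat_lit 336060) (nat_lit 7) (.e (nat_lit 319534) (nat_lit 16) .nil)))))))) (.g (nat_lit 4) .nil .nil)))))) 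
(.nd (nat_lit 4) (.nd (nat_lit 5) (.nd (nat_lit 6) 
(.lf (nat_lit 286478) (.g (nat_lit 2419) (.e (nat_lit 286756) (nat_lit 10) (.e (nat_lit 344117) (nat_lit 21) (.e (nat_lit 516151) (nat_lit 9) (.e (nat_lit 426097) (nat_lit 1) .nil)))) .nil)) 
(.lf (nat_lit 286542) (.g (nat_lit 2901) (.e (nat_lit 286756) (nat_lit 10) (.e (nat_lit 344126) (nat_lit 25) (.e (nat_lit 548891) (nat_lit 11) (.e (nat_lit 81947) (nat_lit 20) (.e (nat_lit 1774) (nat_lit 118) (.e (nat_lit 507923) (nat_lit 6) .nil)))))) (.g (nat_lit 0) .nil .nil)))) (.nd (nat_lit 6) 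
(.lf (nat_lit 286510) (.g (nat_lit 1633) (.e (nat_lit 286756) (nat_lit 10) (.e (nat_lit 344126) (nat_lit 25) (.e (nat_lit 548874) (nat_lit 5) (.e (nat_lit 1559) (nat_lit 110) (.e (nat_lit 352302) (nat_lit 20) .nil))))) .nil)) 
(.lf (nat_lit 286574) (.g (nat_lit 1940) (.e (nat_lit 286756) (nat_lit 10) (.e (nat_lit 344160) (nat_lit 37) (.e (nat_lit 647195) (nat_lit 9) (.e (nat_lit 1181) (nat_lit 87) (.e (nat_lit 57653) (nat_lit 152) .nil))))) .nil)))) (.nd (nat_lit 5) (.nd (nat_lit 6) 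
(.lf (nat_lit 286494) (.g (nat_lit 2698) (.e (nat_lit 286756) (nat_lit 10) (.e (nat_lit 344117) (nat_lit 21) (.e (nat_lit 516185) (nat_lit 16) (.e (nat_lit 491552) (nat_lit 9) (.e (nat_lit 335924) (nat_lit 0) (.e (nat_lit 1774) (nat_lit 118) (.e (nat_lit 507923) (nat_lit 6) .nil))))))) (.g (nat_lit 4) .nil .nil))) 
(.lf (nat_lit 286558) (.g (nat_lit 1454) (.e (nat_lit 286756) (nat_lit 10) (.e (nat_lit 344138) (nat_lit 29) (.e (nat_lit 581653) (nat_lit 6) (.e (nat_lit 188431) (nat_lit 20) (.e (nat_lit 3569) (nat_lit 222) .nil))))) .nil))) (.nd (nat_lit 6) 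
(.lf (nat_lit 286526) (.g (nat_lit 1051) (.e (nat_lit 286756) (nat_lit 10) (.e (nat_lit 344126) (nat_lit 25) (.e (nat_lit 548874) (nat_lit 5) (.e (nat_lit 1598) (nat_lit 111) .nil)))) .nil)) 
(.lf (nat_lit 286590) (.g (nat_lit 1404) (.e (nat_lit 286756) (nat_lit 10) (.e (nat_lit 344169) (nat_lit 40) (.e (nat_lit 671751) (nat_lit 0) (.e (nat_lit 1182) (nat_lit 87) (.e (nat_lit 57728) (nat_lit 181) .nil))))) .nil)))))))) (.nd (nat_lit 1) (.nd (nat_lit 2) (.nd (nat_lit 3) (.nd (nat_lit 4) (.nd (nat_lit 5) (.nd (nat_lit 6) 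
(.lf (nat_lit 286465) (.g (nat_lit 522) (.e (nat_lit 286756) (nat_lit 10) (.e (nat_lit 344107) (nat_lit 19) (.e (nat_lit 499915) (nat_lit 9) .nil))) .nil)) 
(.lf (nat_lit 286529) (.g (nat_lit 1802) (.e (nat_lit 286756) (nat_lit 10) (.e (nat_lit 344126) (nat_lit 25) (.e (nat_lit 548889) (nat_lit 9) (.e (nat_lit 65592) (nat_lit 9) .nil)))) .nil))) (.nd (nat_lit 6) 
(.lf (nat_lit 286497) (.g (nat_lit 2170) (.e (nat_lit 286756) (nat_lit 10) (.e (nat_lit 344117) (nat_lit 21) (.e (nat_lit 516185) (nat_lit 16) (.e (nat_lit 491560) (nat_lit 10) (.e (nat_lit 344105) (nat_lit 19) .nil))))) .nil)) 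
(.lf (nat_lit 286561) (.g (nat_lit 1108) (.e (nat_lit 286756) (nat_lit 10) (.e (nat_lit 344156) (nat_lit 36) (.e (nat_lit 638998) (nat_lit 8) (.e (nat_lit 172082) (nat_lit 7) .nil)))) .nil)))) (.nd (nat_lit 5) (.nd (nat_lit 6) 
(.lf (nat_lit 286481) (.g (nat_lit 942) (.e (nat_lit 286756) (nat_lit 10) (.e (nat_lit 344117) (nat_lit 21) (.e (nat_lit 516159) (nat_lit 10) .nil))) .nil)) 
(.lf (nat_lit 286545) (.g (nat_lit 621) (.e (nat_lit 286756) (nat_lit 10) (.e (nat_lit 344129) (nat_lit 26) (.e (nat_lit 557074) (nat_lit 9) .nil))) .nil))) (.nd (nat_lit 6) 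
(.lf (nat_lit 286513) (.g (nat_lit 1343) (.e (nat_lit 286756) (nat_lit 10) (.e (nat_lit 344126) (nat_lit 25) (.e (nat_lit 548874) (nat_lit 5) (.e (nat_lit 1572) (nat_lit 110) .nil)))) .nil)) 
(.lf (nat_lit 286577) (.g (nat_lit 2092) (.e (nat_lit 286756) (nat_lit 10) (.e (nat_lit 344160) (nat_lit 37) (.e (nat_lit 647199) (nat_lit 11) (.e (nat_lit 16473) (nat_lit 14) (.e (nat_lit 491545) (nat_lit 8) .nil))))) .nil))))) (.nd (nat_lit 4) (.nd (nat_lit 5) (.nd (nat_lit 6) 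
(.lf (nat_lit 286473) (.g (nat_lit 1954) (.e (nat_lit 286756) (nat_lit 10) (.e (nat_lit 344117) (nat_lit 21) (.e (nat_lit 516106) (nat_lit 0) (.e (nat_lit 7936) (nat_lit 406) .nil)))) .nil)) 
(.lf (nat_lit 286537) (.g (nat_lit 1947) (.e (nat_lit 286756) (nat_lit 10) (.e (nat_lit 344126) (nat_lit 25) (.e (nat_lit 548889) (nat_lit 9) (.e (nat_lit 65605) (nat_lit 9) .nil)))) .nil))) (.nd (nat_lit 6) 
(.lf (nat_lit 286505) (.g (nat_lit 271) (.e (nat_lit 286756) (nat_lit 10) (.e (nat_lit 344126) (nat_lit 25) (.e (nat_lit 548873) (nat_lit 5) .nil))) .nil)) 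
(.lf (nat_lit 286569) (.g (nat_lit 3575) (.e (nat_lit 286756) (nat_lit 10) (.e (nat_lit 344160) (nat_lit 37) (.e (nat_lit 647195) (nat_lit 9) (.e (nat_lit 1012) (nat_lit 81) (.e (nat_lit 2328) (nat_lit 151) (.e (nat_lit 778362) (nat_lit 9) (.e (nat_lit 232) (nat_lit 21) (.e (nat_lit 336060) (nat_lit 7) (.e (nat_lit 319534) (nat_lit 16) .nil))))))))) (.g (nat_lit 7) .nil .nil))))) 
(.nd (nat_lit 5) (.nd (nat_lit 6) 
(.lf (nat_lit 286489) (.g (nat_lit 3419) (.e (nat_lit 286756) (nat_lit 10) (.e (nat_lit 344117) (nat_lit 21) (.e (nat_lit 516160) (nat_lit 10) (.e (nat_lit 434275) (nat_lit 39) (.e (nat_lit 663584) (nat_lit 12) (.e (nat_lit 163978) (nat_lit 30) (.e (nat_lit 573502) (nat_lit 18) (.e (nat_lit 1359) (nat_lit 102) .nil)))))))) (.g (nat_lit 4) .nil .nil))) 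
(.lf (nat_lit 286553) (.g (nat_lit 2071) (.e (nat_lit 286756) (nat_lit 10) (.e (nat_lit 344129) (nat_lit 26) (.e (nat_lit 557087) (nat_lit 11) (.e (nat_lit 24631) (nat_lit 9) .nil)))) .nil))) (.nd (nat_lit 6) 
(.lf (nat_lit 286521) (.g (nat_lit 952) (.e (nat_lit 286756) (nat_lit 10) (.e (nat_lit 344126) (nat_lit 25) (.e (nat_lit 548874) (nat_lit 5) (.e (nat_lit 1595) (nat_lit 111) .nil)))) .nil)) 
(.lf (nat_lit 286585) (.g (nat_lit 3915) (.e (nat_lit 286756) (nat_lit 10) (.e (nat_lit 344168) (nat_lit 40) (.e (nat_lit 671762) (nat_lit 4) (.e (nat_lit 65610) (nat_lit 10) (.e (nat_lit 344160) (nat_lit 37) (.e (nat_lit 647203) (nat_lit 14) (.e (nat_lit 1359) (nat_lit 102) .nil))))))) (.g (nat_lit 7) .nil .nil))))))) (.nd (nat_lit 3) (.nd (nat_lit 4) (.nd (nat_lit 5) (.nd (nat_lit 6) 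
(.lf (nat_lit 286469) (.g (nat_lit 1785) (.e (nat_lit 286756) (nat_lit 10) (.e (nat_lit 344115) (nat_lit 20) (.e (nat_lit 507923) (nat_lit 6) (.e (nat_lit 286747) (nat_lit 9) (.e (nat_lit 336013) (nat_lit 2) (.e (nat_lit 98048) (nat_lit 18) (.e (nat_lit 1357) (nat_lit 102) .nil))))))) (.g (nat_lit 5) .nil .nil))) 
(.lf (nat_lit 286533) (.g (nat_lit 4972) (.e (nat_lit 286756) (nat_lit 10) (.e (nat_lit 344126) (nat_lit 25) (.e (nat_lit 548889) (nat_lit 9) (.e (nat_lit 65598) (nat_lit 9) (.e (nat_lit 336013) (nat_lit 2) (.e (nat_lit 90189) (nat_lit 18) (.e (nat_lit 7936) (nat_lit 102) .nil))))))) (.g (nat_lit 6) .nil .nil)))) (.nd (nat_lit 6) 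
(.lf (nat_lit 286501) (.g (nat_lit 812) (.e (nat_lit 286756) (nat_lit 10) (.e (nat_lit 344117) (nat_lit 21) (.e (nat_lit 516191) (nat_lit 17) .nil))) .nil)) 
(.lf (nat_lit 286565) (.g (nat_lit 4320) (.e (nat_lit 286756) (nat_lit 10) (.e (nat_lit 344160) (nat_lit 37) (.e (nat_lit 647190) (nat_lit 9) (.e (nat_lit 1312) (nat_lit 98) (.e (nat_lit 147496) (nat_lit 11) (.e (nat_lit 24617) (nat_lit 7) (.e (nat_lit 319534) (nat_lit 16) .nil))))))) (.g (nat_lit 0) .nil .nil))))) (.nd (nat_lit 5) (.nd (nat_lit 6) 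
(.lf (nat_lit 286485) (.g (nat_lit 905) (.e (nat_lit 286756) (nat_lit 10) (.e (nat_lit 344117) (nat_lit 21) (.e (nat_lit 516160) (nat_lit 10) .nil))) .nil)) 
(.lf (nat_lit 286549) (.g (nat_lit 3409) (.e (nat_lit 286756) (nat_lit 10) (.e (nat_lit 344129) (nat_lit 26) (.e (nat_lit 557087) (nat_lit 11) (.e (nat_lit 24617) (nat_lit 7) (.e (nat_lit 319490) (nat_lit 0) (.e (nat_lit 539) (nat_lit 41) (.e (nat_lit 499756) (nat_lit 0) (.e (nat_lit 1359) (nat_lit 102) .nil)))))))) (.g (nat_lit 4) .nil .nil)))) (.nd (nat_lit 6) 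
(.lf (nat_lit 286517) (.g (nat_lit 1116) (.e (nat_lit 286756) (nat_lit 10) (.e (nat_lit 344126) (nat_lit 25) (.e (nat_lit 548874) (nat_lit 5) (.e (nat_lit 1586) (nat_lit 111) .nil)))) .nil)) 
(.lf (nat_lit 286581) (.g (nat_lit 3957) (.e (nat_lit 286756) (nat_lit 10) (.e (nat_lit 344160) (nat_lit 37) (.e (nat_lit 647200) (nat_lit 12) (.e (nat_lit 57574) (nat_lit 55) (.e (nat_lit 778362) (nat_lit 9) (.e (nat_lit 232) (nat_lit 21) (.e (nat_lit 336060) (nat_lit 7) (.e (nat_lit 319534) (nat_lit 16) .nil)))))))) (.g (nat_lit 5) .nil .nil)))))) 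
(.nd (nat_lit 4) (.nd (nat_lit 5) (.nd (nat_lit 6) 
(.lf (nat_lit 286477) (.g (nat_lit 2814) (.e (nat_lit 286756) (nat_lit 10) (.e (nat_lit 344117) (nat_lit 21) (.e (nat_lit 516145) (nat_lit 9) (.e (nat_lit 426112) (nat_lit 1) .nil)))) .nil)) 
(.lf (nat_lit 286541) (.g (nat_lit 2082) (.e (nat_lit 286756) (nat_lit 10) (.e (nat_lit 344126) (nat_lit 25) (.e (nat_lit 548891) (nat_lit 11) (.e (nat_lit 81941) (nat_lit 20) .nil)))) .nil))) (.nd (nat_lit 6) 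
(.lf (nat_lit 286509) (.g (nat_lit 1358) (.e (nat_lit 286756) (nat_lit 10) (.e (nat_lit 344126) (nat_lit 25) (.e (nat_lit 548874) (nat_lit 5) (.e (nat_lit 1559) (nat_lit 110) .nil)))) .nil)) 
(.lf (nat_lit 286573) (.g (nat_lit 4257) (.e (nat_lit 286756) (nat_lit 10) (.e (nat_lit 344160) (nat_lit 37) (.e (nat_lit 647195) (nat_lit 9) (.e (nat_lit 1043) (nat_lit 81) (.e (nat_lit 2346) (nat_lit 151) (.e (nat_lit 778362) (nat_lit 9) (.e (nat_lit 232) (nat_lit 21) (.e (nat_lit 336060) (nat_lit 7) (.e (nat_lit 319534) (nat_lit 16) .nil))))))))) (.g (nat_lit 7) .nil .nil))))) 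
(.nd (nat_lit 5) (.nd (nat_lit 6) 
(.lf (nat_lit 286493) (.g (nat_lit 2333) (.e (nat_lit 286756) (nat_lit 10) (.e (nat_lit 344117) (nat_lit 21) (.e (nat_lit 516185) (nat_lit 16) (.e (nat_lit 491552) (nat_lit 9) (.e (nat_lit 335886) (nat_lit 0) .nil))))) .nil)) 
(.lf (nat_lit 286557) (.g (nat_lit 727) (.e (nat_lit 286756) (nat_lit 10) (.e (nat_lit 344129) (nat_lit 26) (.e (nat_lit 557119) (nat_lit 18) .nil))) .nil))) (.nd (nat_lit 6) 
(.lf (nat_lit 286525) (.g (nat_lit 1964) (.e (nat_lit 286756) (nat_lit 10) (.e (nat_lit 344126) (nat_lit 25) (.e (nat_lit 548874) (nat_lit 5) (.e (nat_lit 1595) (nat_lit 111) (.e (nat_lit 360464) (nat_lit 2) (.e (nat_lit 507921) (nat_lit 6) .nil)))))) (.g (nat_lit 4) .nil .nil))) 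
(.lf (nat_lit 286589) (.g (nat_lit 2195) (.e (nat_lit 286756) (nat_lit 10) (.e (nat_lit 344169) (nat_lit 40) (.e (nat_lit 671748) (nat_lit 0) (.e (nat_lit 1183) (nat_lit 87) (.e (nat_lit 57725) (nat_lit 181) .nil))))) .nil))))))) (.nd (nat_lit 2) (.nd (nat_lit 3) (.nd (nat_lit 4) (.nd (nat_lit 5) (.nd (nat_lit 6) 
(.lf (nat_lit 286467) (.g (nat_lit 3274) (.e (nat_lit 286756) (nat_lit 10) (.e (nat_lit 344115) (nat_lit 20) (.e (nat_lit 507923) (nat_lit 6) (.e (nat_lit 286747) (nat_lit 9) (.e (nat_lit 336013) (nat_lit 2) (.e (nat_lit 90189) (nat_lit 18) (.e (nat_lit 7936) (nat_lit 102) .nil))))))) (.g (nat_lit 6) .nil .nil))) 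
(.lf (nat_lit 286531) (.g (nat_lit 2618) (.e (nat_lit 286756) (nat_lit 10) (.e (nat_lit 344126) (nat_lit 25) (.e (nat_lit 548889) (nat_lit 9) (.e (nat_lit 65598) (nat_lit 9) (.e (nat_lit 335937) (nat_lit 0) .nil))))) .nil))) (.nd (nat_lit 6) 
(.lf (nat_lit 286499) (.g (nat_lit 2337) (.e (nat_lit 286756) (nat_lit 10) (.e (nat_lit 344117) (nat_lit 21) (.e (nat_lit 516185) (nat_lit 16) (.e (nat_lit 491560) (nat_lit 10) (.e (nat_lit 344114) (nat_lit 20) (.e (nat_lit 507922) (nat_lit 6) .nil)))))) (.g (nat_lit 5) .nil .nil))) 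
(.lf (nat_lit 286563) (.g (nat_lit 4084) (.e (nat_lit 286756) (nat_lit 10) (.e (nat_lit 344160) (nat_lit 37) (.e (nat_lit 647190) (nat_lit 9) (.e (nat_lit 1030) (nat_lit 81) (.e (nat_lit 2342) (nat_lit 151) (.e (nat_lit 778362) (nat_lit 9) (.e (nat_lit 232) (nat_lit 21) (.e (nat_lit 336060) (nat_lit 7) (.e (nat_lit 319534) (nat_lit 16) .nil))))))))) (.g (nat_lit 7) .nil .nil))))) 
(.nd (nat_lit 5) (.nd (nat_lit 6) 
(.lf (nat_lit 286483) (.g (nat_lit 1918) (.e (nat_lit 286756) (nat_lit 10) (.e (nat_lit 344117) (nat_lit 21) (.e (nat_lit 516159) (nat_lit 10) (.e (nat_lit 434275) (nat_lit 39) .nil)))) .nil)) 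
(.lf (nat_lit 286547) (.g (nat_lit 2044) (.e (nat_lit 286756) (nat_lit 10) (.e (nat_lit 344129) (nat_lit 26) (.e (nat_lit 557087) (nat_lit 11) (.e (nat_lit 24617) (nat_lit 7) .nil)))) .nil))) (.nd (nat_lit 6) 
(.lf (nat_lit 286515) (.g (nat_lit 1564) (.e (nat_lit 286756) (nat_lit 10) (.e (nat_lit 344126) (nat_lit 25) (.e (nat_lit 548874) (nat_lit 5) (.e (nat_lit 1575) (nat_lit 110) (.e (nat_lit 352295) (nat_lit 20) .nil))))) .nil)) 
(.lf (nat_lit 286579) (.g (nat_lit 2227) (.e (nat_lit 286756) (nat_lit 10) (.e (nat_lit 344160) (nat_lit 37) (.e (nat_lit 647200) (nat_lit 12) (.e (nat_lit 57354) (nat_lit 0) (.e (nat_lit 7147) (nat_lit 382) .nil))))) .nil))))) (.nd (nat_lit 4) (.nd (nat_lit 5) (.nd (nat_lit 6) 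
(.lf (nat_lit 286475) (.g (nat_lit 1775) (.e (nat_lit 286756) (nat_lit 10) (.e (nat_lit 344117) (nat_lit 21) (.e (nat_lit 516143) (nat_lit 9) (.e (nat_lit 426109) (nat_lit 1) .nil)))) .nil)) 
(.lf (nat_lit 286539) (.g (nat_lit 2090) (.e (nat_lit 286756) (nat_lit 10) (.e (nat_lit 344126) (nat_lit 25) (.e (nat_lit 548891) (nat_lit 11) (.e (nat_lit 81938) (nat_lit 20) (.e (nat_lit 1774) (nat_lit 118) (.e (nat_lit 507923) (nat_lit 6) .nil)))))) (.g (nat_lit 4) .nil .nil)))) (.nd (nat_lit 6) 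
(.lf (nat_lit 286507) (.g (nat_lit 1123) (.e (nat_lit 286756) (nat_lit 10) (.e (nat_lit 344126) (nat_lit 25) (.e (nat_lit 548873) (nat_lit 5) (.e (nat_lit 1595) (nat_lit 111) (.e (nat_lit 360462) (nat_lit 1) .nil))))) .nil)) 
(.lf (nat_lit 286571) (.g (nat_lit 4121) (.e (nat_lit 286756) (nat_lit 10) (.e (nat_lit 344160) (nat_lit 37) (.e (nat_lit 647195) (nat_lit 9) (.e (nat_lit 1039) (nat_lit 81) (.e (nat_lit 2342) (nat_lit 151) (.e (nat_lit 778362) (nat_lit 9) (.e (nat_lit 232) (nat_lit 21) (.e (nat_lit 336060) (nat_lit 7) (.e (nat_lit 319534) (nat_lit 16) .nil))))))))) (.g (nat_lit 7) .nil .nil))))) 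
(.nd (nat_lit 5) (.nd (nat_lit 6) 
(.lf (nat_lit 286491) (.g (nat_lit 1882) (.e (nat_lit 286756) (nat_lit 10) (.e (nat_lit 344117) (nat_lit 21) (.e (nat_lit 516185) (nat_lit 16) (.e (nat_lit 491546) (nat_lit 9) (.e (nat_lit 336013) (nat_lit 2) .nil))))) .nil)) 
(.lf (nat_lit 286555) (.g (nat_lit 2822) (.e (nat_lit 286756) (nat_lit 10) (.e (nat_lit 344129) (nat_lit 26) (.e (nat_lit 557087) (nat_lit 11) (.e (nat_lit 24639) (nat_lit 10) (.e (nat_lit 344115) (nat_lit 20) (.e (nat_lit 507923) (nat_lit 6) .nil)))))) (.g (nat_lit 0) .nil .nil)))) (.nd (nat_lit 6) 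
(.lf (nat_lit 286523) (.g (nat_lit 1598) (.e (nat_lit 286756) (nat_lit 10) (.e (nat_lit 344126) (nat_lit 25) (.e (nat_lit 548874) (nat_lit 5) (.e (nat_lit 1595) (nat_lit 111) (.e (nat_lit 360462) (nat_lit 1) .nil))))) .nil)) 
(.lf (nat_lit 286587) (.g (nat_lit 4275) (.e (nat_lit 286756) (nat_lit 10) (.e (nat_lit 344168) (nat_lit 40) (.e (nat_lit 671762) (nat_lit 4) (.e (nat_lit 65619) (nat_lit 10) (.e (nat_lit 344160) (nat_lit 37) (.e (nat_lit 647203) (nat_lit 14) (.e (nat_lit 1359) (nat_lit 102) .nil))))))) (.g (nat_lit 7) .nil .nil))))))) (.nd (nat_lit 3) (.nd (nat_lit 4) (.nd (nat_lit 5) (.nd (nat_lit 6) 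
(.lf (nat_lit 286471) (.g (nat_lit 1611) (.e (nat_lit 286756) (nat_lit 10) (.e (nat_lit 344117) (nat_lit 21) (.e (nat_lit 516097) (nat_lit 0) (.e (nat_lit 7593) (nat_lit 407) (.e (nat_lit 73738) (nat_lit 1) .nil))))) .nil)) 
(.lf (nat_lit 286535) (.g (nat_lit 2942) (.e (nat_lit 286756) (nat_lit 10) (.e (nat_lit 344126) (nat_lit 25) (.e (nat_lit 548889) (nat_lit 9) (.e (nat_lit 65598) (nat_lit 9) (.e (nat_lit 336013) (nat_lit 2) (.e (nat_lit 98048) (nat_lit 18) (.e (nat_lit 1354) (nat_lit 102) .nil))))))) (.g (nat_lit 4) .nil .nil)))) (.nd (nat_lit 6) 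
(.lf (nat_lit 286503) (.g (nat_lit 2604) (.e (nat_lit 286756) (nat_lit 10) (.e (nat_lit 344117) (nat_lit 21) (.e (nat_lit 516195) (nat_lit 26) (.e (nat_lit 335996) (nat_lit 1) (.e (nat_lit 57851) (nat_lit 252) (.e (nat_lit 57354) (nat_lit 0) (.e (nat_lit 2235) (nat_lit 146) (.e (nat_lit 737299) (nat_lit 7) .nil)))))))) (.g (nat_lit 4) .nil .nil))) 
(.lf (nat_lit 286567) (.g (nat_lit 1713) (.e (nat_lit 286756) (nat_lit 10) (.e (nat_lit 344160) (nat_lit 37) (.e (nat_lit 647195) (nat_lit 9) (.e (nat_lit 426) (nat_lit 32) (.e (nat_lit 426342) (nat_lit 14) .nil))))) .nil)))) (.nd (nat_lit 5) (.nd (nat_lit 6) 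
(.lf (nat_lit 286487) (.g (nat_lit 4380) (.e (nat_lit 286756) (nat_lit 10) (.e (nat_lit 344117) (nat_lit 21) (.e (nat_lit 516160) (nat_lit 10) (.e (nat_lit 434209) (nat_lit 18) (.e (nat_lit 5223) (nat_lit 296) (.e (nat_lit 163868) (nat_lit 2) (.e (nat_lit 196691) (nat_lit 18) (.e (nat_lit 1359) (nat_lit 102) .nil)))))))) (.g (nat_lit 6) .nil .nil))) 
(.lf (nat_lit 286551) (.g (nat_lit 2694) (.e (nat_lit 286756) (nat_lit 10) (.e (nat_lit 344129) (nat_lit 26) (.e (nat_lit 557087) (nat_lit 11) (.e (nat_lit 24617) (nat_lit 7) (.e (nat_lit 319505) (nat_lit 10) .nil))))) .nil))) (.nd (nat_lit 6) 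
(.lf (nat_lit 286519) (.g (nat_lit 1957) (.e (nat_lit 286756) (nat_lit 10) (.e (nat_lit 344126) (nat_lit 25) (.e (nat_lit 548874) (nat_lit 5) (.e (nat_lit 1589) (nat_lit 111) (.e (nat_lit 368384) (nat_lit 2) .nil))))) .nil)) 
(.lf (nat_lit 286583) (.g (nat_lit 2248) (.e (nat_lit 286756) (nat_lit 10) (.e (nat_lit 344160) (nat_lit 37) (.e (nat_lit 647200) (nat_lit 12) (.e (nat_lit 57575) (nat_lit 55) (.e (nat_lit 778360) (nat_lit 9) .nil))))) .nil))))) (.nd (nat_lit 4) (.nd (nat_lit 5) (.nd (nat_lit 6) 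
(.lf (nat_lit 286479) (.g (nat_lit 3375) (.e (nat_lit 286756) (nat_lit 10) (.e (nat_lit 344117) (nat_lit 21) (.e (nat_lit 516151) (nat_lit 9) (.e (nat_lit 426103) (nat_lit 1) .nil)))) .nil)) 
(.lf (nat_lit 286543) (.g (nat_lit 517) (.e (nat_lit 286756) (nat_lit 10) (.e (nat_lit 344129) (nat_lit 26) (.e (nat_lit 557065) (nat_lit 9) .nil))) .nil))) (.nd (nat_lit 6) 
(.lf (nat_lit 286511) (.g (nat_lit 1265) (.e (nat_lit 286756) (nat_lit 10) (.e (nat_lit 344126) (nat_lit 25) (.e (nat_lit 548874) (nat_lit 5) (.e (nat_lit 1562) (nat_lit 110) .nil)))) .nil)) 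
(.lf (nat_lit 286575) (.g (nat_lit 1995) (.e (nat_lit 286756) (nat_lit 10) (.e (nat_lit 344160) (nat_lit 37) (.e (nat_lit 647195) (nat_lit 9) (.e (nat_lit 1181) (nat_lit 87) (.e (nat_lit 57660) (nat_lit 152) .nil))))) .nil)))) (.nd (nat_lit 5) (.nd (nat_lit 6) 
(.lf (nat_lit 286495) (.g (nat_lit 1161) (.e (nat_lit 286756) (nat_lit 10) (.e (nat_lit 344117) (nat_lit 21) (.e (nat_lit 516185) (nat_lit 16) (.e (nat_lit 491558) (nat_lit 10) .nil)))) .nil)) 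
(.lf (nat_lit 286559) (.g (nat_lit 1197) (.e (nat_lit 286756) (nat_lit 10) (.e (nat_lit 344156) (nat_lit 36) (.e (nat_lit 638985) (nat_lit 5) (.e (nat_lit 2828) (nat_lit 182) (.e (nat_lit 417536) (nat_lit 6) .nil))))) .nil))) (.nd (nat_lit 6) 
(.lf (nat_lit 286527) (.g (nat_lit 1490) (.e (nat_lit 286756) (nat_lit 10) (.e (nat_lit 344126) (nat_lit 25) (.e (nat_lit 548874) (nat_lit 5) (.e (nat_lit 1598) (nat_lit 111) (.e (nat_lit 360459) (nat_lit 1) .nil))))) .nil)) 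
(.lf (nat_lit 286591) (.g (nat_lit 1878) (.e (nat_lit 286756) (nat_lit 10) (.e (nat_lit 344169) (nat_lit 40) (.e (nat_lit 671759) (nat_lit 3) (.e (nat_lit 57351) (nat_lit 0) (.e (nat_lit 6811) (nat_lit 365) .nil))))) .nil)))))))))

noncomputable def tv3633 : DT := (.nd (nat_lit 0) (.nd (nat_lit 1) (.nd (nat_lit 2) (.nd (nat_lit 3) (.nd (nat_lit 4) (.nd (nat_lit 5) (.nd (nat_lit 6) 
(.lf (nat_lit 286592) (.g (nat_lit 1743) (.e (nat_lit 286756) (nat_lit 10) (.e (nat_lit 344169) (nat_lit 40) (.e (nat_lit 671759) (nat_lit 3) (.e (nat_lit 57352) (nat_lit 0) (.e (nat_lit 6811) (nat_lit 365) .nil))))) .nil)) 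
(.lf (nat_lit 286656) (.g (nat_lit 1146) (.e (nat_lit 286758) (nat_lit 12) (.e (nat_lit 385106) (nat_lit 50) (.e (nat_lit 786483) (nat_lit 30) (.e (nat_lit 360484) (nat_lit 15) .nil)))) .nil))) (.nd (nat_lit 6) 
(.lf (nat_lit 286624) (.g (nat_lit 1993) (.e (nat_lit 286756) (nat_lit 10) (.e (nat_lit 344183) (nat_lit 49) (.e (nat_lit 819221) (nat_lit 6) (.e (nat_lit 188440) (nat_lit 20) (.e (nat_lit 3307) (nat_lit 202) (.e (nat_lit 573502) (nat_lit 18) (.e (nat_lit 1359) (nat_lit 102) .nil))))))) (.g (nat_lit 5) .nil .nil))) 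
(.lf (nat_lit 286688) (.g (nat_lit 3571) (.e (nat_lit 286759) (nat_lit 12) (.e (nat_lit 385068) (nat_lit 26) (.e (nat_lit 532515) (nat_lit 3) (.e (nat_lit 114712) (nat_lit 21) (.e (nat_lit 57691) (nat_lit 156) (.e (nat_lit 163869) (nat_lit 2) (.e (nat_lit 196691) (nat_lit 18) (.e (nat_lit 1348) (nat_lit 102) .nil)))))))) (.g (nat_lit 6) .nil .nil))))) (.nd (nat_lit 5) (.nd (nat_lit 6) 
(.lf (nat_lit 286608) (.g (nat_lit 448) (.e (nat_lit 286756) (nat_lit 10) (.e (nat_lit 344177) (nat_lit 43) (.e (nat_lit 770057) (nat_lit 5) .nil))) .nil)) 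
(.lf (nat_lit 286672) (.g (nat_lit 2337) (.e (nat_lit 286759) (nat_lit 12) (.e (nat_lit 385068) (nat_lit 26) (.e (nat_lit 532499) (nat_lit 1) (.e (nat_lit 57783) (nat_lit 239) (.e (nat_lit 2619) (nat_lit 164) .nil))))) .nil))) (.nd (nat_lit 6) 
(.lf (nat_lit 286640) (.g (nat_lit 2276) (.e (nat_lit 286758) (nat_lit 12) (.e (nat_lit 385094) (nat_lit 49) (.e (nat_lit 778318) (nat_lit 3) (.e (nat_lit 57521) (nat_lit 44) (.e (nat_lit 688177) (nat_lit 16) .nil))))) .nil)) 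
(.lf (nat_lit 286704) (.g (nat_lit 1264) (.e (nat_lit 286759) (nat_lit 12) (.e (nat_lit 385074) (nat_lit 31) (.e (nat_lit 573460) (nat_lit 9) .nil))) .nil))))) (.nd (nat_lit 4) (.nd (nat_lit 5) (.nd (nat_lit 6) 
(.lf (nat_lit 286600) (.g (nat_lit 597) (.e (nat_lit 286756) (nat_lit 10) (.e (nat_lit 344174) (nat_lit 42) (.e (nat_lit 761867) (nat_lit 5) (.e (nat_lit 1555) (nat_lit 110) .nil)))) .nil)) 
(.lf (nat_lit 286664) (.g (nat_lit 2619) (.e (nat_lit 286758) (nat_lit 12) (.e (nat_lit 385113) (nat_lit 53) (.e (nat_lit 811045) (nat_lit 14) (.e (nat_lit 40997) (nat_lit 11) (.e (nat_lit 24617) (nat_lit 7) (.e (nat_lit 319533) (nat_lit 16) .nil)))))) (.g (nat_lit 0) .nil .nil)))) (.nd (nat_lit 6) 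
(.lf (nat_lit 286632) (.g (nat_lit 1842) (.e (nat_lit 286758) (nat_lit 12) (.e (nat_lit 385074) (nat_lit 31) (.e (nat_lit 573491) (nat_lit 15) (.e (nat_lit 81928) (nat_lit 20) .nil)))) .nil)) 
(.lf (nat_lit 286696) (.g (nat_lit 1793) (.e (nat_lit 286759) (nat_lit 12) (.e (nat_lit 385074) (nat_lit 31) (.e (nat_lit 573454) (nat_lit 9) (.e (nat_lit 7936) (nat_lit 108) .nil)))) .nil)))) (.nd (nat_lit 5) (.nd (nat_lit 6) 
(.lf (nat_lit 286616) (.g (nat_lit 2489) (.e (nat_lit 286756) (nat_lit 10) (.e (nat_lit 344177) (nat_lit 43) (.e (nat_lit 770074) (nat_lit 10) (.e (nat_lit 81920) (nat_lit 0) (.e (nat_lit 6988) (nat_lit 377) (.e (nat_lit 7936) (nat_lit 102) .nil)))))) (.g (nat_lit 5) .nil .nil))) 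
(.lf (nat_lit 286680) (.g (nat_lit 2755) (.e (nat_lit 286759) (nat_lit 12) (.e (nat_lit 385068) (nat_lit 26) (.e (nat_lit 532504) (nat_lit 1) (.e (nat_lit 57852) (nat_lit 252) (.e (nat_lit 57400) (nat_lit 10) .nil))))) .nil))) (.nd (nat_lit 6) 
(.lf (nat_lit 286648) (.g (nat_lit 599) (.e (nat_lit 286758) (nat_lit 12) (.e (nat_lit 385106) (nat_lit 50) (.e (nat_lit 786470) (nat_lit 27) .nil))) .nil)) 
(.lf (nat_lit 286712) (.g (nat_lit 4787) (.e (nat_lit 286759) (nat_lit 12) (.e (nat_lit 385074) (nat_lit 31) (.e (nat_lit 573482) (nat_lit 13) (.e (nat_lit 65603) (nat_lit 9) (.e (nat_lit 336013) (nat_lit 2) (.e (nat_lit 98048) (nat_lit 18) (.e (nat_lit 1348) (nat_lit 102) .nil))))))) (.g (nat_lit 5) .nil .nil))))))) (.nd (nat_lit 3) (.nd (nat_lit 4) (.nd (nat_lit 5) (.nd (nat_lit 6) 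
(.lf (nat_lit 286596) (.g (nat_lit 4712) (.e (nat_lit 286756) (nat_lit 10) (.e (nat_lit 344169) (nat_lit 40) (.e (nat_lit 671762) (nat_lit 4) (.e (nat_lit 65617) (nat_lit 10) (.e (nat_lit 344161) (nat_lit 37) (.e (nat_lit 647203) (nat_lit 14) (.e (nat_lit 1359) (nat_lit 102) .nil))))))) (.g (nat_lit 0) .nil .nil))) 
(.lf (nat_lit 286660) (.g (nat_lit 737) (.e (nat_lit 286758) (nat_lit 12) (.e (nat_lit 385107) (nat_lit 51) (.e (nat_lit 794648) (nat_lit 20) .nil))) .nil))) (.nd (nat_lit 6) 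
(.lf (nat_lit 286628) (.g (nat_lit 2045) (.e (nat_lit 286757) (nat_lit 11) (.e (nat_lit 368676) (nat_lit 21) (.e (nat_lit 516185) (nat_lit 16) (.e (nat_lit 491558) (nat_lit 10) .nil)))) .nil)) 
(.lf (nat_lit 286692) (.g (nat_lit 2541) (.e (nat_lit 286759) (nat_lit 12) (.e (nat_lit 385074) (nat_lit 31) (.e (nat_lit 573450) (nat_lit 9) (.e (nat_lit 1615) (nat_lit 113) .nil)))) .nil)))) (.nd (nat_lit 5) (.nd (nat_lit 6) 
(.lf (nat_lit 286612) (.g (nat_lit 2456) (.e (nat_lit 286756) (nat_lit 10) (.e (nat_lit 344177) (nat_lit 43) (.e (nat_lit 770071) (nat_lit 8) (.e (nat_lit 65628) (nat_lit 14) (.e (nat_lit 409344) (nat_lit 25) (.e (nat_lit 319534) (nat_lit 16) .nil)))))) (.g (nat_lit 4) .nil .nil))) 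
(.lf (nat_lit 286676) (.g (nat_lit 1737) (.e (nat_lit 286759) (nat_lit 12) (.e (nat_lit 385068) (nat_lit 26) (.e (nat_lit 532501) (nat_lit 1) (.e (nat_lit 57830) (nat_lit 250) .nil)))) .nil))) (.nd (nat_lit 6) 
(.lf (nat_lit 286644) (.g (nat_lit 809) (.e (nat_lit 286758) (nat_lit 12) (.e (nat_lit 385094) (nat_lit 49) (.e (nat_lit 778327) (nat_lit 6) (.e (nat_lit 89856) (nat_lit 8) .nil)))) .nil)) 
(.lf (nat_lit 286708) (.g (nat_lit 1407) (.e (nat_lit 286759) (nat_lit 12) (.e (nat_lit 385074) (nat_lit 31) (.e (nat_lit 573479) (nat_lit 13) (.e (nat_lit 65598) (nat_lit 9) .nil)))) .nil))))) (.nd (nat_lit 4) (.nd (nat_lit 5) (.nd (nat_lit 6) 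
(.lf (nat_lit 286604) (.g (nat_lit 602) (.e (nat_lit 286756) (nat_lit 10) (.e (nat_lit 344174) (nat_lit 42) (.e (nat_lit 761869) (nat_lit 5) (.e (nat_lit 1574) (nat_lit 110) .nil)))) .nil)) 
(.lf (nat_lit 286668) (.g (nat_lit 1836) (.e (nat_lit 286759) (nat_lit 12) (.e (nat_lit 392960) (nat_lit 24) (.e (nat_lit 516151) (nat_lit 9) (.e (nat_lit 426211) (nat_lit 9) (.e (nat_lit 426025) (nat_lit 0) (.e (nat_lit 3567) (nat_lit 222) (.e (nat_lit 737299) (nat_lit 7) .nil))))))) (.g (nat_lit 5) .nil .nil)))) (.nd (nat_lit 6) 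
(.lf (nat_lit 286636) (.g (nat_lit 2217) (.e (nat_lit 286758) (nat_lit 12) (.e (nat_lit 385074) (nat_lit 31) (.e (nat_lit 573493) (nat_lit 15) (.e (nat_lit 81938) (nat_lit 20) (.e (nat_lit 1774) (nat_lit 118) (.e (nat_lit 507923) (nat_lit 6) .nil)))))) (.g (nat_lit 4) .nil .nil))) 
(.lf (nat_lit 286700) (.g (nat_lit 1598) (.e (nat_lit 286759) (nat_lit 12) (.e (nat_lit 385074) (nat_lit 31) (.e (nat_lit 573456) (nat_lit 9) (.e (nat_lit 1589) (nat_lit 111) .nil)))) .nil)))) (.nd (nat_lit 5) (.nd (nat_lit 6) 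
(.lf (nat_lit 286620) (.g (nat_lit 2774) (.e (nat_lit 286756) (nat_lit 10) (.e (nat_lit 344179) (nat_lit 44) (.e (nat_lit 778466) (nat_lit 11) (.e (nat_lit 24661) (nat_lit 14) (.e (nat_lit 409344) (nat_lit 25) .nil))))) .nil)) 
(.lf (nat_lit 286684) (.g (nat_lit 3474) (.e (nat_lit 286759) (nat_lit 12) (.e (nat_lit 385068) (nat_lit 26) (.e (nat_lit 532513) (nat_lit 3) (.e (nat_lit 114710) (nat_lit 21) (.e (nat_lit 57692) (nat_lit 156) (.e (nat_lit 163871) (nat_lit 2) (.e (nat_lit 196691) (nat_lit 18) (.e (nat_lit 1348) (nat_lit 102) .nil)))))))) (.g (nat_lit 5) .nil .nil)))) (.nd (nat_lit 6) 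
(.lf (nat_lit 286652) (.g (nat_lit 2089) (.e (nat_lit 286758) (nat_lit 12) (.e (nat_lit 385106) (nat_lit 50) (.e (nat_lit 786481) (nat_lit 30) (.e (nat_lit 360482) (nat_lit 15) (.e (nat_lit 647203) (nat_lit 14) (.e (nat_lit 1359) (nat_lit 102) .nil)))))) (.g (nat_lit 4) .nil .nil))) 
(.lf (nat_lit 286716) (.g (nat_lit 2739) (.e (nat_lit 286759) (nat_lit 12) (.e (nat_lit 385074) (nat_lit 31) (.e (nat_lit 573484) (nat_lit 13) (.e (nat_lit 65581) (nat_lit 7) .nil)))) .nil))))))) (.nd (nat_lit 2) (.nd (nat_lit 3) (.nd (nat_lit 4) (.nd (nat_lit 5) (.nd (nat_lit 6) 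
(.lf (nat_lit 286594) (.g (nat_lit 2748) (.e (nat_lit 286756) (nat_lit 10) (.e (nat_lit 344169) (nat_lit 40) (.e (nat_lit 671760) (nat_lit 4) (.e (nat_lit 65619) (nat_lit 10) (.e (nat_lit 344160) (nat_lit 37) (.e (nat_lit 647203) (nat_lit 14) (.e (nat_lit 1359) (nat_lit 102) .nil))))))) (.g (nat_lit 5) .nil .nil))) 
(.lf (nat_lit 286658) (.g (nat_lit 2798) (.e (nat_lit 286758) (nat_lit 12) (.e (nat_lit 385106) (nat_lit 50) (.e (nat_lit 786483) (nat_lit 30) (.e (nat_lit 360484) (nat_lit 15) (.e (nat_lit 647203) (nat_lit 14) (.e (nat_lit 1359) (nat_lit 102) .nil)))))) (.g (nat_lit 6) .nil .nil)))) (.nd (nat_lit 6) 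
(.lf (nat_lit 286626) (.g (nat_lit 1368) (.e (nat_lit 286757) (nat_lit 11) (.e (nat_lit 368676) (nat_lit 21) (.e (nat_lit 516171) (nat_lit 13) .nil))) .nil)) 
(.lf (nat_lit 286690) (.g (nat_lit 3537) (.e (nat_lit 286759) (nat_lit 12) (.e (nat_lit 385072) (nat_lit 31) (.e (nat_lit 573492) (nat_lit 15) (.e (nat_lit 81953) (nat_lit 22) (.e (nat_lit 90187) (nat_lit 18) .nil))))) .nil)))) (.nd (nat_lit 5) (.nd (nat_lit 6) 
(.lf (nat_lit 286610) (.g (nat_lit 859) (.e (nat_lit 286756) (nat_lit 10) (.e (nat_lit 344177) (nat_lit 43) (.e (nat_lit 770058) (nat_lit 5) (.e (nat_lit 1395) (nat_lit 106) .nil)))) .nil)) 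
(.lf (nat_lit 286674) (.g (nat_lit 1867) (.e (nat_lit 286759) (nat_lit 12) (.e (nat_lit 385068) (nat_lit 26) (.e (nat_lit 532501) (nat_lit 1) (.e (nat_lit 57782) (nat_lit 239) .nil)))) .nil))) (.nd (nat_lit 6) 
(.lf (nat_lit 286642) (.g (nat_lit 877) (.e (nat_lit 286758) (nat_lit 12) (.e (nat_lit 385094) (nat_lit 49) (.e (nat_lit 778326) (nat_lit 6) (.e (nat_lit 81924) (nat_lit 0) .nil)))) .nil)) 
(.lf (nat_lit 286706) (.g (nat_lit 1236) (.e (nat_lit 286759) (nat_lit 12) (.e (nat_lit 385074) (nat_lit 31) (.e (nat_lit 573463) (nat_lit 9) .nil))) .nil))))) (.nd (nat_lit 4) (.nd (nat_lit 5) (.nd (nat_lit 6) 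
(.lf (nat_lit 286602) (.g (nat_lit 2038) (.e (nat_lit 286756) (nat_lit 10) (.e (nat_lit 344174) (nat_lit 42) (.e (nat_lit 761868) (nat_lit 5) (.e (nat_lit 1574) (nat_lit 110) (.e (nat_lit 352272) (nat_lit 10) (.e (nat_lit 417811) (nat_lit 6) .nil)))))) (.g (nat_lit 6) .nil .nil))) 
(.lf (nat_lit 286666) (.g (nat_lit 2789) (.e (nat_lit 286758) (nat_lit 12) (.e (nat_lit 385114) (nat_lit 53) (.e (nat_lit 811045) (nat_lit 14) (.e (nat_lit 40997) (nat_lit 11) (.e (nat_lit 24617) (nat_lit 7) (.e (nat_lit 319533) (nat_lit 16) .nil)))))) (.g (nat_lit 0) .nil .nil)))) (.nd (nat_lit 6) 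
(.lf (nat_lit 286634) (.g (nat_lit 462) (.e (nat_lit 286758) (nat_lit 12) (.e (nat_lit 385074) (nat_lit 31) (.e (nat_lit 573493) (nat_lit 15) .nil))) .nil)) 
(.lf (nat_lit 286698) (.g (nat_lit 3797) (.e (nat_lit 286759) (nat_lit 12) (.e (nat_lit 385074) (nat_lit 31) (.e (nat_lit 573456) (nat_lit 9) (.e (nat_lit 1563) (nat_lit 110) (.e (nat_lit 352312) (nat_lit 22) (.e (nat_lit 98048) (nat_lit 18) (.e (nat_lit 1349) (nat_lit 102) .nil))))))) (.g (nat_lit 5) .nil .nil))))) (.nd (nat_lit 5) (.nd (nat_lit 6) 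
(.lf (nat_lit 286618) (.g (nat_lit 1180) (.e (nat_lit 286756) (nat_lit 10) (.e (nat_lit 344177) (nat_lit 43) (.e (nat_lit 770074) (nat_lit 10) (.e (nat_lit 89856) (nat_lit 9) .nil)))) .nil)) 
(.lf (nat_lit 286682) (.g (nat_lit 469) (.e (nat_lit 286759) (nat_lit 12) (.e (nat_lit 385068) (nat_lit 26) (.e (nat_lit 532513) (nat_lit 3) .nil))) .nil))) (.nd (nat_lit 6) 
(.lf (nat_lit 286650) (.g (nat_lit 1385) (.e (nat_lit 286758) (nat_lit 12) (.e (nat_lit 385106) (nat_lit 50) (.e (nat_lit 786481) (nat_lit 30) (.e (nat_lit 360449) (nat_lit 0) .nil)))) .nil)) 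
(.lf (nat_lit 286714) (.g (nat_lit 4578) (.e (nat_lit 286759) (nat_lit 12) (.e (nat_lit 385074) (nat_lit 31) (.e (nat_lit 573483) (nat_lit 13) (.e (nat_lit 65598) (nat_lit 9) (.e (nat_lit 336013) (nat_lit 2) (.e (nat_lit 98048) (nat_lit 18) (.e (nat_lit 1349) (nat_lit 102) .nil))))))) (.g (nat_lit 5) .nil .nil))))))) (.nd (nat_lit 3) (.nd (nat_lit 4) (.nd (nat_lit 5) (.nd (nat_lit 6) 
(.lf (nat_lit 286598) (.g (nat_lit 2261) (.e (nat_lit 286756) (nat_lit 10) (.e (nat_lit 344174) (nat_lit 42) (.e (nat_lit 761866) (nat_lit 5) (.e (nat_lit 1574) (nat_lit 110) (.e (nat_lit 352272) (nat_lit 10) (.e (nat_lit 417811) (nat_lit 6) .nil)))))) (.g (nat_lit 6) .nil .nil))) 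
(.lf (nat_lit 286662) (.g (nat_lit 1024) (.e (nat_lit 286758) (nat_lit 12) (.e (nat_lit 385109) (nat_lit 51) (.e (nat_lit 794683) (nat_lit 25) .nil))) .nil))) (.nd (nat_lit 6) 
(.lf (nat_lit 286630) (.g (nat_lit 1463) (.e (nat_lit 286758) (nat_lit 12) (.e (nat_lit 385068) (nat_lit 26) (.e (nat_lit 532515) (nat_lit 3) (.e (nat_lit 114712) (nat_lit 21) .nil)))) .nil)) 
(.lf (nat_lit 286694) (.g (nat_lit 4051) (.e (nat_lit 286759) (nat_lit 12) (.e (nat_lit 385074) (nat_lit 31) (.e (nat_lit 573452) (nat_lit 9) (.e (nat_lit 1571) (nat_lit 110) (.e (nat_lit 352312) (nat_lit 22) (.e (nat_lit 98048) (nat_lit 18) (.e (nat_lit 1348) (nat_lit 102) .nil))))))) (.g (nat_lit 5) .nil .nil))))) (.nd (nat_lit 5) (.nd (nat_lit 6) 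
(.lf (nat_lit 286614) (.g (nat_lit 405) (.e (nat_lit 286756) (nat_lit 10) (.e (nat_lit 344177) (nat_lit 43) (.e (nat_lit 770072) (nat_lit 8) .nil))) .nil)) 
(.lf (nat_lit 286678) (.g (nat_lit 1672) (.e (nat_lit 286759) (nat_lit 12) (.e (nat_lit 385068) (nat_lit 26) (.e (nat_lit 532503) (nat_lit 1) (.e (nat_lit 57872) (nat_lit 264) .nil)))) .nil))) (.nd (nat_lit 6) 
(.lf (nat_lit 286646) (.g (nat_lit 893) (.e (nat_lit 286758) (nat_lit 12) (.e (nat_lit 385105) (nat_lit 50) (.e (nat_lit 786473) (nat_lit 27) .nil))) .nil)) 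
(.lf (nat_lit 286710) (.g (nat_lit 1072) (.e (nat_lit 286759) (nat_lit 12) (.e (nat_lit 385074) (nat_lit 31) (.e (nat_lit 573481) (nat_lit 13) .nil))) .nil))))) (.nd (nat_lit 4) (.nd (nat_lit 5) (.nd (nat_lit 6) 
(.lf (nat_lit 286606) (.g (nat_lit 453) (.e (nat_lit 286756) (nat_lit 10) (.e (nat_lit 344177) (nat_lit 43) (.e (nat_lit 770055) (nat_lit 5) .nil))) .nil)) 
(.lf (nat_lit 286670) (.g (nat_lit 1895) (.e (nat_lit 286759) (nat_lit 12) (.e (nat_lit 392960) (nat_lit 24) (.e (nat_lit 516151) (nat_lit 9) (.e (nat_lit 426211) (nat_lit 9) (.e (nat_lit 426025) (nat_lit 0) (.e (nat_lit 3571) (nat_lit 222) (.e (nat_lit 737299) (nat_lit 7) .nil))))))) (.g (nat_lit 5) .nil .nil)))) (.nd (nat_lit 6) 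
(.lf (nat_lit 286638) (.g (nat_lit 2115) (.e (nat_lit 286758) (nat_lit 12) (.e (nat_lit 385094) (nat_lit 49) (.e (nat_lit 778318) (nat_lit 3) (.e (nat_lit 57354) (nat_lit 0) .nil)))) .nil)) 
(.lf (nat_lit 286702) (.g (nat_lit 1627) (.e (nat_lit 286759) (nat_lit 12) (.e (nat_lit 385074) (nat_lit 31) (.e (nat_lit 573456) (nat_lit 9) (.e (nat_lit 1595) (nat_lit 111) .nil)))) .nil)))) (.nd (nat_lit 5) (.nd (nat_lit 6) 
(.lf (nat_lit 286622) (.g (nat_lit 2164) (.e (nat_lit 286756) (nat_lit 10) (.e (nat_lit 344180) (nat_lit 44) (.e (nat_lit 778466) (nat_lit 11) (.e (nat_lit 24661) (nat_lit 14) (.e (nat_lit 409344) (nat_lit 25) .nil))))) .nil)) 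
(.lf (nat_lit 286686) (.g (nat_lit 3031) (.e (nat_lit 286759) (nat_lit 12) (.e (nat_lit 385068) (nat_lit 26) (.e (nat_lit 532515) (nat_lit 3) (.e (nat_lit 114711) (nat_lit 21) (.e (nat_lit 57688) (nat_lit 156) (.e (nat_lit 163871) (nat_lit 2) (.e (nat_lit 196691) (nat_lit 18) (.e (nat_lit 1348) (nat_lit 102) .nil)))))))) (.g (nat_lit 5) .nil .nil)))) (.nd (nat_lit 6) 
(.lf (nat_lit 286654) (.g (nat_lit 2143) (.e (nat_lit 286758) (nat_lit 12) (.e (nat_lit 385106) (nat_lit 50) (.e (nat_lit 786483) (nat_lit 30) (.e (nat_lit 360451) (nat_lit 0) (.e (nat_lit 5557) (nat_lit 307) (.e (nat_lit 8305) (nat_lit 58) .nil)))))) (.g (nat_lit 4) .nil .nil))) 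
(.lf (nat_lit 286718) (.g (nat_lit 2044) (.e (nat_lit 286759) (nat_lit 12) (.e (nat_lit 385074) (nat_lit 31) (.e (nat_lit 573484) (nat_lit 13) (.e (nat_lit 65586) (nat_lit 7) .nil)))) .nil)))))))) (.nd (nat_lit 1) (.nd (nat_lit 2) (.nd (nat_lit 3) (.nd (nat_lit 4) (.nd (nat_lit 5) (.nd (nat_lit 6) 
(.lf (nat_lit 286593) (.g (nat_lit 518) (.e (nat_lit 286756) (nat_lit 10) (.e (nat_lit 344169) (nat_lit 40) (.e (nat_lit 671760) (nat_lit 4) .nil))) .nil)) 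
(.lf (nat_lit 286657) (.g (nat_lit 2748) (.e (nat_lit 286758) (nat_lit 12) (.e (nat_lit 385106) (nat_lit 50) (.e (nat_lit 786483) (nat_lit 30) (.e (nat_lit 360484) (nat_lit 15) (.e (nat_lit 647203) (nat_lit 14) (.e (nat_lit 1358) (nat_lit 102) .nil)))))) (.g (nat_lit 0) .nil .nil)))) (.nd (nat_lit 6) 
(.lf (nat_lit 286625) (.g (nat_lit 1366) (.e (nat_lit 286757) (nat_lit 11) (.e (nat_lit 368676) (nat_lit 21) (.e (nat_lit 516169) (nat_lit 13) .nil))) .nil)) 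
(.lf (nat_lit 286689) (.g (nat_lit 3540) (.e (nat_lit 286759) (nat_lit 12) (.e (nat_lit 385068) (nat_lit 26) (.e (nat_lit 532515) (nat_lit 3) (.e (nat_lit 114712) (nat_lit 21) (.e (nat_lit 57692) (nat_lit 156) (.e (nat_lit 163871) (nat_lit 2) (.e (nat_lit 196691) (nat_lit 18) (.e (nat_lit 1348) (nat_lit 102) .nil)))))))) (.g (nat_lit 6) .nil .nil))))) (.nd (nat_lit 5) (.nd (nat_lit 6) 
(.lf (nat_lit 286609) (.g (nat_lit 863) (.e (nat_lit 286756) (nat_lit 10) (.e (nat_lit 344177) (nat_lit 43) (.e (nat_lit 770057) (nat_lit 5) (.e (nat_lit 1576) (nat_lit 110) .nil)))) .nil)) 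
(.lf (nat_lit 286673) (.g (nat_lit 2335) (.e (nat_lit 286759) (nat_lit 12) (.e (nat_lit 385068) (nat_lit 26) (.e (nat_lit 532499) (nat_lit 1) (.e (nat_lit 57783) (nat_lit 239) (.e (nat_lit 2640) (nat_lit 165) .nil))))) .nil))) (.nd (nat_lit 6) 
(.lf (nat_lit 286641) (.g (nat_lit 2105) (.e (nat_lit 286758) (nat_lit 12) (.e (nat_lit 385094) (nat_lit 49) (.e (nat_lit 778318) (nat_lit 3) (.e (nat_lit 57524) (nat_lit 45) .nil)))) .nil)) 
(.lf (nat_lit 286705) (.g (nat_lit 1860) (.e (nat_lit 286759) (nat_lit 12) (.e (nat_lit 385074) (nat_lit 31) (.e (nat_lit 573460) (nat_lit 9) (.e (nat_lit 1553) (nat_lit 110) .nil)))) .nil))))) (.nd (nat_lit 4) (.nd (nat_lit 5) (.nd (nat_lit 6) 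
(.lf (nat_lit 286601) (.g (nat_lit 2012) (.e (nat_lit 286756) (nat_lit 10) (.e (nat_lit 344174) (nat_lit 42) (.e (nat_lit 761868) (nat_lit 5) (.e (nat_lit 1555) (nat_lit 110) (.e (nat_lit 352272) (nat_lit 10) (.e (nat_lit 417811) (nat_lit 6) .nil)))))) (.g (nat_lit 6) .nil .nil))) 
(.lf (nat_lit 286665) (.g (nat_lit 2497) (.e (nat_lit 286758) (nat_lit 12) (.e (nat_lit 385114) (nat_lit 53) (.e (nat_lit 811045) (nat_lit 14) (.e (nat_lit 40995) (nat_lit 11) (.e (nat_lit 24617) (nat_lit 7) (.e (nat_lit 319533) (nat_lit 16) .nil)))))) (.g (nat_lit 0) .nil .nil)))) (.nd (nat_lit 6) 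
(.lf (nat_lit 286633) (.g (nat_lit 2629) (.e (nat_lit 286758) (nat_lit 12) (.e (nat_lit 385074) (nat_lit 31) (.e (nat_lit 573491) (nat_lit 15) (.e (nat_lit 81947) (nat_lit 20) (.e (nat_lit 1774) (nat_lit 118) (.e (nat_lit 507923) (nat_lit 6) .nil)))))) (.g (nat_lit 4) .nil .nil))) 
(.lf (nat_lit 286697) (.g (nat_lit 1270) (.e (nat_lit 286759) (nat_lit 12) (.e (nat_lit 385074) (nat_lit 31) (.e (nat_lit 573455) (nat_lit 9) .nil))) .nil)))) (.nd (nat_lit 5) (.nd (nat_lit 6) 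
(.lf (nat_lit 286617) (.g (nat_lit 1179) (.e (nat_lit 286756) (nat_lit 10) (.e (nat_lit 344177) (nat_lit 43) (.e (nat_lit 770074) (nat_lit 10) (.e (nat_lit 81921) (nat_lit 0) .nil)))) .nil)) 
(.lf (nat_lit 286681) (.g (nat_lit 3642) (.e (nat_lit 286759) (nat_lit 12) (.e (nat_lit 385068) (nat_lit 26) (.e (nat_lit 532504) (nat_lit 1) (.e (nat_lit 57852) (nat_lit 252) (.e (nat_lit 57400) (nat_lit 10) (.e (nat_lit 319504) (nat_lit 10) (.e (nat_lit 828) (nat_lit 70) (.e (nat_lit 737299) (nat_lit 7) .nil)))))))) (.g (nat_lit 4) .nil .nil)))) (.nd (nat_lit 6) 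
(.lf (nat_lit 286649) (.g (nat_lit 1484) (.e (nat_lit 286758) (nat_lit 12) (.e (nat_lit 385106) (nat_lit 50) (.e (nat_lit 786473) (nat_lit 27) (.e (nat_lit 343808) (nat_lit 10) .nil)))) .nil)) 
(.lf (nat_lit 286713) (.g (nat_lit 1838) (.e (nat_lit 286759) (nat_lit 12) (.e (nat_lit 385074) (nat_lit 31) (.e (nat_lit 573483) (nat_lit 13) (.e (nat_lit 65598) (nat_lit 9) (.e (nat_lit 336013) (nat_lit 2) .nil))))) .nil)))))) (.nd (nat_lit 3) (.nd (nat_lit 4) (.nd (nat_lit 5) (.nd (nat_lit 6) 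
(.lf (nat_lit 286597) (.g (nat_lit 765) (.e (nat_lit 286756) (nat_lit 10) (.e (nat_lit 344174) (nat_lit 42) (.e (nat_lit 761866) (nat_lit 5) (.e (nat_lit 1574) (nat_lit 110) .nil)))) .nil)) 
(.lf (nat_lit 286661) (.g (nat_lit 984) (.e (nat_lit 286758) (nat_lit 12) (.e (nat_lit 385109) (nat_lit 51) (.e (nat_lit 794682) (nat_lit 25) .nil))) .nil))) (.nd (nat_lit 6) 
(.lf (nat_lit 286629) (.g (nat_lit 2217) (.e (nat_lit 286757) (nat_lit 11) (.e (nat_lit 368676) (nat_lit 21) (.e (nat_lit 516185) (nat_lit 16) (.e (nat_lit 491560) (nat_lit 10) (.e (nat_lit 344115) (nat_lit 20) .nil))))) .nil)) 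
(.lf (nat_lit 286693) (.g (nat_lit 1270) (.e (nat_lit 286759) (nat_lit 12) (.e (nat_lit 385074) (nat_lit 31) (.e (nat_lit 573451) (nat_lit 9) .nil))) .nil)))) (.nd (nat_lit 5) (.nd (nat_lit 6) 
(.lf (nat_lit 286613) (.g (nat_lit 1193) (.e (nat_lit 286756) (nat_lit 10) (.e (nat_lit 344177) (nat_lit 43) (.e (nat_lit 770071) (nat_lit 8) (.e (nat_lit 65629) (nat_lit 14) .nil)))) .nil)) 
(.lf (nat_lit 286677) (.g (nat_lit 1754) (.e (nat_lit 286759) (nat_lit 12) (.e (nat_lit 385068) (nat_lit 26) (.e (nat_lit 532501) (nat_lit 1) (.e (nat_lit 57852) (nat_lit 252) .nil)))) .nil))) (.nd (nat_lit 6) 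
(.lf (nat_lit 286645) (.g (nat_lit 754) (.e (nat_lit 286758) (nat_lit 12) (.e (nat_lit 385105) (nat_lit 50) (.e (nat_lit 786452) (nat_lit 16) .nil))) .nil)) 
(.lf (nat_lit 286709) (.g (nat_lit 1180) (.e (nat_lit 286759) (nat_lit 12) (.e (nat_lit 385074) (nat_lit 31) (.e (nat_lit 573480) (nat_lit 13) .nil))) .nil))))) (.nd (nat_lit 4) (.nd (nat_lit 5) (.nd (nat_lit 6) 
(.lf (nat_lit 286605) (.g (nat_lit 386) (.e (nat_lit 286756) (nat_lit 10) (.e (nat_lit 344174) (nat_lit 42) (.e (nat_lit 769792) (nat_lit 10) .nil))) .nil)) 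
(.lf (nat_lit 286669) (.g (nat_lit 1924) (.e (nat_lit 286759) (nat_lit 12) (.e (nat_lit 392960) (nat_lit 24) (.e (nat_lit 516151) (nat_lit 9) (.e (nat_lit 426211) (nat_lit 9) (.e (nat_lit 426025) (nat_lit 0) (.e (nat_lit 3569) (nat_lit 222) (.e (nat_lit 737300) (nat_lit 7) .nil))))))) (.g (nat_lit 5) .nil .nil)))) (.nd (nat_lit 6) 
(.lf (nat_lit 286637) (.g (nat_lit 2275) (.e (nat_lit 286758) (nat_lit 12) (.e (nat_lit 385094) (nat_lit 49) (.e (nat_lit 778317) (nat_lit 3) (.e (nat_lit 57521) (nat_lit 44) .nil)))) .nil)) 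
(.lf (nat_lit 286701) (.g (nat_lit 1665) (.e (nat_lit 286759) (nat_lit 12) (.e (nat_lit 385074) (nat_lit 31) (.e (nat_lit 573456) (nat_lit 9) (.e (nat_lit 1590) (nat_lit 111) .nil)))) .nil)))) (.nd (nat_lit 5) (.nd (nat_lit 6) 
(.lf (nat_lit 286621) (.g (nat_lit 1773) (.e (nat_lit 286756) (nat_lit 10) (.e (nat_lit 344179) (nat_lit 44) (.e (nat_lit 778466) (nat_lit 11) (.e (nat_lit 24663) (nat_lit 14) .nil)))) .nil)) 
(.lf (nat_lit 286685) (.g (nat_lit 513) (.e (nat_lit 286759) (nat_lit 12) (.e (nat_lit 385068) (nat_lit 26) (.e (nat_lit 532515) (nat_lit 3) .nil))) .nil))) (.nd (nat_lit 6) 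
(.lf (nat_lit 286653) (.g (nat_lit 2200) (.e (nat_lit 286758) (nat_lit 12) (.e (nat_lit 385106) (nat_lit 50) (.e (nat_lit 786483) (nat_lit 30) (.e (nat_lit 360450) (nat_lit 0) (.e (nat_lit 5557) (nat_lit 307) .nil))))) .nil)) 
(.lf (nat_lit 286717) (.g (nat_lit 2247) (.e (nat_lit 286759) (nat_lit 12) (.e (nat_lit 385074) (nat_lit 31) (.e (nat_lit 573484) (nat_lit 13) (.e (nat_lit 65583) (nat_lit 7) .nil)))) .nil))))))) (.nd (nat_lit 2) (.nd (nat_lit 3) (.nd (nat_lit 4) (.nd (nat_lit 5) (.nd (nat_lit 6) 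
(.lf (nat_lit 286595) (.g (nat_lit 3048) (.e (nat_lit 286756) (nat_lit 10) (.e (nat_lit 344169) (nat_lit 40) (.e (nat_lit 671761) (nat_lit 4) (.e (nat_lit 65610) (nat_lit 10) (.e (nat_lit 344160) (nat_lit 37) (.e (nat_lit 647203) (nat_lit 14) (.e (nat_lit 1359) (nat_lit 102) .nil))))))) (.g (nat_lit 6) .nil .nil))) 
(.lf (nat_lit 286659) (.g (nat_lit 747) (.e (nat_lit 286758) (nat_lit 12) (.e (nat_lit 385107) (nat_lit 51) (.e (nat_lit 794642) (nat_lit 20) .nil))) .nil))) (.nd (nat_lit 6) 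
(.lf (nat_lit 286627) (.g (nat_lit 1093) (.e (nat_lit 286757) (nat_lit 11) (.e (nat_lit 368676) (nat_lit 21) (.e (nat_lit 516185) (nat_lit 16) .nil))) .nil)) 
(.lf (nat_lit 286691) (.g (nat_lit 1226) (.e (nat_lit 286759) (nat_lit 12) (.e (nat_lit 385074) (nat_lit 31) (.e (nat_lit 573448) (nat_lit 9) .nil))) .nil)))) (.nd (nat_lit 5) (.nd (nat_lit 6) 
(.lf (nat_lit 286611) (.g (nat_lit 1891) (.e (nat_lit 286756) (nat_lit 10) (.e (nat_lit 344177) (nat_lit 43) (.e (nat_lit 770058) (nat_lit 5) (.e (nat_lit 1572) (nat_lit 110) (.e (nat_lit 352272) (nat_lit 10) (.e (nat_lit 417811) (nat_lit 6) .nil)))))) (.g (nat_lit 4) .nil .nil))) 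
(.lf (nat_lit 286675) (.g (nat_lit 1782) (.e (nat_lit 286759) (nat_lit 12) (.e (nat_lit 385068) (nat_lit 26) (.e (nat_lit 532501) (nat_lit 1) (.e (nat_lit 57783) (nat_lit 239) .nil)))) .nil))) (.nd (nat_lit 6) 
(.lf (nat_lit 286643) (.g (nat_lit 844) (.e (nat_lit 286758) (nat_lit 12) (.e (nat_lit 385094) (nat_lit 49) (.e (nat_lit 778326) (nat_lit 6) (.e (nat_lit 89856) (nat_lit 8) .nil)))) .nil)) 
(.lf (nat_lit 286707) (.g (nat_lit 1843) (.e (nat_lit 286759) (nat_lit 12) (.e (nat_lit 385074) (nat_lit 31) (.e (nat_lit 573464) (nat_lit 9) (.e (nat_lit 1554) (nat_lit 110) .nil)))) .nil))))) (.nd (nat_lit 4) (.nd (nat_lit 5) (.nd (nat_lit 6) 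
(.lf (nat_lit 286603) (.g (nat_lit 596) (.e (nat_lit 286756) (nat_lit 10) (.e (nat_lit 344174) (nat_lit 42) (.e (nat_lit 761869) (nat_lit 5) (.e (nat_lit 1568) (nat_lit 110) .nil)))) .nil)) 
(.lf (nat_lit 286667) (.g (nat_lit 1396) (.e (nat_lit 286759) (nat_lit 12) (.e (nat_lit 392960) (nat_lit 24) (.e (nat_lit 516151) (nat_lit 9) (.e (nat_lit 426170) (nat_lit 7) (.e (nat_lit 409634) (nat_lit 13) (.e (nat_lit 41008) (nat_lit 14) (.e (nat_lit 7936) (nat_lit 178) .nil))))))) (.g (nat_lit 5) .nil .nil)))) (.nd (nat_lit 6) 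
(.lf (nat_lit 286635) (.g (nat_lit 1674) (.e (nat_lit 286758) (nat_lit 12) (.e (nat_lit 385074) (nat_lit 31) (.e (nat_lit 573493) (nat_lit 15) (.e (nat_lit 81928) (nat_lit 20) .nil)))) .nil)) 
(.lf (nat_lit 286699) (.g (nat_lit 3225) (.e (nat_lit 286759) (nat_lit 12) (.e (nat_lit 385074) (nat_lit 31) (.e (nat_lit 573456) (nat_lit 9) (.e (nat_lit 1566) (nat_lit 110) (.e (nat_lit 352312) (nat_lit 22) (.e (nat_lit 98048) (nat_lit 18) (.e (nat_lit 1349) (nat_lit 102) .nil))))))) (.g (nat_lit 5) .nil .nil))))) (.nd (nat_lit 5) (.nd (nat_lit 6) 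
(.lf (nat_lit 286619) (.g (nat_lit 2545) (.e (nat_lit 286756) (nat_lit 10) (.e (nat_lit 344179) (nat_lit 44) (.e (nat_lit 778465) (nat_lit 11) (.e (nat_lit 24664) (nat_lit 14) (.e (nat_lit 409344) (nat_lit 25) .nil))))) .nil)) 
(.lf (nat_lit 286683) (.g (nat_lit 4268) (.e (nat_lit 286759) (nat_lit 12) (.e (nat_lit 385068) (nat_lit 26) (.e (nat_lit 532513) (nat_lit 3) (.e (nat_lit 114710) (nat_lit 21) (.e (nat_lit 57692) (nat_lit 156) (.e (nat_lit 163869) (nat_lit 2) (.e (nat_lit 196691) (nat_lit 18) (.e (nat_lit 1348) (nat_lit 102) .nil)))))))) (.g (nat_lit 6) .nil .nil)))) (.nd (nat_lit 6) 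
(.lf (nat_lit 286651) (.g (nat_lit 1759) (.e (nat_lit 286758) (nat_lit 12) (.e (nat_lit 385106) (nat_lit 50) (.e (nat_lit 786481) (nat_lit 30) (.e (nat_lit 360482) (nat_lit 15) (.e (nat_lit 647203) (nat_lit 14) .nil))))) .nil)) 
(.lf (nat_lit 286715) (.g (nat_lit 480) (.e (nat_lit 286759) (nat_lit 12) (.e (nat_lit 385074) (nat_lit 31) (.e (nat_lit 573484) (nat_lit 13) .nil))) .nil)))))) (.nd (nat_lit 3) (.nd (nat_lit 4) (.nd (nat_lit 5) (.nd (nat_lit 6) 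
(.lf (nat_lit 286599) (.g (nat_lit 422) (.e (nat_lit 286756) (nat_lit 10) (.e (nat_lit 344174) (nat_lit 42) (.e (nat_lit 761867) (nat_lit 5) .nil))) .nil)) 
(.lf (nat_lit 286663) (.g (nat_lit 641) (.e (nat_lit 286758) (nat_lit 12) (.e (nat_lit 385109) (nat_lit 51) (.e (nat_lit 794684) (nat_lit 25) .nil))) .nil))) (.nd (nat_lit 6) 
(.lf (nat_lit 286631) (.g (nat_lit 1091) (.e (nat_lit 286758) (nat_lit 12) (.e (nat_lit 385072) (nat_lit 31) (.e (nat_lit 573493) (nat_lit 15) (.e (nat_lit 81953) (nat_lit 22) .nil)))) .nil)) 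
(.lf (nat_lit 286695) (.g (nat_lit 608) (.e (nat_lit 286759) (nat_lit 12) (.e (nat_lit 385074) (nat_lit 31) (.e (nat_lit 573454) (nat_lit 9) .nil))) .nil)))) (.nd (nat_lit 5) (.nd (nat_lit 6) 
(.lf (nat_lit 286615) (.g (nat_lit 1607) (.e (nat_lit 286756) (nat_lit 10) (.e (nat_lit 344177) (nat_lit 43) (.e (nat_lit 770072) (nat_lit 8) (.e (nat_lit 65592) (nat_lit 9) .nil)))) .nil)) 
(.lf (nat_lit 286679) (.g (nat_lit 1611) (.e (nat_lit 286759) (nat_lit 12) (.e (nat_lit 385068) (nat_lit 26) (.e (nat_lit 532504) (nat_lit 1) (.e (nat_lit 57830) (nat_lit 250) .nil)))) .nil))) (.nd (nat_lit 6) 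
(.lf (nat_lit 286647) (.g (nat_lit 1828) (.e (nat_lit 286758) (nat_lit 12) (.e (nat_lit 385105) (nat_lit 50) (.e (nat_lit 786483) (nat_lit 30) (.e (nat_lit 360484) (nat_lit 15) (.e (nat_lit 647203) (nat_lit 14) (.e (nat_lit 1358) (nat_lit 102) .nil)))))) (.g (nat_lit 4) .nil .nil))) 
(.lf (nat_lit 286711) (.g (nat_lit 4766) (.e (nat_lit 286759) (nat_lit 12) (.e (nat_lit 385074) (nat_lit 31) (.e (nat_lit 573482) (nat_lit 13) (.e (nat_lit 65598) (nat_lit 9) (.e (nat_lit 336013) (nat_lit 2) (.e (nat_lit 90187) (nat_lit 18) (.e (nat_lit 1361) (nat_lit 102) .nil))))))) (.g (nat_lit 4) .nil .nil)))))) (.nd (nat_lit 4) (.nd (nat_lit 5) (.nd (nat_lit 6) 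
(.lf (nat_lit 286607) (.g (nat_lit 470) (.e (nat_lit 286756) (nat_lit 10) (.e (nat_lit 344177) (nat_lit 43) (.e (nat_lit 770056) (nat_lit 5) .nil))) .nil)) 
(.lf (nat_lit 286671) (.g (nat_lit 1876) (.e (nat_lit 286759) (nat_lit 12) (.e (nat_lit 385068) (nat_lit 26) (.e (nat_lit 532499) (nat_lit 1) (.e (nat_lit 57783) (nat_lit 239) .nil)))) .nil))) (.nd (nat_lit 6) 
(.lf (nat_lit 286639) (.g (nat_lit 1712) (.e (nat_lit 286758) (nat_lit 12) (.e (nat_lit 385094) (nat_lit 49) (.e (nat_lit 778318) (nat_lit 3) (.e (nat_lit 57521) (nat_lit 44) .nil)))) .nil)) 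
(.lf (nat_lit 286703) (.g (nat_lit 446) (.e (nat_lit 286759) (nat_lit 12) (.e (nat_lit 385074) (nat_lit 31) (.e (nat_lit 573457) (nat_lit 9) .nil))) .nil)))) (.nd (nat_lit 5) (.nd (nat_lit 6) 
(.lf (nat_lit 286623) (.g (nat_lit 2826) (.e (nat_lit 286756) (nat_lit 10) (.e (nat_lit 344183) (nat_lit 49) (.e (nat_lit 819219) (nat_lit 4) (.e (nat_lit 172106) (nat_lit 10) (.e (nat_lit 434244) (nat_lit 28) (.e (nat_lit 573502) (nat_lit 18) (.e (nat_lit 1359) (nat_lit 102) .nil))))))) (.g (nat_lit 5) .nil .nil))) 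
(.lf (nat_lit 286687) (.g (nat_lit 1912) (.e (nat_lit 286759) (nat_lit 12) (.e (nat_lit 385068) (nat_lit 26) (.e (nat_lit 532515) (nat_lit 3) (.e (nat_lit 114711) (nat_lit 21) (.e (nat_lit 57692) (nat_lit 156) .nil))))) .nil))) (.nd (nat_lit 6) 
(.lf (nat_lit 286655) (.g (nat_lit 1195) (.e (nat_lit 286758) (nat_lit 12) (.e (nat_lit 385106) (nat_lit 50) (.e (nat_lit 786483) (nat_lit 30) (.e (nat_lit 360483) (nat_lit 15) .nil)))) .nil)) 
(.lf (nat_lit 286719) (.g (nat_lit 1716) (.e (nat_lit 286759) (nat_lit 12) (.e (nat_lit 385074) (nat_lit 31) (.e (nat_lit 573484) (nat_lit 13) (.e (nat_lit 65589) (nat_lit 9) .nil)))) .nil)))))))))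

noncomputable def tv3634 : DT := (.nd (nat_lit 0) (.nd (nat_lit 1) (.nd (nat_lit 2) (.nd (nat_lit 3) (.nd (nat_lit 4) (.nd (nat_lit 5) (.nd (nat_lit 6) 
(.lf (nat_lit 286720) (.g (nat_lit 2162) (.e (nat_lit 286759) (nat_lit 12) (.e (nat_lit 385074) (nat_lit 31) (.e (nat_lit 573484) (nat_lit 13) (.e (nat_lit 65589) (nat_lit 9) (.e (nat_lit 336008) (nat_lit 2) .nil))))) .nil)) 
(.lf (nat_lit 286784) (.g (nat_lit 1917) (.e (nat_lit 286759) (nat_lit 12) (.e (nat_lit 385074) (nat_lit 31) (.e (nat_lit 573485) (nat_lit 13) (.e (nat_lit 65620) (nat_lit 10) .nil)))) .nil))) (.nd (nat_lit 6) 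
(.lf (nat_lit 286752) (.g (nat_lit 1034) (.e (nat_lit 286759) (nat_lit 12) (.e (nat_lit 385074) (nat_lit 31) (.e (nat_lit 573484) (nat_lit 13) (.e (nat_lit 65617) (nat_lit 10) .nil)))) .nil)) 
(.lf (nat_lit 286816) (.g (nat_lit 4673) (.e (nat_lit 286759) (nat_lit 12) (.e (nat_lit 385074) (nat_lit 31) (.e (nat_lit 573493) (nat_lit 15) (.e (nat_lit 81947) (nat_lit 20) (.e (nat_lit 1774) (nat_lit 118) (.e (nat_lit 507921) (nat_lit 6) .nil)))))) (.g (nat_lit 4) .nil .nil))))) (.nd (nat_lit 5) (.nd (nat_lit 6) 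
(.lf (nat_lit 286736) (.g (nat_lit 2355) (.e (nat_lit 286759) (nat_lit 12) (.e (nat_lit 385074) (nat_lit 31) (.e (nat_lit 573484) (nat_lit 13) (.e (nat_lit 65610) (nat_lit 10) (.e (nat_lit 344105) (nat_lit 19) (.e (nat_lit 499719) (nat_lit 0) (.e (nat_lit 1348) (nat_lit 102) .nil))))))) (.g (nat_lit 4) .nil .nil))) 
(.lf (nat_lit 286800) (.g (nat_lit 3202) (.e (nat_lit 286759) (nat_lit 12) (.e (nat_lit 385074) (nat_lit 31) (.e (nat_lit 573491) (nat_lit 15) (.e (nat_lit 81947) (nat_lit 20) (.e (nat_lit 1774) (nat_lit 118) (.e (nat_lit 507921) (nat_lit 6) .nil)))))) (.g (nat_lit 4) .nil .nil)))) (.nd (nat_lit 6) 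
(.lf (nat_lit 286768) (.g (nat_lit 3194) (.e (nat_lit 286759) (nat_lit 12) (.e (nat_lit 385074) (nat_lit 31) (.e (nat_lit 573484) (nat_lit 13) (.e (nat_lit 65630) (nat_lit 14) (.e (nat_lit 401425) (nat_lit 2) .nil))))) .nil)) 
(.lf (nat_lit 286832) (.g (nat_lit 2631) (.e (nat_lit 286759) (nat_lit 12) (.e (nat_lit 385094) (nat_lit 49) (.e (nat_lit 778317) (nat_lit 3) (.e (nat_lit 57346) (nat_lit 0) (.e (nat_lit 6405) (nat_lit 339) .nil))))) .nil))))) (.nd (nat_lit 4) (.nd (nat_lit 5) (.nd (nat_lit 6) 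
(.lf (nat_lit 286728) (.g (nat_lit 2530) (.e (nat_lit 286759) (nat_lit 12) (.e (nat_lit 385074) (nat_lit 31) (.e (nat_lit 573484) (nat_lit 13) (.e (nat_lit 65602) (nat_lit 9) .nil)))) .nil)) 
(.lf (nat_lit 286792) (.g (nat_lit 1726) (.e (nat_lit 286759) (nat_lit 12) (.e (nat_lit 385074) (nat_lit 31) (.e (nat_lit 573491) (nat_lit 15) (.e (nat_lit 81933) (nat_lit 20) .nil)))) .nil))) (.nd (nat_lit 6) 
(.lf (nat_lit 286760) (.g (nat_lit 3059) (.e (nat_lit 286759) (nat_lit 12) (.e (nat_lit 385074) (nat_lit 31) (.e (nat_lit 573484) (nat_lit 13) (.e (nat_lit 65617) (nat_lit 10) (.e (nat_lit 344114) (nat_lit 20) (.e (nat_lit 507922) (nat_lit 6) .nil)))))) (.g (nat_lit 6) .nil .nil))) 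
(.lf (nat_lit 286824) (.g (nat_lit 3262) (.e (nat_lit 286759) (nat_lit 12) (.e (nat_lit 385074) (nat_lit 31) (.e (nat_lit 573493) (nat_lit 15) (.e (nat_lit 81962) (nat_lit 25) (.e (nat_lit 139299) (nat_lit 18) (.e (nat_lit 1359) (nat_lit 102) .nil)))))) (.g (nat_lit 4) .nil .nil))))) (.nd (nat_lit 5) (.nd (nat_lit 6) 
(.lf (nat_lit 286744) (.g (nat_lit 2122) (.e (nat_lit 286759) (nat_lit 12) (.e (nat_lit 385074) (nat_lit 31) (.e (nat_lit 573484) (nat_lit 13) (.e (nat_lit 65610) (nat_lit 10) (.e (nat_lit 344111) (nat_lit 19) (.e (nat_lit 507648) (nat_lit 0) (.e (nat_lit 1349) (nat_lit 102) .nil))))))) (.g (nat_lit 4) .nil .nil))) 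
(.lf (nat_lit 286808) (.g (nat_lit 2744) (.e (nat_lit 286759) (nat_lit 12) (.e (nat_lit 385074) (nat_lit 31) (.e (nat_lit 573492) (nat_lit 15) (.e (nat_lit 81962) (nat_lit 25) .nil)))) .nil))) (.nd (nat_lit 6) 
(.lf (nat_lit 286776) (.g (nat_lit 3594) (.e (nat_lit 286759) (nat_lit 12) (.e (nat_lit 385074) (nat_lit 31) (.e (nat_lit 573485) (nat_lit 13) (.e (nat_lit 65619) (nat_lit 10) (.e (nat_lit 344107) (nat_lit 19) (.e (nat_lit 499727) (nat_lit 0) (.e (nat_lit 1361) (nat_lit 102) .nil))))))) (.g (nat_lit 5) .nil .nil))) 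
(.lf (nat_lit 286840) (.g (nat_lit 2101) (.e (nat_lit 286759) (nat_lit 12) (.e (nat_lit 385094) (nat_lit 49) (.e (nat_lit 778317) (nat_lit 3) (.e (nat_lit 57352) (nat_lit 0) .nil)))) .nil)))))) (.nd (nat_lit 3) (.nd (nat_lit 4) (.nd (nat_lit 5) (.nd (nat_lit 6) 
(.lf (nat_lit 286724) (.g (nat_lit 2612) (.e (nat_lit 286759) (nat_lit 12) (.e (nat_lit 385074) (nat_lit 31) (.e (nat_lit 573484) (nat_lit 13) (.e (nat_lit 65596) (nat_lit 9) (.e (nat_lit 336001) (nat_lit 2) .nil))))) .nil)) 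
(.lf (nat_lit 286788) (.g (nat_lit 2402) (.e (nat_lit 286759) (nat_lit 12) (.e (nat_lit 385074) (nat_lit 31) (.e (nat_lit 573488) (nat_lit 14) (.e (nat_lit 81664) (nat_lit 40) .nil)))) .nil))) (.nd (nat_lit 6) 
(.lf (nat_lit 286756) (.g (nat_lit 2419) (.e (nat_lit 286759) (nat_lit 12) (.e (nat_lit 385074) (nat_lit 31) (.e (nat_lit 573484) (nat_lit 13) (.e (nat_lit 65617) (nat_lit 10) (.e (nat_lit 344107) (nat_lit 19) (.e (nat_lit 499743) (nat_lit 0) (.e (nat_lit 1346) (nat_lit 102) .nil))))))) (.g (nat_lit 4) .nil .nil))) 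
(.lf (nat_lit 286820) (.g (nat_lit 5650) (.e (nat_lit 286759) (nat_lit 12) (.e (nat_lit 385074) (nat_lit 31) (.e (nat_lit 573493) (nat_lit 15) (.e (nat_lit 81953) (nat_lit 22) (.e (nat_lit 90191) (nat_lit 18) (.e (nat_lit 1346) (nat_lit 102) .nil)))))) (.g (nat_lit 4) .nil .nil))))) (.nd (nat_lit 5) (.nd (nat_lit 6) 
(.lf (nat_lit 286740) (.g (nat_lit 2483) (.e (nat_lit 286759) (nat_lit 12) (.e (nat_lit 385074) (nat_lit 31) (.e (nat_lit 573484) (nat_lit 13) (.e (nat_lit 65610) (nat_lit 10) (.e (nat_lit 344107) (nat_lit 19) (.e (nat_lit 499727) (nat_lit 0) (.e (nat_lit 1362) (nat_lit 102) .nil))))))) (.g (nat_lit 4) .nil .nil))) 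
(.lf (nat_lit 286804) (.g (nat_lit 1726) (.e (nat_lit 286759) (nat_lit 12) (.e (nat_lit 385074) (nat_lit 31) (.e (nat_lit 573491) (nat_lit 15) (.e (nat_lit 81961) (nat_lit 25) .nil)))) .nil))) (.nd (nat_lit 6) 
(.lf (nat_lit 286772) (.g (nat_lit 3258) (.e (nat_lit 286759) (nat_lit 12) (.e (nat_lit 385074) (nat_lit 31) (.e (nat_lit 573485) (nat_lit 13) (.e (nat_lit 65595) (nat_lit 9) (.e (nat_lit 336013) (nat_lit 2) (.e (nat_lit 98048) (nat_lit 18) (.e (nat_lit 1349) (nat_lit 102) .nil))))))) (.g (nat_lit 5) .nil .nil))) 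
(.lf (nat_lit 286836) (.g (nat_lit 3185) (.e (nat_lit 286759) (nat_lit 12) (.e (nat_lit 385094) (nat_lit 49) (.e (nat_lit 778317) (nat_lit 3) (.e (nat_lit 57347) (nat_lit 0) (.e (nat_lit 6372) (nat_lit 337) (.e (nat_lit 1196) (nat_lit 88) (.e (nat_lit 65586) (nat_lit 7) (.e (nat_lit 319531) (nat_lit 16) .nil)))))))) (.g (nat_lit 4) .nil .nil)))))) 
(.nd (nat_lit 4) (.nd (nat_lit 5) (.nd (nat_lit 6) 
(.lf (nat_lit 286732) (.g (nat_lit 2678) (.e (nat_lit 286759) (nat_lit 12) (.e (nat_lit 385074) (nat_lit 31) (.e (nat_lit 573484) (nat_lit 13) (.e (nat_lit 65605) (nat_lit 9) .nil)))) .nil)) 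
(.lf (nat_lit 286796) (.g (nat_lit 1908) (.e (nat_lit 286759) (nat_lit 12) (.e (nat_lit 385074) (nat_lit 31) (.e (nat_lit 573491) (nat_lit 15) (.e (nat_lit 81946) (nat_lit 20) (.e (nat_lit 1689) (nat_lit 117) .nil))))) .nil))) (.nd (nat_lit 6) 
(.lf (nat_lit 286764) (.g (nat_lit 2761) (.e (nat_lit 286759) (nat_lit 12) (.e (nat_lit 385074) (nat_lit 31) (.e (nat_lit 573484) (nat_lit 13) (.e (nat_lit 65620) (nat_lit 10) .nil)))) .nil)) 
(.lf (nat_lit 286828) (.g (nat_lit 1940) (.e (nat_lit 286759) (nat_lit 12) (.e (nat_lit 385093) (nat_lit 49) (.e (nat_lit 778318) (nat_lit 3) (.e (nat_lit 57521) (nat_lit 44) (.e (nat_lit 688178) (nat_lit 16) .nil))))) .nil)))) (.nd (nat_lit 5) (.nd (nat_lit 6) 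
(.lf (nat_lit 286748) (.g (nat_lit 2762) (.e (nat_lit 286759) (nat_lit 12) (.e (nat_lit 385074) (nat_lit 31) (.e (nat_lit 573484) (nat_lit 13) (.e (nat_lit 65610) (nat_lit 10) (.e (nat_lit 344115) (nat_lit 20) (.e (nat_lit 515840) (nat_lit 6) .nil)))))) (.g (nat_lit 5) .nil .nil))) 
(.lf (nat_lit 286812) (.g (nat_lit 3651) (.e (nat_lit 286759) (nat_lit 12) (.e (nat_lit 385074) (nat_lit 31) (.e (nat_lit 573493) (nat_lit 15) (.e (nat_lit 81937) (nat_lit 20) (.e (nat_lit 1776) (nat_lit 118) .nil))))) .nil))) (.nd (nat_lit 6) 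
(.lf (nat_lit 286780) (.g (nat_lit 2752) (.e (nat_lit 286759) (nat_lit 12) (.e (nat_lit 385074) (nat_lit 31) (.e (nat_lit 573485) (nat_lit 13) (.e (nat_lit 65619) (nat_lit 10) (.e (nat_lit 344114) (nat_lit 20) (.e (nat_lit 507921) (nat_lit 6) .nil)))))) (.g (nat_lit 5) .nil .nil))) 
(.lf (nat_lit 286844) (.g (nat_lit 2753) (.e (nat_lit 286759) (nat_lit 12) (.e (nat_lit 385094) (nat_lit 49) (.e (nat_lit 778317) (nat_lit 3) (.e (nat_lit 57354) (nat_lit 0) (.e (nat_lit 6321) (nat_lit 337) (.e (nat_lit 1187) (nat_lit 88) (.e (nat_lit 65586) (nat_lit 7) (.e (nat_lit 319531) (nat_lit 16) .nil)))))))) (.g (nat_lit 4) .nil .nil)))))))) 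
(.nd (nat_lit 2) (.nd (nat_lit 3) (.nd (nat_lit 4) (.nd (nat_lit 5) (.nd (nat_lit 6) 
(.lf (nat_lit 286722) (.g (nat_lit 2808) (.e (nat_lit 286759) (nat_lit 12) (.e (nat_lit 385074) (nat_lit 31) (.e (nat_lit 573484) (nat_lit 13) (.e (nat_lit 65591) (nat_lit 9) .nil)))) .nil)) 
(.lf (nat_lit 286786) (.g (nat_lit 1091) (.e (nat_lit 286759) (nat_lit 12) (.e (nat_lit 385074) (nat_lit 31) (.e (nat_lit 573486) (nat_lit 14) .nil))) .nil))) (.nd (nat_lit 6) 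
(.lf (nat_lit 286754) (.g (nat_lit 2701) (.e (nat_lit 286759) (nat_lit 12) (.e (nat_lit 385074) (nat_lit 31) (.e (nat_lit 573484) (nat_lit 13) (.e (nat_lit 65617) (nat_lit 10) (.e (nat_lit 344106) (nat_lit 19) (.e (nat_lit 507648) (nat_lit 0) (.e (nat_lit 1348) (nat_lit 102) .nil))))))) (.g (nat_lit 4) .nil .nil))) 
(.lf (nat_lit 286818) (.g (nat_lit 3495) (.e (nat_lit 286759) (nat_lit 12) (.e (nat_lit 385074) (nat_lit 31) (.e (nat_lit 573493) (nat_lit 15) (.e (nat_lit 81951) (nat_lit 22) (.e (nat_lit 90187) (nat_lit 18) .nil))))) .nil)))) (.nd (nat_lit 5) (.nd (nat_lit 6) 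
(.lf (nat_lit 286738) (.g (nat_lit 2127) (.e (nat_lit 286759) (nat_lit 12) (.e (nat_lit 385074) (nat_lit 31) (.e (nat_lit 573484) (nat_lit 13) (.e (nat_lit 65610) (nat_lit 10) (.e (nat_lit 344106) (nat_lit 19) (.e (nat_lit 499724) (nat_lit 0) (.e (nat_lit 1359) (nat_lit 102) .nil))))))) (.g (nat_lit 4) .nil .nil))) 
(.lf (nat_lit 286802) (.g (nat_lit 3664) (.e (nat_lit 286759) (nat_lit 12) (.e (nat_lit 385074) (nat_lit 31) (.e (nat_lit 573491) (nat_lit 15) (.e (nat_lit 81951) (nat_lit 22) (.e (nat_lit 90192) (nat_lit 18) (.e (nat_lit 1353) (nat_lit 102) .nil)))))) (.g (nat_lit 4) .nil .nil)))) (.nd (nat_lit 6) 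
(.lf (nat_lit 286770) (.g (nat_lit 1509) (.e (nat_lit 286759) (nat_lit 12) (.e (nat_lit 385074) (nat_lit 31) (.e (nat_lit 573485) (nat_lit 13) (.e (nat_lit 65589) (nat_lit 9) .nil)))) .nil)) 
(.lf (nat_lit 286834) (.g (nat_lit 2907) (.e (nat_lit 286759) (nat_lit 12) (.e (nat_lit 385094) (nat_lit 49) (.e (nat_lit 778317) (nat_lit 3) (.e (nat_lit 57347) (nat_lit 0) (.e (nat_lit 6329) (nat_lit 337) .nil))))) .nil))))) (.nd (nat_lit 4) (.nd (nat_lit 5) (.nd (nat_lit 6) 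
(.lf (nat_lit 286730) (.g (nat_lit 4064) (.e (nat_lit 286759) (nat_lit 12) (.e (nat_lit 385074) (nat_lit 31) (.e (nat_lit 573484) (nat_lit 13) (.e (nat_lit 65602) (nat_lit 9) (.e (nat_lit 336013) (nat_lit 2) (.e (nat_lit 98048) (nat_lit 18) (.e (nat_lit 1349) (nat_lit 102) .nil))))))) (.g (nat_lit 5) .nil .nil))) 
(.lf (nat_lit 286794) (.g (nat_lit 1561) (.e (nat_lit 286759) (nat_lit 12) (.e (nat_lit 385074) (nat_lit 31) (.e (nat_lit 573491) (nat_lit 15) (.e (nat_lit 81942) (nat_lit 20) .nil)))) .nil))) (.nd (nat_lit 6) 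
(.lf (nat_lit 286762) (.g (nat_lit 2258) (.e (nat_lit 286759) (nat_lit 12) (.e (nat_lit 385074) (nat_lit 31) (.e (nat_lit 573484) (nat_lit 13) (.e (nat_lit 65617) (nat_lit 10) (.e (nat_lit 344115) (nat_lit 20) (.e (nat_lit 515840) (nat_lit 6) .nil)))))) (.g (nat_lit 4) .nil .nil))) 
(.lf (nat_lit 286826) (.g (nat_lit 1194) (.e (nat_lit 286759) (nat_lit 12) (.e (nat_lit 385074) (nat_lit 31) (.e (nat_lit 573497) (nat_lit 17) .nil))) .nil)))) (.nd (nat_lit 5) (.nd (nat_lit 6) 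
(.lf (nat_lit 286746) (.g (nat_lit 2088) (.e (nat_lit 286759) (nat_lit 12) (.e (nat_lit 385074) (nat_lit 31) (.e (nat_lit 573484) (nat_lit 13) (.e (nat_lit 65610) (nat_lit 10) (.e (nat_lit 352000) (nat_lit 19) .nil))))) .nil)) 
(.lf (nat_lit 286810) (.g (nat_lit 3328) (.e (nat_lit 286759) (nat_lit 12) (.e (nat_lit 385074) (nat_lit 31) (.e (nat_lit 573493) (nat_lit 15) (.e (nat_lit 81930) (nat_lit 20) (.e (nat_lit 1759) (nat_lit 117) .nil))))) .nil))) (.nd (nat_lit 6) 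
(.lf (nat_lit 286778) (.g (nat_lit 2138) (.e (nat_lit 286759) (nat_lit 12) (.e (nat_lit 385074) (nat_lit 31) (.e (nat_lit 573485) (nat_lit 13) (.e (nat_lit 65619) (nat_lit 10) (.e (nat_lit 344110) (nat_lit 19) (.e (nat_lit 507648) (nat_lit 0) (.e (nat_lit 1348) (nat_lit 102) .nil))))))) (.g (nat_lit 4) .nil .nil))) 
(.lf (nat_lit 286842) (.g (nat_lit 2969) (.e (nat_lit 286759) (nat_lit 12) (.e (nat_lit 385094) (nat_lit 49) (.e (nat_lit 778317) (nat_lit 3) (.e (nat_lit 57354) (nat_lit 0) (.e (nat_lit 6319) (nat_lit 337) (.e (nat_lit 1187) (nat_lit 88) (.e (nat_lit 65586) (nat_lit 7) (.e (nat_lit 319531) (nat_lit 16) .nil)))))))) (.g (nat_lit 4) .nil .nil))))))) 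
(.nd (nat_lit 3) (.nd (nat_lit 4) (.nd (nat_lit 5) (.nd (nat_lit 6) 
(.lf (nat_lit 286726) (.g (nat_lit 4019) (.e (nat_lit 286759) (nat_lit 12) (.e (nat_lit 385074) (nat_lit 31) (.e (nat_lit 573484) (nat_lit 13) (.e (nat_lit 65596) (nat_lit 9) (.e (nat_lit 336013) (nat_lit 2) (.e (nat_lit 98048) (nat_lit 18) (.e (nat_lit 1349) (nat_lit 102) .nil))))))) (.g (nat_lit 5) .nil .nil))) 
(.lf (nat_lit 286790) (.g (nat_lit 1575) (.e (nat_lit 286759) (nat_lit 12) (.e (nat_lit 385074) (nat_lit 31) (.e (nat_lit 573491) (nat_lit 15) (.e (nat_lit 81928) (nat_lit 20) .nil)))) .nil))) (.nd (nat_lit 6) 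
(.lf (nat_lit 286758) (.g (nat_lit 2680) (.e (nat_lit 286759) (nat_lit 12) (.e (nat_lit 385074) (nat_lit 31) (.e (nat_lit 573484) (nat_lit 13) (.e (nat_lit 65617) (nat_lit 10) (.e (nat_lit 344111) (nat_lit 19) (.e (nat_lit 499743) (nat_lit 0) (.e (nat_lit 1346) (nat_lit 102) .nil))))))) (.g (nat_lit 4) .nil .nil))) 
(.lf (nat_lit 286822) (.g (nat_lit 3587) (.e (nat_lit 286759) (nat_lit 12) (.e (nat_lit 385074) (nat_lit 31) (.e (nat_lit 573493) (nat_lit 15) (.e (nat_lit 81961) (nat_lit 25) (.e (nat_lit 139299) (nat_lit 18) (.e (nat_lit 1348) (nat_lit 102) .nil)))))) (.g (nat_lit 4) .nil .nil))))) (.nd (nat_lit 5) (.nd (nat_lit 6) 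
(.lf (nat_lit 286742) (.g (nat_lit 1838) (.e (nat_lit 286759) (nat_lit 12) (.e (nat_lit 385074) (nat_lit 31) (.e (nat_lit 573484) (nat_lit 13) (.e (nat_lit 65610) (nat_lit 10) (.e (nat_lit 344111) (nat_lit 19) (.e (nat_lit 499752) (nat_lit 0) (.e (nat_lit 1346) (nat_lit 102) .nil))))))) (.g (nat_lit 4) .nil .nil))) 
(.lf (nat_lit 286806) (.g (nat_lit 4407) (.e (nat_lit 286759) (nat_lit 12) (.e (nat_lit 385074) (nat_lit 31) (.e (nat_lit 573492) (nat_lit 15) (.e (nat_lit 81937) (nat_lit 20) (.e (nat_lit 1691) (nat_lit 117) .nil))))) .nil))) (.nd (nat_lit 6) 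
(.lf (nat_lit 286774) (.g (nat_lit 1529) (.e (nat_lit 286759) (nat_lit 12) (.e (nat_lit 385074) (nat_lit 31) (.e (nat_lit 573485) (nat_lit 13) (.e (nat_lit 65601) (nat_lit 9) .nil)))) .nil)) 
(.lf (nat_lit 286838) (.g (nat_lit 2384) (.e (nat_lit 286759) (nat_lit 12) (.e (nat_lit 385094) (nat_lit 49) (.e (nat_lit 778317) (nat_lit 3) (.e (nat_lit 57350) (nat_lit 0) (.e (nat_lit 6318) (nat_lit 337) .nil))))) .nil))))) (.nd (nat_lit 4) (.nd (nat_lit 5) (.nd (nat_lit 6) 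
(.lf (nat_lit 286734) (.g (nat_lit 2080) (.e (nat_lit 286759) (nat_lit 12) (.e (nat_lit 385074) (nat_lit 31) (.e (nat_lit 573484) (nat_lit 13) (.e (nat_lit 65610) (nat_lit 10) (.e (nat_lit 344088) (nat_lit 18) .nil))))) .nil)) 
(.lf (nat_lit 286798) (.g (nat_lit 1599) (.e (nat_lit 286759) (nat_lit 12) (.e (nat_lit 385074) (nat_lit 31) (.e (nat_lit 573491) (nat_lit 15) (.e (nat_lit 81947) (nat_lit 20) .nil)))) .nil))) (.nd (nat_lit 6) 
(.lf (nat_lit 286766) (.g (nat_lit 2769) (.e (nat_lit 286759) (nat_lit 12) (.e (nat_lit 385074) (nat_lit 31) (.e (nat_lit 573484) (nat_lit 13) (.e (nat_lit 65622) (nat_lit 12) (.e (nat_lit 385071) (nat_lit 30) .nil))))) .nil)) 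
(.lf (nat_lit 286830) (.g (nat_lit 4621) (.e (nat_lit 286759) (nat_lit 12) (.e (nat_lit 385094) (nat_lit 49) (.e (nat_lit 778246) (nat_lit 0) (.e (nat_lit 999) (nat_lit 81) (.e (nat_lit 2031) (nat_lit 140) (.e (nat_lit 688177) (nat_lit 16) (.e (nat_lit 65586) (nat_lit 7) (.e (nat_lit 319531) (nat_lit 16) .nil)))))))) (.g (nat_lit 0) .nil .nil))))) (.nd (nat_lit 5) (.nd (nat_lit 6) 
(.lf (nat_lit 286750) (.g (nat_lit 2822) (.e (nat_lit 286759) (nat_lit 12) (.e (nat_lit 385074) (nat_lit 31) (.e (nat_lit 573484) (nat_lit 13) (.e (nat_lit 65613) (nat_lit 10) .nil)))) .nil)) 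
(.lf (nat_lit 286814) (.g (nat_lit 3618) (.e (nat_lit 286759) (nat_lit 12) (.e (nat_lit 385074) (nat_lit 31) (.e (nat_lit 573493) (nat_lit 15) (.e (nat_lit 81947) (nat_lit 20) (.e (nat_lit 1689) (nat_lit 117) .nil))))) .nil))) (.nd (nat_lit 6) 
(.lf (nat_lit 286782) (.g (nat_lit 3005) (.e (nat_lit 286759) (nat_lit 12) (.e (nat_lit 385074) (nat_lit 31) (.e (nat_lit 573485) (nat_lit 13) (.e (nat_lit 65619) (nat_lit 10) (.e (nat_lit 344115) (nat_lit 20) (.e (nat_lit 507922) (nat_lit 6) .nil)))))) (.g (nat_lit 6) .nil .nil))) 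
(.lf (nat_lit 286846) (.g (nat_lit 2200) (.e (nat_lit 286759) (nat_lit 12) (.e (nat_lit 385094) (nat_lit 49) (.e (nat_lit 778318) (nat_lit 3) (.e (nat_lit 57344) (nat_lit 0) .nil)))) .nil)))))))) (.nd (nat_lit 1) (.nd (nat_lit 2) (.nd (nat_lit 3) (.nd (nat_lit 4) (.nd (nat_lit 5) (.nd (nat_lit 6) 
(.lf (nat_lit 286721) (.g (nat_lit 2822) (.e (nat_lit 286759) (nat_lit 12) (.e (nat_lit 385074) (nat_lit 31) (.e (nat_lit 573484) (nat_lit 13) (.e (nat_lit 65590) (nat_lit 9) .nil)))) .nil)) 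
(.lf (nat_lit 286785) (.g (nat_lit 714) (.e (nat_lit 286759) (nat_lit 12) (.e (nat_lit 385074) (nat_lit 31) (.e (nat_lit 581376) (nat_lit 13) .nil))) .nil))) (.nd (nat_lit 6) 
(.lf (nat_lit 286753) (.g (nat_lit 2148) (.e (nat_lit 286759) (nat_lit 12) (.e (nat_lit 385074) (nat_lit 31) (.e (nat_lit 573484) (nat_lit 13) (.e (nat_lit 65617) (nat_lit 10) (.e (nat_lit 344087) (nat_lit 18) .nil))))) .nil)) 
(.lf (nat_lit 286817) (.g (nat_lit 3708) (.e (nat_lit 286759) (nat_lit 12) (.e (nat_lit 385074) (nat_lit 31) (.e (nat_lit 573493) (nat_lit 15) (.e (nat_lit 81947) (nat_lit 20) (.e (nat_lit 1774) (nat_lit 118) (.e (nat_lit 507923) (nat_lit 6) .nil)))))) (.g (nat_lit 4) .nil .nil))))) (.nd (nat_lit 5) (.nd (nat_lit 6) 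
(.lf (nat_lit 286737) (.g (nat_lit 1736) (.e (nat_lit 286759) (nat_lit 12) (.e (nat_lit 385074) (nat_lit 31) (.e (nat_lit 573484) (nat_lit 13) (.e (nat_lit 65610) (nat_lit 10) (.e (nat_lit 344106) (nat_lit 19) .nil))))) .nil)) 
(.lf (nat_lit 286801) (.g (nat_lit 3749) (.e (nat_lit 286759) (nat_lit 12) (.e (nat_lit 385074) (nat_lit 31) (.e (nat_lit 573491) (nat_lit 15) (.e (nat_lit 81951) (nat_lit 22) (.e (nat_lit 90187) (nat_lit 18) (.e (nat_lit 1361) (nat_lit 102) .nil)))))) (.g (nat_lit 4) .nil .nil)))) (.nd (nat_lit 6) 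
(.lf (nat_lit 286769) (.g (nat_lit 458) (.e (nat_lit 286759) (nat_lit 12) (.e (nat_lit 385074) (nat_lit 31) (.e (nat_lit 573485) (nat_lit 13) .nil))) .nil)) 
(.lf (nat_lit 286833) (.g (nat_lit 1857) (.e (nat_lit 286759) (nat_lit 12) (.e (nat_lit 385094) (nat_lit 49) (.e (nat_lit 778317) (nat_lit 3) (.e (nat_lit 57347) (nat_lit 0) .nil)))) .nil))))) (.nd (nat_lit 4) (.nd (nat_lit 5) (.nd (nat_lit 6) 
(.lf (nat_lit 286729) (.g (nat_lit 4281) (.e (nat_lit 286759) (nat_lit 12) (.e (nat_lit 385074) (nat_lit 31) (.e (nat_lit 573484) (nat_lit 13) (.e (nat_lit 65602) (nat_lit 9) (.e (nat_lit 336013) (nat_lit 2) (.e (nat_lit 98048) (nat_lit 18) (.e (nat_lit 1348) (nat_lit 102) .nil))))))) (.g (nat_lit 5) .nil .nil))) 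
(.lf (nat_lit 286793) (.g (nat_lit 1707) (.e (nat_lit 286759) (nat_lit 12) (.e (nat_lit 385074) (nat_lit 31) (.e (nat_lit 573491) (nat_lit 15) (.e (nat_lit 81940) (nat_lit 20) .nil)))) .nil))) (.nd (nat_lit 6) 
(.lf (nat_lit 286761) (.g (nat_lit 2950) (.e (nat_lit 286759) (nat_lit 12) (.e (nat_lit 385074) (nat_lit 31) (.e (nat_lit 573484) (nat_lit 13) (.e (nat_lit 65617) (nat_lit 10) (.e (nat_lit 344115) (nat_lit 20) (.e (nat_lit 507922) (nat_lit 6) .nil)))))) (.g (nat_lit 5) .nil .nil))) 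
(.lf (nat_lit 286825) (.g (nat_lit 714) (.e (nat_lit 286759) (nat_lit 12) (.e (nat_lit 385074) (nat_lit 31) (.e (nat_lit 581376) (nat_lit 15) .nil))) .nil)))) (.nd (nat_lit 5) (.nd (nat_lit 6) 
(.lf (nat_lit 286745) (.g (nat_lit 1920) (.e (nat_lit 286759) (nat_lit 12) (.e (nat_lit 385074) (nat_lit 31) (.e (nat_lit 573484) (nat_lit 13) (.e (nat_lit 65610) (nat_lit 10) (.e (nat_lit 344112) (nat_lit 19) (.e (nat_lit 507648) (nat_lit 0) (.e (nat_lit 1349) (nat_lit 102) .nil))))))) (.g (nat_lit 4) .nil .nil))) 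
(.lf (nat_lit 286809) (.g (nat_lit 2619) (.e (nat_lit 286759) (nat_lit 12) (.e (nat_lit 385074) (nat_lit 31) (.e (nat_lit 573493) (nat_lit 15) (.e (nat_lit 81928) (nat_lit 20) (.e (nat_lit 1774) (nat_lit 118) .nil))))) .nil))) (.nd (nat_lit 6) 
(.lf (nat_lit 286777) (.g (nat_lit 2101) (.e (nat_lit 286759) (nat_lit 12) (.e (nat_lit 385074) (nat_lit 31) (.e (nat_lit 573485) (nat_lit 13) (.e (nat_lit 65619) (nat_lit 10) (.e (nat_lit 344107) (nat_lit 19) (.e (nat_lit 499727) (nat_lit 0) (.e (nat_lit 1362) (nat_lit 102) .nil))))))) (.g (nat_lit 4) .nil .nil))) 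
(.lf (nat_lit 286841) (.g (nat_lit 1480) (.e (nat_lit 286759) (nat_lit 12) (.e (nat_lit 385094) (nat_lit 49) (.e (nat_lit 778317) (nat_lit 3) (.e (nat_lit 57354) (nat_lit 0) .nil)))) .nil)))))) (.nd (nat_lit 3) (.nd (nat_lit 4) (.nd (nat_lit 5) (.nd (nat_lit 6) 
(.lf (nat_lit 286725) (.g (nat_lit 4236) (.e (nat_lit 286759) (nat_lit 12) (.e (nat_lit 385074) (nat_lit 31) (.e (nat_lit 573484) (nat_lit 13) (.e (nat_lit 65596) (nat_lit 9) (.e (nat_lit 336013) (nat_lit 2) (.e (nat_lit 98048) (nat_lit 18) (.e (nat_lit 1348) (nat_lit 102) .nil))))))) (.g (nat_lit 5) .nil .nil))) 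
(.lf (nat_lit 286789) (.g (nat_lit 4849) (.e (nat_lit 286759) (nat_lit 12) (.e (nat_lit 385074) (nat_lit 31) (.e (nat_lit 573489) (nat_lit 14) (.e (nat_lit 73731) (nat_lit 0) (.e (nat_lit 4539) (nat_lit 267) (.e (nat_lit 163869) (nat_lit 2) (.e (nat_lit 196691) (nat_lit 18) (.e (nat_lit 1349) (nat_lit 102) .nil)))))))) (.g (nat_lit 6) .nil .nil)))) (.nd (nat_lit 6) 
(.lf (nat_lit 286757) (.g (nat_lit 2104) (.e (nat_lit 286759) (nat_lit 12) (.e (nat_lit 385074) (nat_lit 31) (.e (nat_lit 573484) (nat_lit 13) (.e (nat_lit 65617) (nat_lit 10) (.e (nat_lit 344111) (nat_lit 19) .nil))))) .nil)) 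
(.lf (nat_lit 286821) (.g (nat_lit 1829) (.e (nat_lit 286759) (nat_lit 12) (.e (nat_lit 385074) (nat_lit 31) (.e (nat_lit 573493) (nat_lit 15) (.e (nat_lit 81960) (nat_lit 25) .nil)))) .nil)))) (.nd (nat_lit 5) (.nd (nat_lit 6) 
(.lf (nat_lit 286741) (.g (nat_lit 2572) (.e (nat_lit 286759) (nat_lit 12) (.e (nat_lit 385074) (nat_lit 31) (.e (nat_lit 573484) (nat_lit 13) (.e (nat_lit 65610) (nat_lit 10) (.e (nat_lit 344111) (nat_lit 19) (.e (nat_lit 499750) (nat_lit 0) (.e (nat_lit 1353) (nat_lit 102) .nil))))))) (.g (nat_lit 4) .nil .nil))) 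
(.lf (nat_lit 286805) (.g (nat_lit 1713) (.e (nat_lit 286759) (nat_lit 12) (.e (nat_lit 385074) (nat_lit 31) (.e (nat_lit 573491) (nat_lit 15) (.e (nat_lit 81962) (nat_lit 25) .nil)))) .nil))) (.nd (nat_lit 6) 
(.lf (nat_lit 286773) (.g (nat_lit 1602) (.e (nat_lit 286759) (nat_lit 12) (.e (nat_lit 385074) (nat_lit 31) (.e (nat_lit 573485) (nat_lit 13) (.e (nat_lit 65598) (nat_lit 9) .nil)))) .nil)) 
(.lf (nat_lit 286837) (.g (nat_lit 3241) (.e (nat_lit 286759) (nat_lit 12) (.e (nat_lit 385094) (nat_lit 49) (.e (nat_lit 778317) (nat_lit 3) (.e (nat_lit 57347) (nat_lit 0) (.e (nat_lit 6372) (nat_lit 337) (.e (nat_lit 1197) (nat_lit 88) (.e (nat_lit 65586) (nat_lit 7) (.e (nat_lit 319531) (nat_lit 16) .nil)))))))) (.g (nat_lit 4) .nil .nil)))))) 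
(.nd (nat_lit 4) (.nd (nat_lit 5) (.nd (nat_lit 6) 
(.lf (nat_lit 286733) (.g (nat_lit 2396) (.e (nat_lit 286759) (nat_lit 12) (.e (nat_lit 385074) (nat_lit 31) (.e (nat_lit 573484) (nat_lit 13) (.e (nat_lit 65609) (nat_lit 10) .nil)))) .nil)) 
(.lf (nat_lit 286797) (.g (nat_lit 3020) (.e (nat_lit 286759) (nat_lit 12) (.e (nat_lit 385074) (nat_lit 31) (.e (nat_lit 573491) (nat_lit 15) (.e (nat_lit 81946) (nat_lit 20) (.e (nat_lit 1774) (nat_lit 118) (.e (nat_lit 507921) (nat_lit 6) .nil)))))) (.g (nat_lit 4) .nil .nil)))) (.nd (nat_lit 6) 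
(.lf (nat_lit 286765) (.g (nat_lit 2822) (.e (nat_lit 286759) (nat_lit 12) (.e (nat_lit 385074) (nat_lit 31) (.e (nat_lit 573484) (nat_lit 13) (.e (nat_lit 65621) (nat_lit 11) .nil)))) .nil)) 
(.lf (nat_lit 286829) (.g (nat_lit 930) (.e (nat_lit 286759) (nat_lit 12) (.e (nat_lit 385094) (nat_lit 49) (.e (nat_lit 778243) (nat_lit 0) .nil))) .nil)))) (.nd (nat_lit 5) (.nd (nat_lit 6) 
(.lf (nat_lit 286749) (.g (nat_lit 2712) (.e (nat_lit 286759) (nat_lit 12) (.e (nat_lit 385074) (nat_lit 31) (.e (nat_lit 573484) (nat_lit 13) (.e (nat_lit 65611) (nat_lit 10) .nil)))) .nil)) 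
(.lf (nat_lit 286813) (.g (nat_lit 1881) (.e (nat_lit 286759) (nat_lit 12) (.e (nat_lit 385074) (nat_lit 31) (.e (nat_lit 573493) (nat_lit 15) (.e (nat_lit 81947) (nat_lit 20) .nil)))) .nil))) (.nd (nat_lit 6) 
(.lf (nat_lit 286781) (.g (nat_lit 2745) (.e (nat_lit 286759) (nat_lit 12) (.e (nat_lit 385074) (nat_lit 31) (.e (nat_lit 573485) (nat_lit 13) (.e (nat_lit 65619) (nat_lit 10) (.e (nat_lit 344114) (nat_lit 20) (.e (nat_lit 507922) (nat_lit 6) .nil)))))) (.g (nat_lit 5) .nil .nil))) 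
(.lf (nat_lit 286845) (.g (nat_lit 1940) (.e (nat_lit 286759) (nat_lit 12) (.e (nat_lit 385094) (nat_lit 49) (.e (nat_lit 778317) (nat_lit 3) (.e (nat_lit 57521) (nat_lit 44) (.e (nat_lit 688178) (nat_lit 16) .nil))))) .nil))))))) (.nd (nat_lit 2) (.nd (nat_lit 3) (.nd (nat_lit 4) (.nd (nat_lit 5) (.nd (nat_lit 6) 
(.lf (nat_lit 286723) (.g (nat_lit 2502) (.e (nat_lit 286759) (nat_lit 12) (.e (nat_lit 385074) (nat_lit 31) (.e (nat_lit 573484) (nat_lit 13) (.e (nat_lit 65596) (nat_lit 9) .nil)))) .nil)) 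
(.lf (nat_lit 286787) (.g (nat_lit 2074) (.e (nat_lit 286759) (nat_lit 12) (.e (nat_lit 385074) (nat_lit 31) (.e (nat_lit 573487) (nat_lit 14) (.e (nat_lit 73784) (nat_lit 40) .nil)))) .nil))) (.nd (nat_lit 6) 
(.lf (nat_lit 286755) (.g (nat_lit 2191) (.e (nat_lit 286759) (nat_lit 12) (.e (nat_lit 385074) (nat_lit 31) (.e (nat_lit 573484) (nat_lit 13) (.e (nat_lit 65617) (nat_lit 10) (.e (nat_lit 344107) (nat_lit 19) (.e (nat_lit 499727) (nat_lit 0) (.e (nat_lit 1361) (nat_lit 102) .nil))))))) (.g (nat_lit 4) .nil .nil))) 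
(.lf (nat_lit 286819) (.g (nat_lit 5836) (.e (nat_lit 286759) (nat_lit 12) (.e (nat_lit 385074) (nat_lit 31) (.e (nat_lit 573493) (nat_lit 15) (.e (nat_lit 81953) (nat_lit 22) (.e (nat_lit 90187) (nat_lit 18) (.e (nat_lit 1361) (nat_lit 102) .nil)))))) (.g (nat_lit 4) .nil .nil))))) (.nd (nat_lit 5) (.nd (nat_lit 6) 
(.lf (nat_lit 286739) (.g (nat_lit 3472) (.e (nat_lit 286759) (nat_lit 12) (.e (nat_lit 385074) (nat_lit 31) (.e (nat_lit 573484) (nat_lit 13) (.e (nat_lit 65610) (nat_lit 10) (.e (nat_lit 344107) (nat_lit 19) (.e (nat_lit 499727) (nat_lit 0) (.e (nat_lit 1361) (nat_lit 102) .nil))))))) (.g (nat_lit 5) .nil .nil))) 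
(.lf (nat_lit 286803) (.g (nat_lit 4238) (.e (nat_lit 286759) (nat_lit 12) (.e (nat_lit 385074) (nat_lit 31) (.e (nat_lit 573491) (nat_lit 15) (.e (nat_lit 81953) (nat_lit 22) (.e (nat_lit 90187) (nat_lit 18) .nil))))) .nil))) (.nd (nat_lit 6) 
(.lf (nat_lit 286771) (.g (nat_lit 3192) (.e (nat_lit 286759) (nat_lit 12) (.e (nat_lit 385074) (nat_lit 31) (.e (nat_lit 573485) (nat_lit 13) (.e (nat_lit 65595) (nat_lit 9) (.e (nat_lit 336013) (nat_lit 2) (.e (nat_lit 98048) (nat_lit 18) (.e (nat_lit 1348) (nat_lit 102) .nil))))))) (.g (nat_lit 5) .nil .nil))) 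
(.lf (nat_lit 286835) (.g (nat_lit 2907) (.e (nat_lit 286759) (nat_lit 12) (.e (nat_lit 385094) (nat_lit 49) (.e (nat_lit 778317) (nat_lit 3) (.e (nat_lit 57347) (nat_lit 0) (.e (nat_lit 6372) (nat_lit 337) .nil))))) .nil))))) (.nd (nat_lit 4) (.nd (nat_lit 5) (.nd (nat_lit 6) 
(.lf (nat_lit 286731) (.g (nat_lit 2716) (.e (nat_lit 286759) (nat_lit 12) (.e (nat_lit 385074) (nat_lit 31) (.e (nat_lit 573484) (nat_lit 13) (.e (nat_lit 65604) (nat_lit 9) .nil)))) .nil)) 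
(.lf (nat_lit 286795) (.g (nat_lit 1908) (.e (nat_lit 286759) (nat_lit 12) (.e (nat_lit 385074) (nat_lit 31) (.e (nat_lit 573491) (nat_lit 15) (.e (nat_lit 81946) (nat_lit 20) (.e (nat_lit 1682) (nat_lit 117) .nil))))) .nil))) (.nd (nat_lit 6) 
(.lf (nat_lit 286763) (.g (nat_lit 2822) (.e (nat_lit 286759) (nat_lit 12) (.e (nat_lit 385074) (nat_lit 31) (.e (nat_lit 573484) (nat_lit 13) (.e (nat_lit 65619) (nat_lit 10) .nil)))) .nil)) 
(.lf (nat_lit 286827) (.g (nat_lit 2006) (.e (nat_lit 286759) (nat_lit 12) (.e (nat_lit 385093) (nat_lit 49) (.e (nat_lit 778317) (nat_lit 3) (.e (nat_lit 57521) (nat_lit 44) .nil)))) .nil)))) (.nd (nat_lit 5) (.nd (nat_lit 6) 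
(.lf (nat_lit 286747) (.g (nat_lit 3182) (.e (nat_lit 286759) (nat_lit 12) (.e (nat_lit 385074) (nat_lit 31) (.e (nat_lit 573484) (nat_lit 13) (.e (nat_lit 65610) (nat_lit 10) (.e (nat_lit 344115) (nat_lit 20) (.e (nat_lit 507922) (nat_lit 6) .nil)))))) (.g (nat_lit 6) .nil .nil))) 
(.lf (nat_lit 286811) (.g (nat_lit 3674) (.e (nat_lit 286759) (nat_lit 12) (.e (nat_lit 385074) (nat_lit 31) (.e (nat_lit 573493) (nat_lit 15) (.e (nat_lit 81937) (nat_lit 20) (.e (nat_lit 1691) (nat_lit 117) .nil))))) .nil))) (.nd (nat_lit 6) 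
(.lf (nat_lit 286779) (.g (nat_lit 2275) (.e (nat_lit 286759) (nat_lit 12) (.e (nat_lit 385074) (nat_lit 31) (.e (nat_lit 573485) (nat_lit 13) (.e (nat_lit 65619) (nat_lit 10) (.e (nat_lit 344110) (nat_lit 19) (.e (nat_lit 507648) (nat_lit 0) (.e (nat_lit 1349) (nat_lit 102) .nil))))))) (.g (nat_lit 4) .nil .nil))) 
(.lf (nat_lit 286843) (.g (nat_lit 2795) (.e (nat_lit 286759) (nat_lit 12) (.e (nat_lit 385094) (nat_lit 49) (.e (nat_lit 778317) (nat_lit 3) (.e (nat_lit 57354) (nat_lit 0) (.e (nat_lit 6320) (nat_lit 337) (.e (nat_lit 1187) (nat_lit 88) (.e (nat_lit 65586) (nat_lit 7) (.e (nat_lit 319531) (nat_lit 16) .nil)))))))) (.g (nat_lit 4) .nil .nil))))))) 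
(.nd (nat_lit 3) (.nd (nat_lit 4) (.nd (nat_lit 5) (.nd (nat_lit 6) 
(.lf (nat_lit 286727) (.g (nat_lit 2726) (.e (nat_lit 286759) (nat_lit 12) (.e (nat_lit 385074) (nat_lit 31) (.e (nat_lit 573484) (nat_lit 13) (.e (nat_lit 65601) (nat_lit 9) .nil)))) .nil)) 
(.lf (nat_lit 286791) (.g (nat_lit 1935) (.e (nat_lit 286759) (nat_lit 12) (.e (nat_lit 385074) (nat_lit 31) (.e (nat_lit 573491) (nat_lit 15) (.e (nat_lit 81928) (nat_lit 20) (.e (nat_lit 1774) (nat_lit 118) .nil))))) .nil))) (.nd (nat_lit 6) 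
(.lf (nat_lit 286759) (.g (nat_lit 2724) (.e (nat_lit 286759) (nat_lit 12) (.e (nat_lit 385074) (nat_lit 31) (.e (nat_lit 573484) (nat_lit 13) (.e (nat_lit 65617) (nat_lit 10) (.e (nat_lit 344113) (nat_lit 19) (.e (nat_lit 507648) (nat_lit 0) (.e (nat_lit 1348) (nat_lit 102) .nil))))))) (.g (nat_lit 4) .nil .nil))) 
(.lf (nat_lit 286823) (.g (nat_lit 1316) (.e (nat_lit 286759) (nat_lit 12) (.e (nat_lit 385074) (nat_lit 31) (.e (nat_lit 573493) (nat_lit 15) (.e (nat_lit 81962) (nat_lit 25) .nil)))) .nil)))) (.nd (nat_lit 5) (.nd (nat_lit 6) 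
(.lf (nat_lit 286743) (.g (nat_lit 2268) (.e (nat_lit 286759) (nat_lit 12) (.e (nat_lit 385074) (nat_lit 31) (.e (nat_lit 573484) (nat_lit 13) (.e (nat_lit 65610) (nat_lit 10) (.e (nat_lit 344111) (nat_lit 19) (.e (nat_lit 507648) (nat_lit 0) (.e (nat_lit 1348) (nat_lit 102) .nil))))))) (.g (nat_lit 4) .nil .nil))) 
(.lf (nat_lit 286807) (.g (nat_lit 6918) (.e (nat_lit 286759) (nat_lit 12) (.e (nat_lit 385074) (nat_lit 31) (.e (nat_lit 573492) (nat_lit 15) (.e (nat_lit 81953) (nat_lit 22) (.e (nat_lit 98048) (nat_lit 18) (.e (nat_lit 1349) (nat_lit 102) .nil)))))) (.g (nat_lit 4) .nil .nil)))) (.nd (nat_lit 6) 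
(.lf (nat_lit 286775) (.g (nat_lit 4420) (.e (nat_lit 286759) (nat_lit 12) (.e (nat_lit 385074) (nat_lit 31) (.e (nat_lit 573485) (nat_lit 13) (.e (nat_lit 65604) (nat_lit 9) (.e (nat_lit 336013) (nat_lit 2) (.e (nat_lit 90187) (nat_lit 18) (.e (nat_lit 1361) (nat_lit 102) .nil))))))) (.g (nat_lit 5) .nil .nil))) 
(.lf (nat_lit 286839) (.g (nat_lit 2104) (.e (nat_lit 286759) (nat_lit 12) (.e (nat_lit 385094) (nat_lit 49) (.e (nat_lit 778317) (nat_lit 3) (.e (nat_lit 57351) (nat_lit 0) .nil)))) .nil))))) (.nd (nat_lit 4) (.nd (nat_lit 5) (.nd (nat_lit 6) 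
(.lf (nat_lit 286735) (.g (nat_lit 2207) (.e (nat_lit 286759) (nat_lit 12) (.e (nat_lit 385074) (nat_lit 31) (.e (nat_lit 573484) (nat_lit 13) (.e (nat_lit 65610) (nat_lit 10) (.e (nat_lit 344089) (nat_lit 18) (.e (nat_lit 3897) (nat_lit 234) (.e (nat_lit 8303) (nat_lit 58) .nil))))))) (.g (nat_lit 4) .nil .nil))) 
(.lf (nat_lit 286799) (.g (nat_lit 2200) (.e (nat_lit 286759) (nat_lit 12) (.e (nat_lit 385074) (nat_lit 31) (.e (nat_lit 573491) (nat_lit 15) (.e (nat_lit 81947) (nat_lit 20) (.e (nat_lit 1689) (nat_lit 117) .nil))))) .nil))) (.nd (nat_lit 6) 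
(.lf (nat_lit 286767) (.g (nat_lit 3524) (.e (nat_lit 286759) (nat_lit 12) (.e (nat_lit 385074) (nat_lit 31) (.e (nat_lit 573484) (nat_lit 13) (.e (nat_lit 65624) (nat_lit 12) (.e (nat_lit 385071) (nat_lit 30) .nil))))) .nil)) 
(.lf (nat_lit 286831) (.g (nat_lit 2104) (.e (nat_lit 286759) (nat_lit 12) (.e (nat_lit 385094) (nat_lit 49) (.e (nat_lit 778317) (nat_lit 3) (.e (nat_lit 57345) (nat_lit 0) .nil)))) .nil)))) (.nd (nat_lit 5) (.nd (nat_lit 6) 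
(.lf (nat_lit 286751) (.g (nat_lit 2655) (.e (nat_lit 286759) (nat_lit 12) (.e (nat_lit 385074) (nat_lit 31) (.e (nat_lit 573484) (nat_lit 13) (.e (nat_lit 65616) (nat_lit 10) .nil)))) .nil)) 
(.lf (nat_lit 286815) (.g (nat_lit 3618) (.e (nat_lit 286759) (nat_lit 12) (.e (nat_lit 385074) (nat_lit 31) (.e (nat_lit 573493) (nat_lit 15) (.e (nat_lit 81947) (nat_lit 20) (.e (nat_lit 1698) (nat_lit 117) .nil))))) .nil))) (.nd (nat_lit 6) 
(.lf (nat_lit 286783) (.g (nat_lit 2496) (.e (nat_lit 286759) (nat_lit 12) (.e (nat_lit 385074) (nat_lit 31) (.e (nat_lit 573485) (nat_lit 13) (.e (nat_lit 65619) (nat_lit 10) (.e (nat_lit 344115) (nat_lit 20) (.e (nat_lit 515840) (nat_lit 6) .nil)))))) (.g (nat_lit 5) .nil .nil))) 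
(.lf (nat_lit 286847) (.g (nat_lit 3200) (.e (nat_lit 286759) (nat_lit 12) (.e (nat_lit 385094) (nat_lit 49) (.e (nat_lit 778318) (nat_lit 3) (.e (nat_lit 57347) (nat_lit 0) (.e (nat_lit 6329) (nat_lit 337) .nil))))) .nil)))))))))

noncomputable def tv3635 : DT := (.nd (nat_lit 0) (.nd (nat_lit 1) (.nd (nat_lit 2) (.nd (nat_lit 3) (.nd (nat_lit 4) (.nd (nat_lit 5) 
(.lf (nat_lit 286848) (.g (nat_lit 2200) (.e (nat_lit 286759) (nat_lit 12) (.e (nat_lit 385094) (nat_lit 49) (.e (nat_lit 778318) (nat_lit 3) (.e (nat_lit 57350) (nat_lit 0) .nil)))) .nil)) 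
(.lf (nat_lit 286880) (.g (nat_lit 1174) (.e (nat_lit 286759) (nat_lit 12) (.e (nat_lit 385106) (nat_lit 50) (.e (nat_lit 786480) (nat_lit 29) (.e (nat_lit 352265) (nat_lit 0) .nil)))) .nil))) (.nd (nat_lit 5) 
(.lf (nat_lit 286864) (.g (nat_lit 3288) (.e (nat_lit 286759) (nat_lit 12) (.e (nat_lit 385094) (nat_lit 49) (.e (nat_lit 778326) (nat_lit 6) (.e (nat_lit 81939) (nat_lit 20) (.e (nat_lit 1967) (nat_lit 135) (.e (nat_lit 647203) (nat_lit 14) (.e (nat_lit 1349) (nat_lit 102) .nil))))))) (.g (nat_lit 0) .nil .nil))) 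
(.lf (nat_lit 286896) (.g (nat_lit 2108) (.e (nat_lit 286759) (nat_lit 12) (.e (nat_lit 385106) (nat_lit 50) (.e (nat_lit 786483) (nat_lit 30) (.e (nat_lit 360450) (nat_lit 0) (.e (nat_lit 5557) (nat_lit 307) (.e (nat_lit 8304) (nat_lit 58) .nil)))))) (.g (nat_lit 4) .nil .nil))))) (.nd (nat_lit 4) (.nd (nat_lit 5) 
(.lf (nat_lit 286856) (.g (nat_lit 2419) (.e (nat_lit 286759) (nat_lit 12) (.e (nat_lit 385094) (nat_lit 49) (.e (nat_lit 778318) (nat_lit 3) (.e (nat_lit 57354) (nat_lit 0) (.e (nat_lit 6321) (nat_lit 337) .nil))))) .nil)) 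
(.lf (nat_lit 286888) (.g (nat_lit 922) (.e (nat_lit 286759) (nat_lit 12) (.e (nat_lit 385106) (nat_lit 50) (.e (nat_lit 786481) (nat_lit 30) (.e (nat_lit 368384) (nat_lit 17) .nil)))) .nil))) (.nd (nat_lit 5) 
(.lf (nat_lit 286872) (.g (nat_lit 1517) (.e (nat_lit 286759) (nat_lit 12) (.e (nat_lit 385106) (nat_lit 50) (.e (nat_lit 786467) (nat_lit 27) (.e (nat_lit 336205) (nat_lit 12) (.e (nat_lit 385115) (nat_lit 53) (.e (nat_lit 818944) (nat_lit 7) .nil)))))) (.g (nat_lit 4) .nil .nil))) 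
(.lf (nat_lit 286904) (.g (nat_lit 2362) (.e (nat_lit 286759) (nat_lit 12) (.e (nat_lit 385106) (nat_lit 50) (.e (nat_lit 786483) (nat_lit 30) (.e (nat_lit 360451) (nat_lit 0) (.e (nat_lit 5429) (nat_lit 306) (.e (nat_lit 54) (nat_lit 0) (.e (nat_lit 7936) (nat_lit 102) .nil))))))) (.g (nat_lit 6) .nil .nil)))))) (.nd (nat_lit 3) (.nd (nat_lit 4) (.nd (nat_lit 5) 
(.lf (nat_lit 286852) (.g (nat_lit 2416) (.e (nat_lit 286759) (nat_lit 12) (.e (nat_lit 385094) (nat_lit 49) (.e (nat_lit 778318) (nat_lit 3) (.e (nat_lit 57354) (nat_lit 0) (.e (nat_lit 6308) (nat_lit 337) .nil))))) .nil)) 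
(.lf (nat_lit 286884) (.g (nat_lit 985) (.e (nat_lit 286759) (nat_lit 12) (.e (nat_lit 385106) (nat_lit 50) (.e (nat_lit 786481) (nat_lit 30) (.e (nat_lit 360482) (nat_lit 15) .nil)))) .nil))) (.nd (nat_lit 5) 
(.lf (nat_lit 286868) (.g (nat_lit 1946) (.e (nat_lit 286759) (nat_lit 12) (.e (nat_lit 385094) (nat_lit 49) (.e (nat_lit 778327) (nat_lit 6) (.e (nat_lit 81922) (nat_lit 0) (.e (nat_lit 3806) (nat_lit 231) (.e (nat_lit 818944) (nat_lit 7) .nil)))))) (.g (nat_lit 5) .nil .nil))) 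
(.lf (nat_lit 286900) (.g (nat_lit 1704) (.e (nat_lit 286759) (nat_lit 12) (.e (nat_lit 385106) (nat_lit 50) (.e (nat_lit 786483) (nat_lit 30) (.e (nat_lit 360451) (nat_lit 0) (.e (nat_lit 5429) (nat_lit 306) .nil))))) .nil)))) (.nd (nat_lit 4) (.nd (nat_lit 5) 
(.lf (nat_lit 286860) (.g (nat_lit 2200) (.e (nat_lit 286759) (nat_lit 12) (.e (nat_lit 385094) (nat_lit 49) (.e (nat_lit 778318) (nat_lit 3) (.e (nat_lit 65280) (nat_lit 44) .nil)))) .nil)) 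
(.lf (nat_lit 286892) (.g (nat_lit 2099) (.e (nat_lit 286759) (nat_lit 12) (.e (nat_lit 385106) (nat_lit 50) (.e (nat_lit 786483) (nat_lit 30) (.e (nat_lit 360450) (nat_lit 0) (.e (nat_lit 5429) (nat_lit 306) .nil))))) .nil))) (.nd (nat_lit 5) 
(.lf (nat_lit 286876) (.g (nat_lit 574) (.e (nat_lit 286759) (nat_lit 12) (.e (nat_lit 385106) (nat_lit 50) (.e (nat_lit 786479) (nat_lit 29) .nil))) .nil)) 
(.lf (nat_lit 286908) (.g (nat_lit 2118) (.e (nat_lit 286759) (nat_lit 12) (.e (nat_lit 385106) (nat_lit 50) (.e (nat_lit 786483) (nat_lit 30) (.e (nat_lit 360451) (nat_lit 0) (.e (nat_lit 5429) (nat_lit 306) (.e (nat_lit 79) (nat_lit 0) (.e (nat_lit 7936) (nat_lit 102) .nil))))))) (.g (nat_lit 6) .nil .nil))))))) (.nd (nat_lit 2) (.nd (nat_lit 3) (.nd (nat_lit 4) (.nd (nat_lit 5) 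
(.lf (nat_lit 286850) (.g (nat_lit 2419) (.e (nat_lit 286759) (nat_lit 12) (.e (nat_lit 385094) (nat_lit 49) (.e (nat_lit 778318) (nat_lit 3) (.e (nat_lit 57354) (nat_lit 0) (.e (nat_lit 6264) (nat_lit 337) .nil))))) .nil)) 
(.lf (nat_lit 286882) (.g (nat_lit 1075) (.e (nat_lit 286759) (nat_lit 12) (.e (nat_lit 385106) (nat_lit 50) (.e (nat_lit 786481) (nat_lit 30) (.e (nat_lit 360449) (nat_lit 0) .nil)))) .nil))) (.nd (nat_lit 5) 
(.lf (nat_lit 286866) (.g (nat_lit 3378) (.e (nat_lit 286759) (nat_lit 12) (.e (nat_lit 385094) (nat_lit 49) (.e (nat_lit 778326) (nat_lit 6) (.e (nat_lit 81943) (nat_lit 20) (.e (nat_lit 1968) (nat_lit 135) (.e (nat_lit 647203) (nat_lit 14) (.e (nat_lit 1349) (nat_lit 102) .nil))))))) (.g (nat_lit 0) .nil .nil))) 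
(.lf (nat_lit 286898) (.g (nat_lit 1627) (.e (nat_lit 286759) (nat_lit 12) (.e (nat_lit 385106) (nat_lit 50) (.e (nat_lit 786483) (nat_lit 30) (.e (nat_lit 360450) (nat_lit 0) (.e (nat_lit 7936) (nat_lit 307) .nil))))) .nil)))) (.nd (nat_lit 4) (.nd (nat_lit 5) 
(.lf (nat_lit 286858) (.g (nat_lit 2308) (.e (nat_lit 286759) (nat_lit 12) (.e (nat_lit 385094) (nat_lit 49) (.e (nat_lit 778318) (nat_lit 3) (.e (nat_lit 57521) (nat_lit 44) (.e (nat_lit 688176) (nat_lit 16) .nil))))) .nil)) 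
(.lf (nat_lit 286890) (.g (nat_lit 1369) (.e (nat_lit 286759) (nat_lit 12) (.e (nat_lit 385106) (nat_lit 50) (.e (nat_lit 786483) (nat_lit 30) (.e (nat_lit 360448) (nat_lit 0) .nil)))) .nil))) (.nd (nat_lit 5) 
(.lf (nat_lit 286874) (.g (nat_lit 2278) (.e (nat_lit 286759) (nat_lit 12) (.e (nat_lit 385106) (nat_lit 50) (.e (nat_lit 786478) (nat_lit 29) (.e (nat_lit 352261) (nat_lit 0) (.e (nat_lit 3801) (nat_lit 231) (.e (nat_lit 818944) (nat_lit 7) .nil)))))) (.g (nat_lit 5) .nil .nil))) 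
(.lf (nat_lit 286906) (.g (nat_lit 1816) (.e (nat_lit 286759) (nat_lit 12) (.e (nat_lit 385106) (nat_lit 50) (.e (nat_lit 786483) (nat_lit 30) (.e (nat_lit 360451) (nat_lit 0) (.e (nat_lit 5429) (nat_lit 306) (.e (nat_lit 66) (nat_lit 0) (.e (nat_lit 7936) (nat_lit 102) .nil))))))) (.g (nat_lit 4) .nil .nil)))))) (.nd (nat_lit 3) (.nd (nat_lit 4) (.nd (nat_lit 5) 
(.lf (nat_lit 286854) (.g (nat_lit 2419) (.e (nat_lit 286759) (nat_lit 12) (.e (nat_lit 385094) (nat_lit 49) (.e (nat_lit 778318) (nat_lit 3) (.e (nat_lit 57354) (nat_lit 0) (.e (nat_lit 6320) (nat_lit 337) .nil))))) .nil)) 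
(.lf (nat_lit 286886) (.g (nat_lit 2430) (.e (nat_lit 286759) (nat_lit 12) (.e (nat_lit 385106) (nat_lit 50) (.e (nat_lit 786481) (nat_lit 30) (.e (nat_lit 360482) (nat_lit 15) (.e (nat_lit 647203) (nat_lit 14) (.e (nat_lit 1355) (nat_lit 102) .nil)))))) (.g (nat_lit 4) .nil .nil)))) (.nd (nat_lit 5) 
(.lf (nat_lit 286870) (.g (nat_lit 423) (.e (nat_lit 286759) (nat_lit 12) (.e (nat_lit 385094) (nat_lit 49) (.e (nat_lit 778445) (nat_lit 9) .nil))) .nil)) 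
(.lf (nat_lit 286902) (.g (nat_lit 2388) (.e (nat_lit 286759) (nat_lit 12) (.e (nat_lit 385106) (nat_lit 50) (.e (nat_lit 786483) (nat_lit 30) (.e (nat_lit 360451) (nat_lit 0) (.e (nat_lit 5429) (nat_lit 306) (.e (nat_lit 36) (nat_lit 0) (.e (nat_lit 7936) (nat_lit 102) .nil))))))) (.g (nat_lit 6) .nil .nil))))) (.nd (nat_lit 4) (.nd (nat_lit 5) 
(.lf (nat_lit 286862) (.g (nat_lit 1978) (.e (nat_lit 286759) (nat_lit 12) (.e (nat_lit 385094) (nat_lit 49) (.e (nat_lit 778326) (nat_lit 6) (.e (nat_lit 81924) (nat_lit 0) (.e (nat_lit 3806) (nat_lit 231) (.e (nat_lit 818944) (nat_lit 7) .nil)))))) (.g (nat_lit 5) .nil .nil))) 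
(.lf (nat_lit 286894) (.g (nat_lit 2111) (.e (nat_lit 286759) (nat_lit 12) (.e (nat_lit 385106) (nat_lit 50) (.e (nat_lit 786483) (nat_lit 30) (.e (nat_lit 360450) (nat_lit 0) (.e (nat_lit 5456) (nat_lit 306) .nil))))) .nil))) (.nd (nat_lit 5) 
(.lf (nat_lit 286878) (.g (nat_lit 1974) (.e (nat_lit 286759) (nat_lit 12) (.e (nat_lit 385106) (nat_lit 50) (.e (nat_lit 786480) (nat_lit 29) (.e (nat_lit 352261) (nat_lit 0) (.e (nat_lit 3801) (nat_lit 231) (.e (nat_lit 818944) (nat_lit 7) .nil)))))) (.g (nat_lit 4) .nil .nil))) 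
(.lf (nat_lit 286910) (.g (nat_lit 1818) (.e (nat_lit 286759) (nat_lit 12) (.e (nat_lit 385106) (nat_lit 50) (.e (nat_lit 786483) (nat_lit 30) (.e (nat_lit 360451) (nat_lit 0) (.e (nat_lit 5429) (nat_lit 306) (.e (nat_lit 83) (nat_lit 0) (.e (nat_lit 7936) (nat_lit 102) .nil))))))) (.g (nat_lit 4) .nil .nil)))))))) 
(.nd (nat_lit 1) (.nd (nat_lit 2) (.nd (nat_lit 3) (.nd (nat_lit 4) (.nd (nat_lit 5) 
(.lf (nat_lit 286849) (.g (nat_lit 1525) (.e (nat_lit 286759) (nat_lit 12) (.e (nat_lit 385094) (nat_lit 49) (.e (nat_lit 778318) (nat_lit 3) (.e (nat_lit 57354) (nat_lit 0) .nil)))) .nil)) 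
(.lf (nat_lit 286881) (.g (nat_lit 253) (.e (nat_lit 286759) (nat_lit 12) (.e (nat_lit 385106) (nat_lit 50) (.e (nat_lit 786481) (nat_lit 30) .nil))) .nil))) (.nd (nat_lit 5) 
(.lf (nat_lit 286865) (.g (nat_lit 3469) (.e (nat_lit 286759) (nat_lit 12) (.e (nat_lit 385094) (nat_lit 49) (.e (nat_lit 778326) (nat_lit 6) (.e (nat_lit 81939) (nat_lit 20) (.e (nat_lit 1968) (nat_lit 135) (.e (nat_lit 647203) (nat_lit 14) (.e (nat_lit 1349) (nat_lit 102) .nil))))))) (.g (nat_lit 0) .nil .nil))) 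
(.lf (nat_lit 286897) (.g (nat_lit 2646) (.e (nat_lit 286759) (nat_lit 12) (.e (nat_lit 385106) (nat_lit 50) (.e (nat_lit 786483) (nat_lit 30) (.e (nat_lit 360450) (nat_lit 0) (.e (nat_lit 5557) (nat_lit 307) (.e (nat_lit 8305) (nat_lit 58) .nil)))))) (.g (nat_lit 4) .nil .nil))))) (.nd (nat_lit 4) (.nd (nat_lit 5) 
(.lf (nat_lit 286857) (.g (nat_lit 2646) (.e (nat_lit 286759) (nat_lit 12) (.e (nat_lit 385094) (nat_lit 49) (.e (nat_lit 778318) (nat_lit 3) (.e (nat_lit 57354) (nat_lit 0) (.e (nat_lit 6321) (nat_lit 337) (.e (nat_lit 1187) (nat_lit 88) (.e (nat_lit 65586) (nat_lit 7) (.e (nat_lit 319531) (nat_lit 16) .nil)))))))) (.g (nat_lit 4) .nil .nil))) 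
(.lf (nat_lit 286889) (.g (nat_lit 490) (.e (nat_lit 286759) (nat_lit 12) (.e (nat_lit 385106) (nat_lit 50) (.e (nat_lit 786482) (nat_lit 30) .nil))) .nil))) (.nd (nat_lit 5) 
(.lf (nat_lit 286873) (.g (nat_lit 509) (.e (nat_lit 286759) (nat_lit 12) (.e (nat_lit 385106) (nat_lit 50) (.e (nat_lit 786473) (nat_lit 27) .nil))) .nil)) 
(.lf (nat_lit 286905) (.g (nat_lit 2111) (.e (nat_lit 286759) (nat_lit 12) (.e (nat_lit 385106) (nat_lit 50) (.e (nat_lit 786483) (nat_lit 30) (.e (nat_lit 360451) (nat_lit 0) (.e (nat_lit 5429) (nat_lit 306) (.e (nat_lit 63) (nat_lit 0) (.e (nat_lit 7936) (nat_lit 102) .nil))))))) (.g (nat_lit 6) .nil .nil)))))) (.nd (nat_lit 3) (.nd (nat_lit 4) (.nd (nat_lit 5) 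
(.lf (nat_lit 286853) (.g (nat_lit 2878) (.e (nat_lit 286759) (nat_lit 12) (.e (nat_lit 385094) (nat_lit 49) (.e (nat_lit 778318) (nat_lit 3) (.e (nat_lit 57354) (nat_lit 0) (.e (nat_lit 6319) (nat_lit 337) (.e (nat_lit 1187) (nat_lit 88) (.e (nat_lit 65586) (nat_lit 7) (.e (nat_lit 319531) (nat_lit 16) .nil)))))))) (.g (nat_lit 4) .nil .nil))) 
(.lf (nat_lit 286885) (.g (nat_lit 2732) (.e (nat_lit 286759) (nat_lit 12) (.e (nat_lit 385106) (nat_lit 50) (.e (nat_lit 786481) (nat_lit 30) (.e (nat_lit 360482) (nat_lit 15) (.e (nat_lit 647203) (nat_lit 14) (.e (nat_lit 1347) (nat_lit 102) .nil)))))) (.g (nat_lit 5) .nil .nil)))) (.nd (nat_lit 5) 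
(.lf (nat_lit 286869) (.g (nat_lit 662) (.e (nat_lit 286759) (nat_lit 12) (.e (nat_lit 385094) (nat_lit 49) (.e (nat_lit 778336) (nat_lit 9) .nil))) .nil)) 
(.lf (nat_lit 286901) (.g (nat_lit 2388) (.e (nat_lit 286759) (nat_lit 12) (.e (nat_lit 385106) (nat_lit 50) (.e (nat_lit 786483) (nat_lit 30) (.e (nat_lit 360451) (nat_lit 0) (.e (nat_lit 5429) (nat_lit 306) (.e (nat_lit 34) (nat_lit 0) (.e (nat_lit 7936) (nat_lit 102) .nil))))))) (.g (nat_lit 6) .nil .nil))))) (.nd (nat_lit 4) (.nd (nat_lit 5) 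
(.lf (nat_lit 286861) (.g (nat_lit 2200) (.e (nat_lit 286759) (nat_lit 12) (.e (nat_lit 385094) (nat_lit 49) (.e (nat_lit 778318) (nat_lit 3) (.e (nat_lit 57523) (nat_lit 45) .nil)))) .nil)) 
(.lf (nat_lit 286893) (.g (nat_lit 2099) (.e (nat_lit 286759) (nat_lit 12) (.e (nat_lit 385106) (nat_lit 50) (.e (nat_lit 786483) (nat_lit 30) (.e (nat_lit 360450) (nat_lit 0) (.e (nat_lit 5441) (nat_lit 306) .nil))))) .nil))) (.nd (nat_lit 5) 
(.lf (nat_lit 286877) (.g (nat_lit 1528) (.e (nat_lit 286759) (nat_lit 12) (.e (nat_lit 385106) (nat_lit 50) (.e (nat_lit 786480) (nat_lit 29) (.e (nat_lit 352257) (nat_lit 0) .nil)))) .nil)) 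
(.lf (nat_lit 286909) (.g (nat_lit 2010) (.e (nat_lit 286759) (nat_lit 12) (.e (nat_lit 385106) (nat_lit 50) (.e (nat_lit 786483) (nat_lit 30) (.e (nat_lit 360451) (nat_lit 0) (.e (nat_lit 5429) (nat_lit 306) (.e (nat_lit 81) (nat_lit 0) (.e (nat_lit 7936) (nat_lit 102) .nil))))))) (.g (nat_lit 5) .nil .nil))))))) (.nd (nat_lit 2) (.nd (nat_lit 3) (.nd (nat_lit 4) (.nd (nat_lit 5) 
(.lf (nat_lit 286851) (.g (nat_lit 2419) (.e (nat_lit 286759) (nat_lit 12) (.e (nat_lit 385094) (nat_lit 49) (.e (nat_lit 778318) (nat_lit 3) (.e (nat_lit 57354) (nat_lit 0) (.e (nat_lit 6298) (nat_lit 337) .nil))))) .nil)) 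
(.lf (nat_lit 286883) (.g (nat_lit 1229) (.e (nat_lit 286759) (nat_lit 12) (.e (nat_lit 385106) (nat_lit 50) (.e (nat_lit 786481) (nat_lit 30) (.e (nat_lit 360455) (nat_lit 0) .nil)))) .nil))) (.nd (nat_lit 5) 
(.lf (nat_lit 286867) (.g (nat_lit 252) (.e (nat_lit 286759) (nat_lit 12) (.e (nat_lit 385094) (nat_lit 49) (.e (nat_lit 778327) (nat_lit 6) .nil))) .nil)) 
(.lf (nat_lit 286899) (.g (nat_lit 853) (.e (nat_lit 286759) (nat_lit 12) (.e (nat_lit 385106) (nat_lit 50) (.e (nat_lit 786483) (nat_lit 30) (.e (nat_lit 360451) (nat_lit 0) .nil)))) .nil)))) (.nd (nat_lit 4) (.nd (nat_lit 5) 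
(.lf (nat_lit 286859) (.g (nat_lit 2110) (.e (nat_lit 286759) (nat_lit 12) (.e (nat_lit 385094) (nat_lit 49) (.e (nat_lit 778318) (nat_lit 3) (.e (nat_lit 57521) (nat_lit 44) (.e (nat_lit 688178) (nat_lit 16) .nil))))) .nil)) 
(.lf (nat_lit 286891) (.g (nat_lit 1045) (.e (nat_lit 286759) (nat_lit 12) (.e (nat_lit 385106) (nat_lit 50) (.e (nat_lit 786483) (nat_lit 30) (.e (nat_lit 360450) (nat_lit 0) .nil)))) .nil))) (.nd (nat_lit 5) 
(.lf (nat_lit 286875) (.g (nat_lit 2327) (.e (nat_lit 286759) (nat_lit 12) (.e (nat_lit 385106) (nat_lit 50) (.e (nat_lit 786478) (nat_lit 29) (.e (nat_lit 352262) (nat_lit 0) (.e (nat_lit 3806) (nat_lit 231) (.e (nat_lit 818944) (nat_lit 7) .nil)))))) (.g (nat_lit 4) .nil .nil))) 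
(.lf (nat_lit 286907) (.g (nat_lit 2010) (.e (nat_lit 286759) (nat_lit 12) (.e (nat_lit 385106) (nat_lit 50) (.e (nat_lit 786483) (nat_lit 30) (.e (nat_lit 360451) (nat_lit 0) (.e (nat_lit 5429) (nat_lit 306) (.e (nat_lit 67) (nat_lit 0) (.e (nat_lit 7936) (nat_lit 102) .nil))))))) (.g (nat_lit 5) .nil .nil)))))) (.nd (nat_lit 3) (.nd (nat_lit 4) (.nd (nat_lit 5) 
(.lf (nat_lit 286855) (.g (nat_lit 2764) (.e (nat_lit 286759) (nat_lit 12) (.e (nat_lit 385094) (nat_lit 49) (.e (nat_lit 778318) (nat_lit 3) (.e (nat_lit 57354) (nat_lit 0) (.e (nat_lit 6320) (nat_lit 337) (.e (nat_lit 1187) (nat_lit 88) (.e (nat_lit 65586) (nat_lit 7) (.e (nat_lit 319531) (nat_lit 16) .nil)))))))) (.g (nat_lit 4) .nil .nil))) 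
(.lf (nat_lit 286887) (.g (nat_lit 1513) (.e (nat_lit 286759) (nat_lit 12) (.e (nat_lit 385106) (nat_lit 50) (.e (nat_lit 786481) (nat_lit 30) (.e (nat_lit 360482) (nat_lit 15) (.e (nat_lit 647205) (nat_lit 14) (.e (nat_lit 7936) (nat_lit 102) .nil)))))) (.g (nat_lit 4) .nil .nil)))) (.nd (nat_lit 5) 
(.lf (nat_lit 286871) (.g (nat_lit 1651) (.e (nat_lit 286759) (nat_lit 12) (.e (nat_lit 385106) (nat_lit 50) (.e (nat_lit 786467) (nat_lit 27) (.e (nat_lit 336205) (nat_lit 12) (.e (nat_lit 385114) (nat_lit 53) (.e (nat_lit 818944) (nat_lit 7) .nil)))))) (.g (nat_lit 4) .nil .nil))) 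
(.lf (nat_lit 286903) (.g (nat_lit 2205) (.e (nat_lit 286759) (nat_lit 12) (.e (nat_lit 385106) (nat_lit 50) (.e (nat_lit 786483) (nat_lit 30) (.e (nat_lit 360451) (nat_lit 0) (.e (nat_lit 5429) (nat_lit 306) (.e (nat_lit 50) (nat_lit 0) (.e (nat_lit 7936) (nat_lit 102) .nil))))))) (.g (nat_lit 6) .nil .nil))))) (.nd (nat_lit 4) (.nd (nat_lit 5) 
(.lf (nat_lit 286863) (.g (nat_lit 3634) (.e (nat_lit 286759) (nat_lit 12) (.e (nat_lit 385094) (nat_lit 49) (.e (nat_lit 778326) (nat_lit 6) (.e (nat_lit 81938) (nat_lit 20) (.e (nat_lit 1968) (nat_lit 135) (.e (nat_lit 647203) (nat_lit 14) (.e (nat_lit 1349) (nat_lit 102) .nil))))))) (.g (nat_lit 0) .nil .nil))) 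
(.lf (nat_lit 286895) (.g (nat_lit 2254) (.e (nat_lit 286759) (nat_lit 12) (.e (nat_lit 385106) (nat_lit 50) (.e (nat_lit 786483) (nat_lit 30) (.e (nat_lit 360450) (nat_lit 0) (.e (nat_lit 5557) (nat_lit 307) (.e (nat_lit 8303) (nat_lit 58) .nil)))))) (.g (nat_lit 4) .nil .nil)))) (.nd (nat_lit 5) 
(.lf (nat_lit 286879) (.g (nat_lit 2647) (.e (nat_lit 286759) (nat_lit 12) (.e (nat_lit 385106) (nat_lit 50) (.e (nat_lit 786480) (nat_lit 29) (.e (nat_lit 352262) (nat_lit 0) (.e (nat_lit 3806) (nat_lit 231) (.e (nat_lit 818944) (nat_lit 7) .nil)))))) (.g (nat_lit 5) .nil .nil))) 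
(.lf (nat_lit 286911) (.g (nat_lit 1853) (.e (nat_lit 286759) (nat_lit 12) (.e (nat_lit 385106) (nat_lit 50) (.e (nat_lit 786483) (nat_lit 30) (.e (nat_lit 360451) (nat_lit 0) (.e (nat_lit 5439) (nat_lit 306) .nil))))) .nil))))))))

noncomputable def tv3636 : DT := (.nd (nat_lit 0) (.nd (nat_lit 1) (.nd (nat_lit 2) (.nd (nat_lit 3) (.nd (nat_lit 4) (.nd (nat_lit 5) 
(.lf (nat_lit 286912) (.g (nat_lit 1748) (.e (nat_lit 286759) (nat_lit 12) (.e (nat_lit 385106) (nat_lit 50) (.e (nat_lit 786483) (nat_lit 30) (.e (nat_lit 360451) (nat_lit 0) (.e (nat_lit 5440) (nat_lit 306) .nil))))) .nil)) 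
(.lf (nat_lit 286944) (.g (nat_lit 1990) (.e (nat_lit 286759) (nat_lit 12) (.e (nat_lit 385106) (nat_lit 50) (.e (nat_lit 786483) (nat_lit 30) (.e (nat_lit 360486) (nat_lit 18) (.e (nat_lit 671786) (nat_lit 14) (.e (nat_lit 7936) (nat_lit 178) .nil)))))) (.g (nat_lit 4) .nil .nil)))) (.nd (nat_lit 5) 
(.lf (nat_lit 286928) (.g (nat_lit 1823) (.e (nat_lit 286759) (nat_lit 12) (.e (nat_lit 385106) (nat_lit 50) (.e (nat_lit 786483) (nat_lit 30) (.e (nat_lit 360483) (nat_lit 15) (.e (nat_lit 647205) (nat_lit 14) (.e (nat_lit 7936) (nat_lit 102) .nil)))))) (.g (nat_lit 5) .nil .nil))) 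
(.lf (nat_lit 286960) (.g (nat_lit 1173) (.e (nat_lit 286759) (nat_lit 12) (.e (nat_lit 385109) (nat_lit 51) (.e (nat_lit 794682) (nat_lit 25) (.e (nat_lit 229120) (nat_lit 11) .nil)))) .nil)))) (.nd (nat_lit 4) (.nd (nat_lit 5) 
(.lf (nat_lit 286920) (.g (nat_lit 2395) (.e (nat_lit 286759) (nat_lit 12) (.e (nat_lit 385106) (nat_lit 50) (.e (nat_lit 786483) (nat_lit 30) (.e (nat_lit 360451) (nat_lit 0) (.e (nat_lit 5557) (nat_lit 307) (.e (nat_lit 8303) (nat_lit 58) .nil)))))) (.g (nat_lit 4) .nil .nil))) 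
(.lf (nat_lit 286952) (.g (nat_lit 343) (.e (nat_lit 286759) (nat_lit 12) (.e (nat_lit 385107) (nat_lit 51) (.e (nat_lit 794682) (nat_lit 25) .nil))) .nil))) (.nd (nat_lit 5) 
(.lf (nat_lit 286936) (.g (nat_lit 1996) (.e (nat_lit 286759) (nat_lit 12) (.e (nat_lit 385106) (nat_lit 50) (.e (nat_lit 786483) (nat_lit 30) (.e (nat_lit 360484) (nat_lit 15) (.e (nat_lit 655104) (nat_lit 14) (.e (nat_lit 1347) (nat_lit 102) .nil)))))) (.g (nat_lit 4) .nil .nil))) 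
(.lf (nat_lit 286968) (.g (nat_lit 2939) (.e (nat_lit 286759) (nat_lit 12) (.e (nat_lit 385114) (nat_lit 53) (.e (nat_lit 811045) (nat_lit 14) (.e (nat_lit 40997) (nat_lit 11) (.e (nat_lit 24617) (nat_lit 7) (.e (nat_lit 319532) (nat_lit 16) .nil)))))) (.g (nat_lit 0) .nil .nil)))))) (.nd (nat_lit 3) (.nd (nat_lit 4) (.nd (nat_lit 5) 
(.lf (nat_lit 286916) (.g (nat_lit 2021) (.e (nat_lit 286759) (nat_lit 12) (.e (nat_lit 385106) (nat_lit 50) (.e (nat_lit 786483) (nat_lit 30) (.e (nat_lit 360451) (nat_lit 0) (.e (nat_lit 5444) (nat_lit 306) (.e (nat_lit 54) (nat_lit 0) (.e (nat_lit 7936) (nat_lit 102) .nil))))))) (.g (nat_lit 4) .nil .nil))) 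
(.lf (nat_lit 286948) (.g (nat_lit 1729) (.e (nat_lit 286759) (nat_lit 12) (.e (nat_lit 385106) (nat_lit 50) (.e (nat_lit 786485) (nat_lit 32) (.e (nat_lit 376835) (nat_lit 0) (.e (nat_lit 3806) (nat_lit 231) (.e (nat_lit 818944) (nat_lit 7) .nil)))))) (.g (nat_lit 4) .nil .nil)))) (.nd (nat_lit 5) 
(.lf (nat_lit 286932) (.g (nat_lit 1869) (.e (nat_lit 286759) (nat_lit 12) (.e (nat_lit 385106) (nat_lit 50) (.e (nat_lit 786483) (nat_lit 30) (.e (nat_lit 360484) (nat_lit 15) (.e (nat_lit 647204) (nat_lit 14) (.e (nat_lit 7936) (nat_lit 102) .nil)))))) (.g (nat_lit 5) .nil .nil))) 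
(.lf (nat_lit 286964) (.g (nat_lit 2558) (.e (nat_lit 286759) (nat_lit 12) (.e (nat_lit 385113) (nat_lit 53) (.e (nat_lit 811045) (nat_lit 14) (.e (nat_lit 40995) (nat_lit 11) (.e (nat_lit 24617) (nat_lit 7) (.e (nat_lit 319531) (nat_lit 16) .nil)))))) (.g (nat_lit 0) .nil .nil))))) (.nd (nat_lit 4) (.nd (nat_lit 5) 
(.lf (nat_lit 286924) (.g (nat_lit 1372) (.e (nat_lit 286759) (nat_lit 12) (.e (nat_lit 385106) (nat_lit 50) (.e (nat_lit 786483) (nat_lit 30) (.e (nat_lit 360482) (nat_lit 15) .nil)))) .nil)) 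
(.lf (nat_lit 286956) (.g (nat_lit 301) (.e (nat_lit 286759) (nat_lit 12) (.e (nat_lit 385107) (nat_lit 51) (.e (nat_lit 794684) (nat_lit 25) .nil))) .nil))) (.nd (nat_lit 5) 
(.lf (nat_lit 286940) (.g (nat_lit 1378) (.e (nat_lit 286759) (nat_lit 12) (.e (nat_lit 385106) (nat_lit 50) (.e (nat_lit 786483) (nat_lit 30) (.e (nat_lit 360485) (nat_lit 16) .nil)))) .nil)) 
(.lf (nat_lit 286972) (.g (nat_lit 3051) (.e (nat_lit 286759) (nat_lit 12) (.e (nat_lit 385115) (nat_lit 53) (.e (nat_lit 811045) (nat_lit 14) (.e (nat_lit 40997) (nat_lit 11) (.e (nat_lit 24617) (nat_lit 7) (.e (nat_lit 319531) (nat_lit 16) .nil)))))) (.g (nat_lit 0) .nil .nil))))))) (.nd (nat_lit 2) (.nd (nat_lit 3) (.nd (nat_lit 4) (.nd (nat_lit 5) 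
(.lf (nat_lit 286914) (.g (nat_lit 1736) (.e (nat_lit 286759) (nat_lit 12) (.e (nat_lit 385106) (nat_lit 50) (.e (nat_lit 786483) (nat_lit 30) (.e (nat_lit 360451) (nat_lit 0) (.e (nat_lit 5441) (nat_lit 306) .nil))))) .nil)) 
(.lf (nat_lit 286946) (.g (nat_lit 2282) (.e (nat_lit 286759) (nat_lit 12) (.e (nat_lit 385106) (nat_lit 50) (.e (nat_lit 786483) (nat_lit 30) (.e (nat_lit 360486) (nat_lit 18) (.e (nat_lit 671788) (nat_lit 14) (.e (nat_lit 7936) (nat_lit 178) .nil)))))) (.g (nat_lit 4) .nil .nil)))) (.nd (nat_lit 5) 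
(.lf (nat_lit 286930) (.g (nat_lit 3816) (.e (nat_lit 286759) (nat_lit 12) (.e (nat_lit 385106) (nat_lit 50) (.e (nat_lit 786483) (nat_lit 30) (.e (nat_lit 360484) (nat_lit 15) (.e (nat_lit 647203) (nat_lit 14) (.e (nat_lit 1348) (nat_lit 102) .nil)))))) (.g (nat_lit 0) .nil .nil))) 
(.lf (nat_lit 286962) (.g (nat_lit 829) (.e (nat_lit 286759) (nat_lit 12) (.e (nat_lit 385109) (nat_lit 51) (.e (nat_lit 794684) (nat_lit 25) .nil))) .nil)))) (.nd (nat_lit 4) (.nd (nat_lit 5) 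
(.lf (nat_lit 286922) (.g (nat_lit 1494) (.e (nat_lit 286759) (nat_lit 12) (.e (nat_lit 385106) (nat_lit 50) (.e (nat_lit 786483) (nat_lit 30) (.e (nat_lit 360451) (nat_lit 0) (.e (nat_lit 5896) (nat_lit 320) .nil))))) .nil)) 
(.lf (nat_lit 286954) (.g (nat_lit 371) (.e (nat_lit 286759) (nat_lit 12) (.e (nat_lit 385107) (nat_lit 51) (.e (nat_lit 794683) (nat_lit 25) .nil))) .nil))) (.nd (nat_lit 5) 
(.lf (nat_lit 286938) (.g (nat_lit 2130) (.e (nat_lit 286759) (nat_lit 12) (.e (nat_lit 385106) (nat_lit 50) (.e (nat_lit 786483) (nat_lit 30) (.e (nat_lit 360484) (nat_lit 15) (.e (nat_lit 655104) (nat_lit 14) (.e (nat_lit 1363) (nat_lit 102) .nil)))))) (.g (nat_lit 4) .nil .nil))) 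
(.lf (nat_lit 286970) (.g (nat_lit 804) (.e (nat_lit 286759) (nat_lit 12) (.e (nat_lit 385115) (nat_lit 53) (.e (nat_lit 818944) (nat_lit 7) (.e (nat_lit 286759) (nat_lit 12) (.e (nat_lit 385115) (nat_lit 53) (.e (nat_lit 818944) (nat_lit 7) .nil)))))) (.g (nat_lit 5) .nil .nil)))))) (.nd (nat_lit 3) (.nd (nat_lit 4) (.nd (nat_lit 5) 
(.lf (nat_lit 286918) (.g (nat_lit 1732) (.e (nat_lit 286759) (nat_lit 12) (.e (nat_lit 385106) (nat_lit 50) (.e (nat_lit 786483) (nat_lit 30) (.e (nat_lit 360451) (nat_lit 0) (.e (nat_lit 5470) (nat_lit 306) .nil))))) .nil)) 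
(.lf (nat_lit 286950) (.g (nat_lit 1830) (.e (nat_lit 286759) (nat_lit 12) (.e (nat_lit 385107) (nat_lit 51) (.e (nat_lit 794675) (nat_lit 24) (.e (nat_lit 213032) (nat_lit 11) (.e (nat_lit 24617) (nat_lit 7) .nil))))) .nil))) (.nd (nat_lit 5) 
(.lf (nat_lit 286934) (.g (nat_lit 1536) (.e (nat_lit 286759) (nat_lit 12) (.e (nat_lit 385106) (nat_lit 50) (.e (nat_lit 786483) (nat_lit 30) (.e (nat_lit 360484) (nat_lit 15) (.e (nat_lit 647206) (nat_lit 14) .nil))))) .nil)) 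
(.lf (nat_lit 286966) (.g (nat_lit 2800) (.e (nat_lit 286759) (nat_lit 12) (.e (nat_lit 385113) (nat_lit 53) (.e (nat_lit 811045) (nat_lit 14) (.e (nat_lit 40997) (nat_lit 11) (.e (nat_lit 24617) (nat_lit 7) (.e (nat_lit 319534) (nat_lit 16) .nil)))))) (.g (nat_lit 0) .nil .nil))))) (.nd (nat_lit 4) (.nd (nat_lit 5) 
(.lf (nat_lit 286926) (.g (nat_lit 1058) (.e (nat_lit 286759) (nat_lit 12) (.e (nat_lit 385106) (nat_lit 50) (.e (nat_lit 786483) (nat_lit 30) (.e (nat_lit 360483) (nat_lit 15) .nil)))) .nil)) 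
(.lf (nat_lit 286958) (.g (nat_lit 1389) (.e (nat_lit 286759) (nat_lit 12) (.e (nat_lit 385107) (nat_lit 51) (.e (nat_lit 794684) (nat_lit 25) (.e (nat_lit 221190) (nat_lit 11) (.e (nat_lit 336059) (nat_lit 7) (.e (nat_lit 327424) (nat_lit 16) .nil)))))) (.g (nat_lit 5) .nil .nil)))) (.nd (nat_lit 5) 
(.lf (nat_lit 286942) (.g (nat_lit 2281) (.e (nat_lit 286759) (nat_lit 12) (.e (nat_lit 385106) (nat_lit 50) (.e (nat_lit 786483) (nat_lit 30) (.e (nat_lit 360486) (nat_lit 18) (.e (nat_lit 671784) (nat_lit 14) (.e (nat_lit 7936) (nat_lit 178) .nil)))))) (.g (nat_lit 4) .nil .nil))) 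
(.lf (nat_lit 286974) (.g (nat_lit 994) (.e (nat_lit 286760) (nat_lit 13) (.e (nat_lit 393221) (nat_lit 0) (.e (nat_lit 7936) (nat_lit 362) (.e (nat_lit 180250) (nat_lit 10) (.e (nat_lit 573502) (nat_lit 18) .nil))))) .nil))))))) (.nd (nat_lit 1) (.nd (nat_lit 2) (.nd (nat_lit 3) (.nd (nat_lit 4) (.nd (nat_lit 5) 
(.lf (nat_lit 286913) (.g (nat_lit 2102) (.e (nat_lit 286759) (nat_lit 12) (.e (nat_lit 385106) (nat_lit 50) (.e (nat_lit 786483) (nat_lit 30) (.e (nat_lit 360451) (nat_lit 0) (.e (nat_lit 5440) (nat_lit 306) (.e (nat_lit 11) (nat_lit 0) (.e (nat_lit 1361) (nat_lit 102) .nil))))))) (.g (nat_lit 4) .nil .nil))) 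
(.lf (nat_lit 286945) (.g (nat_lit 1729) (.e (nat_lit 286759) (nat_lit 12) (.e (nat_lit 385106) (nat_lit 50) (.e (nat_lit 786483) (nat_lit 30) (.e (nat_lit 360486) (nat_lit 18) (.e (nat_lit 671787) (nat_lit 14) .nil))))) .nil))) (.nd (nat_lit 5) 
(.lf (nat_lit 286929) (.g (nat_lit 1727) (.e (nat_lit 286759) (nat_lit 12) (.e (nat_lit 385106) (nat_lit 50) (.e (nat_lit 786483) (nat_lit 30) (.e (nat_lit 360483) (nat_lit 15) (.e (nat_lit 647206) (nat_lit 14) (.e (nat_lit 7936) (nat_lit 102) .nil)))))) (.g (nat_lit 5) .nil .nil))) 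
(.lf (nat_lit 286961) (.g (nat_lit 1151) (.e (nat_lit 286759) (nat_lit 12) (.e (nat_lit 385109) (nat_lit 51) (.e (nat_lit 794683) (nat_lit 25) .nil))) .nil)))) (.nd (nat_lit 4) (.nd (nat_lit 5) 
(.lf (nat_lit 286921) (.g (nat_lit 2262) (.e (nat_lit 286759) (nat_lit 12) (.e (nat_lit 385106) (nat_lit 50) (.e (nat_lit 786483) (nat_lit 30) (.e (nat_lit 360451) (nat_lit 0) (.e (nat_lit 5557) (nat_lit 307) (.e (nat_lit 8304) (nat_lit 58) .nil)))))) (.g (nat_lit 4) .nil .nil))) 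
(.lf (nat_lit 286953) (.g (nat_lit 2062) (.e (nat_lit 286759) (nat_lit 12) (.e (nat_lit 385107) (nat_lit 51) (.e (nat_lit 794682) (nat_lit 25) (.e (nat_lit 221194) (nat_lit 11) (.e (nat_lit 335906) (nat_lit 0) (.e (nat_lit 6113) (nat_lit 332) (.e (nat_lit 1361) (nat_lit 102) .nil))))))) (.g (nat_lit 4) .nil .nil)))) (.nd (nat_lit 5) 
(.lf (nat_lit 286937) (.g (nat_lit 2222) (.e (nat_lit 286759) (nat_lit 12) (.e (nat_lit 385106) (nat_lit 50) (.e (nat_lit 786483) (nat_lit 30) (.e (nat_lit 360484) (nat_lit 15) (.e (nat_lit 655104) (nat_lit 14) (.e (nat_lit 1362) (nat_lit 102) .nil)))))) (.g (nat_lit 4) .nil .nil))) 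
(.lf (nat_lit 286969) (.g (nat_lit 1486) (.e (nat_lit 286759) (nat_lit 12) (.e (nat_lit 385115) (nat_lit 53) (.e (nat_lit 811018) (nat_lit 0) (.e (nat_lit 5277) (nat_lit 298) (.e (nat_lit 1633) (nat_lit 114) (.e (nat_lit 385115) (nat_lit 53) (.e (nat_lit 818944) (nat_lit 7) .nil))))))) (.g (nat_lit 6) .nil .nil)))))) (.nd (nat_lit 3) (.nd (nat_lit 4) (.nd (nat_lit 5) 
(.lf (nat_lit 286917) (.g (nat_lit 1834) (.e (nat_lit 286759) (nat_lit 12) (.e (nat_lit 385106) (nat_lit 50) (.e (nat_lit 786483) (nat_lit 30) (.e (nat_lit 360451) (nat_lit 0) (.e (nat_lit 5469) (nat_lit 306) .nil))))) .nil)) 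
(.lf (nat_lit 286949) (.g (nat_lit 699) (.e (nat_lit 286759) (nat_lit 12) (.e (nat_lit 385107) (nat_lit 51) (.e (nat_lit 794659) (nat_lit 21) .nil))) .nil))) (.nd (nat_lit 5) 
(.lf (nat_lit 286933) (.g (nat_lit 1854) (.e (nat_lit 286759) (nat_lit 12) (.e (nat_lit 385106) (nat_lit 50) (.e (nat_lit 786483) (nat_lit 30) (.e (nat_lit 360484) (nat_lit 15) (.e (nat_lit 647205) (nat_lit 14) (.e (nat_lit 7936) (nat_lit 102) .nil)))))) (.g (nat_lit 5) .nil .nil))) 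
(.lf (nat_lit 286965) (.g (nat_lit 2638) (.e (nat_lit 286759) (nat_lit 12) (.e (nat_lit 385113) (nat_lit 53) (.e (nat_lit 811045) (nat_lit 14) (.e (nat_lit 40997) (nat_lit 11) (.e (nat_lit 24617) (nat_lit 7) (.e (nat_lit 319528) (nat_lit 16) .nil)))))) (.g (nat_lit 0) .nil .nil))))) (.nd (nat_lit 4) (.nd (nat_lit 5) 
(.lf (nat_lit 286925) (.g (nat_lit 1689) (.e (nat_lit 286759) (nat_lit 12) (.e (nat_lit 385106) (nat_lit 50) (.e (nat_lit 786483) (nat_lit 30) (.e (nat_lit 360482) (nat_lit 15) (.e (nat_lit 655104) (nat_lit 14) .nil))))) .nil)) 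
(.lf (nat_lit 286957) (.g (nat_lit 2432) (.e (nat_lit 286759) (nat_lit 12) (.e (nat_lit 385107) (nat_lit 51) (.e (nat_lit 794684) (nat_lit 25) (.e (nat_lit 221190) (nat_lit 11) (.e (nat_lit 335906) (nat_lit 0) (.e (nat_lit 6113) (nat_lit 332) (.e (nat_lit 1361) (nat_lit 102) .nil))))))) (.g (nat_lit 0) .nil .nil)))) (.nd (nat_lit 5) 
(.lf (nat_lit 286941) (.g (nat_lit 1019) (.e (nat_lit 286759) (nat_lit 12) (.e (nat_lit 385106) (nat_lit 50) (.e (nat_lit 786483) (nat_lit 30) (.e (nat_lit 368384) (nat_lit 17) .nil)))) .nil)) 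
(.lf (nat_lit 286973) (.g (nat_lit 1471) (.e (nat_lit 286759) (nat_lit 12) (.e (nat_lit 385116) (nat_lit 54) (.e (nat_lit 819237) (nat_lit 11) (.e (nat_lit 16472) (nat_lit 14) (.e (nat_lit 491544) (nat_lit 7) .nil))))) .nil)))))) (.nd (nat_lit 2) (.nd (nat_lit 3) (.nd (nat_lit 4) (.nd (nat_lit 5) 
(.lf (nat_lit 286915) (.g (nat_lit 1843) (.e (nat_lit 286759) (nat_lit 12) (.e (nat_lit 385106) (nat_lit 50) (.e (nat_lit 786483) (nat_lit 30) (.e (nat_lit 360451) (nat_lit 0) (.e (nat_lit 5444) (nat_lit 306) .nil))))) .nil)) 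
(.lf (nat_lit 286947) (.g (nat_lit 1739) (.e (nat_lit 286759) (nat_lit 12) (.e (nat_lit 385106) (nat_lit 50) (.e (nat_lit 786483) (nat_lit 30) (.e (nat_lit 360486) (nat_lit 18) (.e (nat_lit 671789) (nat_lit 14) (.e (nat_lit 7936) (nat_lit 178) .nil)))))) (.g (nat_lit 4) .nil .nil)))) (.nd (nat_lit 5) 
(.lf (nat_lit 286931) (.g (nat_lit 2196) (.e (nat_lit 286759) (nat_lit 12) (.e (nat_lit 385106) (nat_lit 50) (.e (nat_lit 786483) (nat_lit 30) (.e (nat_lit 360484) (nat_lit 15) (.e (nat_lit 647203) (nat_lit 14) (.e (nat_lit 7936) (nat_lit 102) .nil)))))) (.g (nat_lit 5) .nil .nil))) 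
(.lf (nat_lit 286963) (.g (nat_lit 2487) (.e (nat_lit 286759) (nat_lit 12) (.e (nat_lit 385113) (nat_lit 53) (.e (nat_lit 811045) (nat_lit 14) (.e (nat_lit 40995) (nat_lit 11) (.e (nat_lit 24617) (nat_lit 7) (.e (nat_lit 319528) (nat_lit 16) .nil)))))) (.g (nat_lit 0) .nil .nil))))) (.nd (nat_lit 4) (.nd (nat_lit 5) 
(.lf (nat_lit 286923) (.g (nat_lit 1396) (.e (nat_lit 286759) (nat_lit 12) (.e (nat_lit 385106) (nat_lit 50) (.e (nat_lit 786483) (nat_lit 30) (.e (nat_lit 360455) (nat_lit 0) .nil)))) .nil)) 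
(.lf (nat_lit 286955) (.g (nat_lit 3199) (.e (nat_lit 286759) (nat_lit 12) (.e (nat_lit 385107) (nat_lit 51) (.e (nat_lit 794683) (nat_lit 25) (.e (nat_lit 221194) (nat_lit 11) (.e (nat_lit 336067) (nat_lit 8) (.e (nat_lit 327715) (nat_lit 16) .nil)))))) (.g (nat_lit 4) .nil .nil)))) (.nd (nat_lit 5) 
(.lf (nat_lit 286939) (.g (nat_lit 1775) (.e (nat_lit 286759) (nat_lit 12) (.e (nat_lit 385106) (nat_lit 50) (.e (nat_lit 786483) (nat_lit 30) (.e (nat_lit 360484) (nat_lit 15) (.e (nat_lit 655104) (nat_lit 14) (.e (nat_lit 7936) (nat_lit 102) .nil)))))) (.g (nat_lit 4) .nil .nil))) 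
(.lf (nat_lit 286971) (.g (nat_lit 2715) (.e (nat_lit 286759) (nat_lit 12) (.e (nat_lit 385115) (nat_lit 53) (.e (nat_lit 811045) (nat_lit 14) (.e (nat_lit 40997) (nat_lit 11) (.e (nat_lit 24616) (nat_lit 7) (.e (nat_lit 319530) (nat_lit 16) .nil)))))) (.g (nat_lit 0) .nil .nil)))))) (.nd (nat_lit 3) (.nd (nat_lit 4) (.nd (nat_lit 5) 
(.lf (nat_lit 286919) (.g (nat_lit 1853) (.e (nat_lit 286759) (nat_lit 12) (.e (nat_lit 385106) (nat_lit 50) (.e (nat_lit 786483) (nat_lit 30) (.e (nat_lit 360451) (nat_lit 0) (.e (nat_lit 5472) (nat_lit 306) .nil))))) .nil)) 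
(.lf (nat_lit 286951) (.g (nat_lit 1647) (.e (nat_lit 286759) (nat_lit 12) (.e (nat_lit 385107) (nat_lit 51) (.e (nat_lit 794680) (nat_lit 24) (.e (nat_lit 213032) (nat_lit 11) (.e (nat_lit 24617) (nat_lit 7) .nil))))) .nil))) (.nd (nat_lit 5) 
(.lf (nat_lit 286935) (.g (nat_lit 1549) (.e (nat_lit 286759) (nat_lit 12) (.e (nat_lit 385106) (nat_lit 50) (.e (nat_lit 786483) (nat_lit 30) (.e (nat_lit 360484) (nat_lit 15) (.e (nat_lit 655104) (nat_lit 14) .nil))))) .nil)) 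
(.lf (nat_lit 286967) (.g (nat_lit 2853) (.e (nat_lit 286759) (nat_lit 12) (.e (nat_lit 385114) (nat_lit 53) (.e (nat_lit 811045) (nat_lit 14) (.e (nat_lit 40997) (nat_lit 11) (.e (nat_lit 24617) (nat_lit 7) (.e (nat_lit 319528) (nat_lit 16) .nil)))))) (.g (nat_lit 0) .nil .nil))))) (.nd (nat_lit 4) (.nd (nat_lit 5) 
(.lf (nat_lit 286927) (.g (nat_lit 2453) (.e (nat_lit 286759) (nat_lit 12) (.e (nat_lit 385106) (nat_lit 50) (.e (nat_lit 786483) (nat_lit 30) (.e (nat_lit 360483) (nat_lit 15) (.e (nat_lit 647203) (nat_lit 14) (.e (nat_lit 1347) (nat_lit 102) .nil)))))) (.g (nat_lit 5) .nil .nil))) 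
(.lf (nat_lit 286959) (.g (nat_lit 988) (.e (nat_lit 286759) (nat_lit 12) (.e (nat_lit 385109) (nat_lit 51) (.e (nat_lit 794682) (nat_lit 25) .nil))) .nil))) (.nd (nat_lit 5) 
(.lf (nat_lit 286943) (.g (nat_lit 1718) (.e (nat_lit 286759) (nat_lit 12) (.e (nat_lit 385106) (nat_lit 50) (.e (nat_lit 786483) (nat_lit 30) (.e (nat_lit 360486) (nat_lit 18) (.e (nat_lit 671785) (nat_lit 14) .nil))))) .nil)) 
(.lf (nat_lit 286975) (.g (nat_lit 720) (.e (nat_lit 286760) (nat_lit 13) (.e (nat_lit 393225) (nat_lit 9) (.e (nat_lit 343808) (nat_lit 20) .nil))) .nil))))))))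

noncomputable def tv3637 : DT := (.nd (nat_lit 0) (.nd (nat_lit 1) (.nd (nat_lit 2) (.nd (nat_lit 3) (.nd (nat_lit 4) (.nd (nat_lit 5) (.nd (nat_lit 6) 
(.lf (nat_lit 286976) (.g (nat_lit 690) (.e (nat_lit 286760) (nat_lit 13) (.e (nat_lit 393229) (nat_lit 9) (.e (nat_lit 343808) (nat_lit 20) .nil))) .nil)) 
(.lf (nat_lit 287040) (.g (nat_lit 2094) (.e (nat_lit 286760) (nat_lit 13) (.e (nat_lit 393301) (nat_lit 27) (.e (nat_lit 491556) (nat_lit 9) (.e (nat_lit 343808) (nat_lit 26) .nil)))) .nil))) (.nd (nat_lit 6) 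
(.lf (nat_lit 287008) (.g (nat_lit 1155) (.e (nat_lit 286760) (nat_lit 13) (.e (nat_lit 393296) (nat_lit 26) (.e (nat_lit 475216) (nat_lit 44) (.e (nat_lit 737283) (nat_lit 0) (.e (nat_lit 4965) (nat_lit 287) .nil))))) .nil)) 
(.lf (nat_lit 287072) (.g (nat_lit 1725) (.e (nat_lit 286761) (nat_lit 13) (.e (nat_lit 393233) (nat_lit 17) (.e (nat_lit 7589) (nat_lit 406) (.e (nat_lit 65632) (nat_lit 15) (.e (nat_lit 6950) (nat_lit 377) (.e (nat_lit 7936) (nat_lit 102) .nil)))))) (.g (nat_lit 5) .nil .nil))))) (.nd (nat_lit 5) (.nd (nat_lit 6) 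
(.lf (nat_lit 286992) (.g (nat_lit 3699) (.e (nat_lit 286760) (nat_lit 13) (.e (nat_lit 393281) (nat_lit 23) (.e (nat_lit 426100) (nat_lit 1) (.e (nat_lit 164403) (nat_lit 256) (.e (nat_lit 57400) (nat_lit 10) (.e (nat_lit 319533) (nat_lit 16) .nil)))))) (.g (nat_lit 0) .nil .nil))) 
(.lf (nat_lit 287056) (.g (nat_lit 2364) (.e (nat_lit 286760) (nat_lit 13) (.e (nat_lit 393301) (nat_lit 27) (.e (nat_lit 491560) (nat_lit 10) (.e (nat_lit 344173) (nat_lit 42) .nil)))) .nil))) (.nd (nat_lit 6) 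
(.lf (nat_lit 287024) (.g (nat_lit 820) (.e (nat_lit 286760) (nat_lit 13) (.e (nat_lit 393299) (nat_lit 27) (.e (nat_lit 491552) (nat_lit 9) .nil))) .nil)) 
(.lf (nat_lit 287088) (.g (nat_lit 475) (.e (nat_lit 286761) (nat_lit 13) (.e (nat_lit 393234) (nat_lit 17) (.e (nat_lit 7355) (nat_lit 388) .nil))) .nil))))) (.nd (nat_lit 4) (.nd (nat_lit 5) (.nd (nat_lit 6) 
(.lf (nat_lit 286984) (.g (nat_lit 306) (.e (nat_lit 286760) (nat_lit 13) (.e (nat_lit 393265) (nat_lit 22) (.e (nat_lit 417820) (nat_lit 10) .nil))) .nil)) 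
(.lf (nat_lit 287048) (.g (nat_lit 2860) (.e (nat_lit 286760) (nat_lit 13) (.e (nat_lit 393301) (nat_lit 27) (.e (nat_lit 491559) (nat_lit 10) (.e (nat_lit 344177) (nat_lit 43) .nil)))) .nil))) (.nd (nat_lit 6) 
(.lf (nat_lit 287016) (.g (nat_lit 1822) (.e (nat_lit 286760) (nat_lit 13) (.e (nat_lit 393298) (nat_lit 27) (.e (nat_lit 491565) (nat_lit 12) (.e (nat_lit 385033) (nat_lit 16) .nil)))) .nil)) 
(.lf (nat_lit 287080) (.g (nat_lit 2636) (.e (nat_lit 286761) (nat_lit 13) (.e (nat_lit 393234) (nat_lit 17) (.e (nat_lit 7110) (nat_lit 380) (.e (nat_lit 164356) (nat_lit 246) (.e (nat_lit 216) (nat_lit 19) (.e (nat_lit 319528) (nat_lit 16) .nil)))))) (.g (nat_lit 4) .nil .nil))))) (.nd (nat_lit 5) (.nd (nat_lit 6) 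
(.lf (nat_lit 287000) (.g (nat_lit 1296) (.e (nat_lit 286760) (nat_lit 13) (.e (nat_lit 393291) (nat_lit 26) (.e (nat_lit 475219) (nat_lit 44) (.e (nat_lit 737286) (nat_lit 0) .nil)))) .nil)) 
(.lf (nat_lit 287064) (.g (nat_lit 2448) (.e (nat_lit 286761) (nat_lit 13) (.e (nat_lit 393225) (nat_lit 9) (.e (nat_lit 335986) (nat_lit 1) (.e (nat_lit 57923) (nat_lit 281) .nil)))) .nil))) (.nd (nat_lit 6) 
(.lf (nat_lit 287032) (.g (nat_lit 1090) (.e (nat_lit 286760) (nat_lit 13) (.e (nat_lit 393300) (nat_lit 27) (.e (nat_lit 491551) (nat_lit 9) (.e (nat_lit 336363) (nat_lit 26) .nil)))) .nil)) 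
(.lf (nat_lit 287096) (.g (nat_lit 2562) (.e (nat_lit 286761) (nat_lit 13) (.e (nat_lit 393234) (nat_lit 17) (.e (nat_lit 7587) (nat_lit 406) (.e (nat_lit 65632) (nat_lit 15) (.e (nat_lit 6953) (nat_lit 377) (.e (nat_lit 1352) (nat_lit 102) .nil)))))) (.g (nat_lit 4) .nil .nil))))))) (.nd (nat_lit 3) (.nd (nat_lit 4) (.nd (nat_lit 5) (.nd (nat_lit 6) 
(.lf (nat_lit 286980) (.g (nat_lit 1939) (.e (nat_lit 286760) (nat_lit 13) (.e (nat_lit 393260) (nat_lit 21) (.e (nat_lit 409616) (nat_lit 10) (.e (nat_lit 5630) (nat_lit 312) .nil)))) .nil)) 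
(.lf (nat_lit 287044) (.g (nat_lit 2615) (.e (nat_lit 286760) (nat_lit 13) (.e (nat_lit 393301) (nat_lit 27) (.e (nat_lit 491558) (nat_lit 10) (.e (nat_lit 344096) (nat_lit 18) (.e (nat_lit 6927) (nat_lit 372) (.e (nat_lit 8305) (nat_lit 58) .nil)))))) (.g (nat_lit 4) .nil .nil)))) (.nd (nat_lit 6) 
(.lf (nat_lit 287012) (.g (nat_lit 206) (.e (nat_lit 286760) (nat_lit 13) (.e (nat_lit 393297) (nat_lit 27) (.e (nat_lit 491566) (nat_lit 12) .nil))) .nil)) 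
(.lf (nat_lit 287076) (.g (nat_lit 1307) (.e (nat_lit 286761) (nat_lit 13) (.e (nat_lit 393234) (nat_lit 17) (.e (nat_lit 7065) (nat_lit 377) (.e (nat_lit 1116) (nat_lit 82) (.e (nat_lit 8446) (nat_lit 140) .nil))))) .nil)))) (.nd (nat_lit 5) (.nd (nat_lit 6) 
(.lf (nat_lit 286996) (.g (nat_lit 2260) (.e (nat_lit 286760) (nat_lit 13) (.e (nat_lit 393284) (nat_lit 24) (.e (nat_lit 434276) (nat_lit 39) (.e (nat_lit 663560) (nat_lit 0) (.e (nat_lit 1399) (nat_lit 106) (.e (nat_lit 319533) (nat_lit 16) .nil)))))) (.g (nat_lit 0) .nil .nil))) 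
(.lf (nat_lit 287060) (.g (nat_lit 2663) (.e (nat_lit 286760) (nat_lit 13) (.e (nat_lit 393301) (nat_lit 27) (.e (nat_lit 491563) (nat_lit 12) (.e (nat_lit 385037) (nat_lit 16) .nil)))) .nil))) (.nd (nat_lit 6) 
(.lf (nat_lit 287028) (.g (nat_lit 498) (.e (nat_lit 286760) (nat_lit 13) (.e (nat_lit 393300) (nat_lit 27) (.e (nat_lit 491547) (nat_lit 9) .nil))) .nil)) 
(.lf (nat_lit 287092) (.g (nat_lit 3315) (.e (nat_lit 286761) (nat_lit 13) (.e (nat_lit 393234) (nat_lit 17) (.e (nat_lit 7513) (nat_lit 402) (.e (nat_lit 1638) (nat_lit 114) (.e (nat_lit 392960) (nat_lit 16) (.e (nat_lit 1349) (nat_lit 102) .nil)))))) (.g (nat_lit 4) .nil .nil)))))) (.nd (nat_lit 4) (.nd (nat_lit 5) (.nd (nat_lit 6) 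
(.lf (nat_lit 286988) (.g (nat_lit 733) (.e (nat_lit 286760) (nat_lit 13) (.e (nat_lit 393279) (nat_lit 23) (.e (nat_lit 426110) (nat_lit 1) (.e (nat_lit 164386) (nat_lit 254) .nil)))) .nil)) 
(.lf (nat_lit 287052) (.g (nat_lit 2910) (.e (nat_lit 286760) (nat_lit 13) (.e (nat_lit 393301) (nat_lit 27) (.e (nat_lit 491560) (nat_lit 10) (.e (nat_lit 344091) (nat_lit 18) (.e (nat_lit 6927) (nat_lit 372) .nil))))) .nil))) (.nd (nat_lit 6) 
(.lf (nat_lit 287020) (.g (nat_lit 3400) (.e (nat_lit 286760) (nat_lit 13) (.e (nat_lit 393298) (nat_lit 27) (.e (nat_lit 491566) (nat_lit 12) (.e (nat_lit 385034) (nat_lit 16) (.e (nat_lit 7936) (nat_lit 102) .nil))))) (.g (nat_lit 4) .nil .nil))) 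
(.lf (nat_lit 287084) (.g (nat_lit 559) (.e (nat_lit 286761) (nat_lit 13) (.e (nat_lit 393234) (nat_lit 17) (.e (nat_lit 7303) (nat_lit 388) .nil))) .nil)))) (.nd (nat_lit 5) (.nd (nat_lit 6) 
(.lf (nat_lit 287004) (.g (nat_lit 558) (.e (nat_lit 286760) (nat_lit 13) (.e (nat_lit 393293) (nat_lit 26) (.e (nat_lit 475219) (nat_lit 44) .nil))) .nil)) 
(.lf (nat_lit 287068) (.g (nat_lit 1440) (.e (nat_lit 286761) (nat_lit 13) (.e (nat_lit 393225) (nat_lit 9) (.e (nat_lit 336278) (nat_lit 15) .nil))) .nil))) (.nd (nat_lit 6) 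
(.lf (nat_lit 287036) (.g (nat_lit 866) (.e (nat_lit 286760) (nat_lit 13) (.e (nat_lit 393301) (nat_lit 27) (.e (nat_lit 491547) (nat_lit 9) .nil))) .nil)) 
(.lf (nat_lit 287100) (.g (nat_lit 2072) (.e (nat_lit 286761) (nat_lit 13) (.e (nat_lit 393234) (nat_lit 17) (.e (nat_lit 7589) (nat_lit 406) (.e (nat_lit 65647) (nat_lit 25) (.e (nat_lit 417536) (nat_lit 6) .nil))))) (.g (nat_lit 4) .nil .nil)))))))) (.nd (nat_lit 2) (.nd (nat_lit 3) (.nd (nat_lit 4) (.nd (nat_lit 5) (.nd (nat_lit 6) 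
(.lf (nat_lit 286978) (.g (nat_lit 1185) (.e (nat_lit 286760) (nat_lit 13) (.e (nat_lit 393238) (nat_lit 17) (.e (nat_lit 6989) (nat_lit 377) (.e (nat_lit 2810) (nat_lit 180) (.e (nat_lit 311040) (nat_lit 25) .nil))))) .nil)) 
(.lf (nat_lit 287042) (.g (nat_lit 2450) (.e (nat_lit 286760) (nat_lit 13) (.e (nat_lit 393301) (nat_lit 27) (.e (nat_lit 491558) (nat_lit 10) (.e (nat_lit 344091) (nat_lit 18) (.e (nat_lit 6927) (nat_lit 372) .nil))))) .nil))) (.nd (nat_lit 6) 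
(.lf (nat_lit 287010) (.g (nat_lit 915) (.e (nat_lit 286760) (nat_lit 13) (.e (nat_lit 393296) (nat_lit 26) (.e (nat_lit 475219) (nat_lit 44) .nil))) .nil)) 
(.lf (nat_lit 287074) (.g (nat_lit 2192) (.e (nat_lit 286761) (nat_lit 13) (.e (nat_lit 393234) (nat_lit 17) (.e (nat_lit 6949) (nat_lit 377) (.e (nat_lit 2809) (nat_lit 180) (.e (nat_lit 311040) (nat_lit 25) (.e (nat_lit 319531) (nat_lit 16) .nil)))))) (.g (nat_lit 4) .nil .nil))))) (.nd (nat_lit 5) (.nd (nat_lit 6) 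
(.lf (nat_lit 286994) (.g (nat_lit 1195) (.e (nat_lit 286760) (nat_lit 13) (.e (nat_lit 393282) (nat_lit 24) (.e (nat_lit 434275) (nat_lit 39) (.e (nat_lit 663560) (nat_lit 0) .nil)))) .nil)) 
(.lf (nat_lit 287058) (.g (nat_lit 2487) (.e (nat_lit 286760) (nat_lit 13) (.e (nat_lit 393301) (nat_lit 27) (.e (nat_lit 491563) (nat_lit 12) (.e (nat_lit 385032) (nat_lit 16) .nil)))) .nil))) (.nd (nat_lit 6) 
(.lf (nat_lit 287026) (.g (nat_lit 1652) (.e (nat_lit 286760) (nat_lit 13) (.e (nat_lit 393299) (nat_lit 27) (.e (nat_lit 491563) (nat_lit 12) (.e (nat_lit 392960) (nat_lit 16) .nil)))) .nil)) 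
(.lf (nat_lit 287090) (.g (nat_lit 3358) (.e (nat_lit 286761) (nat_lit 13) (.e (nat_lit 393234) (nat_lit 17) (.e (nat_lit 7486) (nat_lit 402) (.e (nat_lit 1454) (nat_lit 108) (.e (nat_lit 336295) (nat_lit 15) (.e (nat_lit 7936) (nat_lit 377) (.e (nat_lit 1349) (nat_lit 102) .nil))))))) (.g (nat_lit 5) .nil .nil)))))) (.nd (nat_lit 4) (.nd (nat_lit 5) (.nd (nat_lit 6) 
(.lf (nat_lit 286986) (.g (nat_lit 1179) (.e (nat_lit 286760) (nat_lit 13) (.e (nat_lit 393271) (nat_lit 23) (.e (nat_lit 425986) (nat_lit 0) .nil))) .nil)) 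
(.lf (nat_lit 287050) (.g (nat_lit 2491) (.e (nat_lit 286760) (nat_lit 13) (.e (nat_lit 393301) (nat_lit 27) (.e (nat_lit 491560) (nat_lit 10) (.e (nat_lit 344090) (nat_lit 18) .nil)))) .nil))) (.nd (nat_lit 6) 
(.lf (nat_lit 287018) (.g (nat_lit 572) (.e (nat_lit 286760) (nat_lit 13) (.e (nat_lit 393298) (nat_lit 27) (.e (nat_lit 491566) (nat_lit 12) .nil))) .nil)) 
(.lf (nat_lit 287082) (.g (nat_lit 458) (.e (nat_lit 286761) (nat_lit 13) (.e (nat_lit 393234) (nat_lit 17) (.e (nat_lit 7936) (nat_lit 380) .nil))) .nil)))) (.nd (nat_lit 5) (.nd (nat_lit 6) 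
(.lf (nat_lit 287002) (.g (nat_lit 1365) (.e (nat_lit 286760) (nat_lit 13) (.e (nat_lit 393293) (nat_lit 26) (.e (nat_lit 475198) (nat_lit 40) (.e (nat_lit 704846) (nat_lit 15) .nil)))) .nil)) 
(.lf (nat_lit 287066) (.g (nat_lit 1440) (.e (nat_lit 286761) (nat_lit 13) (.e (nat_lit 393225) (nat_lit 9) (.e (nat_lit 336273) (nat_lit 15) .nil))) .nil))) (.nd (nat_lit 6) 
(.lf (nat_lit 287034) (.g (nat_lit 1727) (.e (nat_lit 286760) (nat_lit 13) (.e (nat_lit 393301) (nat_lit 27) (.e (nat_lit 491546) (nat_lit 9) (.e (nat_lit 336358) (nat_lit 25) .nil)))) .nil)) 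
(.lf (nat_lit 287098) (.g (nat_lit 2322) (.e (nat_lit 286761) (nat_lit 13) (.e (nat_lit 393234) (nat_lit 17) (.e (nat_lit 7589) (nat_lit 406) (.e (nat_lit 65632) (nat_lit 15) (.e (nat_lit 6950) (nat_lit 377) (.e (nat_lit 7936) (nat_lit 102) .nil)))))) (.g (nat_lit 5) .nil .nil))))))) (.nd (nat_lit 3) (.nd (nat_lit 4) (.nd (nat_lit 5) (.nd (nat_lit 6) 
(.lf (nat_lit 286982) (.g (nat_lit 1302) (.e (nat_lit 286760) (nat_lit 13) (.e (nat_lit 393260) (nat_lit 21) (.e (nat_lit 409623) (nat_lit 10) (.e (nat_lit 5664) (nat_lit 312) (.e (nat_lit 7936) (nat_lit 19) .nil))))) .nil)) 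
(.lf (nat_lit 287046) (.g (nat_lit 2670) (.e (nat_lit 286760) (nat_lit 13) (.e (nat_lit 393301) (nat_lit 27) (.e (nat_lit 491559) (nat_lit 10) (.e (nat_lit 344090) (nat_lit 18) .nil)))) .nil))) (.nd (nat_lit 6) 
(.lf (nat_lit 287014) (.g (nat_lit 696) (.e (nat_lit 286760) (nat_lit 13) (.e (nat_lit 393298) (nat_lit 27) (.e (nat_lit 491552) (nat_lit 9) .nil))) .nil)) 
(.lf (nat_lit 287078) (.g (nat_lit 559) (.e (nat_lit 286761) (nat_lit 13) (.e (nat_lit 393234) (nat_lit 17) (.e (nat_lit 7076) (nat_lit 378) .nil))) .nil)))) (.nd (nat_lit 5) (.nd (nat_lit 6) 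
(.lf (nat_lit 286998) (.g (nat_lit 1412) (.e (nat_lit 286760) (nat_lit 13) (.e (nat_lit 393291) (nat_lit 26) (.e (nat_lit 475201) (nat_lit 40) (.e (nat_lit 704841) (nat_lit 15) (.e (nat_lit 57793) (nat_lit 245) .nil))))) .nil)) 
(.lf (nat_lit 287062) (.g (nat_lit 1607) (.e (nat_lit 286761) (nat_lit 13) (.e (nat_lit 393221) (nat_lit 0) (.e (nat_lit 7936) (nat_lit 362) (.e (nat_lit 180252) (nat_lit 10) (.e (nat_lit 573503) (nat_lit 18) (.e (nat_lit 1347) (nat_lit 102) .nil)))))) (.g (nat_lit 4) .nil .nil)))) (.nd (nat_lit 6) 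
(.lf (nat_lit 287030) (.g (nat_lit 1956) (.e (nat_lit 286760) (nat_lit 13) (.e (nat_lit 393300) (nat_lit 27) (.e (nat_lit 491549) (nat_lit 9) (.e (nat_lit 336365) (nat_lit 26) .nil)))) .nil)) 
(.lf (nat_lit 287094) (.g (nat_lit 2805) (.e (nat_lit 286761) (nat_lit 13) (.e (nat_lit 393234) (nat_lit 17) (.e (nat_lit 7567) (nat_lit 402) (.e (nat_lit 1638) (nat_lit 114) (.e (nat_lit 392960) (nat_lit 16) (.e (nat_lit 1349) (nat_lit 102) .nil)))))) (.g (nat_lit 4) .nil .nil)))))) (.nd (nat_lit 4) (.nd (nat_lit 5) (.nd (nat_lit 6) 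
(.lf (nat_lit 286990) (.g (nat_lit 374) (.e (nat_lit 286760) (nat_lit 13) (.e (nat_lit 393281) (nat_lit 23) (.e (nat_lit 426100) (nat_lit 1) .nil))) .nil)) 
(.lf (nat_lit 287054) (.g (nat_lit 3141) (.e (nat_lit 286760) (nat_lit 13) (.e (nat_lit 393301) (nat_lit 27) (.e (nat_lit 491560) (nat_lit 10) (.e (nat_lit 344096) (nat_lit 18) (.e (nat_lit 6927) (nat_lit 372) .nil))))) .nil))) (.nd (nat_lit 6) 
(.lf (nat_lit 287022) (.g (nat_lit 2975) (.e (nat_lit 286760) (nat_lit 13) (.e (nat_lit 393298) (nat_lit 27) (.e (nat_lit 491566) (nat_lit 12) (.e (nat_lit 385038) (nat_lit 16) .nil)))) .nil)) 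
(.lf (nat_lit 287086) (.g (nat_lit 549) (.e (nat_lit 286761) (nat_lit 13) (.e (nat_lit 393234) (nat_lit 17) (.e (nat_lit 7309) (nat_lit 388) .nil))) .nil)))) (.nd (nat_lit 5) (.nd (nat_lit 6) 
(.lf (nat_lit 287006) (.g (nat_lit 867) (.e (nat_lit 286760) (nat_lit 13) (.e (nat_lit 393296) (nat_lit 26) (.e (nat_lit 475209) (nat_lit 41) .nil))) .nil)) 
(.lf (nat_lit 287070) (.g (nat_lit 1440) (.e (nat_lit 286761) (nat_lit 13) (.e (nat_lit 393225) (nat_lit 9) (.e (nat_lit 336293) (nat_lit 15) .nil))) .nil))) (.nd (nat_lit 6) 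
(.lf (nat_lit 287038) (.g (nat_lit 2593) (.e (nat_lit 286760) (nat_lit 13) (.e (nat_lit 393301) (nat_lit 27) (.e (nat_lit 491552) (nat_lit 9) (.e (nat_lit 336363) (nat_lit 26) (.e (nat_lit 417810) (nat_lit 6) .nil))))) (.g (nat_lit 5) .nil .nil))) 
(.lf (nat_lit 287102) (.g (nat_lit 1642) (.e (nat_lit 286761) (nat_lit 13) (.e (nat_lit 393234) (nat_lit 17) (.e (nat_lit 7936) (nat_lit 406) (.e (nat_lit 65632) (nat_lit 15) (.e (nat_lit 6950) (nat_lit 377) (.e (nat_lit 7936) (nat_lit 102) .nil)))))) (.g (nat_lit 5) .nil .nil))))))))) (.nd (nat_lit 1) (.nd (nat_lit 2) (.nd (nat_lit 3) (.nd (nat_lit 4) (.nd (nat_lit 5) (.nd (nat_lit 6) 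
(.lf (nat_lit 286977) (.g (nat_lit 902) (.e (nat_lit 286760) (nat_lit 13) (.e (nat_lit 393232) (nat_lit 17) (.e (nat_lit 7587) (nat_lit 406) (.e (nat_lit 65648) (nat_lit 26) .nil)))) .nil)) 
(.lf (nat_lit 287041) (.g (nat_lit 2284) (.e (nat_lit 286760) (nat_lit 13) (.e (nat_lit 393301) (nat_lit 27) (.e (nat_lit 491558) (nat_lit 10) (.e (nat_lit 344090) (nat_lit 18) (.e (nat_lit 6927) (nat_lit 372) .nil))))) .nil))) (.nd (nat_lit 6) 
(.lf (nat_lit 287009) (.g (nat_lit 918) (.e (nat_lit 286760) (nat_lit 13) (.e (nat_lit 393296) (nat_lit 26) (.e (nat_lit 475218) (nat_lit 44) .nil))) .nil)) 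
(.lf (nat_lit 287073) (.g (nat_lit 1585) (.e (nat_lit 286761) (nat_lit 13) (.e (nat_lit 393233) (nat_lit 17) (.e (nat_lit 7589) (nat_lit 406) (.e (nat_lit 65647) (nat_lit 25) (.e (nat_lit 417536) (nat_lit 6) .nil))))) (.g (nat_lit 4) .nil .nil))))) (.nd (nat_lit 5) (.nd (nat_lit 6) 
(.lf (nat_lit 286993) (.g (nat_lit 1708) (.e (nat_lit 286760) (nat_lit 13) (.e (nat_lit 393282) (nat_lit 24) (.e (nat_lit 434209) (nat_lit 18) (.e (nat_lit 5946) (nat_lit 322) (.e (nat_lit 57400) (nat_lit 10) .nil))))) .nil)) 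
(.lf (nat_lit 287057) (.g (nat_lit 2520) (.e (nat_lit 286760) (nat_lit 13) (.e (nat_lit 393301) (nat_lit 27) (.e (nat_lit 491560) (nat_lit 10) (.e (nat_lit 344174) (nat_lit 42) .nil)))) .nil))) (.nd (nat_lit 6) 
(.lf (nat_lit 287025) (.g (nat_lit 659) (.e (nat_lit 286760) (nat_lit 13) (.e (nat_lit 393299) (nat_lit 27) (.e (nat_lit 491563) (nat_lit 12) .nil))) .nil)) 
(.lf (nat_lit 287089) (.g (nat_lit 3206) (.e (nat_lit 286761) (nat_lit 13) (.e (nat_lit 393234) (nat_lit 17) (.e (nat_lit 7486) (nat_lit 402) (.e (nat_lit 1454) (nat_lit 108) (.e (nat_lit 336295) (nat_lit 15) (.e (nat_lit 7936) (nat_lit 377) (.e (nat_lit 1348) (nat_lit 102) .nil))))))) (.g (nat_lit 5) .nil .nil)))))) (.nd (nat_lit 4) (.nd (nat_lit 5) (.nd (nat_lit 6) 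
(.lf (nat_lit 286985) (.g (nat_lit 2074) (.e (nat_lit 286760) (nat_lit 13) (.e (nat_lit 393268) (nat_lit 23) (.e (nat_lit 426444) (nat_lit 19) (.e (nat_lit 106556) (nat_lit 15) .nil)))) .nil)) 
(.lf (nat_lit 287049) (.g (nat_lit 3866) (.e (nat_lit 286760) (nat_lit 13) (.e (nat_lit 393301) (nat_lit 27) (.e (nat_lit 491559) (nat_lit 10) (.e (nat_lit 344177) (nat_lit 43) (.e (nat_lit 770050) (nat_lit 0) .nil))))) .nil))) (.nd (nat_lit 6) 
(.lf (nat_lit 287017) (.g (nat_lit 1835) (.e (nat_lit 286760) (nat_lit 13) (.e (nat_lit 393298) (nat_lit 27) (.e (nat_lit 491565) (nat_lit 12) (.e (nat_lit 385037) (nat_lit 16) .nil)))) .nil)) 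
(.lf (nat_lit 287081) (.g (nat_lit 1414) (.e (nat_lit 286761) (nat_lit 13) (.e (nat_lit 393234) (nat_lit 17) (.e (nat_lit 7110) (nat_lit 380) (.e (nat_lit 164368) (nat_lit 247) (.e (nat_lit 8535) (nat_lit 225) .nil))))) .nil)))) (.nd (nat_lit 5) (.nd (nat_lit 6) 
(.lf (nat_lit 287001) (.g (nat_lit 1337) (.e (nat_lit 286760) (nat_lit 13) (.e (nat_lit 393291) (nat_lit 26) (.e (nat_lit 475219) (nat_lit 44) (.e (nat_lit 737296) (nat_lit 5) .nil)))) .nil)) 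
(.lf (nat_lit 287065) (.g (nat_lit 2456) (.e (nat_lit 286761) (nat_lit 13) (.e (nat_lit 393225) (nat_lit 9) (.e (nat_lit 335988) (nat_lit 1) (.e (nat_lit 57923) (nat_lit 281) .nil)))) .nil))) (.nd (nat_lit 6) 
(.lf (nat_lit 287033) (.g (nat_lit 727) (.e (nat_lit 286760) (nat_lit 13) (.e (nat_lit 393301) (nat_lit 27) (.e (nat_lit 491546) (nat_lit 9) .nil))) .nil)) 
(.lf (nat_lit 287097) (.g (nat_lit 265) (.e (nat_lit 286761) (nat_lit 13) (.e (nat_lit 393234) (nat_lit 17) (.e (nat_lit 7589) (nat_lit 406) .nil))) .nil)))))) (.nd (nat_lit 3) (.nd (nat_lit 4) (.nd (nat_lit 5) (.nd (nat_lit 6) 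
(.lf (nat_lit 286981) (.g (nat_lit 1829) (.e (nat_lit 286760) (nat_lit 13) (.e (nat_lit 393260) (nat_lit 21) (.e (nat_lit 409617) (nat_lit 10) (.e (nat_lit 5630) (nat_lit 312) .nil)))) .nil)) 
(.lf (nat_lit 287045) (.g (nat_lit 1737) (.e (nat_lit 286760) (nat_lit 13) (.e (nat_lit 393301) (nat_lit 27) (.e (nat_lit 491558) (nat_lit 10) (.e (nat_lit 344174) (nat_lit 42) .nil)))) .nil))) (.nd (nat_lit 6) 
(.lf (nat_lit 287013) (.g (nat_lit 2454) (.e (nat_lit 286760) (nat_lit 13) (.e (nat_lit 393297) (nat_lit 27) (.e (nat_lit 491566) (nat_lit 12) (.e (nat_lit 385037) (nat_lit 16) .nil)))) .nil)) 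
(.lf (nat_lit 287077) (.g (nat_lit 2320) (.e (nat_lit 286761) (nat_lit 13) (.e (nat_lit 393234) (nat_lit 17) (.e (nat_lit 7073) (nat_lit 377) (.e (nat_lit 2797) (nat_lit 180) (.e (nat_lit 311040) (nat_lit 25) (.e (nat_lit 319531) (nat_lit 16) .nil)))))) (.g (nat_lit 4) .nil .nil))))) (.nd (nat_lit 5) (.nd (nat_lit 6) 
(.lf (nat_lit 286997) (.g (nat_lit 2760) (.e (nat_lit 286760) (nat_lit 13) (.e (nat_lit 393289) (nat_lit 25) (.e (nat_lit 458774) (nat_lit 18) (.e (nat_lit 5939) (nat_lit 322) (.e (nat_lit 57400) (nat_lit 10) (.e (nat_lit 319533) (nat_lit 16) .nil)))))) (.g (nat_lit 0) .nil .nil))) 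
(.lf (nat_lit 287061) (.g (nat_lit 1100) (.e (nat_lit 286760) (nat_lit 13) (.e (nat_lit 393301) (nat_lit 27) (.e (nat_lit 491563) (nat_lit 12) (.e (nat_lit 392960) (nat_lit 16) .nil)))) .nil))) (.nd (nat_lit 6) 
(.lf (nat_lit 287029) (.g (nat_lit 1989) (.e (nat_lit 286760) (nat_lit 13) (.e (nat_lit 393300) (nat_lit 27) (.e (nat_lit 491549) (nat_lit 9) (.e (nat_lit 336362) (nat_lit 26) .nil)))) .nil)) 
(.lf (nat_lit 287093) (.g (nat_lit 329) (.e (nat_lit 286761) (nat_lit 13) (.e (nat_lit 393234) (nat_lit 17) (.e (nat_lit 7536) (nat_lit 402) .nil))) .nil))))) (.nd (nat_lit 4) (.nd (nat_lit 5) (.nd (nat_lit 6) 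
(.lf (nat_lit 286989) (.g (nat_lit 2789) (.e (nat_lit 286760) (nat_lit 13) (.e (nat_lit 393280) (nat_lit 23) (.e (nat_lit 426100) (nat_lit 1) (.e (nat_lit 164403) (nat_lit 256) (.e (nat_lit 57400) (nat_lit 10) (.e (nat_lit 319533) (nat_lit 16) .nil)))))) (.g (nat_lit 4) .nil .nil))) 
(.lf (nat_lit 287053) (.g (nat_lit 2709) (.e (nat_lit 286760) (nat_lit 13) (.e (nat_lit 393301) (nat_lit 27) (.e (nat_lit 491560) (nat_lit 10) (.e (nat_lit 344095) (nat_lit 18) .nil)))) .nil))) (.nd (nat_lit 6) 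
(.lf (nat_lit 287021) (.g (nat_lit 2316) (.e (nat_lit 286760) (nat_lit 13) (.e (nat_lit 393298) (nat_lit 27) (.e (nat_lit 491566) (nat_lit 12) (.e (nat_lit 385036) (nat_lit 16) .nil)))) .nil)) 
(.lf (nat_lit 287085) (.g (nat_lit 559) (.e (nat_lit 286761) (nat_lit 13) (.e (nat_lit 393234) (nat_lit 17) (.e (nat_lit 7306) (nat_lit 388) .nil))) .nil)))) (.nd (nat_lit 5) (.nd (nat_lit 6) 
(.lf (nat_lit 287005) (.g (nat_lit 1404) (.e (nat_lit 286760) (nat_lit 13) (.e (nat_lit 393296) (nat_lit 26) (.e (nat_lit 475207) (nat_lit 41) (.e (nat_lit 712737) (nat_lit 25) (.e (nat_lit 417536) (nat_lit 6) .nil))))) (.g (nat_lit 4) .nil .nil))) 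
(.lf (nat_lit 287069) (.g (nat_lit 1522) (.e (nat_lit 286761) (nat_lit 13) (.e (nat_lit 393225) (nat_lit 9) (.e (nat_lit 336291) (nat_lit 15) (.e (nat_lit 3757) (nat_lit 229) .nil)))) .nil))) (.nd (nat_lit 6) 
(.lf (nat_lit 287037) (.g (nat_lit 1297) (.e (nat_lit 286760) (nat_lit 13) (.e (nat_lit 393301) (nat_lit 27) (.e (nat_lit 491552) (nat_lit 9) (.e (nat_lit 343808) (nat_lit 25) .nil)))) .nil)) 
(.lf (nat_lit 287101) (.g (nat_lit 458) (.e (nat_lit 286761) (nat_lit 13) (.e (nat_lit 393234) (nat_lit 17) (.e (nat_lit 7936) (nat_lit 406) .nil))) .nil))))))) (.nd (nat_lit 2) (.nd (nat_lit 3) (.nd (nat_lit 4) (.nd (nat_lit 5) (.nd (nat_lit 6) 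
(.lf (nat_lit 286979) (.g (nat_lit 1682) (.e (nat_lit 286760) (nat_lit 13) (.e (nat_lit 393238) (nat_lit 17) (.e (nat_lit 7107) (nat_lit 380) (.e (nat_lit 164358) (nat_lit 246) .nil)))) .nil)) 
(.lf (nat_lit 287043) (.g (nat_lit 1637) (.e (nat_lit 286760) (nat_lit 13) (.e (nat_lit 393301) (nat_lit 27) (.e (nat_lit 491558) (nat_lit 10) (.e (nat_lit 344095) (nat_lit 18) .nil)))) .nil))) (.nd (nat_lit 6) 
(.lf (nat_lit 287011) (.g (nat_lit 1248) (.e (nat_lit 286760) (nat_lit 13) (.e (nat_lit 393296) (nat_lit 26) (.e (nat_lit 475219) (nat_lit 44) (.e (nat_lit 737297) (nat_lit 6) .nil)))) .nil)) 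
(.lf (nat_lit 287075) (.g (nat_lit 645) (.e (nat_lit 286761) (nat_lit 13) (.e (nat_lit 393234) (nat_lit 17) (.e (nat_lit 6949) (nat_lit 377) (.e (nat_lit 2816) (nat_lit 181) .nil)))) .nil)))) (.nd (nat_lit 5) (.nd (nat_lit 6) 
(.lf (nat_lit 286995) (.g (nat_lit 502) (.e (nat_lit 286760) (nat_lit 13) (.e (nat_lit 393283) (nat_lit 24) (.e (nat_lit 434274) (nat_lit 39) .nil))) .nil)) 
(.lf (nat_lit 287059) (.g (nat_lit 2584) (.e (nat_lit 286760) (nat_lit 13) (.e (nat_lit 393301) (nat_lit 27) (.e (nat_lit 491563) (nat_lit 12) (.e (nat_lit 385033) (nat_lit 16) .nil)))) .nil))) (.nd (nat_lit 6) 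
(.lf (nat_lit 287027) (.g (nat_lit 1060) (.e (nat_lit 286760) (nat_lit 13) (.e (nat_lit 393299) (nat_lit 27) (.e (nat_lit 491565) (nat_lit 12) .nil))) .nil)) 
(.lf (nat_lit 287091) (.g (nat_lit 728) (.e (nat_lit 286761) (nat_lit 13) (.e (nat_lit 393234) (nat_lit 17) (.e (nat_lit 7486) (nat_lit 402) (.e (nat_lit 1463) (nat_lit 108) .nil)))) .nil))))) (.nd (nat_lit 4) (.nd (nat_lit 5) (.nd (nat_lit 6) 
(.lf (nat_lit 286987) (.g (nat_lit 605) (.e (nat_lit 286760) (nat_lit 13) (.e (nat_lit 393273) (nat_lit 23) (.e (nat_lit 426364) (nat_lit 15) .nil))) .nil)) 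
(.lf (nat_lit 287051) (.g (nat_lit 3820) (.e (nat_lit 286760) (nat_lit 13) (.e (nat_lit 393301) (nat_lit 27) (.e (nat_lit 491560) (nat_lit 10) (.e (nat_lit 344090) (nat_lit 18) (.e (nat_lit 6927) (nat_lit 372) (.e (nat_lit 8305) (nat_lit 58) .nil)))))) (.g (nat_lit 4) .nil .nil)))) (.nd (nat_lit 6) 
(.lf (nat_lit 287019) (.g (nat_lit 2790) (.e (nat_lit 286760) (nat_lit 13) (.e (nat_lit 393298) (nat_lit 27) (.e (nat_lit 491566) (nat_lit 12) (.e (nat_lit 385033) (nat_lit 16) .nil)))) .nil)) 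
(.lf (nat_lit 287083) (.g (nat_lit 469) (.e (nat_lit 286761) (nat_lit 13) (.e (nat_lit 393234) (nat_lit 17) (.e (nat_lit 7111) (nat_lit 381) .nil))) .nil)))) (.nd (nat_lit 5) (.nd (nat_lit 6) 
(.lf (nat_lit 287003) (.g (nat_lit 1016) (.e (nat_lit 286760) (nat_lit 13) (.e (nat_lit 393293) (nat_lit 26) (.e (nat_lit 475210) (nat_lit 41) (.e (nat_lit 712737) (nat_lit 25) .nil)))) .nil)) 
(.lf (nat_lit 287067) (.g (nat_lit 1440) (.e (nat_lit 286761) (nat_lit 13) (.e (nat_lit 393225) (nat_lit 9) (.e (nat_lit 336275) (nat_lit 15) .nil))) .nil))) (.nd (nat_lit 6) 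
(.lf (nat_lit 287035) (.g (nat_lit 1723) (.e (nat_lit 286760) (nat_lit 13) (.e (nat_lit 393301) (nat_lit 27) (.e (nat_lit 491546) (nat_lit 9) (.e (nat_lit 336365) (nat_lit 26) .nil)))) .nil)) 
(.lf (nat_lit 287099) (.g (nat_lit 2332) (.e (nat_lit 286761) (nat_lit 13) (.e (nat_lit 393234) (nat_lit 17) (.e (nat_lit 7589) (nat_lit 406) (.e (nat_lit 65633) (nat_lit 15) (.e (nat_lit 6975) (nat_lit 377) (.e (nat_lit 1362) (nat_lit 102) .nil)))))) (.g (nat_lit 0) .nil .nil))))))) (.nd (nat_lit 3) (.nd (nat_lit 4) (.nd (nat_lit 5) (.nd (nat_lit 6) 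
(.lf (nat_lit 286983) (.g (nat_lit 660) (.e (nat_lit 286760) (nat_lit 13) (.e (nat_lit 393260) (nat_lit 21) (.e (nat_lit 409650) (nat_lit 19) .nil))) .nil)) 
(.lf (nat_lit 287047) (.g (nat_lit 2614) (.e (nat_lit 286760) (nat_lit 13) (.e (nat_lit 393301) (nat_lit 27) (.e (nat_lit 491559) (nat_lit 10) (.e (nat_lit 344091) (nat_lit 18) .nil)))) .nil))) (.nd (nat_lit 6) 
(.lf (nat_lit 287015) (.g (nat_lit 946) (.e (nat_lit 286760) (nat_lit 13) (.e (nat_lit 393298) (nat_lit 27) (.e (nat_lit 491564) (nat_lit 12) .nil))) .nil)) 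
(.lf (nat_lit 287079) (.g (nat_lit 415) (.e (nat_lit 286761) (nat_lit 13) (.e (nat_lit 393234) (nat_lit 17) (.e (nat_lit 7110) (nat_lit 380) .nil))) .nil)))) (.nd (nat_lit 5) (.nd (nat_lit 6) 
(.lf (nat_lit 286999) (.g (nat_lit 837) (.e (nat_lit 286760) (nat_lit 13) (.e (nat_lit 393291) (nat_lit 26) (.e (nat_lit 475219) (nat_lit 44) .nil))) .nil)) 
(.lf (nat_lit 287063) (.g (nat_lit 1440) (.e (nat_lit 286761) (nat_lit 13) (.e (nat_lit 393225) (nat_lit 9) (.e (nat_lit 335906) (nat_lit 0) .nil))) .nil))) (.nd (nat_lit 6) 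
(.lf (nat_lit 287031) (.g (nat_lit 479) (.e (nat_lit 286760) (nat_lit 13) (.e (nat_lit 393300) (nat_lit 27) (.e (nat_lit 491551) (nat_lit 9) .nil))) .nil)) 
(.lf (nat_lit 287095) (.g (nat_lit 1030) (.e (nat_lit 286761) (nat_lit 13) (.e (nat_lit 393234) (nat_lit 17) (.e (nat_lit 7581) (nat_lit 405) (.e (nat_lit 65280) (nat_lit 202) .nil)))) .nil))))) (.nd (nat_lit 4) (.nd (nat_lit 5) (.nd (nat_lit 6) 
(.lf (nat_lit 286991) (.g (nat_lit 1621) (.e (nat_lit 286760) (nat_lit 13) (.e (nat_lit 393281) (nat_lit 23) (.e (nat_lit 426100) (nat_lit 1) (.e (nat_lit 164402) (nat_lit 256) .nil)))) .nil)) 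
(.lf (nat_lit 287055) (.g (nat_lit 2121) (.e (nat_lit 286760) (nat_lit 13) (.e (nat_lit 393301) (nat_lit 27) (.e (nat_lit 491560) (nat_lit 10) (.e (nat_lit 344097) (nat_lit 18) .nil)))) .nil))) (.nd (nat_lit 6) 
(.lf (nat_lit 287023) (.g (nat_lit 2048) (.e (nat_lit 286760) (nat_lit 13) (.e (nat_lit 393298) (nat_lit 27) (.e (nat_lit 491566) (nat_lit 12) (.e (nat_lit 392960) (nat_lit 16) .nil)))) .nil)) 
(.lf (nat_lit 287087) (.g (nat_lit 499) (.e (nat_lit 286761) (nat_lit 13) (.e (nat_lit 393234) (nat_lit 17) (.e (nat_lit 7345) (nat_lit 388) .nil))) .nil)))) (.nd (nat_lit 5) (.nd (nat_lit 6) 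
(.lf (nat_lit 287007) (.g (nat_lit 779) (.e (nat_lit 286760) (nat_lit 13) (.e (nat_lit 393296) (nat_lit 26) (.e (nat_lit 475216) (nat_lit 44) .nil))) .nil)) 
(.lf (nat_lit 287071) (.g (nat_lit 460) (.e (nat_lit 286761) (nat_lit 13) (.e (nat_lit 393232) (nat_lit 17) (.e (nat_lit 7589) (nat_lit 406) .nil))) .nil))) (.nd (nat_lit 6) 
(.lf (nat_lit 287039) (.g (nat_lit 2094) (.e (nat_lit 286760) (nat_lit 13) (.e (nat_lit 393301) (nat_lit 27) (.e (nat_lit 491556) (nat_lit 9) (.e (nat_lit 343808) (nat_lit 25) .nil)))) .nil)) 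
(.lf (nat_lit 287103) (.g (nat_lit 2069) (.e (nat_lit 286761) (nat_lit 13) (.e (nat_lit 393234) (nat_lit 17) (.e (nat_lit 7591) (nat_lit 407) (.e (nat_lit 73729) (nat_lit 0) (.e (nat_lit 7247) (nat_lit 383) (.e (nat_lit 16128) (nat_lit 7) .nil)))))) (.g (nat_lit 4) .nil .nil))))))))))

noncomputable def tv3638 : DT := (.nd (nat_lit 0) (.nd (nat_lit 1) (.nd (nat_lit 2) (.nd (nat_lit 3) (.nd (nat_lit 4) (.nd (nat_lit 5) (.nd (nat_lit 6) 
(.lf (nat_lit 287104) (.g (nat_lit 1708) (.e (nat_lit 286761) (nat_lit 13) (.e (nat_lit 393234) (nat_lit 17) (.e (nat_lit 7591) (nat_lit 407) (.e (nat_lit 73731) (nat_lit 0) (.e (nat_lit 7247) (nat_lit 383) (.e (nat_lit 16128) (nat_lit 7) .nil)))))) (.g (nat_lit 4) .nil .nil))) 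
(.lf (nat_lit 287168) (.g (nat_lit 3051) (.e (nat_lit 286761) (nat_lit 13) (.e (nat_lit 393265) (nat_lit 22) (.e (nat_lit 417820) (nat_lit 10) (.e (nat_lit 5629) (nat_lit 312) (.e (nat_lit 216) (nat_lit 19) (.e (nat_lit 319530) (nat_lit 16) .nil)))))) (.g (nat_lit 0) .nil .nil)))) (.nd (nat_lit 6) 
(.lf (nat_lit 287136) (.g (nat_lit 1390) (.e (nat_lit 286761) (nat_lit 13) (.e (nat_lit 393260) (nat_lit 21) (.e (nat_lit 409646) (nat_lit 18) (.e (nat_lit 303149) (nat_lit 15) (.e (nat_lit 6112) (nat_lit 332) (.e (nat_lit 7936) (nat_lit 102) .nil)))))) (.g (nat_lit 4) .nil .nil))) 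
(.lf (nat_lit 287200) (.g (nat_lit 1430) (.e (nat_lit 286761) (nat_lit 13) (.e (nat_lit 393283) (nat_lit 24) (.e (nat_lit 434209) (nat_lit 18) (.e (nat_lit 5951) (nat_lit 322) (.e (nat_lit 57400) (nat_lit 10) .nil))))) .nil)))) (.nd (nat_lit 5) (.nd (nat_lit 6) 
(.lf (nat_lit 287120) (.g (nat_lit 1158) (.e (nat_lit 286761) (nat_lit 13) (.e (nat_lit 393251) (nat_lit 18) (.e (nat_lit 164416) (nat_lit 266) .nil))) .nil)) 
(.lf (nat_lit 287184) (.g (nat_lit 1560) (.e (nat_lit 286761) (nat_lit 13) (.e (nat_lit 393270) (nat_lit 23) (.e (nat_lit 426444) (nat_lit 19) (.e (nat_lit 106556) (nat_lit 15) (.e (nat_lit 57796) (nat_lit 245) (.e (nat_lit 7936) (nat_lit 102) .nil)))))) (.g (nat_lit 5) .nil .nil)))) (.nd (nat_lit 6) 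
(.lf (nat_lit 287152) (.g (nat_lit 1422) (.e (nat_lit 286761) (nat_lit 13) (.e (nat_lit 393265) (nat_lit 22) (.e (nat_lit 417804) (nat_lit 1) (.e (nat_lit 8468) (nat_lit 148) (.e (nat_lit 163896) (nat_lit 10) (.e (nat_lit 417536) (nat_lit 6) .nil)))))) (.g (nat_lit 5) .nil .nil))) 
(.lf (nat_lit 287216) (.g (nat_lit 1711) (.e (nat_lit 286761) (nat_lit 13) (.e (nat_lit 393289) (nat_lit 25) (.e (nat_lit 458804) (nat_lit 38) (.e (nat_lit 655364) (nat_lit 0) (.e (nat_lit 2824) (nat_lit 182) (.e (nat_lit 417536) (nat_lit 6) .nil)))))) (.g (nat_lit 4) .nil .nil)))))) (.nd (nat_lit 4) (.nd (nat_lit 5) (.nd (nat_lit 6) 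
(.lf (nat_lit 287112) (.g (nat_lit 1874) (.e (nat_lit 286761) (nat_lit 13) (.e (nat_lit 393234) (nat_lit 17) (.e (nat_lit 7593) (nat_lit 407) (.e (nat_lit 73772) (nat_lit 24) (.e (nat_lit 761859) (nat_lit 0) (.e (nat_lit 7936) (nat_lit 178) .nil)))))) (.g (nat_lit 4) .nil .nil))) 
(.lf (nat_lit 287176) (.g (nat_lit 1263) (.e (nat_lit 286761) (nat_lit 13) (.e (nat_lit 393265) (nat_lit 22) (.e (nat_lit 425728) (nat_lit 10) (.e (nat_lit 5629) (nat_lit 312) (.e (nat_lit 216) (nat_lit 19) (.e (nat_lit 327424) (nat_lit 16) .nil)))))) (.g (nat_lit 5) .nil .nil)))) (.nd (nat_lit 6) 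
(.lf (nat_lit 287144) (.g (nat_lit 3286) (.e (nat_lit 286761) (nat_lit 13) (.e (nat_lit 393263) (nat_lit 22) (.e (nat_lit 417829) (nat_lit 18) (.e (nat_lit 303147) (nat_lit 15) (.e (nat_lit 6114) (nat_lit 332) (.e (nat_lit 1361) (nat_lit 102) .nil)))))) (.g (nat_lit 5) .nil .nil))) 
(.lf (nat_lit 287208) (.g (nat_lit 352) (.e (nat_lit 286761) (nat_lit 13) (.e (nat_lit 393287) (nat_lit 25) (.e (nat_lit 458775) (nat_lit 18) .nil))) .nil)))) (.nd (nat_lit 5) (.nd (nat_lit 6) 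
(.lf (nat_lit 287128) (.g (nat_lit 1581) (.e (nat_lit 286761) (nat_lit 13) (.e (nat_lit 393260) (nat_lit 21) (.e (nat_lit 409616) (nat_lit 10) (.e (nat_lit 7936) (nat_lit 312) .nil)))) .nil)) 
(.lf (nat_lit 287192) (.g (nat_lit 2382) (.e (nat_lit 286761) (nat_lit 13) (.e (nat_lit 393280) (nat_lit 23) (.e (nat_lit 426100) (nat_lit 1) (.e (nat_lit 164403) (nat_lit 256) (.e (nat_lit 57400) (nat_lit 10) .nil))))) .nil))) (.nd (nat_lit 6) 
(.lf (nat_lit 287160) (.g (nat_lit 1640) (.e (nat_lit 286761) (nat_lit 13) (.e (nat_lit 393265) (nat_lit 22) (.e (nat_lit 417820) (nat_lit 10) (.e (nat_lit 5293) (nat_lit 298) (.e (nat_lit 59) (nat_lit 0) (.e (nat_lit 6988) (nat_lit 377) (.e (nat_lit 7936) (nat_lit 102) .nil))))))) (.g (nat_lit 4) .nil .nil))) 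
(.lf (nat_lit 287224) (.g (nat_lit 1912) (.e (nat_lit 286761) (nat_lit 13) (.e (nat_lit 393293) (nat_lit 26) (.e (nat_lit 475196) (nat_lit 40) (.e (nat_lit 704590) (nat_lit 3) (.e (nat_lit 164208) (nat_lit 176) (.e (nat_lit 1361) (nat_lit 102) .nil)))))) (.g (nat_lit 4) .nil .nil))))))) (.nd (nat_lit 3) (.nd (nat_lit 4) (.nd (nat_lit 5) (.nd (nat_lit 6) 
(.lf (nat_lit 287108) (.g (nat_lit 1808) (.e (nat_lit 286761) (nat_lit 13) (.e (nat_lit 393234) (nat_lit 17) (.e (nat_lit 7591) (nat_lit 407) (.e (nat_lit 73772) (nat_lit 24) (.e (nat_lit 761862) (nat_lit 0) (.e (nat_lit 7936) (nat_lit 178) .nil)))))) (.g (nat_lit 4) .nil .nil))) 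
(.lf (nat_lit 287172) (.g (nat_lit 888) (.e (nat_lit 286761) (nat_lit 13) (.e (nat_lit 393265) (nat_lit 22) (.e (nat_lit 417820) (nat_lit 10) (.e (nat_lit 7936) (nat_lit 312) .nil)))) .nil))) (.nd (nat_lit 6) 
(.lf (nat_lit 287140) (.g (nat_lit 3753) (.e (nat_lit 286761) (nat_lit 13) (.e (nat_lit 393263) (nat_lit 22) (.e (nat_lit 417820) (nat_lit 10) (.e (nat_lit 5626) (nat_lit 312) (.e (nat_lit 214) (nat_lit 19) .nil))))) .nil)) 
(.lf (nat_lit 287204) (.g (nat_lit 352) (.e (nat_lit 286761) (nat_lit 13) (.e (nat_lit 393284) (nat_lit 24) (.e (nat_lit 434275) (nat_lit 39) .nil))) .nil)))) (.nd (nat_lit 5) (.nd (nat_lit 6) 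
(.lf (nat_lit 287124) (.g (nat_lit 935) (.e (nat_lit 286761) (nat_lit 13) (.e (nat_lit 393259) (nat_lit 21) (.e (nat_lit 409645) (nat_lit 18) (.e (nat_lit 311040) (nat_lit 25) .nil)))) .nil)) 
(.lf (nat_lit 287188) (.g (nat_lit 621) (.e (nat_lit 286761) (nat_lit 13) (.e (nat_lit 393273) (nat_lit 23) (.e (nat_lit 426364) (nat_lit 15) .nil))) .nil))) (.nd (nat_lit 6) 
(.lf (nat_lit 287156) (.g (nat_lit 323) (.e (nat_lit 286761) (nat_lit 13) (.e (nat_lit 393265) (nat_lit 22) (.e (nat_lit 417820) (nat_lit 10) .nil))) .nil)) 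
(.lf (nat_lit 287220) (.g (nat_lit 625) (.e (nat_lit 286761) (nat_lit 13) (.e (nat_lit 393291) (nat_lit 26) (.e (nat_lit 475201) (nat_lit 40) .nil))) .nil))))) (.nd (nat_lit 4) (.nd (nat_lit 5) (.nd (nat_lit 6) 
(.lf (nat_lit 287116) (.g (nat_lit 395) (.e (nat_lit 286761) (nat_lit 13) (.e (nat_lit 393238) (nat_lit 17) (.e (nat_lit 7114) (nat_lit 381) .nil))) .nil)) 
(.lf (nat_lit 287180) (.g (nat_lit 890) (.e (nat_lit 286761) (nat_lit 13) (.e (nat_lit 393266) (nat_lit 23) (.e (nat_lit 426109) (nat_lit 1) (.e (nat_lit 164401) (nat_lit 256) .nil)))) .nil))) (.nd (nat_lit 6) 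
(.lf (nat_lit 287148) (.g (nat_lit 311) (.e (nat_lit 286761) (nat_lit 13) (.e (nat_lit 393265) (nat_lit 22) (.e (nat_lit 417804) (nat_lit 1) .nil))) .nil)) 
(.lf (nat_lit 287212) (.g (nat_lit 2568) (.e (nat_lit 286761) (nat_lit 13) (.e (nat_lit 393289) (nat_lit 25) (.e (nat_lit 458774) (nat_lit 18) (.e (nat_lit 5939) (nat_lit 322) (.e (nat_lit 57400) (nat_lit 10) (.e (nat_lit 319532) (nat_lit 16) .nil)))))) (.g (nat_lit 0) .nil .nil))))) (.nd (nat_lit 5) (.nd (nat_lit 6) 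
(.lf (nat_lit 287132) (.g (nat_lit 601) (.e (nat_lit 286761) (nat_lit 13) (.e (nat_lit 393260) (nat_lit 21) (.e (nat_lit 409640) (nat_lit 17) .nil))) .nil)) 
(.lf (nat_lit 287196) (.g (nat_lit 2822) (.e (nat_lit 286761) (nat_lit 13) (.e (nat_lit 393281) (nat_lit 23) (.e (nat_lit 426100) (nat_lit 1) (.e (nat_lit 164403) (nat_lit 256) (.e (nat_lit 57400) (nat_lit 10) (.e (nat_lit 319528) (nat_lit 16) .nil)))))) (.g (nat_lit 5) .nil .nil)))) (.nd (nat_lit 6) 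
(.lf (nat_lit 287164) (.g (nat_lit 2590) (.e (nat_lit 286761) (nat_lit 13) (.e (nat_lit 393265) (nat_lit 22) (.e (nat_lit 417820) (nat_lit 10) (.e (nat_lit 5626) (nat_lit 312) (.e (nat_lit 214) (nat_lit 19) (.e (nat_lit 319528) (nat_lit 16) .nil)))))) (.g (nat_lit 5) .nil .nil))) 
(.lf (nat_lit 287228) (.g (nat_lit 1401) (.e (nat_lit 286761) (nat_lit 13) (.e (nat_lit 393293) (nat_lit 26) (.e (nat_lit 475204) (nat_lit 40) (.e (nat_lit 704554) (nat_lit 0) (.e (nat_lit 2822) (nat_lit 182) (.e (nat_lit 417536) (nat_lit 6) .nil)))))) (.g (nat_lit 5) .nil .nil)))))))) (.nd (nat_lit 2) (.nd (nat_lit 3) (.nd (nat_lit 4) (.nd (nat_lit 5) (.nd (nat_lit 6) 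
(.lf (nat_lit 287106) (.g (nat_lit 1997) (.e (nat_lit 286761) (nat_lit 13) (.e (nat_lit 393234) (nat_lit 17) (.e (nat_lit 7591) (nat_lit 407) (.e (nat_lit 73772) (nat_lit 24) (.e (nat_lit 761858) (nat_lit 0) (.e (nat_lit 7936) (nat_lit 178) .nil)))))) (.g (nat_lit 4) .nil .nil))) 
(.lf (nat_lit 287170) (.g (nat_lit 2334) (.e (nat_lit 286761) (nat_lit 13) (.e (nat_lit 393265) (nat_lit 22) (.e (nat_lit 417820) (nat_lit 10) (.e (nat_lit 5664) (nat_lit 312) (.e (nat_lit 75) (nat_lit 0) (.e (nat_lit 6112) (nat_lit 332) (.e (nat_lit 7936) (nat_lit 102) .nil))))))) (.g (nat_lit 6) .nil .nil)))) (.nd (nat_lit 6) 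
(.lf (nat_lit 287138) (.g (nat_lit 2046) (.e (nat_lit 286761) (nat_lit 13) (.e (nat_lit 393260) (nat_lit 21) (.e (nat_lit 409649) (nat_lit 18) (.e (nat_lit 303149) (nat_lit 15) (.e (nat_lit 6112) (nat_lit 332) (.e (nat_lit 7936) (nat_lit 102) .nil)))))) (.g (nat_lit 4) .nil .nil))) 
(.lf (nat_lit 287202) (.g (nat_lit 993) (.e (nat_lit 286761) (nat_lit 13) (.e (nat_lit 393284) (nat_lit 24) (.e (nat_lit 434203) (nat_lit 18) (.e (nat_lit 5959) (nat_lit 323) .nil)))) .nil)))) (.nd (nat_lit 5) (.nd (nat_lit 6) 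
(.lf (nat_lit 287122) (.g (nat_lit 2858) (.e (nat_lit 286761) (nat_lit 13) (.e (nat_lit 393259) (nat_lit 21) (.e (nat_lit 409645) (nat_lit 18) (.e (nat_lit 303149) (nat_lit 15) (.e (nat_lit 6112) (nat_lit 332) (.e (nat_lit 1361) (nat_lit 102) .nil)))))) (.g (nat_lit 0) .nil .nil))) 
(.lf (nat_lit 287186) (.g (nat_lit 1407) (.e (nat_lit 286761) (nat_lit 13) (.e (nat_lit 393271) (nat_lit 23) (.e (nat_lit 425986) (nat_lit 0) (.e (nat_lit 3419) (nat_lit 213) .nil)))) .nil))) (.nd (nat_lit 6) 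
(.lf (nat_lit 287154) (.g (nat_lit 1116) (.e (nat_lit 286761) (nat_lit 13) (.e (nat_lit 393265) (nat_lit 22) (.e (nat_lit 417815) (nat_lit 10) (.e (nat_lit 5627) (nat_lit 312) (.e (nat_lit 214) (nat_lit 19) .nil))))) .nil)) 
(.lf (nat_lit 287218) (.g (nat_lit 2582) (.e (nat_lit 286761) (nat_lit 13) (.e (nat_lit 393289) (nat_lit 25) (.e (nat_lit 458804) (nat_lit 38) (.e (nat_lit 655364) (nat_lit 0) (.e (nat_lit 2828) (nat_lit 182) (.e (nat_lit 417536) (nat_lit 6) .nil)))))) (.g (nat_lit 5) .nil .nil)))))) (.nd (nat_lit 4) (.nd (nat_lit 5) (.nd (nat_lit 6) 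
(.lf (nat_lit 287114) (.g (nat_lit 2234) (.e (nat_lit 286761) (nat_lit 13) (.e (nat_lit 393238) (nat_lit 17) (.e (nat_lit 6989) (nat_lit 377) (.e (nat_lit 2777) (nat_lit 178) (.e (nat_lit 286763) (nat_lit 15) .nil))))) .nil)) 
(.lf (nat_lit 287178) (.g (nat_lit 1755) (.e (nat_lit 286761) (nat_lit 13) (.e (nat_lit 393265) (nat_lit 22) (.e (nat_lit 417829) (nat_lit 18) (.e (nat_lit 303149) (nat_lit 15) (.e (nat_lit 6112) (nat_lit 332) (.e (nat_lit 7936) (nat_lit 102) .nil)))))) (.g (nat_lit 4) .nil .nil)))) (.nd (nat_lit 6) 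
(.lf (nat_lit 287146) (.g (nat_lit 3699) (.e (nat_lit 286761) (nat_lit 13) (.e (nat_lit 393264) (nat_lit 22) (.e (nat_lit 417820) (nat_lit 10) (.e (nat_lit 5626) (nat_lit 312) (.e (nat_lit 214) (nat_lit 19) (.e (nat_lit 319531) (nat_lit 16) .nil)))))) (.g (nat_lit 4) .nil .nil))) 
(.lf (nat_lit 287210) (.g (nat_lit 808) (.e (nat_lit 286761) (nat_lit 13) (.e (nat_lit 393289) (nat_lit 25) (.e (nat_lit 458774) (nat_lit 18) (.e (nat_lit 5820) (nat_lit 320) .nil)))) .nil)))) (.nd (nat_lit 5) (.nd (nat_lit 6) 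
(.lf (nat_lit 287130) (.g (nat_lit 810) (.e (nat_lit 286761) (nat_lit 13) (.e (nat_lit 393260) (nat_lit 21) (.e (nat_lit 409623) (nat_lit 10) (.e (nat_lit 5373) (nat_lit 299) .nil)))) .nil)) 
(.lf (nat_lit 287194) (.g (nat_lit 1614) (.e (nat_lit 286761) (nat_lit 13) (.e (nat_lit 393281) (nat_lit 23) (.e (nat_lit 426100) (nat_lit 1) (.e (nat_lit 164399) (nat_lit 256) (.e (nat_lit 57400) (nat_lit 10) .nil))))) .nil))) (.nd (nat_lit 6) 
(.lf (nat_lit 287162) (.g (nat_lit 1726) (.e (nat_lit 286761) (nat_lit 13) (.e (nat_lit 393265) (nat_lit 22) (.e (nat_lit 417820) (nat_lit 10) (.e (nat_lit 5612) (nat_lit 312) (.e (nat_lit 216) (nat_lit 19) (.e (nat_lit 327424) (nat_lit 16) .nil)))))) (.g (nat_lit 5) .nil .nil))) 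
(.lf (nat_lit 287226) (.g (nat_lit 2305) (.e (nat_lit 286761) (nat_lit 13) (.e (nat_lit 393293) (nat_lit 26) (.e (nat_lit 475198) (nat_lit 40) (.e (nat_lit 704590) (nat_lit 3) (.e (nat_lit 164209) (nat_lit 176) (.e (nat_lit 7936) (nat_lit 102) .nil)))))) (.g (nat_lit 4) .nil .nil))))))) (.nd (nat_lit 3) (.nd (nat_lit 4) (.nd (nat_lit 5) (.nd (nat_lit 6) 
(.lf (nat_lit 287110) (.g (nat_lit 764) (.e (nat_lit 286761) (nat_lit 13) (.e (nat_lit 393234) (nat_lit 17) (.e (nat_lit 7593) (nat_lit 407) (.e (nat_lit 73771) (nat_lit 23) .nil)))) .nil)) 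
(.lf (nat_lit 287174) (.g (nat_lit 1282) (.e (nat_lit 286761) (nat_lit 13) (.e (nat_lit 393265) (nat_lit 22) (.e (nat_lit 417821) (nat_lit 10) (.e (nat_lit 5264) (nat_lit 298) (.e (nat_lit 361) (nat_lit 30) (.e (nat_lit 417536) (nat_lit 6) .nil)))))) (.g (nat_lit 5) .nil .nil)))) (.nd (nat_lit 6) 
(.lf (nat_lit 287142) (.g (nat_lit 881) (.e (nat_lit 286761) (nat_lit 13) (.e (nat_lit 393263) (nat_lit 22) (.e (nat_lit 417828) (nat_lit 18) (.e (nat_lit 311040) (nat_lit 25) .nil)))) .nil)) 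
(.lf (nat_lit 287206) (.g (nat_lit 762) (.e (nat_lit 286761) (nat_lit 13) (.e (nat_lit 393284) (nat_lit 24) (.e (nat_lit 434276) (nat_lit 39) (.e (nat_lit 663552) (nat_lit 0) .nil)))) .nil)))) (.nd (nat_lit 5) (.nd (nat_lit 6) 
(.lf (nat_lit 287126) (.g (nat_lit 1936) (.e (nat_lit 286761) (nat_lit 13) (.e (nat_lit 393260) (nat_lit 21) (.e (nat_lit 409616) (nat_lit 10) (.e (nat_lit 5628) (nat_lit 312) .nil)))) .nil)) 
(.lf (nat_lit 287190) (.g (nat_lit 846) (.e (nat_lit 286761) (nat_lit 13) (.e (nat_lit 393277) (nat_lit 23) (.e (nat_lit 426103) (nat_lit 1) (.e (nat_lit 164398) (nat_lit 256) (.e (nat_lit 57400) (nat_lit 10) .nil))))) .nil))) (.nd (nat_lit 6) 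
(.lf (nat_lit 287158) (.g (nat_lit 2346) (.e (nat_lit 286761) (nat_lit 13) (.e (nat_lit 393265) (nat_lit 22) (.e (nat_lit 417820) (nat_lit 10) (.e (nat_lit 5270) (nat_lit 298) (.e (nat_lit 11) (nat_lit 0) (.e (nat_lit 6989) (nat_lit 377) (.e (nat_lit 1361) (nat_lit 102) .nil))))))) (.g (nat_lit 4) .nil .nil))) 
(.lf (nat_lit 287222) (.g (nat_lit 637) (.e (nat_lit 286761) (nat_lit 13) (.e (nat_lit 393291) (nat_lit 26) (.e (nat_lit 475219) (nat_lit 44) .nil))) .nil))))) (.nd (nat_lit 4) (.nd (nat_lit 5) (.nd (nat_lit 6) 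
(.lf (nat_lit 287118) (.g (nat_lit 1057) (.e (nat_lit 286761) (nat_lit 13) (.e (nat_lit 393251) (nat_lit 18) (.e (nat_lit 164183) (nat_lit 154) .nil))) .nil)) 
(.lf (nat_lit 287182) (.g (nat_lit 1569) (.e (nat_lit 286761) (nat_lit 13) (.e (nat_lit 393270) (nat_lit 23) (.e (nat_lit 426402) (nat_lit 15) (.e (nat_lit 2162) (nat_lit 143) (.e (nat_lit 712737) (nat_lit 25) (.e (nat_lit 417536) (nat_lit 6) .nil)))))) (.g (nat_lit 5) .nil .nil)))) (.nd (nat_lit 6) 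
(.lf (nat_lit 287150) (.g (nat_lit 1197) (.e (nat_lit 286761) (nat_lit 13) (.e (nat_lit 393265) (nat_lit 22) (.e (nat_lit 417804) (nat_lit 1) (.e (nat_lit 8446) (nat_lit 140) (.e (nat_lit 57400) (nat_lit 10) (.e (nat_lit 327424) (nat_lit 16) .nil)))))) (.g (nat_lit 5) .nil .nil))) 
(.lf (nat_lit 287214) (.g (nat_lit 1359) (.e (nat_lit 286761) (nat_lit 13) (.e (nat_lit 393289) (nat_lit 25) (.e (nat_lit 458774) (nat_lit 18) (.e (nat_lit 5939) (nat_lit 322) (.e (nat_lit 57400) (nat_lit 10) (.e (nat_lit 327424) (nat_lit 16) .nil)))))) (.g (nat_lit 5) .nil .nil))))) (.nd (nat_lit 5) (.nd (nat_lit 6) 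
(.lf (nat_lit 287134) (.g (nat_lit 954) (.e (nat_lit 286761) (nat_lit 13) (.e (nat_lit 393260) (nat_lit 21) (.e (nat_lit 409645) (nat_lit 18) (.e (nat_lit 311040) (nat_lit 25) .nil)))) .nil)) 
(.lf (nat_lit 287198) (.g (nat_lit 1584) (.e (nat_lit 286761) (nat_lit 13) (.e (nat_lit 393282) (nat_lit 24) (.e (nat_lit 434275) (nat_lit 39) (.e (nat_lit 663565) (nat_lit 3) (.e (nat_lit 57713) (nat_lit 176) .nil))))) .nil))) (.nd (nat_lit 6) 
(.lf (nat_lit 287166) (.g (nat_lit 1455) (.e (nat_lit 286761) (nat_lit 13) (.e (nat_lit 393265) (nat_lit 22) (.e (nat_lit 417820) (nat_lit 10) (.e (nat_lit 5626) (nat_lit 312) (.e (nat_lit 7936) (nat_lit 19) .nil))))) .nil)) 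
(.lf (nat_lit 287230) (.g (nat_lit 2937) (.e (nat_lit 286761) (nat_lit 13) (.e (nat_lit 393293) (nat_lit 26) (.e (nat_lit 475208) (nat_lit 41) (.e (nat_lit 712716) (nat_lit 15) (.e (nat_lit 7065) (nat_lit 377) (.e (nat_lit 1349) (nat_lit 102) .nil)))))) (.g (nat_lit 0) .nil .nil))))))))) (.nd (nat_lit 1) (.nd (nat_lit 2) (.nd (nat_lit 3) (.nd (nat_lit 4) (.nd (nat_lit 5) (.nd (nat_lit 6) 
(.lf (nat_lit 287105) (.g (nat_lit 973) (.e (nat_lit 286761) (nat_lit 13) (.e (nat_lit 393234) (nat_lit 17) (.e (nat_lit 7591) (nat_lit 407) (.e (nat_lit 73771) (nat_lit 23) .nil)))) .nil)) 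
(.lf (nat_lit 287169) (.g (nat_lit 1797) (.e (nat_lit 286761) (nat_lit 13) (.e (nat_lit 393265) (nat_lit 22) (.e (nat_lit 417820) (nat_lit 10) (.e (nat_lit 5629) (nat_lit 312) (.e (nat_lit 216) (nat_lit 19) (.e (nat_lit 327424) (nat_lit 16) .nil)))))) (.g (nat_lit 5) .nil .nil)))) (.nd (nat_lit 6) 
(.lf (nat_lit 287137) (.g (nat_lit 1600) (.e (nat_lit 286761) (nat_lit 13) (.e (nat_lit 393260) (nat_lit 21) (.e (nat_lit 409648) (nat_lit 18) (.e (nat_lit 303147) (nat_lit 15) .nil)))) .nil)) 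
(.lf (nat_lit 287201) (.g (nat_lit 1808) (.e (nat_lit 286761) (nat_lit 13) (.e (nat_lit 393283) (nat_lit 24) (.e (nat_lit 434275) (nat_lit 39) (.e (nat_lit 663589) (nat_lit 14) (.e (nat_lit 2515) (nat_lit 157) .nil))))) .nil)))) (.nd (nat_lit 5) (.nd (nat_lit 6) 
(.lf (nat_lit 287121) (.g (nat_lit 953) (.e (nat_lit 286761) (nat_lit 13) (.e (nat_lit 393251) (nat_lit 18) (.e (nat_lit 171776) (nat_lit 277) .nil))) .nil)) 
(.lf (nat_lit 287185) (.g (nat_lit 1237) (.e (nat_lit 286761) (nat_lit 13) (.e (nat_lit 393270) (nat_lit 23) (.e (nat_lit 426469) (nat_lit 24) (.e (nat_lit 155652) (nat_lit 0) (.e (nat_lit 2822) (nat_lit 182) (.e (nat_lit 417536) (nat_lit 6) .nil)))))) (.g (nat_lit 4) .nil .nil)))) (.nd (nat_lit 6) 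
(.lf (nat_lit 287153) (.g (nat_lit 1267) (.e (nat_lit 286761) (nat_lit 13) (.e (nat_lit 393265) (nat_lit 22) (.e (nat_lit 417804) (nat_lit 1) (.e (nat_lit 8469) (nat_lit 148) (.e (nat_lit 163896) (nat_lit 10) (.e (nat_lit 417536) (nat_lit 6) .nil)))))) (.g (nat_lit 5) .nil .nil))) 
(.lf (nat_lit 287217) (.g (nat_lit 2174) (.e (nat_lit 286761) (nat_lit 13) (.e (nat_lit 393289) (nat_lit 25) (.e (nat_lit 458804) (nat_lit 38) (.e (nat_lit 655364) (nat_lit 0) (.e (nat_lit 2825) (nat_lit 182) (.e (nat_lit 417536) (nat_lit 6) .nil)))))) (.g (nat_lit 5) .nil .nil)))))) (.nd (nat_lit 4) (.nd (nat_lit 5) (.nd (nat_lit 6) 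
(.lf (nat_lit 287113) (.g (nat_lit 458) (.e (nat_lit 286761) (nat_lit 13) (.e (nat_lit 393234) (nat_lit 17) (.e (nat_lit 7936) (nat_lit 409) .nil))) .nil)) 
(.lf (nat_lit 287177) (.g (nat_lit 1962) (.e (nat_lit 286761) (nat_lit 13) (.e (nat_lit 393265) (nat_lit 22) (.e (nat_lit 417828) (nat_lit 18) (.e (nat_lit 303149) (nat_lit 15) (.e (nat_lit 6112) (nat_lit 332) (.e (nat_lit 7936) (nat_lit 102) .nil)))))) (.g (nat_lit 5) .nil .nil)))) (.nd (nat_lit 6) 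
(.lf (nat_lit 287145) (.g (nat_lit 291) (.e (nat_lit 286761) (nat_lit 13) (.e (nat_lit 393263) (nat_lit 22) (.e (nat_lit 425728) (nat_lit 18) .nil))) .nil)) 
(.lf (nat_lit 287209) (.g (nat_lit 3238) (.e (nat_lit 286761) (nat_lit 13) (.e (nat_lit 393288) (nat_lit 25) (.e (nat_lit 458774) (nat_lit 18) (.e (nat_lit 5939) (nat_lit 322) (.e (nat_lit 57400) (nat_lit 10) (.e (nat_lit 319530) (nat_lit 16) .nil)))))) (.g (nat_lit 0) .nil .nil))))) (.nd (nat_lit 5) (.nd (nat_lit 6) 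
(.lf (nat_lit 287129) (.g (nat_lit 1511) (.e (nat_lit 286761) (nat_lit 13) (.e (nat_lit 393260) (nat_lit 21) (.e (nat_lit 409617) (nat_lit 10) (.e (nat_lit 5355) (nat_lit 298) .nil)))) .nil)) 
(.lf (nat_lit 287193) (.g (nat_lit 3092) (.e (nat_lit 286761) (nat_lit 13) (.e (nat_lit 393281) (nat_lit 23) (.e (nat_lit 426100) (nat_lit 1) (.e (nat_lit 164398) (nat_lit 256) (.e (nat_lit 57399) (nat_lit 10) (.e (nat_lit 319530) (nat_lit 16) .nil)))))) (.g (nat_lit 0) .nil .nil)))) (.nd (nat_lit 6) 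
(.lf (nat_lit 287161) (.g (nat_lit 681) (.e (nat_lit 286761) (nat_lit 13) (.e (nat_lit 393265) (nat_lit 22) (.e (nat_lit 417820) (nat_lit 10) (.e (nat_lit 5612) (nat_lit 312) .nil)))) .nil)) 
(.lf (nat_lit 287225) (.g (nat_lit 2345) (.e (nat_lit 286761) (nat_lit 13) (.e (nat_lit 393293) (nat_lit 26) (.e (nat_lit 475196) (nat_lit 40) (.e (nat_lit 704590) (nat_lit 3) (.e (nat_lit 164209) (nat_lit 176) (.e (nat_lit 7936) (nat_lit 102) .nil)))))) (.g (nat_lit 5) .nil .nil))))))) (.nd (nat_lit 3) (.nd (nat_lit 4) (.nd (nat_lit 5) (.nd (nat_lit 6) 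
(.lf (nat_lit 287109) (.g (nat_lit 1905) (.e (nat_lit 286761) (nat_lit 13) (.e (nat_lit 393234) (nat_lit 17) (.e (nat_lit 7593) (nat_lit 407) (.e (nat_lit 73729) (nat_lit 0) (.e (nat_lit 7247) (nat_lit 383) (.e (nat_lit 16128) (nat_lit 7) .nil)))))) (.g (nat_lit 4) .nil .nil))) 
(.lf (nat_lit 287173) (.g (nat_lit 1285) (.e (nat_lit 286761) (nat_lit 13) (.e (nat_lit 393265) (nat_lit 22) (.e (nat_lit 417821) (nat_lit 10) (.e (nat_lit 5262) (nat_lit 298) (.e (nat_lit 361) (nat_lit 30) (.e (nat_lit 417536) (nat_lit 6) .nil)))))) (.g (nat_lit 5) .nil .nil)))) (.nd (nat_lit 6) 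
(.lf (nat_lit 287141) (.g (nat_lit 291) (.e (nat_lit 286761) (nat_lit 13) (.e (nat_lit 393263) (nat_lit 22) (.e (nat_lit 425728) (nat_lit 16) .nil))) .nil)) 
(.lf (nat_lit 287205) (.g (nat_lit 313) (.e (nat_lit 286761) (nat_lit 13) (.e (nat_lit 393284) (nat_lit 24) (.e (nat_lit 434276) (nat_lit 39) .nil))) .nil)))) (.nd (nat_lit 5) (.nd (nat_lit 6) 
(.lf (nat_lit 287125) (.g (nat_lit 1074) (.e (nat_lit 286761) (nat_lit 13) (.e (nat_lit 393259) (nat_lit 21) (.e (nat_lit 409649) (nat_lit 18) (.e (nat_lit 311040) (nat_lit 25) .nil)))) .nil)) 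
(.lf (nat_lit 287189) (.g (nat_lit 2012) (.e (nat_lit 286761) (nat_lit 13) (.e (nat_lit 393275) (nat_lit 23) (.e (nat_lit 426144) (nat_lit 4) (.e (nat_lit 229678) (nat_lit 244) (.e (nat_lit 163896) (nat_lit 10) (.e (nat_lit 417536) (nat_lit 6) .nil)))))) (.g (nat_lit 5) .nil .nil)))) (.nd (nat_lit 6) 
(.lf (nat_lit 287157) (.g (nat_lit 1794) (.e (nat_lit 286761) (nat_lit 13) (.e (nat_lit 393265) (nat_lit 22) (.e (nat_lit 417820) (nat_lit 10) (.e (nat_lit 5259) (nat_lit 298) (.e (nat_lit 361) (nat_lit 30) (.e (nat_lit 417536) (nat_lit 6) .nil)))))) (.g (nat_lit 5) .nil .nil))) 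
(.lf (nat_lit 287221) (.g (nat_lit 719) (.e (nat_lit 286761) (nat_lit 13) (.e (nat_lit 393291) (nat_lit 26) (.e (nat_lit 475216) (nat_lit 44) .nil))) .nil))))) (.nd (nat_lit 4) (.nd (nat_lit 5) (.nd (nat_lit 6) 
(.lf (nat_lit 287117) (.g (nat_lit 1141) (.e (nat_lit 286761) (nat_lit 13) (.e (nat_lit 393251) (nat_lit 18) (.e (nat_lit 164179) (nat_lit 154) .nil))) .nil)) 
(.lf (nat_lit 287181) (.g (nat_lit 1456) (.e (nat_lit 286761) (nat_lit 13) (.e (nat_lit 393270) (nat_lit 23) (.e (nat_lit 426141) (nat_lit 4) (.e (nat_lit 229678) (nat_lit 244) (.e (nat_lit 163896) (nat_lit 10) (.e (nat_lit 417536) (nat_lit 6) .nil)))))) (.g (nat_lit 4) .nil .nil)))) (.nd (nat_lit 6) 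
(.lf (nat_lit 287149) (.g (nat_lit 1804) (.e (nat_lit 286761) (nat_lit 13) (.e (nat_lit 393265) (nat_lit 22) (.e (nat_lit 417804) (nat_lit 1) (.e (nat_lit 8433) (nat_lit 138) (.e (nat_lit 999) (nat_lit 81) (.e (nat_lit 1400) (nat_lit 106) (.e (nat_lit 327424) (nat_lit 16) .nil))))))) (.g (nat_lit 6) .nil .nil))) 
(.lf (nat_lit 287213) (.g (nat_lit 3306) (.e (nat_lit 286761) (nat_lit 13) (.e (nat_lit 393289) (nat_lit 25) (.e (nat_lit 458774) (nat_lit 18) (.e (nat_lit 5939) (nat_lit 322) (.e (nat_lit 57400) (nat_lit 10) (.e (nat_lit 319533) (nat_lit 16) .nil)))))) (.g (nat_lit 0) .nil .nil))))) (.nd (nat_lit 5) (.nd (nat_lit 6) 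
(.lf (nat_lit 287133) (.g (nat_lit 2555) (.e (nat_lit 286761) (nat_lit 13) (.e (nat_lit 393260) (nat_lit 21) (.e (nat_lit 409645) (nat_lit 18) (.e (nat_lit 303149) (nat_lit 15) (.e (nat_lit 6112) (nat_lit 332) (.e (nat_lit 1361) (nat_lit 102) .nil)))))) (.g (nat_lit 4) .nil .nil))) 
(.lf (nat_lit 287197) (.g (nat_lit 1071) (.e (nat_lit 286761) (nat_lit 13) (.e (nat_lit 393282) (nat_lit 24) (.e (nat_lit 434275) (nat_lit 39) (.e (nat_lit 663560) (nat_lit 0) .nil)))) .nil))) (.nd (nat_lit 6) 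
(.lf (nat_lit 287165) (.g (nat_lit 2574) (.e (nat_lit 286761) (nat_lit 13) (.e (nat_lit 393265) (nat_lit 22) (.e (nat_lit 417820) (nat_lit 10) (.e (nat_lit 5626) (nat_lit 312) (.e (nat_lit 214) (nat_lit 19) (.e (nat_lit 327424) (nat_lit 16) .nil)))))) (.g (nat_lit 5) .nil .nil))) 
(.lf (nat_lit 287229) (.g (nat_lit 1316) (.e (nat_lit 286761) (nat_lit 13) (.e (nat_lit 393293) (nat_lit 26) (.e (nat_lit 475204) (nat_lit 40) (.e (nat_lit 704554) (nat_lit 0) (.e (nat_lit 2826) (nat_lit 182) (.e (nat_lit 417536) (nat_lit 6) .nil)))))) (.g (nat_lit 5) .nil .nil)))))))) (.nd (nat_lit 2) (.nd (nat_lit 3) (.nd (nat_lit 4) (.nd (nat_lit 5) (.nd (nat_lit 6) 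
(.lf (nat_lit 287107) (.g (nat_lit 2010) (.e (nat_lit 286761) (nat_lit 13) (.e (nat_lit 393234) (nat_lit 17) (.e (nat_lit 7591) (nat_lit 407) (.e (nat_lit 73772) (nat_lit 24) (.e (nat_lit 761859) (nat_lit 0) (.e (nat_lit 7936) (nat_lit 178) .nil)))))) (.g (nat_lit 4) .nil .nil))) 
(.lf (nat_lit 287171) (.g (nat_lit 2012) (.e (nat_lit 286761) (nat_lit 13) (.e (nat_lit 393265) (nat_lit 22) (.e (nat_lit 417820) (nat_lit 10) (.e (nat_lit 5664) (nat_lit 312) (.e (nat_lit 7936) (nat_lit 19) (.e (nat_lit 319529) (nat_lit 16) .nil)))))) (.g (nat_lit 4) .nil .nil)))) (.nd (nat_lit 6) 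
(.lf (nat_lit 287139) (.g (nat_lit 240) (.e (nat_lit 286761) (nat_lit 13) (.e (nat_lit 393260) (nat_lit 21) (.e (nat_lit 417536) (nat_lit 18) .nil))) .nil)) 
(.lf (nat_lit 287203) (.g (nat_lit 2207) (.e (nat_lit 286761) (nat_lit 13) (.e (nat_lit 393284) (nat_lit 24) (.e (nat_lit 434274) (nat_lit 39) (.e (nat_lit 663554) (nat_lit 0) (.e (nat_lit 1401) (nat_lit 106) (.e (nat_lit 319529) (nat_lit 16) .nil)))))) (.g (nat_lit 5) .nil .nil))))) (.nd (nat_lit 5) (.nd (nat_lit 6) 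
(.lf (nat_lit 287123) (.g (nat_lit 1820) (.e (nat_lit 286761) (nat_lit 13) (.e (nat_lit 393259) (nat_lit 21) (.e (nat_lit 409645) (nat_lit 18) (.e (nat_lit 303149) (nat_lit 15) (.e (nat_lit 6112) (nat_lit 332) (.e (nat_lit 7936) (nat_lit 102) .nil)))))) (.g (nat_lit 4) .nil .nil))) 
(.lf (nat_lit 287187) (.g (nat_lit 1379) (.e (nat_lit 286761) (nat_lit 13) (.e (nat_lit 393271) (nat_lit 23) (.e (nat_lit 425986) (nat_lit 0) (.e (nat_lit 3421) (nat_lit 213) .nil)))) .nil))) (.nd (nat_lit 6) 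
(.lf (nat_lit 287155) (.g (nat_lit 643) (.e (nat_lit 286761) (nat_lit 13) (.e (nat_lit 393265) (nat_lit 22) (.e (nat_lit 417817) (nat_lit 10) (.e (nat_lit 5364) (nat_lit 298) .nil)))) .nil)) 
(.lf (nat_lit 287219) (.g (nat_lit 265) (.e (nat_lit 286761) (nat_lit 13) (.e (nat_lit 393290) (nat_lit 26) (.e (nat_lit 475219) (nat_lit 44) .nil))) .nil))))) (.nd (nat_lit 4) (.nd (nat_lit 5) (.nd (nat_lit 6) 
(.lf (nat_lit 287115) (.g (nat_lit 1265) (.e (nat_lit 286761) (nat_lit 13) (.e (nat_lit 393238) (nat_lit 17) (.e (nat_lit 7101) (nat_lit 380) (.e (nat_lit 164353) (nat_lit 246) (.e (nat_lit 216) (nat_lit 19) .nil))))) .nil)) 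
(.lf (nat_lit 287179) (.g (nat_lit 1124) (.e (nat_lit 286761) (nat_lit 13) (.e (nat_lit 393265) (nat_lit 22) (.e (nat_lit 417830) (nat_lit 19) (.e (nat_lit 311346) (nat_lit 15) .nil)))) .nil))) (.nd (nat_lit 6) 
(.lf (nat_lit 287147) (.g (nat_lit 349) (.e (nat_lit 286761) (nat_lit 13) (.e (nat_lit 393265) (nat_lit 22) (.e (nat_lit 417792) (nat_lit 0) .nil))) .nil)) 
(.lf (nat_lit 287211) (.g (nat_lit 2900) (.e (nat_lit 286761) (nat_lit 13) (.e (nat_lit 393289) (nat_lit 25) (.e (nat_lit 458774) (nat_lit 18) (.e (nat_lit 5939) (nat_lit 322) (.e (nat_lit 57400) (nat_lit 10) (.e (nat_lit 319530) (nat_lit 16) .nil)))))) (.g (nat_lit 0) .nil .nil))))) (.nd (nat_lit 5) (.nd (nat_lit 6) 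
(.lf (nat_lit 287131) (.g (nat_lit 1274) (.e (nat_lit 286761) (nat_lit 13) (.e (nat_lit 393260) (nat_lit 21) (.e (nat_lit 409623) (nat_lit 10) (.e (nat_lit 5664) (nat_lit 312) (.e (nat_lit 7936) (nat_lit 19) .nil))))) .nil)) 
(.lf (nat_lit 287195) (.g (nat_lit 1967) (.e (nat_lit 286761) (nat_lit 13) (.e (nat_lit 393281) (nat_lit 23) (.e (nat_lit 426100) (nat_lit 1) (.e (nat_lit 164403) (nat_lit 256) (.e (nat_lit 57399) (nat_lit 10) (.e (nat_lit 319530) (nat_lit 16) .nil)))))) (.g (nat_lit 4) .nil .nil)))) (.nd (nat_lit 6) 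
(.lf (nat_lit 287163) (.g (nat_lit 3516) (.e (nat_lit 286761) (nat_lit 13) (.e (nat_lit 393265) (nat_lit 22) (.e (nat_lit 417820) (nat_lit 10) (.e (nat_lit 5626) (nat_lit 312) (.e (nat_lit 22) (nat_lit 0) (.e (nat_lit 6179) (nat_lit 332) (.e (nat_lit 1353) (nat_lit 102) .nil))))))) (.g (nat_lit 4) .nil .nil))) 
(.lf (nat_lit 287227) (.g (nat_lit 1589) (.e (nat_lit 286761) (nat_lit 13) (.e (nat_lit 393293) (nat_lit 26) (.e (nat_lit 475200) (nat_lit 40) (.e (nat_lit 704841) (nat_lit 15) (.e (nat_lit 57796) (nat_lit 245) (.e (nat_lit 7936) (nat_lit 102) .nil)))))) (.g (nat_lit 5) .nil .nil))))))) (.nd (nat_lit 3) (.nd (nat_lit 4) (.nd (nat_lit 5) (.nd (nat_lit 6) 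
(.lf (nat_lit 287111) (.g (nat_lit 1853) (.e (nat_lit 286761) (nat_lit 13) (.e (nat_lit 393234) (nat_lit 17) (.e (nat_lit 7593) (nat_lit 407) (.e (nat_lit 73772) (nat_lit 24) (.e (nat_lit 761858) (nat_lit 0) (.e (nat_lit 7936) (nat_lit 178) .nil)))))) (.g (nat_lit 4) .nil .nil))) 
(.lf (nat_lit 287175) (.g (nat_lit 1228) (.e (nat_lit 286761) (nat_lit 13) (.e (nat_lit 393265) (nat_lit 22) (.e (nat_lit 425728) (nat_lit 10) (.e (nat_lit 5259) (nat_lit 298) (.e (nat_lit 361) (nat_lit 30) (.e (nat_lit 417536) (nat_lit 6) .nil)))))) (.g (nat_lit 5) .nil .nil)))) (.nd (nat_lit 6) 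
(.lf (nat_lit 287143) (.g (nat_lit 330) (.e (nat_lit 286761) (nat_lit 13) (.e (nat_lit 393263) (nat_lit 22) (.e (nat_lit 417829) (nat_lit 18) .nil))) .nil)) 
(.lf (nat_lit 287207) (.g (nat_lit 1195) (.e (nat_lit 286761) (nat_lit 13) (.e (nat_lit 393284) (nat_lit 24) (.e (nat_lit 434276) (nat_lit 39) (.e (nat_lit 663560) (nat_lit 0) (.e (nat_lit 1399) (nat_lit 106) (.e (nat_lit 327424) (nat_lit 16) .nil)))))) (.g (nat_lit 5) .nil .nil))))) (.nd (nat_lit 5) (.nd (nat_lit 6) 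
(.lf (nat_lit 287127) (.g (nat_lit 1813) (.e (nat_lit 286761) (nat_lit 13) (.e (nat_lit 393260) (nat_lit 21) (.e (nat_lit 409616) (nat_lit 10) (.e (nat_lit 5630) (nat_lit 312) .nil)))) .nil)) 
(.lf (nat_lit 287191) (.g (nat_lit 1993) (.e (nat_lit 286761) (nat_lit 13) (.e (nat_lit 393280) (nat_lit 23) (.e (nat_lit 426100) (nat_lit 1) (.e (nat_lit 164398) (nat_lit 256) (.e (nat_lit 57400) (nat_lit 10) .nil))))) .nil))) (.nd (nat_lit 6) 
(.lf (nat_lit 287159) (.g (nat_lit 2376) (.e (nat_lit 286761) (nat_lit 13) (.e (nat_lit 393265) (nat_lit 22) (.e (nat_lit 417820) (nat_lit 10) (.e (nat_lit 5270) (nat_lit 298) (.e (nat_lit 359) (nat_lit 30) (.e (nat_lit 417536) (nat_lit 6) .nil)))))) (.g (nat_lit 5) .nil .nil))) 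
(.lf (nat_lit 287223) (.g (nat_lit 685) (.e (nat_lit 286761) (nat_lit 13) (.e (nat_lit 393291) (nat_lit 26) (.e (nat_lit 475220) (nat_lit 44) .nil))) .nil))))) (.nd (nat_lit 4) (.nd (nat_lit 5) (.nd (nat_lit 6) 
(.lf (nat_lit 287119) (.g (nat_lit 1695) (.e (nat_lit 286761) (nat_lit 13) (.e (nat_lit 393251) (nat_lit 18) (.e (nat_lit 164183) (nat_lit 154) (.e (nat_lit 57411) (nat_lit 12) .nil)))) .nil)) 
(.lf (nat_lit 287183) (.g (nat_lit 1288) (.e (nat_lit 286761) (nat_lit 13) (.e (nat_lit 393270) (nat_lit 23) (.e (nat_lit 426442) (nat_lit 19) (.e (nat_lit 106556) (nat_lit 15) (.e (nat_lit 57796) (nat_lit 245) (.e (nat_lit 7936) (nat_lit 102) .nil)))))) (.g (nat_lit 4) .nil .nil)))) (.nd (nat_lit 6) 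
(.lf (nat_lit 287151) (.g (nat_lit 1338) (.e (nat_lit 286761) (nat_lit 13) (.e (nat_lit 393265) (nat_lit 22) (.e (nat_lit 417804) (nat_lit 1) (.e (nat_lit 8467) (nat_lit 148) (.e (nat_lit 163896) (nat_lit 10) (.e (nat_lit 417536) (nat_lit 6) .nil)))))) (.g (nat_lit 5) .nil .nil))) 
(.lf (nat_lit 287215) (.g (nat_lit 1638) (.e (nat_lit 286761) (nat_lit 13) (.e (nat_lit 393289) (nat_lit 25) (.e (nat_lit 458776) (nat_lit 18) (.e (nat_lit 5598) (nat_lit 310) (.e (nat_lit 163896) (nat_lit 10) (.e (nat_lit 417536) (nat_lit 6) .nil)))))) (.g (nat_lit 5) .nil .nil))))) (.nd (nat_lit 5) (.nd (nat_lit 6) 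
(.lf (nat_lit 287135) (.g (nat_lit 2433) (.e (nat_lit 286761) (nat_lit 13) (.e (nat_lit 393260) (nat_lit 21) (.e (nat_lit 409646) (nat_lit 18) (.e (nat_lit 303149) (nat_lit 15) (.e (nat_lit 6112) (nat_lit 332) (.e (nat_lit 1361) (nat_lit 102) .nil)))))) (.g (nat_lit 0) .nil .nil))) 
(.lf (nat_lit 287199) (.g (nat_lit 1157) (.e (nat_lit 286761) (nat_lit 13) (.e (nat_lit 393283) (nat_lit 24) (.e (nat_lit 434209) (nat_lit 18) (.e (nat_lit 5946) (nat_lit 322) .nil)))) .nil))) (.nd (nat_lit 6) 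
(.lf (nat_lit 287167) (.g (nat_lit 1699) (.e (nat_lit 286761) (nat_lit 13) (.e (nat_lit 393265) (nat_lit 22) (.e (nat_lit 417820) (nat_lit 10) (.e (nat_lit 5626) (nat_lit 312) (.e (nat_lit 7936) (nat_lit 19) (.e (nat_lit 319534) (nat_lit 16) .nil)))))) (.g (nat_lit 4) .nil .nil))) 
(.lf (nat_lit 287231) (.g (nat_lit 1156) (.e (nat_lit 286761) (nat_lit 13) (.e (nat_lit 393293) (nat_lit 26) (.e (nat_lit 475208) (nat_lit 41) (.e (nat_lit 712719) (nat_lit 15) (.e (nat_lit 6998) (nat_lit 377) (.e (nat_lit 7936) (nat_lit 102) .nil)))))) (.g (nat_lit 4) .nil .nil))))))))))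

noncomputable def tv3639 : DT := (.nd (nat_lit 0) (.nd (nat_lit 1) (.nd (nat_lit 2) (.nd (nat_lit 3) (.nd (nat_lit 4) (.nd (nat_lit 5) (.nd (nat_lit 6) 
(.lf (nat_lit 287232) (.g (nat_lit 1203) (.e (nat_lit 286761) (nat_lit 13) (.e (nat_lit 393293) (nat_lit 26) (.e (nat_lit 475208) (nat_lit 41) (.e (nat_lit 712737) (nat_lit 25) (.e (nat_lit 417536) (nat_lit 6) .nil))))) (.g (nat_lit 4) .nil .nil))) 
(.lf (nat_lit 287296) (.g (nat_lit 2691) (.e (nat_lit 286761) (nat_lit 13) (.e (nat_lit 393300) (nat_lit 27) (.e (nat_lit 491563) (nat_lit 12) (.e (nat_lit 385036) (nat_lit 16) .nil)))) .nil))) (.nd (nat_lit 6) 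
(.lf (nat_lit 287264) (.g (nat_lit 1697) (.e (nat_lit 286761) (nat_lit 13) (.e (nat_lit 393299) (nat_lit 27) (.e (nat_lit 491565) (nat_lit 12) (.e (nat_lit 385033) (nat_lit 16) .nil)))) .nil)) 
(.lf (nat_lit 287328) (.g (nat_lit 1458) (.e (nat_lit 286761) (nat_lit 13) (.e (nat_lit 393301) (nat_lit 27) (.e (nat_lit 491558) (nat_lit 10) (.e (nat_lit 344091) (nat_lit 18) .nil)))) .nil)))) (.nd (nat_lit 5) (.nd (nat_lit 6) 
(.lf (nat_lit 287248) (.g (nat_lit 1435) (.e (nat_lit 286761) (nat_lit 13) (.e (nat_lit 393298) (nat_lit 27) (.e (nat_lit 491550) (nat_lit 9) (.e (nat_lit 336302) (nat_lit 15) .nil)))) .nil)) 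
(.lf (nat_lit 287312) (.g (nat_lit 951) (.e (nat_lit 286761) (nat_lit 13) (.e (nat_lit 393301) (nat_lit 27) (.e (nat_lit 491544) (nat_lit 7) .nil))) .nil))) (.nd (nat_lit 6) 
(.lf (nat_lit 287280) (.g (nat_lit 2885) (.e (nat_lit 286761) (nat_lit 13) (.e (nat_lit 393300) (nat_lit 27) (.e (nat_lit 491549) (nat_lit 9) (.e (nat_lit 336306) (nat_lit 15) (.e (nat_lit 6966) (nat_lit 377) .nil))))) .nil)) 
(.lf (nat_lit 287344) (.g (nat_lit 3756) (.e (nat_lit 286761) (nat_lit 13) (.e (nat_lit 393301) (nat_lit 27) (.e (nat_lit 491558) (nat_lit 10) (.e (nat_lit 344174) (nat_lit 42) (.e (nat_lit 761858) (nat_lit 0) (.e (nat_lit 7936) (nat_lit 178) .nil)))))) (.g (nat_lit 4) .nil .nil)))))) (.nd (nat_lit 4) (.nd (nat_lit 5) (.nd (nat_lit 6) 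
(.lf (nat_lit 287240) (.g (nat_lit 1041) (.e (nat_lit 286761) (nat_lit 13) (.e (nat_lit 393298) (nat_lit 27) (.e (nat_lit 491547) (nat_lit 9) .nil))) .nil)) 
(.lf (nat_lit 287304) (.g (nat_lit 1422) (.e (nat_lit 286761) (nat_lit 13) (.e (nat_lit 393301) (nat_lit 27) (.e (nat_lit 491526) (nat_lit 0) (.e (nat_lit 1928) (nat_lit 131) .nil)))) .nil))) (.nd (nat_lit 6) 
(.lf (nat_lit 287272) (.g (nat_lit 3041) (.e (nat_lit 286761) (nat_lit 13) (.e (nat_lit 393300) (nat_lit 27) (.e (nat_lit 491548) (nat_lit 9) (.e (nat_lit 336242) (nat_lit 15) (.e (nat_lit 7064) (nat_lit 377) (.e (nat_lit 1349) (nat_lit 102) .nil)))))) (.g (nat_lit 0) .nil .nil))) 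
(.lf (nat_lit 287336) (.g (nat_lit 3426) (.e (nat_lit 286761) (nat_lit 13) (.e (nat_lit 393301) (nat_lit 27) (.e (nat_lit 491558) (nat_lit 10) (.e (nat_lit 344097) (nat_lit 18) (.e (nat_lit 7144) (nat_lit 382) (.e (nat_lit 83) (nat_lit 0) (.e (nat_lit 7936) (nat_lit 178) .nil))))))) (.g (nat_lit 4) .nil .nil))))) (.nd (nat_lit 5) (.nd (nat_lit 6) 
(.lf (nat_lit 287256) (.g (nat_lit 1652) (.e (nat_lit 286761) (nat_lit 13) (.e (nat_lit 393298) (nat_lit 27) (.e (nat_lit 491566) (nat_lit 12) (.e (nat_lit 385032) (nat_lit 16) .nil)))) .nil)) 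
(.lf (nat_lit 287320) (.g (nat_lit 3026) (.e (nat_lit 286761) (nat_lit 13) (.e (nat_lit 393301) (nat_lit 27) (.e (nat_lit 491552) (nat_lit 9) (.e (nat_lit 336253) (nat_lit 15) (.e (nat_lit 6995) (nat_lit 377) (.e (nat_lit 7936) (nat_lit 102) .nil)))))) (.g (nat_lit 4) .nil .nil)))) (.nd (nat_lit 6) 
(.lf (nat_lit 287288) (.g (nat_lit 1137) (.e (nat_lit 286761) (nat_lit 13) (.e (nat_lit 393300) (nat_lit 27) (.e (nat_lit 491556) (nat_lit 9) (.e (nat_lit 343808) (nat_lit 15) .nil)))) .nil)) 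
(.lf (nat_lit 287352) (.g (nat_lit 4834) (.e (nat_lit 286761) (nat_lit 13) (.e (nat_lit 393301) (nat_lit 27) (.e (nat_lit 491559) (nat_lit 10) (.e (nat_lit 344177) (nat_lit 43) (.e (nat_lit 770053) (nat_lit 0) (.e (nat_lit 7936) (nat_lit 178) .nil)))))) (.g (nat_lit 4) .nil .nil))))))) (.nd (nat_lit 3) (.nd (nat_lit 4) (.nd (nat_lit 5) (.nd (nat_lit 6) 
(.lf (nat_lit 287236) (.g (nat_lit 480) (.e (nat_lit 286761) (nat_lit 13) (.e (nat_lit 393296) (nat_lit 26) (.e (nat_lit 475216) (nat_lit 44) .nil))) .nil)) 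
(.lf (nat_lit 287300) (.g (nat_lit 545) (.e (nat_lit 286761) (nat_lit 13) (.e (nat_lit 393301) (nat_lit 27) (.e (nat_lit 491520) (nat_lit 0) .nil))) .nil))) (.nd (nat_lit 6) 
(.lf (nat_lit 287268) (.g (nat_lit 1062) (.e (nat_lit 286761) (nat_lit 13) (.e (nat_lit 393300) (nat_lit 27) (.e (nat_lit 491546) (nat_lit 9) (.e (nat_lit 336255) (nat_lit 15) .nil)))) .nil)) 
(.lf (nat_lit 287332) (.g (nat_lit 4385) (.e (nat_lit 286761) (nat_lit 13) (.e (nat_lit 393301) (nat_lit 27) (.e (nat_lit 491558) (nat_lit 10) (.e (nat_lit 344096) (nat_lit 18) (.e (nat_lit 6927) (nat_lit 372) (.e (nat_lit 8303) (nat_lit 58) .nil)))))) (.g (nat_lit 4) .nil .nil))))) (.nd (nat_lit 5) (.nd (nat_lit 6) 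
(.lf (nat_lit 287252) (.g (nat_lit 1546) (.e (nat_lit 286761) (nat_lit 13) (.e (nat_lit 393298) (nat_lit 27) (.e (nat_lit 491556) (nat_lit 9) (.e (nat_lit 336300) (nat_lit 15) .nil)))) .nil)) 
(.lf (nat_lit 287316) (.g (nat_lit 1309) (.e (nat_lit 286761) (nat_lit 13) (.e (nat_lit 393301) (nat_lit 27) (.e (nat_lit 491552) (nat_lit 9) (.e (nat_lit 336248) (nat_lit 15) .nil)))) .nil))) (.nd (nat_lit 6) 
(.lf (nat_lit 287284) (.g (nat_lit 398) (.e (nat_lit 286761) (nat_lit 13) (.e (nat_lit 393300) (nat_lit 27) (.e (nat_lit 491552) (nat_lit 9) .nil))) .nil)) 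
(.lf (nat_lit 287348) (.g (nat_lit 5001) (.e (nat_lit 286761) (nat_lit 13) (.e (nat_lit 393301) (nat_lit 27) (.e (nat_lit 491559) (nat_lit 10) (.e (nat_lit 344177) (nat_lit 43) (.e (nat_lit 770049) (nat_lit 0) (.e (nat_lit 7936) (nat_lit 178) .nil)))))) (.g (nat_lit 4) .nil .nil)))))) (.nd (nat_lit 4) (.nd (nat_lit 5) (.nd (nat_lit 6) 
(.lf (nat_lit 287244) (.g (nat_lit 1435) (.e (nat_lit 286761) (nat_lit 13) (.e (nat_lit 393298) (nat_lit 27) (.e (nat_lit 491550) (nat_lit 9) (.e (nat_lit 336266) (nat_lit 15) .nil)))) .nil)) 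
(.lf (nat_lit 287308) (.g (nat_lit 1146) (.e (nat_lit 286761) (nat_lit 13) (.e (nat_lit 393301) (nat_lit 27) (.e (nat_lit 491530) (nat_lit 0) (.e (nat_lit 1915) (nat_lit 130) .nil)))) .nil))) (.nd (nat_lit 6) 
(.lf (nat_lit 287276) (.g (nat_lit 1668) (.e (nat_lit 286761) (nat_lit 13) (.e (nat_lit 393300) (nat_lit 27) (.e (nat_lit 491549) (nat_lit 9) (.e (nat_lit 336260) (nat_lit 15) .nil)))) .nil)) 
(.lf (nat_lit 287340) (.g (nat_lit 3392) (.e (nat_lit 286761) (nat_lit 13) (.e (nat_lit 393301) (nat_lit 27) (.e (nat_lit 491558) (nat_lit 10) (.e (nat_lit 344097) (nat_lit 18) (.e (nat_lit 7253) (nat_lit 383) (.e (nat_lit 16128) (nat_lit 7) .nil)))))) (.g (nat_lit 4) .nil .nil))))) (.nd (nat_lit 5) (.nd (nat_lit 6) 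
(.lf (nat_lit 287260) (.g (nat_lit 1059) (.e (nat_lit 286761) (nat_lit 13) (.e (nat_lit 393298) (nat_lit 27) (.e (nat_lit 491573) (nat_lit 15) .nil))) .nil)) 
(.lf (nat_lit 287324) (.g (nat_lit 476) (.e (nat_lit 286761) (nat_lit 13) (.e (nat_lit 393301) (nat_lit 27) (.e (nat_lit 491557) (nat_lit 9) .nil))) .nil))) (.nd (nat_lit 6) 
(.lf (nat_lit 287292) (.g (nat_lit 1340) (.e (nat_lit 286761) (nat_lit 13) (.e (nat_lit 393300) (nat_lit 27) (.e (nat_lit 491560) (nat_lit 10) (.e (nat_lit 344097) (nat_lit 18) .nil)))) .nil)) 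
(.lf (nat_lit 287356) (.g (nat_lit 4645) (.e (nat_lit 286761) (nat_lit 13) (.e (nat_lit 393301) (nat_lit 27) (.e (nat_lit 491560) (nat_lit 10) (.e (nat_lit 344089) (nat_lit 18) (.e (nat_lit 6929) (nat_lit 372) (.e (nat_lit 8303) (nat_lit 58) .nil)))))) (.g (nat_lit 4) .nil .nil)))))))) (.nd (nat_lit 2) (.nd (nat_lit 3) (.nd (nat_lit 4) (.nd (nat_lit 5) (.nd (nat_lit 6) 
(.lf (nat_lit 287234) (.g (nat_lit 3046) (.e (nat_lit 286761) (nat_lit 13) (.e (nat_lit 393293) (nat_lit 26) (.e (nat_lit 475221) (nat_lit 45) (.e (nat_lit 745476) (nat_lit 0) (.e (nat_lit 1401) (nat_lit 106) (.e (nat_lit 319534) (nat_lit 16) .nil)))))) (.g (nat_lit 5) .nil .nil))) 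
(.lf (nat_lit 287298) (.g (nat_lit 1120) (.e (nat_lit 286761) (nat_lit 13) (.e (nat_lit 393300) (nat_lit 27) (.e (nat_lit 491572) (nat_lit 14) (.e (nat_lit 409344) (nat_lit 25) .nil)))) .nil))) (.nd (nat_lit 6) 
(.lf (nat_lit 287266) (.g (nat_lit 659) (.e (nat_lit 286761) (nat_lit 13) (.e (nat_lit 393300) (nat_lit 27) (.e (nat_lit 491526) (nat_lit 0) .nil))) .nil)) 
(.lf (nat_lit 287330) (.g (nat_lit 3188) (.e (nat_lit 286761) (nat_lit 13) (.e (nat_lit 393301) (nat_lit 27) (.e (nat_lit 491558) (nat_lit 10) (.e (nat_lit 344091) (nat_lit 18) (.e (nat_lit 7119) (nat_lit 382) (.e (nat_lit 66) (nat_lit 0) (.e (nat_lit 7936) (nat_lit 178) .nil))))))) (.g (nat_lit 4) .nil .nil))))) (.nd (nat_lit 5) (.nd (nat_lit 6) 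
(.lf (nat_lit 287250) (.g (nat_lit 1052) (.e (nat_lit 286761) (nat_lit 13) (.e (nat_lit 393298) (nat_lit 27) (.e (nat_lit 491551) (nat_lit 9) .nil))) .nil)) 
(.lf (nat_lit 287314) (.g (nat_lit 1361) (.e (nat_lit 286761) (nat_lit 13) (.e (nat_lit 393301) (nat_lit 27) (.e (nat_lit 491546) (nat_lit 9) (.e (nat_lit 336360) (nat_lit 25) .nil)))) .nil))) (.nd (nat_lit 6) 
(.lf (nat_lit 287282) (.g (nat_lit 2329) (.e (nat_lit 286761) (nat_lit 13) (.e (nat_lit 393300) (nat_lit 27) (.e (nat_lit 491549) (nat_lit 9) (.e (nat_lit 336360) (nat_lit 25) (.e (nat_lit 417536) (nat_lit 6) .nil))))) (.g (nat_lit 4) .nil .nil))) 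
(.lf (nat_lit 287346) (.g (nat_lit 1985) (.e (nat_lit 286761) (nat_lit 13) (.e (nat_lit 393301) (nat_lit 27) (.e (nat_lit 491559) (nat_lit 10) (.e (nat_lit 344091) (nat_lit 18) .nil)))) .nil))))) (.nd (nat_lit 4) (.nd (nat_lit 5) (.nd (nat_lit 6) 
(.lf (nat_lit 287242) (.g (nat_lit 1435) (.e (nat_lit 286761) (nat_lit 13) (.e (nat_lit 393298) (nat_lit 27) (.e (nat_lit 491550) (nat_lit 9) (.e (nat_lit 336257) (nat_lit 15) .nil)))) .nil)) 
(.lf (nat_lit 287306) (.g (nat_lit 968) (.e (nat_lit 286761) (nat_lit 13) (.e (nat_lit 393301) (nat_lit 27) (.e (nat_lit 491529) (nat_lit 0) .nil))) .nil))) (.nd (nat_lit 6) 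
(.lf (nat_lit 287274) (.g (nat_lit 1637) (.e (nat_lit 286761) (nat_lit 13) (.e (nat_lit 393300) (nat_lit 27) (.e (nat_lit 491549) (nat_lit 9) (.e (nat_lit 336257) (nat_lit 15) .nil)))) .nil)) 
(.lf (nat_lit 287338) (.g (nat_lit 3457) (.e (nat_lit 286761) (nat_lit 13) (.e (nat_lit 393301) (nat_lit 27) (.e (nat_lit 491558) (nat_lit 10) (.e (nat_lit 344097) (nat_lit 18) (.e (nat_lit 7151) (nat_lit 382) (.e (nat_lit 81) (nat_lit 0) (.e (nat_lit 7936) (nat_lit 178) .nil))))))) (.g (nat_lit 4) .nil .nil))))) (.nd (nat_lit 5) (.nd (nat_lit 6) 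
(.lf (nat_lit 287258) (.g (nat_lit 2071) (.e (nat_lit 286761) (nat_lit 13) (.e (nat_lit 393298) (nat_lit 27) (.e (nat_lit 491566) (nat_lit 12) (.e (nat_lit 385038) (nat_lit 16) .nil)))) .nil)) 
(.lf (nat_lit 287322) (.g (nat_lit 2794) (.e (nat_lit 286761) (nat_lit 13) (.e (nat_lit 393301) (nat_lit 27) (.e (nat_lit 491552) (nat_lit 9) (.e (nat_lit 336358) (nat_lit 25) (.e (nat_lit 417536) (nat_lit 6) .nil))))) (.g (nat_lit 4) .nil .nil)))) (.nd (nat_lit 6) 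
(.lf (nat_lit 287290) (.g (nat_lit 545) (.e (nat_lit 286761) (nat_lit 13) (.e (nat_lit 393300) (nat_lit 27) (.e (nat_lit 491558) (nat_lit 10) .nil))) .nil)) 
(.lf (nat_lit 287354) (.g (nat_lit 4864) (.e (nat_lit 286761) (nat_lit 13) (.e (nat_lit 393301) (nat_lit 27) (.e (nat_lit 491560) (nat_lit 10) (.e (nat_lit 344088) (nat_lit 18) (.e (nat_lit 6927) (nat_lit 372) (.e (nat_lit 8303) (nat_lit 58) .nil)))))) (.g (nat_lit 4) .nil .nil))))))) (.nd (nat_lit 3) (.nd (nat_lit 4) (.nd (nat_lit 5) (.nd (nat_lit 6) 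
(.lf (nat_lit 287238) (.g (nat_lit 1917) (.e (nat_lit 286761) (nat_lit 13) (.e (nat_lit 393297) (nat_lit 27) (.e (nat_lit 491566) (nat_lit 12) (.e (nat_lit 385032) (nat_lit 16) .nil)))) .nil)) 
(.lf (nat_lit 287302) (.g (nat_lit 1372) (.e (nat_lit 286761) (nat_lit 13) (.e (nat_lit 393301) (nat_lit 27) (.e (nat_lit 491525) (nat_lit 0) (.e (nat_lit 7936) (nat_lit 358) .nil)))) .nil))) (.nd (nat_lit 6) 
(.lf (nat_lit 287270) (.g (nat_lit 2165) (.e (nat_lit 286761) (nat_lit 13) (.e (nat_lit 393300) (nat_lit 27) (.e (nat_lit 491547) (nat_lit 9) (.e (nat_lit 336360) (nat_lit 25) (.e (nat_lit 417536) (nat_lit 6) .nil))))) (.g (nat_lit 4) .nil .nil))) 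
(.lf (nat_lit 287334) (.g (nat_lit 3382) (.e (nat_lit 286761) (nat_lit 13) (.e (nat_lit 393301) (nat_lit 27) (.e (nat_lit 491558) (nat_lit 10) (.e (nat_lit 344096) (nat_lit 18) (.e (nat_lit 7122) (nat_lit 382) (.e (nat_lit 67) (nat_lit 0) (.e (nat_lit 7936) (nat_lit 178) .nil))))))) (.g (nat_lit 4) .nil .nil))))) (.nd (nat_lit 5) (.nd (nat_lit 6) 
(.lf (nat_lit 287254) (.g (nat_lit 2181) (.e (nat_lit 286761) (nat_lit 13) (.e (nat_lit 393298) (nat_lit 27) (.e (nat_lit 491562) (nat_lit 12) (.e (nat_lit 385037) (nat_lit 16) .nil)))) .nil)) 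
(.lf (nat_lit 287318) (.g (nat_lit 2959) (.e (nat_lit 286761) (nat_lit 13) (.e (nat_lit 393301) (nat_lit 27) (.e (nat_lit 491552) (nat_lit 9) (.e (nat_lit 336250) (nat_lit 15) (.e (nat_lit 6947) (nat_lit 377) (.e (nat_lit 7936) (nat_lit 102) .nil)))))) (.g (nat_lit 5) .nil .nil)))) (.nd (nat_lit 6) 
(.lf (nat_lit 287286) (.g (nat_lit 390) (.e (nat_lit 286761) (nat_lit 13) (.e (nat_lit 393300) (nat_lit 27) (.e (nat_lit 491555) (nat_lit 9) .nil))) .nil)) 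
(.lf (nat_lit 287350) (.g (nat_lit 5200) (.e (nat_lit 286761) (nat_lit 13) (.e (nat_lit 393301) (nat_lit 27) (.e (nat_lit 491559) (nat_lit 10) (.e (nat_lit 344177) (nat_lit 43) (.e (nat_lit 770051) (nat_lit 0) (.e (nat_lit 7936) (nat_lit 178) .nil)))))) (.g (nat_lit 4) .nil .nil)))))) (.nd (nat_lit 4) (.nd (nat_lit 5) (.nd (nat_lit 6) 
(.lf (nat_lit 287246) (.g (nat_lit 1435) (.e (nat_lit 286761) (nat_lit 13) (.e (nat_lit 393298) (nat_lit 27) (.e (nat_lit 491550) (nat_lit 9) (.e (nat_lit 336299) (nat_lit 15) .nil)))) .nil)) 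
(.lf (nat_lit 287310) (.g (nat_lit 1198) (.e (nat_lit 286761) (nat_lit 13) (.e (nat_lit 393301) (nat_lit 27) (.e (nat_lit 491532) (nat_lit 1) (.e (nat_lit 65280) (nat_lit 235) .nil)))) .nil))) (.nd (nat_lit 6) 
(.lf (nat_lit 287278) (.g (nat_lit 2329) (.e (nat_lit 286761) (nat_lit 13) (.e (nat_lit 393300) (nat_lit 27) (.e (nat_lit 491549) (nat_lit 9) (.e (nat_lit 336261) (nat_lit 15) (.e (nat_lit 7936) (nat_lit 377) .nil))))) .nil)) 
(.lf (nat_lit 287342) (.g (nat_lit 3805) (.e (nat_lit 286761) (nat_lit 13) (.e (nat_lit 393301) (nat_lit 27) (.e (nat_lit 491558) (nat_lit 10) (.e (nat_lit 344097) (nat_lit 18) (.e (nat_lit 7255) (nat_lit 383) (.e (nat_lit 16128) (nat_lit 7) .nil)))))) (.g (nat_lit 4) .nil .nil))))) (.nd (nat_lit 5) (.nd (nat_lit 6) 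
(.lf (nat_lit 287262) (.g (nat_lit 2932) (.e (nat_lit 286761) (nat_lit 13) (.e (nat_lit 393299) (nat_lit 27) (.e (nat_lit 491563) (nat_lit 12) (.e (nat_lit 385032) (nat_lit 16) .nil)))) .nil)) 
(.lf (nat_lit 287326) (.g (nat_lit 5115) (.e (nat_lit 286761) (nat_lit 13) (.e (nat_lit 393301) (nat_lit 27) (.e (nat_lit 491558) (nat_lit 10) (.e (nat_lit 344090) (nat_lit 18) (.e (nat_lit 6927) (nat_lit 372) (.e (nat_lit 8305) (nat_lit 58) .nil)))))) (.g (nat_lit 4) .nil .nil)))) (.nd (nat_lit 6) 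
(.lf (nat_lit 287294) (.g (nat_lit 2794) (.e (nat_lit 286761) (nat_lit 13) (.e (nat_lit 393300) (nat_lit 27) (.e (nat_lit 491563) (nat_lit 12) (.e (nat_lit 385032) (nat_lit 16) .nil)))) .nil)) 
(.lf (nat_lit 287358) (.g (nat_lit 4208) (.e (nat_lit 286761) (nat_lit 13) (.e (nat_lit 393301) (nat_lit 27) (.e (nat_lit 491560) (nat_lit 10) (.e (nat_lit 344090) (nat_lit 18) (.e (nat_lit 7247) (nat_lit 383) (.e (nat_lit 16128) (nat_lit 7) .nil)))))) (.g (nat_lit 4) .nil .nil))))))))) (.nd (nat_lit 1) (.nd (nat_lit 2) (.nd (nat_lit 3) (.nd (nat_lit 4) (.nd (nat_lit 5) (.nd (nat_lit 6) 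
(.lf (nat_lit 287233) (.g (nat_lit 1846) (.e (nat_lit 286761) (nat_lit 13) (.e (nat_lit 393293) (nat_lit 26) (.e (nat_lit 475210) (nat_lit 41) (.e (nat_lit 712737) (nat_lit 25) (.e (nat_lit 417536) (nat_lit 6) .nil))))) (.g (nat_lit 4) .nil .nil))) 
(.lf (nat_lit 287297) (.g (nat_lit 1326) (.e (nat_lit 286761) (nat_lit 13) (.e (nat_lit 393300) (nat_lit 27) (.e (nat_lit 491565) (nat_lit 12) (.e (nat_lit 385032) (nat_lit 16) .nil)))) .nil))) (.nd (nat_lit 6) 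
(.lf (nat_lit 287265) (.g (nat_lit 1714) (.e (nat_lit 286761) (nat_lit 13) (.e (nat_lit 393299) (nat_lit 27) (.e (nat_lit 491565) (nat_lit 12) (.e (nat_lit 385037) (nat_lit 16) .nil)))) .nil)) 
(.lf (nat_lit 287329) (.g (nat_lit 5067) (.e (nat_lit 286761) (nat_lit 13) (.e (nat_lit 393301) (nat_lit 27) (.e (nat_lit 491558) (nat_lit 10) (.e (nat_lit 344091) (nat_lit 18) (.e (nat_lit 6927) (nat_lit 372) (.e (nat_lit 8305) (nat_lit 58) .nil)))))) (.g (nat_lit 4) .nil .nil))))) (.nd (nat_lit 5) (.nd (nat_lit 6) 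
(.lf (nat_lit 287249) (.g (nat_lit 1435) (.e (nat_lit 286761) (nat_lit 13) (.e (nat_lit 393298) (nat_lit 27) (.e (nat_lit 491550) (nat_lit 9) (.e (nat_lit 336308) (nat_lit 15) .nil)))) .nil)) 
(.lf (nat_lit 287313) (.g (nat_lit 1945) (.e (nat_lit 286761) (nat_lit 13) (.e (nat_lit 393301) (nat_lit 27) (.e (nat_lit 491544) (nat_lit 7) (.e (nat_lit 319514) (nat_lit 11) .nil)))) .nil))) (.nd (nat_lit 6) 
(.lf (nat_lit 287281) (.g (nat_lit 4574) (.e (nat_lit 286761) (nat_lit 13) (.e (nat_lit 393300) (nat_lit 27) (.e (nat_lit 491549) (nat_lit 9) (.e (nat_lit 336306) (nat_lit 15) (.e (nat_lit 6986) (nat_lit 377) (.e (nat_lit 1361) (nat_lit 102) .nil)))))) (.g (nat_lit 5) .nil .nil))) 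
(.lf (nat_lit 287345) (.g (nat_lit 3749) (.e (nat_lit 286761) (nat_lit 13) (.e (nat_lit 393301) (nat_lit 27) (.e (nat_lit 491558) (nat_lit 10) (.e (nat_lit 344174) (nat_lit 42) (.e (nat_lit 761859) (nat_lit 0) (.e (nat_lit 7936) (nat_lit 178) .nil)))))) (.g (nat_lit 4) .nil .nil)))))) (.nd (nat_lit 4) (.nd (nat_lit 5) (.nd (nat_lit 6) 
(.lf (nat_lit 287241) (.g (nat_lit 980) (.e (nat_lit 286761) (nat_lit 13) (.e (nat_lit 393298) (nat_lit 27) (.e (nat_lit 491548) (nat_lit 9) .nil))) .nil)) 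
(.lf (nat_lit 287305) (.g (nat_lit 1274) (.e (nat_lit 286761) (nat_lit 13) (.e (nat_lit 393301) (nat_lit 27) (.e (nat_lit 491526) (nat_lit 0) (.e (nat_lit 7936) (nat_lit 358) .nil)))) .nil))) (.nd (nat_lit 6) 
(.lf (nat_lit 287273) (.g (nat_lit 1686) (.e (nat_lit 286761) (nat_lit 13) (.e (nat_lit 393300) (nat_lit 27) (.e (nat_lit 491549) (nat_lit 9) (.e (nat_lit 336240) (nat_lit 15) .nil)))) .nil)) 
(.lf (nat_lit 287337) (.g (nat_lit 3230) (.e (nat_lit 286761) (nat_lit 13) (.e (nat_lit 393301) (nat_lit 27) (.e (nat_lit 491558) (nat_lit 10) (.e (nat_lit 344097) (nat_lit 18) (.e (nat_lit 7151) (nat_lit 382) (.e (nat_lit 80) (nat_lit 0) (.e (nat_lit 7936) (nat_lit 178) .nil))))))) (.g (nat_lit 4) .nil .nil))))) (.nd (nat_lit 5) (.nd (nat_lit 6) 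
(.lf (nat_lit 287257) (.g (nat_lit 2301) (.e (nat_lit 286761) (nat_lit 13) (.e (nat_lit 393298) (nat_lit 27) (.e (nat_lit 491566) (nat_lit 12) (.e (nat_lit 385033) (nat_lit 16) .nil)))) .nil)) 
(.lf (nat_lit 287321) (.g (nat_lit 1518) (.e (nat_lit 286761) (nat_lit 13) (.e (nat_lit 393301) (nat_lit 27) (.e (nat_lit 491552) (nat_lit 9) (.e (nat_lit 336290) (nat_lit 15) .nil)))) .nil))) (.nd (nat_lit 6) 
(.lf (nat_lit 287289) (.g (nat_lit 1389) (.e (nat_lit 286761) (nat_lit 13) (.e (nat_lit 393300) (nat_lit 27) (.e (nat_lit 491556) (nat_lit 9) (.e (nat_lit 336361) (nat_lit 26) .nil)))) .nil)) 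
(.lf (nat_lit 287353) (.g (nat_lit 1995) (.e (nat_lit 286761) (nat_lit 13) (.e (nat_lit 393301) (nat_lit 27) (.e (nat_lit 491560) (nat_lit 10) (.e (nat_lit 344088) (nat_lit 18) .nil)))) .nil)))))) (.nd (nat_lit 3) (.nd (nat_lit 4) (.nd (nat_lit 5) (.nd (nat_lit 6) 
(.lf (nat_lit 287237) (.g (nat_lit 872) (.e (nat_lit 286761) (nat_lit 13) (.e (nat_lit 393296) (nat_lit 26) (.e (nat_lit 475219) (nat_lit 44) .nil))) .nil)) 
(.lf (nat_lit 287301) (.g (nat_lit 895) (.e (nat_lit 286761) (nat_lit 13) (.e (nat_lit 393301) (nat_lit 27) (.e (nat_lit 491525) (nat_lit 0) .nil))) .nil))) (.nd (nat_lit 6) 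
(.lf (nat_lit 287269) (.g (nat_lit 1121) (.e (nat_lit 286761) (nat_lit 13) (.e (nat_lit 393300) (nat_lit 27) (.e (nat_lit 491547) (nat_lit 9) (.e (nat_lit 336240) (nat_lit 15) .nil)))) .nil)) 
(.lf (nat_lit 287333) (.g (nat_lit 3247) (.e (nat_lit 286761) (nat_lit 13) (.e (nat_lit 393301) (nat_lit 27) (.e (nat_lit 491558) (nat_lit 10) (.e (nat_lit 344096) (nat_lit 18) (.e (nat_lit 7122) (nat_lit 382) (.e (nat_lit 66) (nat_lit 0) (.e (nat_lit 7936) (nat_lit 178) .nil))))))) (.g (nat_lit 4) .nil .nil))))) (.nd (nat_lit 5) (.nd (nat_lit 6) 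
(.lf (nat_lit 287253) (.g (nat_lit 2322) (.e (nat_lit 286761) (nat_lit 13) (.e (nat_lit 393298) (nat_lit 27) (.e (nat_lit 491562) (nat_lit 12) (.e (nat_lit 385032) (nat_lit 16) .nil)))) .nil)) 
(.lf (nat_lit 287317) (.g (nat_lit 3525) (.e (nat_lit 286761) (nat_lit 13) (.e (nat_lit 393301) (nat_lit 27) (.e (nat_lit 491552) (nat_lit 9) (.e (nat_lit 336248) (nat_lit 15) (.e (nat_lit 6953) (nat_lit 377) (.e (nat_lit 1360) (nat_lit 102) .nil)))))) (.g (nat_lit 6) .nil .nil)))) (.nd (nat_lit 6) 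
(.lf (nat_lit 287285) (.g (nat_lit 470) (.e (nat_lit 286761) (nat_lit 13) (.e (nat_lit 393300) (nat_lit 27) (.e (nat_lit 491553) (nat_lit 9) .nil))) .nil)) 
(.lf (nat_lit 287349) (.g (nat_lit 5061) (.e (nat_lit 286761) (nat_lit 13) (.e (nat_lit 393301) (nat_lit 27) (.e (nat_lit 491559) (nat_lit 10) (.e (nat_lit 344177) (nat_lit 43) (.e (nat_lit 770050) (nat_lit 0) (.e (nat_lit 7936) (nat_lit 178) .nil)))))) (.g (nat_lit 4) .nil .nil)))))) (.nd (nat_lit 4) (.nd (nat_lit 5) (.nd (nat_lit 6) 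
(.lf (nat_lit 287245) (.g (nat_lit 1435) (.e (nat_lit 286761) (nat_lit 13) (.e (nat_lit 393298) (nat_lit 27) (.e (nat_lit 491550) (nat_lit 9) (.e (nat_lit 336286) (nat_lit 15) .nil)))) .nil)) 
(.lf (nat_lit 287309) (.g (nat_lit 1029) (.e (nat_lit 286761) (nat_lit 13) (.e (nat_lit 393301) (nat_lit 27) (.e (nat_lit 491532) (nat_lit 1) .nil))) .nil))) (.nd (nat_lit 6) 
(.lf (nat_lit 287277) (.g (nat_lit 1943) (.e (nat_lit 286761) (nat_lit 13) (.e (nat_lit 393300) (nat_lit 27) (.e (nat_lit 491549) (nat_lit 9) (.e (nat_lit 336261) (nat_lit 15) .nil)))) .nil)) 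
(.lf (nat_lit 287341) (.g (nat_lit 3612) (.e (nat_lit 286761) (nat_lit 13) (.e (nat_lit 393301) (nat_lit 27) (.e (nat_lit 491558) (nat_lit 10) (.e (nat_lit 344097) (nat_lit 18) (.e (nat_lit 7254) (nat_lit 383) (.e (nat_lit 16128) (nat_lit 7) .nil)))))) (.g (nat_lit 4) .nil .nil))))) (.nd (nat_lit 5) (.nd (nat_lit 6) 
(.lf (nat_lit 287261) (.g (nat_lit 2050) (.e (nat_lit 286761) (nat_lit 13) (.e (nat_lit 393299) (nat_lit 27) (.e (nat_lit 491562) (nat_lit 12) (.e (nat_lit 385032) (nat_lit 16) .nil)))) .nil)) 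
(.lf (nat_lit 287325) (.g (nat_lit 4171) (.e (nat_lit 286761) (nat_lit 13) (.e (nat_lit 393301) (nat_lit 27) (.e (nat_lit 491557) (nat_lit 9) (.e (nat_lit 336288) (nat_lit 15) (.e (nat_lit 6988) (nat_lit 377) (.e (nat_lit 1361) (nat_lit 102) .nil)))))) (.g (nat_lit 4) .nil .nil)))) (.nd (nat_lit 6) 
(.lf (nat_lit 287293) (.g (nat_lit 1782) (.e (nat_lit 286761) (nat_lit 13) (.e (nat_lit 393300) (nat_lit 27) (.e (nat_lit 491562) (nat_lit 12) (.e (nat_lit 385032) (nat_lit 16) .nil)))) .nil)) 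
(.lf (nat_lit 287357) (.g (nat_lit 4203) (.e (nat_lit 286761) (nat_lit 13) (.e (nat_lit 393301) (nat_lit 27) (.e (nat_lit 491560) (nat_lit 10) (.e (nat_lit 344090) (nat_lit 18) (.e (nat_lit 6927) (nat_lit 372) (.e (nat_lit 8305) (nat_lit 58) .nil)))))) (.g (nat_lit 4) .nil .nil)))))))) (.nd (nat_lit 2) (.nd (nat_lit 3) (.nd (nat_lit 4) (.nd (nat_lit 5) (.nd (nat_lit 6) 
(.lf (nat_lit 287235) (.g (nat_lit 955) (.e (nat_lit 286761) (nat_lit 13) (.e (nat_lit 393294) (nat_lit 26) (.e (nat_lit 475220) (nat_lit 44) .nil))) .nil)) 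
(.lf (nat_lit 287299) (.g (nat_lit 709) (.e (nat_lit 286761) (nat_lit 13) (.e (nat_lit 393300) (nat_lit 27) (.e (nat_lit 491576) (nat_lit 15) .nil))) .nil))) (.nd (nat_lit 6) 
(.lf (nat_lit 287267) (.g (nat_lit 3291) (.e (nat_lit 286761) (nat_lit 13) (.e (nat_lit 393300) (nat_lit 27) (.e (nat_lit 491546) (nat_lit 9) (.e (nat_lit 336242) (nat_lit 15) (.e (nat_lit 7064) (nat_lit 377) (.e (nat_lit 1349) (nat_lit 102) .nil)))))) (.g (nat_lit 0) .nil .nil))) 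
(.lf (nat_lit 287331) (.g (nat_lit 4072) (.e (nat_lit 286761) (nat_lit 13) (.e (nat_lit 393301) (nat_lit 27) (.e (nat_lit 491558) (nat_lit 10) (.e (nat_lit 344091) (nat_lit 18) (.e (nat_lit 7247) (nat_lit 383) (.e (nat_lit 16128) (nat_lit 7) .nil)))))) (.g (nat_lit 5) .nil .nil))))) (.nd (nat_lit 5) (.nd (nat_lit 6) 
(.lf (nat_lit 287251) (.g (nat_lit 1052) (.e (nat_lit 286761) (nat_lit 13) (.e (nat_lit 393298) (nat_lit 27) (.e (nat_lit 491554) (nat_lit 9) .nil))) .nil)) 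
(.lf (nat_lit 287315) (.g (nat_lit 421) (.e (nat_lit 286761) (nat_lit 13) (.e (nat_lit 393301) (nat_lit 27) (.e (nat_lit 491551) (nat_lit 9) .nil))) .nil))) (.nd (nat_lit 6) 
(.lf (nat_lit 287283) (.g (nat_lit 2576) (.e (nat_lit 286761) (nat_lit 13) (.e (nat_lit 393300) (nat_lit 27) (.e (nat_lit 491549) (nat_lit 9) (.e (nat_lit 336365) (nat_lit 26) (.e (nat_lit 417809) (nat_lit 6) .nil))))) (.g (nat_lit 4) .nil .nil))) 
(.lf (nat_lit 287347) (.g (nat_lit 5314) (.e (nat_lit 286761) (nat_lit 13) (.e (nat_lit 393301) (nat_lit 27) (.e (nat_lit 491559) (nat_lit 10) (.e (nat_lit 344177) (nat_lit 43) (.e (nat_lit 770048) (nat_lit 0) (.e (nat_lit 7936) (nat_lit 178) .nil)))))) (.g (nat_lit 4) .nil .nil)))))) (.nd (nat_lit 4) (.nd (nat_lit 5) (.nd (nat_lit 6) 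
(.lf (nat_lit 287243) (.g (nat_lit 1752) (.e (nat_lit 286761) (nat_lit 13) (.e (nat_lit 393298) (nat_lit 27) (.e (nat_lit 491550) (nat_lit 9) (.e (nat_lit 336258) (nat_lit 15) (.e (nat_lit 7936) (nat_lit 377) .nil))))) .nil)) 
(.lf (nat_lit 287307) (.g (nat_lit 945) (.e (nat_lit 286761) (nat_lit 13) (.e (nat_lit 393301) (nat_lit 27) (.e (nat_lit 491530) (nat_lit 0) .nil))) .nil))) (.nd (nat_lit 6) 
(.lf (nat_lit 287275) (.g (nat_lit 1943) (.e (nat_lit 286761) (nat_lit 13) (.e (nat_lit 393300) (nat_lit 27) (.e (nat_lit 491549) (nat_lit 9) (.e (nat_lit 336259) (nat_lit 15) .nil)))) .nil)) 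
(.lf (nat_lit 287339) (.g (nat_lit 3636) (.e (nat_lit 286761) (nat_lit 13) (.e (nat_lit 393301) (nat_lit 27) (.e (nat_lit 491558) (nat_lit 10) (.e (nat_lit 344097) (nat_lit 18) (.e (nat_lit 7151) (nat_lit 382) (.e (nat_lit 83) (nat_lit 0) (.e (nat_lit 7936) (nat_lit 178) .nil))))))) (.g (nat_lit 4) .nil .nil))))) (.nd (nat_lit 5) (.nd (nat_lit 6) 
(.lf (nat_lit 287259) (.g (nat_lit 1686) (.e (nat_lit 286761) (nat_lit 13) (.e (nat_lit 393298) (nat_lit 27) (.e (nat_lit 491566) (nat_lit 12) (.e (nat_lit 392960) (nat_lit 16) .nil)))) .nil)) 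
(.lf (nat_lit 287323) (.g (nat_lit 1479) (.e (nat_lit 286761) (nat_lit 13) (.e (nat_lit 393301) (nat_lit 27) (.e (nat_lit 491556) (nat_lit 9) (.e (nat_lit 336237) (nat_lit 15) .nil)))) .nil))) (.nd (nat_lit 6) 
(.lf (nat_lit 287291) (.g (nat_lit 457) (.e (nat_lit 286761) (nat_lit 13) (.e (nat_lit 393300) (nat_lit 27) (.e (nat_lit 491560) (nat_lit 10) .nil))) .nil)) 
(.lf (nat_lit 287355) (.g (nat_lit 2443) (.e (nat_lit 286761) (nat_lit 13) (.e (nat_lit 393301) (nat_lit 27) (.e (nat_lit 491560) (nat_lit 10) (.e (nat_lit 344088) (nat_lit 18) (.e (nat_lit 7247) (nat_lit 383) .nil))))) .nil)))))) (.nd (nat_lit 3) (.nd (nat_lit 4) (.nd (nat_lit 5) (.nd (nat_lit 6) 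
(.lf (nat_lit 287239) (.g (nat_lit 1926) (.e (nat_lit 286761) (nat_lit 13) (.e (nat_lit 393297) (nat_lit 27) (.e (nat_lit 491566) (nat_lit 12) (.e (nat_lit 385036) (nat_lit 16) .nil)))) .nil)) 
(.lf (nat_lit 287303) (.g (nat_lit 254) (.e (nat_lit 286761) (nat_lit 13) (.e (nat_lit 393301) (nat_lit 27) (.e (nat_lit 491526) (nat_lit 0) .nil))) .nil))) (.nd (nat_lit 6) 
(.lf (nat_lit 287271) (.g (nat_lit 1191) (.e (nat_lit 286761) (nat_lit 13) (.e (nat_lit 393300) (nat_lit 27) (.e (nat_lit 491547) (nat_lit 9) (.e (nat_lit 343808) (nat_lit 25) .nil)))) .nil)) 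
(.lf (nat_lit 287335) (.g (nat_lit 4005) (.e (nat_lit 286761) (nat_lit 13) (.e (nat_lit 393301) (nat_lit 27) (.e (nat_lit 491558) (nat_lit 10) (.e (nat_lit 344096) (nat_lit 18) (.e (nat_lit 7247) (nat_lit 383) (.e (nat_lit 16128) (nat_lit 7) .nil)))))) (.g (nat_lit 5) .nil .nil))))) (.nd (nat_lit 5) (.nd (nat_lit 6) 
(.lf (nat_lit 287255) (.g (nat_lit 313) (.e (nat_lit 286761) (nat_lit 13) (.e (nat_lit 393298) (nat_lit 27) (.e (nat_lit 491565) (nat_lit 12) .nil))) .nil)) 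
(.lf (nat_lit 287319) (.g (nat_lit 3428) (.e (nat_lit 286761) (nat_lit 13) (.e (nat_lit 393301) (nat_lit 27) (.e (nat_lit 491552) (nat_lit 9) (.e (nat_lit 336250) (nat_lit 15) (.e (nat_lit 6952) (nat_lit 377) (.e (nat_lit 1360) (nat_lit 102) .nil)))))) (.g (nat_lit 6) .nil .nil)))) (.nd (nat_lit 6) 
(.lf (nat_lit 287287) (.g (nat_lit 3273) (.e (nat_lit 286761) (nat_lit 13) (.e (nat_lit 393300) (nat_lit 27) (.e (nat_lit 491556) (nat_lit 9) (.e (nat_lit 336241) (nat_lit 15) (.e (nat_lit 7064) (nat_lit 377) (.e (nat_lit 1349) (nat_lit 102) .nil)))))) (.g (nat_lit 0) .nil .nil))) 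
(.lf (nat_lit 287351) (.g (nat_lit 4558) (.e (nat_lit 286761) (nat_lit 13) (.e (nat_lit 393301) (nat_lit 27) (.e (nat_lit 491559) (nat_lit 10) (.e (nat_lit 344177) (nat_lit 43) (.e (nat_lit 770052) (nat_lit 0) (.e (nat_lit 7936) (nat_lit 178) .nil)))))) (.g (nat_lit 4) .nil .nil)))))) (.nd (nat_lit 4) (.nd (nat_lit 5) (.nd (nat_lit 6) 
(.lf (nat_lit 287247) (.g (nat_lit 1435) (.e (nat_lit 286761) (nat_lit 13) (.e (nat_lit 393298) (nat_lit 27) (.e (nat_lit 491550) (nat_lit 9) (.e (nat_lit 336301) (nat_lit 15) .nil)))) .nil)) 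
(.lf (nat_lit 287311) (.g (nat_lit 841) (.e (nat_lit 286761) (nat_lit 13) (.e (nat_lit 393301) (nat_lit 27) (.e (nat_lit 491541) (nat_lit 4) .nil))) .nil))) (.nd (nat_lit 6) 
(.lf (nat_lit 287279) (.g (nat_lit 1943) (.e (nat_lit 286761) (nat_lit 13) (.e (nat_lit 393300) (nat_lit 27) (.e (nat_lit 491549) (nat_lit 9) (.e (nat_lit 336299) (nat_lit 15) .nil)))) .nil)) 
(.lf (nat_lit 287343) (.g (nat_lit 3742) (.e (nat_lit 286761) (nat_lit 13) (.e (nat_lit 393301) (nat_lit 27) (.e (nat_lit 491558) (nat_lit 10) (.e (nat_lit 344174) (nat_lit 42) (.e (nat_lit 761857) (nat_lit 0) (.e (nat_lit 7936) (nat_lit 178) .nil)))))) (.g (nat_lit 4) .nil .nil))))) (.nd (nat_lit 5) (.nd (nat_lit 6) 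
(.lf (nat_lit 287263) (.g (nat_lit 1716) (.e (nat_lit 286761) (nat_lit 13) (.e (nat_lit 393299) (nat_lit 27) (.e (nat_lit 491565) (nat_lit 12) (.e (nat_lit 385032) (nat_lit 16) .nil)))) .nil)) 
(.lf (nat_lit 287327) (.g (nat_lit 4013) (.e (nat_lit 286761) (nat_lit 13) (.e (nat_lit 393301) (nat_lit 27) (.e (nat_lit 491558) (nat_lit 10) (.e (nat_lit 344090) (nat_lit 18) (.e (nat_lit 7247) (nat_lit 383) (.e (nat_lit 16128) (nat_lit 7) .nil)))))) (.g (nat_lit 5) .nil .nil)))) (.nd (nat_lit 6) 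
(.lf (nat_lit 287295) (.g (nat_lit 2866) (.e (nat_lit 286761) (nat_lit 13) (.e (nat_lit 393300) (nat_lit 27) (.e (nat_lit 491563) (nat_lit 12) (.e (nat_lit 385033) (nat_lit 16) .nil)))) .nil)) 
(.lf (nat_lit 287359) (.g (nat_lit 2552) (.e (nat_lit 286761) (nat_lit 13) (.e (nat_lit 393301) (nat_lit 27) (.e (nat_lit 491560) (nat_lit 10) (.e (nat_lit 344095) (nat_lit 18) .nil)))) .nil)))))))))

noncomputable def tv3640 : DT := (.nd (nat_lit 0) (.nd (nat_lit 1) (.nd (nat_lit 2) (.nd (nat_lit 3) (.nd (nat_lit 4) (.nd (nat_lit 5) (.nd (nat_lit 6) 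
(.lf (nat_lit 287360) (.g (nat_lit 3682) (.e (nat_lit 286761) (nat_lit 13) (.e (nat_lit 393301) (nat_lit 27) (.e (nat_lit 491560) (nat_lit 10) (.e (nat_lit 344096) (nat_lit 18) (.e (nat_lit 7247) (nat_lit 383) (.e (nat_lit 16128) (nat_lit 7) .nil)))))) (.g (nat_lit 4) .nil .nil))) 
(.lf (nat_lit 287424) (.g (nat_lit 2166) (.e (nat_lit 286762) (nat_lit 14) (.e (nat_lit 401459) (nat_lit 13) (.e (nat_lit 483396) (nat_lit 24) (.e (nat_lit 344160) (nat_lit 37) .nil)))) .nil))) (.nd (nat_lit 6) 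
(.lf (nat_lit 287392) (.g (nat_lit 4585) (.e (nat_lit 286761) (nat_lit 13) (.e (nat_lit 393301) (nat_lit 27) (.e (nat_lit 491560) (nat_lit 10) (.e (nat_lit 344177) (nat_lit 43) (.e (nat_lit 777984) (nat_lit 0) (.e (nat_lit 2779) (nat_lit 178) .nil)))))) (.g (nat_lit 4) .nil .nil))) 
(.lf (nat_lit 287456) (.g (nat_lit 3818) (.e (nat_lit 286765) (nat_lit 15) (.e (nat_lit 6986) (nat_lit 377) (.e (nat_lit 1370) (nat_lit 103) (.e (nat_lit 294960) (nat_lit 13) (.e (nat_lit 393238) (nat_lit 17) (.e (nat_lit 6989) (nat_lit 377) (.e (nat_lit 2777) (nat_lit 178) .nil))))))) (.g (nat_lit 7) .nil .nil))))) (.nd (nat_lit 5) (.nd (nat_lit 6) 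
(.lf (nat_lit 287376) (.g (nat_lit 3337) (.e (nat_lit 286761) (nat_lit 13) (.e (nat_lit 393301) (nat_lit 27) (.e (nat_lit 491560) (nat_lit 10) (.e (nat_lit 344097) (nat_lit 18) (.e (nat_lit 7249) (nat_lit 383) (.e (nat_lit 16128) (nat_lit 7) .nil)))))) (.g (nat_lit 4) .nil .nil))) 
(.lf (nat_lit 287440) (.g (nat_lit 3194) (.e (nat_lit 286765) (nat_lit 15) (.e (nat_lit 3307) (nat_lit 202) (.e (nat_lit 573479) (nat_lit 13) (.e (nat_lit 65619) (nat_lit 10) (.e (nat_lit 344117) (nat_lit 21) (.e (nat_lit 516106) (nat_lit 0) (.e (nat_lit 6986) (nat_lit 377) (.e (nat_lit 2781) (nat_lit 178) .nil)))))))) (.g (nat_lit 5) .nil .nil)))) (.nd (nat_lit 6) 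
(.lf (nat_lit 287408) (.g (nat_lit 1183) (.e (nat_lit 286762) (nat_lit 14) (.e (nat_lit 401454) (nat_lit 12) (.e (nat_lit 475160) (nat_lit 21) .nil))) .nil)) 
(.lf (nat_lit 287472) (.g (nat_lit 902) (.e (nat_lit 294656) (nat_lit 18) (.e (nat_lit 204861) (nat_lit 26) (.e (nat_lit 336214) (nat_lit 13) (.e (nat_lit 401152) (nat_lit 7) .nil)))) .nil))))) (.nd (nat_lit 4) (.nd (nat_lit 5) (.nd (nat_lit 6) 
(.lf (nat_lit 287368) (.g (nat_lit 3548) (.e (nat_lit 286761) (nat_lit 13) (.e (nat_lit 393301) (nat_lit 27) (.e (nat_lit 491560) (nat_lit 10) (.e (nat_lit 344097) (nat_lit 18) (.e (nat_lit 7146) (nat_lit 382) (.e (nat_lit 19) (nat_lit 0) (.e (nat_lit 7936) (nat_lit 178) .nil))))))) (.g (nat_lit 4) .nil .nil))) 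
(.lf (nat_lit 287432) (.g (nat_lit 1794) (.e (nat_lit 286763) (nat_lit 15) (.e (nat_lit 6988) (nat_lit 377) (.e (nat_lit 1370) (nat_lit 103) (.e (nat_lit 294960) (nat_lit 13) (.e (nat_lit 393260) (nat_lit 21) (.e (nat_lit 417536) (nat_lit 16) .nil)))))) (.g (nat_lit 5) .nil .nil)))) (.nd (nat_lit 6) 
(.lf (nat_lit 287400) (.g (nat_lit 1438) (.e (nat_lit 286762) (nat_lit 14) (.e (nat_lit 401425) (nat_lit 2) (.e (nat_lit 196673) (nat_lit 15) (.e (nat_lit 81938) (nat_lit 20) .nil)))) .nil)) 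
(.lf (nat_lit 287464) (.g (nat_lit 2904) (.e (nat_lit 294656) (nat_lit 15) (.e (nat_lit 3308) (nat_lit 202) (.e (nat_lit 573493) (nat_lit 15) (.e (nat_lit 81954) (nat_lit 23) (.e (nat_lit 98323) (nat_lit 17) .nil))))) .nil)))) (.nd (nat_lit 5) (.nd (nat_lit 6) 
(.lf (nat_lit 287384) (.g (nat_lit 3422) (.e (nat_lit 286761) (nat_lit 13) (.e (nat_lit 393301) (nat_lit 27) (.e (nat_lit 491560) (nat_lit 10) (.e (nat_lit 344176) (nat_lit 43) (.e (nat_lit 770051) (nat_lit 0) (.e (nat_lit 7936) (nat_lit 178) .nil)))))) (.g (nat_lit 4) .nil .nil))) 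
(.lf (nat_lit 287448) (.g (nat_lit 4167) (.e (nat_lit 286765) (nat_lit 15) (.e (nat_lit 3307) (nat_lit 202) (.e (nat_lit 573493) (nat_lit 15) (.e (nat_lit 81954) (nat_lit 23) (.e (nat_lit 98323) (nat_lit 17) .nil))))) .nil))) (.nd (nat_lit 6) 
(.lf (nat_lit 287416) (.g (nat_lit 1305) (.e (nat_lit 286762) (nat_lit 14) (.e (nat_lit 401458) (nat_lit 13) (.e (nat_lit 483396) (nat_lit 24) (.e (nat_lit 344160) (nat_lit 37) .nil)))) .nil)) 
(.lf (nat_lit 287480) (.g (nat_lit 561) (.e (nat_lit 294656) (nat_lit 26) (.e (nat_lit 417812) (nat_lit 7) (.e (nat_lit 294960) (nat_lit 13) (.e (nat_lit 393238) (nat_lit 17) .nil)))) .nil)))))) (.nd (nat_lit 3) (.nd (nat_lit 4) (.nd (nat_lit 5) (.nd (nat_lit 6) 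
(.lf (nat_lit 287364) (.g (nat_lit 3578) (.e (nat_lit 286761) (nat_lit 13) (.e (nat_lit 393301) (nat_lit 27) (.e (nat_lit 491560) (nat_lit 10) (.e (nat_lit 344097) (nat_lit 18) (.e (nat_lit 7144) (nat_lit 382) (.e (nat_lit 81) (nat_lit 0) (.e (nat_lit 7936) (nat_lit 178) .nil))))))) (.g (nat_lit 4) .nil .nil))) 
(.lf (nat_lit 287428) (.g (nat_lit 2940) (.e (nat_lit 286762) (nat_lit 14) (.e (nat_lit 401459) (nat_lit 13) (.e (nat_lit 483403) (nat_lit 26) (.e (nat_lit 385115) (nat_lit 53) .nil)))) .nil))) (.nd (nat_lit 6) 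
(.lf (nat_lit 287396) (.g (nat_lit 823) (.e (nat_lit 286761) (nat_lit 13) (.e (nat_lit 393301) (nat_lit 27) (.e (nat_lit 491575) (nat_lit 15) .nil))) .nil)) 
(.lf (nat_lit 287460) (.g (nat_lit 1877) (.e (nat_lit 294656) (nat_lit 15) (.e (nat_lit 3307) (nat_lit 202) (.e (nat_lit 573491) (nat_lit 15) (.e (nat_lit 81954) (nat_lit 23) .nil)))) .nil)))) (.nd (nat_lit 5) (.nd (nat_lit 6) 
(.lf (nat_lit 287380) (.g (nat_lit 4120) (.e (nat_lit 286761) (nat_lit 13) (.e (nat_lit 393301) (nat_lit 27) (.e (nat_lit 491560) (nat_lit 10) (.e (nat_lit 344097) (nat_lit 18) (.e (nat_lit 7255) (nat_lit 383) (.e (nat_lit 16128) (nat_lit 7) .nil)))))) (.g (nat_lit 5) .nil .nil))) 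
(.lf (nat_lit 287444) (.g (nat_lit 680) (.e (nat_lit 286765) (nat_lit 15) (.e (nat_lit 3307) (nat_lit 202) (.e (nat_lit 573490) (nat_lit 15) .nil))) .nil))) (.nd (nat_lit 6) 
(.lf (nat_lit 287412) (.g (nat_lit 1871) (.e (nat_lit 286762) (nat_lit 14) (.e (nat_lit 401457) (nat_lit 13) (.e (nat_lit 483395) (nat_lit 24) (.e (nat_lit 344160) (nat_lit 37) (.e (nat_lit 647203) (nat_lit 14) .nil))))) .nil)) 
(.lf (nat_lit 287476) (.g (nat_lit 1546) (.e (nat_lit 294656) (nat_lit 26) (.e (nat_lit 417809) (nat_lit 6) (.e (nat_lit 286761) (nat_lit 13) (.e (nat_lit 393265) (nat_lit 22) (.e (nat_lit 425728) (nat_lit 16) .nil))))) .nil))))) (.nd (nat_lit 4) (.nd (nat_lit 5) (.nd (nat_lit 6) 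
(.lf (nat_lit 287372) (.g (nat_lit 3897) (.e (nat_lit 286761) (nat_lit 13) (.e (nat_lit 393301) (nat_lit 27) (.e (nat_lit 491560) (nat_lit 10) (.e (nat_lit 344097) (nat_lit 18) (.e (nat_lit 7151) (nat_lit 382) (.e (nat_lit 80) (nat_lit 0) (.e (nat_lit 7936) (nat_lit 178) .nil))))))) (.g (nat_lit 4) .nil .nil))) 
(.lf (nat_lit 287436) (.g (nat_lit 4129) (.e (nat_lit 286765) (nat_lit 15) (.e (nat_lit 3252) (nat_lit 197) (.e (nat_lit 532544) (nat_lit 10) (.e (nat_lit 344133) (nat_lit 26) (.e (nat_lit 557105) (nat_lit 14) (.e (nat_lit 180252) (nat_lit 10) (.e (nat_lit 573503) (nat_lit 18) (.e (nat_lit 1349) (nat_lit 102) .nil)))))))) (.g (nat_lit 5) .nil .nil)))) (.nd (nat_lit 6) 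
(.lf (nat_lit 287404) (.g (nat_lit 812) (.e (nat_lit 286762) (nat_lit 14) (.e (nat_lit 401438) (nat_lit 9) (.e (nat_lit 426112) (nat_lit 1) .nil))) .nil)) 
(.lf (nat_lit 287468) (.g (nat_lit 1268) (.e (nat_lit 294656) (nat_lit 17) (.e (nat_lit 196670) (nat_lit 14) (.e (nat_lit 73754) (nat_lit 8) (.e (nat_lit 557103) (nat_lit 14) .nil)))) .nil)))) (.nd (nat_lit 5) (.nd (nat_lit 6) 
(.lf (nat_lit 287388) (.g (nat_lit 3858) (.e (nat_lit 286761) (nat_lit 13) (.e (nat_lit 393301) (nat_lit 27) (.e (nat_lit 491560) (nat_lit 10) (.e (nat_lit 344177) (nat_lit 43) (.e (nat_lit 770051) (nat_lit 0) (.e (nat_lit 7936) (nat_lit 178) .nil)))))) (.g (nat_lit 5) .nil .nil))) 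
(.lf (nat_lit 287452) (.g (nat_lit 2117) (.e (nat_lit 286765) (nat_lit 15) (.e (nat_lit 3308) (nat_lit 202) (.e (nat_lit 573493) (nat_lit 15) (.e (nat_lit 81956) (nat_lit 23) (.e (nat_lit 98325) (nat_lit 17) .nil))))) .nil))) (.nd (nat_lit 6) 
(.lf (nat_lit 287420) (.g (nat_lit 4499) (.e (nat_lit 286762) (nat_lit 14) (.e (nat_lit 401459) (nat_lit 13) (.e (nat_lit 483372) (nat_lit 21) (.e (nat_lit 319514) (nat_lit 11) .nil)))) .nil)) 
(.lf (nat_lit 287484) (.g (nat_lit 1348) (.e (nat_lit 286767) (nat_lit 27) (.e (nat_lit 426107) (nat_lit 1) (.e (nat_lit 164325) (nat_lit 230) (.e (nat_lit 163861) (nat_lit 1) .nil)))) .nil))))))) (.nd (nat_lit 2) (.nd (nat_lit 3) (.nd (nat_lit 4) (.nd (nat_lit 5) (.nd (nat_lit 6) 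
(.lf (nat_lit 287362) (.g (nat_lit 3187) (.e (nat_lit 286761) (nat_lit 13) (.e (nat_lit 393301) (nat_lit 27) (.e (nat_lit 491560) (nat_lit 10) (.e (nat_lit 344097) (nat_lit 18) (.e (nat_lit 7144) (nat_lit 382) (.e (nat_lit 79) (nat_lit 0) (.e (nat_lit 7936) (nat_lit 178) .nil))))))) (.g (nat_lit 4) .nil .nil))) 
(.lf (nat_lit 287426) (.g (nat_lit 3239) (.e (nat_lit 286762) (nat_lit 14) (.e (nat_lit 401459) (nat_lit 13) (.e (nat_lit 483403) (nat_lit 26) (.e (nat_lit 385113) (nat_lit 53) .nil)))) .nil))) (.nd (nat_lit 6) 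
(.lf (nat_lit 287394) (.g (nat_lit 817) (.e (nat_lit 286761) (nat_lit 13) (.e (nat_lit 393301) (nat_lit 27) (.e (nat_lit 491561) (nat_lit 11) .nil))) .nil)) 
(.lf (nat_lit 287458) (.g (nat_lit 2376) (.e (nat_lit 286765) (nat_lit 15) (.e (nat_lit 6986) (nat_lit 377) (.e (nat_lit 1370) (nat_lit 103) (.e (nat_lit 294960) (nat_lit 13) (.e (nat_lit 393260) (nat_lit 21) (.e (nat_lit 417536) (nat_lit 16) .nil)))))) (.g (nat_lit 5) .nil .nil))))) (.nd (nat_lit 5) (.nd (nat_lit 6) 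
(.lf (nat_lit 287378) (.g (nat_lit 3878) (.e (nat_lit 286761) (nat_lit 13) (.e (nat_lit 393301) (nat_lit 27) (.e (nat_lit 491560) (nat_lit 10) (.e (nat_lit 344097) (nat_lit 18) (.e (nat_lit 7253) (nat_lit 383) (.e (nat_lit 16128) (nat_lit 7) .nil)))))) (.g (nat_lit 4) .nil .nil))) 
(.lf (nat_lit 287442) (.g (nat_lit 2301) (.e (nat_lit 286765) (nat_lit 15) (.e (nat_lit 3307) (nat_lit 202) (.e (nat_lit 573482) (nat_lit 13) (.e (nat_lit 65604) (nat_lit 9) .nil)))) .nil))) (.nd (nat_lit 6) 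
(.lf (nat_lit 287410) (.g (nat_lit 1149) (.e (nat_lit 286762) (nat_lit 14) (.e (nat_lit 401454) (nat_lit 12) (.e (nat_lit 475163) (nat_lit 21) .nil))) .nil)) 
(.lf (nat_lit 287474) (.g (nat_lit 1439) (.e (nat_lit 294656) (nat_lit 18) (.e (nat_lit 204863) (nat_lit 27) (.e (nat_lit 344132) (nat_lit 26) (.e (nat_lit 557103) (nat_lit 14) .nil)))) .nil))))) (.nd (nat_lit 4) (.nd (nat_lit 5) (.nd (nat_lit 6) 
(.lf (nat_lit 287370) (.g (nat_lit 3216) (.e (nat_lit 286761) (nat_lit 13) (.e (nat_lit 393301) (nat_lit 27) (.e (nat_lit 491560) (nat_lit 10) (.e (nat_lit 344097) (nat_lit 18) (.e (nat_lit 7150) (nat_lit 382) (.e (nat_lit 83) (nat_lit 0) (.e (nat_lit 7936) (nat_lit 178) .nil))))))) (.g (nat_lit 4) .nil .nil))) 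
(.lf (nat_lit 287434) (.g (nat_lit 1786) (.e (nat_lit 286763) (nat_lit 15) (.e (nat_lit 6988) (nat_lit 377) (.e (nat_lit 2777) (nat_lit 178) (.e (nat_lit 286731) (nat_lit 1) (.e (nat_lit 57871) (nat_lit 264) .nil))))) .nil))) (.nd (nat_lit 6) 
(.lf (nat_lit 287402) (.g (nat_lit 666) (.e (nat_lit 286762) (nat_lit 14) (.e (nat_lit 401437) (nat_lit 9) (.e (nat_lit 426546) (nat_lit 30) .nil))) .nil)) 
(.lf (nat_lit 287466) (.g (nat_lit 2405) (.e (nat_lit 294656) (nat_lit 17) (.e (nat_lit 196668) (nat_lit 14) (.e (nat_lit 73753) (nat_lit 8) (.e (nat_lit 557103) (nat_lit 14) (.e (nat_lit 180250) (nat_lit 10) .nil))))) .nil)))) (.nd (nat_lit 5) (.nd (nat_lit 6) 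
(.lf (nat_lit 287386) (.g (nat_lit 3376) (.e (nat_lit 286761) (nat_lit 13) (.e (nat_lit 393301) (nat_lit 27) (.e (nat_lit 491560) (nat_lit 10) (.e (nat_lit 344177) (nat_lit 43) (.e (nat_lit 770049) (nat_lit 0) (.e (nat_lit 7936) (nat_lit 178) .nil)))))) (.g (nat_lit 4) .nil .nil))) 
(.lf (nat_lit 287450) (.g (nat_lit 4014) (.e (nat_lit 286765) (nat_lit 15) (.e (nat_lit 3307) (nat_lit 202) (.e (nat_lit 573493) (nat_lit 15) (.e (nat_lit 81956) (nat_lit 23) (.e (nat_lit 98325) (nat_lit 17) .nil))))) .nil))) (.nd (nat_lit 6) 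
(.lf (nat_lit 287418) (.g (nat_lit 4062) (.e (nat_lit 286762) (nat_lit 14) (.e (nat_lit 401459) (nat_lit 13) (.e (nat_lit 483372) (nat_lit 21) (.e (nat_lit 327424) (nat_lit 1) .nil)))) .nil)) 
(.lf (nat_lit 287482) (.g (nat_lit 1255) (.e (nat_lit 286767) (nat_lit 27) (.e (nat_lit 426098) (nat_lit 1) (.e (nat_lit 164325) (nat_lit 230) (.e (nat_lit 163861) (nat_lit 1) .nil)))) .nil)))))) (.nd (nat_lit 3) (.nd (nat_lit 4) (.nd (nat_lit 5) (.nd (nat_lit 6) 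
(.lf (nat_lit 287366) (.g (nat_lit 3018) (.e (nat_lit 286761) (nat_lit 13) (.e (nat_lit 393301) (nat_lit 27) (.e (nat_lit 491560) (nat_lit 10) (.e (nat_lit 344097) (nat_lit 18) (.e (nat_lit 7145) (nat_lit 382) (.e (nat_lit 38) (nat_lit 0) (.e (nat_lit 7936) (nat_lit 178) .nil))))))) (.g (nat_lit 4) .nil .nil))) 
(.lf (nat_lit 287430) (.g (nat_lit 1282) (.e (nat_lit 286763) (nat_lit 15) (.e (nat_lit 6975) (nat_lit 377) (.e (nat_lit 1371) (nat_lit 103) (.e (nat_lit 294960) (nat_lit 13) (.e (nat_lit 393260) (nat_lit 21) (.e (nat_lit 417536) (nat_lit 16) .nil)))))) (.g (nat_lit 5) .nil .nil)))) (.nd (nat_lit 6) 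
(.lf (nat_lit 287398) (.g (nat_lit 551) (.e (nat_lit 286761) (nat_lit 13) (.e (nat_lit 393301) (nat_lit 27) (.e (nat_lit 491577) (nat_lit 15) .nil))) .nil)) 
(.lf (nat_lit 287462) (.g (nat_lit 2732) (.e (nat_lit 294656) (nat_lit 15) (.e (nat_lit 3308) (nat_lit 202) (.e (nat_lit 573493) (nat_lit 15) (.e (nat_lit 81951) (nat_lit 22) (.e (nat_lit 90165) (nat_lit 12) .nil))))) .nil)))) (.nd (nat_lit 5) (.nd (nat_lit 6) 
(.lf (nat_lit 287382) (.g (nat_lit 2658) (.e (nat_lit 286761) (nat_lit 13) (.e (nat_lit 393301) (nat_lit 27) (.e (nat_lit 491560) (nat_lit 10) (.e (nat_lit 344101) (nat_lit 18) .nil)))) .nil)) 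
(.lf (nat_lit 287446) (.g (nat_lit 4199) (.e (nat_lit 286765) (nat_lit 15) (.e (nat_lit 3307) (nat_lit 202) (.e (nat_lit 573493) (nat_lit 15) (.e (nat_lit 81951) (nat_lit 22) (.e (nat_lit 90165) (nat_lit 12) .nil))))) .nil))) (.nd (nat_lit 6) 
(.lf (nat_lit 287414) (.g (nat_lit 4101) (.e (nat_lit 286762) (nat_lit 14) (.e (nat_lit 401457) (nat_lit 13) (.e (nat_lit 483395) (nat_lit 24) (.e (nat_lit 344160) (nat_lit 37) (.e (nat_lit 647203) (nat_lit 14) (.e (nat_lit 1359) (nat_lit 102) .nil)))))) (.g (nat_lit 6) .nil .nil))) 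
(.lf (nat_lit 287478) (.g (nat_lit 2829) (.e (nat_lit 294656) (nat_lit 26) (.e (nat_lit 417810) (nat_lit 6) (.e (nat_lit 286761) (nat_lit 13) (.e (nat_lit 393265) (nat_lit 22) (.e (nat_lit 425728) (nat_lit 16) .nil))))) .nil))))) (.nd (nat_lit 4) (.nd (nat_lit 5) (.nd (nat_lit 6) 
(.lf (nat_lit 287374) (.g (nat_lit 4303) (.e (nat_lit 286761) (nat_lit 13) (.e (nat_lit 393301) (nat_lit 27) (.e (nat_lit 491560) (nat_lit 10) (.e (nat_lit 344097) (nat_lit 18) (.e (nat_lit 7151) (nat_lit 382) (.e (nat_lit 83) (nat_lit 0) (.e (nat_lit 7936) (nat_lit 178) .nil))))))) (.g (nat_lit 6) .nil .nil))) 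
(.lf (nat_lit 287438) (.g (nat_lit 1581) (.e (nat_lit 286765) (nat_lit 15) (.e (nat_lit 3307) (nat_lit 202) (.e (nat_lit 573479) (nat_lit 13) (.e (nat_lit 65619) (nat_lit 10) (.e (nat_lit 344117) (nat_lit 21) .nil))))) .nil))) (.nd (nat_lit 6) 
(.lf (nat_lit 287406) (.g (nat_lit 1471) (.e (nat_lit 286762) (nat_lit 14) (.e (nat_lit 401453) (nat_lit 12) (.e (nat_lit 475221) (nat_lit 45) (.e (nat_lit 745509) (nat_lit 11) (.e (nat_lit 24617) (nat_lit 7) .nil))))) .nil)) 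
(.lf (nat_lit 287470) (.g (nat_lit 21) (.e (nat_lit 294656) (nat_lit 18) (.e (nat_lit 204860) (nat_lit 26) (.e (nat_lit 336215) (nat_lit 13) .nil))) .nil)))) (.nd (nat_lit 5) (.nd (nat_lit 6) 
(.lf (nat_lit 287390) (.g (nat_lit 3233) (.e (nat_lit 286761) (nat_lit 13) (.e (nat_lit 393301) (nat_lit 27) (.e (nat_lit 491560) (nat_lit 10) (.e (nat_lit 344177) (nat_lit 43) (.e (nat_lit 770053) (nat_lit 0) (.e (nat_lit 7936) (nat_lit 178) .nil)))))) (.g (nat_lit 4) .nil .nil))) 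
(.lf (nat_lit 287454) (.g (nat_lit 2875) (.e (nat_lit 286765) (nat_lit 15) (.e (nat_lit 6986) (nat_lit 377) (.e (nat_lit 1361) (nat_lit 102) (.e (nat_lit 286761) (nat_lit 13) (.e (nat_lit 393265) (nat_lit 22) (.e (nat_lit 425728) (nat_lit 16) .nil)))))) (.g (nat_lit 5) .nil .nil)))) (.nd (nat_lit 6) 
(.lf (nat_lit 287422) (.g (nat_lit 3527) (.e (nat_lit 286762) (nat_lit 14) (.e (nat_lit 401459) (nat_lit 13) (.e (nat_lit 483395) (nat_lit 24) (.e (nat_lit 344160) (nat_lit 37) (.e (nat_lit 647203) (nat_lit 14) (.e (nat_lit 1359) (nat_lit 102) .nil)))))) (.g (nat_lit 5) .nil .nil))) 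
(.lf (nat_lit 287486) (.g (nat_lit 510) (.e (nat_lit 286767) (nat_lit 27) (.e (nat_lit 426341) (nat_lit 14) (.e (nat_lit 491549) (nat_lit 9) .nil))) .nil)))))))) (.nd (nat_lit 1) (.nd (nat_lit 2) (.nd (nat_lit 3) (.nd (nat_lit 4) (.nd (nat_lit 5) (.nd (nat_lit 6) 
(.lf (nat_lit 287361) (.g (nat_lit 3160) (.e (nat_lit 286761) (nat_lit 13) (.e (nat_lit 393301) (nat_lit 27) (.e (nat_lit 491560) (nat_lit 10) (.e (nat_lit 344097) (nat_lit 18) (.e (nat_lit 7144) (nat_lit 382) (.e (nat_lit 19) (nat_lit 0) (.e (nat_lit 7936) (nat_lit 178) .nil))))))) (.g (nat_lit 4) .nil .nil))) 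
(.lf (nat_lit 287425) (.g (nat_lit 1222) (.e (nat_lit 286762) (nat_lit 14) (.e (nat_lit 401459) (nat_lit 13) (.e (nat_lit 483402) (nat_lit 26) .nil))) .nil))) (.nd (nat_lit 6) 
(.lf (nat_lit 287393) (.g (nat_lit 4778) (.e (nat_lit 286761) (nat_lit 13) (.e (nat_lit 393301) (nat_lit 27) (.e (nat_lit 491560) (nat_lit 10) (.e (nat_lit 344177) (nat_lit 43) (.e (nat_lit 777984) (nat_lit 0) (.e (nat_lit 2781) (nat_lit 178) .nil)))))) (.g (nat_lit 4) .nil .nil))) 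
(.lf (nat_lit 287457) (.g (nat_lit 2069) (.e (nat_lit 286765) (nat_lit 15) (.e (nat_lit 6986) (nat_lit 377) (.e (nat_lit 1370) (nat_lit 103) (.e (nat_lit 294960) (nat_lit 13) (.e (nat_lit 393238) (nat_lit 17) (.e (nat_lit 6989) (nat_lit 377) (.e (nat_lit 7936) (nat_lit 178) .nil))))))) (.g (nat_lit 5) .nil .nil))))) (.nd (nat_lit 5) (.nd (nat_lit 6) 
(.lf (nat_lit 287377) (.g (nat_lit 3670) (.e (nat_lit 286761) (nat_lit 13) (.e (nat_lit 393301) (nat_lit 27) (.e (nat_lit 491560) (nat_lit 10) (.e (nat_lit 344097) (nat_lit 18) (.e (nat_lit 7252) (nat_lit 383) (.e (nat_lit 16128) (nat_lit 7) .nil)))))) (.g (nat_lit 4) .nil .nil))) 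
(.lf (nat_lit 287441) (.g (nat_lit 3038) (.e (nat_lit 286765) (nat_lit 15) (.e (nat_lit 3307) (nat_lit 202) (.e (nat_lit 573479) (nat_lit 13) (.e (nat_lit 65619) (nat_lit 10) (.e (nat_lit 344117) (nat_lit 21) (.e (nat_lit 516106) (nat_lit 0) (.e (nat_lit 6986) (nat_lit 377) (.e (nat_lit 2782) (nat_lit 178) .nil)))))))) (.g (nat_lit 5) .nil .nil)))) (.nd (nat_lit 6) 
(.lf (nat_lit 287409) (.g (nat_lit 1183) (.e (nat_lit 286762) (nat_lit 14) (.e (nat_lit 401454) (nat_lit 12) (.e (nat_lit 475161) (nat_lit 21) .nil))) .nil)) 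
(.lf (nat_lit 287473) (.g (nat_lit 995) (.e (nat_lit 294656) (nat_lit 18) (.e (nat_lit 204861) (nat_lit 26) (.e (nat_lit 336215) (nat_lit 13) (.e (nat_lit 401152) (nat_lit 7) .nil)))) .nil))))) (.nd (nat_lit 4) (.nd (nat_lit 5) (.nd (nat_lit 6) 
(.lf (nat_lit 287369) (.g (nat_lit 3170) (.e (nat_lit 286761) (nat_lit 13) (.e (nat_lit 393301) (nat_lit 27) (.e (nat_lit 491560) (nat_lit 10) (.e (nat_lit 344097) (nat_lit 18) (.e (nat_lit 7146) (nat_lit 382) (.e (nat_lit 35) (nat_lit 0) (.e (nat_lit 7936) (nat_lit 178) .nil))))))) (.g (nat_lit 4) .nil .nil))) 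
(.lf (nat_lit 287433) (.g (nat_lit 1747) (.e (nat_lit 286763) (nat_lit 15) (.e (nat_lit 6988) (nat_lit 377) (.e (nat_lit 2777) (nat_lit 178) (.e (nat_lit 286731) (nat_lit 1) (.e (nat_lit 57870) (nat_lit 264) .nil))))) .nil))) (.nd (nat_lit 6) 
(.lf (nat_lit 287401) (.g (nat_lit 674) (.e (nat_lit 286762) (nat_lit 14) (.e (nat_lit 401437) (nat_lit 9) (.e (nat_lit 426540) (nat_lit 29) .nil))) .nil)) 
(.lf (nat_lit 287465) (.g (nat_lit 2138) (.e (nat_lit 294656) (nat_lit 15) (.e (nat_lit 3308) (nat_lit 202) (.e (nat_lit 573493) (nat_lit 15) (.e (nat_lit 81956) (nat_lit 23) (.e (nat_lit 98323) (nat_lit 17) .nil))))) .nil)))) (.nd (nat_lit 5) (.nd (nat_lit 6) 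
(.lf (nat_lit 287385) (.g (nat_lit 4083) (.e (nat_lit 286761) (nat_lit 13) (.e (nat_lit 393301) (nat_lit 27) (.e (nat_lit 491560) (nat_lit 10) (.e (nat_lit 344177) (nat_lit 43) (.e (nat_lit 770048) (nat_lit 0) (.e (nat_lit 7936) (nat_lit 178) .nil)))))) (.g (nat_lit 5) .nil .nil))) 
(.lf (nat_lit 287449) (.g (nat_lit 4325) (.e (nat_lit 286765) (nat_lit 15) (.e (nat_lit 3307) (nat_lit 202) (.e (nat_lit 573493) (nat_lit 15) (.e (nat_lit 81954) (nat_lit 23) (.e (nat_lit 98325) (nat_lit 17) .nil))))) .nil))) (.nd (nat_lit 6) 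
(.lf (nat_lit 287417) (.g (nat_lit 951) (.e (nat_lit 286762) (nat_lit 14) (.e (nat_lit 401459) (nat_lit 13) (.e (nat_lit 483372) (nat_lit 21) .nil))) .nil)) 
(.lf (nat_lit 287481) (.g (nat_lit 1269) (.e (nat_lit 294656) (nat_lit 26) (.e (nat_lit 417812) (nat_lit 7) (.e (nat_lit 294960) (nat_lit 13) (.e (nat_lit 393260) (nat_lit 21) (.e (nat_lit 417536) (nat_lit 16) .nil))))) .nil)))))) (.nd (nat_lit 3) (.nd (nat_lit 4) (.nd (nat_lit 5) (.nd (nat_lit 6) 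
(.lf (nat_lit 287365) (.g (nat_lit 4014) (.e (nat_lit 286761) (nat_lit 13) (.e (nat_lit 393301) (nat_lit 27) (.e (nat_lit 491560) (nat_lit 10) (.e (nat_lit 344097) (nat_lit 18) (.e (nat_lit 7144) (nat_lit 382) (.e (nat_lit 83) (nat_lit 0) (.e (nat_lit 7936) (nat_lit 178) .nil))))))) (.g (nat_lit 4) .nil .nil))) 
(.lf (nat_lit 287429) (.g (nat_lit 1285) (.e (nat_lit 286763) (nat_lit 15) (.e (nat_lit 6973) (nat_lit 377) (.e (nat_lit 1371) (nat_lit 103) (.e (nat_lit 294960) (nat_lit 13) (.e (nat_lit 393260) (nat_lit 21) (.e (nat_lit 417536) (nat_lit 16) .nil)))))) (.g (nat_lit 5) .nil .nil)))) (.nd (nat_lit 6) 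
(.lf (nat_lit 287397) (.g (nat_lit 859) (.e (nat_lit 286761) (nat_lit 13) (.e (nat_lit 393301) (nat_lit 27) (.e (nat_lit 491576) (nat_lit 15) .nil))) .nil)) 
(.lf (nat_lit 287461) (.g (nat_lit 1555) (.e (nat_lit 294656) (nat_lit 15) (.e (nat_lit 3308) (nat_lit 202) (.e (nat_lit 573491) (nat_lit 15) (.e (nat_lit 81951) (nat_lit 22) (.e (nat_lit 90165) (nat_lit 12) .nil))))) .nil)))) (.nd (nat_lit 5) (.nd (nat_lit 6) 
(.lf (nat_lit 287381) (.g (nat_lit 2655) (.e (nat_lit 286761) (nat_lit 13) (.e (nat_lit 393301) (nat_lit 27) (.e (nat_lit 491560) (nat_lit 10) (.e (nat_lit 344098) (nat_lit 18) .nil)))) .nil)) 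
(.lf (nat_lit 287445) (.g (nat_lit 2961) (.e (nat_lit 286765) (nat_lit 15) (.e (nat_lit 3307) (nat_lit 202) (.e (nat_lit 573491) (nat_lit 15) (.e (nat_lit 81954) (nat_lit 23) (.e (nat_lit 98325) (nat_lit 17) .nil))))) .nil))) (.nd (nat_lit 6) 
(.lf (nat_lit 287413) (.g (nat_lit 3912) (.e (nat_lit 286762) (nat_lit 14) (.e (nat_lit 401457) (nat_lit 13) (.e (nat_lit 483395) (nat_lit 24) (.e (nat_lit 344160) (nat_lit 37) (.e (nat_lit 647203) (nat_lit 14) (.e (nat_lit 1349) (nat_lit 102) .nil)))))) (.g (nat_lit 0) .nil .nil))) 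
(.lf (nat_lit 287477) (.g (nat_lit 1882) (.e (nat_lit 294656) (nat_lit 26) (.e (nat_lit 417810) (nat_lit 6) (.e (nat_lit 286761) (nat_lit 13) (.e (nat_lit 393264) (nat_lit 22) .nil)))) .nil))))) (.nd (nat_lit 4) (.nd (nat_lit 5) (.nd (nat_lit 6) 
(.lf (nat_lit 287373) (.g (nat_lit 4124) (.e (nat_lit 286761) (nat_lit 13) (.e (nat_lit 393301) (nat_lit 27) (.e (nat_lit 491560) (nat_lit 10) (.e (nat_lit 344097) (nat_lit 18) (.e (nat_lit 7151) (nat_lit 382) (.e (nat_lit 81) (nat_lit 0) (.e (nat_lit 7936) (nat_lit 178) .nil))))))) (.g (nat_lit 5) .nil .nil))) 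
(.lf (nat_lit 287437) (.g (nat_lit 901) (.e (nat_lit 286765) (nat_lit 15) (.e (nat_lit 3298) (nat_lit 202) (.e (nat_lit 573492) (nat_lit 15) (.e (nat_lit 81954) (nat_lit 23) .nil)))) .nil))) (.nd (nat_lit 6) 
(.lf (nat_lit 287405) (.g (nat_lit 668) (.e (nat_lit 286762) (nat_lit 14) (.e (nat_lit 401448) (nat_lit 10) (.e (nat_lit 434269) (nat_lit 36) .nil))) .nil)) 
(.lf (nat_lit 287469) (.g (nat_lit 1839) (.e (nat_lit 294656) (nat_lit 18) (.e (nat_lit 204854) (nat_lit 26) (.e (nat_lit 336019) (nat_lit 3) (.e (nat_lit 98342) (nat_lit 20) .nil)))) .nil)))) (.nd (nat_lit 5) (.nd (nat_lit 6) 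
(.lf (nat_lit 287389) (.g (nat_lit 2999) (.e (nat_lit 286761) (nat_lit 13) (.e (nat_lit 393301) (nat_lit 27) (.e (nat_lit 491560) (nat_lit 10) (.e (nat_lit 344177) (nat_lit 43) (.e (nat_lit 770052) (nat_lit 0) (.e (nat_lit 7936) (nat_lit 178) .nil)))))) (.g (nat_lit 4) .nil .nil))) 
(.lf (nat_lit 287453) (.g (nat_lit 834) (.e (nat_lit 286765) (nat_lit 15) (.e (nat_lit 6986) (nat_lit 377) (.e (nat_lit 1074) (nat_lit 81) .nil))) .nil))) (.nd (nat_lit 6) 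
(.lf (nat_lit 287421) (.g (nat_lit 2807) (.e (nat_lit 286762) (nat_lit 14) (.e (nat_lit 401459) (nat_lit 13) (.e (nat_lit 483394) (nat_lit 24) (.e (nat_lit 344160) (nat_lit 37) (.e (nat_lit 647203) (nat_lit 14) (.e (nat_lit 1349) (nat_lit 102) .nil)))))) (.g (nat_lit 4) .nil .nil))) 
(.lf (nat_lit 287485) (.g (nat_lit 1937) (.e (nat_lit 286767) (nat_lit 27) (.e (nat_lit 426107) (nat_lit 1) (.e (nat_lit 164325) (nat_lit 230) (.e (nat_lit 163861) (nat_lit 1) (.e (nat_lit 164380) (nat_lit 254) .nil))))) .nil))))))) (.nd (nat_lit 2) (.nd (nat_lit 3) (.nd (nat_lit 4) (.nd (nat_lit 5) (.nd (nat_lit 6) 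
(.lf (nat_lit 287363) (.g (nat_lit 3540) (.e (nat_lit 286761) (nat_lit 13) (.e (nat_lit 393301) (nat_lit 27) (.e (nat_lit 491560) (nat_lit 10) (.e (nat_lit 344097) (nat_lit 18) (.e (nat_lit 7144) (nat_lit 382) (.e (nat_lit 80) (nat_lit 0) (.e (nat_lit 7936) (nat_lit 178) .nil))))))) (.g (nat_lit 4) .nil .nil))) 
(.lf (nat_lit 287427) (.g (nat_lit 4142) (.e (nat_lit 286762) (nat_lit 14) (.e (nat_lit 401459) (nat_lit 13) (.e (nat_lit 483403) (nat_lit 26) (.e (nat_lit 385114) (nat_lit 53) (.e (nat_lit 818944) (nat_lit 7) .nil))))) (.g (nat_lit 4) .nil .nil)))) (.nd (nat_lit 6) 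
(.lf (nat_lit 287395) (.g (nat_lit 901) (.e (nat_lit 286761) (nat_lit 13) (.e (nat_lit 393301) (nat_lit 27) (.e (nat_lit 491574) (nat_lit 15) .nil))) .nil)) 
(.lf (nat_lit 287459) (.g (nat_lit 3023) (.e (nat_lit 294656) (nat_lit 15) (.e (nat_lit 3276) (nat_lit 200) (.e (nat_lit 557109) (nat_lit 15) (.e (nat_lit 188452) (nat_lit 23) (.e (nat_lit 204846) (nat_lit 24) .nil))))) .nil)))) (.nd (nat_lit 5) (.nd (nat_lit 6) 
(.lf (nat_lit 287379) (.g (nat_lit 4056) (.e (nat_lit 286761) (nat_lit 13) (.e (nat_lit 393301) (nat_lit 27) (.e (nat_lit 491560) (nat_lit 10) (.e (nat_lit 344097) (nat_lit 18) (.e (nat_lit 7254) (nat_lit 383) (.e (nat_lit 16128) (nat_lit 7) .nil)))))) (.g (nat_lit 5) .nil .nil))) 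
(.lf (nat_lit 287443) (.g (nat_lit 2269) (.e (nat_lit 286765) (nat_lit 15) (.e (nat_lit 3307) (nat_lit 202) (.e (nat_lit 573482) (nat_lit 13) (.e (nat_lit 65619) (nat_lit 10) .nil)))) .nil))) (.nd (nat_lit 6) 
(.lf (nat_lit 287411) (.g (nat_lit 1628) (.e (nat_lit 286762) (nat_lit 14) (.e (nat_lit 401454) (nat_lit 12) (.e (nat_lit 475193) (nat_lit 38) (.e (nat_lit 688177) (nat_lit 16) (.e (nat_lit 65583) (nat_lit 7) .nil))))) .nil)) 
(.lf (nat_lit 287475) (.g (nat_lit 827) (.e (nat_lit 294656) (nat_lit 18) (.e (nat_lit 204877) (nat_lit 31) (.e (nat_lit 376842) (nat_lit 11) (.e (nat_lit 433920) (nat_lit 25) .nil)))) .nil))))) (.nd (nat_lit 4) (.nd (nat_lit 5) (.nd (nat_lit 6) 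
(.lf (nat_lit 287371) (.g (nat_lit 3696) (.e (nat_lit 286761) (nat_lit 13) (.e (nat_lit 393301) (nat_lit 27) (.e (nat_lit 491560) (nat_lit 10) (.e (nat_lit 344097) (nat_lit 18) (.e (nat_lit 7151) (nat_lit 382) (.e (nat_lit 79) (nat_lit 0) (.e (nat_lit 7936) (nat_lit 178) .nil))))))) (.g (nat_lit 4) .nil .nil))) 
(.lf (nat_lit 287435) (.g (nat_lit 1995) (.e (nat_lit 286763) (nat_lit 15) (.e (nat_lit 6988) (nat_lit 377) (.e (nat_lit 2777) (nat_lit 178) (.e (nat_lit 286731) (nat_lit 1) (.e (nat_lit 57872) (nat_lit 264) (.e (nat_lit 1199) (nat_lit 88) (.e (nat_lit 65583) (nat_lit 7) (.e (nat_lit 319530) (nat_lit 16) .nil)))))))) (.g (nat_lit 4) .nil .nil)))) (.nd (nat_lit 6) 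
(.lf (nat_lit 287403) (.g (nat_lit 812) (.e (nat_lit 286762) (nat_lit 14) (.e (nat_lit 401438) (nat_lit 9) (.e (nat_lit 425985) (nat_lit 0) .nil))) .nil)) 
(.lf (nat_lit 287467) (.g (nat_lit 2788) (.e (nat_lit 294656) (nat_lit 17) (.e (nat_lit 196670) (nat_lit 14) (.e (nat_lit 73753) (nat_lit 8) (.e (nat_lit 557104) (nat_lit 14) (.e (nat_lit 180252) (nat_lit 10) .nil))))) .nil)))) (.nd (nat_lit 5) (.nd (nat_lit 6) 
(.lf (nat_lit 287387) (.g (nat_lit 3432) (.e (nat_lit 286761) (nat_lit 13) (.e (nat_lit 393301) (nat_lit 27) (.e (nat_lit 491560) (nat_lit 10) (.e (nat_lit 344177) (nat_lit 43) (.e (nat_lit 770050) (nat_lit 0) (.e (nat_lit 7936) (nat_lit 178) .nil)))))) (.g (nat_lit 4) .nil .nil))) 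
(.lf (nat_lit 287451) (.g (nat_lit 4384) (.e (nat_lit 286765) (nat_lit 15) (.e (nat_lit 3307) (nat_lit 202) (.e (nat_lit 573493) (nat_lit 15) (.e (nat_lit 81956) (nat_lit 23) (.e (nat_lit 98350) (nat_lit 24) .nil))))) .nil))) (.nd (nat_lit 6) 
(.lf (nat_lit 287419) (.g (nat_lit 4795) (.e (nat_lit 286762) (nat_lit 14) (.e (nat_lit 401459) (nat_lit 13) (.e (nat_lit 483372) (nat_lit 21) (.e (nat_lit 319504) (nat_lit 10) .nil)))) .nil)) 
(.lf (nat_lit 287483) (.g (nat_lit 1210) (.e (nat_lit 286767) (nat_lit 27) (.e (nat_lit 426107) (nat_lit 1) (.e (nat_lit 164190) (nat_lit 157) (.e (nat_lit 229409) (nat_lit 13) .nil)))) .nil)))))) (.nd (nat_lit 3) (.nd (nat_lit 4) (.nd (nat_lit 5) (.nd (nat_lit 6) 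
(.lf (nat_lit 287367) (.g (nat_lit 5333) (.e (nat_lit 286761) (nat_lit 13) (.e (nat_lit 393301) (nat_lit 27) (.e (nat_lit 491560) (nat_lit 10) (.e (nat_lit 344097) (nat_lit 18) (.e (nat_lit 7146) (nat_lit 382) (.e (nat_lit 12) (nat_lit 0) (.e (nat_lit 2781) (nat_lit 178) .nil))))))) (.g (nat_lit 4) .nil .nil))) 
(.lf (nat_lit 287431) (.g (nat_lit 1869) (.e (nat_lit 286763) (nat_lit 15) (.e (nat_lit 6988) (nat_lit 377) (.e (nat_lit 1361) (nat_lit 102) (.e (nat_lit 286761) (nat_lit 13) (.e (nat_lit 393265) (nat_lit 22) (.e (nat_lit 425728) (nat_lit 16) .nil)))))) (.g (nat_lit 5) .nil .nil)))) (.nd (nat_lit 6) 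
(.lf (nat_lit 287399) (.g (nat_lit 887) (.e (nat_lit 286761) (nat_lit 13) (.e (nat_lit 393301) (nat_lit 27) (.e (nat_lit 491578) (nat_lit 15) .nil))) .nil)) 
(.lf (nat_lit 287463) (.g (nat_lit 2106) (.e (nat_lit 294656) (nat_lit 15) (.e (nat_lit 3308) (nat_lit 202) (.e (nat_lit 573493) (nat_lit 15) (.e (nat_lit 81953) (nat_lit 22) (.e (nat_lit 90165) (nat_lit 12) .nil))))) .nil)))) (.nd (nat_lit 5) (.nd (nat_lit 6) 
(.lf (nat_lit 287383) (.g (nat_lit 2178) (.e (nat_lit 286761) (nat_lit 13) (.e (nat_lit 393301) (nat_lit 27) (.e (nat_lit 491560) (nat_lit 10) (.e (nat_lit 352000) (nat_lit 18) .nil)))) .nil)) 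
(.lf (nat_lit 287447) (.g (nat_lit 3809) (.e (nat_lit 286765) (nat_lit 15) (.e (nat_lit 3307) (nat_lit 202) (.e (nat_lit 573493) (nat_lit 15) (.e (nat_lit 81953) (nat_lit 22) (.e (nat_lit 90165) (nat_lit 12) .nil))))) .nil))) (.nd (nat_lit 6) 
(.lf (nat_lit 287415) (.g (nat_lit 2121) (.e (nat_lit 286762) (nat_lit 14) (.e (nat_lit 401457) (nat_lit 13) (.e (nat_lit 483406) (nat_lit 26) (.e (nat_lit 385115) (nat_lit 53) .nil)))) .nil)) 
(.lf (nat_lit 287479) (.g (nat_lit 824) (.e (nat_lit 294656) (nat_lit 26) (.e (nat_lit 417812) (nat_lit 7) (.e (nat_lit 294959) (nat_lit 13) (.e (nat_lit 393260) (nat_lit 21) (.e (nat_lit 417536) (nat_lit 16) .nil))))) .nil))))) (.nd (nat_lit 4) (.nd (nat_lit 5) (.nd (nat_lit 6) 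
(.lf (nat_lit 287375) (.g (nat_lit 3177) (.e (nat_lit 286761) (nat_lit 13) (.e (nat_lit 393301) (nat_lit 27) (.e (nat_lit 491560) (nat_lit 10) (.e (nat_lit 344097) (nat_lit 18) (.e (nat_lit 7165) (nat_lit 382) (.e (nat_lit 81) (nat_lit 0) (.e (nat_lit 7936) (nat_lit 178) .nil))))))) (.g (nat_lit 4) .nil .nil))) 
(.lf (nat_lit 287439) (.g (nat_lit 3237) (.e (nat_lit 286765) (nat_lit 15) (.e (nat_lit 3307) (nat_lit 202) (.e (nat_lit 573479) (nat_lit 13) (.e (nat_lit 65619) (nat_lit 10) (.e (nat_lit 344117) (nat_lit 21) (.e (nat_lit 516106) (nat_lit 0) (.e (nat_lit 6986) (nat_lit 377) (.e (nat_lit 2779) (nat_lit 178) .nil)))))))) (.g (nat_lit 5) .nil .nil)))) (.nd (nat_lit 6) 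
(.lf (nat_lit 287407) (.g (nat_lit 1286) (.e (nat_lit 286762) (nat_lit 14) (.e (nat_lit 401454) (nat_lit 12) (.e (nat_lit 475157) (nat_lit 21) (.e (nat_lit 6811) (nat_lit 365) .nil)))) .nil)) 
(.lf (nat_lit 287471) (.g (nat_lit 1116) (.e (nat_lit 294656) (nat_lit 18) (.e (nat_lit 204861) (nat_lit 26) (.e (nat_lit 336213) (nat_lit 13) (.e (nat_lit 401152) (nat_lit 7) .nil)))) .nil)))) (.nd (nat_lit 5) (.nd (nat_lit 6) 
(.lf (nat_lit 287391) (.g (nat_lit 5121) (.e (nat_lit 286761) (nat_lit 13) (.e (nat_lit 393301) (nat_lit 27) (.e (nat_lit 491560) (nat_lit 10) (.e (nat_lit 344177) (nat_lit 43) (.e (nat_lit 777984) (nat_lit 0) (.e (nat_lit 2778) (nat_lit 178) .nil)))))) (.g (nat_lit 4) .nil .nil))) 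
(.lf (nat_lit 287455) (.g (nat_lit 1581) (.e (nat_lit 286765) (nat_lit 15) (.e (nat_lit 6986) (nat_lit 377) (.e (nat_lit 1370) (nat_lit 103) (.e (nat_lit 294960) (nat_lit 13) (.e (nat_lit 393238) (nat_lit 17) (.e (nat_lit 6970) (nat_lit 377) (.e (nat_lit 2781) (nat_lit 178) .nil))))))) (.g (nat_lit 4) .nil .nil)))) (.nd (nat_lit 6) 
(.lf (nat_lit 287423) (.g (nat_lit 1163) (.e (nat_lit 286762) (nat_lit 14) (.e (nat_lit 401459) (nat_lit 13) (.e (nat_lit 483396) (nat_lit 24) .nil))) .nil)) 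
(.lf (nat_lit 287487) (.g (nat_lit 2165) (.e (nat_lit 286767) (nat_lit 27) (.e (nat_lit 426341) (nat_lit 14) (.e (nat_lit 491570) (nat_lit 13) (.e (nat_lit 393260) (nat_lit 21) (.e (nat_lit 417536) (nat_lit 16) .nil))))) (.g (nat_lit 4) .nil .nil))))))))))

noncomputable def tv3641 : DT := (.nd (nat_lit 0) (.nd (nat_lit 1) (.nd (nat_lit 2) (.nd (nat_lit 3) (.nd (nat_lit 4) (.nd (nat_lit 5) (.nd (nat_lit 6) 
(.lf (nat_lit 287488) (.g (nat_lit 1935) (.e (nat_lit 286767) (nat_lit 27) (.e (nat_lit 426343) (nat_lit 14) (.e (nat_lit 491549) (nat_lit 9) (.e (nat_lit 336369) (nat_lit 27) .nil)))) .nil)) 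
(.lf (nat_lit 287552) (.g (nat_lit 1774) (.e (nat_lit 294656) (nat_lit 28) (.e (nat_lit 434180) (nat_lit 0) (.e (nat_lit 1661) (nat_lit 115) (.e (nat_lit 393238) (nat_lit 17) (.e (nat_lit 6970) (nat_lit 377) .nil))))) .nil))) (.nd (nat_lit 6) 
(.lf (nat_lit 287520) (.g (nat_lit 1886) (.e (nat_lit 294656) (nat_lit 27) (.e (nat_lit 426340) (nat_lit 14) (.e (nat_lit 491549) (nat_lit 9) (.e (nat_lit 336369) (nat_lit 27) (.e (nat_lit 426173) (nat_lit 7) .nil))))) .nil)) 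
(.lf (nat_lit 287584) (.g (nat_lit 1176) (.e (nat_lit 294656) (nat_lit 35) (.e (nat_lit 491566) (nat_lit 12) (.e (nat_lit 385100) (nat_lit 49) .nil))) .nil)))) (.nd (nat_lit 5) (.nd (nat_lit 6) 
(.lf (nat_lit 287504) (.g (nat_lit 2987) (.e (nat_lit 286768) (nat_lit 27) (.e (nat_lit 426340) (nat_lit 14) (.e (nat_lit 491549) (nat_lit 9) (.e (nat_lit 336369) (nat_lit 27) (.e (nat_lit 426173) (nat_lit 7) (.e (nat_lit 417536) (nat_lit 16) .nil)))))) (.g (nat_lit 5) .nil .nil))) 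
(.lf (nat_lit 287568) (.g (nat_lit 814) (.e (nat_lit 294656) (nat_lit 35) (.e (nat_lit 491563) (nat_lit 12) (.e (nat_lit 385094) (nat_lit 49) .nil))) .nil))) (.nd (nat_lit 6) 
(.lf (nat_lit 287536) (.g (nat_lit 479) (.e (nat_lit 294656) (nat_lit 27) (.e (nat_lit 426542) (nat_lit 29) (.e (nat_lit 352313) (nat_lit 23) .nil))) .nil)) 
(.lf (nat_lit 287600) (.g (nat_lit 4287) (.e (nat_lit 294917) (nat_lit 0) (.e (nat_lit 1788) (nat_lit 119) (.e (nat_lit 516151) (nat_lit 9) (.e (nat_lit 426211) (nat_lit 9) (.e (nat_lit 426140) (nat_lit 3) .nil))))) .nil))))) (.nd (nat_lit 4) (.nd (nat_lit 5) (.nd (nat_lit 6) 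
(.lf (nat_lit 287496) (.g (nat_lit 1421) (.e (nat_lit 286768) (nat_lit 27) (.e (nat_lit 426338) (nat_lit 14) (.e (nat_lit 491571) (nat_lit 13) (.e (nat_lit 393238) (nat_lit 17) .nil)))) .nil)) 
(.lf (nat_lit 287560) (.g (nat_lit 1509) (.e (nat_lit 286771) (nat_lit 29) (.e (nat_lit 442419) (nat_lit 21) (.e (nat_lit 164332) (nat_lit 230) (.e (nat_lit 163885) (nat_lit 5) .nil)))) .nil))) (.nd (nat_lit 6) 
(.lf (nat_lit 287528) (.g (nat_lit 2208) (.e (nat_lit 294656) (nat_lit 27) (.e (nat_lit 426347) (nat_lit 14) (.e (nat_lit 491570) (nat_lit 13) (.e (nat_lit 393238) (nat_lit 17) (.e (nat_lit 6989) (nat_lit 377) .nil))))) .nil)) 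
(.lf (nat_lit 287592) (.g (nat_lit 1454) (.e (nat_lit 294656) (nat_lit 35) (.e (nat_lit 491566) (nat_lit 12) (.e (nat_lit 385105) (nat_lit 50) (.e (nat_lit 786471) (nat_lit 27) .nil)))) .nil)))) (.nd (nat_lit 5) (.nd (nat_lit 6) 
(.lf (nat_lit 287512) (.g (nat_lit 2974) (.e (nat_lit 294656) (nat_lit 27) (.e (nat_lit 426338) (nat_lit 14) (.e (nat_lit 491549) (nat_lit 9) (.e (nat_lit 336369) (nat_lit 27) (.e (nat_lit 426025) (nat_lit 0) .nil))))) .nil)) 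
(.lf (nat_lit 287576) (.g (nat_lit 1475) (.e (nat_lit 294656) (nat_lit 35) (.e (nat_lit 491566) (nat_lit 12) (.e (nat_lit 385093) (nat_lit 49) (.e (nat_lit 778320) (nat_lit 4) .nil)))) .nil))) (.nd (nat_lit 6) 
(.lf (nat_lit 287544) (.g (nat_lit 753) (.e (nat_lit 286770) (nat_lit 28) (.e (nat_lit 434181) (nat_lit 0) (.e (nat_lit 1660) (nat_lit 115) (.e (nat_lit 393230) (nat_lit 17) .nil)))) .nil)) 
(.lf (nat_lit 287608) (.g (nat_lit 752) (.e (nat_lit 294924) (nat_lit 1) (.e (nat_lit 57688) (nat_lit 156) (.e (nat_lit 163933) (nat_lit 17) .nil))) .nil)))))) (.nd (nat_lit 3) (.nd (nat_lit 4) (.nd (nat_lit 5) (.nd (nat_lit 6) 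
(.lf (nat_lit 287492) (.g (nat_lit 2097) (.e (nat_lit 286767) (nat_lit 27) (.e (nat_lit 426343) (nat_lit 14) (.e (nat_lit 491570) (nat_lit 13) (.e (nat_lit 393259) (nat_lit 21) (.e (nat_lit 417536) (nat_lit 16) .nil))))) .nil)) 
(.lf (nat_lit 287556) (.g (nat_lit 1343) (.e (nat_lit 286771) (nat_lit 29) (.e (nat_lit 450304) (nat_lit 5) (.e (nat_lit 114710) (nat_lit 21) (.e (nat_lit 57852) (nat_lit 252) (.e (nat_lit 57400) (nat_lit 10) (.e (nat_lit 327424) (nat_lit 6) .nil)))))) (.g (nat_lit 5) .nil .nil)))) (.nd (nat_lit 6) 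
(.lf (nat_lit 287524) (.g (nat_lit 558) (.e (nat_lit 294656) (nat_lit 27) (.e (nat_lit 426343) (nat_lit 14) (.e (nat_lit 491570) (nat_lit 13) .nil))) .nil)) 
(.lf (nat_lit 287588) (.g (nat_lit 1361) (.e (nat_lit 294656) (nat_lit 35) (.e (nat_lit 491566) (nat_lit 12) (.e (nat_lit 385104) (nat_lit 50) (.e (nat_lit 786470) (nat_lit 27) (.e (nat_lit 336060) (nat_lit 7) .nil))))) .nil)))) (.nd (nat_lit 5) (.nd (nat_lit 6) 
(.lf (nat_lit 287508) (.g (nat_lit 3853) (.e (nat_lit 286769) (nat_lit 27) (.e (nat_lit 426338) (nat_lit 14) (.e (nat_lit 491571) (nat_lit 13) (.e (nat_lit 393260) (nat_lit 21) (.e (nat_lit 417536) (nat_lit 16) .nil))))) .nil)) 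
(.lf (nat_lit 287572) (.g (nat_lit 1525) (.e (nat_lit 294656) (nat_lit 35) (.e (nat_lit 491566) (nat_lit 12) (.e (nat_lit 385091) (nat_lit 49) (.e (nat_lit 778320) (nat_lit 4) .nil)))) .nil))) (.nd (nat_lit 6) 
(.lf (nat_lit 287540) (.g (nat_lit 1692) (.e (nat_lit 286770) (nat_lit 28) (.e (nat_lit 434180) (nat_lit 0) (.e (nat_lit 1428) (nat_lit 108) (.e (nat_lit 336421) (nat_lit 28) (.e (nat_lit 434186) (nat_lit 13) .nil))))) .nil)) 
(.lf (nat_lit 287604) (.g (nat_lit 137) (.e (nat_lit 294924) (nat_lit 1) (.e (nat_lit 57665) (nat_lit 152) (.e (nat_lit 7936) (nat_lit 90) .nil))) .nil))))) (.nd (nat_lit 4) (.nd (nat_lit 5) (.nd (nat_lit 6) 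
(.lf (nat_lit 287500) (.g (nat_lit 1727) (.e (nat_lit 286768) (nat_lit 27) (.e (nat_lit 426338) (nat_lit 14) (.e (nat_lit 491571) (nat_lit 13) (.e (nat_lit 393259) (nat_lit 21) .nil)))) .nil)) 
(.lf (nat_lit 287564) (.g (nat_lit 2542) (.e (nat_lit 294656) (nat_lit 35) (.e (nat_lit 491558) (nat_lit 10) (.e (nat_lit 344169) (nat_lit 40) (.e (nat_lit 671762) (nat_lit 4) (.e (nat_lit 65583) (nat_lit 7) .nil))))) .nil))) (.nd (nat_lit 6) 
(.lf (nat_lit 287532) (.g (nat_lit 2307) (.e (nat_lit 294656) (nat_lit 27) (.e (nat_lit 426347) (nat_lit 14) (.e (nat_lit 491571) (nat_lit 13) (.e (nat_lit 393238) (nat_lit 17) (.e (nat_lit 6989) (nat_lit 377) .nil))))) .nil)) 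
(.lf (nat_lit 287596) (.g (nat_lit 4274) (.e (nat_lit 294912) (nat_lit 0) (.e (nat_lit 1788) (nat_lit 119) (.e (nat_lit 516151) (nat_lit 9) (.e (nat_lit 426211) (nat_lit 9) (.e (nat_lit 426140) (nat_lit 3) .nil))))) .nil)))) (.nd (nat_lit 5) (.nd (nat_lit 6) 
(.lf (nat_lit 287516) (.g (nat_lit 1951) (.e (nat_lit 294656) (nat_lit 27) (.e (nat_lit 426338) (nat_lit 14) (.e (nat_lit 491571) (nat_lit 13) (.e (nat_lit 393242) (nat_lit 17) (.e (nat_lit 6986) (nat_lit 377) .nil))))) .nil)) 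
(.lf (nat_lit 287580) (.g (nat_lit 2281) (.e (nat_lit 294656) (nat_lit 35) (.e (nat_lit 491566) (nat_lit 12) (.e (nat_lit 385093) (nat_lit 49) (.e (nat_lit 778324) (nat_lit 5) (.e (nat_lit 73791) (nat_lit 45) .nil))))) .nil))) (.nd (nat_lit 6) 
(.lf (nat_lit 287548) (.g (nat_lit 2181) (.e (nat_lit 286770) (nat_lit 28) (.e (nat_lit 434181) (nat_lit 0) (.e (nat_lit 1661) (nat_lit 115) (.e (nat_lit 393238) (nat_lit 17) (.e (nat_lit 6970) (nat_lit 377) .nil))))) .nil)) 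
(.lf (nat_lit 287612) (.g (nat_lit 1427) (.e (nat_lit 294924) (nat_lit 1) (.e (nat_lit 57854) (nat_lit 252) (.e (nat_lit 57389) (nat_lit 5) (.e (nat_lit 122624) (nat_lit 13) .nil)))) .nil))))))) (.nd (nat_lit 2) (.nd (nat_lit 3) (.nd (nat_lit 4) (.nd (nat_lit 5) (.nd (nat_lit 6) 
(.lf (nat_lit 287490) (.g (nat_lit 2297) (.e (nat_lit 286767) (nat_lit 27) (.e (nat_lit 426343) (nat_lit 14) (.e (nat_lit 491568) (nat_lit 13) (.e (nat_lit 393260) (nat_lit 21) (.e (nat_lit 417536) (nat_lit 16) .nil))))) .nil)) 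
(.lf (nat_lit 287554) (.g (nat_lit 1281) (.e (nat_lit 286771) (nat_lit 29) (.e (nat_lit 442379) (nat_lit 0) (.e (nat_lit 2175) (nat_lit 143) (.e (nat_lit 712747) (nat_lit 28) (.e (nat_lit 434187) (nat_lit 13) .nil))))) .nil))) (.nd (nat_lit 6) 
(.lf (nat_lit 287522) (.g (nat_lit 1598) (.e (nat_lit 294656) (nat_lit 27) (.e (nat_lit 426340) (nat_lit 14) (.e (nat_lit 491570) (nat_lit 13) (.e (nat_lit 393238) (nat_lit 17) (.e (nat_lit 6989) (nat_lit 377) .nil))))) .nil)) 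
(.lf (nat_lit 287586) (.g (nat_lit 1460) (.e (nat_lit 294656) (nat_lit 35) (.e (nat_lit 491566) (nat_lit 12) (.e (nat_lit 385103) (nat_lit 50) (.e (nat_lit 786467) (nat_lit 27) .nil)))) .nil)))) (.nd (nat_lit 5) (.nd (nat_lit 6) 
(.lf (nat_lit 287506) (.g (nat_lit 1150) (.e (nat_lit 286768) (nat_lit 27) (.e (nat_lit 426340) (nat_lit 14) (.e (nat_lit 491570) (nat_lit 13) (.e (nat_lit 393230) (nat_lit 17) .nil)))) .nil)) 
(.lf (nat_lit 287570) (.g (nat_lit 1537) (.e (nat_lit 294656) (nat_lit 35) (.e (nat_lit 491563) (nat_lit 12) (.e (nat_lit 385094) (nat_lit 49) (.e (nat_lit 778323) (nat_lit 5) .nil)))) .nil))) (.nd (nat_lit 6) 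
(.lf (nat_lit 287538) (.g (nat_lit 1159) (.e (nat_lit 294656) (nat_lit 27) (.e (nat_lit 426544) (nat_lit 30) (.e (nat_lit 360467) (nat_lit 3) (.e (nat_lit 524032) (nat_lit 24) .nil)))) .nil)) 
(.lf (nat_lit 287602) (.g (nat_lit 499) (.e (nat_lit 294922) (nat_lit 0) (.e (nat_lit 1800) (nat_lit 119) (.e (nat_lit 516176) (nat_lit 14) .nil))) .nil))))) (.nd (nat_lit 4) (.nd (nat_lit 5) (.nd (nat_lit 6) 
(.lf (nat_lit 287498) (.g (nat_lit 2054) (.e (nat_lit 286768) (nat_lit 27) (.e (nat_lit 426338) (nat_lit 14) (.e (nat_lit 491571) (nat_lit 13) (.e (nat_lit 393242) (nat_lit 17) (.e (nat_lit 6966) (nat_lit 377) .nil))))) .nil)) 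
(.lf (nat_lit 287562) (.g (nat_lit 2162) (.e (nat_lit 294656) (nat_lit 31) (.e (nat_lit 458754) (nat_lit 0) (.e (nat_lit 1427) (nat_lit 108) (.e (nat_lit 336421) (nat_lit 28) (.e (nat_lit 434187) (nat_lit 13) .nil))))) .nil))) (.nd (nat_lit 6) 
(.lf (nat_lit 287530) (.g (nat_lit 2230) (.e (nat_lit 294656) (nat_lit 27) (.e (nat_lit 426347) (nat_lit 14) (.e (nat_lit 491570) (nat_lit 13) (.e (nat_lit 393260) (nat_lit 21) (.e (nat_lit 417536) (nat_lit 16) .nil))))) .nil)) 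
(.lf (nat_lit 287594) (.g (nat_lit 2354) (.e (nat_lit 294656) (nat_lit 35) (.e (nat_lit 491572) (nat_lit 14) (.e (nat_lit 401438) (nat_lit 9) (.e (nat_lit 426482) (nat_lit 27) (.e (nat_lit 336060) (nat_lit 7) .nil))))) .nil)))) (.nd (nat_lit 5) (.nd (nat_lit 6) 
(.lf (nat_lit 287514) (.g (nat_lit 1962) (.e (nat_lit 294656) (nat_lit 27) (.e (nat_lit 426338) (nat_lit 14) (.e (nat_lit 491549) (nat_lit 9) (.e (nat_lit 336421) (nat_lit 28) (.e (nat_lit 434187) (nat_lit 13) .nil))))) .nil)) 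
(.lf (nat_lit 287578) (.g (nat_lit 2053) (.e (nat_lit 294656) (nat_lit 35) (.e (nat_lit 491566) (nat_lit 12) (.e (nat_lit 385093) (nat_lit 49) (.e (nat_lit 778323) (nat_lit 5) (.e (nat_lit 73789) (nat_lit 45) .nil))))) .nil))) (.nd (nat_lit 6) 
(.lf (nat_lit 287546) (.g (nat_lit 2272) (.e (nat_lit 286770) (nat_lit 28) (.e (nat_lit 434181) (nat_lit 0) (.e (nat_lit 1661) (nat_lit 115) (.e (nat_lit 393238) (nat_lit 17) (.e (nat_lit 6966) (nat_lit 377) .nil))))) .nil)) 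
(.lf (nat_lit 287610) (.g (nat_lit 793) (.e (nat_lit 294924) (nat_lit 1) (.e (nat_lit 57849) (nat_lit 252) (.e (nat_lit 57377) (nat_lit 3) .nil))) .nil)))))) (.nd (nat_lit 3) (.nd (nat_lit 4) (.nd (nat_lit 5) (.nd (nat_lit 6) 
(.lf (nat_lit 287494) (.g (nat_lit 3177) (.e (nat_lit 286768) (nat_lit 27) (.e (nat_lit 426338) (nat_lit 14) (.e (nat_lit 491549) (nat_lit 9) (.e (nat_lit 336369) (nat_lit 27) (.e (nat_lit 426025) (nat_lit 0) (.e (nat_lit 6989) (nat_lit 377) (.e (nat_lit 2779) (nat_lit 178) .nil))))))) (.g (nat_lit 4) .nil .nil))) 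
(.lf (nat_lit 287558) (.g (nat_lit 609) (.e (nat_lit 286771) (nat_lit 29) (.e (nat_lit 442419) (nat_lit 21) (.e (nat_lit 164326) (nat_lit 230) .nil))) .nil))) (.nd (nat_lit 6) 
(.lf (nat_lit 287526) (.g (nat_lit 1753) (.e (nat_lit 294656) (nat_lit 27) (.e (nat_lit 426347) (nat_lit 14) (.e (nat_lit 491550) (nat_lit 9) (.e (nat_lit 336421) (nat_lit 28) (.e (nat_lit 434187) (nat_lit 13) .nil))))) .nil)) 
(.lf (nat_lit 287590) (.g (nat_lit 1521) (.e (nat_lit 294656) (nat_lit 35) (.e (nat_lit 491566) (nat_lit 12) (.e (nat_lit 385105) (nat_lit 50) (.e (nat_lit 786467) (nat_lit 27) .nil)))) .nil)))) (.nd (nat_lit 5) (.nd (nat_lit 6) 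
(.lf (nat_lit 287510) (.g (nat_lit 1560) (.e (nat_lit 294656) (nat_lit 27) (.e (nat_lit 426337) (nat_lit 14) (.e (nat_lit 491570) (nat_lit 13) (.e (nat_lit 393260) (nat_lit 21) (.e (nat_lit 417536) (nat_lit 16) .nil))))) .nil)) 
(.lf (nat_lit 287574) (.g (nat_lit 1661) (.e (nat_lit 294656) (nat_lit 35) (.e (nat_lit 491566) (nat_lit 12) (.e (nat_lit 385092) (nat_lit 49) (.e (nat_lit 778323) (nat_lit 5) (.e (nat_lit 73786) (nat_lit 45) .nil))))) .nil))) (.nd (nat_lit 6) 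
(.lf (nat_lit 287542) (.g (nat_lit 1237) (.e (nat_lit 286770) (nat_lit 28) (.e (nat_lit 434180) (nat_lit 0) (.e (nat_lit 1661) (nat_lit 115) (.e (nat_lit 393242) (nat_lit 17) .nil)))) .nil)) 
(.lf (nat_lit 287606) (.g (nat_lit 2195) (.e (nat_lit 294924) (nat_lit 1) (.e (nat_lit 57681) (nat_lit 155) (.e (nat_lit 122919) (nat_lit 15) (.e (nat_lit 360487) (nat_lit 19) .nil)))) .nil))))) (.nd (nat_lit 4) (.nd (nat_lit 5) (.nd (nat_lit 6) 
(.lf (nat_lit 287502) (.g (nat_lit 1565) (.e (nat_lit 286768) (nat_lit 27) (.e (nat_lit 426339) (nat_lit 14) (.e (nat_lit 491570) (nat_lit 13) (.e (nat_lit 393238) (nat_lit 17) (.e (nat_lit 6989) (nat_lit 377) .nil))))) .nil)) 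
(.lf (nat_lit 287566) (.g (nat_lit 1822) (.e (nat_lit 294656) (nat_lit 35) (.e (nat_lit 491563) (nat_lit 12) (.e (nat_lit 385093) (nat_lit 49) (.e (nat_lit 778320) (nat_lit 4) .nil)))) .nil))) (.nd (nat_lit 6) 
(.lf (nat_lit 287534) (.g (nat_lit 2094) (.e (nat_lit 294656) (nat_lit 27) (.e (nat_lit 426347) (nat_lit 14) (.e (nat_lit 491571) (nat_lit 13) (.e (nat_lit 393259) (nat_lit 21) .nil)))) .nil)) 
(.lf (nat_lit 287598) (.g (nat_lit 3418) (.e (nat_lit 294916) (nat_lit 0) (.e (nat_lit 1803) (nat_lit 119) (.e (nat_lit 516151) (nat_lit 9) (.e (nat_lit 426211) (nat_lit 9) (.e (nat_lit 426140) (nat_lit 3) .nil))))) .nil)))) (.nd (nat_lit 5) (.nd (nat_lit 6) 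
(.lf (nat_lit 287518) (.g (nat_lit 2342) (.e (nat_lit 294656) (nat_lit 27) (.e (nat_lit 426339) (nat_lit 14) (.e (nat_lit 491571) (nat_lit 13) (.e (nat_lit 393238) (nat_lit 17) (.e (nat_lit 6989) (nat_lit 377) .nil))))) .nil)) 
(.lf (nat_lit 287582) (.g (nat_lit 1406) (.e (nat_lit 294656) (nat_lit 35) (.e (nat_lit 491566) (nat_lit 12) (.e (nat_lit 385097) (nat_lit 49) .nil))) .nil))) (.nd (nat_lit 6) 
(.lf (nat_lit 287550) (.g (nat_lit 2072) (.e (nat_lit 286770) (nat_lit 28) (.e (nat_lit 434181) (nat_lit 0) (.e (nat_lit 1661) (nat_lit 115) (.e (nat_lit 393260) (nat_lit 21) (.e (nat_lit 417536) (nat_lit 16) .nil))))) (.g (nat_lit 4) .nil .nil))) 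
(.lf (nat_lit 287614) (.g (nat_lit 2538) (.e (nat_lit 294924) (nat_lit 1) (.e (nat_lit 57872) (nat_lit 264) (.e (nat_lit 1221) (nat_lit 90) (.e (nat_lit 81959) (nat_lit 24) (.e (nat_lit 123195) (nat_lit 266) (.e (nat_lit 57403) (nat_lit 11) (.e (nat_lit 327697) (nat_lit 7) .nil))))))) (.g (nat_lit 5) .nil .nil))))))))) 
(.nd (nat_lit 1) (.nd (nat_lit 2) (.nd (nat_lit 3) (.nd (nat_lit 4) (.nd (nat_lit 5) 
(.nd (nat_lit 6) 
(.lf (nat_lit 287489) (.g (nat_lit 632) (.e (nat_lit 286767) (nat_lit 27) (.e (nat_lit 426343) (nat_lit 14) (.e (nat_lit 491568) (nat_lit 13) .nil))) .nil)) 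
(.lf (nat_lit 287553) (.g (nat_lit 1972) (.e (nat_lit 294656) (nat_lit 28) (.e (nat_lit 434180) (nat_lit 0) (.e (nat_lit 1661) (nat_lit 115) (.e (nat_lit 393260) (nat_lit 21) (.e (nat_lit 417536) (nat_lit 16) .nil))))) .nil))) (.nd (nat_lit 6) 
(.lf (nat_lit 287521) (.g (nat_lit 1622) (.e (nat_lit 294656) (nat_lit 27) (.e (nat_lit 426340) (nat_lit 14) (.e (nat_lit 491549) (nat_lit 9) (.e (nat_lit 336421) (nat_lit 28) (.e (nat_lit 434187) (nat_lit 13) .nil))))) .nil)) 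
(.lf (nat_lit 287585) (.g (nat_lit 1308) (.e (nat_lit 294656) (nat_lit 35) (.e (nat_lit 491566) (nat_lit 12) (.e (nat_lit 385103) (nat_lit 50) .nil))) .nil)))) (.nd (nat_lit 5) (.nd (nat_lit 6) 
(.lf (nat_lit 287505) (.g (nat_lit 1483) (.e (nat_lit 286768) (nat_lit 27) (.e (nat_lit 426340) (nat_lit 14) (.e (nat_lit 491569) (nat_lit 13) (.e (nat_lit 393230) (nat_lit 17) .nil)))) .nil)) 
(.lf (nat_lit 287569) (.g (nat_lit 1567) (.e (nat_lit 294656) (nat_lit 35) (.e (nat_lit 491563) (nat_lit 12) (.e (nat_lit 385094) (nat_lit 49) (.e (nat_lit 778320) (nat_lit 4) .nil)))) .nil))) (.nd (nat_lit 6) 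
(.lf (nat_lit 287537) (.g (nat_lit 954) (.e (nat_lit 294656) (nat_lit 27) (.e (nat_lit 426542) (nat_lit 29) (.e (nat_lit 352315) (nat_lit 23) (.e (nat_lit 106240) (nat_lit 7) .nil)))) .nil)) 
(.lf (nat_lit 287601) (.g (nat_lit 1287) (.e (nat_lit 294917) (nat_lit 0) (.e (nat_lit 1788) (nat_lit 119) (.e (nat_lit 516163) (nat_lit 11) (.e (nat_lit 442427) (nat_lit 23) .nil)))) .nil))))) (.nd (nat_lit 4) (.nd (nat_lit 5) (.nd (nat_lit 6) 
(.lf (nat_lit 287497) (.g (nat_lit 2345) (.e (nat_lit 286768) (nat_lit 27) (.e (nat_lit 426338) (nat_lit 14) (.e (nat_lit 491571) (nat_lit 13) (.e (nat_lit 393238) (nat_lit 17) (.e (nat_lit 6989) (nat_lit 377) .nil))))) .nil)) 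
(.lf (nat_lit 287561) (.g (nat_lit 857) (.e (nat_lit 294656) (nat_lit 31) (.e (nat_lit 458753) (nat_lit 0) (.e (nat_lit 1656) (nat_lit 115) (.e (nat_lit 393265) (nat_lit 22) (.e (nat_lit 425728) (nat_lit 16) .nil))))) .nil))) (.nd (nat_lit 6) 
(.lf (nat_lit 287529) (.g (nat_lit 1913) (.e (nat_lit 294656) (nat_lit 27) (.e (nat_lit 426347) (nat_lit 14) (.e (nat_lit 491570) (nat_lit 13) (.e (nat_lit 393259) (nat_lit 21) (.e (nat_lit 417536) (nat_lit 16) .nil))))) .nil)) 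
(.lf (nat_lit 287593) (.g (nat_lit 2478) (.e (nat_lit 294656) (nat_lit 35) (.e (nat_lit 491572) (nat_lit 14) (.e (nat_lit 401437) (nat_lit 9) (.e (nat_lit 426482) (nat_lit 27) (.e (nat_lit 336060) (nat_lit 7) .nil))))) .nil)))) (.nd (nat_lit 5) (.nd (nat_lit 6) 
(.lf (nat_lit 287513) (.g (nat_lit 2061) (.e (nat_lit 294656) (nat_lit 27) (.e (nat_lit 426338) (nat_lit 14) (.e (nat_lit 491549) (nat_lit 9) (.e (nat_lit 336421) (nat_lit 28) (.e (nat_lit 434186) (nat_lit 13) .nil))))) .nil)) 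
(.lf (nat_lit 287577) (.g (nat_lit 2198) (.e (nat_lit 294656) (nat_lit 35) (.e (nat_lit 491566) (nat_lit 12) (.e (nat_lit 385093) (nat_lit 49) (.e (nat_lit 778323) (nat_lit 5) (.e (nat_lit 73786) (nat_lit 45) .nil))))) .nil))) (.nd (nat_lit 6) 
(.lf (nat_lit 287545) (.g (nat_lit 1585) (.e (nat_lit 286770) (nat_lit 28) (.e (nat_lit 434181) (nat_lit 0) (.e (nat_lit 1660) (nat_lit 115) (.e (nat_lit 393260) (nat_lit 21) (.e (nat_lit 417536) (nat_lit 16) .nil))))) (.g (nat_lit 4) .nil .nil))) 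
(.lf (nat_lit 287609) (.g (nat_lit 1624) (.e (nat_lit 294924) (nat_lit 1) (.e (nat_lit 57847) (nat_lit 252) (.e (nat_lit 57377) (nat_lit 3) (.e (nat_lit 106240) (nat_lit 11) .nil)))) .nil)))))) (.nd (nat_lit 3) (.nd (nat_lit 4) (.nd (nat_lit 5) (.nd (nat_lit 6) 
(.lf (nat_lit 287493) (.g (nat_lit 2329) (.e (nat_lit 286767) (nat_lit 27) (.e (nat_lit 426343) (nat_lit 14) (.e (nat_lit 491570) (nat_lit 13) (.e (nat_lit 393260) (nat_lit 21) (.e (nat_lit 417536) (nat_lit 16) .nil))))) (.g (nat_lit 4) .nil .nil))) 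
(.lf (nat_lit 287557) (.g (nat_lit 1349) (.e (nat_lit 286771) (nat_lit 29) (.e (nat_lit 450304) (nat_lit 5) (.e (nat_lit 114712) (nat_lit 21) (.e (nat_lit 57852) (nat_lit 252) (.e (nat_lit 57400) (nat_lit 10) (.e (nat_lit 327424) (nat_lit 6) .nil)))))) (.g (nat_lit 5) .nil .nil)))) (.nd (nat_lit 6) 
(.lf (nat_lit 287525) (.g (nat_lit 1498) (.e (nat_lit 294656) (nat_lit 27) (.e (nat_lit 426343) (nat_lit 14) (.e (nat_lit 491570) (nat_lit 13) (.e (nat_lit 393238) (nat_lit 17) .nil)))) .nil)) 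
(.lf (nat_lit 287589) (.g (nat_lit 698) (.e (nat_lit 294656) (nat_lit 35) (.e (nat_lit 491566) (nat_lit 12) (.e (nat_lit 385105) (nat_lit 50) .nil))) .nil)))) (.nd (nat_lit 5) (.nd (nat_lit 6) 
(.lf (nat_lit 287509) (.g (nat_lit 1497) (.e (nat_lit 286769) (nat_lit 27) (.e (nat_lit 426523) (nat_lit 27) (.e (nat_lit 336088) (nat_lit 9) (.e (nat_lit 336019) (nat_lit 3) (.e (nat_lit 106240) (nat_lit 7) .nil))))) .nil)) 
(.lf (nat_lit 287573) (.g (nat_lit 742) (.e (nat_lit 294656) (nat_lit 35) (.e (nat_lit 491566) (nat_lit 12) (.e (nat_lit 385092) (nat_lit 49) .nil))) .nil))) (.nd (nat_lit 6) 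
(.lf (nat_lit 287541) (.g (nat_lit 2071) (.e (nat_lit 286770) (nat_lit 28) (.e (nat_lit 434180) (nat_lit 0) (.e (nat_lit 1661) (nat_lit 115) (.e (nat_lit 393238) (nat_lit 17) (.e (nat_lit 6970) (nat_lit 377) .nil))))) .nil)) 
(.lf (nat_lit 287605) (.g (nat_lit 1591) (.e (nat_lit 294924) (nat_lit 1) (.e (nat_lit 57681) (nat_lit 155) (.e (nat_lit 122919) (nat_lit 15) (.e (nat_lit 360451) (nat_lit 0) .nil)))) .nil))))) (.nd (nat_lit 4) (.nd (nat_lit 5) (.nd (nat_lit 6) 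
(.lf (nat_lit 287501) (.g (nat_lit 3693) (.e (nat_lit 286768) (nat_lit 27) (.e (nat_lit 426338) (nat_lit 14) (.e (nat_lit 491571) (nat_lit 13) (.e (nat_lit 393260) (nat_lit 21) (.e (nat_lit 417536) (nat_lit 16) .nil))))) .nil)) 
(.lf (nat_lit 287565) (.g (nat_lit 2164) (.e (nat_lit 294656) (nat_lit 35) (.e (nat_lit 491562) (nat_lit 12) (.e (nat_lit 385094) (nat_lit 49) (.e (nat_lit 778321) (nat_lit 4) (.e (nat_lit 65586) (nat_lit 7) .nil))))) .nil))) (.nd (nat_lit 6) 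
(.lf (nat_lit 287533) (.g (nat_lit 1756) (.e (nat_lit 294656) (nat_lit 27) (.e (nat_lit 426347) (nat_lit 14) (.e (nat_lit 491571) (nat_lit 13) (.e (nat_lit 393242) (nat_lit 17) .nil)))) .nil)) 
(.lf (nat_lit 287597) (.g (nat_lit 3341) (.e (nat_lit 294916) (nat_lit 0) (.e (nat_lit 1794) (nat_lit 119) (.e (nat_lit 516151) (nat_lit 9) (.e (nat_lit 426211) (nat_lit 9) (.e (nat_lit 426140) (nat_lit 3) .nil))))) .nil)))) (.nd (nat_lit 5) (.nd (nat_lit 6) 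
(.lf (nat_lit 287517) (.g (nat_lit 3621) (.e (nat_lit 294656) (nat_lit 27) (.e (nat_lit 426338) (nat_lit 14) (.e (nat_lit 491571) (nat_lit 13) (.e (nat_lit 393260) (nat_lit 21) (.e (nat_lit 417536) (nat_lit 16) .nil))))) .nil)) 
(.lf (nat_lit 287581) (.g (nat_lit 1812) (.e (nat_lit 294656) (nat_lit 35) (.e (nat_lit 491566) (nat_lit 12) (.e (nat_lit 385096) (nat_lit 49) (.e (nat_lit 786176) (nat_lit 4) .nil)))) .nil))) (.nd (nat_lit 6) 
(.lf (nat_lit 287549) (.g (nat_lit 1981) (.e (nat_lit 286770) (nat_lit 28) (.e (nat_lit 434181) (nat_lit 0) (.e (nat_lit 1661) (nat_lit 115) (.e (nat_lit 393238) (nat_lit 17) (.e (nat_lit 6989) (nat_lit 377) .nil))))) .nil)) 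
(.lf (nat_lit 287613) (.g (nat_lit 1021) (.e (nat_lit 294924) (nat_lit 1) (.e (nat_lit 57872) (nat_lit 264) (.e (nat_lit 1221) (nat_lit 90) (.e (nat_lit 81959) (nat_lit 24) .nil)))) .nil))))))) (.nd (nat_lit 2) (.nd (nat_lit 3) (.nd (nat_lit 4) (.nd (nat_lit 5) (.nd (nat_lit 6) 
(.lf (nat_lit 287491) (.g (nat_lit 1691) (.e (nat_lit 286767) (nat_lit 27) (.e (nat_lit 426343) (nat_lit 14) (.e (nat_lit 491570) (nat_lit 13) (.e (nat_lit 393238) (nat_lit 17) (.e (nat_lit 6989) (nat_lit 377) .nil))))) .nil)) 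
(.lf (nat_lit 287555) (.g (nat_lit 1407) (.e (nat_lit 286771) (nat_lit 29) (.e (nat_lit 442379) (nat_lit 0) (.e (nat_lit 2175) (nat_lit 143) (.e (nat_lit 712749) (nat_lit 28) (.e (nat_lit 434195) (nat_lit 13) .nil))))) .nil))) (.nd (nat_lit 6) 
(.lf (nat_lit 287523) (.g (nat_lit 1191) (.e (nat_lit 294656) (nat_lit 27) (.e (nat_lit 426341) (nat_lit 14) (.e (nat_lit 491570) (nat_lit 13) (.e (nat_lit 393260) (nat_lit 21) .nil)))) .nil)) 
(.lf (nat_lit 287587) (.g (nat_lit 1149) (.e (nat_lit 294656) (nat_lit 35) (.e (nat_lit 491566) (nat_lit 12) (.e (nat_lit 385104) (nat_lit 50) (.e (nat_lit 786467) (nat_lit 27) .nil)))) .nil)))) (.nd (nat_lit 5) (.nd (nat_lit 6) 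
(.lf (nat_lit 287507) (.g (nat_lit 558) (.e (nat_lit 286768) (nat_lit 27) (.e (nat_lit 426499) (nat_lit 27) (.e (nat_lit 336231) (nat_lit 14) .nil))) .nil)) 
(.lf (nat_lit 287571) (.g (nat_lit 2736) (.e (nat_lit 294656) (nat_lit 35) (.e (nat_lit 491563) (nat_lit 12) (.e (nat_lit 385094) (nat_lit 49) (.e (nat_lit 778323) (nat_lit 5) (.e (nat_lit 73788) (nat_lit 45) .nil))))) .nil))) (.nd (nat_lit 6) 
(.lf (nat_lit 287539) (.g (nat_lit 965) (.e (nat_lit 286770) (nat_lit 28) (.e (nat_lit 434180) (nat_lit 0) (.e (nat_lit 1428) (nat_lit 108) (.e (nat_lit 336421) (nat_lit 28) .nil)))) .nil)) 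
(.lf (nat_lit 287603) (.g (nat_lit 1226) (.e (nat_lit 294922) (nat_lit 0) (.e (nat_lit 1800) (nat_lit 119) (.e (nat_lit 516176) (nat_lit 14) (.e (nat_lit 466976) (nat_lit 22) .nil)))) .nil))))) (.nd (nat_lit 4) (.nd (nat_lit 5) (.nd (nat_lit 6) 
(.lf (nat_lit 287499) (.g (nat_lit 2032) (.e (nat_lit 286768) (nat_lit 27) (.e (nat_lit 426338) (nat_lit 14) (.e (nat_lit 491571) (nat_lit 13) (.e (nat_lit 393242) (nat_lit 17) (.e (nat_lit 6986) (nat_lit 377) .nil))))) .nil)) 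
(.lf (nat_lit 287563) (.g (nat_lit 1790) (.e (nat_lit 294656) (nat_lit 31) (.e (nat_lit 458756) (nat_lit 0) (.e (nat_lit 1661) (nat_lit 115) (.e (nat_lit 393238) (nat_lit 17) (.e (nat_lit 6989) (nat_lit 377) .nil))))) .nil))) (.nd (nat_lit 6) 
(.lf (nat_lit 287531) (.g (nat_lit 1425) (.e (nat_lit 294656) (nat_lit 27) (.e (nat_lit 426347) (nat_lit 14) (.e (nat_lit 491571) (nat_lit 13) (.e (nat_lit 393238) (nat_lit 17) .nil)))) .nil)) 
(.lf (nat_lit 287595) (.g (nat_lit 1120) (.e (nat_lit 294656) (nat_lit 35) (.e (nat_lit 491572) (nat_lit 14) (.e (nat_lit 401458) (nat_lit 13) (.e (nat_lit 483372) (nat_lit 21) .nil)))) .nil)))) (.nd (nat_lit 5) (.nd (nat_lit 6) 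
(.lf (nat_lit 287515) (.g (nat_lit 1593) (.e (nat_lit 294656) (nat_lit 27) (.e (nat_lit 426338) (nat_lit 14) (.e (nat_lit 491571) (nat_lit 13) (.e (nat_lit 393230) (nat_lit 17) .nil)))) .nil)) 
(.lf (nat_lit 287579) (.g (nat_lit 2415) (.e (nat_lit 294656) (nat_lit 35) (.e (nat_lit 491566) (nat_lit 12) (.e (nat_lit 385093) (nat_lit 49) (.e (nat_lit 778324) (nat_lit 5) (.e (nat_lit 73786) (nat_lit 45) .nil))))) .nil))) (.nd (nat_lit 6) 
(.lf (nat_lit 287547) (.g (nat_lit 2375) (.e (nat_lit 286770) (nat_lit 28) (.e (nat_lit 434181) (nat_lit 0) (.e (nat_lit 1661) (nat_lit 115) (.e (nat_lit 393238) (nat_lit 17) (.e (nat_lit 6967) (nat_lit 377) .nil))))) .nil)) 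
(.lf (nat_lit 287611) (.g (nat_lit 1156) (.e (nat_lit 294924) (nat_lit 1) (.e (nat_lit 57854) (nat_lit 252) (.e (nat_lit 57388) (nat_lit 5) (.e (nat_lit 122624) (nat_lit 13) .nil)))) .nil)))))) (.nd (nat_lit 3) (.nd (nat_lit 4) (.nd (nat_lit 5) (.nd (nat_lit 6) 
(.lf (nat_lit 287495) (.g (nat_lit 1951) (.e (nat_lit 286768) (nat_lit 27) (.e (nat_lit 426338) (nat_lit 14) (.e (nat_lit 491571) (nat_lit 13) (.e (nat_lit 393230) (nat_lit 17) (.e (nat_lit 6989) (nat_lit 377) .nil))))) .nil)) 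
(.lf (nat_lit 287559) (.g (nat_lit 766) (.e (nat_lit 286771) (nat_lit 29) (.e (nat_lit 442419) (nat_lit 21) (.e (nat_lit 164331) (nat_lit 230) .nil))) .nil))) (.nd (nat_lit 6) 
(.lf (nat_lit 287527) (.g (nat_lit 2153) (.e (nat_lit 294656) (nat_lit 27) (.e (nat_lit 426347) (nat_lit 14) (.e (nat_lit 491569) (nat_lit 13) (.e (nat_lit 393238) (nat_lit 17) .nil)))) .nil)) 
(.lf (nat_lit 287591) (.g (nat_lit 1520) (.e (nat_lit 294656) (nat_lit 35) (.e (nat_lit 491566) (nat_lit 12) (.e (nat_lit 385105) (nat_lit 50) (.e (nat_lit 786470) (nat_lit 27) .nil)))) .nil)))) (.nd (nat_lit 5) (.nd (nat_lit 6) 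
(.lf (nat_lit 287511) (.g (nat_lit 1865) (.e (nat_lit 294656) (nat_lit 27) (.e (nat_lit 426338) (nat_lit 14) (.e (nat_lit 491549) (nat_lit 9) (.e (nat_lit 336369) (nat_lit 27) .nil)))) .nil)) 
(.lf (nat_lit 287575) (.g (nat_lit 663) (.e (nat_lit 294656) (nat_lit 35) (.e (nat_lit 491566) (nat_lit 12) (.e (nat_lit 385093) (nat_lit 49) .nil))) .nil))) (.nd (nat_lit 6) 
(.lf (nat_lit 287543) (.g (nat_lit 2069) (.e (nat_lit 286770) (nat_lit 28) (.e (nat_lit 434181) (nat_lit 0) (.e (nat_lit 1428) (nat_lit 108) (.e (nat_lit 336369) (nat_lit 27) (.e (nat_lit 426173) (nat_lit 7) (.e (nat_lit 417536) (nat_lit 16) .nil)))))) (.g (nat_lit 5) .nil .nil))) 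
(.lf (nat_lit 287607) (.g (nat_lit 885) (.e (nat_lit 294924) (nat_lit 1) (.e (nat_lit 57688) (nat_lit 156) (.e (nat_lit 163932) (nat_lit 17) .nil))) .nil))))) (.nd (nat_lit 4) (.nd (nat_lit 5) (.nd (nat_lit 6) 
(.lf (nat_lit 287503) (.g (nat_lit 1514) (.e (nat_lit 286768) (nat_lit 27) (.e (nat_lit 426339) (nat_lit 14) (.e (nat_lit 491570) (nat_lit 13) (.e (nat_lit 393260) (nat_lit 21) (.e (nat_lit 417536) (nat_lit 16) .nil))))) .nil)) 
(.lf (nat_lit 287567) (.g (nat_lit 2614) (.e (nat_lit 294656) (nat_lit 35) (.e (nat_lit 491563) (nat_lit 12) (.e (nat_lit 385093) (nat_lit 49) (.e (nat_lit 778323) (nat_lit 5) (.e (nat_lit 73788) (nat_lit 45) .nil))))) .nil))) (.nd (nat_lit 6) 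
(.lf (nat_lit 287535) (.g (nat_lit 2829) (.e (nat_lit 294656) (nat_lit 27) (.e (nat_lit 426347) (nat_lit 14) (.e (nat_lit 491571) (nat_lit 13) (.e (nat_lit 393260) (nat_lit 21) (.e (nat_lit 417536) (nat_lit 16) .nil))))) .nil)) 
(.lf (nat_lit 287599) (.g (nat_lit 4349) (.e (nat_lit 294917) (nat_lit 0) (.e (nat_lit 1774) (nat_lit 118) (.e (nat_lit 507923) (nat_lit 6) (.e (nat_lit 286753) (nat_lit 10) (.e (nat_lit 344117) (nat_lit 21) (.e (nat_lit 516139) (nat_lit 7) (.e (nat_lit 409641) (nat_lit 17) .nil))))))) (.g (nat_lit 7) .nil .nil))))) (.nd (nat_lit 5) (.nd (nat_lit 6) 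
(.lf (nat_lit 287519) (.g (nat_lit 1205) (.e (nat_lit 294656) (nat_lit 27) (.e (nat_lit 426339) (nat_lit 14) (.e (nat_lit 491571) (nat_lit 13) (.e (nat_lit 393242) (nat_lit 17) .nil)))) .nil)) 
(.lf (nat_lit 287583) (.g (nat_lit 1406) (.e (nat_lit 294656) (nat_lit 35) (.e (nat_lit 491566) (nat_lit 12) (.e (nat_lit 385099) (nat_lit 49) .nil))) .nil))) (.nd (nat_lit 6) 
(.lf (nat_lit 287551) (.g (nat_lit 786) (.e (nat_lit 294656) (nat_lit 28) (.e (nat_lit 434180) (nat_lit 0) (.e (nat_lit 1428) (nat_lit 108) (.e (nat_lit 336421) (nat_lit 28) (.e (nat_lit 434187) (nat_lit 13) .nil))))) .nil)) 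
(.lf (nat_lit 287615) (.g (nat_lit 576) (.e (nat_lit 294925) (nat_lit 1) (.e (nat_lit 57681) (nat_lit 155) (.e (nat_lit 122904) (nat_lit 12) .nil))) .nil)))))))))

noncomputable def tv3642 : DT := (.nd (nat_lit 0) (.nd (nat_lit 1) (.nd (nat_lit 2) (.nd (nat_lit 3) (.nd (nat_lit 4) (.nd (nat_lit 5) (.nd (nat_lit 6) 
(.lf (nat_lit 287616) (.g (nat_lit 755) (.e (nat_lit 294925) (nat_lit 1) (.e (nat_lit 57681) (nat_lit 155) (.e (nat_lit 122908) (nat_lit 12) (.e (nat_lit 336222) (nat_lit 13) .nil)))) .nil)) 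
(.lf (nat_lit 287680) (.g (nat_lit 2498) (.e (nat_lit 294927) (nat_lit 2) (.e (nat_lit 90170) (nat_lit 13) (.e (nat_lit 172106) (nat_lit 10) (.e (nat_lit 434244) (nat_lit 28) .nil)))) .nil))) (.nd (nat_lit 6) 
(.lf (nat_lit 287648) (.g (nat_lit 606) (.e (nat_lit 294926) (nat_lit 2) (.e (nat_lit 90178) (nat_lit 15) (.e (nat_lit 188452) (nat_lit 23) .nil))) .nil)) 
(.lf (nat_lit 287712) (.g (nat_lit 2311) (.e (nat_lit 294927) (nat_lit 2) (.e (nat_lit 90177) (nat_lit 15) (.e (nat_lit 188452) (nat_lit 23) (.e (nat_lit 204816) (nat_lit 17) .nil)))) .nil)))) (.nd (nat_lit 5) (.nd (nat_lit 6) 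
(.lf (nat_lit 287632) (.g (nat_lit 2181) (.e (nat_lit 294925) (nat_lit 1) (.e (nat_lit 57681) (nat_lit 155) (.e (nat_lit 122919) (nat_lit 15) (.e (nat_lit 360451) (nat_lit 0) (.e (nat_lit 6869) (nat_lit 371) (.e (nat_lit 2445) (nat_lit 157) (.e (nat_lit 2828) (nat_lit 182) (.e (nat_lit 409642) (nat_lit 17) .nil)))))))) (.g (nat_lit 4) .nil .nil))) 
(.lf (nat_lit 287696) (.g (nat_lit 2038) (.e (nat_lit 294927) (nat_lit 2) (.e (nat_lit 90170) (nat_lit 13) (.e (nat_lit 172115) (nat_lit 10) (.e (nat_lit 434231) (nat_lit 23) (.e (nat_lit 532490) (nat_lit 0) (.e (nat_lit 6092) (nat_lit 332) (.e (nat_lit 1366) (nat_lit 103) .nil))))))) (.g (nat_lit 4) .nil .nil)))) (.nd (nat_lit 6) 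
(.lf (nat_lit 287664) (.g (nat_lit 4012) (.e (nat_lit 294927) (nat_lit 2) (.e (nat_lit 90170) (nat_lit 13) (.e (nat_lit 172106) (nat_lit 10) (.e (nat_lit 434231) (nat_lit 23) (.e (nat_lit 532481) (nat_lit 0) (.e (nat_lit 6192) (nat_lit 332) (.e (nat_lit 1365) (nat_lit 103) .nil))))))) (.g (nat_lit 4) .nil .nil))) 
(.lf (nat_lit 287728) (.g (nat_lit 3974) (.e (nat_lit 294927) (nat_lit 2) (.e (nat_lit 90185) (nat_lit 17) (.e (nat_lit 237605) (nat_lit 9) (.e (nat_lit 426131) (nat_lit 3) (.e (nat_lit 204846) (nat_lit 24) (.e (nat_lit 319535) (nat_lit 17) .nil)))))) (.g (nat_lit 0) .nil .nil)))))) (.nd (nat_lit 4) (.nd (nat_lit 5) (.nd (nat_lit 6) 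
(.lf (nat_lit 287624) (.g (nat_lit 1771) (.e (nat_lit 294925) (nat_lit 1) (.e (nat_lit 57681) (nat_lit 155) (.e (nat_lit 122914) (nat_lit 14) (.e (nat_lit 352277) (nat_lit 11) (.e (nat_lit 426182) (nat_lit 8) .nil))))) .nil)) 
(.lf (nat_lit 287688) (.g (nat_lit 1871) (.e (nat_lit 294927) (nat_lit 2) (.e (nat_lit 90170) (nat_lit 13) (.e (nat_lit 172113) (nat_lit 10) (.e (nat_lit 434245) (nat_lit 28) (.e (nat_lit 573468) (nat_lit 10) (.e (nat_lit 8490) (nat_lit 180) (.e (nat_lit 1371) (nat_lit 103) .nil))))))) (.g (nat_lit 4) .nil .nil)))) (.nd (nat_lit 6) 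
(.lf (nat_lit 287656) (.g (nat_lit 2883) (.e (nat_lit 294927) (nat_lit 2) (.e (nat_lit 90170) (nat_lit 13) (.e (nat_lit 172095) (nat_lit 9) (.e (nat_lit 426125) (nat_lit 2) (.e (nat_lit 196661) (nat_lit 12) (.e (nat_lit 57711) (nat_lit 176) (.e (nat_lit 1366) (nat_lit 103) .nil))))))) (.g (nat_lit 5) .nil .nil))) 
(.lf (nat_lit 287720) (.g (nat_lit 533) (.e (nat_lit 294927) (nat_lit 2) (.e (nat_lit 90178) (nat_lit 15) (.e (nat_lit 188450) (nat_lit 23) .nil))) .nil)))) (.nd (nat_lit 5) (.nd (nat_lit 6) 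
(.lf (nat_lit 287640) (.g (nat_lit 2179) (.e (nat_lit 294926) (nat_lit 2) (.e (nat_lit 90170) (nat_lit 13) (.e (nat_lit 172106) (nat_lit 10) (.e (nat_lit 434231) (nat_lit 23) (.e (nat_lit 532490) (nat_lit 0) .nil))))) .nil)) 
(.lf (nat_lit 287704) (.g (nat_lit 2431) (.e (nat_lit 294927) (nat_lit 2) (.e (nat_lit 90176) (nat_lit 15) (.e (nat_lit 188447) (nat_lit 22) (.e (nat_lit 196661) (nat_lit 12) (.e (nat_lit 57711) (nat_lit 176) (.e (nat_lit 1366) (nat_lit 103) .nil)))))) (.g (nat_lit 5) .nil .nil)))) (.nd (nat_lit 6) 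
(.lf (nat_lit 287672) (.g (nat_lit 2707) (.e (nat_lit 294927) (nat_lit 2) (.e (nat_lit 90170) (nat_lit 13) (.e (nat_lit 172106) (nat_lit 10) (.e (nat_lit 434231) (nat_lit 23) (.e (nat_lit 532490) (nat_lit 0) (.e (nat_lit 6136) (nat_lit 332) (.e (nat_lit 1365) (nat_lit 103) .nil))))))) (.g (nat_lit 4) .nil .nil))) 
(.lf (nat_lit 287736) (.g (nat_lit 1634) (.e (nat_lit 294928) (nat_lit 2) (.e (nat_lit 90165) (nat_lit 12) (.e (nat_lit 164210) (nat_lit 176) (.e (nat_lit 2787) (nat_lit 179) (.e (nat_lit 294928) (nat_lit 2) (.e (nat_lit 90165) (nat_lit 12) (.e (nat_lit 164210) (nat_lit 176) (.e (nat_lit 2786) (nat_lit 179) .nil)))))))) (.g (nat_lit 5) .nil .nil))))))) 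
(.nd (nat_lit 3) (.nd (nat_lit 4) (.nd (nat_lit 5) (.nd (nat_lit 6) 
(.lf (nat_lit 287620) (.g (nat_lit 1249) (.e (nat_lit 294925) (nat_lit 1) (.e (nat_lit 57681) (nat_lit 155) (.e (nat_lit 122914) (nat_lit 14) (.e (nat_lit 352276) (nat_lit 11) .nil)))) .nil)) 
(.lf (nat_lit 287684) (.g (nat_lit 1839) (.e (nat_lit 294927) (nat_lit 2) (.e (nat_lit 90170) (nat_lit 13) (.e (nat_lit 172113) (nat_lit 10) (.e (nat_lit 434245) (nat_lit 28) (.e (nat_lit 573451) (nat_lit 9) .nil))))) .nil))) (.nd (nat_lit 6) 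
(.lf (nat_lit 287652) (.g (nat_lit 1379) (.e (nat_lit 294926) (nat_lit 2) (.e (nat_lit 90185) (nat_lit 17) (.e (nat_lit 237605) (nat_lit 9) (.e (nat_lit 426130) (nat_lit 3) .nil)))) .nil)) 
(.lf (nat_lit 287716) (.g (nat_lit 542) (.e (nat_lit 294927) (nat_lit 2) (.e (nat_lit 90178) (nat_lit 15) (.e (nat_lit 188447) (nat_lit 22) .nil))) .nil)))) (.nd (nat_lit 5) (.nd (nat_lit 6) 
(.lf (nat_lit 287636) (.g (nat_lit 2538) (.e (nat_lit 294925) (nat_lit 1) (.e (nat_lit 57681) (nat_lit 155) (.e (nat_lit 122919) (nat_lit 15) (.e (nat_lit 360451) (nat_lit 0) (.e (nat_lit 7265) (nat_lit 384) (.e (nat_lit 57402) (nat_lit 11) (.e (nat_lit 327697) (nat_lit 7) .nil))))))) (.g (nat_lit 5) .nil .nil))) 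
(.lf (nat_lit 287700) (.g (nat_lit 1762) (.e (nat_lit 294927) (nat_lit 2) (.e (nat_lit 90170) (nat_lit 13) (.e (nat_lit 172126) (nat_lit 14) (.e (nat_lit 491539) (nat_lit 3) .nil)))) .nil))) (.nd (nat_lit 6) 
(.lf (nat_lit 287668) (.g (nat_lit 2750) (.e (nat_lit 294927) (nat_lit 2) (.e (nat_lit 90170) (nat_lit 13) (.e (nat_lit 172106) (nat_lit 10) (.e (nat_lit 434231) (nat_lit 23) (.e (nat_lit 532486) (nat_lit 0) (.e (nat_lit 6122) (nat_lit 332) (.e (nat_lit 1366) (nat_lit 103) .nil))))))) (.g (nat_lit 4) .nil .nil))) 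
(.lf (nat_lit 287732) (.g (nat_lit 165) (.e (nat_lit 294928) (nat_lit 2) (.e (nat_lit 90130) (nat_lit 9) (.e (nat_lit 2830) (nat_lit 182) .nil))) .nil))))) (.nd (nat_lit 4) (.nd (nat_lit 5) (.nd (nat_lit 6) 
(.lf (nat_lit 287628) (.g (nat_lit 1438) (.e (nat_lit 294925) (nat_lit 1) (.e (nat_lit 57681) (nat_lit 155) (.e (nat_lit 122916) (nat_lit 14) (.e (nat_lit 352273) (nat_lit 11) .nil)))) .nil)) 
(.lf (nat_lit 287692) (.g (nat_lit 2113) (.e (nat_lit 294927) (nat_lit 2) (.e (nat_lit 90170) (nat_lit 13) (.e (nat_lit 172113) (nat_lit 10) (.e (nat_lit 434247) (nat_lit 28) (.e (nat_lit 573457) (nat_lit 9) (.e (nat_lit 365) (nat_lit 31) (.e (nat_lit 417812) (nat_lit 7) .nil))))))) (.g (nat_lit 4) .nil .nil)))) (.nd (nat_lit 6) 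
(.lf (nat_lit 287660) (.g (nat_lit 3649) (.e (nat_lit 294927) (nat_lit 2) (.e (nat_lit 90170) (nat_lit 13) (.e (nat_lit 172097) (nat_lit 9) (.e (nat_lit 426140) (nat_lit 3) (.e (nat_lit 204845) (nat_lit 24) (.e (nat_lit 319535) (nat_lit 17) .nil)))))) (.g (nat_lit 5) .nil .nil))) 
(.lf (nat_lit 287724) (.g (nat_lit 553) (.e (nat_lit 294927) (nat_lit 2) (.e (nat_lit 90185) (nat_lit 17) (.e (nat_lit 237601) (nat_lit 9) .nil))) .nil)))) (.nd (nat_lit 5) (.nd (nat_lit 6) 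
(.lf (nat_lit 287644) (.g (nat_lit 1106) (.e (nat_lit 294926) (nat_lit 2) (.e (nat_lit 90176) (nat_lit 15) (.e (nat_lit 188450) (nat_lit 23) (.e (nat_lit 204821) (nat_lit 17) .nil)))) .nil)) 
(.lf (nat_lit 287708) (.g (nat_lit 1970) (.e (nat_lit 294927) (nat_lit 2) (.e (nat_lit 90176) (nat_lit 15) (.e (nat_lit 188450) (nat_lit 23) (.e (nat_lit 204821) (nat_lit 17) (.e (nat_lit 6092) (nat_lit 332) (.e (nat_lit 1366) (nat_lit 103) .nil)))))) (.g (nat_lit 4) .nil .nil)))) (.nd (nat_lit 6) 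
(.lf (nat_lit 287676) (.g (nat_lit 3065) (.e (nat_lit 294927) (nat_lit 2) (.e (nat_lit 90170) (nat_lit 13) (.e (nat_lit 172106) (nat_lit 10) (.e (nat_lit 434231) (nat_lit 23) (.e (nat_lit 532490) (nat_lit 0) (.e (nat_lit 7936) (nat_lit 332) (.e (nat_lit 1365) (nat_lit 103) .nil))))))) (.g (nat_lit 4) .nil .nil))) 
(.lf (nat_lit 287740) (.g (nat_lit 1433) (.e (nat_lit 294928) (nat_lit 2) (.e (nat_lit 90165) (nat_lit 12) (.e (nat_lit 171776) (nat_lit 194) (.e (nat_lit 131093) (nat_lit 2) (.e (nat_lit 90165) (nat_lit 12) (.e (nat_lit 164210) (nat_lit 176) (.e (nat_lit 2786) (nat_lit 179) .nil))))))) (.g (nat_lit 5) .nil .nil)))))))) 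
(.nd (nat_lit 2) (.nd (nat_lit 3) (.nd (nat_lit 4) (.nd (nat_lit 5) (.nd (nat_lit 6) 
(.lf (nat_lit 287618) (.g (nat_lit 1456) (.e (nat_lit 294925) (nat_lit 1) (.e (nat_lit 57681) (nat_lit 155) (.e (nat_lit 122914) (nat_lit 14) (.e (nat_lit 352272) (nat_lit 10) .nil)))) .nil)) 
(.lf (nat_lit 287682) (.g (nat_lit 2492) (.e (nat_lit 294927) (nat_lit 2) (.e (nat_lit 90170) (nat_lit 13) (.e (nat_lit 172113) (nat_lit 10) (.e (nat_lit 434231) (nat_lit 23) (.e (nat_lit 532490) (nat_lit 0) (.e (nat_lit 6136) (nat_lit 332) (.e (nat_lit 1368) (nat_lit 103) .nil))))))) (.g (nat_lit 4) .nil .nil)))) (.nd (nat_lit 6) 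
(.lf (nat_lit 287650) (.g (nat_lit 1107) (.e (nat_lit 294926) (nat_lit 2) (.e (nat_lit 90185) (nat_lit 17) (.e (nat_lit 237601) (nat_lit 9) (.e (nat_lit 426131) (nat_lit 3) .nil)))) .nil)) 
(.lf (nat_lit 287714) (.g (nat_lit 2138) (.e (nat_lit 294927) (nat_lit 2) (.e (nat_lit 90177) (nat_lit 15) (.e (nat_lit 188452) (nat_lit 23) (.e (nat_lit 204849) (nat_lit 25) (.e (nat_lit 327717) (nat_lit 17) .nil))))) .nil)))) (.nd (nat_lit 5) (.nd (nat_lit 6) 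
(.lf (nat_lit 287634) (.g (nat_lit 2567) (.e (nat_lit 294925) (nat_lit 1) (.e (nat_lit 57681) (nat_lit 155) (.e (nat_lit 122919) (nat_lit 15) (.e (nat_lit 360451) (nat_lit 0) (.e (nat_lit 7247) (nat_lit 383) .nil))))) .nil)) 
(.lf (nat_lit 287698) (.g (nat_lit 2320) (.e (nat_lit 294927) (nat_lit 2) (.e (nat_lit 90170) (nat_lit 13) (.e (nat_lit 172124) (nat_lit 14) (.e (nat_lit 491540) (nat_lit 3) (.e (nat_lit 98352) (nat_lit 25) .nil))))) .nil))) (.nd (nat_lit 6) 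
(.lf (nat_lit 287666) (.g (nat_lit 3601) (.e (nat_lit 294927) (nat_lit 2) (.e (nat_lit 90170) (nat_lit 13) (.e (nat_lit 172106) (nat_lit 10) (.e (nat_lit 434231) (nat_lit 23) (.e (nat_lit 532482) (nat_lit 0) (.e (nat_lit 6192) (nat_lit 332) (.e (nat_lit 1365) (nat_lit 103) .nil))))))) (.g (nat_lit 4) .nil .nil))) 
(.lf (nat_lit 287730) (.g (nat_lit 1880) (.e (nat_lit 294927) (nat_lit 2) (.e (nat_lit 90185) (nat_lit 17) (.e (nat_lit 237605) (nat_lit 9) (.e (nat_lit 426131) (nat_lit 3) (.e (nat_lit 204848) (nat_lit 25) (.e (nat_lit 335616) (nat_lit 17) .nil)))))) (.g (nat_lit 5) .nil .nil)))))) (.nd (nat_lit 4) (.nd (nat_lit 5) (.nd (nat_lit 6) 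
(.lf (nat_lit 287626) (.g (nat_lit 575) (.e (nat_lit 294925) (nat_lit 1) (.e (nat_lit 57681) (nat_lit 155) (.e (nat_lit 122916) (nat_lit 14) .nil))) .nil)) 
(.lf (nat_lit 287690) (.g (nat_lit 1924) (.e (nat_lit 294927) (nat_lit 2) (.e (nat_lit 90170) (nat_lit 13) (.e (nat_lit 172113) (nat_lit 10) (.e (nat_lit 434245) (nat_lit 28) (.e (nat_lit 573474) (nat_lit 12) (.e (nat_lit 57354) (nat_lit 0) (.e (nat_lit 7255) (nat_lit 383) (.e (nat_lit 8210) (nat_lit 8) .nil)))))))) (.g (nat_lit 4) .nil .nil)))) (.nd (nat_lit 6) 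
(.lf (nat_lit 287658) (.g (nat_lit 3551) (.e (nat_lit 294927) (nat_lit 2) (.e (nat_lit 90170) (nat_lit 13) (.e (nat_lit 172097) (nat_lit 9) (.e (nat_lit 426125) (nat_lit 2) (.e (nat_lit 196661) (nat_lit 12) (.e (nat_lit 57711) (nat_lit 176) (.e (nat_lit 1366) (nat_lit 103) .nil))))))) (.g (nat_lit 6) .nil .nil))) 
(.lf (nat_lit 287722) (.g (nat_lit 2858) (.e (nat_lit 294927) (nat_lit 2) (.e (nat_lit 90178) (nat_lit 15) (.e (nat_lit 188452) (nat_lit 23) (.e (nat_lit 204816) (nat_lit 17) .nil)))) .nil)))) (.nd (nat_lit 5) (.nd (nat_lit 6) 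
(.lf (nat_lit 287642) (.g (nat_lit 778) (.e (nat_lit 294926) (nat_lit 2) (.e (nat_lit 90172) (nat_lit 14) (.e (nat_lit 180276) (nat_lit 32) .nil))) .nil)) 
(.lf (nat_lit 287706) (.g (nat_lit 1290) (.e (nat_lit 294927) (nat_lit 2) (.e (nat_lit 90176) (nat_lit 15) (.e (nat_lit 188450) (nat_lit 23) (.e (nat_lit 204816) (nat_lit 17) .nil)))) .nil))) (.nd (nat_lit 6) 
(.lf (nat_lit 287674) (.g (nat_lit 3186) (.e (nat_lit 294927) (nat_lit 2) (.e (nat_lit 90170) (nat_lit 13) (.e (nat_lit 172106) (nat_lit 10) (.e (nat_lit 434231) (nat_lit 23) (.e (nat_lit 532490) (nat_lit 0) (.e (nat_lit 6147) (nat_lit 332) (.e (nat_lit 1365) (nat_lit 103) .nil))))))) (.g (nat_lit 4) .nil .nil))) 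
(.lf (nat_lit 287738) (.g (nat_lit 1143) (.e (nat_lit 294928) (nat_lit 2) (.e (nat_lit 90165) (nat_lit 12) (.e (nat_lit 171776) (nat_lit 191) (.e (nat_lit 65567) (nat_lit 2) (.e (nat_lit 90165) (nat_lit 12) (.e (nat_lit 164210) (nat_lit 176) (.e (nat_lit 2786) (nat_lit 179) .nil))))))) (.g (nat_lit 5) .nil .nil))))))) (.nd (nat_lit 3) (.nd (nat_lit 4) (.nd (nat_lit 5) (.nd (nat_lit 6) 
(.lf (nat_lit 287622) (.g (nat_lit 1917) (.e (nat_lit 294925) (nat_lit 1) (.e (nat_lit 57681) (nat_lit 155) (.e (nat_lit 122914) (nat_lit 14) (.e (nat_lit 352277) (nat_lit 11) (.e (nat_lit 426179) (nat_lit 8) .nil))))) .nil)) 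
(.lf (nat_lit 287686) (.g (nat_lit 1661) (.e (nat_lit 294927) (nat_lit 2) (.e (nat_lit 90170) (nat_lit 13) (.e (nat_lit 172113) (nat_lit 10) (.e (nat_lit 434245) (nat_lit 28) (.e (nat_lit 573468) (nat_lit 10) .nil))))) .nil))) (.nd (nat_lit 6) 
(.lf (nat_lit 287654) (.g (nat_lit 1361) (.e (nat_lit 294926) (nat_lit 2) (.e (nat_lit 90185) (nat_lit 17) (.e (nat_lit 237606) (nat_lit 9) .nil))) .nil)) 
(.lf (nat_lit 287718) (.g (nat_lit 2783) (.e (nat_lit 294927) (nat_lit 2) (.e (nat_lit 90178) (nat_lit 15) (.e (nat_lit 188449) (nat_lit 22) (.e (nat_lit 196626) (nat_lit 9) .nil)))) .nil)))) (.nd (nat_lit 5) (.nd (nat_lit 6) 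
(.lf (nat_lit 287638) (.g (nat_lit 1624) (.e (nat_lit 294925) (nat_lit 1) (.e (nat_lit 57847) (nat_lit 252) (.e (nat_lit 57377) (nat_lit 3) (.e (nat_lit 106240) (nat_lit 11) .nil)))) .nil)) 
(.lf (nat_lit 287702) (.g (nat_lit 3736) (.e (nat_lit 294927) (nat_lit 2) (.e (nat_lit 90170) (nat_lit 13) (.e (nat_lit 172126) (nat_lit 14) (.e (nat_lit 491540) (nat_lit 3) (.e (nat_lit 98353) (nat_lit 25) (.e (nat_lit 417812) (nat_lit 7) .nil)))))) (.g (nat_lit 5) .nil .nil)))) (.nd (nat_lit 6) 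
(.lf (nat_lit 287670) (.g (nat_lit 4187) (.e (nat_lit 294927) (nat_lit 2) (.e (nat_lit 90170) (nat_lit 13) (.e (nat_lit 172106) (nat_lit 10) (.e (nat_lit 434231) (nat_lit 23) (.e (nat_lit 532490) (nat_lit 0) (.e (nat_lit 6092) (nat_lit 332) (.e (nat_lit 1366) (nat_lit 103) .nil))))))) (.g (nat_lit 6) .nil .nil))) 
(.lf (nat_lit 287734) (.g (nat_lit 3545) (.e (nat_lit 294928) (nat_lit 2) (.e (nat_lit 90165) (nat_lit 12) (.e (nat_lit 164208) (nat_lit 176) (.e (nat_lit 2777) (nat_lit 178) (.e (nat_lit 286733) (nat_lit 2) (.e (nat_lit 90165) (nat_lit 12) (.e (nat_lit 164210) (nat_lit 176) (.e (nat_lit 2786) (nat_lit 179) .nil)))))))) (.g (nat_lit 6) .nil .nil)))))) 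
(.nd (nat_lit 4) (.nd (nat_lit 5) (.nd (nat_lit 6) 
(.lf (nat_lit 287630) (.g (nat_lit 1107) (.e (nat_lit 294925) (nat_lit 1) (.e (nat_lit 57681) (nat_lit 155) (.e (nat_lit 122916) (nat_lit 14) (.e (nat_lit 360192) (nat_lit 12) .nil)))) .nil)) 
(.lf (nat_lit 287694) (.g (nat_lit 1815) (.e (nat_lit 294927) (nat_lit 2) (.e (nat_lit 90170) (nat_lit 13) (.e (nat_lit 172113) (nat_lit 10) (.e (nat_lit 434248) (nat_lit 28) (.e (nat_lit 573473) (nat_lit 12) .nil))))) .nil))) (.nd (nat_lit 6) 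
(.lf (nat_lit 287662) (.g (nat_lit 3602) (.e (nat_lit 294927) (nat_lit 2) (.e (nat_lit 90170) (nat_lit 13) (.e (nat_lit 172106) (nat_lit 10) (.e (nat_lit 434231) (nat_lit 23) (.e (nat_lit 532481) (nat_lit 0) .nil))))) .nil)) 
(.lf (nat_lit 287726) (.g (nat_lit 1773) (.e (nat_lit 294927) (nat_lit 2) (.e (nat_lit 90185) (nat_lit 17) (.e (nat_lit 237604) (nat_lit 9) (.e (nat_lit 426131) (nat_lit 3) (.e (nat_lit 204849) (nat_lit 25) .nil))))) .nil)))) (.nd (nat_lit 5) (.nd (nat_lit 6) 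
(.lf (nat_lit 287646) (.g (nat_lit 1176) (.e (nat_lit 294926) (nat_lit 2) (.e (nat_lit 90176) (nat_lit 15) (.e (nat_lit 188450) (nat_lit 23) (.e (nat_lit 204848) (nat_lit 25) .nil)))) .nil)) 
(.lf (nat_lit 287710) (.g (nat_lit 2588) (.e (nat_lit 294927) (nat_lit 2) (.e (nat_lit 90176) (nat_lit 15) (.e (nat_lit 188452) (nat_lit 23) (.e (nat_lit 204848) (nat_lit 25) (.e (nat_lit 327717) (nat_lit 17) .nil))))) .nil))) (.nd (nat_lit 6) 
(.lf (nat_lit 287678) (.g (nat_lit 3003) (.e (nat_lit 294927) (nat_lit 2) (.e (nat_lit 90170) (nat_lit 13) (.e (nat_lit 172106) (nat_lit 10) (.e (nat_lit 434231) (nat_lit 23) (.e (nat_lit 532490) (nat_lit 0) (.e (nat_lit 7936) (nat_lit 332) (.e (nat_lit 1367) (nat_lit 103) .nil))))))) (.g (nat_lit 4) .nil .nil))) 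
(.lf (nat_lit 287742) (.g (nat_lit 1890) (.e (nat_lit 294928) (nat_lit 2) (.e (nat_lit 90170) (nat_lit 13) (.e (nat_lit 172097) (nat_lit 9) (.e (nat_lit 426125) (nat_lit 2) (.e (nat_lit 196661) (nat_lit 12) .nil))))) .nil)))))))) (.nd (nat_lit 1) (.nd (nat_lit 2) (.nd (nat_lit 3) (.nd (nat_lit 4) (.nd (nat_lit 5) (.nd (nat_lit 6) 
(.lf (nat_lit 287617) (.g (nat_lit 576) (.e (nat_lit 294925) (nat_lit 1) (.e (nat_lit 57681) (nat_lit 155) (.e (nat_lit 122910) (nat_lit 12) .nil))) .nil)) 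
(.lf (nat_lit 287681) (.g (nat_lit 1835) (.e (nat_lit 294927) (nat_lit 2) (.e (nat_lit 90170) (nat_lit 13) (.e (nat_lit 172113) (nat_lit 10) (.e (nat_lit 434231) (nat_lit 23) (.e (nat_lit 532482) (nat_lit 0) .nil))))) .nil))) (.nd (nat_lit 6) 
(.lf (nat_lit 287649) (.g (nat_lit 2495) (.e (nat_lit 294926) (nat_lit 2) (.e (nat_lit 90185) (nat_lit 17) (.e (nat_lit 237600) (nat_lit 9) (.e (nat_lit 426125) (nat_lit 2) (.e (nat_lit 196661) (nat_lit 12) (.e (nat_lit 57712) (nat_lit 176) (.e (nat_lit 1370) (nat_lit 103) .nil))))))) (.g (nat_lit 4) .nil .nil))) 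
(.lf (nat_lit 287713) (.g (nat_lit 1682) (.e (nat_lit 294927) (nat_lit 2) (.e (nat_lit 90177) (nat_lit 15) (.e (nat_lit 188452) (nat_lit 23) (.e (nat_lit 204848) (nat_lit 25) .nil)))) .nil)))) (.nd (nat_lit 5) (.nd (nat_lit 6) 
(.lf (nat_lit 287633) (.g (nat_lit 2499) (.e (nat_lit 294925) (nat_lit 1) (.e (nat_lit 57681) (nat_lit 155) (.e (nat_lit 122919) (nat_lit 15) (.e (nat_lit 360451) (nat_lit 0) (.e (nat_lit 6940) (nat_lit 375) .nil))))) .nil)) 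
(.lf (nat_lit 287697) (.g (nat_lit 3282) (.e (nat_lit 294927) (nat_lit 2) (.e (nat_lit 90170) (nat_lit 13) (.e (nat_lit 172115) (nat_lit 10) (.e (nat_lit 434231) (nat_lit 23) (.e (nat_lit 532490) (nat_lit 0) (.e (nat_lit 6114) (nat_lit 332) (.e (nat_lit 1370) (nat_lit 103) .nil))))))) (.g (nat_lit 5) .nil .nil)))) (.nd (nat_lit 6) 
(.lf (nat_lit 287665) (.g (nat_lit 3136) (.e (nat_lit 294927) (nat_lit 2) (.e (nat_lit 90170) (nat_lit 13) (.e (nat_lit 172106) (nat_lit 10) (.e (nat_lit 434231) (nat_lit 23) (.e (nat_lit 532482) (nat_lit 0) (.e (nat_lit 6091) (nat_lit 332) (.e (nat_lit 1365) (nat_lit 103) .nil))))))) (.g (nat_lit 4) .nil .nil))) 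
(.lf (nat_lit 287729) (.g (nat_lit 1819) (.e (nat_lit 294927) (nat_lit 2) (.e (nat_lit 90185) (nat_lit 17) (.e (nat_lit 237605) (nat_lit 9) (.e (nat_lit 426131) (nat_lit 3) (.e (nat_lit 204847) (nat_lit 25) .nil))))) .nil))))) (.nd (nat_lit 4) (.nd (nat_lit 5) (.nd (nat_lit 6) 
(.lf (nat_lit 287625) (.g (nat_lit 919) (.e (nat_lit 294925) (nat_lit 1) (.e (nat_lit 57681) (nat_lit 155) (.e (nat_lit 122915) (nat_lit 14) (.e (nat_lit 352274) (nat_lit 11) .nil)))) .nil)) 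
(.lf (nat_lit 287689) (.g (nat_lit 2449) (.e (nat_lit 294927) (nat_lit 2) (.e (nat_lit 90170) (nat_lit 13) (.e (nat_lit 172113) (nat_lit 10) (.e (nat_lit 434245) (nat_lit 28) (.e (nat_lit 573468) (nat_lit 10) (.e (nat_lit 16128) (nat_lit 180) (.e (nat_lit 1365) (nat_lit 103) .nil))))))) (.g (nat_lit 5) .nil .nil)))) (.nd (nat_lit 6) 
(.lf (nat_lit 287657) (.g (nat_lit 2211) (.e (nat_lit 294927) (nat_lit 2) (.e (nat_lit 90170) (nat_lit 13) (.e (nat_lit 172097) (nat_lit 9) (.e (nat_lit 426125) (nat_lit 2) (.e (nat_lit 196661) (nat_lit 12) (.e (nat_lit 57711) (nat_lit 176) (.e (nat_lit 1364) (nat_lit 103) .nil))))))) (.g (nat_lit 4) .nil .nil))) 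
(.lf (nat_lit 287721) (.g (nat_lit 1139) (.e (nat_lit 294927) (nat_lit 2) (.e (nat_lit 90178) (nat_lit 15) (.e (nat_lit 188451) (nat_lit 23) (.e (nat_lit 204849) (nat_lit 25) .nil)))) .nil)))) (.nd (nat_lit 5) (.nd (nat_lit 6) 
(.lf (nat_lit 287641) (.g (nat_lit 2637) (.e (nat_lit 294926) (nat_lit 2) (.e (nat_lit 90170) (nat_lit 13) (.e (nat_lit 172106) (nat_lit 10) (.e (nat_lit 434231) (nat_lit 23) (.e (nat_lit 532526) (nat_lit 8) .nil))))) .nil)) 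
(.lf (nat_lit 287705) (.g (nat_lit 786) (.e (nat_lit 294927) (nat_lit 2) (.e (nat_lit 90176) (nat_lit 15) (.e (nat_lit 188449) (nat_lit 22) .nil))) .nil))) (.nd (nat_lit 6) 
(.lf (nat_lit 287673) (.g (nat_lit 3835) (.e (nat_lit 294927) (nat_lit 2) (.e (nat_lit 90170) (nat_lit 13) (.e (nat_lit 172106) (nat_lit 10) (.e (nat_lit 434231) (nat_lit 23) (.e (nat_lit 532490) (nat_lit 0) (.e (nat_lit 6136) (nat_lit 332) (.e (nat_lit 1368) (nat_lit 103) .nil))))))) (.g (nat_lit 5) .nil .nil))) 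
(.lf (nat_lit 287737) (.g (nat_lit 1193) (.e (nat_lit 294928) (nat_lit 2) (.e (nat_lit 90165) (nat_lit 12) (.e (nat_lit 164210) (nat_lit 176) (.e (nat_lit 2788) (nat_lit 179) (.e (nat_lit 294928) (nat_lit 2) (.e (nat_lit 90165) (nat_lit 12) (.e (nat_lit 164210) (nat_lit 176) (.e (nat_lit 2786) (nat_lit 179) .nil)))))))) (.g (nat_lit 4) .nil .nil))))))) 
(.nd (nat_lit 3) (.nd (nat_lit 4) (.nd (nat_lit 5) (.nd (nat_lit 6) 
(.lf (nat_lit 287621) (.g (nat_lit 1890) (.e (nat_lit 294925) (nat_lit 1) (.e (nat_lit 57681) (nat_lit 155) (.e (nat_lit 122914) (nat_lit 14) (.e (nat_lit 352277) (nat_lit 11) (.e (nat_lit 426172) (nat_lit 7) .nil))))) .nil)) 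
(.lf (nat_lit 287685) (.g (nat_lit 2626) (.e (nat_lit 294927) (nat_lit 2) (.e (nat_lit 90170) (nat_lit 13) (.e (nat_lit 172113) (nat_lit 10) (.e (nat_lit 434245) (nat_lit 28) (.e (nat_lit 573451) (nat_lit 9) (.e (nat_lit 365) (nat_lit 31) (.e (nat_lit 417812) (nat_lit 7) .nil))))))) (.g (nat_lit 5) .nil .nil)))) (.nd (nat_lit 6) 
(.lf (nat_lit 287653) (.g (nat_lit 1325) (.e (nat_lit 294926) (nat_lit 2) (.e (nat_lit 90185) (nat_lit 17) (.e (nat_lit 237605) (nat_lit 9) (.e (nat_lit 426131) (nat_lit 3) .nil)))) .nil)) 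
(.lf (nat_lit 287717) (.g (nat_lit 540) (.e (nat_lit 294927) (nat_lit 2) (.e (nat_lit 90178) (nat_lit 15) (.e (nat_lit 188448) (nat_lit 22) .nil))) .nil)))) (.nd (nat_lit 5) (.nd (nat_lit 6) 
(.lf (nat_lit 287637) (.g (nat_lit 1680) (.e (nat_lit 294925) (nat_lit 1) (.e (nat_lit 57681) (nat_lit 155) (.e (nat_lit 122919) (nat_lit 15) (.e (nat_lit 360487) (nat_lit 19) .nil)))) .nil)) 
(.lf (nat_lit 287701) (.g (nat_lit 2759) (.e (nat_lit 294927) (nat_lit 2) (.e (nat_lit 90170) (nat_lit 13) (.e (nat_lit 172126) (nat_lit 14) (.e (nat_lit 491540) (nat_lit 3) (.e (nat_lit 98352) (nat_lit 25) (.e (nat_lit 417812) (nat_lit 7) .nil)))))) (.g (nat_lit 4) .nil .nil)))) (.nd (nat_lit 6) 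
(.lf (nat_lit 287669) (.g (nat_lit 3040) (.e (nat_lit 294927) (nat_lit 2) (.e (nat_lit 90170) (nat_lit 13) (.e (nat_lit 172106) (nat_lit 10) (.e (nat_lit 434231) (nat_lit 23) (.e (nat_lit 532490) (nat_lit 0) (.e (nat_lit 6092) (nat_lit 332) (.e (nat_lit 1364) (nat_lit 103) .nil))))))) (.g (nat_lit 4) .nil .nil))) 
(.lf (nat_lit 287733) (.g (nat_lit 264) (.e (nat_lit 294928) (nat_lit 2) (.e (nat_lit 90133) (nat_lit 9) (.e (nat_lit 2397) (nat_lit 157) .nil))) .nil))))) (.nd (nat_lit 4) (.nd (nat_lit 5) (.nd (nat_lit 6) 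
(.lf (nat_lit 287629) (.g (nat_lit 1615) (.e (nat_lit 294925) (nat_lit 1) (.e (nat_lit 57681) (nat_lit 155) (.e (nat_lit 122916) (nat_lit 14) (.e (nat_lit 352278) (nat_lit 11) .nil)))) .nil)) 
(.lf (nat_lit 287693) (.g (nat_lit 2507) (.e (nat_lit 294927) (nat_lit 2) (.e (nat_lit 90170) (nat_lit 13) (.e (nat_lit 172113) (nat_lit 10) (.e (nat_lit 434248) (nat_lit 28) (.e (nat_lit 573452) (nat_lit 9) (.e (nat_lit 365) (nat_lit 31) (.e (nat_lit 417812) (nat_lit 7) .nil))))))) (.g (nat_lit 4) .nil .nil)))) (.nd (nat_lit 6) 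
(.lf (nat_lit 287661) (.g (nat_lit 1660) (.e (nat_lit 294927) (nat_lit 2) (.e (nat_lit 90170) (nat_lit 13) (.e (nat_lit 172106) (nat_lit 10) (.e (nat_lit 434231) (nat_lit 23) .nil)))) .nil)) 
(.lf (nat_lit 287725) (.g (nat_lit 903) (.e (nat_lit 294927) (nat_lit 2) (.e (nat_lit 90185) (nat_lit 17) (.e (nat_lit 237604) (nat_lit 9) .nil))) .nil)))) (.nd (nat_lit 5) (.nd (nat_lit 6) 
(.lf (nat_lit 287645) (.g (nat_lit 1565) (.e (nat_lit 294926) (nat_lit 2) (.e (nat_lit 90176) (nat_lit 15) (.e (nat_lit 188450) (nat_lit 23) (.e (nat_lit 204846) (nat_lit 24) .nil)))) .nil)) 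
(.lf (nat_lit 287709) (.g (nat_lit 1588) (.e (nat_lit 294927) (nat_lit 2) (.e (nat_lit 90176) (nat_lit 15) (.e (nat_lit 188450) (nat_lit 23) (.e (nat_lit 204846) (nat_lit 24) .nil)))) .nil))) (.nd (nat_lit 6) 
(.lf (nat_lit 287677) (.g (nat_lit 2672) (.e (nat_lit 294927) (nat_lit 2) (.e (nat_lit 90170) (nat_lit 13) (.e (nat_lit 172106) (nat_lit 10) (.e (nat_lit 434231) (nat_lit 23) (.e (nat_lit 532490) (nat_lit 0) (.e (nat_lit 7936) (nat_lit 332) (.e (nat_lit 1366) (nat_lit 103) .nil))))))) (.g (nat_lit 4) .nil .nil))) 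
(.lf (nat_lit 287741) (.g (nat_lit 384) (.e (nat_lit 294928) (nat_lit 2) (.e (nat_lit 90169) (nat_lit 13) (.e (nat_lit 172103) (nat_lit 9) .nil))) .nil))))))) (.nd (nat_lit 2) (.nd (nat_lit 3) (.nd (nat_lit 4) (.nd (nat_lit 5) (.nd (nat_lit 6) 
(.lf (nat_lit 287619) (.g (nat_lit 1342) (.e (nat_lit 294925) (nat_lit 1) (.e (nat_lit 57681) (nat_lit 155) (.e (nat_lit 122914) (nat_lit 14) (.e (nat_lit 352275) (nat_lit 11) .nil)))) .nil)) 
(.lf (nat_lit 287683) (.g (nat_lit 1821) (.e (nat_lit 294927) (nat_lit 2) (.e (nat_lit 90170) (nat_lit 13) (.e (nat_lit 172113) (nat_lit 10) (.e (nat_lit 434231) (nat_lit 23) (.e (nat_lit 532522) (nat_lit 7) .nil))))) .nil))) (.nd (nat_lit 6) 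
(.lf (nat_lit 287651) (.g (nat_lit 919) (.e (nat_lit 294926) (nat_lit 2) (.e (nat_lit 90185) (nat_lit 17) (.e (nat_lit 237604) (nat_lit 9) .nil))) .nil)) 
(.lf (nat_lit 287715) (.g (nat_lit 632) (.e (nat_lit 294927) (nat_lit 2) (.e (nat_lit 90178) (nat_lit 15) (.e (nat_lit 188441) (nat_lit 20) .nil))) .nil)))) (.nd (nat_lit 5) (.nd (nat_lit 6) 
(.lf (nat_lit 287635) (.g (nat_lit 1792) (.e (nat_lit 294925) (nat_lit 1) (.e (nat_lit 57681) (nat_lit 155) (.e (nat_lit 122919) (nat_lit 15) (.e (nat_lit 360451) (nat_lit 0) (.e (nat_lit 7261) (nat_lit 384) (.e (nat_lit 57402) (nat_lit 11) (.e (nat_lit 327697) (nat_lit 7) .nil))))))) (.g (nat_lit 4) .nil .nil))) 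
(.lf (nat_lit 287699) (.g (nat_lit 2797) (.e (nat_lit 294927) (nat_lit 2) (.e (nat_lit 90170) (nat_lit 13) (.e (nat_lit 172124) (nat_lit 14) (.e (nat_lit 491540) (nat_lit 3) (.e (nat_lit 98353) (nat_lit 25) (.e (nat_lit 417812) (nat_lit 7) .nil)))))) (.g (nat_lit 4) .nil .nil)))) (.nd (nat_lit 6) 
(.lf (nat_lit 287667) (.g (nat_lit 3364) (.e (nat_lit 294927) (nat_lit 2) (.e (nat_lit 90170) (nat_lit 13) (.e (nat_lit 172106) (nat_lit 10) (.e (nat_lit 434231) (nat_lit 23) (.e (nat_lit 532483) (nat_lit 0) .nil))))) .nil)) 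
(.lf (nat_lit 287731) (.g (nat_lit 1080) (.e (nat_lit 294927) (nat_lit 2) (.e (nat_lit 90185) (nat_lit 17) (.e (nat_lit 237610) (nat_lit 9) (.e (nat_lit 426129) (nat_lit 3) .nil)))) .nil))))) (.nd (nat_lit 4) (.nd (nat_lit 5) (.nd (nat_lit 6) 
(.lf (nat_lit 287627) (.g (nat_lit 1551) (.e (nat_lit 294925) (nat_lit 1) (.e (nat_lit 57681) (nat_lit 155) (.e (nat_lit 122916) (nat_lit 14) (.e (nat_lit 352272) (nat_lit 10) .nil)))) .nil)) 
(.lf (nat_lit 287691) (.g (nat_lit 2398) (.e (nat_lit 294927) (nat_lit 2) (.e (nat_lit 90170) (nat_lit 13) (.e (nat_lit 172113) (nat_lit 10) (.e (nat_lit 434247) (nat_lit 28) (.e (nat_lit 573456) (nat_lit 9) (.e (nat_lit 365) (nat_lit 31) (.e (nat_lit 417812) (nat_lit 7) .nil))))))) (.g (nat_lit 4) .nil .nil)))) (.nd (nat_lit 6) 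
(.lf (nat_lit 287659) (.g (nat_lit 1961) (.e (nat_lit 294927) (nat_lit 2) (.e (nat_lit 90170) (nat_lit 13) (.e (nat_lit 172097) (nat_lit 9) (.e (nat_lit 426140) (nat_lit 3) (.e (nat_lit 204821) (nat_lit 17) .nil))))) .nil)) 
(.lf (nat_lit 287723) (.g (nat_lit 2876) (.e (nat_lit 294927) (nat_lit 2) (.e (nat_lit 90178) (nat_lit 15) (.e (nat_lit 188452) (nat_lit 23) (.e (nat_lit 204849) (nat_lit 25) (.e (nat_lit 327717) (nat_lit 17) .nil))))) .nil)))) (.nd (nat_lit 5) (.nd (nat_lit 6) 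
(.lf (nat_lit 287643) (.g (nat_lit 735) (.e (nat_lit 294926) (nat_lit 2) (.e (nat_lit 90176) (nat_lit 15) (.e (nat_lit 188449) (nat_lit 22) .nil))) .nil)) 
(.lf (nat_lit 287707) (.g (nat_lit 2309) (.e (nat_lit 294927) (nat_lit 2) (.e (nat_lit 90176) (nat_lit 15) (.e (nat_lit 188450) (nat_lit 23) (.e (nat_lit 204819) (nat_lit 17) (.e (nat_lit 6113) (nat_lit 332) (.e (nat_lit 7936) (nat_lit 103) .nil)))))) (.g (nat_lit 4) .nil .nil)))) (.nd (nat_lit 6) 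
(.lf (nat_lit 287675) (.g (nat_lit 3652) (.e (nat_lit 294927) (nat_lit 2) (.e (nat_lit 90170) (nat_lit 13) (.e (nat_lit 172106) (nat_lit 10) (.e (nat_lit 434231) (nat_lit 23) (.e (nat_lit 532490) (nat_lit 0) (.e (nat_lit 6149) (nat_lit 332) (.e (nat_lit 1365) (nat_lit 103) .nil))))))) (.g (nat_lit 5) .nil .nil))) 
(.lf (nat_lit 287739) (.g (nat_lit 1293) (.e (nat_lit 294928) (nat_lit 2) (.e (nat_lit 90165) (nat_lit 12) (.e (nat_lit 171776) (nat_lit 191) (.e (nat_lit 65568) (nat_lit 2) (.e (nat_lit 90165) (nat_lit 12) (.e (nat_lit 164210) (nat_lit 176) (.e (nat_lit 2786) (nat_lit 179) .nil))))))) (.g (nat_lit 4) .nil .nil))))))) (.nd (nat_lit 3) (.nd (nat_lit 4) (.nd (nat_lit 5) (.nd (nat_lit 6) 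
(.lf (nat_lit 287623) (.g (nat_lit 1883) (.e (nat_lit 294925) (nat_lit 1) (.e (nat_lit 57681) (nat_lit 155) (.e (nat_lit 122914) (nat_lit 14) (.e (nat_lit 352277) (nat_lit 11) (.e (nat_lit 426181) (nat_lit 8) .nil))))) .nil)) 
(.lf (nat_lit 287687) (.g (nat_lit 1955) (.e (nat_lit 294927) (nat_lit 2) (.e (nat_lit 90170) (nat_lit 13) (.e (nat_lit 172113) (nat_lit 10) (.e (nat_lit 434245) (nat_lit 28) (.e (nat_lit 573468) (nat_lit 10) (.e (nat_lit 8490) (nat_lit 180) (.e (nat_lit 1364) (nat_lit 103) .nil))))))) (.g (nat_lit 4) .nil .nil)))) (.nd (nat_lit 6) 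
(.lf (nat_lit 287655) (.g (nat_lit 860) (.e (nat_lit 294927) (nat_lit 2) (.e (nat_lit 90170) (nat_lit 13) (.e (nat_lit 172079) (nat_lit 7) .nil))) .nil)) 
(.lf (nat_lit 287719) (.g (nat_lit 1502) (.e (nat_lit 294927) (nat_lit 2) (.e (nat_lit 90178) (nat_lit 15) (.e (nat_lit 188449) (nat_lit 22) (.e (nat_lit 196661) (nat_lit 12) .nil)))) .nil)))) (.nd (nat_lit 5) (.nd (nat_lit 6) 
(.lf (nat_lit 287639) (.g (nat_lit 495) (.e (nat_lit 294925) (nat_lit 1) (.e (nat_lit 57931) (nat_lit 282) (.e (nat_lit 163905) (nat_lit 12) .nil))) .nil)) 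
(.lf (nat_lit 287703) (.g (nat_lit 719) (.e (nat_lit 294927) (nat_lit 2) (.e (nat_lit 90174) (nat_lit 14) (.e (nat_lit 180277) (nat_lit 32) .nil))) .nil))) (.nd (nat_lit 6) 
(.lf (nat_lit 287671) (.g (nat_lit 3862) (.e (nat_lit 294927) (nat_lit 2) (.e (nat_lit 90170) (nat_lit 13) (.e (nat_lit 172106) (nat_lit 10) (.e (nat_lit 434231) (nat_lit 23) (.e (nat_lit 532490) (nat_lit 0) (.e (nat_lit 6092) (nat_lit 332) (.e (nat_lit 1367) (nat_lit 103) .nil))))))) (.g (nat_lit 5) .nil .nil))) 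
(.lf (nat_lit 287735) (.g (nat_lit 161) (.e (nat_lit 294928) (nat_lit 2) (.e (nat_lit 90165) (nat_lit 12) (.e (nat_lit 164210) (nat_lit 176) .nil))) .nil))))) (.nd (nat_lit 4) (.nd (nat_lit 5) (.nd (nat_lit 6) 
(.lf (nat_lit 287631) (.g (nat_lit 1067) (.e (nat_lit 294925) (nat_lit 1) (.e (nat_lit 57681) (nat_lit 155) (.e (nat_lit 122919) (nat_lit 15) (.e (nat_lit 360451) (nat_lit 0) .nil)))) .nil)) 
(.lf (nat_lit 287695) (.g (nat_lit 1844) (.e (nat_lit 294927) (nat_lit 2) (.e (nat_lit 90170) (nat_lit 13) (.e (nat_lit 172113) (nat_lit 10) (.e (nat_lit 434248) (nat_lit 28) (.e (nat_lit 573475) (nat_lit 12) .nil))))) .nil))) (.nd (nat_lit 6) 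
(.lf (nat_lit 287663) (.g (nat_lit 3877) (.e (nat_lit 294927) (nat_lit 2) (.e (nat_lit 90170) (nat_lit 13) (.e (nat_lit 172106) (nat_lit 10) (.e (nat_lit 434231) (nat_lit 23) (.e (nat_lit 532481) (nat_lit 0) (.e (nat_lit 6157) (nat_lit 332) (.e (nat_lit 1365) (nat_lit 103) .nil))))))) (.g (nat_lit 4) .nil .nil))) 
(.lf (nat_lit 287727) (.g (nat_lit 433) (.e (nat_lit 294927) (nat_lit 2) (.e (nat_lit 90185) (nat_lit 17) (.e (nat_lit 237605) (nat_lit 9) .nil))) .nil)))) (.nd (nat_lit 5) (.nd (nat_lit 6) 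
(.lf (nat_lit 287647) (.g (nat_lit 2371) (.e (nat_lit 294926) (nat_lit 2) (.e (nat_lit 90176) (nat_lit 15) (.e (nat_lit 188452) (nat_lit 23) (.e (nat_lit 204846) (nat_lit 24) .nil)))) .nil)) 
(.lf (nat_lit 287711) (.g (nat_lit 2683) (.e (nat_lit 294927) (nat_lit 2) (.e (nat_lit 90176) (nat_lit 15) (.e (nat_lit 188452) (nat_lit 23) (.e (nat_lit 204849) (nat_lit 25) (.e (nat_lit 327717) (nat_lit 17) .nil))))) .nil))) (.nd (nat_lit 6) 
(.lf (nat_lit 287679) (.g (nat_lit 3084) (.e (nat_lit 294927) (nat_lit 2) (.e (nat_lit 90170) (nat_lit 13) (.e (nat_lit 172106) (nat_lit 10) (.e (nat_lit 434231) (nat_lit 23) (.e (nat_lit 532525) (nat_lit 8) .nil))))) .nil)) 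
(.lf (nat_lit 287743) (.g (nat_lit 1168) (.e (nat_lit 294928) (nat_lit 2) (.e (nat_lit 90170) (nat_lit 13) (.e (nat_lit 172097) (nat_lit 9) (.e (nat_lit 426140) (nat_lit 3) .nil)))) .nil)))))))))

noncomputable def tv3643 : DT := (.nd (nat_lit 0) (.nd (nat_lit 1) (.nd (nat_lit 2) (.nd (nat_lit 3) (.nd (nat_lit 4) (.nd (nat_lit 5) (.nd (nat_lit 6) 
(.lf (nat_lit 287744) (.g (nat_lit 2158) (.e (nat_lit 294928) (nat_lit 2) (.e (nat_lit 90170) (nat_lit 13) (.e (nat_lit 172106) (nat_lit 10) (.e (nat_lit 434227) (nat_lit 20) .nil)))) .nil)) 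
(.lf (nat_lit 287808) (.g (nat_lit 2107) (.e (nat_lit 294928) (nat_lit 2) (.e (nat_lit 90176) (nat_lit 15) (.e (nat_lit 188450) (nat_lit 23) (.e (nat_lit 204816) (nat_lit 17) (.e (nat_lit 6079) (nat_lit 332) (.e (nat_lit 1365) (nat_lit 103) .nil)))))) (.g (nat_lit 4) .nil .nil)))) (.nd (nat_lit 6) 
(.lf (nat_lit 287776) (.g (nat_lit 2651) (.e (nat_lit 294928) (nat_lit 2) (.e (nat_lit 90170) (nat_lit 13) (.e (nat_lit 172106) (nat_lit 10) (.e (nat_lit 434231) (nat_lit 23) (.e (nat_lit 532500) (nat_lit 1) (.e (nat_lit 65280) (nat_lit 222) (.e (nat_lit 8210) (nat_lit 8) .nil))))))) (.g (nat_lit 4) .nil .nil))) 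
(.lf (nat_lit 287840) (.g (nat_lit 4155) (.e (nat_lit 294928) (nat_lit 2) (.e (nat_lit 90178) (nat_lit 15) (.e (nat_lit 188449) (nat_lit 22) (.e (nat_lit 196677) (nat_lit 16) .nil)))) .nil)))) (.nd (nat_lit 5) (.nd (nat_lit 6) 
(.lf (nat_lit 287760) (.g (nat_lit 3901) (.e (nat_lit 294928) (nat_lit 2) (.e (nat_lit 90170) (nat_lit 13) (.e (nat_lit 172106) (nat_lit 10) (.e (nat_lit 434231) (nat_lit 23) (.e (nat_lit 532486) (nat_lit 0) (.e (nat_lit 6113) (nat_lit 332) (.e (nat_lit 7936) (nat_lit 103) .nil))))))) (.g (nat_lit 6) .nil .nil))) 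
(.lf (nat_lit 287824) (.g (nat_lit 1332) (.e (nat_lit 294928) (nat_lit 2) (.e (nat_lit 90176) (nat_lit 15) (.e (nat_lit 188450) (nat_lit 23) (.e (nat_lit 204821) (nat_lit 17) (.e (nat_lit 7936) (nat_lit 332) .nil))))) .nil))) (.nd (nat_lit 6) 
(.lf (nat_lit 287792) (.g (nat_lit 3339) (.e (nat_lit 294928) (nat_lit 2) (.e (nat_lit 90170) (nat_lit 13) (.e (nat_lit 172126) (nat_lit 14) (.e (nat_lit 491540) (nat_lit 3) (.e (nat_lit 98353) (nat_lit 25) (.e (nat_lit 417812) (nat_lit 7) .nil)))))) (.g (nat_lit 4) .nil .nil))) 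
(.lf (nat_lit 287856) (.g (nat_lit 1846) (.e (nat_lit 294929) (nat_lit 3) (.e (nat_lit 98350) (nat_lit 24) (.e (nat_lit 409645) (nat_lit 18) (.e (nat_lit 303119) (nat_lit 3) .nil)))) .nil))))) (.nd (nat_lit 4) (.nd (nat_lit 5) (.nd (nat_lit 6) 
(.lf (nat_lit 287752) (.g (nat_lit 3672) (.e (nat_lit 294928) (nat_lit 2) (.e (nat_lit 90170) (nat_lit 13) (.e (nat_lit 172106) (nat_lit 10) (.e (nat_lit 434231) (nat_lit 23) (.e (nat_lit 532482) (nat_lit 0) (.e (nat_lit 6091) (nat_lit 332) (.e (nat_lit 1365) (nat_lit 103) .nil))))))) (.g (nat_lit 5) .nil .nil))) 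
(.lf (nat_lit 287816) (.g (nat_lit 2029) (.e (nat_lit 294928) (nat_lit 2) (.e (nat_lit 90176) (nat_lit 15) (.e (nat_lit 188450) (nat_lit 23) (.e (nat_lit 204819) (nat_lit 17) (.e (nat_lit 6138) (nat_lit 332) (.e (nat_lit 1365) (nat_lit 103) .nil)))))) (.g (nat_lit 4) .nil .nil)))) (.nd (nat_lit 6) 
(.lf (nat_lit 287784) (.g (nat_lit 2721) (.e (nat_lit 294928) (nat_lit 2) (.e (nat_lit 90170) (nat_lit 13) (.e (nat_lit 172106) (nat_lit 10) (.e (nat_lit 434244) (nat_lit 28) (.e (nat_lit 573468) (nat_lit 10) (.e (nat_lit 8490) (nat_lit 180) (.e (nat_lit 1371) (nat_lit 103) .nil))))))) (.g (nat_lit 4) .nil .nil))) 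
(.lf (nat_lit 287848) (.g (nat_lit 1081) (.e (nat_lit 294928) (nat_lit 2) (.e (nat_lit 90178) (nat_lit 15) (.e (nat_lit 188456) (nat_lit 25) (.e (nat_lit 245781) (nat_lit 9) .nil)))) .nil)))) (.nd (nat_lit 5) (.nd (nat_lit 6) 
(.lf (nat_lit 287768) (.g (nat_lit 3095) (.e (nat_lit 294928) (nat_lit 2) (.e (nat_lit 90170) (nat_lit 13) (.e (nat_lit 172106) (nat_lit 10) (.e (nat_lit 434231) (nat_lit 23) (.e (nat_lit 532490) (nat_lit 0) (.e (nat_lit 6126) (nat_lit 332) (.e (nat_lit 1365) (nat_lit 103) .nil))))))) (.g (nat_lit 5) .nil .nil))) 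
(.lf (nat_lit 287832) (.g (nat_lit 2100) (.e (nat_lit 294928) (nat_lit 2) (.e (nat_lit 90177) (nat_lit 15) (.e (nat_lit 188452) (nat_lit 23) (.e (nat_lit 204848) (nat_lit 25) (.e (nat_lit 327717) (nat_lit 17) .nil))))) .nil))) (.nd (nat_lit 6) 
(.lf (nat_lit 287800) (.g (nat_lit 2127) (.e (nat_lit 294928) (nat_lit 2) (.e (nat_lit 90176) (nat_lit 15) (.e (nat_lit 188447) (nat_lit 22) (.e (nat_lit 196661) (nat_lit 12) (.e (nat_lit 57712) (nat_lit 176) (.e (nat_lit 7936) (nat_lit 103) .nil)))))) (.g (nat_lit 4) .nil .nil))) 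
(.lf (nat_lit 287864) (.g (nat_lit 1392) (.e (nat_lit 294930) (nat_lit 3) (.e (nat_lit 106240) (nat_lit 16) (.e (nat_lit 401459) (nat_lit 13) (.e (nat_lit 483333) (nat_lit 0) (.e (nat_lit 6977) (nat_lit 377) (.e (nat_lit 2790) (nat_lit 179) .nil)))))) (.g (nat_lit 4) .nil .nil))))))) (.nd (nat_lit 3) (.nd (nat_lit 4) (.nd (nat_lit 5) (.nd (nat_lit 6) 
(.lf (nat_lit 287748) (.g (nat_lit 4413) (.e (nat_lit 294928) (nat_lit 2) (.e (nat_lit 90170) (nat_lit 13) (.e (nat_lit 172106) (nat_lit 10) (.e (nat_lit 434231) (nat_lit 23) (.e (nat_lit 532481) (nat_lit 0) (.e (nat_lit 6157) (nat_lit 332) (.e (nat_lit 1365) (nat_lit 103) .nil))))))) (.g (nat_lit 5) .nil .nil))) 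
(.lf (nat_lit 287812) (.g (nat_lit 1679) (.e (nat_lit 294928) (nat_lit 2) (.e (nat_lit 90176) (nat_lit 15) (.e (nat_lit 188450) (nat_lit 23) (.e (nat_lit 204819) (nat_lit 17) (.e (nat_lit 6093) (nat_lit 332) .nil))))) .nil))) (.nd (nat_lit 6) 
(.lf (nat_lit 287780) (.g (nat_lit 1682) (.e (nat_lit 294928) (nat_lit 2) (.e (nat_lit 90170) (nat_lit 13) (.e (nat_lit 172106) (nat_lit 10) (.e (nat_lit 434244) (nat_lit 28) .nil)))) .nil)) 
(.lf (nat_lit 287844) (.g (nat_lit 2783) (.e (nat_lit 294928) (nat_lit 2) (.e (nat_lit 90178) (nat_lit 15) (.e (nat_lit 188452) (nat_lit 23) (.e (nat_lit 204816) (nat_lit 17) .nil)))) .nil)))) (.nd (nat_lit 5) (.nd (nat_lit 6) 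
(.lf (nat_lit 287764) (.g (nat_lit 3567) (.e (nat_lit 294928) (nat_lit 2) (.e (nat_lit 90170) (nat_lit 13) (.e (nat_lit 172106) (nat_lit 10) (.e (nat_lit 434231) (nat_lit 23) (.e (nat_lit 532490) (nat_lit 0) (.e (nat_lit 6092) (nat_lit 332) (.e (nat_lit 1366) (nat_lit 103) .nil))))))) (.g (nat_lit 5) .nil .nil))) 
(.lf (nat_lit 287828) (.g (nat_lit 1845) (.e (nat_lit 294928) (nat_lit 2) (.e (nat_lit 90176) (nat_lit 15) (.e (nat_lit 188452) (nat_lit 23) (.e (nat_lit 204845) (nat_lit 24) .nil)))) .nil))) (.nd (nat_lit 6) 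
(.lf (nat_lit 287796) (.g (nat_lit 1708) (.e (nat_lit 294928) (nat_lit 2) (.e (nat_lit 90176) (nat_lit 15) (.e (nat_lit 188447) (nat_lit 22) (.e (nat_lit 196626) (nat_lit 9) .nil)))) .nil)) 
(.lf (nat_lit 287860) (.g (nat_lit 1923) (.e (nat_lit 294929) (nat_lit 3) (.e (nat_lit 98365) (nat_lit 26) (.e (nat_lit 426298) (nat_lit 11) (.e (nat_lit 458789) (nat_lit 23) (.e (nat_lit 532526) (nat_lit 8) .nil))))) .nil))))) (.nd (nat_lit 4) (.nd (nat_lit 5) (.nd (nat_lit 6) 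
(.lf (nat_lit 287756) (.g (nat_lit 3332) (.e (nat_lit 294928) (nat_lit 2) (.e (nat_lit 90170) (nat_lit 13) (.e (nat_lit 172106) (nat_lit 10) (.e (nat_lit 434231) (nat_lit 23) (.e (nat_lit 532483) (nat_lit 0) (.e (nat_lit 7936) (nat_lit 332) (.e (nat_lit 1367) (nat_lit 103) .nil))))))) (.g (nat_lit 4) .nil .nil))) 
(.lf (nat_lit 287820) (.g (nat_lit 2256) (.e (nat_lit 294928) (nat_lit 2) (.e (nat_lit 90176) (nat_lit 15) (.e (nat_lit 188450) (nat_lit 23) (.e (nat_lit 204821) (nat_lit 17) (.e (nat_lit 6092) (nat_lit 332) (.e (nat_lit 1369) (nat_lit 103) .nil)))))) (.g (nat_lit 4) .nil .nil)))) (.nd (nat_lit 6) 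
(.lf (nat_lit 287788) (.g (nat_lit 2234) (.e (nat_lit 294928) (nat_lit 2) (.e (nat_lit 90170) (nat_lit 13) (.e (nat_lit 172115) (nat_lit 10) (.e (nat_lit 434231) (nat_lit 23) (.e (nat_lit 532522) (nat_lit 7) .nil))))) .nil)) 
(.lf (nat_lit 287852) (.g (nat_lit 1923) (.e (nat_lit 294928) (nat_lit 2) (.e (nat_lit 90185) (nat_lit 17) (.e (nat_lit 237605) (nat_lit 9) (.e (nat_lit 426131) (nat_lit 3) (.e (nat_lit 204847) (nat_lit 25) .nil))))) .nil)))) (.nd (nat_lit 5) (.nd (nat_lit 6) 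
(.lf (nat_lit 287772) (.g (nat_lit 2304) (.e (nat_lit 294928) (nat_lit 2) (.e (nat_lit 90170) (nat_lit 13) (.e (nat_lit 172106) (nat_lit 10) (.e (nat_lit 434231) (nat_lit 23) (.e (nat_lit 532490) (nat_lit 0) (.e (nat_lit 7936) (nat_lit 332) (.e (nat_lit 1364) (nat_lit 103) .nil))))))) (.g (nat_lit 4) .nil .nil))) 
(.lf (nat_lit 287836) (.g (nat_lit 463) (.e (nat_lit 294928) (nat_lit 2) (.e (nat_lit 90178) (nat_lit 15) (.e (nat_lit 188448) (nat_lit 22) .nil))) .nil))) (.nd (nat_lit 6) 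
(.lf (nat_lit 287804) (.g (nat_lit 661) (.e (nat_lit 294928) (nat_lit 2) (.e (nat_lit 90176) (nat_lit 15) (.e (nat_lit 188449) (nat_lit 22) .nil))) .nil)) 
(.lf (nat_lit 287868) (.g (nat_lit 1316) (.e (nat_lit 294930) (nat_lit 3) (.e (nat_lit 98349) (nat_lit 24) (.e (nat_lit 409641) (nat_lit 17) (.e (nat_lit 294931) (nat_lit 3) .nil)))) .nil))))))) (.nd (nat_lit 2) (.nd (nat_lit 3) (.nd (nat_lit 4) (.nd (nat_lit 5) (.nd (nat_lit 6) 
(.lf (nat_lit 287746) (.g (nat_lit 3295) (.e (nat_lit 294928) (nat_lit 2) (.e (nat_lit 90170) (nat_lit 13) (.e (nat_lit 172106) (nat_lit 10) (.e (nat_lit 434231) (nat_lit 23) (.e (nat_lit 532481) (nat_lit 0) .nil))))) .nil)) 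
(.lf (nat_lit 287810) (.g (nat_lit 1568) (.e (nat_lit 294928) (nat_lit 2) (.e (nat_lit 90176) (nat_lit 15) (.e (nat_lit 188450) (nat_lit 23) (.e (nat_lit 204816) (nat_lit 17) (.e (nat_lit 6152) (nat_lit 332) .nil))))) .nil))) (.nd (nat_lit 6) 
(.lf (nat_lit 287778) (.g (nat_lit 2942) (.e (nat_lit 294928) (nat_lit 2) (.e (nat_lit 90170) (nat_lit 13) (.e (nat_lit 172106) (nat_lit 10) (.e (nat_lit 434231) (nat_lit 23) (.e (nat_lit 540416) (nat_lit 18) .nil))))) .nil)) 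
(.lf (nat_lit 287842) (.g (nat_lit 1339) (.e (nat_lit 294928) (nat_lit 2) (.e (nat_lit 90178) (nat_lit 15) (.e (nat_lit 188450) (nat_lit 23) (.e (nat_lit 204821) (nat_lit 17) .nil)))) .nil)))) (.nd (nat_lit 5) (.nd (nat_lit 6) 
(.lf (nat_lit 287762) (.g (nat_lit 3686) (.e (nat_lit 294928) (nat_lit 2) (.e (nat_lit 90170) (nat_lit 13) (.e (nat_lit 172106) (nat_lit 10) (.e (nat_lit 434231) (nat_lit 23) (.e (nat_lit 532490) (nat_lit 0) (.e (nat_lit 6092) (nat_lit 332) (.e (nat_lit 1364) (nat_lit 103) .nil))))))) (.g (nat_lit 5) .nil .nil))) 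
(.lf (nat_lit 287826) (.g (nat_lit 2171) (.e (nat_lit 294928) (nat_lit 2) (.e (nat_lit 90176) (nat_lit 15) (.e (nat_lit 188450) (nat_lit 23) (.e (nat_lit 204846) (nat_lit 24) (.e (nat_lit 327424) (nat_lit 17) .nil))))) .nil))) (.nd (nat_lit 6) 
(.lf (nat_lit 287794) (.g (nat_lit 1459) (.e (nat_lit 294928) (nat_lit 2) (.e (nat_lit 90172) (nat_lit 14) (.e (nat_lit 180278) (nat_lit 32) (.e (nat_lit 1074) (nat_lit 81) .nil)))) .nil)) 
(.lf (nat_lit 287858) (.g (nat_lit 2612) (.e (nat_lit 294929) (nat_lit 3) (.e (nat_lit 98359) (nat_lit 26) (.e (nat_lit 426211) (nat_lit 9) (.e (nat_lit 426140) (nat_lit 3) (.e (nat_lit 204821) (nat_lit 17) .nil))))) .nil))))) (.nd (nat_lit 4) (.nd (nat_lit 5) (.nd (nat_lit 6) 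
(.lf (nat_lit 287754) (.g (nat_lit 3096) (.e (nat_lit 294928) (nat_lit 2) (.e (nat_lit 90170) (nat_lit 13) (.e (nat_lit 172106) (nat_lit 10) (.e (nat_lit 434231) (nat_lit 23) (.e (nat_lit 532483) (nat_lit 0) .nil))))) .nil)) 
(.lf (nat_lit 287818) (.g (nat_lit 2369) (.e (nat_lit 294928) (nat_lit 2) (.e (nat_lit 90176) (nat_lit 15) (.e (nat_lit 188450) (nat_lit 23) (.e (nat_lit 204821) (nat_lit 17) (.e (nat_lit 6092) (nat_lit 332) (.e (nat_lit 1366) (nat_lit 103) .nil)))))) (.g (nat_lit 5) .nil .nil)))) (.nd (nat_lit 6) 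
(.lf (nat_lit 287786) (.g (nat_lit 2753) (.e (nat_lit 294928) (nat_lit 2) (.e (nat_lit 90170) (nat_lit 13) (.e (nat_lit 172113) (nat_lit 10) (.e (nat_lit 434245) (nat_lit 28) (.e (nat_lit 573474) (nat_lit 12) (.e (nat_lit 57347) (nat_lit 0) (.e (nat_lit 7247) (nat_lit 383) (.e (nat_lit 8210) (nat_lit 8) .nil)))))))) (.g (nat_lit 4) .nil .nil))) 
(.lf (nat_lit 287850) (.g (nat_lit 873) (.e (nat_lit 294928) (nat_lit 2) (.e (nat_lit 90185) (nat_lit 17) (.e (nat_lit 237604) (nat_lit 9) .nil))) .nil)))) (.nd (nat_lit 5) (.nd (nat_lit 6) 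
(.lf (nat_lit 287770) (.g (nat_lit 2114) (.e (nat_lit 294928) (nat_lit 2) (.e (nat_lit 90170) (nat_lit 13) (.e (nat_lit 172106) (nat_lit 10) (.e (nat_lit 434231) (nat_lit 23) (.e (nat_lit 532490) (nat_lit 0) (.e (nat_lit 6136) (nat_lit 332) (.e (nat_lit 7936) (nat_lit 103) .nil))))))) (.g (nat_lit 4) .nil .nil))) 
(.lf (nat_lit 287834) (.g (nat_lit 631) (.e (nat_lit 294928) (nat_lit 2) (.e (nat_lit 90178) (nat_lit 15) (.e (nat_lit 188442) (nat_lit 20) .nil))) .nil))) (.nd (nat_lit 6) 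
(.lf (nat_lit 287802) (.g (nat_lit 2077) (.e (nat_lit 294928) (nat_lit 2) (.e (nat_lit 90176) (nat_lit 15) (.e (nat_lit 188447) (nat_lit 22) (.e (nat_lit 196661) (nat_lit 12) (.e (nat_lit 57715) (nat_lit 176) (.e (nat_lit 1365) (nat_lit 103) .nil)))))) (.g (nat_lit 4) .nil .nil))) 
(.lf (nat_lit 287866) (.g (nat_lit 1888) (.e (nat_lit 294930) (nat_lit 3) (.e (nat_lit 106240) (nat_lit 16) (.e (nat_lit 401459) (nat_lit 13) (.e (nat_lit 483363) (nat_lit 18) (.e (nat_lit 57679) (nat_lit 153) (.e (nat_lit 8306) (nat_lit 59) .nil)))))) (.g (nat_lit 5) .nil .nil))))))) (.nd (nat_lit 3) (.nd (nat_lit 4) (.nd (nat_lit 5) (.nd (nat_lit 6) 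
(.lf (nat_lit 287750) (.g (nat_lit 3139) (.e (nat_lit 294928) (nat_lit 2) (.e (nat_lit 90170) (nat_lit 13) (.e (nat_lit 172106) (nat_lit 10) (.e (nat_lit 434231) (nat_lit 23) (.e (nat_lit 532482) (nat_lit 0) (.e (nat_lit 6079) (nat_lit 332) (.e (nat_lit 1365) (nat_lit 103) .nil))))))) (.g (nat_lit 4) .nil .nil))) 
(.lf (nat_lit 287814) (.g (nat_lit 1708) (.e (nat_lit 294928) (nat_lit 2) (.e (nat_lit 90176) (nat_lit 15) (.e (nat_lit 188450) (nat_lit 23) (.e (nat_lit 204819) (nat_lit 17) (.e (nat_lit 6097) (nat_lit 332) .nil))))) .nil))) (.nd (nat_lit 6) 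
(.lf (nat_lit 287782) (.g (nat_lit 2762) (.e (nat_lit 294928) (nat_lit 2) (.e (nat_lit 90170) (nat_lit 13) (.e (nat_lit 172106) (nat_lit 10) (.e (nat_lit 434244) (nat_lit 28) (.e (nat_lit 573451) (nat_lit 9) (.e (nat_lit 365) (nat_lit 31) (.e (nat_lit 417812) (nat_lit 7) .nil))))))) (.g (nat_lit 4) .nil .nil))) 
(.lf (nat_lit 287846) (.g (nat_lit 1830) (.e (nat_lit 294928) (nat_lit 2) (.e (nat_lit 90178) (nat_lit 15) (.e (nat_lit 188452) (nat_lit 23) (.e (nat_lit 204845) (nat_lit 24) .nil)))) .nil)))) (.nd (nat_lit 5) (.nd (nat_lit 6) 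
(.lf (nat_lit 287766) (.g (nat_lit 3237) (.e (nat_lit 294928) (nat_lit 2) (.e (nat_lit 90170) (nat_lit 13) (.e (nat_lit 172106) (nat_lit 10) (.e (nat_lit 434231) (nat_lit 23) (.e (nat_lit 532490) (nat_lit 0) (.e (nat_lit 6092) (nat_lit 332) (.e (nat_lit 1371) (nat_lit 103) .nil))))))) (.g (nat_lit 5) .nil .nil))) 
(.lf (nat_lit 287830) (.g (nat_lit 1067) (.e (nat_lit 294928) (nat_lit 2) (.e (nat_lit 90176) (nat_lit 15) (.e (nat_lit 188458) (nat_lit 25) (.e (nat_lit 245784) (nat_lit 9) .nil)))) .nil))) (.nd (nat_lit 6) 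
(.lf (nat_lit 287798) (.g (nat_lit 2166) (.e (nat_lit 294928) (nat_lit 2) (.e (nat_lit 90176) (nat_lit 15) (.e (nat_lit 188447) (nat_lit 22) (.e (nat_lit 196630) (nat_lit 9) (.e (nat_lit 1393) (nat_lit 106) .nil))))) .nil)) 
(.lf (nat_lit 287862) (.g (nat_lit 2477) (.e (nat_lit 294929) (nat_lit 3) (.e (nat_lit 98370) (nat_lit 28) (.e (nat_lit 442427) (nat_lit 23) (.e (nat_lit 204821) (nat_lit 17) (.e (nat_lit 6114) (nat_lit 332) (.e (nat_lit 1370) (nat_lit 103) .nil)))))) (.g (nat_lit 5) .nil .nil)))))) (.nd (nat_lit 4) (.nd (nat_lit 5) (.nd (nat_lit 6) 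
(.lf (nat_lit 287758) (.g (nat_lit 2587) (.e (nat_lit 294928) (nat_lit 2) (.e (nat_lit 90170) (nat_lit 13) (.e (nat_lit 172106) (nat_lit 10) (.e (nat_lit 434231) (nat_lit 23) (.e (nat_lit 532486) (nat_lit 0) (.e (nat_lit 6094) (nat_lit 332) (.e (nat_lit 1364) (nat_lit 103) .nil))))))) (.g (nat_lit 4) .nil .nil))) 
(.lf (nat_lit 287822) (.g (nat_lit 2208) (.e (nat_lit 294928) (nat_lit 2) (.e (nat_lit 90176) (nat_lit 15) (.e (nat_lit 188450) (nat_lit 23) (.e (nat_lit 204821) (nat_lit 17) (.e (nat_lit 6114) (nat_lit 332) (.e (nat_lit 7936) (nat_lit 103) .nil)))))) (.g (nat_lit 5) .nil .nil)))) (.nd (nat_lit 6) 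
(.lf (nat_lit 287790) (.g (nat_lit 811) (.e (nat_lit 294928) (nat_lit 2) (.e (nat_lit 90170) (nat_lit 13) (.e (nat_lit 172126) (nat_lit 14) .nil))) .nil)) 
(.lf (nat_lit 287854) (.g (nat_lit 698) (.e (nat_lit 294929) (nat_lit 3) (.e (nat_lit 98319) (nat_lit 17) (.e (nat_lit 7591) (nat_lit 407) (.e (nat_lit 73747) (nat_lit 3) .nil)))) .nil)))) (.nd (nat_lit 5) (.nd (nat_lit 6) 
(.lf (nat_lit 287774) (.g (nat_lit 3218) (.e (nat_lit 294928) (nat_lit 2) (.e (nat_lit 90170) (nat_lit 13) (.e (nat_lit 172106) (nat_lit 10) (.e (nat_lit 434231) (nat_lit 23) (.e (nat_lit 532490) (nat_lit 0) (.e (nat_lit 7936) (nat_lit 332) (.e (nat_lit 1369) (nat_lit 103) .nil))))))) (.g (nat_lit 5) .nil .nil))) 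
(.lf (nat_lit 287838) (.g (nat_lit 2775) (.e (nat_lit 294928) (nat_lit 2) (.e (nat_lit 90178) (nat_lit 15) (.e (nat_lit 188449) (nat_lit 22) (.e (nat_lit 196626) (nat_lit 9) .nil)))) .nil))) (.nd (nat_lit 6) 
(.lf (nat_lit 287806) (.g (nat_lit 1388) (.e (nat_lit 294928) (nat_lit 2) (.e (nat_lit 90176) (nat_lit 15) (.e (nat_lit 188450) (nat_lit 23) (.e (nat_lit 212736) (nat_lit 1) .nil)))) .nil)) 
(.lf (nat_lit 287870) (.g (nat_lit 1519) (.e (nat_lit 294930) (nat_lit 3) (.e (nat_lit 98350) (nat_lit 24) (.e (nat_lit 409617) (nat_lit 10) (.e (nat_lit 5353) (nat_lit 298) .nil)))) .nil)))))))) (.nd (nat_lit 1) (.nd (nat_lit 2) (.nd (nat_lit 3) (.nd (nat_lit 4) (.nd (nat_lit 5) (.nd (nat_lit 6) 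
(.lf (nat_lit 287745) (.g (nat_lit 1386) (.e (nat_lit 294928) (nat_lit 2) (.e (nat_lit 90170) (nat_lit 13) (.e (nat_lit 172106) (nat_lit 10) (.e (nat_lit 434231) (nat_lit 23) .nil)))) .nil)) 
(.lf (nat_lit 287809) (.g (nat_lit 1570) (.e (nat_lit 294928) (nat_lit 2) (.e (nat_lit 90176) (nat_lit 15) (.e (nat_lit 188450) (nat_lit 23) (.e (nat_lit 204816) (nat_lit 17) (.e (nat_lit 6084) (nat_lit 332) .nil))))) .nil))) (.nd (nat_lit 6) 
(.lf (nat_lit 287777) (.g (nat_lit 2637) (.e (nat_lit 294928) (nat_lit 2) (.e (nat_lit 90170) (nat_lit 13) (.e (nat_lit 172106) (nat_lit 10) (.e (nat_lit 434231) (nat_lit 23) (.e (nat_lit 532524) (nat_lit 8) .nil))))) .nil)) 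
(.lf (nat_lit 287841) (.g (nat_lit 484) (.e (nat_lit 294928) (nat_lit 2) (.e (nat_lit 90178) (nat_lit 15) (.e (nat_lit 188450) (nat_lit 23) .nil))) .nil)))) (.nd (nat_lit 5) (.nd (nat_lit 6) 
(.lf (nat_lit 287761) (.g (nat_lit 2076) (.e (nat_lit 294928) (nat_lit 2) (.e (nat_lit 90170) (nat_lit 13) (.e (nat_lit 172106) (nat_lit 10) (.e (nat_lit 434231) (nat_lit 23) (.e (nat_lit 532490) (nat_lit 0) .nil))))) .nil)) 
(.lf (nat_lit 287825) (.g (nat_lit 1686) (.e (nat_lit 294928) (nat_lit 2) (.e (nat_lit 90176) (nat_lit 15) (.e (nat_lit 188450) (nat_lit 23) (.e (nat_lit 204821) (nat_lit 17) (.e (nat_lit 7936) (nat_lit 332) (.e (nat_lit 1365) (nat_lit 103) .nil)))))) (.g (nat_lit 4) .nil .nil)))) (.nd (nat_lit 6) 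
(.lf (nat_lit 287793) (.g (nat_lit 770) (.e (nat_lit 294928) (nat_lit 2) (.e (nat_lit 90172) (nat_lit 14) (.e (nat_lit 180278) (nat_lit 32) .nil))) .nil)) 
(.lf (nat_lit 287857) (.g (nat_lit 1792) (.e (nat_lit 294929) (nat_lit 3) (.e (nat_lit 98350) (nat_lit 24) (.e (nat_lit 409646) (nat_lit 18) (.e (nat_lit 303119) (nat_lit 3) .nil)))) .nil))))) (.nd (nat_lit 4) (.nd (nat_lit 5) (.nd (nat_lit 6) 
(.lf (nat_lit 287753) (.g (nat_lit 3240) (.e (nat_lit 294928) (nat_lit 2) (.e (nat_lit 90170) (nat_lit 13) (.e (nat_lit 172106) (nat_lit 10) (.e (nat_lit 434231) (nat_lit 23) (.e (nat_lit 532482) (nat_lit 0) (.e (nat_lit 6152) (nat_lit 332) (.e (nat_lit 1371) (nat_lit 103) .nil))))))) (.g (nat_lit 4) .nil .nil))) 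
(.lf (nat_lit 287817) (.g (nat_lit 1050) (.e (nat_lit 294928) (nat_lit 2) (.e (nat_lit 90176) (nat_lit 15) (.e (nat_lit 188450) (nat_lit 23) (.e (nat_lit 204821) (nat_lit 17) .nil)))) .nil))) (.nd (nat_lit 6) 
(.lf (nat_lit 287785) (.g (nat_lit 1373) (.e (nat_lit 294928) (nat_lit 2) (.e (nat_lit 90170) (nat_lit 13) (.e (nat_lit 172113) (nat_lit 10) (.e (nat_lit 434245) (nat_lit 28) .nil)))) .nil)) 
(.lf (nat_lit 287849) (.g (nat_lit 794) (.e (nat_lit 294928) (nat_lit 2) (.e (nat_lit 90185) (nat_lit 17) (.e (nat_lit 237601) (nat_lit 9) .nil))) .nil)))) (.nd (nat_lit 5) (.nd (nat_lit 6) 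
(.lf (nat_lit 287769) (.g (nat_lit 3185) (.e (nat_lit 294928) (nat_lit 2) (.e (nat_lit 90170) (nat_lit 13) (.e (nat_lit 172106) (nat_lit 10) (.e (nat_lit 434231) (nat_lit 23) (.e (nat_lit 532490) (nat_lit 0) (.e (nat_lit 6136) (nat_lit 332) (.e (nat_lit 1365) (nat_lit 103) .nil))))))) (.g (nat_lit 5) .nil .nil))) 
(.lf (nat_lit 287833) (.g (nat_lit 634) (.e (nat_lit 294928) (nat_lit 2) (.e (nat_lit 90178) (nat_lit 15) (.e (nat_lit 188441) (nat_lit 20) .nil))) .nil))) (.nd (nat_lit 6) 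
(.lf (nat_lit 287801) (.g (nat_lit 1509) (.e (nat_lit 294928) (nat_lit 2) (.e (nat_lit 90176) (nat_lit 15) (.e (nat_lit 188447) (nat_lit 22) (.e (nat_lit 196661) (nat_lit 12) (.e (nat_lit 57714) (nat_lit 176) .nil))))) .nil)) 
(.lf (nat_lit 287865) (.g (nat_lit 1441) (.e (nat_lit 294930) (nat_lit 3) (.e (nat_lit 106240) (nat_lit 16) (.e (nat_lit 401459) (nat_lit 13) (.e (nat_lit 483333) (nat_lit 0) (.e (nat_lit 6977) (nat_lit 377) (.e (nat_lit 2791) (nat_lit 179) .nil)))))) (.g (nat_lit 5) .nil .nil))))))) (.nd (nat_lit 3) (.nd (nat_lit 4) (.nd (nat_lit 5) (.nd (nat_lit 6) 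
(.lf (nat_lit 287749) (.g (nat_lit 4548) (.e (nat_lit 294928) (nat_lit 2) (.e (nat_lit 90170) (nat_lit 13) (.e (nat_lit 172106) (nat_lit 10) (.e (nat_lit 434231) (nat_lit 23) (.e (nat_lit 532481) (nat_lit 0) (.e (nat_lit 6192) (nat_lit 332) (.e (nat_lit 1365) (nat_lit 103) .nil))))))) (.g (nat_lit 5) .nil .nil))) 
(.lf (nat_lit 287813) (.g (nat_lit 2242) (.e (nat_lit 294928) (nat_lit 2) (.e (nat_lit 90176) (nat_lit 15) (.e (nat_lit 188450) (nat_lit 23) (.e (nat_lit 204819) (nat_lit 17) (.e (nat_lit 6093) (nat_lit 332) (.e (nat_lit 1371) (nat_lit 103) .nil)))))) (.g (nat_lit 4) .nil .nil)))) (.nd (nat_lit 6) 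
(.lf (nat_lit 287781) (.g (nat_lit 2128) (.e (nat_lit 294928) (nat_lit 2) (.e (nat_lit 90170) (nat_lit 13) (.e (nat_lit 172106) (nat_lit 10) (.e (nat_lit 434244) (nat_lit 28) (.e (nat_lit 573451) (nat_lit 9) .nil))))) .nil)) 
(.lf (nat_lit 287845) (.g (nat_lit 1571) (.e (nat_lit 294928) (nat_lit 2) (.e (nat_lit 90178) (nat_lit 15) (.e (nat_lit 188452) (nat_lit 23) (.e (nat_lit 204821) (nat_lit 17) .nil)))) .nil)))) (.nd (nat_lit 5) (.nd (nat_lit 6) 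
(.lf (nat_lit 287765) (.g (nat_lit 3125) (.e (nat_lit 294928) (nat_lit 2) (.e (nat_lit 90170) (nat_lit 13) (.e (nat_lit 172106) (nat_lit 10) (.e (nat_lit 434231) (nat_lit 23) (.e (nat_lit 532490) (nat_lit 0) (.e (nat_lit 6092) (nat_lit 332) (.e (nat_lit 1369) (nat_lit 103) .nil))))))) (.g (nat_lit 5) .nil .nil))) 
(.lf (nat_lit 287829) (.g (nat_lit 1000) (.e (nat_lit 294928) (nat_lit 2) (.e (nat_lit 90176) (nat_lit 15) (.e (nat_lit 188456) (nat_lit 25) (.e (nat_lit 245784) (nat_lit 9) .nil)))) .nil))) (.nd (nat_lit 6) 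
(.lf (nat_lit 287797) (.g (nat_lit 1553) (.e (nat_lit 294928) (nat_lit 2) (.e (nat_lit 90176) (nat_lit 15) (.e (nat_lit 188447) (nat_lit 22) (.e (nat_lit 196628) (nat_lit 9) .nil)))) .nil)) 
(.lf (nat_lit 287861) (.g (nat_lit 466) (.e (nat_lit 294929) (nat_lit 3) (.e (nat_lit 98369) (nat_lit 28) (.e (nat_lit 442422) (nat_lit 22) .nil))) .nil))))) (.nd (nat_lit 4) (.nd (nat_lit 5) (.nd (nat_lit 6) 
(.lf (nat_lit 287757) (.g (nat_lit 3723) (.e (nat_lit 294928) (nat_lit 2) (.e (nat_lit 90170) (nat_lit 13) (.e (nat_lit 172106) (nat_lit 10) (.e (nat_lit 434231) (nat_lit 23) (.e (nat_lit 532483) (nat_lit 0) (.e (nat_lit 7936) (nat_lit 332) (.e (nat_lit 1368) (nat_lit 103) .nil))))))) (.g (nat_lit 4) .nil .nil))) 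
(.lf (nat_lit 287821) (.g (nat_lit 2232) (.e (nat_lit 294928) (nat_lit 2) (.e (nat_lit 90176) (nat_lit 15) (.e (nat_lit 188450) (nat_lit 23) (.e (nat_lit 204821) (nat_lit 17) (.e (nat_lit 6092) (nat_lit 332) (.e (nat_lit 1371) (nat_lit 103) .nil)))))) (.g (nat_lit 4) .nil .nil)))) (.nd (nat_lit 6) 
(.lf (nat_lit 287789) (.g (nat_lit 2926) (.e (nat_lit 294928) (nat_lit 2) (.e (nat_lit 90170) (nat_lit 13) (.e (nat_lit 172124) (nat_lit 14) (.e (nat_lit 491537) (nat_lit 2) (.e (nat_lit 90133) (nat_lit 9) .nil))))) .nil)) 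
(.lf (nat_lit 287853) (.g (nat_lit 1138) (.e (nat_lit 294928) (nat_lit 2) (.e (nat_lit 90185) (nat_lit 17) (.e (nat_lit 237610) (nat_lit 9) .nil))) .nil)))) (.nd (nat_lit 5) (.nd (nat_lit 6) 
(.lf (nat_lit 287773) (.g (nat_lit 3601) (.e (nat_lit 294928) (nat_lit 2) (.e (nat_lit 90170) (nat_lit 13) (.e (nat_lit 172106) (nat_lit 10) (.e (nat_lit 434231) (nat_lit 23) (.e (nat_lit 532490) (nat_lit 0) (.e (nat_lit 7936) (nat_lit 332) (.e (nat_lit 1365) (nat_lit 103) .nil))))))) (.g (nat_lit 5) .nil .nil))) 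
(.lf (nat_lit 287837) (.g (nat_lit 659) (.e (nat_lit 294928) (nat_lit 2) (.e (nat_lit 90178) (nat_lit 15) (.e (nat_lit 188449) (nat_lit 22) .nil))) .nil))) (.nd (nat_lit 6) 
(.lf (nat_lit 287805) (.g (nat_lit 1900) (.e (nat_lit 294928) (nat_lit 2) (.e (nat_lit 90176) (nat_lit 15) (.e (nat_lit 188449) (nat_lit 22) (.e (nat_lit 196661) (nat_lit 12) (.e (nat_lit 57711) (nat_lit 176) .nil))))) .nil)) 
(.lf (nat_lit 287869) (.g (nat_lit 1823) (.e (nat_lit 294930) (nat_lit 3) (.e (nat_lit 98349) (nat_lit 24) (.e (nat_lit 409644) (nat_lit 18) (.e (nat_lit 303119) (nat_lit 3) (.e (nat_lit 204849) (nat_lit 25) .nil))))) .nil))))))) (.nd (nat_lit 2) (.nd (nat_lit 3) (.nd (nat_lit 4) (.nd (nat_lit 5) (.nd (nat_lit 6) 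
(.lf (nat_lit 287747) (.g (nat_lit 3585) (.e (nat_lit 294928) (nat_lit 2) (.e (nat_lit 90170) (nat_lit 13) (.e (nat_lit 172106) (nat_lit 10) (.e (nat_lit 434231) (nat_lit 23) (.e (nat_lit 532481) (nat_lit 0) (.e (nat_lit 6079) (nat_lit 332) (.e (nat_lit 1369) (nat_lit 103) .nil))))))) (.g (nat_lit 4) .nil .nil))) 
(.lf (nat_lit 287811) (.g (nat_lit 1175) (.e (nat_lit 294928) (nat_lit 2) (.e (nat_lit 90176) (nat_lit 15) (.e (nat_lit 188450) (nat_lit 23) (.e (nat_lit 204819) (nat_lit 17) .nil)))) .nil))) (.nd (nat_lit 6) 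
(.lf (nat_lit 287779) (.g (nat_lit 2371) (.e (nat_lit 294928) (nat_lit 2) (.e (nat_lit 90170) (nat_lit 13) (.e (nat_lit 172106) (nat_lit 10) (.e (nat_lit 434238) (nat_lit 25) .nil)))) .nil)) 
(.lf (nat_lit 287843) (.g (nat_lit 1518) (.e (nat_lit 294928) (nat_lit 2) (.e (nat_lit 90178) (nat_lit 15) (.e (nat_lit 188450) (nat_lit 23) (.e (nat_lit 204848) (nat_lit 25) .nil)))) .nil)))) (.nd (nat_lit 5) (.nd (nat_lit 6) 
(.lf (nat_lit 287763) (.g (nat_lit 3083) (.e (nat_lit 294928) (nat_lit 2) (.e (nat_lit 90170) (nat_lit 13) (.e (nat_lit 172106) (nat_lit 10) (.e (nat_lit 434231) (nat_lit 23) (.e (nat_lit 532490) (nat_lit 0) (.e (nat_lit 6092) (nat_lit 332) (.e (nat_lit 1365) (nat_lit 103) .nil))))))) (.g (nat_lit 5) .nil .nil))) 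
(.lf (nat_lit 287827) (.g (nat_lit 3840) (.e (nat_lit 294928) (nat_lit 2) (.e (nat_lit 90176) (nat_lit 15) (.e (nat_lit 188452) (nat_lit 23) (.e (nat_lit 204816) (nat_lit 17) (.e (nat_lit 6084) (nat_lit 332) .nil))))) .nil))) (.nd (nat_lit 6) 
(.lf (nat_lit 287795) (.g (nat_lit 1655) (.e (nat_lit 294928) (nat_lit 2) (.e (nat_lit 90174) (nat_lit 14) (.e (nat_lit 180277) (nat_lit 32) (.e (nat_lit 1253) (nat_lit 92) (.e (nat_lit 98353) (nat_lit 25) .nil))))) .nil)) 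
(.lf (nat_lit 287859) (.g (nat_lit 1819) (.e (nat_lit 294929) (nat_lit 3) (.e (nat_lit 98365) (nat_lit 26) (.e (nat_lit 426298) (nat_lit 11) (.e (nat_lit 458789) (nat_lit 23) (.e (nat_lit 532525) (nat_lit 8) .nil))))) .nil))))) (.nd (nat_lit 4) (.nd (nat_lit 5) (.nd (nat_lit 6) 
(.lf (nat_lit 287755) (.g (nat_lit 3152) (.e (nat_lit 294928) (nat_lit 2) (.e (nat_lit 90170) (nat_lit 13) (.e (nat_lit 172106) (nat_lit 10) (.e (nat_lit 434231) (nat_lit 23) (.e (nat_lit 532483) (nat_lit 0) (.e (nat_lit 7936) (nat_lit 332) (.e (nat_lit 1365) (nat_lit 103) .nil))))))) (.g (nat_lit 4) .nil .nil))) 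
(.lf (nat_lit 287819) (.g (nat_lit 3002) (.e (nat_lit 294928) (nat_lit 2) (.e (nat_lit 90176) (nat_lit 15) (.e (nat_lit 188450) (nat_lit 23) (.e (nat_lit 204821) (nat_lit 17) (.e (nat_lit 6092) (nat_lit 332) (.e (nat_lit 1367) (nat_lit 103) .nil)))))) (.g (nat_lit 0) .nil .nil)))) (.nd (nat_lit 6) 
(.lf (nat_lit 287787) (.g (nat_lit 2909) (.e (nat_lit 294928) (nat_lit 2) (.e (nat_lit 90170) (nat_lit 13) (.e (nat_lit 172113) (nat_lit 10) (.e (nat_lit 434248) (nat_lit 28) (.e (nat_lit 573475) (nat_lit 12) (.e (nat_lit 57347) (nat_lit 0) (.e (nat_lit 7247) (nat_lit 383) (.e (nat_lit 8210) (nat_lit 8) .nil)))))))) (.g (nat_lit 4) .nil .nil))) 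
(.lf (nat_lit 287851) (.g (nat_lit 565) (.e (nat_lit 294928) (nat_lit 2) (.e (nat_lit 90185) (nat_lit 17) (.e (nat_lit 237605) (nat_lit 9) .nil))) .nil)))) (.nd (nat_lit 5) (.nd (nat_lit 6) 
(.lf (nat_lit 287771) (.g (nat_lit 3722) (.e (nat_lit 294928) (nat_lit 2) (.e (nat_lit 90170) (nat_lit 13) (.e (nat_lit 172106) (nat_lit 10) (.e (nat_lit 434231) (nat_lit 23) (.e (nat_lit 532490) (nat_lit 0) (.e (nat_lit 6147) (nat_lit 332) (.e (nat_lit 1365) (nat_lit 103) .nil))))))) (.g (nat_lit 5) .nil .nil))) 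
(.lf (nat_lit 287835) (.g (nat_lit 1224) (.e (nat_lit 294928) (nat_lit 2) (.e (nat_lit 90178) (nat_lit 15) (.e (nat_lit 188447) (nat_lit 22) (.e (nat_lit 196661) (nat_lit 12) .nil)))) .nil))) (.nd (nat_lit 6) 
(.lf (nat_lit 287803) (.g (nat_lit 1782) (.e (nat_lit 294928) (nat_lit 2) (.e (nat_lit 90176) (nat_lit 15) (.e (nat_lit 188447) (nat_lit 22) (.e (nat_lit 196677) (nat_lit 16) .nil)))) .nil)) 
(.lf (nat_lit 287867) (.g (nat_lit 641) (.e (nat_lit 294930) (nat_lit 3) (.e (nat_lit 98349) (nat_lit 24) (.e (nat_lit 409640) (nat_lit 17) .nil))) .nil)))))) (.nd (nat_lit 3) (.nd (nat_lit 4) (.nd (nat_lit 5) (.nd (nat_lit 6) 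
(.lf (nat_lit 287751) (.g (nat_lit 3465) (.e (nat_lit 294928) (nat_lit 2) (.e (nat_lit 90170) (nat_lit 13) (.e (nat_lit 172106) (nat_lit 10) (.e (nat_lit 434231) (nat_lit 23) (.e (nat_lit 532482) (nat_lit 0) (.e (nat_lit 6079) (nat_lit 332) (.e (nat_lit 1369) (nat_lit 103) .nil))))))) (.g (nat_lit 5) .nil .nil))) 
(.lf (nat_lit 287815) (.g (nat_lit 3360) (.e (nat_lit 294928) (nat_lit 2) (.e (nat_lit 90176) (nat_lit 15) (.e (nat_lit 188450) (nat_lit 23) (.e (nat_lit 204819) (nat_lit 17) (.e (nat_lit 6113) (nat_lit 332) (.e (nat_lit 7936) (nat_lit 103) .nil)))))) (.g (nat_lit 5) .nil .nil)))) (.nd (nat_lit 6) 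
(.lf (nat_lit 287783) (.g (nat_lit 2178) (.e (nat_lit 294928) (nat_lit 2) (.e (nat_lit 90170) (nat_lit 13) (.e (nat_lit 172106) (nat_lit 10) (.e (nat_lit 434244) (nat_lit 28) (.e (nat_lit 573468) (nat_lit 10) .nil))))) .nil)) 
(.lf (nat_lit 287847) (.g (nat_lit 629) (.e (nat_lit 294928) (nat_lit 2) (.e (nat_lit 90178) (nat_lit 15) (.e (nat_lit 188456) (nat_lit 25) .nil))) .nil)))) (.nd (nat_lit 5) (.nd (nat_lit 6) 
(.lf (nat_lit 287767) (.g (nat_lit 4232) (.e (nat_lit 294928) (nat_lit 2) (.e (nat_lit 90170) (nat_lit 13) (.e (nat_lit 172106) (nat_lit 10) (.e (nat_lit 434231) (nat_lit 23) (.e (nat_lit 532490) (nat_lit 0) (.e (nat_lit 6114) (nat_lit 332) (.e (nat_lit 7936) (nat_lit 103) .nil))))))) (.g (nat_lit 6) .nil .nil))) 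
(.lf (nat_lit 287831) (.g (nat_lit 2313) (.e (nat_lit 294928) (nat_lit 2) (.e (nat_lit 90177) (nat_lit 15) (.e (nat_lit 188452) (nat_lit 23) (.e (nat_lit 204816) (nat_lit 17) .nil)))) .nil))) (.nd (nat_lit 6) 
(.lf (nat_lit 287799) (.g (nat_lit 2480) (.e (nat_lit 294928) (nat_lit 2) (.e (nat_lit 90176) (nat_lit 15) (.e (nat_lit 188447) (nat_lit 22) (.e (nat_lit 196661) (nat_lit 12) (.e (nat_lit 57711) (nat_lit 176) (.e (nat_lit 1365) (nat_lit 103) .nil)))))) (.g (nat_lit 5) .nil .nil))) 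
(.lf (nat_lit 287863) (.g (nat_lit 1309) (.e (nat_lit 294929) (nat_lit 3) (.e (nat_lit 98381) (nat_lit 31) (.e (nat_lit 466977) (nat_lit 22) (.e (nat_lit 196661) (nat_lit 12) .nil)))) .nil))))) (.nd (nat_lit 4) (.nd (nat_lit 5) (.nd (nat_lit 6) 
(.lf (nat_lit 287759) (.g (nat_lit 2232) (.e (nat_lit 294928) (nat_lit 2) (.e (nat_lit 90170) (nat_lit 13) (.e (nat_lit 172106) (nat_lit 10) (.e (nat_lit 434231) (nat_lit 23) (.e (nat_lit 532486) (nat_lit 0) (.e (nat_lit 6109) (nat_lit 332) (.e (nat_lit 1369) (nat_lit 103) .nil))))))) (.g (nat_lit 4) .nil .nil))) 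
(.lf (nat_lit 287823) (.g (nat_lit 2597) (.e (nat_lit 294928) (nat_lit 2) (.e (nat_lit 90176) (nat_lit 15) (.e (nat_lit 188450) (nat_lit 23) (.e (nat_lit 204821) (nat_lit 17) (.e (nat_lit 6149) (nat_lit 332) (.e (nat_lit 1368) (nat_lit 103) .nil)))))) (.g (nat_lit 0) .nil .nil)))) (.nd (nat_lit 6) 
(.lf (nat_lit 287791) (.g (nat_lit 2581) (.e (nat_lit 294928) (nat_lit 2) (.e (nat_lit 90170) (nat_lit 13) (.e (nat_lit 172126) (nat_lit 14) (.e (nat_lit 491540) (nat_lit 3) (.e (nat_lit 98352) (nat_lit 25) .nil))))) .nil)) 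
(.lf (nat_lit 287855) (.g (nat_lit 579) (.e (nat_lit 294929) (nat_lit 3) (.e (nat_lit 98350) (nat_lit 24) (.e (nat_lit 409641) (nat_lit 17) .nil))) .nil)))) (.nd (nat_lit 5) (.nd (nat_lit 6) 
(.lf (nat_lit 287775) (.g (nat_lit 3268) (.e (nat_lit 294928) (nat_lit 2) (.e (nat_lit 90170) (nat_lit 13) (.e (nat_lit 172106) (nat_lit 10) (.e (nat_lit 434231) (nat_lit 23) (.e (nat_lit 532490) (nat_lit 0) (.e (nat_lit 7936) (nat_lit 332) (.e (nat_lit 1371) (nat_lit 103) .nil))))))) (.g (nat_lit 5) .nil .nil))) 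
(.lf (nat_lit 287839) (.g (nat_lit 1494) (.e (nat_lit 294928) (nat_lit 2) (.e (nat_lit 90178) (nat_lit 15) (.e (nat_lit 188449) (nat_lit 22) (.e (nat_lit 196661) (nat_lit 12) .nil)))) .nil))) (.nd (nat_lit 6) 
(.lf (nat_lit 287807) (.g (nat_lit 1549) (.e (nat_lit 294928) (nat_lit 2) (.e (nat_lit 90176) (nat_lit 15) (.e (nat_lit 188450) (nat_lit 23) (.e (nat_lit 204815) (nat_lit 17) (.e (nat_lit 6192) (nat_lit 332) .nil))))) .nil)) 
(.lf (nat_lit 287871) (.g (nat_lit 2382) (.e (nat_lit 294930) (nat_lit 3) (.e (nat_lit 98350) (nat_lit 24) (.e (nat_lit 409617) (nat_lit 10) (.e (nat_lit 5355) (nat_lit 298) (.e (nat_lit 1235) (nat_lit 91) .nil))))) .nil)))))))))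

noncomputable def tv3644 : DT := (.nd (nat_lit 0) (.nd (nat_lit 1) (.nd (nat_lit 2) (.nd (nat_lit 3) (.nd (nat_lit 4) (.nd (nat_lit 5) (.nd (nat_lit 6) 
(.lf (nat_lit 287872) (.g (nat_lit 1125) (.e (nat_lit 294930) (nat_lit 3) (.e (nat_lit 98350) (nat_lit 24) (.e (nat_lit 409623) (nat_lit 10) (.e (nat_lit 5293) (nat_lit 298) .nil)))) .nil)) 
(.lf (nat_lit 287936) (.g (nat_lit 2065) (.e (nat_lit 294930) (nat_lit 3) (.e (nat_lit 98373) (nat_lit 29) (.e (nat_lit 450580) (nat_lit 5) (.e (nat_lit 532522) (nat_lit 7) .nil)))) .nil))) (.nd (nat_lit 6) 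
(.lf (nat_lit 287904) (.g (nat_lit 1148) (.e (nat_lit 294930) (nat_lit 3) (.e (nat_lit 98372) (nat_lit 29) (.e (nat_lit 450579) (nat_lit 5) (.e (nat_lit 532482) (nat_lit 0) .nil)))) .nil)) 
(.lf (nat_lit 287968) (.g (nat_lit 3470) (.e (nat_lit 294930) (nat_lit 3) (.e (nat_lit 98373) (nat_lit 29) (.e (nat_lit 450587) (nat_lit 10) (.e (nat_lit 573475) (nat_lit 12) (.e (nat_lit 57356) (nat_lit 0) .nil))))) .nil)))) (.nd (nat_lit 5) (.nd (nat_lit 6) 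
(.lf (nat_lit 287888) (.g (nat_lit 398) (.e (nat_lit 294930) (nat_lit 3) (.e (nat_lit 98369) (nat_lit 28) (.e (nat_lit 442422) (nat_lit 22) .nil))) .nil)) 
(.lf (nat_lit 287952) (.g (nat_lit 3322) (.e (nat_lit 294930) (nat_lit 3) (.e (nat_lit 98373) (nat_lit 29) (.e (nat_lit 450587) (nat_lit 10) (.e (nat_lit 573456) (nat_lit 9) .nil)))) .nil))) (.nd (nat_lit 6) 
(.lf (nat_lit 287920) (.g (nat_lit 1493) (.e (nat_lit 294930) (nat_lit 3) (.e (nat_lit 98372) (nat_lit 29) (.e (nat_lit 450579) (nat_lit 5) (.e (nat_lit 532524) (nat_lit 8) (.e (nat_lit 327717) (nat_lit 17) .nil))))) .nil)) 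
(.lf (nat_lit 287984) (.g (nat_lit 4838) (.e (nat_lit 294930) (nat_lit 3) (.e (nat_lit 98373) (nat_lit 29) (.e (nat_lit 450588) (nat_lit 10) (.e (nat_lit 573473) (nat_lit 12) (.e (nat_lit 57350) (nat_lit 0) .nil))))) .nil))))) (.nd (nat_lit 4) (.nd (nat_lit 5) (.nd (nat_lit 6) 
(.lf (nat_lit 287880) (.g (nat_lit 2124) (.e (nat_lit 294930) (nat_lit 3) (.e (nat_lit 98350) (nat_lit 24) (.e (nat_lit 409646) (nat_lit 18) (.e (nat_lit 303112) (nat_lit 0) (.e (nat_lit 3252) (nat_lit 197) .nil))))) .nil)) 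
(.lf (nat_lit 287944) (.g (nat_lit 1682) (.e (nat_lit 294930) (nat_lit 3) (.e (nat_lit 98373) (nat_lit 29) (.e (nat_lit 450581) (nat_lit 5) (.e (nat_lit 532525) (nat_lit 8) .nil)))) .nil))) (.nd (nat_lit 6) 
(.lf (nat_lit 287912) (.g (nat_lit 1140) (.e (nat_lit 294930) (nat_lit 3) (.e (nat_lit 98372) (nat_lit 29) (.e (nat_lit 450579) (nat_lit 5) (.e (nat_lit 532489) (nat_lit 0) .nil)))) .nil)) 
(.lf (nat_lit 287976) (.g (nat_lit 3224) (.e (nat_lit 294930) (nat_lit 3) (.e (nat_lit 98373) (nat_lit 29) (.e (nat_lit 450588) (nat_lit 10) (.e (nat_lit 573450) (nat_lit 9) .nil)))) .nil)))) (.nd (nat_lit 5) (.nd (nat_lit 6) 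
(.lf (nat_lit 287896) (.g (nat_lit 1949) (.e (nat_lit 294930) (nat_lit 3) (.e (nat_lit 98370) (nat_lit 28) (.e (nat_lit 442427) (nat_lit 23) (.e (nat_lit 204848) (nat_lit 25) .nil)))) .nil)) 
(.lf (nat_lit 287960) (.g (nat_lit 2728) (.e (nat_lit 294930) (nat_lit 3) (.e (nat_lit 98373) (nat_lit 29) (.e (nat_lit 450587) (nat_lit 10) (.e (nat_lit 573473) (nat_lit 12) (.e (nat_lit 57569) (nat_lit 53) .nil))))) .nil))) (.nd (nat_lit 6) 
(.lf (nat_lit 287928) (.g (nat_lit 1036) (.e (nat_lit 294930) (nat_lit 3) (.e (nat_lit 98373) (nat_lit 29) (.e (nat_lit 458496) (nat_lit 1) .nil))) .nil)) 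
(.lf (nat_lit 287992) (.g (nat_lit 1583) (.e (nat_lit 294930) (nat_lit 3) (.e (nat_lit 98381) (nat_lit 31) (.e (nat_lit 466977) (nat_lit 22) (.e (nat_lit 196677) (nat_lit 16) (.e (nat_lit 123073) (nat_lit 176) (.e (nat_lit 1366) (nat_lit 103) .nil)))))) (.g (nat_lit 4) .nil .nil))))))) (.nd (nat_lit 3) (.nd (nat_lit 4) (.nd (nat_lit 5) (.nd (nat_lit 6) 
(.lf (nat_lit 287876) (.g (nat_lit 1320) (.e (nat_lit 294930) (nat_lit 3) (.e (nat_lit 98350) (nat_lit 24) (.e (nat_lit 409643) (nat_lit 18) (.e (nat_lit 303119) (nat_lit 3) .nil)))) .nil)) 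
(.lf (nat_lit 287940) (.g (nat_lit 1695) (.e (nat_lit 294930) (nat_lit 3) (.e (nat_lit 98373) (nat_lit 29) (.e (nat_lit 450581) (nat_lit 5) (.e (nat_lit 532522) (nat_lit 7) .nil)))) .nil))) (.nd (nat_lit 6) 
(.lf (nat_lit 287908) (.g (nat_lit 1674) (.e (nat_lit 294930) (nat_lit 3) (.e (nat_lit 98372) (nat_lit 29) (.e (nat_lit 450579) (nat_lit 5) (.e (nat_lit 532484) (nat_lit 0) (.e (nat_lit 6200) (nat_lit 332) (.e (nat_lit 1365) (nat_lit 103) .nil)))))) (.g (nat_lit 4) .nil .nil))) 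
(.lf (nat_lit 287972) (.g (nat_lit 3096) (.e (nat_lit 294930) (nat_lit 3) (.e (nat_lit 98373) (nat_lit 29) (.e (nat_lit 450587) (nat_lit 10) (.e (nat_lit 573478) (nat_lit 12) .nil)))) .nil)))) (.nd (nat_lit 5) (.nd (nat_lit 6) 
(.lf (nat_lit 287892) (.g (nat_lit 1340) (.e (nat_lit 294930) (nat_lit 3) (.e (nat_lit 98370) (nat_lit 28) (.e (nat_lit 442424) (nat_lit 22) (.e (nat_lit 196661) (nat_lit 12) .nil)))) .nil)) 
(.lf (nat_lit 287956) (.g (nat_lit 1949) (.e (nat_lit 294930) (nat_lit 3) (.e (nat_lit 98373) (nat_lit 29) (.e (nat_lit 450587) (nat_lit 10) (.e (nat_lit 573473) (nat_lit 12) .nil)))) .nil))) (.nd (nat_lit 6) 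
(.lf (nat_lit 287924) (.g (nat_lit 1551) (.e (nat_lit 294930) (nat_lit 3) (.e (nat_lit 98372) (nat_lit 29) (.e (nat_lit 450580) (nat_lit 5) (.e (nat_lit 532525) (nat_lit 8) .nil)))) .nil)) 
(.lf (nat_lit 287988) (.g (nat_lit 3768) (.e (nat_lit 294930) (nat_lit 3) (.e (nat_lit 98373) (nat_lit 29) (.e (nat_lit 450588) (nat_lit 10) (.e (nat_lit 573475) (nat_lit 12) .nil)))) .nil))))) (.nd (nat_lit 4) (.nd (nat_lit 5) (.nd (nat_lit 6) 
(.lf (nat_lit 287884) (.g (nat_lit 1602) (.e (nat_lit 294930) (nat_lit 3) (.e (nat_lit 98358) (nat_lit 26) (.e (nat_lit 426272) (nat_lit 10) (.e (nat_lit 434233) (nat_lit 23) .nil)))) .nil)) 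
(.lf (nat_lit 287948) (.g (nat_lit 3969) (.e (nat_lit 294930) (nat_lit 3) (.e (nat_lit 98373) (nat_lit 29) (.e (nat_lit 450587) (nat_lit 10) (.e (nat_lit 573448) (nat_lit 9) .nil)))) .nil))) (.nd (nat_lit 6) 
(.lf (nat_lit 287916) (.g (nat_lit 1205) (.e (nat_lit 294930) (nat_lit 3) (.e (nat_lit 98372) (nat_lit 29) (.e (nat_lit 450579) (nat_lit 5) (.e (nat_lit 532504) (nat_lit 1) .nil)))) .nil)) 
(.lf (nat_lit 287980) (.g (nat_lit 4361) (.e (nat_lit 294930) (nat_lit 3) (.e (nat_lit 98373) (nat_lit 29) (.e (nat_lit 450588) (nat_lit 10) (.e (nat_lit 573467) (nat_lit 10) .nil)))) .nil)))) (.nd (nat_lit 5) (.nd (nat_lit 6) 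
(.lf (nat_lit 287900) (.g (nat_lit 374) (.e (nat_lit 294930) (nat_lit 3) (.e (nat_lit 98372) (nat_lit 29) (.e (nat_lit 450579) (nat_lit 5) .nil))) .nil)) 
(.lf (nat_lit 287964) (.g (nat_lit 3222) (.e (nat_lit 294930) (nat_lit 3) (.e (nat_lit 98373) (nat_lit 29) (.e (nat_lit 450587) (nat_lit 10) (.e (nat_lit 573475) (nat_lit 12) (.e (nat_lit 57345) (nat_lit 0) (.e (nat_lit 7247) (nat_lit 383) (.e (nat_lit 8210) (nat_lit 8) .nil))))))) (.g (nat_lit 4) .nil .nil)))) (.nd (nat_lit 6) 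
(.lf (nat_lit 287932) (.g (nat_lit 1901) (.e (nat_lit 294930) (nat_lit 3) (.e (nat_lit 98373) (nat_lit 29) (.e (nat_lit 450579) (nat_lit 5) (.e (nat_lit 532522) (nat_lit 7) .nil)))) .nil)) 
(.lf (nat_lit 287996) (.g (nat_lit 2581) (.e (nat_lit 294930) (nat_lit 3) (.e (nat_lit 98389) (nat_lit 33) (.e (nat_lit 491560) (nat_lit 10) (.e (nat_lit 344117) (nat_lit 21) (.e (nat_lit 516142) (nat_lit 8) .nil))))) .nil))))))) (.nd (nat_lit 2) (.nd (nat_lit 3) (.nd (nat_lit 4) (.nd (nat_lit 5) (.nd (nat_lit 6) 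
(.lf (nat_lit 287874) (.g (nat_lit 1769) (.e (nat_lit 294930) (nat_lit 3) (.e (nat_lit 98350) (nat_lit 24) (.e (nat_lit 409641) (nat_lit 17) (.e (nat_lit 294928) (nat_lit 2) .nil)))) .nil)) 
(.lf (nat_lit 287938) (.g (nat_lit 2547) (.e (nat_lit 294930) (nat_lit 3) (.e (nat_lit 98373) (nat_lit 29) (.e (nat_lit 450580) (nat_lit 5) (.e (nat_lit 532525) (nat_lit 8) (.e (nat_lit 327717) (nat_lit 17) .nil))))) .nil))) (.nd (nat_lit 6) 
(.lf (nat_lit 287906) (.g (nat_lit 1793) (.e (nat_lit 294930) (nat_lit 3) (.e (nat_lit 98372) (nat_lit 29) (.e (nat_lit 450579) (nat_lit 5) (.e (nat_lit 532482) (nat_lit 0) (.e (nat_lit 6084) (nat_lit 332) (.e (nat_lit 1367) (nat_lit 103) .nil)))))) (.g (nat_lit 4) .nil .nil))) 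
(.lf (nat_lit 287970) (.g (nat_lit 3227) (.e (nat_lit 294930) (nat_lit 3) (.e (nat_lit 98373) (nat_lit 29) (.e (nat_lit 450587) (nat_lit 10) (.e (nat_lit 573475) (nat_lit 12) (.e (nat_lit 57571) (nat_lit 54) (.e (nat_lit 770052) (nat_lit 0) (.e (nat_lit 2783) (nat_lit 179) .nil))))))) (.g (nat_lit 5) .nil .nil))))) (.nd (nat_lit 5) (.nd (nat_lit 6) 
(.lf (nat_lit 287890) (.g (nat_lit 747) (.e (nat_lit 294930) (nat_lit 3) (.e (nat_lit 98370) (nat_lit 28) (.e (nat_lit 442423) (nat_lit 22) .nil))) .nil)) 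
(.lf (nat_lit 287954) (.g (nat_lit 3279) (.e (nat_lit 294930) (nat_lit 3) (.e (nat_lit 98373) (nat_lit 29) (.e (nat_lit 450587) (nat_lit 10) (.e (nat_lit 573457) (nat_lit 9) .nil)))) .nil))) (.nd (nat_lit 6) 
(.lf (nat_lit 287922) (.g (nat_lit 2109) (.e (nat_lit 294930) (nat_lit 3) (.e (nat_lit 98372) (nat_lit 29) (.e (nat_lit 450579) (nat_lit 5) (.e (nat_lit 532525) (nat_lit 8) (.e (nat_lit 335616) (nat_lit 17) .nil))))) (.g (nat_lit 4) .nil .nil))) 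
(.lf (nat_lit 287986) (.g (nat_lit 4733) (.e (nat_lit 294930) (nat_lit 3) (.e (nat_lit 98373) (nat_lit 29) (.e (nat_lit 450588) (nat_lit 10) (.e (nat_lit 573473) (nat_lit 12) (.e (nat_lit 57569) (nat_lit 53) .nil))))) .nil))))) (.nd (nat_lit 4) (.nd (nat_lit 5) (.nd (nat_lit 6) 
(.lf (nat_lit 287882) (.g (nat_lit 878) (.e (nat_lit 294930) (nat_lit 3) (.e (nat_lit 98358) (nat_lit 26) (.e (nat_lit 426227) (nat_lit 9) .nil))) .nil)) 
(.lf (nat_lit 287946) (.g (nat_lit 1036) (.e (nat_lit 294930) (nat_lit 3) (.e (nat_lit 98373) (nat_lit 29) (.e (nat_lit 458496) (nat_lit 5) .nil))) .nil))) (.nd (nat_lit 6) 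
(.lf (nat_lit 287914) (.g (nat_lit 1006) (.e (nat_lit 294930) (nat_lit 3) (.e (nat_lit 98372) (nat_lit 29) (.e (nat_lit 450579) (nat_lit 5) (.e (nat_lit 540416) (nat_lit 0) .nil)))) .nil)) 
(.lf (nat_lit 287978) (.g (nat_lit 3800) (.e (nat_lit 294930) (nat_lit 3) (.e (nat_lit 98373) (nat_lit 29) (.e (nat_lit 450588) (nat_lit 10) (.e (nat_lit 573452) (nat_lit 9) .nil)))) .nil)))) (.nd (nat_lit 5) (.nd (nat_lit 6) 
(.lf (nat_lit 287898) (.g (nat_lit 452) (.e (nat_lit 294930) (nat_lit 3) (.e (nat_lit 98372) (nat_lit 29) (.e (nat_lit 450571) (nat_lit 1) .nil))) .nil)) 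
(.lf (nat_lit 287962) (.g (nat_lit 3575) (.e (nat_lit 294930) (nat_lit 3) (.e (nat_lit 98373) (nat_lit 29) (.e (nat_lit 450587) (nat_lit 10) (.e (nat_lit 573475) (nat_lit 12) (.e (nat_lit 57344) (nat_lit 0) .nil))))) .nil))) (.nd (nat_lit 6) 
(.lf (nat_lit 287930) (.g (nat_lit 836) (.e (nat_lit 294930) (nat_lit 3) (.e (nat_lit 98373) (nat_lit 29) (.e (nat_lit 450578) (nat_lit 5) .nil))) .nil)) 
(.lf (nat_lit 287994) (.g (nat_lit 2320) (.e (nat_lit 294930) (nat_lit 3) (.e (nat_lit 98389) (nat_lit 33) (.e (nat_lit 491558) (nat_lit 10) (.e (nat_lit 344117) (nat_lit 21) (.e (nat_lit 516141) (nat_lit 8) .nil))))) .nil)))))) (.nd (nat_lit 3) (.nd (nat_lit 4) (.nd (nat_lit 5) (.nd (nat_lit 6) 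
(.lf (nat_lit 287878) (.g (nat_lit 2792) (.e (nat_lit 294930) (nat_lit 3) (.e (nat_lit 98350) (nat_lit 24) (.e (nat_lit 409645) (nat_lit 18) (.e (nat_lit 303112) (nat_lit 0) (.e (nat_lit 3252) (nat_lit 197) .nil))))) .nil)) 
(.lf (nat_lit 287942) (.g (nat_lit 2745) (.e (nat_lit 294930) (nat_lit 3) (.e (nat_lit 98373) (nat_lit 29) (.e (nat_lit 450581) (nat_lit 5) (.e (nat_lit 532523) (nat_lit 7) (.e (nat_lit 319536) (nat_lit 17) .nil))))) .nil))) (.nd (nat_lit 6) 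
(.lf (nat_lit 287910) (.g (nat_lit 1575) (.e (nat_lit 294930) (nat_lit 3) (.e (nat_lit 98372) (nat_lit 29) (.e (nat_lit 450579) (nat_lit 5) (.e (nat_lit 532484) (nat_lit 0) (.e (nat_lit 7936) (nat_lit 332) (.e (nat_lit 1365) (nat_lit 103) .nil)))))) (.g (nat_lit 4) .nil .nil))) 
(.lf (nat_lit 287974) (.g (nat_lit 4352) (.e (nat_lit 294930) (nat_lit 3) (.e (nat_lit 98373) (nat_lit 29) (.e (nat_lit 450588) (nat_lit 10) (.e (nat_lit 573448) (nat_lit 9) .nil)))) .nil)))) (.nd (nat_lit 5) (.nd (nat_lit 6) 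
(.lf (nat_lit 287894) (.g (nat_lit 2941) (.e (nat_lit 294930) (nat_lit 3) (.e (nat_lit 98370) (nat_lit 28) (.e (nat_lit 442427) (nat_lit 23) (.e (nat_lit 204845) (nat_lit 24) (.e (nat_lit 319535) (nat_lit 17) .nil))))) .nil)) 
(.lf (nat_lit 287958) (.g (nat_lit 3174) (.e (nat_lit 294930) (nat_lit 3) (.e (nat_lit 98373) (nat_lit 29) (.e (nat_lit 450587) (nat_lit 10) (.e (nat_lit 573473) (nat_lit 12) (.e (nat_lit 57350) (nat_lit 0) (.e (nat_lit 7251) (nat_lit 383) (.e (nat_lit 8210) (nat_lit 8) .nil))))))) (.g (nat_lit 4) .nil .nil)))) (.nd (nat_lit 6) 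
(.lf (nat_lit 287926) (.g (nat_lit 854) (.e (nat_lit 294930) (nat_lit 3) (.e (nat_lit 98373) (nat_lit 29) (.e (nat_lit 450562) (nat_lit 0) .nil))) .nil)) 
(.lf (nat_lit 287990) (.g (nat_lit 1255) (.e (nat_lit 294930) (nat_lit 3) (.e (nat_lit 98381) (nat_lit 31) (.e (nat_lit 466977) (nat_lit 22) (.e (nat_lit 196661) (nat_lit 12) .nil)))) .nil))))) (.nd (nat_lit 4) (.nd (nat_lit 5) (.nd (nat_lit 6) 
(.lf (nat_lit 287886) (.g (nat_lit 668) (.e (nat_lit 294930) (nat_lit 3) (.e (nat_lit 98365) (nat_lit 26) (.e (nat_lit 426188) (nat_lit 9) .nil))) .nil)) 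
(.lf (nat_lit 287950) (.g (nat_lit 3150) (.e (nat_lit 294930) (nat_lit 3) (.e (nat_lit 98373) (nat_lit 29) (.e (nat_lit 450587) (nat_lit 10) (.e (nat_lit 573454) (nat_lit 9) .nil)))) .nil))) (.nd (nat_lit 6) 
(.lf (nat_lit 287918) (.g (nat_lit 2683) (.e (nat_lit 294930) (nat_lit 3) (.e (nat_lit 98372) (nat_lit 29) (.e (nat_lit 450579) (nat_lit 5) (.e (nat_lit 532523) (nat_lit 7) (.e (nat_lit 319536) (nat_lit 17) .nil))))) .nil)) 
(.lf (nat_lit 287982) (.g (nat_lit 3891) (.e (nat_lit 294930) (nat_lit 3) (.e (nat_lit 98373) (nat_lit 29) (.e (nat_lit 450588) (nat_lit 10) (.e (nat_lit 573473) (nat_lit 12) .nil)))) .nil)))) (.nd (nat_lit 5) (.nd (nat_lit 6) 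
(.lf (nat_lit 287902) (.g (nat_lit 2276) (.e (nat_lit 294930) (nat_lit 3) (.e (nat_lit 98372) (nat_lit 29) (.e (nat_lit 450579) (nat_lit 5) (.e (nat_lit 532481) (nat_lit 0) (.e (nat_lit 6084) (nat_lit 332) (.e (nat_lit 1367) (nat_lit 103) .nil)))))) (.g (nat_lit 4) .nil .nil))) 
(.lf (nat_lit 287966) (.g (nat_lit 3683) (.e (nat_lit 294930) (nat_lit 3) (.e (nat_lit 98373) (nat_lit 29) (.e (nat_lit 450587) (nat_lit 10) (.e (nat_lit 573475) (nat_lit 12) (.e (nat_lit 57350) (nat_lit 0) .nil))))) .nil))) (.nd (nat_lit 6) 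
(.lf (nat_lit 287934) (.g (nat_lit 2601) (.e (nat_lit 294930) (nat_lit 3) (.e (nat_lit 98373) (nat_lit 29) (.e (nat_lit 450579) (nat_lit 5) (.e (nat_lit 532525) (nat_lit 8) (.e (nat_lit 327717) (nat_lit 17) .nil))))) .nil)) 
(.lf (nat_lit 287998) (.g (nat_lit 1719) (.e (nat_lit 294930) (nat_lit 3) (.e (nat_lit 98389) (nat_lit 33) (.e (nat_lit 491560) (nat_lit 10) (.e (nat_lit 344120) (nat_lit 21) .nil)))) .nil)))))))) (.nd (nat_lit 1) (.nd (nat_lit 2) (.nd (nat_lit 3) (.nd (nat_lit 4) (.nd (nat_lit 5) (.nd (nat_lit 6) 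
(.lf (nat_lit 287873) (.g (nat_lit 800) (.e (nat_lit 294930) (nat_lit 3) (.e (nat_lit 98350) (nat_lit 24) (.e (nat_lit 409640) (nat_lit 17) .nil))) .nil)) 
(.lf (nat_lit 287937) (.g (nat_lit 3390) (.e (nat_lit 294930) (nat_lit 3) (.e (nat_lit 98373) (nat_lit 29) (.e (nat_lit 450580) (nat_lit 5) (.e (nat_lit 532523) (nat_lit 7) (.e (nat_lit 319536) (nat_lit 17) .nil))))) .nil))) (.nd (nat_lit 6) 
(.lf (nat_lit 287905) (.g (nat_lit 1784) (.e (nat_lit 294930) (nat_lit 3) (.e (nat_lit 98372) (nat_lit 29) (.e (nat_lit 450579) (nat_lit 5) (.e (nat_lit 532482) (nat_lit 0) (.e (nat_lit 6079) (nat_lit 332) .nil))))) .nil)) 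
(.lf (nat_lit 287969) (.g (nat_lit 3411) (.e (nat_lit 294930) (nat_lit 3) (.e (nat_lit 98373) (nat_lit 29) (.e (nat_lit 450587) (nat_lit 10) (.e (nat_lit 573475) (nat_lit 12) (.e (nat_lit 57568) (nat_lit 53) .nil))))) .nil)))) (.nd (nat_lit 5) (.nd (nat_lit 6) 
(.lf (nat_lit 287889) (.g (nat_lit 1103) (.e (nat_lit 294930) (nat_lit 3) (.e (nat_lit 98369) (nat_lit 28) (.e (nat_lit 442427) (nat_lit 23) (.e (nat_lit 204821) (nat_lit 17) .nil)))) .nil)) 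
(.lf (nat_lit 287953) (.g (nat_lit 4004) (.e (nat_lit 294930) (nat_lit 3) (.e (nat_lit 98373) (nat_lit 29) (.e (nat_lit 450587) (nat_lit 10) (.e (nat_lit 573456) (nat_lit 9) (.e (nat_lit 365) (nat_lit 31) (.e (nat_lit 417812) (nat_lit 7) .nil)))))) (.g (nat_lit 4) .nil .nil)))) (.nd (nat_lit 6) 
(.lf (nat_lit 287921) (.g (nat_lit 2996) (.e (nat_lit 294930) (nat_lit 3) (.e (nat_lit 98372) (nat_lit 29) (.e (nat_lit 450579) (nat_lit 5) (.e (nat_lit 532525) (nat_lit 8) (.e (nat_lit 327717) (nat_lit 17) .nil))))) (.g (nat_lit 0) .nil .nil))) 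
(.lf (nat_lit 287985) (.g (nat_lit 4640) (.e (nat_lit 294930) (nat_lit 3) (.e (nat_lit 98373) (nat_lit 29) (.e (nat_lit 450588) (nat_lit 10) (.e (nat_lit 573473) (nat_lit 12) (.e (nat_lit 57353) (nat_lit 0) .nil))))) .nil))))) (.nd (nat_lit 4) (.nd (nat_lit 5) (.nd (nat_lit 6) 
(.lf (nat_lit 287881) (.g (nat_lit 658) (.e (nat_lit 294930) (nat_lit 3) (.e (nat_lit 98350) (nat_lit 24) (.e (nat_lit 409647) (nat_lit 18) .nil))) .nil)) 
(.lf (nat_lit 287945) (.g (nat_lit 2321) (.e (nat_lit 294930) (nat_lit 3) (.e (nat_lit 98373) (nat_lit 29) (.e (nat_lit 450581) (nat_lit 5) (.e (nat_lit 532526) (nat_lit 8) (.e (nat_lit 327717) (nat_lit 17) .nil))))) .nil))) (.nd (nat_lit 6) 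
(.lf (nat_lit 287913) (.g (nat_lit 1515) (.e (nat_lit 294930) (nat_lit 3) (.e (nat_lit 98372) (nat_lit 29) (.e (nat_lit 450579) (nat_lit 5) (.e (nat_lit 532489) (nat_lit 0) (.e (nat_lit 7936) (nat_lit 332) (.e (nat_lit 1365) (nat_lit 103) .nil)))))) (.g (nat_lit 4) .nil .nil))) 
(.lf (nat_lit 287977) (.g (nat_lit 4086) (.e (nat_lit 294930) (nat_lit 3) (.e (nat_lit 98373) (nat_lit 29) (.e (nat_lit 450588) (nat_lit 10) (.e (nat_lit 573451) (nat_lit 9) .nil)))) .nil)))) (.nd (nat_lit 5) (.nd (nat_lit 6) 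
(.lf (nat_lit 287897) (.g (nat_lit 2014) (.e (nat_lit 294930) (nat_lit 3) (.e (nat_lit 98370) (nat_lit 28) (.e (nat_lit 442427) (nat_lit 23) (.e (nat_lit 204849) (nat_lit 25) .nil)))) .nil)) 
(.lf (nat_lit 287961) (.g (nat_lit 2056) (.e (nat_lit 294930) (nat_lit 3) (.e (nat_lit 98373) (nat_lit 29) (.e (nat_lit 450587) (nat_lit 10) (.e (nat_lit 573475) (nat_lit 12) .nil)))) .nil))) (.nd (nat_lit 6) 
(.lf (nat_lit 287929) (.g (nat_lit 1036) (.e (nat_lit 294930) (nat_lit 3) (.e (nat_lit 98373) (nat_lit 29) (.e (nat_lit 458496) (nat_lit 3) .nil))) .nil)) 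
(.lf (nat_lit 287993) (.g (nat_lit 2125) (.e (nat_lit 294930) (nat_lit 3) (.e (nat_lit 98389) (nat_lit 33) (.e (nat_lit 491546) (nat_lit 9) (.e (nat_lit 336028) (nat_lit 3) (.e (nat_lit 98325) (nat_lit 17) (.e (nat_lit 7008) (nat_lit 377) (.e (nat_lit 2786) (nat_lit 179) .nil))))))) (.g (nat_lit 4) .nil .nil))))))) (.nd (nat_lit 3) (.nd (nat_lit 4) (.nd (nat_lit 5) (.nd (nat_lit 6) 
(.lf (nat_lit 287877) (.g (nat_lit 1997) (.e (nat_lit 294930) (nat_lit 3) (.e (nat_lit 98350) (nat_lit 24) (.e (nat_lit 409644) (nat_lit 18) (.e (nat_lit 303119) (nat_lit 3) (.e (nat_lit 204849) (nat_lit 25) .nil))))) .nil)) 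
(.lf (nat_lit 287941) (.g (nat_lit 3823) (.e (nat_lit 294930) (nat_lit 3) (.e (nat_lit 98373) (nat_lit 29) (.e (nat_lit 450581) (nat_lit 5) (.e (nat_lit 532523) (nat_lit 7) (.e (nat_lit 319535) (nat_lit 17) .nil))))) (.g (nat_lit 5) .nil .nil)))) (.nd (nat_lit 6) 
(.lf (nat_lit 287909) (.g (nat_lit 1346) (.e (nat_lit 294930) (nat_lit 3) (.e (nat_lit 98372) (nat_lit 29) (.e (nat_lit 450579) (nat_lit 5) (.e (nat_lit 532484) (nat_lit 0) (.e (nat_lit 7936) (nat_lit 332) .nil))))) .nil)) 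
(.lf (nat_lit 287973) (.g (nat_lit 347) (.e (nat_lit 294930) (nat_lit 3) (.e (nat_lit 98373) (nat_lit 29) (.e (nat_lit 450588) (nat_lit 10) .nil))) .nil)))) (.nd (nat_lit 5) (.nd (nat_lit 6) 
(.lf (nat_lit 287893) (.g (nat_lit 1296) (.e (nat_lit 294930) (nat_lit 3) (.e (nat_lit 98370) (nat_lit 28) (.e (nat_lit 442427) (nat_lit 23) (.e (nat_lit 204821) (nat_lit 17) .nil)))) .nil)) 
(.lf (nat_lit 287957) (.g (nat_lit 3127) (.e (nat_lit 294930) (nat_lit 3) (.e (nat_lit 98373) (nat_lit 29) (.e (nat_lit 450587) (nat_lit 10) (.e (nat_lit 573473) (nat_lit 12) (.e (nat_lit 57350) (nat_lit 0) .nil))))) .nil))) (.nd (nat_lit 6) 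
(.lf (nat_lit 287925) (.g (nat_lit 1518) (.e (nat_lit 294930) (nat_lit 3) (.e (nat_lit 98372) (nat_lit 29) (.e (nat_lit 450580) (nat_lit 5) (.e (nat_lit 532526) (nat_lit 8) .nil)))) .nil)) 
(.lf (nat_lit 287989) (.g (nat_lit 926) (.e (nat_lit 294930) (nat_lit 3) (.e (nat_lit 98374) (nat_lit 29) (.e (nat_lit 450580) (nat_lit 5) (.e (nat_lit 532523) (nat_lit 7) .nil)))) .nil))))) (.nd (nat_lit 4) (.nd (nat_lit 5) (.nd (nat_lit 6) 
(.lf (nat_lit 287885) (.g (nat_lit 944) (.e (nat_lit 294930) (nat_lit 3) (.e (nat_lit 98358) (nat_lit 26) (.e (nat_lit 426294) (nat_lit 11) .nil))) .nil)) 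
(.lf (nat_lit 287949) (.g (nat_lit 2355) (.e (nat_lit 294930) (nat_lit 3) (.e (nat_lit 98373) (nat_lit 29) (.e (nat_lit 450587) (nat_lit 10) (.e (nat_lit 573449) (nat_lit 9) .nil)))) .nil))) (.nd (nat_lit 6) 
(.lf (nat_lit 287917) (.g (nat_lit 3637) (.e (nat_lit 294930) (nat_lit 3) (.e (nat_lit 98372) (nat_lit 29) (.e (nat_lit 450579) (nat_lit 5) (.e (nat_lit 532523) (nat_lit 7) (.e (nat_lit 319535) (nat_lit 17) .nil))))) (.g (nat_lit 5) .nil .nil))) 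
(.lf (nat_lit 287981) (.g (nat_lit 2670) (.e (nat_lit 294930) (nat_lit 3) (.e (nat_lit 98373) (nat_lit 29) (.e (nat_lit 450588) (nat_lit 10) (.e (nat_lit 573468) (nat_lit 10) .nil)))) .nil)))) (.nd (nat_lit 5) (.nd (nat_lit 6) 
(.lf (nat_lit 287901) (.g (nat_lit 1249) (.e (nat_lit 294930) (nat_lit 3) (.e (nat_lit 98372) (nat_lit 29) (.e (nat_lit 450579) (nat_lit 5) (.e (nat_lit 532480) (nat_lit 0) .nil)))) .nil)) 
(.lf (nat_lit 287965) (.g (nat_lit 3126) (.e (nat_lit 294930) (nat_lit 3) (.e (nat_lit 98373) (nat_lit 29) (.e (nat_lit 450587) (nat_lit 10) (.e (nat_lit 573475) (nat_lit 12) (.e (nat_lit 57347) (nat_lit 0) (.e (nat_lit 7247) (nat_lit 383) (.e (nat_lit 8210) (nat_lit 8) .nil))))))) (.g (nat_lit 4) .nil .nil)))) (.nd (nat_lit 6) 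
(.lf (nat_lit 287933) (.g (nat_lit 3397) (.e (nat_lit 294930) (nat_lit 3) (.e (nat_lit 98373) (nat_lit 29) (.e (nat_lit 450579) (nat_lit 5) (.e (nat_lit 532523) (nat_lit 7) (.e (nat_lit 319536) (nat_lit 17) .nil))))) .nil)) 
(.lf (nat_lit 287997) (.g (nat_lit 1311) (.e (nat_lit 294930) (nat_lit 3) (.e (nat_lit 98389) (nat_lit 33) (.e (nat_lit 491560) (nat_lit 10) (.e (nat_lit 344118) (nat_lit 21) .nil)))) .nil))))))) (.nd (nat_lit 2) (.nd (nat_lit 3) (.nd (nat_lit 4) (.nd (nat_lit 5) (.nd (nat_lit 6) 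
(.lf (nat_lit 287875) (.g (nat_lit 1811) (.e (nat_lit 294930) (nat_lit 3) (.e (nat_lit 98350) (nat_lit 24) (.e (nat_lit 409641) (nat_lit 17) (.e (nat_lit 294931) (nat_lit 3) .nil)))) .nil)) 
(.lf (nat_lit 287939) (.g (nat_lit 1691) (.e (nat_lit 294930) (nat_lit 3) (.e (nat_lit 98373) (nat_lit 29) (.e (nat_lit 450581) (nat_lit 5) (.e (nat_lit 532486) (nat_lit 0) .nil)))) .nil))) (.nd (nat_lit 6) 
(.lf (nat_lit 287907) (.g (nat_lit 1157) (.e (nat_lit 294930) (nat_lit 3) (.e (nat_lit 98372) (nat_lit 29) (.e (nat_lit 450579) (nat_lit 5) (.e (nat_lit 532484) (nat_lit 0) .nil)))) .nil)) 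
(.lf (nat_lit 287971) (.g (nat_lit 3234) (.e (nat_lit 294930) (nat_lit 3) (.e (nat_lit 98373) (nat_lit 29) (.e (nat_lit 450587) (nat_lit 10) (.e (nat_lit 573477) (nat_lit 12) .nil)))) .nil)))) (.nd (nat_lit 5) (.nd (nat_lit 6) 
(.lf (nat_lit 287891) (.g (nat_lit 1605) (.e (nat_lit 294930) (nat_lit 3) (.e (nat_lit 98370) (nat_lit 28) (.e (nat_lit 442424) (nat_lit 22) (.e (nat_lit 196628) (nat_lit 9) .nil)))) .nil)) 
(.lf (nat_lit 287955) (.g (nat_lit 3674) (.e (nat_lit 294930) (nat_lit 3) (.e (nat_lit 98373) (nat_lit 29) (.e (nat_lit 450587) (nat_lit 10) (.e (nat_lit 573457) (nat_lit 9) (.e (nat_lit 365) (nat_lit 31) (.e (nat_lit 417812) (nat_lit 7) .nil)))))) (.g (nat_lit 4) .nil .nil)))) (.nd (nat_lit 6) 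
(.lf (nat_lit 287923) (.g (nat_lit 2023) (.e (nat_lit 294930) (nat_lit 3) (.e (nat_lit 98372) (nat_lit 29) (.e (nat_lit 450579) (nat_lit 5) (.e (nat_lit 532526) (nat_lit 8) (.e (nat_lit 335616) (nat_lit 17) .nil))))) (.g (nat_lit 4) .nil .nil))) 
(.lf (nat_lit 287987) (.g (nat_lit 5267) (.e (nat_lit 294930) (nat_lit 3) (.e (nat_lit 98373) (nat_lit 29) (.e (nat_lit 450588) (nat_lit 10) (.e (nat_lit 573474) (nat_lit 12) .nil)))) .nil))))) (.nd (nat_lit 4) (.nd (nat_lit 5) (.nd (nat_lit 6) 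
(.lf (nat_lit 287883) (.g (nat_lit 1302) (.e (nat_lit 294930) (nat_lit 3) (.e (nat_lit 98358) (nat_lit 26) (.e (nat_lit 426270) (nat_lit 9) .nil))) .nil)) 
(.lf (nat_lit 287947) (.g (nat_lit 1061) (.e (nat_lit 294930) (nat_lit 3) (.e (nat_lit 98373) (nat_lit 29) (.e (nat_lit 450583) (nat_lit 7) .nil))) .nil))) (.nd (nat_lit 6) 
(.lf (nat_lit 287915) (.g (nat_lit 1216) (.e (nat_lit 294930) (nat_lit 3) (.e (nat_lit 98372) (nat_lit 29) (.e (nat_lit 450579) (nat_lit 5) (.e (nat_lit 532501) (nat_lit 1) .nil)))) .nil)) 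
(.lf (nat_lit 287979) (.g (nat_lit 3841) (.e (nat_lit 294930) (nat_lit 3) (.e (nat_lit 98373) (nat_lit 29) (.e (nat_lit 450588) (nat_lit 10) (.e (nat_lit 573457) (nat_lit 9) .nil)))) .nil)))) (.nd (nat_lit 5) (.nd (nat_lit 6) 
(.lf (nat_lit 287899) (.g (nat_lit 626) (.e (nat_lit 294930) (nat_lit 3) (.e (nat_lit 98372) (nat_lit 29) (.e (nat_lit 458496) (nat_lit 1) .nil))) .nil)) 
(.lf (nat_lit 287963) (.g (nat_lit 3191) (.e (nat_lit 294930) (nat_lit 3) (.e (nat_lit 98373) (nat_lit 29) (.e (nat_lit 450587) (nat_lit 10) (.e (nat_lit 573475) (nat_lit 12) (.e (nat_lit 57345) (nat_lit 0) .nil))))) .nil))) (.nd (nat_lit 6) 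
(.lf (nat_lit 287931) (.g (nat_lit 723) (.e (nat_lit 294930) (nat_lit 3) (.e (nat_lit 98373) (nat_lit 29) (.e (nat_lit 450579) (nat_lit 5) .nil))) .nil)) 
(.lf (nat_lit 287995) (.g (nat_lit 2604) (.e (nat_lit 294930) (nat_lit 3) (.e (nat_lit 98389) (nat_lit 33) (.e (nat_lit 491560) (nat_lit 10) (.e (nat_lit 344117) (nat_lit 21) (.e (nat_lit 516138) (nat_lit 7) .nil))))) .nil)))))) (.nd (nat_lit 3) (.nd (nat_lit 4) (.nd (nat_lit 5) (.nd (nat_lit 6) 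
(.lf (nat_lit 287879) (.g (nat_lit 2233) (.e (nat_lit 294930) (nat_lit 3) (.e (nat_lit 98350) (nat_lit 24) (.e (nat_lit 409645) (nat_lit 18) (.e (nat_lit 303119) (nat_lit 3) (.e (nat_lit 204849) (nat_lit 25) .nil))))) .nil)) 
(.lf (nat_lit 287943) (.g (nat_lit 2564) (.e (nat_lit 294930) (nat_lit 3) (.e (nat_lit 98373) (nat_lit 29) (.e (nat_lit 450581) (nat_lit 5) (.e (nat_lit 532523) (nat_lit 7) (.e (nat_lit 327424) (nat_lit 17) .nil))))) (.g (nat_lit 4) .nil .nil)))) (.nd (nat_lit 6) 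
(.lf (nat_lit 287911) (.g (nat_lit 1232) (.e (nat_lit 294930) (nat_lit 3) (.e (nat_lit 98372) (nat_lit 29) (.e (nat_lit 450579) (nat_lit 5) (.e (nat_lit 532488) (nat_lit 0) .nil)))) .nil)) 
(.lf (nat_lit 287975) (.g (nat_lit 3821) (.e (nat_lit 294930) (nat_lit 3) (.e (nat_lit 98373) (nat_lit 29) (.e (nat_lit 450588) (nat_lit 10) (.e (nat_lit 573449) (nat_lit 9) .nil)))) .nil)))) (.nd (nat_lit 5) (.nd (nat_lit 6) 
(.lf (nat_lit 287895) (.g (nat_lit 3825) (.e (nat_lit 294930) (nat_lit 3) (.e (nat_lit 98370) (nat_lit 28) (.e (nat_lit 442427) (nat_lit 23) (.e (nat_lit 204846) (nat_lit 24) (.e (nat_lit 319535) (nat_lit 17) .nil))))) (.g (nat_lit 5) .nil .nil))) 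
(.lf (nat_lit 287959) (.g (nat_lit 2819) (.e (nat_lit 294930) (nat_lit 3) (.e (nat_lit 98373) (nat_lit 29) (.e (nat_lit 450587) (nat_lit 10) (.e (nat_lit 573473) (nat_lit 12) (.e (nat_lit 57354) (nat_lit 0) .nil))))) .nil))) (.nd (nat_lit 6) 
(.lf (nat_lit 287927) (.g (nat_lit 1079) (.e (nat_lit 294930) (nat_lit 3) (.e (nat_lit 98373) (nat_lit 29) (.e (nat_lit 450573) (nat_lit 1) .nil))) .nil)) 
(.lf (nat_lit 287991) (.g (nat_lit 819) (.e (nat_lit 294930) (nat_lit 3) (.e (nat_lit 98381) (nat_lit 31) (.e (nat_lit 466977) (nat_lit 22) (.e (nat_lit 196677) (nat_lit 16) .nil)))) .nil))))) (.nd (nat_lit 4) (.nd (nat_lit 5) (.nd (nat_lit 6) 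
(.lf (nat_lit 287887) (.g (nat_lit 1880) (.e (nat_lit 294930) (nat_lit 3) (.e (nat_lit 98365) (nat_lit 26) (.e (nat_lit 426298) (nat_lit 11) (.e (nat_lit 458789) (nat_lit 23) (.e (nat_lit 532525) (nat_lit 8) (.e (nat_lit 335616) (nat_lit 17) .nil)))))) (.g (nat_lit 5) .nil .nil))) 
(.lf (nat_lit 287951) (.g (nat_lit 4094) (.e (nat_lit 294930) (nat_lit 3) (.e (nat_lit 98373) (nat_lit 29) (.e (nat_lit 450587) (nat_lit 10) (.e (nat_lit 573454) (nat_lit 9) (.e (nat_lit 363) (nat_lit 31) .nil))))) .nil))) (.nd (nat_lit 6) 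
(.lf (nat_lit 287919) (.g (nat_lit 1176) (.e (nat_lit 294930) (nat_lit 3) (.e (nat_lit 98372) (nat_lit 29) (.e (nat_lit 450579) (nat_lit 5) (.e (nat_lit 532524) (nat_lit 8) .nil)))) .nil)) 
(.lf (nat_lit 287983) (.g (nat_lit 4652) (.e (nat_lit 294930) (nat_lit 3) (.e (nat_lit 98373) (nat_lit 29) (.e (nat_lit 450588) (nat_lit 10) (.e (nat_lit 573473) (nat_lit 12) (.e (nat_lit 57348) (nat_lit 0) (.e (nat_lit 7247) (nat_lit 383) (.e (nat_lit 8210) (nat_lit 8) .nil))))))) (.g (nat_lit 4) .nil .nil))))) (.nd (nat_lit 5) (.nd (nat_lit 6) 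
(.lf (nat_lit 287903) (.g (nat_lit 2140) (.e (nat_lit 294930) (nat_lit 3) (.e (nat_lit 98372) (nat_lit 29) (.e (nat_lit 450579) (nat_lit 5) (.e (nat_lit 532481) (nat_lit 0) (.e (nat_lit 6192) (nat_lit 332) .nil))))) .nil)) 
(.lf (nat_lit 287967) (.g (nat_lit 2949) (.e (nat_lit 294930) (nat_lit 3) (.e (nat_lit 98373) (nat_lit 29) (.e (nat_lit 450587) (nat_lit 10) (.e (nat_lit 573475) (nat_lit 12) (.e (nat_lit 57354) (nat_lit 0) .nil))))) .nil))) (.nd (nat_lit 6) 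
(.lf (nat_lit 287935) (.g (nat_lit 2549) (.e (nat_lit 294930) (nat_lit 3) (.e (nat_lit 98373) (nat_lit 29) (.e (nat_lit 450579) (nat_lit 5) (.e (nat_lit 532526) (nat_lit 8) (.e (nat_lit 327717) (nat_lit 17) .nil))))) .nil)) 
(.lf (nat_lit 287999) (.g (nat_lit 1869) (.e (nat_lit 294931) (nat_lit 3) (.e (nat_lit 98317) (nat_lit 9) (.e (nat_lit 335995) (nat_lit 1) (.e (nat_lit 57870) (nat_lit 264) .nil)))) .nil)))))))))

noncomputable def tv3645 : DT := (.nd (nat_lit 0) (.nd (nat_lit 1) (.nd (nat_lit 2) (.nd (nat_lit 3) (.nd (nat_lit 4) (.nd (nat_lit 5) (.nd (nat_lit 6) 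
(.lf (nat_lit 288000) (.g (nat_lit 3577) (.e (nat_lit 294931) (nat_lit 3) (.e (nat_lit 98317) (nat_lit 9) (.e (nat_lit 335995) (nat_lit 1) (.e (nat_lit 57872) (nat_lit 264) (.e (nat_lit 1190) (nat_lit 88) (.e (nat_lit 65648) (nat_lit 26) (.e (nat_lit 417827) (nat_lit 17) .nil))))))) (.g (nat_lit 5) .nil .nil))) 
(.lf (nat_lit 288064) (.g (nat_lit 860) (.e (nat_lit 294931) (nat_lit 3) (.e (nat_lit 98367) (nat_lit 27) (.e (nat_lit 442112) (nat_lit 6) .nil))) .nil))) (.nd (nat_lit 6) 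
(.lf (nat_lit 288032) (.g (nat_lit 1823) (.e (nat_lit 294931) (nat_lit 3) (.e (nat_lit 98350) (nat_lit 24) (.e (nat_lit 409647) (nat_lit 18) (.e (nat_lit 303118) (nat_lit 3) (.e (nat_lit 204848) (nat_lit 25) .nil))))) .nil)) 
(.lf (nat_lit 288096) (.g (nat_lit 1032) (.e (nat_lit 294931) (nat_lit 3) (.e (nat_lit 98373) (nat_lit 29) (.e (nat_lit 450570) (nat_lit 1) .nil))) .nil)))) (.nd (nat_lit 5) (.nd (nat_lit 6) 
(.lf (nat_lit 288016) (.g (nat_lit 2013) (.e (nat_lit 294931) (nat_lit 3) (.e (nat_lit 98350) (nat_lit 24) (.e (nat_lit 409617) (nat_lit 10) (.e (nat_lit 5355) (nat_lit 298) (.e (nat_lit 1252) (nat_lit 92) .nil))))) .nil)) 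
(.lf (nat_lit 288080) (.g (nat_lit 1933) (.e (nat_lit 294931) (nat_lit 3) (.e (nat_lit 98372) (nat_lit 29) (.e (nat_lit 450579) (nat_lit 5) (.e (nat_lit 532484) (nat_lit 0) (.e (nat_lit 6200) (nat_lit 332) (.e (nat_lit 1365) (nat_lit 103) .nil)))))) (.g (nat_lit 4) .nil .nil)))) (.nd (nat_lit 6) 
(.lf (nat_lit 288048) (.g (nat_lit 1023) (.e (nat_lit 294931) (nat_lit 3) (.e (nat_lit 98353) (nat_lit 25) (.e (nat_lit 417810) (nat_lit 6) (.e (nat_lit 286735) (nat_lit 3) .nil)))) .nil)) 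
(.lf (nat_lit 288112) (.g (nat_lit 2513) (.e (nat_lit 294931) (nat_lit 3) (.e (nat_lit 98373) (nat_lit 29) (.e (nat_lit 450580) (nat_lit 5) (.e (nat_lit 532522) (nat_lit 7) (.e (nat_lit 319535) (nat_lit 17) .nil))))) .nil))))) (.nd (nat_lit 4) (.nd (nat_lit 5) (.nd (nat_lit 6) 
(.lf (nat_lit 288008) (.g (nat_lit 2863) (.e (nat_lit 294931) (nat_lit 3) (.e (nat_lit 98350) (nat_lit 24) (.e (nat_lit 409616) (nat_lit 10) (.e (nat_lit 5355) (nat_lit 298) (.e (nat_lit 1234) (nat_lit 91) (.e (nat_lit 90165) (nat_lit 12) (.e (nat_lit 164210) (nat_lit 176) (.e (nat_lit 2786) (nat_lit 179) .nil)))))))) (.g (nat_lit 4) .nil .nil))) 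
(.lf (nat_lit 288072) (.g (nat_lit 2014) (.e (nat_lit 294931) (nat_lit 3) (.e (nat_lit 98370) (nat_lit 28) (.e (nat_lit 442427) (nat_lit 23) (.e (nat_lit 204848) (nat_lit 25) .nil)))) .nil))) (.nd (nat_lit 6) 
(.lf (nat_lit 288040) (.g (nat_lit 2216) (.e (nat_lit 294931) (nat_lit 3) (.e (nat_lit 98350) (nat_lit 24) (.e (nat_lit 409649) (nat_lit 18) (.e (nat_lit 303111) (nat_lit 0) (.e (nat_lit 3252) (nat_lit 197) .nil))))) .nil)) 
(.lf (nat_lit 288104) (.g (nat_lit 1756) (.e (nat_lit 294931) (nat_lit 3) (.e (nat_lit 98373) (nat_lit 29) (.e (nat_lit 450579) (nat_lit 5) (.e (nat_lit 532480) (nat_lit 0) .nil)))) .nil)))) (.nd (nat_lit 5) (.nd (nat_lit 6) 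
(.lf (nat_lit 288024) (.g (nat_lit 3397) (.e (nat_lit 294931) (nat_lit 3) (.e (nat_lit 98350) (nat_lit 24) (.e (nat_lit 409641) (nat_lit 17) (.e (nat_lit 294928) (nat_lit 2) (.e (nat_lit 90165) (nat_lit 12) (.e (nat_lit 164210) (nat_lit 176) (.e (nat_lit 2786) (nat_lit 179) .nil))))))) (.g (nat_lit 4) .nil .nil))) 
(.lf (nat_lit 288088) (.g (nat_lit 1239) (.e (nat_lit 294931) (nat_lit 3) (.e (nat_lit 98372) (nat_lit 29) (.e (nat_lit 450579) (nat_lit 5) (.e (nat_lit 532499) (nat_lit 1) .nil)))) .nil))) (.nd (nat_lit 6) 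
(.lf (nat_lit 288056) (.g (nat_lit 770) (.e (nat_lit 294931) (nat_lit 3) (.e (nat_lit 98359) (nat_lit 26) (.e (nat_lit 426286) (nat_lit 10) .nil))) .nil)) 
(.lf (nat_lit 288120) (.g (nat_lit 2228) (.e (nat_lit 294931) (nat_lit 3) (.e (nat_lit 98373) (nat_lit 29) (.e (nat_lit 450587) (nat_lit 10) (.e (nat_lit 573449) (nat_lit 9) .nil)))) .nil)))))) (.nd (nat_lit 3) (.nd (nat_lit 4) (.nd (nat_lit 5) (.nd (nat_lit 6) 
(.lf (nat_lit 288004) (.g (nat_lit 1920) (.e (nat_lit 294931) (nat_lit 3) (.e (nat_lit 98349) (nat_lit 24) (.e (nat_lit 409641) (nat_lit 17) (.e (nat_lit 294928) (nat_lit 2) (.e (nat_lit 90165) (nat_lit 12) (.e (nat_lit 164210) (nat_lit 176) (.e (nat_lit 2786) (nat_lit 179) .nil))))))) (.g (nat_lit 4) .nil .nil))) 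
(.lf (nat_lit 288068) (.g (nat_lit 303) (.e (nat_lit 294931) (nat_lit 3) (.e (nat_lit 98370) (nat_lit 28) (.e (nat_lit 442427) (nat_lit 23) .nil))) .nil))) (.nd (nat_lit 6) 
(.lf (nat_lit 288036) (.g (nat_lit 2918) (.e (nat_lit 294931) (nat_lit 3) (.e (nat_lit 98350) (nat_lit 24) (.e (nat_lit 409648) (nat_lit 18) (.e (nat_lit 303112) (nat_lit 0) (.e (nat_lit 3252) (nat_lit 197) (.e (nat_lit 532526) (nat_lit 8) (.e (nat_lit 327697) (nat_lit 7) .nil))))))) (.g (nat_lit 4) .nil .nil))) 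
(.lf (nat_lit 288100) (.g (nat_lit 767) (.e (nat_lit 294931) (nat_lit 3) (.e (nat_lit 98373) (nat_lit 29) (.e (nat_lit 458496) (nat_lit 1) .nil))) .nil)))) (.nd (nat_lit 5) (.nd (nat_lit 6) 
(.lf (nat_lit 288020) (.g (nat_lit 1665) (.e (nat_lit 294931) (nat_lit 3) (.e (nat_lit 98350) (nat_lit 24) (.e (nat_lit 409640) (nat_lit 17) (.e (nat_lit 294928) (nat_lit 2) (.e (nat_lit 90165) (nat_lit 12) (.e (nat_lit 164210) (nat_lit 176) (.e (nat_lit 2786) (nat_lit 179) .nil))))))) (.g (nat_lit 4) .nil .nil))) 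
(.lf (nat_lit 288084) (.g (nat_lit 1141) (.e (nat_lit 294931) (nat_lit 3) (.e (nat_lit 98372) (nat_lit 29) (.e (nat_lit 450579) (nat_lit 5) (.e (nat_lit 532489) (nat_lit 0) .nil)))) .nil))) (.nd (nat_lit 6) 
(.lf (nat_lit 288052) (.g (nat_lit 1499) (.e (nat_lit 294931) (nat_lit 3) (.e (nat_lit 98358) (nat_lit 26) (.e (nat_lit 426270) (nat_lit 9) (.e (nat_lit 426123) (nat_lit 2) .nil)))) .nil)) 
(.lf (nat_lit 288116) (.g (nat_lit 2520) (.e (nat_lit 294931) (nat_lit 3) (.e (nat_lit 98373) (nat_lit 29) (.e (nat_lit 450581) (nat_lit 5) (.e (nat_lit 532522) (nat_lit 7) (.e (nat_lit 319536) (nat_lit 17) .nil))))) .nil))))) (.nd (nat_lit 4) (.nd (nat_lit 5) (.nd (nat_lit 6) 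
(.lf (nat_lit 288012) (.g (nat_lit 1363) (.e (nat_lit 294931) (nat_lit 3) (.e (nat_lit 98350) (nat_lit 24) (.e (nat_lit 409617) (nat_lit 10) (.e (nat_lit 5355) (nat_lit 298) .nil)))) .nil)) 
(.lf (nat_lit 288076) (.g (nat_lit 2166) (.e (nat_lit 294931) (nat_lit 3) (.e (nat_lit 98372) (nat_lit 29) (.e (nat_lit 450579) (nat_lit 5) (.e (nat_lit 532481) (nat_lit 0) (.e (nat_lit 6157) (nat_lit 332) .nil))))) .nil))) (.nd (nat_lit 6) 
(.lf (nat_lit 288044) (.g (nat_lit 1727) (.e (nat_lit 294931) (nat_lit 3) (.e (nat_lit 98350) (nat_lit 24) (.e (nat_lit 409649) (nat_lit 18) (.e (nat_lit 303112) (nat_lit 0) .nil)))) .nil)) 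
(.lf (nat_lit 288108) (.g (nat_lit 696) (.e (nat_lit 294931) (nat_lit 3) (.e (nat_lit 98373) (nat_lit 29) (.e (nat_lit 450580) (nat_lit 5) .nil))) .nil)))) (.nd (nat_lit 5) (.nd (nat_lit 6) 
(.lf (nat_lit 288028) (.g (nat_lit 2328) (.e (nat_lit 294931) (nat_lit 3) (.e (nat_lit 98350) (nat_lit 24) (.e (nat_lit 409643) (nat_lit 18) (.e (nat_lit 303119) (nat_lit 3) (.e (nat_lit 204849) (nat_lit 25) (.e (nat_lit 327697) (nat_lit 7) .nil)))))) (.g (nat_lit 0) .nil .nil))) 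
(.lf (nat_lit 288092) (.g (nat_lit 2921) (.e (nat_lit 294931) (nat_lit 3) (.e (nat_lit 98372) (nat_lit 29) (.e (nat_lit 450579) (nat_lit 5) (.e (nat_lit 532522) (nat_lit 7) (.e (nat_lit 319535) (nat_lit 17) .nil))))) (.g (nat_lit 0) .nil .nil)))) (.nd (nat_lit 6) 
(.lf (nat_lit 288060) (.g (nat_lit 419) (.e (nat_lit 294931) (nat_lit 3) (.e (nat_lit 98365) (nat_lit 26) (.e (nat_lit 426298) (nat_lit 11) .nil))) .nil)) 
(.lf (nat_lit 288124) (.g (nat_lit 3750) (.e (nat_lit 294931) (nat_lit 3) (.e (nat_lit 98373) (nat_lit 29) (.e (nat_lit 450587) (nat_lit 10) (.e (nat_lit 573454) (nat_lit 9) (.e (nat_lit 363) (nat_lit 31) .nil))))) .nil))))))) (.nd (nat_lit 2) (.nd (nat_lit 3) (.nd (nat_lit 4) (.nd (nat_lit 5) (.nd (nat_lit 6) 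
(.lf (nat_lit 288002) (.g (nat_lit 1655) (.e (nat_lit 294931) (nat_lit 3) (.e (nat_lit 98320) (nat_lit 17) (.e (nat_lit 7591) (nat_lit 407) (.e (nat_lit 73747) (nat_lit 3) (.e (nat_lit 516142) (nat_lit 8) .nil))))) .nil)) 
(.lf (nat_lit 288066) (.g (nat_lit 712) (.e (nat_lit 294931) (nat_lit 3) (.e (nat_lit 98370) (nat_lit 28) (.e (nat_lit 442423) (nat_lit 22) .nil))) .nil))) (.nd (nat_lit 6) 
(.lf (nat_lit 288034) (.g (nat_lit 1568) (.e (nat_lit 294931) (nat_lit 3) (.e (nat_lit 98350) (nat_lit 24) (.e (nat_lit 409648) (nat_lit 18) (.e (nat_lit 303108) (nat_lit 0) .nil)))) .nil)) 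
(.lf (nat_lit 288098) (.g (nat_lit 1076) (.e (nat_lit 294931) (nat_lit 3) (.e (nat_lit 98373) (nat_lit 29) (.e (nat_lit 450572) (nat_lit 1) .nil))) .nil)))) (.nd (nat_lit 5) (.nd (nat_lit 6) 
(.lf (nat_lit 288018) (.g (nat_lit 410) (.e (nat_lit 294931) (nat_lit 3) (.e (nat_lit 98350) (nat_lit 24) (.e (nat_lit 417536) (nat_lit 16) .nil))) .nil)) 
(.lf (nat_lit 288082) (.g (nat_lit 2634) (.e (nat_lit 294931) (nat_lit 3) (.e (nat_lit 98372) (nat_lit 29) (.e (nat_lit 450579) (nat_lit 5) (.e (nat_lit 532486) (nat_lit 0) (.e (nat_lit 6113) (nat_lit 332) (.e (nat_lit 1370) (nat_lit 103) .nil)))))) (.g (nat_lit 5) .nil .nil)))) (.nd (nat_lit 6) 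
(.lf (nat_lit 288050) (.g (nat_lit 1189) (.e (nat_lit 294931) (nat_lit 3) (.e (nat_lit 98358) (nat_lit 26) (.e (nat_lit 426241) (nat_lit 9) .nil))) .nil)) 
(.lf (nat_lit 288114) (.g (nat_lit 1796) (.e (nat_lit 294931) (nat_lit 3) (.e (nat_lit 98373) (nat_lit 29) (.e (nat_lit 450581) (nat_lit 5) (.e (nat_lit 532486) (nat_lit 0) (.e (nat_lit 6122) (nat_lit 332) .nil))))) .nil))))) (.nd (nat_lit 4) (.nd (nat_lit 5) (.nd (nat_lit 6) 
(.lf (nat_lit 288010) (.g (nat_lit 4270) (.e (nat_lit 294931) (nat_lit 3) (.e (nat_lit 98350) (nat_lit 24) (.e (nat_lit 409616) (nat_lit 10) (.e (nat_lit 5355) (nat_lit 298) (.e (nat_lit 1235) (nat_lit 91) (.e (nat_lit 90165) (nat_lit 12) (.e (nat_lit 164210) (nat_lit 176) (.e (nat_lit 2786) (nat_lit 179) .nil)))))))) (.g (nat_lit 6) .nil .nil))) 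
(.lf (nat_lit 288074) (.g (nat_lit 1293) (.e (nat_lit 294931) (nat_lit 3) (.e (nat_lit 98372) (nat_lit 29) (.e (nat_lit 450579) (nat_lit 5) (.e (nat_lit 532480) (nat_lit 0) .nil)))) .nil))) (.nd (nat_lit 6) 
(.lf (nat_lit 288042) (.g (nat_lit 4208) (.e (nat_lit 294931) (nat_lit 3) (.e (nat_lit 98350) (nat_lit 24) (.e (nat_lit 409649) (nat_lit 18) (.e (nat_lit 303111) (nat_lit 0) (.e (nat_lit 3271) (nat_lit 199) (.e (nat_lit 548898) (nat_lit 14) (.e (nat_lit 2828) (nat_lit 182) (.e (nat_lit 409641) (nat_lit 17) .nil)))))))) (.g (nat_lit 7) .nil .nil))) 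
(.lf (nat_lit 288106) (.g (nat_lit 2747) (.e (nat_lit 294931) (nat_lit 3) (.e (nat_lit 98373) (nat_lit 29) (.e (nat_lit 450579) (nat_lit 5) (.e (nat_lit 532522) (nat_lit 7) (.e (nat_lit 319535) (nat_lit 17) .nil))))) .nil)))) (.nd (nat_lit 5) (.nd (nat_lit 6) 
(.lf (nat_lit 288026) (.g (nat_lit 2110) (.e (nat_lit 294931) (nat_lit 3) (.e (nat_lit 98350) (nat_lit 24) (.e (nat_lit 409642) (nat_lit 17) (.e (nat_lit 294928) (nat_lit 2) .nil)))) .nil)) 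
(.lf (nat_lit 288090) (.g (nat_lit 1896) (.e (nat_lit 294931) (nat_lit 3) (.e (nat_lit 98372) (nat_lit 29) (.e (nat_lit 450579) (nat_lit 5) (.e (nat_lit 532503) (nat_lit 1) (.e (nat_lit 65280) (nat_lit 222) .nil))))) .nil))) (.nd (nat_lit 6) 
(.lf (nat_lit 288058) (.g (nat_lit 703) (.e (nat_lit 294931) (nat_lit 3) (.e (nat_lit 98365) (nat_lit 26) (.e (nat_lit 426296) (nat_lit 11) .nil))) .nil)) 
(.lf (nat_lit 288122) (.g (nat_lit 2806) (.e (nat_lit 294931) (nat_lit 3) (.e (nat_lit 98373) (nat_lit 29) (.e (nat_lit 450587) (nat_lit 10) (.e (nat_lit 573454) (nat_lit 9) .nil)))) .nil)))))) (.nd (nat_lit 3) (.nd (nat_lit 4) (.nd (nat_lit 5) (.nd (nat_lit 6) 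
(.lf (nat_lit 288006) (.g (nat_lit 1835) (.e (nat_lit 294931) (nat_lit 3) (.e (nat_lit 98350) (nat_lit 24) (.e (nat_lit 409616) (nat_lit 10) (.e (nat_lit 5345) (nat_lit 298) .nil)))) .nil)) 
(.lf (nat_lit 288070) (.g (nat_lit 1642) (.e (nat_lit 294931) (nat_lit 3) (.e (nat_lit 98370) (nat_lit 28) (.e (nat_lit 442427) (nat_lit 23) (.e (nat_lit 204845) (nat_lit 24) .nil)))) .nil))) (.nd (nat_lit 6) 
(.lf (nat_lit 288038) (.g (nat_lit 1304) (.e (nat_lit 294931) (nat_lit 3) (.e (nat_lit 98350) (nat_lit 24) (.e (nat_lit 409649) (nat_lit 18) (.e (nat_lit 303111) (nat_lit 0) .nil)))) .nil)) 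
(.lf (nat_lit 288102) (.g (nat_lit 836) (.e (nat_lit 294931) (nat_lit 3) (.e (nat_lit 98373) (nat_lit 29) (.e (nat_lit 450578) (nat_lit 5) .nil))) .nil)))) (.nd (nat_lit 5) (.nd (nat_lit 6) 
(.lf (nat_lit 288022) (.g (nat_lit 1740) (.e (nat_lit 294931) (nat_lit 3) (.e (nat_lit 98350) (nat_lit 24) (.e (nat_lit 409641) (nat_lit 17) (.e (nat_lit 294927) (nat_lit 2) .nil)))) .nil)) 
(.lf (nat_lit 288086) (.g (nat_lit 1641) (.e (nat_lit 294931) (nat_lit 3) (.e (nat_lit 98372) (nat_lit 29) (.e (nat_lit 450579) (nat_lit 5) (.e (nat_lit 532490) (nat_lit 0) .nil)))) .nil))) (.nd (nat_lit 6) 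
(.lf (nat_lit 288054) (.g (nat_lit 751) (.e (nat_lit 294931) (nat_lit 3) (.e (nat_lit 98359) (nat_lit 26) (.e (nat_lit 426211) (nat_lit 9) .nil))) .nil)) 
(.lf (nat_lit 288118) (.g (nat_lit 1077) (.e (nat_lit 294931) (nat_lit 3) (.e (nat_lit 98373) (nat_lit 29) (.e (nat_lit 450583) (nat_lit 7) .nil))) .nil))))) (.nd (nat_lit 4) (.nd (nat_lit 5) (.nd (nat_lit 6) 
(.lf (nat_lit 288014) (.g (nat_lit 2024) (.e (nat_lit 294931) (nat_lit 3) (.e (nat_lit 98350) (nat_lit 24) (.e (nat_lit 409617) (nat_lit 10) (.e (nat_lit 5355) (nat_lit 298) (.e (nat_lit 1235) (nat_lit 91) .nil))))) .nil)) 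
(.lf (nat_lit 288078) (.g (nat_lit 1172) (.e (nat_lit 294931) (nat_lit 3) (.e (nat_lit 98372) (nat_lit 29) (.e (nat_lit 450579) (nat_lit 5) (.e (nat_lit 532482) (nat_lit 0) .nil)))) .nil))) (.nd (nat_lit 6) 
(.lf (nat_lit 288046) (.g (nat_lit 2270) (.e (nat_lit 294931) (nat_lit 3) (.e (nat_lit 98350) (nat_lit 24) (.e (nat_lit 409649) (nat_lit 18) (.e (nat_lit 303119) (nat_lit 3) (.e (nat_lit 204848) (nat_lit 25) (.e (nat_lit 327697) (nat_lit 7) .nil)))))) (.g (nat_lit 4) .nil .nil))) 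
(.lf (nat_lit 288110) (.g (nat_lit 3607) (.e (nat_lit 294931) (nat_lit 3) (.e (nat_lit 98373) (nat_lit 29) (.e (nat_lit 450580) (nat_lit 5) (.e (nat_lit 532490) (nat_lit 0) (.e (nat_lit 6114) (nat_lit 332) (.e (nat_lit 1370) (nat_lit 103) .nil)))))) (.g (nat_lit 4) .nil .nil))))) (.nd (nat_lit 5) (.nd (nat_lit 6) 
(.lf (nat_lit 288030) (.g (nat_lit 2355) (.e (nat_lit 294931) (nat_lit 3) (.e (nat_lit 98350) (nat_lit 24) (.e (nat_lit 409646) (nat_lit 18) (.e (nat_lit 303112) (nat_lit 0) (.e (nat_lit 3252) (nat_lit 197) (.e (nat_lit 532526) (nat_lit 8) (.e (nat_lit 327697) (nat_lit 7) .nil))))))) (.g (nat_lit 4) .nil .nil))) 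
(.lf (nat_lit 288094) (.g (nat_lit 2138) (.e (nat_lit 294931) (nat_lit 3) (.e (nat_lit 98372) (nat_lit 29) (.e (nat_lit 450579) (nat_lit 5) (.e (nat_lit 532526) (nat_lit 8) (.e (nat_lit 335616) (nat_lit 17) .nil))))) (.g (nat_lit 4) .nil .nil)))) (.nd (nat_lit 6) 
(.lf (nat_lit 288062) (.g (nat_lit 842) (.e (nat_lit 294931) (nat_lit 3) (.e (nat_lit 98367) (nat_lit 27) (.e (nat_lit 434177) (nat_lit 0) .nil))) .nil)) 
(.lf (nat_lit 288126) (.g (nat_lit 2538) (.e (nat_lit 294931) (nat_lit 3) (.e (nat_lit 98373) (nat_lit 29) (.e (nat_lit 450587) (nat_lit 10) (.e (nat_lit 573457) (nat_lit 9) .nil)))) .nil)))))))) (.nd (nat_lit 1) (.nd (nat_lit 2) (.nd (nat_lit 3) (.nd (nat_lit 4) (.nd (nat_lit 5) (.nd (nat_lit 6) 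
(.lf (nat_lit 288001) (.g (nat_lit 983) (.e (nat_lit 294931) (nat_lit 3) (.e (nat_lit 98320) (nat_lit 17) (.e (nat_lit 7591) (nat_lit 407) (.e (nat_lit 73746) (nat_lit 3) .nil)))) .nil)) 
(.lf (nat_lit 288065) (.g (nat_lit 1018) (.e (nat_lit 294931) (nat_lit 3) (.e (nat_lit 98367) (nat_lit 27) (.e (nat_lit 434208) (nat_lit 18) .nil))) .nil))) (.nd (nat_lit 6) 
(.lf (nat_lit 288033) (.g (nat_lit 1997) (.e (nat_lit 294931) (nat_lit 3) (.e (nat_lit 98350) (nat_lit 24) (.e (nat_lit 409647) (nat_lit 18) (.e (nat_lit 303119) (nat_lit 3) (.e (nat_lit 204848) (nat_lit 25) .nil))))) .nil)) 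
(.lf (nat_lit 288097) (.g (nat_lit 1403) (.e (nat_lit 294931) (nat_lit 3) (.e (nat_lit 98373) (nat_lit 29) (.e (nat_lit 450571) (nat_lit 1) (.e (nat_lit 500083) (nat_lit 21) .nil)))) .nil)))) (.nd (nat_lit 5) (.nd (nat_lit 6) 
(.lf (nat_lit 288017) (.g (nat_lit 2770) (.e (nat_lit 294931) (nat_lit 3) (.e (nat_lit 98350) (nat_lit 24) (.e (nat_lit 409617) (nat_lit 10) (.e (nat_lit 5355) (nat_lit 298) (.e (nat_lit 1253) (nat_lit 92) (.e (nat_lit 98349) (nat_lit 24) (.e (nat_lit 409642) (nat_lit 17) .nil))))))) (.g (nat_lit 4) .nil .nil))) 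
(.lf (nat_lit 288081) (.g (nat_lit 1834) (.e (nat_lit 294931) (nat_lit 3) (.e (nat_lit 98372) (nat_lit 29) (.e (nat_lit 450579) (nat_lit 5) (.e (nat_lit 532484) (nat_lit 0) (.e (nat_lit 7936) (nat_lit 332) (.e (nat_lit 1365) (nat_lit 103) .nil)))))) (.g (nat_lit 4) .nil .nil)))) (.nd (nat_lit 6) 
(.lf (nat_lit 288049) (.g (nat_lit 997) (.e (nat_lit 294931) (nat_lit 3) (.e (nat_lit 98358) (nat_lit 26) (.e (nat_lit 426227) (nat_lit 9) (.e (nat_lit 433920) (nat_lit 3) .nil)))) .nil)) 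
(.lf (nat_lit 288113) (.g (nat_lit 1497) (.e (nat_lit 294931) (nat_lit 3) (.e (nat_lit 98373) (nat_lit 29) (.e (nat_lit 450581) (nat_lit 5) (.e (nat_lit 532486) (nat_lit 0) .nil)))) .nil))))) (.nd (nat_lit 4) (.nd (nat_lit 5) (.nd (nat_lit 6) 
(.lf (nat_lit 288009) (.g (nat_lit 2186) (.e (nat_lit 294931) (nat_lit 3) (.e (nat_lit 98350) (nat_lit 24) (.e (nat_lit 409616) (nat_lit 10) (.e (nat_lit 5355) (nat_lit 298) (.e (nat_lit 1235) (nat_lit 91) .nil))))) .nil)) 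
(.lf (nat_lit 288073) (.g (nat_lit 380) (.e (nat_lit 294931) (nat_lit 3) (.e (nat_lit 98372) (nat_lit 29) (.e (nat_lit 450579) (nat_lit 5) .nil))) .nil))) (.nd (nat_lit 6) 
(.lf (nat_lit 288041) (.g (nat_lit 4269) (.e (nat_lit 294931) (nat_lit 3) (.e (nat_lit 98350) (nat_lit 24) (.e (nat_lit 409649) (nat_lit 18) (.e (nat_lit 303111) (nat_lit 0) (.e (nat_lit 3271) (nat_lit 199) (.e (nat_lit 548898) (nat_lit 14) (.e (nat_lit 2824) (nat_lit 182) (.e (nat_lit 409642) (nat_lit 17) .nil)))))))) (.g (nat_lit 8) .nil .nil))) 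
(.lf (nat_lit 288105) (.g (nat_lit 2122) (.e (nat_lit 294931) (nat_lit 3) (.e (nat_lit 98373) (nat_lit 29) (.e (nat_lit 450579) (nat_lit 5) (.e (nat_lit 532486) (nat_lit 0) (.e (nat_lit 6113) (nat_lit 332) .nil))))) .nil)))) (.nd (nat_lit 5) (.nd (nat_lit 6) 
(.lf (nat_lit 288025) (.g (nat_lit 5932) (.e (nat_lit 294931) (nat_lit 3) (.e (nat_lit 98350) (nat_lit 24) (.e (nat_lit 409641) (nat_lit 17) (.e (nat_lit 294931) (nat_lit 3) (.e (nat_lit 98350) (nat_lit 24) (.e (nat_lit 409641) (nat_lit 17) .nil)))))) (.g (nat_lit 0) .nil .nil))) 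
(.lf (nat_lit 288089) (.g (nat_lit 2009) (.e (nat_lit 294931) (nat_lit 3) (.e (nat_lit 98372) (nat_lit 29) (.e (nat_lit 450579) (nat_lit 5) (.e (nat_lit 532501) (nat_lit 1) (.e (nat_lit 65280) (nat_lit 222) .nil))))) .nil))) (.nd (nat_lit 6) 
(.lf (nat_lit 288057) (.g (nat_lit 749) (.e (nat_lit 294931) (nat_lit 3) (.e (nat_lit 98365) (nat_lit 26) (.e (nat_lit 426188) (nat_lit 9) .nil))) .nil)) 
(.lf (nat_lit 288121) (.g (nat_lit 2324) (.e (nat_lit 294931) (nat_lit 3) (.e (nat_lit 98373) (nat_lit 29) (.e (nat_lit 450587) (nat_lit 10) (.e (nat_lit 573452) (nat_lit 9) .nil)))) .nil)))))) (.nd (nat_lit 3) (.nd (nat_lit 4) (.nd (nat_lit 5) (.nd (nat_lit 6) 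
(.lf (nat_lit 288005) (.g (nat_lit 927) (.e (nat_lit 294931) (nat_lit 3) (.e (nat_lit 98350) (nat_lit 24) (.e (nat_lit 409612) (nat_lit 10) .nil))) .nil)) 
(.lf (nat_lit 288069) (.g (nat_lit 1580) (.e (nat_lit 294931) (nat_lit 3) (.e (nat_lit 98370) (nat_lit 28) (.e (nat_lit 442427) (nat_lit 23) (.e (nat_lit 204821) (nat_lit 17) (.e (nat_lit 6136) (nat_lit 332) .nil))))) .nil))) (.nd (nat_lit 6) 
(.lf (nat_lit 288037) (.g (nat_lit 2233) (.e (nat_lit 294931) (nat_lit 3) (.e (nat_lit 98350) (nat_lit 24) (.e (nat_lit 409648) (nat_lit 18) (.e (nat_lit 303119) (nat_lit 3) (.e (nat_lit 204848) (nat_lit 25) .nil))))) .nil)) 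
(.lf (nat_lit 288101) (.g (nat_lit 1121) (.e (nat_lit 294931) (nat_lit 3) (.e (nat_lit 98373) (nat_lit 29) (.e (nat_lit 450576) (nat_lit 2) .nil))) .nil)))) (.nd (nat_lit 5) (.nd (nat_lit 6) 
(.lf (nat_lit 288021) (.g (nat_lit 3076) (.e (nat_lit 294931) (nat_lit 3) (.e (nat_lit 98350) (nat_lit 24) (.e (nat_lit 409640) (nat_lit 17) (.e (nat_lit 294931) (nat_lit 3) (.e (nat_lit 98350) (nat_lit 24) (.e (nat_lit 409640) (nat_lit 17) .nil)))))) (.g (nat_lit 0) .nil .nil))) 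
(.lf (nat_lit 288085) (.g (nat_lit 1751) (.e (nat_lit 294931) (nat_lit 3) (.e (nat_lit 98372) (nat_lit 29) (.e (nat_lit 450579) (nat_lit 5) (.e (nat_lit 532489) (nat_lit 0) (.e (nat_lit 7936) (nat_lit 332) (.e (nat_lit 1365) (nat_lit 103) .nil)))))) (.g (nat_lit 4) .nil .nil)))) (.nd (nat_lit 6) 
(.lf (nat_lit 288053) (.g (nat_lit 1057) (.e (nat_lit 294931) (nat_lit 3) (.e (nat_lit 98358) (nat_lit 26) (.e (nat_lit 426294) (nat_lit 11) (.e (nat_lit 466688) (nat_lit 19) .nil)))) .nil)) 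
(.lf (nat_lit 288117) (.g (nat_lit 2730) (.e (nat_lit 294931) (nat_lit 3) (.e (nat_lit 98373) (nat_lit 29) (.e (nat_lit 450581) (nat_lit 5) (.e (nat_lit 532523) (nat_lit 7) (.e (nat_lit 327424) (nat_lit 17) .nil))))) (.g (nat_lit 4) .nil .nil)))))) (.nd (nat_lit 4) (.nd (nat_lit 5) (.nd (nat_lit 6) 
(.lf (nat_lit 288013) (.g (nat_lit 2340) (.e (nat_lit 294931) (nat_lit 3) (.e (nat_lit 98350) (nat_lit 24) (.e (nat_lit 409617) (nat_lit 10) (.e (nat_lit 5355) (nat_lit 298) (.e (nat_lit 1234) (nat_lit 91) (.e (nat_lit 90165) (nat_lit 12) (.e (nat_lit 164210) (nat_lit 176) (.e (nat_lit 2786) (nat_lit 179) .nil)))))))) (.g (nat_lit 4) .nil .nil))) 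
(.lf (nat_lit 288077) (.g (nat_lit 2148) (.e (nat_lit 294931) (nat_lit 3) (.e (nat_lit 98372) (nat_lit 29) (.e (nat_lit 450579) (nat_lit 5) (.e (nat_lit 532481) (nat_lit 0) (.e (nat_lit 6192) (nat_lit 332) .nil))))) .nil))) (.nd (nat_lit 6) 
(.lf (nat_lit 288045) (.g (nat_lit 2701) (.e (nat_lit 294931) (nat_lit 3) (.e (nat_lit 98350) (nat_lit 24) (.e (nat_lit 409649) (nat_lit 18) (.e (nat_lit 303118) (nat_lit 3) (.e (nat_lit 204848) (nat_lit 25) (.e (nat_lit 327697) (nat_lit 7) .nil)))))) (.g (nat_lit 4) .nil .nil))) 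
(.lf (nat_lit 288109) (.g (nat_lit 1922) (.e (nat_lit 294931) (nat_lit 3) (.e (nat_lit 98373) (nat_lit 29) (.e (nat_lit 450580) (nat_lit 5) (.e (nat_lit 532486) (nat_lit 0) .nil)))) .nil)))) (.nd (nat_lit 5) (.nd (nat_lit 6) 
(.lf (nat_lit 288029) (.g (nat_lit 1750) (.e (nat_lit 294931) (nat_lit 3) (.e (nat_lit 98350) (nat_lit 24) (.e (nat_lit 409644) (nat_lit 18) (.e (nat_lit 303112) (nat_lit 0) (.e (nat_lit 3252) (nat_lit 197) .nil))))) .nil)) 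
(.lf (nat_lit 288093) (.g (nat_lit 1862) (.e (nat_lit 294931) (nat_lit 3) (.e (nat_lit 98372) (nat_lit 29) (.e (nat_lit 450579) (nat_lit 5) (.e (nat_lit 532525) (nat_lit 8) (.e (nat_lit 335616) (nat_lit 17) .nil))))) .nil))) (.nd (nat_lit 6) 
(.lf (nat_lit 288061) (.g (nat_lit 1779) (.e (nat_lit 294931) (nat_lit 3) (.e (nat_lit 98365) (nat_lit 26) (.e (nat_lit 426298) (nat_lit 11) (.e (nat_lit 458789) (nat_lit 23) (.e (nat_lit 532525) (nat_lit 8) (.e (nat_lit 335616) (nat_lit 17) .nil)))))) (.g (nat_lit 4) .nil .nil))) 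
(.lf (nat_lit 288125) (.g (nat_lit 3066) (.e (nat_lit 294931) (nat_lit 3) (.e (nat_lit 98373) (nat_lit 29) (.e (nat_lit 450587) (nat_lit 10) (.e (nat_lit 573456) (nat_lit 9) .nil)))) .nil))))))) (.nd (nat_lit 2) (.nd (nat_lit 3) (.nd (nat_lit 4) (.nd (nat_lit 5) (.nd (nat_lit 6) 
(.lf (nat_lit 288003) (.g (nat_lit 1134) (.e (nat_lit 294931) (nat_lit 3) (.e (nat_lit 98349) (nat_lit 24) (.e (nat_lit 409640) (nat_lit 17) (.e (nat_lit 294928) (nat_lit 2) .nil)))) .nil)) 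
(.lf (nat_lit 288067) (.g (nat_lit 1480) (.e (nat_lit 294931) (nat_lit 3) (.e (nat_lit 98370) (nat_lit 28) (.e (nat_lit 442424) (nat_lit 22) (.e (nat_lit 196628) (nat_lit 9) .nil)))) .nil))) (.nd (nat_lit 6) 
(.lf (nat_lit 288035) (.g (nat_lit 4765) (.e (nat_lit 294931) (nat_lit 3) (.e (nat_lit 98350) (nat_lit 24) (.e (nat_lit 409648) (nat_lit 18) (.e (nat_lit 303108) (nat_lit 0) (.e (nat_lit 3272) (nat_lit 199) (.e (nat_lit 548897) (nat_lit 14) (.e (nat_lit 2828) (nat_lit 182) (.e (nat_lit 409642) (nat_lit 17) .nil)))))))) (.g (nat_lit 8) .nil .nil))) 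
(.lf (nat_lit 288099) (.g (nat_lit 1024) (.e (nat_lit 294931) (nat_lit 3) (.e (nat_lit 98373) (nat_lit 29) (.e (nat_lit 450573) (nat_lit 1) .nil))) .nil)))) (.nd (nat_lit 5) (.nd (nat_lit 6) 
(.lf (nat_lit 288019) (.g (nat_lit 1862) (.e (nat_lit 294931) (nat_lit 3) (.e (nat_lit 98350) (nat_lit 24) (.e (nat_lit 417536) (nat_lit 16) (.e (nat_lit 286733) (nat_lit 2) (.e (nat_lit 90165) (nat_lit 12) (.e (nat_lit 164210) (nat_lit 176) (.e (nat_lit 2786) (nat_lit 179) .nil))))))) (.g (nat_lit 5) .nil .nil))) 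
(.lf (nat_lit 288083) (.g (nat_lit 1387) (.e (nat_lit 294931) (nat_lit 3) (.e (nat_lit 98372) (nat_lit 29) (.e (nat_lit 450579) (nat_lit 5) (.e (nat_lit 532488) (nat_lit 0) .nil)))) .nil))) (.nd (nat_lit 6) 
(.lf (nat_lit 288051) (.g (nat_lit 1275) (.e (nat_lit 294931) (nat_lit 3) (.e (nat_lit 98358) (nat_lit 26) (.e (nat_lit 426270) (nat_lit 9) .nil))) .nil)) 
(.lf (nat_lit 288115) (.g (nat_lit 2176) (.e (nat_lit 294931) (nat_lit 3) (.e (nat_lit 98373) (nat_lit 29) (.e (nat_lit 450581) (nat_lit 5) (.e (nat_lit 532522) (nat_lit 7) (.e (nat_lit 319535) (nat_lit 17) .nil))))) .nil))))) (.nd (nat_lit 4) (.nd (nat_lit 5) (.nd (nat_lit 6) 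
(.lf (nat_lit 288011) (.g (nat_lit 3125) (.e (nat_lit 294931) (nat_lit 3) (.e (nat_lit 98350) (nat_lit 24) (.e (nat_lit 409616) (nat_lit 10) (.e (nat_lit 5355) (nat_lit 298) (.e (nat_lit 1253) (nat_lit 92) (.e (nat_lit 98349) (nat_lit 24) (.e (nat_lit 409642) (nat_lit 17) .nil))))))) (.g (nat_lit 4) .nil .nil))) 
(.lf (nat_lit 288075) (.g (nat_lit 1289) (.e (nat_lit 294931) (nat_lit 3) (.e (nat_lit 98372) (nat_lit 29) (.e (nat_lit 450579) (nat_lit 5) (.e (nat_lit 532481) (nat_lit 0) .nil)))) .nil))) (.nd (nat_lit 6) 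
(.lf (nat_lit 288043) (.g (nat_lit 1842) (.e (nat_lit 294931) (nat_lit 3) (.e (nat_lit 98350) (nat_lit 24) (.e (nat_lit 409649) (nat_lit 18) (.e (nat_lit 303111) (nat_lit 0) (.e (nat_lit 3272) (nat_lit 199) .nil))))) .nil)) 
(.lf (nat_lit 288107) (.g (nat_lit 2901) (.e (nat_lit 294931) (nat_lit 3) (.e (nat_lit 98373) (nat_lit 29) (.e (nat_lit 450579) (nat_lit 5) (.e (nat_lit 532522) (nat_lit 7) (.e (nat_lit 319536) (nat_lit 17) .nil))))) .nil)))) (.nd (nat_lit 5) (.nd (nat_lit 6) 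
(.lf (nat_lit 288027) (.g (nat_lit 2083) (.e (nat_lit 294931) (nat_lit 3) (.e (nat_lit 98350) (nat_lit 24) (.e (nat_lit 409642) (nat_lit 17) (.e (nat_lit 294931) (nat_lit 3) .nil)))) .nil)) 
(.lf (nat_lit 288091) (.g (nat_lit 1926) (.e (nat_lit 294931) (nat_lit 3) (.e (nat_lit 98372) (nat_lit 29) (.e (nat_lit 450579) (nat_lit 5) (.e (nat_lit 532504) (nat_lit 1) (.e (nat_lit 65280) (nat_lit 222) .nil))))) .nil))) (.nd (nat_lit 6) 
(.lf (nat_lit 288059) (.g (nat_lit 1773) (.e (nat_lit 294931) (nat_lit 3) (.e (nat_lit 98365) (nat_lit 26) (.e (nat_lit 426297) (nat_lit 11) (.e (nat_lit 458789) (nat_lit 23) (.e (nat_lit 532525) (nat_lit 8) .nil))))) .nil)) 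
(.lf (nat_lit 288123) (.g (nat_lit 3705) (.e (nat_lit 294931) (nat_lit 3) (.e (nat_lit 98373) (nat_lit 29) (.e (nat_lit 450587) (nat_lit 10) (.e (nat_lit 573454) (nat_lit 9) (.e (nat_lit 4) (nat_lit 0) .nil))))) .nil)))))) (.nd (nat_lit 3) (.nd (nat_lit 4) (.nd (nat_lit 5) (.nd (nat_lit 6) 
(.lf (nat_lit 288007) (.g (nat_lit 1539) (.e (nat_lit 294931) (nat_lit 3) (.e (nat_lit 98350) (nat_lit 24) (.e (nat_lit 409616) (nat_lit 10) (.e (nat_lit 5355) (nat_lit 298) .nil)))) .nil)) 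
(.lf (nat_lit 288071) (.g (nat_lit 2882) (.e (nat_lit 294931) (nat_lit 3) (.e (nat_lit 98370) (nat_lit 28) (.e (nat_lit 442427) (nat_lit 23) (.e (nat_lit 204845) (nat_lit 24) (.e (nat_lit 319535) (nat_lit 17) .nil))))) .nil))) (.nd (nat_lit 6) 
(.lf (nat_lit 288039) (.g (nat_lit 2157) (.e (nat_lit 294931) (nat_lit 3) (.e (nat_lit 98350) (nat_lit 24) (.e (nat_lit 409649) (nat_lit 18) (.e (nat_lit 303111) (nat_lit 0) (.e (nat_lit 3238) (nat_lit 197) (.e (nat_lit 532526) (nat_lit 8) (.e (nat_lit 327697) (nat_lit 7) .nil))))))) (.g (nat_lit 4) .nil .nil))) 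
(.lf (nat_lit 288103) (.g (nat_lit 625) (.e (nat_lit 294931) (nat_lit 3) (.e (nat_lit 98373) (nat_lit 29) (.e (nat_lit 450579) (nat_lit 5) .nil))) .nil)))) (.nd (nat_lit 5) (.nd (nat_lit 6) 
(.lf (nat_lit 288023) (.g (nat_lit 1758) (.e (nat_lit 294931) (nat_lit 3) (.e (nat_lit 98350) (nat_lit 24) (.e (nat_lit 409641) (nat_lit 17) (.e (nat_lit 294928) (nat_lit 2) .nil)))) .nil)) 
(.lf (nat_lit 288087) (.g (nat_lit 1684) (.e (nat_lit 294931) (nat_lit 3) (.e (nat_lit 98372) (nat_lit 29) (.e (nat_lit 450579) (nat_lit 5) (.e (nat_lit 532496) (nat_lit 0) .nil)))) .nil))) (.nd (nat_lit 6) 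
(.lf (nat_lit 288055) (.g (nat_lit 1526) (.e (nat_lit 294931) (nat_lit 3) (.e (nat_lit 98359) (nat_lit 26) (.e (nat_lit 426211) (nat_lit 9) (.e (nat_lit 426125) (nat_lit 2) .nil)))) .nil)) 
(.lf (nat_lit 288119) (.g (nat_lit 3842) (.e (nat_lit 294931) (nat_lit 3) (.e (nat_lit 98373) (nat_lit 29) (.e (nat_lit 450587) (nat_lit 10) (.e (nat_lit 573448) (nat_lit 9) .nil)))) .nil))))) (.nd (nat_lit 4) (.nd (nat_lit 5) (.nd (nat_lit 6) 
(.lf (nat_lit 288015) (.g (nat_lit 3766) (.e (nat_lit 294931) (nat_lit 3) (.e (nat_lit 98350) (nat_lit 24) (.e (nat_lit 409617) (nat_lit 10) (.e (nat_lit 5355) (nat_lit 298) (.e (nat_lit 1235) (nat_lit 91) (.e (nat_lit 90165) (nat_lit 12) (.e (nat_lit 164210) (nat_lit 176) (.e (nat_lit 2786) (nat_lit 179) .nil)))))))) (.g (nat_lit 6) .nil .nil))) 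
(.lf (nat_lit 288079) (.g (nat_lit 1782) (.e (nat_lit 294931) (nat_lit 3) (.e (nat_lit 98372) (nat_lit 29) (.e (nat_lit 450579) (nat_lit 5) (.e (nat_lit 532482) (nat_lit 0) (.e (nat_lit 6192) (nat_lit 332) .nil))))) .nil))) (.nd (nat_lit 6) 
(.lf (nat_lit 288047) (.g (nat_lit 3006) (.e (nat_lit 294931) (nat_lit 3) (.e (nat_lit 98350) (nat_lit 24) (.e (nat_lit 409649) (nat_lit 18) (.e (nat_lit 303119) (nat_lit 3) (.e (nat_lit 204849) (nat_lit 25) (.e (nat_lit 327697) (nat_lit 7) .nil)))))) (.g (nat_lit 0) .nil .nil))) 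
(.lf (nat_lit 288111) (.g (nat_lit 1878) (.e (nat_lit 294931) (nat_lit 3) (.e (nat_lit 98373) (nat_lit 29) (.e (nat_lit 450580) (nat_lit 5) (.e (nat_lit 532522) (nat_lit 7) .nil)))) .nil)))) (.nd (nat_lit 5) (.nd (nat_lit 6) 
(.lf (nat_lit 288031) (.g (nat_lit 1187) (.e (nat_lit 294931) (nat_lit 3) (.e (nat_lit 98350) (nat_lit 24) (.e (nat_lit 409647) (nat_lit 18) (.e (nat_lit 303112) (nat_lit 0) .nil)))) .nil)) 
(.lf (nat_lit 288095) (.g (nat_lit 2494) (.e (nat_lit 294931) (nat_lit 3) (.e (nat_lit 98373) (nat_lit 29) (.e (nat_lit 450562) (nat_lit 0) (.e (nat_lit 4284) (nat_lit 253) .nil)))) .nil))) (.nd (nat_lit 6) 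
(.lf (nat_lit 288063) (.g (nat_lit 917) (.e (nat_lit 294931) (nat_lit 3) (.e (nat_lit 98367) (nat_lit 27) (.e (nat_lit 434180) (nat_lit 0) .nil))) .nil)) 
(.lf (nat_lit 288127) (.g (nat_lit 3271) (.e (nat_lit 294931) (nat_lit 3) (.e (nat_lit 98373) (nat_lit 29) (.e (nat_lit 450587) (nat_lit 10) (.e (nat_lit 573457) (nat_lit 9) (.e (nat_lit 13) (nat_lit 0) (.e (nat_lit 6953) (nat_lit 377) (.e (nat_lit 1367) (nat_lit 103) .nil))))))) (.g (nat_lit 4) .nil .nil))))))))))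

noncomputable def tv3646 : DT := (.nd (nat_lit 0) (.nd (nat_lit 1) (.nd (nat_lit 2) (.nd (nat_lit 3) (.nd (nat_lit 4) (.nd (nat_lit 5) (.nd (nat_lit 6) 
(.lf (nat_lit 288128) (.g (nat_lit 3927) (.e (nat_lit 294931) (nat_lit 3) (.e (nat_lit 98373) (nat_lit 29) (.e (nat_lit 450587) (nat_lit 10) (.e (nat_lit 573472) (nat_lit 12) .nil)))) .nil)) 
(.lf (nat_lit 288192) (.g (nat_lit 3272) (.e (nat_lit 294931) (nat_lit 3) (.e (nat_lit 98373) (nat_lit 29) (.e (nat_lit 450588) (nat_lit 10) (.e (nat_lit 573474) (nat_lit 12) (.e (nat_lit 57347) (nat_lit 0) .nil))))) .nil))) (.nd (nat_lit 6) 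
(.lf (nat_lit 288160) (.g (nat_lit 3631) (.e (nat_lit 294931) (nat_lit 3) (.e (nat_lit 98373) (nat_lit 29) (.e (nat_lit 450587) (nat_lit 10) (.e (nat_lit 573475) (nat_lit 12) (.e (nat_lit 57569) (nat_lit 53) (.e (nat_lit 761857) (nat_lit 0) (.e (nat_lit 2783) (nat_lit 179) .nil))))))) (.g (nat_lit 5) .nil .nil))) 
(.lf (nat_lit 288224) (.g (nat_lit 1024) (.e (nat_lit 294935) (nat_lit 7) (.e (nat_lit 319531) (nat_lit 16) (.e (nat_lit 286739) (nat_lit 7) .nil))) .nil)))) (.nd (nat_lit 5) (.nd (nat_lit 6) 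
(.lf (nat_lit 288144) (.g (nat_lit 3979) (.e (nat_lit 294931) (nat_lit 3) (.e (nat_lit 98373) (nat_lit 29) (.e (nat_lit 450587) (nat_lit 10) (.e (nat_lit 573475) (nat_lit 12) (.e (nat_lit 57344) (nat_lit 0) (.e (nat_lit 7250) (nat_lit 383) (.e (nat_lit 8210) (nat_lit 8) .nil))))))) (.g (nat_lit 4) .nil .nil))) 
(.lf (nat_lit 288208) (.g (nat_lit 4401) (.e (nat_lit 294931) (nat_lit 3) (.e (nat_lit 98373) (nat_lit 29) (.e (nat_lit 450588) (nat_lit 10) (.e (nat_lit 573475) (nat_lit 12) (.e (nat_lit 57354) (nat_lit 0) (.e (nat_lit 7255) (nat_lit 383) (.e (nat_lit 8210) (nat_lit 8) .nil))))))) (.g (nat_lit 4) .nil .nil)))) (.nd (nat_lit 6) 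
(.lf (nat_lit 288176) (.g (nat_lit 3667) (.e (nat_lit 294931) (nat_lit 3) (.e (nat_lit 98373) (nat_lit 29) (.e (nat_lit 450588) (nat_lit 10) (.e (nat_lit 573451) (nat_lit 9) (.e (nat_lit 359) (nat_lit 30) .nil))))) .nil)) 
(.lf (nat_lit 288240) (.g (nat_lit 2222) (.e (nat_lit 294938) (nat_lit 9) (.e (nat_lit 336395) (nat_lit 27) (.e (nat_lit 426340) (nat_lit 14) (.e (nat_lit 491566) (nat_lit 12) (.e (nat_lit 385032) (nat_lit 16) (.e (nat_lit 1364) (nat_lit 103) .nil)))))) (.g (nat_lit 4) .nil .nil)))))) (.nd (nat_lit 4) (.nd (nat_lit 5) (.nd (nat_lit 6) 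
(.lf (nat_lit 288136) (.g (nat_lit 2673) (.e (nat_lit 294931) (nat_lit 3) (.e (nat_lit 98373) (nat_lit 29) (.e (nat_lit 450587) (nat_lit 10) (.e (nat_lit 573473) (nat_lit 12) (.e (nat_lit 57354) (nat_lit 0) .nil))))) .nil)) 
(.lf (nat_lit 288200) (.g (nat_lit 3911) (.e (nat_lit 294931) (nat_lit 3) (.e (nat_lit 98373) (nat_lit 29) (.e (nat_lit 450588) (nat_lit 10) (.e (nat_lit 573474) (nat_lit 12) (.e (nat_lit 57572) (nat_lit 54) (.e (nat_lit 770048) (nat_lit 0) (.e (nat_lit 2783) (nat_lit 179) .nil))))))) (.g (nat_lit 5) .nil .nil)))) (.nd (nat_lit 6) 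
(.lf (nat_lit 288168) (.g (nat_lit 3765) (.e (nat_lit 294931) (nat_lit 3) (.e (nat_lit 98373) (nat_lit 29) (.e (nat_lit 450588) (nat_lit 10) (.e (nat_lit 573448) (nat_lit 9) .nil)))) .nil)) 
(.lf (nat_lit 288232) (.g (nat_lit 1002) (.e (nat_lit 294937) (nat_lit 9) (.e (nat_lit 336013) (nat_lit 2) (.e (nat_lit 90187) (nat_lit 18) .nil))) .nil)))) (.nd (nat_lit 5) (.nd (nat_lit 6) 
(.lf (nat_lit 288152) (.g (nat_lit 3362) (.e (nat_lit 294931) (nat_lit 3) (.e (nat_lit 98373) (nat_lit 29) (.e (nat_lit 450587) (nat_lit 10) (.e (nat_lit 573475) (nat_lit 12) (.e (nat_lit 57350) (nat_lit 0) .nil))))) .nil)) 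
(.lf (nat_lit 288216) (.g (nat_lit 2066) (.e (nat_lit 294931) (nat_lit 3) (.e (nat_lit 98389) (nat_lit 33) (.e (nat_lit 491546) (nat_lit 9) (.e (nat_lit 336028) (nat_lit 3) (.e (nat_lit 98325) (nat_lit 17) (.e (nat_lit 7008) (nat_lit 377) (.e (nat_lit 2786) (nat_lit 179) .nil))))))) (.g (nat_lit 4) .nil .nil)))) (.nd (nat_lit 6) 
(.lf (nat_lit 288184) (.g (nat_lit 2702) (.e (nat_lit 294931) (nat_lit 3) (.e (nat_lit 98373) (nat_lit 29) (.e (nat_lit 450588) (nat_lit 10) (.e (nat_lit 573467) (nat_lit 10) .nil)))) .nil)) 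
(.lf (nat_lit 288248) (.g (nat_lit 1728) (.e (nat_lit 294938) (nat_lit 9) (.e (nat_lit 336430) (nat_lit 29) (.e (nat_lit 442430) (nat_lit 24) (.e (nat_lit 229678) (nat_lit 244) (.e (nat_lit 163899) (nat_lit 11) (.e (nat_lit 417812) (nat_lit 7) .nil)))))) (.g (nat_lit 4) .nil .nil))))))) (.nd (nat_lit 3) (.nd (nat_lit 4) (.nd (nat_lit 5) (.nd (nat_lit 6) 
(.lf (nat_lit 288132) (.g (nat_lit 2981) (.e (nat_lit 294931) (nat_lit 3) (.e (nat_lit 98373) (nat_lit 29) (.e (nat_lit 450587) (nat_lit 10) (.e (nat_lit 573473) (nat_lit 12) (.e (nat_lit 57350) (nat_lit 0) .nil))))) .nil)) 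
(.lf (nat_lit 288196) (.g (nat_lit 4067) (.e (nat_lit 294931) (nat_lit 3) (.e (nat_lit 98373) (nat_lit 29) (.e (nat_lit 450588) (nat_lit 10) (.e (nat_lit 573474) (nat_lit 12) (.e (nat_lit 57354) (nat_lit 0) (.e (nat_lit 7255) (nat_lit 383) (.e (nat_lit 8210) (nat_lit 8) .nil))))))) (.g (nat_lit 4) .nil .nil)))) (.nd (nat_lit 6) 
(.lf (nat_lit 288164) (.g (nat_lit 2944) (.e (nat_lit 294931) (nat_lit 3) (.e (nat_lit 98373) (nat_lit 29) (.e (nat_lit 450587) (nat_lit 10) (.e (nat_lit 573477) (nat_lit 12) .nil)))) .nil)) 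
(.lf (nat_lit 288228) (.g (nat_lit 982) (.e (nat_lit 294935) (nat_lit 7) (.e (nat_lit 319534) (nat_lit 16) (.e (nat_lit 286756) (nat_lit 10) .nil))) .nil)))) (.nd (nat_lit 5) (.nd (nat_lit 6) 
(.lf (nat_lit 288148) (.g (nat_lit 3069) (.e (nat_lit 294931) (nat_lit 3) (.e (nat_lit 98373) (nat_lit 29) (.e (nat_lit 450587) (nat_lit 10) (.e (nat_lit 573475) (nat_lit 12) (.e (nat_lit 57345) (nat_lit 0) (.e (nat_lit 6927) (nat_lit 372) (.e (nat_lit 8306) (nat_lit 59) .nil))))))) (.g (nat_lit 4) .nil .nil))) 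
(.lf (nat_lit 288212) (.g (nat_lit 2313) (.e (nat_lit 294931) (nat_lit 3) (.e (nat_lit 98374) (nat_lit 29) (.e (nat_lit 450580) (nat_lit 5) (.e (nat_lit 532523) (nat_lit 7) (.e (nat_lit 319536) (nat_lit 17) .nil))))) .nil))) (.nd (nat_lit 6) 
(.lf (nat_lit 288180) (.g (nat_lit 3439) (.e (nat_lit 294931) (nat_lit 3) (.e (nat_lit 98373) (nat_lit 29) (.e (nat_lit 450588) (nat_lit 10) (.e (nat_lit 573454) (nat_lit 9) .nil)))) .nil)) 
(.lf (nat_lit 288244) (.g (nat_lit 1117) (.e (nat_lit 294938) (nat_lit 9) (.e (nat_lit 336395) (nat_lit 27) (.e (nat_lit 426340) (nat_lit 14) (.e (nat_lit 491566) (nat_lit 12) (.e (nat_lit 392960) (nat_lit 16) (.e (nat_lit 1365) (nat_lit 103) .nil)))))) (.g (nat_lit 4) .nil .nil)))))) (.nd (nat_lit 4) (.nd (nat_lit 5) (.nd (nat_lit 6) 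
(.lf (nat_lit 288140) (.g (nat_lit 2636) (.e (nat_lit 294931) (nat_lit 3) (.e (nat_lit 98373) (nat_lit 29) (.e (nat_lit 450587) (nat_lit 10) (.e (nat_lit 573473) (nat_lit 12) (.e (nat_lit 57569) (nat_lit 53) (.e (nat_lit 761859) (nat_lit 0) (.e (nat_lit 2783) (nat_lit 179) .nil))))))) (.g (nat_lit 4) .nil .nil))) 
(.lf (nat_lit 288204) (.g (nat_lit 3110) (.e (nat_lit 294931) (nat_lit 3) (.e (nat_lit 98373) (nat_lit 29) (.e (nat_lit 450588) (nat_lit 10) (.e (nat_lit 573475) (nat_lit 12) .nil)))) .nil))) (.nd (nat_lit 6) 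
(.lf (nat_lit 288172) (.g (nat_lit 2412) (.e (nat_lit 294931) (nat_lit 3) (.e (nat_lit 98373) (nat_lit 29) (.e (nat_lit 450588) (nat_lit 10) (.e (nat_lit 573451) (nat_lit 9) .nil)))) .nil)) 
(.lf (nat_lit 288236) (.g (nat_lit 4411) (.e (nat_lit 294938) (nat_lit 9) (.e (nat_lit 336324) (nat_lit 18) (.e (nat_lit 204831) (nat_lit 18) (.e (nat_lit 57830) (nat_lit 250) (.e (nat_lit 1201) (nat_lit 88) (.e (nat_lit 65543) (nat_lit 0) (.e (nat_lit 2383) (nat_lit 155) (.e (nat_lit 811026) (nat_lit 8) .nil)))))))) (.g (nat_lit 4) .nil .nil))))) (.nd (nat_lit 5) (.nd (nat_lit 6) 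
(.lf (nat_lit 288156) (.g (nat_lit 3148) (.e (nat_lit 294931) (nat_lit 3) (.e (nat_lit 98373) (nat_lit 29) (.e (nat_lit 450587) (nat_lit 10) (.e (nat_lit 573475) (nat_lit 12) (.e (nat_lit 57356) (nat_lit 0) .nil))))) .nil)) 
(.lf (nat_lit 288220) (.g (nat_lit 3736) (.e (nat_lit 294931) (nat_lit 3) (.e (nat_lit 98389) (nat_lit 33) (.e (nat_lit 491560) (nat_lit 10) (.e (nat_lit 344117) (nat_lit 21) (.e (nat_lit 516141) (nat_lit 8) (.e (nat_lit 417827) (nat_lit 17) .nil)))))) (.g (nat_lit 5) .nil .nil)))) (.nd (nat_lit 6) 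
(.lf (nat_lit 288188) (.g (nat_lit 4655) (.e (nat_lit 294931) (nat_lit 3) (.e (nat_lit 98373) (nat_lit 29) (.e (nat_lit 450588) (nat_lit 10) (.e (nat_lit 573473) (nat_lit 12) (.e (nat_lit 57350) (nat_lit 0) (.e (nat_lit 7250) (nat_lit 383) (.e (nat_lit 8210) (nat_lit 8) .nil))))))) (.g (nat_lit 4) .nil .nil))) 
(.lf (nat_lit 288252) (.g (nat_lit 3360) (.e (nat_lit 294938) (nat_lit 9) (.e (nat_lit 336443) (nat_lit 32) (.e (nat_lit 466972) (nat_lit 21) (.e (nat_lit 164402) (nat_lit 256) (.e (nat_lit 57400) (nat_lit 10) (.e (nat_lit 319535) (nat_lit 17) .nil)))))) (.g (nat_lit 6) .nil .nil)))))))) (.nd (nat_lit 2) (.nd (nat_lit 3) (.nd (nat_lit 4) (.nd (nat_lit 5) (.nd (nat_lit 6) 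
(.lf (nat_lit 288130) (.g (nat_lit 2970) (.e (nat_lit 294931) (nat_lit 3) (.e (nat_lit 98373) (nat_lit 29) (.e (nat_lit 450587) (nat_lit 10) (.e (nat_lit 573473) (nat_lit 12) (.e (nat_lit 57347) (nat_lit 0) (.e (nat_lit 7247) (nat_lit 383) (.e (nat_lit 8210) (nat_lit 8) .nil))))))) (.g (nat_lit 4) .nil .nil))) 
(.lf (nat_lit 288194) (.g (nat_lit 3776) (.e (nat_lit 294931) (nat_lit 3) (.e (nat_lit 98373) (nat_lit 29) (.e (nat_lit 450588) (nat_lit 10) (.e (nat_lit 573474) (nat_lit 12) (.e (nat_lit 57353) (nat_lit 0) .nil))))) .nil))) (.nd (nat_lit 6) 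
(.lf (nat_lit 288162) (.g (nat_lit 2530) (.e (nat_lit 294931) (nat_lit 3) (.e (nat_lit 98373) (nat_lit 29) (.e (nat_lit 450587) (nat_lit 10) (.e (nat_lit 573475) (nat_lit 12) (.e (nat_lit 57571) (nat_lit 54) .nil))))) .nil)) 
(.lf (nat_lit 288226) (.g (nat_lit 2139) (.e (nat_lit 294935) (nat_lit 7) (.e (nat_lit 319533) (nat_lit 16) (.e (nat_lit 286753) (nat_lit 10) (.e (nat_lit 344157) (nat_lit 36) (.e (nat_lit 638985) (nat_lit 5) (.e (nat_lit 2828) (nat_lit 182) (.e (nat_lit 417536) (nat_lit 7) .nil))))))) (.g (nat_lit 5) .nil .nil))))) (.nd (nat_lit 5) (.nd (nat_lit 6) 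
(.lf (nat_lit 288146) (.g (nat_lit 4003) (.e (nat_lit 294931) (nat_lit 3) (.e (nat_lit 98373) (nat_lit 29) (.e (nat_lit 450587) (nat_lit 10) (.e (nat_lit 573475) (nat_lit 12) (.e (nat_lit 57344) (nat_lit 0) (.e (nat_lit 7256) (nat_lit 383) (.e (nat_lit 8210) (nat_lit 8) .nil))))))) (.g (nat_lit 4) .nil .nil))) 
(.lf (nat_lit 288210) (.g (nat_lit 4310) (.e (nat_lit 294931) (nat_lit 3) (.e (nat_lit 98373) (nat_lit 29) (.e (nat_lit 450588) (nat_lit 10) (.e (nat_lit 573475) (nat_lit 12) (.e (nat_lit 57356) (nat_lit 0) (.e (nat_lit 7255) (nat_lit 383) (.e (nat_lit 8210) (nat_lit 8) .nil))))))) (.g (nat_lit 4) .nil .nil)))) (.nd (nat_lit 6) 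
(.lf (nat_lit 288178) (.g (nat_lit 2801) (.e (nat_lit 294931) (nat_lit 3) (.e (nat_lit 98373) (nat_lit 29) (.e (nat_lit 450588) (nat_lit 10) (.e (nat_lit 573452) (nat_lit 9) .nil)))) .nil)) 
(.lf (nat_lit 288242) (.g (nat_lit 2171) (.e (nat_lit 294938) (nat_lit 9) (.e (nat_lit 336395) (nat_lit 27) (.e (nat_lit 426340) (nat_lit 14) (.e (nat_lit 491566) (nat_lit 12) (.e (nat_lit 385036) (nat_lit 16) (.e (nat_lit 1365) (nat_lit 103) .nil)))))) (.g (nat_lit 4) .nil .nil)))))) (.nd (nat_lit 4) (.nd (nat_lit 5) (.nd (nat_lit 6) 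
(.lf (nat_lit 288138) (.g (nat_lit 2908) (.e (nat_lit 294931) (nat_lit 3) (.e (nat_lit 98373) (nat_lit 29) (.e (nat_lit 450587) (nat_lit 10) (.e (nat_lit 573473) (nat_lit 12) (.e (nat_lit 57357) (nat_lit 0) .nil))))) .nil)) 
(.lf (nat_lit 288202) (.g (nat_lit 4062) (.e (nat_lit 294931) (nat_lit 3) (.e (nat_lit 98373) (nat_lit 29) (.e (nat_lit 450588) (nat_lit 10) (.e (nat_lit 573474) (nat_lit 12) (.e (nat_lit 57572) (nat_lit 54) (.e (nat_lit 770052) (nat_lit 0) (.e (nat_lit 2783) (nat_lit 179) .nil))))))) (.g (nat_lit 5) .nil .nil)))) (.nd (nat_lit 6) 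
(.lf (nat_lit 288170) (.g (nat_lit 3952) (.e (nat_lit 294931) (nat_lit 3) (.e (nat_lit 98373) (nat_lit 29) (.e (nat_lit 450588) (nat_lit 10) (.e (nat_lit 573449) (nat_lit 9) (.e (nat_lit 368) (nat_lit 31) .nil))))) .nil)) 
(.lf (nat_lit 288234) (.g (nat_lit 3302) (.e (nat_lit 294937) (nat_lit 9) (.e (nat_lit 336028) (nat_lit 3) (.e (nat_lit 98350) (nat_lit 24) (.e (nat_lit 409648) (nat_lit 18) (.e (nat_lit 303108) (nat_lit 0) .nil))))) .nil)))) (.nd (nat_lit 5) (.nd (nat_lit 6) 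
(.lf (nat_lit 288154) (.g (nat_lit 3274) (.e (nat_lit 294931) (nat_lit 3) (.e (nat_lit 98373) (nat_lit 29) (.e (nat_lit 450587) (nat_lit 10) (.e (nat_lit 573475) (nat_lit 12) (.e (nat_lit 57353) (nat_lit 0) (.e (nat_lit 7247) (nat_lit 383) (.e (nat_lit 8210) (nat_lit 8) .nil))))))) (.g (nat_lit 4) .nil .nil))) 
(.lf (nat_lit 288218) (.g (nat_lit 3972) (.e (nat_lit 294931) (nat_lit 3) (.e (nat_lit 98389) (nat_lit 33) (.e (nat_lit 491546) (nat_lit 9) (.e (nat_lit 336028) (nat_lit 3) (.e (nat_lit 98350) (nat_lit 24) (.e (nat_lit 409641) (nat_lit 17) .nil)))))) (.g (nat_lit 5) .nil .nil)))) (.nd (nat_lit 6) 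
(.lf (nat_lit 288186) (.g (nat_lit 3369) (.e (nat_lit 294931) (nat_lit 3) (.e (nat_lit 98373) (nat_lit 29) (.e (nat_lit 450588) (nat_lit 10) (.e (nat_lit 573473) (nat_lit 12) .nil)))) .nil)) 
(.lf (nat_lit 288250) (.g (nat_lit 761) (.e (nat_lit 294938) (nat_lit 9) (.e (nat_lit 336443) (nat_lit 32) (.e (nat_lit 474880) (nat_lit 4) .nil))) .nil)))))) (.nd (nat_lit 3) (.nd (nat_lit 4) (.nd (nat_lit 5) (.nd (nat_lit 6) 
(.lf (nat_lit 288134) (.g (nat_lit 2718) (.e (nat_lit 294931) (nat_lit 3) (.e (nat_lit 98373) (nat_lit 29) (.e (nat_lit 450587) (nat_lit 10) (.e (nat_lit 573473) (nat_lit 12) (.e (nat_lit 57352) (nat_lit 0) .nil))))) .nil)) 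
(.lf (nat_lit 288198) (.g (nat_lit 3848) (.e (nat_lit 294931) (nat_lit 3) (.e (nat_lit 98373) (nat_lit 29) (.e (nat_lit 450588) (nat_lit 10) (.e (nat_lit 573474) (nat_lit 12) (.e (nat_lit 57569) (nat_lit 53) .nil))))) .nil))) (.nd (nat_lit 6) 
(.lf (nat_lit 288166) (.g (nat_lit 3343) (.e (nat_lit 294931) (nat_lit 3) (.e (nat_lit 98373) (nat_lit 29) (.e (nat_lit 450588) (nat_lit 10) (.e (nat_lit 581376) (nat_lit 0) .nil)))) .nil)) 
(.lf (nat_lit 288230) (.g (nat_lit 2149) (.e (nat_lit 294937) (nat_lit 9) (.e (nat_lit 336013) (nat_lit 2) (.e (nat_lit 90165) (nat_lit 12) (.e (nat_lit 171776) (nat_lit 192) .nil)))) .nil)))) (.nd (nat_lit 5) (.nd (nat_lit 6) 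
(.lf (nat_lit 288150) (.g (nat_lit 4169) (.e (nat_lit 294931) (nat_lit 3) (.e (nat_lit 98373) (nat_lit 29) (.e (nat_lit 450587) (nat_lit 10) (.e (nat_lit 573475) (nat_lit 12) (.e (nat_lit 57347) (nat_lit 0) (.e (nat_lit 7247) (nat_lit 383) (.e (nat_lit 8210) (nat_lit 8) .nil))))))) (.g (nat_lit 5) .nil .nil))) 
(.lf (nat_lit 288214) (.g (nat_lit 515) (.e (nat_lit 294931) (nat_lit 3) (.e (nat_lit 98381) (nat_lit 31) (.e (nat_lit 466978) (nat_lit 23) .nil))) .nil))) (.nd (nat_lit 6) 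
(.lf (nat_lit 288182) (.g (nat_lit 4131) (.e (nat_lit 294931) (nat_lit 3) (.e (nat_lit 98373) (nat_lit 29) (.e (nat_lit 450588) (nat_lit 10) (.e (nat_lit 573457) (nat_lit 9) (.e (nat_lit 365) (nat_lit 31) .nil))))) .nil)) 
(.lf (nat_lit 288246) (.g (nat_lit 644) (.e (nat_lit 294938) (nat_lit 9) (.e (nat_lit 336430) (nat_lit 29) (.e (nat_lit 442376) (nat_lit 0) .nil))) .nil))))) (.nd (nat_lit 4) (.nd (nat_lit 5) (.nd (nat_lit 6) 
(.lf (nat_lit 288142) (.g (nat_lit 3885) (.e (nat_lit 294931) (nat_lit 3) (.e (nat_lit 98373) (nat_lit 29) (.e (nat_lit 450587) (nat_lit 10) (.e (nat_lit 573475) (nat_lit 12) (.e (nat_lit 57344) (nat_lit 0) (.e (nat_lit 7247) (nat_lit 383) (.e (nat_lit 8210) (nat_lit 8) .nil))))))) (.g (nat_lit 4) .nil .nil))) 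
(.lf (nat_lit 288206) (.g (nat_lit 5674) (.e (nat_lit 294931) (nat_lit 3) (.e (nat_lit 98373) (nat_lit 29) (.e (nat_lit 450588) (nat_lit 10) (.e (nat_lit 573475) (nat_lit 12) (.e (nat_lit 57347) (nat_lit 0) (.e (nat_lit 7247) (nat_lit 383) (.e (nat_lit 8210) (nat_lit 8) .nil))))))) (.g (nat_lit 5) .nil .nil)))) (.nd (nat_lit 6) 
(.lf (nat_lit 288174) (.g (nat_lit 3808) (.e (nat_lit 294931) (nat_lit 3) (.e (nat_lit 98373) (nat_lit 29) (.e (nat_lit 450588) (nat_lit 10) (.e (nat_lit 573451) (nat_lit 9) (.e (nat_lit 11) (nat_lit 0) (.e (nat_lit 6950) (nat_lit 377) (.e (nat_lit 1367) (nat_lit 103) .nil))))))) (.g (nat_lit 4) .nil .nil))) 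
(.lf (nat_lit 288238) (.g (nat_lit 1634) (.e (nat_lit 294938) (nat_lit 9) (.e (nat_lit 336369) (nat_lit 27) (.e (nat_lit 426173) (nat_lit 7) (.e (nat_lit 409649) (nat_lit 18) (.e (nat_lit 311040) (nat_lit 25) .nil))))) .nil)))) (.nd (nat_lit 5) (.nd (nat_lit 6) 
(.lf (nat_lit 288158) (.g (nat_lit 3089) (.e (nat_lit 294931) (nat_lit 3) (.e (nat_lit 98373) (nat_lit 29) (.e (nat_lit 450587) (nat_lit 10) (.e (nat_lit 573475) (nat_lit 12) (.e (nat_lit 57568) (nat_lit 53) .nil))))) .nil)) 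
(.lf (nat_lit 288222) (.g (nat_lit 2091) (.e (nat_lit 294934) (nat_lit 6) (.e (nat_lit 147494) (nat_lit 11) (.e (nat_lit 24660) (nat_lit 13) (.e (nat_lit 393260) (nat_lit 21) (.e (nat_lit 409640) (nat_lit 17) .nil))))) (.g (nat_lit 5) .nil .nil)))) (.nd (nat_lit 6) 
(.lf (nat_lit 288190) (.g (nat_lit 1726) (.e (nat_lit 294931) (nat_lit 3) (.e (nat_lit 98373) (nat_lit 29) (.e (nat_lit 450588) (nat_lit 10) (.e (nat_lit 573474) (nat_lit 12) .nil)))) .nil)) 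
(.lf (nat_lit 288254) (.g (nat_lit 704) (.e (nat_lit 294938) (nat_lit 9) (.e (nat_lit 336454) (nat_lit 34) (.e (nat_lit 491264) (nat_lit 3) .nil))) .nil)))))))) (.nd (nat_lit 1) (.nd (nat_lit 2) (.nd (nat_lit 3) (.nd (nat_lit 4) (.nd (nat_lit 5) (.nd (nat_lit 6) 
(.lf (nat_lit 288129) (.g (nat_lit 1803) (.e (nat_lit 294931) (nat_lit 3) (.e (nat_lit 98373) (nat_lit 29) (.e (nat_lit 450587) (nat_lit 10) (.e (nat_lit 573473) (nat_lit 12) .nil)))) .nil)) 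
(.lf (nat_lit 288193) (.g (nat_lit 3539) (.e (nat_lit 294931) (nat_lit 3) (.e (nat_lit 98373) (nat_lit 29) (.e (nat_lit 450588) (nat_lit 10) (.e (nat_lit 573474) (nat_lit 12) (.e (nat_lit 57348) (nat_lit 0) .nil))))) .nil))) (.nd (nat_lit 6) 
(.lf (nat_lit 288161) (.g (nat_lit 3513) (.e (nat_lit 294931) (nat_lit 3) (.e (nat_lit 98373) (nat_lit 29) (.e (nat_lit 450587) (nat_lit 10) (.e (nat_lit 573475) (nat_lit 12) (.e (nat_lit 57569) (nat_lit 53) (.e (nat_lit 761859) (nat_lit 0) (.e (nat_lit 2783) (nat_lit 179) .nil))))))) (.g (nat_lit 5) .nil .nil))) 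
(.lf (nat_lit 288225) (.g (nat_lit 2093) (.e (nat_lit 294935) (nat_lit 7) (.e (nat_lit 319531) (nat_lit 16) (.e (nat_lit 286756) (nat_lit 10) (.e (nat_lit 344157) (nat_lit 36) .nil)))) .nil)))) (.nd (nat_lit 5) (.nd (nat_lit 6) 
(.lf (nat_lit 288145) (.g (nat_lit 3736) (.e (nat_lit 294931) (nat_lit 3) (.e (nat_lit 98373) (nat_lit 29) (.e (nat_lit 450587) (nat_lit 10) (.e (nat_lit 573475) (nat_lit 12) (.e (nat_lit 57344) (nat_lit 0) (.e (nat_lit 7253) (nat_lit 383) (.e (nat_lit 8210) (nat_lit 8) .nil))))))) (.g (nat_lit 4) .nil .nil))) 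
(.lf (nat_lit 288209) (.g (nat_lit 4145) (.e (nat_lit 294931) (nat_lit 3) (.e (nat_lit 98373) (nat_lit 29) (.e (nat_lit 450588) (nat_lit 10) (.e (nat_lit 573475) (nat_lit 12) (.e (nat_lit 57356) (nat_lit 0) (.e (nat_lit 7254) (nat_lit 383) (.e (nat_lit 8210) (nat_lit 8) .nil))))))) (.g (nat_lit 4) .nil .nil)))) (.nd (nat_lit 6) 
(.lf (nat_lit 288177) (.g (nat_lit 4450) (.e (nat_lit 294931) (nat_lit 3) (.e (nat_lit 98373) (nat_lit 29) (.e (nat_lit 450588) (nat_lit 10) (.e (nat_lit 573451) (nat_lit 9) (.e (nat_lit 365) (nat_lit 31) (.e (nat_lit 417812) (nat_lit 7) .nil)))))) (.g (nat_lit 5) .nil .nil))) 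
(.lf (nat_lit 288241) (.g (nat_lit 2256) (.e (nat_lit 294938) (nat_lit 9) (.e (nat_lit 336395) (nat_lit 27) (.e (nat_lit 426340) (nat_lit 14) (.e (nat_lit 491566) (nat_lit 12) (.e (nat_lit 385032) (nat_lit 16) (.e (nat_lit 1371) (nat_lit 103) .nil)))))) (.g (nat_lit 4) .nil .nil)))))) (.nd (nat_lit 4) (.nd (nat_lit 5) (.nd (nat_lit 6) 
(.lf (nat_lit 288137) (.g (nat_lit 3175) (.e (nat_lit 294931) (nat_lit 3) (.e (nat_lit 98373) (nat_lit 29) (.e (nat_lit 450587) (nat_lit 10) (.e (nat_lit 573473) (nat_lit 12) (.e (nat_lit 57354) (nat_lit 0) (.e (nat_lit 7255) (nat_lit 383) (.e (nat_lit 8210) (nat_lit 8) .nil))))))) (.g (nat_lit 4) .nil .nil))) 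
(.lf (nat_lit 288201) (.g (nat_lit 4398) (.e (nat_lit 294931) (nat_lit 3) (.e (nat_lit 98373) (nat_lit 29) (.e (nat_lit 450588) (nat_lit 10) (.e (nat_lit 573474) (nat_lit 12) (.e (nat_lit 57572) (nat_lit 54) (.e (nat_lit 770051) (nat_lit 0) (.e (nat_lit 2783) (nat_lit 179) .nil))))))) (.g (nat_lit 5) .nil .nil)))) (.nd (nat_lit 6) 
(.lf (nat_lit 288169) (.g (nat_lit 2997) (.e (nat_lit 294931) (nat_lit 3) (.e (nat_lit 98373) (nat_lit 29) (.e (nat_lit 450588) (nat_lit 10) (.e (nat_lit 573449) (nat_lit 9) .nil)))) .nil)) 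
(.lf (nat_lit 288233) (.g (nat_lit 2339) (.e (nat_lit 294937) (nat_lit 9) (.e (nat_lit 336028) (nat_lit 3) (.e (nat_lit 98350) (nat_lit 24) (.e (nat_lit 409648) (nat_lit 18) .nil)))) .nil)))) (.nd (nat_lit 5) (.nd (nat_lit 6) 
(.lf (nat_lit 288153) (.g (nat_lit 3849) (.e (nat_lit 294931) (nat_lit 3) (.e (nat_lit 98373) (nat_lit 29) (.e (nat_lit 450587) (nat_lit 10) (.e (nat_lit 573475) (nat_lit 12) (.e (nat_lit 57350) (nat_lit 0) (.e (nat_lit 7250) (nat_lit 383) (.e (nat_lit 8210) (nat_lit 8) .nil))))))) (.g (nat_lit 4) .nil .nil))) 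
(.lf (nat_lit 288217) (.g (nat_lit 2138) (.e (nat_lit 294931) (nat_lit 3) (.e (nat_lit 98389) (nat_lit 33) (.e (nat_lit 491546) (nat_lit 9) (.e (nat_lit 336028) (nat_lit 3) (.e (nat_lit 98349) (nat_lit 24) (.e (nat_lit 409642) (nat_lit 17) .nil)))))) (.g (nat_lit 4) .nil .nil)))) (.nd (nat_lit 6) 
(.lf (nat_lit 288185) (.g (nat_lit 2605) (.e (nat_lit 294931) (nat_lit 3) (.e (nat_lit 98373) (nat_lit 29) (.e (nat_lit 450588) (nat_lit 10) (.e (nat_lit 573468) (nat_lit 10) .nil)))) .nil)) 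
(.lf (nat_lit 288249) (.g (nat_lit 369) (.e (nat_lit 294938) (nat_lit 9) (.e (nat_lit 336438) (nat_lit 31) (.e (nat_lit 466688) (nat_lit 4) .nil))) .nil)))))) (.nd (nat_lit 3) (.nd (nat_lit 4) (.nd (nat_lit 5) (.nd (nat_lit 6) 
(.lf (nat_lit 288133) (.g (nat_lit 3441) (.e (nat_lit 294931) (nat_lit 3) (.e (nat_lit 98373) (nat_lit 29) (.e (nat_lit 450587) (nat_lit 10) (.e (nat_lit 573473) (nat_lit 12) (.e (nat_lit 57350) (nat_lit 0) (.e (nat_lit 7250) (nat_lit 383) (.e (nat_lit 8210) (nat_lit 8) .nil))))))) (.g (nat_lit 4) .nil .nil))) 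
(.lf (nat_lit 288197) (.g (nat_lit 3905) (.e (nat_lit 294931) (nat_lit 3) (.e (nat_lit 98373) (nat_lit 29) (.e (nat_lit 450588) (nat_lit 10) (.e (nat_lit 573474) (nat_lit 12) (.e (nat_lit 57356) (nat_lit 0) .nil))))) .nil))) (.nd (nat_lit 6) 
(.lf (nat_lit 288165) (.g (nat_lit 2737) (.e (nat_lit 294931) (nat_lit 3) (.e (nat_lit 98373) (nat_lit 29) (.e (nat_lit 450587) (nat_lit 10) (.e (nat_lit 573478) (nat_lit 12) .nil)))) .nil)) 
(.lf (nat_lit 288229) (.g (nat_lit 817) (.e (nat_lit 294937) (nat_lit 9) (.e (nat_lit 336013) (nat_lit 2) (.e (nat_lit 90165) (nat_lit 12) .nil))) .nil)))) (.nd (nat_lit 5) (.nd (nat_lit 6) 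
(.lf (nat_lit 288149) (.g (nat_lit 3139) (.e (nat_lit 294931) (nat_lit 3) (.e (nat_lit 98373) (nat_lit 29) (.e (nat_lit 450587) (nat_lit 10) (.e (nat_lit 573475) (nat_lit 12) (.e (nat_lit 57346) (nat_lit 0) (.e (nat_lit 7258) (nat_lit 383) (.e (nat_lit 8210) (nat_lit 8) .nil))))))) (.g (nat_lit 4) .nil .nil))) 
(.lf (nat_lit 288213) (.g (nat_lit 1139) (.e (nat_lit 294931) (nat_lit 3) (.e (nat_lit 98374) (nat_lit 29) (.e (nat_lit 450580) (nat_lit 5) (.e (nat_lit 532525) (nat_lit 8) .nil)))) .nil))) (.nd (nat_lit 6) 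
(.lf (nat_lit 288181) (.g (nat_lit 3853) (.e (nat_lit 294931) (nat_lit 3) (.e (nat_lit 98373) (nat_lit 29) (.e (nat_lit 450588) (nat_lit 10) (.e (nat_lit 573457) (nat_lit 9) .nil)))) .nil)) 
(.lf (nat_lit 288245) (.g (nat_lit 234) (.e (nat_lit 294938) (nat_lit 9) (.e (nat_lit 336421) (nat_lit 28) (.e (nat_lit 442112) (nat_lit 4) .nil))) .nil))))) (.nd (nat_lit 4) (.nd (nat_lit 5) (.nd (nat_lit 6) 
(.lf (nat_lit 288141) (.g (nat_lit 1734) (.e (nat_lit 294931) (nat_lit 3) (.e (nat_lit 98373) (nat_lit 29) (.e (nat_lit 450587) (nat_lit 10) (.e (nat_lit 573475) (nat_lit 12) .nil)))) .nil)) 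
(.lf (nat_lit 288205) (.g (nat_lit 4280) (.e (nat_lit 294931) (nat_lit 3) (.e (nat_lit 98373) (nat_lit 29) (.e (nat_lit 450588) (nat_lit 10) (.e (nat_lit 573475) (nat_lit 12) (.e (nat_lit 57344) (nat_lit 0) (.e (nat_lit 7251) (nat_lit 383) (.e (nat_lit 8210) (nat_lit 8) .nil))))))) (.g (nat_lit 4) .nil .nil)))) (.nd (nat_lit 6) 
(.lf (nat_lit 288173) (.g (nat_lit 3560) (.e (nat_lit 294931) (nat_lit 3) (.e (nat_lit 98373) (nat_lit 29) (.e (nat_lit 450588) (nat_lit 10) (.e (nat_lit 573451) (nat_lit 9) (.e (nat_lit 11) (nat_lit 0) .nil))))) .nil)) 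
(.lf (nat_lit 288237) (.g (nat_lit 1035) (.e (nat_lit 294938) (nat_lit 9) (.e (nat_lit 336369) (nat_lit 27) (.e (nat_lit 426173) (nat_lit 7) (.e (nat_lit 409649) (nat_lit 18) .nil)))) .nil)))) (.nd (nat_lit 5) (.nd (nat_lit 6) 
(.lf (nat_lit 288157) (.g (nat_lit 3692) (.e (nat_lit 294931) (nat_lit 3) (.e (nat_lit 98373) (nat_lit 29) (.e (nat_lit 450587) (nat_lit 10) (.e (nat_lit 573475) (nat_lit 12) (.e (nat_lit 57358) (nat_lit 0) .nil))))) .nil)) 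
(.lf (nat_lit 288221) (.g (nat_lit 3247) (.e (nat_lit 294931) (nat_lit 3) (.e (nat_lit 98389) (nat_lit 33) (.e (nat_lit 491560) (nat_lit 10) (.e (nat_lit 344118) (nat_lit 21) (.e (nat_lit 516142) (nat_lit 8) (.e (nat_lit 417827) (nat_lit 17) .nil)))))) (.g (nat_lit 6) .nil .nil)))) (.nd (nat_lit 6) 
(.lf (nat_lit 288189) (.g (nat_lit 4218) (.e (nat_lit 294931) (nat_lit 3) (.e (nat_lit 98373) (nat_lit 29) (.e (nat_lit 450588) (nat_lit 10) (.e (nat_lit 573473) (nat_lit 12) (.e (nat_lit 57569) (nat_lit 53) .nil))))) .nil)) 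
(.lf (nat_lit 288253) (.g (nat_lit 2523) (.e (nat_lit 294938) (nat_lit 9) (.e (nat_lit 336443) (nat_lit 32) (.e (nat_lit 466972) (nat_lit 21) (.e (nat_lit 164403) (nat_lit 256) (.e (nat_lit 57402) (nat_lit 11) .nil))))) .nil))))))) (.nd (nat_lit 2) (.nd (nat_lit 3) (.nd (nat_lit 4) (.nd (nat_lit 5) (.nd (nat_lit 6) 
(.lf (nat_lit 288131) (.g (nat_lit 2861) (.e (nat_lit 294931) (nat_lit 3) (.e (nat_lit 98373) (nat_lit 29) (.e (nat_lit 450587) (nat_lit 10) (.e (nat_lit 573473) (nat_lit 12) (.e (nat_lit 57348) (nat_lit 0) (.e (nat_lit 7247) (nat_lit 383) (.e (nat_lit 8210) (nat_lit 8) .nil))))))) (.g (nat_lit 4) .nil .nil))) 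
(.lf (nat_lit 288195) (.g (nat_lit 3661) (.e (nat_lit 294931) (nat_lit 3) (.e (nat_lit 98373) (nat_lit 29) (.e (nat_lit 450588) (nat_lit 10) (.e (nat_lit 573474) (nat_lit 12) (.e (nat_lit 57354) (nat_lit 0) .nil))))) .nil))) (.nd (nat_lit 6) 
(.lf (nat_lit 288163) (.g (nat_lit 2962) (.e (nat_lit 294931) (nat_lit 3) (.e (nat_lit 98373) (nat_lit 29) (.e (nat_lit 450587) (nat_lit 10) (.e (nat_lit 573475) (nat_lit 12) (.e (nat_lit 57572) (nat_lit 54) (.e (nat_lit 770051) (nat_lit 0) (.e (nat_lit 2783) (nat_lit 179) .nil))))))) (.g (nat_lit 5) .nil .nil))) 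
(.lf (nat_lit 288227) (.g (nat_lit 1116) (.e (nat_lit 294935) (nat_lit 7) (.e (nat_lit 319534) (nat_lit 16) (.e (nat_lit 286739) (nat_lit 7) .nil))) .nil)))) (.nd (nat_lit 5) (.nd (nat_lit 6) 
(.lf (nat_lit 288147) (.g (nat_lit 3855) (.e (nat_lit 294931) (nat_lit 3) (.e (nat_lit 98373) (nat_lit 29) (.e (nat_lit 450587) (nat_lit 10) (.e (nat_lit 573475) (nat_lit 12) (.e (nat_lit 57344) (nat_lit 0) (.e (nat_lit 7257) (nat_lit 383) (.e (nat_lit 8210) (nat_lit 8) .nil))))))) (.g (nat_lit 4) .nil .nil))) 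
(.lf (nat_lit 288211) (.g (nat_lit 3939) (.e (nat_lit 294931) (nat_lit 3) (.e (nat_lit 98373) (nat_lit 29) (.e (nat_lit 450588) (nat_lit 10) (.e (nat_lit 573475) (nat_lit 12) (.e (nat_lit 57568) (nat_lit 53) .nil))))) .nil))) (.nd (nat_lit 6) 
(.lf (nat_lit 288179) (.g (nat_lit 4344) (.e (nat_lit 294931) (nat_lit 3) (.e (nat_lit 98373) (nat_lit 29) (.e (nat_lit 450588) (nat_lit 10) (.e (nat_lit 573453) (nat_lit 9) .nil)))) .nil)) 
(.lf (nat_lit 288243) (.g (nat_lit 840) (.e (nat_lit 294938) (nat_lit 9) (.e (nat_lit 336395) (nat_lit 27) (.e (nat_lit 426340) (nat_lit 14) (.e (nat_lit 491566) (nat_lit 12) (.e (nat_lit 392960) (nat_lit 16) .nil))))) .nil))))) (.nd (nat_lit 4) (.nd (nat_lit 5) (.nd (nat_lit 6) 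
(.lf (nat_lit 288139) (.g (nat_lit 2748) (.e (nat_lit 294931) (nat_lit 3) (.e (nat_lit 98373) (nat_lit 29) (.e (nat_lit 450587) (nat_lit 10) (.e (nat_lit 573473) (nat_lit 12) (.e (nat_lit 57569) (nat_lit 53) (.e (nat_lit 761857) (nat_lit 0) (.e (nat_lit 2783) (nat_lit 179) .nil))))))) (.g (nat_lit 4) .nil .nil))) 
(.lf (nat_lit 288203) (.g (nat_lit 2808) (.e (nat_lit 294931) (nat_lit 3) (.e (nat_lit 98373) (nat_lit 29) (.e (nat_lit 450588) (nat_lit 10) (.e (nat_lit 573474) (nat_lit 12) (.e (nat_lit 57572) (nat_lit 54) (.e (nat_lit 770052) (nat_lit 0) (.e (nat_lit 2786) (nat_lit 179) .nil))))))) (.g (nat_lit 4) .nil .nil)))) (.nd (nat_lit 6) 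
(.lf (nat_lit 288171) (.g (nat_lit 3160) (.e (nat_lit 294931) (nat_lit 3) (.e (nat_lit 98373) (nat_lit 29) (.e (nat_lit 450588) (nat_lit 10) (.e (nat_lit 573450) (nat_lit 9) .nil)))) .nil)) 
(.lf (nat_lit 288235) (.g (nat_lit 2192) (.e (nat_lit 294937) (nat_lit 9) (.e (nat_lit 336028) (nat_lit 3) (.e (nat_lit 98350) (nat_lit 24) (.e (nat_lit 409649) (nat_lit 18) .nil)))) .nil)))) (.nd (nat_lit 5) (.nd (nat_lit 6) 
(.lf (nat_lit 288155) (.g (nat_lit 3941) (.e (nat_lit 294931) (nat_lit 3) (.e (nat_lit 98373) (nat_lit 29) (.e (nat_lit 450587) (nat_lit 10) (.e (nat_lit 573475) (nat_lit 12) (.e (nat_lit 57354) (nat_lit 0) (.e (nat_lit 7253) (nat_lit 383) (.e (nat_lit 8210) (nat_lit 8) .nil))))))) (.g (nat_lit 5) .nil .nil))) 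
(.lf (nat_lit 288219) (.g (nat_lit 1922) (.e (nat_lit 294931) (nat_lit 3) (.e (nat_lit 98389) (nat_lit 33) (.e (nat_lit 491560) (nat_lit 10) (.e (nat_lit 344116) (nat_lit 21) .nil)))) .nil))) (.nd (nat_lit 6) 
(.lf (nat_lit 288187) (.g (nat_lit 4585) (.e (nat_lit 294931) (nat_lit 3) (.e (nat_lit 98373) (nat_lit 29) (.e (nat_lit 450588) (nat_lit 10) (.e (nat_lit 573473) (nat_lit 12) (.e (nat_lit 57347) (nat_lit 0) (.e (nat_lit 7247) (nat_lit 383) (.e (nat_lit 8210) (nat_lit 8) .nil))))))) (.g (nat_lit 4) .nil .nil))) 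
(.lf (nat_lit 288251) (.g (nat_lit 2361) (.e (nat_lit 294938) (nat_lit 9) (.e (nat_lit 336443) (nat_lit 32) (.e (nat_lit 466971) (nat_lit 21) (.e (nat_lit 164403) (nat_lit 256) (.e (nat_lit 57400) (nat_lit 10) .nil))))) .nil)))))) (.nd (nat_lit 3) (.nd (nat_lit 4) (.nd (nat_lit 5) (.nd (nat_lit 6) 
(.lf (nat_lit 288135) (.g (nat_lit 2852) (.e (nat_lit 294931) (nat_lit 3) (.e (nat_lit 98373) (nat_lit 29) (.e (nat_lit 450587) (nat_lit 10) (.e (nat_lit 573473) (nat_lit 12) (.e (nat_lit 57353) (nat_lit 0) (.e (nat_lit 7247) (nat_lit 383) (.e (nat_lit 8210) (nat_lit 8) .nil))))))) (.g (nat_lit 4) .nil .nil))) 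
(.lf (nat_lit 288199) (.g (nat_lit 2579) (.e (nat_lit 294931) (nat_lit 3) (.e (nat_lit 98373) (nat_lit 29) (.e (nat_lit 450588) (nat_lit 10) (.e (nat_lit 573474) (nat_lit 12) (.e (nat_lit 57572) (nat_lit 54) .nil))))) .nil))) (.nd (nat_lit 6) 
(.lf (nat_lit 288167) (.g (nat_lit 3343) (.e (nat_lit 294931) (nat_lit 3) (.e (nat_lit 98373) (nat_lit 29) (.e (nat_lit 450588) (nat_lit 10) (.e (nat_lit 581376) (nat_lit 1) .nil)))) .nil)) 
(.lf (nat_lit 288231) (.g (nat_lit 878) (.e (nat_lit 294937) (nat_lit 9) (.e (nat_lit 336013) (nat_lit 2) (.e (nat_lit 90170) (nat_lit 13) .nil))) .nil)))) (.nd (nat_lit 5) (.nd (nat_lit 6) 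
(.lf (nat_lit 288151) (.g (nat_lit 3293) (.e (nat_lit 294931) (nat_lit 3) (.e (nat_lit 98373) (nat_lit 29) (.e (nat_lit 450587) (nat_lit 10) (.e (nat_lit 573475) (nat_lit 12) (.e (nat_lit 57348) (nat_lit 0) (.e (nat_lit 7247) (nat_lit 383) (.e (nat_lit 8210) (nat_lit 8) .nil))))))) (.g (nat_lit 4) .nil .nil))) 
(.lf (nat_lit 288215) (.g (nat_lit 1291) (.e (nat_lit 294931) (nat_lit 3) (.e (nat_lit 98388) (nat_lit 33) (.e (nat_lit 491560) (nat_lit 10) (.e (nat_lit 344117) (nat_lit 21) .nil)))) .nil))) (.nd (nat_lit 6) 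
(.lf (nat_lit 288183) (.g (nat_lit 2462) (.e (nat_lit 294931) (nat_lit 3) (.e (nat_lit 98373) (nat_lit 29) (.e (nat_lit 450588) (nat_lit 10) (.e (nat_lit 573458) (nat_lit 9) .nil)))) .nil)) 
(.lf (nat_lit 288247) (.g (nat_lit 1917) (.e (nat_lit 294938) (nat_lit 9) (.e (nat_lit 336430) (nat_lit 29) (.e (nat_lit 442428) (nat_lit 24) (.e (nat_lit 229678) (nat_lit 244) (.e (nat_lit 163899) (nat_lit 11) .nil))))) .nil))))) (.nd (nat_lit 4) (.nd (nat_lit 5) (.nd (nat_lit 6) 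
(.lf (nat_lit 288143) (.g (nat_lit 3734) (.e (nat_lit 294931) (nat_lit 3) (.e (nat_lit 98373) (nat_lit 29) (.e (nat_lit 450587) (nat_lit 10) (.e (nat_lit 573475) (nat_lit 12) (.e (nat_lit 57344) (nat_lit 0) (.e (nat_lit 7249) (nat_lit 383) (.e (nat_lit 8210) (nat_lit 8) .nil))))))) (.g (nat_lit 4) .nil .nil))) 
(.lf (nat_lit 288207) (.g (nat_lit 4552) (.e (nat_lit 294931) (nat_lit 3) (.e (nat_lit 98373) (nat_lit 29) (.e (nat_lit 450588) (nat_lit 10) (.e (nat_lit 573475) (nat_lit 12) (.e (nat_lit 57348) (nat_lit 0) (.e (nat_lit 7247) (nat_lit 383) (.e (nat_lit 8210) (nat_lit 8) .nil))))))) (.g (nat_lit 4) .nil .nil)))) (.nd (nat_lit 6) 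
(.lf (nat_lit 288175) (.g (nat_lit 3809) (.e (nat_lit 294931) (nat_lit 3) (.e (nat_lit 98373) (nat_lit 29) (.e (nat_lit 450588) (nat_lit 10) (.e (nat_lit 573451) (nat_lit 9) (.e (nat_lit 13) (nat_lit 0) (.e (nat_lit 6950) (nat_lit 377) (.e (nat_lit 1367) (nat_lit 103) .nil))))))) (.g (nat_lit 4) .nil .nil))) 
(.lf (nat_lit 288239) (.g (nat_lit 1634) (.e (nat_lit 294938) (nat_lit 9) (.e (nat_lit 336369) (nat_lit 27) (.e (nat_lit 426173) (nat_lit 7) (.e (nat_lit 409649) (nat_lit 18) (.e (nat_lit 311040) (nat_lit 26) .nil))))) .nil)))) (.nd (nat_lit 5) (.nd (nat_lit 6) 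
(.lf (nat_lit 288159) (.g (nat_lit 3572) (.e (nat_lit 294931) (nat_lit 3) (.e (nat_lit 98373) (nat_lit 29) (.e (nat_lit 450587) (nat_lit 10) (.e (nat_lit 573475) (nat_lit 12) (.e (nat_lit 57568) (nat_lit 53) (.e (nat_lit 761857) (nat_lit 0) (.e (nat_lit 2783) (nat_lit 179) .nil))))))) (.g (nat_lit 4) .nil .nil))) 
(.lf (nat_lit 288223) (.g (nat_lit 2182) (.e (nat_lit 294935) (nat_lit 7) (.e (nat_lit 319505) (nat_lit 10) (.e (nat_lit 618) (nat_lit 48) (.e (nat_lit 557109) (nat_lit 15) (.e (nat_lit 188461) (nat_lit 26) .nil))))) .nil))) (.nd (nat_lit 6) 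
(.lf (nat_lit 288191) (.g (nat_lit 3820) (.e (nat_lit 294931) (nat_lit 3) (.e (nat_lit 98373) (nat_lit 29) (.e (nat_lit 450588) (nat_lit 10) (.e (nat_lit 573474) (nat_lit 12) (.e (nat_lit 57344) (nat_lit 0) .nil))))) .nil)) 
(.lf (nat_lit 288255) (.g (nat_lit 1353) (.e (nat_lit 294938) (nat_lit 9) (.e (nat_lit 336454) (nat_lit 34) (.e (nat_lit 491264) (nat_lit 3) (.e (nat_lit 221210) (nat_lit 22) (.e (nat_lit 196691) (nat_lit 18) (.e (nat_lit 1365) (nat_lit 103) .nil)))))) (.g (nat_lit 4) .nil .nil))))))))))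

noncomputable def tv3647 : DT := (.nd (nat_lit 0) (.nd (nat_lit 1) (.nd (nat_lit 2) (.nd (nat_lit 3) (.nd (nat_lit 4) (.nd (nat_lit 5) (.nd (nat_lit 6) 
(.lf (nat_lit 288256) (.g (nat_lit 1195) (.e (nat_lit 294938) (nat_lit 9) (.e (nat_lit 336454) (nat_lit 34) (.e (nat_lit 491264) (nat_lit 3) (.e (nat_lit 221212) (nat_lit 22) (.e (nat_lit 196690) (nat_lit 18) .nil))))) .nil)) 
(.lf (nat_lit 288320) (.g (nat_lit 1877) (.e (nat_lit 294941) (nat_lit 9) (.e (nat_lit 336369) (nat_lit 27) (.e (nat_lit 426173) (nat_lit 7) (.e (nat_lit 409648) (nat_lit 18) (.e (nat_lit 303147) (nat_lit 15) .nil))))) .nil))) (.nd (nat_lit 6) 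
(.lf (nat_lit 288288) (.g (nat_lit 2677) (.e (nat_lit 294940) (nat_lit 9) (.e (nat_lit 336395) (nat_lit 27) (.e (nat_lit 426340) (nat_lit 14) (.e (nat_lit 491566) (nat_lit 12) (.e (nat_lit 385033) (nat_lit 16) (.e (nat_lit 7936) (nat_lit 103) .nil)))))) (.g (nat_lit 5) .nil .nil))) 
(.lf (nat_lit 288352) (.g (nat_lit 1022) (.e (nat_lit 294941) (nat_lit 9) (.e (nat_lit 336426) (nat_lit 29) (.e (nat_lit 442430) (nat_lit 24) (.e (nat_lit 229699) (nat_lit 254) .nil)))) .nil)))) (.nd (nat_lit 5) (.nd (nat_lit 6) 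
(.lf (nat_lit 288272) (.g (nat_lit 838) (.e (nat_lit 294939) (nat_lit 9) (.e (nat_lit 336430) (nat_lit 29) (.e (nat_lit 442430) (nat_lit 24) (.e (nat_lit 229678) (nat_lit 244) .nil)))) .nil)) 
(.lf (nat_lit 288336) (.g (nat_lit 1589) (.e (nat_lit 294941) (nat_lit 9) (.e (nat_lit 336369) (nat_lit 27) (.e (nat_lit 426173) (nat_lit 7) (.e (nat_lit 409649) (nat_lit 18) (.e (nat_lit 311040) (nat_lit 15) .nil))))) .nil))) (.nd (nat_lit 6) 
(.lf (nat_lit 288304) (.g (nat_lit 1141) (.e (nat_lit 294940) (nat_lit 9) (.e (nat_lit 336443) (nat_lit 32) (.e (nat_lit 466982) (nat_lit 24) .nil))) .nil)) 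
(.lf (nat_lit 288368) (.g (nat_lit 1165) (.e (nat_lit 294948) (nat_lit 10) (.e (nat_lit 344133) (nat_lit 26) (.e (nat_lit 557087) (nat_lit 11) .nil))) .nil))))) (.nd (nat_lit 4) (.nd (nat_lit 5) (.nd (nat_lit 6) 
(.lf (nat_lit 288264) (.g (nat_lit 5091) (.e (nat_lit 294938) (nat_lit 9) (.e (nat_lit 336454) (nat_lit 34) (.e (nat_lit 483365) (nat_lit 18) (.e (nat_lit 57873) (nat_lit 264) (.e (nat_lit 7936) (nat_lit 81) .nil))))) .nil)) 
(.lf (nat_lit 288328) (.g (nat_lit 3191) (.e (nat_lit 294941) (nat_lit 9) (.e (nat_lit 336369) (nat_lit 27) (.e (nat_lit 426173) (nat_lit 7) (.e (nat_lit 409649) (nat_lit 18) (.e (nat_lit 303111) (nat_lit 0) (.e (nat_lit 3459) (nat_lit 216) (.e (nat_lit 688131) (nat_lit 0) (.e (nat_lit 2783) (nat_lit 179) .nil)))))))) (.g (nat_lit 6) .nil .nil)))) (.nd (nat_lit 6) 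
(.lf (nat_lit 288296) (.g (nat_lit 1552) (.e (nat_lit 294940) (nat_lit 9) (.e (nat_lit 336443) (nat_lit 32) (.e (nat_lit 466969) (nat_lit 21) (.e (nat_lit 164332) (nat_lit 230) .nil)))) .nil)) 
(.lf (nat_lit 288360) (.g (nat_lit 814) (.e (nat_lit 294941) (nat_lit 9) (.e (nat_lit 336443) (nat_lit 32) (.e (nat_lit 466972) (nat_lit 21) .nil))) .nil)))) (.nd (nat_lit 5) (.nd (nat_lit 6) 
(.lf (nat_lit 288280) (.g (nat_lit 1715) (.e (nat_lit 294940) (nat_lit 9) (.e (nat_lit 336369) (nat_lit 27) (.e (nat_lit 426173) (nat_lit 7) (.e (nat_lit 409617) (nat_lit 10) (.e (nat_lit 5630) (nat_lit 312) .nil))))) .nil)) 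
(.lf (nat_lit 288344) (.g (nat_lit 841) (.e (nat_lit 294941) (nat_lit 9) (.e (nat_lit 336395) (nat_lit 27) (.e (nat_lit 426340) (nat_lit 14) (.e (nat_lit 491566) (nat_lit 12) (.e (nat_lit 392960) (nat_lit 16) .nil))))) .nil))) (.nd (nat_lit 6) 
(.lf (nat_lit 288312) (.g (nat_lit 3964) (.e (nat_lit 294940) (nat_lit 9) (.e (nat_lit 336454) (nat_lit 34) (.e (nat_lit 483365) (nat_lit 18) (.e (nat_lit 57854) (nat_lit 252) .nil)))) .nil)) 
(.lf (nat_lit 288376) (.g (nat_lit 1069) (.e (nat_lit 294951) (nat_lit 12) (.e (nat_lit 385109) (nat_lit 51) (.e (nat_lit 794682) (nat_lit 25) .nil))) .nil)))))) (.nd (nat_lit 3) (.nd (nat_lit 4) (.nd (nat_lit 5) (.nd (nat_lit 6) 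
(.lf (nat_lit 288260) (.g (nat_lit 4048) (.e (nat_lit 294938) (nat_lit 9) (.e (nat_lit 336454) (nat_lit 34) (.e (nat_lit 483365) (nat_lit 18) (.e (nat_lit 57854) (nat_lit 252) .nil)))) .nil)) 
(.lf (nat_lit 288324) (.g (nat_lit 2287) (.e (nat_lit 294941) (nat_lit 9) (.e (nat_lit 336369) (nat_lit 27) (.e (nat_lit 426173) (nat_lit 7) (.e (nat_lit 409649) (nat_lit 18) (.e (nat_lit 303107) (nat_lit 0) .nil))))) .nil))) (.nd (nat_lit 6) 
(.lf (nat_lit 288292) (.g (nat_lit 1712) (.e (nat_lit 294940) (nat_lit 9) (.e (nat_lit 336430) (nat_lit 29) (.e (nat_lit 442430) (nat_lit 24) (.e (nat_lit 229678) (nat_lit 244) (.e (nat_lit 163899) (nat_lit 11) (.e (nat_lit 417812) (nat_lit 7) .nil)))))) (.g (nat_lit 4) .nil .nil))) 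
(.lf (nat_lit 288356) (.g (nat_lit 678) (.e (nat_lit 294941) (nat_lit 9) (.e (nat_lit 336430) (nat_lit 29) (.e (nat_lit 442429) (nat_lit 24) (.e (nat_lit 229678) (nat_lit 244) .nil)))) .nil)))) (.nd (nat_lit 5) (.nd (nat_lit 6) 
(.lf (nat_lit 288276) (.g (nat_lit 1672) (.e (nat_lit 294939) (nat_lit 9) (.e (nat_lit 336443) (nat_lit 32) (.e (nat_lit 466972) (nat_lit 21) (.e (nat_lit 164403) (nat_lit 256) .nil)))) .nil)) 
(.lf (nat_lit 288340) (.g (nat_lit 2197) (.e (nat_lit 294941) (nat_lit 9) (.e (nat_lit 336395) (nat_lit 27) (.e (nat_lit 426340) (nat_lit 14) (.e (nat_lit 491566) (nat_lit 12) (.e (nat_lit 385032) (nat_lit 16) (.e (nat_lit 1364) (nat_lit 103) .nil)))))) (.g (nat_lit 4) .nil .nil)))) (.nd (nat_lit 6) 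
(.lf (nat_lit 288308) (.g (nat_lit 705) (.e (nat_lit 294940) (nat_lit 9) (.e (nat_lit 336450) (nat_lit 33) (.e (nat_lit 475152) (nat_lit 17) (.e (nat_lit 57865) (nat_lit 256) .nil)))) .nil)) 
(.lf (nat_lit 288372) (.g (nat_lit 1271) (.e (nat_lit 294949) (nat_lit 10) (.e (nat_lit 344117) (nat_lit 21) (.e (nat_lit 516098) (nat_lit 0) (.e (nat_lit 7593) (nat_lit 407) .nil)))) .nil))))) (.nd (nat_lit 4) (.nd (nat_lit 5) (.nd (nat_lit 6) 
(.lf (nat_lit 288268) (.g (nat_lit 1208) (.e (nat_lit 294939) (nat_lit 9) (.e (nat_lit 336369) (nat_lit 27) (.e (nat_lit 426173) (nat_lit 7) (.e (nat_lit 409649) (nat_lit 18) .nil)))) .nil)) 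
(.lf (nat_lit 288332) (.g (nat_lit 1723) (.e (nat_lit 294941) (nat_lit 9) (.e (nat_lit 336369) (nat_lit 27) (.e (nat_lit 426173) (nat_lit 7) (.e (nat_lit 409649) (nat_lit 18) (.e (nat_lit 303149) (nat_lit 15) .nil))))) .nil))) (.nd (nat_lit 6) 
(.lf (nat_lit 288300) (.g (nat_lit 2316) (.e (nat_lit 294940) (nat_lit 9) (.e (nat_lit 336443) (nat_lit 32) (.e (nat_lit 466971) (nat_lit 21) (.e (nat_lit 164403) (nat_lit 256) (.e (nat_lit 57400) (nat_lit 10) .nil))))) .nil)) 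
(.lf (nat_lit 288364) (.g (nat_lit 2187) (.e (nat_lit 294944) (nat_lit 9) (.e (nat_lit 336028) (nat_lit 3) (.e (nat_lit 98350) (nat_lit 24) (.e (nat_lit 409649) (nat_lit 18) .nil)))) .nil)))) (.nd (nat_lit 5) (.nd (nat_lit 6) 
(.lf (nat_lit 288284) (.g (nat_lit 1404) (.e (nat_lit 294940) (nat_lit 9) (.e (nat_lit 336369) (nat_lit 27) (.e (nat_lit 426173) (nat_lit 7) (.e (nat_lit 409649) (nat_lit 18) (.e (nat_lit 311040) (nat_lit 25) .nil))))) .nil)) 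
(.lf (nat_lit 288348) (.g (nat_lit 1141) (.e (nat_lit 294941) (nat_lit 9) (.e (nat_lit 336421) (nat_lit 28) (.e (nat_lit 442112) (nat_lit 5) (.e (nat_lit 73733) (nat_lit 0) (.e (nat_lit 7254) (nat_lit 383) (.e (nat_lit 8210) (nat_lit 8) .nil)))))) (.g (nat_lit 4) .nil .nil)))) (.nd (nat_lit 6) 
(.lf (nat_lit 288316) (.g (nat_lit 2262) (.e (nat_lit 294941) (nat_lit 9) (.e (nat_lit 336019) (nat_lit 3) (.e (nat_lit 98350) (nat_lit 24) (.e (nat_lit 409648) (nat_lit 18) (.e (nat_lit 303108) (nat_lit 0) .nil))))) .nil)) 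
(.lf (nat_lit 288380) (.g (nat_lit 1674) (.e (nat_lit 294953) (nat_lit 12) (.e (nat_lit 385074) (nat_lit 31) (.e (nat_lit 573493) (nat_lit 15) (.e (nat_lit 81938) (nat_lit 20) .nil)))) .nil))))))) (.nd (nat_lit 2) (.nd (nat_lit 3) (.nd (nat_lit 4) (.nd (nat_lit 5) (.nd (nat_lit 6) 
(.lf (nat_lit 288258) (.g (nat_lit 4028) (.e (nat_lit 294938) (nat_lit 9) (.e (nat_lit 336454) (nat_lit 34) (.e (nat_lit 483365) (nat_lit 18) (.e (nat_lit 57847) (nat_lit 252) .nil)))) .nil)) 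
(.lf (nat_lit 288322) (.g (nat_lit 1602) (.e (nat_lit 294941) (nat_lit 9) (.e (nat_lit 336369) (nat_lit 27) (.e (nat_lit 426173) (nat_lit 7) (.e (nat_lit 409648) (nat_lit 18) (.e (nat_lit 311040) (nat_lit 25) .nil))))) .nil))) (.nd (nat_lit 6) 
(.lf (nat_lit 288290) (.g (nat_lit 1883) (.e (nat_lit 294940) (nat_lit 9) (.e (nat_lit 336430) (nat_lit 29) (.e (nat_lit 442428) (nat_lit 24) (.e (nat_lit 229678) (nat_lit 244) (.e (nat_lit 163899) (nat_lit 11) .nil))))) .nil)) 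
(.lf (nat_lit 288354) (.g (nat_lit 1771) (.e (nat_lit 294941) (nat_lit 9) (.e (nat_lit 336430) (nat_lit 29) (.e (nat_lit 442428) (nat_lit 24) (.e (nat_lit 229678) (nat_lit 244) (.e (nat_lit 163899) (nat_lit 11) .nil))))) .nil)))) (.nd (nat_lit 5) (.nd (nat_lit 6) 
(.lf (nat_lit 288274) (.g (nat_lit 807) (.e (nat_lit 294939) (nat_lit 9) (.e (nat_lit 336443) (nat_lit 32) (.e (nat_lit 466971) (nat_lit 21) .nil))) .nil)) 
(.lf (nat_lit 288338) (.g (nat_lit 2093) (.e (nat_lit 294941) (nat_lit 9) (.e (nat_lit 336369) (nat_lit 27) (.e (nat_lit 426173) (nat_lit 7) (.e (nat_lit 409649) (nat_lit 18) (.e (nat_lit 311040) (nat_lit 25) (.e (nat_lit 327424) (nat_lit 17) .nil)))))) (.g (nat_lit 4) .nil .nil)))) (.nd (nat_lit 6) 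
(.lf (nat_lit 288306) (.g (nat_lit 1149) (.e (nat_lit 294940) (nat_lit 9) (.e (nat_lit 336450) (nat_lit 33) (.e (nat_lit 483072) (nat_lit 5) (.e (nat_lit 180250) (nat_lit 10) (.e (nat_lit 573502) (nat_lit 18) .nil))))) .nil)) 
(.lf (nat_lit 288370) (.g (nat_lit 681) (.e (nat_lit 294949) (nat_lit 10) (.e (nat_lit 344117) (nat_lit 21) (.e (nat_lit 516097) (nat_lit 0) .nil))) .nil))))) (.nd (nat_lit 4) (.nd (nat_lit 5) (.nd (nat_lit 6) 
(.lf (nat_lit 288266) (.g (nat_lit 681) (.e (nat_lit 294939) (nat_lit 9) (.e (nat_lit 336369) (nat_lit 27) (.e (nat_lit 426173) (nat_lit 7) .nil))) .nil)) 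
(.lf (nat_lit 288330) (.g (nat_lit 1925) (.e (nat_lit 294941) (nat_lit 9) (.e (nat_lit 336369) (nat_lit 27) (.e (nat_lit 426173) (nat_lit 7) (.e (nat_lit 409649) (nat_lit 18) (.e (nat_lit 303111) (nat_lit 0) (.e (nat_lit 3469) (nat_lit 217) (.e (nat_lit 696324) (nat_lit 0) (.e (nat_lit 2783) (nat_lit 179) .nil)))))))) (.g (nat_lit 4) .nil .nil)))) (.nd (nat_lit 6) 
(.lf (nat_lit 288298) (.g (nat_lit 2494) (.e (nat_lit 294940) (nat_lit 9) (.e (nat_lit 336443) (nat_lit 32) (.e (nat_lit 466969) (nat_lit 21) (.e (nat_lit 164403) (nat_lit 256) (.e (nat_lit 57400) (nat_lit 10) .nil))))) .nil)) 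
(.lf (nat_lit 288362) (.g (nat_lit 2187) (.e (nat_lit 294943) (nat_lit 9) (.e (nat_lit 336028) (nat_lit 3) (.e (nat_lit 98350) (nat_lit 24) (.e (nat_lit 409649) (nat_lit 18) .nil)))) .nil)))) (.nd (nat_lit 5) (.nd (nat_lit 6) 
(.lf (nat_lit 288282) (.g (nat_lit 1941) (.e (nat_lit 294940) (nat_lit 9) (.e (nat_lit 336369) (nat_lit 27) (.e (nat_lit 426173) (nat_lit 7) (.e (nat_lit 409649) (nat_lit 18) (.e (nat_lit 303149) (nat_lit 15) (.e (nat_lit 6112) (nat_lit 332) (.e (nat_lit 7936) (nat_lit 103) .nil))))))) (.g (nat_lit 5) .nil .nil))) 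
(.lf (nat_lit 288346) (.g (nat_lit 1432) (.e (nat_lit 294941) (nat_lit 9) (.e (nat_lit 336421) (nat_lit 28) (.e (nat_lit 434181) (nat_lit 0) (.e (nat_lit 1638) (nat_lit 114) (.e (nat_lit 385032) (nat_lit 16) .nil))))) .nil))) (.nd (nat_lit 6) 
(.lf (nat_lit 288314) (.g (nat_lit 5000) (.e (nat_lit 294940) (nat_lit 9) (.e (nat_lit 336454) (nat_lit 34) (.e (nat_lit 483365) (nat_lit 18) (.e (nat_lit 57873) (nat_lit 264) (.e (nat_lit 7936) (nat_lit 81) .nil))))) .nil)) 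
(.lf (nat_lit 288378) (.g (nat_lit 919) (.e (nat_lit 294951) (nat_lit 12) (.e (nat_lit 385109) (nat_lit 51) (.e (nat_lit 794684) (nat_lit 25) .nil))) .nil)))))) (.nd (nat_lit 3) (.nd (nat_lit 4) (.nd (nat_lit 5) (.nd (nat_lit 6) 
(.lf (nat_lit 288262) (.g (nat_lit 4311) (.e (nat_lit 294938) (nat_lit 9) (.e (nat_lit 336454) (nat_lit 34) (.e (nat_lit 483365) (nat_lit 18) (.e (nat_lit 57872) (nat_lit 264) .nil)))) .nil)) 
(.lf (nat_lit 288326) (.g (nat_lit 2115) (.e (nat_lit 294941) (nat_lit 9) (.e (nat_lit 336369) (nat_lit 27) (.e (nat_lit 426173) (nat_lit 7) (.e (nat_lit 409649) (nat_lit 18) (.e (nat_lit 303111) (nat_lit 0) (.e (nat_lit 2438) (nat_lit 157) (.e (nat_lit 6383) (nat_lit 338) (.e (nat_lit 8210) (nat_lit 8) .nil)))))))) (.g (nat_lit 4) .nil .nil)))) (.nd (nat_lit 6) 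
(.lf (nat_lit 288294) (.g (nat_lit 366) (.e (nat_lit 294940) (nat_lit 9) (.e (nat_lit 336438) (nat_lit 31) (.e (nat_lit 466688) (nat_lit 4) .nil))) .nil)) 
(.lf (nat_lit 288358) (.g (nat_lit 1749) (.e (nat_lit 294941) (nat_lit 9) (.e (nat_lit 336430) (nat_lit 29) (.e (nat_lit 442430) (nat_lit 24) (.e (nat_lit 229678) (nat_lit 244) (.e (nat_lit 163899) (nat_lit 11) (.e (nat_lit 417812) (nat_lit 7) .nil)))))) (.g (nat_lit 4) .nil .nil))))) (.nd (nat_lit 5) (.nd (nat_lit 6) 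
(.lf (nat_lit 288278) (.g (nat_lit 1424) (.e (nat_lit 294940) (nat_lit 9) (.e (nat_lit 336324) (nat_lit 18) (.e (nat_lit 204830) (nat_lit 18) (.e (nat_lit 57830) (nat_lit 250) .nil)))) .nil)) 
(.lf (nat_lit 288342) (.g (nat_lit 2820) (.e (nat_lit 294941) (nat_lit 9) (.e (nat_lit 336395) (nat_lit 27) (.e (nat_lit 426340) (nat_lit 14) (.e (nat_lit 491566) (nat_lit 12) (.e (nat_lit 385033) (nat_lit 16) (.e (nat_lit 7936) (nat_lit 103) .nil)))))) (.g (nat_lit 4) .nil .nil)))) (.nd (nat_lit 6) 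
(.lf (nat_lit 288310) (.g (nat_lit 3906) (.e (nat_lit 294940) (nat_lit 9) (.e (nat_lit 336454) (nat_lit 34) (.e (nat_lit 483365) (nat_lit 18) (.e (nat_lit 57847) (nat_lit 252) .nil)))) .nil)) 
(.lf (nat_lit 288374) (.g (nat_lit 2740) (.e (nat_lit 294949) (nat_lit 10) (.e (nat_lit 344169) (nat_lit 40) (.e (nat_lit 671762) (nat_lit 4) (.e (nat_lit 65624) (nat_lit 12) (.e (nat_lit 385115) (nat_lit 53) .nil))))) .nil))))) (.nd (nat_lit 4) (.nd (nat_lit 5) (.nd (nat_lit 6) 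
(.lf (nat_lit 288270) (.g (nat_lit 1808) (.e (nat_lit 294939) (nat_lit 9) (.e (nat_lit 336369) (nat_lit 27) (.e (nat_lit 426173) (nat_lit 7) (.e (nat_lit 409649) (nat_lit 18) (.e (nat_lit 311040) (nat_lit 25) .nil))))) .nil)) 
(.lf (nat_lit 288334) (.g (nat_lit 3508) (.e (nat_lit 294941) (nat_lit 9) (.e (nat_lit 336369) (nat_lit 27) (.e (nat_lit 426173) (nat_lit 7) (.e (nat_lit 409649) (nat_lit 18) (.e (nat_lit 303149) (nat_lit 15) (.e (nat_lit 6112) (nat_lit 332) (.e (nat_lit 1370) (nat_lit 103) .nil))))))) (.g (nat_lit 7) .nil .nil)))) (.nd (nat_lit 6) 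
(.lf (nat_lit 288302) (.g (nat_lit 1803) (.e (nat_lit 294940) (nat_lit 9) (.e (nat_lit 336443) (nat_lit 32) (.e (nat_lit 466972) (nat_lit 21) (.e (nat_lit 164402) (nat_lit 256) (.e (nat_lit 57400) (nat_lit 10) .nil))))) .nil)) 
(.lf (nat_lit 288366) (.g (nat_lit 1291) (.e (nat_lit 294948) (nat_lit 10) (.e (nat_lit 344117) (nat_lit 21) (.e (nat_lit 516097) (nat_lit 0) (.e (nat_lit 7593) (nat_lit 407) .nil)))) .nil)))) (.nd (nat_lit 5) (.nd (nat_lit 6) 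
(.lf (nat_lit 288286) (.g (nat_lit 1404) (.e (nat_lit 294940) (nat_lit 9) (.e (nat_lit 336369) (nat_lit 27) (.e (nat_lit 426173) (nat_lit 7) (.e (nat_lit 409649) (nat_lit 18) (.e (nat_lit 311040) (nat_lit 26) .nil))))) .nil)) 
(.lf (nat_lit 288350) (.g (nat_lit 254) (.e (nat_lit 294941) (nat_lit 9) (.e (nat_lit 336421) (nat_lit 28) (.e (nat_lit 434186) (nat_lit 13) .nil))) .nil))) (.nd (nat_lit 6) 
(.lf (nat_lit 288318) (.g (nat_lit 1835) (.e (nat_lit 294941) (nat_lit 9) (.e (nat_lit 336369) (nat_lit 27) (.e (nat_lit 426173) (nat_lit 7) (.e (nat_lit 409617) (nat_lit 10) (.e (nat_lit 5630) (nat_lit 312) .nil))))) .nil)) 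
(.lf (nat_lit 288382) (.g (nat_lit 983) (.e (nat_lit 294953) (nat_lit 12) (.e (nat_lit 385094) (nat_lit 49) (.e (nat_lit 778326) (nat_lit 6) (.e (nat_lit 81924) (nat_lit 0) .nil)))) .nil)))))))) (.nd (nat_lit 1) (.nd (nat_lit 2) (.nd (nat_lit 3) (.nd (nat_lit 4) (.nd (nat_lit 5) (.nd (nat_lit 6) 
(.lf (nat_lit 288257) (.g (nat_lit 1232) (.e (nat_lit 294938) (nat_lit 9) (.e (nat_lit 336454) (nat_lit 34) (.e (nat_lit 491264) (nat_lit 3) (.e (nat_lit 221212) (nat_lit 22) (.e (nat_lit 196691) (nat_lit 18) (.e (nat_lit 1365) (nat_lit 103) .nil)))))) (.g (nat_lit 4) .nil .nil))) 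
(.lf (nat_lit 288321) (.g (nat_lit 1881) (.e (nat_lit 294941) (nat_lit 9) (.e (nat_lit 336369) (nat_lit 27) (.e (nat_lit 426173) (nat_lit 7) (.e (nat_lit 409648) (nat_lit 18) (.e (nat_lit 303149) (nat_lit 15) .nil))))) .nil))) (.nd (nat_lit 6) 
(.lf (nat_lit 288289) (.g (nat_lit 237) (.e (nat_lit 294940) (nat_lit 9) (.e (nat_lit 336421) (nat_lit 28) (.e (nat_lit 442112) (nat_lit 5) .nil))) .nil)) 
(.lf (nat_lit 288353) (.g (nat_lit 2467) (.e (nat_lit 294941) (nat_lit 9) (.e (nat_lit 336430) (nat_lit 29) (.e (nat_lit 442428) (nat_lit 24) (.e (nat_lit 229678) (nat_lit 244) (.e (nat_lit 163896) (nat_lit 10) (.e (nat_lit 417536) (nat_lit 7) .nil)))))) (.g (nat_lit 5) .nil .nil))))) (.nd (nat_lit 5) (.nd (nat_lit 6) 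
(.lf (nat_lit 288273) (.g (nat_lit 725) (.e (nat_lit 294939) (nat_lit 9) (.e (nat_lit 336443) (nat_lit 32) (.e (nat_lit 466969) (nat_lit 21) .nil))) .nil)) 
(.lf (nat_lit 288337) (.g (nat_lit 1996) (.e (nat_lit 294941) (nat_lit 9) (.e (nat_lit 336369) (nat_lit 27) (.e (nat_lit 426173) (nat_lit 7) (.e (nat_lit 409649) (nat_lit 18) (.e (nat_lit 311040) (nat_lit 15) (.e (nat_lit 6082) (nat_lit 332) (.e (nat_lit 7936) (nat_lit 103) .nil))))))) (.g (nat_lit 4) .nil .nil)))) (.nd (nat_lit 6) 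
(.lf (nat_lit 288305) (.g (nat_lit 540) (.e (nat_lit 294940) (nat_lit 9) (.e (nat_lit 336450) (nat_lit 33) (.e (nat_lit 483072) (nat_lit 5) .nil))) .nil)) 
(.lf (nat_lit 288369) (.g (nat_lit 3358) (.e (nat_lit 294948) (nat_lit 10) (.e (nat_lit 344133) (nat_lit 26) (.e (nat_lit 557087) (nat_lit 11) (.e (nat_lit 24665) (nat_lit 14) (.e (nat_lit 401413) (nat_lit 0) .nil))))) .nil))))) (.nd (nat_lit 4) (.nd (nat_lit 5) (.nd (nat_lit 6) 
(.lf (nat_lit 288265) (.g (nat_lit 784) (.e (nat_lit 294938) (nat_lit 9) (.e (nat_lit 336454) (nat_lit 34) (.e (nat_lit 483368) (nat_lit 19) .nil))) .nil)) 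
(.lf (nat_lit 288329) (.g (nat_lit 2016) (.e (nat_lit 294941) (nat_lit 9) (.e (nat_lit 336369) (nat_lit 27) (.e (nat_lit 426173) (nat_lit 7) (.e (nat_lit 409649) (nat_lit 18) (.e (nat_lit 303111) (nat_lit 0) (.e (nat_lit 3469) (nat_lit 217) (.e (nat_lit 696321) (nat_lit 0) (.e (nat_lit 2783) (nat_lit 179) .nil)))))))) (.g (nat_lit 4) .nil .nil)))) (.nd (nat_lit 6) 
(.lf (nat_lit 288297) (.g (nat_lit 1712) (.e (nat_lit 294940) (nat_lit 9) (.e (nat_lit 336443) (nat_lit 32) (.e (nat_lit 466969) (nat_lit 21) (.e (nat_lit 164403) (nat_lit 256) .nil)))) .nil)) 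
(.lf (nat_lit 288361) (.g (nat_lit 2872) (.e (nat_lit 294941) (nat_lit 9) (.e (nat_lit 336443) (nat_lit 32) (.e (nat_lit 466972) (nat_lit 21) (.e (nat_lit 164403) (nat_lit 256) (.e (nat_lit 57354) (nat_lit 0) .nil))))) .nil)))) (.nd (nat_lit 5) (.nd (nat_lit 6) 
(.lf (nat_lit 288281) (.g (nat_lit 1453) (.e (nat_lit 294940) (nat_lit 9) (.e (nat_lit 336369) (nat_lit 27) (.e (nat_lit 426173) (nat_lit 7) (.e (nat_lit 409649) (nat_lit 18) (.e (nat_lit 303111) (nat_lit 0) .nil))))) .nil)) 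
(.lf (nat_lit 288345) (.g (nat_lit 1590) (.e (nat_lit 294941) (nat_lit 9) (.e (nat_lit 336395) (nat_lit 27) (.e (nat_lit 426340) (nat_lit 14) (.e (nat_lit 491566) (nat_lit 12) (.e (nat_lit 392960) (nat_lit 16) (.e (nat_lit 1366) (nat_lit 103) .nil)))))) (.g (nat_lit 4) .nil .nil)))) (.nd (nat_lit 6) 
(.lf (nat_lit 288313) (.g (nat_lit 4535) (.e (nat_lit 294940) (nat_lit 9) (.e (nat_lit 336454) (nat_lit 34) (.e (nat_lit 483365) (nat_lit 18) (.e (nat_lit 57870) (nat_lit 264) .nil)))) .nil)) 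
(.lf (nat_lit 288377) (.g (nat_lit 1210) (.e (nat_lit 294951) (nat_lit 12) (.e (nat_lit 385109) (nat_lit 51) (.e (nat_lit 794683) (nat_lit 25) .nil))) .nil)))))) (.nd (nat_lit 3) (.nd (nat_lit 4) (.nd (nat_lit 5) (.nd (nat_lit 6) 
(.lf (nat_lit 288261) (.g (nat_lit 4620) (.e (nat_lit 294938) (nat_lit 9) (.e (nat_lit 336454) (nat_lit 34) (.e (nat_lit 483365) (nat_lit 18) (.e (nat_lit 57870) (nat_lit 264) .nil)))) .nil)) 
(.lf (nat_lit 288325) (.g (nat_lit 1638) (.e (nat_lit 294941) (nat_lit 9) (.e (nat_lit 336369) (nat_lit 27) (.e (nat_lit 426173) (nat_lit 7) (.e (nat_lit 409649) (nat_lit 18) (.e (nat_lit 303111) (nat_lit 0) .nil))))) .nil))) (.nd (nat_lit 6) 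
(.lf (nat_lit 288293) (.g (nat_lit 510) (.e (nat_lit 294940) (nat_lit 9) (.e (nat_lit 336432) (nat_lit 30) (.e (nat_lit 450569) (nat_lit 0) (.e (nat_lit 5599) (nat_lit 310) .nil)))) .nil)) 
(.lf (nat_lit 288357) (.g (nat_lit 2289) (.e (nat_lit 294941) (nat_lit 9) (.e (nat_lit 336430) (nat_lit 29) (.e (nat_lit 442430) (nat_lit 24) (.e (nat_lit 229678) (nat_lit 244) (.e (nat_lit 163896) (nat_lit 10) (.e (nat_lit 417536) (nat_lit 7) .nil)))))) (.g (nat_lit 5) .nil .nil))))) (.nd (nat_lit 5) (.nd (nat_lit 6) 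
(.lf (nat_lit 288277) (.g (nat_lit 2003) (.e (nat_lit 294940) (nat_lit 9) (.e (nat_lit 336019) (nat_lit 3) (.e (nat_lit 98350) (nat_lit 24) (.e (nat_lit 409649) (nat_lit 18) (.e (nat_lit 303111) (nat_lit 0) .nil))))) .nil)) 
(.lf (nat_lit 288341) (.g (nat_lit 2633) (.e (nat_lit 294941) (nat_lit 9) (.e (nat_lit 336395) (nat_lit 27) (.e (nat_lit 426340) (nat_lit 14) (.e (nat_lit 491566) (nat_lit 12) (.e (nat_lit 385032) (nat_lit 16) (.e (nat_lit 1371) (nat_lit 103) .nil)))))) (.g (nat_lit 4) .nil .nil)))) (.nd (nat_lit 6) 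
(.lf (nat_lit 288309) (.g (nat_lit 633) (.e (nat_lit 294940) (nat_lit 9) (.e (nat_lit 336454) (nat_lit 34) (.e (nat_lit 483365) (nat_lit 18) .nil))) .nil)) 
(.lf (nat_lit 288373) (.g (nat_lit 1822) (.e (nat_lit 294949) (nat_lit 10) (.e (nat_lit 344117) (nat_lit 21) (.e (nat_lit 516185) (nat_lit 16) (.e (nat_lit 491560) (nat_lit 10) .nil)))) .nil))))) (.nd (nat_lit 4) (.nd (nat_lit 5) (.nd (nat_lit 6) 
(.lf (nat_lit 288269) (.g (nat_lit 2266) (.e (nat_lit 294939) (nat_lit 9) (.e (nat_lit 336369) (nat_lit 27) (.e (nat_lit 426173) (nat_lit 7) (.e (nat_lit 409649) (nat_lit 18) (.e (nat_lit 303149) (nat_lit 15) (.e (nat_lit 6112) (nat_lit 332) (.e (nat_lit 7936) (nat_lit 103) .nil))))))) (.g (nat_lit 5) .nil .nil))) 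
(.lf (nat_lit 288333) (.g (nat_lit 1972) (.e (nat_lit 294941) (nat_lit 9) (.e (nat_lit 336369) (nat_lit 27) (.e (nat_lit 426173) (nat_lit 7) (.e (nat_lit 409649) (nat_lit 18) (.e (nat_lit 303149) (nat_lit 15) (.e (nat_lit 6103) (nat_lit 332) (.e (nat_lit 1365) (nat_lit 103) .nil))))))) (.g (nat_lit 4) .nil .nil)))) (.nd (nat_lit 6) 
(.lf (nat_lit 288301) (.g (nat_lit 1359) (.e (nat_lit 294940) (nat_lit 9) (.e (nat_lit 336443) (nat_lit 32) (.e (nat_lit 466972) (nat_lit 21) (.e (nat_lit 164332) (nat_lit 230) .nil)))) .nil)) 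
(.lf (nat_lit 288365) (.g (nat_lit 2996) (.e (nat_lit 294944) (nat_lit 9) (.e (nat_lit 336028) (nat_lit 3) (.e (nat_lit 98350) (nat_lit 24) (.e (nat_lit 409649) (nat_lit 18) (.e (nat_lit 303111) (nat_lit 0) (.e (nat_lit 3205) (nat_lit 194) (.e (nat_lit 507943) (nat_lit 17) .nil))))))) (.g (nat_lit 4) .nil .nil))))) (.nd (nat_lit 5) (.nd (nat_lit 6) 
(.lf (nat_lit 288285) (.g (nat_lit 1625) (.e (nat_lit 294940) (nat_lit 9) (.e (nat_lit 336369) (nat_lit 27) (.e (nat_lit 426173) (nat_lit 7) (.e (nat_lit 409649) (nat_lit 18) (.e (nat_lit 311040) (nat_lit 25) (.e (nat_lit 327424) (nat_lit 17) .nil)))))) (.g (nat_lit 4) .nil .nil))) 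
(.lf (nat_lit 288349) (.g (nat_lit 223) (.e (nat_lit 294941) (nat_lit 9) (.e (nat_lit 336421) (nat_lit 28) (.e (nat_lit 442112) (nat_lit 7) .nil))) .nil))) (.nd (nat_lit 6) 
(.lf (nat_lit 288317) (.g (nat_lit 471) (.e (nat_lit 294941) (nat_lit 9) (.e (nat_lit 336369) (nat_lit 27) (.e (nat_lit 426173) (nat_lit 7) .nil))) .nil)) 
(.lf (nat_lit 288381) (.g (nat_lit 420) (.e (nat_lit 294953) (nat_lit 12) (.e (nat_lit 385094) (nat_lit 49) (.e (nat_lit 778326) (nat_lit 6) .nil))) .nil))))))) (.nd (nat_lit 2) (.nd (nat_lit 3) (.nd (nat_lit 4) (.nd (nat_lit 5) (.nd (nat_lit 6) 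
(.lf (nat_lit 288259) (.g (nat_lit 4032) (.e (nat_lit 294938) (nat_lit 9) (.e (nat_lit 336454) (nat_lit 34) (.e (nat_lit 483365) (nat_lit 18) (.e (nat_lit 57849) (nat_lit 252) .nil)))) .nil)) 
(.lf (nat_lit 288323) (.g (nat_lit 990) (.e (nat_lit 294941) (nat_lit 9) (.e (nat_lit 336369) (nat_lit 27) (.e (nat_lit 426173) (nat_lit 7) (.e (nat_lit 409649) (nat_lit 18) .nil)))) .nil))) (.nd (nat_lit 6) 
(.lf (nat_lit 288291) (.g (nat_lit 1180) (.e (nat_lit 294940) (nat_lit 9) (.e (nat_lit 336430) (nat_lit 29) (.e (nat_lit 442428) (nat_lit 24) (.e (nat_lit 229681) (nat_lit 244) .nil)))) .nil)) 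
(.lf (nat_lit 288355) (.g (nat_lit 1277) (.e (nat_lit 294941) (nat_lit 9) (.e (nat_lit 336430) (nat_lit 29) (.e (nat_lit 442428) (nat_lit 24) (.e (nat_lit 229681) (nat_lit 244) (.e (nat_lit 163896) (nat_lit 10) .nil))))) .nil)))) (.nd (nat_lit 5) (.nd (nat_lit 6) 
(.lf (nat_lit 288275) (.g (nat_lit 2159) (.e (nat_lit 294939) (nat_lit 9) (.e (nat_lit 336443) (nat_lit 32) (.e (nat_lit 466972) (nat_lit 21) (.e (nat_lit 164402) (nat_lit 256) (.e (nat_lit 57400) (nat_lit 10) .nil))))) .nil)) 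
(.lf (nat_lit 288339) (.g (nat_lit 2073) (.e (nat_lit 294941) (nat_lit 9) (.e (nat_lit 336369) (nat_lit 27) (.e (nat_lit 426173) (nat_lit 7) (.e (nat_lit 409649) (nat_lit 18) (.e (nat_lit 311040) (nat_lit 26) (.e (nat_lit 335616) (nat_lit 17) .nil)))))) (.g (nat_lit 4) .nil .nil)))) (.nd (nat_lit 6) 
(.lf (nat_lit 288307) (.g (nat_lit 431) (.e (nat_lit 294940) (nat_lit 9) (.e (nat_lit 336450) (nat_lit 33) (.e (nat_lit 475152) (nat_lit 17) .nil))) .nil)) 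
(.lf (nat_lit 288371) (.g (nat_lit 677) (.e (nat_lit 294949) (nat_lit 10) (.e (nat_lit 344117) (nat_lit 21) (.e (nat_lit 516098) (nat_lit 0) .nil))) .nil))))) (.nd (nat_lit 4) (.nd (nat_lit 5) (.nd (nat_lit 6) 
(.lf (nat_lit 288267) (.g (nat_lit 1362) (.e (nat_lit 294939) (nat_lit 9) (.e (nat_lit 336369) (nat_lit 27) (.e (nat_lit 426173) (nat_lit 7) (.e (nat_lit 409617) (nat_lit 10) .nil)))) .nil)) 
(.lf (nat_lit 288331) (.g (nat_lit 1884) (.e (nat_lit 294941) (nat_lit 9) (.e (nat_lit 336369) (nat_lit 27) (.e (nat_lit 426173) (nat_lit 7) (.e (nat_lit 409649) (nat_lit 18) (.e (nat_lit 303147) (nat_lit 15) .nil))))) .nil))) (.nd (nat_lit 6) 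
(.lf (nat_lit 288299) (.g (nat_lit 762) (.e (nat_lit 294940) (nat_lit 9) (.e (nat_lit 336443) (nat_lit 32) (.e (nat_lit 466971) (nat_lit 21) .nil))) .nil)) 
(.lf (nat_lit 288363) (.g (nat_lit 2339) (.e (nat_lit 294944) (nat_lit 9) (.e (nat_lit 336028) (nat_lit 3) (.e (nat_lit 98350) (nat_lit 24) (.e (nat_lit 409648) (nat_lit 18) .nil)))) .nil)))) (.nd (nat_lit 5) (.nd (nat_lit 6) 
(.lf (nat_lit 288283) (.g (nat_lit 1532) (.e (nat_lit 294940) (nat_lit 9) (.e (nat_lit 336369) (nat_lit 27) (.e (nat_lit 426173) (nat_lit 7) (.e (nat_lit 409649) (nat_lit 18) (.e (nat_lit 311040) (nat_lit 15) (.e (nat_lit 6082) (nat_lit 332) (.e (nat_lit 7936) (nat_lit 103) .nil))))))) (.g (nat_lit 4) .nil .nil))) 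
(.lf (nat_lit 288347) (.g (nat_lit 1297) (.e (nat_lit 294941) (nat_lit 9) (.e (nat_lit 336421) (nat_lit 28) (.e (nat_lit 434181) (nat_lit 0) (.e (nat_lit 1638) (nat_lit 114) (.e (nat_lit 392960) (nat_lit 16) .nil))))) .nil))) (.nd (nat_lit 6) 
(.lf (nat_lit 288315) (.g (nat_lit 884) (.e (nat_lit 294940) (nat_lit 9) (.e (nat_lit 336456) (nat_lit 34) (.e (nat_lit 483350) (nat_lit 17) .nil))) .nil)) 
(.lf (nat_lit 288379) (.g (nat_lit 623) (.e (nat_lit 294952) (nat_lit 12) (.e (nat_lit 385094) (nat_lit 49) (.e (nat_lit 778326) (nat_lit 6) .nil))) .nil)))))) (.nd (nat_lit 3) (.nd (nat_lit 4) (.nd (nat_lit 5) (.nd (nat_lit 6) 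
(.lf (nat_lit 288263) (.g (nat_lit 4232) (.e (nat_lit 294938) (nat_lit 9) (.e (nat_lit 336454) (nat_lit 34) (.e (nat_lit 483365) (nat_lit 18) (.e (nat_lit 57873) (nat_lit 264) .nil)))) .nil)) 
(.lf (nat_lit 288327) (.g (nat_lit 2761) (.e (nat_lit 294941) (nat_lit 9) (.e (nat_lit 336369) (nat_lit 27) (.e (nat_lit 426173) (nat_lit 7) (.e (nat_lit 409649) (nat_lit 18) (.e (nat_lit 303111) (nat_lit 0) (.e (nat_lit 3459) (nat_lit 216) (.e (nat_lit 688129) (nat_lit 0) (.e (nat_lit 2783) (nat_lit 179) .nil)))))))) (.g (nat_lit 5) .nil .nil)))) (.nd (nat_lit 6) 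
(.lf (nat_lit 288295) (.g (nat_lit 379) (.e (nat_lit 294940) (nat_lit 9) (.e (nat_lit 336438) (nat_lit 31) (.e (nat_lit 458769) (nat_lit 16) .nil))) .nil)) 
(.lf (nat_lit 288359) (.g (nat_lit 807) (.e (nat_lit 294941) (nat_lit 9) (.e (nat_lit 336443) (nat_lit 32) (.e (nat_lit 466971) (nat_lit 21) .nil))) .nil)))) (.nd (nat_lit 5) (.nd (nat_lit 6) 
(.lf (nat_lit 288279) (.g (nat_lit 382) (.e (nat_lit 294940) (nat_lit 9) (.e (nat_lit 336369) (nat_lit 27) (.e (nat_lit 426173) (nat_lit 7) .nil))) .nil)) 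
(.lf (nat_lit 288343) (.g (nat_lit 2319) (.e (nat_lit 294941) (nat_lit 9) (.e (nat_lit 336395) (nat_lit 27) (.e (nat_lit 426340) (nat_lit 14) (.e (nat_lit 491566) (nat_lit 12) (.e (nat_lit 385037) (nat_lit 16) .nil))))) .nil))) (.nd (nat_lit 6) 
(.lf (nat_lit 288311) (.g (nat_lit 3949) (.e (nat_lit 294940) (nat_lit 9) (.e (nat_lit 336454) (nat_lit 34) (.e (nat_lit 483365) (nat_lit 18) (.e (nat_lit 57849) (nat_lit 252) .nil)))) .nil)) 
(.lf (nat_lit 288375) (.g (nat_lit 1093) (.e (nat_lit 294950) (nat_lit 11) (.e (nat_lit 368676) (nat_lit 21) (.e (nat_lit 516185) (nat_lit 16) .nil))) .nil))))) (.nd (nat_lit 4) (.nd (nat_lit 5) (.nd (nat_lit 6) 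
(.lf (nat_lit 288271) (.g (nat_lit 1808) (.e (nat_lit 294939) (nat_lit 9) (.e (nat_lit 336369) (nat_lit 27) (.e (nat_lit 426173) (nat_lit 7) (.e (nat_lit 409649) (nat_lit 18) (.e (nat_lit 311040) (nat_lit 26) .nil))))) .nil)) 
(.lf (nat_lit 288335) (.g (nat_lit 2405) (.e (nat_lit 294941) (nat_lit 9) (.e (nat_lit 336369) (nat_lit 27) (.e (nat_lit 426173) (nat_lit 7) (.e (nat_lit 409649) (nat_lit 18) (.e (nat_lit 303149) (nat_lit 15) (.e (nat_lit 6112) (nat_lit 332) (.e (nat_lit 7936) (nat_lit 103) .nil))))))) (.g (nat_lit 5) .nil .nil)))) (.nd (nat_lit 6) 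
(.lf (nat_lit 288303) (.g (nat_lit 2360) (.e (nat_lit 294940) (nat_lit 9) (.e (nat_lit 336443) (nat_lit 32) (.e (nat_lit 466972) (nat_lit 21) (.e (nat_lit 164403) (nat_lit 256) (.e (nat_lit 57402) (nat_lit 11) .nil))))) .nil)) 
(.lf (nat_lit 288367) (.g (nat_lit 1822) (.e (nat_lit 294948) (nat_lit 10) (.e (nat_lit 344117) (nat_lit 21) (.e (nat_lit 516185) (nat_lit 16) (.e (nat_lit 491560) (nat_lit 10) .nil)))) .nil)))) (.nd (nat_lit 5) (.nd (nat_lit 6) 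
(.lf (nat_lit 288287) (.g (nat_lit 1607) (.e (nat_lit 294940) (nat_lit 9) (.e (nat_lit 336369) (nat_lit 27) (.e (nat_lit 426173) (nat_lit 7) (.e (nat_lit 409649) (nat_lit 18) (.e (nat_lit 311040) (nat_lit 26) (.e (nat_lit 335616) (nat_lit 17) .nil)))))) (.g (nat_lit 4) .nil .nil))) 
(.lf (nat_lit 288351) (.g (nat_lit 668) (.e (nat_lit 294941) (nat_lit 9) (.e (nat_lit 336421) (nat_lit 28) (.e (nat_lit 434187) (nat_lit 13) (.e (nat_lit 2781) (nat_lit 178) (.e (nat_lit 294656) (nat_lit 25) (.e (nat_lit 417536) (nat_lit 7) .nil)))))) (.g (nat_lit 4) .nil .nil)))) (.nd (nat_lit 6) 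
(.lf (nat_lit 288319) (.g (nat_lit 1138) (.e (nat_lit 294941) (nat_lit 9) (.e (nat_lit 336369) (nat_lit 27) (.e (nat_lit 426173) (nat_lit 7) (.e (nat_lit 409648) (nat_lit 18) .nil)))) .nil)) 
(.lf (nat_lit 288383) (.g (nat_lit 922) (.e (nat_lit 294953) (nat_lit 12) (.e (nat_lit 385094) (nat_lit 49) (.e (nat_lit 778327) (nat_lit 6) (.e (nat_lit 81922) (nat_lit 0) .nil)))) .nil)))))))))

noncomputable def tv3648 : DT := (.nd (nat_lit 0) (.nd (nat_lit 1) (.nd (nat_lit 2) (.nd (nat_lit 3) (.nd (nat_lit 4) (.nd (nat_lit 5) (.nd (nat_lit 6) 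
(.lf (nat_lit 288384) (.g (nat_lit 1251) (.e (nat_lit 294953) (nat_lit 12) (.e (nat_lit 385105) (nat_lit 50) (.e (nat_lit 786478) (nat_lit 29) (.e (nat_lit 352256) (nat_lit 0) .nil)))) .nil)) 
(.lf (nat_lit 288448) (.g (nat_lit 206) (.e (nat_lit 294957) (nat_lit 13) (.e (nat_lit 393297) (nat_lit 27) (.e (nat_lit 491566) (nat_lit 12) .nil))) .nil))) (.nd (nat_lit 6) 
(.lf (nat_lit 288416) (.g (nat_lit 475) (.e (nat_lit 294955) (nat_lit 12) (.e (nat_lit 385105) (nat_lit 50) (.e (nat_lit 786481) (nat_lit 30) .nil))) .nil)) 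
(.lf (nat_lit 288480) (.g (nat_lit 2376) (.e (nat_lit 294957) (nat_lit 13) (.e (nat_lit 393301) (nat_lit 27) (.e (nat_lit 491559) (nat_lit 10) (.e (nat_lit 344096) (nat_lit 18) .nil)))) .nil)))) (.nd (nat_lit 5) (.nd (nat_lit 6) 
(.lf (nat_lit 288400) (.g (nat_lit 840) (.e (nat_lit 294955) (nat_lit 12) (.e (nat_lit 385074) (nat_lit 31) (.e (nat_lit 573491) (nat_lit 15) .nil))) .nil)) 
(.lf (nat_lit 288464) (.g (nat_lit 2538) (.e (nat_lit 294957) (nat_lit 13) (.e (nat_lit 393301) (nat_lit 27) (.e (nat_lit 491558) (nat_lit 10) (.e (nat_lit 344096) (nat_lit 18) (.e (nat_lit 7119) (nat_lit 382) .nil))))) .nil))) (.nd (nat_lit 6) 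
(.lf (nat_lit 288432) (.g (nat_lit 1774) (.e (nat_lit 294957) (nat_lit 13) (.e (nat_lit 393260) (nat_lit 21) (.e (nat_lit 409645) (nat_lit 18) (.e (nat_lit 303149) (nat_lit 15) .nil)))) .nil)) 
(.lf (nat_lit 288496) (.g (nat_lit 3130) (.e (nat_lit 294957) (nat_lit 13) (.e (nat_lit 393301) (nat_lit 27) (.e (nat_lit 491560) (nat_lit 10) (.e (nat_lit 344090) (nat_lit 18) (.e (nat_lit 6927) (nat_lit 372) .nil))))) .nil))))) (.nd (nat_lit 4) (.nd (nat_lit 5) (.nd (nat_lit 6) 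
(.lf (nat_lit 288392) (.g (nat_lit 1012) (.e (nat_lit 294954) (nat_lit 12) (.e (nat_lit 385102) (nat_lit 50) (.e (nat_lit 786478) (nat_lit 29) (.e (nat_lit 352256) (nat_lit 0) (.e (nat_lit 3813) (nat_lit 231) .nil))))) .nil)) 
(.lf (nat_lit 288456) (.g (nat_lit 2499) (.e (nat_lit 294957) (nat_lit 13) (.e (nat_lit 393301) (nat_lit 27) (.e (nat_lit 491556) (nat_lit 9) (.e (nat_lit 343808) (nat_lit 15) .nil)))) .nil))) (.nd (nat_lit 6) 
(.lf (nat_lit 288424) (.g (nat_lit 964) (.e (nat_lit 294957) (nat_lit 13) (.e (nat_lit 393234) (nat_lit 17) (.e (nat_lit 7589) (nat_lit 406) (.e (nat_lit 65632) (nat_lit 15) .nil)))) .nil)) 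
(.lf (nat_lit 288488) (.g (nat_lit 3307) (.e (nat_lit 294957) (nat_lit 13) (.e (nat_lit 393301) (nat_lit 27) (.e (nat_lit 491559) (nat_lit 10) (.e (nat_lit 344177) (nat_lit 43) (.e (nat_lit 770052) (nat_lit 0) (.e (nat_lit 2787) (nat_lit 179) .nil)))))) (.g (nat_lit 4) .nil .nil))))) (.nd (nat_lit 5) (.nd (nat_lit 6) 
(.lf (nat_lit 288408) (.g (nat_lit 771) (.e (nat_lit 294955) (nat_lit 12) (.e (nat_lit 385105) (nat_lit 50) (.e (nat_lit 786467) (nat_lit 27) .nil))) .nil)) 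
(.lf (nat_lit 288472) (.g (nat_lit 1895) (.e (nat_lit 294957) (nat_lit 13) (.e (nat_lit 393301) (nat_lit 27) (.e (nat_lit 491558) (nat_lit 10) (.e (nat_lit 344174) (nat_lit 42) .nil)))) .nil))) (.nd (nat_lit 6) 
(.lf (nat_lit 288440) (.g (nat_lit 1755) (.e (nat_lit 294957) (nat_lit 13) (.e (nat_lit 393282) (nat_lit 24) (.e (nat_lit 434275) (nat_lit 39) (.e (nat_lit 663565) (nat_lit 3) (.e (nat_lit 57713) (nat_lit 176) .nil))))) .nil)) 
(.lf (nat_lit 288504) (.g (nat_lit 2873) (.e (nat_lit 294957) (nat_lit 13) (.e (nat_lit 393301) (nat_lit 27) (.e (nat_lit 491560) (nat_lit 10) (.e (nat_lit 344095) (nat_lit 18) .nil)))) .nil)))))) (.nd (nat_lit 3) (.nd (nat_lit 4) (.nd (nat_lit 5) (.nd (nat_lit 6) 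
(.lf (nat_lit 288388) (.g (nat_lit 922) (.e (nat_lit 294953) (nat_lit 12) (.e (nat_lit 385109) (nat_lit 51) (.e (nat_lit 794682) (nat_lit 25) .nil))) .nil)) 
(.lf (nat_lit 288452) (.g (nat_lit 1705) (.e (nat_lit 294957) (nat_lit 13) (.e (nat_lit 393301) (nat_lit 27) (.e (nat_lit 491546) (nat_lit 9) (.e (nat_lit 336365) (nat_lit 26) .nil)))) .nil))) (.nd (nat_lit 6) 
(.lf (nat_lit 288420) (.g (nat_lit 3159) (.e (nat_lit 294956) (nat_lit 13) (.e (nat_lit 393301) (nat_lit 27) (.e (nat_lit 491560) (nat_lit 10) (.e (nat_lit 344096) (nat_lit 18) .nil)))) .nil)) 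
(.lf (nat_lit 288484) (.g (nat_lit 2223) (.e (nat_lit 294957) (nat_lit 13) (.e (nat_lit 393301) (nat_lit 27) (.e (nat_lit 491559) (nat_lit 10) (.e (nat_lit 344177) (nat_lit 43) .nil)))) .nil)))) (.nd (nat_lit 5) (.nd (nat_lit 6) 
(.lf (nat_lit 288404) (.g (nat_lit 885) (.e (nat_lit 294955) (nat_lit 12) (.e (nat_lit 385102) (nat_lit 50) (.e (nat_lit 786478) (nat_lit 29) (.e (nat_lit 352270) (nat_lit 8) .nil)))) .nil)) 
(.lf (nat_lit 288468) (.g (nat_lit 2713) (.e (nat_lit 294957) (nat_lit 13) (.e (nat_lit 393301) (nat_lit 27) (.e (nat_lit 491558) (nat_lit 10) (.e (nat_lit 344097) (nat_lit 18) (.e (nat_lit 7253) (nat_lit 383) .nil))))) .nil))) (.nd (nat_lit 6) 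
(.lf (nat_lit 288436) (.g (nat_lit 1489) (.e (nat_lit 294957) (nat_lit 13) (.e (nat_lit 393260) (nat_lit 21) (.e (nat_lit 409648) (nat_lit 18) (.e (nat_lit 311040) (nat_lit 26) .nil)))) .nil)) 
(.lf (nat_lit 288500) (.g (nat_lit 2824) (.e (nat_lit 294957) (nat_lit 13) (.e (nat_lit 393301) (nat_lit 27) (.e (nat_lit 491560) (nat_lit 10) (.e (nat_lit 344093) (nat_lit 18) .nil)))) .nil))))) (.nd (nat_lit 4) (.nd (nat_lit 5) (.nd (nat_lit 6) 
(.lf (nat_lit 288396) (.g (nat_lit 1197) (.e (nat_lit 294954) (nat_lit 12) (.e (nat_lit 385109) (nat_lit 51) (.e (nat_lit 794683) (nat_lit 25) .nil))) .nil)) 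
(.lf (nat_lit 288460) (.g (nat_lit 1823) (.e (nat_lit 294957) (nat_lit 13) (.e (nat_lit 393301) (nat_lit 27) (.e (nat_lit 491558) (nat_lit 10) (.e (nat_lit 344091) (nat_lit 18) .nil)))) .nil))) (.nd (nat_lit 6) 
(.lf (nat_lit 288428) (.g (nat_lit 669) (.e (nat_lit 294957) (nat_lit 13) (.e (nat_lit 393260) (nat_lit 21) (.e (nat_lit 409617) (nat_lit 10) .nil))) .nil)) 
(.lf (nat_lit 288492) (.g (nat_lit 2722) (.e (nat_lit 294957) (nat_lit 13) (.e (nat_lit 393301) (nat_lit 27) (.e (nat_lit 491560) (nat_lit 10) (.e (nat_lit 344088) (nat_lit 18) .nil)))) .nil)))) (.nd (nat_lit 5) (.nd (nat_lit 6) 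
(.lf (nat_lit 288412) (.g (nat_lit 1212) (.e (nat_lit 294955) (nat_lit 12) (.e (nat_lit 385105) (nat_lit 50) (.e (nat_lit 786478) (nat_lit 29) (.e (nat_lit 352262) (nat_lit 0) .nil)))) .nil)) 
(.lf (nat_lit 288476) (.g (nat_lit 2416) (.e (nat_lit 294957) (nat_lit 13) (.e (nat_lit 393301) (nat_lit 27) (.e (nat_lit 491559) (nat_lit 10) (.e (nat_lit 344090) (nat_lit 18) .nil)))) .nil))) (.nd (nat_lit 6) 
(.lf (nat_lit 288444) (.g (nat_lit 1435) (.e (nat_lit 294957) (nat_lit 13) (.e (nat_lit 393291) (nat_lit 26) (.e (nat_lit 475201) (nat_lit 40) (.e (nat_lit 704839) (nat_lit 15) .nil)))) .nil)) 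
(.lf (nat_lit 288508) (.g (nat_lit 3219) (.e (nat_lit 294957) (nat_lit 13) (.e (nat_lit 393301) (nat_lit 27) (.e (nat_lit 491560) (nat_lit 10) (.e (nat_lit 344097) (nat_lit 18) (.e (nat_lit 7144) (nat_lit 382) .nil))))) .nil))))))) (.nd (nat_lit 2) (.nd (nat_lit 3) (.nd (nat_lit 4) (.nd (nat_lit 5) (.nd (nat_lit 6) 
(.lf (nat_lit 288386) (.g (nat_lit 1853) (.e (nat_lit 294953) (nat_lit 12) (.e (nat_lit 385106) (nat_lit 50) (.e (nat_lit 786480) (nat_lit 29) (.e (nat_lit 352256) (nat_lit 0) .nil)))) .nil)) 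
(.lf (nat_lit 288450) (.g (nat_lit 1949) (.e (nat_lit 294957) (nat_lit 13) (.e (nat_lit 393297) (nat_lit 27) (.e (nat_lit 491566) (nat_lit 12) (.e (nat_lit 385036) (nat_lit 16) .nil)))) .nil))) (.nd (nat_lit 6) 
(.lf (nat_lit 288418) (.g (nat_lit 913) (.e (nat_lit 294956) (nat_lit 13) (.e (nat_lit 393301) (nat_lit 27) (.e (nat_lit 491560) (nat_lit 10) .nil))) .nil)) 
(.lf (nat_lit 288482) (.g (nat_lit 2407) (.e (nat_lit 294957) (nat_lit 13) (.e (nat_lit 393301) (nat_lit 27) (.e (nat_lit 491559) (nat_lit 10) (.e (nat_lit 344098) (nat_lit 18) .nil)))) .nil)))) (.nd (nat_lit 5) (.nd (nat_lit 6) 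
(.lf (nat_lit 288402) (.g (nat_lit 625) (.e (nat_lit 294955) (nat_lit 12) (.e (nat_lit 385093) (nat_lit 49) (.e (nat_lit 778326) (nat_lit 6) .nil))) .nil)) 
(.lf (nat_lit 288466) (.g (nat_lit 1896) (.e (nat_lit 294957) (nat_lit 13) (.e (nat_lit 393301) (nat_lit 27) (.e (nat_lit 491558) (nat_lit 10) (.e (nat_lit 344097) (nat_lit 18) .nil)))) .nil))) (.nd (nat_lit 6) 
(.lf (nat_lit 288434) (.g (nat_lit 1468) (.e (nat_lit 294957) (nat_lit 13) (.e (nat_lit 393260) (nat_lit 21) (.e (nat_lit 409648) (nat_lit 18) (.e (nat_lit 303149) (nat_lit 15) .nil)))) .nil)) 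
(.lf (nat_lit 288498) (.g (nat_lit 2672) (.e (nat_lit 294957) (nat_lit 13) (.e (nat_lit 393301) (nat_lit 27) (.e (nat_lit 491560) (nat_lit 10) (.e (nat_lit 344091) (nat_lit 18) .nil)))) .nil))))) (.nd (nat_lit 4) (.nd (nat_lit 5) (.nd (nat_lit 6) 
(.lf (nat_lit 288394) (.g (nat_lit 497) (.e (nat_lit 294954) (nat_lit 12) (.e (nat_lit 385105) (nat_lit 50) (.e (nat_lit 786478) (nat_lit 29) .nil))) .nil)) 
(.lf (nat_lit 288458) (.g (nat_lit 2252) (.e (nat_lit 294957) (nat_lit 13) (.e (nat_lit 393301) (nat_lit 27) (.e (nat_lit 491558) (nat_lit 10) (.e (nat_lit 344088) (nat_lit 18) .nil)))) .nil))) (.nd (nat_lit 6) 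
(.lf (nat_lit 288426) (.g (nat_lit 1871) (.e (nat_lit 294957) (nat_lit 13) (.e (nat_lit 393260) (nat_lit 21) (.e (nat_lit 409616) (nat_lit 10) (.e (nat_lit 5630) (nat_lit 312) .nil)))) .nil)) 
(.lf (nat_lit 288490) (.g (nat_lit 530) (.e (nat_lit 294957) (nat_lit 13) (.e (nat_lit 393301) (nat_lit 27) (.e (nat_lit 491560) (nat_lit 10) .nil))) .nil)))) (.nd (nat_lit 5) (.nd (nat_lit 6) 
(.lf (nat_lit 288410) (.g (nat_lit 901) (.e (nat_lit 294955) (nat_lit 12) (.e (nat_lit 385105) (nat_lit 50) (.e (nat_lit 786473) (nat_lit 27) .nil))) .nil)) 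
(.lf (nat_lit 288474) (.g (nat_lit 2468) (.e (nat_lit 294957) (nat_lit 13) (.e (nat_lit 393301) (nat_lit 27) (.e (nat_lit 491558) (nat_lit 10) (.e (nat_lit 344174) (nat_lit 42) (.e (nat_lit 761857) (nat_lit 0) .nil))))) .nil))) (.nd (nat_lit 6) 
(.lf (nat_lit 288442) (.g (nat_lit 1735) (.e (nat_lit 294957) (nat_lit 13) (.e (nat_lit 393283) (nat_lit 24) (.e (nat_lit 434275) (nat_lit 39) (.e (nat_lit 663565) (nat_lit 3) (.e (nat_lit 57713) (nat_lit 176) .nil))))) .nil)) 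
(.lf (nat_lit 288506) (.g (nat_lit 3356) (.e (nat_lit 294957) (nat_lit 13) (.e (nat_lit 393301) (nat_lit 27) (.e (nat_lit 491560) (nat_lit 10) (.e (nat_lit 344096) (nat_lit 18) (.e (nat_lit 7119) (nat_lit 382) .nil))))) .nil)))))) (.nd (nat_lit 3) (.nd (nat_lit 4) (.nd (nat_lit 5) (.nd (nat_lit 6) 
(.lf (nat_lit 288390) (.g (nat_lit 618) (.e (nat_lit 294953) (nat_lit 12) (.e (nat_lit 385109) (nat_lit 51) (.e (nat_lit 794684) (nat_lit 25) .nil))) .nil)) 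
(.lf (nat_lit 288454) (.g (nat_lit 1498) (.e (nat_lit 294957) (nat_lit 13) (.e (nat_lit 393301) (nat_lit 27) (.e (nat_lit 491551) (nat_lit 9) (.e (nat_lit 336250) (nat_lit 15) .nil)))) .nil))) (.nd (nat_lit 6) 
(.lf (nat_lit 288422) (.g (nat_lit 2804) (.e (nat_lit 294956) (nat_lit 13) (.e (nat_lit 393301) (nat_lit 27) (.e (nat_lit 491560) (nat_lit 10) (.e (nat_lit 344099) (nat_lit 18) .nil)))) .nil)) 
(.lf (nat_lit 288486) (.g (nat_lit 3319) (.e (nat_lit 294957) (nat_lit 13) (.e (nat_lit 393301) (nat_lit 27) (.e (nat_lit 491559) (nat_lit 10) (.e (nat_lit 344177) (nat_lit 43) (.e (nat_lit 770052) (nat_lit 0) (.e (nat_lit 2783) (nat_lit 179) .nil)))))) (.g (nat_lit 4) .nil .nil))))) (.nd (nat_lit 5) (.nd (nat_lit 6) 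
(.lf (nat_lit 288406) (.g (nat_lit 670) (.e (nat_lit 294955) (nat_lit 12) (.e (nat_lit 385102) (nat_lit 50) (.e (nat_lit 786480) (nat_lit 29) (.e (nat_lit 360192) (nat_lit 4) .nil)))) .nil)) 
(.lf (nat_lit 288470) (.g (nat_lit 2633) (.e (nat_lit 294957) (nat_lit 13) (.e (nat_lit 393301) (nat_lit 27) (.e (nat_lit 491558) (nat_lit 10) (.e (nat_lit 344097) (nat_lit 18) (.e (nat_lit 7255) (nat_lit 383) .nil))))) .nil))) (.nd (nat_lit 6) 
(.lf (nat_lit 288438) (.g (nat_lit 1432) (.e (nat_lit 294957) (nat_lit 13) (.e (nat_lit 393260) (nat_lit 21) (.e (nat_lit 409649) (nat_lit 18) (.e (nat_lit 303149) (nat_lit 15) .nil)))) .nil)) 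
(.lf (nat_lit 288502) (.g (nat_lit 2510) (.e (nat_lit 294957) (nat_lit 13) (.e (nat_lit 393301) (nat_lit 27) (.e (nat_lit 491560) (nat_lit 10) (.e (nat_lit 344094) (nat_lit 18) (.e (nat_lit 7119) (nat_lit 382) .nil))))) .nil))))) (.nd (nat_lit 4) (.nd (nat_lit 5) (.nd (nat_lit 6) 
(.lf (nat_lit 288398) (.g (nat_lit 3809) (.e (nat_lit 294955) (nat_lit 12) (.e (nat_lit 385072) (nat_lit 31) (.e (nat_lit 573493) (nat_lit 15) (.e (nat_lit 81953) (nat_lit 22) (.e (nat_lit 90187) (nat_lit 18) .nil))))) .nil)) 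
(.lf (nat_lit 288462) (.g (nat_lit 2231) (.e (nat_lit 294957) (nat_lit 13) (.e (nat_lit 393301) (nat_lit 27) (.e (nat_lit 491558) (nat_lit 10) (.e (nat_lit 344093) (nat_lit 18) .nil)))) .nil))) (.nd (nat_lit 6) 
(.lf (nat_lit 288430) (.g (nat_lit 535) (.e (nat_lit 294957) (nat_lit 13) (.e (nat_lit 393260) (nat_lit 21) (.e (nat_lit 409643) (nat_lit 18) .nil))) .nil)) 
(.lf (nat_lit 288494) (.g (nat_lit 2866) (.e (nat_lit 294957) (nat_lit 13) (.e (nat_lit 393301) (nat_lit 27) (.e (nat_lit 491560) (nat_lit 10) (.e (nat_lit 344089) (nat_lit 18) .nil)))) .nil)))) (.nd (nat_lit 5) (.nd (nat_lit 6) 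
(.lf (nat_lit 288414) (.g (nat_lit 1696) (.e (nat_lit 294955) (nat_lit 12) (.e (nat_lit 385105) (nat_lit 50) (.e (nat_lit 786480) (nat_lit 29) (.e (nat_lit 352256) (nat_lit 0) .nil)))) .nil)) 
(.lf (nat_lit 288478) (.g (nat_lit 2422) (.e (nat_lit 294957) (nat_lit 13) (.e (nat_lit 393301) (nat_lit 27) (.e (nat_lit 491559) (nat_lit 10) (.e (nat_lit 344093) (nat_lit 18) .nil)))) .nil))) (.nd (nat_lit 6) 
(.lf (nat_lit 288446) (.g (nat_lit 837) (.e (nat_lit 294957) (nat_lit 13) (.e (nat_lit 393291) (nat_lit 26) (.e (nat_lit 475219) (nat_lit 44) .nil))) .nil)) 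
(.lf (nat_lit 288510) (.g (nat_lit 4577) (.e (nat_lit 294957) (nat_lit 13) (.e (nat_lit 393301) (nat_lit 27) (.e (nat_lit 491560) (nat_lit 10) (.e (nat_lit 344097) (nat_lit 18) (.e (nat_lit 7144) (nat_lit 382) (.e (nat_lit 26) (nat_lit 0) (.e (nat_lit 2789) (nat_lit 179) .nil))))))) (.g (nat_lit 7) .nil .nil))))))))) 
(.nd (nat_lit 1) (.nd (nat_lit 2) (.nd (nat_lit 3) (.nd (nat_lit 4) (.nd (nat_lit 5) 
(.nd (nat_lit 6) 
(.lf (nat_lit 288385) (.g (nat_lit 576) (.e (nat_lit 294953) (nat_lit 12) (.e (nat_lit 385106) (nat_lit 50) (.e (nat_lit 786478) (nat_lit 29) .nil))) .nil)) 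
(.lf (nat_lit 288449) (.g (nat_lit 2471) (.e (nat_lit 294957) (nat_lit 13) (.e (nat_lit 393297) (nat_lit 27) (.e (nat_lit 491566) (nat_lit 12) (.e (nat_lit 385033) (nat_lit 16) .nil)))) .nil))) (.nd (nat_lit 6) 
(.lf (nat_lit 288417) (.g (nat_lit 1234) (.e (nat_lit 294955) (nat_lit 12) (.e (nat_lit 385105) (nat_lit 50) (.e (nat_lit 786483) (nat_lit 30) (.e (nat_lit 360484) (nat_lit 15) .nil)))) .nil)) 
(.lf (nat_lit 288481) (.g (nat_lit 2405) (.e (nat_lit 294957) (nat_lit 13) (.e (nat_lit 393301) (nat_lit 27) (.e (nat_lit 491559) (nat_lit 10) (.e (nat_lit 344097) (nat_lit 18) .nil)))) .nil)))) (.nd (nat_lit 5) (.nd (nat_lit 6) 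
(.lf (nat_lit 288401) (.g (nat_lit 918) (.e (nat_lit 294955) (nat_lit 12) (.e (nat_lit 385093) (nat_lit 49) (.e (nat_lit 778320) (nat_lit 4) .nil))) .nil)) 
(.lf (nat_lit 288465) (.g (nat_lit 2548) (.e (nat_lit 294957) (nat_lit 13) (.e (nat_lit 393301) (nat_lit 27) (.e (nat_lit 491558) (nat_lit 10) (.e (nat_lit 344096) (nat_lit 18) (.e (nat_lit 7247) (nat_lit 383) .nil))))) .nil))) (.nd (nat_lit 6) 
(.lf (nat_lit 288433) (.g (nat_lit 643) (.e (nat_lit 294957) (nat_lit 13) (.e (nat_lit 393260) (nat_lit 21) (.e (nat_lit 409646) (nat_lit 18) .nil))) .nil)) 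
(.lf (nat_lit 288497) (.g (nat_lit 3172) (.e (nat_lit 294957) (nat_lit 13) (.e (nat_lit 393301) (nat_lit 27) (.e (nat_lit 491560) (nat_lit 10) (.e (nat_lit 344090) (nat_lit 18) (.e (nat_lit 7119) (nat_lit 382) .nil))))) .nil))))) (.nd (nat_lit 4) (.nd (nat_lit 5) (.nd (nat_lit 6) 
(.lf (nat_lit 288393) (.g (nat_lit 1138) (.e (nat_lit 294954) (nat_lit 12) (.e (nat_lit 385102) (nat_lit 50) (.e (nat_lit 786481) (nat_lit 30) (.e (nat_lit 368384) (nat_lit 17) (.e (nat_lit 663589) (nat_lit 14) (.e (nat_lit 2783) (nat_lit 179) .nil)))))) (.g (nat_lit 5) .nil .nil))) 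
(.lf (nat_lit 288457) (.g (nat_lit 737) (.e (nat_lit 294957) (nat_lit 13) (.e (nat_lit 393301) (nat_lit 27) (.e (nat_lit 491558) (nat_lit 10) .nil))) .nil))) (.nd (nat_lit 6) 
(.lf (nat_lit 288425) (.g (nat_lit 1069) (.e (nat_lit 294957) (nat_lit 13) (.e (nat_lit 393234) (nat_lit 17) (.e (nat_lit 7589) (nat_lit 406) (.e (nat_lit 65648) (nat_lit 26) .nil)))) .nil)) 
(.lf (nat_lit 288489) (.g (nat_lit 3245) (.e (nat_lit 294957) (nat_lit 13) (.e (nat_lit 393301) (nat_lit 27) (.e (nat_lit 491559) (nat_lit 10) (.e (nat_lit 344177) (nat_lit 43) (.e (nat_lit 777984) (nat_lit 0) (.e (nat_lit 2785) (nat_lit 179) .nil)))))) (.g (nat_lit 4) .nil .nil))))) (.nd (nat_lit 5) (.nd (nat_lit 6) 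
(.lf (nat_lit 288409) (.g (nat_lit 810) (.e (nat_lit 294955) (nat_lit 12) (.e (nat_lit 385105) (nat_lit 50) (.e (nat_lit 786470) (nat_lit 27) .nil))) .nil)) 
(.lf (nat_lit 288473) (.g (nat_lit 2510) (.e (nat_lit 294957) (nat_lit 13) (.e (nat_lit 393301) (nat_lit 27) (.e (nat_lit 491558) (nat_lit 10) (.e (nat_lit 344174) (nat_lit 42) (.e (nat_lit 761856) (nat_lit 0) (.e (nat_lit 2783) (nat_lit 179) .nil)))))) (.g (nat_lit 4) .nil .nil)))) (.nd (nat_lit 6) 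
(.lf (nat_lit 288441) (.g (nat_lit 2009) (.e (nat_lit 294957) (nat_lit 13) (.e (nat_lit 393283) (nat_lit 24) (.e (nat_lit 434272) (nat_lit 38) (.e (nat_lit 655364) (nat_lit 0) (.e (nat_lit 2828) (nat_lit 182) .nil))))) .nil)) 
(.lf (nat_lit 288505) (.g (nat_lit 2605) (.e (nat_lit 294957) (nat_lit 13) (.e (nat_lit 393301) (nat_lit 27) (.e (nat_lit 491560) (nat_lit 10) (.e (nat_lit 344096) (nat_lit 18) .nil)))) .nil)))))) (.nd (nat_lit 3) (.nd (nat_lit 4) (.nd (nat_lit 5) (.nd (nat_lit 6) 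
(.lf (nat_lit 288389) (.g (nat_lit 932) (.e (nat_lit 294953) (nat_lit 12) (.e (nat_lit 385109) (nat_lit 51) (.e (nat_lit 794683) (nat_lit 25) .nil))) .nil)) 
(.lf (nat_lit 288453) (.g (nat_lit 666) (.e (nat_lit 294957) (nat_lit 13) (.e (nat_lit 393301) (nat_lit 27) (.e (nat_lit 491551) (nat_lit 9) .nil))) .nil))) (.nd (nat_lit 6) 
(.lf (nat_lit 288421) (.g (nat_lit 3047) (.e (nat_lit 294956) (nat_lit 13) (.e (nat_lit 393301) (nat_lit 27) (.e (nat_lit 491560) (nat_lit 10) (.e (nat_lit 344097) (nat_lit 18) .nil)))) .nil)) 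
(.lf (nat_lit 288485) (.g (nat_lit 3556) (.e (nat_lit 294957) (nat_lit 13) (.e (nat_lit 393301) (nat_lit 27) (.e (nat_lit 491559) (nat_lit 10) (.e (nat_lit 344177) (nat_lit 43) (.e (nat_lit 770051) (nat_lit 0) (.e (nat_lit 2783) (nat_lit 179) .nil)))))) (.g (nat_lit 5) .nil .nil))))) (.nd (nat_lit 5) (.nd (nat_lit 6) 
(.lf (nat_lit 288405) (.g (nat_lit 1103) (.e (nat_lit 294955) (nat_lit 12) (.e (nat_lit 385102) (nat_lit 50) (.e (nat_lit 786480) (nat_lit 29) (.e (nat_lit 352256) (nat_lit 0) .nil)))) .nil)) 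
(.lf (nat_lit 288469) (.g (nat_lit 2662) (.e (nat_lit 294957) (nat_lit 13) (.e (nat_lit 393301) (nat_lit 27) (.e (nat_lit 491558) (nat_lit 10) (.e (nat_lit 344097) (nat_lit 18) (.e (nat_lit 7254) (nat_lit 383) .nil))))) .nil))) (.nd (nat_lit 6) 
(.lf (nat_lit 288437) (.g (nat_lit 476) (.e (nat_lit 294957) (nat_lit 13) (.e (nat_lit 393260) (nat_lit 21) (.e (nat_lit 409649) (nat_lit 18) .nil))) .nil)) 
(.lf (nat_lit 288501) (.g (nat_lit 2217) (.e (nat_lit 294957) (nat_lit 13) (.e (nat_lit 393301) (nat_lit 27) (.e (nat_lit 491560) (nat_lit 10) (.e (nat_lit 344094) (nat_lit 18) .nil)))) .nil))))) (.nd (nat_lit 4) (.nd (nat_lit 5) (.nd (nat_lit 6) 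
(.lf (nat_lit 288397) (.g (nat_lit 919) (.e (nat_lit 294954) (nat_lit 12) (.e (nat_lit 385109) (nat_lit 51) (.e (nat_lit 794684) (nat_lit 25) .nil))) .nil)) 
(.lf (nat_lit 288461) (.g (nat_lit 2648) (.e (nat_lit 294957) (nat_lit 13) (.e (nat_lit 393301) (nat_lit 27) (.e (nat_lit 491558) (nat_lit 10) (.e (nat_lit 344091) (nat_lit 18) (.e (nat_lit 7247) (nat_lit 383) .nil))))) .nil))) (.nd (nat_lit 6) 
(.lf (nat_lit 288429) (.g (nat_lit 1637) (.e (nat_lit 294957) (nat_lit 13) (.e (nat_lit 393260) (nat_lit 21) (.e (nat_lit 409617) (nat_lit 10) (.e (nat_lit 7936) (nat_lit 313) .nil)))) .nil)) 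
(.lf (nat_lit 288493) (.g (nat_lit 3234) (.e (nat_lit 294957) (nat_lit 13) (.e (nat_lit 393301) (nat_lit 27) (.e (nat_lit 491560) (nat_lit 10) (.e (nat_lit 344088) (nat_lit 18) (.e (nat_lit 6927) (nat_lit 372) .nil))))) .nil)))) (.nd (nat_lit 5) (.nd (nat_lit 6) 
(.lf (nat_lit 288413) (.g (nat_lit 1180) (.e (nat_lit 294955) (nat_lit 12) (.e (nat_lit 385105) (nat_lit 50) (.e (nat_lit 786478) (nat_lit 29) (.e (nat_lit 360192) (nat_lit 4) .nil)))) .nil)) 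
(.lf (nat_lit 288477) (.g (nat_lit 2340) (.e (nat_lit 294957) (nat_lit 13) (.e (nat_lit 393301) (nat_lit 27) (.e (nat_lit 491559) (nat_lit 10) (.e (nat_lit 344091) (nat_lit 18) .nil)))) .nil))) (.nd (nat_lit 6) 
(.lf (nat_lit 288445) (.g (nat_lit 1426) (.e (nat_lit 294957) (nat_lit 13) (.e (nat_lit 393291) (nat_lit 26) (.e (nat_lit 475201) (nat_lit 40) (.e (nat_lit 704841) (nat_lit 15) (.e (nat_lit 57794) (nat_lit 245) .nil))))) .nil)) 
(.lf (nat_lit 288509) (.g (nat_lit 3310) (.e (nat_lit 294957) (nat_lit 13) (.e (nat_lit 393301) (nat_lit 27) (.e (nat_lit 491560) (nat_lit 10) (.e (nat_lit 344097) (nat_lit 18) (.e (nat_lit 7144) (nat_lit 382) (.e (nat_lit 26) (nat_lit 0) (.e (nat_lit 2783) (nat_lit 179) .nil))))))) (.g (nat_lit 4) .nil .nil)))))))) 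
(.nd (nat_lit 2) (.nd (nat_lit 3) (.nd (nat_lit 4) (.nd (nat_lit 5) (.nd (nat_lit 6) 
(.lf (nat_lit 288387) (.g (nat_lit 1076) (.e (nat_lit 294953) (nat_lit 12) (.e (nat_lit 385109) (nat_lit 51) (.e (nat_lit 794640) (nat_lit 20) .nil))) .nil)) 
(.lf (nat_lit 288451) (.g (nat_lit 1688) (.e (nat_lit 294957) (nat_lit 13) (.e (nat_lit 393301) (nat_lit 27) (.e (nat_lit 491546) (nat_lit 9) (.e (nat_lit 335997) (nat_lit 1) .nil)))) .nil))) (.nd (nat_lit 6) 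
(.lf (nat_lit 288419) (.g (nat_lit 3100) (.e (nat_lit 294956) (nat_lit 13) (.e (nat_lit 393301) (nat_lit 27) (.e (nat_lit 491560) (nat_lit 10) (.e (nat_lit 344090) (nat_lit 18) .nil)))) .nil)) 
(.lf (nat_lit 288483) (.g (nat_lit 2388) (.e (nat_lit 294957) (nat_lit 13) (.e (nat_lit 393301) (nat_lit 27) (.e (nat_lit 491559) (nat_lit 10) (.e (nat_lit 344174) (nat_lit 42) .nil)))) .nil)))) (.nd (nat_lit 5) (.nd (nat_lit 6) 
(.lf (nat_lit 288403) (.g (nat_lit 948) (.e (nat_lit 294955) (nat_lit 12) (.e (nat_lit 385093) (nat_lit 49) (.e (nat_lit 778327) (nat_lit 6) (.e (nat_lit 81922) (nat_lit 0) .nil)))) .nil)) 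
(.lf (nat_lit 288467) (.g (nat_lit 2820) (.e (nat_lit 294957) (nat_lit 13) (.e (nat_lit 393301) (nat_lit 27) (.e (nat_lit 491558) (nat_lit 10) (.e (nat_lit 344097) (nat_lit 18) (.e (nat_lit 7144) (nat_lit 382) .nil))))) .nil))) (.nd (nat_lit 6) 
(.lf (nat_lit 288435) (.g (nat_lit 1489) (.e (nat_lit 294957) (nat_lit 13) (.e (nat_lit 393260) (nat_lit 21) (.e (nat_lit 409648) (nat_lit 18) (.e (nat_lit 311040) (nat_lit 25) .nil)))) .nil)) 
(.lf (nat_lit 288499) (.g (nat_lit 3270) (.e (nat_lit 294957) (nat_lit 13) (.e (nat_lit 393301) (nat_lit 27) (.e (nat_lit 491560) (nat_lit 10) (.e (nat_lit 344091) (nat_lit 18) (.e (nat_lit 7119) (nat_lit 382) .nil))))) .nil))))) (.nd (nat_lit 4) (.nd (nat_lit 5) (.nd (nat_lit 6) 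
(.lf (nat_lit 288395) (.g (nat_lit 1069) (.e (nat_lit 294954) (nat_lit 12) (.e (nat_lit 385109) (nat_lit 51) (.e (nat_lit 794682) (nat_lit 25) .nil))) .nil)) 
(.lf (nat_lit 288459) (.g (nat_lit 1963) (.e (nat_lit 294957) (nat_lit 13) (.e (nat_lit 393301) (nat_lit 27) (.e (nat_lit 491558) (nat_lit 10) (.e (nat_lit 344090) (nat_lit 18) .nil)))) .nil))) (.nd (nat_lit 6) 
(.lf (nat_lit 288427) (.g (nat_lit 1627) (.e (nat_lit 294957) (nat_lit 13) (.e (nat_lit 393260) (nat_lit 21) (.e (nat_lit 409616) (nat_lit 10) (.e (nat_lit 7936) (nat_lit 313) .nil)))) .nil)) 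
(.lf (nat_lit 288491) (.g (nat_lit 2520) (.e (nat_lit 294957) (nat_lit 13) (.e (nat_lit 393301) (nat_lit 27) (.e (nat_lit 491560) (nat_lit 10) (.e (nat_lit 344087) (nat_lit 18) .nil)))) .nil)))) (.nd (nat_lit 5) (.nd (nat_lit 6) 
(.lf (nat_lit 288411) (.g (nat_lit 508) (.e (nat_lit 294955) (nat_lit 12) (.e (nat_lit 385105) (nat_lit 50) (.e (nat_lit 786478) (nat_lit 29) .nil))) .nil)) 
(.lf (nat_lit 288475) (.g (nat_lit 2453) (.e (nat_lit 294957) (nat_lit 13) (.e (nat_lit 393301) (nat_lit 27) (.e (nat_lit 491558) (nat_lit 10) (.e (nat_lit 344174) (nat_lit 42) (.e (nat_lit 761860) (nat_lit 0) .nil))))) .nil))) (.nd (nat_lit 6) 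
(.lf (nat_lit 288443) (.g (nat_lit 948) (.e (nat_lit 294957) (nat_lit 13) (.e (nat_lit 393283) (nat_lit 24) (.e (nat_lit 434276) (nat_lit 39) (.e (nat_lit 663565) (nat_lit 3) .nil)))) .nil)) 
(.lf (nat_lit 288507) (.g (nat_lit 2389) (.e (nat_lit 294957) (nat_lit 13) (.e (nat_lit 393301) (nat_lit 27) (.e (nat_lit 491560) (nat_lit 10) (.e (nat_lit 344097) (nat_lit 18) .nil)))) .nil)))))) (.nd (nat_lit 3) (.nd (nat_lit 4) (.nd (nat_lit 5) (.nd (nat_lit 6) 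
(.lf (nat_lit 288391) (.g (nat_lit 432) (.e (nat_lit 294954) (nat_lit 12) (.e (nat_lit 392960) (nat_lit 24) (.e (nat_lit 516151) (nat_lit 9) (.e (nat_lit 426170) (nat_lit 7) (.e (nat_lit 417536) (nat_lit 10) (.e (nat_lit 957) (nat_lit 79) (.e (nat_lit 811026) (nat_lit 8) .nil))))))) (.g (nat_lit 4) .nil .nil))) 
(.lf (nat_lit 288455) (.g (nat_lit 2189) (.e (nat_lit 294957) (nat_lit 13) (.e (nat_lit 393301) (nat_lit 27) (.e (nat_lit 491552) (nat_lit 9) (.e (nat_lit 336363) (nat_lit 26) (.e (nat_lit 417812) (nat_lit 7) .nil))))) (.g (nat_lit 0) .nil .nil)))) (.nd (nat_lit 6) 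
(.lf (nat_lit 288423) (.g (nat_lit 955) (.e (nat_lit 294957) (nat_lit 13) (.e (nat_lit 393234) (nat_lit 17) (.e (nat_lit 7587) (nat_lit 406) (.e (nat_lit 65648) (nat_lit 26) .nil)))) .nil)) 
(.lf (nat_lit 288487) (.g (nat_lit 3564) (.e (nat_lit 294957) (nat_lit 13) (.e (nat_lit 393301) (nat_lit 27) (.e (nat_lit 491559) (nat_lit 10) (.e (nat_lit 344177) (nat_lit 43) (.e (nat_lit 770052) (nat_lit 0) (.e (nat_lit 2786) (nat_lit 179) .nil)))))) (.g (nat_lit 5) .nil .nil))))) (.nd (nat_lit 5) (.nd (nat_lit 6) 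
(.lf (nat_lit 288407) (.g (nat_lit 324) (.e (nat_lit 294955) (nat_lit 12) (.e (nat_lit 385104) (nat_lit 50) (.e (nat_lit 786470) (nat_lit 27) .nil))) .nil)) 
(.lf (nat_lit 288471) (.g (nat_lit 2179) (.e (nat_lit 294957) (nat_lit 13) (.e (nat_lit 393301) (nat_lit 27) (.e (nat_lit 491558) (nat_lit 10) (.e (nat_lit 344100) (nat_lit 18) .nil)))) .nil))) (.nd (nat_lit 6) 
(.lf (nat_lit 288439) (.g (nat_lit 1750) (.e (nat_lit 294957) (nat_lit 13) (.e (nat_lit 393268) (nat_lit 23) (.e (nat_lit 426444) (nat_lit 19) (.e (nat_lit 106556) (nat_lit 15) .nil)))) .nil)) 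
(.lf (nat_lit 288503) (.g (nat_lit 2548) (.e (nat_lit 294957) (nat_lit 13) (.e (nat_lit 393301) (nat_lit 27) (.e (nat_lit 491560) (nat_lit 10) (.e (nat_lit 344094) (nat_lit 18) (.e (nat_lit 7247) (nat_lit 383) .nil))))) .nil))))) (.nd (nat_lit 4) (.nd (nat_lit 5) (.nd (nat_lit 6) 
(.lf (nat_lit 288399) (.g (nat_lit 3561) (.e (nat_lit 294955) (nat_lit 12) (.e (nat_lit 385073) (nat_lit 31) (.e (nat_lit 573493) (nat_lit 15) (.e (nat_lit 81953) (nat_lit 22) (.e (nat_lit 90187) (nat_lit 18) .nil))))) .nil)) 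
(.lf (nat_lit 288463) (.g (nat_lit 1863) (.e (nat_lit 294957) (nat_lit 13) (.e (nat_lit 393301) (nat_lit 27) (.e (nat_lit 491558) (nat_lit 10) (.e (nat_lit 344096) (nat_lit 18) .nil)))) .nil))) (.nd (nat_lit 6) 
(.lf (nat_lit 288431) (.g (nat_lit 766) (.e (nat_lit 294957) (nat_lit 13) (.e (nat_lit 393260) (nat_lit 21) (.e (nat_lit 409644) (nat_lit 18) .nil))) .nil)) 
(.lf (nat_lit 288495) (.g (nat_lit 2544) (.e (nat_lit 294957) (nat_lit 13) (.e (nat_lit 393301) (nat_lit 27) (.e (nat_lit 491560) (nat_lit 10) (.e (nat_lit 344090) (nat_lit 18) .nil)))) .nil)))) (.nd (nat_lit 5) (.nd (nat_lit 6) 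
(.lf (nat_lit 288415) (.g (nat_lit 1315) (.e (nat_lit 294955) (nat_lit 12) (.e (nat_lit 385105) (nat_lit 50) (.e (nat_lit 786480) (nat_lit 29) (.e (nat_lit 360192) (nat_lit 4) .nil)))) .nil)) 
(.lf (nat_lit 288479) (.g (nat_lit 2423) (.e (nat_lit 294957) (nat_lit 13) (.e (nat_lit 393301) (nat_lit 27) (.e (nat_lit 491559) (nat_lit 10) (.e (nat_lit 344095) (nat_lit 18) .nil)))) .nil))) (.nd (nat_lit 6) 
(.lf (nat_lit 288447) (.g (nat_lit 975) (.e (nat_lit 294957) (nat_lit 13) (.e (nat_lit 393294) (nat_lit 26) (.e (nat_lit 475201) (nat_lit 40) .nil))) .nil)) 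
(.lf (nat_lit 288511) (.g (nat_lit 3333) (.e (nat_lit 294957) (nat_lit 13) (.e (nat_lit 393301) (nat_lit 27) (.e (nat_lit 491560) (nat_lit 10) (.e (nat_lit 344097) (nat_lit 18) (.e (nat_lit 7249) (nat_lit 383) .nil))))) .nil)))))))))

noncomputable def tv3649 : DT := (.nd (nat_lit 0) (.nd (nat_lit 1) (.nd (nat_lit 2) (.nd (nat_lit 3) (.nd (nat_lit 4) (.nd (nat_lit 5) (.nd (nat_lit 6) 
(.lf (nat_lit 288512) (.g (nat_lit 3583) (.e (nat_lit 294957) (nat_lit 13) (.e (nat_lit 393301) (nat_lit 27) (.e (nat_lit 491560) (nat_lit 10) (.e (nat_lit 344097) (nat_lit 18) (.e (nat_lit 7252) (nat_lit 383) (.e (nat_lit 8210) (nat_lit 8) .nil)))))) (.g (nat_lit 4) .nil .nil))) 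
(.lf (nat_lit 288576) (.g (nat_lit 2007) (.e (nat_lit 294958) (nat_lit 13) (.e (nat_lit 393283) (nat_lit 24) (.e (nat_lit 434275) (nat_lit 39) (.e (nat_lit 663589) (nat_lit 14) (.e (nat_lit 2515) (nat_lit 157) (.e (nat_lit 4881) (nat_lit 287) (.e (nat_lit 1367) (nat_lit 103) .nil))))))) (.g (nat_lit 4) .nil .nil)))) (.nd (nat_lit 6) 
(.lf (nat_lit 288544) (.g (nat_lit 1578) (.e (nat_lit 294958) (nat_lit 13) (.e (nat_lit 393260) (nat_lit 21) (.e (nat_lit 409645) (nat_lit 18) (.e (nat_lit 311040) (nat_lit 25) .nil)))) .nil)) 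
(.lf (nat_lit 288608) (.g (nat_lit 2737) (.e (nat_lit 294958) (nat_lit 13) (.e (nat_lit 393301) (nat_lit 27) (.e (nat_lit 491558) (nat_lit 10) (.e (nat_lit 344097) (nat_lit 18) (.e (nat_lit 7144) (nat_lit 382) .nil))))) .nil)))) (.nd (nat_lit 5) (.nd (nat_lit 6) 
(.lf (nat_lit 288528) (.g (nat_lit 563) (.e (nat_lit 294958) (nat_lit 13) (.e (nat_lit 393234) (nat_lit 17) (.e (nat_lit 7587) (nat_lit 406) .nil))) .nil)) 
(.lf (nat_lit 288592) (.g (nat_lit 2295) (.e (nat_lit 294958) (nat_lit 13) (.e (nat_lit 393298) (nat_lit 27) (.e (nat_lit 491566) (nat_lit 12) (.e (nat_lit 385036) (nat_lit 16) .nil)))) .nil))) (.nd (nat_lit 6) 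
(.lf (nat_lit 288560) (.g (nat_lit 1180) (.e (nat_lit 294958) (nat_lit 13) (.e (nat_lit 393271) (nat_lit 23) (.e (nat_lit 425986) (nat_lit 0) .nil))) .nil)) 
(.lf (nat_lit 288624) (.g (nat_lit 3281) (.e (nat_lit 294958) (nat_lit 13) (.e (nat_lit 393301) (nat_lit 27) (.e (nat_lit 491559) (nat_lit 10) (.e (nat_lit 344097) (nat_lit 18) (.e (nat_lit 7252) (nat_lit 383) .nil))))) .nil))))) (.nd (nat_lit 4) (.nd (nat_lit 5) (.nd (nat_lit 6) 
(.lf (nat_lit 288520) (.g (nat_lit 2919) (.e (nat_lit 294957) (nat_lit 13) (.e (nat_lit 393301) (nat_lit 27) (.e (nat_lit 491560) (nat_lit 10) (.e (nat_lit 344174) (nat_lit 42) (.e (nat_lit 761860) (nat_lit 0) (.e (nat_lit 2783) (nat_lit 179) .nil)))))) (.g (nat_lit 4) .nil .nil))) 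
(.lf (nat_lit 288584) (.g (nat_lit 945) (.e (nat_lit 294958) (nat_lit 13) (.e (nat_lit 393294) (nat_lit 26) (.e (nat_lit 475219) (nat_lit 44) .nil))) .nil))) (.nd (nat_lit 6) 
(.lf (nat_lit 288552) (.g (nat_lit 2165) (.e (nat_lit 294958) (nat_lit 13) (.e (nat_lit 393260) (nat_lit 21) (.e (nat_lit 409648) (nat_lit 18) (.e (nat_lit 303149) (nat_lit 15) (.e (nat_lit 6120) (nat_lit 332) .nil))))) .nil)) 
(.lf (nat_lit 288616) (.g (nat_lit 2407) (.e (nat_lit 294958) (nat_lit 13) (.e (nat_lit 393301) (nat_lit 27) (.e (nat_lit 491559) (nat_lit 10) (.e (nat_lit 344090) (nat_lit 18) .nil)))) .nil)))) (.nd (nat_lit 5) (.nd (nat_lit 6) 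
(.lf (nat_lit 288536) (.g (nat_lit 536) (.e (nat_lit 294958) (nat_lit 13) (.e (nat_lit 393260) (nat_lit 21) (.e (nat_lit 409623) (nat_lit 10) .nil))) .nil)) 
(.lf (nat_lit 288600) (.g (nat_lit 706) (.e (nat_lit 294958) (nat_lit 13) (.e (nat_lit 393301) (nat_lit 27) (.e (nat_lit 491558) (nat_lit 10) .nil))) .nil))) (.nd (nat_lit 6) 
(.lf (nat_lit 288568) (.g (nat_lit 445) (.e (nat_lit 294958) (nat_lit 13) (.e (nat_lit 393282) (nat_lit 24) (.e (nat_lit 434276) (nat_lit 39) .nil))) .nil)) 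
(.lf (nat_lit 288632) (.g (nat_lit 2107) (.e (nat_lit 294958) (nat_lit 13) (.e (nat_lit 393301) (nat_lit 27) (.e (nat_lit 491559) (nat_lit 10) (.e (nat_lit 344177) (nat_lit 43) .nil)))) .nil)))))) (.nd (nat_lit 3) (.nd (nat_lit 4) (.nd (nat_lit 5) (.nd (nat_lit 6) 
(.lf (nat_lit 288516) (.g (nat_lit 2980) (.e (nat_lit 294957) (nat_lit 13) (.e (nat_lit 393301) (nat_lit 27) (.e (nat_lit 491560) (nat_lit 10) (.e (nat_lit 344101) (nat_lit 18) .nil)))) .nil)) 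
(.lf (nat_lit 288580) (.g (nat_lit 1296) (.e (nat_lit 294958) (nat_lit 13) (.e (nat_lit 393291) (nat_lit 26) (.e (nat_lit 475219) (nat_lit 44) (.e (nat_lit 737286) (nat_lit 0) .nil)))) .nil))) (.nd (nat_lit 6) 
(.lf (nat_lit 288548) (.g (nat_lit 734) (.e (nat_lit 294958) (nat_lit 13) (.e (nat_lit 393260) (nat_lit 21) (.e (nat_lit 409647) (nat_lit 18) .nil))) .nil)) 
(.lf (nat_lit 288612) (.g (nat_lit 3309) (.e (nat_lit 294958) (nat_lit 13) (.e (nat_lit 393301) (nat_lit 27) (.e (nat_lit 491558) (nat_lit 10) (.e (nat_lit 344174) (nat_lit 42) (.e (nat_lit 761856) (nat_lit 0) (.e (nat_lit 2783) (nat_lit 179) .nil)))))) (.g (nat_lit 4) .nil .nil))))) (.nd (nat_lit 5) (.nd (nat_lit 6) 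
(.lf (nat_lit 288532) (.g (nat_lit 1672) (.e (nat_lit 294958) (nat_lit 13) (.e (nat_lit 393238) (nat_lit 17) (.e (nat_lit 6989) (nat_lit 377) (.e (nat_lit 2777) (nat_lit 178) .nil)))) .nil)) 
(.lf (nat_lit 288596) (.g (nat_lit 439) (.e (nat_lit 294958) (nat_lit 13) (.e (nat_lit 393301) (nat_lit 27) (.e (nat_lit 491552) (nat_lit 9) .nil))) .nil))) (.nd (nat_lit 6) 
(.lf (nat_lit 288564) (.g (nat_lit 1526) (.e (nat_lit 294958) (nat_lit 13) (.e (nat_lit 393281) (nat_lit 23) (.e (nat_lit 426100) (nat_lit 1) (.e (nat_lit 164398) (nat_lit 256) (.e (nat_lit 57399) (nat_lit 10) .nil))))) .nil)) 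
(.lf (nat_lit 288628) (.g (nat_lit 2383) (.e (nat_lit 294958) (nat_lit 13) (.e (nat_lit 393301) (nat_lit 27) (.e (nat_lit 491559) (nat_lit 10) (.e (nat_lit 344099) (nat_lit 18) .nil)))) .nil))))) (.nd (nat_lit 4) (.nd (nat_lit 5) (.nd (nat_lit 6) 
(.lf (nat_lit 288524) (.g (nat_lit 2765) (.e (nat_lit 294957) (nat_lit 13) (.e (nat_lit 393301) (nat_lit 27) (.e (nat_lit 491563) (nat_lit 12) (.e (nat_lit 385033) (nat_lit 16) .nil)))) .nil)) 
(.lf (nat_lit 288588) (.g (nat_lit 1232) (.e (nat_lit 294958) (nat_lit 13) (.e (nat_lit 393296) (nat_lit 26) (.e (nat_lit 475216) (nat_lit 44) (.e (nat_lit 737288) (nat_lit 0) .nil)))) .nil))) (.nd (nat_lit 6) 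
(.lf (nat_lit 288556) (.g (nat_lit 2487) (.e (nat_lit 294958) (nat_lit 13) (.e (nat_lit 393260) (nat_lit 21) (.e (nat_lit 409649) (nat_lit 18) (.e (nat_lit 303149) (nat_lit 15) (.e (nat_lit 6112) (nat_lit 332) (.e (nat_lit 7936) (nat_lit 103) .nil)))))) (.g (nat_lit 4) .nil .nil))) 
(.lf (nat_lit 288620) (.g (nat_lit 2370) (.e (nat_lit 294958) (nat_lit 13) (.e (nat_lit 393301) (nat_lit 27) (.e (nat_lit 491559) (nat_lit 10) (.e (nat_lit 344094) (nat_lit 18) .nil)))) .nil)))) (.nd (nat_lit 5) (.nd (nat_lit 6) 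
(.lf (nat_lit 288540) (.g (nat_lit 1385) (.e (nat_lit 294958) (nat_lit 13) (.e (nat_lit 393260) (nat_lit 21) (.e (nat_lit 409644) (nat_lit 18) (.e (nat_lit 311040) (nat_lit 25) .nil)))) .nil)) 
(.lf (nat_lit 288604) (.g (nat_lit 2150) (.e (nat_lit 294958) (nat_lit 13) (.e (nat_lit 393301) (nat_lit 27) (.e (nat_lit 491558) (nat_lit 10) (.e (nat_lit 344093) (nat_lit 18) .nil)))) .nil))) (.nd (nat_lit 6) 
(.lf (nat_lit 288572) (.g (nat_lit 430) (.e (nat_lit 294958) (nat_lit 13) (.e (nat_lit 393283) (nat_lit 24) (.e (nat_lit 434274) (nat_lit 39) .nil))) .nil)) 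
(.lf (nat_lit 288636) (.g (nat_lit 2150) (.e (nat_lit 294958) (nat_lit 13) (.e (nat_lit 393301) (nat_lit 27) (.e (nat_lit 491560) (nat_lit 10) (.e (nat_lit 344087) (nat_lit 18) .nil)))) .nil))))))) (.nd (nat_lit 2) (.nd (nat_lit 3) (.nd (nat_lit 4) (.nd (nat_lit 5) (.nd (nat_lit 6) 
(.lf (nat_lit 288514) (.g (nat_lit 2980) (.e (nat_lit 294957) (nat_lit 13) (.e (nat_lit 393301) (nat_lit 27) (.e (nat_lit 491560) (nat_lit 10) (.e (nat_lit 344098) (nat_lit 18) .nil)))) .nil)) 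
(.lf (nat_lit 288578) (.g (nat_lit 434) (.e (nat_lit 294958) (nat_lit 13) (.e (nat_lit 393283) (nat_lit 24) (.e (nat_lit 434281) (nat_lit 40) .nil))) .nil))) (.nd (nat_lit 6) 
(.lf (nat_lit 288546) (.g (nat_lit 1703) (.e (nat_lit 294958) (nat_lit 13) (.e (nat_lit 393260) (nat_lit 21) (.e (nat_lit 409646) (nat_lit 18) (.e (nat_lit 303149) (nat_lit 15) (.e (nat_lit 6112) (nat_lit 332) .nil))))) .nil)) 
(.lf (nat_lit 288610) (.g (nat_lit 2188) (.e (nat_lit 294958) (nat_lit 13) (.e (nat_lit 393301) (nat_lit 27) (.e (nat_lit 491558) (nat_lit 10) (.e (nat_lit 344098) (nat_lit 18) .nil)))) .nil)))) (.nd (nat_lit 5) (.nd (nat_lit 6) 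
(.lf (nat_lit 288530) (.g (nat_lit 515) (.e (nat_lit 294958) (nat_lit 13) (.e (nat_lit 393234) (nat_lit 17) (.e (nat_lit 7593) (nat_lit 407) .nil))) .nil)) 
(.lf (nat_lit 288594) (.g (nat_lit 1053) (.e (nat_lit 294958) (nat_lit 13) (.e (nat_lit 393301) (nat_lit 27) (.e (nat_lit 491547) (nat_lit 9) .nil))) .nil))) (.nd (nat_lit 6) 
(.lf (nat_lit 288562) (.g (nat_lit 639) (.e (nat_lit 294958) (nat_lit 13) (.e (nat_lit 393281) (nat_lit 23) (.e (nat_lit 426099) (nat_lit 1) (.e (nat_lit 164403) (nat_lit 256) .nil)))) .nil)) 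
(.lf (nat_lit 288626) (.g (nat_lit 3948) (.e (nat_lit 294958) (nat_lit 13) (.e (nat_lit 393301) (nat_lit 27) (.e (nat_lit 491559) (nat_lit 10) (.e (nat_lit 344097) (nat_lit 18) (.e (nat_lit 7254) (nat_lit 383) (.e (nat_lit 8210) (nat_lit 8) .nil)))))) (.g (nat_lit 4) .nil .nil)))))) (.nd (nat_lit 4) (.nd (nat_lit 5) (.nd (nat_lit 6) 
(.lf (nat_lit 288522) (.g (nat_lit 2497) (.e (nat_lit 294957) (nat_lit 13) (.e (nat_lit 393301) (nat_lit 27) (.e (nat_lit 491560) (nat_lit 10) (.e (nat_lit 344176) (nat_lit 43) .nil)))) .nil)) 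
(.lf (nat_lit 288586) (.g (nat_lit 991) (.e (nat_lit 294958) (nat_lit 13) (.e (nat_lit 393296) (nat_lit 26) (.e (nat_lit 475207) (nat_lit 41) .nil))) .nil))) (.nd (nat_lit 6) 
(.lf (nat_lit 288554) (.g (nat_lit 1514) (.e (nat_lit 294958) (nat_lit 13) (.e (nat_lit 393260) (nat_lit 21) (.e (nat_lit 409648) (nat_lit 18) (.e (nat_lit 311040) (nat_lit 26) .nil)))) .nil)) 
(.lf (nat_lit 288618) (.g (nat_lit 2999) (.e (nat_lit 294958) (nat_lit 13) (.e (nat_lit 393301) (nat_lit 27) (.e (nat_lit 491559) (nat_lit 10) (.e (nat_lit 344091) (nat_lit 18) (.e (nat_lit 7119) (nat_lit 382) .nil))))) .nil)))) (.nd (nat_lit 5) (.nd (nat_lit 6) 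
(.lf (nat_lit 288538) (.g (nat_lit 710) (.e (nat_lit 294958) (nat_lit 13) (.e (nat_lit 393260) (nat_lit 21) (.e (nat_lit 409644) (nat_lit 18) .nil))) .nil)) 
(.lf (nat_lit 288602) (.g (nat_lit 1875) (.e (nat_lit 294958) (nat_lit 13) (.e (nat_lit 393301) (nat_lit 27) (.e (nat_lit 491558) (nat_lit 10) (.e (nat_lit 344090) (nat_lit 18) .nil)))) .nil))) (.nd (nat_lit 6) 
(.lf (nat_lit 288570) (.g (nat_lit 1800) (.e (nat_lit 294958) (nat_lit 13) (.e (nat_lit 393283) (nat_lit 24) (.e (nat_lit 434272) (nat_lit 38) (.e (nat_lit 655363) (nat_lit 0) (.e (nat_lit 2828) (nat_lit 182) (.e (nat_lit 417536) (nat_lit 7) .nil)))))) (.g (nat_lit 4) .nil .nil))) 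
(.lf (nat_lit 288634) (.g (nat_lit 3102) (.e (nat_lit 294958) (nat_lit 13) (.e (nat_lit 393301) (nat_lit 27) (.e (nat_lit 491559) (nat_lit 10) (.e (nat_lit 344177) (nat_lit 43) (.e (nat_lit 777984) (nat_lit 0) (.e (nat_lit 2785) (nat_lit 179) .nil)))))) (.g (nat_lit 4) .nil .nil))))))) (.nd (nat_lit 3) (.nd (nat_lit 4) (.nd (nat_lit 5) (.nd (nat_lit 6) 
(.lf (nat_lit 288518) (.g (nat_lit 2366) (.e (nat_lit 294957) (nat_lit 13) (.e (nat_lit 393301) (nat_lit 27) (.e (nat_lit 491560) (nat_lit 10) (.e (nat_lit 344174) (nat_lit 42) .nil)))) .nil)) 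
(.lf (nat_lit 288582) (.g (nat_lit 968) (.e (nat_lit 294958) (nat_lit 13) (.e (nat_lit 393294) (nat_lit 26) (.e (nat_lit 475200) (nat_lit 40) .nil))) .nil))) (.nd (nat_lit 6) 
(.lf (nat_lit 288550) (.g (nat_lit 1778) (.e (nat_lit 294958) (nat_lit 13) (.e (nat_lit 393260) (nat_lit 21) (.e (nat_lit 409648) (nat_lit 18) (.e (nat_lit 303147) (nat_lit 15) .nil)))) .nil)) 
(.lf (nat_lit 288614) (.g (nat_lit 2446) (.e (nat_lit 294958) (nat_lit 13) (.e (nat_lit 393301) (nat_lit 27) (.e (nat_lit 491558) (nat_lit 10) (.e (nat_lit 344174) (nat_lit 42) (.e (nat_lit 761859) (nat_lit 0) .nil))))) .nil)))) (.nd (nat_lit 5) (.nd (nat_lit 6) 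
(.lf (nat_lit 288534) (.g (nat_lit 1712) (.e (nat_lit 294958) (nat_lit 13) (.e (nat_lit 393260) (nat_lit 21) (.e (nat_lit 409616) (nat_lit 10) (.e (nat_lit 7936) (nat_lit 313) .nil)))) .nil)) 
(.lf (nat_lit 288598) (.g (nat_lit 1023) (.e (nat_lit 294958) (nat_lit 13) (.e (nat_lit 393301) (nat_lit 27) (.e (nat_lit 491556) (nat_lit 9) .nil))) .nil))) (.nd (nat_lit 6) 
(.lf (nat_lit 288566) (.g (nat_lit 1582) (.e (nat_lit 294958) (nat_lit 13) (.e (nat_lit 393281) (nat_lit 23) (.e (nat_lit 426100) (nat_lit 1) (.e (nat_lit 164399) (nat_lit 256) (.e (nat_lit 57402) (nat_lit 11) .nil))))) .nil)) 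
(.lf (nat_lit 288630) (.g (nat_lit 2419) (.e (nat_lit 294958) (nat_lit 13) (.e (nat_lit 393301) (nat_lit 27) (.e (nat_lit 491559) (nat_lit 10) (.e (nat_lit 344101) (nat_lit 18) (.e (nat_lit 7255) (nat_lit 383) .nil))))) .nil))))) (.nd (nat_lit 4) (.nd (nat_lit 5) (.nd (nat_lit 6) 
(.lf (nat_lit 288526) (.g (nat_lit 735) (.e (nat_lit 294958) (nat_lit 13) (.e (nat_lit 393229) (nat_lit 9) (.e (nat_lit 343808) (nat_lit 20) .nil))) .nil)) 
(.lf (nat_lit 288590) (.g (nat_lit 1949) (.e (nat_lit 294958) (nat_lit 13) (.e (nat_lit 393297) (nat_lit 27) (.e (nat_lit 491566) (nat_lit 12) (.e (nat_lit 385036) (nat_lit 16) .nil)))) .nil))) (.nd (nat_lit 6) 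
(.lf (nat_lit 288558) (.g (nat_lit 1534) (.e (nat_lit 294958) (nat_lit 13) (.e (nat_lit 393260) (nat_lit 21) (.e (nat_lit 409649) (nat_lit 18) (.e (nat_lit 311040) (nat_lit 26) .nil)))) .nil)) 
(.lf (nat_lit 288622) (.g (nat_lit 3033) (.e (nat_lit 294958) (nat_lit 13) (.e (nat_lit 393301) (nat_lit 27) (.e (nat_lit 491559) (nat_lit 10) (.e (nat_lit 344096) (nat_lit 18) (.e (nat_lit 7247) (nat_lit 383) .nil))))) .nil)))) (.nd (nat_lit 5) (.nd (nat_lit 6) 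
(.lf (nat_lit 288542) (.g (nat_lit 2666) (.e (nat_lit 294958) (nat_lit 13) (.e (nat_lit 393260) (nat_lit 21) (.e (nat_lit 409645) (nat_lit 18) (.e (nat_lit 303149) (nat_lit 15) (.e (nat_lit 6098) (nat_lit 332) .nil))))) .nil)) 
(.lf (nat_lit 288606) (.g (nat_lit 1776) (.e (nat_lit 294958) (nat_lit 13) (.e (nat_lit 393301) (nat_lit 27) (.e (nat_lit 491558) (nat_lit 10) (.e (nat_lit 344096) (nat_lit 18) .nil)))) .nil))) (.nd (nat_lit 6) 
(.lf (nat_lit 288574) (.g (nat_lit 1749) (.e (nat_lit 294958) (nat_lit 13) (.e (nat_lit 393283) (nat_lit 24) (.e (nat_lit 434275) (nat_lit 39) (.e (nat_lit 663565) (nat_lit 3) (.e (nat_lit 57718) (nat_lit 176) .nil))))) .nil)) 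
(.lf (nat_lit 288638) (.g (nat_lit 2550) (.e (nat_lit 294958) (nat_lit 13) (.e (nat_lit 393301) (nat_lit 27) (.e (nat_lit 491560) (nat_lit 10) (.e (nat_lit 344089) (nat_lit 18) .nil)))) .nil)))))))) (.nd (nat_lit 1) (.nd (nat_lit 2) (.nd (nat_lit 3) (.nd (nat_lit 4) (.nd (nat_lit 5) (.nd (nat_lit 6) 
(.lf (nat_lit 288513) (.g (nat_lit 4101) (.e (nat_lit 294957) (nat_lit 13) (.e (nat_lit 393301) (nat_lit 27) (.e (nat_lit 491560) (nat_lit 10) (.e (nat_lit 344097) (nat_lit 18) (.e (nat_lit 7254) (nat_lit 383) (.e (nat_lit 8210) (nat_lit 8) .nil)))))) (.g (nat_lit 6) .nil .nil))) 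
(.lf (nat_lit 288577) (.g (nat_lit 2129) (.e (nat_lit 294958) (nat_lit 13) (.e (nat_lit 393283) (nat_lit 24) (.e (nat_lit 434275) (nat_lit 39) (.e (nat_lit 663589) (nat_lit 14) (.e (nat_lit 2761) (nat_lit 176) (.e (nat_lit 270374) (nat_lit 17) .nil)))))) (.g (nat_lit 4) .nil .nil)))) (.nd (nat_lit 6) 
(.lf (nat_lit 288545) (.g (nat_lit 1328) (.e (nat_lit 294958) (nat_lit 13) (.e (nat_lit 393260) (nat_lit 21) (.e (nat_lit 409646) (nat_lit 18) (.e (nat_lit 303149) (nat_lit 15) .nil)))) .nil)) 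
(.lf (nat_lit 288609) (.g (nat_lit 3488) (.e (nat_lit 294958) (nat_lit 13) (.e (nat_lit 393301) (nat_lit 27) (.e (nat_lit 491558) (nat_lit 10) (.e (nat_lit 344097) (nat_lit 18) (.e (nat_lit 7252) (nat_lit 383) (.e (nat_lit 8210) (nat_lit 8) .nil)))))) (.g (nat_lit 4) .nil .nil))))) (.nd (nat_lit 5) (.nd (nat_lit 6) 
(.lf (nat_lit 288529) (.g (nat_lit 1286) (.e (nat_lit 294958) (nat_lit 13) (.e (nat_lit 393234) (nat_lit 17) (.e (nat_lit 7591) (nat_lit 407) (.e (nat_lit 73733) (nat_lit 0) .nil)))) .nil)) 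
(.lf (nat_lit 288593) (.g (nat_lit 675) (.e (nat_lit 294958) (nat_lit 13) (.e (nat_lit 393301) (nat_lit 27) (.e (nat_lit 491546) (nat_lit 9) .nil))) .nil))) (.nd (nat_lit 6) 
(.lf (nat_lit 288561) (.g (nat_lit 396) (.e (nat_lit 294958) (nat_lit 13) (.e (nat_lit 393281) (nat_lit 23) (.e (nat_lit 426099) (nat_lit 1) .nil))) .nil)) 
(.lf (nat_lit 288625) (.g (nat_lit 3666) (.e (nat_lit 294958) (nat_lit 13) (.e (nat_lit 393301) (nat_lit 27) (.e (nat_lit 491559) (nat_lit 10) (.e (nat_lit 344097) (nat_lit 18) (.e (nat_lit 7253) (nat_lit 383) (.e (nat_lit 8210) (nat_lit 8) .nil)))))) (.g (nat_lit 4) .nil .nil)))))) (.nd (nat_lit 4) (.nd (nat_lit 5) (.nd (nat_lit 6) 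
(.lf (nat_lit 288521) (.g (nat_lit 2976) (.e (nat_lit 294957) (nat_lit 13) (.e (nat_lit 393301) (nat_lit 27) (.e (nat_lit 491560) (nat_lit 10) (.e (nat_lit 344174) (nat_lit 42) (.e (nat_lit 761860) (nat_lit 0) (.e (nat_lit 2786) (nat_lit 179) .nil)))))) (.g (nat_lit 4) .nil .nil))) 
(.lf (nat_lit 288585) (.g (nat_lit 1416) (.e (nat_lit 294958) (nat_lit 13) (.e (nat_lit 393294) (nat_lit 26) (.e (nat_lit 475220) (nat_lit 44) (.e (nat_lit 737286) (nat_lit 0) .nil)))) .nil))) (.nd (nat_lit 6) 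
(.lf (nat_lit 288553) (.g (nat_lit 1514) (.e (nat_lit 294958) (nat_lit 13) (.e (nat_lit 393260) (nat_lit 21) (.e (nat_lit 409648) (nat_lit 18) (.e (nat_lit 311040) (nat_lit 25) .nil)))) .nil)) 
(.lf (nat_lit 288617) (.g (nat_lit 2326) (.e (nat_lit 294958) (nat_lit 13) (.e (nat_lit 393301) (nat_lit 27) (.e (nat_lit 491559) (nat_lit 10) (.e (nat_lit 344091) (nat_lit 18) .nil)))) .nil)))) (.nd (nat_lit 5) (.nd (nat_lit 6) 
(.lf (nat_lit 288537) (.g (nat_lit 518) (.e (nat_lit 294958) (nat_lit 13) (.e (nat_lit 393260) (nat_lit 21) (.e (nat_lit 409643) (nat_lit 18) .nil))) .nil)) 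
(.lf (nat_lit 288601) (.g (nat_lit 2164) (.e (nat_lit 294958) (nat_lit 13) (.e (nat_lit 393301) (nat_lit 27) (.e (nat_lit 491558) (nat_lit 10) (.e (nat_lit 344088) (nat_lit 18) .nil)))) .nil))) (.nd (nat_lit 6) 
(.lf (nat_lit 288569) (.g (nat_lit 2155) (.e (nat_lit 294958) (nat_lit 13) (.e (nat_lit 393283) (nat_lit 24) (.e (nat_lit 434271) (nat_lit 38) (.e (nat_lit 655363) (nat_lit 0) (.e (nat_lit 2828) (nat_lit 182) (.e (nat_lit 417536) (nat_lit 7) .nil)))))) (.g (nat_lit 5) .nil .nil))) 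
(.lf (nat_lit 288633) (.g (nat_lit 2978) (.e (nat_lit 294958) (nat_lit 13) (.e (nat_lit 393301) (nat_lit 27) (.e (nat_lit 491559) (nat_lit 10) (.e (nat_lit 344177) (nat_lit 43) (.e (nat_lit 777984) (nat_lit 0) .nil))))) .nil)))))) (.nd (nat_lit 3) (.nd (nat_lit 4) (.nd (nat_lit 5) (.nd (nat_lit 6) 
(.lf (nat_lit 288517) (.g (nat_lit 1997) (.e (nat_lit 294957) (nat_lit 13) (.e (nat_lit 393301) (nat_lit 27) (.e (nat_lit 491560) (nat_lit 10) (.e (nat_lit 344173) (nat_lit 42) .nil)))) .nil)) 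
(.lf (nat_lit 288581) (.g (nat_lit 2221) (.e (nat_lit 294958) (nat_lit 13) (.e (nat_lit 393294) (nat_lit 26) (.e (nat_lit 475199) (nat_lit 40) (.e (nat_lit 704846) (nat_lit 15) .nil)))) .nil))) (.nd (nat_lit 6) 
(.lf (nat_lit 288549) (.g (nat_lit 517) (.e (nat_lit 294958) (nat_lit 13) (.e (nat_lit 393260) (nat_lit 21) (.e (nat_lit 409648) (nat_lit 18) .nil))) .nil)) 
(.lf (nat_lit 288613) (.g (nat_lit 3193) (.e (nat_lit 294958) (nat_lit 13) (.e (nat_lit 393301) (nat_lit 27) (.e (nat_lit 491558) (nat_lit 10) (.e (nat_lit 344174) (nat_lit 42) (.e (nat_lit 761857) (nat_lit 0) (.e (nat_lit 2783) (nat_lit 179) .nil)))))) (.g (nat_lit 4) .nil .nil))))) (.nd (nat_lit 5) (.nd (nat_lit 6) 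
(.lf (nat_lit 288533) (.g (nat_lit 2097) (.e (nat_lit 294958) (nat_lit 13) (.e (nat_lit 393260) (nat_lit 21) (.e (nat_lit 409616) (nat_lit 10) (.e (nat_lit 5630) (nat_lit 312) .nil)))) .nil)) 
(.lf (nat_lit 288597) (.g (nat_lit 2598) (.e (nat_lit 294958) (nat_lit 13) (.e (nat_lit 393301) (nat_lit 27) (.e (nat_lit 491552) (nat_lit 9) (.e (nat_lit 336363) (nat_lit 26) (.e (nat_lit 417812) (nat_lit 7) .nil))))) (.g (nat_lit 5) .nil .nil)))) (.nd (nat_lit 6) 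
(.lf (nat_lit 288565) (.g (nat_lit 946) (.e (nat_lit 294958) (nat_lit 13) (.e (nat_lit 393281) (nat_lit 23) (.e (nat_lit 426100) (nat_lit 1) (.e (nat_lit 164399) (nat_lit 256) .nil)))) .nil)) 
(.lf (nat_lit 288629) (.g (nat_lit 2383) (.e (nat_lit 294958) (nat_lit 13) (.e (nat_lit 393301) (nat_lit 27) (.e (nat_lit 491559) (nat_lit 10) (.e (nat_lit 344101) (nat_lit 18) .nil)))) .nil))))) (.nd (nat_lit 4) (.nd (nat_lit 5) (.nd (nat_lit 6) 
(.lf (nat_lit 288525) (.g (nat_lit 3009) (.e (nat_lit 294957) (nat_lit 13) (.e (nat_lit 393301) (nat_lit 27) (.e (nat_lit 491563) (nat_lit 12) (.e (nat_lit 385036) (nat_lit 16) .nil)))) .nil)) 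
(.lf (nat_lit 288589) (.g (nat_lit 916) (.e (nat_lit 294958) (nat_lit 13) (.e (nat_lit 393296) (nat_lit 26) (.e (nat_lit 475218) (nat_lit 44) .nil))) .nil))) (.nd (nat_lit 6) 
(.lf (nat_lit 288557) (.g (nat_lit 1534) (.e (nat_lit 294958) (nat_lit 13) (.e (nat_lit 393260) (nat_lit 21) (.e (nat_lit 409649) (nat_lit 18) (.e (nat_lit 311040) (nat_lit 25) .nil)))) .nil)) 
(.lf (nat_lit 288621) (.g (nat_lit 2415) (.e (nat_lit 294958) (nat_lit 13) (.e (nat_lit 393301) (nat_lit 27) (.e (nat_lit 491559) (nat_lit 10) (.e (nat_lit 344095) (nat_lit 18) .nil)))) .nil)))) (.nd (nat_lit 5) (.nd (nat_lit 6) 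
(.lf (nat_lit 288541) (.g (nat_lit 1782) (.e (nat_lit 294958) (nat_lit 13) (.e (nat_lit 393260) (nat_lit 21) (.e (nat_lit 409645) (nat_lit 18) (.e (nat_lit 303149) (nat_lit 15) .nil)))) .nil)) 
(.lf (nat_lit 288605) (.g (nat_lit 1776) (.e (nat_lit 294958) (nat_lit 13) (.e (nat_lit 393301) (nat_lit 27) (.e (nat_lit 491558) (nat_lit 10) (.e (nat_lit 344095) (nat_lit 18) .nil)))) .nil))) (.nd (nat_lit 6) 
(.lf (nat_lit 288573) (.g (nat_lit 361) (.e (nat_lit 294958) (nat_lit 13) (.e (nat_lit 393283) (nat_lit 24) (.e (nat_lit 434275) (nat_lit 39) .nil))) .nil)) 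
(.lf (nat_lit 288637) (.g (nat_lit 2406) (.e (nat_lit 294958) (nat_lit 13) (.e (nat_lit 393301) (nat_lit 27) (.e (nat_lit 491560) (nat_lit 10) (.e (nat_lit 344088) (nat_lit 18) .nil)))) .nil))))))) (.nd (nat_lit 2) (.nd (nat_lit 3) (.nd (nat_lit 4) (.nd (nat_lit 5) (.nd (nat_lit 6) 
(.lf (nat_lit 288515) (.g (nat_lit 2206) (.e (nat_lit 294957) (nat_lit 13) (.e (nat_lit 393301) (nat_lit 27) (.e (nat_lit 491560) (nat_lit 10) (.e (nat_lit 344099) (nat_lit 18) .nil)))) .nil)) 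
(.lf (nat_lit 288579) (.g (nat_lit 837) (.e (nat_lit 294958) (nat_lit 13) (.e (nat_lit 393291) (nat_lit 26) (.e (nat_lit 475219) (nat_lit 44) .nil))) .nil))) (.nd (nat_lit 6) 
(.lf (nat_lit 288547) (.g (nat_lit 1296) (.e (nat_lit 294958) (nat_lit 13) (.e (nat_lit 393260) (nat_lit 21) (.e (nat_lit 409646) (nat_lit 18) (.e (nat_lit 311040) (nat_lit 26) .nil)))) .nil)) 
(.lf (nat_lit 288611) (.g (nat_lit 2377) (.e (nat_lit 294958) (nat_lit 13) (.e (nat_lit 393301) (nat_lit 27) (.e (nat_lit 491558) (nat_lit 10) (.e (nat_lit 344100) (nat_lit 18) (.e (nat_lit 7254) (nat_lit 383) .nil))))) .nil)))) (.nd (nat_lit 5) (.nd (nat_lit 6) 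
(.lf (nat_lit 288531) (.g (nat_lit 509) (.e (nat_lit 294958) (nat_lit 13) (.e (nat_lit 393238) (nat_lit 17) (.e (nat_lit 6989) (nat_lit 377) .nil))) .nil)) 
(.lf (nat_lit 288595) (.g (nat_lit 645) (.e (nat_lit 294958) (nat_lit 13) (.e (nat_lit 393301) (nat_lit 27) (.e (nat_lit 491551) (nat_lit 9) .nil))) .nil))) (.nd (nat_lit 6) 
(.lf (nat_lit 288563) (.g (nat_lit 381) (.e (nat_lit 294958) (nat_lit 13) (.e (nat_lit 393281) (nat_lit 23) (.e (nat_lit 426100) (nat_lit 1) .nil))) .nil)) 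
(.lf (nat_lit 288627) (.g (nat_lit 4045) (.e (nat_lit 294958) (nat_lit 13) (.e (nat_lit 393301) (nat_lit 27) (.e (nat_lit 491559) (nat_lit 10) (.e (nat_lit 344097) (nat_lit 18) (.e (nat_lit 7255) (nat_lit 383) (.e (nat_lit 8210) (nat_lit 8) .nil)))))) (.g (nat_lit 4) .nil .nil)))))) (.nd (nat_lit 4) (.nd (nat_lit 5) (.nd (nat_lit 6) 
(.lf (nat_lit 288523) (.g (nat_lit 2683) (.e (nat_lit 294957) (nat_lit 13) (.e (nat_lit 393301) (nat_lit 27) (.e (nat_lit 491560) (nat_lit 10) (.e (nat_lit 344177) (nat_lit 43) .nil)))) .nil)) 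
(.lf (nat_lit 288587) (.g (nat_lit 822) (.e (nat_lit 294958) (nat_lit 13) (.e (nat_lit 393296) (nat_lit 26) (.e (nat_lit 475216) (nat_lit 44) .nil))) .nil))) (.nd (nat_lit 6) 
(.lf (nat_lit 288555) (.g (nat_lit 1604) (.e (nat_lit 294958) (nat_lit 13) (.e (nat_lit 393260) (nat_lit 21) (.e (nat_lit 409649) (nat_lit 18) (.e (nat_lit 303149) (nat_lit 15) .nil)))) .nil)) 
(.lf (nat_lit 288619) (.g (nat_lit 2425) (.e (nat_lit 294958) (nat_lit 13) (.e (nat_lit 393301) (nat_lit 27) (.e (nat_lit 491559) (nat_lit 10) (.e (nat_lit 344093) (nat_lit 18) .nil)))) .nil)))) (.nd (nat_lit 5) (.nd (nat_lit 6) 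
(.lf (nat_lit 288539) (.g (nat_lit 1413) (.e (nat_lit 294958) (nat_lit 13) (.e (nat_lit 393260) (nat_lit 21) (.e (nat_lit 409644) (nat_lit 18) (.e (nat_lit 303149) (nat_lit 15) .nil)))) .nil)) 
(.lf (nat_lit 288603) (.g (nat_lit 2589) (.e (nat_lit 294958) (nat_lit 13) (.e (nat_lit 393301) (nat_lit 27) (.e (nat_lit 491558) (nat_lit 10) (.e (nat_lit 344091) (nat_lit 18) (.e (nat_lit 7119) (nat_lit 382) .nil))))) .nil))) (.nd (nat_lit 6) 
(.lf (nat_lit 288571) (.g (nat_lit 3146) (.e (nat_lit 294958) (nat_lit 13) (.e (nat_lit 393283) (nat_lit 24) (.e (nat_lit 434272) (nat_lit 38) (.e (nat_lit 655364) (nat_lit 0) (.e (nat_lit 2828) (nat_lit 182) (.e (nat_lit 417536) (nat_lit 7) .nil)))))) (.g (nat_lit 5) .nil .nil))) 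
(.lf (nat_lit 288635) (.g (nat_lit 271) (.e (nat_lit 294958) (nat_lit 13) (.e (nat_lit 393301) (nat_lit 27) (.e (nat_lit 491560) (nat_lit 10) .nil))) .nil)))))) (.nd (nat_lit 3) (.nd (nat_lit 4) (.nd (nat_lit 5) (.nd (nat_lit 6) 
(.lf (nat_lit 288519) (.g (nat_lit 3282) (.e (nat_lit 294957) (nat_lit 13) (.e (nat_lit 393301) (nat_lit 27) (.e (nat_lit 491560) (nat_lit 10) (.e (nat_lit 344174) (nat_lit 42) (.e (nat_lit 761856) (nat_lit 0) (.e (nat_lit 2783) (nat_lit 179) .nil)))))) (.g (nat_lit 6) .nil .nil))) 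
(.lf (nat_lit 288583) (.g (nat_lit 1555) (.e (nat_lit 294958) (nat_lit 13) (.e (nat_lit 393294) (nat_lit 26) (.e (nat_lit 475201) (nat_lit 40) (.e (nat_lit 704841) (nat_lit 15) .nil)))) .nil))) (.nd (nat_lit 6) 
(.lf (nat_lit 288551) (.g (nat_lit 1571) (.e (nat_lit 294958) (nat_lit 13) (.e (nat_lit 393260) (nat_lit 21) (.e (nat_lit 409648) (nat_lit 18) (.e (nat_lit 303149) (nat_lit 15) .nil)))) .nil)) 
(.lf (nat_lit 288615) (.g (nat_lit 2384) (.e (nat_lit 294958) (nat_lit 13) (.e (nat_lit 393301) (nat_lit 27) (.e (nat_lit 491559) (nat_lit 10) (.e (nat_lit 344087) (nat_lit 18) .nil)))) .nil)))) (.nd (nat_lit 5) (.nd (nat_lit 6) 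
(.lf (nat_lit 288535) (.g (nat_lit 2152) (.e (nat_lit 294958) (nat_lit 13) (.e (nat_lit 393260) (nat_lit 21) (.e (nat_lit 409617) (nat_lit 10) (.e (nat_lit 5630) (nat_lit 312) .nil)))) .nil)) 
(.lf (nat_lit 288599) (.g (nat_lit 2455) (.e (nat_lit 294958) (nat_lit 13) (.e (nat_lit 393301) (nat_lit 27) (.e (nat_lit 491556) (nat_lit 9) (.e (nat_lit 343808) (nat_lit 15) .nil)))) .nil))) (.nd (nat_lit 6) 
(.lf (nat_lit 288567) (.g (nat_lit 1091) (.e (nat_lit 294958) (nat_lit 13) (.e (nat_lit 393282) (nat_lit 24) (.e (nat_lit 434275) (nat_lit 39) (.e (nat_lit 663565) (nat_lit 3) .nil)))) .nil)) 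
(.lf (nat_lit 288631) (.g (nat_lit 2383) (.e (nat_lit 294958) (nat_lit 13) (.e (nat_lit 393301) (nat_lit 27) (.e (nat_lit 491559) (nat_lit 10) (.e (nat_lit 344174) (nat_lit 42) .nil)))) .nil))))) (.nd (nat_lit 4) (.nd (nat_lit 5) (.nd (nat_lit 6) 
(.lf (nat_lit 288527) (.g (nat_lit 1179) (.e (nat_lit 294958) (nat_lit 13) (.e (nat_lit 401152) (nat_lit 16) (.e (nat_lit 401454) (nat_lit 12) (.e (nat_lit 475174) (nat_lit 23) (.e (nat_lit 515840) (nat_lit 17) .nil))))) (.g (nat_lit 4) .nil .nil))) 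
(.lf (nat_lit 288591) (.g (nat_lit 991) (.e (nat_lit 294958) (nat_lit 13) (.e (nat_lit 393298) (nat_lit 27) (.e (nat_lit 491552) (nat_lit 9) .nil))) .nil))) (.nd (nat_lit 6) 
(.lf (nat_lit 288559) (.g (nat_lit 804) (.e (nat_lit 294958) (nat_lit 13) (.e (nat_lit 393270) (nat_lit 23) (.e (nat_lit 426442) (nat_lit 19) (.e (nat_lit 106556) (nat_lit 15) .nil)))) .nil)) 
(.lf (nat_lit 288623) (.g (nat_lit 2395) (.e (nat_lit 294958) (nat_lit 13) (.e (nat_lit 393301) (nat_lit 27) (.e (nat_lit 491559) (nat_lit 10) (.e (nat_lit 344097) (nat_lit 18) .nil)))) .nil)))) (.nd (nat_lit 5) (.nd (nat_lit 6) 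
(.lf (nat_lit 288543) (.g (nat_lit 2488) (.e (nat_lit 294958) (nat_lit 13) (.e (nat_lit 393260) (nat_lit 21) (.e (nat_lit 409645) (nat_lit 18) (.e (nat_lit 303149) (nat_lit 15) (.e (nat_lit 6112) (nat_lit 332) (.e (nat_lit 7936) (nat_lit 103) .nil)))))) (.g (nat_lit 4) .nil .nil))) 
(.lf (nat_lit 288607) (.g (nat_lit 1814) (.e (nat_lit 294958) (nat_lit 13) (.e (nat_lit 393301) (nat_lit 27) (.e (nat_lit 491558) (nat_lit 10) (.e (nat_lit 344097) (nat_lit 18) .nil)))) .nil))) (.nd (nat_lit 6) 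
(.lf (nat_lit 288575) (.g (nat_lit 1959) (.e (nat_lit 294958) (nat_lit 13) (.e (nat_lit 393283) (nat_lit 24) (.e (nat_lit 434275) (nat_lit 39) (.e (nat_lit 663589) (nat_lit 14) (.e (nat_lit 2515) (nat_lit 157) .nil))))) .nil)) 
(.lf (nat_lit 288639) (.g (nat_lit 1614) (.e (nat_lit 294958) (nat_lit 13) (.e (nat_lit 393301) (nat_lit 27) (.e (nat_lit 491560) (nat_lit 10) (.e (nat_lit 344090) (nat_lit 18) .nil)))) .nil)))))))))

noncomputable def tv3650 : DT := (.nd (nat_lit 0) (.nd (nat_lit 1) (.nd (nat_lit 2) (.nd (nat_lit 3) (.nd (nat_lit 4) (.nd (nat_lit 5) (.nd (nat_lit 6) 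
(.lf (nat_lit 288640) (.g (nat_lit 2215) (.e (nat_lit 294958) (nat_lit 13) (.e (nat_lit 393301) (nat_lit 27) (.e (nat_lit 491560) (nat_lit 10) (.e (nat_lit 344091) (nat_lit 18) .nil)))) .nil)) 
(.lf (nat_lit 288704) (.g (nat_lit 1187) (.e (nat_lit 294959) (nat_lit 13) (.e (nat_lit 393260) (nat_lit 21) (.e (nat_lit 409643) (nat_lit 18) (.e (nat_lit 303112) (nat_lit 0) .nil)))) .nil))) (.nd (nat_lit 6) 
(.lf (nat_lit 288672) (.g (nat_lit 2101) (.e (nat_lit 294959) (nat_lit 13) (.e (nat_lit 393225) (nat_lit 9) (.e (nat_lit 335995) (nat_lit 1) (.e (nat_lit 57872) (nat_lit 264) (.e (nat_lit 7936) (nat_lit 81) .nil))))) .nil)) 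
(.lf (nat_lit 288736) (.g (nat_lit 2832) (.e (nat_lit 294959) (nat_lit 13) (.e (nat_lit 393260) (nat_lit 21) (.e (nat_lit 409645) (nat_lit 18) (.e (nat_lit 303115) (nat_lit 1) (.e (nat_lit 164151) (nat_lit 152) (.e (nat_lit 26) (nat_lit 0) (.e (nat_lit 2783) (nat_lit 179) .nil))))))) (.g (nat_lit 5) .nil .nil))))) (.nd (nat_lit 5) (.nd (nat_lit 6) 
(.lf (nat_lit 288656) (.g (nat_lit 3050) (.e (nat_lit 294958) (nat_lit 13) (.e (nat_lit 393301) (nat_lit 27) (.e (nat_lit 491560) (nat_lit 10) (.e (nat_lit 344174) (nat_lit 42) (.e (nat_lit 761857) (nat_lit 0) (.e (nat_lit 2783) (nat_lit 179) .nil)))))) (.g (nat_lit 4) .nil .nil))) 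
(.lf (nat_lit 288720) (.g (nat_lit 1645) (.e (nat_lit 294959) (nat_lit 13) (.e (nat_lit 393260) (nat_lit 21) (.e (nat_lit 409644) (nat_lit 18) (.e (nat_lit 303115) (nat_lit 1) (.e (nat_lit 164150) (nat_lit 152) .nil))))) .nil))) (.nd (nat_lit 6) 
(.lf (nat_lit 288688) (.g (nat_lit 1809) (.e (nat_lit 294959) (nat_lit 13) (.e (nat_lit 393259) (nat_lit 21) (.e (nat_lit 409645) (nat_lit 18) (.e (nat_lit 303115) (nat_lit 1) (.e (nat_lit 164151) (nat_lit 152) .nil))))) .nil)) 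
(.lf (nat_lit 288752) (.g (nat_lit 1636) (.e (nat_lit 294959) (nat_lit 13) (.e (nat_lit 393260) (nat_lit 21) (.e (nat_lit 409646) (nat_lit 18) (.e (nat_lit 303115) (nat_lit 1) (.e (nat_lit 164148) (nat_lit 152) .nil))))) .nil))))) (.nd (nat_lit 4) (.nd (nat_lit 5) (.nd (nat_lit 6) 
(.lf (nat_lit 288648) (.g (nat_lit 2653) (.e (nat_lit 294958) (nat_lit 13) (.e (nat_lit 393301) (nat_lit 27) (.e (nat_lit 491560) (nat_lit 10) (.e (nat_lit 344097) (nat_lit 18) (.e (nat_lit 7144) (nat_lit 382) .nil))))) .nil)) 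
(.lf (nat_lit 288712) (.g (nat_lit 1971) (.e (nat_lit 294959) (nat_lit 13) (.e (nat_lit 393260) (nat_lit 21) (.e (nat_lit 409643) (nat_lit 18) (.e (nat_lit 303115) (nat_lit 1) (.e (nat_lit 164151) (nat_lit 152) (.e (nat_lit 26) (nat_lit 0) (.e (nat_lit 2783) (nat_lit 179) .nil))))))) (.g (nat_lit 5) .nil .nil)))) (.nd (nat_lit 6) 
(.lf (nat_lit 288680) (.g (nat_lit 489) (.e (nat_lit 294959) (nat_lit 13) (.e (nat_lit 393232) (nat_lit 17) (.e (nat_lit 7591) (nat_lit 407) .nil))) .nil)) 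
(.lf (nat_lit 288744) (.g (nat_lit 2501) (.e (nat_lit 294959) (nat_lit 13) (.e (nat_lit 393260) (nat_lit 21) (.e (nat_lit 409645) (nat_lit 18) (.e (nat_lit 303149) (nat_lit 15) (.e (nat_lit 6119) (nat_lit 332) .nil))))) .nil)))) (.nd (nat_lit 5) (.nd (nat_lit 6) 
(.lf (nat_lit 288664) (.g (nat_lit 1532) (.e (nat_lit 294958) (nat_lit 13) (.e (nat_lit 393301) (nat_lit 27) (.e (nat_lit 491563) (nat_lit 12) (.e (nat_lit 392960) (nat_lit 16) .nil)))) .nil)) 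
(.lf (nat_lit 288728) (.g (nat_lit 2453) (.e (nat_lit 294959) (nat_lit 13) (.e (nat_lit 393260) (nat_lit 21) (.e (nat_lit 409645) (nat_lit 18) (.e (nat_lit 303112) (nat_lit 0) (.e (nat_lit 2478) (nat_lit 157) (.e (nat_lit 6273) (nat_lit 337) (.e (nat_lit 26) (nat_lit 0) (.e (nat_lit 2788) (nat_lit 179) .nil)))))))) (.g (nat_lit 4) .nil .nil)))) (.nd (nat_lit 6) 
(.lf (nat_lit 288696) (.g (nat_lit 1555) (.e (nat_lit 294959) (nat_lit 13) (.e (nat_lit 393260) (nat_lit 21) (.e (nat_lit 409617) (nat_lit 10) (.e (nat_lit 7936) (nat_lit 313) .nil)))) .nil)) 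
(.lf (nat_lit 288760) (.g (nat_lit 2450) (.e (nat_lit 294959) (nat_lit 13) (.e (nat_lit 393260) (nat_lit 21) (.e (nat_lit 409646) (nat_lit 18) (.e (nat_lit 303115) (nat_lit 1) (.e (nat_lit 164151) (nat_lit 152) (.e (nat_lit 3) (nat_lit 0) (.e (nat_lit 2791) (nat_lit 179) .nil))))))) (.g (nat_lit 5) .nil .nil))))))) (.nd (nat_lit 3) (.nd (nat_lit 4) (.nd (nat_lit 5) (.nd (nat_lit 6) 
(.lf (nat_lit 288644) (.g (nat_lit 2573) (.e (nat_lit 294958) (nat_lit 13) (.e (nat_lit 393301) (nat_lit 27) (.e (nat_lit 491560) (nat_lit 10) (.e (nat_lit 344095) (nat_lit 18) .nil)))) .nil)) 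
(.lf (nat_lit 288708) (.g (nat_lit 1368) (.e (nat_lit 294959) (nat_lit 13) (.e (nat_lit 393260) (nat_lit 21) (.e (nat_lit 409643) (nat_lit 18) (.e (nat_lit 303115) (nat_lit 1) (.e (nat_lit 164150) (nat_lit 152) (.e (nat_lit 21) (nat_lit 0) (.e (nat_lit 2788) (nat_lit 179) .nil))))))) (.g (nat_lit 4) .nil .nil)))) (.nd (nat_lit 6) 
(.lf (nat_lit 288676) (.g (nat_lit 3222) (.e (nat_lit 294959) (nat_lit 13) (.e (nat_lit 393229) (nat_lit 9) (.e (nat_lit 335995) (nat_lit 1) (.e (nat_lit 57873) (nat_lit 264) .nil)))) .nil)) 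
(.lf (nat_lit 288740) (.g (nat_lit 2589) (.e (nat_lit 294959) (nat_lit 13) (.e (nat_lit 393260) (nat_lit 21) (.e (nat_lit 409645) (nat_lit 18) (.e (nat_lit 303115) (nat_lit 1) (.e (nat_lit 164175) (nat_lit 153) (.e (nat_lit 8210) (nat_lit 8) .nil)))))) (.g (nat_lit 4) .nil .nil))))) (.nd (nat_lit 5) (.nd (nat_lit 6) 
(.lf (nat_lit 288660) (.g (nat_lit 1895) (.e (nat_lit 294958) (nat_lit 13) (.e (nat_lit 393301) (nat_lit 27) (.e (nat_lit 491560) (nat_lit 10) (.e (nat_lit 344177) (nat_lit 43) (.e (nat_lit 770051) (nat_lit 0) .nil))))) .nil)) 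
(.lf (nat_lit 288724) (.g (nat_lit 1246) (.e (nat_lit 294959) (nat_lit 13) (.e (nat_lit 393260) (nat_lit 21) (.e (nat_lit 409644) (nat_lit 18) (.e (nat_lit 303149) (nat_lit 15) .nil)))) .nil))) (.nd (nat_lit 6) 
(.lf (nat_lit 288692) (.g (nat_lit 1206) (.e (nat_lit 294959) (nat_lit 13) (.e (nat_lit 393260) (nat_lit 21) (.e (nat_lit 409616) (nat_lit 10) (.e (nat_lit 7936) (nat_lit 313) .nil)))) .nil)) 
(.lf (nat_lit 288756) (.g (nat_lit 1927) (.e (nat_lit 294959) (nat_lit 13) (.e (nat_lit 393260) (nat_lit 21) (.e (nat_lit 409646) (nat_lit 18) (.e (nat_lit 303115) (nat_lit 1) (.e (nat_lit 164150) (nat_lit 152) (.e (nat_lit 24) (nat_lit 0) (.e (nat_lit 2788) (nat_lit 179) .nil))))))) (.g (nat_lit 4) .nil .nil)))))) (.nd (nat_lit 4) (.nd (nat_lit 5) (.nd (nat_lit 6) 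
(.lf (nat_lit 288652) (.g (nat_lit 2679) (.e (nat_lit 294958) (nat_lit 13) (.e (nat_lit 393301) (nat_lit 27) (.e (nat_lit 491560) (nat_lit 10) (.e (nat_lit 344101) (nat_lit 18) .nil)))) .nil)) 
(.lf (nat_lit 288716) (.g (nat_lit 1355) (.e (nat_lit 294959) (nat_lit 13) (.e (nat_lit 393260) (nat_lit 21) (.e (nat_lit 409643) (nat_lit 18) (.e (nat_lit 303149) (nat_lit 15) (.e (nat_lit 6120) (nat_lit 332) .nil))))) .nil))) (.nd (nat_lit 6) 
(.lf (nat_lit 288684) (.g (nat_lit 2265) (.e (nat_lit 294959) (nat_lit 13) (.e (nat_lit 393238) (nat_lit 17) (.e (nat_lit 6989) (nat_lit 377) (.e (nat_lit 2777) (nat_lit 178) (.e (nat_lit 294656) (nat_lit 26) .nil))))) .nil)) 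
(.lf (nat_lit 288748) (.g (nat_lit 1323) (.e (nat_lit 294959) (nat_lit 13) (.e (nat_lit 393260) (nat_lit 21) (.e (nat_lit 409646) (nat_lit 18) (.e (nat_lit 303111) (nat_lit 0) (.e (nat_lit 3469) (nat_lit 217) .nil))))) .nil)))) (.nd (nat_lit 5) (.nd (nat_lit 6) 
(.lf (nat_lit 288668) (.g (nat_lit 877) (.e (nat_lit 294959) (nat_lit 13) (.e (nat_lit 393221) (nat_lit 0) (.e (nat_lit 6217) (nat_lit 333) (.e (nat_lit 57816) (nat_lit 246) (.e (nat_lit 65280) (nat_lit 89) (.e (nat_lit 557115) (nat_lit 18) (.e (nat_lit 2783) (nat_lit 179) .nil))))))) (.g (nat_lit 4) .nil .nil))) 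
(.lf (nat_lit 288732) (.g (nat_lit 2413) (.e (nat_lit 294959) (nat_lit 13) (.e (nat_lit 393260) (nat_lit 21) (.e (nat_lit 409645) (nat_lit 18) (.e (nat_lit 303115) (nat_lit 1) (.e (nat_lit 164150) (nat_lit 152) .nil))))) .nil))) (.nd (nat_lit 6) 
(.lf (nat_lit 288700) (.g (nat_lit 668) (.e (nat_lit 294959) (nat_lit 13) (.e (nat_lit 393260) (nat_lit 21) (.e (nat_lit 409640) (nat_lit 17) .nil))) .nil)) 
(.lf (nat_lit 288764) (.g (nat_lit 962) (.e (nat_lit 294959) (nat_lit 13) (.e (nat_lit 393260) (nat_lit 21) (.e (nat_lit 409646) (nat_lit 18) (.e (nat_lit 311040) (nat_lit 25) .nil)))) .nil))))))) (.nd (nat_lit 2) (.nd (nat_lit 3) (.nd (nat_lit 4) (.nd (nat_lit 5) (.nd (nat_lit 6) 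
(.lf (nat_lit 288642) (.g (nat_lit 1866) (.e (nat_lit 294958) (nat_lit 13) (.e (nat_lit 393301) (nat_lit 27) (.e (nat_lit 491560) (nat_lit 10) (.e (nat_lit 344094) (nat_lit 18) .nil)))) .nil)) 
(.lf (nat_lit 288706) (.g (nat_lit 1400) (.e (nat_lit 294959) (nat_lit 13) (.e (nat_lit 393260) (nat_lit 21) (.e (nat_lit 409643) (nat_lit 18) (.e (nat_lit 303115) (nat_lit 1) (.e (nat_lit 164148) (nat_lit 152) (.e (nat_lit 26) (nat_lit 0) (.e (nat_lit 2783) (nat_lit 179) .nil))))))) (.g (nat_lit 4) .nil .nil)))) (.nd (nat_lit 6) 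
(.lf (nat_lit 288674) (.g (nat_lit 3723) (.e (nat_lit 294959) (nat_lit 13) (.e (nat_lit 393229) (nat_lit 9) (.e (nat_lit 335995) (nat_lit 1) (.e (nat_lit 57870) (nat_lit 264) .nil)))) .nil)) 
(.lf (nat_lit 288738) (.g (nat_lit 2961) (.e (nat_lit 294959) (nat_lit 13) (.e (nat_lit 393260) (nat_lit 21) (.e (nat_lit 409645) (nat_lit 18) (.e (nat_lit 303115) (nat_lit 1) (.e (nat_lit 164151) (nat_lit 152) (.e (nat_lit 87) (nat_lit 0) (.e (nat_lit 2787) (nat_lit 179) .nil))))))) (.g (nat_lit 5) .nil .nil))))) (.nd (nat_lit 5) (.nd (nat_lit 6) 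
(.lf (nat_lit 288658) (.g (nat_lit 2180) (.e (nat_lit 294958) (nat_lit 13) (.e (nat_lit 393301) (nat_lit 27) (.e (nat_lit 491560) (nat_lit 10) (.e (nat_lit 344176) (nat_lit 43) .nil)))) .nil)) 
(.lf (nat_lit 288722) (.g (nat_lit 1781) (.e (nat_lit 294959) (nat_lit 13) (.e (nat_lit 393260) (nat_lit 21) (.e (nat_lit 409644) (nat_lit 18) (.e (nat_lit 303115) (nat_lit 1) (.e (nat_lit 164151) (nat_lit 152) (.e (nat_lit 26) (nat_lit 0) (.e (nat_lit 2783) (nat_lit 179) .nil))))))) (.g (nat_lit 4) .nil .nil)))) (.nd (nat_lit 6) 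
(.lf (nat_lit 288690) (.g (nat_lit 1206) (.e (nat_lit 294959) (nat_lit 13) (.e (nat_lit 393260) (nat_lit 21) (.e (nat_lit 409616) (nat_lit 10) (.e (nat_lit 7936) (nat_lit 298) .nil)))) .nil)) 
(.lf (nat_lit 288754) (.g (nat_lit 2071) (.e (nat_lit 294959) (nat_lit 13) (.e (nat_lit 393260) (nat_lit 21) (.e (nat_lit 409646) (nat_lit 18) (.e (nat_lit 303115) (nat_lit 1) (.e (nat_lit 164148) (nat_lit 152) (.e (nat_lit 26) (nat_lit 0) (.e (nat_lit 2783) (nat_lit 179) .nil))))))) (.g (nat_lit 5) .nil .nil)))))) (.nd (nat_lit 4) (.nd (nat_lit 5) (.nd (nat_lit 6) 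
(.lf (nat_lit 288650) (.g (nat_lit 2679) (.e (nat_lit 294958) (nat_lit 13) (.e (nat_lit 393301) (nat_lit 27) (.e (nat_lit 491560) (nat_lit 10) (.e (nat_lit 344098) (nat_lit 18) .nil)))) .nil)) 
(.lf (nat_lit 288714) (.g (nat_lit 1220) (.e (nat_lit 294959) (nat_lit 13) (.e (nat_lit 393260) (nat_lit 21) (.e (nat_lit 409643) (nat_lit 18) (.e (nat_lit 303149) (nat_lit 15) (.e (nat_lit 6098) (nat_lit 332) .nil))))) .nil))) (.nd (nat_lit 6) 
(.lf (nat_lit 288682) (.g (nat_lit 466) (.e (nat_lit 294959) (nat_lit 13) (.e (nat_lit 393238) (nat_lit 17) (.e (nat_lit 6989) (nat_lit 377) .nil))) .nil)) 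
(.lf (nat_lit 288746) (.g (nat_lit 1432) (.e (nat_lit 294959) (nat_lit 13) (.e (nat_lit 393260) (nat_lit 21) (.e (nat_lit 409645) (nat_lit 18) (.e (nat_lit 311040) (nat_lit 25) .nil)))) .nil)))) (.nd (nat_lit 5) (.nd (nat_lit 6) 
(.lf (nat_lit 288666) (.g (nat_lit 1051) (.e (nat_lit 294959) (nat_lit 13) (.e (nat_lit 393221) (nat_lit 0) (.e (nat_lit 6209) (nat_lit 333) (.e (nat_lit 57816) (nat_lit 246) (.e (nat_lit 65280) (nat_lit 89) (.e (nat_lit 557115) (nat_lit 18) (.e (nat_lit 2783) (nat_lit 179) .nil))))))) (.g (nat_lit 4) .nil .nil))) 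
(.lf (nat_lit 288730) (.g (nat_lit 1434) (.e (nat_lit 294959) (nat_lit 13) (.e (nat_lit 393260) (nat_lit 21) (.e (nat_lit 409645) (nat_lit 18) (.e (nat_lit 303115) (nat_lit 1) .nil)))) .nil))) (.nd (nat_lit 6) 
(.lf (nat_lit 288698) (.g (nat_lit 1132) (.e (nat_lit 294959) (nat_lit 13) (.e (nat_lit 393260) (nat_lit 21) (.e (nat_lit 409623) (nat_lit 10) (.e (nat_lit 5293) (nat_lit 298) .nil)))) .nil)) 
(.lf (nat_lit 288762) (.g (nat_lit 1665) (.e (nat_lit 294959) (nat_lit 13) (.e (nat_lit 393260) (nat_lit 21) (.e (nat_lit 409646) (nat_lit 18) (.e (nat_lit 303149) (nat_lit 15) (.e (nat_lit 6112) (nat_lit 332) (.e (nat_lit 7936) (nat_lit 103) .nil)))))) (.g (nat_lit 4) .nil .nil))))))) (.nd (nat_lit 3) (.nd (nat_lit 4) (.nd (nat_lit 5) (.nd (nat_lit 6) 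
(.lf (nat_lit 288646) (.g (nat_lit 3716) (.e (nat_lit 294958) (nat_lit 13) (.e (nat_lit 393301) (nat_lit 27) (.e (nat_lit 491560) (nat_lit 10) (.e (nat_lit 344096) (nat_lit 18) (.e (nat_lit 7247) (nat_lit 383) (.e (nat_lit 8210) (nat_lit 8) .nil)))))) (.g (nat_lit 4) .nil .nil))) 
(.lf (nat_lit 288710) (.g (nat_lit 1305) (.e (nat_lit 294959) (nat_lit 13) (.e (nat_lit 393260) (nat_lit 21) (.e (nat_lit 409643) (nat_lit 18) (.e (nat_lit 303115) (nat_lit 1) (.e (nat_lit 164151) (nat_lit 152) .nil))))) .nil))) (.nd (nat_lit 6) 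
(.lf (nat_lit 288678) (.g (nat_lit 1784) (.e (nat_lit 294959) (nat_lit 13) (.e (nat_lit 393229) (nat_lit 9) (.e (nat_lit 336033) (nat_lit 4) (.e (nat_lit 123195) (nat_lit 266) (.e (nat_lit 57370) (nat_lit 2) .nil))))) .nil)) 
(.lf (nat_lit 288742) (.g (nat_lit 2497) (.e (nat_lit 294959) (nat_lit 13) (.e (nat_lit 393260) (nat_lit 21) (.e (nat_lit 409645) (nat_lit 18) (.e (nat_lit 303149) (nat_lit 15) (.e (nat_lit 6098) (nat_lit 332) .nil))))) .nil)))) (.nd (nat_lit 5) (.nd (nat_lit 6) 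
(.lf (nat_lit 288662) (.g (nat_lit 2650) (.e (nat_lit 294958) (nat_lit 13) (.e (nat_lit 393301) (nat_lit 27) (.e (nat_lit 491563) (nat_lit 12) (.e (nat_lit 385032) (nat_lit 16) .nil)))) .nil)) 
(.lf (nat_lit 288726) (.g (nat_lit 2422) (.e (nat_lit 294959) (nat_lit 13) (.e (nat_lit 393260) (nat_lit 21) (.e (nat_lit 409645) (nat_lit 18) (.e (nat_lit 303112) (nat_lit 0) (.e (nat_lit 2478) (nat_lit 157) .nil))))) .nil))) (.nd (nat_lit 6) 
(.lf (nat_lit 288694) (.g (nat_lit 1617) (.e (nat_lit 294959) (nat_lit 13) (.e (nat_lit 393260) (nat_lit 21) (.e (nat_lit 409617) (nat_lit 10) (.e (nat_lit 5355) (nat_lit 298) .nil)))) .nil)) 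
(.lf (nat_lit 288758) (.g (nat_lit 1776) (.e (nat_lit 294959) (nat_lit 13) (.e (nat_lit 393260) (nat_lit 21) (.e (nat_lit 409646) (nat_lit 18) (.e (nat_lit 303115) (nat_lit 1) (.e (nat_lit 164150) (nat_lit 152) (.e (nat_lit 26) (nat_lit 0) (.e (nat_lit 2788) (nat_lit 179) .nil))))))) (.g (nat_lit 4) .nil .nil)))))) (.nd (nat_lit 4) (.nd (nat_lit 5) (.nd (nat_lit 6) 
(.lf (nat_lit 288654) (.g (nat_lit 1464) (.e (nat_lit 294958) (nat_lit 13) (.e (nat_lit 393301) (nat_lit 27) (.e (nat_lit 491560) (nat_lit 10) (.e (nat_lit 344173) (nat_lit 42) .nil)))) .nil)) 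
(.lf (nat_lit 288718) (.g (nat_lit 606) (.e (nat_lit 294959) (nat_lit 13) (.e (nat_lit 393260) (nat_lit 21) (.e (nat_lit 409644) (nat_lit 18) .nil))) .nil))) (.nd (nat_lit 6) 
(.lf (nat_lit 288686) (.g (nat_lit 1903) (.e (nat_lit 294959) (nat_lit 13) (.e (nat_lit 393238) (nat_lit 17) (.e (nat_lit 6989) (nat_lit 377) (.e (nat_lit 2779) (nat_lit 178) (.e (nat_lit 294656) (nat_lit 26) .nil))))) .nil)) 
(.lf (nat_lit 288750) (.g (nat_lit 2275) (.e (nat_lit 294959) (nat_lit 13) (.e (nat_lit 393260) (nat_lit 21) (.e (nat_lit 409646) (nat_lit 18) (.e (nat_lit 303112) (nat_lit 0) (.e (nat_lit 2478) (nat_lit 157) (.e (nat_lit 6273) (nat_lit 337) (.e (nat_lit 26) (nat_lit 0) (.e (nat_lit 2783) (nat_lit 179) .nil)))))))) (.g (nat_lit 4) .nil .nil))))) (.nd (nat_lit 5) (.nd (nat_lit 6) 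
(.lf (nat_lit 288670) (.g (nat_lit 1392) (.e (nat_lit 294959) (nat_lit 13) (.e (nat_lit 393225) (nat_lit 9) (.e (nat_lit 335995) (nat_lit 1) (.e (nat_lit 57872) (nat_lit 264) .nil)))) .nil)) 
(.lf (nat_lit 288734) (.g (nat_lit 2334) (.e (nat_lit 294959) (nat_lit 13) (.e (nat_lit 393260) (nat_lit 21) (.e (nat_lit 409645) (nat_lit 18) (.e (nat_lit 303115) (nat_lit 1) (.e (nat_lit 164151) (nat_lit 152) .nil))))) .nil))) (.nd (nat_lit 6) 
(.lf (nat_lit 288702) (.g (nat_lit 1882) (.e (nat_lit 294959) (nat_lit 13) (.e (nat_lit 393260) (nat_lit 21) (.e (nat_lit 409641) (nat_lit 17) (.e (nat_lit 302848) (nat_lit 25) .nil)))) .nil)) 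
(.lf (nat_lit 288766) (.g (nat_lit 1245) (.e (nat_lit 294959) (nat_lit 13) (.e (nat_lit 393260) (nat_lit 21) (.e (nat_lit 409647) (nat_lit 18) (.e (nat_lit 303115) (nat_lit 1) .nil)))) .nil)))))))) (.nd (nat_lit 1) (.nd (nat_lit 2) (.nd (nat_lit 3) (.nd (nat_lit 4) (.nd (nat_lit 5) (.nd (nat_lit 6) 
(.lf (nat_lit 288641) (.g (nat_lit 2508) (.e (nat_lit 294958) (nat_lit 13) (.e (nat_lit 393301) (nat_lit 27) (.e (nat_lit 491560) (nat_lit 10) (.e (nat_lit 344093) (nat_lit 18) .nil)))) .nil)) 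
(.lf (nat_lit 288705) (.g (nat_lit 1332) (.e (nat_lit 294959) (nat_lit 13) (.e (nat_lit 393260) (nat_lit 21) (.e (nat_lit 409643) (nat_lit 18) (.e (nat_lit 303115) (nat_lit 1) (.e (nat_lit 164148) (nat_lit 152) .nil))))) .nil))) (.nd (nat_lit 6) 
(.lf (nat_lit 288673) (.g (nat_lit 2298) (.e (nat_lit 294959) (nat_lit 13) (.e (nat_lit 393225) (nat_lit 9) (.e (nat_lit 335995) (nat_lit 1) (.e (nat_lit 57873) (nat_lit 264) .nil)))) .nil)) 
(.lf (nat_lit 288737) (.g (nat_lit 2388) (.e (nat_lit 294959) (nat_lit 13) (.e (nat_lit 393260) (nat_lit 21) (.e (nat_lit 409645) (nat_lit 18) (.e (nat_lit 303115) (nat_lit 1) (.e (nat_lit 164151) (nat_lit 152) (.e (nat_lit 26) (nat_lit 0) (.e (nat_lit 2788) (nat_lit 179) .nil))))))) (.g (nat_lit 4) .nil .nil))))) (.nd (nat_lit 5) (.nd (nat_lit 6) 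
(.lf (nat_lit 288657) (.g (nat_lit 2768) (.e (nat_lit 294958) (nat_lit 13) (.e (nat_lit 393301) (nat_lit 27) (.e (nat_lit 491560) (nat_lit 10) (.e (nat_lit 344174) (nat_lit 42) (.e (nat_lit 761860) (nat_lit 0) (.e (nat_lit 2783) (nat_lit 179) .nil)))))) (.g (nat_lit 4) .nil .nil))) 
(.lf (nat_lit 288721) (.g (nat_lit 1727) (.e (nat_lit 294959) (nat_lit 13) (.e (nat_lit 393260) (nat_lit 21) (.e (nat_lit 409644) (nat_lit 18) (.e (nat_lit 303115) (nat_lit 1) (.e (nat_lit 164151) (nat_lit 152) (.e (nat_lit 3) (nat_lit 0) (.e (nat_lit 2791) (nat_lit 179) .nil))))))) (.g (nat_lit 4) .nil .nil)))) (.nd (nat_lit 6) 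
(.lf (nat_lit 288689) (.g (nat_lit 1053) (.e (nat_lit 294959) (nat_lit 13) (.e (nat_lit 393259) (nat_lit 21) (.e (nat_lit 409645) (nat_lit 18) (.e (nat_lit 303149) (nat_lit 15) .nil)))) .nil)) 
(.lf (nat_lit 288753) (.g (nat_lit 1736) (.e (nat_lit 294959) (nat_lit 13) (.e (nat_lit 393260) (nat_lit 21) (.e (nat_lit 409646) (nat_lit 18) (.e (nat_lit 303115) (nat_lit 1) (.e (nat_lit 164148) (nat_lit 152) (.e (nat_lit 24) (nat_lit 0) (.e (nat_lit 2788) (nat_lit 179) .nil))))))) (.g (nat_lit 4) .nil .nil)))))) (.nd (nat_lit 4) (.nd (nat_lit 5) (.nd (nat_lit 6) 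
(.lf (nat_lit 288649) (.g (nat_lit 3299) (.e (nat_lit 294958) (nat_lit 13) (.e (nat_lit 393301) (nat_lit 27) (.e (nat_lit 491560) (nat_lit 10) (.e (nat_lit 344097) (nat_lit 18) (.e (nat_lit 7249) (nat_lit 383) (.e (nat_lit 8210) (nat_lit 8) .nil)))))) (.g (nat_lit 4) .nil .nil))) 
(.lf (nat_lit 288713) (.g (nat_lit 824) (.e (nat_lit 294959) (nat_lit 13) (.e (nat_lit 393260) (nat_lit 21) (.e (nat_lit 409643) (nat_lit 18) (.e (nat_lit 303149) (nat_lit 15) .nil)))) .nil))) (.nd (nat_lit 6) 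
(.lf (nat_lit 288681) (.g (nat_lit 1106) (.e (nat_lit 294959) (nat_lit 13) (.e (nat_lit 393232) (nat_lit 17) (.e (nat_lit 7593) (nat_lit 407) (.e (nat_lit 73772) (nat_lit 24) .nil)))) .nil)) 
(.lf (nat_lit 288745) (.g (nat_lit 2466) (.e (nat_lit 294959) (nat_lit 13) (.e (nat_lit 393260) (nat_lit 21) (.e (nat_lit 409645) (nat_lit 18) (.e (nat_lit 303149) (nat_lit 15) (.e (nat_lit 6120) (nat_lit 332) .nil))))) .nil)))) (.nd (nat_lit 5) (.nd (nat_lit 6) 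
(.lf (nat_lit 288665) (.g (nat_lit 1102) (.e (nat_lit 294959) (nat_lit 13) (.e (nat_lit 393221) (nat_lit 0) (.e (nat_lit 6209) (nat_lit 333) (.e (nat_lit 57814) (nat_lit 246) (.e (nat_lit 65280) (nat_lit 89) (.e (nat_lit 557115) (nat_lit 18) (.e (nat_lit 2783) (nat_lit 179) .nil))))))) (.g (nat_lit 4) .nil .nil))) 
(.lf (nat_lit 288729) (.g (nat_lit 1716) (.e (nat_lit 294959) (nat_lit 13) (.e (nat_lit 393260) (nat_lit 21) (.e (nat_lit 409645) (nat_lit 18) (.e (nat_lit 303114) (nat_lit 1) .nil)))) .nil))) (.nd (nat_lit 6) 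
(.lf (nat_lit 288697) (.g (nat_lit 580) (.e (nat_lit 294959) (nat_lit 13) (.e (nat_lit 393260) (nat_lit 21) (.e (nat_lit 409623) (nat_lit 10) .nil))) .nil)) 
(.lf (nat_lit 288761) (.g (nat_lit 977) (.e (nat_lit 294959) (nat_lit 13) (.e (nat_lit 393260) (nat_lit 21) (.e (nat_lit 409646) (nat_lit 18) (.e (nat_lit 303149) (nat_lit 15) .nil)))) .nil)))))) (.nd (nat_lit 3) (.nd (nat_lit 4) (.nd (nat_lit 5) (.nd (nat_lit 6) 
(.lf (nat_lit 288645) (.g (nat_lit 2288) (.e (nat_lit 294958) (nat_lit 13) (.e (nat_lit 393301) (nat_lit 27) (.e (nat_lit 491560) (nat_lit 10) (.e (nat_lit 344096) (nat_lit 18) .nil)))) .nil)) 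
(.lf (nat_lit 288709) (.g (nat_lit 1683) (.e (nat_lit 294959) (nat_lit 13) (.e (nat_lit 393260) (nat_lit 21) (.e (nat_lit 409643) (nat_lit 18) (.e (nat_lit 303115) (nat_lit 1) (.e (nat_lit 164150) (nat_lit 152) (.e (nat_lit 26) (nat_lit 0) (.e (nat_lit 2783) (nat_lit 179) .nil))))))) (.g (nat_lit 5) .nil .nil)))) (.nd (nat_lit 6) 
(.lf (nat_lit 288677) (.g (nat_lit 789) (.e (nat_lit 294959) (nat_lit 13) (.e (nat_lit 393229) (nat_lit 9) (.e (nat_lit 336033) (nat_lit 4) .nil))) .nil)) 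
(.lf (nat_lit 288741) (.g (nat_lit 1613) (.e (nat_lit 294959) (nat_lit 13) (.e (nat_lit 393260) (nat_lit 21) (.e (nat_lit 409645) (nat_lit 18) (.e (nat_lit 303149) (nat_lit 15) .nil)))) .nil)))) (.nd (nat_lit 5) (.nd (nat_lit 6) 
(.lf (nat_lit 288661) (.g (nat_lit 1903) (.e (nat_lit 294958) (nat_lit 13) (.e (nat_lit 393301) (nat_lit 27) (.e (nat_lit 491560) (nat_lit 10) (.e (nat_lit 344177) (nat_lit 43) (.e (nat_lit 770052) (nat_lit 0) .nil))))) .nil)) 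
(.lf (nat_lit 288725) (.g (nat_lit 2350) (.e (nat_lit 294959) (nat_lit 13) (.e (nat_lit 393260) (nat_lit 21) (.e (nat_lit 409645) (nat_lit 18) (.e (nat_lit 303112) (nat_lit 0) (.e (nat_lit 2449) (nat_lit 157) .nil))))) .nil))) (.nd (nat_lit 6) 
(.lf (nat_lit 288693) (.g (nat_lit 1685) (.e (nat_lit 294959) (nat_lit 13) (.e (nat_lit 393260) (nat_lit 21) (.e (nat_lit 409616) (nat_lit 10) (.e (nat_lit 5763) (nat_lit 315) .nil)))) .nil)) 
(.lf (nat_lit 288757) (.g (nat_lit 2273) (.e (nat_lit 294959) (nat_lit 13) (.e (nat_lit 393260) (nat_lit 21) (.e (nat_lit 409646) (nat_lit 18) (.e (nat_lit 303115) (nat_lit 1) (.e (nat_lit 164150) (nat_lit 152) (.e (nat_lit 26) (nat_lit 0) (.e (nat_lit 2783) (nat_lit 179) .nil))))))) (.g (nat_lit 5) .nil .nil)))))) (.nd (nat_lit 4) (.nd (nat_lit 5) (.nd (nat_lit 6) 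
(.lf (nat_lit 288653) (.g (nat_lit 2116) (.e (nat_lit 294958) (nat_lit 13) (.e (nat_lit 393301) (nat_lit 27) (.e (nat_lit 491560) (nat_lit 10) (.e (nat_lit 352000) (nat_lit 18) .nil)))) .nil)) 
(.lf (nat_lit 288717) (.g (nat_lit 1420) (.e (nat_lit 294959) (nat_lit 13) (.e (nat_lit 393260) (nat_lit 21) (.e (nat_lit 409643) (nat_lit 18) (.e (nat_lit 303149) (nat_lit 15) (.e (nat_lit 6120) (nat_lit 332) (.e (nat_lit 1367) (nat_lit 103) .nil)))))) (.g (nat_lit 4) .nil .nil)))) (.nd (nat_lit 6) 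
(.lf (nat_lit 288685) (.g (nat_lit 1554) (.e (nat_lit 294959) (nat_lit 13) (.e (nat_lit 393238) (nat_lit 17) (.e (nat_lit 6989) (nat_lit 377) (.e (nat_lit 2779) (nat_lit 178) .nil)))) .nil)) 
(.lf (nat_lit 288749) (.g (nat_lit 2046) (.e (nat_lit 294959) (nat_lit 13) (.e (nat_lit 393260) (nat_lit 21) (.e (nat_lit 409646) (nat_lit 18) (.e (nat_lit 303112) (nat_lit 0) (.e (nat_lit 2478) (nat_lit 157) .nil))))) .nil)))) (.nd (nat_lit 5) (.nd (nat_lit 6) 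
(.lf (nat_lit 288669) (.g (nat_lit 690) (.e (nat_lit 294959) (nat_lit 13) (.e (nat_lit 393225) (nat_lit 9) (.e (nat_lit 335995) (nat_lit 1) .nil))) .nil)) 
(.lf (nat_lit 288733) (.g (nat_lit 2695) (.e (nat_lit 294959) (nat_lit 13) (.e (nat_lit 393260) (nat_lit 21) (.e (nat_lit 409645) (nat_lit 18) (.e (nat_lit 303115) (nat_lit 1) (.e (nat_lit 164150) (nat_lit 152) (.e (nat_lit 26) (nat_lit 0) (.e (nat_lit 2783) (nat_lit 179) .nil))))))) (.g (nat_lit 4) .nil .nil)))) (.nd (nat_lit 6) 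
(.lf (nat_lit 288701) (.g (nat_lit 579) (.e (nat_lit 294959) (nat_lit 13) (.e (nat_lit 393260) (nat_lit 21) (.e (nat_lit 409641) (nat_lit 17) .nil))) .nil)) 
(.lf (nat_lit 288765) (.g (nat_lit 632) (.e (nat_lit 294959) (nat_lit 13) (.e (nat_lit 393260) (nat_lit 21) (.e (nat_lit 409647) (nat_lit 18) .nil))) .nil))))))) (.nd (nat_lit 2) (.nd (nat_lit 3) (.nd (nat_lit 4) (.nd (nat_lit 5) (.nd (nat_lit 6) 
(.lf (nat_lit 288643) (.g (nat_lit 2159) (.e (nat_lit 294958) (nat_lit 13) (.e (nat_lit 393301) (nat_lit 27) (.e (nat_lit 491560) (nat_lit 10) (.e (nat_lit 344094) (nat_lit 18) (.e (nat_lit 7119) (nat_lit 382) .nil))))) .nil)) 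
(.lf (nat_lit 288707) (.g (nat_lit 1306) (.e (nat_lit 294959) (nat_lit 13) (.e (nat_lit 393260) (nat_lit 21) (.e (nat_lit 409643) (nat_lit 18) (.e (nat_lit 303115) (nat_lit 1) (.e (nat_lit 164150) (nat_lit 152) .nil))))) .nil))) (.nd (nat_lit 6) 
(.lf (nat_lit 288675) (.g (nat_lit 3106) (.e (nat_lit 294959) (nat_lit 13) (.e (nat_lit 393229) (nat_lit 9) (.e (nat_lit 335995) (nat_lit 1) (.e (nat_lit 57872) (nat_lit 264) .nil)))) .nil)) 
(.lf (nat_lit 288739) (.g (nat_lit 2428) (.e (nat_lit 294959) (nat_lit 13) (.e (nat_lit 393260) (nat_lit 21) (.e (nat_lit 409645) (nat_lit 18) (.e (nat_lit 303115) (nat_lit 1) (.e (nat_lit 164173) (nat_lit 153) .nil))))) .nil)))) (.nd (nat_lit 5) (.nd (nat_lit 6) 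
(.lf (nat_lit 288659) (.g (nat_lit 1930) (.e (nat_lit 294958) (nat_lit 13) (.e (nat_lit 393301) (nat_lit 27) (.e (nat_lit 491560) (nat_lit 10) (.e (nat_lit 344177) (nat_lit 43) (.e (nat_lit 770048) (nat_lit 0) (.e (nat_lit 2783) (nat_lit 179) .nil)))))) (.g (nat_lit 4) .nil .nil))) 
(.lf (nat_lit 288723) (.g (nat_lit 1909) (.e (nat_lit 294959) (nat_lit 13) (.e (nat_lit 393260) (nat_lit 21) (.e (nat_lit 409644) (nat_lit 18) (.e (nat_lit 303115) (nat_lit 1) (.e (nat_lit 164151) (nat_lit 152) (.e (nat_lit 87) (nat_lit 0) (.e (nat_lit 2787) (nat_lit 179) .nil))))))) (.g (nat_lit 4) .nil .nil)))) (.nd (nat_lit 6) 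
(.lf (nat_lit 288691) (.g (nat_lit 1206) (.e (nat_lit 294959) (nat_lit 13) (.e (nat_lit 393260) (nat_lit 21) (.e (nat_lit 409616) (nat_lit 10) (.e (nat_lit 7936) (nat_lit 299) .nil)))) .nil)) 
(.lf (nat_lit 288755) (.g (nat_lit 1958) (.e (nat_lit 294959) (nat_lit 13) (.e (nat_lit 393260) (nat_lit 21) (.e (nat_lit 409646) (nat_lit 18) (.e (nat_lit 303115) (nat_lit 1) (.e (nat_lit 164150) (nat_lit 152) (.e (nat_lit 21) (nat_lit 0) (.e (nat_lit 2788) (nat_lit 179) .nil))))))) (.g (nat_lit 4) .nil .nil)))))) (.nd (nat_lit 4) (.nd (nat_lit 5) (.nd (nat_lit 6) 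
(.lf (nat_lit 288651) (.g (nat_lit 1565) (.e (nat_lit 294958) (nat_lit 13) (.e (nat_lit 393301) (nat_lit 27) (.e (nat_lit 491560) (nat_lit 10) (.e (nat_lit 344099) (nat_lit 18) .nil)))) .nil)) 
(.lf (nat_lit 288715) (.g (nat_lit 1594) (.e (nat_lit 294959) (nat_lit 13) (.e (nat_lit 393260) (nat_lit 21) (.e (nat_lit 409643) (nat_lit 18) (.e (nat_lit 303149) (nat_lit 15) (.e (nat_lit 6112) (nat_lit 332) (.e (nat_lit 7936) (nat_lit 103) .nil)))))) (.g (nat_lit 5) .nil .nil)))) (.nd (nat_lit 6) 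
(.lf (nat_lit 288683) (.g (nat_lit 2281) (.e (nat_lit 294959) (nat_lit 13) (.e (nat_lit 393238) (nat_lit 17) (.e (nat_lit 6989) (nat_lit 377) (.e (nat_lit 2777) (nat_lit 178) (.e (nat_lit 286763) (nat_lit 15) .nil))))) .nil)) 
(.lf (nat_lit 288747) (.g (nat_lit 447) (.e (nat_lit 294959) (nat_lit 13) (.e (nat_lit 393260) (nat_lit 21) (.e (nat_lit 409646) (nat_lit 18) .nil))) .nil)))) (.nd (nat_lit 5) (.nd (nat_lit 6) 
(.lf (nat_lit 288667) (.g (nat_lit 888) (.e (nat_lit 294959) (nat_lit 13) (.e (nat_lit 393221) (nat_lit 0) (.e (nat_lit 6217) (nat_lit 333) (.e (nat_lit 57814) (nat_lit 246) (.e (nat_lit 65280) (nat_lit 89) (.e (nat_lit 557115) (nat_lit 18) (.e (nat_lit 2783) (nat_lit 179) .nil))))))) (.g (nat_lit 4) .nil .nil))) 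
(.lf (nat_lit 288731) (.g (nat_lit 2432) (.e (nat_lit 294959) (nat_lit 13) (.e (nat_lit 393260) (nat_lit 21) (.e (nat_lit 409645) (nat_lit 18) (.e (nat_lit 303115) (nat_lit 1) (.e (nat_lit 164148) (nat_lit 152) .nil))))) .nil))) (.nd (nat_lit 6) 
(.lf (nat_lit 288699) (.g (nat_lit 1979) (.e (nat_lit 294959) (nat_lit 13) (.e (nat_lit 393260) (nat_lit 21) (.e (nat_lit 409623) (nat_lit 10) (.e (nat_lit 5626) (nat_lit 312) (.e (nat_lit 214) (nat_lit 19) .nil))))) .nil)) 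
(.lf (nat_lit 288763) (.g (nat_lit 1459) (.e (nat_lit 294959) (nat_lit 13) (.e (nat_lit 393260) (nat_lit 21) (.e (nat_lit 409646) (nat_lit 18) (.e (nat_lit 303149) (nat_lit 15) (.e (nat_lit 6120) (nat_lit 332) .nil))))) .nil)))))) (.nd (nat_lit 3) (.nd (nat_lit 4) (.nd (nat_lit 5) (.nd (nat_lit 6) 
(.lf (nat_lit 288647) (.g (nat_lit 1721) (.e (nat_lit 294958) (nat_lit 13) (.e (nat_lit 393301) (nat_lit 27) (.e (nat_lit 491560) (nat_lit 10) (.e (nat_lit 344097) (nat_lit 18) .nil)))) .nil)) 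
(.lf (nat_lit 288711) (.g (nat_lit 1916) (.e (nat_lit 294959) (nat_lit 13) (.e (nat_lit 393260) (nat_lit 21) (.e (nat_lit 409643) (nat_lit 18) (.e (nat_lit 303115) (nat_lit 1) (.e (nat_lit 164151) (nat_lit 152) (.e (nat_lit 3) (nat_lit 0) (.e (nat_lit 2791) (nat_lit 179) .nil))))))) (.g (nat_lit 5) .nil .nil)))) (.nd (nat_lit 6) 
(.lf (nat_lit 288679) (.g (nat_lit 894) (.e (nat_lit 294959) (nat_lit 13) (.e (nat_lit 393232) (nat_lit 17) (.e (nat_lit 7587) (nat_lit 406) (.e (nat_lit 65648) (nat_lit 26) .nil)))) .nil)) 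
(.lf (nat_lit 288743) (.g (nat_lit 2193) (.e (nat_lit 294959) (nat_lit 13) (.e (nat_lit 393260) (nat_lit 21) (.e (nat_lit 409645) (nat_lit 18) (.e (nat_lit 303149) (nat_lit 15) (.e (nat_lit 6112) (nat_lit 332) .nil))))) .nil)))) (.nd (nat_lit 5) (.nd (nat_lit 6) 
(.lf (nat_lit 288663) (.g (nat_lit 2991) (.e (nat_lit 294958) (nat_lit 13) (.e (nat_lit 393301) (nat_lit 27) (.e (nat_lit 491563) (nat_lit 12) (.e (nat_lit 385036) (nat_lit 16) .nil)))) .nil)) 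
(.lf (nat_lit 288727) (.g (nat_lit 2936) (.e (nat_lit 294959) (nat_lit 13) (.e (nat_lit 393260) (nat_lit 21) (.e (nat_lit 409645) (nat_lit 18) (.e (nat_lit 303112) (nat_lit 0) (.e (nat_lit 2478) (nat_lit 157) (.e (nat_lit 6273) (nat_lit 337) (.e (nat_lit 26) (nat_lit 0) (.e (nat_lit 2783) (nat_lit 179) .nil)))))))) (.g (nat_lit 5) .nil .nil)))) (.nd (nat_lit 6) 
(.lf (nat_lit 288695) (.g (nat_lit 1841) (.e (nat_lit 294959) (nat_lit 13) (.e (nat_lit 393260) (nat_lit 21) (.e (nat_lit 409617) (nat_lit 10) (.e (nat_lit 5630) (nat_lit 312) .nil)))) .nil)) 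
(.lf (nat_lit 288759) (.g (nat_lit 1752) (.e (nat_lit 294959) (nat_lit 13) (.e (nat_lit 393260) (nat_lit 21) (.e (nat_lit 409646) (nat_lit 18) (.e (nat_lit 303115) (nat_lit 1) (.e (nat_lit 164151) (nat_lit 152) .nil))))) .nil))))) (.nd (nat_lit 4) (.nd (nat_lit 5) (.nd (nat_lit 6) 
(.lf (nat_lit 288655) (.g (nat_lit 3131) (.e (nat_lit 294958) (nat_lit 13) (.e (nat_lit 393301) (nat_lit 27) (.e (nat_lit 491560) (nat_lit 10) (.e (nat_lit 344174) (nat_lit 42) (.e (nat_lit 761856) (nat_lit 0) (.e (nat_lit 2783) (nat_lit 179) .nil)))))) (.g (nat_lit 4) .nil .nil))) 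
(.lf (nat_lit 288719) (.g (nat_lit 1239) (.e (nat_lit 294959) (nat_lit 13) (.e (nat_lit 393260) (nat_lit 21) (.e (nat_lit 409644) (nat_lit 18) (.e (nat_lit 303115) (nat_lit 1) .nil)))) .nil))) (.nd (nat_lit 6) 
(.lf (nat_lit 288687) (.g (nat_lit 1143) (.e (nat_lit 294959) (nat_lit 13) (.e (nat_lit 393238) (nat_lit 17) (.e (nat_lit 7101) (nat_lit 380) (.e (nat_lit 164368) (nat_lit 247) .nil)))) .nil)) 
(.lf (nat_lit 288751) (.g (nat_lit 1714) (.e (nat_lit 294959) (nat_lit 13) (.e (nat_lit 393260) (nat_lit 21) (.e (nat_lit 409646) (nat_lit 18) (.e (nat_lit 303114) (nat_lit 1) .nil)))) .nil)))) (.nd (nat_lit 5) (.nd (nat_lit 6) 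
(.lf (nat_lit 288671) (.g (nat_lit 1974) (.e (nat_lit 294959) (nat_lit 13) (.e (nat_lit 393225) (nat_lit 9) (.e (nat_lit 335995) (nat_lit 1) (.e (nat_lit 57872) (nat_lit 264) (.e (nat_lit 982) (nat_lit 81) .nil))))) .nil)) 
(.lf (nat_lit 288735) (.g (nat_lit 2779) (.e (nat_lit 294959) (nat_lit 13) (.e (nat_lit 393260) (nat_lit 21) (.e (nat_lit 409645) (nat_lit 18) (.e (nat_lit 303115) (nat_lit 1) (.e (nat_lit 164151) (nat_lit 152) (.e (nat_lit 3) (nat_lit 0) (.e (nat_lit 2791) (nat_lit 179) .nil))))))) (.g (nat_lit 5) .nil .nil)))) (.nd (nat_lit 6) 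
(.lf (nat_lit 288703) (.g (nat_lit 405) (.e (nat_lit 294959) (nat_lit 13) (.e (nat_lit 393260) (nat_lit 21) (.e (nat_lit 409643) (nat_lit 18) .nil))) .nil)) 
(.lf (nat_lit 288767) (.g (nat_lit 1238) (.e (nat_lit 294959) (nat_lit 13) (.e (nat_lit 393260) (nat_lit 21) (.e (nat_lit 409647) (nat_lit 18) (.e (nat_lit 311040) (nat_lit 25) .nil)))) .nil)))))))))

noncomputable def tv3651 : DT := (.nd (nat_lit 0) (.nd (nat_lit 1) (.nd (nat_lit 2) (.nd (nat_lit 3) (.nd (nat_lit 4) (.nd (nat_lit 5) (.nd (nat_lit 6) 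
(.lf (nat_lit 288768) (.g (nat_lit 1303) (.e (nat_lit 294959) (nat_lit 13) (.e (nat_lit 393260) (nat_lit 21) (.e (nat_lit 409648) (nat_lit 18) (.e (nat_lit 303107) (nat_lit 0) .nil)))) .nil)) 
(.lf (nat_lit 288832) (.g (nat_lit 837) (.e (nat_lit 294959) (nat_lit 13) (.e (nat_lit 393291) (nat_lit 26) (.e (nat_lit 475219) (nat_lit 44) .nil))) .nil))) (.nd (nat_lit 6) 
(.lf (nat_lit 288800) (.g (nat_lit 1408) (.e (nat_lit 294959) (nat_lit 13) (.e (nat_lit 393260) (nat_lit 21) (.e (nat_lit 409649) (nat_lit 18) (.e (nat_lit 303114) (nat_lit 1) .nil)))) .nil)) 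
(.lf (nat_lit 288864) (.g (nat_lit 1249) (.e (nat_lit 294960) (nat_lit 13) (.e (nat_lit 393238) (nat_lit 17) (.e (nat_lit 6989) (nat_lit 377) (.e (nat_lit 2810) (nat_lit 180) (.e (nat_lit 311040) (nat_lit 25) (.e (nat_lit 327424) (nat_lit 17) .nil)))))) (.g (nat_lit 4) .nil .nil))))) (.nd (nat_lit 5) (.nd (nat_lit 6) 
(.lf (nat_lit 288784) (.g (nat_lit 1268) (.e (nat_lit 294959) (nat_lit 13) (.e (nat_lit 393260) (nat_lit 21) (.e (nat_lit 409648) (nat_lit 18) (.e (nat_lit 303149) (nat_lit 15) .nil)))) .nil)) 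
(.lf (nat_lit 288848) (.g (nat_lit 2772) (.e (nat_lit 294960) (nat_lit 13) (.e (nat_lit 393238) (nat_lit 17) (.e (nat_lit 6989) (nat_lit 377) (.e (nat_lit 2777) (nat_lit 178) (.e (nat_lit 286731) (nat_lit 1) (.e (nat_lit 57652) (nat_lit 152) (.e (nat_lit 26) (nat_lit 0) (.e (nat_lit 2783) (nat_lit 179) .nil)))))))) (.g (nat_lit 6) .nil .nil)))) (.nd (nat_lit 6) 
(.lf (nat_lit 288816) (.g (nat_lit 1014) (.e (nat_lit 294959) (nat_lit 13) (.e (nat_lit 393260) (nat_lit 21) (.e (nat_lit 409649) (nat_lit 18) (.e (nat_lit 311040) (nat_lit 15) .nil)))) .nil)) 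
(.lf (nat_lit 288880) (.g (nat_lit 891) (.e (nat_lit 294960) (nat_lit 13) (.e (nat_lit 393259) (nat_lit 21) (.e (nat_lit 409645) (nat_lit 18) (.e (nat_lit 303149) (nat_lit 15) .nil)))) .nil))))) (.nd (nat_lit 4) (.nd (nat_lit 5) (.nd (nat_lit 6) 
(.lf (nat_lit 288776) (.g (nat_lit 1215) (.e (nat_lit 294959) (nat_lit 13) (.e (nat_lit 393260) (nat_lit 21) (.e (nat_lit 409648) (nat_lit 18) (.e (nat_lit 303115) (nat_lit 1) .nil)))) .nil)) 
(.lf (nat_lit 288840) (.g (nat_lit 762) (.e (nat_lit 294960) (nat_lit 13) (.e (nat_lit 393225) (nat_lit 9) (.e (nat_lit 335995) (nat_lit 1) .nil))) .nil))) (.nd (nat_lit 6) 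
(.lf (nat_lit 288808) (.g (nat_lit 1228) (.e (nat_lit 294959) (nat_lit 13) (.e (nat_lit 393260) (nat_lit 21) (.e (nat_lit 409649) (nat_lit 18) (.e (nat_lit 303149) (nat_lit 15) .nil)))) .nil)) 
(.lf (nat_lit 288872) (.g (nat_lit 1026) (.e (nat_lit 294960) (nat_lit 13) (.e (nat_lit 393238) (nat_lit 17) (.e (nat_lit 7101) (nat_lit 380) (.e (nat_lit 164371) (nat_lit 249) .nil)))) .nil)))) (.nd (nat_lit 5) (.nd (nat_lit 6) 
(.lf (nat_lit 288792) (.g (nat_lit 1377) (.e (nat_lit 294959) (nat_lit 13) (.e (nat_lit 393260) (nat_lit 21) (.e (nat_lit 409649) (nat_lit 18) (.e (nat_lit 303111) (nat_lit 0) .nil)))) .nil)) 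
(.lf (nat_lit 288856) (.g (nat_lit 2094) (.e (nat_lit 294960) (nat_lit 13) (.e (nat_lit 393238) (nat_lit 17) (.e (nat_lit 6989) (nat_lit 377) (.e (nat_lit 2777) (nat_lit 178) (.e (nat_lit 294656) (nat_lit 25) (.e (nat_lit 417536) (nat_lit 7) .nil)))))) (.g (nat_lit 4) .nil .nil)))) (.nd (nat_lit 6) 
(.lf (nat_lit 288824) (.g (nat_lit 412) (.e (nat_lit 294959) (nat_lit 13) (.e (nat_lit 393281) (nat_lit 23) (.e (nat_lit 426100) (nat_lit 1) .nil))) .nil)) 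
(.lf (nat_lit 288888) (.g (nat_lit 3040) (.e (nat_lit 294960) (nat_lit 13) (.e (nat_lit 393259) (nat_lit 21) (.e (nat_lit 409646) (nat_lit 18) (.e (nat_lit 303147) (nat_lit 15) (.e (nat_lit 6114) (nat_lit 332) (.e (nat_lit 1370) (nat_lit 103) .nil)))))) (.g (nat_lit 5) .nil .nil))))))) (.nd (nat_lit 3) (.nd (nat_lit 4) (.nd (nat_lit 5) (.nd (nat_lit 6) 
(.lf (nat_lit 288772) (.g (nat_lit 1594) (.e (nat_lit 294959) (nat_lit 13) (.e (nat_lit 393260) (nat_lit 21) (.e (nat_lit 409648) (nat_lit 18) (.e (nat_lit 303109) (nat_lit 0) .nil)))) .nil)) 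
(.lf (nat_lit 288836) (.g (nat_lit 955) (.e (nat_lit 294959) (nat_lit 13) (.e (nat_lit 393294) (nat_lit 26) (.e (nat_lit 475218) (nat_lit 44) .nil))) .nil))) (.nd (nat_lit 6) 
(.lf (nat_lit 288804) (.g (nat_lit 1631) (.e (nat_lit 294959) (nat_lit 13) (.e (nat_lit 393260) (nat_lit 21) (.e (nat_lit 409649) (nat_lit 18) (.e (nat_lit 303115) (nat_lit 1) (.e (nat_lit 164148) (nat_lit 152) .nil))))) .nil)) 
(.lf (nat_lit 288868) (.g (nat_lit 424) (.e (nat_lit 294960) (nat_lit 13) (.e (nat_lit 393238) (nat_lit 17) (.e (nat_lit 7101) (nat_lit 380) .nil))) .nil)))) (.nd (nat_lit 5) (.nd (nat_lit 6) 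
(.lf (nat_lit 288788) (.g (nat_lit 1995) (.e (nat_lit 294959) (nat_lit 13) (.e (nat_lit 393260) (nat_lit 21) (.e (nat_lit 409648) (nat_lit 18) (.e (nat_lit 303149) (nat_lit 15) (.e (nat_lit 6120) (nat_lit 332) (.e (nat_lit 1367) (nat_lit 103) .nil)))))) (.g (nat_lit 4) .nil .nil))) 
(.lf (nat_lit 288852) (.g (nat_lit 2149) (.e (nat_lit 294960) (nat_lit 13) (.e (nat_lit 393238) (nat_lit 17) (.e (nat_lit 6989) (nat_lit 377) (.e (nat_lit 2777) (nat_lit 178) (.e (nat_lit 286763) (nat_lit 15) (.e (nat_lit 6973) (nat_lit 377) (.e (nat_lit 1364) (nat_lit 103) .nil))))))) (.g (nat_lit 4) .nil .nil)))) (.nd (nat_lit 6) 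
(.lf (nat_lit 288820) (.g (nat_lit 1711) (.e (nat_lit 294959) (nat_lit 13) (.e (nat_lit 393271) (nat_lit 23) (.e (nat_lit 425986) (nat_lit 0) (.e (nat_lit 3419) (nat_lit 213) .nil)))) .nil)) 
(.lf (nat_lit 288884) (.g (nat_lit 1835) (.e (nat_lit 294960) (nat_lit 13) (.e (nat_lit 393259) (nat_lit 21) (.e (nat_lit 409645) (nat_lit 18) (.e (nat_lit 303149) (nat_lit 15) (.e (nat_lit 6120) (nat_lit 332) .nil))))) .nil))))) (.nd (nat_lit 4) (.nd (nat_lit 5) (.nd (nat_lit 6) 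
(.lf (nat_lit 288780) (.g (nat_lit 1804) (.e (nat_lit 294959) (nat_lit 13) (.e (nat_lit 393260) (nat_lit 21) (.e (nat_lit 409648) (nat_lit 18) (.e (nat_lit 303115) (nat_lit 1) (.e (nat_lit 164150) (nat_lit 152) (.e (nat_lit 21) (nat_lit 0) (.e (nat_lit 2788) (nat_lit 179) .nil))))))) (.g (nat_lit 4) .nil .nil))) 
(.lf (nat_lit 288844) (.g (nat_lit 447) (.e (nat_lit 294960) (nat_lit 13) (.e (nat_lit 393238) (nat_lit 17) (.e (nat_lit 6970) (nat_lit 377) .nil))) .nil))) (.nd (nat_lit 6) 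
(.lf (nat_lit 288812) (.g (nat_lit 2203) (.e (nat_lit 294959) (nat_lit 13) (.e (nat_lit 393260) (nat_lit 21) (.e (nat_lit 409649) (nat_lit 18) (.e (nat_lit 303149) (nat_lit 15) (.e (nat_lit 6112) (nat_lit 332) (.e (nat_lit 7936) (nat_lit 103) .nil)))))) (.g (nat_lit 5) .nil .nil))) 
(.lf (nat_lit 288876) (.g (nat_lit 2051) (.e (nat_lit 294960) (nat_lit 13) (.e (nat_lit 393259) (nat_lit 21) (.e (nat_lit 409645) (nat_lit 18) (.e (nat_lit 303115) (nat_lit 1) (.e (nat_lit 164148) (nat_lit 152) (.e (nat_lit 26) (nat_lit 0) (.e (nat_lit 2783) (nat_lit 179) .nil))))))) (.g (nat_lit 4) .nil .nil))))) (.nd (nat_lit 5) (.nd (nat_lit 6) 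
(.lf (nat_lit 288796) (.g (nat_lit 2233) (.e (nat_lit 294959) (nat_lit 13) (.e (nat_lit 393260) (nat_lit 21) (.e (nat_lit 409649) (nat_lit 18) (.e (nat_lit 303111) (nat_lit 0) (.e (nat_lit 3459) (nat_lit 216) (.e (nat_lit 688129) (nat_lit 0) (.e (nat_lit 2783) (nat_lit 179) .nil))))))) (.g (nat_lit 4) .nil .nil))) 
(.lf (nat_lit 288860) (.g (nat_lit 1237) (.e (nat_lit 294960) (nat_lit 13) (.e (nat_lit 393238) (nat_lit 17) (.e (nat_lit 6989) (nat_lit 377) (.e (nat_lit 2781) (nat_lit 178) .nil)))) .nil))) (.nd (nat_lit 6) 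
(.lf (nat_lit 288828) (.g (nat_lit 1606) (.e (nat_lit 294959) (nat_lit 13) (.e (nat_lit 393283) (nat_lit 24) (.e (nat_lit 434272) (nat_lit 38) (.e (nat_lit 655363) (nat_lit 0) (.e (nat_lit 2828) (nat_lit 182) .nil))))) .nil)) 
(.lf (nat_lit 288892) (.g (nat_lit 1863) (.e (nat_lit 294960) (nat_lit 13) (.e (nat_lit 393260) (nat_lit 21) (.e (nat_lit 409616) (nat_lit 10) (.e (nat_lit 5696) (nat_lit 312) .nil)))) .nil))))))) (.nd (nat_lit 2) (.nd (nat_lit 3) (.nd (nat_lit 4) (.nd (nat_lit 5) (.nd (nat_lit 6) 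
(.lf (nat_lit 288770) (.g (nat_lit 1304) (.e (nat_lit 294959) (nat_lit 13) (.e (nat_lit 393260) (nat_lit 21) (.e (nat_lit 409648) (nat_lit 18) (.e (nat_lit 303108) (nat_lit 0) .nil)))) .nil)) 
(.lf (nat_lit 288834) (.g (nat_lit 1309) (.e (nat_lit 294959) (nat_lit 13) (.e (nat_lit 393291) (nat_lit 26) (.e (nat_lit 475219) (nat_lit 44) (.e (nat_lit 737297) (nat_lit 6) .nil)))) .nil))) (.nd (nat_lit 6) 
(.lf (nat_lit 288802) (.g (nat_lit 2043) (.e (nat_lit 294959) (nat_lit 13) (.e (nat_lit 393260) (nat_lit 21) (.e (nat_lit 409649) (nat_lit 18) (.e (nat_lit 303114) (nat_lit 1) (.e (nat_lit 164151) (nat_lit 152) (.e (nat_lit 87) (nat_lit 0) (.e (nat_lit 2787) (nat_lit 179) .nil))))))) (.g (nat_lit 5) .nil .nil))) 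
(.lf (nat_lit 288866) (.g (nat_lit 1543) (.e (nat_lit 294960) (nat_lit 13) (.e (nat_lit 393238) (nat_lit 17) (.e (nat_lit 6989) (nat_lit 377) (.e (nat_lit 2819) (nat_lit 181) (.e (nat_lit 311349) (nat_lit 15) .nil))))) .nil)))) (.nd (nat_lit 5) (.nd (nat_lit 6) 
(.lf (nat_lit 288786) (.g (nat_lit 2194) (.e (nat_lit 294959) (nat_lit 13) (.e (nat_lit 393260) (nat_lit 21) (.e (nat_lit 409648) (nat_lit 18) (.e (nat_lit 303149) (nat_lit 15) (.e (nat_lit 6112) (nat_lit 332) (.e (nat_lit 7936) (nat_lit 103) .nil)))))) (.g (nat_lit 5) .nil .nil))) 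
(.lf (nat_lit 288850) (.g (nat_lit 1797) (.e (nat_lit 294960) (nat_lit 13) (.e (nat_lit 393238) (nat_lit 17) (.e (nat_lit 6989) (nat_lit 377) (.e (nat_lit 2777) (nat_lit 178) (.e (nat_lit 286763) (nat_lit 15) .nil))))) .nil))) (.nd (nat_lit 6) 
(.lf (nat_lit 288818) (.g (nat_lit 1184) (.e (nat_lit 294959) (nat_lit 13) (.e (nat_lit 393271) (nat_lit 23) (.e (nat_lit 425986) (nat_lit 0) .nil))) .nil)) 
(.lf (nat_lit 288882) (.g (nat_lit 2760) (.e (nat_lit 294960) (nat_lit 13) (.e (nat_lit 393259) (nat_lit 21) (.e (nat_lit 409645) (nat_lit 18) (.e (nat_lit 303149) (nat_lit 15) (.e (nat_lit 6112) (nat_lit 332) (.e (nat_lit 1370) (nat_lit 103) .nil)))))) (.g (nat_lit 0) .nil .nil)))))) (.nd (nat_lit 4) (.nd (nat_lit 5) (.nd (nat_lit 6) 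
(.lf (nat_lit 288778) (.g (nat_lit 1747) (.e (nat_lit 294959) (nat_lit 13) (.e (nat_lit 393260) (nat_lit 21) (.e (nat_lit 409648) (nat_lit 18) (.e (nat_lit 303115) (nat_lit 1) (.e (nat_lit 164148) (nat_lit 152) (.e (nat_lit 26) (nat_lit 0) (.e (nat_lit 2783) (nat_lit 179) .nil))))))) (.g (nat_lit 4) .nil .nil))) 
(.lf (nat_lit 288842) (.g (nat_lit 495) (.e (nat_lit 294960) (nat_lit 13) (.e (nat_lit 393232) (nat_lit 17) (.e (nat_lit 7593) (nat_lit 407) .nil))) .nil))) (.nd (nat_lit 6) 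
(.lf (nat_lit 288810) (.g (nat_lit 1840) (.e (nat_lit 294959) (nat_lit 13) (.e (nat_lit 393260) (nat_lit 21) (.e (nat_lit 409649) (nat_lit 18) (.e (nat_lit 303149) (nat_lit 15) (.e (nat_lit 6101) (nat_lit 332) .nil))))) .nil)) 
(.lf (nat_lit 288874) (.g (nat_lit 1790) (.e (nat_lit 294960) (nat_lit 13) (.e (nat_lit 393238) (nat_lit 17) (.e (nat_lit 7537) (nat_lit 402) (.e (nat_lit 1638) (nat_lit 114) (.e (nat_lit 392960) (nat_lit 16) .nil))))) .nil)))) (.nd (nat_lit 5) (.nd (nat_lit 6) 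
(.lf (nat_lit 288794) (.g (nat_lit 2211) (.e (nat_lit 294959) (nat_lit 13) (.e (nat_lit 393260) (nat_lit 21) (.e (nat_lit 409649) (nat_lit 18) (.e (nat_lit 303111) (nat_lit 0) (.e (nat_lit 2448) (nat_lit 157) .nil))))) .nil)) 
(.lf (nat_lit 288858) (.g (nat_lit 2111) (.e (nat_lit 294960) (nat_lit 13) (.e (nat_lit 393238) (nat_lit 17) (.e (nat_lit 6989) (nat_lit 377) (.e (nat_lit 2777) (nat_lit 178) (.e (nat_lit 294656) (nat_lit 26) (.e (nat_lit 417812) (nat_lit 7) .nil)))))) (.g (nat_lit 4) .nil .nil)))) (.nd (nat_lit 6) 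
(.lf (nat_lit 288826) (.g (nat_lit 673) (.e (nat_lit 294959) (nat_lit 13) (.e (nat_lit 393281) (nat_lit 23) (.e (nat_lit 426145) (nat_lit 4) (.e (nat_lit 229678) (nat_lit 244) .nil)))) .nil)) 
(.lf (nat_lit 288890) (.g (nat_lit 586) (.e (nat_lit 294960) (nat_lit 13) (.e (nat_lit 393260) (nat_lit 21) (.e (nat_lit 409615) (nat_lit 10) .nil))) .nil)))))) (.nd (nat_lit 3) (.nd (nat_lit 4) (.nd (nat_lit 5) (.nd (nat_lit 6) 
(.lf (nat_lit 288774) (.g (nat_lit 1162) (.e (nat_lit 294959) (nat_lit 13) (.e (nat_lit 393260) (nat_lit 21) (.e (nat_lit 409648) (nat_lit 18) (.e (nat_lit 303114) (nat_lit 1) .nil)))) .nil)) 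
(.lf (nat_lit 288838) (.g (nat_lit 2486) (.e (nat_lit 294959) (nat_lit 13) (.e (nat_lit 393297) (nat_lit 27) (.e (nat_lit 491566) (nat_lit 12) (.e (nat_lit 385037) (nat_lit 16) .nil)))) .nil))) (.nd (nat_lit 6) 
(.lf (nat_lit 288806) (.g (nat_lit 1521) (.e (nat_lit 294959) (nat_lit 13) (.e (nat_lit 393260) (nat_lit 21) (.e (nat_lit 409649) (nat_lit 18) (.e (nat_lit 303115) (nat_lit 1) (.e (nat_lit 164151) (nat_lit 152) .nil))))) .nil)) 
(.lf (nat_lit 288870) (.g (nat_lit 967) (.e (nat_lit 294960) (nat_lit 13) (.e (nat_lit 393238) (nat_lit 17) (.e (nat_lit 7101) (nat_lit 380) (.e (nat_lit 164368) (nat_lit 247) .nil)))) .nil)))) (.nd (nat_lit 5) (.nd (nat_lit 6) 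
(.lf (nat_lit 288790) (.g (nat_lit 392) (.e (nat_lit 294959) (nat_lit 13) (.e (nat_lit 393260) (nat_lit 21) (.e (nat_lit 409649) (nat_lit 18) .nil))) .nil)) 
(.lf (nat_lit 288854) (.g (nat_lit 2612) (.e (nat_lit 294960) (nat_lit 13) (.e (nat_lit 393238) (nat_lit 17) (.e (nat_lit 6989) (nat_lit 377) (.e (nat_lit 2777) (nat_lit 178) (.e (nat_lit 286763) (nat_lit 15) (.e (nat_lit 6988) (nat_lit 377) (.e (nat_lit 7936) (nat_lit 103) .nil))))))) (.g (nat_lit 6) .nil .nil)))) (.nd (nat_lit 6) 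
(.lf (nat_lit 288822) (.g (nat_lit 1157) (.e (nat_lit 294959) (nat_lit 13) (.e (nat_lit 393271) (nat_lit 23) (.e (nat_lit 426439) (nat_lit 19) .nil))) .nil)) 
(.lf (nat_lit 288886) (.g (nat_lit 1352) (.e (nat_lit 294960) (nat_lit 13) (.e (nat_lit 393259) (nat_lit 21) (.e (nat_lit 409646) (nat_lit 18) (.e (nat_lit 303115) (nat_lit 1) .nil)))) .nil))))) (.nd (nat_lit 4) (.nd (nat_lit 5) (.nd (nat_lit 6) 
(.lf (nat_lit 288782) (.g (nat_lit 1554) (.e (nat_lit 294959) (nat_lit 13) (.e (nat_lit 393260) (nat_lit 21) (.e (nat_lit 409648) (nat_lit 18) (.e (nat_lit 303115) (nat_lit 1) (.e (nat_lit 164151) (nat_lit 152) .nil))))) .nil)) 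
(.lf (nat_lit 288846) (.g (nat_lit 1211) (.e (nat_lit 294960) (nat_lit 13) (.e (nat_lit 393238) (nat_lit 17) (.e (nat_lit 6989) (nat_lit 377) (.e (nat_lit 2404) (nat_lit 157) (.e (nat_lit 5259) (nat_lit 298) .nil))))) .nil))) (.nd (nat_lit 6) 
(.lf (nat_lit 288814) (.g (nat_lit 1933) (.e (nat_lit 294959) (nat_lit 13) (.e (nat_lit 393260) (nat_lit 21) (.e (nat_lit 409649) (nat_lit 18) (.e (nat_lit 303149) (nat_lit 15) (.e (nat_lit 6120) (nat_lit 332) .nil))))) .nil)) 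
(.lf (nat_lit 288878) (.g (nat_lit 1934) (.e (nat_lit 294960) (nat_lit 13) (.e (nat_lit 393259) (nat_lit 21) (.e (nat_lit 409645) (nat_lit 18) (.e (nat_lit 303115) (nat_lit 1) (.e (nat_lit 164151) (nat_lit 152) (.e (nat_lit 87) (nat_lit 0) (.e (nat_lit 2786) (nat_lit 179) .nil))))))) (.g (nat_lit 4) .nil .nil))))) (.nd (nat_lit 5) (.nd (nat_lit 6) 
(.lf (nat_lit 288798) (.g (nat_lit 1838) (.e (nat_lit 294959) (nat_lit 13) (.e (nat_lit 393260) (nat_lit 21) (.e (nat_lit 409649) (nat_lit 18) (.e (nat_lit 303111) (nat_lit 0) (.e (nat_lit 3469) (nat_lit 217) .nil))))) .nil)) 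
(.lf (nat_lit 288862) (.g (nat_lit 1855) (.e (nat_lit 294960) (nat_lit 13) (.e (nat_lit 393238) (nat_lit 17) (.e (nat_lit 6989) (nat_lit 377) (.e (nat_lit 2810) (nat_lit 180) (.e (nat_lit 303115) (nat_lit 1) (.e (nat_lit 164151) (nat_lit 152) (.e (nat_lit 26) (nat_lit 0) (.e (nat_lit 2783) (nat_lit 179) .nil)))))))) (.g (nat_lit 5) .nil .nil)))) (.nd (nat_lit 6) 
(.lf (nat_lit 288830) (.g (nat_lit 953) (.e (nat_lit 294959) (nat_lit 13) (.e (nat_lit 393283) (nat_lit 24) (.e (nat_lit 434275) (nat_lit 39) (.e (nat_lit 671488) (nat_lit 17) .nil)))) .nil)) 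
(.lf (nat_lit 288894) (.g (nat_lit 1124) (.e (nat_lit 294960) (nat_lit 13) (.e (nat_lit 393260) (nat_lit 21) (.e (nat_lit 409616) (nat_lit 10) (.e (nat_lit 7936) (nat_lit 313) .nil)))) .nil)))))))) (.nd (nat_lit 1) (.nd (nat_lit 2) (.nd (nat_lit 3) (.nd (nat_lit 4) (.nd (nat_lit 5) (.nd (nat_lit 6) 
(.lf (nat_lit 288769) (.g (nat_lit 2177) (.e (nat_lit 294959) (nat_lit 13) (.e (nat_lit 393260) (nat_lit 21) (.e (nat_lit 409648) (nat_lit 18) (.e (nat_lit 303107) (nat_lit 0) (.e (nat_lit 3459) (nat_lit 216) (.e (nat_lit 688131) (nat_lit 0) (.e (nat_lit 2783) (nat_lit 179) .nil))))))) (.g (nat_lit 5) .nil .nil))) 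
(.lf (nat_lit 288833) (.g (nat_lit 1296) (.e (nat_lit 294959) (nat_lit 13) (.e (nat_lit 393291) (nat_lit 26) (.e (nat_lit 475219) (nat_lit 44) (.e (nat_lit 737286) (nat_lit 0) .nil)))) .nil))) (.nd (nat_lit 6) 
(.lf (nat_lit 288801) (.g (nat_lit 2025) (.e (nat_lit 294959) (nat_lit 13) (.e (nat_lit 393260) (nat_lit 21) (.e (nat_lit 409649) (nat_lit 18) (.e (nat_lit 303114) (nat_lit 1) (.e (nat_lit 164151) (nat_lit 152) (.e (nat_lit 26) (nat_lit 0) (.e (nat_lit 2783) (nat_lit 179) .nil))))))) (.g (nat_lit 5) .nil .nil))) 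
(.lf (nat_lit 288865) (.g (nat_lit 1414) (.e (nat_lit 294960) (nat_lit 13) (.e (nat_lit 393238) (nat_lit 17) (.e (nat_lit 6989) (nat_lit 377) (.e (nat_lit 2810) (nat_lit 180) (.e (nat_lit 311040) (nat_lit 26) (.e (nat_lit 335616) (nat_lit 17) .nil)))))) (.g (nat_lit 4) .nil .nil))))) (.nd (nat_lit 5) (.nd (nat_lit 6) 
(.lf (nat_lit 288785) (.g (nat_lit 1665) (.e (nat_lit 294959) (nat_lit 13) (.e (nat_lit 393260) (nat_lit 21) (.e (nat_lit 409648) (nat_lit 18) (.e (nat_lit 303149) (nat_lit 15) (.e (nat_lit 6112) (nat_lit 332) .nil))))) .nil)) 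
(.lf (nat_lit 288849) (.g (nat_lit 2463) (.e (nat_lit 294960) (nat_lit 13) (.e (nat_lit 393238) (nat_lit 17) (.e (nat_lit 6989) (nat_lit 377) (.e (nat_lit 2777) (nat_lit 178) (.e (nat_lit 286731) (nat_lit 1) (.e (nat_lit 57676) (nat_lit 153) (.e (nat_lit 8210) (nat_lit 8) .nil))))))) (.g (nat_lit 5) .nil .nil)))) (.nd (nat_lit 6) 
(.lf (nat_lit 288817) (.g (nat_lit 1014) (.e (nat_lit 294959) (nat_lit 13) (.e (nat_lit 393260) (nat_lit 21) (.e (nat_lit 409649) (nat_lit 18) (.e (nat_lit 311040) (nat_lit 26) .nil)))) .nil)) 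
(.lf (nat_lit 288881) (.g (nat_lit 2714) (.e (nat_lit 294960) (nat_lit 13) (.e (nat_lit 393259) (nat_lit 21) (.e (nat_lit 409645) (nat_lit 18) (.e (nat_lit 303149) (nat_lit 15) (.e (nat_lit 6092) (nat_lit 332) (.e (nat_lit 1370) (nat_lit 103) .nil)))))) (.g (nat_lit 0) .nil .nil)))))) (.nd (nat_lit 4) (.nd (nat_lit 5) (.nd (nat_lit 6) 
(.lf (nat_lit 288777) (.g (nat_lit 1691) (.e (nat_lit 294959) (nat_lit 13) (.e (nat_lit 393260) (nat_lit 21) (.e (nat_lit 409648) (nat_lit 18) (.e (nat_lit 303115) (nat_lit 1) (.e (nat_lit 164148) (nat_lit 152) .nil))))) .nil)) 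
(.lf (nat_lit 288841) (.g (nat_lit 1061) (.e (nat_lit 294960) (nat_lit 13) (.e (nat_lit 393232) (nat_lit 17) (.e (nat_lit 7591) (nat_lit 407) (.e (nat_lit 73733) (nat_lit 0) .nil)))) .nil))) (.nd (nat_lit 6) 
(.lf (nat_lit 288809) (.g (nat_lit 1907) (.e (nat_lit 294959) (nat_lit 13) (.e (nat_lit 393260) (nat_lit 21) (.e (nat_lit 409649) (nat_lit 18) (.e (nat_lit 303149) (nat_lit 15) (.e (nat_lit 6098) (nat_lit 332) (.e (nat_lit 1367) (nat_lit 103) .nil)))))) (.g (nat_lit 4) .nil .nil))) 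
(.lf (nat_lit 288873) (.g (nat_lit 941) (.e (nat_lit 294960) (nat_lit 13) (.e (nat_lit 393238) (nat_lit 17) (.e (nat_lit 7101) (nat_lit 380) (.e (nat_lit 164375) (nat_lit 252) .nil)))) .nil)))) (.nd (nat_lit 5) (.nd (nat_lit 6) 
(.lf (nat_lit 288793) (.g (nat_lit 2117) (.e (nat_lit 294959) (nat_lit 13) (.e (nat_lit 393260) (nat_lit 21) (.e (nat_lit 409649) (nat_lit 18) (.e (nat_lit 303111) (nat_lit 0) (.e (nat_lit 2422) (nat_lit 157) .nil))))) .nil)) 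
(.lf (nat_lit 288857) (.g (nat_lit 1781) (.e (nat_lit 294960) (nat_lit 13) (.e (nat_lit 393238) (nat_lit 17) (.e (nat_lit 6989) (nat_lit 377) (.e (nat_lit 2777) (nat_lit 178) (.e (nat_lit 294656) (nat_lit 26) .nil))))) .nil))) (.nd (nat_lit 6) 
(.lf (nat_lit 288825) (.g (nat_lit 1694) (.e (nat_lit 294959) (nat_lit 13) (.e (nat_lit 393281) (nat_lit 23) (.e (nat_lit 426100) (nat_lit 1) (.e (nat_lit 164399) (nat_lit 256) (.e (nat_lit 57402) (nat_lit 11) .nil))))) .nil)) 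
(.lf (nat_lit 288889) (.g (nat_lit 1031) (.e (nat_lit 294960) (nat_lit 13) (.e (nat_lit 393260) (nat_lit 21) (.e (nat_lit 409612) (nat_lit 10) .nil))) .nil)))))) (.nd (nat_lit 3) (.nd (nat_lit 4) (.nd (nat_lit 5) (.nd (nat_lit 6) 
(.lf (nat_lit 288773) (.g (nat_lit 1798) (.e (nat_lit 294959) (nat_lit 13) (.e (nat_lit 393260) (nat_lit 21) (.e (nat_lit 409648) (nat_lit 18) (.e (nat_lit 303110) (nat_lit 0) .nil)))) .nil)) 
(.lf (nat_lit 288837) (.g (nat_lit 955) (.e (nat_lit 294959) (nat_lit 13) (.e (nat_lit 393294) (nat_lit 26) (.e (nat_lit 475220) (nat_lit 44) .nil))) .nil))) (.nd (nat_lit 6) 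
(.lf (nat_lit 288805) (.g (nat_lit 1971) (.e (nat_lit 294959) (nat_lit 13) (.e (nat_lit 393260) (nat_lit 21) (.e (nat_lit 409649) (nat_lit 18) (.e (nat_lit 303115) (nat_lit 1) (.e (nat_lit 164148) (nat_lit 152) (.e (nat_lit 26) (nat_lit 0) (.e (nat_lit 2783) (nat_lit 179) .nil))))))) (.g (nat_lit 5) .nil .nil))) 
(.lf (nat_lit 288869) (.g (nat_lit 3237) (.e (nat_lit 294960) (nat_lit 13) (.e (nat_lit 393238) (nat_lit 17) (.e (nat_lit 7101) (nat_lit 380) (.e (nat_lit 164353) (nat_lit 246) (.e (nat_lit 59) (nat_lit 0) (.e (nat_lit 6114) (nat_lit 332) (.e (nat_lit 1370) (nat_lit 103) .nil))))))) (.g (nat_lit 7) .nil .nil))))) (.nd (nat_lit 5) (.nd (nat_lit 6) 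
(.lf (nat_lit 288789) (.g (nat_lit 1071) (.e (nat_lit 294959) (nat_lit 13) (.e (nat_lit 393260) (nat_lit 21) (.e (nat_lit 409648) (nat_lit 18) (.e (nat_lit 311040) (nat_lit 15) .nil)))) .nil)) 
(.lf (nat_lit 288853) (.g (nat_lit 3198) (.e (nat_lit 294960) (nat_lit 13) (.e (nat_lit 393238) (nat_lit 17) (.e (nat_lit 6989) (nat_lit 377) (.e (nat_lit 2777) (nat_lit 178) (.e (nat_lit 286763) (nat_lit 15) (.e (nat_lit 6988) (nat_lit 377) (.e (nat_lit 1370) (nat_lit 103) .nil))))))) (.g (nat_lit 0) .nil .nil)))) (.nd (nat_lit 6) 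
(.lf (nat_lit 288821) (.g (nat_lit 1172) (.e (nat_lit 294959) (nat_lit 13) (.e (nat_lit 393271) (nat_lit 23) (.e (nat_lit 426354) (nat_lit 15) .nil))) .nil)) 
(.lf (nat_lit 288885) (.g (nat_lit 2283) (.e (nat_lit 294960) (nat_lit 13) (.e (nat_lit 393259) (nat_lit 21) (.e (nat_lit 409646) (nat_lit 18) (.e (nat_lit 303112) (nat_lit 0) (.e (nat_lit 2478) (nat_lit 157) .nil))))) .nil))))) (.nd (nat_lit 4) (.nd (nat_lit 5) (.nd (nat_lit 6) 
(.lf (nat_lit 288781) (.g (nat_lit 2123) (.e (nat_lit 294959) (nat_lit 13) (.e (nat_lit 393260) (nat_lit 21) (.e (nat_lit 409648) (nat_lit 18) (.e (nat_lit 303115) (nat_lit 1) (.e (nat_lit 164150) (nat_lit 152) (.e (nat_lit 26) (nat_lit 0) (.e (nat_lit 2783) (nat_lit 179) .nil))))))) (.g (nat_lit 5) .nil .nil))) 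
(.lf (nat_lit 288845) (.g (nat_lit 359) (.e (nat_lit 294960) (nat_lit 13) (.e (nat_lit 393238) (nat_lit 17) (.e (nat_lit 6989) (nat_lit 377) .nil))) .nil))) (.nd (nat_lit 6) 
(.lf (nat_lit 288813) (.g (nat_lit 1925) (.e (nat_lit 294959) (nat_lit 13) (.e (nat_lit 393260) (nat_lit 21) (.e (nat_lit 409649) (nat_lit 18) (.e (nat_lit 303149) (nat_lit 15) (.e (nat_lit 6119) (nat_lit 332) .nil))))) .nil)) 
(.lf (nat_lit 288877) (.g (nat_lit 2313) (.e (nat_lit 294960) (nat_lit 13) (.e (nat_lit 393259) (nat_lit 21) (.e (nat_lit 409645) (nat_lit 18) (.e (nat_lit 303115) (nat_lit 1) (.e (nat_lit 164150) (nat_lit 152) (.e (nat_lit 26) (nat_lit 0) (.e (nat_lit 2783) (nat_lit 179) .nil))))))) (.g (nat_lit 5) .nil .nil))))) (.nd (nat_lit 5) (.nd (nat_lit 6) 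
(.lf (nat_lit 288797) (.g (nat_lit 1899) (.e (nat_lit 294959) (nat_lit 13) (.e (nat_lit 393260) (nat_lit 21) (.e (nat_lit 409649) (nat_lit 18) (.e (nat_lit 303111) (nat_lit 0) (.e (nat_lit 3468) (nat_lit 217) .nil))))) .nil)) 
(.lf (nat_lit 288861) (.g (nat_lit 846) (.e (nat_lit 294960) (nat_lit 13) (.e (nat_lit 393238) (nat_lit 17) (.e (nat_lit 6989) (nat_lit 377) (.e (nat_lit 2810) (nat_lit 180) .nil)))) .nil))) (.nd (nat_lit 6) 
(.lf (nat_lit 288829) (.g (nat_lit 2737) (.e (nat_lit 294959) (nat_lit 13) (.e (nat_lit 393283) (nat_lit 24) (.e (nat_lit 434272) (nat_lit 38) (.e (nat_lit 655364) (nat_lit 0) (.e (nat_lit 2828) (nat_lit 182) (.e (nat_lit 417536) (nat_lit 7) .nil)))))) (.g (nat_lit 5) .nil .nil))) 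
(.lf (nat_lit 288893) (.g (nat_lit 1863) (.e (nat_lit 294960) (nat_lit 13) (.e (nat_lit 393260) (nat_lit 21) (.e (nat_lit 409616) (nat_lit 10) (.e (nat_lit 5732) (nat_lit 312) .nil)))) .nil))))))) (.nd (nat_lit 2) (.nd (nat_lit 3) (.nd (nat_lit 4) (.nd (nat_lit 5) (.nd (nat_lit 6) 
(.lf (nat_lit 288771) (.g (nat_lit 2289) (.e (nat_lit 294959) (nat_lit 13) (.e (nat_lit 393260) (nat_lit 21) (.e (nat_lit 409648) (nat_lit 18) (.e (nat_lit 303108) (nat_lit 0) (.e (nat_lit 3469) (nat_lit 217) (.e (nat_lit 696324) (nat_lit 0) (.e (nat_lit 2787) (nat_lit 179) .nil))))))) (.g (nat_lit 5) .nil .nil))) 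
(.lf (nat_lit 288835) (.g (nat_lit 978) (.e (nat_lit 294959) (nat_lit 13) (.e (nat_lit 393294) (nat_lit 26) (.e (nat_lit 475200) (nat_lit 40) .nil))) .nil))) (.nd (nat_lit 6) 
(.lf (nat_lit 288803) (.g (nat_lit 1111) (.e (nat_lit 294959) (nat_lit 13) (.e (nat_lit 393260) (nat_lit 21) (.e (nat_lit 409649) (nat_lit 18) (.e (nat_lit 303115) (nat_lit 1) .nil)))) .nil)) 
(.lf (nat_lit 288867) (.g (nat_lit 532) (.e (nat_lit 294960) (nat_lit 13) (.e (nat_lit 393238) (nat_lit 17) (.e (nat_lit 7099) (nat_lit 380) .nil))) .nil)))) (.nd (nat_lit 5) (.nd (nat_lit 6) 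
(.lf (nat_lit 288787) (.g (nat_lit 1862) (.e (nat_lit 294959) (nat_lit 13) (.e (nat_lit 393260) (nat_lit 21) (.e (nat_lit 409648) (nat_lit 18) (.e (nat_lit 303149) (nat_lit 15) (.e (nat_lit 6120) (nat_lit 332) .nil))))) .nil)) 
(.lf (nat_lit 288851) (.g (nat_lit 2138) (.e (nat_lit 294960) (nat_lit 13) (.e (nat_lit 393238) (nat_lit 17) (.e (nat_lit 6989) (nat_lit 377) (.e (nat_lit 2777) (nat_lit 178) (.e (nat_lit 286763) (nat_lit 15) (.e (nat_lit 6972) (nat_lit 377) (.e (nat_lit 1371) (nat_lit 103) .nil))))))) (.g (nat_lit 4) .nil .nil)))) (.nd (nat_lit 6) 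
(.lf (nat_lit 288819) (.g (nat_lit 1760) (.e (nat_lit 294959) (nat_lit 13) (.e (nat_lit 393271) (nat_lit 23) (.e (nat_lit 425986) (nat_lit 0) (.e (nat_lit 3411) (nat_lit 212) .nil)))) .nil)) 
(.lf (nat_lit 288883) (.g (nat_lit 2211) (.e (nat_lit 294960) (nat_lit 13) (.e (nat_lit 393259) (nat_lit 21) (.e (nat_lit 409645) (nat_lit 18) (.e (nat_lit 303149) (nat_lit 15) (.e (nat_lit 6112) (nat_lit 332) (.e (nat_lit 7936) (nat_lit 103) .nil)))))) (.g (nat_lit 5) .nil .nil)))))) (.nd (nat_lit 4) (.nd (nat_lit 5) (.nd (nat_lit 6) 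
(.lf (nat_lit 288779) (.g (nat_lit 1650) (.e (nat_lit 294959) (nat_lit 13) (.e (nat_lit 393260) (nat_lit 21) (.e (nat_lit 409648) (nat_lit 18) (.e (nat_lit 303115) (nat_lit 1) (.e (nat_lit 164150) (nat_lit 152) .nil))))) .nil)) 
(.lf (nat_lit 288843) (.g (nat_lit 1129) (.e (nat_lit 294960) (nat_lit 13) (.e (nat_lit 393232) (nat_lit 17) (.e (nat_lit 7593) (nat_lit 407) (.e (nat_lit 73732) (nat_lit 0) .nil)))) .nil))) (.nd (nat_lit 6) 
(.lf (nat_lit 288811) (.g (nat_lit 1630) (.e (nat_lit 294959) (nat_lit 13) (.e (nat_lit 393260) (nat_lit 21) (.e (nat_lit 409649) (nat_lit 18) (.e (nat_lit 303149) (nat_lit 15) (.e (nat_lit 6112) (nat_lit 332) .nil))))) .nil)) 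
(.lf (nat_lit 288875) (.g (nat_lit 462) (.e (nat_lit 294960) (nat_lit 13) (.e (nat_lit 393238) (nat_lit 17) (.e (nat_lit 7936) (nat_lit 406) .nil))) .nil)))) (.nd (nat_lit 5) (.nd (nat_lit 6) 
(.lf (nat_lit 288795) (.g (nat_lit 2211) (.e (nat_lit 294959) (nat_lit 13) (.e (nat_lit 393260) (nat_lit 21) (.e (nat_lit 409649) (nat_lit 18) (.e (nat_lit 303111) (nat_lit 0) (.e (nat_lit 2449) (nat_lit 157) .nil))))) .nil)) 
(.lf (nat_lit 288859) (.g (nat_lit 1747) (.e (nat_lit 294960) (nat_lit 13) (.e (nat_lit 393238) (nat_lit 17) (.e (nat_lit 6989) (nat_lit 377) (.e (nat_lit 2779) (nat_lit 178) (.e (nat_lit 294656) (nat_lit 25) (.e (nat_lit 417536) (nat_lit 7) .nil)))))) (.g (nat_lit 4) .nil .nil)))) (.nd (nat_lit 6) 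
(.lf (nat_lit 288827) (.g (nat_lit 1831) (.e (nat_lit 294959) (nat_lit 13) (.e (nat_lit 393283) (nat_lit 24) (.e (nat_lit 434271) (nat_lit 38) (.e (nat_lit 655363) (nat_lit 0) (.e (nat_lit 2828) (nat_lit 182) (.e (nat_lit 417536) (nat_lit 7) .nil)))))) (.g (nat_lit 5) .nil .nil))) 
(.lf (nat_lit 288891) (.g (nat_lit 1124) (.e (nat_lit 294960) (nat_lit 13) (.e (nat_lit 393260) (nat_lit 21) (.e (nat_lit 409616) (nat_lit 10) (.e (nat_lit 7936) (nat_lit 299) .nil)))) .nil)))))) (.nd (nat_lit 3) (.nd (nat_lit 4) (.nd (nat_lit 5) (.nd (nat_lit 6) 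
(.lf (nat_lit 288775) (.g (nat_lit 2084) (.e (nat_lit 294959) (nat_lit 13) (.e (nat_lit 393260) (nat_lit 21) (.e (nat_lit 409648) (nat_lit 18) (.e (nat_lit 303114) (nat_lit 1) (.e (nat_lit 164151) (nat_lit 152) (.e (nat_lit 3) (nat_lit 0) (.e (nat_lit 2791) (nat_lit 179) .nil))))))) (.g (nat_lit 7) .nil .nil))) 
(.lf (nat_lit 288839) (.g (nat_lit 604) (.e (nat_lit 294959) (nat_lit 13) (.e (nat_lit 393298) (nat_lit 27) (.e (nat_lit 491566) (nat_lit 12) .nil))) .nil))) (.nd (nat_lit 6) 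
(.lf (nat_lit 288807) (.g (nat_lit 2389) (.e (nat_lit 294959) (nat_lit 13) (.e (nat_lit 393260) (nat_lit 21) (.e (nat_lit 409649) (nat_lit 18) (.e (nat_lit 303115) (nat_lit 1) (.e (nat_lit 164151) (nat_lit 152) (.e (nat_lit 3) (nat_lit 0) (.e (nat_lit 2791) (nat_lit 179) .nil))))))) (.g (nat_lit 7) .nil .nil))) 
(.lf (nat_lit 288871) (.g (nat_lit 2445) (.e (nat_lit 294960) (nat_lit 13) (.e (nat_lit 393238) (nat_lit 17) (.e (nat_lit 7101) (nat_lit 380) (.e (nat_lit 164368) (nat_lit 247) (.e (nat_lit 8533) (nat_lit 225) (.e (nat_lit 1370) (nat_lit 103) .nil)))))) (.g (nat_lit 6) .nil .nil))))) (.nd (nat_lit 5) (.nd (nat_lit 6) 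
(.lf (nat_lit 288791) (.g (nat_lit 1785) (.e (nat_lit 294959) (nat_lit 13) (.e (nat_lit 393260) (nat_lit 21) (.e (nat_lit 409649) (nat_lit 18) (.e (nat_lit 303107) (nat_lit 0) .nil)))) .nil)) 
(.lf (nat_lit 288855) (.g (nat_lit 1781) (.e (nat_lit 294960) (nat_lit 13) (.e (nat_lit 393238) (nat_lit 17) (.e (nat_lit 6989) (nat_lit 377) (.e (nat_lit 2777) (nat_lit 178) (.e (nat_lit 294656) (nat_lit 15) .nil))))) .nil))) (.nd (nat_lit 6) 
(.lf (nat_lit 288823) (.g (nat_lit 1762) (.e (nat_lit 294959) (nat_lit 13) (.e (nat_lit 393271) (nat_lit 23) (.e (nat_lit 426442) (nat_lit 19) (.e (nat_lit 106556) (nat_lit 15) .nil)))) .nil)) 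
(.lf (nat_lit 288887) (.g (nat_lit 2344) (.e (nat_lit 294960) (nat_lit 13) (.e (nat_lit 393259) (nat_lit 21) (.e (nat_lit 409646) (nat_lit 18) (.e (nat_lit 303147) (nat_lit 15) (.e (nat_lit 6092) (nat_lit 332) (.e (nat_lit 1370) (nat_lit 103) .nil)))))) (.g (nat_lit 4) .nil .nil)))))) (.nd (nat_lit 4) (.nd (nat_lit 5) (.nd (nat_lit 6) 
(.lf (nat_lit 288783) (.g (nat_lit 2294) (.e (nat_lit 294959) (nat_lit 13) (.e (nat_lit 393260) (nat_lit 21) (.e (nat_lit 409648) (nat_lit 18) (.e (nat_lit 303115) (nat_lit 1) (.e (nat_lit 164151) (nat_lit 152) (.e (nat_lit 3) (nat_lit 0) (.e (nat_lit 2791) (nat_lit 179) .nil))))))) (.g (nat_lit 6) .nil .nil))) 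
(.lf (nat_lit 288847) (.g (nat_lit 1666) (.e (nat_lit 294960) (nat_lit 13) (.e (nat_lit 393238) (nat_lit 17) (.e (nat_lit 6989) (nat_lit 377) (.e (nat_lit 2777) (nat_lit 178) (.e (nat_lit 286731) (nat_lit 1) .nil))))) .nil))) (.nd (nat_lit 6) 
(.lf (nat_lit 288815) (.g (nat_lit 2118) (.e (nat_lit 294959) (nat_lit 13) (.e (nat_lit 393260) (nat_lit 21) (.e (nat_lit 409649) (nat_lit 18) (.e (nat_lit 303149) (nat_lit 15) (.e (nat_lit 6120) (nat_lit 332) (.e (nat_lit 1367) (nat_lit 103) .nil)))))) (.g (nat_lit 4) .nil .nil))) 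
(.lf (nat_lit 288879) (.g (nat_lit 2414) (.e (nat_lit 294960) (nat_lit 13) (.e (nat_lit 393259) (nat_lit 21) (.e (nat_lit 409645) (nat_lit 18) (.e (nat_lit 303115) (nat_lit 1) (.e (nat_lit 164175) (nat_lit 153) (.e (nat_lit 8210) (nat_lit 8) .nil)))))) (.g (nat_lit 0) .nil .nil))))) (.nd (nat_lit 5) (.nd (nat_lit 6) 
(.lf (nat_lit 288799) (.g (nat_lit 2013) (.e (nat_lit 294959) (nat_lit 13) (.e (nat_lit 393260) (nat_lit 21) (.e (nat_lit 409649) (nat_lit 18) (.e (nat_lit 303112) (nat_lit 0) (.e (nat_lit 2478) (nat_lit 157) .nil))))) .nil)) 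
(.lf (nat_lit 288863) (.g (nat_lit 1975) (.e (nat_lit 294960) (nat_lit 13) (.e (nat_lit 393238) (nat_lit 17) (.e (nat_lit 6989) (nat_lit 377) (.e (nat_lit 2810) (nat_lit 180) (.e (nat_lit 303149) (nat_lit 15) (.e (nat_lit 6112) (nat_lit 332) (.e (nat_lit 7936) (nat_lit 103) .nil))))))) (.g (nat_lit 6) .nil .nil)))) (.nd (nat_lit 6) 
(.lf (nat_lit 288831) (.g (nat_lit 648) (.e (nat_lit 294959) (nat_lit 13) (.e (nat_lit 393291) (nat_lit 26) (.e (nat_lit 475201) (nat_lit 40) .nil))) .nil)) 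
(.lf (nat_lit 288895) (.g (nat_lit 1629) (.e (nat_lit 294960) (nat_lit 13) (.e (nat_lit 393260) (nat_lit 21) (.e (nat_lit 409616) (nat_lit 10) (.e (nat_lit 5763) (nat_lit 315) .nil)))) .nil)))))))))

noncomputable def tv3652 : DT := (.nd (nat_lit 0) (.nd (nat_lit 1) (.nd (nat_lit 2) (.nd (nat_lit 3) (.nd (nat_lit 4) (.nd (nat_lit 5) 
(.lf (nat_lit 288896) (.g (nat_lit 549) (.e (nat_lit 294960) (nat_lit 13) (.e (nat_lit 393260) (nat_lit 21) (.e (nat_lit 409617) (nat_lit 10) .nil))) .nil)) 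
(.lf (nat_lit 288928) (.g (nat_lit 2441) (.e (nat_lit 294960) (nat_lit 13) (.e (nat_lit 393260) (nat_lit 21) (.e (nat_lit 409643) (nat_lit 18) (.e (nat_lit 303149) (nat_lit 15) (.e (nat_lit 6092) (nat_lit 332) (.e (nat_lit 1370) (nat_lit 103) .nil)))))) (.g (nat_lit 0) .nil .nil)))) (.nd (nat_lit 5) 
(.lf (nat_lit 288912) (.g (nat_lit 1398) (.e (nat_lit 294960) (nat_lit 13) (.e (nat_lit 393260) (nat_lit 21) (.e (nat_lit 409623) (nat_lit 10) (.e (nat_lit 5293) (nat_lit 298) (.e (nat_lit 7936) (nat_lit 30) (.e (nat_lit 417536) (nat_lit 7) .nil)))))) (.g (nat_lit 4) .nil .nil))) 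
(.lf (nat_lit 288944) (.g (nat_lit 3570) (.e (nat_lit 294960) (nat_lit 13) (.e (nat_lit 393260) (nat_lit 21) (.e (nat_lit 409645) (nat_lit 18) (.e (nat_lit 303112) (nat_lit 0) (.e (nat_lit 2478) (nat_lit 157) (.e (nat_lit 6273) (nat_lit 337) (.e (nat_lit 26) (nat_lit 0) (.e (nat_lit 2783) (nat_lit 179) .nil)))))))) (.g (nat_lit 7) .nil .nil))))) (.nd (nat_lit 4) (.nd (nat_lit 5) 
(.lf (nat_lit 288904) (.g (nat_lit 2933) (.e (nat_lit 294960) (nat_lit 13) (.e (nat_lit 393260) (nat_lit 21) (.e (nat_lit 409623) (nat_lit 10) (.e (nat_lit 5259) (nat_lit 298) (.e (nat_lit 20) (nat_lit 0) (.e (nat_lit 6989) (nat_lit 377) (.e (nat_lit 1370) (nat_lit 103) .nil))))))) (.g (nat_lit 0) .nil .nil))) 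
(.lf (nat_lit 288936) (.g (nat_lit 1917) (.e (nat_lit 294960) (nat_lit 13) (.e (nat_lit 393260) (nat_lit 21) (.e (nat_lit 409644) (nat_lit 18) (.e (nat_lit 303115) (nat_lit 1) (.e (nat_lit 164151) (nat_lit 152) (.e (nat_lit 87) (nat_lit 0) (.e (nat_lit 2786) (nat_lit 179) .nil))))))) (.g (nat_lit 4) .nil .nil)))) (.nd (nat_lit 5) 
(.lf (nat_lit 288920) (.g (nat_lit 1030) (.e (nat_lit 294960) (nat_lit 13) (.e (nat_lit 393260) (nat_lit 21) (.e (nat_lit 409640) (nat_lit 17) (.e (nat_lit 294925) (nat_lit 1) .nil)))) .nil)) 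
(.lf (nat_lit 288952) (.g (nat_lit 3722) (.e (nat_lit 294960) (nat_lit 13) (.e (nat_lit 393260) (nat_lit 21) (.e (nat_lit 409645) (nat_lit 18) (.e (nat_lit 303147) (nat_lit 15) (.e (nat_lit 6114) (nat_lit 332) (.e (nat_lit 1370) (nat_lit 103) .nil)))))) (.g (nat_lit 0) .nil .nil)))))) (.nd (nat_lit 3) (.nd (nat_lit 4) (.nd (nat_lit 5) 
(.lf (nat_lit 288900) (.g (nat_lit 1829) (.e (nat_lit 294960) (nat_lit 13) (.e (nat_lit 393260) (nat_lit 21) (.e (nat_lit 409617) (nat_lit 10) (.e (nat_lit 5710) (nat_lit 312) .nil)))) .nil)) 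
(.lf (nat_lit 288932) (.g (nat_lit 1720) (.e (nat_lit 294960) (nat_lit 13) (.e (nat_lit 393260) (nat_lit 21) (.e (nat_lit 409644) (nat_lit 18) (.e (nat_lit 303112) (nat_lit 0) (.e (nat_lit 2478) (nat_lit 157) .nil))))) .nil))) (.nd (nat_lit 5) 
(.lf (nat_lit 288916) (.g (nat_lit 2379) (.e (nat_lit 294960) (nat_lit 13) (.e (nat_lit 393260) (nat_lit 21) (.e (nat_lit 409623) (nat_lit 10) (.e (nat_lit 5664) (nat_lit 312) (.e (nat_lit 75) (nat_lit 0) (.e (nat_lit 6112) (nat_lit 332) (.e (nat_lit 7936) (nat_lit 103) .nil))))))) (.g (nat_lit 6) .nil .nil))) 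
(.lf (nat_lit 288948) (.g (nat_lit 3131) (.e (nat_lit 294960) (nat_lit 13) (.e (nat_lit 393260) (nat_lit 21) (.e (nat_lit 409645) (nat_lit 18) (.e (nat_lit 303115) (nat_lit 1) (.e (nat_lit 164150) (nat_lit 152) (.e (nat_lit 26) (nat_lit 0) (.e (nat_lit 2783) (nat_lit 179) .nil))))))) (.g (nat_lit 6) .nil .nil))))) (.nd (nat_lit 4) (.nd (nat_lit 5) 
(.lf (nat_lit 288908) (.g (nat_lit 892) (.e (nat_lit 294960) (nat_lit 13) (.e (nat_lit 393260) (nat_lit 21) (.e (nat_lit 409623) (nat_lit 10) (.e (nat_lit 5293) (nat_lit 298) .nil)))) .nil)) 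
(.lf (nat_lit 288940) (.g (nat_lit 2471) (.e (nat_lit 294960) (nat_lit 13) (.e (nat_lit 393260) (nat_lit 21) (.e (nat_lit 409644) (nat_lit 18) (.e (nat_lit 303149) (nat_lit 15) (.e (nat_lit 6092) (nat_lit 332) (.e (nat_lit 1370) (nat_lit 103) .nil)))))) (.g (nat_lit 0) .nil .nil)))) (.nd (nat_lit 5) 
(.lf (nat_lit 288924) (.g (nat_lit 1946) (.e (nat_lit 294960) (nat_lit 13) (.e (nat_lit 393260) (nat_lit 21) (.e (nat_lit 409643) (nat_lit 18) (.e (nat_lit 303115) (nat_lit 1) (.e (nat_lit 164148) (nat_lit 152) (.e (nat_lit 26) (nat_lit 0) (.e (nat_lit 2783) (nat_lit 179) .nil))))))) (.g (nat_lit 4) .nil .nil))) 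
(.lf (nat_lit 288956) (.g (nat_lit 2482) (.e (nat_lit 294960) (nat_lit 13) (.e (nat_lit 393260) (nat_lit 21) (.e (nat_lit 409645) (nat_lit 18) (.e (nat_lit 303149) (nat_lit 15) (.e (nat_lit 6112) (nat_lit 332) (.e (nat_lit 7936) (nat_lit 103) .nil)))))) (.g (nat_lit 5) .nil .nil))))))) (.nd (nat_lit 2) (.nd (nat_lit 3) (.nd (nat_lit 4) (.nd (nat_lit 5) 
(.lf (nat_lit 288898) (.g (nat_lit 1416) (.e (nat_lit 294960) (nat_lit 13) (.e (nat_lit 393260) (nat_lit 21) (.e (nat_lit 409617) (nat_lit 10) (.e (nat_lit 7936) (nat_lit 299) .nil)))) .nil)) 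
(.lf (nat_lit 288930) (.g (nat_lit 1988) (.e (nat_lit 294960) (nat_lit 13) (.e (nat_lit 393260) (nat_lit 21) (.e (nat_lit 409643) (nat_lit 18) (.e (nat_lit 303149) (nat_lit 15) (.e (nat_lit 6112) (nat_lit 332) (.e (nat_lit 7936) (nat_lit 103) .nil)))))) (.g (nat_lit 5) .nil .nil)))) (.nd (nat_lit 5) 
(.lf (nat_lit 288914) (.g (nat_lit 1414) (.e (nat_lit 294960) (nat_lit 13) (.e (nat_lit 393260) (nat_lit 21) (.e (nat_lit 409623) (nat_lit 10) (.e (nat_lit 5629) (nat_lit 312) (.e (nat_lit 222) (nat_lit 20) .nil))))) .nil)) 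
(.lf (nat_lit 288946) (.g (nat_lit 1893) (.e (nat_lit 294960) (nat_lit 13) (.e (nat_lit 393260) (nat_lit 21) (.e (nat_lit 409645) (nat_lit 18) (.e (nat_lit 303115) (nat_lit 1) (.e (nat_lit 164148) (nat_lit 152) .nil))))) .nil)))) (.nd (nat_lit 4) (.nd (nat_lit 5) 
(.lf (nat_lit 288906) (.g (nat_lit 1870) (.e (nat_lit 294960) (nat_lit 13) (.e (nat_lit 393260) (nat_lit 21) (.e (nat_lit 409623) (nat_lit 10) (.e (nat_lit 5259) (nat_lit 298) (.e (nat_lit 367) (nat_lit 31) (.e (nat_lit 417812) (nat_lit 7) .nil)))))) (.g (nat_lit 4) .nil .nil))) 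
(.lf (nat_lit 288938) (.g (nat_lit 3025) (.e (nat_lit 294960) (nat_lit 13) (.e (nat_lit 393260) (nat_lit 21) (.e (nat_lit 409644) (nat_lit 18) (.e (nat_lit 303147) (nat_lit 15) (.e (nat_lit 6092) (nat_lit 332) (.e (nat_lit 1370) (nat_lit 103) .nil)))))) (.g (nat_lit 6) .nil .nil)))) (.nd (nat_lit 5) 
(.lf (nat_lit 288922) (.g (nat_lit 415) (.e (nat_lit 294960) (nat_lit 13) (.e (nat_lit 393260) (nat_lit 21) (.e (nat_lit 409643) (nat_lit 18) .nil))) .nil)) 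
(.lf (nat_lit 288954) (.g (nat_lit 2946) (.e (nat_lit 294960) (nat_lit 13) (.e (nat_lit 393260) (nat_lit 21) (.e (nat_lit 409645) (nat_lit 18) (.e (nat_lit 303149) (nat_lit 15) (.e (nat_lit 6092) (nat_lit 332) (.e (nat_lit 1370) (nat_lit 103) .nil)))))) (.g (nat_lit 0) .nil .nil)))))) (.nd (nat_lit 3) (.nd (nat_lit 4) (.nd (nat_lit 5) 
(.lf (nat_lit 288902) (.g (nat_lit 391) (.e (nat_lit 294960) (nat_lit 13) (.e (nat_lit 393260) (nat_lit 21) (.e (nat_lit 409623) (nat_lit 10) .nil))) .nil)) 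
(.lf (nat_lit 288934) (.g (nat_lit 1899) (.e (nat_lit 294960) (nat_lit 13) (.e (nat_lit 393260) (nat_lit 21) (.e (nat_lit 409644) (nat_lit 18) (.e (nat_lit 303115) (nat_lit 1) (.e (nat_lit 164148) (nat_lit 152) (.e (nat_lit 26) (nat_lit 0) (.e (nat_lit 2783) (nat_lit 179) .nil))))))) (.g (nat_lit 4) .nil .nil)))) (.nd (nat_lit 5) 
(.lf (nat_lit 288918) (.g (nat_lit 1026) (.e (nat_lit 294960) (nat_lit 13) (.e (nat_lit 393260) (nat_lit 21) (.e (nat_lit 417536) (nat_lit 16) (.e (nat_lit 286731) (nat_lit 1) (.e (nat_lit 57676) (nat_lit 153) (.e (nat_lit 8210) (nat_lit 8) .nil)))))) (.g (nat_lit 4) .nil .nil))) 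
(.lf (nat_lit 288950) (.g (nat_lit 1890) (.e (nat_lit 294960) (nat_lit 13) (.e (nat_lit 393260) (nat_lit 21) (.e (nat_lit 409645) (nat_lit 18) (.e (nat_lit 303115) (nat_lit 1) (.e (nat_lit 164173) (nat_lit 153) .nil))))) .nil)))) (.nd (nat_lit 4) (.nd (nat_lit 5) 
(.lf (nat_lit 288910) (.g (nat_lit 2131) (.e (nat_lit 294960) (nat_lit 13) (.e (nat_lit 393260) (nat_lit 21) (.e (nat_lit 409623) (nat_lit 10) (.e (nat_lit 5293) (nat_lit 298) (.e (nat_lit 7936) (nat_lit 0) (.e (nat_lit 6952) (nat_lit 377) (.e (nat_lit 1367) (nat_lit 103) .nil))))))) (.g (nat_lit 4) .nil .nil))) 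
(.lf (nat_lit 288942) (.g (nat_lit 2013) (.e (nat_lit 294960) (nat_lit 13) (.e (nat_lit 393260) (nat_lit 21) (.e (nat_lit 409644) (nat_lit 18) (.e (nat_lit 303149) (nat_lit 15) (.e (nat_lit 6112) (nat_lit 332) (.e (nat_lit 7936) (nat_lit 103) .nil)))))) (.g (nat_lit 5) .nil .nil)))) (.nd (nat_lit 5) 
(.lf (nat_lit 288926) (.g (nat_lit 1887) (.e (nat_lit 294960) (nat_lit 13) (.e (nat_lit 393260) (nat_lit 21) (.e (nat_lit 409643) (nat_lit 18) (.e (nat_lit 303115) (nat_lit 1) (.e (nat_lit 164151) (nat_lit 152) (.e (nat_lit 87) (nat_lit 0) (.e (nat_lit 2786) (nat_lit 179) .nil))))))) (.g (nat_lit 4) .nil .nil))) 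
(.lf (nat_lit 288958) (.g (nat_lit 2300) (.e (nat_lit 294960) (nat_lit 13) (.e (nat_lit 393260) (nat_lit 21) (.e (nat_lit 409646) (nat_lit 18) (.e (nat_lit 303111) (nat_lit 0) (.e (nat_lit 3459) (nat_lit 216) (.e (nat_lit 688131) (nat_lit 0) (.e (nat_lit 2783) (nat_lit 179) .nil))))))) (.g (nat_lit 5) .nil .nil)))))))) 
(.nd (nat_lit 1) (.nd (nat_lit 2) (.nd (nat_lit 3) (.nd (nat_lit 4) (.nd (nat_lit 5) 
(.lf (nat_lit 288897) (.g (nat_lit 1563) (.e (nat_lit 294960) (nat_lit 13) (.e (nat_lit 393260) (nat_lit 21) (.e (nat_lit 409617) (nat_lit 10) (.e (nat_lit 5355) (nat_lit 298) .nil)))) .nil)) 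
(.lf (nat_lit 288929) (.g (nat_lit 2511) (.e (nat_lit 294960) (nat_lit 13) (.e (nat_lit 393260) (nat_lit 21) (.e (nat_lit 409643) (nat_lit 18) (.e (nat_lit 303149) (nat_lit 15) (.e (nat_lit 6112) (nat_lit 332) (.e (nat_lit 1370) (nat_lit 103) .nil)))))) (.g (nat_lit 0) .nil .nil)))) (.nd (nat_lit 5) 
(.lf (nat_lit 288913) (.g (nat_lit 3728) (.e (nat_lit 294960) (nat_lit 13) (.e (nat_lit 393260) (nat_lit 21) (.e (nat_lit 409623) (nat_lit 10) (.e (nat_lit 5626) (nat_lit 312) (.e (nat_lit 214) (nat_lit 19) (.e (nat_lit 319536) (nat_lit 17) .nil)))))) (.g (nat_lit 6) .nil .nil))) 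
(.lf (nat_lit 288945) (.g (nat_lit 1296) (.e (nat_lit 294960) (nat_lit 13) (.e (nat_lit 393260) (nat_lit 21) (.e (nat_lit 409645) (nat_lit 18) (.e (nat_lit 303114) (nat_lit 1) .nil)))) .nil)))) (.nd (nat_lit 4) (.nd (nat_lit 5) 
(.lf (nat_lit 288905) (.g (nat_lit 1869) (.e (nat_lit 294960) (nat_lit 13) (.e (nat_lit 393260) (nat_lit 21) (.e (nat_lit 409623) (nat_lit 10) (.e (nat_lit 5259) (nat_lit 298) (.e (nat_lit 361) (nat_lit 30) (.e (nat_lit 417536) (nat_lit 7) .nil)))))) (.g (nat_lit 5) .nil .nil))) 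
(.lf (nat_lit 288937) (.g (nat_lit 2210) (.e (nat_lit 294960) (nat_lit 13) (.e (nat_lit 393260) (nat_lit 21) (.e (nat_lit 409644) (nat_lit 18) (.e (nat_lit 303115) (nat_lit 1) (.e (nat_lit 164175) (nat_lit 153) (.e (nat_lit 8210) (nat_lit 8) .nil)))))) (.g (nat_lit 0) .nil .nil)))) (.nd (nat_lit 5) 
(.lf (nat_lit 288921) (.g (nat_lit 1095) (.e (nat_lit 294960) (nat_lit 13) (.e (nat_lit 393260) (nat_lit 21) (.e (nat_lit 409640) (nat_lit 17) (.e (nat_lit 294964) (nat_lit 15) .nil)))) .nil)) 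
(.lf (nat_lit 288953) (.g (nat_lit 1046) (.e (nat_lit 294960) (nat_lit 13) (.e (nat_lit 393260) (nat_lit 21) (.e (nat_lit 409645) (nat_lit 18) (.e (nat_lit 303149) (nat_lit 15) .nil)))) .nil))))) (.nd (nat_lit 3) (.nd (nat_lit 4) (.nd (nat_lit 5) 
(.lf (nat_lit 288901) (.g (nat_lit 1416) (.e (nat_lit 294960) (nat_lit 13) (.e (nat_lit 393260) (nat_lit 21) (.e (nat_lit 409617) (nat_lit 10) (.e (nat_lit 7936) (nat_lit 313) .nil)))) .nil)) 
(.lf (nat_lit 288933) (.g (nat_lit 799) (.e (nat_lit 294960) (nat_lit 13) (.e (nat_lit 393260) (nat_lit 21) (.e (nat_lit 409644) (nat_lit 18) (.e (nat_lit 303115) (nat_lit 1) .nil)))) .nil))) (.nd (nat_lit 5) 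
(.lf (nat_lit 288917) (.g (nat_lit 1720) (.e (nat_lit 294960) (nat_lit 13) (.e (nat_lit 393260) (nat_lit 21) (.e (nat_lit 409623) (nat_lit 10) (.e (nat_lit 5664) (nat_lit 312) (.e (nat_lit 2605) (nat_lit 163) (.e (nat_lit 164151) (nat_lit 152) (.e (nat_lit 26) (nat_lit 0) (.e (nat_lit 2783) (nat_lit 179) .nil)))))))) (.g (nat_lit 4) .nil .nil))) 
(.lf (nat_lit 288949) (.g (nat_lit 2670) (.e (nat_lit 294960) (nat_lit 13) (.e (nat_lit 393260) (nat_lit 21) (.e (nat_lit 409645) (nat_lit 18) (.e (nat_lit 303115) (nat_lit 1) (.e (nat_lit 164151) (nat_lit 152) (.e (nat_lit 87) (nat_lit 0) (.e (nat_lit 2786) (nat_lit 179) .nil))))))) (.g (nat_lit 5) .nil .nil))))) (.nd (nat_lit 4) (.nd (nat_lit 5) 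
(.lf (nat_lit 288909) (.g (nat_lit 2356) (.e (nat_lit 294960) (nat_lit 13) (.e (nat_lit 393260) (nat_lit 21) (.e (nat_lit 409623) (nat_lit 10) (.e (nat_lit 5293) (nat_lit 298) (.e (nat_lit 59) (nat_lit 0) (.e (nat_lit 6988) (nat_lit 377) (.e (nat_lit 7936) (nat_lit 103) .nil))))))) (.g (nat_lit 6) .nil .nil))) 
(.lf (nat_lit 288941) (.g (nat_lit 2538) (.e (nat_lit 294960) (nat_lit 13) (.e (nat_lit 393260) (nat_lit 21) (.e (nat_lit 409644) (nat_lit 18) (.e (nat_lit 303149) (nat_lit 15) (.e (nat_lit 6112) (nat_lit 332) (.e (nat_lit 1370) (nat_lit 103) .nil)))))) (.g (nat_lit 0) .nil .nil)))) (.nd (nat_lit 5) 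
(.lf (nat_lit 288925) (.g (nat_lit 2229) (.e (nat_lit 294960) (nat_lit 13) (.e (nat_lit 393260) (nat_lit 21) (.e (nat_lit 409643) (nat_lit 18) (.e (nat_lit 303115) (nat_lit 1) (.e (nat_lit 164150) (nat_lit 152) (.e (nat_lit 26) (nat_lit 0) (.e (nat_lit 2783) (nat_lit 179) .nil))))))) (.g (nat_lit 5) .nil .nil))) 
(.lf (nat_lit 288957) (.g (nat_lit 1869) (.e (nat_lit 294960) (nat_lit 13) (.e (nat_lit 393260) (nat_lit 21) (.e (nat_lit 409646) (nat_lit 18) (.e (nat_lit 303111) (nat_lit 0) (.e (nat_lit 3459) (nat_lit 216) (.e (nat_lit 688129) (nat_lit 0) (.e (nat_lit 2783) (nat_lit 179) .nil))))))) (.g (nat_lit 4) .nil .nil))))))) (.nd (nat_lit 2) (.nd (nat_lit 3) (.nd (nat_lit 4) (.nd (nat_lit 5) 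
(.lf (nat_lit 288899) (.g (nat_lit 1838) (.e (nat_lit 294960) (nat_lit 13) (.e (nat_lit 393260) (nat_lit 21) (.e (nat_lit 409617) (nat_lit 10) (.e (nat_lit 5665) (nat_lit 312) .nil)))) .nil)) 
(.lf (nat_lit 288931) (.g (nat_lit 382) (.e (nat_lit 294960) (nat_lit 13) (.e (nat_lit 393260) (nat_lit 21) (.e (nat_lit 409644) (nat_lit 18) .nil))) .nil))) (.nd (nat_lit 5) 
(.lf (nat_lit 288915) (.g (nat_lit 910) (.e (nat_lit 294960) (nat_lit 13) (.e (nat_lit 393260) (nat_lit 21) (.e (nat_lit 409623) (nat_lit 10) (.e (nat_lit 5664) (nat_lit 312) .nil)))) .nil)) 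
(.lf (nat_lit 288947) (.g (nat_lit 2863) (.e (nat_lit 294960) (nat_lit 13) (.e (nat_lit 393260) (nat_lit 21) (.e (nat_lit 409645) (nat_lit 18) (.e (nat_lit 303115) (nat_lit 1) (.e (nat_lit 164148) (nat_lit 152) (.e (nat_lit 26) (nat_lit 0) (.e (nat_lit 2783) (nat_lit 179) .nil))))))) (.g (nat_lit 5) .nil .nil))))) (.nd (nat_lit 4) (.nd (nat_lit 5) 
(.lf (nat_lit 288907) (.g (nat_lit 2875) (.e (nat_lit 294960) (nat_lit 13) (.e (nat_lit 393260) (nat_lit 21) (.e (nat_lit 409623) (nat_lit 10) (.e (nat_lit 5270) (nat_lit 298) (.e (nat_lit 359) (nat_lit 30) (.e (nat_lit 417536) (nat_lit 7) .nil)))))) (.g (nat_lit 5) .nil .nil))) 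
(.lf (nat_lit 288939) (.g (nat_lit 3552) (.e (nat_lit 294960) (nat_lit 13) (.e (nat_lit 393260) (nat_lit 21) (.e (nat_lit 409644) (nat_lit 18) (.e (nat_lit 303147) (nat_lit 15) (.e (nat_lit 6114) (nat_lit 332) (.e (nat_lit 1370) (nat_lit 103) .nil)))))) (.g (nat_lit 0) .nil .nil)))) (.nd (nat_lit 5) 
(.lf (nat_lit 288923) (.g (nat_lit 1664) (.e (nat_lit 294960) (nat_lit 13) (.e (nat_lit 393260) (nat_lit 21) (.e (nat_lit 409643) (nat_lit 18) (.e (nat_lit 303112) (nat_lit 0) (.e (nat_lit 2478) (nat_lit 157) .nil))))) .nil)) 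
(.lf (nat_lit 288955) (.g (nat_lit 3005) (.e (nat_lit 294960) (nat_lit 13) (.e (nat_lit 393260) (nat_lit 21) (.e (nat_lit 409645) (nat_lit 18) (.e (nat_lit 303149) (nat_lit 15) (.e (nat_lit 6112) (nat_lit 332) (.e (nat_lit 1370) (nat_lit 103) .nil)))))) (.g (nat_lit 0) .nil .nil)))))) (.nd (nat_lit 3) (.nd (nat_lit 4) (.nd (nat_lit 5) 
(.lf (nat_lit 288903) (.g (nat_lit 876) (.e (nat_lit 294960) (nat_lit 13) (.e (nat_lit 393260) (nat_lit 21) (.e (nat_lit 409623) (nat_lit 10) (.e (nat_lit 5259) (nat_lit 298) .nil)))) .nil)) 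
(.lf (nat_lit 288935) (.g (nat_lit 2260) (.e (nat_lit 294960) (nat_lit 13) (.e (nat_lit 393260) (nat_lit 21) (.e (nat_lit 409644) (nat_lit 18) (.e (nat_lit 303115) (nat_lit 1) (.e (nat_lit 164150) (nat_lit 152) (.e (nat_lit 26) (nat_lit 0) (.e (nat_lit 2783) (nat_lit 179) .nil))))))) (.g (nat_lit 5) .nil .nil)))) (.nd (nat_lit 5) 
(.lf (nat_lit 288919) (.g (nat_lit 1228) (.e (nat_lit 294960) (nat_lit 13) (.e (nat_lit 393260) (nat_lit 21) (.e (nat_lit 417536) (nat_lit 16) (.e (nat_lit 286763) (nat_lit 15) (.e (nat_lit 6988) (nat_lit 377) (.e (nat_lit 7936) (nat_lit 103) .nil)))))) (.g (nat_lit 5) .nil .nil))) 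
(.lf (nat_lit 288951) (.g (nat_lit 2761) (.e (nat_lit 294960) (nat_lit 13) (.e (nat_lit 393260) (nat_lit 21) (.e (nat_lit 409645) (nat_lit 18) (.e (nat_lit 303115) (nat_lit 1) (.e (nat_lit 164175) (nat_lit 153) (.e (nat_lit 8210) (nat_lit 8) .nil)))))) (.g (nat_lit 0) .nil .nil))))) (.nd (nat_lit 4) (.nd (nat_lit 5) 
(.lf (nat_lit 288911) (.g (nat_lit 1962) (.e (nat_lit 294960) (nat_lit 13) (.e (nat_lit 393260) (nat_lit 21) (.e (nat_lit 409623) (nat_lit 10) (.e (nat_lit 5293) (nat_lit 298) (.e (nat_lit 7936) (nat_lit 0) (.e (nat_lit 6975) (nat_lit 377) (.e (nat_lit 1371) (nat_lit 103) .nil))))))) (.g (nat_lit 4) .nil .nil))) 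
(.lf (nat_lit 288943) (.g (nat_lit 2004) (.e (nat_lit 294960) (nat_lit 13) (.e (nat_lit 393260) (nat_lit 21) (.e (nat_lit 409645) (nat_lit 18) (.e (nat_lit 303112) (nat_lit 0) (.e (nat_lit 2478) (nat_lit 157) .nil))))) .nil))) (.nd (nat_lit 5) 
(.lf (nat_lit 288927) (.g (nat_lit 2277) (.e (nat_lit 294960) (nat_lit 13) (.e (nat_lit 393260) (nat_lit 21) (.e (nat_lit 409643) (nat_lit 18) (.e (nat_lit 303115) (nat_lit 1) (.e (nat_lit 164175) (nat_lit 153) (.e (nat_lit 8210) (nat_lit 8) .nil)))))) (.g (nat_lit 0) .nil .nil))) 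
(.lf (nat_lit 288959) (.g (nat_lit 2831) (.e (nat_lit 294960) (nat_lit 13) (.e (nat_lit 393260) (nat_lit 21) (.e (nat_lit 409646) (nat_lit 18) (.e (nat_lit 303112) (nat_lit 0) (.e (nat_lit 2478) (nat_lit 157) (.e (nat_lit 6273) (nat_lit 337) (.e (nat_lit 26) (nat_lit 0) (.e (nat_lit 2783) (nat_lit 179) .nil)))))))) (.g (nat_lit 4) .nil .nil)))))))))

noncomputable def tv3653 : DT := (.nd (nat_lit 0) (.nd (nat_lit 1) (.nd (nat_lit 2) (.nd (nat_lit 3) (.nd (nat_lit 4) (.nd (nat_lit 5) 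
(.lf (nat_lit 288960) (.g (nat_lit 1524) (.e (nat_lit 294960) (nat_lit 13) (.e (nat_lit 393260) (nat_lit 21) (.e (nat_lit 409646) (nat_lit 18) (.e (nat_lit 303114) (nat_lit 1) .nil)))) .nil)) 
(.lf (nat_lit 288992) (.g (nat_lit 2163) (.e (nat_lit 294960) (nat_lit 13) (.e (nat_lit 393260) (nat_lit 21) (.e (nat_lit 409648) (nat_lit 18) (.e (nat_lit 303115) (nat_lit 1) (.e (nat_lit 164148) (nat_lit 152) (.e (nat_lit 26) (nat_lit 0) (.e (nat_lit 2783) (nat_lit 179) .nil))))))) (.g (nat_lit 4) .nil .nil)))) (.nd (nat_lit 5) 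
(.lf (nat_lit 288976) (.g (nat_lit 2036) (.e (nat_lit 294960) (nat_lit 13) (.e (nat_lit 393260) (nat_lit 21) (.e (nat_lit 409647) (nat_lit 18) (.e (nat_lit 303115) (nat_lit 1) (.e (nat_lit 164150) (nat_lit 152) (.e (nat_lit 26) (nat_lit 0) (.e (nat_lit 2783) (nat_lit 179) .nil))))))) (.g (nat_lit 5) .nil .nil))) 
(.lf (nat_lit 289008) (.g (nat_lit 2075) (.e (nat_lit 294960) (nat_lit 13) (.e (nat_lit 393260) (nat_lit 21) (.e (nat_lit 409649) (nat_lit 18) (.e (nat_lit 303112) (nat_lit 0) (.e (nat_lit 2478) (nat_lit 157) .nil))))) .nil)))) (.nd (nat_lit 4) (.nd (nat_lit 5) 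
(.lf (nat_lit 288968) (.g (nat_lit 784) (.e (nat_lit 294960) (nat_lit 13) (.e (nat_lit 393260) (nat_lit 21) (.e (nat_lit 409646) (nat_lit 18) (.e (nat_lit 303149) (nat_lit 15) .nil)))) .nil)) 
(.lf (nat_lit 289000) (.g (nat_lit 2972) (.e (nat_lit 294960) (nat_lit 13) (.e (nat_lit 393260) (nat_lit 21) (.e (nat_lit 409648) (nat_lit 18) (.e (nat_lit 303149) (nat_lit 15) (.e (nat_lit 6092) (nat_lit 332) (.e (nat_lit 1370) (nat_lit 103) .nil)))))) (.g (nat_lit 0) .nil .nil)))) (.nd (nat_lit 5) 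
(.lf (nat_lit 288984) (.g (nat_lit 2418) (.e (nat_lit 294960) (nat_lit 13) (.e (nat_lit 393260) (nat_lit 21) (.e (nat_lit 409648) (nat_lit 18) (.e (nat_lit 303104) (nat_lit 0) (.e (nat_lit 3459) (nat_lit 216) (.e (nat_lit 688131) (nat_lit 0) (.e (nat_lit 2783) (nat_lit 179) .nil))))))) (.g (nat_lit 5) .nil .nil))) 
(.lf (nat_lit 289016) (.g (nat_lit 3829) (.e (nat_lit 294960) (nat_lit 13) (.e (nat_lit 393260) (nat_lit 21) (.e (nat_lit 409649) (nat_lit 18) (.e (nat_lit 303147) (nat_lit 15) (.e (nat_lit 6114) (nat_lit 332) (.e (nat_lit 1370) (nat_lit 103) .nil)))))) (.g (nat_lit 0) .nil .nil)))))) (.nd (nat_lit 3) (.nd (nat_lit 4) (.nd (nat_lit 5) 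
(.lf (nat_lit 288964) (.g (nat_lit 2425) (.e (nat_lit 294960) (nat_lit 13) (.e (nat_lit 393260) (nat_lit 21) (.e (nat_lit 409646) (nat_lit 18) (.e (nat_lit 303115) (nat_lit 1) (.e (nat_lit 164151) (nat_lit 152) (.e (nat_lit 87) (nat_lit 0) (.e (nat_lit 2786) (nat_lit 179) .nil))))))) (.g (nat_lit 4) .nil .nil))) 
(.lf (nat_lit 288996) (.g (nat_lit 1894) (.e (nat_lit 294960) (nat_lit 13) (.e (nat_lit 393260) (nat_lit 21) (.e (nat_lit 409648) (nat_lit 18) (.e (nat_lit 303120) (nat_lit 4) .nil)))) .nil))) (.nd (nat_lit 5) 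
(.lf (nat_lit 288980) (.g (nat_lit 3079) (.e (nat_lit 294960) (nat_lit 13) (.e (nat_lit 393260) (nat_lit 21) (.e (nat_lit 409647) (nat_lit 18) (.e (nat_lit 303147) (nat_lit 15) (.e (nat_lit 6114) (nat_lit 332) (.e (nat_lit 1370) (nat_lit 103) .nil)))))) (.g (nat_lit 6) .nil .nil))) 
(.lf (nat_lit 289012) (.g (nat_lit 2771) (.e (nat_lit 294960) (nat_lit 13) (.e (nat_lit 393260) (nat_lit 21) (.e (nat_lit 409649) (nat_lit 18) (.e (nat_lit 303115) (nat_lit 1) (.e (nat_lit 164151) (nat_lit 152) (.e (nat_lit 26) (nat_lit 0) (.e (nat_lit 2783) (nat_lit 179) .nil))))))) (.g (nat_lit 6) .nil .nil))))) (.nd (nat_lit 4) (.nd (nat_lit 5) 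
(.lf (nat_lit 288972) (.g (nat_lit 796) (.e (nat_lit 294960) (nat_lit 13) (.e (nat_lit 393260) (nat_lit 21) (.e (nat_lit 409646) (nat_lit 18) (.e (nat_lit 311040) (nat_lit 15) .nil)))) .nil)) 
(.lf (nat_lit 289004) (.g (nat_lit 1560) (.e (nat_lit 294960) (nat_lit 13) (.e (nat_lit 393260) (nat_lit 21) (.e (nat_lit 409649) (nat_lit 18) (.e (nat_lit 303111) (nat_lit 0) .nil)))) .nil))) (.nd (nat_lit 5) 
(.lf (nat_lit 288988) (.g (nat_lit 1835) (.e (nat_lit 294960) (nat_lit 13) (.e (nat_lit 393260) (nat_lit 21) (.e (nat_lit 409648) (nat_lit 18) (.e (nat_lit 303111) (nat_lit 0) .nil)))) .nil)) 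
(.lf (nat_lit 289020) (.g (nat_lit 2466) (.e (nat_lit 294960) (nat_lit 13) (.e (nat_lit 393260) (nat_lit 21) (.e (nat_lit 409649) (nat_lit 18) (.e (nat_lit 303149) (nat_lit 15) (.e (nat_lit 6112) (nat_lit 332) (.e (nat_lit 7936) (nat_lit 103) .nil)))))) (.g (nat_lit 5) .nil .nil))))))) (.nd (nat_lit 2) (.nd (nat_lit 3) (.nd (nat_lit 4) (.nd (nat_lit 5) 
(.lf (nat_lit 288962) (.g (nat_lit 2786) (.e (nat_lit 294960) (nat_lit 13) (.e (nat_lit 393260) (nat_lit 21) (.e (nat_lit 409646) (nat_lit 18) (.e (nat_lit 303115) (nat_lit 1) (.e (nat_lit 164150) (nat_lit 152) (.e (nat_lit 26) (nat_lit 0) (.e (nat_lit 2783) (nat_lit 179) .nil))))))) (.g (nat_lit 5) .nil .nil))) 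
(.lf (nat_lit 288994) (.g (nat_lit 2280) (.e (nat_lit 294960) (nat_lit 13) (.e (nat_lit 393260) (nat_lit 21) (.e (nat_lit 409648) (nat_lit 18) (.e (nat_lit 303115) (nat_lit 1) (.e (nat_lit 164151) (nat_lit 152) (.e (nat_lit 87) (nat_lit 0) (.e (nat_lit 2786) (nat_lit 179) .nil))))))) (.g (nat_lit 4) .nil .nil)))) (.nd (nat_lit 5) 
(.lf (nat_lit 288978) (.g (nat_lit 1608) (.e (nat_lit 294960) (nat_lit 13) (.e (nat_lit 393260) (nat_lit 21) (.e (nat_lit 409647) (nat_lit 18) (.e (nat_lit 303115) (nat_lit 1) (.e (nat_lit 164151) (nat_lit 152) (.e (nat_lit 87) (nat_lit 0) (.e (nat_lit 2786) (nat_lit 179) .nil))))))) (.g (nat_lit 4) .nil .nil))) 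
(.lf (nat_lit 289010) (.g (nat_lit 2268) (.e (nat_lit 294960) (nat_lit 13) (.e (nat_lit 393260) (nat_lit 21) (.e (nat_lit 409649) (nat_lit 18) (.e (nat_lit 303115) (nat_lit 1) (.e (nat_lit 164148) (nat_lit 152) (.e (nat_lit 26) (nat_lit 0) (.e (nat_lit 2783) (nat_lit 179) .nil))))))) (.g (nat_lit 4) .nil .nil))))) (.nd (nat_lit 4) (.nd (nat_lit 5) 
(.lf (nat_lit 288970) (.g (nat_lit 2627) (.e (nat_lit 294960) (nat_lit 13) (.e (nat_lit 393260) (nat_lit 21) (.e (nat_lit 409646) (nat_lit 18) (.e (nat_lit 303149) (nat_lit 15) (.e (nat_lit 6112) (nat_lit 332) (.e (nat_lit 1370) (nat_lit 103) .nil)))))) (.g (nat_lit 0) .nil .nil))) 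
(.lf (nat_lit 289002) (.g (nat_lit 2526) (.e (nat_lit 294960) (nat_lit 13) (.e (nat_lit 393260) (nat_lit 21) (.e (nat_lit 409648) (nat_lit 18) (.e (nat_lit 303149) (nat_lit 15) (.e (nat_lit 6112) (nat_lit 332) (.e (nat_lit 7936) (nat_lit 103) .nil)))))) (.g (nat_lit 5) .nil .nil)))) (.nd (nat_lit 5) 
(.lf (nat_lit 288986) (.g (nat_lit 1484) (.e (nat_lit 294960) (nat_lit 13) (.e (nat_lit 393260) (nat_lit 21) (.e (nat_lit 409648) (nat_lit 18) (.e (nat_lit 303108) (nat_lit 0) .nil)))) .nil)) 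
(.lf (nat_lit 289018) (.g (nat_lit 2927) (.e (nat_lit 294960) (nat_lit 13) (.e (nat_lit 393260) (nat_lit 21) (.e (nat_lit 409649) (nat_lit 18) (.e (nat_lit 303149) (nat_lit 15) (.e (nat_lit 6092) (nat_lit 332) (.e (nat_lit 1370) (nat_lit 103) .nil)))))) (.g (nat_lit 0) .nil .nil)))))) (.nd (nat_lit 3) (.nd (nat_lit 4) (.nd (nat_lit 5) 
(.lf (nat_lit 288966) (.g (nat_lit 2874) (.e (nat_lit 294960) (nat_lit 13) (.e (nat_lit 393260) (nat_lit 21) (.e (nat_lit 409646) (nat_lit 18) (.e (nat_lit 303147) (nat_lit 15) (.e (nat_lit 6092) (nat_lit 332) (.e (nat_lit 1370) (nat_lit 103) .nil)))))) (.g (nat_lit 0) .nil .nil))) 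
(.lf (nat_lit 288998) (.g (nat_lit 4112) (.e (nat_lit 294960) (nat_lit 13) (.e (nat_lit 393260) (nat_lit 21) (.e (nat_lit 409648) (nat_lit 18) (.e (nat_lit 303147) (nat_lit 15) (.e (nat_lit 6114) (nat_lit 332) (.e (nat_lit 1370) (nat_lit 103) .nil)))))) (.g (nat_lit 0) .nil .nil)))) (.nd (nat_lit 5) 
(.lf (nat_lit 288982) (.g (nat_lit 2497) (.e (nat_lit 294960) (nat_lit 13) (.e (nat_lit 393260) (nat_lit 21) (.e (nat_lit 409647) (nat_lit 18) (.e (nat_lit 303149) (nat_lit 15) (.e (nat_lit 6112) (nat_lit 332) (.e (nat_lit 1370) (nat_lit 103) .nil)))))) (.g (nat_lit 0) .nil .nil))) 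
(.lf (nat_lit 289014) (.g (nat_lit 2525) (.e (nat_lit 294960) (nat_lit 13) (.e (nat_lit 393260) (nat_lit 21) (.e (nat_lit 409649) (nat_lit 18) (.e (nat_lit 303115) (nat_lit 1) (.e (nat_lit 164175) (nat_lit 153) (.e (nat_lit 8210) (nat_lit 8) .nil)))))) (.g (nat_lit 0) .nil .nil))))) (.nd (nat_lit 4) (.nd (nat_lit 5) 
(.lf (nat_lit 288974) (.g (nat_lit 854) (.e (nat_lit 294960) (nat_lit 13) (.e (nat_lit 393260) (nat_lit 21) (.e (nat_lit 409647) (nat_lit 18) (.e (nat_lit 303115) (nat_lit 1) .nil)))) .nil)) 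
(.lf (nat_lit 289006) (.g (nat_lit 3428) (.e (nat_lit 294960) (nat_lit 13) (.e (nat_lit 393260) (nat_lit 21) (.e (nat_lit 409649) (nat_lit 18) (.e (nat_lit 303111) (nat_lit 0) (.e (nat_lit 3459) (nat_lit 216) (.e (nat_lit 688131) (nat_lit 0) (.e (nat_lit 2783) (nat_lit 179) .nil))))))) (.g (nat_lit 5) .nil .nil)))) (.nd (nat_lit 5) 
(.lf (nat_lit 288990) (.g (nat_lit 2185) (.e (nat_lit 294960) (nat_lit 13) (.e (nat_lit 393260) (nat_lit 21) (.e (nat_lit 409648) (nat_lit 18) (.e (nat_lit 303114) (nat_lit 1) (.e (nat_lit 164175) (nat_lit 153) (.e (nat_lit 8210) (nat_lit 8) .nil)))))) (.g (nat_lit 0) .nil .nil))) 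
(.lf (nat_lit 289022) (.g (nat_lit 1263) (.e (nat_lit 294960) (nat_lit 13) (.e (nat_lit 393260) (nat_lit 21) (.e (nat_lit 417536) (nat_lit 18) (.e (nat_lit 303149) (nat_lit 15) (.e (nat_lit 6112) (nat_lit 332) (.e (nat_lit 7936) (nat_lit 103) .nil)))))) (.g (nat_lit 5) .nil .nil)))))))) (.nd (nat_lit 1) (.nd (nat_lit 2) (.nd (nat_lit 3) (.nd (nat_lit 4) (.nd (nat_lit 5) 
(.lf (nat_lit 288961) (.g (nat_lit 2584) (.e (nat_lit 294960) (nat_lit 13) (.e (nat_lit 393260) (nat_lit 21) (.e (nat_lit 409646) (nat_lit 18) (.e (nat_lit 303115) (nat_lit 1) (.e (nat_lit 164148) (nat_lit 152) (.e (nat_lit 26) (nat_lit 0) (.e (nat_lit 2783) (nat_lit 179) .nil))))))) (.g (nat_lit 5) .nil .nil))) 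
(.lf (nat_lit 288993) (.g (nat_lit 2539) (.e (nat_lit 294960) (nat_lit 13) (.e (nat_lit 393260) (nat_lit 21) (.e (nat_lit 409648) (nat_lit 18) (.e (nat_lit 303115) (nat_lit 1) (.e (nat_lit 164150) (nat_lit 152) (.e (nat_lit 26) (nat_lit 0) (.e (nat_lit 2783) (nat_lit 179) .nil))))))) (.g (nat_lit 5) .nil .nil)))) (.nd (nat_lit 5) 
(.lf (nat_lit 288977) (.g (nat_lit 2240) (.e (nat_lit 294960) (nat_lit 13) (.e (nat_lit 393260) (nat_lit 21) (.e (nat_lit 409647) (nat_lit 18) (.e (nat_lit 303115) (nat_lit 1) (.e (nat_lit 164151) (nat_lit 152) (.e (nat_lit 26) (nat_lit 0) (.e (nat_lit 2783) (nat_lit 179) .nil))))))) (.g (nat_lit 5) .nil .nil))) 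
(.lf (nat_lit 289009) (.g (nat_lit 1050) (.e (nat_lit 294960) (nat_lit 13) (.e (nat_lit 393260) (nat_lit 21) (.e (nat_lit 409649) (nat_lit 18) (.e (nat_lit 303115) (nat_lit 1) .nil)))) .nil)))) (.nd (nat_lit 4) (.nd (nat_lit 5) 
(.lf (nat_lit 288969) (.g (nat_lit 2557) (.e (nat_lit 294960) (nat_lit 13) (.e (nat_lit 393260) (nat_lit 21) (.e (nat_lit 409646) (nat_lit 18) (.e (nat_lit 303149) (nat_lit 15) (.e (nat_lit 6092) (nat_lit 332) (.e (nat_lit 1370) (nat_lit 103) .nil)))))) (.g (nat_lit 0) .nil .nil))) 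
(.lf (nat_lit 289001) (.g (nat_lit 3051) (.e (nat_lit 294960) (nat_lit 13) (.e (nat_lit 393260) (nat_lit 21) (.e (nat_lit 409648) (nat_lit 18) (.e (nat_lit 303149) (nat_lit 15) (.e (nat_lit 6112) (nat_lit 332) (.e (nat_lit 1370) (nat_lit 103) .nil)))))) (.g (nat_lit 0) .nil .nil)))) (.nd (nat_lit 5) 
(.lf (nat_lit 288985) (.g (nat_lit 2730) (.e (nat_lit 294960) (nat_lit 13) (.e (nat_lit 393260) (nat_lit 21) (.e (nat_lit 409648) (nat_lit 18) (.e (nat_lit 303107) (nat_lit 0) (.e (nat_lit 3459) (nat_lit 216) (.e (nat_lit 688131) (nat_lit 0) (.e (nat_lit 2783) (nat_lit 179) .nil))))))) (.g (nat_lit 5) .nil .nil))) 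
(.lf (nat_lit 289017) (.g (nat_lit 1180) (.e (nat_lit 294960) (nat_lit 13) (.e (nat_lit 393260) (nat_lit 21) (.e (nat_lit 409649) (nat_lit 18) (.e (nat_lit 303149) (nat_lit 15) .nil)))) .nil))))) (.nd (nat_lit 3) (.nd (nat_lit 4) (.nd (nat_lit 5) 
(.lf (nat_lit 288965) (.g (nat_lit 2526) (.e (nat_lit 294960) (nat_lit 13) (.e (nat_lit 393260) (nat_lit 21) (.e (nat_lit 409646) (nat_lit 18) (.e (nat_lit 303115) (nat_lit 1) (.e (nat_lit 164175) (nat_lit 153) (.e (nat_lit 8210) (nat_lit 8) .nil)))))) (.g (nat_lit 0) .nil .nil))) 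
(.lf (nat_lit 288997) (.g (nat_lit 3616) (.e (nat_lit 294960) (nat_lit 13) (.e (nat_lit 393260) (nat_lit 21) (.e (nat_lit 409648) (nat_lit 18) (.e (nat_lit 303147) (nat_lit 15) (.e (nat_lit 6092) (nat_lit 332) (.e (nat_lit 1370) (nat_lit 103) .nil)))))) (.g (nat_lit 0) .nil .nil)))) (.nd (nat_lit 5) 
(.lf (nat_lit 288981) (.g (nat_lit 2438) (.e (nat_lit 294960) (nat_lit 13) (.e (nat_lit 393260) (nat_lit 21) (.e (nat_lit 409647) (nat_lit 18) (.e (nat_lit 303149) (nat_lit 15) (.e (nat_lit 6092) (nat_lit 332) (.e (nat_lit 1370) (nat_lit 103) .nil)))))) (.g (nat_lit 0) .nil .nil))) 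
(.lf (nat_lit 289013) (.g (nat_lit 2359) (.e (nat_lit 294960) (nat_lit 13) (.e (nat_lit 393260) (nat_lit 21) (.e (nat_lit 409649) (nat_lit 18) (.e (nat_lit 303115) (nat_lit 1) (.e (nat_lit 164151) (nat_lit 152) (.e (nat_lit 87) (nat_lit 0) (.e (nat_lit 2786) (nat_lit 179) .nil))))))) (.g (nat_lit 4) .nil .nil))))) (.nd (nat_lit 4) (.nd (nat_lit 5) 
(.lf (nat_lit 288973) (.g (nat_lit 988) (.e (nat_lit 294960) (nat_lit 13) (.e (nat_lit 393260) (nat_lit 21) (.e (nat_lit 409647) (nat_lit 18) (.e (nat_lit 303114) (nat_lit 1) .nil)))) .nil)) 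
(.lf (nat_lit 289005) (.g (nat_lit 2998) (.e (nat_lit 294960) (nat_lit 13) (.e (nat_lit 393260) (nat_lit 21) (.e (nat_lit 409649) (nat_lit 18) (.e (nat_lit 303111) (nat_lit 0) (.e (nat_lit 3459) (nat_lit 216) (.e (nat_lit 688129) (nat_lit 0) (.e (nat_lit 2783) (nat_lit 179) .nil))))))) (.g (nat_lit 4) .nil .nil)))) (.nd (nat_lit 5) 
(.lf (nat_lit 288989) (.g (nat_lit 1179) (.e (nat_lit 294960) (nat_lit 13) (.e (nat_lit 393260) (nat_lit 21) (.e (nat_lit 409648) (nat_lit 18) (.e (nat_lit 303114) (nat_lit 1) .nil)))) .nil)) 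
(.lf (nat_lit 289021) (.g (nat_lit 2151) (.e (nat_lit 294960) (nat_lit 13) (.e (nat_lit 393260) (nat_lit 21) (.e (nat_lit 409649) (nat_lit 18) (.e (nat_lit 311040) (nat_lit 15) (.e (nat_lit 6114) (nat_lit 332) (.e (nat_lit 1370) (nat_lit 103) .nil)))))) (.g (nat_lit 5) .nil .nil))))))) (.nd (nat_lit 2) (.nd (nat_lit 3) (.nd (nat_lit 4) (.nd (nat_lit 5) 
(.lf (nat_lit 288963) (.g (nat_lit 1613) (.e (nat_lit 294960) (nat_lit 13) (.e (nat_lit 393260) (nat_lit 21) (.e (nat_lit 409646) (nat_lit 18) (.e (nat_lit 303115) (nat_lit 1) (.e (nat_lit 164151) (nat_lit 152) .nil))))) .nil)) 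
(.lf (nat_lit 288995) (.g (nat_lit 2468) (.e (nat_lit 294960) (nat_lit 13) (.e (nat_lit 393260) (nat_lit 21) (.e (nat_lit 409648) (nat_lit 18) (.e (nat_lit 303115) (nat_lit 1) (.e (nat_lit 164175) (nat_lit 153) (.e (nat_lit 8210) (nat_lit 8) .nil)))))) (.g (nat_lit 0) .nil .nil)))) (.nd (nat_lit 5) 
(.lf (nat_lit 288979) (.g (nat_lit 2202) (.e (nat_lit 294960) (nat_lit 13) (.e (nat_lit 393260) (nat_lit 21) (.e (nat_lit 409647) (nat_lit 18) (.e (nat_lit 303115) (nat_lit 1) (.e (nat_lit 164175) (nat_lit 153) (.e (nat_lit 8210) (nat_lit 8) .nil)))))) (.g (nat_lit 0) .nil .nil))) 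
(.lf (nat_lit 289011) (.g (nat_lit 2464) (.e (nat_lit 294960) (nat_lit 13) (.e (nat_lit 393260) (nat_lit 21) (.e (nat_lit 409649) (nat_lit 18) (.e (nat_lit 303115) (nat_lit 1) (.e (nat_lit 164150) (nat_lit 152) (.e (nat_lit 26) (nat_lit 0) (.e (nat_lit 2783) (nat_lit 179) .nil))))))) (.g (nat_lit 5) .nil .nil))))) (.nd (nat_lit 4) (.nd (nat_lit 5) 
(.lf (nat_lit 288971) (.g (nat_lit 2101) (.e (nat_lit 294960) (nat_lit 13) (.e (nat_lit 393260) (nat_lit 21) (.e (nat_lit 409646) (nat_lit 18) (.e (nat_lit 303149) (nat_lit 15) (.e (nat_lit 6112) (nat_lit 332) (.e (nat_lit 7936) (nat_lit 103) .nil)))))) (.g (nat_lit 5) .nil .nil))) 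
(.lf (nat_lit 289003) (.g (nat_lit 813) (.e (nat_lit 294960) (nat_lit 13) (.e (nat_lit 393260) (nat_lit 21) (.e (nat_lit 409648) (nat_lit 18) (.e (nat_lit 311040) (nat_lit 15) .nil)))) .nil))) (.nd (nat_lit 5) 
(.lf (nat_lit 288987) (.g (nat_lit 1614) (.e (nat_lit 294960) (nat_lit 13) (.e (nat_lit 393260) (nat_lit 21) (.e (nat_lit 409648) (nat_lit 18) (.e (nat_lit 303109) (nat_lit 0) .nil)))) .nil)) 
(.lf (nat_lit 289019) (.g (nat_lit 2991) (.e (nat_lit 294960) (nat_lit 13) (.e (nat_lit 393260) (nat_lit 21) (.e (nat_lit 409649) (nat_lit 18) (.e (nat_lit 303149) (nat_lit 15) (.e (nat_lit 6112) (nat_lit 332) (.e (nat_lit 1370) (nat_lit 103) .nil)))))) (.g (nat_lit 0) .nil .nil)))))) (.nd (nat_lit 3) (.nd (nat_lit 4) (.nd (nat_lit 5) 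
(.lf (nat_lit 288967) (.g (nat_lit 3521) (.e (nat_lit 294960) (nat_lit 13) (.e (nat_lit 393260) (nat_lit 21) (.e (nat_lit 409646) (nat_lit 18) (.e (nat_lit 303147) (nat_lit 15) (.e (nat_lit 6114) (nat_lit 332) (.e (nat_lit 1370) (nat_lit 103) .nil)))))) (.g (nat_lit 0) .nil .nil))) 
(.lf (nat_lit 288999) (.g (nat_lit 1247) (.e (nat_lit 294960) (nat_lit 13) (.e (nat_lit 393260) (nat_lit 21) (.e (nat_lit 409648) (nat_lit 18) (.e (nat_lit 303149) (nat_lit 15) .nil)))) .nil))) (.nd (nat_lit 5) 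
(.lf (nat_lit 288983) (.g (nat_lit 1972) (.e (nat_lit 294960) (nat_lit 13) (.e (nat_lit 393260) (nat_lit 21) (.e (nat_lit 409647) (nat_lit 18) (.e (nat_lit 303149) (nat_lit 15) (.e (nat_lit 6112) (nat_lit 332) (.e (nat_lit 7936) (nat_lit 103) .nil)))))) (.g (nat_lit 5) .nil .nil))) 
(.lf (nat_lit 289015) (.g (nat_lit 1900) (.e (nat_lit 294960) (nat_lit 13) (.e (nat_lit 393260) (nat_lit 21) (.e (nat_lit 409649) (nat_lit 18) (.e (nat_lit 303120) (nat_lit 4) .nil)))) .nil)))) (.nd (nat_lit 4) (.nd (nat_lit 5) 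
(.lf (nat_lit 288975) (.g (nat_lit 1663) (.e (nat_lit 294960) (nat_lit 13) (.e (nat_lit 393260) (nat_lit 21) (.e (nat_lit 409647) (nat_lit 18) (.e (nat_lit 303115) (nat_lit 1) (.e (nat_lit 164148) (nat_lit 152) (.e (nat_lit 26) (nat_lit 0) (.e (nat_lit 2783) (nat_lit 179) .nil))))))) (.g (nat_lit 4) .nil .nil))) 
(.lf (nat_lit 289007) (.g (nat_lit 2554) (.e (nat_lit 294960) (nat_lit 13) (.e (nat_lit 393260) (nat_lit 21) (.e (nat_lit 409649) (nat_lit 18) (.e (nat_lit 303111) (nat_lit 0) (.e (nat_lit 3468) (nat_lit 217) (.e (nat_lit 696320) (nat_lit 0) (.e (nat_lit 2783) (nat_lit 179) .nil))))))) (.g (nat_lit 4) .nil .nil)))) (.nd (nat_lit 5) 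
(.lf (nat_lit 288991) (.g (nat_lit 1073) (.e (nat_lit 294960) (nat_lit 13) (.e (nat_lit 393260) (nat_lit 21) (.e (nat_lit 409648) (nat_lit 18) (.e (nat_lit 303115) (nat_lit 1) .nil)))) .nil)) 
(.lf (nat_lit 289023) (.g (nat_lit 2892) (.e (nat_lit 294960) (nat_lit 13) (.e (nat_lit 393260) (nat_lit 21) (.e (nat_lit 409650) (nat_lit 19) (.e (nat_lit 311348) (nat_lit 15) (.e (nat_lit 6114) (nat_lit 332) (.e (nat_lit 1370) (nat_lit 103) .nil)))))) (.g (nat_lit 5) .nil .nil)))))))))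

noncomputable def tv3654 : DT := (.nd (nat_lit 0) (.nd (nat_lit 1) (.nd (nat_lit 2) (.nd (nat_lit 3) (.nd (nat_lit 4) (.nd (nat_lit 5) (.nd (nat_lit 6) 
(.lf (nat_lit 289024) (.g (nat_lit 573) (.e (nat_lit 294960) (nat_lit 13) (.e (nat_lit 393260) (nat_lit 21) (.e (nat_lit 409651) (nat_lit 19) .nil))) .nil)) 
(.lf (nat_lit 289088) (.g (nat_lit 535) (.e (nat_lit 302848) (nat_lit 21) (.e (nat_lit 229524) (nat_lit 128) (.e (nat_lit 1220) (nat_lit 90) (.e (nat_lit 81956) (nat_lit 23) .nil)))) .nil))) (.nd (nat_lit 6) 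
(.lf (nat_lit 289056) (.g (nat_lit 992) (.e (nat_lit 294960) (nat_lit 13) (.e (nat_lit 393298) (nat_lit 27) (.e (nat_lit 491552) (nat_lit 9) .nil))) .nil)) 
(.lf (nat_lit 289120) (.g (nat_lit 739) (.e (nat_lit 294973) (nat_lit 28) (.e (nat_lit 434180) (nat_lit 0) (.e (nat_lit 1425) (nat_lit 108) (.e (nat_lit 336421) (nat_lit 28) (.e (nat_lit 434188) (nat_lit 13) .nil))))) .nil)))) (.nd (nat_lit 5) (.nd (nat_lit 6) 
(.lf (nat_lit 289040) (.g (nat_lit 1220) (.e (nat_lit 294960) (nat_lit 13) (.e (nat_lit 393283) (nat_lit 24) (.e (nat_lit 434203) (nat_lit 18) (.e (nat_lit 5814) (nat_lit 320) .nil)))) .nil)) 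
(.lf (nat_lit 289104) (.g (nat_lit 2188) (.e (nat_lit 294969) (nat_lit 27) (.e (nat_lit 426340) (nat_lit 14) (.e (nat_lit 491570) (nat_lit 13) (.e (nat_lit 393259) (nat_lit 21) (.e (nat_lit 409642) (nat_lit 17) .nil))))) (.g (nat_lit 0) .nil .nil)))) (.nd (nat_lit 6) 
(.lf (nat_lit 289072) (.g (nat_lit 1236) (.e (nat_lit 294960) (nat_lit 13) (.e (nat_lit 393299) (nat_lit 27) (.e (nat_lit 491563) (nat_lit 12) (.e (nat_lit 392960) (nat_lit 16) .nil)))) .nil)) 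
(.lf (nat_lit 289136) (.g (nat_lit 2366) (.e (nat_lit 294973) (nat_lit 28) (.e (nat_lit 434180) (nat_lit 0) (.e (nat_lit 1661) (nat_lit 115) (.e (nat_lit 393259) (nat_lit 21) (.e (nat_lit 409642) (nat_lit 17) .nil))))) (.g (nat_lit 0) .nil .nil)))))) (.nd (nat_lit 4) (.nd (nat_lit 5) (.nd (nat_lit 6) 
(.lf (nat_lit 289032) (.g (nat_lit 1650) (.e (nat_lit 294960) (nat_lit 13) (.e (nat_lit 393281) (nat_lit 23) (.e (nat_lit 426098) (nat_lit 1) (.e (nat_lit 164399) (nat_lit 256) .nil)))) .nil)) 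
(.lf (nat_lit 289096) (.g (nat_lit 426) (.e (nat_lit 294968) (nat_lit 27) (.e (nat_lit 426341) (nat_lit 14) (.e (nat_lit 491571) (nat_lit 13) .nil))) .nil))) (.nd (nat_lit 6) 
(.lf (nat_lit 289064) (.g (nat_lit 1690) (.e (nat_lit 294960) (nat_lit 13) (.e (nat_lit 393299) (nat_lit 27) (.e (nat_lit 491560) (nat_lit 10) (.e (nat_lit 344097) (nat_lit 18) .nil)))) .nil)) 
(.lf (nat_lit 289128) (.g (nat_lit 1658) (.e (nat_lit 294973) (nat_lit 28) (.e (nat_lit 434180) (nat_lit 0) (.e (nat_lit 1660) (nat_lit 115) (.e (nat_lit 393259) (nat_lit 21) (.e (nat_lit 409642) (nat_lit 17) .nil))))) (.g (nat_lit 5) .nil .nil))))) (.nd (nat_lit 5) (.nd (nat_lit 6) 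
(.lf (nat_lit 289048) (.g (nat_lit 1926) (.e (nat_lit 294960) (nat_lit 13) (.e (nat_lit 393283) (nat_lit 24) (.e (nat_lit 434281) (nat_lit 40) (.e (nat_lit 671759) (nat_lit 3) (.e (nat_lit 57712) (nat_lit 176) (.e (nat_lit 1370) (nat_lit 103) .nil)))))) (.g (nat_lit 6) .nil .nil))) 
(.lf (nat_lit 289112) (.g (nat_lit 742) (.e (nat_lit 294972) (nat_lit 27) (.e (nat_lit 426343) (nat_lit 14) (.e (nat_lit 491568) (nat_lit 13) .nil))) .nil))) (.nd (nat_lit 6) 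
(.lf (nat_lit 289080) (.g (nat_lit 835) (.e (nat_lit 294961) (nat_lit 14) (.e (nat_lit 401459) (nat_lit 13) (.e (nat_lit 483403) (nat_lit 26) .nil))) .nil)) 
(.lf (nat_lit 289144) (.g (nat_lit 1832) (.e (nat_lit 294973) (nat_lit 28) (.e (nat_lit 434181) (nat_lit 0) (.e (nat_lit 1661) (nat_lit 115) (.e (nat_lit 393238) (nat_lit 17) (.e (nat_lit 7018) (nat_lit 377) (.e (nat_lit 2789) (nat_lit 179) .nil)))))) (.g (nat_lit 4) .nil .nil))))))) (.nd (nat_lit 3) (.nd (nat_lit 4) (.nd (nat_lit 5) (.nd (nat_lit 6) 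
(.lf (nat_lit 289028) (.g (nat_lit 1102) (.e (nat_lit 294960) (nat_lit 13) (.e (nat_lit 393271) (nat_lit 23) (.e (nat_lit 425986) (nat_lit 0) .nil))) .nil)) 
(.lf (nat_lit 289092) (.g (nat_lit 793) (.e (nat_lit 302848) (nat_lit 25) (.e (nat_lit 409603) (nat_lit 0) (.e (nat_lit 5293) (nat_lit 298) (.e (nat_lit 1423) (nat_lit 108) .nil)))) .nil))) (.nd (nat_lit 6) 
(.lf (nat_lit 289060) (.g (nat_lit 276) (.e (nat_lit 294960) (nat_lit 13) (.e (nat_lit 393299) (nat_lit 27) (.e (nat_lit 491560) (nat_lit 10) .nil))) .nil)) 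
(.lf (nat_lit 289124) (.g (nat_lit 1181) (.e (nat_lit 294973) (nat_lit 28) (.e (nat_lit 434180) (nat_lit 0) (.e (nat_lit 1426) (nat_lit 108) (.e (nat_lit 336421) (nat_lit 28) (.e (nat_lit 434189) (nat_lit 13) (.e (nat_lit 2788) (nat_lit 179) .nil)))))) (.g (nat_lit 0) .nil .nil))))) (.nd (nat_lit 5) (.nd (nat_lit 6) 
(.lf (nat_lit 289044) (.g (nat_lit 1198) (.e (nat_lit 294960) (nat_lit 13) (.e (nat_lit 393283) (nat_lit 24) (.e (nat_lit 434271) (nat_lit 38) (.e (nat_lit 655363) (nat_lit 0) (.e (nat_lit 2828) (nat_lit 182) .nil))))) .nil)) 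
(.lf (nat_lit 289108) (.g (nat_lit 583) (.e (nat_lit 294969) (nat_lit 27) (.e (nat_lit 426528) (nat_lit 27) (.e (nat_lit 336232) (nat_lit 14) (.e (nat_lit 409344) (nat_lit 18) .nil)))) .nil))) (.nd (nat_lit 6) 
(.lf (nat_lit 289076) (.g (nat_lit 2092) (.e (nat_lit 294961) (nat_lit 14) (.e (nat_lit 401454) (nat_lit 12) (.e (nat_lit 475193) (nat_lit 38) (.e (nat_lit 688177) (nat_lit 16) (.e (nat_lit 65586) (nat_lit 7) .nil))))) .nil)) 
(.lf (nat_lit 289140) (.g (nat_lit 1132) (.e (nat_lit 294973) (nat_lit 28) (.e (nat_lit 434181) (nat_lit 0) (.e (nat_lit 1428) (nat_lit 108) (.e (nat_lit 336425) (nat_lit 28) .nil)))) .nil))))) (.nd (nat_lit 4) (.nd (nat_lit 5) (.nd (nat_lit 6) 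
(.lf (nat_lit 289036) (.g (nat_lit 1461) (.e (nat_lit 294960) (nat_lit 13) (.e (nat_lit 393282) (nat_lit 24) (.e (nat_lit 434209) (nat_lit 18) (.e (nat_lit 5819) (nat_lit 320) (.e (nat_lit 1183) (nat_lit 87) .nil))))) .nil)) 
(.lf (nat_lit 289100) (.g (nat_lit 584) (.e (nat_lit 294968) (nat_lit 27) (.e (nat_lit 426344) (nat_lit 14) (.e (nat_lit 491568) (nat_lit 13) .nil))) .nil))) (.nd (nat_lit 6) 
(.lf (nat_lit 289068) (.g (nat_lit 1767) (.e (nat_lit 294960) (nat_lit 13) (.e (nat_lit 393299) (nat_lit 27) (.e (nat_lit 491560) (nat_lit 10) (.e (nat_lit 344174) (nat_lit 42) .nil)))) .nil)) 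
(.lf (nat_lit 289132) (.g (nat_lit 1867) (.e (nat_lit 294973) (nat_lit 28) (.e (nat_lit 434180) (nat_lit 0) (.e (nat_lit 1661) (nat_lit 115) (.e (nat_lit 393238) (nat_lit 17) (.e (nat_lit 7011) (nat_lit 377) .nil))))) .nil)))) (.nd (nat_lit 5) (.nd (nat_lit 6) 
(.lf (nat_lit 289052) (.g (nat_lit 1272) (.e (nat_lit 294960) (nat_lit 13) (.e (nat_lit 393291) (nat_lit 26) (.e (nat_lit 475201) (nat_lit 40) (.e (nat_lit 704841) (nat_lit 15) .nil)))) .nil)) 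
(.lf (nat_lit 289116) (.g (nat_lit 2310) (.e (nat_lit 294972) (nat_lit 27) (.e (nat_lit 426344) (nat_lit 14) (.e (nat_lit 491568) (nat_lit 13) (.e (nat_lit 393260) (nat_lit 21) (.e (nat_lit 409640) (nat_lit 17) .nil))))) .nil))) (.nd (nat_lit 6) 
(.lf (nat_lit 289084) (.g (nat_lit 2535) (.e (nat_lit 294966) (nat_lit 15) (.e (nat_lit 3307) (nat_lit 202) (.e (nat_lit 573484) (nat_lit 13) (.e (nat_lit 65617) (nat_lit 10) .nil)))) .nil)) 
(.lf (nat_lit 289148) (.g (nat_lit 540) (.e (nat_lit 294973) (nat_lit 28) (.e (nat_lit 434208) (nat_lit 18) (.e (nat_lit 4416) (nat_lit 260) .nil))) .nil))))))) (.nd (nat_lit 2) (.nd (nat_lit 3) (.nd (nat_lit 4) (.nd (nat_lit 5) (.nd (nat_lit 6) 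
(.lf (nat_lit 289026) (.g (nat_lit 811) (.e (nat_lit 294960) (nat_lit 13) (.e (nat_lit 393268) (nat_lit 23) (.e (nat_lit 426422) (nat_lit 16) .nil))) .nil)) 
(.lf (nat_lit 289090) (.g (nat_lit 2265) (.e (nat_lit 302848) (nat_lit 25) (.e (nat_lit 409602) (nat_lit 0) (.e (nat_lit 5293) (nat_lit 298) (.e (nat_lit 1656) (nat_lit 115) (.e (nat_lit 393264) (nat_lit 22) .nil))))) .nil))) (.nd (nat_lit 6) 
(.lf (nat_lit 289058) (.g (nat_lit 868) (.e (nat_lit 294960) (nat_lit 13) (.e (nat_lit 393299) (nat_lit 27) (.e (nat_lit 491546) (nat_lit 9) .nil))) .nil)) 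
(.lf (nat_lit 289122) (.g (nat_lit 827) (.e (nat_lit 294973) (nat_lit 28) (.e (nat_lit 434180) (nat_lit 0) (.e (nat_lit 1426) (nat_lit 108) (.e (nat_lit 336421) (nat_lit 28) (.e (nat_lit 434188) (nat_lit 13) .nil))))) .nil)))) (.nd (nat_lit 5) (.nd (nat_lit 6) 
(.lf (nat_lit 289042) (.g (nat_lit 1442) (.e (nat_lit 294960) (nat_lit 13) (.e (nat_lit 393283) (nat_lit 24) (.e (nat_lit 434209) (nat_lit 18) (.e (nat_lit 5819) (nat_lit 320) .nil)))) .nil)) 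
(.lf (nat_lit 289106) (.g (nat_lit 831) (.e (nat_lit 294969) (nat_lit 27) (.e (nat_lit 426499) (nat_lit 27) (.e (nat_lit 336231) (nat_lit 14) (.e (nat_lit 409344) (nat_lit 18) .nil)))) .nil))) (.nd (nat_lit 6) 
(.lf (nat_lit 289074) (.g (nat_lit 1578) (.e (nat_lit 294961) (nat_lit 14) (.e (nat_lit 401448) (nat_lit 10) (.e (nat_lit 434268) (nat_lit 36) (.e (nat_lit 639021) (nat_lit 16) .nil)))) .nil)) 
(.lf (nat_lit 289138) (.g (nat_lit 841) (.e (nat_lit 294973) (nat_lit 28) (.e (nat_lit 434181) (nat_lit 0) (.e (nat_lit 1426) (nat_lit 108) (.e (nat_lit 336421) (nat_lit 28) (.e (nat_lit 434188) (nat_lit 13) .nil))))) .nil))))) (.nd (nat_lit 4) (.nd (nat_lit 5) (.nd (nat_lit 6) 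
(.lf (nat_lit 289034) (.g (nat_lit 3363) (.e (nat_lit 294960) (nat_lit 13) (.e (nat_lit 393281) (nat_lit 23) (.e (nat_lit 426100) (nat_lit 1) (.e (nat_lit 164398) (nat_lit 256) (.e (nat_lit 57354) (nat_lit 0) (.e (nat_lit 6114) (nat_lit 332) (.e (nat_lit 1370) (nat_lit 103) .nil))))))) (.g (nat_lit 6) .nil .nil))) 
(.lf (nat_lit 289098) (.g (nat_lit 1956) (.e (nat_lit 294968) (nat_lit 27) (.e (nat_lit 426343) (nat_lit 14) (.e (nat_lit 491570) (nat_lit 13) (.e (nat_lit 393259) (nat_lit 21) .nil)))) .nil))) (.nd (nat_lit 6) 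
(.lf (nat_lit 289066) (.g (nat_lit 2755) (.e (nat_lit 294960) (nat_lit 13) (.e (nat_lit 393299) (nat_lit 27) (.e (nat_lit 491560) (nat_lit 10) (.e (nat_lit 344097) (nat_lit 18) (.e (nat_lit 7254) (nat_lit 383) .nil))))) .nil)) 
(.lf (nat_lit 289130) (.g (nat_lit 2195) (.e (nat_lit 294973) (nat_lit 28) (.e (nat_lit 434180) (nat_lit 0) (.e (nat_lit 1661) (nat_lit 115) (.e (nat_lit 393238) (nat_lit 17) (.e (nat_lit 6983) (nat_lit 377) (.e (nat_lit 2783) (nat_lit 179) .nil)))))) (.g (nat_lit 5) .nil .nil))))) (.nd (nat_lit 5) (.nd (nat_lit 6) 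
(.lf (nat_lit 289050) (.g (nat_lit 2193) (.e (nat_lit 294960) (nat_lit 13) (.e (nat_lit 393287) (nat_lit 25) (.e (nat_lit 458774) (nat_lit 18) (.e (nat_lit 5815) (nat_lit 320) (.e (nat_lit 1183) (nat_lit 87) (.e (nat_lit 57712) (nat_lit 176) (.e (nat_lit 1370) (nat_lit 103) .nil))))))) (.g (nat_lit 5) .nil .nil))) 
(.lf (nat_lit 289114) (.g (nat_lit 1989) (.e (nat_lit 294972) (nat_lit 27) (.e (nat_lit 426343) (nat_lit 14) (.e (nat_lit 491570) (nat_lit 13) (.e (nat_lit 393259) (nat_lit 21) .nil)))) .nil))) (.nd (nat_lit 6) 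
(.lf (nat_lit 289082) (.g (nat_lit 240) (.e (nat_lit 294966) (nat_lit 15) (.e (nat_lit 3297) (nat_lit 202) (.e (nat_lit 573492) (nat_lit 15) .nil))) .nil)) 
(.lf (nat_lit 289146) (.g (nat_lit 1319) (.e (nat_lit 294973) (nat_lit 28) (.e (nat_lit 434181) (nat_lit 0) (.e (nat_lit 1661) (nat_lit 115) (.e (nat_lit 393243) (nat_lit 17) .nil)))) .nil)))))) (.nd (nat_lit 3) (.nd (nat_lit 4) (.nd (nat_lit 5) (.nd (nat_lit 6) 
(.lf (nat_lit 289030) (.g (nat_lit 1893) (.e (nat_lit 294960) (nat_lit 13) (.e (nat_lit 393271) (nat_lit 23) (.e (nat_lit 426444) (nat_lit 19) (.e (nat_lit 106556) (nat_lit 15) .nil)))) .nil)) 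
(.lf (nat_lit 289094) (.g (nat_lit 1723) (.e (nat_lit 294968) (nat_lit 27) (.e (nat_lit 426338) (nat_lit 14) (.e (nat_lit 491571) (nat_lit 13) (.e (nat_lit 393259) (nat_lit 21) .nil)))) .nil))) (.nd (nat_lit 6) 
(.lf (nat_lit 289062) (.g (nat_lit 1582) (.e (nat_lit 294960) (nat_lit 13) (.e (nat_lit 393299) (nat_lit 27) (.e (nat_lit 491560) (nat_lit 10) (.e (nat_lit 344091) (nat_lit 18) .nil)))) .nil)) 
(.lf (nat_lit 289126) (.g (nat_lit 2978) (.e (nat_lit 294973) (nat_lit 28) (.e (nat_lit 434180) (nat_lit 0) (.e (nat_lit 1428) (nat_lit 108) (.e (nat_lit 336369) (nat_lit 27) (.e (nat_lit 426173) (nat_lit 7) (.e (nat_lit 409642) (nat_lit 17) .nil)))))) (.g (nat_lit 6) .nil .nil))))) (.nd (nat_lit 5) (.nd (nat_lit 6) 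
(.lf (nat_lit 289046) (.g (nat_lit 1969) (.e (nat_lit 294960) (nat_lit 13) (.e (nat_lit 393283) (nat_lit 24) (.e (nat_lit 434276) (nat_lit 39) (.e (nat_lit 663565) (nat_lit 3) (.e (nat_lit 57711) (nat_lit 176) (.e (nat_lit 1370) (nat_lit 103) .nil)))))) (.g (nat_lit 4) .nil .nil))) 
(.lf (nat_lit 289110) (.g (nat_lit 1601) (.e (nat_lit 294971) (nat_lit 27) (.e (nat_lit 426163) (nat_lit 6) (.e (nat_lit 253991) (nat_lit 11) (.e (nat_lit 24320) (nat_lit 18) .nil)))) .nil))) (.nd (nat_lit 6) 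
(.lf (nat_lit 289078) (.g (nat_lit 737) (.e (nat_lit 294961) (nat_lit 14) (.e (nat_lit 401457) (nat_lit 13) (.e (nat_lit 483406) (nat_lit 26) .nil))) .nil)) 
(.lf (nat_lit 289142) (.g (nat_lit 2395) (.e (nat_lit 294973) (nat_lit 28) (.e (nat_lit 434181) (nat_lit 0) (.e (nat_lit 1661) (nat_lit 115) (.e (nat_lit 393238) (nat_lit 17) (.e (nat_lit 6989) (nat_lit 377) (.e (nat_lit 2793) (nat_lit 179) .nil)))))) (.g (nat_lit 5) .nil .nil)))))) (.nd (nat_lit 4) (.nd (nat_lit 5) (.nd (nat_lit 6) 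
(.lf (nat_lit 289038) (.g (nat_lit 1643) (.e (nat_lit 294960) (nat_lit 13) (.e (nat_lit 393282) (nat_lit 24) (.e (nat_lit 434276) (nat_lit 39) (.e (nat_lit 663565) (nat_lit 3) (.e (nat_lit 57711) (nat_lit 176) .nil))))) .nil)) 
(.lf (nat_lit 289102) (.g (nat_lit 1090) (.e (nat_lit 294969) (nat_lit 27) (.e (nat_lit 426339) (nat_lit 14) (.e (nat_lit 491570) (nat_lit 13) (.e (nat_lit 393259) (nat_lit 21) .nil)))) .nil))) (.nd (nat_lit 6) 
(.lf (nat_lit 289070) (.g (nat_lit 609) (.e (nat_lit 294960) (nat_lit 13) (.e (nat_lit 393299) (nat_lit 27) (.e (nat_lit 491563) (nat_lit 12) .nil))) .nil)) 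
(.lf (nat_lit 289134) (.g (nat_lit 1989) (.e (nat_lit 294973) (nat_lit 28) (.e (nat_lit 434180) (nat_lit 0) (.e (nat_lit 1661) (nat_lit 115) (.e (nat_lit 393238) (nat_lit 17) (.e (nat_lit 7018) (nat_lit 377) (.e (nat_lit 2789) (nat_lit 179) .nil)))))) (.g (nat_lit 4) .nil .nil))))) (.nd (nat_lit 5) (.nd (nat_lit 6) 
(.lf (nat_lit 289054) (.g (nat_lit 2723) (.e (nat_lit 294960) (nat_lit 13) (.e (nat_lit 393297) (nat_lit 27) (.e (nat_lit 491566) (nat_lit 12) (.e (nat_lit 385033) (nat_lit 16) (.e (nat_lit 7936) (nat_lit 103) .nil))))) (.g (nat_lit 4) .nil .nil))) 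
(.lf (nat_lit 289118) (.g (nat_lit 2094) (.e (nat_lit 302848) (nat_lit 27) (.e (nat_lit 426347) (nat_lit 14) (.e (nat_lit 491571) (nat_lit 13) (.e (nat_lit 393259) (nat_lit 21) .nil)))) .nil))) (.nd (nat_lit 6) 
(.lf (nat_lit 289086) (.g (nat_lit 2958) (.e (nat_lit 294966) (nat_lit 15) (.e (nat_lit 3308) (nat_lit 202) (.e (nat_lit 573493) (nat_lit 15) (.e (nat_lit 81954) (nat_lit 23) (.e (nat_lit 98350) (nat_lit 24) .nil))))) .nil)) 
(.lf (nat_lit 289150) (.g (nat_lit 1601) (.e (nat_lit 294973) (nat_lit 28) (.e (nat_lit 434291) (nat_lit 44) (.e (nat_lit 704738) (nat_lit 11) (.e (nat_lit 24320) (nat_lit 18) .nil)))) .nil)))))))) (.nd (nat_lit 1) (.nd (nat_lit 2) (.nd (nat_lit 3) (.nd (nat_lit 4) (.nd (nat_lit 5) (.nd (nat_lit 6) 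
(.lf (nat_lit 289025) (.g (nat_lit 2784) (.e (nat_lit 294960) (nat_lit 13) (.e (nat_lit 393260) (nat_lit 21) (.e (nat_lit 409651) (nat_lit 19) (.e (nat_lit 311348) (nat_lit 15) (.e (nat_lit 6114) (nat_lit 332) (.e (nat_lit 1370) (nat_lit 103) .nil)))))) (.g (nat_lit 5) .nil .nil))) 
(.lf (nat_lit 289089) (.g (nat_lit 1939) (.e (nat_lit 302848) (nat_lit 25) (.e (nat_lit 409602) (nat_lit 0) (.e (nat_lit 5293) (nat_lit 298) (.e (nat_lit 1423) (nat_lit 108) .nil)))) .nil))) (.nd (nat_lit 6) 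
(.lf (nat_lit 289057) (.g (nat_lit 2229) (.e (nat_lit 294960) (nat_lit 13) (.e (nat_lit 393298) (nat_lit 27) (.e (nat_lit 491566) (nat_lit 12) (.e (nat_lit 385032) (nat_lit 16) .nil)))) .nil)) 
(.lf (nat_lit 289121) (.g (nat_lit 739) (.e (nat_lit 294973) (nat_lit 28) (.e (nat_lit 434180) (nat_lit 0) (.e (nat_lit 1425) (nat_lit 108) (.e (nat_lit 336421) (nat_lit 28) (.e (nat_lit 434193) (nat_lit 13) .nil))))) .nil)))) (.nd (nat_lit 5) (.nd (nat_lit 6) 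
(.lf (nat_lit 289041) (.g (nat_lit 3846) (.e (nat_lit 294960) (nat_lit 13) (.e (nat_lit 393283) (nat_lit 24) (.e (nat_lit 434208) (nat_lit 18) (.e (nat_lit 5945) (nat_lit 322) (.e (nat_lit 57354) (nat_lit 0) (.e (nat_lit 6114) (nat_lit 332) (.e (nat_lit 1370) (nat_lit 103) .nil))))))) (.g (nat_lit 7) .nil .nil))) 
(.lf (nat_lit 289105) (.g (nat_lit 3007) (.e (nat_lit 294969) (nat_lit 27) (.e (nat_lit 426340) (nat_lit 14) (.e (nat_lit 491570) (nat_lit 13) (.e (nat_lit 393260) (nat_lit 21) (.e (nat_lit 409642) (nat_lit 17) .nil))))) (.g (nat_lit 5) .nil .nil)))) (.nd (nat_lit 6) 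
(.lf (nat_lit 289073) (.g (nat_lit 1070) (.e (nat_lit 294960) (nat_lit 13) (.e (nat_lit 393299) (nat_lit 27) (.e (nat_lit 491565) (nat_lit 12) .nil))) .nil)) 
(.lf (nat_lit 289137) (.g (nat_lit 1928) (.e (nat_lit 294973) (nat_lit 28) (.e (nat_lit 434180) (nat_lit 0) (.e (nat_lit 1661) (nat_lit 115) (.e (nat_lit 393260) (nat_lit 21) (.e (nat_lit 417536) (nat_lit 17) .nil))))) .nil))))) (.nd (nat_lit 4) (.nd (nat_lit 5) (.nd (nat_lit 6) 
(.lf (nat_lit 289033) (.g (nat_lit 387) (.e (nat_lit 294960) (nat_lit 13) (.e (nat_lit 393281) (nat_lit 23) (.e (nat_lit 426100) (nat_lit 1) .nil))) .nil)) 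
(.lf (nat_lit 289097) (.g (nat_lit 1594) (.e (nat_lit 294968) (nat_lit 27) (.e (nat_lit 426343) (nat_lit 14) (.e (nat_lit 491570) (nat_lit 13) (.e (nat_lit 393238) (nat_lit 17) .nil)))) .nil))) (.nd (nat_lit 6) 
(.lf (nat_lit 289065) (.g (nat_lit 2891) (.e (nat_lit 294960) (nat_lit 13) (.e (nat_lit 393299) (nat_lit 27) (.e (nat_lit 491560) (nat_lit 10) (.e (nat_lit 344097) (nat_lit 18) (.e (nat_lit 7253) (nat_lit 383) .nil))))) .nil)) 
(.lf (nat_lit 289129) (.g (nat_lit 673) (.e (nat_lit 294973) (nat_lit 28) (.e (nat_lit 434180) (nat_lit 0) (.e (nat_lit 1661) (nat_lit 115) (.e (nat_lit 393238) (nat_lit 17) .nil)))) .nil)))) (.nd (nat_lit 5) (.nd (nat_lit 6) 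
(.lf (nat_lit 289049) (.g (nat_lit 1993) (.e (nat_lit 294960) (nat_lit 13) (.e (nat_lit 393286) (nat_lit 25) (.e (nat_lit 458774) (nat_lit 18) (.e (nat_lit 5815) (nat_lit 320) (.e (nat_lit 1183) (nat_lit 87) (.e (nat_lit 57712) (nat_lit 176) (.e (nat_lit 1370) (nat_lit 103) .nil))))))) (.g (nat_lit 5) .nil .nil))) 
(.lf (nat_lit 289113) (.g (nat_lit 640) (.e (nat_lit 294972) (nat_lit 27) (.e (nat_lit 426343) (nat_lit 14) (.e (nat_lit 491570) (nat_lit 13) .nil))) .nil))) (.nd (nat_lit 6) 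
(.lf (nat_lit 289081) (.g (nat_lit 1562) (.e (nat_lit 302848) (nat_lit 14) (.e (nat_lit 401454) (nat_lit 12) (.e (nat_lit 475193) (nat_lit 38) (.e (nat_lit 688177) (nat_lit 16) .nil)))) .nil)) 
(.lf (nat_lit 289145) (.g (nat_lit 1047) (.e (nat_lit 294973) (nat_lit 28) (.e (nat_lit 434181) (nat_lit 0) (.e (nat_lit 1661) (nat_lit 115) (.e (nat_lit 393242) (nat_lit 17) .nil)))) .nil)))))) (.nd (nat_lit 3) (.nd (nat_lit 4) (.nd (nat_lit 5) (.nd (nat_lit 6) 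
(.lf (nat_lit 289029) (.g (nat_lit 1660) (.e (nat_lit 294960) (nat_lit 13) (.e (nat_lit 393271) (nat_lit 23) (.e (nat_lit 425986) (nat_lit 0) (.e (nat_lit 3419) (nat_lit 213) .nil)))) .nil)) 
(.lf (nat_lit 289093) (.g (nat_lit 1029) (.e (nat_lit 302848) (nat_lit 25) (.e (nat_lit 409603) (nat_lit 0) (.e (nat_lit 5293) (nat_lit 298) (.e (nat_lit 1423) (nat_lit 108) (.e (nat_lit 336424) (nat_lit 28) .nil))))) .nil))) (.nd (nat_lit 6) 
(.lf (nat_lit 289061) (.g (nat_lit 2090) (.e (nat_lit 294960) (nat_lit 13) (.e (nat_lit 393299) (nat_lit 27) (.e (nat_lit 491560) (nat_lit 10) (.e (nat_lit 344090) (nat_lit 18) (.e (nat_lit 7247) (nat_lit 383) .nil))))) .nil)) 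
(.lf (nat_lit 289125) (.g (nat_lit 827) (.e (nat_lit 294973) (nat_lit 28) (.e (nat_lit 434180) (nat_lit 0) (.e (nat_lit 1426) (nat_lit 108) (.e (nat_lit 336421) (nat_lit 28) (.e (nat_lit 434193) (nat_lit 13) .nil))))) .nil)))) (.nd (nat_lit 5) (.nd (nat_lit 6) 
(.lf (nat_lit 289045) (.g (nat_lit 2023) (.e (nat_lit 294960) (nat_lit 13) (.e (nat_lit 393283) (nat_lit 24) (.e (nat_lit 434272) (nat_lit 38) (.e (nat_lit 655364) (nat_lit 0) (.e (nat_lit 2828) (nat_lit 182) .nil))))) .nil)) 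
(.lf (nat_lit 289109) (.g (nat_lit 472) (.e (nat_lit 294970) (nat_lit 27) (.e (nat_lit 426338) (nat_lit 14) (.e (nat_lit 491570) (nat_lit 13) .nil))) .nil))) (.nd (nat_lit 6) 
(.lf (nat_lit 289077) (.g (nat_lit 1750) (.e (nat_lit 294961) (nat_lit 14) (.e (nat_lit 401454) (nat_lit 12) (.e (nat_lit 475193) (nat_lit 38) (.e (nat_lit 688180) (nat_lit 17) .nil)))) .nil)) 
(.lf (nat_lit 289141) (.g (nat_lit 2042) (.e (nat_lit 294973) (nat_lit 28) (.e (nat_lit 434181) (nat_lit 0) (.e (nat_lit 1661) (nat_lit 115) (.e (nat_lit 393238) (nat_lit 17) (.e (nat_lit 6983) (nat_lit 377) (.e (nat_lit 2783) (nat_lit 179) .nil)))))) (.g (nat_lit 5) .nil .nil)))))) (.nd (nat_lit 4) (.nd (nat_lit 5) (.nd (nat_lit 6) 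
(.lf (nat_lit 289037) (.g (nat_lit 1116) (.e (nat_lit 294960) (nat_lit 13) (.e (nat_lit 393282) (nat_lit 24) (.e (nat_lit 434276) (nat_lit 39) (.e (nat_lit 663564) (nat_lit 3) (.e (nat_lit 57712) (nat_lit 176) .nil))))) .nil)) 
(.lf (nat_lit 289101) (.g (nat_lit 1025) (.e (nat_lit 294969) (nat_lit 27) (.e (nat_lit 426160) (nat_lit 6) (.e (nat_lit 253991) (nat_lit 11) (.e (nat_lit 24320) (nat_lit 18) .nil)))) .nil))) (.nd (nat_lit 6) 
(.lf (nat_lit 289069) (.g (nat_lit 1070) (.e (nat_lit 294960) (nat_lit 13) (.e (nat_lit 393299) (nat_lit 27) (.e (nat_lit 491562) (nat_lit 12) .nil))) .nil)) 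
(.lf (nat_lit 289133) (.g (nat_lit 1926) (.e (nat_lit 294973) (nat_lit 28) (.e (nat_lit 434180) (nat_lit 0) (.e (nat_lit 1661) (nat_lit 115) (.e (nat_lit 393238) (nat_lit 17) (.e (nat_lit 7012) (nat_lit 377) .nil))))) .nil)))) (.nd (nat_lit 5) (.nd (nat_lit 6) 
(.lf (nat_lit 289053) (.g (nat_lit 838) (.e (nat_lit 294960) (nat_lit 13) (.e (nat_lit 393291) (nat_lit 26) (.e (nat_lit 475219) (nat_lit 44) .nil))) .nil)) 
(.lf (nat_lit 289117) (.g (nat_lit 1961) (.e (nat_lit 302848) (nat_lit 27) (.e (nat_lit 426347) (nat_lit 14) (.e (nat_lit 491570) (nat_lit 13) (.e (nat_lit 393260) (nat_lit 21) (.e (nat_lit 409640) (nat_lit 17) .nil))))) .nil))) (.nd (nat_lit 6) 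
(.lf (nat_lit 289085) (.g (nat_lit 3988) (.e (nat_lit 294966) (nat_lit 15) (.e (nat_lit 3307) (nat_lit 202) (.e (nat_lit 573493) (nat_lit 15) (.e (nat_lit 81956) (nat_lit 23) (.e (nat_lit 98349) (nat_lit 24) .nil))))) .nil)) 
(.lf (nat_lit 289149) (.g (nat_lit 1007) (.e (nat_lit 294973) (nat_lit 28) (.e (nat_lit 434208) (nat_lit 18) (.e (nat_lit 6254) (nat_lit 337) (.e (nat_lit 7936) (nat_lit 89) .nil)))) .nil))))))) (.nd (nat_lit 2) (.nd (nat_lit 3) (.nd (nat_lit 4) (.nd (nat_lit 5) (.nd (nat_lit 6) 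
(.lf (nat_lit 289027) (.g (nat_lit 1021) (.e (nat_lit 294960) (nat_lit 13) (.e (nat_lit 393268) (nat_lit 23) (.e (nat_lit 426439) (nat_lit 19) .nil))) .nil)) 
(.lf (nat_lit 289091) (.g (nat_lit 1781) (.e (nat_lit 302848) (nat_lit 25) (.e (nat_lit 409602) (nat_lit 0) (.e (nat_lit 5293) (nat_lit 298) (.e (nat_lit 1656) (nat_lit 115) (.e (nat_lit 393265) (nat_lit 22) .nil))))) .nil))) (.nd (nat_lit 6) 
(.lf (nat_lit 289059) (.g (nat_lit 569) (.e (nat_lit 294960) (nat_lit 13) (.e (nat_lit 393299) (nat_lit 27) (.e (nat_lit 491558) (nat_lit 10) .nil))) .nil)) 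
(.lf (nat_lit 289123) (.g (nat_lit 1070) (.e (nat_lit 294973) (nat_lit 28) (.e (nat_lit 434180) (nat_lit 0) (.e (nat_lit 1426) (nat_lit 108) (.e (nat_lit 336421) (nat_lit 28) (.e (nat_lit 434189) (nat_lit 13) (.e (nat_lit 2787) (nat_lit 179) .nil)))))) (.g (nat_lit 6) .nil .nil))))) (.nd (nat_lit 5) (.nd (nat_lit 6) 
(.lf (nat_lit 289043) (.g (nat_lit 2654) (.e (nat_lit 294960) (nat_lit 13) (.e (nat_lit 393283) (nat_lit 24) (.e (nat_lit 434209) (nat_lit 18) (.e (nat_lit 5820) (nat_lit 320) (.e (nat_lit 1183) (nat_lit 87) (.e (nat_lit 57712) (nat_lit 176) (.e (nat_lit 1370) (nat_lit 103) .nil))))))) (.g (nat_lit 5) .nil .nil))) 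
(.lf (nat_lit 289107) (.g (nat_lit 1012) (.e (nat_lit 294969) (nat_lit 27) (.e (nat_lit 426528) (nat_lit 27) (.e (nat_lit 336231) (nat_lit 14) (.e (nat_lit 409344) (nat_lit 18) .nil)))) .nil))) (.nd (nat_lit 6) 
(.lf (nat_lit 289075) (.g (nat_lit 1136) (.e (nat_lit 294961) (nat_lit 14) (.e (nat_lit 401454) (nat_lit 12) (.e (nat_lit 475193) (nat_lit 38) .nil))) .nil)) 
(.lf (nat_lit 289139) (.g (nat_lit 841) (.e (nat_lit 294973) (nat_lit 28) (.e (nat_lit 434181) (nat_lit 0) (.e (nat_lit 1426) (nat_lit 108) (.e (nat_lit 336421) (nat_lit 28) (.e (nat_lit 434193) (nat_lit 13) .nil))))) .nil))))) (.nd (nat_lit 4) (.nd (nat_lit 5) (.nd (nat_lit 6) 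
(.lf (nat_lit 289035) (.g (nat_lit 3530) (.e (nat_lit 294960) (nat_lit 13) (.e (nat_lit 393281) (nat_lit 23) (.e (nat_lit 426100) (nat_lit 1) (.e (nat_lit 164399) (nat_lit 256) (.e (nat_lit 57354) (nat_lit 0) (.e (nat_lit 6114) (nat_lit 332) (.e (nat_lit 1370) (nat_lit 103) .nil))))))) (.g (nat_lit 6) .nil .nil))) 
(.lf (nat_lit 289099) (.g (nat_lit 2576) (.e (nat_lit 294968) (nat_lit 27) (.e (nat_lit 426343) (nat_lit 14) (.e (nat_lit 491570) (nat_lit 13) (.e (nat_lit 393260) (nat_lit 21) (.e (nat_lit 409640) (nat_lit 17) .nil))))) (.g (nat_lit 4) .nil .nil)))) (.nd (nat_lit 6) 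
(.lf (nat_lit 289067) (.g (nat_lit 2859) (.e (nat_lit 294960) (nat_lit 13) (.e (nat_lit 393299) (nat_lit 27) (.e (nat_lit 491560) (nat_lit 10) (.e (nat_lit 344097) (nat_lit 18) (.e (nat_lit 7255) (nat_lit 383) .nil))))) .nil)) 
(.lf (nat_lit 289131) (.g (nat_lit 2102) (.e (nat_lit 294973) (nat_lit 28) (.e (nat_lit 434180) (nat_lit 0) (.e (nat_lit 1661) (nat_lit 115) (.e (nat_lit 393238) (nat_lit 17) (.e (nat_lit 6989) (nat_lit 377) (.e (nat_lit 7936) (nat_lit 179) .nil)))))) (.g (nat_lit 5) .nil .nil))))) (.nd (nat_lit 5) (.nd (nat_lit 6) 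
(.lf (nat_lit 289051) (.g (nat_lit 1931) (.e (nat_lit 294960) (nat_lit 13) (.e (nat_lit 393288) (nat_lit 25) (.e (nat_lit 458774) (nat_lit 18) (.e (nat_lit 5820) (nat_lit 320) (.e (nat_lit 1183) (nat_lit 87) (.e (nat_lit 57712) (nat_lit 176) (.e (nat_lit 1370) (nat_lit 103) .nil))))))) (.g (nat_lit 5) .nil .nil))) 
(.lf (nat_lit 289115) (.g (nat_lit 2474) (.e (nat_lit 294972) (nat_lit 27) (.e (nat_lit 426343) (nat_lit 14) (.e (nat_lit 491570) (nat_lit 13) (.e (nat_lit 393260) (nat_lit 21) (.e (nat_lit 409640) (nat_lit 17) .nil))))) .nil))) (.nd (nat_lit 6) 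
(.lf (nat_lit 289083) (.g (nat_lit 715) (.e (nat_lit 294966) (nat_lit 15) (.e (nat_lit 3307) (nat_lit 202) (.e (nat_lit 573479) (nat_lit 13) .nil))) .nil)) 
(.lf (nat_lit 289147) (.g (nat_lit 1650) (.e (nat_lit 294973) (nat_lit 28) (.e (nat_lit 434181) (nat_lit 0) (.e (nat_lit 1661) (nat_lit 115) (.e (nat_lit 393260) (nat_lit 21) (.e (nat_lit 417536) (nat_lit 17) .nil))))) .nil)))))) (.nd (nat_lit 3) (.nd (nat_lit 4) (.nd (nat_lit 5) (.nd (nat_lit 6) 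
(.lf (nat_lit 289031) (.g (nat_lit 436) (.e (nat_lit 294960) (nat_lit 13) (.e (nat_lit 393274) (nat_lit 23) (.e (nat_lit 426142) (nat_lit 4) .nil))) .nil)) 
(.lf (nat_lit 289095) (.g (nat_lit 2911) (.e (nat_lit 294968) (nat_lit 27) (.e (nat_lit 426341) (nat_lit 14) (.e (nat_lit 491570) (nat_lit 13) (.e (nat_lit 393260) (nat_lit 21) (.e (nat_lit 409640) (nat_lit 17) .nil))))) (.g (nat_lit 5) .nil .nil)))) (.nd (nat_lit 6) 
(.lf (nat_lit 289063) (.g (nat_lit 1656) (.e (nat_lit 294960) (nat_lit 13) (.e (nat_lit 393299) (nat_lit 27) (.e (nat_lit 491560) (nat_lit 10) (.e (nat_lit 344096) (nat_lit 18) .nil)))) .nil)) 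
(.lf (nat_lit 289127) (.g (nat_lit 993) (.e (nat_lit 294973) (nat_lit 28) (.e (nat_lit 434180) (nat_lit 0) (.e (nat_lit 1428) (nat_lit 108) (.e (nat_lit 336425) (nat_lit 28) .nil)))) .nil)))) (.nd (nat_lit 5) (.nd (nat_lit 6) 
(.lf (nat_lit 289047) (.g (nat_lit 1984) (.e (nat_lit 294960) (nat_lit 13) (.e (nat_lit 393283) (nat_lit 24) (.e (nat_lit 434276) (nat_lit 39) (.e (nat_lit 663565) (nat_lit 3) (.e (nat_lit 57712) (nat_lit 176) (.e (nat_lit 1370) (nat_lit 103) .nil)))))) (.g (nat_lit 4) .nil .nil))) 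
(.lf (nat_lit 289111) (.g (nat_lit 569) (.e (nat_lit 294971) (nat_lit 27) (.e (nat_lit 426347) (nat_lit 14) (.e (nat_lit 491571) (nat_lit 13) .nil))) .nil))) (.nd (nat_lit 6) 
(.lf (nat_lit 289079) (.g (nat_lit 2166) (.e (nat_lit 294961) (nat_lit 14) (.e (nat_lit 401459) (nat_lit 13) (.e (nat_lit 483380) (nat_lit 23) (.e (nat_lit 336258) (nat_lit 15) .nil)))) .nil)) 
(.lf (nat_lit 289143) (.g (nat_lit 1758) (.e (nat_lit 294973) (nat_lit 28) (.e (nat_lit 434181) (nat_lit 0) (.e (nat_lit 1661) (nat_lit 115) (.e (nat_lit 393238) (nat_lit 17) (.e (nat_lit 7011) (nat_lit 377) .nil))))) .nil))))) (.nd (nat_lit 4) (.nd (nat_lit 5) (.nd (nat_lit 6) 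
(.lf (nat_lit 289039) (.g (nat_lit 1661) (.e (nat_lit 294960) (nat_lit 13) (.e (nat_lit 393282) (nat_lit 24) (.e (nat_lit 434276) (nat_lit 39) (.e (nat_lit 663565) (nat_lit 3) (.e (nat_lit 57712) (nat_lit 176) .nil))))) .nil)) 
(.lf (nat_lit 289103) (.g (nat_lit 2827) (.e (nat_lit 294969) (nat_lit 27) (.e (nat_lit 426340) (nat_lit 14) (.e (nat_lit 491568) (nat_lit 13) (.e (nat_lit 393259) (nat_lit 21) (.e (nat_lit 409642) (nat_lit 17) .nil))))) (.g (nat_lit 0) .nil .nil)))) (.nd (nat_lit 6) 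
(.lf (nat_lit 289071) (.g (nat_lit 2595) (.e (nat_lit 294960) (nat_lit 13) (.e (nat_lit 393299) (nat_lit 27) (.e (nat_lit 491563) (nat_lit 12) (.e (nat_lit 385032) (nat_lit 16) .nil)))) .nil)) 
(.lf (nat_lit 289135) (.g (nat_lit 876) (.e (nat_lit 294973) (nat_lit 28) (.e (nat_lit 434180) (nat_lit 0) (.e (nat_lit 1661) (nat_lit 115) (.e (nat_lit 393242) (nat_lit 17) .nil)))) .nil)))) (.nd (nat_lit 5) (.nd (nat_lit 6) 
(.lf (nat_lit 289055) (.g (nat_lit 1857) (.e (nat_lit 294960) (nat_lit 13) (.e (nat_lit 393297) (nat_lit 27) (.e (nat_lit 491566) (nat_lit 12) (.e (nat_lit 385036) (nat_lit 16) .nil)))) .nil)) 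
(.lf (nat_lit 289119) (.g (nat_lit 3662) (.e (nat_lit 302848) (nat_lit 27) (.e (nat_lit 426347) (nat_lit 14) (.e (nat_lit 491571) (nat_lit 13) (.e (nat_lit 393260) (nat_lit 21) (.e (nat_lit 409640) (nat_lit 17) .nil))))) .nil))) (.nd (nat_lit 6) 
(.lf (nat_lit 289087) (.g (nat_lit 477) (.e (nat_lit 302848) (nat_lit 15) (.e (nat_lit 6989) (nat_lit 377) (.e (nat_lit 1370) (nat_lit 103) .nil))) .nil)) 
(.lf (nat_lit 289151) (.g (nat_lit 938) (.e (nat_lit 294974) (nat_lit 29) (.e (nat_lit 442377) (nat_lit 0) (.e (nat_lit 2175) (nat_lit 143) (.e (nat_lit 712749) (nat_lit 28) (.e (nat_lit 434192) (nat_lit 13) .nil))))) .nil)))))))))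

noncomputable def tv3655 : DT := (.nd (nat_lit 0) (.nd (nat_lit 1) (.nd (nat_lit 2) (.nd (nat_lit 3) (.nd (nat_lit 4) (.nd (nat_lit 5) 
(.lf (nat_lit 289152) (.g (nat_lit 1382) (.e (nat_lit 294974) (nat_lit 29) (.e (nat_lit 442379) (nat_lit 0) (.e (nat_lit 2175) (nat_lit 143) (.e (nat_lit 712749) (nat_lit 28) (.e (nat_lit 434192) (nat_lit 13) (.e (nat_lit 2788) (nat_lit 179) .nil)))))) (.g (nat_lit 4) .nil .nil))) 
(.lf (nat_lit 289184) (.g (nat_lit 1495) (.e (nat_lit 303106) (nat_lit 0) (.e (nat_lit 3453) (nat_lit 216) (.e (nat_lit 688186) (nat_lit 18) (.e (nat_lit 81926) (nat_lit 11) (.e (nat_lit 426024) (nat_lit 0) (.e (nat_lit 6989) (nat_lit 377) (.e (nat_lit 2810) (nat_lit 180) .nil))))))) (.g (nat_lit 0) .nil .nil)))) (.nd (nat_lit 5) 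
(.lf (nat_lit 289168) (.g (nat_lit 2992) (.e (nat_lit 303104) (nat_lit 0) (.e (nat_lit 3229) (nat_lit 197) (.e (nat_lit 532535) (nat_lit 9) (.e (nat_lit 336099) (nat_lit 9) (.e (nat_lit 336028) (nat_lit 3) .nil))))) .nil)) 
(.lf (nat_lit 289200) (.g (nat_lit 4274) (.e (nat_lit 303109) (nat_lit 0) (.e (nat_lit 3238) (nat_lit 197) (.e (nat_lit 532535) (nat_lit 9) (.e (nat_lit 336099) (nat_lit 9) (.e (nat_lit 336028) (nat_lit 3) .nil))))) .nil)))) (.nd (nat_lit 4) (.nd (nat_lit 5) 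
(.lf (nat_lit 289160) (.g (nat_lit 531) (.e (nat_lit 302848) (nat_lit 30) (.e (nat_lit 450595) (nat_lit 17) (.e (nat_lit 663555) (nat_lit 0) (.e (nat_lit 1399) (nat_lit 106) .nil)))) .nil)) 
(.lf (nat_lit 289192) (.g (nat_lit 3002) (.e (nat_lit 303107) (nat_lit 0) (.e (nat_lit 3459) (nat_lit 216) (.e (nat_lit 688177) (nat_lit 16) (.e (nat_lit 65625) (nat_lit 13) (.e (nat_lit 393260) (nat_lit 21) (.e (nat_lit 409648) (nat_lit 18) .nil)))))) (.g (nat_lit 6) .nil .nil)))) (.nd (nat_lit 5) 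
(.lf (nat_lit 289176) (.g (nat_lit 1756) (.e (nat_lit 303104) (nat_lit 0) (.e (nat_lit 3238) (nat_lit 197) (.e (nat_lit 532550) (nat_lit 12) (.e (nat_lit 360465) (nat_lit 3) .nil)))) .nil)) 
(.lf (nat_lit 289208) (.g (nat_lit 3978) (.e (nat_lit 303111) (nat_lit 0) (.e (nat_lit 3238) (nat_lit 197) (.e (nat_lit 532535) (nat_lit 9) (.e (nat_lit 336099) (nat_lit 9) (.e (nat_lit 336028) (nat_lit 3) .nil))))) .nil))))) (.nd (nat_lit 3) (.nd (nat_lit 4) (.nd (nat_lit 5) 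
(.lf (nat_lit 289156) (.g (nat_lit 1551) (.e (nat_lit 294974) (nat_lit 29) (.e (nat_lit 442430) (nat_lit 24) (.e (nat_lit 229678) (nat_lit 244) (.e (nat_lit 163899) (nat_lit 11) .nil)))) .nil)) 
(.lf (nat_lit 289188) (.g (nat_lit 1195) (.e (nat_lit 303106) (nat_lit 0) (.e (nat_lit 3458) (nat_lit 216) (.e (nat_lit 688178) (nat_lit 16) (.e (nat_lit 65626) (nat_lit 13) (.e (nat_lit 393260) (nat_lit 21) (.e (nat_lit 417536) (nat_lit 18) .nil)))))) (.g (nat_lit 5) .nil .nil)))) (.nd (nat_lit 5) 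
(.lf (nat_lit 289172) (.g (nat_lit 2525) (.e (nat_lit 303104) (nat_lit 0) (.e (nat_lit 3238) (nat_lit 197) (.e (nat_lit 532535) (nat_lit 9) (.e (nat_lit 336110) (nat_lit 9) .nil)))) .nil)) 
(.lf (nat_lit 289204) (.g (nat_lit 4274) (.e (nat_lit 303110) (nat_lit 0) (.e (nat_lit 3238) (nat_lit 197) (.e (nat_lit 532535) (nat_lit 9) (.e (nat_lit 336099) (nat_lit 9) (.e (nat_lit 336028) (nat_lit 3) .nil))))) .nil)))) (.nd (nat_lit 4) (.nd (nat_lit 5) 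
(.lf (nat_lit 289164) (.g (nat_lit 1378) (.e (nat_lit 302848) (nat_lit 35) (.e (nat_lit 491566) (nat_lit 12) (.e (nat_lit 385091) (nat_lit 49) .nil))) .nil)) 
(.lf (nat_lit 289196) (.g (nat_lit 485) (.e (nat_lit 303108) (nat_lit 0) (.e (nat_lit 3272) (nat_lit 199) (.e (nat_lit 548908) (nat_lit 17) .nil))) .nil))) (.nd (nat_lit 5) 
(.lf (nat_lit 289180) (.g (nat_lit 3418) (.e (nat_lit 303106) (nat_lit 0) (.e (nat_lit 3256) (nat_lit 197) (.e (nat_lit 532535) (nat_lit 9) (.e (nat_lit 336099) (nat_lit 9) (.e (nat_lit 336028) (nat_lit 3) .nil))))) .nil)) 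
(.lf (nat_lit 289212) (.g (nat_lit 3708) (.e (nat_lit 303111) (nat_lit 0) (.e (nat_lit 3238) (nat_lit 197) (.e (nat_lit 532535) (nat_lit 9) (.e (nat_lit 336173) (nat_lit 10) (.e (nat_lit 344119) (nat_lit 21) .nil))))) .nil)))))) (.nd (nat_lit 2) (.nd (nat_lit 3) (.nd (nat_lit 4) (.nd (nat_lit 5) 
(.lf (nat_lit 289154) (.g (nat_lit 427) (.e (nat_lit 294974) (nat_lit 29) (.e (nat_lit 442425) (nat_lit 23) (.e (nat_lit 212736) (nat_lit 15) .nil))) .nil)) 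
(.lf (nat_lit 289186) (.g (nat_lit 1139) (.e (nat_lit 303106) (nat_lit 0) (.e (nat_lit 3453) (nat_lit 216) (.e (nat_lit 688186) (nat_lit 18) (.e (nat_lit 81926) (nat_lit 11) (.e (nat_lit 426172) (nat_lit 7) (.e (nat_lit 417536) (nat_lit 18) .nil)))))) (.g (nat_lit 5) .nil .nil)))) (.nd (nat_lit 5) 
(.lf (nat_lit 289170) (.g (nat_lit 4292) (.e (nat_lit 303104) (nat_lit 0) (.e (nat_lit 3238) (nat_lit 197) (.e (nat_lit 532535) (nat_lit 9) (.e (nat_lit 336099) (nat_lit 9) (.e (nat_lit 336023) (nat_lit 3) .nil))))) .nil)) 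
(.lf (nat_lit 289202) (.g (nat_lit 699) (.e (nat_lit 303109) (nat_lit 0) (.e (nat_lit 3252) (nat_lit 197) (.e (nat_lit 532525) (nat_lit 8) (.e (nat_lit 327697) (nat_lit 7) .nil)))) .nil)))) (.nd (nat_lit 4) (.nd (nat_lit 5) 
(.lf (nat_lit 289162) (.g (nat_lit 1537) (.e (nat_lit 302848) (nat_lit 35) (.e (nat_lit 491563) (nat_lit 12) (.e (nat_lit 385094) (nat_lit 49) (.e (nat_lit 778323) (nat_lit 5) .nil)))) .nil)) 
(.lf (nat_lit 289194) (.g (nat_lit 2954) (.e (nat_lit 303107) (nat_lit 0) (.e (nat_lit 3459) (nat_lit 216) (.e (nat_lit 688178) (nat_lit 16) (.e (nat_lit 65626) (nat_lit 13) (.e (nat_lit 393260) (nat_lit 21) (.e (nat_lit 409648) (nat_lit 18) .nil)))))) (.g (nat_lit 0) .nil .nil)))) (.nd (nat_lit 5) 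
(.lf (nat_lit 289178) (.g (nat_lit 1316) (.e (nat_lit 303105) (nat_lit 0) (.e (nat_lit 3480) (nat_lit 218) (.e (nat_lit 704731) (nat_lit 11) (.e (nat_lit 16468) (nat_lit 13) (.e (nat_lit 483372) (nat_lit 21) (.e (nat_lit 327424) (nat_lit 18) .nil)))))) (.g (nat_lit 5) .nil .nil))) 
(.lf (nat_lit 289210) (.g (nat_lit 3912) (.e (nat_lit 303111) (nat_lit 0) (.e (nat_lit 3238) (nat_lit 197) (.e (nat_lit 532535) (nat_lit 9) (.e (nat_lit 336173) (nat_lit 10) (.e (nat_lit 344116) (nat_lit 21) .nil))))) .nil))))) (.nd (nat_lit 3) (.nd (nat_lit 4) (.nd (nat_lit 5) 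
(.lf (nat_lit 289158) (.g (nat_lit 2010) (.e (nat_lit 302848) (nat_lit 29) (.e (nat_lit 442374) (nat_lit 0) (.e (nat_lit 2059) (nat_lit 142) (.e (nat_lit 704595) (nat_lit 5) (.e (nat_lit 180288) (nat_lit 45) .nil))))) .nil)) 
(.lf (nat_lit 289190) (.g (nat_lit 413) (.e (nat_lit 303107) (nat_lit 0) (.e (nat_lit 3459) (nat_lit 216) (.e (nat_lit 688176) (nat_lit 16) .nil))) .nil))) (.nd (nat_lit 5) 
(.lf (nat_lit 289174) (.g (nat_lit 1377) (.e (nat_lit 303104) (nat_lit 0) (.e (nat_lit 3238) (nat_lit 197) (.e (nat_lit 532547) (nat_lit 11) (.e (nat_lit 352313) (nat_lit 23) .nil)))) .nil)) 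
(.lf (nat_lit 289206) (.g (nat_lit 4099) (.e (nat_lit 303111) (nat_lit 0) (.e (nat_lit 3238) (nat_lit 197) (.e (nat_lit 532535) (nat_lit 9) (.e (nat_lit 336099) (nat_lit 9) (.e (nat_lit 336020) (nat_lit 3) .nil))))) .nil)))) (.nd (nat_lit 4) (.nd (nat_lit 5) 
(.lf (nat_lit 289166) (.g (nat_lit 1385) (.e (nat_lit 302848) (nat_lit 35) (.e (nat_lit 491566) (nat_lit 12) (.e (nat_lit 385093) (nat_lit 49) (.e (nat_lit 778323) (nat_lit 5) .nil)))) .nil)) 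
(.lf (nat_lit 289198) (.g (nat_lit 2623) (.e (nat_lit 303109) (nat_lit 0) (.e (nat_lit 3238) (nat_lit 197) (.e (nat_lit 532535) (nat_lit 9) (.e (nat_lit 336073) (nat_lit 9) .nil)))) .nil))) (.nd (nat_lit 5) 
(.lf (nat_lit 289182) (.g (nat_lit 531) (.e (nat_lit 303106) (nat_lit 0) (.e (nat_lit 3453) (nat_lit 216) (.e (nat_lit 688184) (nat_lit 18) (.e (nat_lit 89856) (nat_lit 10) .nil)))) .nil)) 
(.lf (nat_lit 289214) (.g (nat_lit 1857) (.e (nat_lit 303111) (nat_lit 0) (.e (nat_lit 3272) (nat_lit 199) (.e (nat_lit 548898) (nat_lit 14) (.e (nat_lit 2828) (nat_lit 182) (.e (nat_lit 417536) (nat_lit 16) .nil))))) .nil))))))) (.nd (nat_lit 1) (.nd (nat_lit 2) (.nd (nat_lit 3) (.nd (nat_lit 4) (.nd (nat_lit 5) 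
(.lf (nat_lit 289153) (.g (nat_lit 1298) (.e (nat_lit 294974) (nat_lit 29) (.e (nat_lit 442379) (nat_lit 0) (.e (nat_lit 2175) (nat_lit 143) (.e (nat_lit 712749) (nat_lit 28) (.e (nat_lit 434193) (nat_lit 13) .nil))))) .nil)) 
(.lf (nat_lit 289185) (.g (nat_lit 2009) (.e (nat_lit 303106) (nat_lit 0) (.e (nat_lit 3453) (nat_lit 216) (.e (nat_lit 688186) (nat_lit 18) (.e (nat_lit 81926) (nat_lit 11) (.e (nat_lit 426172) (nat_lit 7) (.e (nat_lit 409648) (nat_lit 18) .nil)))))) (.g (nat_lit 0) .nil .nil)))) (.nd (nat_lit 5) 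
(.lf (nat_lit 289169) (.g (nat_lit 4228) (.e (nat_lit 303104) (nat_lit 0) (.e (nat_lit 3238) (nat_lit 197) (.e (nat_lit 532535) (nat_lit 9) (.e (nat_lit 336099) (nat_lit 9) (.e (nat_lit 336013) (nat_lit 2) .nil))))) .nil)) 
(.lf (nat_lit 289201) (.g (nat_lit 2645) (.e (nat_lit 303109) (nat_lit 0) (.e (nat_lit 3238) (nat_lit 197) (.e (nat_lit 532535) (nat_lit 9) (.e (nat_lit 336163) (nat_lit 10) .nil)))) .nil)))) (.nd (nat_lit 4) (.nd (nat_lit 5) 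
(.lf (nat_lit 289161) (.g (nat_lit 1632) (.e (nat_lit 302848) (nat_lit 32) (.e (nat_lit 466947) (nat_lit 0) (.e (nat_lit 2059) (nat_lit 142) (.e (nat_lit 704595) (nat_lit 5) (.e (nat_lit 180285) (nat_lit 45) .nil))))) .nil)) 
(.lf (nat_lit 289193) (.g (nat_lit 3140) (.e (nat_lit 303107) (nat_lit 0) (.e (nat_lit 3459) (nat_lit 216) (.e (nat_lit 688177) (nat_lit 16) (.e (nat_lit 65627) (nat_lit 13) (.e (nat_lit 393260) (nat_lit 21) (.e (nat_lit 409648) (nat_lit 18) .nil)))))) (.g (nat_lit 6) .nil .nil)))) (.nd (nat_lit 5) 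
(.lf (nat_lit 289177) (.g (nat_lit 1401) (.e (nat_lit 303104) (nat_lit 0) (.e (nat_lit 3480) (nat_lit 218) (.e (nat_lit 704731) (nat_lit 11) (.e (nat_lit 16468) (nat_lit 13) (.e (nat_lit 483372) (nat_lit 21) (.e (nat_lit 327424) (nat_lit 18) .nil)))))) (.g (nat_lit 5) .nil .nil))) 
(.lf (nat_lit 289209) (.g (nat_lit 2391) (.e (nat_lit 303111) (nat_lit 0) (.e (nat_lit 3238) (nat_lit 197) (.e (nat_lit 532535) (nat_lit 9) (.e (nat_lit 336163) (nat_lit 10) .nil)))) .nil))))) (.nd (nat_lit 3) (.nd (nat_lit 4) (.nd (nat_lit 5) 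
(.lf (nat_lit 289157) (.g (nat_lit 1928) (.e (nat_lit 302848) (nat_lit 29) (.e (nat_lit 442374) (nat_lit 0) (.e (nat_lit 2059) (nat_lit 142) (.e (nat_lit 704595) (nat_lit 5) (.e (nat_lit 180285) (nat_lit 45) .nil))))) .nil)) 
(.lf (nat_lit 289189) (.g (nat_lit 4289) (.e (nat_lit 303107) (nat_lit 0) (.e (nat_lit 3238) (nat_lit 197) (.e (nat_lit 532535) (nat_lit 9) (.e (nat_lit 336099) (nat_lit 9) (.e (nat_lit 336028) (nat_lit 3) .nil))))) .nil))) (.nd (nat_lit 5) 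
(.lf (nat_lit 289173) (.g (nat_lit 2562) (.e (nat_lit 303104) (nat_lit 0) (.e (nat_lit 3238) (nat_lit 197) (.e (nat_lit 532535) (nat_lit 9) (.e (nat_lit 336163) (nat_lit 10) .nil)))) .nil)) 
(.lf (nat_lit 289205) (.g (nat_lit 4036) (.e (nat_lit 303111) (nat_lit 0) (.e (nat_lit 3238) (nat_lit 197) (.e (nat_lit 532535) (nat_lit 9) (.e (nat_lit 336099) (nat_lit 9) (.e (nat_lit 336013) (nat_lit 2) .nil))))) .nil)))) (.nd (nat_lit 4) (.nd (nat_lit 5) 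
(.lf (nat_lit 289165) (.g (nat_lit 966) (.e (nat_lit 302848) (nat_lit 35) (.e (nat_lit 491566) (nat_lit 12) (.e (nat_lit 385092) (nat_lit 49) (.e (nat_lit 778323) (nat_lit 5) .nil)))) .nil)) 
(.lf (nat_lit 289197) (.g (nat_lit 1494) (.e (nat_lit 303108) (nat_lit 0) (.e (nat_lit 7554) (nat_lit 402) (.e (nat_lit 1234) (nat_lit 91) (.e (nat_lit 90170) (nat_lit 13) (.e (nat_lit 172113) (nat_lit 10) .nil))))) .nil))) (.nd (nat_lit 5) 
(.lf (nat_lit 289181) (.g (nat_lit 98) (.e (nat_lit 303106) (nat_lit 0) (.e (nat_lit 3262) (nat_lit 198) (.e (nat_lit 540703) (nat_lit 11) .nil))) .nil)) 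
(.lf (nat_lit 289213) (.g (nat_lit 2422) (.e (nat_lit 303111) (nat_lit 0) (.e (nat_lit 3238) (nat_lit 197) (.e (nat_lit 532550) (nat_lit 12) (.e (nat_lit 360466) (nat_lit 3) (.e (nat_lit 516138) (nat_lit 7) .nil))))) .nil)))))) (.nd (nat_lit 2) (.nd (nat_lit 3) (.nd (nat_lit 4) (.nd (nat_lit 5) 
(.lf (nat_lit 289155) (.g (nat_lit 1456) (.e (nat_lit 294974) (nat_lit 29) (.e (nat_lit 442428) (nat_lit 24) (.e (nat_lit 229678) (nat_lit 244) (.e (nat_lit 163899) (nat_lit 11) .nil)))) .nil)) 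
(.lf (nat_lit 289187) (.g (nat_lit 2240) (.e (nat_lit 303106) (nat_lit 0) (.e (nat_lit 3458) (nat_lit 216) (.e (nat_lit 688178) (nat_lit 16) (.e (nat_lit 65626) (nat_lit 13) (.e (nat_lit 393238) (nat_lit 17) (.e (nat_lit 6989) (nat_lit 377) (.e (nat_lit 2810) (nat_lit 180) .nil))))))) (.g (nat_lit 0) .nil .nil)))) (.nd (nat_lit 5) 
(.lf (nat_lit 289171) (.g (nat_lit 4327) (.e (nat_lit 303104) (nat_lit 0) (.e (nat_lit 3238) (nat_lit 197) (.e (nat_lit 532535) (nat_lit 9) (.e (nat_lit 336099) (nat_lit 9) (.e (nat_lit 343808) (nat_lit 3) .nil))))) .nil)) 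
(.lf (nat_lit 289203) (.g (nat_lit 3421) (.e (nat_lit 303109) (nat_lit 0) (.e (nat_lit 3391) (nat_lit 210) (.e (nat_lit 639021) (nat_lit 16) (.e (nat_lit 65583) (nat_lit 7) (.e (nat_lit 319530) (nat_lit 16) (.e (nat_lit 286727) (nat_lit 0) (.e (nat_lit 6114) (nat_lit 332) (.e (nat_lit 1379) (nat_lit 104) .nil)))))))) (.g (nat_lit 0) .nil .nil))))) (.nd (nat_lit 4) (.nd (nat_lit 5) 
(.lf (nat_lit 289163) (.g (nat_lit 2352) (.e (nat_lit 302848) (nat_lit 35) (.e (nat_lit 491563) (nat_lit 12) (.e (nat_lit 385094) (nat_lit 49) (.e (nat_lit 778324) (nat_lit 5) (.e (nat_lit 73791) (nat_lit 45) .nil))))) .nil)) 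
(.lf (nat_lit 289195) (.g (nat_lit 2360) (.e (nat_lit 303108) (nat_lit 0) (.e (nat_lit 3238) (nat_lit 197) (.e (nat_lit 532535) (nat_lit 9) (.e (nat_lit 336173) (nat_lit 10) .nil)))) .nil))) (.nd (nat_lit 5) 
(.lf (nat_lit 289179) (.g (nat_lit 1182) (.e (nat_lit 303105) (nat_lit 0) (.e (nat_lit 6989) (nat_lit 377) (.e (nat_lit 2779) (nat_lit 178) (.e (nat_lit 286728) (nat_lit 0) .nil)))) .nil)) 
(.lf (nat_lit 289211) (.g (nat_lit 3936) (.e (nat_lit 303111) (nat_lit 0) (.e (nat_lit 3238) (nat_lit 197) (.e (nat_lit 532535) (nat_lit 9) (.e (nat_lit 336173) (nat_lit 10) (.e (nat_lit 344117) (nat_lit 21) .nil))))) .nil))))) (.nd (nat_lit 3) (.nd (nat_lit 4) (.nd (nat_lit 5) 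
(.lf (nat_lit 289159) (.g (nat_lit 1611) (.e (nat_lit 302848) (nat_lit 29) (.e (nat_lit 442374) (nat_lit 0) (.e (nat_lit 2175) (nat_lit 143) (.e (nat_lit 712749) (nat_lit 28) (.e (nat_lit 434192) (nat_lit 13) .nil))))) .nil)) 
(.lf (nat_lit 289191) (.g (nat_lit 1145) (.e (nat_lit 303107) (nat_lit 0) (.e (nat_lit 3459) (nat_lit 216) (.e (nat_lit 688177) (nat_lit 16) (.e (nat_lit 65599) (nat_lit 9) .nil)))) .nil))) (.nd (nat_lit 5) 
(.lf (nat_lit 289175) (.g (nat_lit 1392) (.e (nat_lit 303104) (nat_lit 0) (.e (nat_lit 3238) (nat_lit 197) (.e (nat_lit 532547) (nat_lit 11) (.e (nat_lit 352314) (nat_lit 23) .nil)))) .nil)) 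
(.lf (nat_lit 289207) (.g (nat_lit 4099) (.e (nat_lit 303111) (nat_lit 0) (.e (nat_lit 3238) (nat_lit 197) (.e (nat_lit 532535) (nat_lit 9) (.e (nat_lit 336099) (nat_lit 9) (.e (nat_lit 336023) (nat_lit 3) .nil))))) .nil)))) (.nd (nat_lit 4) (.nd (nat_lit 5) 
(.lf (nat_lit 289167) (.g (nat_lit 1437) (.e (nat_lit 302848) (nat_lit 35) (.e (nat_lit 491566) (nat_lit 12) (.e (nat_lit 385093) (nat_lit 49) (.e (nat_lit 778324) (nat_lit 5) .nil)))) .nil)) 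
(.lf (nat_lit 289199) (.g (nat_lit 4332) (.e (nat_lit 303109) (nat_lit 0) (.e (nat_lit 3238) (nat_lit 197) (.e (nat_lit 532535) (nat_lit 9) (.e (nat_lit 336099) (nat_lit 9) (.e (nat_lit 336013) (nat_lit 2) .nil))))) .nil))) (.nd (nat_lit 5) 
(.lf (nat_lit 289183) (.g (nat_lit 406) (.e (nat_lit 303106) (nat_lit 0) (.e (nat_lit 3453) (nat_lit 216) (.e (nat_lit 688185) (nat_lit 18) (.e (nat_lit 81926) (nat_lit 11) .nil)))) .nil)) 
(.lf (nat_lit 289215) (.g (nat_lit 3237) (.e (nat_lit 303111) (nat_lit 0) (.e (nat_lit 3390) (nat_lit 210) (.e (nat_lit 639021) (nat_lit 16) (.e (nat_lit 65583) (nat_lit 7) (.e (nat_lit 319530) (nat_lit 16) (.e (nat_lit 286727) (nat_lit 0) (.e (nat_lit 6126) (nat_lit 332) (.e (nat_lit 7936) (nat_lit 104) .nil)))))))) (.g (nat_lit 6) .nil .nil)))))))))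

noncomputable def tv3656 : DT := (.nd (nat_lit 0) (.nd (nat_lit 1) (.nd (nat_lit 2) (.nd (nat_lit 3) (.nd (nat_lit 4) (.nd (nat_lit 5) 
(.lf (nat_lit 289216) (.g (nat_lit 2883) (.e (nat_lit 303111) (nat_lit 0) (.e (nat_lit 3390) (nat_lit 210) (.e (nat_lit 639021) (nat_lit 16) (.e (nat_lit 65583) (nat_lit 7) (.e (nat_lit 319530) (nat_lit 16) (.e (nat_lit 286727) (nat_lit 0) (.e (nat_lit 6150) (nat_lit 332) (.e (nat_lit 7936) (nat_lit 104) .nil)))))))) (.g (nat_lit 7) .nil .nil))) 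
(.lf (nat_lit 289248) (.g (nat_lit 185) (.e (nat_lit 303112) (nat_lit 0) (.e (nat_lit 2478) (nat_lit 157) (.e (nat_lit 6273) (nat_lit 337) .nil))) .nil))) (.nd (nat_lit 5) 
(.lf (nat_lit 289232) (.g (nat_lit 2733) (.e (nat_lit 303111) (nat_lit 0) (.e (nat_lit 3391) (nat_lit 210) (.e (nat_lit 639021) (nat_lit 16) (.e (nat_lit 65583) (nat_lit 7) (.e (nat_lit 319530) (nat_lit 16) (.e (nat_lit 286727) (nat_lit 0) (.e (nat_lit 6165) (nat_lit 332) (.e (nat_lit 7936) (nat_lit 104) .nil)))))))) (.g (nat_lit 6) .nil .nil))) 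
(.lf (nat_lit 289264) (.g (nat_lit 1846) (.e (nat_lit 303114) (nat_lit 1) (.e (nat_lit 164179) (nat_lit 154) (.e (nat_lit 57437) (nat_lit 17) (.e (nat_lit 376838) (nat_lit 11) (.e (nat_lit 426172) (nat_lit 7) .nil))))) .nil)))) (.nd (nat_lit 4) (.nd (nat_lit 5) 
(.lf (nat_lit 289224) (.g (nat_lit 3302) (.e (nat_lit 303111) (nat_lit 0) (.e (nat_lit 3390) (nat_lit 210) (.e (nat_lit 639021) (nat_lit 16) (.e (nat_lit 65586) (nat_lit 7) (.e (nat_lit 319531) (nat_lit 16) (.e (nat_lit 286727) (nat_lit 0) (.e (nat_lit 6149) (nat_lit 332) (.e (nat_lit 7936) (nat_lit 104) .nil)))))))) (.g (nat_lit 6) .nil .nil))) 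
(.lf (nat_lit 289256) (.g (nat_lit 2956) (.e (nat_lit 303114) (nat_lit 1) (.e (nat_lit 164172) (nat_lit 153) (.e (nat_lit 8192) (nat_lit 0) (.e (nat_lit 5355) (nat_lit 298) (.e (nat_lit 1661) (nat_lit 115) (.e (nat_lit 393260) (nat_lit 21) (.e (nat_lit 409648) (nat_lit 18) .nil))))))) (.g (nat_lit 7) .nil .nil)))) (.nd (nat_lit 5) 
(.lf (nat_lit 289240) (.g (nat_lit 2553) (.e (nat_lit 303111) (nat_lit 0) (.e (nat_lit 3391) (nat_lit 210) (.e (nat_lit 639021) (nat_lit 16) (.e (nat_lit 65586) (nat_lit 7) (.e (nat_lit 319531) (nat_lit 16) (.e (nat_lit 286741) (nat_lit 8) (.e (nat_lit 335616) (nat_lit 18) .nil))))))) (.g (nat_lit 5) .nil .nil))) 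
(.lf (nat_lit 289272) (.g (nat_lit 1782) (.e (nat_lit 303114) (nat_lit 1) (.e (nat_lit 164183) (nat_lit 154) (.e (nat_lit 57409) (nat_lit 12) (.e (nat_lit 336115) (nat_lit 9) .nil)))) .nil))))) (.nd (nat_lit 3) (.nd (nat_lit 4) (.nd (nat_lit 5) 
(.lf (nat_lit 289220) (.g (nat_lit 4268) (.e (nat_lit 303111) (nat_lit 0) (.e (nat_lit 3390) (nat_lit 210) (.e (nat_lit 639021) (nat_lit 16) (.e (nat_lit 65586) (nat_lit 7) (.e (nat_lit 319531) (nat_lit 16) (.e (nat_lit 286721) (nat_lit 0) (.e (nat_lit 6113) (nat_lit 332) (.e (nat_lit 1376) (nat_lit 104) .nil)))))))) (.g (nat_lit 8) .nil .nil))) 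
(.lf (nat_lit 289252) (.g (nat_lit 3132) (.e (nat_lit 303112) (nat_lit 0) (.e (nat_lit 3254) (nat_lit 197) (.e (nat_lit 532535) (nat_lit 9) (.e (nat_lit 336099) (nat_lit 9) (.e (nat_lit 336028) (nat_lit 3) .nil))))) .nil))) (.nd (nat_lit 5) 
(.lf (nat_lit 289236) (.g (nat_lit 3022) (.e (nat_lit 303111) (nat_lit 0) (.e (nat_lit 3391) (nat_lit 210) (.e (nat_lit 639021) (nat_lit 16) (.e (nat_lit 65586) (nat_lit 7) (.e (nat_lit 319531) (nat_lit 16) (.e (nat_lit 286727) (nat_lit 0) (.e (nat_lit 6149) (nat_lit 332) (.e (nat_lit 7936) (nat_lit 104) .nil)))))))) (.g (nat_lit 6) .nil .nil))) 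
(.lf (nat_lit 289268) (.g (nat_lit 813) (.e (nat_lit 303114) (nat_lit 1) (.e (nat_lit 164182) (nat_lit 154) (.e (nat_lit 57415) (nat_lit 12) (.e (nat_lit 336219) (nat_lit 13) .nil)))) .nil)))) (.nd (nat_lit 4) (.nd (nat_lit 5) 
(.lf (nat_lit 289228) (.g (nat_lit 2833) (.e (nat_lit 303111) (nat_lit 0) (.e (nat_lit 3390) (nat_lit 210) (.e (nat_lit 639021) (nat_lit 16) (.e (nat_lit 65586) (nat_lit 7) (.e (nat_lit 319531) (nat_lit 16) (.e (nat_lit 286741) (nat_lit 8) (.e (nat_lit 335616) (nat_lit 18) .nil))))))) (.g (nat_lit 5) .nil .nil))) 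
(.lf (nat_lit 289260) (.g (nat_lit 1339) (.e (nat_lit 303114) (nat_lit 1) (.e (nat_lit 164179) (nat_lit 154) (.e (nat_lit 57346) (nat_lit 0) (.e (nat_lit 6472) (nat_lit 343) .nil)))) .nil))) (.nd (nat_lit 5) 
(.lf (nat_lit 289244) (.g (nat_lit 3049) (.e (nat_lit 303111) (nat_lit 0) (.e (nat_lit 3459) (nat_lit 216) (.e (nat_lit 688177) (nat_lit 16) (.e (nat_lit 65627) (nat_lit 13) (.e (nat_lit 393260) (nat_lit 21) (.e (nat_lit 409646) (nat_lit 18) .nil)))))) (.g (nat_lit 6) .nil .nil))) 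
(.lf (nat_lit 289276) (.g (nat_lit 1616) (.e (nat_lit 303115) (nat_lit 1) (.e (nat_lit 164151) (nat_lit 152) (.e (nat_lit 1217) (nat_lit 90) (.e (nat_lit 81925) (nat_lit 11) (.e (nat_lit 426172) (nat_lit 7) (.e (nat_lit 417536) (nat_lit 18) .nil)))))) (.g (nat_lit 5) .nil .nil))))))) (.nd (nat_lit 2) (.nd (nat_lit 3) (.nd (nat_lit 4) (.nd (nat_lit 5) 
(.lf (nat_lit 289218) (.g (nat_lit 2091) (.e (nat_lit 303111) (nat_lit 0) (.e (nat_lit 3390) (nat_lit 210) (.e (nat_lit 639021) (nat_lit 16) (.e (nat_lit 65583) (nat_lit 7) (.e (nat_lit 319530) (nat_lit 16) (.e (nat_lit 286739) (nat_lit 7) (.e (nat_lit 327424) (nat_lit 18) .nil))))))) (.g (nat_lit 6) .nil .nil))) 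
(.lf (nat_lit 289250) (.g (nat_lit 1877) (.e (nat_lit 303112) (nat_lit 0) (.e (nat_lit 3252) (nat_lit 197) (.e (nat_lit 532547) (nat_lit 11) (.e (nat_lit 352312) (nat_lit 22) (.e (nat_lit 90165) (nat_lit 12) .nil))))) .nil))) (.nd (nat_lit 5) 
(.lf (nat_lit 289234) (.g (nat_lit 3345) (.e (nat_lit 303111) (nat_lit 0) (.e (nat_lit 3391) (nat_lit 210) (.e (nat_lit 639021) (nat_lit 16) (.e (nat_lit 65586) (nat_lit 7) (.e (nat_lit 319531) (nat_lit 16) (.e (nat_lit 286727) (nat_lit 0) (.e (nat_lit 6126) (nat_lit 332) (.e (nat_lit 7936) (nat_lit 104) .nil)))))))) (.g (nat_lit 6) .nil .nil))) 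
(.lf (nat_lit 289266) (.g (nat_lit 1060) (.e (nat_lit 303114) (nat_lit 1) (.e (nat_lit 164182) (nat_lit 154) (.e (nat_lit 57411) (nat_lit 12) (.e (nat_lit 336115) (nat_lit 9) .nil)))) .nil)))) (.nd (nat_lit 4) (.nd (nat_lit 5) 
(.lf (nat_lit 289226) (.g (nat_lit 3543) (.e (nat_lit 303111) (nat_lit 0) (.e (nat_lit 3390) (nat_lit 210) (.e (nat_lit 639021) (nat_lit 16) (.e (nat_lit 65586) (nat_lit 7) (.e (nat_lit 319531) (nat_lit 16) (.e (nat_lit 286727) (nat_lit 0) (.e (nat_lit 6165) (nat_lit 332) (.e (nat_lit 7936) (nat_lit 104) .nil)))))))) (.g (nat_lit 6) .nil .nil))) 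
(.lf (nat_lit 289258) (.g (nat_lit 983) (.e (nat_lit 303114) (nat_lit 1) (.e (nat_lit 164177) (nat_lit 154) (.e (nat_lit 57437) (nat_lit 17) (.e (nat_lit 376842) (nat_lit 11) .nil)))) .nil))) (.nd (nat_lit 5) 
(.lf (nat_lit 289242) (.g (nat_lit 408) (.e (nat_lit 303111) (nat_lit 0) (.e (nat_lit 3459) (nat_lit 216) (.e (nat_lit 688177) (nat_lit 16) .nil))) .nil)) 
(.lf (nat_lit 289274) (.g (nat_lit 641) (.e (nat_lit 303115) (nat_lit 1) (.e (nat_lit 164150) (nat_lit 152) (.e (nat_lit 1216) (nat_lit 90) (.e (nat_lit 81926) (nat_lit 11) .nil)))) .nil))))) (.nd (nat_lit 3) (.nd (nat_lit 4) (.nd (nat_lit 5) 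
(.lf (nat_lit 289222) (.g (nat_lit 3625) (.e (nat_lit 303111) (nat_lit 0) (.e (nat_lit 3390) (nat_lit 210) (.e (nat_lit 639021) (nat_lit 16) (.e (nat_lit 65586) (nat_lit 7) (.e (nat_lit 319531) (nat_lit 16) (.e (nat_lit 286727) (nat_lit 0) (.e (nat_lit 6126) (nat_lit 332) (.e (nat_lit 7936) (nat_lit 104) .nil)))))))) (.g (nat_lit 6) .nil .nil))) 
(.lf (nat_lit 289254) (.g (nat_lit 670) (.e (nat_lit 303114) (nat_lit 1) (.e (nat_lit 164151) (nat_lit 152) (.e (nat_lit 1216) (nat_lit 90) (.e (nat_lit 81926) (nat_lit 11) .nil)))) .nil))) (.nd (nat_lit 5) 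
(.lf (nat_lit 289238) (.g (nat_lit 3263) (.e (nat_lit 303111) (nat_lit 0) (.e (nat_lit 3391) (nat_lit 210) (.e (nat_lit 639021) (nat_lit 16) (.e (nat_lit 65586) (nat_lit 7) (.e (nat_lit 319531) (nat_lit 16) (.e (nat_lit 286727) (nat_lit 0) (.e (nat_lit 6165) (nat_lit 332) (.e (nat_lit 7936) (nat_lit 104) .nil)))))))) (.g (nat_lit 6) .nil .nil))) 
(.lf (nat_lit 289270) (.g (nat_lit 1291) (.e (nat_lit 303114) (nat_lit 1) (.e (nat_lit 164182) (nat_lit 154) (.e (nat_lit 57417) (nat_lit 12) (.e (nat_lit 336209) (nat_lit 13) .nil)))) .nil)))) (.nd (nat_lit 4) (.nd (nat_lit 5) 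
(.lf (nat_lit 289230) (.g (nat_lit 2815) (.e (nat_lit 303111) (nat_lit 0) (.e (nat_lit 3391) (nat_lit 210) (.e (nat_lit 639021) (nat_lit 16) (.e (nat_lit 65583) (nat_lit 7) (.e (nat_lit 319530) (nat_lit 16) (.e (nat_lit 286727) (nat_lit 0) (.e (nat_lit 6126) (nat_lit 332) (.e (nat_lit 7936) (nat_lit 104) .nil)))))))) (.g (nat_lit 6) .nil .nil))) 
(.lf (nat_lit 289262) (.g (nat_lit 2392) (.e (nat_lit 303114) (nat_lit 1) (.e (nat_lit 164179) (nat_lit 154) (.e (nat_lit 57411) (nat_lit 12) (.e (nat_lit 336210) (nat_lit 13) .nil)))) .nil))) (.nd (nat_lit 5) 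
(.lf (nat_lit 289246) (.g (nat_lit 1456) (.e (nat_lit 303111) (nat_lit 0) (.e (nat_lit 3469) (nat_lit 217) (.e (nat_lit 696344) (nat_lit 8) (.e (nat_lit 172121) (nat_lit 13) .nil)))) .nil)) 
(.lf (nat_lit 289278) (.g (nat_lit 1359) (.e (nat_lit 303115) (nat_lit 1) (.e (nat_lit 164159) (nat_lit 152) (.e (nat_lit 1296) (nat_lit 96) (.e (nat_lit 131127) (nat_lit 13) (.e (nat_lit 393260) (nat_lit 21) (.e (nat_lit 417536) (nat_lit 18) .nil)))))) (.g (nat_lit 5) .nil .nil)))))))) (.nd (nat_lit 1) (.nd (nat_lit 2) (.nd (nat_lit 3) (.nd (nat_lit 4) (.nd (nat_lit 5) 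
(.lf (nat_lit 289217) (.g (nat_lit 3155) (.e (nat_lit 303111) (nat_lit 0) (.e (nat_lit 3390) (nat_lit 210) (.e (nat_lit 639021) (nat_lit 16) (.e (nat_lit 65583) (nat_lit 7) (.e (nat_lit 319530) (nat_lit 16) (.e (nat_lit 286727) (nat_lit 0) (.e (nat_lit 6165) (nat_lit 332) (.e (nat_lit 7936) (nat_lit 104) .nil)))))))) (.g (nat_lit 6) .nil .nil))) 
(.lf (nat_lit 289249) (.g (nat_lit 1804) (.e (nat_lit 303112) (nat_lit 0) (.e (nat_lit 2478) (nat_lit 157) (.e (nat_lit 6387) (nat_lit 338) (.e (nat_lit 8210) (nat_lit 8) (.e (nat_lit 294960) (nat_lit 13) (.e (nat_lit 393260) (nat_lit 21) (.e (nat_lit 417536) (nat_lit 18) .nil))))))) (.g (nat_lit 6) .nil .nil)))) (.nd (nat_lit 5) 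
(.lf (nat_lit 289233) (.g (nat_lit 3333) (.e (nat_lit 303111) (nat_lit 0) (.e (nat_lit 3391) (nat_lit 210) (.e (nat_lit 639021) (nat_lit 16) (.e (nat_lit 65586) (nat_lit 7) (.e (nat_lit 319531) (nat_lit 16) (.e (nat_lit 286721) (nat_lit 0) (.e (nat_lit 6113) (nat_lit 332) (.e (nat_lit 7936) (nat_lit 104) .nil)))))))) (.g (nat_lit 7) .nil .nil))) 
(.lf (nat_lit 289265) (.g (nat_lit 2520) (.e (nat_lit 303114) (nat_lit 1) (.e (nat_lit 164179) (nat_lit 154) (.e (nat_lit 57437) (nat_lit 17) (.e (nat_lit 376842) (nat_lit 11) (.e (nat_lit 426172) (nat_lit 7) .nil))))) .nil)))) (.nd (nat_lit 4) (.nd (nat_lit 5) 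
(.lf (nat_lit 289225) (.g (nat_lit 3271) (.e (nat_lit 303111) (nat_lit 0) (.e (nat_lit 3390) (nat_lit 210) (.e (nat_lit 639021) (nat_lit 16) (.e (nat_lit 65586) (nat_lit 7) (.e (nat_lit 319531) (nat_lit 16) (.e (nat_lit 286727) (nat_lit 0) (.e (nat_lit 6150) (nat_lit 332) (.e (nat_lit 7936) (nat_lit 104) .nil)))))))) (.g (nat_lit 7) .nil .nil))) 
(.lf (nat_lit 289257) (.g (nat_lit 2933) (.e (nat_lit 303114) (nat_lit 1) (.e (nat_lit 164175) (nat_lit 153) (.e (nat_lit 8192) (nat_lit 0) (.e (nat_lit 5355) (nat_lit 298) (.e (nat_lit 1661) (nat_lit 115) (.e (nat_lit 393260) (nat_lit 21) (.e (nat_lit 409648) (nat_lit 18) .nil))))))) (.g (nat_lit 7) .nil .nil)))) (.nd (nat_lit 5) 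
(.lf (nat_lit 289241) (.g (nat_lit 2476) (.e (nat_lit 303111) (nat_lit 0) (.e (nat_lit 3459) (nat_lit 216) (.e (nat_lit 688176) (nat_lit 16) (.e (nat_lit 65626) (nat_lit 13) (.e (nat_lit 393260) (nat_lit 21) (.e (nat_lit 409646) (nat_lit 18) .nil)))))) (.g (nat_lit 6) .nil .nil))) 
(.lf (nat_lit 289273) (.g (nat_lit 966) (.e (nat_lit 303115) (nat_lit 1) (.e (nat_lit 164150) (nat_lit 152) (.e (nat_lit 1216) (nat_lit 90) (.e (nat_lit 81925) (nat_lit 11) (.e (nat_lit 426172) (nat_lit 7) .nil))))) .nil))))) (.nd (nat_lit 3) (.nd (nat_lit 4) (.nd (nat_lit 5) 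
(.lf (nat_lit 289221) (.g (nat_lit 3613) (.e (nat_lit 303111) (nat_lit 0) (.e (nat_lit 3390) (nat_lit 210) (.e (nat_lit 639021) (nat_lit 16) (.e (nat_lit 65586) (nat_lit 7) (.e (nat_lit 319531) (nat_lit 16) (.e (nat_lit 286721) (nat_lit 0) (.e (nat_lit 6113) (nat_lit 332) (.e (nat_lit 7936) (nat_lit 104) .nil)))))))) (.g (nat_lit 7) .nil .nil))) 
(.lf (nat_lit 289253) (.g (nat_lit 1348) (.e (nat_lit 303112) (nat_lit 0) (.e (nat_lit 3452) (nat_lit 216) (.e (nat_lit 688178) (nat_lit 16) (.e (nat_lit 65626) (nat_lit 13) (.e (nat_lit 393260) (nat_lit 21) (.e (nat_lit 417536) (nat_lit 18) .nil)))))) (.g (nat_lit 4) .nil .nil)))) (.nd (nat_lit 5) 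
(.lf (nat_lit 289237) (.g (nat_lit 2991) (.e (nat_lit 303111) (nat_lit 0) (.e (nat_lit 3391) (nat_lit 210) (.e (nat_lit 639021) (nat_lit 16) (.e (nat_lit 65586) (nat_lit 7) (.e (nat_lit 319531) (nat_lit 16) (.e (nat_lit 286727) (nat_lit 0) (.e (nat_lit 6150) (nat_lit 332) (.e (nat_lit 7936) (nat_lit 104) .nil)))))))) (.g (nat_lit 7) .nil .nil))) 
(.lf (nat_lit 289269) (.g (nat_lit 512) (.e (nat_lit 303114) (nat_lit 1) (.e (nat_lit 164182) (nat_lit 154) (.e (nat_lit 57416) (nat_lit 12) .nil))) .nil)))) (.nd (nat_lit 4) (.nd (nat_lit 5) 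
(.lf (nat_lit 289229) (.g (nat_lit 2246) (.e (nat_lit 303111) (nat_lit 0) (.e (nat_lit 3390) (nat_lit 210) (.e (nat_lit 639021) (nat_lit 16) (.e (nat_lit 65586) (nat_lit 7) (.e (nat_lit 319534) (nat_lit 16) (.e (nat_lit 286740) (nat_lit 7) (.e (nat_lit 327424) (nat_lit 18) .nil))))))) (.g (nat_lit 5) .nil .nil))) 
(.lf (nat_lit 289261) (.g (nat_lit 2392) (.e (nat_lit 303114) (nat_lit 1) (.e (nat_lit 164179) (nat_lit 154) (.e (nat_lit 57411) (nat_lit 12) (.e (nat_lit 336114) (nat_lit 9) .nil)))) .nil))) (.nd (nat_lit 5) 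
(.lf (nat_lit 289245) (.g (nat_lit 2744) (.e (nat_lit 303111) (nat_lit 0) (.e (nat_lit 3459) (nat_lit 216) (.e (nat_lit 688178) (nat_lit 16) (.e (nat_lit 65626) (nat_lit 13) (.e (nat_lit 393260) (nat_lit 21) (.e (nat_lit 409646) (nat_lit 18) .nil)))))) (.g (nat_lit 0) .nil .nil))) 
(.lf (nat_lit 289277) (.g (nat_lit 1430) (.e (nat_lit 303115) (nat_lit 1) (.e (nat_lit 164155) (nat_lit 152) (.e (nat_lit 1201) (nat_lit 88) (.e (nat_lit 65627) (nat_lit 13) (.e (nat_lit 393260) (nat_lit 21) .nil))))) .nil)))))) (.nd (nat_lit 2) (.nd (nat_lit 3) (.nd (nat_lit 4) (.nd (nat_lit 5) 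
(.lf (nat_lit 289219) (.g (nat_lit 2207) (.e (nat_lit 303111) (nat_lit 0) (.e (nat_lit 3390) (nat_lit 210) (.e (nat_lit 639021) (nat_lit 16) (.e (nat_lit 65583) (nat_lit 7) (.e (nat_lit 319530) (nat_lit 16) (.e (nat_lit 286740) (nat_lit 7) (.e (nat_lit 327424) (nat_lit 18) .nil))))))) (.g (nat_lit 6) .nil .nil))) 
(.lf (nat_lit 289251) (.g (nat_lit 1422) (.e (nat_lit 303112) (nat_lit 0) (.e (nat_lit 3252) (nat_lit 197) (.e (nat_lit 532560) (nat_lit 14) (.e (nat_lit 376867) (nat_lit 23) (.e (nat_lit 98349) (nat_lit 24) .nil))))) .nil))) (.nd (nat_lit 5) 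
(.lf (nat_lit 289235) (.g (nat_lit 2361) (.e (nat_lit 303111) (nat_lit 0) (.e (nat_lit 3391) (nat_lit 210) (.e (nat_lit 639021) (nat_lit 16) (.e (nat_lit 65586) (nat_lit 7) (.e (nat_lit 319531) (nat_lit 16) (.e (nat_lit 286727) (nat_lit 0) (.e (nat_lit 6136) (nat_lit 332) (.e (nat_lit 7936) (nat_lit 104) .nil)))))))) (.g (nat_lit 6) .nil .nil))) 
(.lf (nat_lit 289267) (.g (nat_lit 1526) (.e (nat_lit 303114) (nat_lit 1) (.e (nat_lit 164182) (nat_lit 154) (.e (nat_lit 57411) (nat_lit 12) (.e (nat_lit 336211) (nat_lit 13) (.e (nat_lit 393263) (nat_lit 22) .nil))))) .nil)))) (.nd (nat_lit 4) (.nd (nat_lit 5) 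
(.lf (nat_lit 289227) (.g (nat_lit 2786) (.e (nat_lit 303111) (nat_lit 0) (.e (nat_lit 3390) (nat_lit 210) (.e (nat_lit 639021) (nat_lit 16) (.e (nat_lit 65586) (nat_lit 7) (.e (nat_lit 319531) (nat_lit 16) (.e (nat_lit 286740) (nat_lit 7) (.e (nat_lit 327424) (nat_lit 18) .nil))))))) (.g (nat_lit 6) .nil .nil))) 
(.lf (nat_lit 289259) (.g (nat_lit 1789) (.e (nat_lit 303114) (nat_lit 1) (.e (nat_lit 164179) (nat_lit 154) (.e (nat_lit 57346) (nat_lit 0) (.e (nat_lit 6456) (nat_lit 343) (.e (nat_lit 1661) (nat_lit 115) .nil))))) .nil))) (.nd (nat_lit 5) 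
(.lf (nat_lit 289243) (.g (nat_lit 2855) (.e (nat_lit 303111) (nat_lit 0) (.e (nat_lit 3459) (nat_lit 216) (.e (nat_lit 688177) (nat_lit 16) (.e (nat_lit 65625) (nat_lit 13) (.e (nat_lit 393260) (nat_lit 21) (.e (nat_lit 409646) (nat_lit 18) .nil)))))) (.g (nat_lit 6) .nil .nil))) 
(.lf (nat_lit 289275) (.g (nat_lit 1454) (.e (nat_lit 303115) (nat_lit 1) (.e (nat_lit 164150) (nat_lit 152) (.e (nat_lit 1217) (nat_lit 90) (.e (nat_lit 81925) (nat_lit 11) (.e (nat_lit 426172) (nat_lit 7) (.e (nat_lit 417536) (nat_lit 18) .nil)))))) (.g (nat_lit 5) .nil .nil)))))) (.nd (nat_lit 3) (.nd (nat_lit 4) (.nd (nat_lit 5) 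
(.lf (nat_lit 289223) (.g (nat_lit 2641) (.e (nat_lit 303111) (nat_lit 0) (.e (nat_lit 3390) (nat_lit 210) (.e (nat_lit 639021) (nat_lit 16) (.e (nat_lit 65586) (nat_lit 7) (.e (nat_lit 319531) (nat_lit 16) (.e (nat_lit 286727) (nat_lit 0) (.e (nat_lit 6136) (nat_lit 332) (.e (nat_lit 7936) (nat_lit 104) .nil)))))))) (.g (nat_lit 6) .nil .nil))) 
(.lf (nat_lit 289255) (.g (nat_lit 754) (.e (nat_lit 303114) (nat_lit 1) (.e (nat_lit 164163) (nat_lit 152) (.e (nat_lit 1220) (nat_lit 90) (.e (nat_lit 81926) (nat_lit 11) .nil)))) .nil))) (.nd (nat_lit 5) 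
(.lf (nat_lit 289239) (.g (nat_lit 2506) (.e (nat_lit 303111) (nat_lit 0) (.e (nat_lit 3391) (nat_lit 210) (.e (nat_lit 639021) (nat_lit 16) (.e (nat_lit 65586) (nat_lit 7) (.e (nat_lit 319531) (nat_lit 16) (.e (nat_lit 286740) (nat_lit 7) (.e (nat_lit 327424) (nat_lit 18) .nil))))))) (.g (nat_lit 6) .nil .nil))) 
(.lf (nat_lit 289271) (.g (nat_lit 2780) (.e (nat_lit 303114) (nat_lit 1) (.e (nat_lit 164182) (nat_lit 154) (.e (nat_lit 57418) (nat_lit 12) (.e (nat_lit 336222) (nat_lit 13) (.e (nat_lit 393260) (nat_lit 21) (.e (nat_lit 409648) (nat_lit 18) .nil)))))) (.g (nat_lit 6) .nil .nil))))) (.nd (nat_lit 4) (.nd (nat_lit 5) 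
(.lf (nat_lit 289231) (.g (nat_lit 2461) (.e (nat_lit 303111) (nat_lit 0) (.e (nat_lit 3391) (nat_lit 210) (.e (nat_lit 639021) (nat_lit 16) (.e (nat_lit 65583) (nat_lit 7) (.e (nat_lit 319530) (nat_lit 16) (.e (nat_lit 286727) (nat_lit 0) (.e (nat_lit 6150) (nat_lit 332) (.e (nat_lit 7936) (nat_lit 104) .nil)))))))) (.g (nat_lit 6) .nil .nil))) 
(.lf (nat_lit 289263) (.g (nat_lit 816) (.e (nat_lit 303114) (nat_lit 1) (.e (nat_lit 164179) (nat_lit 154) (.e (nat_lit 57412) (nat_lit 12) .nil))) .nil))) (.nd (nat_lit 5) 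
(.lf (nat_lit 289247) (.g (nat_lit 436) (.e (nat_lit 303111) (nat_lit 0) (.e (nat_lit 3469) (nat_lit 217) (.e (nat_lit 696361) (nat_lit 16) .nil))) .nil)) 
(.lf (nat_lit 289279) (.g (nat_lit 1215) (.e (nat_lit 303115) (nat_lit 1) (.e (nat_lit 164162) (nat_lit 152) (.e (nat_lit 1220) (nat_lit 90) (.e (nat_lit 81926) (nat_lit 11) .nil)))) .nil))))))))

noncomputable def tv3657 : DT := (.nd (nat_lit 0) (.nd (nat_lit 1) (.nd (nat_lit 2) (.nd (nat_lit 3) (.nd (nat_lit 4) (.nd (nat_lit 5) (.nd (nat_lit 6) 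
(.lf (nat_lit 289280) (.g (nat_lit 1758) (.e (nat_lit 303115) (nat_lit 1) (.e (nat_lit 164162) (nat_lit 152) (.e (nat_lit 1220) (nat_lit 90) (.e (nat_lit 81926) (nat_lit 11) (.e (nat_lit 426172) (nat_lit 7) .nil))))) .nil)) 
(.lf (nat_lit 289344) (.g (nat_lit 3833) (.e (nat_lit 303115) (nat_lit 1) (.e (nat_lit 164196) (nat_lit 158) (.e (nat_lit 1220) (nat_lit 90) (.e (nat_lit 81956) (nat_lit 23) (.e (nat_lit 98309) (nat_lit 0) (.e (nat_lit 6112) (nat_lit 332) (.e (nat_lit 1374) (nat_lit 104) .nil))))))) (.g (nat_lit 4) .nil .nil)))) (.nd (nat_lit 6) 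
(.lf (nat_lit 289312) (.g (nat_lit 2512) (.e (nat_lit 303115) (nat_lit 1) (.e (nat_lit 164179) (nat_lit 154) (.e (nat_lit 57435) (nat_lit 17) (.e (nat_lit 376842) (nat_lit 11) (.e (nat_lit 426024) (nat_lit 0) .nil))))) .nil)) 
(.lf (nat_lit 289376) (.g (nat_lit 1665) (.e (nat_lit 303116) (nat_lit 2) (.e (nat_lit 196672) (nat_lit 15) (.e (nat_lit 81951) (nat_lit 22) (.e (nat_lit 90130) (nat_lit 9) .nil)))) .nil)))) (.nd (nat_lit 5) (.nd (nat_lit 6) 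
(.lf (nat_lit 289296) (.g (nat_lit 1803) (.e (nat_lit 303115) (nat_lit 1) (.e (nat_lit 164178) (nat_lit 154) (.e (nat_lit 57437) (nat_lit 17) (.e (nat_lit 376842) (nat_lit 11) (.e (nat_lit 426181) (nat_lit 8) .nil))))) .nil)) 
(.lf (nat_lit 289360) (.g (nat_lit 2393) (.e (nat_lit 303116) (nat_lit 2) (.e (nat_lit 196666) (nat_lit 13) (.e (nat_lit 65610) (nat_lit 10) (.e (nat_lit 344117) (nat_lit 21) (.e (nat_lit 516096) (nat_lit 0) .nil))))) .nil))) (.nd (nat_lit 6) 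
(.lf (nat_lit 289328) (.g (nat_lit 1872) (.e (nat_lit 303115) (nat_lit 1) (.e (nat_lit 164182) (nat_lit 154) (.e (nat_lit 57410) (nat_lit 12) (.e (nat_lit 336211) (nat_lit 13) (.e (nat_lit 393238) (nat_lit 17) (.e (nat_lit 6989) (nat_lit 377) (.e (nat_lit 2810) (nat_lit 180) .nil))))))) (.g (nat_lit 4) .nil .nil))) 
(.lf (nat_lit 289392) (.g (nat_lit 1695) (.e (nat_lit 303116) (nat_lit 2) (.e (nat_lit 196673) (nat_lit 15) (.e (nat_lit 81956) (nat_lit 23) (.e (nat_lit 98352) (nat_lit 25) .nil)))) .nil))))) (.nd (nat_lit 4) (.nd (nat_lit 5) (.nd (nat_lit 6) 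
(.lf (nat_lit 289288) (.g (nat_lit 1455) (.e (nat_lit 303115) (nat_lit 1) (.e (nat_lit 164178) (nat_lit 154) (.e (nat_lit 57424) (nat_lit 14) (.e (nat_lit 352273) (nat_lit 11) .nil)))) .nil)) 
(.lf (nat_lit 289352) (.g (nat_lit 2688) (.e (nat_lit 303115) (nat_lit 1) (.e (nat_lit 164424) (nat_lit 272) (.e (nat_lit 1200) (nat_lit 88) (.e (nat_lit 65628) (nat_lit 14) (.e (nat_lit 401454) (nat_lit 12) (.e (nat_lit 483072) (nat_lit 16) (.e (nat_lit 2797) (nat_lit 180) .nil))))))) (.g (nat_lit 5) .nil .nil)))) (.nd (nat_lit 6) 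
(.lf (nat_lit 289320) (.g (nat_lit 1105) (.e (nat_lit 303115) (nat_lit 1) (.e (nat_lit 164179) (nat_lit 154) (.e (nat_lit 57436) (nat_lit 17) (.e (nat_lit 384768) (nat_lit 11) .nil)))) .nil)) 
(.lf (nat_lit 289384) (.g (nat_lit 1389) (.e (nat_lit 303116) (nat_lit 2) (.e (nat_lit 196672) (nat_lit 15) (.e (nat_lit 81954) (nat_lit 23) (.e (nat_lit 98325) (nat_lit 17) (.e (nat_lit 7016) (nat_lit 377) .nil))))) .nil)))) (.nd (nat_lit 5) (.nd (nat_lit 6) 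
(.lf (nat_lit 289304) (.g (nat_lit 2382) (.e (nat_lit 303115) (nat_lit 1) (.e (nat_lit 164179) (nat_lit 154) (.e (nat_lit 57411) (nat_lit 12) (.e (nat_lit 336210) (nat_lit 13) (.e (nat_lit 393260) (nat_lit 21) .nil))))) .nil)) 
(.lf (nat_lit 289368) (.g (nat_lit 2750) (.e (nat_lit 303116) (nat_lit 2) (.e (nat_lit 196666) (nat_lit 13) (.e (nat_lit 65610) (nat_lit 10) (.e (nat_lit 344129) (nat_lit 26) (.e (nat_lit 557084) (nat_lit 10) .nil))))) .nil))) (.nd (nat_lit 6) 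
(.lf (nat_lit 289336) (.g (nat_lit 1614) (.e (nat_lit 303115) (nat_lit 1) (.e (nat_lit 164183) (nat_lit 154) (.e (nat_lit 57411) (nat_lit 12) (.e (nat_lit 336211) (nat_lit 13) (.e (nat_lit 393260) (nat_lit 21) .nil))))) .nil)) 
(.lf (nat_lit 289400) (.g (nat_lit 2132) (.e (nat_lit 303117) (nat_lit 2) (.e (nat_lit 196624) (nat_lit 9) (.e (nat_lit 1615) (nat_lit 113) (.e (nat_lit 376868) (nat_lit 23) (.e (nat_lit 98350) (nat_lit 24) (.e (nat_lit 417536) (nat_lit 18) .nil)))))) (.g (nat_lit 5) .nil .nil))))))) (.nd (nat_lit 3) (.nd (nat_lit 4) (.nd (nat_lit 5) (.nd (nat_lit 6) 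
(.lf (nat_lit 289284) (.g (nat_lit 2035) (.e (nat_lit 303115) (nat_lit 1) (.e (nat_lit 164175) (nat_lit 153) (.e (nat_lit 8210) (nat_lit 8) (.e (nat_lit 294960) (nat_lit 13) (.e (nat_lit 393238) (nat_lit 17) (.e (nat_lit 6989) (nat_lit 377) (.e (nat_lit 2810) (nat_lit 180) .nil))))))) (.g (nat_lit 0) .nil .nil))) 
(.lf (nat_lit 289348) (.g (nat_lit 663) (.e (nat_lit 303115) (nat_lit 1) (.e (nat_lit 164327) (nat_lit 230) (.e (nat_lit 163886) (nat_lit 5) .nil))) .nil))) (.nd (nat_lit 6) 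
(.lf (nat_lit 289316) (.g (nat_lit 2105) (.e (nat_lit 303115) (nat_lit 1) (.e (nat_lit 164179) (nat_lit 154) (.e (nat_lit 57436) (nat_lit 17) (.e (nat_lit 376838) (nat_lit 11) (.e (nat_lit 426172) (nat_lit 7) (.e (nat_lit 417536) (nat_lit 18) .nil)))))) (.g (nat_lit 5) .nil .nil))) 
(.lf (nat_lit 289380) (.g (nat_lit 1096) (.e (nat_lit 303116) (nat_lit 2) (.e (nat_lit 196672) (nat_lit 15) (.e (nat_lit 81954) (nat_lit 23) (.e (nat_lit 98320) (nat_lit 17) .nil)))) .nil)))) (.nd (nat_lit 5) (.nd (nat_lit 6) 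
(.lf (nat_lit 289300) (.g (nat_lit 1585) (.e (nat_lit 303115) (nat_lit 1) (.e (nat_lit 164179) (nat_lit 154) (.e (nat_lit 57411) (nat_lit 12) (.e (nat_lit 336019) (nat_lit 3) (.e (nat_lit 98342) (nat_lit 20) .nil))))) .nil)) 
(.lf (nat_lit 289364) (.g (nat_lit 1872) (.e (nat_lit 303116) (nat_lit 2) (.e (nat_lit 196666) (nat_lit 13) (.e (nat_lit 65610) (nat_lit 10) (.e (nat_lit 344117) (nat_lit 21) (.e (nat_lit 516102) (nat_lit 0) .nil))))) .nil))) (.nd (nat_lit 6) 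
(.lf (nat_lit 289332) (.g (nat_lit 1993) (.e (nat_lit 303115) (nat_lit 1) (.e (nat_lit 164182) (nat_lit 154) (.e (nat_lit 57411) (nat_lit 12) (.e (nat_lit 336210) (nat_lit 13) (.e (nat_lit 393260) (nat_lit 21) .nil))))) .nil)) 
(.lf (nat_lit 289396) (.g (nat_lit 268) (.e (nat_lit 303117) (nat_lit 2) (.e (nat_lit 196624) (nat_lit 9) (.e (nat_lit 1615) (nat_lit 113) .nil))) .nil))))) (.nd (nat_lit 4) (.nd (nat_lit 5) (.nd (nat_lit 6) 
(.lf (nat_lit 289292) (.g (nat_lit 1305) (.e (nat_lit 303115) (nat_lit 1) (.e (nat_lit 164178) (nat_lit 154) (.e (nat_lit 57437) (nat_lit 17) (.e (nat_lit 376841) (nat_lit 11) .nil)))) .nil)) 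
(.lf (nat_lit 289356) (.g (nat_lit 468) (.e (nat_lit 303116) (nat_lit 2) (.e (nat_lit 196630) (nat_lit 9) (.e (nat_lit 1596) (nat_lit 111) .nil))) .nil))) (.nd (nat_lit 6) 
(.lf (nat_lit 289324) (.g (nat_lit 2114) (.e (nat_lit 303115) (nat_lit 1) (.e (nat_lit 164179) (nat_lit 154) (.e (nat_lit 57437) (nat_lit 17) (.e (nat_lit 376842) (nat_lit 11) (.e (nat_lit 426172) (nat_lit 7) (.e (nat_lit 417536) (nat_lit 18) .nil)))))) (.g (nat_lit 4) .nil .nil))) 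
(.lf (nat_lit 289388) (.g (nat_lit 1791) (.e (nat_lit 303116) (nat_lit 2) (.e (nat_lit 196672) (nat_lit 15) (.e (nat_lit 81956) (nat_lit 23) (.e (nat_lit 98349) (nat_lit 24) .nil)))) .nil)))) (.nd (nat_lit 5) (.nd (nat_lit 6) 
(.lf (nat_lit 289308) (.g (nat_lit 1674) (.e (nat_lit 303115) (nat_lit 1) (.e (nat_lit 164179) (nat_lit 154) (.e (nat_lit 57424) (nat_lit 14) (.e (nat_lit 352274) (nat_lit 11) .nil)))) .nil)) 
(.lf (nat_lit 289372) (.g (nat_lit 3160) (.e (nat_lit 303116) (nat_lit 2) (.e (nat_lit 196666) (nat_lit 13) (.e (nat_lit 65628) (nat_lit 14) (.e (nat_lit 401425) (nat_lit 2) (.e (nat_lit 196628) (nat_lit 9) .nil))))) .nil))) (.nd (nat_lit 6) 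
(.lf (nat_lit 289340) (.g (nat_lit 1970) (.e (nat_lit 303115) (nat_lit 1) (.e (nat_lit 164185) (nat_lit 155) (.e (nat_lit 122919) (nat_lit 15) (.e (nat_lit 360451) (nat_lit 0) (.e (nat_lit 6940) (nat_lit 375) .nil))))) .nil)) 
(.lf (nat_lit 289404) (.g (nat_lit 482) (.e (nat_lit 303117) (nat_lit 2) (.e (nat_lit 196630) (nat_lit 9) (.e (nat_lit 1453) (nat_lit 108) .nil))) .nil))))))) (.nd (nat_lit 2) (.nd (nat_lit 3) (.nd (nat_lit 4) (.nd (nat_lit 5) (.nd (nat_lit 6) 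
(.lf (nat_lit 289282) (.g (nat_lit 3136) (.e (nat_lit 303115) (nat_lit 1) (.e (nat_lit 164175) (nat_lit 153) (.e (nat_lit 8192) (nat_lit 0) (.e (nat_lit 5355) (nat_lit 298) (.e (nat_lit 1661) (nat_lit 115) (.e (nat_lit 393260) (nat_lit 21) (.e (nat_lit 409648) (nat_lit 18) .nil))))))) (.g (nat_lit 7) .nil .nil))) 
(.lf (nat_lit 289346) (.g (nat_lit 660) (.e (nat_lit 303115) (nat_lit 1) (.e (nat_lit 164327) (nat_lit 230) (.e (nat_lit 163884) (nat_lit 5) .nil))) .nil))) (.nd (nat_lit 6) 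
(.lf (nat_lit 289314) (.g (nat_lit 2494) (.e (nat_lit 303115) (nat_lit 1) (.e (nat_lit 164179) (nat_lit 154) (.e (nat_lit 57435) (nat_lit 17) (.e (nat_lit 376842) (nat_lit 11) (.e (nat_lit 426181) (nat_lit 8) .nil))))) .nil)) 
(.lf (nat_lit 289378) (.g (nat_lit 1522) (.e (nat_lit 303116) (nat_lit 2) (.e (nat_lit 196672) (nat_lit 15) (.e (nat_lit 81951) (nat_lit 22) (.e (nat_lit 90165) (nat_lit 12) (.e (nat_lit 164210) (nat_lit 176) .nil))))) .nil)))) (.nd (nat_lit 5) (.nd (nat_lit 6) 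
(.lf (nat_lit 289298) (.g (nat_lit 759) (.e (nat_lit 303115) (nat_lit 1) (.e (nat_lit 164179) (nat_lit 154) (.e (nat_lit 57353) (nat_lit 0) (.e (nat_lit 6499) (nat_lit 343) .nil)))) .nil)) 
(.lf (nat_lit 289362) (.g (nat_lit 2428) (.e (nat_lit 303116) (nat_lit 2) (.e (nat_lit 196666) (nat_lit 13) (.e (nat_lit 65610) (nat_lit 10) (.e (nat_lit 344117) (nat_lit 21) (.e (nat_lit 516098) (nat_lit 0) .nil))))) .nil))) (.nd (nat_lit 6) 
(.lf (nat_lit 289330) (.g (nat_lit 1041) (.e (nat_lit 303115) (nat_lit 1) (.e (nat_lit 164182) (nat_lit 154) (.e (nat_lit 57411) (nat_lit 12) (.e (nat_lit 336115) (nat_lit 9) .nil)))) .nil)) 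
(.lf (nat_lit 289394) (.g (nat_lit 1324) (.e (nat_lit 303117) (nat_lit 2) (.e (nat_lit 196624) (nat_lit 9) (.e (nat_lit 1577) (nat_lit 110) (.e (nat_lit 352315) (nat_lit 23) (.e (nat_lit 98325) (nat_lit 17) .nil))))) .nil))))) (.nd (nat_lit 4) (.nd (nat_lit 5) (.nd (nat_lit 6) 
(.lf (nat_lit 289290) (.g (nat_lit 947) (.e (nat_lit 303115) (nat_lit 1) (.e (nat_lit 164178) (nat_lit 154) (.e (nat_lit 57436) (nat_lit 17) (.e (nat_lit 376838) (nat_lit 11) .nil)))) .nil)) 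
(.lf (nat_lit 289354) (.g (nat_lit 591) (.e (nat_lit 303116) (nat_lit 2) (.e (nat_lit 196624) (nat_lit 9) (.e (nat_lit 1577) (nat_lit 110) .nil))) .nil))) (.nd (nat_lit 6) 
(.lf (nat_lit 289322) (.g (nat_lit 1899) (.e (nat_lit 303115) (nat_lit 1) (.e (nat_lit 164179) (nat_lit 154) (.e (nat_lit 57437) (nat_lit 17) (.e (nat_lit 376838) (nat_lit 11) (.e (nat_lit 426172) (nat_lit 7) (.e (nat_lit 417536) (nat_lit 18) .nil)))))) (.g (nat_lit 4) .nil .nil))) 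
(.lf (nat_lit 289386) (.g (nat_lit 2713) (.e (nat_lit 303116) (nat_lit 2) (.e (nat_lit 196672) (nat_lit 15) (.e (nat_lit 81954) (nat_lit 23) (.e (nat_lit 98349) (nat_lit 24) (.e (nat_lit 417536) (nat_lit 18) .nil))))) (.g (nat_lit 4) .nil .nil))))) (.nd (nat_lit 5) (.nd (nat_lit 6) 
(.lf (nat_lit 289306) (.g (nat_lit 1488) (.e (nat_lit 303115) (nat_lit 1) (.e (nat_lit 164179) (nat_lit 154) (.e (nat_lit 57423) (nat_lit 14) (.e (nat_lit 352277) (nat_lit 11) .nil)))) .nil)) 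
(.lf (nat_lit 289370) (.g (nat_lit 2075) (.e (nat_lit 303116) (nat_lit 2) (.e (nat_lit 196666) (nat_lit 13) (.e (nat_lit 65617) (nat_lit 10) (.e (nat_lit 344130) (nat_lit 26) (.e (nat_lit 557084) (nat_lit 10) .nil))))) .nil))) (.nd (nat_lit 6) 
(.lf (nat_lit 289338) (.g (nat_lit 1916) (.e (nat_lit 303115) (nat_lit 1) (.e (nat_lit 164184) (nat_lit 155) (.e (nat_lit 122919) (nat_lit 15) (.e (nat_lit 360451) (nat_lit 0) (.e (nat_lit 6869) (nat_lit 371) .nil))))) .nil)) 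
(.lf (nat_lit 289402) (.g (nat_lit 3391) (.e (nat_lit 303117) (nat_lit 2) (.e (nat_lit 196624) (nat_lit 9) (.e (nat_lit 1615) (nat_lit 113) (.e (nat_lit 376869) (nat_lit 23) (.e (nat_lit 98350) (nat_lit 24) (.e (nat_lit 409646) (nat_lit 18) .nil)))))) (.g (nat_lit 0) .nil .nil))))))) (.nd (nat_lit 3) (.nd (nat_lit 4) (.nd (nat_lit 5) (.nd (nat_lit 6) 
(.lf (nat_lit 289286) (.g (nat_lit 1068) (.e (nat_lit 303115) (nat_lit 1) (.e (nat_lit 164177) (nat_lit 154) (.e (nat_lit 57436) (nat_lit 17) (.e (nat_lit 376838) (nat_lit 11) (.e (nat_lit 426172) (nat_lit 7) .nil))))) .nil)) 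
(.lf (nat_lit 289350) (.g (nat_lit 1853) (.e (nat_lit 303115) (nat_lit 1) (.e (nat_lit 164327) (nat_lit 230) (.e (nat_lit 163886) (nat_lit 5) (.e (nat_lit 229120) (nat_lit 14) (.e (nat_lit 360451) (nat_lit 0) (.e (nat_lit 7247) (nat_lit 383) (.e (nat_lit 8213) (nat_lit 9) .nil))))))) (.g (nat_lit 5) .nil .nil)))) (.nd (nat_lit 6) 
(.lf (nat_lit 289318) (.g (nat_lit 2362) (.e (nat_lit 303115) (nat_lit 1) (.e (nat_lit 164179) (nat_lit 154) (.e (nat_lit 57436) (nat_lit 17) (.e (nat_lit 376842) (nat_lit 11) (.e (nat_lit 426172) (nat_lit 7) .nil))))) .nil)) 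
(.lf (nat_lit 289382) (.g (nat_lit 3477) (.e (nat_lit 303116) (nat_lit 2) (.e (nat_lit 196672) (nat_lit 15) (.e (nat_lit 81954) (nat_lit 23) (.e (nat_lit 98323) (nat_lit 17) (.e (nat_lit 6989) (nat_lit 377) (.e (nat_lit 2810) (nat_lit 180) .nil)))))) (.g (nat_lit 6) .nil .nil))))) (.nd (nat_lit 5) (.nd (nat_lit 6) 
(.lf (nat_lit 289302) (.g (nat_lit 1194) (.e (nat_lit 303115) (nat_lit 1) (.e (nat_lit 164179) (nat_lit 154) (.e (nat_lit 57411) (nat_lit 12) (.e (nat_lit 336115) (nat_lit 9) .nil)))) .nil)) 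
(.lf (nat_lit 289366) (.g (nat_lit 2135) (.e (nat_lit 303116) (nat_lit 2) (.e (nat_lit 196666) (nat_lit 13) (.e (nat_lit 65610) (nat_lit 10) (.e (nat_lit 344117) (nat_lit 21) (.e (nat_lit 516138) (nat_lit 7) (.e (nat_lit 417536) (nat_lit 18) .nil)))))) (.g (nat_lit 4) .nil .nil)))) (.nd (nat_lit 6) 
(.lf (nat_lit 289334) (.g (nat_lit 846) (.e (nat_lit 303115) (nat_lit 1) (.e (nat_lit 164182) (nat_lit 154) (.e (nat_lit 57415) (nat_lit 12) (.e (nat_lit 336217) (nat_lit 13) (.e (nat_lit 393260) (nat_lit 21) .nil))))) .nil)) 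
(.lf (nat_lit 289398) (.g (nat_lit 2870) (.e (nat_lit 303117) (nat_lit 2) (.e (nat_lit 196624) (nat_lit 9) (.e (nat_lit 1615) (nat_lit 113) (.e (nat_lit 376867) (nat_lit 23) (.e (nat_lit 98323) (nat_lit 17) (.e (nat_lit 6989) (nat_lit 377) (.e (nat_lit 2810) (nat_lit 180) .nil))))))) (.g (nat_lit 6) .nil .nil)))))) (.nd (nat_lit 4) (.nd (nat_lit 5) (.nd (nat_lit 6) 
(.lf (nat_lit 289294) (.g (nat_lit 3105) (.e (nat_lit 303115) (nat_lit 1) (.e (nat_lit 164178) (nat_lit 154) (.e (nat_lit 57437) (nat_lit 17) (.e (nat_lit 376842) (nat_lit 11) (.e (nat_lit 426024) (nat_lit 0) (.e (nat_lit 6989) (nat_lit 377) (.e (nat_lit 2810) (nat_lit 180) .nil))))))) (.g (nat_lit 7) .nil .nil))) 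
(.lf (nat_lit 289358) (.g (nat_lit 1134) (.e (nat_lit 303116) (nat_lit 2) (.e (nat_lit 196666) (nat_lit 13) (.e (nat_lit 65589) (nat_lit 9) (.e (nat_lit 336028) (nat_lit 3) .nil)))) .nil))) (.nd (nat_lit 6) 
(.lf (nat_lit 289326) (.g (nat_lit 910) (.e (nat_lit 303115) (nat_lit 1) (.e (nat_lit 164179) (nat_lit 154) (.e (nat_lit 57437) (nat_lit 17) (.e (nat_lit 384768) (nat_lit 12) .nil)))) .nil)) 
(.lf (nat_lit 289390) (.g (nat_lit 596) (.e (nat_lit 303116) (nat_lit 2) (.e (nat_lit 196672) (nat_lit 15) (.e (nat_lit 89856) (nat_lit 23) .nil))) .nil)))) (.nd (nat_lit 5) (.nd (nat_lit 6) 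
(.lf (nat_lit 289310) (.g (nat_lit 1337) (.e (nat_lit 303115) (nat_lit 1) (.e (nat_lit 164179) (nat_lit 154) (.e (nat_lit 57435) (nat_lit 17) (.e (nat_lit 376838) (nat_lit 11) .nil)))) .nil)) 
(.lf (nat_lit 289374) (.g (nat_lit 897) (.e (nat_lit 303116) (nat_lit 2) (.e (nat_lit 196670) (nat_lit 14) (.e (nat_lit 73792) (nat_lit 45) .nil))) .nil))) (.nd (nat_lit 6) 
(.lf (nat_lit 289342) (.g (nat_lit 2250) (.e (nat_lit 303115) (nat_lit 1) (.e (nat_lit 164185) (nat_lit 155) (.e (nat_lit 122919) (nat_lit 15) (.e (nat_lit 360451) (nat_lit 0) (.e (nat_lit 7261) (nat_lit 384) (.e (nat_lit 57403) (nat_lit 11) (.e (nat_lit 327698) (nat_lit 8) .nil))))))) (.g (nat_lit 4) .nil .nil))) 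
(.lf (nat_lit 289406) (.g (nat_lit 2480) (.e (nat_lit 303117) (nat_lit 2) (.e (nat_lit 196630) (nat_lit 9) (.e (nat_lit 1462) (nat_lit 108) (.e (nat_lit 336177) (nat_lit 10) (.e (nat_lit 344117) (nat_lit 21) (.e (nat_lit 516106) (nat_lit 0) (.e (nat_lit 7936) (nat_lit 377) (.e (nat_lit 2797) (nat_lit 180) .nil)))))))) (.g (nat_lit 6) .nil .nil))))))))) 
(.nd (nat_lit 1) (.nd (nat_lit 2) (.nd (nat_lit 3) (.nd (nat_lit 4) (.nd (nat_lit 5) 
(.nd (nat_lit 6) 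
(.lf (nat_lit 289281) (.g (nat_lit 2681) (.e (nat_lit 303115) (nat_lit 1) (.e (nat_lit 164175) (nat_lit 153) (.e (nat_lit 8192) (nat_lit 0) (.e (nat_lit 5355) (nat_lit 298) (.e (nat_lit 1661) (nat_lit 115) (.e (nat_lit 393260) (nat_lit 21) (.e (nat_lit 409643) (nat_lit 18) .nil))))))) (.g (nat_lit 6) .nil .nil))) 
(.lf (nat_lit 289345) (.g (nat_lit 2987) (.e (nat_lit 303115) (nat_lit 1) (.e (nat_lit 164196) (nat_lit 158) (.e (nat_lit 1221) (nat_lit 90) (.e (nat_lit 81956) (nat_lit 23) (.e (nat_lit 98309) (nat_lit 0) .nil))))) .nil))) (.nd (nat_lit 6) 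
(.lf (nat_lit 289313) (.g (nat_lit 2456) (.e (nat_lit 303115) (nat_lit 1) (.e (nat_lit 164179) (nat_lit 154) (.e (nat_lit 57435) (nat_lit 17) (.e (nat_lit 376842) (nat_lit 11) (.e (nat_lit 426172) (nat_lit 7) .nil))))) .nil)) 
(.lf (nat_lit 289377) (.g (nat_lit 1223) (.e (nat_lit 303116) (nat_lit 2) (.e (nat_lit 196672) (nat_lit 15) (.e (nat_lit 81951) (nat_lit 22) (.e (nat_lit 90165) (nat_lit 12) .nil)))) .nil)))) (.nd (nat_lit 5) (.nd (nat_lit 6) 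
(.lf (nat_lit 289297) (.g (nat_lit 532) (.e (nat_lit 303115) (nat_lit 1) (.e (nat_lit 164179) (nat_lit 154) (.e (nat_lit 57346) (nat_lit 0) .nil))) .nil)) 
(.lf (nat_lit 289361) (.g (nat_lit 3019) (.e (nat_lit 303116) (nat_lit 2) (.e (nat_lit 196666) (nat_lit 13) (.e (nat_lit 65610) (nat_lit 10) (.e (nat_lit 344117) (nat_lit 21) (.e (nat_lit 516097) (nat_lit 0) .nil))))) .nil))) (.nd (nat_lit 6) 
(.lf (nat_lit 289329) (.g (nat_lit 1639) (.e (nat_lit 303115) (nat_lit 1) (.e (nat_lit 164182) (nat_lit 154) (.e (nat_lit 57411) (nat_lit 12) (.e (nat_lit 336114) (nat_lit 9) .nil)))) .nil)) 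
(.lf (nat_lit 289393) (.g (nat_lit 2140) (.e (nat_lit 303116) (nat_lit 2) (.e (nat_lit 196673) (nat_lit 15) (.e (nat_lit 81956) (nat_lit 23) (.e (nat_lit 98353) (nat_lit 25) (.e (nat_lit 417828) (nat_lit 18) .nil))))) .nil))))) (.nd (nat_lit 4) (.nd (nat_lit 5) (.nd (nat_lit 6) 
(.lf (nat_lit 289289) (.g (nat_lit 1487) (.e (nat_lit 303115) (nat_lit 1) (.e (nat_lit 164178) (nat_lit 154) (.e (nat_lit 57424) (nat_lit 14) (.e (nat_lit 352274) (nat_lit 11) .nil)))) .nil)) 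
(.lf (nat_lit 289353) (.g (nat_lit 2964) (.e (nat_lit 303115) (nat_lit 1) (.e (nat_lit 164424) (nat_lit 272) (.e (nat_lit 1200) (nat_lit 88) (.e (nat_lit 65630) (nat_lit 14) (.e (nat_lit 401454) (nat_lit 12) (.e (nat_lit 483072) (nat_lit 16) (.e (nat_lit 2797) (nat_lit 180) .nil))))))) (.g (nat_lit 5) .nil .nil)))) (.nd (nat_lit 6) 
(.lf (nat_lit 289321) (.g (nat_lit 439) (.e (nat_lit 303115) (nat_lit 1) (.e (nat_lit 164179) (nat_lit 154) (.e (nat_lit 57437) (nat_lit 17) .nil))) .nil)) 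
(.lf (nat_lit 289385) (.g (nat_lit 1238) (.e (nat_lit 303116) (nat_lit 2) (.e (nat_lit 196672) (nat_lit 15) (.e (nat_lit 81954) (nat_lit 23) (.e (nat_lit 98325) (nat_lit 17) (.e (nat_lit 7936) (nat_lit 377) .nil))))) .nil)))) (.nd (nat_lit 5) (.nd (nat_lit 6) 
(.lf (nat_lit 289305) (.g (nat_lit 2085) (.e (nat_lit 303115) (nat_lit 1) (.e (nat_lit 164179) (nat_lit 154) (.e (nat_lit 57411) (nat_lit 12) (.e (nat_lit 343808) (nat_lit 13) .nil)))) .nil)) 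
(.lf (nat_lit 289369) (.g (nat_lit 1965) (.e (nat_lit 303116) (nat_lit 2) (.e (nat_lit 196666) (nat_lit 13) (.e (nat_lit 65617) (nat_lit 10) (.e (nat_lit 344115) (nat_lit 20) (.e (nat_lit 507920) (nat_lit 5) .nil))))) .nil))) (.nd (nat_lit 6) 
(.lf (nat_lit 289337) (.g (nat_lit 1195) (.e (nat_lit 303115) (nat_lit 1) (.e (nat_lit 164184) (nat_lit 155) (.e (nat_lit 122916) (nat_lit 14) (.e (nat_lit 352273) (nat_lit 11) (.e (nat_lit 426166) (nat_lit 7) .nil))))) .nil)) 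
(.lf (nat_lit 289401) (.g (nat_lit 4219) (.e (nat_lit 303117) (nat_lit 2) (.e (nat_lit 196624) (nat_lit 9) (.e (nat_lit 1615) (nat_lit 113) (.e (nat_lit 376869) (nat_lit 23) (.e (nat_lit 98349) (nat_lit 24) (.e (nat_lit 409645) (nat_lit 18) .nil)))))) (.g (nat_lit 0) .nil .nil))))))) (.nd (nat_lit 3) (.nd (nat_lit 4) (.nd (nat_lit 5) (.nd (nat_lit 6) 
(.lf (nat_lit 289285) (.g (nat_lit 1197) (.e (nat_lit 303115) (nat_lit 1) (.e (nat_lit 164175) (nat_lit 153) (.e (nat_lit 8210) (nat_lit 8) (.e (nat_lit 294960) (nat_lit 13) (.e (nat_lit 393260) (nat_lit 21) (.e (nat_lit 417536) (nat_lit 18) .nil)))))) (.g (nat_lit 5) .nil .nil))) 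
(.lf (nat_lit 289349) (.g (nat_lit 920) (.e (nat_lit 303115) (nat_lit 1) (.e (nat_lit 164327) (nat_lit 230) (.e (nat_lit 163886) (nat_lit 5) (.e (nat_lit 229120) (nat_lit 13) .nil)))) .nil))) (.nd (nat_lit 6) 
(.lf (nat_lit 289317) (.g (nat_lit 2361) (.e (nat_lit 303115) (nat_lit 1) (.e (nat_lit 164179) (nat_lit 154) (.e (nat_lit 57436) (nat_lit 17) (.e (nat_lit 376842) (nat_lit 11) (.e (nat_lit 426024) (nat_lit 0) .nil))))) .nil)) 
(.lf (nat_lit 289381) (.g (nat_lit 1476) (.e (nat_lit 303116) (nat_lit 2) (.e (nat_lit 196672) (nat_lit 15) (.e (nat_lit 81954) (nat_lit 23) (.e (nat_lit 98323) (nat_lit 17) (.e (nat_lit 6970) (nat_lit 377) .nil))))) .nil)))) (.nd (nat_lit 5) (.nd (nat_lit 6) 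
(.lf (nat_lit 289301) (.g (nat_lit 2090) (.e (nat_lit 303115) (nat_lit 1) (.e (nat_lit 164179) (nat_lit 154) (.e (nat_lit 57411) (nat_lit 12) (.e (nat_lit 336114) (nat_lit 9) .nil)))) .nil)) 
(.lf (nat_lit 289365) (.g (nat_lit 1800) (.e (nat_lit 303116) (nat_lit 2) (.e (nat_lit 196666) (nat_lit 13) (.e (nat_lit 65610) (nat_lit 10) (.e (nat_lit 344117) (nat_lit 21) (.e (nat_lit 516106) (nat_lit 0) .nil))))) .nil))) (.nd (nat_lit 6) 
(.lf (nat_lit 289333) (.g (nat_lit 3337) (.e (nat_lit 303115) (nat_lit 1) (.e (nat_lit 164182) (nat_lit 154) (.e (nat_lit 57411) (nat_lit 12) (.e (nat_lit 336211) (nat_lit 13) (.e (nat_lit 393238) (nat_lit 17) (.e (nat_lit 6989) (nat_lit 377) (.e (nat_lit 2810) (nat_lit 180) .nil))))))) (.g (nat_lit 7) .nil .nil))) 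
(.lf (nat_lit 289397) (.g (nat_lit 2038) (.e (nat_lit 303117) (nat_lit 2) (.e (nat_lit 196624) (nat_lit 9) (.e (nat_lit 1615) (nat_lit 113) (.e (nat_lit 376863) (nat_lit 22) (.e (nat_lit 90130) (nat_lit 9) (.e (nat_lit 2830) (nat_lit 182) (.e (nat_lit 417536) (nat_lit 18) .nil))))))) (.g (nat_lit 6) .nil .nil)))))) (.nd (nat_lit 4) (.nd (nat_lit 5) (.nd (nat_lit 6) 
(.lf (nat_lit 289293) (.g (nat_lit 2171) (.e (nat_lit 303115) (nat_lit 1) (.e (nat_lit 164178) (nat_lit 154) (.e (nat_lit 57437) (nat_lit 17) (.e (nat_lit 376842) (nat_lit 11) (.e (nat_lit 426003) (nat_lit 0) .nil))))) .nil)) 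
(.lf (nat_lit 289357) (.g (nat_lit 2811) (.e (nat_lit 303116) (nat_lit 2) (.e (nat_lit 196663) (nat_lit 13) (.e (nat_lit 65630) (nat_lit 14) (.e (nat_lit 401425) (nat_lit 2) (.e (nat_lit 196628) (nat_lit 9) (.e (nat_lit 970) (nat_lit 81) (.e (nat_lit 6202) (nat_lit 332) (.e (nat_lit 2798) (nat_lit 180) .nil)))))))) (.g (nat_lit 4) .nil .nil)))) (.nd (nat_lit 6) 
(.lf (nat_lit 289325) (.g (nat_lit 2354) (.e (nat_lit 303115) (nat_lit 1) (.e (nat_lit 164179) (nat_lit 154) (.e (nat_lit 57437) (nat_lit 17) (.e (nat_lit 376842) (nat_lit 11) (.e (nat_lit 426180) (nat_lit 8) (.e (nat_lit 417829) (nat_lit 18) .nil)))))) (.g (nat_lit 4) .nil .nil))) 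
(.lf (nat_lit 289389) (.g (nat_lit 4229) (.e (nat_lit 303116) (nat_lit 2) (.e (nat_lit 196672) (nat_lit 15) (.e (nat_lit 81956) (nat_lit 23) (.e (nat_lit 98350) (nat_lit 24) (.e (nat_lit 409649) (nat_lit 18) .nil))))) (.g (nat_lit 0) .nil .nil))))) (.nd (nat_lit 5) (.nd (nat_lit 6) 
(.lf (nat_lit 289309) (.g (nat_lit 834) (.e (nat_lit 303115) (nat_lit 1) (.e (nat_lit 164179) (nat_lit 154) (.e (nat_lit 57425) (nat_lit 14) (.e (nat_lit 352274) (nat_lit 11) .nil)))) .nil)) 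
(.lf (nat_lit 289373) (.g (nat_lit 3123) (.e (nat_lit 303116) (nat_lit 2) (.e (nat_lit 196666) (nat_lit 13) (.e (nat_lit 65630) (nat_lit 14) (.e (nat_lit 401425) (nat_lit 2) (.e (nat_lit 196628) (nat_lit 9) .nil))))) .nil))) (.nd (nat_lit 6) 
(.lf (nat_lit 289341) (.g (nat_lit 1953) (.e (nat_lit 303115) (nat_lit 1) (.e (nat_lit 164185) (nat_lit 155) (.e (nat_lit 122919) (nat_lit 15) (.e (nat_lit 360451) (nat_lit 0) (.e (nat_lit 7247) (nat_lit 383) .nil))))) .nil)) 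
(.lf (nat_lit 289405) (.g (nat_lit 472) (.e (nat_lit 303117) (nat_lit 2) (.e (nat_lit 196630) (nat_lit 9) (.e (nat_lit 1462) (nat_lit 108) .nil))) .nil))))))) (.nd (nat_lit 2) (.nd (nat_lit 3) (.nd (nat_lit 4) (.nd (nat_lit 5) (.nd (nat_lit 6) 
(.lf (nat_lit 289283) (.g (nat_lit 3193) (.e (nat_lit 303115) (nat_lit 1) (.e (nat_lit 164175) (nat_lit 153) (.e (nat_lit 8193) (nat_lit 0) (.e (nat_lit 5355) (nat_lit 298) (.e (nat_lit 1661) (nat_lit 115) (.e (nat_lit 393260) (nat_lit 21) (.e (nat_lit 409649) (nat_lit 18) .nil))))))) (.g (nat_lit 7) .nil .nil))) 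
(.lf (nat_lit 289347) (.g (nat_lit 1869) (.e (nat_lit 303115) (nat_lit 1) (.e (nat_lit 164327) (nat_lit 230) (.e (nat_lit 163884) (nat_lit 5) (.e (nat_lit 229120) (nat_lit 14) (.e (nat_lit 360451) (nat_lit 0) (.e (nat_lit 7247) (nat_lit 383) (.e (nat_lit 8213) (nat_lit 9) .nil))))))) (.g (nat_lit 5) .nil .nil)))) (.nd (nat_lit 6) 
(.lf (nat_lit 289315) (.g (nat_lit 521) (.e (nat_lit 303115) (nat_lit 1) (.e (nat_lit 164179) (nat_lit 154) (.e (nat_lit 57436) (nat_lit 17) .nil))) .nil)) 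
(.lf (nat_lit 289379) (.g (nat_lit 3040) (.e (nat_lit 303116) (nat_lit 2) (.e (nat_lit 196672) (nat_lit 15) (.e (nat_lit 81951) (nat_lit 22) (.e (nat_lit 90165) (nat_lit 12) (.e (nat_lit 164210) (nat_lit 176) (.e (nat_lit 2808) (nat_lit 180) .nil)))))) (.g (nat_lit 0) .nil .nil))))) (.nd (nat_lit 5) (.nd (nat_lit 6) 
(.lf (nat_lit 289299) (.g (nat_lit 1199) (.e (nat_lit 303115) (nat_lit 1) (.e (nat_lit 164179) (nat_lit 154) (.e (nat_lit 57409) (nat_lit 12) (.e (nat_lit 336211) (nat_lit 13) .nil)))) .nil)) 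
(.lf (nat_lit 289363) (.g (nat_lit 2824) (.e (nat_lit 303116) (nat_lit 2) (.e (nat_lit 196666) (nat_lit 13) (.e (nat_lit 65610) (nat_lit 10) (.e (nat_lit 344117) (nat_lit 21) (.e (nat_lit 516099) (nat_lit 0) .nil))))) .nil))) (.nd (nat_lit 6) 
(.lf (nat_lit 289331) (.g (nat_lit 1639) (.e (nat_lit 303115) (nat_lit 1) (.e (nat_lit 164182) (nat_lit 154) (.e (nat_lit 57411) (nat_lit 12) (.e (nat_lit 336210) (nat_lit 13) .nil)))) .nil)) 
(.lf (nat_lit 289395) (.g (nat_lit 655) (.e (nat_lit 303117) (nat_lit 2) (.e (nat_lit 196624) (nat_lit 9) (.e (nat_lit 7936) (nat_lit 111) .nil))) .nil))))) (.nd (nat_lit 4) (.nd (nat_lit 5) (.nd (nat_lit 6) 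
(.lf (nat_lit 289291) (.g (nat_lit 246) (.e (nat_lit 303115) (nat_lit 1) (.e (nat_lit 164178) (nat_lit 154) (.e (nat_lit 57437) (nat_lit 17) .nil))) .nil)) 
(.lf (nat_lit 289355) (.g (nat_lit 527) (.e (nat_lit 303116) (nat_lit 2) (.e (nat_lit 196624) (nat_lit 9) (.e (nat_lit 1602) (nat_lit 112) .nil))) .nil))) (.nd (nat_lit 6) 
(.lf (nat_lit 289323) (.g (nat_lit 1426) (.e (nat_lit 303115) (nat_lit 1) (.e (nat_lit 164179) (nat_lit 154) (.e (nat_lit 57437) (nat_lit 17) (.e (nat_lit 376841) (nat_lit 11) .nil)))) .nil)) 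
(.lf (nat_lit 289387) (.g (nat_lit 2466) (.e (nat_lit 303116) (nat_lit 2) (.e (nat_lit 196672) (nat_lit 15) (.e (nat_lit 81954) (nat_lit 23) (.e (nat_lit 98350) (nat_lit 24) (.e (nat_lit 417536) (nat_lit 18) .nil))))) (.g (nat_lit 4) .nil .nil))))) (.nd (nat_lit 5) (.nd (nat_lit 6) 
(.lf (nat_lit 289307) (.g (nat_lit 1606) (.e (nat_lit 303115) (nat_lit 1) (.e (nat_lit 164179) (nat_lit 154) (.e (nat_lit 57424) (nat_lit 14) (.e (nat_lit 352273) (nat_lit 11) .nil)))) .nil)) 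
(.lf (nat_lit 289371) (.g (nat_lit 3077) (.e (nat_lit 303116) (nat_lit 2) (.e (nat_lit 196666) (nat_lit 13) (.e (nat_lit 65617) (nat_lit 10) (.e (nat_lit 344132) (nat_lit 26) (.e (nat_lit 557073) (nat_lit 9) (.e (nat_lit 220) (nat_lit 20) (.e (nat_lit 327700) (nat_lit 8) .nil))))))) (.g (nat_lit 4) .nil .nil)))) (.nd (nat_lit 6) 
(.lf (nat_lit 289339) (.g (nat_lit 899) (.e (nat_lit 303115) (nat_lit 1) (.e (nat_lit 164185) (nat_lit 155) (.e (nat_lit 122916) (nat_lit 14) (.e (nat_lit 352278) (nat_lit 11) .nil)))) .nil)) 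
(.lf (nat_lit 289403) (.g (nat_lit 1484) (.e (nat_lit 303117) (nat_lit 2) (.e (nat_lit 196625) (nat_lit 9) (.e (nat_lit 1595) (nat_lit 111) (.e (nat_lit 360467) (nat_lit 3) (.e (nat_lit 516142) (nat_lit 8) .nil))))) .nil)))))) (.nd (nat_lit 3) (.nd (nat_lit 4) (.nd (nat_lit 5) (.nd (nat_lit 6) 
(.lf (nat_lit 289287) (.g (nat_lit 1317) (.e (nat_lit 303115) (nat_lit 1) (.e (nat_lit 164178) (nat_lit 154) (.e (nat_lit 57411) (nat_lit 12) (.e (nat_lit 336211) (nat_lit 13) .nil)))) .nil)) 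
(.lf (nat_lit 289351) (.g (nat_lit 3825) (.e (nat_lit 303115) (nat_lit 1) (.e (nat_lit 164403) (nat_lit 256) (.e (nat_lit 57447) (nat_lit 19) (.e (nat_lit 393268) (nat_lit 23) (.e (nat_lit 426428) (nat_lit 17) .nil))))) .nil))) (.nd (nat_lit 6) 
(.lf (nat_lit 289319) (.g (nat_lit 2316) (.e (nat_lit 303115) (nat_lit 1) (.e (nat_lit 164179) (nat_lit 154) (.e (nat_lit 57436) (nat_lit 17) (.e (nat_lit 376842) (nat_lit 11) (.e (nat_lit 426181) (nat_lit 8) .nil))))) .nil)) 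
(.lf (nat_lit 289383) (.g (nat_lit 964) (.e (nat_lit 303116) (nat_lit 2) (.e (nat_lit 196672) (nat_lit 15) (.e (nat_lit 81954) (nat_lit 23) (.e (nat_lit 98325) (nat_lit 17) .nil)))) .nil)))) (.nd (nat_lit 5) (.nd (nat_lit 6) 
(.lf (nat_lit 289303) (.g (nat_lit 2090) (.e (nat_lit 303115) (nat_lit 1) (.e (nat_lit 164179) (nat_lit 154) (.e (nat_lit 57411) (nat_lit 12) (.e (nat_lit 336210) (nat_lit 13) .nil)))) .nil)) 
(.lf (nat_lit 289367) (.g (nat_lit 3030) (.e (nat_lit 303116) (nat_lit 2) (.e (nat_lit 196666) (nat_lit 13) (.e (nat_lit 65610) (nat_lit 10) (.e (nat_lit 344117) (nat_lit 21) (.e (nat_lit 516139) (nat_lit 7) (.e (nat_lit 417536) (nat_lit 18) .nil)))))) (.g (nat_lit 5) .nil .nil)))) (.nd (nat_lit 6) 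
(.lf (nat_lit 289335) (.g (nat_lit 912) (.e (nat_lit 303115) (nat_lit 1) (.e (nat_lit 164183) (nat_lit 154) (.e (nat_lit 57410) (nat_lit 12) (.e (nat_lit 336211) (nat_lit 13) .nil)))) .nil)) 
(.lf (nat_lit 289399) (.g (nat_lit 2800) (.e (nat_lit 303117) (nat_lit 2) (.e (nat_lit 196624) (nat_lit 9) (.e (nat_lit 1615) (nat_lit 113) (.e (nat_lit 376868) (nat_lit 23) (.e (nat_lit 98323) (nat_lit 17) (.e (nat_lit 6989) (nat_lit 377) (.e (nat_lit 2810) (nat_lit 180) .nil))))))) (.g (nat_lit 0) .nil .nil)))))) (.nd (nat_lit 4) (.nd (nat_lit 5) (.nd (nat_lit 6) 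
(.lf (nat_lit 289295) (.g (nat_lit 2159) (.e (nat_lit 303115) (nat_lit 1) (.e (nat_lit 164178) (nat_lit 154) (.e (nat_lit 57437) (nat_lit 17) (.e (nat_lit 376842) (nat_lit 11) (.e (nat_lit 426180) (nat_lit 8) .nil))))) .nil)) 
(.lf (nat_lit 289359) (.g (nat_lit 1897) (.e (nat_lit 303116) (nat_lit 2) (.e (nat_lit 196666) (nat_lit 13) (.e (nat_lit 65610) (nat_lit 10) (.e (nat_lit 344115) (nat_lit 20) .nil)))) .nil))) (.nd (nat_lit 6) 
(.lf (nat_lit 289327) (.g (nat_lit 933) (.e (nat_lit 303115) (nat_lit 1) (.e (nat_lit 164182) (nat_lit 154) (.e (nat_lit 57410) (nat_lit 12) (.e (nat_lit 336211) (nat_lit 13) .nil)))) .nil)) 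
(.lf (nat_lit 289391) (.g (nat_lit 2324) (.e (nat_lit 303116) (nat_lit 2) (.e (nat_lit 196673) (nat_lit 15) (.e (nat_lit 81956) (nat_lit 23) (.e (nat_lit 98320) (nat_lit 17) .nil)))) .nil)))) (.nd (nat_lit 5) (.nd (nat_lit 6) 
(.lf (nat_lit 289311) (.g (nat_lit 1502) (.e (nat_lit 303115) (nat_lit 1) (.e (nat_lit 164179) (nat_lit 154) (.e (nat_lit 57435) (nat_lit 17) (.e (nat_lit 376838) (nat_lit 11) (.e (nat_lit 426172) (nat_lit 7) .nil))))) .nil)) 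
(.lf (nat_lit 289375) (.g (nat_lit 786) (.e (nat_lit 303116) (nat_lit 2) (.e (nat_lit 196671) (nat_lit 15) (.e (nat_lit 81962) (nat_lit 25) (.e (nat_lit 139289) (nat_lit 9) (.e (nat_lit 2829) (nat_lit 182) .nil))))) .nil))) (.nd (nat_lit 6) 
(.lf (nat_lit 289343) (.g (nat_lit 1914) (.e (nat_lit 303115) (nat_lit 1) (.e (nat_lit 164196) (nat_lit 158) (.e (nat_lit 1219) (nat_lit 90) (.e (nat_lit 81954) (nat_lit 23) (.e (nat_lit 98309) (nat_lit 0) .nil))))) .nil)) 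
(.lf (nat_lit 289407) (.g (nat_lit 538) (.e (nat_lit 303117) (nat_lit 2) (.e (nat_lit 196630) (nat_lit 9) (.e (nat_lit 1553) (nat_lit 110) .nil))) .nil)))))))))

noncomputable def tv3658 : DT := (.nd (nat_lit 0) (.nd (nat_lit 1) (.nd (nat_lit 2) (.nd (nat_lit 3) (.nd (nat_lit 4) (.nd (nat_lit 5) 
(.lf (nat_lit 289408) (.g (nat_lit 1396) (.e (nat_lit 303117) (nat_lit 2) (.e (nat_lit 196630) (nat_lit 9) (.e (nat_lit 1553) (nat_lit 110) (.e (nat_lit 352315) (nat_lit 23) (.e (nat_lit 98325) (nat_lit 17) .nil))))) .nil)) 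
(.lf (nat_lit 289440) (.g (nat_lit 3689) (.e (nat_lit 303117) (nat_lit 2) (.e (nat_lit 196666) (nat_lit 13) (.e (nat_lit 65610) (nat_lit 10) (.e (nat_lit 344117) (nat_lit 21) (.e (nat_lit 516139) (nat_lit 7) (.e (nat_lit 417536) (nat_lit 18) .nil)))))) (.g (nat_lit 5) .nil .nil)))) (.nd (nat_lit 5) 
(.lf (nat_lit 289424) (.g (nat_lit 1663) (.e (nat_lit 303117) (nat_lit 2) (.e (nat_lit 196630) (nat_lit 9) (.e (nat_lit 1598) (nat_lit 111) (.e (nat_lit 360466) (nat_lit 3) (.e (nat_lit 524032) (nat_lit 7) .nil))))) .nil)) 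
(.lf (nat_lit 289456) (.g (nat_lit 3557) (.e (nat_lit 303117) (nat_lit 2) (.e (nat_lit 196672) (nat_lit 15) (.e (nat_lit 81954) (nat_lit 23) (.e (nat_lit 98350) (nat_lit 24) (.e (nat_lit 409643) (nat_lit 18) .nil))))) (.g (nat_lit 4) .nil .nil))))) (.nd (nat_lit 4) (.nd (nat_lit 5) 
(.lf (nat_lit 289416) (.g (nat_lit 2083) (.e (nat_lit 303117) (nat_lit 2) (.e (nat_lit 196630) (nat_lit 9) (.e (nat_lit 1580) (nat_lit 111) (.e (nat_lit 360473) (nat_lit 8) (.e (nat_lit 557084) (nat_lit 10) (.e (nat_lit 16128) (nat_lit 225) (.e (nat_lit 2797) (nat_lit 180) .nil))))))) (.g (nat_lit 4) .nil .nil))) 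
(.lf (nat_lit 289448) (.g (nat_lit 4677) (.e (nat_lit 303117) (nat_lit 2) (.e (nat_lit 196666) (nat_lit 13) (.e (nat_lit 65630) (nat_lit 14) (.e (nat_lit 401425) (nat_lit 2) (.e (nat_lit 196628) (nat_lit 9) (.e (nat_lit 970) (nat_lit 81) (.e (nat_lit 6202) (nat_lit 332) (.e (nat_lit 2798) (nat_lit 180) .nil)))))))) (.g (nat_lit 4) .nil .nil)))) (.nd (nat_lit 5) 
(.lf (nat_lit 289432) (.g (nat_lit 2635) (.e (nat_lit 303117) (nat_lit 2) (.e (nat_lit 196664) (nat_lit 13) (.e (nat_lit 65630) (nat_lit 14) (.e (nat_lit 401428) (nat_lit 3) (.e (nat_lit 204849) (nat_lit 25) (.e (nat_lit 327698) (nat_lit 8) .nil)))))) (.g (nat_lit 4) .nil .nil))) 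
(.lf (nat_lit 289464) (.g (nat_lit 1807) (.e (nat_lit 303117) (nat_lit 2) (.e (nat_lit 196673) (nat_lit 15) (.e (nat_lit 81956) (nat_lit 23) (.e (nat_lit 98325) (nat_lit 17) (.e (nat_lit 6966) (nat_lit 377) .nil))))) .nil))))) (.nd (nat_lit 3) (.nd (nat_lit 4) (.nd (nat_lit 5) 
(.lf (nat_lit 289412) (.g (nat_lit 1787) (.e (nat_lit 303117) (nat_lit 2) (.e (nat_lit 196630) (nat_lit 9) (.e (nat_lit 1563) (nat_lit 110) (.e (nat_lit 352315) (nat_lit 23) (.e (nat_lit 98325) (nat_lit 17) .nil))))) .nil)) 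
(.lf (nat_lit 289444) (.g (nat_lit 4059) (.e (nat_lit 303117) (nat_lit 2) (.e (nat_lit 196666) (nat_lit 13) (.e (nat_lit 65617) (nat_lit 10) (.e (nat_lit 344132) (nat_lit 26) (.e (nat_lit 557072) (nat_lit 9) (.e (nat_lit 220) (nat_lit 20) (.e (nat_lit 327700) (nat_lit 8) .nil))))))) (.g (nat_lit 4) .nil .nil)))) (.nd (nat_lit 5) 
(.lf (nat_lit 289428) (.g (nat_lit 1278) (.e (nat_lit 303117) (nat_lit 2) (.e (nat_lit 196663) (nat_lit 13) (.e (nat_lit 65630) (nat_lit 14) (.e (nat_lit 401427) (nat_lit 3) .nil)))) .nil)) 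
(.lf (nat_lit 289460) (.g (nat_lit 2554) (.e (nat_lit 303117) (nat_lit 2) (.e (nat_lit 196673) (nat_lit 15) (.e (nat_lit 81938) (nat_lit 20) (.e (nat_lit 1788) (nat_lit 119) (.e (nat_lit 516139) (nat_lit 7) (.e (nat_lit 417536) (nat_lit 18) .nil)))))) (.g (nat_lit 5) .nil .nil))))) (.nd (nat_lit 4) (.nd (nat_lit 5) 
(.lf (nat_lit 289420) (.g (nat_lit 988) (.e (nat_lit 303117) (nat_lit 2) (.e (nat_lit 196630) (nat_lit 9) (.e (nat_lit 1595) (nat_lit 111) (.e (nat_lit 360467) (nat_lit 3) .nil)))) .nil)) 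
(.lf (nat_lit 289452) (.g (nat_lit 1420) (.e (nat_lit 303117) (nat_lit 2) (.e (nat_lit 196671) (nat_lit 15) (.e (nat_lit 81956) (nat_lit 23) (.e (nat_lit 98349) (nat_lit 24) .nil)))) .nil))) (.nd (nat_lit 5) 
(.lf (nat_lit 289436) (.g (nat_lit 4549) (.e (nat_lit 303117) (nat_lit 2) (.e (nat_lit 196666) (nat_lit 13) (.e (nat_lit 65599) (nat_lit 9) (.e (nat_lit 336028) (nat_lit 3) (.e (nat_lit 98350) (nat_lit 24) (.e (nat_lit 409648) (nat_lit 18) .nil)))))) (.g (nat_lit 0) .nil .nil))) 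
(.lf (nat_lit 289468) (.g (nat_lit 2730) (.e (nat_lit 303117) (nat_lit 2) (.e (nat_lit 196673) (nat_lit 15) (.e (nat_lit 81956) (nat_lit 23) (.e (nat_lit 98353) (nat_lit 25) (.e (nat_lit 425728) (nat_lit 18) .nil))))) (.g (nat_lit 4) .nil .nil))))))) (.nd (nat_lit 2) (.nd (nat_lit 3) (.nd (nat_lit 4) (.nd (nat_lit 5) 
(.lf (nat_lit 289410) (.g (nat_lit 1090) (.e (nat_lit 303117) (nat_lit 2) (.e (nat_lit 196630) (nat_lit 9) (.e (nat_lit 1563) (nat_lit 110) (.e (nat_lit 352311) (nat_lit 22) .nil)))) .nil)) 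
(.lf (nat_lit 289442) (.g (nat_lit 3181) (.e (nat_lit 303117) (nat_lit 2) (.e (nat_lit 196666) (nat_lit 13) (.e (nat_lit 65610) (nat_lit 10) (.e (nat_lit 344117) (nat_lit 21) (.e (nat_lit 524032) (nat_lit 7) (.e (nat_lit 409648) (nat_lit 18) .nil)))))) (.g (nat_lit 4) .nil .nil)))) (.nd (nat_lit 5) 
(.lf (nat_lit 289426) (.g (nat_lit 1922) (.e (nat_lit 303117) (nat_lit 2) (.e (nat_lit 196662) (nat_lit 13) (.e (nat_lit 65610) (nat_lit 10) (.e (nat_lit 344129) (nat_lit 26) (.e (nat_lit 557084) (nat_lit 10) .nil))))) .nil)) 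
(.lf (nat_lit 289458) (.g (nat_lit 2904) (.e (nat_lit 303117) (nat_lit 2) (.e (nat_lit 196672) (nat_lit 15) (.e (nat_lit 81954) (nat_lit 23) (.e (nat_lit 98350) (nat_lit 24) (.e (nat_lit 417536) (nat_lit 18) .nil))))) (.g (nat_lit 4) .nil .nil))))) (.nd (nat_lit 4) (.nd (nat_lit 5) 
(.lf (nat_lit 289418) (.g (nat_lit 2250) (.e (nat_lit 303117) (nat_lit 2) (.e (nat_lit 196630) (nat_lit 9) (.e (nat_lit 1586) (nat_lit 111) (.e (nat_lit 360475) (nat_lit 8) (.e (nat_lit 557084) (nat_lit 10) (.e (nat_lit 16128) (nat_lit 225) (.e (nat_lit 2797) (nat_lit 180) .nil))))))) (.g (nat_lit 4) .nil .nil))) 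
(.lf (nat_lit 289450) (.g (nat_lit 2242) (.e (nat_lit 303117) (nat_lit 2) (.e (nat_lit 196671) (nat_lit 15) (.e (nat_lit 81956) (nat_lit 23) (.e (nat_lit 98320) (nat_lit 17) .nil)))) .nil))) (.nd (nat_lit 5) 
(.lf (nat_lit 289434) (.g (nat_lit 3683) (.e (nat_lit 303117) (nat_lit 2) (.e (nat_lit 196666) (nat_lit 13) (.e (nat_lit 65596) (nat_lit 9) (.e (nat_lit 336020) (nat_lit 3) (.e (nat_lit 98350) (nat_lit 24) (.e (nat_lit 409648) (nat_lit 18) .nil)))))) (.g (nat_lit 6) .nil .nil))) 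
(.lf (nat_lit 289466) (.g (nat_lit 3108) (.e (nat_lit 303117) (nat_lit 2) (.e (nat_lit 196673) (nat_lit 15) (.e (nat_lit 81956) (nat_lit 23) (.e (nat_lit 98350) (nat_lit 24) (.e (nat_lit 417536) (nat_lit 18) .nil))))) (.g (nat_lit 4) .nil .nil)))))) (.nd (nat_lit 3) (.nd (nat_lit 4) (.nd (nat_lit 5) 
(.lf (nat_lit 289414) (.g (nat_lit 524) (.e (nat_lit 303117) (nat_lit 2) (.e (nat_lit 196630) (nat_lit 9) (.e (nat_lit 1580) (nat_lit 111) .nil))) .nil)) 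
(.lf (nat_lit 289446) (.g (nat_lit 4190) (.e (nat_lit 303117) (nat_lit 2) (.e (nat_lit 196666) (nat_lit 13) (.e (nat_lit 65619) (nat_lit 10) (.e (nat_lit 344117) (nat_lit 21) (.e (nat_lit 516142) (nat_lit 8) (.e (nat_lit 417829) (nat_lit 18) .nil)))))) (.g (nat_lit 4) .nil .nil)))) (.nd (nat_lit 5) 
(.lf (nat_lit 289430) (.g (nat_lit 2845) (.e (nat_lit 303117) (nat_lit 2) (.e (nat_lit 196663) (nat_lit 13) (.e (nat_lit 65630) (nat_lit 14) (.e (nat_lit 401428) (nat_lit 3) (.e (nat_lit 204846) (nat_lit 24) (.e (nat_lit 327424) (nat_lit 8) .nil)))))) (.g (nat_lit 5) .nil .nil))) 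
(.lf (nat_lit 289462) (.g (nat_lit 2498) (.e (nat_lit 303117) (nat_lit 2) (.e (nat_lit 196673) (nat_lit 15) (.e (nat_lit 81954) (nat_lit 23) (.e (nat_lit 98350) (nat_lit 24) (.e (nat_lit 417536) (nat_lit 18) .nil))))) (.g (nat_lit 4) .nil .nil))))) (.nd (nat_lit 4) (.nd (nat_lit 5) 
(.lf (nat_lit 289422) (.g (nat_lit 1823) (.e (nat_lit 303117) (nat_lit 2) (.e (nat_lit 196630) (nat_lit 9) (.e (nat_lit 1596) (nat_lit 111) (.e (nat_lit 360466) (nat_lit 3) (.e (nat_lit 524032) (nat_lit 7) (.e (nat_lit 409645) (nat_lit 18) .nil)))))) (.g (nat_lit 4) .nil .nil))) 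
(.lf (nat_lit 289454) (.g (nat_lit 2840) (.e (nat_lit 303117) (nat_lit 2) (.e (nat_lit 196672) (nat_lit 15) (.e (nat_lit 81954) (nat_lit 23) (.e (nat_lit 98349) (nat_lit 24) (.e (nat_lit 409643) (nat_lit 18) .nil))))) (.g (nat_lit 4) .nil .nil)))) (.nd (nat_lit 5) 
(.lf (nat_lit 289438) (.g (nat_lit 4568) (.e (nat_lit 303117) (nat_lit 2) (.e (nat_lit 196666) (nat_lit 13) (.e (nat_lit 65604) (nat_lit 9) (.e (nat_lit 336028) (nat_lit 3) (.e (nat_lit 98350) (nat_lit 24) (.e (nat_lit 409648) (nat_lit 18) .nil)))))) (.g (nat_lit 5) .nil .nil))) 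
(.lf (nat_lit 289470) (.g (nat_lit 1173) (.e (nat_lit 303117) (nat_lit 2) (.e (nat_lit 196674) (nat_lit 15) (.e (nat_lit 81947) (nat_lit 20) (.e (nat_lit 1689) (nat_lit 117) .nil)))) .nil))))))) (.nd (nat_lit 1) (.nd (nat_lit 2) (.nd (nat_lit 3) (.nd (nat_lit 4) (.nd (nat_lit 5) 
(.lf (nat_lit 289409) (.g (nat_lit 475) (.e (nat_lit 303117) (nat_lit 2) (.e (nat_lit 196630) (nat_lit 9) (.e (nat_lit 1563) (nat_lit 110) .nil))) .nil)) 
(.lf (nat_lit 289441) (.g (nat_lit 3185) (.e (nat_lit 303117) (nat_lit 2) (.e (nat_lit 196666) (nat_lit 13) (.e (nat_lit 65610) (nat_lit 10) (.e (nat_lit 344117) (nat_lit 21) (.e (nat_lit 524032) (nat_lit 7) (.e (nat_lit 409645) (nat_lit 18) .nil)))))) (.g (nat_lit 4) .nil .nil)))) (.nd (nat_lit 5) 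
(.lf (nat_lit 289425) (.g (nat_lit 535) (.e (nat_lit 303117) (nat_lit 2) (.e (nat_lit 196630) (nat_lit 9) (.e (nat_lit 1616) (nat_lit 113) .nil))) .nil)) 
(.lf (nat_lit 289457) (.g (nat_lit 3687) (.e (nat_lit 303117) (nat_lit 2) (.e (nat_lit 196672) (nat_lit 15) (.e (nat_lit 81954) (nat_lit 23) (.e (nat_lit 98350) (nat_lit 24) (.e (nat_lit 409649) (nat_lit 18) .nil))))) (.g (nat_lit 0) .nil .nil))))) (.nd (nat_lit 4) (.nd (nat_lit 5) 
(.lf (nat_lit 289417) (.g (nat_lit 2554) (.e (nat_lit 303117) (nat_lit 2) (.e (nat_lit 196630) (nat_lit 9) (.e (nat_lit 1586) (nat_lit 111) (.e (nat_lit 360468) (nat_lit 3) (.e (nat_lit 516139) (nat_lit 7) (.e (nat_lit 417536) (nat_lit 18) .nil)))))) (.g (nat_lit 5) .nil .nil))) 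
(.lf (nat_lit 289449) (.g (nat_lit 1497) (.e (nat_lit 303117) (nat_lit 2) (.e (nat_lit 196668) (nat_lit 14) (.e (nat_lit 73789) (nat_lit 45) (.e (nat_lit 1141) (nat_lit 84) .nil)))) .nil))) (.nd (nat_lit 5) 
(.lf (nat_lit 289433) (.g (nat_lit 1025) (.e (nat_lit 303117) (nat_lit 2) (.e (nat_lit 196666) (nat_lit 13) (.e (nat_lit 65583) (nat_lit 7) .nil))) .nil)) 
(.lf (nat_lit 289465) (.g (nat_lit 2542) (.e (nat_lit 303117) (nat_lit 2) (.e (nat_lit 196673) (nat_lit 15) (.e (nat_lit 81956) (nat_lit 23) (.e (nat_lit 98349) (nat_lit 24) (.e (nat_lit 417536) (nat_lit 18) .nil))))) (.g (nat_lit 4) .nil .nil)))))) (.nd (nat_lit 3) (.nd (nat_lit 4) (.nd (nat_lit 5) 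
(.lf (nat_lit 289413) (.g (nat_lit 493) (.e (nat_lit 303117) (nat_lit 2) (.e (nat_lit 196630) (nat_lit 9) (.e (nat_lit 1573) (nat_lit 110) .nil))) .nil)) 
(.lf (nat_lit 289445) (.g (nat_lit 3755) (.e (nat_lit 303117) (nat_lit 2) (.e (nat_lit 196666) (nat_lit 13) (.e (nat_lit 65617) (nat_lit 10) (.e (nat_lit 344132) (nat_lit 26) (.e (nat_lit 557073) (nat_lit 9) (.e (nat_lit 220) (nat_lit 20) (.e (nat_lit 327700) (nat_lit 8) .nil))))))) (.g (nat_lit 4) .nil .nil)))) (.nd (nat_lit 5) 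
(.lf (nat_lit 289429) (.g (nat_lit 2657) (.e (nat_lit 303117) (nat_lit 2) (.e (nat_lit 196663) (nat_lit 13) (.e (nat_lit 65630) (nat_lit 14) (.e (nat_lit 401428) (nat_lit 3) (.e (nat_lit 204845) (nat_lit 24) (.e (nat_lit 327424) (nat_lit 8) .nil)))))) (.g (nat_lit 5) .nil .nil))) 
(.lf (nat_lit 289461) (.g (nat_lit 2724) (.e (nat_lit 303117) (nat_lit 2) (.e (nat_lit 196673) (nat_lit 15) (.e (nat_lit 81941) (nat_lit 20) (.e (nat_lit 1788) (nat_lit 119) (.e (nat_lit 516139) (nat_lit 7) (.e (nat_lit 417536) (nat_lit 18) .nil)))))) (.g (nat_lit 5) .nil .nil))))) (.nd (nat_lit 4) (.nd (nat_lit 5) 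
(.lf (nat_lit 289421) (.g (nat_lit 489) (.e (nat_lit 303117) (nat_lit 2) (.e (nat_lit 196630) (nat_lit 9) (.e (nat_lit 1596) (nat_lit 111) .nil))) .nil)) 
(.lf (nat_lit 289453) (.g (nat_lit 3214) (.e (nat_lit 303117) (nat_lit 2) (.e (nat_lit 196671) (nat_lit 15) (.e (nat_lit 81956) (nat_lit 23) (.e (nat_lit 98350) (nat_lit 24) (.e (nat_lit 409645) (nat_lit 18) .nil))))) .nil))) (.nd (nat_lit 5) 
(.lf (nat_lit 289437) (.g (nat_lit 4243) (.e (nat_lit 303117) (nat_lit 2) (.e (nat_lit 196666) (nat_lit 13) (.e (nat_lit 65604) (nat_lit 9) (.e (nat_lit 336028) (nat_lit 3) (.e (nat_lit 98349) (nat_lit 24) (.e (nat_lit 417536) (nat_lit 18) .nil)))))) (.g (nat_lit 4) .nil .nil))) 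
(.lf (nat_lit 289469) (.g (nat_lit 3006) (.e (nat_lit 303117) (nat_lit 2) (.e (nat_lit 196674) (nat_lit 15) (.e (nat_lit 81946) (nat_lit 20) (.e (nat_lit 1788) (nat_lit 119) (.e (nat_lit 516139) (nat_lit 7) (.e (nat_lit 417536) (nat_lit 18) .nil)))))) (.g (nat_lit 4) .nil .nil))))))) (.nd (nat_lit 2) (.nd (nat_lit 3) (.nd (nat_lit 4) (.nd (nat_lit 5) 
(.lf (nat_lit 289411) (.g (nat_lit 1721) (.e (nat_lit 303117) (nat_lit 2) (.e (nat_lit 196630) (nat_lit 9) (.e (nat_lit 1563) (nat_lit 110) (.e (nat_lit 352312) (nat_lit 22) (.e (nat_lit 90165) (nat_lit 12) .nil))))) .nil)) 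
(.lf (nat_lit 289443) (.g (nat_lit 4240) (.e (nat_lit 303117) (nat_lit 2) (.e (nat_lit 196666) (nat_lit 13) (.e (nat_lit 65617) (nat_lit 10) (.e (nat_lit 344117) (nat_lit 21) (.e (nat_lit 516142) (nat_lit 8) (.e (nat_lit 417828) (nat_lit 18) .nil)))))) (.g (nat_lit 4) .nil .nil)))) (.nd (nat_lit 5) 
(.lf (nat_lit 289427) (.g (nat_lit 2225) (.e (nat_lit 303117) (nat_lit 2) (.e (nat_lit 196663) (nat_lit 13) (.e (nat_lit 65610) (nat_lit 10) (.e (nat_lit 344117) (nat_lit 21) (.e (nat_lit 516106) (nat_lit 0) .nil))))) .nil)) 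
(.lf (nat_lit 289459) (.g (nat_lit 3971) (.e (nat_lit 303117) (nat_lit 2) (.e (nat_lit 196672) (nat_lit 15) (.e (nat_lit 81956) (nat_lit 23) (.e (nat_lit 98350) (nat_lit 24) (.e (nat_lit 409647) (nat_lit 18) .nil))))) (.g (nat_lit 4) .nil .nil))))) (.nd (nat_lit 4) (.nd (nat_lit 5) 
(.lf (nat_lit 289419) (.g (nat_lit 1109) (.e (nat_lit 303117) (nat_lit 2) (.e (nat_lit 196630) (nat_lit 9) (.e (nat_lit 1589) (nat_lit 111) (.e (nat_lit 360467) (nat_lit 3) .nil)))) .nil)) 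
(.lf (nat_lit 289451) (.g (nat_lit 1068) (.e (nat_lit 303117) (nat_lit 2) (.e (nat_lit 196671) (nat_lit 15) (.e (nat_lit 81956) (nat_lit 23) (.e (nat_lit 98325) (nat_lit 17) .nil)))) .nil))) (.nd (nat_lit 5) 
(.lf (nat_lit 289435) (.g (nat_lit 3052) (.e (nat_lit 303117) (nat_lit 2) (.e (nat_lit 196666) (nat_lit 13) (.e (nat_lit 65599) (nat_lit 9) (.e (nat_lit 336028) (nat_lit 3) (.e (nat_lit 98349) (nat_lit 24) (.e (nat_lit 417536) (nat_lit 18) .nil)))))) (.g (nat_lit 4) .nil .nil))) 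
(.lf (nat_lit 289467) (.g (nat_lit 2564) (.e (nat_lit 303117) (nat_lit 2) (.e (nat_lit 196673) (nat_lit 15) (.e (nat_lit 81956) (nat_lit 23) (.e (nat_lit 98352) (nat_lit 25) (.e (nat_lit 425728) (nat_lit 18) .nil))))) (.g (nat_lit 4) .nil .nil)))))) (.nd (nat_lit 3) (.nd (nat_lit 4) (.nd (nat_lit 5) 
(.lf (nat_lit 289415) (.g (nat_lit 1472) (.e (nat_lit 303117) (nat_lit 2) (.e (nat_lit 196630) (nat_lit 9) (.e (nat_lit 1580) (nat_lit 111) (.e (nat_lit 360466) (nat_lit 3) (.e (nat_lit 524032) (nat_lit 7) .nil))))) .nil)) 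
(.lf (nat_lit 289447) (.g (nat_lit 2661) (.e (nat_lit 303117) (nat_lit 2) (.e (nat_lit 196666) (nat_lit 13) (.e (nat_lit 65628) (nat_lit 14) (.e (nat_lit 401425) (nat_lit 2) (.e (nat_lit 196628) (nat_lit 9) .nil))))) .nil))) (.nd (nat_lit 5) 
(.lf (nat_lit 289431) (.g (nat_lit 2859) (.e (nat_lit 303117) (nat_lit 2) (.e (nat_lit 196664) (nat_lit 13) (.e (nat_lit 65630) (nat_lit 14) (.e (nat_lit 401425) (nat_lit 2) (.e (nat_lit 196628) (nat_lit 9) (.e (nat_lit 970) (nat_lit 81) (.e (nat_lit 6202) (nat_lit 332) (.e (nat_lit 2797) (nat_lit 180) .nil)))))))) (.g (nat_lit 4) .nil .nil))) 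
(.lf (nat_lit 289463) (.g (nat_lit 2109) (.e (nat_lit 303117) (nat_lit 2) (.e (nat_lit 196673) (nat_lit 15) (.e (nat_lit 81956) (nat_lit 23) (.e (nat_lit 98319) (nat_lit 17) (.e (nat_lit 7073) (nat_lit 377) .nil))))) .nil)))) (.nd (nat_lit 4) (.nd (nat_lit 5) 
(.lf (nat_lit 289423) (.g (nat_lit 2724) (.e (nat_lit 303117) (nat_lit 2) (.e (nat_lit 196630) (nat_lit 9) (.e (nat_lit 1596) (nat_lit 111) (.e (nat_lit 360468) (nat_lit 3) (.e (nat_lit 516139) (nat_lit 7) (.e (nat_lit 417536) (nat_lit 18) .nil)))))) (.g (nat_lit 5) .nil .nil))) 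
(.lf (nat_lit 289455) (.g (nat_lit 2859) (.e (nat_lit 303117) (nat_lit 2) (.e (nat_lit 196672) (nat_lit 15) (.e (nat_lit 81954) (nat_lit 23) (.e (nat_lit 98349) (nat_lit 24) (.e (nat_lit 417536) (nat_lit 18) .nil))))) (.g (nat_lit 4) .nil .nil)))) (.nd (nat_lit 5) 
(.lf (nat_lit 289439) (.g (nat_lit 3030) (.e (nat_lit 303117) (nat_lit 2) (.e (nat_lit 196666) (nat_lit 13) (.e (nat_lit 65610) (nat_lit 10) (.e (nat_lit 344117) (nat_lit 21) (.e (nat_lit 516138) (nat_lit 7) (.e (nat_lit 417536) (nat_lit 18) .nil)))))) (.g (nat_lit 5) .nil .nil))) 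
(.lf (nat_lit 289471) (.g (nat_lit 5509) (.e (nat_lit 303117) (nat_lit 2) (.e (nat_lit 196674) (nat_lit 15) (.e (nat_lit 81947) (nat_lit 20) (.e (nat_lit 1788) (nat_lit 119) (.e (nat_lit 516139) (nat_lit 7) (.e (nat_lit 409645) (nat_lit 18) .nil)))))) (.g (nat_lit 0) .nil .nil)))))))))

noncomputable def tv3659 : DT := (.nd (nat_lit 0) (.nd (nat_lit 1) (.nd (nat_lit 2) (.nd (nat_lit 3) (.nd (nat_lit 4) (.nd (nat_lit 5) 
(.lf (nat_lit 289472) (.g (nat_lit 1173) (.e (nat_lit 303117) (nat_lit 2) (.e (nat_lit 196674) (nat_lit 15) (.e (nat_lit 81947) (nat_lit 20) (.e (nat_lit 1799) (nat_lit 119) .nil)))) .nil)) 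
(.lf (nat_lit 289504) (.g (nat_lit 275) (.e (nat_lit 303119) (nat_lit 3) (.e (nat_lit 204819) (nat_lit 17) (.e (nat_lit 6109) (nat_lit 332) .nil))) .nil))) (.nd (nat_lit 5) 
(.lf (nat_lit 289488) (.g (nat_lit 1217) (.e (nat_lit 303118) (nat_lit 3) (.e (nat_lit 204855) (nat_lit 26) (.e (nat_lit 336173) (nat_lit 10) (.e (nat_lit 344120) (nat_lit 21) .nil)))) .nil)) 
(.lf (nat_lit 289520) (.g (nat_lit 955) (.e (nat_lit 303119) (nat_lit 3) (.e (nat_lit 204830) (nat_lit 18) (.e (nat_lit 57760) (nat_lit 215) .nil))) .nil)))) (.nd (nat_lit 4) (.nd (nat_lit 5) 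
(.lf (nat_lit 289480) (.g (nat_lit 2663) (.e (nat_lit 311040) (nat_lit 2) (.e (nat_lit 196671) (nat_lit 15) (.e (nat_lit 81956) (nat_lit 23) (.e (nat_lit 98350) (nat_lit 24) (.e (nat_lit 409649) (nat_lit 18) .nil))))) .nil)) 
(.lf (nat_lit 289512) (.g (nat_lit 3800) (.e (nat_lit 303119) (nat_lit 3) (.e (nat_lit 204819) (nat_lit 17) (.e (nat_lit 6113) (nat_lit 332) (.e (nat_lit 2406) (nat_lit 157) (.e (nat_lit 5293) (nat_lit 298) (.e (nat_lit 1250) (nat_lit 92) (.e (nat_lit 98350) (nat_lit 24) (.e (nat_lit 409643) (nat_lit 18) .nil)))))))) (.g (nat_lit 7) .nil .nil)))) (.nd (nat_lit 5) 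
(.lf (nat_lit 289496) (.g (nat_lit 353) (.e (nat_lit 303118) (nat_lit 3) (.e (nat_lit 204870) (nat_lit 29) (.e (nat_lit 360463) (nat_lit 1) .nil))) .nil)) 
(.lf (nat_lit 289528) (.g (nat_lit 3303) (.e (nat_lit 303119) (nat_lit 3) (.e (nat_lit 204845) (nat_lit 24) (.e (nat_lit 319531) (nat_lit 16) (.e (nat_lit 286735) (nat_lit 3) (.e (nat_lit 98325) (nat_lit 17) (.e (nat_lit 6986) (nat_lit 377) (.e (nat_lit 1374) (nat_lit 104) .nil))))))) (.g (nat_lit 4) .nil .nil)))))) (.nd (nat_lit 3) (.nd (nat_lit 4) (.nd (nat_lit 5) 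
(.lf (nat_lit 289476) (.g (nat_lit 3698) (.e (nat_lit 303117) (nat_lit 2) (.e (nat_lit 196674) (nat_lit 15) (.e (nat_lit 81956) (nat_lit 23) (.e (nat_lit 98349) (nat_lit 24) (.e (nat_lit 409644) (nat_lit 18) .nil))))) (.g (nat_lit 4) .nil .nil))) 
(.lf (nat_lit 289508) (.g (nat_lit 3222) (.e (nat_lit 303119) (nat_lit 3) (.e (nat_lit 204819) (nat_lit 17) (.e (nat_lit 6113) (nat_lit 332) (.e (nat_lit 1374) (nat_lit 104) (.e (nat_lit 303119) (nat_lit 3) (.e (nat_lit 204821) (nat_lit 17) (.e (nat_lit 6114) (nat_lit 332) (.e (nat_lit 1374) (nat_lit 104) .nil)))))))) (.g (nat_lit 5) .nil .nil)))) (.nd (nat_lit 5) 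
(.lf (nat_lit 289492) (.g (nat_lit 3651) (.e (nat_lit 303118) (nat_lit 3) (.e (nat_lit 204866) (nat_lit 28) (.e (nat_lit 352314) (nat_lit 23) (.e (nat_lit 98350) (nat_lit 24) (.e (nat_lit 409649) (nat_lit 18) .nil))))) (.g (nat_lit 0) .nil .nil))) 
(.lf (nat_lit 289524) (.g (nat_lit 4028) (.e (nat_lit 303119) (nat_lit 3) (.e (nat_lit 204845) (nat_lit 24) (.e (nat_lit 319530) (nat_lit 16) (.e (nat_lit 286735) (nat_lit 3) (.e (nat_lit 98325) (nat_lit 17) (.e (nat_lit 6986) (nat_lit 377) (.e (nat_lit 1376) (nat_lit 104) .nil))))))) (.g (nat_lit 5) .nil .nil))))) (.nd (nat_lit 4) (.nd (nat_lit 5) 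
(.lf (nat_lit 289484) (.g (nat_lit 1003) (.e (nat_lit 303118) (nat_lit 3) (.e (nat_lit 204854) (nat_lit 26) (.e (nat_lit 336115) (nat_lit 9) .nil))) .nil)) 
(.lf (nat_lit 289516) (.g (nat_lit 3566) (.e (nat_lit 303119) (nat_lit 3) (.e (nat_lit 204819) (nat_lit 17) (.e (nat_lit 6113) (nat_lit 332) (.e (nat_lit 2507) (nat_lit 157) (.e (nat_lit 5293) (nat_lit 298) (.e (nat_lit 1250) (nat_lit 92) (.e (nat_lit 98350) (nat_lit 24) (.e (nat_lit 417536) (nat_lit 18) .nil)))))))) (.g (nat_lit 7) .nil .nil)))) (.nd (nat_lit 5) 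
(.lf (nat_lit 289500) (.g (nat_lit 3203) (.e (nat_lit 303118) (nat_lit 3) (.e (nat_lit 204877) (nat_lit 31) (.e (nat_lit 376869) (nat_lit 23) (.e (nat_lit 98350) (nat_lit 24) (.e (nat_lit 409647) (nat_lit 18) .nil))))) (.g (nat_lit 0) .nil .nil))) 
(.lf (nat_lit 289532) (.g (nat_lit 2951) (.e (nat_lit 303119) (nat_lit 3) (.e (nat_lit 204846) (nat_lit 24) (.e (nat_lit 319511) (nat_lit 10) (.e (nat_lit 5293) (nat_lit 298) (.e (nat_lit 1250) (nat_lit 92) (.e (nat_lit 98350) (nat_lit 24) (.e (nat_lit 417536) (nat_lit 8) .nil))))))) (.g (nat_lit 6) .nil .nil))))))) (.nd (nat_lit 2) (.nd (nat_lit 3) (.nd (nat_lit 4) (.nd (nat_lit 5) 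
(.lf (nat_lit 289474) (.g (nat_lit 2211) (.e (nat_lit 303117) (nat_lit 2) (.e (nat_lit 196674) (nat_lit 15) (.e (nat_lit 81954) (nat_lit 23) (.e (nat_lit 98350) (nat_lit 24) (.e (nat_lit 417536) (nat_lit 18) .nil))))) (.g (nat_lit 4) .nil .nil))) 
(.lf (nat_lit 289506) (.g (nat_lit 5208) (.e (nat_lit 303119) (nat_lit 3) (.e (nat_lit 204819) (nat_lit 17) (.e (nat_lit 6113) (nat_lit 332) (.e (nat_lit 1374) (nat_lit 104) (.e (nat_lit 303119) (nat_lit 3) (.e (nat_lit 204819) (nat_lit 17) (.e (nat_lit 6113) (nat_lit 332) (.e (nat_lit 1374) (nat_lit 104) .nil)))))))) (.g (nat_lit 0) .nil .nil)))) (.nd (nat_lit 5) 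
(.lf (nat_lit 289490) (.g (nat_lit 2137) (.e (nat_lit 303118) (nat_lit 3) (.e (nat_lit 204861) (nat_lit 26) (.e (nat_lit 336076) (nat_lit 9) (.e (nat_lit 336018) (nat_lit 3) (.e (nat_lit 98350) (nat_lit 24) .nil))))) .nil)) 
(.lf (nat_lit 289522) (.g (nat_lit 3508) (.e (nat_lit 303119) (nat_lit 3) (.e (nat_lit 204845) (nat_lit 24) (.e (nat_lit 319529) (nat_lit 16) (.e (nat_lit 286735) (nat_lit 3) (.e (nat_lit 98323) (nat_lit 17) (.e (nat_lit 6989) (nat_lit 377) (.e (nat_lit 1374) (nat_lit 104) .nil))))))) (.g (nat_lit 6) .nil .nil))))) (.nd (nat_lit 4) (.nd (nat_lit 5) 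
(.lf (nat_lit 289482) (.g (nat_lit 1498) (.e (nat_lit 303118) (nat_lit 3) (.e (nat_lit 204819) (nat_lit 17) (.e (nat_lit 6113) (nat_lit 332) (.e (nat_lit 2779) (nat_lit 178) .nil)))) .nil)) 
(.lf (nat_lit 289514) (.g (nat_lit 3224) (.e (nat_lit 303119) (nat_lit 3) (.e (nat_lit 204819) (nat_lit 17) (.e (nat_lit 6113) (nat_lit 332) (.e (nat_lit 2507) (nat_lit 157) (.e (nat_lit 5293) (nat_lit 298) (.e (nat_lit 1250) (nat_lit 92) (.e (nat_lit 98323) (nat_lit 17) (.e (nat_lit 6989) (nat_lit 377) (.e (nat_lit 2810) (nat_lit 180) .nil))))))))) (.g (nat_lit 6) .nil .nil)))) (.nd (nat_lit 5) 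
(.lf (nat_lit 289498) (.g (nat_lit 822) (.e (nat_lit 303118) (nat_lit 3) (.e (nat_lit 204877) (nat_lit 31) (.e (nat_lit 376865) (nat_lit 22) (.e (nat_lit 90181) (nat_lit 16) .nil)))) .nil)) 
(.lf (nat_lit 289530) (.g (nat_lit 4387) (.e (nat_lit 303119) (nat_lit 3) (.e (nat_lit 204845) (nat_lit 24) (.e (nat_lit 319538) (nat_lit 19) (.e (nat_lit 311315) (nat_lit 3) (.e (nat_lit 204819) (nat_lit 17) (.e (nat_lit 6113) (nat_lit 332) (.e (nat_lit 1374) (nat_lit 104) .nil))))))) (.g (nat_lit 7) .nil .nil)))))) (.nd (nat_lit 3) (.nd (nat_lit 4) (.nd (nat_lit 5) 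
(.lf (nat_lit 289478) (.g (nat_lit 3189) (.e (nat_lit 303117) (nat_lit 2) (.e (nat_lit 196674) (nat_lit 15) (.e (nat_lit 81956) (nat_lit 23) (.e (nat_lit 98350) (nat_lit 24) (.e (nat_lit 417536) (nat_lit 18) .nil))))) (.g (nat_lit 4) .nil .nil))) 
(.lf (nat_lit 289510) (.g (nat_lit 3729) (.e (nat_lit 303119) (nat_lit 3) (.e (nat_lit 204819) (nat_lit 17) (.e (nat_lit 6113) (nat_lit 332) (.e (nat_lit 1374) (nat_lit 104) (.e (nat_lit 303119) (nat_lit 3) (.e (nat_lit 204846) (nat_lit 24) (.e (nat_lit 327424) (nat_lit 18) .nil))))))) (.g (nat_lit 6) .nil .nil)))) (.nd (nat_lit 5) 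
(.lf (nat_lit 289494) (.g (nat_lit 1301) (.e (nat_lit 303118) (nat_lit 3) (.e (nat_lit 204867) (nat_lit 28) (.e (nat_lit 352315) (nat_lit 23) (.e (nat_lit 98349) (nat_lit 24) .nil)))) .nil)) 
(.lf (nat_lit 289526) (.g (nat_lit 2690) (.e (nat_lit 303119) (nat_lit 3) (.e (nat_lit 204845) (nat_lit 24) (.e (nat_lit 319531) (nat_lit 16) (.e (nat_lit 286733) (nat_lit 2) (.e (nat_lit 90165) (nat_lit 12) .nil))))) .nil)))) (.nd (nat_lit 4) (.nd (nat_lit 5) 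
(.lf (nat_lit 289486) (.g (nat_lit 4107) (.e (nat_lit 303118) (nat_lit 3) (.e (nat_lit 204855) (nat_lit 26) (.e (nat_lit 336099) (nat_lit 9) (.e (nat_lit 336028) (nat_lit 3) (.e (nat_lit 98349) (nat_lit 24) (.e (nat_lit 409644) (nat_lit 18) .nil)))))) (.g (nat_lit 0) .nil .nil))) 
(.lf (nat_lit 289518) (.g (nat_lit 2594) (.e (nat_lit 303119) (nat_lit 3) (.e (nat_lit 204821) (nat_lit 17) (.e (nat_lit 6114) (nat_lit 332) (.e (nat_lit 2777) (nat_lit 178) (.e (nat_lit 286735) (nat_lit 3) (.e (nat_lit 98350) (nat_lit 24) (.e (nat_lit 417536) (nat_lit 18) .nil))))))) (.g (nat_lit 4) .nil .nil)))) (.nd (nat_lit 5) 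
(.lf (nat_lit 289502) (.g (nat_lit 3730) (.e (nat_lit 303118) (nat_lit 3) (.e (nat_lit 204885) (nat_lit 33) (.e (nat_lit 401448) (nat_lit 10) (.e (nat_lit 434231) (nat_lit 23) (.e (nat_lit 532490) (nat_lit 0) (.e (nat_lit 6114) (nat_lit 332) (.e (nat_lit 1379) (nat_lit 104) .nil))))))) (.g (nat_lit 5) .nil .nil))) 
(.lf (nat_lit 289534) (.g (nat_lit 2950) (.e (nat_lit 303119) (nat_lit 3) (.e (nat_lit 204846) (nat_lit 24) (.e (nat_lit 319533) (nat_lit 16) (.e (nat_lit 286732) (nat_lit 2) (.e (nat_lit 90165) (nat_lit 12) (.e (nat_lit 164208) (nat_lit 176) (.e (nat_lit 1374) (nat_lit 104) .nil))))))) (.g (nat_lit 4) .nil .nil)))))))) 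
(.nd (nat_lit 1) (.nd (nat_lit 2) (.nd (nat_lit 3) (.nd (nat_lit 4) (.nd (nat_lit 5) 
(.lf (nat_lit 289473) (.g (nat_lit 4292) (.e (nat_lit 303117) (nat_lit 2) (.e (nat_lit 196674) (nat_lit 15) (.e (nat_lit 81954) (nat_lit 23) (.e (nat_lit 98350) (nat_lit 24) (.e (nat_lit 409645) (nat_lit 18) .nil))))) (.g (nat_lit 0) .nil .nil))) 
(.lf (nat_lit 289505) (.g (nat_lit 2951) (.e (nat_lit 303119) (nat_lit 3) (.e (nat_lit 204819) (nat_lit 17) (.e (nat_lit 6113) (nat_lit 332) (.e (nat_lit 1361) (nat_lit 102) (.e (nat_lit 286735) (nat_lit 3) (.e (nat_lit 98350) (nat_lit 24) (.e (nat_lit 417536) (nat_lit 8) .nil))))))) (.g (nat_lit 6) .nil .nil)))) (.nd (nat_lit 5) 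
(.lf (nat_lit 289489) (.g (nat_lit 552) (.e (nat_lit 303118) (nat_lit 3) (.e (nat_lit 204861) (nat_lit 26) (.e (nat_lit 336075) (nat_lit 9) .nil))) .nil)) 
(.lf (nat_lit 289521) (.g (nat_lit 975) (.e (nat_lit 303119) (nat_lit 3) (.e (nat_lit 204830) (nat_lit 18) (.e (nat_lit 57761) (nat_lit 215) .nil))) .nil)))) (.nd (nat_lit 4) (.nd (nat_lit 5) 
(.lf (nat_lit 289481) (.g (nat_lit 1173) (.e (nat_lit 311040) (nat_lit 2) (.e (nat_lit 196672) (nat_lit 15) (.e (nat_lit 81954) (nat_lit 23) (.e (nat_lit 98349) (nat_lit 24) .nil)))) .nil)) 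
(.lf (nat_lit 289513) (.g (nat_lit 3566) (.e (nat_lit 303119) (nat_lit 3) (.e (nat_lit 204819) (nat_lit 17) (.e (nat_lit 6113) (nat_lit 332) (.e (nat_lit 2406) (nat_lit 157) (.e (nat_lit 5293) (nat_lit 298) (.e (nat_lit 1250) (nat_lit 92) (.e (nat_lit 98350) (nat_lit 24) (.e (nat_lit 417536) (nat_lit 18) .nil)))))))) (.g (nat_lit 7) .nil .nil)))) (.nd (nat_lit 5) 
(.lf (nat_lit 289497) (.g (nat_lit 2975) (.e (nat_lit 303118) (nat_lit 3) (.e (nat_lit 204876) (nat_lit 31) (.e (nat_lit 376867) (nat_lit 23) (.e (nat_lit 98350) (nat_lit 24) (.e (nat_lit 409647) (nat_lit 18) .nil))))) (.g (nat_lit 0) .nil .nil))) 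
(.lf (nat_lit 289529) (.g (nat_lit 3547) (.e (nat_lit 303119) (nat_lit 3) (.e (nat_lit 204845) (nat_lit 24) (.e (nat_lit 319531) (nat_lit 16) (.e (nat_lit 286735) (nat_lit 3) (.e (nat_lit 98325) (nat_lit 17) (.e (nat_lit 6986) (nat_lit 377) (.e (nat_lit 1376) (nat_lit 104) .nil))))))) (.g (nat_lit 4) .nil .nil)))))) (.nd (nat_lit 3) (.nd (nat_lit 4) (.nd (nat_lit 5) 
(.lf (nat_lit 289477) (.g (nat_lit 4110) (.e (nat_lit 303117) (nat_lit 2) (.e (nat_lit 196674) (nat_lit 15) (.e (nat_lit 81956) (nat_lit 23) (.e (nat_lit 98350) (nat_lit 24) (.e (nat_lit 409644) (nat_lit 18) .nil))))) (.g (nat_lit 4) .nil .nil))) 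
(.lf (nat_lit 289509) (.g (nat_lit 2983) (.e (nat_lit 303119) (nat_lit 3) (.e (nat_lit 204819) (nat_lit 17) (.e (nat_lit 6113) (nat_lit 332) (.e (nat_lit 1374) (nat_lit 104) (.e (nat_lit 303119) (nat_lit 3) (.e (nat_lit 204821) (nat_lit 17) (.e (nat_lit 6114) (nat_lit 332) (.e (nat_lit 1378) (nat_lit 104) .nil)))))))) (.g (nat_lit 4) .nil .nil)))) (.nd (nat_lit 5) 
(.lf (nat_lit 289493) (.g (nat_lit 3462) (.e (nat_lit 303118) (nat_lit 3) (.e (nat_lit 204866) (nat_lit 28) (.e (nat_lit 352315) (nat_lit 23) (.e (nat_lit 98349) (nat_lit 24) (.e (nat_lit 409644) (nat_lit 18) .nil))))) (.g (nat_lit 0) .nil .nil))) 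
(.lf (nat_lit 289525) (.g (nat_lit 3358) (.e (nat_lit 303119) (nat_lit 3) (.e (nat_lit 204845) (nat_lit 24) (.e (nat_lit 319530) (nat_lit 16) (.e (nat_lit 286735) (nat_lit 3) (.e (nat_lit 98350) (nat_lit 24) (.e (nat_lit 417536) (nat_lit 8) .nil)))))) (.g (nat_lit 5) .nil .nil))))) (.nd (nat_lit 4) (.nd (nat_lit 5) 
(.lf (nat_lit 289485) (.g (nat_lit 2327) (.e (nat_lit 303118) (nat_lit 3) (.e (nat_lit 204855) (nat_lit 26) (.e (nat_lit 336099) (nat_lit 9) (.e (nat_lit 336013) (nat_lit 2) (.e (nat_lit 98048) (nat_lit 18) (.e (nat_lit 1330) (nat_lit 100) (.e (nat_lit 270353) (nat_lit 8) .nil))))))) (.g (nat_lit 4) .nil .nil))) 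
(.lf (nat_lit 289517) (.g (nat_lit 3259) (.e (nat_lit 303119) (nat_lit 3) (.e (nat_lit 204819) (nat_lit 17) (.e (nat_lit 6113) (nat_lit 332) (.e (nat_lit 2777) (nat_lit 178) (.e (nat_lit 286735) (nat_lit 3) (.e (nat_lit 98350) (nat_lit 24) (.e (nat_lit 417536) (nat_lit 18) .nil))))))) (.g (nat_lit 6) .nil .nil)))) (.nd (nat_lit 5) 
(.lf (nat_lit 289501) (.g (nat_lit 1779) (.e (nat_lit 303118) (nat_lit 3) (.e (nat_lit 204877) (nat_lit 31) (.e (nat_lit 376869) (nat_lit 23) (.e (nat_lit 98350) (nat_lit 24) (.e (nat_lit 417536) (nat_lit 18) .nil))))) (.g (nat_lit 4) .nil .nil))) 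
(.lf (nat_lit 289533) (.g (nat_lit 3218) (.e (nat_lit 303119) (nat_lit 3) (.e (nat_lit 204846) (nat_lit 24) (.e (nat_lit 319530) (nat_lit 16) (.e (nat_lit 286735) (nat_lit 3) (.e (nat_lit 98350) (nat_lit 24) (.e (nat_lit 417536) (nat_lit 8) .nil)))))) (.g (nat_lit 5) .nil .nil))))))) (.nd (nat_lit 2) (.nd (nat_lit 3) (.nd (nat_lit 4) (.nd (nat_lit 5) 
(.lf (nat_lit 289475) (.g (nat_lit 2459) (.e (nat_lit 303117) (nat_lit 2) (.e (nat_lit 196674) (nat_lit 15) (.e (nat_lit 81955) (nat_lit 23) (.e (nat_lit 98350) (nat_lit 24) (.e (nat_lit 417536) (nat_lit 18) .nil))))) (.g (nat_lit 4) .nil .nil))) 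
(.lf (nat_lit 289507) (.g (nat_lit 3022) (.e (nat_lit 303119) (nat_lit 3) (.e (nat_lit 204819) (nat_lit 17) (.e (nat_lit 6113) (nat_lit 332) (.e (nat_lit 1374) (nat_lit 104) (.e (nat_lit 303119) (nat_lit 3) (.e (nat_lit 204819) (nat_lit 17) (.e (nat_lit 6113) (nat_lit 332) (.e (nat_lit 1376) (nat_lit 104) .nil)))))))) (.g (nat_lit 4) .nil .nil)))) (.nd (nat_lit 5) 
(.lf (nat_lit 289491) (.g (nat_lit 1063) (.e (nat_lit 303118) (nat_lit 3) (.e (nat_lit 204863) (nat_lit 27) (.e (nat_lit 344072) (nat_lit 8) .nil))) .nil)) 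
(.lf (nat_lit 289523) (.g (nat_lit 2715) (.e (nat_lit 303119) (nat_lit 3) (.e (nat_lit 204845) (nat_lit 24) (.e (nat_lit 319530) (nat_lit 16) (.e (nat_lit 286733) (nat_lit 2) (.e (nat_lit 90165) (nat_lit 12) .nil))))) .nil)))) (.nd (nat_lit 4) (.nd (nat_lit 5) 
(.lf (nat_lit 289483) (.g (nat_lit 3452) (.e (nat_lit 303118) (nat_lit 3) (.e (nat_lit 204846) (nat_lit 24) (.e (nat_lit 319530) (nat_lit 16) (.e (nat_lit 286735) (nat_lit 3) (.e (nat_lit 98350) (nat_lit 24) (.e (nat_lit 417536) (nat_lit 8) .nil)))))) (.g (nat_lit 4) .nil .nil))) 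
(.lf (nat_lit 289515) (.g (nat_lit 3800) (.e (nat_lit 303119) (nat_lit 3) (.e (nat_lit 204819) (nat_lit 17) (.e (nat_lit 6113) (nat_lit 332) (.e (nat_lit 2507) (nat_lit 157) (.e (nat_lit 5293) (nat_lit 298) (.e (nat_lit 1250) (nat_lit 92) (.e (nat_lit 98350) (nat_lit 24) (.e (nat_lit 409643) (nat_lit 18) .nil)))))))) (.g (nat_lit 7) .nil .nil)))) (.nd (nat_lit 5) 
(.lf (nat_lit 289499) (.g (nat_lit 1530) (.e (nat_lit 303118) (nat_lit 3) (.e (nat_lit 204877) (nat_lit 31) (.e (nat_lit 376869) (nat_lit 23) (.e (nat_lit 98349) (nat_lit 24) (.e (nat_lit 417536) (nat_lit 18) .nil))))) (.g (nat_lit 4) .nil .nil))) 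
(.lf (nat_lit 289531) (.g (nat_lit 456) (.e (nat_lit 303119) (nat_lit 3) (.e (nat_lit 204846) (nat_lit 24) (.e (nat_lit 327424) (nat_lit 7) .nil))) .nil))))) (.nd (nat_lit 3) (.nd (nat_lit 4) (.nd (nat_lit 5) 
(.lf (nat_lit 289479) (.g (nat_lit 1908) (.e (nat_lit 311040) (nat_lit 2) (.e (nat_lit 196666) (nat_lit 13) (.e (nat_lit 65610) (nat_lit 10) (.e (nat_lit 344117) (nat_lit 21) .nil)))) .nil)) 
(.lf (nat_lit 289511) (.g (nat_lit 831) (.e (nat_lit 303119) (nat_lit 3) (.e (nat_lit 204819) (nat_lit 17) (.e (nat_lit 6113) (nat_lit 332) (.e (nat_lit 2406) (nat_lit 157) .nil)))) .nil))) (.nd (nat_lit 5) 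
(.lf (nat_lit 289495) (.g (nat_lit 2930) (.e (nat_lit 303118) (nat_lit 3) (.e (nat_lit 204867) (nat_lit 28) (.e (nat_lit 352315) (nat_lit 23) (.e (nat_lit 98350) (nat_lit 24) (.e (nat_lit 409647) (nat_lit 18) .nil))))) (.g (nat_lit 4) .nil .nil))) 
(.lf (nat_lit 289527) (.g (nat_lit 3790) (.e (nat_lit 303119) (nat_lit 3) (.e (nat_lit 204845) (nat_lit 24) (.e (nat_lit 319531) (nat_lit 16) (.e (nat_lit 286735) (nat_lit 3) (.e (nat_lit 98323) (nat_lit 17) (.e (nat_lit 6989) (nat_lit 377) (.e (nat_lit 1374) (nat_lit 104) .nil))))))) (.g (nat_lit 6) .nil .nil))))) (.nd (nat_lit 4) (.nd (nat_lit 5) 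
(.lf (nat_lit 289487) (.g (nat_lit 3300) (.e (nat_lit 303118) (nat_lit 3) (.e (nat_lit 204855) (nat_lit 26) (.e (nat_lit 336110) (nat_lit 9) (.e (nat_lit 336028) (nat_lit 3) (.e (nat_lit 98350) (nat_lit 24) (.e (nat_lit 409647) (nat_lit 18) .nil)))))) (.g (nat_lit 5) .nil .nil))) 
(.lf (nat_lit 289519) (.g (nat_lit 882) (.e (nat_lit 303119) (nat_lit 3) (.e (nat_lit 204829) (nat_lit 18) (.e (nat_lit 57761) (nat_lit 215) .nil))) .nil))) (.nd (nat_lit 5) 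
(.lf (nat_lit 289503) (.g (nat_lit 4550) (.e (nat_lit 303119) (nat_lit 3) (.e (nat_lit 204816) (nat_lit 17) (.e (nat_lit 6724) (nat_lit 362) (.e (nat_lit 180243) (nat_lit 5) (.e (nat_lit 532486) (nat_lit 0) (.e (nat_lit 6113) (nat_lit 332) (.e (nat_lit 1374) (nat_lit 104) .nil))))))) (.g (nat_lit 7) .nil .nil))) 
(.lf (nat_lit 289535) (.g (nat_lit 3396) (.e (nat_lit 303119) (nat_lit 3) (.e (nat_lit 204846) (nat_lit 24) (.e (nat_lit 319533) (nat_lit 16) (.e (nat_lit 286733) (nat_lit 2) (.e (nat_lit 90165) (nat_lit 12) (.e (nat_lit 164208) (nat_lit 176) (.e (nat_lit 1376) (nat_lit 104) .nil))))))) (.g (nat_lit 4) .nil .nil)))))))))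

noncomputable def tv3660 : DT := (.nd (nat_lit 0) (.nd (nat_lit 1) (.nd (nat_lit 2) (.nd (nat_lit 3) (.nd (nat_lit 4) (.nd (nat_lit 5) 
(.lf (nat_lit 289536) (.g (nat_lit 1112) (.e (nat_lit 303119) (nat_lit 3) (.e (nat_lit 204846) (nat_lit 24) (.e (nat_lit 319534) (nat_lit 16) (.e (nat_lit 286728) (nat_lit 0) .nil)))) .nil)) 
(.lf (nat_lit 289568) (.g (nat_lit 2213) (.e (nat_lit 303119) (nat_lit 3) (.e (nat_lit 204861) (nat_lit 26) (.e (nat_lit 336229) (nat_lit 14) (.e (nat_lit 401425) (nat_lit 2) (.e (nat_lit 196628) (nat_lit 9) .nil))))) .nil))) (.nd (nat_lit 5) 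
(.lf (nat_lit 289552) (.g (nat_lit 942) (.e (nat_lit 303119) (nat_lit 3) (.e (nat_lit 204855) (nat_lit 26) (.e (nat_lit 336144) (nat_lit 9) .nil))) .nil)) 
(.lf (nat_lit 289584) (.g (nat_lit 2663) (.e (nat_lit 303119) (nat_lit 3) (.e (nat_lit 204867) (nat_lit 28) (.e (nat_lit 352315) (nat_lit 23) (.e (nat_lit 98350) (nat_lit 24) (.e (nat_lit 409643) (nat_lit 18) .nil))))) (.g (nat_lit 4) .nil .nil))))) (.nd (nat_lit 4) (.nd (nat_lit 5) 
(.lf (nat_lit 289544) (.g (nat_lit 1840) (.e (nat_lit 303119) (nat_lit 3) (.e (nat_lit 204852) (nat_lit 26) (.e (nat_lit 336132) (nat_lit 9) (.e (nat_lit 336027) (nat_lit 3) (.e (nat_lit 98350) (nat_lit 24) .nil))))) .nil)) 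
(.lf (nat_lit 289576) (.g (nat_lit 2007) (.e (nat_lit 303119) (nat_lit 3) (.e (nat_lit 204865) (nat_lit 28) (.e (nat_lit 352315) (nat_lit 23) (.e (nat_lit 98349) (nat_lit 24) (.e (nat_lit 417536) (nat_lit 18) .nil))))) (.g (nat_lit 4) .nil .nil)))) (.nd (nat_lit 5) 
(.lf (nat_lit 289560) (.g (nat_lit 2753) (.e (nat_lit 303119) (nat_lit 3) (.e (nat_lit 204861) (nat_lit 26) (.e (nat_lit 336076) (nat_lit 9) (.e (nat_lit 336019) (nat_lit 3) (.e (nat_lit 98349) (nat_lit 24) (.e (nat_lit 409645) (nat_lit 18) .nil)))))) (.g (nat_lit 4) .nil .nil))) 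
(.lf (nat_lit 289592) (.g (nat_lit 2628) (.e (nat_lit 303119) (nat_lit 3) (.e (nat_lit 204885) (nat_lit 33) (.e (nat_lit 401434) (nat_lit 9) (.e (nat_lit 426140) (nat_lit 3) (.e (nat_lit 204819) (nat_lit 17) (.e (nat_lit 6113) (nat_lit 332) (.e (nat_lit 1374) (nat_lit 104) .nil))))))) (.g (nat_lit 4) .nil .nil)))))) (.nd (nat_lit 3) (.nd (nat_lit 4) (.nd (nat_lit 5) 
(.lf (nat_lit 289540) (.g (nat_lit 2529) (.e (nat_lit 303119) (nat_lit 3) (.e (nat_lit 204849) (nat_lit 25) (.e (nat_lit 327700) (nat_lit 8) (.e (nat_lit 303117) (nat_lit 2) (.e (nat_lit 196628) (nat_lit 9) (.e (nat_lit 970) (nat_lit 81) (.e (nat_lit 6202) (nat_lit 332) (.e (nat_lit 2798) (nat_lit 180) .nil)))))))) (.g (nat_lit 4) .nil .nil))) 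
(.lf (nat_lit 289572) (.g (nat_lit 860) (.e (nat_lit 303119) (nat_lit 3) (.e (nat_lit 204863) (nat_lit 27) (.e (nat_lit 344091) (nat_lit 18) .nil))) .nil))) (.nd (nat_lit 5) 
(.lf (nat_lit 289556) (.g (nat_lit 2253) (.e (nat_lit 303119) (nat_lit 3) (.e (nat_lit 204859) (nat_lit 26) (.e (nat_lit 336118) (nat_lit 9) (.e (nat_lit 336017) (nat_lit 3) (.e (nat_lit 98350) (nat_lit 24) (.e (nat_lit 417536) (nat_lit 18) .nil)))))) (.g (nat_lit 5) .nil .nil))) 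
(.lf (nat_lit 289588) (.g (nat_lit 1779) (.e (nat_lit 303119) (nat_lit 3) (.e (nat_lit 204877) (nat_lit 31) (.e (nat_lit 376869) (nat_lit 23) (.e (nat_lit 98349) (nat_lit 24) (.e (nat_lit 417536) (nat_lit 18) .nil))))) (.g (nat_lit 4) .nil .nil))))) (.nd (nat_lit 4) (.nd (nat_lit 5) 
(.lf (nat_lit 289548) (.g (nat_lit 1043) (.e (nat_lit 303119) (nat_lit 3) (.e (nat_lit 204854) (nat_lit 26) (.e (nat_lit 336129) (nat_lit 9) .nil))) .nil)) 
(.lf (nat_lit 289580) (.g (nat_lit 2818) (.e (nat_lit 303119) (nat_lit 3) (.e (nat_lit 204865) (nat_lit 28) (.e (nat_lit 352315) (nat_lit 23) (.e (nat_lit 98350) (nat_lit 24) (.e (nat_lit 417536) (nat_lit 18) .nil))))) (.g (nat_lit 4) .nil .nil)))) (.nd (nat_lit 5) 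
(.lf (nat_lit 289564) (.g (nat_lit 3501) (.e (nat_lit 303119) (nat_lit 3) (.e (nat_lit 204861) (nat_lit 26) (.e (nat_lit 336088) (nat_lit 9) (.e (nat_lit 336019) (nat_lit 3) (.e (nat_lit 98350) (nat_lit 24) (.e (nat_lit 409643) (nat_lit 18) .nil)))))) (.g (nat_lit 5) .nil .nil))) 
(.lf (nat_lit 289596) (.g (nat_lit 1404) (.e (nat_lit 303122) (nat_lit 6) (.e (nat_lit 253988) (nat_lit 11) (.e (nat_lit 16465) (nat_lit 13) (.e (nat_lit 483371) (nat_lit 21) (.e (nat_lit 327424) (nat_lit 18) .nil))))) (.g (nat_lit 4) .nil .nil))))))) (.nd (nat_lit 2) (.nd (nat_lit 3) (.nd (nat_lit 4) (.nd (nat_lit 5) 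
(.lf (nat_lit 289538) (.g (nat_lit 2738) (.e (nat_lit 303119) (nat_lit 3) (.e (nat_lit 204849) (nat_lit 25) (.e (nat_lit 327697) (nat_lit 7) (.e (nat_lit 294931) (nat_lit 3) (.e (nat_lit 98323) (nat_lit 17) (.e (nat_lit 6989) (nat_lit 377) (.e (nat_lit 2810) (nat_lit 180) .nil))))))) (.g (nat_lit 0) .nil .nil))) 
(.lf (nat_lit 289570) (.g (nat_lit 858) (.e (nat_lit 303119) (nat_lit 3) (.e (nat_lit 204863) (nat_lit 27) (.e (nat_lit 344071) (nat_lit 8) .nil))) .nil))) (.nd (nat_lit 5) 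
(.lf (nat_lit 289554) (.g (nat_lit 2888) (.e (nat_lit 303119) (nat_lit 3) (.e (nat_lit 204855) (nat_lit 26) (.e (nat_lit 336193) (nat_lit 12) (.e (nat_lit 385074) (nat_lit 31) (.e (nat_lit 573454) (nat_lit 9) (.e (nat_lit 970) (nat_lit 81) (.e (nat_lit 6202) (nat_lit 332) (.e (nat_lit 2798) (nat_lit 180) .nil)))))))) (.g (nat_lit 4) .nil .nil))) 
(.lf (nat_lit 289586) (.g (nat_lit 1150) (.e (nat_lit 303119) (nat_lit 3) (.e (nat_lit 204870) (nat_lit 29) (.e (nat_lit 360466) (nat_lit 3) (.e (nat_lit 516141) (nat_lit 8) .nil)))) .nil)))) (.nd (nat_lit 4) (.nd (nat_lit 5) 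
(.lf (nat_lit 289546) (.g (nat_lit 3782) (.e (nat_lit 303119) (nat_lit 3) (.e (nat_lit 204852) (nat_lit 26) (.e (nat_lit 336142) (nat_lit 9) (.e (nat_lit 336027) (nat_lit 3) (.e (nat_lit 98350) (nat_lit 24) (.e (nat_lit 417536) (nat_lit 18) .nil)))))) (.g (nat_lit 5) .nil .nil))) 
(.lf (nat_lit 289578) (.g (nat_lit 3456) (.e (nat_lit 303119) (nat_lit 3) (.e (nat_lit 204865) (nat_lit 28) (.e (nat_lit 352315) (nat_lit 23) (.e (nat_lit 98350) (nat_lit 24) (.e (nat_lit 409647) (nat_lit 18) .nil))))) (.g (nat_lit 4) .nil .nil)))) (.nd (nat_lit 5) 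
(.lf (nat_lit 289562) (.g (nat_lit 3161) (.e (nat_lit 303119) (nat_lit 3) (.e (nat_lit 204861) (nat_lit 26) (.e (nat_lit 336076) (nat_lit 9) (.e (nat_lit 336019) (nat_lit 3) (.e (nat_lit 98350) (nat_lit 24) (.e (nat_lit 417536) (nat_lit 18) .nil)))))) (.g (nat_lit 4) .nil .nil))) 
(.lf (nat_lit 289594) (.g (nat_lit 4626) (.e (nat_lit 303119) (nat_lit 3) (.e (nat_lit 204885) (nat_lit 33) (.e (nat_lit 401448) (nat_lit 10) (.e (nat_lit 434231) (nat_lit 23) (.e (nat_lit 532486) (nat_lit 0) (.e (nat_lit 6113) (nat_lit 332) (.e (nat_lit 1374) (nat_lit 104) .nil))))))) (.g (nat_lit 7) .nil .nil)))))) (.nd (nat_lit 3) (.nd (nat_lit 4) (.nd (nat_lit 5) 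
(.lf (nat_lit 289542) (.g (nat_lit 4226) (.e (nat_lit 303119) (nat_lit 3) (.e (nat_lit 204852) (nat_lit 26) (.e (nat_lit 336129) (nat_lit 9) (.e (nat_lit 336027) (nat_lit 3) (.e (nat_lit 98350) (nat_lit 24) (.e (nat_lit 409647) (nat_lit 18) .nil)))))) (.g (nat_lit 6) .nil .nil))) 
(.lf (nat_lit 289574) (.g (nat_lit 1731) (.e (nat_lit 303119) (nat_lit 3) (.e (nat_lit 204863) (nat_lit 27) (.e (nat_lit 344096) (nat_lit 18) (.e (nat_lit 4411) (nat_lit 259) .nil)))) .nil))) (.nd (nat_lit 5) 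
(.lf (nat_lit 289558) (.g (nat_lit 3316) (.e (nat_lit 303119) (nat_lit 3) (.e (nat_lit 204859) (nat_lit 26) (.e (nat_lit 336206) (nat_lit 12) (.e (nat_lit 385074) (nat_lit 31) (.e (nat_lit 573454) (nat_lit 9) (.e (nat_lit 968) (nat_lit 81) (.e (nat_lit 6202) (nat_lit 332) (.e (nat_lit 2798) (nat_lit 180) .nil)))))))) (.g (nat_lit 5) .nil .nil))) 
(.lf (nat_lit 289590) (.g (nat_lit 2604) (.e (nat_lit 303119) (nat_lit 3) (.e (nat_lit 204878) (nat_lit 31) (.e (nat_lit 376866) (nat_lit 23) (.e (nat_lit 98350) (nat_lit 24) (.e (nat_lit 409646) (nat_lit 18) .nil))))) (.g (nat_lit 0) .nil .nil))))) (.nd (nat_lit 4) (.nd (nat_lit 5) 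
(.lf (nat_lit 289550) (.g (nat_lit 2029) (.e (nat_lit 303119) (nat_lit 3) (.e (nat_lit 204854) (nat_lit 26) (.e (nat_lit 336142) (nat_lit 9) (.e (nat_lit 336027) (nat_lit 3) (.e (nat_lit 98350) (nat_lit 24) .nil))))) .nil)) 
(.lf (nat_lit 289582) (.g (nat_lit 3854) (.e (nat_lit 303119) (nat_lit 3) (.e (nat_lit 204867) (nat_lit 28) (.e (nat_lit 352315) (nat_lit 23) (.e (nat_lit 98349) (nat_lit 24) (.e (nat_lit 409645) (nat_lit 18) .nil))))) (.g (nat_lit 0) .nil .nil)))) (.nd (nat_lit 5) 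
(.lf (nat_lit 289566) (.g (nat_lit 3161) (.e (nat_lit 303119) (nat_lit 3) (.e (nat_lit 204861) (nat_lit 26) (.e (nat_lit 336088) (nat_lit 9) (.e (nat_lit 336019) (nat_lit 3) (.e (nat_lit 98350) (nat_lit 24) (.e (nat_lit 417536) (nat_lit 18) .nil)))))) (.g (nat_lit 4) .nil .nil))) 
(.lf (nat_lit 289598) (.g (nat_lit 620) (.e (nat_lit 303123) (nat_lit 7) (.e (nat_lit 409646) (nat_lit 18) (.e (nat_lit 303111) (nat_lit 0) .nil))) .nil))))))) (.nd (nat_lit 1) (.nd (nat_lit 2) (.nd (nat_lit 3) (.nd (nat_lit 4) (.nd (nat_lit 5) 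
(.lf (nat_lit 289537) (.g (nat_lit 3454) (.e (nat_lit 303119) (nat_lit 3) (.e (nat_lit 204846) (nat_lit 24) (.e (nat_lit 319534) (nat_lit 16) (.e (nat_lit 286733) (nat_lit 2) (.e (nat_lit 90165) (nat_lit 12) (.e (nat_lit 164208) (nat_lit 176) (.e (nat_lit 1376) (nat_lit 104) .nil))))))) (.g (nat_lit 4) .nil .nil))) 
(.lf (nat_lit 289569) (.g (nat_lit 1888) (.e (nat_lit 303119) (nat_lit 3) (.e (nat_lit 204863) (nat_lit 27) (.e (nat_lit 344068) (nat_lit 0) (.e (nat_lit 2663) (nat_lit 167) (.e (nat_lit 196628) (nat_lit 9) .nil))))) .nil))) (.nd (nat_lit 5) 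
(.lf (nat_lit 289553) (.g (nat_lit 601) (.e (nat_lit 303119) (nat_lit 3) (.e (nat_lit 204855) (nat_lit 26) (.e (nat_lit 336177) (nat_lit 10) .nil))) .nil)) 
(.lf (nat_lit 289585) (.g (nat_lit 2678) (.e (nat_lit 303119) (nat_lit 3) (.e (nat_lit 204867) (nat_lit 28) (.e (nat_lit 352315) (nat_lit 23) (.e (nat_lit 98350) (nat_lit 24) (.e (nat_lit 409647) (nat_lit 18) .nil))))) (.g (nat_lit 4) .nil .nil))))) (.nd (nat_lit 4) (.nd (nat_lit 5) 
(.lf (nat_lit 289545) (.g (nat_lit 4060) (.e (nat_lit 303119) (nat_lit 3) (.e (nat_lit 204852) (nat_lit 26) (.e (nat_lit 336142) (nat_lit 9) (.e (nat_lit 336027) (nat_lit 3) (.e (nat_lit 98350) (nat_lit 24) (.e (nat_lit 409643) (nat_lit 18) .nil)))))) (.g (nat_lit 5) .nil .nil))) 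
(.lf (nat_lit 289577) (.g (nat_lit 3142) (.e (nat_lit 303119) (nat_lit 3) (.e (nat_lit 204865) (nat_lit 28) (.e (nat_lit 352315) (nat_lit 23) (.e (nat_lit 98350) (nat_lit 24) (.e (nat_lit 409643) (nat_lit 18) .nil))))) (.g (nat_lit 4) .nil .nil)))) (.nd (nat_lit 5) 
(.lf (nat_lit 289561) (.g (nat_lit 4103) (.e (nat_lit 303119) (nat_lit 3) (.e (nat_lit 204861) (nat_lit 26) (.e (nat_lit 336076) (nat_lit 9) (.e (nat_lit 336019) (nat_lit 3) (.e (nat_lit 98350) (nat_lit 24) (.e (nat_lit 409645) (nat_lit 18) .nil)))))) (.g (nat_lit 5) .nil .nil))) 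
(.lf (nat_lit 289593) (.g (nat_lit 4287) (.e (nat_lit 303119) (nat_lit 3) (.e (nat_lit 204885) (nat_lit 33) (.e (nat_lit 401434) (nat_lit 9) (.e (nat_lit 426140) (nat_lit 3) (.e (nat_lit 204821) (nat_lit 17) (.e (nat_lit 6114) (nat_lit 332) (.e (nat_lit 1374) (nat_lit 104) .nil))))))) (.g (nat_lit 0) .nil .nil)))))) (.nd (nat_lit 3) (.nd (nat_lit 4) (.nd (nat_lit 5) 
(.lf (nat_lit 289541) (.g (nat_lit 892) (.e (nat_lit 303119) (nat_lit 3) (.e (nat_lit 204852) (nat_lit 26) (.e (nat_lit 336115) (nat_lit 9) .nil))) .nil)) 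
(.lf (nat_lit 289573) (.g (nat_lit 1731) (.e (nat_lit 303119) (nat_lit 3) (.e (nat_lit 204863) (nat_lit 27) (.e (nat_lit 344096) (nat_lit 18) (.e (nat_lit 4409) (nat_lit 259) .nil)))) .nil))) (.nd (nat_lit 5) 
(.lf (nat_lit 289557) (.g (nat_lit 2253) (.e (nat_lit 303119) (nat_lit 3) (.e (nat_lit 204859) (nat_lit 26) (.e (nat_lit 336152) (nat_lit 9) (.e (nat_lit 336017) (nat_lit 3) (.e (nat_lit 98350) (nat_lit 24) (.e (nat_lit 417536) (nat_lit 18) .nil)))))) (.g (nat_lit 5) .nil .nil))) 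
(.lf (nat_lit 289589) (.g (nat_lit 2132) (.e (nat_lit 303119) (nat_lit 3) (.e (nat_lit 204878) (nat_lit 31) (.e (nat_lit 376855) (nat_lit 20) (.e (nat_lit 1800) (nat_lit 119) (.e (nat_lit 516139) (nat_lit 7) (.e (nat_lit 417536) (nat_lit 18) .nil)))))) (.g (nat_lit 5) .nil .nil))))) (.nd (nat_lit 4) (.nd (nat_lit 5) 
(.lf (nat_lit 289549) (.g (nat_lit 1043) (.e (nat_lit 303119) (nat_lit 3) (.e (nat_lit 204854) (nat_lit 26) (.e (nat_lit 336138) (nat_lit 9) .nil))) .nil)) 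
(.lf (nat_lit 289581) (.g (nat_lit 3696) (.e (nat_lit 303119) (nat_lit 3) (.e (nat_lit 204866) (nat_lit 28) (.e (nat_lit 352314) (nat_lit 23) (.e (nat_lit 98350) (nat_lit 24) (.e (nat_lit 409649) (nat_lit 18) .nil))))) (.g (nat_lit 0) .nil .nil)))) (.nd (nat_lit 5) 
(.lf (nat_lit 289565) (.g (nat_lit 4138) (.e (nat_lit 303119) (nat_lit 3) (.e (nat_lit 204861) (nat_lit 26) (.e (nat_lit 336088) (nat_lit 9) (.e (nat_lit 336019) (nat_lit 3) (.e (nat_lit 98350) (nat_lit 24) (.e (nat_lit 409645) (nat_lit 18) .nil)))))) (.g (nat_lit 5) .nil .nil))) 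
(.lf (nat_lit 289597) (.g (nat_lit 1524) (.e (nat_lit 303123) (nat_lit 7) (.e (nat_lit 409616) (nat_lit 10) (.e (nat_lit 934) (nat_lit 76) (.e (nat_lit 786483) (nat_lit 30) .nil)))) .nil)))))) (.nd (nat_lit 2) (.nd (nat_lit 3) (.nd (nat_lit 4) (.nd (nat_lit 5) 
(.lf (nat_lit 289539) (.g (nat_lit 2020) (.e (nat_lit 303119) (nat_lit 3) (.e (nat_lit 204849) (nat_lit 25) (.e (nat_lit 327697) (nat_lit 7) (.e (nat_lit 294931) (nat_lit 3) (.e (nat_lit 98350) (nat_lit 24) (.e (nat_lit 417536) (nat_lit 18) .nil)))))) (.g (nat_lit 5) .nil .nil))) 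
(.lf (nat_lit 289571) (.g (nat_lit 873) (.e (nat_lit 303119) (nat_lit 3) (.e (nat_lit 204863) (nat_lit 27) (.e (nat_lit 344090) (nat_lit 18) .nil))) .nil))) (.nd (nat_lit 5) 
(.lf (nat_lit 289555) (.g (nat_lit 3335) (.e (nat_lit 303119) (nat_lit 3) (.e (nat_lit 204855) (nat_lit 26) (.e (nat_lit 336200) (nat_lit 12) (.e (nat_lit 385074) (nat_lit 31) (.e (nat_lit 573454) (nat_lit 9) (.e (nat_lit 970) (nat_lit 81) (.e (nat_lit 6202) (nat_lit 332) (.e (nat_lit 2798) (nat_lit 180) .nil)))))))) (.g (nat_lit 4) .nil .nil))) 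
(.lf (nat_lit 289587) (.g (nat_lit 1448) (.e (nat_lit 303119) (nat_lit 3) (.e (nat_lit 204877) (nat_lit 31) (.e (nat_lit 376865) (nat_lit 22) (.e (nat_lit 90123) (nat_lit 9) .nil)))) .nil)))) (.nd (nat_lit 4) (.nd (nat_lit 5) 
(.lf (nat_lit 289547) (.g (nat_lit 1035) (.e (nat_lit 303119) (nat_lit 3) (.e (nat_lit 204854) (nat_lit 26) (.e (nat_lit 336115) (nat_lit 9) .nil))) .nil)) 
(.lf (nat_lit 289579) (.g (nat_lit 3994) (.e (nat_lit 303119) (nat_lit 3) (.e (nat_lit 204865) (nat_lit 28) (.e (nat_lit 352315) (nat_lit 23) (.e (nat_lit 98350) (nat_lit 24) (.e (nat_lit 409648) (nat_lit 18) .nil))))) (.g (nat_lit 0) .nil .nil)))) (.nd (nat_lit 5) 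
(.lf (nat_lit 289563) (.g (nat_lit 1579) (.e (nat_lit 303119) (nat_lit 3) (.e (nat_lit 204861) (nat_lit 26) (.e (nat_lit 336076) (nat_lit 9) (.e (nat_lit 343808) (nat_lit 3) .nil)))) .nil)) 
(.lf (nat_lit 289595) (.g (nat_lit 1974) (.e (nat_lit 303121) (nat_lit 5) (.e (nat_lit 245792) (nat_lit 15) (.e (nat_lit 81953) (nat_lit 22) (.e (nat_lit 90130) (nat_lit 9) .nil)))) .nil))))) (.nd (nat_lit 3) (.nd (nat_lit 4) (.nd (nat_lit 5) 
(.lf (nat_lit 289543) (.g (nat_lit 3593) (.e (nat_lit 303119) (nat_lit 3) (.e (nat_lit 204852) (nat_lit 26) (.e (nat_lit 336129) (nat_lit 9) (.e (nat_lit 336027) (nat_lit 3) (.e (nat_lit 98350) (nat_lit 24) (.e (nat_lit 417536) (nat_lit 18) .nil)))))) (.g (nat_lit 5) .nil .nil))) 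
(.lf (nat_lit 289575) (.g (nat_lit 2906) (.e (nat_lit 303119) (nat_lit 3) (.e (nat_lit 204865) (nat_lit 28) (.e (nat_lit 352314) (nat_lit 23) (.e (nat_lit 98350) (nat_lit 24) (.e (nat_lit 409648) (nat_lit 18) .nil))))) (.g (nat_lit 0) .nil .nil)))) (.nd (nat_lit 5) 
(.lf (nat_lit 289559) (.g (nat_lit 2137) (.e (nat_lit 303119) (nat_lit 3) (.e (nat_lit 204860) (nat_lit 26) (.e (nat_lit 336088) (nat_lit 9) (.e (nat_lit 336019) (nat_lit 3) (.e (nat_lit 98349) (nat_lit 24) .nil))))) .nil)) 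
(.lf (nat_lit 289591) (.g (nat_lit 3104) (.e (nat_lit 303119) (nat_lit 3) (.e (nat_lit 204878) (nat_lit 31) (.e (nat_lit 376869) (nat_lit 23) (.e (nat_lit 98350) (nat_lit 24) (.e (nat_lit 409646) (nat_lit 18) .nil))))) (.g (nat_lit 0) .nil .nil))))) (.nd (nat_lit 4) (.nd (nat_lit 5) 
(.lf (nat_lit 289551) (.g (nat_lit 1749) (.e (nat_lit 303119) (nat_lit 3) (.e (nat_lit 204855) (nat_lit 26) (.e (nat_lit 336098) (nat_lit 9) (.e (nat_lit 336028) (nat_lit 3) (.e (nat_lit 98349) (nat_lit 24) .nil))))) .nil)) 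
(.lf (nat_lit 289583) (.g (nat_lit 3651) (.e (nat_lit 303119) (nat_lit 3) (.e (nat_lit 204867) (nat_lit 28) (.e (nat_lit 352315) (nat_lit 23) (.e (nat_lit 98349) (nat_lit 24) (.e (nat_lit 409646) (nat_lit 18) .nil))))) (.g (nat_lit 0) .nil .nil)))) (.nd (nat_lit 5) 
(.lf (nat_lit 289567) (.g (nat_lit 3249) (.e (nat_lit 303119) (nat_lit 3) (.e (nat_lit 204861) (nat_lit 26) (.e (nat_lit 336194) (nat_lit 12) (.e (nat_lit 385074) (nat_lit 31) (.e (nat_lit 573454) (nat_lit 9) (.e (nat_lit 970) (nat_lit 81) (.e (nat_lit 6202) (nat_lit 332) (.e (nat_lit 2798) (nat_lit 180) .nil)))))))) (.g (nat_lit 4) .nil .nil))) 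
(.lf (nat_lit 289599) (.g (nat_lit 330) (.e (nat_lit 303124) (nat_lit 7) (.e (nat_lit 409635) (nat_lit 14) (.e (nat_lit 270372) (nat_lit 16) (.e (nat_lit 286740) (nat_lit 7) (.e (nat_lit 319523) (nat_lit 14) (.e (nat_lit 270353) (nat_lit 8) .nil)))))) (.g (nat_lit 0) .nil .nil)))))))))

noncomputable def tv3661 : DT := (.nd (nat_lit 0) (.nd (nat_lit 1) (.nd (nat_lit 2) (.nd (nat_lit 3) (.nd (nat_lit 4) (.nd (nat_lit 5) 
(.lf (nat_lit 289600) (.g (nat_lit 382) (.e (nat_lit 303124) (nat_lit 7) (.e (nat_lit 409636) (nat_lit 14) (.e (nat_lit 270373) (nat_lit 16) (.e (nat_lit 286740) (nat_lit 7) (.e (nat_lit 319523) (nat_lit 14) (.e (nat_lit 270353) (nat_lit 8) .nil)))))) (.g (nat_lit 0) .nil .nil))) 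
(.lf (nat_lit 289632) (.g (nat_lit 1812) (.e (nat_lit 303132) (nat_lit 9) (.e (nat_lit 426109) (nat_lit 1) (.e (nat_lit 164297) (nat_lit 226) (.e (nat_lit 1212) (nat_lit 89) (.e (nat_lit 73789) (nat_lit 45) (.e (nat_lit 1342) (nat_lit 101) (.e (nat_lit 278547) (nat_lit 8) .nil))))))) (.g (nat_lit 4) .nil .nil)))) (.nd (nat_lit 5) 
(.lf (nat_lit 289616) (.g (nat_lit 1749) (.e (nat_lit 303127) (nat_lit 9) (.e (nat_lit 426428) (nat_lit 17) (.e (nat_lit 98048) (nat_lit 6) (.e (nat_lit 81935) (nat_lit 20) (.e (nat_lit 2384) (nat_lit 155) (.e (nat_lit 811028) (nat_lit 9) .nil)))))) (.g (nat_lit 5) .nil .nil))) 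
(.lf (nat_lit 289648) (.g (nat_lit 1730) (.e (nat_lit 303133) (nat_lit 9) (.e (nat_lit 426412) (nat_lit 15) (.e (nat_lit 1856) (nat_lit 124) (.e (nat_lit 557101) (nat_lit 13) (.e (nat_lit 172115) (nat_lit 10) (.e (nat_lit 434227) (nat_lit 20) (.e (nat_lit 515840) (nat_lit 18) .nil))))))) (.g (nat_lit 5) .nil .nil))))) (.nd (nat_lit 4) (.nd (nat_lit 5) 
(.lf (nat_lit 289608) (.g (nat_lit 464) (.e (nat_lit 303124) (nat_lit 7) (.e (nat_lit 409639) (nat_lit 15) (.e (nat_lit 278567) (nat_lit 16) (.e (nat_lit 286740) (nat_lit 7) (.e (nat_lit 319527) (nat_lit 15) (.e (nat_lit 278547) (nat_lit 8) .nil)))))) (.g (nat_lit 0) .nil .nil))) 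
(.lf (nat_lit 289640) (.g (nat_lit 3215) (.e (nat_lit 303133) (nat_lit 9) (.e (nat_lit 426043) (nat_lit 0) (.e (nat_lit 3578) (nat_lit 223) (.e (nat_lit 745476) (nat_lit 0) (.e (nat_lit 1598) (nat_lit 111) (.e (nat_lit 360473) (nat_lit 8) (.e (nat_lit 557119) (nat_lit 18) (.e (nat_lit 2798) (nat_lit 180) .nil)))))))) (.g (nat_lit 8) .nil .nil)))) (.nd (nat_lit 5) 
(.lf (nat_lit 289624) (.g (nat_lit 1389) (.e (nat_lit 303127) (nat_lit 9) (.e (nat_lit 426449) (nat_lit 20) (.e (nat_lit 114723) (nat_lit 24) (.e (nat_lit 106534) (nat_lit 11) (.e (nat_lit 16425) (nat_lit 7) (.e (nat_lit 417536) (nat_lit 18) .nil)))))) (.g (nat_lit 5) .nil .nil))) 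
(.lf (nat_lit 289656) (.g (nat_lit 1052) (.e (nat_lit 303137) (nat_lit 10) (.e (nat_lit 434200) (nat_lit 18) (.e (nat_lit 4120) (nat_lit 245) (.e (nat_lit 1220) (nat_lit 90) (.e (nat_lit 81965) (nat_lit 26) .nil))))) .nil))))) (.nd (nat_lit 3) (.nd (nat_lit 4) (.nd (nat_lit 5) 
(.lf (nat_lit 289604) (.g (nat_lit 280) (.e (nat_lit 303124) (nat_lit 7) (.e (nat_lit 409638) (nat_lit 15) (.e (nat_lit 278567) (nat_lit 16) (.e (nat_lit 286740) (nat_lit 7) .nil)))) .nil)) 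
(.lf (nat_lit 289636) (.g (nat_lit 1490) (.e (nat_lit 303132) (nat_lit 9) (.e (nat_lit 426125) (nat_lit 2) (.e (nat_lit 196612) (nat_lit 0) (.e (nat_lit 7936) (nat_lit 24) .nil)))) .nil))) (.nd (nat_lit 5) 
(.lf (nat_lit 289620) (.g (nat_lit 1099) (.e (nat_lit 303127) (nat_lit 9) (.e (nat_lit 426448) (nat_lit 20) (.e (nat_lit 114723) (nat_lit 24) .nil))) .nil)) 
(.lf (nat_lit 289652) (.g (nat_lit 1072) (.e (nat_lit 303135) (nat_lit 10) (.e (nat_lit 434268) (nat_lit 36) (.e (nat_lit 639020) (nat_lit 16) (.e (nat_lit 65583) (nat_lit 7) .nil)))) .nil)))) (.nd (nat_lit 4) (.nd (nat_lit 5) 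
(.lf (nat_lit 289612) (.g (nat_lit 2436) (.e (nat_lit 303126) (nat_lit 9) (.e (nat_lit 426449) (nat_lit 20) (.e (nat_lit 114723) (nat_lit 24) (.e (nat_lit 106534) (nat_lit 11) (.e (nat_lit 16425) (nat_lit 7) (.e (nat_lit 409648) (nat_lit 18) .nil)))))) (.g (nat_lit 0) .nil .nil))) 
(.lf (nat_lit 289644) (.g (nat_lit 655) (.e (nat_lit 303133) (nat_lit 9) (.e (nat_lit 426412) (nat_lit 15) (.e (nat_lit 1855) (nat_lit 124) .nil))) .nil))) (.nd (nat_lit 5) 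
(.lf (nat_lit 289628) (.g (nat_lit 1382) (.e (nat_lit 303131) (nat_lit 9) (.e (nat_lit 426125) (nat_lit 2) (.e (nat_lit 196612) (nat_lit 0) (.e (nat_lit 7936) (nat_lit 24) .nil)))) .nil)) 
(.lf (nat_lit 289660) (.g (nat_lit 1055) (.e (nat_lit 303137) (nat_lit 10) (.e (nat_lit 434241) (nat_lit 27) (.e (nat_lit 565251) (nat_lit 0) (.e (nat_lit 1595) (nat_lit 111) (.e (nat_lit 368384) (nat_lit 26) (.e (nat_lit 811029) (nat_lit 9) .nil)))))) (.g (nat_lit 4) .nil .nil))))))) (.nd (nat_lit 2) (.nd (nat_lit 3) (.nd (nat_lit 4) (.nd (nat_lit 5) 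
(.lf (nat_lit 289602) (.g (nat_lit 663) (.e (nat_lit 303124) (nat_lit 7) (.e (nat_lit 409638) (nat_lit 15) (.e (nat_lit 278566) (nat_lit 16) (.e (nat_lit 286740) (nat_lit 7) (.e (nat_lit 319523) (nat_lit 14) (.e (nat_lit 270353) (nat_lit 8) .nil)))))) (.g (nat_lit 0) .nil .nil))) 
(.lf (nat_lit 289634) (.g (nat_lit 365) (.e (nat_lit 303132) (nat_lit 9) (.e (nat_lit 426109) (nat_lit 1) (.e (nat_lit 164309) (nat_lit 226) .nil))) .nil))) (.nd (nat_lit 5) 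
(.lf (nat_lit 289618) (.g (nat_lit 1055) (.e (nat_lit 303127) (nat_lit 9) (.e (nat_lit 426448) (nat_lit 20) (.e (nat_lit 114721) (nat_lit 24) .nil))) .nil)) 
(.lf (nat_lit 289650) (.g (nat_lit 2748) (.e (nat_lit 303133) (nat_lit 9) (.e (nat_lit 426412) (nat_lit 15) (.e (nat_lit 7936) (nat_lit 124) (.e (nat_lit 557108) (nat_lit 15) (.e (nat_lit 188449) (nat_lit 22) (.e (nat_lit 204544) (nat_lit 18) (.e (nat_lit 2798) (nat_lit 180) .nil))))))) (.g (nat_lit 5) .nil .nil))))) (.nd (nat_lit 4) (.nd (nat_lit 5) 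
(.lf (nat_lit 289610) (.g (nat_lit 1299) (.e (nat_lit 303124) (nat_lit 7) (.e (nat_lit 409646) (nat_lit 18) (.e (nat_lit 303111) (nat_lit 0) (.e (nat_lit 2424) (nat_lit 157) .nil)))) .nil)) 
(.lf (nat_lit 289642) (.g (nat_lit 604) (.e (nat_lit 303133) (nat_lit 9) (.e (nat_lit 426412) (nat_lit 15) (.e (nat_lit 1694) (nat_lit 117) .nil))) .nil))) (.nd (nat_lit 5) 
(.lf (nat_lit 289626) (.g (nat_lit 683) (.e (nat_lit 303131) (nat_lit 9) (.e (nat_lit 426109) (nat_lit 1) (.e (nat_lit 164319) (nat_lit 228) (.e (nat_lit 57412) (nat_lit 12) (.e (nat_lit 336058) (nat_lit 7) .nil))))) .nil)) 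
(.lf (nat_lit 289658) (.g (nat_lit 4234) (.e (nat_lit 303137) (nat_lit 10) (.e (nat_lit 434202) (nat_lit 18) (.e (nat_lit 6830) (nat_lit 367) (.e (nat_lit 57426) (nat_lit 15) (.e (nat_lit 360475) (nat_lit 8) (.e (nat_lit 557119) (nat_lit 18) (.e (nat_lit 2807) (nat_lit 180) .nil))))))) (.g (nat_lit 7) .nil .nil)))))) (.nd (nat_lit 3) (.nd (nat_lit 4) (.nd (nat_lit 5) 
(.lf (nat_lit 289606) (.g (nat_lit 395) (.e (nat_lit 303124) (nat_lit 7) (.e (nat_lit 409639) (nat_lit 15) (.e (nat_lit 278567) (nat_lit 16) (.e (nat_lit 286740) (nat_lit 7) (.e (nat_lit 319523) (nat_lit 14) (.e (nat_lit 270353) (nat_lit 8) .nil)))))) (.g (nat_lit 0) .nil .nil))) 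
(.lf (nat_lit 289638) (.g (nat_lit 802) (.e (nat_lit 303132) (nat_lit 9) (.e (nat_lit 426125) (nat_lit 2) (.e (nat_lit 204544) (nat_lit 0) .nil))) .nil))) (.nd (nat_lit 5) 
(.lf (nat_lit 289622) (.g (nat_lit 2504) (.e (nat_lit 303127) (nat_lit 9) (.e (nat_lit 426449) (nat_lit 20) (.e (nat_lit 114722) (nat_lit 24) (.e (nat_lit 106534) (nat_lit 11) (.e (nat_lit 16425) (nat_lit 7) (.e (nat_lit 409646) (nat_lit 18) .nil)))))) (.g (nat_lit 6) .nil .nil))) 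
(.lf (nat_lit 289654) (.g (nat_lit 699) (.e (nat_lit 303136) (nat_lit 10) (.e (nat_lit 434272) (nat_lit 38) (.e (nat_lit 655396) (nat_lit 12) .nil))) .nil)))) (.nd (nat_lit 4) (.nd (nat_lit 5) 
(.lf (nat_lit 289614) (.g (nat_lit 440) (.e (nat_lit 303127) (nat_lit 9) (.e (nat_lit 426428) (nat_lit 17) (.e (nat_lit 98048) (nat_lit 6) .nil))) .nil)) 
(.lf (nat_lit 289646) (.g (nat_lit 2523) (.e (nat_lit 303133) (nat_lit 9) (.e (nat_lit 426412) (nat_lit 15) (.e (nat_lit 1856) (nat_lit 124) (.e (nat_lit 557097) (nat_lit 13) (.e (nat_lit 172094) (nat_lit 9) .nil))))) .nil))) (.nd (nat_lit 5) 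
(.lf (nat_lit 289630) (.g (nat_lit 754) (.e (nat_lit 303131) (nat_lit 9) (.e (nat_lit 426125) (nat_lit 2) (.e (nat_lit 196616) (nat_lit 0) .nil))) .nil)) 
(.lf (nat_lit 289662) (.g (nat_lit 1948) (.e (nat_lit 303137) (nat_lit 10) (.e (nat_lit 434241) (nat_lit 27) (.e (nat_lit 565269) (nat_lit 6) (.e (nat_lit 81935) (nat_lit 20) (.e (nat_lit 2384) (nat_lit 155) (.e (nat_lit 811028) (nat_lit 9) .nil)))))) (.g (nat_lit 5) .nil .nil)))))))) (.nd (nat_lit 1) (.nd (nat_lit 2) (.nd (nat_lit 3) (.nd (nat_lit 4) (.nd (nat_lit 5) 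
(.lf (nat_lit 289601) (.g (nat_lit 418) (.e (nat_lit 303124) (nat_lit 7) (.e (nat_lit 409636) (nat_lit 14) (.e (nat_lit 270373) (nat_lit 16) (.e (nat_lit 286740) (nat_lit 7) (.e (nat_lit 319524) (nat_lit 14) (.e (nat_lit 270354) (nat_lit 8) .nil)))))) (.g (nat_lit 0) .nil .nil))) 
(.lf (nat_lit 289633) (.g (nat_lit 1758) (.e (nat_lit 303132) (nat_lit 9) (.e (nat_lit 426109) (nat_lit 1) (.e (nat_lit 164297) (nat_lit 226) (.e (nat_lit 1212) (nat_lit 89) (.e (nat_lit 73789) (nat_lit 45) (.e (nat_lit 1343) (nat_lit 101) (.e (nat_lit 278547) (nat_lit 8) .nil))))))) (.g (nat_lit 4) .nil .nil)))) (.nd (nat_lit 5) 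
(.lf (nat_lit 289617) (.g (nat_lit 946) (.e (nat_lit 303127) (nat_lit 9) (.e (nat_lit 426428) (nat_lit 17) (.e (nat_lit 98048) (nat_lit 6) (.e (nat_lit 81965) (nat_lit 26) (.e (nat_lit 147511) (nat_lit 14) .nil))))) .nil)) 
(.lf (nat_lit 289649) (.g (nat_lit 2156) (.e (nat_lit 303133) (nat_lit 9) (.e (nat_lit 426412) (nat_lit 15) (.e (nat_lit 1856) (nat_lit 124) (.e (nat_lit 557107) (nat_lit 15) (.e (nat_lit 188440) (nat_lit 20) .nil))))) .nil)))) (.nd (nat_lit 4) (.nd (nat_lit 5) 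
(.lf (nat_lit 289609) (.g (nat_lit 697) (.e (nat_lit 303124) (nat_lit 7) (.e (nat_lit 409646) (nat_lit 18) (.e (nat_lit 303106) (nat_lit 0) .nil))) .nil)) 
(.lf (nat_lit 289641) (.g (nat_lit 2916) (.e (nat_lit 303133) (nat_lit 9) (.e (nat_lit 426109) (nat_lit 1) (.e (nat_lit 164196) (nat_lit 158) (.e (nat_lit 1199) (nat_lit 88) (.e (nat_lit 65617) (nat_lit 10) (.e (nat_lit 344130) (nat_lit 26) (.e (nat_lit 557119) (nat_lit 18) (.e (nat_lit 2798) (nat_lit 180) .nil)))))))) (.g (nat_lit 5) .nil .nil)))) (.nd (nat_lit 5) 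
(.lf (nat_lit 289625) (.g (nat_lit 443) (.e (nat_lit 303131) (nat_lit 9) (.e (nat_lit 426109) (nat_lit 1) (.e (nat_lit 164297) (nat_lit 226) .nil))) .nil)) 
(.lf (nat_lit 289657) (.g (nat_lit 3301) (.e (nat_lit 303137) (nat_lit 10) (.e (nat_lit 434202) (nat_lit 18) (.e (nat_lit 6828) (nat_lit 367) (.e (nat_lit 57427) (nat_lit 15) (.e (nat_lit 360474) (nat_lit 8) (.e (nat_lit 557118) (nat_lit 18) (.e (nat_lit 2807) (nat_lit 180) .nil))))))) (.g (nat_lit 6) .nil .nil)))))) (.nd (nat_lit 3) (.nd (nat_lit 4) (.nd (nat_lit 5) 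
(.lf (nat_lit 289605) (.g (nat_lit 280) (.e (nat_lit 303124) (nat_lit 7) (.e (nat_lit 409639) (nat_lit 15) (.e (nat_lit 278566) (nat_lit 16) (.e (nat_lit 286740) (nat_lit 7) .nil)))) .nil)) 
(.lf (nat_lit 289637) (.g (nat_lit 1143) (.e (nat_lit 303132) (nat_lit 9) (.e (nat_lit 426125) (nat_lit 2) (.e (nat_lit 196615) (nat_lit 0) .nil))) .nil))) (.nd (nat_lit 5) 
(.lf (nat_lit 289621) (.g (nat_lit 2289) (.e (nat_lit 303127) (nat_lit 9) (.e (nat_lit 426449) (nat_lit 20) (.e (nat_lit 114722) (nat_lit 24) (.e (nat_lit 106534) (nat_lit 11) (.e (nat_lit 16425) (nat_lit 7) (.e (nat_lit 409643) (nat_lit 18) .nil)))))) (.g (nat_lit 6) .nil .nil))) 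
(.lf (nat_lit 289653) (.g (nat_lit 2158) (.e (nat_lit 303135) (nat_lit 10) (.e (nat_lit 434275) (nat_lit 39) (.e (nat_lit 663584) (nat_lit 12) (.e (nat_lit 164020) (nat_lit 45) (.e (nat_lit 696343) (nat_lit 8) .nil))))) .nil)))) (.nd (nat_lit 4) (.nd (nat_lit 5) 
(.lf (nat_lit 289613) (.g (nat_lit 242) (.e (nat_lit 303126) (nat_lit 9) (.e (nat_lit 426533) (nat_lit 28) (.e (nat_lit 344075) (nat_lit 13) .nil))) .nil)) 
(.lf (nat_lit 289645) (.g (nat_lit 2502) (.e (nat_lit 303133) (nat_lit 9) (.e (nat_lit 426412) (nat_lit 15) (.e (nat_lit 1855) (nat_lit 124) (.e (nat_lit 557109) (nat_lit 15) (.e (nat_lit 188458) (nat_lit 25) .nil))))) .nil))) (.nd (nat_lit 5) 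
(.lf (nat_lit 289629) (.g (nat_lit 794) (.e (nat_lit 303131) (nat_lit 9) (.e (nat_lit 426125) (nat_lit 2) (.e (nat_lit 196615) (nat_lit 0) .nil))) .nil)) 
(.lf (nat_lit 289661) (.g (nat_lit 1103) (.e (nat_lit 303137) (nat_lit 10) (.e (nat_lit 434241) (nat_lit 27) (.e (nat_lit 565269) (nat_lit 6) (.e (nat_lit 81931) (nat_lit 20) (.e (nat_lit 2379) (nat_lit 155) .nil))))) .nil)))))) (.nd (nat_lit 2) (.nd (nat_lit 3) (.nd (nat_lit 4) (.nd (nat_lit 5) 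
(.lf (nat_lit 289603) (.g (nat_lit 974) (.e (nat_lit 303124) (nat_lit 7) (.e (nat_lit 409638) (nat_lit 15) (.e (nat_lit 278566) (nat_lit 16) (.e (nat_lit 286740) (nat_lit 7) (.e (nat_lit 319526) (nat_lit 15) (.e (nat_lit 278546) (nat_lit 8) .nil)))))) (.g (nat_lit 0) .nil .nil))) 
(.lf (nat_lit 289635) (.g (nat_lit 1123) (.e (nat_lit 303132) (nat_lit 9) (.e (nat_lit 426109) (nat_lit 1) (.e (nat_lit 164319) (nat_lit 228) (.e (nat_lit 57412) (nat_lit 12) (.e (nat_lit 336061) (nat_lit 7) .nil))))) .nil))) (.nd (nat_lit 5) 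
(.lf (nat_lit 289619) (.g (nat_lit 1319) (.e (nat_lit 303127) (nat_lit 9) (.e (nat_lit 426448) (nat_lit 20) (.e (nat_lit 114722) (nat_lit 24) (.e (nat_lit 106534) (nat_lit 11) .nil)))) .nil)) 
(.lf (nat_lit 289651) (.g (nat_lit 1361) (.e (nat_lit 303133) (nat_lit 9) (.e (nat_lit 426412) (nat_lit 15) (.e (nat_lit 2175) (nat_lit 143) (.e (nat_lit 712755) (nat_lit 30) (.e (nat_lit 450597) (nat_lit 17) .nil))))) .nil)))) (.nd (nat_lit 4) (.nd (nat_lit 5) 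
(.lf (nat_lit 289611) (.g (nat_lit 1504) (.e (nat_lit 303126) (nat_lit 9) (.e (nat_lit 426354) (nat_lit 15) (.e (nat_lit 1860) (nat_lit 124) (.e (nat_lit 557101) (nat_lit 13) (.e (nat_lit 172115) (nat_lit 10) .nil))))) .nil)) 
(.lf (nat_lit 289643) (.g (nat_lit 629) (.e (nat_lit 303133) (nat_lit 9) (.e (nat_lit 426412) (nat_lit 15) (.e (nat_lit 1846) (nat_lit 124) .nil))) .nil))) (.nd (nat_lit 5) 
(.lf (nat_lit 289627) (.g (nat_lit 2174) (.e (nat_lit 303131) (nat_lit 9) (.e (nat_lit 426109) (nat_lit 1) (.e (nat_lit 164319) (nat_lit 228) (.e (nat_lit 57412) (nat_lit 12) (.e (nat_lit 336061) (nat_lit 7) (.e (nat_lit 319526) (nat_lit 15) (.e (nat_lit 278546) (nat_lit 8) .nil))))))) (.g (nat_lit 6) .nil .nil))) 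
(.lf (nat_lit 289659) (.g (nat_lit 1943) (.e (nat_lit 303137) (nat_lit 10) (.e (nat_lit 434202) (nat_lit 18) (.e (nat_lit 6830) (nat_lit 367) (.e (nat_lit 57427) (nat_lit 15) (.e (nat_lit 360472) (nat_lit 8) (.e (nat_lit 557119) (nat_lit 18) (.e (nat_lit 2807) (nat_lit 180) .nil))))))) (.g (nat_lit 4) .nil .nil)))))) (.nd (nat_lit 3) (.nd (nat_lit 4) (.nd (nat_lit 5) 
(.lf (nat_lit 289607) (.g (nat_lit 724) (.e (nat_lit 303124) (nat_lit 7) (.e (nat_lit 409639) (nat_lit 15) (.e (nat_lit 278567) (nat_lit 16) (.e (nat_lit 286740) (nat_lit 7) (.e (nat_lit 319526) (nat_lit 15) (.e (nat_lit 278546) (nat_lit 8) .nil)))))) (.g (nat_lit 0) .nil .nil))) 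
(.lf (nat_lit 289639) (.g (nat_lit 2852) (.e (nat_lit 303133) (nat_lit 9) (.e (nat_lit 426043) (nat_lit 0) (.e (nat_lit 3578) (nat_lit 223) (.e (nat_lit 745475) (nat_lit 0) (.e (nat_lit 1598) (nat_lit 111) (.e (nat_lit 360473) (nat_lit 8) (.e (nat_lit 557119) (nat_lit 18) (.e (nat_lit 2798) (nat_lit 180) .nil)))))))) (.g (nat_lit 8) .nil .nil)))) (.nd (nat_lit 5) 
(.lf (nat_lit 289623) (.g (nat_lit 1438) (.e (nat_lit 303127) (nat_lit 9) (.e (nat_lit 426449) (nat_lit 20) (.e (nat_lit 114722) (nat_lit 24) (.e (nat_lit 106534) (nat_lit 11) (.e (nat_lit 16425) (nat_lit 7) (.e (nat_lit 417536) (nat_lit 18) .nil)))))) (.g (nat_lit 5) .nil .nil))) 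
(.lf (nat_lit 289655) (.g (nat_lit 677) (.e (nat_lit 303136) (nat_lit 10) (.e (nat_lit 434272) (nat_lit 38) (.e (nat_lit 663296) (nat_lit 17) .nil))) .nil)))) (.nd (nat_lit 4) (.nd (nat_lit 5) 
(.lf (nat_lit 289615) (.g (nat_lit 1566) (.e (nat_lit 303127) (nat_lit 9) (.e (nat_lit 426428) (nat_lit 17) (.e (nat_lit 98048) (nat_lit 6) (.e (nat_lit 81935) (nat_lit 20) (.e (nat_lit 2384) (nat_lit 155) (.e (nat_lit 811027) (nat_lit 9) .nil)))))) (.g (nat_lit 5) .nil .nil))) 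
(.lf (nat_lit 289647) (.g (nat_lit 2616) (.e (nat_lit 303133) (nat_lit 9) (.e (nat_lit 426412) (nat_lit 15) (.e (nat_lit 1856) (nat_lit 124) (.e (nat_lit 557100) (nat_lit 13) (.e (nat_lit 172113) (nat_lit 10) (.e (nat_lit 434226) (nat_lit 20) (.e (nat_lit 507944) (nat_lit 18) .nil))))))) (.g (nat_lit 5) .nil .nil)))) (.nd (nat_lit 5) 
(.lf (nat_lit 289631) (.g (nat_lit 4191) (.e (nat_lit 303131) (nat_lit 9) (.e (nat_lit 426125) (nat_lit 2) (.e (nat_lit 196642) (nat_lit 9) (.e (nat_lit 1673) (nat_lit 116) (.e (nat_lit 401448) (nat_lit 10) (.e (nat_lit 434227) (nat_lit 20) (.e (nat_lit 507946) (nat_lit 18) .nil))))))) (.g (nat_lit 5) .nil .nil))) 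
(.lf (nat_lit 289663) (.g (nat_lit 1104) (.e (nat_lit 303137) (nat_lit 10) (.e (nat_lit 434268) (nat_lit 36) (.e (nat_lit 639020) (nat_lit 16) (.e (nat_lit 65584) (nat_lit 7) .nil)))) .nil))))))))

noncomputable def tv3662 : DT := (.nd (nat_lit 0) (.nd (nat_lit 1) (.nd (nat_lit 2) (.nd (nat_lit 3) (.nd (nat_lit 4) (.nd (nat_lit 5) 
(.lf (nat_lit 289664) (.g (nat_lit 1190) (.e (nat_lit 303137) (nat_lit 10) (.e (nat_lit 434268) (nat_lit 36) (.e (nat_lit 639020) (nat_lit 16) (.e (nat_lit 65585) (nat_lit 7) (.e (nat_lit 319523) (nat_lit 14) .nil))))) .nil)) 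
(.lf (nat_lit 289696) (.g (nat_lit 824) (.e (nat_lit 303138) (nat_lit 10) (.e (nat_lit 434241) (nat_lit 27) (.e (nat_lit 565269) (nat_lit 6) (.e (nat_lit 81933) (nat_lit 20) .nil)))) .nil))) (.nd (nat_lit 5) 
(.lf (nat_lit 289680) (.g (nat_lit 4599) (.e (nat_lit 303137) (nat_lit 10) (.e (nat_lit 434275) (nat_lit 39) (.e (nat_lit 663585) (nat_lit 12) (.e (nat_lit 164023) (nat_lit 46) (.e (nat_lit 704736) (nat_lit 11) (.e (nat_lit 16425) (nat_lit 7) (.e (nat_lit 409648) (nat_lit 18) .nil))))))) (.g (nat_lit 0) .nil .nil))) 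
(.lf (nat_lit 289712) (.g (nat_lit 634) (.e (nat_lit 303139) (nat_lit 10) (.e (nat_lit 434265) (nat_lit 35) (.e (nat_lit 630822) (nat_lit 17) (.e (nat_lit 73789) (nat_lit 45) (.e (nat_lit 1342) (nat_lit 101) (.e (nat_lit 278547) (nat_lit 8) .nil)))))) (.g (nat_lit 6) .nil .nil))))) (.nd (nat_lit 4) (.nd (nat_lit 5) 
(.lf (nat_lit 289672) (.g (nat_lit 414) (.e (nat_lit 303137) (nat_lit 10) (.e (nat_lit 434275) (nat_lit 39) (.e (nat_lit 663574) (nat_lit 9) .nil))) .nil)) 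
(.lf (nat_lit 289704) (.g (nat_lit 1271) (.e (nat_lit 303138) (nat_lit 10) (.e (nat_lit 434275) (nat_lit 39) (.e (nat_lit 663580) (nat_lit 9) (.e (nat_lit 7936) (nat_lit 22) .nil)))) .nil))) (.nd (nat_lit 5) 
(.lf (nat_lit 289688) (.g (nat_lit 2881) (.e (nat_lit 303137) (nat_lit 10) (.e (nat_lit 434295) (nat_lit 49) (.e (nat_lit 745475) (nat_lit 0) (.e (nat_lit 1595) (nat_lit 111) (.e (nat_lit 360473) (nat_lit 8) (.e (nat_lit 557119) (nat_lit 18) (.e (nat_lit 2807) (nat_lit 180) .nil))))))) (.g (nat_lit 7) .nil .nil))) 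
(.lf (nat_lit 289720) (.g (nat_lit 678) (.e (nat_lit 303139) (nat_lit 10) (.e (nat_lit 434268) (nat_lit 36) (.e (nat_lit 639022) (nat_lit 17) (.e (nat_lit 73789) (nat_lit 45) .nil)))) .nil))))) (.nd (nat_lit 3) (.nd (nat_lit 4) (.nd (nat_lit 5) 
(.lf (nat_lit 289668) (.g (nat_lit 918) (.e (nat_lit 303137) (nat_lit 10) (.e (nat_lit 434269) (nat_lit 36) (.e (nat_lit 639022) (nat_lit 17) (.e (nat_lit 73791) (nat_lit 45) (.e (nat_lit 1342) (nat_lit 101) (.e (nat_lit 278547) (nat_lit 8) .nil)))))) (.g (nat_lit 0) .nil .nil))) 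
(.lf (nat_lit 289700) (.g (nat_lit 486) (.e (nat_lit 303138) (nat_lit 10) (.e (nat_lit 434268) (nat_lit 36) (.e (nat_lit 639022) (nat_lit 17) .nil))) .nil))) (.nd (nat_lit 5) 
(.lf (nat_lit 289684) (.g (nat_lit 2528) (.e (nat_lit 303137) (nat_lit 10) (.e (nat_lit 434295) (nat_lit 49) (.e (nat_lit 745474) (nat_lit 0) (.e (nat_lit 1586) (nat_lit 111) (.e (nat_lit 360474) (nat_lit 8) (.e (nat_lit 557118) (nat_lit 18) (.e (nat_lit 2807) (nat_lit 180) .nil))))))) (.g (nat_lit 6) .nil .nil))) 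
(.lf (nat_lit 289716) (.g (nat_lit 625) (.e (nat_lit 303139) (nat_lit 10) (.e (nat_lit 434266) (nat_lit 35) (.e (nat_lit 630822) (nat_lit 17) (.e (nat_lit 73792) (nat_lit 45) (.e (nat_lit 1342) (nat_lit 101) (.e (nat_lit 278547) (nat_lit 8) .nil)))))) (.g (nat_lit 0) .nil .nil))))) (.nd (nat_lit 4) (.nd (nat_lit 5) 
(.lf (nat_lit 289676) (.g (nat_lit 4529) (.e (nat_lit 303137) (nat_lit 10) (.e (nat_lit 434275) (nat_lit 39) (.e (nat_lit 663584) (nat_lit 12) (.e (nat_lit 164022) (nat_lit 46) (.e (nat_lit 704738) (nat_lit 11) (.e (nat_lit 16425) (nat_lit 7) (.e (nat_lit 409648) (nat_lit 18) .nil))))))) (.g (nat_lit 7) .nil .nil))) 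
(.lf (nat_lit 289708) (.g (nat_lit 702) (.e (nat_lit 303139) (nat_lit 10) (.e (nat_lit 434241) (nat_lit 27) (.e (nat_lit 565251) (nat_lit 0) (.e (nat_lit 1598) (nat_lit 111) (.e (nat_lit 368384) (nat_lit 26) (.e (nat_lit 811029) (nat_lit 9) .nil)))))) (.g (nat_lit 4) .nil .nil)))) (.nd (nat_lit 5) 
(.lf (nat_lit 289692) (.g (nat_lit 3161) (.e (nat_lit 303137) (nat_lit 10) (.e (nat_lit 434295) (nat_lit 49) (.e (nat_lit 745476) (nat_lit 0) (.e (nat_lit 1599) (nat_lit 111) (.e (nat_lit 360474) (nat_lit 8) (.e (nat_lit 557118) (nat_lit 18) (.e (nat_lit 2807) (nat_lit 180) .nil))))))) (.g (nat_lit 6) .nil .nil))) 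
(.lf (nat_lit 289724) (.g (nat_lit 984) (.e (nat_lit 303139) (nat_lit 10) (.e (nat_lit 434269) (nat_lit 36) (.e (nat_lit 639021) (nat_lit 16) (.e (nat_lit 65583) (nat_lit 7) (.e (nat_lit 319527) (nat_lit 15) (.e (nat_lit 278547) (nat_lit 8) .nil)))))) (.g (nat_lit 0) .nil .nil))))))) (.nd (nat_lit 2) (.nd (nat_lit 3) (.nd (nat_lit 4) (.nd (nat_lit 5) 
(.lf (nat_lit 289666) (.g (nat_lit 481) (.e (nat_lit 303137) (nat_lit 10) (.e (nat_lit 434268) (nat_lit 36) (.e (nat_lit 639022) (nat_lit 17) .nil))) .nil)) 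
(.lf (nat_lit 289698) (.g (nat_lit 1104) (.e (nat_lit 303138) (nat_lit 10) (.e (nat_lit 434268) (nat_lit 36) (.e (nat_lit 639020) (nat_lit 16) (.e (nat_lit 65583) (nat_lit 7) .nil)))) .nil))) (.nd (nat_lit 5) 
(.lf (nat_lit 289682) (.g (nat_lit 5202) (.e (nat_lit 303137) (nat_lit 10) (.e (nat_lit 434275) (nat_lit 39) (.e (nat_lit 663585) (nat_lit 12) (.e (nat_lit 164023) (nat_lit 46) (.e (nat_lit 704738) (nat_lit 11) (.e (nat_lit 16425) (nat_lit 7) (.e (nat_lit 409648) (nat_lit 18) .nil))))))) (.g (nat_lit 0) .nil .nil))) 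
(.lf (nat_lit 289714) (.g (nat_lit 927) (.e (nat_lit 303139) (nat_lit 10) (.e (nat_lit 434266) (nat_lit 35) (.e (nat_lit 630821) (nat_lit 16) (.e (nat_lit 65586) (nat_lit 7) (.e (nat_lit 319524) (nat_lit 14) (.e (nat_lit 270354) (nat_lit 8) .nil)))))) (.g (nat_lit 6) .nil .nil))))) (.nd (nat_lit 4) (.nd (nat_lit 5) 
(.lf (nat_lit 289674) (.g (nat_lit 1532) (.e (nat_lit 303137) (nat_lit 10) (.e (nat_lit 434275) (nat_lit 39) (.e (nat_lit 663580) (nat_lit 9) (.e (nat_lit 7936) (nat_lit 22) .nil)))) .nil)) 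
(.lf (nat_lit 289706) (.g (nat_lit 1502) (.e (nat_lit 303138) (nat_lit 10) (.e (nat_lit 434295) (nat_lit 49) (.e (nat_lit 745476) (nat_lit 0) (.e (nat_lit 1586) (nat_lit 111) (.e (nat_lit 360474) (nat_lit 8) .nil))))) .nil))) (.nd (nat_lit 5) 
(.lf (nat_lit 289690) (.g (nat_lit 3418) (.e (nat_lit 303137) (nat_lit 10) (.e (nat_lit 434295) (nat_lit 49) (.e (nat_lit 745476) (nat_lit 0) (.e (nat_lit 1586) (nat_lit 111) (.e (nat_lit 360475) (nat_lit 8) (.e (nat_lit 557118) (nat_lit 18) (.e (nat_lit 2807) (nat_lit 180) .nil))))))) (.g (nat_lit 5) .nil .nil))) 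
(.lf (nat_lit 289722) (.g (nat_lit 934) (.e (nat_lit 303139) (nat_lit 10) (.e (nat_lit 434268) (nat_lit 36) (.e (nat_lit 639022) (nat_lit 17) (.e (nat_lit 73789) (nat_lit 45) (.e (nat_lit 1343) (nat_lit 101) .nil))))) .nil))))) (.nd (nat_lit 3) (.nd (nat_lit 4) (.nd (nat_lit 5) 
(.lf (nat_lit 289670) (.g (nat_lit 2155) (.e (nat_lit 303137) (nat_lit 10) (.e (nat_lit 434272) (nat_lit 38) (.e (nat_lit 655382) (nat_lit 8) (.e (nat_lit 237612) (nat_lit 9) (.e (nat_lit 426098) (nat_lit 1) (.e (nat_lit 164395) (nat_lit 255) (.e (nat_lit 8213) (nat_lit 9) .nil))))))) (.g (nat_lit 5) .nil .nil))) 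
(.lf (nat_lit 289702) (.g (nat_lit 172) (.e (nat_lit 303138) (nat_lit 10) (.e (nat_lit 434269) (nat_lit 36) (.e (nat_lit 639021) (nat_lit 16) .nil))) .nil))) (.nd (nat_lit 5) 
(.lf (nat_lit 289686) (.g (nat_lit 1679) (.e (nat_lit 303137) (nat_lit 10) (.e (nat_lit 434295) (nat_lit 49) (.e (nat_lit 745475) (nat_lit 0) (.e (nat_lit 1589) (nat_lit 111) (.e (nat_lit 360473) (nat_lit 8) (.e (nat_lit 557118) (nat_lit 18) (.e (nat_lit 2807) (nat_lit 180) .nil))))))) (.g (nat_lit 5) .nil .nil))) 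
(.lf (nat_lit 289718) (.g (nat_lit 1629) (.e (nat_lit 303139) (nat_lit 10) (.e (nat_lit 434268) (nat_lit 36) (.e (nat_lit 639020) (nat_lit 16) (.e (nat_lit 65583) (nat_lit 7) (.e (nat_lit 319523) (nat_lit 14) .nil))))) .nil)))) (.nd (nat_lit 4) (.nd (nat_lit 5) 
(.lf (nat_lit 289678) (.g (nat_lit 5688) (.e (nat_lit 303137) (nat_lit 10) (.e (nat_lit 434275) (nat_lit 39) (.e (nat_lit 663585) (nat_lit 12) (.e (nat_lit 164022) (nat_lit 46) (.e (nat_lit 704737) (nat_lit 11) (.e (nat_lit 16425) (nat_lit 7) (.e (nat_lit 409648) (nat_lit 18) .nil))))))) (.g (nat_lit 0) .nil .nil))) 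
(.lf (nat_lit 289710) (.g (nat_lit 850) (.e (nat_lit 303139) (nat_lit 10) (.e (nat_lit 434241) (nat_lit 27) (.e (nat_lit 565269) (nat_lit 6) (.e (nat_lit 81934) (nat_lit 20) .nil)))) .nil))) (.nd (nat_lit 5) 
(.lf (nat_lit 289694) (.g (nat_lit 833) (.e (nat_lit 303138) (nat_lit 10) (.e (nat_lit 434241) (nat_lit 27) (.e (nat_lit 565251) (nat_lit 0) (.e (nat_lit 1595) (nat_lit 111) (.e (nat_lit 368384) (nat_lit 26) .nil))))) .nil)) 
(.lf (nat_lit 289726) (.g (nat_lit 623) (.e (nat_lit 303139) (nat_lit 10) (.e (nat_lit 434269) (nat_lit 36) (.e (nat_lit 639021) (nat_lit 16) (.e (nat_lit 65584) (nat_lit 7) (.e (nat_lit 319527) (nat_lit 15) .nil))))) .nil))))))) (.nd (nat_lit 1) (.nd (nat_lit 2) (.nd (nat_lit 3) (.nd (nat_lit 4) (.nd (nat_lit 5) 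
(.lf (nat_lit 289665) (.g (nat_lit 451) (.e (nat_lit 303137) (nat_lit 10) (.e (nat_lit 434268) (nat_lit 36) (.e (nat_lit 639021) (nat_lit 16) .nil))) .nil)) 
(.lf (nat_lit 289697) (.g (nat_lit 832) (.e (nat_lit 303138) (nat_lit 10) (.e (nat_lit 434241) (nat_lit 27) (.e (nat_lit 565269) (nat_lit 6) (.e (nat_lit 81934) (nat_lit 20) .nil)))) .nil))) (.nd (nat_lit 5) 
(.lf (nat_lit 289681) (.g (nat_lit 4982) (.e (nat_lit 303137) (nat_lit 10) (.e (nat_lit 434275) (nat_lit 39) (.e (nat_lit 663585) (nat_lit 12) (.e (nat_lit 164023) (nat_lit 46) (.e (nat_lit 704737) (nat_lit 11) (.e (nat_lit 16425) (nat_lit 7) (.e (nat_lit 409648) (nat_lit 18) .nil))))))) (.g (nat_lit 0) .nil .nil))) 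
(.lf (nat_lit 289713) (.g (nat_lit 516) (.e (nat_lit 303139) (nat_lit 10) (.e (nat_lit 434266) (nat_lit 35) (.e (nat_lit 630821) (nat_lit 16) (.e (nat_lit 65585) (nat_lit 7) (.e (nat_lit 319524) (nat_lit 14) (.e (nat_lit 270354) (nat_lit 8) .nil)))))) (.g (nat_lit 0) .nil .nil))))) (.nd (nat_lit 4) (.nd (nat_lit 5) 
(.lf (nat_lit 289673) (.g (nat_lit 1172) (.e (nat_lit 303137) (nat_lit 10) (.e (nat_lit 434275) (nat_lit 39) (.e (nat_lit 663574) (nat_lit 9) (.e (nat_lit 7936) (nat_lit 22) .nil)))) .nil)) 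
(.lf (nat_lit 289705) (.g (nat_lit 1927) (.e (nat_lit 303138) (nat_lit 10) (.e (nat_lit 434275) (nat_lit 39) (.e (nat_lit 663585) (nat_lit 12) (.e (nat_lit 164023) (nat_lit 46) (.e (nat_lit 704738) (nat_lit 11) .nil))))) .nil))) (.nd (nat_lit 5) 
(.lf (nat_lit 289689) (.g (nat_lit 1664) (.e (nat_lit 303137) (nat_lit 10) (.e (nat_lit 434295) (nat_lit 49) (.e (nat_lit 745475) (nat_lit 0) (.e (nat_lit 1598) (nat_lit 111) (.e (nat_lit 360473) (nat_lit 8) (.e (nat_lit 557118) (nat_lit 18) (.e (nat_lit 2807) (nat_lit 180) .nil))))))) (.g (nat_lit 6) .nil .nil))) 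
(.lf (nat_lit 289721) (.g (nat_lit 956) (.e (nat_lit 303139) (nat_lit 10) (.e (nat_lit 434268) (nat_lit 36) (.e (nat_lit 639022) (nat_lit 17) (.e (nat_lit 73789) (nat_lit 45) (.e (nat_lit 1342) (nat_lit 101) (.e (nat_lit 278547) (nat_lit 8) .nil)))))) (.g (nat_lit 4) .nil .nil)))))) (.nd (nat_lit 3) (.nd (nat_lit 4) (.nd (nat_lit 5) 
(.lf (nat_lit 289669) (.g (nat_lit 1070) (.e (nat_lit 303137) (nat_lit 10) (.e (nat_lit 434269) (nat_lit 36) (.e (nat_lit 639022) (nat_lit 17) (.e (nat_lit 73792) (nat_lit 45) (.e (nat_lit 1342) (nat_lit 101) (.e (nat_lit 278547) (nat_lit 8) .nil)))))) (.g (nat_lit 0) .nil .nil))) 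
(.lf (nat_lit 289701) (.g (nat_lit 918) (.e (nat_lit 303138) (nat_lit 10) (.e (nat_lit 434268) (nat_lit 36) (.e (nat_lit 639022) (nat_lit 17) (.e (nat_lit 73792) (nat_lit 45) (.e (nat_lit 1342) (nat_lit 101) .nil))))) .nil))) (.nd (nat_lit 5) 
(.lf (nat_lit 289685) (.g (nat_lit 3175) (.e (nat_lit 303137) (nat_lit 10) (.e (nat_lit 434295) (nat_lit 49) (.e (nat_lit 745475) (nat_lit 0) (.e (nat_lit 1586) (nat_lit 111) (.e (nat_lit 360475) (nat_lit 8) (.e (nat_lit 557118) (nat_lit 18) (.e (nat_lit 2807) (nat_lit 180) .nil))))))) (.g (nat_lit 5) .nil .nil))) 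
(.lf (nat_lit 289717) (.g (nat_lit 598) (.e (nat_lit 303139) (nat_lit 10) (.e (nat_lit 434266) (nat_lit 35) (.e (nat_lit 630822) (nat_lit 17) (.e (nat_lit 73792) (nat_lit 45) (.e (nat_lit 1343) (nat_lit 101) (.e (nat_lit 278547) (nat_lit 8) .nil)))))) (.g (nat_lit 0) .nil .nil))))) (.nd (nat_lit 4) (.nd (nat_lit 5) 
(.lf (nat_lit 289677) (.g (nat_lit 2553) (.e (nat_lit 303137) (nat_lit 10) (.e (nat_lit 434275) (nat_lit 39) (.e (nat_lit 663584) (nat_lit 12) (.e (nat_lit 164023) (nat_lit 46) (.e (nat_lit 704736) (nat_lit 11) (.e (nat_lit 16425) (nat_lit 7) (.e (nat_lit 409648) (nat_lit 18) .nil))))))) (.g (nat_lit 4) .nil .nil))) 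
(.lf (nat_lit 289709) (.g (nat_lit 840) (.e (nat_lit 303139) (nat_lit 10) (.e (nat_lit 434241) (nat_lit 27) (.e (nat_lit 565269) (nat_lit 6) (.e (nat_lit 81933) (nat_lit 20) .nil)))) .nil))) (.nd (nat_lit 5) 
(.lf (nat_lit 289693) (.g (nat_lit 1112) (.e (nat_lit 303138) (nat_lit 10) (.e (nat_lit 434241) (nat_lit 27) (.e (nat_lit 565251) (nat_lit 0) (.e (nat_lit 1586) (nat_lit 111) (.e (nat_lit 368384) (nat_lit 26) (.e (nat_lit 811029) (nat_lit 9) .nil)))))) (.g (nat_lit 4) .nil .nil))) 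
(.lf (nat_lit 289725) (.g (nat_lit 1110) (.e (nat_lit 303139) (nat_lit 10) (.e (nat_lit 434269) (nat_lit 36) (.e (nat_lit 639021) (nat_lit 16) (.e (nat_lit 65584) (nat_lit 7) (.e (nat_lit 319526) (nat_lit 15) (.e (nat_lit 278546) (nat_lit 8) .nil)))))) (.g (nat_lit 6) .nil .nil))))))) (.nd (nat_lit 2) (.nd (nat_lit 3) (.nd (nat_lit 4) (.nd (nat_lit 5) 
(.lf (nat_lit 289667) (.g (nat_lit 1402) (.e (nat_lit 303137) (nat_lit 10) (.e (nat_lit 434269) (nat_lit 36) (.e (nat_lit 639021) (nat_lit 16) (.e (nat_lit 65586) (nat_lit 7) (.e (nat_lit 319526) (nat_lit 15) (.e (nat_lit 278547) (nat_lit 8) .nil)))))) (.g (nat_lit 5) .nil .nil))) 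
(.lf (nat_lit 289699) (.g (nat_lit 1091) (.e (nat_lit 303138) (nat_lit 10) (.e (nat_lit 434268) (nat_lit 36) (.e (nat_lit 639020) (nat_lit 16) (.e (nat_lit 65585) (nat_lit 7) .nil)))) .nil))) (.nd (nat_lit 5) 
(.lf (nat_lit 289683) (.g (nat_lit 3090) (.e (nat_lit 303137) (nat_lit 10) (.e (nat_lit 434291) (nat_lit 44) (.e (nat_lit 704737) (nat_lit 11) (.e (nat_lit 16470) (nat_lit 14) (.e (nat_lit 499456) (nat_lit 25) (.e (nat_lit 409648) (nat_lit 18) .nil)))))) (.g (nat_lit 4) .nil .nil))) 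
(.lf (nat_lit 289715) (.g (nat_lit 1272) (.e (nat_lit 303139) (nat_lit 10) (.e (nat_lit 434266) (nat_lit 35) (.e (nat_lit 630821) (nat_lit 16) (.e (nat_lit 65586) (nat_lit 7) (.e (nat_lit 319526) (nat_lit 15) (.e (nat_lit 278546) (nat_lit 8) .nil)))))) (.g (nat_lit 6) .nil .nil))))) (.nd (nat_lit 4) (.nd (nat_lit 5) 
(.lf (nat_lit 289675) (.g (nat_lit 1532) (.e (nat_lit 303137) (nat_lit 10) (.e (nat_lit 434275) (nat_lit 39) (.e (nat_lit 663580) (nat_lit 9) (.e (nat_lit 7936) (nat_lit 25) .nil)))) .nil)) 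
(.lf (nat_lit 289707) (.g (nat_lit 895) (.e (nat_lit 303139) (nat_lit 10) (.e (nat_lit 434241) (nat_lit 27) (.e (nat_lit 565251) (nat_lit 0) (.e (nat_lit 1586) (nat_lit 111) (.e (nat_lit 368384) (nat_lit 26) (.e (nat_lit 811029) (nat_lit 9) .nil)))))) (.g (nat_lit 4) .nil .nil)))) (.nd (nat_lit 5) 
(.lf (nat_lit 289691) (.g (nat_lit 1779) (.e (nat_lit 303137) (nat_lit 10) (.e (nat_lit 434295) (nat_lit 49) (.e (nat_lit 745476) (nat_lit 0) (.e (nat_lit 1598) (nat_lit 111) (.e (nat_lit 360473) (nat_lit 8) (.e (nat_lit 557119) (nat_lit 18) (.e (nat_lit 2796) (nat_lit 180) .nil))))))) (.g (nat_lit 4) .nil .nil))) 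
(.lf (nat_lit 289723) (.g (nat_lit 938) (.e (nat_lit 303139) (nat_lit 10) (.e (nat_lit 434268) (nat_lit 36) (.e (nat_lit 639022) (nat_lit 17) (.e (nat_lit 73792) (nat_lit 45) (.e (nat_lit 1342) (nat_lit 101) (.e (nat_lit 278547) (nat_lit 8) .nil)))))) (.g (nat_lit 4) .nil .nil)))))) (.nd (nat_lit 3) (.nd (nat_lit 4) (.nd (nat_lit 5) 
(.lf (nat_lit 289671) (.g (nat_lit 2173) (.e (nat_lit 303137) (nat_lit 10) (.e (nat_lit 434272) (nat_lit 38) (.e (nat_lit 655382) (nat_lit 8) (.e (nat_lit 237612) (nat_lit 9) (.e (nat_lit 426100) (nat_lit 1) (.e (nat_lit 164395) (nat_lit 255) (.e (nat_lit 8213) (nat_lit 9) .nil))))))) (.g (nat_lit 5) .nil .nil))) 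
(.lf (nat_lit 289703) (.g (nat_lit 1044) (.e (nat_lit 303138) (nat_lit 10) (.e (nat_lit 434269) (nat_lit 36) (.e (nat_lit 639021) (nat_lit 16) (.e (nat_lit 65586) (nat_lit 7) (.e (nat_lit 319526) (nat_lit 15) (.e (nat_lit 278547) (nat_lit 8) .nil)))))) (.g (nat_lit 4) .nil .nil)))) (.nd (nat_lit 5) 
(.lf (nat_lit 289687) (.g (nat_lit 1930) (.e (nat_lit 303137) (nat_lit 10) (.e (nat_lit 434295) (nat_lit 49) (.e (nat_lit 745475) (nat_lit 0) (.e (nat_lit 1595) (nat_lit 111) (.e (nat_lit 360473) (nat_lit 8) (.e (nat_lit 557118) (nat_lit 18) (.e (nat_lit 2807) (nat_lit 180) .nil))))))) (.g (nat_lit 5) .nil .nil))) 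
(.lf (nat_lit 289719) (.g (nat_lit 438) (.e (nat_lit 303139) (nat_lit 10) (.e (nat_lit 434268) (nat_lit 36) (.e (nat_lit 639021) (nat_lit 16) .nil))) .nil)))) (.nd (nat_lit 4) (.nd (nat_lit 5) 
(.lf (nat_lit 289679) (.g (nat_lit 5003) (.e (nat_lit 303137) (nat_lit 10) (.e (nat_lit 434275) (nat_lit 39) (.e (nat_lit 663585) (nat_lit 12) (.e (nat_lit 164022) (nat_lit 46) (.e (nat_lit 704738) (nat_lit 11) (.e (nat_lit 16425) (nat_lit 7) (.e (nat_lit 409648) (nat_lit 18) .nil))))))) (.g (nat_lit 0) .nil .nil))) 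
(.lf (nat_lit 289711) (.g (nat_lit 836) (.e (nat_lit 303139) (nat_lit 10) (.e (nat_lit 434265) (nat_lit 35) (.e (nat_lit 630820) (nat_lit 16) (.e (nat_lit 65584) (nat_lit 7) (.e (nat_lit 319526) (nat_lit 15) (.e (nat_lit 278546) (nat_lit 8) .nil)))))) (.g (nat_lit 6) .nil .nil)))) (.nd (nat_lit 5) 
(.lf (nat_lit 289695) (.g (nat_lit 919) (.e (nat_lit 303138) (nat_lit 10) (.e (nat_lit 434241) (nat_lit 27) (.e (nat_lit 565251) (nat_lit 0) (.e (nat_lit 1598) (nat_lit 111) (.e (nat_lit 368384) (nat_lit 26) (.e (nat_lit 811029) (nat_lit 9) .nil)))))) (.g (nat_lit 4) .nil .nil))) 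
(.lf (nat_lit 289727) (.g (nat_lit 691) (.e (nat_lit 303139) (nat_lit 10) (.e (nat_lit 434269) (nat_lit 36) (.e (nat_lit 639021) (nat_lit 16) (.e (nat_lit 65585) (nat_lit 7) (.e (nat_lit 319524) (nat_lit 14) (.e (nat_lit 270354) (nat_lit 8) .nil)))))) (.g (nat_lit 0) .nil .nil)))))))))

noncomputable def tv3663 : DT := (.nd (nat_lit 0) (.nd (nat_lit 1) (.nd (nat_lit 2) (.nd (nat_lit 3) (.nd (nat_lit 4) (.nd (nat_lit 5) 
(.lf (nat_lit 289728) (.g (nat_lit 665) (.e (nat_lit 303139) (nat_lit 10) (.e (nat_lit 434269) (nat_lit 36) (.e (nat_lit 639021) (nat_lit 16) (.e (nat_lit 65585) (nat_lit 7) (.e (nat_lit 319527) (nat_lit 15) (.e (nat_lit 278547) (nat_lit 8) .nil)))))) (.g (nat_lit 0) .nil .nil))) 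
(.lf (nat_lit 289760) (.g (nat_lit 4266) (.e (nat_lit 303140) (nat_lit 10) (.e (nat_lit 434295) (nat_lit 49) (.e (nat_lit 745475) (nat_lit 0) (.e (nat_lit 1586) (nat_lit 111) (.e (nat_lit 360475) (nat_lit 8) (.e (nat_lit 557119) (nat_lit 18) (.e (nat_lit 2798) (nat_lit 180) .nil))))))) (.g (nat_lit 7) .nil .nil)))) (.nd (nat_lit 5) 
(.lf (nat_lit 289744) (.g (nat_lit 823) (.e (nat_lit 303140) (nat_lit 10) (.e (nat_lit 434241) (nat_lit 27) (.e (nat_lit 565269) (nat_lit 6) (.e (nat_lit 81933) (nat_lit 20) .nil)))) .nil)) 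
(.lf (nat_lit 289776) (.g (nat_lit 3273) (.e (nat_lit 303143) (nat_lit 12) (.e (nat_lit 475184) (nat_lit 29) (.e (nat_lit 557109) (nat_lit 15) (.e (nat_lit 188449) (nat_lit 22) (.e (nat_lit 196683) (nat_lit 18) .nil))))) .nil)))) (.nd (nat_lit 4) (.nd (nat_lit 5) 
(.lf (nat_lit 289736) (.g (nat_lit 722) (.e (nat_lit 303139) (nat_lit 10) (.e (nat_lit 434269) (nat_lit 36) (.e (nat_lit 639022) (nat_lit 17) (.e (nat_lit 73792) (nat_lit 45) (.e (nat_lit 1343) (nat_lit 101) (.e (nat_lit 278547) (nat_lit 8) .nil)))))) (.g (nat_lit 0) .nil .nil))) 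
(.lf (nat_lit 289768) (.g (nat_lit 3274) (.e (nat_lit 303140) (nat_lit 10) (.e (nat_lit 434295) (nat_lit 49) (.e (nat_lit 745476) (nat_lit 0) (.e (nat_lit 1599) (nat_lit 111) (.e (nat_lit 360474) (nat_lit 8) (.e (nat_lit 557118) (nat_lit 18) (.e (nat_lit 2808) (nat_lit 180) .nil))))))) (.g (nat_lit 6) .nil .nil)))) (.nd (nat_lit 5) 
(.lf (nat_lit 289752) (.g (nat_lit 1338) (.e (nat_lit 303140) (nat_lit 10) (.e (nat_lit 434269) (nat_lit 36) (.e (nat_lit 639021) (nat_lit 16) (.e (nat_lit 65586) (nat_lit 7) (.e (nat_lit 319526) (nat_lit 15) (.e (nat_lit 278547) (nat_lit 8) .nil)))))) (.g (nat_lit 4) .nil .nil))) 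
(.lf (nat_lit 289784) (.g (nat_lit 5338) (.e (nat_lit 303143) (nat_lit 12) (.e (nat_lit 475185) (nat_lit 29) (.e (nat_lit 557109) (nat_lit 15) (.e (nat_lit 188449) (nat_lit 22) (.e (nat_lit 196688) (nat_lit 18) .nil))))) .nil))))) (.nd (nat_lit 3) (.nd (nat_lit 4) (.nd (nat_lit 5) 
(.lf (nat_lit 289732) (.g (nat_lit 1087) (.e (nat_lit 303139) (nat_lit 10) (.e (nat_lit 434269) (nat_lit 36) (.e (nat_lit 639021) (nat_lit 16) (.e (nat_lit 65586) (nat_lit 7) (.e (nat_lit 319527) (nat_lit 15) (.e (nat_lit 278547) (nat_lit 8) .nil)))))) (.g (nat_lit 0) .nil .nil))) 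
(.lf (nat_lit 289764) (.g (nat_lit 2314) (.e (nat_lit 303140) (nat_lit 10) (.e (nat_lit 434295) (nat_lit 49) (.e (nat_lit 745475) (nat_lit 0) (.e (nat_lit 1599) (nat_lit 111) (.e (nat_lit 360474) (nat_lit 8) (.e (nat_lit 557118) (nat_lit 18) (.e (nat_lit 2808) (nat_lit 180) .nil))))))) (.g (nat_lit 5) .nil .nil)))) (.nd (nat_lit 5) 
(.lf (nat_lit 289748) (.g (nat_lit 1496) (.e (nat_lit 303140) (nat_lit 10) (.e (nat_lit 434268) (nat_lit 36) (.e (nat_lit 639020) (nat_lit 16) (.e (nat_lit 65583) (nat_lit 7) (.e (nat_lit 319527) (nat_lit 15) .nil))))) .nil)) 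
(.lf (nat_lit 289780) (.g (nat_lit 2213) (.e (nat_lit 303143) (nat_lit 12) (.e (nat_lit 475185) (nat_lit 29) (.e (nat_lit 557100) (nat_lit 13) (.e (nat_lit 172113) (nat_lit 10) (.e (nat_lit 434224) (nat_lit 19) .nil))))) .nil)))) (.nd (nat_lit 4) (.nd (nat_lit 5) 
(.lf (nat_lit 289740) (.g (nat_lit 2158) (.e (nat_lit 303140) (nat_lit 10) (.e (nat_lit 434202) (nat_lit 18) (.e (nat_lit 6830) (nat_lit 367) (.e (nat_lit 57427) (nat_lit 15) (.e (nat_lit 360472) (nat_lit 8) .nil))))) .nil)) 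
(.lf (nat_lit 289772) (.g (nat_lit 305) (.e (nat_lit 303142) (nat_lit 12) (.e (nat_lit 475193) (nat_lit 38) (.e (nat_lit 688180) (nat_lit 17) .nil))) .nil))) (.nd (nat_lit 5) 
(.lf (nat_lit 289756) (.g (nat_lit 4667) (.e (nat_lit 303140) (nat_lit 10) (.e (nat_lit 434275) (nat_lit 39) (.e (nat_lit 663585) (nat_lit 12) (.e (nat_lit 164022) (nat_lit 46) (.e (nat_lit 704738) (nat_lit 11) (.e (nat_lit 16425) (nat_lit 7) (.e (nat_lit 409649) (nat_lit 18) .nil))))))) (.g (nat_lit 0) .nil .nil))) 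
(.lf (nat_lit 289788) (.g (nat_lit 2668) (.e (nat_lit 303143) (nat_lit 12) (.e (nat_lit 475199) (nat_lit 40) (.e (nat_lit 704598) (nat_lit 6) (.e (nat_lit 188453) (nat_lit 24) (.e (nat_lit 237312) (nat_lit 255) (.e (nat_lit 8211) (nat_lit 9) .nil)))))) (.g (nat_lit 4) .nil .nil))))))) (.nd (nat_lit 2) (.nd (nat_lit 3) (.nd (nat_lit 4) (.nd (nat_lit 5) 
(.lf (nat_lit 289730) (.g (nat_lit 1466) (.e (nat_lit 303139) (nat_lit 10) (.e (nat_lit 434269) (nat_lit 36) (.e (nat_lit 639021) (nat_lit 16) (.e (nat_lit 65586) (nat_lit 7) (.e (nat_lit 319526) (nat_lit 15) (.e (nat_lit 278546) (nat_lit 8) .nil)))))) (.g (nat_lit 6) .nil .nil))) 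
(.lf (nat_lit 289762) (.g (nat_lit 2179) (.e (nat_lit 303140) (nat_lit 10) (.e (nat_lit 434295) (nat_lit 49) (.e (nat_lit 745475) (nat_lit 0) (.e (nat_lit 1595) (nat_lit 111) (.e (nat_lit 360473) (nat_lit 8) (.e (nat_lit 557118) (nat_lit 18) (.e (nat_lit 2808) (nat_lit 180) .nil))))))) (.g (nat_lit 5) .nil .nil)))) (.nd (nat_lit 5) 
(.lf (nat_lit 289746) (.g (nat_lit 440) (.e (nat_lit 303140) (nat_lit 10) (.e (nat_lit 434268) (nat_lit 36) (.e (nat_lit 639020) (nat_lit 16) .nil))) .nil)) 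
(.lf (nat_lit 289778) (.g (nat_lit 2482) (.e (nat_lit 303143) (nat_lit 12) (.e (nat_lit 475185) (nat_lit 29) (.e (nat_lit 557097) (nat_lit 13) (.e (nat_lit 172094) (nat_lit 9) .nil)))) .nil)))) (.nd (nat_lit 4) (.nd (nat_lit 5) 
(.lf (nat_lit 289738) (.g (nat_lit 1584) (.e (nat_lit 303140) (nat_lit 10) (.e (nat_lit 434202) (nat_lit 18) (.e (nat_lit 5799) (nat_lit 320) (.e (nat_lit 2612) (nat_lit 163) (.e (nat_lit 164023) (nat_lit 46) .nil))))) .nil)) 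
(.lf (nat_lit 289770) (.g (nat_lit 2100) (.e (nat_lit 303142) (nat_lit 12) (.e (nat_lit 475183) (nat_lit 29) (.e (nat_lit 557108) (nat_lit 15) (.e (nat_lit 188449) (nat_lit 22) (.e (nat_lit 204544) (nat_lit 18) .nil))))) .nil))) (.nd (nat_lit 5) 
(.lf (nat_lit 289754) (.g (nat_lit 2302) (.e (nat_lit 303140) (nat_lit 10) (.e (nat_lit 434275) (nat_lit 39) (.e (nat_lit 663584) (nat_lit 12) (.e (nat_lit 164023) (nat_lit 46) (.e (nat_lit 704736) (nat_lit 11) .nil))))) .nil)) 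
(.lf (nat_lit 289786) (.g (nat_lit 2492) (.e (nat_lit 303143) (nat_lit 12) (.e (nat_lit 475185) (nat_lit 29) (.e (nat_lit 557109) (nat_lit 15) (.e (nat_lit 188458) (nat_lit 25) (.e (nat_lit 245797) (nat_lit 18) .nil))))) .nil))))) (.nd (nat_lit 3) (.nd (nat_lit 4) (.nd (nat_lit 5) 
(.lf (nat_lit 289734) (.g (nat_lit 571) (.e (nat_lit 303139) (nat_lit 10) (.e (nat_lit 434269) (nat_lit 36) (.e (nat_lit 639022) (nat_lit 17) (.e (nat_lit 73791) (nat_lit 45) (.e (nat_lit 1343) (nat_lit 101) (.e (nat_lit 278547) (nat_lit 8) .nil)))))) (.g (nat_lit 0) .nil .nil))) 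
(.lf (nat_lit 289766) (.g (nat_lit 4529) (.e (nat_lit 303140) (nat_lit 10) (.e (nat_lit 434295) (nat_lit 49) (.e (nat_lit 745476) (nat_lit 0) (.e (nat_lit 1586) (nat_lit 111) (.e (nat_lit 360475) (nat_lit 8) (.e (nat_lit 557119) (nat_lit 18) (.e (nat_lit 2798) (nat_lit 180) .nil))))))) (.g (nat_lit 0) .nil .nil)))) (.nd (nat_lit 5) 
(.lf (nat_lit 289750) (.g (nat_lit 489) (.e (nat_lit 303140) (nat_lit 10) (.e (nat_lit 434268) (nat_lit 36) (.e (nat_lit 639022) (nat_lit 17) .nil))) .nil)) 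
(.lf (nat_lit 289782) (.g (nat_lit 1544) (.e (nat_lit 303143) (nat_lit 12) (.e (nat_lit 475185) (nat_lit 29) (.e (nat_lit 557108) (nat_lit 15) (.e (nat_lit 188449) (nat_lit 22) .nil)))) .nil)))) (.nd (nat_lit 4) (.nd (nat_lit 5) 
(.lf (nat_lit 289742) (.g (nat_lit 4967) (.e (nat_lit 303140) (nat_lit 10) (.e (nat_lit 434202) (nat_lit 18) (.e (nat_lit 6830) (nat_lit 367) (.e (nat_lit 57427) (nat_lit 15) (.e (nat_lit 360475) (nat_lit 8) (.e (nat_lit 557119) (nat_lit 18) (.e (nat_lit 2798) (nat_lit 180) .nil))))))) (.g (nat_lit 0) .nil .nil))) 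
(.lf (nat_lit 289774) (.g (nat_lit 1243) (.e (nat_lit 303142) (nat_lit 12) (.e (nat_lit 475214) (nat_lit 42) (.e (nat_lit 720955) (nat_lit 25) (.e (nat_lit 114694) (nat_lit 11) .nil)))) .nil))) (.nd (nat_lit 5) 
(.lf (nat_lit 289758) (.g (nat_lit 1114) (.e (nat_lit 303140) (nat_lit 10) (.e (nat_lit 434295) (nat_lit 49) (.e (nat_lit 745474) (nat_lit 0) (.e (nat_lit 1598) (nat_lit 111) (.e (nat_lit 360473) (nat_lit 8) (.e (nat_lit 557118) (nat_lit 18) (.e (nat_lit 2808) (nat_lit 180) .nil))))))) (.g (nat_lit 4) .nil .nil))) 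
(.lf (nat_lit 289790) (.g (nat_lit 2144) (.e (nat_lit 303143) (nat_lit 12) (.e (nat_lit 475199) (nat_lit 40) (.e (nat_lit 704599) (nat_lit 6) (.e (nat_lit 188455) (nat_lit 24) (.e (nat_lit 237312) (nat_lit 255) (.e (nat_lit 8211) (nat_lit 9) .nil)))))) (.g (nat_lit 4) .nil .nil)))))))) (.nd (nat_lit 1) (.nd (nat_lit 2) (.nd (nat_lit 3) (.nd (nat_lit 4) (.nd (nat_lit 5) 
(.lf (nat_lit 289729) (.g (nat_lit 1152) (.e (nat_lit 303139) (nat_lit 10) (.e (nat_lit 434269) (nat_lit 36) (.e (nat_lit 639021) (nat_lit 16) (.e (nat_lit 65586) (nat_lit 7) (.e (nat_lit 319524) (nat_lit 14) (.e (nat_lit 270354) (nat_lit 8) .nil)))))) (.g (nat_lit 6) .nil .nil))) 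
(.lf (nat_lit 289761) (.g (nat_lit 1929) (.e (nat_lit 303140) (nat_lit 10) (.e (nat_lit 434295) (nat_lit 49) (.e (nat_lit 745475) (nat_lit 0) (.e (nat_lit 1589) (nat_lit 111) (.e (nat_lit 360473) (nat_lit 8) (.e (nat_lit 557118) (nat_lit 18) (.e (nat_lit 2808) (nat_lit 180) .nil))))))) (.g (nat_lit 5) .nil .nil)))) (.nd (nat_lit 5) 
(.lf (nat_lit 289745) (.g (nat_lit 2501) (.e (nat_lit 303140) (nat_lit 10) (.e (nat_lit 434241) (nat_lit 27) (.e (nat_lit 565269) (nat_lit 6) (.e (nat_lit 81965) (nat_lit 26) (.e (nat_lit 147512) (nat_lit 14) (.e (nat_lit 2808) (nat_lit 180) .nil)))))) (.g (nat_lit 5) .nil .nil))) 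
(.lf (nat_lit 289777) (.g (nat_lit 2227) (.e (nat_lit 303143) (nat_lit 12) (.e (nat_lit 475185) (nat_lit 29) (.e (nat_lit 557096) (nat_lit 13) (.e (nat_lit 172094) (nat_lit 9) .nil)))) .nil)))) (.nd (nat_lit 4) (.nd (nat_lit 5) 
(.lf (nat_lit 289737) (.g (nat_lit 3639) (.e (nat_lit 303140) (nat_lit 10) (.e (nat_lit 434200) (nat_lit 18) (.e (nat_lit 6834) (nat_lit 368) (.e (nat_lit 122919) (nat_lit 15) (.e (nat_lit 360475) (nat_lit 8) (.e (nat_lit 557119) (nat_lit 18) (.e (nat_lit 2808) (nat_lit 180) .nil))))))) (.g (nat_lit 6) .nil .nil))) 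
(.lf (nat_lit 289769) (.g (nat_lit 1468) (.e (nat_lit 303141) (nat_lit 11) (.e (nat_lit 458774) (nat_lit 18) (.e (nat_lit 5964) (nat_lit 324) (.e (nat_lit 163844) (nat_lit 0) (.e (nat_lit 3471) (nat_lit 217) .nil))))) .nil))) (.nd (nat_lit 5) 
(.lf (nat_lit 289753) (.g (nat_lit 1338) (.e (nat_lit 303140) (nat_lit 10) (.e (nat_lit 434269) (nat_lit 36) (.e (nat_lit 639021) (nat_lit 16) (.e (nat_lit 65586) (nat_lit 7) (.e (nat_lit 319527) (nat_lit 15) (.e (nat_lit 278546) (nat_lit 8) .nil)))))) (.g (nat_lit 4) .nil .nil))) 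
(.lf (nat_lit 289785) (.g (nat_lit 3191) (.e (nat_lit 303143) (nat_lit 12) (.e (nat_lit 475185) (nat_lit 29) (.e (nat_lit 557109) (nat_lit 15) (.e (nat_lit 188456) (nat_lit 25) (.e (nat_lit 245797) (nat_lit 18) .nil))))) .nil))))) (.nd (nat_lit 3) (.nd (nat_lit 4) (.nd (nat_lit 5) 
(.lf (nat_lit 289733) (.g (nat_lit 536) (.e (nat_lit 303139) (nat_lit 10) (.e (nat_lit 434269) (nat_lit 36) (.e (nat_lit 639022) (nat_lit 17) (.e (nat_lit 73789) (nat_lit 45) (.e (nat_lit 1340) (nat_lit 101) .nil))))) .nil)) 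
(.lf (nat_lit 289765) (.g (nat_lit 3521) (.e (nat_lit 303140) (nat_lit 10) (.e (nat_lit 434295) (nat_lit 49) (.e (nat_lit 745476) (nat_lit 0) (.e (nat_lit 1586) (nat_lit 111) (.e (nat_lit 360475) (nat_lit 8) (.e (nat_lit 557118) (nat_lit 18) (.e (nat_lit 2808) (nat_lit 180) .nil))))))) (.g (nat_lit 5) .nil .nil)))) (.nd (nat_lit 5) 
(.lf (nat_lit 289749) (.g (nat_lit 1215) (.e (nat_lit 303140) (nat_lit 10) (.e (nat_lit 434268) (nat_lit 36) (.e (nat_lit 639020) (nat_lit 16) (.e (nat_lit 65585) (nat_lit 7) (.e (nat_lit 319524) (nat_lit 14) .nil))))) .nil)) 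
(.lf (nat_lit 289781) (.g (nat_lit 3304) (.e (nat_lit 303143) (nat_lit 12) (.e (nat_lit 475185) (nat_lit 29) (.e (nat_lit 557107) (nat_lit 15) (.e (nat_lit 188449) (nat_lit 22) (.e (nat_lit 204544) (nat_lit 18) .nil))))) .nil)))) (.nd (nat_lit 4) (.nd (nat_lit 5) 
(.lf (nat_lit 289741) (.g (nat_lit 4656) (.e (nat_lit 303140) (nat_lit 10) (.e (nat_lit 434202) (nat_lit 18) (.e (nat_lit 6830) (nat_lit 367) (.e (nat_lit 57427) (nat_lit 15) (.e (nat_lit 360474) (nat_lit 8) (.e (nat_lit 557119) (nat_lit 18) (.e (nat_lit 2808) (nat_lit 180) .nil))))))) (.g (nat_lit 5) .nil .nil))) 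
(.lf (nat_lit 289773) (.g (nat_lit 1305) (.e (nat_lit 303142) (nat_lit 12) (.e (nat_lit 475207) (nat_lit 41) (.e (nat_lit 712755) (nat_lit 30) (.e (nat_lit 450597) (nat_lit 17) (.e (nat_lit 663589) (nat_lit 14) (.e (nat_lit 2807) (nat_lit 180) .nil)))))) (.g (nat_lit 4) .nil .nil)))) (.nd (nat_lit 5) 
(.lf (nat_lit 289757) (.g (nat_lit 4822) (.e (nat_lit 303140) (nat_lit 10) (.e (nat_lit 434275) (nat_lit 39) (.e (nat_lit 663585) (nat_lit 12) (.e (nat_lit 164023) (nat_lit 46) (.e (nat_lit 704738) (nat_lit 11) (.e (nat_lit 16425) (nat_lit 7) (.e (nat_lit 409649) (nat_lit 18) .nil))))))) (.g (nat_lit 0) .nil .nil))) 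
(.lf (nat_lit 289789) (.g (nat_lit 2274) (.e (nat_lit 303143) (nat_lit 12) (.e (nat_lit 475199) (nat_lit 40) (.e (nat_lit 704599) (nat_lit 6) (.e (nat_lit 188453) (nat_lit 24) (.e (nat_lit 237312) (nat_lit 255) (.e (nat_lit 8211) (nat_lit 9) .nil)))))) (.g (nat_lit 4) .nil .nil))))))) (.nd (nat_lit 2) (.nd (nat_lit 3) (.nd (nat_lit 4) (.nd (nat_lit 5) 
(.lf (nat_lit 289731) (.g (nat_lit 905) (.e (nat_lit 303139) (nat_lit 10) (.e (nat_lit 434269) (nat_lit 36) (.e (nat_lit 639021) (nat_lit 16) (.e (nat_lit 65586) (nat_lit 7) (.e (nat_lit 319527) (nat_lit 15) (.e (nat_lit 278546) (nat_lit 8) .nil)))))) (.g (nat_lit 4) .nil .nil))) 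
(.lf (nat_lit 289763) (.g (nat_lit 3010) (.e (nat_lit 303140) (nat_lit 10) (.e (nat_lit 434295) (nat_lit 49) (.e (nat_lit 745475) (nat_lit 0) (.e (nat_lit 1598) (nat_lit 111) (.e (nat_lit 360473) (nat_lit 8) (.e (nat_lit 557119) (nat_lit 18) (.e (nat_lit 2798) (nat_lit 180) .nil))))))) (.g (nat_lit 7) .nil .nil)))) (.nd (nat_lit 5) 
(.lf (nat_lit 289747) (.g (nat_lit 1628) (.e (nat_lit 303140) (nat_lit 10) (.e (nat_lit 434268) (nat_lit 36) (.e (nat_lit 639020) (nat_lit 16) (.e (nat_lit 65583) (nat_lit 7) (.e (nat_lit 319524) (nat_lit 14) .nil))))) .nil)) 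
(.lf (nat_lit 289779) (.g (nat_lit 1888) (.e (nat_lit 303143) (nat_lit 12) (.e (nat_lit 475185) (nat_lit 29) (.e (nat_lit 557100) (nat_lit 13) (.e (nat_lit 172106) (nat_lit 10) (.e (nat_lit 434220) (nat_lit 19) .nil))))) .nil)))) (.nd (nat_lit 4) (.nd (nat_lit 5) 
(.lf (nat_lit 289739) (.g (nat_lit 2962) (.e (nat_lit 303140) (nat_lit 10) (.e (nat_lit 434202) (nat_lit 18) (.e (nat_lit 6830) (nat_lit 367) (.e (nat_lit 57426) (nat_lit 15) (.e (nat_lit 360473) (nat_lit 8) (.e (nat_lit 557119) (nat_lit 18) (.e (nat_lit 2798) (nat_lit 180) .nil))))))) (.g (nat_lit 5) .nil .nil))) 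
(.lf (nat_lit 289771) (.g (nat_lit 2789) (.e (nat_lit 303142) (nat_lit 12) (.e (nat_lit 475184) (nat_lit 29) (.e (nat_lit 557109) (nat_lit 15) (.e (nat_lit 188441) (nat_lit 20) (.e (nat_lit 3205) (nat_lit 194) .nil))))) .nil))) (.nd (nat_lit 5) 
(.lf (nat_lit 289755) (.g (nat_lit 2261) (.e (nat_lit 303140) (nat_lit 10) (.e (nat_lit 434275) (nat_lit 39) (.e (nat_lit 663584) (nat_lit 12) (.e (nat_lit 164023) (nat_lit 46) (.e (nat_lit 704737) (nat_lit 11) .nil))))) .nil)) 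
(.lf (nat_lit 289787) (.g (nat_lit 2007) (.e (nat_lit 303143) (nat_lit 12) (.e (nat_lit 475199) (nat_lit 40) (.e (nat_lit 704589) (nat_lit 3) (.e (nat_lit 164074) (nat_lit 60) .nil)))) .nil))))) (.nd (nat_lit 3) (.nd (nat_lit 4) (.nd (nat_lit 5) 
(.lf (nat_lit 289735) (.g (nat_lit 746) (.e (nat_lit 303139) (nat_lit 10) (.e (nat_lit 434269) (nat_lit 36) (.e (nat_lit 639022) (nat_lit 17) (.e (nat_lit 73792) (nat_lit 45) (.e (nat_lit 1342) (nat_lit 101) (.e (nat_lit 278547) (nat_lit 8) .nil)))))) (.g (nat_lit 0) .nil .nil))) 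
(.lf (nat_lit 289767) (.g (nat_lit 4740) (.e (nat_lit 303140) (nat_lit 10) (.e (nat_lit 434295) (nat_lit 49) (.e (nat_lit 745476) (nat_lit 0) (.e (nat_lit 1586) (nat_lit 111) (.e (nat_lit 360475) (nat_lit 8) (.e (nat_lit 557119) (nat_lit 18) (.e (nat_lit 2808) (nat_lit 180) .nil))))))) (.g (nat_lit 0) .nil .nil)))) (.nd (nat_lit 5) 
(.lf (nat_lit 289751) (.g (nat_lit 1385) (.e (nat_lit 303140) (nat_lit 10) (.e (nat_lit 434269) (nat_lit 36) (.e (nat_lit 639021) (nat_lit 16) (.e (nat_lit 65583) (nat_lit 7) (.e (nat_lit 319526) (nat_lit 15) (.e (nat_lit 278547) (nat_lit 8) .nil)))))) (.g (nat_lit 5) .nil .nil))) 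
(.lf (nat_lit 289783) (.g (nat_lit 4968) (.e (nat_lit 303143) (nat_lit 12) (.e (nat_lit 475185) (nat_lit 29) (.e (nat_lit 557109) (nat_lit 15) (.e (nat_lit 188449) (nat_lit 22) (.e (nat_lit 196687) (nat_lit 18) .nil))))) .nil)))) (.nd (nat_lit 4) (.nd (nat_lit 5) 
(.lf (nat_lit 289743) (.g (nat_lit 895) (.e (nat_lit 303140) (nat_lit 10) (.e (nat_lit 434241) (nat_lit 27) (.e (nat_lit 565269) (nat_lit 6) (.e (nat_lit 81931) (nat_lit 20) .nil)))) .nil)) 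
(.lf (nat_lit 289775) (.g (nat_lit 1892) (.e (nat_lit 303143) (nat_lit 12) (.e (nat_lit 475184) (nat_lit 29) (.e (nat_lit 557109) (nat_lit 15) (.e (nat_lit 188441) (nat_lit 20) .nil)))) .nil))) (.nd (nat_lit 5) 
(.lf (nat_lit 289759) (.g (nat_lit 3355) (.e (nat_lit 303140) (nat_lit 10) (.e (nat_lit 434295) (nat_lit 49) (.e (nat_lit 745475) (nat_lit 0) (.e (nat_lit 1586) (nat_lit 111) (.e (nat_lit 360475) (nat_lit 8) (.e (nat_lit 557118) (nat_lit 18) (.e (nat_lit 2808) (nat_lit 180) .nil))))))) (.g (nat_lit 5) .nil .nil))) 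
(.lf (nat_lit 289791) (.g (nat_lit 610) (.e (nat_lit 303143) (nat_lit 12) (.e (nat_lit 475199) (nat_lit 40) (.e (nat_lit 704673) (nat_lit 9) .nil))) .nil))))))))

noncomputable def tv3664 : DT := (.nd (nat_lit 0) (.nd (nat_lit 1) (.nd (nat_lit 2) (.nd (nat_lit 3) (.nd (nat_lit 4) (.nd (nat_lit 5) 
(.lf (nat_lit 289792) (.g (nat_lit 1661) (.e (nat_lit 303143) (nat_lit 12) (.e (nat_lit 475212) (nat_lit 42) (.e (nat_lit 720947) (nat_lit 24) (.e (nat_lit 106536) (nat_lit 11) (.e (nat_lit 16428) (nat_lit 8) .nil))))) .nil)) 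
(.lf (nat_lit 289824) (.g (nat_lit 1104) (.e (nat_lit 303146) (nat_lit 14) (.e (nat_lit 491560) (nat_lit 10) (.e (nat_lit 344166) (nat_lit 38) .nil))) .nil))) (.nd (nat_lit 5) 
(.lf (nat_lit 289808) (.g (nat_lit 1558) (.e (nat_lit 303145) (nat_lit 13) (.e (nat_lit 483401) (nat_lit 25) (.e (nat_lit 368695) (nat_lit 40) (.e (nat_lit 671744) (nat_lit 0) (.e (nat_lit 1400) (nat_lit 106) (.e (nat_lit 327424) (nat_lit 8) .nil)))))) (.g (nat_lit 4) .nil .nil))) 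
(.lf (nat_lit 289840) (.g (nat_lit 3503) (.e (nat_lit 303147) (nat_lit 15) (.e (nat_lit 1847) (nat_lit 124) (.e (nat_lit 557098) (nat_lit 13) (.e (nat_lit 172115) (nat_lit 10) (.e (nat_lit 434231) (nat_lit 23) (.e (nat_lit 532490) (nat_lit 0) (.e (nat_lit 6114) (nat_lit 332) (.e (nat_lit 1379) (nat_lit 104) .nil)))))))) (.g (nat_lit 6) .nil .nil))))) (.nd (nat_lit 4) (.nd (nat_lit 5) 
(.lf (nat_lit 289800) (.g (nat_lit 1647) (.e (nat_lit 303143) (nat_lit 12) (.e (nat_lit 475214) (nat_lit 42) (.e (nat_lit 720949) (nat_lit 24) (.e (nat_lit 106534) (nat_lit 11) (.e (nat_lit 16425) (nat_lit 7) .nil))))) .nil)) 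
(.lf (nat_lit 289832) (.g (nat_lit 3315) (.e (nat_lit 303147) (nat_lit 15) (.e (nat_lit 1846) (nat_lit 124) (.e (nat_lit 557108) (nat_lit 15) (.e (nat_lit 188452) (nat_lit 23) (.e (nat_lit 204819) (nat_lit 17) (.e (nat_lit 6113) (nat_lit 332) (.e (nat_lit 1376) (nat_lit 104) .nil))))))) (.g (nat_lit 4) .nil .nil)))) (.nd (nat_lit 5) 
(.lf (nat_lit 289816) (.g (nat_lit 2963) (.e (nat_lit 303146) (nat_lit 14) (.e (nat_lit 491540) (nat_lit 3) (.e (nat_lit 98373) (nat_lit 29) (.e (nat_lit 450574) (nat_lit 1) (.e (nat_lit 499767) (nat_lit 0) .nil))))) .nil)) 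
(.lf (nat_lit 289848) (.g (nat_lit 2360) (.e (nat_lit 303147) (nat_lit 15) (.e (nat_lit 1848) (nat_lit 124) (.e (nat_lit 557108) (nat_lit 15) (.e (nat_lit 188452) (nat_lit 23) (.e (nat_lit 204821) (nat_lit 17) (.e (nat_lit 6114) (nat_lit 332) (.e (nat_lit 1378) (nat_lit 104) .nil))))))) (.g (nat_lit 4) .nil .nil)))))) (.nd (nat_lit 3) (.nd (nat_lit 4) (.nd (nat_lit 5) 
(.lf (nat_lit 289796) (.g (nat_lit 2116) (.e (nat_lit 303143) (nat_lit 12) (.e (nat_lit 475212) (nat_lit 42) (.e (nat_lit 720952) (nat_lit 24) (.e (nat_lit 106534) (nat_lit 11) (.e (nat_lit 16425) (nat_lit 7) (.e (nat_lit 409643) (nat_lit 18) .nil)))))) (.g (nat_lit 5) .nil .nil))) 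
(.lf (nat_lit 289828) (.g (nat_lit 2594) (.e (nat_lit 303147) (nat_lit 15) (.e (nat_lit 1846) (nat_lit 124) (.e (nat_lit 557098) (nat_lit 13) (.e (nat_lit 172115) (nat_lit 10) (.e (nat_lit 434231) (nat_lit 23) (.e (nat_lit 532490) (nat_lit 0) (.e (nat_lit 6114) (nat_lit 332) (.e (nat_lit 1378) (nat_lit 104) .nil)))))))) (.g (nat_lit 4) .nil .nil)))) (.nd (nat_lit 5) 
(.lf (nat_lit 289812) (.g (nat_lit 603) (.e (nat_lit 303146) (nat_lit 14) (.e (nat_lit 491537) (nat_lit 2) (.e (nat_lit 90185) (nat_lit 17) .nil))) .nil)) 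
(.lf (nat_lit 289844) (.g (nat_lit 1609) (.e (nat_lit 303147) (nat_lit 15) (.e (nat_lit 1848) (nat_lit 124) (.e (nat_lit 557107) (nat_lit 15) (.e (nat_lit 188450) (nat_lit 23) (.e (nat_lit 204821) (nat_lit 17) .nil))))) .nil)))) (.nd (nat_lit 4) (.nd (nat_lit 5) 
(.lf (nat_lit 289804) (.g (nat_lit 1852) (.e (nat_lit 303145) (nat_lit 13) (.e (nat_lit 483363) (nat_lit 18) (.e (nat_lit 57688) (nat_lit 156) (.e (nat_lit 163928) (nat_lit 16) .nil)))) .nil)) 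
(.lf (nat_lit 289836) (.g (nat_lit 2683) (.e (nat_lit 303147) (nat_lit 15) (.e (nat_lit 1847) (nat_lit 124) (.e (nat_lit 557098) (nat_lit 13) (.e (nat_lit 172097) (nat_lit 9) (.e (nat_lit 426125) (nat_lit 2) (.e (nat_lit 196661) (nat_lit 12) (.e (nat_lit 57712) (nat_lit 176) (.e (nat_lit 1376) (nat_lit 104) .nil)))))))) (.g (nat_lit 5) .nil .nil)))) (.nd (nat_lit 5) 
(.lf (nat_lit 289820) (.g (nat_lit 1077) (.e (nat_lit 303146) (nat_lit 14) (.e (nat_lit 491560) (nat_lit 10) (.e (nat_lit 344156) (nat_lit 36) (.e (nat_lit 638998) (nat_lit 8) .nil)))) .nil)) 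
(.lf (nat_lit 289852) (.g (nat_lit 2387) (.e (nat_lit 303147) (nat_lit 15) (.e (nat_lit 1849) (nat_lit 124) (.e (nat_lit 557107) (nat_lit 15) (.e (nat_lit 188447) (nat_lit 22) (.e (nat_lit 196661) (nat_lit 12) (.e (nat_lit 57712) (nat_lit 176) (.e (nat_lit 1379) (nat_lit 104) .nil))))))) (.g (nat_lit 0) .nil .nil))))))) (.nd (nat_lit 2) (.nd (nat_lit 3) (.nd (nat_lit 4) (.nd (nat_lit 5) 
(.lf (nat_lit 289794) (.g (nat_lit 2116) (.e (nat_lit 303143) (nat_lit 12) (.e (nat_lit 475212) (nat_lit 42) (.e (nat_lit 720949) (nat_lit 24) (.e (nat_lit 106534) (nat_lit 11) (.e (nat_lit 16425) (nat_lit 7) (.e (nat_lit 409643) (nat_lit 18) .nil)))))) (.g (nat_lit 5) .nil .nil))) 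
(.lf (nat_lit 289826) (.g (nat_lit 3415) (.e (nat_lit 303147) (nat_lit 15) (.e (nat_lit 1788) (nat_lit 119) (.e (nat_lit 516151) (nat_lit 9) (.e (nat_lit 426042) (nat_lit 0) (.e (nat_lit 3307) (nat_lit 202) .nil))))) .nil))) (.nd (nat_lit 5) 
(.lf (nat_lit 289810) (.g (nat_lit 1987) (.e (nat_lit 303145) (nat_lit 13) (.e (nat_lit 483405) (nat_lit 26) (.e (nat_lit 385091) (nat_lit 49) (.e (nat_lit 778246) (nat_lit 0) (.e (nat_lit 1400) (nat_lit 106) (.e (nat_lit 327424) (nat_lit 8) .nil)))))) (.g (nat_lit 5) .nil .nil))) 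
(.lf (nat_lit 289842) (.g (nat_lit 3539) (.e (nat_lit 303147) (nat_lit 15) (.e (nat_lit 1848) (nat_lit 124) (.e (nat_lit 557097) (nat_lit 13) (.e (nat_lit 172115) (nat_lit 10) (.e (nat_lit 434231) (nat_lit 23) (.e (nat_lit 532490) (nat_lit 0) (.e (nat_lit 6114) (nat_lit 332) (.e (nat_lit 1378) (nat_lit 104) .nil)))))))) (.g (nat_lit 5) .nil .nil))))) (.nd (nat_lit 4) (.nd (nat_lit 5) 
(.lf (nat_lit 289802) (.g (nat_lit 1227) (.e (nat_lit 303143) (nat_lit 12) (.e (nat_lit 475214) (nat_lit 42) (.e (nat_lit 720952) (nat_lit 24) .nil))) .nil)) 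
(.lf (nat_lit 289834) (.g (nat_lit 3601) (.e (nat_lit 303147) (nat_lit 15) (.e (nat_lit 1846) (nat_lit 124) (.e (nat_lit 557109) (nat_lit 15) (.e (nat_lit 188449) (nat_lit 22) (.e (nat_lit 196661) (nat_lit 12) (.e (nat_lit 57712) (nat_lit 176) (.e (nat_lit 1378) (nat_lit 104) .nil))))))) (.g (nat_lit 4) .nil .nil)))) (.nd (nat_lit 5) 
(.lf (nat_lit 289818) (.g (nat_lit 979) (.e (nat_lit 303146) (nat_lit 14) (.e (nat_lit 491540) (nat_lit 3) (.e (nat_lit 98381) (nat_lit 31) (.e (nat_lit 466955) (nat_lit 20) .nil)))) .nil)) 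
(.lf (nat_lit 289850) (.g (nat_lit 2252) (.e (nat_lit 303147) (nat_lit 15) (.e (nat_lit 1849) (nat_lit 124) (.e (nat_lit 557097) (nat_lit 13) (.e (nat_lit 172097) (nat_lit 9) (.e (nat_lit 426140) (nat_lit 3) (.e (nat_lit 204821) (nat_lit 17) (.e (nat_lit 6092) (nat_lit 332) (.e (nat_lit 1376) (nat_lit 104) .nil)))))))) (.g (nat_lit 5) .nil .nil)))))) 
(.nd (nat_lit 3) (.nd (nat_lit 4) (.nd (nat_lit 5) 
(.lf (nat_lit 289798) (.g (nat_lit 601) (.e (nat_lit 303143) (nat_lit 12) (.e (nat_lit 475212) (nat_lit 42) (.e (nat_lit 720964) (nat_lit 29) .nil))) .nil)) 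
(.lf (nat_lit 289830) (.g (nat_lit 2216) (.e (nat_lit 303147) (nat_lit 15) (.e (nat_lit 1846) (nat_lit 124) (.e (nat_lit 557101) (nat_lit 13) (.e (nat_lit 172097) (nat_lit 9) (.e (nat_lit 426125) (nat_lit 2) (.e (nat_lit 196661) (nat_lit 12) (.e (nat_lit 57712) (nat_lit 176) (.e (nat_lit 1378) (nat_lit 104) .nil)))))))) (.g (nat_lit 4) .nil .nil)))) (.nd (nat_lit 5) 
(.lf (nat_lit 289814) (.g (nat_lit 1638) (.e (nat_lit 303146) (nat_lit 14) (.e (nat_lit 491540) (nat_lit 3) (.e (nat_lit 98373) (nat_lit 29) (.e (nat_lit 450570) (nat_lit 1) .nil)))) .nil)) 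
(.lf (nat_lit 289846) (.g (nat_lit 3045) (.e (nat_lit 303147) (nat_lit 15) (.e (nat_lit 1848) (nat_lit 124) (.e (nat_lit 557108) (nat_lit 15) (.e (nat_lit 188452) (nat_lit 23) (.e (nat_lit 204819) (nat_lit 17) (.e (nat_lit 6113) (nat_lit 332) (.e (nat_lit 1374) (nat_lit 104) .nil))))))) (.g (nat_lit 4) .nil .nil))))) (.nd (nat_lit 4) (.nd (nat_lit 5) 
(.lf (nat_lit 289806) (.g (nat_lit 1703) (.e (nat_lit 303145) (nat_lit 13) (.e (nat_lit 483394) (nat_lit 24) (.e (nat_lit 344160) (nat_lit 37) (.e (nat_lit 647203) (nat_lit 14) (.e (nat_lit 1332) (nat_lit 100) .nil))))) .nil)) 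
(.lf (nat_lit 289838) (.g (nat_lit 3935) (.e (nat_lit 303147) (nat_lit 15) (.e (nat_lit 1847) (nat_lit 124) (.e (nat_lit 557098) (nat_lit 13) (.e (nat_lit 172115) (nat_lit 10) (.e (nat_lit 434231) (nat_lit 23) (.e (nat_lit 532490) (nat_lit 0) (.e (nat_lit 6114) (nat_lit 332) (.e (nat_lit 1374) (nat_lit 104) .nil)))))))) (.g (nat_lit 6) .nil .nil)))) (.nd (nat_lit 5) 
(.lf (nat_lit 289822) (.g (nat_lit 2596) (.e (nat_lit 303146) (nat_lit 14) (.e (nat_lit 491560) (nat_lit 10) (.e (nat_lit 344160) (nat_lit 37) (.e (nat_lit 647199) (nat_lit 11) (.e (nat_lit 16425) (nat_lit 7) .nil))))) .nil)) 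
(.lf (nat_lit 289854) (.g (nat_lit 3892) (.e (nat_lit 303147) (nat_lit 15) (.e (nat_lit 1849) (nat_lit 124) (.e (nat_lit 557108) (nat_lit 15) (.e (nat_lit 188452) (nat_lit 23) (.e (nat_lit 204821) (nat_lit 17) (.e (nat_lit 6114) (nat_lit 332) (.e (nat_lit 1374) (nat_lit 104) .nil))))))) (.g (nat_lit 0) .nil .nil)))))))) 
(.nd (nat_lit 1) (.nd (nat_lit 2) (.nd (nat_lit 3) (.nd (nat_lit 4) (.nd (nat_lit 5) 
(.lf (nat_lit 289793) (.g (nat_lit 2926) (.e (nat_lit 303143) (nat_lit 12) (.e (nat_lit 475212) (nat_lit 42) (.e (nat_lit 720948) (nat_lit 24) (.e (nat_lit 106534) (nat_lit 11) (.e (nat_lit 16425) (nat_lit 7) (.e (nat_lit 409644) (nat_lit 18) .nil)))))) (.g (nat_lit 5) .nil .nil))) 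
(.lf (nat_lit 289825) (.g (nat_lit 3159) (.e (nat_lit 303147) (nat_lit 15) (.e (nat_lit 1781) (nat_lit 119) (.e (nat_lit 516150) (nat_lit 9) (.e (nat_lit 426131) (nat_lit 3) (.e (nat_lit 204838) (nat_lit 20) (.e (nat_lit 114716) (nat_lit 22) (.e (nat_lit 90196) (nat_lit 18) (.e (nat_lit 2798) (nat_lit 180) .nil)))))))) (.g (nat_lit 4) .nil .nil)))) (.nd (nat_lit 5) 
(.lf (nat_lit 289809) (.g (nat_lit 1691) (.e (nat_lit 303145) (nat_lit 13) (.e (nat_lit 483405) (nat_lit 26) (.e (nat_lit 385090) (nat_lit 49) (.e (nat_lit 778246) (nat_lit 0) (.e (nat_lit 1400) (nat_lit 106) (.e (nat_lit 327424) (nat_lit 8) .nil)))))) (.g (nat_lit 4) .nil .nil))) 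
(.lf (nat_lit 289841) (.g (nat_lit 1901) (.e (nat_lit 303147) (nat_lit 15) (.e (nat_lit 1847) (nat_lit 124) (.e (nat_lit 557101) (nat_lit 13) (.e (nat_lit 172097) (nat_lit 9) (.e (nat_lit 426140) (nat_lit 3) (.e (nat_lit 204821) (nat_lit 17) (.e (nat_lit 6114) (nat_lit 332) (.e (nat_lit 1378) (nat_lit 104) .nil)))))))) (.g (nat_lit 4) .nil .nil))))) (.nd (nat_lit 4) (.nd (nat_lit 5) 
(.lf (nat_lit 289801) (.g (nat_lit 1830) (.e (nat_lit 303143) (nat_lit 12) (.e (nat_lit 475214) (nat_lit 42) (.e (nat_lit 720950) (nat_lit 24) (.e (nat_lit 106534) (nat_lit 11) (.e (nat_lit 16425) (nat_lit 7) .nil))))) .nil)) 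
(.lf (nat_lit 289833) (.g (nat_lit 2940) (.e (nat_lit 303147) (nat_lit 15) (.e (nat_lit 1846) (nat_lit 124) (.e (nat_lit 557108) (nat_lit 15) (.e (nat_lit 188452) (nat_lit 23) (.e (nat_lit 204821) (nat_lit 17) (.e (nat_lit 6114) (nat_lit 332) (.e (nat_lit 1378) (nat_lit 104) .nil))))))) (.g (nat_lit 4) .nil .nil)))) (.nd (nat_lit 5) 
(.lf (nat_lit 289817) (.g (nat_lit 3152) (.e (nat_lit 303146) (nat_lit 14) (.e (nat_lit 491540) (nat_lit 3) (.e (nat_lit 98373) (nat_lit 29) (.e (nat_lit 450574) (nat_lit 1) (.e (nat_lit 499767) (nat_lit 0) (.e (nat_lit 2808) (nat_lit 180) .nil)))))) (.g (nat_lit 4) .nil .nil))) 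
(.lf (nat_lit 289849) (.g (nat_lit 3230) (.e (nat_lit 303147) (nat_lit 15) (.e (nat_lit 1849) (nat_lit 124) (.e (nat_lit 557097) (nat_lit 13) (.e (nat_lit 172097) (nat_lit 9) (.e (nat_lit 426125) (nat_lit 2) (.e (nat_lit 196661) (nat_lit 12) (.e (nat_lit 57712) (nat_lit 176) (.e (nat_lit 1379) (nat_lit 104) .nil)))))))) (.g (nat_lit 0) .nil .nil)))))) 
(.nd (nat_lit 3) (.nd (nat_lit 4) (.nd (nat_lit 5) 
(.lf (nat_lit 289797) (.g (nat_lit 684) (.e (nat_lit 303143) (nat_lit 12) (.e (nat_lit 475212) (nat_lit 42) (.e (nat_lit 720963) (nat_lit 29) .nil))) .nil)) 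
(.lf (nat_lit 289829) (.g (nat_lit 2103) (.e (nat_lit 303147) (nat_lit 15) (.e (nat_lit 1846) (nat_lit 124) (.e (nat_lit 557101) (nat_lit 13) (.e (nat_lit 172097) (nat_lit 9) (.e (nat_lit 426125) (nat_lit 2) (.e (nat_lit 196661) (nat_lit 12) (.e (nat_lit 57712) (nat_lit 176) (.e (nat_lit 1376) (nat_lit 104) .nil)))))))) (.g (nat_lit 4) .nil .nil)))) (.nd (nat_lit 5) 
(.lf (nat_lit 289813) (.g (nat_lit 2322) (.e (nat_lit 303146) (nat_lit 14) (.e (nat_lit 491540) (nat_lit 3) (.e (nat_lit 98370) (nat_lit 28) (.e (nat_lit 442412) (nat_lit 20) (.e (nat_lit 3205) (nat_lit 194) (.e (nat_lit 507946) (nat_lit 18) .nil)))))) (.g (nat_lit 4) .nil .nil))) 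
(.lf (nat_lit 289845) (.g (nat_lit 2592) (.e (nat_lit 303147) (nat_lit 15) (.e (nat_lit 1848) (nat_lit 124) (.e (nat_lit 557108) (nat_lit 15) (.e (nat_lit 188452) (nat_lit 23) (.e (nat_lit 204819) (nat_lit 17) .nil))))) .nil)))) (.nd (nat_lit 4) (.nd (nat_lit 5) 
(.lf (nat_lit 289805) (.g (nat_lit 1776) (.e (nat_lit 303145) (nat_lit 13) (.e (nat_lit 483394) (nat_lit 24) (.e (nat_lit 344160) (nat_lit 37) (.e (nat_lit 647203) (nat_lit 14) (.e (nat_lit 1326) (nat_lit 100) .nil))))) .nil)) 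
(.lf (nat_lit 289837) (.g (nat_lit 2287) (.e (nat_lit 303147) (nat_lit 15) (.e (nat_lit 1847) (nat_lit 124) (.e (nat_lit 557098) (nat_lit 13) (.e (nat_lit 172097) (nat_lit 9) (.e (nat_lit 426125) (nat_lit 2) (.e (nat_lit 196661) (nat_lit 12) (.e (nat_lit 57712) (nat_lit 176) (.e (nat_lit 1379) (nat_lit 104) .nil)))))))) (.g (nat_lit 4) .nil .nil)))) (.nd (nat_lit 5) 
(.lf (nat_lit 289821) (.g (nat_lit 1048) (.e (nat_lit 303146) (nat_lit 14) (.e (nat_lit 491560) (nat_lit 10) (.e (nat_lit 344159) (nat_lit 37) .nil))) .nil)) 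
(.lf (nat_lit 289853) (.g (nat_lit 2564) (.e (nat_lit 303147) (nat_lit 15) (.e (nat_lit 1849) (nat_lit 124) (.e (nat_lit 557108) (nat_lit 15) (.e (nat_lit 188449) (nat_lit 22) (.e (nat_lit 196661) (nat_lit 12) (.e (nat_lit 57712) (nat_lit 176) (.e (nat_lit 1379) (nat_lit 104) .nil))))))) (.g (nat_lit 0) .nil .nil))))))) (.nd (nat_lit 2) (.nd (nat_lit 3) (.nd (nat_lit 4) (.nd (nat_lit 5) 
(.lf (nat_lit 289795) (.g (nat_lit 2926) (.e (nat_lit 303143) (nat_lit 12) (.e (nat_lit 475212) (nat_lit 42) (.e (nat_lit 720951) (nat_lit 24) (.e (nat_lit 106534) (nat_lit 11) (.e (nat_lit 16425) (nat_lit 7) (.e (nat_lit 409647) (nat_lit 18) .nil)))))) (.g (nat_lit 5) .nil .nil))) 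
(.lf (nat_lit 289827) (.g (nat_lit 2524) (.e (nat_lit 303147) (nat_lit 15) (.e (nat_lit 1846) (nat_lit 124) (.e (nat_lit 557098) (nat_lit 13) (.e (nat_lit 172115) (nat_lit 10) (.e (nat_lit 434231) (nat_lit 23) (.e (nat_lit 532490) (nat_lit 0) (.e (nat_lit 6114) (nat_lit 332) (.e (nat_lit 1376) (nat_lit 104) .nil)))))))) (.g (nat_lit 4) .nil .nil)))) (.nd (nat_lit 5) 
(.lf (nat_lit 289811) (.g (nat_lit 1873) (.e (nat_lit 303145) (nat_lit 13) (.e (nat_lit 483405) (nat_lit 26) (.e (nat_lit 385100) (nat_lit 49) (.e (nat_lit 778240) (nat_lit 0) (.e (nat_lit 1400) (nat_lit 106) (.e (nat_lit 327424) (nat_lit 8) .nil)))))) (.g (nat_lit 5) .nil .nil))) 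
(.lf (nat_lit 289843) (.g (nat_lit 3059) (.e (nat_lit 303147) (nat_lit 15) (.e (nat_lit 1848) (nat_lit 124) (.e (nat_lit 557097) (nat_lit 13) (.e (nat_lit 172115) (nat_lit 10) (.e (nat_lit 434231) (nat_lit 23) (.e (nat_lit 532490) (nat_lit 0) (.e (nat_lit 6114) (nat_lit 332) (.e (nat_lit 1379) (nat_lit 104) .nil)))))))) (.g (nat_lit 4) .nil .nil))))) (.nd (nat_lit 4) (.nd (nat_lit 5) 
(.lf (nat_lit 289803) (.g (nat_lit 1232) (.e (nat_lit 303143) (nat_lit 12) (.e (nat_lit 475220) (nat_lit 44) (.e (nat_lit 737318) (nat_lit 15) (.e (nat_lit 49189) (nat_lit 11) (.e (nat_lit 16425) (nat_lit 7) (.e (nat_lit 417536) (nat_lit 18) .nil)))))) (.g (nat_lit 5) .nil .nil))) 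
(.lf (nat_lit 289835) (.g (nat_lit 2447) (.e (nat_lit 303147) (nat_lit 15) (.e (nat_lit 1847) (nat_lit 124) (.e (nat_lit 557097) (nat_lit 13) (.e (nat_lit 172115) (nat_lit 10) (.e (nat_lit 434231) (nat_lit 23) (.e (nat_lit 532490) (nat_lit 0) (.e (nat_lit 6114) (nat_lit 332) (.e (nat_lit 1378) (nat_lit 104) .nil)))))))) (.g (nat_lit 4) .nil .nil)))) (.nd (nat_lit 5) 
(.lf (nat_lit 289819) (.g (nat_lit 614) (.e (nat_lit 303146) (nat_lit 14) (.e (nat_lit 491558) (nat_lit 10) (.e (nat_lit 344156) (nat_lit 36) .nil))) .nil)) 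
(.lf (nat_lit 289851) (.g (nat_lit 2134) (.e (nat_lit 303147) (nat_lit 15) (.e (nat_lit 1849) (nat_lit 124) (.e (nat_lit 557098) (nat_lit 13) (.e (nat_lit 172097) (nat_lit 9) (.e (nat_lit 426125) (nat_lit 2) (.e (nat_lit 196661) (nat_lit 12) (.e (nat_lit 57712) (nat_lit 176) (.e (nat_lit 1374) (nat_lit 104) .nil)))))))) (.g (nat_lit 4) .nil .nil)))))) 
(.nd (nat_lit 3) (.nd (nat_lit 4) (.nd (nat_lit 5) 
(.lf (nat_lit 289799) (.g (nat_lit 1227) (.e (nat_lit 303143) (nat_lit 12) (.e (nat_lit 475214) (nat_lit 42) (.e (nat_lit 720947) (nat_lit 24) .nil))) .nil)) 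
(.lf (nat_lit 289831) (.g (nat_lit 2413) (.e (nat_lit 303147) (nat_lit 15) (.e (nat_lit 1846) (nat_lit 124) (.e (nat_lit 557101) (nat_lit 13) (.e (nat_lit 172097) (nat_lit 9) (.e (nat_lit 426140) (nat_lit 3) (.e (nat_lit 204821) (nat_lit 17) (.e (nat_lit 6114) (nat_lit 332) (.e (nat_lit 1376) (nat_lit 104) .nil)))))))) (.g (nat_lit 4) .nil .nil)))) (.nd (nat_lit 5) 
(.lf (nat_lit 289815) (.g (nat_lit 1677) (.e (nat_lit 303146) (nat_lit 14) (.e (nat_lit 491540) (nat_lit 3) (.e (nat_lit 98373) (nat_lit 29) (.e (nat_lit 450571) (nat_lit 1) .nil)))) .nil)) 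
(.lf (nat_lit 289847) (.g (nat_lit 2286) (.e (nat_lit 303147) (nat_lit 15) (.e (nat_lit 1848) (nat_lit 124) (.e (nat_lit 557108) (nat_lit 15) (.e (nat_lit 188452) (nat_lit 23) (.e (nat_lit 204821) (nat_lit 17) .nil))))) .nil)))) (.nd (nat_lit 4) (.nd (nat_lit 5) 
(.lf (nat_lit 289807) (.g (nat_lit 2556) (.e (nat_lit 303145) (nat_lit 13) (.e (nat_lit 483394) (nat_lit 24) (.e (nat_lit 344160) (nat_lit 37) (.e (nat_lit 647203) (nat_lit 14) (.e (nat_lit 1340) (nat_lit 101) (.e (nat_lit 278546) (nat_lit 8) .nil)))))) (.g (nat_lit 4) .nil .nil))) 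
(.lf (nat_lit 289839) (.g (nat_lit 4458) (.e (nat_lit 303147) (nat_lit 15) (.e (nat_lit 1847) (nat_lit 124) (.e (nat_lit 557098) (nat_lit 13) (.e (nat_lit 172115) (nat_lit 10) (.e (nat_lit 434231) (nat_lit 23) (.e (nat_lit 532490) (nat_lit 0) (.e (nat_lit 6114) (nat_lit 332) (.e (nat_lit 1378) (nat_lit 104) .nil)))))))) (.g (nat_lit 7) .nil .nil)))) (.nd (nat_lit 5) 
(.lf (nat_lit 289823) (.g (nat_lit 1043) (.e (nat_lit 303146) (nat_lit 14) (.e (nat_lit 491560) (nat_lit 10) (.e (nat_lit 344161) (nat_lit 37) .nil))) .nil)) 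
(.lf (nat_lit 289855) (.g (nat_lit 3610) (.e (nat_lit 303147) (nat_lit 15) (.e (nat_lit 1849) (nat_lit 124) (.e (nat_lit 557108) (nat_lit 15) (.e (nat_lit 188452) (nat_lit 23) (.e (nat_lit 204821) (nat_lit 17) (.e (nat_lit 6114) (nat_lit 332) (.e (nat_lit 1376) (nat_lit 104) .nil))))))) (.g (nat_lit 0) .nil .nil)))))))))

noncomputable def tv3665 : DT := (.nd (nat_lit 0) (.nd (nat_lit 1) (.nd (nat_lit 2) (.nd (nat_lit 3) (.nd (nat_lit 4) (.nd (nat_lit 5) 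
(.lf (nat_lit 289856) (.g (nat_lit 3537) (.e (nat_lit 303147) (nat_lit 15) (.e (nat_lit 1849) (nat_lit 124) (.e (nat_lit 557108) (nat_lit 15) (.e (nat_lit 188452) (nat_lit 23) (.e (nat_lit 204821) (nat_lit 17) (.e (nat_lit 6114) (nat_lit 332) (.e (nat_lit 1378) (nat_lit 104) .nil))))))) (.g (nat_lit 0) .nil .nil))) 
(.lf (nat_lit 289888) (.g (nat_lit 3092) (.e (nat_lit 303147) (nat_lit 15) (.e (nat_lit 1855) (nat_lit 124) (.e (nat_lit 557109) (nat_lit 15) (.e (nat_lit 188449) (nat_lit 22) (.e (nat_lit 196661) (nat_lit 12) .nil))))) .nil))) (.nd (nat_lit 5) 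
(.lf (nat_lit 289872) (.g (nat_lit 4017) (.e (nat_lit 303147) (nat_lit 15) (.e (nat_lit 1855) (nat_lit 124) (.e (nat_lit 557098) (nat_lit 13) (.e (nat_lit 172115) (nat_lit 10) (.e (nat_lit 434231) (nat_lit 23) (.e (nat_lit 532490) (nat_lit 0) (.e (nat_lit 6114) (nat_lit 332) (.e (nat_lit 1378) (nat_lit 104) .nil)))))))) (.g (nat_lit 6) .nil .nil))) 
(.lf (nat_lit 289904) (.g (nat_lit 3831) (.e (nat_lit 303147) (nat_lit 15) (.e (nat_lit 1858) (nat_lit 124) (.e (nat_lit 557107) (nat_lit 15) (.e (nat_lit 188450) (nat_lit 23) (.e (nat_lit 204819) (nat_lit 17) (.e (nat_lit 6113) (nat_lit 332) (.e (nat_lit 1376) (nat_lit 104) .nil))))))) (.g (nat_lit 4) .nil .nil))))) (.nd (nat_lit 4) (.nd (nat_lit 5) 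
(.lf (nat_lit 289864) (.g (nat_lit 4035) (.e (nat_lit 303147) (nat_lit 15) (.e (nat_lit 1849) (nat_lit 124) (.e (nat_lit 557109) (nat_lit 15) (.e (nat_lit 188452) (nat_lit 23) (.e (nat_lit 204821) (nat_lit 17) (.e (nat_lit 6114) (nat_lit 332) (.e (nat_lit 1379) (nat_lit 104) .nil))))))) (.g (nat_lit 6) .nil .nil))) 
(.lf (nat_lit 289896) (.g (nat_lit 3530) (.e (nat_lit 303147) (nat_lit 15) (.e (nat_lit 1855) (nat_lit 124) (.e (nat_lit 557109) (nat_lit 15) (.e (nat_lit 188452) (nat_lit 23) (.e (nat_lit 204821) (nat_lit 17) (.e (nat_lit 6114) (nat_lit 332) (.e (nat_lit 1378) (nat_lit 104) .nil))))))) (.g (nat_lit 4) .nil .nil)))) (.nd (nat_lit 5) 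
(.lf (nat_lit 289880) (.g (nat_lit 2837) (.e (nat_lit 303147) (nat_lit 15) (.e (nat_lit 1855) (nat_lit 124) (.e (nat_lit 557101) (nat_lit 13) (.e (nat_lit 172115) (nat_lit 10) (.e (nat_lit 434231) (nat_lit 23) (.e (nat_lit 532486) (nat_lit 0) (.e (nat_lit 6113) (nat_lit 332) (.e (nat_lit 1374) (nat_lit 104) .nil)))))))) (.g (nat_lit 4) .nil .nil))) 
(.lf (nat_lit 289912) (.g (nat_lit 4724) (.e (nat_lit 303147) (nat_lit 15) (.e (nat_lit 1858) (nat_lit 124) (.e (nat_lit 557109) (nat_lit 15) (.e (nat_lit 188452) (nat_lit 23) (.e (nat_lit 204819) (nat_lit 17) (.e (nat_lit 6113) (nat_lit 332) (.e (nat_lit 1376) (nat_lit 104) .nil))))))) (.g (nat_lit 4) .nil .nil)))))) (.nd (nat_lit 3) (.nd (nat_lit 4) (.nd (nat_lit 5) 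
(.lf (nat_lit 289860) (.g (nat_lit 4098) (.e (nat_lit 303147) (nat_lit 15) (.e (nat_lit 1849) (nat_lit 124) (.e (nat_lit 557109) (nat_lit 15) (.e (nat_lit 188452) (nat_lit 23) (.e (nat_lit 204819) (nat_lit 17) (.e (nat_lit 6113) (nat_lit 332) (.e (nat_lit 1376) (nat_lit 104) .nil))))))) (.g (nat_lit 5) .nil .nil))) 
(.lf (nat_lit 289892) (.g (nat_lit 4087) (.e (nat_lit 303147) (nat_lit 15) (.e (nat_lit 1855) (nat_lit 124) (.e (nat_lit 557109) (nat_lit 15) (.e (nat_lit 188452) (nat_lit 23) (.e (nat_lit 204819) (nat_lit 17) (.e (nat_lit 6113) (nat_lit 332) (.e (nat_lit 1374) (nat_lit 104) .nil))))))) (.g (nat_lit 4) .nil .nil)))) (.nd (nat_lit 5) 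
(.lf (nat_lit 289876) (.g (nat_lit 2584) (.e (nat_lit 303147) (nat_lit 15) (.e (nat_lit 1855) (nat_lit 124) (.e (nat_lit 557101) (nat_lit 13) (.e (nat_lit 172097) (nat_lit 9) (.e (nat_lit 426125) (nat_lit 2) (.e (nat_lit 196661) (nat_lit 12) (.e (nat_lit 57712) (nat_lit 176) (.e (nat_lit 1378) (nat_lit 104) .nil)))))))) (.g (nat_lit 4) .nil .nil))) 
(.lf (nat_lit 289908) (.g (nat_lit 4432) (.e (nat_lit 303147) (nat_lit 15) (.e (nat_lit 1858) (nat_lit 124) (.e (nat_lit 557109) (nat_lit 15) (.e (nat_lit 188449) (nat_lit 22) (.e (nat_lit 196661) (nat_lit 12) (.e (nat_lit 57712) (nat_lit 176) (.e (nat_lit 1376) (nat_lit 104) .nil))))))) (.g (nat_lit 4) .nil .nil))))) (.nd (nat_lit 4) (.nd (nat_lit 5) 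
(.lf (nat_lit 289868) (.g (nat_lit 2697) (.e (nat_lit 303147) (nat_lit 15) (.e (nat_lit 1855) (nat_lit 124) (.e (nat_lit 557098) (nat_lit 13) (.e (nat_lit 172097) (nat_lit 9) (.e (nat_lit 426125) (nat_lit 2) (.e (nat_lit 196661) (nat_lit 12) (.e (nat_lit 57712) (nat_lit 176) (.e (nat_lit 1379) (nat_lit 104) .nil)))))))) (.g (nat_lit 4) .nil .nil))) 
(.lf (nat_lit 289900) (.g (nat_lit 2600) (.e (nat_lit 303147) (nat_lit 15) (.e (nat_lit 1858) (nat_lit 124) (.e (nat_lit 557100) (nat_lit 13) (.e (nat_lit 172115) (nat_lit 10) .nil)))) .nil))) (.nd (nat_lit 5) 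
(.lf (nat_lit 289884) (.g (nat_lit 4099) (.e (nat_lit 303147) (nat_lit 15) (.e (nat_lit 1855) (nat_lit 124) (.e (nat_lit 557101) (nat_lit 13) (.e (nat_lit 172115) (nat_lit 10) (.e (nat_lit 434231) (nat_lit 23) (.e (nat_lit 532490) (nat_lit 0) (.e (nat_lit 6114) (nat_lit 332) (.e (nat_lit 1378) (nat_lit 104) .nil)))))))) (.g (nat_lit 6) .nil .nil))) 
(.lf (nat_lit 289916) (.g (nat_lit 3667) (.e (nat_lit 303147) (nat_lit 15) (.e (nat_lit 1858) (nat_lit 124) (.e (nat_lit 557109) (nat_lit 15) (.e (nat_lit 188452) (nat_lit 23) (.e (nat_lit 204849) (nat_lit 25) .nil))))) .nil)))))) (.nd (nat_lit 2) (.nd (nat_lit 3) (.nd (nat_lit 4) (.nd (nat_lit 5) 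
(.lf (nat_lit 289858) (.g (nat_lit 2660) (.e (nat_lit 303147) (nat_lit 15) (.e (nat_lit 1849) (nat_lit 124) (.e (nat_lit 557109) (nat_lit 15) (.e (nat_lit 188449) (nat_lit 22) (.e (nat_lit 196661) (nat_lit 12) (.e (nat_lit 57711) (nat_lit 176) (.e (nat_lit 1374) (nat_lit 104) .nil))))))) (.g (nat_lit 4) .nil .nil))) 
(.lf (nat_lit 289890) (.g (nat_lit 3224) (.e (nat_lit 303147) (nat_lit 15) (.e (nat_lit 1855) (nat_lit 124) (.e (nat_lit 557109) (nat_lit 15) (.e (nat_lit 188449) (nat_lit 22) (.e (nat_lit 196661) (nat_lit 12) (.e (nat_lit 57712) (nat_lit 176) (.e (nat_lit 1378) (nat_lit 104) .nil))))))) (.g (nat_lit 4) .nil .nil)))) (.nd (nat_lit 5) 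
(.lf (nat_lit 289874) (.g (nat_lit 2838) (.e (nat_lit 303147) (nat_lit 15) (.e (nat_lit 1855) (nat_lit 124) (.e (nat_lit 557101) (nat_lit 13) (.e (nat_lit 172097) (nat_lit 9) (.e (nat_lit 426125) (nat_lit 2) (.e (nat_lit 196661) (nat_lit 12) (.e (nat_lit 57712) (nat_lit 176) (.e (nat_lit 1374) (nat_lit 104) .nil)))))))) (.g (nat_lit 4) .nil .nil))) 
(.lf (nat_lit 289906) (.g (nat_lit 3865) (.e (nat_lit 303147) (nat_lit 15) (.e (nat_lit 1858) (nat_lit 124) (.e (nat_lit 557107) (nat_lit 15) (.e (nat_lit 188450) (nat_lit 23) (.e (nat_lit 204821) (nat_lit 17) (.e (nat_lit 6114) (nat_lit 332) (.e (nat_lit 1378) (nat_lit 104) .nil))))))) (.g (nat_lit 4) .nil .nil))))) (.nd (nat_lit 4) (.nd (nat_lit 5) 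
(.lf (nat_lit 289866) (.g (nat_lit 2563) (.e (nat_lit 303147) (nat_lit 15) (.e (nat_lit 1855) (nat_lit 124) (.e (nat_lit 557098) (nat_lit 13) (.e (nat_lit 172097) (nat_lit 9) (.e (nat_lit 426125) (nat_lit 2) (.e (nat_lit 196661) (nat_lit 12) (.e (nat_lit 57712) (nat_lit 176) (.e (nat_lit 1376) (nat_lit 104) .nil)))))))) (.g (nat_lit 4) .nil .nil))) 
(.lf (nat_lit 289898) (.g (nat_lit 2546) (.e (nat_lit 303147) (nat_lit 15) (.e (nat_lit 1855) (nat_lit 124) (.e (nat_lit 557109) (nat_lit 15) (.e (nat_lit 188458) (nat_lit 25) (.e (nat_lit 245784) (nat_lit 9) .nil))))) .nil))) (.nd (nat_lit 5) 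
(.lf (nat_lit 289882) (.g (nat_lit 4369) (.e (nat_lit 303147) (nat_lit 15) (.e (nat_lit 1855) (nat_lit 124) (.e (nat_lit 557101) (nat_lit 13) (.e (nat_lit 172115) (nat_lit 10) (.e (nat_lit 434231) (nat_lit 23) (.e (nat_lit 532490) (nat_lit 0) (.e (nat_lit 6114) (nat_lit 332) (.e (nat_lit 1374) (nat_lit 104) .nil)))))))) (.g (nat_lit 6) .nil .nil))) 
(.lf (nat_lit 289914) (.g (nat_lit 4779) (.e (nat_lit 303147) (nat_lit 15) (.e (nat_lit 1858) (nat_lit 124) (.e (nat_lit 557109) (nat_lit 15) (.e (nat_lit 188452) (nat_lit 23) (.e (nat_lit 204821) (nat_lit 17) (.e (nat_lit 6114) (nat_lit 332) (.e (nat_lit 1378) (nat_lit 104) .nil))))))) (.g (nat_lit 4) .nil .nil)))))) (.nd (nat_lit 3) (.nd (nat_lit 4) (.nd (nat_lit 5) 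
(.lf (nat_lit 289862) (.g (nat_lit 4271) (.e (nat_lit 303147) (nat_lit 15) (.e (nat_lit 1849) (nat_lit 124) (.e (nat_lit 557109) (nat_lit 15) (.e (nat_lit 188452) (nat_lit 23) (.e (nat_lit 204821) (nat_lit 17) (.e (nat_lit 6114) (nat_lit 332) (.e (nat_lit 1376) (nat_lit 104) .nil))))))) (.g (nat_lit 6) .nil .nil))) 
(.lf (nat_lit 289894) (.g (nat_lit 2816) (.e (nat_lit 303147) (nat_lit 15) (.e (nat_lit 1855) (nat_lit 124) (.e (nat_lit 557109) (nat_lit 15) (.e (nat_lit 188452) (nat_lit 23) (.e (nat_lit 204821) (nat_lit 17) .nil))))) .nil))) (.nd (nat_lit 5) 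
(.lf (nat_lit 289878) (.g (nat_lit 2616) (.e (nat_lit 303147) (nat_lit 15) (.e (nat_lit 1855) (nat_lit 124) (.e (nat_lit 557101) (nat_lit 13) (.e (nat_lit 172097) (nat_lit 9) (.e (nat_lit 426140) (nat_lit 3) (.e (nat_lit 204821) (nat_lit 17) (.e (nat_lit 6114) (nat_lit 332) (.e (nat_lit 1376) (nat_lit 104) .nil)))))))) (.g (nat_lit 4) .nil .nil))) 
(.lf (nat_lit 289910) (.g (nat_lit 4446) (.e (nat_lit 303147) (nat_lit 15) (.e (nat_lit 1858) (nat_lit 124) (.e (nat_lit 557109) (nat_lit 15) (.e (nat_lit 188449) (nat_lit 22) (.e (nat_lit 196661) (nat_lit 12) (.e (nat_lit 57712) (nat_lit 176) (.e (nat_lit 1379) (nat_lit 104) .nil))))))) (.g (nat_lit 4) .nil .nil))))) (.nd (nat_lit 4) (.nd (nat_lit 5) 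
(.lf (nat_lit 289870) (.g (nat_lit 2872) (.e (nat_lit 303147) (nat_lit 15) (.e (nat_lit 1855) (nat_lit 124) (.e (nat_lit 557098) (nat_lit 13) (.e (nat_lit 172097) (nat_lit 9) (.e (nat_lit 426140) (nat_lit 3) (.e (nat_lit 204821) (nat_lit 17) (.e (nat_lit 6114) (nat_lit 332) (.e (nat_lit 1379) (nat_lit 104) .nil)))))))) (.g (nat_lit 4) .nil .nil))) 
(.lf (nat_lit 289902) (.g (nat_lit 3742) (.e (nat_lit 303147) (nat_lit 15) (.e (nat_lit 1858) (nat_lit 124) (.e (nat_lit 557101) (nat_lit 13) (.e (nat_lit 172115) (nat_lit 10) (.e (nat_lit 434231) (nat_lit 23) (.e (nat_lit 532486) (nat_lit 0) (.e (nat_lit 6113) (nat_lit 332) (.e (nat_lit 1376) (nat_lit 104) .nil)))))))) (.g (nat_lit 6) .nil .nil)))) (.nd (nat_lit 5) 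
(.lf (nat_lit 289886) (.g (nat_lit 2321) (.e (nat_lit 303147) (nat_lit 15) (.e (nat_lit 1855) (nat_lit 124) (.e (nat_lit 557107) (nat_lit 15) (.e (nat_lit 188447) (nat_lit 22) (.e (nat_lit 196661) (nat_lit 12) .nil))))) .nil)) 
(.lf (nat_lit 289918) (.g (nat_lit 2925) (.e (nat_lit 303147) (nat_lit 15) (.e (nat_lit 1858) (nat_lit 124) (.e (nat_lit 557109) (nat_lit 15) (.e (nat_lit 188458) (nat_lit 25) (.e (nat_lit 245784) (nat_lit 9) (.e (nat_lit 1023) (nat_lit 81) (.e (nat_lit 6114) (nat_lit 332) (.e (nat_lit 1379) (nat_lit 104) .nil)))))))) (.g (nat_lit 4) .nil .nil)))))))) 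
(.nd (nat_lit 1) (.nd (nat_lit 2) (.nd (nat_lit 3) (.nd (nat_lit 4) (.nd (nat_lit 5) 
(.lf (nat_lit 289857) (.g (nat_lit 2673) (.e (nat_lit 303147) (nat_lit 15) (.e (nat_lit 1849) (nat_lit 124) (.e (nat_lit 557108) (nat_lit 15) (.e (nat_lit 188452) (nat_lit 23) (.e (nat_lit 204846) (nat_lit 24) (.e (nat_lit 327424) (nat_lit 18) .nil)))))) (.g (nat_lit 5) .nil .nil))) 
(.lf (nat_lit 289889) (.g (nat_lit 3481) (.e (nat_lit 303147) (nat_lit 15) (.e (nat_lit 1855) (nat_lit 124) (.e (nat_lit 557109) (nat_lit 15) (.e (nat_lit 188449) (nat_lit 22) (.e (nat_lit 196661) (nat_lit 12) (.e (nat_lit 57712) (nat_lit 176) (.e (nat_lit 1374) (nat_lit 104) .nil))))))) (.g (nat_lit 4) .nil .nil)))) (.nd (nat_lit 5) 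
(.lf (nat_lit 289873) (.g (nat_lit 3677) (.e (nat_lit 303147) (nat_lit 15) (.e (nat_lit 1855) (nat_lit 124) (.e (nat_lit 557098) (nat_lit 13) (.e (nat_lit 172115) (nat_lit 10) (.e (nat_lit 434231) (nat_lit 23) (.e (nat_lit 532490) (nat_lit 0) (.e (nat_lit 6114) (nat_lit 332) (.e (nat_lit 1379) (nat_lit 104) .nil)))))))) (.g (nat_lit 5) .nil .nil))) 
(.lf (nat_lit 289905) (.g (nat_lit 3866) (.e (nat_lit 303147) (nat_lit 15) (.e (nat_lit 1858) (nat_lit 124) (.e (nat_lit 557107) (nat_lit 15) (.e (nat_lit 188450) (nat_lit 23) (.e (nat_lit 204821) (nat_lit 17) (.e (nat_lit 6114) (nat_lit 332) (.e (nat_lit 1376) (nat_lit 104) .nil))))))) (.g (nat_lit 4) .nil .nil))))) (.nd (nat_lit 4) (.nd (nat_lit 5) 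
(.lf (nat_lit 289865) (.g (nat_lit 3134) (.e (nat_lit 303147) (nat_lit 15) (.e (nat_lit 1855) (nat_lit 124) (.e (nat_lit 557098) (nat_lit 13) (.e (nat_lit 172097) (nat_lit 9) (.e (nat_lit 426125) (nat_lit 2) (.e (nat_lit 196661) (nat_lit 12) (.e (nat_lit 57712) (nat_lit 176) (.e (nat_lit 1374) (nat_lit 104) .nil)))))))) (.g (nat_lit 4) .nil .nil))) 
(.lf (nat_lit 289897) (.g (nat_lit 3240) (.e (nat_lit 303147) (nat_lit 15) (.e (nat_lit 1855) (nat_lit 124) (.e (nat_lit 557109) (nat_lit 15) (.e (nat_lit 188452) (nat_lit 23) (.e (nat_lit 204821) (nat_lit 17) (.e (nat_lit 6114) (nat_lit 332) (.e (nat_lit 1379) (nat_lit 104) .nil))))))) (.g (nat_lit 4) .nil .nil)))) (.nd (nat_lit 5) 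
(.lf (nat_lit 289881) (.g (nat_lit 2149) (.e (nat_lit 303147) (nat_lit 15) (.e (nat_lit 1855) (nat_lit 124) (.e (nat_lit 557101) (nat_lit 13) (.e (nat_lit 172115) (nat_lit 10) (.e (nat_lit 434231) (nat_lit 23) (.e (nat_lit 532486) (nat_lit 0) (.e (nat_lit 6113) (nat_lit 332) (.e (nat_lit 1376) (nat_lit 104) .nil)))))))) (.g (nat_lit 4) .nil .nil))) 
(.lf (nat_lit 289913) (.g (nat_lit 4815) (.e (nat_lit 303147) (nat_lit 15) (.e (nat_lit 1858) (nat_lit 124) (.e (nat_lit 557109) (nat_lit 15) (.e (nat_lit 188452) (nat_lit 23) (.e (nat_lit 204821) (nat_lit 17) (.e (nat_lit 6114) (nat_lit 332) (.e (nat_lit 1376) (nat_lit 104) .nil))))))) (.g (nat_lit 4) .nil .nil)))))) (.nd (nat_lit 3) (.nd (nat_lit 4) (.nd (nat_lit 5) 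
(.lf (nat_lit 289861) (.g (nat_lit 2910) (.e (nat_lit 303147) (nat_lit 15) (.e (nat_lit 1849) (nat_lit 124) (.e (nat_lit 557109) (nat_lit 15) (.e (nat_lit 188452) (nat_lit 23) (.e (nat_lit 204821) (nat_lit 17) (.e (nat_lit 6092) (nat_lit 332) (.e (nat_lit 1376) (nat_lit 104) .nil))))))) (.g (nat_lit 4) .nil .nil))) 
(.lf (nat_lit 289893) (.g (nat_lit 3425) (.e (nat_lit 303147) (nat_lit 15) (.e (nat_lit 1855) (nat_lit 124) (.e (nat_lit 557109) (nat_lit 15) (.e (nat_lit 188452) (nat_lit 23) (.e (nat_lit 204819) (nat_lit 17) (.e (nat_lit 6113) (nat_lit 332) (.e (nat_lit 1376) (nat_lit 104) .nil))))))) (.g (nat_lit 4) .nil .nil)))) (.nd (nat_lit 5) 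
(.lf (nat_lit 289877) (.g (nat_lit 2401) (.e (nat_lit 303147) (nat_lit 15) (.e (nat_lit 1855) (nat_lit 124) (.e (nat_lit 557101) (nat_lit 13) (.e (nat_lit 172097) (nat_lit 9) (.e (nat_lit 426125) (nat_lit 2) (.e (nat_lit 196661) (nat_lit 12) (.e (nat_lit 57712) (nat_lit 176) (.e (nat_lit 1379) (nat_lit 104) .nil)))))))) (.g (nat_lit 4) .nil .nil))) 
(.lf (nat_lit 289909) (.g (nat_lit 4410) (.e (nat_lit 303147) (nat_lit 15) (.e (nat_lit 1858) (nat_lit 124) (.e (nat_lit 557109) (nat_lit 15) (.e (nat_lit 188449) (nat_lit 22) (.e (nat_lit 196661) (nat_lit 12) (.e (nat_lit 57712) (nat_lit 176) (.e (nat_lit 1378) (nat_lit 104) .nil))))))) (.g (nat_lit 4) .nil .nil))))) (.nd (nat_lit 4) (.nd (nat_lit 5) 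
(.lf (nat_lit 289869) (.g (nat_lit 2853) (.e (nat_lit 303147) (nat_lit 15) (.e (nat_lit 1855) (nat_lit 124) (.e (nat_lit 557098) (nat_lit 13) (.e (nat_lit 172097) (nat_lit 9) (.e (nat_lit 426140) (nat_lit 3) (.e (nat_lit 204821) (nat_lit 17) (.e (nat_lit 6114) (nat_lit 332) (.e (nat_lit 1376) (nat_lit 104) .nil)))))))) (.g (nat_lit 4) .nil .nil))) 
(.lf (nat_lit 289901) (.g (nat_lit 2976) (.e (nat_lit 303147) (nat_lit 15) (.e (nat_lit 1858) (nat_lit 124) (.e (nat_lit 557101) (nat_lit 13) (.e (nat_lit 172097) (nat_lit 9) (.e (nat_lit 426140) (nat_lit 3) (.e (nat_lit 204821) (nat_lit 17) (.e (nat_lit 6092) (nat_lit 332) (.e (nat_lit 1376) (nat_lit 104) .nil)))))))) (.g (nat_lit 5) .nil .nil)))) (.nd (nat_lit 5) 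
(.lf (nat_lit 289885) (.g (nat_lit 3759) (.e (nat_lit 303147) (nat_lit 15) (.e (nat_lit 1855) (nat_lit 124) (.e (nat_lit 557101) (nat_lit 13) (.e (nat_lit 172115) (nat_lit 10) (.e (nat_lit 434231) (nat_lit 23) (.e (nat_lit 532490) (nat_lit 0) (.e (nat_lit 6114) (nat_lit 332) (.e (nat_lit 1379) (nat_lit 104) .nil)))))))) (.g (nat_lit 6) .nil .nil))) 
(.lf (nat_lit 289917) (.g (nat_lit 3347) (.e (nat_lit 303147) (nat_lit 15) (.e (nat_lit 1858) (nat_lit 124) (.e (nat_lit 557109) (nat_lit 15) (.e (nat_lit 188458) (nat_lit 25) (.e (nat_lit 245784) (nat_lit 9) (.e (nat_lit 1023) (nat_lit 81) (.e (nat_lit 6114) (nat_lit 332) (.e (nat_lit 1374) (nat_lit 104) .nil)))))))) (.g (nat_lit 4) .nil .nil))))))) 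
(.nd (nat_lit 2) (.nd (nat_lit 3) (.nd (nat_lit 4) (.nd (nat_lit 5) 
(.lf (nat_lit 289859) (.g (nat_lit 3243) (.e (nat_lit 303147) (nat_lit 15) (.e (nat_lit 1849) (nat_lit 124) (.e (nat_lit 557109) (nat_lit 15) (.e (nat_lit 188449) (nat_lit 22) (.e (nat_lit 196661) (nat_lit 12) (.e (nat_lit 57712) (nat_lit 176) (.e (nat_lit 1379) (nat_lit 104) .nil))))))) (.g (nat_lit 5) .nil .nil))) 
(.lf (nat_lit 289891) (.g (nat_lit 3374) (.e (nat_lit 303147) (nat_lit 15) (.e (nat_lit 1855) (nat_lit 124) (.e (nat_lit 557109) (nat_lit 15) (.e (nat_lit 188450) (nat_lit 23) (.e (nat_lit 204819) (nat_lit 17) .nil))))) .nil))) (.nd (nat_lit 5) 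
(.lf (nat_lit 289875) (.g (nat_lit 2267) (.e (nat_lit 303147) (nat_lit 15) (.e (nat_lit 1855) (nat_lit 124) (.e (nat_lit 557101) (nat_lit 13) (.e (nat_lit 172097) (nat_lit 9) (.e (nat_lit 426125) (nat_lit 2) (.e (nat_lit 196661) (nat_lit 12) (.e (nat_lit 57712) (nat_lit 176) (.e (nat_lit 1376) (nat_lit 104) .nil)))))))) (.g (nat_lit 4) .nil .nil))) 
(.lf (nat_lit 289907) (.g (nat_lit 3749) (.e (nat_lit 303147) (nat_lit 15) (.e (nat_lit 1858) (nat_lit 124) (.e (nat_lit 557107) (nat_lit 15) (.e (nat_lit 188450) (nat_lit 23) (.e (nat_lit 204821) (nat_lit 17) (.e (nat_lit 6114) (nat_lit 332) (.e (nat_lit 1379) (nat_lit 104) .nil))))))) (.g (nat_lit 4) .nil .nil))))) (.nd (nat_lit 4) (.nd (nat_lit 5) 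
(.lf (nat_lit 289867) (.g (nat_lit 2880) (.e (nat_lit 303147) (nat_lit 15) (.e (nat_lit 1855) (nat_lit 124) (.e (nat_lit 557098) (nat_lit 13) (.e (nat_lit 172097) (nat_lit 9) (.e (nat_lit 426125) (nat_lit 2) (.e (nat_lit 196661) (nat_lit 12) (.e (nat_lit 57712) (nat_lit 176) (.e (nat_lit 1378) (nat_lit 104) .nil)))))))) (.g (nat_lit 4) .nil .nil))) 
(.lf (nat_lit 289899) (.g (nat_lit 3336) (.e (nat_lit 303147) (nat_lit 15) (.e (nat_lit 1858) (nat_lit 124) (.e (nat_lit 557100) (nat_lit 13) (.e (nat_lit 172106) (nat_lit 10) (.e (nat_lit 434231) (nat_lit 23) (.e (nat_lit 532490) (nat_lit 0) (.e (nat_lit 6092) (nat_lit 332) (.e (nat_lit 1374) (nat_lit 104) .nil)))))))) (.g (nat_lit 5) .nil .nil)))) (.nd (nat_lit 5) 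
(.lf (nat_lit 289883) (.g (nat_lit 3825) (.e (nat_lit 303147) (nat_lit 15) (.e (nat_lit 1855) (nat_lit 124) (.e (nat_lit 557101) (nat_lit 13) (.e (nat_lit 172115) (nat_lit 10) (.e (nat_lit 434231) (nat_lit 23) (.e (nat_lit 532490) (nat_lit 0) (.e (nat_lit 6114) (nat_lit 332) (.e (nat_lit 1376) (nat_lit 104) .nil)))))))) (.g (nat_lit 6) .nil .nil))) 
(.lf (nat_lit 289915) (.g (nat_lit 4698) (.e (nat_lit 303147) (nat_lit 15) (.e (nat_lit 1858) (nat_lit 124) (.e (nat_lit 557109) (nat_lit 15) (.e (nat_lit 188452) (nat_lit 23) (.e (nat_lit 204821) (nat_lit 17) (.e (nat_lit 6114) (nat_lit 332) (.e (nat_lit 1379) (nat_lit 104) .nil))))))) (.g (nat_lit 4) .nil .nil)))))) (.nd (nat_lit 3) (.nd (nat_lit 4) (.nd (nat_lit 5) 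
(.lf (nat_lit 289863) (.g (nat_lit 4207) (.e (nat_lit 303147) (nat_lit 15) (.e (nat_lit 1849) (nat_lit 124) (.e (nat_lit 557109) (nat_lit 15) (.e (nat_lit 188452) (nat_lit 23) (.e (nat_lit 204821) (nat_lit 17) (.e (nat_lit 6114) (nat_lit 332) (.e (nat_lit 1378) (nat_lit 104) .nil))))))) (.g (nat_lit 6) .nil .nil))) 
(.lf (nat_lit 289895) (.g (nat_lit 3222) (.e (nat_lit 303147) (nat_lit 15) (.e (nat_lit 1855) (nat_lit 124) (.e (nat_lit 557109) (nat_lit 15) (.e (nat_lit 188452) (nat_lit 23) (.e (nat_lit 204821) (nat_lit 17) (.e (nat_lit 6114) (nat_lit 332) (.e (nat_lit 1376) (nat_lit 104) .nil))))))) (.g (nat_lit 4) .nil .nil)))) (.nd (nat_lit 5) 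
(.lf (nat_lit 289879) (.g (nat_lit 2635) (.e (nat_lit 303147) (nat_lit 15) (.e (nat_lit 1855) (nat_lit 124) (.e (nat_lit 557101) (nat_lit 13) (.e (nat_lit 172097) (nat_lit 9) (.e (nat_lit 426140) (nat_lit 3) (.e (nat_lit 204821) (nat_lit 17) (.e (nat_lit 6114) (nat_lit 332) (.e (nat_lit 1379) (nat_lit 104) .nil)))))))) (.g (nat_lit 4) .nil .nil))) 
(.lf (nat_lit 289911) (.g (nat_lit 4515) (.e (nat_lit 303147) (nat_lit 15) (.e (nat_lit 1858) (nat_lit 124) (.e (nat_lit 557109) (nat_lit 15) (.e (nat_lit 188450) (nat_lit 23) (.e (nat_lit 204819) (nat_lit 17) (.e (nat_lit 6113) (nat_lit 332) (.e (nat_lit 1374) (nat_lit 104) .nil))))))) (.g (nat_lit 4) .nil .nil))))) (.nd (nat_lit 4) (.nd (nat_lit 5) 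
(.lf (nat_lit 289871) (.g (nat_lit 2741) (.e (nat_lit 303147) (nat_lit 15) (.e (nat_lit 1855) (nat_lit 124) (.e (nat_lit 557098) (nat_lit 13) (.e (nat_lit 172115) (nat_lit 10) (.e (nat_lit 434231) (nat_lit 23) (.e (nat_lit 532486) (nat_lit 0) (.e (nat_lit 6113) (nat_lit 332) (.e (nat_lit 1374) (nat_lit 104) .nil)))))))) (.g (nat_lit 4) .nil .nil))) 
(.lf (nat_lit 289903) (.g (nat_lit 4579) (.e (nat_lit 303147) (nat_lit 15) (.e (nat_lit 1858) (nat_lit 124) (.e (nat_lit 557107) (nat_lit 15) (.e (nat_lit 188450) (nat_lit 23) (.e (nat_lit 204819) (nat_lit 17) (.e (nat_lit 6113) (nat_lit 332) (.e (nat_lit 1374) (nat_lit 104) .nil))))))) (.g (nat_lit 5) .nil .nil)))) (.nd (nat_lit 5) 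
(.lf (nat_lit 289887) (.g (nat_lit 2169) (.e (nat_lit 303147) (nat_lit 15) (.e (nat_lit 1855) (nat_lit 124) (.e (nat_lit 557107) (nat_lit 15) (.e (nat_lit 188450) (nat_lit 23) (.e (nat_lit 204821) (nat_lit 17) .nil))))) .nil)) 
(.lf (nat_lit 289919) (.g (nat_lit 2835) (.e (nat_lit 303147) (nat_lit 15) (.e (nat_lit 1859) (nat_lit 124) (.e (nat_lit 557098) (nat_lit 13) (.e (nat_lit 172097) (nat_lit 9) (.e (nat_lit 426140) (nat_lit 3) (.e (nat_lit 204821) (nat_lit 17) (.e (nat_lit 6092) (nat_lit 332) (.e (nat_lit 1376) (nat_lit 104) .nil)))))))) (.g (nat_lit 5) .nil .nil)))))))))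

noncomputable def tv3666 : DT := (.nd (nat_lit 0) (.nd (nat_lit 1) (.nd (nat_lit 2) (.nd (nat_lit 3) (.nd (nat_lit 4) (.nd (nat_lit 5) 
(.lf (nat_lit 289920) (.g (nat_lit 4505) (.e (nat_lit 303147) (nat_lit 15) (.e (nat_lit 1859) (nat_lit 124) (.e (nat_lit 557098) (nat_lit 13) (.e (nat_lit 172097) (nat_lit 9) (.e (nat_lit 426140) (nat_lit 3) (.e (nat_lit 204821) (nat_lit 17) (.e (nat_lit 6114) (nat_lit 332) (.e (nat_lit 1374) (nat_lit 104) .nil)))))))) (.g (nat_lit 0) .nil .nil))) 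
(.lf (nat_lit 289952) (.g (nat_lit 3638) (.e (nat_lit 303147) (nat_lit 15) (.e (nat_lit 2030) (nat_lit 140) (.e (nat_lit 688177) (nat_lit 16) (.e (nat_lit 65586) (nat_lit 7) (.e (nat_lit 319531) (nat_lit 16) (.e (nat_lit 286727) (nat_lit 0) (.e (nat_lit 6114) (nat_lit 332) (.e (nat_lit 1376) (nat_lit 104) .nil)))))))) (.g (nat_lit 6) .nil .nil)))) (.nd (nat_lit 5) 
(.lf (nat_lit 289936) (.g (nat_lit 2276) (.e (nat_lit 303147) (nat_lit 15) (.e (nat_lit 1859) (nat_lit 124) (.e (nat_lit 557109) (nat_lit 15) (.e (nat_lit 188452) (nat_lit 23) (.e (nat_lit 204821) (nat_lit 17) (.e (nat_lit 6092) (nat_lit 332) (.e (nat_lit 1377) (nat_lit 104) .nil))))))) (.g (nat_lit 4) .nil .nil))) 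
(.lf (nat_lit 289968) (.g (nat_lit 1116) (.e (nat_lit 303147) (nat_lit 15) (.e (nat_lit 6136) (nat_lit 332) (.e (nat_lit 1368) (nat_lit 103) (.e (nat_lit 294960) (nat_lit 13) (.e (nat_lit 393260) (nat_lit 21) .nil))))) .nil)))) (.nd (nat_lit 4) (.nd (nat_lit 5) 
(.lf (nat_lit 289928) (.g (nat_lit 3269) (.e (nat_lit 303147) (nat_lit 15) (.e (nat_lit 1859) (nat_lit 124) (.e (nat_lit 557109) (nat_lit 15) (.e (nat_lit 188449) (nat_lit 22) (.e (nat_lit 196661) (nat_lit 12) (.e (nat_lit 57712) (nat_lit 176) (.e (nat_lit 1379) (nat_lit 104) .nil))))))) (.g (nat_lit 0) .nil .nil))) 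
(.lf (nat_lit 289960) (.g (nat_lit 2120) (.e (nat_lit 303147) (nat_lit 15) (.e (nat_lit 6114) (nat_lit 332) (.e (nat_lit 1370) (nat_lit 103) (.e (nat_lit 294941) (nat_lit 9) .nil)))) .nil))) (.nd (nat_lit 5) 
(.lf (nat_lit 289944) (.g (nat_lit 3769) (.e (nat_lit 303147) (nat_lit 15) (.e (nat_lit 2030) (nat_lit 140) (.e (nat_lit 688177) (nat_lit 16) (.e (nat_lit 65583) (nat_lit 7) (.e (nat_lit 319530) (nat_lit 16) (.e (nat_lit 286721) (nat_lit 0) (.e (nat_lit 6113) (nat_lit 332) (.e (nat_lit 1376) (nat_lit 104) .nil)))))))) (.g (nat_lit 5) .nil .nil))) 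
(.lf (nat_lit 289976) (.g (nat_lit 1265) (.e (nat_lit 303149) (nat_lit 15) (.e (nat_lit 6216) (nat_lit 333) (.e (nat_lit 57887) (nat_lit 270) (.e (nat_lit 1656) (nat_lit 115) (.e (nat_lit 393260) (nat_lit 21) .nil))))) .nil))))) (.nd (nat_lit 3) (.nd (nat_lit 4) (.nd (nat_lit 5) 
(.lf (nat_lit 289924) (.g (nat_lit 5604) (.e (nat_lit 303147) (nat_lit 15) (.e (nat_lit 1859) (nat_lit 124) (.e (nat_lit 557098) (nat_lit 13) (.e (nat_lit 172115) (nat_lit 10) (.e (nat_lit 434231) (nat_lit 23) (.e (nat_lit 532490) (nat_lit 0) (.e (nat_lit 6114) (nat_lit 332) (.e (nat_lit 1374) (nat_lit 104) .nil)))))))) (.g (nat_lit 0) .nil .nil))) 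
(.lf (nat_lit 289956) (.g (nat_lit 1979) (.e (nat_lit 303147) (nat_lit 15) (.e (nat_lit 6114) (nat_lit 332) (.e (nat_lit 1361) (nat_lit 102) (.e (nat_lit 286761) (nat_lit 13) (.e (nat_lit 393264) (nat_lit 22) .nil))))) .nil))) (.nd (nat_lit 5) 
(.lf (nat_lit 289940) (.g (nat_lit 3916) (.e (nat_lit 303147) (nat_lit 15) (.e (nat_lit 1859) (nat_lit 124) (.e (nat_lit 557109) (nat_lit 15) (.e (nat_lit 188452) (nat_lit 23) (.e (nat_lit 204846) (nat_lit 24) (.e (nat_lit 327424) (nat_lit 18) .nil)))))) (.g (nat_lit 5) .nil .nil))) 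
(.lf (nat_lit 289972) (.g (nat_lit 1797) (.e (nat_lit 303149) (nat_lit 15) (.e (nat_lit 6112) (nat_lit 332) (.e (nat_lit 1370) (nat_lit 103) (.e (nat_lit 294960) (nat_lit 13) (.e (nat_lit 393260) (nat_lit 21) (.e (nat_lit 417536) (nat_lit 18) .nil)))))) (.g (nat_lit 5) .nil .nil))))) (.nd (nat_lit 4) (.nd (nat_lit 5) 
(.lf (nat_lit 289932) (.g (nat_lit 3648) (.e (nat_lit 303147) (nat_lit 15) (.e (nat_lit 1859) (nat_lit 124) (.e (nat_lit 557109) (nat_lit 15) (.e (nat_lit 188450) (nat_lit 23) (.e (nat_lit 204821) (nat_lit 17) (.e (nat_lit 6114) (nat_lit 332) (.e (nat_lit 1379) (nat_lit 104) .nil))))))) (.g (nat_lit 5) .nil .nil))) 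
(.lf (nat_lit 289964) (.g (nat_lit 2939) (.e (nat_lit 303147) (nat_lit 15) (.e (nat_lit 6114) (nat_lit 332) (.e (nat_lit 1370) (nat_lit 103) (.e (nat_lit 294959) (nat_lit 13) .nil)))) .nil))) (.nd (nat_lit 5) 
(.lf (nat_lit 289948) (.g (nat_lit 4030) (.e (nat_lit 303147) (nat_lit 15) (.e (nat_lit 2030) (nat_lit 140) (.e (nat_lit 688177) (nat_lit 16) (.e (nat_lit 65583) (nat_lit 7) (.e (nat_lit 319530) (nat_lit 16) (.e (nat_lit 286727) (nat_lit 0) (.e (nat_lit 6114) (nat_lit 332) (.e (nat_lit 1376) (nat_lit 104) .nil)))))))) (.g (nat_lit 6) .nil .nil))) 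
(.lf (nat_lit 289980) (.g (nat_lit 1359) (.e (nat_lit 303150) (nat_lit 15) (.e (nat_lit 1800) (nat_lit 119) (.e (nat_lit 516150) (nat_lit 9) (.e (nat_lit 426323) (nat_lit 13) .nil)))) .nil)))))) (.nd (nat_lit 2) (.nd (nat_lit 3) (.nd (nat_lit 4) (.nd (nat_lit 5) 
(.lf (nat_lit 289922) (.g (nat_lit 3619) (.e (nat_lit 303147) (nat_lit 15) (.e (nat_lit 1859) (nat_lit 124) (.e (nat_lit 557098) (nat_lit 13) (.e (nat_lit 172115) (nat_lit 10) (.e (nat_lit 434231) (nat_lit 23) (.e (nat_lit 532486) (nat_lit 0) (.e (nat_lit 6113) (nat_lit 332) (.e (nat_lit 1376) (nat_lit 104) .nil)))))))) (.g (nat_lit 6) .nil .nil))) 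
(.lf (nat_lit 289954) (.g (nat_lit 2675) (.e (nat_lit 303147) (nat_lit 15) (.e (nat_lit 6092) (nat_lit 332) (.e (nat_lit 1370) (nat_lit 103) (.e (nat_lit 294960) (nat_lit 13) (.e (nat_lit 393238) (nat_lit 17) (.e (nat_lit 6989) (nat_lit 377) (.e (nat_lit 2810) (nat_lit 180) .nil))))))) (.g (nat_lit 6) .nil .nil)))) (.nd (nat_lit 5) 
(.lf (nat_lit 289938) (.g (nat_lit 4126) (.e (nat_lit 303147) (nat_lit 15) (.e (nat_lit 1859) (nat_lit 124) (.e (nat_lit 557109) (nat_lit 15) (.e (nat_lit 188452) (nat_lit 23) (.e (nat_lit 204821) (nat_lit 17) (.e (nat_lit 6114) (nat_lit 332) (.e (nat_lit 1378) (nat_lit 104) .nil))))))) (.g (nat_lit 0) .nil .nil))) 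
(.lf (nat_lit 289970) (.g (nat_lit 1726) (.e (nat_lit 303149) (nat_lit 15) (.e (nat_lit 6092) (nat_lit 332) (.e (nat_lit 1370) (nat_lit 103) (.e (nat_lit 294960) (nat_lit 13) (.e (nat_lit 393260) (nat_lit 21) (.e (nat_lit 417536) (nat_lit 18) .nil)))))) (.g (nat_lit 5) .nil .nil))))) (.nd (nat_lit 4) (.nd (nat_lit 5) 
(.lf (nat_lit 289930) (.g (nat_lit 3856) (.e (nat_lit 303147) (nat_lit 15) (.e (nat_lit 1859) (nat_lit 124) (.e (nat_lit 557109) (nat_lit 15) (.e (nat_lit 188450) (nat_lit 23) (.e (nat_lit 204821) (nat_lit 17) (.e (nat_lit 6114) (nat_lit 332) (.e (nat_lit 1376) (nat_lit 104) .nil))))))) (.g (nat_lit 5) .nil .nil))) 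
(.lf (nat_lit 289962) (.g (nat_lit 3279) (.e (nat_lit 303147) (nat_lit 15) (.e (nat_lit 6114) (nat_lit 332) (.e (nat_lit 1370) (nat_lit 103) (.e (nat_lit 294958) (nat_lit 13) .nil)))) .nil))) (.nd (nat_lit 5) 
(.lf (nat_lit 289946) (.g (nat_lit 3730) (.e (nat_lit 303147) (nat_lit 15) (.e (nat_lit 2030) (nat_lit 140) (.e (nat_lit 688177) (nat_lit 16) (.e (nat_lit 65583) (nat_lit 7) (.e (nat_lit 319530) (nat_lit 16) (.e (nat_lit 286727) (nat_lit 0) (.e (nat_lit 6092) (nat_lit 332) (.e (nat_lit 1376) (nat_lit 104) .nil)))))))) (.g (nat_lit 6) .nil .nil))) 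
(.lf (nat_lit 289978) (.g (nat_lit 3146) (.e (nat_lit 303149) (nat_lit 15) (.e (nat_lit 6217) (nat_lit 333) (.e (nat_lit 57890) (nat_lit 270) (.e (nat_lit 1661) (nat_lit 115) (.e (nat_lit 393260) (nat_lit 21) (.e (nat_lit 409648) (nat_lit 18) .nil)))))) (.g (nat_lit 0) .nil .nil)))))) (.nd (nat_lit 3) (.nd (nat_lit 4) (.nd (nat_lit 5) 
(.lf (nat_lit 289926) (.g (nat_lit 2966) (.e (nat_lit 303147) (nat_lit 15) (.e (nat_lit 1859) (nat_lit 124) (.e (nat_lit 557109) (nat_lit 15) (.e (nat_lit 188447) (nat_lit 22) (.e (nat_lit 196661) (nat_lit 12) (.e (nat_lit 57712) (nat_lit 176) (.e (nat_lit 1378) (nat_lit 104) .nil))))))) (.g (nat_lit 4) .nil .nil))) 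
(.lf (nat_lit 289958) (.g (nat_lit 3283) (.e (nat_lit 303147) (nat_lit 15) (.e (nat_lit 6114) (nat_lit 332) (.e (nat_lit 1370) (nat_lit 103) (.e (nat_lit 294939) (nat_lit 9) .nil)))) .nil))) (.nd (nat_lit 5) 
(.lf (nat_lit 289942) (.g (nat_lit 1286) (.e (nat_lit 303147) (nat_lit 15) (.e (nat_lit 2030) (nat_lit 140) (.e (nat_lit 688177) (nat_lit 16) (.e (nat_lit 65583) (nat_lit 7) .nil)))) .nil)) 
(.lf (nat_lit 289974) (.g (nat_lit 603) (.e (nat_lit 303149) (nat_lit 15) (.e (nat_lit 6207) (nat_lit 333) (.e (nat_lit 57897) (nat_lit 274) .nil))) .nil)))) (.nd (nat_lit 4) (.nd (nat_lit 5) 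
(.lf (nat_lit 289934) (.g (nat_lit 2421) (.e (nat_lit 303147) (nat_lit 15) (.e (nat_lit 1859) (nat_lit 124) (.e (nat_lit 557109) (nat_lit 15) (.e (nat_lit 188452) (nat_lit 23) (.e (nat_lit 204821) (nat_lit 17) (.e (nat_lit 6092) (nat_lit 332) (.e (nat_lit 1373) (nat_lit 104) .nil))))))) (.g (nat_lit 4) .nil .nil))) 
(.lf (nat_lit 289966) (.g (nat_lit 1525) (.e (nat_lit 303147) (nat_lit 15) (.e (nat_lit 6114) (nat_lit 332) (.e (nat_lit 1370) (nat_lit 103) (.e (nat_lit 294960) (nat_lit 13) (.e (nat_lit 393238) (nat_lit 17) .nil))))) .nil))) (.nd (nat_lit 5) 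
(.lf (nat_lit 289950) (.g (nat_lit 2677) (.e (nat_lit 303147) (nat_lit 15) (.e (nat_lit 2030) (nat_lit 140) (.e (nat_lit 688177) (nat_lit 16) (.e (nat_lit 65586) (nat_lit 7) (.e (nat_lit 319531) (nat_lit 16) (.e (nat_lit 286724) (nat_lit 0) (.e (nat_lit 6114) (nat_lit 332) (.e (nat_lit 1378) (nat_lit 104) .nil)))))))) (.g (nat_lit 4) .nil .nil))) 
(.lf (nat_lit 289982) (.g (nat_lit 1367) (.e (nat_lit 303150) (nat_lit 15) (.e (nat_lit 1800) (nat_lit 119) (.e (nat_lit 516171) (nat_lit 13) (.e (nat_lit 458789) (nat_lit 23) .nil)))) .nil))))))) (.nd (nat_lit 1) (.nd (nat_lit 2) (.nd (nat_lit 3) (.nd (nat_lit 4) (.nd (nat_lit 5) 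
(.lf (nat_lit 289921) (.g (nat_lit 4201) (.e (nat_lit 303147) (nat_lit 15) (.e (nat_lit 1859) (nat_lit 124) (.e (nat_lit 557098) (nat_lit 13) (.e (nat_lit 172097) (nat_lit 9) (.e (nat_lit 426140) (nat_lit 3) (.e (nat_lit 204821) (nat_lit 17) (.e (nat_lit 6114) (nat_lit 332) (.e (nat_lit 1376) (nat_lit 104) .nil)))))))) (.g (nat_lit 0) .nil .nil))) 
(.lf (nat_lit 289953) (.g (nat_lit 4663) (.e (nat_lit 303147) (nat_lit 15) (.e (nat_lit 2030) (nat_lit 140) (.e (nat_lit 688177) (nat_lit 16) (.e (nat_lit 65586) (nat_lit 7) (.e (nat_lit 319531) (nat_lit 16) (.e (nat_lit 286727) (nat_lit 0) (.e (nat_lit 6114) (nat_lit 332) (.e (nat_lit 1378) (nat_lit 104) .nil)))))))) (.g (nat_lit 7) .nil .nil)))) (.nd (nat_lit 5) 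
(.lf (nat_lit 289937) (.g (nat_lit 4180) (.e (nat_lit 303147) (nat_lit 15) (.e (nat_lit 1859) (nat_lit 124) (.e (nat_lit 557109) (nat_lit 15) (.e (nat_lit 188452) (nat_lit 23) (.e (nat_lit 204821) (nat_lit 17) (.e (nat_lit 6114) (nat_lit 332) (.e (nat_lit 1376) (nat_lit 104) .nil))))))) (.g (nat_lit 0) .nil .nil))) 
(.lf (nat_lit 289969) (.g (nat_lit 2443) (.e (nat_lit 303149) (nat_lit 15) (.e (nat_lit 6092) (nat_lit 332) (.e (nat_lit 1370) (nat_lit 103) (.e (nat_lit 294960) (nat_lit 13) (.e (nat_lit 393238) (nat_lit 17) (.e (nat_lit 6989) (nat_lit 377) (.e (nat_lit 2810) (nat_lit 180) .nil))))))) (.g (nat_lit 0) .nil .nil))))) (.nd (nat_lit 4) (.nd (nat_lit 5) 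
(.lf (nat_lit 289929) (.g (nat_lit 3644) (.e (nat_lit 303147) (nat_lit 15) (.e (nat_lit 1859) (nat_lit 124) (.e (nat_lit 557109) (nat_lit 15) (.e (nat_lit 188450) (nat_lit 23) (.e (nat_lit 204819) (nat_lit 17) (.e (nat_lit 6113) (nat_lit 332) (.e (nat_lit 1376) (nat_lit 104) .nil))))))) (.g (nat_lit 5) .nil .nil))) 
(.lf (nat_lit 289961) (.g (nat_lit 3283) (.e (nat_lit 303147) (nat_lit 15) (.e (nat_lit 6114) (nat_lit 332) (.e (nat_lit 1370) (nat_lit 103) (.e (nat_lit 294957) (nat_lit 13) .nil)))) .nil))) (.nd (nat_lit 5) 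
(.lf (nat_lit 289945) (.g (nat_lit 3670) (.e (nat_lit 303147) (nat_lit 15) (.e (nat_lit 2030) (nat_lit 140) (.e (nat_lit 688177) (nat_lit 16) (.e (nat_lit 65583) (nat_lit 7) (.e (nat_lit 319530) (nat_lit 16) (.e (nat_lit 286727) (nat_lit 0) (.e (nat_lit 6092) (nat_lit 332) (.e (nat_lit 1374) (nat_lit 104) .nil)))))))) (.g (nat_lit 6) .nil .nil))) 
(.lf (nat_lit 289977) (.g (nat_lit 3545) (.e (nat_lit 303149) (nat_lit 15) (.e (nat_lit 6216) (nat_lit 333) (.e (nat_lit 57891) (nat_lit 270) (.e (nat_lit 1661) (nat_lit 115) (.e (nat_lit 393260) (nat_lit 21) (.e (nat_lit 409648) (nat_lit 18) .nil)))))) (.g (nat_lit 0) .nil .nil)))))) (.nd (nat_lit 3) (.nd (nat_lit 4) (.nd (nat_lit 5) 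
(.lf (nat_lit 289925) (.g (nat_lit 3004) (.e (nat_lit 303147) (nat_lit 15) (.e (nat_lit 1859) (nat_lit 124) (.e (nat_lit 557109) (nat_lit 15) (.e (nat_lit 188447) (nat_lit 22) (.e (nat_lit 196661) (nat_lit 12) (.e (nat_lit 57712) (nat_lit 176) (.e (nat_lit 1376) (nat_lit 104) .nil))))))) (.g (nat_lit 4) .nil .nil))) 
(.lf (nat_lit 289957) (.g (nat_lit 3283) (.e (nat_lit 303147) (nat_lit 15) (.e (nat_lit 6114) (nat_lit 332) (.e (nat_lit 1370) (nat_lit 103) (.e (nat_lit 294938) (nat_lit 9) .nil)))) .nil))) (.nd (nat_lit 5) 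
(.lf (nat_lit 289941) (.g (nat_lit 2376) (.e (nat_lit 303147) (nat_lit 15) (.e (nat_lit 1859) (nat_lit 124) (.e (nat_lit 557109) (nat_lit 15) (.e (nat_lit 188458) (nat_lit 25) (.e (nat_lit 245784) (nat_lit 9) .nil))))) .nil)) 
(.lf (nat_lit 289973) (.g (nat_lit 628) (.e (nat_lit 303149) (nat_lit 15) (.e (nat_lit 6207) (nat_lit 333) (.e (nat_lit 57884) (nat_lit 270) .nil))) .nil)))) (.nd (nat_lit 4) (.nd (nat_lit 5) 
(.lf (nat_lit 289933) (.g (nat_lit 3821) (.e (nat_lit 303147) (nat_lit 15) (.e (nat_lit 1859) (nat_lit 124) (.e (nat_lit 557109) (nat_lit 15) (.e (nat_lit 188452) (nat_lit 23) (.e (nat_lit 204814) (nat_lit 17) (.e (nat_lit 6113) (nat_lit 332) (.e (nat_lit 1374) (nat_lit 104) .nil))))))) (.g (nat_lit 4) .nil .nil))) 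
(.lf (nat_lit 289965) (.g (nat_lit 1095) (.e (nat_lit 303147) (nat_lit 15) (.e (nat_lit 6114) (nat_lit 332) (.e (nat_lit 1370) (nat_lit 103) (.e (nat_lit 294960) (nat_lit 13) .nil)))) .nil))) (.nd (nat_lit 5) 
(.lf (nat_lit 289949) (.g (nat_lit 3236) (.e (nat_lit 303147) (nat_lit 15) (.e (nat_lit 2030) (nat_lit 140) (.e (nat_lit 688177) (nat_lit 16) (.e (nat_lit 65583) (nat_lit 7) (.e (nat_lit 319530) (nat_lit 16) (.e (nat_lit 286728) (nat_lit 0) (.e (nat_lit 6114) (nat_lit 332) (.e (nat_lit 1378) (nat_lit 104) .nil)))))))) (.g (nat_lit 5) .nil .nil))) 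
(.lf (nat_lit 289981) (.g (nat_lit 1496) (.e (nat_lit 303150) (nat_lit 15) (.e (nat_lit 1800) (nat_lit 119) (.e (nat_lit 516169) (nat_lit 13) (.e (nat_lit 458789) (nat_lit 23) .nil)))) .nil)))))) (.nd (nat_lit 2) (.nd (nat_lit 3) (.nd (nat_lit 4) (.nd (nat_lit 5) 
(.lf (nat_lit 289923) (.g (nat_lit 3061) (.e (nat_lit 303147) (nat_lit 15) (.e (nat_lit 1859) (nat_lit 124) (.e (nat_lit 557098) (nat_lit 13) (.e (nat_lit 172115) (nat_lit 10) (.e (nat_lit 434231) (nat_lit 23) (.e (nat_lit 532490) (nat_lit 0) (.e (nat_lit 6092) (nat_lit 332) (.e (nat_lit 1374) (nat_lit 104) .nil)))))))) (.g (nat_lit 5) .nil .nil))) 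
(.lf (nat_lit 289955) (.g (nat_lit 1053) (.e (nat_lit 303147) (nat_lit 15) (.e (nat_lit 6114) (nat_lit 332) (.e (nat_lit 1361) (nat_lit 102) (.e (nat_lit 286761) (nat_lit 13) .nil)))) .nil))) (.nd (nat_lit 5) 
(.lf (nat_lit 289939) (.g (nat_lit 3974) (.e (nat_lit 303147) (nat_lit 15) (.e (nat_lit 1859) (nat_lit 124) (.e (nat_lit 557109) (nat_lit 15) (.e (nat_lit 188452) (nat_lit 23) (.e (nat_lit 204821) (nat_lit 17) (.e (nat_lit 6114) (nat_lit 332) (.e (nat_lit 1379) (nat_lit 104) .nil))))))) (.g (nat_lit 0) .nil .nil))) 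
(.lf (nat_lit 289971) (.g (nat_lit 2531) (.e (nat_lit 303149) (nat_lit 15) (.e (nat_lit 6112) (nat_lit 332) (.e (nat_lit 1370) (nat_lit 103) (.e (nat_lit 294960) (nat_lit 13) (.e (nat_lit 393238) (nat_lit 17) (.e (nat_lit 6989) (nat_lit 377) (.e (nat_lit 2810) (nat_lit 180) .nil))))))) (.g (nat_lit 0) .nil .nil))))) (.nd (nat_lit 4) (.nd (nat_lit 5) 
(.lf (nat_lit 289931) (.g (nat_lit 3806) (.e (nat_lit 303147) (nat_lit 15) (.e (nat_lit 1859) (nat_lit 124) (.e (nat_lit 557109) (nat_lit 15) (.e (nat_lit 188450) (nat_lit 23) (.e (nat_lit 204821) (nat_lit 17) (.e (nat_lit 6114) (nat_lit 332) (.e (nat_lit 1378) (nat_lit 104) .nil))))))) (.g (nat_lit 5) .nil .nil))) 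
(.lf (nat_lit 289963) (.g (nat_lit 3753) (.e (nat_lit 303147) (nat_lit 15) (.e (nat_lit 6114) (nat_lit 332) (.e (nat_lit 1370) (nat_lit 103) (.e (nat_lit 294958) (nat_lit 13) (.e (nat_lit 393260) (nat_lit 21) .nil))))) .nil))) (.nd (nat_lit 5) 
(.lf (nat_lit 289947) (.g (nat_lit 3738) (.e (nat_lit 303147) (nat_lit 15) (.e (nat_lit 2030) (nat_lit 140) (.e (nat_lit 688177) (nat_lit 16) (.e (nat_lit 65583) (nat_lit 7) (.e (nat_lit 319530) (nat_lit 16) (.e (nat_lit 286727) (nat_lit 0) (.e (nat_lit 6092) (nat_lit 332) (.e (nat_lit 1378) (nat_lit 104) .nil)))))))) (.g (nat_lit 6) .nil .nil))) 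
(.lf (nat_lit 289979) (.g (nat_lit 3234) (.e (nat_lit 303149) (nat_lit 15) (.e (nat_lit 6217) (nat_lit 333) (.e (nat_lit 57890) (nat_lit 270) (.e (nat_lit 1661) (nat_lit 115) (.e (nat_lit 393260) (nat_lit 21) (.e (nat_lit 409649) (nat_lit 18) .nil)))))) (.g (nat_lit 0) .nil .nil)))))) (.nd (nat_lit 3) (.nd (nat_lit 4) (.nd (nat_lit 5) 
(.lf (nat_lit 289927) (.g (nat_lit 2935) (.e (nat_lit 303147) (nat_lit 15) (.e (nat_lit 1859) (nat_lit 124) (.e (nat_lit 557109) (nat_lit 15) (.e (nat_lit 188447) (nat_lit 22) (.e (nat_lit 196661) (nat_lit 12) (.e (nat_lit 57712) (nat_lit 176) (.e (nat_lit 1379) (nat_lit 104) .nil))))))) (.g (nat_lit 4) .nil .nil))) 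
(.lf (nat_lit 289959) (.g (nat_lit 3276) (.e (nat_lit 303147) (nat_lit 15) (.e (nat_lit 6114) (nat_lit 332) (.e (nat_lit 1370) (nat_lit 103) (.e (nat_lit 294940) (nat_lit 9) .nil)))) .nil))) (.nd (nat_lit 5) 
(.lf (nat_lit 289943) (.g (nat_lit 3793) (.e (nat_lit 303147) (nat_lit 15) (.e (nat_lit 2030) (nat_lit 140) (.e (nat_lit 688177) (nat_lit 16) (.e (nat_lit 65583) (nat_lit 7) (.e (nat_lit 319530) (nat_lit 16) (.e (nat_lit 286721) (nat_lit 0) (.e (nat_lit 6113) (nat_lit 332) (.e (nat_lit 1374) (nat_lit 104) .nil)))))))) (.g (nat_lit 5) .nil .nil))) 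
(.lf (nat_lit 289975) (.g (nat_lit 951) (.e (nat_lit 303149) (nat_lit 15) (.e (nat_lit 6209) (nat_lit 333) (.e (nat_lit 57884) (nat_lit 270) (.e (nat_lit 1656) (nat_lit 115) .nil)))) .nil)))) (.nd (nat_lit 4) (.nd (nat_lit 5) 
(.lf (nat_lit 289935) (.g (nat_lit 2817) (.e (nat_lit 303147) (nat_lit 15) (.e (nat_lit 1859) (nat_lit 124) (.e (nat_lit 557109) (nat_lit 15) (.e (nat_lit 188452) (nat_lit 23) (.e (nat_lit 204821) (nat_lit 17) (.e (nat_lit 6092) (nat_lit 332) (.e (nat_lit 1376) (nat_lit 104) .nil))))))) (.g (nat_lit 5) .nil .nil))) 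
(.lf (nat_lit 289967) (.g (nat_lit 2574) (.e (nat_lit 303147) (nat_lit 15) (.e (nat_lit 6114) (nat_lit 332) (.e (nat_lit 1370) (nat_lit 103) (.e (nat_lit 294960) (nat_lit 13) (.e (nat_lit 393260) (nat_lit 21) (.e (nat_lit 417536) (nat_lit 18) .nil)))))) (.g (nat_lit 5) .nil .nil)))) (.nd (nat_lit 5) 
(.lf (nat_lit 289951) (.g (nat_lit 3438) (.e (nat_lit 303147) (nat_lit 15) (.e (nat_lit 2030) (nat_lit 140) (.e (nat_lit 688177) (nat_lit 16) (.e (nat_lit 65586) (nat_lit 7) (.e (nat_lit 319531) (nat_lit 16) (.e (nat_lit 286727) (nat_lit 0) (.e (nat_lit 6092) (nat_lit 332) (.e (nat_lit 1376) (nat_lit 104) .nil)))))))) (.g (nat_lit 6) .nil .nil))) 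
(.lf (nat_lit 289983) (.g (nat_lit 1512) (.e (nat_lit 303150) (nat_lit 15) (.e (nat_lit 1800) (nat_lit 119) (.e (nat_lit 516174) (nat_lit 14) (.e (nat_lit 466954) (nat_lit 11) .nil)))) .nil))))))))

noncomputable def tv3667 : DT := (.nd (nat_lit 0) (.nd (nat_lit 1) (.nd (nat_lit 2) (.nd (nat_lit 3) (.nd (nat_lit 4) (.nd (nat_lit 5) 
(.lf (nat_lit 289984) (.g (nat_lit 1264) (.e (nat_lit 303150) (nat_lit 15) (.e (nat_lit 1800) (nat_lit 119) (.e (nat_lit 516176) (nat_lit 14) (.e (nat_lit 466954) (nat_lit 11) .nil)))) .nil)) 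
(.lf (nat_lit 290016) (.g (nat_lit 1190) (.e (nat_lit 311040) (nat_lit 17) (.e (nat_lit 90176) (nat_lit 15) (.e (nat_lit 188431) (nat_lit 20) (.e (nat_lit 3571) (nat_lit 222) (.e (nat_lit 737296) (nat_lit 5) .nil))))) .nil))) (.nd (nat_lit 5) 
(.lf (nat_lit 290000) (.g (nat_lit 1226) (.e (nat_lit 311040) (nat_lit 17) (.e (nat_lit 90168) (nat_lit 13) (.e (nat_lit 172123) (nat_lit 13) (.e (nat_lit 483333) (nat_lit 0) (.e (nat_lit 6972) (nat_lit 377) .nil))))) .nil)) 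
(.lf (nat_lit 290032) (.g (nat_lit 1103) (.e (nat_lit 311040) (nat_lit 18) (.e (nat_lit 98358) (nat_lit 26) (.e (nat_lit 426323) (nat_lit 13) (.e (nat_lit 483333) (nat_lit 0) .nil)))) .nil)))) (.nd (nat_lit 4) (.nd (nat_lit 5) 
(.lf (nat_lit 289992) (.g (nat_lit 1302) (.e (nat_lit 311040) (nat_lit 15) (.e (nat_lit 6113) (nat_lit 332) (.e (nat_lit 1361) (nat_lit 102) (.e (nat_lit 286761) (nat_lit 13) (.e (nat_lit 393259) (nat_lit 21) .nil))))) .nil)) 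
(.lf (nat_lit 290024) (.g (nat_lit 735) (.e (nat_lit 311040) (nat_lit 17) (.e (nat_lit 90185) (nat_lit 17) (.e (nat_lit 237621) (nat_lit 13) (.e (nat_lit 483333) (nat_lit 0) .nil)))) .nil))) (.nd (nat_lit 5) 
(.lf (nat_lit 290008) (.g (nat_lit 551) (.e (nat_lit 311040) (nat_lit 17) (.e (nat_lit 90172) (nat_lit 14) (.e (nat_lit 188160) (nat_lit 34) .nil))) .nil)) 
(.lf (nat_lit 290040) (.g (nat_lit 999) (.e (nat_lit 311040) (nat_lit 18) (.e (nat_lit 98359) (nat_lit 26) (.e (nat_lit 426324) (nat_lit 13) (.e (nat_lit 491264) (nat_lit 7) .nil)))) .nil))))) (.nd (nat_lit 3) (.nd (nat_lit 4) (.nd (nat_lit 5) 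
(.lf (nat_lit 289988) (.g (nat_lit 2081) (.e (nat_lit 303150) (nat_lit 15) (.e (nat_lit 1856) (nat_lit 124) (.e (nat_lit 557101) (nat_lit 13) (.e (nat_lit 172097) (nat_lit 9) (.e (nat_lit 426125) (nat_lit 2) (.e (nat_lit 196661) (nat_lit 12) (.e (nat_lit 57712) (nat_lit 176) (.e (nat_lit 1378) (nat_lit 104) .nil)))))))) (.g (nat_lit 4) .nil .nil))) 
(.lf (nat_lit 290020) (.g (nat_lit 1159) (.e (nat_lit 311040) (nat_lit 17) (.e (nat_lit 90178) (nat_lit 15) (.e (nat_lit 188421) (nat_lit 11) (.e (nat_lit 343808) (nat_lit 25) .nil)))) .nil))) (.nd (nat_lit 5) 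
(.lf (nat_lit 290004) (.g (nat_lit 528) (.e (nat_lit 311040) (nat_lit 17) (.e (nat_lit 90170) (nat_lit 13) (.e (nat_lit 172121) (nat_lit 13) .nil))) .nil)) 
(.lf (nat_lit 290036) (.g (nat_lit 2096) (.e (nat_lit 311040) (nat_lit 18) (.e (nat_lit 98359) (nat_lit 26) (.e (nat_lit 426132) (nat_lit 3) (.e (nat_lit 204838) (nat_lit 20) (.e (nat_lit 114702) (nat_lit 20) .nil))))) .nil)))) (.nd (nat_lit 4) (.nd (nat_lit 5) 
(.lf (nat_lit 289996) (.g (nat_lit 2272) (.e (nat_lit 311040) (nat_lit 15) (.e (nat_lit 6114) (nat_lit 332) (.e (nat_lit 1370) (nat_lit 103) (.e (nat_lit 294941) (nat_lit 9) .nil)))) .nil)) 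
(.lf (nat_lit 290028) (.g (nat_lit 1308) (.e (nat_lit 311040) (nat_lit 17) (.e (nat_lit 90185) (nat_lit 17) (.e (nat_lit 237624) (nat_lit 13) (.e (nat_lit 483333) (nat_lit 0) (.e (nat_lit 6972) (nat_lit 377) .nil))))) .nil))) (.nd (nat_lit 5) 
(.lf (nat_lit 290012) (.g (nat_lit 478) (.e (nat_lit 311040) (nat_lit 17) (.e (nat_lit 90176) (nat_lit 15) (.e (nat_lit 196352) (nat_lit 11) .nil))) .nil)) 
(.lf (nat_lit 290044) (.g (nat_lit 725) (.e (nat_lit 311040) (nat_lit 18) (.e (nat_lit 98359) (nat_lit 26) (.e (nat_lit 426331) (nat_lit 13) .nil))) .nil)))))) (.nd (nat_lit 2) (.nd (nat_lit 3) (.nd (nat_lit 4) (.nd (nat_lit 5) 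
(.lf (nat_lit 289986) (.g (nat_lit 2997) (.e (nat_lit 303150) (nat_lit 15) (.e (nat_lit 1856) (nat_lit 124) (.e (nat_lit 557100) (nat_lit 13) (.e (nat_lit 172106) (nat_lit 10) (.e (nat_lit 434231) (nat_lit 23) (.e (nat_lit 532490) (nat_lit 0) (.e (nat_lit 6114) (nat_lit 332) (.e (nat_lit 1378) (nat_lit 104) .nil)))))))) (.g (nat_lit 5) .nil .nil))) 
(.lf (nat_lit 290018) (.g (nat_lit 1823) (.e (nat_lit 311040) (nat_lit 17) (.e (nat_lit 90178) (nat_lit 15) (.e (nat_lit 188421) (nat_lit 11) (.e (nat_lit 336288) (nat_lit 15) (.e (nat_lit 6972) (nat_lit 377) .nil))))) .nil))) (.nd (nat_lit 5) 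
(.lf (nat_lit 290002) (.g (nat_lit 2173) (.e (nat_lit 311040) (nat_lit 17) (.e (nat_lit 90170) (nat_lit 13) (.e (nat_lit 172067) (nat_lit 3) (.e (nat_lit 204838) (nat_lit 20) (.e (nat_lit 114716) (nat_lit 22) .nil))))) .nil)) 
(.lf (nat_lit 290034) (.g (nat_lit 968) (.e (nat_lit 311040) (nat_lit 18) (.e (nat_lit 98358) (nat_lit 26) (.e (nat_lit 426323) (nat_lit 13) (.e (nat_lit 491264) (nat_lit 7) .nil)))) .nil)))) (.nd (nat_lit 4) (.nd (nat_lit 5) 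
(.lf (nat_lit 289994) (.g (nat_lit 1012) (.e (nat_lit 311040) (nat_lit 15) (.e (nat_lit 6113) (nat_lit 332) (.e (nat_lit 1370) (nat_lit 103) (.e (nat_lit 294960) (nat_lit 13) .nil)))) .nil)) 
(.lf (nat_lit 290026) (.g (nat_lit 954) (.e (nat_lit 311040) (nat_lit 17) (.e (nat_lit 90185) (nat_lit 17) (.e (nat_lit 237623) (nat_lit 13) (.e (nat_lit 491264) (nat_lit 7) .nil)))) .nil))) (.nd (nat_lit 5) 
(.lf (nat_lit 290010) (.g (nat_lit 1280) (.e (nat_lit 311040) (nat_lit 17) (.e (nat_lit 90176) (nat_lit 15) (.e (nat_lit 188423) (nat_lit 11) (.e (nat_lit 336288) (nat_lit 15) (.e (nat_lit 6972) (nat_lit 377) .nil))))) .nil)) 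
(.lf (nat_lit 290042) (.g (nat_lit 722) (.e (nat_lit 311040) (nat_lit 18) (.e (nat_lit 98359) (nat_lit 26) (.e (nat_lit 426329) (nat_lit 13) .nil))) .nil))))) (.nd (nat_lit 3) (.nd (nat_lit 4) (.nd (nat_lit 5) 
(.lf (nat_lit 289990) (.g (nat_lit 2412) (.e (nat_lit 311040) (nat_lit 15) (.e (nat_lit 1853) (nat_lit 124) (.e (nat_lit 557108) (nat_lit 15) (.e (nat_lit 188452) (nat_lit 23) (.e (nat_lit 204821) (nat_lit 17) .nil))))) .nil)) 
(.lf (nat_lit 290022) (.g (nat_lit 539) (.e (nat_lit 311040) (nat_lit 17) (.e (nat_lit 90185) (nat_lit 17) (.e (nat_lit 237605) (nat_lit 9) .nil))) .nil))) (.nd (nat_lit 5) 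
(.lf (nat_lit 290006) (.g (nat_lit 1646) (.e (nat_lit 311040) (nat_lit 17) (.e (nat_lit 90170) (nat_lit 13) (.e (nat_lit 172123) (nat_lit 13) (.e (nat_lit 483333) (nat_lit 0) (.e (nat_lit 6972) (nat_lit 377) .nil))))) .nil)) 
(.lf (nat_lit 290038) (.g (nat_lit 1729) (.e (nat_lit 311040) (nat_lit 18) (.e (nat_lit 98359) (nat_lit 26) (.e (nat_lit 426324) (nat_lit 13) (.e (nat_lit 483333) (nat_lit 0) (.e (nat_lit 6975) (nat_lit 377) .nil))))) .nil)))) (.nd (nat_lit 4) (.nd (nat_lit 5) 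
(.lf (nat_lit 289998) (.g (nat_lit 1455) (.e (nat_lit 311040) (nat_lit 15) (.e (nat_lit 6114) (nat_lit 332) (.e (nat_lit 1370) (nat_lit 103) (.e (nat_lit 294960) (nat_lit 13) (.e (nat_lit 393260) (nat_lit 21) .nil))))) .nil)) 
(.lf (nat_lit 290030) (.g (nat_lit 2690) (.e (nat_lit 311040) (nat_lit 18) (.e (nat_lit 98358) (nat_lit 26) (.e (nat_lit 426131) (nat_lit 3) (.e (nat_lit 204838) (nat_lit 20) (.e (nat_lit 114702) (nat_lit 20) .nil))))) .nil))) (.nd (nat_lit 5) 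
(.lf (nat_lit 290014) (.g (nat_lit 955) (.e (nat_lit 311040) (nat_lit 17) (.e (nat_lit 90176) (nat_lit 15) (.e (nat_lit 188431) (nat_lit 20) (.e (nat_lit 3547) (nat_lit 219) .nil)))) .nil)) 
(.lf (nat_lit 290046) (.g (nat_lit 401) (.e (nat_lit 311040) (nat_lit 18) (.e (nat_lit 98365) (nat_lit 26) (.e (nat_lit 426188) (nat_lit 9) .nil))) .nil))))))) (.nd (nat_lit 1) (.nd (nat_lit 2) (.nd (nat_lit 3) (.nd (nat_lit 4) (.nd (nat_lit 5) 
(.lf (nat_lit 289985) (.g (nat_lit 2265) (.e (nat_lit 303150) (nat_lit 15) (.e (nat_lit 1855) (nat_lit 124) (.e (nat_lit 557098) (nat_lit 13) (.e (nat_lit 172115) (nat_lit 10) (.e (nat_lit 434231) (nat_lit 23) (.e (nat_lit 532490) (nat_lit 0) (.e (nat_lit 6114) (nat_lit 332) (.e (nat_lit 1378) (nat_lit 104) .nil)))))))) (.g (nat_lit 4) .nil .nil))) 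
(.lf (nat_lit 290017) (.g (nat_lit 491) (.e (nat_lit 311040) (nat_lit 17) (.e (nat_lit 90178) (nat_lit 15) (.e (nat_lit 188421) (nat_lit 11) .nil))) .nil))) (.nd (nat_lit 5) 
(.lf (nat_lit 290001) (.g (nat_lit 699) (.e (nat_lit 311040) (nat_lit 17) (.e (nat_lit 90168) (nat_lit 13) (.e (nat_lit 172123) (nat_lit 13) (.e (nat_lit 491264) (nat_lit 7) .nil)))) .nil)) 
(.lf (nat_lit 290033) (.g (nat_lit 1605) (.e (nat_lit 311040) (nat_lit 18) (.e (nat_lit 98358) (nat_lit 26) (.e (nat_lit 426323) (nat_lit 13) (.e (nat_lit 483333) (nat_lit 0) (.e (nat_lit 6988) (nat_lit 377) .nil))))) .nil)))) (.nd (nat_lit 4) (.nd (nat_lit 5) 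
(.lf (nat_lit 289993) (.g (nat_lit 1274) (.e (nat_lit 311040) (nat_lit 15) (.e (nat_lit 6113) (nat_lit 332) (.e (nat_lit 1361) (nat_lit 102) (.e (nat_lit 286761) (nat_lit 13) (.e (nat_lit 393260) (nat_lit 21) .nil))))) .nil)) 
(.lf (nat_lit 290025) (.g (nat_lit 1229) (.e (nat_lit 311040) (nat_lit 17) (.e (nat_lit 90185) (nat_lit 17) (.e (nat_lit 237621) (nat_lit 13) (.e (nat_lit 483333) (nat_lit 0) (.e (nat_lit 6972) (nat_lit 377) .nil))))) .nil))) (.nd (nat_lit 5) 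
(.lf (nat_lit 290009) (.g (nat_lit 2491) (.e (nat_lit 311040) (nat_lit 17) (.e (nat_lit 90174) (nat_lit 14) (.e (nat_lit 180252) (nat_lit 10) (.e (nat_lit 573489) (nat_lit 14) (.e (nat_lit 73755) (nat_lit 8) .nil))))) .nil)) 
(.lf (nat_lit 290041) (.g (nat_lit 911) (.e (nat_lit 311040) (nat_lit 18) (.e (nat_lit 98359) (nat_lit 26) (.e (nat_lit 426328) (nat_lit 13) (.e (nat_lit 491264) (nat_lit 7) .nil)))) .nil))))) (.nd (nat_lit 3) (.nd (nat_lit 4) (.nd (nat_lit 5) 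
(.lf (nat_lit 289989) (.g (nat_lit 1279) (.e (nat_lit 311040) (nat_lit 15) (.e (nat_lit 1849) (nat_lit 124) (.e (nat_lit 557108) (nat_lit 15) (.e (nat_lit 188449) (nat_lit 22) (.e (nat_lit 196661) (nat_lit 12) .nil))))) .nil)) 
(.lf (nat_lit 290021) (.g (nat_lit 605) (.e (nat_lit 311040) (nat_lit 17) (.e (nat_lit 90185) (nat_lit 17) (.e (nat_lit 237601) (nat_lit 9) .nil))) .nil))) (.nd (nat_lit 5) 
(.lf (nat_lit 290005) (.g (nat_lit 1037) (.e (nat_lit 311040) (nat_lit 17) (.e (nat_lit 90170) (nat_lit 13) (.e (nat_lit 172123) (nat_lit 13) (.e (nat_lit 483333) (nat_lit 0) .nil)))) .nil)) 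
(.lf (nat_lit 290037) (.g (nat_lit 1128) (.e (nat_lit 311040) (nat_lit 18) (.e (nat_lit 98359) (nat_lit 26) (.e (nat_lit 426324) (nat_lit 13) (.e (nat_lit 483333) (nat_lit 0) .nil)))) .nil)))) (.nd (nat_lit 4) (.nd (nat_lit 5) 
(.lf (nat_lit 289997) (.g (nat_lit 1447) (.e (nat_lit 311040) (nat_lit 15) (.e (nat_lit 6114) (nat_lit 332) (.e (nat_lit 1370) (nat_lit 103) (.e (nat_lit 294960) (nat_lit 13) (.e (nat_lit 393238) (nat_lit 17) .nil))))) .nil)) 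
(.lf (nat_lit 290029) (.g (nat_lit 1275) (.e (nat_lit 311040) (nat_lit 17) (.e (nat_lit 90185) (nat_lit 17) (.e (nat_lit 237624) (nat_lit 13) (.e (nat_lit 483333) (nat_lit 0) (.e (nat_lit 6988) (nat_lit 377) .nil))))) .nil))) (.nd (nat_lit 5) 
(.lf (nat_lit 290013) (.g (nat_lit 504) (.e (nat_lit 311040) (nat_lit 17) (.e (nat_lit 90176) (nat_lit 15) (.e (nat_lit 188431) (nat_lit 20) .nil))) .nil)) 
(.lf (nat_lit 290045) (.g (nat_lit 1024) (.e (nat_lit 311040) (nat_lit 18) (.e (nat_lit 98359) (nat_lit 26) (.e (nat_lit 426331) (nat_lit 13) (.e (nat_lit 483333) (nat_lit 0) .nil)))) .nil)))))) (.nd (nat_lit 2) (.nd (nat_lit 3) (.nd (nat_lit 4) (.nd (nat_lit 5) 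
(.lf (nat_lit 289987) (.g (nat_lit 3017) (.e (nat_lit 303150) (nat_lit 15) (.e (nat_lit 1856) (nat_lit 124) (.e (nat_lit 557100) (nat_lit 13) (.e (nat_lit 172106) (nat_lit 10) (.e (nat_lit 434231) (nat_lit 23) (.e (nat_lit 532490) (nat_lit 0) (.e (nat_lit 6114) (nat_lit 332) (.e (nat_lit 1379) (nat_lit 104) .nil)))))))) (.g (nat_lit 5) .nil .nil))) 
(.lf (nat_lit 290019) (.g (nat_lit 1979) (.e (nat_lit 311040) (nat_lit 17) (.e (nat_lit 90178) (nat_lit 15) (.e (nat_lit 188421) (nat_lit 11) (.e (nat_lit 336288) (nat_lit 15) (.e (nat_lit 6977) (nat_lit 377) .nil))))) .nil))) (.nd (nat_lit 5) 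
(.lf (nat_lit 290003) (.g (nat_lit 560) (.e (nat_lit 311040) (nat_lit 17) (.e (nat_lit 90170) (nat_lit 13) (.e (nat_lit 172106) (nat_lit 10) .nil))) .nil)) 
(.lf (nat_lit 290035) (.g (nat_lit 774) (.e (nat_lit 311040) (nat_lit 18) (.e (nat_lit 98359) (nat_lit 26) (.e (nat_lit 426132) (nat_lit 3) .nil))) .nil)))) (.nd (nat_lit 4) (.nd (nat_lit 5) 
(.lf (nat_lit 289995) (.g (nat_lit 1528) (.e (nat_lit 311040) (nat_lit 15) (.e (nat_lit 6113) (nat_lit 332) (.e (nat_lit 1370) (nat_lit 103) (.e (nat_lit 294960) (nat_lit 13) (.e (nat_lit 393259) (nat_lit 21) .nil))))) .nil)) 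
(.lf (nat_lit 290027) (.g (nat_lit 447) (.e (nat_lit 311040) (nat_lit 17) (.e (nat_lit 90185) (nat_lit 17) (.e (nat_lit 237624) (nat_lit 13) .nil))) .nil))) (.nd (nat_lit 5) 
(.lf (nat_lit 290011) (.g (nat_lit 1403) (.e (nat_lit 311040) (nat_lit 17) (.e (nat_lit 90176) (nat_lit 15) (.e (nat_lit 188423) (nat_lit 11) (.e (nat_lit 336288) (nat_lit 15) (.e (nat_lit 6977) (nat_lit 377) .nil))))) .nil)) 
(.lf (nat_lit 290043) (.g (nat_lit 1316) (.e (nat_lit 311040) (nat_lit 18) (.e (nat_lit 98359) (nat_lit 26) (.e (nat_lit 426329) (nat_lit 13) (.e (nat_lit 483333) (nat_lit 0) (.e (nat_lit 6972) (nat_lit 377) .nil))))) .nil))))) (.nd (nat_lit 3) (.nd (nat_lit 4) (.nd (nat_lit 5) 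
(.lf (nat_lit 289991) (.g (nat_lit 392) (.e (nat_lit 311040) (nat_lit 15) (.e (nat_lit 6113) (nat_lit 332) (.e (nat_lit 1361) (nat_lit 102) .nil))) .nil)) 
(.lf (nat_lit 290023) (.g (nat_lit 700) (.e (nat_lit 311040) (nat_lit 17) (.e (nat_lit 90185) (nat_lit 17) (.e (nat_lit 237620) (nat_lit 13) .nil))) .nil))) (.nd (nat_lit 5) 
(.lf (nat_lit 290007) (.g (nat_lit 1171) (.e (nat_lit 311040) (nat_lit 17) (.e (nat_lit 90170) (nat_lit 13) (.e (nat_lit 172123) (nat_lit 13) (.e (nat_lit 491264) (nat_lit 7) .nil)))) .nil)) 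
(.lf (nat_lit 290039) (.g (nat_lit 1624) (.e (nat_lit 311040) (nat_lit 18) (.e (nat_lit 98359) (nat_lit 26) (.e (nat_lit 426324) (nat_lit 13) (.e (nat_lit 483333) (nat_lit 0) (.e (nat_lit 6988) (nat_lit 377) .nil))))) .nil)))) (.nd (nat_lit 4) (.nd (nat_lit 5) 
(.lf (nat_lit 289999) (.g (nat_lit 607) (.e (nat_lit 311040) (nat_lit 17) (.e (nat_lit 90168) (nat_lit 13) (.e (nat_lit 172123) (nat_lit 13) (.e (nat_lit 483333) (nat_lit 0) .nil)))) .nil)) 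
(.lf (nat_lit 290031) (.g (nat_lit 455) (.e (nat_lit 311040) (nat_lit 18) (.e (nat_lit 98358) (nat_lit 26) (.e (nat_lit 426323) (nat_lit 13) .nil))) .nil))) (.nd (nat_lit 5) 
(.lf (nat_lit 290015) (.g (nat_lit 889) (.e (nat_lit 311040) (nat_lit 17) (.e (nat_lit 90176) (nat_lit 15) (.e (nat_lit 188431) (nat_lit 20) (.e (nat_lit 3571) (nat_lit 222) .nil)))) .nil)) 
(.lf (nat_lit 290047) (.g (nat_lit 1413) (.e (nat_lit 311040) (nat_lit 18) (.e (nat_lit 98365) (nat_lit 26) (.e (nat_lit 426188) (nat_lit 9) (.e (nat_lit 426479) (nat_lit 27) .nil)))) .nil))))))))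

noncomputable def tv3668 : DT := (.nd (nat_lit 0) (.nd (nat_lit 1) (.nd (nat_lit 2) (.nd (nat_lit 3) (.nd (nat_lit 4) (.nd (nat_lit 5) (.nd (nat_lit 6) 
(.lf (nat_lit 290048) (.g (nat_lit 1326) (.e (nat_lit 311040) (nat_lit 18) (.e (nat_lit 98365) (nat_lit 26) (.e (nat_lit 426188) (nat_lit 9) (.e (nat_lit 426484) (nat_lit 27) .nil)))) .nil)) 
(.lf (nat_lit 290112) (.g (nat_lit 2472) (.e (nat_lit 311040) (nat_lit 25) (.e (nat_lit 319531) (nat_lit 16) (.e (nat_lit 286761) (nat_lit 13) (.e (nat_lit 393234) (nat_lit 17) (.e (nat_lit 7030) (nat_lit 377) .nil))))) .nil))) (.nd (nat_lit 6) 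
(.lf (nat_lit 290080) (.g (nat_lit 375) (.e (nat_lit 311040) (nat_lit 25) (.e (nat_lit 319530) (nat_lit 16) (.e (nat_lit 286748) (nat_lit 9) .nil))) .nil)) 
(.lf (nat_lit 290144) (.g (nat_lit 4117) (.e (nat_lit 311040) (nat_lit 26) (.e (nat_lit 327708) (nat_lit 10) (.e (nat_lit 5270) (nat_lit 298) (.e (nat_lit 1422) (nat_lit 108) .nil)))) .nil)))) (.nd (nat_lit 5) (.nd (nat_lit 6) 
(.lf (nat_lit 290064) (.g (nat_lit 2673) (.e (nat_lit 311040) (nat_lit 18) (.e (nat_lit 98373) (nat_lit 29) (.e (nat_lit 450562) (nat_lit 0) (.e (nat_lit 6595) (nat_lit 351) .nil)))) .nil)) 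
(.lf (nat_lit 290128) (.g (nat_lit 1602) (.e (nat_lit 311040) (nat_lit 25) (.e (nat_lit 319533) (nat_lit 16) (.e (nat_lit 286760) (nat_lit 13) (.e (nat_lit 393260) (nat_lit 21) (.e (nat_lit 409647) (nat_lit 18) .nil))))) .nil))) (.nd (nat_lit 6) 
(.lf (nat_lit 290096) (.g (nat_lit 1489) (.e (nat_lit 311040) (nat_lit 25) (.e (nat_lit 319530) (nat_lit 16) (.e (nat_lit 286761) (nat_lit 13) (.e (nat_lit 393262) (nat_lit 22) .nil)))) .nil)) 
(.lf (nat_lit 290160) (.g (nat_lit 1512) (.e (nat_lit 303151) (nat_lit 27) (.e (nat_lit 336088) (nat_lit 9) (.e (nat_lit 336019) (nat_lit 3) (.e (nat_lit 106240) (nat_lit 15) .nil)))) .nil))))) (.nd (nat_lit 4) (.nd (nat_lit 5) (.nd (nat_lit 6) 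
(.lf (nat_lit 290056) (.g (nat_lit 1152) (.e (nat_lit 311040) (nat_lit 18) (.e (nat_lit 98367) (nat_lit 27) (.e (nat_lit 434245) (nat_lit 28) (.e (nat_lit 573488) (nat_lit 14) .nil)))) .nil)) 
(.lf (nat_lit 290120) (.g (nat_lit 1235) (.e (nat_lit 311040) (nat_lit 25) (.e (nat_lit 319531) (nat_lit 16) (.e (nat_lit 286761) (nat_lit 13) (.e (nat_lit 393264) (nat_lit 22) (.e (nat_lit 425728) (nat_lit 18) .nil))))) .nil))) (.nd (nat_lit 6) 
(.lf (nat_lit 290088) (.g (nat_lit 2850) (.e (nat_lit 311040) (nat_lit 25) (.e (nat_lit 319530) (nat_lit 16) (.e (nat_lit 286761) (nat_lit 13) (.e (nat_lit 393234) (nat_lit 17) (.e (nat_lit 6955) (nat_lit 377) .nil))))) .nil)) 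
(.lf (nat_lit 290152) (.g (nat_lit 744) (.e (nat_lit 303151) (nat_lit 27) (.e (nat_lit 335894) (nat_lit 0) (.e (nat_lit 981) (nat_lit 81) .nil))) .nil)))) (.nd (nat_lit 5) (.nd (nat_lit 6) 
(.lf (nat_lit 290072) (.g (nat_lit 793) (.e (nat_lit 311040) (nat_lit 25) (.e (nat_lit 319491) (nat_lit 0) (.e (nat_lit 5664) (nat_lit 312) (.e (nat_lit 2852) (nat_lit 184) .nil)))) .nil)) 
(.lf (nat_lit 290136) (.g (nat_lit 1111) (.e (nat_lit 311040) (nat_lit 25) (.e (nat_lit 319534) (nat_lit 16) (.e (nat_lit 286761) (nat_lit 13) (.e (nat_lit 393234) (nat_lit 17) .nil)))) .nil))) (.nd (nat_lit 6) 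
(.lf (nat_lit 290104) (.g (nat_lit 1634) (.e (nat_lit 311040) (nat_lit 25) (.e (nat_lit 319531) (nat_lit 16) (.e (nat_lit 286748) (nat_lit 9) (.e (nat_lit 336389) (nat_lit 27) (.e (nat_lit 426179) (nat_lit 8) .nil))))) .nil)) 
(.lf (nat_lit 290168) (.g (nat_lit 1569) (.e (nat_lit 303152) (nat_lit 27) (.e (nat_lit 336193) (nat_lit 12) (.e (nat_lit 385093) (nat_lit 49) (.e (nat_lit 778323) (nat_lit 5) .nil)))) .nil)))))) (.nd (nat_lit 3) (.nd (nat_lit 4) (.nd (nat_lit 5) (.nd (nat_lit 6) 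
(.lf (nat_lit 290052) (.g (nat_lit 1861) (.e (nat_lit 311040) (nat_lit 18) (.e (nat_lit 98365) (nat_lit 26) (.e (nat_lit 426325) (nat_lit 13) (.e (nat_lit 483335) (nat_lit 0) .nil)))) .nil)) 
(.lf (nat_lit 290116) (.g (nat_lit 1745) (.e (nat_lit 311040) (nat_lit 25) (.e (nat_lit 319531) (nat_lit 16) (.e (nat_lit 286761) (nat_lit 13) (.e (nat_lit 393260) (nat_lit 21) (.e (nat_lit 417536) (nat_lit 18) .nil))))) .nil))) (.nd (nat_lit 6) 
(.lf (nat_lit 290084) (.g (nat_lit 366) (.e (nat_lit 311040) (nat_lit 25) (.e (nat_lit 319530) (nat_lit 16) (.e (nat_lit 286761) (nat_lit 13) .nil))) .nil)) 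
(.lf (nat_lit 290148) (.g (nat_lit 1097) (.e (nat_lit 311040) (nat_lit 26) (.e (nat_lit 327716) (nat_lit 16) (.e (nat_lit 286761) (nat_lit 13) (.e (nat_lit 393260) (nat_lit 21) .nil)))) .nil)))) (.nd (nat_lit 5) (.nd (nat_lit 6) 
(.lf (nat_lit 290068) (.g (nat_lit 743) (.e (nat_lit 311040) (nat_lit 18) (.e (nat_lit 98373) (nat_lit 29) (.e (nat_lit 458496) (nat_lit 23) .nil))) .nil)) 
(.lf (nat_lit 290132) (.g (nat_lit 1698) (.e (nat_lit 311040) (nat_lit 25) (.e (nat_lit 319534) (nat_lit 16) (.e (nat_lit 286749) (nat_lit 9) (.e (nat_lit 336386) (nat_lit 27) .nil)))) .nil))) (.nd (nat_lit 6) 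
(.lf (nat_lit 290100) (.g (nat_lit 1940) (.e (nat_lit 311040) (nat_lit 25) (.e (nat_lit 319530) (nat_lit 16) (.e (nat_lit 286761) (nat_lit 13) (.e (nat_lit 393265) (nat_lit 22) (.e (nat_lit 425728) (nat_lit 18) .nil))))) .nil)) 
(.lf (nat_lit 290164) (.g (nat_lit 2194) (.e (nat_lit 303152) (nat_lit 27) (.e (nat_lit 336061) (nat_lit 7) (.e (nat_lit 319531) (nat_lit 16) (.e (nat_lit 286770) (nat_lit 28) .nil)))) .nil))))) (.nd (nat_lit 4) (.nd (nat_lit 5) (.nd (nat_lit 6) 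
(.lf (nat_lit 290060) (.g (nat_lit 674) (.e (nat_lit 311040) (nat_lit 18) (.e (nat_lit 98370) (nat_lit 28) (.e (nat_lit 442396) (nat_lit 20) .nil))) .nil)) 
(.lf (nat_lit 290124) (.g (nat_lit 1426) (.e (nat_lit 311040) (nat_lit 25) (.e (nat_lit 319532) (nat_lit 16) (.e (nat_lit 286761) (nat_lit 13) (.e (nat_lit 393265) (nat_lit 22) (.e (nat_lit 425728) (nat_lit 18) .nil))))) .nil))) (.nd (nat_lit 6) 
(.lf (nat_lit 290092) (.g (nat_lit 1956) (.e (nat_lit 311040) (nat_lit 25) (.e (nat_lit 319530) (nat_lit 16) (.e (nat_lit 286761) (nat_lit 13) (.e (nat_lit 393259) (nat_lit 21) (.e (nat_lit 409644) (nat_lit 18) .nil))))) .nil)) 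
(.lf (nat_lit 290156) (.g (nat_lit 1279) (.e (nat_lit 303151) (nat_lit 27) (.e (nat_lit 335995) (nat_lit 1) (.e (nat_lit 57683) (nat_lit 155) (.e (nat_lit 122913) (nat_lit 13) .nil)))) .nil)))) (.nd (nat_lit 5) (.nd (nat_lit 6) 
(.lf (nat_lit 290076) (.g (nat_lit 1238) (.e (nat_lit 311040) (nat_lit 25) (.e (nat_lit 319529) (nat_lit 16) (.e (nat_lit 286761) (nat_lit 13) (.e (nat_lit 393264) (nat_lit 22) .nil)))) .nil)) 
(.lf (nat_lit 290140) (.g (nat_lit 881) (.e (nat_lit 311040) (nat_lit 25) (.e (nat_lit 319535) (nat_lit 17) (.e (nat_lit 294958) (nat_lit 13) (.e (nat_lit 393260) (nat_lit 21) .nil)))) .nil))) (.nd (nat_lit 6) 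
(.lf (nat_lit 290108) (.g (nat_lit 1731) (.e (nat_lit 311040) (nat_lit 25) (.e (nat_lit 319531) (nat_lit 16) (.e (nat_lit 286760) (nat_lit 13) (.e (nat_lit 393260) (nat_lit 21) (.e (nat_lit 409649) (nat_lit 18) .nil))))) .nil)) 
(.lf (nat_lit 290172) (.g (nat_lit 2735) (.e (nat_lit 303152) (nat_lit 27) (.e (nat_lit 336226) (nat_lit 14) (.e (nat_lit 401458) (nat_lit 13) (.e (nat_lit 483350) (nat_lit 17) (.e (nat_lit 6113) (nat_lit 332) (.e (nat_lit 1376) (nat_lit 104) .nil)))))) (.g (nat_lit 5) .nil .nil)))))))) (.nd (nat_lit 2) (.nd (nat_lit 3) (.nd (nat_lit 4) (.nd (nat_lit 5) (.nd (nat_lit 6) 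
(.lf (nat_lit 290050) (.g (nat_lit 1036) (.e (nat_lit 311040) (nat_lit 18) (.e (nat_lit 98365) (nat_lit 26) (.e (nat_lit 426325) (nat_lit 13) (.e (nat_lit 483333) (nat_lit 0) .nil)))) .nil)) 
(.lf (nat_lit 290114) (.g (nat_lit 2177) (.e (nat_lit 311040) (nat_lit 25) (.e (nat_lit 319531) (nat_lit 16) (.e (nat_lit 286761) (nat_lit 13) (.e (nat_lit 393234) (nat_lit 17) (.e (nat_lit 7073) (nat_lit 377) .nil))))) .nil))) (.nd (nat_lit 6) 
(.lf (nat_lit 290082) (.g (nat_lit 1463) (.e (nat_lit 311040) (nat_lit 25) (.e (nat_lit 319530) (nat_lit 16) (.e (nat_lit 286748) (nat_lit 9) (.e (nat_lit 336389) (nat_lit 27) (.e (nat_lit 426172) (nat_lit 7) .nil))))) .nil)) 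
(.lf (nat_lit 290146) (.g (nat_lit 464) (.e (nat_lit 311040) (nat_lit 26) (.e (nat_lit 327708) (nat_lit 10) (.e (nat_lit 5404) (nat_lit 302) .nil))) .nil)))) (.nd (nat_lit 5) (.nd (nat_lit 6) 
(.lf (nat_lit 290066) (.g (nat_lit 2449) (.e (nat_lit 311040) (nat_lit 18) (.e (nat_lit 98373) (nat_lit 29) (.e (nat_lit 450563) (nat_lit 0) (.e (nat_lit 6830) (nat_lit 367) .nil)))) .nil)) 
(.lf (nat_lit 290130) (.g (nat_lit 1432) (.e (nat_lit 311040) (nat_lit 25) (.e (nat_lit 319533) (nat_lit 16) (.e (nat_lit 286761) (nat_lit 13) (.e (nat_lit 393264) (nat_lit 22) .nil)))) .nil))) (.nd (nat_lit 6) 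
(.lf (nat_lit 290098) (.g (nat_lit 1582) (.e (nat_lit 311040) (nat_lit 25) (.e (nat_lit 319530) (nat_lit 16) (.e (nat_lit 286761) (nat_lit 13) (.e (nat_lit 393264) (nat_lit 22) (.e (nat_lit 425728) (nat_lit 18) .nil))))) .nil)) 
(.lf (nat_lit 290162) (.g (nat_lit 2119) (.e (nat_lit 303151) (nat_lit 27) (.e (nat_lit 336231) (nat_lit 14) (.e (nat_lit 401458) (nat_lit 13) (.e (nat_lit 483350) (nat_lit 17) (.e (nat_lit 6113) (nat_lit 332) (.e (nat_lit 7936) (nat_lit 104) .nil)))))) (.g (nat_lit 5) .nil .nil)))))) (.nd (nat_lit 4) (.nd (nat_lit 5) (.nd (nat_lit 6) 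
(.lf (nat_lit 290058) (.g (nat_lit 1894) (.e (nat_lit 311040) (nat_lit 18) (.e (nat_lit 98370) (nat_lit 28) (.e (nat_lit 442390) (nat_lit 11) (.e (nat_lit 336288) (nat_lit 15) (.e (nat_lit 6977) (nat_lit 377) .nil))))) .nil)) 
(.lf (nat_lit 290122) (.g (nat_lit 1715) (.e (nat_lit 311040) (nat_lit 25) (.e (nat_lit 319531) (nat_lit 16) (.e (nat_lit 286761) (nat_lit 13) (.e (nat_lit 393265) (nat_lit 22) (.e (nat_lit 425728) (nat_lit 18) .nil))))) .nil))) (.nd (nat_lit 6) 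
(.lf (nat_lit 290090) (.g (nat_lit 2836) (.e (nat_lit 311040) (nat_lit 25) (.e (nat_lit 319530) (nat_lit 16) (.e (nat_lit 286761) (nat_lit 13) (.e (nat_lit 393234) (nat_lit 17) (.e (nat_lit 6965) (nat_lit 377) .nil))))) .nil)) 
(.lf (nat_lit 290154) (.g (nat_lit 1340) (.e (nat_lit 303151) (nat_lit 27) (.e (nat_lit 335995) (nat_lit 1) (.e (nat_lit 57655) (nat_lit 152) (.e (nat_lit 1206) (nat_lit 89) .nil)))) .nil)))) (.nd (nat_lit 5) (.nd (nat_lit 6) 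
(.lf (nat_lit 290074) (.g (nat_lit 1185) (.e (nat_lit 311040) (nat_lit 25) (.e (nat_lit 319511) (nat_lit 10) (.e (nat_lit 5293) (nat_lit 298) (.e (nat_lit 1656) (nat_lit 115) (.e (nat_lit 393259) (nat_lit 21) .nil))))) .nil)) 
(.lf (nat_lit 290138) (.g (nat_lit 962) (.e (nat_lit 311040) (nat_lit 25) (.e (nat_lit 319534) (nat_lit 16) (.e (nat_lit 286761) (nat_lit 13) (.e (nat_lit 393264) (nat_lit 22) .nil)))) .nil))) (.nd (nat_lit 6) 
(.lf (nat_lit 290106) (.g (nat_lit 1404) (.e (nat_lit 311040) (nat_lit 25) (.e (nat_lit 319531) (nat_lit 16) (.e (nat_lit 286748) (nat_lit 9) (.e (nat_lit 336389) (nat_lit 27) (.e (nat_lit 426181) (nat_lit 8) .nil))))) .nil)) 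
(.lf (nat_lit 290170) (.g (nat_lit 1996) (.e (nat_lit 303152) (nat_lit 27) (.e (nat_lit 336200) (nat_lit 12) (.e (nat_lit 385094) (nat_lit 49) (.e (nat_lit 778323) (nat_lit 5) (.e (nat_lit 73787) (nat_lit 45) .nil))))) .nil)))))) (.nd (nat_lit 3) (.nd (nat_lit 4) (.nd (nat_lit 5) (.nd (nat_lit 6) 
(.lf (nat_lit 290054) (.g (nat_lit 2543) (.e (nat_lit 311040) (nat_lit 18) (.e (nat_lit 98367) (nat_lit 27) (.e (nat_lit 434244) (nat_lit 28) (.e (nat_lit 573487) (nat_lit 14) (.e (nat_lit 73753) (nat_lit 8) .nil))))) .nil)) 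
(.lf (nat_lit 290118) (.g (nat_lit 2130) (.e (nat_lit 311040) (nat_lit 25) (.e (nat_lit 319531) (nat_lit 16) (.e (nat_lit 286761) (nat_lit 13) (.e (nat_lit 393263) (nat_lit 22) (.e (nat_lit 417829) (nat_lit 18) .nil))))) .nil))) (.nd (nat_lit 6) 
(.lf (nat_lit 290086) (.g (nat_lit 2104) (.e (nat_lit 311040) (nat_lit 25) (.e (nat_lit 319530) (nat_lit 16) (.e (nat_lit 286761) (nat_lit 13) (.e (nat_lit 393233) (nat_lit 17) (.e (nat_lit 7073) (nat_lit 377) .nil))))) .nil)) 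
(.lf (nat_lit 290150) (.g (nat_lit 1643) (.e (nat_lit 311040) (nat_lit 26) (.e (nat_lit 327717) (nat_lit 17) (.e (nat_lit 294960) (nat_lit 13) (.e (nat_lit 393260) (nat_lit 21) (.e (nat_lit 409646) (nat_lit 18) .nil))))) .nil)))) (.nd (nat_lit 5) (.nd (nat_lit 6) 
(.lf (nat_lit 290070) (.g (nat_lit 793) (.e (nat_lit 311040) (nat_lit 18) (.e (nat_lit 98380) (nat_lit 31) (.e (nat_lit 466954) (nat_lit 11) (.e (nat_lit 343808) (nat_lit 25) .nil)))) .nil)) 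
(.lf (nat_lit 290134) (.g (nat_lit 1848) (.e (nat_lit 311040) (nat_lit 25) (.e (nat_lit 319534) (nat_lit 16) (.e (nat_lit 286760) (nat_lit 13) (.e (nat_lit 393238) (nat_lit 17) (.e (nat_lit 6989) (nat_lit 377) .nil))))) .nil))) (.nd (nat_lit 6) 
(.lf (nat_lit 290102) (.g (nat_lit 1472) (.e (nat_lit 311040) (nat_lit 25) (.e (nat_lit 319531) (nat_lit 16) (.e (nat_lit 286748) (nat_lit 9) (.e (nat_lit 336389) (nat_lit 27) (.e (nat_lit 426166) (nat_lit 7) .nil))))) .nil)) 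
(.lf (nat_lit 290166) (.g (nat_lit 1247) (.e (nat_lit 303152) (nat_lit 27) (.e (nat_lit 336061) (nat_lit 7) (.e (nat_lit 319539) (nat_lit 19) (.e (nat_lit 311357) (nat_lit 28) (.e (nat_lit 344075) (nat_lit 13) .nil))))) .nil))))) (.nd (nat_lit 4) (.nd (nat_lit 5) (.nd (nat_lit 6) 
(.lf (nat_lit 290062) (.g (nat_lit 514) (.e (nat_lit 311040) (nat_lit 18) (.e (nat_lit 98372) (nat_lit 29) (.e (nat_lit 458496) (nat_lit 23) .nil))) .nil)) 
(.lf (nat_lit 290126) (.g (nat_lit 369) (.e (nat_lit 311040) (nat_lit 25) (.e (nat_lit 319533) (nat_lit 16) (.e (nat_lit 286760) (nat_lit 13) .nil))) .nil))) (.nd (nat_lit 6) 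
(.lf (nat_lit 290094) (.g (nat_lit 2050) (.e (nat_lit 311040) (nat_lit 25) (.e (nat_lit 319530) (nat_lit 16) (.e (nat_lit 286761) (nat_lit 13) (.e (nat_lit 393260) (nat_lit 21) (.e (nat_lit 409647) (nat_lit 18) .nil))))) .nil)) 
(.lf (nat_lit 290158) (.g (nat_lit 1371) (.e (nat_lit 303151) (nat_lit 27) (.e (nat_lit 335996) (nat_lit 1) (.e (nat_lit 57929) (nat_lit 282) (.e (nat_lit 171776) (nat_lit 80) .nil)))) .nil)))) (.nd (nat_lit 5) (.nd (nat_lit 6) 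
(.lf (nat_lit 290078) (.g (nat_lit 1169) (.e (nat_lit 311040) (nat_lit 25) (.e (nat_lit 319530) (nat_lit 16) (.e (nat_lit 286743) (nat_lit 9) (.e (nat_lit 336368) (nat_lit 27) .nil)))) .nil)) 
(.lf (nat_lit 290142) (.g (nat_lit 1506) (.e (nat_lit 311040) (nat_lit 25) (.e (nat_lit 319536) (nat_lit 17) (.e (nat_lit 294938) (nat_lit 9) (.e (nat_lit 336369) (nat_lit 27) (.e (nat_lit 426173) (nat_lit 7) .nil))))) .nil))) (.nd (nat_lit 6) 
(.lf (nat_lit 290110) (.g (nat_lit 2041) (.e (nat_lit 311040) (nat_lit 25) (.e (nat_lit 319531) (nat_lit 16) (.e (nat_lit 286761) (nat_lit 13) (.e (nat_lit 393233) (nat_lit 17) (.e (nat_lit 7073) (nat_lit 377) .nil))))) .nil)) 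
(.lf (nat_lit 290174) (.g (nat_lit 3798) (.e (nat_lit 303152) (nat_lit 27) (.e (nat_lit 336226) (nat_lit 14) (.e (nat_lit 401459) (nat_lit 13) (.e (nat_lit 483350) (nat_lit 17) (.e (nat_lit 6113) (nat_lit 332) (.e (nat_lit 1376) (nat_lit 104) .nil)))))) (.g (nat_lit 0) .nil .nil))))))))) (.nd (nat_lit 1) (.nd (nat_lit 2) (.nd (nat_lit 3) (.nd (nat_lit 4) (.nd (nat_lit 5) (.nd (nat_lit 6) 
(.lf (nat_lit 290049) (.g (nat_lit 1497) (.e (nat_lit 311040) (nat_lit 18) (.e (nat_lit 98365) (nat_lit 26) (.e (nat_lit 426188) (nat_lit 9) (.e (nat_lit 426486) (nat_lit 27) (.e (nat_lit 336359) (nat_lit 25) .nil))))) .nil)) 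
(.lf (nat_lit 290113) (.g (nat_lit 2333) (.e (nat_lit 311040) (nat_lit 25) (.e (nat_lit 319531) (nat_lit 16) (.e (nat_lit 286761) (nat_lit 13) (.e (nat_lit 393234) (nat_lit 17) (.e (nat_lit 7044) (nat_lit 377) .nil))))) .nil))) (.nd (nat_lit 6) 
(.lf (nat_lit 290081) (.g (nat_lit 885) (.e (nat_lit 311040) (nat_lit 25) (.e (nat_lit 319530) (nat_lit 16) (.e (nat_lit 286748) (nat_lit 9) (.e (nat_lit 336389) (nat_lit 27) (.e (nat_lit 426012) (nat_lit 0) .nil))))) .nil)) 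
(.lf (nat_lit 290145) (.g (nat_lit 4069) (.e (nat_lit 311040) (nat_lit 26) (.e (nat_lit 327708) (nat_lit 10) (.e (nat_lit 5270) (nat_lit 298) (.e (nat_lit 1433) (nat_lit 108) .nil)))) .nil)))) (.nd (nat_lit 5) (.nd (nat_lit 6) 
(.lf (nat_lit 290065) (.g (nat_lit 2568) (.e (nat_lit 311040) (nat_lit 18) (.e (nat_lit 98373) (nat_lit 29) (.e (nat_lit 450563) (nat_lit 0) (.e (nat_lit 6595) (nat_lit 351) .nil)))) .nil)) 
(.lf (nat_lit 290129) (.g (nat_lit 954) (.e (nat_lit 311040) (nat_lit 25) (.e (nat_lit 319533) (nat_lit 16) (.e (nat_lit 286761) (nat_lit 13) (.e (nat_lit 393260) (nat_lit 21) .nil)))) .nil))) (.nd (nat_lit 6) 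
(.lf (nat_lit 290097) (.g (nat_lit 1514) (.e (nat_lit 311040) (nat_lit 25) (.e (nat_lit 319530) (nat_lit 16) (.e (nat_lit 286761) (nat_lit 13) (.e (nat_lit 393263) (nat_lit 22) .nil)))) .nil)) 
(.lf (nat_lit 290161) (.g (nat_lit 3774) (.e (nat_lit 303151) (nat_lit 27) (.e (nat_lit 336231) (nat_lit 14) (.e (nat_lit 401458) (nat_lit 13) (.e (nat_lit 483350) (nat_lit 17) (.e (nat_lit 6113) (nat_lit 332) (.e (nat_lit 1374) (nat_lit 104) .nil)))))) (.g (nat_lit 6) .nil .nil)))))) (.nd (nat_lit 4) (.nd (nat_lit 5) (.nd (nat_lit 6) 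
(.lf (nat_lit 290057) (.g (nat_lit 1202) (.e (nat_lit 311040) (nat_lit 18) (.e (nat_lit 98367) (nat_lit 27) (.e (nat_lit 434247) (nat_lit 28) (.e (nat_lit 573489) (nat_lit 14) .nil)))) .nil)) 
(.lf (nat_lit 290121) (.g (nat_lit 1779) (.e (nat_lit 311040) (nat_lit 25) (.e (nat_lit 319531) (nat_lit 16) (.e (nat_lit 286761) (nat_lit 13) (.e (nat_lit 393265) (nat_lit 22) (.e (nat_lit 417828) (nat_lit 18) .nil))))) .nil))) (.nd (nat_lit 6) 
(.lf (nat_lit 290089) (.g (nat_lit 2918) (.e (nat_lit 311040) (nat_lit 25) (.e (nat_lit 319530) (nat_lit 16) (.e (nat_lit 286761) (nat_lit 13) (.e (nat_lit 393234) (nat_lit 17) (.e (nat_lit 6959) (nat_lit 377) .nil))))) .nil)) 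
(.lf (nat_lit 290153) (.g (nat_lit 2150) (.e (nat_lit 303151) (nat_lit 27) (.e (nat_lit 335988) (nat_lit 1) (.e (nat_lit 57931) (nat_lit 282) (.e (nat_lit 171776) (nat_lit 80) .nil)))) .nil)))) (.nd (nat_lit 5) (.nd (nat_lit 6) 
(.lf (nat_lit 290073) (.g (nat_lit 1081) (.e (nat_lit 311040) (nat_lit 25) (.e (nat_lit 319504) (nat_lit 10) (.e (nat_lit 5351) (nat_lit 298) (.e (nat_lit 1428) (nat_lit 108) (.e (nat_lit 336369) (nat_lit 27) .nil))))) .nil)) 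
(.lf (nat_lit 290137) (.g (nat_lit 1080) (.e (nat_lit 311040) (nat_lit 25) (.e (nat_lit 319534) (nat_lit 16) (.e (nat_lit 286761) (nat_lit 13) (.e (nat_lit 393260) (nat_lit 21) (.e (nat_lit 417536) (nat_lit 18) .nil))))) .nil))) (.nd (nat_lit 6) 
(.lf (nat_lit 290105) (.g (nat_lit 1808) (.e (nat_lit 311040) (nat_lit 25) (.e (nat_lit 319531) (nat_lit 16) (.e (nat_lit 286748) (nat_lit 9) (.e (nat_lit 336389) (nat_lit 27) (.e (nat_lit 426180) (nat_lit 8) .nil))))) .nil)) 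
(.lf (nat_lit 290169) (.g (nat_lit 1200) (.e (nat_lit 303152) (nat_lit 27) (.e (nat_lit 336200) (nat_lit 12) (.e (nat_lit 385094) (nat_lit 49) (.e (nat_lit 778323) (nat_lit 5) .nil)))) .nil)))))) (.nd (nat_lit 3) (.nd (nat_lit 4) (.nd (nat_lit 5) (.nd (nat_lit 6) 
(.lf (nat_lit 290053) (.g (nat_lit 1572) (.e (nat_lit 311040) (nat_lit 18) (.e (nat_lit 98367) (nat_lit 27) (.e (nat_lit 434242) (nat_lit 28) (.e (nat_lit 573488) (nat_lit 14) (.e (nat_lit 73755) (nat_lit 8) .nil))))) .nil)) 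
(.lf (nat_lit 290117) (.g (nat_lit 1534) (.e (nat_lit 311040) (nat_lit 25) (.e (nat_lit 319531) (nat_lit 16) (.e (nat_lit 286761) (nat_lit 13) (.e (nat_lit 393263) (nat_lit 22) .nil)))) .nil))) (.nd (nat_lit 6) 
(.lf (nat_lit 290085) (.g (nat_lit 2102) (.e (nat_lit 311040) (nat_lit 25) (.e (nat_lit 319530) (nat_lit 16) (.e (nat_lit 286761) (nat_lit 13) (.e (nat_lit 393233) (nat_lit 17) (.e (nat_lit 7044) (nat_lit 377) .nil))))) .nil)) 
(.lf (nat_lit 290149) (.g (nat_lit 1706) (.e (nat_lit 311040) (nat_lit 26) (.e (nat_lit 327717) (nat_lit 17) (.e (nat_lit 294941) (nat_lit 9) (.e (nat_lit 336369) (nat_lit 27) (.e (nat_lit 426173) (nat_lit 7) .nil))))) .nil)))) (.nd (nat_lit 5) (.nd (nat_lit 6) 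
(.lf (nat_lit 290069) (.g (nat_lit 743) (.e (nat_lit 311040) (nat_lit 18) (.e (nat_lit 98373) (nat_lit 29) (.e (nat_lit 458496) (nat_lit 26) .nil))) .nil)) 
(.lf (nat_lit 290133) (.g (nat_lit 629) (.e (nat_lit 311040) (nat_lit 25) (.e (nat_lit 319534) (nat_lit 16) (.e (nat_lit 286760) (nat_lit 13) .nil))) .nil))) (.nd (nat_lit 6) 
(.lf (nat_lit 290101) (.g (nat_lit 435) (.e (nat_lit 311040) (nat_lit 25) (.e (nat_lit 319531) (nat_lit 16) (.e (nat_lit 286748) (nat_lit 9) .nil))) .nil)) 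
(.lf (nat_lit 290165) (.g (nat_lit 467) (.e (nat_lit 303152) (nat_lit 27) (.e (nat_lit 336061) (nat_lit 7) (.e (nat_lit 319539) (nat_lit 19) .nil))) .nil))))) (.nd (nat_lit 4) (.nd (nat_lit 5) (.nd (nat_lit 6) 
(.lf (nat_lit 290061) (.g (nat_lit 1014) (.e (nat_lit 311040) (nat_lit 18) (.e (nat_lit 98370) (nat_lit 28) (.e (nat_lit 442396) (nat_lit 20) (.e (nat_lit 3571) (nat_lit 222) .nil)))) .nil)) 
(.lf (nat_lit 290125) (.g (nat_lit 2080) (.e (nat_lit 311040) (nat_lit 25) (.e (nat_lit 319533) (nat_lit 16) (.e (nat_lit 286743) (nat_lit 9) (.e (nat_lit 336369) (nat_lit 27) (.e (nat_lit 426173) (nat_lit 7) .nil))))) .nil))) (.nd (nat_lit 6) 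
(.lf (nat_lit 290093) (.g (nat_lit 2218) (.e (nat_lit 311040) (nat_lit 25) (.e (nat_lit 319530) (nat_lit 16) (.e (nat_lit 286761) (nat_lit 13) (.e (nat_lit 393260) (nat_lit 21) (.e (nat_lit 409643) (nat_lit 18) .nil))))) .nil)) 
(.lf (nat_lit 290157) (.g (nat_lit 1230) (.e (nat_lit 303151) (nat_lit 27) (.e (nat_lit 335995) (nat_lit 1) (.e (nat_lit 57931) (nat_lit 282) .nil))) .nil)))) (.nd (nat_lit 5) (.nd (nat_lit 6) 
(.lf (nat_lit 290077) (.g (nat_lit 1361) (.e (nat_lit 311040) (nat_lit 25) (.e (nat_lit 319529) (nat_lit 16) (.e (nat_lit 286761) (nat_lit 13) (.e (nat_lit 393265) (nat_lit 22) (.e (nat_lit 425728) (nat_lit 18) .nil))))) .nil)) 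
(.lf (nat_lit 290141) (.g (nat_lit 1057) (.e (nat_lit 311040) (nat_lit 25) (.e (nat_lit 319535) (nat_lit 17) (.e (nat_lit 294959) (nat_lit 13) (.e (nat_lit 393260) (nat_lit 21) (.e (nat_lit 409643) (nat_lit 18) .nil))))) .nil))) (.nd (nat_lit 6) 
(.lf (nat_lit 290109) (.g (nat_lit 362) (.e (nat_lit 311040) (nat_lit 25) (.e (nat_lit 319531) (nat_lit 16) (.e (nat_lit 286761) (nat_lit 13) .nil))) .nil)) 
(.lf (nat_lit 290173) (.g (nat_lit 4517) (.e (nat_lit 303152) (nat_lit 27) (.e (nat_lit 336226) (nat_lit 14) (.e (nat_lit 401459) (nat_lit 13) (.e (nat_lit 483350) (nat_lit 17) (.e (nat_lit 6113) (nat_lit 332) (.e (nat_lit 1374) (nat_lit 104) .nil)))))) (.g (nat_lit 0) .nil .nil)))))))) (.nd (nat_lit 2) (.nd (nat_lit 3) (.nd (nat_lit 4) (.nd (nat_lit 5) (.nd (nat_lit 6) 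
(.lf (nat_lit 290051) (.g (nat_lit 1567) (.e (nat_lit 311040) (nat_lit 18) (.e (nat_lit 98365) (nat_lit 26) (.e (nat_lit 426325) (nat_lit 13) (.e (nat_lit 483333) (nat_lit 0) (.e (nat_lit 6988) (nat_lit 377) .nil))))) .nil)) 
(.lf (nat_lit 290115) (.g (nat_lit 1824) (.e (nat_lit 311040) (nat_lit 25) (.e (nat_lit 319531) (nat_lit 16) (.e (nat_lit 286761) (nat_lit 13) (.e (nat_lit 393260) (nat_lit 21) (.e (nat_lit 409643) (nat_lit 18) .nil))))) .nil))) (.nd (nat_lit 6) 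
(.lf (nat_lit 290083) (.g (nat_lit 478) (.e (nat_lit 311040) (nat_lit 25) (.e (nat_lit 319530) (nat_lit 16) (.e (nat_lit 286760) (nat_lit 13) .nil))) .nil)) 
(.lf (nat_lit 290147) (.g (nat_lit 901) (.e (nat_lit 311040) (nat_lit 26) (.e (nat_lit 327715) (nat_lit 16) (.e (nat_lit 286761) (nat_lit 13) (.e (nat_lit 393260) (nat_lit 21) .nil)))) .nil)))) (.nd (nat_lit 5) (.nd (nat_lit 6) 
(.lf (nat_lit 290067) (.g (nat_lit 977) (.e (nat_lit 311040) (nat_lit 18) (.e (nat_lit 98373) (nat_lit 29) (.e (nat_lit 450602) (nat_lit 22) .nil))) .nil)) 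
(.lf (nat_lit 290131) (.g (nat_lit 2046) (.e (nat_lit 311040) (nat_lit 25) (.e (nat_lit 319533) (nat_lit 16) (.e (nat_lit 286761) (nat_lit 13) (.e (nat_lit 393265) (nat_lit 22) (.e (nat_lit 417828) (nat_lit 18) .nil))))) .nil))) (.nd (nat_lit 6) 
(.lf (nat_lit 290099) (.g (nat_lit 2129) (.e (nat_lit 311040) (nat_lit 25) (.e (nat_lit 319530) (nat_lit 16) (.e (nat_lit 286761) (nat_lit 13) (.e (nat_lit 393265) (nat_lit 22) (.e (nat_lit 417829) (nat_lit 18) .nil))))) .nil)) 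
(.lf (nat_lit 290163) (.g (nat_lit 2303) (.e (nat_lit 303152) (nat_lit 27) (.e (nat_lit 336061) (nat_lit 7) (.e (nat_lit 319531) (nat_lit 16) (.e (nat_lit 286767) (nat_lit 27) .nil)))) .nil))))) (.nd (nat_lit 4) (.nd (nat_lit 5) (.nd (nat_lit 6) 
(.lf (nat_lit 290059) (.g (nat_lit 954) (.e (nat_lit 311040) (nat_lit 18) (.e (nat_lit 98370) (nat_lit 28) (.e (nat_lit 442390) (nat_lit 11) (.e (nat_lit 343808) (nat_lit 25) .nil)))) .nil)) 
(.lf (nat_lit 290123) (.g (nat_lit 1585) (.e (nat_lit 311040) (nat_lit 25) (.e (nat_lit 319532) (nat_lit 16) (.e (nat_lit 286761) (nat_lit 13) (.e (nat_lit 393264) (nat_lit 22) (.e (nat_lit 417829) (nat_lit 18) .nil))))) .nil))) (.nd (nat_lit 6) 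
(.lf (nat_lit 290091) (.g (nat_lit 2840) (.e (nat_lit 311040) (nat_lit 25) (.e (nat_lit 319530) (nat_lit 16) (.e (nat_lit 286761) (nat_lit 13) (.e (nat_lit 393234) (nat_lit 17) (.e (nat_lit 7030) (nat_lit 377) .nil))))) .nil)) 
(.lf (nat_lit 290155) (.g (nat_lit 1269) (.e (nat_lit 303151) (nat_lit 27) (.e (nat_lit 335995) (nat_lit 1) (.e (nat_lit 57683) (nat_lit 155) (.e (nat_lit 122911) (nat_lit 13) .nil)))) .nil)))) (.nd (nat_lit 5) (.nd (nat_lit 6) 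
(.lf (nat_lit 290075) (.g (nat_lit 348) (.e (nat_lit 311040) (nat_lit 25) (.e (nat_lit 319529) (nat_lit 16) (.e (nat_lit 286761) (nat_lit 13) .nil))) .nil)) 
(.lf (nat_lit 290139) (.g (nat_lit 1286) (.e (nat_lit 311040) (nat_lit 25) (.e (nat_lit 319534) (nat_lit 16) (.e (nat_lit 286761) (nat_lit 13) (.e (nat_lit 393265) (nat_lit 22) (.e (nat_lit 425728) (nat_lit 18) .nil))))) .nil))) (.nd (nat_lit 6) 
(.lf (nat_lit 290107) (.g (nat_lit 1074) (.e (nat_lit 311040) (nat_lit 25) (.e (nat_lit 319531) (nat_lit 16) (.e (nat_lit 286760) (nat_lit 13) (.e (nat_lit 393260) (nat_lit 21) .nil)))) .nil)) 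
(.lf (nat_lit 290171) (.g (nat_lit 523) (.e (nat_lit 303152) (nat_lit 27) (.e (nat_lit 336226) (nat_lit 14) (.e (nat_lit 401436) (nat_lit 9) .nil))) .nil)))))) (.nd (nat_lit 3) (.nd (nat_lit 4) (.nd (nat_lit 5) (.nd (nat_lit 6) 
(.lf (nat_lit 290055) (.g (nat_lit 2425) (.e (nat_lit 311040) (nat_lit 18) (.e (nat_lit 98367) (nat_lit 27) (.e (nat_lit 434244) (nat_lit 28) (.e (nat_lit 573488) (nat_lit 14) (.e (nat_lit 73755) (nat_lit 8) .nil))))) .nil)) 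
(.lf (nat_lit 290119) (.g (nat_lit 1280) (.e (nat_lit 311040) (nat_lit 25) (.e (nat_lit 319531) (nat_lit 16) (.e (nat_lit 286761) (nat_lit 13) (.e (nat_lit 393264) (nat_lit 22) (.e (nat_lit 417828) (nat_lit 18) .nil))))) .nil))) (.nd (nat_lit 6) 
(.lf (nat_lit 290087) (.g (nat_lit 886) (.e (nat_lit 311040) (nat_lit 25) (.e (nat_lit 319530) (nat_lit 16) (.e (nat_lit 286761) (nat_lit 13) (.e (nat_lit 393234) (nat_lit 17) .nil)))) .nil)) 
(.lf (nat_lit 290151) (.g (nat_lit 744) (.e (nat_lit 303151) (nat_lit 27) (.e (nat_lit 335894) (nat_lit 0) (.e (nat_lit 979) (nat_lit 81) .nil))) .nil)))) (.nd (nat_lit 5) (.nd (nat_lit 6) 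
(.lf (nat_lit 290071) (.g (nat_lit 1939) (.e (nat_lit 311040) (nat_lit 25) (.e (nat_lit 319490) (nat_lit 0) (.e (nat_lit 5664) (nat_lit 312) (.e (nat_lit 2852) (nat_lit 184) .nil)))) .nil)) 
(.lf (nat_lit 290135) (.g (nat_lit 1195) (.e (nat_lit 311040) (nat_lit 25) (.e (nat_lit 319534) (nat_lit 16) (.e (nat_lit 286761) (nat_lit 13) (.e (nat_lit 393233) (nat_lit 17) .nil)))) .nil))) (.nd (nat_lit 6) 
(.lf (nat_lit 290103) (.g (nat_lit 1445) (.e (nat_lit 311040) (nat_lit 25) (.e (nat_lit 319531) (nat_lit 16) (.e (nat_lit 286748) (nat_lit 9) (.e (nat_lit 336389) (nat_lit 27) (.e (nat_lit 426172) (nat_lit 7) .nil))))) .nil)) 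
(.lf (nat_lit 290167) (.g (nat_lit 1123) (.e (nat_lit 303152) (nat_lit 27) (.e (nat_lit 336061) (nat_lit 7) (.e (nat_lit 319539) (nat_lit 19) (.e (nat_lit 319232) (nat_lit 31) .nil)))) .nil))))) (.nd (nat_lit 4) (.nd (nat_lit 5) (.nd (nat_lit 6) 
(.lf (nat_lit 290063) (.g (nat_lit 514) (.e (nat_lit 311040) (nat_lit 18) (.e (nat_lit 98372) (nat_lit 29) (.e (nat_lit 458496) (nat_lit 26) .nil))) .nil)) 
(.lf (nat_lit 290127) (.g (nat_lit 935) (.e (nat_lit 311040) (nat_lit 25) (.e (nat_lit 319533) (nat_lit 16) (.e (nat_lit 286760) (nat_lit 13) (.e (nat_lit 393260) (nat_lit 21) .nil)))) .nil))) (.nd (nat_lit 6) 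
(.lf (nat_lit 290095) (.g (nat_lit 2427) (.e (nat_lit 311040) (nat_lit 25) (.e (nat_lit 319530) (nat_lit 16) (.e (nat_lit 286761) (nat_lit 13) (.e (nat_lit 393260) (nat_lit 21) (.e (nat_lit 417536) (nat_lit 18) .nil))))) .nil)) 
(.lf (nat_lit 290159) (.g (nat_lit 1598) (.e (nat_lit 303151) (nat_lit 27) (.e (nat_lit 335996) (nat_lit 1) (.e (nat_lit 57931) (nat_lit 282) (.e (nat_lit 171776) (nat_lit 80) .nil)))) .nil)))) (.nd (nat_lit 5) (.nd (nat_lit 6) 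
(.lf (nat_lit 290079) (.g (nat_lit 1196) (.e (nat_lit 311040) (nat_lit 25) (.e (nat_lit 319530) (nat_lit 16) (.e (nat_lit 286743) (nat_lit 9) (.e (nat_lit 336421) (nat_lit 28) .nil)))) .nil)) 
(.lf (nat_lit 290143) (.g (nat_lit 4117) (.e (nat_lit 311040) (nat_lit 26) (.e (nat_lit 327708) (nat_lit 10) (.e (nat_lit 5270) (nat_lit 298) (.e (nat_lit 1420) (nat_lit 108) .nil)))) .nil))) (.nd (nat_lit 6) 
(.lf (nat_lit 290111) (.g (nat_lit 2502) (.e (nat_lit 311040) (nat_lit 25) (.e (nat_lit 319531) (nat_lit 16) (.e (nat_lit 286761) (nat_lit 13) (.e (nat_lit 393234) (nat_lit 17) (.e (nat_lit 6965) (nat_lit 377) .nil))))) .nil)) 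
(.lf (nat_lit 290175) (.g (nat_lit 3790) (.e (nat_lit 303152) (nat_lit 27) (.e (nat_lit 336227) (nat_lit 14) (.e (nat_lit 401458) (nat_lit 13) (.e (nat_lit 483350) (nat_lit 17) (.e (nat_lit 6113) (nat_lit 332) (.e (nat_lit 1374) (nat_lit 104) .nil)))))) (.g (nat_lit 0) .nil .nil))))))))))

noncomputable def tv3669 : DT := (.nd (nat_lit 0) (.nd (nat_lit 1) (.nd (nat_lit 2) (.nd (nat_lit 3) (.nd (nat_lit 4) (.nd (nat_lit 5) 
(.lf (nat_lit 290176) (.g (nat_lit 2868) (.e (nat_lit 303152) (nat_lit 27) (.e (nat_lit 336227) (nat_lit 14) (.e (nat_lit 401458) (nat_lit 13) (.e (nat_lit 483350) (nat_lit 17) (.e (nat_lit 6113) (nat_lit 332) (.e (nat_lit 1376) (nat_lit 104) .nil)))))) (.g (nat_lit 6) .nil .nil))) 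
(.lf (nat_lit 290208) (.g (nat_lit 1016) (.e (nat_lit 311040) (nat_lit 27) (.e (nat_lit 336443) (nat_lit 32) (.e (nat_lit 466979) (nat_lit 23) (.e (nat_lit 204805) (nat_lit 0) (.e (nat_lit 6973) (nat_lit 377) .nil))))) .nil))) (.nd (nat_lit 5) 
(.lf (nat_lit 290192) (.g (nat_lit 2794) (.e (nat_lit 303152) (nat_lit 27) (.e (nat_lit 336228) (nat_lit 14) (.e (nat_lit 401459) (nat_lit 13) (.e (nat_lit 483372) (nat_lit 21) (.e (nat_lit 327424) (nat_lit 18) .nil))))) (.g (nat_lit 4) .nil .nil))) 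
(.lf (nat_lit 290224) (.g (nat_lit 486) (.e (nat_lit 303154) (nat_lit 28) (.e (nat_lit 344075) (nat_lit 13) (.e (nat_lit 1378) (nat_lit 104) (.e (nat_lit 303154) (nat_lit 28) (.e (nat_lit 344075) (nat_lit 13) (.e (nat_lit 1379) (nat_lit 104) .nil)))))) (.g (nat_lit 0) .nil .nil))))) (.nd (nat_lit 4) (.nd (nat_lit 5) 
(.lf (nat_lit 290184) (.g (nat_lit 1791) (.e (nat_lit 303152) (nat_lit 27) (.e (nat_lit 336228) (nat_lit 14) (.e (nat_lit 401437) (nat_lit 9) (.e (nat_lit 426533) (nat_lit 28) (.e (nat_lit 344075) (nat_lit 13) (.e (nat_lit 1378) (nat_lit 104) .nil)))))) (.g (nat_lit 6) .nil .nil))) 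
(.lf (nat_lit 290216) (.g (nat_lit 913) (.e (nat_lit 303154) (nat_lit 28) (.e (nat_lit 344069) (nat_lit 0) (.e (nat_lit 2854) (nat_lit 184) (.e (nat_lit 426533) (nat_lit 28) (.e (nat_lit 344075) (nat_lit 13) (.e (nat_lit 1379) (nat_lit 104) .nil)))))) (.g (nat_lit 0) .nil .nil)))) (.nd (nat_lit 5) 
(.lf (nat_lit 290200) (.g (nat_lit 2598) (.e (nat_lit 311040) (nat_lit 27) (.e (nat_lit 336228) (nat_lit 14) (.e (nat_lit 401459) (nat_lit 13) (.e (nat_lit 483372) (nat_lit 21) (.e (nat_lit 327424) (nat_lit 18) .nil))))) .nil)) 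
(.lf (nat_lit 290232) (.g (nat_lit 501) (.e (nat_lit 303154) (nat_lit 28) (.e (nat_lit 344084) (nat_lit 14) (.e (nat_lit 57864) (nat_lit 256) (.e (nat_lit 300) (nat_lit 22) (.e (nat_lit 344075) (nat_lit 13) (.e (nat_lit 1379) (nat_lit 104) .nil)))))) (.g (nat_lit 0) .nil .nil)))))) (.nd (nat_lit 3) (.nd (nat_lit 4) (.nd (nat_lit 5) 
(.lf (nat_lit 290180) (.g (nat_lit 2196) (.e (nat_lit 303152) (nat_lit 27) (.e (nat_lit 336227) (nat_lit 14) (.e (nat_lit 401459) (nat_lit 13) (.e (nat_lit 483354) (nat_lit 17) (.e (nat_lit 6114) (nat_lit 332) (.e (nat_lit 1378) (nat_lit 104) .nil)))))) (.g (nat_lit 6) .nil .nil))) 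
(.lf (nat_lit 290212) (.g (nat_lit 903) (.e (nat_lit 311040) (nat_lit 27) (.e (nat_lit 336443) (nat_lit 32) (.e (nat_lit 466981) (nat_lit 23) (.e (nat_lit 204805) (nat_lit 0) .nil)))) .nil))) (.nd (nat_lit 5) 
(.lf (nat_lit 290196) (.g (nat_lit 1827) (.e (nat_lit 311040) (nat_lit 27) (.e (nat_lit 336228) (nat_lit 14) (.e (nat_lit 401459) (nat_lit 13) (.e (nat_lit 483342) (nat_lit 17) (.e (nat_lit 6113) (nat_lit 332) .nil))))) .nil)) 
(.lf (nat_lit 290228) (.g (nat_lit 619) (.e (nat_lit 303154) (nat_lit 28) (.e (nat_lit 344077) (nat_lit 13) (.e (nat_lit 1385) (nat_lit 105) (.e (nat_lit 311357) (nat_lit 28) (.e (nat_lit 344075) (nat_lit 13) (.e (nat_lit 1379) (nat_lit 104) .nil)))))) (.g (nat_lit 0) .nil .nil))))) (.nd (nat_lit 4) (.nd (nat_lit 5) 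
(.lf (nat_lit 290188) (.g (nat_lit 983) (.e (nat_lit 303152) (nat_lit 27) (.e (nat_lit 336228) (nat_lit 14) (.e (nat_lit 401459) (nat_lit 13) (.e (nat_lit 483350) (nat_lit 17) .nil)))) .nil)) 
(.lf (nat_lit 290220) (.g (nat_lit 1883) (.e (nat_lit 303154) (nat_lit 28) (.e (nat_lit 344069) (nat_lit 0) (.e (nat_lit 2857) (nat_lit 184) (.e (nat_lit 426533) (nat_lit 28) (.e (nat_lit 344075) (nat_lit 13) (.e (nat_lit 1378) (nat_lit 104) .nil)))))) (.g (nat_lit 0) .nil .nil)))) (.nd (nat_lit 5) 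
(.lf (nat_lit 290204) (.g (nat_lit 1699) (.e (nat_lit 311040) (nat_lit 27) (.e (nat_lit 336235) (nat_lit 14) (.e (nat_lit 401437) (nat_lit 9) (.e (nat_lit 426533) (nat_lit 28) (.e (nat_lit 344075) (nat_lit 13) .nil))))) .nil)) 
(.lf (nat_lit 290236) (.g (nat_lit 530) (.e (nat_lit 303154) (nat_lit 28) (.e (nat_lit 344096) (nat_lit 18) (.e (nat_lit 4761) (nat_lit 281) .nil))) .nil)))))) (.nd (nat_lit 2) (.nd (nat_lit 3) (.nd (nat_lit 4) (.nd (nat_lit 5) 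
(.lf (nat_lit 290178) (.g (nat_lit 3495) (.e (nat_lit 303152) (nat_lit 27) (.e (nat_lit 336227) (nat_lit 14) (.e (nat_lit 401459) (nat_lit 13) (.e (nat_lit 483350) (nat_lit 17) (.e (nat_lit 6113) (nat_lit 332) (.e (nat_lit 1376) (nat_lit 104) .nil)))))) (.g (nat_lit 6) .nil .nil))) 
(.lf (nat_lit 290210) (.g (nat_lit 793) (.e (nat_lit 311040) (nat_lit 27) (.e (nat_lit 336443) (nat_lit 32) (.e (nat_lit 466979) (nat_lit 23) (.e (nat_lit 212736) (nat_lit 7) .nil)))) .nil))) (.nd (nat_lit 5) 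
(.lf (nat_lit 290194) (.g (nat_lit 1966) (.e (nat_lit 303153) (nat_lit 27) (.e (nat_lit 335996) (nat_lit 1) (.e (nat_lit 57931) (nat_lit 282) (.e (nat_lit 171776) (nat_lit 80) .nil)))) .nil)) 
(.lf (nat_lit 290226) (.g (nat_lit 464) (.e (nat_lit 303154) (nat_lit 28) (.e (nat_lit 344077) (nat_lit 13) (.e (nat_lit 1383) (nat_lit 105) (.e (nat_lit 311357) (nat_lit 28) (.e (nat_lit 344075) (nat_lit 13) (.e (nat_lit 1379) (nat_lit 104) .nil)))))) (.g (nat_lit 0) .nil .nil))))) (.nd (nat_lit 4) (.nd (nat_lit 5) 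
(.lf (nat_lit 290186) (.g (nat_lit 3671) (.e (nat_lit 303152) (nat_lit 27) (.e (nat_lit 336228) (nat_lit 14) (.e (nat_lit 401458) (nat_lit 13) (.e (nat_lit 483350) (nat_lit 17) (.e (nat_lit 6113) (nat_lit 332) (.e (nat_lit 1374) (nat_lit 104) .nil)))))) (.g (nat_lit 6) .nil .nil))) 
(.lf (nat_lit 290218) (.g (nat_lit 1922) (.e (nat_lit 303154) (nat_lit 28) (.e (nat_lit 344069) (nat_lit 0) (.e (nat_lit 2856) (nat_lit 184) (.e (nat_lit 426533) (nat_lit 28) (.e (nat_lit 344075) (nat_lit 13) (.e (nat_lit 1378) (nat_lit 104) .nil)))))) (.g (nat_lit 0) .nil .nil)))) (.nd (nat_lit 5) 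
(.lf (nat_lit 290202) (.g (nat_lit 480) (.e (nat_lit 311040) (nat_lit 27) (.e (nat_lit 336235) (nat_lit 14) (.e (nat_lit 401436) (nat_lit 9) .nil))) .nil)) 
(.lf (nat_lit 290234) (.g (nat_lit 706) (.e (nat_lit 303154) (nat_lit 28) (.e (nat_lit 344085) (nat_lit 15) (.e (nat_lit 123163) (nat_lit 256) (.e (nat_lit 301) (nat_lit 22) (.e (nat_lit 344075) (nat_lit 13) (.e (nat_lit 1379) (nat_lit 104) .nil)))))) (.g (nat_lit 0) .nil .nil)))))) (.nd (nat_lit 3) (.nd (nat_lit 4) (.nd (nat_lit 5) 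
(.lf (nat_lit 290182) (.g (nat_lit 539) (.e (nat_lit 303152) (nat_lit 27) (.e (nat_lit 336228) (nat_lit 14) (.e (nat_lit 401436) (nat_lit 9) (.e (nat_lit 426533) (nat_lit 28) .nil)))) .nil)) 
(.lf (nat_lit 290214) (.g (nat_lit 2077) (.e (nat_lit 303154) (nat_lit 28) (.e (nat_lit 344068) (nat_lit 0) (.e (nat_lit 2856) (nat_lit 184) (.e (nat_lit 426533) (nat_lit 28) (.e (nat_lit 344074) (nat_lit 13) .nil))))) .nil))) (.nd (nat_lit 5) 
(.lf (nat_lit 290198) (.g (nat_lit 1488) (.e (nat_lit 311040) (nat_lit 27) (.e (nat_lit 336228) (nat_lit 14) (.e (nat_lit 401459) (nat_lit 13) (.e (nat_lit 483354) (nat_lit 17) (.e (nat_lit 6114) (nat_lit 332) .nil))))) .nil)) 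
(.lf (nat_lit 290230) (.g (nat_lit 443) (.e (nat_lit 303154) (nat_lit 28) (.e (nat_lit 344077) (nat_lit 13) (.e (nat_lit 1386) (nat_lit 105) (.e (nat_lit 319232) (nat_lit 31) .nil)))) .nil)))) (.nd (nat_lit 4) (.nd (nat_lit 5) 
(.lf (nat_lit 290190) (.g (nat_lit 1909) (.e (nat_lit 303152) (nat_lit 27) (.e (nat_lit 336228) (nat_lit 14) (.e (nat_lit 401459) (nat_lit 13) (.e (nat_lit 483354) (nat_lit 17) (.e (nat_lit 6092) (nat_lit 332) (.e (nat_lit 1376) (nat_lit 104) .nil)))))) (.g (nat_lit 5) .nil .nil))) 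
(.lf (nat_lit 290222) (.g (nat_lit 2384) (.e (nat_lit 303154) (nat_lit 28) (.e (nat_lit 344069) (nat_lit 0) (.e (nat_lit 3089) (nat_lit 191) (.e (nat_lit 483350) (nat_lit 17) (.e (nat_lit 6113) (nat_lit 332) (.e (nat_lit 1376) (nat_lit 104) .nil)))))) (.g (nat_lit 0) .nil .nil)))) (.nd (nat_lit 5) 
(.lf (nat_lit 290206) (.g (nat_lit 974) (.e (nat_lit 311040) (nat_lit 27) (.e (nat_lit 336432) (nat_lit 30) (.e (nat_lit 450580) (nat_lit 5) (.e (nat_lit 532575) (nat_lit 17) .nil)))) .nil)) 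
(.lf (nat_lit 290238) (.g (nat_lit 400) (.e (nat_lit 311040) (nat_lit 28) (.e (nat_lit 344096) (nat_lit 18) (.e (nat_lit 4761) (nat_lit 281) .nil))) .nil))))))) (.nd (nat_lit 1) (.nd (nat_lit 2) (.nd (nat_lit 3) (.nd (nat_lit 4) (.nd (nat_lit 5) 
(.lf (nat_lit 290177) (.g (nat_lit 2120) (.e (nat_lit 303152) (nat_lit 27) (.e (nat_lit 336227) (nat_lit 14) (.e (nat_lit 401459) (nat_lit 13) (.e (nat_lit 483350) (nat_lit 17) (.e (nat_lit 6113) (nat_lit 332) .nil))))) .nil)) 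
(.lf (nat_lit 290209) (.g (nat_lit 1022) (.e (nat_lit 311040) (nat_lit 27) (.e (nat_lit 336443) (nat_lit 32) (.e (nat_lit 466979) (nat_lit 23) (.e (nat_lit 204805) (nat_lit 0) (.e (nat_lit 6988) (nat_lit 377) .nil))))) .nil))) (.nd (nat_lit 5) 
(.lf (nat_lit 290193) (.g (nat_lit 1976) (.e (nat_lit 303153) (nat_lit 27) (.e (nat_lit 335996) (nat_lit 1) (.e (nat_lit 57692) (nat_lit 156) (.e (nat_lit 171776) (nat_lit 66) .nil)))) .nil)) 
(.lf (nat_lit 290225) (.g (nat_lit 430) (.e (nat_lit 303154) (nat_lit 28) (.e (nat_lit 344075) (nat_lit 13) (.e (nat_lit 1379) (nat_lit 104) (.e (nat_lit 303154) (nat_lit 28) (.e (nat_lit 344075) (nat_lit 13) (.e (nat_lit 1379) (nat_lit 104) .nil)))))) (.g (nat_lit 0) .nil .nil))))) (.nd (nat_lit 4) (.nd (nat_lit 5) 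
(.lf (nat_lit 290185) (.g (nat_lit 1637) (.e (nat_lit 303152) (nat_lit 27) (.e (nat_lit 336228) (nat_lit 14) (.e (nat_lit 401458) (nat_lit 13) (.e (nat_lit 483350) (nat_lit 17) (.e (nat_lit 6113) (nat_lit 332) .nil))))) .nil)) 
(.lf (nat_lit 290217) (.g (nat_lit 1075) (.e (nat_lit 303154) (nat_lit 28) (.e (nat_lit 344069) (nat_lit 0) (.e (nat_lit 2855) (nat_lit 184) (.e (nat_lit 426533) (nat_lit 28) (.e (nat_lit 344075) (nat_lit 13) (.e (nat_lit 1379) (nat_lit 104) .nil)))))) (.g (nat_lit 0) .nil .nil)))) (.nd (nat_lit 5) 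
(.lf (nat_lit 290201) (.g (nat_lit 386) (.e (nat_lit 311040) (nat_lit 27) (.e (nat_lit 336229) (nat_lit 14) (.e (nat_lit 401459) (nat_lit 13) .nil))) .nil)) 
(.lf (nat_lit 290233) (.g (nat_lit 453) (.e (nat_lit 303154) (nat_lit 28) (.e (nat_lit 344084) (nat_lit 14) (.e (nat_lit 57865) (nat_lit 256) (.e (nat_lit 300) (nat_lit 22) (.e (nat_lit 344075) (nat_lit 13) (.e (nat_lit 1379) (nat_lit 104) .nil)))))) (.g (nat_lit 0) .nil .nil)))))) (.nd (nat_lit 3) (.nd (nat_lit 4) (.nd (nat_lit 5) 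
(.lf (nat_lit 290181) (.g (nat_lit 3713) (.e (nat_lit 303152) (nat_lit 27) (.e (nat_lit 336227) (nat_lit 14) (.e (nat_lit 401459) (nat_lit 13) (.e (nat_lit 483372) (nat_lit 21) (.e (nat_lit 327424) (nat_lit 18) .nil))))) .nil)) 
(.lf (nat_lit 290213) (.g (nat_lit 827) (.e (nat_lit 311040) (nat_lit 27) (.e (nat_lit 336443) (nat_lit 32) (.e (nat_lit 466981) (nat_lit 23) (.e (nat_lit 212736) (nat_lit 7) .nil)))) .nil))) (.nd (nat_lit 5) 
(.lf (nat_lit 290197) (.g (nat_lit 1039) (.e (nat_lit 311040) (nat_lit 27) (.e (nat_lit 336228) (nat_lit 14) (.e (nat_lit 401459) (nat_lit 13) (.e (nat_lit 483354) (nat_lit 17) .nil)))) .nil)) 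
(.lf (nat_lit 290229) (.g (nat_lit 939) (.e (nat_lit 303154) (nat_lit 28) (.e (nat_lit 344077) (nat_lit 13) (.e (nat_lit 1386) (nat_lit 105) (.e (nat_lit 311357) (nat_lit 28) (.e (nat_lit 344075) (nat_lit 13) (.e (nat_lit 1379) (nat_lit 104) .nil)))))) (.g (nat_lit 0) .nil .nil))))) (.nd (nat_lit 4) (.nd (nat_lit 5) 
(.lf (nat_lit 290189) (.g (nat_lit 1846) (.e (nat_lit 303152) (nat_lit 27) (.e (nat_lit 336228) (nat_lit 14) (.e (nat_lit 401459) (nat_lit 13) (.e (nat_lit 483350) (nat_lit 17) (.e (nat_lit 6113) (nat_lit 332) .nil))))) .nil)) 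
(.lf (nat_lit 290221) (.g (nat_lit 1830) (.e (nat_lit 303154) (nat_lit 28) (.e (nat_lit 344069) (nat_lit 0) (.e (nat_lit 2857) (nat_lit 184) (.e (nat_lit 426533) (nat_lit 28) (.e (nat_lit 344075) (nat_lit 13) (.e (nat_lit 1379) (nat_lit 104) .nil)))))) (.g (nat_lit 0) .nil .nil)))) (.nd (nat_lit 5) 
(.lf (nat_lit 290205) (.g (nat_lit 1955) (.e (nat_lit 311040) (nat_lit 27) (.e (nat_lit 336235) (nat_lit 14) (.e (nat_lit 401438) (nat_lit 9) (.e (nat_lit 426533) (nat_lit 28) (.e (nat_lit 344074) (nat_lit 13) .nil))))) .nil)) 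
(.lf (nat_lit 290237) (.g (nat_lit 2024) (.e (nat_lit 303154) (nat_lit 28) (.e (nat_lit 344150) (nat_lit 34) (.e (nat_lit 622605) (nat_lit 5) (.e (nat_lit 1663) (nat_lit 115) (.e (nat_lit 393260) (nat_lit 21) (.e (nat_lit 409646) (nat_lit 18) .nil)))))) (.g (nat_lit 6) .nil .nil))))))) (.nd (nat_lit 2) (.nd (nat_lit 3) (.nd (nat_lit 4) (.nd (nat_lit 5) 
(.lf (nat_lit 290179) (.g (nat_lit 1453) (.e (nat_lit 303152) (nat_lit 27) (.e (nat_lit 336227) (nat_lit 14) (.e (nat_lit 401459) (nat_lit 13) (.e (nat_lit 483354) (nat_lit 17) (.e (nat_lit 6092) (nat_lit 332) .nil))))) .nil)) 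
(.lf (nat_lit 290211) (.g (nat_lit 558) (.e (nat_lit 311040) (nat_lit 27) (.e (nat_lit 336443) (nat_lit 32) (.e (nat_lit 466981) (nat_lit 23) .nil))) .nil))) (.nd (nat_lit 5) 
(.lf (nat_lit 290195) (.g (nat_lit 1445) (.e (nat_lit 303153) (nat_lit 27) (.e (nat_lit 336088) (nat_lit 9) (.e (nat_lit 336019) (nat_lit 3) (.e (nat_lit 106240) (nat_lit 15) .nil)))) .nil)) 
(.lf (nat_lit 290227) (.g (nat_lit 498) (.e (nat_lit 303154) (nat_lit 28) (.e (nat_lit 344077) (nat_lit 13) (.e (nat_lit 1384) (nat_lit 105) (.e (nat_lit 311357) (nat_lit 28) (.e (nat_lit 344075) (nat_lit 13) (.e (nat_lit 1379) (nat_lit 104) .nil)))))) (.g (nat_lit 0) .nil .nil))))) (.nd (nat_lit 4) (.nd (nat_lit 5) 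
(.lf (nat_lit 290187) (.g (nat_lit 3139) (.e (nat_lit 303152) (nat_lit 27) (.e (nat_lit 336228) (nat_lit 14) (.e (nat_lit 401459) (nat_lit 13) (.e (nat_lit 483342) (nat_lit 17) (.e (nat_lit 6113) (nat_lit 332) (.e (nat_lit 1374) (nat_lit 104) .nil)))))) (.g (nat_lit 6) .nil .nil))) 
(.lf (nat_lit 290219) (.g (nat_lit 1872) (.e (nat_lit 303154) (nat_lit 28) (.e (nat_lit 344069) (nat_lit 0) (.e (nat_lit 2856) (nat_lit 184) (.e (nat_lit 426533) (nat_lit 28) (.e (nat_lit 344075) (nat_lit 13) (.e (nat_lit 1379) (nat_lit 104) .nil)))))) (.g (nat_lit 0) .nil .nil)))) (.nd (nat_lit 5) 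
(.lf (nat_lit 290203) (.g (nat_lit 1917) (.e (nat_lit 311040) (nat_lit 27) (.e (nat_lit 336235) (nat_lit 14) (.e (nat_lit 401437) (nat_lit 9) (.e (nat_lit 426533) (nat_lit 28) (.e (nat_lit 344074) (nat_lit 13) .nil))))) .nil)) 
(.lf (nat_lit 290235) (.g (nat_lit 835) (.e (nat_lit 303154) (nat_lit 28) (.e (nat_lit 344085) (nat_lit 15) (.e (nat_lit 123165) (nat_lit 256) (.e (nat_lit 301) (nat_lit 22) (.e (nat_lit 344075) (nat_lit 13) (.e (nat_lit 1379) (nat_lit 104) .nil)))))) (.g (nat_lit 0) .nil .nil)))))) (.nd (nat_lit 3) (.nd (nat_lit 4) (.nd (nat_lit 5) 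
(.lf (nat_lit 290183) (.g (nat_lit 1654) (.e (nat_lit 303152) (nat_lit 27) (.e (nat_lit 336228) (nat_lit 14) (.e (nat_lit 401437) (nat_lit 9) (.e (nat_lit 426533) (nat_lit 28) (.e (nat_lit 344074) (nat_lit 13) (.e (nat_lit 1376) (nat_lit 104) .nil)))))) (.g (nat_lit 5) .nil .nil))) 
(.lf (nat_lit 290215) (.g (nat_lit 1975) (.e (nat_lit 303154) (nat_lit 28) (.e (nat_lit 344068) (nat_lit 0) (.e (nat_lit 2856) (nat_lit 184) (.e (nat_lit 426533) (nat_lit 28) (.e (nat_lit 344075) (nat_lit 13) .nil))))) .nil))) (.nd (nat_lit 5) 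
(.lf (nat_lit 290199) (.g (nat_lit 1297) (.e (nat_lit 311040) (nat_lit 27) (.e (nat_lit 336228) (nat_lit 14) (.e (nat_lit 401459) (nat_lit 13) (.e (nat_lit 483371) (nat_lit 21) .nil)))) .nil)) 
(.lf (nat_lit 290231) (.g (nat_lit 480) (.e (nat_lit 303154) (nat_lit 28) (.e (nat_lit 344084) (nat_lit 14) (.e (nat_lit 57862) (nat_lit 256) (.e (nat_lit 300) (nat_lit 22) (.e (nat_lit 344075) (nat_lit 13) (.e (nat_lit 1379) (nat_lit 104) .nil)))))) (.g (nat_lit 0) .nil .nil))))) (.nd (nat_lit 4) (.nd (nat_lit 5) 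
(.lf (nat_lit 290191) (.g (nat_lit 2289) (.e (nat_lit 303152) (nat_lit 27) (.e (nat_lit 336228) (nat_lit 14) (.e (nat_lit 401459) (nat_lit 13) (.e (nat_lit 483371) (nat_lit 21) (.e (nat_lit 327424) (nat_lit 18) .nil))))) .nil)) 
(.lf (nat_lit 290223) (.g (nat_lit 947) (.e (nat_lit 303154) (nat_lit 28) (.e (nat_lit 344075) (nat_lit 13) (.e (nat_lit 1374) (nat_lit 104) (.e (nat_lit 303154) (nat_lit 28) (.e (nat_lit 344075) (nat_lit 13) (.e (nat_lit 1379) (nat_lit 104) .nil)))))) (.g (nat_lit 0) .nil .nil)))) (.nd (nat_lit 5) 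
(.lf (nat_lit 290207) (.g (nat_lit 1010) (.e (nat_lit 311040) (nat_lit 27) (.e (nat_lit 336443) (nat_lit 32) (.e (nat_lit 466979) (nat_lit 23) (.e (nat_lit 204805) (nat_lit 0) (.e (nat_lit 6972) (nat_lit 377) .nil))))) .nil)) 
(.lf (nat_lit 290239) (.g (nat_lit 394) (.e (nat_lit 311040) (nat_lit 28) (.e (nat_lit 344096) (nat_lit 18) (.e (nat_lit 4764) (nat_lit 281) .nil))) .nil))))))))

noncomputable def tv3670 : DT := (.nd (nat_lit 0) (.nd (nat_lit 1) (.nd (nat_lit 2) (.nd (nat_lit 3) (.nd (nat_lit 4) (.nd (nat_lit 5) 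
(.lf (nat_lit 290240) (.g (nat_lit 1008) (.e (nat_lit 303155) (nat_lit 29) (.e (nat_lit 352264) (nat_lit 0) (.e (nat_lit 3711) (nat_lit 227) (.e (nat_lit 778322) (nat_lit 5) (.e (nat_lit 73787) (nat_lit 45) (.e (nat_lit 1374) (nat_lit 104) .nil)))))) (.g (nat_lit 0) .nil .nil))) 
(.lf (nat_lit 290272) (.g (nat_lit 1251) (.e (nat_lit 303155) (nat_lit 29) (.e (nat_lit 352287) (nat_lit 20) (.e (nat_lit 1998) (nat_lit 137) (.e (nat_lit 663554) (nat_lit 0) (.e (nat_lit 1543) (nat_lit 109) (.e (nat_lit 344075) (nat_lit 13) (.e (nat_lit 1379) (nat_lit 104) .nil))))))) (.g (nat_lit 7) .nil .nil)))) (.nd (nat_lit 5) 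
(.lf (nat_lit 290256) (.g (nat_lit 1145) (.e (nat_lit 303155) (nat_lit 29) (.e (nat_lit 352267) (nat_lit 0) (.e (nat_lit 3632) (nat_lit 227) (.e (nat_lit 778323) (nat_lit 5) .nil)))) .nil)) 
(.lf (nat_lit 290288) (.g (nat_lit 1282) (.e (nat_lit 303155) (nat_lit 29) (.e (nat_lit 352297) (nat_lit 20) (.e (nat_lit 2005) (nat_lit 138) (.e (nat_lit 671763) (nat_lit 5) (.e (nat_lit 73786) (nat_lit 45) (.e (nat_lit 1374) (nat_lit 104) .nil)))))) (.g (nat_lit 6) .nil .nil))))) (.nd (nat_lit 4) (.nd (nat_lit 5) 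
(.lf (nat_lit 290248) (.g (nat_lit 1033) (.e (nat_lit 303155) (nat_lit 29) (.e (nat_lit 352267) (nat_lit 0) (.e (nat_lit 3629) (nat_lit 227) (.e (nat_lit 778323) (nat_lit 5) (.e (nat_lit 73787) (nat_lit 45) (.e (nat_lit 1379) (nat_lit 104) .nil)))))) (.g (nat_lit 0) .nil .nil))) 
(.lf (nat_lit 290280) (.g (nat_lit 1055) (.e (nat_lit 303155) (nat_lit 29) (.e (nat_lit 352287) (nat_lit 20) (.e (nat_lit 1999) (nat_lit 137) (.e (nat_lit 663568) (nat_lit 5) (.e (nat_lit 73787) (nat_lit 45) (.e (nat_lit 1379) (nat_lit 104) .nil)))))) (.g (nat_lit 0) .nil .nil)))) (.nd (nat_lit 5) 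
(.lf (nat_lit 290264) (.g (nat_lit 805) (.e (nat_lit 303155) (nat_lit 29) (.e (nat_lit 352287) (nat_lit 20) (.e (nat_lit 1994) (nat_lit 137) (.e (nat_lit 663568) (nat_lit 5) (.e (nat_lit 73786) (nat_lit 45) .nil))))) .nil)) 
(.lf (nat_lit 290296) (.g (nat_lit 2041) (.e (nat_lit 303155) (nat_lit 29) (.e (nat_lit 352307) (nat_lit 21) (.e (nat_lit 57870) (nat_lit 264) (.e (nat_lit 1209) (nat_lit 89) (.e (nat_lit 73787) (nat_lit 45) (.e (nat_lit 1374) (nat_lit 104) .nil)))))) (.g (nat_lit 0) .nil .nil)))))) (.nd (nat_lit 3) (.nd (nat_lit 4) (.nd (nat_lit 5) 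
(.lf (nat_lit 290244) (.g (nat_lit 608) (.e (nat_lit 303155) (nat_lit 29) (.e (nat_lit 352264) (nat_lit 0) (.e (nat_lit 3715) (nat_lit 227) (.e (nat_lit 778322) (nat_lit 5) (.e (nat_lit 73787) (nat_lit 45) (.e (nat_lit 1379) (nat_lit 104) .nil)))))) (.g (nat_lit 0) .nil .nil))) 
(.lf (nat_lit 290276) (.g (nat_lit 708) (.e (nat_lit 303155) (nat_lit 29) (.e (nat_lit 352287) (nat_lit 20) (.e (nat_lit 1998) (nat_lit 137) (.e (nat_lit 663568) (nat_lit 5) (.e (nat_lit 73787) (nat_lit 45) (.e (nat_lit 1379) (nat_lit 104) .nil)))))) (.g (nat_lit 0) .nil .nil)))) (.nd (nat_lit 5) 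
(.lf (nat_lit 290260) (.g (nat_lit 1178) (.e (nat_lit 303155) (nat_lit 29) (.e (nat_lit 352267) (nat_lit 0) (.e (nat_lit 3632) (nat_lit 227) (.e (nat_lit 778324) (nat_lit 5) .nil)))) .nil)) 
(.lf (nat_lit 290292) (.g (nat_lit 1217) (.e (nat_lit 303155) (nat_lit 29) (.e (nat_lit 352297) (nat_lit 20) (.e (nat_lit 2006) (nat_lit 138) (.e (nat_lit 671763) (nat_lit 5) (.e (nat_lit 73787) (nat_lit 45) (.e (nat_lit 1374) (nat_lit 104) .nil)))))) (.g (nat_lit 0) .nil .nil))))) (.nd (nat_lit 4) (.nd (nat_lit 5) 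
(.lf (nat_lit 290252) (.g (nat_lit 1500) (.e (nat_lit 303155) (nat_lit 29) (.e (nat_lit 352267) (nat_lit 0) (.e (nat_lit 3631) (nat_lit 227) (.e (nat_lit 778323) (nat_lit 5) (.e (nat_lit 73786) (nat_lit 45) .nil))))) .nil)) 
(.lf (nat_lit 290284) (.g (nat_lit 685) (.e (nat_lit 303155) (nat_lit 29) (.e (nat_lit 352297) (nat_lit 20) (.e (nat_lit 2003) (nat_lit 138) (.e (nat_lit 671763) (nat_lit 5) (.e (nat_lit 73787) (nat_lit 45) (.e (nat_lit 1379) (nat_lit 104) .nil)))))) (.g (nat_lit 0) .nil .nil)))) (.nd (nat_lit 5) 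
(.lf (nat_lit 290268) (.g (nat_lit 685) (.e (nat_lit 303155) (nat_lit 29) (.e (nat_lit 352287) (nat_lit 20) (.e (nat_lit 1996) (nat_lit 137) (.e (nat_lit 663568) (nat_lit 5) (.e (nat_lit 73787) (nat_lit 45) (.e (nat_lit 1379) (nat_lit 104) .nil)))))) (.g (nat_lit 0) .nil .nil))) 
(.lf (nat_lit 290300) (.g (nat_lit 952) (.e (nat_lit 303155) (nat_lit 29) (.e (nat_lit 352307) (nat_lit 21) (.e (nat_lit 57871) (nat_lit 264) (.e (nat_lit 1209) (nat_lit 89) .nil)))) .nil)))))) (.nd (nat_lit 2) (.nd (nat_lit 3) (.nd (nat_lit 4) (.nd (nat_lit 5) 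
(.lf (nat_lit 290242) (.g (nat_lit 502) (.e (nat_lit 303155) (nat_lit 29) (.e (nat_lit 352264) (nat_lit 0) (.e (nat_lit 3714) (nat_lit 227) (.e (nat_lit 778322) (nat_lit 5) (.e (nat_lit 73787) (nat_lit 45) (.e (nat_lit 1379) (nat_lit 104) .nil)))))) (.g (nat_lit 0) .nil .nil))) 
(.lf (nat_lit 290274) (.g (nat_lit 1116) (.e (nat_lit 303155) (nat_lit 29) (.e (nat_lit 352287) (nat_lit 20) (.e (nat_lit 1998) (nat_lit 137) (.e (nat_lit 663568) (nat_lit 5) (.e (nat_lit 73787) (nat_lit 45) (.e (nat_lit 1374) (nat_lit 104) .nil)))))) (.g (nat_lit 0) .nil .nil)))) (.nd (nat_lit 5) 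
(.lf (nat_lit 290258) (.g (nat_lit 2462) (.e (nat_lit 303155) (nat_lit 29) (.e (nat_lit 352267) (nat_lit 0) (.e (nat_lit 3632) (nat_lit 227) (.e (nat_lit 778323) (nat_lit 5) (.e (nat_lit 73787) (nat_lit 45) (.e (nat_lit 1374) (nat_lit 104) .nil)))))) (.g (nat_lit 0) .nil .nil))) 
(.lf (nat_lit 290290) (.g (nat_lit 1028) (.e (nat_lit 303155) (nat_lit 29) (.e (nat_lit 352297) (nat_lit 20) (.e (nat_lit 2005) (nat_lit 138) (.e (nat_lit 671763) (nat_lit 5) (.e (nat_lit 73787) (nat_lit 45) (.e (nat_lit 1374) (nat_lit 104) .nil)))))) (.g (nat_lit 0) .nil .nil))))) (.nd (nat_lit 4) (.nd (nat_lit 5) 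
(.lf (nat_lit 290250) (.g (nat_lit 1019) (.e (nat_lit 303155) (nat_lit 29) (.e (nat_lit 352267) (nat_lit 0) (.e (nat_lit 3630) (nat_lit 227) (.e (nat_lit 778323) (nat_lit 5) (.e (nat_lit 73787) (nat_lit 45) (.e (nat_lit 1379) (nat_lit 104) .nil)))))) (.g (nat_lit 0) .nil .nil))) 
(.lf (nat_lit 290282) (.g (nat_lit 945) (.e (nat_lit 303155) (nat_lit 29) (.e (nat_lit 352297) (nat_lit 20) (.e (nat_lit 2003) (nat_lit 138) (.e (nat_lit 671763) (nat_lit 5) (.e (nat_lit 73786) (nat_lit 45) (.e (nat_lit 1376) (nat_lit 104) .nil)))))) (.g (nat_lit 6) .nil .nil)))) (.nd (nat_lit 5) 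
(.lf (nat_lit 290266) (.g (nat_lit 848) (.e (nat_lit 303155) (nat_lit 29) (.e (nat_lit 352287) (nat_lit 20) (.e (nat_lit 1994) (nat_lit 137) (.e (nat_lit 663568) (nat_lit 5) (.e (nat_lit 73787) (nat_lit 45) (.e (nat_lit 1378) (nat_lit 104) .nil)))))) (.g (nat_lit 0) .nil .nil))) 
(.lf (nat_lit 290298) (.g (nat_lit 1255) (.e (nat_lit 303155) (nat_lit 29) (.e (nat_lit 352307) (nat_lit 21) (.e (nat_lit 57870) (nat_lit 264) (.e (nat_lit 1211) (nat_lit 89) (.e (nat_lit 73786) (nat_lit 45) .nil))))) .nil))))) (.nd (nat_lit 3) (.nd (nat_lit 4) (.nd (nat_lit 5) 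
(.lf (nat_lit 290246) (.g (nat_lit 1023) (.e (nat_lit 303155) (nat_lit 29) (.e (nat_lit 352267) (nat_lit 0) (.e (nat_lit 3629) (nat_lit 227) (.e (nat_lit 778323) (nat_lit 5) (.e (nat_lit 73786) (nat_lit 45) .nil))))) .nil)) 
(.lf (nat_lit 290278) (.g (nat_lit 1471) (.e (nat_lit 303155) (nat_lit 29) (.e (nat_lit 352287) (nat_lit 20) (.e (nat_lit 1999) (nat_lit 137) (.e (nat_lit 663568) (nat_lit 5) (.e (nat_lit 73787) (nat_lit 45) (.e (nat_lit 1374) (nat_lit 104) .nil)))))) (.g (nat_lit 0) .nil .nil)))) (.nd (nat_lit 5) 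
(.lf (nat_lit 290262) (.g (nat_lit 196) (.e (nat_lit 303155) (nat_lit 29) (.e (nat_lit 352287) (nat_lit 20) (.e (nat_lit 977) (nat_lit 81) .nil))) .nil)) 
(.lf (nat_lit 290294) (.g (nat_lit 1779) (.e (nat_lit 303155) (nat_lit 29) (.e (nat_lit 352307) (nat_lit 21) (.e (nat_lit 57849) (nat_lit 252) (.e (nat_lit 57390) (nat_lit 5) (.e (nat_lit 114692) (nat_lit 0) (.e (nat_lit 6988) (nat_lit 377) (.e (nat_lit 1376) (nat_lit 104) .nil))))))) (.g (nat_lit 4) .nil .nil))))) (.nd (nat_lit 4) (.nd (nat_lit 5) 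
(.lf (nat_lit 290254) (.g (nat_lit 1470) (.e (nat_lit 303155) (nat_lit 29) (.e (nat_lit 352267) (nat_lit 0) (.e (nat_lit 3631) (nat_lit 227) (.e (nat_lit 778323) (nat_lit 5) (.e (nat_lit 73787) (nat_lit 45) (.e (nat_lit 1379) (nat_lit 104) .nil)))))) (.g (nat_lit 0) .nil .nil))) 
(.lf (nat_lit 290286) (.g (nat_lit 841) (.e (nat_lit 303155) (nat_lit 29) (.e (nat_lit 352297) (nat_lit 20) (.e (nat_lit 2004) (nat_lit 138) (.e (nat_lit 671763) (nat_lit 5) (.e (nat_lit 73786) (nat_lit 45) (.e (nat_lit 1376) (nat_lit 104) .nil)))))) (.g (nat_lit 6) .nil .nil)))) (.nd (nat_lit 5) 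
(.lf (nat_lit 290270) (.g (nat_lit 791) (.e (nat_lit 303155) (nat_lit 29) (.e (nat_lit 352287) (nat_lit 20) (.e (nat_lit 1998) (nat_lit 137) (.e (nat_lit 663554) (nat_lit 0) (.e (nat_lit 1413) (nat_lit 108) .nil))))) .nil)) 
(.lf (nat_lit 290302) (.g (nat_lit 1013) (.e (nat_lit 303155) (nat_lit 29) (.e (nat_lit 352307) (nat_lit 21) (.e (nat_lit 57871) (nat_lit 264) (.e (nat_lit 1210) (nat_lit 89) .nil)))) .nil))))))) (.nd (nat_lit 1) (.nd (nat_lit 2) (.nd (nat_lit 3) (.nd (nat_lit 4) (.nd (nat_lit 5) 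
(.lf (nat_lit 290241) (.g (nat_lit 601) (.e (nat_lit 303155) (nat_lit 29) (.e (nat_lit 352264) (nat_lit 0) (.e (nat_lit 3711) (nat_lit 227) (.e (nat_lit 778322) (nat_lit 5) (.e (nat_lit 73787) (nat_lit 45) (.e (nat_lit 1379) (nat_lit 104) .nil)))))) (.g (nat_lit 0) .nil .nil))) 
(.lf (nat_lit 290273) (.g (nat_lit 893) (.e (nat_lit 303155) (nat_lit 29) (.e (nat_lit 352287) (nat_lit 20) (.e (nat_lit 1998) (nat_lit 137) (.e (nat_lit 663554) (nat_lit 0) (.e (nat_lit 1549) (nat_lit 109) .nil))))) .nil))) (.nd (nat_lit 5) 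
(.lf (nat_lit 290257) (.g (nat_lit 1988) (.e (nat_lit 303155) (nat_lit 29) (.e (nat_lit 352267) (nat_lit 0) (.e (nat_lit 3632) (nat_lit 227) (.e (nat_lit 778323) (nat_lit 5) (.e (nat_lit 73786) (nat_lit 45) .nil))))) .nil)) 
(.lf (nat_lit 290289) (.g (nat_lit 853) (.e (nat_lit 303155) (nat_lit 29) (.e (nat_lit 352297) (nat_lit 20) (.e (nat_lit 2005) (nat_lit 138) (.e (nat_lit 671763) (nat_lit 5) (.e (nat_lit 73786) (nat_lit 45) (.e (nat_lit 1376) (nat_lit 104) .nil)))))) (.g (nat_lit 6) .nil .nil))))) (.nd (nat_lit 4) (.nd (nat_lit 5) 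
(.lf (nat_lit 290249) (.g (nat_lit 849) (.e (nat_lit 303155) (nat_lit 29) (.e (nat_lit 352267) (nat_lit 0) (.e (nat_lit 3629) (nat_lit 227) (.e (nat_lit 778323) (nat_lit 5) (.e (nat_lit 81664) (nat_lit 45) .nil))))) .nil)) 
(.lf (nat_lit 290281) (.g (nat_lit 1373) (.e (nat_lit 303155) (nat_lit 29) (.e (nat_lit 352297) (nat_lit 20) (.e (nat_lit 2003) (nat_lit 138) (.e (nat_lit 671763) (nat_lit 5) (.e (nat_lit 73786) (nat_lit 45) (.e (nat_lit 1374) (nat_lit 104) .nil)))))) (.g (nat_lit 6) .nil .nil)))) (.nd (nat_lit 5) 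
(.lf (nat_lit 290265) (.g (nat_lit 1232) (.e (nat_lit 303155) (nat_lit 29) (.e (nat_lit 352287) (nat_lit 20) (.e (nat_lit 1994) (nat_lit 137) (.e (nat_lit 663568) (nat_lit 5) (.e (nat_lit 73787) (nat_lit 45) (.e (nat_lit 1374) (nat_lit 104) .nil)))))) (.g (nat_lit 0) .nil .nil))) 
(.lf (nat_lit 290297) (.g (nat_lit 769) (.e (nat_lit 303155) (nat_lit 29) (.e (nat_lit 352307) (nat_lit 21) (.e (nat_lit 57870) (nat_lit 264) (.e (nat_lit 1210) (nat_lit 89) .nil)))) .nil))))) (.nd (nat_lit 3) (.nd (nat_lit 4) (.nd (nat_lit 5) 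
(.lf (nat_lit 290245) (.g (nat_lit 344) (.e (nat_lit 303155) (nat_lit 29) (.e (nat_lit 352264) (nat_lit 0) (.e (nat_lit 3716) (nat_lit 227) (.e (nat_lit 778322) (nat_lit 5) (.e (nat_lit 73787) (nat_lit 45) (.e (nat_lit 1379) (nat_lit 104) .nil)))))) (.g (nat_lit 0) .nil .nil))) 
(.lf (nat_lit 290277) (.g (nat_lit 995) (.e (nat_lit 303155) (nat_lit 29) (.e (nat_lit 352287) (nat_lit 20) (.e (nat_lit 1999) (nat_lit 137) (.e (nat_lit 663568) (nat_lit 5) (.e (nat_lit 73786) (nat_lit 45) .nil))))) .nil))) (.nd (nat_lit 5) 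
(.lf (nat_lit 290261) (.g (nat_lit 1962) (.e (nat_lit 303155) (nat_lit 29) (.e (nat_lit 352267) (nat_lit 0) (.e (nat_lit 3632) (nat_lit 227) (.e (nat_lit 778324) (nat_lit 5) (.e (nat_lit 73786) (nat_lit 45) .nil))))) .nil)) 
(.lf (nat_lit 290293) (.g (nat_lit 805) (.e (nat_lit 303155) (nat_lit 29) (.e (nat_lit 352297) (nat_lit 20) (.e (nat_lit 2006) (nat_lit 138) (.e (nat_lit 671763) (nat_lit 5) (.e (nat_lit 73787) (nat_lit 45) (.e (nat_lit 1379) (nat_lit 104) .nil)))))) (.g (nat_lit 0) .nil .nil))))) (.nd (nat_lit 4) (.nd (nat_lit 5) 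
(.lf (nat_lit 290253) (.g (nat_lit 1876) (.e (nat_lit 303155) (nat_lit 29) (.e (nat_lit 352267) (nat_lit 0) (.e (nat_lit 3631) (nat_lit 227) (.e (nat_lit 778323) (nat_lit 5) (.e (nat_lit 73787) (nat_lit 45) (.e (nat_lit 1374) (nat_lit 104) .nil)))))) (.g (nat_lit 0) .nil .nil))) 
(.lf (nat_lit 290285) (.g (nat_lit 1270) (.e (nat_lit 303155) (nat_lit 29) (.e (nat_lit 352297) (nat_lit 20) (.e (nat_lit 2004) (nat_lit 138) (.e (nat_lit 671763) (nat_lit 5) (.e (nat_lit 73786) (nat_lit 45) (.e (nat_lit 1374) (nat_lit 104) .nil)))))) (.g (nat_lit 6) .nil .nil)))) (.nd (nat_lit 5) 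
(.lf (nat_lit 290269) (.g (nat_lit 159) (.e (nat_lit 303155) (nat_lit 29) (.e (nat_lit 352287) (nat_lit 20) (.e (nat_lit 1998) (nat_lit 137) .nil))) .nil)) 
(.lf (nat_lit 290301) (.g (nat_lit 1847) (.e (nat_lit 303155) (nat_lit 29) (.e (nat_lit 352307) (nat_lit 21) (.e (nat_lit 57871) (nat_lit 264) (.e (nat_lit 1209) (nat_lit 89) (.e (nat_lit 73786) (nat_lit 45) .nil))))) .nil)))))) (.nd (nat_lit 2) (.nd (nat_lit 3) (.nd (nat_lit 4) (.nd (nat_lit 5) 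
(.lf (nat_lit 290243) (.g (nat_lit 1023) (.e (nat_lit 303155) (nat_lit 29) (.e (nat_lit 352264) (nat_lit 0) (.e (nat_lit 3715) (nat_lit 227) (.e (nat_lit 778322) (nat_lit 5) (.e (nat_lit 73787) (nat_lit 45) (.e (nat_lit 1374) (nat_lit 104) .nil)))))) (.g (nat_lit 0) .nil .nil))) 
(.lf (nat_lit 290275) (.g (nat_lit 739) (.e (nat_lit 303155) (nat_lit 29) (.e (nat_lit 352287) (nat_lit 20) (.e (nat_lit 1998) (nat_lit 137) (.e (nat_lit 663568) (nat_lit 5) (.e (nat_lit 73787) (nat_lit 45) (.e (nat_lit 1378) (nat_lit 104) .nil)))))) (.g (nat_lit 0) .nil .nil)))) (.nd (nat_lit 5) 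
(.lf (nat_lit 290259) (.g (nat_lit 2055) (.e (nat_lit 303155) (nat_lit 29) (.e (nat_lit 352267) (nat_lit 0) (.e (nat_lit 3632) (nat_lit 227) (.e (nat_lit 778323) (nat_lit 5) (.e (nat_lit 73787) (nat_lit 45) (.e (nat_lit 1379) (nat_lit 104) .nil)))))) (.g (nat_lit 0) .nil .nil))) 
(.lf (nat_lit 290291) (.g (nat_lit 615) (.e (nat_lit 303155) (nat_lit 29) (.e (nat_lit 352297) (nat_lit 20) (.e (nat_lit 2005) (nat_lit 138) (.e (nat_lit 671763) (nat_lit 5) (.e (nat_lit 73787) (nat_lit 45) (.e (nat_lit 1379) (nat_lit 104) .nil)))))) (.g (nat_lit 0) .nil .nil))))) (.nd (nat_lit 4) (.nd (nat_lit 5) 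
(.lf (nat_lit 290251) (.g (nat_lit 801) (.e (nat_lit 303155) (nat_lit 29) (.e (nat_lit 352267) (nat_lit 0) (.e (nat_lit 3631) (nat_lit 227) (.e (nat_lit 778323) (nat_lit 5) .nil)))) .nil)) 
(.lf (nat_lit 290283) (.g (nat_lit 1101) (.e (nat_lit 303155) (nat_lit 29) (.e (nat_lit 352297) (nat_lit 20) (.e (nat_lit 2003) (nat_lit 138) (.e (nat_lit 671763) (nat_lit 5) (.e (nat_lit 73787) (nat_lit 45) (.e (nat_lit 1374) (nat_lit 104) .nil)))))) (.g (nat_lit 0) .nil .nil)))) (.nd (nat_lit 5) 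
(.lf (nat_lit 290267) (.g (nat_lit 817) (.e (nat_lit 303155) (nat_lit 29) (.e (nat_lit 352287) (nat_lit 20) (.e (nat_lit 1994) (nat_lit 137) (.e (nat_lit 663568) (nat_lit 5) (.e (nat_lit 73787) (nat_lit 45) (.e (nat_lit 1379) (nat_lit 104) .nil)))))) (.g (nat_lit 0) .nil .nil))) 
(.lf (nat_lit 290299) (.g (nat_lit 1192) (.e (nat_lit 303155) (nat_lit 29) (.e (nat_lit 352307) (nat_lit 21) (.e (nat_lit 57870) (nat_lit 264) (.e (nat_lit 1211) (nat_lit 89) (.e (nat_lit 73787) (nat_lit 45) .nil))))) .nil))))) (.nd (nat_lit 3) (.nd (nat_lit 4) (.nd (nat_lit 5) 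
(.lf (nat_lit 290247) (.g (nat_lit 1438) (.e (nat_lit 303155) (nat_lit 29) (.e (nat_lit 352267) (nat_lit 0) (.e (nat_lit 3629) (nat_lit 227) (.e (nat_lit 778323) (nat_lit 5) (.e (nat_lit 73787) (nat_lit 45) (.e (nat_lit 1374) (nat_lit 104) .nil)))))) (.g (nat_lit 0) .nil .nil))) 
(.lf (nat_lit 290279) (.g (nat_lit 1092) (.e (nat_lit 303155) (nat_lit 29) (.e (nat_lit 352287) (nat_lit 20) (.e (nat_lit 1999) (nat_lit 137) (.e (nat_lit 663568) (nat_lit 5) (.e (nat_lit 73787) (nat_lit 45) (.e (nat_lit 1378) (nat_lit 104) .nil)))))) (.g (nat_lit 0) .nil .nil)))) (.nd (nat_lit 5) 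
(.lf (nat_lit 290263) (.g (nat_lit 196) (.e (nat_lit 303155) (nat_lit 29) (.e (nat_lit 352287) (nat_lit 20) (.e (nat_lit 1076) (nat_lit 81) .nil))) .nil)) 
(.lf (nat_lit 290295) (.g (nat_lit 1521) (.e (nat_lit 303155) (nat_lit 29) (.e (nat_lit 352307) (nat_lit 21) (.e (nat_lit 57870) (nat_lit 264) (.e (nat_lit 1209) (nat_lit 89) (.e (nat_lit 73786) (nat_lit 45) .nil))))) .nil)))) (.nd (nat_lit 4) (.nd (nat_lit 5) 
(.lf (nat_lit 290255) (.g (nat_lit 1177) (.e (nat_lit 303155) (nat_lit 29) (.e (nat_lit 352267) (nat_lit 0) (.e (nat_lit 3631) (nat_lit 227) (.e (nat_lit 778323) (nat_lit 5) (.e (nat_lit 81664) (nat_lit 45) .nil))))) .nil)) 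
(.lf (nat_lit 290287) (.g (nat_lit 585) (.e (nat_lit 303155) (nat_lit 29) (.e (nat_lit 352297) (nat_lit 20) (.e (nat_lit 2004) (nat_lit 138) (.e (nat_lit 671763) (nat_lit 5) (.e (nat_lit 73787) (nat_lit 45) (.e (nat_lit 1379) (nat_lit 104) .nil)))))) (.g (nat_lit 0) .nil .nil)))) (.nd (nat_lit 5) 
(.lf (nat_lit 290271) (.g (nat_lit 1290) (.e (nat_lit 303155) (nat_lit 29) (.e (nat_lit 352287) (nat_lit 20) (.e (nat_lit 1998) (nat_lit 137) (.e (nat_lit 663554) (nat_lit 0) (.e (nat_lit 1543) (nat_lit 109) (.e (nat_lit 344075) (nat_lit 13) (.e (nat_lit 1378) (nat_lit 104) .nil))))))) (.g (nat_lit 7) .nil .nil))) 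
(.lf (nat_lit 290303) (.g (nat_lit 1023) (.e (nat_lit 303155) (nat_lit 29) (.e (nat_lit 352307) (nat_lit 21) (.e (nat_lit 57871) (nat_lit 264) (.e (nat_lit 1211) (nat_lit 89) .nil)))) .nil))))))))

noncomputable def tv3671 : DT := (.nd (nat_lit 0) (.nd (nat_lit 1) (.nd (nat_lit 2) (.nd (nat_lit 3) (.nd (nat_lit 4) (.nd (nat_lit 5) (.nd (nat_lit 6) 
(.lf (nat_lit 290304) (.g (nat_lit 921) (.e (nat_lit 303155) (nat_lit 29) (.e (nat_lit 352307) (nat_lit 21) (.e (nat_lit 57872) (nat_lit 264) (.e (nat_lit 1209) (nat_lit 89) .nil)))) .nil)) 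
(.lf (nat_lit 290368) (.g (nat_lit 1636) (.e (nat_lit 311040) (nat_lit 30) (.e (nat_lit 360452) (nat_lit 0) (.e (nat_lit 5907) (nat_lit 320) (.e (nat_lit 1211) (nat_lit 89) (.e (nat_lit 73786) (nat_lit 45) .nil))))) .nil))) (.nd (nat_lit 6) 
(.lf (nat_lit 290336) (.g (nat_lit 474) (.e (nat_lit 303155) (nat_lit 29) (.e (nat_lit 352316) (nat_lit 24) (.e (nat_lit 123195) (nat_lit 266) .nil))) .nil)) 
(.lf (nat_lit 290400) (.g (nat_lit 852) (.e (nat_lit 311040) (nat_lit 34) (.e (nat_lit 393268) (nat_lit 23) (.e (nat_lit 426432) (nat_lit 17) (.e (nat_lit 90203) (nat_lit 21) .nil)))) .nil)))) (.nd (nat_lit 5) (.nd (nat_lit 6) 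
(.lf (nat_lit 290320) (.g (nat_lit 1933) (.e (nat_lit 303155) (nat_lit 29) (.e (nat_lit 352309) (nat_lit 21) (.e (nat_lit 57872) (nat_lit 264) (.e (nat_lit 1211) (nat_lit 89) (.e (nat_lit 73786) (nat_lit 45) .nil))))) .nil)) 
(.lf (nat_lit 290384) (.g (nat_lit 1870) (.e (nat_lit 311040) (nat_lit 30) (.e (nat_lit 360486) (nat_lit 18) (.e (nat_lit 671762) (nat_lit 4) (.e (nat_lit 65539) (nat_lit 0) (.e (nat_lit 6113) (nat_lit 332) .nil))))) .nil))) (.nd (nat_lit 6) 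
(.lf (nat_lit 290352) (.g (nat_lit 1826) (.e (nat_lit 303155) (nat_lit 29) (.e (nat_lit 352318) (nat_lit 24) (.e (nat_lit 123184) (nat_lit 264) (.e (nat_lit 1214) (nat_lit 89) (.e (nat_lit 73786) (nat_lit 45) .nil))))) .nil)) 
(.lf (nat_lit 290416) (.g (nat_lit 362) (.e (nat_lit 311040) (nat_lit 34) (.e (nat_lit 393281) (nat_lit 23) (.e (nat_lit 426115) (nat_lit 2) .nil))) .nil))))) (.nd (nat_lit 4) (.nd (nat_lit 5) (.nd (nat_lit 6) 
(.lf (nat_lit 290312) (.g (nat_lit 2171) (.e (nat_lit 303155) (nat_lit 29) (.e (nat_lit 352307) (nat_lit 21) (.e (nat_lit 57873) (nat_lit 264) (.e (nat_lit 1211) (nat_lit 89) (.e (nat_lit 73787) (nat_lit 45) (.e (nat_lit 1379) (nat_lit 104) .nil)))))) (.g (nat_lit 6) .nil .nil))) 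
(.lf (nat_lit 290376) (.g (nat_lit 669) (.e (nat_lit 311040) (nat_lit 30) (.e (nat_lit 360473) (nat_lit 8) (.e (nat_lit 557058) (nat_lit 0) .nil))) .nil))) (.nd (nat_lit 6) 
(.lf (nat_lit 290344) (.g (nat_lit 937) (.e (nat_lit 303155) (nat_lit 29) (.e (nat_lit 352316) (nat_lit 24) (.e (nat_lit 123198) (nat_lit 266) (.e (nat_lit 57420) (nat_lit 13) (.e (nat_lit 344075) (nat_lit 13) .nil))))) .nil)) 
(.lf (nat_lit 290408) (.g (nat_lit 902) (.e (nat_lit 311040) (nat_lit 34) (.e (nat_lit 393272) (nat_lit 23) (.e (nat_lit 426131) (nat_lit 3) (.e (nat_lit 212736) (nat_lit 7) .nil)))) .nil)))) (.nd (nat_lit 5) (.nd (nat_lit 6) 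
(.lf (nat_lit 290328) (.g (nat_lit 1680) (.e (nat_lit 303155) (nat_lit 29) (.e (nat_lit 352316) (nat_lit 24) (.e (nat_lit 123182) (nat_lit 264) (.e (nat_lit 1212) (nat_lit 89) (.e (nat_lit 73787) (nat_lit 45) (.e (nat_lit 1379) (nat_lit 104) .nil)))))) (.g (nat_lit 0) .nil .nil))) 
(.lf (nat_lit 290392) (.g (nat_lit 485) (.e (nat_lit 311040) (nat_lit 31) (.e (nat_lit 368656) (nat_lit 14) (.e (nat_lit 57862) (nat_lit 256) (.e (nat_lit 300) (nat_lit 22) (.e (nat_lit 344075) (nat_lit 13) .nil))))) .nil))) (.nd (nat_lit 6) 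
(.lf (nat_lit 290360) (.g (nat_lit 1076) (.e (nat_lit 303155) (nat_lit 29) (.e (nat_lit 352318) (nat_lit 24) (.e (nat_lit 123198) (nat_lit 266) (.e (nat_lit 57412) (nat_lit 12) .nil)))) .nil)) 
(.lf (nat_lit 290424) (.g (nat_lit 785) (.e (nat_lit 311040) (nat_lit 34) (.e (nat_lit 393287) (nat_lit 25) (.e (nat_lit 458789) (nat_lit 23) (.e (nat_lit 532575) (nat_lit 17) .nil)))) .nil)))))) (.nd (nat_lit 3) (.nd (nat_lit 4) (.nd (nat_lit 5) (.nd (nat_lit 6) 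
(.lf (nat_lit 290308) (.g (nat_lit 1410) (.e (nat_lit 303155) (nat_lit 29) (.e (nat_lit 352307) (nat_lit 21) (.e (nat_lit 57872) (nat_lit 264) (.e (nat_lit 1211) (nat_lit 89) (.e (nat_lit 73787) (nat_lit 45) .nil))))) .nil)) 
(.lf (nat_lit 290372) (.g (nat_lit 1653) (.e (nat_lit 311040) (nat_lit 30) (.e (nat_lit 360453) (nat_lit 0) (.e (nat_lit 5907) (nat_lit 320) (.e (nat_lit 1211) (nat_lit 89) (.e (nat_lit 73786) (nat_lit 45) .nil))))) .nil))) (.nd (nat_lit 6) 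
(.lf (nat_lit 290340) (.g (nat_lit 1502) (.e (nat_lit 303155) (nat_lit 29) (.e (nat_lit 352316) (nat_lit 24) (.e (nat_lit 123197) (nat_lit 266) (.e (nat_lit 57420) (nat_lit 13) (.e (nat_lit 344075) (nat_lit 13) .nil))))) .nil)) 
(.lf (nat_lit 290404) (.g (nat_lit 1626) (.e (nat_lit 311040) (nat_lit 34) (.e (nat_lit 393271) (nat_lit 23) (.e (nat_lit 426131) (nat_lit 3) (.e (nat_lit 204805) (nat_lit 0) (.e (nat_lit 6988) (nat_lit 377) .nil))))) .nil)))) (.nd (nat_lit 5) (.nd (nat_lit 6) 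
(.lf (nat_lit 290324) (.g (nat_lit 294) (.e (nat_lit 303155) (nat_lit 29) (.e (nat_lit 352313) (nat_lit 23) (.e (nat_lit 106240) (nat_lit 15) .nil))) .nil)) 
(.lf (nat_lit 290388) (.g (nat_lit 621) (.e (nat_lit 311040) (nat_lit 31) (.e (nat_lit 368643) (nat_lit 0) (.e (nat_lit 2940) (nat_lit 184) (.e (nat_lit 426532) (nat_lit 28) (.e (nat_lit 344075) (nat_lit 13) .nil))))) .nil))) (.nd (nat_lit 6) 
(.lf (nat_lit 290356) (.g (nat_lit 1361) (.e (nat_lit 303155) (nat_lit 29) (.e (nat_lit 352318) (nat_lit 24) (.e (nat_lit 123197) (nat_lit 266) (.e (nat_lit 57412) (nat_lit 12) .nil)))) .nil)) 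
(.lf (nat_lit 290420) (.g (nat_lit 1171) (.e (nat_lit 311040) (nat_lit 34) (.e (nat_lit 393283) (nat_lit 24) (.e (nat_lit 434231) (nat_lit 23) (.e (nat_lit 540416) (nat_lit 24) .nil)))) .nil))))) (.nd (nat_lit 4) (.nd (nat_lit 5) (.nd (nat_lit 6) 
(.lf (nat_lit 290316) (.g (nat_lit 621) (.e (nat_lit 303155) (nat_lit 29) (.e (nat_lit 352309) (nat_lit 21) (.e (nat_lit 57872) (nat_lit 264) .nil))) .nil)) 
(.lf (nat_lit 290380) (.g (nat_lit 2383) (.e (nat_lit 311040) (nat_lit 30) (.e (nat_lit 360474) (nat_lit 8) (.e (nat_lit 557060) (nat_lit 0) (.e (nat_lit 1633) (nat_lit 114) (.e (nat_lit 385111) (nat_lit 53) .nil))))) .nil))) (.nd (nat_lit 6) 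
(.lf (nat_lit 290348) (.g (nat_lit 2200) (.e (nat_lit 303155) (nat_lit 29) (.e (nat_lit 352318) (nat_lit 24) (.e (nat_lit 123182) (nat_lit 264) (.e (nat_lit 1214) (nat_lit 89) (.e (nat_lit 73786) (nat_lit 45) .nil))))) .nil)) 
(.lf (nat_lit 290412) (.g (nat_lit 537) (.e (nat_lit 311040) (nat_lit 34) (.e (nat_lit 393273) (nat_lit 23) (.e (nat_lit 433920) (nat_lit 3) .nil))) .nil)))) (.nd (nat_lit 5) (.nd (nat_lit 6) 
(.lf (nat_lit 290332) (.g (nat_lit 1442) (.e (nat_lit 303155) (nat_lit 29) (.e (nat_lit 352316) (nat_lit 24) (.e (nat_lit 123184) (nat_lit 264) (.e (nat_lit 1212) (nat_lit 89) (.e (nat_lit 73786) (nat_lit 45) .nil))))) .nil)) 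
(.lf (nat_lit 290396) (.g (nat_lit 383) (.e (nat_lit 311040) (nat_lit 32) (.e (nat_lit 376859) (nat_lit 21) (.e (nat_lit 57872) (nat_lit 264) .nil))) .nil))) (.nd (nat_lit 6) 
(.lf (nat_lit 290364) (.g (nat_lit 1194) (.e (nat_lit 311040) (nat_lit 30) (.e (nat_lit 360452) (nat_lit 0) (.e (nat_lit 5905) (nat_lit 320) (.e (nat_lit 1211) (nat_lit 89) .nil)))) .nil)) 
(.lf (nat_lit 290428) (.g (nat_lit 157) (.e (nat_lit 311040) (nat_lit 34) (.e (nat_lit 393289) (nat_lit 25) (.e (nat_lit 458788) (nat_lit 23) .nil))) .nil))))))) (.nd (nat_lit 2) (.nd (nat_lit 3) (.nd (nat_lit 4) (.nd (nat_lit 5) (.nd (nat_lit 6) 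
(.lf (nat_lit 290306) (.g (nat_lit 960) (.e (nat_lit 303155) (nat_lit 29) (.e (nat_lit 352307) (nat_lit 21) (.e (nat_lit 57872) (nat_lit 264) (.e (nat_lit 1211) (nat_lit 89) .nil)))) .nil)) 
(.lf (nat_lit 290370) (.g (nat_lit 1678) (.e (nat_lit 311040) (nat_lit 30) (.e (nat_lit 360453) (nat_lit 0) (.e (nat_lit 5907) (nat_lit 320) (.e (nat_lit 1209) (nat_lit 89) (.e (nat_lit 73787) (nat_lit 45) .nil))))) .nil))) (.nd (nat_lit 6) 
(.lf (nat_lit 290338) (.g (nat_lit 590) (.e (nat_lit 303155) (nat_lit 29) (.e (nat_lit 352316) (nat_lit 24) (.e (nat_lit 123197) (nat_lit 266) .nil))) .nil)) 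
(.lf (nat_lit 290402) (.g (nat_lit 1898) (.e (nat_lit 311040) (nat_lit 34) (.e (nat_lit 393271) (nat_lit 23) (.e (nat_lit 426131) (nat_lit 3) (.e (nat_lit 204804) (nat_lit 0) .nil)))) .nil)))) (.nd (nat_lit 5) (.nd (nat_lit 6) 
(.lf (nat_lit 290322) (.g (nat_lit 1949) (.e (nat_lit 303155) (nat_lit 29) (.e (nat_lit 352309) (nat_lit 21) (.e (nat_lit 57873) (nat_lit 264) (.e (nat_lit 1209) (nat_lit 89) .nil)))) .nil)) 
(.lf (nat_lit 290386) (.g (nat_lit 344) (.e (nat_lit 311040) (nat_lit 30) (.e (nat_lit 360486) (nat_lit 18) (.e (nat_lit 671763) (nat_lit 5) .nil))) .nil))) (.nd (nat_lit 6) 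
(.lf (nat_lit 290354) (.g (nat_lit 1043) (.e (nat_lit 303155) (nat_lit 29) (.e (nat_lit 352318) (nat_lit 24) (.e (nat_lit 123185) (nat_lit 264) (.e (nat_lit 1214) (nat_lit 89) .nil)))) .nil)) 
(.lf (nat_lit 290418) (.g (nat_lit 1368) (.e (nat_lit 311040) (nat_lit 34) (.e (nat_lit 393281) (nat_lit 23) (.e (nat_lit 426133) (nat_lit 3) (.e (nat_lit 204805) (nat_lit 0) (.e (nat_lit 6988) (nat_lit 377) .nil))))) .nil))))) (.nd (nat_lit 4) (.nd (nat_lit 5) (.nd (nat_lit 6) 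
(.lf (nat_lit 290314) (.g (nat_lit 1646) (.e (nat_lit 303155) (nat_lit 29) (.e (nat_lit 352309) (nat_lit 21) (.e (nat_lit 57870) (nat_lit 264) (.e (nat_lit 1209) (nat_lit 89) (.e (nat_lit 73787) (nat_lit 45) .nil))))) .nil)) 
(.lf (nat_lit 290378) (.g (nat_lit 1651) (.e (nat_lit 311040) (nat_lit 30) (.e (nat_lit 360474) (nat_lit 8) (.e (nat_lit 557058) (nat_lit 0) (.e (nat_lit 1633) (nat_lit 114) .nil)))) .nil))) (.nd (nat_lit 6) 
(.lf (nat_lit 290346) (.g (nat_lit 1749) (.e (nat_lit 303155) (nat_lit 29) (.e (nat_lit 352318) (nat_lit 24) (.e (nat_lit 123182) (nat_lit 264) (.e (nat_lit 1212) (nat_lit 89) (.e (nat_lit 73786) (nat_lit 45) .nil))))) .nil)) 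
(.lf (nat_lit 290410) (.g (nat_lit 1566) (.e (nat_lit 311040) (nat_lit 34) (.e (nat_lit 393273) (nat_lit 23) (.e (nat_lit 426131) (nat_lit 3) (.e (nat_lit 204805) (nat_lit 0) (.e (nat_lit 6988) (nat_lit 377) .nil))))) .nil)))) (.nd (nat_lit 5) (.nd (nat_lit 6) 
(.lf (nat_lit 290330) (.g (nat_lit 1896) (.e (nat_lit 303155) (nat_lit 29) (.e (nat_lit 352316) (nat_lit 24) (.e (nat_lit 123182) (nat_lit 264) (.e (nat_lit 1214) (nat_lit 89) (.e (nat_lit 73786) (nat_lit 45) .nil))))) .nil)) 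
(.lf (nat_lit 290394) (.g (nat_lit 445) (.e (nat_lit 311040) (nat_lit 32) (.e (nat_lit 376859) (nat_lit 21) (.e (nat_lit 57870) (nat_lit 264) .nil))) .nil))) (.nd (nat_lit 6) 
(.lf (nat_lit 290362) (.g (nat_lit 973) (.e (nat_lit 311040) (nat_lit 29) (.e (nat_lit 352318) (nat_lit 24) (.e (nat_lit 123183) (nat_lit 264) (.e (nat_lit 1212) (nat_lit 89) .nil)))) .nil)) 
(.lf (nat_lit 290426) (.g (nat_lit 1291) (.e (nat_lit 311040) (nat_lit 34) (.e (nat_lit 393287) (nat_lit 25) (.e (nat_lit 458789) (nat_lit 23) (.e (nat_lit 532575) (nat_lit 17) (.e (nat_lit 6973) (nat_lit 377) .nil))))) .nil)))))) (.nd (nat_lit 3) (.nd (nat_lit 4) (.nd (nat_lit 5) (.nd (nat_lit 6) 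
(.lf (nat_lit 290310) (.g (nat_lit 1535) (.e (nat_lit 303155) (nat_lit 29) (.e (nat_lit 352307) (nat_lit 21) (.e (nat_lit 57873) (nat_lit 264) (.e (nat_lit 1210) (nat_lit 89) .nil)))) .nil)) 
(.lf (nat_lit 290374) (.g (nat_lit 784) (.e (nat_lit 311040) (nat_lit 30) (.e (nat_lit 360456) (nat_lit 0) (.e (nat_lit 5949) (nat_lit 322) (.e (nat_lit 57420) (nat_lit 13) (.e (nat_lit 344075) (nat_lit 13) .nil))))) .nil))) (.nd (nat_lit 6) 
(.lf (nat_lit 290342) (.g (nat_lit 437) (.e (nat_lit 303155) (nat_lit 29) (.e (nat_lit 352316) (nat_lit 24) (.e (nat_lit 123198) (nat_lit 266) .nil))) .nil)) 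
(.lf (nat_lit 290406) (.g (nat_lit 940) (.e (nat_lit 311040) (nat_lit 34) (.e (nat_lit 393272) (nat_lit 23) (.e (nat_lit 426131) (nat_lit 3) (.e (nat_lit 204805) (nat_lit 0) .nil)))) .nil)))) (.nd (nat_lit 5) (.nd (nat_lit 6) 
(.lf (nat_lit 290326) (.g (nat_lit 1552) (.e (nat_lit 303155) (nat_lit 29) (.e (nat_lit 352316) (nat_lit 24) (.e (nat_lit 123182) (nat_lit 264) (.e (nat_lit 1212) (nat_lit 89) (.e (nat_lit 73786) (nat_lit 45) .nil))))) .nil)) 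
(.lf (nat_lit 290390) (.g (nat_lit 360) (.e (nat_lit 311040) (nat_lit 31) (.e (nat_lit 368648) (nat_lit 13) (.e (nat_lit 1376) (nat_lit 104) (.e (nat_lit 303154) (nat_lit 28) (.e (nat_lit 344075) (nat_lit 13) .nil))))) .nil))) (.nd (nat_lit 6) 
(.lf (nat_lit 290358) (.g (nat_lit 1363) (.e (nat_lit 303155) (nat_lit 29) (.e (nat_lit 352318) (nat_lit 24) (.e (nat_lit 123197) (nat_lit 266) (.e (nat_lit 57421) (nat_lit 13) .nil)))) .nil)) 
(.lf (nat_lit 290422) (.g (nat_lit 1189) (.e (nat_lit 311040) (nat_lit 34) (.e (nat_lit 393286) (nat_lit 25) (.e (nat_lit 458789) (nat_lit 23) (.e (nat_lit 532575) (nat_lit 17) (.e (nat_lit 6972) (nat_lit 377) .nil))))) .nil))))) (.nd (nat_lit 4) (.nd (nat_lit 5) (.nd (nat_lit 6) 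
(.lf (nat_lit 290318) (.g (nat_lit 2357) (.e (nat_lit 303155) (nat_lit 29) (.e (nat_lit 352309) (nat_lit 21) (.e (nat_lit 57872) (nat_lit 264) (.e (nat_lit 1209) (nat_lit 89) (.e (nat_lit 73786) (nat_lit 45) .nil))))) .nil)) 
(.lf (nat_lit 290382) (.g (nat_lit 1650) (.e (nat_lit 311040) (nat_lit 30) (.e (nat_lit 360475) (nat_lit 8) (.e (nat_lit 557057) (nat_lit 0) (.e (nat_lit 1638) (nat_lit 114) (.e (nat_lit 385114) (nat_lit 53) .nil))))) .nil))) (.nd (nat_lit 6) 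
(.lf (nat_lit 290350) (.g (nat_lit 1582) (.e (nat_lit 303155) (nat_lit 29) (.e (nat_lit 352318) (nat_lit 24) (.e (nat_lit 123183) (nat_lit 264) (.e (nat_lit 1212) (nat_lit 89) (.e (nat_lit 73786) (nat_lit 45) .nil))))) .nil)) 
(.lf (nat_lit 290414) (.g (nat_lit 1234) (.e (nat_lit 311040) (nat_lit 34) (.e (nat_lit 393273) (nat_lit 23) (.e (nat_lit 426432) (nat_lit 17) (.e (nat_lit 90203) (nat_lit 21) .nil)))) .nil)))) (.nd (nat_lit 5) (.nd (nat_lit 6) 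
(.lf (nat_lit 290334) (.g (nat_lit 371) (.e (nat_lit 303155) (nat_lit 29) (.e (nat_lit 352316) (nat_lit 24) (.e (nat_lit 123185) (nat_lit 264) .nil))) .nil)) 
(.lf (nat_lit 290398) (.g (nat_lit 513) (.e (nat_lit 311040) (nat_lit 34) (.e (nat_lit 393232) (nat_lit 17) (.e (nat_lit 7581) (nat_lit 405) .nil))) .nil))) (.nd (nat_lit 6) 
(.lf (nat_lit 290366) (.g (nat_lit 1638) (.e (nat_lit 311040) (nat_lit 30) (.e (nat_lit 360452) (nat_lit 0) (.e (nat_lit 5907) (nat_lit 320) (.e (nat_lit 1209) (nat_lit 89) (.e (nat_lit 73787) (nat_lit 45) .nil))))) .nil)) 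
(.lf (nat_lit 290430) (.g (nat_lit 1216) (.e (nat_lit 311040) (nat_lit 34) (.e (nat_lit 393291) (nat_lit 26) (.e (nat_lit 475169) (nat_lit 22) (.e (nat_lit 499791) (nat_lit 3) .nil)))) .nil)))))))) (.nd (nat_lit 1) (.nd (nat_lit 2) (.nd (nat_lit 3) (.nd (nat_lit 4) (.nd (nat_lit 5) (.nd (nat_lit 6) 
(.lf (nat_lit 290305) (.g (nat_lit 1852) (.e (nat_lit 303155) (nat_lit 29) (.e (nat_lit 352307) (nat_lit 21) (.e (nat_lit 57872) (nat_lit 264) (.e (nat_lit 1209) (nat_lit 89) (.e (nat_lit 73786) (nat_lit 45) .nil))))) .nil)) 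
(.lf (nat_lit 290369) (.g (nat_lit 1672) (.e (nat_lit 311040) (nat_lit 30) (.e (nat_lit 360452) (nat_lit 0) (.e (nat_lit 5907) (nat_lit 320) (.e (nat_lit 1211) (nat_lit 89) (.e (nat_lit 73787) (nat_lit 45) .nil))))) .nil))) (.nd (nat_lit 6) 
(.lf (nat_lit 290337) (.g (nat_lit 2805) (.e (nat_lit 303155) (nat_lit 29) (.e (nat_lit 352316) (nat_lit 24) (.e (nat_lit 123195) (nat_lit 266) (.e (nat_lit 57412) (nat_lit 12) (.e (nat_lit 336061) (nat_lit 7) (.e (nat_lit 327424) (nat_lit 18) .nil)))))) (.g (nat_lit 5) .nil .nil))) 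
(.lf (nat_lit 290401) (.g (nat_lit 526) (.e (nat_lit 311040) (nat_lit 34) (.e (nat_lit 393271) (nat_lit 23) (.e (nat_lit 426130) (nat_lit 3) .nil))) .nil)))) (.nd (nat_lit 5) (.nd (nat_lit 6) 
(.lf (nat_lit 290321) (.g (nat_lit 1911) (.e (nat_lit 303155) (nat_lit 29) (.e (nat_lit 352309) (nat_lit 21) (.e (nat_lit 57872) (nat_lit 264) (.e (nat_lit 1211) (nat_lit 89) (.e (nat_lit 73787) (nat_lit 45) .nil))))) .nil)) 
(.lf (nat_lit 290385) (.g (nat_lit 1361) (.e (nat_lit 311040) (nat_lit 30) (.e (nat_lit 360486) (nat_lit 18) (.e (nat_lit 671762) (nat_lit 4) (.e (nat_lit 65543) (nat_lit 0) .nil)))) .nil))) (.nd (nat_lit 6) 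
(.lf (nat_lit 290353) (.g (nat_lit 643) (.e (nat_lit 303155) (nat_lit 29) (.e (nat_lit 352318) (nat_lit 24) (.e (nat_lit 123185) (nat_lit 264) .nil))) .nil)) 
(.lf (nat_lit 290417) (.g (nat_lit 1040) (.e (nat_lit 311040) (nat_lit 34) (.e (nat_lit 393281) (nat_lit 23) (.e (nat_lit 426133) (nat_lit 3) (.e (nat_lit 204805) (nat_lit 0) .nil)))) .nil))))) (.nd (nat_lit 4) (.nd (nat_lit 5) (.nd (nat_lit 6) 
(.lf (nat_lit 290313) (.g (nat_lit 589) (.e (nat_lit 303155) (nat_lit 29) (.e (nat_lit 352309) (nat_lit 21) (.e (nat_lit 57870) (nat_lit 264) .nil))) .nil)) 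
(.lf (nat_lit 290377) (.g (nat_lit 1387) (.e (nat_lit 311040) (nat_lit 30) (.e (nat_lit 360473) (nat_lit 8) (.e (nat_lit 557060) (nat_lit 0) (.e (nat_lit 1633) (nat_lit 114) (.e (nat_lit 385111) (nat_lit 53) .nil))))) .nil))) (.nd (nat_lit 6) 
(.lf (nat_lit 290345) (.g (nat_lit 2089) (.e (nat_lit 303155) (nat_lit 29) (.e (nat_lit 352318) (nat_lit 24) (.e (nat_lit 123182) (nat_lit 264) (.e (nat_lit 1193) (nat_lit 88) (.e (nat_lit 65543) (nat_lit 0) .nil))))) .nil)) 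
(.lf (nat_lit 290409) (.g (nat_lit 1266) (.e (nat_lit 311040) (nat_lit 34) (.e (nat_lit 393273) (nat_lit 23) (.e (nat_lit 426131) (nat_lit 3) (.e (nat_lit 204805) (nat_lit 0) .nil)))) .nil)))) (.nd (nat_lit 5) (.nd (nat_lit 6) 
(.lf (nat_lit 290329) (.g (nat_lit 1280) (.e (nat_lit 303155) (nat_lit 29) (.e (nat_lit 352316) (nat_lit 24) (.e (nat_lit 123182) (nat_lit 264) (.e (nat_lit 1213) (nat_lit 89) .nil)))) .nil)) 
(.lf (nat_lit 290393) (.g (nat_lit 382) (.e (nat_lit 311040) (nat_lit 32) (.e (nat_lit 376835) (nat_lit 0) (.e (nat_lit 3629) (nat_lit 227) .nil))) .nil))) (.nd (nat_lit 6) 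
(.lf (nat_lit 290361) (.g (nat_lit 985) (.e (nat_lit 311040) (nat_lit 29) (.e (nat_lit 352318) (nat_lit 24) (.e (nat_lit 123182) (nat_lit 264) (.e (nat_lit 1212) (nat_lit 89) .nil)))) .nil)) 
(.lf (nat_lit 290425) (.g (nat_lit 1289) (.e (nat_lit 311040) (nat_lit 34) (.e (nat_lit 393287) (nat_lit 25) (.e (nat_lit 458789) (nat_lit 23) (.e (nat_lit 532575) (nat_lit 17) (.e (nat_lit 6972) (nat_lit 377) .nil))))) .nil)))))) (.nd (nat_lit 3) (.nd (nat_lit 4) (.nd (nat_lit 5) (.nd (nat_lit 6) 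
(.lf (nat_lit 290309) (.g (nat_lit 2650) (.e (nat_lit 303155) (nat_lit 29) (.e (nat_lit 352307) (nat_lit 21) (.e (nat_lit 57873) (nat_lit 264) (.e (nat_lit 1209) (nat_lit 89) (.e (nat_lit 73786) (nat_lit 45) .nil))))) .nil)) 
(.lf (nat_lit 290373) (.g (nat_lit 1684) (.e (nat_lit 311040) (nat_lit 30) (.e (nat_lit 360453) (nat_lit 0) (.e (nat_lit 5907) (nat_lit 320) (.e (nat_lit 1211) (nat_lit 89) (.e (nat_lit 73787) (nat_lit 45) .nil))))) .nil))) (.nd (nat_lit 6) 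
(.lf (nat_lit 290341) (.g (nat_lit 1494) (.e (nat_lit 303155) (nat_lit 29) (.e (nat_lit 352316) (nat_lit 24) (.e (nat_lit 123197) (nat_lit 266) (.e (nat_lit 57421) (nat_lit 13) (.e (nat_lit 344074) (nat_lit 13) .nil))))) .nil)) 
(.lf (nat_lit 290405) (.g (nat_lit 1116) (.e (nat_lit 311040) (nat_lit 34) (.e (nat_lit 393271) (nat_lit 23) (.e (nat_lit 426131) (nat_lit 3) (.e (nat_lit 212736) (nat_lit 7) .nil)))) .nil)))) (.nd (nat_lit 5) (.nd (nat_lit 6) 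
(.lf (nat_lit 290325) (.g (nat_lit 577) (.e (nat_lit 303155) (nat_lit 29) (.e (nat_lit 352315) (nat_lit 23) (.e (nat_lit 106240) (nat_lit 15) .nil))) .nil)) 
(.lf (nat_lit 290389) (.g (nat_lit 758) (.e (nat_lit 311040) (nat_lit 31) (.e (nat_lit 368648) (nat_lit 13) (.e (nat_lit 1374) (nat_lit 104) (.e (nat_lit 303154) (nat_lit 28) (.e (nat_lit 344075) (nat_lit 13) .nil))))) .nil))) (.nd (nat_lit 6) 
(.lf (nat_lit 290357) (.g (nat_lit 1295) (.e (nat_lit 303155) (nat_lit 29) (.e (nat_lit 352318) (nat_lit 24) (.e (nat_lit 123197) (nat_lit 266) (.e (nat_lit 57420) (nat_lit 13) .nil)))) .nil)) 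
(.lf (nat_lit 290421) (.g (nat_lit 699) (.e (nat_lit 311040) (nat_lit 34) (.e (nat_lit 393283) (nat_lit 24) (.e (nat_lit 434234) (nat_lit 23) (.e (nat_lit 540416) (nat_lit 24) .nil)))) .nil))))) (.nd (nat_lit 4) (.nd (nat_lit 5) (.nd (nat_lit 6) 
(.lf (nat_lit 290317) (.g (nat_lit 1458) (.e (nat_lit 303155) (nat_lit 29) (.e (nat_lit 352309) (nat_lit 21) (.e (nat_lit 57872) (nat_lit 264) (.e (nat_lit 1209) (nat_lit 89) .nil)))) .nil)) 
(.lf (nat_lit 290381) (.g (nat_lit 491) (.e (nat_lit 311040) (nat_lit 30) (.e (nat_lit 360475) (nat_lit 8) (.e (nat_lit 557057) (nat_lit 0) .nil))) .nil))) (.nd (nat_lit 6) 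
(.lf (nat_lit 290349) (.g (nat_lit 2209) (.e (nat_lit 303155) (nat_lit 29) (.e (nat_lit 352318) (nat_lit 24) (.e (nat_lit 123182) (nat_lit 264) (.e (nat_lit 1214) (nat_lit 89) (.e (nat_lit 73786) (nat_lit 45) (.e (nat_lit 1376) (nat_lit 104) .nil)))))) (.g (nat_lit 4) .nil .nil))) 
(.lf (nat_lit 290413) (.g (nat_lit 1073) (.e (nat_lit 311040) (nat_lit 34) (.e (nat_lit 393273) (nat_lit 23) (.e (nat_lit 426364) (nat_lit 15) (.e (nat_lit 1774) (nat_lit 118) .nil)))) .nil)))) (.nd (nat_lit 5) (.nd (nat_lit 6) 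
(.lf (nat_lit 290333) (.g (nat_lit 1550) (.e (nat_lit 303155) (nat_lit 29) (.e (nat_lit 352316) (nat_lit 24) (.e (nat_lit 123184) (nat_lit 264) (.e (nat_lit 1212) (nat_lit 89) (.e (nat_lit 73787) (nat_lit 45) (.e (nat_lit 1379) (nat_lit 104) .nil)))))) (.g (nat_lit 0) .nil .nil))) 
(.lf (nat_lit 290397) (.g (nat_lit 412) (.e (nat_lit 311040) (nat_lit 32) (.e (nat_lit 376859) (nat_lit 21) (.e (nat_lit 57873) (nat_lit 264) .nil))) .nil))) (.nd (nat_lit 6) 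
(.lf (nat_lit 290365) (.g (nat_lit 948) (.e (nat_lit 311040) (nat_lit 30) (.e (nat_lit 360452) (nat_lit 0) (.e (nat_lit 5907) (nat_lit 320) (.e (nat_lit 1209) (nat_lit 89) .nil)))) .nil)) 
(.lf (nat_lit 290429) (.g (nat_lit 954) (.e (nat_lit 311040) (nat_lit 34) (.e (nat_lit 393289) (nat_lit 25) (.e (nat_lit 458789) (nat_lit 23) (.e (nat_lit 540416) (nat_lit 24) .nil)))) .nil))))))) (.nd (nat_lit 2) (.nd (nat_lit 3) (.nd (nat_lit 4) (.nd (nat_lit 5) (.nd (nat_lit 6) 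
(.lf (nat_lit 290307) (.g (nat_lit 1417) (.e (nat_lit 303155) (nat_lit 29) (.e (nat_lit 352307) (nat_lit 21) (.e (nat_lit 57872) (nat_lit 264) (.e (nat_lit 1211) (nat_lit 89) (.e (nat_lit 73786) (nat_lit 45) .nil))))) .nil)) 
(.lf (nat_lit 290371) (.g (nat_lit 963) (.e (nat_lit 311040) (nat_lit 30) (.e (nat_lit 360453) (nat_lit 0) (.e (nat_lit 5907) (nat_lit 320) (.e (nat_lit 1211) (nat_lit 89) .nil)))) .nil))) (.nd (nat_lit 6) 
(.lf (nat_lit 290339) (.g (nat_lit 1047) (.e (nat_lit 303155) (nat_lit 29) (.e (nat_lit 352316) (nat_lit 24) (.e (nat_lit 123197) (nat_lit 266) (.e (nat_lit 57404) (nat_lit 12) .nil)))) .nil)) 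
(.lf (nat_lit 290403) (.g (nat_lit 1359) (.e (nat_lit 311040) (nat_lit 34) (.e (nat_lit 393271) (nat_lit 23) (.e (nat_lit 426131) (nat_lit 3) (.e (nat_lit 204805) (nat_lit 0) .nil)))) .nil)))) (.nd (nat_lit 5) (.nd (nat_lit 6) 
(.lf (nat_lit 290323) (.g (nat_lit 1914) (.e (nat_lit 303155) (nat_lit 29) (.e (nat_lit 352309) (nat_lit 21) (.e (nat_lit 57873) (nat_lit 264) (.e (nat_lit 1211) (nat_lit 89) .nil)))) .nil)) 
(.lf (nat_lit 290387) (.g (nat_lit 622) (.e (nat_lit 311040) (nat_lit 30) (.e (nat_lit 360486) (nat_lit 18) (.e (nat_lit 671763) (nat_lit 5) (.e (nat_lit 73786) (nat_lit 45) .nil)))) .nil))) (.nd (nat_lit 6) 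
(.lf (nat_lit 290355) (.g (nat_lit 638) (.e (nat_lit 303155) (nat_lit 29) (.e (nat_lit 352318) (nat_lit 24) (.e (nat_lit 123197) (nat_lit 266) .nil))) .nil)) 
(.lf (nat_lit 290419) (.g (nat_lit 968) (.e (nat_lit 311040) (nat_lit 34) (.e (nat_lit 393281) (nat_lit 23) (.e (nat_lit 426133) (nat_lit 3) (.e (nat_lit 212736) (nat_lit 7) .nil)))) .nil))))) (.nd (nat_lit 4) (.nd (nat_lit 5) (.nd (nat_lit 6) 
(.lf (nat_lit 290315) (.g (nat_lit 1163) (.e (nat_lit 303155) (nat_lit 29) (.e (nat_lit 352309) (nat_lit 21) (.e (nat_lit 57871) (nat_lit 264) (.e (nat_lit 1209) (nat_lit 89) .nil)))) .nil)) 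
(.lf (nat_lit 290379) (.g (nat_lit 740) (.e (nat_lit 311040) (nat_lit 30) (.e (nat_lit 360474) (nat_lit 8) (.e (nat_lit 557059) (nat_lit 0) .nil))) .nil))) (.nd (nat_lit 6) 
(.lf (nat_lit 290347) (.g (nat_lit 1546) (.e (nat_lit 303155) (nat_lit 29) (.e (nat_lit 352318) (nat_lit 24) (.e (nat_lit 123182) (nat_lit 264) (.e (nat_lit 1213) (nat_lit 89) .nil)))) .nil)) 
(.lf (nat_lit 290411) (.g (nat_lit 995) (.e (nat_lit 311040) (nat_lit 34) (.e (nat_lit 393273) (nat_lit 23) (.e (nat_lit 426131) (nat_lit 3) (.e (nat_lit 212736) (nat_lit 7) .nil)))) .nil)))) (.nd (nat_lit 5) (.nd (nat_lit 6) 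
(.lf (nat_lit 290331) (.g (nat_lit 1522) (.e (nat_lit 303155) (nat_lit 29) (.e (nat_lit 352316) (nat_lit 24) (.e (nat_lit 123183) (nat_lit 264) (.e (nat_lit 1212) (nat_lit 89) (.e (nat_lit 73786) (nat_lit 45) .nil))))) .nil)) 
(.lf (nat_lit 290395) (.g (nat_lit 1414) (.e (nat_lit 311040) (nat_lit 32) (.e (nat_lit 376859) (nat_lit 21) (.e (nat_lit 57870) (nat_lit 264) (.e (nat_lit 1209) (nat_lit 89) (.e (nat_lit 73787) (nat_lit 45) .nil))))) .nil))) (.nd (nat_lit 6) 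
(.lf (nat_lit 290363) (.g (nat_lit 993) (.e (nat_lit 311040) (nat_lit 29) (.e (nat_lit 352318) (nat_lit 24) (.e (nat_lit 123184) (nat_lit 264) (.e (nat_lit 1212) (nat_lit 89) .nil)))) .nil)) 
(.lf (nat_lit 290427) (.g (nat_lit 436) (.e (nat_lit 311040) (nat_lit 34) (.e (nat_lit 393289) (nat_lit 25) (.e (nat_lit 466688) (nat_lit 21) (.e (nat_lit 516191) (nat_lit 17) (.e (nat_lit 6101) (nat_lit 332) .nil))))) .nil)))))) (.nd (nat_lit 3) (.nd (nat_lit 4) (.nd (nat_lit 5) (.nd (nat_lit 6) 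
(.lf (nat_lit 290311) (.g (nat_lit 1897) (.e (nat_lit 303155) (nat_lit 29) (.e (nat_lit 352307) (nat_lit 21) (.e (nat_lit 57873) (nat_lit 264) (.e (nat_lit 1211) (nat_lit 89) (.e (nat_lit 73786) (nat_lit 45) .nil))))) .nil)) 
(.lf (nat_lit 290375) (.g (nat_lit 743) (.e (nat_lit 311040) (nat_lit 30) (.e (nat_lit 360467) (nat_lit 3) (.e (nat_lit 524032) (nat_lit 32) (.e (nat_lit 385114) (nat_lit 53) (.e (nat_lit 811028) (nat_lit 9) .nil))))) .nil))) (.nd (nat_lit 6) 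
(.lf (nat_lit 290343) (.g (nat_lit 2063) (.e (nat_lit 303155) (nat_lit 29) (.e (nat_lit 352316) (nat_lit 24) (.e (nat_lit 123198) (nat_lit 266) (.e (nat_lit 57412) (nat_lit 12) (.e (nat_lit 336061) (nat_lit 7) (.e (nat_lit 327424) (nat_lit 18) .nil)))))) (.g (nat_lit 5) .nil .nil))) 
(.lf (nat_lit 290407) (.g (nat_lit 1173) (.e (nat_lit 311040) (nat_lit 34) (.e (nat_lit 393272) (nat_lit 23) (.e (nat_lit 426131) (nat_lit 3) (.e (nat_lit 204805) (nat_lit 0) (.e (nat_lit 6988) (nat_lit 377) .nil))))) .nil)))) (.nd (nat_lit 5) (.nd (nat_lit 6) 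
(.lf (nat_lit 290327) (.g (nat_lit 2092) (.e (nat_lit 303155) (nat_lit 29) (.e (nat_lit 352316) (nat_lit 24) (.e (nat_lit 123182) (nat_lit 264) (.e (nat_lit 1212) (nat_lit 89) (.e (nat_lit 73787) (nat_lit 45) (.e (nat_lit 1374) (nat_lit 104) .nil)))))) (.g (nat_lit 0) .nil .nil))) 
(.lf (nat_lit 290391) (.g (nat_lit 284) (.e (nat_lit 311040) (nat_lit 31) (.e (nat_lit 368648) (nat_lit 13) (.e (nat_lit 1376) (nat_lit 104) (.e (nat_lit 311040) (nat_lit 31) .nil)))) .nil))) (.nd (nat_lit 6) 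
(.lf (nat_lit 290359) (.g (nat_lit 643) (.e (nat_lit 303155) (nat_lit 29) (.e (nat_lit 352318) (nat_lit 24) (.e (nat_lit 123198) (nat_lit 266) .nil))) .nil)) 
(.lf (nat_lit 290423) (.g (nat_lit 1191) (.e (nat_lit 311040) (nat_lit 34) (.e (nat_lit 393286) (nat_lit 25) (.e (nat_lit 458789) (nat_lit 23) (.e (nat_lit 532575) (nat_lit 17) (.e (nat_lit 6973) (nat_lit 377) .nil))))) .nil))))) (.nd (nat_lit 4) (.nd (nat_lit 5) (.nd (nat_lit 6) 
(.lf (nat_lit 290319) (.g (nat_lit 2262) (.e (nat_lit 303155) (nat_lit 29) (.e (nat_lit 352309) (nat_lit 21) (.e (nat_lit 57872) (nat_lit 264) (.e (nat_lit 1209) (nat_lit 89) (.e (nat_lit 73787) (nat_lit 45) .nil))))) .nil)) 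
(.lf (nat_lit 290383) (.g (nat_lit 1132) (.e (nat_lit 311040) (nat_lit 30) (.e (nat_lit 360475) (nat_lit 8) (.e (nat_lit 557058) (nat_lit 0) (.e (nat_lit 1633) (nat_lit 114) (.e (nat_lit 385115) (nat_lit 53) .nil))))) .nil))) (.nd (nat_lit 6) 
(.lf (nat_lit 290351) (.g (nat_lit 1637) (.e (nat_lit 303155) (nat_lit 29) (.e (nat_lit 352318) (nat_lit 24) (.e (nat_lit 123184) (nat_lit 264) (.e (nat_lit 1212) (nat_lit 89) (.e (nat_lit 73786) (nat_lit 45) .nil))))) .nil)) 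
(.lf (nat_lit 290415) (.g (nat_lit 911) (.e (nat_lit 311040) (nat_lit 34) (.e (nat_lit 393276) (nat_lit 23) (.e (nat_lit 426140) (nat_lit 3) (.e (nat_lit 212736) (nat_lit 7) .nil)))) .nil)))) (.nd (nat_lit 5) (.nd (nat_lit 6) 
(.lf (nat_lit 290335) (.g (nat_lit 1118) (.e (nat_lit 303155) (nat_lit 29) (.e (nat_lit 352316) (nat_lit 24) (.e (nat_lit 123185) (nat_lit 264) (.e (nat_lit 1212) (nat_lit 89) (.e (nat_lit 73786) (nat_lit 45) .nil))))) .nil)) 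
(.lf (nat_lit 290399) (.g (nat_lit 999) (.e (nat_lit 311040) (nat_lit 34) (.e (nat_lit 393266) (nat_lit 23) (.e (nat_lit 426140) (nat_lit 3) (.e (nat_lit 212736) (nat_lit 7) .nil)))) .nil))) (.nd (nat_lit 6) 
(.lf (nat_lit 290367) (.g (nat_lit 937) (.e (nat_lit 311040) (nat_lit 30) (.e (nat_lit 360452) (nat_lit 0) (.e (nat_lit 5907) (nat_lit 320) (.e (nat_lit 1211) (nat_lit 89) .nil)))) .nil)) 
(.lf (nat_lit 290431) (.g (nat_lit 698) (.e (nat_lit 311040) (nat_lit 34) (.e (nat_lit 393291) (nat_lit 26) (.e (nat_lit 483072) (nat_lit 26) .nil))) .nil)))))))))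

noncomputable def tv3672 : DT := (.nd (nat_lit 0) (.nd (nat_lit 1) (.nd (nat_lit 2) (.nd (nat_lit 3) (.nd (nat_lit 4) (.nd (nat_lit 5) (.nd (nat_lit 6) 
(.lf (nat_lit 290432) (.g (nat_lit 964) (.e (nat_lit 311040) (nat_lit 34) (.e (nat_lit 393294) (nat_lit 26) (.e (nat_lit 475169) (nat_lit 22) (.e (nat_lit 499791) (nat_lit 3) .nil)))) .nil)) 
(.lf (nat_lit 290496) (.g (nat_lit 1388) (.e (nat_lit 311312) (nat_lit 2) (.e (nat_lit 196672) (nat_lit 15) (.e (nat_lit 81954) (nat_lit 23) (.e (nat_lit 106240) (nat_lit 17) .nil)))) .nil))) (.nd (nat_lit 6) 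
(.lf (nat_lit 290464) (.g (nat_lit 2988) (.e (nat_lit 311311) (nat_lit 2) (.e (nat_lit 196666) (nat_lit 13) (.e (nat_lit 65610) (nat_lit 10) (.e (nat_lit 344117) (nat_lit 21) (.e (nat_lit 516098) (nat_lit 0) .nil))))) .nil)) 
(.lf (nat_lit 290528) (.g (nat_lit 968) (.e (nat_lit 311324) (nat_lit 9) (.e (nat_lit 426566) (nat_lit 34) (.e (nat_lit 393255) (nat_lit 19) .nil))) .nil)))) (.nd (nat_lit 5) (.nd (nat_lit 6) 
(.lf (nat_lit 290448) (.g (nat_lit 780) (.e (nat_lit 311309) (nat_lit 1) (.e (nat_lit 164178) (nat_lit 154) (.e (nat_lit 57437) (nat_lit 17) (.e (nat_lit 376842) (nat_lit 11) .nil)))) .nil)) 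
(.lf (nat_lit 290512) (.g (nat_lit 3872) (.e (nat_lit 311322) (nat_lit 9) (.e (nat_lit 426436) (nat_lit 18) (.e (nat_lit 98335) (nat_lit 18) (.e (nat_lit 164305) (nat_lit 226) .nil)))) .nil))) (.nd (nat_lit 6) 
(.lf (nat_lit 290480) (.g (nat_lit 2081) (.e (nat_lit 311312) (nat_lit 2) (.e (nat_lit 196663) (nat_lit 13) (.e (nat_lit 65630) (nat_lit 14) (.e (nat_lit 401428) (nat_lit 3) (.e (nat_lit 204848) (nat_lit 25) (.e (nat_lit 327701) (nat_lit 9) .nil)))))) (.g (nat_lit 4) .nil .nil))) 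
(.lf (nat_lit 290544) (.g (nat_lit 2129) (.e (nat_lit 311335) (nat_lit 12) (.e (nat_lit 475185) (nat_lit 29) (.e (nat_lit 557101) (nat_lit 13) (.e (nat_lit 172115) (nat_lit 10) .nil)))) .nil))))) (.nd (nat_lit 4) (.nd (nat_lit 5) (.nd (nat_lit 6) 
(.lf (nat_lit 290440) (.g (nat_lit 3356) (.e (nat_lit 311296) (nat_lit 0) (.e (nat_lit 3256) (nat_lit 197) (.e (nat_lit 532535) (nat_lit 9) (.e (nat_lit 336099) (nat_lit 9) (.e (nat_lit 336013) (nat_lit 2) .nil))))) .nil)) 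
(.lf (nat_lit 290504) (.g (nat_lit 756) (.e (nat_lit 311315) (nat_lit 3) (.e (nat_lit 204813) (nat_lit 9) (.e (nat_lit 426107) (nat_lit 1) .nil))) .nil))) (.nd (nat_lit 6) 
(.lf (nat_lit 290472) (.g (nat_lit 392) (.e (nat_lit 311311) (nat_lit 2) (.e (nat_lit 196672) (nat_lit 15) (.e (nat_lit 81954) (nat_lit 23) .nil))) .nil)) 
(.lf (nat_lit 290536) (.g (nat_lit 1360) (.e (nat_lit 311325) (nat_lit 9) (.e (nat_lit 426402) (nat_lit 15) (.e (nat_lit 1859) (nat_lit 124) (.e (nat_lit 557109) (nat_lit 15) (.e (nat_lit 188449) (nat_lit 22) (.e (nat_lit 204544) (nat_lit 18) (.e (nat_lit 2815) (nat_lit 181) .nil))))))) (.g (nat_lit 4) .nil .nil))))) (.nd (nat_lit 5) (.nd (nat_lit 6) 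
(.lf (nat_lit 290456) (.g (nat_lit 2681) (.e (nat_lit 311309) (nat_lit 1) (.e (nat_lit 164403) (nat_lit 256) (.e (nat_lit 57373) (nat_lit 2) (.e (nat_lit 90176) (nat_lit 15) (.e (nat_lit 188428) (nat_lit 20) .nil))))) .nil)) 
(.lf (nat_lit 290520) (.g (nat_lit 1019) (.e (nat_lit 311324) (nat_lit 9) (.e (nat_lit 426354) (nat_lit 15) (.e (nat_lit 2031) (nat_lit 140) (.e (nat_lit 688177) (nat_lit 16) .nil)))) .nil))) (.nd (nat_lit 6) 
(.lf (nat_lit 290488) (.g (nat_lit 1289) (.e (nat_lit 311312) (nat_lit 2) (.e (nat_lit 196666) (nat_lit 13) (.e (nat_lit 65617) (nat_lit 10) (.e (nat_lit 344117) (nat_lit 21) .nil)))) .nil)) 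
(.lf (nat_lit 290552) (.g (nat_lit 1471) (.e (nat_lit 311337) (nat_lit 12) (.e (nat_lit 475184) (nat_lit 29) (.e (nat_lit 557109) (nat_lit 15) (.e (nat_lit 188449) (nat_lit 22) (.e (nat_lit 204544) (nat_lit 18) .nil))))) .nil)))))) (.nd (nat_lit 3) (.nd (nat_lit 4) (.nd (nat_lit 5) (.nd (nat_lit 6) 
(.lf (nat_lit 290436) (.g (nat_lit 1085) (.e (nat_lit 311040) (nat_lit 35) (.e (nat_lit 401454) (nat_lit 12) (.e (nat_lit 475197) (nat_lit 40) (.e (nat_lit 704596) (nat_lit 5) .nil)))) .nil)) 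
(.lf (nat_lit 290500) (.g (nat_lit 2781) (.e (nat_lit 311312) (nat_lit 2) (.e (nat_lit 196672) (nat_lit 15) (.e (nat_lit 81956) (nat_lit 23) (.e (nat_lit 98320) (nat_lit 17) .nil)))) .nil))) (.nd (nat_lit 6) 
(.lf (nat_lit 290468) (.g (nat_lit 3642) (.e (nat_lit 311311) (nat_lit 2) (.e (nat_lit 196666) (nat_lit 13) (.e (nat_lit 65610) (nat_lit 10) (.e (nat_lit 344117) (nat_lit 21) (.e (nat_lit 516142) (nat_lit 8) (.e (nat_lit 425728) (nat_lit 19) .nil)))))) (.g (nat_lit 5) .nil .nil))) 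
(.lf (nat_lit 290532) (.g (nat_lit 1791) (.e (nat_lit 311325) (nat_lit 9) (.e (nat_lit 426402) (nat_lit 15) (.e (nat_lit 1848) (nat_lit 124) (.e (nat_lit 557108) (nat_lit 15) (.e (nat_lit 188449) (nat_lit 22) (.e (nat_lit 204544) (nat_lit 18) (.e (nat_lit 2820) (nat_lit 181) .nil))))))) (.g (nat_lit 4) .nil .nil))))) (.nd (nat_lit 5) (.nd (nat_lit 6) 
(.lf (nat_lit 290452) (.g (nat_lit 566) (.e (nat_lit 311309) (nat_lit 1) (.e (nat_lit 164403) (nat_lit 256) (.e (nat_lit 57371) (nat_lit 2) .nil))) .nil)) 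
(.lf (nat_lit 290516) (.g (nat_lit 1097) (.e (nat_lit 311322) (nat_lit 9) (.e (nat_lit 426448) (nat_lit 20) (.e (nat_lit 114723) (nat_lit 24) .nil))) .nil))) (.nd (nat_lit 6) 
(.lf (nat_lit 290484) (.g (nat_lit 3828) (.e (nat_lit 311312) (nat_lit 2) (.e (nat_lit 196666) (nat_lit 13) (.e (nat_lit 65610) (nat_lit 10) (.e (nat_lit 344117) (nat_lit 21) (.e (nat_lit 516112) (nat_lit 0) .nil))))) .nil)) 
(.lf (nat_lit 290548) (.g (nat_lit 2322) (.e (nat_lit 311336) (nat_lit 12) (.e (nat_lit 475185) (nat_lit 29) (.e (nat_lit 557101) (nat_lit 13) (.e (nat_lit 172115) (nat_lit 10) (.e (nat_lit 434227) (nat_lit 20) .nil))))) .nil))))) (.nd (nat_lit 4) (.nd (nat_lit 5) (.nd (nat_lit 6) 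
(.lf (nat_lit 290444) (.g (nat_lit 1582) (.e (nat_lit 311308) (nat_lit 1) (.e (nat_lit 164183) (nat_lit 154) (.e (nat_lit 57411) (nat_lit 12) (.e (nat_lit 336211) (nat_lit 13) (.e (nat_lit 393263) (nat_lit 22) .nil))))) .nil)) 
(.lf (nat_lit 290508) (.g (nat_lit 2156) (.e (nat_lit 311315) (nat_lit 3) (.e (nat_lit 204846) (nat_lit 24) (.e (nat_lit 319534) (nat_lit 16) (.e (nat_lit 286728) (nat_lit 0) (.e (nat_lit 1842) (nat_lit 123) (.e (nat_lit 548886) (nat_lit 8) (.e (nat_lit 57714) (nat_lit 176) (.e (nat_lit 1383) (nat_lit 105) .nil)))))))) (.g (nat_lit 4) .nil .nil)))) (.nd (nat_lit 6) 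
(.lf (nat_lit 290476) (.g (nat_lit 2830) (.e (nat_lit 311311) (nat_lit 2) (.e (nat_lit 196672) (nat_lit 15) (.e (nat_lit 81956) (nat_lit 23) (.e (nat_lit 98320) (nat_lit 17) .nil)))) .nil)) 
(.lf (nat_lit 290540) (.g (nat_lit 1420) (.e (nat_lit 311325) (nat_lit 9) (.e (nat_lit 426436) (nat_lit 18) (.e (nat_lit 98341) (nat_lit 20) (.e (nat_lit 229120) (nat_lit 12) .nil)))) .nil)))) (.nd (nat_lit 5) (.nd (nat_lit 6) 
(.lf (nat_lit 290460) (.g (nat_lit 2131) (.e (nat_lit 311309) (nat_lit 1) (.e (nat_lit 164403) (nat_lit 256) (.e (nat_lit 57447) (nat_lit 19) (.e (nat_lit 393284) (nat_lit 24) (.e (nat_lit 434248) (nat_lit 28) .nil))))) .nil)) 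
(.lf (nat_lit 290524) (.g (nat_lit 1423) (.e (nat_lit 311324) (nat_lit 9) (.e (nat_lit 426436) (nat_lit 18) (.e (nat_lit 98342) (nat_lit 20) (.e (nat_lit 229120) (nat_lit 12) .nil)))) .nil))) (.nd (nat_lit 6) 
(.lf (nat_lit 290492) (.g (nat_lit 1210) (.e (nat_lit 311312) (nat_lit 2) (.e (nat_lit 196672) (nat_lit 15) (.e (nat_lit 81951) (nat_lit 22) (.e (nat_lit 90165) (nat_lit 12) .nil)))) .nil)) 
(.lf (nat_lit 290556) (.g (nat_lit 792) (.e (nat_lit 311337) (nat_lit 12) (.e (nat_lit 475185) (nat_lit 29) (.e (nat_lit 557109) (nat_lit 15) .nil))) .nil))))))) (.nd (nat_lit 2) (.nd (nat_lit 3) (.nd (nat_lit 4) (.nd (nat_lit 5) (.nd (nat_lit 6) 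
(.lf (nat_lit 290434) (.g (nat_lit 597) (.e (nat_lit 311040) (nat_lit 34) (.e (nat_lit 393296) (nat_lit 26) (.e (nat_lit 475182) (nat_lit 28) .nil))) .nil)) 
(.lf (nat_lit 290498) (.g (nat_lit 2023) (.e (nat_lit 311312) (nat_lit 2) (.e (nat_lit 196672) (nat_lit 15) (.e (nat_lit 81954) (nat_lit 23) (.e (nat_lit 98352) (nat_lit 25) (.e (nat_lit 425728) (nat_lit 19) .nil))))) (.g (nat_lit 4) .nil .nil)))) (.nd (nat_lit 6) 
(.lf (nat_lit 290466) (.g (nat_lit 2416) (.e (nat_lit 311311) (nat_lit 2) (.e (nat_lit 196666) (nat_lit 13) (.e (nat_lit 65610) (nat_lit 10) (.e (nat_lit 344117) (nat_lit 21) (.e (nat_lit 516106) (nat_lit 0) .nil))))) .nil)) 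
(.lf (nat_lit 290530) (.g (nat_lit 1925) (.e (nat_lit 311325) (nat_lit 9) (.e (nat_lit 426402) (nat_lit 15) (.e (nat_lit 1848) (nat_lit 124) (.e (nat_lit 557108) (nat_lit 15) (.e (nat_lit 188449) (nat_lit 22) (.e (nat_lit 204544) (nat_lit 18) (.e (nat_lit 2814) (nat_lit 181) .nil))))))) (.g (nat_lit 4) .nil .nil))))) (.nd (nat_lit 5) (.nd (nat_lit 6) 
(.lf (nat_lit 290450) (.g (nat_lit 1558) (.e (nat_lit 311309) (nat_lit 1) (.e (nat_lit 164179) (nat_lit 154) (.e (nat_lit 57437) (nat_lit 17) (.e (nat_lit 376838) (nat_lit 11) .nil)))) .nil)) 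
(.lf (nat_lit 290514) (.g (nat_lit 1425) (.e (nat_lit 311322) (nat_lit 9) (.e (nat_lit 426436) (nat_lit 18) (.e (nat_lit 98341) (nat_lit 20) (.e (nat_lit 229120) (nat_lit 12) .nil)))) .nil))) (.nd (nat_lit 6) 
(.lf (nat_lit 290482) (.g (nat_lit 2704) (.e (nat_lit 311312) (nat_lit 2) (.e (nat_lit 196666) (nat_lit 13) (.e (nat_lit 65610) (nat_lit 10) (.e (nat_lit 344117) (nat_lit 21) (.e (nat_lit 516098) (nat_lit 0) .nil))))) .nil)) 
(.lf (nat_lit 290546) (.g (nat_lit 948) (.e (nat_lit 311336) (nat_lit 12) (.e (nat_lit 475184) (nat_lit 29) (.e (nat_lit 557109) (nat_lit 15) (.e (nat_lit 188458) (nat_lit 25) .nil)))) .nil))))) (.nd (nat_lit 4) (.nd (nat_lit 5) (.nd (nat_lit 6) 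
(.lf (nat_lit 290442) (.g (nat_lit 2360) (.e (nat_lit 311308) (nat_lit 1) (.e (nat_lit 164179) (nat_lit 154) (.e (nat_lit 57437) (nat_lit 17) (.e (nat_lit 376842) (nat_lit 11) (.e (nat_lit 426181) (nat_lit 8) .nil))))) .nil)) 
(.lf (nat_lit 290506) (.g (nat_lit 358) (.e (nat_lit 311315) (nat_lit 3) (.e (nat_lit 204846) (nat_lit 24) (.e (nat_lit 319511) (nat_lit 10) .nil))) .nil))) (.nd (nat_lit 6) 
(.lf (nat_lit 290474) (.g (nat_lit 1105) (.e (nat_lit 311311) (nat_lit 2) (.e (nat_lit 196672) (nat_lit 15) (.e (nat_lit 81954) (nat_lit 23) (.e (nat_lit 98325) (nat_lit 17) .nil)))) .nil)) 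
(.lf (nat_lit 290538) (.g (nat_lit 445) (.e (nat_lit 311325) (nat_lit 9) (.e (nat_lit 426432) (nat_lit 17) (.e (nat_lit 98048) (nat_lit 6) .nil))) .nil)))) (.nd (nat_lit 5) (.nd (nat_lit 6) 
(.lf (nat_lit 290458) (.g (nat_lit 2623) (.e (nat_lit 311309) (nat_lit 1) (.e (nat_lit 164403) (nat_lit 256) (.e (nat_lit 57378) (nat_lit 3) (.e (nat_lit 98372) (nat_lit 29) (.e (nat_lit 458496) (nat_lit 26) (.e (nat_lit 737302) (nat_lit 10) .nil)))))) (.g (nat_lit 4) .nil .nil))) 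
(.lf (nat_lit 290522) (.g (nat_lit 4112) (.e (nat_lit 311324) (nat_lit 9) (.e (nat_lit 426436) (nat_lit 18) (.e (nat_lit 98335) (nat_lit 18) (.e (nat_lit 164330) (nat_lit 230) .nil)))) .nil))) (.nd (nat_lit 6) 
(.lf (nat_lit 290490) (.g (nat_lit 2381) (.e (nat_lit 311312) (nat_lit 2) (.e (nat_lit 196666) (nat_lit 13) (.e (nat_lit 65619) (nat_lit 10) (.e (nat_lit 344117) (nat_lit 21) (.e (nat_lit 516141) (nat_lit 8) (.e (nat_lit 425728) (nat_lit 19) .nil)))))) (.g (nat_lit 4) .nil .nil))) 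
(.lf (nat_lit 290554) (.g (nat_lit 2387) (.e (nat_lit 311337) (nat_lit 12) (.e (nat_lit 475185) (nat_lit 29) (.e (nat_lit 557100) (nat_lit 13) (.e (nat_lit 172113) (nat_lit 10) .nil)))) .nil)))))) (.nd (nat_lit 3) (.nd (nat_lit 4) (.nd (nat_lit 5) (.nd (nat_lit 6) 
(.lf (nat_lit 290438) (.g (nat_lit 1200) (.e (nat_lit 311040) (nat_lit 35) (.e (nat_lit 401454) (nat_lit 12) (.e (nat_lit 475218) (nat_lit 44) (.e (nat_lit 737286) (nat_lit 0) .nil)))) .nil)) 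
(.lf (nat_lit 290502) (.g (nat_lit 2422) (.e (nat_lit 311314) (nat_lit 3) (.e (nat_lit 204819) (nat_lit 17) (.e (nat_lit 6113) (nat_lit 332) (.e (nat_lit 1374) (nat_lit 104) (.e (nat_lit 303119) (nat_lit 3) .nil))))) .nil))) (.nd (nat_lit 6) 
(.lf (nat_lit 290470) (.g (nat_lit 1878) (.e (nat_lit 311311) (nat_lit 2) (.e (nat_lit 196666) (nat_lit 13) (.e (nat_lit 65619) (nat_lit 10) (.e (nat_lit 344117) (nat_lit 21) (.e (nat_lit 516141) (nat_lit 8) (.e (nat_lit 425728) (nat_lit 19) .nil)))))) (.g (nat_lit 4) .nil .nil))) 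
(.lf (nat_lit 290534) (.g (nat_lit 1570) (.e (nat_lit 311325) (nat_lit 9) (.e (nat_lit 426402) (nat_lit 15) (.e (nat_lit 1849) (nat_lit 124) (.e (nat_lit 557108) (nat_lit 15) (.e (nat_lit 188449) (nat_lit 22) (.e (nat_lit 204544) (nat_lit 18) (.e (nat_lit 2820) (nat_lit 181) .nil))))))) (.g (nat_lit 4) .nil .nil))))) (.nd (nat_lit 5) (.nd (nat_lit 6) 
(.lf (nat_lit 290454) (.g (nat_lit 2670) (.e (nat_lit 311309) (nat_lit 1) (.e (nat_lit 164403) (nat_lit 256) (.e (nat_lit 57371) (nat_lit 2) (.e (nat_lit 90176) (nat_lit 15) (.e (nat_lit 188431) (nat_lit 20) (.e (nat_lit 3572) (nat_lit 222) (.e (nat_lit 737302) (nat_lit 10) .nil))))))) (.g (nat_lit 4) .nil .nil))) 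
(.lf (nat_lit 290518) (.g (nat_lit 4043) (.e (nat_lit 311323) (nat_lit 9) (.e (nat_lit 426436) (nat_lit 18) (.e (nat_lit 98335) (nat_lit 18) (.e (nat_lit 164305) (nat_lit 226) .nil)))) .nil))) (.nd (nat_lit 6) 
(.lf (nat_lit 290486) (.g (nat_lit 3642) (.e (nat_lit 311312) (nat_lit 2) (.e (nat_lit 196666) (nat_lit 13) (.e (nat_lit 65610) (nat_lit 10) (.e (nat_lit 344117) (nat_lit 21) (.e (nat_lit 516141) (nat_lit 8) (.e (nat_lit 425728) (nat_lit 19) .nil)))))) (.g (nat_lit 5) .nil .nil))) 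
(.lf (nat_lit 290550) (.g (nat_lit 329) (.e (nat_lit 311337) (nat_lit 12) (.e (nat_lit 475169) (nat_lit 22) (.e (nat_lit 507648) (nat_lit 20) .nil))) .nil))))) (.nd (nat_lit 4) (.nd (nat_lit 5) (.nd (nat_lit 6) 
(.lf (nat_lit 290446) (.g (nat_lit 1682) (.e (nat_lit 311308) (nat_lit 1) (.e (nat_lit 164403) (nat_lit 256) (.e (nat_lit 57373) (nat_lit 2) (.e (nat_lit 90176) (nat_lit 15) .nil)))) .nil)) 
(.lf (nat_lit 290510) (.g (nat_lit 2503) (.e (nat_lit 311315) (nat_lit 3) (.e (nat_lit 204885) (nat_lit 33) (.e (nat_lit 401446) (nat_lit 10) (.e (nat_lit 434231) (nat_lit 23) (.e (nat_lit 532522) (nat_lit 7) .nil))))) .nil))) (.nd (nat_lit 6) 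
(.lf (nat_lit 290478) (.g (nat_lit 3151) (.e (nat_lit 311312) (nat_lit 2) (.e (nat_lit 196626) (nat_lit 9) (.e (nat_lit 1400) (nat_lit 106) (.e (nat_lit 319533) (nat_lit 16) (.e (nat_lit 286735) (nat_lit 3) (.e (nat_lit 98353) (nat_lit 25) (.e (nat_lit 417813) (nat_lit 9) .nil))))))) (.g (nat_lit 5) .nil .nil))) 
(.lf (nat_lit 290542) (.g (nat_lit 2061) (.e (nat_lit 311325) (nat_lit 9) (.e (nat_lit 426482) (nat_lit 27) (.e (nat_lit 336060) (nat_lit 7) (.e (nat_lit 319534) (nat_lit 16) (.e (nat_lit 286728) (nat_lit 0) (.e (nat_lit 2280) (nat_lit 150) (.e (nat_lit 770053) (nat_lit 0) (.e (nat_lit 1380) (nat_lit 105) .nil)))))))) (.g (nat_lit 4) .nil .nil))))) (.nd (nat_lit 5) (.nd (nat_lit 6) 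
(.lf (nat_lit 290462) (.g (nat_lit 2291) (.e (nat_lit 311311) (nat_lit 2) (.e (nat_lit 196663) (nat_lit 13) (.e (nat_lit 65630) (nat_lit 14) (.e (nat_lit 401428) (nat_lit 3) (.e (nat_lit 204849) (nat_lit 25) (.e (nat_lit 327701) (nat_lit 9) .nil)))))) (.g (nat_lit 4) .nil .nil))) 
(.lf (nat_lit 290526) (.g (nat_lit 4367) (.e (nat_lit 311324) (nat_lit 9) (.e (nat_lit 426566) (nat_lit 34) (.e (nat_lit 393253) (nat_lit 18) (.e (nat_lit 164347) (nat_lit 240) .nil)))) .nil))) (.nd (nat_lit 6) 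
(.lf (nat_lit 290494) (.g (nat_lit 1722) (.e (nat_lit 311312) (nat_lit 2) (.e (nat_lit 196672) (nat_lit 15) (.e (nat_lit 81954) (nat_lit 23) (.e (nat_lit 98318) (nat_lit 17) .nil)))) .nil)) 
(.lf (nat_lit 290558) (.g (nat_lit 1076) (.e (nat_lit 311337) (nat_lit 12) (.e (nat_lit 475214) (nat_lit 42) (.e (nat_lit 720947) (nat_lit 24) .nil))) .nil)))))))) (.nd (nat_lit 1) (.nd (nat_lit 2) (.nd (nat_lit 3) (.nd (nat_lit 4) (.nd (nat_lit 5) (.nd (nat_lit 6) 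
(.lf (nat_lit 290433) (.g (nat_lit 477) (.e (nat_lit 311040) (nat_lit 34) (.e (nat_lit 393296) (nat_lit 26) (.e (nat_lit 475169) (nat_lit 22) .nil))) .nil)) 
(.lf (nat_lit 290497) (.g (nat_lit 3314) (.e (nat_lit 311312) (nat_lit 2) (.e (nat_lit 196672) (nat_lit 15) (.e (nat_lit 81954) (nat_lit 23) (.e (nat_lit 98349) (nat_lit 24) (.e (nat_lit 409651) (nat_lit 19) .nil))))) (.g (nat_lit 0) .nil .nil)))) (.nd (nat_lit 6) 
(.lf (nat_lit 290465) (.g (nat_lit 2503) (.e (nat_lit 311311) (nat_lit 2) (.e (nat_lit 196666) (nat_lit 13) (.e (nat_lit 65610) (nat_lit 10) (.e (nat_lit 344117) (nat_lit 21) (.e (nat_lit 516102) (nat_lit 0) .nil))))) .nil)) 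
(.lf (nat_lit 290529) (.g (nat_lit 778) (.e (nat_lit 311324) (nat_lit 9) (.e (nat_lit 426566) (nat_lit 34) (.e (nat_lit 393256) (nat_lit 19) .nil))) .nil)))) (.nd (nat_lit 5) (.nd (nat_lit 6) 
(.lf (nat_lit 290449) (.g (nat_lit 1509) (.e (nat_lit 311309) (nat_lit 1) (.e (nat_lit 164179) (nat_lit 154) (.e (nat_lit 57436) (nat_lit 17) (.e (nat_lit 376838) (nat_lit 11) .nil)))) .nil)) 
(.lf (nat_lit 290513) (.g (nat_lit 4115) (.e (nat_lit 311322) (nat_lit 9) (.e (nat_lit 426436) (nat_lit 18) (.e (nat_lit 98335) (nat_lit 18) (.e (nat_lit 164330) (nat_lit 230) .nil)))) .nil))) (.nd (nat_lit 6) 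
(.lf (nat_lit 290481) (.g (nat_lit 2669) (.e (nat_lit 311312) (nat_lit 2) (.e (nat_lit 196666) (nat_lit 13) (.e (nat_lit 65610) (nat_lit 10) (.e (nat_lit 344117) (nat_lit 21) (.e (nat_lit 516096) (nat_lit 0) .nil))))) .nil)) 
(.lf (nat_lit 290545) (.g (nat_lit 1658) (.e (nat_lit 311336) (nat_lit 12) (.e (nat_lit 475183) (nat_lit 29) (.e (nat_lit 557108) (nat_lit 15) (.e (nat_lit 188449) (nat_lit 22) .nil)))) .nil))))) (.nd (nat_lit 4) (.nd (nat_lit 5) (.nd (nat_lit 6) 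
(.lf (nat_lit 290441) (.g (nat_lit 4345) (.e (nat_lit 311301) (nat_lit 0) (.e (nat_lit 3238) (nat_lit 197) (.e (nat_lit 532535) (nat_lit 9) (.e (nat_lit 336099) (nat_lit 9) (.e (nat_lit 336013) (nat_lit 2) .nil))))) .nil)) 
(.lf (nat_lit 290505) (.g (nat_lit 285) (.e (nat_lit 311315) (nat_lit 3) (.e (nat_lit 204819) (nat_lit 17) (.e (nat_lit 7936) (nat_lit 362) .nil))) .nil))) (.nd (nat_lit 6) 
(.lf (nat_lit 290473) (.g (nat_lit 1209) (.e (nat_lit 311311) (nat_lit 2) (.e (nat_lit 196672) (nat_lit 15) (.e (nat_lit 81954) (nat_lit 23) (.e (nat_lit 98323) (nat_lit 17) .nil)))) .nil)) 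
(.lf (nat_lit 290537) (.g (nat_lit 1292) (.e (nat_lit 311325) (nat_lit 9) (.e (nat_lit 426402) (nat_lit 15) (.e (nat_lit 1859) (nat_lit 124) (.e (nat_lit 557109) (nat_lit 15) (.e (nat_lit 188449) (nat_lit 22) (.e (nat_lit 204544) (nat_lit 18) (.e (nat_lit 2820) (nat_lit 181) .nil))))))) (.g (nat_lit 4) .nil .nil))))) (.nd (nat_lit 5) (.nd (nat_lit 6) 
(.lf (nat_lit 290457) (.g (nat_lit 1928) (.e (nat_lit 311309) (nat_lit 1) (.e (nat_lit 164403) (nat_lit 256) (.e (nat_lit 57377) (nat_lit 3) (.e (nat_lit 98372) (nat_lit 29) .nil)))) .nil)) 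
(.lf (nat_lit 290521) (.g (nat_lit 3516) (.e (nat_lit 311324) (nat_lit 9) (.e (nat_lit 426436) (nat_lit 18) (.e (nat_lit 98335) (nat_lit 18) (.e (nat_lit 164305) (nat_lit 226) .nil)))) .nil))) (.nd (nat_lit 6) 
(.lf (nat_lit 290489) (.g (nat_lit 2071) (.e (nat_lit 311312) (nat_lit 2) (.e (nat_lit 196666) (nat_lit 13) (.e (nat_lit 65619) (nat_lit 10) (.e (nat_lit 344117) (nat_lit 21) (.e (nat_lit 516106) (nat_lit 0) .nil))))) .nil)) 
(.lf (nat_lit 290553) (.g (nat_lit 2337) (.e (nat_lit 311337) (nat_lit 12) (.e (nat_lit 475185) (nat_lit 29) (.e (nat_lit 557100) (nat_lit 13) (.e (nat_lit 172106) (nat_lit 10) (.e (nat_lit 434227) (nat_lit 20) .nil))))) .nil)))))) (.nd (nat_lit 3) (.nd (nat_lit 4) (.nd (nat_lit 5) (.nd (nat_lit 6) 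
(.lf (nat_lit 290437) (.g (nat_lit 2373) (.e (nat_lit 311040) (nat_lit 35) (.e (nat_lit 401454) (nat_lit 12) (.e (nat_lit 475198) (nat_lit 40) (.e (nat_lit 704596) (nat_lit 5) (.e (nat_lit 180288) (nat_lit 45) .nil))))) .nil)) 
(.lf (nat_lit 290501) (.g (nat_lit 1369) (.e (nat_lit 311312) (nat_lit 2) (.e (nat_lit 196672) (nat_lit 15) (.e (nat_lit 81956) (nat_lit 23) (.e (nat_lit 98325) (nat_lit 17) .nil)))) .nil))) (.nd (nat_lit 6) 
(.lf (nat_lit 290469) (.g (nat_lit 1878) (.e (nat_lit 311311) (nat_lit 2) (.e (nat_lit 196666) (nat_lit 13) (.e (nat_lit 65617) (nat_lit 10) (.e (nat_lit 344117) (nat_lit 21) (.e (nat_lit 516141) (nat_lit 8) (.e (nat_lit 425728) (nat_lit 19) .nil)))))) (.g (nat_lit 4) .nil .nil))) 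
(.lf (nat_lit 290533) (.g (nat_lit 1638) (.e (nat_lit 311325) (nat_lit 9) (.e (nat_lit 426402) (nat_lit 15) (.e (nat_lit 1849) (nat_lit 124) (.e (nat_lit 557108) (nat_lit 15) (.e (nat_lit 188449) (nat_lit 22) (.e (nat_lit 204544) (nat_lit 18) (.e (nat_lit 2815) (nat_lit 181) .nil))))))) (.g (nat_lit 4) .nil .nil))))) (.nd (nat_lit 5) (.nd (nat_lit 6) 
(.lf (nat_lit 290453) (.g (nat_lit 2590) (.e (nat_lit 311309) (nat_lit 1) (.e (nat_lit 164403) (nat_lit 256) (.e (nat_lit 57371) (nat_lit 2) (.e (nat_lit 90176) (nat_lit 15) (.e (nat_lit 188431) (nat_lit 20) .nil))))) .nil)) 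
(.lf (nat_lit 290517) (.g (nat_lit 467) (.e (nat_lit 311323) (nat_lit 9) (.e (nat_lit 426432) (nat_lit 17) (.e (nat_lit 98048) (nat_lit 6) .nil))) .nil))) (.nd (nat_lit 6) 
(.lf (nat_lit 290485) (.g (nat_lit 2942) (.e (nat_lit 311312) (nat_lit 2) (.e (nat_lit 196666) (nat_lit 13) (.e (nat_lit 65610) (nat_lit 10) (.e (nat_lit 344117) (nat_lit 21) (.e (nat_lit 524032) (nat_lit 0) .nil))))) .nil)) 
(.lf (nat_lit 290549) (.g (nat_lit 2118) (.e (nat_lit 311336) (nat_lit 12) (.e (nat_lit 475185) (nat_lit 29) (.e (nat_lit 557109) (nat_lit 15) (.e (nat_lit 188458) (nat_lit 25) .nil)))) .nil))))) (.nd (nat_lit 4) (.nd (nat_lit 5) (.nd (nat_lit 6) 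
(.lf (nat_lit 290445) (.g (nat_lit 1694) (.e (nat_lit 311308) (nat_lit 1) (.e (nat_lit 164183) (nat_lit 154) (.e (nat_lit 57411) (nat_lit 12) (.e (nat_lit 336211) (nat_lit 13) (.e (nat_lit 393264) (nat_lit 22) .nil))))) .nil)) 
(.lf (nat_lit 290509) (.g (nat_lit 3962) (.e (nat_lit 311315) (nat_lit 3) (.e (nat_lit 204855) (nat_lit 26) (.e (nat_lit 336099) (nat_lit 9) (.e (nat_lit 336013) (nat_lit 2) (.e (nat_lit 90161) (nat_lit 12) .nil))))) .nil))) (.nd (nat_lit 6) 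
(.lf (nat_lit 290477) (.g (nat_lit 5436) (.e (nat_lit 311311) (nat_lit 2) (.e (nat_lit 196674) (nat_lit 15) (.e (nat_lit 81956) (nat_lit 23) (.e (nat_lit 98350) (nat_lit 24) (.e (nat_lit 409650) (nat_lit 19) .nil))))) (.g (nat_lit 5) .nil .nil))) 
(.lf (nat_lit 290541) (.g (nat_lit 1099) (.e (nat_lit 311325) (nat_lit 9) (.e (nat_lit 426448) (nat_lit 20) (.e (nat_lit 114723) (nat_lit 24) .nil))) .nil)))) (.nd (nat_lit 5) (.nd (nat_lit 6) 
(.lf (nat_lit 290461) (.g (nat_lit 1489) (.e (nat_lit 311310) (nat_lit 2) (.e (nat_lit 196666) (nat_lit 13) (.e (nat_lit 65610) (nat_lit 10) (.e (nat_lit 344117) (nat_lit 21) .nil)))) .nil)) 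
(.lf (nat_lit 290525) (.g (nat_lit 1647) (.e (nat_lit 311324) (nat_lit 9) (.e (nat_lit 426448) (nat_lit 20) (.e (nat_lit 114723) (nat_lit 24) (.e (nat_lit 106534) (nat_lit 11) (.e (nat_lit 16425) (nat_lit 7) .nil))))) .nil))) (.nd (nat_lit 6) 
(.lf (nat_lit 290493) (.g (nat_lit 1298) (.e (nat_lit 311312) (nat_lit 2) (.e (nat_lit 196672) (nat_lit 15) (.e (nat_lit 81953) (nat_lit 22) (.e (nat_lit 90165) (nat_lit 12) .nil)))) .nil)) 
(.lf (nat_lit 290557) (.g (nat_lit 2089) (.e (nat_lit 311337) (nat_lit 12) (.e (nat_lit 475185) (nat_lit 29) (.e (nat_lit 557109) (nat_lit 15) (.e (nat_lit 188458) (nat_lit 25) .nil)))) .nil))))))) (.nd (nat_lit 2) (.nd (nat_lit 3) (.nd (nat_lit 4) (.nd (nat_lit 5) (.nd (nat_lit 6) 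
(.lf (nat_lit 290435) (.g (nat_lit 1378) (.e (nat_lit 311040) (nat_lit 35) (.e (nat_lit 401454) (nat_lit 12) (.e (nat_lit 475196) (nat_lit 40) .nil))) .nil)) 
(.lf (nat_lit 290499) (.g (nat_lit 2138) (.e (nat_lit 311312) (nat_lit 2) (.e (nat_lit 196672) (nat_lit 15) (.e (nat_lit 81954) (nat_lit 23) (.e (nat_lit 98353) (nat_lit 25) (.e (nat_lit 425728) (nat_lit 19) .nil))))) (.g (nat_lit 4) .nil .nil)))) (.nd (nat_lit 6) 
(.lf (nat_lit 290467) (.g (nat_lit 3389) (.e (nat_lit 311311) (nat_lit 2) (.e (nat_lit 196666) (nat_lit 13) (.e (nat_lit 65610) (nat_lit 10) (.e (nat_lit 344117) (nat_lit 21) (.e (nat_lit 516138) (nat_lit 7) (.e (nat_lit 409650) (nat_lit 19) .nil)))))) (.g (nat_lit 5) .nil .nil))) 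
(.lf (nat_lit 290531) (.g (nat_lit 1859) (.e (nat_lit 311325) (nat_lit 9) (.e (nat_lit 426402) (nat_lit 15) (.e (nat_lit 1848) (nat_lit 124) (.e (nat_lit 557108) (nat_lit 15) (.e (nat_lit 188449) (nat_lit 22) (.e (nat_lit 204544) (nat_lit 18) (.e (nat_lit 2815) (nat_lit 181) .nil))))))) (.g (nat_lit 4) .nil .nil))))) (.nd (nat_lit 5) (.nd (nat_lit 6) 
(.lf (nat_lit 290451) (.g (nat_lit 1306) (.e (nat_lit 311309) (nat_lit 1) (.e (nat_lit 164179) (nat_lit 154) (.e (nat_lit 57437) (nat_lit 17) (.e (nat_lit 376842) (nat_lit 11) .nil)))) .nil)) 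
(.lf (nat_lit 290515) (.g (nat_lit 1432) (.e (nat_lit 311322) (nat_lit 9) (.e (nat_lit 426436) (nat_lit 18) (.e (nat_lit 98342) (nat_lit 20) (.e (nat_lit 229120) (nat_lit 12) .nil)))) .nil))) (.nd (nat_lit 6) 
(.lf (nat_lit 290483) (.g (nat_lit 2148) (.e (nat_lit 311312) (nat_lit 2) (.e (nat_lit 196666) (nat_lit 13) (.e (nat_lit 65610) (nat_lit 10) (.e (nat_lit 344117) (nat_lit 21) (.e (nat_lit 516102) (nat_lit 0) .nil))))) .nil)) 
(.lf (nat_lit 290547) (.g (nat_lit 2793) (.e (nat_lit 311336) (nat_lit 12) (.e (nat_lit 475185) (nat_lit 29) (.e (nat_lit 557100) (nat_lit 13) (.e (nat_lit 172113) (nat_lit 10) .nil)))) .nil))))) (.nd (nat_lit 4) (.nd (nat_lit 5) (.nd (nat_lit 6) 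
(.lf (nat_lit 290443) (.g (nat_lit 1017) (.e (nat_lit 311308) (nat_lit 1) (.e (nat_lit 164182) (nat_lit 154) (.e (nat_lit 57411) (nat_lit 12) (.e (nat_lit 336211) (nat_lit 13) .nil)))) .nil)) 
(.lf (nat_lit 290507) (.g (nat_lit 1477) (.e (nat_lit 311315) (nat_lit 3) (.e (nat_lit 204846) (nat_lit 24) (.e (nat_lit 319511) (nat_lit 10) (.e (nat_lit 5293) (nat_lit 298) (.e (nat_lit 7936) (nat_lit 92) .nil))))) .nil))) (.nd (nat_lit 6) 
(.lf (nat_lit 290475) (.g (nat_lit 2109) (.e (nat_lit 311311) (nat_lit 2) (.e (nat_lit 196672) (nat_lit 15) (.e (nat_lit 81954) (nat_lit 23) (.e (nat_lit 98352) (nat_lit 25) (.e (nat_lit 425728) (nat_lit 19) .nil))))) (.g (nat_lit 4) .nil .nil))) 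
(.lf (nat_lit 290539) (.g (nat_lit 4043) (.e (nat_lit 311325) (nat_lit 9) (.e (nat_lit 426436) (nat_lit 18) (.e (nat_lit 98335) (nat_lit 18) (.e (nat_lit 164305) (nat_lit 226) .nil)))) .nil)))) (.nd (nat_lit 5) (.nd (nat_lit 6) 
(.lf (nat_lit 290459) (.g (nat_lit 2133) (.e (nat_lit 311309) (nat_lit 1) (.e (nat_lit 164403) (nat_lit 256) (.e (nat_lit 57378) (nat_lit 3) (.e (nat_lit 98374) (nat_lit 29) .nil)))) .nil)) 
(.lf (nat_lit 290523) (.g (nat_lit 1501) (.e (nat_lit 311324) (nat_lit 9) (.e (nat_lit 426436) (nat_lit 18) (.e (nat_lit 98341) (nat_lit 20) (.e (nat_lit 229120) (nat_lit 12) .nil)))) .nil))) (.nd (nat_lit 6) 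
(.lf (nat_lit 290491) (.g (nat_lit 2092) (.e (nat_lit 311312) (nat_lit 2) (.e (nat_lit 196671) (nat_lit 15) (.e (nat_lit 81953) (nat_lit 22) (.e (nat_lit 90130) (nat_lit 9) .nil)))) .nil)) 
(.lf (nat_lit 290555) (.g (nat_lit 2217) (.e (nat_lit 311337) (nat_lit 12) (.e (nat_lit 475185) (nat_lit 29) (.e (nat_lit 557101) (nat_lit 13) (.e (nat_lit 172115) (nat_lit 10) (.e (nat_lit 434227) (nat_lit 20) (.e (nat_lit 507947) (nat_lit 19) .nil)))))) (.g (nat_lit 4) .nil .nil))))))) (.nd (nat_lit 3) (.nd (nat_lit 4) (.nd (nat_lit 5) (.nd (nat_lit 6) 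
(.lf (nat_lit 290439) (.g (nat_lit 994) (.e (nat_lit 311040) (nat_lit 35) (.e (nat_lit 401454) (nat_lit 12) (.e (nat_lit 475219) (nat_lit 44) .nil))) .nil)) 
(.lf (nat_lit 290503) (.g (nat_lit 558) (.e (nat_lit 311314) (nat_lit 3) (.e (nat_lit 204846) (nat_lit 24) (.e (nat_lit 319534) (nat_lit 16) .nil))) .nil))) (.nd (nat_lit 6) 
(.lf (nat_lit 290471) (.g (nat_lit 1244) (.e (nat_lit 311311) (nat_lit 2) (.e (nat_lit 196672) (nat_lit 15) (.e (nat_lit 81951) (nat_lit 22) (.e (nat_lit 90165) (nat_lit 12) .nil)))) .nil)) 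
(.lf (nat_lit 290535) (.g (nat_lit 1426) (.e (nat_lit 311325) (nat_lit 9) (.e (nat_lit 426402) (nat_lit 15) (.e (nat_lit 1859) (nat_lit 124) (.e (nat_lit 557109) (nat_lit 15) (.e (nat_lit 188449) (nat_lit 22) (.e (nat_lit 204544) (nat_lit 18) (.e (nat_lit 2814) (nat_lit 181) .nil))))))) (.g (nat_lit 4) .nil .nil))))) (.nd (nat_lit 5) (.nd (nat_lit 6) 
(.lf (nat_lit 290455) (.g (nat_lit 1472) (.e (nat_lit 311309) (nat_lit 1) (.e (nat_lit 164403) (nat_lit 256) (.e (nat_lit 57373) (nat_lit 2) (.e (nat_lit 90176) (nat_lit 15) .nil)))) .nil)) 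
(.lf (nat_lit 290519) (.g (nat_lit 1055) (.e (nat_lit 311323) (nat_lit 9) (.e (nat_lit 426448) (nat_lit 20) (.e (nat_lit 114721) (nat_lit 24) .nil))) .nil))) (.nd (nat_lit 6) 
(.lf (nat_lit 290487) (.g (nat_lit 3658) (.e (nat_lit 311312) (nat_lit 2) (.e (nat_lit 196666) (nat_lit 13) (.e (nat_lit 65610) (nat_lit 10) (.e (nat_lit 344117) (nat_lit 21) (.e (nat_lit 516142) (nat_lit 8) (.e (nat_lit 425728) (nat_lit 19) .nil)))))) (.g (nat_lit 5) .nil .nil))) 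
(.lf (nat_lit 290551) (.g (nat_lit 1658) (.e (nat_lit 311337) (nat_lit 12) (.e (nat_lit 475183) (nat_lit 29) (.e (nat_lit 557108) (nat_lit 15) (.e (nat_lit 188449) (nat_lit 22) .nil)))) .nil))))) (.nd (nat_lit 4) (.nd (nat_lit 5) (.nd (nat_lit 6) 
(.lf (nat_lit 290447) (.g (nat_lit 2643) (.e (nat_lit 311308) (nat_lit 1) (.e (nat_lit 164403) (nat_lit 256) (.e (nat_lit 57373) (nat_lit 2) (.e (nat_lit 90176) (nat_lit 15) (.e (nat_lit 188431) (nat_lit 20) .nil))))) .nil)) 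
(.lf (nat_lit 290511) (.g (nat_lit 483) (.e (nat_lit 311322) (nat_lit 9) (.e (nat_lit 426428) (nat_lit 17) (.e (nat_lit 98048) (nat_lit 6) .nil))) .nil))) (.nd (nat_lit 6) 
(.lf (nat_lit 290479) (.g (nat_lit 621) (.e (nat_lit 311312) (nat_lit 2) (.e (nat_lit 196630) (nat_lit 9) (.e (nat_lit 1393) (nat_lit 106) (.e (nat_lit 319531) (nat_lit 16) .nil)))) .nil)) 
(.lf (nat_lit 290543) (.g (nat_lit 3141) (.e (nat_lit 311335) (nat_lit 12) (.e (nat_lit 475185) (nat_lit 29) (.e (nat_lit 557100) (nat_lit 13) (.e (nat_lit 172113) (nat_lit 10) .nil)))) .nil)))) (.nd (nat_lit 5) (.nd (nat_lit 6) 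
(.lf (nat_lit 290463) (.g (nat_lit 2974) (.e (nat_lit 311311) (nat_lit 2) (.e (nat_lit 196666) (nat_lit 13) (.e (nat_lit 65610) (nat_lit 10) (.e (nat_lit 344117) (nat_lit 21) (.e (nat_lit 516096) (nat_lit 0) .nil))))) .nil)) 
(.lf (nat_lit 290527) (.g (nat_lit 4140) (.e (nat_lit 311324) (nat_lit 9) (.e (nat_lit 426566) (nat_lit 34) (.e (nat_lit 393253) (nat_lit 18) (.e (nat_lit 164348) (nat_lit 240) .nil)))) .nil))) (.nd (nat_lit 6) 
(.lf (nat_lit 290495) (.g (nat_lit 1119) (.e (nat_lit 311312) (nat_lit 2) (.e (nat_lit 196672) (nat_lit 15) (.e (nat_lit 81954) (nat_lit 23) (.e (nat_lit 98320) (nat_lit 17) .nil)))) .nil)) 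
(.lf (nat_lit 290559) (.g (nat_lit 1661) (.e (nat_lit 311337) (nat_lit 12) (.e (nat_lit 475214) (nat_lit 42) (.e (nat_lit 720950) (nat_lit 24) (.e (nat_lit 106534) (nat_lit 11) (.e (nat_lit 16425) (nat_lit 7) .nil))))) .nil)))))))))

noncomputable def tv3673 : DT := (.nd (nat_lit 0) (.nd (nat_lit 1) (.nd (nat_lit 2) (.nd (nat_lit 3) (.nd (nat_lit 4) (.nd (nat_lit 5) 
(.lf (nat_lit 290560) (.g (nat_lit 1076) (.e (nat_lit 311337) (nat_lit 12) (.e (nat_lit 475214) (nat_lit 42) (.e (nat_lit 720952) (nat_lit 24) .nil))) .nil)) 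
(.lf (nat_lit 290592) (.g (nat_lit 3750) (.e (nat_lit 311346) (nat_lit 15) (.e (nat_lit 1853) (nat_lit 124) (.e (nat_lit 557108) (nat_lit 15) (.e (nat_lit 188452) (nat_lit 23) (.e (nat_lit 204849) (nat_lit 25) .nil))))) .nil))) (.nd (nat_lit 5) 
(.lf (nat_lit 290576) (.g (nat_lit 1794) (.e (nat_lit 311339) (nat_lit 12) (.e (nat_lit 475183) (nat_lit 29) (.e (nat_lit 557108) (nat_lit 15) (.e (nat_lit 188449) (nat_lit 22) .nil)))) .nil)) 
(.lf (nat_lit 290608) (.g (nat_lit 3460) (.e (nat_lit 311348) (nat_lit 15) (.e (nat_lit 1848) (nat_lit 124) (.e (nat_lit 557108) (nat_lit 15) (.e (nat_lit 188452) (nat_lit 23) (.e (nat_lit 204821) (nat_lit 17) (.e (nat_lit 6136) (nat_lit 332) (.e (nat_lit 1386) (nat_lit 105) .nil))))))) (.g (nat_lit 0) .nil .nil))))) (.nd (nat_lit 4) (.nd (nat_lit 5) 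
(.lf (nat_lit 290568) (.g (nat_lit 3141) (.e (nat_lit 311338) (nat_lit 12) (.e (nat_lit 475185) (nat_lit 29) (.e (nat_lit 557100) (nat_lit 13) (.e (nat_lit 172113) (nat_lit 10) .nil)))) .nil)) 
(.lf (nat_lit 290600) (.g (nat_lit 4170) (.e (nat_lit 311348) (nat_lit 15) (.e (nat_lit 1848) (nat_lit 124) (.e (nat_lit 557097) (nat_lit 13) (.e (nat_lit 172115) (nat_lit 10) (.e (nat_lit 434231) (nat_lit 23) (.e (nat_lit 532490) (nat_lit 0) (.e (nat_lit 6136) (nat_lit 332) (.e (nat_lit 1386) (nat_lit 105) .nil)))))))) (.g (nat_lit 0) .nil .nil)))) (.nd (nat_lit 5) 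
(.lf (nat_lit 290584) (.g (nat_lit 797) (.e (nat_lit 311339) (nat_lit 12) (.e (nat_lit 475185) (nat_lit 29) (.e (nat_lit 557109) (nat_lit 15) .nil))) .nil)) 
(.lf (nat_lit 290616) (.g (nat_lit 2252) (.e (nat_lit 311348) (nat_lit 15) (.e (nat_lit 1849) (nat_lit 124) (.e (nat_lit 557108) (nat_lit 15) (.e (nat_lit 188449) (nat_lit 22) (.e (nat_lit 196661) (nat_lit 12) (.e (nat_lit 57714) (nat_lit 176) (.e (nat_lit 1383) (nat_lit 105) .nil))))))) (.g (nat_lit 0) .nil .nil)))))) (.nd (nat_lit 3) (.nd (nat_lit 4) (.nd (nat_lit 5) 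
(.lf (nat_lit 290564) (.g (nat_lit 3670) (.e (nat_lit 311338) (nat_lit 12) (.e (nat_lit 475184) (nat_lit 29) (.e (nat_lit 557109) (nat_lit 15) (.e (nat_lit 188449) (nat_lit 22) (.e (nat_lit 196683) (nat_lit 18) .nil))))) .nil)) 
(.lf (nat_lit 290596) (.g (nat_lit 3305) (.e (nat_lit 311348) (nat_lit 15) (.e (nat_lit 1848) (nat_lit 124) (.e (nat_lit 557097) (nat_lit 13) (.e (nat_lit 172097) (nat_lit 9) (.e (nat_lit 426140) (nat_lit 3) (.e (nat_lit 204821) (nat_lit 17) (.e (nat_lit 6136) (nat_lit 332) (.e (nat_lit 1385) (nat_lit 105) .nil)))))))) (.g (nat_lit 0) .nil .nil)))) (.nd (nat_lit 5) 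
(.lf (nat_lit 290580) (.g (nat_lit 1689) (.e (nat_lit 311339) (nat_lit 12) (.e (nat_lit 475184) (nat_lit 29) (.e (nat_lit 557109) (nat_lit 15) (.e (nat_lit 188458) (nat_lit 25) (.e (nat_lit 253696) (nat_lit 18) .nil))))) .nil)) 
(.lf (nat_lit 290612) (.g (nat_lit 3501) (.e (nat_lit 311348) (nat_lit 15) (.e (nat_lit 1849) (nat_lit 124) (.e (nat_lit 557097) (nat_lit 13) (.e (nat_lit 172115) (nat_lit 10) (.e (nat_lit 434231) (nat_lit 23) (.e (nat_lit 532490) (nat_lit 0) (.e (nat_lit 6136) (nat_lit 332) (.e (nat_lit 1383) (nat_lit 105) .nil)))))))) (.g (nat_lit 0) .nil .nil))))) (.nd (nat_lit 4) (.nd (nat_lit 5) 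
(.lf (nat_lit 290572) (.g (nat_lit 1197) (.e (nat_lit 311338) (nat_lit 12) (.e (nat_lit 475214) (nat_lit 42) (.e (nat_lit 720950) (nat_lit 24) .nil))) .nil)) 
(.lf (nat_lit 290604) (.g (nat_lit 2685) (.e (nat_lit 311348) (nat_lit 15) (.e (nat_lit 1848) (nat_lit 124) (.e (nat_lit 557107) (nat_lit 15) (.e (nat_lit 188450) (nat_lit 23) (.e (nat_lit 204821) (nat_lit 17) (.e (nat_lit 6136) (nat_lit 332) (.e (nat_lit 1386) (nat_lit 105) .nil))))))) (.g (nat_lit 0) .nil .nil)))) (.nd (nat_lit 5) 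
(.lf (nat_lit 290588) (.g (nat_lit 1807) (.e (nat_lit 311343) (nat_lit 13) (.e (nat_lit 483372) (nat_lit 21) (.e (nat_lit 319533) (nat_lit 16) (.e (nat_lit 286725) (nat_lit 0) (.e (nat_lit 988) (nat_lit 81) .nil))))) .nil)) 
(.lf (nat_lit 290620) (.g (nat_lit 2751) (.e (nat_lit 311348) (nat_lit 15) (.e (nat_lit 1849) (nat_lit 124) (.e (nat_lit 557109) (nat_lit 15) (.e (nat_lit 188449) (nat_lit 22) (.e (nat_lit 196661) (nat_lit 12) (.e (nat_lit 57714) (nat_lit 176) (.e (nat_lit 1383) (nat_lit 105) .nil))))))) (.g (nat_lit 5) .nil .nil))))))) (.nd (nat_lit 2) (.nd (nat_lit 3) (.nd (nat_lit 4) (.nd (nat_lit 5) 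
(.lf (nat_lit 290562) (.g (nat_lit 688) (.e (nat_lit 311338) (nat_lit 12) (.e (nat_lit 475179) (nat_lit 24) (.e (nat_lit 516131) (nat_lit 3) .nil))) .nil)) 
(.lf (nat_lit 290594) (.g (nat_lit 2626) (.e (nat_lit 311348) (nat_lit 15) (.e (nat_lit 1788) (nat_lit 119) (.e (nat_lit 516151) (nat_lit 9) (.e (nat_lit 426042) (nat_lit 0) .nil)))) .nil))) (.nd (nat_lit 5) 
(.lf (nat_lit 290578) (.g (nat_lit 496) (.e (nat_lit 311339) (nat_lit 12) (.e (nat_lit 475183) (nat_lit 29) (.e (nat_lit 557109) (nat_lit 15) .nil))) .nil)) 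
(.lf (nat_lit 290610) (.g (nat_lit 2845) (.e (nat_lit 311348) (nat_lit 15) (.e (nat_lit 1849) (nat_lit 124) (.e (nat_lit 557097) (nat_lit 13) (.e (nat_lit 172097) (nat_lit 9) (.e (nat_lit 426140) (nat_lit 3) (.e (nat_lit 204821) (nat_lit 17) (.e (nat_lit 6136) (nat_lit 332) (.e (nat_lit 1383) (nat_lit 105) .nil)))))))) (.g (nat_lit 0) .nil .nil))))) (.nd (nat_lit 4) (.nd (nat_lit 5) 
(.lf (nat_lit 290570) (.g (nat_lit 806) (.e (nat_lit 311338) (nat_lit 12) (.e (nat_lit 475185) (nat_lit 29) (.e (nat_lit 557103) (nat_lit 14) .nil))) .nil)) 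
(.lf (nat_lit 290602) (.g (nat_lit 2404) (.e (nat_lit 311348) (nat_lit 15) (.e (nat_lit 1848) (nat_lit 124) (.e (nat_lit 557107) (nat_lit 15) (.e (nat_lit 188447) (nat_lit 22) (.e (nat_lit 196661) (nat_lit 12) (.e (nat_lit 57714) (nat_lit 176) (.e (nat_lit 1385) (nat_lit 105) .nil))))))) (.g (nat_lit 0) .nil .nil)))) (.nd (nat_lit 5) 
(.lf (nat_lit 290586) (.g (nat_lit 736) (.e (nat_lit 311343) (nat_lit 13) (.e (nat_lit 483341) (nat_lit 9) (.e (nat_lit 433920) (nat_lit 24) .nil))) .nil)) 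
(.lf (nat_lit 290618) (.g (nat_lit 2848) (.e (nat_lit 311348) (nat_lit 15) (.e (nat_lit 1849) (nat_lit 124) (.e (nat_lit 557108) (nat_lit 15) (.e (nat_lit 188452) (nat_lit 23) (.e (nat_lit 204821) (nat_lit 17) (.e (nat_lit 6136) (nat_lit 332) (.e (nat_lit 1383) (nat_lit 105) .nil))))))) (.g (nat_lit 0) .nil .nil)))))) (.nd (nat_lit 3) (.nd (nat_lit 4) (.nd (nat_lit 5) 
(.lf (nat_lit 290566) (.g (nat_lit 1015) (.e (nat_lit 311338) (nat_lit 12) (.e (nat_lit 475184) (nat_lit 29) (.e (nat_lit 557109) (nat_lit 15) (.e (nat_lit 188458) (nat_lit 25) .nil)))) .nil)) 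
(.lf (nat_lit 290598) (.g (nat_lit 2409) (.e (nat_lit 311348) (nat_lit 15) (.e (nat_lit 1848) (nat_lit 124) (.e (nat_lit 557097) (nat_lit 13) (.e (nat_lit 172097) (nat_lit 9) (.e (nat_lit 426140) (nat_lit 3) (.e (nat_lit 204821) (nat_lit 17) (.e (nat_lit 6149) (nat_lit 332) (.e (nat_lit 1386) (nat_lit 105) .nil)))))))) (.g (nat_lit 5) .nil .nil)))) (.nd (nat_lit 5) 
(.lf (nat_lit 290582) (.g (nat_lit 3128) (.e (nat_lit 311339) (nat_lit 12) (.e (nat_lit 475185) (nat_lit 29) (.e (nat_lit 557100) (nat_lit 13) (.e (nat_lit 172113) (nat_lit 10) .nil)))) .nil)) 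
(.lf (nat_lit 290614) (.g (nat_lit 2067) (.e (nat_lit 311348) (nat_lit 15) (.e (nat_lit 1849) (nat_lit 124) (.e (nat_lit 557107) (nat_lit 15) (.e (nat_lit 188447) (nat_lit 22) (.e (nat_lit 196661) (nat_lit 12) (.e (nat_lit 57714) (nat_lit 176) (.e (nat_lit 1383) (nat_lit 105) .nil))))))) (.g (nat_lit 0) .nil .nil))))) (.nd (nat_lit 4) (.nd (nat_lit 5) 
(.lf (nat_lit 290574) (.g (nat_lit 688) (.e (nat_lit 311339) (nat_lit 12) (.e (nat_lit 475179) (nat_lit 24) (.e (nat_lit 516129) (nat_lit 3) .nil))) .nil)) 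
(.lf (nat_lit 290606) (.g (nat_lit 1866) (.e (nat_lit 311348) (nat_lit 15) (.e (nat_lit 1848) (nat_lit 124) (.e (nat_lit 557108) (nat_lit 15) (.e (nat_lit 188452) (nat_lit 23) (.e (nat_lit 204821) (nat_lit 17) .nil))))) .nil))) (.nd (nat_lit 5) 
(.lf (nat_lit 290590) (.g (nat_lit 3755) (.e (nat_lit 311345) (nat_lit 14) (.e (nat_lit 491560) (nat_lit 10) (.e (nat_lit 344156) (nat_lit 36) (.e (nat_lit 638998) (nat_lit 8) (.e (nat_lit 172079) (nat_lit 7) (.e (nat_lit 409651) (nat_lit 19) .nil)))))) (.g (nat_lit 6) .nil .nil))) 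
(.lf (nat_lit 290622) (.g (nat_lit 2909) (.e (nat_lit 311348) (nat_lit 15) (.e (nat_lit 1849) (nat_lit 124) (.e (nat_lit 557109) (nat_lit 15) (.e (nat_lit 188449) (nat_lit 22) (.e (nat_lit 196661) (nat_lit 12) (.e (nat_lit 57714) (nat_lit 176) (.e (nat_lit 1385) (nat_lit 105) .nil))))))) (.g (nat_lit 5) .nil .nil)))))))) 
(.nd (nat_lit 1) (.nd (nat_lit 2) (.nd (nat_lit 3) (.nd (nat_lit 4) (.nd (nat_lit 5) 
(.lf (nat_lit 290561) (.g (nat_lit 875) (.e (nat_lit 311338) (nat_lit 12) (.e (nat_lit 475179) (nat_lit 24) (.e (nat_lit 516117) (nat_lit 1) .nil))) .nil)) 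
(.lf (nat_lit 290593) (.g (nat_lit 539) (.e (nat_lit 311347) (nat_lit 15) (.e (nat_lit 1856) (nat_lit 124) (.e (nat_lit 557109) (nat_lit 15) .nil))) .nil))) (.nd (nat_lit 5) 
(.lf (nat_lit 290577) (.g (nat_lit 2681) (.e (nat_lit 311339) (nat_lit 12) (.e (nat_lit 475183) (nat_lit 29) (.e (nat_lit 557108) (nat_lit 15) (.e (nat_lit 188449) (nat_lit 22) (.e (nat_lit 204544) (nat_lit 18) (.e (nat_lit 2816) (nat_lit 181) .nil)))))) (.g (nat_lit 4) .nil .nil))) 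
(.lf (nat_lit 290609) (.g (nat_lit 2881) (.e (nat_lit 311348) (nat_lit 15) (.e (nat_lit 1849) (nat_lit 124) (.e (nat_lit 557097) (nat_lit 13) (.e (nat_lit 172097) (nat_lit 9) (.e (nat_lit 426125) (nat_lit 2) (.e (nat_lit 196661) (nat_lit 12) (.e (nat_lit 57714) (nat_lit 176) (.e (nat_lit 1383) (nat_lit 105) .nil)))))))) (.g (nat_lit 0) .nil .nil))))) (.nd (nat_lit 4) (.nd (nat_lit 5) 
(.lf (nat_lit 290569) (.g (nat_lit 2227) (.e (nat_lit 311338) (nat_lit 12) (.e (nat_lit 475185) (nat_lit 29) (.e (nat_lit 557101) (nat_lit 13) (.e (nat_lit 172115) (nat_lit 10) .nil)))) .nil)) 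
(.lf (nat_lit 290601) (.g (nat_lit 1623) (.e (nat_lit 311348) (nat_lit 15) (.e (nat_lit 1848) (nat_lit 124) (.e (nat_lit 557107) (nat_lit 15) (.e (nat_lit 188447) (nat_lit 22) (.e (nat_lit 196661) (nat_lit 12) .nil))))) .nil))) (.nd (nat_lit 5) 
(.lf (nat_lit 290585) (.g (nat_lit 1483) (.e (nat_lit 311341) (nat_lit 13) (.e (nat_lit 483337) (nat_lit 9) (.e (nat_lit 426107) (nat_lit 1) (.e (nat_lit 164347) (nat_lit 240) .nil)))) .nil)) 
(.lf (nat_lit 290617) (.g (nat_lit 1564) (.e (nat_lit 311348) (nat_lit 15) (.e (nat_lit 1849) (nat_lit 124) (.e (nat_lit 557108) (nat_lit 15) (.e (nat_lit 188452) (nat_lit 23) (.e (nat_lit 204821) (nat_lit 17) .nil))))) .nil))))) (.nd (nat_lit 3) (.nd (nat_lit 4) (.nd (nat_lit 5) 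
(.lf (nat_lit 290565) (.g (nat_lit 1727) (.e (nat_lit 311338) (nat_lit 12) (.e (nat_lit 475184) (nat_lit 29) (.e (nat_lit 557109) (nat_lit 15) (.e (nat_lit 188449) (nat_lit 22) (.e (nat_lit 204544) (nat_lit 18) .nil))))) .nil)) 
(.lf (nat_lit 290597) (.g (nat_lit 3492) (.e (nat_lit 311348) (nat_lit 15) (.e (nat_lit 1848) (nat_lit 124) (.e (nat_lit 557097) (nat_lit 13) (.e (nat_lit 172097) (nat_lit 9) (.e (nat_lit 426140) (nat_lit 3) (.e (nat_lit 204821) (nat_lit 17) (.e (nat_lit 6136) (nat_lit 332) (.e (nat_lit 1386) (nat_lit 105) .nil)))))))) (.g (nat_lit 0) .nil .nil)))) (.nd (nat_lit 5) 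
(.lf (nat_lit 290581) (.g (nat_lit 3225) (.e (nat_lit 311339) (nat_lit 12) (.e (nat_lit 475185) (nat_lit 29) (.e (nat_lit 557100) (nat_lit 13) (.e (nat_lit 172106) (nat_lit 10) (.e (nat_lit 434227) (nat_lit 20) .nil))))) .nil)) 
(.lf (nat_lit 290613) (.g (nat_lit 1399) (.e (nat_lit 311348) (nat_lit 15) (.e (nat_lit 1849) (nat_lit 124) (.e (nat_lit 557107) (nat_lit 15) (.e (nat_lit 188447) (nat_lit 22) (.e (nat_lit 196661) (nat_lit 12) .nil))))) .nil)))) (.nd (nat_lit 4) (.nd (nat_lit 5) 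
(.lf (nat_lit 290573) (.g (nat_lit 1246) (.e (nat_lit 311339) (nat_lit 12) (.e (nat_lit 475178) (nat_lit 24) (.e (nat_lit 516129) (nat_lit 3) (.e (nat_lit 229120) (nat_lit 12) .nil)))) .nil)) 
(.lf (nat_lit 290605) (.g (nat_lit 2579) (.e (nat_lit 311348) (nat_lit 15) (.e (nat_lit 1848) (nat_lit 124) (.e (nat_lit 557108) (nat_lit 15) (.e (nat_lit 188449) (nat_lit 22) (.e (nat_lit 196661) (nat_lit 12) (.e (nat_lit 57714) (nat_lit 176) (.e (nat_lit 1385) (nat_lit 105) .nil))))))) (.g (nat_lit 0) .nil .nil)))) (.nd (nat_lit 5) 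
(.lf (nat_lit 290589) (.g (nat_lit 2698) (.e (nat_lit 311343) (nat_lit 13) (.e (nat_lit 483372) (nat_lit 21) (.e (nat_lit 319534) (nat_lit 16) (.e (nat_lit 286728) (nat_lit 0) (.e (nat_lit 2281) (nat_lit 150) (.e (nat_lit 777984) (nat_lit 0) (.e (nat_lit 1385) (nat_lit 105) .nil))))))) (.g (nat_lit 5) .nil .nil))) 
(.lf (nat_lit 290621) (.g (nat_lit 2777) (.e (nat_lit 311348) (nat_lit 15) (.e (nat_lit 1849) (nat_lit 124) (.e (nat_lit 557109) (nat_lit 15) (.e (nat_lit 188449) (nat_lit 22) (.e (nat_lit 196661) (nat_lit 12) (.e (nat_lit 57714) (nat_lit 176) (.e (nat_lit 1384) (nat_lit 105) .nil))))))) (.g (nat_lit 5) .nil .nil))))))) (.nd (nat_lit 2) (.nd (nat_lit 3) (.nd (nat_lit 4) (.nd (nat_lit 5) 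
(.lf (nat_lit 290563) (.g (nat_lit 1672) (.e (nat_lit 311338) (nat_lit 12) (.e (nat_lit 475183) (nat_lit 29) (.e (nat_lit 557108) (nat_lit 15) (.e (nat_lit 188449) (nat_lit 22) .nil)))) .nil)) 
(.lf (nat_lit 290595) (.g (nat_lit 3355) (.e (nat_lit 311348) (nat_lit 15) (.e (nat_lit 1848) (nat_lit 124) (.e (nat_lit 557097) (nat_lit 13) (.e (nat_lit 172097) (nat_lit 9) (.e (nat_lit 426125) (nat_lit 2) (.e (nat_lit 196661) (nat_lit 12) (.e (nat_lit 57714) (nat_lit 176) (.e (nat_lit 1385) (nat_lit 105) .nil)))))))) (.g (nat_lit 0) .nil .nil)))) (.nd (nat_lit 5) 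
(.lf (nat_lit 290579) (.g (nat_lit 1220) (.e (nat_lit 311339) (nat_lit 12) (.e (nat_lit 475184) (nat_lit 29) (.e (nat_lit 557109) (nat_lit 15) (.e (nat_lit 188449) (nat_lit 22) .nil)))) .nil)) 
(.lf (nat_lit 290611) (.g (nat_lit 2091) (.e (nat_lit 311348) (nat_lit 15) (.e (nat_lit 1849) (nat_lit 124) (.e (nat_lit 557097) (nat_lit 13) (.e (nat_lit 172097) (nat_lit 9) (.e (nat_lit 426140) (nat_lit 3) (.e (nat_lit 204821) (nat_lit 17) (.e (nat_lit 6149) (nat_lit 332) (.e (nat_lit 1386) (nat_lit 105) .nil)))))))) (.g (nat_lit 5) .nil .nil))))) (.nd (nat_lit 4) (.nd (nat_lit 5) 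
(.lf (nat_lit 290571) (.g (nat_lit 803) (.e (nat_lit 311338) (nat_lit 12) (.e (nat_lit 475185) (nat_lit 29) (.e (nat_lit 557105) (nat_lit 14) .nil))) .nil)) 
(.lf (nat_lit 290603) (.g (nat_lit 2493) (.e (nat_lit 311348) (nat_lit 15) (.e (nat_lit 1848) (nat_lit 124) (.e (nat_lit 557107) (nat_lit 15) (.e (nat_lit 188450) (nat_lit 23) (.e (nat_lit 204821) (nat_lit 17) (.e (nat_lit 6136) (nat_lit 332) (.e (nat_lit 1385) (nat_lit 105) .nil))))))) (.g (nat_lit 0) .nil .nil)))) (.nd (nat_lit 5) 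
(.lf (nat_lit 290587) (.g (nat_lit 2333) (.e (nat_lit 311343) (nat_lit 13) (.e (nat_lit 483372) (nat_lit 21) (.e (nat_lit 319533) (nat_lit 16) (.e (nat_lit 286724) (nat_lit 0) (.e (nat_lit 2281) (nat_lit 150) (.e (nat_lit 777984) (nat_lit 0) (.e (nat_lit 1385) (nat_lit 105) .nil))))))) (.g (nat_lit 5) .nil .nil))) 
(.lf (nat_lit 290619) (.g (nat_lit 2897) (.e (nat_lit 311348) (nat_lit 15) (.e (nat_lit 1849) (nat_lit 124) (.e (nat_lit 557108) (nat_lit 15) (.e (nat_lit 188452) (nat_lit 23) (.e (nat_lit 204821) (nat_lit 17) (.e (nat_lit 6136) (nat_lit 332) (.e (nat_lit 1384) (nat_lit 105) .nil))))))) (.g (nat_lit 0) .nil .nil)))))) (.nd (nat_lit 3) (.nd (nat_lit 4) (.nd (nat_lit 5) 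
(.lf (nat_lit 290567) (.g (nat_lit 921) (.e (nat_lit 311338) (nat_lit 12) (.e (nat_lit 475185) (nat_lit 29) (.e (nat_lit 557100) (nat_lit 13) .nil))) .nil)) 
(.lf (nat_lit 290599) (.g (nat_lit 3983) (.e (nat_lit 311348) (nat_lit 15) (.e (nat_lit 1848) (nat_lit 124) (.e (nat_lit 557097) (nat_lit 13) (.e (nat_lit 172115) (nat_lit 10) (.e (nat_lit 434231) (nat_lit 23) (.e (nat_lit 532490) (nat_lit 0) (.e (nat_lit 6136) (nat_lit 332) (.e (nat_lit 1385) (nat_lit 105) .nil)))))))) (.g (nat_lit 0) .nil .nil)))) (.nd (nat_lit 5) 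
(.lf (nat_lit 290583) (.g (nat_lit 2908) (.e (nat_lit 311339) (nat_lit 12) (.e (nat_lit 475185) (nat_lit 29) (.e (nat_lit 557101) (nat_lit 13) (.e (nat_lit 172115) (nat_lit 10) (.e (nat_lit 434227) (nat_lit 20) (.e (nat_lit 507947) (nat_lit 19) .nil)))))) (.g (nat_lit 4) .nil .nil))) 
(.lf (nat_lit 290615) (.g (nat_lit 2167) (.e (nat_lit 311348) (nat_lit 15) (.e (nat_lit 1849) (nat_lit 124) (.e (nat_lit 557107) (nat_lit 15) (.e (nat_lit 188450) (nat_lit 23) (.e (nat_lit 204821) (nat_lit 17) (.e (nat_lit 6136) (nat_lit 332) (.e (nat_lit 1383) (nat_lit 105) .nil))))))) (.g (nat_lit 0) .nil .nil))))) (.nd (nat_lit 4) (.nd (nat_lit 5) 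
(.lf (nat_lit 290575) (.g (nat_lit 688) (.e (nat_lit 311339) (nat_lit 12) (.e (nat_lit 475179) (nat_lit 24) (.e (nat_lit 516131) (nat_lit 3) .nil))) .nil)) 
(.lf (nat_lit 290607) (.g (nat_lit 3272) (.e (nat_lit 311348) (nat_lit 15) (.e (nat_lit 1848) (nat_lit 124) (.e (nat_lit 557108) (nat_lit 15) (.e (nat_lit 188452) (nat_lit 23) (.e (nat_lit 204821) (nat_lit 17) (.e (nat_lit 6136) (nat_lit 332) (.e (nat_lit 1385) (nat_lit 105) .nil))))))) (.g (nat_lit 0) .nil .nil)))) (.nd (nat_lit 5) 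
(.lf (nat_lit 290591) (.g (nat_lit 4094) (.e (nat_lit 311346) (nat_lit 15) (.e (nat_lit 1853) (nat_lit 124) (.e (nat_lit 557108) (nat_lit 15) (.e (nat_lit 188452) (nat_lit 23) (.e (nat_lit 204848) (nat_lit 25) .nil))))) .nil)) 
(.lf (nat_lit 290623) (.g (nat_lit 3299) (.e (nat_lit 311348) (nat_lit 15) (.e (nat_lit 1849) (nat_lit 124) (.e (nat_lit 557109) (nat_lit 15) (.e (nat_lit 188452) (nat_lit 23) (.e (nat_lit 204821) (nat_lit 17) (.e (nat_lit 6136) (nat_lit 332) (.e (nat_lit 1383) (nat_lit 105) .nil))))))) (.g (nat_lit 5) .nil .nil)))))))))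

noncomputable def tv3674 : DT := (.nd (nat_lit 0) (.nd (nat_lit 1) (.nd (nat_lit 2) (.nd (nat_lit 3) (.nd (nat_lit 4) (.nd (nat_lit 5) 
(.lf (nat_lit 290624) (.g (nat_lit 3346) (.e (nat_lit 311348) (nat_lit 15) (.e (nat_lit 1849) (nat_lit 124) (.e (nat_lit 557109) (nat_lit 15) (.e (nat_lit 188452) (nat_lit 23) (.e (nat_lit 204821) (nat_lit 17) (.e (nat_lit 6136) (nat_lit 332) (.e (nat_lit 1384) (nat_lit 105) .nil))))))) (.g (nat_lit 5) .nil .nil))) 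
(.lf (nat_lit 290656) (.g (nat_lit 3065) (.e (nat_lit 311348) (nat_lit 15) (.e (nat_lit 1859) (nat_lit 124) (.e (nat_lit 557109) (nat_lit 15) (.e (nat_lit 188450) (nat_lit 23) (.e (nat_lit 204821) (nat_lit 17) (.e (nat_lit 6136) (nat_lit 332) (.e (nat_lit 1383) (nat_lit 105) .nil))))))) (.g (nat_lit 4) .nil .nil)))) (.nd (nat_lit 5) 
(.lf (nat_lit 290640) (.g (nat_lit 4007) (.e (nat_lit 311348) (nat_lit 15) (.e (nat_lit 1858) (nat_lit 124) (.e (nat_lit 557109) (nat_lit 15) (.e (nat_lit 188449) (nat_lit 22) (.e (nat_lit 196661) (nat_lit 12) (.e (nat_lit 57714) (nat_lit 176) (.e (nat_lit 1384) (nat_lit 105) .nil))))))) (.g (nat_lit 4) .nil .nil))) 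
(.lf (nat_lit 290672) (.g (nat_lit 794) (.e (nat_lit 319232) (nat_lit 25) (.e (nat_lit 319528) (nat_lit 16) (.e (nat_lit 286761) (nat_lit 13) (.e (nat_lit 393260) (nat_lit 21) .nil)))) .nil)))) (.nd (nat_lit 4) (.nd (nat_lit 5) 
(.lf (nat_lit 290632) (.g (nat_lit 3002) (.e (nat_lit 311348) (nat_lit 15) (.e (nat_lit 1858) (nat_lit 124) (.e (nat_lit 557107) (nat_lit 15) (.e (nat_lit 188450) (nat_lit 23) (.e (nat_lit 204821) (nat_lit 17) (.e (nat_lit 6136) (nat_lit 332) (.e (nat_lit 1384) (nat_lit 105) .nil))))))) (.g (nat_lit 4) .nil .nil))) 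
(.lf (nat_lit 290664) (.g (nat_lit 1579) (.e (nat_lit 311348) (nat_lit 15) (.e (nat_lit 6114) (nat_lit 332) (.e (nat_lit 1370) (nat_lit 103) (.e (nat_lit 294960) (nat_lit 13) (.e (nat_lit 393238) (nat_lit 17) .nil))))) .nil))) (.nd (nat_lit 5) 
(.lf (nat_lit 290648) (.g (nat_lit 2549) (.e (nat_lit 311348) (nat_lit 15) (.e (nat_lit 1859) (nat_lit 124) (.e (nat_lit 557098) (nat_lit 13) (.e (nat_lit 172097) (nat_lit 9) (.e (nat_lit 426140) (nat_lit 3) (.e (nat_lit 204821) (nat_lit 17) (.e (nat_lit 6149) (nat_lit 332) (.e (nat_lit 1385) (nat_lit 105) .nil)))))))) (.g (nat_lit 5) .nil .nil))) 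
(.lf (nat_lit 290680) (.g (nat_lit 1940) (.e (nat_lit 319232) (nat_lit 25) (.e (nat_lit 319530) (nat_lit 16) (.e (nat_lit 286761) (nat_lit 13) (.e (nat_lit 393265) (nat_lit 22) (.e (nat_lit 425728) (nat_lit 19) .nil))))) .nil))))) (.nd (nat_lit 3) (.nd (nat_lit 4) (.nd (nat_lit 5) 
(.lf (nat_lit 290628) (.g (nat_lit 2772) (.e (nat_lit 311348) (nat_lit 15) (.e (nat_lit 1858) (nat_lit 124) (.e (nat_lit 557101) (nat_lit 13) (.e (nat_lit 172097) (nat_lit 9) (.e (nat_lit 426140) (nat_lit 3) (.e (nat_lit 204821) (nat_lit 17) (.e (nat_lit 6149) (nat_lit 332) (.e (nat_lit 1386) (nat_lit 105) .nil)))))))) (.g (nat_lit 5) .nil .nil))) 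
(.lf (nat_lit 290660) (.g (nat_lit 3437) (.e (nat_lit 311348) (nat_lit 15) (.e (nat_lit 1859) (nat_lit 124) (.e (nat_lit 557109) (nat_lit 15) (.e (nat_lit 188452) (nat_lit 23) (.e (nat_lit 204821) (nat_lit 17) (.e (nat_lit 6136) (nat_lit 332) (.e (nat_lit 1384) (nat_lit 105) .nil))))))) (.g (nat_lit 0) .nil .nil)))) (.nd (nat_lit 5) 
(.lf (nat_lit 290644) (.g (nat_lit 4450) (.e (nat_lit 311348) (nat_lit 15) (.e (nat_lit 1858) (nat_lit 124) (.e (nat_lit 557109) (nat_lit 15) (.e (nat_lit 188452) (nat_lit 23) (.e (nat_lit 204849) (nat_lit 25) (.e (nat_lit 327718) (nat_lit 19) .nil)))))) (.g (nat_lit 5) .nil .nil))) 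
(.lf (nat_lit 290676) (.g (nat_lit 2917) (.e (nat_lit 319232) (nat_lit 25) (.e (nat_lit 319530) (nat_lit 16) (.e (nat_lit 286761) (nat_lit 13) (.e (nat_lit 393260) (nat_lit 21) (.e (nat_lit 409650) (nat_lit 19) .nil))))) .nil)))) (.nd (nat_lit 4) (.nd (nat_lit 5) 
(.lf (nat_lit 290636) (.g (nat_lit 1811) (.e (nat_lit 311348) (nat_lit 15) (.e (nat_lit 1858) (nat_lit 124) (.e (nat_lit 557109) (nat_lit 15) (.e (nat_lit 188449) (nat_lit 22) .nil)))) .nil)) 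
(.lf (nat_lit 290668) (.g (nat_lit 1312) (.e (nat_lit 311351) (nat_lit 15) (.e (nat_lit 1856) (nat_lit 124) (.e (nat_lit 557109) (nat_lit 15) (.e (nat_lit 188452) (nat_lit 23) .nil)))) .nil))) (.nd (nat_lit 5) 
(.lf (nat_lit 290652) (.g (nat_lit 1575) (.e (nat_lit 311348) (nat_lit 15) (.e (nat_lit 1859) (nat_lit 124) (.e (nat_lit 557107) (nat_lit 15) (.e (nat_lit 188450) (nat_lit 23) (.e (nat_lit 204846) (nat_lit 24) (.e (nat_lit 319538) (nat_lit 19) .nil)))))) (.g (nat_lit 6) .nil .nil))) 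
(.lf (nat_lit 290684) (.g (nat_lit 1404) (.e (nat_lit 319232) (nat_lit 25) (.e (nat_lit 319531) (nat_lit 16) (.e (nat_lit 286748) (nat_lit 9) (.e (nat_lit 336389) (nat_lit 27) (.e (nat_lit 426181) (nat_lit 8) .nil))))) .nil)))))) (.nd (nat_lit 2) (.nd (nat_lit 3) (.nd (nat_lit 4) (.nd (nat_lit 5) 
(.lf (nat_lit 290626) (.g (nat_lit 2010) (.e (nat_lit 311348) (nat_lit 15) (.e (nat_lit 1858) (nat_lit 124) (.e (nat_lit 557101) (nat_lit 13) (.e (nat_lit 172097) (nat_lit 9) (.e (nat_lit 426125) (nat_lit 2) (.e (nat_lit 196661) (nat_lit 12) (.e (nat_lit 57711) (nat_lit 176) (.e (nat_lit 1385) (nat_lit 105) .nil)))))))) (.g (nat_lit 4) .nil .nil))) 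
(.lf (nat_lit 290658) (.g (nat_lit 2090) (.e (nat_lit 311348) (nat_lit 15) (.e (nat_lit 1859) (nat_lit 124) (.e (nat_lit 557109) (nat_lit 15) (.e (nat_lit 188452) (nat_lit 23) (.e (nat_lit 204821) (nat_lit 17) (.e (nat_lit 6092) (nat_lit 332) (.e (nat_lit 1386) (nat_lit 105) .nil))))))) (.g (nat_lit 4) .nil .nil)))) (.nd (nat_lit 5) 
(.lf (nat_lit 290642) (.g (nat_lit 4000) (.e (nat_lit 311348) (nat_lit 15) (.e (nat_lit 1858) (nat_lit 124) (.e (nat_lit 557109) (nat_lit 15) (.e (nat_lit 188452) (nat_lit 23) (.e (nat_lit 204821) (nat_lit 17) (.e (nat_lit 6136) (nat_lit 332) (.e (nat_lit 1386) (nat_lit 105) .nil))))))) (.g (nat_lit 4) .nil .nil))) 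
(.lf (nat_lit 290674) (.g (nat_lit 1361) (.e (nat_lit 319232) (nat_lit 25) (.e (nat_lit 319529) (nat_lit 16) (.e (nat_lit 286761) (nat_lit 13) (.e (nat_lit 393265) (nat_lit 22) (.e (nat_lit 425728) (nat_lit 19) .nil))))) .nil)))) (.nd (nat_lit 4) (.nd (nat_lit 5) 
(.lf (nat_lit 290634) (.g (nat_lit 3305) (.e (nat_lit 311348) (nat_lit 15) (.e (nat_lit 1858) (nat_lit 124) (.e (nat_lit 557107) (nat_lit 15) (.e (nat_lit 188450) (nat_lit 23) (.e (nat_lit 204821) (nat_lit 17) (.e (nat_lit 6136) (nat_lit 332) (.e (nat_lit 1386) (nat_lit 105) .nil))))))) (.g (nat_lit 4) .nil .nil))) 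
(.lf (nat_lit 290666) (.g (nat_lit 1800) (.e (nat_lit 311351) (nat_lit 15) (.e (nat_lit 1855) (nat_lit 124) (.e (nat_lit 557109) (nat_lit 15) (.e (nat_lit 188450) (nat_lit 23) .nil)))) .nil))) (.nd (nat_lit 5) 
(.lf (nat_lit 290650) (.g (nat_lit 1573) (.e (nat_lit 311348) (nat_lit 15) (.e (nat_lit 1859) (nat_lit 124) (.e (nat_lit 557107) (nat_lit 15) (.e (nat_lit 188447) (nat_lit 22) (.e (nat_lit 196661) (nat_lit 12) (.e (nat_lit 57711) (nat_lit 176) (.e (nat_lit 1386) (nat_lit 105) .nil))))))) (.g (nat_lit 4) .nil .nil))) 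
(.lf (nat_lit 290682) (.g (nat_lit 1445) (.e (nat_lit 319232) (nat_lit 25) (.e (nat_lit 319531) (nat_lit 16) (.e (nat_lit 286748) (nat_lit 9) (.e (nat_lit 336389) (nat_lit 27) (.e (nat_lit 426172) (nat_lit 7) .nil))))) .nil))))) (.nd (nat_lit 3) (.nd (nat_lit 4) (.nd (nat_lit 5) 
(.lf (nat_lit 290630) (.g (nat_lit 2135) (.e (nat_lit 311348) (nat_lit 15) (.e (nat_lit 1858) (nat_lit 124) (.e (nat_lit 557107) (nat_lit 15) (.e (nat_lit 188450) (nat_lit 23) .nil)))) .nil)) 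
(.lf (nat_lit 290662) (.g (nat_lit 2365) (.e (nat_lit 311348) (nat_lit 15) (.e (nat_lit 1859) (nat_lit 124) (.e (nat_lit 557109) (nat_lit 15) (.e (nat_lit 188458) (nat_lit 25) (.e (nat_lit 245784) (nat_lit 9) .nil))))) .nil))) (.nd (nat_lit 5) 
(.lf (nat_lit 290646) (.g (nat_lit 1961) (.e (nat_lit 311348) (nat_lit 15) (.e (nat_lit 1859) (nat_lit 124) (.e (nat_lit 557098) (nat_lit 13) (.e (nat_lit 172097) (nat_lit 9) (.e (nat_lit 426125) (nat_lit 2) (.e (nat_lit 196661) (nat_lit 12) (.e (nat_lit 57711) (nat_lit 176) (.e (nat_lit 1385) (nat_lit 105) .nil)))))))) (.g (nat_lit 4) .nil .nil))) 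
(.lf (nat_lit 290678) (.g (nat_lit 1514) (.e (nat_lit 319232) (nat_lit 25) (.e (nat_lit 319530) (nat_lit 16) (.e (nat_lit 286761) (nat_lit 13) (.e (nat_lit 393263) (nat_lit 22) .nil)))) .nil)))) (.nd (nat_lit 4) (.nd (nat_lit 5) 
(.lf (nat_lit 290638) (.g (nat_lit 3964) (.e (nat_lit 311348) (nat_lit 15) (.e (nat_lit 1858) (nat_lit 124) (.e (nat_lit 557109) (nat_lit 15) (.e (nat_lit 188449) (nat_lit 22) (.e (nat_lit 196661) (nat_lit 12) (.e (nat_lit 57711) (nat_lit 176) (.e (nat_lit 1386) (nat_lit 105) .nil))))))) (.g (nat_lit 4) .nil .nil))) 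
(.lf (nat_lit 290670) (.g (nat_lit 2845) (.e (nat_lit 319232) (nat_lit 18) (.e (nat_lit 98358) (nat_lit 26) (.e (nat_lit 426131) (nat_lit 3) (.e (nat_lit 204838) (nat_lit 20) (.e (nat_lit 114716) (nat_lit 22) .nil))))) .nil))) (.nd (nat_lit 5) 
(.lf (nat_lit 290654) (.g (nat_lit 2649) (.e (nat_lit 311348) (nat_lit 15) (.e (nat_lit 1859) (nat_lit 124) (.e (nat_lit 557109) (nat_lit 15) (.e (nat_lit 188447) (nat_lit 22) (.e (nat_lit 196661) (nat_lit 12) .nil))))) .nil)) 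
(.lf (nat_lit 290686) (.g (nat_lit 1276) (.e (nat_lit 319232) (nat_lit 25) (.e (nat_lit 319531) (nat_lit 16) (.e (nat_lit 286761) (nat_lit 13) (.e (nat_lit 393233) (nat_lit 17) .nil)))) .nil))))))) (.nd (nat_lit 1) (.nd (nat_lit 2) (.nd (nat_lit 3) (.nd (nat_lit 4) (.nd (nat_lit 5) 
(.lf (nat_lit 290625) (.g (nat_lit 4131) (.e (nat_lit 311348) (nat_lit 15) (.e (nat_lit 1849) (nat_lit 124) (.e (nat_lit 557109) (nat_lit 15) (.e (nat_lit 188452) (nat_lit 23) (.e (nat_lit 204849) (nat_lit 25) .nil))))) .nil)) 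
(.lf (nat_lit 290657) (.g (nat_lit 3098) (.e (nat_lit 311348) (nat_lit 15) (.e (nat_lit 1859) (nat_lit 124) (.e (nat_lit 557109) (nat_lit 15) (.e (nat_lit 188450) (nat_lit 23) (.e (nat_lit 204821) (nat_lit 17) (.e (nat_lit 6136) (nat_lit 332) (.e (nat_lit 1384) (nat_lit 105) .nil))))))) (.g (nat_lit 4) .nil .nil)))) (.nd (nat_lit 5) 
(.lf (nat_lit 290641) (.g (nat_lit 3889) (.e (nat_lit 311348) (nat_lit 15) (.e (nat_lit 1858) (nat_lit 124) (.e (nat_lit 557109) (nat_lit 15) (.e (nat_lit 188452) (nat_lit 23) (.e (nat_lit 204821) (nat_lit 17) .nil))))) .nil)) 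
(.lf (nat_lit 290673) (.g (nat_lit 1547) (.e (nat_lit 319232) (nat_lit 25) (.e (nat_lit 319529) (nat_lit 16) (.e (nat_lit 286761) (nat_lit 13) (.e (nat_lit 393264) (nat_lit 22) (.e (nat_lit 417830) (nat_lit 19) .nil))))) .nil)))) (.nd (nat_lit 4) (.nd (nat_lit 5) 
(.lf (nat_lit 290633) (.g (nat_lit 3135) (.e (nat_lit 311348) (nat_lit 15) (.e (nat_lit 1858) (nat_lit 124) (.e (nat_lit 557107) (nat_lit 15) (.e (nat_lit 188450) (nat_lit 23) (.e (nat_lit 204821) (nat_lit 17) (.e (nat_lit 6136) (nat_lit 332) (.e (nat_lit 1385) (nat_lit 105) .nil))))))) (.g (nat_lit 4) .nil .nil))) 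
(.lf (nat_lit 290665) (.g (nat_lit 1414) (.e (nat_lit 311350) (nat_lit 15) (.e (nat_lit 6112) (nat_lit 332) (.e (nat_lit 1361) (nat_lit 102) (.e (nat_lit 286761) (nat_lit 13) (.e (nat_lit 393265) (nat_lit 22) .nil))))) .nil))) (.nd (nat_lit 5) 
(.lf (nat_lit 290649) (.g (nat_lit 2719) (.e (nat_lit 311348) (nat_lit 15) (.e (nat_lit 1859) (nat_lit 124) (.e (nat_lit 557098) (nat_lit 13) (.e (nat_lit 172097) (nat_lit 9) (.e (nat_lit 426140) (nat_lit 3) (.e (nat_lit 204821) (nat_lit 17) (.e (nat_lit 6149) (nat_lit 332) (.e (nat_lit 1386) (nat_lit 105) .nil)))))))) (.g (nat_lit 5) .nil .nil))) 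
(.lf (nat_lit 290681) (.g (nat_lit 435) (.e (nat_lit 319232) (nat_lit 25) (.e (nat_lit 319531) (nat_lit 16) (.e (nat_lit 286748) (nat_lit 9) .nil))) .nil))))) (.nd (nat_lit 3) (.nd (nat_lit 4) (.nd (nat_lit 5) 
(.lf (nat_lit 290629) (.g (nat_lit 2977) (.e (nat_lit 311348) (nat_lit 15) (.e (nat_lit 1858) (nat_lit 124) (.e (nat_lit 557107) (nat_lit 15) (.e (nat_lit 188447) (nat_lit 22) (.e (nat_lit 196661) (nat_lit 12) .nil))))) .nil)) 
(.lf (nat_lit 290661) (.g (nat_lit 2736) (.e (nat_lit 311348) (nat_lit 15) (.e (nat_lit 1859) (nat_lit 124) (.e (nat_lit 557109) (nat_lit 15) (.e (nat_lit 188452) (nat_lit 23) (.e (nat_lit 204821) (nat_lit 17) (.e (nat_lit 6149) (nat_lit 332) (.e (nat_lit 1386) (nat_lit 105) .nil))))))) (.g (nat_lit 5) .nil .nil)))) (.nd (nat_lit 5) 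
(.lf (nat_lit 290645) (.g (nat_lit 1686) (.e (nat_lit 311348) (nat_lit 15) (.e (nat_lit 1858) (nat_lit 124) (.e (nat_lit 557109) (nat_lit 15) (.e (nat_lit 188458) (nat_lit 25) .nil)))) .nil)) 
(.lf (nat_lit 290677) (.g (nat_lit 2989) (.e (nat_lit 319232) (nat_lit 25) (.e (nat_lit 319530) (nat_lit 16) (.e (nat_lit 286761) (nat_lit 13) (.e (nat_lit 393260) (nat_lit 21) (.e (nat_lit 409651) (nat_lit 19) .nil))))) .nil)))) (.nd (nat_lit 4) (.nd (nat_lit 5) 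
(.lf (nat_lit 290637) (.g (nat_lit 3859) (.e (nat_lit 311348) (nat_lit 15) (.e (nat_lit 1858) (nat_lit 124) (.e (nat_lit 557109) (nat_lit 15) (.e (nat_lit 188449) (nat_lit 22) (.e (nat_lit 196661) (nat_lit 12) .nil))))) .nil)) 
(.lf (nat_lit 290669) (.g (nat_lit 1654) (.e (nat_lit 319232) (nat_lit 15) (.e (nat_lit 2030) (nat_lit 140) (.e (nat_lit 688177) (nat_lit 16) (.e (nat_lit 65583) (nat_lit 7) (.e (nat_lit 319530) (nat_lit 16) .nil))))) .nil))) (.nd (nat_lit 5) 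
(.lf (nat_lit 290653) (.g (nat_lit 2190) (.e (nat_lit 311348) (nat_lit 15) (.e (nat_lit 1859) (nat_lit 124) (.e (nat_lit 557107) (nat_lit 15) (.e (nat_lit 188450) (nat_lit 23) (.e (nat_lit 204846) (nat_lit 24) (.e (nat_lit 319539) (nat_lit 19) .nil)))))) (.g (nat_lit 6) .nil .nil))) 
(.lf (nat_lit 290685) (.g (nat_lit 362) (.e (nat_lit 319232) (nat_lit 25) (.e (nat_lit 319531) (nat_lit 16) (.e (nat_lit 286761) (nat_lit 13) .nil))) .nil)))))) (.nd (nat_lit 2) (.nd (nat_lit 3) (.nd (nat_lit 4) (.nd (nat_lit 5) 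
(.lf (nat_lit 290627) (.g (nat_lit 2606) (.e (nat_lit 311348) (nat_lit 15) (.e (nat_lit 1858) (nat_lit 124) (.e (nat_lit 557101) (nat_lit 13) (.e (nat_lit 172097) (nat_lit 9) (.e (nat_lit 426140) (nat_lit 3) (.e (nat_lit 204821) (nat_lit 17) (.e (nat_lit 6149) (nat_lit 332) (.e (nat_lit 1385) (nat_lit 105) .nil)))))))) (.g (nat_lit 5) .nil .nil))) 
(.lf (nat_lit 290659) (.g (nat_lit 3391) (.e (nat_lit 311348) (nat_lit 15) (.e (nat_lit 1859) (nat_lit 124) (.e (nat_lit 557109) (nat_lit 15) (.e (nat_lit 188452) (nat_lit 23) (.e (nat_lit 204821) (nat_lit 17) (.e (nat_lit 6136) (nat_lit 332) (.e (nat_lit 1383) (nat_lit 105) .nil))))))) (.g (nat_lit 0) .nil .nil)))) (.nd (nat_lit 5) 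
(.lf (nat_lit 290643) (.g (nat_lit 5818) (.e (nat_lit 311348) (nat_lit 15) (.e (nat_lit 1858) (nat_lit 124) (.e (nat_lit 557109) (nat_lit 15) (.e (nat_lit 188452) (nat_lit 23) (.e (nat_lit 204846) (nat_lit 24) (.e (nat_lit 319539) (nat_lit 19) .nil)))))) (.g (nat_lit 5) .nil .nil))) 
(.lf (nat_lit 290675) (.g (nat_lit 366) (.e (nat_lit 319232) (nat_lit 25) (.e (nat_lit 319530) (nat_lit 16) (.e (nat_lit 286761) (nat_lit 13) .nil))) .nil)))) (.nd (nat_lit 4) (.nd (nat_lit 5) 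
(.lf (nat_lit 290635) (.g (nat_lit 2839) (.e (nat_lit 311348) (nat_lit 15) (.e (nat_lit 1858) (nat_lit 124) (.e (nat_lit 557107) (nat_lit 15) (.e (nat_lit 188450) (nat_lit 23) (.e (nat_lit 204846) (nat_lit 24) .nil))))) .nil)) 
(.lf (nat_lit 290667) (.g (nat_lit 3952) (.e (nat_lit 311351) (nat_lit 15) (.e (nat_lit 1855) (nat_lit 124) (.e (nat_lit 557109) (nat_lit 15) (.e (nat_lit 188452) (nat_lit 23) (.e (nat_lit 204849) (nat_lit 25) .nil))))) .nil))) (.nd (nat_lit 5) 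
(.lf (nat_lit 290651) (.g (nat_lit 2353) (.e (nat_lit 311348) (nat_lit 15) (.e (nat_lit 1859) (nat_lit 124) (.e (nat_lit 557107) (nat_lit 15) (.e (nat_lit 188450) (nat_lit 23) (.e (nat_lit 204821) (nat_lit 17) (.e (nat_lit 6136) (nat_lit 332) (.e (nat_lit 1383) (nat_lit 105) .nil))))))) (.g (nat_lit 0) .nil .nil))) 
(.lf (nat_lit 290683) (.g (nat_lit 1808) (.e (nat_lit 319232) (nat_lit 25) (.e (nat_lit 319531) (nat_lit 16) (.e (nat_lit 286748) (nat_lit 9) (.e (nat_lit 336389) (nat_lit 27) (.e (nat_lit 426180) (nat_lit 8) .nil))))) .nil))))) (.nd (nat_lit 3) (.nd (nat_lit 4) (.nd (nat_lit 5) 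
(.lf (nat_lit 290631) (.g (nat_lit 2961) (.e (nat_lit 311348) (nat_lit 15) (.e (nat_lit 1858) (nat_lit 124) (.e (nat_lit 557107) (nat_lit 15) (.e (nat_lit 188450) (nat_lit 23) (.e (nat_lit 204821) (nat_lit 17) (.e (nat_lit 6136) (nat_lit 332) (.e (nat_lit 1383) (nat_lit 105) .nil))))))) (.g (nat_lit 4) .nil .nil))) 
(.lf (nat_lit 290663) (.g (nat_lit 1894) (.e (nat_lit 311348) (nat_lit 15) (.e (nat_lit 2030) (nat_lit 140) (.e (nat_lit 688177) (nat_lit 16) (.e (nat_lit 65583) (nat_lit 7) (.e (nat_lit 319530) (nat_lit 16) (.e (nat_lit 286727) (nat_lit 0) (.e (nat_lit 6150) (nat_lit 332) (.e (nat_lit 1385) (nat_lit 105) .nil)))))))) (.g (nat_lit 4) .nil .nil)))) (.nd (nat_lit 5) 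
(.lf (nat_lit 290647) (.g (nat_lit 3458) (.e (nat_lit 311348) (nat_lit 15) (.e (nat_lit 1859) (nat_lit 124) (.e (nat_lit 557098) (nat_lit 13) (.e (nat_lit 172097) (nat_lit 9) (.e (nat_lit 426140) (nat_lit 3) (.e (nat_lit 204821) (nat_lit 17) (.e (nat_lit 6136) (nat_lit 332) (.e (nat_lit 1383) (nat_lit 105) .nil)))))))) (.g (nat_lit 0) .nil .nil))) 
(.lf (nat_lit 290679) (.g (nat_lit 1582) (.e (nat_lit 319232) (nat_lit 25) (.e (nat_lit 319530) (nat_lit 16) (.e (nat_lit 286761) (nat_lit 13) (.e (nat_lit 393264) (nat_lit 22) (.e (nat_lit 425728) (nat_lit 19) .nil))))) .nil)))) (.nd (nat_lit 4) (.nd (nat_lit 5) 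
(.lf (nat_lit 290639) (.g (nat_lit 3978) (.e (nat_lit 311348) (nat_lit 15) (.e (nat_lit 1858) (nat_lit 124) (.e (nat_lit 557109) (nat_lit 15) (.e (nat_lit 188449) (nat_lit 22) (.e (nat_lit 196661) (nat_lit 12) (.e (nat_lit 57714) (nat_lit 176) (.e (nat_lit 1383) (nat_lit 105) .nil))))))) (.g (nat_lit 4) .nil .nil))) 
(.lf (nat_lit 290671) (.g (nat_lit 774) (.e (nat_lit 319232) (nat_lit 18) (.e (nat_lit 98359) (nat_lit 26) (.e (nat_lit 426132) (nat_lit 3) .nil))) .nil))) (.nd (nat_lit 5) 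
(.lf (nat_lit 290655) (.g (nat_lit 2752) (.e (nat_lit 311348) (nat_lit 15) (.e (nat_lit 1859) (nat_lit 124) (.e (nat_lit 557109) (nat_lit 15) (.e (nat_lit 188447) (nat_lit 22) (.e (nat_lit 196661) (nat_lit 12) (.e (nat_lit 57714) (nat_lit 176) (.e (nat_lit 1385) (nat_lit 105) .nil))))))) (.g (nat_lit 4) .nil .nil))) 
(.lf (nat_lit 290687) (.g (nat_lit 579) (.e (nat_lit 319232) (nat_lit 25) (.e (nat_lit 319531) (nat_lit 16) (.e (nat_lit 286761) (nat_lit 13) (.e (nat_lit 393234) (nat_lit 17) .nil)))) .nil))))))))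

noncomputable def tv3675 : DT := (.nd (nat_lit 0) (.nd (nat_lit 1) (.nd (nat_lit 2) (.nd (nat_lit 3) (.nd (nat_lit 4) (.nd (nat_lit 5) 
(.lf (nat_lit 290688) (.g (nat_lit 1534) (.e (nat_lit 319232) (nat_lit 25) (.e (nat_lit 319531) (nat_lit 16) (.e (nat_lit 286761) (nat_lit 13) (.e (nat_lit 393263) (nat_lit 22) .nil)))) .nil)) 
(.lf (nat_lit 290720) (.g (nat_lit 1826) (.e (nat_lit 311353) (nat_lit 27) (.e (nat_lit 336205) (nat_lit 12) (.e (nat_lit 385094) (nat_lit 49) (.e (nat_lit 778323) (nat_lit 5) (.e (nat_lit 73788) (nat_lit 45) .nil))))) .nil))) (.nd (nat_lit 5) 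
(.lf (nat_lit 290704) (.g (nat_lit 2235) (.e (nat_lit 311352) (nat_lit 27) (.e (nat_lit 336204) (nat_lit 12) (.e (nat_lit 385106) (nat_lit 50) (.e (nat_lit 786477) (nat_lit 28) (.e (nat_lit 344080) (nat_lit 13) .nil))))) .nil)) 
(.lf (nat_lit 290736) (.g (nat_lit 1417) (.e (nat_lit 311353) (nat_lit 27) (.e (nat_lit 336228) (nat_lit 14) (.e (nat_lit 401438) (nat_lit 9) (.e (nat_lit 426533) (nat_lit 28) (.e (nat_lit 344081) (nat_lit 13) (.e (nat_lit 1385) (nat_lit 105) .nil)))))) (.g (nat_lit 4) .nil .nil))))) (.nd (nat_lit 4) (.nd (nat_lit 5) 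
(.lf (nat_lit 290696) (.g (nat_lit 1982) (.e (nat_lit 319232) (nat_lit 25) (.e (nat_lit 319533) (nat_lit 16) (.e (nat_lit 286761) (nat_lit 13) (.e (nat_lit 393265) (nat_lit 22) (.e (nat_lit 417830) (nat_lit 19) .nil))))) .nil)) 
(.lf (nat_lit 290728) (.g (nat_lit 1663) (.e (nat_lit 311353) (nat_lit 27) (.e (nat_lit 336228) (nat_lit 14) (.e (nat_lit 401437) (nat_lit 9) (.e (nat_lit 426533) (nat_lit 28) (.e (nat_lit 344077) (nat_lit 13) (.e (nat_lit 1383) (nat_lit 105) .nil)))))) (.g (nat_lit 6) .nil .nil)))) (.nd (nat_lit 5) 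
(.lf (nat_lit 290712) (.g (nat_lit 2260) (.e (nat_lit 311353) (nat_lit 27) (.e (nat_lit 336193) (nat_lit 12) (.e (nat_lit 385093) (nat_lit 49) (.e (nat_lit 778323) (nat_lit 5) (.e (nat_lit 73789) (nat_lit 45) (.e (nat_lit 1385) (nat_lit 105) .nil)))))) (.g (nat_lit 4) .nil .nil))) 
(.lf (nat_lit 290744) (.g (nat_lit 1804) (.e (nat_lit 311353) (nat_lit 27) (.e (nat_lit 336228) (nat_lit 14) (.e (nat_lit 401459) (nat_lit 13) (.e (nat_lit 483354) (nat_lit 17) (.e (nat_lit 6148) (nat_lit 332) .nil))))) .nil))))) (.nd (nat_lit 3) (.nd (nat_lit 4) (.nd (nat_lit 5) 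
(.lf (nat_lit 290692) (.g (nat_lit 369) (.e (nat_lit 319232) (nat_lit 25) (.e (nat_lit 319533) (nat_lit 16) (.e (nat_lit 286760) (nat_lit 13) .nil))) .nil)) 
(.lf (nat_lit 290724) (.g (nat_lit 1473) (.e (nat_lit 311353) (nat_lit 27) (.e (nat_lit 336205) (nat_lit 12) (.e (nat_lit 385094) (nat_lit 49) (.e (nat_lit 778324) (nat_lit 5) (.e (nat_lit 73791) (nat_lit 45) .nil))))) .nil))) (.nd (nat_lit 5) 
(.lf (nat_lit 290708) (.g (nat_lit 1164) (.e (nat_lit 311353) (nat_lit 27) (.e (nat_lit 336173) (nat_lit 10) (.e (nat_lit 344169) (nat_lit 40) (.e (nat_lit 671762) (nat_lit 4) .nil)))) .nil)) 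
(.lf (nat_lit 290740) (.g (nat_lit 918) (.e (nat_lit 311353) (nat_lit 27) (.e (nat_lit 336228) (nat_lit 14) (.e (nat_lit 401459) (nat_lit 13) (.e (nat_lit 483354) (nat_lit 17) .nil)))) .nil)))) (.nd (nat_lit 4) (.nd (nat_lit 5) 
(.lf (nat_lit 290700) (.g (nat_lit 1395) (.e (nat_lit 311352) (nat_lit 27) (.e (nat_lit 336204) (nat_lit 12) (.e (nat_lit 385092) (nat_lit 49) (.e (nat_lit 778323) (nat_lit 5) .nil)))) .nil)) 
(.lf (nat_lit 290732) (.g (nat_lit 1593) (.e (nat_lit 311353) (nat_lit 27) (.e (nat_lit 336228) (nat_lit 14) (.e (nat_lit 401437) (nat_lit 9) (.e (nat_lit 426533) (nat_lit 28) (.e (nat_lit 344081) (nat_lit 13) (.e (nat_lit 1386) (nat_lit 105) .nil)))))) (.g (nat_lit 4) .nil .nil)))) (.nd (nat_lit 5) 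
(.lf (nat_lit 290716) (.g (nat_lit 1604) (.e (nat_lit 311353) (nat_lit 27) (.e (nat_lit 336205) (nat_lit 12) (.e (nat_lit 385093) (nat_lit 49) (.e (nat_lit 778323) (nat_lit 5) (.e (nat_lit 73788) (nat_lit 45) (.e (nat_lit 1385) (nat_lit 105) .nil)))))) (.g (nat_lit 4) .nil .nil))) 
(.lf (nat_lit 290748) (.g (nat_lit 2189) (.e (nat_lit 311353) (nat_lit 27) (.e (nat_lit 336228) (nat_lit 14) (.e (nat_lit 401459) (nat_lit 13) (.e (nat_lit 483374) (nat_lit 22) (.e (nat_lit 327718) (nat_lit 19) .nil))))) (.g (nat_lit 0) .nil .nil))))))) (.nd (nat_lit 2) (.nd (nat_lit 3) (.nd (nat_lit 4) (.nd (nat_lit 5) 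
(.lf (nat_lit 290690) (.g (nat_lit 353) (.e (nat_lit 319232) (nat_lit 25) (.e (nat_lit 319532) (nat_lit 16) (.e (nat_lit 286760) (nat_lit 13) .nil))) .nil)) 
(.lf (nat_lit 290722) (.g (nat_lit 1870) (.e (nat_lit 311353) (nat_lit 27) (.e (nat_lit 336205) (nat_lit 12) (.e (nat_lit 385094) (nat_lit 49) (.e (nat_lit 778323) (nat_lit 5) (.e (nat_lit 73792) (nat_lit 45) .nil))))) .nil))) (.nd (nat_lit 5) 
(.lf (nat_lit 290706) (.g (nat_lit 1705) (.e (nat_lit 311352) (nat_lit 27) (.e (nat_lit 336226) (nat_lit 14) (.e (nat_lit 401459) (nat_lit 13) (.e (nat_lit 483374) (nat_lit 22) .nil)))) .nil)) 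
(.lf (nat_lit 290738) (.g (nat_lit 2537) (.e (nat_lit 311353) (nat_lit 27) (.e (nat_lit 336228) (nat_lit 14) (.e (nat_lit 401457) (nat_lit 13) (.e (nat_lit 483371) (nat_lit 21) (.e (nat_lit 319539) (nat_lit 19) .nil))))) (.g (nat_lit 5) .nil .nil))))) (.nd (nat_lit 4) (.nd (nat_lit 5) 
(.lf (nat_lit 290698) (.g (nat_lit 1286) (.e (nat_lit 319232) (nat_lit 25) (.e (nat_lit 319534) (nat_lit 16) (.e (nat_lit 286761) (nat_lit 13) (.e (nat_lit 393265) (nat_lit 22) (.e (nat_lit 425728) (nat_lit 19) .nil))))) .nil)) 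
(.lf (nat_lit 290730) (.g (nat_lit 2013) (.e (nat_lit 311353) (nat_lit 27) (.e (nat_lit 336228) (nat_lit 14) (.e (nat_lit 401437) (nat_lit 9) (.e (nat_lit 426533) (nat_lit 28) (.e (nat_lit 344077) (nat_lit 13) (.e (nat_lit 1386) (nat_lit 105) .nil)))))) (.g (nat_lit 6) .nil .nil)))) (.nd (nat_lit 5) 
(.lf (nat_lit 290714) (.g (nat_lit 1558) (.e (nat_lit 311353) (nat_lit 27) (.e (nat_lit 336200) (nat_lit 12) (.e (nat_lit 385094) (nat_lit 49) (.e (nat_lit 778324) (nat_lit 5) (.e (nat_lit 73791) (nat_lit 45) .nil))))) .nil)) 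
(.lf (nat_lit 290746) (.g (nat_lit 3385) (.e (nat_lit 311353) (nat_lit 27) (.e (nat_lit 336228) (nat_lit 14) (.e (nat_lit 401459) (nat_lit 13) (.e (nat_lit 483372) (nat_lit 21) (.e (nat_lit 319537) (nat_lit 19) .nil))))) (.g (nat_lit 0) .nil .nil)))))) (.nd (nat_lit 3) (.nd (nat_lit 4) (.nd (nat_lit 5) 
(.lf (nat_lit 290694) (.g (nat_lit 954) (.e (nat_lit 319232) (nat_lit 25) (.e (nat_lit 319533) (nat_lit 16) (.e (nat_lit 286761) (nat_lit 13) (.e (nat_lit 393260) (nat_lit 21) .nil)))) .nil)) 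
(.lf (nat_lit 290726) (.g (nat_lit 1503) (.e (nat_lit 311353) (nat_lit 27) (.e (nat_lit 336228) (nat_lit 14) (.e (nat_lit 401437) (nat_lit 9) (.e (nat_lit 426533) (nat_lit 28) (.e (nat_lit 344074) (nat_lit 13) .nil))))) .nil))) (.nd (nat_lit 5) 
(.lf (nat_lit 290710) (.g (nat_lit 2172) (.e (nat_lit 311353) (nat_lit 27) (.e (nat_lit 336193) (nat_lit 12) (.e (nat_lit 385093) (nat_lit 49) (.e (nat_lit 778323) (nat_lit 5) (.e (nat_lit 73788) (nat_lit 45) .nil))))) .nil)) 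
(.lf (nat_lit 290742) (.g (nat_lit 1874) (.e (nat_lit 311353) (nat_lit 27) (.e (nat_lit 336228) (nat_lit 14) (.e (nat_lit 401459) (nat_lit 13) (.e (nat_lit 483354) (nat_lit 17) (.e (nat_lit 6136) (nat_lit 332) (.e (nat_lit 1384) (nat_lit 105) .nil)))))) (.g (nat_lit 0) .nil .nil))))) (.nd (nat_lit 4) (.nd (nat_lit 5) 
(.lf (nat_lit 290702) (.g (nat_lit 1609) (.e (nat_lit 311352) (nat_lit 27) (.e (nat_lit 336204) (nat_lit 12) (.e (nat_lit 385094) (nat_lit 49) (.e (nat_lit 778323) (nat_lit 5) .nil)))) .nil)) 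
(.lf (nat_lit 290734) (.g (nat_lit 1389) (.e (nat_lit 311353) (nat_lit 27) (.e (nat_lit 336228) (nat_lit 14) (.e (nat_lit 401438) (nat_lit 9) (.e (nat_lit 426533) (nat_lit 28) (.e (nat_lit 344076) (nat_lit 13) .nil))))) .nil))) (.nd (nat_lit 5) 
(.lf (nat_lit 290718) (.g (nat_lit 1437) (.e (nat_lit 311353) (nat_lit 27) (.e (nat_lit 336205) (nat_lit 12) (.e (nat_lit 385093) (nat_lit 49) (.e (nat_lit 778324) (nat_lit 5) .nil)))) .nil)) 
(.lf (nat_lit 290750) (.g (nat_lit 1569) (.e (nat_lit 311354) (nat_lit 27) (.e (nat_lit 336193) (nat_lit 12) (.e (nat_lit 385093) (nat_lit 49) (.e (nat_lit 778323) (nat_lit 5) .nil)))) .nil))))))) (.nd (nat_lit 1) (.nd (nat_lit 2) (.nd (nat_lit 3) (.nd (nat_lit 4) (.nd (nat_lit 5) 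
(.lf (nat_lit 290689) (.g (nat_lit 1014) (.e (nat_lit 319232) (nat_lit 25) (.e (nat_lit 319531) (nat_lit 16) (.e (nat_lit 286761) (nat_lit 13) (.e (nat_lit 393264) (nat_lit 22) .nil)))) .nil)) 
(.lf (nat_lit 290721) (.g (nat_lit 1611) (.e (nat_lit 311353) (nat_lit 27) (.e (nat_lit 336205) (nat_lit 12) (.e (nat_lit 385094) (nat_lit 49) (.e (nat_lit 778323) (nat_lit 5) (.e (nat_lit 73789) (nat_lit 45) .nil))))) .nil))) (.nd (nat_lit 5) 
(.lf (nat_lit 290705) (.g (nat_lit 2579) (.e (nat_lit 311352) (nat_lit 27) (.e (nat_lit 336226) (nat_lit 14) (.e (nat_lit 401459) (nat_lit 13) (.e (nat_lit 483350) (nat_lit 17) (.e (nat_lit 6113) (nat_lit 332) .nil))))) .nil)) 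
(.lf (nat_lit 290737) (.g (nat_lit 2058) (.e (nat_lit 311353) (nat_lit 27) (.e (nat_lit 336228) (nat_lit 14) (.e (nat_lit 401457) (nat_lit 13) (.e (nat_lit 483371) (nat_lit 21) (.e (nat_lit 319538) (nat_lit 19) .nil))))) .nil)))) (.nd (nat_lit 4) (.nd (nat_lit 5) 
(.lf (nat_lit 290697) (.g (nat_lit 1257) (.e (nat_lit 319232) (nat_lit 25) (.e (nat_lit 319534) (nat_lit 16) (.e (nat_lit 286761) (nat_lit 13) (.e (nat_lit 393264) (nat_lit 22) (.e (nat_lit 425728) (nat_lit 19) .nil))))) .nil)) 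
(.lf (nat_lit 290729) (.g (nat_lit 1840) (.e (nat_lit 311353) (nat_lit 27) (.e (nat_lit 336228) (nat_lit 14) (.e (nat_lit 401437) (nat_lit 9) (.e (nat_lit 426533) (nat_lit 28) (.e (nat_lit 344077) (nat_lit 13) (.e (nat_lit 1385) (nat_lit 105) .nil)))))) (.g (nat_lit 6) .nil .nil)))) (.nd (nat_lit 5) 
(.lf (nat_lit 290713) (.g (nat_lit 1924) (.e (nat_lit 311353) (nat_lit 27) (.e (nat_lit 336200) (nat_lit 12) (.e (nat_lit 385094) (nat_lit 49) (.e (nat_lit 778323) (nat_lit 5) (.e (nat_lit 73792) (nat_lit 45) .nil))))) .nil)) 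
(.lf (nat_lit 290745) (.g (nat_lit 1685) (.e (nat_lit 311353) (nat_lit 27) (.e (nat_lit 336228) (nat_lit 14) (.e (nat_lit 401459) (nat_lit 13) (.e (nat_lit 483357) (nat_lit 17) .nil)))) .nil))))) (.nd (nat_lit 3) (.nd (nat_lit 4) (.nd (nat_lit 5) 
(.lf (nat_lit 290693) (.g (nat_lit 424) (.e (nat_lit 319232) (nat_lit 25) (.e (nat_lit 319533) (nat_lit 16) (.e (nat_lit 286761) (nat_lit 13) .nil))) .nil)) 
(.lf (nat_lit 290725) (.g (nat_lit 2015) (.e (nat_lit 311353) (nat_lit 27) (.e (nat_lit 336227) (nat_lit 14) (.e (nat_lit 401459) (nat_lit 13) (.e (nat_lit 483371) (nat_lit 21) (.e (nat_lit 319539) (nat_lit 19) .nil))))) .nil))) (.nd (nat_lit 5) 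
(.lf (nat_lit 290709) (.g (nat_lit 1569) (.e (nat_lit 311353) (nat_lit 27) (.e (nat_lit 336193) (nat_lit 12) (.e (nat_lit 385093) (nat_lit 49) (.e (nat_lit 778323) (nat_lit 5) .nil)))) .nil)) 
(.lf (nat_lit 290741) (.g (nat_lit 1804) (.e (nat_lit 311353) (nat_lit 27) (.e (nat_lit 336228) (nat_lit 14) (.e (nat_lit 401459) (nat_lit 13) (.e (nat_lit 483354) (nat_lit 17) (.e (nat_lit 6126) (nat_lit 332) .nil))))) .nil)))) (.nd (nat_lit 4) (.nd (nat_lit 5) 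
(.lf (nat_lit 290701) (.g (nat_lit 1825) (.e (nat_lit 311352) (nat_lit 27) (.e (nat_lit 336204) (nat_lit 12) (.e (nat_lit 385093) (nat_lit 49) (.e (nat_lit 778323) (nat_lit 5) .nil)))) .nil)) 
(.lf (nat_lit 290733) (.g (nat_lit 1484) (.e (nat_lit 311353) (nat_lit 27) (.e (nat_lit 336228) (nat_lit 14) (.e (nat_lit 401438) (nat_lit 9) (.e (nat_lit 426533) (nat_lit 28) (.e (nat_lit 344074) (nat_lit 13) (.e (nat_lit 1385) (nat_lit 105) .nil)))))) (.g (nat_lit 4) .nil .nil)))) (.nd (nat_lit 5) 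
(.lf (nat_lit 290717) (.g (nat_lit 1611) (.e (nat_lit 311353) (nat_lit 27) (.e (nat_lit 336205) (nat_lit 12) (.e (nat_lit 385093) (nat_lit 49) (.e (nat_lit 778323) (nat_lit 5) (.e (nat_lit 73792) (nat_lit 45) .nil))))) .nil)) 
(.lf (nat_lit 290749) (.g (nat_lit 2598) (.e (nat_lit 311353) (nat_lit 27) (.e (nat_lit 336228) (nat_lit 14) (.e (nat_lit 401459) (nat_lit 13) (.e (nat_lit 483375) (nat_lit 22) (.e (nat_lit 327718) (nat_lit 19) .nil))))) (.g (nat_lit 5) .nil .nil))))))) (.nd (nat_lit 2) (.nd (nat_lit 3) (.nd (nat_lit 4) (.nd (nat_lit 5) 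
(.lf (nat_lit 290691) (.g (nat_lit 1426) (.e (nat_lit 319232) (nat_lit 25) (.e (nat_lit 319532) (nat_lit 16) (.e (nat_lit 286761) (nat_lit 13) (.e (nat_lit 393265) (nat_lit 22) (.e (nat_lit 425728) (nat_lit 19) .nil))))) .nil)) 
(.lf (nat_lit 290723) (.g (nat_lit 963) (.e (nat_lit 311353) (nat_lit 27) (.e (nat_lit 336205) (nat_lit 12) (.e (nat_lit 385094) (nat_lit 49) (.e (nat_lit 778324) (nat_lit 5) .nil)))) .nil))) (.nd (nat_lit 5) 
(.lf (nat_lit 290707) (.g (nat_lit 2657) (.e (nat_lit 311352) (nat_lit 27) (.e (nat_lit 336226) (nat_lit 14) (.e (nat_lit 401459) (nat_lit 13) (.e (nat_lit 483375) (nat_lit 22) (.e (nat_lit 327718) (nat_lit 19) .nil))))) .nil)) 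
(.lf (nat_lit 290739) (.g (nat_lit 877) (.e (nat_lit 311353) (nat_lit 27) (.e (nat_lit 336228) (nat_lit 14) (.e (nat_lit 401459) (nat_lit 13) (.e (nat_lit 483350) (nat_lit 17) .nil)))) .nil)))) (.nd (nat_lit 4) (.nd (nat_lit 5) 
(.lf (nat_lit 290699) (.g (nat_lit 1996) (.e (nat_lit 311352) (nat_lit 27) (.e (nat_lit 335906) (nat_lit 0) (.e (nat_lit 6113) (nat_lit 332) (.e (nat_lit 1376) (nat_lit 104) (.e (nat_lit 303152) (nat_lit 27) .nil))))) .nil)) 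
(.lf (nat_lit 290731) (.g (nat_lit 1524) (.e (nat_lit 311353) (nat_lit 27) (.e (nat_lit 336228) (nat_lit 14) (.e (nat_lit 401437) (nat_lit 9) (.e (nat_lit 426533) (nat_lit 28) (.e (nat_lit 344081) (nat_lit 13) .nil))))) .nil))) (.nd (nat_lit 5) 
(.lf (nat_lit 290715) (.g (nat_lit 1660) (.e (nat_lit 311353) (nat_lit 27) (.e (nat_lit 336200) (nat_lit 12) (.e (nat_lit 385094) (nat_lit 49) (.e (nat_lit 778324) (nat_lit 5) (.e (nat_lit 73792) (nat_lit 45) .nil))))) .nil)) 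
(.lf (nat_lit 290747) (.g (nat_lit 3733) (.e (nat_lit 311353) (nat_lit 27) (.e (nat_lit 336228) (nat_lit 14) (.e (nat_lit 401459) (nat_lit 13) (.e (nat_lit 483372) (nat_lit 21) (.e (nat_lit 319538) (nat_lit 19) .nil))))) (.g (nat_lit 0) .nil .nil)))))) (.nd (nat_lit 3) (.nd (nat_lit 4) (.nd (nat_lit 5) 
(.lf (nat_lit 290695) (.g (nat_lit 1779) (.e (nat_lit 319232) (nat_lit 25) (.e (nat_lit 319533) (nat_lit 16) (.e (nat_lit 286761) (nat_lit 13) (.e (nat_lit 393264) (nat_lit 22) (.e (nat_lit 417830) (nat_lit 19) .nil))))) .nil)) 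
(.lf (nat_lit 290727) (.g (nat_lit 1524) (.e (nat_lit 311353) (nat_lit 27) (.e (nat_lit 336228) (nat_lit 14) (.e (nat_lit 401437) (nat_lit 9) (.e (nat_lit 426533) (nat_lit 28) (.e (nat_lit 344076) (nat_lit 13) .nil))))) .nil))) (.nd (nat_lit 5) 
(.lf (nat_lit 290711) (.g (nat_lit 2094) (.e (nat_lit 311353) (nat_lit 27) (.e (nat_lit 336193) (nat_lit 12) (.e (nat_lit 385093) (nat_lit 49) (.e (nat_lit 778323) (nat_lit 5) (.e (nat_lit 73789) (nat_lit 45) .nil))))) .nil)) 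
(.lf (nat_lit 290743) (.g (nat_lit 1769) (.e (nat_lit 311353) (nat_lit 27) (.e (nat_lit 336228) (nat_lit 14) (.e (nat_lit 401459) (nat_lit 13) (.e (nat_lit 483354) (nat_lit 17) (.e (nat_lit 6147) (nat_lit 332) .nil))))) .nil)))) (.nd (nat_lit 4) (.nd (nat_lit 5) 
(.lf (nat_lit 290703) (.g (nat_lit 1580) (.e (nat_lit 311352) (nat_lit 27) (.e (nat_lit 336204) (nat_lit 12) (.e (nat_lit 385094) (nat_lit 49) (.e (nat_lit 778324) (nat_lit 5) .nil)))) .nil)) 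
(.lf (nat_lit 290735) (.g (nat_lit 1489) (.e (nat_lit 311353) (nat_lit 27) (.e (nat_lit 336228) (nat_lit 14) (.e (nat_lit 401438) (nat_lit 9) (.e (nat_lit 426533) (nat_lit 28) (.e (nat_lit 344076) (nat_lit 13) (.e (nat_lit 1386) (nat_lit 105) .nil)))))) (.g (nat_lit 4) .nil .nil)))) (.nd (nat_lit 5) 
(.lf (nat_lit 290719) (.g (nat_lit 2107) (.e (nat_lit 311353) (nat_lit 27) (.e (nat_lit 336205) (nat_lit 12) (.e (nat_lit 385093) (nat_lit 49) (.e (nat_lit 778324) (nat_lit 5) (.e (nat_lit 73791) (nat_lit 45) .nil))))) .nil)) 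
(.lf (nat_lit 290751) (.g (nat_lit 2172) (.e (nat_lit 311354) (nat_lit 27) (.e (nat_lit 336193) (nat_lit 12) (.e (nat_lit 385093) (nat_lit 49) (.e (nat_lit 778323) (nat_lit 5) (.e (nat_lit 73788) (nat_lit 45) .nil))))) .nil))))))))

noncomputable def tv3676 : DT := (.nd (nat_lit 0) (.nd (nat_lit 1) (.nd (nat_lit 2) (.nd (nat_lit 3) (.nd (nat_lit 4) (.nd (nat_lit 5) 
(.lf (nat_lit 290752) (.g (nat_lit 2094) (.e (nat_lit 311354) (nat_lit 27) (.e (nat_lit 336193) (nat_lit 12) (.e (nat_lit 385093) (nat_lit 49) (.e (nat_lit 778323) (nat_lit 5) (.e (nat_lit 73789) (nat_lit 45) .nil))))) .nil)) 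
(.lf (nat_lit 290784) (.g (nat_lit 706) (.e (nat_lit 311357) (nat_lit 28) (.e (nat_lit 344069) (nat_lit 0) (.e (nat_lit 2854) (nat_lit 184) (.e (nat_lit 426533) (nat_lit 28) (.e (nat_lit 344081) (nat_lit 13) (.e (nat_lit 1385) (nat_lit 105) .nil)))))) (.g (nat_lit 4) .nil .nil)))) (.nd (nat_lit 5) 
(.lf (nat_lit 290768) (.g (nat_lit 1162) (.e (nat_lit 319232) (nat_lit 27) (.e (nat_lit 336173) (nat_lit 10) (.e (nat_lit 344169) (nat_lit 40) (.e (nat_lit 671762) (nat_lit 4) .nil)))) .nil)) 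
(.lf (nat_lit 290800) (.g (nat_lit 1419) (.e (nat_lit 311358) (nat_lit 29) (.e (nat_lit 352265) (nat_lit 0) (.e (nat_lit 3631) (nat_lit 227) (.e (nat_lit 778323) (nat_lit 5) (.e (nat_lit 73792) (nat_lit 45) (.e (nat_lit 1386) (nat_lit 105) .nil)))))) (.g (nat_lit 4) .nil .nil))))) (.nd (nat_lit 4) (.nd (nat_lit 5) 
(.lf (nat_lit 290760) (.g (nat_lit 1569) (.e (nat_lit 311356) (nat_lit 27) (.e (nat_lit 336193) (nat_lit 12) (.e (nat_lit 385093) (nat_lit 49) (.e (nat_lit 778323) (nat_lit 5) .nil)))) .nil)) 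
(.lf (nat_lit 290792) (.g (nat_lit 1962) (.e (nat_lit 311357) (nat_lit 28) (.e (nat_lit 344069) (nat_lit 0) (.e (nat_lit 3090) (nat_lit 191) (.e (nat_lit 483375) (nat_lit 22) (.e (nat_lit 327718) (nat_lit 19) .nil))))) .nil))) (.nd (nat_lit 5) 
(.lf (nat_lit 290776) (.g (nat_lit 2193) (.e (nat_lit 311357) (nat_lit 28) (.e (nat_lit 344068) (nat_lit 0) (.e (nat_lit 2856) (nat_lit 184) (.e (nat_lit 426533) (nat_lit 28) (.e (nat_lit 344077) (nat_lit 13) (.e (nat_lit 1385) (nat_lit 105) .nil)))))) (.g (nat_lit 0) .nil .nil))) 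
(.lf (nat_lit 290808) (.g (nat_lit 1468) (.e (nat_lit 311358) (nat_lit 29) (.e (nat_lit 352266) (nat_lit 0) (.e (nat_lit 3631) (nat_lit 227) (.e (nat_lit 778323) (nat_lit 5) (.e (nat_lit 73788) (nat_lit 45) .nil))))) .nil))))) (.nd (nat_lit 3) (.nd (nat_lit 4) (.nd (nat_lit 5) 
(.lf (nat_lit 290756) (.g (nat_lit 1433) (.e (nat_lit 311355) (nat_lit 27) (.e (nat_lit 336206) (nat_lit 12) (.e (nat_lit 385094) (nat_lit 49) (.e (nat_lit 778323) (nat_lit 5) (.e (nat_lit 73789) (nat_lit 45) .nil))))) .nil)) 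
(.lf (nat_lit 290788) (.g (nat_lit 1856) (.e (nat_lit 311357) (nat_lit 28) (.e (nat_lit 344069) (nat_lit 0) (.e (nat_lit 2857) (nat_lit 184) (.e (nat_lit 426533) (nat_lit 28) (.e (nat_lit 344077) (nat_lit 13) (.e (nat_lit 1383) (nat_lit 105) .nil)))))) (.g (nat_lit 0) .nil .nil)))) (.nd (nat_lit 5) 
(.lf (nat_lit 290772) (.g (nat_lit 1073) (.e (nat_lit 311357) (nat_lit 28) (.e (nat_lit 344068) (nat_lit 0) (.e (nat_lit 2854) (nat_lit 184) (.e (nat_lit 426533) (nat_lit 28) (.e (nat_lit 344077) (nat_lit 13) (.e (nat_lit 1385) (nat_lit 105) .nil)))))) (.g (nat_lit 0) .nil .nil))) 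
(.lf (nat_lit 290804) (.g (nat_lit 1866) (.e (nat_lit 311358) (nat_lit 29) (.e (nat_lit 352265) (nat_lit 0) (.e (nat_lit 3632) (nat_lit 227) (.e (nat_lit 778323) (nat_lit 5) (.e (nat_lit 73792) (nat_lit 45) (.e (nat_lit 1386) (nat_lit 105) .nil)))))) (.g (nat_lit 4) .nil .nil))))) (.nd (nat_lit 4) (.nd (nat_lit 5) 
(.lf (nat_lit 290764) (.g (nat_lit 2401) (.e (nat_lit 311356) (nat_lit 27) (.e (nat_lit 336194) (nat_lit 12) (.e (nat_lit 385094) (nat_lit 49) (.e (nat_lit 778323) (nat_lit 5) (.e (nat_lit 73789) (nat_lit 45) .nil))))) .nil)) 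
(.lf (nat_lit 290796) (.g (nat_lit 673) (.e (nat_lit 311358) (nat_lit 29) (.e (nat_lit 352264) (nat_lit 0) (.e (nat_lit 3711) (nat_lit 227) (.e (nat_lit 786176) (nat_lit 5) (.e (nat_lit 73789) (nat_lit 45) (.e (nat_lit 1383) (nat_lit 105) .nil)))))) (.g (nat_lit 5) .nil .nil)))) (.nd (nat_lit 5) 
(.lf (nat_lit 290780) (.g (nat_lit 1375) (.e (nat_lit 311357) (nat_lit 28) (.e (nat_lit 344068) (nat_lit 0) (.e (nat_lit 2857) (nat_lit 184) (.e (nat_lit 426533) (nat_lit 28) (.e (nat_lit 344080) (nat_lit 13) .nil))))) .nil)) 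
(.lf (nat_lit 290812) (.g (nat_lit 1879) (.e (nat_lit 311358) (nat_lit 29) (.e (nat_lit 352267) (nat_lit 0) (.e (nat_lit 3631) (nat_lit 227) (.e (nat_lit 778323) (nat_lit 5) (.e (nat_lit 73789) (nat_lit 45) (.e (nat_lit 1383) (nat_lit 105) .nil)))))) (.g (nat_lit 0) .nil .nil))))))) (.nd (nat_lit 2) (.nd (nat_lit 3) (.nd (nat_lit 4) (.nd (nat_lit 5) 
(.lf (nat_lit 290754) (.g (nat_lit 878) (.e (nat_lit 311354) (nat_lit 27) (.e (nat_lit 336202) (nat_lit 12) (.e (nat_lit 385094) (nat_lit 49) (.e (nat_lit 778323) (nat_lit 5) .nil)))) .nil)) 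
(.lf (nat_lit 290786) (.g (nat_lit 1839) (.e (nat_lit 311357) (nat_lit 28) (.e (nat_lit 344069) (nat_lit 0) (.e (nat_lit 2856) (nat_lit 184) (.e (nat_lit 426533) (nat_lit 28) (.e (nat_lit 344077) (nat_lit 13) (.e (nat_lit 1383) (nat_lit 105) .nil)))))) (.g (nat_lit 0) .nil .nil)))) (.nd (nat_lit 5) 
(.lf (nat_lit 290770) (.g (nat_lit 919) (.e (nat_lit 311357) (nat_lit 28) (.e (nat_lit 344068) (nat_lit 0) (.e (nat_lit 2854) (nat_lit 184) (.e (nat_lit 426533) (nat_lit 28) (.e (nat_lit 344077) (nat_lit 13) (.e (nat_lit 1383) (nat_lit 105) .nil)))))) (.g (nat_lit 6) .nil .nil))) 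
(.lf (nat_lit 290802) (.g (nat_lit 1995) (.e (nat_lit 311358) (nat_lit 29) (.e (nat_lit 352265) (nat_lit 0) (.e (nat_lit 3632) (nat_lit 227) (.e (nat_lit 778323) (nat_lit 5) (.e (nat_lit 73789) (nat_lit 45) (.e (nat_lit 1384) (nat_lit 105) .nil)))))) (.g (nat_lit 5) .nil .nil))))) (.nd (nat_lit 4) (.nd (nat_lit 5) 
(.lf (nat_lit 290762) (.g (nat_lit 748) (.e (nat_lit 311356) (nat_lit 27) (.e (nat_lit 336194) (nat_lit 12) (.e (nat_lit 385094) (nat_lit 49) .nil))) .nil)) 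
(.lf (nat_lit 290794) (.g (nat_lit 864) (.e (nat_lit 311357) (nat_lit 28) (.e (nat_lit 344076) (nat_lit 13) (.e (nat_lit 1386) (nat_lit 105) (.e (nat_lit 311357) (nat_lit 28) (.e (nat_lit 344077) (nat_lit 13) (.e (nat_lit 1383) (nat_lit 105) .nil)))))) (.g (nat_lit 6) .nil .nil)))) (.nd (nat_lit 5) 
(.lf (nat_lit 290778) (.g (nat_lit 1729) (.e (nat_lit 311357) (nat_lit 28) (.e (nat_lit 344068) (nat_lit 0) (.e (nat_lit 2857) (nat_lit 184) (.e (nat_lit 426533) (nat_lit 28) (.e (nat_lit 344076) (nat_lit 13) (.e (nat_lit 1385) (nat_lit 105) .nil)))))) (.g (nat_lit 6) .nil .nil))) 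
(.lf (nat_lit 290810) (.g (nat_lit 912) (.e (nat_lit 311358) (nat_lit 29) (.e (nat_lit 352267) (nat_lit 0) (.e (nat_lit 3629) (nat_lit 227) (.e (nat_lit 778324) (nat_lit 5) (.e (nat_lit 73791) (nat_lit 45) .nil))))) .nil))))) (.nd (nat_lit 3) (.nd (nat_lit 4) (.nd (nat_lit 5) 
(.lf (nat_lit 290758) (.g (nat_lit 1937) (.e (nat_lit 311355) (nat_lit 27) (.e (nat_lit 336235) (nat_lit 14) (.e (nat_lit 401459) (nat_lit 13) (.e (nat_lit 483350) (nat_lit 17) .nil)))) .nil)) 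
(.lf (nat_lit 290790) (.g (nat_lit 1577) (.e (nat_lit 311357) (nat_lit 28) (.e (nat_lit 344069) (nat_lit 0) (.e (nat_lit 2857) (nat_lit 184) (.e (nat_lit 426533) (nat_lit 28) (.e (nat_lit 344080) (nat_lit 13) .nil))))) .nil))) (.nd (nat_lit 5) 
(.lf (nat_lit 290774) (.g (nat_lit 2053) (.e (nat_lit 311357) (nat_lit 28) (.e (nat_lit 344068) (nat_lit 0) (.e (nat_lit 2856) (nat_lit 184) (.e (nat_lit 426533) (nat_lit 28) (.e (nat_lit 344077) (nat_lit 13) (.e (nat_lit 1383) (nat_lit 105) .nil)))))) (.g (nat_lit 6) .nil .nil))) 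
(.lf (nat_lit 290806) (.g (nat_lit 1539) (.e (nat_lit 311358) (nat_lit 29) (.e (nat_lit 352265) (nat_lit 0) (.e (nat_lit 3632) (nat_lit 227) (.e (nat_lit 778324) (nat_lit 5) (.e (nat_lit 73792) (nat_lit 45) .nil))))) .nil)))) (.nd (nat_lit 4) (.nd (nat_lit 5) 
(.lf (nat_lit 290766) (.g (nat_lit 867) (.e (nat_lit 311356) (nat_lit 27) (.e (nat_lit 336204) (nat_lit 12) (.e (nat_lit 385094) (nat_lit 49) .nil))) .nil)) 
(.lf (nat_lit 290798) (.g (nat_lit 690) (.e (nat_lit 311358) (nat_lit 29) (.e (nat_lit 352264) (nat_lit 0) (.e (nat_lit 3714) (nat_lit 227) (.e (nat_lit 786176) (nat_lit 5) (.e (nat_lit 73789) (nat_lit 45) (.e (nat_lit 1383) (nat_lit 105) .nil)))))) (.g (nat_lit 5) .nil .nil)))) (.nd (nat_lit 5) 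
(.lf (nat_lit 290782) (.g (nat_lit 713) (.e (nat_lit 311357) (nat_lit 28) (.e (nat_lit 344069) (nat_lit 0) (.e (nat_lit 2854) (nat_lit 184) (.e (nat_lit 426533) (nat_lit 28) (.e (nat_lit 344076) (nat_lit 13) (.e (nat_lit 1385) (nat_lit 105) .nil)))))) (.g (nat_lit 4) .nil .nil))) 
(.lf (nat_lit 290814) (.g (nat_lit 1508) (.e (nat_lit 311358) (nat_lit 29) (.e (nat_lit 352267) (nat_lit 0) (.e (nat_lit 3631) (nat_lit 227) (.e (nat_lit 778323) (nat_lit 5) (.e (nat_lit 73792) (nat_lit 45) (.e (nat_lit 1386) (nat_lit 105) .nil)))))) (.g (nat_lit 4) .nil .nil)))))))) (.nd (nat_lit 1) (.nd (nat_lit 2) (.nd (nat_lit 3) (.nd (nat_lit 4) (.nd (nat_lit 5) 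
(.lf (nat_lit 290753) (.g (nat_lit 2188) (.e (nat_lit 311354) (nat_lit 27) (.e (nat_lit 336193) (nat_lit 12) (.e (nat_lit 385093) (nat_lit 49) (.e (nat_lit 778323) (nat_lit 5) (.e (nat_lit 73789) (nat_lit 45) (.e (nat_lit 1385) (nat_lit 105) .nil)))))) (.g (nat_lit 4) .nil .nil))) 
(.lf (nat_lit 290785) (.g (nat_lit 1586) (.e (nat_lit 311357) (nat_lit 28) (.e (nat_lit 344069) (nat_lit 0) (.e (nat_lit 2856) (nat_lit 184) (.e (nat_lit 426533) (nat_lit 28) (.e (nat_lit 344076) (nat_lit 13) .nil))))) .nil))) (.nd (nat_lit 5) 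
(.lf (nat_lit 290769) (.g (nat_lit 613) (.e (nat_lit 311357) (nat_lit 28) (.e (nat_lit 344066) (nat_lit 0) (.e (nat_lit 2939) (nat_lit 184) (.e (nat_lit 426532) (nat_lit 28) (.e (nat_lit 344077) (nat_lit 13) (.e (nat_lit 1383) (nat_lit 105) .nil)))))) (.g (nat_lit 6) .nil .nil))) 
(.lf (nat_lit 290801) (.g (nat_lit 1987) (.e (nat_lit 311358) (nat_lit 29) (.e (nat_lit 352265) (nat_lit 0) (.e (nat_lit 3632) (nat_lit 227) (.e (nat_lit 778323) (nat_lit 5) (.e (nat_lit 73789) (nat_lit 45) (.e (nat_lit 1383) (nat_lit 105) .nil)))))) (.g (nat_lit 5) .nil .nil))))) (.nd (nat_lit 4) (.nd (nat_lit 5) 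
(.lf (nat_lit 290761) (.g (nat_lit 2094) (.e (nat_lit 311356) (nat_lit 27) (.e (nat_lit 336193) (nat_lit 12) (.e (nat_lit 385093) (nat_lit 49) (.e (nat_lit 778323) (nat_lit 5) (.e (nat_lit 73789) (nat_lit 45) .nil))))) .nil)) 
(.lf (nat_lit 290793) (.g (nat_lit 835) (.e (nat_lit 311357) (nat_lit 28) (.e (nat_lit 344075) (nat_lit 13) (.e (nat_lit 1374) (nat_lit 104) (.e (nat_lit 303154) (nat_lit 28) (.e (nat_lit 344081) (nat_lit 13) .nil))))) .nil))) (.nd (nat_lit 5) 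
(.lf (nat_lit 290777) (.g (nat_lit 1952) (.e (nat_lit 311357) (nat_lit 28) (.e (nat_lit 344068) (nat_lit 0) (.e (nat_lit 2856) (nat_lit 184) (.e (nat_lit 426533) (nat_lit 28) (.e (nat_lit 344080) (nat_lit 13) .nil))))) .nil)) 
(.lf (nat_lit 290809) (.g (nat_lit 1438) (.e (nat_lit 311358) (nat_lit 29) (.e (nat_lit 352267) (nat_lit 0) (.e (nat_lit 3629) (nat_lit 227) (.e (nat_lit 778323) (nat_lit 5) (.e (nat_lit 73789) (nat_lit 45) (.e (nat_lit 1383) (nat_lit 105) .nil)))))) (.g (nat_lit 0) .nil .nil)))))) (.nd (nat_lit 3) (.nd (nat_lit 4) (.nd (nat_lit 5) 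
(.lf (nat_lit 290757) (.g (nat_lit 1389) (.e (nat_lit 311355) (nat_lit 27) (.e (nat_lit 336235) (nat_lit 14) (.e (nat_lit 401458) (nat_lit 13) (.e (nat_lit 483372) (nat_lit 21) .nil)))) .nil)) 
(.lf (nat_lit 290789) (.g (nat_lit 1893) (.e (nat_lit 311357) (nat_lit 28) (.e (nat_lit 344069) (nat_lit 0) (.e (nat_lit 2857) (nat_lit 184) (.e (nat_lit 426533) (nat_lit 28) (.e (nat_lit 344077) (nat_lit 13) (.e (nat_lit 1384) (nat_lit 105) .nil)))))) (.g (nat_lit 0) .nil .nil)))) (.nd (nat_lit 5) 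
(.lf (nat_lit 290773) (.g (nat_lit 1854) (.e (nat_lit 311357) (nat_lit 28) (.e (nat_lit 344068) (nat_lit 0) (.e (nat_lit 2856) (nat_lit 184) (.e (nat_lit 426533) (nat_lit 28) (.e (nat_lit 344076) (nat_lit 13) .nil))))) .nil)) 
(.lf (nat_lit 290805) (.g (nat_lit 1520) (.e (nat_lit 311358) (nat_lit 29) (.e (nat_lit 352265) (nat_lit 0) (.e (nat_lit 3632) (nat_lit 227) (.e (nat_lit 778324) (nat_lit 5) (.e (nat_lit 73791) (nat_lit 45) (.e (nat_lit 1383) (nat_lit 105) .nil)))))) (.g (nat_lit 4) .nil .nil))))) (.nd (nat_lit 4) (.nd (nat_lit 5) 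
(.lf (nat_lit 290765) (.g (nat_lit 690) (.e (nat_lit 311356) (nat_lit 27) (.e (nat_lit 336194) (nat_lit 12) (.e (nat_lit 385096) (nat_lit 49) .nil))) .nil)) 
(.lf (nat_lit 290797) (.g (nat_lit 1462) (.e (nat_lit 311358) (nat_lit 29) (.e (nat_lit 352264) (nat_lit 0) (.e (nat_lit 3714) (nat_lit 227) (.e (nat_lit 778322) (nat_lit 5) (.e (nat_lit 73792) (nat_lit 45) (.e (nat_lit 1386) (nat_lit 105) .nil)))))) (.g (nat_lit 6) .nil .nil)))) (.nd (nat_lit 5) 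
(.lf (nat_lit 290781) (.g (nat_lit 1805) (.e (nat_lit 311357) (nat_lit 28) (.e (nat_lit 344068) (nat_lit 0) (.e (nat_lit 3090) (nat_lit 191) (.e (nat_lit 483375) (nat_lit 22) (.e (nat_lit 327718) (nat_lit 19) .nil))))) (.g (nat_lit 4) .nil .nil))) 
(.lf (nat_lit 290813) (.g (nat_lit 1377) (.e (nat_lit 311358) (nat_lit 29) (.e (nat_lit 352267) (nat_lit 0) (.e (nat_lit 3631) (nat_lit 227) (.e (nat_lit 778323) (nat_lit 5) (.e (nat_lit 73792) (nat_lit 45) .nil))))) .nil)))))) (.nd (nat_lit 2) (.nd (nat_lit 3) (.nd (nat_lit 4) (.nd (nat_lit 5) 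
(.lf (nat_lit 290755) (.g (nat_lit 1729) (.e (nat_lit 311355) (nat_lit 27) (.e (nat_lit 336051) (nat_lit 6) (.e (nat_lit 147466) (nat_lit 9) (.e (nat_lit 307) (nat_lit 22) .nil)))) .nil)) 
(.lf (nat_lit 290787) (.g (nat_lit 1755) (.e (nat_lit 311357) (nat_lit 28) (.e (nat_lit 344069) (nat_lit 0) (.e (nat_lit 2856) (nat_lit 184) (.e (nat_lit 426533) (nat_lit 28) (.e (nat_lit 344080) (nat_lit 13) .nil))))) .nil))) (.nd (nat_lit 5) 
(.lf (nat_lit 290771) (.g (nat_lit 954) (.e (nat_lit 311357) (nat_lit 28) (.e (nat_lit 344068) (nat_lit 0) (.e (nat_lit 2854) (nat_lit 184) (.e (nat_lit 426533) (nat_lit 28) (.e (nat_lit 344077) (nat_lit 13) (.e (nat_lit 1384) (nat_lit 105) .nil)))))) (.g (nat_lit 6) .nil .nil))) 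
(.lf (nat_lit 290803) (.g (nat_lit 2357) (.e (nat_lit 311358) (nat_lit 29) (.e (nat_lit 352265) (nat_lit 0) (.e (nat_lit 3632) (nat_lit 227) (.e (nat_lit 778323) (nat_lit 5) (.e (nat_lit 73789) (nat_lit 45) (.e (nat_lit 1385) (nat_lit 105) .nil)))))) (.g (nat_lit 6) .nil .nil))))) (.nd (nat_lit 4) (.nd (nat_lit 5) 
(.lf (nat_lit 290763) (.g (nat_lit 1444) (.e (nat_lit 311356) (nat_lit 27) (.e (nat_lit 336194) (nat_lit 12) (.e (nat_lit 385094) (nat_lit 49) (.e (nat_lit 778323) (nat_lit 5) .nil)))) .nil)) 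
(.lf (nat_lit 290795) (.g (nat_lit 1015) (.e (nat_lit 311358) (nat_lit 29) (.e (nat_lit 352264) (nat_lit 0) (.e (nat_lit 3711) (nat_lit 227) (.e (nat_lit 778322) (nat_lit 5) (.e (nat_lit 73789) (nat_lit 45) (.e (nat_lit 1383) (nat_lit 105) .nil)))))) (.g (nat_lit 0) .nil .nil)))) (.nd (nat_lit 5) 
(.lf (nat_lit 290779) (.g (nat_lit 1912) (.e (nat_lit 311357) (nat_lit 28) (.e (nat_lit 344068) (nat_lit 0) (.e (nat_lit 2857) (nat_lit 184) (.e (nat_lit 426533) (nat_lit 28) (.e (nat_lit 344076) (nat_lit 13) (.e (nat_lit 1386) (nat_lit 105) .nil)))))) (.g (nat_lit 6) .nil .nil))) 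
(.lf (nat_lit 290811) (.g (nat_lit 907) (.e (nat_lit 311358) (nat_lit 29) (.e (nat_lit 352267) (nat_lit 0) (.e (nat_lit 3630) (nat_lit 227) (.e (nat_lit 778324) (nat_lit 5) (.e (nat_lit 73791) (nat_lit 45) .nil))))) .nil))))) (.nd (nat_lit 3) (.nd (nat_lit 4) (.nd (nat_lit 5) 
(.lf (nat_lit 290759) (.g (nat_lit 1087) (.e (nat_lit 311356) (nat_lit 27) (.e (nat_lit 336076) (nat_lit 9) (.e (nat_lit 336332) (nat_lit 19) (.e (nat_lit 220928) (nat_lit 5) .nil)))) .nil)) 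
(.lf (nat_lit 290791) (.g (nat_lit 1015) (.e (nat_lit 311357) (nat_lit 28) (.e (nat_lit 344069) (nat_lit 0) (.e (nat_lit 3088) (nat_lit 191) (.e (nat_lit 483376) (nat_lit 22) (.e (nat_lit 327718) (nat_lit 19) .nil))))) .nil))) (.nd (nat_lit 5) 
(.lf (nat_lit 290775) (.g (nat_lit 2090) (.e (nat_lit 311357) (nat_lit 28) (.e (nat_lit 344068) (nat_lit 0) (.e (nat_lit 2856) (nat_lit 184) (.e (nat_lit 426533) (nat_lit 28) (.e (nat_lit 344077) (nat_lit 13) (.e (nat_lit 1384) (nat_lit 105) .nil)))))) (.g (nat_lit 6) .nil .nil))) 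
(.lf (nat_lit 290807) (.g (nat_lit 697) (.e (nat_lit 311358) (nat_lit 29) (.e (nat_lit 352266) (nat_lit 0) (.e (nat_lit 3630) (nat_lit 227) (.e (nat_lit 778323) (nat_lit 5) (.e (nat_lit 73789) (nat_lit 45) .nil))))) .nil)))) (.nd (nat_lit 4) (.nd (nat_lit 5) 
(.lf (nat_lit 290767) (.g (nat_lit 1397) (.e (nat_lit 311356) (nat_lit 27) (.e (nat_lit 336229) (nat_lit 14) (.e (nat_lit 401459) (nat_lit 13) (.e (nat_lit 483350) (nat_lit 17) .nil)))) .nil)) 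
(.lf (nat_lit 290799) (.g (nat_lit 1030) (.e (nat_lit 311358) (nat_lit 29) (.e (nat_lit 352264) (nat_lit 0) (.e (nat_lit 3715) (nat_lit 227) (.e (nat_lit 778322) (nat_lit 5) (.e (nat_lit 73789) (nat_lit 45) (.e (nat_lit 1383) (nat_lit 105) .nil)))))) (.g (nat_lit 0) .nil .nil)))) (.nd (nat_lit 5) 
(.lf (nat_lit 290783) (.g (nat_lit 912) (.e (nat_lit 311357) (nat_lit 28) (.e (nat_lit 344069) (nat_lit 0) (.e (nat_lit 2854) (nat_lit 184) (.e (nat_lit 426533) (nat_lit 28) (.e (nat_lit 344077) (nat_lit 13) (.e (nat_lit 1383) (nat_lit 105) .nil)))))) (.g (nat_lit 0) .nil .nil))) 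
(.lf (nat_lit 290815) (.g (nat_lit 1004) (.e (nat_lit 311358) (nat_lit 29) (.e (nat_lit 352267) (nat_lit 0) (.e (nat_lit 3631) (nat_lit 227) (.e (nat_lit 778324) (nat_lit 5) .nil)))) .nil))))))))

noncomputable def tv3677 : DT := (.nd (nat_lit 0) (.nd (nat_lit 1) (.nd (nat_lit 2) (.nd (nat_lit 3) (.nd (nat_lit 4) 
(.lf (nat_lit 290816) (.g (nat_lit 1399) (.e (nat_lit 311358) (nat_lit 29) (.e (nat_lit 352267) (nat_lit 0) (.e (nat_lit 3631) (nat_lit 227) (.e (nat_lit 778324) (nat_lit 5) (.e (nat_lit 73791) (nat_lit 45) .nil))))) .nil)) 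
(.lf (nat_lit 290832) (.g (nat_lit 1774) (.e (nat_lit 311358) (nat_lit 29) (.e (nat_lit 352283) (nat_lit 20) (.e (nat_lit 1998) (nat_lit 137) (.e (nat_lit 663568) (nat_lit 5) (.e (nat_lit 73792) (nat_lit 45) (.e (nat_lit 1386) (nat_lit 105) .nil)))))) (.g (nat_lit 0) .nil .nil)))) (.nd (nat_lit 4) 
(.lf (nat_lit 290824) (.g (nat_lit 959) (.e (nat_lit 311358) (nat_lit 29) (.e (nat_lit 352280) (nat_lit 20) (.e (nat_lit 2003) (nat_lit 138) (.e (nat_lit 671763) (nat_lit 5) (.e (nat_lit 73792) (nat_lit 45) (.e (nat_lit 1385) (nat_lit 105) .nil)))))) (.g (nat_lit 4) .nil .nil))) 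
(.lf (nat_lit 290840) (.g (nat_lit 1464) (.e (nat_lit 311358) (nat_lit 29) (.e (nat_lit 352283) (nat_lit 20) (.e (nat_lit 1999) (nat_lit 137) (.e (nat_lit 663568) (nat_lit 5) (.e (nat_lit 73791) (nat_lit 45) (.e (nat_lit 1386) (nat_lit 105) .nil)))))) (.g (nat_lit 0) .nil .nil))))) (.nd (nat_lit 3) (.nd (nat_lit 4) 
(.lf (nat_lit 290820) (.g (nat_lit 1938) (.e (nat_lit 311358) (nat_lit 29) (.e (nat_lit 352267) (nat_lit 0) (.e (nat_lit 3632) (nat_lit 227) (.e (nat_lit 778324) (nat_lit 5) (.e (nat_lit 73791) (nat_lit 45) (.e (nat_lit 1383) (nat_lit 105) .nil)))))) (.g (nat_lit 4) .nil .nil))) 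
(.lf (nat_lit 290836) (.g (nat_lit 1689) (.e (nat_lit 311358) (nat_lit 29) (.e (nat_lit 352283) (nat_lit 20) (.e (nat_lit 1999) (nat_lit 137) (.e (nat_lit 663568) (nat_lit 5) (.e (nat_lit 73789) (nat_lit 45) (.e (nat_lit 1385) (nat_lit 105) .nil)))))) (.g (nat_lit 0) .nil .nil)))) (.nd (nat_lit 4) 
(.lf (nat_lit 290828) (.g (nat_lit 1345) (.e (nat_lit 311358) (nat_lit 29) (.e (nat_lit 352283) (nat_lit 20) (.e (nat_lit 1994) (nat_lit 137) (.e (nat_lit 663568) (nat_lit 5) (.e (nat_lit 73791) (nat_lit 45) (.e (nat_lit 1386) (nat_lit 105) .nil)))))) (.g (nat_lit 6) .nil .nil))) 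
(.lf (nat_lit 290844) (.g (nat_lit 1271) (.e (nat_lit 311358) (nat_lit 29) (.e (nat_lit 352285) (nat_lit 20) (.e (nat_lit 1998) (nat_lit 137) (.e (nat_lit 663568) (nat_lit 5) (.e (nat_lit 73789) (nat_lit 45) (.e (nat_lit 1386) (nat_lit 105) .nil)))))) (.g (nat_lit 0) .nil .nil)))))) (.nd (nat_lit 2) (.nd (nat_lit 3) (.nd (nat_lit 4) 
(.lf (nat_lit 290818) (.g (nat_lit 2089) (.e (nat_lit 311358) (nat_lit 29) (.e (nat_lit 352267) (nat_lit 0) (.e (nat_lit 3632) (nat_lit 227) (.e (nat_lit 778323) (nat_lit 5) (.e (nat_lit 73792) (nat_lit 45) (.e (nat_lit 1385) (nat_lit 105) .nil)))))) (.g (nat_lit 4) .nil .nil))) 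
(.lf (nat_lit 290834) (.g (nat_lit 2158) (.e (nat_lit 311358) (nat_lit 29) (.e (nat_lit 352283) (nat_lit 20) (.e (nat_lit 1999) (nat_lit 137) (.e (nat_lit 663567) (nat_lit 4) (.e (nat_lit 65586) (nat_lit 7) (.e (nat_lit 319539) (nat_lit 19) .nil)))))) (.g (nat_lit 0) .nil .nil)))) (.nd (nat_lit 4) 
(.lf (nat_lit 290826) (.g (nat_lit 1554) (.e (nat_lit 311358) (nat_lit 29) (.e (nat_lit 352283) (nat_lit 20) (.e (nat_lit 1994) (nat_lit 137) (.e (nat_lit 663568) (nat_lit 5) (.e (nat_lit 73789) (nat_lit 45) (.e (nat_lit 1386) (nat_lit 105) .nil)))))) (.g (nat_lit 0) .nil .nil))) 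
(.lf (nat_lit 290842) (.g (nat_lit 2014) (.e (nat_lit 311358) (nat_lit 29) (.e (nat_lit 352283) (nat_lit 20) (.e (nat_lit 1999) (nat_lit 137) (.e (nat_lit 663568) (nat_lit 5) (.e (nat_lit 73792) (nat_lit 45) (.e (nat_lit 1386) (nat_lit 105) .nil)))))) (.g (nat_lit 0) .nil .nil))))) (.nd (nat_lit 3) (.nd (nat_lit 4) 
(.lf (nat_lit 290822) (.g (nat_lit 1940) (.e (nat_lit 311358) (nat_lit 29) (.e (nat_lit 352267) (nat_lit 0) (.e (nat_lit 3632) (nat_lit 227) (.e (nat_lit 778324) (nat_lit 5) (.e (nat_lit 73792) (nat_lit 45) (.e (nat_lit 1386) (nat_lit 105) .nil)))))) (.g (nat_lit 4) .nil .nil))) 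
(.lf (nat_lit 290838) (.g (nat_lit 936) (.e (nat_lit 311358) (nat_lit 29) (.e (nat_lit 352283) (nat_lit 20) (.e (nat_lit 1999) (nat_lit 137) (.e (nat_lit 663568) (nat_lit 5) (.e (nat_lit 73791) (nat_lit 45) (.e (nat_lit 1383) (nat_lit 105) .nil)))))) (.g (nat_lit 4) .nil .nil)))) (.nd (nat_lit 4) 
(.lf (nat_lit 290830) (.g (nat_lit 1418) (.e (nat_lit 311358) (nat_lit 29) (.e (nat_lit 352283) (nat_lit 20) (.e (nat_lit 1998) (nat_lit 137) (.e (nat_lit 663568) (nat_lit 5) (.e (nat_lit 73789) (nat_lit 45) (.e (nat_lit 1386) (nat_lit 105) .nil)))))) (.g (nat_lit 0) .nil .nil))) 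
(.lf (nat_lit 290846) (.g (nat_lit 1324) (.e (nat_lit 311358) (nat_lit 29) (.e (nat_lit 352285) (nat_lit 20) (.e (nat_lit 1998) (nat_lit 137) (.e (nat_lit 663568) (nat_lit 5) (.e (nat_lit 73792) (nat_lit 45) (.e (nat_lit 1385) (nat_lit 105) .nil)))))) (.g (nat_lit 0) .nil .nil))))))) (.nd (nat_lit 1) (.nd (nat_lit 2) (.nd (nat_lit 3) (.nd (nat_lit 4) 
(.lf (nat_lit 290817) (.g (nat_lit 2440) (.e (nat_lit 311358) (nat_lit 29) (.e (nat_lit 352267) (nat_lit 0) (.e (nat_lit 3632) (nat_lit 227) (.e (nat_lit 778323) (nat_lit 5) (.e (nat_lit 73789) (nat_lit 45) (.e (nat_lit 1383) (nat_lit 105) .nil)))))) (.g (nat_lit 0) .nil .nil))) 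
(.lf (nat_lit 290833) (.g (nat_lit 2004) (.e (nat_lit 311358) (nat_lit 29) (.e (nat_lit 352283) (nat_lit 20) (.e (nat_lit 1999) (nat_lit 137) (.e (nat_lit 663567) (nat_lit 4) (.e (nat_lit 65583) (nat_lit 7) (.e (nat_lit 319539) (nat_lit 19) .nil)))))) (.g (nat_lit 0) .nil .nil)))) (.nd (nat_lit 4) 
(.lf (nat_lit 290825) (.g (nat_lit 1609) (.e (nat_lit 311358) (nat_lit 29) (.e (nat_lit 352283) (nat_lit 20) (.e (nat_lit 1994) (nat_lit 137) (.e (nat_lit 663568) (nat_lit 5) (.e (nat_lit 73789) (nat_lit 45) (.e (nat_lit 1385) (nat_lit 105) .nil)))))) (.g (nat_lit 0) .nil .nil))) 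
(.lf (nat_lit 290841) (.g (nat_lit 1691) (.e (nat_lit 311358) (nat_lit 29) (.e (nat_lit 352283) (nat_lit 20) (.e (nat_lit 1999) (nat_lit 137) (.e (nat_lit 663568) (nat_lit 5) (.e (nat_lit 73792) (nat_lit 45) (.e (nat_lit 1385) (nat_lit 105) .nil)))))) (.g (nat_lit 0) .nil .nil))))) (.nd (nat_lit 3) (.nd (nat_lit 4) 
(.lf (nat_lit 290821) (.g (nat_lit 1863) (.e (nat_lit 311358) (nat_lit 29) (.e (nat_lit 352267) (nat_lit 0) (.e (nat_lit 3632) (nat_lit 227) (.e (nat_lit 778324) (nat_lit 5) (.e (nat_lit 73792) (nat_lit 45) .nil))))) .nil)) 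
(.lf (nat_lit 290837) (.g (nat_lit 1640) (.e (nat_lit 311358) (nat_lit 29) (.e (nat_lit 352283) (nat_lit 20) (.e (nat_lit 1999) (nat_lit 137) (.e (nat_lit 663568) (nat_lit 5) (.e (nat_lit 73789) (nat_lit 45) (.e (nat_lit 1386) (nat_lit 105) .nil)))))) (.g (nat_lit 0) .nil .nil)))) (.nd (nat_lit 4) 
(.lf (nat_lit 290829) (.g (nat_lit 1467) (.e (nat_lit 311358) (nat_lit 29) (.e (nat_lit 352283) (nat_lit 20) (.e (nat_lit 1998) (nat_lit 137) (.e (nat_lit 663568) (nat_lit 5) (.e (nat_lit 73789) (nat_lit 45) (.e (nat_lit 1385) (nat_lit 105) .nil)))))) (.g (nat_lit 0) .nil .nil))) 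
(.lf (nat_lit 290845) (.g (nat_lit 572) (.e (nat_lit 311358) (nat_lit 29) (.e (nat_lit 352285) (nat_lit 20) (.e (nat_lit 1998) (nat_lit 137) (.e (nat_lit 663568) (nat_lit 5) (.e (nat_lit 73791) (nat_lit 45) (.e (nat_lit 1383) (nat_lit 105) .nil)))))) (.g (nat_lit 4) .nil .nil)))))) (.nd (nat_lit 2) (.nd (nat_lit 3) (.nd (nat_lit 4) 
(.lf (nat_lit 290819) (.g (nat_lit 1717) (.e (nat_lit 311358) (nat_lit 29) (.e (nat_lit 352267) (nat_lit 0) (.e (nat_lit 3632) (nat_lit 227) (.e (nat_lit 778324) (nat_lit 5) (.e (nat_lit 73791) (nat_lit 45) .nil))))) .nil)) 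
(.lf (nat_lit 290835) (.g (nat_lit 1289) (.e (nat_lit 311358) (nat_lit 29) (.e (nat_lit 352283) (nat_lit 20) (.e (nat_lit 1999) (nat_lit 137) (.e (nat_lit 663568) (nat_lit 5) (.e (nat_lit 73788) (nat_lit 45) (.e (nat_lit 1385) (nat_lit 105) .nil)))))) (.g (nat_lit 0) .nil .nil)))) (.nd (nat_lit 4) 
(.lf (nat_lit 290827) (.g (nat_lit 819) (.e (nat_lit 311358) (nat_lit 29) (.e (nat_lit 352283) (nat_lit 20) (.e (nat_lit 1994) (nat_lit 137) (.e (nat_lit 663568) (nat_lit 5) (.e (nat_lit 73791) (nat_lit 45) (.e (nat_lit 1383) (nat_lit 105) .nil)))))) (.g (nat_lit 4) .nil .nil))) 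
(.lf (nat_lit 290843) (.g (nat_lit 1340) (.e (nat_lit 311358) (nat_lit 29) (.e (nat_lit 352285) (nat_lit 20) (.e (nat_lit 1998) (nat_lit 137) (.e (nat_lit 663568) (nat_lit 5) (.e (nat_lit 73789) (nat_lit 45) (.e (nat_lit 1385) (nat_lit 105) .nil)))))) (.g (nat_lit 0) .nil .nil))))) (.nd (nat_lit 3) (.nd (nat_lit 4) 
(.lf (nat_lit 290823) (.g (nat_lit 669) (.e (nat_lit 311358) (nat_lit 29) (.e (nat_lit 352280) (nat_lit 20) (.e (nat_lit 2003) (nat_lit 138) (.e (nat_lit 671763) (nat_lit 5) (.e (nat_lit 73789) (nat_lit 45) .nil))))) .nil)) 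
(.lf (nat_lit 290839) (.g (nat_lit 1313) (.e (nat_lit 311358) (nat_lit 29) (.e (nat_lit 352283) (nat_lit 20) (.e (nat_lit 1999) (nat_lit 137) (.e (nat_lit 663568) (nat_lit 5) (.e (nat_lit 73791) (nat_lit 45) (.e (nat_lit 1385) (nat_lit 105) .nil)))))) (.g (nat_lit 0) .nil .nil)))) (.nd (nat_lit 4) 
(.lf (nat_lit 290831) (.g (nat_lit 699) (.e (nat_lit 311358) (nat_lit 29) (.e (nat_lit 352283) (nat_lit 20) (.e (nat_lit 1998) (nat_lit 137) (.e (nat_lit 663568) (nat_lit 5) (.e (nat_lit 73791) (nat_lit 45) (.e (nat_lit 1383) (nat_lit 105) .nil)))))) (.g (nat_lit 4) .nil .nil))) 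
(.lf (nat_lit 290847) (.g (nat_lit 1640) (.e (nat_lit 311358) (nat_lit 29) (.e (nat_lit 352285) (nat_lit 20) (.e (nat_lit 1998) (nat_lit 137) (.e (nat_lit 663568) (nat_lit 5) (.e (nat_lit 73792) (nat_lit 45) (.e (nat_lit 1386) (nat_lit 105) .nil)))))) (.g (nat_lit 0) .nil .nil))))))))

noncomputable def tv3678 : DT := (.nd (nat_lit 0) (.nd (nat_lit 1) (.nd (nat_lit 2) (.nd (nat_lit 3) (.nd (nat_lit 4) 
(.lf (nat_lit 290848) (.g (nat_lit 1547) (.e (nat_lit 311358) (nat_lit 29) (.e (nat_lit 352285) (nat_lit 20) (.e (nat_lit 1999) (nat_lit 137) (.e (nat_lit 663568) (nat_lit 5) (.e (nat_lit 73789) (nat_lit 45) (.e (nat_lit 1385) (nat_lit 105) .nil)))))) (.g (nat_lit 0) .nil .nil))) 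
(.lf (nat_lit 290864) (.g (nat_lit 1151) (.e (nat_lit 311358) (nat_lit 29) (.e (nat_lit 352286) (nat_lit 20) (.e (nat_lit 1999) (nat_lit 137) (.e (nat_lit 663568) (nat_lit 5) (.e (nat_lit 73788) (nat_lit 45) (.e (nat_lit 1385) (nat_lit 105) .nil)))))) (.g (nat_lit 0) .nil .nil)))) (.nd (nat_lit 4) 
(.lf (nat_lit 290856) (.g (nat_lit 1006) (.e (nat_lit 311358) (nat_lit 29) (.e (nat_lit 352286) (nat_lit 20) (.e (nat_lit 1994) (nat_lit 137) (.e (nat_lit 663568) (nat_lit 5) (.e (nat_lit 73789) (nat_lit 45) (.e (nat_lit 1384) (nat_lit 105) .nil)))))) (.g (nat_lit 5) .nil .nil))) 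
(.lf (nat_lit 290872) (.g (nat_lit 1410) (.e (nat_lit 311358) (nat_lit 29) (.e (nat_lit 352287) (nat_lit 20) (.e (nat_lit 1998) (nat_lit 137) (.e (nat_lit 663568) (nat_lit 5) (.e (nat_lit 73789) (nat_lit 45) (.e (nat_lit 1386) (nat_lit 105) .nil)))))) (.g (nat_lit 0) .nil .nil))))) (.nd (nat_lit 3) (.nd (nat_lit 4) 
(.lf (nat_lit 290852) (.g (nat_lit 1304) (.e (nat_lit 311358) (nat_lit 29) (.e (nat_lit 352285) (nat_lit 20) (.e (nat_lit 1999) (nat_lit 137) (.e (nat_lit 663568) (nat_lit 5) (.e (nat_lit 73791) (nat_lit 45) (.e (nat_lit 1386) (nat_lit 105) .nil)))))) (.g (nat_lit 0) .nil .nil))) 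
(.lf (nat_lit 290868) (.g (nat_lit 1545) (.e (nat_lit 311358) (nat_lit 29) (.e (nat_lit 352286) (nat_lit 20) (.e (nat_lit 1999) (nat_lit 137) (.e (nat_lit 663568) (nat_lit 5) (.e (nat_lit 73792) (nat_lit 45) (.e (nat_lit 1385) (nat_lit 105) .nil)))))) (.g (nat_lit 0) .nil .nil)))) (.nd (nat_lit 4) 
(.lf (nat_lit 290860) (.g (nat_lit 1365) (.e (nat_lit 311358) (nat_lit 29) (.e (nat_lit 352286) (nat_lit 20) (.e (nat_lit 1996) (nat_lit 137) (.e (nat_lit 663568) (nat_lit 5) (.e (nat_lit 73789) (nat_lit 45) (.e (nat_lit 1385) (nat_lit 105) .nil)))))) (.g (nat_lit 0) .nil .nil))) 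
(.lf (nat_lit 290876) (.g (nat_lit 1792) (.e (nat_lit 311358) (nat_lit 29) (.e (nat_lit 352287) (nat_lit 20) (.e (nat_lit 1999) (nat_lit 137) (.e (nat_lit 663568) (nat_lit 5) (.e (nat_lit 73789) (nat_lit 45) (.e (nat_lit 1386) (nat_lit 105) .nil)))))) (.g (nat_lit 0) .nil .nil)))))) (.nd (nat_lit 2) (.nd (nat_lit 3) (.nd (nat_lit 4) 
(.lf (nat_lit 290850) (.g (nat_lit 781) (.e (nat_lit 311358) (nat_lit 29) (.e (nat_lit 352285) (nat_lit 20) (.e (nat_lit 1999) (nat_lit 137) (.e (nat_lit 663568) (nat_lit 5) (.e (nat_lit 73791) (nat_lit 45) (.e (nat_lit 1383) (nat_lit 105) .nil)))))) (.g (nat_lit 4) .nil .nil))) 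
(.lf (nat_lit 290866) (.g (nat_lit 1162) (.e (nat_lit 311358) (nat_lit 29) (.e (nat_lit 352286) (nat_lit 20) (.e (nat_lit 1999) (nat_lit 137) (.e (nat_lit 663568) (nat_lit 5) (.e (nat_lit 73791) (nat_lit 45) (.e (nat_lit 1385) (nat_lit 105) .nil)))))) (.g (nat_lit 0) .nil .nil)))) (.nd (nat_lit 4) 
(.lf (nat_lit 290858) (.g (nat_lit 1371) (.e (nat_lit 311358) (nat_lit 29) (.e (nat_lit 352286) (nat_lit 20) (.e (nat_lit 1994) (nat_lit 137) (.e (nat_lit 663568) (nat_lit 5) (.e (nat_lit 73792) (nat_lit 45) (.e (nat_lit 1385) (nat_lit 105) .nil)))))) (.g (nat_lit 6) .nil .nil))) 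
(.lf (nat_lit 290874) (.g (nat_lit 2155) (.e (nat_lit 311358) (nat_lit 29) (.e (nat_lit 352287) (nat_lit 20) (.e (nat_lit 1999) (nat_lit 137) (.e (nat_lit 663567) (nat_lit 4) (.e (nat_lit 65583) (nat_lit 7) (.e (nat_lit 319539) (nat_lit 19) .nil)))))) (.g (nat_lit 0) .nil .nil))))) (.nd (nat_lit 3) (.nd (nat_lit 4) 
(.lf (nat_lit 290854) (.g (nat_lit 1863) (.e (nat_lit 311358) (nat_lit 29) (.e (nat_lit 352285) (nat_lit 20) (.e (nat_lit 1999) (nat_lit 137) (.e (nat_lit 663568) (nat_lit 5) (.e (nat_lit 73792) (nat_lit 45) (.e (nat_lit 1386) (nat_lit 105) .nil)))))) (.g (nat_lit 0) .nil .nil))) 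
(.lf (nat_lit 290870) (.g (nat_lit 821) (.e (nat_lit 311358) (nat_lit 29) (.e (nat_lit 352287) (nat_lit 20) (.e (nat_lit 1994) (nat_lit 137) (.e (nat_lit 663568) (nat_lit 5) (.e (nat_lit 73791) (nat_lit 45) (.e (nat_lit 1383) (nat_lit 105) .nil)))))) (.g (nat_lit 4) .nil .nil)))) (.nd (nat_lit 4) 
(.lf (nat_lit 290862) (.g (nat_lit 606) (.e (nat_lit 311358) (nat_lit 29) (.e (nat_lit 352286) (nat_lit 20) (.e (nat_lit 1996) (nat_lit 137) (.e (nat_lit 663568) (nat_lit 5) (.e (nat_lit 73791) (nat_lit 45) (.e (nat_lit 1383) (nat_lit 105) .nil)))))) (.g (nat_lit 4) .nil .nil))) 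
(.lf (nat_lit 290878) (.g (nat_lit 2172) (.e (nat_lit 311358) (nat_lit 29) (.e (nat_lit 352287) (nat_lit 20) (.e (nat_lit 1999) (nat_lit 137) (.e (nat_lit 663568) (nat_lit 5) (.e (nat_lit 73792) (nat_lit 45) (.e (nat_lit 1386) (nat_lit 105) .nil)))))) (.g (nat_lit 0) .nil .nil))))))) (.nd (nat_lit 1) (.nd (nat_lit 2) (.nd (nat_lit 3) (.nd (nat_lit 4) 
(.lf (nat_lit 290849) (.g (nat_lit 1478) (.e (nat_lit 311358) (nat_lit 29) (.e (nat_lit 352285) (nat_lit 20) (.e (nat_lit 1999) (nat_lit 137) (.e (nat_lit 663568) (nat_lit 5) (.e (nat_lit 73789) (nat_lit 45) (.e (nat_lit 1386) (nat_lit 105) .nil)))))) (.g (nat_lit 0) .nil .nil))) 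
(.lf (nat_lit 290865) (.g (nat_lit 784) (.e (nat_lit 311358) (nat_lit 29) (.e (nat_lit 352286) (nat_lit 20) (.e (nat_lit 1999) (nat_lit 137) (.e (nat_lit 663568) (nat_lit 5) (.e (nat_lit 73791) (nat_lit 45) (.e (nat_lit 1383) (nat_lit 105) .nil)))))) (.g (nat_lit 4) .nil .nil)))) (.nd (nat_lit 4) 
(.lf (nat_lit 290857) (.g (nat_lit 1380) (.e (nat_lit 311358) (nat_lit 29) (.e (nat_lit 352286) (nat_lit 20) (.e (nat_lit 1994) (nat_lit 137) (.e (nat_lit 663568) (nat_lit 5) (.e (nat_lit 73789) (nat_lit 45) (.e (nat_lit 1385) (nat_lit 105) .nil)))))) (.g (nat_lit 6) .nil .nil))) 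
(.lf (nat_lit 290873) (.g (nat_lit 717) (.e (nat_lit 311358) (nat_lit 29) (.e (nat_lit 352287) (nat_lit 20) (.e (nat_lit 1998) (nat_lit 137) (.e (nat_lit 663568) (nat_lit 5) (.e (nat_lit 73791) (nat_lit 45) (.e (nat_lit 1383) (nat_lit 105) .nil)))))) (.g (nat_lit 4) .nil .nil))))) (.nd (nat_lit 3) (.nd (nat_lit 4) 
(.lf (nat_lit 290853) (.g (nat_lit 1547) (.e (nat_lit 311358) (nat_lit 29) (.e (nat_lit 352285) (nat_lit 20) (.e (nat_lit 1999) (nat_lit 137) (.e (nat_lit 663568) (nat_lit 5) (.e (nat_lit 73792) (nat_lit 45) (.e (nat_lit 1385) (nat_lit 105) .nil)))))) (.g (nat_lit 0) .nil .nil))) 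
(.lf (nat_lit 290869) (.g (nat_lit 1863) (.e (nat_lit 311358) (nat_lit 29) (.e (nat_lit 352286) (nat_lit 20) (.e (nat_lit 1999) (nat_lit 137) (.e (nat_lit 663568) (nat_lit 5) (.e (nat_lit 73792) (nat_lit 45) (.e (nat_lit 1386) (nat_lit 105) .nil)))))) (.g (nat_lit 0) .nil .nil)))) (.nd (nat_lit 4) 
(.lf (nat_lit 290861) (.g (nat_lit 1309) (.e (nat_lit 311358) (nat_lit 29) (.e (nat_lit 352286) (nat_lit 20) (.e (nat_lit 1996) (nat_lit 137) (.e (nat_lit 663568) (nat_lit 5) (.e (nat_lit 73789) (nat_lit 45) (.e (nat_lit 1386) (nat_lit 105) .nil)))))) (.g (nat_lit 0) .nil .nil))) 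
(.lf (nat_lit 290877) (.g (nat_lit 859) (.e (nat_lit 311358) (nat_lit 29) (.e (nat_lit 352287) (nat_lit 20) (.e (nat_lit 1999) (nat_lit 137) (.e (nat_lit 663568) (nat_lit 5) (.e (nat_lit 73791) (nat_lit 45) .nil))))) .nil))))) (.nd (nat_lit 2) (.nd (nat_lit 3) (.nd (nat_lit 4) 
(.lf (nat_lit 290851) (.g (nat_lit 1162) (.e (nat_lit 311358) (nat_lit 29) (.e (nat_lit 352285) (nat_lit 20) (.e (nat_lit 1999) (nat_lit 137) (.e (nat_lit 663568) (nat_lit 5) (.e (nat_lit 73791) (nat_lit 45) (.e (nat_lit 1385) (nat_lit 105) .nil)))))) (.g (nat_lit 0) .nil .nil))) 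
(.lf (nat_lit 290867) (.g (nat_lit 1312) (.e (nat_lit 311358) (nat_lit 29) (.e (nat_lit 352286) (nat_lit 20) (.e (nat_lit 1999) (nat_lit 137) (.e (nat_lit 663568) (nat_lit 5) (.e (nat_lit 73791) (nat_lit 45) (.e (nat_lit 1386) (nat_lit 105) .nil)))))) (.g (nat_lit 0) .nil .nil)))) (.nd (nat_lit 4) 
(.lf (nat_lit 290859) (.g (nat_lit 1686) (.e (nat_lit 311358) (nat_lit 29) (.e (nat_lit 352286) (nat_lit 20) (.e (nat_lit 1994) (nat_lit 137) (.e (nat_lit 663568) (nat_lit 5) (.e (nat_lit 73792) (nat_lit 45) (.e (nat_lit 1386) (nat_lit 105) .nil)))))) (.g (nat_lit 6) .nil .nil))) 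
(.lf (nat_lit 290875) (.g (nat_lit 2307) (.e (nat_lit 311358) (nat_lit 29) (.e (nat_lit 352287) (nat_lit 20) (.e (nat_lit 1999) (nat_lit 137) (.e (nat_lit 663567) (nat_lit 4) (.e (nat_lit 65586) (nat_lit 7) (.e (nat_lit 319539) (nat_lit 19) .nil)))))) (.g (nat_lit 0) .nil .nil))))) (.nd (nat_lit 3) (.nd (nat_lit 4) 
(.lf (nat_lit 290855) (.g (nat_lit 1012) (.e (nat_lit 311358) (nat_lit 29) (.e (nat_lit 352286) (nat_lit 20) (.e (nat_lit 1994) (nat_lit 137) (.e (nat_lit 663568) (nat_lit 5) (.e (nat_lit 73789) (nat_lit 45) (.e (nat_lit 1383) (nat_lit 105) .nil)))))) (.g (nat_lit 5) .nil .nil))) 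
(.lf (nat_lit 290871) (.g (nat_lit 679) (.e (nat_lit 311358) (nat_lit 29) (.e (nat_lit 352287) (nat_lit 20) (.e (nat_lit 1996) (nat_lit 137) (.e (nat_lit 663568) (nat_lit 5) (.e (nat_lit 73791) (nat_lit 45) (.e (nat_lit 1383) (nat_lit 105) .nil)))))) (.g (nat_lit 4) .nil .nil)))) (.nd (nat_lit 4) 
(.lf (nat_lit 290863) (.g (nat_lit 1131) (.e (nat_lit 311358) (nat_lit 29) (.e (nat_lit 352286) (nat_lit 20) (.e (nat_lit 1996) (nat_lit 137) (.e (nat_lit 663568) (nat_lit 5) (.e (nat_lit 73791) (nat_lit 45) (.e (nat_lit 1386) (nat_lit 105) .nil)))))) (.g (nat_lit 6) .nil .nil))) 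
(.lf (nat_lit 290879) (.g (nat_lit 1466) (.e (nat_lit 311358) (nat_lit 29) (.e (nat_lit 352290) (nat_lit 20) (.e (nat_lit 2003) (nat_lit 138) (.e (nat_lit 671763) (nat_lit 5) (.e (nat_lit 73789) (nat_lit 45) (.e (nat_lit 1385) (nat_lit 105) .nil)))))) (.g (nat_lit 0) .nil .nil))))))))


end

end Pool.Agent.Lib.MP_5854e1_co.Cz
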