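import Pool.Agent.Lib.MP_5854e1_co.DtD

/-!
# Windows and cells of the rings
-/

set_option autoImplicit false
set_option maxRecDepth 100000
set_option deprecated.oldSectionVars true

namespace Pool.Agent.Lib.MP_5854e1_co.Cz

open Pool.Agent.Lib.MP_5854e1_co

noncomputable section

noncomputable def tv5477 : DT := (.nd (nat_lit 0) (.nd (nat_lit 1) (.nd (nat_lit 2) (.nd (nat_lit 3) (.nd (nat_lit 4) (.nd (nat_lit 5) 
(.lf (nat_lit 445184) (.g (nat_lit 1386) (.e (nat_lit 794635) (nat_lit 11) (.e (nat_lit 336209) (nat_lit 13) (.e (nat_lit 393300) (nat_lit 27) (.e (nat_lit 491558) (nat_lit 10) (.e (nat_lit 352000) (nat_lit 46) .nil))))) (.g (nat_lit 4) .nil .nil))) 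
(.lf (nat_lit 445216) (.g (nat_lit 1759) (.e (nat_lit 794636) (nat_lit 11) (.e (nat_lit 336026) (nat_lit 3) (.e (nat_lit 98372) (nat_lit 29) (.e (nat_lit 450586) (nat_lit 10) (.e (nat_lit 573473) (nat_lit 12) (.e (nat_lit 65280) (nat_lit 57) .nil)))))) (.g (nat_lit 5) .nil .nil)))) (.nd (nat_lit 5) 
(.lf (nat_lit 445200) (.g (nat_lit 3063) (.e (nat_lit 794636) (nat_lit 11) (.e (nat_lit 336012) (nat_lit 2) (.e (nat_lit 90170) (nat_lit 13) (.e (nat_lit 172113) (nat_lit 10) (.e (nat_lit 434245) (nat_lit 28) .nil))))) .nil)) 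
(.lf (nat_lit 445232) (.g (nat_lit 1307) (.e (nat_lit 794636) (nat_lit 11) (.e (nat_lit 336075) (nat_lit 9) (.e (nat_lit 336438) (nat_lit 31) (.e (nat_lit 458769) (nat_lit 16) (.e (nat_lit 164287) (nat_lit 224) (.e (nat_lit 164112) (nat_lit 118) .nil)))))) (.g (nat_lit 4) .nil .nil))))) (.nd (nat_lit 4) (.nd (nat_lit 5) 
(.lf (nat_lit 445192) (.g (nat_lit 3254) (.e (nat_lit 794636) (nat_lit 11) (.e (nat_lit 336010) (nat_lit 2) (.e (nat_lit 90170) (nat_lit 13) (.e (nat_lit 172113) (nat_lit 10) (.e (nat_lit 434245) (nat_lit 28) (.e (nat_lit 573474) (nat_lit 12) (.e (nat_lit 65280) (nat_lit 57) .nil))))))) (.g (nat_lit 6) .nil .nil))) 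
(.lf (nat_lit 445224) (.g (nat_lit 2402) (.e (nat_lit 794636) (nat_lit 11) (.e (nat_lit 336027) (nat_lit 3) (.e (nat_lit 98372) (nat_lit 29) (.e (nat_lit 450586) (nat_lit 10) (.e (nat_lit 573473) (nat_lit 12) (.e (nat_lit 65280) (nat_lit 57) .nil)))))) (.g (nat_lit 5) .nil .nil)))) (.nd (nat_lit 5) 
(.lf (nat_lit 445208) (.g (nat_lit 1959) (.e (nat_lit 794636) (nat_lit 11) (.e (nat_lit 336021) (nat_lit 3) (.e (nat_lit 98372) (nat_lit 29) (.e (nat_lit 450586) (nat_lit 10) .nil)))) .nil)) 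
(.lf (nat_lit 445240) (.g (nat_lit 542) (.e (nat_lit 794636) (nat_lit 11) (.e (nat_lit 336086) (nat_lit 9) (.e (nat_lit 336414) (nat_lit 27) .nil))) .nil))))) (.nd (nat_lit 3) (.nd (nat_lit 4) (.nd (nat_lit 5) 
(.lf (nat_lit 445188) (.g (nat_lit 2974) (.e (nat_lit 794636) (nat_lit 11) (.e (nat_lit 335913) (nat_lit 0) (.e (nat_lit 1812) (nat_lit 120) (.e (nat_lit 524322) (nat_lit 12) (.e (nat_lit 450588) (nat_lit 10) (.e (nat_lit 573475) (nat_lit 12) (.e (nat_lit 65280) (nat_lit 57) .nil))))))) (.g (nat_lit 6) .nil .nil))) 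
(.lf (nat_lit 445220) (.g (nat_lit 3104) (.e (nat_lit 794636) (nat_lit 11) (.e (nat_lit 336026) (nat_lit 3) (.e (nat_lit 98373) (nat_lit 29) (.e (nat_lit 450587) (nat_lit 10) (.e (nat_lit 573475) (nat_lit 12) (.e (nat_lit 65280) (nat_lit 57) .nil)))))) (.g (nat_lit 5) .nil .nil)))) (.nd (nat_lit 5) 
(.lf (nat_lit 445204) (.g (nat_lit 2281) (.e (nat_lit 794636) (nat_lit 11) (.e (nat_lit 336012) (nat_lit 2) (.e (nat_lit 90178) (nat_lit 15) (.e (nat_lit 188440) (nat_lit 20) (.e (nat_lit 3307) (nat_lit 202) .nil))))) .nil)) 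
(.lf (nat_lit 445236) (.g (nat_lit 1231) (.e (nat_lit 794636) (nat_lit 11) (.e (nat_lit 336084) (nat_lit 9) (.e (nat_lit 336438) (nat_lit 31) (.e (nat_lit 458769) (nat_lit 16) (.e (nat_lit 164291) (nat_lit 224) (.e (nat_lit 164112) (nat_lit 118) .nil)))))) (.g (nat_lit 6) .nil .nil))))) (.nd (nat_lit 4) (.nd (nat_lit 5) 
(.lf (nat_lit 445196) (.g (nat_lit 3923) (.e (nat_lit 794636) (nat_lit 11) (.e (nat_lit 336011) (nat_lit 2) (.e (nat_lit 90170) (nat_lit 13) (.e (nat_lit 172106) (nat_lit 10) (.e (nat_lit 434244) (nat_lit 28) (.e (nat_lit 573474) (nat_lit 12) (.e (nat_lit 65280) (nat_lit 57) .nil))))))) (.g (nat_lit 6) .nil .nil))) 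
(.lf (nat_lit 445228) (.g (nat_lit 2992) (.e (nat_lit 794636) (nat_lit 11) (.e (nat_lit 336027) (nat_lit 3) (.e (nat_lit 98373) (nat_lit 29) (.e (nat_lit 450587) (nat_lit 10) (.e (nat_lit 573478) (nat_lit 12) (.e (nat_lit 65280) (nat_lit 57) .nil)))))) (.g (nat_lit 5) .nil .nil)))) (.nd (nat_lit 5) 
(.lf (nat_lit 445212) (.g (nat_lit 2929) (.e (nat_lit 794636) (nat_lit 11) (.e (nat_lit 336025) (nat_lit 3) (.e (nat_lit 98373) (nat_lit 29) (.e (nat_lit 450587) (nat_lit 10) (.e (nat_lit 573475) (nat_lit 12) (.e (nat_lit 65280) (nat_lit 57) .nil)))))) (.g (nat_lit 5) .nil .nil))) 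
(.lf (nat_lit 445244) (.g (nat_lit 1543) (.e (nat_lit 794636) (nat_lit 11) (.e (nat_lit 336086) (nat_lit 9) (.e (nat_lit 336421) (nat_lit 28) (.e (nat_lit 434197) (nat_lit 16) (.e (nat_lit 164293) (nat_lit 224) (.e (nat_lit 164112) (nat_lit 118) .nil)))))) (.g (nat_lit 6) .nil .nil))))))) (.nd (nat_lit 2) (.nd (nat_lit 3) (.nd (nat_lit 4) (.nd (nat_lit 5) 
(.lf (nat_lit 445186) (.g (nat_lit 2207) (.e (nat_lit 794635) (nat_lit 11) (.e (nat_lit 336209) (nat_lit 13) (.e (nat_lit 393301) (nat_lit 27) (.e (nat_lit 491558) (nat_lit 10) (.e (nat_lit 352000) (nat_lit 46) .nil))))) (.g (nat_lit 4) .nil .nil))) 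
(.lf (nat_lit 445218) (.g (nat_lit 1648) (.e (nat_lit 794636) (nat_lit 11) (.e (nat_lit 336026) (nat_lit 3) (.e (nat_lit 98372) (nat_lit 29) (.e (nat_lit 450586) (nat_lit 10) (.e (nat_lit 573478) (nat_lit 12) (.e (nat_lit 65280) (nat_lit 57) .nil)))))) (.g (nat_lit 5) .nil .nil)))) (.nd (nat_lit 5) 
(.lf (nat_lit 445202) (.g (nat_lit 704) (.e (nat_lit 794636) (nat_lit 11) (.e (nat_lit 336012) (nat_lit 2) (.e (nat_lit 90176) (nat_lit 15) .nil))) .nil)) 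
(.lf (nat_lit 445234) (.g (nat_lit 966) (.e (nat_lit 794636) (nat_lit 11) (.e (nat_lit 336076) (nat_lit 9) (.e (nat_lit 336438) (nat_lit 31) (.e (nat_lit 466688) (nat_lit 5) .nil)))) .nil)))) (.nd (nat_lit 4) (.nd (nat_lit 5) 
(.lf (nat_lit 445194) (.g (nat_lit 3287) (.e (nat_lit 794636) (nat_lit 11) (.e (nat_lit 336010) (nat_lit 2) (.e (nat_lit 90170) (nat_lit 13) (.e (nat_lit 172113) (nat_lit 10) (.e (nat_lit 434248) (nat_lit 28) (.e (nat_lit 573475) (nat_lit 12) (.e (nat_lit 65280) (nat_lit 57) .nil))))))) (.g (nat_lit 6) .nil .nil))) 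
(.lf (nat_lit 445226) (.g (nat_lit 2056) (.e (nat_lit 794636) (nat_lit 11) (.e (nat_lit 336027) (nat_lit 3) (.e (nat_lit 98372) (nat_lit 29) (.e (nat_lit 450586) (nat_lit 10) (.e (nat_lit 573477) (nat_lit 12) (.e (nat_lit 65280) (nat_lit 57) .nil)))))) (.g (nat_lit 4) .nil .nil)))) (.nd (nat_lit 5) 
(.lf (nat_lit 445210) (.g (nat_lit 2260) (.e (nat_lit 794636) (nat_lit 11) (.e (nat_lit 336025) (nat_lit 3) (.e (nat_lit 98372) (nat_lit 29) (.e (nat_lit 450586) (nat_lit 10) (.e (nat_lit 573475) (nat_lit 12) (.e (nat_lit 65280) (nat_lit 57) .nil)))))) (.g (nat_lit 5) .nil .nil))) 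
(.lf (nat_lit 445242) (.g (nat_lit 1506) (.e (nat_lit 794636) (nat_lit 11) (.e (nat_lit 336086) (nat_lit 9) (.e (nat_lit 336421) (nat_lit 28) (.e (nat_lit 434197) (nat_lit 16) (.e (nat_lit 164288) (nat_lit 224) (.e (nat_lit 164112) (nat_lit 118) .nil)))))) (.g (nat_lit 6) .nil .nil)))))) (.nd (nat_lit 3) (.nd (nat_lit 4) (.nd (nat_lit 5) 
(.lf (nat_lit 445190) (.g (nat_lit 3275) (.e (nat_lit 794636) (nat_lit 11) (.e (nat_lit 336009) (nat_lit 2) (.e (nat_lit 90170) (nat_lit 13) (.e (nat_lit 172113) (nat_lit 10) (.e (nat_lit 434248) (nat_lit 28) (.e (nat_lit 573475) (nat_lit 12) (.e (nat_lit 65280) (nat_lit 57) .nil))))))) (.g (nat_lit 5) .nil .nil))) 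
(.lf (nat_lit 445222) (.g (nat_lit 3196) (.e (nat_lit 794636) (nat_lit 11) (.e (nat_lit 336026) (nat_lit 3) (.e (nat_lit 98373) (nat_lit 29) (.e (nat_lit 450588) (nat_lit 10) (.e (nat_lit 573473) (nat_lit 12) (.e (nat_lit 65280) (nat_lit 57) .nil)))))) (.g (nat_lit 5) .nil .nil)))) (.nd (nat_lit 5) 
(.lf (nat_lit 445206) (.g (nat_lit 1625) (.e (nat_lit 794636) (nat_lit 11) (.e (nat_lit 336021) (nat_lit 3) (.e (nat_lit 98365) (nat_lit 26) (.e (nat_lit 426187) (nat_lit 9) .nil)))) .nil)) 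
(.lf (nat_lit 445238) (.g (nat_lit 1146) (.e (nat_lit 794636) (nat_lit 11) (.e (nat_lit 336084) (nat_lit 9) (.e (nat_lit 336438) (nat_lit 31) (.e (nat_lit 458769) (nat_lit 16) (.e (nat_lit 164293) (nat_lit 224) (.e (nat_lit 164112) (nat_lit 118) .nil)))))) (.g (nat_lit 5) .nil .nil))))) (.nd (nat_lit 4) (.nd (nat_lit 5) 
(.lf (nat_lit 445198) (.g (nat_lit 1952) (.e (nat_lit 794636) (nat_lit 11) (.e (nat_lit 336012) (nat_lit 2) (.e (nat_lit 90170) (nat_lit 13) (.e (nat_lit 172106) (nat_lit 10) .nil)))) .nil)) 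
(.lf (nat_lit 445230) (.g (nat_lit 3695) (.e (nat_lit 794636) (nat_lit 11) (.e (nat_lit 336027) (nat_lit 3) (.e (nat_lit 98373) (nat_lit 29) (.e (nat_lit 450588) (nat_lit 10) (.e (nat_lit 573475) (nat_lit 12) (.e (nat_lit 65280) (nat_lit 57) .nil)))))) (.g (nat_lit 5) .nil .nil)))) (.nd (nat_lit 5) 
(.lf (nat_lit 445214) (.g (nat_lit 3052) (.e (nat_lit 794636) (nat_lit 11) (.e (nat_lit 336025) (nat_lit 3) (.e (nat_lit 98373) (nat_lit 29) (.e (nat_lit 450588) (nat_lit 10) (.e (nat_lit 573473) (nat_lit 12) (.e (nat_lit 65280) (nat_lit 57) .nil)))))) (.g (nat_lit 5) .nil .nil))) 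
(.lf (nat_lit 445246) (.g (nat_lit 1690) (.e (nat_lit 794636) (nat_lit 11) (.e (nat_lit 336086) (nat_lit 9) (.e (nat_lit 336438) (nat_lit 31) (.e (nat_lit 458769) (nat_lit 16) (.e (nat_lit 164291) (nat_lit 224) (.e (nat_lit 164112) (nat_lit 118) .nil)))))) (.g (nat_lit 6) .nil .nil)))))))) (.nd (nat_lit 1) (.nd (nat_lit 2) (.nd (nat_lit 3) (.nd (nat_lit 4) (.nd (nat_lit 5) 
(.lf (nat_lit 445185) (.g (nat_lit 1526) (.e (nat_lit 794635) (nat_lit 11) (.e (nat_lit 336209) (nat_lit 13) (.e (nat_lit 393300) (nat_lit 27) (.e (nat_lit 491560) (nat_lit 10) (.e (nat_lit 352000) (nat_lit 46) .nil))))) (.g (nat_lit 4) .nil .nil))) 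
(.lf (nat_lit 445217) (.g (nat_lit 2189) (.e (nat_lit 794636) (nat_lit 11) (.e (nat_lit 336026) (nat_lit 3) (.e (nat_lit 98372) (nat_lit 29) (.e (nat_lit 450586) (nat_lit 10) (.e (nat_lit 573475) (nat_lit 12) (.e (nat_lit 65280) (nat_lit 57) .nil)))))) (.g (nat_lit 5) .nil .nil)))) (.nd (nat_lit 5) 
(.lf (nat_lit 445201) (.g (nat_lit 2988) (.e (nat_lit 794636) (nat_lit 11) (.e (nat_lit 336012) (nat_lit 2) (.e (nat_lit 90170) (nat_lit 13) (.e (nat_lit 172113) (nat_lit 10) (.e (nat_lit 434248) (nat_lit 28) .nil))))) .nil)) 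
(.lf (nat_lit 445233) (.g (nat_lit 1289) (.e (nat_lit 794636) (nat_lit 11) (.e (nat_lit 336075) (nat_lit 9) (.e (nat_lit 336438) (nat_lit 31) (.e (nat_lit 458769) (nat_lit 16) (.e (nat_lit 164291) (nat_lit 224) (.e (nat_lit 164112) (nat_lit 118) .nil)))))) (.g (nat_lit 4) .nil .nil))))) (.nd (nat_lit 4) (.nd (nat_lit 5) 
(.lf (nat_lit 445193) (.g (nat_lit 2658) (.e (nat_lit 794636) (nat_lit 11) (.e (nat_lit 336010) (nat_lit 2) (.e (nat_lit 90170) (nat_lit 13) (.e (nat_lit 172113) (nat_lit 10) (.e (nat_lit 434247) (nat_lit 28) (.e (nat_lit 573478) (nat_lit 12) (.e (nat_lit 65280) (nat_lit 57) .nil))))))) (.g (nat_lit 6) .nil .nil))) 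
(.lf (nat_lit 445225) (.g (nat_lit 2831) (.e (nat_lit 794636) (nat_lit 11) (.e (nat_lit 336027) (nat_lit 3) (.e (nat_lit 98372) (nat_lit 29) (.e (nat_lit 450586) (nat_lit 10) (.e (nat_lit 573475) (nat_lit 12) (.e (nat_lit 65280) (nat_lit 57) .nil)))))) (.g (nat_lit 5) .nil .nil)))) (.nd (nat_lit 5) 
(.lf (nat_lit 445209) (.g (nat_lit 1831) (.e (nat_lit 794636) (nat_lit 11) (.e (nat_lit 336025) (nat_lit 3) (.e (nat_lit 98372) (nat_lit 29) (.e (nat_lit 450586) (nat_lit 10) (.e (nat_lit 573473) (nat_lit 12) (.e (nat_lit 65280) (nat_lit 57) .nil)))))) (.g (nat_lit 5) .nil .nil))) 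
(.lf (nat_lit 445241) (.g (nat_lit 769) (.e (nat_lit 794636) (nat_lit 11) (.e (nat_lit 336086) (nat_lit 9) (.e (nat_lit 336421) (nat_lit 28) (.e (nat_lit 434197) (nat_lit 16) .nil)))) .nil))))) (.nd (nat_lit 3) (.nd (nat_lit 4) (.nd (nat_lit 5) 
(.lf (nat_lit 445189) (.g (nat_lit 3127) (.e (nat_lit 794636) (nat_lit 11) (.e (nat_lit 336009) (nat_lit 2) (.e (nat_lit 90170) (nat_lit 13) (.e (nat_lit 172113) (nat_lit 10) (.e (nat_lit 434245) (nat_lit 28) (.e (nat_lit 573474) (nat_lit 12) (.e (nat_lit 65280) (nat_lit 57) .nil))))))) (.g (nat_lit 5) .nil .nil))) 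
(.lf (nat_lit 445221) (.g (nat_lit 2698) (.e (nat_lit 794636) (nat_lit 11) (.e (nat_lit 336026) (nat_lit 3) (.e (nat_lit 98373) (nat_lit 29) (.e (nat_lit 450587) (nat_lit 10) (.e (nat_lit 573478) (nat_lit 12) (.e (nat_lit 65280) (nat_lit 57) .nil)))))) (.g (nat_lit 5) .nil .nil)))) (.nd (nat_lit 5) 
(.lf (nat_lit 445205) (.g (nat_lit 1452) (.e (nat_lit 794636) (nat_lit 11) (.e (nat_lit 336012) (nat_lit 2) (.e (nat_lit 90185) (nat_lit 17) (.e (nat_lit 237605) (nat_lit 9) .nil)))) .nil)) 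
(.lf (nat_lit 445237) (.g (nat_lit 1252) (.e (nat_lit 794636) (nat_lit 11) (.e (nat_lit 336084) (nat_lit 9) (.e (nat_lit 336438) (nat_lit 31) (.e (nat_lit 458769) (nat_lit 16) (.e (nat_lit 164292) (nat_lit 224) (.e (nat_lit 164112) (nat_lit 118) .nil)))))) (.g (nat_lit 6) .nil .nil))))) (.nd (nat_lit 4) (.nd (nat_lit 5) 
(.lf (nat_lit 445197) (.g (nat_lit 2441) (.e (nat_lit 794636) (nat_lit 11) (.e (nat_lit 336011) (nat_lit 2) (.e (nat_lit 90170) (nat_lit 13) (.e (nat_lit 172113) (nat_lit 10) (.e (nat_lit 434245) (nat_lit 28) (.e (nat_lit 573474) (nat_lit 12) (.e (nat_lit 65280) (nat_lit 57) .nil))))))) (.g (nat_lit 4) .nil .nil))) 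
(.lf (nat_lit 445229) (.g (nat_lit 3407) (.e (nat_lit 794636) (nat_lit 11) (.e (nat_lit 336027) (nat_lit 3) (.e (nat_lit 98373) (nat_lit 29) (.e (nat_lit 450588) (nat_lit 10) (.e (nat_lit 573473) (nat_lit 12) (.e (nat_lit 65280) (nat_lit 57) .nil)))))) (.g (nat_lit 5) .nil .nil)))) (.nd (nat_lit 5) 
(.lf (nat_lit 445213) (.g (nat_lit 2586) (.e (nat_lit 794636) (nat_lit 11) (.e (nat_lit 336025) (nat_lit 3) (.e (nat_lit 98373) (nat_lit 29) (.e (nat_lit 450587) (nat_lit 10) (.e (nat_lit 573478) (nat_lit 12) (.e (nat_lit 65280) (nat_lit 57) .nil)))))) (.g (nat_lit 5) .nil .nil))) 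
(.lf (nat_lit 445245) (.g (nat_lit 1720) (.e (nat_lit 794636) (nat_lit 11) (.e (nat_lit 336086) (nat_lit 9) (.e (nat_lit 336438) (nat_lit 31) (.e (nat_lit 458769) (nat_lit 16) (.e (nat_lit 164286) (nat_lit 224) (.e (nat_lit 164112) (nat_lit 118) .nil)))))) (.g (nat_lit 6) .nil .nil))))))) (.nd (nat_lit 2) (.nd (nat_lit 3) (.nd (nat_lit 4) (.nd (nat_lit 5) 
(.lf (nat_lit 445187) (.g (nat_lit 2372) (.e (nat_lit 794635) (nat_lit 11) (.e (nat_lit 336209) (nat_lit 13) (.e (nat_lit 393301) (nat_lit 27) (.e (nat_lit 491560) (nat_lit 10) (.e (nat_lit 352000) (nat_lit 46) .nil))))) (.g (nat_lit 4) .nil .nil))) 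
(.lf (nat_lit 445219) (.g (nat_lit 3101) (.e (nat_lit 794636) (nat_lit 11) (.e (nat_lit 336026) (nat_lit 3) (.e (nat_lit 98373) (nat_lit 29) (.e (nat_lit 450587) (nat_lit 10) (.e (nat_lit 573473) (nat_lit 12) (.e (nat_lit 65280) (nat_lit 57) .nil)))))) (.g (nat_lit 5) .nil .nil)))) (.nd (nat_lit 5) 
(.lf (nat_lit 445203) (.g (nat_lit 1469) (.e (nat_lit 794636) (nat_lit 11) (.e (nat_lit 336012) (nat_lit 2) (.e (nat_lit 90176) (nat_lit 15) (.e (nat_lit 188439) (nat_lit 20) .nil)))) .nil)) 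
(.lf (nat_lit 445235) (.g (nat_lit 1249) (.e (nat_lit 794636) (nat_lit 11) (.e (nat_lit 336084) (nat_lit 9) (.e (nat_lit 336438) (nat_lit 31) (.e (nat_lit 458769) (nat_lit 16) (.e (nat_lit 164287) (nat_lit 224) (.e (nat_lit 164112) (nat_lit 118) .nil)))))) (.g (nat_lit 6) .nil .nil))))) (.nd (nat_lit 4) (.nd (nat_lit 5) 
(.lf (nat_lit 445195) (.g (nat_lit 2411) (.e (nat_lit 794636) (nat_lit 11) (.e (nat_lit 336010) (nat_lit 2) (.e (nat_lit 90170) (nat_lit 13) (.e (nat_lit 172113) (nat_lit 10) (.e (nat_lit 434248) (nat_lit 28) (.e (nat_lit 573476) (nat_lit 12) (.e (nat_lit 65280) (nat_lit 57) .nil))))))) (.g (nat_lit 5) .nil .nil))) 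
(.lf (nat_lit 445227) (.g (nat_lit 2291) (.e (nat_lit 794636) (nat_lit 11) (.e (nat_lit 336027) (nat_lit 3) (.e (nat_lit 98372) (nat_lit 29) (.e (nat_lit 450586) (nat_lit 10) (.e (nat_lit 573478) (nat_lit 12) (.e (nat_lit 65280) (nat_lit 57) .nil)))))) (.g (nat_lit 5) .nil .nil)))) (.nd (nat_lit 5) 
(.lf (nat_lit 445211) (.g (nat_lit 1722) (.e (nat_lit 794636) (nat_lit 11) (.e (nat_lit 336025) (nat_lit 3) (.e (nat_lit 98372) (nat_lit 29) (.e (nat_lit 450586) (nat_lit 10) (.e (nat_lit 573478) (nat_lit 12) (.e (nat_lit 65280) (nat_lit 57) .nil)))))) (.g (nat_lit 5) .nil .nil))) 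
(.lf (nat_lit 445243) (.g (nat_lit 1467) (.e (nat_lit 794636) (nat_lit 11) (.e (nat_lit 336086) (nat_lit 9) (.e (nat_lit 336421) (nat_lit 28) (.e (nat_lit 434197) (nat_lit 16) (.e (nat_lit 164289) (nat_lit 224) (.e (nat_lit 164112) (nat_lit 118) .nil)))))) (.g (nat_lit 6) .nil .nil)))))) (.nd (nat_lit 3) (.nd (nat_lit 4) (.nd (nat_lit 5) 
(.lf (nat_lit 445191) (.g (nat_lit 3377) (.e (nat_lit 794636) (nat_lit 11) (.e (nat_lit 336010) (nat_lit 2) (.e (nat_lit 90170) (nat_lit 13) (.e (nat_lit 172106) (nat_lit 10) (.e (nat_lit 434244) (nat_lit 28) (.e (nat_lit 573474) (nat_lit 12) (.e (nat_lit 65280) (nat_lit 57) .nil))))))) (.g (nat_lit 6) .nil .nil))) 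
(.lf (nat_lit 445223) (.g (nat_lit 3457) (.e (nat_lit 794636) (nat_lit 11) (.e (nat_lit 336026) (nat_lit 3) (.e (nat_lit 98373) (nat_lit 29) (.e (nat_lit 450588) (nat_lit 10) (.e (nat_lit 573475) (nat_lit 12) (.e (nat_lit 65280) (nat_lit 57) .nil)))))) (.g (nat_lit 5) .nil .nil)))) (.nd (nat_lit 5) 
(.lf (nat_lit 445207) (.g (nat_lit 2248) (.e (nat_lit 794636) (nat_lit 11) (.e (nat_lit 336021) (nat_lit 3) (.e (nat_lit 98365) (nat_lit 26) (.e (nat_lit 426188) (nat_lit 9) (.e (nat_lit 426436) (nat_lit 18) .nil))))) .nil)) 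
(.lf (nat_lit 445239) (.g (nat_lit 1277) (.e (nat_lit 794636) (nat_lit 11) (.e (nat_lit 336084) (nat_lit 9) (.e (nat_lit 336438) (nat_lit 31) (.e (nat_lit 458769) (nat_lit 16) (.e (nat_lit 164294) (nat_lit 224) (.e (nat_lit 164112) (nat_lit 118) .nil)))))) (.g (nat_lit 6) .nil .nil))))) (.nd (nat_lit 4) (.nd (nat_lit 5) 
(.lf (nat_lit 445199) (.g (nat_lit 2207) (.e (nat_lit 794636) (nat_lit 11) (.e (nat_lit 336012) (nat_lit 2) (.e (nat_lit 90170) (nat_lit 13) (.e (nat_lit 172113) (nat_lit 10) .nil)))) .nil)) 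
(.lf (nat_lit 445231) (.g (nat_lit 1426) (.e (nat_lit 794636) (nat_lit 11) (.e (nat_lit 336059) (nat_lit 7) (.e (nat_lit 319533) (nat_lit 16) (.e (nat_lit 286753) (nat_lit 10) (.e (nat_lit 344160) (nat_lit 37) .nil))))) .nil))) (.nd (nat_lit 5) 
(.lf (nat_lit 445215) (.g (nat_lit 3313) (.e (nat_lit 794636) (nat_lit 11) (.e (nat_lit 336025) (nat_lit 3) (.e (nat_lit 98373) (nat_lit 29) (.e (nat_lit 450588) (nat_lit 10) (.e (nat_lit 573475) (nat_lit 12) (.e (nat_lit 65280) (nat_lit 57) .nil)))))) (.g (nat_lit 5) .nil .nil))) 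
(.lf (nat_lit 445247) (.g (nat_lit 1736) (.e (nat_lit 794636) (nat_lit 11) (.e (nat_lit 336086) (nat_lit 9) (.e (nat_lit 336438) (nat_lit 31) (.e (nat_lit 458769) (nat_lit 16) (.e (nat_lit 164294) (nat_lit 224) (.e (nat_lit 164112) (nat_lit 118) .nil)))))) (.g (nat_lit 6) .nil .nil)))))))))

noncomputable def tv5478 : DT := (.nd (nat_lit 0) (.nd (nat_lit 1) (.nd (nat_lit 2) (.nd (nat_lit 3) (.nd (nat_lit 4) (.nd (nat_lit 5) 
(.lf (nat_lit 445248) (.g (nat_lit 985) (.e (nat_lit 794636) (nat_lit 11) (.e (nat_lit 336088) (nat_lit 9) (.e (nat_lit 336000) (nat_lit 1) (.e (nat_lit 57683) (nat_lit 155) .nil)))) .nil)) 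
(.lf (nat_lit 445280) (.g (nat_lit 1749) (.e (nat_lit 794636) (nat_lit 11) (.e (nat_lit 336220) (nat_lit 13) (.e (nat_lit 393300) (nat_lit 27) (.e (nat_lit 491560) (nat_lit 10) (.e (nat_lit 352000) (nat_lit 46) .nil))))) (.g (nat_lit 4) .nil .nil)))) (.nd (nat_lit 5) 
(.lf (nat_lit 445264) (.g (nat_lit 2316) (.e (nat_lit 794636) (nat_lit 11) (.e (nat_lit 336213) (nat_lit 13) (.e (nat_lit 393232) (nat_lit 17) (.e (nat_lit 7593) (nat_lit 407) (.e (nat_lit 81664) (nat_lit 28) .nil))))) .nil)) 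
(.lf (nat_lit 445296) (.g (nat_lit 863) (.e (nat_lit 794636) (nat_lit 11) (.e (nat_lit 336222) (nat_lit 13) (.e (nat_lit 393263) (nat_lit 22) (.e (nat_lit 417817) (nat_lit 10) .nil)))) .nil)))) (.nd (nat_lit 4) (.nd (nat_lit 5) 
(.lf (nat_lit 445256) (.g (nat_lit 2579) (.e (nat_lit 794636) (nat_lit 11) (.e (nat_lit 336088) (nat_lit 9) (.e (nat_lit 336443) (nat_lit 32) (.e (nat_lit 466969) (nat_lit 21) (.e (nat_lit 164332) (nat_lit 230) .nil))))) .nil)) 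
(.lf (nat_lit 445288) (.g (nat_lit 2013) (.e (nat_lit 794636) (nat_lit 11) (.e (nat_lit 336221) (nat_lit 13) (.e (nat_lit 393301) (nat_lit 27) (.e (nat_lit 491560) (nat_lit 10) (.e (nat_lit 352000) (nat_lit 46) .nil))))) (.g (nat_lit 4) .nil .nil)))) (.nd (nat_lit 5) 
(.lf (nat_lit 445272) (.g (nat_lit 2126) (.e (nat_lit 794636) (nat_lit 11) (.e (nat_lit 336213) (nat_lit 13) (.e (nat_lit 393300) (nat_lit 27) (.e (nat_lit 491560) (nat_lit 10) (.e (nat_lit 352000) (nat_lit 46) .nil))))) (.g (nat_lit 4) .nil .nil))) 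
(.lf (nat_lit 445304) (.g (nat_lit 3380) (.e (nat_lit 794637) (nat_lit 11) (.e (nat_lit 335892) (nat_lit 0) (.e (nat_lit 1812) (nat_lit 120) (.e (nat_lit 524322) (nat_lit 12) (.e (nat_lit 450588) (nat_lit 10) (.e (nat_lit 573475) (nat_lit 12) (.e (nat_lit 65280) (nat_lit 57) .nil))))))) (.g (nat_lit 6) .nil .nil)))))) (.nd (nat_lit 3) (.nd (nat_lit 4) (.nd (nat_lit 5) 
(.lf (nat_lit 445252) (.g (nat_lit 1919) (.e (nat_lit 794636) (nat_lit 11) (.e (nat_lit 336088) (nat_lit 9) (.e (nat_lit 336438) (nat_lit 31) (.e (nat_lit 458769) (nat_lit 16) (.e (nat_lit 164292) (nat_lit 224) (.e (nat_lit 164112) (nat_lit 118) .nil)))))) (.g (nat_lit 6) .nil .nil))) 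
(.lf (nat_lit 445284) (.g (nat_lit 1703) (.e (nat_lit 794636) (nat_lit 11) (.e (nat_lit 336221) (nat_lit 13) (.e (nat_lit 393234) (nat_lit 17) (.e (nat_lit 7591) (nat_lit 407) (.e (nat_lit 81664) (nat_lit 28) .nil))))) (.g (nat_lit 4) .nil .nil)))) (.nd (nat_lit 5) 
(.lf (nat_lit 445268) (.g (nat_lit 1177) (.e (nat_lit 794636) (nat_lit 11) (.e (nat_lit 336213) (nat_lit 13) (.e (nat_lit 393298) (nat_lit 27) .nil))) .nil)) 
(.lf (nat_lit 445300) (.g (nat_lit 2551) (.e (nat_lit 794636) (nat_lit 11) (.e (nat_lit 336223) (nat_lit 13) (.e (nat_lit 393301) (nat_lit 27) (.e (nat_lit 491558) (nat_lit 10) (.e (nat_lit 352000) (nat_lit 46) .nil))))) (.g (nat_lit 4) .nil .nil))))) (.nd (nat_lit 4) (.nd (nat_lit 5) 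
(.lf (nat_lit 445260) (.g (nat_lit 2490) (.e (nat_lit 794636) (nat_lit 11) (.e (nat_lit 336088) (nat_lit 9) (.e (nat_lit 336443) (nat_lit 32) (.e (nat_lit 466972) (nat_lit 21) (.e (nat_lit 164332) (nat_lit 230) .nil))))) .nil)) 
(.lf (nat_lit 445292) (.g (nat_lit 1624) (.e (nat_lit 794636) (nat_lit 11) (.e (nat_lit 336222) (nat_lit 13) (.e (nat_lit 393238) (nat_lit 17) (.e (nat_lit 7101) (nat_lit 380) (.e (nat_lit 164289) (nat_lit 224) (.e (nat_lit 164112) (nat_lit 118) .nil)))))) (.g (nat_lit 4) .nil .nil)))) (.nd (nat_lit 5) 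
(.lf (nat_lit 445276) (.g (nat_lit 1572) (.e (nat_lit 794636) (nat_lit 11) (.e (nat_lit 336220) (nat_lit 13) (.e (nat_lit 393233) (nat_lit 17) (.e (nat_lit 7593) (nat_lit 407) (.e (nat_lit 81664) (nat_lit 28) .nil))))) (.g (nat_lit 4) .nil .nil))) 
(.lf (nat_lit 445308) (.g (nat_lit 3355) (.e (nat_lit 794637) (nat_lit 11) (.e (nat_lit 336002) (nat_lit 2) (.e (nat_lit 90170) (nat_lit 13) (.e (nat_lit 172113) (nat_lit 10) (.e (nat_lit 434245) (nat_lit 28) (.e (nat_lit 573474) (nat_lit 12) (.e (nat_lit 65280) (nat_lit 57) .nil))))))) (.g (nat_lit 6) .nil .nil))))))) (.nd (nat_lit 2) (.nd (nat_lit 3) (.nd (nat_lit 4) (.nd (nat_lit 5) 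
(.lf (nat_lit 445250) (.g (nat_lit 1921) (.e (nat_lit 794636) (nat_lit 11) (.e (nat_lit 336088) (nat_lit 9) (.e (nat_lit 336438) (nat_lit 31) (.e (nat_lit 458769) (nat_lit 16) (.e (nat_lit 164287) (nat_lit 224) (.e (nat_lit 164112) (nat_lit 118) .nil)))))) (.g (nat_lit 6) .nil .nil))) 
(.lf (nat_lit 445282) (.g (nat_lit 2060) (.e (nat_lit 794636) (nat_lit 11) (.e (nat_lit 336220) (nat_lit 13) (.e (nat_lit 393301) (nat_lit 27) (.e (nat_lit 491559) (nat_lit 10) (.e (nat_lit 352000) (nat_lit 46) .nil))))) (.g (nat_lit 4) .nil .nil)))) (.nd (nat_lit 5) 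
(.lf (nat_lit 445266) (.g (nat_lit 1923) (.e (nat_lit 794636) (nat_lit 11) (.e (nat_lit 336213) (nat_lit 13) (.e (nat_lit 393233) (nat_lit 17) (.e (nat_lit 7593) (nat_lit 407) (.e (nat_lit 81664) (nat_lit 28) .nil))))) (.g (nat_lit 4) .nil .nil))) 
(.lf (nat_lit 445298) (.g (nat_lit 2043) (.e (nat_lit 794636) (nat_lit 11) (.e (nat_lit 336223) (nat_lit 13) (.e (nat_lit 393234) (nat_lit 17) (.e (nat_lit 7591) (nat_lit 407) (.e (nat_lit 81664) (nat_lit 28) .nil))))) .nil)))) (.nd (nat_lit 4) (.nd (nat_lit 5) 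
(.lf (nat_lit 445258) (.g (nat_lit 1618) (.e (nat_lit 794636) (nat_lit 11) (.e (nat_lit 336088) (nat_lit 9) (.e (nat_lit 336443) (nat_lit 32) (.e (nat_lit 466971) (nat_lit 21) .nil)))) .nil)) 
(.lf (nat_lit 445290) (.g (nat_lit 1561) (.e (nat_lit 794636) (nat_lit 11) (.e (nat_lit 336222) (nat_lit 13) (.e (nat_lit 393232) (nat_lit 17) (.e (nat_lit 7593) (nat_lit 407) (.e (nat_lit 81664) (nat_lit 28) .nil))))) .nil))) (.nd (nat_lit 5) 
(.lf (nat_lit 445274) (.g (nat_lit 3401) (.e (nat_lit 794636) (nat_lit 11) (.e (nat_lit 336213) (nat_lit 13) (.e (nat_lit 393301) (nat_lit 27) (.e (nat_lit 491560) (nat_lit 10) (.e (nat_lit 352000) (nat_lit 46) .nil))))) .nil)) 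
(.lf (nat_lit 445306) (.g (nat_lit 3143) (.e (nat_lit 794637) (nat_lit 11) (.e (nat_lit 335913) (nat_lit 0) (.e (nat_lit 1812) (nat_lit 120) (.e (nat_lit 524322) (nat_lit 12) (.e (nat_lit 450588) (nat_lit 10) (.e (nat_lit 573475) (nat_lit 12) (.e (nat_lit 65280) (nat_lit 57) .nil))))))) (.g (nat_lit 6) .nil .nil)))))) (.nd (nat_lit 3) (.nd (nat_lit 4) (.nd (nat_lit 5) 
(.lf (nat_lit 445254) (.g (nat_lit 1795) (.e (nat_lit 794636) (nat_lit 11) (.e (nat_lit 336088) (nat_lit 9) (.e (nat_lit 336443) (nat_lit 32) (.e (nat_lit 466969) (nat_lit 21) .nil)))) .nil)) 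
(.lf (nat_lit 445286) (.g (nat_lit 2155) (.e (nat_lit 794636) (nat_lit 11) (.e (nat_lit 336221) (nat_lit 13) (.e (nat_lit 393301) (nat_lit 27) (.e (nat_lit 491558) (nat_lit 10) (.e (nat_lit 352000) (nat_lit 46) .nil))))) (.g (nat_lit 4) .nil .nil)))) (.nd (nat_lit 5) 
(.lf (nat_lit 445270) (.g (nat_lit 2667) (.e (nat_lit 794636) (nat_lit 11) (.e (nat_lit 336213) (nat_lit 13) (.e (nat_lit 393299) (nat_lit 27) (.e (nat_lit 491560) (nat_lit 10) (.e (nat_lit 352000) (nat_lit 46) .nil))))) .nil)) 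
(.lf (nat_lit 445302) (.g (nat_lit 2486) (.e (nat_lit 794636) (nat_lit 11) (.e (nat_lit 336223) (nat_lit 13) (.e (nat_lit 393301) (nat_lit 27) (.e (nat_lit 491560) (nat_lit 10) (.e (nat_lit 352000) (nat_lit 46) .nil))))) (.g (nat_lit 4) .nil .nil))))) (.nd (nat_lit 4) (.nd (nat_lit 5) 
(.lf (nat_lit 445262) (.g (nat_lit 1151) (.e (nat_lit 794636) (nat_lit 11) (.e (nat_lit 336213) (nat_lit 13) (.e (nat_lit 393231) (nat_lit 17) .nil))) .nil)) 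
(.lf (nat_lit 445294) (.g (nat_lit 1903) (.e (nat_lit 794636) (nat_lit 11) (.e (nat_lit 336222) (nat_lit 13) (.e (nat_lit 393238) (nat_lit 17) (.e (nat_lit 7107) (nat_lit 380) (.e (nat_lit 164289) (nat_lit 224) .nil))))) .nil))) (.nd (nat_lit 5) 
(.lf (nat_lit 445278) (.g (nat_lit 1693) (.e (nat_lit 794636) (nat_lit 11) (.e (nat_lit 336220) (nat_lit 13) (.e (nat_lit 393234) (nat_lit 17) (.e (nat_lit 7593) (nat_lit 407) (.e (nat_lit 81664) (nat_lit 28) .nil))))) (.g (nat_lit 4) .nil .nil))) 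
(.lf (nat_lit 445310) (.g (nat_lit 3442) (.e (nat_lit 794637) (nat_lit 11) (.e (nat_lit 336002) (nat_lit 2) (.e (nat_lit 90170) (nat_lit 13) (.e (nat_lit 172113) (nat_lit 10) (.e (nat_lit 434248) (nat_lit 28) (.e (nat_lit 573475) (nat_lit 12) (.e (nat_lit 65280) (nat_lit 57) .nil))))))) (.g (nat_lit 6) .nil .nil)))))))) 
(.nd (nat_lit 1) (.nd (nat_lit 2) (.nd (nat_lit 3) (.nd (nat_lit 4) (.nd (nat_lit 5) 
(.lf (nat_lit 445249) (.g (nat_lit 1933) (.e (nat_lit 794636) (nat_lit 11) (.e (nat_lit 336088) (nat_lit 9) (.e (nat_lit 336438) (nat_lit 31) (.e (nat_lit 458769) (nat_lit 16) (.e (nat_lit 164286) (nat_lit 224) (.e (nat_lit 164112) (nat_lit 118) .nil)))))) (.g (nat_lit 6) .nil .nil))) 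
(.lf (nat_lit 445281) (.g (nat_lit 2251) (.e (nat_lit 794636) (nat_lit 11) (.e (nat_lit 336220) (nat_lit 13) (.e (nat_lit 393301) (nat_lit 27) (.e (nat_lit 491558) (nat_lit 10) (.e (nat_lit 352000) (nat_lit 46) .nil))))) (.g (nat_lit 4) .nil .nil)))) (.nd (nat_lit 5) 
(.lf (nat_lit 445265) (.g (nat_lit 1950) (.e (nat_lit 794636) (nat_lit 11) (.e (nat_lit 336213) (nat_lit 13) (.e (nat_lit 393233) (nat_lit 17) (.e (nat_lit 7591) (nat_lit 407) (.e (nat_lit 81664) (nat_lit 28) .nil))))) (.g (nat_lit 4) .nil .nil))) 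
(.lf (nat_lit 445297) (.g (nat_lit 1073) (.e (nat_lit 794636) (nat_lit 11) (.e (nat_lit 336222) (nat_lit 13) (.e (nat_lit 393299) (nat_lit 27) (.e (nat_lit 491560) (nat_lit 10) .nil)))) .nil)))) (.nd (nat_lit 4) (.nd (nat_lit 5) 
(.lf (nat_lit 445257) (.g (nat_lit 2782) (.e (nat_lit 794636) (nat_lit 11) (.e (nat_lit 336088) (nat_lit 9) (.e (nat_lit 336443) (nat_lit 32) (.e (nat_lit 466969) (nat_lit 21) (.e (nat_lit 164332) (nat_lit 230) (.e (nat_lit 163843) (nat_lit 0) (.e (nat_lit 3771) (nat_lit 229) .nil))))))) (.g (nat_lit 4) .nil .nil))) 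
(.lf (nat_lit 445289) (.g (nat_lit 1492) (.e (nat_lit 794636) (nat_lit 11) (.e (nat_lit 336222) (nat_lit 13) (.e (nat_lit 393232) (nat_lit 17) (.e (nat_lit 7591) (nat_lit 407) (.e (nat_lit 81664) (nat_lit 28) .nil))))) .nil))) (.nd (nat_lit 5) 
(.lf (nat_lit 445273) (.g (nat_lit 3252) (.e (nat_lit 794636) (nat_lit 11) (.e (nat_lit 336213) (nat_lit 13) (.e (nat_lit 393301) (nat_lit 27) (.e (nat_lit 491558) (nat_lit 10) (.e (nat_lit 352000) (nat_lit 46) .nil))))) .nil)) 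
(.lf (nat_lit 445305) (.g (nat_lit 3334) (.e (nat_lit 794637) (nat_lit 11) (.e (nat_lit 335913) (nat_lit 0) (.e (nat_lit 1812) (nat_lit 120) (.e (nat_lit 524322) (nat_lit 12) (.e (nat_lit 450588) (nat_lit 10) (.e (nat_lit 573473) (nat_lit 12) (.e (nat_lit 65280) (nat_lit 57) .nil))))))) (.g (nat_lit 6) .nil .nil)))))) (.nd (nat_lit 3) (.nd (nat_lit 4) (.nd (nat_lit 5) 
(.lf (nat_lit 445253) (.g (nat_lit 1947) (.e (nat_lit 794636) (nat_lit 11) (.e (nat_lit 336088) (nat_lit 9) (.e (nat_lit 336438) (nat_lit 31) (.e (nat_lit 458769) (nat_lit 16) (.e (nat_lit 164294) (nat_lit 224) (.e (nat_lit 164112) (nat_lit 118) .nil)))))) (.g (nat_lit 6) .nil .nil))) 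
(.lf (nat_lit 445285) (.g (nat_lit 1597) (.e (nat_lit 794636) (nat_lit 11) (.e (nat_lit 336221) (nat_lit 13) (.e (nat_lit 393234) (nat_lit 17) (.e (nat_lit 7593) (nat_lit 407) (.e (nat_lit 81664) (nat_lit 28) .nil))))) (.g (nat_lit 4) .nil .nil)))) (.nd (nat_lit 5) 
(.lf (nat_lit 445269) (.g (nat_lit 2480) (.e (nat_lit 794636) (nat_lit 11) (.e (nat_lit 336213) (nat_lit 13) (.e (nat_lit 393299) (nat_lit 27) (.e (nat_lit 491558) (nat_lit 10) (.e (nat_lit 352000) (nat_lit 46) .nil))))) .nil)) 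
(.lf (nat_lit 445301) (.g (nat_lit 2850) (.e (nat_lit 794636) (nat_lit 11) (.e (nat_lit 336223) (nat_lit 13) (.e (nat_lit 393301) (nat_lit 27) (.e (nat_lit 491559) (nat_lit 10) (.e (nat_lit 352000) (nat_lit 46) .nil))))) .nil)))) (.nd (nat_lit 4) (.nd (nat_lit 5) 
(.lf (nat_lit 445261) (.g (nat_lit 2749) (.e (nat_lit 794636) (nat_lit 11) (.e (nat_lit 336088) (nat_lit 9) (.e (nat_lit 336443) (nat_lit 32) (.e (nat_lit 466972) (nat_lit 21) (.e (nat_lit 164332) (nat_lit 230) (.e (nat_lit 163843) (nat_lit 0) (.e (nat_lit 3771) (nat_lit 229) .nil))))))) (.g (nat_lit 4) .nil .nil))) 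
(.lf (nat_lit 445293) (.g (nat_lit 1834) (.e (nat_lit 794636) (nat_lit 11) (.e (nat_lit 336222) (nat_lit 13) (.e (nat_lit 393238) (nat_lit 17) (.e (nat_lit 7107) (nat_lit 380) (.e (nat_lit 164284) (nat_lit 224) .nil))))) .nil))) (.nd (nat_lit 5) 
(.lf (nat_lit 445277) (.g (nat_lit 1720) (.e (nat_lit 794636) (nat_lit 11) (.e (nat_lit 336220) (nat_lit 13) (.e (nat_lit 393234) (nat_lit 17) (.e (nat_lit 7591) (nat_lit 407) (.e (nat_lit 81664) (nat_lit 28) .nil))))) (.g (nat_lit 4) .nil .nil))) 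
(.lf (nat_lit 445309) (.g (nat_lit 2807) (.e (nat_lit 794637) (nat_lit 11) (.e (nat_lit 336002) (nat_lit 2) (.e (nat_lit 90170) (nat_lit 13) (.e (nat_lit 172113) (nat_lit 10) (.e (nat_lit 434247) (nat_lit 28) (.e (nat_lit 573478) (nat_lit 12) (.e (nat_lit 65280) (nat_lit 57) .nil))))))) (.g (nat_lit 6) .nil .nil))))))) (.nd (nat_lit 2) (.nd (nat_lit 3) (.nd (nat_lit 4) (.nd (nat_lit 5) 
(.lf (nat_lit 445251) (.g (nat_lit 1905) (.e (nat_lit 794636) (nat_lit 11) (.e (nat_lit 336088) (nat_lit 9) (.e (nat_lit 336438) (nat_lit 31) (.e (nat_lit 458769) (nat_lit 16) (.e (nat_lit 164291) (nat_lit 224) (.e (nat_lit 164112) (nat_lit 118) .nil)))))) (.g (nat_lit 6) .nil .nil))) 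
(.lf (nat_lit 445283) (.g (nat_lit 2131) (.e (nat_lit 794636) (nat_lit 11) (.e (nat_lit 336220) (nat_lit 13) (.e (nat_lit 393301) (nat_lit 27) (.e (nat_lit 491560) (nat_lit 10) (.e (nat_lit 352000) (nat_lit 46) .nil))))) (.g (nat_lit 4) .nil .nil)))) (.nd (nat_lit 5) 
(.lf (nat_lit 445267) (.g (nat_lit 1396) (.e (nat_lit 794636) (nat_lit 11) (.e (nat_lit 336213) (nat_lit 13) (.e (nat_lit 393264) (nat_lit 22) (.e (nat_lit 417817) (nat_lit 10) .nil)))) .nil)) 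
(.lf (nat_lit 445299) (.g (nat_lit 1972) (.e (nat_lit 794636) (nat_lit 11) (.e (nat_lit 336223) (nat_lit 13) (.e (nat_lit 393234) (nat_lit 17) (.e (nat_lit 7593) (nat_lit 407) (.e (nat_lit 81664) (nat_lit 28) .nil))))) (.g (nat_lit 4) .nil .nil))))) (.nd (nat_lit 4) (.nd (nat_lit 5) 
(.lf (nat_lit 445259) (.g (nat_lit 1709) (.e (nat_lit 794636) (nat_lit 11) (.e (nat_lit 336088) (nat_lit 9) (.e (nat_lit 336443) (nat_lit 32) (.e (nat_lit 466972) (nat_lit 21) .nil)))) .nil)) 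
(.lf (nat_lit 445291) (.g (nat_lit 1043) (.e (nat_lit 794636) (nat_lit 11) (.e (nat_lit 336222) (nat_lit 13) (.e (nat_lit 393238) (nat_lit 17) (.e (nat_lit 7099) (nat_lit 380) .nil)))) .nil))) (.nd (nat_lit 5) 
(.lf (nat_lit 445275) (.g (nat_lit 1548) (.e (nat_lit 794636) (nat_lit 11) (.e (nat_lit 336220) (nat_lit 13) (.e (nat_lit 393233) (nat_lit 17) (.e (nat_lit 7591) (nat_lit 407) (.e (nat_lit 81664) (nat_lit 28) .nil))))) (.g (nat_lit 4) .nil .nil))) 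
(.lf (nat_lit 445307) (.g (nat_lit 3321) (.e (nat_lit 794637) (nat_lit 11) (.e (nat_lit 336002) (nat_lit 2) (.e (nat_lit 90170) (nat_lit 13) (.e (nat_lit 172106) (nat_lit 10) (.e (nat_lit 434244) (nat_lit 28) (.e (nat_lit 573474) (nat_lit 12) (.e (nat_lit 65280) (nat_lit 57) .nil))))))) (.g (nat_lit 6) .nil .nil)))))) (.nd (nat_lit 3) (.nd (nat_lit 4) (.nd (nat_lit 5) 
(.lf (nat_lit 445255) (.g (nat_lit 3145) (.e (nat_lit 794636) (nat_lit 11) (.e (nat_lit 336088) (nat_lit 9) (.e (nat_lit 336443) (nat_lit 32) (.e (nat_lit 466969) (nat_lit 21) (.e (nat_lit 164325) (nat_lit 230) (.e (nat_lit 163844) (nat_lit 0) (.e (nat_lit 3771) (nat_lit 229) .nil))))))) (.g (nat_lit 5) .nil .nil))) 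
(.lf (nat_lit 445287) (.g (nat_lit 1743) (.e (nat_lit 794636) (nat_lit 11) (.e (nat_lit 336221) (nat_lit 13) (.e (nat_lit 393301) (nat_lit 27) (.e (nat_lit 491559) (nat_lit 10) (.e (nat_lit 352000) (nat_lit 46) .nil))))) (.g (nat_lit 4) .nil .nil)))) (.nd (nat_lit 5) 
(.lf (nat_lit 445271) (.g (nat_lit 1920) (.e (nat_lit 794636) (nat_lit 11) (.e (nat_lit 336213) (nat_lit 13) (.e (nat_lit 393300) (nat_lit 27) (.e (nat_lit 491558) (nat_lit 10) (.e (nat_lit 352000) (nat_lit 46) .nil))))) (.g (nat_lit 4) .nil .nil))) 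
(.lf (nat_lit 445303) (.g (nat_lit 3571) (.e (nat_lit 794637) (nat_lit 11) (.e (nat_lit 335892) (nat_lit 0) (.e (nat_lit 1812) (nat_lit 120) (.e (nat_lit 524322) (nat_lit 12) (.e (nat_lit 450588) (nat_lit 10) (.e (nat_lit 573473) (nat_lit 12) (.e (nat_lit 65280) (nat_lit 57) .nil))))))) (.g (nat_lit 6) .nil .nil))))) (.nd (nat_lit 4) (.nd (nat_lit 5) 
(.lf (nat_lit 445263) (.g (nat_lit 2267) (.e (nat_lit 794636) (nat_lit 11) (.e (nat_lit 336213) (nat_lit 13) (.e (nat_lit 393232) (nat_lit 17) (.e (nat_lit 7591) (nat_lit 407) (.e (nat_lit 81664) (nat_lit 28) .nil))))) .nil)) 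
(.lf (nat_lit 445295) (.g (nat_lit 933) (.e (nat_lit 794636) (nat_lit 11) (.e (nat_lit 336222) (nat_lit 13) (.e (nat_lit 393260) (nat_lit 21) (.e (nat_lit 417536) (nat_lit 10) .nil)))) .nil))) (.nd (nat_lit 5) 
(.lf (nat_lit 445279) (.g (nat_lit 1564) (.e (nat_lit 794636) (nat_lit 11) (.e (nat_lit 336220) (nat_lit 13) (.e (nat_lit 393300) (nat_lit 27) (.e (nat_lit 491558) (nat_lit 10) (.e (nat_lit 352000) (nat_lit 46) .nil))))) (.g (nat_lit 4) .nil .nil))) 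
(.lf (nat_lit 445311) (.g (nat_lit 981) (.e (nat_lit 794637) (nat_lit 11) (.e (nat_lit 336002) (nat_lit 2) (.e (nat_lit 90185) (nat_lit 17) (.e (nat_lit 237601) (nat_lit 9) .nil)))) .nil))))))))

noncomputable def tv5479 : DT := (.nd (nat_lit 0) (.nd (nat_lit 1) (.nd (nat_lit 2) (.nd (nat_lit 3) (.nd (nat_lit 4) (.nd (nat_lit 5) 
(.lf (nat_lit 445312) (.g (nat_lit 942) (.e (nat_lit 794637) (nat_lit 11) (.e (nat_lit 336002) (nat_lit 2) (.e (nat_lit 90185) (nat_lit 17) (.e (nat_lit 237605) (nat_lit 9) .nil)))) .nil)) 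
(.lf (nat_lit 445344) (.g (nat_lit 976) (.e (nat_lit 794637) (nat_lit 11) (.e (nat_lit 336012) (nat_lit 2) (.e (nat_lit 90170) (nat_lit 13) (.e (nat_lit 172113) (nat_lit 10) .nil)))) .nil))) (.nd (nat_lit 5) 
(.lf (nat_lit 445328) (.g (nat_lit 3489) (.e (nat_lit 794637) (nat_lit 11) (.e (nat_lit 336010) (nat_lit 2) (.e (nat_lit 90170) (nat_lit 13) (.e (nat_lit 172113) (nat_lit 10) (.e (nat_lit 434248) (nat_lit 28) (.e (nat_lit 573475) (nat_lit 12) (.e (nat_lit 65280) (nat_lit 57) .nil))))))) (.g (nat_lit 6) .nil .nil))) 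
(.lf (nat_lit 445360) (.g (nat_lit 3334) (.e (nat_lit 794637) (nat_lit 11) (.e (nat_lit 336012) (nat_lit 2) (.e (nat_lit 90178) (nat_lit 15) (.e (nat_lit 188440) (nat_lit 20) (.e (nat_lit 3307) (nat_lit 202) (.e (nat_lit 573472) (nat_lit 12) (.e (nat_lit 65280) (nat_lit 57) .nil))))))) (.g (nat_lit 5) .nil .nil))))) (.nd (nat_lit 4) (.nd (nat_lit 5) 
(.lf (nat_lit 445320) (.g (nat_lit 2609) (.e (nat_lit 794637) (nat_lit 11) (.e (nat_lit 336009) (nat_lit 2) (.e (nat_lit 90170) (nat_lit 13) (.e (nat_lit 172113) (nat_lit 10) (.e (nat_lit 434245) (nat_lit 28) (.e (nat_lit 573473) (nat_lit 12) (.e (nat_lit 65280) (nat_lit 57) .nil))))))) (.g (nat_lit 4) .nil .nil))) 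
(.lf (nat_lit 445352) (.g (nat_lit 1229) (.e (nat_lit 794637) (nat_lit 11) (.e (nat_lit 336012) (nat_lit 2) (.e (nat_lit 90176) (nat_lit 15) (.e (nat_lit 188439) (nat_lit 20) .nil)))) .nil))) (.nd (nat_lit 5) 
(.lf (nat_lit 445336) (.g (nat_lit 2586) (.e (nat_lit 794637) (nat_lit 11) (.e (nat_lit 336011) (nat_lit 2) (.e (nat_lit 90170) (nat_lit 13) (.e (nat_lit 172113) (nat_lit 10) (.e (nat_lit 434248) (nat_lit 28) (.e (nat_lit 573473) (nat_lit 12) (.e (nat_lit 65280) (nat_lit 57) .nil))))))) (.g (nat_lit 4) .nil .nil))) 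
(.lf (nat_lit 445368) (.g (nat_lit 1561) (.e (nat_lit 794637) (nat_lit 11) (.e (nat_lit 336012) (nat_lit 2) (.e (nat_lit 90178) (nat_lit 15) (.e (nat_lit 188441) (nat_lit 20) (.e (nat_lit 3308) (nat_lit 202) .nil))))) .nil))))) (.nd (nat_lit 3) (.nd (nat_lit 4) (.nd (nat_lit 5) 
(.lf (nat_lit 445316) (.g (nat_lit 585) (.e (nat_lit 794637) (nat_lit 11) (.e (nat_lit 336004) (nat_lit 2) (.e (nat_lit 90176) (nat_lit 15) .nil))) .nil)) 
(.lf (nat_lit 445348) (.g (nat_lit 2799) (.e (nat_lit 794637) (nat_lit 11) (.e (nat_lit 336012) (nat_lit 2) (.e (nat_lit 90170) (nat_lit 13) (.e (nat_lit 172113) (nat_lit 10) (.e (nat_lit 434248) (nat_lit 28) (.e (nat_lit 573473) (nat_lit 12) (.e (nat_lit 65280) (nat_lit 57) .nil))))))) (.g (nat_lit 5) .nil .nil)))) (.nd (nat_lit 5) 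
(.lf (nat_lit 445332) (.g (nat_lit 4840) (.e (nat_lit 794637) (nat_lit 11) (.e (nat_lit 336011) (nat_lit 2) (.e (nat_lit 90170) (nat_lit 13) (.e (nat_lit 172106) (nat_lit 10) (.e (nat_lit 434244) (nat_lit 28) (.e (nat_lit 573474) (nat_lit 12) (.e (nat_lit 65280) (nat_lit 57) .nil))))))) (.g (nat_lit 6) .nil .nil))) 
(.lf (nat_lit 445364) (.g (nat_lit 5053) (.e (nat_lit 794637) (nat_lit 11) (.e (nat_lit 336012) (nat_lit 2) (.e (nat_lit 90178) (nat_lit 15) (.e (nat_lit 188440) (nat_lit 20) (.e (nat_lit 3307) (nat_lit 202) (.e (nat_lit 573477) (nat_lit 12) (.e (nat_lit 65280) (nat_lit 57) .nil))))))) (.g (nat_lit 6) .nil .nil))))) (.nd (nat_lit 4) (.nd (nat_lit 5) 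
(.lf (nat_lit 445324) (.g (nat_lit 665) (.e (nat_lit 794637) (nat_lit 11) (.e (nat_lit 336010) (nat_lit 2) (.e (nat_lit 90170) (nat_lit 13) (.e (nat_lit 172113) (nat_lit 10) .nil)))) .nil)) 
(.lf (nat_lit 445356) (.g (nat_lit 1537) (.e (nat_lit 794637) (nat_lit 11) (.e (nat_lit 336012) (nat_lit 2) (.e (nat_lit 90178) (nat_lit 15) (.e (nat_lit 188436) (nat_lit 20) .nil)))) .nil))) (.nd (nat_lit 5) 
(.lf (nat_lit 445340) (.g (nat_lit 1485) (.e (nat_lit 794637) (nat_lit 11) (.e (nat_lit 336012) (nat_lit 2) (.e (nat_lit 90169) (nat_lit 13) (.e (nat_lit 172111) (nat_lit 10) .nil)))) .nil)) 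
(.lf (nat_lit 445372) (.g (nat_lit 2105) (.e (nat_lit 794637) (nat_lit 11) (.e (nat_lit 336012) (nat_lit 2) (.e (nat_lit 90185) (nat_lit 17) (.e (nat_lit 237605) (nat_lit 9) (.e (nat_lit 426436) (nat_lit 18) (.e (nat_lit 98320) (nat_lit 17) (.e (nat_lit 3754) (nat_lit 229) .nil))))))) (.g (nat_lit 5) .nil .nil))))))) (.nd (nat_lit 2) (.nd (nat_lit 3) (.nd (nat_lit 4) (.nd (nat_lit 5) 
(.lf (nat_lit 445314) (.g (nat_lit 2837) (.e (nat_lit 794637) (nat_lit 11) (.e (nat_lit 336004) (nat_lit 2) (.e (nat_lit 90170) (nat_lit 13) (.e (nat_lit 172113) (nat_lit 10) (.e (nat_lit 434247) (nat_lit 28) (.e (nat_lit 573477) (nat_lit 12) (.e (nat_lit 65280) (nat_lit 57) .nil))))))) (.g (nat_lit 4) .nil .nil))) 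
(.lf (nat_lit 445346) (.g (nat_lit 3359) (.e (nat_lit 794637) (nat_lit 11) (.e (nat_lit 336012) (nat_lit 2) (.e (nat_lit 90170) (nat_lit 13) (.e (nat_lit 172113) (nat_lit 10) (.e (nat_lit 434247) (nat_lit 28) (.e (nat_lit 573477) (nat_lit 12) (.e (nat_lit 65280) (nat_lit 57) .nil))))))) (.g (nat_lit 6) .nil .nil)))) (.nd (nat_lit 5) 
(.lf (nat_lit 445330) (.g (nat_lit 3298) (.e (nat_lit 794637) (nat_lit 11) (.e (nat_lit 336011) (nat_lit 2) (.e (nat_lit 90170) (nat_lit 13) (.e (nat_lit 172106) (nat_lit 10) (.e (nat_lit 434244) (nat_lit 28) (.e (nat_lit 573451) (nat_lit 9) (.e (nat_lit 1002) (nat_lit 81) (.e (nat_lit 2362) (nat_lit 153) .nil)))))))) (.g (nat_lit 5) .nil .nil))) 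
(.lf (nat_lit 445362) (.g (nat_lit 4228) (.e (nat_lit 794637) (nat_lit 11) (.e (nat_lit 336012) (nat_lit 2) (.e (nat_lit 90178) (nat_lit 15) (.e (nat_lit 188440) (nat_lit 20) (.e (nat_lit 3307) (nat_lit 202) (.e (nat_lit 573475) (nat_lit 12) (.e (nat_lit 65280) (nat_lit 57) .nil))))))) (.g (nat_lit 6) .nil .nil))))) (.nd (nat_lit 4) (.nd (nat_lit 5) 
(.lf (nat_lit 445322) (.g (nat_lit 3151) (.e (nat_lit 794637) (nat_lit 11) (.e (nat_lit 336009) (nat_lit 2) (.e (nat_lit 90170) (nat_lit 13) (.e (nat_lit 172113) (nat_lit 10) (.e (nat_lit 434247) (nat_lit 28) (.e (nat_lit 573478) (nat_lit 12) (.e (nat_lit 65280) (nat_lit 57) .nil))))))) (.g (nat_lit 5) .nil .nil))) 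
(.lf (nat_lit 445354) (.g (nat_lit 1658) (.e (nat_lit 794637) (nat_lit 11) (.e (nat_lit 336012) (nat_lit 2) (.e (nat_lit 90176) (nat_lit 15) (.e (nat_lit 188439) (nat_lit 20) (.e (nat_lit 3308) (nat_lit 202) .nil))))) .nil))) (.nd (nat_lit 5) 
(.lf (nat_lit 445338) (.g (nat_lit 734) (.e (nat_lit 794637) (nat_lit 11) (.e (nat_lit 336012) (nat_lit 2) (.e (nat_lit 90167) (nat_lit 13) .nil))) .nil)) 
(.lf (nat_lit 445370) (.g (nat_lit 1979) (.e (nat_lit 794637) (nat_lit 11) (.e (nat_lit 336012) (nat_lit 2) (.e (nat_lit 90185) (nat_lit 17) (.e (nat_lit 237601) (nat_lit 9) (.e (nat_lit 426436) (nat_lit 18) (.e (nat_lit 98320) (nat_lit 17) (.e (nat_lit 3754) (nat_lit 229) .nil))))))) (.g (nat_lit 5) .nil .nil)))))) (.nd (nat_lit 3) (.nd (nat_lit 4) (.nd (nat_lit 5) 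
(.lf (nat_lit 445318) (.g (nat_lit 1747) (.e (nat_lit 794637) (nat_lit 11) (.e (nat_lit 336004) (nat_lit 2) (.e (nat_lit 90178) (nat_lit 15) (.e (nat_lit 188440) (nat_lit 20) .nil)))) .nil)) 
(.lf (nat_lit 445350) (.g (nat_lit 1700) (.e (nat_lit 794637) (nat_lit 11) (.e (nat_lit 336012) (nat_lit 2) (.e (nat_lit 90172) (nat_lit 14) (.e (nat_lit 180278) (nat_lit 32) .nil)))) .nil))) (.nd (nat_lit 5) 
(.lf (nat_lit 445334) (.g (nat_lit 3421) (.e (nat_lit 794637) (nat_lit 11) (.e (nat_lit 336011) (nat_lit 2) (.e (nat_lit 90170) (nat_lit 13) (.e (nat_lit 172113) (nat_lit 10) (.e (nat_lit 434245) (nat_lit 28) (.e (nat_lit 573474) (nat_lit 12) (.e (nat_lit 65280) (nat_lit 57) .nil))))))) (.g (nat_lit 5) .nil .nil))) 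
(.lf (nat_lit 445366) (.g (nat_lit 2482) (.e (nat_lit 794637) (nat_lit 11) (.e (nat_lit 336012) (nat_lit 2) (.e (nat_lit 90178) (nat_lit 15) (.e (nat_lit 188440) (nat_lit 20) (.e (nat_lit 3307) (nat_lit 202) (.e (nat_lit 573494) (nat_lit 16) (.e (nat_lit 130816) (nat_lit 57) .nil))))))) (.g (nat_lit 4) .nil .nil))))) (.nd (nat_lit 4) (.nd (nat_lit 5) 
(.lf (nat_lit 445326) (.g (nat_lit 3079) (.e (nat_lit 794637) (nat_lit 11) (.e (nat_lit 336010) (nat_lit 2) (.e (nat_lit 90170) (nat_lit 13) (.e (nat_lit 172113) (nat_lit 10) (.e (nat_lit 434247) (nat_lit 28) (.e (nat_lit 573477) (nat_lit 12) (.e (nat_lit 65280) (nat_lit 57) .nil))))))) (.g (nat_lit 6) .nil .nil))) 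
(.lf (nat_lit 445358) (.g (nat_lit 3077) (.e (nat_lit 794637) (nat_lit 11) (.e (nat_lit 336012) (nat_lit 2) (.e (nat_lit 90178) (nat_lit 15) (.e (nat_lit 188440) (nat_lit 20) (.e (nat_lit 3307) (nat_lit 202) (.e (nat_lit 573449) (nat_lit 9) (.e (nat_lit 987) (nat_lit 81) (.e (nat_lit 2362) (nat_lit 153) .nil)))))))) (.g (nat_lit 5) .nil .nil)))) (.nd (nat_lit 5) 
(.lf (nat_lit 445342) (.g (nat_lit 2559) (.e (nat_lit 794637) (nat_lit 11) (.e (nat_lit 336012) (nat_lit 2) (.e (nat_lit 90170) (nat_lit 13) (.e (nat_lit 172106) (nat_lit 10) (.e (nat_lit 434244) (nat_lit 28) .nil))))) .nil)) 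
(.lf (nat_lit 445374) (.g (nat_lit 2554) (.e (nat_lit 794637) (nat_lit 11) (.e (nat_lit 336012) (nat_lit 2) (.e (nat_lit 90185) (nat_lit 17) (.e (nat_lit 237619) (nat_lit 12) (.e (nat_lit 475179) (nat_lit 24) (.e (nat_lit 516100) (nat_lit 0) (.e (nat_lit 3757) (nat_lit 229) .nil))))))) (.g (nat_lit 5) .nil .nil)))))))) 
(.nd (nat_lit 1) (.nd (nat_lit 2) (.nd (nat_lit 3) (.nd (nat_lit 4) (.nd (nat_lit 5) 
(.lf (nat_lit 445313) (.g (nat_lit 3251) (.e (nat_lit 794637) (nat_lit 11) (.e (nat_lit 336004) (nat_lit 2) (.e (nat_lit 90170) (nat_lit 13) (.e (nat_lit 172113) (nat_lit 10) (.e (nat_lit 434245) (nat_lit 28) (.e (nat_lit 573474) (nat_lit 12) (.e (nat_lit 65280) (nat_lit 57) .nil))))))) (.g (nat_lit 4) .nil .nil))) 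
(.lf (nat_lit 445345) (.g (nat_lit 3741) (.e (nat_lit 794637) (nat_lit 11) (.e (nat_lit 336012) (nat_lit 2) (.e (nat_lit 90170) (nat_lit 13) (.e (nat_lit 172113) (nat_lit 10) (.e (nat_lit 434245) (nat_lit 28) (.e (nat_lit 573474) (nat_lit 12) (.e (nat_lit 65280) (nat_lit 57) .nil))))))) (.g (nat_lit 6) .nil .nil)))) (.nd (nat_lit 5) 
(.lf (nat_lit 445329) (.g (nat_lit 2369) (.e (nat_lit 794637) (nat_lit 11) (.e (nat_lit 336011) (nat_lit 2) (.e (nat_lit 90170) (nat_lit 13) (.e (nat_lit 172106) (nat_lit 10) (.e (nat_lit 434244) (nat_lit 28) (.e (nat_lit 573449) (nat_lit 9) (.e (nat_lit 987) (nat_lit 81) (.e (nat_lit 2362) (nat_lit 153) .nil)))))))) (.g (nat_lit 4) .nil .nil))) 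
(.lf (nat_lit 445361) (.g (nat_lit 3876) (.e (nat_lit 794637) (nat_lit 11) (.e (nat_lit 336012) (nat_lit 2) (.e (nat_lit 90178) (nat_lit 15) (.e (nat_lit 188440) (nat_lit 20) (.e (nat_lit 3307) (nat_lit 202) (.e (nat_lit 573473) (nat_lit 12) (.e (nat_lit 65280) (nat_lit 57) .nil))))))) (.g (nat_lit 6) .nil .nil))))) (.nd (nat_lit 4) (.nd (nat_lit 5) 
(.lf (nat_lit 445321) (.g (nat_lit 3370) (.e (nat_lit 794637) (nat_lit 11) (.e (nat_lit 336009) (nat_lit 2) (.e (nat_lit 90170) (nat_lit 13) (.e (nat_lit 172113) (nat_lit 10) (.e (nat_lit 434247) (nat_lit 28) (.e (nat_lit 573477) (nat_lit 12) (.e (nat_lit 65280) (nat_lit 57) .nil))))))) (.g (nat_lit 5) .nil .nil))) 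
(.lf (nat_lit 445353) (.g (nat_lit 2209) (.e (nat_lit 794637) (nat_lit 11) (.e (nat_lit 336012) (nat_lit 2) (.e (nat_lit 90176) (nat_lit 15) (.e (nat_lit 188439) (nat_lit 20) (.e (nat_lit 3296) (nat_lit 202) (.e (nat_lit 573476) (nat_lit 12) (.e (nat_lit 65280) (nat_lit 57) .nil))))))) (.g (nat_lit 6) .nil .nil)))) (.nd (nat_lit 5) 
(.lf (nat_lit 445337) (.g (nat_lit 3574) (.e (nat_lit 794637) (nat_lit 11) (.e (nat_lit 336011) (nat_lit 2) (.e (nat_lit 90170) (nat_lit 13) (.e (nat_lit 172113) (nat_lit 10) (.e (nat_lit 434248) (nat_lit 28) (.e (nat_lit 573475) (nat_lit 12) (.e (nat_lit 65280) (nat_lit 57) .nil))))))) (.g (nat_lit 5) .nil .nil))) 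
(.lf (nat_lit 445369) (.g (nat_lit 2150) (.e (nat_lit 794637) (nat_lit 11) (.e (nat_lit 336012) (nat_lit 2) (.e (nat_lit 90178) (nat_lit 15) (.e (nat_lit 188441) (nat_lit 20) (.e (nat_lit 3308) (nat_lit 202) (.e (nat_lit 573475) (nat_lit 12) (.e (nat_lit 65280) (nat_lit 57) .nil))))))) (.g (nat_lit 5) .nil .nil)))))) (.nd (nat_lit 3) (.nd (nat_lit 4) (.nd (nat_lit 5) 
(.lf (nat_lit 445317) (.g (nat_lit 1749) (.e (nat_lit 794637) (nat_lit 11) (.e (nat_lit 336004) (nat_lit 2) (.e (nat_lit 90176) (nat_lit 15) (.e (nat_lit 188440) (nat_lit 20) .nil)))) .nil)) 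
(.lf (nat_lit 445349) (.g (nat_lit 3787) (.e (nat_lit 794637) (nat_lit 11) (.e (nat_lit 336012) (nat_lit 2) (.e (nat_lit 90170) (nat_lit 13) (.e (nat_lit 172113) (nat_lit 10) (.e (nat_lit 434248) (nat_lit 28) (.e (nat_lit 573475) (nat_lit 12) (.e (nat_lit 65280) (nat_lit 57) .nil))))))) (.g (nat_lit 6) .nil .nil)))) (.nd (nat_lit 5) 
(.lf (nat_lit 445333) (.g (nat_lit 2385) (.e (nat_lit 794637) (nat_lit 11) (.e (nat_lit 336011) (nat_lit 2) (.e (nat_lit 90170) (nat_lit 13) (.e (nat_lit 172113) (nat_lit 10) (.e (nat_lit 434245) (nat_lit 28) (.e (nat_lit 573473) (nat_lit 12) (.e (nat_lit 65280) (nat_lit 57) .nil))))))) (.g (nat_lit 4) .nil .nil))) 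
(.lf (nat_lit 445365) (.g (nat_lit 3918) (.e (nat_lit 794637) (nat_lit 11) (.e (nat_lit 336012) (nat_lit 2) (.e (nat_lit 90178) (nat_lit 15) (.e (nat_lit 188440) (nat_lit 20) (.e (nat_lit 3307) (nat_lit 202) (.e (nat_lit 573478) (nat_lit 12) (.e (nat_lit 65280) (nat_lit 57) .nil))))))) (.g (nat_lit 6) .nil .nil))))) (.nd (nat_lit 4) (.nd (nat_lit 5) 
(.lf (nat_lit 445325) (.g (nat_lit 3456) (.e (nat_lit 794637) (nat_lit 11) (.e (nat_lit 336010) (nat_lit 2) (.e (nat_lit 90170) (nat_lit 13) (.e (nat_lit 172113) (nat_lit 10) (.e (nat_lit 434245) (nat_lit 28) (.e (nat_lit 573474) (nat_lit 12) (.e (nat_lit 65280) (nat_lit 57) .nil))))))) (.g (nat_lit 6) .nil .nil))) 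
(.lf (nat_lit 445357) (.g (nat_lit 2133) (.e (nat_lit 794637) (nat_lit 11) (.e (nat_lit 336012) (nat_lit 2) (.e (nat_lit 90178) (nat_lit 15) (.e (nat_lit 188440) (nat_lit 20) (.e (nat_lit 3307) (nat_lit 202) .nil))))) .nil))) (.nd (nat_lit 5) 
(.lf (nat_lit 445341) (.g (nat_lit 1632) (.e (nat_lit 794637) (nat_lit 11) (.e (nat_lit 336012) (nat_lit 2) (.e (nat_lit 90169) (nat_lit 13) (.e (nat_lit 172113) (nat_lit 10) .nil)))) .nil)) 
(.lf (nat_lit 445373) (.g (nat_lit 2421) (.e (nat_lit 794637) (nat_lit 11) (.e (nat_lit 336012) (nat_lit 2) (.e (nat_lit 90185) (nat_lit 17) (.e (nat_lit 237616) (nat_lit 12) (.e (nat_lit 475179) (nat_lit 24) (.e (nat_lit 516100) (nat_lit 0) (.e (nat_lit 3757) (nat_lit 229) .nil))))))) (.g (nat_lit 5) .nil .nil))))))) (.nd (nat_lit 2) (.nd (nat_lit 3) (.nd (nat_lit 4) (.nd (nat_lit 5) 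
(.lf (nat_lit 445315) (.g (nat_lit 3257) (.e (nat_lit 794637) (nat_lit 11) (.e (nat_lit 336004) (nat_lit 2) (.e (nat_lit 90170) (nat_lit 13) (.e (nat_lit 172113) (nat_lit 10) (.e (nat_lit 434248) (nat_lit 28) (.e (nat_lit 573475) (nat_lit 12) (.e (nat_lit 65280) (nat_lit 57) .nil))))))) (.g (nat_lit 4) .nil .nil))) 
(.lf (nat_lit 445347) (.g (nat_lit 3140) (.e (nat_lit 794637) (nat_lit 11) (.e (nat_lit 336012) (nat_lit 2) (.e (nat_lit 90170) (nat_lit 13) (.e (nat_lit 172113) (nat_lit 10) (.e (nat_lit 434247) (nat_lit 28) (.e (nat_lit 573478) (nat_lit 12) (.e (nat_lit 65280) (nat_lit 57) .nil))))))) (.g (nat_lit 6) .nil .nil)))) (.nd (nat_lit 5) 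
(.lf (nat_lit 445331) (.g (nat_lit 3612) (.e (nat_lit 794637) (nat_lit 11) (.e (nat_lit 336011) (nat_lit 2) (.e (nat_lit 90170) (nat_lit 13) (.e (nat_lit 172106) (nat_lit 10) (.e (nat_lit 434244) (nat_lit 28) (.e (nat_lit 573473) (nat_lit 12) (.e (nat_lit 65280) (nat_lit 57) .nil))))))) (.g (nat_lit 5) .nil .nil))) 
(.lf (nat_lit 445363) (.g (nat_lit 3379) (.e (nat_lit 794637) (nat_lit 11) (.e (nat_lit 336012) (nat_lit 2) (.e (nat_lit 90178) (nat_lit 15) (.e (nat_lit 188440) (nat_lit 20) (.e (nat_lit 3307) (nat_lit 202) (.e (nat_lit 573476) (nat_lit 12) (.e (nat_lit 65280) (nat_lit 57) .nil))))))) (.g (nat_lit 5) .nil .nil))))) (.nd (nat_lit 4) (.nd (nat_lit 5) 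
(.lf (nat_lit 445323) (.g (nat_lit 3583) (.e (nat_lit 794637) (nat_lit 11) (.e (nat_lit 336010) (nat_lit 2) (.e (nat_lit 90170) (nat_lit 13) (.e (nat_lit 172106) (nat_lit 10) (.e (nat_lit 434244) (nat_lit 28) (.e (nat_lit 573474) (nat_lit 12) (.e (nat_lit 65280) (nat_lit 57) .nil))))))) (.g (nat_lit 6) .nil .nil))) 
(.lf (nat_lit 445355) (.g (nat_lit 1940) (.e (nat_lit 794637) (nat_lit 11) (.e (nat_lit 336012) (nat_lit 2) (.e (nat_lit 90176) (nat_lit 15) (.e (nat_lit 188440) (nat_lit 20) (.e (nat_lit 3307) (nat_lit 202) .nil))))) .nil))) (.nd (nat_lit 5) 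
(.lf (nat_lit 445339) (.g (nat_lit 1263) (.e (nat_lit 794637) (nat_lit 11) (.e (nat_lit 336012) (nat_lit 2) (.e (nat_lit 90167) (nat_lit 13) (.e (nat_lit 172120) (nat_lit 12) .nil)))) .nil)) 
(.lf (nat_lit 445371) (.g (nat_lit 1755) (.e (nat_lit 794637) (nat_lit 11) (.e (nat_lit 336012) (nat_lit 2) (.e (nat_lit 90185) (nat_lit 17) (.e (nat_lit 237605) (nat_lit 9) (.e (nat_lit 426436) (nat_lit 18) (.e (nat_lit 98319) (nat_lit 17) (.e (nat_lit 3757) (nat_lit 229) .nil))))))) (.g (nat_lit 4) .nil .nil)))))) (.nd (nat_lit 3) (.nd (nat_lit 4) (.nd (nat_lit 5) 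
(.lf (nat_lit 445319) (.g (nat_lit 3302) (.e (nat_lit 794637) (nat_lit 11) (.e (nat_lit 336009) (nat_lit 2) (.e (nat_lit 90170) (nat_lit 13) (.e (nat_lit 172106) (nat_lit 10) (.e (nat_lit 434244) (nat_lit 28) (.e (nat_lit 573474) (nat_lit 12) (.e (nat_lit 65280) (nat_lit 57) .nil))))))) (.g (nat_lit 6) .nil .nil))) 
(.lf (nat_lit 445351) (.g (nat_lit 1301) (.e (nat_lit 794637) (nat_lit 11) (.e (nat_lit 336012) (nat_lit 2) (.e (nat_lit 90176) (nat_lit 15) (.e (nat_lit 196352) (nat_lit 3) .nil)))) .nil))) (.nd (nat_lit 5) 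
(.lf (nat_lit 445335) (.g (nat_lit 2942) (.e (nat_lit 794637) (nat_lit 11) (.e (nat_lit 336011) (nat_lit 2) (.e (nat_lit 90170) (nat_lit 13) (.e (nat_lit 172113) (nat_lit 10) (.e (nat_lit 434247) (nat_lit 28) (.e (nat_lit 573478) (nat_lit 12) (.e (nat_lit 65280) (nat_lit 57) .nil))))))) (.g (nat_lit 4) .nil .nil))) 
(.lf (nat_lit 445367) (.g (nat_lit 1775) (.e (nat_lit 794637) (nat_lit 11) (.e (nat_lit 336012) (nat_lit 2) (.e (nat_lit 90178) (nat_lit 15) (.e (nat_lit 188441) (nat_lit 20) (.e (nat_lit 3304) (nat_lit 202) (.e (nat_lit 573477) (nat_lit 12) (.e (nat_lit 65280) (nat_lit 57) .nil))))))) (.g (nat_lit 4) .nil .nil))))) (.nd (nat_lit 4) (.nd (nat_lit 5) 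
(.lf (nat_lit 445327) (.g (nat_lit 2860) (.e (nat_lit 794637) (nat_lit 11) (.e (nat_lit 336010) (nat_lit 2) (.e (nat_lit 90170) (nat_lit 13) (.e (nat_lit 172113) (nat_lit 10) (.e (nat_lit 434247) (nat_lit 28) (.e (nat_lit 573478) (nat_lit 12) (.e (nat_lit 65280) (nat_lit 57) .nil))))))) (.g (nat_lit 6) .nil .nil))) 
(.lf (nat_lit 445359) (.g (nat_lit 2254) (.e (nat_lit 794637) (nat_lit 11) (.e (nat_lit 336012) (nat_lit 2) (.e (nat_lit 90178) (nat_lit 15) (.e (nat_lit 188440) (nat_lit 20) (.e (nat_lit 3307) (nat_lit 202) (.e (nat_lit 573455) (nat_lit 9) (.e (nat_lit 987) (nat_lit 81) (.e (nat_lit 2362) (nat_lit 153) .nil)))))))) (.g (nat_lit 4) .nil .nil)))) (.nd (nat_lit 5) 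
(.lf (nat_lit 445343) (.g (nat_lit 3695) (.e (nat_lit 794637) (nat_lit 11) (.e (nat_lit 336012) (nat_lit 2) (.e (nat_lit 90170) (nat_lit 13) (.e (nat_lit 172106) (nat_lit 10) (.e (nat_lit 434244) (nat_lit 28) (.e (nat_lit 573474) (nat_lit 12) (.e (nat_lit 65280) (nat_lit 57) .nil))))))) (.g (nat_lit 6) .nil .nil))) 
(.lf (nat_lit 445375) (.g (nat_lit 2329) (.e (nat_lit 794637) (nat_lit 11) (.e (nat_lit 336021) (nat_lit 3) (.e (nat_lit 98359) (nat_lit 26) (.e (nat_lit 426286) (nat_lit 10) (.e (nat_lit 434245) (nat_lit 28) .nil))))) .nil))))))))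

noncomputable def tv5480 : DT := (.nd (nat_lit 0) (.nd (nat_lit 1) (.nd (nat_lit 2) (.nd (nat_lit 3) (.nd (nat_lit 4) (.nd (nat_lit 5) 
(.lf (nat_lit 445376) (.g (nat_lit 3429) (.e (nat_lit 794637) (nat_lit 11) (.e (nat_lit 336021) (nat_lit 3) (.e (nat_lit 98359) (nat_lit 26) (.e (nat_lit 426286) (nat_lit 10) (.e (nat_lit 434245) (nat_lit 28) (.e (nat_lit 573474) (nat_lit 12) (.e (nat_lit 65280) (nat_lit 57) .nil))))))) (.g (nat_lit 5) .nil .nil))) 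
(.lf (nat_lit 445408) (.g (nat_lit 3463) (.e (nat_lit 794637) (nat_lit 11) (.e (nat_lit 336025) (nat_lit 3) (.e (nat_lit 98373) (nat_lit 29) (.e (nat_lit 450588) (nat_lit 10) (.e (nat_lit 573475) (nat_lit 12) (.e (nat_lit 65280) (nat_lit 57) .nil)))))) (.g (nat_lit 5) .nil .nil)))) (.nd (nat_lit 5) 
(.lf (nat_lit 445392) (.g (nat_lit 4691) (.e (nat_lit 794637) (nat_lit 11) (.e (nat_lit 336021) (nat_lit 3) (.e (nat_lit 98373) (nat_lit 29) (.e (nat_lit 450588) (nat_lit 10) (.e (nat_lit 573473) (nat_lit 12) (.e (nat_lit 65280) (nat_lit 57) .nil)))))) (.g (nat_lit 5) .nil .nil))) 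
(.lf (nat_lit 445424) (.g (nat_lit 1433) (.e (nat_lit 794637) (nat_lit 11) (.e (nat_lit 336027) (nat_lit 3) (.e (nat_lit 98370) (nat_lit 28) (.e (nat_lit 450304) (nat_lit 3) .nil)))) .nil)))) (.nd (nat_lit 4) (.nd (nat_lit 5) 
(.lf (nat_lit 445384) (.g (nat_lit 2225) (.e (nat_lit 794637) (nat_lit 11) (.e (nat_lit 336021) (nat_lit 3) (.e (nat_lit 98372) (nat_lit 29) (.e (nat_lit 450586) (nat_lit 10) (.e (nat_lit 573477) (nat_lit 12) (.e (nat_lit 65280) (nat_lit 57) .nil)))))) (.g (nat_lit 4) .nil .nil))) 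
(.lf (nat_lit 445416) (.g (nat_lit 3445) (.e (nat_lit 794637) (nat_lit 11) (.e (nat_lit 336026) (nat_lit 3) (.e (nat_lit 98373) (nat_lit 29) (.e (nat_lit 450588) (nat_lit 10) (.e (nat_lit 573473) (nat_lit 12) (.e (nat_lit 65280) (nat_lit 57) .nil)))))) (.g (nat_lit 5) .nil .nil)))) (.nd (nat_lit 5) 
(.lf (nat_lit 445400) (.g (nat_lit 2126) (.e (nat_lit 794637) (nat_lit 11) (.e (nat_lit 336025) (nat_lit 3) (.e (nat_lit 98372) (nat_lit 29) (.e (nat_lit 450586) (nat_lit 10) (.e (nat_lit 573473) (nat_lit 12) (.e (nat_lit 65280) (nat_lit 57) .nil)))))) (.g (nat_lit 5) .nil .nil))) 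
(.lf (nat_lit 445432) (.g (nat_lit 3805) (.e (nat_lit 794637) (nat_lit 11) (.e (nat_lit 336027) (nat_lit 3) (.e (nat_lit 98373) (nat_lit 29) (.e (nat_lit 450588) (nat_lit 10) (.e (nat_lit 573473) (nat_lit 12) (.e (nat_lit 65280) (nat_lit 57) .nil)))))) (.g (nat_lit 5) .nil .nil)))))) (.nd (nat_lit 3) (.nd (nat_lit 4) (.nd (nat_lit 5) 
(.lf (nat_lit 445380) (.g (nat_lit 559) (.e (nat_lit 794637) (nat_lit 11) (.e (nat_lit 336021) (nat_lit 3) (.e (nat_lit 98365) (nat_lit 26) .nil))) .nil)) 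
(.lf (nat_lit 445412) (.g (nat_lit 3352) (.e (nat_lit 794637) (nat_lit 11) (.e (nat_lit 336026) (nat_lit 3) (.e (nat_lit 98373) (nat_lit 29) (.e (nat_lit 450587) (nat_lit 10) (.e (nat_lit 573473) (nat_lit 12) (.e (nat_lit 65280) (nat_lit 57) .nil)))))) (.g (nat_lit 5) .nil .nil)))) (.nd (nat_lit 5) 
(.lf (nat_lit 445396) (.g (nat_lit 1937) (.e (nat_lit 794637) (nat_lit 11) (.e (nat_lit 336021) (nat_lit 3) (.e (nat_lit 98374) (nat_lit 29) (.e (nat_lit 450586) (nat_lit 10) (.e (nat_lit 573477) (nat_lit 12) .nil))))) .nil)) 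
(.lf (nat_lit 445428) (.g (nat_lit 2551) (.e (nat_lit 794637) (nat_lit 11) (.e (nat_lit 336027) (nat_lit 3) (.e (nat_lit 98372) (nat_lit 29) (.e (nat_lit 450586) (nat_lit 10) (.e (nat_lit 573478) (nat_lit 12) (.e (nat_lit 65280) (nat_lit 57) .nil)))))) (.g (nat_lit 5) .nil .nil))))) (.nd (nat_lit 4) (.nd (nat_lit 5) 
(.lf (nat_lit 445388) (.g (nat_lit 3581) (.e (nat_lit 794637) (nat_lit 11) (.e (nat_lit 336021) (nat_lit 3) (.e (nat_lit 98373) (nat_lit 29) (.e (nat_lit 450587) (nat_lit 10) (.e (nat_lit 573473) (nat_lit 12) .nil))))) .nil)) 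
(.lf (nat_lit 445420) (.g (nat_lit 2215) (.e (nat_lit 794637) (nat_lit 11) (.e (nat_lit 336027) (nat_lit 3) (.e (nat_lit 98365) (nat_lit 26) (.e (nat_lit 426188) (nat_lit 9) (.e (nat_lit 426436) (nat_lit 18) (.e (nat_lit 98320) (nat_lit 17) (.e (nat_lit 3754) (nat_lit 229) .nil))))))) (.g (nat_lit 5) .nil .nil)))) (.nd (nat_lit 5) 
(.lf (nat_lit 445404) (.g (nat_lit 3241) (.e (nat_lit 794637) (nat_lit 11) (.e (nat_lit 336025) (nat_lit 3) (.e (nat_lit 98373) (nat_lit 29) (.e (nat_lit 450587) (nat_lit 10) (.e (nat_lit 573473) (nat_lit 12) (.e (nat_lit 65280) (nat_lit 57) .nil)))))) (.g (nat_lit 5) .nil .nil))) 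
(.lf (nat_lit 445436) (.g (nat_lit 2965) (.e (nat_lit 794637) (nat_lit 11) (.e (nat_lit 336059) (nat_lit 7) (.e (nat_lit 319533) (nat_lit 16) (.e (nat_lit 286753) (nat_lit 10) (.e (nat_lit 344160) (nat_lit 37) (.e (nat_lit 647201) (nat_lit 12) (.e (nat_lit 65280) (nat_lit 57) .nil))))))) (.g (nat_lit 6) .nil .nil))))))) (.nd (nat_lit 2) (.nd (nat_lit 3) (.nd (nat_lit 4) (.nd (nat_lit 5) 
(.lf (nat_lit 445378) (.g (nat_lit 2488) (.e (nat_lit 794637) (nat_lit 11) (.e (nat_lit 336021) (nat_lit 3) (.e (nat_lit 98359) (nat_lit 26) (.e (nat_lit 426286) (nat_lit 10) (.e (nat_lit 434248) (nat_lit 28) (.e (nat_lit 573473) (nat_lit 12) (.e (nat_lit 65280) (nat_lit 57) .nil))))))) (.g (nat_lit 4) .nil .nil))) 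
(.lf (nat_lit 445410) (.g (nat_lit 2320) (.e (nat_lit 794637) (nat_lit 11) (.e (nat_lit 336026) (nat_lit 3) (.e (nat_lit 98372) (nat_lit 29) (.e (nat_lit 450586) (nat_lit 10) (.e (nat_lit 573475) (nat_lit 12) (.e (nat_lit 65280) (nat_lit 57) .nil)))))) (.g (nat_lit 5) .nil .nil)))) (.nd (nat_lit 5) 
(.lf (nat_lit 445394) (.g (nat_lit 2096) (.e (nat_lit 794637) (nat_lit 11) (.e (nat_lit 336021) (nat_lit 3) (.e (nat_lit 98374) (nat_lit 29) (.e (nat_lit 450586) (nat_lit 10) (.e (nat_lit 573473) (nat_lit 12) (.e (nat_lit 65280) (nat_lit 57) .nil)))))) (.g (nat_lit 4) .nil .nil))) 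
(.lf (nat_lit 445426) (.g (nat_lit 3091) (.e (nat_lit 794637) (nat_lit 11) (.e (nat_lit 336027) (nat_lit 3) (.e (nat_lit 98372) (nat_lit 29) (.e (nat_lit 450586) (nat_lit 10) (.e (nat_lit 573475) (nat_lit 12) (.e (nat_lit 65280) (nat_lit 57) .nil)))))) (.g (nat_lit 5) .nil .nil))))) (.nd (nat_lit 4) (.nd (nat_lit 5) 
(.lf (nat_lit 445386) (.g (nat_lit 1308) (.e (nat_lit 794637) (nat_lit 11) (.e (nat_lit 336021) (nat_lit 3) (.e (nat_lit 98372) (nat_lit 29) (.e (nat_lit 450587) (nat_lit 10) .nil)))) .nil)) 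
(.lf (nat_lit 445418) (.g (nat_lit 779) (.e (nat_lit 794637) (nat_lit 11) (.e (nat_lit 336027) (nat_lit 3) (.e (nat_lit 98363) (nat_lit 26) (.e (nat_lit 426318) (nat_lit 12) .nil)))) .nil))) (.nd (nat_lit 5) 
(.lf (nat_lit 445402) (.g (nat_lit 1735) (.e (nat_lit 794637) (nat_lit 11) (.e (nat_lit 336025) (nat_lit 3) (.e (nat_lit 98372) (nat_lit 29) (.e (nat_lit 450586) (nat_lit 10) (.e (nat_lit 573477) (nat_lit 12) (.e (nat_lit 65280) (nat_lit 57) .nil)))))) (.g (nat_lit 4) .nil .nil))) 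
(.lf (nat_lit 445434) (.g (nat_lit 1222) (.e (nat_lit 794637) (nat_lit 11) (.e (nat_lit 336027) (nat_lit 3) (.e (nat_lit 98374) (nat_lit 29) (.e (nat_lit 450586) (nat_lit 10) .nil)))) .nil))))) (.nd (nat_lit 3) (.nd (nat_lit 4) (.nd (nat_lit 5) 
(.lf (nat_lit 445382) (.g (nat_lit 2625) (.e (nat_lit 794637) (nat_lit 11) (.e (nat_lit 336021) (nat_lit 3) (.e (nat_lit 98372) (nat_lit 29) (.e (nat_lit 450586) (nat_lit 10) (.e (nat_lit 573473) (nat_lit 12) (.e (nat_lit 65280) (nat_lit 57) .nil)))))) (.g (nat_lit 5) .nil .nil))) 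
(.lf (nat_lit 445414) (.g (nat_lit 3006) (.e (nat_lit 794637) (nat_lit 11) (.e (nat_lit 336026) (nat_lit 3) (.e (nat_lit 98373) (nat_lit 29) (.e (nat_lit 450587) (nat_lit 10) (.e (nat_lit 573477) (nat_lit 12) (.e (nat_lit 65280) (nat_lit 57) .nil)))))) (.g (nat_lit 5) .nil .nil)))) (.nd (nat_lit 5) 
(.lf (nat_lit 445398) (.g (nat_lit 1166) (.e (nat_lit 794637) (nat_lit 11) (.e (nat_lit 336021) (nat_lit 3) (.e (nat_lit 98381) (nat_lit 31) .nil))) .nil)) 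
(.lf (nat_lit 445430) (.g (nat_lit 3569) (.e (nat_lit 794637) (nat_lit 11) (.e (nat_lit 336027) (nat_lit 3) (.e (nat_lit 98373) (nat_lit 29) (.e (nat_lit 450587) (nat_lit 10) (.e (nat_lit 573473) (nat_lit 12) (.e (nat_lit 65280) (nat_lit 57) .nil)))))) (.g (nat_lit 4) .nil .nil))))) (.nd (nat_lit 4) (.nd (nat_lit 5) 
(.lf (nat_lit 445390) (.g (nat_lit 3846) (.e (nat_lit 794637) (nat_lit 11) (.e (nat_lit 336021) (nat_lit 3) (.e (nat_lit 98373) (nat_lit 29) (.e (nat_lit 450587) (nat_lit 10) (.e (nat_lit 573477) (nat_lit 12) (.e (nat_lit 65280) (nat_lit 57) .nil)))))) (.g (nat_lit 5) .nil .nil))) 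
(.lf (nat_lit 445422) (.g (nat_lit 2459) (.e (nat_lit 794637) (nat_lit 11) (.e (nat_lit 336027) (nat_lit 3) (.e (nat_lit 98365) (nat_lit 26) (.e (nat_lit 426306) (nat_lit 12) (.e (nat_lit 475179) (nat_lit 24) (.e (nat_lit 516100) (nat_lit 0) (.e (nat_lit 3757) (nat_lit 229) .nil))))))) (.g (nat_lit 5) .nil .nil)))) (.nd (nat_lit 5) 
(.lf (nat_lit 445406) (.g (nat_lit 2746) (.e (nat_lit 794637) (nat_lit 11) (.e (nat_lit 336025) (nat_lit 3) (.e (nat_lit 98373) (nat_lit 29) (.e (nat_lit 450587) (nat_lit 10) (.e (nat_lit 573478) (nat_lit 12) (.e (nat_lit 65280) (nat_lit 57) .nil)))))) (.g (nat_lit 5) .nil .nil))) 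
(.lf (nat_lit 445438) (.g (nat_lit 2106) (.e (nat_lit 794637) (nat_lit 11) (.e (nat_lit 336075) (nat_lit 9) (.e (nat_lit 336438) (nat_lit 31) (.e (nat_lit 458769) (nat_lit 16) (.e (nat_lit 164287) (nat_lit 224) (.e (nat_lit 164112) (nat_lit 118) .nil)))))) (.g (nat_lit 0) .nil .nil)))))))) (.nd (nat_lit 1) (.nd (nat_lit 2) (.nd (nat_lit 3) (.nd (nat_lit 4) (.nd (nat_lit 5) 
(.lf (nat_lit 445377) (.g (nat_lit 2662) (.e (nat_lit 794637) (nat_lit 11) (.e (nat_lit 336021) (nat_lit 3) (.e (nat_lit 98359) (nat_lit 26) (.e (nat_lit 426286) (nat_lit 10) (.e (nat_lit 434247) (nat_lit 28) (.e (nat_lit 573478) (nat_lit 12) (.e (nat_lit 65280) (nat_lit 57) .nil))))))) (.g (nat_lit 4) .nil .nil))) 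
(.lf (nat_lit 445409) (.g (nat_lit 2011) (.e (nat_lit 794637) (nat_lit 11) (.e (nat_lit 336026) (nat_lit 3) (.e (nat_lit 98372) (nat_lit 29) (.e (nat_lit 450586) (nat_lit 10) (.e (nat_lit 573473) (nat_lit 12) (.e (nat_lit 65280) (nat_lit 57) .nil)))))) (.g (nat_lit 5) .nil .nil)))) (.nd (nat_lit 5) 
(.lf (nat_lit 445393) (.g (nat_lit 4604) (.e (nat_lit 794637) (nat_lit 11) (.e (nat_lit 336021) (nat_lit 3) (.e (nat_lit 98373) (nat_lit 29) (.e (nat_lit 450588) (nat_lit 10) (.e (nat_lit 573475) (nat_lit 12) (.e (nat_lit 65280) (nat_lit 57) .nil)))))) (.g (nat_lit 5) .nil .nil))) 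
(.lf (nat_lit 445425) (.g (nat_lit 2783) (.e (nat_lit 794637) (nat_lit 11) (.e (nat_lit 336027) (nat_lit 3) (.e (nat_lit 98372) (nat_lit 29) (.e (nat_lit 450586) (nat_lit 10) (.e (nat_lit 573473) (nat_lit 12) (.e (nat_lit 65280) (nat_lit 57) .nil)))))) (.g (nat_lit 5) .nil .nil))))) (.nd (nat_lit 4) (.nd (nat_lit 5) 
(.lf (nat_lit 445385) (.g (nat_lit 2379) (.e (nat_lit 794637) (nat_lit 11) (.e (nat_lit 336021) (nat_lit 3) (.e (nat_lit 98372) (nat_lit 29) (.e (nat_lit 450586) (nat_lit 10) (.e (nat_lit 573478) (nat_lit 12) (.e (nat_lit 65280) (nat_lit 57) .nil)))))) (.g (nat_lit 5) .nil .nil))) 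
(.lf (nat_lit 445417) (.g (nat_lit 3585) (.e (nat_lit 794637) (nat_lit 11) (.e (nat_lit 336026) (nat_lit 3) (.e (nat_lit 98373) (nat_lit 29) (.e (nat_lit 450588) (nat_lit 10) (.e (nat_lit 573475) (nat_lit 12) (.e (nat_lit 65280) (nat_lit 57) .nil)))))) (.g (nat_lit 5) .nil .nil)))) (.nd (nat_lit 5) 
(.lf (nat_lit 445401) (.g (nat_lit 2434) (.e (nat_lit 794637) (nat_lit 11) (.e (nat_lit 336025) (nat_lit 3) (.e (nat_lit 98372) (nat_lit 29) (.e (nat_lit 450586) (nat_lit 10) (.e (nat_lit 573475) (nat_lit 12) (.e (nat_lit 65280) (nat_lit 57) .nil)))))) (.g (nat_lit 5) .nil .nil))) 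
(.lf (nat_lit 445433) (.g (nat_lit 3972) (.e (nat_lit 794637) (nat_lit 11) (.e (nat_lit 336027) (nat_lit 3) (.e (nat_lit 98373) (nat_lit 29) (.e (nat_lit 450588) (nat_lit 10) (.e (nat_lit 573475) (nat_lit 12) (.e (nat_lit 65280) (nat_lit 57) .nil)))))) (.g (nat_lit 5) .nil .nil)))))) (.nd (nat_lit 3) (.nd (nat_lit 4) (.nd (nat_lit 5) 
(.lf (nat_lit 445381) (.g (nat_lit 1166) (.e (nat_lit 794637) (nat_lit 11) (.e (nat_lit 336021) (nat_lit 3) (.e (nat_lit 98369) (nat_lit 28) .nil))) .nil)) 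
(.lf (nat_lit 445413) (.g (nat_lit 3234) (.e (nat_lit 794637) (nat_lit 11) (.e (nat_lit 336026) (nat_lit 3) (.e (nat_lit 98373) (nat_lit 29) (.e (nat_lit 450587) (nat_lit 10) (.e (nat_lit 573475) (nat_lit 12) (.e (nat_lit 65280) (nat_lit 57) .nil)))))) (.g (nat_lit 5) .nil .nil)))) (.nd (nat_lit 5) 
(.lf (nat_lit 445397) (.g (nat_lit 1963) (.e (nat_lit 794637) (nat_lit 11) (.e (nat_lit 336021) (nat_lit 3) (.e (nat_lit 98374) (nat_lit 29) (.e (nat_lit 450586) (nat_lit 10) (.e (nat_lit 573478) (nat_lit 12) (.e (nat_lit 65280) (nat_lit 57) .nil)))))) (.g (nat_lit 4) .nil .nil))) 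
(.lf (nat_lit 445429) (.g (nat_lit 3499) (.e (nat_lit 794637) (nat_lit 11) (.e (nat_lit 336027) (nat_lit 3) (.e (nat_lit 98372) (nat_lit 29) (.e (nat_lit 450588) (nat_lit 10) (.e (nat_lit 573473) (nat_lit 12) .nil))))) .nil)))) (.nd (nat_lit 4) (.nd (nat_lit 5) 
(.lf (nat_lit 445389) (.g (nat_lit 3828) (.e (nat_lit 794637) (nat_lit 11) (.e (nat_lit 336021) (nat_lit 3) (.e (nat_lit 98373) (nat_lit 29) (.e (nat_lit 450587) (nat_lit 10) (.e (nat_lit 573475) (nat_lit 12) .nil))))) .nil)) 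
(.lf (nat_lit 445421) (.g (nat_lit 3157) (.e (nat_lit 794637) (nat_lit 11) (.e (nat_lit 336027) (nat_lit 3) (.e (nat_lit 98365) (nat_lit 26) (.e (nat_lit 426306) (nat_lit 12) (.e (nat_lit 475177) (nat_lit 24) (.e (nat_lit 516097) (nat_lit 0) (.e (nat_lit 3757) (nat_lit 229) .nil))))))) (.g (nat_lit 6) .nil .nil)))) (.nd (nat_lit 5) 
(.lf (nat_lit 445405) (.g (nat_lit 3089) (.e (nat_lit 794637) (nat_lit 11) (.e (nat_lit 336025) (nat_lit 3) (.e (nat_lit 98373) (nat_lit 29) (.e (nat_lit 450587) (nat_lit 10) (.e (nat_lit 573475) (nat_lit 12) (.e (nat_lit 65280) (nat_lit 57) .nil)))))) (.g (nat_lit 5) .nil .nil))) 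
(.lf (nat_lit 445437) (.g (nat_lit 2987) (.e (nat_lit 794637) (nat_lit 11) (.e (nat_lit 336059) (nat_lit 7) (.e (nat_lit 319534) (nat_lit 16) (.e (nat_lit 286756) (nat_lit 10) (.e (nat_lit 344160) (nat_lit 37) (.e (nat_lit 647201) (nat_lit 12) (.e (nat_lit 65280) (nat_lit 57) .nil))))))) (.g (nat_lit 4) .nil .nil))))))) (.nd (nat_lit 2) (.nd (nat_lit 3) (.nd (nat_lit 4) (.nd (nat_lit 5) 
(.lf (nat_lit 445379) (.g (nat_lit 3449) (.e (nat_lit 794637) (nat_lit 11) (.e (nat_lit 336021) (nat_lit 3) (.e (nat_lit 98359) (nat_lit 26) (.e (nat_lit 426286) (nat_lit 10) (.e (nat_lit 434248) (nat_lit 28) (.e (nat_lit 573475) (nat_lit 12) (.e (nat_lit 65280) (nat_lit 57) .nil))))))) (.g (nat_lit 5) .nil .nil))) 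
(.lf (nat_lit 445411) (.g (nat_lit 1779) (.e (nat_lit 794637) (nat_lit 11) (.e (nat_lit 336026) (nat_lit 3) (.e (nat_lit 98372) (nat_lit 29) (.e (nat_lit 450586) (nat_lit 10) (.e (nat_lit 573478) (nat_lit 12) (.e (nat_lit 65280) (nat_lit 57) .nil)))))) (.g (nat_lit 5) .nil .nil)))) (.nd (nat_lit 5) 
(.lf (nat_lit 445395) (.g (nat_lit 2989) (.e (nat_lit 794637) (nat_lit 11) (.e (nat_lit 336021) (nat_lit 3) (.e (nat_lit 98374) (nat_lit 29) (.e (nat_lit 450586) (nat_lit 10) (.e (nat_lit 573475) (nat_lit 12) (.e (nat_lit 65280) (nat_lit 57) .nil)))))) (.g (nat_lit 5) .nil .nil))) 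
(.lf (nat_lit 445427) (.g (nat_lit 2405) (.e (nat_lit 794637) (nat_lit 11) (.e (nat_lit 336027) (nat_lit 3) (.e (nat_lit 98372) (nat_lit 29) (.e (nat_lit 450586) (nat_lit 10) (.e (nat_lit 573477) (nat_lit 12) (.e (nat_lit 65280) (nat_lit 57) .nil)))))) (.g (nat_lit 4) .nil .nil))))) (.nd (nat_lit 4) (.nd (nat_lit 5) 
(.lf (nat_lit 445387) (.g (nat_lit 4179) (.e (nat_lit 794637) (nat_lit 11) (.e (nat_lit 336021) (nat_lit 3) (.e (nat_lit 98372) (nat_lit 29) (.e (nat_lit 450588) (nat_lit 10) (.e (nat_lit 573475) (nat_lit 12) (.e (nat_lit 65280) (nat_lit 57) .nil)))))) (.g (nat_lit 5) .nil .nil))) 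
(.lf (nat_lit 445419) (.g (nat_lit 2082) (.e (nat_lit 794637) (nat_lit 11) (.e (nat_lit 336027) (nat_lit 3) (.e (nat_lit 98365) (nat_lit 26) (.e (nat_lit 426187) (nat_lit 9) (.e (nat_lit 426436) (nat_lit 18) (.e (nat_lit 98320) (nat_lit 17) (.e (nat_lit 3754) (nat_lit 229) .nil))))))) (.g (nat_lit 5) .nil .nil)))) (.nd (nat_lit 5) 
(.lf (nat_lit 445403) (.g (nat_lit 1896) (.e (nat_lit 794637) (nat_lit 11) (.e (nat_lit 336025) (nat_lit 3) (.e (nat_lit 98372) (nat_lit 29) (.e (nat_lit 450586) (nat_lit 10) (.e (nat_lit 573478) (nat_lit 12) (.e (nat_lit 65280) (nat_lit 57) .nil)))))) (.g (nat_lit 5) .nil .nil))) 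
(.lf (nat_lit 445435) (.g (nat_lit 453) (.e (nat_lit 794637) (nat_lit 11) (.e (nat_lit 336027) (nat_lit 3) (.e (nat_lit 98381) (nat_lit 31) .nil))) .nil))))) (.nd (nat_lit 3) (.nd (nat_lit 4) (.nd (nat_lit 5) 
(.lf (nat_lit 445383) (.g (nat_lit 2919) (.e (nat_lit 794637) (nat_lit 11) (.e (nat_lit 336021) (nat_lit 3) (.e (nat_lit 98372) (nat_lit 29) (.e (nat_lit 450586) (nat_lit 10) (.e (nat_lit 573475) (nat_lit 12) (.e (nat_lit 65280) (nat_lit 57) .nil)))))) (.g (nat_lit 5) .nil .nil))) 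
(.lf (nat_lit 445415) (.g (nat_lit 2828) (.e (nat_lit 794637) (nat_lit 11) (.e (nat_lit 336026) (nat_lit 3) (.e (nat_lit 98373) (nat_lit 29) (.e (nat_lit 450587) (nat_lit 10) (.e (nat_lit 573478) (nat_lit 12) (.e (nat_lit 65280) (nat_lit 57) .nil)))))) (.g (nat_lit 5) .nil .nil)))) (.nd (nat_lit 5) 
(.lf (nat_lit 445399) (.g (nat_lit 1213) (.e (nat_lit 794637) (nat_lit 11) (.e (nat_lit 336021) (nat_lit 3) (.e (nat_lit 98382) (nat_lit 31) .nil))) .nil)) 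
(.lf (nat_lit 445431) (.g (nat_lit 3266) (.e (nat_lit 794637) (nat_lit 11) (.e (nat_lit 336027) (nat_lit 3) (.e (nat_lit 98373) (nat_lit 29) (.e (nat_lit 450587) (nat_lit 10) (.e (nat_lit 573478) (nat_lit 12) (.e (nat_lit 65280) (nat_lit 57) .nil)))))) (.g (nat_lit 5) .nil .nil))))) (.nd (nat_lit 4) (.nd (nat_lit 5) 
(.lf (nat_lit 445391) (.g (nat_lit 3444) (.e (nat_lit 794637) (nat_lit 11) (.e (nat_lit 336021) (nat_lit 3) (.e (nat_lit 98373) (nat_lit 29) (.e (nat_lit 450587) (nat_lit 10) (.e (nat_lit 573478) (nat_lit 12) (.e (nat_lit 65280) (nat_lit 57) .nil)))))) (.g (nat_lit 5) .nil .nil))) 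
(.lf (nat_lit 445423) (.g (nat_lit 1073) (.e (nat_lit 794637) (nat_lit 11) (.e (nat_lit 336027) (nat_lit 3) (.e (nat_lit 98369) (nat_lit 28) (.e (nat_lit 450304) (nat_lit 3) .nil)))) .nil))) (.nd (nat_lit 5) 
(.lf (nat_lit 445407) (.g (nat_lit 3323) (.e (nat_lit 794637) (nat_lit 11) (.e (nat_lit 336025) (nat_lit 3) (.e (nat_lit 98373) (nat_lit 29) (.e (nat_lit 450588) (nat_lit 10) (.e (nat_lit 573473) (nat_lit 12) (.e (nat_lit 65280) (nat_lit 57) .nil)))))) (.g (nat_lit 5) .nil .nil))) 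
(.lf (nat_lit 445439) (.g (nat_lit 797) (.e (nat_lit 794637) (nat_lit 11) (.e (nat_lit 336076) (nat_lit 9) (.e (nat_lit 336436) (nat_lit 31) (.e (nat_lit 466688) (nat_lit 5) .nil)))) .nil))))))))

noncomputable def tv5481 : DT := (.nd (nat_lit 0) (.nd (nat_lit 1) (.nd (nat_lit 2) (.nd (nat_lit 3) (.nd (nat_lit 4) (.nd (nat_lit 5) 
(.lf (nat_lit 445440) (.g (nat_lit 830) (.e (nat_lit 794637) (nat_lit 11) (.e (nat_lit 336076) (nat_lit 9) (.e (nat_lit 336438) (nat_lit 31) (.e (nat_lit 466688) (nat_lit 4) .nil)))) .nil)) 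
(.lf (nat_lit 445472) (.g (nat_lit 1857) (.e (nat_lit 794637) (nat_lit 11) (.e (nat_lit 336088) (nat_lit 9) (.e (nat_lit 336000) (nat_lit 1) (.e (nat_lit 57683) (nat_lit 155) (.e (nat_lit 122919) (nat_lit 15) (.e (nat_lit 368384) (nat_lit 24) .nil)))))) (.g (nat_lit 5) .nil .nil)))) (.nd (nat_lit 5) 
(.lf (nat_lit 445456) (.g (nat_lit 1768) (.e (nat_lit 794637) (nat_lit 11) (.e (nat_lit 336086) (nat_lit 9) (.e (nat_lit 336438) (nat_lit 31) (.e (nat_lit 458769) (nat_lit 16) (.e (nat_lit 164289) (nat_lit 224) (.e (nat_lit 164112) (nat_lit 118) .nil)))))) (.g (nat_lit 0) .nil .nil))) 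
(.lf (nat_lit 445488) (.g (nat_lit 1880) (.e (nat_lit 794637) (nat_lit 11) (.e (nat_lit 336088) (nat_lit 9) (.e (nat_lit 336443) (nat_lit 32) (.e (nat_lit 466969) (nat_lit 21) (.e (nat_lit 164325) (nat_lit 230) .nil))))) .nil)))) (.nd (nat_lit 4) (.nd (nat_lit 5) 
(.lf (nat_lit 445448) (.g (nat_lit 739) (.e (nat_lit 794637) (nat_lit 11) (.e (nat_lit 336078) (nat_lit 9) (.e (nat_lit 336439) (nat_lit 31) (.e (nat_lit 466688) (nat_lit 5) .nil)))) .nil)) 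
(.lf (nat_lit 445480) (.g (nat_lit 471) (.e (nat_lit 794637) (nat_lit 11) (.e (nat_lit 336088) (nat_lit 9) (.e (nat_lit 336436) (nat_lit 31) .nil))) .nil))) (.nd (nat_lit 5) 
(.lf (nat_lit 445464) (.g (nat_lit 1429) (.e (nat_lit 794637) (nat_lit 11) (.e (nat_lit 336087) (nat_lit 9) (.e (nat_lit 336000) (nat_lit 1) (.e (nat_lit 57684) (nat_lit 155) (.e (nat_lit 122919) (nat_lit 15) (.e (nat_lit 368384) (nat_lit 24) .nil)))))) (.g (nat_lit 5) .nil .nil))) 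
(.lf (nat_lit 445496) (.g (nat_lit 2333) (.e (nat_lit 794637) (nat_lit 11) (.e (nat_lit 336088) (nat_lit 9) (.e (nat_lit 336443) (nat_lit 32) (.e (nat_lit 466969) (nat_lit 21) (.e (nat_lit 164329) (nat_lit 230) (.e (nat_lit 163843) (nat_lit 0) (.e (nat_lit 3757) (nat_lit 229) .nil))))))) (.g (nat_lit 4) .nil .nil)))))) (.nd (nat_lit 3) (.nd (nat_lit 4) (.nd (nat_lit 5) 
(.lf (nat_lit 445444) (.g (nat_lit 1835) (.e (nat_lit 794637) (nat_lit 11) (.e (nat_lit 336076) (nat_lit 9) (.e (nat_lit 336438) (nat_lit 31) (.e (nat_lit 458769) (nat_lit 16) (.e (nat_lit 164292) (nat_lit 224) (.e (nat_lit 164112) (nat_lit 118) .nil)))))) (.g (nat_lit 0) .nil .nil))) 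
(.lf (nat_lit 445476) (.g (nat_lit 2583) (.e (nat_lit 794637) (nat_lit 11) (.e (nat_lit 336088) (nat_lit 9) (.e (nat_lit 336369) (nat_lit 27) (.e (nat_lit 426025) (nat_lit 0) (.e (nat_lit 7107) (nat_lit 380) .nil))))) .nil))) (.nd (nat_lit 5) 
(.lf (nat_lit 445460) (.g (nat_lit 2004) (.e (nat_lit 794637) (nat_lit 11) (.e (nat_lit 336087) (nat_lit 9) (.e (nat_lit 336000) (nat_lit 1) (.e (nat_lit 57681) (nat_lit 155) (.e (nat_lit 122917) (nat_lit 15) (.e (nat_lit 368384) (nat_lit 24) .nil)))))) (.g (nat_lit 5) .nil .nil))) 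
(.lf (nat_lit 445492) (.g (nat_lit 3400) (.e (nat_lit 794637) (nat_lit 11) (.e (nat_lit 336088) (nat_lit 9) (.e (nat_lit 336443) (nat_lit 32) (.e (nat_lit 466969) (nat_lit 21) (.e (nat_lit 164325) (nat_lit 230) (.e (nat_lit 163849) (nat_lit 0) (.e (nat_lit 3773) (nat_lit 229) .nil))))))) (.g (nat_lit 5) .nil .nil))))) (.nd (nat_lit 4) (.nd (nat_lit 5) 
(.lf (nat_lit 445452) (.g (nat_lit 532) (.e (nat_lit 794637) (nat_lit 11) (.e (nat_lit 336086) (nat_lit 9) (.e (nat_lit 336414) (nat_lit 27) .nil))) .nil)) 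
(.lf (nat_lit 445484) (.g (nat_lit 1916) (.e (nat_lit 794637) (nat_lit 11) (.e (nat_lit 336088) (nat_lit 9) (.e (nat_lit 336438) (nat_lit 31) (.e (nat_lit 458769) (nat_lit 16) (.e (nat_lit 164292) (nat_lit 224) (.e (nat_lit 164112) (nat_lit 118) .nil)))))) (.g (nat_lit 0) .nil .nil)))) (.nd (nat_lit 5) 
(.lf (nat_lit 445468) (.g (nat_lit 2587) (.e (nat_lit 794637) (nat_lit 11) (.e (nat_lit 336088) (nat_lit 9) (.e (nat_lit 335878) (nat_lit 0) (.e (nat_lit 2283) (nat_lit 150) (.e (nat_lit 770071) (nat_lit 8) (.e (nat_lit 65617) (nat_lit 10) (.e (nat_lit 352000) (nat_lit 46) .nil))))))) (.g (nat_lit 6) .nil .nil))) 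
(.lf (nat_lit 445500) (.g (nat_lit 3404) (.e (nat_lit 794637) (nat_lit 11) (.e (nat_lit 336088) (nat_lit 9) (.e (nat_lit 336443) (nat_lit 32) (.e (nat_lit 466969) (nat_lit 21) (.e (nat_lit 164330) (nat_lit 230) (.e (nat_lit 163843) (nat_lit 0) (.e (nat_lit 3773) (nat_lit 229) .nil))))))) (.g (nat_lit 5) .nil .nil))))))) (.nd (nat_lit 2) (.nd (nat_lit 3) (.nd (nat_lit 4) (.nd (nat_lit 5) 
(.lf (nat_lit 445442) (.g (nat_lit 1884) (.e (nat_lit 794637) (nat_lit 11) (.e (nat_lit 336076) (nat_lit 9) (.e (nat_lit 336438) (nat_lit 31) (.e (nat_lit 458769) (nat_lit 16) (.e (nat_lit 164289) (nat_lit 224) (.e (nat_lit 164112) (nat_lit 118) .nil)))))) (.g (nat_lit 0) .nil .nil))) 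
(.lf (nat_lit 445474) (.g (nat_lit 1700) (.e (nat_lit 794637) (nat_lit 11) (.e (nat_lit 336088) (nat_lit 9) (.e (nat_lit 336000) (nat_lit 1) (.e (nat_lit 57684) (nat_lit 155) (.e (nat_lit 122919) (nat_lit 15) (.e (nat_lit 368384) (nat_lit 24) .nil)))))) (.g (nat_lit 5) .nil .nil)))) (.nd (nat_lit 5) 
(.lf (nat_lit 445458) (.g (nat_lit 1725) (.e (nat_lit 794637) (nat_lit 11) (.e (nat_lit 336086) (nat_lit 9) (.e (nat_lit 336438) (nat_lit 31) (.e (nat_lit 458769) (nat_lit 16) (.e (nat_lit 164292) (nat_lit 224) (.e (nat_lit 164112) (nat_lit 118) .nil)))))) (.g (nat_lit 0) .nil .nil))) 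
(.lf (nat_lit 445490) (.g (nat_lit 2145) (.e (nat_lit 794637) (nat_lit 11) (.e (nat_lit 336088) (nat_lit 9) (.e (nat_lit 336443) (nat_lit 32) (.e (nat_lit 466969) (nat_lit 21) (.e (nat_lit 164325) (nat_lit 230) (.e (nat_lit 163843) (nat_lit 0) (.e (nat_lit 3773) (nat_lit 229) .nil))))))) (.g (nat_lit 4) .nil .nil))))) (.nd (nat_lit 4) (.nd (nat_lit 5) 
(.lf (nat_lit 445450) (.g (nat_lit 1414) (.e (nat_lit 794637) (nat_lit 11) (.e (nat_lit 336084) (nat_lit 9) (.e (nat_lit 336438) (nat_lit 31) (.e (nat_lit 458769) (nat_lit 16) (.e (nat_lit 164287) (nat_lit 224) (.e (nat_lit 164112) (nat_lit 118) .nil)))))) (.g (nat_lit 0) .nil .nil))) 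
(.lf (nat_lit 445482) (.g (nat_lit 1901) (.e (nat_lit 794637) (nat_lit 11) (.e (nat_lit 336088) (nat_lit 9) (.e (nat_lit 336438) (nat_lit 31) (.e (nat_lit 458769) (nat_lit 16) (.e (nat_lit 164287) (nat_lit 224) (.e (nat_lit 164112) (nat_lit 118) .nil)))))) (.g (nat_lit 0) .nil .nil)))) (.nd (nat_lit 5) 
(.lf (nat_lit 445466) (.g (nat_lit 3088) (.e (nat_lit 794637) (nat_lit 11) (.e (nat_lit 336087) (nat_lit 9) (.e (nat_lit 336369) (nat_lit 27) (.e (nat_lit 426173) (nat_lit 7) (.e (nat_lit 409618) (nat_lit 10) .nil))))) .nil)) 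
(.lf (nat_lit 445498) (.g (nat_lit 2192) (.e (nat_lit 794637) (nat_lit 11) (.e (nat_lit 336088) (nat_lit 9) (.e (nat_lit 336443) (nat_lit 32) (.e (nat_lit 466969) (nat_lit 21) (.e (nat_lit 164330) (nat_lit 230) .nil))))) .nil))))) (.nd (nat_lit 3) (.nd (nat_lit 4) (.nd (nat_lit 5) 
(.lf (nat_lit 445446) (.g (nat_lit 552) (.e (nat_lit 794637) (nat_lit 11) (.e (nat_lit 336078) (nat_lit 9) (.e (nat_lit 336414) (nat_lit 27) .nil))) .nil)) 
(.lf (nat_lit 445478) (.g (nat_lit 749) (.e (nat_lit 794637) (nat_lit 11) (.e (nat_lit 336088) (nat_lit 9) (.e (nat_lit 336374) (nat_lit 27) (.e (nat_lit 426084) (nat_lit 0) .nil)))) .nil))) (.nd (nat_lit 5) 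
(.lf (nat_lit 445462) (.g (nat_lit 1579) (.e (nat_lit 794637) (nat_lit 11) (.e (nat_lit 336087) (nat_lit 9) (.e (nat_lit 336000) (nat_lit 1) (.e (nat_lit 57683) (nat_lit 155) (.e (nat_lit 122919) (nat_lit 15) (.e (nat_lit 368384) (nat_lit 24) .nil)))))) (.g (nat_lit 5) .nil .nil))) 
(.lf (nat_lit 445494) (.g (nat_lit 2856) (.e (nat_lit 794637) (nat_lit 11) (.e (nat_lit 336088) (nat_lit 9) (.e (nat_lit 336443) (nat_lit 32) (.e (nat_lit 466969) (nat_lit 21) (.e (nat_lit 164327) (nat_lit 230) (.e (nat_lit 163849) (nat_lit 0) (.e (nat_lit 3773) (nat_lit 229) .nil))))))) (.g (nat_lit 5) .nil .nil))))) (.nd (nat_lit 4) (.nd (nat_lit 5) 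
(.lf (nat_lit 445454) (.g (nat_lit 753) (.e (nat_lit 794637) (nat_lit 11) (.e (nat_lit 336086) (nat_lit 9) (.e (nat_lit 336438) (nat_lit 31) (.e (nat_lit 466688) (nat_lit 4) .nil)))) .nil)) 
(.lf (nat_lit 445486) (.g (nat_lit 1325) (.e (nat_lit 794637) (nat_lit 11) (.e (nat_lit 336088) (nat_lit 9) (.e (nat_lit 336443) (nat_lit 32) (.e (nat_lit 466969) (nat_lit 21) .nil)))) .nil))) (.nd (nat_lit 5) 
(.lf (nat_lit 445470) (.g (nat_lit 2322) (.e (nat_lit 794637) (nat_lit 11) (.e (nat_lit 336088) (nat_lit 9) (.e (nat_lit 336000) (nat_lit 1) (.e (nat_lit 57681) (nat_lit 155) (.e (nat_lit 122917) (nat_lit 15) (.e (nat_lit 368384) (nat_lit 24) .nil)))))) (.g (nat_lit 5) .nil .nil))) 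
(.lf (nat_lit 445502) (.g (nat_lit 2109) (.e (nat_lit 794637) (nat_lit 11) (.e (nat_lit 336088) (nat_lit 9) (.e (nat_lit 336443) (nat_lit 32) (.e (nat_lit 466969) (nat_lit 21) (.e (nat_lit 164332) (nat_lit 230) .nil))))) .nil))))))) (.nd (nat_lit 1) (.nd (nat_lit 2) (.nd (nat_lit 3) (.nd (nat_lit 4) (.nd (nat_lit 5) 
(.lf (nat_lit 445441) (.g (nat_lit 1819) (.e (nat_lit 794637) (nat_lit 11) (.e (nat_lit 336076) (nat_lit 9) (.e (nat_lit 336438) (nat_lit 31) (.e (nat_lit 458769) (nat_lit 16) (.e (nat_lit 164287) (nat_lit 224) (.e (nat_lit 164112) (nat_lit 118) .nil)))))) (.g (nat_lit 0) .nil .nil))) 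
(.lf (nat_lit 445473) (.g (nat_lit 1708) (.e (nat_lit 794637) (nat_lit 11) (.e (nat_lit 336088) (nat_lit 9) (.e (nat_lit 336000) (nat_lit 1) (.e (nat_lit 57684) (nat_lit 155) (.e (nat_lit 122917) (nat_lit 15) (.e (nat_lit 368384) (nat_lit 24) .nil)))))) (.g (nat_lit 5) .nil .nil)))) (.nd (nat_lit 5) 
(.lf (nat_lit 445457) (.g (nat_lit 1766) (.e (nat_lit 794637) (nat_lit 11) (.e (nat_lit 336086) (nat_lit 9) (.e (nat_lit 336438) (nat_lit 31) (.e (nat_lit 458769) (nat_lit 16) (.e (nat_lit 164291) (nat_lit 224) (.e (nat_lit 164112) (nat_lit 118) .nil)))))) (.g (nat_lit 0) .nil .nil))) 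
(.lf (nat_lit 445489) (.g (nat_lit 2337) (.e (nat_lit 794637) (nat_lit 11) (.e (nat_lit 336088) (nat_lit 9) (.e (nat_lit 336443) (nat_lit 32) (.e (nat_lit 466969) (nat_lit 21) (.e (nat_lit 164325) (nat_lit 230) (.e (nat_lit 163841) (nat_lit 0) (.e (nat_lit 3773) (nat_lit 229) .nil))))))) (.g (nat_lit 4) .nil .nil))))) (.nd (nat_lit 4) (.nd (nat_lit 5) 
(.lf (nat_lit 445449) (.g (nat_lit 1618) (.e (nat_lit 794637) (nat_lit 11) (.e (nat_lit 336078) (nat_lit 9) (.e (nat_lit 336443) (nat_lit 32) (.e (nat_lit 466969) (nat_lit 21) (.e (nat_lit 164325) (nat_lit 230) .nil))))) .nil)) 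
(.lf (nat_lit 445481) (.g (nat_lit 876) (.e (nat_lit 794637) (nat_lit 11) (.e (nat_lit 336088) (nat_lit 9) (.e (nat_lit 336438) (nat_lit 31) (.e (nat_lit 466688) (nat_lit 4) .nil)))) .nil))) (.nd (nat_lit 5) 
(.lf (nat_lit 445465) (.g (nat_lit 2317) (.e (nat_lit 794637) (nat_lit 11) (.e (nat_lit 336087) (nat_lit 9) (.e (nat_lit 336369) (nat_lit 27) (.e (nat_lit 426025) (nat_lit 0) (.e (nat_lit 7107) (nat_lit 380) .nil))))) .nil)) 
(.lf (nat_lit 445497) (.g (nat_lit 2942) (.e (nat_lit 794637) (nat_lit 11) (.e (nat_lit 336088) (nat_lit 9) (.e (nat_lit 336443) (nat_lit 32) (.e (nat_lit 466969) (nat_lit 21) (.e (nat_lit 164329) (nat_lit 230) (.e (nat_lit 163843) (nat_lit 0) (.e (nat_lit 3773) (nat_lit 229) .nil))))))) (.g (nat_lit 5) .nil .nil)))))) (.nd (nat_lit 3) (.nd (nat_lit 4) (.nd (nat_lit 5) 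
(.lf (nat_lit 445445) (.g (nat_lit 1858) (.e (nat_lit 794637) (nat_lit 11) (.e (nat_lit 336076) (nat_lit 9) (.e (nat_lit 336438) (nat_lit 31) (.e (nat_lit 458769) (nat_lit 16) (.e (nat_lit 164294) (nat_lit 224) (.e (nat_lit 164112) (nat_lit 118) .nil)))))) (.g (nat_lit 0) .nil .nil))) 
(.lf (nat_lit 445477) (.g (nat_lit 3248) (.e (nat_lit 794637) (nat_lit 11) (.e (nat_lit 336088) (nat_lit 9) (.e (nat_lit 336369) (nat_lit 27) (.e (nat_lit 426173) (nat_lit 7) (.e (nat_lit 409618) (nat_lit 10) .nil))))) .nil))) (.nd (nat_lit 5) 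
(.lf (nat_lit 445461) (.g (nat_lit 1889) (.e (nat_lit 794637) (nat_lit 11) (.e (nat_lit 336087) (nat_lit 9) (.e (nat_lit 336000) (nat_lit 1) (.e (nat_lit 57683) (nat_lit 155) (.e (nat_lit 122917) (nat_lit 15) (.e (nat_lit 368384) (nat_lit 24) .nil)))))) (.g (nat_lit 5) .nil .nil))) 
(.lf (nat_lit 445493) (.g (nat_lit 2249) (.e (nat_lit 794637) (nat_lit 11) (.e (nat_lit 336088) (nat_lit 9) (.e (nat_lit 336443) (nat_lit 32) (.e (nat_lit 466969) (nat_lit 21) (.e (nat_lit 164327) (nat_lit 230) (.e (nat_lit 163843) (nat_lit 0) (.e (nat_lit 3773) (nat_lit 229) .nil))))))) (.g (nat_lit 4) .nil .nil))))) (.nd (nat_lit 4) (.nd (nat_lit 5) 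
(.lf (nat_lit 445453) (.g (nat_lit 1106) (.e (nat_lit 794637) (nat_lit 11) (.e (nat_lit 336086) (nat_lit 9) (.e (nat_lit 336414) (nat_lit 27) (.e (nat_lit 425984) (nat_lit 0) .nil)))) .nil)) 
(.lf (nat_lit 445485) (.g (nat_lit 1939) (.e (nat_lit 794637) (nat_lit 11) (.e (nat_lit 336088) (nat_lit 9) (.e (nat_lit 336438) (nat_lit 31) (.e (nat_lit 458769) (nat_lit 16) (.e (nat_lit 164294) (nat_lit 224) (.e (nat_lit 164112) (nat_lit 118) .nil)))))) (.g (nat_lit 0) .nil .nil)))) (.nd (nat_lit 5) 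
(.lf (nat_lit 445469) (.g (nat_lit 2326) (.e (nat_lit 794637) (nat_lit 11) (.e (nat_lit 336088) (nat_lit 9) (.e (nat_lit 335878) (nat_lit 0) (.e (nat_lit 2283) (nat_lit 150) (.e (nat_lit 770072) (nat_lit 8) (.e (nat_lit 65598) (nat_lit 9) (.e (nat_lit 335891) (nat_lit 0) (.e (nat_lit 2362) (nat_lit 153) .nil)))))))) (.g (nat_lit 5) .nil .nil))) 
(.lf (nat_lit 445501) (.g (nat_lit 2523) (.e (nat_lit 794637) (nat_lit 11) (.e (nat_lit 336088) (nat_lit 9) (.e (nat_lit 336443) (nat_lit 32) (.e (nat_lit 466969) (nat_lit 21) (.e (nat_lit 164331) (nat_lit 230) (.e (nat_lit 163843) (nat_lit 0) (.e (nat_lit 3773) (nat_lit 229) .nil))))))) (.g (nat_lit 4) .nil .nil))))))) (.nd (nat_lit 2) (.nd (nat_lit 3) (.nd (nat_lit 4) (.nd (nat_lit 5) 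
(.lf (nat_lit 445443) (.g (nat_lit 1881) (.e (nat_lit 794637) (nat_lit 11) (.e (nat_lit 336076) (nat_lit 9) (.e (nat_lit 336438) (nat_lit 31) (.e (nat_lit 458769) (nat_lit 16) (.e (nat_lit 164291) (nat_lit 224) (.e (nat_lit 164112) (nat_lit 118) .nil)))))) (.g (nat_lit 0) .nil .nil))) 
(.lf (nat_lit 445475) (.g (nat_lit 842) (.e (nat_lit 794637) (nat_lit 11) (.e (nat_lit 336088) (nat_lit 9) (.e (nat_lit 336362) (nat_lit 26) (.e (nat_lit 417794) (nat_lit 0) .nil)))) .nil))) (.nd (nat_lit 5) 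
(.lf (nat_lit 445459) (.g (nat_lit 1745) (.e (nat_lit 794637) (nat_lit 11) (.e (nat_lit 336086) (nat_lit 9) (.e (nat_lit 336438) (nat_lit 31) (.e (nat_lit 458769) (nat_lit 16) (.e (nat_lit 164294) (nat_lit 224) (.e (nat_lit 164112) (nat_lit 118) .nil)))))) (.g (nat_lit 0) .nil .nil))) 
(.lf (nat_lit 445491) (.g (nat_lit 3435) (.e (nat_lit 794637) (nat_lit 11) (.e (nat_lit 336088) (nat_lit 9) (.e (nat_lit 336443) (nat_lit 32) (.e (nat_lit 466969) (nat_lit 21) (.e (nat_lit 164325) (nat_lit 230) (.e (nat_lit 163844) (nat_lit 0) (.e (nat_lit 3757) (nat_lit 229) .nil))))))) (.g (nat_lit 6) .nil .nil))))) (.nd (nat_lit 4) (.nd (nat_lit 5) 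
(.lf (nat_lit 445451) (.g (nat_lit 2338) (.e (nat_lit 794637) (nat_lit 11) (.e (nat_lit 336086) (nat_lit 9) (.e (nat_lit 336369) (nat_lit 27) (.e (nat_lit 426025) (nat_lit 0) (.e (nat_lit 7107) (nat_lit 380) .nil))))) .nil)) 
(.lf (nat_lit 445483) (.g (nat_lit 1968) (.e (nat_lit 794637) (nat_lit 11) (.e (nat_lit 336088) (nat_lit 9) (.e (nat_lit 336438) (nat_lit 31) (.e (nat_lit 458769) (nat_lit 16) (.e (nat_lit 164289) (nat_lit 224) (.e (nat_lit 164112) (nat_lit 118) .nil)))))) (.g (nat_lit 0) .nil .nil)))) (.nd (nat_lit 5) 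
(.lf (nat_lit 445467) (.g (nat_lit 2661) (.e (nat_lit 794637) (nat_lit 11) (.e (nat_lit 336088) (nat_lit 9) (.e (nat_lit 335878) (nat_lit 0) (.e (nat_lit 2283) (nat_lit 150) (.e (nat_lit 770071) (nat_lit 8) (.e (nat_lit 65598) (nat_lit 9) (.e (nat_lit 335891) (nat_lit 0) (.e (nat_lit 2362) (nat_lit 153) .nil)))))))) (.g (nat_lit 6) .nil .nil))) 
(.lf (nat_lit 445499) (.g (nat_lit 2697) (.e (nat_lit 794637) (nat_lit 11) (.e (nat_lit 336088) (nat_lit 9) (.e (nat_lit 336443) (nat_lit 32) (.e (nat_lit 466969) (nat_lit 21) (.e (nat_lit 164330) (nat_lit 230) (.e (nat_lit 163843) (nat_lit 0) (.e (nat_lit 3757) (nat_lit 229) .nil))))))) (.g (nat_lit 4) .nil .nil)))))) (.nd (nat_lit 3) (.nd (nat_lit 4) (.nd (nat_lit 5) 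
(.lf (nat_lit 445447) (.g (nat_lit 349) (.e (nat_lit 794637) (nat_lit 11) (.e (nat_lit 336078) (nat_lit 9) (.e (nat_lit 336436) (nat_lit 31) .nil))) .nil)) 
(.lf (nat_lit 445479) (.g (nat_lit 530) (.e (nat_lit 794637) (nat_lit 11) (.e (nat_lit 336088) (nat_lit 9) (.e (nat_lit 336383) (nat_lit 27) .nil))) .nil))) (.nd (nat_lit 5) 
(.lf (nat_lit 445463) (.g (nat_lit 1436) (.e (nat_lit 794637) (nat_lit 11) (.e (nat_lit 336087) (nat_lit 9) (.e (nat_lit 336000) (nat_lit 1) (.e (nat_lit 57684) (nat_lit 155) (.e (nat_lit 122917) (nat_lit 15) (.e (nat_lit 368384) (nat_lit 24) .nil)))))) (.g (nat_lit 5) .nil .nil))) 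
(.lf (nat_lit 445495) (.g (nat_lit 2094) (.e (nat_lit 794637) (nat_lit 11) (.e (nat_lit 336088) (nat_lit 9) (.e (nat_lit 336443) (nat_lit 32) (.e (nat_lit 466969) (nat_lit 21) (.e (nat_lit 164329) (nat_lit 230) .nil))))) .nil)))) (.nd (nat_lit 4) (.nd (nat_lit 5) 
(.lf (nat_lit 445455) (.g (nat_lit 1705) (.e (nat_lit 794637) (nat_lit 11) (.e (nat_lit 336086) (nat_lit 9) (.e (nat_lit 336438) (nat_lit 31) (.e (nat_lit 458769) (nat_lit 16) (.e (nat_lit 164287) (nat_lit 224) (.e (nat_lit 164112) (nat_lit 118) .nil)))))) (.g (nat_lit 0) .nil .nil))) 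
(.lf (nat_lit 445487) (.g (nat_lit 2734) (.e (nat_lit 794637) (nat_lit 11) (.e (nat_lit 336088) (nat_lit 9) (.e (nat_lit 336443) (nat_lit 32) (.e (nat_lit 466969) (nat_lit 21) (.e (nat_lit 164305) (nat_lit 226) (.e (nat_lit 2612) (nat_lit 163) (.e (nat_lit 164059) (nat_lit 57) .nil))))))) (.g (nat_lit 4) .nil .nil)))) (.nd (nat_lit 5) 
(.lf (nat_lit 445471) (.g (nat_lit 2169) (.e (nat_lit 794637) (nat_lit 11) (.e (nat_lit 336088) (nat_lit 9) (.e (nat_lit 336000) (nat_lit 1) (.e (nat_lit 57683) (nat_lit 155) (.e (nat_lit 122917) (nat_lit 15) (.e (nat_lit 368384) (nat_lit 24) .nil)))))) (.g (nat_lit 5) .nil .nil))) 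
(.lf (nat_lit 445503) (.g (nat_lit 3352) (.e (nat_lit 794637) (nat_lit 11) (.e (nat_lit 336088) (nat_lit 9) (.e (nat_lit 336443) (nat_lit 32) (.e (nat_lit 466969) (nat_lit 21) (.e (nat_lit 164332) (nat_lit 230) (.e (nat_lit 163843) (nat_lit 0) (.e (nat_lit 3757) (nat_lit 229) .nil))))))) (.g (nat_lit 5) .nil .nil)))))))))

noncomputable def tv5482 : DT := (.nd (nat_lit 0) (.nd (nat_lit 1) (.nd (nat_lit 2) (.nd (nat_lit 3) (.nd (nat_lit 4) (.nd (nat_lit 5) 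
(.lf (nat_lit 445504) (.g (nat_lit 4021) (.e (nat_lit 794637) (nat_lit 11) (.e (nat_lit 336088) (nat_lit 9) (.e (nat_lit 336443) (nat_lit 32) (.e (nat_lit 466969) (nat_lit 21) (.e (nat_lit 164332) (nat_lit 230) (.e (nat_lit 163843) (nat_lit 0) (.e (nat_lit 3773) (nat_lit 229) .nil))))))) (.g (nat_lit 6) .nil .nil))) 
(.lf (nat_lit 445536) (.g (nat_lit 1455) (.e (nat_lit 794637) (nat_lit 11) (.e (nat_lit 336184) (nat_lit 11) (.e (nat_lit 368662) (nat_lit 18) (.e (nat_lit 7273) (nat_lit 385) (.e (nat_lit 122917) (nat_lit 15) (.e (nat_lit 368384) (nat_lit 24) .nil)))))) (.g (nat_lit 5) .nil .nil)))) (.nd (nat_lit 5) 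
(.lf (nat_lit 445520) (.g (nat_lit 2403) (.e (nat_lit 794637) (nat_lit 11) (.e (nat_lit 336088) (nat_lit 9) (.e (nat_lit 336443) (nat_lit 32) (.e (nat_lit 466972) (nat_lit 21) (.e (nat_lit 164329) (nat_lit 230) (.e (nat_lit 163843) (nat_lit 0) (.e (nat_lit 3757) (nat_lit 229) .nil))))))) (.g (nat_lit 4) .nil .nil))) 
(.lf (nat_lit 445552) (.g (nat_lit 2136) (.e (nat_lit 794637) (nat_lit 11) (.e (nat_lit 336213) (nat_lit 13) (.e (nat_lit 393232) (nat_lit 17) (.e (nat_lit 7591) (nat_lit 407) (.e (nat_lit 81664) (nat_lit 28) .nil))))) (.g (nat_lit 4) .nil .nil))))) (.nd (nat_lit 4) (.nd (nat_lit 5) 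
(.lf (nat_lit 445512) (.g (nat_lit 3059) (.e (nat_lit 794637) (nat_lit 11) (.e (nat_lit 336088) (nat_lit 9) (.e (nat_lit 336443) (nat_lit 32) (.e (nat_lit 466971) (nat_lit 21) (.e (nat_lit 164325) (nat_lit 230) (.e (nat_lit 163844) (nat_lit 0) (.e (nat_lit 3757) (nat_lit 229) .nil))))))) (.g (nat_lit 5) .nil .nil))) 
(.lf (nat_lit 445544) (.g (nat_lit 913) (.e (nat_lit 794637) (nat_lit 11) (.e (nat_lit 336194) (nat_lit 12) (.e (nat_lit 385038) (nat_lit 16) .nil))) .nil))) (.nd (nat_lit 5) 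
(.lf (nat_lit 445528) (.g (nat_lit 3428) (.e (nat_lit 794637) (nat_lit 11) (.e (nat_lit 336088) (nat_lit 9) (.e (nat_lit 336443) (nat_lit 32) (.e (nat_lit 466972) (nat_lit 21) (.e (nat_lit 164332) (nat_lit 230) (.e (nat_lit 163843) (nat_lit 0) (.e (nat_lit 3757) (nat_lit 229) .nil))))))) (.g (nat_lit 5) .nil .nil))) 
(.lf (nat_lit 445560) (.g (nat_lit 932) (.e (nat_lit 794637) (nat_lit 11) (.e (nat_lit 336213) (nat_lit 13) (.e (nat_lit 393240) (nat_lit 17) .nil))) .nil))))) (.nd (nat_lit 3) (.nd (nat_lit 4) (.nd (nat_lit 5) 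
(.lf (nat_lit 445508) (.g (nat_lit 1397) (.e (nat_lit 794637) (nat_lit 11) (.e (nat_lit 336088) (nat_lit 9) (.e (nat_lit 336443) (nat_lit 32) (.e (nat_lit 466971) (nat_lit 21) .nil)))) .nil)) 
(.lf (nat_lit 445540) (.g (nat_lit 1984) (.e (nat_lit 794637) (nat_lit 11) (.e (nat_lit 336186) (nat_lit 11) (.e (nat_lit 368662) (nat_lit 18) (.e (nat_lit 7272) (nat_lit 385) (.e (nat_lit 122919) (nat_lit 15) (.e (nat_lit 368384) (nat_lit 24) .nil)))))) (.g (nat_lit 5) .nil .nil)))) (.nd (nat_lit 5) 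
(.lf (nat_lit 445524) (.g (nat_lit 3717) (.e (nat_lit 794637) (nat_lit 11) (.e (nat_lit 336088) (nat_lit 9) (.e (nat_lit 336443) (nat_lit 32) (.e (nat_lit 466972) (nat_lit 21) (.e (nat_lit 164330) (nat_lit 230) (.e (nat_lit 163843) (nat_lit 0) (.e (nat_lit 3773) (nat_lit 229) .nil))))))) (.g (nat_lit 5) .nil .nil))) 
(.lf (nat_lit 445556) (.g (nat_lit 2066) (.e (nat_lit 794637) (nat_lit 11) (.e (nat_lit 336213) (nat_lit 13) (.e (nat_lit 393234) (nat_lit 17) (.e (nat_lit 7591) (nat_lit 407) (.e (nat_lit 81664) (nat_lit 28) .nil))))) (.g (nat_lit 4) .nil .nil))))) (.nd (nat_lit 4) (.nd (nat_lit 5) 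
(.lf (nat_lit 445516) (.g (nat_lit 2803) (.e (nat_lit 794637) (nat_lit 11) (.e (nat_lit 336088) (nat_lit 9) (.e (nat_lit 336443) (nat_lit 32) (.e (nat_lit 466971) (nat_lit 21) (.e (nat_lit 164327) (nat_lit 230) (.e (nat_lit 163849) (nat_lit 0) (.e (nat_lit 3773) (nat_lit 229) .nil))))))) (.g (nat_lit 5) .nil .nil))) 
(.lf (nat_lit 445548) (.g (nat_lit 886) (.e (nat_lit 794637) (nat_lit 11) (.e (nat_lit 336204) (nat_lit 12) (.e (nat_lit 385038) (nat_lit 16) .nil))) .nil))) (.nd (nat_lit 5) 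
(.lf (nat_lit 445532) (.g (nat_lit 3168) (.e (nat_lit 794637) (nat_lit 11) (.e (nat_lit 336088) (nat_lit 9) (.e (nat_lit 336443) (nat_lit 32) (.e (nat_lit 466972) (nat_lit 21) (.e (nat_lit 164332) (nat_lit 230) (.e (nat_lit 163847) (nat_lit 0) (.e (nat_lit 3757) (nat_lit 229) .nil))))))) (.g (nat_lit 5) .nil .nil))) 
(.lf (nat_lit 445564) (.g (nat_lit 2269) (.e (nat_lit 794637) (nat_lit 11) (.e (nat_lit 336213) (nat_lit 13) (.e (nat_lit 393299) (nat_lit 27) (.e (nat_lit 491558) (nat_lit 10) (.e (nat_lit 352000) (nat_lit 46) .nil))))) (.g (nat_lit 4) .nil .nil))))))) (.nd (nat_lit 2) (.nd (nat_lit 3) (.nd (nat_lit 4) (.nd (nat_lit 5) 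
(.lf (nat_lit 445506) (.g (nat_lit 3098) (.e (nat_lit 794637) (nat_lit 11) (.e (nat_lit 336088) (nat_lit 9) (.e (nat_lit 336443) (nat_lit 32) (.e (nat_lit 466969) (nat_lit 21) (.e (nat_lit 164332) (nat_lit 230) (.e (nat_lit 163847) (nat_lit 0) (.e (nat_lit 3757) (nat_lit 229) .nil))))))) (.g (nat_lit 5) .nil .nil))) 
(.lf (nat_lit 445538) (.g (nat_lit 1300) (.e (nat_lit 794637) (nat_lit 11) (.e (nat_lit 336186) (nat_lit 11) (.e (nat_lit 368662) (nat_lit 18) (.e (nat_lit 7271) (nat_lit 385) (.e (nat_lit 122917) (nat_lit 15) (.e (nat_lit 368384) (nat_lit 24) .nil)))))) (.g (nat_lit 4) .nil .nil)))) (.nd (nat_lit 5) 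
(.lf (nat_lit 445522) (.g (nat_lit 2434) (.e (nat_lit 794637) (nat_lit 11) (.e (nat_lit 336088) (nat_lit 9) (.e (nat_lit 336443) (nat_lit 32) (.e (nat_lit 466972) (nat_lit 21) (.e (nat_lit 164330) (nat_lit 230) .nil))))) .nil)) 
(.lf (nat_lit 445554) (.g (nat_lit 2041) (.e (nat_lit 794637) (nat_lit 11) (.e (nat_lit 336213) (nat_lit 13) (.e (nat_lit 393233) (nat_lit 17) (.e (nat_lit 7591) (nat_lit 407) (.e (nat_lit 81664) (nat_lit 28) .nil))))) (.g (nat_lit 4) .nil .nil))))) (.nd (nat_lit 4) (.nd (nat_lit 5) 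
(.lf (nat_lit 445514) (.g (nat_lit 3245) (.e (nat_lit 794637) (nat_lit 11) (.e (nat_lit 336088) (nat_lit 9) (.e (nat_lit 336443) (nat_lit 32) (.e (nat_lit 466971) (nat_lit 21) (.e (nat_lit 164325) (nat_lit 230) (.e (nat_lit 163849) (nat_lit 0) (.e (nat_lit 3773) (nat_lit 229) .nil))))))) (.g (nat_lit 5) .nil .nil))) 
(.lf (nat_lit 445546) (.g (nat_lit 1241) (.e (nat_lit 794637) (nat_lit 11) (.e (nat_lit 336196) (nat_lit 12) (.e (nat_lit 392960) (nat_lit 16) (.e (nat_lit 1349) (nat_lit 102) (.e (nat_lit 286748) (nat_lit 9) (.e (nat_lit 335891) (nat_lit 0) (.e (nat_lit 2362) (nat_lit 153) .nil))))))) (.g (nat_lit 4) .nil .nil)))) (.nd (nat_lit 5) 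
(.lf (nat_lit 445530) (.g (nat_lit 4075) (.e (nat_lit 794637) (nat_lit 11) (.e (nat_lit 336088) (nat_lit 9) (.e (nat_lit 336443) (nat_lit 32) (.e (nat_lit 466972) (nat_lit 21) (.e (nat_lit 164332) (nat_lit 230) (.e (nat_lit 163843) (nat_lit 0) (.e (nat_lit 3773) (nat_lit 229) .nil))))))) (.g (nat_lit 6) .nil .nil))) 
(.lf (nat_lit 445562) (.g (nat_lit 1473) (.e (nat_lit 794637) (nat_lit 11) (.e (nat_lit 336213) (nat_lit 13) (.e (nat_lit 393265) (nat_lit 22) (.e (nat_lit 417817) (nat_lit 10) .nil)))) .nil))))) (.nd (nat_lit 3) (.nd (nat_lit 4) (.nd (nat_lit 5) 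
(.lf (nat_lit 445510) (.g (nat_lit 2436) (.e (nat_lit 794637) (nat_lit 11) (.e (nat_lit 336088) (nat_lit 9) (.e (nat_lit 336443) (nat_lit 32) (.e (nat_lit 466971) (nat_lit 21) (.e (nat_lit 164325) (nat_lit 230) (.e (nat_lit 163841) (nat_lit 0) (.e (nat_lit 3757) (nat_lit 229) .nil))))))) (.g (nat_lit 4) .nil .nil))) 
(.lf (nat_lit 445542) (.g (nat_lit 1575) (.e (nat_lit 794637) (nat_lit 11) (.e (nat_lit 336186) (nat_lit 11) (.e (nat_lit 368662) (nat_lit 18) (.e (nat_lit 7273) (nat_lit 385) (.e (nat_lit 122919) (nat_lit 15) (.e (nat_lit 368384) (nat_lit 24) .nil)))))) (.g (nat_lit 5) .nil .nil)))) (.nd (nat_lit 5) 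
(.lf (nat_lit 445526) (.g (nat_lit 2646) (.e (nat_lit 794637) (nat_lit 11) (.e (nat_lit 336088) (nat_lit 9) (.e (nat_lit 336443) (nat_lit 32) (.e (nat_lit 466972) (nat_lit 21) (.e (nat_lit 164331) (nat_lit 230) (.e (nat_lit 163843) (nat_lit 0) (.e (nat_lit 3773) (nat_lit 229) .nil))))))) (.g (nat_lit 4) .nil .nil))) 
(.lf (nat_lit 445558) (.g (nat_lit 932) (.e (nat_lit 794637) (nat_lit 11) (.e (nat_lit 336213) (nat_lit 13) (.e (nat_lit 393236) (nat_lit 17) .nil))) .nil)))) (.nd (nat_lit 4) (.nd (nat_lit 5) 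
(.lf (nat_lit 445518) (.g (nat_lit 2435) (.e (nat_lit 794637) (nat_lit 11) (.e (nat_lit 336088) (nat_lit 9) (.e (nat_lit 336443) (nat_lit 32) (.e (nat_lit 466972) (nat_lit 21) (.e (nat_lit 164305) (nat_lit 226) .nil))))) .nil)) 
(.lf (nat_lit 445550) (.g (nat_lit 1563) (.e (nat_lit 794637) (nat_lit 11) (.e (nat_lit 336213) (nat_lit 13) (.e (nat_lit 393231) (nat_lit 17) (.e (nat_lit 7591) (nat_lit 407) (.e (nat_lit 81664) (nat_lit 28) .nil))))) (.g (nat_lit 4) .nil .nil)))) (.nd (nat_lit 5) 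
(.lf (nat_lit 445534) (.g (nat_lit 2020) (.e (nat_lit 794637) (nat_lit 11) (.e (nat_lit 336184) (nat_lit 11) (.e (nat_lit 368662) (nat_lit 18) (.e (nat_lit 7272) (nat_lit 385) (.e (nat_lit 122917) (nat_lit 15) (.e (nat_lit 368384) (nat_lit 24) .nil)))))) (.g (nat_lit 5) .nil .nil))) 
(.lf (nat_lit 445566) (.g (nat_lit 2127) (.e (nat_lit 794637) (nat_lit 11) (.e (nat_lit 336213) (nat_lit 13) (.e (nat_lit 393300) (nat_lit 27) (.e (nat_lit 491558) (nat_lit 10) (.e (nat_lit 352000) (nat_lit 46) .nil))))) (.g (nat_lit 4) .nil .nil)))))))) (.nd (nat_lit 1) (.nd (nat_lit 2) (.nd (nat_lit 3) (.nd (nat_lit 4) (.nd (nat_lit 5) 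
(.lf (nat_lit 445505) (.g (nat_lit 2745) (.e (nat_lit 794637) (nat_lit 11) (.e (nat_lit 336088) (nat_lit 9) (.e (nat_lit 336443) (nat_lit 32) (.e (nat_lit 466969) (nat_lit 21) (.e (nat_lit 164332) (nat_lit 230) (.e (nat_lit 163843) (nat_lit 0) (.e (nat_lit 3774) (nat_lit 229) .nil))))))) (.g (nat_lit 4) .nil .nil))) 
(.lf (nat_lit 445537) (.g (nat_lit 1472) (.e (nat_lit 794637) (nat_lit 11) (.e (nat_lit 336184) (nat_lit 11) (.e (nat_lit 368662) (nat_lit 18) (.e (nat_lit 7273) (nat_lit 385) (.e (nat_lit 122919) (nat_lit 15) (.e (nat_lit 368384) (nat_lit 24) .nil)))))) (.g (nat_lit 5) .nil .nil)))) (.nd (nat_lit 5) 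
(.lf (nat_lit 445521) (.g (nat_lit 3012) (.e (nat_lit 794637) (nat_lit 11) (.e (nat_lit 336088) (nat_lit 9) (.e (nat_lit 336443) (nat_lit 32) (.e (nat_lit 466972) (nat_lit 21) (.e (nat_lit 164329) (nat_lit 230) (.e (nat_lit 163843) (nat_lit 0) (.e (nat_lit 3773) (nat_lit 229) .nil))))))) (.g (nat_lit 5) .nil .nil))) 
(.lf (nat_lit 445553) (.g (nat_lit 2210) (.e (nat_lit 794637) (nat_lit 11) (.e (nat_lit 336213) (nat_lit 13) (.e (nat_lit 393232) (nat_lit 17) (.e (nat_lit 7593) (nat_lit 407) (.e (nat_lit 81664) (nat_lit 28) .nil))))) (.g (nat_lit 4) .nil .nil))))) (.nd (nat_lit 4) (.nd (nat_lit 5) 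
(.lf (nat_lit 445513) (.g (nat_lit 2866) (.e (nat_lit 794637) (nat_lit 11) (.e (nat_lit 336088) (nat_lit 9) (.e (nat_lit 336443) (nat_lit 32) (.e (nat_lit 466971) (nat_lit 21) (.e (nat_lit 164325) (nat_lit 230) (.e (nat_lit 163844) (nat_lit 0) (.e (nat_lit 3771) (nat_lit 229) .nil))))))) (.g (nat_lit 5) .nil .nil))) 
(.lf (nat_lit 445545) (.g (nat_lit 913) (.e (nat_lit 794637) (nat_lit 11) (.e (nat_lit 336194) (nat_lit 12) (.e (nat_lit 385039) (nat_lit 18) .nil))) .nil))) (.nd (nat_lit 5) 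
(.lf (nat_lit 445529) (.g (nat_lit 2869) (.e (nat_lit 794637) (nat_lit 11) (.e (nat_lit 336088) (nat_lit 9) (.e (nat_lit 336443) (nat_lit 32) (.e (nat_lit 466972) (nat_lit 21) (.e (nat_lit 164332) (nat_lit 230) (.e (nat_lit 163843) (nat_lit 0) (.e (nat_lit 3771) (nat_lit 229) .nil))))))) (.g (nat_lit 4) .nil .nil))) 
(.lf (nat_lit 445561) (.g (nat_lit 642) (.e (nat_lit 794637) (nat_lit 11) (.e (nat_lit 336213) (nat_lit 13) (.e (nat_lit 393241) (nat_lit 17) (.e (nat_lit 7936) (nat_lit 407) .nil)))) .nil))))) (.nd (nat_lit 3) (.nd (nat_lit 4) (.nd (nat_lit 5) 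
(.lf (nat_lit 445509) (.g (nat_lit 1933) (.e (nat_lit 794637) (nat_lit 11) (.e (nat_lit 336088) (nat_lit 9) (.e (nat_lit 336443) (nat_lit 32) (.e (nat_lit 466971) (nat_lit 21) (.e (nat_lit 164325) (nat_lit 230) .nil))))) .nil)) 
(.lf (nat_lit 445541) (.g (nat_lit 1557) (.e (nat_lit 794637) (nat_lit 11) (.e (nat_lit 336186) (nat_lit 11) (.e (nat_lit 368662) (nat_lit 18) (.e (nat_lit 7273) (nat_lit 385) (.e (nat_lit 122917) (nat_lit 15) (.e (nat_lit 368384) (nat_lit 24) .nil)))))) (.g (nat_lit 5) .nil .nil)))) (.nd (nat_lit 5) 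
(.lf (nat_lit 445525) (.g (nat_lit 2184) (.e (nat_lit 794637) (nat_lit 11) (.e (nat_lit 336088) (nat_lit 9) (.e (nat_lit 336443) (nat_lit 32) (.e (nat_lit 466972) (nat_lit 21) (.e (nat_lit 164331) (nat_lit 230) .nil))))) .nil)) 
(.lf (nat_lit 445557) (.g (nat_lit 1990) (.e (nat_lit 794637) (nat_lit 11) (.e (nat_lit 336213) (nat_lit 13) (.e (nat_lit 393234) (nat_lit 17) (.e (nat_lit 7593) (nat_lit 407) (.e (nat_lit 81664) (nat_lit 28) .nil))))) (.g (nat_lit 4) .nil .nil))))) (.nd (nat_lit 4) (.nd (nat_lit 5) 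
(.lf (nat_lit 445517) (.g (nat_lit 1517) (.e (nat_lit 794637) (nat_lit 11) (.e (nat_lit 336088) (nat_lit 9) (.e (nat_lit 336443) (nat_lit 32) (.e (nat_lit 466972) (nat_lit 21) .nil)))) .nil)) 
(.lf (nat_lit 445549) (.g (nat_lit 1083) (.e (nat_lit 794637) (nat_lit 11) (.e (nat_lit 336212) (nat_lit 13) (.e (nat_lit 393301) (nat_lit 27) (.e (nat_lit 491558) (nat_lit 10) .nil)))) .nil))) (.nd (nat_lit 5) 
(.lf (nat_lit 445533) (.g (nat_lit 2805) (.e (nat_lit 794637) (nat_lit 11) (.e (nat_lit 336088) (nat_lit 9) (.e (nat_lit 336443) (nat_lit 32) (.e (nat_lit 466972) (nat_lit 21) (.e (nat_lit 164332) (nat_lit 230) (.e (nat_lit 163847) (nat_lit 0) (.e (nat_lit 3773) (nat_lit 229) .nil))))))) (.g (nat_lit 4) .nil .nil))) 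
(.lf (nat_lit 445565) (.g (nat_lit 2355) (.e (nat_lit 794637) (nat_lit 11) (.e (nat_lit 336213) (nat_lit 13) (.e (nat_lit 393299) (nat_lit 27) (.e (nat_lit 491560) (nat_lit 10) (.e (nat_lit 352000) (nat_lit 46) .nil))))) (.g (nat_lit 4) .nil .nil))))))) (.nd (nat_lit 2) (.nd (nat_lit 3) (.nd (nat_lit 4) (.nd (nat_lit 5) 
(.lf (nat_lit 445507) (.g (nat_lit 2751) (.e (nat_lit 794637) (nat_lit 11) (.e (nat_lit 336088) (nat_lit 9) (.e (nat_lit 336443) (nat_lit 32) (.e (nat_lit 466969) (nat_lit 21) (.e (nat_lit 164332) (nat_lit 230) (.e (nat_lit 163847) (nat_lit 0) (.e (nat_lit 3773) (nat_lit 229) .nil))))))) (.g (nat_lit 4) .nil .nil))) 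
(.lf (nat_lit 445539) (.g (nat_lit 2178) (.e (nat_lit 794637) (nat_lit 11) (.e (nat_lit 336186) (nat_lit 11) (.e (nat_lit 368662) (nat_lit 18) (.e (nat_lit 7272) (nat_lit 385) (.e (nat_lit 122917) (nat_lit 15) (.e (nat_lit 368384) (nat_lit 24) .nil)))))) (.g (nat_lit 5) .nil .nil)))) (.nd (nat_lit 5) 
(.lf (nat_lit 445523) (.g (nat_lit 3005) (.e (nat_lit 794637) (nat_lit 11) (.e (nat_lit 336088) (nat_lit 9) (.e (nat_lit 336443) (nat_lit 32) (.e (nat_lit 466972) (nat_lit 21) (.e (nat_lit 164330) (nat_lit 230) (.e (nat_lit 163843) (nat_lit 0) (.e (nat_lit 3757) (nat_lit 229) .nil))))))) (.g (nat_lit 4) .nil .nil))) 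
(.lf (nat_lit 445555) (.g (nat_lit 2069) (.e (nat_lit 794637) (nat_lit 11) (.e (nat_lit 336213) (nat_lit 13) (.e (nat_lit 393233) (nat_lit 17) (.e (nat_lit 7593) (nat_lit 407) (.e (nat_lit 81664) (nat_lit 28) .nil))))) (.g (nat_lit 4) .nil .nil))))) (.nd (nat_lit 4) (.nd (nat_lit 5) 
(.lf (nat_lit 445515) (.g (nat_lit 1811) (.e (nat_lit 794637) (nat_lit 11) (.e (nat_lit 336088) (nat_lit 9) (.e (nat_lit 336443) (nat_lit 32) (.e (nat_lit 466971) (nat_lit 21) (.e (nat_lit 164327) (nat_lit 230) .nil))))) .nil)) 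
(.lf (nat_lit 445547) (.g (nat_lit 1694) (.e (nat_lit 794637) (nat_lit 11) (.e (nat_lit 336203) (nat_lit 12) (.e (nat_lit 392960) (nat_lit 16) (.e (nat_lit 1348) (nat_lit 102) (.e (nat_lit 286748) (nat_lit 9) (.e (nat_lit 335891) (nat_lit 0) (.e (nat_lit 2362) (nat_lit 153) .nil))))))) (.g (nat_lit 5) .nil .nil)))) (.nd (nat_lit 5) 
(.lf (nat_lit 445531) (.g (nat_lit 2790) (.e (nat_lit 794637) (nat_lit 11) (.e (nat_lit 336088) (nat_lit 9) (.e (nat_lit 336443) (nat_lit 32) (.e (nat_lit 466972) (nat_lit 21) (.e (nat_lit 164332) (nat_lit 230) (.e (nat_lit 163843) (nat_lit 0) (.e (nat_lit 3774) (nat_lit 229) .nil))))))) (.g (nat_lit 4) .nil .nil))) 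
(.lf (nat_lit 445563) (.g (nat_lit 1102) (.e (nat_lit 794637) (nat_lit 11) (.e (nat_lit 336213) (nat_lit 13) (.e (nat_lit 393298) (nat_lit 27) (.e (nat_lit 491560) (nat_lit 10) .nil)))) .nil))))) (.nd (nat_lit 3) (.nd (nat_lit 4) (.nd (nat_lit 5) 
(.lf (nat_lit 445511) (.g (nat_lit 2260) (.e (nat_lit 794637) (nat_lit 11) (.e (nat_lit 336088) (nat_lit 9) (.e (nat_lit 336443) (nat_lit 32) (.e (nat_lit 466971) (nat_lit 21) (.e (nat_lit 164325) (nat_lit 230) (.e (nat_lit 163841) (nat_lit 0) (.e (nat_lit 3773) (nat_lit 229) .nil))))))) (.g (nat_lit 4) .nil .nil))) 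
(.lf (nat_lit 445543) (.g (nat_lit 722) (.e (nat_lit 794637) (nat_lit 11) (.e (nat_lit 336188) (nat_lit 11) (.e (nat_lit 368662) (nat_lit 18) (.e (nat_lit 7273) (nat_lit 385) .nil)))) .nil))) (.nd (nat_lit 5) 
(.lf (nat_lit 445527) (.g (nat_lit 2303) (.e (nat_lit 794637) (nat_lit 11) (.e (nat_lit 336088) (nat_lit 9) (.e (nat_lit 336443) (nat_lit 32) (.e (nat_lit 466972) (nat_lit 21) (.e (nat_lit 164332) (nat_lit 230) .nil))))) .nil)) 
(.lf (nat_lit 445559) (.g (nat_lit 864) (.e (nat_lit 794637) (nat_lit 11) (.e (nat_lit 336213) (nat_lit 13) (.e (nat_lit 393238) (nat_lit 17) .nil))) .nil)))) (.nd (nat_lit 4) (.nd (nat_lit 5) 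
(.lf (nat_lit 445519) (.g (nat_lit 2227) (.e (nat_lit 794637) (nat_lit 11) (.e (nat_lit 336088) (nat_lit 9) (.e (nat_lit 336443) (nat_lit 32) (.e (nat_lit 466972) (nat_lit 21) (.e (nat_lit 164329) (nat_lit 230) .nil))))) .nil)) 
(.lf (nat_lit 445551) (.g (nat_lit 1782) (.e (nat_lit 794637) (nat_lit 11) (.e (nat_lit 336213) (nat_lit 13) (.e (nat_lit 393231) (nat_lit 17) (.e (nat_lit 7593) (nat_lit 407) (.e (nat_lit 81664) (nat_lit 28) .nil))))) (.g (nat_lit 4) .nil .nil)))) (.nd (nat_lit 5) 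
(.lf (nat_lit 445535) (.g (nat_lit 1821) (.e (nat_lit 794637) (nat_lit 11) (.e (nat_lit 336184) (nat_lit 11) (.e (nat_lit 368662) (nat_lit 18) (.e (nat_lit 7272) (nat_lit 385) (.e (nat_lit 122919) (nat_lit 15) (.e (nat_lit 368384) (nat_lit 24) .nil)))))) (.g (nat_lit 5) .nil .nil))) 
(.lf (nat_lit 445567) (.g (nat_lit 2258) (.e (nat_lit 794637) (nat_lit 11) (.e (nat_lit 336213) (nat_lit 13) (.e (nat_lit 393300) (nat_lit 27) (.e (nat_lit 491560) (nat_lit 10) (.e (nat_lit 352000) (nat_lit 46) .nil))))) (.g (nat_lit 4) .nil .nil)))))))))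

noncomputable def tv5483 : DT := (.nd (nat_lit 0) (.nd (nat_lit 1) (.nd (nat_lit 2) (.nd (nat_lit 3) (.nd (nat_lit 4) (.nd (nat_lit 5) (.nd (nat_lit 6) 
(.lf (nat_lit 445568) (.g (nat_lit 3114) (.e (nat_lit 794637) (nat_lit 11) (.e (nat_lit 336213) (nat_lit 13) (.e (nat_lit 393301) (nat_lit 27) (.e (nat_lit 491558) (nat_lit 10) (.e (nat_lit 352000) (nat_lit 46) .nil))))) (.g (nat_lit 4) .nil .nil))) 
(.lf (nat_lit 445632) (.g (nat_lit 1209) (.e (nat_lit 794637) (nat_lit 11) (.e (nat_lit 336223) (nat_lit 13) (.e (nat_lit 393243) (nat_lit 17) .nil))) .nil))) (.nd (nat_lit 6) 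
(.lf (nat_lit 445600) (.g (nat_lit 2228) (.e (nat_lit 794637) (nat_lit 11) (.e (nat_lit 336220) (nat_lit 13) (.e (nat_lit 393301) (nat_lit 27) (.e (nat_lit 491560) (nat_lit 10) (.e (nat_lit 352000) (nat_lit 46) .nil))))) (.g (nat_lit 4) .nil .nil))) 
(.lf (nat_lit 445664) (.g (nat_lit 2030) (.e (nat_lit 802560) (nat_lit 11) (.e (nat_lit 336223) (nat_lit 13) (.e (nat_lit 393301) (nat_lit 27) (.e (nat_lit 491560) (nat_lit 10) (.e (nat_lit 352000) (nat_lit 46) .nil))))) .nil)))) (.nd (nat_lit 5) (.nd (nat_lit 6) 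
(.lf (nat_lit 445584) (.g (nat_lit 2079) (.e (nat_lit 794637) (nat_lit 11) (.e (nat_lit 336215) (nat_lit 13) (.e (nat_lit 393281) (nat_lit 23) (.e (nat_lit 426099) (nat_lit 1) (.e (nat_lit 164332) (nat_lit 230) (.e (nat_lit 163843) (nat_lit 0) (.e (nat_lit 3773) (nat_lit 229) .nil))))))) (.g (nat_lit 4) .nil .nil))) 
(.lf (nat_lit 445648) (.g (nat_lit 1992) (.e (nat_lit 794637) (nat_lit 11) (.e (nat_lit 336223) (nat_lit 13) (.e (nat_lit 393300) (nat_lit 27) (.e (nat_lit 491560) (nat_lit 10) (.e (nat_lit 352000) (nat_lit 46) .nil))))) (.g (nat_lit 4) .nil .nil)))) (.nd (nat_lit 6) 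
(.lf (nat_lit 445616) (.g (nat_lit 1972) (.e (nat_lit 794637) (nat_lit 11) (.e (nat_lit 336222) (nat_lit 13) (.e (nat_lit 393299) (nat_lit 27) (.e (nat_lit 491560) (nat_lit 10) (.e (nat_lit 352000) (nat_lit 46) .nil))))) .nil)) 
(.lf (nat_lit 445680) (.g (nat_lit 253) (.e (nat_lit 802560) (nat_lit 13) (.e (nat_lit 352264) (nat_lit 0) (.e (nat_lit 7089) (nat_lit 379) (.e (nat_lit 123214) (nat_lit 275) (.e (nat_lit 81664) (nat_lit 28) .nil))))) .nil))))) (.nd (nat_lit 4) (.nd (nat_lit 5) (.nd (nat_lit 6) 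
(.lf (nat_lit 445576) (.g (nat_lit 705) (.e (nat_lit 794637) (nat_lit 11) (.e (nat_lit 336215) (nat_lit 13) (.e (nat_lit 393235) (nat_lit 17) .nil))) .nil)) 
(.lf (nat_lit 445640) (.g (nat_lit 1930) (.e (nat_lit 794637) (nat_lit 11) (.e (nat_lit 336223) (nat_lit 13) (.e (nat_lit 393264) (nat_lit 22) (.e (nat_lit 417817) (nat_lit 10) (.e (nat_lit 5024) (nat_lit 290) (.e (nat_lit 164112) (nat_lit 118) .nil)))))) (.g (nat_lit 4) .nil .nil)))) (.nd (nat_lit 6) 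
(.lf (nat_lit 445608) (.g (nat_lit 1032) (.e (nat_lit 794637) (nat_lit 11) (.e (nat_lit 336222) (nat_lit 13) (.e (nat_lit 393238) (nat_lit 17) (.e (nat_lit 7099) (nat_lit 380) .nil)))) .nil)) 
(.lf (nat_lit 445672) (.g (nat_lit 150) (.e (nat_lit 802560) (nat_lit 13) (.e (nat_lit 352257) (nat_lit 0) (.e (nat_lit 7079) (nat_lit 378) (.e (nat_lit 57898) (nat_lit 275) (.e (nat_lit 81664) (nat_lit 28) .nil))))) .nil)))) (.nd (nat_lit 5) (.nd (nat_lit 6) 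
(.lf (nat_lit 445592) (.g (nat_lit 1658) (.e (nat_lit 794637) (nat_lit 11) (.e (nat_lit 336220) (nat_lit 13) (.e (nat_lit 393233) (nat_lit 17) (.e (nat_lit 7591) (nat_lit 407) (.e (nat_lit 81664) (nat_lit 28) .nil))))) (.g (nat_lit 4) .nil .nil))) 
(.lf (nat_lit 445656) (.g (nat_lit 318) (.e (nat_lit 802560) (nat_lit 11) (.e (nat_lit 336178) (nat_lit 10) (.e (nat_lit 344174) (nat_lit 42) .nil))) .nil))) (.nd (nat_lit 6) 
(.lf (nat_lit 445624) (.g (nat_lit 2402) (.e (nat_lit 794637) (nat_lit 11) (.e (nat_lit 336223) (nat_lit 13) (.e (nat_lit 393234) (nat_lit 17) (.e (nat_lit 7591) (nat_lit 407) (.e (nat_lit 81664) (nat_lit 28) .nil))))) (.g (nat_lit 4) .nil .nil))) 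
(.lf (nat_lit 445688) (.g (nat_lit 564) (.e (nat_lit 802560) (nat_lit 13) (.e (nat_lit 352272) (nat_lit 10) (.e (nat_lit 417793) (nat_lit 0) (.e (nat_lit 5412) (nat_lit 303) (.e (nat_lit 81664) (nat_lit 28) .nil))))) .nil)))))) (.nd (nat_lit 3) (.nd (nat_lit 4) (.nd (nat_lit 5) (.nd (nat_lit 6) 
(.lf (nat_lit 445572) (.g (nat_lit 1488) (.e (nat_lit 794637) (nat_lit 11) (.e (nat_lit 336215) (nat_lit 13) (.e (nat_lit 393231) (nat_lit 17) (.e (nat_lit 7591) (nat_lit 407) (.e (nat_lit 81664) (nat_lit 28) .nil))))) (.g (nat_lit 4) .nil .nil))) 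
(.lf (nat_lit 445636) (.g (nat_lit 1164) (.e (nat_lit 794637) (nat_lit 11) (.e (nat_lit 336223) (nat_lit 13) (.e (nat_lit 393247) (nat_lit 17) .nil))) .nil))) (.nd (nat_lit 6) 
(.lf (nat_lit 445604) (.g (nat_lit 2098) (.e (nat_lit 794637) (nat_lit 11) (.e (nat_lit 336221) (nat_lit 13) (.e (nat_lit 393301) (nat_lit 27) (.e (nat_lit 491560) (nat_lit 10) (.e (nat_lit 352000) (nat_lit 46) .nil))))) (.g (nat_lit 4) .nil .nil))) 
(.lf (nat_lit 445668) (.g (nat_lit 1142) (.e (nat_lit 802560) (nat_lit 11) (.e (nat_lit 336224) (nat_lit 13) (.e (nat_lit 393265) (nat_lit 22) (.e (nat_lit 417817) (nat_lit 10) (.e (nat_lit 5024) (nat_lit 290) .nil))))) .nil)))) (.nd (nat_lit 5) (.nd (nat_lit 6) 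
(.lf (nat_lit 445588) (.g (nat_lit 1832) (.e (nat_lit 794637) (nat_lit 11) (.e (nat_lit 336215) (nat_lit 13) (.e (nat_lit 393299) (nat_lit 27) (.e (nat_lit 491558) (nat_lit 10) (.e (nat_lit 352000) (nat_lit 46) .nil))))) (.g (nat_lit 4) .nil .nil))) 
(.lf (nat_lit 445652) (.g (nat_lit 1966) (.e (nat_lit 802560) (nat_lit 11) (.e (nat_lit 336011) (nat_lit 2) (.e (nat_lit 90170) (nat_lit 13) (.e (nat_lit 172113) (nat_lit 10) .nil)))) .nil))) (.nd (nat_lit 6) 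
(.lf (nat_lit 445620) (.g (nat_lit 1763) (.e (nat_lit 794637) (nat_lit 11) (.e (nat_lit 336223) (nat_lit 13) (.e (nat_lit 393233) (nat_lit 17) (.e (nat_lit 7591) (nat_lit 407) (.e (nat_lit 81664) (nat_lit 28) .nil))))) (.g (nat_lit 4) .nil .nil))) 
(.lf (nat_lit 445684) (.g (nat_lit 198) (.e (nat_lit 802560) (nat_lit 13) (.e (nat_lit 352271) (nat_lit 9) (.e (nat_lit 409603) (nat_lit 0) (.e (nat_lit 5411) (nat_lit 303) (.e (nat_lit 81664) (nat_lit 28) .nil))))) .nil))))) (.nd (nat_lit 4) (.nd (nat_lit 5) (.nd (nat_lit 6) 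
(.lf (nat_lit 445580) (.g (nat_lit 566) (.e (nat_lit 794637) (nat_lit 11) (.e (nat_lit 336215) (nat_lit 13) (.e (nat_lit 393245) (nat_lit 17) .nil))) .nil)) 
(.lf (nat_lit 445644) (.g (nat_lit 2779) (.e (nat_lit 794637) (nat_lit 11) (.e (nat_lit 336223) (nat_lit 13) (.e (nat_lit 393281) (nat_lit 23) (.e (nat_lit 426100) (nat_lit 1) (.e (nat_lit 164332) (nat_lit 230) (.e (nat_lit 163843) (nat_lit 0) (.e (nat_lit 3773) (nat_lit 229) .nil))))))) (.g (nat_lit 6) .nil .nil)))) (.nd (nat_lit 6) 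
(.lf (nat_lit 445612) (.g (nat_lit 508) (.e (nat_lit 794637) (nat_lit 11) (.e (nat_lit 336222) (nat_lit 13) (.e (nat_lit 393239) (nat_lit 17) (.e (nat_lit 7936) (nat_lit 407) .nil)))) .nil)) 
(.lf (nat_lit 445676) (.g (nat_lit 135) (.e (nat_lit 802560) (nat_lit 13) (.e (nat_lit 352258) (nat_lit 0) (.e (nat_lit 7087) (nat_lit 379) (.e (nat_lit 123214) (nat_lit 275) (.e (nat_lit 81664) (nat_lit 28) .nil))))) .nil)))) (.nd (nat_lit 5) (.nd (nat_lit 6) 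
(.lf (nat_lit 445596) (.g (nat_lit 855) (.e (nat_lit 794637) (nat_lit 11) (.e (nat_lit 336220) (nat_lit 13) (.e (nat_lit 393238) (nat_lit 17) (.e (nat_lit 7107) (nat_lit 380) .nil)))) .nil)) 
(.lf (nat_lit 445660) (.g (nat_lit 616) (.e (nat_lit 802560) (nat_lit 11) (.e (nat_lit 336221) (nat_lit 13) (.e (nat_lit 393301) (nat_lit 27) (.e (nat_lit 491560) (nat_lit 10) .nil)))) .nil))) (.nd (nat_lit 6) 
(.lf (nat_lit 445628) (.g (nat_lit 1606) (.e (nat_lit 794637) (nat_lit 11) (.e (nat_lit 336223) (nat_lit 13) (.e (nat_lit 393238) (nat_lit 17) (.e (nat_lit 7107) (nat_lit 380) .nil)))) .nil)) 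
(.lf (nat_lit 445692) (.g (nat_lit 938) (.e (nat_lit 802560) (nat_lit 13) (.e (nat_lit 352272) (nat_lit 10) (.e (nat_lit 417795) (nat_lit 0) (.e (nat_lit 5412) (nat_lit 303) (.e (nat_lit 81664) (nat_lit 28) .nil))))) .nil))))))) (.nd (nat_lit 2) (.nd (nat_lit 3) (.nd (nat_lit 4) (.nd (nat_lit 5) (.nd (nat_lit 6) 
(.lf (nat_lit 445570) (.g (nat_lit 1166) (.e (nat_lit 794637) (nat_lit 11) (.e (nat_lit 336214) (nat_lit 13) (.e (nat_lit 393232) (nat_lit 17) (.e (nat_lit 7591) (nat_lit 407) (.e (nat_lit 81664) (nat_lit 28) .nil))))) .nil)) 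
(.lf (nat_lit 445634) (.g (nat_lit 1209) (.e (nat_lit 794637) (nat_lit 11) (.e (nat_lit 336223) (nat_lit 13) (.e (nat_lit 393245) (nat_lit 17) .nil))) .nil))) (.nd (nat_lit 6) 
(.lf (nat_lit 445602) (.g (nat_lit 1663) (.e (nat_lit 794637) (nat_lit 11) (.e (nat_lit 336221) (nat_lit 13) (.e (nat_lit 393234) (nat_lit 17) (.e (nat_lit 7593) (nat_lit 407) (.e (nat_lit 81664) (nat_lit 28) .nil))))) (.g (nat_lit 4) .nil .nil))) 
(.lf (nat_lit 445666) (.g (nat_lit 991) (.e (nat_lit 802560) (nat_lit 11) (.e (nat_lit 336224) (nat_lit 13) (.e (nat_lit 393262) (nat_lit 22) (.e (nat_lit 417817) (nat_lit 10) (.e (nat_lit 5024) (nat_lit 290) .nil))))) .nil)))) (.nd (nat_lit 5) (.nd (nat_lit 6) 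
(.lf (nat_lit 445586) (.g (nat_lit 523) (.e (nat_lit 794637) (nat_lit 11) (.e (nat_lit 336215) (nat_lit 13) (.e (nat_lit 393297) (nat_lit 27) .nil))) .nil)) 
(.lf (nat_lit 445650) (.g (nat_lit 3259) (.e (nat_lit 794637) (nat_lit 11) (.e (nat_lit 336223) (nat_lit 13) (.e (nat_lit 393301) (nat_lit 27) (.e (nat_lit 491559) (nat_lit 10) (.e (nat_lit 352000) (nat_lit 46) .nil))))) .nil))) (.nd (nat_lit 6) 
(.lf (nat_lit 445618) (.g (nat_lit 1757) (.e (nat_lit 794637) (nat_lit 11) (.e (nat_lit 336223) (nat_lit 13) (.e (nat_lit 393232) (nat_lit 17) (.e (nat_lit 7591) (nat_lit 407) (.e (nat_lit 81664) (nat_lit 28) .nil))))) .nil)) 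
(.lf (nat_lit 445682) (.g (nat_lit 552) (.e (nat_lit 802560) (nat_lit 13) (.e (nat_lit 352271) (nat_lit 9) (.e (nat_lit 409602) (nat_lit 0) (.e (nat_lit 5411) (nat_lit 303) (.e (nat_lit 81664) (nat_lit 28) .nil))))) .nil))))) (.nd (nat_lit 4) (.nd (nat_lit 5) (.nd (nat_lit 6) 
(.lf (nat_lit 445578) (.g (nat_lit 695) (.e (nat_lit 794637) (nat_lit 11) (.e (nat_lit 336215) (nat_lit 13) (.e (nat_lit 393238) (nat_lit 17) .nil))) .nil)) 
(.lf (nat_lit 445642) (.g (nat_lit 2762) (.e (nat_lit 794637) (nat_lit 11) (.e (nat_lit 336223) (nat_lit 13) (.e (nat_lit 393281) (nat_lit 23) (.e (nat_lit 426099) (nat_lit 1) (.e (nat_lit 164332) (nat_lit 230) (.e (nat_lit 163843) (nat_lit 0) (.e (nat_lit 3773) (nat_lit 229) .nil))))))) (.g (nat_lit 6) .nil .nil)))) (.nd (nat_lit 6) 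
(.lf (nat_lit 445610) (.g (nat_lit 1795) (.e (nat_lit 794637) (nat_lit 11) (.e (nat_lit 336222) (nat_lit 13) (.e (nat_lit 393238) (nat_lit 17) (.e (nat_lit 7107) (nat_lit 380) (.e (nat_lit 164284) (nat_lit 224) .nil))))) .nil)) 
(.lf (nat_lit 445674) (.g (nat_lit 115) (.e (nat_lit 802560) (nat_lit 13) (.e (nat_lit 352257) (nat_lit 0) (.e (nat_lit 7082) (nat_lit 378) (.e (nat_lit 57898) (nat_lit 275) (.e (nat_lit 81664) (nat_lit 28) .nil))))) .nil)))) (.nd (nat_lit 5) (.nd (nat_lit 6) 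
(.lf (nat_lit 445594) (.g (nat_lit 1826) (.e (nat_lit 794637) (nat_lit 11) (.e (nat_lit 336220) (nat_lit 13) (.e (nat_lit 393234) (nat_lit 17) (.e (nat_lit 7591) (nat_lit 407) (.e (nat_lit 81664) (nat_lit 28) .nil))))) (.g (nat_lit 4) .nil .nil))) 
(.lf (nat_lit 445658) (.g (nat_lit 226) (.e (nat_lit 802560) (nat_lit 11) (.e (nat_lit 336212) (nat_lit 13) (.e (nat_lit 393262) (nat_lit 22) .nil))) .nil))) (.nd (nat_lit 6) 
(.lf (nat_lit 445626) (.g (nat_lit 1209) (.e (nat_lit 794637) (nat_lit 11) (.e (nat_lit 336223) (nat_lit 13) (.e (nat_lit 393236) (nat_lit 17) .nil))) .nil)) 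
(.lf (nat_lit 445690) (.g (nat_lit 743) (.e (nat_lit 802560) (nat_lit 13) (.e (nat_lit 352272) (nat_lit 10) (.e (nat_lit 417795) (nat_lit 0) (.e (nat_lit 5409) (nat_lit 303) (.e (nat_lit 81664) (nat_lit 28) .nil))))) .nil)))))) (.nd (nat_lit 3) (.nd (nat_lit 4) (.nd (nat_lit 5) (.nd (nat_lit 6) 
(.lf (nat_lit 445574) (.g (nat_lit 1992) (.e (nat_lit 794637) (nat_lit 11) (.e (nat_lit 336215) (nat_lit 13) (.e (nat_lit 393232) (nat_lit 17) (.e (nat_lit 7591) (nat_lit 407) (.e (nat_lit 81664) (nat_lit 28) .nil))))) (.g (nat_lit 4) .nil .nil))) 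
(.lf (nat_lit 445638) (.g (nat_lit 122) (.e (nat_lit 794637) (nat_lit 11) (.e (nat_lit 336223) (nat_lit 13) (.e (nat_lit 401152) (nat_lit 17) .nil))) .nil))) (.nd (nat_lit 6) 
(.lf (nat_lit 445606) (.g (nat_lit 1855) (.e (nat_lit 794637) (nat_lit 11) (.e (nat_lit 336222) (nat_lit 13) (.e (nat_lit 393232) (nat_lit 17) (.e (nat_lit 7591) (nat_lit 407) (.e (nat_lit 81664) (nat_lit 28) .nil))))) (.g (nat_lit 4) .nil .nil))) 
(.lf (nat_lit 445670) (.g (nat_lit 1531) (.e (nat_lit 802560) (nat_lit 11) (.e (nat_lit 336224) (nat_lit 13) (.e (nat_lit 393301) (nat_lit 27) (.e (nat_lit 491560) (nat_lit 10) (.e (nat_lit 352000) (nat_lit 46) .nil))))) .nil)))) (.nd (nat_lit 5) (.nd (nat_lit 6) 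
(.lf (nat_lit 445590) (.g (nat_lit 1052) (.e (nat_lit 794637) (nat_lit 11) (.e (nat_lit 336220) (nat_lit 13) (.e (nat_lit 393231) (nat_lit 17) (.e (nat_lit 7593) (nat_lit 407) (.e (nat_lit 81664) (nat_lit 28) .nil))))) .nil)) 
(.lf (nat_lit 445654) (.g (nat_lit 2930) (.e (nat_lit 802560) (nat_lit 11) (.e (nat_lit 336011) (nat_lit 2) (.e (nat_lit 90170) (nat_lit 13) (.e (nat_lit 172113) (nat_lit 10) (.e (nat_lit 434247) (nat_lit 28) .nil))))) .nil))) (.nd (nat_lit 6) 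
(.lf (nat_lit 445622) (.g (nat_lit 1826) (.e (nat_lit 794637) (nat_lit 11) (.e (nat_lit 336223) (nat_lit 13) (.e (nat_lit 393234) (nat_lit 17) (.e (nat_lit 7110) (nat_lit 380) .nil)))) .nil)) 
(.lf (nat_lit 445686) (.g (nat_lit 141) (.e (nat_lit 802560) (nat_lit 13) (.e (nat_lit 352271) (nat_lit 9) (.e (nat_lit 409605) (nat_lit 0) (.e (nat_lit 5411) (nat_lit 303) (.e (nat_lit 81664) (nat_lit 28) .nil))))) .nil))))) (.nd (nat_lit 4) (.nd (nat_lit 5) (.nd (nat_lit 6) 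
(.lf (nat_lit 445582) (.g (nat_lit 642) (.e (nat_lit 794637) (nat_lit 11) (.e (nat_lit 336215) (nat_lit 13) (.e (nat_lit 393248) (nat_lit 17) .nil))) .nil)) 
(.lf (nat_lit 445646) (.g (nat_lit 1445) (.e (nat_lit 794637) (nat_lit 11) (.e (nat_lit 336223) (nat_lit 13) (.e (nat_lit 393298) (nat_lit 27) (.e (nat_lit 491560) (nat_lit 10) (.e (nat_lit 352000) (nat_lit 46) .nil))))) .nil))) (.nd (nat_lit 6) 
(.lf (nat_lit 445614) (.g (nat_lit 302) (.e (nat_lit 794637) (nat_lit 11) (.e (nat_lit 336222) (nat_lit 13) (.e (nat_lit 393297) (nat_lit 27) .nil))) .nil)) 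
(.lf (nat_lit 445678) (.g (nat_lit 153) (.e (nat_lit 802560) (nat_lit 13) (.e (nat_lit 352258) (nat_lit 0) (.e (nat_lit 7089) (nat_lit 379) (.e (nat_lit 123214) (nat_lit 275) (.e (nat_lit 81664) (nat_lit 28) .nil))))) .nil)))) (.nd (nat_lit 5) (.nd (nat_lit 6) 
(.lf (nat_lit 445598) (.g (nat_lit 1849) (.e (nat_lit 794637) (nat_lit 11) (.e (nat_lit 336220) (nat_lit 13) (.e (nat_lit 393300) (nat_lit 27) (.e (nat_lit 491560) (nat_lit 10) (.e (nat_lit 352000) (nat_lit 46) .nil))))) (.g (nat_lit 4) .nil .nil))) 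
(.lf (nat_lit 445662) (.g (nat_lit 1537) (.e (nat_lit 802560) (nat_lit 11) (.e (nat_lit 336223) (nat_lit 13) (.e (nat_lit 393234) (nat_lit 17) (.e (nat_lit 7593) (nat_lit 407) (.e (nat_lit 81664) (nat_lit 28) .nil))))) .nil))) (.nd (nat_lit 6) 
(.lf (nat_lit 445630) (.g (nat_lit 1209) (.e (nat_lit 794637) (nat_lit 11) (.e (nat_lit 336223) (nat_lit 13) (.e (nat_lit 393241) (nat_lit 17) .nil))) .nil)) 
(.lf (nat_lit 445694) (.g (nat_lit 1060) (.e (nat_lit 802560) (nat_lit 13) (.e (nat_lit 352272) (nat_lit 10) (.e (nat_lit 417796) (nat_lit 0) (.e (nat_lit 5409) (nat_lit 303) (.e (nat_lit 81664) (nat_lit 28) .nil))))) .nil)))))))) (.nd (nat_lit 1) (.nd (nat_lit 2) (.nd (nat_lit 3) (.nd (nat_lit 4) (.nd (nat_lit 5) (.nd (nat_lit 6) 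
(.lf (nat_lit 445569) (.g (nat_lit 3213) (.e (nat_lit 794637) (nat_lit 11) (.e (nat_lit 336213) (nat_lit 13) (.e (nat_lit 393301) (nat_lit 27) (.e (nat_lit 491560) (nat_lit 10) (.e (nat_lit 352000) (nat_lit 46) .nil))))) (.g (nat_lit 4) .nil .nil))) 
(.lf (nat_lit 445633) (.g (nat_lit 1209) (.e (nat_lit 794637) (nat_lit 11) (.e (nat_lit 336223) (nat_lit 13) (.e (nat_lit 393244) (nat_lit 17) .nil))) .nil))) (.nd (nat_lit 6) 
(.lf (nat_lit 445601) (.g (nat_lit 1787) (.e (nat_lit 794637) (nat_lit 11) (.e (nat_lit 336221) (nat_lit 13) (.e (nat_lit 393234) (nat_lit 17) (.e (nat_lit 7591) (nat_lit 407) (.e (nat_lit 81664) (nat_lit 28) .nil))))) (.g (nat_lit 4) .nil .nil))) 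
(.lf (nat_lit 445665) (.g (nat_lit 1320) (.e (nat_lit 802560) (nat_lit 11) (.e (nat_lit 336224) (nat_lit 13) (.e (nat_lit 393234) (nat_lit 17) (.e (nat_lit 7593) (nat_lit 407) (.e (nat_lit 81664) (nat_lit 28) .nil))))) .nil)))) (.nd (nat_lit 5) (.nd (nat_lit 6) 
(.lf (nat_lit 445585) (.g (nat_lit 2126) (.e (nat_lit 794637) (nat_lit 11) (.e (nat_lit 336215) (nat_lit 13) (.e (nat_lit 393281) (nat_lit 23) (.e (nat_lit 426100) (nat_lit 1) (.e (nat_lit 164332) (nat_lit 230) (.e (nat_lit 163843) (nat_lit 0) (.e (nat_lit 3773) (nat_lit 229) .nil))))))) (.g (nat_lit 4) .nil .nil))) 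
(.lf (nat_lit 445649) (.g (nat_lit 2835) (.e (nat_lit 794637) (nat_lit 11) (.e (nat_lit 336223) (nat_lit 13) (.e (nat_lit 393301) (nat_lit 27) (.e (nat_lit 491558) (nat_lit 10) (.e (nat_lit 352000) (nat_lit 46) .nil))))) (.g (nat_lit 4) .nil .nil)))) (.nd (nat_lit 6) 
(.lf (nat_lit 445617) (.g (nat_lit 1181) (.e (nat_lit 794637) (nat_lit 11) (.e (nat_lit 336223) (nat_lit 13) (.e (nat_lit 393230) (nat_lit 17) .nil))) .nil)) 
(.lf (nat_lit 445681) (.g (nat_lit 801) (.e (nat_lit 802560) (nat_lit 13) (.e (nat_lit 352271) (nat_lit 9) (.e (nat_lit 409602) (nat_lit 0) (.e (nat_lit 5407) (nat_lit 303) (.e (nat_lit 81664) (nat_lit 28) .nil))))) .nil))))) (.nd (nat_lit 4) (.nd (nat_lit 5) (.nd (nat_lit 6) 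
(.lf (nat_lit 445577) (.g (nat_lit 710) (.e (nat_lit 794637) (nat_lit 11) (.e (nat_lit 336215) (nat_lit 13) (.e (nat_lit 393236) (nat_lit 17) .nil))) .nil)) 
(.lf (nat_lit 445641) (.g (nat_lit 2350) (.e (nat_lit 794637) (nat_lit 11) (.e (nat_lit 336223) (nat_lit 13) (.e (nat_lit 393281) (nat_lit 23) (.e (nat_lit 426098) (nat_lit 1) (.e (nat_lit 164325) (nat_lit 230) (.e (nat_lit 163849) (nat_lit 0) (.e (nat_lit 3773) (nat_lit 229) .nil))))))) (.g (nat_lit 5) .nil .nil)))) (.nd (nat_lit 6) 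
(.lf (nat_lit 445609) (.g (nat_lit 1700) (.e (nat_lit 794637) (nat_lit 11) (.e (nat_lit 336222) (nat_lit 13) (.e (nat_lit 393238) (nat_lit 17) (.e (nat_lit 7101) (nat_lit 380) (.e (nat_lit 164289) (nat_lit 224) (.e (nat_lit 164112) (nat_lit 118) .nil)))))) (.g (nat_lit 4) .nil .nil))) 
(.lf (nat_lit 445673) (.g (nat_lit 167) (.e (nat_lit 802560) (nat_lit 13) (.e (nat_lit 352257) (nat_lit 0) (.e (nat_lit 7081) (nat_lit 378) (.e (nat_lit 57898) (nat_lit 275) (.e (nat_lit 81664) (nat_lit 28) .nil))))) .nil)))) (.nd (nat_lit 5) (.nd (nat_lit 6) 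
(.lf (nat_lit 445593) (.g (nat_lit 1673) (.e (nat_lit 794637) (nat_lit 11) (.e (nat_lit 336220) (nat_lit 13) (.e (nat_lit 393233) (nat_lit 17) (.e (nat_lit 7593) (nat_lit 407) (.e (nat_lit 81664) (nat_lit 28) .nil))))) (.g (nat_lit 4) .nil .nil))) 
(.lf (nat_lit 445657) (.g (nat_lit 486) (.e (nat_lit 802560) (nat_lit 11) (.e (nat_lit 336209) (nat_lit 13) (.e (nat_lit 393262) (nat_lit 22) (.e (nat_lit 417817) (nat_lit 10) .nil)))) .nil))) (.nd (nat_lit 6) 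
(.lf (nat_lit 445625) (.g (nat_lit 2272) (.e (nat_lit 794637) (nat_lit 11) (.e (nat_lit 336223) (nat_lit 13) (.e (nat_lit 393234) (nat_lit 17) (.e (nat_lit 7593) (nat_lit 407) (.e (nat_lit 81664) (nat_lit 28) .nil))))) (.g (nat_lit 4) .nil .nil))) 
(.lf (nat_lit 445689) (.g (nat_lit 568) (.e (nat_lit 802560) (nat_lit 13) (.e (nat_lit 352272) (nat_lit 10) (.e (nat_lit 417794) (nat_lit 0) (.e (nat_lit 5412) (nat_lit 303) (.e (nat_lit 81664) (nat_lit 28) .nil))))) .nil)))))) (.nd (nat_lit 3) (.nd (nat_lit 4) (.nd (nat_lit 5) (.nd (nat_lit 6) 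
(.lf (nat_lit 445573) (.g (nat_lit 1668) (.e (nat_lit 794637) (nat_lit 11) (.e (nat_lit 336215) (nat_lit 13) (.e (nat_lit 393231) (nat_lit 17) (.e (nat_lit 7593) (nat_lit 407) (.e (nat_lit 81664) (nat_lit 28) .nil))))) (.g (nat_lit 4) .nil .nil))) 
(.lf (nat_lit 445637) (.g (nat_lit 1209) (.e (nat_lit 794637) (nat_lit 11) (.e (nat_lit 336223) (nat_lit 13) (.e (nat_lit 393248) (nat_lit 17) .nil))) .nil))) (.nd (nat_lit 6) 
(.lf (nat_lit 445605) (.g (nat_lit 1078) (.e (nat_lit 794637) (nat_lit 11) (.e (nat_lit 336222) (nat_lit 13) (.e (nat_lit 393231) (nat_lit 17) (.e (nat_lit 7593) (nat_lit 407) (.e (nat_lit 81664) (nat_lit 28) .nil))))) .nil)) 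
(.lf (nat_lit 445669) (.g (nat_lit 1574) (.e (nat_lit 802560) (nat_lit 11) (.e (nat_lit 336224) (nat_lit 13) (.e (nat_lit 393301) (nat_lit 27) (.e (nat_lit 491558) (nat_lit 10) (.e (nat_lit 352000) (nat_lit 46) .nil))))) .nil)))) (.nd (nat_lit 5) (.nd (nat_lit 6) 
(.lf (nat_lit 445589) (.g (nat_lit 1788) (.e (nat_lit 794637) (nat_lit 11) (.e (nat_lit 336215) (nat_lit 13) (.e (nat_lit 393299) (nat_lit 27) (.e (nat_lit 491560) (nat_lit 10) (.e (nat_lit 352000) (nat_lit 46) .nil))))) (.g (nat_lit 4) .nil .nil))) 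
(.lf (nat_lit 445653) (.g (nat_lit 2902) (.e (nat_lit 802560) (nat_lit 11) (.e (nat_lit 336011) (nat_lit 2) (.e (nat_lit 90170) (nat_lit 13) (.e (nat_lit 172113) (nat_lit 10) (.e (nat_lit 434245) (nat_lit 28) .nil))))) .nil))) (.nd (nat_lit 6) 
(.lf (nat_lit 445621) (.g (nat_lit 1789) (.e (nat_lit 794637) (nat_lit 11) (.e (nat_lit 336223) (nat_lit 13) (.e (nat_lit 393233) (nat_lit 17) (.e (nat_lit 7593) (nat_lit 407) (.e (nat_lit 81664) (nat_lit 28) .nil))))) (.g (nat_lit 4) .nil .nil))) 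
(.lf (nat_lit 445685) (.g (nat_lit 174) (.e (nat_lit 802560) (nat_lit 13) (.e (nat_lit 352271) (nat_lit 9) (.e (nat_lit 409604) (nat_lit 0) (.e (nat_lit 5411) (nat_lit 303) (.e (nat_lit 81664) (nat_lit 28) .nil))))) .nil))))) (.nd (nat_lit 4) (.nd (nat_lit 5) (.nd (nat_lit 6) 
(.lf (nat_lit 445581) (.g (nat_lit 623) (.e (nat_lit 794637) (nat_lit 11) (.e (nat_lit 336215) (nat_lit 13) (.e (nat_lit 393247) (nat_lit 17) .nil))) .nil)) 
(.lf (nat_lit 445645) (.g (nat_lit 1050) (.e (nat_lit 794637) (nat_lit 11) (.e (nat_lit 336223) (nat_lit 13) (.e (nat_lit 393297) (nat_lit 27) .nil))) .nil))) (.nd (nat_lit 6) 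
(.lf (nat_lit 445613) (.g (nat_lit 926) (.e (nat_lit 794637) (nat_lit 11) (.e (nat_lit 336222) (nat_lit 13) (.e (nat_lit 393260) (nat_lit 21) (.e (nat_lit 417536) (nat_lit 10) .nil)))) .nil)) 
(.lf (nat_lit 445677) (.g (nat_lit 140) (.e (nat_lit 802560) (nat_lit 13) (.e (nat_lit 352258) (nat_lit 0) (.e (nat_lit 7088) (nat_lit 379) (.e (nat_lit 123214) (nat_lit 275) (.e (nat_lit 81664) (nat_lit 28) .nil))))) .nil)))) (.nd (nat_lit 5) (.nd (nat_lit 6) 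
(.lf (nat_lit 445597) (.g (nat_lit 1725) (.e (nat_lit 794637) (nat_lit 11) (.e (nat_lit 336220) (nat_lit 13) (.e (nat_lit 393300) (nat_lit 27) (.e (nat_lit 491558) (nat_lit 10) (.e (nat_lit 352000) (nat_lit 46) .nil))))) (.g (nat_lit 4) .nil .nil))) 
(.lf (nat_lit 445661) (.g (nat_lit 1826) (.e (nat_lit 802560) (nat_lit 11) (.e (nat_lit 336223) (nat_lit 13) (.e (nat_lit 393234) (nat_lit 17) (.e (nat_lit 7591) (nat_lit 407) (.e (nat_lit 81664) (nat_lit 28) .nil))))) .nil))) (.nd (nat_lit 6) 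
(.lf (nat_lit 445629) (.g (nat_lit 1209) (.e (nat_lit 794637) (nat_lit 11) (.e (nat_lit 336223) (nat_lit 13) (.e (nat_lit 393239) (nat_lit 17) .nil))) .nil)) 
(.lf (nat_lit 445693) (.g (nat_lit 528) (.e (nat_lit 802560) (nat_lit 13) (.e (nat_lit 352272) (nat_lit 10) (.e (nat_lit 417795) (nat_lit 0) (.e (nat_lit 5413) (nat_lit 303) (.e (nat_lit 81664) (nat_lit 28) .nil))))) .nil))))))) (.nd (nat_lit 2) (.nd (nat_lit 3) (.nd (nat_lit 4) (.nd (nat_lit 5) (.nd (nat_lit 6) 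
(.lf (nat_lit 445571) (.g (nat_lit 1226) (.e (nat_lit 794637) (nat_lit 11) (.e (nat_lit 336214) (nat_lit 13) (.e (nat_lit 393232) (nat_lit 17) (.e (nat_lit 7593) (nat_lit 407) (.e (nat_lit 81664) (nat_lit 28) .nil))))) .nil)) 
(.lf (nat_lit 445635) (.g (nat_lit 1336) (.e (nat_lit 794637) (nat_lit 11) (.e (nat_lit 336223) (nat_lit 13) (.e (nat_lit 393246) (nat_lit 17) (.e (nat_lit 7936) (nat_lit 407) .nil)))) .nil))) (.nd (nat_lit 6) 
(.lf (nat_lit 445603) (.g (nat_lit 2228) (.e (nat_lit 794637) (nat_lit 11) (.e (nat_lit 336221) (nat_lit 13) (.e (nat_lit 393301) (nat_lit 27) (.e (nat_lit 491558) (nat_lit 10) (.e (nat_lit 352000) (nat_lit 46) .nil))))) (.g (nat_lit 4) .nil .nil))) 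
(.lf (nat_lit 445667) (.g (nat_lit 939) (.e (nat_lit 802560) (nat_lit 11) (.e (nat_lit 336224) (nat_lit 13) (.e (nat_lit 393264) (nat_lit 22) (.e (nat_lit 417817) (nat_lit 10) (.e (nat_lit 5024) (nat_lit 290) .nil))))) .nil)))) (.nd (nat_lit 5) (.nd (nat_lit 6) 
(.lf (nat_lit 445587) (.g (nat_lit 939) (.e (nat_lit 794637) (nat_lit 11) (.e (nat_lit 336215) (nat_lit 13) (.e (nat_lit 393298) (nat_lit 27) (.e (nat_lit 491560) (nat_lit 10) .nil)))) .nil)) 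
(.lf (nat_lit 445651) (.g (nat_lit 2742) (.e (nat_lit 794637) (nat_lit 11) (.e (nat_lit 336223) (nat_lit 13) (.e (nat_lit 393301) (nat_lit 27) (.e (nat_lit 491560) (nat_lit 10) (.e (nat_lit 352000) (nat_lit 46) .nil))))) (.g (nat_lit 4) .nil .nil)))) (.nd (nat_lit 6) 
(.lf (nat_lit 445619) (.g (nat_lit 1790) (.e (nat_lit 794637) (nat_lit 11) (.e (nat_lit 336223) (nat_lit 13) (.e (nat_lit 393232) (nat_lit 17) (.e (nat_lit 7593) (nat_lit 407) (.e (nat_lit 81664) (nat_lit 28) .nil))))) .nil)) 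
(.lf (nat_lit 445683) (.g (nat_lit 375) (.e (nat_lit 802560) (nat_lit 13) (.e (nat_lit 352271) (nat_lit 9) (.e (nat_lit 409603) (nat_lit 0) (.e (nat_lit 5407) (nat_lit 303) (.e (nat_lit 81664) (nat_lit 28) .nil))))) .nil))))) (.nd (nat_lit 4) (.nd (nat_lit 5) (.nd (nat_lit 6) 
(.lf (nat_lit 445579) (.g (nat_lit 698) (.e (nat_lit 794637) (nat_lit 11) (.e (nat_lit 336215) (nat_lit 13) (.e (nat_lit 393244) (nat_lit 17) .nil))) .nil)) 
(.lf (nat_lit 445643) (.g (nat_lit 1537) (.e (nat_lit 794637) (nat_lit 11) (.e (nat_lit 336223) (nat_lit 13) (.e (nat_lit 393281) (nat_lit 23) (.e (nat_lit 426099) (nat_lit 1) (.e (nat_lit 164332) (nat_lit 230) (.e (nat_lit 163847) (nat_lit 0) (.e (nat_lit 3757) (nat_lit 229) .nil))))))) (.g (nat_lit 5) .nil .nil)))) (.nd (nat_lit 6) 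
(.lf (nat_lit 445611) (.g (nat_lit 1863) (.e (nat_lit 794637) (nat_lit 11) (.e (nat_lit 336222) (nat_lit 13) (.e (nat_lit 393238) (nat_lit 17) (.e (nat_lit 7107) (nat_lit 380) (.e (nat_lit 164289) (nat_lit 224) .nil))))) .nil)) 
(.lf (nat_lit 445675) (.g (nat_lit 92) (.e (nat_lit 802560) (nat_lit 13) (.e (nat_lit 352258) (nat_lit 0) (.e (nat_lit 7086) (nat_lit 379) (.e (nat_lit 123214) (nat_lit 275) (.e (nat_lit 81664) (nat_lit 28) .nil))))) .nil)))) (.nd (nat_lit 5) (.nd (nat_lit 6) 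
(.lf (nat_lit 445595) (.g (nat_lit 1799) (.e (nat_lit 794637) (nat_lit 11) (.e (nat_lit 336220) (nat_lit 13) (.e (nat_lit 393234) (nat_lit 17) (.e (nat_lit 7593) (nat_lit 407) (.e (nat_lit 81664) (nat_lit 28) .nil))))) (.g (nat_lit 4) .nil .nil))) 
(.lf (nat_lit 445659) (.g (nat_lit 765) (.e (nat_lit 802560) (nat_lit 11) (.e (nat_lit 336219) (nat_lit 13) (.e (nat_lit 393301) (nat_lit 27) (.e (nat_lit 491560) (nat_lit 10) .nil)))) .nil))) (.nd (nat_lit 6) 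
(.lf (nat_lit 445627) (.g (nat_lit 1072) (.e (nat_lit 794637) (nat_lit 11) (.e (nat_lit 336223) (nat_lit 13) (.e (nat_lit 393238) (nat_lit 17) .nil))) .nil)) 
(.lf (nat_lit 445691) (.g (nat_lit 581) (.e (nat_lit 802560) (nat_lit 13) (.e (nat_lit 352272) (nat_lit 10) (.e (nat_lit 417795) (nat_lit 0) (.e (nat_lit 5410) (nat_lit 303) (.e (nat_lit 81664) (nat_lit 28) .nil))))) .nil)))))) (.nd (nat_lit 3) (.nd (nat_lit 4) (.nd (nat_lit 5) (.nd (nat_lit 6) 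
(.lf (nat_lit 445575) (.g (nat_lit 2090) (.e (nat_lit 794637) (nat_lit 11) (.e (nat_lit 336215) (nat_lit 13) (.e (nat_lit 393232) (nat_lit 17) (.e (nat_lit 7593) (nat_lit 407) (.e (nat_lit 81664) (nat_lit 28) .nil))))) (.g (nat_lit 4) .nil .nil))) 
(.lf (nat_lit 445639) (.g (nat_lit 1612) (.e (nat_lit 794637) (nat_lit 11) (.e (nat_lit 336223) (nat_lit 13) (.e (nat_lit 393259) (nat_lit 21) (.e (nat_lit 409618) (nat_lit 10) .nil)))) .nil))) (.nd (nat_lit 6) 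
(.lf (nat_lit 445607) (.g (nat_lit 1957) (.e (nat_lit 794637) (nat_lit 11) (.e (nat_lit 336222) (nat_lit 13) (.e (nat_lit 393232) (nat_lit 17) (.e (nat_lit 7593) (nat_lit 407) (.e (nat_lit 81664) (nat_lit 28) .nil))))) (.g (nat_lit 4) .nil .nil))) 
(.lf (nat_lit 445671) (.g (nat_lit 165) (.e (nat_lit 802560) (nat_lit 13) (.e (nat_lit 352257) (nat_lit 0) (.e (nat_lit 7077) (nat_lit 378) (.e (nat_lit 57898) (nat_lit 275) (.e (nat_lit 81664) (nat_lit 28) .nil))))) .nil)))) (.nd (nat_lit 5) (.nd (nat_lit 6) 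
(.lf (nat_lit 445591) (.g (nat_lit 826) (.e (nat_lit 794637) (nat_lit 11) (.e (nat_lit 336220) (nat_lit 13) (.e (nat_lit 393232) (nat_lit 17) (.e (nat_lit 7591) (nat_lit 407) .nil)))) .nil)) 
(.lf (nat_lit 445655) (.g (nat_lit 2851) (.e (nat_lit 802560) (nat_lit 11) (.e (nat_lit 336011) (nat_lit 2) (.e (nat_lit 90170) (nat_lit 13) (.e (nat_lit 172113) (nat_lit 10) (.e (nat_lit 434248) (nat_lit 28) .nil))))) .nil))) (.nd (nat_lit 6) 
(.lf (nat_lit 445623) (.g (nat_lit 1790) (.e (nat_lit 794637) (nat_lit 11) (.e (nat_lit 336223) (nat_lit 13) (.e (nat_lit 393234) (nat_lit 17) (.e (nat_lit 7495) (nat_lit 402) .nil)))) .nil)) 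
(.lf (nat_lit 445687) (.g (nat_lit 196) (.e (nat_lit 802560) (nat_lit 13) (.e (nat_lit 352272) (nat_lit 10) (.e (nat_lit 417793) (nat_lit 0) .nil))) .nil))))) (.nd (nat_lit 4) (.nd (nat_lit 5) (.nd (nat_lit 6) 
(.lf (nat_lit 445583) (.g (nat_lit 632) (.e (nat_lit 794637) (nat_lit 11) (.e (nat_lit 336215) (nat_lit 13) (.e (nat_lit 393281) (nat_lit 23) .nil))) .nil)) 
(.lf (nat_lit 445647) (.g (nat_lit 1855) (.e (nat_lit 794637) (nat_lit 11) (.e (nat_lit 336223) (nat_lit 13) (.e (nat_lit 393300) (nat_lit 27) (.e (nat_lit 491558) (nat_lit 10) (.e (nat_lit 352000) (nat_lit 46) .nil))))) (.g (nat_lit 4) .nil .nil)))) (.nd (nat_lit 6) 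
(.lf (nat_lit 445615) (.g (nat_lit 1608) (.e (nat_lit 794637) (nat_lit 11) (.e (nat_lit 336222) (nat_lit 13) (.e (nat_lit 393299) (nat_lit 27) (.e (nat_lit 491558) (nat_lit 10) (.e (nat_lit 352000) (nat_lit 46) .nil))))) .nil)) 
(.lf (nat_lit 445679) (.g (nat_lit 204) (.e (nat_lit 802560) (nat_lit 13) (.e (nat_lit 352264) (nat_lit 0) (.e (nat_lit 7088) (nat_lit 379) (.e (nat_lit 123214) (nat_lit 275) (.e (nat_lit 81664) (nat_lit 28) .nil))))) .nil)))) (.nd (nat_lit 5) (.nd (nat_lit 6) 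
(.lf (nat_lit 445599) (.g (nat_lit 2334) (.e (nat_lit 794637) (nat_lit 11) (.e (nat_lit 336220) (nat_lit 13) (.e (nat_lit 393301) (nat_lit 27) (.e (nat_lit 491558) (nat_lit 10) (.e (nat_lit 352000) (nat_lit 46) .nil))))) (.g (nat_lit 4) .nil .nil))) 
(.lf (nat_lit 445663) (.g (nat_lit 2135) (.e (nat_lit 802560) (nat_lit 11) (.e (nat_lit 336223) (nat_lit 13) (.e (nat_lit 393301) (nat_lit 27) (.e (nat_lit 491558) (nat_lit 10) (.e (nat_lit 352000) (nat_lit 46) .nil))))) .nil))) (.nd (nat_lit 6) 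
(.lf (nat_lit 445631) (.g (nat_lit 1212) (.e (nat_lit 794637) (nat_lit 11) (.e (nat_lit 336223) (nat_lit 13) (.e (nat_lit 393242) (nat_lit 17) .nil))) .nil)) 
(.lf (nat_lit 445695) (.g (nat_lit 732) (.e (nat_lit 802560) (nat_lit 13) (.e (nat_lit 352272) (nat_lit 10) (.e (nat_lit 417796) (nat_lit 0) (.e (nat_lit 5410) (nat_lit 303) (.e (nat_lit 81664) (nat_lit 28) .nil))))) .nil)))))))))

noncomputable def tv5484 : DT := (.nd (nat_lit 0) (.nd (nat_lit 1) (.nd (nat_lit 2) (.nd (nat_lit 3) (.nd (nat_lit 4) (.nd (nat_lit 5) (.nd (nat_lit 6) 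
(.lf (nat_lit 445696) (.g (nat_lit 879) (.e (nat_lit 802560) (nat_lit 13) (.e (nat_lit 352272) (nat_lit 10) (.e (nat_lit 417796) (nat_lit 0) (.e (nat_lit 5412) (nat_lit 303) (.e (nat_lit 81664) (nat_lit 28) .nil))))) .nil)) 
(.lf (nat_lit 445760) (.g (nat_lit 1468) (.e (nat_lit 802560) (nat_lit 13) (.e (nat_lit 352307) (nat_lit 21) (.e (nat_lit 57682) (nat_lit 155) (.e (nat_lit 122919) (nat_lit 15) (.e (nat_lit 368384) (nat_lit 24) .nil))))) .nil))) (.nd (nat_lit 6) 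
(.lf (nat_lit 445728) (.g (nat_lit 2020) (.e (nat_lit 802560) (nat_lit 13) (.e (nat_lit 352277) (nat_lit 11) (.e (nat_lit 426011) (nat_lit 0) (.e (nat_lit 7593) (nat_lit 407) (.e (nat_lit 81664) (nat_lit 28) .nil))))) .nil)) 
(.lf (nat_lit 445792) (.g (nat_lit 540) (.e (nat_lit 802560) (nat_lit 13) (.e (nat_lit 352324) (nat_lit 26) (.e (nat_lit 147494) (nat_lit 11) .nil))) .nil)))) (.nd (nat_lit 5) (.nd (nat_lit 6) 
(.lf (nat_lit 445712) (.g (nat_lit 1582) (.e (nat_lit 802560) (nat_lit 13) (.e (nat_lit 352275) (nat_lit 11) (.e (nat_lit 426342) (nat_lit 14) (.e (nat_lit 491560) (nat_lit 10) (.e (nat_lit 352000) (nat_lit 46) .nil))))) .nil)) 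
(.lf (nat_lit 445776) (.g (nat_lit 354) (.e (nat_lit 802560) (nat_lit 13) (.e (nat_lit 352322) (nat_lit 26) (.e (nat_lit 147492) (nat_lit 11) .nil))) .nil))) (.nd (nat_lit 6) 
(.lf (nat_lit 445744) (.g (nat_lit 165) (.e (nat_lit 802560) (nat_lit 13) (.e (nat_lit 352285) (nat_lit 20) (.e (nat_lit 2375) (nat_lit 154) (.e (nat_lit 810752) (nat_lit 14) .nil)))) .nil)) 
(.lf (nat_lit 445808) (.g (nat_lit 1127) (.e (nat_lit 802560) (nat_lit 14) (.e (nat_lit 360451) (nat_lit 0) (.e (nat_lit 7125) (nat_lit 382) (.e (nat_lit 1201) (nat_lit 88) .nil)))) .nil))))) (.nd (nat_lit 4) (.nd (nat_lit 5) (.nd (nat_lit 6) 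
(.lf (nat_lit 445704) (.g (nat_lit 1292) (.e (nat_lit 802560) (nat_lit 13) (.e (nat_lit 352275) (nat_lit 11) (.e (nat_lit 426012) (nat_lit 0) (.e (nat_lit 7591) (nat_lit 407) (.e (nat_lit 81664) (nat_lit 28) .nil))))) .nil)) 
(.lf (nat_lit 445768) (.g (nat_lit 1961) (.e (nat_lit 802560) (nat_lit 13) (.e (nat_lit 352309) (nat_lit 21) (.e (nat_lit 57683) (nat_lit 155) (.e (nat_lit 122917) (nat_lit 15) (.e (nat_lit 368384) (nat_lit 24) .nil))))) .nil))) (.nd (nat_lit 6) 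
(.lf (nat_lit 445736) (.g (nat_lit 1846) (.e (nat_lit 802560) (nat_lit 13) (.e (nat_lit 352277) (nat_lit 11) (.e (nat_lit 426343) (nat_lit 14) (.e (nat_lit 491560) (nat_lit 10) (.e (nat_lit 352000) (nat_lit 46) .nil))))) .nil)) 
(.lf (nat_lit 445800) (.g (nat_lit 356) (.e (nat_lit 802560) (nat_lit 14) (.e (nat_lit 360449) (nat_lit 0) (.e (nat_lit 7263) (nat_lit 384) .nil))) .nil)))) (.nd (nat_lit 5) (.nd (nat_lit 6) 
(.lf (nat_lit 445720) (.g (nat_lit 263) (.e (nat_lit 802560) (nat_lit 13) (.e (nat_lit 352276) (nat_lit 11) (.e (nat_lit 425989) (nat_lit 0) (.e (nat_lit 7590) (nat_lit 407) (.e (nat_lit 81664) (nat_lit 28) .nil))))) .nil)) 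
(.lf (nat_lit 445784) (.g (nat_lit 1473) (.e (nat_lit 802560) (nat_lit 13) (.e (nat_lit 352324) (nat_lit 26) (.e (nat_lit 147466) (nat_lit 9) (.e (nat_lit 324) (nat_lit 24) (.e (nat_lit 368384) (nat_lit 24) .nil))))) .nil))) (.nd (nat_lit 6) 
(.lf (nat_lit 445752) (.g (nat_lit 621) (.e (nat_lit 802560) (nat_lit 13) (.e (nat_lit 352297) (nat_lit 20) (.e (nat_lit 2280) (nat_lit 150) (.e (nat_lit 770057) (nat_lit 5) .nil)))) .nil)) 
(.lf (nat_lit 445816) (.g (nat_lit 1503) (.e (nat_lit 802560) (nat_lit 14) (.e (nat_lit 360451) (nat_lit 0) (.e (nat_lit 7266) (nat_lit 384) (.e (nat_lit 57427) (nat_lit 15) (.e (nat_lit 368384) (nat_lit 24) .nil))))) .nil)))))) (.nd (nat_lit 3) (.nd (nat_lit 4) (.nd (nat_lit 5) (.nd (nat_lit 6) 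
(.lf (nat_lit 445700) (.g (nat_lit 769) (.e (nat_lit 802560) (nat_lit 13) (.e (nat_lit 352275) (nat_lit 11) (.e (nat_lit 426009) (nat_lit 0) (.e (nat_lit 7591) (nat_lit 407) .nil)))) .nil)) 
(.lf (nat_lit 445764) (.g (nat_lit 1191) (.e (nat_lit 802560) (nat_lit 13) (.e (nat_lit 352307) (nat_lit 21) (.e (nat_lit 57684) (nat_lit 155) (.e (nat_lit 122919) (nat_lit 15) (.e (nat_lit 368384) (nat_lit 24) .nil))))) .nil))) (.nd (nat_lit 6) 
(.lf (nat_lit 445732) (.g (nat_lit 1169) (.e (nat_lit 802560) (nat_lit 13) (.e (nat_lit 352277) (nat_lit 11) (.e (nat_lit 426182) (nat_lit 8) (.e (nat_lit 417817) (nat_lit 10) .nil)))) .nil)) 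
(.lf (nat_lit 445796) (.g (nat_lit 1872) (.e (nat_lit 802560) (nat_lit 13) (.e (nat_lit 352324) (nat_lit 26) (.e (nat_lit 147496) (nat_lit 11) (.e (nat_lit 24617) (nat_lit 7) (.e (nat_lit 327424) (nat_lit 0) .nil))))) .nil)))) (.nd (nat_lit 5) (.nd (nat_lit 6) 
(.lf (nat_lit 445716) (.g (nat_lit 1582) (.e (nat_lit 802560) (nat_lit 13) (.e (nat_lit 352275) (nat_lit 11) (.e (nat_lit 426344) (nat_lit 14) (.e (nat_lit 491560) (nat_lit 10) (.e (nat_lit 352000) (nat_lit 46) .nil))))) .nil)) 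
(.lf (nat_lit 445780) (.g (nat_lit 410) (.e (nat_lit 802560) (nat_lit 13) (.e (nat_lit 352322) (nat_lit 26) (.e (nat_lit 147496) (nat_lit 11) .nil))) .nil))) (.nd (nat_lit 6) 
(.lf (nat_lit 445748) (.g (nat_lit 257) (.e (nat_lit 802560) (nat_lit 13) (.e (nat_lit 352287) (nat_lit 20) (.e (nat_lit 2370) (nat_lit 154) (.e (nat_lit 810752) (nat_lit 14) .nil)))) .nil)) 
(.lf (nat_lit 445812) (.g (nat_lit 1916) (.e (nat_lit 802560) (nat_lit 14) (.e (nat_lit 360451) (nat_lit 0) (.e (nat_lit 7265) (nat_lit 384) (.e (nat_lit 57424) (nat_lit 14) (.e (nat_lit 352285) (nat_lit 20) .nil))))) .nil))))) (.nd (nat_lit 4) (.nd (nat_lit 5) (.nd (nat_lit 6) 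
(.lf (nat_lit 445708) (.g (nat_lit 1389) (.e (nat_lit 802560) (nat_lit 13) (.e (nat_lit 352275) (nat_lit 11) (.e (nat_lit 426166) (nat_lit 7) (.e (nat_lit 409618) (nat_lit 10) (.e (nat_lit 5024) (nat_lit 290) .nil))))) .nil)) 
(.lf (nat_lit 445772) (.g (nat_lit 1367) (.e (nat_lit 802560) (nat_lit 13) (.e (nat_lit 352322) (nat_lit 26) (.e (nat_lit 147466) (nat_lit 9) (.e (nat_lit 321) (nat_lit 24) (.e (nat_lit 368384) (nat_lit 24) .nil))))) .nil))) (.nd (nat_lit 6) 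
(.lf (nat_lit 445740) (.g (nat_lit 129) (.e (nat_lit 802560) (nat_lit 13) (.e (nat_lit 352283) (nat_lit 20) (.e (nat_lit 2374) (nat_lit 154) .nil))) .nil)) 
(.lf (nat_lit 445804) (.g (nat_lit 1489) (.e (nat_lit 802560) (nat_lit 14) (.e (nat_lit 360449) (nat_lit 0) (.e (nat_lit 7265) (nat_lit 384) (.e (nat_lit 57427) (nat_lit 15) (.e (nat_lit 368384) (nat_lit 24) .nil))))) .nil)))) (.nd (nat_lit 5) (.nd (nat_lit 6) 
(.lf (nat_lit 445724) (.g (nat_lit 1020) (.e (nat_lit 802560) (nat_lit 13) (.e (nat_lit 352277) (nat_lit 11) (.e (nat_lit 426009) (nat_lit 0) (.e (nat_lit 7593) (nat_lit 407) (.e (nat_lit 81664) (nat_lit 28) .nil))))) .nil)) 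
(.lf (nat_lit 445788) (.g (nat_lit 541) (.e (nat_lit 802560) (nat_lit 13) (.e (nat_lit 352324) (nat_lit 26) (.e (nat_lit 147478) (nat_lit 9) .nil))) .nil))) (.nd (nat_lit 6) 
(.lf (nat_lit 445756) (.g (nat_lit 625) (.e (nat_lit 802560) (nat_lit 13) (.e (nat_lit 352307) (nat_lit 21) (.e (nat_lit 57679) (nat_lit 153) .nil))) .nil)) 
(.lf (nat_lit 445820) (.g (nat_lit 1796) (.e (nat_lit 802560) (nat_lit 14) (.e (nat_lit 360452) (nat_lit 0) (.e (nat_lit 7271) (nat_lit 385) (.e (nat_lit 122919) (nat_lit 15) (.e (nat_lit 368384) (nat_lit 24) .nil))))) .nil))))))) (.nd (nat_lit 2) (.nd (nat_lit 3) (.nd (nat_lit 4) (.nd (nat_lit 5) (.nd (nat_lit 6) 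
(.lf (nat_lit 445698) (.g (nat_lit 299) (.e (nat_lit 802560) (nat_lit 13) (.e (nat_lit 352273) (nat_lit 11) (.e (nat_lit 426035) (nat_lit 0) (.e (nat_lit 7936) (nat_lit 407) .nil)))) .nil)) 
(.lf (nat_lit 445762) (.g (nat_lit 1534) (.e (nat_lit 802560) (nat_lit 13) (.e (nat_lit 352307) (nat_lit 21) (.e (nat_lit 57683) (nat_lit 155) (.e (nat_lit 122919) (nat_lit 15) (.e (nat_lit 368384) (nat_lit 24) .nil))))) .nil))) (.nd (nat_lit 6) 
(.lf (nat_lit 445730) (.g (nat_lit 1592) (.e (nat_lit 802560) (nat_lit 13) (.e (nat_lit 352277) (nat_lit 11) (.e (nat_lit 426012) (nat_lit 0) (.e (nat_lit 7593) (nat_lit 407) (.e (nat_lit 81664) (nat_lit 28) .nil))))) .nil)) 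
(.lf (nat_lit 445794) (.g (nat_lit 1315) (.e (nat_lit 802560) (nat_lit 13) (.e (nat_lit 352324) (nat_lit 26) (.e (nat_lit 147495) (nat_lit 11) (.e (nat_lit 24622) (nat_lit 8) .nil)))) .nil)))) (.nd (nat_lit 5) (.nd (nat_lit 6) 
(.lf (nat_lit 445714) (.g (nat_lit 2090) (.e (nat_lit 802560) (nat_lit 13) (.e (nat_lit 352275) (nat_lit 11) (.e (nat_lit 426343) (nat_lit 14) (.e (nat_lit 491560) (nat_lit 10) (.e (nat_lit 352000) (nat_lit 46) .nil))))) .nil)) 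
(.lf (nat_lit 445778) (.g (nat_lit 1180) (.e (nat_lit 802560) (nat_lit 13) (.e (nat_lit 352322) (nat_lit 26) (.e (nat_lit 147495) (nat_lit 11) (.e (nat_lit 24622) (nat_lit 8) .nil)))) .nil))) (.nd (nat_lit 6) 
(.lf (nat_lit 445746) (.g (nat_lit 549) (.e (nat_lit 802560) (nat_lit 13) (.e (nat_lit 352287) (nat_lit 20) (.e (nat_lit 2335) (nat_lit 151) (.e (nat_lit 778334) (nat_lit 9) (.e (nat_lit 323) (nat_lit 24) .nil))))) .nil)) 
(.lf (nat_lit 445810) (.g (nat_lit 1152) (.e (nat_lit 802560) (nat_lit 14) (.e (nat_lit 360451) (nat_lit 0) (.e (nat_lit 7261) (nat_lit 384) (.e (nat_lit 57426) (nat_lit 15) (.e (nat_lit 368384) (nat_lit 24) .nil))))) .nil))))) (.nd (nat_lit 4) (.nd (nat_lit 5) (.nd (nat_lit 6) 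
(.lf (nat_lit 445706) (.g (nat_lit 1262) (.e (nat_lit 802560) (nat_lit 13) (.e (nat_lit 352275) (nat_lit 11) (.e (nat_lit 426024) (nat_lit 0) (.e (nat_lit 7107) (nat_lit 380) (.e (nat_lit 164288) (nat_lit 224) .nil))))) .nil)) 
(.lf (nat_lit 445770) (.g (nat_lit 1525) (.e (nat_lit 802560) (nat_lit 13) (.e (nat_lit 352309) (nat_lit 21) (.e (nat_lit 57684) (nat_lit 155) (.e (nat_lit 122917) (nat_lit 15) (.e (nat_lit 368384) (nat_lit 24) .nil))))) .nil))) (.nd (nat_lit 6) 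
(.lf (nat_lit 445738) (.g (nat_lit 1681) (.e (nat_lit 802560) (nat_lit 13) (.e (nat_lit 352277) (nat_lit 11) (.e (nat_lit 426344) (nat_lit 14) (.e (nat_lit 491560) (nat_lit 10) (.e (nat_lit 352000) (nat_lit 46) .nil))))) .nil)) 
(.lf (nat_lit 445802) (.g (nat_lit 1803) (.e (nat_lit 802560) (nat_lit 14) (.e (nat_lit 360449) (nat_lit 0) (.e (nat_lit 7265) (nat_lit 384) (.e (nat_lit 57424) (nat_lit 14) (.e (nat_lit 352285) (nat_lit 20) .nil))))) .nil)))) (.nd (nat_lit 5) (.nd (nat_lit 6) 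
(.lf (nat_lit 445722) (.g (nat_lit 115) (.e (nat_lit 802560) (nat_lit 13) (.e (nat_lit 352276) (nat_lit 11) (.e (nat_lit 425990) (nat_lit 0) (.e (nat_lit 7592) (nat_lit 407) (.e (nat_lit 81664) (nat_lit 28) .nil))))) .nil)) 
(.lf (nat_lit 445786) (.g (nat_lit 1150) (.e (nat_lit 802560) (nat_lit 13) (.e (nat_lit 352324) (nat_lit 26) (.e (nat_lit 147467) (nat_lit 9) (.e (nat_lit 324) (nat_lit 24) (.e (nat_lit 368384) (nat_lit 24) .nil))))) .nil))) (.nd (nat_lit 6) 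
(.lf (nat_lit 445754) (.g (nat_lit 1037) (.e (nat_lit 802560) (nat_lit 13) (.e (nat_lit 352297) (nat_lit 20) (.e (nat_lit 2281) (nat_lit 150) (.e (nat_lit 770074) (nat_lit 10) (.e (nat_lit 81933) (nat_lit 20) .nil))))) .nil)) 
(.lf (nat_lit 445818) (.g (nat_lit 2189) (.e (nat_lit 802560) (nat_lit 14) (.e (nat_lit 360452) (nat_lit 0) (.e (nat_lit 7270) (nat_lit 385) (.e (nat_lit 122919) (nat_lit 15) (.e (nat_lit 368384) (nat_lit 24) .nil))))) .nil)))))) (.nd (nat_lit 3) (.nd (nat_lit 4) (.nd (nat_lit 5) (.nd (nat_lit 6) 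
(.lf (nat_lit 445702) (.g (nat_lit 1852) (.e (nat_lit 802560) (nat_lit 13) (.e (nat_lit 352275) (nat_lit 11) (.e (nat_lit 426011) (nat_lit 0) (.e (nat_lit 7591) (nat_lit 407) (.e (nat_lit 81664) (nat_lit 28) .nil))))) .nil)) 
(.lf (nat_lit 445766) (.g (nat_lit 722) (.e (nat_lit 802560) (nat_lit 13) (.e (nat_lit 352309) (nat_lit 21) (.e (nat_lit 57678) (nat_lit 153) .nil))) .nil))) (.nd (nat_lit 6) 
(.lf (nat_lit 445734) (.g (nat_lit 1554) (.e (nat_lit 802560) (nat_lit 13) (.e (nat_lit 352277) (nat_lit 11) (.e (nat_lit 426342) (nat_lit 14) (.e (nat_lit 491560) (nat_lit 10) (.e (nat_lit 352000) (nat_lit 46) .nil))))) .nil)) 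
(.lf (nat_lit 445798) (.g (nat_lit 1366) (.e (nat_lit 802560) (nat_lit 13) (.e (nat_lit 352324) (nat_lit 26) (.e (nat_lit 147496) (nat_lit 11) (.e (nat_lit 24632) (nat_lit 9) .nil)))) .nil)))) (.nd (nat_lit 5) (.nd (nat_lit 6) 
(.lf (nat_lit 445718) (.g (nat_lit 209) (.e (nat_lit 802560) (nat_lit 13) (.e (nat_lit 352276) (nat_lit 11) (.e (nat_lit 425984) (nat_lit 0) (.e (nat_lit 7592) (nat_lit 407) (.e (nat_lit 81664) (nat_lit 28) .nil))))) .nil)) 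
(.lf (nat_lit 445782) (.g (nat_lit 38) (.e (nat_lit 802560) (nat_lit 13) (.e (nat_lit 352323) (nat_lit 26) (.e (nat_lit 147467) (nat_lit 9) .nil))) .nil))) (.nd (nat_lit 6) 
(.lf (nat_lit 445750) (.g (nat_lit 138) (.e (nat_lit 802560) (nat_lit 13) (.e (nat_lit 352290) (nat_lit 20) (.e (nat_lit 2280) (nat_lit 150) .nil))) .nil)) 
(.lf (nat_lit 445814) (.g (nat_lit 1370) (.e (nat_lit 802560) (nat_lit 14) (.e (nat_lit 360451) (nat_lit 0) (.e (nat_lit 7265) (nat_lit 384) (.e (nat_lit 57427) (nat_lit 15) (.e (nat_lit 368384) (nat_lit 24) .nil))))) .nil))))) (.nd (nat_lit 4) (.nd (nat_lit 5) (.nd (nat_lit 6) 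
(.lf (nat_lit 445710) (.g (nat_lit 1488) (.e (nat_lit 802560) (nat_lit 13) (.e (nat_lit 352275) (nat_lit 11) (.e (nat_lit 426341) (nat_lit 14) (.e (nat_lit 491560) (nat_lit 10) (.e (nat_lit 352000) (nat_lit 46) .nil))))) .nil)) 
(.lf (nat_lit 445774) (.g (nat_lit 1224) (.e (nat_lit 802560) (nat_lit 13) (.e (nat_lit 352322) (nat_lit 26) (.e (nat_lit 147467) (nat_lit 9) (.e (nat_lit 321) (nat_lit 24) (.e (nat_lit 368384) (nat_lit 24) .nil))))) .nil))) (.nd (nat_lit 6) 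
(.lf (nat_lit 445742) (.g (nat_lit 170) (.e (nat_lit 802560) (nat_lit 13) (.e (nat_lit 352285) (nat_lit 20) (.e (nat_lit 2362) (nat_lit 153) (.e (nat_lit 802560) (nat_lit 14) .nil)))) .nil)) 
(.lf (nat_lit 445806) (.g (nat_lit 1391) (.e (nat_lit 802560) (nat_lit 14) (.e (nat_lit 360449) (nat_lit 0) (.e (nat_lit 7266) (nat_lit 384) (.e (nat_lit 57427) (nat_lit 15) (.e (nat_lit 368384) (nat_lit 24) .nil))))) .nil)))) (.nd (nat_lit 5) (.nd (nat_lit 6) 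
(.lf (nat_lit 445726) (.g (nat_lit 1189) (.e (nat_lit 802560) (nat_lit 13) (.e (nat_lit 352277) (nat_lit 11) (.e (nat_lit 426010) (nat_lit 0) (.e (nat_lit 7593) (nat_lit 407) (.e (nat_lit 81664) (nat_lit 28) .nil))))) .nil)) 
(.lf (nat_lit 445790) (.g (nat_lit 788) (.e (nat_lit 802560) (nat_lit 13) (.e (nat_lit 352324) (nat_lit 26) (.e (nat_lit 147492) (nat_lit 11) (.e (nat_lit 24646) (nat_lit 11) (.e (nat_lit 376576) (nat_lit 46) .nil))))) .nil))) (.nd (nat_lit 6) 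
(.lf (nat_lit 445758) (.g (nat_lit 1716) (.e (nat_lit 802560) (nat_lit 13) (.e (nat_lit 352307) (nat_lit 21) (.e (nat_lit 57681) (nat_lit 155) (.e (nat_lit 122919) (nat_lit 15) (.e (nat_lit 368384) (nat_lit 24) .nil))))) .nil)) 
(.lf (nat_lit 445822) (.g (nat_lit 1655) (.e (nat_lit 802560) (nat_lit 14) (.e (nat_lit 360452) (nat_lit 0) (.e (nat_lit 7272) (nat_lit 385) (.e (nat_lit 122919) (nat_lit 15) (.e (nat_lit 368384) (nat_lit 24) .nil))))) .nil)))))))) (.nd (nat_lit 1) (.nd (nat_lit 2) (.nd (nat_lit 3) (.nd (nat_lit 4) (.nd (nat_lit 5) (.nd (nat_lit 6) 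
(.lf (nat_lit 445697) (.g (nat_lit 665) (.e (nat_lit 802560) (nat_lit 13) (.e (nat_lit 352272) (nat_lit 10) (.e (nat_lit 417796) (nat_lit 0) (.e (nat_lit 5413) (nat_lit 303) (.e (nat_lit 81664) (nat_lit 28) .nil))))) .nil)) 
(.lf (nat_lit 445761) (.g (nat_lit 1849) (.e (nat_lit 802560) (nat_lit 13) (.e (nat_lit 352307) (nat_lit 21) (.e (nat_lit 57683) (nat_lit 155) (.e (nat_lit 122917) (nat_lit 15) (.e (nat_lit 368384) (nat_lit 24) .nil))))) .nil))) (.nd (nat_lit 6) 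
(.lf (nat_lit 445729) (.g (nat_lit 1471) (.e (nat_lit 802560) (nat_lit 13) (.e (nat_lit 352277) (nat_lit 11) (.e (nat_lit 426012) (nat_lit 0) (.e (nat_lit 7591) (nat_lit 407) (.e (nat_lit 81664) (nat_lit 28) .nil))))) .nil)) 
(.lf (nat_lit 445793) (.g (nat_lit 469) (.e (nat_lit 802560) (nat_lit 13) (.e (nat_lit 352324) (nat_lit 26) (.e (nat_lit 147495) (nat_lit 11) .nil))) .nil)))) (.nd (nat_lit 5) (.nd (nat_lit 6) 
(.lf (nat_lit 445713) (.g (nat_lit 1954) (.e (nat_lit 802560) (nat_lit 13) (.e (nat_lit 352275) (nat_lit 11) (.e (nat_lit 426343) (nat_lit 14) (.e (nat_lit 491558) (nat_lit 10) (.e (nat_lit 352000) (nat_lit 46) .nil))))) .nil)) 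
(.lf (nat_lit 445777) (.g (nat_lit 658) (.e (nat_lit 802560) (nat_lit 13) (.e (nat_lit 352322) (nat_lit 26) (.e (nat_lit 147492) (nat_lit 11) (.e (nat_lit 24646) (nat_lit 11) .nil)))) .nil))) (.nd (nat_lit 6) 
(.lf (nat_lit 445745) (.g (nat_lit 207) (.e (nat_lit 802560) (nat_lit 13) (.e (nat_lit 352287) (nat_lit 20) (.e (nat_lit 2334) (nat_lit 151) .nil))) .nil)) 
(.lf (nat_lit 445809) (.g (nat_lit 1240) (.e (nat_lit 802560) (nat_lit 14) (.e (nat_lit 360451) (nat_lit 0) (.e (nat_lit 7125) (nat_lit 382) (.e (nat_lit 7936) (nat_lit 90) .nil)))) .nil))))) (.nd (nat_lit 4) (.nd (nat_lit 5) (.nd (nat_lit 6) 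
(.lf (nat_lit 445705) (.g (nat_lit 1389) (.e (nat_lit 802560) (nat_lit 13) (.e (nat_lit 352275) (nat_lit 11) (.e (nat_lit 426012) (nat_lit 0) (.e (nat_lit 7593) (nat_lit 407) (.e (nat_lit 81664) (nat_lit 28) .nil))))) .nil)) 
(.lf (nat_lit 445769) (.g (nat_lit 1653) (.e (nat_lit 802560) (nat_lit 13) (.e (nat_lit 352309) (nat_lit 21) (.e (nat_lit 57683) (nat_lit 155) (.e (nat_lit 122919) (nat_lit 15) (.e (nat_lit 368384) (nat_lit 24) .nil))))) .nil))) (.nd (nat_lit 6) 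
(.lf (nat_lit 445737) (.g (nat_lit 1523) (.e (nat_lit 802560) (nat_lit 13) (.e (nat_lit 352277) (nat_lit 11) (.e (nat_lit 426344) (nat_lit 14) (.e (nat_lit 491558) (nat_lit 10) (.e (nat_lit 352000) (nat_lit 46) .nil))))) .nil)) 
(.lf (nat_lit 445801) (.g (nat_lit 920) (.e (nat_lit 802560) (nat_lit 14) (.e (nat_lit 360449) (nat_lit 0) (.e (nat_lit 7263) (nat_lit 384) (.e (nat_lit 57426) (nat_lit 15) (.e (nat_lit 368384) (nat_lit 24) .nil))))) .nil)))) (.nd (nat_lit 5) (.nd (nat_lit 6) 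
(.lf (nat_lit 445721) (.g (nat_lit 169) (.e (nat_lit 802560) (nat_lit 13) (.e (nat_lit 352276) (nat_lit 11) (.e (nat_lit 425989) (nat_lit 0) (.e (nat_lit 7592) (nat_lit 407) (.e (nat_lit 81664) (nat_lit 28) .nil))))) .nil)) 
(.lf (nat_lit 445785) (.g (nat_lit 1265) (.e (nat_lit 802560) (nat_lit 13) (.e (nat_lit 352324) (nat_lit 26) (.e (nat_lit 147467) (nat_lit 9) (.e (nat_lit 321) (nat_lit 24) (.e (nat_lit 368384) (nat_lit 24) .nil))))) .nil))) (.nd (nat_lit 6) 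
(.lf (nat_lit 445753) (.g (nat_lit 863) (.e (nat_lit 802560) (nat_lit 13) (.e (nat_lit 352297) (nat_lit 20) (.e (nat_lit 2280) (nat_lit 150) (.e (nat_lit 770057) (nat_lit 5) (.e (nat_lit 1599) (nat_lit 111) .nil))))) .nil)) 
(.lf (nat_lit 445817) (.g (nat_lit 2221) (.e (nat_lit 802560) (nat_lit 14) (.e (nat_lit 360452) (nat_lit 0) (.e (nat_lit 7270) (nat_lit 385) (.e (nat_lit 122917) (nat_lit 15) (.e (nat_lit 368384) (nat_lit 24) .nil))))) .nil)))))) (.nd (nat_lit 3) (.nd (nat_lit 4) (.nd (nat_lit 5) (.nd (nat_lit 6) 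
(.lf (nat_lit 445701) (.g (nat_lit 1173) (.e (nat_lit 802560) (nat_lit 13) (.e (nat_lit 352275) (nat_lit 11) (.e (nat_lit 426009) (nat_lit 0) (.e (nat_lit 7593) (nat_lit 407) (.e (nat_lit 81664) (nat_lit 28) .nil))))) .nil)) 
(.lf (nat_lit 445765) (.g (nat_lit 1549) (.e (nat_lit 802560) (nat_lit 13) (.e (nat_lit 352308) (nat_lit 21) (.e (nat_lit 57681) (nat_lit 155) (.e (nat_lit 122917) (nat_lit 15) (.e (nat_lit 368384) (nat_lit 24) .nil))))) .nil))) (.nd (nat_lit 6) 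
(.lf (nat_lit 445733) (.g (nat_lit 1206) (.e (nat_lit 802560) (nat_lit 13) (.e (nat_lit 352277) (nat_lit 11) (.e (nat_lit 426342) (nat_lit 14) (.e (nat_lit 491558) (nat_lit 10) (.e (nat_lit 352000) (nat_lit 46) .nil))))) .nil)) 
(.lf (nat_lit 445797) (.g (nat_lit 2014) (.e (nat_lit 802560) (nat_lit 13) (.e (nat_lit 352324) (nat_lit 26) (.e (nat_lit 147496) (nat_lit 11) (.e (nat_lit 24623) (nat_lit 9) (.e (nat_lit 335891) (nat_lit 0) .nil))))) .nil)))) (.nd (nat_lit 5) (.nd (nat_lit 6) 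
(.lf (nat_lit 445717) (.g (nat_lit 350) (.e (nat_lit 802560) (nat_lit 13) (.e (nat_lit 352276) (nat_lit 11) (.e (nat_lit 425984) (nat_lit 0) (.e (nat_lit 7590) (nat_lit 407) (.e (nat_lit 81664) (nat_lit 28) .nil))))) .nil)) 
(.lf (nat_lit 445781) (.g (nat_lit 2107) (.e (nat_lit 802560) (nat_lit 13) (.e (nat_lit 352322) (nat_lit 26) (.e (nat_lit 147496) (nat_lit 11) (.e (nat_lit 24617) (nat_lit 7) (.e (nat_lit 327424) (nat_lit 0) .nil))))) .nil))) (.nd (nat_lit 6) 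
(.lf (nat_lit 445749) (.g (nat_lit 246) (.e (nat_lit 802560) (nat_lit 13) (.e (nat_lit 352287) (nat_lit 20) (.e (nat_lit 2375) (nat_lit 154) (.e (nat_lit 810752) (nat_lit 14) .nil)))) .nil)) 
(.lf (nat_lit 445813) (.g (nat_lit 1625) (.e (nat_lit 802560) (nat_lit 14) (.e (nat_lit 360451) (nat_lit 0) (.e (nat_lit 7265) (nat_lit 384) (.e (nat_lit 57426) (nat_lit 15) (.e (nat_lit 368384) (nat_lit 24) .nil))))) .nil))))) (.nd (nat_lit 4) (.nd (nat_lit 5) (.nd (nat_lit 6) 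
(.lf (nat_lit 445709) (.g (nat_lit 973) (.e (nat_lit 802560) (nat_lit 13) (.e (nat_lit 352275) (nat_lit 11) (.e (nat_lit 426181) (nat_lit 8) (.e (nat_lit 417817) (nat_lit 10) (.e (nat_lit 5024) (nat_lit 290) .nil))))) .nil)) 
(.lf (nat_lit 445773) (.g (nat_lit 1320) (.e (nat_lit 802560) (nat_lit 13) (.e (nat_lit 352322) (nat_lit 26) (.e (nat_lit 147466) (nat_lit 9) (.e (nat_lit 324) (nat_lit 24) (.e (nat_lit 368384) (nat_lit 24) .nil))))) .nil))) (.nd (nat_lit 6) 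
(.lf (nat_lit 445741) (.g (nat_lit 179) (.e (nat_lit 802560) (nat_lit 13) (.e (nat_lit 352283) (nat_lit 20) (.e (nat_lit 2375) (nat_lit 154) (.e (nat_lit 810752) (nat_lit 14) .nil)))) .nil)) 
(.lf (nat_lit 445805) (.g (nat_lit 1443) (.e (nat_lit 802560) (nat_lit 14) (.e (nat_lit 360449) (nat_lit 0) (.e (nat_lit 7266) (nat_lit 384) (.e (nat_lit 57426) (nat_lit 15) (.e (nat_lit 368384) (nat_lit 24) .nil))))) .nil)))) (.nd (nat_lit 5) (.nd (nat_lit 6) 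
(.lf (nat_lit 445725) (.g (nat_lit 1123) (.e (nat_lit 802560) (nat_lit 13) (.e (nat_lit 352277) (nat_lit 11) (.e (nat_lit 426010) (nat_lit 0) (.e (nat_lit 7591) (nat_lit 407) (.e (nat_lit 81664) (nat_lit 28) .nil))))) .nil)) 
(.lf (nat_lit 445789) (.g (nat_lit 422) (.e (nat_lit 802560) (nat_lit 13) (.e (nat_lit 352324) (nat_lit 26) (.e (nat_lit 147492) (nat_lit 11) .nil))) .nil))) (.nd (nat_lit 6) 
(.lf (nat_lit 445757) (.g (nat_lit 2169) (.e (nat_lit 802560) (nat_lit 13) (.e (nat_lit 352307) (nat_lit 21) (.e (nat_lit 57681) (nat_lit 155) (.e (nat_lit 122917) (nat_lit 15) (.e (nat_lit 368384) (nat_lit 24) .nil))))) .nil)) 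
(.lf (nat_lit 445821) (.g (nat_lit 1851) (.e (nat_lit 802560) (nat_lit 14) (.e (nat_lit 360452) (nat_lit 0) (.e (nat_lit 7272) (nat_lit 385) (.e (nat_lit 122917) (nat_lit 15) (.e (nat_lit 368384) (nat_lit 24) .nil))))) .nil))))))) (.nd (nat_lit 2) (.nd (nat_lit 3) (.nd (nat_lit 4) (.nd (nat_lit 5) (.nd (nat_lit 6) 
(.lf (nat_lit 445699) (.g (nat_lit 874) (.e (nat_lit 802560) (nat_lit 13) (.e (nat_lit 352273) (nat_lit 11) (.e (nat_lit 426179) (nat_lit 8) (.e (nat_lit 417817) (nat_lit 10) (.e (nat_lit 5024) (nat_lit 290) .nil))))) .nil)) 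
(.lf (nat_lit 445763) (.g (nat_lit 1190) (.e (nat_lit 802560) (nat_lit 13) (.e (nat_lit 352307) (nat_lit 21) (.e (nat_lit 57684) (nat_lit 155) (.e (nat_lit 122917) (nat_lit 15) (.e (nat_lit 368384) (nat_lit 24) .nil))))) .nil))) (.nd (nat_lit 6) 
(.lf (nat_lit 445731) (.g (nat_lit 1393) (.e (nat_lit 802560) (nat_lit 13) (.e (nat_lit 352277) (nat_lit 11) (.e (nat_lit 426181) (nat_lit 8) (.e (nat_lit 417817) (nat_lit 10) (.e (nat_lit 5024) (nat_lit 290) .nil))))) .nil)) 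
(.lf (nat_lit 445795) (.g (nat_lit 1248) (.e (nat_lit 802560) (nat_lit 13) (.e (nat_lit 352324) (nat_lit 26) (.e (nat_lit 147495) (nat_lit 11) (.e (nat_lit 24638) (nat_lit 9) .nil)))) .nil)))) (.nd (nat_lit 5) (.nd (nat_lit 6) 
(.lf (nat_lit 445715) (.g (nat_lit 1449) (.e (nat_lit 802560) (nat_lit 13) (.e (nat_lit 352275) (nat_lit 11) (.e (nat_lit 426344) (nat_lit 14) (.e (nat_lit 491558) (nat_lit 10) (.e (nat_lit 352000) (nat_lit 46) .nil))))) .nil)) 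
(.lf (nat_lit 445779) (.g (nat_lit 1416) (.e (nat_lit 802560) (nat_lit 13) (.e (nat_lit 352322) (nat_lit 26) (.e (nat_lit 147495) (nat_lit 11) (.e (nat_lit 24638) (nat_lit 9) (.e (nat_lit 335892) (nat_lit 0) .nil))))) .nil))) (.nd (nat_lit 6) 
(.lf (nat_lit 445747) (.g (nat_lit 525) (.e (nat_lit 802560) (nat_lit 13) (.e (nat_lit 352287) (nat_lit 20) (.e (nat_lit 2335) (nat_lit 151) (.e (nat_lit 778337) (nat_lit 9) (.e (nat_lit 323) (nat_lit 24) .nil))))) .nil)) 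
(.lf (nat_lit 445811) (.g (nat_lit 473) (.e (nat_lit 802560) (nat_lit 14) (.e (nat_lit 360451) (nat_lit 0) (.e (nat_lit 7263) (nat_lit 384) .nil))) .nil))))) (.nd (nat_lit 4) (.nd (nat_lit 5) (.nd (nat_lit 6) 
(.lf (nat_lit 445707) (.g (nat_lit 478) (.e (nat_lit 802560) (nat_lit 13) (.e (nat_lit 352275) (nat_lit 11) (.e (nat_lit 426035) (nat_lit 0) .nil))) .nil)) 
(.lf (nat_lit 445771) (.g (nat_lit 1522) (.e (nat_lit 802560) (nat_lit 13) (.e (nat_lit 352309) (nat_lit 21) (.e (nat_lit 57684) (nat_lit 155) (.e (nat_lit 122919) (nat_lit 15) (.e (nat_lit 368384) (nat_lit 24) .nil))))) .nil))) (.nd (nat_lit 6) 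
(.lf (nat_lit 445739) (.g (nat_lit 156) (.e (nat_lit 802560) (nat_lit 13) (.e (nat_lit 352281) (nat_lit 20) (.e (nat_lit 2370) (nat_lit 154) (.e (nat_lit 810752) (nat_lit 14) .nil)))) .nil)) 
(.lf (nat_lit 445803) (.g (nat_lit 1691) (.e (nat_lit 802560) (nat_lit 14) (.e (nat_lit 360449) (nat_lit 0) (.e (nat_lit 7265) (nat_lit 384) (.e (nat_lit 57426) (nat_lit 15) (.e (nat_lit 368384) (nat_lit 24) .nil))))) .nil)))) (.nd (nat_lit 5) (.nd (nat_lit 6) 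
(.lf (nat_lit 445723) (.g (nat_lit 945) (.e (nat_lit 802560) (nat_lit 13) (.e (nat_lit 352277) (nat_lit 11) (.e (nat_lit 426009) (nat_lit 0) (.e (nat_lit 7591) (nat_lit 407) (.e (nat_lit 81664) (nat_lit 28) .nil))))) .nil)) 
(.lf (nat_lit 445787) (.g (nat_lit 506) (.e (nat_lit 802560) (nat_lit 13) (.e (nat_lit 352324) (nat_lit 26) (.e (nat_lit 147476) (nat_lit 9) .nil))) .nil))) (.nd (nat_lit 6) 
(.lf (nat_lit 445755) (.g (nat_lit 618) (.e (nat_lit 802560) (nat_lit 13) (.e (nat_lit 352307) (nat_lit 21) (.e (nat_lit 57678) (nat_lit 153) .nil))) .nil)) 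
(.lf (nat_lit 445819) (.g (nat_lit 1385) (.e (nat_lit 802560) (nat_lit 14) (.e (nat_lit 360452) (nat_lit 0) (.e (nat_lit 7271) (nat_lit 385) (.e (nat_lit 122917) (nat_lit 15) (.e (nat_lit 368384) (nat_lit 24) .nil))))) .nil)))))) (.nd (nat_lit 3) (.nd (nat_lit 4) (.nd (nat_lit 5) (.nd (nat_lit 6) 
(.lf (nat_lit 445703) (.g (nat_lit 1914) (.e (nat_lit 802560) (nat_lit 13) (.e (nat_lit 352275) (nat_lit 11) (.e (nat_lit 426011) (nat_lit 0) (.e (nat_lit 7593) (nat_lit 407) (.e (nat_lit 81664) (nat_lit 28) .nil))))) .nil)) 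
(.lf (nat_lit 445767) (.g (nat_lit 1012) (.e (nat_lit 802560) (nat_lit 13) (.e (nat_lit 352309) (nat_lit 21) (.e (nat_lit 57679) (nat_lit 153) (.e (nat_lit 8198) (nat_lit 0) .nil)))) .nil))) (.nd (nat_lit 6) 
(.lf (nat_lit 445735) (.g (nat_lit 1707) (.e (nat_lit 802560) (nat_lit 13) (.e (nat_lit 352277) (nat_lit 11) (.e (nat_lit 426343) (nat_lit 14) (.e (nat_lit 491558) (nat_lit 10) (.e (nat_lit 352000) (nat_lit 46) .nil))))) .nil)) 
(.lf (nat_lit 445799) (.g (nat_lit 998) (.e (nat_lit 802560) (nat_lit 14) (.e (nat_lit 360449) (nat_lit 0) (.e (nat_lit 7261) (nat_lit 384) (.e (nat_lit 57426) (nat_lit 15) (.e (nat_lit 368384) (nat_lit 24) .nil))))) .nil)))) (.nd (nat_lit 5) (.nd (nat_lit 6) 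
(.lf (nat_lit 445719) (.g (nat_lit 174) (.e (nat_lit 802560) (nat_lit 13) (.e (nat_lit 352276) (nat_lit 11) (.e (nat_lit 425987) (nat_lit 0) (.e (nat_lit 7592) (nat_lit 407) (.e (nat_lit 81664) (nat_lit 28) .nil))))) .nil)) 
(.lf (nat_lit 445783) (.g (nat_lit 1507) (.e (nat_lit 802560) (nat_lit 13) (.e (nat_lit 352324) (nat_lit 26) (.e (nat_lit 147466) (nat_lit 9) (.e (nat_lit 321) (nat_lit 24) (.e (nat_lit 368384) (nat_lit 24) .nil))))) .nil))) (.nd (nat_lit 6) 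
(.lf (nat_lit 445751) (.g (nat_lit 643) (.e (nat_lit 802560) (nat_lit 13) (.e (nat_lit 352297) (nat_lit 20) (.e (nat_lit 2280) (nat_lit 150) (.e (nat_lit 770056) (nat_lit 5) .nil)))) .nil)) 
(.lf (nat_lit 445815) (.g (nat_lit 1439) (.e (nat_lit 802560) (nat_lit 14) (.e (nat_lit 360451) (nat_lit 0) (.e (nat_lit 7266) (nat_lit 384) (.e (nat_lit 57426) (nat_lit 15) (.e (nat_lit 368384) (nat_lit 24) .nil))))) .nil))))) (.nd (nat_lit 4) (.nd (nat_lit 5) (.nd (nat_lit 6) 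
(.lf (nat_lit 445711) (.g (nat_lit 1188) (.e (nat_lit 802560) (nat_lit 13) (.e (nat_lit 352275) (nat_lit 11) (.e (nat_lit 426342) (nat_lit 14) (.e (nat_lit 491558) (nat_lit 10) (.e (nat_lit 352000) (nat_lit 46) .nil))))) .nil)) 
(.lf (nat_lit 445775) (.g (nat_lit 1102) (.e (nat_lit 802560) (nat_lit 13) (.e (nat_lit 352322) (nat_lit 26) (.e (nat_lit 147467) (nat_lit 9) (.e (nat_lit 324) (nat_lit 24) (.e (nat_lit 368384) (nat_lit 24) .nil))))) .nil))) (.nd (nat_lit 6) 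
(.lf (nat_lit 445743) (.g (nat_lit 175) (.e (nat_lit 802560) (nat_lit 13) (.e (nat_lit 352285) (nat_lit 20) (.e (nat_lit 2370) (nat_lit 154) (.e (nat_lit 810752) (nat_lit 14) .nil)))) .nil)) 
(.lf (nat_lit 445807) (.g (nat_lit 468) (.e (nat_lit 802560) (nat_lit 14) (.e (nat_lit 360451) (nat_lit 0) (.e (nat_lit 7124) (nat_lit 382) .nil))) .nil)))) (.nd (nat_lit 5) (.nd (nat_lit 6) 
(.lf (nat_lit 445727) (.g (nat_lit 1963) (.e (nat_lit 802560) (nat_lit 13) (.e (nat_lit 352277) (nat_lit 11) (.e (nat_lit 426011) (nat_lit 0) (.e (nat_lit 7591) (nat_lit 407) (.e (nat_lit 81664) (nat_lit 28) .nil))))) .nil)) 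
(.lf (nat_lit 445791) (.g (nat_lit 744) (.e (nat_lit 802560) (nat_lit 13) (.e (nat_lit 352324) (nat_lit 26) (.e (nat_lit 147493) (nat_lit 11) (.e (nat_lit 24646) (nat_lit 11) .nil)))) .nil))) (.nd (nat_lit 6) 
(.lf (nat_lit 445759) (.g (nat_lit 672) (.e (nat_lit 802560) (nat_lit 13) (.e (nat_lit 352307) (nat_lit 21) (.e (nat_lit 57682) (nat_lit 155) .nil))) .nil)) 
(.lf (nat_lit 445823) (.g (nat_lit 1079) (.e (nat_lit 802560) (nat_lit 14) (.e (nat_lit 360452) (nat_lit 0) (.e (nat_lit 7273) (nat_lit 385) (.e (nat_lit 122917) (nat_lit 15) (.e (nat_lit 368384) (nat_lit 24) .nil))))) .nil)))))))))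

noncomputable def tv5485 : DT := (.nd (nat_lit 0) (.nd (nat_lit 1) (.nd (nat_lit 2) (.nd (nat_lit 3) (.nd (nat_lit 4) (.nd (nat_lit 5) (.nd (nat_lit 6) 
(.lf (nat_lit 445824) (.g (nat_lit 1099) (.e (nat_lit 802560) (nat_lit 14) (.e (nat_lit 360452) (nat_lit 0) (.e (nat_lit 7273) (nat_lit 385) (.e (nat_lit 122919) (nat_lit 15) (.e (nat_lit 368384) (nat_lit 24) .nil))))) .nil)) 
(.lf (nat_lit 445888) (.g (nat_lit 1724) (.e (nat_lit 802560) (nat_lit 16) (.e (nat_lit 376857) (nat_lit 21) (.e (nat_lit 57683) (nat_lit 155) (.e (nat_lit 122917) (nat_lit 15) (.e (nat_lit 368384) (nat_lit 24) .nil))))) .nil))) (.nd (nat_lit 6) 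
(.lf (nat_lit 445856) (.g (nat_lit 423) (.e (nat_lit 802560) (nat_lit 14) (.e (nat_lit 360490) (nat_lit 22) (.e (nat_lit 778339) (nat_lit 9) (.e (nat_lit 323) (nat_lit 24) (.e (nat_lit 368384) (nat_lit 24) .nil))))) .nil)) 
(.lf (nat_lit 445920) (.g (nat_lit 1742) (.e (nat_lit 794659) (nat_lit 21) (.e (nat_lit 164399) (nat_lit 256) (.e (nat_lit 57437) (nat_lit 17) (.e (nat_lit 376864) (nat_lit 22) (.e (nat_lit 90133) (nat_lit 9) .nil))))) .nil)))) (.nd (nat_lit 5) (.nd (nat_lit 6) 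
(.lf (nat_lit 445840) (.g (nat_lit 349) (.e (nat_lit 802560) (nat_lit 14) (.e (nat_lit 360488) (nat_lit 20) (.e (nat_lit 769792) (nat_lit 10) .nil))) .nil)) 
(.lf (nat_lit 445904) (.g (nat_lit 481) (.e (nat_lit 802560) (nat_lit 18) (.e (nat_lit 393229) (nat_lit 9) (.e (nat_lit 336184) (nat_lit 11) .nil))) .nil))) (.nd (nat_lit 6) 
(.lf (nat_lit 445872) (.g (nat_lit 146) (.e (nat_lit 802560) (nat_lit 16) (.e (nat_lit 376840) (nat_lit 11) (.e (nat_lit 425993) (nat_lit 0) (.e (nat_lit 7936) (nat_lit 407) .nil)))) .nil)) 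
(.lf (nat_lit 445936) (.g (nat_lit 3812) (.e (nat_lit 794665) (nat_lit 22) (.e (nat_lit 196656) (nat_lit 11) (.e (nat_lit 16473) (nat_lit 14) (.e (nat_lit 491526) (nat_lit 0) (.e (nat_lit 1842) (nat_lit 123) .nil))))) .nil))))) (.nd (nat_lit 4) (.nd (nat_lit 5) (.nd (nat_lit 6) 
(.lf (nat_lit 445832) (.g (nat_lit 931) (.e (nat_lit 802560) (nat_lit 14) (.e (nat_lit 360488) (nat_lit 20) (.e (nat_lit 761866) (nat_lit 5) (.e (nat_lit 1597) (nat_lit 111) (.e (nat_lit 368384) (nat_lit 24) .nil))))) .nil)) 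
(.lf (nat_lit 445896) (.g (nat_lit 1391) (.e (nat_lit 802560) (nat_lit 16) (.e (nat_lit 376859) (nat_lit 21) (.e (nat_lit 57683) (nat_lit 155) (.e (nat_lit 122919) (nat_lit 15) (.e (nat_lit 368384) (nat_lit 24) .nil))))) .nil))) (.nd (nat_lit 6) 
(.lf (nat_lit 445864) (.g (nat_lit 887) (.e (nat_lit 802560) (nat_lit 14) (.e (nat_lit 360491) (nat_lit 22) (.e (nat_lit 778362) (nat_lit 9) (.e (nat_lit 324) (nat_lit 24) (.e (nat_lit 368384) (nat_lit 24) .nil))))) .nil)) 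
(.lf (nat_lit 445928) (.g (nat_lit 3161) (.e (nat_lit 794661) (nat_lit 21) (.e (nat_lit 164183) (nat_lit 154) (.e (nat_lit 57373) (nat_lit 2) (.e (nat_lit 90158) (nat_lit 11) (.e (nat_lit 24650) (nat_lit 12) .nil))))) .nil)))) (.nd (nat_lit 5) (.nd (nat_lit 6) 
(.lf (nat_lit 445848) (.g (nat_lit 1063) (.e (nat_lit 802560) (nat_lit 14) (.e (nat_lit 360489) (nat_lit 21) (.e (nat_lit 770058) (nat_lit 5) (.e (nat_lit 1589) (nat_lit 111) (.e (nat_lit 368384) (nat_lit 24) .nil))))) .nil)) 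
(.lf (nat_lit 445912) (.g (nat_lit 3890) (.e (nat_lit 794659) (nat_lit 21) (.e (nat_lit 164183) (nat_lit 154) (.e (nat_lit 57373) (nat_lit 2) (.e (nat_lit 90158) (nat_lit 11) (.e (nat_lit 24650) (nat_lit 12) (.e (nat_lit 385041) (nat_lit 19) (.e (nat_lit 171776) (nat_lit 118) .nil))))))) (.g (nat_lit 6) .nil .nil)))) (.nd (nat_lit 6) 
(.lf (nat_lit 445880) (.g (nat_lit 846) (.e (nat_lit 802560) (nat_lit 16) (.e (nat_lit 376842) (nat_lit 11) (.e (nat_lit 426341) (nat_lit 14) .nil))) .nil)) 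
(.lf (nat_lit 445944) (.g (nat_lit 4073) (.e (nat_lit 794669) (nat_lit 22) (.e (nat_lit 196656) (nat_lit 11) (.e (nat_lit 16473) (nat_lit 14) (.e (nat_lit 491526) (nat_lit 0) (.e (nat_lit 1788) (nat_lit 119) (.e (nat_lit 516181) (nat_lit 15) (.e (nat_lit 483072) (nat_lit 51) .nil))))))) (.g (nat_lit 5) .nil .nil))))))) (.nd (nat_lit 3) (.nd (nat_lit 4) (.nd (nat_lit 5) (.nd (nat_lit 6) 
(.lf (nat_lit 445828) (.g (nat_lit 1424) (.e (nat_lit 802560) (nat_lit 14) (.e (nat_lit 360453) (nat_lit 0) (.e (nat_lit 7272) (nat_lit 385) (.e (nat_lit 122919) (nat_lit 15) (.e (nat_lit 368384) (nat_lit 24) .nil))))) .nil)) 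
(.lf (nat_lit 445892) (.g (nat_lit 1242) (.e (nat_lit 802560) (nat_lit 16) (.e (nat_lit 376858) (nat_lit 21) (.e (nat_lit 57680) (nat_lit 155) (.e (nat_lit 122919) (nat_lit 15) (.e (nat_lit 368384) (nat_lit 24) .nil))))) .nil))) (.nd (nat_lit 6) 
(.lf (nat_lit 445860) (.g (nat_lit 319) (.e (nat_lit 802560) (nat_lit 14) (.e (nat_lit 360491) (nat_lit 22) (.e (nat_lit 778360) (nat_lit 9) (.e (nat_lit 324) (nat_lit 24) (.e (nat_lit 368384) (nat_lit 24) .nil))))) .nil)) 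
(.lf (nat_lit 445924) (.g (nat_lit 1652) (.e (nat_lit 794661) (nat_lit 21) (.e (nat_lit 164179) (nat_lit 154) (.e (nat_lit 57371) (nat_lit 2) (.e (nat_lit 90160) (nat_lit 11) .nil)))) .nil)))) (.nd (nat_lit 5) (.nd (nat_lit 6) 
(.lf (nat_lit 445844) (.g (nat_lit 984) (.e (nat_lit 802560) (nat_lit 14) (.e (nat_lit 360489) (nat_lit 21) (.e (nat_lit 770057) (nat_lit 5) (.e (nat_lit 1595) (nat_lit 111) (.e (nat_lit 368384) (nat_lit 24) .nil))))) .nil)) 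
(.lf (nat_lit 445908) (.g (nat_lit 1780) (.e (nat_lit 794657) (nat_lit 21) (.e (nat_lit 164399) (nat_lit 256) (.e (nat_lit 57437) (nat_lit 17) (.e (nat_lit 376865) (nat_lit 22) (.e (nat_lit 90160) (nat_lit 11) .nil))))) .nil))) (.nd (nat_lit 6) 
(.lf (nat_lit 445876) (.g (nat_lit 1720) (.e (nat_lit 802560) (nat_lit 16) (.e (nat_lit 376842) (nat_lit 11) (.e (nat_lit 426011) (nat_lit 0) (.e (nat_lit 7591) (nat_lit 407) (.e (nat_lit 81664) (nat_lit 28) .nil))))) .nil)) 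
(.lf (nat_lit 445940) (.g (nat_lit 1937) (.e (nat_lit 794666) (nat_lit 22) (.e (nat_lit 196691) (nat_lit 18) (.e (nat_lit 1348) (nat_lit 102) (.e (nat_lit 286761) (nat_lit 13) (.e (nat_lit 401152) (nat_lit 15) (.e (nat_lit 385109) (nat_lit 51) .nil)))))) (.g (nat_lit 4) .nil .nil)))))) (.nd (nat_lit 4) (.nd (nat_lit 5) (.nd (nat_lit 6) 
(.lf (nat_lit 445836) (.g (nat_lit 935) (.e (nat_lit 802560) (nat_lit 14) (.e (nat_lit 360488) (nat_lit 20) (.e (nat_lit 761868) (nat_lit 5) (.e (nat_lit 1597) (nat_lit 111) (.e (nat_lit 368384) (nat_lit 24) .nil))))) .nil)) 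
(.lf (nat_lit 445900) (.g (nat_lit 433) (.e (nat_lit 802560) (nat_lit 16) (.e (nat_lit 376860) (nat_lit 21) (.e (nat_lit 57671) (nat_lit 152) .nil))) .nil))) (.nd (nat_lit 6) 
(.lf (nat_lit 445868) (.g (nat_lit 390) (.e (nat_lit 802560) (nat_lit 16) (.e (nat_lit 376840) (nat_lit 11) (.e (nat_lit 425987) (nat_lit 0) (.e (nat_lit 7590) (nat_lit 407) (.e (nat_lit 81664) (nat_lit 28) .nil))))) .nil)) 
(.lf (nat_lit 445932) (.g (nat_lit 3154) (.e (nat_lit 794662) (nat_lit 21) (.e (nat_lit 164183) (nat_lit 154) (.e (nat_lit 57373) (nat_lit 2) (.e (nat_lit 90158) (nat_lit 11) (.e (nat_lit 24665) (nat_lit 14) .nil))))) .nil)))) (.nd (nat_lit 5) (.nd (nat_lit 6) 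
(.lf (nat_lit 445852) (.g (nat_lit 686) (.e (nat_lit 802560) (nat_lit 14) (.e (nat_lit 360489) (nat_lit 21) (.e (nat_lit 770074) (nat_lit 10) (.e (nat_lit 81933) (nat_lit 20) .nil)))) .nil)) 
(.lf (nat_lit 445916) (.g (nat_lit 1963) (.e (nat_lit 794659) (nat_lit 21) (.e (nat_lit 164398) (nat_lit 256) (.e (nat_lit 57436) (nat_lit 17) (.e (nat_lit 376865) (nat_lit 22) (.e (nat_lit 90128) (nat_lit 9) .nil))))) .nil))) (.nd (nat_lit 6) 
(.lf (nat_lit 445884) (.g (nat_lit 676) (.e (nat_lit 802560) (nat_lit 16) (.e (nat_lit 376842) (nat_lit 11) (.e (nat_lit 426344) (nat_lit 14) .nil))) .nil)) 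
(.lf (nat_lit 445948) (.g (nat_lit 1217) (.e (nat_lit 794670) (nat_lit 23) (.e (nat_lit 204829) (nat_lit 18) (.e (nat_lit 57847) (nat_lit 252) .nil))) .nil))))))) (.nd (nat_lit 2) (.nd (nat_lit 3) (.nd (nat_lit 4) (.nd (nat_lit 5) (.nd (nat_lit 6) 
(.lf (nat_lit 445826) (.g (nat_lit 2482) (.e (nat_lit 802560) (nat_lit 14) (.e (nat_lit 360453) (nat_lit 0) (.e (nat_lit 7270) (nat_lit 385) (.e (nat_lit 122919) (nat_lit 15) (.e (nat_lit 368384) (nat_lit 24) .nil))))) .nil)) 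
(.lf (nat_lit 445890) (.g (nat_lit 1197) (.e (nat_lit 802560) (nat_lit 16) (.e (nat_lit 376857) (nat_lit 21) (.e (nat_lit 57684) (nat_lit 155) (.e (nat_lit 122917) (nat_lit 15) (.e (nat_lit 368384) (nat_lit 24) .nil))))) .nil))) (.nd (nat_lit 6) 
(.lf (nat_lit 445858) (.g (nat_lit 298) (.e (nat_lit 802560) (nat_lit 14) (.e (nat_lit 360491) (nat_lit 22) (.e (nat_lit 778359) (nat_lit 9) (.e (nat_lit 324) (nat_lit 24) (.e (nat_lit 368384) (nat_lit 24) .nil))))) .nil)) 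
(.lf (nat_lit 445922) (.g (nat_lit 3161) (.e (nat_lit 794660) (nat_lit 21) (.e (nat_lit 164183) (nat_lit 154) (.e (nat_lit 57373) (nat_lit 2) (.e (nat_lit 90158) (nat_lit 11) (.e (nat_lit 24650) (nat_lit 12) .nil))))) .nil)))) (.nd (nat_lit 5) (.nd (nat_lit 6) 
(.lf (nat_lit 445842) (.g (nat_lit 588) (.e (nat_lit 802560) (nat_lit 14) (.e (nat_lit 360489) (nat_lit 21) (.e (nat_lit 770056) (nat_lit 5) (.e (nat_lit 1598) (nat_lit 111) (.e (nat_lit 368384) (nat_lit 24) .nil))))) .nil)) 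
(.lf (nat_lit 445906) (.g (nat_lit 3267) (.e (nat_lit 794657) (nat_lit 21) (.e (nat_lit 164398) (nat_lit 256) (.e (nat_lit 57427) (nat_lit 15) (.e (nat_lit 360474) (nat_lit 8) (.e (nat_lit 557059) (nat_lit 0) (.e (nat_lit 1633) (nat_lit 114) (.e (nat_lit 385107) (nat_lit 51) .nil))))))) (.g (nat_lit 4) .nil .nil)))) (.nd (nat_lit 6) 
(.lf (nat_lit 445874) (.g (nat_lit 67) (.e (nat_lit 802560) (nat_lit 16) (.e (nat_lit 376840) (nat_lit 11) (.e (nat_lit 426072) (nat_lit 0) .nil))) .nil)) 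
(.lf (nat_lit 445938) (.g (nat_lit 1671) (.e (nat_lit 794665) (nat_lit 22) (.e (nat_lit 196691) (nat_lit 18) (.e (nat_lit 1349) (nat_lit 102) (.e (nat_lit 286761) (nat_lit 13) (.e (nat_lit 401152) (nat_lit 15) .nil))))) .nil))))) (.nd (nat_lit 4) (.nd (nat_lit 5) (.nd (nat_lit 6) 
(.lf (nat_lit 445834) (.g (nat_lit 332) (.e (nat_lit 802560) (nat_lit 14) (.e (nat_lit 360488) (nat_lit 20) (.e (nat_lit 761868) (nat_lit 5) (.e (nat_lit 1582) (nat_lit 111) .nil)))) .nil)) 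
(.lf (nat_lit 445898) (.g (nat_lit 1165) (.e (nat_lit 802560) (nat_lit 16) (.e (nat_lit 376859) (nat_lit 21) (.e (nat_lit 57684) (nat_lit 155) (.e (nat_lit 122919) (nat_lit 15) (.e (nat_lit 368384) (nat_lit 24) .nil))))) .nil))) (.nd (nat_lit 6) 
(.lf (nat_lit 445866) (.g (nat_lit 368) (.e (nat_lit 802560) (nat_lit 16) (.e (nat_lit 376840) (nat_lit 11) (.e (nat_lit 425984) (nat_lit 0) (.e (nat_lit 7590) (nat_lit 407) (.e (nat_lit 81664) (nat_lit 28) .nil))))) .nil)) 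
(.lf (nat_lit 445930) (.g (nat_lit 3029) (.e (nat_lit 794662) (nat_lit 21) (.e (nat_lit 164182) (nat_lit 154) (.e (nat_lit 57375) (nat_lit 2) (.e (nat_lit 90160) (nat_lit 11) (.e (nat_lit 24665) (nat_lit 14) .nil))))) .nil)))) (.nd (nat_lit 5) (.nd (nat_lit 6) 
(.lf (nat_lit 445850) (.g (nat_lit 776) (.e (nat_lit 802560) (nat_lit 14) (.e (nat_lit 360489) (nat_lit 21) (.e (nat_lit 770058) (nat_lit 5) (.e (nat_lit 1598) (nat_lit 111) (.e (nat_lit 368384) (nat_lit 24) .nil))))) .nil)) 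
(.lf (nat_lit 445914) (.g (nat_lit 3966) (.e (nat_lit 794659) (nat_lit 21) (.e (nat_lit 164398) (nat_lit 256) (.e (nat_lit 57427) (nat_lit 15) (.e (nat_lit 360474) (nat_lit 8) (.e (nat_lit 557058) (nat_lit 0) .nil))))) .nil))) (.nd (nat_lit 6) 
(.lf (nat_lit 445882) (.g (nat_lit 1638) (.e (nat_lit 802560) (nat_lit 16) (.e (nat_lit 376842) (nat_lit 11) (.e (nat_lit 426343) (nat_lit 14) (.e (nat_lit 491558) (nat_lit 10) (.e (nat_lit 352000) (nat_lit 46) .nil))))) .nil)) 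
(.lf (nat_lit 445946) (.g (nat_lit 3559) (.e (nat_lit 794669) (nat_lit 22) (.e (nat_lit 196656) (nat_lit 11) (.e (nat_lit 16473) (nat_lit 14) (.e (nat_lit 491538) (nat_lit 3) (.e (nat_lit 98386) (nat_lit 32) (.e (nat_lit 483072) (nat_lit 51) .nil)))))) (.g (nat_lit 5) .nil .nil))))))) (.nd (nat_lit 3) (.nd (nat_lit 4) (.nd (nat_lit 5) (.nd (nat_lit 6) 
(.lf (nat_lit 445830) (.g (nat_lit 1065) (.e (nat_lit 802560) (nat_lit 14) (.e (nat_lit 360453) (nat_lit 0) (.e (nat_lit 7273) (nat_lit 385) (.e (nat_lit 122919) (nat_lit 15) (.e (nat_lit 368384) (nat_lit 24) .nil))))) .nil)) 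
(.lf (nat_lit 445894) (.g (nat_lit 1175) (.e (nat_lit 802560) (nat_lit 16) (.e (nat_lit 376858) (nat_lit 21) (.e (nat_lit 57683) (nat_lit 155) (.e (nat_lit 122917) (nat_lit 15) (.e (nat_lit 368384) (nat_lit 24) .nil))))) .nil))) (.nd (nat_lit 6) 
(.lf (nat_lit 445862) (.g (nat_lit 750) (.e (nat_lit 802560) (nat_lit 14) (.e (nat_lit 360491) (nat_lit 22) (.e (nat_lit 778361) (nat_lit 9) (.e (nat_lit 324) (nat_lit 24) (.e (nat_lit 368384) (nat_lit 24) .nil))))) .nil)) 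
(.lf (nat_lit 445926) (.g (nat_lit 2226) (.e (nat_lit 794661) (nat_lit 21) (.e (nat_lit 164179) (nat_lit 154) (.e (nat_lit 57373) (nat_lit 2) (.e (nat_lit 90158) (nat_lit 11) .nil)))) .nil)))) (.nd (nat_lit 5) (.nd (nat_lit 6) 
(.lf (nat_lit 445846) (.g (nat_lit 538) (.e (nat_lit 802560) (nat_lit 14) (.e (nat_lit 360489) (nat_lit 21) (.e (nat_lit 770057) (nat_lit 5) (.e (nat_lit 1599) (nat_lit 111) (.e (nat_lit 368384) (nat_lit 24) .nil))))) .nil)) 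
(.lf (nat_lit 445910) (.g (nat_lit 2225) (.e (nat_lit 794658) (nat_lit 21) (.e (nat_lit 164398) (nat_lit 256) (.e (nat_lit 57427) (nat_lit 15) (.e (nat_lit 360475) (nat_lit 8) (.e (nat_lit 557057) (nat_lit 0) .nil))))) .nil))) (.nd (nat_lit 6) 
(.lf (nat_lit 445878) (.g (nat_lit 761) (.e (nat_lit 802560) (nat_lit 16) (.e (nat_lit 376842) (nat_lit 11) (.e (nat_lit 426179) (nat_lit 8) .nil))) .nil)) 
(.lf (nat_lit 445942) (.g (nat_lit 4032) (.e (nat_lit 794669) (nat_lit 22) (.e (nat_lit 196655) (nat_lit 11) (.e (nat_lit 16473) (nat_lit 14) (.e (nat_lit 491539) (nat_lit 3) (.e (nat_lit 98386) (nat_lit 32) (.e (nat_lit 483072) (nat_lit 51) .nil)))))) (.g (nat_lit 5) .nil .nil)))))) (.nd (nat_lit 4) (.nd (nat_lit 5) (.nd (nat_lit 6) 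
(.lf (nat_lit 445838) (.g (nat_lit 680) (.e (nat_lit 802560) (nat_lit 14) (.e (nat_lit 360488) (nat_lit 20) (.e (nat_lit 761869) (nat_lit 5) (.e (nat_lit 1585) (nat_lit 111) (.e (nat_lit 368384) (nat_lit 24) .nil))))) .nil)) 
(.lf (nat_lit 445902) (.g (nat_lit 445) (.e (nat_lit 802560) (nat_lit 18) (.e (nat_lit 393229) (nat_lit 9) (.e (nat_lit 336087) (nat_lit 9) .nil))) .nil))) (.nd (nat_lit 6) 
(.lf (nat_lit 445870) (.g (nat_lit 299) (.e (nat_lit 802560) (nat_lit 16) (.e (nat_lit 376840) (nat_lit 11) (.e (nat_lit 425989) (nat_lit 0) (.e (nat_lit 7590) (nat_lit 407) (.e (nat_lit 81664) (nat_lit 28) .nil))))) .nil)) 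
(.lf (nat_lit 445934) (.g (nat_lit 2153) (.e (nat_lit 794665) (nat_lit 22) (.e (nat_lit 196654) (nat_lit 11) (.e (nat_lit 16438) (nat_lit 9) (.e (nat_lit 426131) (nat_lit 3) (.e (nat_lit 204882) (nat_lit 32) .nil))))) .nil)))) (.nd (nat_lit 5) (.nd (nat_lit 6) 
(.lf (nat_lit 445854) (.g (nat_lit 339) (.e (nat_lit 802560) (nat_lit 14) (.e (nat_lit 360490) (nat_lit 22) (.e (nat_lit 778337) (nat_lit 9) (.e (nat_lit 323) (nat_lit 24) (.e (nat_lit 368384) (nat_lit 24) .nil))))) .nil)) 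
(.lf (nat_lit 445918) (.g (nat_lit 1305) (.e (nat_lit 794659) (nat_lit 21) (.e (nat_lit 164398) (nat_lit 256) (.e (nat_lit 57437) (nat_lit 17) (.e (nat_lit 376865) (nat_lit 22) .nil)))) .nil))) (.nd (nat_lit 6) 
(.lf (nat_lit 445886) (.g (nat_lit 2316) (.e (nat_lit 802560) (nat_lit 16) (.e (nat_lit 376857) (nat_lit 21) (.e (nat_lit 57681) (nat_lit 155) (.e (nat_lit 122917) (nat_lit 15) (.e (nat_lit 368384) (nat_lit 24) .nil))))) .nil)) 
(.lf (nat_lit 445950) (.g (nat_lit 1734) (.e (nat_lit 794670) (nat_lit 23) (.e (nat_lit 204830) (nat_lit 18) (.e (nat_lit 57852) (nat_lit 252) (.e (nat_lit 57378) (nat_lit 3) .nil)))) .nil)))))))) (.nd (nat_lit 1) (.nd (nat_lit 2) (.nd (nat_lit 3) (.nd (nat_lit 4) (.nd (nat_lit 5) (.nd (nat_lit 6) 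
(.lf (nat_lit 445825) (.g (nat_lit 2136) (.e (nat_lit 802560) (nat_lit 14) (.e (nat_lit 360453) (nat_lit 0) (.e (nat_lit 7270) (nat_lit 385) (.e (nat_lit 122917) (nat_lit 15) (.e (nat_lit 368384) (nat_lit 24) .nil))))) .nil)) 
(.lf (nat_lit 445889) (.g (nat_lit 1415) (.e (nat_lit 802560) (nat_lit 16) (.e (nat_lit 376857) (nat_lit 21) (.e (nat_lit 57683) (nat_lit 155) (.e (nat_lit 122919) (nat_lit 15) (.e (nat_lit 368384) (nat_lit 24) .nil))))) .nil))) (.nd (nat_lit 6) 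
(.lf (nat_lit 445857) (.g (nat_lit 178) (.e (nat_lit 802560) (nat_lit 14) (.e (nat_lit 360490) (nat_lit 22) (.e (nat_lit 778340) (nat_lit 9) (.e (nat_lit 323) (nat_lit 24) (.e (nat_lit 368384) (nat_lit 24) .nil))))) .nil)) 
(.lf (nat_lit 445921) (.g (nat_lit 1345) (.e (nat_lit 794659) (nat_lit 21) (.e (nat_lit 164399) (nat_lit 256) (.e (nat_lit 57437) (nat_lit 17) (.e (nat_lit 376869) (nat_lit 23) .nil)))) .nil)))) (.nd (nat_lit 5) (.nd (nat_lit 6) 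
(.lf (nat_lit 445841) (.g (nat_lit 648) (.e (nat_lit 802560) (nat_lit 14) (.e (nat_lit 360489) (nat_lit 21) (.e (nat_lit 770055) (nat_lit 5) (.e (nat_lit 1598) (nat_lit 111) (.e (nat_lit 368384) (nat_lit 24) .nil))))) .nil)) 
(.lf (nat_lit 445905) (.g (nat_lit 903) (.e (nat_lit 794642) (nat_lit 20) (.e (nat_lit 3471) (nat_lit 217) (.e (nat_lit 696343) (nat_lit 8) (.e (nat_lit 172126) (nat_lit 14) .nil)))) .nil))) (.nd (nat_lit 6) 
(.lf (nat_lit 445873) (.g (nat_lit 123) (.e (nat_lit 802560) (nat_lit 16) (.e (nat_lit 376840) (nat_lit 11) (.e (nat_lit 426071) (nat_lit 0) (.e (nat_lit 7936) (nat_lit 407) .nil)))) .nil)) 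
(.lf (nat_lit 445937) (.g (nat_lit 3984) (.e (nat_lit 794665) (nat_lit 22) (.e (nat_lit 196656) (nat_lit 11) (.e (nat_lit 16473) (nat_lit 14) (.e (nat_lit 491526) (nat_lit 0) (.e (nat_lit 1842) (nat_lit 123) (.e (nat_lit 548874) (nat_lit 5) (.e (nat_lit 1634) (nat_lit 114) (.e (nat_lit 385107) (nat_lit 51) .nil)))))))) (.g (nat_lit 4) .nil .nil)))))) 
(.nd (nat_lit 4) (.nd (nat_lit 5) (.nd (nat_lit 6) 
(.lf (nat_lit 445833) (.g (nat_lit 822) (.e (nat_lit 802560) (nat_lit 14) (.e (nat_lit 360488) (nat_lit 20) (.e (nat_lit 761867) (nat_lit 5) (.e (nat_lit 1597) (nat_lit 111) (.e (nat_lit 368384) (nat_lit 24) .nil))))) .nil)) 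
(.lf (nat_lit 445897) (.g (nat_lit 1197) (.e (nat_lit 802560) (nat_lit 16) (.e (nat_lit 376859) (nat_lit 21) (.e (nat_lit 57684) (nat_lit 155) (.e (nat_lit 122917) (nat_lit 15) (.e (nat_lit 368384) (nat_lit 24) .nil))))) .nil))) (.nd (nat_lit 6) 
(.lf (nat_lit 445865) (.g (nat_lit 344) (.e (nat_lit 802560) (nat_lit 16) (.e (nat_lit 376839) (nat_lit 11) (.e (nat_lit 425984) (nat_lit 0) (.e (nat_lit 7590) (nat_lit 407) (.e (nat_lit 81664) (nat_lit 28) .nil))))) .nil)) 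
(.lf (nat_lit 445929) (.g (nat_lit 189) (.e (nat_lit 794661) (nat_lit 21) (.e (nat_lit 164186) (nat_lit 157) (.e (nat_lit 229402) (nat_lit 12) .nil))) .nil)))) (.nd (nat_lit 5) (.nd (nat_lit 6) 
(.lf (nat_lit 445849) (.g (nat_lit 902) (.e (nat_lit 802560) (nat_lit 14) (.e (nat_lit 360489) (nat_lit 21) (.e (nat_lit 770058) (nat_lit 5) (.e (nat_lit 1595) (nat_lit 111) (.e (nat_lit 368384) (nat_lit 24) .nil))))) .nil)) 
(.lf (nat_lit 445913) (.g (nat_lit 3092) (.e (nat_lit 794659) (nat_lit 21) (.e (nat_lit 164183) (nat_lit 154) (.e (nat_lit 57373) (nat_lit 2) (.e (nat_lit 90160) (nat_lit 11) (.e (nat_lit 24650) (nat_lit 12) .nil))))) .nil))) (.nd (nat_lit 6) 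
(.lf (nat_lit 445881) (.g (nat_lit 646) (.e (nat_lit 802560) (nat_lit 16) (.e (nat_lit 376842) (nat_lit 11) (.e (nat_lit 426342) (nat_lit 14) .nil))) .nil)) 
(.lf (nat_lit 445945) (.g (nat_lit 4266) (.e (nat_lit 794669) (nat_lit 22) (.e (nat_lit 196656) (nat_lit 11) (.e (nat_lit 16473) (nat_lit 14) (.e (nat_lit 491538) (nat_lit 3) (.e (nat_lit 98384) (nat_lit 32) (.e (nat_lit 483072) (nat_lit 51) .nil)))))) (.g (nat_lit 5) .nil .nil))))))) (.nd (nat_lit 3) (.nd (nat_lit 4) (.nd (nat_lit 5) (.nd (nat_lit 6) 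
(.lf (nat_lit 445829) (.g (nat_lit 1060) (.e (nat_lit 802560) (nat_lit 14) (.e (nat_lit 360453) (nat_lit 0) (.e (nat_lit 7273) (nat_lit 385) (.e (nat_lit 122917) (nat_lit 15) (.e (nat_lit 368384) (nat_lit 24) .nil))))) .nil)) 
(.lf (nat_lit 445893) (.g (nat_lit 1876) (.e (nat_lit 802560) (nat_lit 16) (.e (nat_lit 376858) (nat_lit 21) (.e (nat_lit 57681) (nat_lit 155) (.e (nat_lit 122917) (nat_lit 15) (.e (nat_lit 368384) (nat_lit 24) .nil))))) .nil))) (.nd (nat_lit 6) 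
(.lf (nat_lit 445861) (.g (nat_lit 903) (.e (nat_lit 802560) (nat_lit 14) (.e (nat_lit 360491) (nat_lit 22) (.e (nat_lit 778361) (nat_lit 9) (.e (nat_lit 321) (nat_lit 24) (.e (nat_lit 368384) (nat_lit 24) .nil))))) .nil)) 
(.lf (nat_lit 445925) (.g (nat_lit 3194) (.e (nat_lit 794661) (nat_lit 21) (.e (nat_lit 164179) (nat_lit 154) (.e (nat_lit 57371) (nat_lit 2) (.e (nat_lit 90160) (nat_lit 11) (.e (nat_lit 24650) (nat_lit 12) .nil))))) .nil)))) (.nd (nat_lit 5) (.nd (nat_lit 6) 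
(.lf (nat_lit 445845) (.g (nat_lit 682) (.e (nat_lit 802560) (nat_lit 14) (.e (nat_lit 360489) (nat_lit 21) (.e (nat_lit 770057) (nat_lit 5) (.e (nat_lit 1598) (nat_lit 111) (.e (nat_lit 368384) (nat_lit 24) .nil))))) .nil)) 
(.lf (nat_lit 445909) (.g (nat_lit 3719) (.e (nat_lit 794658) (nat_lit 21) (.e (nat_lit 164398) (nat_lit 256) (.e (nat_lit 57427) (nat_lit 15) (.e (nat_lit 360474) (nat_lit 8) (.e (nat_lit 557091) (nat_lit 12) (.e (nat_lit 164003) (nat_lit 40) (.e (nat_lit 655373) (nat_lit 3) (.e (nat_lit 164060) (nat_lit 57) .nil)))))))) (.g (nat_lit 6) .nil .nil)))) (.nd (nat_lit 6) 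
(.lf (nat_lit 445877) (.g (nat_lit 1779) (.e (nat_lit 802560) (nat_lit 16) (.e (nat_lit 376842) (nat_lit 11) (.e (nat_lit 426011) (nat_lit 0) (.e (nat_lit 7593) (nat_lit 407) (.e (nat_lit 81664) (nat_lit 28) .nil))))) .nil)) 
(.lf (nat_lit 445941) (.g (nat_lit 5118) (.e (nat_lit 794669) (nat_lit 22) (.e (nat_lit 196655) (nat_lit 11) (.e (nat_lit 16470) (nat_lit 14) (.e (nat_lit 491540) (nat_lit 3) (.e (nat_lit 98386) (nat_lit 32) (.e (nat_lit 483072) (nat_lit 51) .nil)))))) (.g (nat_lit 5) .nil .nil)))))) (.nd (nat_lit 4) (.nd (nat_lit 5) (.nd (nat_lit 6) 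
(.lf (nat_lit 445837) (.g (nat_lit 832) (.e (nat_lit 802560) (nat_lit 14) (.e (nat_lit 360488) (nat_lit 20) (.e (nat_lit 761869) (nat_lit 5) (.e (nat_lit 1582) (nat_lit 111) (.e (nat_lit 368384) (nat_lit 24) .nil))))) .nil)) 
(.lf (nat_lit 445901) (.g (nat_lit 1740) (.e (nat_lit 802560) (nat_lit 17) (.e (nat_lit 385068) (nat_lit 26) (.e (nat_lit 532560) (nat_lit 14) (.e (nat_lit 376836) (nat_lit 0) .nil)))) .nil))) (.nd (nat_lit 6) 
(.lf (nat_lit 445869) (.g (nat_lit 228) (.e (nat_lit 802560) (nat_lit 16) (.e (nat_lit 376840) (nat_lit 11) (.e (nat_lit 425987) (nat_lit 0) (.e (nat_lit 7592) (nat_lit 407) .nil)))) .nil)) 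
(.lf (nat_lit 445933) (.g (nat_lit 158) (.e (nat_lit 794662) (nat_lit 21) (.e (nat_lit 164304) (nat_lit 226) (.e (nat_lit 1072) (nat_lit 81) .nil))) .nil)))) (.nd (nat_lit 5) (.nd (nat_lit 6) 
(.lf (nat_lit 445853) (.g (nat_lit 441) (.e (nat_lit 802560) (nat_lit 14) (.e (nat_lit 360490) (nat_lit 22) (.e (nat_lit 778334) (nat_lit 9) (.e (nat_lit 323) (nat_lit 24) (.e (nat_lit 368384) (nat_lit 24) .nil))))) .nil)) 
(.lf (nat_lit 445917) (.g (nat_lit 1583) (.e (nat_lit 794659) (nat_lit 21) (.e (nat_lit 164398) (nat_lit 256) (.e (nat_lit 57437) (nat_lit 17) (.e (nat_lit 376864) (nat_lit 22) .nil)))) .nil))) (.nd (nat_lit 6) 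
(.lf (nat_lit 445885) (.g (nat_lit 741) (.e (nat_lit 802560) (nat_lit 16) (.e (nat_lit 376855) (nat_lit 20) (.e (nat_lit 2276) (nat_lit 150) (.e (nat_lit 770057) (nat_lit 5) (.e (nat_lit 1599) (nat_lit 111) .nil))))) .nil)) 
(.lf (nat_lit 445949) (.g (nat_lit 826) (.e (nat_lit 794670) (nat_lit 23) (.e (nat_lit 204830) (nat_lit 18) (.e (nat_lit 57852) (nat_lit 252) .nil))) .nil))))))) (.nd (nat_lit 2) (.nd (nat_lit 3) (.nd (nat_lit 4) (.nd (nat_lit 5) (.nd (nat_lit 6) 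
(.lf (nat_lit 445827) (.g (nat_lit 1607) (.e (nat_lit 802560) (nat_lit 14) (.e (nat_lit 360453) (nat_lit 0) (.e (nat_lit 7272) (nat_lit 385) (.e (nat_lit 122917) (nat_lit 15) (.e (nat_lit 368384) (nat_lit 24) .nil))))) .nil)) 
(.lf (nat_lit 445891) (.g (nat_lit 1170) (.e (nat_lit 802560) (nat_lit 16) (.e (nat_lit 376857) (nat_lit 21) (.e (nat_lit 57684) (nat_lit 155) (.e (nat_lit 122919) (nat_lit 15) (.e (nat_lit 368384) (nat_lit 24) .nil))))) .nil))) (.nd (nat_lit 6) 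
(.lf (nat_lit 445859) (.g (nat_lit 360) (.e (nat_lit 802560) (nat_lit 14) (.e (nat_lit 360491) (nat_lit 22) (.e (nat_lit 778360) (nat_lit 9) (.e (nat_lit 321) (nat_lit 24) (.e (nat_lit 368384) (nat_lit 24) .nil))))) .nil)) 
(.lf (nat_lit 445923) (.g (nat_lit 1731) (.e (nat_lit 794661) (nat_lit 21) (.e (nat_lit 164179) (nat_lit 154) (.e (nat_lit 57371) (nat_lit 2) (.e (nat_lit 90158) (nat_lit 11) .nil)))) .nil)))) (.nd (nat_lit 5) (.nd (nat_lit 6) 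
(.lf (nat_lit 445843) (.g (nat_lit 1005) (.e (nat_lit 802560) (nat_lit 14) (.e (nat_lit 360489) (nat_lit 21) (.e (nat_lit 770057) (nat_lit 5) (.e (nat_lit 1589) (nat_lit 111) (.e (nat_lit 368384) (nat_lit 24) .nil))))) .nil)) 
(.lf (nat_lit 445907) (.g (nat_lit 1799) (.e (nat_lit 794657) (nat_lit 21) (.e (nat_lit 164399) (nat_lit 256) (.e (nat_lit 57437) (nat_lit 17) (.e (nat_lit 376864) (nat_lit 22) (.e (nat_lit 90133) (nat_lit 9) .nil))))) .nil))) (.nd (nat_lit 6) 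
(.lf (nat_lit 445875) (.g (nat_lit 691) (.e (nat_lit 802560) (nat_lit 16) (.e (nat_lit 376842) (nat_lit 11) (.e (nat_lit 426009) (nat_lit 0) .nil))) .nil)) 
(.lf (nat_lit 445939) (.g (nat_lit 3849) (.e (nat_lit 794666) (nat_lit 22) (.e (nat_lit 196656) (nat_lit 11) (.e (nat_lit 16473) (nat_lit 14) (.e (nat_lit 491526) (nat_lit 0) (.e (nat_lit 1842) (nat_lit 123) (.e (nat_lit 548874) (nat_lit 5) (.e (nat_lit 1634) (nat_lit 114) (.e (nat_lit 385107) (nat_lit 51) .nil)))))))) (.g (nat_lit 4) .nil .nil)))))) 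
(.nd (nat_lit 4) (.nd (nat_lit 5) (.nd (nat_lit 6) 
(.lf (nat_lit 445835) (.g (nat_lit 599) (.e (nat_lit 802560) (nat_lit 14) (.e (nat_lit 360488) (nat_lit 20) (.e (nat_lit 761868) (nat_lit 5) (.e (nat_lit 1585) (nat_lit 111) (.e (nat_lit 368384) (nat_lit 24) .nil))))) .nil)) 
(.lf (nat_lit 445899) (.g (nat_lit 459) (.e (nat_lit 802560) (nat_lit 16) (.e (nat_lit 376860) (nat_lit 21) (.e (nat_lit 57665) (nat_lit 152) .nil))) .nil))) (.nd (nat_lit 6) 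
(.lf (nat_lit 445867) (.g (nat_lit 233) (.e (nat_lit 802560) (nat_lit 16) (.e (nat_lit 376840) (nat_lit 11) (.e (nat_lit 425984) (nat_lit 0) (.e (nat_lit 7592) (nat_lit 407) .nil)))) .nil)) 
(.lf (nat_lit 445931) (.g (nat_lit 3481) (.e (nat_lit 794662) (nat_lit 21) (.e (nat_lit 164183) (nat_lit 154) (.e (nat_lit 57373) (nat_lit 2) (.e (nat_lit 90158) (nat_lit 11) (.e (nat_lit 24650) (nat_lit 12) (.e (nat_lit 385041) (nat_lit 19) (.e (nat_lit 171776) (nat_lit 118) .nil))))))) (.g (nat_lit 5) .nil .nil))))) (.nd (nat_lit 5) (.nd (nat_lit 6) 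
(.lf (nat_lit 445851) (.g (nat_lit 509) (.e (nat_lit 802560) (nat_lit 14) (.e (nat_lit 360489) (nat_lit 21) (.e (nat_lit 770058) (nat_lit 5) (.e (nat_lit 1599) (nat_lit 111) (.e (nat_lit 368384) (nat_lit 24) .nil))))) .nil)) 
(.lf (nat_lit 445915) (.g (nat_lit 4042) (.e (nat_lit 794659) (nat_lit 21) (.e (nat_lit 164398) (nat_lit 256) (.e (nat_lit 57427) (nat_lit 15) (.e (nat_lit 360474) (nat_lit 8) (.e (nat_lit 557091) (nat_lit 12) (.e (nat_lit 164003) (nat_lit 40) (.e (nat_lit 655373) (nat_lit 3) (.e (nat_lit 164060) (nat_lit 57) .nil)))))))) (.g (nat_lit 6) .nil .nil)))) (.nd (nat_lit 6) 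
(.lf (nat_lit 445883) (.g (nat_lit 1771) (.e (nat_lit 802560) (nat_lit 16) (.e (nat_lit 376842) (nat_lit 11) (.e (nat_lit 426343) (nat_lit 14) (.e (nat_lit 491560) (nat_lit 10) (.e (nat_lit 352000) (nat_lit 46) .nil))))) .nil)) 
(.lf (nat_lit 445947) (.g (nat_lit 3824) (.e (nat_lit 794669) (nat_lit 22) (.e (nat_lit 196656) (nat_lit 11) (.e (nat_lit 16473) (nat_lit 14) (.e (nat_lit 491539) (nat_lit 3) (.e (nat_lit 98386) (nat_lit 32) (.e (nat_lit 483072) (nat_lit 51) .nil)))))) (.g (nat_lit 5) .nil .nil))))))) (.nd (nat_lit 3) (.nd (nat_lit 4) (.nd (nat_lit 5) (.nd (nat_lit 6) 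
(.lf (nat_lit 445831) (.g (nat_lit 717) (.e (nat_lit 802560) (nat_lit 14) (.e (nat_lit 360488) (nat_lit 20) (.e (nat_lit 761866) (nat_lit 5) (.e (nat_lit 1582) (nat_lit 111) (.e (nat_lit 368384) (nat_lit 24) .nil))))) .nil)) 
(.lf (nat_lit 445895) (.g (nat_lit 1705) (.e (nat_lit 802560) (nat_lit 16) (.e (nat_lit 376859) (nat_lit 21) (.e (nat_lit 57683) (nat_lit 155) (.e (nat_lit 122917) (nat_lit 15) (.e (nat_lit 368384) (nat_lit 24) .nil))))) .nil))) (.nd (nat_lit 6) 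
(.lf (nat_lit 445863) (.g (nat_lit 970) (.e (nat_lit 802560) (nat_lit 14) (.e (nat_lit 360491) (nat_lit 22) (.e (nat_lit 778362) (nat_lit 9) (.e (nat_lit 321) (nat_lit 24) (.e (nat_lit 368384) (nat_lit 24) .nil))))) .nil)) 
(.lf (nat_lit 445927) (.g (nat_lit 1408) (.e (nat_lit 794661) (nat_lit 21) (.e (nat_lit 164179) (nat_lit 154) (.e (nat_lit 57377) (nat_lit 3) (.e (nat_lit 98317) (nat_lit 9) .nil)))) .nil)))) (.nd (nat_lit 5) (.nd (nat_lit 6) 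
(.lf (nat_lit 445847) (.g (nat_lit 879) (.e (nat_lit 802560) (nat_lit 14) (.e (nat_lit 360489) (nat_lit 21) (.e (nat_lit 770058) (nat_lit 5) (.e (nat_lit 1586) (nat_lit 111) (.e (nat_lit 368384) (nat_lit 24) .nil))))) .nil)) 
(.lf (nat_lit 445911) (.g (nat_lit 1541) (.e (nat_lit 794658) (nat_lit 21) (.e (nat_lit 164399) (nat_lit 256) (.e (nat_lit 57437) (nat_lit 17) (.e (nat_lit 376864) (nat_lit 22) .nil)))) .nil))) (.nd (nat_lit 6) 
(.lf (nat_lit 445879) (.g (nat_lit 1227) (.e (nat_lit 802560) (nat_lit 16) (.e (nat_lit 376842) (nat_lit 11) (.e (nat_lit 426181) (nat_lit 8) (.e (nat_lit 417817) (nat_lit 10) (.e (nat_lit 5024) (nat_lit 290) .nil))))) .nil)) 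
(.lf (nat_lit 445943) (.g (nat_lit 4721) (.e (nat_lit 794669) (nat_lit 22) (.e (nat_lit 196656) (nat_lit 11) (.e (nat_lit 16470) (nat_lit 14) (.e (nat_lit 491540) (nat_lit 3) (.e (nat_lit 98386) (nat_lit 32) (.e (nat_lit 483072) (nat_lit 51) .nil)))))) (.g (nat_lit 4) .nil .nil)))))) (.nd (nat_lit 4) (.nd (nat_lit 5) (.nd (nat_lit 6) 
(.lf (nat_lit 445839) (.g (nat_lit 962) (.e (nat_lit 802560) (nat_lit 14) (.e (nat_lit 360488) (nat_lit 20) (.e (nat_lit 761869) (nat_lit 5) (.e (nat_lit 1597) (nat_lit 111) (.e (nat_lit 368384) (nat_lit 24) .nil))))) .nil)) 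
(.lf (nat_lit 445903) (.g (nat_lit 1120) (.e (nat_lit 802560) (nat_lit 18) (.e (nat_lit 393229) (nat_lit 9) (.e (nat_lit 336088) (nat_lit 9) (.e (nat_lit 336016) (nat_lit 2) .nil)))) .nil))) (.nd (nat_lit 6) 
(.lf (nat_lit 445871) (.g (nat_lit 202) (.e (nat_lit 802560) (nat_lit 16) (.e (nat_lit 376840) (nat_lit 11) (.e (nat_lit 425989) (nat_lit 0) (.e (nat_lit 7592) (nat_lit 407) (.e (nat_lit 81664) (nat_lit 28) .nil))))) .nil)) 
(.lf (nat_lit 445935) (.g (nat_lit 3306) (.e (nat_lit 794665) (nat_lit 22) (.e (nat_lit 196655) (nat_lit 11) (.e (nat_lit 16473) (nat_lit 14) (.e (nat_lit 491526) (nat_lit 0) (.e (nat_lit 1842) (nat_lit 123) (.e (nat_lit 548874) (nat_lit 5) (.e (nat_lit 1634) (nat_lit 114) (.e (nat_lit 385109) (nat_lit 51) .nil)))))))) (.g (nat_lit 4) .nil .nil))))) (.nd (nat_lit 5) (.nd (nat_lit 6) 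
(.lf (nat_lit 445855) (.g (nat_lit 429) (.e (nat_lit 802560) (nat_lit 14) (.e (nat_lit 360490) (nat_lit 22) (.e (nat_lit 778339) (nat_lit 9) (.e (nat_lit 320) (nat_lit 24) (.e (nat_lit 368384) (nat_lit 24) .nil))))) .nil)) 
(.lf (nat_lit 445919) (.g (nat_lit 2062) (.e (nat_lit 794659) (nat_lit 21) (.e (nat_lit 164398) (nat_lit 256) (.e (nat_lit 57437) (nat_lit 17) (.e (nat_lit 376865) (nat_lit 22) (.e (nat_lit 90128) (nat_lit 9) .nil))))) .nil))) (.nd (nat_lit 6) 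
(.lf (nat_lit 445887) (.g (nat_lit 2365) (.e (nat_lit 802560) (nat_lit 16) (.e (nat_lit 376857) (nat_lit 21) (.e (nat_lit 57681) (nat_lit 155) (.e (nat_lit 122919) (nat_lit 15) (.e (nat_lit 368384) (nat_lit 24) .nil))))) .nil)) 
(.lf (nat_lit 445951) (.g (nat_lit 3189) (.e (nat_lit 794671) (nat_lit 23) (.e (nat_lit 204829) (nat_lit 18) (.e (nat_lit 57847) (nat_lit 252) (.e (nat_lit 57377) (nat_lit 3) .nil)))) .nil)))))))))

noncomputable def tv5486 : DT := (.nd (nat_lit 0) (.nd (nat_lit 1) (.nd (nat_lit 2) (.nd (nat_lit 3) (.nd (nat_lit 4) (.nd (nat_lit 5) (.nd (nat_lit 6) 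
(.lf (nat_lit 445952) (.g (nat_lit 3174) (.e (nat_lit 794672) (nat_lit 23) (.e (nat_lit 204829) (nat_lit 18) (.e (nat_lit 57847) (nat_lit 252) (.e (nat_lit 57370) (nat_lit 2) .nil)))) .nil)) 
(.lf (nat_lit 446016) (.g (nat_lit 2335) (.e (nat_lit 794684) (nat_lit 25) (.e (nat_lit 221194) (nat_lit 11) (.e (nat_lit 336069) (nat_lit 8) (.e (nat_lit 327715) (nat_lit 16) (.e (nat_lit 286759) (nat_lit 12) .nil))))) .nil))) (.nd (nat_lit 6) 
(.lf (nat_lit 445984) (.g (nat_lit 2283) (.e (nat_lit 794674) (nat_lit 24) (.e (nat_lit 213030) (nat_lit 11) (.e (nat_lit 24617) (nat_lit 7) (.e (nat_lit 319532) (nat_lit 16) (.e (nat_lit 286759) (nat_lit 12) .nil))))) .nil)) 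
(.lf (nat_lit 446048) (.g (nat_lit 624) (.e (nat_lit 802822) (nat_lit 11) (.e (nat_lit 336004) (nat_lit 2) (.e (nat_lit 90185) (nat_lit 17) .nil))) .nil)))) (.nd (nat_lit 5) (.nd (nat_lit 6) 
(.lf (nat_lit 445968) (.g (nat_lit 3249) (.e (nat_lit 794673) (nat_lit 23) (.e (nat_lit 204830) (nat_lit 18) (.e (nat_lit 57926) (nat_lit 282) (.e (nat_lit 163873) (nat_lit 3) (.e (nat_lit 204872) (nat_lit 30) .nil))))) .nil)) 
(.lf (nat_lit 446032) (.g (nat_lit 1889) (.e (nat_lit 802818) (nat_lit 0) (.e (nat_lit 1855) (nat_lit 124) (.e (nat_lit 557105) (nat_lit 14) (.e (nat_lit 180252) (nat_lit 10) (.e (nat_lit 573489) (nat_lit 14) .nil))))) .nil))) (.nd (nat_lit 6) 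
(.lf (nat_lit 446000) (.g (nat_lit 2644) (.e (nat_lit 794680) (nat_lit 24) (.e (nat_lit 213032) (nat_lit 11) (.e (nat_lit 24584) (nat_lit 0) (.e (nat_lit 6113) (nat_lit 332) (.e (nat_lit 1361) (nat_lit 102) .nil))))) .nil)) 
(.lf (nat_lit 446064) (.g (nat_lit 1121) (.e (nat_lit 802822) (nat_lit 11) (.e (nat_lit 336012) (nat_lit 2) (.e (nat_lit 90176) (nat_lit 15) (.e (nat_lit 188431) (nat_lit 20) .nil)))) .nil))))) (.nd (nat_lit 4) (.nd (nat_lit 5) (.nd (nat_lit 6) 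
(.lf (nat_lit 445960) (.g (nat_lit 1775) (.e (nat_lit 794672) (nat_lit 23) (.e (nat_lit 204852) (nat_lit 26) (.e (nat_lit 336316) (nat_lit 17) (.e (nat_lit 196630) (nat_lit 9) .nil)))) .nil)) 
(.lf (nat_lit 446024) (.g (nat_lit 1685) (.e (nat_lit 802816) (nat_lit 0) (.e (nat_lit 1781) (nat_lit 119) (.e (nat_lit 516129) (nat_lit 3) (.e (nat_lit 221210) (nat_lit 22) (.e (nat_lit 196668) (nat_lit 14) .nil))))) .nil))) (.nd (nat_lit 6) 
(.lf (nat_lit 445992) (.g (nat_lit 1550) (.e (nat_lit 794679) (nat_lit 24) (.e (nat_lit 213029) (nat_lit 10) (.e (nat_lit 8359) (nat_lit 88) (.e (nat_lit 712753) (nat_lit 30) (.e (nat_lit 450579) (nat_lit 5) (.e (nat_lit 532484) (nat_lit 0) (.e (nat_lit 7936) (nat_lit 153) .nil))))))) (.g (nat_lit 6) .nil .nil))) 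
(.lf (nat_lit 446056) (.g (nat_lit 3097) (.e (nat_lit 802822) (nat_lit 11) (.e (nat_lit 336011) (nat_lit 2) (.e (nat_lit 90170) (nat_lit 13) (.e (nat_lit 172106) (nat_lit 10) (.e (nat_lit 434244) (nat_lit 28) (.e (nat_lit 573474) (nat_lit 12) (.e (nat_lit 65280) (nat_lit 58) .nil))))))) (.g (nat_lit 5) .nil .nil))))) (.nd (nat_lit 5) (.nd (nat_lit 6) 
(.lf (nat_lit 445976) (.g (nat_lit 2261) (.e (nat_lit 794673) (nat_lit 23) (.e (nat_lit 204862) (nat_lit 27) (.e (nat_lit 344117) (nat_lit 21) (.e (nat_lit 516097) (nat_lit 0) (.e (nat_lit 3460) (nat_lit 216) .nil))))) .nil)) 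
(.lf (nat_lit 446040) (.g (nat_lit 1337) (.e (nat_lit 802820) (nat_lit 0) (.e (nat_lit 6112) (nat_lit 332) (.e (nat_lit 2777) (nat_lit 178) (.e (nat_lit 286731) (nat_lit 1) .nil)))) .nil))) (.nd (nat_lit 6) 
(.lf (nat_lit 446008) (.g (nat_lit 2510) (.e (nat_lit 794683) (nat_lit 25) (.e (nat_lit 221187) (nat_lit 0) (.e (nat_lit 1855) (nat_lit 124) (.e (nat_lit 557109) (nat_lit 15) (.e (nat_lit 188461) (nat_lit 26) (.e (nat_lit 253987) (nat_lit 10) (.e (nat_lit 8276) (nat_lit 47) .nil))))))) (.g (nat_lit 5) .nil .nil))) 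
(.lf (nat_lit 446072) (.g (nat_lit 2635) (.e (nat_lit 802822) (nat_lit 11) (.e (nat_lit 336027) (nat_lit 3) (.e (nat_lit 98365) (nat_lit 26) (.e (nat_lit 426187) (nat_lit 9) (.e (nat_lit 426436) (nat_lit 18) (.e (nat_lit 98320) (nat_lit 17) (.e (nat_lit 3783) (nat_lit 230) .nil))))))) (.g (nat_lit 5) .nil .nil))))))) (.nd (nat_lit 3) (.nd (nat_lit 4) (.nd (nat_lit 5) (.nd (nat_lit 6) 
(.lf (nat_lit 445956) (.g (nat_lit 1927) (.e (nat_lit 794672) (nat_lit 23) (.e (nat_lit 204830) (nat_lit 18) (.e (nat_lit 57852) (nat_lit 252) (.e (nat_lit 57377) (nat_lit 3) .nil)))) .nil)) 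
(.lf (nat_lit 446020) (.g (nat_lit 2437) (.e (nat_lit 794684) (nat_lit 25) (.e (nat_lit 221208) (nat_lit 21) (.e (nat_lit 164332) (nat_lit 230) (.e (nat_lit 163884) (nat_lit 5) (.e (nat_lit 229120) (nat_lit 12) (.e (nat_lit 344117) (nat_lit 21) (.e (nat_lit 516099) (nat_lit 0) (.e (nat_lit 3771) (nat_lit 229) .nil)))))))) (.g (nat_lit 7) .nil .nil)))) (.nd (nat_lit 6) 
(.lf (nat_lit 445988) (.g (nat_lit 1746) (.e (nat_lit 794677) (nat_lit 24) (.e (nat_lit 213032) (nat_lit 11) (.e (nat_lit 24616) (nat_lit 7) (.e (nat_lit 319530) (nat_lit 16) .nil)))) .nil)) 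
(.lf (nat_lit 446052) (.g (nat_lit 4117) (.e (nat_lit 802822) (nat_lit 11) (.e (nat_lit 336011) (nat_lit 2) (.e (nat_lit 90170) (nat_lit 13) (.e (nat_lit 172106) (nat_lit 10) (.e (nat_lit 434244) (nat_lit 28) (.e (nat_lit 573451) (nat_lit 9) (.e (nat_lit 1004) (nat_lit 81) (.e (nat_lit 2370) (nat_lit 154) .nil)))))))) (.g (nat_lit 8) .nil .nil))))) (.nd (nat_lit 5) (.nd (nat_lit 6) 
(.lf (nat_lit 445972) (.g (nat_lit 2358) (.e (nat_lit 794673) (nat_lit 23) (.e (nat_lit 204852) (nat_lit 26) (.e (nat_lit 336326) (nat_lit 18) (.e (nat_lit 204830) (nat_lit 18) (.e (nat_lit 57830) (nat_lit 250) (.e (nat_lit 1175) (nat_lit 87) (.e (nat_lit 57464) (nat_lit 23) (.e (nat_lit 516100) (nat_lit 0) (.e (nat_lit 3771) (nat_lit 229) .nil))))))))) (.g (nat_lit 4) .nil .nil))) 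
(.lf (nat_lit 446036) (.g (nat_lit 4263) (.e (nat_lit 802818) (nat_lit 0) (.e (nat_lit 1858) (nat_lit 124) (.e (nat_lit 557105) (nat_lit 14) (.e (nat_lit 180252) (nat_lit 10) (.e (nat_lit 573488) (nat_lit 14) (.e (nat_lit 81664) (nat_lit 5) (.e (nat_lit 532490) (nat_lit 0) (.e (nat_lit 7936) (nat_lit 154) .nil)))))))) (.g (nat_lit 5) .nil .nil)))) (.nd (nat_lit 6) 
(.lf (nat_lit 446004) (.g (nat_lit 2185) (.e (nat_lit 794682) (nat_lit 25) (.e (nat_lit 221194) (nat_lit 11) (.e (nat_lit 336067) (nat_lit 8) (.e (nat_lit 327715) (nat_lit 16) (.e (nat_lit 286759) (nat_lit 12) .nil))))) .nil)) 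
(.lf (nat_lit 446068) (.g (nat_lit 421) (.e (nat_lit 802822) (nat_lit 11) (.e (nat_lit 336012) (nat_lit 2) (.e (nat_lit 90178) (nat_lit 15) .nil))) .nil))))) (.nd (nat_lit 4) (.nd (nat_lit 5) (.nd (nat_lit 6) 
(.lf (nat_lit 445964) (.g (nat_lit 706) (.e (nat_lit 794673) (nat_lit 23) (.e (nat_lit 204830) (nat_lit 18) (.e (nat_lit 57852) (nat_lit 252) .nil))) .nil)) 
(.lf (nat_lit 446028) (.g (nat_lit 2257) (.e (nat_lit 802818) (nat_lit 0) (.e (nat_lit 1788) (nat_lit 119) (.e (nat_lit 516129) (nat_lit 3) (.e (nat_lit 221210) (nat_lit 22) (.e (nat_lit 196668) (nat_lit 14) .nil))))) .nil))) (.nd (nat_lit 6) 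
(.lf (nat_lit 445996) (.g (nat_lit 2677) (.e (nat_lit 794680) (nat_lit 24) (.e (nat_lit 213028) (nat_lit 10) (.e (nat_lit 8360) (nat_lit 88) (.e (nat_lit 712752) (nat_lit 29) (.e (nat_lit 442427) (nat_lit 23) (.e (nat_lit 204817) (nat_lit 17) (.e (nat_lit 7936) (nat_lit 153) .nil))))))) (.g (nat_lit 6) .nil .nil))) 
(.lf (nat_lit 446060) (.g (nat_lit 3184) (.e (nat_lit 802822) (nat_lit 11) (.e (nat_lit 336011) (nat_lit 2) (.e (nat_lit 90170) (nat_lit 13) (.e (nat_lit 172113) (nat_lit 10) (.e (nat_lit 434248) (nat_lit 28) .nil))))) .nil)))) (.nd (nat_lit 5) (.nd (nat_lit 6) 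
(.lf (nat_lit 445980) (.g (nat_lit 2871) (.e (nat_lit 794673) (nat_lit 23) (.e (nat_lit 204863) (nat_lit 27) (.e (nat_lit 344117) (nat_lit 21) (.e (nat_lit 516115) (nat_lit 1) (.e (nat_lit 164150) (nat_lit 152) .nil))))) .nil)) 
(.lf (nat_lit 446044) (.g (nat_lit 587) (.e (nat_lit 802822) (nat_lit 11) (.e (nat_lit 336004) (nat_lit 2) (.e (nat_lit 90176) (nat_lit 15) .nil))) .nil))) (.nd (nat_lit 6) 
(.lf (nat_lit 446012) (.g (nat_lit 2516) (.e (nat_lit 794683) (nat_lit 25) (.e (nat_lit 221212) (nat_lit 22) (.e (nat_lit 196628) (nat_lit 9) (.e (nat_lit 1676) (nat_lit 116) (.e (nat_lit 401459) (nat_lit 13) (.e (nat_lit 483347) (nat_lit 17) (.e (nat_lit 7936) (nat_lit 153) .nil))))))) (.g (nat_lit 6) .nil .nil))) 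
(.lf (nat_lit 446076) (.g (nat_lit 3045) (.e (nat_lit 802822) (nat_lit 11) (.e (nat_lit 336027) (nat_lit 3) (.e (nat_lit 98365) (nat_lit 26) (.e (nat_lit 426306) (nat_lit 12) (.e (nat_lit 475177) (nat_lit 24) (.e (nat_lit 516097) (nat_lit 0) (.e (nat_lit 3783) (nat_lit 230) .nil))))))) (.g (nat_lit 5) .nil .nil)))))))) 
(.nd (nat_lit 2) (.nd (nat_lit 3) (.nd (nat_lit 4) (.nd (nat_lit 5) (.nd (nat_lit 6) 
(.lf (nat_lit 445954) (.g (nat_lit 1961) (.e (nat_lit 794672) (nat_lit 23) (.e (nat_lit 204829) (nat_lit 18) (.e (nat_lit 57847) (nat_lit 252) (.e (nat_lit 57379) (nat_lit 3) .nil)))) .nil)) 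
(.lf (nat_lit 446018) (.g (nat_lit 2795) (.e (nat_lit 794684) (nat_lit 25) (.e (nat_lit 221194) (nat_lit 11) (.e (nat_lit 336070) (nat_lit 8) (.e (nat_lit 327715) (nat_lit 16) (.e (nat_lit 286759) (nat_lit 12) .nil))))) .nil))) (.nd (nat_lit 6) 
(.lf (nat_lit 445986) (.g (nat_lit 1498) (.e (nat_lit 794676) (nat_lit 24) (.e (nat_lit 212997) (nat_lit 0) (.e (nat_lit 1428) (nat_lit 108) (.e (nat_lit 336434) (nat_lit 30) (.e (nat_lit 450579) (nat_lit 5) (.e (nat_lit 532484) (nat_lit 0) (.e (nat_lit 7936) (nat_lit 153) .nil))))))) (.g (nat_lit 6) .nil .nil))) 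
(.lf (nat_lit 446050) (.g (nat_lit 1379) (.e (nat_lit 802822) (nat_lit 11) (.e (nat_lit 336011) (nat_lit 2) (.e (nat_lit 90170) (nat_lit 13) (.e (nat_lit 172106) (nat_lit 10) .nil)))) .nil)))) (.nd (nat_lit 5) (.nd (nat_lit 6) 
(.lf (nat_lit 445970) (.g (nat_lit 3177) (.e (nat_lit 794673) (nat_lit 23) (.e (nat_lit 204831) (nat_lit 18) (.e (nat_lit 57849) (nat_lit 252) (.e (nat_lit 57379) (nat_lit 3) (.e (nat_lit 98313) (nat_lit 9) (.e (nat_lit 336027) (nat_lit 3) (.e (nat_lit 98321) (nat_lit 17) (.e (nat_lit 3771) (nat_lit 229) .nil)))))))) (.g (nat_lit 5) .nil .nil))) 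
(.lf (nat_lit 446034) (.g (nat_lit 1762) (.e (nat_lit 802818) (nat_lit 0) (.e (nat_lit 1858) (nat_lit 124) (.e (nat_lit 557105) (nat_lit 14) (.e (nat_lit 180252) (nat_lit 10) .nil)))) .nil))) (.nd (nat_lit 6) 
(.lf (nat_lit 446002) (.g (nat_lit 670) (.e (nat_lit 794682) (nat_lit 25) (.e (nat_lit 221190) (nat_lit 11) (.e (nat_lit 336059) (nat_lit 7) (.e (nat_lit 327424) (nat_lit 16) .nil)))) .nil)) 
(.lf (nat_lit 446066) (.g (nat_lit 1529) (.e (nat_lit 802822) (nat_lit 11) (.e (nat_lit 336012) (nat_lit 2) (.e (nat_lit 90176) (nat_lit 15) (.e (nat_lit 188439) (nat_lit 20) (.e (nat_lit 7936) (nat_lit 200) .nil))))) .nil))))) (.nd (nat_lit 4) (.nd (nat_lit 5) (.nd (nat_lit 6) 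
(.lf (nat_lit 445962) (.g (nat_lit 2992) (.e (nat_lit 794673) (nat_lit 23) (.e (nat_lit 204829) (nat_lit 18) (.e (nat_lit 57847) (nat_lit 252) (.e (nat_lit 57370) (nat_lit 2) .nil)))) .nil)) 
(.lf (nat_lit 446026) (.g (nat_lit 838) (.e (nat_lit 802816) (nat_lit 0) (.e (nat_lit 1796) (nat_lit 119) (.e (nat_lit 516131) (nat_lit 3) (.e (nat_lit 221212) (nat_lit 22) .nil)))) .nil))) (.nd (nat_lit 6) 
(.lf (nat_lit 445994) (.g (nat_lit 1595) (.e (nat_lit 794679) (nat_lit 24) (.e (nat_lit 213032) (nat_lit 11) (.e (nat_lit 24617) (nat_lit 7) (.e (nat_lit 319529) (nat_lit 16) .nil)))) .nil)) 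
(.lf (nat_lit 446058) (.g (nat_lit 3235) (.e (nat_lit 802822) (nat_lit 11) (.e (nat_lit 336011) (nat_lit 2) (.e (nat_lit 90170) (nat_lit 13) (.e (nat_lit 172113) (nat_lit 10) (.e (nat_lit 434245) (nat_lit 28) .nil))))) .nil)))) (.nd (nat_lit 5) (.nd (nat_lit 6) 
(.lf (nat_lit 445978) (.g (nat_lit 2412) (.e (nat_lit 794673) (nat_lit 23) (.e (nat_lit 204862) (nat_lit 27) (.e (nat_lit 344117) (nat_lit 21) (.e (nat_lit 516097) (nat_lit 0) (.e (nat_lit 3460) (nat_lit 216) (.e (nat_lit 688158) (nat_lit 13) (.e (nat_lit 1254) (nat_lit 92) (.e (nat_lit 98321) (nat_lit 17) (.e (nat_lit 3771) (nat_lit 229) .nil))))))))) (.g (nat_lit 4) .nil .nil))) 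
(.lf (nat_lit 446042) (.g (nat_lit 1209) (.e (nat_lit 810752) (nat_lit 3) (.e (nat_lit 98342) (nat_lit 20) (.e (nat_lit 221212) (nat_lit 22) (.e (nat_lit 196669) (nat_lit 14) .nil)))) .nil))) (.nd (nat_lit 6) 
(.lf (nat_lit 446010) (.g (nat_lit 2799) (.e (nat_lit 794683) (nat_lit 25) (.e (nat_lit 221211) (nat_lit 22) (.e (nat_lit 196630) (nat_lit 9) (.e (nat_lit 1669) (nat_lit 116) (.e (nat_lit 401459) (nat_lit 13) (.e (nat_lit 483347) (nat_lit 17) (.e (nat_lit 7936) (nat_lit 153) .nil))))))) (.g (nat_lit 6) .nil .nil))) 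
(.lf (nat_lit 446074) (.g (nat_lit 2107) (.e (nat_lit 802822) (nat_lit 11) (.e (nat_lit 336027) (nat_lit 3) (.e (nat_lit 98365) (nat_lit 26) (.e (nat_lit 426188) (nat_lit 9) (.e (nat_lit 426436) (nat_lit 18) (.e (nat_lit 98319) (nat_lit 17) (.e (nat_lit 3783) (nat_lit 230) .nil))))))) (.g (nat_lit 4) .nil .nil))))))) (.nd (nat_lit 3) (.nd (nat_lit 4) (.nd (nat_lit 5) (.nd (nat_lit 6) 
(.lf (nat_lit 445958) (.g (nat_lit 923) (.e (nat_lit 794672) (nat_lit 23) (.e (nat_lit 204852) (nat_lit 26) (.e (nat_lit 336316) (nat_lit 17) .nil))) .nil)) 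
(.lf (nat_lit 446022) (.g (nat_lit 2750) (.e (nat_lit 794684) (nat_lit 25) (.e (nat_lit 221208) (nat_lit 21) (.e (nat_lit 164332) (nat_lit 230) (.e (nat_lit 163885) (nat_lit 5) (.e (nat_lit 229120) (nat_lit 12) (.e (nat_lit 344117) (nat_lit 21) (.e (nat_lit 516099) (nat_lit 0) (.e (nat_lit 3771) (nat_lit 229) .nil)))))))) (.g (nat_lit 7) .nil .nil)))) (.nd (nat_lit 6) 
(.lf (nat_lit 445990) (.g (nat_lit 1227) (.e (nat_lit 794678) (nat_lit 24) (.e (nat_lit 213032) (nat_lit 11) (.e (nat_lit 24617) (nat_lit 7) .nil))) .nil)) 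
(.lf (nat_lit 446054) (.g (nat_lit 3625) (.e (nat_lit 802822) (nat_lit 11) (.e (nat_lit 336011) (nat_lit 2) (.e (nat_lit 90170) (nat_lit 13) (.e (nat_lit 172106) (nat_lit 10) (.e (nat_lit 434244) (nat_lit 28) (.e (nat_lit 573451) (nat_lit 9) (.e (nat_lit 1005) (nat_lit 81) (.e (nat_lit 2375) (nat_lit 154) .nil)))))))) (.g (nat_lit 6) .nil .nil))))) (.nd (nat_lit 5) (.nd (nat_lit 6) 
(.lf (nat_lit 445974) (.g (nat_lit 2750) (.e (nat_lit 794673) (nat_lit 23) (.e (nat_lit 204852) (nat_lit 26) (.e (nat_lit 336326) (nat_lit 18) (.e (nat_lit 204831) (nat_lit 18) (.e (nat_lit 57830) (nat_lit 250) (.e (nat_lit 1175) (nat_lit 87) (.e (nat_lit 57464) (nat_lit 23) (.e (nat_lit 516099) (nat_lit 0) (.e (nat_lit 3771) (nat_lit 229) .nil))))))))) (.g (nat_lit 5) .nil .nil))) 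
(.lf (nat_lit 446038) (.g (nat_lit 3256) (.e (nat_lit 802818) (nat_lit 0) (.e (nat_lit 1859) (nat_lit 124) (.e (nat_lit 557105) (nat_lit 14) (.e (nat_lit 180252) (nat_lit 10) (.e (nat_lit 573488) (nat_lit 14) (.e (nat_lit 81664) (nat_lit 5) (.e (nat_lit 532490) (nat_lit 0) (.e (nat_lit 7936) (nat_lit 154) .nil)))))))) (.g (nat_lit 5) .nil .nil)))) (.nd (nat_lit 6) 
(.lf (nat_lit 446006) (.g (nat_lit 547) (.e (nat_lit 794682) (nat_lit 25) (.e (nat_lit 221210) (nat_lit 22) (.e (nat_lit 196628) (nat_lit 9) .nil))) .nil)) 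
(.lf (nat_lit 446070) (.g (nat_lit 1577) (.e (nat_lit 802822) (nat_lit 11) (.e (nat_lit 336021) (nat_lit 3) (.e (nat_lit 98365) (nat_lit 26) (.e (nat_lit 426187) (nat_lit 9) .nil)))) .nil))))) (.nd (nat_lit 4) (.nd (nat_lit 5) (.nd (nat_lit 6) 
(.lf (nat_lit 445966) (.g (nat_lit 3930) (.e (nat_lit 794673) (nat_lit 23) (.e (nat_lit 204830) (nat_lit 18) (.e (nat_lit 57852) (nat_lit 252) (.e (nat_lit 57371) (nat_lit 2) (.e (nat_lit 90160) (nat_lit 11) (.e (nat_lit 24608) (nat_lit 3) (.e (nat_lit 98321) (nat_lit 17) (.e (nat_lit 3771) (nat_lit 229) .nil)))))))) (.g (nat_lit 5) .nil .nil))) 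
(.lf (nat_lit 446030) (.g (nat_lit 1046) (.e (nat_lit 802818) (nat_lit 0) (.e (nat_lit 1802) (nat_lit 119) (.e (nat_lit 516131) (nat_lit 3) (.e (nat_lit 221212) (nat_lit 22) (.e (nat_lit 196669) (nat_lit 14) .nil))))) .nil))) (.nd (nat_lit 6) 
(.lf (nat_lit 445998) (.g (nat_lit 2654) (.e (nat_lit 794680) (nat_lit 24) (.e (nat_lit 213029) (nat_lit 10) (.e (nat_lit 8359) (nat_lit 88) (.e (nat_lit 712752) (nat_lit 29) (.e (nat_lit 442427) (nat_lit 23) (.e (nat_lit 204817) (nat_lit 17) (.e (nat_lit 7936) (nat_lit 153) .nil))))))) (.g (nat_lit 6) .nil .nil))) 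
(.lf (nat_lit 446062) (.g (nat_lit 1376) (.e (nat_lit 802822) (nat_lit 11) (.e (nat_lit 336012) (nat_lit 2) (.e (nat_lit 90176) (nat_lit 15) (.e (nat_lit 188424) (nat_lit 20) .nil)))) .nil)))) (.nd (nat_lit 5) (.nd (nat_lit 6) 
(.lf (nat_lit 445982) (.g (nat_lit 2956) (.e (nat_lit 794673) (nat_lit 23) (.e (nat_lit 204880) (nat_lit 32) (.e (nat_lit 385068) (nat_lit 26) (.e (nat_lit 532501) (nat_lit 1) (.e (nat_lit 57830) (nat_lit 250) .nil))))) .nil)) 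
(.lf (nat_lit 446046) (.g (nat_lit 1712) (.e (nat_lit 802822) (nat_lit 11) (.e (nat_lit 336004) (nat_lit 2) (.e (nat_lit 90176) (nat_lit 15) (.e (nat_lit 188430) (nat_lit 20) .nil)))) .nil))) (.nd (nat_lit 6) 
(.lf (nat_lit 446014) (.g (nat_lit 1099) (.e (nat_lit 794684) (nat_lit 25) (.e (nat_lit 221194) (nat_lit 11) (.e (nat_lit 336059) (nat_lit 7) .nil))) .nil)) 
(.lf (nat_lit 446078) (.g (nat_lit 624) (.e (nat_lit 802822) (nat_lit 11) (.e (nat_lit 336027) (nat_lit 3) (.e (nat_lit 98370) (nat_lit 28) .nil))) .nil)))))))) (.nd (nat_lit 1) (.nd (nat_lit 2) (.nd (nat_lit 3) (.nd (nat_lit 4) (.nd (nat_lit 5) (.nd (nat_lit 6) 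
(.lf (nat_lit 445953) (.g (nat_lit 2707) (.e (nat_lit 794672) (nat_lit 23) (.e (nat_lit 204829) (nat_lit 18) (.e (nat_lit 57847) (nat_lit 252) (.e (nat_lit 57377) (nat_lit 3) .nil)))) .nil)) 
(.lf (nat_lit 446017) (.g (nat_lit 1099) (.e (nat_lit 794684) (nat_lit 25) (.e (nat_lit 221194) (nat_lit 11) (.e (nat_lit 336070) (nat_lit 8) .nil))) .nil))) (.nd (nat_lit 6) 
(.lf (nat_lit 445985) (.g (nat_lit 2250) (.e (nat_lit 794675) (nat_lit 24) (.e (nat_lit 213032) (nat_lit 11) (.e (nat_lit 24616) (nat_lit 7) (.e (nat_lit 319530) (nat_lit 16) (.e (nat_lit 286759) (nat_lit 12) .nil))))) .nil)) 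
(.lf (nat_lit 446049) (.g (nat_lit 1410) (.e (nat_lit 802822) (nat_lit 11) (.e (nat_lit 336004) (nat_lit 2) (.e (nat_lit 90185) (nat_lit 17) (.e (nat_lit 237605) (nat_lit 9) .nil)))) .nil)))) (.nd (nat_lit 5) (.nd (nat_lit 6) 
(.lf (nat_lit 445969) (.g (nat_lit 2364) (.e (nat_lit 794673) (nat_lit 23) (.e (nat_lit 204830) (nat_lit 18) (.e (nat_lit 57927) (nat_lit 282) (.e (nat_lit 163874) (nat_lit 3) (.e (nat_lit 204872) (nat_lit 30) .nil))))) .nil)) 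
(.lf (nat_lit 446033) (.g (nat_lit 1985) (.e (nat_lit 802818) (nat_lit 0) (.e (nat_lit 1858) (nat_lit 124) (.e (nat_lit 557103) (nat_lit 14) (.e (nat_lit 180250) (nat_lit 10) (.e (nat_lit 573487) (nat_lit 14) .nil))))) .nil))) (.nd (nat_lit 6) 
(.lf (nat_lit 446001) (.g (nat_lit 3063) (.e (nat_lit 794680) (nat_lit 24) (.e (nat_lit 213032) (nat_lit 11) (.e (nat_lit 24617) (nat_lit 7) (.e (nat_lit 319533) (nat_lit 16) (.e (nat_lit 286758) (nat_lit 12) .nil))))) .nil)) 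
(.lf (nat_lit 446065) (.g (nat_lit 1576) (.e (nat_lit 802822) (nat_lit 11) (.e (nat_lit 336012) (nat_lit 2) (.e (nat_lit 90176) (nat_lit 15) (.e (nat_lit 188431) (nat_lit 20) (.e (nat_lit 7936) (nat_lit 200) .nil))))) .nil))))) (.nd (nat_lit 4) (.nd (nat_lit 5) (.nd (nat_lit 6) 
(.lf (nat_lit 445961) (.g (nat_lit 3409) (.e (nat_lit 794673) (nat_lit 23) (.e (nat_lit 204821) (nat_lit 17) (.e (nat_lit 1040) (nat_lit 81) (.e (nat_lit 5195) (nat_lit 294) (.e (nat_lit 57379) (nat_lit 3) (.e (nat_lit 98313) (nat_lit 9) (.e (nat_lit 336027) (nat_lit 3) (.e (nat_lit 98321) (nat_lit 17) (.e (nat_lit 3771) (nat_lit 229) .nil))))))))) (.g (nat_lit 8) .nil .nil))) 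
(.lf (nat_lit 446025) (.g (nat_lit 1981) (.e (nat_lit 802816) (nat_lit 0) (.e (nat_lit 1781) (nat_lit 119) (.e (nat_lit 516131) (nat_lit 3) (.e (nat_lit 221212) (nat_lit 22) (.e (nat_lit 196668) (nat_lit 14) (.e (nat_lit 81664) (nat_lit 5) (.e (nat_lit 532490) (nat_lit 0) (.e (nat_lit 7936) (nat_lit 154) .nil)))))))) (.g (nat_lit 5) .nil .nil)))) (.nd (nat_lit 6) 
(.lf (nat_lit 445993) (.g (nat_lit 2228) (.e (nat_lit 794679) (nat_lit 24) (.e (nat_lit 213032) (nat_lit 11) (.e (nat_lit 24617) (nat_lit 7) (.e (nat_lit 319528) (nat_lit 16) (.e (nat_lit 286759) (nat_lit 12) .nil))))) .nil)) 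
(.lf (nat_lit 446057) (.g (nat_lit 2299) (.e (nat_lit 802822) (nat_lit 11) (.e (nat_lit 336011) (nat_lit 2) (.e (nat_lit 90170) (nat_lit 13) (.e (nat_lit 172113) (nat_lit 10) .nil)))) .nil)))) (.nd (nat_lit 5) (.nd (nat_lit 6) 
(.lf (nat_lit 445977) (.g (nat_lit 2273) (.e (nat_lit 794673) (nat_lit 23) (.e (nat_lit 204862) (nat_lit 27) (.e (nat_lit 344117) (nat_lit 21) (.e (nat_lit 516097) (nat_lit 0) (.e (nat_lit 3460) (nat_lit 216) (.e (nat_lit 688157) (nat_lit 13) (.e (nat_lit 1254) (nat_lit 92) (.e (nat_lit 98321) (nat_lit 17) (.e (nat_lit 3771) (nat_lit 229) .nil))))))))) (.g (nat_lit 4) .nil .nil))) 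
(.lf (nat_lit 446041) (.g (nat_lit 1201) (.e (nat_lit 810752) (nat_lit 3) (.e (nat_lit 98342) (nat_lit 20) (.e (nat_lit 221212) (nat_lit 22) (.e (nat_lit 196668) (nat_lit 14) .nil)))) .nil))) (.nd (nat_lit 6) 
(.lf (nat_lit 446009) (.g (nat_lit 1130) (.e (nat_lit 794683) (nat_lit 25) (.e (nat_lit 221194) (nat_lit 11) (.e (nat_lit 336070) (nat_lit 8) .nil))) .nil)) 
(.lf (nat_lit 446073) (.g (nat_lit 1187) (.e (nat_lit 802822) (nat_lit 11) (.e (nat_lit 336027) (nat_lit 3) (.e (nat_lit 98365) (nat_lit 26) (.e (nat_lit 426188) (nat_lit 9) .nil)))) .nil)))))) (.nd (nat_lit 3) (.nd (nat_lit 4) (.nd (nat_lit 5) (.nd (nat_lit 6) 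
(.lf (nat_lit 445957) (.g (nat_lit 1757) (.e (nat_lit 794672) (nat_lit 23) (.e (nat_lit 204830) (nat_lit 18) (.e (nat_lit 57852) (nat_lit 252) (.e (nat_lit 57378) (nat_lit 3) .nil)))) .nil)) 
(.lf (nat_lit 446021) (.g (nat_lit 2546) (.e (nat_lit 794684) (nat_lit 25) (.e (nat_lit 221208) (nat_lit 21) (.e (nat_lit 164332) (nat_lit 230) (.e (nat_lit 163885) (nat_lit 5) (.e (nat_lit 229120) (nat_lit 12) (.e (nat_lit 344117) (nat_lit 21) (.e (nat_lit 516097) (nat_lit 0) (.e (nat_lit 3776) (nat_lit 229) .nil)))))))) (.g (nat_lit 7) .nil .nil)))) (.nd (nat_lit 6) 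
(.lf (nat_lit 445989) (.g (nat_lit 1227) (.e (nat_lit 794677) (nat_lit 24) (.e (nat_lit 213032) (nat_lit 11) (.e (nat_lit 24617) (nat_lit 7) .nil))) .nil)) 
(.lf (nat_lit 446053) (.g (nat_lit 2063) (.e (nat_lit 802822) (nat_lit 11) (.e (nat_lit 336011) (nat_lit 2) (.e (nat_lit 90170) (nat_lit 13) (.e (nat_lit 172106) (nat_lit 10) (.e (nat_lit 434244) (nat_lit 28) (.e (nat_lit 573451) (nat_lit 9) (.e (nat_lit 1004) (nat_lit 81) (.e (nat_lit 2375) (nat_lit 154) .nil)))))))) (.g (nat_lit 4) .nil .nil))))) (.nd (nat_lit 5) (.nd (nat_lit 6) 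
(.lf (nat_lit 445973) (.g (nat_lit 2066) (.e (nat_lit 794673) (nat_lit 23) (.e (nat_lit 204852) (nat_lit 26) (.e (nat_lit 336326) (nat_lit 18) (.e (nat_lit 204831) (nat_lit 18) (.e (nat_lit 57830) (nat_lit 250) .nil))))) .nil)) 
(.lf (nat_lit 446037) (.g (nat_lit 1698) (.e (nat_lit 802818) (nat_lit 0) (.e (nat_lit 1859) (nat_lit 124) (.e (nat_lit 557103) (nat_lit 14) (.e (nat_lit 180250) (nat_lit 10) (.e (nat_lit 573487) (nat_lit 14) .nil))))) .nil))) (.nd (nat_lit 6) 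
(.lf (nat_lit 446005) (.g (nat_lit 2741) (.e (nat_lit 794682) (nat_lit 25) (.e (nat_lit 221194) (nat_lit 11) (.e (nat_lit 336070) (nat_lit 8) (.e (nat_lit 327715) (nat_lit 16) (.e (nat_lit 286759) (nat_lit 12) .nil))))) .nil)) 
(.lf (nat_lit 446069) (.g (nat_lit 1426) (.e (nat_lit 802822) (nat_lit 11) (.e (nat_lit 336012) (nat_lit 2) (.e (nat_lit 90178) (nat_lit 15) (.e (nat_lit 188426) (nat_lit 20) .nil)))) .nil))))) (.nd (nat_lit 4) (.nd (nat_lit 5) (.nd (nat_lit 6) 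
(.lf (nat_lit 445965) (.g (nat_lit 4394) (.e (nat_lit 794673) (nat_lit 23) (.e (nat_lit 204830) (nat_lit 18) (.e (nat_lit 57852) (nat_lit 252) (.e (nat_lit 57371) (nat_lit 2) (.e (nat_lit 90158) (nat_lit 11) (.e (nat_lit 24608) (nat_lit 3) (.e (nat_lit 98321) (nat_lit 17) (.e (nat_lit 3771) (nat_lit 229) .nil)))))))) (.g (nat_lit 6) .nil .nil))) 
(.lf (nat_lit 446029) (.g (nat_lit 1740) (.e (nat_lit 802818) (nat_lit 0) (.e (nat_lit 1802) (nat_lit 119) (.e (nat_lit 516131) (nat_lit 3) (.e (nat_lit 221212) (nat_lit 22) (.e (nat_lit 196668) (nat_lit 14) (.e (nat_lit 81664) (nat_lit 5) (.e (nat_lit 532490) (nat_lit 0) (.e (nat_lit 7936) (nat_lit 154) .nil)))))))) (.g (nat_lit 5) .nil .nil)))) (.nd (nat_lit 6) 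
(.lf (nat_lit 445997) (.g (nat_lit 1794) (.e (nat_lit 794680) (nat_lit 24) (.e (nat_lit 213028) (nat_lit 10) (.e (nat_lit 8360) (nat_lit 88) (.e (nat_lit 712753) (nat_lit 30) (.e (nat_lit 450579) (nat_lit 5) (.e (nat_lit 532484) (nat_lit 0) (.e (nat_lit 7936) (nat_lit 153) .nil))))))) (.g (nat_lit 6) .nil .nil))) 
(.lf (nat_lit 446061) (.g (nat_lit 1100) (.e (nat_lit 802822) (nat_lit 11) (.e (nat_lit 336012) (nat_lit 2) (.e (nat_lit 90176) (nat_lit 15) (.e (nat_lit 196352) (nat_lit 2) .nil)))) .nil)))) (.nd (nat_lit 5) (.nd (nat_lit 6) 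
(.lf (nat_lit 445981) (.g (nat_lit 868) (.e (nat_lit 794673) (nat_lit 23) (.e (nat_lit 204863) (nat_lit 27) (.e (nat_lit 344132) (nat_lit 26) .nil))) .nil)) 
(.lf (nat_lit 446045) (.g (nat_lit 1535) (.e (nat_lit 802822) (nat_lit 11) (.e (nat_lit 336004) (nat_lit 2) (.e (nat_lit 90176) (nat_lit 15) (.e (nat_lit 196352) (nat_lit 3) .nil)))) .nil))) (.nd (nat_lit 6) 
(.lf (nat_lit 446013) (.g (nat_lit 2489) (.e (nat_lit 794684) (nat_lit 25) (.e (nat_lit 221194) (nat_lit 11) (.e (nat_lit 336054) (nat_lit 7) (.e (nat_lit 319531) (nat_lit 16) (.e (nat_lit 286759) (nat_lit 12) .nil))))) .nil)) 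
(.lf (nat_lit 446077) (.g (nat_lit 483) (.e (nat_lit 802822) (nat_lit 11) (.e (nat_lit 336027) (nat_lit 3) (.e (nat_lit 98369) (nat_lit 28) .nil))) .nil))))))) (.nd (nat_lit 2) (.nd (nat_lit 3) (.nd (nat_lit 4) (.nd (nat_lit 5) (.nd (nat_lit 6) 
(.lf (nat_lit 445955) (.g (nat_lit 2377) (.e (nat_lit 794672) (nat_lit 23) (.e (nat_lit 204829) (nat_lit 18) (.e (nat_lit 57849) (nat_lit 252) (.e (nat_lit 57379) (nat_lit 3) (.e (nat_lit 98313) (nat_lit 9) .nil))))) .nil)) 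
(.lf (nat_lit 446019) (.g (nat_lit 2233) (.e (nat_lit 794684) (nat_lit 25) (.e (nat_lit 221208) (nat_lit 21) (.e (nat_lit 164332) (nat_lit 230) (.e (nat_lit 163884) (nat_lit 5) (.e (nat_lit 229120) (nat_lit 12) (.e (nat_lit 344117) (nat_lit 21) (.e (nat_lit 516097) (nat_lit 0) (.e (nat_lit 3776) (nat_lit 229) .nil)))))))) (.g (nat_lit 7) .nil .nil)))) (.nd (nat_lit 6) 
(.lf (nat_lit 445987) (.g (nat_lit 1361) (.e (nat_lit 794677) (nat_lit 24) (.e (nat_lit 213032) (nat_lit 11) (.e (nat_lit 24584) (nat_lit 0) .nil))) .nil)) 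
(.lf (nat_lit 446051) (.g (nat_lit 4001) (.e (nat_lit 802822) (nat_lit 11) (.e (nat_lit 336011) (nat_lit 2) (.e (nat_lit 90170) (nat_lit 13) (.e (nat_lit 172106) (nat_lit 10) (.e (nat_lit 434244) (nat_lit 28) (.e (nat_lit 573451) (nat_lit 9) (.e (nat_lit 1002) (nat_lit 81) (.e (nat_lit 2372) (nat_lit 154) .nil)))))))) (.g (nat_lit 8) .nil .nil))))) (.nd (nat_lit 5) (.nd (nat_lit 6) 
(.lf (nat_lit 445971) (.g (nat_lit 2964) (.e (nat_lit 794673) (nat_lit 23) (.e (nat_lit 204852) (nat_lit 26) (.e (nat_lit 336326) (nat_lit 18) (.e (nat_lit 204830) (nat_lit 18) (.e (nat_lit 57830) (nat_lit 250) (.e (nat_lit 1175) (nat_lit 87) (.e (nat_lit 57464) (nat_lit 23) (.e (nat_lit 516099) (nat_lit 0) (.e (nat_lit 3771) (nat_lit 229) .nil))))))))) (.g (nat_lit 5) .nil .nil))) 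
(.lf (nat_lit 446035) (.g (nat_lit 3839) (.e (nat_lit 802818) (nat_lit 0) (.e (nat_lit 1858) (nat_lit 124) (.e (nat_lit 557105) (nat_lit 14) (.e (nat_lit 180252) (nat_lit 10) (.e (nat_lit 573487) (nat_lit 14) (.e (nat_lit 81664) (nat_lit 5) (.e (nat_lit 532490) (nat_lit 0) (.e (nat_lit 7936) (nat_lit 154) .nil)))))))) (.g (nat_lit 5) .nil .nil)))) (.nd (nat_lit 6) 
(.lf (nat_lit 446003) (.g (nat_lit 1055) (.e (nat_lit 794682) (nat_lit 25) (.e (nat_lit 221194) (nat_lit 11) (.e (nat_lit 336059) (nat_lit 7) .nil))) .nil)) 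
(.lf (nat_lit 446067) (.g (nat_lit 1897) (.e (nat_lit 802822) (nat_lit 11) (.e (nat_lit 336012) (nat_lit 2) (.e (nat_lit 90176) (nat_lit 15) (.e (nat_lit 188453) (nat_lit 24) (.e (nat_lit 229515) (nat_lit 122) .nil))))) .nil))))) (.nd (nat_lit 4) (.nd (nat_lit 5) (.nd (nat_lit 6) 
(.lf (nat_lit 445963) (.g (nat_lit 1813) (.e (nat_lit 794673) (nat_lit 23) (.e (nat_lit 204829) (nat_lit 18) (.e (nat_lit 57927) (nat_lit 282) (.e (nat_lit 163868) (nat_lit 2) .nil)))) .nil)) 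
(.lf (nat_lit 446027) (.g (nat_lit 1557) (.e (nat_lit 802816) (nat_lit 0) (.e (nat_lit 1796) (nat_lit 119) (.e (nat_lit 516131) (nat_lit 3) (.e (nat_lit 221212) (nat_lit 22) (.e (nat_lit 196668) (nat_lit 14) .nil))))) .nil))) (.nd (nat_lit 6) 
(.lf (nat_lit 445995) (.g (nat_lit 1780) (.e (nat_lit 794679) (nat_lit 24) (.e (nat_lit 213032) (nat_lit 11) (.e (nat_lit 24617) (nat_lit 7) (.e (nat_lit 319532) (nat_lit 16) .nil)))) .nil)) 
(.lf (nat_lit 446059) (.g (nat_lit 3264) (.e (nat_lit 802822) (nat_lit 11) (.e (nat_lit 336011) (nat_lit 2) (.e (nat_lit 90170) (nat_lit 13) (.e (nat_lit 172113) (nat_lit 10) (.e (nat_lit 434247) (nat_lit 28) .nil))))) .nil)))) (.nd (nat_lit 5) (.nd (nat_lit 6) 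
(.lf (nat_lit 445979) (.g (nat_lit 1301) (.e (nat_lit 794673) (nat_lit 23) (.e (nat_lit 204862) (nat_lit 27) (.e (nat_lit 344129) (nat_lit 26) (.e (nat_lit 557090) (nat_lit 12) .nil)))) .nil)) 
(.lf (nat_lit 446043) (.g (nat_lit 2354) (.e (nat_lit 810752) (nat_lit 4) (.e (nat_lit 106536) (nat_lit 11) (.e (nat_lit 16463) (nat_lit 13) (.e (nat_lit 483408) (nat_lit 26) (.e (nat_lit 385110) (nat_lit 52) .nil))))) .nil))) (.nd (nat_lit 6) 
(.lf (nat_lit 446011) (.g (nat_lit 2478) (.e (nat_lit 794683) (nat_lit 25) (.e (nat_lit 221211) (nat_lit 22) (.e (nat_lit 196630) (nat_lit 9) (.e (nat_lit 1669) (nat_lit 116) (.e (nat_lit 401459) (nat_lit 13) (.e (nat_lit 483354) (nat_lit 17) (.e (nat_lit 7936) (nat_lit 153) .nil))))))) (.g (nat_lit 5) .nil .nil))) 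
(.lf (nat_lit 446075) (.g (nat_lit 2769) (.e (nat_lit 802822) (nat_lit 11) (.e (nat_lit 336027) (nat_lit 3) (.e (nat_lit 98365) (nat_lit 26) (.e (nat_lit 426188) (nat_lit 9) (.e (nat_lit 426436) (nat_lit 18) (.e (nat_lit 98320) (nat_lit 17) (.e (nat_lit 3783) (nat_lit 230) .nil))))))) (.g (nat_lit 5) .nil .nil))))))) (.nd (nat_lit 3) (.nd (nat_lit 4) (.nd (nat_lit 5) (.nd (nat_lit 6) 
(.lf (nat_lit 445959) (.g (nat_lit 1762) (.e (nat_lit 794672) (nat_lit 23) (.e (nat_lit 204852) (nat_lit 26) (.e (nat_lit 336316) (nat_lit 17) (.e (nat_lit 196626) (nat_lit 9) .nil)))) .nil)) 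
(.lf (nat_lit 446023) (.g (nat_lit 1148) (.e (nat_lit 794684) (nat_lit 25) (.e (nat_lit 221215) (nat_lit 23) (.e (nat_lit 204884) (nat_lit 33) (.e (nat_lit 401459) (nat_lit 13) .nil)))) .nil))) (.nd (nat_lit 6) 
(.lf (nat_lit 445991) (.g (nat_lit 1833) (.e (nat_lit 794679) (nat_lit 24) (.e (nat_lit 212994) (nat_lit 0) (.e (nat_lit 1660) (nat_lit 115) (.e (nat_lit 393271) (nat_lit 23) (.e (nat_lit 426131) (nat_lit 3) (.e (nat_lit 204817) (nat_lit 17) (.e (nat_lit 7936) (nat_lit 153) .nil))))))) (.g (nat_lit 6) .nil .nil))) 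
(.lf (nat_lit 446055) (.g (nat_lit 2519) (.e (nat_lit 802822) (nat_lit 11) (.e (nat_lit 336011) (nat_lit 2) (.e (nat_lit 90170) (nat_lit 13) (.e (nat_lit 172106) (nat_lit 10) (.e (nat_lit 434244) (nat_lit 28) (.e (nat_lit 573458) (nat_lit 9) (.e (nat_lit 1003) (nat_lit 81) (.e (nat_lit 2372) (nat_lit 154) .nil)))))))) (.g (nat_lit 5) .nil .nil))))) (.nd (nat_lit 5) (.nd (nat_lit 6) 
(.lf (nat_lit 445975) (.g (nat_lit 2144) (.e (nat_lit 794673) (nat_lit 23) (.e (nat_lit 204852) (nat_lit 26) (.e (nat_lit 336326) (nat_lit 18) (.e (nat_lit 204831) (nat_lit 18) (.e (nat_lit 57830) (nat_lit 250) (.e (nat_lit 1175) (nat_lit 87) (.e (nat_lit 57464) (nat_lit 23) (.e (nat_lit 516100) (nat_lit 0) (.e (nat_lit 3771) (nat_lit 229) .nil))))))))) (.g (nat_lit 4) .nil .nil))) 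
(.lf (nat_lit 446039) (.g (nat_lit 2233) (.e (nat_lit 802818) (nat_lit 0) (.e (nat_lit 1859) (nat_lit 124) (.e (nat_lit 557105) (nat_lit 14) (.e (nat_lit 180252) (nat_lit 10) (.e (nat_lit 573489) (nat_lit 14) .nil))))) .nil))) (.nd (nat_lit 6) 
(.lf (nat_lit 446007) (.g (nat_lit 3288) (.e (nat_lit 794682) (nat_lit 25) (.e (nat_lit 221210) (nat_lit 22) (.e (nat_lit 196630) (nat_lit 9) (.e (nat_lit 1669) (nat_lit 116) (.e (nat_lit 401459) (nat_lit 13) (.e (nat_lit 483347) (nat_lit 17) (.e (nat_lit 7936) (nat_lit 153) .nil))))))) (.g (nat_lit 6) .nil .nil))) 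
(.lf (nat_lit 446071) (.g (nat_lit 1598) (.e (nat_lit 802822) (nat_lit 11) (.e (nat_lit 336021) (nat_lit 3) (.e (nat_lit 98365) (nat_lit 26) (.e (nat_lit 426188) (nat_lit 9) .nil)))) .nil))))) (.nd (nat_lit 4) (.nd (nat_lit 5) (.nd (nat_lit 6) 
(.lf (nat_lit 445967) (.g (nat_lit 3249) (.e (nat_lit 794673) (nat_lit 23) (.e (nat_lit 204830) (nat_lit 18) (.e (nat_lit 57926) (nat_lit 282) (.e (nat_lit 163873) (nat_lit 3) (.e (nat_lit 204863) (nat_lit 27) .nil))))) .nil)) 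
(.lf (nat_lit 446031) (.g (nat_lit 2532) (.e (nat_lit 802818) (nat_lit 0) (.e (nat_lit 1855) (nat_lit 124) (.e (nat_lit 557105) (nat_lit 14) (.e (nat_lit 180252) (nat_lit 10) (.e (nat_lit 573487) (nat_lit 14) .nil))))) .nil))) (.nd (nat_lit 6) 
(.lf (nat_lit 445999) (.g (nat_lit 1543) (.e (nat_lit 794680) (nat_lit 24) (.e (nat_lit 213029) (nat_lit 10) (.e (nat_lit 8359) (nat_lit 88) (.e (nat_lit 712753) (nat_lit 30) (.e (nat_lit 450579) (nat_lit 5) (.e (nat_lit 532484) (nat_lit 0) (.e (nat_lit 7936) (nat_lit 153) .nil))))))) (.g (nat_lit 6) .nil .nil))) 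
(.lf (nat_lit 446063) (.g (nat_lit 1355) (.e (nat_lit 802822) (nat_lit 11) (.e (nat_lit 336012) (nat_lit 2) (.e (nat_lit 90176) (nat_lit 15) (.e (nat_lit 188430) (nat_lit 20) .nil)))) .nil)))) (.nd (nat_lit 5) (.nd (nat_lit 6) 
(.lf (nat_lit 445983) (.g (nat_lit 2528) (.e (nat_lit 794674) (nat_lit 24) (.e (nat_lit 213030) (nat_lit 11) (.e (nat_lit 24617) (nat_lit 7) (.e (nat_lit 319529) (nat_lit 16) (.e (nat_lit 286759) (nat_lit 12) .nil))))) .nil)) 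
(.lf (nat_lit 446047) (.g (nat_lit 1388) (.e (nat_lit 802822) (nat_lit 11) (.e (nat_lit 336004) (nat_lit 2) (.e (nat_lit 90176) (nat_lit 15) (.e (nat_lit 188439) (nat_lit 20) .nil)))) .nil))) (.nd (nat_lit 6) 
(.lf (nat_lit 446015) (.g (nat_lit 2275) (.e (nat_lit 794684) (nat_lit 25) (.e (nat_lit 221194) (nat_lit 11) (.e (nat_lit 336059) (nat_lit 7) (.e (nat_lit 319531) (nat_lit 16) (.e (nat_lit 286759) (nat_lit 12) .nil))))) .nil)) 
(.lf (nat_lit 446079) (.g (nat_lit 2286) (.e (nat_lit 802822) (nat_lit 11) (.e (nat_lit 336027) (nat_lit 3) (.e (nat_lit 98370) (nat_lit 28) (.e (nat_lit 442430) (nat_lit 24) (.e (nat_lit 229515) (nat_lit 122) .nil))))) .nil)))))))))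

noncomputable def tv5487 : DT := (.nd (nat_lit 0) (.nd (nat_lit 1) (.nd (nat_lit 2) (.nd (nat_lit 3) (.nd (nat_lit 4) (.nd (nat_lit 5) (.nd (nat_lit 6) 
(.lf (nat_lit 446080) (.g (nat_lit 951) (.e (nat_lit 802822) (nat_lit 11) (.e (nat_lit 336027) (nat_lit 3) (.e (nat_lit 98371) (nat_lit 28) (.e (nat_lit 450304) (nat_lit 3) .nil)))) .nil)) 
(.lf (nat_lit 446144) (.g (nat_lit 1885) (.e (nat_lit 802824) (nat_lit 11) (.e (nat_lit 336221) (nat_lit 13) (.e (nat_lit 393301) (nat_lit 27) (.e (nat_lit 491560) (nat_lit 10) (.e (nat_lit 352000) (nat_lit 47) .nil))))) .nil))) (.nd (nat_lit 6) 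
(.lf (nat_lit 446112) (.g (nat_lit 974) (.e (nat_lit 802822) (nat_lit 11) (.e (nat_lit 336223) (nat_lit 13) (.e (nat_lit 393281) (nat_lit 23) .nil))) .nil)) 
(.lf (nat_lit 446176) (.g (nat_lit 1793) (.e (nat_lit 802826) (nat_lit 11) (.e (nat_lit 336088) (nat_lit 9) (.e (nat_lit 336443) (nat_lit 32) (.e (nat_lit 466972) (nat_lit 21) .nil)))) .nil)))) (.nd (nat_lit 5) (.nd (nat_lit 6) 
(.lf (nat_lit 446096) (.g (nat_lit 3300) (.e (nat_lit 802822) (nat_lit 11) (.e (nat_lit 336027) (nat_lit 3) (.e (nat_lit 98373) (nat_lit 29) (.e (nat_lit 450587) (nat_lit 10) (.e (nat_lit 573478) (nat_lit 12) (.e (nat_lit 65280) (nat_lit 58) .nil)))))) (.g (nat_lit 5) .nil .nil))) 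
(.lf (nat_lit 446160) (.g (nat_lit 2330) (.e (nat_lit 802826) (nat_lit 11) (.e (nat_lit 336025) (nat_lit 3) (.e (nat_lit 98372) (nat_lit 29) (.e (nat_lit 450586) (nat_lit 10) (.e (nat_lit 573475) (nat_lit 12) (.e (nat_lit 65280) (nat_lit 58) .nil)))))) (.g (nat_lit 5) .nil .nil)))) (.nd (nat_lit 6) 
(.lf (nat_lit 446128) (.g (nat_lit 1687) (.e (nat_lit 802823) (nat_lit 11) (.e (nat_lit 336061) (nat_lit 7) (.e (nat_lit 319531) (nat_lit 16) (.e (nat_lit 286748) (nat_lit 9) .nil)))) .nil)) 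
(.lf (nat_lit 446192) (.g (nat_lit 1575) (.e (nat_lit 802826) (nat_lit 11) (.e (nat_lit 336221) (nat_lit 13) (.e (nat_lit 393234) (nat_lit 17) (.e (nat_lit 7591) (nat_lit 407) (.e (nat_lit 81664) (nat_lit 29) .nil))))) .nil))))) (.nd (nat_lit 4) (.nd (nat_lit 5) (.nd (nat_lit 6) 
(.lf (nat_lit 446088) (.g (nat_lit 3531) (.e (nat_lit 802822) (nat_lit 11) (.e (nat_lit 336027) (nat_lit 3) (.e (nat_lit 98372) (nat_lit 29) (.e (nat_lit 450588) (nat_lit 10) (.e (nat_lit 573452) (nat_lit 9) .nil))))) .nil)) 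
(.lf (nat_lit 446152) (.g (nat_lit 795) (.e (nat_lit 802825) (nat_lit 11) (.e (nat_lit 336209) (nat_lit 13) (.e (nat_lit 393300) (nat_lit 27) (.e (nat_lit 491560) (nat_lit 10) .nil)))) .nil))) (.nd (nat_lit 6) 
(.lf (nat_lit 446120) (.g (nat_lit 2684) (.e (nat_lit 802822) (nat_lit 11) (.e (nat_lit 336223) (nat_lit 13) (.e (nat_lit 393301) (nat_lit 27) (.e (nat_lit 491560) (nat_lit 10) (.e (nat_lit 352000) (nat_lit 47) .nil))))) (.g (nat_lit 4) .nil .nil))) 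
(.lf (nat_lit 446184) (.g (nat_lit 1096) (.e (nat_lit 802826) (nat_lit 11) (.e (nat_lit 336213) (nat_lit 13) (.e (nat_lit 393298) (nat_lit 27) .nil))) .nil)))) (.nd (nat_lit 5) (.nd (nat_lit 6) 
(.lf (nat_lit 446104) (.g (nat_lit 580) (.e (nat_lit 802822) (nat_lit 11) (.e (nat_lit 336027) (nat_lit 3) (.e (nat_lit 98381) (nat_lit 31) .nil))) .nil)) 
(.lf (nat_lit 446168) (.g (nat_lit 2870) (.e (nat_lit 802826) (nat_lit 11) (.e (nat_lit 336027) (nat_lit 3) (.e (nat_lit 98372) (nat_lit 29) (.e (nat_lit 450586) (nat_lit 10) (.e (nat_lit 573475) (nat_lit 12) (.e (nat_lit 65280) (nat_lit 58) .nil)))))) (.g (nat_lit 5) .nil .nil)))) (.nd (nat_lit 6) 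
(.lf (nat_lit 446136) (.g (nat_lit 3921) (.e (nat_lit 802824) (nat_lit 11) (.e (nat_lit 336011) (nat_lit 2) (.e (nat_lit 90170) (nat_lit 13) (.e (nat_lit 172106) (nat_lit 10) (.e (nat_lit 434244) (nat_lit 28) (.e (nat_lit 573474) (nat_lit 12) (.e (nat_lit 65280) (nat_lit 58) .nil))))))) (.g (nat_lit 6) .nil .nil))) 
(.lf (nat_lit 446200) (.g (nat_lit 967) (.e (nat_lit 810752) (nat_lit 11) (.e (nat_lit 336004) (nat_lit 2) (.e (nat_lit 90176) (nat_lit 15) (.e (nat_lit 196352) (nat_lit 3) .nil)))) .nil)))))) (.nd (nat_lit 3) (.nd (nat_lit 4) (.nd (nat_lit 5) (.nd (nat_lit 6) 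
(.lf (nat_lit 446084) (.g (nat_lit 2838) (.e (nat_lit 802822) (nat_lit 11) (.e (nat_lit 336027) (nat_lit 3) (.e (nat_lit 98372) (nat_lit 29) (.e (nat_lit 450586) (nat_lit 10) (.e (nat_lit 573473) (nat_lit 12) (.e (nat_lit 65280) (nat_lit 58) .nil)))))) (.g (nat_lit 5) .nil .nil))) 
(.lf (nat_lit 446148) (.g (nat_lit 2518) (.e (nat_lit 802824) (nat_lit 11) (.e (nat_lit 336223) (nat_lit 13) (.e (nat_lit 393301) (nat_lit 27) (.e (nat_lit 491558) (nat_lit 10) (.e (nat_lit 352000) (nat_lit 47) .nil))))) .nil))) (.nd (nat_lit 6) 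
(.lf (nat_lit 446116) (.g (nat_lit 2379) (.e (nat_lit 802822) (nat_lit 11) (.e (nat_lit 336223) (nat_lit 13) (.e (nat_lit 393301) (nat_lit 27) (.e (nat_lit 491552) (nat_lit 9) (.e (nat_lit 335901) (nat_lit 0) (.e (nat_lit 2373) (nat_lit 154) .nil)))))) (.g (nat_lit 4) .nil .nil))) 
(.lf (nat_lit 446180) (.g (nat_lit 2315) (.e (nat_lit 802826) (nat_lit 11) (.e (nat_lit 336213) (nat_lit 13) (.e (nat_lit 393232) (nat_lit 17) (.e (nat_lit 7593) (nat_lit 407) (.e (nat_lit 81664) (nat_lit 29) .nil))))) .nil)))) (.nd (nat_lit 5) (.nd (nat_lit 6) 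
(.lf (nat_lit 446100) (.g (nat_lit 4117) (.e (nat_lit 802822) (nat_lit 11) (.e (nat_lit 336027) (nat_lit 3) (.e (nat_lit 98373) (nat_lit 29) (.e (nat_lit 450588) (nat_lit 10) (.e (nat_lit 573452) (nat_lit 9) (.e (nat_lit 1004) (nat_lit 81) (.e (nat_lit 2372) (nat_lit 154) .nil))))))) (.g (nat_lit 4) .nil .nil))) 
(.lf (nat_lit 446164) (.g (nat_lit 2661) (.e (nat_lit 802826) (nat_lit 11) (.e (nat_lit 336025) (nat_lit 3) (.e (nat_lit 98373) (nat_lit 29) (.e (nat_lit 450587) (nat_lit 10) (.e (nat_lit 573478) (nat_lit 12) (.e (nat_lit 65280) (nat_lit 58) .nil)))))) (.g (nat_lit 5) .nil .nil)))) (.nd (nat_lit 6) 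
(.lf (nat_lit 446132) (.g (nat_lit 1425) (.e (nat_lit 802823) (nat_lit 11) (.e (nat_lit 336224) (nat_lit 13) (.e (nat_lit 393234) (nat_lit 17) (.e (nat_lit 7593) (nat_lit 407) (.e (nat_lit 81664) (nat_lit 29) .nil))))) .nil)) 
(.lf (nat_lit 446196) (.g (nat_lit 2068) (.e (nat_lit 802826) (nat_lit 11) (.e (nat_lit 336223) (nat_lit 13) (.e (nat_lit 393234) (nat_lit 17) (.e (nat_lit 7591) (nat_lit 407) (.e (nat_lit 81664) (nat_lit 29) .nil))))) .nil))))) (.nd (nat_lit 4) (.nd (nat_lit 5) (.nd (nat_lit 6) 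
(.lf (nat_lit 446092) (.g (nat_lit 2962) (.e (nat_lit 802822) (nat_lit 11) (.e (nat_lit 336027) (nat_lit 3) (.e (nat_lit 98373) (nat_lit 29) (.e (nat_lit 450587) (nat_lit 10) (.e (nat_lit 573454) (nat_lit 9) .nil))))) .nil)) 
(.lf (nat_lit 446156) (.g (nat_lit 3850) (.e (nat_lit 802826) (nat_lit 11) (.e (nat_lit 336011) (nat_lit 2) (.e (nat_lit 90170) (nat_lit 13) (.e (nat_lit 172106) (nat_lit 10) (.e (nat_lit 434244) (nat_lit 28) (.e (nat_lit 573474) (nat_lit 12) (.e (nat_lit 65280) (nat_lit 58) .nil))))))) (.g (nat_lit 6) .nil .nil)))) (.nd (nat_lit 6) 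
(.lf (nat_lit 446124) (.g (nat_lit 3747) (.e (nat_lit 802823) (nat_lit 11) (.e (nat_lit 336024) (nat_lit 3) (.e (nat_lit 98373) (nat_lit 29) (.e (nat_lit 450588) (nat_lit 10) (.e (nat_lit 573475) (nat_lit 12) (.e (nat_lit 65280) (nat_lit 58) .nil)))))) (.g (nat_lit 5) .nil .nil))) 
(.lf (nat_lit 446188) (.g (nat_lit 2072) (.e (nat_lit 802826) (nat_lit 11) (.e (nat_lit 336213) (nat_lit 13) (.e (nat_lit 393300) (nat_lit 27) (.e (nat_lit 491560) (nat_lit 10) (.e (nat_lit 352000) (nat_lit 47) .nil))))) (.g (nat_lit 4) .nil .nil))))) (.nd (nat_lit 5) (.nd (nat_lit 6) 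
(.lf (nat_lit 446108) (.g (nat_lit 662) (.e (nat_lit 802822) (nat_lit 11) (.e (nat_lit 336086) (nat_lit 9) (.e (nat_lit 336369) (nat_lit 27) .nil))) .nil)) 
(.lf (nat_lit 446172) (.g (nat_lit 3746) (.e (nat_lit 802826) (nat_lit 11) (.e (nat_lit 336027) (nat_lit 3) (.e (nat_lit 98373) (nat_lit 29) (.e (nat_lit 450588) (nat_lit 10) (.e (nat_lit 573475) (nat_lit 12) (.e (nat_lit 65280) (nat_lit 58) .nil)))))) (.g (nat_lit 5) .nil .nil)))) (.nd (nat_lit 6) 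
(.lf (nat_lit 446140) (.g (nat_lit 2532) (.e (nat_lit 802824) (nat_lit 11) (.e (nat_lit 336027) (nat_lit 3) (.e (nat_lit 98372) (nat_lit 29) (.e (nat_lit 450586) (nat_lit 10) (.e (nat_lit 573477) (nat_lit 12) .nil))))) .nil)) 
(.lf (nat_lit 446204) (.g (nat_lit 513) (.e (nat_lit 810752) (nat_lit 11) (.e (nat_lit 336019) (nat_lit 3) (.e (nat_lit 98380) (nat_lit 31) .nil))) .nil))))))) (.nd (nat_lit 2) (.nd (nat_lit 3) (.nd (nat_lit 4) (.nd (nat_lit 5) (.nd (nat_lit 6) 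
(.lf (nat_lit 446082) (.g (nat_lit 1409) (.e (nat_lit 802822) (nat_lit 11) (.e (nat_lit 336027) (nat_lit 3) (.e (nat_lit 98372) (nat_lit 29) (.e (nat_lit 450586) (nat_lit 10) .nil)))) .nil)) 
(.lf (nat_lit 446146) (.g (nat_lit 1846) (.e (nat_lit 802824) (nat_lit 11) (.e (nat_lit 336223) (nat_lit 13) (.e (nat_lit 393234) (nat_lit 17) (.e (nat_lit 7593) (nat_lit 407) (.e (nat_lit 81664) (nat_lit 29) .nil))))) .nil))) (.nd (nat_lit 6) 
(.lf (nat_lit 446114) (.g (nat_lit 1571) (.e (nat_lit 802822) (nat_lit 11) (.e (nat_lit 336223) (nat_lit 13) (.e (nat_lit 393281) (nat_lit 23) (.e (nat_lit 426100) (nat_lit 1) .nil)))) .nil)) 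
(.lf (nat_lit 446178) (.g (nat_lit 1149) (.e (nat_lit 802826) (nat_lit 11) (.e (nat_lit 336213) (nat_lit 13) (.e (nat_lit 393231) (nat_lit 17) .nil))) .nil)))) (.nd (nat_lit 5) (.nd (nat_lit 6) 
(.lf (nat_lit 446098) (.g (nat_lit 3965) (.e (nat_lit 802822) (nat_lit 11) (.e (nat_lit 336027) (nat_lit 3) (.e (nat_lit 98373) (nat_lit 29) (.e (nat_lit 450588) (nat_lit 10) (.e (nat_lit 573452) (nat_lit 9) .nil))))) .nil)) 
(.lf (nat_lit 446162) (.g (nat_lit 1782) (.e (nat_lit 802826) (nat_lit 11) (.e (nat_lit 336025) (nat_lit 3) (.e (nat_lit 98372) (nat_lit 29) (.e (nat_lit 450586) (nat_lit 10) (.e (nat_lit 573478) (nat_lit 12) (.e (nat_lit 65280) (nat_lit 58) .nil)))))) (.g (nat_lit 5) .nil .nil)))) (.nd (nat_lit 6) 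
(.lf (nat_lit 446130) (.g (nat_lit 1283) (.e (nat_lit 802823) (nat_lit 11) (.e (nat_lit 336219) (nat_lit 13) (.e (nat_lit 393234) (nat_lit 17) (.e (nat_lit 7593) (nat_lit 407) (.e (nat_lit 81664) (nat_lit 29) .nil))))) .nil)) 
(.lf (nat_lit 446194) (.g (nat_lit 2116) (.e (nat_lit 802826) (nat_lit 11) (.e (nat_lit 336221) (nat_lit 13) (.e (nat_lit 393301) (nat_lit 27) (.e (nat_lit 491558) (nat_lit 10) (.e (nat_lit 352000) (nat_lit 47) .nil))))) (.g (nat_lit 4) .nil .nil)))))) (.nd (nat_lit 4) (.nd (nat_lit 5) (.nd (nat_lit 6) 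
(.lf (nat_lit 446090) (.g (nat_lit 1142) (.e (nat_lit 802822) (nat_lit 11) (.e (nat_lit 336027) (nat_lit 3) (.e (nat_lit 98373) (nat_lit 29) (.e (nat_lit 450586) (nat_lit 10) .nil)))) .nil)) 
(.lf (nat_lit 446154) (.g (nat_lit 3277) (.e (nat_lit 802826) (nat_lit 11) (.e (nat_lit 336009) (nat_lit 2) (.e (nat_lit 90170) (nat_lit 13) (.e (nat_lit 172113) (nat_lit 10) (.e (nat_lit 434248) (nat_lit 28) (.e (nat_lit 573475) (nat_lit 12) (.e (nat_lit 65280) (nat_lit 58) .nil))))))) (.g (nat_lit 5) .nil .nil)))) (.nd (nat_lit 6) 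
(.lf (nat_lit 446122) (.g (nat_lit 2403) (.e (nat_lit 802823) (nat_lit 11) (.e (nat_lit 336013) (nat_lit 2) (.e (nat_lit 90170) (nat_lit 13) (.e (nat_lit 172113) (nat_lit 10) (.e (nat_lit 434245) (nat_lit 28) (.e (nat_lit 573473) (nat_lit 12) (.e (nat_lit 65280) (nat_lit 58) .nil))))))) (.g (nat_lit 4) .nil .nil))) 
(.lf (nat_lit 446186) (.g (nat_lit 2598) (.e (nat_lit 802826) (nat_lit 11) (.e (nat_lit 336213) (nat_lit 13) (.e (nat_lit 393299) (nat_lit 27) (.e (nat_lit 491560) (nat_lit 10) (.e (nat_lit 352000) (nat_lit 47) .nil))))) .nil)))) (.nd (nat_lit 5) (.nd (nat_lit 6) 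
(.lf (nat_lit 446106) (.g (nat_lit 2933) (.e (nat_lit 802822) (nat_lit 11) (.e (nat_lit 336059) (nat_lit 7) (.e (nat_lit 319534) (nat_lit 16) (.e (nat_lit 286756) (nat_lit 10) (.e (nat_lit 344160) (nat_lit 37) (.e (nat_lit 647195) (nat_lit 9) (.e (nat_lit 7936) (nat_lit 81) (.e (nat_lit 2373) (nat_lit 154) .nil)))))))) (.g (nat_lit 5) .nil .nil))) 
(.lf (nat_lit 446170) (.g (nat_lit 2320) (.e (nat_lit 802826) (nat_lit 11) (.e (nat_lit 336027) (nat_lit 3) (.e (nat_lit 98372) (nat_lit 29) (.e (nat_lit 450586) (nat_lit 10) (.e (nat_lit 573478) (nat_lit 12) (.e (nat_lit 65280) (nat_lit 58) .nil)))))) (.g (nat_lit 5) .nil .nil)))) (.nd (nat_lit 6) 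
(.lf (nat_lit 446138) (.g (nat_lit 2275) (.e (nat_lit 802824) (nat_lit 11) (.e (nat_lit 336025) (nat_lit 3) (.e (nat_lit 98373) (nat_lit 29) (.e (nat_lit 450587) (nat_lit 10) (.e (nat_lit 573478) (nat_lit 12) (.e (nat_lit 65280) (nat_lit 58) .nil)))))) (.g (nat_lit 4) .nil .nil))) 
(.lf (nat_lit 446202) (.g (nat_lit 1244) (.e (nat_lit 810752) (nat_lit 11) (.e (nat_lit 336012) (nat_lit 2) (.e (nat_lit 90178) (nat_lit 15) (.e (nat_lit 196352) (nat_lit 3) .nil)))) .nil)))))) (.nd (nat_lit 3) (.nd (nat_lit 4) (.nd (nat_lit 5) (.nd (nat_lit 6) 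
(.lf (nat_lit 446086) (.g (nat_lit 2651) (.e (nat_lit 802822) (nat_lit 11) (.e (nat_lit 336027) (nat_lit 3) (.e (nat_lit 98372) (nat_lit 29) (.e (nat_lit 450586) (nat_lit 10) (.e (nat_lit 573477) (nat_lit 12) (.e (nat_lit 65280) (nat_lit 58) .nil)))))) (.g (nat_lit 5) .nil .nil))) 
(.lf (nat_lit 446150) (.g (nat_lit 554) (.e (nat_lit 802825) (nat_lit 11) (.e (nat_lit 336017) (nat_lit 3) (.e (nat_lit 98372) (nat_lit 29) .nil))) .nil))) (.nd (nat_lit 6) 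
(.lf (nat_lit 446118) (.g (nat_lit 2141) (.e (nat_lit 802822) (nat_lit 11) (.e (nat_lit 336223) (nat_lit 13) (.e (nat_lit 393301) (nat_lit 27) (.e (nat_lit 491552) (nat_lit 9) (.e (nat_lit 335908) (nat_lit 0) (.e (nat_lit 2374) (nat_lit 154) .nil)))))) (.g (nat_lit 4) .nil .nil))) 
(.lf (nat_lit 446182) (.g (nat_lit 1616) (.e (nat_lit 802826) (nat_lit 11) (.e (nat_lit 336213) (nat_lit 13) (.e (nat_lit 393233) (nat_lit 17) (.e (nat_lit 7593) (nat_lit 407) (.e (nat_lit 81664) (nat_lit 29) .nil))))) (.g (nat_lit 4) .nil .nil))))) (.nd (nat_lit 5) (.nd (nat_lit 6) 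
(.lf (nat_lit 446102) (.g (nat_lit 3995) (.e (nat_lit 802822) (nat_lit 11) (.e (nat_lit 336027) (nat_lit 3) (.e (nat_lit 98373) (nat_lit 29) (.e (nat_lit 450588) (nat_lit 10) (.e (nat_lit 573475) (nat_lit 12) (.e (nat_lit 65280) (nat_lit 58) .nil)))))) (.g (nat_lit 5) .nil .nil))) 
(.lf (nat_lit 446166) (.g (nat_lit 1353) (.e (nat_lit 802826) (nat_lit 11) (.e (nat_lit 336026) (nat_lit 3) (.e (nat_lit 98372) (nat_lit 29) (.e (nat_lit 450586) (nat_lit 10) (.e (nat_lit 573478) (nat_lit 12) .nil))))) .nil))) (.nd (nat_lit 6) 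
(.lf (nat_lit 446134) (.g (nat_lit 1626) (.e (nat_lit 802823) (nat_lit 11) (.e (nat_lit 336224) (nat_lit 13) (.e (nat_lit 393301) (nat_lit 27) (.e (nat_lit 491560) (nat_lit 10) (.e (nat_lit 352000) (nat_lit 47) .nil))))) (.g (nat_lit 4) .nil .nil))) 
(.lf (nat_lit 446198) (.g (nat_lit 2490) (.e (nat_lit 802826) (nat_lit 11) (.e (nat_lit 336223) (nat_lit 13) (.e (nat_lit 393301) (nat_lit 27) (.e (nat_lit 491558) (nat_lit 10) (.e (nat_lit 352000) (nat_lit 47) .nil))))) (.g (nat_lit 4) .nil .nil)))))) (.nd (nat_lit 4) (.nd (nat_lit 5) (.nd (nat_lit 6) 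
(.lf (nat_lit 446094) (.g (nat_lit 3598) (.e (nat_lit 802822) (nat_lit 11) (.e (nat_lit 336027) (nat_lit 3) (.e (nat_lit 98373) (nat_lit 29) (.e (nat_lit 450587) (nat_lit 10) (.e (nat_lit 573473) (nat_lit 12) (.e (nat_lit 65280) (nat_lit 58) .nil)))))) (.g (nat_lit 4) .nil .nil))) 
(.lf (nat_lit 446158) (.g (nat_lit 2207) (.e (nat_lit 802826) (nat_lit 11) (.e (nat_lit 336012) (nat_lit 2) (.e (nat_lit 90170) (nat_lit 13) (.e (nat_lit 172113) (nat_lit 10) .nil)))) .nil))) (.nd (nat_lit 6) 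
(.lf (nat_lit 446126) (.g (nat_lit 2474) (.e (nat_lit 802823) (nat_lit 11) (.e (nat_lit 336028) (nat_lit 3) (.e (nat_lit 98373) (nat_lit 29) (.e (nat_lit 450587) (nat_lit 10) (.e (nat_lit 573478) (nat_lit 12) (.e (nat_lit 65280) (nat_lit 58) .nil)))))) (.g (nat_lit 5) .nil .nil))) 
(.lf (nat_lit 446190) (.g (nat_lit 1848) (.e (nat_lit 802826) (nat_lit 11) (.e (nat_lit 336213) (nat_lit 13) (.e (nat_lit 393301) (nat_lit 27) (.e (nat_lit 491559) (nat_lit 10) .nil)))) .nil)))) (.nd (nat_lit 5) (.nd (nat_lit 6) 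
(.lf (nat_lit 446110) (.g (nat_lit 2265) (.e (nat_lit 802822) (nat_lit 11) (.e (nat_lit 336223) (nat_lit 13) (.e (nat_lit 393234) (nat_lit 17) (.e (nat_lit 7591) (nat_lit 407) (.e (nat_lit 81664) (nat_lit 29) .nil))))) (.g (nat_lit 4) .nil .nil))) 
(.lf (nat_lit 446174) (.g (nat_lit 847) (.e (nat_lit 802826) (nat_lit 11) (.e (nat_lit 336076) (nat_lit 9) (.e (nat_lit 336438) (nat_lit 31) (.e (nat_lit 466688) (nat_lit 5) .nil)))) .nil))) (.nd (nat_lit 6) 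
(.lf (nat_lit 446142) (.g (nat_lit 3782) (.e (nat_lit 802824) (nat_lit 11) (.e (nat_lit 336027) (nat_lit 3) (.e (nat_lit 98372) (nat_lit 29) (.e (nat_lit 450588) (nat_lit 10) (.e (nat_lit 573475) (nat_lit 12) .nil))))) .nil)) 
(.lf (nat_lit 446206) (.g (nat_lit 957) (.e (nat_lit 810752) (nat_lit 11) (.e (nat_lit 336027) (nat_lit 3) (.e (nat_lit 98369) (nat_lit 28) (.e (nat_lit 450304) (nat_lit 3) .nil)))) .nil)))))))) (.nd (nat_lit 1) (.nd (nat_lit 2) (.nd (nat_lit 3) (.nd (nat_lit 4) (.nd (nat_lit 5) (.nd (nat_lit 6) 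
(.lf (nat_lit 446081) (.g (nat_lit 1963) (.e (nat_lit 802822) (nat_lit 11) (.e (nat_lit 336027) (nat_lit 3) (.e (nat_lit 98372) (nat_lit 29) (.e (nat_lit 450568) (nat_lit 0) .nil)))) .nil)) 
(.lf (nat_lit 446145) (.g (nat_lit 2109) (.e (nat_lit 802824) (nat_lit 11) (.e (nat_lit 336223) (nat_lit 13) (.e (nat_lit 393234) (nat_lit 17) (.e (nat_lit 7591) (nat_lit 407) (.e (nat_lit 81664) (nat_lit 29) .nil))))) .nil))) (.nd (nat_lit 6) 
(.lf (nat_lit 446113) (.g (nat_lit 1703) (.e (nat_lit 802822) (nat_lit 11) (.e (nat_lit 336223) (nat_lit 13) (.e (nat_lit 393281) (nat_lit 23) (.e (nat_lit 426099) (nat_lit 1) (.e (nat_lit 164332) (nat_lit 230) .nil))))) .nil)) 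
(.lf (nat_lit 446177) (.g (nat_lit 773) (.e (nat_lit 802826) (nat_lit 11) (.e (nat_lit 336186) (nat_lit 11) (.e (nat_lit 368662) (nat_lit 18) (.e (nat_lit 7272) (nat_lit 385) .nil)))) .nil)))) (.nd (nat_lit 5) (.nd (nat_lit 6) 
(.lf (nat_lit 446097) (.g (nat_lit 4933) (.e (nat_lit 802822) (nat_lit 11) (.e (nat_lit 336027) (nat_lit 3) (.e (nat_lit 98373) (nat_lit 29) (.e (nat_lit 450588) (nat_lit 10) (.e (nat_lit 573451) (nat_lit 9) .nil))))) .nil)) 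
(.lf (nat_lit 446161) (.g (nat_lit 1509) (.e (nat_lit 802826) (nat_lit 11) (.e (nat_lit 336025) (nat_lit 3) (.e (nat_lit 98372) (nat_lit 29) (.e (nat_lit 450586) (nat_lit 10) (.e (nat_lit 573477) (nat_lit 12) .nil))))) .nil))) (.nd (nat_lit 6) 
(.lf (nat_lit 446129) (.g (nat_lit 2613) (.e (nat_lit 802823) (nat_lit 11) (.e (nat_lit 336061) (nat_lit 7) (.e (nat_lit 319531) (nat_lit 16) (.e (nat_lit 286759) (nat_lit 12) (.e (nat_lit 385094) (nat_lit 49) .nil))))) .nil)) 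
(.lf (nat_lit 446193) (.g (nat_lit 1323) (.e (nat_lit 802826) (nat_lit 11) (.e (nat_lit 336221) (nat_lit 13) (.e (nat_lit 393234) (nat_lit 17) (.e (nat_lit 7593) (nat_lit 407) (.e (nat_lit 81664) (nat_lit 29) .nil))))) .nil))))) (.nd (nat_lit 4) (.nd (nat_lit 5) (.nd (nat_lit 6) 
(.lf (nat_lit 446089) (.g (nat_lit 3519) (.e (nat_lit 802822) (nat_lit 11) (.e (nat_lit 336027) (nat_lit 3) (.e (nat_lit 98372) (nat_lit 29) (.e (nat_lit 450588) (nat_lit 10) (.e (nat_lit 573475) (nat_lit 12) (.e (nat_lit 65280) (nat_lit 58) .nil)))))) (.g (nat_lit 4) .nil .nil))) 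
(.lf (nat_lit 446153) (.g (nat_lit 1108) (.e (nat_lit 802825) (nat_lit 11) (.e (nat_lit 336209) (nat_lit 13) (.e (nat_lit 393301) (nat_lit 27) (.e (nat_lit 491558) (nat_lit 10) .nil)))) .nil))) (.nd (nat_lit 6) 
(.lf (nat_lit 446121) (.g (nat_lit 3904) (.e (nat_lit 802823) (nat_lit 11) (.e (nat_lit 336013) (nat_lit 2) (.e (nat_lit 90170) (nat_lit 13) (.e (nat_lit 172106) (nat_lit 10) (.e (nat_lit 434244) (nat_lit 28) (.e (nat_lit 573474) (nat_lit 12) (.e (nat_lit 65280) (nat_lit 58) .nil))))))) (.g (nat_lit 6) .nil .nil))) 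
(.lf (nat_lit 446185) (.g (nat_lit 2434) (.e (nat_lit 802826) (nat_lit 11) (.e (nat_lit 336213) (nat_lit 13) (.e (nat_lit 393299) (nat_lit 27) (.e (nat_lit 491558) (nat_lit 10) (.e (nat_lit 352000) (nat_lit 47) .nil))))) .nil)))) (.nd (nat_lit 5) (.nd (nat_lit 6) 
(.lf (nat_lit 446105) (.g (nat_lit 1625) (.e (nat_lit 802822) (nat_lit 11) (.e (nat_lit 336059) (nat_lit 7) (.e (nat_lit 319533) (nat_lit 16) (.e (nat_lit 286753) (nat_lit 10) (.e (nat_lit 344168) (nat_lit 40) .nil))))) .nil)) 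
(.lf (nat_lit 446169) (.g (nat_lit 2104) (.e (nat_lit 802826) (nat_lit 11) (.e (nat_lit 336027) (nat_lit 3) (.e (nat_lit 98372) (nat_lit 29) (.e (nat_lit 450586) (nat_lit 10) (.e (nat_lit 573477) (nat_lit 12) .nil))))) .nil))) (.nd (nat_lit 6) 
(.lf (nat_lit 446137) (.g (nat_lit 1436) (.e (nat_lit 802824) (nat_lit 11) (.e (nat_lit 336025) (nat_lit 3) (.e (nat_lit 98372) (nat_lit 29) (.e (nat_lit 450586) (nat_lit 10) (.e (nat_lit 573478) (nat_lit 12) .nil))))) .nil)) 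
(.lf (nat_lit 446201) (.g (nat_lit 2195) (.e (nat_lit 810752) (nat_lit 11) (.e (nat_lit 336011) (nat_lit 2) (.e (nat_lit 90170) (nat_lit 13) (.e (nat_lit 172095) (nat_lit 9) .nil)))) .nil)))))) (.nd (nat_lit 3) (.nd (nat_lit 4) (.nd (nat_lit 5) (.nd (nat_lit 6) 
(.lf (nat_lit 446085) (.g (nat_lit 3151) (.e (nat_lit 802822) (nat_lit 11) (.e (nat_lit 336027) (nat_lit 3) (.e (nat_lit 98372) (nat_lit 29) (.e (nat_lit 450586) (nat_lit 10) (.e (nat_lit 573475) (nat_lit 12) (.e (nat_lit 65280) (nat_lit 58) .nil)))))) (.g (nat_lit 5) .nil .nil))) 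
(.lf (nat_lit 446149) (.g (nat_lit 2422) (.e (nat_lit 802824) (nat_lit 11) (.e (nat_lit 336223) (nat_lit 13) (.e (nat_lit 393301) (nat_lit 27) (.e (nat_lit 491560) (nat_lit 10) (.e (nat_lit 352000) (nat_lit 47) .nil))))) (.g (nat_lit 4) .nil .nil)))) (.nd (nat_lit 6) 
(.lf (nat_lit 446117) (.g (nat_lit 2078) (.e (nat_lit 802822) (nat_lit 11) (.e (nat_lit 336223) (nat_lit 13) (.e (nat_lit 393301) (nat_lit 27) (.e (nat_lit 491552) (nat_lit 9) (.e (nat_lit 335907) (nat_lit 0) (.e (nat_lit 2374) (nat_lit 154) .nil)))))) (.g (nat_lit 4) .nil .nil))) 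
(.lf (nat_lit 446181) (.g (nat_lit 1606) (.e (nat_lit 802826) (nat_lit 11) (.e (nat_lit 336213) (nat_lit 13) (.e (nat_lit 393233) (nat_lit 17) (.e (nat_lit 7591) (nat_lit 407) (.e (nat_lit 81664) (nat_lit 29) .nil))))) (.g (nat_lit 4) .nil .nil))))) (.nd (nat_lit 5) (.nd (nat_lit 6) 
(.lf (nat_lit 446101) (.g (nat_lit 3823) (.e (nat_lit 802822) (nat_lit 11) (.e (nat_lit 336027) (nat_lit 3) (.e (nat_lit 98373) (nat_lit 29) (.e (nat_lit 450588) (nat_lit 10) (.e (nat_lit 573473) (nat_lit 12) (.e (nat_lit 65280) (nat_lit 58) .nil)))))) (.g (nat_lit 5) .nil .nil))) 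
(.lf (nat_lit 446165) (.g (nat_lit 3347) (.e (nat_lit 802826) (nat_lit 11) (.e (nat_lit 336025) (nat_lit 3) (.e (nat_lit 98373) (nat_lit 29) (.e (nat_lit 450588) (nat_lit 10) (.e (nat_lit 573475) (nat_lit 12) (.e (nat_lit 65280) (nat_lit 58) .nil)))))) (.g (nat_lit 5) .nil .nil)))) (.nd (nat_lit 6) 
(.lf (nat_lit 446133) (.g (nat_lit 1748) (.e (nat_lit 802823) (nat_lit 11) (.e (nat_lit 336224) (nat_lit 13) (.e (nat_lit 393301) (nat_lit 27) (.e (nat_lit 491558) (nat_lit 10) (.e (nat_lit 352000) (nat_lit 47) .nil))))) .nil)) 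
(.lf (nat_lit 446197) (.g (nat_lit 1806) (.e (nat_lit 802826) (nat_lit 11) (.e (nat_lit 336223) (nat_lit 13) (.e (nat_lit 393234) (nat_lit 17) (.e (nat_lit 7593) (nat_lit 407) (.e (nat_lit 81664) (nat_lit 29) .nil))))) .nil))))) (.nd (nat_lit 4) (.nd (nat_lit 5) (.nd (nat_lit 6) 
(.lf (nat_lit 446093) (.g (nat_lit 3151) (.e (nat_lit 802822) (nat_lit 11) (.e (nat_lit 336027) (nat_lit 3) (.e (nat_lit 98373) (nat_lit 29) (.e (nat_lit 450587) (nat_lit 10) (.e (nat_lit 573454) (nat_lit 9) (.e (nat_lit 968) (nat_lit 81) (.e (nat_lit 2373) (nat_lit 154) .nil))))))) (.g (nat_lit 4) .nil .nil))) 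
(.lf (nat_lit 446157) (.g (nat_lit 2581) (.e (nat_lit 802826) (nat_lit 11) (.e (nat_lit 336011) (nat_lit 2) (.e (nat_lit 90170) (nat_lit 13) (.e (nat_lit 172113) (nat_lit 10) (.e (nat_lit 434245) (nat_lit 28) (.e (nat_lit 573474) (nat_lit 12) (.e (nat_lit 65280) (nat_lit 58) .nil))))))) (.g (nat_lit 4) .nil .nil)))) (.nd (nat_lit 6) 
(.lf (nat_lit 446125) (.g (nat_lit 1807) (.e (nat_lit 802823) (nat_lit 11) (.e (nat_lit 336028) (nat_lit 3) (.e (nat_lit 98372) (nat_lit 29) (.e (nat_lit 450586) (nat_lit 10) (.e (nat_lit 573478) (nat_lit 12) (.e (nat_lit 65280) (nat_lit 58) .nil)))))) (.g (nat_lit 4) .nil .nil))) 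
(.lf (nat_lit 446189) (.g (nat_lit 3257) (.e (nat_lit 802826) (nat_lit 11) (.e (nat_lit 336213) (nat_lit 13) (.e (nat_lit 393301) (nat_lit 27) (.e (nat_lit 491558) (nat_lit 10) (.e (nat_lit 352000) (nat_lit 47) .nil))))) .nil)))) (.nd (nat_lit 5) (.nd (nat_lit 6) 
(.lf (nat_lit 446109) (.g (nat_lit 2200) (.e (nat_lit 802822) (nat_lit 11) (.e (nat_lit 336223) (nat_lit 13) (.e (nat_lit 393234) (nat_lit 17) (.e (nat_lit 7589) (nat_lit 406) (.e (nat_lit 65543) (nat_lit 0) .nil))))) .nil)) 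
(.lf (nat_lit 446173) (.g (nat_lit 1102) (.e (nat_lit 802826) (nat_lit 11) (.e (nat_lit 336059) (nat_lit 7) (.e (nat_lit 319533) (nat_lit 16) (.e (nat_lit 286753) (nat_lit 10) .nil)))) .nil))) (.nd (nat_lit 6) 
(.lf (nat_lit 446141) (.g (nat_lit 2781) (.e (nat_lit 802824) (nat_lit 11) (.e (nat_lit 336027) (nat_lit 3) (.e (nat_lit 98372) (nat_lit 29) (.e (nat_lit 450586) (nat_lit 10) (.e (nat_lit 573478) (nat_lit 12) (.e (nat_lit 65280) (nat_lit 58) .nil)))))) (.g (nat_lit 5) .nil .nil))) 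
(.lf (nat_lit 446205) (.g (nat_lit 501) (.e (nat_lit 810752) (nat_lit 11) (.e (nat_lit 336019) (nat_lit 3) (.e (nat_lit 98381) (nat_lit 31) .nil))) .nil))))))) (.nd (nat_lit 2) (.nd (nat_lit 3) (.nd (nat_lit 4) (.nd (nat_lit 5) (.nd (nat_lit 6) 
(.lf (nat_lit 446083) (.g (nat_lit 2096) (.e (nat_lit 802822) (nat_lit 11) (.e (nat_lit 336027) (nat_lit 3) (.e (nat_lit 98372) (nat_lit 29) (.e (nat_lit 450586) (nat_lit 10) (.e (nat_lit 573452) (nat_lit 9) .nil))))) .nil)) 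
(.lf (nat_lit 446147) (.g (nat_lit 423) (.e (nat_lit 802824) (nat_lit 11) (.e (nat_lit 336223) (nat_lit 13) (.e (nat_lit 393301) (nat_lit 27) .nil))) .nil))) (.nd (nat_lit 6) 
(.lf (nat_lit 446115) (.g (nat_lit 1404) (.e (nat_lit 802822) (nat_lit 11) (.e (nat_lit 336223) (nat_lit 13) (.e (nat_lit 393301) (nat_lit 27) (.e (nat_lit 491552) (nat_lit 9) .nil)))) .nil)) 
(.lf (nat_lit 446179) (.g (nat_lit 2265) (.e (nat_lit 802826) (nat_lit 11) (.e (nat_lit 336213) (nat_lit 13) (.e (nat_lit 393232) (nat_lit 17) (.e (nat_lit 7591) (nat_lit 407) (.e (nat_lit 81664) (nat_lit 29) .nil))))) .nil)))) (.nd (nat_lit 5) (.nd (nat_lit 6) 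
(.lf (nat_lit 446099) (.g (nat_lit 4872) (.e (nat_lit 802822) (nat_lit 11) (.e (nat_lit 336027) (nat_lit 3) (.e (nat_lit 98373) (nat_lit 29) (.e (nat_lit 450588) (nat_lit 10) (.e (nat_lit 573452) (nat_lit 9) (.e (nat_lit 1004) (nat_lit 81) (.e (nat_lit 2370) (nat_lit 154) .nil))))))) (.g (nat_lit 5) .nil .nil))) 
(.lf (nat_lit 446163) (.g (nat_lit 3014) (.e (nat_lit 802826) (nat_lit 11) (.e (nat_lit 336025) (nat_lit 3) (.e (nat_lit 98373) (nat_lit 29) (.e (nat_lit 450587) (nat_lit 10) (.e (nat_lit 573475) (nat_lit 12) (.e (nat_lit 65280) (nat_lit 58) .nil)))))) (.g (nat_lit 5) .nil .nil)))) (.nd (nat_lit 6) 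
(.lf (nat_lit 446131) (.g (nat_lit 705) (.e (nat_lit 802823) (nat_lit 11) (.e (nat_lit 336219) (nat_lit 13) (.e (nat_lit 393300) (nat_lit 27) (.e (nat_lit 491560) (nat_lit 10) .nil)))) .nil)) 
(.lf (nat_lit 446195) (.g (nat_lit 1942) (.e (nat_lit 802826) (nat_lit 11) (.e (nat_lit 336221) (nat_lit 13) (.e (nat_lit 393301) (nat_lit 27) (.e (nat_lit 491560) (nat_lit 10) (.e (nat_lit 352000) (nat_lit 47) .nil))))) (.g (nat_lit 4) .nil .nil)))))) (.nd (nat_lit 4) (.nd (nat_lit 5) (.nd (nat_lit 6) 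
(.lf (nat_lit 446091) (.g (nat_lit 1340) (.e (nat_lit 802822) (nat_lit 11) (.e (nat_lit 336027) (nat_lit 3) (.e (nat_lit 98373) (nat_lit 29) (.e (nat_lit 450587) (nat_lit 10) .nil)))) .nil)) 
(.lf (nat_lit 446155) (.g (nat_lit 2343) (.e (nat_lit 802826) (nat_lit 11) (.e (nat_lit 336010) (nat_lit 2) (.e (nat_lit 90170) (nat_lit 13) (.e (nat_lit 172113) (nat_lit 10) (.e (nat_lit 434247) (nat_lit 28) (.e (nat_lit 573478) (nat_lit 12) (.e (nat_lit 65280) (nat_lit 58) .nil))))))) (.g (nat_lit 5) .nil .nil)))) (.nd (nat_lit 6) 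
(.lf (nat_lit 446123) (.g (nat_lit 2503) (.e (nat_lit 802823) (nat_lit 11) (.e (nat_lit 336013) (nat_lit 2) (.e (nat_lit 90170) (nat_lit 13) (.e (nat_lit 172113) (nat_lit 10) (.e (nat_lit 434248) (nat_lit 28) (.e (nat_lit 573473) (nat_lit 12) (.e (nat_lit 65280) (nat_lit 58) .nil))))))) (.g (nat_lit 4) .nil .nil))) 
(.lf (nat_lit 446187) (.g (nat_lit 1999) (.e (nat_lit 802826) (nat_lit 11) (.e (nat_lit 336213) (nat_lit 13) (.e (nat_lit 393300) (nat_lit 27) (.e (nat_lit 491558) (nat_lit 10) (.e (nat_lit 352000) (nat_lit 47) .nil))))) (.g (nat_lit 4) .nil .nil))))) (.nd (nat_lit 5) (.nd (nat_lit 6) 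
(.lf (nat_lit 446107) (.g (nat_lit 2316) (.e (nat_lit 802822) (nat_lit 11) (.e (nat_lit 336059) (nat_lit 7) (.e (nat_lit 319534) (nat_lit 16) (.e (nat_lit 286756) (nat_lit 10) (.e (nat_lit 344169) (nat_lit 40) (.e (nat_lit 671780) (nat_lit 12) (.e (nat_lit 164065) (nat_lit 58) .nil))))))) (.g (nat_lit 4) .nil .nil))) 
(.lf (nat_lit 446171) (.g (nat_lit 3017) (.e (nat_lit 802826) (nat_lit 11) (.e (nat_lit 336027) (nat_lit 3) (.e (nat_lit 98373) (nat_lit 29) (.e (nat_lit 450587) (nat_lit 10) (.e (nat_lit 573478) (nat_lit 12) (.e (nat_lit 65280) (nat_lit 58) .nil)))))) (.g (nat_lit 5) .nil .nil)))) (.nd (nat_lit 6) 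
(.lf (nat_lit 446139) (.g (nat_lit 3329) (.e (nat_lit 802824) (nat_lit 11) (.e (nat_lit 336027) (nat_lit 3) (.e (nat_lit 98372) (nat_lit 29) (.e (nat_lit 450586) (nat_lit 10) (.e (nat_lit 573475) (nat_lit 12) (.e (nat_lit 65280) (nat_lit 58) .nil)))))) (.g (nat_lit 5) .nil .nil))) 
(.lf (nat_lit 446203) (.g (nat_lit 1041) (.e (nat_lit 810752) (nat_lit 11) (.e (nat_lit 336013) (nat_lit 2) (.e (nat_lit 90170) (nat_lit 13) (.e (nat_lit 172106) (nat_lit 10) .nil)))) .nil)))))) (.nd (nat_lit 3) (.nd (nat_lit 4) (.nd (nat_lit 5) (.nd (nat_lit 6) 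
(.lf (nat_lit 446087) (.g (nat_lit 2611) (.e (nat_lit 802822) (nat_lit 11) (.e (nat_lit 336027) (nat_lit 3) (.e (nat_lit 98372) (nat_lit 29) (.e (nat_lit 450586) (nat_lit 10) (.e (nat_lit 573478) (nat_lit 12) (.e (nat_lit 65280) (nat_lit 58) .nil)))))) (.g (nat_lit 5) .nil .nil))) 
(.lf (nat_lit 446151) (.g (nat_lit 3733) (.e (nat_lit 802825) (nat_lit 11) (.e (nat_lit 336017) (nat_lit 3) (.e (nat_lit 98373) (nat_lit 29) (.e (nat_lit 450588) (nat_lit 10) (.e (nat_lit 573473) (nat_lit 12) (.e (nat_lit 65280) (nat_lit 58) .nil)))))) (.g (nat_lit 5) .nil .nil)))) (.nd (nat_lit 6) 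
(.lf (nat_lit 446119) (.g (nat_lit 2539) (.e (nat_lit 802822) (nat_lit 11) (.e (nat_lit 336223) (nat_lit 13) (.e (nat_lit 393301) (nat_lit 27) (.e (nat_lit 491558) (nat_lit 10) (.e (nat_lit 352000) (nat_lit 47) .nil))))) (.g (nat_lit 4) .nil .nil))) 
(.lf (nat_lit 446183) (.g (nat_lit 935) (.e (nat_lit 802826) (nat_lit 11) (.e (nat_lit 336213) (nat_lit 13) (.e (nat_lit 393249) (nat_lit 17) .nil))) .nil)))) (.nd (nat_lit 5) (.nd (nat_lit 6) 
(.lf (nat_lit 446103) (.g (nat_lit 797) (.e (nat_lit 802822) (nat_lit 11) (.e (nat_lit 336027) (nat_lit 3) (.e (nat_lit 98374) (nat_lit 29) .nil))) .nil)) 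
(.lf (nat_lit 446167) (.g (nat_lit 2240) (.e (nat_lit 802826) (nat_lit 11) (.e (nat_lit 336026) (nat_lit 3) (.e (nat_lit 98373) (nat_lit 29) (.e (nat_lit 450587) (nat_lit 10) (.e (nat_lit 573478) (nat_lit 12) (.e (nat_lit 65280) (nat_lit 58) .nil)))))) (.g (nat_lit 4) .nil .nil)))) (.nd (nat_lit 6) 
(.lf (nat_lit 446135) (.g (nat_lit 3062) (.e (nat_lit 802824) (nat_lit 11) (.e (nat_lit 336009) (nat_lit 2) (.e (nat_lit 90170) (nat_lit 13) (.e (nat_lit 172106) (nat_lit 10) (.e (nat_lit 434244) (nat_lit 28) (.e (nat_lit 573474) (nat_lit 12) (.e (nat_lit 65280) (nat_lit 58) .nil))))))) (.g (nat_lit 6) .nil .nil))) 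
(.lf (nat_lit 446199) (.g (nat_lit 2428) (.e (nat_lit 802826) (nat_lit 11) (.e (nat_lit 336223) (nat_lit 13) (.e (nat_lit 393301) (nat_lit 27) (.e (nat_lit 491560) (nat_lit 10) (.e (nat_lit 352000) (nat_lit 47) .nil))))) (.g (nat_lit 4) .nil .nil)))))) (.nd (nat_lit 4) (.nd (nat_lit 5) (.nd (nat_lit 6) 
(.lf (nat_lit 446095) (.g (nat_lit 3480) (.e (nat_lit 802822) (nat_lit 11) (.e (nat_lit 336027) (nat_lit 3) (.e (nat_lit 98373) (nat_lit 29) (.e (nat_lit 450587) (nat_lit 10) (.e (nat_lit 573477) (nat_lit 12) (.e (nat_lit 65280) (nat_lit 58) .nil)))))) (.g (nat_lit 5) .nil .nil))) 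
(.lf (nat_lit 446159) (.g (nat_lit 1929) (.e (nat_lit 802826) (nat_lit 11) (.e (nat_lit 336021) (nat_lit 3) (.e (nat_lit 98372) (nat_lit 29) (.e (nat_lit 450586) (nat_lit 10) .nil)))) .nil))) (.nd (nat_lit 6) 
(.lf (nat_lit 446127) (.g (nat_lit 3273) (.e (nat_lit 802823) (nat_lit 11) (.e (nat_lit 336028) (nat_lit 3) (.e (nat_lit 98373) (nat_lit 29) (.e (nat_lit 450588) (nat_lit 10) (.e (nat_lit 573475) (nat_lit 12) (.e (nat_lit 65280) (nat_lit 58) .nil)))))) (.g (nat_lit 5) .nil .nil))) 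
(.lf (nat_lit 446191) (.g (nat_lit 3403) (.e (nat_lit 802826) (nat_lit 11) (.e (nat_lit 336213) (nat_lit 13) (.e (nat_lit 393301) (nat_lit 27) (.e (nat_lit 491560) (nat_lit 10) (.e (nat_lit 352000) (nat_lit 47) .nil))))) .nil)))) (.nd (nat_lit 5) (.nd (nat_lit 6) 
(.lf (nat_lit 446111) (.g (nat_lit 2227) (.e (nat_lit 802822) (nat_lit 11) (.e (nat_lit 336223) (nat_lit 13) (.e (nat_lit 393234) (nat_lit 17) (.e (nat_lit 7593) (nat_lit 407) (.e (nat_lit 81664) (nat_lit 29) .nil))))) (.g (nat_lit 4) .nil .nil))) 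
(.lf (nat_lit 446175) (.g (nat_lit 1855) (.e (nat_lit 802826) (nat_lit 11) (.e (nat_lit 336088) (nat_lit 9) (.e (nat_lit 336443) (nat_lit 32) (.e (nat_lit 466969) (nat_lit 21) .nil)))) .nil))) (.nd (nat_lit 6) 
(.lf (nat_lit 446143) (.g (nat_lit 1958) (.e (nat_lit 802824) (nat_lit 11) (.e (nat_lit 336220) (nat_lit 13) (.e (nat_lit 393301) (nat_lit 27) (.e (nat_lit 491560) (nat_lit 10) (.e (nat_lit 352000) (nat_lit 47) .nil))))) .nil)) 
(.lf (nat_lit 446207) (.g (nat_lit 1303) (.e (nat_lit 810752) (nat_lit 11) (.e (nat_lit 336027) (nat_lit 3) (.e (nat_lit 98370) (nat_lit 28) (.e (nat_lit 450304) (nat_lit 3) .nil)))) .nil)))))))))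

noncomputable def tv5488 : DT := (.nd (nat_lit 0) (.nd (nat_lit 1) (.nd (nat_lit 2) (.nd (nat_lit 3) (.nd (nat_lit 4) (.nd (nat_lit 5) (.nd (nat_lit 6) 
(.lf (nat_lit 446208) (.g (nat_lit 1000) (.e (nat_lit 810752) (nat_lit 11) (.e (nat_lit 336028) (nat_lit 3) (.e (nat_lit 98359) (nat_lit 26) (.e (nat_lit 426212) (nat_lit 9) .nil)))) .nil)) 
(.lf (nat_lit 446272) (.g (nat_lit 224) (.e (nat_lit 802828) (nat_lit 13) (.e (nat_lit 352273) (nat_lit 11) (.e (nat_lit 426344) (nat_lit 14) .nil))) .nil))) (.nd (nat_lit 6) 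
(.lf (nat_lit 446240) (.g (nat_lit 1829) (.e (nat_lit 802827) (nat_lit 12) (.e (nat_lit 344133) (nat_lit 26) (.e (nat_lit 557105) (nat_lit 14) (.e (nat_lit 180264) (nat_lit 21) .nil)))) .nil)) 
(.lf (nat_lit 446304) (.g (nat_lit 1407) (.e (nat_lit 802828) (nat_lit 13) (.e (nat_lit 352290) (nat_lit 20) (.e (nat_lit 2281) (nat_lit 150) (.e (nat_lit 770057) (nat_lit 5) (.e (nat_lit 1595) (nat_lit 111) (.e (nat_lit 368384) (nat_lit 25) .nil)))))) (.g (nat_lit 5) .nil .nil))))) (.nd (nat_lit 5) (.nd (nat_lit 6) 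
(.lf (nat_lit 446224) (.g (nat_lit 4330) (.e (nat_lit 802827) (nat_lit 12) (.e (nat_lit 344118) (nat_lit 21) (.e (nat_lit 516166) (nat_lit 12) (.e (nat_lit 450587) (nat_lit 10) (.e (nat_lit 573478) (nat_lit 12) (.e (nat_lit 65280) (nat_lit 58) .nil)))))) (.g (nat_lit 4) .nil .nil))) 
(.lf (nat_lit 446288) (.g (nat_lit 129) (.e (nat_lit 802828) (nat_lit 13) (.e (nat_lit 352283) (nat_lit 20) (.e (nat_lit 2274) (nat_lit 150) .nil))) .nil))) (.nd (nat_lit 6) 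
(.lf (nat_lit 446256) (.g (nat_lit 783) (.e (nat_lit 810752) (nat_lit 12) (.e (nat_lit 344117) (nat_lit 21) (.e (nat_lit 516173) (nat_lit 14) .nil))) .nil)) 
(.lf (nat_lit 446320) (.g (nat_lit 1315) (.e (nat_lit 802828) (nat_lit 13) (.e (nat_lit 352296) (nat_lit 20) (.e (nat_lit 2281) (nat_lit 150) (.e (nat_lit 770057) (nat_lit 5) (.e (nat_lit 1595) (nat_lit 111) (.e (nat_lit 368384) (nat_lit 25) .nil)))))) (.g (nat_lit 5) .nil .nil)))))) (.nd (nat_lit 4) (.nd (nat_lit 5) (.nd (nat_lit 6) 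
(.lf (nat_lit 446216) (.g (nat_lit 1320) (.e (nat_lit 810752) (nat_lit 11) (.e (nat_lit 336224) (nat_lit 13) (.e (nat_lit 393234) (nat_lit 17) (.e (nat_lit 7593) (nat_lit 407) (.e (nat_lit 81664) (nat_lit 29) .nil))))) .nil)) 
(.lf (nat_lit 446280) (.g (nat_lit 1237) (.e (nat_lit 802828) (nat_lit 13) (.e (nat_lit 352275) (nat_lit 11) (.e (nat_lit 426342) (nat_lit 14) (.e (nat_lit 491558) (nat_lit 10) (.e (nat_lit 352000) (nat_lit 47) .nil))))) .nil))) (.nd (nat_lit 6) 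
(.lf (nat_lit 446248) (.g (nat_lit 480) (.e (nat_lit 810752) (nat_lit 12) (.e (nat_lit 344107) (nat_lit 19) (.e (nat_lit 499931) (nat_lit 11) .nil))) .nil)) 
(.lf (nat_lit 446312) (.g (nat_lit 963) (.e (nat_lit 802828) (nat_lit 13) (.e (nat_lit 352291) (nat_lit 20) (.e (nat_lit 2270) (nat_lit 149) (.e (nat_lit 761868) (nat_lit 5) (.e (nat_lit 1585) (nat_lit 111) (.e (nat_lit 368384) (nat_lit 25) .nil)))))) (.g (nat_lit 4) .nil .nil))))) (.nd (nat_lit 5) (.nd (nat_lit 6) 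
(.lf (nat_lit 446232) (.g (nat_lit 1293) (.e (nat_lit 802827) (nat_lit 12) (.e (nat_lit 344131) (nat_lit 26) (.e (nat_lit 557105) (nat_lit 14) (.e (nat_lit 180265) (nat_lit 21) (.e (nat_lit 671488) (nat_lit 5) (.e (nat_lit 81664) (nat_lit 29) .nil)))))) (.g (nat_lit 4) .nil .nil))) 
(.lf (nat_lit 446296) (.g (nat_lit 881) (.e (nat_lit 802828) (nat_lit 13) (.e (nat_lit 352287) (nat_lit 20) (.e (nat_lit 2274) (nat_lit 150) (.e (nat_lit 770074) (nat_lit 10) (.e (nat_lit 81933) (nat_lit 20) .nil))))) .nil))) (.nd (nat_lit 6) 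
(.lf (nat_lit 446264) (.g (nat_lit 636) (.e (nat_lit 802828) (nat_lit 13) (.e (nat_lit 360192) (nat_lit 10) (.e (nat_lit 417795) (nat_lit 0) (.e (nat_lit 5412) (nat_lit 303) (.e (nat_lit 81664) (nat_lit 29) .nil))))) (.g (nat_lit 4) .nil .nil))) 
(.lf (nat_lit 446328) (.g (nat_lit 857) (.e (nat_lit 802828) (nat_lit 13) (.e (nat_lit 352297) (nat_lit 20) (.e (nat_lit 2280) (nat_lit 150) (.e (nat_lit 770057) (nat_lit 5) (.e (nat_lit 1599) (nat_lit 111) .nil))))) .nil)))))) (.nd (nat_lit 3) (.nd (nat_lit 4) (.nd (nat_lit 5) (.nd (nat_lit 6) 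
(.lf (nat_lit 446212) (.g (nat_lit 1826) (.e (nat_lit 810752) (nat_lit 11) (.e (nat_lit 336223) (nat_lit 13) (.e (nat_lit 393234) (nat_lit 17) (.e (nat_lit 7591) (nat_lit 407) (.e (nat_lit 81664) (nat_lit 29) .nil))))) .nil)) 
(.lf (nat_lit 446276) (.g (nat_lit 1489) (.e (nat_lit 802828) (nat_lit 13) (.e (nat_lit 352275) (nat_lit 11) (.e (nat_lit 426012) (nat_lit 0) (.e (nat_lit 7593) (nat_lit 407) (.e (nat_lit 81664) (nat_lit 29) .nil))))) (.g (nat_lit 4) .nil .nil)))) (.nd (nat_lit 6) 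
(.lf (nat_lit 446244) (.g (nat_lit 1710) (.e (nat_lit 802827) (nat_lit 12) (.e (nat_lit 344133) (nat_lit 26) (.e (nat_lit 557105) (nat_lit 14) (.e (nat_lit 180266) (nat_lit 22) .nil)))) .nil)) 
(.lf (nat_lit 446308) (.g (nat_lit 1699) (.e (nat_lit 802828) (nat_lit 13) (.e (nat_lit 352290) (nat_lit 20) (.e (nat_lit 2281) (nat_lit 150) (.e (nat_lit 770058) (nat_lit 5) (.e (nat_lit 1589) (nat_lit 111) (.e (nat_lit 368384) (nat_lit 25) .nil)))))) (.g (nat_lit 5) .nil .nil))))) (.nd (nat_lit 5) (.nd (nat_lit 6) 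
(.lf (nat_lit 446228) (.g (nat_lit 3292) (.e (nat_lit 802827) (nat_lit 12) (.e (nat_lit 344119) (nat_lit 21) (.e (nat_lit 516166) (nat_lit 12) (.e (nat_lit 450588) (nat_lit 10) (.e (nat_lit 573475) (nat_lit 12) (.e (nat_lit 65280) (nat_lit 58) .nil)))))) (.g (nat_lit 4) .nil .nil))) 
(.lf (nat_lit 446292) (.g (nat_lit 162) (.e (nat_lit 802828) (nat_lit 13) (.e (nat_lit 352285) (nat_lit 20) (.e (nat_lit 2370) (nat_lit 154) (.e (nat_lit 810752) (nat_lit 14) .nil)))) .nil))) (.nd (nat_lit 6) 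
(.lf (nat_lit 446260) (.g (nat_lit 250) (.e (nat_lit 802828) (nat_lit 13) (.e (nat_lit 352264) (nat_lit 0) (.e (nat_lit 7089) (nat_lit 379) (.e (nat_lit 123214) (nat_lit 275) (.e (nat_lit 81664) (nat_lit 29) .nil))))) (.g (nat_lit 4) .nil .nil))) 
(.lf (nat_lit 446324) (.g (nat_lit 1340) (.e (nat_lit 802828) (nat_lit 13) (.e (nat_lit 352296) (nat_lit 20) (.e (nat_lit 2281) (nat_lit 150) (.e (nat_lit 770058) (nat_lit 5) (.e (nat_lit 1595) (nat_lit 111) (.e (nat_lit 368384) (nat_lit 25) .nil)))))) (.g (nat_lit 5) .nil .nil)))))) (.nd (nat_lit 4) (.nd (nat_lit 5) (.nd (nat_lit 6) 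
(.lf (nat_lit 446220) (.g (nat_lit 504) (.e (nat_lit 802827) (nat_lit 12) (.e (nat_lit 352000) (nat_lit 11) (.e (nat_lit 57569) (nat_lit 53) (.e (nat_lit 761868) (nat_lit 5) (.e (nat_lit 1585) (nat_lit 111) (.e (nat_lit 368384) (nat_lit 25) .nil)))))) (.g (nat_lit 5) .nil .nil))) 
(.lf (nat_lit 446284) (.g (nat_lit 1508) (.e (nat_lit 802828) (nat_lit 13) (.e (nat_lit 352275) (nat_lit 11) (.e (nat_lit 426344) (nat_lit 14) (.e (nat_lit 491558) (nat_lit 10) (.e (nat_lit 352000) (nat_lit 47) .nil))))) (.g (nat_lit 4) .nil .nil)))) (.nd (nat_lit 6) 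
(.lf (nat_lit 446252) (.g (nat_lit 2114) (.e (nat_lit 810752) (nat_lit 12) (.e (nat_lit 344117) (nat_lit 21) (.e (nat_lit 516151) (nat_lit 9) (.e (nat_lit 426286) (nat_lit 10) (.e (nat_lit 434245) (nat_lit 28) .nil))))) .nil)) 
(.lf (nat_lit 446316) (.g (nat_lit 1232) (.e (nat_lit 802828) (nat_lit 13) (.e (nat_lit 352296) (nat_lit 20) (.e (nat_lit 2280) (nat_lit 150) (.e (nat_lit 770057) (nat_lit 5) (.e (nat_lit 1595) (nat_lit 111) (.e (nat_lit 368384) (nat_lit 25) .nil)))))) (.g (nat_lit 5) .nil .nil))))) (.nd (nat_lit 5) (.nd (nat_lit 6) 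
(.lf (nat_lit 446236) (.g (nat_lit 2202) (.e (nat_lit 802827) (nat_lit 12) (.e (nat_lit 344133) (nat_lit 26) (.e (nat_lit 557098) (nat_lit 13) (.e (nat_lit 172051) (nat_lit 0) (.e (nat_lit 3437) (nat_lit 214) (.e (nat_lit 671762) (nat_lit 4) (.e (nat_lit 65541) (nat_lit 0) (.e (nat_lit 2375) (nat_lit 154) .nil)))))))) (.g (nat_lit 5) .nil .nil))) 
(.lf (nat_lit 446300) (.g (nat_lit 1089) (.e (nat_lit 802828) (nat_lit 13) (.e (nat_lit 352290) (nat_lit 20) (.e (nat_lit 2280) (nat_lit 150) (.e (nat_lit 770057) (nat_lit 5) (.e (nat_lit 1598) (nat_lit 111) (.e (nat_lit 368384) (nat_lit 25) .nil)))))) (.g (nat_lit 5) .nil .nil)))) (.nd (nat_lit 6) 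
(.lf (nat_lit 446268) (.g (nat_lit 630) (.e (nat_lit 802828) (nat_lit 13) (.e (nat_lit 360192) (nat_lit 10) (.e (nat_lit 417796) (nat_lit 0) (.e (nat_lit 5412) (nat_lit 303) (.e (nat_lit 81664) (nat_lit 29) .nil))))) (.g (nat_lit 4) .nil .nil))) 
(.lf (nat_lit 446332) (.g (nat_lit 1100) (.e (nat_lit 802828) (nat_lit 13) (.e (nat_lit 352297) (nat_lit 20) (.e (nat_lit 2281) (nat_lit 150) (.e (nat_lit 770057) (nat_lit 5) (.e (nat_lit 1599) (nat_lit 111) (.e (nat_lit 368384) (nat_lit 25) .nil)))))) (.g (nat_lit 5) .nil .nil)))))))) (.nd (nat_lit 2) (.nd (nat_lit 3) (.nd (nat_lit 4) (.nd (nat_lit 5) (.nd (nat_lit 6) 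
(.lf (nat_lit 446210) (.g (nat_lit 633) (.e (nat_lit 810752) (nat_lit 11) (.e (nat_lit 336028) (nat_lit 3) (.e (nat_lit 98381) (nat_lit 31) .nil))) .nil)) 
(.lf (nat_lit 446274) (.g (nat_lit 1999) (.e (nat_lit 802828) (nat_lit 13) (.e (nat_lit 352275) (nat_lit 11) (.e (nat_lit 426011) (nat_lit 0) (.e (nat_lit 7593) (nat_lit 407) (.e (nat_lit 81664) (nat_lit 29) .nil))))) (.g (nat_lit 4) .nil .nil)))) (.nd (nat_lit 6) 
(.lf (nat_lit 446242) (.g (nat_lit 2500) (.e (nat_lit 802827) (nat_lit 12) (.e (nat_lit 344133) (nat_lit 26) (.e (nat_lit 557105) (nat_lit 14) (.e (nat_lit 180265) (nat_lit 21) (.e (nat_lit 663566) (nat_lit 4) .nil))))) .nil)) 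
(.lf (nat_lit 446306) (.g (nat_lit 982) (.e (nat_lit 802828) (nat_lit 13) (.e (nat_lit 352290) (nat_lit 20) (.e (nat_lit 2281) (nat_lit 150) (.e (nat_lit 770057) (nat_lit 5) (.e (nat_lit 1599) (nat_lit 111) (.e (nat_lit 368384) (nat_lit 25) .nil)))))) (.g (nat_lit 5) .nil .nil))))) (.nd (nat_lit 5) (.nd (nat_lit 6) 
(.lf (nat_lit 446226) (.g (nat_lit 937) (.e (nat_lit 802827) (nat_lit 12) (.e (nat_lit 344118) (nat_lit 21) (.e (nat_lit 516176) (nat_lit 14) (.e (nat_lit 474880) (nat_lit 3) .nil)))) .nil)) 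
(.lf (nat_lit 446290) (.g (nat_lit 739) (.e (nat_lit 802828) (nat_lit 13) (.e (nat_lit 352283) (nat_lit 20) (.e (nat_lit 2274) (nat_lit 150) (.e (nat_lit 770074) (nat_lit 10) (.e (nat_lit 81934) (nat_lit 20) .nil))))) .nil))) (.nd (nat_lit 6) 
(.lf (nat_lit 446258) (.g (nat_lit 425) (.e (nat_lit 810752) (nat_lit 12) (.e (nat_lit 344133) (nat_lit 26) (.e (nat_lit 557105) (nat_lit 14) .nil))) .nil)) 
(.lf (nat_lit 446322) (.g (nat_lit 1304) (.e (nat_lit 802828) (nat_lit 13) (.e (nat_lit 352296) (nat_lit 20) (.e (nat_lit 2281) (nat_lit 150) (.e (nat_lit 770058) (nat_lit 5) (.e (nat_lit 1586) (nat_lit 111) (.e (nat_lit 368384) (nat_lit 25) .nil)))))) (.g (nat_lit 5) .nil .nil)))))) (.nd (nat_lit 4) (.nd (nat_lit 5) (.nd (nat_lit 6) 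
(.lf (nat_lit 446218) (.g (nat_lit 1531) (.e (nat_lit 810752) (nat_lit 11) (.e (nat_lit 336224) (nat_lit 13) (.e (nat_lit 393301) (nat_lit 27) (.e (nat_lit 491560) (nat_lit 10) (.e (nat_lit 352000) (nat_lit 47) .nil))))) .nil)) 
(.lf (nat_lit 446282) (.g (nat_lit 2008) (.e (nat_lit 802828) (nat_lit 13) (.e (nat_lit 352275) (nat_lit 11) (.e (nat_lit 426343) (nat_lit 14) (.e (nat_lit 491558) (nat_lit 10) (.e (nat_lit 352000) (nat_lit 47) .nil))))) (.g (nat_lit 4) .nil .nil)))) (.nd (nat_lit 6) 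
(.lf (nat_lit 446250) (.g (nat_lit 3137) (.e (nat_lit 810752) (nat_lit 12) (.e (nat_lit 344117) (nat_lit 21) (.e (nat_lit 516151) (nat_lit 9) (.e (nat_lit 426208) (nat_lit 9) .nil)))) .nil)) 
(.lf (nat_lit 446314) (.g (nat_lit 1218) (.e (nat_lit 802828) (nat_lit 13) (.e (nat_lit 352296) (nat_lit 20) (.e (nat_lit 2270) (nat_lit 149) (.e (nat_lit 761868) (nat_lit 5) (.e (nat_lit 1585) (nat_lit 111) (.e (nat_lit 368384) (nat_lit 25) .nil)))))) (.g (nat_lit 5) .nil .nil))))) (.nd (nat_lit 5) (.nd (nat_lit 6) 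
(.lf (nat_lit 446234) (.g (nat_lit 1692) (.e (nat_lit 802827) (nat_lit 12) (.e (nat_lit 344133) (nat_lit 26) (.e (nat_lit 557098) (nat_lit 13) (.e (nat_lit 172041) (nat_lit 0) .nil)))) .nil)) 
(.lf (nat_lit 446298) (.g (nat_lit 1649) (.e (nat_lit 802828) (nat_lit 13) (.e (nat_lit 352290) (nat_lit 20) (.e (nat_lit 2270) (nat_lit 149) (.e (nat_lit 761868) (nat_lit 5) (.e (nat_lit 1597) (nat_lit 111) (.e (nat_lit 368384) (nat_lit 25) .nil)))))) (.g (nat_lit 5) .nil .nil)))) (.nd (nat_lit 6) 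
(.lf (nat_lit 446266) (.g (nat_lit 815) (.e (nat_lit 802828) (nat_lit 13) (.e (nat_lit 360192) (nat_lit 10) (.e (nat_lit 417796) (nat_lit 0) (.e (nat_lit 5409) (nat_lit 303) (.e (nat_lit 81664) (nat_lit 29) .nil))))) (.g (nat_lit 4) .nil .nil))) 
(.lf (nat_lit 446330) (.g (nat_lit 1619) (.e (nat_lit 802828) (nat_lit 13) (.e (nat_lit 352297) (nat_lit 20) (.e (nat_lit 2281) (nat_lit 150) (.e (nat_lit 770057) (nat_lit 5) (.e (nat_lit 1595) (nat_lit 111) (.e (nat_lit 368384) (nat_lit 25) .nil)))))) (.g (nat_lit 5) .nil .nil))))))) (.nd (nat_lit 3) (.nd (nat_lit 4) (.nd (nat_lit 5) (.nd (nat_lit 6) 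
(.lf (nat_lit 446214) (.g (nat_lit 2135) (.e (nat_lit 810752) (nat_lit 11) (.e (nat_lit 336223) (nat_lit 13) (.e (nat_lit 393301) (nat_lit 27) (.e (nat_lit 491558) (nat_lit 10) (.e (nat_lit 352000) (nat_lit 47) .nil))))) .nil)) 
(.lf (nat_lit 446278) (.g (nat_lit 459) (.e (nat_lit 802828) (nat_lit 13) (.e (nat_lit 352275) (nat_lit 11) (.e (nat_lit 426052) (nat_lit 0) .nil))) .nil))) (.nd (nat_lit 6) 
(.lf (nat_lit 446246) (.g (nat_lit 485) (.e (nat_lit 810752) (nat_lit 12) (.e (nat_lit 344107) (nat_lit 19) (.e (nat_lit 499825) (nat_lit 5) .nil))) .nil)) 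
(.lf (nat_lit 446310) (.g (nat_lit 1349) (.e (nat_lit 802828) (nat_lit 13) (.e (nat_lit 352290) (nat_lit 20) (.e (nat_lit 2281) (nat_lit 150) (.e (nat_lit 770058) (nat_lit 5) (.e (nat_lit 1598) (nat_lit 111) (.e (nat_lit 368384) (nat_lit 25) .nil)))))) (.g (nat_lit 5) .nil .nil))))) (.nd (nat_lit 5) (.nd (nat_lit 6) 
(.lf (nat_lit 446230) (.g (nat_lit 1743) (.e (nat_lit 802827) (nat_lit 12) (.e (nat_lit 344131) (nat_lit 26) (.e (nat_lit 557100) (nat_lit 13) (.e (nat_lit 172049) (nat_lit 0) .nil)))) .nil)) 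
(.lf (nat_lit 446294) (.g (nat_lit 454) (.e (nat_lit 802828) (nat_lit 13) (.e (nat_lit 352285) (nat_lit 20) (.e (nat_lit 2375) (nat_lit 154) (.e (nat_lit 802828) (nat_lit 13) (.e (nat_lit 352285) (nat_lit 20) (.e (nat_lit 2375) (nat_lit 154) .nil)))))) (.g (nat_lit 0) .nil .nil)))) (.nd (nat_lit 6) 
(.lf (nat_lit 446262) (.g (nat_lit 443) (.e (nat_lit 802828) (nat_lit 13) (.e (nat_lit 360192) (nat_lit 10) (.e (nat_lit 417795) (nat_lit 0) (.e (nat_lit 5409) (nat_lit 303) (.e (nat_lit 81664) (nat_lit 29) .nil))))) (.g (nat_lit 4) .nil .nil))) 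
(.lf (nat_lit 446326) (.g (nat_lit 964) (.e (nat_lit 802828) (nat_lit 13) (.e (nat_lit 352296) (nat_lit 20) (.e (nat_lit 2281) (nat_lit 150) (.e (nat_lit 770058) (nat_lit 5) (.e (nat_lit 1599) (nat_lit 111) (.e (nat_lit 368384) (nat_lit 25) .nil)))))) (.g (nat_lit 5) .nil .nil)))))) (.nd (nat_lit 4) (.nd (nat_lit 5) (.nd (nat_lit 6) 
(.lf (nat_lit 446222) (.g (nat_lit 2962) (.e (nat_lit 802827) (nat_lit 12) (.e (nat_lit 344116) (nat_lit 21) (.e (nat_lit 516166) (nat_lit 12) (.e (nat_lit 450587) (nat_lit 10) (.e (nat_lit 573478) (nat_lit 12) (.e (nat_lit 65280) (nat_lit 58) .nil)))))) (.g (nat_lit 5) .nil .nil))) 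
(.lf (nat_lit 446286) (.g (nat_lit 1150) (.e (nat_lit 802828) (nat_lit 13) (.e (nat_lit 352280) (nat_lit 20) (.e (nat_lit 2270) (nat_lit 149) (.e (nat_lit 761868) (nat_lit 5) (.e (nat_lit 1585) (nat_lit 111) (.e (nat_lit 368384) (nat_lit 25) .nil)))))) (.g (nat_lit 5) .nil .nil)))) (.nd (nat_lit 6) 
(.lf (nat_lit 446254) (.g (nat_lit 424) (.e (nat_lit 810752) (nat_lit 12) (.e (nat_lit 344117) (nat_lit 21) (.e (nat_lit 516163) (nat_lit 11) .nil))) .nil)) 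
(.lf (nat_lit 446318) (.g (nat_lit 821) (.e (nat_lit 802828) (nat_lit 13) (.e (nat_lit 352296) (nat_lit 20) (.e (nat_lit 2280) (nat_lit 150) (.e (nat_lit 770057) (nat_lit 5) (.e (nat_lit 1599) (nat_lit 111) (.e (nat_lit 368384) (nat_lit 25) .nil)))))) (.g (nat_lit 5) .nil .nil))))) (.nd (nat_lit 5) (.nd (nat_lit 6) 
(.lf (nat_lit 446238) (.g (nat_lit 1750) (.e (nat_lit 802827) (nat_lit 12) (.e (nat_lit 344133) (nat_lit 26) (.e (nat_lit 557103) (nat_lit 14) (.e (nat_lit 180266) (nat_lit 22) (.e (nat_lit 671762) (nat_lit 4) .nil))))) .nil)) 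
(.lf (nat_lit 446302) (.g (nat_lit 1203) (.e (nat_lit 802828) (nat_lit 13) (.e (nat_lit 352290) (nat_lit 20) (.e (nat_lit 2281) (nat_lit 150) (.e (nat_lit 770056) (nat_lit 5) (.e (nat_lit 1598) (nat_lit 111) (.e (nat_lit 368384) (nat_lit 25) .nil)))))) (.g (nat_lit 5) .nil .nil)))) (.nd (nat_lit 6) 
(.lf (nat_lit 446270) (.g (nat_lit 226) (.e (nat_lit 802828) (nat_lit 13) (.e (nat_lit 352273) (nat_lit 11) (.e (nat_lit 426027) (nat_lit 0) .nil))) .nil)) 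
(.lf (nat_lit 446334) (.g (nat_lit 1629) (.e (nat_lit 802828) (nat_lit 13) (.e (nat_lit 352297) (nat_lit 20) (.e (nat_lit 2281) (nat_lit 150) (.e (nat_lit 770058) (nat_lit 5) (.e (nat_lit 1589) (nat_lit 111) (.e (nat_lit 368384) (nat_lit 25) .nil)))))) (.g (nat_lit 5) .nil .nil))))))))) (.nd (nat_lit 1) (.nd (nat_lit 2) (.nd (nat_lit 3) (.nd (nat_lit 4) (.nd (nat_lit 5) (.nd (nat_lit 6) 
(.lf (nat_lit 446209) (.g (nat_lit 634) (.e (nat_lit 810752) (nat_lit 11) (.e (nat_lit 336028) (nat_lit 3) (.e (nat_lit 98380) (nat_lit 31) .nil))) .nil)) 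
(.lf (nat_lit 446273) (.g (nat_lit 1939) (.e (nat_lit 802828) (nat_lit 13) (.e (nat_lit 352275) (nat_lit 11) (.e (nat_lit 426011) (nat_lit 0) (.e (nat_lit 7591) (nat_lit 407) (.e (nat_lit 81664) (nat_lit 29) .nil))))) (.g (nat_lit 4) .nil .nil)))) (.nd (nat_lit 6) 
(.lf (nat_lit 446241) (.g (nat_lit 1513) (.e (nat_lit 802827) (nat_lit 12) (.e (nat_lit 344133) (nat_lit 26) (.e (nat_lit 557105) (nat_lit 14) (.e (nat_lit 180265) (nat_lit 21) .nil)))) .nil)) 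
(.lf (nat_lit 446305) (.g (nat_lit 1131) (.e (nat_lit 802828) (nat_lit 13) (.e (nat_lit 352290) (nat_lit 20) (.e (nat_lit 2281) (nat_lit 150) (.e (nat_lit 770057) (nat_lit 5) (.e (nat_lit 1598) (nat_lit 111) (.e (nat_lit 368384) (nat_lit 25) .nil)))))) (.g (nat_lit 5) .nil .nil))))) (.nd (nat_lit 5) (.nd (nat_lit 6) 
(.lf (nat_lit 446225) (.g (nat_lit 1070) (.e (nat_lit 802827) (nat_lit 12) (.e (nat_lit 344118) (nat_lit 21) (.e (nat_lit 516174) (nat_lit 14) (.e (nat_lit 474880) (nat_lit 3) .nil)))) .nil)) 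
(.lf (nat_lit 446289) (.g (nat_lit 947) (.e (nat_lit 802828) (nat_lit 13) (.e (nat_lit 352283) (nat_lit 20) (.e (nat_lit 2274) (nat_lit 150) (.e (nat_lit 770074) (nat_lit 10) (.e (nat_lit 81933) (nat_lit 20) (.e (nat_lit 2375) (nat_lit 154) .nil)))))) (.g (nat_lit 5) .nil .nil)))) (.nd (nat_lit 6) 
(.lf (nat_lit 446257) (.g (nat_lit 317) (.e (nat_lit 810752) (nat_lit 12) (.e (nat_lit 344117) (nat_lit 21) (.e (nat_lit 516174) (nat_lit 14) .nil))) .nil)) 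
(.lf (nat_lit 446321) (.g (nat_lit 1033) (.e (nat_lit 802828) (nat_lit 13) (.e (nat_lit 352296) (nat_lit 20) (.e (nat_lit 2281) (nat_lit 150) (.e (nat_lit 770057) (nat_lit 5) (.e (nat_lit 1598) (nat_lit 111) (.e (nat_lit 368384) (nat_lit 25) .nil)))))) (.g (nat_lit 5) .nil .nil)))))) (.nd (nat_lit 4) (.nd (nat_lit 5) (.nd (nat_lit 6) 
(.lf (nat_lit 446217) (.g (nat_lit 1574) (.e (nat_lit 810752) (nat_lit 11) (.e (nat_lit 336224) (nat_lit 13) (.e (nat_lit 393301) (nat_lit 27) (.e (nat_lit 491558) (nat_lit 10) (.e (nat_lit 352000) (nat_lit 47) .nil))))) .nil)) 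
(.lf (nat_lit 446281) (.g (nat_lit 1643) (.e (nat_lit 802828) (nat_lit 13) (.e (nat_lit 352275) (nat_lit 11) (.e (nat_lit 426342) (nat_lit 14) (.e (nat_lit 491560) (nat_lit 10) (.e (nat_lit 352000) (nat_lit 47) .nil))))) (.g (nat_lit 4) .nil .nil)))) (.nd (nat_lit 6) 
(.lf (nat_lit 446249) (.g (nat_lit 485) (.e (nat_lit 810752) (nat_lit 12) (.e (nat_lit 344107) (nat_lit 19) (.e (nat_lit 499933) (nat_lit 11) .nil))) .nil)) 
(.lf (nat_lit 446313) (.g (nat_lit 1023) (.e (nat_lit 802828) (nat_lit 13) (.e (nat_lit 352293) (nat_lit 20) (.e (nat_lit 2270) (nat_lit 149) (.e (nat_lit 761868) (nat_lit 5) (.e (nat_lit 1585) (nat_lit 111) (.e (nat_lit 368384) (nat_lit 25) .nil)))))) (.g (nat_lit 4) .nil .nil))))) (.nd (nat_lit 5) (.nd (nat_lit 6) 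
(.lf (nat_lit 446233) (.g (nat_lit 1512) (.e (nat_lit 802827) (nat_lit 12) (.e (nat_lit 344133) (nat_lit 26) (.e (nat_lit 557098) (nat_lit 13) (.e (nat_lit 172032) (nat_lit 0) .nil)))) .nil)) 
(.lf (nat_lit 446297) (.g (nat_lit 1333) (.e (nat_lit 802828) (nat_lit 13) (.e (nat_lit 352290) (nat_lit 20) (.e (nat_lit 2270) (nat_lit 149) (.e (nat_lit 761868) (nat_lit 5) (.e (nat_lit 1585) (nat_lit 111) (.e (nat_lit 368384) (nat_lit 25) .nil)))))) (.g (nat_lit 5) .nil .nil)))) (.nd (nat_lit 6) 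
(.lf (nat_lit 446265) (.g (nat_lit 227) (.e (nat_lit 802828) (nat_lit 13) (.e (nat_lit 360192) (nat_lit 10) (.e (nat_lit 417795) (nat_lit 0) (.e (nat_lit 5413) (nat_lit 303) (.e (nat_lit 81664) (nat_lit 29) .nil))))) (.g (nat_lit 4) .nil .nil))) 
(.lf (nat_lit 446329) (.g (nat_lit 1573) (.e (nat_lit 802828) (nat_lit 13) (.e (nat_lit 352297) (nat_lit 20) (.e (nat_lit 2281) (nat_lit 150) (.e (nat_lit 770057) (nat_lit 5) (.e (nat_lit 1589) (nat_lit 111) (.e (nat_lit 368384) (nat_lit 25) .nil)))))) (.g (nat_lit 5) .nil .nil))))))) (.nd (nat_lit 3) (.nd (nat_lit 4) (.nd (nat_lit 5) (.nd (nat_lit 6) 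
(.lf (nat_lit 446213) (.g (nat_lit 1537) (.e (nat_lit 810752) (nat_lit 11) (.e (nat_lit 336223) (nat_lit 13) (.e (nat_lit 393234) (nat_lit 17) (.e (nat_lit 7593) (nat_lit 407) (.e (nat_lit 81664) (nat_lit 29) .nil))))) .nil)) 
(.lf (nat_lit 446277) (.g (nat_lit 459) (.e (nat_lit 802828) (nat_lit 13) (.e (nat_lit 352275) (nat_lit 11) (.e (nat_lit 426035) (nat_lit 0) .nil))) .nil))) (.nd (nat_lit 6) 
(.lf (nat_lit 446245) (.g (nat_lit 2854) (.e (nat_lit 802827) (nat_lit 12) (.e (nat_lit 344133) (nat_lit 26) (.e (nat_lit 557105) (nat_lit 14) (.e (nat_lit 180266) (nat_lit 22) (.e (nat_lit 671762) (nat_lit 4) (.e (nat_lit 65541) (nat_lit 0) (.e (nat_lit 2375) (nat_lit 154) .nil))))))) (.g (nat_lit 5) .nil .nil))) 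
(.lf (nat_lit 446309) (.g (nat_lit 1543) (.e (nat_lit 802828) (nat_lit 13) (.e (nat_lit 352290) (nat_lit 20) (.e (nat_lit 2281) (nat_lit 150) (.e (nat_lit 770058) (nat_lit 5) (.e (nat_lit 1595) (nat_lit 111) (.e (nat_lit 368384) (nat_lit 25) .nil)))))) (.g (nat_lit 5) .nil .nil))))) (.nd (nat_lit 5) (.nd (nat_lit 6) 
(.lf (nat_lit 446229) (.g (nat_lit 999) (.e (nat_lit 802827) (nat_lit 12) (.e (nat_lit 344119) (nat_lit 21) (.e (nat_lit 516174) (nat_lit 14) (.e (nat_lit 474880) (nat_lit 3) .nil)))) .nil)) 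
(.lf (nat_lit 446293) (.g (nat_lit 572) (.e (nat_lit 802828) (nat_lit 13) (.e (nat_lit 352285) (nat_lit 20) (.e (nat_lit 2375) (nat_lit 154) (.e (nat_lit 802828) (nat_lit 13) (.e (nat_lit 352283) (nat_lit 20) (.e (nat_lit 2375) (nat_lit 154) .nil)))))) (.g (nat_lit 0) .nil .nil)))) (.nd (nat_lit 6) 
(.lf (nat_lit 446261) (.g (nat_lit 306) (.e (nat_lit 802828) (nat_lit 13) (.e (nat_lit 360192) (nat_lit 10) (.e (nat_lit 417793) (nat_lit 0) (.e (nat_lit 5412) (nat_lit 303) (.e (nat_lit 81664) (nat_lit 29) .nil))))) (.g (nat_lit 4) .nil .nil))) 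
(.lf (nat_lit 446325) (.g (nat_lit 1135) (.e (nat_lit 802828) (nat_lit 13) (.e (nat_lit 352296) (nat_lit 20) (.e (nat_lit 2281) (nat_lit 150) (.e (nat_lit 770058) (nat_lit 5) (.e (nat_lit 1598) (nat_lit 111) (.e (nat_lit 368384) (nat_lit 25) .nil)))))) (.g (nat_lit 5) .nil .nil)))))) (.nd (nat_lit 4) (.nd (nat_lit 5) (.nd (nat_lit 6) 
(.lf (nat_lit 446221) (.g (nat_lit 837) (.e (nat_lit 802827) (nat_lit 12) (.e (nat_lit 352000) (nat_lit 11) (.e (nat_lit 57569) (nat_lit 53) (.e (nat_lit 761868) (nat_lit 5) (.e (nat_lit 1597) (nat_lit 111) (.e (nat_lit 368384) (nat_lit 25) .nil)))))) (.g (nat_lit 5) .nil .nil))) 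
(.lf (nat_lit 446285) (.g (nat_lit 1699) (.e (nat_lit 802828) (nat_lit 13) (.e (nat_lit 352275) (nat_lit 11) (.e (nat_lit 426344) (nat_lit 14) (.e (nat_lit 491560) (nat_lit 10) (.e (nat_lit 352000) (nat_lit 47) .nil))))) (.g (nat_lit 4) .nil .nil)))) (.nd (nat_lit 6) 
(.lf (nat_lit 446253) (.g (nat_lit 1492) (.e (nat_lit 810752) (nat_lit 12) (.e (nat_lit 344117) (nat_lit 21) (.e (nat_lit 516151) (nat_lit 9) (.e (nat_lit 426305) (nat_lit 12) .nil)))) .nil)) 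
(.lf (nat_lit 446317) (.g (nat_lit 1038) (.e (nat_lit 802828) (nat_lit 13) (.e (nat_lit 352296) (nat_lit 20) (.e (nat_lit 2280) (nat_lit 150) (.e (nat_lit 770057) (nat_lit 5) (.e (nat_lit 1598) (nat_lit 111) (.e (nat_lit 368384) (nat_lit 25) .nil)))))) (.g (nat_lit 5) .nil .nil))))) (.nd (nat_lit 5) (.nd (nat_lit 6) 
(.lf (nat_lit 446237) (.g (nat_lit 1398) (.e (nat_lit 802827) (nat_lit 12) (.e (nat_lit 344133) (nat_lit 26) (.e (nat_lit 557103) (nat_lit 14) (.e (nat_lit 180263) (nat_lit 21) .nil)))) .nil)) 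
(.lf (nat_lit 446301) (.g (nat_lit 869) (.e (nat_lit 802828) (nat_lit 13) (.e (nat_lit 352290) (nat_lit 20) (.e (nat_lit 2280) (nat_lit 150) (.e (nat_lit 770057) (nat_lit 5) (.e (nat_lit 1599) (nat_lit 111) (.e (nat_lit 368384) (nat_lit 25) .nil)))))) (.g (nat_lit 5) .nil .nil)))) (.nd (nat_lit 6) 
(.lf (nat_lit 446269) (.g (nat_lit 423) (.e (nat_lit 802828) (nat_lit 13) (.e (nat_lit 360192) (nat_lit 10) (.e (nat_lit 417796) (nat_lit 0) (.e (nat_lit 5413) (nat_lit 303) (.e (nat_lit 81664) (nat_lit 29) .nil))))) (.g (nat_lit 4) .nil .nil))) 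
(.lf (nat_lit 446333) (.g (nat_lit 1515) (.e (nat_lit 802828) (nat_lit 13) (.e (nat_lit 352297) (nat_lit 20) (.e (nat_lit 2281) (nat_lit 150) (.e (nat_lit 770058) (nat_lit 5) (.e (nat_lit 1586) (nat_lit 111) (.e (nat_lit 368384) (nat_lit 25) .nil)))))) (.g (nat_lit 5) .nil .nil)))))))) (.nd (nat_lit 2) (.nd (nat_lit 3) (.nd (nat_lit 4) (.nd (nat_lit 5) (.nd (nat_lit 6) 
(.lf (nat_lit 446211) (.g (nat_lit 632) (.e (nat_lit 810752) (nat_lit 11) (.e (nat_lit 336028) (nat_lit 3) (.e (nat_lit 98382) (nat_lit 31) .nil))) .nil)) 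
(.lf (nat_lit 446275) (.g (nat_lit 1395) (.e (nat_lit 802828) (nat_lit 13) (.e (nat_lit 352275) (nat_lit 11) (.e (nat_lit 426012) (nat_lit 0) (.e (nat_lit 7591) (nat_lit 407) (.e (nat_lit 81664) (nat_lit 29) .nil))))) (.g (nat_lit 4) .nil .nil)))) (.nd (nat_lit 6) 
(.lf (nat_lit 446243) (.g (nat_lit 2423) (.e (nat_lit 802827) (nat_lit 12) (.e (nat_lit 344133) (nat_lit 26) (.e (nat_lit 557105) (nat_lit 14) (.e (nat_lit 180265) (nat_lit 21) (.e (nat_lit 671488) (nat_lit 5) (.e (nat_lit 81664) (nat_lit 29) .nil)))))) (.g (nat_lit 4) .nil .nil))) 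
(.lf (nat_lit 446307) (.g (nat_lit 1539) (.e (nat_lit 802828) (nat_lit 13) (.e (nat_lit 352290) (nat_lit 20) (.e (nat_lit 2281) (nat_lit 150) (.e (nat_lit 770058) (nat_lit 5) (.e (nat_lit 1586) (nat_lit 111) (.e (nat_lit 368384) (nat_lit 25) .nil)))))) (.g (nat_lit 5) .nil .nil))))) (.nd (nat_lit 5) (.nd (nat_lit 6) 
(.lf (nat_lit 446227) (.g (nat_lit 2654) (.e (nat_lit 802827) (nat_lit 12) (.e (nat_lit 344119) (nat_lit 21) (.e (nat_lit 516166) (nat_lit 12) (.e (nat_lit 450587) (nat_lit 10) (.e (nat_lit 573478) (nat_lit 12) .nil))))) .nil)) 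
(.lf (nat_lit 446291) (.g (nat_lit 183) (.e (nat_lit 802828) (nat_lit 13) (.e (nat_lit 352285) (nat_lit 20) (.e (nat_lit 2362) (nat_lit 153) (.e (nat_lit 802560) (nat_lit 14) .nil)))) .nil))) (.nd (nat_lit 6) 
(.lf (nat_lit 446259) (.g (nat_lit 201) (.e (nat_lit 802828) (nat_lit 13) (.e (nat_lit 352264) (nat_lit 0) (.e (nat_lit 7088) (nat_lit 379) (.e (nat_lit 123214) (nat_lit 275) (.e (nat_lit 81664) (nat_lit 29) .nil))))) (.g (nat_lit 4) .nil .nil))) 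
(.lf (nat_lit 446323) (.g (nat_lit 1506) (.e (nat_lit 802828) (nat_lit 13) (.e (nat_lit 352296) (nat_lit 20) (.e (nat_lit 2281) (nat_lit 150) (.e (nat_lit 770058) (nat_lit 5) (.e (nat_lit 1589) (nat_lit 111) (.e (nat_lit 368384) (nat_lit 25) .nil)))))) (.g (nat_lit 5) .nil .nil)))))) (.nd (nat_lit 4) (.nd (nat_lit 5) (.nd (nat_lit 6) 
(.lf (nat_lit 446219) (.g (nat_lit 736) (.e (nat_lit 810752) (nat_lit 11) (.e (nat_lit 336454) (nat_lit 34) (.e (nat_lit 483376) (nat_lit 22) .nil))) .nil)) 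
(.lf (nat_lit 446283) (.g (nat_lit 2193) (.e (nat_lit 802828) (nat_lit 13) (.e (nat_lit 352275) (nat_lit 11) (.e (nat_lit 426343) (nat_lit 14) (.e (nat_lit 491560) (nat_lit 10) (.e (nat_lit 352000) (nat_lit 47) .nil))))) (.g (nat_lit 4) .nil .nil)))) (.nd (nat_lit 6) 
(.lf (nat_lit 446251) (.g (nat_lit 4771) (.e (nat_lit 810752) (nat_lit 12) (.e (nat_lit 344117) (nat_lit 21) (.e (nat_lit 516151) (nat_lit 9) (.e (nat_lit 426211) (nat_lit 9) (.e (nat_lit 433920) (nat_lit 18) .nil))))) .nil)) 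
(.lf (nat_lit 446315) (.g (nat_lit 1535) (.e (nat_lit 802828) (nat_lit 13) (.e (nat_lit 352296) (nat_lit 20) (.e (nat_lit 2270) (nat_lit 149) (.e (nat_lit 761868) (nat_lit 5) (.e (nat_lit 1597) (nat_lit 111) (.e (nat_lit 368384) (nat_lit 25) .nil)))))) (.g (nat_lit 5) .nil .nil))))) (.nd (nat_lit 5) (.nd (nat_lit 6) 
(.lf (nat_lit 446235) (.g (nat_lit 1630) (.e (nat_lit 802827) (nat_lit 12) (.e (nat_lit 344133) (nat_lit 26) (.e (nat_lit 557098) (nat_lit 13) (.e (nat_lit 172045) (nat_lit 0) .nil)))) .nil)) 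
(.lf (nat_lit 446299) (.g (nat_lit 1313) (.e (nat_lit 802828) (nat_lit 13) (.e (nat_lit 352290) (nat_lit 20) (.e (nat_lit 2280) (nat_lit 150) (.e (nat_lit 770057) (nat_lit 5) (.e (nat_lit 1595) (nat_lit 111) (.e (nat_lit 368384) (nat_lit 25) .nil)))))) (.g (nat_lit 5) .nil .nil)))) (.nd (nat_lit 6) 
(.lf (nat_lit 446267) (.g (nat_lit 489) (.e (nat_lit 802828) (nat_lit 13) (.e (nat_lit 360192) (nat_lit 10) (.e (nat_lit 417796) (nat_lit 0) (.e (nat_lit 5410) (nat_lit 303) (.e (nat_lit 81664) (nat_lit 29) .nil))))) (.g (nat_lit 4) .nil .nil))) 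
(.lf (nat_lit 446331) (.g (nat_lit 1296) (.e (nat_lit 802828) (nat_lit 13) (.e (nat_lit 352297) (nat_lit 20) (.e (nat_lit 2281) (nat_lit 150) (.e (nat_lit 770057) (nat_lit 5) (.e (nat_lit 1598) (nat_lit 111) (.e (nat_lit 368384) (nat_lit 25) .nil)))))) (.g (nat_lit 5) .nil .nil))))))) (.nd (nat_lit 3) (.nd (nat_lit 4) (.nd (nat_lit 5) (.nd (nat_lit 6) 
(.lf (nat_lit 446215) (.g (nat_lit 2030) (.e (nat_lit 810752) (nat_lit 11) (.e (nat_lit 336223) (nat_lit 13) (.e (nat_lit 393301) (nat_lit 27) (.e (nat_lit 491560) (nat_lit 10) (.e (nat_lit 352000) (nat_lit 47) .nil))))) .nil)) 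
(.lf (nat_lit 446279) (.g (nat_lit 1596) (.e (nat_lit 802828) (nat_lit 13) (.e (nat_lit 352275) (nat_lit 11) (.e (nat_lit 426341) (nat_lit 14) (.e (nat_lit 491560) (nat_lit 10) (.e (nat_lit 352000) (nat_lit 47) .nil))))) (.g (nat_lit 4) .nil .nil)))) (.nd (nat_lit 6) 
(.lf (nat_lit 446247) (.g (nat_lit 611) (.e (nat_lit 810752) (nat_lit 12) (.e (nat_lit 344107) (nat_lit 19) (.e (nat_lit 499930) (nat_lit 11) (.e (nat_lit 196352) (nat_lit 3) .nil)))) .nil)) 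
(.lf (nat_lit 446311) (.g (nat_lit 1145) (.e (nat_lit 802828) (nat_lit 13) (.e (nat_lit 352290) (nat_lit 20) (.e (nat_lit 2281) (nat_lit 150) (.e (nat_lit 770058) (nat_lit 5) (.e (nat_lit 1599) (nat_lit 111) (.e (nat_lit 368384) (nat_lit 25) .nil)))))) (.g (nat_lit 5) .nil .nil))))) (.nd (nat_lit 5) (.nd (nat_lit 6) 
(.lf (nat_lit 446231) (.g (nat_lit 204) (.e (nat_lit 802827) (nat_lit 12) (.e (nat_lit 344131) (nat_lit 26) (.e (nat_lit 557105) (nat_lit 14) .nil))) .nil)) 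
(.lf (nat_lit 446295) (.g (nat_lit 550) (.e (nat_lit 802828) (nat_lit 13) (.e (nat_lit 352285) (nat_lit 20) (.e (nat_lit 2375) (nat_lit 154) (.e (nat_lit 802828) (nat_lit 13) (.e (nat_lit 352287) (nat_lit 20) (.e (nat_lit 2375) (nat_lit 154) .nil)))))) (.g (nat_lit 0) .nil .nil)))) (.nd (nat_lit 6) 
(.lf (nat_lit 446263) (.g (nat_lit 281) (.e (nat_lit 802828) (nat_lit 13) (.e (nat_lit 360192) (nat_lit 10) (.e (nat_lit 417795) (nat_lit 0) (.e (nat_lit 5410) (nat_lit 303) (.e (nat_lit 81664) (nat_lit 29) .nil))))) (.g (nat_lit 4) .nil .nil))) 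
(.lf (nat_lit 446327) (.g (nat_lit 637) (.e (nat_lit 802828) (nat_lit 13) (.e (nat_lit 352297) (nat_lit 20) (.e (nat_lit 2280) (nat_lit 150) (.e (nat_lit 770056) (nat_lit 5) .nil)))) .nil))))) (.nd (nat_lit 4) (.nd (nat_lit 5) (.nd (nat_lit 6) 
(.lf (nat_lit 446223) (.g (nat_lit 3489) (.e (nat_lit 802827) (nat_lit 12) (.e (nat_lit 344116) (nat_lit 21) (.e (nat_lit 516166) (nat_lit 12) (.e (nat_lit 450588) (nat_lit 10) (.e (nat_lit 573475) (nat_lit 12) (.e (nat_lit 65280) (nat_lit 58) .nil)))))) (.g (nat_lit 5) .nil .nil))) 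
(.lf (nat_lit 446287) (.g (nat_lit 1494) (.e (nat_lit 802828) (nat_lit 13) (.e (nat_lit 352280) (nat_lit 20) (.e (nat_lit 2270) (nat_lit 149) (.e (nat_lit 761868) (nat_lit 5) (.e (nat_lit 1597) (nat_lit 111) (.e (nat_lit 368384) (nat_lit 25) .nil)))))) (.g (nat_lit 5) .nil .nil)))) (.nd (nat_lit 6) 
(.lf (nat_lit 446255) (.g (nat_lit 1648) (.e (nat_lit 810752) (nat_lit 12) (.e (nat_lit 344117) (nat_lit 21) (.e (nat_lit 516165) (nat_lit 12) (.e (nat_lit 450588) (nat_lit 10) .nil)))) .nil)) 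
(.lf (nat_lit 446319) (.g (nat_lit 1335) (.e (nat_lit 802828) (nat_lit 13) (.e (nat_lit 352296) (nat_lit 20) (.e (nat_lit 2281) (nat_lit 150) (.e (nat_lit 770057) (nat_lit 5) (.e (nat_lit 1589) (nat_lit 111) (.e (nat_lit 368384) (nat_lit 25) .nil)))))) (.g (nat_lit 5) .nil .nil))))) (.nd (nat_lit 5) (.nd (nat_lit 6) 
(.lf (nat_lit 446239) (.g (nat_lit 2907) (.e (nat_lit 802827) (nat_lit 12) (.e (nat_lit 344133) (nat_lit 26) (.e (nat_lit 557103) (nat_lit 14) (.e (nat_lit 180266) (nat_lit 22) (.e (nat_lit 671762) (nat_lit 4) (.e (nat_lit 65541) (nat_lit 0) (.e (nat_lit 2375) (nat_lit 154) .nil))))))) (.g (nat_lit 5) .nil .nil))) 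
(.lf (nat_lit 446303) (.g (nat_lit 1452) (.e (nat_lit 802828) (nat_lit 13) (.e (nat_lit 352290) (nat_lit 20) (.e (nat_lit 2281) (nat_lit 150) (.e (nat_lit 770057) (nat_lit 5) (.e (nat_lit 1589) (nat_lit 111) (.e (nat_lit 368384) (nat_lit 25) .nil)))))) (.g (nat_lit 5) .nil .nil)))) (.nd (nat_lit 6) 
(.lf (nat_lit 446271) (.g (nat_lit 387) (.e (nat_lit 802828) (nat_lit 13) (.e (nat_lit 352273) (nat_lit 11) (.e (nat_lit 426052) (nat_lit 0) (.e (nat_lit 7936) (nat_lit 407) .nil)))) .nil)) 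
(.lf (nat_lit 446335) (.g (nat_lit 1550) (.e (nat_lit 802828) (nat_lit 13) (.e (nat_lit 352297) (nat_lit 20) (.e (nat_lit 2281) (nat_lit 150) (.e (nat_lit 770058) (nat_lit 5) (.e (nat_lit 1595) (nat_lit 111) (.e (nat_lit 368384) (nat_lit 25) .nil)))))) (.g (nat_lit 5) .nil .nil))))))))))

noncomputable def tv5489 : DT := (.nd (nat_lit 0) (.nd (nat_lit 1) (.nd (nat_lit 2) (.nd (nat_lit 3) (.nd (nat_lit 4) (.nd (nat_lit 5) (.nd (nat_lit 6) 
(.lf (nat_lit 446336) (.g (nat_lit 1342) (.e (nat_lit 802828) (nat_lit 13) (.e (nat_lit 352297) (nat_lit 20) (.e (nat_lit 2281) (nat_lit 150) (.e (nat_lit 770058) (nat_lit 5) (.e (nat_lit 1598) (nat_lit 111) (.e (nat_lit 368384) (nat_lit 25) .nil)))))) (.g (nat_lit 5) .nil .nil))) 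
(.lf (nat_lit 446400) (.g (nat_lit 2078) (.e (nat_lit 802828) (nat_lit 13) (.e (nat_lit 352309) (nat_lit 21) (.e (nat_lit 57683) (nat_lit 155) (.e (nat_lit 122916) (nat_lit 14) (.e (nat_lit 352285) (nat_lit 20) .nil))))) .nil))) (.nd (nat_lit 6) 
(.lf (nat_lit 446368) (.g (nat_lit 1551) (.e (nat_lit 802828) (nat_lit 13) (.e (nat_lit 352307) (nat_lit 21) (.e (nat_lit 57683) (nat_lit 155) (.e (nat_lit 122919) (nat_lit 15) (.e (nat_lit 368384) (nat_lit 25) .nil))))) (.g (nat_lit 4) .nil .nil))) 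
(.lf (nat_lit 446432) (.g (nat_lit 887) (.e (nat_lit 802828) (nat_lit 13) (.e (nat_lit 352322) (nat_lit 26) (.e (nat_lit 147492) (nat_lit 11) (.e (nat_lit 24646) (nat_lit 11) .nil)))) .nil)))) (.nd (nat_lit 5) (.nd (nat_lit 6) 
(.lf (nat_lit 446352) (.g (nat_lit 509) (.e (nat_lit 802828) (nat_lit 13) (.e (nat_lit 352307) (nat_lit 21) (.e (nat_lit 57654) (nat_lit 152) .nil))) .nil)) 
(.lf (nat_lit 446416) (.g (nat_lit 549) (.e (nat_lit 802828) (nat_lit 13) (.e (nat_lit 352322) (nat_lit 26) (.e (nat_lit 147463) (nat_lit 9) .nil))) .nil))) (.nd (nat_lit 6) 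
(.lf (nat_lit 446384) (.g (nat_lit 820) (.e (nat_lit 802828) (nat_lit 13) (.e (nat_lit 352309) (nat_lit 21) (.e (nat_lit 57664) (nat_lit 152) .nil))) .nil)) 
(.lf (nat_lit 446448) (.g (nat_lit 1921) (.e (nat_lit 802828) (nat_lit 13) (.e (nat_lit 352322) (nat_lit 26) (.e (nat_lit 147496) (nat_lit 11) (.e (nat_lit 24631) (nat_lit 9) (.e (nat_lit 335907) (nat_lit 0) .nil))))) .nil))))) (.nd (nat_lit 4) (.nd (nat_lit 5) (.nd (nat_lit 6) 
(.lf (nat_lit 446344) (.g (nat_lit 966) (.e (nat_lit 802828) (nat_lit 13) (.e (nat_lit 352303) (nat_lit 20) (.e (nat_lit 2281) (nat_lit 150) (.e (nat_lit 770057) (nat_lit 5) (.e (nat_lit 1599) (nat_lit 111) (.e (nat_lit 368384) (nat_lit 25) .nil)))))) (.g (nat_lit 5) .nil .nil))) 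
(.lf (nat_lit 446408) (.g (nat_lit 916) (.e (nat_lit 802828) (nat_lit 13) (.e (nat_lit 352309) (nat_lit 21) (.e (nat_lit 57684) (nat_lit 155) (.e (nat_lit 122918) (nat_lit 15) .nil)))) .nil))) (.nd (nat_lit 6) 
(.lf (nat_lit 446376) (.g (nat_lit 904) (.e (nat_lit 802828) (nat_lit 13) (.e (nat_lit 352309) (nat_lit 21) (.e (nat_lit 57655) (nat_lit 152) (.e (nat_lit 1216) (nat_lit 90) .nil)))) .nil)) 
(.lf (nat_lit 446440) (.g (nat_lit 2007) (.e (nat_lit 802828) (nat_lit 13) (.e (nat_lit 352322) (nat_lit 26) (.e (nat_lit 147495) (nat_lit 11) (.e (nat_lit 24631) (nat_lit 9) (.e (nat_lit 335908) (nat_lit 0) .nil))))) .nil)))) (.nd (nat_lit 5) (.nd (nat_lit 6) 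
(.lf (nat_lit 446360) (.g (nat_lit 1576) (.e (nat_lit 802828) (nat_lit 13) (.e (nat_lit 352307) (nat_lit 21) (.e (nat_lit 57681) (nat_lit 155) (.e (nat_lit 122918) (nat_lit 15) (.e (nat_lit 368384) (nat_lit 25) .nil))))) (.g (nat_lit 4) .nil .nil))) 
(.lf (nat_lit 446424) (.g (nat_lit 1171) (.e (nat_lit 802828) (nat_lit 13) (.e (nat_lit 352322) (nat_lit 26) (.e (nat_lit 147467) (nat_lit 9) (.e (nat_lit 321) (nat_lit 24) (.e (nat_lit 368384) (nat_lit 25) .nil))))) (.g (nat_lit 4) .nil .nil)))) (.nd (nat_lit 6) 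
(.lf (nat_lit 446392) (.g (nat_lit 2269) (.e (nat_lit 802828) (nat_lit 13) (.e (nat_lit 352309) (nat_lit 21) (.e (nat_lit 57666) (nat_lit 152) (.e (nat_lit 1078) (nat_lit 81) (.e (nat_lit 1582) (nat_lit 111) (.e (nat_lit 368384) (nat_lit 25) .nil)))))) (.g (nat_lit 5) .nil .nil))) 
(.lf (nat_lit 446456) (.g (nat_lit 582) (.e (nat_lit 802828) (nat_lit 13) (.e (nat_lit 352324) (nat_lit 26) (.e (nat_lit 147464) (nat_lit 9) .nil))) .nil)))))) (.nd (nat_lit 3) (.nd (nat_lit 4) (.nd (nat_lit 5) (.nd (nat_lit 6) 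
(.lf (nat_lit 446340) (.g (nat_lit 1510) (.e (nat_lit 802828) (nat_lit 13) (.e (nat_lit 352303) (nat_lit 20) (.e (nat_lit 2270) (nat_lit 149) (.e (nat_lit 761868) (nat_lit 5) (.e (nat_lit 1597) (nat_lit 111) (.e (nat_lit 368384) (nat_lit 25) .nil)))))) (.g (nat_lit 5) .nil .nil))) 
(.lf (nat_lit 446404) (.g (nat_lit 1584) (.e (nat_lit 802828) (nat_lit 13) (.e (nat_lit 352309) (nat_lit 21) (.e (nat_lit 57683) (nat_lit 155) (.e (nat_lit 122919) (nat_lit 15) (.e (nat_lit 368384) (nat_lit 25) .nil))))) (.g (nat_lit 4) .nil .nil)))) (.nd (nat_lit 6) 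
(.lf (nat_lit 446372) (.g (nat_lit 1233) (.e (nat_lit 802828) (nat_lit 13) (.e (nat_lit 352307) (nat_lit 21) (.e (nat_lit 57684) (nat_lit 155) (.e (nat_lit 122919) (nat_lit 15) (.e (nat_lit 368384) (nat_lit 25) .nil))))) (.g (nat_lit 4) .nil .nil))) 
(.lf (nat_lit 446436) (.g (nat_lit 1246) (.e (nat_lit 802828) (nat_lit 13) (.e (nat_lit 352322) (nat_lit 26) (.e (nat_lit 147495) (nat_lit 11) (.e (nat_lit 24623) (nat_lit 9) .nil)))) .nil)))) (.nd (nat_lit 5) (.nd (nat_lit 6) 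
(.lf (nat_lit 446356) (.g (nat_lit 1182) (.e (nat_lit 802828) (nat_lit 13) (.e (nat_lit 352307) (nat_lit 21) (.e (nat_lit 57655) (nat_lit 152) (.e (nat_lit 1217) (nat_lit 90) (.e (nat_lit 81933) (nat_lit 20) .nil))))) .nil)) 
(.lf (nat_lit 446420) (.g (nat_lit 1298) (.e (nat_lit 802828) (nat_lit 13) (.e (nat_lit 352322) (nat_lit 26) (.e (nat_lit 147466) (nat_lit 9) (.e (nat_lit 324) (nat_lit 24) (.e (nat_lit 368384) (nat_lit 25) .nil))))) (.g (nat_lit 4) .nil .nil)))) (.nd (nat_lit 6) 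
(.lf (nat_lit 446388) (.g (nat_lit 2190) (.e (nat_lit 802828) (nat_lit 13) (.e (nat_lit 352309) (nat_lit 21) (.e (nat_lit 57666) (nat_lit 152) (.e (nat_lit 1077) (nat_lit 81) (.e (nat_lit 1580) (nat_lit 111) (.e (nat_lit 368384) (nat_lit 25) .nil)))))) (.g (nat_lit 4) .nil .nil))) 
(.lf (nat_lit 446452) (.g (nat_lit 2071) (.e (nat_lit 802828) (nat_lit 13) (.e (nat_lit 352322) (nat_lit 26) (.e (nat_lit 147496) (nat_lit 11) (.e (nat_lit 24640) (nat_lit 10) (.e (nat_lit 352000) (nat_lit 47) .nil))))) .nil))))) (.nd (nat_lit 4) (.nd (nat_lit 5) (.nd (nat_lit 6) 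
(.lf (nat_lit 446348) (.g (nat_lit 1238) (.e (nat_lit 802828) (nat_lit 13) (.e (nat_lit 352303) (nat_lit 20) (.e (nat_lit 2281) (nat_lit 150) (.e (nat_lit 770058) (nat_lit 5) (.e (nat_lit 1598) (nat_lit 111) (.e (nat_lit 368384) (nat_lit 25) .nil)))))) (.g (nat_lit 5) .nil .nil))) 
(.lf (nat_lit 446412) (.g (nat_lit 1228) (.e (nat_lit 802828) (nat_lit 13) (.e (nat_lit 352318) (nat_lit 24) (.e (nat_lit 123051) (nat_lit 152) (.e (nat_lit 1079) (nat_lit 81) (.e (nat_lit 1582) (nat_lit 111) (.e (nat_lit 368384) (nat_lit 25) .nil)))))) (.g (nat_lit 4) .nil .nil)))) (.nd (nat_lit 6) 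
(.lf (nat_lit 446380) (.g (nat_lit 998) (.e (nat_lit 802828) (nat_lit 13) (.e (nat_lit 352309) (nat_lit 21) (.e (nat_lit 57655) (nat_lit 152) (.e (nat_lit 7936) (nat_lit 90) .nil)))) .nil)) 
(.lf (nat_lit 446444) (.g (nat_lit 2062) (.e (nat_lit 802828) (nat_lit 13) (.e (nat_lit 352322) (nat_lit 26) (.e (nat_lit 147495) (nat_lit 11) (.e (nat_lit 24640) (nat_lit 10) (.e (nat_lit 352000) (nat_lit 47) .nil))))) (.g (nat_lit 4) .nil .nil))))) (.nd (nat_lit 5) (.nd (nat_lit 6) 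
(.lf (nat_lit 446364) (.g (nat_lit 2049) (.e (nat_lit 802828) (nat_lit 13) (.e (nat_lit 352307) (nat_lit 21) (.e (nat_lit 57683) (nat_lit 155) (.e (nat_lit 122916) (nat_lit 14) (.e (nat_lit 352285) (nat_lit 20) (.e (nat_lit 2375) (nat_lit 154) .nil)))))) (.g (nat_lit 5) .nil .nil))) 
(.lf (nat_lit 446428) (.g (nat_lit 658) (.e (nat_lit 802828) (nat_lit 13) (.e (nat_lit 352322) (nat_lit 26) (.e (nat_lit 147490) (nat_lit 10) (.e (nat_lit 16128) (nat_lit 255) .nil)))) .nil))) (.nd (nat_lit 6) 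
(.lf (nat_lit 446396) (.g (nat_lit 1559) (.e (nat_lit 802828) (nat_lit 13) (.e (nat_lit 352309) (nat_lit 21) (.e (nat_lit 57666) (nat_lit 152) (.e (nat_lit 7936) (nat_lit 90) .nil)))) .nil)) 
(.lf (nat_lit 446460) (.g (nat_lit 832) (.e (nat_lit 802828) (nat_lit 13) (.e (nat_lit 352324) (nat_lit 26) (.e (nat_lit 147467) (nat_lit 9) (.e (nat_lit 314) (nat_lit 23) .nil)))) .nil))))))) (.nd (nat_lit 2) (.nd (nat_lit 3) (.nd (nat_lit 4) (.nd (nat_lit 5) (.nd (nat_lit 6) 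
(.lf (nat_lit 446338) (.g (nat_lit 887) (.e (nat_lit 802828) (nat_lit 13) (.e (nat_lit 352302) (nat_lit 20) (.e (nat_lit 2270) (nat_lit 149) (.e (nat_lit 761868) (nat_lit 5) .nil)))) .nil)) 
(.lf (nat_lit 446402) (.g (nat_lit 1911) (.e (nat_lit 802828) (nat_lit 13) (.e (nat_lit 352309) (nat_lit 21) (.e (nat_lit 57683) (nat_lit 155) (.e (nat_lit 122917) (nat_lit 15) (.e (nat_lit 368384) (nat_lit 25) .nil))))) (.g (nat_lit 4) .nil .nil)))) (.nd (nat_lit 6) 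
(.lf (nat_lit 446370) (.g (nat_lit 1289) (.e (nat_lit 802828) (nat_lit 13) (.e (nat_lit 352307) (nat_lit 21) (.e (nat_lit 57684) (nat_lit 155) (.e (nat_lit 122916) (nat_lit 14) (.e (nat_lit 352286) (nat_lit 20) .nil))))) .nil)) 
(.lf (nat_lit 446434) (.g (nat_lit 448) (.e (nat_lit 802828) (nat_lit 13) (.e (nat_lit 352322) (nat_lit 26) (.e (nat_lit 147495) (nat_lit 11) .nil))) .nil)))) (.nd (nat_lit 5) (.nd (nat_lit 6) 
(.lf (nat_lit 446354) (.g (nat_lit 414) (.e (nat_lit 802828) (nat_lit 13) (.e (nat_lit 352307) (nat_lit 21) (.e (nat_lit 57655) (nat_lit 152) .nil))) .nil)) 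
(.lf (nat_lit 446418) (.g (nat_lit 1011) (.e (nat_lit 802828) (nat_lit 13) (.e (nat_lit 352322) (nat_lit 26) (.e (nat_lit 147463) (nat_lit 9) (.e (nat_lit 7936) (nat_lit 23) .nil)))) .nil))) (.nd (nat_lit 6) 
(.lf (nat_lit 446386) (.g (nat_lit 913) (.e (nat_lit 802828) (nat_lit 13) (.e (nat_lit 352309) (nat_lit 21) (.e (nat_lit 57666) (nat_lit 152) .nil))) .nil)) 
(.lf (nat_lit 446450) (.g (nat_lit 1250) (.e (nat_lit 802828) (nat_lit 13) (.e (nat_lit 352322) (nat_lit 26) (.e (nat_lit 147496) (nat_lit 11) (.e (nat_lit 24634) (nat_lit 9) .nil)))) .nil))))) (.nd (nat_lit 4) (.nd (nat_lit 5) (.nd (nat_lit 6) 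
(.lf (nat_lit 446346) (.g (nat_lit 1591) (.e (nat_lit 802828) (nat_lit 13) (.e (nat_lit 352303) (nat_lit 20) (.e (nat_lit 2281) (nat_lit 150) (.e (nat_lit 770058) (nat_lit 5) (.e (nat_lit 1589) (nat_lit 111) (.e (nat_lit 368384) (nat_lit 25) .nil)))))) (.g (nat_lit 5) .nil .nil))) 
(.lf (nat_lit 446410) (.g (nat_lit 772) (.e (nat_lit 802828) (nat_lit 13) (.e (nat_lit 352318) (nat_lit 24) (.e (nat_lit 123050) (nat_lit 152) .nil))) .nil))) (.nd (nat_lit 6) 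
(.lf (nat_lit 446378) (.g (nat_lit 958) (.e (nat_lit 802828) (nat_lit 13) (.e (nat_lit 352309) (nat_lit 21) (.e (nat_lit 57655) (nat_lit 152) (.e (nat_lit 1217) (nat_lit 90) .nil)))) .nil)) 
(.lf (nat_lit 446442) (.g (nat_lit 1208) (.e (nat_lit 802828) (nat_lit 13) (.e (nat_lit 352322) (nat_lit 26) (.e (nat_lit 147495) (nat_lit 11) (.e (nat_lit 24638) (nat_lit 9) .nil)))) .nil)))) (.nd (nat_lit 5) (.nd (nat_lit 6) 
(.lf (nat_lit 446362) (.g (nat_lit 785) (.e (nat_lit 802828) (nat_lit 13) (.e (nat_lit 352307) (nat_lit 21) (.e (nat_lit 57682) (nat_lit 155) .nil))) .nil)) 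
(.lf (nat_lit 446426) (.g (nat_lit 595) (.e (nat_lit 802828) (nat_lit 13) (.e (nat_lit 352322) (nat_lit 26) (.e (nat_lit 147471) (nat_lit 9) .nil))) .nil))) (.nd (nat_lit 6) 
(.lf (nat_lit 446394) (.g (nat_lit 2039) (.e (nat_lit 802828) (nat_lit 13) (.e (nat_lit 352309) (nat_lit 21) (.e (nat_lit 57666) (nat_lit 152) (.e (nat_lit 1079) (nat_lit 81) (.e (nat_lit 1582) (nat_lit 111) (.e (nat_lit 368384) (nat_lit 25) .nil)))))) (.g (nat_lit 4) .nil .nil))) 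
(.lf (nat_lit 446458) (.g (nat_lit 1014) (.e (nat_lit 802828) (nat_lit 13) (.e (nat_lit 352324) (nat_lit 26) (.e (nat_lit 147466) (nat_lit 9) (.e (nat_lit 324) (nat_lit 24) .nil)))) .nil)))))) (.nd (nat_lit 3) (.nd (nat_lit 4) (.nd (nat_lit 5) (.nd (nat_lit 6) 
(.lf (nat_lit 446342) (.g (nat_lit 1388) (.e (nat_lit 802828) (nat_lit 13) (.e (nat_lit 352303) (nat_lit 20) (.e (nat_lit 2281) (nat_lit 150) (.e (nat_lit 770057) (nat_lit 5) (.e (nat_lit 1595) (nat_lit 111) (.e (nat_lit 368384) (nat_lit 25) .nil)))))) (.g (nat_lit 5) .nil .nil))) 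
(.lf (nat_lit 446406) (.g (nat_lit 1613) (.e (nat_lit 802828) (nat_lit 13) (.e (nat_lit 352309) (nat_lit 21) (.e (nat_lit 57684) (nat_lit 155) (.e (nat_lit 122916) (nat_lit 14) (.e (nat_lit 352286) (nat_lit 20) .nil))))) .nil))) (.nd (nat_lit 6) 
(.lf (nat_lit 446374) (.g (nat_lit 886) (.e (nat_lit 802828) (nat_lit 13) (.e (nat_lit 352309) (nat_lit 21) (.e (nat_lit 57652) (nat_lit 152) .nil))) .nil)) 
(.lf (nat_lit 446438) (.g (nat_lit 2399) (.e (nat_lit 802828) (nat_lit 13) (.e (nat_lit 352322) (nat_lit 26) (.e (nat_lit 147495) (nat_lit 11) (.e (nat_lit 24623) (nat_lit 9) (.e (nat_lit 335907) (nat_lit 0) .nil))))) .nil)))) (.nd (nat_lit 5) (.nd (nat_lit 6) 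
(.lf (nat_lit 446358) (.g (nat_lit 782) (.e (nat_lit 802828) (nat_lit 13) (.e (nat_lit 352307) (nat_lit 21) (.e (nat_lit 57666) (nat_lit 152) .nil))) .nil)) 
(.lf (nat_lit 446422) (.g (nat_lit 1616) (.e (nat_lit 802828) (nat_lit 13) (.e (nat_lit 352322) (nat_lit 26) (.e (nat_lit 147467) (nat_lit 9) (.e (nat_lit 314) (nat_lit 23) (.e (nat_lit 352283) (nat_lit 20) .nil))))) .nil))) (.nd (nat_lit 6) 
(.lf (nat_lit 446390) (.g (nat_lit 2186) (.e (nat_lit 802828) (nat_lit 13) (.e (nat_lit 352309) (nat_lit 21) (.e (nat_lit 57666) (nat_lit 152) (.e (nat_lit 1077) (nat_lit 81) (.e (nat_lit 1585) (nat_lit 111) (.e (nat_lit 368384) (nat_lit 25) .nil)))))) (.g (nat_lit 4) .nil .nil))) 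
(.lf (nat_lit 446454) (.g (nat_lit 593) (.e (nat_lit 802828) (nat_lit 13) (.e (nat_lit 352324) (nat_lit 26) (.e (nat_lit 147463) (nat_lit 9) .nil))) .nil))))) (.nd (nat_lit 4) (.nd (nat_lit 5) (.nd (nat_lit 6) 
(.lf (nat_lit 446350) (.g (nat_lit 1451) (.e (nat_lit 802828) (nat_lit 13) (.e (nat_lit 352303) (nat_lit 20) (.e (nat_lit 2281) (nat_lit 150) (.e (nat_lit 770074) (nat_lit 10) (.e (nat_lit 81931) (nat_lit 20) (.e (nat_lit 2375) (nat_lit 154) .nil)))))) (.g (nat_lit 0) .nil .nil))) 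
(.lf (nat_lit 446414) (.g (nat_lit 772) (.e (nat_lit 802828) (nat_lit 13) (.e (nat_lit 352318) (nat_lit 24) (.e (nat_lit 123052) (nat_lit 152) .nil))) .nil))) (.nd (nat_lit 6) 
(.lf (nat_lit 446382) (.g (nat_lit 710) (.e (nat_lit 802828) (nat_lit 13) (.e (nat_lit 352309) (nat_lit 21) (.e (nat_lit 57660) (nat_lit 152) .nil))) .nil)) 
(.lf (nat_lit 446446) (.g (nat_lit 1224) (.e (nat_lit 802828) (nat_lit 13) (.e (nat_lit 352322) (nat_lit 26) (.e (nat_lit 147496) (nat_lit 11) (.e (nat_lit 24584) (nat_lit 0) .nil)))) .nil)))) (.nd (nat_lit 5) (.nd (nat_lit 6) 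
(.lf (nat_lit 446366) (.g (nat_lit 1912) (.e (nat_lit 802828) (nat_lit 13) (.e (nat_lit 352307) (nat_lit 21) (.e (nat_lit 57683) (nat_lit 155) (.e (nat_lit 122917) (nat_lit 15) (.e (nat_lit 368384) (nat_lit 25) .nil))))) (.g (nat_lit 4) .nil .nil))) 
(.lf (nat_lit 446430) (.g (nat_lit 885) (.e (nat_lit 802828) (nat_lit 13) (.e (nat_lit 352322) (nat_lit 26) (.e (nat_lit 147492) (nat_lit 11) (.e (nat_lit 24622) (nat_lit 8) .nil)))) .nil))) (.nd (nat_lit 6) 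
(.lf (nat_lit 446398) (.g (nat_lit 607) (.e (nat_lit 802828) (nat_lit 13) (.e (nat_lit 352309) (nat_lit 21) (.e (nat_lit 57679) (nat_lit 153) .nil))) .nil)) 
(.lf (nat_lit 446462) (.g (nat_lit 1886) (.e (nat_lit 802828) (nat_lit 13) (.e (nat_lit 352324) (nat_lit 26) (.e (nat_lit 147467) (nat_lit 9) (.e (nat_lit 314) (nat_lit 23) (.e (nat_lit 352297) (nat_lit 20) (.e (nat_lit 7936) (nat_lit 154) .nil)))))) (.g (nat_lit 5) .nil .nil))))))))) (.nd (nat_lit 1) (.nd (nat_lit 2) (.nd (nat_lit 3) (.nd (nat_lit 4) (.nd (nat_lit 5) (.nd (nat_lit 6) 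
(.lf (nat_lit 446337) (.g (nat_lit 1085) (.e (nat_lit 802828) (nat_lit 13) (.e (nat_lit 352297) (nat_lit 20) (.e (nat_lit 2281) (nat_lit 150) (.e (nat_lit 770058) (nat_lit 5) (.e (nat_lit 1599) (nat_lit 111) (.e (nat_lit 368384) (nat_lit 25) .nil)))))) (.g (nat_lit 5) .nil .nil))) 
(.lf (nat_lit 446401) (.g (nat_lit 2102) (.e (nat_lit 802828) (nat_lit 13) (.e (nat_lit 352309) (nat_lit 21) (.e (nat_lit 57683) (nat_lit 155) (.e (nat_lit 122916) (nat_lit 14) (.e (nat_lit 352286) (nat_lit 20) .nil))))) .nil))) (.nd (nat_lit 6) 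
(.lf (nat_lit 446369) (.g (nat_lit 336) (.e (nat_lit 802828) (nat_lit 13) (.e (nat_lit 352307) (nat_lit 21) (.e (nat_lit 57684) (nat_lit 155) .nil))) .nil)) 
(.lf (nat_lit 446433) (.g (nat_lit 595) (.e (nat_lit 802828) (nat_lit 13) (.e (nat_lit 352322) (nat_lit 26) (.e (nat_lit 147494) (nat_lit 11) .nil))) .nil)))) (.nd (nat_lit 5) (.nd (nat_lit 6) 
(.lf (nat_lit 446353) (.g (nat_lit 997) (.e (nat_lit 802828) (nat_lit 13) (.e (nat_lit 352307) (nat_lit 21) (.e (nat_lit 57654) (nat_lit 152) (.e (nat_lit 7936) (nat_lit 90) .nil)))) .nil)) 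
(.lf (nat_lit 446417) (.g (nat_lit 1194) (.e (nat_lit 802828) (nat_lit 13) (.e (nat_lit 352322) (nat_lit 26) (.e (nat_lit 147463) (nat_lit 9) (.e (nat_lit 313) (nat_lit 23) (.e (nat_lit 352287) (nat_lit 20) (.e (nat_lit 2375) (nat_lit 154) .nil)))))) (.g (nat_lit 4) .nil .nil)))) (.nd (nat_lit 6) 
(.lf (nat_lit 446385) (.g (nat_lit 934) (.e (nat_lit 802828) (nat_lit 13) (.e (nat_lit 352309) (nat_lit 21) (.e (nat_lit 57665) (nat_lit 152) .nil))) .nil)) 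
(.lf (nat_lit 446449) (.g (nat_lit 1912) (.e (nat_lit 802828) (nat_lit 13) (.e (nat_lit 352322) (nat_lit 26) (.e (nat_lit 147496) (nat_lit 11) (.e (nat_lit 24631) (nat_lit 9) (.e (nat_lit 335908) (nat_lit 0) .nil))))) .nil))))) (.nd (nat_lit 4) (.nd (nat_lit 5) (.nd (nat_lit 6) 
(.lf (nat_lit 446345) (.g (nat_lit 1422) (.e (nat_lit 802828) (nat_lit 13) (.e (nat_lit 352303) (nat_lit 20) (.e (nat_lit 2281) (nat_lit 150) (.e (nat_lit 770058) (nat_lit 5) (.e (nat_lit 1586) (nat_lit 111) (.e (nat_lit 368384) (nat_lit 25) .nil)))))) (.g (nat_lit 5) .nil .nil))) 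
(.lf (nat_lit 446409) (.g (nat_lit 1513) (.e (nat_lit 802828) (nat_lit 13) (.e (nat_lit 352309) (nat_lit 21) (.e (nat_lit 57684) (nat_lit 155) (.e (nat_lit 122919) (nat_lit 15) (.e (nat_lit 368384) (nat_lit 25) .nil))))) (.g (nat_lit 4) .nil .nil)))) (.nd (nat_lit 6) 
(.lf (nat_lit 446377) (.g (nat_lit 1348) (.e (nat_lit 802828) (nat_lit 13) (.e (nat_lit 352309) (nat_lit 21) (.e (nat_lit 57655) (nat_lit 152) (.e (nat_lit 1216) (nat_lit 90) (.e (nat_lit 81931) (nat_lit 20) .nil))))) .nil)) 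
(.lf (nat_lit 446441) (.g (nat_lit 1208) (.e (nat_lit 802828) (nat_lit 13) (.e (nat_lit 352322) (nat_lit 26) (.e (nat_lit 147495) (nat_lit 11) (.e (nat_lit 24634) (nat_lit 9) .nil)))) .nil)))) (.nd (nat_lit 5) (.nd (nat_lit 6) 
(.lf (nat_lit 446361) (.g (nat_lit 1639) (.e (nat_lit 802828) (nat_lit 13) (.e (nat_lit 352307) (nat_lit 21) (.e (nat_lit 57681) (nat_lit 155) (.e (nat_lit 122919) (nat_lit 15) (.e (nat_lit 368384) (nat_lit 25) .nil))))) .nil)) 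
(.lf (nat_lit 446425) (.g (nat_lit 1048) (.e (nat_lit 802828) (nat_lit 13) (.e (nat_lit 352322) (nat_lit 26) (.e (nat_lit 147467) (nat_lit 9) (.e (nat_lit 324) (nat_lit 24) (.e (nat_lit 368384) (nat_lit 25) .nil))))) (.g (nat_lit 4) .nil .nil)))) (.nd (nat_lit 6) 
(.lf (nat_lit 446393) (.g (nat_lit 1883) (.e (nat_lit 802828) (nat_lit 13) (.e (nat_lit 352309) (nat_lit 21) (.e (nat_lit 57666) (nat_lit 152) (.e (nat_lit 1078) (nat_lit 81) (.e (nat_lit 1597) (nat_lit 111) (.e (nat_lit 368384) (nat_lit 25) .nil)))))) (.g (nat_lit 4) .nil .nil))) 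
(.lf (nat_lit 446457) (.g (nat_lit 1353) (.e (nat_lit 802828) (nat_lit 13) (.e (nat_lit 352324) (nat_lit 26) (.e (nat_lit 147466) (nat_lit 9) (.e (nat_lit 321) (nat_lit 24) (.e (nat_lit 368384) (nat_lit 25) .nil))))) .nil)))))) (.nd (nat_lit 3) (.nd (nat_lit 4) (.nd (nat_lit 5) (.nd (nat_lit 6) 
(.lf (nat_lit 446341) (.g (nat_lit 1436) (.e (nat_lit 802828) (nat_lit 13) (.e (nat_lit 352303) (nat_lit 20) (.e (nat_lit 2281) (nat_lit 150) (.e (nat_lit 770057) (nat_lit 5) (.e (nat_lit 1589) (nat_lit 111) (.e (nat_lit 368384) (nat_lit 25) .nil)))))) (.g (nat_lit 5) .nil .nil))) 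
(.lf (nat_lit 446405) (.g (nat_lit 1473) (.e (nat_lit 802828) (nat_lit 13) (.e (nat_lit 352309) (nat_lit 21) (.e (nat_lit 57684) (nat_lit 155) (.e (nat_lit 122914) (nat_lit 14) (.e (nat_lit 352287) (nat_lit 20) .nil))))) .nil))) (.nd (nat_lit 6) 
(.lf (nat_lit 446373) (.g (nat_lit 959) (.e (nat_lit 802828) (nat_lit 13) (.e (nat_lit 352309) (nat_lit 21) (.e (nat_lit 57651) (nat_lit 152) .nil))) .nil)) 
(.lf (nat_lit 446437) (.g (nat_lit 2399) (.e (nat_lit 802828) (nat_lit 13) (.e (nat_lit 352322) (nat_lit 26) (.e (nat_lit 147495) (nat_lit 11) (.e (nat_lit 24623) (nat_lit 9) (.e (nat_lit 335905) (nat_lit 0) .nil))))) .nil)))) (.nd (nat_lit 5) (.nd (nat_lit 6) 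
(.lf (nat_lit 446357) (.g (nat_lit 787) (.e (nat_lit 802828) (nat_lit 13) (.e (nat_lit 352307) (nat_lit 21) (.e (nat_lit 57665) (nat_lit 152) .nil))) .nil)) 
(.lf (nat_lit 446421) (.g (nat_lit 831) (.e (nat_lit 802828) (nat_lit 13) (.e (nat_lit 352322) (nat_lit 26) (.e (nat_lit 147467) (nat_lit 9) (.e (nat_lit 309) (nat_lit 23) .nil)))) .nil))) (.nd (nat_lit 6) 
(.lf (nat_lit 446389) (.g (nat_lit 2334) (.e (nat_lit 802828) (nat_lit 13) (.e (nat_lit 352309) (nat_lit 21) (.e (nat_lit 57666) (nat_lit 152) (.e (nat_lit 1077) (nat_lit 81) (.e (nat_lit 1582) (nat_lit 111) (.e (nat_lit 368384) (nat_lit 25) .nil)))))) (.g (nat_lit 5) .nil .nil))) 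
(.lf (nat_lit 446453) (.g (nat_lit 1315) (.e (nat_lit 802828) (nat_lit 13) (.e (nat_lit 352322) (nat_lit 26) (.e (nat_lit 147496) (nat_lit 11) (.e (nat_lit 24641) (nat_lit 10) .nil)))) .nil))))) (.nd (nat_lit 4) (.nd (nat_lit 5) (.nd (nat_lit 6) 
(.lf (nat_lit 446349) (.g (nat_lit 1051) (.e (nat_lit 802828) (nat_lit 13) (.e (nat_lit 352303) (nat_lit 20) (.e (nat_lit 2281) (nat_lit 150) (.e (nat_lit 770058) (nat_lit 5) (.e (nat_lit 1599) (nat_lit 111) (.e (nat_lit 368384) (nat_lit 25) .nil)))))) (.g (nat_lit 5) .nil .nil))) 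
(.lf (nat_lit 446413) (.g (nat_lit 1139) (.e (nat_lit 802828) (nat_lit 13) (.e (nat_lit 352318) (nat_lit 24) (.e (nat_lit 123051) (nat_lit 152) (.e (nat_lit 1079) (nat_lit 81) (.e (nat_lit 1597) (nat_lit 111) .nil))))) .nil))) (.nd (nat_lit 6) 
(.lf (nat_lit 446381) (.g (nat_lit 682) (.e (nat_lit 802828) (nat_lit 13) (.e (nat_lit 352309) (nat_lit 21) (.e (nat_lit 57659) (nat_lit 152) .nil))) .nil)) 
(.lf (nat_lit 446445) (.g (nat_lit 435) (.e (nat_lit 802828) (nat_lit 13) (.e (nat_lit 352322) (nat_lit 26) (.e (nat_lit 147496) (nat_lit 11) .nil))) .nil)))) (.nd (nat_lit 5) (.nd (nat_lit 6) 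
(.lf (nat_lit 446365) (.g (nat_lit 1886) (.e (nat_lit 802828) (nat_lit 13) (.e (nat_lit 352307) (nat_lit 21) (.e (nat_lit 57683) (nat_lit 155) (.e (nat_lit 122916) (nat_lit 14) (.e (nat_lit 352286) (nat_lit 20) (.e (nat_lit 2375) (nat_lit 154) .nil)))))) (.g (nat_lit 4) .nil .nil))) 
(.lf (nat_lit 446429) (.g (nat_lit 467) (.e (nat_lit 802828) (nat_lit 13) (.e (nat_lit 352322) (nat_lit 26) (.e (nat_lit 147492) (nat_lit 11) .nil))) .nil))) (.nd (nat_lit 6) 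
(.lf (nat_lit 446397) (.g (nat_lit 909) (.e (nat_lit 802828) (nat_lit 13) (.e (nat_lit 352309) (nat_lit 21) (.e (nat_lit 57667) (nat_lit 152) .nil))) .nil)) 
(.lf (nat_lit 446461) (.g (nat_lit 1685) (.e (nat_lit 802828) (nat_lit 13) (.e (nat_lit 352324) (nat_lit 26) (.e (nat_lit 147467) (nat_lit 9) (.e (nat_lit 314) (nat_lit 23) (.e (nat_lit 352283) (nat_lit 20) .nil))))) .nil))))))) (.nd (nat_lit 2) (.nd (nat_lit 3) (.nd (nat_lit 4) (.nd (nat_lit 5) (.nd (nat_lit 6) 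
(.lf (nat_lit 446339) (.g (nat_lit 1206) (.e (nat_lit 802828) (nat_lit 13) (.e (nat_lit 352303) (nat_lit 20) (.e (nat_lit 2270) (nat_lit 149) (.e (nat_lit 761868) (nat_lit 5) (.e (nat_lit 1585) (nat_lit 111) (.e (nat_lit 368384) (nat_lit 25) .nil)))))) (.g (nat_lit 5) .nil .nil))) 
(.lf (nat_lit 446403) (.g (nat_lit 1249) (.e (nat_lit 802828) (nat_lit 13) (.e (nat_lit 352309) (nat_lit 21) (.e (nat_lit 57683) (nat_lit 155) (.e (nat_lit 122918) (nat_lit 15) (.e (nat_lit 368384) (nat_lit 25) .nil))))) (.g (nat_lit 4) .nil .nil)))) (.nd (nat_lit 6) 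
(.lf (nat_lit 446371) (.g (nat_lit 1253) (.e (nat_lit 802828) (nat_lit 13) (.e (nat_lit 352307) (nat_lit 21) (.e (nat_lit 57684) (nat_lit 155) (.e (nat_lit 122917) (nat_lit 15) (.e (nat_lit 368384) (nat_lit 25) .nil))))) (.g (nat_lit 4) .nil .nil))) 
(.lf (nat_lit 446435) (.g (nat_lit 1919) (.e (nat_lit 802828) (nat_lit 13) (.e (nat_lit 352322) (nat_lit 26) (.e (nat_lit 147495) (nat_lit 11) (.e (nat_lit 24580) (nat_lit 0) (.e (nat_lit 6203) (nat_lit 332) (.e (nat_lit 2423) (nat_lit 157) (.e (nat_lit 951) (nat_lit 78) .nil))))))) (.g (nat_lit 4) .nil .nil))))) (.nd (nat_lit 5) (.nd (nat_lit 6) 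
(.lf (nat_lit 446355) (.g (nat_lit 1128) (.e (nat_lit 802828) (nat_lit 13) (.e (nat_lit 352307) (nat_lit 21) (.e (nat_lit 57655) (nat_lit 152) (.e (nat_lit 1216) (nat_lit 90) (.e (nat_lit 81931) (nat_lit 20) .nil))))) .nil)) 
(.lf (nat_lit 446419) (.g (nat_lit 1344) (.e (nat_lit 802828) (nat_lit 13) (.e (nat_lit 352322) (nat_lit 26) (.e (nat_lit 147466) (nat_lit 9) (.e (nat_lit 321) (nat_lit 24) (.e (nat_lit 368384) (nat_lit 25) .nil))))) (.g (nat_lit 4) .nil .nil)))) (.nd (nat_lit 6) 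
(.lf (nat_lit 446387) (.g (nat_lit 1556) (.e (nat_lit 802828) (nat_lit 13) (.e (nat_lit 352309) (nat_lit 21) (.e (nat_lit 57666) (nat_lit 152) (.e (nat_lit 1077) (nat_lit 81) .nil)))) .nil)) 
(.lf (nat_lit 446451) (.g (nat_lit 1625) (.e (nat_lit 802828) (nat_lit 13) (.e (nat_lit 352322) (nat_lit 26) (.e (nat_lit 147496) (nat_lit 11) (.e (nat_lit 24639) (nat_lit 10) (.e (nat_lit 352000) (nat_lit 47) .nil))))) .nil))))) (.nd (nat_lit 4) (.nd (nat_lit 5) (.nd (nat_lit 6) 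
(.lf (nat_lit 446347) (.g (nat_lit 1441) (.e (nat_lit 802828) (nat_lit 13) (.e (nat_lit 352303) (nat_lit 20) (.e (nat_lit 2281) (nat_lit 150) (.e (nat_lit 770058) (nat_lit 5) (.e (nat_lit 1595) (nat_lit 111) (.e (nat_lit 368384) (nat_lit 25) .nil)))))) (.g (nat_lit 5) .nil .nil))) 
(.lf (nat_lit 446411) (.g (nat_lit 772) (.e (nat_lit 802828) (nat_lit 13) (.e (nat_lit 352318) (nat_lit 24) (.e (nat_lit 123051) (nat_lit 152) .nil))) .nil))) (.nd (nat_lit 6) 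
(.lf (nat_lit 446379) (.g (nat_lit 1399) (.e (nat_lit 802828) (nat_lit 13) (.e (nat_lit 352309) (nat_lit 21) (.e (nat_lit 57655) (nat_lit 152) (.e (nat_lit 1217) (nat_lit 90) (.e (nat_lit 81933) (nat_lit 20) .nil))))) .nil)) 
(.lf (nat_lit 446443) (.g (nat_lit 1815) (.e (nat_lit 802828) (nat_lit 13) (.e (nat_lit 352322) (nat_lit 26) (.e (nat_lit 147495) (nat_lit 11) (.e (nat_lit 24639) (nat_lit 10) (.e (nat_lit 352000) (nat_lit 47) .nil))))) (.g (nat_lit 4) .nil .nil))))) (.nd (nat_lit 5) (.nd (nat_lit 6) 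
(.lf (nat_lit 446363) (.g (nat_lit 405) (.e (nat_lit 802828) (nat_lit 13) (.e (nat_lit 352307) (nat_lit 21) (.e (nat_lit 57683) (nat_lit 155) .nil))) .nil)) 
(.lf (nat_lit 446427) (.g (nat_lit 595) (.e (nat_lit 802828) (nat_lit 13) (.e (nat_lit 352322) (nat_lit 26) (.e (nat_lit 147478) (nat_lit 9) .nil))) .nil))) (.nd (nat_lit 6) 
(.lf (nat_lit 446395) (.g (nat_lit 1934) (.e (nat_lit 802828) (nat_lit 13) (.e (nat_lit 352309) (nat_lit 21) (.e (nat_lit 57666) (nat_lit 152) (.e (nat_lit 1079) (nat_lit 81) (.e (nat_lit 1597) (nat_lit 111) (.e (nat_lit 368384) (nat_lit 25) .nil)))))) (.g (nat_lit 4) .nil .nil))) 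
(.lf (nat_lit 446459) (.g (nat_lit 911) (.e (nat_lit 802828) (nat_lit 13) (.e (nat_lit 352324) (nat_lit 26) (.e (nat_lit 147467) (nat_lit 9) (.e (nat_lit 309) (nat_lit 23) .nil)))) .nil)))))) (.nd (nat_lit 3) (.nd (nat_lit 4) (.nd (nat_lit 5) (.nd (nat_lit 6) 
(.lf (nat_lit 446343) (.g (nat_lit 1114) (.e (nat_lit 802828) (nat_lit 13) (.e (nat_lit 352303) (nat_lit 20) (.e (nat_lit 2281) (nat_lit 150) (.e (nat_lit 770057) (nat_lit 5) (.e (nat_lit 1598) (nat_lit 111) (.e (nat_lit 368384) (nat_lit 25) .nil)))))) (.g (nat_lit 5) .nil .nil))) 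
(.lf (nat_lit 446407) (.g (nat_lit 1530) (.e (nat_lit 802828) (nat_lit 13) (.e (nat_lit 352309) (nat_lit 21) (.e (nat_lit 57684) (nat_lit 155) (.e (nat_lit 122917) (nat_lit 15) (.e (nat_lit 368384) (nat_lit 25) .nil))))) (.g (nat_lit 4) .nil .nil)))) (.nd (nat_lit 6) 
(.lf (nat_lit 446375) (.g (nat_lit 1020) (.e (nat_lit 802828) (nat_lit 13) (.e (nat_lit 352309) (nat_lit 21) (.e (nat_lit 57654) (nat_lit 152) (.e (nat_lit 7936) (nat_lit 90) .nil)))) .nil)) 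
(.lf (nat_lit 446439) (.g (nat_lit 1986) (.e (nat_lit 802828) (nat_lit 13) (.e (nat_lit 352322) (nat_lit 26) (.e (nat_lit 147495) (nat_lit 11) (.e (nat_lit 24631) (nat_lit 9) (.e (nat_lit 335907) (nat_lit 0) .nil))))) .nil)))) (.nd (nat_lit 5) (.nd (nat_lit 6) 
(.lf (nat_lit 446359) (.g (nat_lit 2182) (.e (nat_lit 802828) (nat_lit 13) (.e (nat_lit 352307) (nat_lit 21) (.e (nat_lit 57681) (nat_lit 155) (.e (nat_lit 122917) (nat_lit 15) (.e (nat_lit 368384) (nat_lit 25) .nil))))) .nil)) 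
(.lf (nat_lit 446423) (.g (nat_lit 1716) (.e (nat_lit 802828) (nat_lit 13) (.e (nat_lit 352322) (nat_lit 26) (.e (nat_lit 147467) (nat_lit 9) (.e (nat_lit 314) (nat_lit 23) (.e (nat_lit 352297) (nat_lit 20) (.e (nat_lit 7936) (nat_lit 154) .nil)))))) (.g (nat_lit 5) .nil .nil)))) (.nd (nat_lit 6) 
(.lf (nat_lit 446391) (.g (nat_lit 2678) (.e (nat_lit 802828) (nat_lit 13) (.e (nat_lit 352309) (nat_lit 21) (.e (nat_lit 57666) (nat_lit 152) (.e (nat_lit 1077) (nat_lit 81) (.e (nat_lit 1597) (nat_lit 111) (.e (nat_lit 368384) (nat_lit 25) .nil)))))) (.g (nat_lit 5) .nil .nil))) 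
(.lf (nat_lit 446455) (.g (nat_lit 998) (.e (nat_lit 802828) (nat_lit 13) (.e (nat_lit 352324) (nat_lit 26) (.e (nat_lit 147463) (nat_lit 9) (.e (nat_lit 313) (nat_lit 23) .nil)))) .nil))))) (.nd (nat_lit 4) (.nd (nat_lit 5) (.nd (nat_lit 6) 
(.lf (nat_lit 446351) (.g (nat_lit 1602) (.e (nat_lit 802828) (nat_lit 13) (.e (nat_lit 352303) (nat_lit 20) (.e (nat_lit 2281) (nat_lit 150) (.e (nat_lit 770074) (nat_lit 10) (.e (nat_lit 81935) (nat_lit 20) (.e (nat_lit 2375) (nat_lit 154) .nil)))))) (.g (nat_lit 0) .nil .nil))) 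
(.lf (nat_lit 446415) (.g (nat_lit 612) (.e (nat_lit 802828) (nat_lit 13) (.e (nat_lit 352318) (nat_lit 24) (.e (nat_lit 130816) (nat_lit 154) .nil))) .nil))) (.nd (nat_lit 6) 
(.lf (nat_lit 446383) (.g (nat_lit 1087) (.e (nat_lit 802828) (nat_lit 13) (.e (nat_lit 352309) (nat_lit 21) (.e (nat_lit 57660) (nat_lit 152) (.e (nat_lit 1215) (nat_lit 90) .nil)))) .nil)) 
(.lf (nat_lit 446447) (.g (nat_lit 1260) (.e (nat_lit 802828) (nat_lit 13) (.e (nat_lit 352322) (nat_lit 26) (.e (nat_lit 147496) (nat_lit 11) (.e (nat_lit 24623) (nat_lit 9) .nil)))) .nil)))) (.nd (nat_lit 5) (.nd (nat_lit 6) 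
(.lf (nat_lit 446367) (.g (nat_lit 1347) (.e (nat_lit 802828) (nat_lit 13) (.e (nat_lit 352307) (nat_lit 21) (.e (nat_lit 57683) (nat_lit 155) (.e (nat_lit 122918) (nat_lit 15) (.e (nat_lit 368384) (nat_lit 25) .nil))))) (.g (nat_lit 4) .nil .nil))) 
(.lf (nat_lit 446431) (.g (nat_lit 1613) (.e (nat_lit 802828) (nat_lit 13) (.e (nat_lit 352322) (nat_lit 26) (.e (nat_lit 147492) (nat_lit 11) (.e (nat_lit 24627) (nat_lit 9) (.e (nat_lit 335939) (nat_lit 0) .nil))))) .nil))) (.nd (nat_lit 6) 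
(.lf (nat_lit 446399) (.g (nat_lit 437) (.e (nat_lit 802828) (nat_lit 13) (.e (nat_lit 352309) (nat_lit 21) (.e (nat_lit 57681) (nat_lit 155) .nil))) .nil)) 
(.lf (nat_lit 446463) (.g (nat_lit 1264) (.e (nat_lit 802828) (nat_lit 13) (.e (nat_lit 352324) (nat_lit 26) (.e (nat_lit 147467) (nat_lit 9) (.e (nat_lit 321) (nat_lit 24) (.e (nat_lit 368384) (nat_lit 25) .nil))))) (.g (nat_lit 4) .nil .nil))))))))))

noncomputable def tv5490 : DT := (.nd (nat_lit 0) (.nd (nat_lit 1) (.nd (nat_lit 2) (.nd (nat_lit 3) (.nd (nat_lit 4) (.nd (nat_lit 5) (.nd (nat_lit 6) 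
(.lf (nat_lit 446464) (.g (nat_lit 1141) (.e (nat_lit 802828) (nat_lit 13) (.e (nat_lit 352324) (nat_lit 26) (.e (nat_lit 147467) (nat_lit 9) (.e (nat_lit 324) (nat_lit 24) (.e (nat_lit 368384) (nat_lit 25) .nil))))) (.g (nat_lit 4) .nil .nil))) 
(.lf (nat_lit 446528) (.g (nat_lit 1123) (.e (nat_lit 810752) (nat_lit 13) (.e (nat_lit 352277) (nat_lit 11) (.e (nat_lit 426010) (nat_lit 0) (.e (nat_lit 7591) (nat_lit 407) (.e (nat_lit 81664) (nat_lit 29) .nil))))) .nil))) (.nd (nat_lit 6) 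
(.lf (nat_lit 446496) (.g (nat_lit 1785) (.e (nat_lit 802828) (nat_lit 13) (.e (nat_lit 352324) (nat_lit 26) (.e (nat_lit 147496) (nat_lit 11) (.e (nat_lit 24641) (nat_lit 10) (.e (nat_lit 352000) (nat_lit 47) .nil))))) .nil)) 
(.lf (nat_lit 446560) (.g (nat_lit 1317) (.e (nat_lit 810752) (nat_lit 14) (.e (nat_lit 360450) (nat_lit 0) (.e (nat_lit 7122) (nat_lit 382) (.e (nat_lit 1222) (nat_lit 90) .nil)))) .nil)))) (.nd (nat_lit 5) (.nd (nat_lit 6) 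
(.lf (nat_lit 446480) (.g (nat_lit 1558) (.e (nat_lit 802828) (nat_lit 13) (.e (nat_lit 352324) (nat_lit 26) (.e (nat_lit 147495) (nat_lit 11) (.e (nat_lit 24580) (nat_lit 0) (.e (nat_lit 6203) (nat_lit 332) .nil))))) .nil)) 
(.lf (nat_lit 446544) (.g (nat_lit 1138) (.e (nat_lit 810752) (nat_lit 14) (.e (nat_lit 360449) (nat_lit 0) (.e (nat_lit 7122) (nat_lit 382) (.e (nat_lit 7936) (nat_lit 90) .nil)))) .nil))) (.nd (nat_lit 6) 
(.lf (nat_lit 446512) (.g (nat_lit 743) (.e (nat_lit 810752) (nat_lit 13) (.e (nat_lit 352272) (nat_lit 10) (.e (nat_lit 417795) (nat_lit 0) (.e (nat_lit 5409) (nat_lit 303) (.e (nat_lit 81664) (nat_lit 29) .nil))))) .nil)) 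
(.lf (nat_lit 446576) (.g (nat_lit 1916) (.e (nat_lit 810752) (nat_lit 14) (.e (nat_lit 360451) (nat_lit 0) (.e (nat_lit 7265) (nat_lit 384) (.e (nat_lit 57424) (nat_lit 14) (.e (nat_lit 352285) (nat_lit 20) .nil))))) .nil))))) (.nd (nat_lit 4) (.nd (nat_lit 5) (.nd (nat_lit 6) 
(.lf (nat_lit 446472) (.g (nat_lit 506) (.e (nat_lit 802828) (nat_lit 13) (.e (nat_lit 352324) (nat_lit 26) (.e (nat_lit 147479) (nat_lit 9) .nil))) .nil)) 
(.lf (nat_lit 446536) (.g (nat_lit 1707) (.e (nat_lit 810752) (nat_lit 13) (.e (nat_lit 352277) (nat_lit 11) (.e (nat_lit 426343) (nat_lit 14) (.e (nat_lit 491558) (nat_lit 10) (.e (nat_lit 352000) (nat_lit 47) .nil))))) .nil))) (.nd (nat_lit 6) 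
(.lf (nat_lit 446504) (.g (nat_lit 153) (.e (nat_lit 810752) (nat_lit 13) (.e (nat_lit 352258) (nat_lit 0) (.e (nat_lit 7089) (nat_lit 379) (.e (nat_lit 123214) (nat_lit 275) (.e (nat_lit 81664) (nat_lit 29) .nil))))) .nil)) 
(.lf (nat_lit 446568) (.g (nat_lit 1233) (.e (nat_lit 810752) (nat_lit 14) (.e (nat_lit 360451) (nat_lit 0) (.e (nat_lit 7124) (nat_lit 382) (.e (nat_lit 7936) (nat_lit 90) .nil)))) .nil)))) (.nd (nat_lit 5) (.nd (nat_lit 6) 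
(.lf (nat_lit 446488) (.g (nat_lit 1095) (.e (nat_lit 802828) (nat_lit 13) (.e (nat_lit 352324) (nat_lit 26) (.e (nat_lit 147496) (nat_lit 11) (.e (nat_lit 24623) (nat_lit 9) .nil)))) .nil)) 
(.lf (nat_lit 446552) (.g (nat_lit 2202) (.e (nat_lit 810752) (nat_lit 14) (.e (nat_lit 360449) (nat_lit 0) (.e (nat_lit 7265) (nat_lit 384) (.e (nat_lit 57424) (nat_lit 14) (.e (nat_lit 352281) (nat_lit 20) .nil))))) .nil))) (.nd (nat_lit 6) 
(.lf (nat_lit 446520) (.g (nat_lit 350) (.e (nat_lit 810752) (nat_lit 13) (.e (nat_lit 352276) (nat_lit 11) (.e (nat_lit 425984) (nat_lit 0) (.e (nat_lit 7590) (nat_lit 407) (.e (nat_lit 81664) (nat_lit 29) .nil))))) .nil)) 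
(.lf (nat_lit 446584) (.g (nat_lit 408) (.e (nat_lit 810752) (nat_lit 14) (.e (nat_lit 360452) (nat_lit 0) (.e (nat_lit 7167) (nat_lit 382) .nil))) .nil)))))) (.nd (nat_lit 3) (.nd (nat_lit 4) (.nd (nat_lit 5) (.nd (nat_lit 6) 
(.lf (nat_lit 446468) (.g (nat_lit 564) (.e (nat_lit 802828) (nat_lit 13) (.e (nat_lit 352324) (nat_lit 26) (.e (nat_lit 147472) (nat_lit 9) (.e (nat_lit 7936) (nat_lit 23) .nil)))) .nil)) 
(.lf (nat_lit 446532) (.g (nat_lit 1471) (.e (nat_lit 810752) (nat_lit 13) (.e (nat_lit 352277) (nat_lit 11) (.e (nat_lit 426012) (nat_lit 0) (.e (nat_lit 7591) (nat_lit 407) (.e (nat_lit 81664) (nat_lit 29) .nil))))) .nil))) (.nd (nat_lit 6) 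
(.lf (nat_lit 446500) (.g (nat_lit 115) (.e (nat_lit 810752) (nat_lit 13) (.e (nat_lit 352257) (nat_lit 0) (.e (nat_lit 7082) (nat_lit 378) (.e (nat_lit 57898) (nat_lit 275) (.e (nat_lit 81664) (nat_lit 29) .nil))))) .nil)) 
(.lf (nat_lit 446564) (.g (nat_lit 634) (.e (nat_lit 810752) (nat_lit 14) (.e (nat_lit 360451) (nat_lit 0) (.e (nat_lit 7119) (nat_lit 382) (.e (nat_lit 7936) (nat_lit 90) .nil)))) .nil)))) (.nd (nat_lit 5) (.nd (nat_lit 6) 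
(.lf (nat_lit 446484) (.g (nat_lit 910) (.e (nat_lit 802828) (nat_lit 13) (.e (nat_lit 352324) (nat_lit 26) (.e (nat_lit 147495) (nat_lit 11) (.e (nat_lit 24638) (nat_lit 9) .nil)))) .nil)) 
(.lf (nat_lit 446548) (.g (nat_lit 950) (.e (nat_lit 810752) (nat_lit 14) (.e (nat_lit 360449) (nat_lit 0) (.e (nat_lit 7125) (nat_lit 382) (.e (nat_lit 7936) (nat_lit 90) .nil)))) .nil))) (.nd (nat_lit 6) 
(.lf (nat_lit 446516) (.g (nat_lit 1060) (.e (nat_lit 810752) (nat_lit 13) (.e (nat_lit 352272) (nat_lit 10) (.e (nat_lit 417796) (nat_lit 0) (.e (nat_lit 5409) (nat_lit 303) (.e (nat_lit 81664) (nat_lit 29) .nil))))) .nil)) 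
(.lf (nat_lit 446580) (.g (nat_lit 619) (.e (nat_lit 810752) (nat_lit 14) (.e (nat_lit 360452) (nat_lit 0) (.e (nat_lit 7144) (nat_lit 382) (.e (nat_lit 7936) (nat_lit 90) .nil)))) .nil))))) (.nd (nat_lit 4) (.nd (nat_lit 5) (.nd (nat_lit 6) 
(.lf (nat_lit 446476) (.g (nat_lit 546) (.e (nat_lit 802828) (nat_lit 13) (.e (nat_lit 352324) (nat_lit 26) (.e (nat_lit 147492) (nat_lit 11) .nil))) .nil)) 
(.lf (nat_lit 446540) (.g (nat_lit 77) (.e (nat_lit 810752) (nat_lit 13) (.e (nat_lit 352285) (nat_lit 20) (.e (nat_lit 2362) (nat_lit 153) .nil))) .nil))) (.nd (nat_lit 6) 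
(.lf (nat_lit 446508) (.g (nat_lit 141) (.e (nat_lit 810752) (nat_lit 13) (.e (nat_lit 352271) (nat_lit 9) (.e (nat_lit 409605) (nat_lit 0) (.e (nat_lit 5411) (nat_lit 303) (.e (nat_lit 81664) (nat_lit 29) .nil))))) .nil)) 
(.lf (nat_lit 446572) (.g (nat_lit 430) (.e (nat_lit 810752) (nat_lit 14) (.e (nat_lit 360451) (nat_lit 0) (.e (nat_lit 7261) (nat_lit 384) .nil))) .nil)))) (.nd (nat_lit 5) (.nd (nat_lit 6) 
(.lf (nat_lit 446492) (.g (nat_lit 1074) (.e (nat_lit 802828) (nat_lit 13) (.e (nat_lit 352324) (nat_lit 26) (.e (nat_lit 147496) (nat_lit 11) (.e (nat_lit 24634) (nat_lit 9) (.e (nat_lit 335905) (nat_lit 0) .nil))))) .nil)) 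
(.lf (nat_lit 446556) (.g (nat_lit 225) (.e (nat_lit 810752) (nat_lit 14) (.e (nat_lit 360449) (nat_lit 0) (.e (nat_lit 7266) (nat_lit 384) .nil))) .nil))) (.nd (nat_lit 6) 
(.lf (nat_lit 446524) (.g (nat_lit 115) (.e (nat_lit 810752) (nat_lit 13) (.e (nat_lit 352276) (nat_lit 11) (.e (nat_lit 425990) (nat_lit 0) (.e (nat_lit 7592) (nat_lit 407) (.e (nat_lit 81664) (nat_lit 29) .nil))))) .nil)) 
(.lf (nat_lit 446588) (.g (nat_lit 1413) (.e (nat_lit 810752) (nat_lit 14) (.e (nat_lit 360452) (nat_lit 0) (.e (nat_lit 7270) (nat_lit 385) (.e (nat_lit 122918) (nat_lit 15) .nil)))) .nil))))))) (.nd (nat_lit 2) (.nd (nat_lit 3) (.nd (nat_lit 4) (.nd (nat_lit 5) (.nd (nat_lit 6) 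
(.lf (nat_lit 446466) (.g (nat_lit 481) (.e (nat_lit 802828) (nat_lit 13) (.e (nat_lit 352324) (nat_lit 26) (.e (nat_lit 147469) (nat_lit 9) .nil))) .nil)) 
(.lf (nat_lit 446530) (.g (nat_lit 1963) (.e (nat_lit 810752) (nat_lit 13) (.e (nat_lit 352277) (nat_lit 11) (.e (nat_lit 426011) (nat_lit 0) (.e (nat_lit 7591) (nat_lit 407) (.e (nat_lit 81664) (nat_lit 29) .nil))))) .nil))) (.nd (nat_lit 6) 
(.lf (nat_lit 446498) (.g (nat_lit 150) (.e (nat_lit 810752) (nat_lit 13) (.e (nat_lit 352257) (nat_lit 0) (.e (nat_lit 7079) (nat_lit 378) (.e (nat_lit 57898) (nat_lit 275) (.e (nat_lit 81664) (nat_lit 29) .nil))))) .nil)) 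
(.lf (nat_lit 446562) (.g (nat_lit 540) (.e (nat_lit 810752) (nat_lit 14) (.e (nat_lit 360450) (nat_lit 0) (.e (nat_lit 7124) (nat_lit 382) .nil))) .nil)))) (.nd (nat_lit 5) (.nd (nat_lit 6) 
(.lf (nat_lit 446482) (.g (nat_lit 1658) (.e (nat_lit 802828) (nat_lit 13) (.e (nat_lit 352324) (nat_lit 26) (.e (nat_lit 147495) (nat_lit 11) (.e (nat_lit 24631) (nat_lit 9) (.e (nat_lit 335907) (nat_lit 0) .nil))))) .nil)) 
(.lf (nat_lit 446546) (.g (nat_lit 1665) (.e (nat_lit 810752) (nat_lit 14) (.e (nat_lit 360449) (nat_lit 0) (.e (nat_lit 7125) (nat_lit 382) (.e (nat_lit 1222) (nat_lit 90) (.e (nat_lit 81935) (nat_lit 20) .nil))))) .nil))) (.nd (nat_lit 6) 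
(.lf (nat_lit 446514) (.g (nat_lit 938) (.e (nat_lit 810752) (nat_lit 13) (.e (nat_lit 352272) (nat_lit 10) (.e (nat_lit 417795) (nat_lit 0) (.e (nat_lit 5412) (nat_lit 303) (.e (nat_lit 81664) (nat_lit 29) .nil))))) .nil)) 
(.lf (nat_lit 446578) (.g (nat_lit 1370) (.e (nat_lit 810752) (nat_lit 14) (.e (nat_lit 360451) (nat_lit 0) (.e (nat_lit 7265) (nat_lit 384) (.e (nat_lit 57427) (nat_lit 15) (.e (nat_lit 368384) (nat_lit 25) .nil))))) .nil))))) (.nd (nat_lit 4) (.nd (nat_lit 5) (.nd (nat_lit 6) 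
(.lf (nat_lit 446474) (.g (nat_lit 726) (.e (nat_lit 802828) (nat_lit 13) (.e (nat_lit 352324) (nat_lit 26) (.e (nat_lit 147487) (nat_lit 10) .nil))) .nil)) 
(.lf (nat_lit 446538) (.g (nat_lit 1523) (.e (nat_lit 810752) (nat_lit 13) (.e (nat_lit 352277) (nat_lit 11) (.e (nat_lit 426344) (nat_lit 14) (.e (nat_lit 491558) (nat_lit 10) (.e (nat_lit 352000) (nat_lit 47) .nil))))) .nil))) (.nd (nat_lit 6) 
(.lf (nat_lit 446506) (.g (nat_lit 198) (.e (nat_lit 810752) (nat_lit 13) (.e (nat_lit 352271) (nat_lit 9) (.e (nat_lit 409603) (nat_lit 0) (.e (nat_lit 5411) (nat_lit 303) (.e (nat_lit 81664) (nat_lit 29) .nil))))) .nil)) 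
(.lf (nat_lit 446570) (.g (nat_lit 1240) (.e (nat_lit 810752) (nat_lit 14) (.e (nat_lit 360451) (nat_lit 0) (.e (nat_lit 7125) (nat_lit 382) (.e (nat_lit 7936) (nat_lit 90) .nil)))) .nil)))) (.nd (nat_lit 5) (.nd (nat_lit 6) 
(.lf (nat_lit 446490) (.g (nat_lit 1079) (.e (nat_lit 802828) (nat_lit 13) (.e (nat_lit 352324) (nat_lit 26) (.e (nat_lit 147496) (nat_lit 11) (.e (nat_lit 24631) (nat_lit 9) .nil)))) .nil)) 
(.lf (nat_lit 446554) (.g (nat_lit 1691) (.e (nat_lit 810752) (nat_lit 14) (.e (nat_lit 360449) (nat_lit 0) (.e (nat_lit 7265) (nat_lit 384) (.e (nat_lit 57426) (nat_lit 15) (.e (nat_lit 368384) (nat_lit 25) .nil))))) .nil))) (.nd (nat_lit 6) 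
(.lf (nat_lit 446522) (.g (nat_lit 174) (.e (nat_lit 810752) (nat_lit 13) (.e (nat_lit 352276) (nat_lit 11) (.e (nat_lit 425987) (nat_lit 0) (.e (nat_lit 7592) (nat_lit 407) (.e (nat_lit 81664) (nat_lit 29) .nil))))) .nil)) 
(.lf (nat_lit 446586) (.g (nat_lit 2128) (.e (nat_lit 810752) (nat_lit 14) (.e (nat_lit 360452) (nat_lit 0) (.e (nat_lit 7270) (nat_lit 385) (.e (nat_lit 122916) (nat_lit 14) (.e (nat_lit 352286) (nat_lit 20) .nil))))) .nil)))))) (.nd (nat_lit 3) (.nd (nat_lit 4) (.nd (nat_lit 5) (.nd (nat_lit 6) 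
(.lf (nat_lit 446470) (.g (nat_lit 711) (.e (nat_lit 802828) (nat_lit 13) (.e (nat_lit 352324) (nat_lit 26) (.e (nat_lit 147476) (nat_lit 9) (.e (nat_lit 7936) (nat_lit 23) .nil)))) .nil)) 
(.lf (nat_lit 446534) (.g (nat_lit 1206) (.e (nat_lit 810752) (nat_lit 13) (.e (nat_lit 352277) (nat_lit 11) (.e (nat_lit 426342) (nat_lit 14) (.e (nat_lit 491558) (nat_lit 10) (.e (nat_lit 352000) (nat_lit 47) .nil))))) .nil))) (.nd (nat_lit 6) 
(.lf (nat_lit 446502) (.g (nat_lit 135) (.e (nat_lit 810752) (nat_lit 13) (.e (nat_lit 352258) (nat_lit 0) (.e (nat_lit 7087) (nat_lit 379) (.e (nat_lit 123214) (nat_lit 275) (.e (nat_lit 81664) (nat_lit 29) .nil))))) .nil)) 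
(.lf (nat_lit 446566) (.g (nat_lit 1364) (.e (nat_lit 810752) (nat_lit 14) (.e (nat_lit 360451) (nat_lit 0) (.e (nat_lit 7122) (nat_lit 382) (.e (nat_lit 7936) (nat_lit 90) .nil)))) .nil)))) (.nd (nat_lit 5) (.nd (nat_lit 6) 
(.lf (nat_lit 446486) (.g (nat_lit 1841) (.e (nat_lit 802828) (nat_lit 13) (.e (nat_lit 352324) (nat_lit 26) (.e (nat_lit 147495) (nat_lit 11) (.e (nat_lit 24640) (nat_lit 10) (.e (nat_lit 352000) (nat_lit 47) .nil))))) .nil)) 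
(.lf (nat_lit 446550) (.g (nat_lit 356) (.e (nat_lit 810752) (nat_lit 14) (.e (nat_lit 360449) (nat_lit 0) (.e (nat_lit 7263) (nat_lit 384) .nil))) .nil))) (.nd (nat_lit 6) 
(.lf (nat_lit 446518) (.g (nat_lit 879) (.e (nat_lit 810752) (nat_lit 13) (.e (nat_lit 352272) (nat_lit 10) (.e (nat_lit 417796) (nat_lit 0) (.e (nat_lit 5412) (nat_lit 303) (.e (nat_lit 81664) (nat_lit 29) .nil))))) .nil)) 
(.lf (nat_lit 446582) (.g (nat_lit 288) (.e (nat_lit 810752) (nat_lit 14) (.e (nat_lit 360452) (nat_lit 0) (.e (nat_lit 7147) (nat_lit 382) .nil))) .nil))))) (.nd (nat_lit 4) (.nd (nat_lit 5) (.nd (nat_lit 6) 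
(.lf (nat_lit 446478) (.g (nat_lit 965) (.e (nat_lit 802828) (nat_lit 13) (.e (nat_lit 352324) (nat_lit 26) (.e (nat_lit 147493) (nat_lit 11) (.e (nat_lit 24646) (nat_lit 11) (.e (nat_lit 376576) (nat_lit 47) .nil))))) .nil)) 
(.lf (nat_lit 446542) (.g (nat_lit 131) (.e (nat_lit 810752) (nat_lit 14) (.e (nat_lit 360448) (nat_lit 0) (.e (nat_lit 7168) (nat_lit 382) .nil))) .nil))) (.nd (nat_lit 6) 
(.lf (nat_lit 446510) (.g (nat_lit 564) (.e (nat_lit 810752) (nat_lit 13) (.e (nat_lit 352272) (nat_lit 10) (.e (nat_lit 417793) (nat_lit 0) (.e (nat_lit 5412) (nat_lit 303) (.e (nat_lit 81664) (nat_lit 29) .nil))))) .nil)) 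
(.lf (nat_lit 446574) (.g (nat_lit 2336) (.e (nat_lit 810752) (nat_lit 14) (.e (nat_lit 360451) (nat_lit 0) (.e (nat_lit 7265) (nat_lit 384) (.e (nat_lit 57424) (nat_lit 14) (.e (nat_lit 352281) (nat_lit 20) .nil))))) .nil)))) (.nd (nat_lit 5) (.nd (nat_lit 6) 
(.lf (nat_lit 446494) (.g (nat_lit 1487) (.e (nat_lit 802828) (nat_lit 13) (.e (nat_lit 352324) (nat_lit 26) (.e (nat_lit 147496) (nat_lit 11) (.e (nat_lit 24639) (nat_lit 10) (.e (nat_lit 352000) (nat_lit 47) .nil))))) .nil)) 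
(.lf (nat_lit 446558) (.g (nat_lit 1391) (.e (nat_lit 810752) (nat_lit 14) (.e (nat_lit 360449) (nat_lit 0) (.e (nat_lit 7266) (nat_lit 384) (.e (nat_lit 57427) (nat_lit 15) (.e (nat_lit 368384) (nat_lit 25) .nil))))) .nil))) (.nd (nat_lit 6) 
(.lf (nat_lit 446526) (.g (nat_lit 945) (.e (nat_lit 810752) (nat_lit 13) (.e (nat_lit 352277) (nat_lit 11) (.e (nat_lit 426009) (nat_lit 0) (.e (nat_lit 7591) (nat_lit 407) (.e (nat_lit 81664) (nat_lit 29) .nil))))) .nil)) 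
(.lf (nat_lit 446590) (.g (nat_lit 1797) (.e (nat_lit 810752) (nat_lit 14) (.e (nat_lit 360452) (nat_lit 0) (.e (nat_lit 7271) (nat_lit 385) (.e (nat_lit 122916) (nat_lit 14) (.e (nat_lit 352285) (nat_lit 20) .nil))))) .nil)))))))) (.nd (nat_lit 1) (.nd (nat_lit 2) (.nd (nat_lit 3) (.nd (nat_lit 4) (.nd (nat_lit 5) (.nd (nat_lit 6) 
(.lf (nat_lit 446465) (.g (nat_lit 531) (.e (nat_lit 802828) (nat_lit 13) (.e (nat_lit 352324) (nat_lit 26) (.e (nat_lit 147468) (nat_lit 9) .nil))) .nil)) 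
(.lf (nat_lit 446529) (.g (nat_lit 1189) (.e (nat_lit 810752) (nat_lit 13) (.e (nat_lit 352277) (nat_lit 11) (.e (nat_lit 426010) (nat_lit 0) (.e (nat_lit 7593) (nat_lit 407) (.e (nat_lit 81664) (nat_lit 29) .nil))))) .nil))) (.nd (nat_lit 6) 
(.lf (nat_lit 446497) (.g (nat_lit 165) (.e (nat_lit 810752) (nat_lit 13) (.e (nat_lit 352257) (nat_lit 0) (.e (nat_lit 7077) (nat_lit 378) (.e (nat_lit 57898) (nat_lit 275) (.e (nat_lit 81664) (nat_lit 29) .nil))))) .nil)) 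
(.lf (nat_lit 446561) (.g (nat_lit 1369) (.e (nat_lit 810752) (nat_lit 14) (.e (nat_lit 360450) (nat_lit 0) (.e (nat_lit 7122) (nat_lit 382) (.e (nat_lit 7936) (nat_lit 90) .nil)))) .nil)))) (.nd (nat_lit 5) (.nd (nat_lit 6) 
(.lf (nat_lit 446481) (.g (nat_lit 1453) (.e (nat_lit 802828) (nat_lit 13) (.e (nat_lit 352324) (nat_lit 26) (.e (nat_lit 147495) (nat_lit 11) (.e (nat_lit 24622) (nat_lit 8) (.e (nat_lit 327680) (nat_lit 0) (.e (nat_lit 951) (nat_lit 78) .nil)))))) (.g (nat_lit 5) .nil .nil))) 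
(.lf (nat_lit 446545) (.g (nat_lit 795) (.e (nat_lit 810752) (nat_lit 14) (.e (nat_lit 360449) (nat_lit 0) (.e (nat_lit 7124) (nat_lit 382) (.e (nat_lit 7936) (nat_lit 90) .nil)))) .nil))) (.nd (nat_lit 6) 
(.lf (nat_lit 446513) (.g (nat_lit 581) (.e (nat_lit 810752) (nat_lit 13) (.e (nat_lit 352272) (nat_lit 10) (.e (nat_lit 417795) (nat_lit 0) (.e (nat_lit 5410) (nat_lit 303) (.e (nat_lit 81664) (nat_lit 29) .nil))))) .nil)) 
(.lf (nat_lit 446577) (.g (nat_lit 1625) (.e (nat_lit 810752) (nat_lit 14) (.e (nat_lit 360451) (nat_lit 0) (.e (nat_lit 7265) (nat_lit 384) (.e (nat_lit 57426) (nat_lit 15) (.e (nat_lit 368384) (nat_lit 25) .nil))))) .nil))))) (.nd (nat_lit 4) (.nd (nat_lit 5) (.nd (nat_lit 6) 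
(.lf (nat_lit 446473) (.g (nat_lit 489) (.e (nat_lit 802828) (nat_lit 13) (.e (nat_lit 352324) (nat_lit 26) (.e (nat_lit 147483) (nat_lit 9) .nil))) .nil)) 
(.lf (nat_lit 446537) (.g (nat_lit 1846) (.e (nat_lit 810752) (nat_lit 13) (.e (nat_lit 352277) (nat_lit 11) (.e (nat_lit 426343) (nat_lit 14) (.e (nat_lit 491560) (nat_lit 10) (.e (nat_lit 352000) (nat_lit 47) .nil))))) .nil))) (.nd (nat_lit 6) 
(.lf (nat_lit 446505) (.g (nat_lit 552) (.e (nat_lit 810752) (nat_lit 13) (.e (nat_lit 352271) (nat_lit 9) (.e (nat_lit 409602) (nat_lit 0) (.e (nat_lit 5411) (nat_lit 303) (.e (nat_lit 81664) (nat_lit 29) .nil))))) .nil)) 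
(.lf (nat_lit 446569) (.g (nat_lit 988) (.e (nat_lit 810752) (nat_lit 14) (.e (nat_lit 360451) (nat_lit 0) (.e (nat_lit 7125) (nat_lit 382) (.e (nat_lit 1224) (nat_lit 90) .nil)))) .nil)))) (.nd (nat_lit 5) (.nd (nat_lit 6) 
(.lf (nat_lit 446489) (.g (nat_lit 1846) (.e (nat_lit 802828) (nat_lit 13) (.e (nat_lit 352324) (nat_lit 26) (.e (nat_lit 147496) (nat_lit 11) (.e (nat_lit 24623) (nat_lit 9) (.e (nat_lit 335891) (nat_lit 0) .nil))))) .nil)) 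
(.lf (nat_lit 446553) (.g (nat_lit 1803) (.e (nat_lit 810752) (nat_lit 14) (.e (nat_lit 360449) (nat_lit 0) (.e (nat_lit 7265) (nat_lit 384) (.e (nat_lit 57424) (nat_lit 14) (.e (nat_lit 352285) (nat_lit 20) .nil))))) .nil))) (.nd (nat_lit 6) 
(.lf (nat_lit 446521) (.g (nat_lit 209) (.e (nat_lit 810752) (nat_lit 13) (.e (nat_lit 352276) (nat_lit 11) (.e (nat_lit 425984) (nat_lit 0) (.e (nat_lit 7592) (nat_lit 407) (.e (nat_lit 81664) (nat_lit 29) .nil))))) .nil)) 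
(.lf (nat_lit 446585) (.g (nat_lit 2092) (.e (nat_lit 810752) (nat_lit 14) (.e (nat_lit 360452) (nat_lit 0) (.e (nat_lit 7270) (nat_lit 385) (.e (nat_lit 122916) (nat_lit 14) (.e (nat_lit 352285) (nat_lit 20) .nil))))) .nil)))))) (.nd (nat_lit 3) (.nd (nat_lit 4) (.nd (nat_lit 5) (.nd (nat_lit 6) 
(.lf (nat_lit 446469) (.g (nat_lit 726) (.e (nat_lit 802828) (nat_lit 13) (.e (nat_lit 352324) (nat_lit 26) (.e (nat_lit 147475) (nat_lit 9) .nil))) .nil)) 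
(.lf (nat_lit 446533) (.g (nat_lit 1592) (.e (nat_lit 810752) (nat_lit 13) (.e (nat_lit 352277) (nat_lit 11) (.e (nat_lit 426012) (nat_lit 0) (.e (nat_lit 7593) (nat_lit 407) (.e (nat_lit 81664) (nat_lit 29) .nil))))) .nil))) (.nd (nat_lit 6) 
(.lf (nat_lit 446501) (.g (nat_lit 92) (.e (nat_lit 810752) (nat_lit 13) (.e (nat_lit 352258) (nat_lit 0) (.e (nat_lit 7086) (nat_lit 379) (.e (nat_lit 123214) (nat_lit 275) (.e (nat_lit 81664) (nat_lit 29) .nil))))) .nil)) 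
(.lf (nat_lit 446565) (.g (nat_lit 1514) (.e (nat_lit 810752) (nat_lit 14) (.e (nat_lit 360451) (nat_lit 0) (.e (nat_lit 7122) (nat_lit 382) (.e (nat_lit 1222) (nat_lit 90) (.e (nat_lit 81935) (nat_lit 20) .nil))))) .nil)))) (.nd (nat_lit 5) (.nd (nat_lit 6) 
(.lf (nat_lit 446485) (.g (nat_lit 1541) (.e (nat_lit 802828) (nat_lit 13) (.e (nat_lit 352324) (nat_lit 26) (.e (nat_lit 147495) (nat_lit 11) (.e (nat_lit 24639) (nat_lit 10) (.e (nat_lit 352000) (nat_lit 47) .nil))))) .nil)) 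
(.lf (nat_lit 446549) (.g (nat_lit 998) (.e (nat_lit 810752) (nat_lit 14) (.e (nat_lit 360449) (nat_lit 0) (.e (nat_lit 7261) (nat_lit 384) (.e (nat_lit 57426) (nat_lit 15) (.e (nat_lit 368384) (nat_lit 25) .nil))))) .nil))) (.nd (nat_lit 6) 
(.lf (nat_lit 446517) (.g (nat_lit 732) (.e (nat_lit 810752) (nat_lit 13) (.e (nat_lit 352272) (nat_lit 10) (.e (nat_lit 417796) (nat_lit 0) (.e (nat_lit 5410) (nat_lit 303) (.e (nat_lit 81664) (nat_lit 29) .nil))))) .nil)) 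
(.lf (nat_lit 446581) (.g (nat_lit 497) (.e (nat_lit 810752) (nat_lit 14) (.e (nat_lit 360452) (nat_lit 0) (.e (nat_lit 7145) (nat_lit 382) (.e (nat_lit 7936) (nat_lit 90) .nil)))) .nil))))) (.nd (nat_lit 4) (.nd (nat_lit 5) (.nd (nat_lit 6) 
(.lf (nat_lit 446477) (.g (nat_lit 597) (.e (nat_lit 802828) (nat_lit 13) (.e (nat_lit 352324) (nat_lit 26) (.e (nat_lit 147493) (nat_lit 11) .nil))) .nil)) 
(.lf (nat_lit 446541) (.g (nat_lit 84) (.e (nat_lit 810752) (nat_lit 13) (.e (nat_lit 352285) (nat_lit 20) (.e (nat_lit 2375) (nat_lit 154) .nil))) .nil))) (.nd (nat_lit 6) 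
(.lf (nat_lit 446509) (.g (nat_lit 196) (.e (nat_lit 810752) (nat_lit 13) (.e (nat_lit 352272) (nat_lit 10) (.e (nat_lit 417793) (nat_lit 0) .nil))) .nil)) 
(.lf (nat_lit 446573) (.g (nat_lit 867) (.e (nat_lit 810752) (nat_lit 14) (.e (nat_lit 360451) (nat_lit 0) (.e (nat_lit 7261) (nat_lit 384) (.e (nat_lit 57426) (nat_lit 15) .nil)))) .nil)))) (.nd (nat_lit 5) (.nd (nat_lit 6) 
(.lf (nat_lit 446493) (.g (nat_lit 961) (.e (nat_lit 802828) (nat_lit 13) (.e (nat_lit 352324) (nat_lit 26) (.e (nat_lit 147496) (nat_lit 11) (.e (nat_lit 24638) (nat_lit 9) .nil)))) .nil)) 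
(.lf (nat_lit 446557) (.g (nat_lit 1443) (.e (nat_lit 810752) (nat_lit 14) (.e (nat_lit 360449) (nat_lit 0) (.e (nat_lit 7266) (nat_lit 384) (.e (nat_lit 57426) (nat_lit 15) (.e (nat_lit 368384) (nat_lit 25) .nil))))) .nil))) (.nd (nat_lit 6) 
(.lf (nat_lit 446525) (.g (nat_lit 88) (.e (nat_lit 810752) (nat_lit 13) (.e (nat_lit 352276) (nat_lit 11) (.e (nat_lit 425990) (nat_lit 0) (.e (nat_lit 7936) (nat_lit 407) .nil)))) .nil)) 
(.lf (nat_lit 446589) (.g (nat_lit 2189) (.e (nat_lit 810752) (nat_lit 14) (.e (nat_lit 360452) (nat_lit 0) (.e (nat_lit 7270) (nat_lit 385) (.e (nat_lit 122919) (nat_lit 15) (.e (nat_lit 368384) (nat_lit 25) .nil))))) .nil))))))) (.nd (nat_lit 2) (.nd (nat_lit 3) (.nd (nat_lit 4) (.nd (nat_lit 5) (.nd (nat_lit 6) 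
(.lf (nat_lit 446467) (.g (nat_lit 504) (.e (nat_lit 802828) (nat_lit 13) (.e (nat_lit 352324) (nat_lit 26) (.e (nat_lit 147472) (nat_lit 9) .nil))) .nil)) 
(.lf (nat_lit 446531) (.g (nat_lit 2020) (.e (nat_lit 810752) (nat_lit 13) (.e (nat_lit 352277) (nat_lit 11) (.e (nat_lit 426011) (nat_lit 0) (.e (nat_lit 7593) (nat_lit 407) (.e (nat_lit 81664) (nat_lit 29) .nil))))) .nil))) (.nd (nat_lit 6) 
(.lf (nat_lit 446499) (.g (nat_lit 167) (.e (nat_lit 810752) (nat_lit 13) (.e (nat_lit 352257) (nat_lit 0) (.e (nat_lit 7081) (nat_lit 378) (.e (nat_lit 57898) (nat_lit 275) (.e (nat_lit 81664) (nat_lit 29) .nil))))) .nil)) 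
(.lf (nat_lit 446563) (.g (nat_lit 528) (.e (nat_lit 810752) (nat_lit 14) (.e (nat_lit 360450) (nat_lit 0) (.e (nat_lit 7265) (nat_lit 384) .nil))) .nil)))) (.nd (nat_lit 5) (.nd (nat_lit 6) 
(.lf (nat_lit 446483) (.g (nat_lit 1679) (.e (nat_lit 802828) (nat_lit 13) (.e (nat_lit 352324) (nat_lit 26) (.e (nat_lit 147495) (nat_lit 11) (.e (nat_lit 24631) (nat_lit 9) (.e (nat_lit 335908) (nat_lit 0) .nil))))) .nil)) 
(.lf (nat_lit 446547) (.g (nat_lit 803) (.e (nat_lit 810752) (nat_lit 14) (.e (nat_lit 360449) (nat_lit 0) (.e (nat_lit 7125) (nat_lit 382) (.e (nat_lit 1224) (nat_lit 90) .nil)))) .nil))) (.nd (nat_lit 6) 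
(.lf (nat_lit 446515) (.g (nat_lit 528) (.e (nat_lit 810752) (nat_lit 13) (.e (nat_lit 352272) (nat_lit 10) (.e (nat_lit 417795) (nat_lit 0) (.e (nat_lit 5413) (nat_lit 303) (.e (nat_lit 81664) (nat_lit 29) .nil))))) .nil)) 
(.lf (nat_lit 446579) (.g (nat_lit 1439) (.e (nat_lit 810752) (nat_lit 14) (.e (nat_lit 360451) (nat_lit 0) (.e (nat_lit 7266) (nat_lit 384) (.e (nat_lit 57426) (nat_lit 15) (.e (nat_lit 368384) (nat_lit 25) .nil))))) .nil))))) (.nd (nat_lit 4) (.nd (nat_lit 5) (.nd (nat_lit 6) 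
(.lf (nat_lit 446475) (.g (nat_lit 635) (.e (nat_lit 802828) (nat_lit 13) (.e (nat_lit 352324) (nat_lit 26) (.e (nat_lit 147489) (nat_lit 10) .nil))) .nil)) 
(.lf (nat_lit 446539) (.g (nat_lit 1681) (.e (nat_lit 810752) (nat_lit 13) (.e (nat_lit 352277) (nat_lit 11) (.e (nat_lit 426344) (nat_lit 14) (.e (nat_lit 491560) (nat_lit 10) (.e (nat_lit 352000) (nat_lit 47) .nil))))) .nil))) (.nd (nat_lit 6) 
(.lf (nat_lit 446507) (.g (nat_lit 174) (.e (nat_lit 810752) (nat_lit 13) (.e (nat_lit 352271) (nat_lit 9) (.e (nat_lit 409604) (nat_lit 0) (.e (nat_lit 5411) (nat_lit 303) (.e (nat_lit 81664) (nat_lit 29) .nil))))) .nil)) 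
(.lf (nat_lit 446571) (.g (nat_lit 660) (.e (nat_lit 810752) (nat_lit 14) (.e (nat_lit 360451) (nat_lit 0) (.e (nat_lit 7132) (nat_lit 382) (.e (nat_lit 7936) (nat_lit 90) .nil)))) .nil)))) (.nd (nat_lit 5) (.nd (nat_lit 6) 
(.lf (nat_lit 446491) (.g (nat_lit 1198) (.e (nat_lit 802828) (nat_lit 13) (.e (nat_lit 352324) (nat_lit 26) (.e (nat_lit 147496) (nat_lit 11) (.e (nat_lit 24632) (nat_lit 9) .nil)))) .nil)) 
(.lf (nat_lit 446555) (.g (nat_lit 1489) (.e (nat_lit 810752) (nat_lit 14) (.e (nat_lit 360449) (nat_lit 0) (.e (nat_lit 7265) (nat_lit 384) (.e (nat_lit 57427) (nat_lit 15) (.e (nat_lit 368384) (nat_lit 25) .nil))))) .nil))) (.nd (nat_lit 6) 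
(.lf (nat_lit 446523) (.g (nat_lit 169) (.e (nat_lit 810752) (nat_lit 13) (.e (nat_lit 352276) (nat_lit 11) (.e (nat_lit 425989) (nat_lit 0) (.e (nat_lit 7592) (nat_lit 407) (.e (nat_lit 81664) (nat_lit 29) .nil))))) .nil)) 
(.lf (nat_lit 446587) (.g (nat_lit 2221) (.e (nat_lit 810752) (nat_lit 14) (.e (nat_lit 360452) (nat_lit 0) (.e (nat_lit 7270) (nat_lit 385) (.e (nat_lit 122917) (nat_lit 15) (.e (nat_lit 368384) (nat_lit 25) .nil))))) .nil)))))) (.nd (nat_lit 3) (.nd (nat_lit 4) (.nd (nat_lit 5) (.nd (nat_lit 6) 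
(.lf (nat_lit 446471) (.g (nat_lit 710) (.e (nat_lit 802828) (nat_lit 13) (.e (nat_lit 352324) (nat_lit 26) (.e (nat_lit 147477) (nat_lit 9) .nil))) .nil)) 
(.lf (nat_lit 446535) (.g (nat_lit 1554) (.e (nat_lit 810752) (nat_lit 13) (.e (nat_lit 352277) (nat_lit 11) (.e (nat_lit 426342) (nat_lit 14) (.e (nat_lit 491560) (nat_lit 10) (.e (nat_lit 352000) (nat_lit 47) .nil))))) .nil))) (.nd (nat_lit 6) 
(.lf (nat_lit 446503) (.g (nat_lit 140) (.e (nat_lit 810752) (nat_lit 13) (.e (nat_lit 352258) (nat_lit 0) (.e (nat_lit 7088) (nat_lit 379) (.e (nat_lit 123214) (nat_lit 275) (.e (nat_lit 81664) (nat_lit 29) .nil))))) .nil)) 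
(.lf (nat_lit 446567) (.g (nat_lit 468) (.e (nat_lit 810752) (nat_lit 14) (.e (nat_lit 360451) (nat_lit 0) (.e (nat_lit 7124) (nat_lit 382) .nil))) .nil)))) (.nd (nat_lit 5) (.nd (nat_lit 6) 
(.lf (nat_lit 446487) (.g (nat_lit 303) (.e (nat_lit 802828) (nat_lit 13) (.e (nat_lit 352324) (nat_lit 26) (.e (nat_lit 147496) (nat_lit 11) .nil))) .nil)) 
(.lf (nat_lit 446551) (.g (nat_lit 920) (.e (nat_lit 810752) (nat_lit 14) (.e (nat_lit 360449) (nat_lit 0) (.e (nat_lit 7263) (nat_lit 384) (.e (nat_lit 57426) (nat_lit 15) (.e (nat_lit 368384) (nat_lit 25) .nil))))) .nil))) (.nd (nat_lit 6) 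
(.lf (nat_lit 446519) (.g (nat_lit 665) (.e (nat_lit 810752) (nat_lit 13) (.e (nat_lit 352272) (nat_lit 10) (.e (nat_lit 417796) (nat_lit 0) (.e (nat_lit 5413) (nat_lit 303) (.e (nat_lit 81664) (nat_lit 29) .nil))))) .nil)) 
(.lf (nat_lit 446583) (.g (nat_lit 884) (.e (nat_lit 810752) (nat_lit 14) (.e (nat_lit 360452) (nat_lit 0) (.e (nat_lit 7147) (nat_lit 382) (.e (nat_lit 1217) (nat_lit 90) (.e (nat_lit 81933) (nat_lit 20) .nil))))) .nil))))) (.nd (nat_lit 4) (.nd (nat_lit 5) (.nd (nat_lit 6) 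
(.lf (nat_lit 446479) (.g (nat_lit 549) (.e (nat_lit 802828) (nat_lit 13) (.e (nat_lit 352324) (nat_lit 26) (.e (nat_lit 147494) (nat_lit 11) .nil))) .nil)) 
(.lf (nat_lit 446543) (.g (nat_lit 596) (.e (nat_lit 810752) (nat_lit 14) (.e (nat_lit 360449) (nat_lit 0) (.e (nat_lit 7119) (nat_lit 382) (.e (nat_lit 7936) (nat_lit 90) .nil)))) .nil))) (.nd (nat_lit 6) 
(.lf (nat_lit 446511) (.g (nat_lit 568) (.e (nat_lit 810752) (nat_lit 13) (.e (nat_lit 352272) (nat_lit 10) (.e (nat_lit 417794) (nat_lit 0) (.e (nat_lit 5412) (nat_lit 303) (.e (nat_lit 81664) (nat_lit 29) .nil))))) .nil)) 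
(.lf (nat_lit 446575) (.g (nat_lit 2346) (.e (nat_lit 810752) (nat_lit 14) (.e (nat_lit 360451) (nat_lit 0) (.e (nat_lit 7265) (nat_lit 384) (.e (nat_lit 57424) (nat_lit 14) (.e (nat_lit 352283) (nat_lit 20) .nil))))) .nil)))) (.nd (nat_lit 5) (.nd (nat_lit 6) 
(.lf (nat_lit 446495) (.g (nat_lit 1976) (.e (nat_lit 802828) (nat_lit 13) (.e (nat_lit 352324) (nat_lit 26) (.e (nat_lit 147496) (nat_lit 11) (.e (nat_lit 24640) (nat_lit 10) (.e (nat_lit 352000) (nat_lit 47) .nil))))) .nil)) 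
(.lf (nat_lit 446559) (.g (nat_lit 821) (.e (nat_lit 810752) (nat_lit 14) (.e (nat_lit 360450) (nat_lit 0) (.e (nat_lit 7119) (nat_lit 382) (.e (nat_lit 7936) (nat_lit 90) .nil)))) .nil))) (.nd (nat_lit 6) 
(.lf (nat_lit 446527) (.g (nat_lit 1020) (.e (nat_lit 810752) (nat_lit 13) (.e (nat_lit 352277) (nat_lit 11) (.e (nat_lit 426009) (nat_lit 0) (.e (nat_lit 7593) (nat_lit 407) (.e (nat_lit 81664) (nat_lit 29) .nil))))) .nil)) 
(.lf (nat_lit 446591) (.g (nat_lit 1780) (.e (nat_lit 810752) (nat_lit 14) (.e (nat_lit 360452) (nat_lit 0) (.e (nat_lit 7271) (nat_lit 385) (.e (nat_lit 122916) (nat_lit 14) (.e (nat_lit 352286) (nat_lit 20) .nil))))) .nil)))))))))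

noncomputable def tv5491 : DT := (.nd (nat_lit 0) (.nd (nat_lit 1) (.nd (nat_lit 2) (.nd (nat_lit 3) (.nd (nat_lit 4) (.nd (nat_lit 5) (.nd (nat_lit 6) 
(.lf (nat_lit 446592) (.g (nat_lit 1385) (.e (nat_lit 810752) (nat_lit 14) (.e (nat_lit 360452) (nat_lit 0) (.e (nat_lit 7271) (nat_lit 385) (.e (nat_lit 122917) (nat_lit 15) (.e (nat_lit 368384) (nat_lit 25) .nil))))) .nil)) 
(.lf (nat_lit 446656) (.g (nat_lit 190) (.e (nat_lit 810752) (nat_lit 14) (.e (nat_lit 360492) (nat_lit 22) (.e (nat_lit 778360) (nat_lit 9) .nil))) .nil))) (.nd (nat_lit 6) 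
(.lf (nat_lit 446624) (.g (nat_lit 588) (.e (nat_lit 810752) (nat_lit 14) (.e (nat_lit 360489) (nat_lit 21) (.e (nat_lit 770056) (nat_lit 5) (.e (nat_lit 1598) (nat_lit 111) (.e (nat_lit 368384) (nat_lit 25) .nil))))) .nil)) 
(.lf (nat_lit 446688) (.g (nat_lit 1583) (.e (nat_lit 811009) (nat_lit 0) (.e (nat_lit 5355) (nat_lit 298) (.e (nat_lit 1638) (nat_lit 114) (.e (nat_lit 385104) (nat_lit 50) (.e (nat_lit 786480) (nat_lit 29) .nil))))) .nil)))) (.nd (nat_lit 5) (.nd (nat_lit 6) 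
(.lf (nat_lit 446608) (.g (nat_lit 1526) (.e (nat_lit 810752) (nat_lit 14) (.e (nat_lit 360453) (nat_lit 0) (.e (nat_lit 7272) (nat_lit 385) (.e (nat_lit 122916) (nat_lit 14) (.e (nat_lit 352286) (nat_lit 20) .nil))))) .nil)) 
(.lf (nat_lit 446672) (.g (nat_lit 1007) (.e (nat_lit 810752) (nat_lit 15) (.e (nat_lit 368676) (nat_lit 21) (.e (nat_lit 516174) (nat_lit 14) (.e (nat_lit 474880) (nat_lit 3) .nil)))) .nil))) (.nd (nat_lit 6) 
(.lf (nat_lit 446640) (.g (nat_lit 298) (.e (nat_lit 810752) (nat_lit 14) (.e (nat_lit 360491) (nat_lit 22) (.e (nat_lit 778359) (nat_lit 9) (.e (nat_lit 324) (nat_lit 24) (.e (nat_lit 368384) (nat_lit 25) .nil))))) .nil)) 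
(.lf (nat_lit 446704) (.g (nat_lit 2048) (.e (nat_lit 811011) (nat_lit 0) (.e (nat_lit 596) (nat_lit 45) (.e (nat_lit 532563) (nat_lit 15) (.e (nat_lit 385066) (nat_lit 26) (.e (nat_lit 532555) (nat_lit 13) .nil))))) .nil))))) (.nd (nat_lit 4) (.nd (nat_lit 5) (.nd (nat_lit 6) 
(.lf (nat_lit 446600) (.g (nat_lit 1079) (.e (nat_lit 810752) (nat_lit 14) (.e (nat_lit 360452) (nat_lit 0) (.e (nat_lit 7273) (nat_lit 385) (.e (nat_lit 122917) (nat_lit 15) (.e (nat_lit 368384) (nat_lit 25) .nil))))) .nil)) 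
(.lf (nat_lit 446664) (.g (nat_lit 1804) (.e (nat_lit 810752) (nat_lit 14) (.e (nat_lit 360492) (nat_lit 22) (.e (nat_lit 778465) (nat_lit 11) (.e (nat_lit 24640) (nat_lit 10) (.e (nat_lit 352000) (nat_lit 47) .nil))))) .nil))) (.nd (nat_lit 6) 
(.lf (nat_lit 446632) (.g (nat_lit 776) (.e (nat_lit 810752) (nat_lit 14) (.e (nat_lit 360489) (nat_lit 21) (.e (nat_lit 770058) (nat_lit 5) (.e (nat_lit 1598) (nat_lit 111) (.e (nat_lit 368384) (nat_lit 25) .nil))))) .nil)) 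
(.lf (nat_lit 446696) (.g (nat_lit 1068) (.e (nat_lit 811010) (nat_lit 0) (.e (nat_lit 5355) (nat_lit 298) (.e (nat_lit 1638) (nat_lit 114) (.e (nat_lit 385102) (nat_lit 50) .nil)))) .nil)))) (.nd (nat_lit 5) (.nd (nat_lit 6) 
(.lf (nat_lit 446616) (.g (nat_lit 822) (.e (nat_lit 810752) (nat_lit 14) (.e (nat_lit 360488) (nat_lit 20) (.e (nat_lit 761867) (nat_lit 5) (.e (nat_lit 1597) (nat_lit 111) (.e (nat_lit 368384) (nat_lit 25) .nil))))) .nil)) 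
(.lf (nat_lit 446680) (.g (nat_lit 1771) (.e (nat_lit 810752) (nat_lit 16) (.e (nat_lit 376842) (nat_lit 11) (.e (nat_lit 426343) (nat_lit 14) (.e (nat_lit 491560) (nat_lit 10) (.e (nat_lit 352000) (nat_lit 47) .nil))))) .nil))) (.nd (nat_lit 6) 
(.lf (nat_lit 446648) (.g (nat_lit 887) (.e (nat_lit 810752) (nat_lit 14) (.e (nat_lit 360491) (nat_lit 22) (.e (nat_lit 778362) (nat_lit 9) (.e (nat_lit 324) (nat_lit 24) (.e (nat_lit 368384) (nat_lit 25) .nil))))) .nil)) 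
(.lf (nat_lit 446712) (.g (nat_lit 969) (.e (nat_lit 811011) (nat_lit 0) (.e (nat_lit 5776) (nat_lit 317) (.e (nat_lit 180248) (nat_lit 9) (.e (nat_lit 565252) (nat_lit 0) (.e (nat_lit 1595) (nat_lit 111) (.e (nat_lit 368384) (nat_lit 26) .nil)))))) (.g (nat_lit 5) .nil .nil))))))) (.nd (nat_lit 3) (.nd (nat_lit 4) (.nd (nat_lit 5) (.nd (nat_lit 6) 
(.lf (nat_lit 446596) (.g (nat_lit 1851) (.e (nat_lit 810752) (nat_lit 14) (.e (nat_lit 360452) (nat_lit 0) (.e (nat_lit 7272) (nat_lit 385) (.e (nat_lit 122917) (nat_lit 15) (.e (nat_lit 368384) (nat_lit 25) .nil))))) .nil)) 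
(.lf (nat_lit 446660) (.g (nat_lit 992) (.e (nat_lit 810752) (nat_lit 14) (.e (nat_lit 360492) (nat_lit 22) (.e (nat_lit 778362) (nat_lit 9) (.e (nat_lit 321) (nat_lit 24) (.e (nat_lit 368384) (nat_lit 25) .nil))))) .nil))) (.nd (nat_lit 6) 
(.lf (nat_lit 446628) (.g (nat_lit 538) (.e (nat_lit 810752) (nat_lit 14) (.e (nat_lit 360489) (nat_lit 21) (.e (nat_lit 770057) (nat_lit 5) (.e (nat_lit 1599) (nat_lit 111) (.e (nat_lit 368384) (nat_lit 25) .nil))))) .nil)) 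
(.lf (nat_lit 446692) (.g (nat_lit 258) (.e (nat_lit 811009) (nat_lit 0) (.e (nat_lit 5779) (nat_lit 317) (.e (nat_lit 188160) (nat_lit 8) .nil))) .nil)))) (.nd (nat_lit 5) (.nd (nat_lit 6) 
(.lf (nat_lit 446612) (.g (nat_lit 1080) (.e (nat_lit 810752) (nat_lit 14) (.e (nat_lit 360453) (nat_lit 0) (.e (nat_lit 7273) (nat_lit 385) (.e (nat_lit 122916) (nat_lit 14) (.e (nat_lit 352286) (nat_lit 20) .nil))))) .nil)) 
(.lf (nat_lit 446676) (.g (nat_lit 1720) (.e (nat_lit 810752) (nat_lit 16) (.e (nat_lit 376842) (nat_lit 11) (.e (nat_lit 426011) (nat_lit 0) (.e (nat_lit 7591) (nat_lit 407) (.e (nat_lit 81664) (nat_lit 29) .nil))))) .nil))) (.nd (nat_lit 6) 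
(.lf (nat_lit 446644) (.g (nat_lit 903) (.e (nat_lit 810752) (nat_lit 14) (.e (nat_lit 360491) (nat_lit 22) (.e (nat_lit 778361) (nat_lit 9) (.e (nat_lit 321) (nat_lit 24) (.e (nat_lit 368384) (nat_lit 25) .nil))))) .nil)) 
(.lf (nat_lit 446708) (.g (nat_lit 334) (.e (nat_lit 811011) (nat_lit 0) (.e (nat_lit 5776) (nat_lit 317) (.e (nat_lit 188160) (nat_lit 8) (.e (nat_lit 557061) (nat_lit 0) (.e (nat_lit 1585) (nat_lit 111) (.e (nat_lit 368384) (nat_lit 26) .nil)))))) (.g (nat_lit 5) .nil .nil)))))) (.nd (nat_lit 4) (.nd (nat_lit 5) (.nd (nat_lit 6) 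
(.lf (nat_lit 446604) (.g (nat_lit 249) (.e (nat_lit 810752) (nat_lit 14) (.e (nat_lit 360453) (nat_lit 0) (.e (nat_lit 7147) (nat_lit 382) .nil))) .nil)) 
(.lf (nat_lit 446668) (.g (nat_lit 1634) (.e (nat_lit 810752) (nat_lit 14) (.e (nat_lit 360492) (nat_lit 22) (.e (nat_lit 778466) (nat_lit 11) (.e (nat_lit 24640) (nat_lit 10) (.e (nat_lit 352000) (nat_lit 47) .nil))))) .nil))) (.nd (nat_lit 6) 
(.lf (nat_lit 446636) (.g (nat_lit 441) (.e (nat_lit 810752) (nat_lit 14) (.e (nat_lit 360490) (nat_lit 22) (.e (nat_lit 778334) (nat_lit 9) (.e (nat_lit 323) (nat_lit 24) (.e (nat_lit 368384) (nat_lit 25) .nil))))) .nil)) 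
(.lf (nat_lit 446700) (.g (nat_lit 289) (.e (nat_lit 811010) (nat_lit 0) (.e (nat_lit 5779) (nat_lit 317) (.e (nat_lit 180241) (nat_lit 4) .nil))) .nil)))) (.nd (nat_lit 5) (.nd (nat_lit 6) 
(.lf (nat_lit 446620) (.g (nat_lit 962) (.e (nat_lit 810752) (nat_lit 14) (.e (nat_lit 360488) (nat_lit 20) (.e (nat_lit 761869) (nat_lit 5) (.e (nat_lit 1597) (nat_lit 111) (.e (nat_lit 368384) (nat_lit 25) .nil))))) .nil)) 
(.lf (nat_lit 446684) (.g (nat_lit 1064) (.e (nat_lit 802832) (nat_lit 20) (.e (nat_lit 3272) (nat_lit 199) (.e (nat_lit 548890) (nat_lit 10) (.e (nat_lit 73755) (nat_lit 8) .nil)))) .nil))) (.nd (nat_lit 6) 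
(.lf (nat_lit 446652) (.g (nat_lit 1508) (.e (nat_lit 810752) (nat_lit 14) (.e (nat_lit 360491) (nat_lit 22) (.e (nat_lit 778466) (nat_lit 11) (.e (nat_lit 24638) (nat_lit 9) (.e (nat_lit 335892) (nat_lit 0) .nil))))) .nil)) 
(.lf (nat_lit 446716) (.g (nat_lit 1066) (.e (nat_lit 811011) (nat_lit 0) (.e (nat_lit 5776) (nat_lit 317) (.e (nat_lit 180248) (nat_lit 9) (.e (nat_lit 565269) (nat_lit 6) (.e (nat_lit 81933) (nat_lit 20) (.e (nat_lit 2383) (nat_lit 155) .nil)))))) (.g (nat_lit 6) .nil .nil)))))))) (.nd (nat_lit 2) (.nd (nat_lit 3) (.nd (nat_lit 4) (.nd (nat_lit 5) (.nd (nat_lit 6) 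
(.lf (nat_lit 446594) (.g (nat_lit 1796) (.e (nat_lit 810752) (nat_lit 14) (.e (nat_lit 360452) (nat_lit 0) (.e (nat_lit 7271) (nat_lit 385) (.e (nat_lit 122919) (nat_lit 15) (.e (nat_lit 368384) (nat_lit 25) .nil))))) .nil)) 
(.lf (nat_lit 446658) (.g (nat_lit 940) (.e (nat_lit 810752) (nat_lit 14) (.e (nat_lit 360492) (nat_lit 22) (.e (nat_lit 778361) (nat_lit 9) (.e (nat_lit 324) (nat_lit 24) (.e (nat_lit 368384) (nat_lit 25) .nil))))) .nil))) (.nd (nat_lit 6) 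
(.lf (nat_lit 446626) (.g (nat_lit 984) (.e (nat_lit 810752) (nat_lit 14) (.e (nat_lit 360489) (nat_lit 21) (.e (nat_lit 770057) (nat_lit 5) (.e (nat_lit 1595) (nat_lit 111) (.e (nat_lit 368384) (nat_lit 25) .nil))))) .nil)) 
(.lf (nat_lit 446690) (.g (nat_lit 1019) (.e (nat_lit 811009) (nat_lit 0) (.e (nat_lit 5777) (nat_lit 317) (.e (nat_lit 180241) (nat_lit 4) (.e (nat_lit 524340) (nat_lit 28) (.e (nat_lit 352287) (nat_lit 20) (.e (nat_lit 2384) (nat_lit 155) .nil)))))) (.g (nat_lit 6) .nil .nil))))) (.nd (nat_lit 5) (.nd (nat_lit 6) 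
(.lf (nat_lit 446610) (.g (nat_lit 1095) (.e (nat_lit 810752) (nat_lit 14) (.e (nat_lit 360453) (nat_lit 0) (.e (nat_lit 7272) (nat_lit 385) (.e (nat_lit 122918) (nat_lit 15) (.e (nat_lit 368384) (nat_lit 25) .nil))))) .nil)) 
(.lf (nat_lit 446674) (.g (nat_lit 683) (.e (nat_lit 810752) (nat_lit 15) (.e (nat_lit 368676) (nat_lit 21) (.e (nat_lit 516177) (nat_lit 14) .nil))) .nil))) (.nd (nat_lit 6) 
(.lf (nat_lit 446642) (.g (nat_lit 393) (.e (nat_lit 810752) (nat_lit 14) (.e (nat_lit 360491) (nat_lit 22) (.e (nat_lit 778360) (nat_lit 9) (.e (nat_lit 322) (nat_lit 24) (.e (nat_lit 368384) (nat_lit 25) .nil))))) .nil)) 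
(.lf (nat_lit 446706) (.g (nat_lit 1084) (.e (nat_lit 811011) (nat_lit 0) (.e (nat_lit 5776) (nat_lit 317) (.e (nat_lit 180241) (nat_lit 4) (.e (nat_lit 524340) (nat_lit 28) (.e (nat_lit 352287) (nat_lit 20) (.e (nat_lit 2383) (nat_lit 155) .nil)))))) (.g (nat_lit 6) .nil .nil)))))) (.nd (nat_lit 4) (.nd (nat_lit 5) (.nd (nat_lit 6) 
(.lf (nat_lit 446602) (.g (nat_lit 1099) (.e (nat_lit 810752) (nat_lit 14) (.e (nat_lit 360452) (nat_lit 0) (.e (nat_lit 7273) (nat_lit 385) (.e (nat_lit 122919) (nat_lit 15) (.e (nat_lit 368384) (nat_lit 25) .nil))))) .nil)) 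
(.lf (nat_lit 446666) (.g (nat_lit 766) (.e (nat_lit 810752) (nat_lit 14) (.e (nat_lit 360492) (nat_lit 22) (.e (nat_lit 778466) (nat_lit 11) (.e (nat_lit 24631) (nat_lit 9) .nil)))) .nil))) (.nd (nat_lit 6) 
(.lf (nat_lit 446634) (.g (nat_lit 686) (.e (nat_lit 810752) (nat_lit 14) (.e (nat_lit 360489) (nat_lit 21) (.e (nat_lit 770074) (nat_lit 10) (.e (nat_lit 81933) (nat_lit 20) .nil)))) .nil)) 
(.lf (nat_lit 446698) (.g (nat_lit 57) (.e (nat_lit 811010) (nat_lit 0) (.e (nat_lit 5777) (nat_lit 317) (.e (nat_lit 188160) (nat_lit 8) .nil))) .nil)))) (.nd (nat_lit 5) (.nd (nat_lit 6) 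
(.lf (nat_lit 446618) (.g (nat_lit 935) (.e (nat_lit 810752) (nat_lit 14) (.e (nat_lit 360488) (nat_lit 20) (.e (nat_lit 761868) (nat_lit 5) (.e (nat_lit 1597) (nat_lit 111) (.e (nat_lit 368384) (nat_lit 25) .nil))))) .nil)) 
(.lf (nat_lit 446682) (.g (nat_lit 263) (.e (nat_lit 810752) (nat_lit 16) (.e (nat_lit 376857) (nat_lit 21) (.e (nat_lit 57665) (nat_lit 152) .nil))) .nil))) (.nd (nat_lit 6) 
(.lf (nat_lit 446650) (.g (nat_lit 1599) (.e (nat_lit 810752) (nat_lit 14) (.e (nat_lit 360491) (nat_lit 22) (.e (nat_lit 778466) (nat_lit 11) (.e (nat_lit 24617) (nat_lit 7) (.e (nat_lit 327424) (nat_lit 0) .nil))))) .nil)) 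
(.lf (nat_lit 446714) (.g (nat_lit 619) (.e (nat_lit 811011) (nat_lit 0) (.e (nat_lit 5776) (nat_lit 317) (.e (nat_lit 180248) (nat_lit 9) (.e (nat_lit 565252) (nat_lit 0) (.e (nat_lit 1599) (nat_lit 111) (.e (nat_lit 368384) (nat_lit 26) .nil)))))) (.g (nat_lit 5) .nil .nil))))))) (.nd (nat_lit 3) (.nd (nat_lit 4) (.nd (nat_lit 5) (.nd (nat_lit 6) 
(.lf (nat_lit 446598) (.g (nat_lit 1655) (.e (nat_lit 810752) (nat_lit 14) (.e (nat_lit 360452) (nat_lit 0) (.e (nat_lit 7272) (nat_lit 385) (.e (nat_lit 122919) (nat_lit 15) (.e (nat_lit 368384) (nat_lit 25) .nil))))) .nil)) 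
(.lf (nat_lit 446662) (.g (nat_lit 189) (.e (nat_lit 810752) (nat_lit 14) (.e (nat_lit 360492) (nat_lit 22) (.e (nat_lit 778465) (nat_lit 11) .nil))) .nil))) (.nd (nat_lit 6) 
(.lf (nat_lit 446630) (.g (nat_lit 1063) (.e (nat_lit 810752) (nat_lit 14) (.e (nat_lit 360489) (nat_lit 21) (.e (nat_lit 770058) (nat_lit 5) (.e (nat_lit 1589) (nat_lit 111) (.e (nat_lit 368384) (nat_lit 25) .nil))))) .nil)) 
(.lf (nat_lit 446694) (.g (nat_lit 920) (.e (nat_lit 811009) (nat_lit 0) (.e (nat_lit 5779) (nat_lit 317) (.e (nat_lit 180248) (nat_lit 9) (.e (nat_lit 565269) (nat_lit 6) (.e (nat_lit 81933) (nat_lit 20) .nil))))) .nil)))) (.nd (nat_lit 5) (.nd (nat_lit 6) 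
(.lf (nat_lit 446614) (.g (nat_lit 1065) (.e (nat_lit 810752) (nat_lit 14) (.e (nat_lit 360453) (nat_lit 0) (.e (nat_lit 7273) (nat_lit 385) (.e (nat_lit 122919) (nat_lit 15) (.e (nat_lit 368384) (nat_lit 25) .nil))))) .nil)) 
(.lf (nat_lit 446678) (.g (nat_lit 846) (.e (nat_lit 810752) (nat_lit 16) (.e (nat_lit 376842) (nat_lit 11) (.e (nat_lit 426341) (nat_lit 14) .nil))) .nil))) (.nd (nat_lit 6) 
(.lf (nat_lit 446646) (.g (nat_lit 692) (.e (nat_lit 810752) (nat_lit 14) (.e (nat_lit 360491) (nat_lit 22) (.e (nat_lit 778362) (nat_lit 9) (.e (nat_lit 309) (nat_lit 23) .nil)))) .nil)) 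
(.lf (nat_lit 446710) (.g (nat_lit 1053) (.e (nat_lit 811011) (nat_lit 0) (.e (nat_lit 5776) (nat_lit 317) (.e (nat_lit 180248) (nat_lit 9) (.e (nat_lit 565252) (nat_lit 0) (.e (nat_lit 1586) (nat_lit 111) (.e (nat_lit 368384) (nat_lit 26) .nil)))))) (.g (nat_lit 5) .nil .nil)))))) (.nd (nat_lit 4) (.nd (nat_lit 5) (.nd (nat_lit 6) 
(.lf (nat_lit 446606) (.g (nat_lit 2136) (.e (nat_lit 810752) (nat_lit 14) (.e (nat_lit 360453) (nat_lit 0) (.e (nat_lit 7270) (nat_lit 385) (.e (nat_lit 122917) (nat_lit 15) (.e (nat_lit 368384) (nat_lit 25) .nil))))) .nil)) 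
(.lf (nat_lit 446670) (.g (nat_lit 687) (.e (nat_lit 810752) (nat_lit 15) (.e (nat_lit 368676) (nat_lit 21) (.e (nat_lit 516164) (nat_lit 11) .nil))) .nil))) (.nd (nat_lit 6) 
(.lf (nat_lit 446638) (.g (nat_lit 423) (.e (nat_lit 810752) (nat_lit 14) (.e (nat_lit 360490) (nat_lit 22) (.e (nat_lit 778339) (nat_lit 9) (.e (nat_lit 323) (nat_lit 24) (.e (nat_lit 368384) (nat_lit 25) .nil))))) .nil)) 
(.lf (nat_lit 446702) (.g (nat_lit 587) (.e (nat_lit 811010) (nat_lit 0) (.e (nat_lit 5779) (nat_lit 317) (.e (nat_lit 180248) (nat_lit 9) (.e (nat_lit 565252) (nat_lit 0) (.e (nat_lit 1598) (nat_lit 111) (.e (nat_lit 368384) (nat_lit 26) .nil)))))) (.g (nat_lit 4) .nil .nil))))) (.nd (nat_lit 5) (.nd (nat_lit 6) 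
(.lf (nat_lit 446622) (.g (nat_lit 682) (.e (nat_lit 810752) (nat_lit 14) (.e (nat_lit 360488) (nat_lit 20) (.e (nat_lit 769792) (nat_lit 10) (.e (nat_lit 81935) (nat_lit 20) (.e (nat_lit 2374) (nat_lit 154) .nil))))) .nil)) 
(.lf (nat_lit 446686) (.g (nat_lit 865) (.e (nat_lit 802845) (nat_lit 25) (.e (nat_lit 221214) (nat_lit 23) (.e (nat_lit 204884) (nat_lit 33) .nil))) .nil))) (.nd (nat_lit 6) 
(.lf (nat_lit 446654) (.g (nat_lit 1252) (.e (nat_lit 810752) (nat_lit 14) (.e (nat_lit 360491) (nat_lit 22) (.e (nat_lit 778466) (nat_lit 11) (.e (nat_lit 24641) (nat_lit 10) (.e (nat_lit 352000) (nat_lit 47) .nil))))) .nil)) 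
(.lf (nat_lit 446718) (.g (nat_lit 750) (.e (nat_lit 811011) (nat_lit 0) (.e (nat_lit 5776) (nat_lit 317) (.e (nat_lit 180248) (nat_lit 9) (.e (nat_lit 565269) (nat_lit 6) (.e (nat_lit 81934) (nat_lit 20) .nil))))) .nil)))))))) (.nd (nat_lit 1) (.nd (nat_lit 2) (.nd (nat_lit 3) (.nd (nat_lit 4) (.nd (nat_lit 5) (.nd (nat_lit 6) 
(.lf (nat_lit 446593) (.g (nat_lit 1255) (.e (nat_lit 810752) (nat_lit 14) (.e (nat_lit 360452) (nat_lit 0) (.e (nat_lit 7271) (nat_lit 385) (.e (nat_lit 122918) (nat_lit 15) (.e (nat_lit 368384) (nat_lit 25) .nil))))) .nil)) 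
(.lf (nat_lit 446657) (.g (nat_lit 1102) (.e (nat_lit 810752) (nat_lit 14) (.e (nat_lit 360492) (nat_lit 22) (.e (nat_lit 778361) (nat_lit 9) (.e (nat_lit 321) (nat_lit 24) (.e (nat_lit 368384) (nat_lit 25) .nil))))) .nil))) (.nd (nat_lit 6) 
(.lf (nat_lit 446625) (.g (nat_lit 1005) (.e (nat_lit 810752) (nat_lit 14) (.e (nat_lit 360489) (nat_lit 21) (.e (nat_lit 770057) (nat_lit 5) (.e (nat_lit 1589) (nat_lit 111) (.e (nat_lit 368384) (nat_lit 25) .nil))))) .nil)) 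
(.lf (nat_lit 446689) (.g (nat_lit 895) (.e (nat_lit 811009) (nat_lit 0) (.e (nat_lit 5777) (nat_lit 317) (.e (nat_lit 180241) (nat_lit 4) (.e (nat_lit 524340) (nat_lit 28) (.e (nat_lit 352283) (nat_lit 20) (.e (nat_lit 2384) (nat_lit 155) .nil)))))) (.g (nat_lit 0) .nil .nil))))) (.nd (nat_lit 5) (.nd (nat_lit 6) 
(.lf (nat_lit 446609) (.g (nat_lit 1607) (.e (nat_lit 810752) (nat_lit 14) (.e (nat_lit 360453) (nat_lit 0) (.e (nat_lit 7272) (nat_lit 385) (.e (nat_lit 122917) (nat_lit 15) (.e (nat_lit 368384) (nat_lit 25) .nil))))) .nil)) 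
(.lf (nat_lit 446673) (.g (nat_lit 1131) (.e (nat_lit 810752) (nat_lit 15) (.e (nat_lit 368676) (nat_lit 21) (.e (nat_lit 516176) (nat_lit 14) (.e (nat_lit 474880) (nat_lit 3) .nil)))) .nil))) (.nd (nat_lit 6) 
(.lf (nat_lit 446641) (.g (nat_lit 360) (.e (nat_lit 810752) (nat_lit 14) (.e (nat_lit 360491) (nat_lit 22) (.e (nat_lit 778360) (nat_lit 9) (.e (nat_lit 321) (nat_lit 24) (.e (nat_lit 368384) (nat_lit 25) .nil))))) .nil)) 
(.lf (nat_lit 446705) (.g (nat_lit 150) (.e (nat_lit 811011) (nat_lit 0) (.e (nat_lit 5776) (nat_lit 317) (.e (nat_lit 180241) (nat_lit 4) .nil))) .nil))))) (.nd (nat_lit 4) (.nd (nat_lit 5) (.nd (nat_lit 6) 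
(.lf (nat_lit 446601) (.g (nat_lit 647) (.e (nat_lit 810752) (nat_lit 14) (.e (nat_lit 360452) (nat_lit 0) (.e (nat_lit 7273) (nat_lit 385) (.e (nat_lit 122918) (nat_lit 15) .nil)))) .nil)) 
(.lf (nat_lit 446665) (.g (nat_lit 1351) (.e (nat_lit 810752) (nat_lit 14) (.e (nat_lit 360492) (nat_lit 22) (.e (nat_lit 778466) (nat_lit 11) (.e (nat_lit 24617) (nat_lit 7) (.e (nat_lit 327424) (nat_lit 0) .nil))))) .nil))) (.nd (nat_lit 6) 
(.lf (nat_lit 446633) (.g (nat_lit 509) (.e (nat_lit 810752) (nat_lit 14) (.e (nat_lit 360489) (nat_lit 21) (.e (nat_lit 770058) (nat_lit 5) (.e (nat_lit 1599) (nat_lit 111) (.e (nat_lit 368384) (nat_lit 25) .nil))))) .nil)) 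
(.lf (nat_lit 446697) (.g (nat_lit 1745) (.e (nat_lit 811010) (nat_lit 0) (.e (nat_lit 5355) (nat_lit 298) (.e (nat_lit 1638) (nat_lit 114) (.e (nat_lit 385104) (nat_lit 50) (.e (nat_lit 786478) (nat_lit 29) .nil))))) .nil)))) (.nd (nat_lit 5) (.nd (nat_lit 6) 
(.lf (nat_lit 446617) (.g (nat_lit 599) (.e (nat_lit 810752) (nat_lit 14) (.e (nat_lit 360488) (nat_lit 20) (.e (nat_lit 761868) (nat_lit 5) (.e (nat_lit 1585) (nat_lit 111) (.e (nat_lit 368384) (nat_lit 25) .nil))))) .nil)) 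
(.lf (nat_lit 446681) (.g (nat_lit 676) (.e (nat_lit 810752) (nat_lit 16) (.e (nat_lit 376842) (nat_lit 11) (.e (nat_lit 426344) (nat_lit 14) .nil))) .nil))) (.nd (nat_lit 6) 
(.lf (nat_lit 446649) (.g (nat_lit 844) (.e (nat_lit 810752) (nat_lit 14) (.e (nat_lit 360491) (nat_lit 22) (.e (nat_lit 778466) (nat_lit 11) (.e (nat_lit 24616) (nat_lit 7) .nil)))) .nil)) 
(.lf (nat_lit 446713) (.g (nat_lit 756) (.e (nat_lit 811011) (nat_lit 0) (.e (nat_lit 5776) (nat_lit 317) (.e (nat_lit 180248) (nat_lit 9) (.e (nat_lit 565252) (nat_lit 0) (.e (nat_lit 1598) (nat_lit 111) (.e (nat_lit 368384) (nat_lit 26) .nil)))))) (.g (nat_lit 5) .nil .nil))))))) (.nd (nat_lit 3) (.nd (nat_lit 4) (.nd (nat_lit 5) (.nd (nat_lit 6) 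
(.lf (nat_lit 446597) (.g (nat_lit 1299) (.e (nat_lit 810752) (nat_lit 14) (.e (nat_lit 360452) (nat_lit 0) (.e (nat_lit 7272) (nat_lit 385) (.e (nat_lit 122918) (nat_lit 15) (.e (nat_lit 368384) (nat_lit 25) .nil))))) .nil)) 
(.lf (nat_lit 446661) (.g (nat_lit 915) (.e (nat_lit 810752) (nat_lit 14) (.e (nat_lit 360492) (nat_lit 22) (.e (nat_lit 778362) (nat_lit 9) (.e (nat_lit 324) (nat_lit 24) (.e (nat_lit 368384) (nat_lit 25) .nil))))) .nil))) (.nd (nat_lit 6) 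
(.lf (nat_lit 446629) (.g (nat_lit 879) (.e (nat_lit 810752) (nat_lit 14) (.e (nat_lit 360489) (nat_lit 21) (.e (nat_lit 770058) (nat_lit 5) (.e (nat_lit 1586) (nat_lit 111) (.e (nat_lit 368384) (nat_lit 25) .nil))))) .nil)) 
(.lf (nat_lit 446693) (.g (nat_lit 256) (.e (nat_lit 811009) (nat_lit 0) (.e (nat_lit 5779) (nat_lit 317) (.e (nat_lit 180248) (nat_lit 9) .nil))) .nil)))) (.nd (nat_lit 5) (.nd (nat_lit 6) 
(.lf (nat_lit 446613) (.g (nat_lit 1060) (.e (nat_lit 810752) (nat_lit 14) (.e (nat_lit 360453) (nat_lit 0) (.e (nat_lit 7273) (nat_lit 385) (.e (nat_lit 122917) (nat_lit 15) (.e (nat_lit 368384) (nat_lit 25) .nil))))) .nil)) 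
(.lf (nat_lit 446677) (.g (nat_lit 1779) (.e (nat_lit 810752) (nat_lit 16) (.e (nat_lit 376842) (nat_lit 11) (.e (nat_lit 426011) (nat_lit 0) (.e (nat_lit 7593) (nat_lit 407) (.e (nat_lit 81664) (nat_lit 29) .nil))))) .nil))) (.nd (nat_lit 6) 
(.lf (nat_lit 446645) (.g (nat_lit 750) (.e (nat_lit 810752) (nat_lit 14) (.e (nat_lit 360491) (nat_lit 22) (.e (nat_lit 778361) (nat_lit 9) (.e (nat_lit 324) (nat_lit 24) (.e (nat_lit 368384) (nat_lit 25) .nil))))) .nil)) 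
(.lf (nat_lit 446709) (.g (nat_lit 636) (.e (nat_lit 811011) (nat_lit 0) (.e (nat_lit 5776) (nat_lit 317) (.e (nat_lit 188160) (nat_lit 8) (.e (nat_lit 557061) (nat_lit 0) (.e (nat_lit 1597) (nat_lit 111) (.e (nat_lit 368384) (nat_lit 26) .nil)))))) (.g (nat_lit 5) .nil .nil)))))) (.nd (nat_lit 4) (.nd (nat_lit 5) (.nd (nat_lit 6) 
(.lf (nat_lit 446605) (.g (nat_lit 316) (.e (nat_lit 810752) (nat_lit 14) (.e (nat_lit 360453) (nat_lit 0) (.e (nat_lit 7167) (nat_lit 382) .nil))) .nil)) 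
(.lf (nat_lit 446669) (.g (nat_lit 1270) (.e (nat_lit 810752) (nat_lit 14) (.e (nat_lit 360492) (nat_lit 22) (.e (nat_lit 778466) (nat_lit 11) (.e (nat_lit 24641) (nat_lit 10) (.e (nat_lit 352000) (nat_lit 47) .nil))))) .nil))) (.nd (nat_lit 6) 
(.lf (nat_lit 446637) (.g (nat_lit 339) (.e (nat_lit 810752) (nat_lit 14) (.e (nat_lit 360490) (nat_lit 22) (.e (nat_lit 778337) (nat_lit 9) (.e (nat_lit 323) (nat_lit 24) (.e (nat_lit 368384) (nat_lit 25) .nil))))) .nil)) 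
(.lf (nat_lit 446701) (.g (nat_lit 287) (.e (nat_lit 811010) (nat_lit 0) (.e (nat_lit 5779) (nat_lit 317) (.e (nat_lit 188160) (nat_lit 8) .nil))) .nil)))) (.nd (nat_lit 5) (.nd (nat_lit 6) 
(.lf (nat_lit 446621) (.g (nat_lit 702) (.e (nat_lit 810752) (nat_lit 14) (.e (nat_lit 360488) (nat_lit 20) (.e (nat_lit 769792) (nat_lit 10) (.e (nat_lit 81935) (nat_lit 20) (.e (nat_lit 2372) (nat_lit 154) .nil))))) .nil)) 
(.lf (nat_lit 446685) (.g (nat_lit 470) (.e (nat_lit 802832) (nat_lit 20) (.e (nat_lit 3459) (nat_lit 216) (.e (nat_lit 688139) (nat_lit 5) .nil))) .nil))) (.nd (nat_lit 6) 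
(.lf (nat_lit 446653) (.g (nat_lit 1711) (.e (nat_lit 810752) (nat_lit 14) (.e (nat_lit 360491) (nat_lit 22) (.e (nat_lit 778466) (nat_lit 11) (.e (nat_lit 24640) (nat_lit 10) (.e (nat_lit 352000) (nat_lit 47) .nil))))) .nil)) 
(.lf (nat_lit 446717) (.g (nat_lit 1128) (.e (nat_lit 811011) (nat_lit 0) (.e (nat_lit 5776) (nat_lit 317) (.e (nat_lit 180248) (nat_lit 9) (.e (nat_lit 565269) (nat_lit 6) (.e (nat_lit 81933) (nat_lit 20) (.e (nat_lit 2384) (nat_lit 155) .nil)))))) (.g (nat_lit 0) .nil .nil)))))))) (.nd (nat_lit 2) (.nd (nat_lit 3) (.nd (nat_lit 4) (.nd (nat_lit 5) (.nd (nat_lit 6) 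
(.lf (nat_lit 446595) (.g (nat_lit 1779) (.e (nat_lit 810752) (nat_lit 14) (.e (nat_lit 360452) (nat_lit 0) (.e (nat_lit 7272) (nat_lit 385) (.e (nat_lit 122916) (nat_lit 14) (.e (nat_lit 352286) (nat_lit 20) .nil))))) .nil)) 
(.lf (nat_lit 446659) (.g (nat_lit 556) (.e (nat_lit 810752) (nat_lit 14) (.e (nat_lit 360492) (nat_lit 22) (.e (nat_lit 778362) (nat_lit 9) (.e (nat_lit 314) (nat_lit 23) .nil)))) .nil))) (.nd (nat_lit 6) 
(.lf (nat_lit 446627) (.g (nat_lit 682) (.e (nat_lit 810752) (nat_lit 14) (.e (nat_lit 360489) (nat_lit 21) (.e (nat_lit 770057) (nat_lit 5) (.e (nat_lit 1598) (nat_lit 111) (.e (nat_lit 368384) (nat_lit 25) .nil))))) .nil)) 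
(.lf (nat_lit 446691) (.g (nat_lit 1792) (.e (nat_lit 811009) (nat_lit 0) (.e (nat_lit 5777) (nat_lit 317) (.e (nat_lit 180248) (nat_lit 9) (.e (nat_lit 565269) (nat_lit 6) (.e (nat_lit 81935) (nat_lit 20) (.e (nat_lit 2384) (nat_lit 155) .nil)))))) (.g (nat_lit 6) .nil .nil))))) (.nd (nat_lit 5) (.nd (nat_lit 6) 
(.lf (nat_lit 446611) (.g (nat_lit 1424) (.e (nat_lit 810752) (nat_lit 14) (.e (nat_lit 360453) (nat_lit 0) (.e (nat_lit 7272) (nat_lit 385) (.e (nat_lit 122919) (nat_lit 15) (.e (nat_lit 368384) (nat_lit 25) .nil))))) .nil)) 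
(.lf (nat_lit 446675) (.g (nat_lit 691) (.e (nat_lit 810752) (nat_lit 16) (.e (nat_lit 376842) (nat_lit 11) (.e (nat_lit 426009) (nat_lit 0) .nil))) .nil))) (.nd (nat_lit 6) 
(.lf (nat_lit 446643) (.g (nat_lit 319) (.e (nat_lit 810752) (nat_lit 14) (.e (nat_lit 360491) (nat_lit 22) (.e (nat_lit 778360) (nat_lit 9) (.e (nat_lit 324) (nat_lit 24) (.e (nat_lit 368384) (nat_lit 25) .nil))))) .nil)) 
(.lf (nat_lit 446707) (.g (nat_lit 142) (.e (nat_lit 811011) (nat_lit 0) (.e (nat_lit 5776) (nat_lit 317) (.e (nat_lit 188160) (nat_lit 8) .nil))) .nil))))) (.nd (nat_lit 4) (.nd (nat_lit 5) (.nd (nat_lit 6) 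
(.lf (nat_lit 446603) (.g (nat_lit 316) (.e (nat_lit 810752) (nat_lit 14) (.e (nat_lit 360453) (nat_lit 0) (.e (nat_lit 7145) (nat_lit 382) .nil))) .nil)) 
(.lf (nat_lit 446667) (.g (nat_lit 1317) (.e (nat_lit 810752) (nat_lit 14) (.e (nat_lit 360492) (nat_lit 22) (.e (nat_lit 778466) (nat_lit 11) (.e (nat_lit 24632) (nat_lit 9) (.e (nat_lit 335905) (nat_lit 0) .nil))))) .nil))) (.nd (nat_lit 6) 
(.lf (nat_lit 446635) (.g (nat_lit 1068) (.e (nat_lit 810752) (nat_lit 14) (.e (nat_lit 360489) (nat_lit 21) (.e (nat_lit 770074) (nat_lit 10) (.e (nat_lit 81935) (nat_lit 20) (.e (nat_lit 2370) (nat_lit 154) .nil))))) .nil)) 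
(.lf (nat_lit 446699) (.g (nat_lit 287) (.e (nat_lit 811010) (nat_lit 0) (.e (nat_lit 5779) (nat_lit 317) (.e (nat_lit 188160) (nat_lit 3) .nil))) .nil)))) (.nd (nat_lit 5) (.nd (nat_lit 6) 
(.lf (nat_lit 446619) (.g (nat_lit 680) (.e (nat_lit 810752) (nat_lit 14) (.e (nat_lit 360488) (nat_lit 20) (.e (nat_lit 761869) (nat_lit 5) (.e (nat_lit 1585) (nat_lit 111) (.e (nat_lit 368384) (nat_lit 25) .nil))))) .nil)) 
(.lf (nat_lit 446683) (.g (nat_lit 720) (.e (nat_lit 810752) (nat_lit 16) (.e (nat_lit 376860) (nat_lit 21) (.e (nat_lit 57665) (nat_lit 152) (.e (nat_lit 7936) (nat_lit 90) .nil)))) .nil))) (.nd (nat_lit 6) 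
(.lf (nat_lit 446651) (.g (nat_lit 1684) (.e (nat_lit 810752) (nat_lit 14) (.e (nat_lit 360491) (nat_lit 22) (.e (nat_lit 778466) (nat_lit 11) (.e (nat_lit 24623) (nat_lit 9) (.e (nat_lit 335907) (nat_lit 0) .nil))))) .nil)) 
(.lf (nat_lit 446715) (.g (nat_lit 1423) (.e (nat_lit 811011) (nat_lit 0) (.e (nat_lit 5776) (nat_lit 317) (.e (nat_lit 180248) (nat_lit 9) (.e (nat_lit 565269) (nat_lit 6) (.e (nat_lit 81931) (nat_lit 20) (.e (nat_lit 2384) (nat_lit 155) .nil)))))) (.g (nat_lit 0) .nil .nil))))))) (.nd (nat_lit 3) (.nd (nat_lit 4) (.nd (nat_lit 5) (.nd (nat_lit 6) 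
(.lf (nat_lit 446599) (.g (nat_lit 1168) (.e (nat_lit 810752) (nat_lit 14) (.e (nat_lit 360452) (nat_lit 0) (.e (nat_lit 7273) (nat_lit 385) (.e (nat_lit 122916) (nat_lit 14) (.e (nat_lit 352286) (nat_lit 20) .nil))))) .nil)) 
(.lf (nat_lit 446663) (.g (nat_lit 849) (.e (nat_lit 810752) (nat_lit 14) (.e (nat_lit 360492) (nat_lit 22) (.e (nat_lit 778465) (nat_lit 11) (.e (nat_lit 24631) (nat_lit 9) .nil)))) .nil))) (.nd (nat_lit 6) 
(.lf (nat_lit 446631) (.g (nat_lit 902) (.e (nat_lit 810752) (nat_lit 14) (.e (nat_lit 360489) (nat_lit 21) (.e (nat_lit 770058) (nat_lit 5) (.e (nat_lit 1595) (nat_lit 111) (.e (nat_lit 368384) (nat_lit 25) .nil))))) .nil)) 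
(.lf (nat_lit 446695) (.g (nat_lit 900) (.e (nat_lit 811009) (nat_lit 0) (.e (nat_lit 5779) (nat_lit 317) (.e (nat_lit 180248) (nat_lit 9) (.e (nat_lit 565269) (nat_lit 6) (.e (nat_lit 81934) (nat_lit 20) .nil))))) .nil)))) (.nd (nat_lit 5) (.nd (nat_lit 6) 
(.lf (nat_lit 446615) (.g (nat_lit 931) (.e (nat_lit 810752) (nat_lit 14) (.e (nat_lit 360488) (nat_lit 20) (.e (nat_lit 761866) (nat_lit 5) (.e (nat_lit 1597) (nat_lit 111) (.e (nat_lit 368384) (nat_lit 25) .nil))))) .nil)) 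
(.lf (nat_lit 446679) (.g (nat_lit 1638) (.e (nat_lit 810752) (nat_lit 16) (.e (nat_lit 376842) (nat_lit 11) (.e (nat_lit 426343) (nat_lit 14) (.e (nat_lit 491558) (nat_lit 10) (.e (nat_lit 352000) (nat_lit 47) .nil))))) .nil))) (.nd (nat_lit 6) 
(.lf (nat_lit 446647) (.g (nat_lit 970) (.e (nat_lit 810752) (nat_lit 14) (.e (nat_lit 360491) (nat_lit 22) (.e (nat_lit 778362) (nat_lit 9) (.e (nat_lit 321) (nat_lit 24) (.e (nat_lit 368384) (nat_lit 25) .nil))))) .nil)) 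
(.lf (nat_lit 446711) (.g (nat_lit 955) (.e (nat_lit 811011) (nat_lit 0) (.e (nat_lit 5776) (nat_lit 317) (.e (nat_lit 180248) (nat_lit 9) (.e (nat_lit 565252) (nat_lit 0) (.e (nat_lit 1589) (nat_lit 111) (.e (nat_lit 368384) (nat_lit 26) .nil)))))) (.g (nat_lit 5) .nil .nil)))))) (.nd (nat_lit 4) (.nd (nat_lit 5) (.nd (nat_lit 6) 
(.lf (nat_lit 446607) (.g (nat_lit 2482) (.e (nat_lit 810752) (nat_lit 14) (.e (nat_lit 360453) (nat_lit 0) (.e (nat_lit 7270) (nat_lit 385) (.e (nat_lit 122919) (nat_lit 15) (.e (nat_lit 368384) (nat_lit 25) .nil))))) .nil)) 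
(.lf (nat_lit 446671) (.g (nat_lit 687) (.e (nat_lit 810752) (nat_lit 15) (.e (nat_lit 368676) (nat_lit 21) (.e (nat_lit 516173) (nat_lit 14) .nil))) .nil))) (.nd (nat_lit 6) 
(.lf (nat_lit 446639) (.g (nat_lit 178) (.e (nat_lit 810752) (nat_lit 14) (.e (nat_lit 360490) (nat_lit 22) (.e (nat_lit 778340) (nat_lit 9) (.e (nat_lit 323) (nat_lit 24) (.e (nat_lit 368384) (nat_lit 25) .nil))))) .nil)) 
(.lf (nat_lit 446703) (.g (nat_lit 568) (.e (nat_lit 811010) (nat_lit 0) (.e (nat_lit 5779) (nat_lit 317) (.e (nat_lit 180248) (nat_lit 9) (.e (nat_lit 565252) (nat_lit 0) (.e (nat_lit 1599) (nat_lit 111) .nil))))) .nil)))) (.nd (nat_lit 5) (.nd (nat_lit 6) 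
(.lf (nat_lit 446623) (.g (nat_lit 648) (.e (nat_lit 810752) (nat_lit 14) (.e (nat_lit 360489) (nat_lit 21) (.e (nat_lit 770055) (nat_lit 5) (.e (nat_lit 1598) (nat_lit 111) (.e (nat_lit 368384) (nat_lit 25) .nil))))) .nil)) 
(.lf (nat_lit 446687) (.g (nat_lit 1440) (.e (nat_lit 802845) (nat_lit 25) (.e (nat_lit 221214) (nat_lit 23) (.e (nat_lit 204884) (nat_lit 33) (.e (nat_lit 401459) (nat_lit 13) .nil)))) .nil))) (.nd (nat_lit 6) 
(.lf (nat_lit 446655) (.g (nat_lit 462) (.e (nat_lit 810752) (nat_lit 14) (.e (nat_lit 360492) (nat_lit 22) (.e (nat_lit 778359) (nat_lit 9) (.e (nat_lit 324) (nat_lit 24) (.e (nat_lit 368384) (nat_lit 25) .nil))))) .nil)) 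
(.lf (nat_lit 446719) (.g (nat_lit 1663) (.e (nat_lit 811011) (nat_lit 0) (.e (nat_lit 5776) (nat_lit 317) (.e (nat_lit 180248) (nat_lit 9) (.e (nat_lit 565269) (nat_lit 6) (.e (nat_lit 81935) (nat_lit 20) (.e (nat_lit 2383) (nat_lit 155) .nil)))))) (.g (nat_lit 6) .nil .nil))))))))))

noncomputable def tv5492 : DT := (.nd (nat_lit 0) (.nd (nat_lit 1) (.nd (nat_lit 2) (.nd (nat_lit 3) (.nd (nat_lit 4) (.nd (nat_lit 5) 
(.lf (nat_lit 446720) (.g (nat_lit 2000) (.e (nat_lit 811011) (nat_lit 0) (.e (nat_lit 5776) (nat_lit 317) (.e (nat_lit 180248) (nat_lit 9) (.e (nat_lit 565269) (nat_lit 6) (.e (nat_lit 81935) (nat_lit 20) (.e (nat_lit 2384) (nat_lit 155) .nil)))))) (.g (nat_lit 0) .nil .nil))) 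
(.lf (nat_lit 446752) (.g (nat_lit 513) (.e (nat_lit 811011) (nat_lit 0) (.e (nat_lit 5780) (nat_lit 317) (.e (nat_lit 188160) (nat_lit 8) (.e (nat_lit 557060) (nat_lit 0) (.e (nat_lit 1597) (nat_lit 111) (.e (nat_lit 368384) (nat_lit 26) .nil)))))) (.g (nat_lit 5) .nil .nil)))) (.nd (nat_lit 5) 
(.lf (nat_lit 446736) (.g (nat_lit 727) (.e (nat_lit 811011) (nat_lit 0) (.e (nat_lit 5779) (nat_lit 317) (.e (nat_lit 188160) (nat_lit 8) (.e (nat_lit 557060) (nat_lit 0) (.e (nat_lit 1597) (nat_lit 111) (.e (nat_lit 368384) (nat_lit 26) .nil)))))) (.g (nat_lit 5) .nil .nil))) 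
(.lf (nat_lit 446768) (.g (nat_lit 899) (.e (nat_lit 811012) (nat_lit 0) (.e (nat_lit 5776) (nat_lit 317) (.e (nat_lit 180248) (nat_lit 9) (.e (nat_lit 565252) (nat_lit 0) (.e (nat_lit 1589) (nat_lit 111) (.e (nat_lit 368384) (nat_lit 26) .nil)))))) (.g (nat_lit 5) .nil .nil))))) (.nd (nat_lit 4) (.nd (nat_lit 5) 
(.lf (nat_lit 446728) (.g (nat_lit 507) (.e (nat_lit 811011) (nat_lit 0) (.e (nat_lit 5777) (nat_lit 317) (.e (nat_lit 180248) (nat_lit 9) (.e (nat_lit 565252) (nat_lit 0) (.e (nat_lit 1599) (nat_lit 111) (.e (nat_lit 368384) (nat_lit 26) .nil)))))) (.g (nat_lit 5) .nil .nil))) 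
(.lf (nat_lit 446760) (.g (nat_lit 1284) (.e (nat_lit 811011) (nat_lit 0) (.e (nat_lit 5780) (nat_lit 317) (.e (nat_lit 180248) (nat_lit 9) (.e (nat_lit 565269) (nat_lit 6) (.e (nat_lit 81931) (nat_lit 20) (.e (nat_lit 2384) (nat_lit 155) .nil)))))) (.g (nat_lit 0) .nil .nil)))) (.nd (nat_lit 5) 
(.lf (nat_lit 446744) (.g (nat_lit 1479) (.e (nat_lit 811011) (nat_lit 0) (.e (nat_lit 5779) (nat_lit 317) (.e (nat_lit 180248) (nat_lit 9) (.e (nat_lit 565269) (nat_lit 6) (.e (nat_lit 81931) (nat_lit 20) (.e (nat_lit 2384) (nat_lit 155) .nil)))))) (.g (nat_lit 0) .nil .nil))) 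
(.lf (nat_lit 446776) (.g (nat_lit 917) (.e (nat_lit 811012) (nat_lit 0) (.e (nat_lit 5777) (nat_lit 317) (.e (nat_lit 180241) (nat_lit 4) (.e (nat_lit 524340) (nat_lit 28) (.e (nat_lit 352287) (nat_lit 20) (.e (nat_lit 2383) (nat_lit 155) .nil)))))) (.g (nat_lit 0) .nil .nil)))))) (.nd (nat_lit 3) (.nd (nat_lit 4) (.nd (nat_lit 5) 
(.lf (nat_lit 446724) (.g (nat_lit 944) (.e (nat_lit 811011) (nat_lit 0) (.e (nat_lit 5777) (nat_lit 317) (.e (nat_lit 180248) (nat_lit 9) (.e (nat_lit 565252) (nat_lit 0) (.e (nat_lit 1586) (nat_lit 111) (.e (nat_lit 368384) (nat_lit 26) .nil)))))) (.g (nat_lit 5) .nil .nil))) 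
(.lf (nat_lit 446756) (.g (nat_lit 818) (.e (nat_lit 811011) (nat_lit 0) (.e (nat_lit 5780) (nat_lit 317) (.e (nat_lit 180248) (nat_lit 9) (.e (nat_lit 565252) (nat_lit 0) (.e (nat_lit 1589) (nat_lit 111) (.e (nat_lit 368384) (nat_lit 26) .nil)))))) (.g (nat_lit 5) .nil .nil)))) (.nd (nat_lit 5) 
(.lf (nat_lit 446740) (.g (nat_lit 1016) (.e (nat_lit 811011) (nat_lit 0) (.e (nat_lit 5779) (nat_lit 317) (.e (nat_lit 180248) (nat_lit 9) (.e (nat_lit 565252) (nat_lit 0) (.e (nat_lit 1589) (nat_lit 111) (.e (nat_lit 368384) (nat_lit 26) .nil)))))) (.g (nat_lit 5) .nil .nil))) 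
(.lf (nat_lit 446772) (.g (nat_lit 1369) (.e (nat_lit 811012) (nat_lit 0) (.e (nat_lit 5776) (nat_lit 317) (.e (nat_lit 180248) (nat_lit 9) (.e (nat_lit 565269) (nat_lit 6) (.e (nat_lit 81931) (nat_lit 20) (.e (nat_lit 2384) (nat_lit 155) .nil)))))) (.g (nat_lit 0) .nil .nil))))) (.nd (nat_lit 4) (.nd (nat_lit 5) 
(.lf (nat_lit 446732) (.g (nat_lit 1526) (.e (nat_lit 811011) (nat_lit 0) (.e (nat_lit 5777) (nat_lit 317) (.e (nat_lit 180248) (nat_lit 9) (.e (nat_lit 565269) (nat_lit 6) (.e (nat_lit 81935) (nat_lit 20) (.e (nat_lit 2383) (nat_lit 155) .nil)))))) (.g (nat_lit 6) .nil .nil))) 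
(.lf (nat_lit 446764) (.g (nat_lit 140) (.e (nat_lit 811012) (nat_lit 0) (.e (nat_lit 5776) (nat_lit 317) (.e (nat_lit 188160) (nat_lit 8) .nil))) .nil))) (.nd (nat_lit 5) 
(.lf (nat_lit 446748) (.g (nat_lit 1717) (.e (nat_lit 811011) (nat_lit 0) (.e (nat_lit 5779) (nat_lit 317) (.e (nat_lit 180248) (nat_lit 9) (.e (nat_lit 565269) (nat_lit 6) (.e (nat_lit 81935) (nat_lit 20) (.e (nat_lit 2383) (nat_lit 155) .nil)))))) (.g (nat_lit 6) .nil .nil))) 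
(.lf (nat_lit 446780) (.g (nat_lit 885) (.e (nat_lit 811012) (nat_lit 0) (.e (nat_lit 5777) (nat_lit 317) (.e (nat_lit 180248) (nat_lit 9) (.e (nat_lit 565252) (nat_lit 0) (.e (nat_lit 1586) (nat_lit 111) (.e (nat_lit 368384) (nat_lit 26) .nil)))))) (.g (nat_lit 5) .nil .nil))))))) (.nd (nat_lit 2) (.nd (nat_lit 3) (.nd (nat_lit 4) (.nd (nat_lit 5) 
(.lf (nat_lit 446722) (.g (nat_lit 250) (.e (nat_lit 811011) (nat_lit 0) (.e (nat_lit 5777) (nat_lit 317) (.e (nat_lit 188160) (nat_lit 8) (.e (nat_lit 557061) (nat_lit 0) (.e (nat_lit 1585) (nat_lit 111) (.e (nat_lit 368384) (nat_lit 26) .nil)))))) (.g (nat_lit 5) .nil .nil))) 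
(.lf (nat_lit 446754) (.g (nat_lit 510) (.e (nat_lit 811011) (nat_lit 0) (.e (nat_lit 5780) (nat_lit 317) (.e (nat_lit 188160) (nat_lit 8) (.e (nat_lit 557061) (nat_lit 0) (.e (nat_lit 1597) (nat_lit 111) (.e (nat_lit 368384) (nat_lit 26) .nil)))))) (.g (nat_lit 5) .nil .nil)))) (.nd (nat_lit 5) 
(.lf (nat_lit 446738) (.g (nat_lit 706) (.e (nat_lit 811011) (nat_lit 0) (.e (nat_lit 5779) (nat_lit 317) (.e (nat_lit 188160) (nat_lit 8) (.e (nat_lit 557061) (nat_lit 0) (.e (nat_lit 1597) (nat_lit 111) (.e (nat_lit 368384) (nat_lit 26) .nil)))))) (.g (nat_lit 5) .nil .nil))) 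
(.lf (nat_lit 446770) (.g (nat_lit 700) (.e (nat_lit 811012) (nat_lit 0) (.e (nat_lit 5776) (nat_lit 317) (.e (nat_lit 180248) (nat_lit 9) (.e (nat_lit 565252) (nat_lit 0) (.e (nat_lit 1598) (nat_lit 111) (.e (nat_lit 368384) (nat_lit 26) .nil)))))) (.g (nat_lit 5) .nil .nil))))) (.nd (nat_lit 4) (.nd (nat_lit 5) 
(.lf (nat_lit 446730) (.g (nat_lit 932) (.e (nat_lit 811011) (nat_lit 0) (.e (nat_lit 5777) (nat_lit 317) (.e (nat_lit 180248) (nat_lit 9) (.e (nat_lit 565269) (nat_lit 6) (.e (nat_lit 81933) (nat_lit 20) (.e (nat_lit 2383) (nat_lit 155) .nil)))))) (.g (nat_lit 6) .nil .nil))) 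
(.lf (nat_lit 446762) (.g (nat_lit 1524) (.e (nat_lit 811011) (nat_lit 0) (.e (nat_lit 5780) (nat_lit 317) (.e (nat_lit 180248) (nat_lit 9) (.e (nat_lit 565269) (nat_lit 6) (.e (nat_lit 81935) (nat_lit 20) (.e (nat_lit 2383) (nat_lit 155) .nil)))))) (.g (nat_lit 6) .nil .nil)))) (.nd (nat_lit 5) 
(.lf (nat_lit 446746) (.g (nat_lit 1188) (.e (nat_lit 811011) (nat_lit 0) (.e (nat_lit 5779) (nat_lit 317) (.e (nat_lit 180248) (nat_lit 9) (.e (nat_lit 565269) (nat_lit 6) (.e (nat_lit 81933) (nat_lit 20) (.e (nat_lit 2384) (nat_lit 155) .nil)))))) (.g (nat_lit 0) .nil .nil))) 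
(.lf (nat_lit 446778) (.g (nat_lit 184) (.e (nat_lit 811012) (nat_lit 0) (.e (nat_lit 5777) (nat_lit 317) (.e (nat_lit 188160) (nat_lit 8) (.e (nat_lit 557061) (nat_lit 0) (.e (nat_lit 1585) (nat_lit 111) (.e (nat_lit 368384) (nat_lit 26) .nil)))))) (.g (nat_lit 5) .nil .nil)))))) (.nd (nat_lit 3) (.nd (nat_lit 4) (.nd (nat_lit 5) 
(.lf (nat_lit 446726) (.g (nat_lit 856) (.e (nat_lit 811011) (nat_lit 0) (.e (nat_lit 5777) (nat_lit 317) (.e (nat_lit 180248) (nat_lit 9) (.e (nat_lit 565252) (nat_lit 0) (.e (nat_lit 1595) (nat_lit 111) (.e (nat_lit 368384) (nat_lit 26) .nil)))))) (.g (nat_lit 5) .nil .nil))) 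
(.lf (nat_lit 446758) (.g (nat_lit 619) (.e (nat_lit 811011) (nat_lit 0) (.e (nat_lit 5780) (nat_lit 317) (.e (nat_lit 180248) (nat_lit 9) (.e (nat_lit 565252) (nat_lit 0) (.e (nat_lit 1598) (nat_lit 111) (.e (nat_lit 368384) (nat_lit 26) .nil)))))) (.g (nat_lit 5) .nil .nil)))) (.nd (nat_lit 5) 
(.lf (nat_lit 446742) (.g (nat_lit 816) (.e (nat_lit 811011) (nat_lit 0) (.e (nat_lit 5779) (nat_lit 317) (.e (nat_lit 180248) (nat_lit 9) (.e (nat_lit 565252) (nat_lit 0) (.e (nat_lit 1598) (nat_lit 111) (.e (nat_lit 368384) (nat_lit 26) .nil)))))) (.g (nat_lit 5) .nil .nil))) 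
(.lf (nat_lit 446774) (.g (nat_lit 1948) (.e (nat_lit 811012) (nat_lit 0) (.e (nat_lit 5776) (nat_lit 317) (.e (nat_lit 180248) (nat_lit 9) (.e (nat_lit 565269) (nat_lit 6) (.e (nat_lit 81935) (nat_lit 20) (.e (nat_lit 2384) (nat_lit 155) .nil)))))) (.g (nat_lit 0) .nil .nil))))) (.nd (nat_lit 4) (.nd (nat_lit 5) 
(.lf (nat_lit 446734) (.g (nat_lit 223) (.e (nat_lit 811011) (nat_lit 0) (.e (nat_lit 5779) (nat_lit 317) (.e (nat_lit 180241) (nat_lit 4) .nil))) .nil)) 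
(.lf (nat_lit 446766) (.g (nat_lit 578) (.e (nat_lit 811012) (nat_lit 0) (.e (nat_lit 5776) (nat_lit 317) (.e (nat_lit 188160) (nat_lit 8) (.e (nat_lit 557061) (nat_lit 0) (.e (nat_lit 1597) (nat_lit 111) (.e (nat_lit 368384) (nat_lit 26) .nil)))))) (.g (nat_lit 5) .nil .nil)))) (.nd (nat_lit 5) 
(.lf (nat_lit 446750) (.g (nat_lit 614) (.e (nat_lit 811011) (nat_lit 0) (.e (nat_lit 5780) (nat_lit 317) (.e (nat_lit 180241) (nat_lit 4) (.e (nat_lit 524340) (nat_lit 28) (.e (nat_lit 352285) (nat_lit 20) (.e (nat_lit 2383) (nat_lit 155) .nil)))))) (.g (nat_lit 6) .nil .nil))) 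
(.lf (nat_lit 446782) (.g (nat_lit 797) (.e (nat_lit 811012) (nat_lit 0) (.e (nat_lit 5777) (nat_lit 317) (.e (nat_lit 180248) (nat_lit 9) (.e (nat_lit 565252) (nat_lit 0) (.e (nat_lit 1595) (nat_lit 111) (.e (nat_lit 368384) (nat_lit 26) .nil)))))) (.g (nat_lit 5) .nil .nil)))))))) (.nd (nat_lit 1) (.nd (nat_lit 2) (.nd (nat_lit 3) (.nd (nat_lit 4) (.nd (nat_lit 5) 
(.lf (nat_lit 446721) (.g (nat_lit 555) (.e (nat_lit 811011) (nat_lit 0) (.e (nat_lit 5777) (nat_lit 317) (.e (nat_lit 188160) (nat_lit 8) (.e (nat_lit 557060) (nat_lit 0) (.e (nat_lit 1597) (nat_lit 111) (.e (nat_lit 368384) (nat_lit 26) .nil)))))) (.g (nat_lit 5) .nil .nil))) 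
(.lf (nat_lit 446753) (.g (nat_lit 208) (.e (nat_lit 811011) (nat_lit 0) (.e (nat_lit 5780) (nat_lit 317) (.e (nat_lit 188160) (nat_lit 8) (.e (nat_lit 557061) (nat_lit 0) (.e (nat_lit 1585) (nat_lit 111) (.e (nat_lit 368384) (nat_lit 26) .nil)))))) (.g (nat_lit 5) .nil .nil)))) (.nd (nat_lit 5) 
(.lf (nat_lit 446737) (.g (nat_lit 404) (.e (nat_lit 811011) (nat_lit 0) (.e (nat_lit 5779) (nat_lit 317) (.e (nat_lit 188160) (nat_lit 8) (.e (nat_lit 557061) (nat_lit 0) (.e (nat_lit 1585) (nat_lit 111) (.e (nat_lit 368384) (nat_lit 26) .nil)))))) (.g (nat_lit 5) .nil .nil))) 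
(.lf (nat_lit 446769) (.g (nat_lit 913) (.e (nat_lit 811012) (nat_lit 0) (.e (nat_lit 5776) (nat_lit 317) (.e (nat_lit 180248) (nat_lit 9) (.e (nat_lit 565252) (nat_lit 0) (.e (nat_lit 1595) (nat_lit 111) (.e (nat_lit 368384) (nat_lit 26) .nil)))))) (.g (nat_lit 5) .nil .nil))))) (.nd (nat_lit 4) (.nd (nat_lit 5) 
(.lf (nat_lit 446729) (.g (nat_lit 1307) (.e (nat_lit 811011) (nat_lit 0) (.e (nat_lit 5777) (nat_lit 317) (.e (nat_lit 180248) (nat_lit 9) (.e (nat_lit 565269) (nat_lit 6) (.e (nat_lit 81931) (nat_lit 20) (.e (nat_lit 2384) (nat_lit 155) .nil)))))) (.g (nat_lit 0) .nil .nil))) 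
(.lf (nat_lit 446761) (.g (nat_lit 925) (.e (nat_lit 811011) (nat_lit 0) (.e (nat_lit 5780) (nat_lit 317) (.e (nat_lit 180248) (nat_lit 9) (.e (nat_lit 565269) (nat_lit 6) (.e (nat_lit 81933) (nat_lit 20) (.e (nat_lit 2383) (nat_lit 155) .nil)))))) (.g (nat_lit 6) .nil .nil)))) (.nd (nat_lit 5) 
(.lf (nat_lit 446745) (.g (nat_lit 1118) (.e (nat_lit 811011) (nat_lit 0) (.e (nat_lit 5779) (nat_lit 317) (.e (nat_lit 180248) (nat_lit 9) (.e (nat_lit 565269) (nat_lit 6) (.e (nat_lit 81933) (nat_lit 20) (.e (nat_lit 2383) (nat_lit 155) .nil)))))) (.g (nat_lit 6) .nil .nil))) 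
(.lf (nat_lit 446777) (.g (nat_lit 489) (.e (nat_lit 811012) (nat_lit 0) (.e (nat_lit 5777) (nat_lit 317) (.e (nat_lit 188160) (nat_lit 8) (.e (nat_lit 557060) (nat_lit 0) (.e (nat_lit 1597) (nat_lit 111) (.e (nat_lit 368384) (nat_lit 26) .nil)))))) (.g (nat_lit 5) .nil .nil)))))) (.nd (nat_lit 3) (.nd (nat_lit 4) (.nd (nat_lit 5) 
(.lf (nat_lit 446725) (.g (nat_lit 843) (.e (nat_lit 811011) (nat_lit 0) (.e (nat_lit 5777) (nat_lit 317) (.e (nat_lit 180248) (nat_lit 9) (.e (nat_lit 565252) (nat_lit 0) (.e (nat_lit 1589) (nat_lit 111) (.e (nat_lit 368384) (nat_lit 26) .nil)))))) (.g (nat_lit 5) .nil .nil))) 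
(.lf (nat_lit 446757) (.g (nat_lit 832) (.e (nat_lit 811011) (nat_lit 0) (.e (nat_lit 5780) (nat_lit 317) (.e (nat_lit 180248) (nat_lit 9) (.e (nat_lit 565252) (nat_lit 0) (.e (nat_lit 1595) (nat_lit 111) (.e (nat_lit 368384) (nat_lit 26) .nil)))))) (.g (nat_lit 5) .nil .nil)))) (.nd (nat_lit 5) 
(.lf (nat_lit 446741) (.g (nat_lit 1029) (.e (nat_lit 811011) (nat_lit 0) (.e (nat_lit 5779) (nat_lit 317) (.e (nat_lit 180248) (nat_lit 9) (.e (nat_lit 565252) (nat_lit 0) (.e (nat_lit 1595) (nat_lit 111) (.e (nat_lit 368384) (nat_lit 26) .nil)))))) (.g (nat_lit 5) .nil .nil))) 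
(.lf (nat_lit 446773) (.g (nat_lit 750) (.e (nat_lit 811012) (nat_lit 0) (.e (nat_lit 5776) (nat_lit 317) (.e (nat_lit 180248) (nat_lit 9) (.e (nat_lit 565269) (nat_lit 6) (.e (nat_lit 81934) (nat_lit 20) .nil))))) .nil)))) (.nd (nat_lit 4) (.nd (nat_lit 5) 
(.lf (nat_lit 446733) (.g (nat_lit 1886) (.e (nat_lit 811011) (nat_lit 0) (.e (nat_lit 5777) (nat_lit 317) (.e (nat_lit 180248) (nat_lit 9) (.e (nat_lit 565269) (nat_lit 6) (.e (nat_lit 81935) (nat_lit 20) (.e (nat_lit 2384) (nat_lit 155) .nil)))))) (.g (nat_lit 0) .nil .nil))) 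
(.lf (nat_lit 446765) (.g (nat_lit 276) (.e (nat_lit 811012) (nat_lit 0) (.e (nat_lit 5776) (nat_lit 317) (.e (nat_lit 188160) (nat_lit 8) (.e (nat_lit 557061) (nat_lit 0) (.e (nat_lit 1585) (nat_lit 111) (.e (nat_lit 368384) (nat_lit 26) .nil)))))) (.g (nat_lit 5) .nil .nil)))) (.nd (nat_lit 5) 
(.lf (nat_lit 446749) (.g (nat_lit 2059) (.e (nat_lit 811011) (nat_lit 0) (.e (nat_lit 5779) (nat_lit 317) (.e (nat_lit 180248) (nat_lit 9) (.e (nat_lit 565269) (nat_lit 6) (.e (nat_lit 81935) (nat_lit 20) (.e (nat_lit 2384) (nat_lit 155) .nil)))))) (.g (nat_lit 0) .nil .nil))) 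
(.lf (nat_lit 446781) (.g (nat_lit 784) (.e (nat_lit 811012) (nat_lit 0) (.e (nat_lit 5777) (nat_lit 317) (.e (nat_lit 180248) (nat_lit 9) (.e (nat_lit 565252) (nat_lit 0) (.e (nat_lit 1589) (nat_lit 111) (.e (nat_lit 368384) (nat_lit 26) .nil)))))) (.g (nat_lit 5) .nil .nil))))))) (.nd (nat_lit 2) (.nd (nat_lit 3) (.nd (nat_lit 4) (.nd (nat_lit 5) 
(.lf (nat_lit 446723) (.g (nat_lit 552) (.e (nat_lit 811011) (nat_lit 0) (.e (nat_lit 5777) (nat_lit 317) (.e (nat_lit 188160) (nat_lit 8) (.e (nat_lit 557061) (nat_lit 0) (.e (nat_lit 1597) (nat_lit 111) (.e (nat_lit 368384) (nat_lit 26) .nil)))))) (.g (nat_lit 5) .nil .nil))) 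
(.lf (nat_lit 446755) (.g (nat_lit 920) (.e (nat_lit 811011) (nat_lit 0) (.e (nat_lit 5780) (nat_lit 317) (.e (nat_lit 180248) (nat_lit 9) (.e (nat_lit 565252) (nat_lit 0) (.e (nat_lit 1586) (nat_lit 111) (.e (nat_lit 368384) (nat_lit 26) .nil)))))) (.g (nat_lit 5) .nil .nil)))) (.nd (nat_lit 5) 
(.lf (nat_lit 446739) (.g (nat_lit 1112) (.e (nat_lit 811011) (nat_lit 0) (.e (nat_lit 5779) (nat_lit 317) (.e (nat_lit 180248) (nat_lit 9) (.e (nat_lit 565252) (nat_lit 0) (.e (nat_lit 1586) (nat_lit 111) (.e (nat_lit 368384) (nat_lit 26) .nil)))))) (.g (nat_lit 5) .nil .nil))) 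
(.lf (nat_lit 446771) (.g (nat_lit 563) (.e (nat_lit 811012) (nat_lit 0) (.e (nat_lit 5776) (nat_lit 317) (.e (nat_lit 180248) (nat_lit 9) (.e (nat_lit 565252) (nat_lit 0) (.e (nat_lit 1599) (nat_lit 111) (.e (nat_lit 368384) (nat_lit 26) .nil)))))) (.g (nat_lit 5) .nil .nil))))) (.nd (nat_lit 4) (.nd (nat_lit 5) 
(.lf (nat_lit 446731) (.g (nat_lit 1016) (.e (nat_lit 811011) (nat_lit 0) (.e (nat_lit 5777) (nat_lit 317) (.e (nat_lit 180248) (nat_lit 9) (.e (nat_lit 565269) (nat_lit 6) (.e (nat_lit 81933) (nat_lit 20) (.e (nat_lit 2384) (nat_lit 155) .nil)))))) (.g (nat_lit 0) .nil .nil))) 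
(.lf (nat_lit 446763) (.g (nat_lit 442) (.e (nat_lit 811012) (nat_lit 0) (.e (nat_lit 5776) (nat_lit 317) (.e (nat_lit 180241) (nat_lit 4) (.e (nat_lit 524340) (nat_lit 28) (.e (nat_lit 352286) (nat_lit 20) (.e (nat_lit 2383) (nat_lit 155) .nil)))))) (.g (nat_lit 4) .nil .nil)))) (.nd (nat_lit 5) 
(.lf (nat_lit 446747) (.g (nat_lit 836) (.e (nat_lit 811011) (nat_lit 0) (.e (nat_lit 5779) (nat_lit 317) (.e (nat_lit 180248) (nat_lit 9) (.e (nat_lit 565269) (nat_lit 6) (.e (nat_lit 81934) (nat_lit 20) .nil))))) .nil)) 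
(.lf (nat_lit 446779) (.g (nat_lit 486) (.e (nat_lit 811012) (nat_lit 0) (.e (nat_lit 5777) (nat_lit 317) (.e (nat_lit 188160) (nat_lit 8) (.e (nat_lit 557061) (nat_lit 0) (.e (nat_lit 1597) (nat_lit 111) (.e (nat_lit 368384) (nat_lit 26) .nil)))))) (.g (nat_lit 5) .nil .nil)))))) (.nd (nat_lit 3) (.nd (nat_lit 4) (.nd (nat_lit 5) 
(.lf (nat_lit 446727) (.g (nat_lit 646) (.e (nat_lit 811011) (nat_lit 0) (.e (nat_lit 5777) (nat_lit 317) (.e (nat_lit 180248) (nat_lit 9) (.e (nat_lit 565252) (nat_lit 0) (.e (nat_lit 1598) (nat_lit 111) (.e (nat_lit 368384) (nat_lit 26) .nil)))))) (.g (nat_lit 5) .nil .nil))) 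
(.lf (nat_lit 446759) (.g (nat_lit 482) (.e (nat_lit 811011) (nat_lit 0) (.e (nat_lit 5780) (nat_lit 317) (.e (nat_lit 180248) (nat_lit 9) (.e (nat_lit 565252) (nat_lit 0) (.e (nat_lit 1599) (nat_lit 111) (.e (nat_lit 368384) (nat_lit 26) .nil)))))) (.g (nat_lit 5) .nil .nil)))) (.nd (nat_lit 5) 
(.lf (nat_lit 446743) (.g (nat_lit 681) (.e (nat_lit 811011) (nat_lit 0) (.e (nat_lit 5779) (nat_lit 317) (.e (nat_lit 180248) (nat_lit 9) (.e (nat_lit 565252) (nat_lit 0) (.e (nat_lit 1599) (nat_lit 111) (.e (nat_lit 368384) (nat_lit 26) .nil)))))) (.g (nat_lit 5) .nil .nil))) 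
(.lf (nat_lit 446775) (.g (nat_lit 615) (.e (nat_lit 811012) (nat_lit 0) (.e (nat_lit 5777) (nat_lit 317) (.e (nat_lit 180241) (nat_lit 4) (.e (nat_lit 524340) (nat_lit 28) (.e (nat_lit 352285) (nat_lit 20) (.e (nat_lit 2383) (nat_lit 155) .nil)))))) (.g (nat_lit 0) .nil .nil))))) (.nd (nat_lit 4) (.nd (nat_lit 5) 
(.lf (nat_lit 446735) (.g (nat_lit 352) (.e (nat_lit 811011) (nat_lit 0) (.e (nat_lit 5779) (nat_lit 317) (.e (nat_lit 188160) (nat_lit 8) (.e (nat_lit 557060) (nat_lit 0) (.e (nat_lit 1585) (nat_lit 111) (.e (nat_lit 368384) (nat_lit 26) .nil)))))) (.g (nat_lit 5) .nil .nil))) 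
(.lf (nat_lit 446767) (.g (nat_lit 997) (.e (nat_lit 811012) (nat_lit 0) (.e (nat_lit 5776) (nat_lit 317) (.e (nat_lit 180248) (nat_lit 9) (.e (nat_lit 565252) (nat_lit 0) (.e (nat_lit 1586) (nat_lit 111) (.e (nat_lit 368384) (nat_lit 26) .nil)))))) (.g (nat_lit 5) .nil .nil)))) (.nd (nat_lit 5) 
(.lf (nat_lit 446751) (.g (nat_lit 926) (.e (nat_lit 811011) (nat_lit 0) (.e (nat_lit 5780) (nat_lit 317) (.e (nat_lit 180241) (nat_lit 4) (.e (nat_lit 524340) (nat_lit 28) (.e (nat_lit 352287) (nat_lit 20) (.e (nat_lit 2383) (nat_lit 155) .nil)))))) (.g (nat_lit 6) .nil .nil))) 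
(.lf (nat_lit 446783) (.g (nat_lit 587) (.e (nat_lit 811012) (nat_lit 0) (.e (nat_lit 5777) (nat_lit 317) (.e (nat_lit 180248) (nat_lit 9) (.e (nat_lit 565252) (nat_lit 0) (.e (nat_lit 1598) (nat_lit 111) (.e (nat_lit 368384) (nat_lit 26) .nil)))))) (.g (nat_lit 5) .nil .nil)))))))))

noncomputable def tv5493 : DT := (.nd (nat_lit 0) (.nd (nat_lit 1) (.nd (nat_lit 2) (.nd (nat_lit 3) (.nd (nat_lit 4) (.nd (nat_lit 5) 
(.lf (nat_lit 446784) (.g (nat_lit 448) (.e (nat_lit 811012) (nat_lit 0) (.e (nat_lit 5777) (nat_lit 317) (.e (nat_lit 180248) (nat_lit 9) (.e (nat_lit 565252) (nat_lit 0) (.e (nat_lit 1599) (nat_lit 111) (.e (nat_lit 368384) (nat_lit 26) .nil)))))) (.g (nat_lit 5) .nil .nil))) 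
(.lf (nat_lit 446816) (.g (nat_lit 1143) (.e (nat_lit 811018) (nat_lit 0) (.e (nat_lit 5270) (nat_lit 298) (.e (nat_lit 1669) (nat_lit 116) .nil))) .nil))) (.nd (nat_lit 5) 
(.lf (nat_lit 446800) (.g (nat_lit 1441) (.e (nat_lit 811012) (nat_lit 0) (.e (nat_lit 5779) (nat_lit 317) (.e (nat_lit 180248) (nat_lit 9) (.e (nat_lit 565269) (nat_lit 6) (.e (nat_lit 81931) (nat_lit 20) (.e (nat_lit 2384) (nat_lit 155) .nil)))))) (.g (nat_lit 0) .nil .nil))) 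
(.lf (nat_lit 446832) (.g (nat_lit 1599) (.e (nat_lit 818944) (nat_lit 7) (.e (nat_lit 286759) (nat_lit 12) (.e (nat_lit 385094) (nat_lit 49) (.e (nat_lit 778326) (nat_lit 6) (.e (nat_lit 89856) (nat_lit 0) .nil))))) .nil)))) (.nd (nat_lit 4) (.nd (nat_lit 5) 
(.lf (nat_lit 446792) (.g (nat_lit 678) (.e (nat_lit 811012) (nat_lit 0) (.e (nat_lit 5779) (nat_lit 317) (.e (nat_lit 188160) (nat_lit 8) (.e (nat_lit 557060) (nat_lit 0) (.e (nat_lit 1597) (nat_lit 111) (.e (nat_lit 368384) (nat_lit 26) .nil)))))) (.g (nat_lit 5) .nil .nil))) 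
(.lf (nat_lit 446824) (.g (nat_lit 1660) (.e (nat_lit 811021) (nat_lit 2) (.e (nat_lit 32788) (nat_lit 10) (.e (nat_lit 73754) (nat_lit 8) (.e (nat_lit 557101) (nat_lit 13) (.e (nat_lit 172066) (nat_lit 3) .nil))))) .nil))) (.nd (nat_lit 5) 
(.lf (nat_lit 446808) (.g (nat_lit 868) (.e (nat_lit 811012) (nat_lit 0) (.e (nat_lit 5780) (nat_lit 317) (.e (nat_lit 180248) (nat_lit 9) (.e (nat_lit 565252) (nat_lit 0) (.e (nat_lit 1586) (nat_lit 111) (.e (nat_lit 368384) (nat_lit 26) .nil)))))) (.g (nat_lit 5) .nil .nil))) 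
(.lf (nat_lit 446840) (.g (nat_lit 4305) (.e (nat_lit 811026) (nat_lit 8) (.e (nat_lit 294938) (nat_lit 9) (.e (nat_lit 336324) (nat_lit 18) (.e (nat_lit 204831) (nat_lit 18) (.e (nat_lit 57830) (nat_lit 250) (.e (nat_lit 1201) (nat_lit 88) (.e (nat_lit 65539) (nat_lit 0) (.e (nat_lit 2383) (nat_lit 155) .nil)))))))) (.g (nat_lit 4) .nil .nil)))))) 
(.nd (nat_lit 3) (.nd (nat_lit 4) (.nd (nat_lit 5) 
(.lf (nat_lit 446788) (.g (nat_lit 1832) (.e (nat_lit 811012) (nat_lit 0) (.e (nat_lit 5777) (nat_lit 317) (.e (nat_lit 180248) (nat_lit 9) (.e (nat_lit 565269) (nat_lit 6) (.e (nat_lit 81935) (nat_lit 20) (.e (nat_lit 2384) (nat_lit 155) .nil)))))) (.g (nat_lit 0) .nil .nil))) 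
(.lf (nat_lit 446820) (.g (nat_lit 1900) (.e (nat_lit 811018) (nat_lit 0) (.e (nat_lit 5626) (nat_lit 312) (.e (nat_lit 7936) (nat_lit 24) (.e (nat_lit 360474) (nat_lit 8) (.e (nat_lit 557060) (nat_lit 0) .nil))))) .nil))) (.nd (nat_lit 5) 
(.lf (nat_lit 446804) (.g (nat_lit 890) (.e (nat_lit 811012) (nat_lit 0) (.e (nat_lit 5780) (nat_lit 317) (.e (nat_lit 180241) (nat_lit 4) (.e (nat_lit 524340) (nat_lit 28) (.e (nat_lit 352287) (nat_lit 20) (.e (nat_lit 2383) (nat_lit 155) .nil)))))) (.g (nat_lit 0) .nil .nil))) 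
(.lf (nat_lit 446836) (.g (nat_lit 1526) (.e (nat_lit 818944) (nat_lit 7) (.e (nat_lit 286759) (nat_lit 12) (.e (nat_lit 385106) (nat_lit 50) (.e (nat_lit 786468) (nat_lit 27) .nil)))) .nil)))) (.nd (nat_lit 4) (.nd (nat_lit 5) 
(.lf (nat_lit 446796) (.g (nat_lit 976) (.e (nat_lit 811012) (nat_lit 0) (.e (nat_lit 5779) (nat_lit 317) (.e (nat_lit 180248) (nat_lit 9) (.e (nat_lit 565252) (nat_lit 0) (.e (nat_lit 1589) (nat_lit 111) (.e (nat_lit 368384) (nat_lit 26) .nil)))))) (.g (nat_lit 5) .nil .nil))) 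
(.lf (nat_lit 446828) (.g (nat_lit 1566) (.e (nat_lit 818944) (nat_lit 7) (.e (nat_lit 286759) (nat_lit 12) (.e (nat_lit 385094) (nat_lit 49) (.e (nat_lit 778320) (nat_lit 4) (.e (nat_lit 65624) (nat_lit 12) .nil))))) .nil))) (.nd (nat_lit 5) 
(.lf (nat_lit 446812) (.g (nat_lit 430) (.e (nat_lit 811012) (nat_lit 0) (.e (nat_lit 5780) (nat_lit 317) (.e (nat_lit 180248) (nat_lit 9) (.e (nat_lit 565252) (nat_lit 0) (.e (nat_lit 1599) (nat_lit 111) (.e (nat_lit 368384) (nat_lit 26) .nil)))))) (.g (nat_lit 5) .nil .nil))) 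
(.lf (nat_lit 446844) (.g (nat_lit 1434) (.e (nat_lit 811026) (nat_lit 8) (.e (nat_lit 294954) (nat_lit 12) (.e (nat_lit 385102) (nat_lit 50) (.e (nat_lit 786480) (nat_lit 29) (.e (nat_lit 352256) (nat_lit 0) (.e (nat_lit 3813) (nat_lit 231) .nil)))))) (.g (nat_lit 4) .nil .nil))))))) (.nd (nat_lit 2) (.nd (nat_lit 3) (.nd (nat_lit 4) (.nd (nat_lit 5) 
(.lf (nat_lit 446786) (.g (nat_lit 913) (.e (nat_lit 811012) (nat_lit 0) (.e (nat_lit 5777) (nat_lit 317) (.e (nat_lit 180248) (nat_lit 9) (.e (nat_lit 565269) (nat_lit 6) (.e (nat_lit 81933) (nat_lit 20) (.e (nat_lit 2383) (nat_lit 155) .nil)))))) (.g (nat_lit 0) .nil .nil))) 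
(.lf (nat_lit 446818) (.g (nat_lit 965) (.e (nat_lit 811018) (nat_lit 0) (.e (nat_lit 5626) (nat_lit 312) (.e (nat_lit 7936) (nat_lit 24) .nil))) .nil))) (.nd (nat_lit 5) 
(.lf (nat_lit 446802) (.g (nat_lit 2022) (.e (nat_lit 811012) (nat_lit 0) (.e (nat_lit 5779) (nat_lit 317) (.e (nat_lit 180248) (nat_lit 9) (.e (nat_lit 565269) (nat_lit 6) (.e (nat_lit 81935) (nat_lit 20) (.e (nat_lit 2384) (nat_lit 155) .nil)))))) (.g (nat_lit 0) .nil .nil))) 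
(.lf (nat_lit 446834) (.g (nat_lit 294) (.e (nat_lit 818944) (nat_lit 7) (.e (nat_lit 286759) (nat_lit 12) (.e (nat_lit 385106) (nat_lit 50) .nil))) .nil)))) (.nd (nat_lit 4) (.nd (nat_lit 5) 
(.lf (nat_lit 446794) (.g (nat_lit 657) (.e (nat_lit 811012) (nat_lit 0) (.e (nat_lit 5779) (nat_lit 317) (.e (nat_lit 188160) (nat_lit 8) (.e (nat_lit 557061) (nat_lit 0) (.e (nat_lit 1597) (nat_lit 111) (.e (nat_lit 368384) (nat_lit 26) .nil)))))) (.g (nat_lit 5) .nil .nil))) 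
(.lf (nat_lit 446826) (.g (nat_lit 24) (.e (nat_lit 811023) (nat_lit 4) (.e (nat_lit 49191) (nat_lit 12) (.e (nat_lit 57533) (nat_lit 46) .nil))) .nil))) (.nd (nat_lit 5) 
(.lf (nat_lit 446810) (.g (nat_lit 780) (.e (nat_lit 811012) (nat_lit 0) (.e (nat_lit 5780) (nat_lit 317) (.e (nat_lit 180248) (nat_lit 9) (.e (nat_lit 565252) (nat_lit 0) (.e (nat_lit 1595) (nat_lit 111) (.e (nat_lit 368384) (nat_lit 26) .nil)))))) (.g (nat_lit 5) .nil .nil))) 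
(.lf (nat_lit 446842) (.g (nat_lit 4025) (.e (nat_lit 811026) (nat_lit 8) (.e (nat_lit 294940) (nat_lit 9) (.e (nat_lit 336324) (nat_lit 18) (.e (nat_lit 204831) (nat_lit 18) (.e (nat_lit 57830) (nat_lit 250) (.e (nat_lit 1201) (nat_lit 88) (.e (nat_lit 65543) (nat_lit 0) (.e (nat_lit 2383) (nat_lit 155) .nil)))))))) (.g (nat_lit 4) .nil .nil)))))) 
(.nd (nat_lit 3) (.nd (nat_lit 4) (.nd (nat_lit 5) 
(.lf (nat_lit 446790) (.g (nat_lit 216) (.e (nat_lit 811012) (nat_lit 0) (.e (nat_lit 5779) (nat_lit 317) (.e (nat_lit 188160) (nat_lit 8) .nil))) .nil)) 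
(.lf (nat_lit 446822) (.g (nat_lit 546) (.e (nat_lit 811018) (nat_lit 0) (.e (nat_lit 5664) (nat_lit 312) (.e (nat_lit 7936) (nat_lit 24) .nil))) .nil))) (.nd (nat_lit 5) 
(.lf (nat_lit 446806) (.g (nat_lit 157) (.e (nat_lit 811012) (nat_lit 0) (.e (nat_lit 5780) (nat_lit 317) (.e (nat_lit 188160) (nat_lit 8) (.e (nat_lit 557061) (nat_lit 0) (.e (nat_lit 1585) (nat_lit 111) (.e (nat_lit 368384) (nat_lit 26) .nil)))))) (.g (nat_lit 5) .nil .nil))) 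
(.lf (nat_lit 446838) (.g (nat_lit 530) (.e (nat_lit 818944) (nat_lit 7) (.e (nat_lit 286762) (nat_lit 14) (.e (nat_lit 401457) (nat_lit 13) .nil))) .nil)))) (.nd (nat_lit 4) (.nd (nat_lit 5) 
(.lf (nat_lit 446798) (.g (nat_lit 776) (.e (nat_lit 811012) (nat_lit 0) (.e (nat_lit 5779) (nat_lit 317) (.e (nat_lit 180248) (nat_lit 9) (.e (nat_lit 565252) (nat_lit 0) (.e (nat_lit 1598) (nat_lit 111) (.e (nat_lit 368384) (nat_lit 26) .nil)))))) (.g (nat_lit 5) .nil .nil))) 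
(.lf (nat_lit 446830) (.g (nat_lit 1273) (.e (nat_lit 818944) (nat_lit 7) (.e (nat_lit 286759) (nat_lit 12) (.e (nat_lit 385094) (nat_lit 49) (.e (nat_lit 778326) (nat_lit 6) .nil)))) .nil))) (.nd (nat_lit 5) 
(.lf (nat_lit 446814) (.g (nat_lit 897) (.e (nat_lit 811012) (nat_lit 0) (.e (nat_lit 5780) (nat_lit 317) (.e (nat_lit 180248) (nat_lit 9) (.e (nat_lit 565269) (nat_lit 6) (.e (nat_lit 81933) (nat_lit 20) (.e (nat_lit 2383) (nat_lit 155) .nil)))))) (.g (nat_lit 0) .nil .nil))) 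
(.lf (nat_lit 446846) (.g (nat_lit 3194) (.e (nat_lit 811026) (nat_lit 8) (.e (nat_lit 294961) (nat_lit 14) (.e (nat_lit 401459) (nat_lit 13) (.e (nat_lit 483403) (nat_lit 26) (.e (nat_lit 385114) (nat_lit 53) .nil))))) .nil))))))) (.nd (nat_lit 1) (.nd (nat_lit 2) (.nd (nat_lit 3) (.nd (nat_lit 4) (.nd (nat_lit 5) 
(.lf (nat_lit 446785) (.g (nat_lit 1251) (.e (nat_lit 811012) (nat_lit 0) (.e (nat_lit 5777) (nat_lit 317) (.e (nat_lit 180248) (nat_lit 9) (.e (nat_lit 565269) (nat_lit 6) (.e (nat_lit 81931) (nat_lit 20) (.e (nat_lit 2384) (nat_lit 155) .nil)))))) (.g (nat_lit 0) .nil .nil))) 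
(.lf (nat_lit 446817) (.g (nat_lit 936) (.e (nat_lit 811018) (nat_lit 0) (.e (nat_lit 5293) (nat_lit 298) (.e (nat_lit 1633) (nat_lit 114) (.e (nat_lit 385106) (nat_lit 50) .nil)))) .nil))) (.nd (nat_lit 5) 
(.lf (nat_lit 446801) (.g (nat_lit 837) (.e (nat_lit 811012) (nat_lit 0) (.e (nat_lit 5779) (nat_lit 317) (.e (nat_lit 180248) (nat_lit 9) (.e (nat_lit 565269) (nat_lit 6) (.e (nat_lit 81934) (nat_lit 20) .nil))))) .nil)) 
(.lf (nat_lit 446833) (.g (nat_lit 1126) (.e (nat_lit 818944) (nat_lit 7) (.e (nat_lit 286759) (nat_lit 12) (.e (nat_lit 385094) (nat_lit 49) (.e (nat_lit 778327) (nat_lit 6) .nil)))) .nil)))) (.nd (nat_lit 4) (.nd (nat_lit 5) 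
(.lf (nat_lit 446793) (.g (nat_lit 355) (.e (nat_lit 811012) (nat_lit 0) (.e (nat_lit 5779) (nat_lit 317) (.e (nat_lit 188160) (nat_lit 8) (.e (nat_lit 557061) (nat_lit 0) (.e (nat_lit 1585) (nat_lit 111) (.e (nat_lit 368384) (nat_lit 26) .nil)))))) (.g (nat_lit 5) .nil .nil))) 
(.lf (nat_lit 446825) (.g (nat_lit 1426) (.e (nat_lit 818944) (nat_lit 2) (.e (nat_lit 32788) (nat_lit 10) (.e (nat_lit 73746) (nat_lit 3) (.e (nat_lit 516131) (nat_lit 3) (.e (nat_lit 221212) (nat_lit 22) .nil))))) .nil))) (.nd (nat_lit 5) 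
(.lf (nat_lit 446809) (.g (nat_lit 766) (.e (nat_lit 811012) (nat_lit 0) (.e (nat_lit 5780) (nat_lit 317) (.e (nat_lit 180248) (nat_lit 9) (.e (nat_lit 565252) (nat_lit 0) (.e (nat_lit 1589) (nat_lit 111) (.e (nat_lit 368384) (nat_lit 26) .nil)))))) (.g (nat_lit 5) .nil .nil))) 
(.lf (nat_lit 446841) (.g (nat_lit 3919) (.e (nat_lit 811026) (nat_lit 8) (.e (nat_lit 294940) (nat_lit 9) (.e (nat_lit 336324) (nat_lit 18) (.e (nat_lit 204831) (nat_lit 18) (.e (nat_lit 57830) (nat_lit 250) (.e (nat_lit 1201) (nat_lit 88) (.e (nat_lit 65539) (nat_lit 0) (.e (nat_lit 2383) (nat_lit 155) .nil)))))))) (.g (nat_lit 4) .nil .nil)))))) 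
(.nd (nat_lit 3) (.nd (nat_lit 4) (.nd (nat_lit 5) 
(.lf (nat_lit 446789) (.g (nat_lit 494) (.e (nat_lit 811012) (nat_lit 0) (.e (nat_lit 5779) (nat_lit 317) (.e (nat_lit 180241) (nat_lit 4) (.e (nat_lit 524340) (nat_lit 28) (.e (nat_lit 352286) (nat_lit 20) (.e (nat_lit 2383) (nat_lit 155) .nil)))))) (.g (nat_lit 4) .nil .nil))) 
(.lf (nat_lit 446821) (.g (nat_lit 1297) (.e (nat_lit 811018) (nat_lit 0) (.e (nat_lit 5629) (nat_lit 312) (.e (nat_lit 308) (nat_lit 23) (.e (nat_lit 352315) (nat_lit 23) (.e (nat_lit 106240) (nat_lit 15) .nil))))) .nil))) (.nd (nat_lit 5) 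
(.lf (nat_lit 446805) (.g (nat_lit 462) (.e (nat_lit 811012) (nat_lit 0) (.e (nat_lit 5780) (nat_lit 317) (.e (nat_lit 188160) (nat_lit 8) (.e (nat_lit 557060) (nat_lit 0) (.e (nat_lit 1597) (nat_lit 111) (.e (nat_lit 368384) (nat_lit 26) .nil)))))) (.g (nat_lit 5) .nil .nil))) 
(.lf (nat_lit 446837) (.g (nat_lit 1082) (.e (nat_lit 818944) (nat_lit 7) (.e (nat_lit 286759) (nat_lit 12) (.e (nat_lit 385106) (nat_lit 50) (.e (nat_lit 786470) (nat_lit 27) .nil)))) .nil)))) (.nd (nat_lit 4) (.nd (nat_lit 5) 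
(.lf (nat_lit 446797) (.g (nat_lit 989) (.e (nat_lit 811012) (nat_lit 0) (.e (nat_lit 5779) (nat_lit 317) (.e (nat_lit 180248) (nat_lit 9) (.e (nat_lit 565252) (nat_lit 0) (.e (nat_lit 1595) (nat_lit 111) (.e (nat_lit 368384) (nat_lit 26) .nil)))))) (.g (nat_lit 5) .nil .nil))) 
(.lf (nat_lit 446829) (.g (nat_lit 1877) (.e (nat_lit 818944) (nat_lit 7) (.e (nat_lit 286759) (nat_lit 12) (.e (nat_lit 385094) (nat_lit 49) (.e (nat_lit 778323) (nat_lit 5) (.e (nat_lit 81664) (nat_lit 41) .nil))))) .nil))) (.nd (nat_lit 5) 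
(.lf (nat_lit 446813) (.g (nat_lit 1238) (.e (nat_lit 811012) (nat_lit 0) (.e (nat_lit 5780) (nat_lit 317) (.e (nat_lit 180248) (nat_lit 9) (.e (nat_lit 565269) (nat_lit 6) (.e (nat_lit 81931) (nat_lit 20) (.e (nat_lit 2384) (nat_lit 155) .nil)))))) (.g (nat_lit 0) .nil .nil))) 
(.lf (nat_lit 446845) (.g (nat_lit 1713) (.e (nat_lit 811026) (nat_lit 8) (.e (nat_lit 294955) (nat_lit 12) (.e (nat_lit 385105) (nat_lit 50) (.e (nat_lit 786478) (nat_lit 29) (.e (nat_lit 352256) (nat_lit 0) (.e (nat_lit 3813) (nat_lit 231) .nil)))))) (.g (nat_lit 4) .nil .nil))))))) (.nd (nat_lit 2) (.nd (nat_lit 3) (.nd (nat_lit 4) (.nd (nat_lit 5) 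
(.lf (nat_lit 446787) (.g (nat_lit 1497) (.e (nat_lit 811012) (nat_lit 0) (.e (nat_lit 5777) (nat_lit 317) (.e (nat_lit 180248) (nat_lit 9) (.e (nat_lit 565269) (nat_lit 6) (.e (nat_lit 81935) (nat_lit 20) (.e (nat_lit 2383) (nat_lit 155) .nil)))))) (.g (nat_lit 0) .nil .nil))) 
(.lf (nat_lit 446819) (.g (nat_lit 1706) (.e (nat_lit 811018) (nat_lit 0) (.e (nat_lit 5626) (nat_lit 312) (.e (nat_lit 7936) (nat_lit 24) (.e (nat_lit 360474) (nat_lit 8) (.e (nat_lit 557059) (nat_lit 0) .nil))))) .nil))) (.nd (nat_lit 5) 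
(.lf (nat_lit 446803) (.g (nat_lit 587) (.e (nat_lit 811012) (nat_lit 0) (.e (nat_lit 5780) (nat_lit 317) (.e (nat_lit 180241) (nat_lit 4) (.e (nat_lit 524340) (nat_lit 28) (.e (nat_lit 352285) (nat_lit 20) (.e (nat_lit 2383) (nat_lit 155) .nil)))))) (.g (nat_lit 0) .nil .nil))) 
(.lf (nat_lit 446835) (.g (nat_lit 1195) (.e (nat_lit 818944) (nat_lit 7) (.e (nat_lit 286759) (nat_lit 12) (.e (nat_lit 385106) (nat_lit 50) (.e (nat_lit 786467) (nat_lit 27) .nil)))) .nil)))) (.nd (nat_lit 4) (.nd (nat_lit 5) 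
(.lf (nat_lit 446795) (.g (nat_lit 1072) (.e (nat_lit 811012) (nat_lit 0) (.e (nat_lit 5779) (nat_lit 317) (.e (nat_lit 180248) (nat_lit 9) (.e (nat_lit 565252) (nat_lit 0) (.e (nat_lit 1586) (nat_lit 111) (.e (nat_lit 368384) (nat_lit 26) .nil)))))) (.g (nat_lit 5) .nil .nil))) 
(.lf (nat_lit 446827) (.g (nat_lit 1789) (.e (nat_lit 811024) (nat_lit 5) (.e (nat_lit 270354) (nat_lit 8) (.e (nat_lit 303144) (nat_lit 13) (.e (nat_lit 483408) (nat_lit 26) (.e (nat_lit 385111) (nat_lit 53) .nil))))) (.g (nat_lit 5) .nil .nil)))) (.nd (nat_lit 5) 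
(.lf (nat_lit 446811) (.g (nat_lit 567) (.e (nat_lit 811012) (nat_lit 0) (.e (nat_lit 5780) (nat_lit 317) (.e (nat_lit 180248) (nat_lit 9) (.e (nat_lit 565252) (nat_lit 0) (.e (nat_lit 1598) (nat_lit 111) (.e (nat_lit 368384) (nat_lit 26) .nil)))))) (.g (nat_lit 5) .nil .nil))) 
(.lf (nat_lit 446843) (.g (nat_lit 891) (.e (nat_lit 811026) (nat_lit 8) (.e (nat_lit 294954) (nat_lit 12) (.e (nat_lit 385102) (nat_lit 50) (.e (nat_lit 786478) (nat_lit 29) (.e (nat_lit 352262) (nat_lit 0) .nil))))) .nil))))) (.nd (nat_lit 3) (.nd (nat_lit 4) (.nd (nat_lit 5) 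
(.lf (nat_lit 446791) (.g (nat_lit 303) (.e (nat_lit 811012) (nat_lit 0) (.e (nat_lit 5779) (nat_lit 317) (.e (nat_lit 188160) (nat_lit 8) (.e (nat_lit 557060) (nat_lit 0) (.e (nat_lit 1585) (nat_lit 111) (.e (nat_lit 368384) (nat_lit 26) .nil)))))) (.g (nat_lit 5) .nil .nil))) 
(.lf (nat_lit 446823) (.g (nat_lit 815) (.e (nat_lit 811021) (nat_lit 2) (.e (nat_lit 32787) (nat_lit 9) (.e (nat_lit 65625) (nat_lit 13) (.e (nat_lit 401152) (nat_lit 15) .nil)))) .nil))) (.nd (nat_lit 5) 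
(.lf (nat_lit 446807) (.g (nat_lit 459) (.e (nat_lit 811012) (nat_lit 0) (.e (nat_lit 5780) (nat_lit 317) (.e (nat_lit 188160) (nat_lit 8) (.e (nat_lit 557061) (nat_lit 0) (.e (nat_lit 1597) (nat_lit 111) (.e (nat_lit 368384) (nat_lit 26) .nil)))))) (.g (nat_lit 5) .nil .nil))) 
(.lf (nat_lit 446839) (.g (nat_lit 1430) (.e (nat_lit 818944) (nat_lit 7) (.e (nat_lit 286762) (nat_lit 14) (.e (nat_lit 401458) (nat_lit 13) (.e (nat_lit 483406) (nat_lit 26) .nil)))) .nil)))) (.nd (nat_lit 4) (.nd (nat_lit 5) 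
(.lf (nat_lit 446799) (.g (nat_lit 641) (.e (nat_lit 811012) (nat_lit 0) (.e (nat_lit 5779) (nat_lit 317) (.e (nat_lit 180248) (nat_lit 9) (.e (nat_lit 565252) (nat_lit 0) (.e (nat_lit 1599) (nat_lit 111) (.e (nat_lit 368384) (nat_lit 26) .nil)))))) (.g (nat_lit 5) .nil .nil))) 
(.lf (nat_lit 446831) (.g (nat_lit 1849) (.e (nat_lit 818944) (nat_lit 7) (.e (nat_lit 286759) (nat_lit 12) (.e (nat_lit 385094) (nat_lit 49) (.e (nat_lit 778326) (nat_lit 6) (.e (nat_lit 81922) (nat_lit 0) .nil))))) .nil))) (.nd (nat_lit 5) 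
(.lf (nat_lit 446815) (.g (nat_lit 1483) (.e (nat_lit 811012) (nat_lit 0) (.e (nat_lit 5780) (nat_lit 317) (.e (nat_lit 180248) (nat_lit 9) (.e (nat_lit 565269) (nat_lit 6) (.e (nat_lit 81935) (nat_lit 20) (.e (nat_lit 2383) (nat_lit 155) .nil)))))) (.g (nat_lit 0) .nil .nil))) 
(.lf (nat_lit 446847) (.g (nat_lit 807) (.e (nat_lit 818944) (nat_lit 8) (.e (nat_lit 294955) (nat_lit 12) (.e (nat_lit 385105) (nat_lit 50) (.e (nat_lit 786478) (nat_lit 29) .nil)))) .nil))))))))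

noncomputable def tv5494 : DT := (.nd (nat_lit 0) (.nd (nat_lit 1) (.nd (nat_lit 2) (.nd (nat_lit 3) (.nd (nat_lit 4) (.nd (nat_lit 5) 
(.lf (nat_lit 446848) (.g (nat_lit 1360) (.e (nat_lit 811027) (nat_lit 9) (.e (nat_lit 303127) (nat_lit 9) (.e (nat_lit 426428) (nat_lit 17) (.e (nat_lit 98048) (nat_lit 6) (.e (nat_lit 81935) (nat_lit 20) (.e (nat_lit 2383) (nat_lit 155) .nil)))))) (.g (nat_lit 5) .nil .nil))) 
(.lf (nat_lit 446880) (.g (nat_lit 1128) (.e (nat_lit 811029) (nat_lit 9) (.e (nat_lit 303139) (nat_lit 10) (.e (nat_lit 434241) (nat_lit 27) (.e (nat_lit 565252) (nat_lit 0) (.e (nat_lit 1589) (nat_lit 111) (.e (nat_lit 368384) (nat_lit 26) .nil)))))) (.g (nat_lit 5) .nil .nil)))) (.nd (nat_lit 5) 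
(.lf (nat_lit 446864) (.g (nat_lit 1050) (.e (nat_lit 811029) (nat_lit 9) (.e (nat_lit 303137) (nat_lit 10) (.e (nat_lit 434241) (nat_lit 27) (.e (nat_lit 565252) (nat_lit 0) (.e (nat_lit 1599) (nat_lit 111) (.e (nat_lit 368384) (nat_lit 26) .nil)))))) (.g (nat_lit 5) .nil .nil))) 
(.lf (nat_lit 446896) (.g (nat_lit 1974) (.e (nat_lit 811029) (nat_lit 9) (.e (nat_lit 303140) (nat_lit 10) (.e (nat_lit 434241) (nat_lit 27) (.e (nat_lit 565269) (nat_lit 6) (.e (nat_lit 81935) (nat_lit 20) (.e (nat_lit 2379) (nat_lit 155) .nil)))))) (.g (nat_lit 5) .nil .nil))))) (.nd (nat_lit 4) (.nd (nat_lit 5) 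
(.lf (nat_lit 446856) (.g (nat_lit 1612) (.e (nat_lit 811029) (nat_lit 9) (.e (nat_lit 303132) (nat_lit 9) (.e (nat_lit 426125) (nat_lit 2) (.e (nat_lit 204544) (nat_lit 0) .nil)))) .nil)) 
(.lf (nat_lit 446888) (.g (nat_lit 2390) (.e (nat_lit 811029) (nat_lit 9) (.e (nat_lit 303139) (nat_lit 10) (.e (nat_lit 434241) (nat_lit 27) (.e (nat_lit 565269) (nat_lit 6) (.e (nat_lit 81935) (nat_lit 20) (.e (nat_lit 2384) (nat_lit 155) .nil)))))) (.g (nat_lit 0) .nil .nil)))) (.nd (nat_lit 5) 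
(.lf (nat_lit 446872) (.g (nat_lit 1252) (.e (nat_lit 811029) (nat_lit 9) (.e (nat_lit 303138) (nat_lit 10) (.e (nat_lit 434241) (nat_lit 27) (.e (nat_lit 565252) (nat_lit 0) (.e (nat_lit 1589) (nat_lit 111) (.e (nat_lit 368384) (nat_lit 26) .nil)))))) (.g (nat_lit 5) .nil .nil))) 
(.lf (nat_lit 446904) (.g (nat_lit 2161) (.e (nat_lit 811031) (nat_lit 11) (.e (nat_lit 881) (nat_lit 75) (.e (nat_lit 778466) (nat_lit 11) (.e (nat_lit 24617) (nat_lit 7) (.e (nat_lit 319528) (nat_lit 16) .nil))))) .nil))))) (.nd (nat_lit 3) (.nd (nat_lit 4) (.nd (nat_lit 5) 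
(.lf (nat_lit 446852) (.g (nat_lit 996) (.e (nat_lit 811029) (nat_lit 9) (.e (nat_lit 303130) (nat_lit 9) (.e (nat_lit 426025) (nat_lit 0) (.e (nat_lit 3279) (nat_lit 200) (.e (nat_lit 557061) (nat_lit 0) .nil))))) .nil)) 
(.lf (nat_lit 446884) (.g (nat_lit 1763) (.e (nat_lit 811029) (nat_lit 9) (.e (nat_lit 303139) (nat_lit 10) (.e (nat_lit 434241) (nat_lit 27) (.e (nat_lit 565269) (nat_lit 6) (.e (nat_lit 81931) (nat_lit 20) (.e (nat_lit 2384) (nat_lit 155) .nil)))))) (.g (nat_lit 0) .nil .nil)))) (.nd (nat_lit 5) 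
(.lf (nat_lit 446868) (.g (nat_lit 1241) (.e (nat_lit 811029) (nat_lit 9) (.e (nat_lit 303137) (nat_lit 10) (.e (nat_lit 434241) (nat_lit 27) (.e (nat_lit 565269) (nat_lit 6) (.e (nat_lit 81934) (nat_lit 20) (.e (nat_lit 2383) (nat_lit 155) .nil)))))) (.g (nat_lit 4) .nil .nil))) 
(.lf (nat_lit 446900) (.g (nat_lit 1131) (.e (nat_lit 811030) (nat_lit 10) (.e (nat_lit 311325) (nat_lit 9) (.e (nat_lit 426428) (nat_lit 17) (.e (nat_lit 98048) (nat_lit 6) .nil)))) .nil)))) (.nd (nat_lit 4) (.nd (nat_lit 5) 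
(.lf (nat_lit 446860) (.g (nat_lit 1433) (.e (nat_lit 811029) (nat_lit 9) (.e (nat_lit 303137) (nat_lit 10) (.e (nat_lit 434241) (nat_lit 27) (.e (nat_lit 565252) (nat_lit 0) (.e (nat_lit 1586) (nat_lit 111) (.e (nat_lit 368384) (nat_lit 26) .nil)))))) (.g (nat_lit 5) .nil .nil))) 
(.lf (nat_lit 446892) (.g (nat_lit 1275) (.e (nat_lit 811029) (nat_lit 9) (.e (nat_lit 303140) (nat_lit 10) (.e (nat_lit 434241) (nat_lit 27) (.e (nat_lit 565252) (nat_lit 0) (.e (nat_lit 1598) (nat_lit 111) (.e (nat_lit 368384) (nat_lit 26) .nil)))))) (.g (nat_lit 5) .nil .nil)))) (.nd (nat_lit 5) 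
(.lf (nat_lit 446876) (.g (nat_lit 1150) (.e (nat_lit 811029) (nat_lit 9) (.e (nat_lit 303138) (nat_lit 10) (.e (nat_lit 434241) (nat_lit 27) (.e (nat_lit 565269) (nat_lit 6) (.e (nat_lit 81934) (nat_lit 20) (.e (nat_lit 2383) (nat_lit 155) .nil)))))) (.g (nat_lit 4) .nil .nil))) 
(.lf (nat_lit 446908) (.g (nat_lit 1680) (.e (nat_lit 811043) (nat_lit 12) (.e (nat_lit 8433) (nat_lit 138) (.e (nat_lit 1222) (nat_lit 90) (.e (nat_lit 81954) (nat_lit 23) (.e (nat_lit 106240) (nat_lit 15) .nil))))) .nil)))))) (.nd (nat_lit 2) (.nd (nat_lit 3) (.nd (nat_lit 4) (.nd (nat_lit 5) 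
(.lf (nat_lit 446850) (.g (nat_lit 704) (.e (nat_lit 811027) (nat_lit 9) (.e (nat_lit 303155) (nat_lit 29) (.e (nat_lit 352315) (nat_lit 23) (.e (nat_lit 106240) (nat_lit 15) .nil)))) .nil)) 
(.lf (nat_lit 446882) (.g (nat_lit 926) (.e (nat_lit 811029) (nat_lit 9) (.e (nat_lit 303139) (nat_lit 10) (.e (nat_lit 434241) (nat_lit 27) (.e (nat_lit 565252) (nat_lit 0) (.e (nat_lit 1598) (nat_lit 111) (.e (nat_lit 368384) (nat_lit 26) .nil)))))) (.g (nat_lit 5) .nil .nil)))) (.nd (nat_lit 5) 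
(.lf (nat_lit 446866) (.g (nat_lit 1054) (.e (nat_lit 811029) (nat_lit 9) (.e (nat_lit 303137) (nat_lit 10) (.e (nat_lit 434241) (nat_lit 27) (.e (nat_lit 565269) (nat_lit 6) (.e (nat_lit 81933) (nat_lit 20) .nil))))) .nil)) 
(.lf (nat_lit 446898) (.g (nat_lit 842) (.e (nat_lit 811030) (nat_lit 10) (.e (nat_lit 311322) (nat_lit 9) (.e (nat_lit 426432) (nat_lit 17) (.e (nat_lit 98048) (nat_lit 6) .nil)))) .nil)))) (.nd (nat_lit 4) (.nd (nat_lit 5) 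
(.lf (nat_lit 446858) (.g (nat_lit 1217) (.e (nat_lit 811029) (nat_lit 9) (.e (nat_lit 303137) (nat_lit 10) (.e (nat_lit 434241) (nat_lit 27) (.e (nat_lit 565251) (nat_lit 0) (.e (nat_lit 1598) (nat_lit 111) (.e (nat_lit 368384) (nat_lit 26) .nil)))))) (.g (nat_lit 5) .nil .nil))) 
(.lf (nat_lit 446890) (.g (nat_lit 1478) (.e (nat_lit 811029) (nat_lit 9) (.e (nat_lit 303140) (nat_lit 10) (.e (nat_lit 434241) (nat_lit 27) (.e (nat_lit 565252) (nat_lit 0) (.e (nat_lit 1589) (nat_lit 111) (.e (nat_lit 368384) (nat_lit 26) .nil)))))) (.g (nat_lit 5) .nil .nil)))) (.nd (nat_lit 5) 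
(.lf (nat_lit 446874) (.g (nat_lit 1048) (.e (nat_lit 811029) (nat_lit 9) (.e (nat_lit 303138) (nat_lit 10) (.e (nat_lit 434241) (nat_lit 27) (.e (nat_lit 565252) (nat_lit 0) (.e (nat_lit 1598) (nat_lit 111) (.e (nat_lit 368384) (nat_lit 26) .nil)))))) (.g (nat_lit 5) .nil .nil))) 
(.lf (nat_lit 446906) (.g (nat_lit 1205) (.e (nat_lit 811032) (nat_lit 11) (.e (nat_lit 13) (nat_lit 0) (.e (nat_lit 7125) (nat_lit 382) (.e (nat_lit 1201) (nat_lit 88) (.e (nat_lit 65583) (nat_lit 7) .nil))))) .nil))))) (.nd (nat_lit 3) (.nd (nat_lit 4) (.nd (nat_lit 5) 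
(.lf (nat_lit 446854) (.g (nat_lit 446) (.e (nat_lit 811029) (nat_lit 9) (.e (nat_lit 303132) (nat_lit 9) (.e (nat_lit 426125) (nat_lit 2) .nil))) .nil)) 
(.lf (nat_lit 446886) (.g (nat_lit 1645) (.e (nat_lit 811029) (nat_lit 9) (.e (nat_lit 303139) (nat_lit 10) (.e (nat_lit 434241) (nat_lit 27) (.e (nat_lit 565269) (nat_lit 6) (.e (nat_lit 81935) (nat_lit 20) (.e (nat_lit 2379) (nat_lit 155) .nil)))))) (.g (nat_lit 5) .nil .nil)))) (.nd (nat_lit 5) 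
(.lf (nat_lit 446870) (.g (nat_lit 2188) (.e (nat_lit 811029) (nat_lit 9) (.e (nat_lit 303137) (nat_lit 10) (.e (nat_lit 434241) (nat_lit 27) (.e (nat_lit 565269) (nat_lit 6) (.e (nat_lit 81935) (nat_lit 20) (.e (nat_lit 2383) (nat_lit 155) .nil)))))) (.g (nat_lit 0) .nil .nil))) 
(.lf (nat_lit 446902) (.g (nat_lit 859) (.e (nat_lit 811030) (nat_lit 10) (.e (nat_lit 311358) (nat_lit 29) (.e (nat_lit 352313) (nat_lit 23) (.e (nat_lit 106240) (nat_lit 15) .nil)))) .nil)))) (.nd (nat_lit 4) (.nd (nat_lit 5) 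
(.lf (nat_lit 446862) (.g (nat_lit 1400) (.e (nat_lit 811029) (nat_lit 9) (.e (nat_lit 303137) (nat_lit 10) (.e (nat_lit 434241) (nat_lit 27) (.e (nat_lit 565252) (nat_lit 0) (.e (nat_lit 1595) (nat_lit 111) (.e (nat_lit 368384) (nat_lit 26) .nil)))))) (.g (nat_lit 5) .nil .nil))) 
(.lf (nat_lit 446894) (.g (nat_lit 1328) (.e (nat_lit 811029) (nat_lit 9) (.e (nat_lit 303140) (nat_lit 10) (.e (nat_lit 434241) (nat_lit 27) (.e (nat_lit 565269) (nat_lit 6) (.e (nat_lit 81934) (nat_lit 20) .nil))))) .nil))) (.nd (nat_lit 5) 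
(.lf (nat_lit 446878) (.g (nat_lit 2105) (.e (nat_lit 811029) (nat_lit 9) (.e (nat_lit 303138) (nat_lit 10) (.e (nat_lit 434241) (nat_lit 27) (.e (nat_lit 565269) (nat_lit 6) (.e (nat_lit 81935) (nat_lit 20) (.e (nat_lit 2383) (nat_lit 155) .nil)))))) (.g (nat_lit 0) .nil .nil))) 
(.lf (nat_lit 446910) (.g (nat_lit 2202) (.e (nat_lit 811045) (nat_lit 14) (.e (nat_lit 40992) (nat_lit 10) (.e (nat_lit 8325) (nat_lit 69) (.e (nat_lit 557109) (nat_lit 15) (.e (nat_lit 188461) (nat_lit 26) (.e (nat_lit 253983) (nat_lit 10) (.e (nat_lit 8283) (nat_lit 49) .nil))))))) (.g (nat_lit 5) .nil .nil)))))))) 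
(.nd (nat_lit 1) (.nd (nat_lit 2) (.nd (nat_lit 3) (.nd (nat_lit 4) (.nd (nat_lit 5) 
(.lf (nat_lit 446849) (.g (nat_lit 798) (.e (nat_lit 811027) (nat_lit 9) (.e (nat_lit 303143) (nat_lit 12) (.e (nat_lit 475171) (nat_lit 22) .nil))) .nil)) 
(.lf (nat_lit 446881) (.g (nat_lit 1139) (.e (nat_lit 811029) (nat_lit 9) (.e (nat_lit 303139) (nat_lit 10) (.e (nat_lit 434241) (nat_lit 27) (.e (nat_lit 565252) (nat_lit 0) (.e (nat_lit 1595) (nat_lit 111) (.e (nat_lit 368384) (nat_lit 26) .nil)))))) (.g (nat_lit 5) .nil .nil)))) (.nd (nat_lit 5) 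
(.lf (nat_lit 446865) (.g (nat_lit 2021) (.e (nat_lit 811029) (nat_lit 9) (.e (nat_lit 303137) (nat_lit 10) (.e (nat_lit 434241) (nat_lit 27) (.e (nat_lit 565269) (nat_lit 6) (.e (nat_lit 81931) (nat_lit 20) (.e (nat_lit 2384) (nat_lit 155) .nil)))))) (.g (nat_lit 0) .nil .nil))) 
(.lf (nat_lit 446897) (.g (nat_lit 2340) (.e (nat_lit 811029) (nat_lit 9) (.e (nat_lit 303140) (nat_lit 10) (.e (nat_lit 434241) (nat_lit 27) (.e (nat_lit 565269) (nat_lit 6) (.e (nat_lit 81935) (nat_lit 20) (.e (nat_lit 2383) (nat_lit 155) .nil)))))) (.g (nat_lit 0) .nil .nil))))) (.nd (nat_lit 4) (.nd (nat_lit 5) 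
(.lf (nat_lit 446857) (.g (nat_lit 1410) (.e (nat_lit 811029) (nat_lit 9) (.e (nat_lit 303137) (nat_lit 10) (.e (nat_lit 434241) (nat_lit 27) (.e (nat_lit 565251) (nat_lit 0) (.e (nat_lit 1586) (nat_lit 111) (.e (nat_lit 368384) (nat_lit 26) .nil)))))) (.g (nat_lit 5) .nil .nil))) 
(.lf (nat_lit 446889) (.g (nat_lit 1526) (.e (nat_lit 811029) (nat_lit 9) (.e (nat_lit 303140) (nat_lit 10) (.e (nat_lit 434241) (nat_lit 27) (.e (nat_lit 565252) (nat_lit 0) (.e (nat_lit 1586) (nat_lit 111) (.e (nat_lit 368384) (nat_lit 26) .nil)))))) (.g (nat_lit 5) .nil .nil)))) (.nd (nat_lit 5) 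
(.lf (nat_lit 446873) (.g (nat_lit 1262) (.e (nat_lit 811029) (nat_lit 9) (.e (nat_lit 303138) (nat_lit 10) (.e (nat_lit 434241) (nat_lit 27) (.e (nat_lit 565252) (nat_lit 0) (.e (nat_lit 1595) (nat_lit 111) (.e (nat_lit 368384) (nat_lit 26) .nil)))))) (.g (nat_lit 5) .nil .nil))) 
(.lf (nat_lit 446905) (.g (nat_lit 2521) (.e (nat_lit 811031) (nat_lit 11) (.e (nat_lit 882) (nat_lit 75) (.e (nat_lit 778466) (nat_lit 11) (.e (nat_lit 24617) (nat_lit 7) (.e (nat_lit 319534) (nat_lit 16) .nil))))) .nil))))) (.nd (nat_lit 3) (.nd (nat_lit 4) (.nd (nat_lit 5) 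
(.lf (nat_lit 446853) (.g (nat_lit 1943) (.e (nat_lit 811029) (nat_lit 9) (.e (nat_lit 303131) (nat_lit 9) (.e (nat_lit 426125) (nat_lit 2) (.e (nat_lit 196616) (nat_lit 0) (.e (nat_lit 7936) (nat_lit 24) .nil))))) .nil)) 
(.lf (nat_lit 446885) (.g (nat_lit 1047) (.e (nat_lit 811029) (nat_lit 9) (.e (nat_lit 303139) (nat_lit 10) (.e (nat_lit 434241) (nat_lit 27) (.e (nat_lit 565269) (nat_lit 6) (.e (nat_lit 81934) (nat_lit 20) (.e (nat_lit 2383) (nat_lit 155) .nil)))))) (.g (nat_lit 4) .nil .nil)))) (.nd (nat_lit 5) 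
(.lf (nat_lit 446869) (.g (nat_lit 1783) (.e (nat_lit 811029) (nat_lit 9) (.e (nat_lit 303137) (nat_lit 10) (.e (nat_lit 434241) (nat_lit 27) (.e (nat_lit 565269) (nat_lit 6) (.e (nat_lit 81934) (nat_lit 20) (.e (nat_lit 2384) (nat_lit 155) .nil)))))) (.g (nat_lit 0) .nil .nil))) 
(.lf (nat_lit 446901) (.g (nat_lit 1503) (.e (nat_lit 811030) (nat_lit 10) (.e (nat_lit 311325) (nat_lit 9) (.e (nat_lit 426432) (nat_lit 17) (.e (nat_lit 98048) (nat_lit 6) (.e (nat_lit 81935) (nat_lit 20) (.e (nat_lit 2384) (nat_lit 155) .nil)))))) (.g (nat_lit 5) .nil .nil))))) (.nd (nat_lit 4) (.nd (nat_lit 5) 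
(.lf (nat_lit 446861) (.g (nat_lit 1389) (.e (nat_lit 811029) (nat_lit 9) (.e (nat_lit 303137) (nat_lit 10) (.e (nat_lit 434241) (nat_lit 27) (.e (nat_lit 565252) (nat_lit 0) (.e (nat_lit 1589) (nat_lit 111) (.e (nat_lit 368384) (nat_lit 26) .nil)))))) (.g (nat_lit 5) .nil .nil))) 
(.lf (nat_lit 446893) (.g (nat_lit 1140) (.e (nat_lit 811029) (nat_lit 9) (.e (nat_lit 303140) (nat_lit 10) (.e (nat_lit 434241) (nat_lit 27) (.e (nat_lit 565252) (nat_lit 0) (.e (nat_lit 1599) (nat_lit 111) (.e (nat_lit 368384) (nat_lit 26) .nil)))))) (.g (nat_lit 5) .nil .nil)))) (.nd (nat_lit 5) 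
(.lf (nat_lit 446877) (.g (nat_lit 1732) (.e (nat_lit 811029) (nat_lit 9) (.e (nat_lit 303138) (nat_lit 10) (.e (nat_lit 434241) (nat_lit 27) (.e (nat_lit 565269) (nat_lit 6) (.e (nat_lit 81935) (nat_lit 20) (.e (nat_lit 2379) (nat_lit 155) .nil)))))) (.g (nat_lit 5) .nil .nil))) 
(.lf (nat_lit 446909) (.g (nat_lit 2149) (.e (nat_lit 811045) (nat_lit 14) (.e (nat_lit 40965) (nat_lit 0) (.e (nat_lit 1656) (nat_lit 115) (.e (nat_lit 393275) (nat_lit 23) (.e (nat_lit 426140) (nat_lit 3) (.e (nat_lit 204821) (nat_lit 17) (.e (nat_lit 7936) (nat_lit 155) .nil))))))) (.g (nat_lit 6) .nil .nil))))))) (.nd (nat_lit 2) (.nd (nat_lit 3) (.nd (nat_lit 4) (.nd (nat_lit 5) 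
(.lf (nat_lit 446851) (.g (nat_lit 1528) (.e (nat_lit 811028) (nat_lit 9) (.e (nat_lit 303140) (nat_lit 10) (.e (nat_lit 434241) (nat_lit 27) (.e (nat_lit 565269) (nat_lit 6) (.e (nat_lit 81935) (nat_lit 20) (.e (nat_lit 2384) (nat_lit 155) .nil)))))) (.g (nat_lit 4) .nil .nil))) 
(.lf (nat_lit 446883) (.g (nat_lit 789) (.e (nat_lit 811029) (nat_lit 9) (.e (nat_lit 303139) (nat_lit 10) (.e (nat_lit 434241) (nat_lit 27) (.e (nat_lit 565252) (nat_lit 0) (.e (nat_lit 1599) (nat_lit 111) (.e (nat_lit 368384) (nat_lit 26) .nil)))))) (.g (nat_lit 5) .nil .nil)))) (.nd (nat_lit 5) 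
(.lf (nat_lit 446867) (.g (nat_lit 1068) (.e (nat_lit 811029) (nat_lit 9) (.e (nat_lit 303137) (nat_lit 10) (.e (nat_lit 434241) (nat_lit 27) (.e (nat_lit 565269) (nat_lit 6) (.e (nat_lit 81934) (nat_lit 20) .nil))))) .nil)) 
(.lf (nat_lit 446899) (.g (nat_lit 1166) (.e (nat_lit 811030) (nat_lit 10) (.e (nat_lit 311324) (nat_lit 9) (.e (nat_lit 426428) (nat_lit 17) (.e (nat_lit 98048) (nat_lit 6) (.e (nat_lit 81935) (nat_lit 20) (.e (nat_lit 2383) (nat_lit 155) .nil)))))) (.g (nat_lit 5) .nil .nil))))) (.nd (nat_lit 4) (.nd (nat_lit 5) 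
(.lf (nat_lit 446859) (.g (nat_lit 560) (.e (nat_lit 811029) (nat_lit 9) (.e (nat_lit 303137) (nat_lit 10) (.e (nat_lit 434241) (nat_lit 27) (.e (nat_lit 565252) (nat_lit 0) .nil)))) .nil)) 
(.lf (nat_lit 446891) (.g (nat_lit 1489) (.e (nat_lit 811029) (nat_lit 9) (.e (nat_lit 303140) (nat_lit 10) (.e (nat_lit 434241) (nat_lit 27) (.e (nat_lit 565252) (nat_lit 0) (.e (nat_lit 1595) (nat_lit 111) (.e (nat_lit 368384) (nat_lit 26) .nil)))))) (.g (nat_lit 5) .nil .nil)))) (.nd (nat_lit 5) 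
(.lf (nat_lit 446875) (.g (nat_lit 913) (.e (nat_lit 811029) (nat_lit 9) (.e (nat_lit 303138) (nat_lit 10) (.e (nat_lit 434241) (nat_lit 27) (.e (nat_lit 565252) (nat_lit 0) (.e (nat_lit 1599) (nat_lit 111) (.e (nat_lit 368384) (nat_lit 26) .nil)))))) (.g (nat_lit 5) .nil .nil))) 
(.lf (nat_lit 446907) (.g (nat_lit 2039) (.e (nat_lit 811038) (nat_lit 11) (.e (nat_lit 913) (nat_lit 75) (.e (nat_lit 778466) (nat_lit 11) (.e (nat_lit 24617) (nat_lit 7) (.e (nat_lit 319531) (nat_lit 16) .nil))))) .nil))))) (.nd (nat_lit 3) (.nd (nat_lit 4) (.nd (nat_lit 5) 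
(.lf (nat_lit 446855) (.g (nat_lit 2195) (.e (nat_lit 811029) (nat_lit 9) (.e (nat_lit 303132) (nat_lit 9) (.e (nat_lit 426125) (nat_lit 2) (.e (nat_lit 196616) (nat_lit 0) .nil)))) .nil)) 
(.lf (nat_lit 446887) (.g (nat_lit 2006) (.e (nat_lit 811029) (nat_lit 9) (.e (nat_lit 303139) (nat_lit 10) (.e (nat_lit 434241) (nat_lit 27) (.e (nat_lit 565269) (nat_lit 6) (.e (nat_lit 81935) (nat_lit 20) (.e (nat_lit 2383) (nat_lit 155) .nil)))))) (.g (nat_lit 0) .nil .nil)))) (.nd (nat_lit 5) 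
(.lf (nat_lit 446871) (.g (nat_lit 1301) (.e (nat_lit 811029) (nat_lit 9) (.e (nat_lit 303138) (nat_lit 10) (.e (nat_lit 434241) (nat_lit 27) (.e (nat_lit 565252) (nat_lit 0) (.e (nat_lit 1586) (nat_lit 111) (.e (nat_lit 368384) (nat_lit 26) .nil)))))) (.g (nat_lit 5) .nil .nil))) 
(.lf (nat_lit 446903) (.g (nat_lit 893) (.e (nat_lit 811030) (nat_lit 10) (.e (nat_lit 311358) (nat_lit 29) (.e (nat_lit 352315) (nat_lit 23) (.e (nat_lit 106240) (nat_lit 15) .nil)))) .nil)))) (.nd (nat_lit 4) (.nd (nat_lit 5) 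
(.lf (nat_lit 446863) (.g (nat_lit 1188) (.e (nat_lit 811029) (nat_lit 9) (.e (nat_lit 303137) (nat_lit 10) (.e (nat_lit 434241) (nat_lit 27) (.e (nat_lit 565252) (nat_lit 0) (.e (nat_lit 1598) (nat_lit 111) (.e (nat_lit 368384) (nat_lit 26) .nil)))))) (.g (nat_lit 5) .nil .nil))) 
(.lf (nat_lit 446895) (.g (nat_lit 1389) (.e (nat_lit 811029) (nat_lit 9) (.e (nat_lit 303140) (nat_lit 10) (.e (nat_lit 434241) (nat_lit 27) (.e (nat_lit 565269) (nat_lit 6) (.e (nat_lit 81934) (nat_lit 20) (.e (nat_lit 2383) (nat_lit 155) .nil)))))) (.g (nat_lit 4) .nil .nil)))) (.nd (nat_lit 5) 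
(.lf (nat_lit 446879) (.g (nat_lit 1170) (.e (nat_lit 811029) (nat_lit 9) (.e (nat_lit 303139) (nat_lit 10) (.e (nat_lit 434241) (nat_lit 27) (.e (nat_lit 565252) (nat_lit 0) (.e (nat_lit 1586) (nat_lit 111) (.e (nat_lit 368384) (nat_lit 26) .nil)))))) (.g (nat_lit 5) .nil .nil))) 
(.lf (nat_lit 446911) (.g (nat_lit 949) (.e (nat_lit 811045) (nat_lit 14) (.e (nat_lit 40993) (nat_lit 11) (.e (nat_lit 24617) (nat_lit 7) (.e (nat_lit 319530) (nat_lit 16) .nil)))) .nil))))))))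

noncomputable def tv5495 : DT := (.nd (nat_lit 0) (.nd (nat_lit 1) (.nd (nat_lit 2) (.nd (nat_lit 3) (.nd (nat_lit 4) (.nd (nat_lit 5) 
(.lf (nat_lit 446912) (.g (nat_lit 886) (.e (nat_lit 811045) (nat_lit 14) (.e (nat_lit 40995) (nat_lit 11) (.e (nat_lit 24617) (nat_lit 7) (.e (nat_lit 319511) (nat_lit 10) .nil)))) .nil)) 
(.lf (nat_lit 446944) (.g (nat_lit 1554) (.e (nat_lit 819217) (nat_lit 4) (.e (nat_lit 172113) (nat_lit 10) (.e (nat_lit 434248) (nat_lit 28) (.e (nat_lit 573503) (nat_lit 18) .nil)))) .nil))) (.nd (nat_lit 5) 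
(.lf (nat_lit 446928) (.g (nat_lit 969) (.e (nat_lit 818944) (nat_lit 14) (.e (nat_lit 40997) (nat_lit 11) (.e (nat_lit 24617) (nat_lit 7) (.e (nat_lit 319528) (nat_lit 16) .nil)))) .nil)) 
(.lf (nat_lit 446960) (.g (nat_lit 2128) (.e (nat_lit 819219) (nat_lit 4) (.e (nat_lit 172106) (nat_lit 10) (.e (nat_lit 434241) (nat_lit 27) (.e (nat_lit 565269) (nat_lit 6) (.e (nat_lit 81946) (nat_lit 20) (.e (nat_lit 2390) (nat_lit 156) .nil)))))) (.g (nat_lit 5) .nil .nil))))) (.nd (nat_lit 4) (.nd (nat_lit 5) 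
(.lf (nat_lit 446920) (.g (nat_lit 2760) (.e (nat_lit 811045) (nat_lit 14) (.e (nat_lit 40996) (nat_lit 11) (.e (nat_lit 24617) (nat_lit 7) (.e (nat_lit 319530) (nat_lit 16) (.e (nat_lit 286759) (nat_lit 12) (.e (nat_lit 385114) (nat_lit 53) .nil)))))) (.g (nat_lit 5) .nil .nil))) 
(.lf (nat_lit 446952) (.g (nat_lit 487) (.e (nat_lit 819218) (nat_lit 4) (.e (nat_lit 172116) (nat_lit 10) (.e (nat_lit 434241) (nat_lit 27) (.e (nat_lit 565267) (nat_lit 4) .nil)))) .nil))) (.nd (nat_lit 5) 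
(.lf (nat_lit 446936) (.g (nat_lit 1769) (.e (nat_lit 819203) (nat_lit 0) (.e (nat_lit 3027) (nat_lit 187) (.e (nat_lit 450584) (nat_lit 9) (.e (nat_lit 565252) (nat_lit 0) (.e (nat_lit 1586) (nat_lit 111) (.e (nat_lit 360493) (nat_lit 27) .nil)))))) (.g (nat_lit 6) .nil .nil))) 
(.lf (nat_lit 446968) (.g (nat_lit 1763) (.e (nat_lit 819219) (nat_lit 4) (.e (nat_lit 172107) (nat_lit 10) (.e (nat_lit 434241) (nat_lit 27) (.e (nat_lit 565269) (nat_lit 6) (.e (nat_lit 81946) (nat_lit 20) (.e (nat_lit 2390) (nat_lit 156) .nil)))))) (.g (nat_lit 5) .nil .nil)))))) (.nd (nat_lit 3) (.nd (nat_lit 4) (.nd (nat_lit 5) 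
(.lf (nat_lit 446916) (.g (nat_lit 2689) (.e (nat_lit 811045) (nat_lit 14) (.e (nat_lit 40996) (nat_lit 11) (.e (nat_lit 24617) (nat_lit 7) (.e (nat_lit 319528) (nat_lit 16) (.e (nat_lit 286759) (nat_lit 12) (.e (nat_lit 385113) (nat_lit 53) .nil)))))) (.g (nat_lit 6) .nil .nil))) 
(.lf (nat_lit 446948) (.g (nat_lit 1598) (.e (nat_lit 819218) (nat_lit 4) (.e (nat_lit 172106) (nat_lit 10) (.e (nat_lit 434241) (nat_lit 27) (.e (nat_lit 565269) (nat_lit 6) (.e (nat_lit 81947) (nat_lit 20) (.e (nat_lit 2391) (nat_lit 156) .nil)))))) (.g (nat_lit 4) .nil .nil)))) (.nd (nat_lit 5) 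
(.lf (nat_lit 446932) (.g (nat_lit 1424) (.e (nat_lit 819203) (nat_lit 0) (.e (nat_lit 3015) (nat_lit 187) (.e (nat_lit 450562) (nat_lit 0) (.e (nat_lit 4275) (nat_lit 252) .nil)))) .nil)) 
(.lf (nat_lit 446964) (.g (nat_lit 1041) (.e (nat_lit 819219) (nat_lit 4) (.e (nat_lit 172107) (nat_lit 10) (.e (nat_lit 434241) (nat_lit 27) (.e (nat_lit 565252) (nat_lit 0) (.e (nat_lit 1592) (nat_lit 111) (.e (nat_lit 360493) (nat_lit 27) .nil)))))) (.g (nat_lit 0) .nil .nil))))) (.nd (nat_lit 4) (.nd (nat_lit 5) 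
(.lf (nat_lit 446924) (.g (nat_lit 1391) (.e (nat_lit 811045) (nat_lit 14) (.e (nat_lit 40997) (nat_lit 11) (.e (nat_lit 24617) (nat_lit 7) (.e (nat_lit 319530) (nat_lit 16) (.e (nat_lit 286748) (nat_lit 9) .nil))))) .nil)) 
(.lf (nat_lit 446956) (.g (nat_lit 2228) (.e (nat_lit 819219) (nat_lit 4) (.e (nat_lit 172106) (nat_lit 10) (.e (nat_lit 434241) (nat_lit 27) (.e (nat_lit 565269) (nat_lit 6) (.e (nat_lit 81938) (nat_lit 20) (.e (nat_lit 2390) (nat_lit 156) .nil)))))) (.g (nat_lit 5) .nil .nil)))) (.nd (nat_lit 5) 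
(.lf (nat_lit 446940) (.g (nat_lit 1368) (.e (nat_lit 819204) (nat_lit 0) (.e (nat_lit 3015) (nat_lit 187) (.e (nat_lit 450563) (nat_lit 0) (.e (nat_lit 4273) (nat_lit 252) .nil)))) .nil)) 
(.lf (nat_lit 446972) (.g (nat_lit 1203) (.e (nat_lit 819219) (nat_lit 4) (.e (nat_lit 172112) (nat_lit 10) (.e (nat_lit 434241) (nat_lit 27) (.e (nat_lit 565269) (nat_lit 6) (.e (nat_lit 81942) (nat_lit 20) (.e (nat_lit 2390) (nat_lit 156) .nil)))))) (.g (nat_lit 4) .nil .nil))))))) (.nd (nat_lit 2) (.nd (nat_lit 3) (.nd (nat_lit 4) (.nd (nat_lit 5) 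
(.lf (nat_lit 446914) (.g (nat_lit 2937) (.e (nat_lit 811045) (nat_lit 14) (.e (nat_lit 40995) (nat_lit 11) (.e (nat_lit 24617) (nat_lit 7) (.e (nat_lit 319531) (nat_lit 16) (.e (nat_lit 286748) (nat_lit 9) (.e (nat_lit 336295) (nat_lit 15) (.e (nat_lit 3806) (nat_lit 231) .nil))))))) (.g (nat_lit 6) .nil .nil))) 
(.lf (nat_lit 446946) (.g (nat_lit 1496) (.e (nat_lit 819217) (nat_lit 4) (.e (nat_lit 172115) (nat_lit 10) (.e (nat_lit 434241) (nat_lit 27) (.e (nat_lit 565269) (nat_lit 6) (.e (nat_lit 81943) (nat_lit 20) .nil))))) .nil))) (.nd (nat_lit 5) 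
(.lf (nat_lit 446930) (.g (nat_lit 1090) (.e (nat_lit 818944) (nat_lit 14) (.e (nat_lit 40997) (nat_lit 11) (.e (nat_lit 24617) (nat_lit 7) (.e (nat_lit 319532) (nat_lit 16) .nil)))) .nil)) 
(.lf (nat_lit 446962) (.g (nat_lit 2292) (.e (nat_lit 819219) (nat_lit 4) (.e (nat_lit 172106) (nat_lit 10) (.e (nat_lit 434244) (nat_lit 28) (.e (nat_lit 573503) (nat_lit 18) (.e (nat_lit 1015) (nat_lit 81) .nil))))) .nil)))) (.nd (nat_lit 4) (.nd (nat_lit 5) 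
(.lf (nat_lit 446922) (.g (nat_lit 3267) (.e (nat_lit 811045) (nat_lit 14) (.e (nat_lit 40996) (nat_lit 11) (.e (nat_lit 24617) (nat_lit 7) (.e (nat_lit 319533) (nat_lit 16) (.e (nat_lit 286759) (nat_lit 12) (.e (nat_lit 385115) (nat_lit 53) .nil)))))) (.g (nat_lit 0) .nil .nil))) 
(.lf (nat_lit 446954) (.g (nat_lit 1236) (.e (nat_lit 819219) (nat_lit 4) (.e (nat_lit 172097) (nat_lit 9) (.e (nat_lit 426025) (nat_lit 0) (.e (nat_lit 3279) (nat_lit 200) .nil)))) .nil))) (.nd (nat_lit 5) 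
(.lf (nat_lit 446938) (.g (nat_lit 1410) (.e (nat_lit 819204) (nat_lit 0) (.e (nat_lit 3015) (nat_lit 187) (.e (nat_lit 450562) (nat_lit 0) (.e (nat_lit 4275) (nat_lit 252) .nil)))) .nil)) 
(.lf (nat_lit 446970) (.g (nat_lit 450) (.e (nat_lit 819219) (nat_lit 4) (.e (nat_lit 172112) (nat_lit 10) (.e (nat_lit 434241) (nat_lit 27) (.e (nat_lit 565251) (nat_lit 0) .nil)))) .nil))))) (.nd (nat_lit 3) (.nd (nat_lit 4) (.nd (nat_lit 5) 
(.lf (nat_lit 446918) (.g (nat_lit 2939) (.e (nat_lit 811045) (nat_lit 14) (.e (nat_lit 40996) (nat_lit 11) (.e (nat_lit 24617) (nat_lit 7) (.e (nat_lit 319529) (nat_lit 16) (.e (nat_lit 286759) (nat_lit 12) (.e (nat_lit 385115) (nat_lit 53) .nil)))))) (.g (nat_lit 0) .nil .nil))) 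
(.lf (nat_lit 446950) (.g (nat_lit 1686) (.e (nat_lit 819218) (nat_lit 4) (.e (nat_lit 172115) (nat_lit 10) (.e (nat_lit 434241) (nat_lit 27) (.e (nat_lit 565269) (nat_lit 6) (.e (nat_lit 81943) (nat_lit 20) .nil))))) .nil))) (.nd (nat_lit 5) 
(.lf (nat_lit 446934) (.g (nat_lit 942) (.e (nat_lit 819203) (nat_lit 0) (.e (nat_lit 3027) (nat_lit 187) (.e (nat_lit 450584) (nat_lit 9) (.e (nat_lit 565251) (nat_lit 0) .nil)))) .nil)) 
(.lf (nat_lit 446966) (.g (nat_lit 1281) (.e (nat_lit 819219) (nat_lit 4) (.e (nat_lit 172107) (nat_lit 10) (.e (nat_lit 434241) (nat_lit 27) (.e (nat_lit 565269) (nat_lit 6) (.e (nat_lit 81939) (nat_lit 20) (.e (nat_lit 2390) (nat_lit 156) .nil)))))) (.g (nat_lit 4) .nil .nil))))) (.nd (nat_lit 4) (.nd (nat_lit 5) 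
(.lf (nat_lit 446926) (.g (nat_lit 1717) (.e (nat_lit 811045) (nat_lit 14) (.e (nat_lit 40997) (nat_lit 11) (.e (nat_lit 24617) (nat_lit 7) (.e (nat_lit 319531) (nat_lit 16) (.e (nat_lit 286748) (nat_lit 9) .nil))))) .nil)) 
(.lf (nat_lit 446958) (.g (nat_lit 1643) (.e (nat_lit 819219) (nat_lit 4) (.e (nat_lit 172106) (nat_lit 10) (.e (nat_lit 434241) (nat_lit 27) (.e (nat_lit 565269) (nat_lit 6) (.e (nat_lit 81942) (nat_lit 20) (.e (nat_lit 2390) (nat_lit 156) .nil)))))) (.g (nat_lit 4) .nil .nil)))) (.nd (nat_lit 5) 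
(.lf (nat_lit 446942) (.g (nat_lit 1660) (.e (nat_lit 819214) (nat_lit 3) (.e (nat_lit 163962) (nat_lit 25) (.e (nat_lit 532544) (nat_lit 10) (.e (nat_lit 344132) (nat_lit 26) (.e (nat_lit 557101) (nat_lit 13) .nil))))) .nil)) 
(.lf (nat_lit 446974) (.g (nat_lit 1695) (.e (nat_lit 819219) (nat_lit 4) (.e (nat_lit 172112) (nat_lit 10) (.e (nat_lit 434241) (nat_lit 27) (.e (nat_lit 565269) (nat_lit 6) (.e (nat_lit 81946) (nat_lit 20) (.e (nat_lit 2390) (nat_lit 156) .nil)))))) (.g (nat_lit 5) .nil .nil)))))))) (.nd (nat_lit 1) (.nd (nat_lit 2) (.nd (nat_lit 3) (.nd (nat_lit 4) (.nd (nat_lit 5) 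
(.lf (nat_lit 446913) (.g (nat_lit 2638) (.e (nat_lit 811045) (nat_lit 14) (.e (nat_lit 40995) (nat_lit 11) (.e (nat_lit 24617) (nat_lit 7) (.e (nat_lit 319528) (nat_lit 16) (.e (nat_lit 286759) (nat_lit 12) (.e (nat_lit 385115) (nat_lit 53) .nil)))))) (.g (nat_lit 0) .nil .nil))) 
(.lf (nat_lit 446945) (.g (nat_lit 908) (.e (nat_lit 819217) (nat_lit 4) (.e (nat_lit 172115) (nat_lit 10) (.e (nat_lit 434241) (nat_lit 27) (.e (nat_lit 565269) (nat_lit 6) .nil)))) .nil))) (.nd (nat_lit 5) 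
(.lf (nat_lit 446929) (.g (nat_lit 1009) (.e (nat_lit 818944) (nat_lit 14) (.e (nat_lit 40997) (nat_lit 11) (.e (nat_lit 24617) (nat_lit 7) (.e (nat_lit 319531) (nat_lit 16) .nil)))) .nil)) 
(.lf (nat_lit 446961) (.g (nat_lit 1986) (.e (nat_lit 819219) (nat_lit 4) (.e (nat_lit 172106) (nat_lit 10) (.e (nat_lit 434241) (nat_lit 27) (.e (nat_lit 565269) (nat_lit 6) (.e (nat_lit 81947) (nat_lit 20) (.e (nat_lit 2390) (nat_lit 156) .nil)))))) (.g (nat_lit 5) .nil .nil))))) (.nd (nat_lit 4) (.nd (nat_lit 5) 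
(.lf (nat_lit 446921) (.g (nat_lit 3060) (.e (nat_lit 811045) (nat_lit 14) (.e (nat_lit 40996) (nat_lit 11) (.e (nat_lit 24617) (nat_lit 7) (.e (nat_lit 319531) (nat_lit 16) (.e (nat_lit 286748) (nat_lit 9) (.e (nat_lit 336295) (nat_lit 15) (.e (nat_lit 3806) (nat_lit 231) .nil))))))) (.g (nat_lit 6) .nil .nil))) 
(.lf (nat_lit 446953) (.g (nat_lit 2728) (.e (nat_lit 819219) (nat_lit 4) (.e (nat_lit 172094) (nat_lit 9) (.e (nat_lit 426125) (nat_lit 2) (.e (nat_lit 196612) (nat_lit 0) .nil)))) .nil))) (.nd (nat_lit 5) 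
(.lf (nat_lit 446937) (.g (nat_lit 912) (.e (nat_lit 819203) (nat_lit 0) (.e (nat_lit 3027) (nat_lit 187) (.e (nat_lit 450584) (nat_lit 9) (.e (nat_lit 573184) (nat_lit 6) .nil)))) .nil)) 
(.lf (nat_lit 446969) (.g (nat_lit 1608) (.e (nat_lit 819219) (nat_lit 4) (.e (nat_lit 172107) (nat_lit 10) (.e (nat_lit 434241) (nat_lit 27) (.e (nat_lit 565269) (nat_lit 6) (.e (nat_lit 81947) (nat_lit 20) (.e (nat_lit 2390) (nat_lit 156) .nil)))))) (.g (nat_lit 5) .nil .nil)))))) (.nd (nat_lit 3) (.nd (nat_lit 4) (.nd (nat_lit 5) 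
(.lf (nat_lit 446917) (.g (nat_lit 2853) (.e (nat_lit 811045) (nat_lit 14) (.e (nat_lit 40996) (nat_lit 11) (.e (nat_lit 24617) (nat_lit 7) (.e (nat_lit 319528) (nat_lit 16) (.e (nat_lit 286759) (nat_lit 12) (.e (nat_lit 385115) (nat_lit 53) .nil)))))) (.g (nat_lit 0) .nil .nil))) 
(.lf (nat_lit 446949) (.g (nat_lit 1099) (.e (nat_lit 819218) (nat_lit 4) (.e (nat_lit 172115) (nat_lit 10) (.e (nat_lit 434241) (nat_lit 27) (.e (nat_lit 565269) (nat_lit 6) .nil)))) .nil))) (.nd (nat_lit 5) 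
(.lf (nat_lit 446933) (.g (nat_lit 1840) (.e (nat_lit 819203) (nat_lit 0) (.e (nat_lit 3022) (nat_lit 187) (.e (nat_lit 450584) (nat_lit 9) (.e (nat_lit 565252) (nat_lit 0) (.e (nat_lit 1586) (nat_lit 111) (.e (nat_lit 360493) (nat_lit 27) .nil)))))) (.g (nat_lit 6) .nil .nil))) 
(.lf (nat_lit 446965) (.g (nat_lit 1857) (.e (nat_lit 819219) (nat_lit 4) (.e (nat_lit 172107) (nat_lit 10) (.e (nat_lit 434241) (nat_lit 27) (.e (nat_lit 565269) (nat_lit 6) (.e (nat_lit 81938) (nat_lit 20) (.e (nat_lit 2390) (nat_lit 156) .nil)))))) (.g (nat_lit 5) .nil .nil))))) (.nd (nat_lit 4) (.nd (nat_lit 5) 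
(.lf (nat_lit 446925) (.g (nat_lit 3381) (.e (nat_lit 811045) (nat_lit 14) (.e (nat_lit 40997) (nat_lit 11) (.e (nat_lit 24617) (nat_lit 7) (.e (nat_lit 319530) (nat_lit 16) (.e (nat_lit 286748) (nat_lit 9) (.e (nat_lit 336295) (nat_lit 15) (.e (nat_lit 3806) (nat_lit 231) .nil))))))) (.g (nat_lit 0) .nil .nil))) 
(.lf (nat_lit 446957) (.g (nat_lit 1660) (.e (nat_lit 819219) (nat_lit 4) (.e (nat_lit 172106) (nat_lit 10) (.e (nat_lit 434241) (nat_lit 27) (.e (nat_lit 565269) (nat_lit 6) (.e (nat_lit 81939) (nat_lit 20) (.e (nat_lit 2390) (nat_lit 156) .nil)))))) (.g (nat_lit 4) .nil .nil)))) (.nd (nat_lit 5) 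
(.lf (nat_lit 446941) (.g (nat_lit 581) (.e (nat_lit 819213) (nat_lit 2) (.e (nat_lit 24607) (nat_lit 3) (.e (nat_lit 106240) (nat_lit 15) .nil))) .nil)) 
(.lf (nat_lit 446973) (.g (nat_lit 2660) (.e (nat_lit 819219) (nat_lit 4) (.e (nat_lit 172112) (nat_lit 10) (.e (nat_lit 434241) (nat_lit 27) (.e (nat_lit 565269) (nat_lit 6) (.e (nat_lit 81943) (nat_lit 20) (.e (nat_lit 2391) (nat_lit 156) .nil)))))) (.g (nat_lit 0) .nil .nil))))))) (.nd (nat_lit 2) (.nd (nat_lit 3) (.nd (nat_lit 4) (.nd (nat_lit 5) 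
(.lf (nat_lit 446915) (.g (nat_lit 990) (.e (nat_lit 811045) (nat_lit 14) (.e (nat_lit 40996) (nat_lit 11) (.e (nat_lit 24617) (nat_lit 7) (.e (nat_lit 319511) (nat_lit 10) .nil)))) .nil)) 
(.lf (nat_lit 446947) (.g (nat_lit 1562) (.e (nat_lit 819217) (nat_lit 4) (.e (nat_lit 172115) (nat_lit 10) (.e (nat_lit 434241) (nat_lit 27) (.e (nat_lit 565269) (nat_lit 6) (.e (nat_lit 81947) (nat_lit 20) .nil))))) .nil))) (.nd (nat_lit 5) 
(.lf (nat_lit 446931) (.g (nat_lit 4434) (.e (nat_lit 811046) (nat_lit 15) (.e (nat_lit 49187) (nat_lit 11) (.e (nat_lit 16473) (nat_lit 14) (.e (nat_lit 491560) (nat_lit 10) (.e (nat_lit 344160) (nat_lit 37) (.e (nat_lit 647201) (nat_lit 12) (.e (nat_lit 65280) (nat_lit 59) .nil))))))) (.g (nat_lit 6) .nil .nil))) 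
(.lf (nat_lit 446963) (.g (nat_lit 482) (.e (nat_lit 819219) (nat_lit 4) (.e (nat_lit 172107) (nat_lit 10) (.e (nat_lit 434241) (nat_lit 27) (.e (nat_lit 565251) (nat_lit 0) .nil)))) .nil)))) (.nd (nat_lit 4) (.nd (nat_lit 5) 
(.lf (nat_lit 446923) (.g (nat_lit 969) (.e (nat_lit 811045) (nat_lit 14) (.e (nat_lit 40997) (nat_lit 11) (.e (nat_lit 24617) (nat_lit 7) (.e (nat_lit 319529) (nat_lit 16) .nil)))) .nil)) 
(.lf (nat_lit 446955) (.g (nat_lit 831) (.e (nat_lit 819219) (nat_lit 4) (.e (nat_lit 172106) (nat_lit 10) (.e (nat_lit 434241) (nat_lit 27) (.e (nat_lit 565251) (nat_lit 0) .nil)))) .nil))) (.nd (nat_lit 5) 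
(.lf (nat_lit 446939) (.g (nat_lit 1599) (.e (nat_lit 819204) (nat_lit 0) (.e (nat_lit 3015) (nat_lit 187) (.e (nat_lit 450562) (nat_lit 0) (.e (nat_lit 4275) (nat_lit 252) (.e (nat_lit 8289) (nat_lit 51) .nil))))) .nil)) 
(.lf (nat_lit 446971) (.g (nat_lit 1214) (.e (nat_lit 819219) (nat_lit 4) (.e (nat_lit 172112) (nat_lit 10) (.e (nat_lit 434241) (nat_lit 27) (.e (nat_lit 565269) (nat_lit 6) (.e (nat_lit 81939) (nat_lit 20) (.e (nat_lit 2390) (nat_lit 156) .nil)))))) (.g (nat_lit 4) .nil .nil)))))) (.nd (nat_lit 3) (.nd (nat_lit 4) (.nd (nat_lit 5) 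
(.lf (nat_lit 446919) (.g (nat_lit 2683) (.e (nat_lit 811045) (nat_lit 14) (.e (nat_lit 40996) (nat_lit 11) (.e (nat_lit 24617) (nat_lit 7) (.e (nat_lit 319530) (nat_lit 16) (.e (nat_lit 286759) (nat_lit 12) (.e (nat_lit 385113) (nat_lit 53) .nil)))))) (.g (nat_lit 5) .nil .nil))) 
(.lf (nat_lit 446951) (.g (nat_lit 1753) (.e (nat_lit 819218) (nat_lit 4) (.e (nat_lit 172115) (nat_lit 10) (.e (nat_lit 434241) (nat_lit 27) (.e (nat_lit 565269) (nat_lit 6) (.e (nat_lit 81947) (nat_lit 20) .nil))))) .nil))) (.nd (nat_lit 5) 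
(.lf (nat_lit 446935) (.g (nat_lit 1030) (.e (nat_lit 819203) (nat_lit 0) (.e (nat_lit 3027) (nat_lit 187) (.e (nat_lit 450584) (nat_lit 9) (.e (nat_lit 565251) (nat_lit 0) (.e (nat_lit 1586) (nat_lit 111) .nil))))) .nil)) 
(.lf (nat_lit 446967) (.g (nat_lit 1269) (.e (nat_lit 819219) (nat_lit 4) (.e (nat_lit 172107) (nat_lit 10) (.e (nat_lit 434241) (nat_lit 27) (.e (nat_lit 565269) (nat_lit 6) (.e (nat_lit 81942) (nat_lit 20) (.e (nat_lit 2390) (nat_lit 156) .nil)))))) (.g (nat_lit 4) .nil .nil))))) (.nd (nat_lit 4) (.nd (nat_lit 5) 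
(.lf (nat_lit 446927) (.g (nat_lit 2978) (.e (nat_lit 811045) (nat_lit 14) (.e (nat_lit 40997) (nat_lit 11) (.e (nat_lit 24617) (nat_lit 7) (.e (nat_lit 319534) (nat_lit 16) (.e (nat_lit 286759) (nat_lit 12) (.e (nat_lit 385114) (nat_lit 53) .nil)))))) (.g (nat_lit 0) .nil .nil))) 
(.lf (nat_lit 446959) (.g (nat_lit 1286) (.e (nat_lit 819219) (nat_lit 4) (.e (nat_lit 172106) (nat_lit 10) (.e (nat_lit 434241) (nat_lit 27) (.e (nat_lit 565269) (nat_lit 6) (.e (nat_lit 81943) (nat_lit 20) (.e (nat_lit 2389) (nat_lit 156) .nil)))))) (.g (nat_lit 4) .nil .nil)))) (.nd (nat_lit 5) 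
(.lf (nat_lit 446943) (.g (nat_lit 406) (.e (nat_lit 819217) (nat_lit 4) (.e (nat_lit 172094) (nat_lit 9) (.e (nat_lit 426125) (nat_lit 2) .nil))) .nil)) 
(.lf (nat_lit 446975) (.g (nat_lit 512) (.e (nat_lit 819219) (nat_lit 4) (.e (nat_lit 172113) (nat_lit 10) (.e (nat_lit 434203) (nat_lit 18) .nil))) .nil))))))))

noncomputable def tv5496 : DT := (.nd (nat_lit 0) (.nd (nat_lit 1) (.nd (nat_lit 2) (.nd (nat_lit 3) (.nd (nat_lit 4) (.nd (nat_lit 5) (.nd (nat_lit 6) (.nd (nat_lit 7) (.nd (nat_lit 8) 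
(.lf (nat_lit 446976) (.g (nat_lit 542) (.e (nat_lit 819219) (nat_lit 4) (.e (nat_lit 172113) (nat_lit 10) (.e (nat_lit 434239) (nat_lit 27) .nil))) .nil)) 
(.lf (nat_lit 447232) (.g (nat_lit 2988) (.e (nat_lit 174) (nat_lit 12) (.e (nat_lit 204863) (nat_lit 27) (.e (nat_lit 344133) (nat_lit 26) (.e (nat_lit 557105) (nat_lit 14) (.e (nat_lit 180252) (nat_lit 10) (.e (nat_lit 573503) (nat_lit 18) (.e (nat_lit 1014) (nat_lit 81) (.e (nat_lit 5260) (nat_lit 298) .nil)))))))) (.g (nat_lit 1) (.e (nat_lit 1189) (nat_lit 0) .nil) .nil)))) (.nd (nat_lit 8) 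
(.lf (nat_lit 447104) (.g (nat_lit 3228) (.e (nat_lit 51) (nat_lit 0) (.e (nat_lit 1853) (nat_lit 124) (.e (nat_lit 557108) (nat_lit 15) (.e (nat_lit 188452) (nat_lit 23) (.e (nat_lit 204846) (nat_lit 24) .nil))))) (.g (nat_lit 0) (.e (nat_lit 272) (nat_lit 0) .nil) .nil))) 
(.lf (nat_lit 447360) (.g (nat_lit 3441) (.e (nat_lit 370) (nat_lit 32) (.e (nat_lit 426125) (nat_lit 2) (.e (nat_lit 196666) (nat_lit 13) (.e (nat_lit 65617) (nat_lit 10) (.e (nat_lit 344132) (nat_lit 26) (.e (nat_lit 557093) (nat_lit 12) (.e (nat_lit 164023) (nat_lit 46) (.e (nat_lit 704626) (nat_lit 9) .nil)))))))) (.g (nat_lit 1) (.e (nat_lit 1835) (nat_lit 0) .nil) .nil))))) 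
(.nd (nat_lit 7) (.nd (nat_lit 8) 
(.lf (nat_lit 447040) (.g (nat_lit 1280) (.e (nat_lit 819237) (nat_lit 11) (.e (nat_lit 16425) (nat_lit 7) (.e (nat_lit 409643) (nat_lit 18) (.e (nat_lit 303143) (nat_lit 12) .nil)))) .nil)) 
(.lf (nat_lit 447296) (.g (nat_lit 852) (.e (nat_lit 112) (nat_lit 3) (.e (nat_lit 98334) (nat_lit 18) (.e (nat_lit 164330) (nat_lit 230) .nil))) (.g (nat_lit 0) (.e (nat_lit 1484) (nat_lit 0) .nil) .nil)))) (.nd (nat_lit 8) 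
(.lf (nat_lit 447168) (.g (nat_lit 2709) (.e (nat_lit 171) (nat_lit 12) (.e (nat_lit 204829) (nat_lit 18) (.e (nat_lit 57847) (nat_lit 252) (.e (nat_lit 57407) (nat_lit 12) (.e (nat_lit 336456) (nat_lit 34) .nil))))) (.g (nat_lit 0) (.e (nat_lit 1037) (nat_lit 0) .nil) .nil))) 
(.lf (nat_lit 447424) (.g (nat_lit 3986) (.e (nat_lit 373) (nat_lit 32) (.e (nat_lit 426136) (nat_lit 3) (.e (nat_lit 204869) (nat_lit 29) (.e (nat_lit 360475) (nat_lit 8) (.e (nat_lit 557091) (nat_lit 12) (.e (nat_lit 164022) (nat_lit 46) (.e (nat_lit 704627) (nat_lit 9) .nil))))))) (.g (nat_lit 1) (.e (nat_lit 1976) (nat_lit 0) .nil) .nil)))))) (.nd (nat_lit 6) (.nd (nat_lit 7) (.nd (nat_lit 8) 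
(.lf (nat_lit 447008) (.g (nat_lit 2306) (.e (nat_lit 819220) (nat_lit 5) (.e (nat_lit 180287) (nat_lit 45) (.e (nat_lit 2545) (nat_lit 158) (.e (nat_lit 8388) (nat_lit 114) (.e (nat_lit 1220) (nat_lit 90) (.e (nat_lit 81938) (nat_lit 20) (.e (nat_lit 2390) (nat_lit 156) .nil))))))) (.g (nat_lit 7) .nil .nil))) 
(.lf (nat_lit 447264) (.g (nat_lit 2937) (.e (nat_lit 202) (nat_lit 17) (.e (nat_lit 253991) (nat_lit 11) (.e (nat_lit 16412) (nat_lit 2) (.e (nat_lit 196668) (nat_lit 14) (.e (nat_lit 73782) (nat_lit 32) (.e (nat_lit 2664) (nat_lit 167) (.e (nat_lit 196630) (nat_lit 9) .nil))))))) (.g (nat_lit 1) (.e (nat_lit 1422) (nat_lit 0) .nil) .nil)))) (.nd (nat_lit 8) 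
(.lf (nat_lit 447136) (.g (nat_lit 3450) (.e (nat_lit 78) (nat_lit 0) (.e (nat_lit 3308) (nat_lit 202) (.e (nat_lit 573482) (nat_lit 13) (.e (nat_lit 65604) (nat_lit 9) (.e (nat_lit 336028) (nat_lit 3) (.e (nat_lit 98325) (nat_lit 17) (.e (nat_lit 7112) (nat_lit 381) (.e (nat_lit 229645) (nat_lit 232) .nil)))))))) (.g (nat_lit 1) (.e (nat_lit 600) (nat_lit 0) .nil) .nil))) 
(.lf (nat_lit 447392) (.g (nat_lit 3398) (.e (nat_lit 371) (nat_lit 32) (.e (nat_lit 426438) (nat_lit 18) (.e (nat_lit 98367) (nat_lit 27) (.e (nat_lit 434247) (nat_lit 28) (.e (nat_lit 573485) (nat_lit 13) (.e (nat_lit 65568) (nat_lit 2) (.e (nat_lit 98048) (nat_lit 0) .nil))))))) (.g (nat_lit 1) (.e (nat_lit 1906) (nat_lit 0) .nil) .nil))))) (.nd (nat_lit 7) (.nd (nat_lit 8) 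
(.lf (nat_lit 447072) (.g (nat_lit 3076) (.e (nat_lit 27) (nat_lit 0) (.e (nat_lit 3308) (nat_lit 202) (.e (nat_lit 573482) (nat_lit 13) (.e (nat_lit 65604) (nat_lit 9) (.e (nat_lit 336013) (nat_lit 2) (.e (nat_lit 90165) (nat_lit 12) (.e (nat_lit 164219) (nat_lit 180) (.e (nat_lit 229645) (nat_lit 232) .nil)))))))) (.g (nat_lit 1) (.e (nat_lit 113) (nat_lit 0) .nil) .nil))) 
(.lf (nat_lit 447328) (.g (nat_lit 4411) (.e (nat_lit 359) (nat_lit 30) (.e (nat_lit 409602) (nat_lit 0) (.e (nat_lit 5293) (nat_lit 298) (.e (nat_lit 1250) (nat_lit 92) (.e (nat_lit 98372) (nat_lit 29) (.e (nat_lit 450588) (nat_lit 10) (.e (nat_lit 573452) (nat_lit 9) .nil))))))) (.g (nat_lit 1) (.e (nat_lit 1520) (nat_lit 0) .nil) .nil)))) (.nd (nat_lit 8) 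
(.lf (nat_lit 447200) (.g (nat_lit 1724) (.e (nat_lit 174) (nat_lit 12) (.e (nat_lit 204859) (nat_lit 26) (.e (nat_lit 336209) (nat_lit 13) (.e (nat_lit 393221) (nat_lit 0) (.e (nat_lit 6209) (nat_lit 333) (.e (nat_lit 57879) (nat_lit 270) .nil)))))) (.g (nat_lit 1) (.e (nat_lit 1151) (nat_lit 0) .nil) .nil))) 
(.lf (nat_lit 447456) (.g (nat_lit 2077) (.e (nat_lit 375) (nat_lit 32) (.e (nat_lit 426125) (nat_lit 2) (.e (nat_lit 196630) (nat_lit 9) (.e (nat_lit 1580) (nat_lit 111) .nil)))) (.g (nat_lit 0) (.e (nat_lit 2067) (nat_lit 0) .nil) .nil))))))) (.nd (nat_lit 5) (.nd (nat_lit 6) (.nd (nat_lit 7) (.nd (nat_lit 8) 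
(.lf (nat_lit 446992) (.g (nat_lit 1917) (.e (nat_lit 819219) (nat_lit 4) (.e (nat_lit 172115) (nat_lit 10) (.e (nat_lit 434241) (nat_lit 27) (.e (nat_lit 565269) (nat_lit 6) (.e (nat_lit 81943) (nat_lit 20) (.e (nat_lit 2390) (nat_lit 156) .nil)))))) (.g (nat_lit 5) .nil .nil))) 
(.lf (nat_lit 447248) (.g (nat_lit 1111) (.e (nat_lit 174) (nat_lit 12) (.e (nat_lit 204876) (nat_lit 31) (.e (nat_lit 376842) (nat_lit 11) (.e (nat_lit 426413) (nat_lit 15) .nil)))) (.g (nat_lit 0) (.e (nat_lit 1259) (nat_lit 0) .nil) .nil)))) (.nd (nat_lit 8) 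
(.lf (nat_lit 447120) (.g (nat_lit 3157) (.e (nat_lit 75) (nat_lit 0) (.e (nat_lit 3308) (nat_lit 202) (.e (nat_lit 573482) (nat_lit 13) (.e (nat_lit 65604) (nat_lit 9) (.e (nat_lit 336013) (nat_lit 2) (.e (nat_lit 90165) (nat_lit 12) (.e (nat_lit 164218) (nat_lit 179) (.e (nat_lit 164340) (nat_lit 232) .nil)))))))) (.g (nat_lit 1) (.e (nat_lit 376) (nat_lit 0) .nil) .nil))) 
(.lf (nat_lit 447376) (.g (nat_lit 4171) (.e (nat_lit 371) (nat_lit 32) (.e (nat_lit 426348) (nat_lit 14) (.e (nat_lit 491571) (nat_lit 13) (.e (nat_lit 393260) (nat_lit 21) (.e (nat_lit 409623) (nat_lit 10) (.e (nat_lit 5259) (nat_lit 298) .nil)))))) (.g (nat_lit 1) (.e (nat_lit 1869) (nat_lit 0) .nil) .nil))))) (.nd (nat_lit 7) (.nd (nat_lit 8) 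
(.lf (nat_lit 447056) (.g (nat_lit 4918) (.e (nat_lit 5) (nat_lit 0) (.e (nat_lit 1860) (nat_lit 124) (.e (nat_lit 557108) (nat_lit 15) (.e (nat_lit 188452) (nat_lit 23) (.e (nat_lit 204846) (nat_lit 24) (.e (nat_lit 319504) (nat_lit 10) (.e (nat_lit 7936) (nat_lit 312) .nil))))))) (.g (nat_lit 1) (.e (nat_lit 8) (nat_lit 0) .nil) .nil))) 
(.lf (nat_lit 447312) (.g (nat_lit 2117) (.e (nat_lit 144) (nat_lit 8) (.e (nat_lit 147496) (nat_lit 11) (.e (nat_lit 24617) (nat_lit 7) (.e (nat_lit 319533) (nat_lit 16) .nil)))) (.g (nat_lit 0) (.e (nat_lit 1504) (nat_lit 0) .nil) .nil)))) (.nd (nat_lit 8) 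
(.lf (nat_lit 447184) (.g (nat_lit 3120) (.e (nat_lit 174) (nat_lit 12) (.e (nat_lit 204830) (nat_lit 18) (.e (nat_lit 57852) (nat_lit 252) (.e (nat_lit 57406) (nat_lit 12) (.e (nat_lit 336456) (nat_lit 34) (.e (nat_lit 483346) (nat_lit 17) (.e (nat_lit 6445) (nat_lit 343) .nil))))))) (.g (nat_lit 1) (.e (nat_lit 1102) (nat_lit 0) .nil) .nil))) 
(.lf (nat_lit 447440) (.g (nat_lit 3182) (.e (nat_lit 374) (nat_lit 32) (.e (nat_lit 426340) (nat_lit 14) (.e (nat_lit 491571) (nat_lit 13) (.e (nat_lit 393260) (nat_lit 21) (.e (nat_lit 417536) (nat_lit 10) .nil))))) (.g (nat_lit 0) (.e (nat_lit 2038) (nat_lit 0) .nil) .nil)))))) (.nd (nat_lit 6) (.nd (nat_lit 7) (.nd (nat_lit 8) 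
(.lf (nat_lit 447024) (.g (nat_lit 2032) (.e (nat_lit 819221) (nat_lit 6) (.e (nat_lit 188440) (nat_lit 20) (.e (nat_lit 3307) (nat_lit 202) (.e (nat_lit 573502) (nat_lit 18) (.e (nat_lit 1358) (nat_lit 102) (.e (nat_lit 286753) (nat_lit 10) (.e (nat_lit 344183) (nat_lit 49) .nil))))))) (.g (nat_lit 5) .nil .nil))) 
(.lf (nat_lit 447280) (.g (nat_lit 2347) (.e (nat_lit 202) (nat_lit 17) (.e (nat_lit 253992) (nat_lit 11) (.e (nat_lit 16425) (nat_lit 7) (.e (nat_lit 409649) (nat_lit 18) (.e (nat_lit 303140) (nat_lit 10) .nil))))) (.g (nat_lit 0) (.e (nat_lit 1438) (nat_lit 0) .nil) .nil)))) (.nd (nat_lit 8) 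
(.lf (nat_lit 447152) (.g (nat_lit 2187) (.e (nat_lit 163) (nat_lit 11) (.e (nat_lit 196666) (nat_lit 13) (.e (nat_lit 65610) (nat_lit 10) (.e (nat_lit 344117) (nat_lit 21) .nil)))) (.g (nat_lit 0) (.e (nat_lit 971) (nat_lit 0) .nil) .nil))) 
(.lf (nat_lit 447408) (.g (nat_lit 2563) (.e (nat_lit 371) (nat_lit 32) (.e (nat_lit 426544) (nat_lit 30) (.e (nat_lit 360467) (nat_lit 3) (.e (nat_lit 516191) (nat_lit 17) (.e (nat_lit 6216) (nat_lit 333) (.e (nat_lit 57883) (nat_lit 270) .nil)))))) (.g (nat_lit 1) (.e (nat_lit 1925) (nat_lit 0) .nil) .nil))))) (.nd (nat_lit 7) (.nd (nat_lit 8) 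
(.lf (nat_lit 447088) (.g (nat_lit 4759) (.e (nat_lit 11) (nat_lit 0) (.e (nat_lit 1858) (nat_lit 124) (.e (nat_lit 557109) (nat_lit 15) (.e (nat_lit 188452) (nat_lit 23) (.e (nat_lit 204846) (nat_lit 24) .nil))))) (.g (nat_lit 0) (.e (nat_lit 197) (nat_lit 0) .nil) .nil))) 
(.lf (nat_lit 447344) (.g (nat_lit 3866) (.e (nat_lit 365) (nat_lit 31) (.e (nat_lit 417794) (nat_lit 0) (.e (nat_lit 5271) (nat_lit 298) (.e (nat_lit 1239) (nat_lit 91) (.e (nat_lit 90170) (nat_lit 13) (.e (nat_lit 172113) (nat_lit 10) (.e (nat_lit 434247) (nat_lit 28) (.e (nat_lit 573456) (nat_lit 9) .nil)))))))) (.g (nat_lit 1) (.e (nat_lit 1796) (nat_lit 0) .nil) .nil)))) (.nd (nat_lit 8) 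
(.lf (nat_lit 447216) (.g (nat_lit 1907) (.e (nat_lit 174) (nat_lit 12) (.e (nat_lit 204863) (nat_lit 27) (.e (nat_lit 344117) (nat_lit 21) (.e (nat_lit 516130) (nat_lit 3) (.e (nat_lit 221209) (nat_lit 22) .nil))))) (.g (nat_lit 0) (.e (nat_lit 1173) (nat_lit 0) .nil) .nil))) 
(.lf (nat_lit 447472) (.g (nat_lit 3920) (.e (nat_lit 375) (nat_lit 32) (.e (nat_lit 426125) (nat_lit 2) (.e (nat_lit 196666) (nat_lit 13) (.e (nat_lit 65610) (nat_lit 10) (.e (nat_lit 344127) (nat_lit 26) (.e (nat_lit 557093) (nat_lit 12) (.e (nat_lit 164023) (nat_lit 46) (.e (nat_lit 704627) (nat_lit 9) .nil)))))))) (.g (nat_lit 1) (.e (nat_lit 2131) (nat_lit 0) .nil) .nil)))))))) 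
(.nd (nat_lit 4) (.nd (nat_lit 5) (.nd (nat_lit 6) (.nd (nat_lit 7) (.nd (nat_lit 8) 
(.lf (nat_lit 446984) (.g (nat_lit 2519) (.e (nat_lit 819219) (nat_lit 4) (.e (nat_lit 172113) (nat_lit 10) (.e (nat_lit 434248) (nat_lit 28) (.e (nat_lit 573503) (nat_lit 18) (.e (nat_lit 1015) (nat_lit 81) .nil))))) .nil)) 
(.lf (nat_lit 447240) (.g (nat_lit 2001) (.e (nat_lit 174) (nat_lit 12) (.e (nat_lit 204876) (nat_lit 31) (.e (nat_lit 376842) (nat_lit 11) (.e (nat_lit 426406) (nat_lit 15) (.e (nat_lit 6207) (nat_lit 333) (.e (nat_lit 57883) (nat_lit 270) .nil)))))) (.g (nat_lit 1) (.e (nat_lit 1251) (nat_lit 0) .nil) .nil)))) (.nd (nat_lit 8) 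
(.lf (nat_lit 447112) (.g (nat_lit 1981) (.e (nat_lit 75) (nat_lit 0) (.e (nat_lit 3307) (nat_lit 202) (.e (nat_lit 573485) (nat_lit 13) (.e (nat_lit 65619) (nat_lit 10) (.e (nat_lit 344117) (nat_lit 21) .nil))))) (.g (nat_lit 0) (.e (nat_lit 334) (nat_lit 0) .nil) .nil))) 
(.lf (nat_lit 447368) (.g (nat_lit 2519) (.e (nat_lit 370) (nat_lit 32) (.e (nat_lit 426428) (nat_lit 17) (.e (nat_lit 90174) (nat_lit 14) (.e (nat_lit 180250) (nat_lit 10) (.e (nat_lit 573480) (nat_lit 13) (.e (nat_lit 65568) (nat_lit 2) (.e (nat_lit 98048) (nat_lit 0) .nil))))))) (.g (nat_lit 1) (.e (nat_lit 1856) (nat_lit 0) .nil) .nil))))) (.nd (nat_lit 7) (.nd (nat_lit 8) 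
(.lf (nat_lit 447048) (.g (nat_lit 2726) (.e (nat_lit 819237) (nat_lit 11) (.e (nat_lit 16473) (nat_lit 14) (.e (nat_lit 491560) (nat_lit 10) (.e (nat_lit 344157) (nat_lit 36) .nil)))) .nil)) 
(.lf (nat_lit 447304) (.g (nat_lit 2253) (.e (nat_lit 112) (nat_lit 3) (.e (nat_lit 98365) (nat_lit 26) (.e (nat_lit 426325) (nat_lit 13) (.e (nat_lit 483331) (nat_lit 0) .nil)))) (.g (nat_lit 0) (.e (nat_lit 1492) (nat_lit 0) .nil) .nil)))) (.nd (nat_lit 8) 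
(.lf (nat_lit 447176) (.g (nat_lit 1267) (.e (nat_lit 174) (nat_lit 12) (.e (nat_lit 204829) (nat_lit 18) (.e (nat_lit 57847) (nat_lit 252) (.e (nat_lit 57407) (nat_lit 12) .nil)))) (.g (nat_lit 0) (.e (nat_lit 1093) (nat_lit 0) .nil) .nil))) 
(.lf (nat_lit 447432) (.g (nat_lit 3110) (.e (nat_lit 377) (nat_lit 32) (.e (nat_lit 426125) (nat_lit 2) (.e (nat_lit 196666) (nat_lit 13) (.e (nat_lit 65617) (nat_lit 10) (.e (nat_lit 344132) (nat_lit 26) .nil))))) (.g (nat_lit 0) (.e (nat_lit 1997) (nat_lit 0) .nil) .nil)))))) (.nd (nat_lit 6) (.nd (nat_lit 7) (.nd (nat_lit 8) 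
(.lf (nat_lit 447016) (.g (nat_lit 587) (.e (nat_lit 819221) (nat_lit 6) (.e (nat_lit 188434) (nat_lit 20) (.e (nat_lit 3289) (nat_lit 201) (.e (nat_lit 565251) (nat_lit 0) (.e (nat_lit 1599) (nat_lit 111) .nil))))) .nil)) 
(.lf (nat_lit 447272) (.g (nat_lit 2429) (.e (nat_lit 202) (nat_lit 17) (.e (nat_lit 253992) (nat_lit 11) (.e (nat_lit 16411) (nat_lit 2) (.e (nat_lit 196672) (nat_lit 15) (.e (nat_lit 81943) (nat_lit 20) (.e (nat_lit 1842) (nat_lit 123) (.e (nat_lit 548872) (nat_lit 5) .nil))))))) (.g (nat_lit 1) (.e (nat_lit 1430) (nat_lit 0) .nil) .nil)))) (.nd (nat_lit 8) 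
(.lf (nat_lit 447144) (.g (nat_lit 696) (.e (nat_lit 162) (nat_lit 11) (.e (nat_lit 196668) (nat_lit 14) (.e (nat_lit 73789) (nat_lit 45) .nil))) (.g (nat_lit 0) (.e (nat_lit 906) (nat_lit 0) .nil) .nil))) 
(.lf (nat_lit 447400) (.g (nat_lit 1590) (.e (nat_lit 371) (nat_lit 32) (.e (nat_lit 426544) (nat_lit 30) (.e (nat_lit 360466) (nat_lit 3) (.e (nat_lit 516191) (nat_lit 17) (.e (nat_lit 6209) (nat_lit 333) (.e (nat_lit 57878) (nat_lit 270) .nil)))))) (.g (nat_lit 1) (.e (nat_lit 1917) (nat_lit 0) .nil) .nil))))) (.nd (nat_lit 7) (.nd (nat_lit 8) 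
(.lf (nat_lit 447080) (.g (nat_lit 3233) (.e (nat_lit 27) (nat_lit 0) (.e (nat_lit 6101) (nat_lit 332) (.e (nat_lit 2812) (nat_lit 180) (.e (nat_lit 303119) (nat_lit 3) (.e (nat_lit 204869) (nat_lit 29) (.e (nat_lit 360474) (nat_lit 8) (.e (nat_lit 557073) (nat_lit 9) .nil))))))) (.g (nat_lit 1) (.e (nat_lit 138) (nat_lit 0) .nil) .nil))) 
(.lf (nat_lit 447336) (.g (nat_lit 2652) (.e (nat_lit 359) (nat_lit 30) (.e (nat_lit 409603) (nat_lit 0) (.e (nat_lit 5394) (nat_lit 301) (.e (nat_lit 57464) (nat_lit 23) (.e (nat_lit 516166) (nat_lit 12) (.e (nat_lit 450587) (nat_lit 10) (.e (nat_lit 573457) (nat_lit 9) .nil))))))) (.g (nat_lit 1) (.e (nat_lit 1528) (nat_lit 0) .nil) .nil)))) (.nd (nat_lit 8) 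
(.lf (nat_lit 447208) (.g (nat_lit 397) (.e (nat_lit 174) (nat_lit 12) (.e (nat_lit 204861) (nat_lit 26) (.e (nat_lit 336213) (nat_lit 13) .nil))) (.g (nat_lit 0) (.e (nat_lit 1161) (nat_lit 0) .nil) .nil))) 
(.lf (nat_lit 447464) (.g (nat_lit 6016) (.e (nat_lit 375) (nat_lit 32) (.e (nat_lit 426125) (nat_lit 2) (.e (nat_lit 196666) (nat_lit 13) (.e (nat_lit 65610) (nat_lit 10) (.e (nat_lit 344127) (nat_lit 26) (.e (nat_lit 557090) (nat_lit 12) (.e (nat_lit 164022) (nat_lit 46) (.e (nat_lit 704627) (nat_lit 9) .nil)))))))) (.g (nat_lit 1) (.e (nat_lit 2123) (nat_lit 0) .nil) .nil))))))) 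
(.nd (nat_lit 5) (.nd (nat_lit 6) (.nd (nat_lit 7) (.nd (nat_lit 8) 
(.lf (nat_lit 447000) (.g (nat_lit 1280) (.e (nat_lit 819219) (nat_lit 4) (.e (nat_lit 172116) (nat_lit 10) (.e (nat_lit 434241) (nat_lit 27) (.e (nat_lit 565269) (nat_lit 6) (.e (nat_lit 81939) (nat_lit 20) (.e (nat_lit 2390) (nat_lit 156) .nil)))))) (.g (nat_lit 4) .nil .nil))) 
(.lf (nat_lit 447256) (.g (nat_lit 2515) (.e (nat_lit 174) (nat_lit 12) (.e (nat_lit 204877) (nat_lit 31) (.e (nat_lit 376842) (nat_lit 11) (.e (nat_lit 426408) (nat_lit 15) (.e (nat_lit 6207) (nat_lit 333) (.e (nat_lit 57879) (nat_lit 270) .nil)))))) (.g (nat_lit 1) (.e (nat_lit 1267) (nat_lit 0) .nil) .nil)))) (.nd (nat_lit 8) 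
(.lf (nat_lit 447128) (.g (nat_lit 3381) (.e (nat_lit 77) (nat_lit 0) (.e (nat_lit 3308) (nat_lit 202) (.e (nat_lit 573482) (nat_lit 13) (.e (nat_lit 65604) (nat_lit 9) (.e (nat_lit 336013) (nat_lit 2) (.e (nat_lit 90165) (nat_lit 12) (.e (nat_lit 164218) (nat_lit 179) (.e (nat_lit 164340) (nat_lit 232) .nil)))))))) (.g (nat_lit 1) (.e (nat_lit 493) (nat_lit 0) .nil) .nil))) 
(.lf (nat_lit 447384) (.g (nat_lit 3429) (.e (nat_lit 371) (nat_lit 32) (.e (nat_lit 426428) (nat_lit 17) (.e (nat_lit 90174) (nat_lit 14) (.e (nat_lit 180251) (nat_lit 10) (.e (nat_lit 573484) (nat_lit 13) (.e (nat_lit 65568) (nat_lit 2) (.e (nat_lit 98048) (nat_lit 0) .nil))))))) (.g (nat_lit 1) (.e (nat_lit 1877) (nat_lit 0) .nil) .nil))))) (.nd (nat_lit 7) (.nd (nat_lit 8) 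
(.lf (nat_lit 447064) (.g (nat_lit 2213) (.e (nat_lit 21) (nat_lit 0) (.e (nat_lit 3307) (nat_lit 202) (.e (nat_lit 573485) (nat_lit 13) (.e (nat_lit 65619) (nat_lit 10) (.e (nat_lit 344117) (nat_lit 21) .nil))))) (.g (nat_lit 0) (.e (nat_lit 65) (nat_lit 0) .nil) .nil))) 
(.lf (nat_lit 447320) (.g (nat_lit 5201) (.e (nat_lit 359) (nat_lit 30) (.e (nat_lit 409602) (nat_lit 0) (.e (nat_lit 5270) (nat_lit 298) (.e (nat_lit 1239) (nat_lit 91) (.e (nat_lit 90170) (nat_lit 13) (.e (nat_lit 172113) (nat_lit 10) (.e (nat_lit 434247) (nat_lit 28) (.e (nat_lit 573457) (nat_lit 9) .nil)))))))) (.g (nat_lit 1) (.e (nat_lit 1512) (nat_lit 0) .nil) .nil)))) (.nd (nat_lit 8) 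
(.lf (nat_lit 447192) (.g (nat_lit 2576) (.e (nat_lit 174) (nat_lit 12) (.e (nat_lit 204830) (nat_lit 18) (.e (nat_lit 57854) (nat_lit 252) (.e (nat_lit 57445) (nat_lit 19) (.e (nat_lit 393221) (nat_lit 0) (.e (nat_lit 6112) (nat_lit 332) (.e (nat_lit 2507) (nat_lit 157) (.e (nat_lit 5259) (nat_lit 298) .nil)))))))) (.g (nat_lit 1) (.e (nat_lit 1110) (nat_lit 0) .nil) .nil))) 
(.lf (nat_lit 447448) (.g (nat_lit 4408) (.e (nat_lit 375) (nat_lit 32) (.e (nat_lit 426025) (nat_lit 0) (.e (nat_lit 7559) (nat_lit 402) (.e (nat_lit 1234) (nat_lit 91) (.e (nat_lit 90170) (nat_lit 13) (.e (nat_lit 172106) (nat_lit 10) (.e (nat_lit 434244) (nat_lit 28) (.e (nat_lit 573450) (nat_lit 9) .nil)))))))) (.g (nat_lit 1) (.e (nat_lit 2053) (nat_lit 0) .nil) .nil)))))) 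
(.nd (nat_lit 6) (.nd (nat_lit 7) (.nd (nat_lit 8) 
(.lf (nat_lit 447032) (.g (nat_lit 1324) (.e (nat_lit 819221) (nat_lit 6) (.e (nat_lit 188449) (nat_lit 22) (.e (nat_lit 196614) (nat_lit 0) .nil))) .nil)) 
(.lf (nat_lit 447288) (.g (nat_lit 2690) (.e (nat_lit 7936) (nat_lit 2) (.e (nat_lit 90170) (nat_lit 13) (.e (nat_lit 172106) (nat_lit 10) (.e (nat_lit 434231) (nat_lit 23) (.e (nat_lit 532529) (nat_lit 9) .nil))))) (.g (nat_lit 0) (.e (nat_lit 1475) (nat_lit 0) .nil) .nil)))) (.nd (nat_lit 8) 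
(.lf (nat_lit 447160) (.g (nat_lit 2829) (.e (nat_lit 164) (nat_lit 11) (.e (nat_lit 196666) (nat_lit 13) (.e (nat_lit 65610) (nat_lit 10) (.e (nat_lit 344117) (nat_lit 21) (.e (nat_lit 516160) (nat_lit 10) (.e (nat_lit 434273) (nat_lit 39) (.e (nat_lit 663553) (nat_lit 0) .nil))))))) (.g (nat_lit 1) (.e (nat_lit 989) (nat_lit 0) .nil) .nil))) 
(.lf (nat_lit 447416) (.g (nat_lit 2438) (.e (nat_lit 372) (nat_lit 32) (.e (nat_lit 426320) (nat_lit 12) (.e (nat_lit 475185) (nat_lit 29) (.e (nat_lit 557100) (nat_lit 13) (.e (nat_lit 172113) (nat_lit 10) (.e (nat_lit 434248) (nat_lit 28) (.e (nat_lit 573450) (nat_lit 9) .nil))))))) (.g (nat_lit 1) (.e (nat_lit 1947) (nat_lit 0) .nil) .nil))))) (.nd (nat_lit 7) (.nd (nat_lit 8) 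
(.lf (nat_lit 447096) (.g (nat_lit 4190) (.e (nat_lit 42) (nat_lit 0) (.e (nat_lit 1853) (nat_lit 124) (.e (nat_lit 557109) (nat_lit 15) (.e (nat_lit 188452) (nat_lit 23) (.e (nat_lit 204846) (nat_lit 24) .nil))))) (.g (nat_lit 0) (.e (nat_lit 236) (nat_lit 0) .nil) .nil))) 
(.lf (nat_lit 447352) (.g (nat_lit 5356) (.e (nat_lit 365) (nat_lit 31) (.e (nat_lit 417811) (nat_lit 6) (.e (nat_lit 286733) (nat_lit 2) (.e (nat_lit 90170) (nat_lit 13) (.e (nat_lit 172106) (nat_lit 10) (.e (nat_lit 434244) (nat_lit 28) (.e (nat_lit 573451) (nat_lit 9) .nil))))))) (.g (nat_lit 1) (.e (nat_lit 1804) (nat_lit 0) .nil) .nil)))) (.nd (nat_lit 8) 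
(.lf (nat_lit 447224) (.g (nat_lit 2529) (.e (nat_lit 174) (nat_lit 12) (.e (nat_lit 204863) (nat_lit 27) (.e (nat_lit 344129) (nat_lit 26) (.e (nat_lit 557104) (nat_lit 14) (.e (nat_lit 180252) (nat_lit 10) .nil))))) (.g (nat_lit 0) (.e (nat_lit 1181) (nat_lit 0) .nil) .nil))) 
(.lf (nat_lit 447480) (.g (nat_lit 4723) (.e (nat_lit 375) (nat_lit 32) (.e (nat_lit 426125) (nat_lit 2) (.e (nat_lit 196666) (nat_lit 13) (.e (nat_lit 65610) (nat_lit 10) (.e (nat_lit 344128) (nat_lit 26) (.e (nat_lit 557091) (nat_lit 12) (.e (nat_lit 164022) (nat_lit 46) (.e (nat_lit 704626) (nat_lit 9) .nil)))))))) (.g (nat_lit 1) (.e (nat_lit 2139) (nat_lit 0) .nil) .nil))))))))) 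
(.nd (nat_lit 3) (.nd (nat_lit 4) (.nd (nat_lit 5) (.nd (nat_lit 6) (.nd (nat_lit 7) 
(.nd (nat_lit 8) 
(.lf (nat_lit 446980) (.g (nat_lit 1574) (.e (nat_lit 819219) (nat_lit 4) (.e (nat_lit 172113) (nat_lit 10) (.e (nat_lit 434241) (nat_lit 27) (.e (nat_lit 565269) (nat_lit 6) (.e (nat_lit 81942) (nat_lit 20) (.e (nat_lit 2390) (nat_lit 156) .nil)))))) (.g (nat_lit 4) .nil .nil))) 
(.lf (nat_lit 447236) (.g (nat_lit 2739) (.e (nat_lit 174) (nat_lit 12) (.e (nat_lit 204869) (nat_lit 29) (.e (nat_lit 360450) (nat_lit 0) (.e (nat_lit 7688) (nat_lit 411) .nil)))) (.g (nat_lit 0) (.e (nat_lit 1218) (nat_lit 0) .nil) .nil)))) (.nd (nat_lit 8) 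
(.lf (nat_lit 447108) (.g (nat_lit 3526) (.e (nat_lit 75) (nat_lit 0) (.e (nat_lit 3307) (nat_lit 202) (.e (nat_lit 573485) (nat_lit 13) (.e (nat_lit 65604) (nat_lit 9) (.e (nat_lit 336013) (nat_lit 2) (.e (nat_lit 90165) (nat_lit 12) (.e (nat_lit 164218) (nat_lit 179) (.e (nat_lit 164339) (nat_lit 232) .nil)))))))) (.g (nat_lit 1) (.e (nat_lit 324) (nat_lit 0) .nil) .nil))) 
(.lf (nat_lit 447364) (.g (nat_lit 5315) (.e (nat_lit 370) (nat_lit 32) (.e (nat_lit 426125) (nat_lit 2) (.e (nat_lit 196666) (nat_lit 13) (.e (nat_lit 65617) (nat_lit 10) (.e (nat_lit 344133) (nat_lit 26) (.e (nat_lit 557091) (nat_lit 12) (.e (nat_lit 164022) (nat_lit 46) (.e (nat_lit 704628) (nat_lit 9) .nil)))))))) (.g (nat_lit 1) (.e (nat_lit 1839) (nat_lit 0) .nil) .nil))))) 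
(.nd (nat_lit 7) (.nd (nat_lit 8) 
(.lf (nat_lit 447044) (.g (nat_lit 886) (.e (nat_lit 819237) (nat_lit 11) (.e (nat_lit 16436) (nat_lit 9) (.e (nat_lit 426482) (nat_lit 27) .nil))) .nil)) 
(.lf (nat_lit 447300) (.g (nat_lit 394) (.e (nat_lit 112) (nat_lit 3) (.e (nat_lit 98334) (nat_lit 18) (.e (nat_lit 164332) (nat_lit 230) .nil))) (.g (nat_lit 0) (.e (nat_lit 1488) (nat_lit 0) .nil) .nil)))) (.nd (nat_lit 8) 
(.lf (nat_lit 447172) (.g (nat_lit 2940) (.e (nat_lit 172) (nat_lit 12) (.e (nat_lit 204829) (nat_lit 18) (.e (nat_lit 57847) (nat_lit 252) (.e (nat_lit 57407) (nat_lit 12) (.e (nat_lit 336456) (nat_lit 34) .nil))))) (.g (nat_lit 0) (.e (nat_lit 1070) (nat_lit 0) .nil) .nil))) 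
(.lf (nat_lit 447428) (.g (nat_lit 4645) (.e (nat_lit 376) (nat_lit 32) (.e (nat_lit 426338) (nat_lit 14) (.e (nat_lit 491571) (nat_lit 13) (.e (nat_lit 393260) (nat_lit 21) (.e (nat_lit 409623) (nat_lit 10) (.e (nat_lit 5259) (nat_lit 298) .nil)))))) (.g (nat_lit 1) (.e (nat_lit 1991) (nat_lit 0) .nil) .nil)))))) (.nd (nat_lit 6) (.nd (nat_lit 7) (.nd (nat_lit 8) 
(.lf (nat_lit 447012) (.g (nat_lit 773) (.e (nat_lit 819221) (nat_lit 6) (.e (nat_lit 188431) (nat_lit 20) (.e (nat_lit 3282) (nat_lit 200) (.e (nat_lit 557061) (nat_lit 0) (.e (nat_lit 1585) (nat_lit 111) (.e (nat_lit 360493) (nat_lit 27) .nil)))))) (.g (nat_lit 0) .nil .nil))) 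
(.lf (nat_lit 447268) (.g (nat_lit 734) (.e (nat_lit 202) (nat_lit 17) (.e (nat_lit 253992) (nat_lit 11) (.e (nat_lit 16411) (nat_lit 2) .nil))) (.g (nat_lit 0) (.e (nat_lit 1426) (nat_lit 0) .nil) .nil)))) (.nd (nat_lit 8) 
(.lf (nat_lit 447140) (.g (nat_lit 2494) (.e (nat_lit 84) (nat_lit 0) (.e (nat_lit 3307) (nat_lit 202) (.e (nat_lit 573485) (nat_lit 13) (.e (nat_lit 65604) (nat_lit 9) (.e (nat_lit 336013) (nat_lit 2) (.e (nat_lit 90165) (nat_lit 12) (.e (nat_lit 164219) (nat_lit 180) (.e (nat_lit 229643) (nat_lit 232) .nil)))))))) (.g (nat_lit 1) (.e (nat_lit 689) (nat_lit 0) .nil) .nil))) 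
(.lf (nat_lit 447396) (.g (nat_lit 2228) (.e (nat_lit 371) (nat_lit 32) (.e (nat_lit 426542) (nat_lit 29) (.e (nat_lit 352313) (nat_lit 23) (.e (nat_lit 98309) (nat_lit 0) (.e (nat_lit 6216) (nat_lit 333) (.e (nat_lit 57883) (nat_lit 270) .nil)))))) (.g (nat_lit 1) (.e (nat_lit 1913) (nat_lit 0) .nil) .nil))))) (.nd (nat_lit 7) (.nd (nat_lit 8) 
(.lf (nat_lit 447076) (.g (nat_lit 3018) (.e (nat_lit 27) (nat_lit 0) (.e (nat_lit 3308) (nat_lit 202) (.e (nat_lit 573482) (nat_lit 13) (.e (nat_lit 65604) (nat_lit 9) (.e (nat_lit 336028) (nat_lit 3) (.e (nat_lit 98325) (nat_lit 17) (.e (nat_lit 7112) (nat_lit 381) (.e (nat_lit 229647) (nat_lit 232) .nil)))))))) (.g (nat_lit 1) (.e (nat_lit 117) (nat_lit 0) .nil) .nil))) 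
(.lf (nat_lit 447332) (.g (nat_lit 3506) (.e (nat_lit 359) (nat_lit 30) (.e (nat_lit 409603) (nat_lit 0) (.e (nat_lit 5270) (nat_lit 298) (.e (nat_lit 1239) (nat_lit 91) (.e (nat_lit 90170) (nat_lit 13) (.e (nat_lit 172113) (nat_lit 10) (.e (nat_lit 434245) (nat_lit 28) (.e (nat_lit 573448) (nat_lit 9) .nil)))))))) (.g (nat_lit 1) (.e (nat_lit 1524) (nat_lit 0) .nil) .nil)))) (.nd (nat_lit 8) 
(.lf (nat_lit 447204) (.g (nat_lit 1203) (.e (nat_lit 174) (nat_lit 12) (.e (nat_lit 204861) (nat_lit 26) (.e (nat_lit 336075) (nat_lit 9) (.e (nat_lit 336446) (nat_lit 33) (.e (nat_lit 483072) (nat_lit 17) .nil))))) (.g (nat_lit 0) (.e (nat_lit 1155) (nat_lit 0) .nil) .nil))) 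
(.lf (nat_lit 447460) (.g (nat_lit 1211) (.e (nat_lit 375) (nat_lit 32) (.e (nat_lit 426125) (nat_lit 2) (.e (nat_lit 196662) (nat_lit 13) .nil))) (.g (nat_lit 0) (.e (nat_lit 2082) (nat_lit 0) .nil) .nil))))))) (.nd (nat_lit 5) (.nd (nat_lit 6) (.nd (nat_lit 7) (.nd (nat_lit 8) 
(.lf (nat_lit 446996) (.g (nat_lit 3165) (.e (nat_lit 819219) (nat_lit 4) (.e (nat_lit 172115) (nat_lit 10) (.e (nat_lit 434244) (nat_lit 28) (.e (nat_lit 573503) (nat_lit 18) (.e (nat_lit 1015) (nat_lit 81) .nil))))) .nil)) 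
(.lf (nat_lit 447252) (.g (nat_lit 1283) (.e (nat_lit 174) (nat_lit 12) (.e (nat_lit 204877) (nat_lit 31) (.e (nat_lit 376842) (nat_lit 11) (.e (nat_lit 426406) (nat_lit 15) (.e (nat_lit 6215) (nat_lit 333) (.e (nat_lit 57883) (nat_lit 270) .nil)))))) (.g (nat_lit 1) (.e (nat_lit 1263) (nat_lit 0) .nil) .nil)))) (.nd (nat_lit 8) 
(.lf (nat_lit 447124) (.g (nat_lit 3675) (.e (nat_lit 75) (nat_lit 0) (.e (nat_lit 3308) (nat_lit 202) (.e (nat_lit 573482) (nat_lit 13) (.e (nat_lit 65619) (nat_lit 10) (.e (nat_lit 344117) (nat_lit 21) (.e (nat_lit 516106) (nat_lit 0) (.e (nat_lit 7095) (nat_lit 380) (.e (nat_lit 164340) (nat_lit 232) .nil)))))))) (.g (nat_lit 1) (.e (nat_lit 385) (nat_lit 0) .nil) .nil))) 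
(.lf (nat_lit 447380) (.g (nat_lit 4555) (.e (nat_lit 371) (nat_lit 32) (.e (nat_lit 426428) (nat_lit 17) (.e (nat_lit 90174) (nat_lit 14) (.e (nat_lit 180250) (nat_lit 10) (.e (nat_lit 573482) (nat_lit 13) (.e (nat_lit 65568) (nat_lit 2) (.e (nat_lit 98048) (nat_lit 0) .nil))))))) (.g (nat_lit 1) (.e (nat_lit 1873) (nat_lit 0) .nil) .nil))))) (.nd (nat_lit 7) (.nd (nat_lit 8) 
(.lf (nat_lit 447060) (.g (nat_lit 3013) (.e (nat_lit 20) (nat_lit 0) (.e (nat_lit 3307) (nat_lit 202) (.e (nat_lit 573485) (nat_lit 13) (.e (nat_lit 65619) (nat_lit 10) (.e (nat_lit 344117) (nat_lit 21) (.e (nat_lit 516106) (nat_lit 0) (.e (nat_lit 7112) (nat_lit 381) (.e (nat_lit 229647) (nat_lit 232) .nil)))))))) (.g (nat_lit 1) (.e (nat_lit 28) (nat_lit 0) .nil) .nil))) 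
(.lf (nat_lit 447316) (.g (nat_lit 2469) (.e (nat_lit 359) (nat_lit 30) (.e (nat_lit 409602) (nat_lit 0) (.e (nat_lit 5270) (nat_lit 298) (.e (nat_lit 1239) (nat_lit 91) (.e (nat_lit 90170) (nat_lit 13) (.e (nat_lit 172113) (nat_lit 10) (.e (nat_lit 434242) (nat_lit 28) (.e (nat_lit 573455) (nat_lit 9) .nil)))))))) (.g (nat_lit 1) (.e (nat_lit 1508) (nat_lit 0) .nil) .nil)))) (.nd (nat_lit 8) 
(.lf (nat_lit 447188) (.g (nat_lit 1519) (.e (nat_lit 174) (nat_lit 12) (.e (nat_lit 204830) (nat_lit 18) (.e (nat_lit 57854) (nat_lit 252) (.e (nat_lit 57406) (nat_lit 12) (.e (nat_lit 336456) (nat_lit 34) .nil))))) (.g (nat_lit 0) (.e (nat_lit 1106) (nat_lit 0) .nil) .nil))) 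
(.lf (nat_lit 447444) (.g (nat_lit 3589) (.e (nat_lit 375) (nat_lit 32) (.e (nat_lit 426025) (nat_lit 0) (.e (nat_lit 7936) (nat_lit 200) (.e (nat_lit 557105) (nat_lit 14) (.e (nat_lit 180252) (nat_lit 10) (.e (nat_lit 573482) (nat_lit 13) (.e (nat_lit 65568) (nat_lit 2) (.e (nat_lit 98048) (nat_lit 0) .nil)))))))) (.g (nat_lit 1) (.e (nat_lit 2042) (nat_lit 0) .nil) .nil)))))) 
(.nd (nat_lit 6) (.nd (nat_lit 7) (.nd (nat_lit 8) 
(.lf (nat_lit 447028) (.g (nat_lit 1335) (.e (nat_lit 819221) (nat_lit 6) (.e (nat_lit 188446) (nat_lit 21) (.e (nat_lit 164116) (nat_lit 122) (.e (nat_lit 7936) (nat_lit 90) .nil)))) .nil)) 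
(.lf (nat_lit 447284) (.g (nat_lit 1619) (.e (nat_lit 7936) (nat_lit 17) (.e (nat_lit 253991) (nat_lit 11) (.e (nat_lit 16412) (nat_lit 2) (.e (nat_lit 196668) (nat_lit 14) .nil)))) (.g (nat_lit 0) (.e (nat_lit 1442) (nat_lit 0) .nil) .nil)))) (.nd (nat_lit 8) 
(.lf (nat_lit 447156) (.g (nat_lit 3202) (.e (nat_lit 163) (nat_lit 11) (.e (nat_lit 196666) (nat_lit 13) (.e (nat_lit 65610) (nat_lit 10) (.e (nat_lit 344117) (nat_lit 21) (.e (nat_lit 516160) (nat_lit 10) (.e (nat_lit 434278) (nat_lit 39) (.e (nat_lit 663552) (nat_lit 0) .nil))))))) (.g (nat_lit 1) (.e (nat_lit 975) (nat_lit 0) .nil) .nil))) 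
(.lf (nat_lit 447412) (.g (nat_lit 3338) (.e (nat_lit 372) (nat_lit 32) (.e (nat_lit 426131) (nat_lit 3) (.e (nat_lit 204868) (nat_lit 29) (.e (nat_lit 360473) (nat_lit 8) (.e (nat_lit 557091) (nat_lit 12) (.e (nat_lit 164022) (nat_lit 46) (.e (nat_lit 704629) (nat_lit 9) .nil))))))) (.g (nat_lit 1) (.e (nat_lit 1943) (nat_lit 0) .nil) .nil))))) (.nd (nat_lit 7) (.nd (nat_lit 8) 
(.lf (nat_lit 447092) (.g (nat_lit 3060) (.e (nat_lit 39) (nat_lit 0) (.e (nat_lit 1853) (nat_lit 124) (.e (nat_lit 557105) (nat_lit 14) (.e (nat_lit 180252) (nat_lit 10) (.e (nat_lit 573489) (nat_lit 14) .nil))))) (.g (nat_lit 0) (.e (nat_lit 232) (nat_lit 0) .nil) .nil))) 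
(.lf (nat_lit 447348) (.g (nat_lit 2577) (.e (nat_lit 365) (nat_lit 31) (.e (nat_lit 417796) (nat_lit 0) (.e (nat_lit 5395) (nat_lit 301) (.e (nat_lit 57464) (nat_lit 23) (.e (nat_lit 516166) (nat_lit 12) (.e (nat_lit 450587) (nat_lit 10) (.e (nat_lit 573457) (nat_lit 9) .nil))))))) (.g (nat_lit 1) (.e (nat_lit 1800) (nat_lit 0) .nil) .nil)))) (.nd (nat_lit 8) 
(.lf (nat_lit 447220) (.g (nat_lit 970) (.e (nat_lit 174) (nat_lit 12) (.e (nat_lit 204863) (nat_lit 27) (.e (nat_lit 344118) (nat_lit 21) .nil))) (.g (nat_lit 0) (.e (nat_lit 1177) (nat_lit 0) .nil) .nil))) 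
(.lf (nat_lit 447476) (.g (nat_lit 2847) (.e (nat_lit 375) (nat_lit 32) (.e (nat_lit 426125) (nat_lit 2) (.e (nat_lit 196666) (nat_lit 13) (.e (nat_lit 65610) (nat_lit 10) (.e (nat_lit 344128) (nat_lit 26) .nil))))) (.g (nat_lit 0) (.e (nat_lit 2135) (nat_lit 0) .nil) .nil)))))))) (.nd (nat_lit 4) (.nd (nat_lit 5) (.nd (nat_lit 6) (.nd (nat_lit 7) (.nd (nat_lit 8) 
(.lf (nat_lit 446988) (.g (nat_lit 1489) (.e (nat_lit 819219) (nat_lit 4) (.e (nat_lit 172115) (nat_lit 10) (.e (nat_lit 434241) (nat_lit 27) (.e (nat_lit 565269) (nat_lit 6) (.e (nat_lit 81938) (nat_lit 20) (.e (nat_lit 2389) (nat_lit 156) .nil)))))) (.g (nat_lit 4) .nil .nil))) 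
(.lf (nat_lit 447244) (.g (nat_lit 2464) (.e (nat_lit 174) (nat_lit 12) (.e (nat_lit 204876) (nat_lit 31) (.e (nat_lit 376842) (nat_lit 11) (.e (nat_lit 426408) (nat_lit 15) (.e (nat_lit 6207) (nat_lit 333) (.e (nat_lit 57878) (nat_lit 270) .nil)))))) (.g (nat_lit 1) (.e (nat_lit 1255) (nat_lit 0) .nil) .nil)))) (.nd (nat_lit 8) 
(.lf (nat_lit 447116) (.g (nat_lit 4087) (.e (nat_lit 75) (nat_lit 0) (.e (nat_lit 3307) (nat_lit 202) (.e (nat_lit 573485) (nat_lit 13) (.e (nat_lit 65619) (nat_lit 10) (.e (nat_lit 344117) (nat_lit 21) (.e (nat_lit 516106) (nat_lit 0) (.e (nat_lit 7095) (nat_lit 380) (.e (nat_lit 164340) (nat_lit 232) .nil)))))))) (.g (nat_lit 1) (.e (nat_lit 338) (nat_lit 0) .nil) .nil))) 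
(.lf (nat_lit 447372) (.g (nat_lit 2092) (.e (nat_lit 371) (nat_lit 32) (.e (nat_lit 426337) (nat_lit 14) (.e (nat_lit 491570) (nat_lit 13) (.e (nat_lit 393238) (nat_lit 17) (.e (nat_lit 6989) (nat_lit 377) (.e (nat_lit 2404) (nat_lit 157) (.e (nat_lit 5259) (nat_lit 298) .nil))))))) (.g (nat_lit 1) (.e (nat_lit 1864) (nat_lit 0) .nil) .nil))))) (.nd (nat_lit 7) (.nd (nat_lit 8) 
(.lf (nat_lit 447052) (.g (nat_lit 1686) (.e (nat_lit 819244) (nat_lit 14) (.e (nat_lit 1348) (nat_lit 102) (.e (nat_lit 286759) (nat_lit 12) (.e (nat_lit 385094) (nat_lit 49) .nil)))) .nil)) 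
(.lf (nat_lit 447308) (.g (nat_lit 1876) (.e (nat_lit 140) (nat_lit 8) (.e (nat_lit 147496) (nat_lit 11) (.e (nat_lit 24603) (nat_lit 2) (.e (nat_lit 90172) (nat_lit 14) (.e (nat_lit 180285) (nat_lit 45) .nil))))) (.g (nat_lit 0) (.e (nat_lit 1500) (nat_lit 0) .nil) .nil)))) (.nd (nat_lit 8) 
(.lf (nat_lit 447180) (.g (nat_lit 2019) (.e (nat_lit 174) (nat_lit 12) (.e (nat_lit 204829) (nat_lit 18) (.e (nat_lit 57847) (nat_lit 252) (.e (nat_lit 57448) (nat_lit 19) (.e (nat_lit 393221) (nat_lit 0) .nil))))) (.g (nat_lit 0) (.e (nat_lit 1098) (nat_lit 0) .nil) .nil))) 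
(.lf (nat_lit 447436) (.g (nat_lit 2623) (.e (nat_lit 377) (nat_lit 32) (.e (nat_lit 426140) (nat_lit 3) (.e (nat_lit 204869) (nat_lit 29) (.e (nat_lit 360474) (nat_lit 8) (.e (nat_lit 557094) (nat_lit 12) .nil))))) (.g (nat_lit 0) (.e (nat_lit 2006) (nat_lit 0) .nil) .nil)))))) (.nd (nat_lit 6) (.nd (nat_lit 7) (.nd (nat_lit 8) 
(.lf (nat_lit 447020) (.g (nat_lit 507) (.e (nat_lit 819221) (nat_lit 6) (.e (nat_lit 188440) (nat_lit 20) (.e (nat_lit 3289) (nat_lit 201) (.e (nat_lit 565251) (nat_lit 0) .nil)))) .nil)) 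
(.lf (nat_lit 447276) (.g (nat_lit 2906) (.e (nat_lit 202) (nat_lit 17) (.e (nat_lit 253992) (nat_lit 11) (.e (nat_lit 16412) (nat_lit 2) (.e (nat_lit 196672) (nat_lit 15) (.e (nat_lit 81924) (nat_lit 0) (.e (nat_lit 3305) (nat_lit 202) (.e (nat_lit 573456) (nat_lit 9) .nil))))))) (.g (nat_lit 1) (.e (nat_lit 1434) (nat_lit 0) .nil) .nil)))) (.nd (nat_lit 8) 
(.lf (nat_lit 447148) (.g (nat_lit 4245) (.e (nat_lit 162) (nat_lit 11) (.e (nat_lit 196670) (nat_lit 14) (.e (nat_lit 73754) (nat_lit 8) (.e (nat_lit 557105) (nat_lit 14) (.e (nat_lit 180252) (nat_lit 10) (.e (nat_lit 573503) (nat_lit 18) (.e (nat_lit 1014) (nat_lit 81) (.e (nat_lit 5260) (nat_lit 298) .nil)))))))) (.g (nat_lit 1) (.e (nat_lit 925) (nat_lit 0) .nil) .nil))) 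
(.lf (nat_lit 447404) (.g (nat_lit 1469) (.e (nat_lit 371) (nat_lit 32) (.e (nat_lit 426544) (nat_lit 30) (.e (nat_lit 360466) (nat_lit 3) (.e (nat_lit 516191) (nat_lit 17) (.e (nat_lit 6217) (nat_lit 333) (.e (nat_lit 57883) (nat_lit 270) .nil)))))) (.g (nat_lit 1) (.e (nat_lit 1921) (nat_lit 0) .nil) .nil))))) (.nd (nat_lit 7) (.nd (nat_lit 8) 
(.lf (nat_lit 447084) (.g (nat_lit 2843) (.e (nat_lit 25) (nat_lit 0) (.e (nat_lit 3307) (nat_lit 202) (.e (nat_lit 573485) (nat_lit 13) (.e (nat_lit 65604) (nat_lit 9) (.e (nat_lit 336013) (nat_lit 2) (.e (nat_lit 90165) (nat_lit 12) (.e (nat_lit 164219) (nat_lit 180) (.e (nat_lit 229646) (nat_lit 232) .nil)))))))) (.g (nat_lit 1) (.e (nat_lit 159) (nat_lit 0) .nil) .nil))) 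
(.lf (nat_lit 447340) (.g (nat_lit 3759) (.e (nat_lit 359) (nat_lit 30) (.e (nat_lit 409605) (nat_lit 0) (.e (nat_lit 5270) (nat_lit 298) (.e (nat_lit 1239) (nat_lit 91) (.e (nat_lit 90170) (nat_lit 13) (.e (nat_lit 172113) (nat_lit 10) (.e (nat_lit 434245) (nat_lit 28) (.e (nat_lit 573449) (nat_lit 9) .nil)))))))) (.g (nat_lit 1) (.e (nat_lit 1532) (nat_lit 0) .nil) .nil)))) (.nd (nat_lit 8) 
(.lf (nat_lit 447212) (.g (nat_lit 2237) (.e (nat_lit 174) (nat_lit 12) (.e (nat_lit 204861) (nat_lit 26) (.e (nat_lit 336213) (nat_lit 13) (.e (nat_lit 393221) (nat_lit 0) (.e (nat_lit 6209) (nat_lit 333) (.e (nat_lit 57879) (nat_lit 270) .nil)))))) (.g (nat_lit 1) (.e (nat_lit 1166) (nat_lit 0) .nil) .nil))) 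
(.lf (nat_lit 447468) (.g (nat_lit 4789) (.e (nat_lit 375) (nat_lit 32) (.e (nat_lit 426125) (nat_lit 2) (.e (nat_lit 196666) (nat_lit 13) (.e (nat_lit 65610) (nat_lit 10) (.e (nat_lit 344127) (nat_lit 26) (.e (nat_lit 557093) (nat_lit 12) (.e (nat_lit 164022) (nat_lit 46) (.e (nat_lit 704626) (nat_lit 9) .nil)))))))) (.g (nat_lit 1) (.e (nat_lit 2127) (nat_lit 0) .nil) .nil))))))) 
(.nd (nat_lit 5) (.nd (nat_lit 6) (.nd (nat_lit 7) (.nd (nat_lit 8) 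
(.lf (nat_lit 447004) (.g (nat_lit 787) (.e (nat_lit 819219) (nat_lit 4) (.e (nat_lit 172120) (nat_lit 12) (.e (nat_lit 475169) (nat_lit 22) .nil))) .nil)) 
(.lf (nat_lit 447260) (.g (nat_lit 765) (.e (nat_lit 175) (nat_lit 12) (.e (nat_lit 204863) (nat_lit 27) (.e (nat_lit 344117) (nat_lit 21) .nil))) (.g (nat_lit 0) (.e (nat_lit 1282) (nat_lit 0) .nil) .nil)))) (.nd (nat_lit 8) 
(.lf (nat_lit 447132) (.g (nat_lit 4002) (.e (nat_lit 78) (nat_lit 0) (.e (nat_lit 3307) (nat_lit 202) (.e (nat_lit 573485) (nat_lit 13) (.e (nat_lit 65619) (nat_lit 10) (.e (nat_lit 344117) (nat_lit 21) (.e (nat_lit 516106) (nat_lit 0) (.e (nat_lit 7112) (nat_lit 381) (.e (nat_lit 229645) (nat_lit 232) .nil)))))))) (.g (nat_lit 1) (.e (nat_lit 576) (nat_lit 0) .nil) .nil))) 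
(.lf (nat_lit 447388) (.g (nat_lit 3701) (.e (nat_lit 371) (nat_lit 32) (.e (nat_lit 426438) (nat_lit 18) (.e (nat_lit 98367) (nat_lit 27) (.e (nat_lit 434244) (nat_lit 28) (.e (nat_lit 573481) (nat_lit 13) (.e (nat_lit 65568) (nat_lit 2) (.e (nat_lit 98048) (nat_lit 0) .nil))))))) (.g (nat_lit 1) (.e (nat_lit 1902) (nat_lit 0) .nil) .nil))))) (.nd (nat_lit 7) (.nd (nat_lit 8) 
(.lf (nat_lit 447068) (.g (nat_lit 2239) (.e (nat_lit 27) (nat_lit 0) (.e (nat_lit 3307) (nat_lit 202) (.e (nat_lit 573485) (nat_lit 13) (.e (nat_lit 65604) (nat_lit 9) (.e (nat_lit 336013) (nat_lit 2) (.e (nat_lit 90165) (nat_lit 12) (.e (nat_lit 164219) (nat_lit 180) (.e (nat_lit 229647) (nat_lit 232) .nil)))))))) (.g (nat_lit 1) (.e (nat_lit 107) (nat_lit 0) .nil) .nil))) 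
(.lf (nat_lit 447324) (.g (nat_lit 4163) (.e (nat_lit 359) (nat_lit 30) (.e (nat_lit 409602) (nat_lit 0) (.e (nat_lit 5293) (nat_lit 298) (.e (nat_lit 1232) (nat_lit 91) (.e (nat_lit 90170) (nat_lit 13) (.e (nat_lit 172113) (nat_lit 10) (.e (nat_lit 434245) (nat_lit 28) (.e (nat_lit 573451) (nat_lit 9) .nil)))))))) (.g (nat_lit 1) (.e (nat_lit 1516) (nat_lit 0) .nil) .nil)))) (.nd (nat_lit 8) 
(.lf (nat_lit 447196) (.g (nat_lit 1853) (.e (nat_lit 174) (nat_lit 12) (.e (nat_lit 204835) (nat_lit 19) (.e (nat_lit 106536) (nat_lit 11) (.e (nat_lit 16412) (nat_lit 2) (.e (nat_lit 196668) (nat_lit 14) .nil))))) (.g (nat_lit 0) (.e (nat_lit 1115) (nat_lit 0) .nil) .nil))) 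
(.lf (nat_lit 447452) (.g (nat_lit 3899) (.e (nat_lit 375) (nat_lit 32) (.e (nat_lit 426113) (nat_lit 2) (.e (nat_lit 196666) (nat_lit 13) (.e (nat_lit 65617) (nat_lit 10) (.e (nat_lit 344132) (nat_lit 26) (.e (nat_lit 557093) (nat_lit 12) (.e (nat_lit 164022) (nat_lit 46) (.e (nat_lit 704629) (nat_lit 9) .nil)))))))) (.g (nat_lit 1) (.e (nat_lit 2057) (nat_lit 0) .nil) .nil)))))) 
(.nd (nat_lit 6) (.nd (nat_lit 7) (.nd (nat_lit 8) 
(.lf (nat_lit 447036) (.g (nat_lit 1290) (.e (nat_lit 819223) (nat_lit 8) (.e (nat_lit 237601) (nat_lit 9) (.e (nat_lit 426432) (nat_lit 17) (.e (nat_lit 98048) (nat_lit 6) (.e (nat_lit 81938) (nat_lit 20) (.e (nat_lit 2390) (nat_lit 156) .nil)))))) (.g (nat_lit 5) .nil .nil))) 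
(.lf (nat_lit 447292) (.g (nat_lit 1041) (.e (nat_lit 110) (nat_lit 3) (.e (nat_lit 98381) (nat_lit 31) (.e (nat_lit 466954) (nat_lit 11) (.e (nat_lit 336288) (nat_lit 15) .nil)))) (.g (nat_lit 0) (.e (nat_lit 1480) (nat_lit 0) .nil) .nil)))) (.nd (nat_lit 8) 
(.lf (nat_lit 447164) (.g (nat_lit 1003) (.e (nat_lit 170) (nat_lit 12) (.e (nat_lit 204829) (nat_lit 18) (.e (nat_lit 57847) (nat_lit 252) .nil))) (.g (nat_lit 0) (.e (nat_lit 1010) (nat_lit 0) .nil) .nil))) 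
(.lf (nat_lit 447420) (.g (nat_lit 3824) (.e (nat_lit 372) (nat_lit 32) (.e (nat_lit 426428) (nat_lit 17) (.e (nat_lit 90174) (nat_lit 14) (.e (nat_lit 180250) (nat_lit 10) (.e (nat_lit 573482) (nat_lit 13) (.e (nat_lit 65568) (nat_lit 2) (.e (nat_lit 98048) (nat_lit 0) .nil))))))) (.g (nat_lit 1) (.e (nat_lit 1958) (nat_lit 0) .nil) .nil))))) (.nd (nat_lit 7) (.nd (nat_lit 8) 
(.lf (nat_lit 447100) (.g (nat_lit 1217) (.e (nat_lit 56) (nat_lit 0) (.e (nat_lit 2059) (nat_lit 142) (.e (nat_lit 704595) (nat_lit 5) (.e (nat_lit 188160) (nat_lit 35) .nil)))) (.g (nat_lit 0) (.e (nat_lit 259) (nat_lit 0) .nil) .nil))) 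
(.lf (nat_lit 447356) (.g (nat_lit 2210) (.e (nat_lit 370) (nat_lit 32) (.e (nat_lit 426125) (nat_lit 2) (.e (nat_lit 196666) (nat_lit 13) (.e (nat_lit 65617) (nat_lit 10) (.e (nat_lit 344127) (nat_lit 26) .nil))))) (.g (nat_lit 0) (.e (nat_lit 1831) (nat_lit 0) .nil) .nil)))) (.nd (nat_lit 8) 
(.lf (nat_lit 447228) (.g (nat_lit 722) (.e (nat_lit 174) (nat_lit 12) (.e (nat_lit 204863) (nat_lit 27) (.e (nat_lit 344132) (nat_lit 26) .nil))) (.g (nat_lit 0) (.e (nat_lit 1185) (nat_lit 0) .nil) .nil))) 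
(.lf (nat_lit 447484) (.g (nat_lit 4476) (.e (nat_lit 375) (nat_lit 32) (.e (nat_lit 426125) (nat_lit 2) (.e (nat_lit 196666) (nat_lit 13) (.e (nat_lit 65610) (nat_lit 10) (.e (nat_lit 344128) (nat_lit 26) (.e (nat_lit 557093) (nat_lit 12) (.e (nat_lit 164022) (nat_lit 46) (.e (nat_lit 704626) (nat_lit 9) .nil)))))))) (.g (nat_lit 1) (.e (nat_lit 2143) (nat_lit 0) .nil) .nil)))))))))) 
(.nd (nat_lit 2) (.nd (nat_lit 3) (.nd (nat_lit 4) (.nd (nat_lit 5) (.nd (nat_lit 6) 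
(.nd (nat_lit 7) (.nd (nat_lit 8) 
(.lf (nat_lit 446978) (.g (nat_lit 2980) (.e (nat_lit 819219) (nat_lit 4) (.e (nat_lit 172113) (nat_lit 10) (.e (nat_lit 434241) (nat_lit 27) (.e (nat_lit 565269) (nat_lit 6) (.e (nat_lit 81938) (nat_lit 20) (.e (nat_lit 2391) (nat_lit 156) .nil)))))) (.g (nat_lit 0) .nil .nil))) 
(.lf (nat_lit 447234) (.g (nat_lit 1109) (.e (nat_lit 174) (nat_lit 12) (.e (nat_lit 204869) (nat_lit 29) (.e (nat_lit 360448) (nat_lit 0) .nil))) (.g (nat_lit 0) (.e (nat_lit 1208) (nat_lit 0) .nil) .nil)))) (.nd (nat_lit 8) 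
(.lf (nat_lit 447106) (.g (nat_lit 3566) (.e (nat_lit 75) (nat_lit 0) (.e (nat_lit 3307) (nat_lit 202) (.e (nat_lit 573485) (nat_lit 13) (.e (nat_lit 65604) (nat_lit 9) (.e (nat_lit 336013) (nat_lit 2) (.e (nat_lit 90165) (nat_lit 12) (.e (nat_lit 164218) (nat_lit 179) (.e (nat_lit 164337) (nat_lit 232) .nil)))))))) (.g (nat_lit 1) (.e (nat_lit 322) (nat_lit 0) .nil) .nil))) 
(.lf (nat_lit 447362) (.g (nat_lit 4696) (.e (nat_lit 370) (nat_lit 32) (.e (nat_lit 426125) (nat_lit 2) (.e (nat_lit 196666) (nat_lit 13) (.e (nat_lit 65617) (nat_lit 10) (.e (nat_lit 344132) (nat_lit 26) (.e (nat_lit 557094) (nat_lit 12) (.e (nat_lit 164022) (nat_lit 46) (.e (nat_lit 704628) (nat_lit 9) .nil)))))))) (.g (nat_lit 1) (.e (nat_lit 1837) (nat_lit 0) .nil) .nil))))) 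
(.nd (nat_lit 7) (.nd (nat_lit 8) 
(.lf (nat_lit 447042) (.g (nat_lit 1416) (.e (nat_lit 819237) (nat_lit 11) (.e (nat_lit 16425) (nat_lit 7) (.e (nat_lit 409649) (nat_lit 18) (.e (nat_lit 303143) (nat_lit 12) .nil)))) .nil)) 
(.lf (nat_lit 447298) (.g (nat_lit 3550) (.e (nat_lit 112) (nat_lit 3) (.e (nat_lit 98334) (nat_lit 18) (.e (nat_lit 164330) (nat_lit 230) (.e (nat_lit 163941) (nat_lit 19) (.e (nat_lit 483333) (nat_lit 0) .nil))))) (.g (nat_lit 0) (.e (nat_lit 1486) (nat_lit 0) .nil) .nil)))) (.nd (nat_lit 8) 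
(.lf (nat_lit 447170) (.g (nat_lit 829) (.e (nat_lit 171) (nat_lit 12) (.e (nat_lit 204830) (nat_lit 18) (.e (nat_lit 57854) (nat_lit 252) .nil))) (.g (nat_lit 0) (.e (nat_lit 1039) (nat_lit 0) .nil) .nil))) 
(.lf (nat_lit 447426) (.g (nat_lit 1262) (.e (nat_lit 376) (nat_lit 32) (.e (nat_lit 426338) (nat_lit 14) (.e (nat_lit 491570) (nat_lit 13) (.e (nat_lit 393238) (nat_lit 17) .nil)))) (.g (nat_lit 0) (.e (nat_lit 1988) (nat_lit 0) .nil) .nil)))))) (.nd (nat_lit 6) (.nd (nat_lit 7) (.nd (nat_lit 8) 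
(.lf (nat_lit 447010) (.g (nat_lit 773) (.e (nat_lit 819221) (nat_lit 6) (.e (nat_lit 188428) (nat_lit 20) (.e (nat_lit 3282) (nat_lit 200) (.e (nat_lit 557061) (nat_lit 0) (.e (nat_lit 1597) (nat_lit 111) (.e (nat_lit 360493) (nat_lit 27) .nil)))))) (.g (nat_lit 0) .nil .nil))) 
(.lf (nat_lit 447266) (.g (nat_lit 2160) (.e (nat_lit 202) (nat_lit 17) (.e (nat_lit 253991) (nat_lit 11) (.e (nat_lit 16412) (nat_lit 2) (.e (nat_lit 196672) (nat_lit 15) (.e (nat_lit 81943) (nat_lit 20) .nil))))) (.g (nat_lit 0) (.e (nat_lit 1424) (nat_lit 0) .nil) .nil)))) (.nd (nat_lit 8) 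
(.lf (nat_lit 447138) (.g (nat_lit 3828) (.e (nat_lit 78) (nat_lit 0) (.e (nat_lit 3308) (nat_lit 202) (.e (nat_lit 573482) (nat_lit 13) (.e (nat_lit 65619) (nat_lit 10) (.e (nat_lit 344117) (nat_lit 21) (.e (nat_lit 516106) (nat_lit 0) (.e (nat_lit 7112) (nat_lit 381) (.e (nat_lit 229645) (nat_lit 232) .nil)))))))) (.g (nat_lit 1) (.e (nat_lit 602) (nat_lit 0) .nil) .nil))) 
(.lf (nat_lit 447394) (.g (nat_lit 1160) (.e (nat_lit 371) (nat_lit 32) (.e (nat_lit 426509) (nat_lit 27) (.e (nat_lit 336177) (nat_lit 10) (.e (nat_lit 344117) (nat_lit 21) (.e (nat_lit 516191) (nat_lit 17) .nil))))) (.g (nat_lit 0) (.e (nat_lit 1911) (nat_lit 0) .nil) .nil))))) (.nd (nat_lit 7) (.nd (nat_lit 8) 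
(.lf (nat_lit 447074) (.g (nat_lit 2807) (.e (nat_lit 27) (nat_lit 0) (.e (nat_lit 3308) (nat_lit 202) (.e (nat_lit 573482) (nat_lit 13) (.e (nat_lit 65604) (nat_lit 9) (.e (nat_lit 336028) (nat_lit 3) (.e (nat_lit 98325) (nat_lit 17) (.e (nat_lit 7112) (nat_lit 381) (.e (nat_lit 229644) (nat_lit 232) .nil)))))))) (.g (nat_lit 1) (.e (nat_lit 115) (nat_lit 0) .nil) .nil))) 
(.lf (nat_lit 447330) (.g (nat_lit 2789) (.e (nat_lit 359) (nat_lit 30) (.e (nat_lit 409602) (nat_lit 0) (.e (nat_lit 5394) (nat_lit 301) (.e (nat_lit 57464) (nat_lit 23) (.e (nat_lit 516165) (nat_lit 12) (.e (nat_lit 450586) (nat_lit 10) (.e (nat_lit 573457) (nat_lit 9) .nil))))))) (.g (nat_lit 1) (.e (nat_lit 1522) (nat_lit 0) .nil) .nil)))) (.nd (nat_lit 8) 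
(.lf (nat_lit 447202) (.g (nat_lit 1314) (.e (nat_lit 174) (nat_lit 12) (.e (nat_lit 204861) (nat_lit 26) (.e (nat_lit 336075) (nat_lit 9) (.e (nat_lit 336446) (nat_lit 33) (.e (nat_lit 475151) (nat_lit 17) .nil))))) (.g (nat_lit 0) (.e (nat_lit 1153) (nat_lit 0) .nil) .nil))) 
(.lf (nat_lit 447458) (.g (nat_lit 3862) (.e (nat_lit 375) (nat_lit 32) (.e (nat_lit 426125) (nat_lit 2) (.e (nat_lit 196656) (nat_lit 11) (.e (nat_lit 16412) (nat_lit 2) .nil)))) (.g (nat_lit 0) (.e (nat_lit 2079) (nat_lit 0) .nil) .nil))))))) (.nd (nat_lit 5) (.nd (nat_lit 6) (.nd (nat_lit 7) (.nd (nat_lit 8) 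
(.lf (nat_lit 446994) (.g (nat_lit 1465) (.e (nat_lit 819219) (nat_lit 4) (.e (nat_lit 172115) (nat_lit 10) (.e (nat_lit 434244) (nat_lit 28) (.e (nat_lit 573500) (nat_lit 18) .nil)))) .nil)) 
(.lf (nat_lit 447250) (.g (nat_lit 2061) (.e (nat_lit 174) (nat_lit 12) (.e (nat_lit 204877) (nat_lit 31) (.e (nat_lit 376842) (nat_lit 11) (.e (nat_lit 426406) (nat_lit 15) (.e (nat_lit 6207) (nat_lit 333) (.e (nat_lit 57883) (nat_lit 270) .nil)))))) (.g (nat_lit 1) (.e (nat_lit 1261) (nat_lit 0) .nil) .nil)))) (.nd (nat_lit 8) 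
(.lf (nat_lit 447122) (.g (nat_lit 3453) (.e (nat_lit 75) (nat_lit 0) (.e (nat_lit 3308) (nat_lit 202) (.e (nat_lit 573482) (nat_lit 13) (.e (nat_lit 65619) (nat_lit 10) (.e (nat_lit 344117) (nat_lit 21) (.e (nat_lit 516106) (nat_lit 0) (.e (nat_lit 7095) (nat_lit 380) (.e (nat_lit 164338) (nat_lit 232) .nil)))))))) (.g (nat_lit 1) (.e (nat_lit 383) (nat_lit 0) .nil) .nil))) 
(.lf (nat_lit 447378) (.g (nat_lit 2627) (.e (nat_lit 371) (nat_lit 32) (.e (nat_lit 426428) (nat_lit 17) (.e (nat_lit 90174) (nat_lit 14) (.e (nat_lit 180250) (nat_lit 10) (.e (nat_lit 573481) (nat_lit 13) (.e (nat_lit 65568) (nat_lit 2) (.e (nat_lit 98048) (nat_lit 0) .nil))))))) (.g (nat_lit 1) (.e (nat_lit 1871) (nat_lit 0) .nil) .nil))))) (.nd (nat_lit 7) (.nd (nat_lit 8) 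
(.lf (nat_lit 447058) (.g (nat_lit 2138) (.e (nat_lit 20) (nat_lit 0) (.e (nat_lit 3307) (nat_lit 202) (.e (nat_lit 573485) (nat_lit 13) (.e (nat_lit 65604) (nat_lit 9) (.e (nat_lit 336013) (nat_lit 2) .nil))))) (.g (nat_lit 0) (.e (nat_lit 26) (nat_lit 0) .nil) .nil))) 
(.lf (nat_lit 447314) (.g (nat_lit 2156) (.e (nat_lit 359) (nat_lit 30) (.e (nat_lit 409602) (nat_lit 0) (.e (nat_lit 5270) (nat_lit 298) (.e (nat_lit 1239) (nat_lit 91) (.e (nat_lit 90170) (nat_lit 13) (.e (nat_lit 172106) (nat_lit 10) (.e (nat_lit 434244) (nat_lit 28) (.e (nat_lit 573449) (nat_lit 9) .nil)))))))) (.g (nat_lit 1) (.e (nat_lit 1506) (nat_lit 0) .nil) .nil)))) (.nd (nat_lit 8) 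
(.lf (nat_lit 447186) (.g (nat_lit 2616) (.e (nat_lit 174) (nat_lit 12) (.e (nat_lit 204830) (nat_lit 18) (.e (nat_lit 57852) (nat_lit 252) (.e (nat_lit 57447) (nat_lit 19) (.e (nat_lit 393221) (nat_lit 0) .nil))))) (.g (nat_lit 0) (.e (nat_lit 1104) (nat_lit 0) .nil) .nil))) 
(.lf (nat_lit 447442) (.g (nat_lit 2409) (.e (nat_lit 375) (nat_lit 32) (.e (nat_lit 426025) (nat_lit 0) (.e (nat_lit 7936) (nat_lit 200) (.e (nat_lit 557105) (nat_lit 14) (.e (nat_lit 180252) (nat_lit 10) (.e (nat_lit 573480) (nat_lit 13) (.e (nat_lit 65568) (nat_lit 2) (.e (nat_lit 98048) (nat_lit 0) .nil)))))))) (.g (nat_lit 1) (.e (nat_lit 2040) (nat_lit 0) .nil) .nil)))))) 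
(.nd (nat_lit 6) (.nd (nat_lit 7) (.nd (nat_lit 8) 
(.lf (nat_lit 447026) (.g (nat_lit 1324) (.e (nat_lit 819221) (nat_lit 6) (.e (nat_lit 188441) (nat_lit 20) (.e (nat_lit 3289) (nat_lit 201) (.e (nat_lit 565251) (nat_lit 0) (.e (nat_lit 1586) (nat_lit 111) (.e (nat_lit 360493) (nat_lit 27) .nil)))))) (.g (nat_lit 6) .nil .nil))) 
(.lf (nat_lit 447282) (.g (nat_lit 720) (.e (nat_lit 206) (nat_lit 17) (.e (nat_lit 253991) (nat_lit 11) (.e (nat_lit 16416) (nat_lit 3) .nil))) (.g (nat_lit 0) (.e (nat_lit 1440) (nat_lit 0) .nil) .nil)))) (.nd (nat_lit 8) 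
(.lf (nat_lit 447154) (.g (nat_lit 3558) (.e (nat_lit 163) (nat_lit 11) (.e (nat_lit 196666) (nat_lit 13) (.e (nat_lit 65610) (nat_lit 10) (.e (nat_lit 344117) (nat_lit 21) (.e (nat_lit 516159) (nat_lit 10) (.e (nat_lit 434275) (nat_lit 39) (.e (nat_lit 663552) (nat_lit 0) .nil))))))) (.g (nat_lit 1) (.e (nat_lit 973) (nat_lit 0) .nil) .nil))) 
(.lf (nat_lit 447410) (.g (nat_lit 2217) (.e (nat_lit 371) (nat_lit 32) (.e (nat_lit 426568) (nat_lit 34) (.e (nat_lit 393260) (nat_lit 21) (.e (nat_lit 409617) (nat_lit 10) .nil)))) (.g (nat_lit 0) (.e (nat_lit 1937) (nat_lit 0) .nil) .nil))))) (.nd (nat_lit 7) (.nd (nat_lit 8) 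
(.lf (nat_lit 447090) (.g (nat_lit 4759) (.e (nat_lit 19) (nat_lit 0) (.e (nat_lit 1858) (nat_lit 124) (.e (nat_lit 557109) (nat_lit 15) (.e (nat_lit 188452) (nat_lit 23) (.e (nat_lit 204846) (nat_lit 24) .nil))))) (.g (nat_lit 0) (.e (nat_lit 225) (nat_lit 0) .nil) .nil))) 
(.lf (nat_lit 447346) (.g (nat_lit 2415) (.e (nat_lit 365) (nat_lit 31) (.e (nat_lit 417795) (nat_lit 0) (.e (nat_lit 5395) (nat_lit 301) (.e (nat_lit 57464) (nat_lit 23) (.e (nat_lit 516166) (nat_lit 12) (.e (nat_lit 450587) (nat_lit 10) (.e (nat_lit 573457) (nat_lit 9) .nil))))))) (.g (nat_lit 1) (.e (nat_lit 1798) (nat_lit 0) .nil) .nil)))) (.nd (nat_lit 8) 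
(.lf (nat_lit 447218) (.g (nat_lit 1932) (.e (nat_lit 174) (nat_lit 12) (.e (nat_lit 204863) (nat_lit 27) (.e (nat_lit 344117) (nat_lit 21) (.e (nat_lit 516130) (nat_lit 3) (.e (nat_lit 221211) (nat_lit 22) (.e (nat_lit 196698) (nat_lit 19) (.e (nat_lit 57883) (nat_lit 270) .nil))))))) (.g (nat_lit 1) (.e (nat_lit 1175) (nat_lit 0) .nil) .nil))) 
(.lf (nat_lit 447474) (.g (nat_lit 3811) (.e (nat_lit 375) (nat_lit 32) (.e (nat_lit 426125) (nat_lit 2) (.e (nat_lit 196666) (nat_lit 13) (.e (nat_lit 65610) (nat_lit 10) (.e (nat_lit 344127) (nat_lit 26) (.e (nat_lit 557094) (nat_lit 12) (.e (nat_lit 164022) (nat_lit 46) (.e (nat_lit 704627) (nat_lit 9) .nil)))))))) (.g (nat_lit 1) (.e (nat_lit 2133) (nat_lit 0) .nil) .nil)))))))) 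
(.nd (nat_lit 4) (.nd (nat_lit 5) (.nd (nat_lit 6) (.nd (nat_lit 7) (.nd (nat_lit 8) 
(.lf (nat_lit 446986) (.g (nat_lit 1375) (.e (nat_lit 819219) (nat_lit 4) (.e (nat_lit 172115) (nat_lit 10) (.e (nat_lit 434241) (nat_lit 27) (.e (nat_lit 565251) (nat_lit 0) (.e (nat_lit 1598) (nat_lit 111) (.e (nat_lit 360493) (nat_lit 27) .nil)))))) (.g (nat_lit 5) .nil .nil))) 
(.lf (nat_lit 447242) (.g (nat_lit 1120) (.e (nat_lit 174) (nat_lit 12) (.e (nat_lit 204876) (nat_lit 31) (.e (nat_lit 376842) (nat_lit 11) (.e (nat_lit 426406) (nat_lit 15) (.e (nat_lit 6217) (nat_lit 333) (.e (nat_lit 57881) (nat_lit 270) .nil)))))) (.g (nat_lit 1) (.e (nat_lit 1253) (nat_lit 0) .nil) .nil)))) (.nd (nat_lit 8) 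
(.lf (nat_lit 447114) (.g (nat_lit 3930) (.e (nat_lit 75) (nat_lit 0) (.e (nat_lit 3307) (nat_lit 202) (.e (nat_lit 573485) (nat_lit 13) (.e (nat_lit 65619) (nat_lit 10) (.e (nat_lit 344117) (nat_lit 21) (.e (nat_lit 516106) (nat_lit 0) (.e (nat_lit 7095) (nat_lit 380) (.e (nat_lit 164338) (nat_lit 232) .nil)))))))) (.g (nat_lit 1) (.e (nat_lit 336) (nat_lit 0) .nil) .nil))) 
(.lf (nat_lit 447370) (.g (nat_lit 3701) (.e (nat_lit 370) (nat_lit 32) (.e (nat_lit 426482) (nat_lit 27) (.e (nat_lit 336060) (nat_lit 7) (.e (nat_lit 319505) (nat_lit 10) (.e (nat_lit 618) (nat_lit 48) (.e (nat_lit 557103) (nat_lit 14) (.e (nat_lit 188160) (nat_lit 32) .nil))))))) (.g (nat_lit 1) (.e (nat_lit 1858) (nat_lit 0) .nil) .nil))))) (.nd (nat_lit 7) (.nd (nat_lit 8) 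
(.lf (nat_lit 447050) (.g (nat_lit 3478) (.e (nat_lit 819237) (nat_lit 11) (.e (nat_lit 16473) (nat_lit 14) (.e (nat_lit 491560) (nat_lit 10) (.e (nat_lit 344160) (nat_lit 37) (.e (nat_lit 647195) (nat_lit 9) .nil))))) .nil)) 
(.lf (nat_lit 447306) (.g (nat_lit 2463) (.e (nat_lit 112) (nat_lit 3) (.e (nat_lit 98373) (nat_lit 29) (.e (nat_lit 450563) (nat_lit 0) (.e (nat_lit 6738) (nat_lit 365) .nil)))) (.g (nat_lit 0) (.e (nat_lit 1494) (nat_lit 0) .nil) .nil)))) (.nd (nat_lit 8) 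
(.lf (nat_lit 447178) (.g (nat_lit 2627) (.e (nat_lit 174) (nat_lit 12) (.e (nat_lit 204829) (nat_lit 18) (.e (nat_lit 57847) (nat_lit 252) (.e (nat_lit 57446) (nat_lit 19) .nil)))) (.g (nat_lit 0) (.e (nat_lit 1096) (nat_lit 0) .nil) .nil))) 
(.lf (nat_lit 447434) (.g (nat_lit 3922) (.e (nat_lit 377) (nat_lit 32) (.e (nat_lit 426125) (nat_lit 2) (.e (nat_lit 196666) (nat_lit 13) (.e (nat_lit 65617) (nat_lit 10) (.e (nat_lit 344132) (nat_lit 26) (.e (nat_lit 557094) (nat_lit 12) (.e (nat_lit 164022) (nat_lit 46) (.e (nat_lit 704629) (nat_lit 9) .nil)))))))) (.g (nat_lit 1) (.e (nat_lit 1999) (nat_lit 0) .nil) .nil)))))) 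
(.nd (nat_lit 6) (.nd (nat_lit 7) (.nd (nat_lit 8) 
(.lf (nat_lit 447018) (.g (nat_lit 304) (.e (nat_lit 819221) (nat_lit 6) (.e (nat_lit 188439) (nat_lit 20) (.e (nat_lit 3289) (nat_lit 201) (.e (nat_lit 565251) (nat_lit 0) .nil)))) .nil)) 
(.lf (nat_lit 447274) (.g (nat_lit 1457) (.e (nat_lit 202) (nat_lit 17) (.e (nat_lit 253992) (nat_lit 11) (.e (nat_lit 16412) (nat_lit 2) (.e (nat_lit 196666) (nat_lit 13) .nil)))) (.g (nat_lit 0) (.e (nat_lit 1432) (nat_lit 0) .nil) .nil)))) (.nd (nat_lit 8) 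
(.lf (nat_lit 447146) (.g (nat_lit 4235) (.e (nat_lit 162) (nat_lit 11) (.e (nat_lit 196670) (nat_lit 14) (.e (nat_lit 73753) (nat_lit 8) (.e (nat_lit 557105) (nat_lit 14) (.e (nat_lit 180252) (nat_lit 10) (.e (nat_lit 573503) (nat_lit 18) (.e (nat_lit 1014) (nat_lit 81) (.e (nat_lit 5260) (nat_lit 298) .nil)))))))) (.g (nat_lit 1) (.e (nat_lit 923) (nat_lit 0) .nil) .nil))) 
(.lf (nat_lit 447402) (.g (nat_lit 1586) (.e (nat_lit 371) (nat_lit 32) (.e (nat_lit 426544) (nat_lit 30) (.e (nat_lit 360466) (nat_lit 3) (.e (nat_lit 516191) (nat_lit 17) (.e (nat_lit 6216) (nat_lit 333) (.e (nat_lit 57883) (nat_lit 270) .nil)))))) (.g (nat_lit 1) (.e (nat_lit 1919) (nat_lit 0) .nil) .nil))))) (.nd (nat_lit 7) (.nd (nat_lit 8) 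
(.lf (nat_lit 447082) (.g (nat_lit 2099) (.e (nat_lit 25) (nat_lit 0) (.e (nat_lit 2788) (nat_lit 179) (.e (nat_lit 294959) (nat_lit 13) (.e (nat_lit 393260) (nat_lit 21) (.e (nat_lit 409648) (nat_lit 18) (.e (nat_lit 303108) (nat_lit 0) (.e (nat_lit 2422) (nat_lit 157) (.e (nat_lit 6252) (nat_lit 337) .nil)))))))) (.g (nat_lit 1) (.e (nat_lit 155) (nat_lit 0) .nil) .nil))) 
(.lf (nat_lit 447338) (.g (nat_lit 4458) (.e (nat_lit 359) (nat_lit 30) (.e (nat_lit 409604) (nat_lit 0) (.e (nat_lit 5270) (nat_lit 298) (.e (nat_lit 1239) (nat_lit 91) (.e (nat_lit 90170) (nat_lit 13) (.e (nat_lit 172113) (nat_lit 10) (.e (nat_lit 434248) (nat_lit 28) (.e (nat_lit 573455) (nat_lit 9) .nil)))))))) (.g (nat_lit 1) (.e (nat_lit 1530) (nat_lit 0) .nil) .nil)))) (.nd (nat_lit 8) 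
(.lf (nat_lit 447210) (.g (nat_lit 954) (.e (nat_lit 174) (nat_lit 12) (.e (nat_lit 204861) (nat_lit 26) (.e (nat_lit 336213) (nat_lit 13) (.e (nat_lit 393221) (nat_lit 0) .nil)))) (.g (nat_lit 0) (.e (nat_lit 1163) (nat_lit 0) .nil) .nil))) 
(.lf (nat_lit 447466) (.g (nat_lit 7093) (.e (nat_lit 375) (nat_lit 32) (.e (nat_lit 426125) (nat_lit 2) (.e (nat_lit 196666) (nat_lit 13) (.e (nat_lit 65610) (nat_lit 10) (.e (nat_lit 344127) (nat_lit 26) (.e (nat_lit 557090) (nat_lit 12) (.e (nat_lit 164022) (nat_lit 46) (.e (nat_lit 704629) (nat_lit 9) .nil)))))))) (.g (nat_lit 1) (.e (nat_lit 2125) (nat_lit 0) .nil) .nil))))))) 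
(.nd (nat_lit 5) (.nd (nat_lit 6) (.nd (nat_lit 7) (.nd (nat_lit 8) 
(.lf (nat_lit 447002) (.g (nat_lit 1759) (.e (nat_lit 819219) (nat_lit 4) (.e (nat_lit 172116) (nat_lit 10) (.e (nat_lit 434241) (nat_lit 27) (.e (nat_lit 565269) (nat_lit 6) (.e (nat_lit 81946) (nat_lit 20) (.e (nat_lit 2390) (nat_lit 156) .nil)))))) (.g (nat_lit 5) .nil .nil))) 
(.lf (nat_lit 447258) (.g (nat_lit 1214) (.e (nat_lit 174) (nat_lit 12) (.e (nat_lit 204877) (nat_lit 31) (.e (nat_lit 376842) (nat_lit 11) (.e (nat_lit 426410) (nat_lit 15) .nil)))) (.g (nat_lit 0) (.e (nat_lit 1269) (nat_lit 0) .nil) .nil)))) (.nd (nat_lit 8) 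
(.lf (nat_lit 447130) (.g (nat_lit 3772) (.e (nat_lit 78) (nat_lit 0) (.e (nat_lit 3307) (nat_lit 202) (.e (nat_lit 573485) (nat_lit 13) (.e (nat_lit 65604) (nat_lit 9) (.e (nat_lit 336013) (nat_lit 2) (.e (nat_lit 90165) (nat_lit 12) (.e (nat_lit 164219) (nat_lit 180) (.e (nat_lit 229645) (nat_lit 232) .nil)))))))) (.g (nat_lit 1) (.e (nat_lit 572) (nat_lit 0) .nil) .nil))) 
(.lf (nat_lit 447386) (.g (nat_lit 2914) (.e (nat_lit 371) (nat_lit 32) (.e (nat_lit 426428) (nat_lit 17) (.e (nat_lit 90174) (nat_lit 14) (.e (nat_lit 180252) (nat_lit 10) (.e (nat_lit 573482) (nat_lit 13) (.e (nat_lit 65568) (nat_lit 2) (.e (nat_lit 98048) (nat_lit 0) .nil))))))) (.g (nat_lit 1) (.e (nat_lit 1879) (nat_lit 0) .nil) .nil))))) (.nd (nat_lit 7) (.nd (nat_lit 8) 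
(.lf (nat_lit 447066) (.g (nat_lit 3155) (.e (nat_lit 22) (nat_lit 0) (.e (nat_lit 6236) (nat_lit 335) (.e (nat_lit 164359) (nat_lit 246) (.e (nat_lit 2679) (nat_lit 168) (.e (nat_lit 204869) (nat_lit 29) (.e (nat_lit 360474) (nat_lit 8) (.e (nat_lit 557073) (nat_lit 9) .nil))))))) (.g (nat_lit 1) (.e (nat_lit 98) (nat_lit 0) .nil) .nil))) 
(.lf (nat_lit 447322) (.g (nat_lit 5604) (.e (nat_lit 359) (nat_lit 30) (.e (nat_lit 409602) (nat_lit 0) (.e (nat_lit 5270) (nat_lit 298) (.e (nat_lit 1239) (nat_lit 91) (.e (nat_lit 90170) (nat_lit 13) (.e (nat_lit 172113) (nat_lit 10) (.e (nat_lit 434248) (nat_lit 28) (.e (nat_lit 573452) (nat_lit 9) .nil)))))))) (.g (nat_lit 1) (.e (nat_lit 1514) (nat_lit 0) .nil) .nil)))) (.nd (nat_lit 8) 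
(.lf (nat_lit 447194) (.g (nat_lit 2819) (.e (nat_lit 174) (nat_lit 12) (.e (nat_lit 204830) (nat_lit 18) (.e (nat_lit 57854) (nat_lit 252) (.e (nat_lit 57447) (nat_lit 19) (.e (nat_lit 393221) (nat_lit 0) (.e (nat_lit 6112) (nat_lit 332) (.e (nat_lit 2507) (nat_lit 157) (.e (nat_lit 5259) (nat_lit 298) .nil)))))))) (.g (nat_lit 1) (.e (nat_lit 1112) (nat_lit 0) .nil) .nil))) 
(.lf (nat_lit 447450) (.g (nat_lit 2165) (.e (nat_lit 375) (nat_lit 32) (.e (nat_lit 426032) (nat_lit 0) (.e (nat_lit 3262) (nat_lit 198) (.e (nat_lit 540706) (nat_lit 12) (.e (nat_lit 360474) (nat_lit 8) (.e (nat_lit 557094) (nat_lit 12) (.e (nat_lit 164022) (nat_lit 46) (.e (nat_lit 704626) (nat_lit 9) .nil)))))))) (.g (nat_lit 1) (.e (nat_lit 2055) (nat_lit 0) .nil) .nil)))))) 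
(.nd (nat_lit 6) (.nd (nat_lit 7) (.nd (nat_lit 8) 
(.lf (nat_lit 447034) (.g (nat_lit 1152) (.e (nat_lit 819221) (nat_lit 6) (.e (nat_lit 188449) (nat_lit 22) (.e (nat_lit 196616) (nat_lit 0) .nil))) .nil)) 
(.lf (nat_lit 447290) (.g (nat_lit 893) (.e (nat_lit 109) (nat_lit 3) (.e (nat_lit 98333) (nat_lit 18) (.e (nat_lit 164325) (nat_lit 230) .nil))) (.g (nat_lit 0) (.e (nat_lit 1478) (nat_lit 0) .nil) .nil)))) (.nd (nat_lit 8) 
(.lf (nat_lit 447162) (.g (nat_lit 1908) (.e (nat_lit 7936) (nat_lit 11) (.e (nat_lit 196666) (nat_lit 13) (.e (nat_lit 65610) (nat_lit 10) (.e (nat_lit 344117) (nat_lit 21) .nil)))) (.g (nat_lit 0) (.e (nat_lit 998) (nat_lit 0) .nil) .nil))) 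
(.lf (nat_lit 447418) (.g (nat_lit 4419) (.e (nat_lit 372) (nat_lit 32) (.e (nat_lit 426320) (nat_lit 12) (.e (nat_lit 475185) (nat_lit 29) (.e (nat_lit 557101) (nat_lit 13) (.e (nat_lit 172115) (nat_lit 10) (.e (nat_lit 434244) (nat_lit 28) (.e (nat_lit 573450) (nat_lit 9) .nil))))))) (.g (nat_lit 1) (.e (nat_lit 1949) (nat_lit 0) .nil) .nil))))) (.nd (nat_lit 7) (.nd (nat_lit 8) 
(.lf (nat_lit 447098) (.g (nat_lit 3041) (.e (nat_lit 48) (nat_lit 0) (.e (nat_lit 1856) (nat_lit 124) (.e (nat_lit 557109) (nat_lit 15) (.e (nat_lit 188452) (nat_lit 23) (.e (nat_lit 204846) (nat_lit 24) .nil))))) (.g (nat_lit 0) (.e (nat_lit 252) (nat_lit 0) .nil) .nil))) 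
(.lf (nat_lit 447354) (.g (nat_lit 2326) (.e (nat_lit 370) (nat_lit 32) (.e (nat_lit 426125) (nat_lit 2) (.e (nat_lit 196666) (nat_lit 13) (.e (nat_lit 65610) (nat_lit 10) .nil)))) (.g (nat_lit 0) (.e (nat_lit 1829) (nat_lit 0) .nil) .nil)))) (.nd (nat_lit 8) 
(.lf (nat_lit 447226) (.g (nat_lit 2206) (.e (nat_lit 174) (nat_lit 12) (.e (nat_lit 204863) (nat_lit 27) (.e (nat_lit 344130) (nat_lit 26) (.e (nat_lit 557104) (nat_lit 14) (.e (nat_lit 180252) (nat_lit 10) .nil))))) (.g (nat_lit 0) (.e (nat_lit 1183) (nat_lit 0) .nil) .nil))) 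
(.lf (nat_lit 447482) (.g (nat_lit 5203) (.e (nat_lit 375) (nat_lit 32) (.e (nat_lit 426125) (nat_lit 2) (.e (nat_lit 196666) (nat_lit 13) (.e (nat_lit 65610) (nat_lit 10) (.e (nat_lit 344128) (nat_lit 26) (.e (nat_lit 557091) (nat_lit 12) (.e (nat_lit 164022) (nat_lit 46) (.e (nat_lit 704628) (nat_lit 9) .nil)))))))) (.g (nat_lit 1) (.e (nat_lit 2141) (nat_lit 0) .nil) .nil))))))))) 
(.nd (nat_lit 3) (.nd (nat_lit 4) (.nd (nat_lit 5) (.nd (nat_lit 6) (.nd (nat_lit 7) 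
(.nd (nat_lit 8) 
(.lf (nat_lit 446982) (.g (nat_lit 1906) (.e (nat_lit 819219) (nat_lit 4) (.e (nat_lit 172113) (nat_lit 10) (.e (nat_lit 434241) (nat_lit 27) (.e (nat_lit 565269) (nat_lit 6) (.e (nat_lit 81947) (nat_lit 20) (.e (nat_lit 2390) (nat_lit 156) .nil)))))) (.g (nat_lit 5) .nil .nil))) 
(.lf (nat_lit 447238) (.g (nat_lit 2446) (.e (nat_lit 174) (nat_lit 12) (.e (nat_lit 204869) (nat_lit 29) (.e (nat_lit 360451) (nat_lit 0) (.e (nat_lit 7605) (nat_lit 410) .nil)))) (.g (nat_lit 0) (.e (nat_lit 1223) (nat_lit 0) .nil) .nil)))) (.nd (nat_lit 8) 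
(.lf (nat_lit 447110) (.g (nat_lit 3303) (.e (nat_lit 75) (nat_lit 0) (.e (nat_lit 3307) (nat_lit 202) (.e (nat_lit 573485) (nat_lit 13) (.e (nat_lit 65604) (nat_lit 9) (.e (nat_lit 336013) (nat_lit 2) (.e (nat_lit 90165) (nat_lit 12) (.e (nat_lit 164219) (nat_lit 180) (.e (nat_lit 229647) (nat_lit 232) .nil)))))))) (.g (nat_lit 1) (.e (nat_lit 326) (nat_lit 0) .nil) .nil))) 
(.lf (nat_lit 447366) (.g (nat_lit 4589) (.e (nat_lit 370) (nat_lit 32) (.e (nat_lit 426140) (nat_lit 3) (.e (nat_lit 204869) (nat_lit 29) (.e (nat_lit 360475) (nat_lit 8) (.e (nat_lit 557091) (nat_lit 12) (.e (nat_lit 164022) (nat_lit 46) (.e (nat_lit 704628) (nat_lit 9) .nil))))))) (.g (nat_lit 1) (.e (nat_lit 1849) (nat_lit 0) .nil) .nil))))) (.nd (nat_lit 7) (.nd (nat_lit 8) 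
(.lf (nat_lit 447046) (.g (nat_lit 3300) (.e (nat_lit 819237) (nat_lit 11) (.e (nat_lit 16468) (nat_lit 13) (.e (nat_lit 483372) (nat_lit 21) (.e (nat_lit 319534) (nat_lit 16) (.e (nat_lit 286728) (nat_lit 0) (.e (nat_lit 2390) (nat_lit 156) .nil)))))) (.g (nat_lit 5) .nil .nil))) 
(.lf (nat_lit 447302) (.g (nat_lit 495) (.e (nat_lit 112) (nat_lit 3) (.e (nat_lit 98335) (nat_lit 18) (.e (nat_lit 164330) (nat_lit 230) .nil))) (.g (nat_lit 0) (.e (nat_lit 1490) (nat_lit 0) .nil) .nil)))) (.nd (nat_lit 8) 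
(.lf (nat_lit 447174) (.g (nat_lit 1536) (.e (nat_lit 172) (nat_lit 12) (.e (nat_lit 204861) (nat_lit 26) (.e (nat_lit 336076) (nat_lit 9) (.e (nat_lit 336450) (nat_lit 33) .nil)))) (.g (nat_lit 0) (.e (nat_lit 1080) (nat_lit 0) .nil) .nil))) 
(.lf (nat_lit 447430) (.g (nat_lit 2436) (.e (nat_lit 376) (nat_lit 32) (.e (nat_lit 426340) (nat_lit 14) (.e (nat_lit 491571) (nat_lit 13) (.e (nat_lit 393260) (nat_lit 21) (.e (nat_lit 409616) (nat_lit 10) (.e (nat_lit 7936) (nat_lit 298) .nil)))))) (.g (nat_lit 1) (.e (nat_lit 1994) (nat_lit 0) .nil) .nil)))))) (.nd (nat_lit 6) (.nd (nat_lit 7) (.nd (nat_lit 8) 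
(.lf (nat_lit 447014) (.g (nat_lit 288) (.e (nat_lit 819221) (nat_lit 6) (.e (nat_lit 188433) (nat_lit 20) (.e (nat_lit 3223) (nat_lit 196) .nil))) .nil)) 
(.lf (nat_lit 447270) (.g (nat_lit 1873) (.e (nat_lit 202) (nat_lit 17) (.e (nat_lit 253992) (nat_lit 11) (.e (nat_lit 16411) (nat_lit 2) (.e (nat_lit 196668) (nat_lit 14) (.e (nat_lit 81664) (nat_lit 32) .nil))))) (.g (nat_lit 0) (.e (nat_lit 1428) (nat_lit 0) .nil) .nil)))) (.nd (nat_lit 8) 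
(.lf (nat_lit 447142) (.g (nat_lit 2478) (.e (nat_lit 161) (nat_lit 11) (.e (nat_lit 196666) (nat_lit 13) (.e (nat_lit 65610) (nat_lit 10) (.e (nat_lit 344117) (nat_lit 21) .nil)))) (.g (nat_lit 0) (.e (nat_lit 844) (nat_lit 0) .nil) .nil))) 
(.lf (nat_lit 447398) (.g (nat_lit 2418) (.e (nat_lit 371) (nat_lit 32) (.e (nat_lit 426542) (nat_lit 29) (.e (nat_lit 352315) (nat_lit 23) (.e (nat_lit 98309) (nat_lit 0) (.e (nat_lit 6216) (nat_lit 333) (.e (nat_lit 57883) (nat_lit 270) .nil)))))) (.g (nat_lit 1) (.e (nat_lit 1915) (nat_lit 0) .nil) .nil))))) (.nd (nat_lit 7) (.nd (nat_lit 8) 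
(.lf (nat_lit 447078) (.g (nat_lit 3253) (.e (nat_lit 27) (nat_lit 0) (.e (nat_lit 3308) (nat_lit 202) (.e (nat_lit 573482) (nat_lit 13) (.e (nat_lit 65619) (nat_lit 10) (.e (nat_lit 344117) (nat_lit 21) (.e (nat_lit 516106) (nat_lit 0) (.e (nat_lit 7112) (nat_lit 381) (.e (nat_lit 229645) (nat_lit 232) .nil)))))))) (.g (nat_lit 1) (.e (nat_lit 119) (nat_lit 0) .nil) .nil))) 
(.lf (nat_lit 447334) (.g (nat_lit 4099) (.e (nat_lit 359) (nat_lit 30) (.e (nat_lit 409603) (nat_lit 0) (.e (nat_lit 5270) (nat_lit 298) (.e (nat_lit 1239) (nat_lit 91) (.e (nat_lit 90170) (nat_lit 13) (.e (nat_lit 172113) (nat_lit 10) (.e (nat_lit 434248) (nat_lit 28) (.e (nat_lit 573455) (nat_lit 9) .nil)))))))) (.g (nat_lit 1) (.e (nat_lit 1526) (nat_lit 0) .nil) .nil)))) (.nd (nat_lit 8) 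
(.lf (nat_lit 447206) (.g (nat_lit 1292) (.e (nat_lit 174) (nat_lit 12) (.e (nat_lit 204861) (nat_lit 26) (.e (nat_lit 336076) (nat_lit 9) (.e (nat_lit 336446) (nat_lit 33) .nil)))) (.g (nat_lit 0) (.e (nat_lit 1158) (nat_lit 0) .nil) .nil))) 
(.lf (nat_lit 447462) (.g (nat_lit 2815) (.e (nat_lit 375) (nat_lit 32) (.e (nat_lit 426125) (nat_lit 2) (.e (nat_lit 196666) (nat_lit 13) (.e (nat_lit 65610) (nat_lit 10) (.e (nat_lit 344127) (nat_lit 26) .nil))))) (.g (nat_lit 0) (.e (nat_lit 2121) (nat_lit 0) .nil) .nil))))))) (.nd (nat_lit 5) (.nd (nat_lit 6) (.nd (nat_lit 7) (.nd (nat_lit 8) 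
(.lf (nat_lit 446998) (.g (nat_lit 577) (.e (nat_lit 819219) (nat_lit 4) (.e (nat_lit 172116) (nat_lit 10) (.e (nat_lit 434241) (nat_lit 27) (.e (nat_lit 565251) (nat_lit 0) (.e (nat_lit 1599) (nat_lit 111) .nil))))) .nil)) 
(.lf (nat_lit 447254) (.g (nat_lit 1833) (.e (nat_lit 174) (nat_lit 12) (.e (nat_lit 204877) (nat_lit 31) (.e (nat_lit 376842) (nat_lit 11) (.e (nat_lit 426408) (nat_lit 15) (.e (nat_lit 6206) (nat_lit 333) (.e (nat_lit 57883) (nat_lit 270) .nil)))))) (.g (nat_lit 1) (.e (nat_lit 1265) (nat_lit 0) .nil) .nil)))) (.nd (nat_lit 8) 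
(.lf (nat_lit 447126) (.g (nat_lit 4019) (.e (nat_lit 77) (nat_lit 0) (.e (nat_lit 3307) (nat_lit 202) (.e (nat_lit 573485) (nat_lit 13) (.e (nat_lit 65619) (nat_lit 10) (.e (nat_lit 344117) (nat_lit 21) (.e (nat_lit 516106) (nat_lit 0) (.e (nat_lit 7095) (nat_lit 380) (.e (nat_lit 164340) (nat_lit 232) .nil)))))))) (.g (nat_lit 1) (.e (nat_lit 472) (nat_lit 0) .nil) .nil))) 
(.lf (nat_lit 447382) (.g (nat_lit 4177) (.e (nat_lit 371) (nat_lit 32) (.e (nat_lit 426428) (nat_lit 17) (.e (nat_lit 90174) (nat_lit 14) (.e (nat_lit 180250) (nat_lit 10) (.e (nat_lit 573484) (nat_lit 13) (.e (nat_lit 65568) (nat_lit 2) (.e (nat_lit 98048) (nat_lit 0) .nil))))))) (.g (nat_lit 1) (.e (nat_lit 1875) (nat_lit 0) .nil) .nil))))) (.nd (nat_lit 7) (.nd (nat_lit 8) 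
(.lf (nat_lit 447062) (.g (nat_lit 4256) (.e (nat_lit 20) (nat_lit 0) (.e (nat_lit 6234) (nat_lit 335) (.e (nat_lit 164359) (nat_lit 246) (.e (nat_lit 2661) (nat_lit 167) (.e (nat_lit 196666) (nat_lit 13) (.e (nat_lit 65610) (nat_lit 10) (.e (nat_lit 344129) (nat_lit 26) (.e (nat_lit 557067) (nat_lit 9) .nil)))))))) (.g (nat_lit 1) (.e (nat_lit 53) (nat_lit 0) .nil) .nil))) 
(.lf (nat_lit 447318) (.g (nat_lit 2469) (.e (nat_lit 359) (nat_lit 30) (.e (nat_lit 409602) (nat_lit 0) (.e (nat_lit 5270) (nat_lit 298) (.e (nat_lit 1239) (nat_lit 91) (.e (nat_lit 90170) (nat_lit 13) (.e (nat_lit 172113) (nat_lit 10) (.e (nat_lit 434245) (nat_lit 28) (.e (nat_lit 573455) (nat_lit 9) .nil)))))))) (.g (nat_lit 1) (.e (nat_lit 1510) (nat_lit 0) .nil) .nil)))) (.nd (nat_lit 8) 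
(.lf (nat_lit 447190) (.g (nat_lit 991) (.e (nat_lit 174) (nat_lit 12) (.e (nat_lit 204830) (nat_lit 18) (.e (nat_lit 57854) (nat_lit 252) (.e (nat_lit 57409) (nat_lit 12) .nil)))) (.g (nat_lit 0) (.e (nat_lit 1108) (nat_lit 0) .nil) .nil))) 
(.lf (nat_lit 447446) (.g (nat_lit 4245) (.e (nat_lit 375) (nat_lit 32) (.e (nat_lit 426025) (nat_lit 0) (.e (nat_lit 7555) (nat_lit 402) (.e (nat_lit 1234) (nat_lit 91) (.e (nat_lit 90170) (nat_lit 13) (.e (nat_lit 172106) (nat_lit 10) (.e (nat_lit 434244) (nat_lit 28) (.e (nat_lit 573450) (nat_lit 9) .nil)))))))) (.g (nat_lit 1) (.e (nat_lit 2051) (nat_lit 0) .nil) .nil)))))) 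
(.nd (nat_lit 6) (.nd (nat_lit 7) (.nd (nat_lit 8) 
(.lf (nat_lit 447030) (.g (nat_lit 821) (.e (nat_lit 819221) (nat_lit 6) (.e (nat_lit 188449) (nat_lit 22) (.e (nat_lit 196612) (nat_lit 0) .nil))) .nil)) 
(.lf (nat_lit 447286) (.g (nat_lit 2070) (.e (nat_lit 100) (nat_lit 2) (.e (nat_lit 90174) (nat_lit 14) (.e (nat_lit 180250) (nat_lit 10) (.e (nat_lit 573487) (nat_lit 14) (.e (nat_lit 73753) (nat_lit 8) .nil))))) (.g (nat_lit 0) (.e (nat_lit 1473) (nat_lit 0) .nil) .nil)))) (.nd (nat_lit 8) 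
(.lf (nat_lit 447158) (.g (nat_lit 3060) (.e (nat_lit 164) (nat_lit 11) (.e (nat_lit 196666) (nat_lit 13) (.e (nat_lit 65610) (nat_lit 10) (.e (nat_lit 344117) (nat_lit 21) (.e (nat_lit 516151) (nat_lit 9) .nil))))) (.g (nat_lit 0) (.e (nat_lit 987) (nat_lit 0) .nil) .nil))) 
(.lf (nat_lit 447414) (.g (nat_lit 2790) (.e (nat_lit 372) (nat_lit 32) (.e (nat_lit 426131) (nat_lit 3) (.e (nat_lit 204868) (nat_lit 29) (.e (nat_lit 360473) (nat_lit 8) (.e (nat_lit 557094) (nat_lit 12) (.e (nat_lit 164022) (nat_lit 46) (.e (nat_lit 704629) (nat_lit 9) .nil))))))) (.g (nat_lit 1) (.e (nat_lit 1945) (nat_lit 0) .nil) .nil))))) (.nd (nat_lit 7) (.nd (nat_lit 8) 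
(.lf (nat_lit 447094) (.g (nat_lit 3037) (.e (nat_lit 42) (nat_lit 0) (.e (nat_lit 3302) (nat_lit 202) (.e (nat_lit 573489) (nat_lit 14) (.e (nat_lit 73755) (nat_lit 8) (.e (nat_lit 557105) (nat_lit 14) (.e (nat_lit 180252) (nat_lit 10) (.e (nat_lit 573473) (nat_lit 12) (.e (nat_lit 57507) (nat_lit 39) (.e (nat_lit 647195) (nat_lit 9) .nil))))))))) (.g (nat_lit 1) (.e (nat_lit 234) (nat_lit 0) .nil) .nil))) 
(.lf (nat_lit 447350) (.g (nat_lit 4740) (.e (nat_lit 365) (nat_lit 31) (.e (nat_lit 417810) (nat_lit 6) (.e (nat_lit 286733) (nat_lit 2) (.e (nat_lit 90170) (nat_lit 13) (.e (nat_lit 172106) (nat_lit 10) (.e (nat_lit 434244) (nat_lit 28) (.e (nat_lit 573451) (nat_lit 9) .nil))))))) (.g (nat_lit 1) (.e (nat_lit 1802) (nat_lit 0) .nil) .nil)))) (.nd (nat_lit 8) 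
(.lf (nat_lit 447222) (.g (nat_lit 1639) (.e (nat_lit 174) (nat_lit 12) (.e (nat_lit 204863) (nat_lit 27) (.e (nat_lit 344120) (nat_lit 21) (.e (nat_lit 516131) (nat_lit 3) (.e (nat_lit 221212) (nat_lit 22) .nil))))) (.g (nat_lit 0) (.e (nat_lit 1179) (nat_lit 0) .nil) .nil))) 
(.lf (nat_lit 447478) (.g (nat_lit 2992) (.e (nat_lit 375) (nat_lit 32) (.e (nat_lit 426125) (nat_lit 2) (.e (nat_lit 196666) (nat_lit 13) (.e (nat_lit 65610) (nat_lit 10) (.e (nat_lit 344128) (nat_lit 26) (.e (nat_lit 557090) (nat_lit 12) (.e (nat_lit 164022) (nat_lit 46) (.e (nat_lit 704627) (nat_lit 9) .nil)))))))) (.g (nat_lit 1) (.e (nat_lit 2137) (nat_lit 0) .nil) .nil)))))))) 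
(.nd (nat_lit 4) (.nd (nat_lit 5) (.nd (nat_lit 6) (.nd (nat_lit 7) (.nd (nat_lit 8) 
(.lf (nat_lit 446990) (.g (nat_lit 1488) (.e (nat_lit 819219) (nat_lit 4) (.e (nat_lit 172115) (nat_lit 10) (.e (nat_lit 434241) (nat_lit 27) (.e (nat_lit 565269) (nat_lit 6) (.e (nat_lit 81939) (nat_lit 20) (.e (nat_lit 2390) (nat_lit 156) .nil)))))) (.g (nat_lit 4) .nil .nil))) 
(.lf (nat_lit 447246) (.g (nat_lit 2302) (.e (nat_lit 174) (nat_lit 12) (.e (nat_lit 204876) (nat_lit 31) (.e (nat_lit 376842) (nat_lit 11) (.e (nat_lit 426408) (nat_lit 15) (.e (nat_lit 6209) (nat_lit 333) (.e (nat_lit 57878) (nat_lit 270) .nil)))))) (.g (nat_lit 1) (.e (nat_lit 1257) (nat_lit 0) .nil) .nil)))) (.nd (nat_lit 8) 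
(.lf (nat_lit 447118) (.g (nat_lit 3090) (.e (nat_lit 75) (nat_lit 0) (.e (nat_lit 3308) (nat_lit 202) (.e (nat_lit 573482) (nat_lit 13) (.e (nat_lit 65604) (nat_lit 9) (.e (nat_lit 336013) (nat_lit 2) (.e (nat_lit 90165) (nat_lit 12) (.e (nat_lit 164218) (nat_lit 179) (.e (nat_lit 164337) (nat_lit 232) .nil)))))))) (.g (nat_lit 1) (.e (nat_lit 374) (nat_lit 0) .nil) .nil))) 
(.lf (nat_lit 447374) (.g (nat_lit 1627) (.e (nat_lit 371) (nat_lit 32) (.e (nat_lit 426337) (nat_lit 14) (.e (nat_lit 491570) (nat_lit 13) (.e (nat_lit 393260) (nat_lit 21) (.e (nat_lit 417536) (nat_lit 10) .nil))))) (.g (nat_lit 0) (.e (nat_lit 1866) (nat_lit 0) .nil) .nil))))) (.nd (nat_lit 7) (.nd (nat_lit 8) 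
(.lf (nat_lit 447054) (.g (nat_lit 1856) (.e (nat_lit 819244) (nat_lit 14) (.e (nat_lit 1349) (nat_lit 102) (.e (nat_lit 286759) (nat_lit 12) (.e (nat_lit 385094) (nat_lit 49) .nil)))) .nil)) 
(.lf (nat_lit 447310) (.g (nat_lit 3861) (.e (nat_lit 144) (nat_lit 8) (.e (nat_lit 147496) (nat_lit 11) (.e (nat_lit 24603) (nat_lit 2) (.e (nat_lit 90167) (nat_lit 13) (.e (nat_lit 172126) (nat_lit 14) (.e (nat_lit 491537) (nat_lit 2) (.e (nat_lit 90133) (nat_lit 9) .nil))))))) (.g (nat_lit 1) (.e (nat_lit 1502) (nat_lit 0) .nil) .nil)))) (.nd (nat_lit 8) 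
(.lf (nat_lit 447182) (.g (nat_lit 738) (.e (nat_lit 174) (nat_lit 12) (.e (nat_lit 204829) (nat_lit 18) (.e (nat_lit 57849) (nat_lit 252) .nil))) (.g (nat_lit 0) (.e (nat_lit 1100) (nat_lit 0) .nil) .nil))) 
(.lf (nat_lit 447438) (.g (nat_lit 3556) (.e (nat_lit 374) (nat_lit 32) (.e (nat_lit 426340) (nat_lit 14) (.e (nat_lit 491571) (nat_lit 13) (.e (nat_lit 393260) (nat_lit 21) (.e (nat_lit 409623) (nat_lit 10) .nil))))) (.g (nat_lit 0) (.e (nat_lit 2036) (nat_lit 0) .nil) .nil)))))) (.nd (nat_lit 6) (.nd (nat_lit 7) (.nd (nat_lit 8) 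
(.lf (nat_lit 447022) (.g (nat_lit 1467) (.e (nat_lit 819221) (nat_lit 6) (.e (nat_lit 188440) (nat_lit 20) (.e (nat_lit 3307) (nat_lit 202) (.e (nat_lit 573500) (nat_lit 18) .nil)))) .nil)) 
(.lf (nat_lit 447278) (.g (nat_lit 2218) (.e (nat_lit 202) (nat_lit 17) (.e (nat_lit 253992) (nat_lit 11) (.e (nat_lit 16412) (nat_lit 2) (.e (nat_lit 196674) (nat_lit 15) (.e (nat_lit 81922) (nat_lit 0) (.e (nat_lit 3305) (nat_lit 202) (.e (nat_lit 573456) (nat_lit 9) .nil))))))) (.g (nat_lit 1) (.e (nat_lit 1436) (nat_lit 0) .nil) .nil)))) (.nd (nat_lit 8) 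
(.lf (nat_lit 447150) (.g (nat_lit 2754) (.e (nat_lit 162) (nat_lit 11) (.e (nat_lit 196670) (nat_lit 14) (.e (nat_lit 73755) (nat_lit 8) (.e (nat_lit 557105) (nat_lit 14) (.e (nat_lit 180252) (nat_lit 10) .nil))))) (.g (nat_lit 0) (.e (nat_lit 927) (nat_lit 0) .nil) .nil))) 
(.lf (nat_lit 447406) (.g (nat_lit 2709) (.e (nat_lit 371) (nat_lit 32) (.e (nat_lit 426544) (nat_lit 30) (.e (nat_lit 360467) (nat_lit 3) (.e (nat_lit 516191) (nat_lit 17) (.e (nat_lit 6209) (nat_lit 333) (.e (nat_lit 57883) (nat_lit 270) .nil)))))) (.g (nat_lit 1) (.e (nat_lit 1923) (nat_lit 0) .nil) .nil))))) (.nd (nat_lit 7) (.nd (nat_lit 8) 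
(.lf (nat_lit 447086) (.g (nat_lit 3155) (.e (nat_lit 25) (nat_lit 0) (.e (nat_lit 3307) (nat_lit 202) (.e (nat_lit 573485) (nat_lit 13) (.e (nat_lit 65619) (nat_lit 10) (.e (nat_lit 344117) (nat_lit 21) (.e (nat_lit 516106) (nat_lit 0) (.e (nat_lit 7112) (nat_lit 381) (.e (nat_lit 229646) (nat_lit 232) .nil)))))))) (.g (nat_lit 1) (.e (nat_lit 162) (nat_lit 0) .nil) .nil))) 
(.lf (nat_lit 447342) (.g (nat_lit 2359) (.e (nat_lit 362) (nat_lit 30) (.e (nat_lit 409602) (nat_lit 0) (.e (nat_lit 5270) (nat_lit 298) (.e (nat_lit 1239) (nat_lit 91) (.e (nat_lit 90170) (nat_lit 13) (.e (nat_lit 172106) (nat_lit 10) (.e (nat_lit 434244) (nat_lit 28) (.e (nat_lit 573450) (nat_lit 9) .nil)))))))) (.g (nat_lit 1) (.e (nat_lit 1766) (nat_lit 0) .nil) .nil)))) (.nd (nat_lit 8) 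
(.lf (nat_lit 447214) (.g (nat_lit 1590) (.e (nat_lit 174) (nat_lit 12) (.e (nat_lit 204863) (nat_lit 27) (.e (nat_lit 344117) (nat_lit 21) (.e (nat_lit 516123) (nat_lit 2) .nil)))) (.g (nat_lit 0) (.e (nat_lit 1171) (nat_lit 0) .nil) .nil))) 
(.lf (nat_lit 447470) (.g (nat_lit 5204) (.e (nat_lit 375) (nat_lit 32) (.e (nat_lit 426125) (nat_lit 2) (.e (nat_lit 196666) (nat_lit 13) (.e (nat_lit 65610) (nat_lit 10) (.e (nat_lit 344127) (nat_lit 26) (.e (nat_lit 557093) (nat_lit 12) (.e (nat_lit 164022) (nat_lit 46) (.e (nat_lit 704628) (nat_lit 9) .nil)))))))) (.g (nat_lit 1) (.e (nat_lit 2129) (nat_lit 0) .nil) .nil))))))) 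
(.nd (nat_lit 5) (.nd (nat_lit 6) (.nd (nat_lit 7) (.nd (nat_lit 8) 
(.lf (nat_lit 447006) (.g (nat_lit 744) (.e (nat_lit 819220) (nat_lit 5) (.e (nat_lit 180225) (nat_lit 0) (.e (nat_lit 4527) (nat_lit 265) .nil))) .nil)) 
(.lf (nat_lit 447262) (.g (nat_lit 2147) (.e (nat_lit 182) (nat_lit 13) (.e (nat_lit 213030) (nat_lit 11) (.e (nat_lit 24617) (nat_lit 7) (.e (nat_lit 319534) (nat_lit 16) (.e (nat_lit 286756) (nat_lit 10) .nil))))) (.g (nat_lit 0) (.e (nat_lit 1330) (nat_lit 0) .nil) .nil)))) (.nd (nat_lit 8) 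
(.lf (nat_lit 447134) (.g (nat_lit 3568) (.e (nat_lit 78) (nat_lit 0) (.e (nat_lit 3308) (nat_lit 202) (.e (nat_lit 573482) (nat_lit 13) (.e (nat_lit 65604) (nat_lit 9) (.e (nat_lit 336013) (nat_lit 2) (.e (nat_lit 90165) (nat_lit 12) (.e (nat_lit 164219) (nat_lit 180) (.e (nat_lit 229645) (nat_lit 232) .nil)))))))) (.g (nat_lit 1) (.e (nat_lit 598) (nat_lit 0) .nil) .nil))) 
(.lf (nat_lit 447390) (.g (nat_lit 3311) (.e (nat_lit 371) (nat_lit 32) (.e (nat_lit 426438) (nat_lit 18) (.e (nat_lit 98367) (nat_lit 27) (.e (nat_lit 434246) (nat_lit 28) (.e (nat_lit 573482) (nat_lit 13) (.e (nat_lit 65568) (nat_lit 2) (.e (nat_lit 98048) (nat_lit 0) .nil))))))) (.g (nat_lit 1) (.e (nat_lit 1904) (nat_lit 0) .nil) .nil))))) (.nd (nat_lit 7) (.nd (nat_lit 8) 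
(.lf (nat_lit 447070) (.g (nat_lit 2473) (.e (nat_lit 27) (nat_lit 0) (.e (nat_lit 3307) (nat_lit 202) (.e (nat_lit 573485) (nat_lit 13) (.e (nat_lit 65619) (nat_lit 10) (.e (nat_lit 344117) (nat_lit 21) (.e (nat_lit 516106) (nat_lit 0) (.e (nat_lit 7112) (nat_lit 381) (.e (nat_lit 229645) (nat_lit 232) .nil)))))))) (.g (nat_lit 1) (.e (nat_lit 111) (nat_lit 0) .nil) .nil))) 
(.lf (nat_lit 447326) (.g (nat_lit 2389) (.e (nat_lit 359) (nat_lit 30) (.e (nat_lit 409602) (nat_lit 0) (.e (nat_lit 5293) (nat_lit 298) (.e (nat_lit 1232) (nat_lit 91) (.e (nat_lit 90170) (nat_lit 13) (.e (nat_lit 172113) (nat_lit 10) (.e (nat_lit 434248) (nat_lit 28) (.e (nat_lit 573455) (nat_lit 9) .nil)))))))) (.g (nat_lit 1) (.e (nat_lit 1518) (nat_lit 0) .nil) .nil)))) (.nd (nat_lit 8) 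
(.lf (nat_lit 447198) (.g (nat_lit 1906) (.e (nat_lit 174) (nat_lit 12) (.e (nat_lit 204859) (nat_lit 26) (.e (nat_lit 336209) (nat_lit 13) (.e (nat_lit 393221) (nat_lit 0) (.e (nat_lit 6207) (nat_lit 333) (.e (nat_lit 57879) (nat_lit 270) .nil)))))) (.g (nat_lit 1) (.e (nat_lit 1149) (nat_lit 0) .nil) .nil))) 
(.lf (nat_lit 447454) (.g (nat_lit 3072) (.e (nat_lit 375) (nat_lit 32) (.e (nat_lit 426117) (nat_lit 2) (.e (nat_lit 196666) (nat_lit 13) (.e (nat_lit 65617) (nat_lit 10) (.e (nat_lit 344132) (nat_lit 26) (.e (nat_lit 557093) (nat_lit 12) (.e (nat_lit 164022) (nat_lit 46) (.e (nat_lit 704629) (nat_lit 9) .nil)))))))) (.g (nat_lit 1) (.e (nat_lit 2059) (nat_lit 0) .nil) .nil)))))) 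
(.nd (nat_lit 6) (.nd (nat_lit 7) (.nd (nat_lit 8) 
(.lf (nat_lit 447038) (.g (nat_lit 1342) (.e (nat_lit 819223) (nat_lit 8) (.e (nat_lit 237605) (nat_lit 9) (.e (nat_lit 426432) (nat_lit 17) (.e (nat_lit 98048) (nat_lit 6) (.e (nat_lit 81947) (nat_lit 20) (.e (nat_lit 2390) (nat_lit 156) .nil)))))) (.g (nat_lit 5) .nil .nil))) 
(.lf (nat_lit 447294) (.g (nat_lit 2522) (.e (nat_lit 112) (nat_lit 3) (.e (nat_lit 98333) (nat_lit 18) (.e (nat_lit 164325) (nat_lit 230) (.e (nat_lit 163941) (nat_lit 19) (.e (nat_lit 483333) (nat_lit 0) .nil))))) (.g (nat_lit 0) (.e (nat_lit 1482) (nat_lit 0) .nil) .nil)))) (.nd (nat_lit 8) 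
(.lf (nat_lit 447166) (.g (nat_lit 2381) (.e (nat_lit 170) (nat_lit 12) (.e (nat_lit 204877) (nat_lit 31) (.e (nat_lit 376865) (nat_lit 22) (.e (nat_lit 90185) (nat_lit 17) (.e (nat_lit 237585) (nat_lit 1) .nil))))) (.g (nat_lit 0) (.e (nat_lit 1030) (nat_lit 0) .nil) .nil))) 
(.lf (nat_lit 447422) (.g (nat_lit 2000) (.e (nat_lit 373) (nat_lit 32) (.e (nat_lit 426136) (nat_lit 3) (.e (nat_lit 204869) (nat_lit 29) (.e (nat_lit 360474) (nat_lit 8) (.e (nat_lit 557094) (nat_lit 12) .nil))))) (.g (nat_lit 0) (.e (nat_lit 1974) (nat_lit 0) .nil) .nil))))) (.nd (nat_lit 7) (.nd (nat_lit 8) 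
(.lf (nat_lit 447102) (.g (nat_lit 3429) (.e (nat_lit 50) (nat_lit 0) (.e (nat_lit 3302) (nat_lit 202) (.e (nat_lit 573489) (nat_lit 14) (.e (nat_lit 73755) (nat_lit 8) (.e (nat_lit 557105) (nat_lit 14) (.e (nat_lit 180252) (nat_lit 10) (.e (nat_lit 573474) (nat_lit 12) (.e (nat_lit 57509) (nat_lit 39) (.e (nat_lit 647190) (nat_lit 9) .nil))))))))) (.g (nat_lit 1) (.e (nat_lit 269) (nat_lit 0) .nil) .nil))) 
(.lf (nat_lit 447358) (.g (nat_lit 3395) (.e (nat_lit 370) (nat_lit 32) (.e (nat_lit 426125) (nat_lit 2) (.e (nat_lit 196666) (nat_lit 13) (.e (nat_lit 65617) (nat_lit 10) (.e (nat_lit 344132) (nat_lit 26) (.e (nat_lit 557093) (nat_lit 12) (.e (nat_lit 164022) (nat_lit 46) (.e (nat_lit 704626) (nat_lit 9) .nil)))))))) (.g (nat_lit 1) (.e (nat_lit 1833) (nat_lit 0) .nil) .nil)))) (.nd (nat_lit 8) 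
(.lf (nat_lit 447230) (.g (nat_lit 768) (.e (nat_lit 174) (nat_lit 12) (.e (nat_lit 204863) (nat_lit 27) (.e (nat_lit 344133) (nat_lit 26) .nil))) (.g (nat_lit 0) (.e (nat_lit 1187) (nat_lit 0) .nil) .nil))) 
(.lf (nat_lit 447486) (.g (nat_lit 4891) (.e (nat_lit 375) (nat_lit 32) (.e (nat_lit 426125) (nat_lit 2) (.e (nat_lit 196666) (nat_lit 13) (.e (nat_lit 65610) (nat_lit 10) (.e (nat_lit 344128) (nat_lit 26) (.e (nat_lit 557093) (nat_lit 12) (.e (nat_lit 164022) (nat_lit 46) (.e (nat_lit 704628) (nat_lit 9) .nil)))))))) (.g (nat_lit 1) (.e (nat_lit 2145) (nat_lit 0) .nil) .nil))))))))))) 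
(.nd (nat_lit 1) (.nd (nat_lit 2) (.nd (nat_lit 3) (.nd (nat_lit 4) (.nd (nat_lit 5) 
(.nd (nat_lit 6) (.nd (nat_lit 7) (.nd (nat_lit 8) 
(.lf (nat_lit 446977) (.g (nat_lit 2145) (.e (nat_lit 819219) (nat_lit 4) (.e (nat_lit 172113) (nat_lit 10) (.e (nat_lit 434241) (nat_lit 27) (.e (nat_lit 565269) (nat_lit 6) (.e (nat_lit 81938) (nat_lit 20) (.e (nat_lit 2390) (nat_lit 156) .nil)))))) (.g (nat_lit 5) .nil .nil))) 
(.lf (nat_lit 447233) (.g (nat_lit 2953) (.e (nat_lit 174) (nat_lit 12) (.e (nat_lit 204863) (nat_lit 27) (.e (nat_lit 344133) (nat_lit 26) (.e (nat_lit 557105) (nat_lit 14) (.e (nat_lit 180252) (nat_lit 10) (.e (nat_lit 573503) (nat_lit 18) (.e (nat_lit 1014) (nat_lit 81) (.e (nat_lit 5269) (nat_lit 298) .nil)))))))) (.g (nat_lit 1) (.e (nat_lit 1190) (nat_lit 0) .nil) .nil)))) (.nd (nat_lit 8) 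
(.lf (nat_lit 447105) (.g (nat_lit 1956) (.e (nat_lit 75) (nat_lit 0) (.e (nat_lit 3307) (nat_lit 202) (.e (nat_lit 573485) (nat_lit 13) (.e (nat_lit 65604) (nat_lit 9) (.e (nat_lit 336013) (nat_lit 2) .nil))))) (.g (nat_lit 0) (.e (nat_lit 321) (nat_lit 0) .nil) .nil))) 
(.lf (nat_lit 447361) (.g (nat_lit 3414) (.e (nat_lit 370) (nat_lit 32) (.e (nat_lit 426125) (nat_lit 2) (.e (nat_lit 196666) (nat_lit 13) (.e (nat_lit 65617) (nat_lit 10) (.e (nat_lit 344132) (nat_lit 26) (.e (nat_lit 557094) (nat_lit 12) (.e (nat_lit 164022) (nat_lit 46) (.e (nat_lit 704627) (nat_lit 9) .nil)))))))) (.g (nat_lit 1) (.e (nat_lit 1836) (nat_lit 0) .nil) .nil))))) 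
(.nd (nat_lit 7) (.nd (nat_lit 8) 
(.lf (nat_lit 447041) (.g (nat_lit 4453) (.e (nat_lit 819237) (nat_lit 11) (.e (nat_lit 16425) (nat_lit 7) (.e (nat_lit 409648) (nat_lit 18) (.e (nat_lit 303146) (nat_lit 14) (.e (nat_lit 491566) (nat_lit 12) (.e (nat_lit 385116) (nat_lit 54) .nil)))))) (.g (nat_lit 5) .nil .nil))) 
(.lf (nat_lit 447297) (.g (nat_lit 3041) (.e (nat_lit 112) (nat_lit 3) (.e (nat_lit 98334) (nat_lit 18) (.e (nat_lit 164330) (nat_lit 230) (.e (nat_lit 163902) (nat_lit 12) (.e (nat_lit 426568) (nat_lit 34) .nil))))) (.g (nat_lit 0) (.e (nat_lit 1485) (nat_lit 0) .nil) .nil)))) (.nd (nat_lit 8) 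
(.lf (nat_lit 447169) (.g (nat_lit 3220) (.e (nat_lit 171) (nat_lit 12) (.e (nat_lit 204829) (nat_lit 18) (.e (nat_lit 57847) (nat_lit 252) (.e (nat_lit 57446) (nat_lit 19) .nil)))) (.g (nat_lit 0) (.e (nat_lit 1038) (nat_lit 0) .nil) .nil))) 
(.lf (nat_lit 447425) (.g (nat_lit 4181) (.e (nat_lit 373) (nat_lit 32) (.e (nat_lit 426312) (nat_lit 12) (.e (nat_lit 475185) (nat_lit 29) (.e (nat_lit 557101) (nat_lit 13) (.e (nat_lit 172115) (nat_lit 10) (.e (nat_lit 434244) (nat_lit 28) (.e (nat_lit 573450) (nat_lit 9) .nil))))))) (.g (nat_lit 1) (.e (nat_lit 1977) (nat_lit 0) .nil) .nil)))))) 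
(.nd (nat_lit 6) (.nd (nat_lit 7) (.nd (nat_lit 8) 
(.lf (nat_lit 447009) (.g (nat_lit 388) (.e (nat_lit 819221) (nat_lit 6) (.e (nat_lit 188427) (nat_lit 20) (.e (nat_lit 3279) (nat_lit 200) (.e (nat_lit 557061) (nat_lit 0) .nil)))) .nil)) 
(.lf (nat_lit 447265) (.g (nat_lit 2179) (.e (nat_lit 202) (nat_lit 17) (.e (nat_lit 253991) (nat_lit 11) (.e (nat_lit 16412) (nat_lit 2) (.e (nat_lit 196672) (nat_lit 15) (.e (nat_lit 81924) (nat_lit 0) .nil))))) (.g (nat_lit 0) (.e (nat_lit 1423) (nat_lit 0) .nil) .nil)))) (.nd (nat_lit 8) 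
(.lf (nat_lit 447137) (.g (nat_lit 3473) (.e (nat_lit 78) (nat_lit 0) (.e (nat_lit 3308) (nat_lit 202) (.e (nat_lit 573482) (nat_lit 13) (.e (nat_lit 65604) (nat_lit 9) (.e (nat_lit 336028) (nat_lit 3) (.e (nat_lit 98325) (nat_lit 17) (.e (nat_lit 7112) (nat_lit 381) (.e (nat_lit 229647) (nat_lit 232) .nil)))))))) (.g (nat_lit 1) (.e (nat_lit 601) (nat_lit 0) .nil) .nil))) 
(.lf (nat_lit 447393) (.g (nat_lit 3312) (.e (nat_lit 371) (nat_lit 32) (.e (nat_lit 426438) (nat_lit 18) (.e (nat_lit 98367) (nat_lit 27) (.e (nat_lit 434248) (nat_lit 28) (.e (nat_lit 573480) (nat_lit 13) (.e (nat_lit 65568) (nat_lit 2) (.e (nat_lit 98048) (nat_lit 0) .nil))))))) (.g (nat_lit 1) (.e (nat_lit 1907) (nat_lit 0) .nil) .nil))))) (.nd (nat_lit 7) (.nd (nat_lit 8) 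
(.lf (nat_lit 447073) (.g (nat_lit 3121) (.e (nat_lit 27) (nat_lit 0) (.e (nat_lit 3308) (nat_lit 202) (.e (nat_lit 573482) (nat_lit 13) (.e (nat_lit 65604) (nat_lit 9) (.e (nat_lit 336013) (nat_lit 2) (.e (nat_lit 90165) (nat_lit 12) (.e (nat_lit 164219) (nat_lit 180) (.e (nat_lit 229647) (nat_lit 232) .nil)))))))) (.g (nat_lit 1) (.e (nat_lit 114) (nat_lit 0) .nil) .nil))) 
(.lf (nat_lit 447329) (.g (nat_lit 2272) (.e (nat_lit 359) (nat_lit 30) (.e (nat_lit 409602) (nat_lit 0) (.e (nat_lit 5389) (nat_lit 301) (.e (nat_lit 57464) (nat_lit 23) (.e (nat_lit 516166) (nat_lit 12) (.e (nat_lit 450587) (nat_lit 10) (.e (nat_lit 573457) (nat_lit 9) .nil))))))) (.g (nat_lit 1) (.e (nat_lit 1521) (nat_lit 0) .nil) .nil)))) (.nd (nat_lit 8) 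
(.lf (nat_lit 447201) (.g (nat_lit 395) (.e (nat_lit 174) (nat_lit 12) (.e (nat_lit 204861) (nat_lit 26) (.e (nat_lit 336075) (nat_lit 9) .nil))) (.g (nat_lit 0) (.e (nat_lit 1152) (nat_lit 0) .nil) .nil))) 
(.lf (nat_lit 447457) (.g (nat_lit 2841) (.e (nat_lit 375) (nat_lit 32) (.e (nat_lit 426125) (nat_lit 2) (.e (nat_lit 196630) (nat_lit 9) (.e (nat_lit 1580) (nat_lit 111) (.e (nat_lit 360475) (nat_lit 8) (.e (nat_lit 557091) (nat_lit 12) (.e (nat_lit 164022) (nat_lit 46) (.e (nat_lit 704626) (nat_lit 9) .nil)))))))) (.g (nat_lit 1) (.e (nat_lit 2068) (nat_lit 0) .nil) .nil))))))) 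
(.nd (nat_lit 5) (.nd (nat_lit 6) (.nd (nat_lit 7) (.nd (nat_lit 8) 
(.lf (nat_lit 446993) (.g (nat_lit 1969) (.e (nat_lit 819219) (nat_lit 4) (.e (nat_lit 172115) (nat_lit 10) (.e (nat_lit 434241) (nat_lit 27) (.e (nat_lit 565269) (nat_lit 6) (.e (nat_lit 81946) (nat_lit 20) (.e (nat_lit 2390) (nat_lit 156) .nil)))))) (.g (nat_lit 5) .nil .nil))) 
(.lf (nat_lit 447249) (.g (nat_lit 1049) (.e (nat_lit 174) (nat_lit 12) (.e (nat_lit 204877) (nat_lit 31) (.e (nat_lit 376842) (nat_lit 11) (.e (nat_lit 426406) (nat_lit 15) .nil)))) (.g (nat_lit 0) (.e (nat_lit 1260) (nat_lit 0) .nil) .nil)))) (.nd (nat_lit 8) 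
(.lf (nat_lit 447121) (.g (nat_lit 3585) (.e (nat_lit 75) (nat_lit 0) (.e (nat_lit 3308) (nat_lit 202) (.e (nat_lit 573482) (nat_lit 13) (.e (nat_lit 65619) (nat_lit 10) (.e (nat_lit 344117) (nat_lit 21) (.e (nat_lit 516106) (nat_lit 0) (.e (nat_lit 7095) (nat_lit 380) (.e (nat_lit 164337) (nat_lit 232) .nil)))))))) (.g (nat_lit 1) (.e (nat_lit 382) (nat_lit 0) .nil) .nil))) 
(.lf (nat_lit 447377) (.g (nat_lit 3766) (.e (nat_lit 371) (nat_lit 32) (.e (nat_lit 426428) (nat_lit 17) (.e (nat_lit 90174) (nat_lit 14) (.e (nat_lit 180250) (nat_lit 10) (.e (nat_lit 573480) (nat_lit 13) (.e (nat_lit 65568) (nat_lit 2) (.e (nat_lit 98048) (nat_lit 0) .nil))))))) (.g (nat_lit 1) (.e (nat_lit 1870) (nat_lit 0) .nil) .nil))))) (.nd (nat_lit 7) (.nd (nat_lit 8) 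
(.lf (nat_lit 447057) (.g (nat_lit 3997) (.e (nat_lit 5) (nat_lit 0) (.e (nat_lit 1860) (nat_lit 124) (.e (nat_lit 557109) (nat_lit 15) (.e (nat_lit 188452) (nat_lit 23) (.e (nat_lit 204846) (nat_lit 24) (.e (nat_lit 319504) (nat_lit 10) (.e (nat_lit 7936) (nat_lit 312) .nil))))))) (.g (nat_lit 1) (.e (nat_lit 9) (nat_lit 0) .nil) .nil))) 
(.lf (nat_lit 447313) (.g (nat_lit 2713) (.e (nat_lit 359) (nat_lit 30) (.e (nat_lit 409602) (nat_lit 0) (.e (nat_lit 5245) (nat_lit 298) (.e (nat_lit 1256) (nat_lit 92) (.e (nat_lit 98373) (nat_lit 29) (.e (nat_lit 450587) (nat_lit 10) (.e (nat_lit 573457) (nat_lit 9) .nil))))))) (.g (nat_lit 1) (.e (nat_lit 1505) (nat_lit 0) .nil) .nil)))) (.nd (nat_lit 8) 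
(.lf (nat_lit 447185) (.g (nat_lit 1613) (.e (nat_lit 174) (nat_lit 12) (.e (nat_lit 204830) (nat_lit 18) (.e (nat_lit 57852) (nat_lit 252) (.e (nat_lit 57409) (nat_lit 12) .nil)))) (.g (nat_lit 0) (.e (nat_lit 1103) (nat_lit 0) .nil) .nil))) 
(.lf (nat_lit 447441) (.g (nat_lit 2839) (.e (nat_lit 375) (nat_lit 32) (.e (nat_lit 426025) (nat_lit 0) (.e (nat_lit 7936) (nat_lit 200) (.e (nat_lit 557105) (nat_lit 14) (.e (nat_lit 180251) (nat_lit 10) (.e (nat_lit 573485) (nat_lit 13) (.e (nat_lit 65568) (nat_lit 2) (.e (nat_lit 98048) (nat_lit 0) .nil)))))))) (.g (nat_lit 1) (.e (nat_lit 2039) (nat_lit 0) .nil) .nil)))))) 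
(.nd (nat_lit 6) (.nd (nat_lit 7) (.nd (nat_lit 8) 
(.lf (nat_lit 447025) (.g (nat_lit 526) (.e (nat_lit 819221) (nat_lit 6) (.e (nat_lit 188441) (nat_lit 20) (.e (nat_lit 3289) (nat_lit 201) (.e (nat_lit 565251) (nat_lit 0) .nil)))) .nil)) 
(.lf (nat_lit 447281) (.g (nat_lit 725) (.e (nat_lit 206) (nat_lit 17) (.e (nat_lit 253991) (nat_lit 11) (.e (nat_lit 16412) (nat_lit 2) .nil))) (.g (nat_lit 0) (.e (nat_lit 1439) (nat_lit 0) .nil) .nil)))) (.nd (nat_lit 8) 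
(.lf (nat_lit 447153) (.g (nat_lit 2269) (.e (nat_lit 163) (nat_lit 11) (.e (nat_lit 196666) (nat_lit 13) (.e (nat_lit 65610) (nat_lit 10) (.e (nat_lit 344117) (nat_lit 21) (.e (nat_lit 516159) (nat_lit 10) .nil))))) (.g (nat_lit 0) (.e (nat_lit 972) (nat_lit 0) .nil) .nil))) 
(.lf (nat_lit 447409) (.g (nat_lit 1323) (.e (nat_lit 371) (nat_lit 32) (.e (nat_lit 426544) (nat_lit 30) (.e (nat_lit 360475) (nat_lit 8) (.e (nat_lit 557119) (nat_lit 18) .nil)))) (.g (nat_lit 0) (.e (nat_lit 1926) (nat_lit 0) .nil) .nil))))) (.nd (nat_lit 7) (.nd (nat_lit 8) 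
(.lf (nat_lit 447089) (.g (nat_lit 4759) (.e (nat_lit 12) (nat_lit 0) (.e (nat_lit 1858) (nat_lit 124) (.e (nat_lit 557109) (nat_lit 15) (.e (nat_lit 188452) (nat_lit 23) (.e (nat_lit 204846) (nat_lit 24) .nil))))) (.g (nat_lit 0) (.e (nat_lit 210) (nat_lit 0) .nil) .nil))) 
(.lf (nat_lit 447345) (.g (nat_lit 2464) (.e (nat_lit 365) (nat_lit 31) (.e (nat_lit 417794) (nat_lit 0) (.e (nat_lit 5395) (nat_lit 301) (.e (nat_lit 57464) (nat_lit 23) (.e (nat_lit 516166) (nat_lit 12) (.e (nat_lit 450587) (nat_lit 10) (.e (nat_lit 573456) (nat_lit 9) .nil))))))) (.g (nat_lit 1) (.e (nat_lit 1797) (nat_lit 0) .nil) .nil)))) (.nd (nat_lit 8) 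
(.lf (nat_lit 447217) (.g (nat_lit 1895) (.e (nat_lit 174) (nat_lit 12) (.e (nat_lit 204863) (nat_lit 27) (.e (nat_lit 344117) (nat_lit 21) (.e (nat_lit 516130) (nat_lit 3) (.e (nat_lit 221211) (nat_lit 22) .nil))))) (.g (nat_lit 0) (.e (nat_lit 1174) (nat_lit 0) .nil) .nil))) 
(.lf (nat_lit 447473) (.g (nat_lit 3920) (.e (nat_lit 375) (nat_lit 32) (.e (nat_lit 426125) (nat_lit 2) (.e (nat_lit 196666) (nat_lit 13) (.e (nat_lit 65610) (nat_lit 10) (.e (nat_lit 344127) (nat_lit 26) (.e (nat_lit 557094) (nat_lit 12) (.e (nat_lit 164022) (nat_lit 46) (.e (nat_lit 704626) (nat_lit 9) .nil)))))))) (.g (nat_lit 1) (.e (nat_lit 2132) (nat_lit 0) .nil) .nil)))))))) 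
(.nd (nat_lit 4) (.nd (nat_lit 5) (.nd (nat_lit 6) (.nd (nat_lit 7) (.nd (nat_lit 8) 
(.lf (nat_lit 446985) (.g (nat_lit 1054) (.e (nat_lit 819219) (nat_lit 4) (.e (nat_lit 172115) (nat_lit 10) (.e (nat_lit 434202) (nat_lit 18) (.e (nat_lit 4273) (nat_lit 252) .nil)))) .nil)) 
(.lf (nat_lit 447241) (.g (nat_lit 1577) (.e (nat_lit 174) (nat_lit 12) (.e (nat_lit 204876) (nat_lit 31) (.e (nat_lit 376842) (nat_lit 11) (.e (nat_lit 426406) (nat_lit 15) (.e (nat_lit 6209) (nat_lit 333) (.e (nat_lit 57878) (nat_lit 270) .nil)))))) (.g (nat_lit 1) (.e (nat_lit 1252) (nat_lit 0) .nil) .nil)))) (.nd (nat_lit 8) 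
(.lf (nat_lit 447113) (.g (nat_lit 4017) (.e (nat_lit 75) (nat_lit 0) (.e (nat_lit 3307) (nat_lit 202) (.e (nat_lit 573485) (nat_lit 13) (.e (nat_lit 65619) (nat_lit 10) (.e (nat_lit 344117) (nat_lit 21) (.e (nat_lit 516106) (nat_lit 0) (.e (nat_lit 7095) (nat_lit 380) (.e (nat_lit 164337) (nat_lit 232) .nil)))))))) (.g (nat_lit 1) (.e (nat_lit 335) (nat_lit 0) .nil) .nil))) 
(.lf (nat_lit 447369) (.g (nat_lit 2144) (.e (nat_lit 370) (nat_lit 32) (.e (nat_lit 426428) (nat_lit 17) (.e (nat_lit 90174) (nat_lit 14) (.e (nat_lit 180251) (nat_lit 10) (.e (nat_lit 573485) (nat_lit 13) .nil))))) (.g (nat_lit 0) (.e (nat_lit 1857) (nat_lit 0) .nil) .nil))))) (.nd (nat_lit 7) (.nd (nat_lit 8) 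
(.lf (nat_lit 447049) (.g (nat_lit 3456) (.e (nat_lit 819237) (nat_lit 11) (.e (nat_lit 16473) (nat_lit 14) (.e (nat_lit 491560) (nat_lit 10) (.e (nat_lit 344160) (nat_lit 37) (.e (nat_lit 647190) (nat_lit 9) .nil))))) .nil)) 
(.lf (nat_lit 447305) (.g (nat_lit 2739) (.e (nat_lit 112) (nat_lit 3) (.e (nat_lit 98373) (nat_lit 29) (.e (nat_lit 450562) (nat_lit 0) (.e (nat_lit 6738) (nat_lit 365) .nil)))) (.g (nat_lit 0) (.e (nat_lit 1493) (nat_lit 0) .nil) .nil)))) (.nd (nat_lit 8) 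
(.lf (nat_lit 447177) (.g (nat_lit 2016) (.e (nat_lit 174) (nat_lit 12) (.e (nat_lit 204829) (nat_lit 18) (.e (nat_lit 57847) (nat_lit 252) (.e (nat_lit 57407) (nat_lit 12) (.e (nat_lit 336456) (nat_lit 34) .nil))))) (.g (nat_lit 0) (.e (nat_lit 1094) (nat_lit 0) .nil) .nil))) 
(.lf (nat_lit 447433) (.g (nat_lit 3203) (.e (nat_lit 377) (nat_lit 32) (.e (nat_lit 426125) (nat_lit 2) (.e (nat_lit 196666) (nat_lit 13) (.e (nat_lit 65617) (nat_lit 10) (.e (nat_lit 344132) (nat_lit 26) (.e (nat_lit 557093) (nat_lit 12) (.e (nat_lit 164022) (nat_lit 46) (.e (nat_lit 704627) (nat_lit 9) .nil)))))))) (.g (nat_lit 1) (.e (nat_lit 1998) (nat_lit 0) .nil) .nil)))))) 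
(.nd (nat_lit 6) (.nd (nat_lit 7) (.nd (nat_lit 8) 
(.lf (nat_lit 447017) (.g (nat_lit 994) (.e (nat_lit 819221) (nat_lit 6) (.e (nat_lit 188438) (nat_lit 20) (.e (nat_lit 3289) (nat_lit 201) (.e (nat_lit 565251) (nat_lit 0) (.e (nat_lit 1586) (nat_lit 111) (.e (nat_lit 360493) (nat_lit 27) .nil)))))) (.g (nat_lit 6) .nil .nil))) 
(.lf (nat_lit 447273) (.g (nat_lit 682) (.e (nat_lit 202) (nat_lit 17) (.e (nat_lit 253992) (nat_lit 11) (.e (nat_lit 16412) (nat_lit 2) .nil))) (.g (nat_lit 0) (.e (nat_lit 1431) (nat_lit 0) .nil) .nil)))) (.nd (nat_lit 8) 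
(.lf (nat_lit 447145) (.g (nat_lit 2092) (.e (nat_lit 162) (nat_lit 11) (.e (nat_lit 196670) (nat_lit 14) (.e (nat_lit 73753) (nat_lit 8) (.e (nat_lit 557103) (nat_lit 14) (.e (nat_lit 180250) (nat_lit 10) (.e (nat_lit 581376) (nat_lit 19) (.e (nat_lit 57878) (nat_lit 270) .nil))))))) (.g (nat_lit 1) (.e (nat_lit 922) (nat_lit 0) .nil) .nil))) 
(.lf (nat_lit 447401) (.g (nat_lit 1774) (.e (nat_lit 371) (nat_lit 32) (.e (nat_lit 426544) (nat_lit 30) (.e (nat_lit 360466) (nat_lit 3) (.e (nat_lit 516191) (nat_lit 17) (.e (nat_lit 6216) (nat_lit 333) (.e (nat_lit 57881) (nat_lit 270) .nil)))))) (.g (nat_lit 1) (.e (nat_lit 1918) (nat_lit 0) .nil) .nil))))) (.nd (nat_lit 7) (.nd (nat_lit 8) 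
(.lf (nat_lit 447081) (.g (nat_lit 4627) (.e (nat_lit 27) (nat_lit 0) (.e (nat_lit 6101) (nat_lit 332) (.e (nat_lit 2812) (nat_lit 180) (.e (nat_lit 303119) (nat_lit 3) (.e (nat_lit 204869) (nat_lit 29) (.e (nat_lit 360475) (nat_lit 8) (.e (nat_lit 557068) (nat_lit 9) .nil))))))) (.g (nat_lit 1) (.e (nat_lit 139) (nat_lit 0) .nil) .nil))) 
(.lf (nat_lit 447337) (.g (nat_lit 2992) (.e (nat_lit 359) (nat_lit 30) (.e (nat_lit 409604) (nat_lit 0) (.e (nat_lit 5270) (nat_lit 298) (.e (nat_lit 1239) (nat_lit 91) (.e (nat_lit 90170) (nat_lit 13) (.e (nat_lit 172113) (nat_lit 10) (.e (nat_lit 434242) (nat_lit 28) (.e (nat_lit 573455) (nat_lit 9) .nil)))))))) (.g (nat_lit 1) (.e (nat_lit 1529) (nat_lit 0) .nil) .nil)))) (.nd (nat_lit 8) 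
(.lf (nat_lit 447209) (.g (nat_lit 2457) (.e (nat_lit 174) (nat_lit 12) (.e (nat_lit 204861) (nat_lit 26) (.e (nat_lit 336213) (nat_lit 13) (.e (nat_lit 393219) (nat_lit 0) (.e (nat_lit 6214) (nat_lit 333) (.e (nat_lit 57881) (nat_lit 270) .nil)))))) (.g (nat_lit 1) (.e (nat_lit 1162) (nat_lit 0) .nil) .nil))) 
(.lf (nat_lit 447465) (.g (nat_lit 6579) (.e (nat_lit 375) (nat_lit 32) (.e (nat_lit 426125) (nat_lit 2) (.e (nat_lit 196666) (nat_lit 13) (.e (nat_lit 65610) (nat_lit 10) (.e (nat_lit 344127) (nat_lit 26) (.e (nat_lit 557090) (nat_lit 12) (.e (nat_lit 164022) (nat_lit 46) (.e (nat_lit 704628) (nat_lit 9) .nil)))))))) (.g (nat_lit 1) (.e (nat_lit 2124) (nat_lit 0) .nil) .nil))))))) 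
(.nd (nat_lit 5) (.nd (nat_lit 6) (.nd (nat_lit 7) (.nd (nat_lit 8) 
(.lf (nat_lit 447001) (.g (nat_lit 1268) (.e (nat_lit 819219) (nat_lit 4) (.e (nat_lit 172116) (nat_lit 10) (.e (nat_lit 434241) (nat_lit 27) (.e (nat_lit 565269) (nat_lit 6) (.e (nat_lit 81942) (nat_lit 20) (.e (nat_lit 2390) (nat_lit 156) .nil)))))) (.g (nat_lit 4) .nil .nil))) 
(.lf (nat_lit 447257) (.g (nat_lit 2400) (.e (nat_lit 174) (nat_lit 12) (.e (nat_lit 204877) (nat_lit 31) (.e (nat_lit 376842) (nat_lit 11) (.e (nat_lit 426408) (nat_lit 15) (.e (nat_lit 6209) (nat_lit 333) (.e (nat_lit 57878) (nat_lit 270) .nil)))))) (.g (nat_lit 1) (.e (nat_lit 1268) (nat_lit 0) .nil) .nil)))) (.nd (nat_lit 8) 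
(.lf (nat_lit 447129) (.g (nat_lit 3946) (.e (nat_lit 77) (nat_lit 0) (.e (nat_lit 3308) (nat_lit 202) (.e (nat_lit 573482) (nat_lit 13) (.e (nat_lit 65619) (nat_lit 10) (.e (nat_lit 344117) (nat_lit 21) (.e (nat_lit 516106) (nat_lit 0) (.e (nat_lit 7095) (nat_lit 380) (.e (nat_lit 164338) (nat_lit 232) .nil)))))))) (.g (nat_lit 1) (.e (nat_lit 496) (nat_lit 0) .nil) .nil))) 
(.lf (nat_lit 447385) (.g (nat_lit 3380) (.e (nat_lit 371) (nat_lit 32) (.e (nat_lit 426428) (nat_lit 17) (.e (nat_lit 90174) (nat_lit 14) (.e (nat_lit 180251) (nat_lit 10) (.e (nat_lit 573485) (nat_lit 13) (.e (nat_lit 65568) (nat_lit 2) (.e (nat_lit 98048) (nat_lit 0) .nil))))))) (.g (nat_lit 1) (.e (nat_lit 1878) (nat_lit 0) .nil) .nil))))) (.nd (nat_lit 7) (.nd (nat_lit 8) 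
(.lf (nat_lit 447065) (.g (nat_lit 3116) (.e (nat_lit 22) (nat_lit 0) (.e (nat_lit 6234) (nat_lit 335) (.e (nat_lit 164359) (nat_lit 246) (.e (nat_lit 2679) (nat_lit 168) (.e (nat_lit 204869) (nat_lit 29) (.e (nat_lit 360474) (nat_lit 8) (.e (nat_lit 557073) (nat_lit 9) .nil))))))) (.g (nat_lit 1) (.e (nat_lit 95) (nat_lit 0) .nil) .nil))) 
(.lf (nat_lit 447321) (.g (nat_lit 4287) (.e (nat_lit 359) (nat_lit 30) (.e (nat_lit 409602) (nat_lit 0) (.e (nat_lit 5270) (nat_lit 298) (.e (nat_lit 1239) (nat_lit 91) (.e (nat_lit 90170) (nat_lit 13) (.e (nat_lit 172113) (nat_lit 10) (.e (nat_lit 434248) (nat_lit 28) (.e (nat_lit 573449) (nat_lit 9) .nil)))))))) (.g (nat_lit 1) (.e (nat_lit 1513) (nat_lit 0) .nil) .nil)))) (.nd (nat_lit 8) 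
(.lf (nat_lit 447193) (.g (nat_lit 2839) (.e (nat_lit 174) (nat_lit 12) (.e (nat_lit 204830) (nat_lit 18) (.e (nat_lit 57854) (nat_lit 252) (.e (nat_lit 57447) (nat_lit 19) (.e (nat_lit 393221) (nat_lit 0) (.e (nat_lit 6112) (nat_lit 332) (.e (nat_lit 2406) (nat_lit 157) (.e (nat_lit 5259) (nat_lit 298) .nil)))))))) (.g (nat_lit 1) (.e (nat_lit 1111) (nat_lit 0) .nil) .nil))) 
(.lf (nat_lit 447449) (.g (nat_lit 3848) (.e (nat_lit 375) (nat_lit 32) (.e (nat_lit 426025) (nat_lit 0) (.e (nat_lit 7559) (nat_lit 402) (.e (nat_lit 1235) (nat_lit 91) (.e (nat_lit 90170) (nat_lit 13) (.e (nat_lit 172106) (nat_lit 10) (.e (nat_lit 434244) (nat_lit 28) (.e (nat_lit 573450) (nat_lit 9) .nil)))))))) (.g (nat_lit 1) (.e (nat_lit 2054) (nat_lit 0) .nil) .nil)))))) 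
(.nd (nat_lit 6) (.nd (nat_lit 7) (.nd (nat_lit 8) 
(.lf (nat_lit 447033) (.g (nat_lit 901) (.e (nat_lit 819221) (nat_lit 6) (.e (nat_lit 188449) (nat_lit 22) (.e (nat_lit 196615) (nat_lit 0) .nil))) .nil)) 
(.lf (nat_lit 447289) (.g (nat_lit 2083) (.e (nat_lit 7936) (nat_lit 2) (.e (nat_lit 90170) (nat_lit 13) (.e (nat_lit 172106) (nat_lit 10) (.e (nat_lit 434231) (nat_lit 23) (.e (nat_lit 532544) (nat_lit 10) .nil))))) (.g (nat_lit 0) (.e (nat_lit 1476) (nat_lit 0) .nil) .nil)))) (.nd (nat_lit 8) 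
(.lf (nat_lit 447161) (.g (nat_lit 2734) (.e (nat_lit 165) (nat_lit 11) (.e (nat_lit 196666) (nat_lit 13) (.e (nat_lit 65610) (nat_lit 10) (.e (nat_lit 344117) (nat_lit 21) .nil)))) (.g (nat_lit 0) (.e (nat_lit 993) (nat_lit 0) .nil) .nil))) 
(.lf (nat_lit 447417) (.g (nat_lit 4366) (.e (nat_lit 372) (nat_lit 32) (.e (nat_lit 426320) (nat_lit 12) (.e (nat_lit 475185) (nat_lit 29) (.e (nat_lit 557101) (nat_lit 13) (.e (nat_lit 172115) (nat_lit 10) (.e (nat_lit 434244) (nat_lit 28) (.e (nat_lit 573449) (nat_lit 9) .nil))))))) (.g (nat_lit 1) (.e (nat_lit 1948) (nat_lit 0) .nil) .nil))))) (.nd (nat_lit 7) (.nd (nat_lit 8) 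
(.lf (nat_lit 447097) (.g (nat_lit 3001) (.e (nat_lit 40) (nat_lit 0) (.e (nat_lit 1853) (nat_lit 124) (.e (nat_lit 557105) (nat_lit 14) (.e (nat_lit 180252) (nat_lit 10) (.e (nat_lit 573489) (nat_lit 14) .nil))))) (.g (nat_lit 0) (.e (nat_lit 241) (nat_lit 0) .nil) .nil))) 
(.lf (nat_lit 447353) (.g (nat_lit 3019) (.e (nat_lit 370) (nat_lit 32) (.e (nat_lit 426120) (nat_lit 2) (.e (nat_lit 196666) (nat_lit 13) (.e (nat_lit 65617) (nat_lit 10) (.e (nat_lit 344132) (nat_lit 26) (.e (nat_lit 557094) (nat_lit 12) (.e (nat_lit 164022) (nat_lit 46) (.e (nat_lit 704628) (nat_lit 9) .nil)))))))) (.g (nat_lit 1) (.e (nat_lit 1828) (nat_lit 0) .nil) .nil)))) (.nd (nat_lit 8) 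
(.lf (nat_lit 447225) (.g (nat_lit 2836) (.e (nat_lit 174) (nat_lit 12) (.e (nat_lit 204863) (nat_lit 27) (.e (nat_lit 344129) (nat_lit 26) (.e (nat_lit 557104) (nat_lit 14) (.e (nat_lit 180252) (nat_lit 10) (.e (nat_lit 573503) (nat_lit 18) (.e (nat_lit 7936) (nat_lit 81) (.e (nat_lit 5259) (nat_lit 298) .nil)))))))) (.g (nat_lit 1) (.e (nat_lit 1182) (nat_lit 0) .nil) .nil))) 
(.lf (nat_lit 447481) (.g (nat_lit 4617) (.e (nat_lit 375) (nat_lit 32) (.e (nat_lit 426125) (nat_lit 2) (.e (nat_lit 196666) (nat_lit 13) (.e (nat_lit 65610) (nat_lit 10) (.e (nat_lit 344128) (nat_lit 26) (.e (nat_lit 557091) (nat_lit 12) (.e (nat_lit 164022) (nat_lit 46) (.e (nat_lit 704627) (nat_lit 9) .nil)))))))) (.g (nat_lit 1) (.e (nat_lit 2140) (nat_lit 0) .nil) .nil))))))))) 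
(.nd (nat_lit 3) (.nd (nat_lit 4) (.nd (nat_lit 5) (.nd (nat_lit 6) (.nd (nat_lit 7) 
(.nd (nat_lit 8) 
(.lf (nat_lit 446981) (.g (nat_lit 2063) (.e (nat_lit 819219) (nat_lit 4) (.e (nat_lit 172113) (nat_lit 10) (.e (nat_lit 434241) (nat_lit 27) (.e (nat_lit 565269) (nat_lit 6) (.e (nat_lit 81946) (nat_lit 20) (.e (nat_lit 2390) (nat_lit 156) .nil)))))) (.g (nat_lit 5) .nil .nil))) 
(.lf (nat_lit 447237) (.g (nat_lit 553) (.e (nat_lit 174) (nat_lit 12) (.e (nat_lit 204869) (nat_lit 29) (.e (nat_lit 360451) (nat_lit 0) .nil))) (.g (nat_lit 0) (.e (nat_lit 1221) (nat_lit 0) .nil) .nil)))) (.nd (nat_lit 8) 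
(.lf (nat_lit 447109) (.g (nat_lit 3622) (.e (nat_lit 75) (nat_lit 0) (.e (nat_lit 3307) (nat_lit 202) (.e (nat_lit 573485) (nat_lit 13) (.e (nat_lit 65604) (nat_lit 9) (.e (nat_lit 336013) (nat_lit 2) (.e (nat_lit 90165) (nat_lit 12) (.e (nat_lit 164218) (nat_lit 179) (.e (nat_lit 164340) (nat_lit 232) .nil)))))))) (.g (nat_lit 1) (.e (nat_lit 325) (nat_lit 0) .nil) .nil))) 
(.lf (nat_lit 447365) (.g (nat_lit 3787) (.e (nat_lit 370) (nat_lit 32) (.e (nat_lit 426140) (nat_lit 3) (.e (nat_lit 204869) (nat_lit 29) (.e (nat_lit 360474) (nat_lit 8) (.e (nat_lit 557094) (nat_lit 12) (.e (nat_lit 164022) (nat_lit 46) (.e (nat_lit 704628) (nat_lit 9) .nil))))))) (.g (nat_lit 1) (.e (nat_lit 1848) (nat_lit 0) .nil) .nil))))) (.nd (nat_lit 7) (.nd (nat_lit 8) 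
(.lf (nat_lit 447045) (.g (nat_lit 3495) (.e (nat_lit 819237) (nat_lit 11) (.e (nat_lit 16468) (nat_lit 13) (.e (nat_lit 483372) (nat_lit 21) (.e (nat_lit 319533) (nat_lit 16) (.e (nat_lit 286724) (nat_lit 0) (.e (nat_lit 2391) (nat_lit 156) .nil)))))) (.g (nat_lit 0) .nil .nil))) 
(.lf (nat_lit 447301) (.g (nat_lit 2535) (.e (nat_lit 112) (nat_lit 3) (.e (nat_lit 98335) (nat_lit 18) (.e (nat_lit 164327) (nat_lit 230) (.e (nat_lit 163944) (nat_lit 19) (.e (nat_lit 483333) (nat_lit 0) .nil))))) (.g (nat_lit 0) (.e (nat_lit 1489) (nat_lit 0) .nil) .nil)))) (.nd (nat_lit 8) 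
(.lf (nat_lit 447173) (.g (nat_lit 1258) (.e (nat_lit 172) (nat_lit 12) (.e (nat_lit 204861) (nat_lit 26) (.e (nat_lit 336075) (nat_lit 9) (.e (nat_lit 336450) (nat_lit 33) .nil)))) (.g (nat_lit 0) (.e (nat_lit 1079) (nat_lit 0) .nil) .nil))) 
(.lf (nat_lit 447429) (.g (nat_lit 4576) (.e (nat_lit 376) (nat_lit 32) (.e (nat_lit 426339) (nat_lit 14) (.e (nat_lit 491571) (nat_lit 13) (.e (nat_lit 393260) (nat_lit 21) (.e (nat_lit 409623) (nat_lit 10) .nil))))) (.g (nat_lit 0) (.e (nat_lit 1992) (nat_lit 0) .nil) .nil)))))) (.nd (nat_lit 6) (.nd (nat_lit 7) (.nd (nat_lit 8) 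
(.lf (nat_lit 447013) (.g (nat_lit 1138) (.e (nat_lit 819221) (nat_lit 6) (.e (nat_lit 188431) (nat_lit 20) (.e (nat_lit 3282) (nat_lit 200) (.e (nat_lit 557061) (nat_lit 0) (.e (nat_lit 1597) (nat_lit 111) (.e (nat_lit 360493) (nat_lit 27) .nil)))))) (.g (nat_lit 0) .nil .nil))) 
(.lf (nat_lit 447269) (.g (nat_lit 3670) (.e (nat_lit 202) (nat_lit 17) (.e (nat_lit 253992) (nat_lit 11) (.e (nat_lit 16411) (nat_lit 2) (.e (nat_lit 196668) (nat_lit 14) (.e (nat_lit 73782) (nat_lit 32) (.e (nat_lit 2664) (nat_lit 167) (.e (nat_lit 196630) (nat_lit 9) .nil))))))) (.g (nat_lit 1) (.e (nat_lit 1427) (nat_lit 0) .nil) .nil)))) (.nd (nat_lit 8) 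
(.lf (nat_lit 447141) (.g (nat_lit 2704) (.e (nat_lit 84) (nat_lit 0) (.e (nat_lit 3307) (nat_lit 202) (.e (nat_lit 573485) (nat_lit 13) (.e (nat_lit 65619) (nat_lit 10) (.e (nat_lit 344117) (nat_lit 21) (.e (nat_lit 516106) (nat_lit 0) (.e (nat_lit 7112) (nat_lit 381) (.e (nat_lit 229643) (nat_lit 232) .nil)))))))) (.g (nat_lit 1) (.e (nat_lit 691) (nat_lit 0) .nil) .nil))) 
(.lf (nat_lit 447397) (.g (nat_lit 369) (.e (nat_lit 371) (nat_lit 32) (.e (nat_lit 426542) (nat_lit 29) (.e (nat_lit 352315) (nat_lit 23) .nil))) (.g (nat_lit 0) (.e (nat_lit 1914) (nat_lit 0) .nil) .nil))))) (.nd (nat_lit 7) (.nd (nat_lit 8) 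
(.lf (nat_lit 447077) (.g (nat_lit 3140) (.e (nat_lit 27) (nat_lit 0) (.e (nat_lit 3308) (nat_lit 202) (.e (nat_lit 573482) (nat_lit 13) (.e (nat_lit 65619) (nat_lit 10) (.e (nat_lit 344117) (nat_lit 21) (.e (nat_lit 516106) (nat_lit 0) (.e (nat_lit 7112) (nat_lit 381) (.e (nat_lit 229644) (nat_lit 232) .nil)))))))) (.g (nat_lit 1) (.e (nat_lit 118) (nat_lit 0) .nil) .nil))) 
(.lf (nat_lit 447333) (.g (nat_lit 3825) (.e (nat_lit 359) (nat_lit 30) (.e (nat_lit 409603) (nat_lit 0) (.e (nat_lit 5270) (nat_lit 298) (.e (nat_lit 1239) (nat_lit 91) (.e (nat_lit 90170) (nat_lit 13) (.e (nat_lit 172113) (nat_lit 10) (.e (nat_lit 434245) (nat_lit 28) (.e (nat_lit 573449) (nat_lit 9) .nil)))))))) (.g (nat_lit 1) (.e (nat_lit 1525) (nat_lit 0) .nil) .nil)))) (.nd (nat_lit 8) 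
(.lf (nat_lit 447205) (.g (nat_lit 365) (.e (nat_lit 174) (nat_lit 12) (.e (nat_lit 204861) (nat_lit 26) (.e (nat_lit 336076) (nat_lit 9) .nil))) (.g (nat_lit 0) (.e (nat_lit 1156) (nat_lit 0) .nil) .nil))) 
(.lf (nat_lit 447461) (.g (nat_lit 1044) (.e (nat_lit 375) (nat_lit 32) (.e (nat_lit 426125) (nat_lit 2) (.e (nat_lit 196666) (nat_lit 13) (.e (nat_lit 65610) (nat_lit 10) .nil)))) (.g (nat_lit 0) (.e (nat_lit 2094) (nat_lit 0) .nil) .nil))))))) (.nd (nat_lit 5) (.nd (nat_lit 6) (.nd (nat_lit 7) (.nd (nat_lit 8) 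
(.lf (nat_lit 446997) (.g (nat_lit 3514) (.e (nat_lit 819219) (nat_lit 4) (.e (nat_lit 172115) (nat_lit 10) (.e (nat_lit 434244) (nat_lit 28) (.e (nat_lit 573503) (nat_lit 18) (.e (nat_lit 1358) (nat_lit 102) (.e (nat_lit 286753) (nat_lit 10) (.e (nat_lit 344183) (nat_lit 49) .nil))))))) (.g (nat_lit 7) .nil .nil))) 
(.lf (nat_lit 447253) (.g (nat_lit 1812) (.e (nat_lit 174) (nat_lit 12) (.e (nat_lit 204877) (nat_lit 31) (.e (nat_lit 376842) (nat_lit 11) (.e (nat_lit 426408) (nat_lit 15) (.e (nat_lit 6112) (nat_lit 332) (.e (nat_lit 7936) (nat_lit 81) (.e (nat_lit 5259) (nat_lit 298) .nil))))))) (.g (nat_lit 1) (.e (nat_lit 1264) (nat_lit 0) .nil) .nil)))) (.nd (nat_lit 8) 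
(.lf (nat_lit 447125) (.g (nat_lit 2961) (.e (nat_lit 77) (nat_lit 0) (.e (nat_lit 3307) (nat_lit 202) (.e (nat_lit 573485) (nat_lit 13) (.e (nat_lit 65619) (nat_lit 10) (.e (nat_lit 344117) (nat_lit 21) (.e (nat_lit 516102) (nat_lit 0) (.e (nat_lit 7107) (nat_lit 380) (.e (nat_lit 164339) (nat_lit 232) .nil)))))))) (.g (nat_lit 1) (.e (nat_lit 471) (nat_lit 0) .nil) .nil))) 
(.lf (nat_lit 447381) (.g (nat_lit 3528) (.e (nat_lit 371) (nat_lit 32) (.e (nat_lit 426428) (nat_lit 17) (.e (nat_lit 90174) (nat_lit 14) (.e (nat_lit 180250) (nat_lit 10) (.e (nat_lit 573484) (nat_lit 13) (.e (nat_lit 65566) (nat_lit 2) (.e (nat_lit 98048) (nat_lit 0) .nil))))))) (.g (nat_lit 1) (.e (nat_lit 1874) (nat_lit 0) .nil) .nil))))) (.nd (nat_lit 7) (.nd (nat_lit 8) 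
(.lf (nat_lit 447061) (.g (nat_lit 4360) (.e (nat_lit 20) (nat_lit 0) (.e (nat_lit 6232) (nat_lit 335) (.e (nat_lit 164359) (nat_lit 246) (.e (nat_lit 2661) (nat_lit 167) (.e (nat_lit 196666) (nat_lit 13) (.e (nat_lit 65610) (nat_lit 10) (.e (nat_lit 344129) (nat_lit 26) (.e (nat_lit 557067) (nat_lit 9) .nil)))))))) (.g (nat_lit 1) (.e (nat_lit 51) (nat_lit 0) .nil) .nil))) 
(.lf (nat_lit 447317) (.g (nat_lit 4369) (.e (nat_lit 359) (nat_lit 30) (.e (nat_lit 409602) (nat_lit 0) (.e (nat_lit 5270) (nat_lit 298) (.e (nat_lit 1239) (nat_lit 91) (.e (nat_lit 90170) (nat_lit 13) (.e (nat_lit 172113) (nat_lit 10) (.e (nat_lit 434245) (nat_lit 28) (.e (nat_lit 573449) (nat_lit 9) .nil)))))))) (.g (nat_lit 1) (.e (nat_lit 1509) (nat_lit 0) .nil) .nil)))) (.nd (nat_lit 8) 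
(.lf (nat_lit 447189) (.g (nat_lit 3699) (.e (nat_lit 174) (nat_lit 12) (.e (nat_lit 204830) (nat_lit 18) (.e (nat_lit 57854) (nat_lit 252) (.e (nat_lit 57406) (nat_lit 12) (.e (nat_lit 336456) (nat_lit 34) (.e (nat_lit 483346) (nat_lit 17) (.e (nat_lit 6445) (nat_lit 343) .nil))))))) (.g (nat_lit 1) (.e (nat_lit 1107) (nat_lit 0) .nil) .nil))) 
(.lf (nat_lit 447445) (.g (nat_lit 4191) (.e (nat_lit 375) (nat_lit 32) (.e (nat_lit 426025) (nat_lit 0) (.e (nat_lit 7554) (nat_lit 402) (.e (nat_lit 1235) (nat_lit 91) (.e (nat_lit 90170) (nat_lit 13) (.e (nat_lit 172106) (nat_lit 10) (.e (nat_lit 434244) (nat_lit 28) (.e (nat_lit 573450) (nat_lit 9) .nil)))))))) (.g (nat_lit 1) (.e (nat_lit 2050) (nat_lit 0) .nil) .nil)))))) 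
(.nd (nat_lit 6) (.nd (nat_lit 7) (.nd (nat_lit 8) 
(.lf (nat_lit 447029) (.g (nat_lit 726) (.e (nat_lit 819221) (nat_lit 6) (.e (nat_lit 188446) (nat_lit 21) (.e (nat_lit 171776) (nat_lit 125) .nil))) .nil)) 
(.lf (nat_lit 447285) (.g (nat_lit 812) (.e (nat_lit 100) (nat_lit 2) (.e (nat_lit 90170) (nat_lit 13) (.e (nat_lit 172082) (nat_lit 7) .nil))) (.g (nat_lit 0) (.e (nat_lit 1472) (nat_lit 0) .nil) .nil)))) (.nd (nat_lit 8) 
(.lf (nat_lit 447157) (.g (nat_lit 2713) (.e (nat_lit 164) (nat_lit 11) (.e (nat_lit 196666) (nat_lit 13) (.e (nat_lit 65610) (nat_lit 10) (.e (nat_lit 344117) (nat_lit 21) .nil)))) (.g (nat_lit 0) (.e (nat_lit 986) (nat_lit 0) .nil) .nil))) 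
(.lf (nat_lit 447413) (.g (nat_lit 2425) (.e (nat_lit 372) (nat_lit 32) (.e (nat_lit 426131) (nat_lit 3) (.e (nat_lit 204868) (nat_lit 29) (.e (nat_lit 360473) (nat_lit 8) (.e (nat_lit 557094) (nat_lit 12) .nil))))) (.g (nat_lit 0) (.e (nat_lit 1944) (nat_lit 0) .nil) .nil))))) (.nd (nat_lit 7) (.nd (nat_lit 8) 
(.lf (nat_lit 447093) (.g (nat_lit 4255) (.e (nat_lit 39) (nat_lit 0) (.e (nat_lit 1853) (nat_lit 124) (.e (nat_lit 557109) (nat_lit 15) (.e (nat_lit 188452) (nat_lit 23) (.e (nat_lit 204846) (nat_lit 24) .nil))))) (.g (nat_lit 0) (.e (nat_lit 233) (nat_lit 0) .nil) .nil))) 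
(.lf (nat_lit 447349) (.g (nat_lit 3078) (.e (nat_lit 365) (nat_lit 31) (.e (nat_lit 417796) (nat_lit 0) (.e (nat_lit 5395) (nat_lit 301) (.e (nat_lit 57464) (nat_lit 23) (.e (nat_lit 516166) (nat_lit 12) (.e (nat_lit 450588) (nat_lit 10) (.e (nat_lit 573457) (nat_lit 9) .nil))))))) (.g (nat_lit 1) (.e (nat_lit 1801) (nat_lit 0) .nil) .nil)))) (.nd (nat_lit 8) 
(.lf (nat_lit 447221) (.g (nat_lit 970) (.e (nat_lit 174) (nat_lit 12) (.e (nat_lit 204863) (nat_lit 27) (.e (nat_lit 344120) (nat_lit 21) .nil))) (.g (nat_lit 0) (.e (nat_lit 1178) (nat_lit 0) .nil) .nil))) 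
(.lf (nat_lit 447477) (.g (nat_lit 3101) (.e (nat_lit 375) (nat_lit 32) (.e (nat_lit 426125) (nat_lit 2) (.e (nat_lit 196666) (nat_lit 13) (.e (nat_lit 65610) (nat_lit 10) (.e (nat_lit 344128) (nat_lit 26) (.e (nat_lit 557090) (nat_lit 12) (.e (nat_lit 164022) (nat_lit 46) (.e (nat_lit 704626) (nat_lit 9) .nil)))))))) (.g (nat_lit 1) (.e (nat_lit 2136) (nat_lit 0) .nil) .nil)))))))) 
(.nd (nat_lit 4) (.nd (nat_lit 5) (.nd (nat_lit 6) (.nd (nat_lit 7) (.nd (nat_lit 8) 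
(.lf (nat_lit 446989) (.g (nat_lit 2066) (.e (nat_lit 819219) (nat_lit 4) (.e (nat_lit 172115) (nat_lit 10) (.e (nat_lit 434241) (nat_lit 27) (.e (nat_lit 565269) (nat_lit 6) (.e (nat_lit 81938) (nat_lit 20) (.e (nat_lit 2390) (nat_lit 156) .nil)))))) (.g (nat_lit 5) .nil .nil))) 
(.lf (nat_lit 447245) (.g (nat_lit 2414) (.e (nat_lit 174) (nat_lit 12) (.e (nat_lit 204876) (nat_lit 31) (.e (nat_lit 376842) (nat_lit 11) (.e (nat_lit 426408) (nat_lit 15) (.e (nat_lit 6207) (nat_lit 333) (.e (nat_lit 57879) (nat_lit 270) .nil)))))) (.g (nat_lit 1) (.e (nat_lit 1256) (nat_lit 0) .nil) .nil)))) (.nd (nat_lit 8) 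
(.lf (nat_lit 447117) (.g (nat_lit 2042) (.e (nat_lit 75) (nat_lit 0) (.e (nat_lit 3307) (nat_lit 202) (.e (nat_lit 573485) (nat_lit 13) (.e (nat_lit 65619) (nat_lit 10) (.e (nat_lit 344117) (nat_lit 21) (.e (nat_lit 516106) (nat_lit 0) (.e (nat_lit 7095) (nat_lit 380) (.e (nat_lit 164342) (nat_lit 232) .nil)))))))) (.g (nat_lit 1) (.e (nat_lit 339) (nat_lit 0) .nil) .nil))) 
(.lf (nat_lit 447373) (.g (nat_lit 3057) (.e (nat_lit 371) (nat_lit 32) (.e (nat_lit 426337) (nat_lit 14) (.e (nat_lit 491570) (nat_lit 13) (.e (nat_lit 393260) (nat_lit 21) (.e (nat_lit 409623) (nat_lit 10) (.e (nat_lit 5259) (nat_lit 298) .nil)))))) (.g (nat_lit 1) (.e (nat_lit 1865) (nat_lit 0) .nil) .nil))))) (.nd (nat_lit 7) (.nd (nat_lit 8) 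
(.lf (nat_lit 447053) (.g (nat_lit 2484) (.e (nat_lit 819244) (nat_lit 14) (.e (nat_lit 1348) (nat_lit 102) (.e (nat_lit 286759) (nat_lit 12) (.e (nat_lit 385094) (nat_lit 49) (.e (nat_lit 778326) (nat_lit 6) .nil))))) .nil)) 
(.lf (nat_lit 447309) (.g (nat_lit 1343) (.e (nat_lit 140) (nat_lit 8) (.e (nat_lit 147496) (nat_lit 11) (.e (nat_lit 24604) (nat_lit 2) (.e (nat_lit 90185) (nat_lit 17) .nil)))) (.g (nat_lit 0) (.e (nat_lit 1501) (nat_lit 0) .nil) .nil)))) (.nd (nat_lit 8) 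
(.lf (nat_lit 447181) (.g (nat_lit 2021) (.e (nat_lit 174) (nat_lit 12) (.e (nat_lit 204829) (nat_lit 18) (.e (nat_lit 57847) (nat_lit 252) (.e (nat_lit 57448) (nat_lit 19) (.e (nat_lit 393221) (nat_lit 0) (.e (nat_lit 6241) (nat_lit 336) (.e (nat_lit 229647) (nat_lit 232) .nil))))))) (.g (nat_lit 1) (.e (nat_lit 1099) (nat_lit 0) .nil) .nil))) 
(.lf (nat_lit 447437) (.g (nat_lit 2892) (.e (nat_lit 377) (nat_lit 32) (.e (nat_lit 426340) (nat_lit 14) (.e (nat_lit 491571) (nat_lit 13) (.e (nat_lit 393260) (nat_lit 21) (.e (nat_lit 409616) (nat_lit 10) (.e (nat_lit 7936) (nat_lit 298) .nil)))))) (.g (nat_lit 1) (.e (nat_lit 2012) (nat_lit 0) .nil) .nil)))))) (.nd (nat_lit 6) (.nd (nat_lit 7) (.nd (nat_lit 8) 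
(.lf (nat_lit 447021) (.g (nat_lit 1307) (.e (nat_lit 819221) (nat_lit 6) (.e (nat_lit 188440) (nat_lit 20) (.e (nat_lit 3289) (nat_lit 201) (.e (nat_lit 565251) (nat_lit 0) (.e (nat_lit 1586) (nat_lit 111) (.e (nat_lit 360493) (nat_lit 27) .nil)))))) (.g (nat_lit 6) .nil .nil))) 
(.lf (nat_lit 447277) (.g (nat_lit 2614) (.e (nat_lit 202) (nat_lit 17) (.e (nat_lit 253992) (nat_lit 11) (.e (nat_lit 16412) (nat_lit 2) (.e (nat_lit 196672) (nat_lit 15) (.e (nat_lit 81943) (nat_lit 20) (.e (nat_lit 1842) (nat_lit 123) (.e (nat_lit 548872) (nat_lit 5) .nil))))))) (.g (nat_lit 1) (.e (nat_lit 1435) (nat_lit 0) .nil) .nil)))) (.nd (nat_lit 8) 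
(.lf (nat_lit 447149) (.g (nat_lit 4217) (.e (nat_lit 162) (nat_lit 11) (.e (nat_lit 196670) (nat_lit 14) (.e (nat_lit 73754) (nat_lit 8) (.e (nat_lit 557105) (nat_lit 14) (.e (nat_lit 180252) (nat_lit 10) (.e (nat_lit 573503) (nat_lit 18) (.e (nat_lit 1074) (nat_lit 81) (.e (nat_lit 5259) (nat_lit 298) .nil)))))))) (.g (nat_lit 1) (.e (nat_lit 926) (nat_lit 0) .nil) .nil))) 
(.lf (nat_lit 447405) (.g (nat_lit 1064) (.e (nat_lit 371) (nat_lit 32) (.e (nat_lit 426544) (nat_lit 30) (.e (nat_lit 360467) (nat_lit 3) (.e (nat_lit 516191) (nat_lit 17) .nil)))) (.g (nat_lit 0) (.e (nat_lit 1922) (nat_lit 0) .nil) .nil))))) (.nd (nat_lit 7) (.nd (nat_lit 8) 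
(.lf (nat_lit 447085) (.g (nat_lit 3037) (.e (nat_lit 25) (nat_lit 0) (.e (nat_lit 3307) (nat_lit 202) (.e (nat_lit 573485) (nat_lit 13) (.e (nat_lit 65619) (nat_lit 10) (.e (nat_lit 344117) (nat_lit 21) (.e (nat_lit 516106) (nat_lit 0) (.e (nat_lit 7112) (nat_lit 381) (.e (nat_lit 229644) (nat_lit 232) .nil)))))))) (.g (nat_lit 1) (.e (nat_lit 161) (nat_lit 0) .nil) .nil))) 
(.lf (nat_lit 447341) (.g (nat_lit 3503) (.e (nat_lit 359) (nat_lit 30) (.e (nat_lit 409605) (nat_lit 0) (.e (nat_lit 5270) (nat_lit 298) (.e (nat_lit 1239) (nat_lit 91) (.e (nat_lit 90170) (nat_lit 13) (.e (nat_lit 172113) (nat_lit 10) (.e (nat_lit 434248) (nat_lit 28) (.e (nat_lit 573455) (nat_lit 9) .nil)))))))) (.g (nat_lit 1) (.e (nat_lit 1533) (nat_lit 0) .nil) .nil)))) (.nd (nat_lit 8) 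
(.lf (nat_lit 447213) (.g (nat_lit 2460) (.e (nat_lit 174) (nat_lit 12) (.e (nat_lit 204863) (nat_lit 27) (.e (nat_lit 344117) (nat_lit 21) (.e (nat_lit 516099) (nat_lit 0) .nil)))) (.g (nat_lit 0) (.e (nat_lit 1170) (nat_lit 0) .nil) .nil))) 
(.lf (nat_lit 447469) (.g (nat_lit 4654) (.e (nat_lit 375) (nat_lit 32) (.e (nat_lit 426125) (nat_lit 2) (.e (nat_lit 196666) (nat_lit 13) (.e (nat_lit 65610) (nat_lit 10) (.e (nat_lit 344127) (nat_lit 26) (.e (nat_lit 557093) (nat_lit 12) (.e (nat_lit 164022) (nat_lit 46) (.e (nat_lit 704627) (nat_lit 9) .nil)))))))) (.g (nat_lit 1) (.e (nat_lit 2128) (nat_lit 0) .nil) .nil))))))) 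
(.nd (nat_lit 5) (.nd (nat_lit 6) (.nd (nat_lit 7) (.nd (nat_lit 8) 
(.lf (nat_lit 447005) (.g (nat_lit 733) (.e (nat_lit 819219) (nat_lit 4) (.e (nat_lit 172120) (nat_lit 12) (.e (nat_lit 475171) (nat_lit 22) .nil))) .nil)) 
(.lf (nat_lit 447261) (.g (nat_lit 1682) (.e (nat_lit 175) (nat_lit 12) (.e (nat_lit 204863) (nat_lit 27) (.e (nat_lit 344132) (nat_lit 26) (.e (nat_lit 557105) (nat_lit 14) .nil)))) (.g (nat_lit 0) (.e (nat_lit 1283) (nat_lit 0) .nil) .nil)))) (.nd (nat_lit 8) 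
(.lf (nat_lit 447133) (.g (nat_lit 4043) (.e (nat_lit 78) (nat_lit 0) (.e (nat_lit 3307) (nat_lit 202) (.e (nat_lit 573485) (nat_lit 13) (.e (nat_lit 65619) (nat_lit 10) (.e (nat_lit 344117) (nat_lit 21) (.e (nat_lit 516106) (nat_lit 0) (.e (nat_lit 7112) (nat_lit 381) (.e (nat_lit 229647) (nat_lit 232) .nil)))))))) (.g (nat_lit 1) (.e (nat_lit 577) (nat_lit 0) .nil) .nil))) 
(.lf (nat_lit 447389) (.g (nat_lit 3379) (.e (nat_lit 371) (nat_lit 32) (.e (nat_lit 426438) (nat_lit 18) (.e (nat_lit 98367) (nat_lit 27) (.e (nat_lit 434245) (nat_lit 28) (.e (nat_lit 573481) (nat_lit 13) (.e (nat_lit 65568) (nat_lit 2) (.e (nat_lit 98048) (nat_lit 0) .nil))))))) (.g (nat_lit 1) (.e (nat_lit 1903) (nat_lit 0) .nil) .nil))))) (.nd (nat_lit 7) (.nd (nat_lit 8) 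
(.lf (nat_lit 447069) (.g (nat_lit 2360) (.e (nat_lit 27) (nat_lit 0) (.e (nat_lit 3307) (nat_lit 202) (.e (nat_lit 573485) (nat_lit 13) (.e (nat_lit 65619) (nat_lit 10) (.e (nat_lit 344117) (nat_lit 21) (.e (nat_lit 516106) (nat_lit 0) (.e (nat_lit 7112) (nat_lit 381) (.e (nat_lit 229644) (nat_lit 232) .nil)))))))) (.g (nat_lit 1) (.e (nat_lit 110) (nat_lit 0) .nil) .nil))) 
(.lf (nat_lit 447325) (.g (nat_lit 3654) (.e (nat_lit 359) (nat_lit 30) (.e (nat_lit 409602) (nat_lit 0) (.e (nat_lit 5293) (nat_lit 298) (.e (nat_lit 1232) (nat_lit 91) (.e (nat_lit 90170) (nat_lit 13) (.e (nat_lit 172113) (nat_lit 10) (.e (nat_lit 434247) (nat_lit 28) (.e (nat_lit 573457) (nat_lit 9) .nil)))))))) (.g (nat_lit 1) (.e (nat_lit 1517) (nat_lit 0) .nil) .nil)))) (.nd (nat_lit 8) 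
(.lf (nat_lit 447197) (.g (nat_lit 1962) (.e (nat_lit 174) (nat_lit 12) (.e (nat_lit 204859) (nat_lit 26) (.e (nat_lit 336209) (nat_lit 13) (.e (nat_lit 393221) (nat_lit 0) (.e (nat_lit 6207) (nat_lit 333) (.e (nat_lit 57878) (nat_lit 270) .nil)))))) (.g (nat_lit 1) (.e (nat_lit 1148) (nat_lit 0) .nil) .nil))) 
(.lf (nat_lit 447453) (.g (nat_lit 3117) (.e (nat_lit 375) (nat_lit 32) (.e (nat_lit 426117) (nat_lit 2) (.e (nat_lit 196666) (nat_lit 13) (.e (nat_lit 65617) (nat_lit 10) (.e (nat_lit 344130) (nat_lit 26) (.e (nat_lit 557090) (nat_lit 12) (.e (nat_lit 164022) (nat_lit 46) (.e (nat_lit 704629) (nat_lit 9) .nil)))))))) (.g (nat_lit 1) (.e (nat_lit 2058) (nat_lit 0) .nil) .nil)))))) 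
(.nd (nat_lit 6) (.nd (nat_lit 7) (.nd (nat_lit 8) 
(.lf (nat_lit 447037) (.g (nat_lit 916) (.e (nat_lit 819223) (nat_lit 8) (.e (nat_lit 237605) (nat_lit 9) (.e (nat_lit 426432) (nat_lit 17) (.e (nat_lit 98048) (nat_lit 6) .nil)))) .nil)) 
(.lf (nat_lit 447293) (.g (nat_lit 1527) (.e (nat_lit 112) (nat_lit 3) (.e (nat_lit 98333) (nat_lit 18) (.e (nat_lit 164325) (nat_lit 230) (.e (nat_lit 163907) (nat_lit 12) (.e (nat_lit 426568) (nat_lit 34) .nil))))) (.g (nat_lit 0) (.e (nat_lit 1481) (nat_lit 0) .nil) .nil)))) (.nd (nat_lit 8) 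
(.lf (nat_lit 447165) (.g (nat_lit 1184) (.e (nat_lit 170) (nat_lit 12) (.e (nat_lit 204877) (nat_lit 31) (.e (nat_lit 376862) (nat_lit 22) (.e (nat_lit 90185) (nat_lit 17) .nil)))) (.g (nat_lit 0) (.e (nat_lit 1027) (nat_lit 0) .nil) .nil))) 
(.lf (nat_lit 447421) (.g (nat_lit 2189) (.e (nat_lit 372) (nat_lit 32) (.e (nat_lit 426436) (nat_lit 18) (.e (nat_lit 98358) (nat_lit 26) (.e (nat_lit 426131) (nat_lit 3) .nil)))) (.g (nat_lit 0) (.e (nat_lit 1959) (nat_lit 0) .nil) .nil))))) (.nd (nat_lit 7) (.nd (nat_lit 8) 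
(.lf (nat_lit 447101) (.g (nat_lit 3022) (.e (nat_lit 50) (nat_lit 0) (.e (nat_lit 3302) (nat_lit 202) (.e (nat_lit 573489) (nat_lit 14) (.e (nat_lit 73755) (nat_lit 8) (.e (nat_lit 557105) (nat_lit 14) .nil))))) (.g (nat_lit 0) (.e (nat_lit 268) (nat_lit 0) .nil) .nil))) 
(.lf (nat_lit 447357) (.g (nat_lit 5283) (.e (nat_lit 370) (nat_lit 32) (.e (nat_lit 426125) (nat_lit 2) (.e (nat_lit 196666) (nat_lit 13) (.e (nat_lit 65617) (nat_lit 10) (.e (nat_lit 344130) (nat_lit 26) (.e (nat_lit 557090) (nat_lit 12) (.e (nat_lit 164022) (nat_lit 46) (.e (nat_lit 704628) (nat_lit 9) .nil)))))))) (.g (nat_lit 1) (.e (nat_lit 1832) (nat_lit 0) .nil) .nil)))) (.nd (nat_lit 8) 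
(.lf (nat_lit 447229) (.g (nat_lit 2263) (.e (nat_lit 174) (nat_lit 12) (.e (nat_lit 204863) (nat_lit 27) (.e (nat_lit 344132) (nat_lit 26) (.e (nat_lit 557105) (nat_lit 14) (.e (nat_lit 180252) (nat_lit 10) (.e (nat_lit 573503) (nat_lit 18) (.e (nat_lit 1015) (nat_lit 81) (.e (nat_lit 5260) (nat_lit 298) .nil)))))))) (.g (nat_lit 1) (.e (nat_lit 1186) (nat_lit 0) .nil) .nil))) 
(.lf (nat_lit 447485) (.g (nat_lit 4341) (.e (nat_lit 375) (nat_lit 32) (.e (nat_lit 426125) (nat_lit 2) (.e (nat_lit 196666) (nat_lit 13) (.e (nat_lit 65610) (nat_lit 10) (.e (nat_lit 344128) (nat_lit 26) (.e (nat_lit 557093) (nat_lit 12) (.e (nat_lit 164022) (nat_lit 46) (.e (nat_lit 704627) (nat_lit 9) .nil)))))))) (.g (nat_lit 1) (.e (nat_lit 2144) (nat_lit 0) .nil) .nil)))))))))) 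
(.nd (nat_lit 2) (.nd (nat_lit 3) (.nd (nat_lit 4) (.nd (nat_lit 5) (.nd (nat_lit 6) 
(.nd (nat_lit 7) (.nd (nat_lit 8) 
(.lf (nat_lit 446979) (.g (nat_lit 1585) (.e (nat_lit 819219) (nat_lit 4) (.e (nat_lit 172113) (nat_lit 10) (.e (nat_lit 434241) (nat_lit 27) (.e (nat_lit 565269) (nat_lit 6) (.e (nat_lit 81939) (nat_lit 20) (.e (nat_lit 2390) (nat_lit 156) .nil)))))) (.g (nat_lit 4) .nil .nil))) 
(.lf (nat_lit 447235) (.g (nat_lit 757) (.e (nat_lit 174) (nat_lit 12) (.e (nat_lit 204869) (nat_lit 29) (.e (nat_lit 360450) (nat_lit 0) .nil))) (.g (nat_lit 0) (.e (nat_lit 1210) (nat_lit 0) .nil) .nil)))) (.nd (nat_lit 8) 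
(.lf (nat_lit 447107) (.g (nat_lit 3405) (.e (nat_lit 75) (nat_lit 0) (.e (nat_lit 3307) (nat_lit 202) (.e (nat_lit 573485) (nat_lit 13) (.e (nat_lit 65604) (nat_lit 9) (.e (nat_lit 336013) (nat_lit 2) (.e (nat_lit 90165) (nat_lit 12) (.e (nat_lit 164218) (nat_lit 179) (.e (nat_lit 164338) (nat_lit 232) .nil)))))))) (.g (nat_lit 1) (.e (nat_lit 323) (nat_lit 0) .nil) .nil))) 
(.lf (nat_lit 447363) (.g (nat_lit 4028) (.e (nat_lit 370) (nat_lit 32) (.e (nat_lit 426125) (nat_lit 2) (.e (nat_lit 196666) (nat_lit 13) (.e (nat_lit 65617) (nat_lit 10) (.e (nat_lit 344133) (nat_lit 26) (.e (nat_lit 557091) (nat_lit 12) (.e (nat_lit 164022) (nat_lit 46) (.e (nat_lit 704627) (nat_lit 9) .nil)))))))) (.g (nat_lit 1) (.e (nat_lit 1838) (nat_lit 0) .nil) .nil))))) 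
(.nd (nat_lit 7) (.nd (nat_lit 8) 
(.lf (nat_lit 447043) (.g (nat_lit 1311) (.e (nat_lit 819237) (nat_lit 11) (.e (nat_lit 16434) (nat_lit 9) (.e (nat_lit 426482) (nat_lit 27) (.e (nat_lit 336060) (nat_lit 7) .nil)))) .nil)) 
(.lf (nat_lit 447299) (.g (nat_lit 3567) (.e (nat_lit 112) (nat_lit 3) (.e (nat_lit 98334) (nat_lit 18) (.e (nat_lit 164330) (nat_lit 230) (.e (nat_lit 163941) (nat_lit 19) (.e (nat_lit 483333) (nat_lit 0) (.e (nat_lit 6988) (nat_lit 377) (.e (nat_lit 977) (nat_lit 81) (.e (nat_lit 5629) (nat_lit 312) .nil)))))))) (.g (nat_lit 1) (.e (nat_lit 1487) (nat_lit 0) .nil) .nil)))) (.nd (nat_lit 8) 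
(.lf (nat_lit 447171) (.g (nat_lit 630) (.e (nat_lit 171) (nat_lit 12) (.e (nat_lit 204831) (nat_lit 18) (.e (nat_lit 57847) (nat_lit 252) .nil))) (.g (nat_lit 0) (.e (nat_lit 1040) (nat_lit 0) .nil) .nil))) 
(.lf (nat_lit 447427) (.g (nat_lit 2140) (.e (nat_lit 376) (nat_lit 32) (.e (nat_lit 426338) (nat_lit 14) (.e (nat_lit 491570) (nat_lit 13) (.e (nat_lit 393260) (nat_lit 21) (.e (nat_lit 409623) (nat_lit 10) (.e (nat_lit 5259) (nat_lit 298) .nil)))))) (.g (nat_lit 1) (.e (nat_lit 1989) (nat_lit 0) .nil) .nil)))))) (.nd (nat_lit 6) (.nd (nat_lit 7) (.nd (nat_lit 8) 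
(.lf (nat_lit 447011) (.g (nat_lit 706) (.e (nat_lit 819221) (nat_lit 6) (.e (nat_lit 188430) (nat_lit 20) (.e (nat_lit 3282) (nat_lit 200) (.e (nat_lit 557060) (nat_lit 0) (.e (nat_lit 1582) (nat_lit 111) (.e (nat_lit 360493) (nat_lit 27) .nil)))))) (.g (nat_lit 6) .nil .nil))) 
(.lf (nat_lit 447267) (.g (nat_lit 1647) (.e (nat_lit 202) (nat_lit 17) (.e (nat_lit 253991) (nat_lit 11) (.e (nat_lit 16412) (nat_lit 2) (.e (nat_lit 196674) (nat_lit 15) .nil)))) (.g (nat_lit 0) (.e (nat_lit 1425) (nat_lit 0) .nil) .nil)))) (.nd (nat_lit 8) 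
(.lf (nat_lit 447139) (.g (nat_lit 3855) (.e (nat_lit 78) (nat_lit 0) (.e (nat_lit 3308) (nat_lit 202) (.e (nat_lit 573482) (nat_lit 13) (.e (nat_lit 65619) (nat_lit 10) (.e (nat_lit 344117) (nat_lit 21) (.e (nat_lit 516106) (nat_lit 0) (.e (nat_lit 7112) (nat_lit 381) (.e (nat_lit 229647) (nat_lit 232) .nil)))))))) (.g (nat_lit 1) (.e (nat_lit 603) (nat_lit 0) .nil) .nil))) 
(.lf (nat_lit 447395) (.g (nat_lit 434) (.e (nat_lit 371) (nat_lit 32) (.e (nat_lit 426542) (nat_lit 29) (.e (nat_lit 352313) (nat_lit 23) .nil))) (.g (nat_lit 0) (.e (nat_lit 1912) (nat_lit 0) .nil) .nil))))) (.nd (nat_lit 7) (.nd (nat_lit 8) 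
(.lf (nat_lit 447075) (.g (nat_lit 2919) (.e (nat_lit 27) (nat_lit 0) (.e (nat_lit 3308) (nat_lit 202) (.e (nat_lit 573482) (nat_lit 13) (.e (nat_lit 65604) (nat_lit 9) (.e (nat_lit 336028) (nat_lit 3) (.e (nat_lit 98325) (nat_lit 17) (.e (nat_lit 7112) (nat_lit 381) (.e (nat_lit 229645) (nat_lit 232) .nil)))))))) (.g (nat_lit 1) (.e (nat_lit 116) (nat_lit 0) .nil) .nil))) 
(.lf (nat_lit 447331) (.g (nat_lit 2976) (.e (nat_lit 359) (nat_lit 30) (.e (nat_lit 409602) (nat_lit 0) (.e (nat_lit 5394) (nat_lit 301) (.e (nat_lit 57464) (nat_lit 23) (.e (nat_lit 516166) (nat_lit 12) (.e (nat_lit 450587) (nat_lit 10) (.e (nat_lit 573457) (nat_lit 9) .nil))))))) (.g (nat_lit 1) (.e (nat_lit 1523) (nat_lit 0) .nil) .nil)))) (.nd (nat_lit 8) 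
(.lf (nat_lit 447203) (.g (nat_lit 1307) (.e (nat_lit 174) (nat_lit 12) (.e (nat_lit 204861) (nat_lit 26) (.e (nat_lit 336075) (nat_lit 9) (.e (nat_lit 336446) (nat_lit 33) (.e (nat_lit 475152) (nat_lit 17) .nil))))) (.g (nat_lit 0) (.e (nat_lit 1154) (nat_lit 0) .nil) .nil))) 
(.lf (nat_lit 447459) (.g (nat_lit 4040) (.e (nat_lit 375) (nat_lit 32) (.e (nat_lit 426125) (nat_lit 2) (.e (nat_lit 196656) (nat_lit 11) (.e (nat_lit 16416) (nat_lit 3) .nil)))) (.g (nat_lit 0) (.e (nat_lit 2081) (nat_lit 0) .nil) .nil))))))) (.nd (nat_lit 5) (.nd (nat_lit 6) (.nd (nat_lit 7) (.nd (nat_lit 8) 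
(.lf (nat_lit 446995) (.g (nat_lit 2713) (.e (nat_lit 819219) (nat_lit 4) (.e (nat_lit 172115) (nat_lit 10) (.e (nat_lit 434244) (nat_lit 28) (.e (nat_lit 573502) (nat_lit 18) (.e (nat_lit 1358) (nat_lit 102) (.e (nat_lit 286753) (nat_lit 10) (.e (nat_lit 344183) (nat_lit 49) .nil))))))) (.g (nat_lit 6) .nil .nil))) 
(.lf (nat_lit 447251) (.g (nat_lit 1674) (.e (nat_lit 174) (nat_lit 12) (.e (nat_lit 204877) (nat_lit 31) (.e (nat_lit 376842) (nat_lit 11) (.e (nat_lit 426406) (nat_lit 15) (.e (nat_lit 6209) (nat_lit 333) (.e (nat_lit 57878) (nat_lit 270) .nil)))))) (.g (nat_lit 1) (.e (nat_lit 1262) (nat_lit 0) .nil) .nil)))) (.nd (nat_lit 8) 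
(.lf (nat_lit 447123) (.g (nat_lit 3683) (.e (nat_lit 75) (nat_lit 0) (.e (nat_lit 3308) (nat_lit 202) (.e (nat_lit 573482) (nat_lit 13) (.e (nat_lit 65619) (nat_lit 10) (.e (nat_lit 344117) (nat_lit 21) (.e (nat_lit 516106) (nat_lit 0) (.e (nat_lit 7095) (nat_lit 380) (.e (nat_lit 164339) (nat_lit 232) .nil)))))))) (.g (nat_lit 1) (.e (nat_lit 384) (nat_lit 0) .nil) .nil))) 
(.lf (nat_lit 447379) (.g (nat_lit 2943) (.e (nat_lit 371) (nat_lit 32) (.e (nat_lit 426428) (nat_lit 17) (.e (nat_lit 90174) (nat_lit 14) (.e (nat_lit 180250) (nat_lit 10) (.e (nat_lit 573482) (nat_lit 13) (.e (nat_lit 65566) (nat_lit 2) (.e (nat_lit 98048) (nat_lit 0) .nil))))))) (.g (nat_lit 1) (.e (nat_lit 1872) (nat_lit 0) .nil) .nil))))) (.nd (nat_lit 7) (.nd (nat_lit 8) 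
(.lf (nat_lit 447059) (.g (nat_lit 2213) (.e (nat_lit 20) (nat_lit 0) (.e (nat_lit 3307) (nat_lit 202) (.e (nat_lit 573485) (nat_lit 13) (.e (nat_lit 65619) (nat_lit 10) (.e (nat_lit 344117) (nat_lit 21) .nil))))) (.g (nat_lit 0) (.e (nat_lit 27) (nat_lit 0) .nil) .nil))) 
(.lf (nat_lit 447315) (.g (nat_lit 3506) (.e (nat_lit 359) (nat_lit 30) (.e (nat_lit 409602) (nat_lit 0) (.e (nat_lit 5270) (nat_lit 298) (.e (nat_lit 1239) (nat_lit 91) (.e (nat_lit 90170) (nat_lit 13) (.e (nat_lit 172113) (nat_lit 10) (.e (nat_lit 434242) (nat_lit 28) (.e (nat_lit 573451) (nat_lit 9) .nil)))))))) (.g (nat_lit 1) (.e (nat_lit 1507) (nat_lit 0) .nil) .nil)))) (.nd (nat_lit 8) 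
(.lf (nat_lit 447187) (.g (nat_lit 973) (.e (nat_lit 174) (nat_lit 12) (.e (nat_lit 204830) (nat_lit 18) (.e (nat_lit 57854) (nat_lit 252) (.e (nat_lit 57406) (nat_lit 12) .nil)))) (.g (nat_lit 0) (.e (nat_lit 1105) (nat_lit 0) .nil) .nil))) 
(.lf (nat_lit 447443) (.g (nat_lit 2843) (.e (nat_lit 375) (nat_lit 32) (.e (nat_lit 426025) (nat_lit 0) (.e (nat_lit 7936) (nat_lit 200) (.e (nat_lit 557105) (nat_lit 14) (.e (nat_lit 180252) (nat_lit 10) (.e (nat_lit 573481) (nat_lit 13) (.e (nat_lit 65568) (nat_lit 2) (.e (nat_lit 98048) (nat_lit 0) .nil)))))))) (.g (nat_lit 1) (.e (nat_lit 2041) (nat_lit 0) .nil) .nil)))))) 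
(.nd (nat_lit 6) (.nd (nat_lit 7) (.nd (nat_lit 8) 
(.lf (nat_lit 447027) (.g (nat_lit 814) (.e (nat_lit 819221) (nat_lit 6) (.e (nat_lit 188446) (nat_lit 21) (.e (nat_lit 164116) (nat_lit 122) .nil))) .nil)) 
(.lf (nat_lit 447283) (.g (nat_lit 2030) (.e (nat_lit 206) (nat_lit 17) (.e (nat_lit 253992) (nat_lit 11) (.e (nat_lit 16425) (nat_lit 7) (.e (nat_lit 409649) (nat_lit 18) .nil)))) (.g (nat_lit 0) (.e (nat_lit 1441) (nat_lit 0) .nil) .nil)))) (.nd (nat_lit 8) 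
(.lf (nat_lit 447155) (.g (nat_lit 3194) (.e (nat_lit 163) (nat_lit 11) (.e (nat_lit 196666) (nat_lit 13) (.e (nat_lit 65610) (nat_lit 10) (.e (nat_lit 344117) (nat_lit 21) (.e (nat_lit 516159) (nat_lit 10) (.e (nat_lit 434275) (nat_lit 39) (.e (nat_lit 671488) (nat_lit 0) .nil))))))) (.g (nat_lit 1) (.e (nat_lit 974) (nat_lit 0) .nil) .nil))) 
(.lf (nat_lit 447411) (.g (nat_lit 2448) (.e (nat_lit 372) (nat_lit 32) (.e (nat_lit 426131) (nat_lit 3) (.e (nat_lit 204868) (nat_lit 29) (.e (nat_lit 360473) (nat_lit 8) (.e (nat_lit 557091) (nat_lit 12) (.e (nat_lit 164022) (nat_lit 46) (.e (nat_lit 704628) (nat_lit 9) .nil))))))) (.g (nat_lit 1) (.e (nat_lit 1942) (nat_lit 0) .nil) .nil))))) (.nd (nat_lit 7) (.nd (nat_lit 8) 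
(.lf (nat_lit 447091) (.g (nat_lit 2138) (.e (nat_lit 16) (nat_lit 0) (.e (nat_lit 1858) (nat_lit 124) (.e (nat_lit 557101) (nat_lit 13) (.e (nat_lit 172097) (nat_lit 9) (.e (nat_lit 426125) (nat_lit 2) .nil))))) (.g (nat_lit 0) (.e (nat_lit 227) (nat_lit 0) .nil) .nil))) 
(.lf (nat_lit 447347) (.g (nat_lit 2531) (.e (nat_lit 365) (nat_lit 31) (.e (nat_lit 417796) (nat_lit 0) (.e (nat_lit 5389) (nat_lit 301) (.e (nat_lit 57464) (nat_lit 23) (.e (nat_lit 516166) (nat_lit 12) (.e (nat_lit 450587) (nat_lit 10) (.e (nat_lit 573457) (nat_lit 9) .nil))))))) (.g (nat_lit 1) (.e (nat_lit 1799) (nat_lit 0) .nil) .nil)))) (.nd (nat_lit 8) 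
(.lf (nat_lit 447219) (.g (nat_lit 1852) (.e (nat_lit 174) (nat_lit 12) (.e (nat_lit 204863) (nat_lit 27) (.e (nat_lit 344117) (nat_lit 21) (.e (nat_lit 516130) (nat_lit 3) (.e (nat_lit 221212) (nat_lit 22) .nil))))) (.g (nat_lit 0) (.e (nat_lit 1176) (nat_lit 0) .nil) .nil))) 
(.lf (nat_lit 447475) (.g (nat_lit 4394) (.e (nat_lit 375) (nat_lit 32) (.e (nat_lit 426125) (nat_lit 2) (.e (nat_lit 196666) (nat_lit 13) (.e (nat_lit 65610) (nat_lit 10) (.e (nat_lit 344127) (nat_lit 26) (.e (nat_lit 557094) (nat_lit 12) (.e (nat_lit 164022) (nat_lit 46) (.e (nat_lit 704628) (nat_lit 9) .nil)))))))) (.g (nat_lit 1) (.e (nat_lit 2134) (nat_lit 0) .nil) .nil)))))))) 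
(.nd (nat_lit 4) (.nd (nat_lit 5) (.nd (nat_lit 6) (.nd (nat_lit 7) (.nd (nat_lit 8) 
(.lf (nat_lit 446987) (.g (nat_lit 1311) (.e (nat_lit 819219) (nat_lit 4) (.e (nat_lit 172115) (nat_lit 10) (.e (nat_lit 434241) (nat_lit 27) (.e (nat_lit 565252) (nat_lit 0) (.e (nat_lit 1592) (nat_lit 111) (.e (nat_lit 360493) (nat_lit 27) .nil)))))) (.g (nat_lit 0) .nil .nil))) 
(.lf (nat_lit 447243) (.g (nat_lit 1751) (.e (nat_lit 174) (nat_lit 12) (.e (nat_lit 204876) (nat_lit 31) (.e (nat_lit 376842) (nat_lit 11) (.e (nat_lit 426408) (nat_lit 15) (.e (nat_lit 6206) (nat_lit 333) (.e (nat_lit 57883) (nat_lit 270) .nil)))))) (.g (nat_lit 1) (.e (nat_lit 1254) (nat_lit 0) .nil) .nil)))) (.nd (nat_lit 8) 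
(.lf (nat_lit 447115) (.g (nat_lit 4027) (.e (nat_lit 75) (nat_lit 0) (.e (nat_lit 3307) (nat_lit 202) (.e (nat_lit 573485) (nat_lit 13) (.e (nat_lit 65619) (nat_lit 10) (.e (nat_lit 344117) (nat_lit 21) (.e (nat_lit 516106) (nat_lit 0) (.e (nat_lit 7095) (nat_lit 380) (.e (nat_lit 164339) (nat_lit 232) .nil)))))))) (.g (nat_lit 1) (.e (nat_lit 337) (nat_lit 0) .nil) .nil))) 
(.lf (nat_lit 447371) (.g (nat_lit 2672) (.e (nat_lit 370) (nat_lit 32) (.e (nat_lit 426482) (nat_lit 27) (.e (nat_lit 336060) (nat_lit 7) (.e (nat_lit 319505) (nat_lit 10) (.e (nat_lit 618) (nat_lit 48) (.e (nat_lit 557105) (nat_lit 14) (.e (nat_lit 188160) (nat_lit 32) .nil))))))) (.g (nat_lit 1) (.e (nat_lit 1859) (nat_lit 0) .nil) .nil))))) (.nd (nat_lit 7) (.nd (nat_lit 8) 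
(.lf (nat_lit 447051) (.g (nat_lit 1203) (.e (nat_lit 827136) (nat_lit 11) (.e (nat_lit 16468) (nat_lit 13) (.e (nat_lit 483372) (nat_lit 21) (.e (nat_lit 319533) (nat_lit 16) .nil)))) .nil)) 
(.lf (nat_lit 447307) (.g (nat_lit 1589) (.e (nat_lit 112) (nat_lit 3) (.e (nat_lit 98381) (nat_lit 31) (.e (nat_lit 466954) (nat_lit 11) (.e (nat_lit 336288) (nat_lit 15) (.e (nat_lit 6988) (nat_lit 377) .nil))))) (.g (nat_lit 0) (.e (nat_lit 1495) (nat_lit 0) .nil) .nil)))) (.nd (nat_lit 8) 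
(.lf (nat_lit 447179) (.g (nat_lit 1340) (.e (nat_lit 174) (nat_lit 12) (.e (nat_lit 204829) (nat_lit 18) (.e (nat_lit 57847) (nat_lit 252) (.e (nat_lit 57447) (nat_lit 19) .nil)))) (.g (nat_lit 0) (.e (nat_lit 1097) (nat_lit 0) .nil) .nil))) 
(.lf (nat_lit 447435) (.g (nat_lit 2663) (.e (nat_lit 377) (nat_lit 32) (.e (nat_lit 426140) (nat_lit 3) (.e (nat_lit 204869) (nat_lit 29) (.e (nat_lit 360474) (nat_lit 8) (.e (nat_lit 557093) (nat_lit 12) .nil))))) (.g (nat_lit 0) (.e (nat_lit 2005) (nat_lit 0) .nil) .nil)))))) (.nd (nat_lit 6) (.nd (nat_lit 7) (.nd (nat_lit 8) 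
(.lf (nat_lit 447019) (.g (nat_lit 464) (.e (nat_lit 819221) (nat_lit 6) (.e (nat_lit 188440) (nat_lit 20) (.e (nat_lit 3224) (nat_lit 196) .nil))) .nil)) 
(.lf (nat_lit 447275) (.g (nat_lit 3922) (.e (nat_lit 202) (nat_lit 17) (.e (nat_lit 253992) (nat_lit 11) (.e (nat_lit 16412) (nat_lit 2) (.e (nat_lit 196668) (nat_lit 14) (.e (nat_lit 73782) (nat_lit 32) (.e (nat_lit 2664) (nat_lit 167) (.e (nat_lit 196630) (nat_lit 9) .nil))))))) (.g (nat_lit 1) (.e (nat_lit 1433) (nat_lit 0) .nil) .nil)))) (.nd (nat_lit 8) 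
(.lf (nat_lit 447147) (.g (nat_lit 4145) (.e (nat_lit 162) (nat_lit 11) (.e (nat_lit 196670) (nat_lit 14) (.e (nat_lit 73753) (nat_lit 8) (.e (nat_lit 557105) (nat_lit 14) (.e (nat_lit 180252) (nat_lit 10) (.e (nat_lit 573503) (nat_lit 18) (.e (nat_lit 1074) (nat_lit 81) (.e (nat_lit 5259) (nat_lit 298) .nil)))))))) (.g (nat_lit 1) (.e (nat_lit 924) (nat_lit 0) .nil) .nil))) 
(.lf (nat_lit 447403) (.g (nat_lit 1638) (.e (nat_lit 371) (nat_lit 32) (.e (nat_lit 426544) (nat_lit 30) (.e (nat_lit 360466) (nat_lit 3) (.e (nat_lit 516191) (nat_lit 17) (.e (nat_lit 6217) (nat_lit 333) (.e (nat_lit 57881) (nat_lit 270) .nil)))))) (.g (nat_lit 1) (.e (nat_lit 1920) (nat_lit 0) .nil) .nil))))) (.nd (nat_lit 7) (.nd (nat_lit 8) 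
(.lf (nat_lit 447083) (.g (nat_lit 2984) (.e (nat_lit 25) (nat_lit 0) (.e (nat_lit 3307) (nat_lit 202) (.e (nat_lit 573485) (nat_lit 13) (.e (nat_lit 65604) (nat_lit 9) (.e (nat_lit 336013) (nat_lit 2) (.e (nat_lit 90165) (nat_lit 12) (.e (nat_lit 164219) (nat_lit 180) (.e (nat_lit 229645) (nat_lit 232) .nil)))))))) (.g (nat_lit 1) (.e (nat_lit 158) (nat_lit 0) .nil) .nil))) 
(.lf (nat_lit 447339) (.g (nat_lit 2595) (.e (nat_lit 359) (nat_lit 30) (.e (nat_lit 409604) (nat_lit 0) (.e (nat_lit 5394) (nat_lit 301) (.e (nat_lit 57464) (nat_lit 23) (.e (nat_lit 516166) (nat_lit 12) (.e (nat_lit 450587) (nat_lit 10) (.e (nat_lit 573457) (nat_lit 9) .nil))))))) (.g (nat_lit 1) (.e (nat_lit 1531) (nat_lit 0) .nil) .nil)))) (.nd (nat_lit 8) 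
(.lf (nat_lit 447211) (.g (nat_lit 2416) (.e (nat_lit 174) (nat_lit 12) (.e (nat_lit 204861) (nat_lit 26) (.e (nat_lit 336213) (nat_lit 13) (.e (nat_lit 393221) (nat_lit 0) (.e (nat_lit 6207) (nat_lit 333) (.e (nat_lit 57879) (nat_lit 270) .nil)))))) (.g (nat_lit 1) (.e (nat_lit 1165) (nat_lit 0) .nil) .nil))) 
(.lf (nat_lit 447467) (.g (nat_lit 3028) (.e (nat_lit 375) (nat_lit 32) (.e (nat_lit 426125) (nat_lit 2) (.e (nat_lit 196666) (nat_lit 13) (.e (nat_lit 65610) (nat_lit 10) (.e (nat_lit 344127) (nat_lit 26) (.e (nat_lit 557091) (nat_lit 12) (.e (nat_lit 164022) (nat_lit 46) (.e (nat_lit 704629) (nat_lit 9) .nil)))))))) (.g (nat_lit 1) (.e (nat_lit 2126) (nat_lit 0) .nil) .nil))))))) 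
(.nd (nat_lit 5) (.nd (nat_lit 6) (.nd (nat_lit 7) (.nd (nat_lit 8) 
(.lf (nat_lit 447003) (.g (nat_lit 1588) (.e (nat_lit 819219) (nat_lit 4) (.e (nat_lit 172116) (nat_lit 10) (.e (nat_lit 434241) (nat_lit 27) (.e (nat_lit 565269) (nat_lit 6) (.e (nat_lit 81947) (nat_lit 20) (.e (nat_lit 2390) (nat_lit 156) .nil)))))) (.g (nat_lit 5) .nil .nil))) 
(.lf (nat_lit 447259) (.g (nat_lit 1191) (.e (nat_lit 174) (nat_lit 12) (.e (nat_lit 204877) (nat_lit 31) (.e (nat_lit 376842) (nat_lit 11) (.e (nat_lit 426413) (nat_lit 15) .nil)))) (.g (nat_lit 0) (.e (nat_lit 1270) (nat_lit 0) .nil) .nil)))) (.nd (nat_lit 8) 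
(.lf (nat_lit 447131) (.g (nat_lit 3771) (.e (nat_lit 78) (nat_lit 0) (.e (nat_lit 3307) (nat_lit 202) (.e (nat_lit 573485) (nat_lit 13) (.e (nat_lit 65604) (nat_lit 9) (.e (nat_lit 336013) (nat_lit 2) (.e (nat_lit 90165) (nat_lit 12) (.e (nat_lit 164219) (nat_lit 180) (.e (nat_lit 229647) (nat_lit 232) .nil)))))))) (.g (nat_lit 1) (.e (nat_lit 573) (nat_lit 0) .nil) .nil))) 
(.lf (nat_lit 447387) (.g (nat_lit 2461) (.e (nat_lit 371) (nat_lit 32) (.e (nat_lit 426438) (nat_lit 18) (.e (nat_lit 98367) (nat_lit 27) (.e (nat_lit 434244) (nat_lit 28) (.e (nat_lit 573480) (nat_lit 13) (.e (nat_lit 65568) (nat_lit 2) (.e (nat_lit 98048) (nat_lit 0) .nil))))))) (.g (nat_lit 1) (.e (nat_lit 1901) (nat_lit 0) .nil) .nil))))) (.nd (nat_lit 7) (.nd (nat_lit 8) 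
(.lf (nat_lit 447067) (.g (nat_lit 2194) (.e (nat_lit 27) (nat_lit 0) (.e (nat_lit 3307) (nat_lit 202) (.e (nat_lit 573485) (nat_lit 13) (.e (nat_lit 65604) (nat_lit 9) (.e (nat_lit 336013) (nat_lit 2) (.e (nat_lit 90165) (nat_lit 12) (.e (nat_lit 164219) (nat_lit 180) (.e (nat_lit 229645) (nat_lit 232) .nil)))))))) (.g (nat_lit 1) (.e (nat_lit 106) (nat_lit 0) .nil) .nil))) 
(.lf (nat_lit 447323) (.g (nat_lit 3935) (.e (nat_lit 359) (nat_lit 30) (.e (nat_lit 409602) (nat_lit 0) (.e (nat_lit 5270) (nat_lit 298) (.e (nat_lit 1239) (nat_lit 91) (.e (nat_lit 90170) (nat_lit 13) (.e (nat_lit 172113) (nat_lit 10) (.e (nat_lit 434248) (nat_lit 28) (.e (nat_lit 573455) (nat_lit 9) .nil)))))))) (.g (nat_lit 1) (.e (nat_lit 1515) (nat_lit 0) .nil) .nil)))) (.nd (nat_lit 8) 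
(.lf (nat_lit 447195) (.g (nat_lit 627) (.e (nat_lit 174) (nat_lit 12) (.e (nat_lit 204831) (nat_lit 18) (.e (nat_lit 57849) (nat_lit 252) .nil))) (.g (nat_lit 0) (.e (nat_lit 1113) (nat_lit 0) .nil) .nil))) 
(.lf (nat_lit 447451) (.g (nat_lit 2052) (.e (nat_lit 375) (nat_lit 32) (.e (nat_lit 426032) (nat_lit 0) (.e (nat_lit 3262) (nat_lit 198) (.e (nat_lit 540706) (nat_lit 12) (.e (nat_lit 360474) (nat_lit 8) (.e (nat_lit 557094) (nat_lit 12) (.e (nat_lit 164022) (nat_lit 46) (.e (nat_lit 704627) (nat_lit 9) .nil)))))))) (.g (nat_lit 1) (.e (nat_lit 2056) (nat_lit 0) .nil) .nil)))))) 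
(.nd (nat_lit 6) (.nd (nat_lit 7) (.nd (nat_lit 8) 
(.lf (nat_lit 447035) (.g (nat_lit 834) (.e (nat_lit 819223) (nat_lit 8) (.e (nat_lit 237601) (nat_lit 9) (.e (nat_lit 426432) (nat_lit 17) (.e (nat_lit 98048) (nat_lit 6) .nil)))) .nil)) 
(.lf (nat_lit 447291) (.g (nat_lit 2002) (.e (nat_lit 110) (nat_lit 3) (.e (nat_lit 98334) (nat_lit 18) (.e (nat_lit 164330) (nat_lit 230) (.e (nat_lit 163941) (nat_lit 19) .nil)))) (.g (nat_lit 0) (.e (nat_lit 1479) (nat_lit 0) .nil) .nil)))) (.nd (nat_lit 8) 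
(.lf (nat_lit 447163) (.g (nat_lit 3034) (.e (nat_lit 168) (nat_lit 12) (.e (nat_lit 204829) (nat_lit 18) (.e (nat_lit 57847) (nat_lit 252) (.e (nat_lit 57407) (nat_lit 12) (.e (nat_lit 336456) (nat_lit 34) .nil))))) (.g (nat_lit 0) (.e (nat_lit 1003) (nat_lit 0) .nil) .nil))) 
(.lf (nat_lit 447419) (.g (nat_lit 3035) (.e (nat_lit 372) (nat_lit 32) (.e (nat_lit 426428) (nat_lit 17) (.e (nat_lit 90174) (nat_lit 14) (.e (nat_lit 180250) (nat_lit 10) (.e (nat_lit 573480) (nat_lit 13) (.e (nat_lit 65568) (nat_lit 2) (.e (nat_lit 98048) (nat_lit 0) .nil))))))) (.g (nat_lit 1) (.e (nat_lit 1957) (nat_lit 0) .nil) .nil))))) (.nd (nat_lit 7) (.nd (nat_lit 8) 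
(.lf (nat_lit 447099) (.g (nat_lit 3381) (.e (nat_lit 55) (nat_lit 0) (.e (nat_lit 1853) (nat_lit 124) (.e (nat_lit 557108) (nat_lit 15) (.e (nat_lit 188452) (nat_lit 23) (.e (nat_lit 204846) (nat_lit 24) (.e (nat_lit 319504) (nat_lit 10) (.e (nat_lit 7936) (nat_lit 312) .nil))))))) (.g (nat_lit 1) (.e (nat_lit 258) (nat_lit 0) .nil) .nil))) 
(.lf (nat_lit 447355) (.g (nat_lit 4098) (.e (nat_lit 370) (nat_lit 32) (.e (nat_lit 426125) (nat_lit 2) (.e (nat_lit 196666) (nat_lit 13) (.e (nat_lit 65610) (nat_lit 10) (.e (nat_lit 344127) (nat_lit 26) .nil))))) (.g (nat_lit 0) (.e (nat_lit 1830) (nat_lit 0) .nil) .nil)))) (.nd (nat_lit 8) 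
(.lf (nat_lit 447227) (.g (nat_lit 2002) (.e (nat_lit 174) (nat_lit 12) (.e (nat_lit 204863) (nat_lit 27) (.e (nat_lit 344131) (nat_lit 26) (.e (nat_lit 557105) (nat_lit 14) (.e (nat_lit 180252) (nat_lit 10) .nil))))) (.g (nat_lit 0) (.e (nat_lit 1184) (nat_lit 0) .nil) .nil))) 
(.lf (nat_lit 447483) (.g (nat_lit 2924) (.e (nat_lit 375) (nat_lit 32) (.e (nat_lit 426125) (nat_lit 2) (.e (nat_lit 196666) (nat_lit 13) (.e (nat_lit 65610) (nat_lit 10) (.e (nat_lit 344128) (nat_lit 26) (.e (nat_lit 557092) (nat_lit 12) (.e (nat_lit 164022) (nat_lit 46) (.e (nat_lit 704629) (nat_lit 9) .nil)))))))) (.g (nat_lit 1) (.e (nat_lit 2142) (nat_lit 0) .nil) .nil))))))))) 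
(.nd (nat_lit 3) (.nd (nat_lit 4) (.nd (nat_lit 5) (.nd (nat_lit 6) (.nd (nat_lit 7) 
(.nd (nat_lit 8) 
(.lf (nat_lit 446983) (.g (nat_lit 2090) (.e (nat_lit 819219) (nat_lit 4) (.e (nat_lit 172113) (nat_lit 10) (.e (nat_lit 434245) (nat_lit 28) (.e (nat_lit 573503) (nat_lit 18) (.e (nat_lit 1015) (nat_lit 81) .nil))))) .nil)) 
(.lf (nat_lit 447239) (.g (nat_lit 940) (.e (nat_lit 174) (nat_lit 12) (.e (nat_lit 204876) (nat_lit 31) (.e (nat_lit 376842) (nat_lit 11) (.e (nat_lit 426406) (nat_lit 15) .nil)))) (.g (nat_lit 0) (.e (nat_lit 1250) (nat_lit 0) .nil) .nil)))) (.nd (nat_lit 8) 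
(.lf (nat_lit 447111) (.g (nat_lit 2151) (.e (nat_lit 75) (nat_lit 0) (.e (nat_lit 3307) (nat_lit 202) (.e (nat_lit 573485) (nat_lit 13) (.e (nat_lit 65604) (nat_lit 9) (.e (nat_lit 336013) (nat_lit 2) (.e (nat_lit 90165) (nat_lit 12) (.e (nat_lit 164219) (nat_lit 180) (.e (nat_lit 229651) (nat_lit 232) .nil)))))))) (.g (nat_lit 1) (.e (nat_lit 327) (nat_lit 0) .nil) .nil))) 
(.lf (nat_lit 447367) (.g (nat_lit 4240) (.e (nat_lit 370) (nat_lit 32) (.e (nat_lit 426340) (nat_lit 14) (.e (nat_lit 491540) (nat_lit 3) (.e (nat_lit 98373) (nat_lit 29) (.e (nat_lit 450587) (nat_lit 10) (.e (nat_lit 573449) (nat_lit 9) .nil)))))) (.g (nat_lit 1) (.e (nat_lit 1855) (nat_lit 0) .nil) .nil))))) (.nd (nat_lit 7) (.nd (nat_lit 8) 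
(.lf (nat_lit 447047) (.g (nat_lit 4526) (.e (nat_lit 819237) (nat_lit 11) (.e (nat_lit 16468) (nat_lit 13) (.e (nat_lit 483372) (nat_lit 21) (.e (nat_lit 319534) (nat_lit 16) (.e (nat_lit 286728) (nat_lit 0) (.e (nat_lit 2391) (nat_lit 156) .nil)))))) (.g (nat_lit 0) .nil .nil))) 
(.lf (nat_lit 447303) (.g (nat_lit 3606) (.e (nat_lit 112) (nat_lit 3) (.e (nat_lit 98335) (nat_lit 18) (.e (nat_lit 164330) (nat_lit 230) (.e (nat_lit 163941) (nat_lit 19) (.e (nat_lit 483333) (nat_lit 0) .nil))))) (.g (nat_lit 0) (.e (nat_lit 1491) (nat_lit 0) .nil) .nil)))) (.nd (nat_lit 8) 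
(.lf (nat_lit 447175) (.g (nat_lit 1687) (.e (nat_lit 173) (nat_lit 12) (.e (nat_lit 204877) (nat_lit 31) (.e (nat_lit 376842) (nat_lit 11) (.e (nat_lit 426408) (nat_lit 15) (.e (nat_lit 6209) (nat_lit 333) .nil))))) (.g (nat_lit 0) (.e (nat_lit 1089) (nat_lit 0) .nil) .nil))) 
(.lf (nat_lit 447431) (.g (nat_lit 2243) (.e (nat_lit 377) (nat_lit 32) (.e (nat_lit 426125) (nat_lit 2) (.e (nat_lit 196666) (nat_lit 13) (.e (nat_lit 65617) (nat_lit 10) .nil)))) (.g (nat_lit 0) (.e (nat_lit 1996) (nat_lit 0) .nil) .nil)))))) (.nd (nat_lit 6) (.nd (nat_lit 7) (.nd (nat_lit 8) 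
(.lf (nat_lit 447015) (.g (nat_lit 393) (.e (nat_lit 819221) (nat_lit 6) (.e (nat_lit 188434) (nat_lit 20) (.e (nat_lit 3289) (nat_lit 201) .nil))) .nil)) 
(.lf (nat_lit 447271) (.g (nat_lit 2809) (.e (nat_lit 202) (nat_lit 17) (.e (nat_lit 253992) (nat_lit 11) (.e (nat_lit 16411) (nat_lit 2) (.e (nat_lit 196672) (nat_lit 15) (.e (nat_lit 81924) (nat_lit 0) (.e (nat_lit 3305) (nat_lit 202) (.e (nat_lit 573456) (nat_lit 9) .nil))))))) (.g (nat_lit 1) (.e (nat_lit 1429) (nat_lit 0) .nil) .nil)))) (.nd (nat_lit 8) 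
(.lf (nat_lit 447143) (.g (nat_lit 3585) (.e (nat_lit 161) (nat_lit 11) (.e (nat_lit 196666) (nat_lit 13) (.e (nat_lit 65610) (nat_lit 10) (.e (nat_lit 344117) (nat_lit 21) (.e (nat_lit 516159) (nat_lit 10) (.e (nat_lit 434275) (nat_lit 39) (.e (nat_lit 671488) (nat_lit 0) .nil))))))) (.g (nat_lit 1) (.e (nat_lit 845) (nat_lit 0) .nil) .nil))) 
(.lf (nat_lit 447399) (.g (nat_lit 975) (.e (nat_lit 371) (nat_lit 32) (.e (nat_lit 426542) (nat_lit 29) (.e (nat_lit 352315) (nat_lit 23) (.e (nat_lit 106240) (nat_lit 0) .nil)))) (.g (nat_lit 0) (.e (nat_lit 1916) (nat_lit 0) .nil) .nil))))) (.nd (nat_lit 7) (.nd (nat_lit 8) 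
(.lf (nat_lit 447079) (.g (nat_lit 3360) (.e (nat_lit 27) (nat_lit 0) (.e (nat_lit 3308) (nat_lit 202) (.e (nat_lit 573482) (nat_lit 13) (.e (nat_lit 65619) (nat_lit 10) (.e (nat_lit 344117) (nat_lit 21) (.e (nat_lit 516106) (nat_lit 0) (.e (nat_lit 7112) (nat_lit 381) (.e (nat_lit 229647) (nat_lit 232) .nil)))))))) (.g (nat_lit 1) (.e (nat_lit 120) (nat_lit 0) .nil) .nil))) 
(.lf (nat_lit 447335) (.g (nat_lit 992) (.e (nat_lit 359) (nat_lit 30) (.e (nat_lit 409603) (nat_lit 0) (.e (nat_lit 5293) (nat_lit 298) (.e (nat_lit 1649) (nat_lit 115) .nil)))) (.g (nat_lit 0) (.e (nat_lit 1527) (nat_lit 0) .nil) .nil)))) (.nd (nat_lit 8) 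
(.lf (nat_lit 447207) (.g (nat_lit 1405) (.e (nat_lit 174) (nat_lit 12) (.e (nat_lit 204861) (nat_lit 26) (.e (nat_lit 336078) (nat_lit 9) (.e (nat_lit 336450) (nat_lit 33) .nil)))) (.g (nat_lit 0) (.e (nat_lit 1160) (nat_lit 0) .nil) .nil))) 
(.lf (nat_lit 447463) (.g (nat_lit 6125) (.e (nat_lit 375) (nat_lit 32) (.e (nat_lit 426125) (nat_lit 2) (.e (nat_lit 196666) (nat_lit 13) (.e (nat_lit 65610) (nat_lit 10) (.e (nat_lit 344127) (nat_lit 26) (.e (nat_lit 557090) (nat_lit 12) (.e (nat_lit 164022) (nat_lit 46) (.e (nat_lit 704626) (nat_lit 9) .nil)))))))) (.g (nat_lit 1) (.e (nat_lit 2122) (nat_lit 0) .nil) .nil))))))) 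
(.nd (nat_lit 5) (.nd (nat_lit 6) (.nd (nat_lit 7) (.nd (nat_lit 8) 
(.lf (nat_lit 446999) (.g (nat_lit 1828) (.e (nat_lit 819219) (nat_lit 4) (.e (nat_lit 172116) (nat_lit 10) (.e (nat_lit 434241) (nat_lit 27) (.e (nat_lit 565269) (nat_lit 6) (.e (nat_lit 81938) (nat_lit 20) (.e (nat_lit 2390) (nat_lit 156) .nil)))))) (.g (nat_lit 5) .nil .nil))) 
(.lf (nat_lit 447255) (.g (nat_lit 2563) (.e (nat_lit 174) (nat_lit 12) (.e (nat_lit 204877) (nat_lit 31) (.e (nat_lit 376842) (nat_lit 11) (.e (nat_lit 426408) (nat_lit 15) (.e (nat_lit 6207) (nat_lit 333) (.e (nat_lit 57878) (nat_lit 270) .nil)))))) (.g (nat_lit 1) (.e (nat_lit 1266) (nat_lit 0) .nil) .nil)))) (.nd (nat_lit 8) 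
(.lf (nat_lit 447127) (.g (nat_lit 3374) (.e (nat_lit 77) (nat_lit 0) (.e (nat_lit 3308) (nat_lit 202) (.e (nat_lit 573482) (nat_lit 13) (.e (nat_lit 65604) (nat_lit 9) (.e (nat_lit 336013) (nat_lit 2) (.e (nat_lit 90165) (nat_lit 12) (.e (nat_lit 164218) (nat_lit 179) (.e (nat_lit 164338) (nat_lit 232) .nil)))))))) (.g (nat_lit 1) (.e (nat_lit 492) (nat_lit 0) .nil) .nil))) 
(.lf (nat_lit 447383) (.g (nat_lit 3954) (.e (nat_lit 371) (nat_lit 32) (.e (nat_lit 426428) (nat_lit 17) (.e (nat_lit 90174) (nat_lit 14) (.e (nat_lit 180250) (nat_lit 10) (.e (nat_lit 573485) (nat_lit 13) (.e (nat_lit 65568) (nat_lit 2) (.e (nat_lit 98048) (nat_lit 0) .nil))))))) (.g (nat_lit 1) (.e (nat_lit 1876) (nat_lit 0) .nil) .nil))))) (.nd (nat_lit 7) (.nd (nat_lit 8) 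
(.lf (nat_lit 447063) (.g (nat_lit 2138) (.e (nat_lit 21) (nat_lit 0) (.e (nat_lit 3307) (nat_lit 202) (.e (nat_lit 573485) (nat_lit 13) (.e (nat_lit 65604) (nat_lit 9) (.e (nat_lit 336013) (nat_lit 2) .nil))))) (.g (nat_lit 0) (.e (nat_lit 64) (nat_lit 0) .nil) .nil))) 
(.lf (nat_lit 447319) (.g (nat_lit 3592) (.e (nat_lit 359) (nat_lit 30) (.e (nat_lit 409602) (nat_lit 0) (.e (nat_lit 5270) (nat_lit 298) (.e (nat_lit 1239) (nat_lit 91) (.e (nat_lit 90170) (nat_lit 13) (.e (nat_lit 172113) (nat_lit 10) (.e (nat_lit 434247) (nat_lit 28) (.e (nat_lit 573456) (nat_lit 9) .nil)))))))) (.g (nat_lit 1) (.e (nat_lit 1511) (nat_lit 0) .nil) .nil)))) (.nd (nat_lit 8) 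
(.lf (nat_lit 447191) (.g (nat_lit 2594) (.e (nat_lit 174) (nat_lit 12) (.e (nat_lit 204830) (nat_lit 18) (.e (nat_lit 57854) (nat_lit 252) (.e (nat_lit 57445) (nat_lit 19) (.e (nat_lit 393221) (nat_lit 0) (.e (nat_lit 6112) (nat_lit 332) (.e (nat_lit 2406) (nat_lit 157) (.e (nat_lit 5259) (nat_lit 298) .nil)))))))) (.g (nat_lit 1) (.e (nat_lit 1109) (nat_lit 0) .nil) .nil))) 
(.lf (nat_lit 447447) (.g (nat_lit 4683) (.e (nat_lit 375) (nat_lit 32) (.e (nat_lit 426025) (nat_lit 0) (.e (nat_lit 7555) (nat_lit 402) (.e (nat_lit 1235) (nat_lit 91) (.e (nat_lit 90170) (nat_lit 13) (.e (nat_lit 172106) (nat_lit 10) (.e (nat_lit 434244) (nat_lit 28) (.e (nat_lit 573450) (nat_lit 9) .nil)))))))) (.g (nat_lit 1) (.e (nat_lit 2052) (nat_lit 0) .nil) .nil)))))) 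
(.nd (nat_lit 6) (.nd (nat_lit 7) (.nd (nat_lit 8) 
(.lf (nat_lit 447031) (.g (nat_lit 1324) (.e (nat_lit 819221) (nat_lit 6) (.e (nat_lit 188449) (nat_lit 22) (.e (nat_lit 196613) (nat_lit 0) .nil))) .nil)) 
(.lf (nat_lit 447287) (.g (nat_lit 2826) (.e (nat_lit 100) (nat_lit 2) (.e (nat_lit 90174) (nat_lit 14) (.e (nat_lit 180250) (nat_lit 10) (.e (nat_lit 573488) (nat_lit 14) (.e (nat_lit 73755) (nat_lit 8) .nil))))) (.g (nat_lit 0) (.e (nat_lit 1474) (nat_lit 0) .nil) .nil)))) (.nd (nat_lit 8) 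
(.lf (nat_lit 447159) (.g (nat_lit 2823) (.e (nat_lit 164) (nat_lit 11) (.e (nat_lit 196666) (nat_lit 13) (.e (nat_lit 65610) (nat_lit 10) (.e (nat_lit 344117) (nat_lit 21) (.e (nat_lit 516160) (nat_lit 10) .nil))))) (.g (nat_lit 0) (.e (nat_lit 988) (nat_lit 0) .nil) .nil))) 
(.lf (nat_lit 447415) (.g (nat_lit 2303) (.e (nat_lit 372) (nat_lit 32) (.e (nat_lit 426320) (nat_lit 12) (.e (nat_lit 475185) (nat_lit 29) (.e (nat_lit 557100) (nat_lit 13) (.e (nat_lit 172113) (nat_lit 10) .nil))))) (.g (nat_lit 0) (.e (nat_lit 1946) (nat_lit 0) .nil) .nil))))) (.nd (nat_lit 7) (.nd (nat_lit 8) 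
(.lf (nat_lit 447095) (.g (nat_lit 5579) (.e (nat_lit 42) (nat_lit 0) (.e (nat_lit 3302) (nat_lit 202) (.e (nat_lit 573489) (nat_lit 14) (.e (nat_lit 73755) (nat_lit 8) (.e (nat_lit 557105) (nat_lit 14) (.e (nat_lit 180252) (nat_lit 10) (.e (nat_lit 573474) (nat_lit 12) (.e (nat_lit 57508) (nat_lit 39) (.e (nat_lit 647195) (nat_lit 9) .nil))))))))) (.g (nat_lit 1) (.e (nat_lit 235) (nat_lit 0) .nil) .nil))) 
(.lf (nat_lit 447351) (.g (nat_lit 4211) (.e (nat_lit 365) (nat_lit 31) (.e (nat_lit 417810) (nat_lit 6) (.e (nat_lit 286733) (nat_lit 2) (.e (nat_lit 90170) (nat_lit 13) (.e (nat_lit 172113) (nat_lit 10) (.e (nat_lit 434245) (nat_lit 28) (.e (nat_lit 573451) (nat_lit 9) .nil))))))) (.g (nat_lit 1) (.e (nat_lit 1803) (nat_lit 0) .nil) .nil)))) (.nd (nat_lit 8) 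
(.lf (nat_lit 447223) (.g (nat_lit 970) (.e (nat_lit 174) (nat_lit 12) (.e (nat_lit 204863) (nat_lit 27) (.e (nat_lit 344127) (nat_lit 26) .nil))) (.g (nat_lit 0) (.e (nat_lit 1180) (nat_lit 0) .nil) .nil))) 
(.lf (nat_lit 447479) (.g (nat_lit 3555) (.e (nat_lit 375) (nat_lit 32) (.e (nat_lit 426125) (nat_lit 2) (.e (nat_lit 196666) (nat_lit 13) (.e (nat_lit 65610) (nat_lit 10) (.e (nat_lit 344128) (nat_lit 26) (.e (nat_lit 557090) (nat_lit 12) (.e (nat_lit 164022) (nat_lit 46) (.e (nat_lit 704628) (nat_lit 9) .nil)))))))) (.g (nat_lit 1) (.e (nat_lit 2138) (nat_lit 0) .nil) .nil)))))))) 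
(.nd (nat_lit 4) (.nd (nat_lit 5) (.nd (nat_lit 6) (.nd (nat_lit 7) (.nd (nat_lit 8) 
(.lf (nat_lit 446991) (.g (nat_lit 1481) (.e (nat_lit 819219) (nat_lit 4) (.e (nat_lit 172115) (nat_lit 10) (.e (nat_lit 434241) (nat_lit 27) (.e (nat_lit 565269) (nat_lit 6) (.e (nat_lit 81942) (nat_lit 20) (.e (nat_lit 2390) (nat_lit 156) .nil)))))) (.g (nat_lit 4) .nil .nil))) 
(.lf (nat_lit 447247) (.g (nat_lit 1133) (.e (nat_lit 174) (nat_lit 12) (.e (nat_lit 204876) (nat_lit 31) (.e (nat_lit 376842) (nat_lit 11) (.e (nat_lit 426410) (nat_lit 15) .nil)))) (.g (nat_lit 0) (.e (nat_lit 1258) (nat_lit 0) .nil) .nil)))) (.nd (nat_lit 8) 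
(.lf (nat_lit 447119) (.g (nat_lit 3130) (.e (nat_lit 75) (nat_lit 0) (.e (nat_lit 3308) (nat_lit 202) (.e (nat_lit 573482) (nat_lit 13) (.e (nat_lit 65604) (nat_lit 9) (.e (nat_lit 336013) (nat_lit 2) (.e (nat_lit 90165) (nat_lit 12) (.e (nat_lit 164218) (nat_lit 179) (.e (nat_lit 164339) (nat_lit 232) .nil)))))))) (.g (nat_lit 1) (.e (nat_lit 375) (nat_lit 0) .nil) .nil))) 
(.lf (nat_lit 447375) (.g (nat_lit 4251) (.e (nat_lit 371) (nat_lit 32) (.e (nat_lit 426337) (nat_lit 14) (.e (nat_lit 491571) (nat_lit 13) (.e (nat_lit 393260) (nat_lit 21) (.e (nat_lit 409623) (nat_lit 10) .nil))))) (.g (nat_lit 0) (.e (nat_lit 1868) (nat_lit 0) .nil) .nil))))) (.nd (nat_lit 7) (.nd (nat_lit 8) 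
(.lf (nat_lit 447055) (.g (nat_lit 3809) (.e (nat_lit 4) (nat_lit 0) (.e (nat_lit 1860) (nat_lit 124) (.e (nat_lit 557109) (nat_lit 15) (.e (nat_lit 188452) (nat_lit 23) (.e (nat_lit 204846) (nat_lit 24) .nil))))) (.g (nat_lit 0) (.e (nat_lit 7) (nat_lit 0) .nil) .nil))) 
(.lf (nat_lit 447311) (.g (nat_lit 3102) (.e (nat_lit 144) (nat_lit 8) (.e (nat_lit 147496) (nat_lit 11) (.e (nat_lit 24604) (nat_lit 2) (.e (nat_lit 90167) (nat_lit 13) (.e (nat_lit 172126) (nat_lit 14) (.e (nat_lit 491537) (nat_lit 2) (.e (nat_lit 90133) (nat_lit 9) .nil))))))) (.g (nat_lit 1) (.e (nat_lit 1503) (nat_lit 0) .nil) .nil)))) (.nd (nat_lit 8) 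
(.lf (nat_lit 447183) (.g (nat_lit 981) (.e (nat_lit 174) (nat_lit 12) (.e (nat_lit 204829) (nat_lit 18) (.e (nat_lit 57854) (nat_lit 252) .nil))) (.g (nat_lit 0) (.e (nat_lit 1101) (nat_lit 0) .nil) .nil))) 
(.lf (nat_lit 447439) (.g (nat_lit 3789) (.e (nat_lit 374) (nat_lit 32) (.e (nat_lit 426340) (nat_lit 14) (.e (nat_lit 491571) (nat_lit 13) (.e (nat_lit 393260) (nat_lit 21) (.e (nat_lit 409625) (nat_lit 10) .nil))))) (.g (nat_lit 0) (.e (nat_lit 2037) (nat_lit 0) .nil) .nil)))))) (.nd (nat_lit 6) (.nd (nat_lit 7) (.nd (nat_lit 8) 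
(.lf (nat_lit 447023) (.g (nat_lit 1467) (.e (nat_lit 819221) (nat_lit 6) (.e (nat_lit 188440) (nat_lit 20) (.e (nat_lit 3307) (nat_lit 202) (.e (nat_lit 573501) (nat_lit 18) .nil)))) .nil)) 
(.lf (nat_lit 447279) (.g (nat_lit 2808) (.e (nat_lit 202) (nat_lit 17) (.e (nat_lit 253992) (nat_lit 11) (.e (nat_lit 16425) (nat_lit 7) (.e (nat_lit 409648) (nat_lit 18) (.e (nat_lit 303137) (nat_lit 10) .nil))))) (.g (nat_lit 0) (.e (nat_lit 1437) (nat_lit 0) .nil) .nil)))) (.nd (nat_lit 8) 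
(.lf (nat_lit 447151) (.g (nat_lit 2954) (.e (nat_lit 162) (nat_lit 11) (.e (nat_lit 196670) (nat_lit 14) (.e (nat_lit 73755) (nat_lit 8) (.e (nat_lit 557105) (nat_lit 14) (.e (nat_lit 180252) (nat_lit 10) (.e (nat_lit 573503) (nat_lit 18) (.e (nat_lit 7936) (nat_lit 81) (.e (nat_lit 5259) (nat_lit 298) .nil)))))))) (.g (nat_lit 1) (.e (nat_lit 928) (nat_lit 0) .nil) .nil))) 
(.lf (nat_lit 447407) (.g (nat_lit 2717) (.e (nat_lit 371) (nat_lit 32) (.e (nat_lit 426544) (nat_lit 30) (.e (nat_lit 360467) (nat_lit 3) (.e (nat_lit 516191) (nat_lit 17) (.e (nat_lit 6216) (nat_lit 333) (.e (nat_lit 57881) (nat_lit 270) .nil)))))) (.g (nat_lit 1) (.e (nat_lit 1924) (nat_lit 0) .nil) .nil))))) (.nd (nat_lit 7) (.nd (nat_lit 8) 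
(.lf (nat_lit 447087) (.g (nat_lit 3604) (.e (nat_lit 25) (nat_lit 0) (.e (nat_lit 3307) (nat_lit 202) (.e (nat_lit 573485) (nat_lit 13) (.e (nat_lit 65619) (nat_lit 10) (.e (nat_lit 344117) (nat_lit 21) (.e (nat_lit 516106) (nat_lit 0) (.e (nat_lit 7112) (nat_lit 381) (.e (nat_lit 229647) (nat_lit 232) .nil)))))))) (.g (nat_lit 1) (.e (nat_lit 163) (nat_lit 0) .nil) .nil))) 
(.lf (nat_lit 447343) (.g (nat_lit 3809) (.e (nat_lit 365) (nat_lit 31) (.e (nat_lit 417793) (nat_lit 0) (.e (nat_lit 5271) (nat_lit 298) (.e (nat_lit 1239) (nat_lit 91) (.e (nat_lit 90170) (nat_lit 13) (.e (nat_lit 172113) (nat_lit 10) (.e (nat_lit 434247) (nat_lit 28) (.e (nat_lit 573456) (nat_lit 9) .nil)))))))) (.g (nat_lit 1) (.e (nat_lit 1795) (nat_lit 0) .nil) .nil)))) (.nd (nat_lit 8) 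
(.lf (nat_lit 447215) (.g (nat_lit 1469) (.e (nat_lit 174) (nat_lit 12) (.e (nat_lit 204863) (nat_lit 27) (.e (nat_lit 344117) (nat_lit 21) (.e (nat_lit 516129) (nat_lit 3) .nil)))) (.g (nat_lit 0) (.e (nat_lit 1172) (nat_lit 0) .nil) .nil))) 
(.lf (nat_lit 447471) (.g (nat_lit 5032) (.e (nat_lit 375) (nat_lit 32) (.e (nat_lit 426125) (nat_lit 2) (.e (nat_lit 196666) (nat_lit 13) (.e (nat_lit 65610) (nat_lit 10) (.e (nat_lit 344127) (nat_lit 26) (.e (nat_lit 557093) (nat_lit 12) (.e (nat_lit 164023) (nat_lit 46) (.e (nat_lit 704626) (nat_lit 9) .nil)))))))) (.g (nat_lit 1) (.e (nat_lit 2130) (nat_lit 0) .nil) .nil))))))) 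
(.nd (nat_lit 5) (.nd (nat_lit 6) (.nd (nat_lit 7) (.nd (nat_lit 8) 
(.lf (nat_lit 447007) (.g (nat_lit 406) (.e (nat_lit 819220) (nat_lit 5) (.e (nat_lit 180285) (nat_lit 45) (.e (nat_lit 2546) (nat_lit 158) .nil))) .nil)) 
(.lf (nat_lit 447263) (.g (nat_lit 1635) (.e (nat_lit 7936) (nat_lit 14) (.e (nat_lit 221194) (nat_lit 11) (.e (nat_lit 336012) (nat_lit 2) (.e (nat_lit 90172) (nat_lit 14) (.e (nat_lit 180285) (nat_lit 45) .nil))))) (.g (nat_lit 0) (.e (nat_lit 1412) (nat_lit 0) .nil) .nil)))) (.nd (nat_lit 8) 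
(.lf (nat_lit 447135) (.g (nat_lit 3561) (.e (nat_lit 78) (nat_lit 0) (.e (nat_lit 3308) (nat_lit 202) (.e (nat_lit 573482) (nat_lit 13) (.e (nat_lit 65604) (nat_lit 9) (.e (nat_lit 336013) (nat_lit 2) (.e (nat_lit 90165) (nat_lit 12) (.e (nat_lit 164219) (nat_lit 180) (.e (nat_lit 229647) (nat_lit 232) .nil)))))))) (.g (nat_lit 1) (.e (nat_lit 599) (nat_lit 0) .nil) .nil))) 
(.lf (nat_lit 447391) (.g (nat_lit 3548) (.e (nat_lit 371) (nat_lit 32) (.e (nat_lit 426438) (nat_lit 18) (.e (nat_lit 98367) (nat_lit 27) (.e (nat_lit 434247) (nat_lit 28) (.e (nat_lit 573484) (nat_lit 13) (.e (nat_lit 65568) (nat_lit 2) (.e (nat_lit 98048) (nat_lit 0) .nil))))))) (.g (nat_lit 1) (.e (nat_lit 1905) (nat_lit 0) .nil) .nil))))) (.nd (nat_lit 7) (.nd (nat_lit 8) 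
(.lf (nat_lit 447071) (.g (nat_lit 2920) (.e (nat_lit 27) (nat_lit 0) (.e (nat_lit 3308) (nat_lit 202) (.e (nat_lit 573482) (nat_lit 13) (.e (nat_lit 65604) (nat_lit 9) (.e (nat_lit 336013) (nat_lit 2) (.e (nat_lit 90165) (nat_lit 12) (.e (nat_lit 164219) (nat_lit 180) (.e (nat_lit 229644) (nat_lit 232) .nil)))))))) (.g (nat_lit 1) (.e (nat_lit 112) (nat_lit 0) .nil) .nil))) 
(.lf (nat_lit 447327) (.g (nat_lit 2581) (.e (nat_lit 359) (nat_lit 30) (.e (nat_lit 409602) (nat_lit 0) (.e (nat_lit 5293) (nat_lit 298) (.e (nat_lit 1250) (nat_lit 92) (.e (nat_lit 98372) (nat_lit 29) (.e (nat_lit 450586) (nat_lit 10) (.e (nat_lit 573449) (nat_lit 9) .nil))))))) (.g (nat_lit 1) (.e (nat_lit 1519) (nat_lit 0) .nil) .nil)))) (.nd (nat_lit 8) 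
(.lf (nat_lit 447199) (.g (nat_lit 1785) (.e (nat_lit 174) (nat_lit 12) (.e (nat_lit 204859) (nat_lit 26) (.e (nat_lit 336209) (nat_lit 13) (.e (nat_lit 393221) (nat_lit 0) (.e (nat_lit 6209) (nat_lit 333) (.e (nat_lit 57878) (nat_lit 270) .nil)))))) (.g (nat_lit 1) (.e (nat_lit 1150) (nat_lit 0) .nil) .nil))) 
(.lf (nat_lit 447455) (.g (nat_lit 2862) (.e (nat_lit 375) (nat_lit 32) (.e (nat_lit 426118) (nat_lit 2) (.e (nat_lit 196666) (nat_lit 13) (.e (nat_lit 65617) (nat_lit 10) (.e (nat_lit 344132) (nat_lit 26) (.e (nat_lit 557094) (nat_lit 12) (.e (nat_lit 164022) (nat_lit 46) (.e (nat_lit 704629) (nat_lit 9) .nil)))))))) (.g (nat_lit 1) (.e (nat_lit 2060) (nat_lit 0) .nil) .nil)))))) 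
(.nd (nat_lit 6) (.nd (nat_lit 7) (.nd (nat_lit 8) 
(.lf (nat_lit 447039) (.g (nat_lit 1178) (.e (nat_lit 819228) (nat_lit 9) (.e (nat_lit 1256) (nat_lit 92) (.e (nat_lit 98367) (nat_lit 27) (.e (nat_lit 434231) (nat_lit 23) .nil)))) .nil)) 
(.lf (nat_lit 447295) (.g (nat_lit 2105) (.e (nat_lit 112) (nat_lit 3) (.e (nat_lit 98333) (nat_lit 18) (.e (nat_lit 164325) (nat_lit 230) (.e (nat_lit 163944) (nat_lit 19) (.e (nat_lit 483332) (nat_lit 0) .nil))))) (.g (nat_lit 0) (.e (nat_lit 1483) (nat_lit 0) .nil) .nil)))) (.nd (nat_lit 8) 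
(.lf (nat_lit 447167) (.g (nat_lit 1960) (.e (nat_lit 171) (nat_lit 12) (.e (nat_lit 204829) (nat_lit 18) (.e (nat_lit 57847) (nat_lit 252) (.e (nat_lit 57407) (nat_lit 12) .nil)))) (.g (nat_lit 0) (.e (nat_lit 1036) (nat_lit 0) .nil) .nil))) 
(.lf (nat_lit 447423) (.g (nat_lit 3836) (.e (nat_lit 373) (nat_lit 32) (.e (nat_lit 426136) (nat_lit 3) (.e (nat_lit 204869) (nat_lit 29) (.e (nat_lit 360475) (nat_lit 8) (.e (nat_lit 557091) (nat_lit 12) (.e (nat_lit 164022) (nat_lit 46) (.e (nat_lit 704626) (nat_lit 9) .nil))))))) (.g (nat_lit 1) (.e (nat_lit 1975) (nat_lit 0) .nil) .nil))))) (.nd (nat_lit 7) (.nd (nat_lit 8) 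
(.lf (nat_lit 447103) (.g (nat_lit 3055) (.e (nat_lit 50) (nat_lit 0) (.e (nat_lit 3302) (nat_lit 202) (.e (nat_lit 573489) (nat_lit 14) (.e (nat_lit 73755) (nat_lit 8) (.e (nat_lit 557105) (nat_lit 14) (.e (nat_lit 180252) (nat_lit 10) (.e (nat_lit 573474) (nat_lit 12) (.e (nat_lit 57511) (nat_lit 39) (.e (nat_lit 647190) (nat_lit 9) .nil))))))))) (.g (nat_lit 1) (.e (nat_lit 270) (nat_lit 0) .nil) .nil))) 
(.lf (nat_lit 447359) (.g (nat_lit 3688) (.e (nat_lit 370) (nat_lit 32) (.e (nat_lit 426125) (nat_lit 2) (.e (nat_lit 196666) (nat_lit 13) (.e (nat_lit 65617) (nat_lit 10) (.e (nat_lit 344132) (nat_lit 26) (.e (nat_lit 557093) (nat_lit 12) (.e (nat_lit 164022) (nat_lit 46) (.e (nat_lit 704627) (nat_lit 9) .nil)))))))) (.g (nat_lit 1) (.e (nat_lit 1834) (nat_lit 0) .nil) .nil)))) (.nd (nat_lit 8) 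
(.lf (nat_lit 447231) (.g (nat_lit 2821) (.e (nat_lit 174) (nat_lit 12) (.e (nat_lit 204863) (nat_lit 27) (.e (nat_lit 344133) (nat_lit 26) (.e (nat_lit 557105) (nat_lit 14) (.e (nat_lit 180252) (nat_lit 10) .nil))))) (.g (nat_lit 0) (.e (nat_lit 1188) (nat_lit 0) .nil) .nil))) 
(.lf (nat_lit 447487) (.g (nat_lit 4719) (.e (nat_lit 375) (nat_lit 32) (.e (nat_lit 426125) (nat_lit 2) (.e (nat_lit 196666) (nat_lit 13) (.e (nat_lit 65610) (nat_lit 10) (.e (nat_lit 344128) (nat_lit 26) (.e (nat_lit 557093) (nat_lit 12) (.e (nat_lit 164023) (nat_lit 46) (.e (nat_lit 704626) (nat_lit 9) .nil)))))))) (.g (nat_lit 1) (.e (nat_lit 2146) (nat_lit 0) .nil) .nil))))))))))))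

noncomputable def tv5497 : DT := (.nd (nat_lit 0) (.nd (nat_lit 1) (.nd (nat_lit 2) (.nd (nat_lit 3) (.nd (nat_lit 4) (.nd (nat_lit 5) (.nd (nat_lit 6) (.nd (nat_lit 7) (.nd (nat_lit 8) (.nd (nat_lit 9) 
(.lf (nat_lit 447488) (.g (nat_lit 3607) (.e (nat_lit 375) (nat_lit 32) (.e (nat_lit 426125) (nat_lit 2) (.e (nat_lit 196666) (nat_lit 13) (.e (nat_lit 65610) (nat_lit 10) (.e (nat_lit 344128) (nat_lit 26) (.e (nat_lit 557093) (nat_lit 12) (.e (nat_lit 164023) (nat_lit 46) (.e (nat_lit 704627) (nat_lit 9) .nil)))))))) (.g (nat_lit 1) (.e (nat_lit 2147) (nat_lit 0) .nil) .nil))) 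
(.lf (nat_lit 448000) (.g (nat_lit 3856) (.e (nat_lit 404) (nat_lit 32) (.e (nat_lit 426340) (nat_lit 14) (.e (nat_lit 491571) (nat_lit 13) (.e (nat_lit 393260) (nat_lit 21) (.e (nat_lit 409625) (nat_lit 10) (.e (nat_lit 5264) (nat_lit 298) .nil)))))) (.g (nat_lit 1) (.e (nat_lit 4514) (nat_lit 0) .nil) .nil)))) (.nd (nat_lit 9) 
(.lf (nat_lit 447744) (.g (nat_lit 2609) (.e (nat_lit 396) (nat_lit 32) (.e (nat_lit 426121) (nat_lit 2) (.e (nat_lit 196666) (nat_lit 13) (.e (nat_lit 65617) (nat_lit 10) (.e (nat_lit 344132) (nat_lit 26) (.e (nat_lit 557093) (nat_lit 12) (.e (nat_lit 164023) (nat_lit 46) (.e (nat_lit 704644) (nat_lit 9) .nil)))))))) (.g (nat_lit 1) (.e (nat_lit 3450) (nat_lit 0) .nil) .nil))) 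
(.lf (nat_lit 448256) (.g (nat_lit 4226) (.e (nat_lit 426) (nat_lit 32) (.e (nat_lit 426343) (nat_lit 14) (.e (nat_lit 491536) (nat_lit 2) (.e (nat_lit 90170) (nat_lit 13) (.e (nat_lit 172106) (nat_lit 10) (.e (nat_lit 434244) (nat_lit 28) (.e (nat_lit 573458) (nat_lit 9) .nil))))))) (.g (nat_lit 1) (.e (nat_lit 5419) (nat_lit 0) .nil) .nil))))) (.nd (nat_lit 8) (.nd (nat_lit 9) 
(.lf (nat_lit 447616) (.g (nat_lit 1664) (.e (nat_lit 375) (nat_lit 32) (.e (nat_lit 426173) (nat_lit 7) (.e (nat_lit 417536) (nat_lit 16) (.e (nat_lit 286731) (nat_lit 1) (.e (nat_lit 57681) (nat_lit 155) (.e (nat_lit 122913) (nat_lit 13) (.e (nat_lit 352000) (nat_lit 8) .nil))))))) (.g (nat_lit 1) (.e (nat_lit 2889) (nat_lit 0) .nil) .nil))) 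
(.lf (nat_lit 448128) (.g (nat_lit 2846) (.e (nat_lit 437) (nat_lit 32) (.e (nat_lit 426341) (nat_lit 14) (.e (nat_lit 491537) (nat_lit 2) (.e (nat_lit 90170) (nat_lit 13) (.e (nat_lit 172113) (nat_lit 10) .nil))))) (.g (nat_lit 0) (.e (nat_lit 4808) (nat_lit 0) .nil) .nil)))) (.nd (nat_lit 9) 
(.lf (nat_lit 447872) (.g (nat_lit 3182) (.e (nat_lit 399) (nat_lit 32) (.e (nat_lit 426123) (nat_lit 2) (.e (nat_lit 196666) (nat_lit 13) (.e (nat_lit 65617) (nat_lit 10) (.e (nat_lit 344132) (nat_lit 26) .nil))))) (.g (nat_lit 0) (.e (nat_lit 4195) (nat_lit 0) .nil) .nil))) 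
(.lf (nat_lit 448384) (.g (nat_lit 2385) (.e (nat_lit 430) (nat_lit 32) (.e (nat_lit 426308) (nat_lit 12) (.e (nat_lit 475183) (nat_lit 29) (.e (nat_lit 557097) (nat_lit 13) (.e (nat_lit 172105) (nat_lit 10) .nil))))) (.g (nat_lit 0) (.e (nat_lit 5783) (nat_lit 0) .nil) .nil)))))) (.nd (nat_lit 7) (.nd (nat_lit 8) (.nd (nat_lit 9) 
(.lf (nat_lit 447552) (.g (nat_lit 4576) (.e (nat_lit 375) (nat_lit 32) (.e (nat_lit 426125) (nat_lit 2) (.e (nat_lit 196666) (nat_lit 13) (.e (nat_lit 65614) (nat_lit 10) (.e (nat_lit 344132) (nat_lit 26) (.e (nat_lit 557093) (nat_lit 12) (.e (nat_lit 164023) (nat_lit 46) (.e (nat_lit 704628) (nat_lit 9) .nil)))))))) (.g (nat_lit 1) (.e (nat_lit 2257) (nat_lit 0) .nil) .nil))) 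
(.lf (nat_lit 448064) (.g (nat_lit 2656) (.e (nat_lit 411) (nat_lit 32) (.e (nat_lit 426185) (nat_lit 9) (.e (nat_lit 426566) (nat_lit 34) (.e (nat_lit 393253) (nat_lit 18) (.e (nat_lit 164327) (nat_lit 230) (.e (nat_lit 163868) (nat_lit 2) (.e (nat_lit 196624) (nat_lit 9) .nil))))))) (.g (nat_lit 1) (.e (nat_lit 4647) (nat_lit 0) .nil) .nil)))) (.nd (nat_lit 9) 
(.lf (nat_lit 447808) (.g (nat_lit 2887) (.e (nat_lit 396) (nat_lit 32) (.e (nat_lit 426341) (nat_lit 14) (.e (nat_lit 491537) (nat_lit 2) (.e (nat_lit 90170) (nat_lit 13) (.e (nat_lit 172113) (nat_lit 10) (.e (nat_lit 434245) (nat_lit 28) (.e (nat_lit 573451) (nat_lit 9) .nil))))))) (.g (nat_lit 1) (.e (nat_lit 3729) (nat_lit 0) .nil) .nil))) 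
(.lf (nat_lit 448320) (.g (nat_lit 3665) (.e (nat_lit 430) (nat_lit 32) (.e (nat_lit 426012) (nat_lit 0) (.e (nat_lit 7486) (nat_lit 402) (.e (nat_lit 1256) (nat_lit 92) (.e (nat_lit 98373) (nat_lit 29) (.e (nat_lit 450588) (nat_lit 10) (.e (nat_lit 573452) (nat_lit 9) .nil))))))) (.g (nat_lit 1) (.e (nat_lit 5560) (nat_lit 0) .nil) .nil))))) (.nd (nat_lit 8) (.nd (nat_lit 9) 
(.lf (nat_lit 447680) (.g (nat_lit 4238) (.e (nat_lit 391) (nat_lit 32) (.e (nat_lit 426123) (nat_lit 2) (.e (nat_lit 196666) (nat_lit 13) (.e (nat_lit 65617) (nat_lit 10) (.e (nat_lit 344130) (nat_lit 26) (.e (nat_lit 557090) (nat_lit 12) (.e (nat_lit 164022) (nat_lit 46) (.e (nat_lit 704626) (nat_lit 9) .nil)))))))) (.g (nat_lit 1) (.e (nat_lit 3072) (nat_lit 0) .nil) .nil))) 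
(.lf (nat_lit 448192) (.g (nat_lit 652) (.e (nat_lit 423) (nat_lit 32) (.e (nat_lit 426190) (nat_lit 9) (.e (nat_lit 426566) (nat_lit 34) .nil))) (.g (nat_lit 0) (.e (nat_lit 5050) (nat_lit 0) .nil) .nil)))) (.nd (nat_lit 9) 
(.lf (nat_lit 447936) (.g (nat_lit 2068) (.e (nat_lit 401) (nat_lit 32) (.e (nat_lit 426340) (nat_lit 14) (.e (nat_lit 491549) (nat_lit 9) (.e (nat_lit 336421) (nat_lit 28) (.e (nat_lit 434197) (nat_lit 16) (.e (nat_lit 164340) (nat_lit 232) .nil)))))) (.g (nat_lit 1) (.e (nat_lit 4375) (nat_lit 0) .nil) .nil))) 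
(.lf (nat_lit 448448) (.g (nat_lit 2936) (.e (nat_lit 430) (nat_lit 32) (.e (nat_lit 426342) (nat_lit 14) (.e (nat_lit 491539) (nat_lit 3) (.e (nat_lit 98373) (nat_lit 29) (.e (nat_lit 450587) (nat_lit 10) (.e (nat_lit 573457) (nat_lit 9) .nil)))))) (.g (nat_lit 1) (.e (nat_lit 5943) (nat_lit 0) .nil) .nil))))))) (.nd (nat_lit 6) (.nd (nat_lit 7) (.nd (nat_lit 8) (.nd (nat_lit 9) 
(.lf (nat_lit 447520) (.g (nat_lit 4393) (.e (nat_lit 375) (nat_lit 32) (.e (nat_lit 426125) (nat_lit 2) (.e (nat_lit 196666) (nat_lit 13) (.e (nat_lit 65610) (nat_lit 10) (.e (nat_lit 344131) (nat_lit 26) (.e (nat_lit 557091) (nat_lit 12) (.e (nat_lit 164022) (nat_lit 46) (.e (nat_lit 704626) (nat_lit 9) .nil)))))))) (.g (nat_lit 1) (.e (nat_lit 2218) (nat_lit 0) .nil) .nil))) 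
(.lf (nat_lit 448032) (.g (nat_lit 2482) (.e (nat_lit 411) (nat_lit 32) (.e (nat_lit 426125) (nat_lit 2) (.e (nat_lit 196666) (nat_lit 13) (.e (nat_lit 65617) (nat_lit 10) (.e (nat_lit 344130) (nat_lit 26) (.e (nat_lit 557090) (nat_lit 12) (.e (nat_lit 164022) (nat_lit 46) (.e (nat_lit 704627) (nat_lit 9) .nil)))))))) (.g (nat_lit 1) (.e (nat_lit 4604) (nat_lit 0) .nil) .nil)))) (.nd (nat_lit 9) 
(.lf (nat_lit 447776) (.g (nat_lit 2062) (.e (nat_lit 396) (nat_lit 32) (.e (nat_lit 426190) (nat_lit 9) (.e (nat_lit 426566) (nat_lit 34) (.e (nat_lit 393253) (nat_lit 18) (.e (nat_lit 164327) (nat_lit 230) (.e (nat_lit 163868) (nat_lit 2) (.e (nat_lit 196623) (nat_lit 9) .nil))))))) (.g (nat_lit 1) (.e (nat_lit 3522) (nat_lit 0) .nil) .nil))) 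
(.lf (nat_lit 448288) (.g (nat_lit 3288) (.e (nat_lit 430) (nat_lit 32) (.e (nat_lit 426010) (nat_lit 0) (.e (nat_lit 7583) (nat_lit 405) (.e (nat_lit 57464) (nat_lit 23) (.e (nat_lit 516166) (nat_lit 12) (.e (nat_lit 450588) (nat_lit 10) (.e (nat_lit 573457) (nat_lit 9) .nil))))))) (.g (nat_lit 1) (.e (nat_lit 5524) (nat_lit 0) .nil) .nil))))) (.nd (nat_lit 8) (.nd (nat_lit 9) 
(.lf (nat_lit 447648) (.g (nat_lit 1523) (.e (nat_lit 386) (nat_lit 32) (.e (nat_lit 426129) (nat_lit 3) (.e (nat_lit 204869) (nat_lit 29) (.e (nat_lit 360473) (nat_lit 8) .nil)))) (.g (nat_lit 0) (.e (nat_lit 2981) (nat_lit 0) .nil) .nil))) 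
(.lf (nat_lit 448160) (.g (nat_lit 4613) (.e (nat_lit 416) (nat_lit 32) (.e (nat_lit 426123) (nat_lit 2) (.e (nat_lit 196666) (nat_lit 13) (.e (nat_lit 65617) (nat_lit 10) (.e (nat_lit 344132) (nat_lit 26) (.e (nat_lit 557094) (nat_lit 12) (.e (nat_lit 164022) (nat_lit 46) (.e (nat_lit 704628) (nat_lit 9) .nil)))))))) (.g (nat_lit 1) (.e (nat_lit 4916) (nat_lit 0) .nil) .nil)))) (.nd (nat_lit 9) 
(.lf (nat_lit 447904) (.g (nat_lit 3338) (.e (nat_lit 397) (nat_lit 32) (.e (nat_lit 426343) (nat_lit 14) (.e (nat_lit 491570) (nat_lit 13) (.e (nat_lit 393260) (nat_lit 21) (.e (nat_lit 409616) (nat_lit 10) (.e (nat_lit 7936) (nat_lit 298) .nil)))))) (.g (nat_lit 1) (.e (nat_lit 4286) (nat_lit 0) .nil) .nil))) 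
(.lf (nat_lit 448416) (.g (nat_lit 2095) (.e (nat_lit 430) (nat_lit 32) (.e (nat_lit 426315) (nat_lit 12) (.e (nat_lit 475184) (nat_lit 29) (.e (nat_lit 557098) (nat_lit 13) (.e (nat_lit 172105) (nat_lit 10) .nil))))) (.g (nat_lit 0) (.e (nat_lit 5815) (nat_lit 0) .nil) .nil)))))) (.nd (nat_lit 7) (.nd (nat_lit 8) (.nd (nat_lit 9) 
(.lf (nat_lit 447584) (.g (nat_lit 3418) (.e (nat_lit 375) (nat_lit 32) (.e (nat_lit 426140) (nat_lit 3) (.e (nat_lit 204868) (nat_lit 29) (.e (nat_lit 360473) (nat_lit 8) (.e (nat_lit 557093) (nat_lit 12) (.e (nat_lit 164023) (nat_lit 46) (.e (nat_lit 704626) (nat_lit 9) .nil))))))) (.g (nat_lit 1) (.e (nat_lit 2299) (nat_lit 0) .nil) .nil))) 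
(.lf (nat_lit 448096) (.g (nat_lit 3771) (.e (nat_lit 436) (nat_lit 32) (.e (nat_lit 426123) (nat_lit 2) (.e (nat_lit 196666) (nat_lit 13) (.e (nat_lit 65617) (nat_lit 10) (.e (nat_lit 344132) (nat_lit 26) (.e (nat_lit 557093) (nat_lit 12) (.e (nat_lit 164023) (nat_lit 46) (.e (nat_lit 704626) (nat_lit 9) .nil)))))))) (.g (nat_lit 1) (.e (nat_lit 4714) (nat_lit 0) .nil) .nil)))) (.nd (nat_lit 9) 
(.lf (nat_lit 447840) (.g (nat_lit 2846) (.e (nat_lit 394) (nat_lit 32) (.e (nat_lit 426341) (nat_lit 14) (.e (nat_lit 491537) (nat_lit 2) (.e (nat_lit 90170) (nat_lit 13) (.e (nat_lit 172113) (nat_lit 10) .nil))))) (.g (nat_lit 0) (.e (nat_lit 4040) (nat_lit 0) .nil) .nil))) 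
(.lf (nat_lit 448352) (.g (nat_lit 3973) (.e (nat_lit 430) (nat_lit 32) (.e (nat_lit 426190) (nat_lit 9) (.e (nat_lit 426566) (nat_lit 34) (.e (nat_lit 393253) (nat_lit 18) (.e (nat_lit 164327) (nat_lit 230) (.e (nat_lit 163868) (nat_lit 2) (.e (nat_lit 196630) (nat_lit 9) .nil))))))) (.g (nat_lit 1) (.e (nat_lit 5704) (nat_lit 0) .nil) .nil))))) (.nd (nat_lit 8) (.nd (nat_lit 9) 
(.lf (nat_lit 447712) (.g (nat_lit 3220) (.e (nat_lit 392) (nat_lit 32) (.e (nat_lit 426316) (nat_lit 12) (.e (nat_lit 475185) (nat_lit 29) (.e (nat_lit 557107) (nat_lit 15) (.e (nat_lit 188440) (nat_lit 20) (.e (nat_lit 3307) (nat_lit 202) (.e (nat_lit 573453) (nat_lit 9) .nil))))))) (.g (nat_lit 1) (.e (nat_lit 3334) (nat_lit 0) .nil) .nil))) 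
(.lf (nat_lit 448224) (.g (nat_lit 4282) (.e (nat_lit 426) (nat_lit 32) (.e (nat_lit 426308) (nat_lit 12) (.e (nat_lit 475184) (nat_lit 29) (.e (nat_lit 557101) (nat_lit 13) (.e (nat_lit 172115) (nat_lit 10) (.e (nat_lit 434244) (nat_lit 28) (.e (nat_lit 573458) (nat_lit 9) .nil))))))) (.g (nat_lit 1) (.e (nat_lit 5271) (nat_lit 0) .nil) .nil)))) (.nd (nat_lit 9) 
(.lf (nat_lit 447968) (.g (nat_lit 2087) (.e (nat_lit 403) (nat_lit 32) (.e (nat_lit 426340) (nat_lit 14) (.e (nat_lit 491549) (nat_lit 9) (.e (nat_lit 336438) (nat_lit 31) (.e (nat_lit 458769) (nat_lit 16) (.e (nat_lit 164340) (nat_lit 232) .nil)))))) (.g (nat_lit 1) (.e (nat_lit 4446) (nat_lit 0) .nil) .nil))) 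
(.lf (nat_lit 448480) (.g (nat_lit 2438) (.e (nat_lit 430) (nat_lit 32) (.e (nat_lit 426343) (nat_lit 14) (.e (nat_lit 491537) (nat_lit 2) (.e (nat_lit 90170) (nat_lit 13) (.e (nat_lit 172113) (nat_lit 10) (.e (nat_lit 434242) (nat_lit 28) (.e (nat_lit 573456) (nat_lit 9) .nil))))))) (.g (nat_lit 1) (.e (nat_lit 5976) (nat_lit 0) .nil) .nil)))))))) 
(.nd (nat_lit 5) (.nd (nat_lit 6) (.nd (nat_lit 7) (.nd (nat_lit 8) (.nd (nat_lit 9) 
(.lf (nat_lit 447504) (.g (nat_lit 5203) (.e (nat_lit 375) (nat_lit 32) (.e (nat_lit 426125) (nat_lit 2) (.e (nat_lit 196666) (nat_lit 13) (.e (nat_lit 65610) (nat_lit 10) (.e (nat_lit 344129) (nat_lit 26) (.e (nat_lit 557092) (nat_lit 12) (.e (nat_lit 164022) (nat_lit 46) (.e (nat_lit 704627) (nat_lit 9) .nil)))))))) (.g (nat_lit 1) (.e (nat_lit 2200) (nat_lit 0) .nil) .nil))) 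
(.lf (nat_lit 448016) (.g (nat_lit 2958) (.e (nat_lit 415) (nat_lit 32) (.e (nat_lit 426316) (nat_lit 12) (.e (nat_lit 475185) (nat_lit 29) (.e (nat_lit 557098) (nat_lit 13) .nil)))) (.g (nat_lit 0) (.e (nat_lit 4569) (nat_lit 0) .nil) .nil)))) (.nd (nat_lit 9) 
(.lf (nat_lit 447760) (.g (nat_lit 3697) (.e (nat_lit 396) (nat_lit 32) (.e (nat_lit 426123) (nat_lit 2) (.e (nat_lit 196666) (nat_lit 13) (.e (nat_lit 65617) (nat_lit 10) (.e (nat_lit 344132) (nat_lit 26) (.e (nat_lit 557094) (nat_lit 12) (.e (nat_lit 164022) (nat_lit 46) (.e (nat_lit 704626) (nat_lit 9) .nil)))))))) (.g (nat_lit 1) (.e (nat_lit 3466) (nat_lit 0) .nil) .nil))) 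
(.lf (nat_lit 448272) (.g (nat_lit 1744) (.e (nat_lit 425) (nat_lit 32) (.e (nat_lit 426190) (nat_lit 9) (.e (nat_lit 426566) (nat_lit 34) (.e (nat_lit 393253) (nat_lit 18) (.e (nat_lit 164330) (nat_lit 230) .nil))))) (.g (nat_lit 0) (.e (nat_lit 5498) (nat_lit 0) .nil) .nil))))) (.nd (nat_lit 8) (.nd (nat_lit 9) 
(.lf (nat_lit 447632) (.g (nat_lit 4672) (.e (nat_lit 375) (nat_lit 32) (.e (nat_lit 426346) (nat_lit 14) (.e (nat_lit 491537) (nat_lit 2) (.e (nat_lit 90170) (nat_lit 13) (.e (nat_lit 172106) (nat_lit 10) (.e (nat_lit 434244) (nat_lit 28) (.e (nat_lit 573450) (nat_lit 9) .nil))))))) (.g (nat_lit 1) (.e (nat_lit 2937) (nat_lit 0) .nil) .nil))) 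
(.lf (nat_lit 448144) (.g (nat_lit 2549) (.e (nat_lit 440) (nat_lit 32) (.e (nat_lit 426139) (nat_lit 3) (.e (nat_lit 204869) (nat_lit 29) (.e (nat_lit 360474) (nat_lit 8) (.e (nat_lit 557093) (nat_lit 12) .nil))))) (.g (nat_lit 0) (.e (nat_lit 4886) (nat_lit 0) .nil) .nil)))) (.nd (nat_lit 9) 
(.lf (nat_lit 447888) (.g (nat_lit 3212) (.e (nat_lit 397) (nat_lit 32) (.e (nat_lit 426190) (nat_lit 9) (.e (nat_lit 426566) (nat_lit 34) (.e (nat_lit 393252) (nat_lit 18) (.e (nat_lit 164332) (nat_lit 230) (.e (nat_lit 163869) (nat_lit 2) (.e (nat_lit 196628) (nat_lit 9) .nil))))))) (.g (nat_lit 1) (.e (nat_lit 4252) (nat_lit 0) .nil) .nil))) 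
(.lf (nat_lit 448400) (.g (nat_lit 4397) (.e (nat_lit 430) (nat_lit 32) (.e (nat_lit 426308) (nat_lit 12) (.e (nat_lit 475184) (nat_lit 29) (.e (nat_lit 557100) (nat_lit 13) (.e (nat_lit 172113) (nat_lit 10) (.e (nat_lit 434245) (nat_lit 28) (.e (nat_lit 573451) (nat_lit 9) .nil))))))) (.g (nat_lit 1) (.e (nat_lit 5799) (nat_lit 0) .nil) .nil)))))) 
(.nd (nat_lit 7) (.nd (nat_lit 8) (.nd (nat_lit 9) 
(.lf (nat_lit 447568) (.g (nat_lit 5035) (.e (nat_lit 375) (nat_lit 32) (.e (nat_lit 426134) (nat_lit 3) (.e (nat_lit 204869) (nat_lit 29) (.e (nat_lit 360475) (nat_lit 8) (.e (nat_lit 557091) (nat_lit 12) (.e (nat_lit 164022) (nat_lit 46) (.e (nat_lit 704629) (nat_lit 9) .nil))))))) (.g (nat_lit 1) (.e (nat_lit 2277) (nat_lit 0) .nil) .nil))) 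
(.lf (nat_lit 448080) (.g (nat_lit 1795) (.e (nat_lit 412) (nat_lit 32) (.e (nat_lit 426316) (nat_lit 12) (.e (nat_lit 475185) (nat_lit 29) (.e (nat_lit 557107) (nat_lit 15) .nil)))) (.g (nat_lit 0) (.e (nat_lit 4686) (nat_lit 0) .nil) .nil)))) (.nd (nat_lit 9) 
(.lf (nat_lit 447824) (.g (nat_lit 1485) (.e (nat_lit 396) (nat_lit 32) (.e (nat_lit 426343) (nat_lit 14) (.e (nat_lit 491540) (nat_lit 3) (.e (nat_lit 98372) (nat_lit 29) .nil)))) (.g (nat_lit 0) (.e (nat_lit 3745) (nat_lit 0) .nil) .nil))) 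
(.lf (nat_lit 448336) (.g (nat_lit 2279) (.e (nat_lit 430) (nat_lit 32) (.e (nat_lit 426137) (nat_lit 3) (.e (nat_lit 204869) (nat_lit 29) (.e (nat_lit 360474) (nat_lit 8) (.e (nat_lit 557094) (nat_lit 12) .nil))))) (.g (nat_lit 0) (.e (nat_lit 5666) (nat_lit 0) .nil) .nil))))) (.nd (nat_lit 8) (.nd (nat_lit 9) 
(.lf (nat_lit 447696) (.g (nat_lit 1900) (.e (nat_lit 392) (nat_lit 32) (.e (nat_lit 426188) (nat_lit 9) (.e (nat_lit 426566) (nat_lit 34) (.e (nat_lit 393254) (nat_lit 18) (.e (nat_lit 164326) (nat_lit 230) (.e (nat_lit 163868) (nat_lit 2) (.e (nat_lit 196635) (nat_lit 9) .nil))))))) (.g (nat_lit 1) (.e (nat_lit 3309) (nat_lit 0) .nil) .nil))) 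
(.lf (nat_lit 448208) (.g (nat_lit 3120) (.e (nat_lit 426) (nat_lit 32) (.e (nat_lit 426204) (nat_lit 9) (.e (nat_lit 426412) (nat_lit 15) (.e (nat_lit 1856) (nat_lit 124) (.e (nat_lit 557101) (nat_lit 13) (.e (nat_lit 172115) (nat_lit 10) (.e (nat_lit 434244) (nat_lit 28) (.e (nat_lit 573458) (nat_lit 9) .nil)))))))) (.g (nat_lit 1) (.e (nat_lit 5252) (nat_lit 0) .nil) .nil)))) (.nd (nat_lit 9) 
(.lf (nat_lit 447952) (.g (nat_lit 3525) (.e (nat_lit 401) (nat_lit 32) (.e (nat_lit 426340) (nat_lit 14) (.e (nat_lit 491571) (nat_lit 13) (.e (nat_lit 393260) (nat_lit 21) (.e (nat_lit 409618) (nat_lit 10) (.e (nat_lit 5364) (nat_lit 298) .nil)))))) (.g (nat_lit 1) (.e (nat_lit 4405) (nat_lit 0) .nil) .nil))) 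
(.lf (nat_lit 448464) (.g (nat_lit 2631) (.e (nat_lit 430) (nat_lit 32) (.e (nat_lit 426343) (nat_lit 14) (.e (nat_lit 491526) (nat_lit 0) (.e (nat_lit 1788) (nat_lit 119) (.e (nat_lit 516165) (nat_lit 12) (.e (nat_lit 450587) (nat_lit 10) (.e (nat_lit 573456) (nat_lit 9) .nil))))))) (.g (nat_lit 1) (.e (nat_lit 5960) (nat_lit 0) .nil) .nil))))))) 
(.nd (nat_lit 6) (.nd (nat_lit 7) (.nd (nat_lit 8) (.nd (nat_lit 9) 
(.lf (nat_lit 447536) (.g (nat_lit 4829) (.e (nat_lit 375) (nat_lit 32) (.e (nat_lit 426125) (nat_lit 2) (.e (nat_lit 196666) (nat_lit 13) (.e (nat_lit 65610) (nat_lit 10) (.e (nat_lit 344132) (nat_lit 26) (.e (nat_lit 557093) (nat_lit 12) (.e (nat_lit 164022) (nat_lit 46) (.e (nat_lit 704626) (nat_lit 9) .nil)))))))) (.g (nat_lit 1) (.e (nat_lit 2234) (nat_lit 0) .nil) .nil))) 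
(.lf (nat_lit 448048) (.g (nat_lit 1812) (.e (nat_lit 411) (nat_lit 32) (.e (nat_lit 426140) (nat_lit 3) (.e (nat_lit 204868) (nat_lit 29) (.e (nat_lit 360473) (nat_lit 8) (.e (nat_lit 557093) (nat_lit 12) .nil))))) (.g (nat_lit 0) (.e (nat_lit 4629) (nat_lit 0) .nil) .nil)))) (.nd (nat_lit 9) 
(.lf (nat_lit 447792) (.g (nat_lit 2770) (.e (nat_lit 396) (nat_lit 32) (.e (nat_lit 426316) (nat_lit 12) (.e (nat_lit 475185) (nat_lit 29) (.e (nat_lit 557098) (nat_lit 13) .nil)))) (.g (nat_lit 0) (.e (nat_lit 3555) (nat_lit 0) .nil) .nil))) 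
(.lf (nat_lit 448304) (.g (nat_lit 2545) (.e (nat_lit 430) (nat_lit 32) (.e (nat_lit 426011) (nat_lit 0) (.e (nat_lit 7523) (nat_lit 402) (.e (nat_lit 1235) (nat_lit 91) (.e (nat_lit 90170) (nat_lit 13) (.e (nat_lit 172113) (nat_lit 10) (.e (nat_lit 434247) (nat_lit 28) (.e (nat_lit 573456) (nat_lit 9) .nil)))))))) (.g (nat_lit 1) (.e (nat_lit 5544) (nat_lit 0) .nil) .nil))))) 
(.nd (nat_lit 8) (.nd (nat_lit 9) 
(.lf (nat_lit 447664) (.g (nat_lit 3086) (.e (nat_lit 389) (nat_lit 32) (.e (nat_lit 426121) (nat_lit 2) (.e (nat_lit 196666) (nat_lit 13) (.e (nat_lit 65617) (nat_lit 10) (.e (nat_lit 344130) (nat_lit 26) (.e (nat_lit 557090) (nat_lit 12) (.e (nat_lit 164022) (nat_lit 46) (.e (nat_lit 704628) (nat_lit 9) .nil)))))))) (.g (nat_lit 1) (.e (nat_lit 3036) (nat_lit 0) .nil) .nil))) 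
(.lf (nat_lit 448176) (.g (nat_lit 4162) (.e (nat_lit 420) (nat_lit 32) (.e (nat_lit 426347) (nat_lit 14) (.e (nat_lit 491537) (nat_lit 2) (.e (nat_lit 90170) (nat_lit 13) (.e (nat_lit 172113) (nat_lit 10) (.e (nat_lit 434245) (nat_lit 28) (.e (nat_lit 573458) (nat_lit 9) .nil))))))) (.g (nat_lit 1) (.e (nat_lit 4974) (nat_lit 0) .nil) .nil)))) (.nd (nat_lit 9) 
(.lf (nat_lit 447920) (.g (nat_lit 2912) (.e (nat_lit 398) (nat_lit 32) (.e (nat_lit 426316) (nat_lit 12) (.e (nat_lit 475185) (nat_lit 29) (.e (nat_lit 557098) (nat_lit 13) .nil)))) (.g (nat_lit 0) (.e (nat_lit 4307) (nat_lit 0) .nil) .nil))) 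
(.lf (nat_lit 448432) (.g (nat_lit 3774) (.e (nat_lit 430) (nat_lit 32) (.e (nat_lit 426338) (nat_lit 14) (.e (nat_lit 491540) (nat_lit 3) (.e (nat_lit 98373) (nat_lit 29) (.e (nat_lit 450588) (nat_lit 10) (.e (nat_lit 573452) (nat_lit 9) .nil)))))) (.g (nat_lit 1) (.e (nat_lit 5927) (nat_lit 0) .nil) .nil)))))) (.nd (nat_lit 7) (.nd (nat_lit 8) (.nd (nat_lit 9) 
(.lf (nat_lit 447600) (.g (nat_lit 2392) (.e (nat_lit 375) (nat_lit 32) (.e (nat_lit 426173) (nat_lit 7) (.e (nat_lit 409612) (nat_lit 10) (.e (nat_lit 934) (nat_lit 76) (.e (nat_lit 786480) (nat_lit 29) (.e (nat_lit 352312) (nat_lit 22) (.e (nat_lit 98048) (nat_lit 0) .nil))))))) (.g (nat_lit 1) (.e (nat_lit 2315) (nat_lit 0) .nil) .nil))) 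
(.lf (nat_lit 448112) (.g (nat_lit 3895) (.e (nat_lit 436) (nat_lit 32) (.e (nat_lit 426139) (nat_lit 3) (.e (nat_lit 204869) (nat_lit 29) (.e (nat_lit 360474) (nat_lit 8) (.e (nat_lit 557094) (nat_lit 12) (.e (nat_lit 164022) (nat_lit 46) (.e (nat_lit 704626) (nat_lit 9) .nil))))))) (.g (nat_lit 1) (.e (nat_lit 4747) (nat_lit 0) .nil) .nil)))) (.nd (nat_lit 9) 
(.lf (nat_lit 447856) (.g (nat_lit 3617) (.e (nat_lit 395) (nat_lit 32) (.e (nat_lit 426316) (nat_lit 12) (.e (nat_lit 475185) (nat_lit 29) (.e (nat_lit 557098) (nat_lit 13) (.e (nat_lit 172112) (nat_lit 10) (.e (nat_lit 434248) (nat_lit 28) (.e (nat_lit 573452) (nat_lit 9) .nil))))))) (.g (nat_lit 1) (.e (nat_lit 4141) (nat_lit 0) .nil) .nil))) 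
(.lf (nat_lit 448368) (.g (nat_lit 1568) (.e (nat_lit 430) (nat_lit 32) (.e (nat_lit 426298) (nat_lit 11) (.e (nat_lit 458789) (nat_lit 23) (.e (nat_lit 532482) (nat_lit 0) (.e (nat_lit 6724) (nat_lit 362) (.e (nat_lit 180251) (nat_lit 10) (.e (nat_lit 573452) (nat_lit 9) .nil))))))) (.g (nat_lit 1) (.e (nat_lit 5766) (nat_lit 0) .nil) .nil))))) (.nd (nat_lit 8) (.nd (nat_lit 9) 
(.lf (nat_lit 447728) (.g (nat_lit 1628) (.e (nat_lit 393) (nat_lit 32) (.e (nat_lit 426188) (nat_lit 9) (.e (nat_lit 426566) (nat_lit 34) (.e (nat_lit 393253) (nat_lit 18) (.e (nat_lit 164326) (nat_lit 230) (.e (nat_lit 163871) (nat_lit 2) (.e (nat_lit 196626) (nat_lit 9) .nil))))))) (.g (nat_lit 1) (.e (nat_lit 3422) (nat_lit 0) .nil) .nil))) 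
(.lf (nat_lit 448240) (.g (nat_lit 4211) (.e (nat_lit 426) (nat_lit 32) (.e (nat_lit 426316) (nat_lit 12) (.e (nat_lit 475185) (nat_lit 29) (.e (nat_lit 557098) (nat_lit 13) (.e (nat_lit 172106) (nat_lit 10) (.e (nat_lit 434244) (nat_lit 28) (.e (nat_lit 573458) (nat_lit 9) .nil))))))) (.g (nat_lit 1) (.e (nat_lit 5290) (nat_lit 0) .nil) .nil)))) (.nd (nat_lit 9) 
(.lf (nat_lit 447984) (.g (nat_lit 3661) (.e (nat_lit 403) (nat_lit 32) (.e (nat_lit 426340) (nat_lit 14) (.e (nat_lit 491571) (nat_lit 13) (.e (nat_lit 393260) (nat_lit 21) (.e (nat_lit 409618) (nat_lit 10) (.e (nat_lit 5362) (nat_lit 298) .nil)))))) (.g (nat_lit 1) (.e (nat_lit 4463) (nat_lit 0) .nil) .nil))) 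
(.lf (nat_lit 448496) (.g (nat_lit 3942) (.e (nat_lit 430) (nat_lit 32) (.e (nat_lit 426343) (nat_lit 14) (.e (nat_lit 491539) (nat_lit 3) (.e (nat_lit 98373) (nat_lit 29) (.e (nat_lit 450587) (nat_lit 10) (.e (nat_lit 573456) (nat_lit 9) .nil)))))) (.g (nat_lit 1) (.e (nat_lit 5992) (nat_lit 0) .nil) .nil))))))))) 
(.nd (nat_lit 4) (.nd (nat_lit 5) (.nd (nat_lit 6) (.nd (nat_lit 7) (.nd (nat_lit 8) 
(.nd (nat_lit 9) 
(.lf (nat_lit 447496) (.g (nat_lit 5578) (.e (nat_lit 375) (nat_lit 32) (.e (nat_lit 426125) (nat_lit 2) (.e (nat_lit 196666) (nat_lit 13) (.e (nat_lit 65610) (nat_lit 10) (.e (nat_lit 344129) (nat_lit 26) (.e (nat_lit 557089) (nat_lit 12) (.e (nat_lit 164023) (nat_lit 46) (.e (nat_lit 704626) (nat_lit 9) .nil)))))))) (.g (nat_lit 1) (.e (nat_lit 2191) (nat_lit 0) .nil) .nil))) 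
(.lf (nat_lit 448008) (.g (nat_lit 3743) (.e (nat_lit 414) (nat_lit 32) (.e (nat_lit 426125) (nat_lit 2) (.e (nat_lit 196666) (nat_lit 13) (.e (nat_lit 65617) (nat_lit 10) (.e (nat_lit 344133) (nat_lit 26) .nil))))) (.g (nat_lit 0) (.e (nat_lit 4551) (nat_lit 0) .nil) .nil)))) (.nd (nat_lit 9) 
(.lf (nat_lit 447752) (.g (nat_lit 3812) (.e (nat_lit 396) (nat_lit 32) (.e (nat_lit 426123) (nat_lit 2) (.e (nat_lit 196666) (nat_lit 13) (.e (nat_lit 65610) (nat_lit 10) (.e (nat_lit 344129) (nat_lit 26) (.e (nat_lit 557074) (nat_lit 9) (.e (nat_lit 2742) (nat_lit 174) (.e (nat_lit 253959) (nat_lit 9) .nil)))))))) (.g (nat_lit 1) (.e (nat_lit 3458) (nat_lit 0) .nil) .nil))) 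
(.lf (nat_lit 448264) (.g (nat_lit 3207) (.e (nat_lit 427) (nat_lit 32) (.e (nat_lit 426316) (nat_lit 12) (.e (nat_lit 475185) (nat_lit 29) (.e (nat_lit 557101) (nat_lit 13) .nil)))) (.g (nat_lit 0) (.e (nat_lit 5436) (nat_lit 0) .nil) .nil))))) (.nd (nat_lit 8) (.nd (nat_lit 9) 
(.lf (nat_lit 447624) (.g (nat_lit 2415) (.e (nat_lit 375) (nat_lit 32) (.e (nat_lit 426317) (nat_lit 12) (.e (nat_lit 475184) (nat_lit 29) (.e (nat_lit 557098) (nat_lit 13) (.e (nat_lit 172115) (nat_lit 10) (.e (nat_lit 434244) (nat_lit 28) (.e (nat_lit 573450) (nat_lit 9) .nil))))))) (.g (nat_lit 1) (.e (nat_lit 2903) (nat_lit 0) .nil) .nil))) 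
(.lf (nat_lit 448136) (.g (nat_lit 1362) (.e (nat_lit 439) (nat_lit 32) (.e (nat_lit 426523) (nat_lit 27) (.e (nat_lit 336076) (nat_lit 9) (.e (nat_lit 336320) (nat_lit 17) (.e (nat_lit 196698) (nat_lit 19) (.e (nat_lit 57810) (nat_lit 246) (.e (nat_lit 57879) (nat_lit 270) .nil))))))) (.g (nat_lit 1) (.e (nat_lit 4857) (nat_lit 0) .nil) .nil)))) (.nd (nat_lit 9) 
(.lf (nat_lit 447880) (.g (nat_lit 2129) (.e (nat_lit 399) (nat_lit 32) (.e (nat_lit 426190) (nat_lit 9) (.e (nat_lit 426566) (nat_lit 34) (.e (nat_lit 393253) (nat_lit 18) (.e (nat_lit 164327) (nat_lit 230) (.e (nat_lit 163868) (nat_lit 2) (.e (nat_lit 196624) (nat_lit 9) .nil))))))) (.g (nat_lit 1) (.e (nat_lit 4211) (nat_lit 0) .nil) .nil))) 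
(.lf (nat_lit 448392) (.g (nat_lit 4490) (.e (nat_lit 430) (nat_lit 32) (.e (nat_lit 426308) (nat_lit 12) (.e (nat_lit 475183) (nat_lit 29) (.e (nat_lit 557100) (nat_lit 13) (.e (nat_lit 172113) (nat_lit 10) (.e (nat_lit 434248) (nat_lit 28) (.e (nat_lit 573452) (nat_lit 9) .nil))))))) (.g (nat_lit 1) (.e (nat_lit 5791) (nat_lit 0) .nil) .nil)))))) 
(.nd (nat_lit 7) (.nd (nat_lit 8) (.nd (nat_lit 9) 
(.lf (nat_lit 447560) (.g (nat_lit 5014) (.e (nat_lit 375) (nat_lit 32) (.e (nat_lit 426125) (nat_lit 2) (.e (nat_lit 196666) (nat_lit 13) (.e (nat_lit 65617) (nat_lit 10) (.e (nat_lit 344132) (nat_lit 26) (.e (nat_lit 557093) (nat_lit 12) (.e (nat_lit 164023) (nat_lit 46) (.e (nat_lit 704626) (nat_lit 9) .nil)))))))) (.g (nat_lit 1) (.e (nat_lit 2267) (nat_lit 0) .nil) .nil))) 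
(.lf (nat_lit 448072) (.g (nat_lit 4706) (.e (nat_lit 411) (nat_lit 32) (.e (nat_lit 426340) (nat_lit 14) (.e (nat_lit 491540) (nat_lit 3) (.e (nat_lit 98373) (nat_lit 29) (.e (nat_lit 450587) (nat_lit 10) (.e (nat_lit 573448) (nat_lit 9) .nil)))))) (.g (nat_lit 1) (.e (nat_lit 4678) (nat_lit 0) .nil) .nil)))) (.nd (nat_lit 9) 
(.lf (nat_lit 447816) (.g (nat_lit 4848) (.e (nat_lit 396) (nat_lit 32) (.e (nat_lit 426343) (nat_lit 14) (.e (nat_lit 491537) (nat_lit 2) (.e (nat_lit 90170) (nat_lit 13) (.e (nat_lit 172106) (nat_lit 10) (.e (nat_lit 434244) (nat_lit 28) (.e (nat_lit 573451) (nat_lit 9) .nil))))))) (.g (nat_lit 1) (.e (nat_lit 3737) (nat_lit 0) .nil) .nil))) 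
(.lf (nat_lit 448328) (.g (nat_lit 3394) (.e (nat_lit 430) (nat_lit 32) (.e (nat_lit 426012) (nat_lit 0) (.e (nat_lit 7583) (nat_lit 405) (.e (nat_lit 57464) (nat_lit 23) (.e (nat_lit 516166) (nat_lit 12) (.e (nat_lit 450588) (nat_lit 10) (.e (nat_lit 573452) (nat_lit 9) .nil))))))) (.g (nat_lit 1) (.e (nat_lit 5568) (nat_lit 0) .nil) .nil))))) (.nd (nat_lit 8) (.nd (nat_lit 9) 
(.lf (nat_lit 447688) (.g (nat_lit 2084) (.e (nat_lit 391) (nat_lit 32) (.e (nat_lit 426190) (nat_lit 9) (.e (nat_lit 426566) (nat_lit 34) (.e (nat_lit 393251) (nat_lit 18) (.e (nat_lit 164325) (nat_lit 230) (.e (nat_lit 163868) (nat_lit 2) (.e (nat_lit 196624) (nat_lit 9) .nil))))))) (.g (nat_lit 1) (.e (nat_lit 3087) (nat_lit 0) .nil) .nil))) 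
(.lf (nat_lit 448200) (.g (nat_lit 2189) (.e (nat_lit 426) (nat_lit 32) (.e (nat_lit 426188) (nat_lit 9) (.e (nat_lit 426360) (nat_lit 15) (.e (nat_lit 1858) (nat_lit 124) (.e (nat_lit 557101) (nat_lit 13) (.e (nat_lit 172115) (nat_lit 10) (.e (nat_lit 434244) (nat_lit 28) (.e (nat_lit 573458) (nat_lit 9) .nil)))))))) (.g (nat_lit 1) (.e (nat_lit 5216) (nat_lit 0) .nil) .nil)))) (.nd (nat_lit 9) 
(.lf (nat_lit 447944) (.g (nat_lit 2244) (.e (nat_lit 401) (nat_lit 32) (.e (nat_lit 426340) (nat_lit 14) (.e (nat_lit 491570) (nat_lit 13) (.e (nat_lit 393260) (nat_lit 21) (.e (nat_lit 409623) (nat_lit 10) (.e (nat_lit 5293) (nat_lit 298) .nil)))))) (.g (nat_lit 1) (.e (nat_lit 4387) (nat_lit 0) .nil) .nil))) 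
(.lf (nat_lit 448456) (.g (nat_lit 4008) (.e (nat_lit 430) (nat_lit 32) (.e (nat_lit 426342) (nat_lit 14) (.e (nat_lit 491544) (nat_lit 7) (.e (nat_lit 319533) (nat_lit 16) (.e (nat_lit 286753) (nat_lit 10) (.e (nat_lit 344160) (nat_lit 37) (.e (nat_lit 647190) (nat_lit 9) .nil))))))) (.g (nat_lit 1) (.e (nat_lit 5951) (nat_lit 0) .nil) .nil))))))) 
(.nd (nat_lit 6) (.nd (nat_lit 7) (.nd (nat_lit 8) (.nd (nat_lit 9) 
(.lf (nat_lit 447528) (.g (nat_lit 3103) (.e (nat_lit 375) (nat_lit 32) (.e (nat_lit 426125) (nat_lit 2) (.e (nat_lit 196666) (nat_lit 13) (.e (nat_lit 65610) (nat_lit 10) (.e (nat_lit 344131) (nat_lit 26) (.e (nat_lit 557093) (nat_lit 12) (.e (nat_lit 164023) (nat_lit 46) (.e (nat_lit 704627) (nat_lit 9) .nil)))))))) (.g (nat_lit 1) (.e (nat_lit 2226) (nat_lit 0) .nil) .nil))) 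
(.lf (nat_lit 448040) (.g (nat_lit 5713) (.e (nat_lit 411) (nat_lit 32) (.e (nat_lit 426125) (nat_lit 2) (.e (nat_lit 196666) (nat_lit 13) (.e (nat_lit 65617) (nat_lit 10) (.e (nat_lit 344132) (nat_lit 26) (.e (nat_lit 557094) (nat_lit 12) (.e (nat_lit 164022) (nat_lit 46) (.e (nat_lit 704629) (nat_lit 9) .nil)))))))) (.g (nat_lit 1) (.e (nat_lit 4612) (nat_lit 0) .nil) .nil)))) (.nd (nat_lit 9) 
(.lf (nat_lit 447784) (.g (nat_lit 4270) (.e (nat_lit 396) (nat_lit 32) (.e (nat_lit 426308) (nat_lit 12) (.e (nat_lit 475183) (nat_lit 29) (.e (nat_lit 557101) (nat_lit 13) (.e (nat_lit 172115) (nat_lit 10) (.e (nat_lit 434244) (nat_lit 28) (.e (nat_lit 573449) (nat_lit 9) .nil))))))) (.g (nat_lit 1) (.e (nat_lit 3544) (nat_lit 0) .nil) .nil))) 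
(.lf (nat_lit 448296) (.g (nat_lit 2439) (.e (nat_lit 430) (nat_lit 32) (.e (nat_lit 426011) (nat_lit 0) (.e (nat_lit 7490) (nat_lit 402) (.e (nat_lit 1239) (nat_lit 91) (.e (nat_lit 90170) (nat_lit 13) (.e (nat_lit 172113) (nat_lit 10) (.e (nat_lit 434242) (nat_lit 28) (.e (nat_lit 573456) (nat_lit 9) .nil)))))))) (.g (nat_lit 1) (.e (nat_lit 5536) (nat_lit 0) .nil) .nil))))) 
(.nd (nat_lit 8) (.nd (nat_lit 9) 
(.lf (nat_lit 447656) (.g (nat_lit 2083) (.e (nat_lit 388) (nat_lit 32) (.e (nat_lit 426190) (nat_lit 9) (.e (nat_lit 426566) (nat_lit 34) (.e (nat_lit 393251) (nat_lit 18) (.e (nat_lit 164325) (nat_lit 230) .nil))))) (.g (nat_lit 0) (.e (nat_lit 3003) (nat_lit 0) .nil) .nil))) 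
(.lf (nat_lit 448168) (.g (nat_lit 2404) (.e (nat_lit 416) (nat_lit 32) (.e (nat_lit 426190) (nat_lit 9) (.e (nat_lit 426566) (nat_lit 34) (.e (nat_lit 393253) (nat_lit 18) (.e (nat_lit 164327) (nat_lit 230) (.e (nat_lit 163868) (nat_lit 2) (.e (nat_lit 196624) (nat_lit 9) .nil))))))) (.g (nat_lit 1) (.e (nat_lit 4937) (nat_lit 0) .nil) .nil)))) (.nd (nat_lit 9) 
(.lf (nat_lit 447912) (.g (nat_lit 3095) (.e (nat_lit 398) (nat_lit 32) (.e (nat_lit 426123) (nat_lit 2) (.e (nat_lit 196666) (nat_lit 13) (.e (nat_lit 65617) (nat_lit 10) (.e (nat_lit 344132) (nat_lit 26) .nil))))) (.g (nat_lit 0) (.e (nat_lit 4294) (nat_lit 0) .nil) .nil))) 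
(.lf (nat_lit 448424) (.g (nat_lit 3096) (.e (nat_lit 430) (nat_lit 32) (.e (nat_lit 426316) (nat_lit 12) (.e (nat_lit 475185) (nat_lit 29) (.e (nat_lit 557100) (nat_lit 13) .nil)))) (.g (nat_lit 0) (.e (nat_lit 5823) (nat_lit 0) .nil) .nil)))))) (.nd (nat_lit 7) (.nd (nat_lit 8) (.nd (nat_lit 9) 
(.lf (nat_lit 447592) (.g (nat_lit 1311) (.e (nat_lit 375) (nat_lit 32) (.e (nat_lit 426140) (nat_lit 3) (.e (nat_lit 204869) (nat_lit 29) (.e (nat_lit 360473) (nat_lit 8) .nil)))) (.g (nat_lit 0) (.e (nat_lit 2307) (nat_lit 0) .nil) .nil))) 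
(.lf (nat_lit 448104) (.g (nat_lit 3051) (.e (nat_lit 436) (nat_lit 32) (.e (nat_lit 426137) (nat_lit 3) (.e (nat_lit 204869) (nat_lit 29) (.e (nat_lit 360474) (nat_lit 8) (.e (nat_lit 557094) (nat_lit 12) (.e (nat_lit 164022) (nat_lit 46) (.e (nat_lit 704628) (nat_lit 9) .nil))))))) (.g (nat_lit 1) (.e (nat_lit 4728) (nat_lit 0) .nil) .nil)))) (.nd (nat_lit 9) 
(.lf (nat_lit 447848) (.g (nat_lit 1338) (.e (nat_lit 395) (nat_lit 32) (.e (nat_lit 426188) (nat_lit 9) (.e (nat_lit 426566) (nat_lit 34) (.e (nat_lit 393254) (nat_lit 18) (.e (nat_lit 164326) (nat_lit 230) .nil))))) (.g (nat_lit 0) (.e (nat_lit 4124) (nat_lit 0) .nil) .nil))) 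
(.lf (nat_lit 448360) (.g (nat_lit 928) (.e (nat_lit 430) (nat_lit 32) (.e (nat_lit 426199) (nat_lit 9) (.e (nat_lit 426131) (nat_lit 3) (.e (nat_lit 204885) (nat_lit 33) .nil)))) (.g (nat_lit 0) (.e (nat_lit 5714) (nat_lit 0) .nil) .nil))))) (.nd (nat_lit 8) (.nd (nat_lit 9) 
(.lf (nat_lit 447720) (.g (nat_lit 2330) (.e (nat_lit 392) (nat_lit 32) (.e (nat_lit 426316) (nat_lit 12) (.e (nat_lit 475185) (nat_lit 29) (.e (nat_lit 557107) (nat_lit 15) (.e (nat_lit 188440) (nat_lit 20) (.e (nat_lit 3307) (nat_lit 202) (.e (nat_lit 573464) (nat_lit 9) .nil))))))) (.g (nat_lit 1) (.e (nat_lit 3342) (nat_lit 0) .nil) .nil))) 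
(.lf (nat_lit 448232) (.g (nat_lit 4849) (.e (nat_lit 426) (nat_lit 32) (.e (nat_lit 426316) (nat_lit 12) (.e (nat_lit 475183) (nat_lit 29) (.e (nat_lit 557098) (nat_lit 13) (.e (nat_lit 172115) (nat_lit 10) (.e (nat_lit 434244) (nat_lit 28) (.e (nat_lit 573458) (nat_lit 9) .nil))))))) (.g (nat_lit 1) (.e (nat_lit 5280) (nat_lit 0) .nil) .nil)))) (.nd (nat_lit 9) 
(.lf (nat_lit 447976) (.g (nat_lit 1953) (.e (nat_lit 403) (nat_lit 32) (.e (nat_lit 426340) (nat_lit 14) (.e (nat_lit 491571) (nat_lit 13) (.e (nat_lit 393238) (nat_lit 17) (.e (nat_lit 7107) (nat_lit 380) .nil))))) (.g (nat_lit 0) (.e (nat_lit 4454) (nat_lit 0) .nil) .nil))) 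
(.lf (nat_lit 448488) (.g (nat_lit 3598) (.e (nat_lit 430) (nat_lit 32) (.e (nat_lit 426343) (nat_lit 14) (.e (nat_lit 491538) (nat_lit 3) (.e (nat_lit 98373) (nat_lit 29) (.e (nat_lit 450588) (nat_lit 10) (.e (nat_lit 573452) (nat_lit 9) .nil)))))) (.g (nat_lit 1) (.e (nat_lit 5984) (nat_lit 0) .nil) .nil)))))))) 
(.nd (nat_lit 5) (.nd (nat_lit 6) (.nd (nat_lit 7) (.nd (nat_lit 8) (.nd (nat_lit 9) 
(.lf (nat_lit 447512) (.g (nat_lit 4651) (.e (nat_lit 375) (nat_lit 32) (.e (nat_lit 426125) (nat_lit 2) (.e (nat_lit 196666) (nat_lit 13) (.e (nat_lit 65610) (nat_lit 10) (.e (nat_lit 344129) (nat_lit 26) (.e (nat_lit 557093) (nat_lit 12) (.e (nat_lit 164023) (nat_lit 46) (.e (nat_lit 704628) (nat_lit 9) .nil)))))))) (.g (nat_lit 1) (.e (nat_lit 2208) (nat_lit 0) .nil) .nil))) 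
(.lf (nat_lit 448024) (.g (nat_lit 3125) (.e (nat_lit 411) (nat_lit 32) (.e (nat_lit 426125) (nat_lit 2) (.e (nat_lit 196666) (nat_lit 13) (.e (nat_lit 65610) (nat_lit 10) (.e (nat_lit 344127) (nat_lit 26) .nil))))) (.g (nat_lit 0) (.e (nat_lit 4596) (nat_lit 0) .nil) .nil)))) (.nd (nat_lit 9) 
(.lf (nat_lit 447768) (.g (nat_lit 2866) (.e (nat_lit 396) (nat_lit 32) (.e (nat_lit 426139) (nat_lit 3) (.e (nat_lit 204869) (nat_lit 29) (.e (nat_lit 360474) (nat_lit 8) (.e (nat_lit 557093) (nat_lit 12) (.e (nat_lit 164023) (nat_lit 46) (.e (nat_lit 704646) (nat_lit 9) .nil))))))) (.g (nat_lit 1) (.e (nat_lit 3512) (nat_lit 0) .nil) .nil))) 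
(.lf (nat_lit 448280) (.g (nat_lit 2468) (.e (nat_lit 425) (nat_lit 32) (.e (nat_lit 426344) (nat_lit 14) (.e (nat_lit 491544) (nat_lit 7) (.e (nat_lit 319533) (nat_lit 16) (.e (nat_lit 286753) (nat_lit 10) .nil))))) (.g (nat_lit 0) (.e (nat_lit 5516) (nat_lit 0) .nil) .nil))))) (.nd (nat_lit 8) (.nd (nat_lit 9) 
(.lf (nat_lit 447640) (.g (nat_lit 2611) (.e (nat_lit 379) (nat_lit 32) (.e (nat_lit 426568) (nat_lit 34) (.e (nat_lit 393260) (nat_lit 21) (.e (nat_lit 409616) (nat_lit 10) .nil)))) (.g (nat_lit 0) (.e (nat_lit 2969) (nat_lit 0) .nil) .nil))) 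
(.lf (nat_lit 448152) (.g (nat_lit 4117) (.e (nat_lit 416) (nat_lit 32) (.e (nat_lit 426121) (nat_lit 2) (.e (nat_lit 196666) (nat_lit 13) (.e (nat_lit 65617) (nat_lit 10) (.e (nat_lit 344132) (nat_lit 26) (.e (nat_lit 557093) (nat_lit 12) (.e (nat_lit 164022) (nat_lit 46) (.e (nat_lit 704628) (nat_lit 9) .nil)))))))) (.g (nat_lit 1) (.e (nat_lit 4908) (nat_lit 0) .nil) .nil)))) (.nd (nat_lit 9) 
(.lf (nat_lit 447896) (.g (nat_lit 4011) (.e (nat_lit 397) (nat_lit 32) (.e (nat_lit 426316) (nat_lit 12) (.e (nat_lit 475185) (nat_lit 29) (.e (nat_lit 557100) (nat_lit 13) (.e (nat_lit 172113) (nat_lit 10) .nil))))) (.g (nat_lit 0) (.e (nat_lit 4262) (nat_lit 0) .nil) .nil))) 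
(.lf (nat_lit 448408) (.g (nat_lit 4265) (.e (nat_lit 430) (nat_lit 32) (.e (nat_lit 426308) (nat_lit 12) (.e (nat_lit 475185) (nat_lit 29) (.e (nat_lit 557100) (nat_lit 13) (.e (nat_lit 172113) (nat_lit 10) (.e (nat_lit 434245) (nat_lit 28) (.e (nat_lit 573451) (nat_lit 9) .nil))))))) (.g (nat_lit 1) (.e (nat_lit 5807) (nat_lit 0) .nil) .nil)))))) 
(.nd (nat_lit 7) (.nd (nat_lit 8) (.nd (nat_lit 9) 
(.lf (nat_lit 447576) (.g (nat_lit 5279) (.e (nat_lit 375) (nat_lit 32) (.e (nat_lit 426135) (nat_lit 3) (.e (nat_lit 204869) (nat_lit 29) (.e (nat_lit 360474) (nat_lit 8) (.e (nat_lit 557093) (nat_lit 12) (.e (nat_lit 164022) (nat_lit 46) (.e (nat_lit 704629) (nat_lit 9) .nil))))))) (.g (nat_lit 1) (.e (nat_lit 2288) (nat_lit 0) .nil) .nil))) 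
(.lf (nat_lit 448088) (.g (nat_lit 2451) (.e (nat_lit 436) (nat_lit 32) (.e (nat_lit 426121) (nat_lit 2) (.e (nat_lit 196666) (nat_lit 13) (.e (nat_lit 65617) (nat_lit 10) (.e (nat_lit 344132) (nat_lit 26) (.e (nat_lit 557094) (nat_lit 12) (.e (nat_lit 164022) (nat_lit 46) (.e (nat_lit 704626) (nat_lit 9) .nil)))))))) (.g (nat_lit 1) (.e (nat_lit 4704) (nat_lit 0) .nil) .nil)))) (.nd (nat_lit 9) 
(.lf (nat_lit 447832) (.g (nat_lit 2487) (.e (nat_lit 394) (nat_lit 32) (.e (nat_lit 426315) (nat_lit 12) (.e (nat_lit 475185) (nat_lit 29) (.e (nat_lit 557100) (nat_lit 13) (.e (nat_lit 172113) (nat_lit 10) .nil))))) (.g (nat_lit 0) (.e (nat_lit 3962) (nat_lit 0) .nil) .nil))) 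
(.lf (nat_lit 448344) (.g (nat_lit 1624) (.e (nat_lit 430) (nat_lit 32) (.e (nat_lit 426190) (nat_lit 9) (.e (nat_lit 426131) (nat_lit 3) (.e (nat_lit 204885) (nat_lit 33) (.e (nat_lit 401448) (nat_lit 10) .nil))))) (.g (nat_lit 0) (.e (nat_lit 5694) (nat_lit 0) .nil) .nil))))) (.nd (nat_lit 8) (.nd (nat_lit 9) 
(.lf (nat_lit 447704) (.g (nat_lit 2069) (.e (nat_lit 392) (nat_lit 32) (.e (nat_lit 426316) (nat_lit 12) (.e (nat_lit 475185) (nat_lit 29) (.e (nat_lit 557098) (nat_lit 13) .nil)))) (.g (nat_lit 0) (.e (nat_lit 3326) (nat_lit 0) .nil) .nil))) 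
(.lf (nat_lit 448216) (.g (nat_lit 4804) (.e (nat_lit 426) (nat_lit 32) (.e (nat_lit 426306) (nat_lit 12) (.e (nat_lit 475184) (nat_lit 29) (.e (nat_lit 557101) (nat_lit 13) (.e (nat_lit 172115) (nat_lit 10) (.e (nat_lit 434244) (nat_lit 28) (.e (nat_lit 573458) (nat_lit 9) .nil))))))) (.g (nat_lit 1) (.e (nat_lit 5263) (nat_lit 0) .nil) .nil)))) (.nd (nat_lit 9) 
(.lf (nat_lit 447960) (.g (nat_lit 1604) (.e (nat_lit 403) (nat_lit 32) (.e (nat_lit 426339) (nat_lit 14) (.e (nat_lit 491571) (nat_lit 13) (.e (nat_lit 393242) (nat_lit 17) (.e (nat_lit 7095) (nat_lit 380) .nil))))) (.g (nat_lit 0) (.e (nat_lit 4434) (nat_lit 0) .nil) .nil))) 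
(.lf (nat_lit 448472) (.g (nat_lit 1870) (.e (nat_lit 430) (nat_lit 32) (.e (nat_lit 426343) (nat_lit 14) (.e (nat_lit 491536) (nat_lit 2) (.e (nat_lit 90170) (nat_lit 13) (.e (nat_lit 172113) (nat_lit 10) (.e (nat_lit 434242) (nat_lit 28) (.e (nat_lit 573456) (nat_lit 9) .nil))))))) (.g (nat_lit 1) (.e (nat_lit 5968) (nat_lit 0) .nil) .nil))))))) 
(.nd (nat_lit 6) (.nd (nat_lit 7) (.nd (nat_lit 8) (.nd (nat_lit 9) 
(.lf (nat_lit 447544) (.g (nat_lit 5167) (.e (nat_lit 375) (nat_lit 32) (.e (nat_lit 426125) (nat_lit 2) (.e (nat_lit 196666) (nat_lit 13) (.e (nat_lit 65610) (nat_lit 10) (.e (nat_lit 344133) (nat_lit 26) (.e (nat_lit 557091) (nat_lit 12) (.e (nat_lit 164022) (nat_lit 46) (.e (nat_lit 704626) (nat_lit 9) .nil)))))))) (.g (nat_lit 1) (.e (nat_lit 2242) (nat_lit 0) .nil) .nil))) 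
(.lf (nat_lit 448056) (.g (nat_lit 2310) (.e (nat_lit 411) (nat_lit 32) (.e (nat_lit 426140) (nat_lit 3) (.e (nat_lit 204869) (nat_lit 29) (.e (nat_lit 360473) (nat_lit 8) (.e (nat_lit 557091) (nat_lit 12) .nil))))) (.g (nat_lit 0) (.e (nat_lit 4637) (nat_lit 0) .nil) .nil)))) (.nd (nat_lit 9) 
(.lf (nat_lit 447800) (.g (nat_lit 4706) (.e (nat_lit 396) (nat_lit 32) (.e (nat_lit 426316) (nat_lit 12) (.e (nat_lit 475185) (nat_lit 29) (.e (nat_lit 557101) (nat_lit 13) (.e (nat_lit 172115) (nat_lit 10) (.e (nat_lit 434244) (nat_lit 28) (.e (nat_lit 573449) (nat_lit 9) .nil))))))) (.g (nat_lit 1) (.e (nat_lit 3563) (nat_lit 0) .nil) .nil))) 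
(.lf (nat_lit 448312) (.g (nat_lit 2128) (.e (nat_lit 430) (nat_lit 32) (.e (nat_lit 426011) (nat_lit 0) (.e (nat_lit 7548) (nat_lit 402) (.e (nat_lit 1235) (nat_lit 91) (.e (nat_lit 90170) (nat_lit 13) (.e (nat_lit 172113) (nat_lit 10) (.e (nat_lit 434248) (nat_lit 28) (.e (nat_lit 573452) (nat_lit 9) .nil)))))))) (.g (nat_lit 1) (.e (nat_lit 5552) (nat_lit 0) .nil) .nil))))) 
(.nd (nat_lit 8) (.nd (nat_lit 9) 
(.lf (nat_lit 447672) (.g (nat_lit 2580) (.e (nat_lit 389) (nat_lit 32) (.e (nat_lit 426190) (nat_lit 9) (.e (nat_lit 426566) (nat_lit 34) (.e (nat_lit 393253) (nat_lit 18) (.e (nat_lit 164325) (nat_lit 230) (.e (nat_lit 163871) (nat_lit 2) (.e (nat_lit 196624) (nat_lit 9) .nil))))))) (.g (nat_lit 1) (.e (nat_lit 3050) (nat_lit 0) .nil) .nil))) 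
(.lf (nat_lit 448184) (.g (nat_lit 3645) (.e (nat_lit 422) (nat_lit 32) (.e (nat_lit 426198) (nat_lit 9) (.e (nat_lit 426402) (nat_lit 15) (.e (nat_lit 1859) (nat_lit 124) (.e (nat_lit 557098) (nat_lit 13) (.e (nat_lit 172115) (nat_lit 10) (.e (nat_lit 434244) (nat_lit 28) (.e (nat_lit 573458) (nat_lit 9) .nil)))))))) (.g (nat_lit 1) (.e (nat_lit 5008) (nat_lit 0) .nil) .nil)))) (.nd (nat_lit 9) 
(.lf (nat_lit 447928) (.g (nat_lit 1880) (.e (nat_lit 401) (nat_lit 32) (.e (nat_lit 426339) (nat_lit 14) (.e (nat_lit 491570) (nat_lit 13) (.e (nat_lit 393238) (nat_lit 17) (.e (nat_lit 7107) (nat_lit 380) .nil))))) (.g (nat_lit 0) (.e (nat_lit 4363) (nat_lit 0) .nil) .nil))) 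
(.lf (nat_lit 448440) (.g (nat_lit 4074) (.e (nat_lit 430) (nat_lit 32) (.e (nat_lit 426342) (nat_lit 14) (.e (nat_lit 491537) (nat_lit 2) (.e (nat_lit 90170) (nat_lit 13) (.e (nat_lit 172113) (nat_lit 10) (.e (nat_lit 434245) (nat_lit 28) (.e (nat_lit 573451) (nat_lit 9) .nil))))))) (.g (nat_lit 1) (.e (nat_lit 5935) (nat_lit 0) .nil) .nil)))))) (.nd (nat_lit 7) (.nd (nat_lit 8) (.nd (nat_lit 9) 
(.lf (nat_lit 447608) (.g (nat_lit 202) (.e (nat_lit 375) (nat_lit 32) (.e (nat_lit 426173) (nat_lit 7) (.e (nat_lit 409617) (nat_lit 10) .nil))) (.g (nat_lit 0) (.e (nat_lit 2326) (nat_lit 0) .nil) .nil))) 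
(.lf (nat_lit 448120) (.g (nat_lit 3189) (.e (nat_lit 436) (nat_lit 32) (.e (nat_lit 426316) (nat_lit 12) (.e (nat_lit 475185) (nat_lit 29) (.e (nat_lit 557100) (nat_lit 13) .nil)))) (.g (nat_lit 0) (.e (nat_lit 4756) (nat_lit 0) .nil) .nil)))) (.nd (nat_lit 9) 
(.lf (nat_lit 447864) (.g (nat_lit 4187) (.e (nat_lit 395) (nat_lit 32) (.e (nat_lit 426316) (nat_lit 12) (.e (nat_lit 475185) (nat_lit 29) (.e (nat_lit 557107) (nat_lit 15) (.e (nat_lit 188440) (nat_lit 20) (.e (nat_lit 3307) (nat_lit 202) (.e (nat_lit 573453) (nat_lit 9) .nil))))))) (.g (nat_lit 1) (.e (nat_lit 4149) (nat_lit 0) .nil) .nil))) 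
(.lf (nat_lit 448376) (.g (nat_lit 2402) (.e (nat_lit 430) (nat_lit 32) (.e (nat_lit 426305) (nat_lit 12) (.e (nat_lit 475185) (nat_lit 29) (.e (nat_lit 557100) (nat_lit 13) (.e (nat_lit 172113) (nat_lit 10) (.e (nat_lit 434247) (nat_lit 28) (.e (nat_lit 573456) (nat_lit 9) .nil))))))) (.g (nat_lit 1) (.e (nat_lit 5774) (nat_lit 0) .nil) .nil))))) (.nd (nat_lit 8) (.nd (nat_lit 9) 
(.lf (nat_lit 447736) (.g (nat_lit 2665) (.e (nat_lit 396) (nat_lit 32) (.e (nat_lit 426011) (nat_lit 0) (.e (nat_lit 7581) (nat_lit 405) (.e (nat_lit 57464) (nat_lit 23) (.e (nat_lit 516151) (nat_lit 9) (.e (nat_lit 426286) (nat_lit 10) (.e (nat_lit 434248) (nat_lit 28) (.e (nat_lit 573452) (nat_lit 9) .nil)))))))) (.g (nat_lit 1) (.e (nat_lit 3441) (nat_lit 0) .nil) .nil))) 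
(.lf (nat_lit 448248) (.g (nat_lit 3781) (.e (nat_lit 426) (nat_lit 32) (.e (nat_lit 426338) (nat_lit 14) (.e (nat_lit 491537) (nat_lit 2) (.e (nat_lit 90170) (nat_lit 13) (.e (nat_lit 172113) (nat_lit 10) (.e (nat_lit 434245) (nat_lit 28) (.e (nat_lit 573458) (nat_lit 9) .nil))))))) (.g (nat_lit 1) (.e (nat_lit 5411) (nat_lit 0) .nil) .nil)))) (.nd (nat_lit 9) 
(.lf (nat_lit 447992) (.g (nat_lit 2241) (.e (nat_lit 404) (nat_lit 32) (.e (nat_lit 426340) (nat_lit 14) (.e (nat_lit 491549) (nat_lit 9) (.e (nat_lit 336421) (nat_lit 28) (.e (nat_lit 434198) (nat_lit 17) (.e (nat_lit 229647) (nat_lit 232) .nil)))))) (.g (nat_lit 1) (.e (nat_lit 4500) (nat_lit 0) .nil) .nil))) 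
(.lf (nat_lit 448504) (.g (nat_lit 2788) (.e (nat_lit 430) (nat_lit 32) (.e (nat_lit 426343) (nat_lit 14) (.e (nat_lit 491540) (nat_lit 3) (.e (nat_lit 98372) (nat_lit 29) (.e (nat_lit 450586) (nat_lit 10) (.e (nat_lit 573457) (nat_lit 9) .nil)))))) (.g (nat_lit 1) (.e (nat_lit 6000) (nat_lit 0) .nil) .nil)))))))))) 
(.nd (nat_lit 3) (.nd (nat_lit 4) (.nd (nat_lit 5) (.nd (nat_lit 6) (.nd (nat_lit 7) 
(.nd (nat_lit 8) (.nd (nat_lit 9) 
(.lf (nat_lit 447492) (.g (nat_lit 4555) (.e (nat_lit 375) (nat_lit 32) (.e (nat_lit 426125) (nat_lit 2) (.e (nat_lit 196666) (nat_lit 13) (.e (nat_lit 65610) (nat_lit 10) (.e (nat_lit 344129) (nat_lit 26) (.e (nat_lit 557088) (nat_lit 12) (.e (nat_lit 164023) (nat_lit 46) (.e (nat_lit 704626) (nat_lit 9) .nil)))))))) (.g (nat_lit 1) (.e (nat_lit 2187) (nat_lit 0) .nil) .nil))) 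
(.lf (nat_lit 448004) (.g (nat_lit 3243) (.e (nat_lit 402) (nat_lit 32) (.e (nat_lit 426340) (nat_lit 14) (.e (nat_lit 491571) (nat_lit 13) (.e (nat_lit 393260) (nat_lit 21) (.e (nat_lit 409616) (nat_lit 10) (.e (nat_lit 7936) (nat_lit 298) .nil)))))) (.g (nat_lit 1) (.e (nat_lit 4521) (nat_lit 0) .nil) .nil)))) (.nd (nat_lit 9) 
(.lf (nat_lit 447748) (.g (nat_lit 1754) (.e (nat_lit 396) (nat_lit 32) (.e (nat_lit 426122) (nat_lit 2) (.e (nat_lit 196666) (nat_lit 13) (.e (nat_lit 65617) (nat_lit 10) (.e (nat_lit 344133) (nat_lit 26) .nil))))) (.g (nat_lit 0) (.e (nat_lit 3454) (nat_lit 0) .nil) .nil))) 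
(.lf (nat_lit 448260) (.g (nat_lit 3280) (.e (nat_lit 426) (nat_lit 32) (.e (nat_lit 426343) (nat_lit 14) (.e (nat_lit 491570) (nat_lit 13) (.e (nat_lit 393260) (nat_lit 21) (.e (nat_lit 409616) (nat_lit 10) (.e (nat_lit 5345) (nat_lit 298) .nil)))))) (.g (nat_lit 1) (.e (nat_lit 5423) (nat_lit 0) .nil) .nil))))) (.nd (nat_lit 8) (.nd (nat_lit 9) 
(.lf (nat_lit 447620) (.g (nat_lit 2145) (.e (nat_lit 375) (nat_lit 32) (.e (nat_lit 426305) (nat_lit 12) (.e (nat_lit 475185) (nat_lit 29) (.e (nat_lit 557098) (nat_lit 13) .nil)))) (.g (nat_lit 0) (.e (nat_lit 2899) (nat_lit 0) .nil) .nil))) 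
(.lf (nat_lit 448132) (.g (nat_lit 2588) (.e (nat_lit 438) (nat_lit 32) (.e (nat_lit 426316) (nat_lit 12) (.e (nat_lit 475185) (nat_lit 29) (.e (nat_lit 557107) (nat_lit 15) (.e (nat_lit 188440) (nat_lit 20) .nil))))) (.g (nat_lit 0) (.e (nat_lit 4825) (nat_lit 0) .nil) .nil)))) (.nd (nat_lit 9) 
(.lf (nat_lit 447876) (.g (nat_lit 3961) (.e (nat_lit 399) (nat_lit 32) (.e (nat_lit 426123) (nat_lit 2) (.e (nat_lit 196666) (nat_lit 13) (.e (nat_lit 65617) (nat_lit 10) (.e (nat_lit 344132) (nat_lit 26) (.e (nat_lit 557094) (nat_lit 12) (.e (nat_lit 164022) (nat_lit 46) (.e (nat_lit 704628) (nat_lit 9) .nil)))))))) (.g (nat_lit 1) (.e (nat_lit 4199) (nat_lit 0) .nil) .nil))) 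
(.lf (nat_lit 448388) (.g (nat_lit 4585) (.e (nat_lit 430) (nat_lit 32) (.e (nat_lit 426308) (nat_lit 12) (.e (nat_lit 475183) (nat_lit 29) (.e (nat_lit 557098) (nat_lit 13) (.e (nat_lit 172115) (nat_lit 10) (.e (nat_lit 434244) (nat_lit 28) (.e (nat_lit 573449) (nat_lit 9) .nil))))))) (.g (nat_lit 1) (.e (nat_lit 5787) (nat_lit 0) .nil) .nil)))))) 
(.nd (nat_lit 7) (.nd (nat_lit 8) (.nd (nat_lit 9) 
(.lf (nat_lit 447556) (.g (nat_lit 2080) (.e (nat_lit 375) (nat_lit 32) (.e (nat_lit 426125) (nat_lit 2) (.e (nat_lit 196666) (nat_lit 13) (.e (nat_lit 65617) (nat_lit 10) (.e (nat_lit 344127) (nat_lit 26) (.e (nat_lit 557093) (nat_lit 12) (.e (nat_lit 164023) (nat_lit 46) (.e (nat_lit 704626) (nat_lit 9) .nil)))))))) (.g (nat_lit 1) (.e (nat_lit 2263) (nat_lit 0) .nil) .nil))) 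
(.lf (nat_lit 448068) (.g (nat_lit 3693) (.e (nat_lit 411) (nat_lit 32) (.e (nat_lit 426201) (nat_lit 9) (.e (nat_lit 426566) (nat_lit 34) (.e (nat_lit 393253) (nat_lit 18) (.e (nat_lit 164329) (nat_lit 230) .nil))))) (.g (nat_lit 0) (.e (nat_lit 4651) (nat_lit 0) .nil) .nil)))) (.nd (nat_lit 9) 
(.lf (nat_lit 447812) (.g (nat_lit 2393) (.e (nat_lit 396) (nat_lit 32) (.e (nat_lit 426343) (nat_lit 14) (.e (nat_lit 491535) (nat_lit 2) (.e (nat_lit 90170) (nat_lit 13) (.e (nat_lit 172113) (nat_lit 10) (.e (nat_lit 434245) (nat_lit 28) (.e (nat_lit 573451) (nat_lit 9) .nil))))))) (.g (nat_lit 1) (.e (nat_lit 3733) (nat_lit 0) .nil) .nil))) 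
(.lf (nat_lit 448324) (.g (nat_lit 3089) (.e (nat_lit 430) (nat_lit 32) (.e (nat_lit 426012) (nat_lit 0) (.e (nat_lit 7581) (nat_lit 405) (.e (nat_lit 57464) (nat_lit 23) (.e (nat_lit 516166) (nat_lit 12) (.e (nat_lit 450587) (nat_lit 10) (.e (nat_lit 573457) (nat_lit 9) .nil))))))) (.g (nat_lit 1) (.e (nat_lit 5564) (nat_lit 0) .nil) .nil))))) (.nd (nat_lit 8) (.nd (nat_lit 9) 
(.lf (nat_lit 447684) (.g (nat_lit 4430) (.e (nat_lit 391) (nat_lit 32) (.e (nat_lit 426123) (nat_lit 2) (.e (nat_lit 196666) (nat_lit 13) (.e (nat_lit 65617) (nat_lit 10) (.e (nat_lit 344132) (nat_lit 26) (.e (nat_lit 557094) (nat_lit 12) (.e (nat_lit 164022) (nat_lit 46) (.e (nat_lit 704628) (nat_lit 9) .nil)))))))) (.g (nat_lit 1) (.e (nat_lit 3076) (nat_lit 0) .nil) .nil))) 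
(.lf (nat_lit 448196) (.g (nat_lit 2714) (.e (nat_lit 426) (nat_lit 32) (.e (nat_lit 426011) (nat_lit 0) (.e (nat_lit 3544) (nat_lit 219) (.e (nat_lit 712753) (nat_lit 30) (.e (nat_lit 450586) (nat_lit 10) (.e (nat_lit 573475) (nat_lit 12) (.e (nat_lit 57507) (nat_lit 39) (.e (nat_lit 647195) (nat_lit 9) .nil)))))))) (.g (nat_lit 1) (.e (nat_lit 5057) (nat_lit 0) .nil) .nil)))) (.nd (nat_lit 9) 
(.lf (nat_lit 447940) (.g (nat_lit 1851) (.e (nat_lit 401) (nat_lit 32) (.e (nat_lit 426340) (nat_lit 14) (.e (nat_lit 491550) (nat_lit 9) (.e (nat_lit 336421) (nat_lit 28) (.e (nat_lit 434197) (nat_lit 16) (.e (nat_lit 164339) (nat_lit 232) .nil)))))) (.g (nat_lit 1) (.e (nat_lit 4382) (nat_lit 0) .nil) .nil))) 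
(.lf (nat_lit 448452) (.g (nat_lit 3627) (.e (nat_lit 430) (nat_lit 32) (.e (nat_lit 426342) (nat_lit 14) (.e (nat_lit 491540) (nat_lit 3) (.e (nat_lit 98373) (nat_lit 29) (.e (nat_lit 450587) (nat_lit 10) (.e (nat_lit 573452) (nat_lit 9) .nil)))))) (.g (nat_lit 1) (.e (nat_lit 5947) (nat_lit 0) .nil) .nil))))))) (.nd (nat_lit 6) (.nd (nat_lit 7) (.nd (nat_lit 8) (.nd (nat_lit 9) 
(.lf (nat_lit 447524) (.g (nat_lit 3972) (.e (nat_lit 375) (nat_lit 32) (.e (nat_lit 426125) (nat_lit 2) (.e (nat_lit 196666) (nat_lit 13) (.e (nat_lit 65610) (nat_lit 10) (.e (nat_lit 344131) (nat_lit 26) (.e (nat_lit 557093) (nat_lit 12) (.e (nat_lit 164022) (nat_lit 46) (.e (nat_lit 704626) (nat_lit 9) .nil)))))))) (.g (nat_lit 1) (.e (nat_lit 2222) (nat_lit 0) .nil) .nil))) 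
(.lf (nat_lit 448036) (.g (nat_lit 6156) (.e (nat_lit 411) (nat_lit 32) (.e (nat_lit 426125) (nat_lit 2) (.e (nat_lit 196666) (nat_lit 13) (.e (nat_lit 65617) (nat_lit 10) (.e (nat_lit 344132) (nat_lit 26) (.e (nat_lit 557093) (nat_lit 12) (.e (nat_lit 164022) (nat_lit 46) (.e (nat_lit 704629) (nat_lit 9) .nil)))))))) (.g (nat_lit 1) (.e (nat_lit 4608) (nat_lit 0) .nil) .nil)))) (.nd (nat_lit 9) 
(.lf (nat_lit 447780) (.g (nat_lit 2973) (.e (nat_lit 396) (nat_lit 32) (.e (nat_lit 426306) (nat_lit 12) (.e (nat_lit 475185) (nat_lit 29) (.e (nat_lit 557100) (nat_lit 13) (.e (nat_lit 172113) (nat_lit 10) .nil))))) (.g (nat_lit 0) (.e (nat_lit 3538) (nat_lit 0) .nil) .nil))) 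
(.lf (nat_lit 448292) (.g (nat_lit 3598) (.e (nat_lit 430) (nat_lit 32) (.e (nat_lit 426011) (nat_lit 0) (.e (nat_lit 7486) (nat_lit 402) (.e (nat_lit 1256) (nat_lit 92) (.e (nat_lit 98373) (nat_lit 29) (.e (nat_lit 450587) (nat_lit 10) (.e (nat_lit 573456) (nat_lit 9) .nil))))))) (.g (nat_lit 1) (.e (nat_lit 5532) (nat_lit 0) .nil) .nil))))) (.nd (nat_lit 8) (.nd (nat_lit 9) 
(.lf (nat_lit 447652) (.g (nat_lit 1814) (.e (nat_lit 387) (nat_lit 32) (.e (nat_lit 426190) (nat_lit 9) (.e (nat_lit 426566) (nat_lit 34) (.e (nat_lit 393253) (nat_lit 18) (.e (nat_lit 164327) (nat_lit 230) .nil))))) (.g (nat_lit 0) (.e (nat_lit 2993) (nat_lit 0) .nil) .nil))) 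
(.lf (nat_lit 448164) (.g (nat_lit 2057) (.e (nat_lit 416) (nat_lit 32) (.e (nat_lit 426190) (nat_lit 9) (.e (nat_lit 426566) (nat_lit 34) (.e (nat_lit 393251) (nat_lit 18) (.e (nat_lit 164325) (nat_lit 230) .nil))))) (.g (nat_lit 0) (.e (nat_lit 4933) (nat_lit 0) .nil) .nil)))) (.nd (nat_lit 9) 
(.lf (nat_lit 447908) (.g (nat_lit 2656) (.e (nat_lit 397) (nat_lit 32) (.e (nat_lit 426344) (nat_lit 14) (.e (nat_lit 491568) (nat_lit 13) (.e (nat_lit 393260) (nat_lit 21) (.e (nat_lit 409616) (nat_lit 10) (.e (nat_lit 7936) (nat_lit 298) .nil)))))) (.g (nat_lit 1) (.e (nat_lit 4290) (nat_lit 0) .nil) .nil))) 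
(.lf (nat_lit 448420) (.g (nat_lit 4098) (.e (nat_lit 430) (nat_lit 32) (.e (nat_lit 426315) (nat_lit 12) (.e (nat_lit 475185) (nat_lit 29) (.e (nat_lit 557100) (nat_lit 13) (.e (nat_lit 172113) (nat_lit 10) (.e (nat_lit 434247) (nat_lit 28) (.e (nat_lit 573457) (nat_lit 9) .nil))))))) (.g (nat_lit 1) (.e (nat_lit 5819) (nat_lit 0) .nil) .nil)))))) 
(.nd (nat_lit 7) (.nd (nat_lit 8) (.nd (nat_lit 9) 
(.lf (nat_lit 447588) (.g (nat_lit 4128) (.e (nat_lit 375) (nat_lit 32) (.e (nat_lit 426140) (nat_lit 3) (.e (nat_lit 204868) (nat_lit 29) (.e (nat_lit 360475) (nat_lit 8) (.e (nat_lit 557091) (nat_lit 12) (.e (nat_lit 164022) (nat_lit 46) (.e (nat_lit 704626) (nat_lit 9) .nil))))))) (.g (nat_lit 1) (.e (nat_lit 2303) (nat_lit 0) .nil) .nil))) 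
(.lf (nat_lit 448100) (.g (nat_lit 4057) (.e (nat_lit 436) (nat_lit 32) (.e (nat_lit 426123) (nat_lit 2) (.e (nat_lit 196666) (nat_lit 13) (.e (nat_lit 65617) (nat_lit 10) (.e (nat_lit 344132) (nat_lit 26) (.e (nat_lit 557094) (nat_lit 12) (.e (nat_lit 164022) (nat_lit 46) (.e (nat_lit 704629) (nat_lit 9) .nil)))))))) (.g (nat_lit 1) (.e (nat_lit 4718) (nat_lit 0) .nil) .nil)))) (.nd (nat_lit 9) 
(.lf (nat_lit 447844) (.g (nat_lit 1882) (.e (nat_lit 394) (nat_lit 32) (.e (nat_lit 426343) (nat_lit 14) (.e (nat_lit 491537) (nat_lit 2) (.e (nat_lit 90170) (nat_lit 13) .nil)))) (.g (nat_lit 0) (.e (nat_lit 4044) (nat_lit 0) .nil) .nil))) 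
(.lf (nat_lit 448356) (.g (nat_lit 2273) (.e (nat_lit 430) (nat_lit 32) (.e (nat_lit 426190) (nat_lit 9) (.e (nat_lit 426566) (nat_lit 34) (.e (nat_lit 393253) (nat_lit 18) (.e (nat_lit 164332) (nat_lit 230) (.e (nat_lit 163866) (nat_lit 2) (.e (nat_lit 196630) (nat_lit 9) .nil))))))) (.g (nat_lit 1) (.e (nat_lit 5708) (nat_lit 0) .nil) .nil))))) (.nd (nat_lit 8) (.nd (nat_lit 9) 
(.lf (nat_lit 447716) (.g (nat_lit 4216) (.e (nat_lit 392) (nat_lit 32) (.e (nat_lit 426316) (nat_lit 12) (.e (nat_lit 475185) (nat_lit 29) (.e (nat_lit 557107) (nat_lit 15) (.e (nat_lit 188440) (nat_lit 20) (.e (nat_lit 3307) (nat_lit 202) (.e (nat_lit 573460) (nat_lit 9) .nil))))))) (.g (nat_lit 1) (.e (nat_lit 3338) (nat_lit 0) .nil) .nil))) 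
(.lf (nat_lit 448228) (.g (nat_lit 3960) (.e (nat_lit 426) (nat_lit 32) (.e (nat_lit 426315) (nat_lit 12) (.e (nat_lit 475183) (nat_lit 29) (.e (nat_lit 557098) (nat_lit 13) (.e (nat_lit 172115) (nat_lit 10) (.e (nat_lit 434244) (nat_lit 28) (.e (nat_lit 573458) (nat_lit 9) .nil))))))) (.g (nat_lit 1) (.e (nat_lit 5275) (nat_lit 0) .nil) .nil)))) (.nd (nat_lit 9) 
(.lf (nat_lit 447972) (.g (nat_lit 2756) (.e (nat_lit 403) (nat_lit 32) (.e (nat_lit 426340) (nat_lit 14) (.e (nat_lit 491570) (nat_lit 13) (.e (nat_lit 393238) (nat_lit 17) (.e (nat_lit 7107) (nat_lit 380) (.e (nat_lit 164338) (nat_lit 232) .nil)))))) (.g (nat_lit 1) (.e (nat_lit 4450) (nat_lit 0) .nil) .nil))) 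
(.lf (nat_lit 448484) (.g (nat_lit 4637) (.e (nat_lit 430) (nat_lit 32) (.e (nat_lit 426343) (nat_lit 14) (.e (nat_lit 491537) (nat_lit 2) (.e (nat_lit 90170) (nat_lit 13) (.e (nat_lit 172113) (nat_lit 10) (.e (nat_lit 434248) (nat_lit 28) (.e (nat_lit 573452) (nat_lit 9) .nil))))))) (.g (nat_lit 1) (.e (nat_lit 5980) (nat_lit 0) .nil) .nil)))))))) 
(.nd (nat_lit 5) (.nd (nat_lit 6) (.nd (nat_lit 7) (.nd (nat_lit 8) (.nd (nat_lit 9) 
(.lf (nat_lit 447508) (.g (nat_lit 5475) (.e (nat_lit 375) (nat_lit 32) (.e (nat_lit 426125) (nat_lit 2) (.e (nat_lit 196666) (nat_lit 13) (.e (nat_lit 65610) (nat_lit 10) (.e (nat_lit 344129) (nat_lit 26) (.e (nat_lit 557092) (nat_lit 12) (.e (nat_lit 164023) (nat_lit 46) (.e (nat_lit 704629) (nat_lit 9) .nil)))))))) (.g (nat_lit 1) (.e (nat_lit 2204) (nat_lit 0) .nil) .nil))) 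
(.lf (nat_lit 448020) (.g (nat_lit 2264) (.e (nat_lit 410) (nat_lit 32) (.e (nat_lit 426340) (nat_lit 14) (.e (nat_lit 491571) (nat_lit 13) (.e (nat_lit 393260) (nat_lit 21) (.e (nat_lit 409616) (nat_lit 10) (.e (nat_lit 7936) (nat_lit 298) .nil)))))) (.g (nat_lit 1) (.e (nat_lit 4592) (nat_lit 0) .nil) .nil)))) (.nd (nat_lit 9) 
(.lf (nat_lit 447764) (.g (nat_lit 3597) (.e (nat_lit 396) (nat_lit 32) (.e (nat_lit 426123) (nat_lit 2) (.e (nat_lit 196666) (nat_lit 13) (.e (nat_lit 65617) (nat_lit 10) (.e (nat_lit 344133) (nat_lit 26) (.e (nat_lit 557068) (nat_lit 9) (.e (nat_lit 2743) (nat_lit 174) (.e (nat_lit 253959) (nat_lit 9) .nil)))))))) (.g (nat_lit 1) (.e (nat_lit 3470) (nat_lit 0) .nil) .nil))) 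
(.lf (nat_lit 448276) (.g (nat_lit 4149) (.e (nat_lit 425) (nat_lit 32) (.e (nat_lit 426338) (nat_lit 14) (.e (nat_lit 491571) (nat_lit 13) (.e (nat_lit 393260) (nat_lit 21) (.e (nat_lit 409616) (nat_lit 10) .nil))))) (.g (nat_lit 0) (.e (nat_lit 5512) (nat_lit 0) .nil) .nil))))) (.nd (nat_lit 8) (.nd (nat_lit 9) 
(.lf (nat_lit 447636) (.g (nat_lit 2052) (.e (nat_lit 378) (nat_lit 32) (.e (nat_lit 426568) (nat_lit 34) (.e (nat_lit 393260) (nat_lit 21) (.e (nat_lit 409617) (nat_lit 10) .nil)))) (.g (nat_lit 0) (.e (nat_lit 2945) (nat_lit 0) .nil) .nil))) 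
(.lf (nat_lit 448148) (.g (nat_lit 3018) (.e (nat_lit 440) (nat_lit 32) (.e (nat_lit 426316) (nat_lit 12) (.e (nat_lit 475185) (nat_lit 29) (.e (nat_lit 557101) (nat_lit 13) .nil)))) (.g (nat_lit 0) (.e (nat_lit 4890) (nat_lit 0) .nil) .nil)))) (.nd (nat_lit 9) 
(.lf (nat_lit 447892) (.g (nat_lit 2646) (.e (nat_lit 397) (nat_lit 32) (.e (nat_lit 426190) (nat_lit 9) (.e (nat_lit 426566) (nat_lit 34) (.e (nat_lit 393253) (nat_lit 18) (.e (nat_lit 164330) (nat_lit 230) (.e (nat_lit 163869) (nat_lit 2) (.e (nat_lit 196628) (nat_lit 9) .nil))))))) (.g (nat_lit 1) (.e (nat_lit 4256) (nat_lit 0) .nil) .nil))) 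
(.lf (nat_lit 448404) (.g (nat_lit 4206) (.e (nat_lit 430) (nat_lit 32) (.e (nat_lit 426308) (nat_lit 12) (.e (nat_lit 475184) (nat_lit 29) (.e (nat_lit 557101) (nat_lit 13) (.e (nat_lit 172115) (nat_lit 10) (.e (nat_lit 434244) (nat_lit 28) (.e (nat_lit 573449) (nat_lit 9) .nil))))))) (.g (nat_lit 1) (.e (nat_lit 5803) (nat_lit 0) .nil) .nil)))))) 
(.nd (nat_lit 7) (.nd (nat_lit 8) (.nd (nat_lit 9) 
(.lf (nat_lit 447572) (.g (nat_lit 2468) (.e (nat_lit 375) (nat_lit 32) (.e (nat_lit 426135) (nat_lit 3) (.e (nat_lit 204868) (nat_lit 29) (.e (nat_lit 360473) (nat_lit 8) (.e (nat_lit 557093) (nat_lit 12) (.e (nat_lit 164022) (nat_lit 46) (.e (nat_lit 704628) (nat_lit 9) .nil))))))) (.g (nat_lit 1) (.e (nat_lit 2284) (nat_lit 0) .nil) .nil))) 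
(.lf (nat_lit 448084) (.g (nat_lit 2755) (.e (nat_lit 436) (nat_lit 32) (.e (nat_lit 426121) (nat_lit 2) (.e (nat_lit 196666) (nat_lit 13) (.e (nat_lit 65617) (nat_lit 10) (.e (nat_lit 344132) (nat_lit 26) (.e (nat_lit 557093) (nat_lit 12) (.e (nat_lit 164022) (nat_lit 46) (.e (nat_lit 704626) (nat_lit 9) .nil)))))))) (.g (nat_lit 1) (.e (nat_lit 4700) (nat_lit 0) .nil) .nil)))) (.nd (nat_lit 9) 
(.lf (nat_lit 447828) (.g (nat_lit 1753) (.e (nat_lit 394) (nat_lit 32) (.e (nat_lit 426188) (nat_lit 9) (.e (nat_lit 426566) (nat_lit 34) (.e (nat_lit 393254) (nat_lit 18) (.e (nat_lit 164326) (nat_lit 230) (.e (nat_lit 163870) (nat_lit 2) (.e (nat_lit 196637) (nat_lit 9) .nil))))))) (.g (nat_lit 1) (.e (nat_lit 3958) (nat_lit 0) .nil) .nil))) 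
(.lf (nat_lit 448340) (.g (nat_lit 3037) (.e (nat_lit 430) (nat_lit 32) (.e (nat_lit 426139) (nat_lit 3) (.e (nat_lit 204869) (nat_lit 29) (.e (nat_lit 360475) (nat_lit 8) (.e (nat_lit 557091) (nat_lit 12) .nil))))) (.g (nat_lit 0) (.e (nat_lit 5680) (nat_lit 0) .nil) .nil))))) (.nd (nat_lit 8) (.nd (nat_lit 9) 
(.lf (nat_lit 447700) (.g (nat_lit 1988) (.e (nat_lit 392) (nat_lit 32) (.e (nat_lit 426190) (nat_lit 9) (.e (nat_lit 426566) (nat_lit 34) (.e (nat_lit 393253) (nat_lit 18) (.e (nat_lit 164327) (nat_lit 230) (.e (nat_lit 163868) (nat_lit 2) (.e (nat_lit 196627) (nat_lit 9) .nil))))))) (.g (nat_lit 1) (.e (nat_lit 3313) (nat_lit 0) .nil) .nil))) 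
(.lf (nat_lit 448212) (.g (nat_lit 4679) (.e (nat_lit 426) (nat_lit 32) (.e (nat_lit 426306) (nat_lit 12) (.e (nat_lit 475183) (nat_lit 29) (.e (nat_lit 557101) (nat_lit 13) (.e (nat_lit 172115) (nat_lit 10) (.e (nat_lit 434244) (nat_lit 28) (.e (nat_lit 573458) (nat_lit 9) .nil))))))) (.g (nat_lit 1) (.e (nat_lit 5259) (nat_lit 0) .nil) .nil)))) (.nd (nat_lit 9) 
(.lf (nat_lit 447956) (.g (nat_lit 2764) (.e (nat_lit 401) (nat_lit 32) (.e (nat_lit 426340) (nat_lit 14) (.e (nat_lit 491571) (nat_lit 13) (.e (nat_lit 393260) (nat_lit 21) (.e (nat_lit 417536) (nat_lit 10) .nil))))) (.g (nat_lit 0) (.e (nat_lit 4409) (nat_lit 0) .nil) .nil))) 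
(.lf (nat_lit 448468) (.g (nat_lit 5107) (.e (nat_lit 430) (nat_lit 32) (.e (nat_lit 426343) (nat_lit 14) (.e (nat_lit 491526) (nat_lit 0) (.e (nat_lit 1788) (nat_lit 119) (.e (nat_lit 516166) (nat_lit 12) (.e (nat_lit 450588) (nat_lit 10) (.e (nat_lit 573457) (nat_lit 9) .nil))))))) (.g (nat_lit 1) (.e (nat_lit 5964) (nat_lit 0) .nil) .nil))))))) 
(.nd (nat_lit 6) (.nd (nat_lit 7) (.nd (nat_lit 8) (.nd (nat_lit 9) 
(.lf (nat_lit 447540) (.g (nat_lit 4613) (.e (nat_lit 375) (nat_lit 32) (.e (nat_lit 426125) (nat_lit 2) (.e (nat_lit 196666) (nat_lit 13) (.e (nat_lit 65610) (nat_lit 10) (.e (nat_lit 344132) (nat_lit 26) (.e (nat_lit 557093) (nat_lit 12) (.e (nat_lit 164023) (nat_lit 46) (.e (nat_lit 704628) (nat_lit 9) .nil)))))))) (.g (nat_lit 1) (.e (nat_lit 2238) (nat_lit 0) .nil) .nil))) 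
(.lf (nat_lit 448052) (.g (nat_lit 2607) (.e (nat_lit 411) (nat_lit 32) (.e (nat_lit 426140) (nat_lit 3) (.e (nat_lit 204868) (nat_lit 29) (.e (nat_lit 360474) (nat_lit 8) (.e (nat_lit 557093) (nat_lit 12) (.e (nat_lit 164022) (nat_lit 46) (.e (nat_lit 704629) (nat_lit 9) .nil))))))) (.g (nat_lit 1) (.e (nat_lit 4633) (nat_lit 0) .nil) .nil)))) (.nd (nat_lit 9) 
(.lf (nat_lit 447796) (.g (nat_lit 4798) (.e (nat_lit 396) (nat_lit 32) (.e (nat_lit 426316) (nat_lit 12) (.e (nat_lit 475185) (nat_lit 29) (.e (nat_lit 557098) (nat_lit 13) (.e (nat_lit 172115) (nat_lit 10) (.e (nat_lit 434244) (nat_lit 28) (.e (nat_lit 573449) (nat_lit 9) .nil))))))) (.g (nat_lit 1) (.e (nat_lit 3559) (nat_lit 0) .nil) .nil))) 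
(.lf (nat_lit 448308) (.g (nat_lit 2333) (.e (nat_lit 430) (nat_lit 32) (.e (nat_lit 426011) (nat_lit 0) (.e (nat_lit 7548) (nat_lit 402) (.e (nat_lit 1234) (nat_lit 91) (.e (nat_lit 90170) (nat_lit 13) (.e (nat_lit 172113) (nat_lit 10) (.e (nat_lit 434247) (nat_lit 28) (.e (nat_lit 573456) (nat_lit 9) .nil)))))))) (.g (nat_lit 1) (.e (nat_lit 5548) (nat_lit 0) .nil) .nil))))) 
(.nd (nat_lit 8) (.nd (nat_lit 9) 
(.lf (nat_lit 447668) (.g (nat_lit 2506) (.e (nat_lit 389) (nat_lit 32) (.e (nat_lit 426189) (nat_lit 9) (.e (nat_lit 426566) (nat_lit 34) (.e (nat_lit 393253) (nat_lit 18) (.e (nat_lit 164327) (nat_lit 230) (.e (nat_lit 163868) (nat_lit 2) (.e (nat_lit 196624) (nat_lit 9) .nil))))))) (.g (nat_lit 1) (.e (nat_lit 3046) (nat_lit 0) .nil) .nil))) 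
(.lf (nat_lit 448180) (.g (nat_lit 1623) (.e (nat_lit 422) (nat_lit 32) (.e (nat_lit 426188) (nat_lit 9) (.e (nat_lit 426566) (nat_lit 34) (.e (nat_lit 393254) (nat_lit 18) (.e (nat_lit 164326) (nat_lit 230) (.e (nat_lit 163868) (nat_lit 2) (.e (nat_lit 196635) (nat_lit 9) .nil))))))) (.g (nat_lit 1) (.e (nat_lit 5004) (nat_lit 0) .nil) .nil)))) (.nd (nat_lit 9) 
(.lf (nat_lit 447924) (.g (nat_lit 3774) (.e (nat_lit 400) (nat_lit 32) (.e (nat_lit 426316) (nat_lit 12) (.e (nat_lit 475185) (nat_lit 29) (.e (nat_lit 557098) (nat_lit 13) (.e (nat_lit 172115) (nat_lit 10) .nil))))) (.g (nat_lit 0) (.e (nat_lit 4325) (nat_lit 0) .nil) .nil))) 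
(.lf (nat_lit 448436) (.g (nat_lit 3652) (.e (nat_lit 430) (nat_lit 32) (.e (nat_lit 426341) (nat_lit 14) (.e (nat_lit 491540) (nat_lit 3) (.e (nat_lit 98373) (nat_lit 29) (.e (nat_lit 450588) (nat_lit 10) (.e (nat_lit 573451) (nat_lit 9) .nil)))))) (.g (nat_lit 1) (.e (nat_lit 5931) (nat_lit 0) .nil) .nil)))))) (.nd (nat_lit 7) (.nd (nat_lit 8) (.nd (nat_lit 9) 
(.lf (nat_lit 447604) (.g (nat_lit 2449) (.e (nat_lit 375) (nat_lit 32) (.e (nat_lit 426173) (nat_lit 7) (.e (nat_lit 409616) (nat_lit 10) (.e (nat_lit 858) (nat_lit 75) (.e (nat_lit 778321) (nat_lit 4) (.e (nat_lit 65598) (nat_lit 9) (.e (nat_lit 336013) (nat_lit 2) (.e (nat_lit 98048) (nat_lit 0) .nil)))))))) (.g (nat_lit 1) (.e (nat_lit 2322) (nat_lit 0) .nil) .nil))) 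
(.lf (nat_lit 448116) (.g (nat_lit 576) (.e (nat_lit 436) (nat_lit 32) (.e (nat_lit 426188) (nat_lit 9) (.e (nat_lit 426566) (nat_lit 34) .nil))) (.g (nat_lit 0) (.e (nat_lit 4752) (nat_lit 0) .nil) .nil)))) (.nd (nat_lit 9) 
(.lf (nat_lit 447860) (.g (nat_lit 2683) (.e (nat_lit 395) (nat_lit 32) (.e (nat_lit 426316) (nat_lit 12) (.e (nat_lit 475185) (nat_lit 29) (.e (nat_lit 557101) (nat_lit 13) (.e (nat_lit 172115) (nat_lit 10) .nil))))) (.g (nat_lit 0) (.e (nat_lit 4145) (nat_lit 0) .nil) .nil))) 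
(.lf (nat_lit 448372) (.g (nat_lit 3678) (.e (nat_lit 430) (nat_lit 32) (.e (nat_lit 426298) (nat_lit 11) (.e (nat_lit 458789) (nat_lit 23) (.e (nat_lit 532569) (nat_lit 16) (.e (nat_lit 401448) (nat_lit 10) (.e (nat_lit 434247) (nat_lit 28) (.e (nat_lit 573457) (nat_lit 9) .nil))))))) (.g (nat_lit 1) (.e (nat_lit 5770) (nat_lit 0) .nil) .nil))))) (.nd (nat_lit 8) (.nd (nat_lit 9) 
(.lf (nat_lit 447732) (.g (nat_lit 2849) (.e (nat_lit 393) (nat_lit 32) (.e (nat_lit 426316) (nat_lit 12) (.e (nat_lit 475185) (nat_lit 29) (.e (nat_lit 557098) (nat_lit 13) .nil)))) (.g (nat_lit 0) (.e (nat_lit 3428) (nat_lit 0) .nil) .nil))) 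
(.lf (nat_lit 448244) (.g (nat_lit 2760) (.e (nat_lit 426) (nat_lit 32) (.e (nat_lit 426316) (nat_lit 12) (.e (nat_lit 475185) (nat_lit 29) (.e (nat_lit 557107) (nat_lit 15) (.e (nat_lit 188440) (nat_lit 20) (.e (nat_lit 3295) (nat_lit 202) (.e (nat_lit 573461) (nat_lit 9) .nil))))))) (.g (nat_lit 1) (.e (nat_lit 5295) (nat_lit 0) .nil) .nil)))) (.nd (nat_lit 9) 
(.lf (nat_lit 447988) (.g (nat_lit 1857) (.e (nat_lit 404) (nat_lit 32) (.e (nat_lit 426339) (nat_lit 14) (.e (nat_lit 491570) (nat_lit 13) (.e (nat_lit 393238) (nat_lit 17) (.e (nat_lit 7114) (nat_lit 381) .nil))))) (.g (nat_lit 0) (.e (nat_lit 4493) (nat_lit 0) .nil) .nil))) 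
(.lf (nat_lit 448500) (.g (nat_lit 4955) (.e (nat_lit 430) (nat_lit 32) (.e (nat_lit 426343) (nat_lit 14) (.e (nat_lit 491539) (nat_lit 3) (.e (nat_lit 98373) (nat_lit 29) (.e (nat_lit 450588) (nat_lit 10) (.e (nat_lit 573457) (nat_lit 9) .nil)))))) (.g (nat_lit 1) (.e (nat_lit 5996) (nat_lit 0) .nil) .nil))))))))) 
(.nd (nat_lit 4) (.nd (nat_lit 5) (.nd (nat_lit 6) (.nd (nat_lit 7) (.nd (nat_lit 8) 
(.nd (nat_lit 9) 
(.lf (nat_lit 447500) (.g (nat_lit 6347) (.e (nat_lit 375) (nat_lit 32) (.e (nat_lit 426125) (nat_lit 2) (.e (nat_lit 196666) (nat_lit 13) (.e (nat_lit 65610) (nat_lit 10) (.e (nat_lit 344129) (nat_lit 26) (.e (nat_lit 557091) (nat_lit 12) (.e (nat_lit 164022) (nat_lit 46) (.e (nat_lit 704626) (nat_lit 9) .nil)))))))) (.g (nat_lit 1) (.e (nat_lit 2196) (nat_lit 0) .nil) .nil))) 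
(.lf (nat_lit 448012) (.g (nat_lit 2623) (.e (nat_lit 414) (nat_lit 32) (.e (nat_lit 426140) (nat_lit 3) (.e (nat_lit 204869) (nat_lit 29) (.e (nat_lit 360474) (nat_lit 8) (.e (nat_lit 557094) (nat_lit 12) .nil))))) (.g (nat_lit 0) (.e (nat_lit 4558) (nat_lit 0) .nil) .nil)))) (.nd (nat_lit 9) 
(.lf (nat_lit 447756) (.g (nat_lit 4241) (.e (nat_lit 396) (nat_lit 32) (.e (nat_lit 426123) (nat_lit 2) (.e (nat_lit 196666) (nat_lit 13) (.e (nat_lit 65617) (nat_lit 10) (.e (nat_lit 344130) (nat_lit 26) (.e (nat_lit 557090) (nat_lit 12) (.e (nat_lit 164022) (nat_lit 46) (.e (nat_lit 704626) (nat_lit 9) .nil)))))))) (.g (nat_lit 1) (.e (nat_lit 3462) (nat_lit 0) .nil) .nil))) 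
(.lf (nat_lit 448268) (.g (nat_lit 5097) (.e (nat_lit 424) (nat_lit 32) (.e (nat_lit 426338) (nat_lit 14) (.e (nat_lit 491571) (nat_lit 13) (.e (nat_lit 393260) (nat_lit 21) (.e (nat_lit 409614) (nat_lit 10) (.e (nat_lit 5315) (nat_lit 298) .nil)))))) (.g (nat_lit 1) (.e (nat_lit 5480) (nat_lit 0) .nil) .nil))))) (.nd (nat_lit 8) (.nd (nat_lit 9) 
(.lf (nat_lit 447628) (.g (nat_lit 4034) (.e (nat_lit 375) (nat_lit 32) (.e (nat_lit 426338) (nat_lit 14) (.e (nat_lit 491537) (nat_lit 2) (.e (nat_lit 90170) (nat_lit 13) (.e (nat_lit 172113) (nat_lit 10) (.e (nat_lit 434245) (nat_lit 28) (.e (nat_lit 573450) (nat_lit 9) .nil))))))) (.g (nat_lit 1) (.e (nat_lit 2933) (nat_lit 0) .nil) .nil))) 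
(.lf (nat_lit 448140) (.g (nat_lit 2364) (.e (nat_lit 440) (nat_lit 32) (.e (nat_lit 426139) (nat_lit 3) (.e (nat_lit 204869) (nat_lit 29) (.e (nat_lit 360473) (nat_lit 8) (.e (nat_lit 557091) (nat_lit 12) .nil))))) (.g (nat_lit 0) (.e (nat_lit 4882) (nat_lit 0) .nil) .nil)))) (.nd (nat_lit 9) 
(.lf (nat_lit 447884) (.g (nat_lit 3767) (.e (nat_lit 397) (nat_lit 32) (.e (nat_lit 426011) (nat_lit 0) (.e (nat_lit 7581) (nat_lit 405) (.e (nat_lit 57464) (nat_lit 23) (.e (nat_lit 516166) (nat_lit 12) (.e (nat_lit 450587) (nat_lit 10) (.e (nat_lit 573454) (nat_lit 9) .nil))))))) (.g (nat_lit 1) (.e (nat_lit 4222) (nat_lit 0) .nil) .nil))) 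
(.lf (nat_lit 448396) (.g (nat_lit 2621) (.e (nat_lit 430) (nat_lit 32) (.e (nat_lit 426308) (nat_lit 12) (.e (nat_lit 475184) (nat_lit 29) (.e (nat_lit 557098) (nat_lit 13) (.e (nat_lit 172105) (nat_lit 10) (.e (nat_lit 434247) (nat_lit 28) (.e (nat_lit 573456) (nat_lit 9) .nil))))))) (.g (nat_lit 1) (.e (nat_lit 5795) (nat_lit 0) .nil) .nil)))))) 
(.nd (nat_lit 7) (.nd (nat_lit 8) (.nd (nat_lit 9) 
(.lf (nat_lit 447564) (.g (nat_lit 3714) (.e (nat_lit 375) (nat_lit 32) (.e (nat_lit 426125) (nat_lit 2) (.e (nat_lit 196666) (nat_lit 13) (.e (nat_lit 65619) (nat_lit 10) .nil)))) (.g (nat_lit 0) (.e (nat_lit 2271) (nat_lit 0) .nil) .nil))) 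
(.lf (nat_lit 448076) (.g (nat_lit 5130) (.e (nat_lit 411) (nat_lit 32) (.e (nat_lit 426340) (nat_lit 14) (.e (nat_lit 491540) (nat_lit 3) (.e (nat_lit 98373) (nat_lit 29) (.e (nat_lit 450588) (nat_lit 10) (.e (nat_lit 573448) (nat_lit 9) .nil)))))) (.g (nat_lit 1) (.e (nat_lit 4682) (nat_lit 0) .nil) .nil)))) (.nd (nat_lit 9) 
(.lf (nat_lit 447820) (.g (nat_lit 788) (.e (nat_lit 396) (nat_lit 32) (.e (nat_lit 426343) (nat_lit 14) (.e (nat_lit 491538) (nat_lit 3) .nil))) (.g (nat_lit 0) (.e (nat_lit 3741) (nat_lit 0) .nil) .nil))) 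
(.lf (nat_lit 448332) (.g (nat_lit 4628) (.e (nat_lit 430) (nat_lit 32) (.e (nat_lit 426133) (nat_lit 3) (.e (nat_lit 204869) (nat_lit 29) (.e (nat_lit 360474) (nat_lit 8) (.e (nat_lit 557093) (nat_lit 12) (.e (nat_lit 164023) (nat_lit 46) (.e (nat_lit 704647) (nat_lit 9) .nil))))))) (.g (nat_lit 1) (.e (nat_lit 5653) (nat_lit 0) .nil) .nil))))) (.nd (nat_lit 8) (.nd (nat_lit 9) 
(.lf (nat_lit 447692) (.g (nat_lit 549) (.e (nat_lit 391) (nat_lit 32) (.e (nat_lit 426198) (nat_lit 9) (.e (nat_lit 426533) (nat_lit 28) .nil))) (.g (nat_lit 0) (.e (nat_lit 3091) (nat_lit 0) .nil) .nil))) 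
(.lf (nat_lit 448204) (.g (nat_lit 1662) (.e (nat_lit 426) (nat_lit 32) (.e (nat_lit 426188) (nat_lit 9) (.e (nat_lit 426566) (nat_lit 34) (.e (nat_lit 393254) (nat_lit 18) (.e (nat_lit 164326) (nat_lit 230) (.e (nat_lit 163868) (nat_lit 2) (.e (nat_lit 196617) (nat_lit 9) .nil))))))) (.g (nat_lit 1) (.e (nat_lit 5229) (nat_lit 0) .nil) .nil)))) (.nd (nat_lit 9) 
(.lf (nat_lit 447948) (.g (nat_lit 3651) (.e (nat_lit 401) (nat_lit 32) (.e (nat_lit 426340) (nat_lit 14) (.e (nat_lit 491571) (nat_lit 13) (.e (nat_lit 393260) (nat_lit 21) (.e (nat_lit 409616) (nat_lit 10) (.e (nat_lit 5355) (nat_lit 298) .nil)))))) (.g (nat_lit 1) (.e (nat_lit 4401) (nat_lit 0) .nil) .nil))) 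
(.lf (nat_lit 448460) (.g (nat_lit 347) (.e (nat_lit 430) (nat_lit 32) (.e (nat_lit 426343) (nat_lit 14) (.e (nat_lit 491526) (nat_lit 0) .nil))) (.g (nat_lit 0) (.e (nat_lit 5955) (nat_lit 0) .nil) .nil))))))) (.nd (nat_lit 6) (.nd (nat_lit 7) (.nd (nat_lit 8) (.nd (nat_lit 9) 
(.lf (nat_lit 447532) (.g (nat_lit 4270) (.e (nat_lit 375) (nat_lit 32) (.e (nat_lit 426125) (nat_lit 2) (.e (nat_lit 196666) (nat_lit 13) (.e (nat_lit 65610) (nat_lit 10) (.e (nat_lit 344131) (nat_lit 26) (.e (nat_lit 557094) (nat_lit 12) (.e (nat_lit 164022) (nat_lit 46) (.e (nat_lit 704628) (nat_lit 9) .nil)))))))) (.g (nat_lit 1) (.e (nat_lit 2230) (nat_lit 0) .nil) .nil))) 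
(.lf (nat_lit 448044) (.g (nat_lit 2192) (.e (nat_lit 411) (nat_lit 32) (.e (nat_lit 426132) (nat_lit 3) (.e (nat_lit 204869) (nat_lit 29) (.e (nat_lit 360474) (nat_lit 8) (.e (nat_lit 557093) (nat_lit 12) (.e (nat_lit 164022) (nat_lit 46) (.e (nat_lit 704629) (nat_lit 9) .nil))))))) (.g (nat_lit 1) (.e (nat_lit 4616) (nat_lit 0) .nil) .nil)))) (.nd (nat_lit 9) 
(.lf (nat_lit 447788) (.g (nat_lit 2228) (.e (nat_lit 396) (nat_lit 32) (.e (nat_lit 426308) (nat_lit 12) (.e (nat_lit 475185) (nat_lit 29) (.e (nat_lit 557100) (nat_lit 13) (.e (nat_lit 172113) (nat_lit 10) .nil))))) (.g (nat_lit 0) (.e (nat_lit 3548) (nat_lit 0) .nil) .nil))) 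
(.lf (nat_lit 448300) (.g (nat_lit 2359) (.e (nat_lit 430) (nat_lit 32) (.e (nat_lit 426011) (nat_lit 0) (.e (nat_lit 7523) (nat_lit 402) (.e (nat_lit 1234) (nat_lit 91) (.e (nat_lit 90170) (nat_lit 13) (.e (nat_lit 172113) (nat_lit 10) (.e (nat_lit 434245) (nat_lit 28) (.e (nat_lit 573451) (nat_lit 9) .nil)))))))) (.g (nat_lit 1) (.e (nat_lit 5540) (nat_lit 0) .nil) .nil))))) 
(.nd (nat_lit 8) (.nd (nat_lit 9) 
(.lf (nat_lit 447660) (.g (nat_lit 1960) (.e (nat_lit 388) (nat_lit 32) (.e (nat_lit 426190) (nat_lit 9) (.e (nat_lit 426566) (nat_lit 34) (.e (nat_lit 393253) (nat_lit 18) (.e (nat_lit 164332) (nat_lit 230) (.e (nat_lit 163867) (nat_lit 2) (.e (nat_lit 196624) (nat_lit 9) .nil))))))) (.g (nat_lit 1) (.e (nat_lit 3007) (nat_lit 0) .nil) .nil))) 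
(.lf (nat_lit 448172) (.g (nat_lit 2856) (.e (nat_lit 416) (nat_lit 32) (.e (nat_lit 426316) (nat_lit 12) (.e (nat_lit 475185) (nat_lit 29) (.e (nat_lit 557098) (nat_lit 13) .nil)))) (.g (nat_lit 0) (.e (nat_lit 4941) (nat_lit 0) .nil) .nil)))) (.nd (nat_lit 9) 
(.lf (nat_lit 447916) (.g (nat_lit 3221) (.e (nat_lit 398) (nat_lit 32) (.e (nat_lit 426139) (nat_lit 3) (.e (nat_lit 204869) (nat_lit 29) (.e (nat_lit 360474) (nat_lit 8) (.e (nat_lit 557093) (nat_lit 12) .nil))))) (.g (nat_lit 0) (.e (nat_lit 4303) (nat_lit 0) .nil) .nil))) 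
(.lf (nat_lit 448428) (.g (nat_lit 2398) (.e (nat_lit 430) (nat_lit 32) (.e (nat_lit 426338) (nat_lit 14) (.e (nat_lit 491540) (nat_lit 3) (.e (nat_lit 98372) (nat_lit 29) (.e (nat_lit 450586) (nat_lit 10) (.e (nat_lit 573457) (nat_lit 9) .nil)))))) (.g (nat_lit 1) (.e (nat_lit 5923) (nat_lit 0) .nil) .nil)))))) (.nd (nat_lit 7) (.nd (nat_lit 8) (.nd (nat_lit 9) 
(.lf (nat_lit 447596) (.g (nat_lit 3837) (.e (nat_lit 375) (nat_lit 32) (.e (nat_lit 426140) (nat_lit 3) (.e (nat_lit 204869) (nat_lit 29) (.e (nat_lit 360474) (nat_lit 8) (.e (nat_lit 557093) (nat_lit 12) (.e (nat_lit 164023) (nat_lit 46) (.e (nat_lit 704626) (nat_lit 9) .nil))))))) (.g (nat_lit 1) (.e (nat_lit 2311) (nat_lit 0) .nil) .nil))) 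
(.lf (nat_lit 448108) (.g (nat_lit 3239) (.e (nat_lit 436) (nat_lit 32) (.e (nat_lit 426139) (nat_lit 3) (.e (nat_lit 204869) (nat_lit 29) (.e (nat_lit 360474) (nat_lit 8) (.e (nat_lit 557093) (nat_lit 12) .nil))))) (.g (nat_lit 0) (.e (nat_lit 4743) (nat_lit 0) .nil) .nil)))) (.nd (nat_lit 9) 
(.lf (nat_lit 447852) (.g (nat_lit 2155) (.e (nat_lit 395) (nat_lit 32) (.e (nat_lit 426190) (nat_lit 9) (.e (nat_lit 426566) (nat_lit 34) (.e (nat_lit 393253) (nat_lit 18) (.e (nat_lit 164329) (nat_lit 230) .nil))))) (.g (nat_lit 0) (.e (nat_lit 4128) (nat_lit 0) .nil) .nil))) 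
(.lf (nat_lit 448364) (.g (nat_lit 2634) (.e (nat_lit 430) (nat_lit 32) (.e (nat_lit 426298) (nat_lit 11) (.e (nat_lit 458789) (nat_lit 23) (.e (nat_lit 532482) (nat_lit 0) (.e (nat_lit 6722) (nat_lit 362) (.e (nat_lit 180251) (nat_lit 10) (.e (nat_lit 573457) (nat_lit 9) .nil))))))) (.g (nat_lit 1) (.e (nat_lit 5762) (nat_lit 0) .nil) .nil))))) (.nd (nat_lit 8) (.nd (nat_lit 9) 
(.lf (nat_lit 447724) (.g (nat_lit 1486) (.e (nat_lit 392) (nat_lit 32) (.e (nat_lit 426343) (nat_lit 14) (.e (nat_lit 491570) (nat_lit 13) (.e (nat_lit 393238) (nat_lit 17) .nil)))) (.g (nat_lit 0) (.e (nat_lit 3391) (nat_lit 0) .nil) .nil))) 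
(.lf (nat_lit 448236) (.g (nat_lit 3880) (.e (nat_lit 426) (nat_lit 32) (.e (nat_lit 426316) (nat_lit 12) (.e (nat_lit 475184) (nat_lit 29) (.e (nat_lit 557098) (nat_lit 13) (.e (nat_lit 172115) (nat_lit 10) (.e (nat_lit 434244) (nat_lit 28) (.e (nat_lit 573458) (nat_lit 9) .nil))))))) (.g (nat_lit 1) (.e (nat_lit 5284) (nat_lit 0) .nil) .nil)))) (.nd (nat_lit 9) 
(.lf (nat_lit 447980) (.g (nat_lit 3163) (.e (nat_lit 403) (nat_lit 32) (.e (nat_lit 426340) (nat_lit 14) (.e (nat_lit 491571) (nat_lit 13) (.e (nat_lit 393260) (nat_lit 21) (.e (nat_lit 409614) (nat_lit 10) (.e (nat_lit 5313) (nat_lit 298) .nil)))))) (.g (nat_lit 1) (.e (nat_lit 4459) (nat_lit 0) .nil) .nil))) 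
(.lf (nat_lit 448492) (.g (nat_lit 2809) (.e (nat_lit 430) (nat_lit 32) (.e (nat_lit 426343) (nat_lit 14) (.e (nat_lit 491539) (nat_lit 3) (.e (nat_lit 98372) (nat_lit 29) (.e (nat_lit 450586) (nat_lit 10) (.e (nat_lit 573456) (nat_lit 9) .nil)))))) (.g (nat_lit 1) (.e (nat_lit 5988) (nat_lit 0) .nil) .nil)))))))) 
(.nd (nat_lit 5) (.nd (nat_lit 6) (.nd (nat_lit 7) (.nd (nat_lit 8) (.nd (nat_lit 9) 
(.lf (nat_lit 447516) (.g (nat_lit 4953) (.e (nat_lit 375) (nat_lit 32) (.e (nat_lit 426125) (nat_lit 2) (.e (nat_lit 196666) (nat_lit 13) (.e (nat_lit 65610) (nat_lit 10) (.e (nat_lit 344130) (nat_lit 26) (.e (nat_lit 557090) (nat_lit 12) (.e (nat_lit 164022) (nat_lit 46) (.e (nat_lit 704626) (nat_lit 9) .nil)))))))) (.g (nat_lit 1) (.e (nat_lit 2214) (nat_lit 0) .nil) .nil))) 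
(.lf (nat_lit 448028) (.g (nat_lit 3117) (.e (nat_lit 411) (nat_lit 32) (.e (nat_lit 426125) (nat_lit 2) (.e (nat_lit 196666) (nat_lit 13) (.e (nat_lit 65610) (nat_lit 10) (.e (nat_lit 344132) (nat_lit 26) .nil))))) (.g (nat_lit 0) (.e (nat_lit 4600) (nat_lit 0) .nil) .nil)))) (.nd (nat_lit 9) 
(.lf (nat_lit 447772) (.g (nat_lit 2344) (.e (nat_lit 396) (nat_lit 32) (.e (nat_lit 426190) (nat_lit 9) (.e (nat_lit 426566) (nat_lit 34) (.e (nat_lit 393251) (nat_lit 18) (.e (nat_lit 164332) (nat_lit 230) .nil))))) (.g (nat_lit 0) (.e (nat_lit 3518) (nat_lit 0) .nil) .nil))) 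
(.lf (nat_lit 448284) (.g (nat_lit 3576) (.e (nat_lit 429) (nat_lit 32) (.e (nat_lit 426347) (nat_lit 14) (.e (nat_lit 491571) (nat_lit 13) (.e (nat_lit 393260) (nat_lit 21) (.e (nat_lit 409616) (nat_lit 10) .nil))))) (.g (nat_lit 0) (.e (nat_lit 5520) (nat_lit 0) .nil) .nil))))) (.nd (nat_lit 8) (.nd (nat_lit 9) 
(.lf (nat_lit 447644) (.g (nat_lit 3058) (.e (nat_lit 382) (nat_lit 32) (.e (nat_lit 426347) (nat_lit 14) (.e (nat_lit 491537) (nat_lit 2) (.e (nat_lit 90170) (nat_lit 13) (.e (nat_lit 172106) (nat_lit 10) .nil))))) (.g (nat_lit 0) (.e (nat_lit 2975) (nat_lit 0) .nil) .nil))) 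
(.lf (nat_lit 448156) (.g (nat_lit 3460) (.e (nat_lit 416) (nat_lit 32) (.e (nat_lit 426122) (nat_lit 2) (.e (nat_lit 196666) (nat_lit 13) (.e (nat_lit 65617) (nat_lit 10) (.e (nat_lit 344133) (nat_lit 26) (.e (nat_lit 557091) (nat_lit 12) (.e (nat_lit 164022) (nat_lit 46) (.e (nat_lit 704628) (nat_lit 9) .nil)))))))) (.g (nat_lit 1) (.e (nat_lit 4912) (nat_lit 0) .nil) .nil)))) (.nd (nat_lit 9) 
(.lf (nat_lit 447900) (.g (nat_lit 4197) (.e (nat_lit 397) (nat_lit 32) (.e (nat_lit 426338) (nat_lit 14) (.e (nat_lit 491540) (nat_lit 3) (.e (nat_lit 98373) (nat_lit 29) (.e (nat_lit 450587) (nat_lit 10) (.e (nat_lit 573454) (nat_lit 9) .nil)))))) (.g (nat_lit 1) (.e (nat_lit 4282) (nat_lit 0) .nil) .nil))) 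
(.lf (nat_lit 448412) (.g (nat_lit 2674) (.e (nat_lit 430) (nat_lit 32) (.e (nat_lit 426308) (nat_lit 12) (.e (nat_lit 475185) (nat_lit 29) (.e (nat_lit 557101) (nat_lit 13) (.e (nat_lit 172115) (nat_lit 10) (.e (nat_lit 434244) (nat_lit 28) (.e (nat_lit 573456) (nat_lit 9) .nil))))))) (.g (nat_lit 1) (.e (nat_lit 5811) (nat_lit 0) .nil) .nil)))))) 
(.nd (nat_lit 7) (.nd (nat_lit 8) (.nd (nat_lit 9) 
(.lf (nat_lit 447580) (.g (nat_lit 4517) (.e (nat_lit 375) (nat_lit 32) (.e (nat_lit 426140) (nat_lit 3) (.e (nat_lit 204855) (nat_lit 26) (.e (nat_lit 336176) (nat_lit 10) (.e (nat_lit 344132) (nat_lit 26) (.e (nat_lit 557093) (nat_lit 12) (.e (nat_lit 164022) (nat_lit 46) (.e (nat_lit 704628) (nat_lit 9) .nil)))))))) (.g (nat_lit 1) (.e (nat_lit 2294) (nat_lit 0) .nil) .nil))) 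
(.lf (nat_lit 448092) (.g (nat_lit 4124) (.e (nat_lit 436) (nat_lit 32) (.e (nat_lit 426121) (nat_lit 2) (.e (nat_lit 196666) (nat_lit 13) (.e (nat_lit 65617) (nat_lit 10) (.e (nat_lit 344133) (nat_lit 26) (.e (nat_lit 557091) (nat_lit 12) (.e (nat_lit 164022) (nat_lit 46) (.e (nat_lit 704629) (nat_lit 9) .nil)))))))) (.g (nat_lit 1) (.e (nat_lit 4708) (nat_lit 0) .nil) .nil)))) (.nd (nat_lit 9) 
(.lf (nat_lit 447836) (.g (nat_lit 4842) (.e (nat_lit 394) (nat_lit 32) (.e (nat_lit 426316) (nat_lit 12) (.e (nat_lit 475185) (nat_lit 29) (.e (nat_lit 557097) (nat_lit 13) (.e (nat_lit 172115) (nat_lit 10) .nil))))) (.g (nat_lit 0) (.e (nat_lit 3968) (nat_lit 0) .nil) .nil))) 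
(.lf (nat_lit 448348) (.g (nat_lit 4362) (.e (nat_lit 430) (nat_lit 32) (.e (nat_lit 426190) (nat_lit 9) (.e (nat_lit 426566) (nat_lit 34) (.e (nat_lit 393252) (nat_lit 18) (.e (nat_lit 164332) (nat_lit 230) (.e (nat_lit 163869) (nat_lit 2) (.e (nat_lit 196630) (nat_lit 9) .nil))))))) (.g (nat_lit 1) (.e (nat_lit 5699) (nat_lit 0) .nil) .nil))))) (.nd (nat_lit 8) (.nd (nat_lit 9) 
(.lf (nat_lit 447708) (.g (nat_lit 4163) (.e (nat_lit 392) (nat_lit 32) (.e (nat_lit 426316) (nat_lit 12) (.e (nat_lit 475185) (nat_lit 29) (.e (nat_lit 557098) (nat_lit 13) (.e (nat_lit 172115) (nat_lit 10) (.e (nat_lit 434244) (nat_lit 28) (.e (nat_lit 573458) (nat_lit 9) .nil))))))) (.g (nat_lit 1) (.e (nat_lit 3330) (nat_lit 0) .nil) .nil))) 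
(.lf (nat_lit 448220) (.g (nat_lit 2385) (.e (nat_lit 426) (nat_lit 32) (.e (nat_lit 426308) (nat_lit 12) (.e (nat_lit 475183) (nat_lit 29) (.e (nat_lit 557100) (nat_lit 13) (.e (nat_lit 172113) (nat_lit 10) (.e (nat_lit 434245) (nat_lit 28) (.e (nat_lit 573458) (nat_lit 9) .nil))))))) (.g (nat_lit 1) (.e (nat_lit 5267) (nat_lit 0) .nil) .nil)))) (.nd (nat_lit 9) 
(.lf (nat_lit 447964) (.g (nat_lit 2003) (.e (nat_lit 403) (nat_lit 32) (.e (nat_lit 426340) (nat_lit 14) (.e (nat_lit 491549) (nat_lit 9) (.e (nat_lit 336421) (nat_lit 28) (.e (nat_lit 434197) (nat_lit 16) (.e (nat_lit 164339) (nat_lit 232) .nil)))))) (.g (nat_lit 1) (.e (nat_lit 4442) (nat_lit 0) .nil) .nil))) 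
(.lf (nat_lit 448476) (.g (nat_lit 4220) (.e (nat_lit 430) (nat_lit 32) (.e (nat_lit 426343) (nat_lit 14) (.e (nat_lit 491536) (nat_lit 2) (.e (nat_lit 90170) (nat_lit 13) (.e (nat_lit 172113) (nat_lit 10) (.e (nat_lit 434248) (nat_lit 28) (.e (nat_lit 573452) (nat_lit 9) .nil))))))) (.g (nat_lit 1) (.e (nat_lit 5972) (nat_lit 0) .nil) .nil))))))) 
(.nd (nat_lit 6) (.nd (nat_lit 7) (.nd (nat_lit 8) (.nd (nat_lit 9) 
(.lf (nat_lit 447548) (.g (nat_lit 4813) (.e (nat_lit 375) (nat_lit 32) (.e (nat_lit 426125) (nat_lit 2) (.e (nat_lit 196666) (nat_lit 13) (.e (nat_lit 65614) (nat_lit 10) (.e (nat_lit 344132) (nat_lit 26) (.e (nat_lit 557093) (nat_lit 12) (.e (nat_lit 164022) (nat_lit 46) (.e (nat_lit 704626) (nat_lit 9) .nil)))))))) (.g (nat_lit 1) (.e (nat_lit 2253) (nat_lit 0) .nil) .nil))) 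
(.lf (nat_lit 448060) (.g (nat_lit 2132) (.e (nat_lit 411) (nat_lit 32) (.e (nat_lit 426140) (nat_lit 3) (.e (nat_lit 204869) (nat_lit 29) (.e (nat_lit 360474) (nat_lit 8) (.e (nat_lit 557094) (nat_lit 12) .nil))))) (.g (nat_lit 0) (.e (nat_lit 4642) (nat_lit 0) .nil) .nil)))) (.nd (nat_lit 9) 
(.lf (nat_lit 447804) (.g (nat_lit 2538) (.e (nat_lit 396) (nat_lit 32) (.e (nat_lit 426316) (nat_lit 12) (.e (nat_lit 475185) (nat_lit 29) (.e (nat_lit 557107) (nat_lit 15) (.e (nat_lit 188440) (nat_lit 20) (.e (nat_lit 3307) (nat_lit 202) (.e (nat_lit 573457) (nat_lit 9) .nil))))))) (.g (nat_lit 1) (.e (nat_lit 3567) (nat_lit 0) .nil) .nil))) 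
(.lf (nat_lit 448316) (.g (nat_lit 3826) (.e (nat_lit 430) (nat_lit 32) (.e (nat_lit 426011) (nat_lit 0) (.e (nat_lit 7583) (nat_lit 405) (.e (nat_lit 57464) (nat_lit 23) (.e (nat_lit 516166) (nat_lit 12) (.e (nat_lit 450588) (nat_lit 10) (.e (nat_lit 573452) (nat_lit 9) .nil))))))) (.g (nat_lit 1) (.e (nat_lit 5556) (nat_lit 0) .nil) .nil))))) (.nd (nat_lit 8) (.nd (nat_lit 9) 
(.lf (nat_lit 447676) (.g (nat_lit 3193) (.e (nat_lit 389) (nat_lit 32) (.e (nat_lit 426315) (nat_lit 12) (.e (nat_lit 475183) (nat_lit 29) (.e (nat_lit 557097) (nat_lit 13) (.e (nat_lit 172115) (nat_lit 10) (.e (nat_lit 434244) (nat_lit 28) (.e (nat_lit 573450) (nat_lit 9) .nil))))))) (.g (nat_lit 1) (.e (nat_lit 3055) (nat_lit 0) .nil) .nil))) 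
(.lf (nat_lit 448188) (.g (nat_lit 3429) (.e (nat_lit 422) (nat_lit 32) (.e (nat_lit 426316) (nat_lit 12) (.e (nat_lit 475185) (nat_lit 29) (.e (nat_lit 557100) (nat_lit 13) (.e (nat_lit 172113) (nat_lit 10) .nil))))) (.g (nat_lit 0) (.e (nat_lit 5029) (nat_lit 0) .nil) .nil)))) (.nd (nat_lit 9) 
(.lf (nat_lit 447932) (.g (nat_lit 3857) (.e (nat_lit 401) (nat_lit 32) (.e (nat_lit 426340) (nat_lit 14) (.e (nat_lit 491540) (nat_lit 3) (.e (nat_lit 98373) (nat_lit 29) (.e (nat_lit 450587) (nat_lit 10) (.e (nat_lit 573465) (nat_lit 9) .nil)))))) (.g (nat_lit 1) (.e (nat_lit 4370) (nat_lit 0) .nil) .nil))) 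
(.lf (nat_lit 448444) (.g (nat_lit 3498) (.e (nat_lit 430) (nat_lit 32) (.e (nat_lit 426342) (nat_lit 14) (.e (nat_lit 491538) (nat_lit 3) (.e (nat_lit 98373) (nat_lit 29) (.e (nat_lit 450588) (nat_lit 10) (.e (nat_lit 573457) (nat_lit 9) .nil)))))) (.g (nat_lit 1) (.e (nat_lit 5939) (nat_lit 0) .nil) .nil)))))) (.nd (nat_lit 7) (.nd (nat_lit 8) (.nd (nat_lit 9) 
(.lf (nat_lit 447612) (.g (nat_lit 1693) (.e (nat_lit 375) (nat_lit 32) (.e (nat_lit 426173) (nat_lit 7) (.e (nat_lit 409617) (nat_lit 10) (.e (nat_lit 934) (nat_lit 76) (.e (nat_lit 786470) (nat_lit 27) (.e (nat_lit 336099) (nat_lit 9) (.e (nat_lit 336013) (nat_lit 2) (.e (nat_lit 98048) (nat_lit 0) .nil)))))))) (.g (nat_lit 1) (.e (nat_lit 2381) (nat_lit 0) .nil) .nil))) 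
(.lf (nat_lit 448124) (.g (nat_lit 3062) (.e (nat_lit 437) (nat_lit 32) (.e (nat_lit 426306) (nat_lit 12) (.e (nat_lit 475185) (nat_lit 29) (.e (nat_lit 557100) (nat_lit 13) (.e (nat_lit 172113) (nat_lit 10) .nil))))) (.g (nat_lit 0) (.e (nat_lit 4795) (nat_lit 0) .nil) .nil)))) (.nd (nat_lit 9) 
(.lf (nat_lit 447868) (.g (nat_lit 3182) (.e (nat_lit 399) (nat_lit 32) (.e (nat_lit 426121) (nat_lit 2) (.e (nat_lit 196666) (nat_lit 13) (.e (nat_lit 65617) (nat_lit 10) (.e (nat_lit 344130) (nat_lit 26) (.e (nat_lit 557090) (nat_lit 12) (.e (nat_lit 164022) (nat_lit 46) (.e (nat_lit 704626) (nat_lit 9) .nil)))))))) (.g (nat_lit 1) (.e (nat_lit 4191) (nat_lit 0) .nil) .nil))) 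
(.lf (nat_lit 448380) (.g (nat_lit 4390) (.e (nat_lit 430) (nat_lit 32) (.e (nat_lit 426306) (nat_lit 12) (.e (nat_lit 475185) (nat_lit 29) (.e (nat_lit 557100) (nat_lit 13) (.e (nat_lit 172113) (nat_lit 10) (.e (nat_lit 434247) (nat_lit 28) (.e (nat_lit 573456) (nat_lit 9) .nil))))))) (.g (nat_lit 1) (.e (nat_lit 5778) (nat_lit 0) .nil) .nil))))) (.nd (nat_lit 8) (.nd (nat_lit 9) 
(.lf (nat_lit 447740) (.g (nat_lit 2689) (.e (nat_lit 396) (nat_lit 32) (.e (nat_lit 426121) (nat_lit 2) (.e (nat_lit 196666) (nat_lit 13) (.e (nat_lit 65610) (nat_lit 10) (.e (nat_lit 344129) (nat_lit 26) (.e (nat_lit 557074) (nat_lit 9) (.e (nat_lit 2742) (nat_lit 174) (.e (nat_lit 253959) (nat_lit 9) .nil)))))))) (.g (nat_lit 1) (.e (nat_lit 3446) (nat_lit 0) .nil) .nil))) 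
(.lf (nat_lit 448252) (.g (nat_lit 2537) (.e (nat_lit 426) (nat_lit 32) (.e (nat_lit 426341) (nat_lit 14) (.e (nat_lit 491570) (nat_lit 13) (.e (nat_lit 393260) (nat_lit 21) (.e (nat_lit 409616) (nat_lit 10) (.e (nat_lit 5345) (nat_lit 298) .nil)))))) (.g (nat_lit 1) (.e (nat_lit 5415) (nat_lit 0) .nil) .nil)))) (.nd (nat_lit 9) 
(.lf (nat_lit 447996) (.g (nat_lit 1879) (.e (nat_lit 404) (nat_lit 32) (.e (nat_lit 426340) (nat_lit 14) (.e (nat_lit 491570) (nat_lit 13) (.e (nat_lit 393238) (nat_lit 17) (.e (nat_lit 7114) (nat_lit 381) (.e (nat_lit 229646) (nat_lit 232) .nil)))))) (.g (nat_lit 1) (.e (nat_lit 4504) (nat_lit 0) .nil) .nil))) 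
(.lf (nat_lit 448508) (.g (nat_lit 4323) (.e (nat_lit 430) (nat_lit 32) (.e (nat_lit 426343) (nat_lit 14) (.e (nat_lit 491540) (nat_lit 3) (.e (nat_lit 98373) (nat_lit 29) (.e (nat_lit 450588) (nat_lit 10) (.e (nat_lit 573451) (nat_lit 9) .nil)))))) (.g (nat_lit 1) (.e (nat_lit 6004) (nat_lit 0) .nil) .nil))))))))))) 
(.nd (nat_lit 2) (.nd (nat_lit 3) (.nd (nat_lit 4) (.nd (nat_lit 5) (.nd (nat_lit 6) 
(.nd (nat_lit 7) (.nd (nat_lit 8) (.nd (nat_lit 9) 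
(.lf (nat_lit 447490) (.g (nat_lit 3439) (.e (nat_lit 375) (nat_lit 32) (.e (nat_lit 426125) (nat_lit 2) (.e (nat_lit 196666) (nat_lit 13) (.e (nat_lit 65610) (nat_lit 10) (.e (nat_lit 344128) (nat_lit 26) (.e (nat_lit 557094) (nat_lit 12) (.e (nat_lit 164022) (nat_lit 46) (.e (nat_lit 704627) (nat_lit 9) .nil)))))))) (.g (nat_lit 1) (.e (nat_lit 2149) (nat_lit 0) .nil) .nil))) 
(.lf (nat_lit 448002) (.g (nat_lit 3026) (.e (nat_lit 404) (nat_lit 32) (.e (nat_lit 426340) (nat_lit 14) (.e (nat_lit 491571) (nat_lit 13) (.e (nat_lit 393260) (nat_lit 21) (.e (nat_lit 417536) (nat_lit 10) (.e (nat_lit 5248) (nat_lit 298) .nil)))))) (.g (nat_lit 1) (.e (nat_lit 4516) (nat_lit 0) .nil) .nil)))) (.nd (nat_lit 9) 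
(.lf (nat_lit 447746) (.g (nat_lit 2511) (.e (nat_lit 396) (nat_lit 32) (.e (nat_lit 426121) (nat_lit 2) (.e (nat_lit 196666) (nat_lit 13) (.e (nat_lit 65617) (nat_lit 10) (.e (nat_lit 344133) (nat_lit 26) (.e (nat_lit 557068) (nat_lit 9) (.e (nat_lit 2743) (nat_lit 174) (.e (nat_lit 253959) (nat_lit 9) .nil)))))))) (.g (nat_lit 1) (.e (nat_lit 3452) (nat_lit 0) .nil) .nil))) 
(.lf (nat_lit 448258) (.g (nat_lit 2256) (.e (nat_lit 426) (nat_lit 32) (.e (nat_lit 426343) (nat_lit 14) (.e (nat_lit 491538) (nat_lit 3) (.e (nat_lit 98359) (nat_lit 26) (.e (nat_lit 426286) (nat_lit 10) (.e (nat_lit 434245) (nat_lit 28) (.e (nat_lit 573458) (nat_lit 9) .nil))))))) (.g (nat_lit 1) (.e (nat_lit 5421) (nat_lit 0) .nil) .nil))))) (.nd (nat_lit 8) (.nd (nat_lit 9) 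
(.lf (nat_lit 447618) (.g (nat_lit 3660) (.e (nat_lit 375) (nat_lit 32) (.e (nat_lit 426201) (nat_lit 9) (.e (nat_lit 426566) (nat_lit 34) (.e (nat_lit 393253) (nat_lit 18) (.e (nat_lit 164332) (nat_lit 230) .nil))))) (.g (nat_lit 0) (.e (nat_lit 2891) (nat_lit 0) .nil) .nil))) 
(.lf (nat_lit 448130) (.g (nat_lit 3813) (.e (nat_lit 438) (nat_lit 32) (.e (nat_lit 426316) (nat_lit 12) (.e (nat_lit 475185) (nat_lit 29) (.e (nat_lit 557098) (nat_lit 13) (.e (nat_lit 172115) (nat_lit 10) .nil))))) (.g (nat_lit 0) (.e (nat_lit 4823) (nat_lit 0) .nil) .nil)))) (.nd (nat_lit 9) 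
(.lf (nat_lit 447874) (.g (nat_lit 4154) (.e (nat_lit 399) (nat_lit 32) (.e (nat_lit 426123) (nat_lit 2) (.e (nat_lit 196666) (nat_lit 13) (.e (nat_lit 65617) (nat_lit 10) (.e (nat_lit 344132) (nat_lit 26) (.e (nat_lit 557093) (nat_lit 12) (.e (nat_lit 164022) (nat_lit 46) (.e (nat_lit 704628) (nat_lit 9) .nil)))))))) (.g (nat_lit 1) (.e (nat_lit 4197) (nat_lit 0) .nil) .nil))) 
(.lf (nat_lit 448386) (.g (nat_lit 5222) (.e (nat_lit 430) (nat_lit 32) (.e (nat_lit 426308) (nat_lit 12) (.e (nat_lit 475183) (nat_lit 29) (.e (nat_lit 557097) (nat_lit 13) (.e (nat_lit 172115) (nat_lit 10) (.e (nat_lit 434244) (nat_lit 28) (.e (nat_lit 573449) (nat_lit 9) .nil))))))) (.g (nat_lit 1) (.e (nat_lit 5785) (nat_lit 0) .nil) .nil)))))) 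
(.nd (nat_lit 7) (.nd (nat_lit 8) (.nd (nat_lit 9) 
(.lf (nat_lit 447554) (.g (nat_lit 1842) (.e (nat_lit 375) (nat_lit 32) (.e (nat_lit 426125) (nat_lit 2) (.e (nat_lit 196666) (nat_lit 13) (.e (nat_lit 65617) (nat_lit 10) (.e (nat_lit 344127) (nat_lit 26) .nil))))) (.g (nat_lit 0) (.e (nat_lit 2261) (nat_lit 0) .nil) .nil))) 
(.lf (nat_lit 448066) (.g (nat_lit 4143) (.e (nat_lit 411) (nat_lit 32) (.e (nat_lit 426195) (nat_lit 9) (.e (nat_lit 426566) (nat_lit 34) (.e (nat_lit 393253) (nat_lit 18) (.e (nat_lit 164327) (nat_lit 230) (.e (nat_lit 163868) (nat_lit 2) (.e (nat_lit 196624) (nat_lit 9) .nil))))))) (.g (nat_lit 1) (.e (nat_lit 4649) (nat_lit 0) .nil) .nil)))) (.nd (nat_lit 9) 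
(.lf (nat_lit 447810) (.g (nat_lit 3920) (.e (nat_lit 396) (nat_lit 32) (.e (nat_lit 426341) (nat_lit 14) (.e (nat_lit 491540) (nat_lit 3) (.e (nat_lit 98373) (nat_lit 29) (.e (nat_lit 450588) (nat_lit 10) (.e (nat_lit 573451) (nat_lit 9) .nil)))))) (.g (nat_lit 1) (.e (nat_lit 3731) (nat_lit 0) .nil) .nil))) 
(.lf (nat_lit 448322) (.g (nat_lit 3727) (.e (nat_lit 430) (nat_lit 32) (.e (nat_lit 426012) (nat_lit 0) (.e (nat_lit 7490) (nat_lit 402) (.e (nat_lit 1256) (nat_lit 92) (.e (nat_lit 98373) (nat_lit 29) (.e (nat_lit 450588) (nat_lit 10) (.e (nat_lit 573452) (nat_lit 9) .nil))))))) (.g (nat_lit 1) (.e (nat_lit 5562) (nat_lit 0) .nil) .nil))))) (.nd (nat_lit 8) (.nd (nat_lit 9) 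
(.lf (nat_lit 447682) (.g (nat_lit 3522) (.e (nat_lit 391) (nat_lit 32) (.e (nat_lit 426123) (nat_lit 2) (.e (nat_lit 196666) (nat_lit 13) (.e (nat_lit 65617) (nat_lit 10) (.e (nat_lit 344132) (nat_lit 26) .nil))))) (.g (nat_lit 0) (.e (nat_lit 3074) (nat_lit 0) .nil) .nil))) 
(.lf (nat_lit 448194) (.g (nat_lit 3675) (.e (nat_lit 423) (nat_lit 32) (.e (nat_lit 426316) (nat_lit 12) (.e (nat_lit 475185) (nat_lit 29) (.e (nat_lit 557101) (nat_lit 13) (.e (nat_lit 172115) (nat_lit 10) .nil))))) (.g (nat_lit 0) (.e (nat_lit 5052) (nat_lit 0) .nil) .nil)))) (.nd (nat_lit 9) 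
(.lf (nat_lit 447938) (.g (nat_lit 1669) (.e (nat_lit 401) (nat_lit 32) (.e (nat_lit 426340) (nat_lit 14) (.e (nat_lit 491550) (nat_lit 9) (.e (nat_lit 336421) (nat_lit 28) (.e (nat_lit 434197) (nat_lit 16) (.e (nat_lit 164337) (nat_lit 232) .nil)))))) (.g (nat_lit 1) (.e (nat_lit 4380) (nat_lit 0) .nil) .nil))) 
(.lf (nat_lit 448450) (.g (nat_lit 2544) (.e (nat_lit 430) (nat_lit 32) (.e (nat_lit 426342) (nat_lit 14) (.e (nat_lit 491540) (nat_lit 3) (.e (nat_lit 98372) (nat_lit 29) (.e (nat_lit 450586) (nat_lit 10) (.e (nat_lit 573456) (nat_lit 9) .nil)))))) (.g (nat_lit 1) (.e (nat_lit 5945) (nat_lit 0) .nil) .nil))))))) (.nd (nat_lit 6) (.nd (nat_lit 7) (.nd (nat_lit 8) (.nd (nat_lit 9) 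
(.lf (nat_lit 447522) (.g (nat_lit 4873) (.e (nat_lit 375) (nat_lit 32) (.e (nat_lit 426125) (nat_lit 2) (.e (nat_lit 196666) (nat_lit 13) (.e (nat_lit 65610) (nat_lit 10) (.e (nat_lit 344131) (nat_lit 26) (.e (nat_lit 557091) (nat_lit 12) (.e (nat_lit 164022) (nat_lit 46) (.e (nat_lit 704628) (nat_lit 9) .nil)))))))) (.g (nat_lit 1) (.e (nat_lit 2220) (nat_lit 0) .nil) .nil))) 
(.lf (nat_lit 448034) (.g (nat_lit 6212) (.e (nat_lit 411) (nat_lit 32) (.e (nat_lit 426125) (nat_lit 2) (.e (nat_lit 196666) (nat_lit 13) (.e (nat_lit 65617) (nat_lit 10) (.e (nat_lit 344130) (nat_lit 26) (.e (nat_lit 557090) (nat_lit 12) (.e (nat_lit 164022) (nat_lit 46) (.e (nat_lit 704629) (nat_lit 9) .nil)))))))) (.g (nat_lit 1) (.e (nat_lit 4606) (nat_lit 0) .nil) .nil)))) (.nd (nat_lit 9) 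
(.lf (nat_lit 447778) (.g (nat_lit 2039) (.e (nat_lit 396) (nat_lit 32) (.e (nat_lit 426190) (nat_lit 9) (.e (nat_lit 426566) (nat_lit 34) (.e (nat_lit 393253) (nat_lit 18) (.e (nat_lit 164329) (nat_lit 230) .nil))))) (.g (nat_lit 0) (.e (nat_lit 3524) (nat_lit 0) .nil) .nil))) 
(.lf (nat_lit 448290) (.g (nat_lit 1930) (.e (nat_lit 430) (nat_lit 32) (.e (nat_lit 426011) (nat_lit 0) (.e (nat_lit 3546) (nat_lit 219) (.e (nat_lit 712753) (nat_lit 30) (.e (nat_lit 450586) (nat_lit 10) (.e (nat_lit 573473) (nat_lit 12) (.e (nat_lit 57507) (nat_lit 39) (.e (nat_lit 647190) (nat_lit 9) .nil)))))))) (.g (nat_lit 1) (.e (nat_lit 5526) (nat_lit 0) .nil) .nil))))) 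
(.nd (nat_lit 8) (.nd (nat_lit 9) 
(.lf (nat_lit 447650) (.g (nat_lit 170) (.e (nat_lit 386) (nat_lit 32) (.e (nat_lit 426230) (nat_lit 9) (.e (nat_lit 426549) (nat_lit 31) .nil))) (.g (nat_lit 0) (.e (nat_lit 2983) (nat_lit 0) .nil) .nil))) 
(.lf (nat_lit 448162) (.g (nat_lit 2207) (.e (nat_lit 416) (nat_lit 32) (.e (nat_lit 426124) (nat_lit 2) (.e (nat_lit 196666) (nat_lit 13) (.e (nat_lit 65617) (nat_lit 10) .nil)))) (.g (nat_lit 0) (.e (nat_lit 4918) (nat_lit 0) .nil) .nil)))) (.nd (nat_lit 9) 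
(.lf (nat_lit 447906) (.g (nat_lit 642) (.e (nat_lit 397) (nat_lit 32) (.e (nat_lit 426344) (nat_lit 14) (.e (nat_lit 491536) (nat_lit 2) .nil))) (.g (nat_lit 0) (.e (nat_lit 4288) (nat_lit 0) .nil) .nil))) 
(.lf (nat_lit 448418) (.g (nat_lit 4411) (.e (nat_lit 430) (nat_lit 32) (.e (nat_lit 426315) (nat_lit 12) (.e (nat_lit 475185) (nat_lit 29) (.e (nat_lit 557100) (nat_lit 13) (.e (nat_lit 172113) (nat_lit 10) (.e (nat_lit 434245) (nat_lit 28) (.e (nat_lit 573451) (nat_lit 9) .nil))))))) (.g (nat_lit 1) (.e (nat_lit 5817) (nat_lit 0) .nil) .nil)))))) 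
(.nd (nat_lit 7) (.nd (nat_lit 8) (.nd (nat_lit 9) 
(.lf (nat_lit 447586) (.g (nat_lit 2362) (.e (nat_lit 375) (nat_lit 32) (.e (nat_lit 426140) (nat_lit 3) (.e (nat_lit 204868) (nat_lit 29) (.e (nat_lit 360474) (nat_lit 8) (.e (nat_lit 557093) (nat_lit 12) (.e (nat_lit 164022) (nat_lit 46) (.e (nat_lit 704629) (nat_lit 9) .nil))))))) (.g (nat_lit 1) (.e (nat_lit 2301) (nat_lit 0) .nil) .nil))) 
(.lf (nat_lit 448098) (.g (nat_lit 2800) (.e (nat_lit 436) (nat_lit 32) (.e (nat_lit 426123) (nat_lit 2) (.e (nat_lit 196666) (nat_lit 13) (.e (nat_lit 65617) (nat_lit 10) (.e (nat_lit 344132) (nat_lit 26) (.e (nat_lit 557093) (nat_lit 12) (.e (nat_lit 164023) (nat_lit 46) (.e (nat_lit 704629) (nat_lit 9) .nil)))))))) (.g (nat_lit 1) (.e (nat_lit 4716) (nat_lit 0) .nil) .nil)))) (.nd (nat_lit 9) 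
(.lf (nat_lit 447842) (.g (nat_lit 2371) (.e (nat_lit 394) (nat_lit 32) (.e (nat_lit 426341) (nat_lit 14) (.e (nat_lit 491570) (nat_lit 13) (.e (nat_lit 393260) (nat_lit 21) (.e (nat_lit 409617) (nat_lit 10) (.e (nat_lit 7936) (nat_lit 298) .nil)))))) (.g (nat_lit 1) (.e (nat_lit 4042) (nat_lit 0) .nil) .nil))) 
(.lf (nat_lit 448354) (.g (nat_lit 1934) (.e (nat_lit 430) (nat_lit 32) (.e (nat_lit 426190) (nat_lit 9) (.e (nat_lit 426566) (nat_lit 34) (.e (nat_lit 393253) (nat_lit 18) (.e (nat_lit 164330) (nat_lit 230) (.e (nat_lit 163866) (nat_lit 2) (.e (nat_lit 196630) (nat_lit 9) .nil))))))) (.g (nat_lit 1) (.e (nat_lit 5706) (nat_lit 0) .nil) .nil))))) (.nd (nat_lit 8) (.nd (nat_lit 9) 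
(.lf (nat_lit 447714) (.g (nat_lit 4788) (.e (nat_lit 392) (nat_lit 32) (.e (nat_lit 426316) (nat_lit 12) (.e (nat_lit 475185) (nat_lit 29) (.e (nat_lit 557107) (nat_lit 15) (.e (nat_lit 188440) (nat_lit 20) (.e (nat_lit 3307) (nat_lit 202) (.e (nat_lit 573456) (nat_lit 9) .nil))))))) (.g (nat_lit 1) (.e (nat_lit 3336) (nat_lit 0) .nil) .nil))) 
(.lf (nat_lit 448226) (.g (nat_lit 2557) (.e (nat_lit 426) (nat_lit 32) (.e (nat_lit 426314) (nat_lit 12) (.e (nat_lit 475185) (nat_lit 29) (.e (nat_lit 557098) (nat_lit 13) (.e (nat_lit 172115) (nat_lit 10) .nil))))) (.g (nat_lit 0) (.e (nat_lit 5273) (nat_lit 0) .nil) .nil)))) (.nd (nat_lit 9) 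
(.lf (nat_lit 447970) (.g (nat_lit 2516) (.e (nat_lit 403) (nat_lit 32) (.e (nat_lit 426340) (nat_lit 14) (.e (nat_lit 491568) (nat_lit 13) (.e (nat_lit 393260) (nat_lit 21) (.e (nat_lit 409618) (nat_lit 10) .nil))))) (.g (nat_lit 0) (.e (nat_lit 4448) (nat_lit 0) .nil) .nil))) 
(.lf (nat_lit 448482) (.g (nat_lit 4595) (.e (nat_lit 430) (nat_lit 32) (.e (nat_lit 426343) (nat_lit 14) (.e (nat_lit 491537) (nat_lit 2) (.e (nat_lit 90170) (nat_lit 13) (.e (nat_lit 172113) (nat_lit 10) (.e (nat_lit 434247) (nat_lit 28) (.e (nat_lit 573456) (nat_lit 9) .nil))))))) (.g (nat_lit 1) (.e (nat_lit 5978) (nat_lit 0) .nil) .nil)))))))) 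
(.nd (nat_lit 5) (.nd (nat_lit 6) (.nd (nat_lit 7) (.nd (nat_lit 8) (.nd (nat_lit 9) 
(.lf (nat_lit 447506) (.g (nat_lit 4832) (.e (nat_lit 375) (nat_lit 32) (.e (nat_lit 426125) (nat_lit 2) (.e (nat_lit 196666) (nat_lit 13) (.e (nat_lit 65610) (nat_lit 10) (.e (nat_lit 344129) (nat_lit 26) (.e (nat_lit 557092) (nat_lit 12) (.e (nat_lit 164023) (nat_lit 46) (.e (nat_lit 704627) (nat_lit 9) .nil)))))))) (.g (nat_lit 1) (.e (nat_lit 2202) (nat_lit 0) .nil) .nil))) 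
(.lf (nat_lit 448018) (.g (nat_lit 2375) (.e (nat_lit 410) (nat_lit 32) (.e (nat_lit 426340) (nat_lit 14) (.e (nat_lit 491537) (nat_lit 2) (.e (nat_lit 90170) (nat_lit 13) (.e (nat_lit 172113) (nat_lit 10) (.e (nat_lit 434247) (nat_lit 28) (.e (nat_lit 573454) (nat_lit 9) .nil))))))) (.g (nat_lit 1) (.e (nat_lit 4590) (nat_lit 0) .nil) .nil)))) (.nd (nat_lit 9) 
(.lf (nat_lit 447762) (.g (nat_lit 3683) (.e (nat_lit 396) (nat_lit 32) (.e (nat_lit 426123) (nat_lit 2) (.e (nat_lit 196666) (nat_lit 13) (.e (nat_lit 65617) (nat_lit 10) (.e (nat_lit 344133) (nat_lit 26) (.e (nat_lit 557065) (nat_lit 9) (.e (nat_lit 2741) (nat_lit 174) (.e (nat_lit 253959) (nat_lit 9) .nil)))))))) (.g (nat_lit 1) (.e (nat_lit 3468) (nat_lit 0) .nil) .nil))) 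
(.lf (nat_lit 448274) (.g (nat_lit 2857) (.e (nat_lit 425) (nat_lit 32) (.e (nat_lit 426316) (nat_lit 12) (.e (nat_lit 475185) (nat_lit 29) (.e (nat_lit 557098) (nat_lit 13) .nil)))) (.g (nat_lit 0) (.e (nat_lit 5500) (nat_lit 0) .nil) .nil))))) (.nd (nat_lit 8) (.nd (nat_lit 9) 
(.lf (nat_lit 447634) (.g (nat_lit 2189) (.e (nat_lit 378) (nat_lit 32) (.e (nat_lit 426436) (nat_lit 18) (.e (nat_lit 98358) (nat_lit 26) (.e (nat_lit 426131) (nat_lit 3) .nil)))) (.g (nat_lit 0) (.e (nat_lit 2941) (nat_lit 0) .nil) .nil))) 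
(.lf (nat_lit 448146) (.g (nat_lit 5101) (.e (nat_lit 440) (nat_lit 32) (.e (nat_lit 426139) (nat_lit 3) (.e (nat_lit 204869) (nat_lit 29) (.e (nat_lit 360475) (nat_lit 8) (.e (nat_lit 557091) (nat_lit 12) (.e (nat_lit 164022) (nat_lit 46) (.e (nat_lit 704628) (nat_lit 9) .nil))))))) (.g (nat_lit 1) (.e (nat_lit 4888) (nat_lit 0) .nil) .nil)))) (.nd (nat_lit 9) 
(.lf (nat_lit 447890) (.g (nat_lit 3706) (.e (nat_lit 397) (nat_lit 32) (.e (nat_lit 426190) (nat_lit 9) (.e (nat_lit 426566) (nat_lit 34) (.e (nat_lit 393253) (nat_lit 18) (.e (nat_lit 164327) (nat_lit 230) (.e (nat_lit 163868) (nat_lit 2) (.e (nat_lit 196628) (nat_lit 9) .nil))))))) (.g (nat_lit 1) (.e (nat_lit 4254) (nat_lit 0) .nil) .nil))) 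
(.lf (nat_lit 448402) (.g (nat_lit 4055) (.e (nat_lit 430) (nat_lit 32) (.e (nat_lit 426308) (nat_lit 12) (.e (nat_lit 475184) (nat_lit 29) (.e (nat_lit 557100) (nat_lit 13) (.e (nat_lit 172113) (nat_lit 10) (.e (nat_lit 434247) (nat_lit 28) (.e (nat_lit 573457) (nat_lit 9) .nil))))))) (.g (nat_lit 1) (.e (nat_lit 5801) (nat_lit 0) .nil) .nil)))))) 
(.nd (nat_lit 7) (.nd (nat_lit 8) (.nd (nat_lit 9) 
(.lf (nat_lit 447570) (.g (nat_lit 1740) (.e (nat_lit 375) (nat_lit 32) (.e (nat_lit 426135) (nat_lit 3) (.e (nat_lit 204868) (nat_lit 29) (.e (nat_lit 360473) (nat_lit 8) (.e (nat_lit 557093) (nat_lit 12) (.e (nat_lit 164022) (nat_lit 46) (.e (nat_lit 704626) (nat_lit 9) .nil))))))) (.g (nat_lit 1) (.e (nat_lit 2282) (nat_lit 0) .nil) .nil))) 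
(.lf (nat_lit 448082) (.g (nat_lit 3575) (.e (nat_lit 413) (nat_lit 32) (.e (nat_lit 426316) (nat_lit 12) (.e (nat_lit 475185) (nat_lit 29) (.e (nat_lit 557101) (nat_lit 13) (.e (nat_lit 172115) (nat_lit 10) .nil))))) (.g (nat_lit 0) (.e (nat_lit 4693) (nat_lit 0) .nil) .nil)))) (.nd (nat_lit 9) 
(.lf (nat_lit 447826) (.g (nat_lit 1668) (.e (nat_lit 396) (nat_lit 32) (.e (nat_lit 426343) (nat_lit 14) (.e (nat_lit 491570) (nat_lit 13) (.e (nat_lit 393260) (nat_lit 21) .nil)))) (.g (nat_lit 0) (.e (nat_lit 3747) (nat_lit 0) .nil) .nil))) 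
(.lf (nat_lit 448338) (.g (nat_lit 2994) (.e (nat_lit 430) (nat_lit 32) (.e (nat_lit 426139) (nat_lit 3) (.e (nat_lit 204869) (nat_lit 29) (.e (nat_lit 360474) (nat_lit 8) (.e (nat_lit 557093) (nat_lit 12) (.e (nat_lit 164022) (nat_lit 46) (.e (nat_lit 704647) (nat_lit 9) .nil))))))) (.g (nat_lit 1) (.e (nat_lit 5677) (nat_lit 0) .nil) .nil))))) (.nd (nat_lit 8) (.nd (nat_lit 9) 
(.lf (nat_lit 447698) (.g (nat_lit 1723) (.e (nat_lit 392) (nat_lit 32) (.e (nat_lit 426188) (nat_lit 9) (.e (nat_lit 426566) (nat_lit 34) (.e (nat_lit 393254) (nat_lit 18) (.e (nat_lit 164326) (nat_lit 230) (.e (nat_lit 163871) (nat_lit 2) (.e (nat_lit 196626) (nat_lit 9) .nil))))))) (.g (nat_lit 1) (.e (nat_lit 3311) (nat_lit 0) .nil) .nil))) 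
(.lf (nat_lit 448210) (.g (nat_lit 4580) (.e (nat_lit 426) (nat_lit 32) (.e (nat_lit 426306) (nat_lit 12) (.e (nat_lit 475183) (nat_lit 29) (.e (nat_lit 557098) (nat_lit 13) (.e (nat_lit 172115) (nat_lit 10) (.e (nat_lit 434244) (nat_lit 28) (.e (nat_lit 573458) (nat_lit 9) .nil))))))) (.g (nat_lit 1) (.e (nat_lit 5257) (nat_lit 0) .nil) .nil)))) (.nd (nat_lit 9) 
(.lf (nat_lit 447954) (.g (nat_lit 3326) (.e (nat_lit 401) (nat_lit 32) (.e (nat_lit 426340) (nat_lit 14) (.e (nat_lit 491571) (nat_lit 13) (.e (nat_lit 393260) (nat_lit 21) (.e (nat_lit 409623) (nat_lit 10) (.e (nat_lit 5259) (nat_lit 298) .nil)))))) (.g (nat_lit 1) (.e (nat_lit 4407) (nat_lit 0) .nil) .nil))) 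
(.lf (nat_lit 448466) (.g (nat_lit 3988) (.e (nat_lit 430) (nat_lit 32) (.e (nat_lit 426343) (nat_lit 14) (.e (nat_lit 491526) (nat_lit 0) (.e (nat_lit 1788) (nat_lit 119) (.e (nat_lit 516166) (nat_lit 12) (.e (nat_lit 450587) (nat_lit 10) (.e (nat_lit 573457) (nat_lit 9) .nil))))))) (.g (nat_lit 1) (.e (nat_lit 5962) (nat_lit 0) .nil) .nil))))))) 
(.nd (nat_lit 6) (.nd (nat_lit 7) (.nd (nat_lit 8) (.nd (nat_lit 9) 
(.lf (nat_lit 447538) (.g (nat_lit 5054) (.e (nat_lit 375) (nat_lit 32) (.e (nat_lit 426125) (nat_lit 2) (.e (nat_lit 196666) (nat_lit 13) (.e (nat_lit 65610) (nat_lit 10) (.e (nat_lit 344132) (nat_lit 26) (.e (nat_lit 557093) (nat_lit 12) (.e (nat_lit 164023) (nat_lit 46) (.e (nat_lit 704626) (nat_lit 9) .nil)))))))) (.g (nat_lit 1) (.e (nat_lit 2236) (nat_lit 0) .nil) .nil))) 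
(.lf (nat_lit 448050) (.g (nat_lit 1759) (.e (nat_lit 411) (nat_lit 32) (.e (nat_lit 426140) (nat_lit 3) (.e (nat_lit 204868) (nat_lit 29) (.e (nat_lit 360473) (nat_lit 8) (.e (nat_lit 557094) (nat_lit 12) .nil))))) (.g (nat_lit 0) (.e (nat_lit 4631) (nat_lit 0) .nil) .nil)))) (.nd (nat_lit 9) 
(.lf (nat_lit 447794) (.g (nat_lit 4631) (.e (nat_lit 396) (nat_lit 32) (.e (nat_lit 426316) (nat_lit 12) (.e (nat_lit 475185) (nat_lit 29) (.e (nat_lit 557098) (nat_lit 13) (.e (nat_lit 172106) (nat_lit 10) .nil))))) (.g (nat_lit 0) (.e (nat_lit 3557) (nat_lit 0) .nil) .nil))) 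
(.lf (nat_lit 448306) (.g (nat_lit 2649) (.e (nat_lit 430) (nat_lit 32) (.e (nat_lit 426011) (nat_lit 0) (.e (nat_lit 7523) (nat_lit 402) (.e (nat_lit 1235) (nat_lit 91) (.e (nat_lit 90170) (nat_lit 13) (.e (nat_lit 172113) (nat_lit 10) (.e (nat_lit 434248) (nat_lit 28) (.e (nat_lit 573452) (nat_lit 9) .nil)))))))) (.g (nat_lit 1) (.e (nat_lit 5546) (nat_lit 0) .nil) .nil))))) 
(.nd (nat_lit 8) (.nd (nat_lit 9) 
(.lf (nat_lit 447666) (.g (nat_lit 3225) (.e (nat_lit 389) (nat_lit 32) (.e (nat_lit 426121) (nat_lit 2) (.e (nat_lit 196666) (nat_lit 13) (.e (nat_lit 65617) (nat_lit 10) (.e (nat_lit 344133) (nat_lit 26) (.e (nat_lit 557091) (nat_lit 12) (.e (nat_lit 164022) (nat_lit 46) (.e (nat_lit 704628) (nat_lit 9) .nil)))))))) (.g (nat_lit 1) (.e (nat_lit 3038) (nat_lit 0) .nil) .nil))) 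
(.lf (nat_lit 448178) (.g (nat_lit 3273) (.e (nat_lit 418) (nat_lit 32) (.e (nat_lit 426347) (nat_lit 14) (.e (nat_lit 491570) (nat_lit 13) (.e (nat_lit 393260) (nat_lit 21) (.e (nat_lit 409617) (nat_lit 10) (.e (nat_lit 5353) (nat_lit 298) .nil)))))) (.g (nat_lit 1) (.e (nat_lit 4985) (nat_lit 0) .nil) .nil)))) (.nd (nat_lit 9) 
(.lf (nat_lit 447922) (.g (nat_lit 4289) (.e (nat_lit 398) (nat_lit 32) (.e (nat_lit 426338) (nat_lit 14) (.e (nat_lit 491571) (nat_lit 13) (.e (nat_lit 393260) (nat_lit 21) (.e (nat_lit 409616) (nat_lit 10) (.e (nat_lit 7936) (nat_lit 298) .nil)))))) (.g (nat_lit 1) (.e (nat_lit 4322) (nat_lit 0) .nil) .nil))) 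
(.lf (nat_lit 448434) (.g (nat_lit 539) (.e (nat_lit 430) (nat_lit 32) (.e (nat_lit 426341) (nat_lit 14) (.e (nat_lit 491538) (nat_lit 3) .nil))) (.g (nat_lit 0) (.e (nat_lit 5929) (nat_lit 0) .nil) .nil)))))) (.nd (nat_lit 7) (.nd (nat_lit 8) (.nd (nat_lit 9) 
(.lf (nat_lit 447602) (.g (nat_lit 3417) (.e (nat_lit 375) (nat_lit 32) (.e (nat_lit 426173) (nat_lit 7) (.e (nat_lit 409616) (nat_lit 10) (.e (nat_lit 7936) (nat_lit 43) (.e (nat_lit 516166) (nat_lit 12) (.e (nat_lit 450587) (nat_lit 10) (.e (nat_lit 581376) (nat_lit 9) .nil))))))) (.g (nat_lit 1) (.e (nat_lit 2318) (nat_lit 0) .nil) .nil))) 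
(.lf (nat_lit 448114) (.g (nat_lit 4588) (.e (nat_lit 436) (nat_lit 32) (.e (nat_lit 426139) (nat_lit 3) (.e (nat_lit 204869) (nat_lit 29) (.e (nat_lit 360475) (nat_lit 8) (.e (nat_lit 557091) (nat_lit 12) (.e (nat_lit 164022) (nat_lit 46) (.e (nat_lit 704626) (nat_lit 9) .nil))))))) (.g (nat_lit 1) (.e (nat_lit 4749) (nat_lit 0) .nil) .nil)))) (.nd (nat_lit 9) 
(.lf (nat_lit 447858) (.g (nat_lit 3071) (.e (nat_lit 395) (nat_lit 32) (.e (nat_lit 426316) (nat_lit 12) (.e (nat_lit 475185) (nat_lit 29) (.e (nat_lit 557098) (nat_lit 13) (.e (nat_lit 172115) (nat_lit 10) (.e (nat_lit 434244) (nat_lit 28) (.e (nat_lit 573453) (nat_lit 9) .nil))))))) (.g (nat_lit 1) (.e (nat_lit 4143) (nat_lit 0) .nil) .nil))) 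
(.lf (nat_lit 448370) (.g (nat_lit 3301) (.e (nat_lit 430) (nat_lit 32) (.e (nat_lit 426298) (nat_lit 11) (.e (nat_lit 458789) (nat_lit 23) (.e (nat_lit 532482) (nat_lit 0) (.e (nat_lit 6724) (nat_lit 362) (.e (nat_lit 180251) (nat_lit 10) (.e (nat_lit 573457) (nat_lit 9) .nil))))))) (.g (nat_lit 1) (.e (nat_lit 5768) (nat_lit 0) .nil) .nil))))) (.nd (nat_lit 8) (.nd (nat_lit 9) 
(.lf (nat_lit 447730) (.g (nat_lit 1847) (.e (nat_lit 393) (nat_lit 32) (.e (nat_lit 426190) (nat_lit 9) (.e (nat_lit 426566) (nat_lit 34) (.e (nat_lit 393253) (nat_lit 18) (.e (nat_lit 164327) (nat_lit 230) (.e (nat_lit 163868) (nat_lit 2) (.e (nat_lit 196627) (nat_lit 9) .nil))))))) (.g (nat_lit 1) (.e (nat_lit 3424) (nat_lit 0) .nil) .nil))) 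
(.lf (nat_lit 448242) (.g (nat_lit 4602) (.e (nat_lit 426) (nat_lit 32) (.e (nat_lit 426316) (nat_lit 12) (.e (nat_lit 475185) (nat_lit 29) (.e (nat_lit 557100) (nat_lit 13) (.e (nat_lit 172106) (nat_lit 10) (.e (nat_lit 434244) (nat_lit 28) (.e (nat_lit 573458) (nat_lit 9) .nil))))))) (.g (nat_lit 1) (.e (nat_lit 5293) (nat_lit 0) .nil) .nil)))) (.nd (nat_lit 9) 
(.lf (nat_lit 447986) (.g (nat_lit 3901) (.e (nat_lit 403) (nat_lit 32) (.e (nat_lit 426340) (nat_lit 14) (.e (nat_lit 491571) (nat_lit 13) (.e (nat_lit 393260) (nat_lit 21) (.e (nat_lit 409621) (nat_lit 10) (.e (nat_lit 5364) (nat_lit 298) .nil)))))) (.g (nat_lit 1) (.e (nat_lit 4465) (nat_lit 0) .nil) .nil))) 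
(.lf (nat_lit 448498) (.g (nat_lit 4716) (.e (nat_lit 430) (nat_lit 32) (.e (nat_lit 426343) (nat_lit 14) (.e (nat_lit 491539) (nat_lit 3) (.e (nat_lit 98373) (nat_lit 29) (.e (nat_lit 450588) (nat_lit 10) (.e (nat_lit 573451) (nat_lit 9) .nil)))))) (.g (nat_lit 1) (.e (nat_lit 5994) (nat_lit 0) .nil) .nil))))))))) 
(.nd (nat_lit 4) (.nd (nat_lit 5) (.nd (nat_lit 6) (.nd (nat_lit 7) (.nd (nat_lit 8) 
(.nd (nat_lit 9) 
(.lf (nat_lit 447498) (.g (nat_lit 5110) (.e (nat_lit 375) (nat_lit 32) (.e (nat_lit 426125) (nat_lit 2) (.e (nat_lit 196666) (nat_lit 13) (.e (nat_lit 65610) (nat_lit 10) (.e (nat_lit 344129) (nat_lit 26) (.e (nat_lit 557089) (nat_lit 12) (.e (nat_lit 164023) (nat_lit 46) (.e (nat_lit 704629) (nat_lit 9) .nil)))))))) (.g (nat_lit 1) (.e (nat_lit 2193) (nat_lit 0) .nil) .nil))) 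
(.lf (nat_lit 448010) (.g (nat_lit 2663) (.e (nat_lit 414) (nat_lit 32) (.e (nat_lit 426140) (nat_lit 3) (.e (nat_lit 204869) (nat_lit 29) (.e (nat_lit 360474) (nat_lit 8) (.e (nat_lit 557093) (nat_lit 12) .nil))))) (.g (nat_lit 0) (.e (nat_lit 4556) (nat_lit 0) .nil) .nil)))) (.nd (nat_lit 9) 
(.lf (nat_lit 447754) (.g (nat_lit 3489) (.e (nat_lit 396) (nat_lit 32) (.e (nat_lit 426123) (nat_lit 2) (.e (nat_lit 196666) (nat_lit 13) (.e (nat_lit 65617) (nat_lit 10) (.e (nat_lit 344130) (nat_lit 26) .nil))))) (.g (nat_lit 0) (.e (nat_lit 3460) (nat_lit 0) .nil) .nil))) 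
(.lf (nat_lit 448266) (.g (nat_lit 3326) (.e (nat_lit 424) (nat_lit 32) (.e (nat_lit 426316) (nat_lit 12) (.e (nat_lit 475185) (nat_lit 29) (.e (nat_lit 557100) (nat_lit 13) .nil)))) (.g (nat_lit 0) (.e (nat_lit 5470) (nat_lit 0) .nil) .nil))))) (.nd (nat_lit 8) (.nd (nat_lit 9) 
(.lf (nat_lit 447626) (.g (nat_lit 1839) (.e (nat_lit 375) (nat_lit 32) (.e (nat_lit 426317) (nat_lit 12) (.e (nat_lit 475185) (nat_lit 29) (.e (nat_lit 557100) (nat_lit 13) (.e (nat_lit 172113) (nat_lit 10) (.e (nat_lit 434245) (nat_lit 28) (.e (nat_lit 573449) (nat_lit 9) .nil))))))) (.g (nat_lit 1) (.e (nat_lit 2905) (nat_lit 0) .nil) .nil))) 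
(.lf (nat_lit 448138) (.g (nat_lit 2391) (.e (nat_lit 440) (nat_lit 32) (.e (nat_lit 426121) (nat_lit 2) (.e (nat_lit 196666) (nat_lit 13) (.e (nat_lit 65617) (nat_lit 10) (.e (nat_lit 344132) (nat_lit 26) (.e (nat_lit 557094) (nat_lit 12) (.e (nat_lit 164022) (nat_lit 46) (.e (nat_lit 704629) (nat_lit 9) .nil)))))))) (.g (nat_lit 1) (.e (nat_lit 4859) (nat_lit 0) .nil) .nil)))) (.nd (nat_lit 9) 
(.lf (nat_lit 447882) (.g (nat_lit 3761) (.e (nat_lit 399) (nat_lit 32) (.e (nat_lit 426316) (nat_lit 12) (.e (nat_lit 475185) (nat_lit 29) (.e (nat_lit 557101) (nat_lit 13) (.e (nat_lit 172115) (nat_lit 10) .nil))))) (.g (nat_lit 0) (.e (nat_lit 4213) (nat_lit 0) .nil) .nil))) 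
(.lf (nat_lit 448394) (.g (nat_lit 4295) (.e (nat_lit 430) (nat_lit 32) (.e (nat_lit 426308) (nat_lit 12) (.e (nat_lit 475183) (nat_lit 29) (.e (nat_lit 557107) (nat_lit 15) (.e (nat_lit 188440) (nat_lit 20) (.e (nat_lit 3307) (nat_lit 202) (.e (nat_lit 573456) (nat_lit 9) .nil))))))) (.g (nat_lit 1) (.e (nat_lit 5793) (nat_lit 0) .nil) .nil)))))) 
(.nd (nat_lit 7) (.nd (nat_lit 8) (.nd (nat_lit 9) 
(.lf (nat_lit 447562) (.g (nat_lit 4573) (.e (nat_lit 375) (nat_lit 32) (.e (nat_lit 426125) (nat_lit 2) (.e (nat_lit 196666) (nat_lit 13) (.e (nat_lit 65617) (nat_lit 10) (.e (nat_lit 344132) (nat_lit 26) (.e (nat_lit 557093) (nat_lit 12) (.e (nat_lit 164023) (nat_lit 46) (.e (nat_lit 704628) (nat_lit 9) .nil)))))))) (.g (nat_lit 1) (.e (nat_lit 2269) (nat_lit 0) .nil) .nil))) 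
(.lf (nat_lit 448074) (.g (nat_lit 4812) (.e (nat_lit 411) (nat_lit 32) (.e (nat_lit 426340) (nat_lit 14) (.e (nat_lit 491540) (nat_lit 3) (.e (nat_lit 98373) (nat_lit 29) (.e (nat_lit 450587) (nat_lit 10) (.e (nat_lit 573450) (nat_lit 9) .nil)))))) (.g (nat_lit 1) (.e (nat_lit 4680) (nat_lit 0) .nil) .nil)))) (.nd (nat_lit 9) 
(.lf (nat_lit 447818) (.g (nat_lit 3953) (.e (nat_lit 396) (nat_lit 32) (.e (nat_lit 426343) (nat_lit 14) (.e (nat_lit 491537) (nat_lit 2) (.e (nat_lit 90170) (nat_lit 13) (.e (nat_lit 172113) (nat_lit 10) (.e (nat_lit 434245) (nat_lit 28) (.e (nat_lit 573451) (nat_lit 9) .nil))))))) (.g (nat_lit 1) (.e (nat_lit 3739) (nat_lit 0) .nil) .nil))) 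
(.lf (nat_lit 448330) (.g (nat_lit 3658) (.e (nat_lit 430) (nat_lit 32) (.e (nat_lit 426133) (nat_lit 3) (.e (nat_lit 204869) (nat_lit 29) (.e (nat_lit 360474) (nat_lit 8) (.e (nat_lit 557093) (nat_lit 12) .nil))))) (.g (nat_lit 0) (.e (nat_lit 5651) (nat_lit 0) .nil) .nil))))) (.nd (nat_lit 8) (.nd (nat_lit 9) 
(.lf (nat_lit 447690) (.g (nat_lit 2421) (.e (nat_lit 391) (nat_lit 32) (.e (nat_lit 426190) (nat_lit 9) (.e (nat_lit 426566) (nat_lit 34) (.e (nat_lit 393253) (nat_lit 18) (.e (nat_lit 164327) (nat_lit 230) (.e (nat_lit 163868) (nat_lit 2) (.e (nat_lit 196624) (nat_lit 9) .nil))))))) (.g (nat_lit 1) (.e (nat_lit 3089) (nat_lit 0) .nil) .nil))) 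
(.lf (nat_lit 448202) (.g (nat_lit 2216) (.e (nat_lit 426) (nat_lit 32) (.e (nat_lit 426188) (nat_lit 9) (.e (nat_lit 426399) (nat_lit 15) (.e (nat_lit 1858) (nat_lit 124) (.e (nat_lit 557101) (nat_lit 13) (.e (nat_lit 172115) (nat_lit 10) (.e (nat_lit 434244) (nat_lit 28) (.e (nat_lit 573458) (nat_lit 9) .nil)))))))) (.g (nat_lit 1) (.e (nat_lit 5218) (nat_lit 0) .nil) .nil)))) (.nd (nat_lit 9) 
(.lf (nat_lit 447946) (.g (nat_lit 3449) (.e (nat_lit 401) (nat_lit 32) (.e (nat_lit 426340) (nat_lit 14) (.e (nat_lit 491571) (nat_lit 13) (.e (nat_lit 393260) (nat_lit 21) (.e (nat_lit 409614) (nat_lit 10) .nil))))) (.g (nat_lit 0) (.e (nat_lit 4399) (nat_lit 0) .nil) .nil))) 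
(.lf (nat_lit 448458) (.g (nat_lit 2073) (.e (nat_lit 430) (nat_lit 32) (.e (nat_lit 426343) (nat_lit 14) (.e (nat_lit 491520) (nat_lit 0) (.e (nat_lit 1788) (nat_lit 119) (.e (nat_lit 516165) (nat_lit 12) (.e (nat_lit 450586) (nat_lit 10) (.e (nat_lit 573456) (nat_lit 9) .nil))))))) (.g (nat_lit 1) (.e (nat_lit 5953) (nat_lit 0) .nil) .nil))))))) 
(.nd (nat_lit 6) (.nd (nat_lit 7) (.nd (nat_lit 8) (.nd (nat_lit 9) 
(.lf (nat_lit 447530) (.g (nat_lit 3796) (.e (nat_lit 375) (nat_lit 32) (.e (nat_lit 426125) (nat_lit 2) (.e (nat_lit 196666) (nat_lit 13) (.e (nat_lit 65610) (nat_lit 10) (.e (nat_lit 344131) (nat_lit 26) (.e (nat_lit 557094) (nat_lit 12) (.e (nat_lit 164022) (nat_lit 46) (.e (nat_lit 704626) (nat_lit 9) .nil)))))))) (.g (nat_lit 1) (.e (nat_lit 2228) (nat_lit 0) .nil) .nil))) 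
(.lf (nat_lit 448042) (.g (nat_lit 4454) (.e (nat_lit 411) (nat_lit 32) (.e (nat_lit 426125) (nat_lit 2) (.e (nat_lit 196666) (nat_lit 13) (.e (nat_lit 65617) (nat_lit 10) (.e (nat_lit 344133) (nat_lit 26) (.e (nat_lit 557091) (nat_lit 12) (.e (nat_lit 164022) (nat_lit 46) (.e (nat_lit 704628) (nat_lit 9) .nil)))))))) (.g (nat_lit 1) (.e (nat_lit 4614) (nat_lit 0) .nil) .nil)))) (.nd (nat_lit 9) 
(.lf (nat_lit 447786) (.g (nat_lit 2144) (.e (nat_lit 396) (nat_lit 32) (.e (nat_lit 426308) (nat_lit 12) (.e (nat_lit 475184) (nat_lit 29) (.e (nat_lit 557100) (nat_lit 13) (.e (nat_lit 172113) (nat_lit 10) (.e (nat_lit 434245) (nat_lit 28) (.e (nat_lit 573451) (nat_lit 9) .nil))))))) (.g (nat_lit 1) (.e (nat_lit 3546) (nat_lit 0) .nil) .nil))) 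
(.lf (nat_lit 448298) (.g (nat_lit 2133) (.e (nat_lit 430) (nat_lit 32) (.e (nat_lit 426011) (nat_lit 0) (.e (nat_lit 7513) (nat_lit 402) (.e (nat_lit 1234) (nat_lit 91) (.e (nat_lit 90170) (nat_lit 13) (.e (nat_lit 172113) (nat_lit 10) (.e (nat_lit 434245) (nat_lit 28) (.e (nat_lit 573451) (nat_lit 9) .nil)))))))) (.g (nat_lit 1) (.e (nat_lit 5538) (nat_lit 0) .nil) .nil))))) 
(.nd (nat_lit 8) (.nd (nat_lit 9) 
(.lf (nat_lit 447658) (.g (nat_lit 2055) (.e (nat_lit 388) (nat_lit 32) (.e (nat_lit 426190) (nat_lit 9) (.e (nat_lit 426566) (nat_lit 34) (.e (nat_lit 393253) (nat_lit 18) (.e (nat_lit 164325) (nat_lit 230) (.e (nat_lit 163868) (nat_lit 2) (.e (nat_lit 196624) (nat_lit 9) .nil))))))) (.g (nat_lit 1) (.e (nat_lit 3005) (nat_lit 0) .nil) .nil))) 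
(.lf (nat_lit 448170) (.g (nat_lit 1075) (.e (nat_lit 416) (nat_lit 32) (.e (nat_lit 426198) (nat_lit 9) (.e (nat_lit 426533) (nat_lit 28) (.e (nat_lit 344067) (nat_lit 0) .nil)))) (.g (nat_lit 0) (.e (nat_lit 4939) (nat_lit 0) .nil) .nil)))) (.nd (nat_lit 9) 
(.lf (nat_lit 447914) (.g (nat_lit 3151) (.e (nat_lit 398) (nat_lit 32) (.e (nat_lit 426123) (nat_lit 2) (.e (nat_lit 196666) (nat_lit 13) (.e (nat_lit 65617) (nat_lit 10) (.e (nat_lit 344132) (nat_lit 26) (.e (nat_lit 557093) (nat_lit 12) (.e (nat_lit 164022) (nat_lit 46) (.e (nat_lit 704627) (nat_lit 9) .nil)))))))) (.g (nat_lit 1) (.e (nat_lit 4296) (nat_lit 0) .nil) .nil))) 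
(.lf (nat_lit 448426) (.g (nat_lit 2524) (.e (nat_lit 430) (nat_lit 32) (.e (nat_lit 426338) (nat_lit 14) (.e (nat_lit 491540) (nat_lit 3) (.e (nat_lit 98372) (nat_lit 29) (.e (nat_lit 450586) (nat_lit 10) (.e (nat_lit 573452) (nat_lit 9) .nil)))))) (.g (nat_lit 1) (.e (nat_lit 5921) (nat_lit 0) .nil) .nil)))))) (.nd (nat_lit 7) (.nd (nat_lit 8) (.nd (nat_lit 9) 
(.lf (nat_lit 447594) (.g (nat_lit 3893) (.e (nat_lit 375) (nat_lit 32) (.e (nat_lit 426140) (nat_lit 3) (.e (nat_lit 204869) (nat_lit 29) (.e (nat_lit 360474) (nat_lit 8) (.e (nat_lit 557093) (nat_lit 12) (.e (nat_lit 164022) (nat_lit 46) (.e (nat_lit 704627) (nat_lit 9) .nil))))))) (.g (nat_lit 1) (.e (nat_lit 2309) (nat_lit 0) .nil) .nil))) 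
(.lf (nat_lit 448106) (.g (nat_lit 3477) (.e (nat_lit 436) (nat_lit 32) (.e (nat_lit 426139) (nat_lit 3) (.e (nat_lit 204869) (nat_lit 29) (.e (nat_lit 360474) (nat_lit 8) (.e (nat_lit 557091) (nat_lit 12) (.e (nat_lit 164022) (nat_lit 46) (.e (nat_lit 704627) (nat_lit 9) .nil))))))) (.g (nat_lit 1) (.e (nat_lit 4741) (nat_lit 0) .nil) .nil)))) (.nd (nat_lit 9) 
(.lf (nat_lit 447850) (.g (nat_lit 656) (.e (nat_lit 395) (nat_lit 32) (.e (nat_lit 426190) (nat_lit 9) (.e (nat_lit 426566) (nat_lit 34) .nil))) (.g (nat_lit 0) (.e (nat_lit 4126) (nat_lit 0) .nil) .nil))) 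
(.lf (nat_lit 448362) (.g (nat_lit 1804) (.e (nat_lit 430) (nat_lit 32) (.e (nat_lit 426296) (nat_lit 11) (.e (nat_lit 458789) (nat_lit 23) (.e (nat_lit 532482) (nat_lit 0) (.e (nat_lit 6722) (nat_lit 362) (.e (nat_lit 180252) (nat_lit 10) (.e (nat_lit 573452) (nat_lit 9) .nil))))))) (.g (nat_lit 1) (.e (nat_lit 5752) (nat_lit 0) .nil) .nil))))) (.nd (nat_lit 8) (.nd (nat_lit 9) 
(.lf (nat_lit 447722) (.g (nat_lit 3485) (.e (nat_lit 392) (nat_lit 32) (.e (nat_lit 426341) (nat_lit 14) (.e (nat_lit 491570) (nat_lit 13) (.e (nat_lit 393260) (nat_lit 21) (.e (nat_lit 409617) (nat_lit 10) (.e (nat_lit 5355) (nat_lit 298) .nil)))))) (.g (nat_lit 1) (.e (nat_lit 3389) (nat_lit 0) .nil) .nil))) 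
(.lf (nat_lit 448234) (.g (nat_lit 4242) (.e (nat_lit 426) (nat_lit 32) (.e (nat_lit 426316) (nat_lit 12) (.e (nat_lit 475183) (nat_lit 29) (.e (nat_lit 557100) (nat_lit 13) (.e (nat_lit 172113) (nat_lit 10) (.e (nat_lit 434245) (nat_lit 28) (.e (nat_lit 573458) (nat_lit 9) .nil))))))) (.g (nat_lit 1) (.e (nat_lit 5282) (nat_lit 0) .nil) .nil)))) (.nd (nat_lit 9) 
(.lf (nat_lit 447978) (.g (nat_lit 3921) (.e (nat_lit 403) (nat_lit 32) (.e (nat_lit 426340) (nat_lit 14) (.e (nat_lit 491571) (nat_lit 13) (.e (nat_lit 393260) (nat_lit 21) (.e (nat_lit 409608) (nat_lit 10) .nil))))) (.g (nat_lit 0) (.e (nat_lit 4457) (nat_lit 0) .nil) .nil))) 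
(.lf (nat_lit 448490) (.g (nat_lit 1858) (.e (nat_lit 430) (nat_lit 32) (.e (nat_lit 426343) (nat_lit 14) (.e (nat_lit 491538) (nat_lit 3) (.e (nat_lit 98381) (nat_lit 31) (.e (nat_lit 466967) (nat_lit 20) (.e (nat_lit 3305) (nat_lit 202) (.e (nat_lit 573456) (nat_lit 9) .nil))))))) (.g (nat_lit 1) (.e (nat_lit 5986) (nat_lit 0) .nil) .nil)))))))) 
(.nd (nat_lit 5) (.nd (nat_lit 6) (.nd (nat_lit 7) (.nd (nat_lit 8) (.nd (nat_lit 9) 
(.lf (nat_lit 447514) (.g (nat_lit 5545) (.e (nat_lit 375) (nat_lit 32) (.e (nat_lit 426125) (nat_lit 2) (.e (nat_lit 196666) (nat_lit 13) (.e (nat_lit 65610) (nat_lit 10) (.e (nat_lit 344129) (nat_lit 26) (.e (nat_lit 557094) (nat_lit 12) (.e (nat_lit 164022) (nat_lit 46) (.e (nat_lit 704627) (nat_lit 9) .nil)))))))) (.g (nat_lit 1) (.e (nat_lit 2210) (nat_lit 0) .nil) .nil))) 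
(.lf (nat_lit 448026) (.g (nat_lit 3156) (.e (nat_lit 411) (nat_lit 32) (.e (nat_lit 426125) (nat_lit 2) (.e (nat_lit 196666) (nat_lit 13) (.e (nat_lit 65610) (nat_lit 10) (.e (nat_lit 344128) (nat_lit 26) .nil))))) (.g (nat_lit 0) (.e (nat_lit 4598) (nat_lit 0) .nil) .nil)))) (.nd (nat_lit 9) 
(.lf (nat_lit 447770) (.g (nat_lit 2242) (.e (nat_lit 396) (nat_lit 32) (.e (nat_lit 426190) (nat_lit 9) (.e (nat_lit 426354) (nat_lit 15) (.e (nat_lit 1860) (nat_lit 124) (.e (nat_lit 557101) (nat_lit 13) (.e (nat_lit 172115) (nat_lit 10) (.e (nat_lit 434244) (nat_lit 28) (.e (nat_lit 573449) (nat_lit 9) .nil)))))))) (.g (nat_lit 1) (.e (nat_lit 3516) (nat_lit 0) .nil) .nil))) 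
(.lf (nat_lit 448282) (.g (nat_lit 3516) (.e (nat_lit 428) (nat_lit 32) (.e (nat_lit 426347) (nat_lit 14) (.e (nat_lit 491540) (nat_lit 3) (.e (nat_lit 98373) (nat_lit 29) (.e (nat_lit 450587) (nat_lit 10) (.e (nat_lit 573452) (nat_lit 9) .nil)))))) (.g (nat_lit 1) (.e (nat_lit 5518) (nat_lit 0) .nil) .nil))))) (.nd (nat_lit 8) (.nd (nat_lit 9) 
(.lf (nat_lit 447642) (.g (nat_lit 3088) (.e (nat_lit 381) (nat_lit 32) (.e (nat_lit 426428) (nat_lit 17) (.e (nat_lit 90174) (nat_lit 14) (.e (nat_lit 180250) (nat_lit 10) (.e (nat_lit 573480) (nat_lit 13) (.e (nat_lit 65568) (nat_lit 2) (.e (nat_lit 98048) (nat_lit 0) .nil))))))) (.g (nat_lit 1) (.e (nat_lit 2973) (nat_lit 0) .nil) .nil))) 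
(.lf (nat_lit 448154) (.g (nat_lit 3851) (.e (nat_lit 416) (nat_lit 32) (.e (nat_lit 426121) (nat_lit 2) (.e (nat_lit 196666) (nat_lit 13) (.e (nat_lit 65617) (nat_lit 10) (.e (nat_lit 344133) (nat_lit 26) (.e (nat_lit 557091) (nat_lit 12) (.e (nat_lit 164022) (nat_lit 46) (.e (nat_lit 704626) (nat_lit 9) .nil)))))))) (.g (nat_lit 1) (.e (nat_lit 4910) (nat_lit 0) .nil) .nil)))) (.nd (nat_lit 9) 
(.lf (nat_lit 447898) (.g (nat_lit 2467) (.e (nat_lit 397) (nat_lit 32) (.e (nat_lit 426316) (nat_lit 12) (.e (nat_lit 475185) (nat_lit 29) (.e (nat_lit 557107) (nat_lit 15) (.e (nat_lit 188440) (nat_lit 20) .nil))))) (.g (nat_lit 0) (.e (nat_lit 4264) (nat_lit 0) .nil) .nil))) 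
(.lf (nat_lit 448410) (.g (nat_lit 3895) (.e (nat_lit 430) (nat_lit 32) (.e (nat_lit 426308) (nat_lit 12) (.e (nat_lit 475185) (nat_lit 29) (.e (nat_lit 557100) (nat_lit 13) (.e (nat_lit 172113) (nat_lit 10) (.e (nat_lit 434247) (nat_lit 28) (.e (nat_lit 573457) (nat_lit 9) .nil))))))) (.g (nat_lit 1) (.e (nat_lit 5809) (nat_lit 0) .nil) .nil)))))) 
(.nd (nat_lit 7) (.nd (nat_lit 8) (.nd (nat_lit 9) 
(.lf (nat_lit 447578) (.g (nat_lit 5085) (.e (nat_lit 375) (nat_lit 32) (.e (nat_lit 426135) (nat_lit 3) (.e (nat_lit 204869) (nat_lit 29) (.e (nat_lit 360475) (nat_lit 8) (.e (nat_lit 557091) (nat_lit 12) (.e (nat_lit 164022) (nat_lit 46) (.e (nat_lit 704626) (nat_lit 9) .nil))))))) (.g (nat_lit 1) (.e (nat_lit 2290) (nat_lit 0) .nil) .nil))) 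
(.lf (nat_lit 448090) (.g (nat_lit 3328) (.e (nat_lit 436) (nat_lit 32) (.e (nat_lit 426121) (nat_lit 2) (.e (nat_lit 196666) (nat_lit 13) (.e (nat_lit 65617) (nat_lit 10) (.e (nat_lit 344132) (nat_lit 26) (.e (nat_lit 557094) (nat_lit 12) (.e (nat_lit 164022) (nat_lit 46) (.e (nat_lit 704629) (nat_lit 9) .nil)))))))) (.g (nat_lit 1) (.e (nat_lit 4706) (nat_lit 0) .nil) .nil)))) (.nd (nat_lit 9) 
(.lf (nat_lit 447834) (.g (nat_lit 2909) (.e (nat_lit 394) (nat_lit 32) (.e (nat_lit 426316) (nat_lit 12) (.e (nat_lit 475183) (nat_lit 29) (.e (nat_lit 557098) (nat_lit 13) (.e (nat_lit 172115) (nat_lit 10) (.e (nat_lit 434244) (nat_lit 28) (.e (nat_lit 573458) (nat_lit 9) .nil))))))) (.g (nat_lit 1) (.e (nat_lit 3964) (nat_lit 0) .nil) .nil))) 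
(.lf (nat_lit 448346) (.g (nat_lit 4794) (.e (nat_lit 430) (nat_lit 32) (.e (nat_lit 426190) (nat_lit 9) (.e (nat_lit 426566) (nat_lit 34) (.e (nat_lit 393251) (nat_lit 18) (.e (nat_lit 164332) (nat_lit 230) (.e (nat_lit 163869) (nat_lit 2) (.e (nat_lit 196630) (nat_lit 9) .nil))))))) (.g (nat_lit 1) (.e (nat_lit 5697) (nat_lit 0) .nil) .nil))))) (.nd (nat_lit 8) (.nd (nat_lit 9) 
(.lf (nat_lit 447706) (.g (nat_lit 3930) (.e (nat_lit 392) (nat_lit 32) (.e (nat_lit 426316) (nat_lit 12) (.e (nat_lit 475185) (nat_lit 29) (.e (nat_lit 557098) (nat_lit 13) (.e (nat_lit 172106) (nat_lit 10) .nil))))) (.g (nat_lit 0) (.e (nat_lit 3328) (nat_lit 0) .nil) .nil))) 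
(.lf (nat_lit 448218) (.g (nat_lit 4496) (.e (nat_lit 426) (nat_lit 32) (.e (nat_lit 426308) (nat_lit 12) (.e (nat_lit 475183) (nat_lit 29) (.e (nat_lit 557098) (nat_lit 13) (.e (nat_lit 172115) (nat_lit 10) (.e (nat_lit 434244) (nat_lit 28) (.e (nat_lit 573458) (nat_lit 9) .nil))))))) (.g (nat_lit 1) (.e (nat_lit 5265) (nat_lit 0) .nil) .nil)))) (.nd (nat_lit 9) 
(.lf (nat_lit 447962) (.g (nat_lit 1992) (.e (nat_lit 403) (nat_lit 32) (.e (nat_lit 426340) (nat_lit 14) (.e (nat_lit 491549) (nat_lit 9) (.e (nat_lit 336421) (nat_lit 28) (.e (nat_lit 434197) (nat_lit 16) (.e (nat_lit 164337) (nat_lit 232) .nil)))))) (.g (nat_lit 1) (.e (nat_lit 4440) (nat_lit 0) .nil) .nil))) 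
(.lf (nat_lit 448474) (.g (nat_lit 4209) (.e (nat_lit 430) (nat_lit 32) (.e (nat_lit 426343) (nat_lit 14) (.e (nat_lit 491536) (nat_lit 2) (.e (nat_lit 90170) (nat_lit 13) (.e (nat_lit 172113) (nat_lit 10) (.e (nat_lit 434247) (nat_lit 28) (.e (nat_lit 573456) (nat_lit 9) .nil))))))) (.g (nat_lit 1) (.e (nat_lit 5970) (nat_lit 0) .nil) .nil))))))) 
(.nd (nat_lit 6) (.nd (nat_lit 7) (.nd (nat_lit 8) (.nd (nat_lit 9) 
(.lf (nat_lit 447546) (.g (nat_lit 5663) (.e (nat_lit 375) (nat_lit 32) (.e (nat_lit 426125) (nat_lit 2) (.e (nat_lit 196666) (nat_lit 13) (.e (nat_lit 65610) (nat_lit 10) (.e (nat_lit 344133) (nat_lit 26) (.e (nat_lit 557091) (nat_lit 12) (.e (nat_lit 164022) (nat_lit 46) (.e (nat_lit 704628) (nat_lit 9) .nil)))))))) (.g (nat_lit 1) (.e (nat_lit 2244) (nat_lit 0) .nil) .nil))) 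
(.lf (nat_lit 448058) (.g (nat_lit 3819) (.e (nat_lit 411) (nat_lit 32) (.e (nat_lit 426140) (nat_lit 3) (.e (nat_lit 204869) (nat_lit 29) (.e (nat_lit 360474) (nat_lit 8) (.e (nat_lit 557093) (nat_lit 12) (.e (nat_lit 164022) (nat_lit 46) (.e (nat_lit 704628) (nat_lit 9) .nil))))))) (.g (nat_lit 1) (.e (nat_lit 4640) (nat_lit 0) .nil) .nil)))) (.nd (nat_lit 9) 
(.lf (nat_lit 447802) (.g (nat_lit 4459) (.e (nat_lit 396) (nat_lit 32) (.e (nat_lit 426316) (nat_lit 12) (.e (nat_lit 475185) (nat_lit 29) (.e (nat_lit 557107) (nat_lit 15) (.e (nat_lit 188440) (nat_lit 20) (.e (nat_lit 3307) (nat_lit 202) (.e (nat_lit 573451) (nat_lit 9) .nil))))))) (.g (nat_lit 1) (.e (nat_lit 3565) (nat_lit 0) .nil) .nil))) 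
(.lf (nat_lit 448314) (.g (nat_lit 4509) (.e (nat_lit 430) (nat_lit 32) (.e (nat_lit 426011) (nat_lit 0) (.e (nat_lit 7581) (nat_lit 405) (.e (nat_lit 57464) (nat_lit 23) (.e (nat_lit 516166) (nat_lit 12) (.e (nat_lit 450588) (nat_lit 10) (.e (nat_lit 573457) (nat_lit 9) .nil))))))) (.g (nat_lit 1) (.e (nat_lit 5554) (nat_lit 0) .nil) .nil))))) (.nd (nat_lit 8) (.nd (nat_lit 9) 
(.lf (nat_lit 447674) (.g (nat_lit 2725) (.e (nat_lit 389) (nat_lit 32) (.e (nat_lit 426190) (nat_lit 9) (.e (nat_lit 426566) (nat_lit 34) (.e (nat_lit 393253) (nat_lit 18) (.e (nat_lit 164332) (nat_lit 230) (.e (nat_lit 163867) (nat_lit 2) (.e (nat_lit 196624) (nat_lit 9) .nil))))))) (.g (nat_lit 1) (.e (nat_lit 3052) (nat_lit 0) .nil) .nil))) 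
(.lf (nat_lit 448186) (.g (nat_lit 2642) (.e (nat_lit 422) (nat_lit 32) (.e (nat_lit 426315) (nat_lit 12) (.e (nat_lit 475185) (nat_lit 29) (.e (nat_lit 557101) (nat_lit 13) (.e (nat_lit 172115) (nat_lit 10) .nil))))) (.g (nat_lit 0) (.e (nat_lit 5027) (nat_lit 0) .nil) .nil)))) (.nd (nat_lit 9) 
(.lf (nat_lit 447930) (.g (nat_lit 5156) (.e (nat_lit 401) (nat_lit 32) (.e (nat_lit 426340) (nat_lit 14) (.e (nat_lit 491540) (nat_lit 3) (.e (nat_lit 98373) (nat_lit 29) (.e (nat_lit 450587) (nat_lit 10) (.e (nat_lit 573463) (nat_lit 9) .nil)))))) (.g (nat_lit 1) (.e (nat_lit 4368) (nat_lit 0) .nil) .nil))) 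
(.lf (nat_lit 448442) (.g (nat_lit 3730) (.e (nat_lit 430) (nat_lit 32) (.e (nat_lit 426342) (nat_lit 14) (.e (nat_lit 491537) (nat_lit 2) (.e (nat_lit 90170) (nat_lit 13) (.e (nat_lit 172113) (nat_lit 10) (.e (nat_lit 434247) (nat_lit 28) (.e (nat_lit 573457) (nat_lit 9) .nil))))))) (.g (nat_lit 1) (.e (nat_lit 5937) (nat_lit 0) .nil) .nil)))))) (.nd (nat_lit 7) (.nd (nat_lit 8) (.nd (nat_lit 9) 
(.lf (nat_lit 447610) (.g (nat_lit 2713) (.e (nat_lit 375) (nat_lit 32) (.e (nat_lit 426173) (nat_lit 7) (.e (nat_lit 409617) (nat_lit 10) (.e (nat_lit 858) (nat_lit 75) (.e (nat_lit 778321) (nat_lit 4) (.e (nat_lit 65598) (nat_lit 9) (.e (nat_lit 336013) (nat_lit 2) (.e (nat_lit 98048) (nat_lit 0) .nil)))))))) (.g (nat_lit 1) (.e (nat_lit 2378) (nat_lit 0) .nil) .nil))) 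
(.lf (nat_lit 448122) (.g (nat_lit 1559) (.e (nat_lit 437) (nat_lit 32) (.e (nat_lit 426188) (nat_lit 9) (.e (nat_lit 426566) (nat_lit 34) (.e (nat_lit 393254) (nat_lit 18) (.e (nat_lit 164332) (nat_lit 230) .nil))))) (.g (nat_lit 0) (.e (nat_lit 4792) (nat_lit 0) .nil) .nil)))) (.nd (nat_lit 9) 
(.lf (nat_lit 447866) (.g (nat_lit 2139) (.e (nat_lit 395) (nat_lit 32) (.e (nat_lit 426338) (nat_lit 14) (.e (nat_lit 491540) (nat_lit 3) (.e (nat_lit 98372) (nat_lit 29) (.e (nat_lit 450586) (nat_lit 10) (.e (nat_lit 573452) (nat_lit 9) .nil)))))) (.g (nat_lit 1) (.e (nat_lit 4189) (nat_lit 0) .nil) .nil))) 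
(.lf (nat_lit 448378) (.g (nat_lit 2864) (.e (nat_lit 430) (nat_lit 32) (.e (nat_lit 426306) (nat_lit 12) (.e (nat_lit 475183) (nat_lit 29) (.e (nat_lit 557100) (nat_lit 13) (.e (nat_lit 172113) (nat_lit 10) .nil))))) (.g (nat_lit 0) (.e (nat_lit 5776) (nat_lit 0) .nil) .nil))))) (.nd (nat_lit 8) (.nd (nat_lit 9) 
(.lf (nat_lit 447738) (.g (nat_lit 3718) (.e (nat_lit 396) (nat_lit 32) (.e (nat_lit 426121) (nat_lit 2) (.e (nat_lit 196666) (nat_lit 13) (.e (nat_lit 65610) (nat_lit 10) (.e (nat_lit 344129) (nat_lit 26) (.e (nat_lit 557065) (nat_lit 9) (.e (nat_lit 2741) (nat_lit 174) (.e (nat_lit 253959) (nat_lit 9) .nil)))))))) (.g (nat_lit 1) (.e (nat_lit 3444) (nat_lit 0) .nil) .nil))) 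
(.lf (nat_lit 448250) (.g (nat_lit 4219) (.e (nat_lit 426) (nat_lit 32) (.e (nat_lit 426341) (nat_lit 14) (.e (nat_lit 491537) (nat_lit 2) (.e (nat_lit 90170) (nat_lit 13) (.e (nat_lit 172113) (nat_lit 10) (.e (nat_lit 434245) (nat_lit 28) (.e (nat_lit 573458) (nat_lit 9) .nil))))))) (.g (nat_lit 1) (.e (nat_lit 5413) (nat_lit 0) .nil) .nil)))) (.nd (nat_lit 9) 
(.lf (nat_lit 447994) (.g (nat_lit 2022) (.e (nat_lit 404) (nat_lit 32) (.e (nat_lit 426340) (nat_lit 14) (.e (nat_lit 491550) (nat_lit 9) (.e (nat_lit 336421) (nat_lit 28) (.e (nat_lit 434198) (nat_lit 17) (.e (nat_lit 229647) (nat_lit 232) .nil)))))) (.g (nat_lit 1) (.e (nat_lit 4502) (nat_lit 0) .nil) .nil))) 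
(.lf (nat_lit 448506) (.g (nat_lit 4297) (.e (nat_lit 430) (nat_lit 32) (.e (nat_lit 426343) (nat_lit 14) (.e (nat_lit 491540) (nat_lit 3) (.e (nat_lit 98373) (nat_lit 29) (.e (nat_lit 450587) (nat_lit 10) (.e (nat_lit 573456) (nat_lit 9) .nil)))))) (.g (nat_lit 1) (.e (nat_lit 6002) (nat_lit 0) .nil) .nil)))))))))) 
(.nd (nat_lit 3) (.nd (nat_lit 4) (.nd (nat_lit 5) (.nd (nat_lit 6) (.nd (nat_lit 7) 
(.nd (nat_lit 8) (.nd (nat_lit 9) 
(.lf (nat_lit 447494) (.g (nat_lit 3562) (.e (nat_lit 375) (nat_lit 32) (.e (nat_lit 426125) (nat_lit 2) (.e (nat_lit 196666) (nat_lit 13) (.e (nat_lit 65610) (nat_lit 10) (.e (nat_lit 344129) (nat_lit 26) (.e (nat_lit 557089) (nat_lit 12) (.e (nat_lit 164022) (nat_lit 46) (.e (nat_lit 704626) (nat_lit 9) .nil)))))))) (.g (nat_lit 1) (.e (nat_lit 2189) (nat_lit 0) .nil) .nil))) 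
(.lf (nat_lit 448006) (.g (nat_lit 1232) (.e (nat_lit 409) (nat_lit 32) (.e (nat_lit 426523) (nat_lit 27) (.e (nat_lit 336076) (nat_lit 9) (.e (nat_lit 336320) (nat_lit 17) (.e (nat_lit 196698) (nat_lit 19) .nil))))) (.g (nat_lit 0) (.e (nat_lit 4544) (nat_lit 0) .nil) .nil)))) (.nd (nat_lit 9) 
(.lf (nat_lit 447750) (.g (nat_lit 2206) (.e (nat_lit 396) (nat_lit 32) (.e (nat_lit 426123) (nat_lit 2) (.e (nat_lit 196666) (nat_lit 13) (.e (nat_lit 65610) (nat_lit 10) (.e (nat_lit 344129) (nat_lit 26) .nil))))) (.g (nat_lit 0) (.e (nat_lit 3456) (nat_lit 0) .nil) .nil))) 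
(.lf (nat_lit 448262) (.g (nat_lit 655) (.e (nat_lit 427) (nat_lit 32) (.e (nat_lit 426190) (nat_lit 9) (.e (nat_lit 426566) (nat_lit 34) .nil))) (.g (nat_lit 0) (.e (nat_lit 5429) (nat_lit 0) .nil) .nil))))) (.nd (nat_lit 8) (.nd (nat_lit 9) 
(.lf (nat_lit 447622) (.g (nat_lit 2979) (.e (nat_lit 375) (nat_lit 32) (.e (nat_lit 426317) (nat_lit 12) (.e (nat_lit 475183) (nat_lit 29) (.e (nat_lit 557097) (nat_lit 13) (.e (nat_lit 172115) (nat_lit 10) (.e (nat_lit 434244) (nat_lit 28) (.e (nat_lit 573450) (nat_lit 9) .nil))))))) (.g (nat_lit 1) (.e (nat_lit 2901) (nat_lit 0) .nil) .nil))) 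
(.lf (nat_lit 448134) (.g (nat_lit 1232) (.e (nat_lit 439) (nat_lit 32) (.e (nat_lit 426523) (nat_lit 27) (.e (nat_lit 336076) (nat_lit 9) (.e (nat_lit 336320) (nat_lit 17) (.e (nat_lit 196698) (nat_lit 19) .nil))))) (.g (nat_lit 0) (.e (nat_lit 4855) (nat_lit 0) .nil) .nil)))) (.nd (nat_lit 9) 
(.lf (nat_lit 447878) (.g (nat_lit 3758) (.e (nat_lit 399) (nat_lit 32) (.e (nat_lit 426139) (nat_lit 3) (.e (nat_lit 204869) (nat_lit 29) (.e (nat_lit 360474) (nat_lit 8) (.e (nat_lit 557094) (nat_lit 12) (.e (nat_lit 164022) (nat_lit 46) (.e (nat_lit 704628) (nat_lit 9) .nil))))))) (.g (nat_lit 1) (.e (nat_lit 4209) (nat_lit 0) .nil) .nil))) 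
(.lf (nat_lit 448390) (.g (nat_lit 4444) (.e (nat_lit 430) (nat_lit 32) (.e (nat_lit 426308) (nat_lit 12) (.e (nat_lit 475183) (nat_lit 29) (.e (nat_lit 557100) (nat_lit 13) (.e (nat_lit 172113) (nat_lit 10) (.e (nat_lit 434247) (nat_lit 28) (.e (nat_lit 573456) (nat_lit 9) .nil))))))) (.g (nat_lit 1) (.e (nat_lit 5789) (nat_lit 0) .nil) .nil)))))) 
(.nd (nat_lit 7) (.nd (nat_lit 8) (.nd (nat_lit 9) 
(.lf (nat_lit 447558) (.g (nat_lit 4854) (.e (nat_lit 375) (nat_lit 32) (.e (nat_lit 426125) (nat_lit 2) (.e (nat_lit 196666) (nat_lit 13) (.e (nat_lit 65617) (nat_lit 10) (.e (nat_lit 344132) (nat_lit 26) (.e (nat_lit 557093) (nat_lit 12) (.e (nat_lit 164022) (nat_lit 46) (.e (nat_lit 704626) (nat_lit 9) .nil)))))))) (.g (nat_lit 1) (.e (nat_lit 2265) (nat_lit 0) .nil) .nil))) 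
(.lf (nat_lit 448070) (.g (nat_lit 2610) (.e (nat_lit 411) (nat_lit 32) (.e (nat_lit 426340) (nat_lit 14) (.e (nat_lit 491537) (nat_lit 2) (.e (nat_lit 90170) (nat_lit 13) (.e (nat_lit 172113) (nat_lit 10) (.e (nat_lit 434248) (nat_lit 28) (.e (nat_lit 573449) (nat_lit 9) .nil))))))) (.g (nat_lit 1) (.e (nat_lit 4676) (nat_lit 0) .nil) .nil)))) (.nd (nat_lit 9) 
(.lf (nat_lit 447814) (.g (nat_lit 2570) (.e (nat_lit 396) (nat_lit 32) (.e (nat_lit 426343) (nat_lit 14) (.e (nat_lit 491536) (nat_lit 2) (.e (nat_lit 90170) (nat_lit 13) (.e (nat_lit 172113) (nat_lit 10) (.e (nat_lit 434245) (nat_lit 28) (.e (nat_lit 573451) (nat_lit 9) .nil))))))) (.g (nat_lit 1) (.e (nat_lit 3735) (nat_lit 0) .nil) .nil))) 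
(.lf (nat_lit 448326) (.g (nat_lit 3706) (.e (nat_lit 430) (nat_lit 32) (.e (nat_lit 426012) (nat_lit 0) (.e (nat_lit 7581) (nat_lit 405) (.e (nat_lit 57464) (nat_lit 23) (.e (nat_lit 516166) (nat_lit 12) (.e (nat_lit 450588) (nat_lit 10) (.e (nat_lit 573457) (nat_lit 9) .nil))))))) (.g (nat_lit 1) (.e (nat_lit 5566) (nat_lit 0) .nil) .nil))))) (.nd (nat_lit 8) (.nd (nat_lit 9) 
(.lf (nat_lit 447686) (.g (nat_lit 3239) (.e (nat_lit 391) (nat_lit 32) (.e (nat_lit 426139) (nat_lit 3) (.e (nat_lit 204869) (nat_lit 29) (.e (nat_lit 360474) (nat_lit 8) (.e (nat_lit 557093) (nat_lit 12) .nil))))) (.g (nat_lit 0) (.e (nat_lit 3085) (nat_lit 0) .nil) .nil))) 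
(.lf (nat_lit 448198) (.g (nat_lit 2768) (.e (nat_lit 426) (nat_lit 32) (.e (nat_lit 426012) (nat_lit 0) (.e (nat_lit 3544) (nat_lit 219) (.e (nat_lit 712753) (nat_lit 30) (.e (nat_lit 450586) (nat_lit 10) (.e (nat_lit 573473) (nat_lit 12) (.e (nat_lit 57508) (nat_lit 39) (.e (nat_lit 647195) (nat_lit 9) .nil)))))))) (.g (nat_lit 1) (.e (nat_lit 5059) (nat_lit 0) .nil) .nil)))) (.nd (nat_lit 9) 
(.lf (nat_lit 447942) (.g (nat_lit 1443) (.e (nat_lit 401) (nat_lit 32) (.e (nat_lit 426340) (nat_lit 14) (.e (nat_lit 491550) (nat_lit 9) (.e (nat_lit 336421) (nat_lit 28) (.e (nat_lit 434198) (nat_lit 17) (.e (nat_lit 229647) (nat_lit 232) .nil)))))) (.g (nat_lit 1) (.e (nat_lit 4384) (nat_lit 0) .nil) .nil))) 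
(.lf (nat_lit 448454) (.g (nat_lit 3723) (.e (nat_lit 430) (nat_lit 32) (.e (nat_lit 426342) (nat_lit 14) (.e (nat_lit 491540) (nat_lit 3) (.e (nat_lit 98373) (nat_lit 29) (.e (nat_lit 450587) (nat_lit 10) (.e (nat_lit 573457) (nat_lit 9) .nil)))))) (.g (nat_lit 1) (.e (nat_lit 5949) (nat_lit 0) .nil) .nil))))))) (.nd (nat_lit 6) (.nd (nat_lit 7) (.nd (nat_lit 8) (.nd (nat_lit 9) 
(.lf (nat_lit 447526) (.g (nat_lit 4387) (.e (nat_lit 375) (nat_lit 32) (.e (nat_lit 426125) (nat_lit 2) (.e (nat_lit 196666) (nat_lit 13) (.e (nat_lit 65610) (nat_lit 10) (.e (nat_lit 344131) (nat_lit 26) (.e (nat_lit 557093) (nat_lit 12) (.e (nat_lit 164022) (nat_lit 46) (.e (nat_lit 704628) (nat_lit 9) .nil)))))))) (.g (nat_lit 1) (.e (nat_lit 2224) (nat_lit 0) .nil) .nil))) 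
(.lf (nat_lit 448038) (.g (nat_lit 4605) (.e (nat_lit 411) (nat_lit 32) (.e (nat_lit 426125) (nat_lit 2) (.e (nat_lit 196666) (nat_lit 13) (.e (nat_lit 65617) (nat_lit 10) (.e (nat_lit 344132) (nat_lit 26) (.e (nat_lit 557093) (nat_lit 12) (.e (nat_lit 164023) (nat_lit 46) (.e (nat_lit 704629) (nat_lit 9) .nil)))))))) (.g (nat_lit 1) (.e (nat_lit 4610) (nat_lit 0) .nil) .nil)))) (.nd (nat_lit 9) 
(.lf (nat_lit 447782) (.g (nat_lit 5115) (.e (nat_lit 396) (nat_lit 32) (.e (nat_lit 426308) (nat_lit 12) (.e (nat_lit 475183) (nat_lit 29) (.e (nat_lit 557097) (nat_lit 13) (.e (nat_lit 172115) (nat_lit 10) (.e (nat_lit 434244) (nat_lit 28) (.e (nat_lit 573449) (nat_lit 9) .nil))))))) (.g (nat_lit 1) (.e (nat_lit 3542) (nat_lit 0) .nil) .nil))) 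
(.lf (nat_lit 448294) (.g (nat_lit 3864) (.e (nat_lit 430) (nat_lit 32) (.e (nat_lit 426011) (nat_lit 0) (.e (nat_lit 7486) (nat_lit 402) (.e (nat_lit 1256) (nat_lit 92) (.e (nat_lit 98373) (nat_lit 29) (.e (nat_lit 450588) (nat_lit 10) (.e (nat_lit 573452) (nat_lit 9) .nil))))))) (.g (nat_lit 1) (.e (nat_lit 5534) (nat_lit 0) .nil) .nil))))) (.nd (nat_lit 8) (.nd (nat_lit 9) 
(.lf (nat_lit 447654) (.g (nat_lit 3137) (.e (nat_lit 388) (nat_lit 32) (.e (nat_lit 426121) (nat_lit 2) (.e (nat_lit 196666) (nat_lit 13) (.e (nat_lit 65617) (nat_lit 10) (.e (nat_lit 344132) (nat_lit 26) (.e (nat_lit 557094) (nat_lit 12) (.e (nat_lit 164022) (nat_lit 46) (.e (nat_lit 704629) (nat_lit 9) .nil)))))))) (.g (nat_lit 1) (.e (nat_lit 2997) (nat_lit 0) .nil) .nil))) 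
(.lf (nat_lit 448166) (.g (nat_lit 1752) (.e (nat_lit 416) (nat_lit 32) (.e (nat_lit 426190) (nat_lit 9) (.e (nat_lit 426566) (nat_lit 34) (.e (nat_lit 393252) (nat_lit 18) (.e (nat_lit 164332) (nat_lit 230) .nil))))) (.g (nat_lit 0) (.e (nat_lit 4935) (nat_lit 0) .nil) .nil)))) (.nd (nat_lit 9) 
(.lf (nat_lit 447910) (.g (nat_lit 3099) (.e (nat_lit 398) (nat_lit 32) (.e (nat_lit 426121) (nat_lit 2) (.e (nat_lit 196666) (nat_lit 13) (.e (nat_lit 65617) (nat_lit 10) (.e (nat_lit 344132) (nat_lit 26) (.e (nat_lit 557094) (nat_lit 12) (.e (nat_lit 164022) (nat_lit 46) (.e (nat_lit 704626) (nat_lit 9) .nil)))))))) (.g (nat_lit 1) (.e (nat_lit 4292) (nat_lit 0) .nil) .nil))) 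
(.lf (nat_lit 448422) (.g (nat_lit 2630) (.e (nat_lit 430) (nat_lit 32) (.e (nat_lit 426315) (nat_lit 12) (.e (nat_lit 475185) (nat_lit 29) (.e (nat_lit 557101) (nat_lit 13) (.e (nat_lit 172115) (nat_lit 10) (.e (nat_lit 434244) (nat_lit 28) (.e (nat_lit 573449) (nat_lit 9) .nil))))))) (.g (nat_lit 1) (.e (nat_lit 5821) (nat_lit 0) .nil) .nil)))))) 
(.nd (nat_lit 7) (.nd (nat_lit 8) (.nd (nat_lit 9) 
(.lf (nat_lit 447590) (.g (nat_lit 4610) (.e (nat_lit 375) (nat_lit 32) (.e (nat_lit 426140) (nat_lit 3) (.e (nat_lit 204868) (nat_lit 29) (.e (nat_lit 360475) (nat_lit 8) (.e (nat_lit 557091) (nat_lit 12) (.e (nat_lit 164022) (nat_lit 46) (.e (nat_lit 704628) (nat_lit 9) .nil))))))) (.g (nat_lit 1) (.e (nat_lit 2305) (nat_lit 0) .nil) .nil))) 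
(.lf (nat_lit 448102) (.g (nat_lit 2798) (.e (nat_lit 436) (nat_lit 32) (.e (nat_lit 426137) (nat_lit 3) (.e (nat_lit 204869) (nat_lit 29) (.e (nat_lit 360474) (nat_lit 8) (.e (nat_lit 557093) (nat_lit 12) (.e (nat_lit 164022) (nat_lit 46) (.e (nat_lit 704626) (nat_lit 9) .nil))))))) (.g (nat_lit 1) (.e (nat_lit 4726) (nat_lit 0) .nil) .nil)))) (.nd (nat_lit 9) 
(.lf (nat_lit 447846) (.g (nat_lit 737) (.e (nat_lit 394) (nat_lit 32) (.e (nat_lit 426344) (nat_lit 14) (.e (nat_lit 491535) (nat_lit 2) .nil))) (.g (nat_lit 0) (.e (nat_lit 4046) (nat_lit 0) .nil) .nil))) 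
(.lf (nat_lit 448358) (.g (nat_lit 4495) (.e (nat_lit 430) (nat_lit 32) (.e (nat_lit 426190) (nat_lit 9) (.e (nat_lit 426566) (nat_lit 34) (.e (nat_lit 393253) (nat_lit 18) (.e (nat_lit 164332) (nat_lit 230) (.e (nat_lit 163869) (nat_lit 2) (.e (nat_lit 196630) (nat_lit 9) .nil))))))) (.g (nat_lit 1) (.e (nat_lit 5710) (nat_lit 0) .nil) .nil))))) (.nd (nat_lit 8) (.nd (nat_lit 9) 
(.lf (nat_lit 447718) (.g (nat_lit 4303) (.e (nat_lit 392) (nat_lit 32) (.e (nat_lit 426316) (nat_lit 12) (.e (nat_lit 475185) (nat_lit 29) (.e (nat_lit 557107) (nat_lit 15) (.e (nat_lit 188440) (nat_lit 20) (.e (nat_lit 3307) (nat_lit 202) (.e (nat_lit 573462) (nat_lit 9) .nil))))))) (.g (nat_lit 1) (.e (nat_lit 3340) (nat_lit 0) .nil) .nil))) 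
(.lf (nat_lit 448230) (.g (nat_lit 3997) (.e (nat_lit 426) (nat_lit 32) (.e (nat_lit 426315) (nat_lit 12) (.e (nat_lit 475185) (nat_lit 29) (.e (nat_lit 557100) (nat_lit 13) (.e (nat_lit 172113) (nat_lit 10) (.e (nat_lit 434245) (nat_lit 28) (.e (nat_lit 573458) (nat_lit 9) .nil))))))) (.g (nat_lit 1) (.e (nat_lit 5277) (nat_lit 0) .nil) .nil)))) (.nd (nat_lit 9) 
(.lf (nat_lit 447974) (.g (nat_lit 1815) (.e (nat_lit 403) (nat_lit 32) (.e (nat_lit 426340) (nat_lit 14) (.e (nat_lit 491570) (nat_lit 13) (.e (nat_lit 393260) (nat_lit 21) (.e (nat_lit 409618) (nat_lit 10) .nil))))) (.g (nat_lit 0) (.e (nat_lit 4452) (nat_lit 0) .nil) .nil))) 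
(.lf (nat_lit 448486) (.g (nat_lit 2333) (.e (nat_lit 430) (nat_lit 32) (.e (nat_lit 426343) (nat_lit 14) (.e (nat_lit 491537) (nat_lit 2) (.e (nat_lit 90178) (nat_lit 15) (.e (nat_lit 188440) (nat_lit 20) .nil))))) (.g (nat_lit 0) (.e (nat_lit 5982) (nat_lit 0) .nil) .nil)))))))) (.nd (nat_lit 5) (.nd (nat_lit 6) (.nd (nat_lit 7) (.nd (nat_lit 8) (.nd (nat_lit 9) 
(.lf (nat_lit 447510) (.g (nat_lit 4465) (.e (nat_lit 375) (nat_lit 32) (.e (nat_lit 426125) (nat_lit 2) (.e (nat_lit 196666) (nat_lit 13) (.e (nat_lit 65610) (nat_lit 10) (.e (nat_lit 344129) (nat_lit 26) (.e (nat_lit 557093) (nat_lit 12) (.e (nat_lit 164022) (nat_lit 46) (.e (nat_lit 704627) (nat_lit 9) .nil)))))))) (.g (nat_lit 1) (.e (nat_lit 2206) (nat_lit 0) .nil) .nil))) 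
(.lf (nat_lit 448022) (.g (nat_lit 4798) (.e (nat_lit 411) (nat_lit 32) (.e (nat_lit 426113) (nat_lit 2) (.e (nat_lit 196666) (nat_lit 13) (.e (nat_lit 65617) (nat_lit 10) (.e (nat_lit 344132) (nat_lit 26) (.e (nat_lit 557093) (nat_lit 12) (.e (nat_lit 164022) (nat_lit 46) (.e (nat_lit 704629) (nat_lit 9) .nil)))))))) (.g (nat_lit 1) (.e (nat_lit 4594) (nat_lit 0) .nil) .nil)))) (.nd (nat_lit 9) 
(.lf (nat_lit 447766) (.g (nat_lit 2758) (.e (nat_lit 396) (nat_lit 32) (.e (nat_lit 426139) (nat_lit 3) (.e (nat_lit 204869) (nat_lit 29) (.e (nat_lit 360474) (nat_lit 8) (.e (nat_lit 557093) (nat_lit 12) .nil))))) (.g (nat_lit 0) (.e (nat_lit 3510) (nat_lit 0) .nil) .nil))) 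
(.lf (nat_lit 448278) (.g (nat_lit 3405) (.e (nat_lit 425) (nat_lit 32) (.e (nat_lit 426341) (nat_lit 14) (.e (nat_lit 491571) (nat_lit 13) (.e (nat_lit 393260) (nat_lit 21) (.e (nat_lit 409616) (nat_lit 10) .nil))))) (.g (nat_lit 0) (.e (nat_lit 5514) (nat_lit 0) .nil) .nil))))) (.nd (nat_lit 8) (.nd (nat_lit 9) 
(.lf (nat_lit 447638) (.g (nat_lit 3008) (.e (nat_lit 379) (nat_lit 32) (.e (nat_lit 426428) (nat_lit 17) (.e (nat_lit 90174) (nat_lit 14) (.e (nat_lit 180250) (nat_lit 10) (.e (nat_lit 573480) (nat_lit 13) (.e (nat_lit 65568) (nat_lit 2) (.e (nat_lit 98048) (nat_lit 0) .nil))))))) (.g (nat_lit 1) (.e (nat_lit 2967) (nat_lit 0) .nil) .nil))) 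
(.lf (nat_lit 448150) (.g (nat_lit 4166) (.e (nat_lit 440) (nat_lit 32) (.e (nat_lit 426338) (nat_lit 14) (.e (nat_lit 491571) (nat_lit 13) (.e (nat_lit 393260) (nat_lit 21) (.e (nat_lit 409616) (nat_lit 10) .nil))))) (.g (nat_lit 0) (.e (nat_lit 4906) (nat_lit 0) .nil) .nil)))) (.nd (nat_lit 9) 
(.lf (nat_lit 447894) (.g (nat_lit 3977) (.e (nat_lit 397) (nat_lit 32) (.e (nat_lit 426190) (nat_lit 9) (.e (nat_lit 426566) (nat_lit 34) (.e (nat_lit 393253) (nat_lit 18) (.e (nat_lit 164332) (nat_lit 230) (.e (nat_lit 163869) (nat_lit 2) (.e (nat_lit 196628) (nat_lit 9) .nil))))))) (.g (nat_lit 1) (.e (nat_lit 4258) (nat_lit 0) .nil) .nil))) 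
(.lf (nat_lit 448406) (.g (nat_lit 3870) (.e (nat_lit 430) (nat_lit 32) (.e (nat_lit 426308) (nat_lit 12) (.e (nat_lit 475184) (nat_lit 29) (.e (nat_lit 557107) (nat_lit 15) (.e (nat_lit 188440) (nat_lit 20) (.e (nat_lit 3307) (nat_lit 202) (.e (nat_lit 573456) (nat_lit 9) .nil))))))) (.g (nat_lit 1) (.e (nat_lit 5805) (nat_lit 0) .nil) .nil)))))) 
(.nd (nat_lit 7) (.nd (nat_lit 8) (.nd (nat_lit 9) 
(.lf (nat_lit 447574) (.g (nat_lit 3705) (.e (nat_lit 375) (nat_lit 32) (.e (nat_lit 426135) (nat_lit 3) (.e (nat_lit 204869) (nat_lit 29) (.e (nat_lit 360474) (nat_lit 8) (.e (nat_lit 557093) (nat_lit 12) (.e (nat_lit 164022) (nat_lit 46) (.e (nat_lit 704626) (nat_lit 9) .nil))))))) (.g (nat_lit 1) (.e (nat_lit 2286) (nat_lit 0) .nil) .nil))) 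
(.lf (nat_lit 448086) (.g (nat_lit 3817) (.e (nat_lit 436) (nat_lit 32) (.e (nat_lit 426121) (nat_lit 2) (.e (nat_lit 196666) (nat_lit 13) (.e (nat_lit 65617) (nat_lit 10) (.e (nat_lit 344132) (nat_lit 26) (.e (nat_lit 557093) (nat_lit 12) (.e (nat_lit 164022) (nat_lit 46) (.e (nat_lit 704629) (nat_lit 9) .nil)))))))) (.g (nat_lit 1) (.e (nat_lit 4702) (nat_lit 0) .nil) .nil)))) (.nd (nat_lit 9) 
(.lf (nat_lit 447830) (.g (nat_lit 3561) (.e (nat_lit 394) (nat_lit 32) (.e (nat_lit 426306) (nat_lit 12) (.e (nat_lit 475185) (nat_lit 29) (.e (nat_lit 557100) (nat_lit 13) (.e (nat_lit 172106) (nat_lit 10) (.e (nat_lit 434244) (nat_lit 28) (.e (nat_lit 573458) (nat_lit 9) .nil))))))) (.g (nat_lit 1) (.e (nat_lit 3960) (nat_lit 0) .nil) .nil))) 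
(.lf (nat_lit 448342) (.g (nat_lit 3880) (.e (nat_lit 430) (nat_lit 32) (.e (nat_lit 426189) (nat_lit 9) (.e (nat_lit 426566) (nat_lit 34) (.e (nat_lit 393253) (nat_lit 18) (.e (nat_lit 164326) (nat_lit 230) (.e (nat_lit 163870) (nat_lit 2) (.e (nat_lit 196630) (nat_lit 9) .nil))))))) (.g (nat_lit 1) (.e (nat_lit 5684) (nat_lit 0) .nil) .nil))))) (.nd (nat_lit 8) (.nd (nat_lit 9) 
(.lf (nat_lit 447702) (.g (nat_lit 478) (.e (nat_lit 392) (nat_lit 32) (.e (nat_lit 426316) (nat_lit 12) (.e (nat_lit 475185) (nat_lit 29) .nil))) (.g (nat_lit 0) (.e (nat_lit 3320) (nat_lit 0) .nil) .nil))) 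
(.lf (nat_lit 448214) (.g (nat_lit 4052) (.e (nat_lit 426) (nat_lit 32) (.e (nat_lit 426306) (nat_lit 12) (.e (nat_lit 475184) (nat_lit 29) (.e (nat_lit 557100) (nat_lit 13) (.e (nat_lit 172106) (nat_lit 10) (.e (nat_lit 434244) (nat_lit 28) (.e (nat_lit 573458) (nat_lit 9) .nil))))))) (.g (nat_lit 1) (.e (nat_lit 5261) (nat_lit 0) .nil) .nil)))) (.nd (nat_lit 9) 
(.lf (nat_lit 447958) (.g (nat_lit 1896) (.e (nat_lit 403) (nat_lit 32) (.e (nat_lit 426339) (nat_lit 14) (.e (nat_lit 491570) (nat_lit 13) (.e (nat_lit 393260) (nat_lit 21) (.e (nat_lit 409618) (nat_lit 10) .nil))))) (.g (nat_lit 0) (.e (nat_lit 4432) (nat_lit 0) .nil) .nil))) 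
(.lf (nat_lit 448470) (.g (nat_lit 2671) (.e (nat_lit 430) (nat_lit 32) (.e (nat_lit 426343) (nat_lit 14) (.e (nat_lit 491535) (nat_lit 2) (.e (nat_lit 90178) (nat_lit 15) (.e (nat_lit 188440) (nat_lit 20) (.e (nat_lit 3307) (nat_lit 202) (.e (nat_lit 573457) (nat_lit 9) .nil))))))) (.g (nat_lit 1) (.e (nat_lit 5966) (nat_lit 0) .nil) .nil))))))) 
(.nd (nat_lit 6) (.nd (nat_lit 7) (.nd (nat_lit 8) (.nd (nat_lit 9) 
(.lf (nat_lit 447542) (.g (nat_lit 4160) (.e (nat_lit 375) (nat_lit 32) (.e (nat_lit 426125) (nat_lit 2) (.e (nat_lit 196666) (nat_lit 13) (.e (nat_lit 65610) (nat_lit 10) (.e (nat_lit 344132) (nat_lit 26) (.e (nat_lit 557094) (nat_lit 12) (.e (nat_lit 164022) (nat_lit 46) (.e (nat_lit 704627) (nat_lit 9) .nil)))))))) (.g (nat_lit 1) (.e (nat_lit 2240) (nat_lit 0) .nil) .nil))) 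
(.lf (nat_lit 448054) (.g (nat_lit 4070) (.e (nat_lit 411) (nat_lit 32) (.e (nat_lit 426140) (nat_lit 3) (.e (nat_lit 204868) (nat_lit 29) (.e (nat_lit 360475) (nat_lit 8) (.e (nat_lit 557091) (nat_lit 12) (.e (nat_lit 164022) (nat_lit 46) (.e (nat_lit 704628) (nat_lit 9) .nil))))))) (.g (nat_lit 1) (.e (nat_lit 4635) (nat_lit 0) .nil) .nil)))) (.nd (nat_lit 9) 
(.lf (nat_lit 447798) (.g (nat_lit 3772) (.e (nat_lit 396) (nat_lit 32) (.e (nat_lit 426316) (nat_lit 12) (.e (nat_lit 475185) (nat_lit 29) (.e (nat_lit 557100) (nat_lit 13) (.e (nat_lit 172113) (nat_lit 10) (.e (nat_lit 434248) (nat_lit 28) (.e (nat_lit 573452) (nat_lit 9) .nil))))))) (.g (nat_lit 1) (.e (nat_lit 3561) (nat_lit 0) .nil) .nil))) 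
(.lf (nat_lit 448310) (.g (nat_lit 2074) (.e (nat_lit 430) (nat_lit 32) (.e (nat_lit 426011) (nat_lit 0) (.e (nat_lit 7548) (nat_lit 402) (.e (nat_lit 1235) (nat_lit 91) (.e (nat_lit 90170) (nat_lit 13) (.e (nat_lit 172113) (nat_lit 10) (.e (nat_lit 434245) (nat_lit 28) (.e (nat_lit 573451) (nat_lit 9) .nil)))))))) (.g (nat_lit 1) (.e (nat_lit 5550) (nat_lit 0) .nil) .nil))))) 
(.nd (nat_lit 8) (.nd (nat_lit 9) 
(.lf (nat_lit 447670) (.g (nat_lit 2439) (.e (nat_lit 389) (nat_lit 32) (.e (nat_lit 426190) (nat_lit 9) (.e (nat_lit 426566) (nat_lit 34) (.e (nat_lit 393251) (nat_lit 18) (.e (nat_lit 164332) (nat_lit 230) .nil))))) (.g (nat_lit 0) (.e (nat_lit 3048) (nat_lit 0) .nil) .nil))) 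
(.lf (nat_lit 448182) (.g (nat_lit 2074) (.e (nat_lit 422) (nat_lit 32) (.e (nat_lit 426190) (nat_lit 9) (.e (nat_lit 426566) (nat_lit 34) (.e (nat_lit 393253) (nat_lit 18) (.e (nat_lit 164329) (nat_lit 230) .nil))))) (.g (nat_lit 0) (.e (nat_lit 5006) (nat_lit 0) .nil) .nil)))) (.nd (nat_lit 9) 
(.lf (nat_lit 447926) (.g (nat_lit 1476) (.e (nat_lit 401) (nat_lit 32) (.e (nat_lit 426171) (nat_lit 7) (.e (nat_lit 409646) (nat_lit 18) (.e (nat_lit 303115) (nat_lit 1) .nil)))) (.g (nat_lit 0) (.e (nat_lit 4354) (nat_lit 0) .nil) .nil))) 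
(.lf (nat_lit 448438) (.g (nat_lit 3581) (.e (nat_lit 430) (nat_lit 32) (.e (nat_lit 426342) (nat_lit 14) (.e (nat_lit 491536) (nat_lit 2) (.e (nat_lit 90170) (nat_lit 13) (.e (nat_lit 172113) (nat_lit 10) (.e (nat_lit 434247) (nat_lit 28) (.e (nat_lit 573456) (nat_lit 9) .nil))))))) (.g (nat_lit 1) (.e (nat_lit 5933) (nat_lit 0) .nil) .nil)))))) (.nd (nat_lit 7) (.nd (nat_lit 8) (.nd (nat_lit 9) 
(.lf (nat_lit 447606) (.g (nat_lit 2847) (.e (nat_lit 375) (nat_lit 32) (.e (nat_lit 426173) (nat_lit 7) (.e (nat_lit 409616) (nat_lit 10) (.e (nat_lit 932) (nat_lit 76) (.e (nat_lit 786480) (nat_lit 29) (.e (nat_lit 352312) (nat_lit 22) (.e (nat_lit 98048) (nat_lit 0) .nil))))))) (.g (nat_lit 1) (.e (nat_lit 2324) (nat_lit 0) .nil) .nil))) 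
(.lf (nat_lit 448118) (.g (nat_lit 2215) (.e (nat_lit 436) (nat_lit 32) (.e (nat_lit 426313) (nat_lit 12) (.e (nat_lit 475185) (nat_lit 29) (.e (nat_lit 557101) (nat_lit 13) (.e (nat_lit 172115) (nat_lit 10) (.e (nat_lit 434244) (nat_lit 28) (.e (nat_lit 573450) (nat_lit 9) .nil))))))) (.g (nat_lit 1) (.e (nat_lit 4754) (nat_lit 0) .nil) .nil)))) (.nd (nat_lit 9) 
(.lf (nat_lit 447862) (.g (nat_lit 3465) (.e (nat_lit 395) (nat_lit 32) (.e (nat_lit 426316) (nat_lit 12) (.e (nat_lit 475185) (nat_lit 29) (.e (nat_lit 557101) (nat_lit 13) (.e (nat_lit 172115) (nat_lit 10) (.e (nat_lit 434244) (nat_lit 28) (.e (nat_lit 573453) (nat_lit 9) .nil))))))) (.g (nat_lit 1) (.e (nat_lit 4147) (nat_lit 0) .nil) .nil))) 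
(.lf (nat_lit 448374) (.g (nat_lit 2337) (.e (nat_lit 430) (nat_lit 32) (.e (nat_lit 426305) (nat_lit 12) (.e (nat_lit 475185) (nat_lit 29) (.e (nat_lit 557100) (nat_lit 13) (.e (nat_lit 172113) (nat_lit 10) .nil))))) (.g (nat_lit 0) (.e (nat_lit 5772) (nat_lit 0) .nil) .nil))))) (.nd (nat_lit 8) (.nd (nat_lit 9) 
(.lf (nat_lit 447734) (.g (nat_lit 4177) (.e (nat_lit 393) (nat_lit 32) (.e (nat_lit 426338) (nat_lit 14) (.e (nat_lit 491571) (nat_lit 13) (.e (nat_lit 393260) (nat_lit 21) (.e (nat_lit 409616) (nat_lit 10) .nil))))) (.g (nat_lit 0) (.e (nat_lit 3439) (nat_lit 0) .nil) .nil))) 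
(.lf (nat_lit 448246) (.g (nat_lit 2560) (.e (nat_lit 426) (nat_lit 32) (.e (nat_lit 426316) (nat_lit 12) (.e (nat_lit 475185) (nat_lit 29) (.e (nat_lit 557109) (nat_lit 15) (.e (nat_lit 188434) (nat_lit 20) .nil))))) (.g (nat_lit 0) (.e (nat_lit 5297) (nat_lit 0) .nil) .nil)))) (.nd (nat_lit 9) 
(.lf (nat_lit 447990) (.g (nat_lit 1895) (.e (nat_lit 404) (nat_lit 32) (.e (nat_lit 426340) (nat_lit 14) (.e (nat_lit 491549) (nat_lit 9) (.e (nat_lit 336369) (nat_lit 27) (.e (nat_lit 426173) (nat_lit 7) .nil))))) (.g (nat_lit 0) (.e (nat_lit 4498) (nat_lit 0) .nil) .nil))) 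
(.lf (nat_lit 448502) (.g (nat_lit 2891) (.e (nat_lit 430) (nat_lit 32) (.e (nat_lit 426343) (nat_lit 14) (.e (nat_lit 491540) (nat_lit 3) (.e (nat_lit 98372) (nat_lit 29) (.e (nat_lit 450586) (nat_lit 10) (.e (nat_lit 573452) (nat_lit 9) .nil)))))) (.g (nat_lit 1) (.e (nat_lit 5998) (nat_lit 0) .nil) .nil))))))))) 
(.nd (nat_lit 4) (.nd (nat_lit 5) (.nd (nat_lit 6) (.nd (nat_lit 7) (.nd (nat_lit 8) 
(.nd (nat_lit 9) 
(.lf (nat_lit 447502) (.g (nat_lit 6827) (.e (nat_lit 375) (nat_lit 32) (.e (nat_lit 426125) (nat_lit 2) (.e (nat_lit 196666) (nat_lit 13) (.e (nat_lit 65610) (nat_lit 10) (.e (nat_lit 344129) (nat_lit 26) (.e (nat_lit 557091) (nat_lit 12) (.e (nat_lit 164022) (nat_lit 46) (.e (nat_lit 704628) (nat_lit 9) .nil)))))))) (.g (nat_lit 1) (.e (nat_lit 2198) (nat_lit 0) .nil) .nil))) 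
(.lf (nat_lit 448014) (.g (nat_lit 4172) (.e (nat_lit 414) (nat_lit 32) (.e (nat_lit 426338) (nat_lit 14) (.e (nat_lit 491571) (nat_lit 13) (.e (nat_lit 393260) (nat_lit 21) (.e (nat_lit 409616) (nat_lit 10) .nil))))) (.g (nat_lit 0) (.e (nat_lit 4567) (nat_lit 0) .nil) .nil)))) (.nd (nat_lit 9) 
(.lf (nat_lit 447758) (.g (nat_lit 4731) (.e (nat_lit 396) (nat_lit 32) (.e (nat_lit 426123) (nat_lit 2) (.e (nat_lit 196666) (nat_lit 13) (.e (nat_lit 65617) (nat_lit 10) (.e (nat_lit 344132) (nat_lit 26) (.e (nat_lit 557072) (nat_lit 9) (.e (nat_lit 2741) (nat_lit 174) (.e (nat_lit 253959) (nat_lit 9) .nil)))))))) (.g (nat_lit 1) (.e (nat_lit 3464) (nat_lit 0) .nil) .nil))) 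
(.lf (nat_lit 448270) (.g (nat_lit 1882) (.e (nat_lit 425) (nat_lit 32) (.e (nat_lit 426190) (nat_lit 9) (.e (nat_lit 426566) (nat_lit 34) (.e (nat_lit 393253) (nat_lit 18) (.e (nat_lit 164325) (nat_lit 230) .nil))))) (.g (nat_lit 0) (.e (nat_lit 5496) (nat_lit 0) .nil) .nil))))) (.nd (nat_lit 8) (.nd (nat_lit 9) 
(.lf (nat_lit 447630) (.g (nat_lit 3759) (.e (nat_lit 375) (nat_lit 32) (.e (nat_lit 426340) (nat_lit 14) (.e (nat_lit 491571) (nat_lit 13) (.e (nat_lit 393260) (nat_lit 21) (.e (nat_lit 409616) (nat_lit 10) (.e (nat_lit 7936) (nat_lit 298) .nil)))))) (.g (nat_lit 1) (.e (nat_lit 2935) (nat_lit 0) .nil) .nil))) 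
(.lf (nat_lit 448142) (.g (nat_lit 3743) (.e (nat_lit 440) (nat_lit 32) (.e (nat_lit 426139) (nat_lit 3) (.e (nat_lit 204869) (nat_lit 29) (.e (nat_lit 360474) (nat_lit 8) (.e (nat_lit 557091) (nat_lit 12) (.e (nat_lit 164022) (nat_lit 46) (.e (nat_lit 704626) (nat_lit 9) .nil))))))) (.g (nat_lit 1) (.e (nat_lit 4884) (nat_lit 0) .nil) .nil)))) (.nd (nat_lit 9) 
(.lf (nat_lit 447886) (.g (nat_lit 2387) (.e (nat_lit 397) (nat_lit 32) (.e (nat_lit 426189) (nat_lit 9) (.e (nat_lit 426566) (nat_lit 34) (.e (nat_lit 393253) (nat_lit 18) (.e (nat_lit 164329) (nat_lit 230) (.e (nat_lit 163867) (nat_lit 2) (.e (nat_lit 196628) (nat_lit 9) .nil))))))) (.g (nat_lit 1) (.e (nat_lit 4250) (nat_lit 0) .nil) .nil))) 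
(.lf (nat_lit 448398) (.g (nat_lit 2341) (.e (nat_lit 430) (nat_lit 32) (.e (nat_lit 426308) (nat_lit 12) (.e (nat_lit 475184) (nat_lit 29) (.e (nat_lit 557098) (nat_lit 13) (.e (nat_lit 172112) (nat_lit 10) (.e (nat_lit 434248) (nat_lit 28) (.e (nat_lit 573452) (nat_lit 9) .nil))))))) (.g (nat_lit 1) (.e (nat_lit 5797) (nat_lit 0) .nil) .nil)))))) 
(.nd (nat_lit 7) (.nd (nat_lit 8) (.nd (nat_lit 9) 
(.lf (nat_lit 447566) (.g (nat_lit 887) (.e (nat_lit 375) (nat_lit 32) (.e (nat_lit 426125) (nat_lit 2) (.e (nat_lit 196686) (nat_lit 18) .nil))) (.g (nat_lit 0) (.e (nat_lit 2274) (nat_lit 0) .nil) .nil))) 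
(.lf (nat_lit 448078) (.g (nat_lit 2116) (.e (nat_lit 411) (nat_lit 32) (.e (nat_lit 426340) (nat_lit 14) (.e (nat_lit 491571) (nat_lit 13) (.e (nat_lit 393260) (nat_lit 21) (.e (nat_lit 409617) (nat_lit 10) (.e (nat_lit 7936) (nat_lit 298) .nil)))))) (.g (nat_lit 1) (.e (nat_lit 4684) (nat_lit 0) .nil) .nil)))) (.nd (nat_lit 9) 
(.lf (nat_lit 447822) (.g (nat_lit 4921) (.e (nat_lit 396) (nat_lit 32) (.e (nat_lit 426343) (nat_lit 14) (.e (nat_lit 491539) (nat_lit 3) (.e (nat_lit 98373) (nat_lit 29) (.e (nat_lit 450588) (nat_lit 10) (.e (nat_lit 573451) (nat_lit 9) .nil)))))) (.g (nat_lit 1) (.e (nat_lit 3743) (nat_lit 0) .nil) .nil))) 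
(.lf (nat_lit 448334) (.g (nat_lit 3920) (.e (nat_lit 430) (nat_lit 32) (.e (nat_lit 426133) (nat_lit 3) (.e (nat_lit 204869) (nat_lit 29) (.e (nat_lit 360475) (nat_lit 8) (.e (nat_lit 557091) (nat_lit 12) .nil))))) (.g (nat_lit 0) (.e (nat_lit 5656) (nat_lit 0) .nil) .nil))))) (.nd (nat_lit 8) (.nd (nat_lit 9) 
(.lf (nat_lit 447694) (.g (nat_lit 4216) (.e (nat_lit 391) (nat_lit 32) (.e (nat_lit 426338) (nat_lit 14) (.e (nat_lit 491571) (nat_lit 13) (.e (nat_lit 393260) (nat_lit 21) (.e (nat_lit 409616) (nat_lit 10) (.e (nat_lit 7936) (nat_lit 298) .nil)))))) (.g (nat_lit 1) (.e (nat_lit 3113) (nat_lit 0) .nil) .nil))) 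
(.lf (nat_lit 448206) (.g (nat_lit 2195) (.e (nat_lit 426) (nat_lit 32) (.e (nat_lit 426198) (nat_lit 9) (.e (nat_lit 426364) (nat_lit 15) (.e (nat_lit 1858) (nat_lit 124) (.e (nat_lit 557101) (nat_lit 13) (.e (nat_lit 172115) (nat_lit 10) (.e (nat_lit 434244) (nat_lit 28) (.e (nat_lit 573458) (nat_lit 9) .nil)))))))) (.g (nat_lit 1) (.e (nat_lit 5237) (nat_lit 0) .nil) .nil)))) (.nd (nat_lit 9) 
(.lf (nat_lit 447950) (.g (nat_lit 3548) (.e (nat_lit 401) (nat_lit 32) (.e (nat_lit 426340) (nat_lit 14) (.e (nat_lit 491571) (nat_lit 13) (.e (nat_lit 393260) (nat_lit 21) (.e (nat_lit 409618) (nat_lit 10) (.e (nat_lit 5362) (nat_lit 298) .nil)))))) (.g (nat_lit 1) (.e (nat_lit 4403) (nat_lit 0) .nil) .nil))) 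
(.lf (nat_lit 448462) (.g (nat_lit 3872) (.e (nat_lit 430) (nat_lit 32) (.e (nat_lit 426343) (nat_lit 14) (.e (nat_lit 491526) (nat_lit 0) (.e (nat_lit 1788) (nat_lit 119) (.e (nat_lit 516165) (nat_lit 12) (.e (nat_lit 450586) (nat_lit 10) (.e (nat_lit 573456) (nat_lit 9) .nil))))))) (.g (nat_lit 1) (.e (nat_lit 5958) (nat_lit 0) .nil) .nil))))))) 
(.nd (nat_lit 6) (.nd (nat_lit 7) (.nd (nat_lit 8) (.nd (nat_lit 9) 
(.lf (nat_lit 447534) (.g (nat_lit 2833) (.e (nat_lit 375) (nat_lit 32) (.e (nat_lit 426125) (nat_lit 2) (.e (nat_lit 196666) (nat_lit 13) (.e (nat_lit 65610) (nat_lit 10) (.e (nat_lit 344132) (nat_lit 26) (.e (nat_lit 557091) (nat_lit 12) (.e (nat_lit 164022) (nat_lit 46) (.e (nat_lit 704627) (nat_lit 9) .nil)))))))) (.g (nat_lit 1) (.e (nat_lit 2232) (nat_lit 0) .nil) .nil))) 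
(.lf (nat_lit 448046) (.g (nat_lit 3309) (.e (nat_lit 411) (nat_lit 32) (.e (nat_lit 426136) (nat_lit 3) (.e (nat_lit 204869) (nat_lit 29) (.e (nat_lit 360475) (nat_lit 8) (.e (nat_lit 557091) (nat_lit 12) (.e (nat_lit 164022) (nat_lit 46) (.e (nat_lit 704628) (nat_lit 9) .nil))))))) (.g (nat_lit 1) (.e (nat_lit 4618) (nat_lit 0) .nil) .nil)))) (.nd (nat_lit 9) 
(.lf (nat_lit 447790) (.g (nat_lit 2405) (.e (nat_lit 396) (nat_lit 32) (.e (nat_lit 426314) (nat_lit 12) (.e (nat_lit 475185) (nat_lit 29) (.e (nat_lit 557100) (nat_lit 13) (.e (nat_lit 172113) (nat_lit 10) .nil))))) (.g (nat_lit 0) (.e (nat_lit 3550) (nat_lit 0) .nil) .nil))) 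
(.lf (nat_lit 448302) (.g (nat_lit 2373) (.e (nat_lit 430) (nat_lit 32) (.e (nat_lit 426011) (nat_lit 0) (.e (nat_lit 7523) (nat_lit 402) (.e (nat_lit 1234) (nat_lit 91) (.e (nat_lit 90170) (nat_lit 13) (.e (nat_lit 172113) (nat_lit 10) (.e (nat_lit 434248) (nat_lit 28) (.e (nat_lit 573452) (nat_lit 9) .nil)))))))) (.g (nat_lit 1) (.e (nat_lit 5542) (nat_lit 0) .nil) .nil))))) 
(.nd (nat_lit 8) (.nd (nat_lit 9) 
(.lf (nat_lit 447662) (.g (nat_lit 1814) (.e (nat_lit 390) (nat_lit 32) (.e (nat_lit 426190) (nat_lit 9) (.e (nat_lit 426566) (nat_lit 34) (.e (nat_lit 393253) (nat_lit 18) (.e (nat_lit 164327) (nat_lit 230) .nil))))) (.g (nat_lit 0) (.e (nat_lit 3029) (nat_lit 0) .nil) .nil))) 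
(.lf (nat_lit 448174) (.g (nat_lit 3223) (.e (nat_lit 416) (nat_lit 32) (.e (nat_lit 426316) (nat_lit 12) (.e (nat_lit 475185) (nat_lit 29) (.e (nat_lit 557100) (nat_lit 13) .nil)))) (.g (nat_lit 0) (.e (nat_lit 4943) (nat_lit 0) .nil) .nil)))) (.nd (nat_lit 9) 
(.lf (nat_lit 447918) (.g (nat_lit 1721) (.e (nat_lit 398) (nat_lit 32) (.e (nat_lit 426190) (nat_lit 9) (.e (nat_lit 426566) (nat_lit 34) (.e (nat_lit 393253) (nat_lit 18) (.e (nat_lit 164325) (nat_lit 230) .nil))))) (.g (nat_lit 0) (.e (nat_lit 4305) (nat_lit 0) .nil) .nil))) 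
(.lf (nat_lit 448430) (.g (nat_lit 3773) (.e (nat_lit 430) (nat_lit 32) (.e (nat_lit 426338) (nat_lit 14) (.e (nat_lit 491540) (nat_lit 3) (.e (nat_lit 98373) (nat_lit 29) (.e (nat_lit 450587) (nat_lit 10) (.e (nat_lit 573456) (nat_lit 9) .nil)))))) (.g (nat_lit 1) (.e (nat_lit 5925) (nat_lit 0) .nil) .nil)))))) (.nd (nat_lit 7) (.nd (nat_lit 8) (.nd (nat_lit 9) 
(.lf (nat_lit 447598) (.g (nat_lit 4479) (.e (nat_lit 375) (nat_lit 32) (.e (nat_lit 426140) (nat_lit 3) (.e (nat_lit 204869) (nat_lit 29) (.e (nat_lit 360475) (nat_lit 8) (.e (nat_lit 557091) (nat_lit 12) (.e (nat_lit 164022) (nat_lit 46) (.e (nat_lit 704626) (nat_lit 9) .nil))))))) (.g (nat_lit 1) (.e (nat_lit 2313) (nat_lit 0) .nil) .nil))) 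
(.lf (nat_lit 448110) (.g (nat_lit 3655) (.e (nat_lit 436) (nat_lit 32) (.e (nat_lit 426139) (nat_lit 3) (.e (nat_lit 204869) (nat_lit 29) (.e (nat_lit 360474) (nat_lit 8) (.e (nat_lit 557093) (nat_lit 12) (.e (nat_lit 164022) (nat_lit 46) (.e (nat_lit 704627) (nat_lit 9) .nil))))))) (.g (nat_lit 1) (.e (nat_lit 4745) (nat_lit 0) .nil) .nil)))) (.nd (nat_lit 9) 
(.lf (nat_lit 447854) (.g (nat_lit 1967) (.e (nat_lit 395) (nat_lit 32) (.e (nat_lit 426316) (nat_lit 12) (.e (nat_lit 475185) (nat_lit 29) (.e (nat_lit 557098) (nat_lit 13) .nil)))) (.g (nat_lit 0) (.e (nat_lit 4139) (nat_lit 0) .nil) .nil))) 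
(.lf (nat_lit 448366) (.g (nat_lit 2602) (.e (nat_lit 430) (nat_lit 32) (.e (nat_lit 426298) (nat_lit 11) (.e (nat_lit 458789) (nat_lit 23) (.e (nat_lit 532482) (nat_lit 0) (.e (nat_lit 6724) (nat_lit 362) (.e (nat_lit 180250) (nat_lit 10) (.e (nat_lit 573452) (nat_lit 9) .nil))))))) (.g (nat_lit 1) (.e (nat_lit 5764) (nat_lit 0) .nil) .nil))))) (.nd (nat_lit 8) (.nd (nat_lit 9) 
(.lf (nat_lit 447726) (.g (nat_lit 2067) (.e (nat_lit 392) (nat_lit 32) (.e (nat_lit 426343) (nat_lit 14) (.e (nat_lit 491570) (nat_lit 13) (.e (nat_lit 393260) (nat_lit 21) (.e (nat_lit 409616) (nat_lit 10) .nil))))) (.g (nat_lit 0) (.e (nat_lit 3393) (nat_lit 0) .nil) .nil))) 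
(.lf (nat_lit 448238) (.g (nat_lit 4955) (.e (nat_lit 426) (nat_lit 32) (.e (nat_lit 426316) (nat_lit 12) (.e (nat_lit 475185) (nat_lit 29) (.e (nat_lit 557097) (nat_lit 13) (.e (nat_lit 172115) (nat_lit 10) .nil))))) (.g (nat_lit 0) (.e (nat_lit 5288) (nat_lit 0) .nil) .nil)))) (.nd (nat_lit 9) 
(.lf (nat_lit 447982) (.g (nat_lit 2139) (.e (nat_lit 403) (nat_lit 32) (.e (nat_lit 426340) (nat_lit 14) (.e (nat_lit 491571) (nat_lit 13) (.e (nat_lit 393260) (nat_lit 21) (.e (nat_lit 409616) (nat_lit 10) (.e (nat_lit 7936) (nat_lit 298) .nil)))))) (.g (nat_lit 1) (.e (nat_lit 4461) (nat_lit 0) .nil) .nil))) 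
(.lf (nat_lit 448494) (.g (nat_lit 3977) (.e (nat_lit 430) (nat_lit 32) (.e (nat_lit 426343) (nat_lit 14) (.e (nat_lit 491539) (nat_lit 3) (.e (nat_lit 98373) (nat_lit 29) (.e (nat_lit 450586) (nat_lit 10) (.e (nat_lit 573452) (nat_lit 9) .nil)))))) (.g (nat_lit 1) (.e (nat_lit 5990) (nat_lit 0) .nil) .nil)))))))) 
(.nd (nat_lit 5) (.nd (nat_lit 6) (.nd (nat_lit 7) (.nd (nat_lit 8) (.nd (nat_lit 9) 
(.lf (nat_lit 447518) (.g (nat_lit 5415) (.e (nat_lit 375) (nat_lit 32) (.e (nat_lit 426125) (nat_lit 2) (.e (nat_lit 196666) (nat_lit 13) (.e (nat_lit 65610) (nat_lit 10) (.e (nat_lit 344130) (nat_lit 26) (.e (nat_lit 557090) (nat_lit 12) (.e (nat_lit 164022) (nat_lit 46) (.e (nat_lit 704628) (nat_lit 9) .nil)))))))) (.g (nat_lit 1) (.e (nat_lit 2216) (nat_lit 0) .nil) .nil))) 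
(.lf (nat_lit 448030) (.g (nat_lit 3131) (.e (nat_lit 411) (nat_lit 32) (.e (nat_lit 426125) (nat_lit 2) (.e (nat_lit 196666) (nat_lit 13) (.e (nat_lit 65617) (nat_lit 10) (.e (nat_lit 344127) (nat_lit 26) (.e (nat_lit 557093) (nat_lit 12) (.e (nat_lit 164022) (nat_lit 46) (.e (nat_lit 704629) (nat_lit 9) .nil)))))))) (.g (nat_lit 1) (.e (nat_lit 4602) (nat_lit 0) .nil) .nil)))) (.nd (nat_lit 9) 
(.lf (nat_lit 447774) (.g (nat_lit 1759) (.e (nat_lit 396) (nat_lit 32) (.e (nat_lit 426190) (nat_lit 9) (.e (nat_lit 426566) (nat_lit 34) (.e (nat_lit 393253) (nat_lit 18) (.e (nat_lit 164325) (nat_lit 230) .nil))))) (.g (nat_lit 0) (.e (nat_lit 3520) (nat_lit 0) .nil) .nil))) 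
(.lf (nat_lit 448286) (.g (nat_lit 3585) (.e (nat_lit 430) (nat_lit 32) (.e (nat_lit 426010) (nat_lit 0) (.e (nat_lit 7490) (nat_lit 402) (.e (nat_lit 1256) (nat_lit 92) (.e (nat_lit 98373) (nat_lit 29) (.e (nat_lit 450588) (nat_lit 10) (.e (nat_lit 573457) (nat_lit 9) .nil))))))) (.g (nat_lit 1) (.e (nat_lit 5522) (nat_lit 0) .nil) .nil))))) (.nd (nat_lit 8) (.nd (nat_lit 9) 
(.lf (nat_lit 447646) (.g (nat_lit 4716) (.e (nat_lit 385) (nat_lit 32) (.e (nat_lit 426347) (nat_lit 14) (.e (nat_lit 491540) (nat_lit 3) (.e (nat_lit 98373) (nat_lit 29) (.e (nat_lit 450587) (nat_lit 10) (.e (nat_lit 573448) (nat_lit 9) .nil)))))) (.g (nat_lit 1) (.e (nat_lit 2977) (nat_lit 0) .nil) .nil))) 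
(.lf (nat_lit 448158) (.g (nat_lit 4478) (.e (nat_lit 416) (nat_lit 32) (.e (nat_lit 426123) (nat_lit 2) (.e (nat_lit 196666) (nat_lit 13) (.e (nat_lit 65617) (nat_lit 10) (.e (nat_lit 344132) (nat_lit 26) (.e (nat_lit 557093) (nat_lit 12) (.e (nat_lit 164022) (nat_lit 46) (.e (nat_lit 704627) (nat_lit 9) .nil)))))))) (.g (nat_lit 1) (.e (nat_lit 4914) (nat_lit 0) .nil) .nil)))) (.nd (nat_lit 9) 
(.lf (nat_lit 447902) (.g (nat_lit 3280) (.e (nat_lit 397) (nat_lit 32) (.e (nat_lit 426343) (nat_lit 14) (.e (nat_lit 491539) (nat_lit 3) (.e (nat_lit 98373) (nat_lit 29) (.e (nat_lit 450587) (nat_lit 10) (.e (nat_lit 573454) (nat_lit 9) .nil)))))) (.g (nat_lit 1) (.e (nat_lit 4284) (nat_lit 0) .nil) .nil))) 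
(.lf (nat_lit 448414) (.g (nat_lit 3128) (.e (nat_lit 430) (nat_lit 32) (.e (nat_lit 426315) (nat_lit 12) (.e (nat_lit 475183) (nat_lit 29) (.e (nat_lit 557100) (nat_lit 13) (.e (nat_lit 172113) (nat_lit 10) (.e (nat_lit 434248) (nat_lit 28) (.e (nat_lit 573452) (nat_lit 9) .nil))))))) (.g (nat_lit 1) (.e (nat_lit 5813) (nat_lit 0) .nil) .nil)))))) 
(.nd (nat_lit 7) (.nd (nat_lit 8) (.nd (nat_lit 9) 
(.lf (nat_lit 447582) (.g (nat_lit 3233) (.e (nat_lit 375) (nat_lit 32) (.e (nat_lit 426140) (nat_lit 3) (.e (nat_lit 204868) (nat_lit 29) (.e (nat_lit 360473) (nat_lit 8) (.e (nat_lit 557093) (nat_lit 12) (.e (nat_lit 164022) (nat_lit 46) (.e (nat_lit 704627) (nat_lit 9) .nil))))))) (.g (nat_lit 1) (.e (nat_lit 2297) (nat_lit 0) .nil) .nil))) 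
(.lf (nat_lit 448094) (.g (nat_lit 4448) (.e (nat_lit 436) (nat_lit 32) (.e (nat_lit 426123) (nat_lit 2) (.e (nat_lit 196666) (nat_lit 13) (.e (nat_lit 65617) (nat_lit 10) (.e (nat_lit 344130) (nat_lit 26) (.e (nat_lit 557090) (nat_lit 12) (.e (nat_lit 164022) (nat_lit 46) (.e (nat_lit 704629) (nat_lit 9) .nil)))))))) (.g (nat_lit 1) (.e (nat_lit 4712) (nat_lit 0) .nil) .nil)))) (.nd (nat_lit 9) 
(.lf (nat_lit 447838) (.g (nat_lit 2146) (.e (nat_lit 394) (nat_lit 32) (.e (nat_lit 426338) (nat_lit 14) (.e (nat_lit 491537) (nat_lit 2) (.e (nat_lit 90170) (nat_lit 13) (.e (nat_lit 172106) (nat_lit 10) (.e (nat_lit 434244) (nat_lit 28) (.e (nat_lit 573458) (nat_lit 9) .nil))))))) (.g (nat_lit 1) (.e (nat_lit 4038) (nat_lit 0) .nil) .nil))) 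
(.lf (nat_lit 448350) (.g (nat_lit 2371) (.e (nat_lit 430) (nat_lit 32) (.e (nat_lit 426190) (nat_lit 9) (.e (nat_lit 426566) (nat_lit 34) (.e (nat_lit 393253) (nat_lit 18) (.e (nat_lit 164325) (nat_lit 230) (.e (nat_lit 163866) (nat_lit 2) (.e (nat_lit 196630) (nat_lit 9) .nil))))))) (.g (nat_lit 1) (.e (nat_lit 5702) (nat_lit 0) .nil) .nil))))) (.nd (nat_lit 8) (.nd (nat_lit 9) 
(.lf (nat_lit 447710) (.g (nat_lit 2245) (.e (nat_lit 392) (nat_lit 32) (.e (nat_lit 426316) (nat_lit 12) (.e (nat_lit 475185) (nat_lit 29) (.e (nat_lit 557107) (nat_lit 15) (.e (nat_lit 188440) (nat_lit 20) .nil))))) (.g (nat_lit 0) (.e (nat_lit 3332) (nat_lit 0) .nil) .nil))) 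
(.lf (nat_lit 448222) (.g (nat_lit 4502) (.e (nat_lit 426) (nat_lit 32) (.e (nat_lit 426308) (nat_lit 12) (.e (nat_lit 475184) (nat_lit 29) (.e (nat_lit 557098) (nat_lit 13) (.e (nat_lit 172115) (nat_lit 10) (.e (nat_lit 434244) (nat_lit 28) (.e (nat_lit 573458) (nat_lit 9) .nil))))))) (.g (nat_lit 1) (.e (nat_lit 5269) (nat_lit 0) .nil) .nil)))) (.nd (nat_lit 9) 
(.lf (nat_lit 447966) (.g (nat_lit 2079) (.e (nat_lit 403) (nat_lit 32) (.e (nat_lit 426340) (nat_lit 14) (.e (nat_lit 491549) (nat_lit 9) (.e (nat_lit 336438) (nat_lit 31) (.e (nat_lit 458769) (nat_lit 16) (.e (nat_lit 164337) (nat_lit 232) .nil)))))) (.g (nat_lit 1) (.e (nat_lit 4444) (nat_lit 0) .nil) .nil))) 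
(.lf (nat_lit 448478) (.g (nat_lit 4108) (.e (nat_lit 430) (nat_lit 32) (.e (nat_lit 426343) (nat_lit 14) (.e (nat_lit 491536) (nat_lit 2) (.e (nat_lit 90178) (nat_lit 15) (.e (nat_lit 188440) (nat_lit 20) (.e (nat_lit 3307) (nat_lit 202) (.e (nat_lit 573456) (nat_lit 9) .nil))))))) (.g (nat_lit 1) (.e (nat_lit 5974) (nat_lit 0) .nil) .nil))))))) 
(.nd (nat_lit 6) (.nd (nat_lit 7) (.nd (nat_lit 8) (.nd (nat_lit 9) 
(.lf (nat_lit 447550) (.g (nat_lit 5242) (.e (nat_lit 375) (nat_lit 32) (.e (nat_lit 426125) (nat_lit 2) (.e (nat_lit 196666) (nat_lit 13) (.e (nat_lit 65614) (nat_lit 10) (.e (nat_lit 344132) (nat_lit 26) (.e (nat_lit 557093) (nat_lit 12) (.e (nat_lit 164022) (nat_lit 46) (.e (nat_lit 704628) (nat_lit 9) .nil)))))))) (.g (nat_lit 1) (.e (nat_lit 2255) (nat_lit 0) .nil) .nil))) 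
(.lf (nat_lit 448062) (.g (nat_lit 2580) (.e (nat_lit 411) (nat_lit 32) (.e (nat_lit 426140) (nat_lit 3) (.e (nat_lit 204869) (nat_lit 29) (.e (nat_lit 360475) (nat_lit 8) (.e (nat_lit 557091) (nat_lit 12) (.e (nat_lit 164022) (nat_lit 46) (.e (nat_lit 704627) (nat_lit 9) .nil))))))) (.g (nat_lit 1) (.e (nat_lit 4644) (nat_lit 0) .nil) .nil)))) (.nd (nat_lit 9) 
(.lf (nat_lit 447806) (.g (nat_lit 4481) (.e (nat_lit 396) (nat_lit 32) (.e (nat_lit 426338) (nat_lit 14) (.e (nat_lit 491540) (nat_lit 3) (.e (nat_lit 98373) (nat_lit 29) (.e (nat_lit 450588) (nat_lit 10) (.e (nat_lit 573451) (nat_lit 9) .nil)))))) (.g (nat_lit 1) (.e (nat_lit 3727) (nat_lit 0) .nil) .nil))) 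
(.lf (nat_lit 448318) (.g (nat_lit 3438) (.e (nat_lit 430) (nat_lit 32) (.e (nat_lit 426012) (nat_lit 0) (.e (nat_lit 7486) (nat_lit 402) (.e (nat_lit 1256) (nat_lit 92) (.e (nat_lit 98373) (nat_lit 29) (.e (nat_lit 450587) (nat_lit 10) (.e (nat_lit 573456) (nat_lit 9) .nil))))))) (.g (nat_lit 1) (.e (nat_lit 5558) (nat_lit 0) .nil) .nil))))) (.nd (nat_lit 8) (.nd (nat_lit 9) 
(.lf (nat_lit 447678) (.g (nat_lit 2670) (.e (nat_lit 391) (nat_lit 32) (.e (nat_lit 426122) (nat_lit 2) (.e (nat_lit 196666) (nat_lit 13) (.e (nat_lit 65617) (nat_lit 10) (.e (nat_lit 344132) (nat_lit 26) (.e (nat_lit 557093) (nat_lit 12) (.e (nat_lit 164022) (nat_lit 46) (.e (nat_lit 704629) (nat_lit 9) .nil)))))))) (.g (nat_lit 1) (.e (nat_lit 3070) (nat_lit 0) .nil) .nil))) 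
(.lf (nat_lit 448190) (.g (nat_lit 4881) (.e (nat_lit 422) (nat_lit 32) (.e (nat_lit 426316) (nat_lit 12) (.e (nat_lit 475185) (nat_lit 29) (.e (nat_lit 557101) (nat_lit 13) (.e (nat_lit 172115) (nat_lit 10) (.e (nat_lit 434244) (nat_lit 28) (.e (nat_lit 573458) (nat_lit 9) .nil))))))) (.g (nat_lit 1) (.e (nat_lit 5031) (nat_lit 0) .nil) .nil)))) (.nd (nat_lit 9) 
(.lf (nat_lit 447934) (.g (nat_lit 1773) (.e (nat_lit 401) (nat_lit 32) (.e (nat_lit 426340) (nat_lit 14) (.e (nat_lit 491549) (nat_lit 9) (.e (nat_lit 336421) (nat_lit 28) (.e (nat_lit 434197) (nat_lit 16) (.e (nat_lit 164338) (nat_lit 232) .nil)))))) (.g (nat_lit 1) (.e (nat_lit 4373) (nat_lit 0) .nil) .nil))) 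
(.lf (nat_lit 448446) (.g (nat_lit 2125) (.e (nat_lit 430) (nat_lit 32) (.e (nat_lit 426342) (nat_lit 14) (.e (nat_lit 491539) (nat_lit 3) (.e (nat_lit 98372) (nat_lit 29) (.e (nat_lit 450586) (nat_lit 10) (.e (nat_lit 573456) (nat_lit 9) .nil)))))) (.g (nat_lit 1) (.e (nat_lit 5941) (nat_lit 0) .nil) .nil)))))) (.nd (nat_lit 7) (.nd (nat_lit 8) (.nd (nat_lit 9) 
(.lf (nat_lit 447614) (.g (nat_lit 1589) (.e (nat_lit 375) (nat_lit 32) (.e (nat_lit 426173) (nat_lit 7) (.e (nat_lit 409649) (nat_lit 18) (.e (nat_lit 303104) (nat_lit 0) .nil)))) (.g (nat_lit 0) (.e (nat_lit 2535) (nat_lit 0) .nil) .nil))) 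
(.lf (nat_lit 448126) (.g (nat_lit 3704) (.e (nat_lit 437) (nat_lit 32) (.e (nat_lit 426316) (nat_lit 12) (.e (nat_lit 475185) (nat_lit 29) (.e (nat_lit 557101) (nat_lit 13) (.e (nat_lit 172115) (nat_lit 10) .nil))))) (.g (nat_lit 0) (.e (nat_lit 4797) (nat_lit 0) .nil) .nil)))) (.nd (nat_lit 9) 
(.lf (nat_lit 447870) (.g (nat_lit 3287) (.e (nat_lit 399) (nat_lit 32) (.e (nat_lit 426121) (nat_lit 2) (.e (nat_lit 196666) (nat_lit 13) (.e (nat_lit 65617) (nat_lit 10) (.e (nat_lit 344133) (nat_lit 26) (.e (nat_lit 557091) (nat_lit 12) (.e (nat_lit 164022) (nat_lit 46) (.e (nat_lit 704626) (nat_lit 9) .nil)))))))) (.g (nat_lit 1) (.e (nat_lit 4193) (nat_lit 0) .nil) .nil))) 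
(.lf (nat_lit 448382) (.g (nat_lit 4533) (.e (nat_lit 430) (nat_lit 32) (.e (nat_lit 426306) (nat_lit 12) (.e (nat_lit 475185) (nat_lit 29) (.e (nat_lit 557100) (nat_lit 13) (.e (nat_lit 172113) (nat_lit 10) (.e (nat_lit 434248) (nat_lit 28) (.e (nat_lit 573452) (nat_lit 9) .nil))))))) (.g (nat_lit 1) (.e (nat_lit 5780) (nat_lit 0) .nil) .nil))))) (.nd (nat_lit 8) (.nd (nat_lit 9) 
(.lf (nat_lit 447742) (.g (nat_lit 2572) (.e (nat_lit 396) (nat_lit 32) (.e (nat_lit 426121) (nat_lit 2) (.e (nat_lit 196666) (nat_lit 13) (.e (nat_lit 65617) (nat_lit 10) (.e (nat_lit 344130) (nat_lit 26) (.e (nat_lit 557065) (nat_lit 9) (.e (nat_lit 2741) (nat_lit 174) (.e (nat_lit 253959) (nat_lit 9) .nil)))))))) (.g (nat_lit 1) (.e (nat_lit 3448) (nat_lit 0) .nil) .nil))) 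
(.lf (nat_lit 448254) (.g (nat_lit 2209) (.e (nat_lit 426) (nat_lit 32) (.e (nat_lit 426342) (nat_lit 14) (.e (nat_lit 491537) (nat_lit 2) (.e (nat_lit 90170) (nat_lit 13) (.e (nat_lit 172113) (nat_lit 10) .nil))))) (.g (nat_lit 0) (.e (nat_lit 5417) (nat_lit 0) .nil) .nil)))) (.nd (nat_lit 9) 
(.lf (nat_lit 447998) (.g (nat_lit 3092) (.e (nat_lit 404) (nat_lit 32) (.e (nat_lit 426340) (nat_lit 14) (.e (nat_lit 491571) (nat_lit 13) (.e (nat_lit 393260) (nat_lit 21) (.e (nat_lit 409623) (nat_lit 10) .nil))))) (.g (nat_lit 0) (.e (nat_lit 4512) (nat_lit 0) .nil) .nil))) 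
(.lf (nat_lit 448510) (.g (nat_lit 4705) (.e (nat_lit 430) (nat_lit 32) (.e (nat_lit 426343) (nat_lit 14) (.e (nat_lit 491540) (nat_lit 3) (.e (nat_lit 98373) (nat_lit 29) (.e (nat_lit 450588) (nat_lit 10) (.e (nat_lit 573457) (nat_lit 9) .nil)))))) (.g (nat_lit 1) (.e (nat_lit 6006) (nat_lit 0) .nil) .nil)))))))))))) 
(.nd (nat_lit 1) (.nd (nat_lit 2) (.nd (nat_lit 3) (.nd (nat_lit 4) (.nd (nat_lit 5) 
(.nd (nat_lit 6) (.nd (nat_lit 7) (.nd (nat_lit 8) (.nd (nat_lit 9) 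
(.lf (nat_lit 447489) (.g (nat_lit 3548) (.e (nat_lit 375) (nat_lit 32) (.e (nat_lit 426125) (nat_lit 2) (.e (nat_lit 196666) (nat_lit 13) (.e (nat_lit 65610) (nat_lit 10) (.e (nat_lit 344128) (nat_lit 26) (.e (nat_lit 557094) (nat_lit 12) (.e (nat_lit 164022) (nat_lit 46) (.e (nat_lit 704626) (nat_lit 9) .nil)))))))) (.g (nat_lit 1) (.e (nat_lit 2148) (nat_lit 0) .nil) .nil))) 
(.lf (nat_lit 448001) (.g (nat_lit 2718) (.e (nat_lit 404) (nat_lit 32) (.e (nat_lit 426340) (nat_lit 14) (.e (nat_lit 491571) (nat_lit 13) (.e (nat_lit 393260) (nat_lit 21) (.e (nat_lit 417536) (nat_lit 10) .nil))))) (.g (nat_lit 0) (.e (nat_lit 4515) (nat_lit 0) .nil) .nil)))) (.nd (nat_lit 9) 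
(.lf (nat_lit 447745) (.g (nat_lit 2511) (.e (nat_lit 396) (nat_lit 32) (.e (nat_lit 426121) (nat_lit 2) (.e (nat_lit 196666) (nat_lit 13) (.e (nat_lit 65617) (nat_lit 10) (.e (nat_lit 344132) (nat_lit 26) (.e (nat_lit 557094) (nat_lit 12) (.e (nat_lit 164022) (nat_lit 46) (.e (nat_lit 704626) (nat_lit 9) .nil)))))))) (.g (nat_lit 1) (.e (nat_lit 3451) (nat_lit 0) .nil) .nil))) 
(.lf (nat_lit 448257) (.g (nat_lit 2805) (.e (nat_lit 426) (nat_lit 32) (.e (nat_lit 426343) (nat_lit 14) (.e (nat_lit 491536) (nat_lit 2) (.e (nat_lit 90170) (nat_lit 13) (.e (nat_lit 172113) (nat_lit 10) (.e (nat_lit 434245) (nat_lit 28) (.e (nat_lit 573458) (nat_lit 9) .nil))))))) (.g (nat_lit 1) (.e (nat_lit 5420) (nat_lit 0) .nil) .nil))))) (.nd (nat_lit 8) (.nd (nat_lit 9) 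
(.lf (nat_lit 447617) (.g (nat_lit 3859) (.e (nat_lit 375) (nat_lit 32) (.e (nat_lit 426201) (nat_lit 9) (.e (nat_lit 426566) (nat_lit 34) (.e (nat_lit 393253) (nat_lit 18) (.e (nat_lit 164329) (nat_lit 230) (.e (nat_lit 163867) (nat_lit 2) (.e (nat_lit 196624) (nat_lit 9) .nil))))))) (.g (nat_lit 1) (.e (nat_lit 2890) (nat_lit 0) .nil) .nil))) 
(.lf (nat_lit 448129) (.g (nat_lit 583) (.e (nat_lit 437) (nat_lit 32) (.e (nat_lit 426341) (nat_lit 14) (.e (nat_lit 491540) (nat_lit 3) .nil))) (.g (nat_lit 0) (.e (nat_lit 4809) (nat_lit 0) .nil) .nil)))) (.nd (nat_lit 9) 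
(.lf (nat_lit 447873) (.g (nat_lit 3239) (.e (nat_lit 399) (nat_lit 32) (.e (nat_lit 426123) (nat_lit 2) (.e (nat_lit 196666) (nat_lit 13) (.e (nat_lit 65617) (nat_lit 10) (.e (nat_lit 344132) (nat_lit 26) (.e (nat_lit 557093) (nat_lit 12) (.e (nat_lit 164022) (nat_lit 46) (.e (nat_lit 704626) (nat_lit 9) .nil)))))))) (.g (nat_lit 1) (.e (nat_lit 4196) (nat_lit 0) .nil) .nil))) 
(.lf (nat_lit 448385) (.g (nat_lit 2695) (.e (nat_lit 430) (nat_lit 32) (.e (nat_lit 426308) (nat_lit 12) (.e (nat_lit 475183) (nat_lit 29) (.e (nat_lit 557097) (nat_lit 13) (.e (nat_lit 172105) (nat_lit 10) (.e (nat_lit 434248) (nat_lit 28) (.e (nat_lit 573452) (nat_lit 9) .nil))))))) (.g (nat_lit 1) (.e (nat_lit 5784) (nat_lit 0) .nil) .nil)))))) 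
(.nd (nat_lit 7) (.nd (nat_lit 8) (.nd (nat_lit 9) 
(.lf (nat_lit 447553) (.g (nat_lit 4636) (.e (nat_lit 375) (nat_lit 32) (.e (nat_lit 426125) (nat_lit 2) (.e (nat_lit 196666) (nat_lit 13) (.e (nat_lit 65614) (nat_lit 10) (.e (nat_lit 344132) (nat_lit 26) (.e (nat_lit 557094) (nat_lit 12) (.e (nat_lit 164022) (nat_lit 46) (.e (nat_lit 704628) (nat_lit 9) .nil)))))))) (.g (nat_lit 1) (.e (nat_lit 2258) (nat_lit 0) .nil) .nil))) 
(.lf (nat_lit 448065) (.g (nat_lit 4094) (.e (nat_lit 411) (nat_lit 32) (.e (nat_lit 426195) (nat_lit 9) (.e (nat_lit 426566) (nat_lit 34) (.e (nat_lit 393253) (nat_lit 18) (.e (nat_lit 164326) (nat_lit 230) .nil))))) (.g (nat_lit 0) (.e (nat_lit 4648) (nat_lit 0) .nil) .nil)))) (.nd (nat_lit 9) 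
(.lf (nat_lit 447809) (.g (nat_lit 2679) (.e (nat_lit 396) (nat_lit 32) (.e (nat_lit 426341) (nat_lit 14) (.e (nat_lit 491537) (nat_lit 2) (.e (nat_lit 90170) (nat_lit 13) (.e (nat_lit 172113) (nat_lit 10) (.e (nat_lit 434248) (nat_lit 28) (.e (nat_lit 573452) (nat_lit 9) .nil))))))) (.g (nat_lit 1) (.e (nat_lit 3730) (nat_lit 0) .nil) .nil))) 
(.lf (nat_lit 448321) (.g (nat_lit 3206) (.e (nat_lit 430) (nat_lit 32) (.e (nat_lit 426012) (nat_lit 0) (.e (nat_lit 7490) (nat_lit 402) (.e (nat_lit 1256) (nat_lit 92) (.e (nat_lit 98373) (nat_lit 29) (.e (nat_lit 450587) (nat_lit 10) (.e (nat_lit 573457) (nat_lit 9) .nil))))))) (.g (nat_lit 1) (.e (nat_lit 5561) (nat_lit 0) .nil) .nil))))) (.nd (nat_lit 8) (.nd (nat_lit 9) 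
(.lf (nat_lit 447681) (.g (nat_lit 4256) (.e (nat_lit 391) (nat_lit 32) (.e (nat_lit 426123) (nat_lit 2) (.e (nat_lit 196666) (nat_lit 13) (.e (nat_lit 65617) (nat_lit 10) (.e (nat_lit 344130) (nat_lit 26) (.e (nat_lit 557090) (nat_lit 12) (.e (nat_lit 164022) (nat_lit 46) (.e (nat_lit 704629) (nat_lit 9) .nil)))))))) (.g (nat_lit 1) (.e (nat_lit 3073) (nat_lit 0) .nil) .nil))) 
(.lf (nat_lit 448193) (.g (nat_lit 2094) (.e (nat_lit 423) (nat_lit 32) (.e (nat_lit 426190) (nat_lit 9) (.e (nat_lit 426566) (nat_lit 34) (.e (nat_lit 393253) (nat_lit 18) (.e (nat_lit 164329) (nat_lit 230) .nil))))) (.g (nat_lit 0) (.e (nat_lit 5051) (nat_lit 0) .nil) .nil)))) (.nd (nat_lit 9) 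
(.lf (nat_lit 447937) (.g (nat_lit 1688) (.e (nat_lit 401) (nat_lit 32) (.e (nat_lit 426340) (nat_lit 14) (.e (nat_lit 491550) (nat_lit 9) (.e (nat_lit 336369) (nat_lit 27) (.e (nat_lit 426173) (nat_lit 7) .nil))))) (.g (nat_lit 0) (.e (nat_lit 4379) (nat_lit 0) .nil) .nil))) 
(.lf (nat_lit 448449) (.g (nat_lit 2435) (.e (nat_lit 430) (nat_lit 32) (.e (nat_lit 426342) (nat_lit 14) (.e (nat_lit 491540) (nat_lit 3) (.e (nat_lit 98372) (nat_lit 29) (.e (nat_lit 450586) (nat_lit 10) (.e (nat_lit 573452) (nat_lit 9) .nil)))))) (.g (nat_lit 1) (.e (nat_lit 5944) (nat_lit 0) .nil) .nil))))))) (.nd (nat_lit 6) (.nd (nat_lit 7) (.nd (nat_lit 8) (.nd (nat_lit 9) 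
(.lf (nat_lit 447521) (.g (nat_lit 4287) (.e (nat_lit 375) (nat_lit 32) (.e (nat_lit 426125) (nat_lit 2) (.e (nat_lit 196666) (nat_lit 13) (.e (nat_lit 65610) (nat_lit 10) (.e (nat_lit 344131) (nat_lit 26) (.e (nat_lit 557091) (nat_lit 12) (.e (nat_lit 164022) (nat_lit 46) (.e (nat_lit 704627) (nat_lit 9) .nil)))))))) (.g (nat_lit 1) (.e (nat_lit 2219) (nat_lit 0) .nil) .nil))) 
(.lf (nat_lit 448033) (.g (nat_lit 4411) (.e (nat_lit 411) (nat_lit 32) (.e (nat_lit 426125) (nat_lit 2) (.e (nat_lit 196666) (nat_lit 13) (.e (nat_lit 65617) (nat_lit 10) (.e (nat_lit 344130) (nat_lit 26) (.e (nat_lit 557090) (nat_lit 12) (.e (nat_lit 164022) (nat_lit 46) (.e (nat_lit 704628) (nat_lit 9) .nil)))))))) (.g (nat_lit 1) (.e (nat_lit 4605) (nat_lit 0) .nil) .nil)))) (.nd (nat_lit 9) 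
(.lf (nat_lit 447777) (.g (nat_lit 1964) (.e (nat_lit 396) (nat_lit 32) (.e (nat_lit 426190) (nat_lit 9) (.e (nat_lit 426566) (nat_lit 34) (.e (nat_lit 393253) (nat_lit 18) (.e (nat_lit 164327) (nat_lit 230) (.e (nat_lit 163868) (nat_lit 2) (.e (nat_lit 196627) (nat_lit 9) .nil))))))) (.g (nat_lit 1) (.e (nat_lit 3523) (nat_lit 0) .nil) .nil))) 
(.lf (nat_lit 448289) (.g (nat_lit 2234) (.e (nat_lit 430) (nat_lit 32) (.e (nat_lit 426011) (nat_lit 0) (.e (nat_lit 3544) (nat_lit 219) (.e (nat_lit 712753) (nat_lit 30) (.e (nat_lit 450586) (nat_lit 10) (.e (nat_lit 573473) (nat_lit 12) (.e (nat_lit 57508) (nat_lit 39) (.e (nat_lit 647190) (nat_lit 9) .nil)))))))) (.g (nat_lit 1) (.e (nat_lit 5525) (nat_lit 0) .nil) .nil))))) 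
(.nd (nat_lit 8) (.nd (nat_lit 9) 
(.lf (nat_lit 447649) (.g (nat_lit 5093) (.e (nat_lit 386) (nat_lit 32) (.e (nat_lit 426129) (nat_lit 3) (.e (nat_lit 204869) (nat_lit 29) (.e (nat_lit 360474) (nat_lit 8) (.e (nat_lit 557093) (nat_lit 12) (.e (nat_lit 164022) (nat_lit 46) (.e (nat_lit 704629) (nat_lit 9) .nil))))))) (.g (nat_lit 1) (.e (nat_lit 2982) (nat_lit 0) .nil) .nil))) 
(.lf (nat_lit 448161) (.g (nat_lit 5230) (.e (nat_lit 416) (nat_lit 32) (.e (nat_lit 426123) (nat_lit 2) (.e (nat_lit 196666) (nat_lit 13) (.e (nat_lit 65617) (nat_lit 10) (.e (nat_lit 344133) (nat_lit 26) (.e (nat_lit 557091) (nat_lit 12) (.e (nat_lit 164022) (nat_lit 46) (.e (nat_lit 704628) (nat_lit 9) .nil)))))))) (.g (nat_lit 1) (.e (nat_lit 4917) (nat_lit 0) .nil) .nil)))) (.nd (nat_lit 9) 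
(.lf (nat_lit 447905) (.g (nat_lit 622) (.e (nat_lit 397) (nat_lit 32) (.e (nat_lit 426344) (nat_lit 14) (.e (nat_lit 491526) (nat_lit 0) .nil))) (.g (nat_lit 0) (.e (nat_lit 4287) (nat_lit 0) .nil) .nil))) 
(.lf (nat_lit 448417) (.g (nat_lit 2748) (.e (nat_lit 430) (nat_lit 32) (.e (nat_lit 426315) (nat_lit 12) (.e (nat_lit 475184) (nat_lit 29) (.e (nat_lit 557100) (nat_lit 13) (.e (nat_lit 172113) (nat_lit 10) (.e (nat_lit 434247) (nat_lit 28) (.e (nat_lit 573457) (nat_lit 9) .nil))))))) (.g (nat_lit 1) (.e (nat_lit 5816) (nat_lit 0) .nil) .nil)))))) 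
(.nd (nat_lit 7) (.nd (nat_lit 8) (.nd (nat_lit 9) 
(.lf (nat_lit 447585) (.g (nat_lit 1439) (.e (nat_lit 375) (nat_lit 32) (.e (nat_lit 426140) (nat_lit 3) (.e (nat_lit 204868) (nat_lit 29) (.e (nat_lit 360474) (nat_lit 8) .nil)))) (.g (nat_lit 0) (.e (nat_lit 2300) (nat_lit 0) .nil) .nil))) 
(.lf (nat_lit 448097) (.g (nat_lit 2981) (.e (nat_lit 436) (nat_lit 32) (.e (nat_lit 426123) (nat_lit 2) (.e (nat_lit 196666) (nat_lit 13) (.e (nat_lit 65617) (nat_lit 10) (.e (nat_lit 344132) (nat_lit 26) (.e (nat_lit 557093) (nat_lit 12) (.e (nat_lit 164023) (nat_lit 46) (.e (nat_lit 704628) (nat_lit 9) .nil)))))))) (.g (nat_lit 1) (.e (nat_lit 4715) (nat_lit 0) .nil) .nil)))) (.nd (nat_lit 9) 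
(.lf (nat_lit 447841) (.g (nat_lit 2672) (.e (nat_lit 394) (nat_lit 32) (.e (nat_lit 426341) (nat_lit 14) (.e (nat_lit 491570) (nat_lit 13) (.e (nat_lit 393260) (nat_lit 21) (.e (nat_lit 409616) (nat_lit 10) (.e (nat_lit 7936) (nat_lit 298) .nil)))))) (.g (nat_lit 1) (.e (nat_lit 4041) (nat_lit 0) .nil) .nil))) 
(.lf (nat_lit 448353) (.g (nat_lit 3913) (.e (nat_lit 430) (nat_lit 32) (.e (nat_lit 426190) (nat_lit 9) (.e (nat_lit 426566) (nat_lit 34) (.e (nat_lit 393253) (nat_lit 18) (.e (nat_lit 164329) (nat_lit 230) (.e (nat_lit 163867) (nat_lit 2) (.e (nat_lit 196630) (nat_lit 9) .nil))))))) (.g (nat_lit 1) (.e (nat_lit 5705) (nat_lit 0) .nil) .nil))))) (.nd (nat_lit 8) (.nd (nat_lit 9) 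
(.lf (nat_lit 447713) (.g (nat_lit 4333) (.e (nat_lit 392) (nat_lit 32) (.e (nat_lit 426316) (nat_lit 12) (.e (nat_lit 475185) (nat_lit 29) (.e (nat_lit 557107) (nat_lit 15) (.e (nat_lit 188440) (nat_lit 20) (.e (nat_lit 3307) (nat_lit 202) (.e (nat_lit 573455) (nat_lit 9) .nil))))))) (.g (nat_lit 1) (.e (nat_lit 3335) (nat_lit 0) .nil) .nil))) 
(.lf (nat_lit 448225) (.g (nat_lit 2184) (.e (nat_lit 426) (nat_lit 32) (.e (nat_lit 426313) (nat_lit 12) (.e (nat_lit 475184) (nat_lit 29) (.e (nat_lit 557100) (nat_lit 13) (.e (nat_lit 172113) (nat_lit 10) .nil))))) (.g (nat_lit 0) (.e (nat_lit 5272) (nat_lit 0) .nil) .nil)))) (.nd (nat_lit 9) 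
(.lf (nat_lit 447969) (.g (nat_lit 1704) (.e (nat_lit 403) (nat_lit 32) (.e (nat_lit 426340) (nat_lit 14) (.e (nat_lit 491550) (nat_lit 9) (.e (nat_lit 336421) (nat_lit 28) (.e (nat_lit 434197) (nat_lit 16) (.e (nat_lit 164340) (nat_lit 232) .nil)))))) (.g (nat_lit 1) (.e (nat_lit 4447) (nat_lit 0) .nil) .nil))) 
(.lf (nat_lit 448481) (.g (nat_lit 4618) (.e (nat_lit 430) (nat_lit 32) (.e (nat_lit 426343) (nat_lit 14) (.e (nat_lit 491537) (nat_lit 2) (.e (nat_lit 90170) (nat_lit 13) (.e (nat_lit 172113) (nat_lit 10) (.e (nat_lit 434245) (nat_lit 28) (.e (nat_lit 573451) (nat_lit 9) .nil))))))) (.g (nat_lit 1) (.e (nat_lit 5977) (nat_lit 0) .nil) .nil)))))))) 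
(.nd (nat_lit 5) (.nd (nat_lit 6) (.nd (nat_lit 7) (.nd (nat_lit 8) (.nd (nat_lit 9) 
(.lf (nat_lit 447505) (.g (nat_lit 5739) (.e (nat_lit 375) (nat_lit 32) (.e (nat_lit 426125) (nat_lit 2) (.e (nat_lit 196666) (nat_lit 13) (.e (nat_lit 65610) (nat_lit 10) (.e (nat_lit 344129) (nat_lit 26) (.e (nat_lit 557092) (nat_lit 12) (.e (nat_lit 164022) (nat_lit 46) (.e (nat_lit 704628) (nat_lit 9) .nil)))))))) (.g (nat_lit 1) (.e (nat_lit 2201) (nat_lit 0) .nil) .nil))) 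
(.lf (nat_lit 448017) (.g (nat_lit 3759) (.e (nat_lit 415) (nat_lit 32) (.e (nat_lit 426316) (nat_lit 12) (.e (nat_lit 475185) (nat_lit 29) (.e (nat_lit 557101) (nat_lit 13) (.e (nat_lit 172115) (nat_lit 10) .nil))))) (.g (nat_lit 0) (.e (nat_lit 4570) (nat_lit 0) .nil) .nil)))) (.nd (nat_lit 9) 
(.lf (nat_lit 447761) (.g (nat_lit 3438) (.e (nat_lit 396) (nat_lit 32) (.e (nat_lit 426123) (nat_lit 2) (.e (nat_lit 196666) (nat_lit 13) (.e (nat_lit 65617) (nat_lit 10) (.e (nat_lit 344133) (nat_lit 26) .nil))))) (.g (nat_lit 0) (.e (nat_lit 3467) (nat_lit 0) .nil) .nil))) 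
(.lf (nat_lit 448273) (.g (nat_lit 1828) (.e (nat_lit 425) (nat_lit 32) (.e (nat_lit 426190) (nat_lit 9) (.e (nat_lit 426566) (nat_lit 34) (.e (nat_lit 393253) (nat_lit 18) (.e (nat_lit 164332) (nat_lit 230) .nil))))) (.g (nat_lit 0) (.e (nat_lit 5499) (nat_lit 0) .nil) .nil))))) (.nd (nat_lit 8) (.nd (nat_lit 9) 
(.lf (nat_lit 447633) (.g (nat_lit 3726) (.e (nat_lit 375) (nat_lit 32) (.e (nat_lit 426346) (nat_lit 14) (.e (nat_lit 491537) (nat_lit 2) (.e (nat_lit 90170) (nat_lit 13) (.e (nat_lit 172113) (nat_lit 10) (.e (nat_lit 434245) (nat_lit 28) (.e (nat_lit 573450) (nat_lit 9) .nil))))))) (.g (nat_lit 1) (.e (nat_lit 2938) (nat_lit 0) .nil) .nil))) 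
(.lf (nat_lit 448145) (.g (nat_lit 4631) (.e (nat_lit 440) (nat_lit 32) (.e (nat_lit 426139) (nat_lit 3) (.e (nat_lit 204869) (nat_lit 29) (.e (nat_lit 360474) (nat_lit 8) (.e (nat_lit 557093) (nat_lit 12) (.e (nat_lit 164022) (nat_lit 46) (.e (nat_lit 704628) (nat_lit 9) .nil))))))) (.g (nat_lit 1) (.e (nat_lit 4887) (nat_lit 0) .nil) .nil)))) (.nd (nat_lit 9) 
(.lf (nat_lit 447889) (.g (nat_lit 836) (.e (nat_lit 397) (nat_lit 32) (.e (nat_lit 426190) (nat_lit 9) (.e (nat_lit 426566) (nat_lit 34) (.e (nat_lit 393253) (nat_lit 18) .nil)))) (.g (nat_lit 0) (.e (nat_lit 4253) (nat_lit 0) .nil) .nil))) 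
(.lf (nat_lit 448401) (.g (nat_lit 4309) (.e (nat_lit 430) (nat_lit 32) (.e (nat_lit 426308) (nat_lit 12) (.e (nat_lit 475184) (nat_lit 29) (.e (nat_lit 557100) (nat_lit 13) (.e (nat_lit 172113) (nat_lit 10) (.e (nat_lit 434247) (nat_lit 28) (.e (nat_lit 573456) (nat_lit 9) .nil))))))) (.g (nat_lit 1) (.e (nat_lit 5800) (nat_lit 0) .nil) .nil)))))) 
(.nd (nat_lit 7) (.nd (nat_lit 8) (.nd (nat_lit 9) 
(.lf (nat_lit 447569) (.g (nat_lit 2896) (.e (nat_lit 375) (nat_lit 32) (.e (nat_lit 426135) (nat_lit 3) (.e (nat_lit 204868) (nat_lit 29) (.e (nat_lit 360473) (nat_lit 8) (.e (nat_lit 557091) (nat_lit 12) (.e (nat_lit 164022) (nat_lit 46) (.e (nat_lit 704628) (nat_lit 9) .nil))))))) (.g (nat_lit 1) (.e (nat_lit 2281) (nat_lit 0) .nil) .nil))) 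
(.lf (nat_lit 448081) (.g (nat_lit 2908) (.e (nat_lit 413) (nat_lit 32) (.e (nat_lit 426316) (nat_lit 12) (.e (nat_lit 475185) (nat_lit 29) (.e (nat_lit 557098) (nat_lit 13) .nil)))) (.g (nat_lit 0) (.e (nat_lit 4692) (nat_lit 0) .nil) .nil)))) (.nd (nat_lit 9) 
(.lf (nat_lit 447825) (.g (nat_lit 4685) (.e (nat_lit 396) (nat_lit 32) (.e (nat_lit 426343) (nat_lit 14) (.e (nat_lit 491540) (nat_lit 3) (.e (nat_lit 98373) (nat_lit 29) (.e (nat_lit 450588) (nat_lit 10) (.e (nat_lit 573451) (nat_lit 9) .nil)))))) (.g (nat_lit 1) (.e (nat_lit 3746) (nat_lit 0) .nil) .nil))) 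
(.lf (nat_lit 448337) (.g (nat_lit 2934) (.e (nat_lit 430) (nat_lit 32) (.e (nat_lit 426139) (nat_lit 3) (.e (nat_lit 204869) (nat_lit 29) (.e (nat_lit 360474) (nat_lit 8) (.e (nat_lit 557093) (nat_lit 12) .nil))))) (.g (nat_lit 0) (.e (nat_lit 5676) (nat_lit 0) .nil) .nil))))) (.nd (nat_lit 8) (.nd (nat_lit 9) 
(.lf (nat_lit 447697) (.g (nat_lit 1896) (.e (nat_lit 392) (nat_lit 32) (.e (nat_lit 426188) (nat_lit 9) (.e (nat_lit 426566) (nat_lit 34) (.e (nat_lit 393254) (nat_lit 18) (.e (nat_lit 164326) (nat_lit 230) (.e (nat_lit 163870) (nat_lit 2) (.e (nat_lit 196630) (nat_lit 9) .nil))))))) (.g (nat_lit 1) (.e (nat_lit 3310) (nat_lit 0) .nil) .nil))) 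
(.lf (nat_lit 448209) (.g (nat_lit 3627) (.e (nat_lit 426) (nat_lit 32) (.e (nat_lit 426305) (nat_lit 12) (.e (nat_lit 475185) (nat_lit 29) (.e (nat_lit 557100) (nat_lit 13) (.e (nat_lit 172106) (nat_lit 10) (.e (nat_lit 434244) (nat_lit 28) (.e (nat_lit 573458) (nat_lit 9) .nil))))))) (.g (nat_lit 1) (.e (nat_lit 5256) (nat_lit 0) .nil) .nil)))) (.nd (nat_lit 9) 
(.lf (nat_lit 447953) (.g (nat_lit 3836) (.e (nat_lit 401) (nat_lit 32) (.e (nat_lit 426340) (nat_lit 14) (.e (nat_lit 491571) (nat_lit 13) (.e (nat_lit 393260) (nat_lit 21) (.e (nat_lit 409621) (nat_lit 10) (.e (nat_lit 5364) (nat_lit 298) .nil)))))) (.g (nat_lit 1) (.e (nat_lit 4406) (nat_lit 0) .nil) .nil))) 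
(.lf (nat_lit 448465) (.g (nat_lit 4250) (.e (nat_lit 430) (nat_lit 32) (.e (nat_lit 426343) (nat_lit 14) (.e (nat_lit 491526) (nat_lit 0) (.e (nat_lit 1788) (nat_lit 119) (.e (nat_lit 516166) (nat_lit 12) (.e (nat_lit 450587) (nat_lit 10) (.e (nat_lit 573456) (nat_lit 9) .nil))))))) (.g (nat_lit 1) (.e (nat_lit 5961) (nat_lit 0) .nil) .nil))))))) 
(.nd (nat_lit 6) (.nd (nat_lit 7) (.nd (nat_lit 8) (.nd (nat_lit 9) 
(.lf (nat_lit 447537) (.g (nat_lit 4708) (.e (nat_lit 375) (nat_lit 32) (.e (nat_lit 426125) (nat_lit 2) (.e (nat_lit 196666) (nat_lit 13) (.e (nat_lit 65610) (nat_lit 10) (.e (nat_lit 344132) (nat_lit 26) (.e (nat_lit 557093) (nat_lit 12) (.e (nat_lit 164022) (nat_lit 46) (.e (nat_lit 704627) (nat_lit 9) .nil)))))))) (.g (nat_lit 1) (.e (nat_lit 2235) (nat_lit 0) .nil) .nil))) 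
(.lf (nat_lit 448049) (.g (nat_lit 2966) (.e (nat_lit 411) (nat_lit 32) (.e (nat_lit 426140) (nat_lit 3) (.e (nat_lit 204868) (nat_lit 29) (.e (nat_lit 360473) (nat_lit 8) (.e (nat_lit 557093) (nat_lit 12) (.e (nat_lit 164023) (nat_lit 46) (.e (nat_lit 704629) (nat_lit 9) .nil))))))) (.g (nat_lit 1) (.e (nat_lit 4630) (nat_lit 0) .nil) .nil)))) (.nd (nat_lit 9) 
(.lf (nat_lit 447793) (.g (nat_lit 3906) (.e (nat_lit 396) (nat_lit 32) (.e (nat_lit 426316) (nat_lit 12) (.e (nat_lit 475185) (nat_lit 29) (.e (nat_lit 557098) (nat_lit 13) (.e (nat_lit 172105) (nat_lit 10) .nil))))) (.g (nat_lit 0) (.e (nat_lit 3556) (nat_lit 0) .nil) .nil))) 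
(.lf (nat_lit 448305) (.g (nat_lit 2223) (.e (nat_lit 430) (nat_lit 32) (.e (nat_lit 426011) (nat_lit 0) (.e (nat_lit 7523) (nat_lit 402) (.e (nat_lit 1235) (nat_lit 91) (.e (nat_lit 90170) (nat_lit 13) (.e (nat_lit 172113) (nat_lit 10) (.e (nat_lit 434247) (nat_lit 28) (.e (nat_lit 573457) (nat_lit 9) .nil)))))))) (.g (nat_lit 1) (.e (nat_lit 5545) (nat_lit 0) .nil) .nil))))) 
(.nd (nat_lit 8) (.nd (nat_lit 9) 
(.lf (nat_lit 447665) (.g (nat_lit 3656) (.e (nat_lit 389) (nat_lit 32) (.e (nat_lit 426121) (nat_lit 2) (.e (nat_lit 196666) (nat_lit 13) (.e (nat_lit 65617) (nat_lit 10) (.e (nat_lit 344132) (nat_lit 26) (.e (nat_lit 557093) (nat_lit 12) (.e (nat_lit 164022) (nat_lit 46) (.e (nat_lit 704629) (nat_lit 9) .nil)))))))) (.g (nat_lit 1) (.e (nat_lit 3037) (nat_lit 0) .nil) .nil))) 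
(.lf (nat_lit 448177) (.g (nat_lit 3560) (.e (nat_lit 418) (nat_lit 32) (.e (nat_lit 426347) (nat_lit 14) (.e (nat_lit 491549) (nat_lit 9) (.e (nat_lit 336369) (nat_lit 27) (.e (nat_lit 426173) (nat_lit 7) (.e (nat_lit 409617) (nat_lit 10) (.e (nat_lit 5353) (nat_lit 298) .nil))))))) (.g (nat_lit 1) (.e (nat_lit 4984) (nat_lit 0) .nil) .nil)))) (.nd (nat_lit 9) 
(.lf (nat_lit 447921) (.g (nat_lit 3607) (.e (nat_lit 398) (nat_lit 32) (.e (nat_lit 426316) (nat_lit 12) (.e (nat_lit 475185) (nat_lit 29) (.e (nat_lit 557101) (nat_lit 13) (.e (nat_lit 172115) (nat_lit 10) .nil))))) (.g (nat_lit 0) (.e (nat_lit 4308) (nat_lit 0) .nil) .nil))) 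
(.lf (nat_lit 448433) (.g (nat_lit 2416) (.e (nat_lit 430) (nat_lit 32) (.e (nat_lit 426341) (nat_lit 14) (.e (nat_lit 491535) (nat_lit 2) (.e (nat_lit 90170) (nat_lit 13) (.e (nat_lit 172113) (nat_lit 10) (.e (nat_lit 434247) (nat_lit 28) (.e (nat_lit 573457) (nat_lit 9) .nil))))))) (.g (nat_lit 1) (.e (nat_lit 5928) (nat_lit 0) .nil) .nil)))))) (.nd (nat_lit 7) (.nd (nat_lit 8) (.nd (nat_lit 9) 
(.lf (nat_lit 447601) (.g (nat_lit 932) (.e (nat_lit 375) (nat_lit 32) (.e (nat_lit 426173) (nat_lit 7) (.e (nat_lit 409615) (nat_lit 10) (.e (nat_lit 7936) (nat_lit 43) .nil)))) (.g (nat_lit 0) (.e (nat_lit 2316) (nat_lit 0) .nil) .nil))) 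
(.lf (nat_lit 448113) (.g (nat_lit 3377) (.e (nat_lit 436) (nat_lit 32) (.e (nat_lit 426139) (nat_lit 3) (.e (nat_lit 204869) (nat_lit 29) (.e (nat_lit 360474) (nat_lit 8) (.e (nat_lit 557094) (nat_lit 12) (.e (nat_lit 164022) (nat_lit 46) (.e (nat_lit 704627) (nat_lit 9) .nil))))))) (.g (nat_lit 1) (.e (nat_lit 4748) (nat_lit 0) .nil) .nil)))) (.nd (nat_lit 9) 
(.lf (nat_lit 447857) (.g (nat_lit 3847) (.e (nat_lit 395) (nat_lit 32) (.e (nat_lit 426316) (nat_lit 12) (.e (nat_lit 475185) (nat_lit 29) (.e (nat_lit 557098) (nat_lit 13) (.e (nat_lit 172115) (nat_lit 10) (.e (nat_lit 434244) (nat_lit 28) (.e (nat_lit 573449) (nat_lit 9) .nil))))))) (.g (nat_lit 1) (.e (nat_lit 4142) (nat_lit 0) .nil) .nil))) 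
(.lf (nat_lit 448369) (.g (nat_lit 3532) (.e (nat_lit 430) (nat_lit 32) (.e (nat_lit 426298) (nat_lit 11) (.e (nat_lit 458789) (nat_lit 23) (.e (nat_lit 532482) (nat_lit 0) (.e (nat_lit 6724) (nat_lit 362) (.e (nat_lit 180251) (nat_lit 10) (.e (nat_lit 573456) (nat_lit 9) .nil))))))) (.g (nat_lit 1) (.e (nat_lit 5767) (nat_lit 0) .nil) .nil))))) (.nd (nat_lit 8) (.nd (nat_lit 9) 
(.lf (nat_lit 447729) (.g (nat_lit 1341) (.e (nat_lit 393) (nat_lit 32) (.e (nat_lit 426188) (nat_lit 9) (.e (nat_lit 426566) (nat_lit 34) (.e (nat_lit 393254) (nat_lit 18) (.e (nat_lit 164326) (nat_lit 230) .nil))))) (.g (nat_lit 0) (.e (nat_lit 3423) (nat_lit 0) .nil) .nil))) 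
(.lf (nat_lit 448241) (.g (nat_lit 5829) (.e (nat_lit 426) (nat_lit 32) (.e (nat_lit 426316) (nat_lit 12) (.e (nat_lit 475185) (nat_lit 29) (.e (nat_lit 557098) (nat_lit 13) (.e (nat_lit 172115) (nat_lit 10) (.e (nat_lit 434244) (nat_lit 28) (.e (nat_lit 573458) (nat_lit 9) .nil))))))) (.g (nat_lit 1) (.e (nat_lit 5291) (nat_lit 0) .nil) .nil)))) (.nd (nat_lit 9) 
(.lf (nat_lit 447985) (.g (nat_lit 3572) (.e (nat_lit 403) (nat_lit 32) (.e (nat_lit 426340) (nat_lit 14) (.e (nat_lit 491571) (nat_lit 13) (.e (nat_lit 393260) (nat_lit 21) (.e (nat_lit 409618) (nat_lit 10) (.e (nat_lit 5364) (nat_lit 298) .nil)))))) (.g (nat_lit 1) (.e (nat_lit 4464) (nat_lit 0) .nil) .nil))) 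
(.lf (nat_lit 448497) (.g (nat_lit 3826) (.e (nat_lit 430) (nat_lit 32) (.e (nat_lit 426343) (nat_lit 14) (.e (nat_lit 491539) (nat_lit 3) (.e (nat_lit 98373) (nat_lit 29) (.e (nat_lit 450587) (nat_lit 10) (.e (nat_lit 573457) (nat_lit 9) .nil)))))) (.g (nat_lit 1) (.e (nat_lit 5993) (nat_lit 0) .nil) .nil))))))))) 
(.nd (nat_lit 4) (.nd (nat_lit 5) (.nd (nat_lit 6) (.nd (nat_lit 7) (.nd (nat_lit 8) 
(.nd (nat_lit 9) 
(.lf (nat_lit 447497) (.g (nat_lit 4473) (.e (nat_lit 375) (nat_lit 32) (.e (nat_lit 426125) (nat_lit 2) (.e (nat_lit 196666) (nat_lit 13) (.e (nat_lit 65610) (nat_lit 10) (.e (nat_lit 344129) (nat_lit 26) (.e (nat_lit 557089) (nat_lit 12) (.e (nat_lit 164023) (nat_lit 46) (.e (nat_lit 704627) (nat_lit 9) .nil)))))))) (.g (nat_lit 1) (.e (nat_lit 2192) (nat_lit 0) .nil) .nil))) 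
(.lf (nat_lit 448009) (.g (nat_lit 4592) (.e (nat_lit 414) (nat_lit 32) (.e (nat_lit 426125) (nat_lit 2) (.e (nat_lit 196666) (nat_lit 13) (.e (nat_lit 65617) (nat_lit 10) (.e (nat_lit 344133) (nat_lit 26) (.e (nat_lit 557091) (nat_lit 12) (.e (nat_lit 164022) (nat_lit 46) (.e (nat_lit 704628) (nat_lit 9) .nil)))))))) (.g (nat_lit 1) (.e (nat_lit 4552) (nat_lit 0) .nil) .nil)))) (.nd (nat_lit 9) 
(.lf (nat_lit 447753) (.g (nat_lit 2553) (.e (nat_lit 396) (nat_lit 32) (.e (nat_lit 426123) (nat_lit 2) (.e (nat_lit 196666) (nat_lit 13) (.e (nat_lit 65617) (nat_lit 10) .nil)))) (.g (nat_lit 0) (.e (nat_lit 3459) (nat_lit 0) .nil) .nil))) 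
(.lf (nat_lit 448265) (.g (nat_lit 4166) (.e (nat_lit 427) (nat_lit 32) (.e (nat_lit 426338) (nat_lit 14) (.e (nat_lit 491571) (nat_lit 13) (.e (nat_lit 393260) (nat_lit 21) (.e (nat_lit 409616) (nat_lit 10) .nil))))) (.g (nat_lit 0) (.e (nat_lit 5443) (nat_lit 0) .nil) .nil))))) (.nd (nat_lit 8) (.nd (nat_lit 9) 
(.lf (nat_lit 447625) (.g (nat_lit 2982) (.e (nat_lit 375) (nat_lit 32) (.e (nat_lit 426317) (nat_lit 12) (.e (nat_lit 475185) (nat_lit 29) (.e (nat_lit 557098) (nat_lit 13) (.e (nat_lit 172115) (nat_lit 10) (.e (nat_lit 434244) (nat_lit 28) (.e (nat_lit 573450) (nat_lit 9) .nil))))))) (.g (nat_lit 1) (.e (nat_lit 2904) (nat_lit 0) .nil) .nil))) 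
(.lf (nat_lit 448137) (.g (nat_lit 2360) (.e (nat_lit 440) (nat_lit 32) (.e (nat_lit 426121) (nat_lit 2) (.e (nat_lit 196666) (nat_lit 13) (.e (nat_lit 65617) (nat_lit 10) (.e (nat_lit 344132) (nat_lit 26) .nil))))) (.g (nat_lit 0) (.e (nat_lit 4858) (nat_lit 0) .nil) .nil)))) (.nd (nat_lit 9) 
(.lf (nat_lit 447881) (.g (nat_lit 2960) (.e (nat_lit 399) (nat_lit 32) (.e (nat_lit 426316) (nat_lit 12) (.e (nat_lit 475185) (nat_lit 29) (.e (nat_lit 557098) (nat_lit 13) .nil)))) (.g (nat_lit 0) (.e (nat_lit 4212) (nat_lit 0) .nil) .nil))) 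
(.lf (nat_lit 448393) (.g (nat_lit 4379) (.e (nat_lit 430) (nat_lit 32) (.e (nat_lit 426308) (nat_lit 12) (.e (nat_lit 475183) (nat_lit 29) (.e (nat_lit 557101) (nat_lit 13) (.e (nat_lit 172115) (nat_lit 10) (.e (nat_lit 434244) (nat_lit 28) (.e (nat_lit 573449) (nat_lit 9) .nil))))))) (.g (nat_lit 1) (.e (nat_lit 5792) (nat_lit 0) .nil) .nil)))))) 
(.nd (nat_lit 7) (.nd (nat_lit 8) (.nd (nat_lit 9) 
(.lf (nat_lit 447561) (.g (nat_lit 3902) (.e (nat_lit 375) (nat_lit 32) (.e (nat_lit 426125) (nat_lit 2) (.e (nat_lit 196666) (nat_lit 13) (.e (nat_lit 65617) (nat_lit 10) (.e (nat_lit 344132) (nat_lit 26) (.e (nat_lit 557093) (nat_lit 12) (.e (nat_lit 164023) (nat_lit 46) (.e (nat_lit 704627) (nat_lit 9) .nil)))))))) (.g (nat_lit 1) (.e (nat_lit 2268) (nat_lit 0) .nil) .nil))) 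
(.lf (nat_lit 448073) (.g (nat_lit 4588) (.e (nat_lit 411) (nat_lit 32) (.e (nat_lit 426340) (nat_lit 14) (.e (nat_lit 491540) (nat_lit 3) (.e (nat_lit 98373) (nat_lit 29) (.e (nat_lit 450587) (nat_lit 10) (.e (nat_lit 573449) (nat_lit 9) .nil)))))) (.g (nat_lit 1) (.e (nat_lit 4679) (nat_lit 0) .nil) .nil)))) (.nd (nat_lit 9) 
(.lf (nat_lit 447817) (.g (nat_lit 2959) (.e (nat_lit 396) (nat_lit 32) (.e (nat_lit 426343) (nat_lit 14) (.e (nat_lit 491537) (nat_lit 2) (.e (nat_lit 90170) (nat_lit 13) (.e (nat_lit 172113) (nat_lit 10) .nil))))) (.g (nat_lit 0) (.e (nat_lit 3738) (nat_lit 0) .nil) .nil))) 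
(.lf (nat_lit 448329) (.g (nat_lit 1061) (.e (nat_lit 430) (nat_lit 32) (.e (nat_lit 426133) (nat_lit 3) (.e (nat_lit 204869) (nat_lit 29) .nil))) (.g (nat_lit 0) (.e (nat_lit 5649) (nat_lit 0) .nil) .nil))))) (.nd (nat_lit 8) (.nd (nat_lit 9) 
(.lf (nat_lit 447689) (.g (nat_lit 1708) (.e (nat_lit 391) (nat_lit 32) (.e (nat_lit 426190) (nat_lit 9) (.e (nat_lit 426566) (nat_lit 34) (.e (nat_lit 393253) (nat_lit 18) (.e (nat_lit 164325) (nat_lit 230) .nil))))) (.g (nat_lit 0) (.e (nat_lit 3088) (nat_lit 0) .nil) .nil))) 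
(.lf (nat_lit 448201) (.g (nat_lit 2207) (.e (nat_lit 426) (nat_lit 32) (.e (nat_lit 426188) (nat_lit 9) (.e (nat_lit 426363) (nat_lit 15) (.e (nat_lit 1858) (nat_lit 124) (.e (nat_lit 557101) (nat_lit 13) (.e (nat_lit 172115) (nat_lit 10) (.e (nat_lit 434244) (nat_lit 28) (.e (nat_lit 573458) (nat_lit 9) .nil)))))))) (.g (nat_lit 1) (.e (nat_lit 5217) (nat_lit 0) .nil) .nil)))) (.nd (nat_lit 9) 
(.lf (nat_lit 447945) (.g (nat_lit 1309) (.e (nat_lit 401) (nat_lit 32) (.e (nat_lit 426340) (nat_lit 14) (.e (nat_lit 491571) (nat_lit 13) (.e (nat_lit 393260) (nat_lit 21) .nil)))) (.g (nat_lit 0) (.e (nat_lit 4398) (nat_lit 0) .nil) .nil))) 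
(.lf (nat_lit 448457) (.g (nat_lit 4070) (.e (nat_lit 430) (nat_lit 32) (.e (nat_lit 426342) (nat_lit 14) (.e (nat_lit 491544) (nat_lit 7) (.e (nat_lit 319534) (nat_lit 16) (.e (nat_lit 286756) (nat_lit 10) (.e (nat_lit 344160) (nat_lit 37) (.e (nat_lit 647190) (nat_lit 9) .nil))))))) (.g (nat_lit 1) (.e (nat_lit 5952) (nat_lit 0) .nil) .nil))))))) 
(.nd (nat_lit 6) (.nd (nat_lit 7) (.nd (nat_lit 8) (.nd (nat_lit 9) 
(.lf (nat_lit 447529) (.g (nat_lit 3774) (.e (nat_lit 375) (nat_lit 32) (.e (nat_lit 426125) (nat_lit 2) (.e (nat_lit 196666) (nat_lit 13) (.e (nat_lit 65610) (nat_lit 10) (.e (nat_lit 344131) (nat_lit 26) (.e (nat_lit 557093) (nat_lit 12) (.e (nat_lit 164023) (nat_lit 46) (.e (nat_lit 704628) (nat_lit 9) .nil)))))))) (.g (nat_lit 1) (.e (nat_lit 2227) (nat_lit 0) .nil) .nil))) 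
(.lf (nat_lit 448041) (.g (nat_lit 2500) (.e (nat_lit 411) (nat_lit 32) (.e (nat_lit 426125) (nat_lit 2) (.e (nat_lit 196666) (nat_lit 13) (.e (nat_lit 65617) (nat_lit 10) (.e (nat_lit 344133) (nat_lit 26) (.e (nat_lit 557091) (nat_lit 12) (.e (nat_lit 164022) (nat_lit 46) (.e (nat_lit 704627) (nat_lit 9) .nil)))))))) (.g (nat_lit 1) (.e (nat_lit 4613) (nat_lit 0) .nil) .nil)))) (.nd (nat_lit 9) 
(.lf (nat_lit 447785) (.g (nat_lit 4198) (.e (nat_lit 396) (nat_lit 32) (.e (nat_lit 426308) (nat_lit 12) (.e (nat_lit 475184) (nat_lit 29) (.e (nat_lit 557098) (nat_lit 13) (.e (nat_lit 172115) (nat_lit 10) (.e (nat_lit 434244) (nat_lit 28) (.e (nat_lit 573449) (nat_lit 9) .nil))))))) (.g (nat_lit 1) (.e (nat_lit 3545) (nat_lit 0) .nil) .nil))) 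
(.lf (nat_lit 448297) (.g (nat_lit 4038) (.e (nat_lit 430) (nat_lit 32) (.e (nat_lit 426011) (nat_lit 0) (.e (nat_lit 7490) (nat_lit 402) (.e (nat_lit 1256) (nat_lit 92) (.e (nat_lit 98373) (nat_lit 29) (.e (nat_lit 450588) (nat_lit 10) (.e (nat_lit 573457) (nat_lit 9) .nil))))))) (.g (nat_lit 1) (.e (nat_lit 5537) (nat_lit 0) .nil) .nil))))) (.nd (nat_lit 8) (.nd (nat_lit 9) 
(.lf (nat_lit 447657) (.g (nat_lit 1909) (.e (nat_lit 388) (nat_lit 32) (.e (nat_lit 426190) (nat_lit 9) (.e (nat_lit 426566) (nat_lit 34) (.e (nat_lit 393253) (nat_lit 18) (.e (nat_lit 164325) (nat_lit 230) .nil))))) (.g (nat_lit 0) (.e (nat_lit 3004) (nat_lit 0) .nil) .nil))) 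
(.lf (nat_lit 448169) (.g (nat_lit 1782) (.e (nat_lit 416) (nat_lit 32) (.e (nat_lit 426190) (nat_lit 9) (.e (nat_lit 426566) (nat_lit 34) (.e (nat_lit 393253) (nat_lit 18) (.e (nat_lit 164332) (nat_lit 230) (.e (nat_lit 163867) (nat_lit 2) (.e (nat_lit 196624) (nat_lit 9) .nil))))))) (.g (nat_lit 1) (.e (nat_lit 4938) (nat_lit 0) .nil) .nil)))) (.nd (nat_lit 9) 
(.lf (nat_lit 447913) (.g (nat_lit 3239) (.e (nat_lit 398) (nat_lit 32) (.e (nat_lit 426123) (nat_lit 2) (.e (nat_lit 196666) (nat_lit 13) (.e (nat_lit 65617) (nat_lit 10) (.e (nat_lit 344132) (nat_lit 26) (.e (nat_lit 557093) (nat_lit 12) (.e (nat_lit 164022) (nat_lit 46) (.e (nat_lit 704626) (nat_lit 9) .nil)))))))) (.g (nat_lit 1) (.e (nat_lit 4295) (nat_lit 0) .nil) .nil))) 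
(.lf (nat_lit 448425) (.g (nat_lit 4340) (.e (nat_lit 430) (nat_lit 32) (.e (nat_lit 426316) (nat_lit 12) (.e (nat_lit 475185) (nat_lit 29) (.e (nat_lit 557100) (nat_lit 13) (.e (nat_lit 172113) (nat_lit 10) .nil))))) (.g (nat_lit 0) (.e (nat_lit 5824) (nat_lit 0) .nil) .nil)))))) (.nd (nat_lit 7) (.nd (nat_lit 8) (.nd (nat_lit 9) 
(.lf (nat_lit 447593) (.g (nat_lit 4002) (.e (nat_lit 375) (nat_lit 32) (.e (nat_lit 426140) (nat_lit 3) (.e (nat_lit 204869) (nat_lit 29) (.e (nat_lit 360474) (nat_lit 8) (.e (nat_lit 557093) (nat_lit 12) (.e (nat_lit 164022) (nat_lit 46) (.e (nat_lit 704626) (nat_lit 9) .nil))))))) (.g (nat_lit 1) (.e (nat_lit 2308) (nat_lit 0) .nil) .nil))) 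
(.lf (nat_lit 448105) (.g (nat_lit 3727) (.e (nat_lit 436) (nat_lit 32) (.e (nat_lit 426137) (nat_lit 3) (.e (nat_lit 204869) (nat_lit 29) (.e (nat_lit 360475) (nat_lit 8) (.e (nat_lit 557091) (nat_lit 12) (.e (nat_lit 164022) (nat_lit 46) (.e (nat_lit 704628) (nat_lit 9) .nil))))))) (.g (nat_lit 1) (.e (nat_lit 4729) (nat_lit 0) .nil) .nil)))) (.nd (nat_lit 9) 
(.lf (nat_lit 447849) (.g (nat_lit 2003) (.e (nat_lit 395) (nat_lit 32) (.e (nat_lit 426188) (nat_lit 9) (.e (nat_lit 426566) (nat_lit 34) (.e (nat_lit 393254) (nat_lit 18) (.e (nat_lit 164332) (nat_lit 230) (.e (nat_lit 163869) (nat_lit 2) (.e (nat_lit 196626) (nat_lit 9) .nil))))))) (.g (nat_lit 1) (.e (nat_lit 4125) (nat_lit 0) .nil) .nil))) 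
(.lf (nat_lit 448361) (.g (nat_lit 2178) (.e (nat_lit 430) (nat_lit 32) (.e (nat_lit 426296) (nat_lit 11) (.e (nat_lit 458789) (nat_lit 23) (.e (nat_lit 532482) (nat_lit 0) (.e (nat_lit 6722) (nat_lit 362) (.e (nat_lit 180251) (nat_lit 10) (.e (nat_lit 573457) (nat_lit 9) .nil))))))) (.g (nat_lit 1) (.e (nat_lit 5751) (nat_lit 0) .nil) .nil))))) (.nd (nat_lit 8) (.nd (nat_lit 9) 
(.lf (nat_lit 447721) (.g (nat_lit 1211) (.e (nat_lit 392) (nat_lit 32) (.e (nat_lit 426341) (nat_lit 14) (.e (nat_lit 491570) (nat_lit 13) (.e (nat_lit 393260) (nat_lit 21) .nil)))) (.g (nat_lit 0) (.e (nat_lit 3388) (nat_lit 0) .nil) .nil))) 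
(.lf (nat_lit 448233) (.g (nat_lit 4369) (.e (nat_lit 426) (nat_lit 32) (.e (nat_lit 426316) (nat_lit 12) (.e (nat_lit 475183) (nat_lit 29) (.e (nat_lit 557100) (nat_lit 13) (.e (nat_lit 172106) (nat_lit 10) (.e (nat_lit 434244) (nat_lit 28) (.e (nat_lit 573458) (nat_lit 9) .nil))))))) (.g (nat_lit 1) (.e (nat_lit 5281) (nat_lit 0) .nil) .nil)))) (.nd (nat_lit 9) 
(.lf (nat_lit 447977) (.g (nat_lit 3211) (.e (nat_lit 403) (nat_lit 32) (.e (nat_lit 426340) (nat_lit 14) (.e (nat_lit 491571) (nat_lit 13) (.e (nat_lit 393238) (nat_lit 17) (.e (nat_lit 7107) (nat_lit 380) (.e (nat_lit 164338) (nat_lit 232) .nil)))))) (.g (nat_lit 1) (.e (nat_lit 4455) (nat_lit 0) .nil) .nil))) 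
(.lf (nat_lit 448489) (.g (nat_lit 3939) (.e (nat_lit 430) (nat_lit 32) (.e (nat_lit 426343) (nat_lit 14) (.e (nat_lit 491538) (nat_lit 3) (.e (nat_lit 98373) (nat_lit 29) (.e (nat_lit 450588) (nat_lit 10) (.e (nat_lit 573457) (nat_lit 9) .nil)))))) (.g (nat_lit 1) (.e (nat_lit 5985) (nat_lit 0) .nil) .nil)))))))) 
(.nd (nat_lit 5) (.nd (nat_lit 6) (.nd (nat_lit 7) (.nd (nat_lit 8) (.nd (nat_lit 9) 
(.lf (nat_lit 447513) (.g (nat_lit 5657) (.e (nat_lit 375) (nat_lit 32) (.e (nat_lit 426125) (nat_lit 2) (.e (nat_lit 196666) (nat_lit 13) (.e (nat_lit 65610) (nat_lit 10) (.e (nat_lit 344129) (nat_lit 26) (.e (nat_lit 557094) (nat_lit 12) (.e (nat_lit 164022) (nat_lit 46) (.e (nat_lit 704626) (nat_lit 9) .nil)))))))) (.g (nat_lit 1) (.e (nat_lit 2209) (nat_lit 0) .nil) .nil))) 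
(.lf (nat_lit 448025) (.g (nat_lit 3539) (.e (nat_lit 411) (nat_lit 32) (.e (nat_lit 426125) (nat_lit 2) (.e (nat_lit 196666) (nat_lit 13) (.e (nat_lit 65610) (nat_lit 10) (.e (nat_lit 344127) (nat_lit 26) (.e (nat_lit 557090) (nat_lit 12) (.e (nat_lit 164022) (nat_lit 46) (.e (nat_lit 704629) (nat_lit 9) .nil)))))))) (.g (nat_lit 1) (.e (nat_lit 4597) (nat_lit 0) .nil) .nil)))) (.nd (nat_lit 9) 
(.lf (nat_lit 447769) (.g (nat_lit 2647) (.e (nat_lit 396) (nat_lit 32) (.e (nat_lit 426139) (nat_lit 3) (.e (nat_lit 204869) (nat_lit 29) (.e (nat_lit 360474) (nat_lit 8) (.e (nat_lit 557094) (nat_lit 12) .nil))))) (.g (nat_lit 0) (.e (nat_lit 3513) (nat_lit 0) .nil) .nil))) 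
(.lf (nat_lit 448281) (.g (nat_lit 3478) (.e (nat_lit 428) (nat_lit 32) (.e (nat_lit 425990) (nat_lit 0) (.e (nat_lit 7489) (nat_lit 402) (.e (nat_lit 1239) (nat_lit 91) (.e (nat_lit 90170) (nat_lit 13) (.e (nat_lit 172113) (nat_lit 10) (.e (nat_lit 434245) (nat_lit 28) (.e (nat_lit 573451) (nat_lit 9) .nil)))))))) (.g (nat_lit 1) (.e (nat_lit 5517) (nat_lit 0) .nil) .nil))))) 
(.nd (nat_lit 8) (.nd (nat_lit 9) 
(.lf (nat_lit 447641) (.g (nat_lit 1846) (.e (nat_lit 380) (nat_lit 32) (.e (nat_lit 426428) (nat_lit 17) (.e (nat_lit 90174) (nat_lit 14) (.e (nat_lit 180250) (nat_lit 10) (.e (nat_lit 573480) (nat_lit 13) .nil))))) (.g (nat_lit 0) (.e (nat_lit 2970) (nat_lit 0) .nil) .nil))) 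
(.lf (nat_lit 448153) (.g (nat_lit 3230) (.e (nat_lit 416) (nat_lit 32) (.e (nat_lit 426121) (nat_lit 2) (.e (nat_lit 196666) (nat_lit 13) (.e (nat_lit 65617) (nat_lit 10) (.e (nat_lit 344132) (nat_lit 26) (.e (nat_lit 557094) (nat_lit 12) (.e (nat_lit 164022) (nat_lit 46) (.e (nat_lit 704626) (nat_lit 9) .nil)))))))) (.g (nat_lit 1) (.e (nat_lit 4909) (nat_lit 0) .nil) .nil)))) (.nd (nat_lit 9) 
(.lf (nat_lit 447897) (.g (nat_lit 3126) (.e (nat_lit 397) (nat_lit 32) (.e (nat_lit 426316) (nat_lit 12) (.e (nat_lit 475185) (nat_lit 29) (.e (nat_lit 557101) (nat_lit 13) .nil)))) (.g (nat_lit 0) (.e (nat_lit 4263) (nat_lit 0) .nil) .nil))) 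
(.lf (nat_lit 448409) (.g (nat_lit 4150) (.e (nat_lit 430) (nat_lit 32) (.e (nat_lit 426308) (nat_lit 12) (.e (nat_lit 475185) (nat_lit 29) (.e (nat_lit 557100) (nat_lit 13) (.e (nat_lit 172113) (nat_lit 10) (.e (nat_lit 434247) (nat_lit 28) (.e (nat_lit 573456) (nat_lit 9) .nil))))))) (.g (nat_lit 1) (.e (nat_lit 5808) (nat_lit 0) .nil) .nil)))))) 
(.nd (nat_lit 7) (.nd (nat_lit 8) (.nd (nat_lit 9) 
(.lf (nat_lit 447577) (.g (nat_lit 3946) (.e (nat_lit 375) (nat_lit 32) (.e (nat_lit 426135) (nat_lit 3) (.e (nat_lit 204869) (nat_lit 29) (.e (nat_lit 360474) (nat_lit 8) (.e (nat_lit 557094) (nat_lit 12) (.e (nat_lit 164022) (nat_lit 46) (.e (nat_lit 704628) (nat_lit 9) .nil))))))) (.g (nat_lit 1) (.e (nat_lit 2289) (nat_lit 0) .nil) .nil))) 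
(.lf (nat_lit 448089) (.g (nat_lit 3187) (.e (nat_lit 436) (nat_lit 32) (.e (nat_lit 426121) (nat_lit 2) (.e (nat_lit 196666) (nat_lit 13) (.e (nat_lit 65617) (nat_lit 10) (.e (nat_lit 344132) (nat_lit 26) (.e (nat_lit 557094) (nat_lit 12) (.e (nat_lit 164022) (nat_lit 46) (.e (nat_lit 704628) (nat_lit 9) .nil)))))))) (.g (nat_lit 1) (.e (nat_lit 4705) (nat_lit 0) .nil) .nil)))) (.nd (nat_lit 9) 
(.lf (nat_lit 447833) (.g (nat_lit 3265) (.e (nat_lit 394) (nat_lit 32) (.e (nat_lit 426316) (nat_lit 12) (.e (nat_lit 475183) (nat_lit 29) (.e (nat_lit 557097) (nat_lit 13) (.e (nat_lit 172115) (nat_lit 10) (.e (nat_lit 434244) (nat_lit 28) (.e (nat_lit 573458) (nat_lit 9) .nil))))))) (.g (nat_lit 1) (.e (nat_lit 3963) (nat_lit 0) .nil) .nil))) 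
(.lf (nat_lit 448345) (.g (nat_lit 2588) (.e (nat_lit 430) (nat_lit 32) (.e (nat_lit 426190) (nat_lit 9) (.e (nat_lit 426566) (nat_lit 34) (.e (nat_lit 393251) (nat_lit 18) (.e (nat_lit 164325) (nat_lit 230) (.e (nat_lit 163866) (nat_lit 2) (.e (nat_lit 196630) (nat_lit 9) .nil))))))) (.g (nat_lit 1) (.e (nat_lit 5696) (nat_lit 0) .nil) .nil))))) (.nd (nat_lit 8) (.nd (nat_lit 9) 
(.lf (nat_lit 447705) (.g (nat_lit 3288) (.e (nat_lit 392) (nat_lit 32) (.e (nat_lit 426316) (nat_lit 12) (.e (nat_lit 475185) (nat_lit 29) (.e (nat_lit 557098) (nat_lit 13) (.e (nat_lit 172105) (nat_lit 10) (.e (nat_lit 434248) (nat_lit 28) (.e (nat_lit 573452) (nat_lit 9) .nil))))))) (.g (nat_lit 1) (.e (nat_lit 3327) (nat_lit 0) .nil) .nil))) 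
(.lf (nat_lit 448217) (.g (nat_lit 5115) (.e (nat_lit 426) (nat_lit 32) (.e (nat_lit 426308) (nat_lit 12) (.e (nat_lit 475183) (nat_lit 29) (.e (nat_lit 557097) (nat_lit 13) (.e (nat_lit 172115) (nat_lit 10) (.e (nat_lit 434244) (nat_lit 28) (.e (nat_lit 573458) (nat_lit 9) .nil))))))) (.g (nat_lit 1) (.e (nat_lit 5264) (nat_lit 0) .nil) .nil)))) (.nd (nat_lit 9) 
(.lf (nat_lit 447961) (.g (nat_lit 4680) (.e (nat_lit 403) (nat_lit 32) (.e (nat_lit 426339) (nat_lit 14) (.e (nat_lit 491571) (nat_lit 13) (.e (nat_lit 393260) (nat_lit 21) (.e (nat_lit 409614) (nat_lit 10) .nil))))) (.g (nat_lit 0) (.e (nat_lit 4435) (nat_lit 0) .nil) .nil))) 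
(.lf (nat_lit 448473) (.g (nat_lit 4239) (.e (nat_lit 430) (nat_lit 32) (.e (nat_lit 426343) (nat_lit 14) (.e (nat_lit 491536) (nat_lit 2) (.e (nat_lit 90170) (nat_lit 13) (.e (nat_lit 172113) (nat_lit 10) (.e (nat_lit 434245) (nat_lit 28) (.e (nat_lit 573451) (nat_lit 9) .nil))))))) (.g (nat_lit 1) (.e (nat_lit 5969) (nat_lit 0) .nil) .nil))))))) 
(.nd (nat_lit 6) (.nd (nat_lit 7) (.nd (nat_lit 8) (.nd (nat_lit 9) 
(.lf (nat_lit 447545) (.g (nat_lit 5064) (.e (nat_lit 375) (nat_lit 32) (.e (nat_lit 426125) (nat_lit 2) (.e (nat_lit 196666) (nat_lit 13) (.e (nat_lit 65610) (nat_lit 10) (.e (nat_lit 344133) (nat_lit 26) (.e (nat_lit 557091) (nat_lit 12) (.e (nat_lit 164022) (nat_lit 46) (.e (nat_lit 704627) (nat_lit 9) .nil)))))))) (.g (nat_lit 1) (.e (nat_lit 2243) (nat_lit 0) .nil) .nil))) 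
(.lf (nat_lit 448057) (.g (nat_lit 2172) (.e (nat_lit 411) (nat_lit 32) (.e (nat_lit 426140) (nat_lit 3) (.e (nat_lit 204869) (nat_lit 29) (.e (nat_lit 360474) (nat_lit 8) (.e (nat_lit 557093) (nat_lit 12) .nil))))) (.g (nat_lit 0) (.e (nat_lit 4639) (nat_lit 0) .nil) .nil)))) (.nd (nat_lit 9) 
(.lf (nat_lit 447801) (.g (nat_lit 4211) (.e (nat_lit 396) (nat_lit 32) (.e (nat_lit 426316) (nat_lit 12) (.e (nat_lit 475185) (nat_lit 29) (.e (nat_lit 557107) (nat_lit 15) (.e (nat_lit 188440) (nat_lit 20) (.e (nat_lit 3307) (nat_lit 202) (.e (nat_lit 573449) (nat_lit 9) .nil))))))) (.g (nat_lit 1) (.e (nat_lit 3564) (nat_lit 0) .nil) .nil))) 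
(.lf (nat_lit 448313) (.g (nat_lit 4262) (.e (nat_lit 430) (nat_lit 32) (.e (nat_lit 426011) (nat_lit 0) (.e (nat_lit 7581) (nat_lit 405) (.e (nat_lit 57464) (nat_lit 23) (.e (nat_lit 516165) (nat_lit 12) (.e (nat_lit 450588) (nat_lit 10) (.e (nat_lit 573452) (nat_lit 9) .nil))))))) (.g (nat_lit 1) (.e (nat_lit 5553) (nat_lit 0) .nil) .nil))))) (.nd (nat_lit 8) (.nd (nat_lit 9) 
(.lf (nat_lit 447673) (.g (nat_lit 2186) (.e (nat_lit 389) (nat_lit 32) (.e (nat_lit 426190) (nat_lit 9) (.e (nat_lit 426566) (nat_lit 34) (.e (nat_lit 393253) (nat_lit 18) (.e (nat_lit 164329) (nat_lit 230) .nil))))) (.g (nat_lit 0) (.e (nat_lit 3051) (nat_lit 0) .nil) .nil))) 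
(.lf (nat_lit 448185) (.g (nat_lit 3051) (.e (nat_lit 422) (nat_lit 32) (.e (nat_lit 426200) (nat_lit 9) (.e (nat_lit 426354) (nat_lit 15) (.e (nat_lit 1860) (nat_lit 124) (.e (nat_lit 557101) (nat_lit 13) (.e (nat_lit 172115) (nat_lit 10) (.e (nat_lit 434244) (nat_lit 28) (.e (nat_lit 573458) (nat_lit 9) .nil)))))))) (.g (nat_lit 1) (.e (nat_lit 5009) (nat_lit 0) .nil) .nil)))) (.nd (nat_lit 9) 
(.lf (nat_lit 447929) (.g (nat_lit 3941) (.e (nat_lit 401) (nat_lit 32) (.e (nat_lit 426339) (nat_lit 14) (.e (nat_lit 491571) (nat_lit 13) (.e (nat_lit 393260) (nat_lit 21) (.e (nat_lit 409618) (nat_lit 10) .nil))))) (.g (nat_lit 0) (.e (nat_lit 4365) (nat_lit 0) .nil) .nil))) 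
(.lf (nat_lit 448441) (.g (nat_lit 4083) (.e (nat_lit 430) (nat_lit 32) (.e (nat_lit 426342) (nat_lit 14) (.e (nat_lit 491537) (nat_lit 2) (.e (nat_lit 90170) (nat_lit 13) (.e (nat_lit 172113) (nat_lit 10) (.e (nat_lit 434247) (nat_lit 28) (.e (nat_lit 573456) (nat_lit 9) .nil))))))) (.g (nat_lit 1) (.e (nat_lit 5936) (nat_lit 0) .nil) .nil)))))) (.nd (nat_lit 7) (.nd (nat_lit 8) (.nd (nat_lit 9) 
(.lf (nat_lit 447609) (.g (nat_lit 2912) (.e (nat_lit 375) (nat_lit 32) (.e (nat_lit 426173) (nat_lit 7) (.e (nat_lit 409617) (nat_lit 10) (.e (nat_lit 604) (nat_lit 45) (.e (nat_lit 532499) (nat_lit 1) (.e (nat_lit 57927) (nat_lit 282) (.e (nat_lit 163886) (nat_lit 5) (.e (nat_lit 221211) (nat_lit 22) (.e (nat_lit 196617) (nat_lit 9) .nil))))))))) (.g (nat_lit 1) (.e (nat_lit 2327) (nat_lit 0) .nil) .nil))) 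
(.lf (nat_lit 448121) (.g (nat_lit 4082) (.e (nat_lit 436) (nat_lit 32) (.e (nat_lit 426316) (nat_lit 12) (.e (nat_lit 475185) (nat_lit 29) (.e (nat_lit 557101) (nat_lit 13) (.e (nat_lit 172115) (nat_lit 10) (.e (nat_lit 434244) (nat_lit 28) (.e (nat_lit 573450) (nat_lit 9) .nil))))))) (.g (nat_lit 1) (.e (nat_lit 4757) (nat_lit 0) .nil) .nil)))) (.nd (nat_lit 9) 
(.lf (nat_lit 447865) (.g (nat_lit 2152) (.e (nat_lit 395) (nat_lit 32) (.e (nat_lit 426338) (nat_lit 14) (.e (nat_lit 491537) (nat_lit 2) (.e (nat_lit 90170) (nat_lit 13) (.e (nat_lit 172113) (nat_lit 10) (.e (nat_lit 434248) (nat_lit 28) (.e (nat_lit 573452) (nat_lit 9) .nil))))))) (.g (nat_lit 1) (.e (nat_lit 4188) (nat_lit 0) .nil) .nil))) 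
(.lf (nat_lit 448377) (.g (nat_lit 2532) (.e (nat_lit 430) (nat_lit 32) (.e (nat_lit 426305) (nat_lit 12) (.e (nat_lit 475185) (nat_lit 29) (.e (nat_lit 557100) (nat_lit 13) (.e (nat_lit 172113) (nat_lit 10) (.e (nat_lit 434248) (nat_lit 28) (.e (nat_lit 573452) (nat_lit 9) .nil))))))) (.g (nat_lit 1) (.e (nat_lit 5775) (nat_lit 0) .nil) .nil))))) (.nd (nat_lit 8) (.nd (nat_lit 9) 
(.lf (nat_lit 447737) (.g (nat_lit 2028) (.e (nat_lit 396) (nat_lit 32) (.e (nat_lit 426012) (nat_lit 0) (.e (nat_lit 3544) (nat_lit 219) (.e (nat_lit 712753) (nat_lit 30) (.e (nat_lit 450586) (nat_lit 10) (.e (nat_lit 573473) (nat_lit 12) (.e (nat_lit 57508) (nat_lit 39) (.e (nat_lit 647190) (nat_lit 9) .nil)))))))) (.g (nat_lit 1) (.e (nat_lit 3442) (nat_lit 0) .nil) .nil))) 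
(.lf (nat_lit 448249) (.g (nat_lit 1272) (.e (nat_lit 426) (nat_lit 32) (.e (nat_lit 426338) (nat_lit 14) (.e (nat_lit 491540) (nat_lit 3) (.e (nat_lit 98373) (nat_lit 29) (.e (nat_lit 450585) (nat_lit 10) .nil))))) (.g (nat_lit 0) (.e (nat_lit 5412) (nat_lit 0) .nil) .nil)))) (.nd (nat_lit 9) 
(.lf (nat_lit 447993) (.g (nat_lit 1956) (.e (nat_lit 404) (nat_lit 32) (.e (nat_lit 426340) (nat_lit 14) (.e (nat_lit 491550) (nat_lit 9) (.e (nat_lit 336421) (nat_lit 28) (.e (nat_lit 434198) (nat_lit 17) (.e (nat_lit 229645) (nat_lit 232) .nil)))))) (.g (nat_lit 1) (.e (nat_lit 4501) (nat_lit 0) .nil) .nil))) 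
(.lf (nat_lit 448505) (.g (nat_lit 4057) (.e (nat_lit 430) (nat_lit 32) (.e (nat_lit 426343) (nat_lit 14) (.e (nat_lit 491540) (nat_lit 3) (.e (nat_lit 98373) (nat_lit 29) (.e (nat_lit 450587) (nat_lit 10) (.e (nat_lit 573452) (nat_lit 9) .nil)))))) (.g (nat_lit 1) (.e (nat_lit 6001) (nat_lit 0) .nil) .nil)))))))))) 
(.nd (nat_lit 3) (.nd (nat_lit 4) (.nd (nat_lit 5) (.nd (nat_lit 6) (.nd (nat_lit 7) 
(.nd (nat_lit 8) (.nd (nat_lit 9) 
(.lf (nat_lit 447493) (.g (nat_lit 3443) (.e (nat_lit 375) (nat_lit 32) (.e (nat_lit 426125) (nat_lit 2) (.e (nat_lit 196666) (nat_lit 13) (.e (nat_lit 65610) (nat_lit 10) (.e (nat_lit 344129) (nat_lit 26) (.e (nat_lit 557088) (nat_lit 12) (.e (nat_lit 164023) (nat_lit 46) (.e (nat_lit 704627) (nat_lit 9) .nil)))))))) (.g (nat_lit 1) (.e (nat_lit 2188) (nat_lit 0) .nil) .nil))) 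
(.lf (nat_lit 448005) (.g (nat_lit 3102) (.e (nat_lit 402) (nat_lit 32) (.e (nat_lit 426340) (nat_lit 14) (.e (nat_lit 491571) (nat_lit 13) (.e (nat_lit 393260) (nat_lit 21) (.e (nat_lit 417536) (nat_lit 10) .nil))))) (.g (nat_lit 0) (.e (nat_lit 4522) (nat_lit 0) .nil) .nil)))) (.nd (nat_lit 9) 
(.lf (nat_lit 447749) (.g (nat_lit 2613) (.e (nat_lit 396) (nat_lit 32) (.e (nat_lit 426123) (nat_lit 2) (.e (nat_lit 196666) (nat_lit 13) (.e (nat_lit 65610) (nat_lit 10) (.e (nat_lit 344117) (nat_lit 21) (.e (nat_lit 516106) (nat_lit 0) (.e (nat_lit 3359) (nat_lit 207) (.e (nat_lit 614423) (nat_lit 9) .nil)))))))) (.g (nat_lit 1) (.e (nat_lit 3455) (nat_lit 0) .nil) .nil))) 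
(.lf (nat_lit 448261) (.g (nat_lit 1688) (.e (nat_lit 427) (nat_lit 32) (.e (nat_lit 426188) (nat_lit 9) (.e (nat_lit 426566) (nat_lit 34) (.e (nat_lit 393253) (nat_lit 18) (.e (nat_lit 164326) (nat_lit 230) (.e (nat_lit 163868) (nat_lit 2) (.e (nat_lit 196617) (nat_lit 9) .nil))))))) (.g (nat_lit 1) (.e (nat_lit 5428) (nat_lit 0) .nil) .nil))))) (.nd (nat_lit 8) (.nd (nat_lit 9) 
(.lf (nat_lit 447621) (.g (nat_lit 3721) (.e (nat_lit 375) (nat_lit 32) (.e (nat_lit 426309) (nat_lit 12) (.e (nat_lit 475185) (nat_lit 29) (.e (nat_lit 557100) (nat_lit 13) (.e (nat_lit 172106) (nat_lit 10) (.e (nat_lit 434244) (nat_lit 28) (.e (nat_lit 573450) (nat_lit 9) .nil))))))) (.g (nat_lit 1) (.e (nat_lit 2900) (nat_lit 0) .nil) .nil))) 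
(.lf (nat_lit 448133) (.g (nat_lit 4166) (.e (nat_lit 438) (nat_lit 32) (.e (nat_lit 426338) (nat_lit 14) (.e (nat_lit 491571) (nat_lit 13) (.e (nat_lit 393260) (nat_lit 21) (.e (nat_lit 409616) (nat_lit 10) .nil))))) (.g (nat_lit 0) (.e (nat_lit 4830) (nat_lit 0) .nil) .nil)))) (.nd (nat_lit 9) 
(.lf (nat_lit 447877) (.g (nat_lit 2700) (.e (nat_lit 399) (nat_lit 32) (.e (nat_lit 426139) (nat_lit 3) (.e (nat_lit 204869) (nat_lit 29) (.e (nat_lit 360474) (nat_lit 8) (.e (nat_lit 557094) (nat_lit 12) (.e (nat_lit 164022) (nat_lit 46) (.e (nat_lit 704626) (nat_lit 9) .nil))))))) (.g (nat_lit 1) (.e (nat_lit 4208) (nat_lit 0) .nil) .nil))) 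
(.lf (nat_lit 448389) (.g (nat_lit 4473) (.e (nat_lit 430) (nat_lit 32) (.e (nat_lit 426308) (nat_lit 12) (.e (nat_lit 475183) (nat_lit 29) (.e (nat_lit 557100) (nat_lit 13) (.e (nat_lit 172113) (nat_lit 10) (.e (nat_lit 434245) (nat_lit 28) (.e (nat_lit 573451) (nat_lit 9) .nil))))))) (.g (nat_lit 1) (.e (nat_lit 5788) (nat_lit 0) .nil) .nil)))))) 
(.nd (nat_lit 7) (.nd (nat_lit 8) (.nd (nat_lit 9) 
(.lf (nat_lit 447557) (.g (nat_lit 2026) (.e (nat_lit 375) (nat_lit 32) (.e (nat_lit 426125) (nat_lit 2) (.e (nat_lit 196666) (nat_lit 13) (.e (nat_lit 65617) (nat_lit 10) (.e (nat_lit 344127) (nat_lit 26) (.e (nat_lit 557094) (nat_lit 12) (.e (nat_lit 164022) (nat_lit 46) (.e (nat_lit 704629) (nat_lit 9) .nil)))))))) (.g (nat_lit 1) (.e (nat_lit 2264) (nat_lit 0) .nil) .nil))) 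
(.lf (nat_lit 448069) (.g (nat_lit 2422) (.e (nat_lit 411) (nat_lit 32) (.e (nat_lit 426340) (nat_lit 14) (.e (nat_lit 491537) (nat_lit 2) (.e (nat_lit 90170) (nat_lit 13) (.e (nat_lit 172113) (nat_lit 10) (.e (nat_lit 434245) (nat_lit 28) (.e (nat_lit 573448) (nat_lit 9) .nil))))))) (.g (nat_lit 1) (.e (nat_lit 4675) (nat_lit 0) .nil) .nil)))) (.nd (nat_lit 9) 
(.lf (nat_lit 447813) (.g (nat_lit 4796) (.e (nat_lit 396) (nat_lit 32) (.e (nat_lit 426343) (nat_lit 14) (.e (nat_lit 491536) (nat_lit 2) (.e (nat_lit 90170) (nat_lit 13) (.e (nat_lit 172106) (nat_lit 10) (.e (nat_lit 434244) (nat_lit 28) (.e (nat_lit 573451) (nat_lit 9) .nil))))))) (.g (nat_lit 1) (.e (nat_lit 3734) (nat_lit 0) .nil) .nil))) 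
(.lf (nat_lit 448325) (.g (nat_lit 3743) (.e (nat_lit 430) (nat_lit 32) (.e (nat_lit 426012) (nat_lit 0) (.e (nat_lit 7581) (nat_lit 405) (.e (nat_lit 57464) (nat_lit 23) (.e (nat_lit 516166) (nat_lit 12) (.e (nat_lit 450588) (nat_lit 10) (.e (nat_lit 573452) (nat_lit 9) .nil))))))) (.g (nat_lit 1) (.e (nat_lit 5565) (nat_lit 0) .nil) .nil))))) (.nd (nat_lit 8) (.nd (nat_lit 9) 
(.lf (nat_lit 447685) (.g (nat_lit 4340) (.e (nat_lit 391) (nat_lit 32) (.e (nat_lit 426123) (nat_lit 2) (.e (nat_lit 196666) (nat_lit 13) (.e (nat_lit 65617) (nat_lit 10) (.e (nat_lit 344133) (nat_lit 26) (.e (nat_lit 557091) (nat_lit 12) (.e (nat_lit 164022) (nat_lit 46) (.e (nat_lit 704626) (nat_lit 9) .nil)))))))) (.g (nat_lit 1) (.e (nat_lit 3077) (nat_lit 0) .nil) .nil))) 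
(.lf (nat_lit 448197) (.g (nat_lit 3692) (.e (nat_lit 426) (nat_lit 32) (.e (nat_lit 426011) (nat_lit 0) (.e (nat_lit 3544) (nat_lit 219) (.e (nat_lit 712754) (nat_lit 30) (.e (nat_lit 450588) (nat_lit 10) (.e (nat_lit 573473) (nat_lit 12) (.e (nat_lit 57508) (nat_lit 39) (.e (nat_lit 647195) (nat_lit 9) .nil)))))))) (.g (nat_lit 1) (.e (nat_lit 5058) (nat_lit 0) .nil) .nil)))) (.nd (nat_lit 9) 
(.lf (nat_lit 447941) (.g (nat_lit 1803) (.e (nat_lit 401) (nat_lit 32) (.e (nat_lit 426340) (nat_lit 14) (.e (nat_lit 491550) (nat_lit 9) (.e (nat_lit 336421) (nat_lit 28) (.e (nat_lit 434197) (nat_lit 16) (.e (nat_lit 164340) (nat_lit 232) .nil)))))) (.g (nat_lit 1) (.e (nat_lit 4383) (nat_lit 0) .nil) .nil))) 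
(.lf (nat_lit 448453) (.g (nat_lit 3877) (.e (nat_lit 430) (nat_lit 32) (.e (nat_lit 426342) (nat_lit 14) (.e (nat_lit 491540) (nat_lit 3) (.e (nat_lit 98373) (nat_lit 29) (.e (nat_lit 450587) (nat_lit 10) (.e (nat_lit 573456) (nat_lit 9) .nil)))))) (.g (nat_lit 1) (.e (nat_lit 5948) (nat_lit 0) .nil) .nil))))))) (.nd (nat_lit 6) (.nd (nat_lit 7) (.nd (nat_lit 8) (.nd (nat_lit 9) 
(.lf (nat_lit 447525) (.g (nat_lit 3837) (.e (nat_lit 375) (nat_lit 32) (.e (nat_lit 426125) (nat_lit 2) (.e (nat_lit 196666) (nat_lit 13) (.e (nat_lit 65610) (nat_lit 10) (.e (nat_lit 344131) (nat_lit 26) (.e (nat_lit 557093) (nat_lit 12) (.e (nat_lit 164022) (nat_lit 46) (.e (nat_lit 704627) (nat_lit 9) .nil)))))))) (.g (nat_lit 1) (.e (nat_lit 2223) (nat_lit 0) .nil) .nil))) 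
(.lf (nat_lit 448037) (.g (nat_lit 2586) (.e (nat_lit 411) (nat_lit 32) (.e (nat_lit 426125) (nat_lit 2) (.e (nat_lit 196666) (nat_lit 13) (.e (nat_lit 65617) (nat_lit 10) (.e (nat_lit 344132) (nat_lit 26) (.e (nat_lit 557093) (nat_lit 12) (.e (nat_lit 164023) (nat_lit 46) (.e (nat_lit 704628) (nat_lit 9) .nil)))))))) (.g (nat_lit 1) (.e (nat_lit 4609) (nat_lit 0) .nil) .nil)))) (.nd (nat_lit 9) 
(.lf (nat_lit 447781) (.g (nat_lit 2464) (.e (nat_lit 396) (nat_lit 32) (.e (nat_lit 426308) (nat_lit 12) (.e (nat_lit 475183) (nat_lit 29) (.e (nat_lit 557097) (nat_lit 13) (.e (nat_lit 172115) (nat_lit 10) .nil))))) (.g (nat_lit 0) (.e (nat_lit 3541) (nat_lit 0) .nil) .nil))) 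
(.lf (nat_lit 448293) (.g (nat_lit 3344) (.e (nat_lit 430) (nat_lit 32) (.e (nat_lit 426011) (nat_lit 0) (.e (nat_lit 7486) (nat_lit 402) (.e (nat_lit 1256) (nat_lit 92) (.e (nat_lit 98373) (nat_lit 29) (.e (nat_lit 450587) (nat_lit 10) (.e (nat_lit 573457) (nat_lit 9) .nil))))))) (.g (nat_lit 1) (.e (nat_lit 5533) (nat_lit 0) .nil) .nil))))) (.nd (nat_lit 8) (.nd (nat_lit 9) 
(.lf (nat_lit 447653) (.g (nat_lit 3074) (.e (nat_lit 388) (nat_lit 32) (.e (nat_lit 426121) (nat_lit 2) (.e (nat_lit 196666) (nat_lit 13) (.e (nat_lit 65617) (nat_lit 10) (.e (nat_lit 344130) (nat_lit 26) (.e (nat_lit 557090) (nat_lit 12) (.e (nat_lit 164022) (nat_lit 46) (.e (nat_lit 704628) (nat_lit 9) .nil)))))))) (.g (nat_lit 1) (.e (nat_lit 2996) (nat_lit 0) .nil) .nil))) 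
(.lf (nat_lit 448165) (.g (nat_lit 2084) (.e (nat_lit 416) (nat_lit 32) (.e (nat_lit 426190) (nat_lit 9) (.e (nat_lit 426566) (nat_lit 34) (.e (nat_lit 393251) (nat_lit 18) (.e (nat_lit 164325) (nat_lit 230) (.e (nat_lit 163868) (nat_lit 2) (.e (nat_lit 196624) (nat_lit 9) .nil))))))) (.g (nat_lit 1) (.e (nat_lit 4934) (nat_lit 0) .nil) .nil)))) (.nd (nat_lit 9) 
(.lf (nat_lit 447909) (.g (nat_lit 3251) (.e (nat_lit 398) (nat_lit 32) (.e (nat_lit 426121) (nat_lit 2) (.e (nat_lit 196666) (nat_lit 13) (.e (nat_lit 65617) (nat_lit 10) (.e (nat_lit 344132) (nat_lit 26) (.e (nat_lit 557093) (nat_lit 12) (.e (nat_lit 164022) (nat_lit 46) (.e (nat_lit 704627) (nat_lit 9) .nil)))))))) (.g (nat_lit 1) (.e (nat_lit 4291) (nat_lit 0) .nil) .nil))) 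
(.lf (nat_lit 448421) (.g (nat_lit 4443) (.e (nat_lit 430) (nat_lit 32) (.e (nat_lit 426315) (nat_lit 12) (.e (nat_lit 475185) (nat_lit 29) (.e (nat_lit 557100) (nat_lit 13) (.e (nat_lit 172113) (nat_lit 10) (.e (nat_lit 434248) (nat_lit 28) (.e (nat_lit 573452) (nat_lit 9) .nil))))))) (.g (nat_lit 1) (.e (nat_lit 5820) (nat_lit 0) .nil) .nil)))))) 
(.nd (nat_lit 7) (.nd (nat_lit 8) (.nd (nat_lit 9) 
(.lf (nat_lit 447589) (.g (nat_lit 4029) (.e (nat_lit 375) (nat_lit 32) (.e (nat_lit 426140) (nat_lit 3) (.e (nat_lit 204868) (nat_lit 29) (.e (nat_lit 360475) (nat_lit 8) (.e (nat_lit 557091) (nat_lit 12) (.e (nat_lit 164022) (nat_lit 46) (.e (nat_lit 704627) (nat_lit 9) .nil))))))) (.g (nat_lit 1) (.e (nat_lit 2304) (nat_lit 0) .nil) .nil))) 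
(.lf (nat_lit 448101) (.g (nat_lit 3325) (.e (nat_lit 436) (nat_lit 32) (.e (nat_lit 426137) (nat_lit 3) (.e (nat_lit 204869) (nat_lit 29) (.e (nat_lit 360474) (nat_lit 8) (.e (nat_lit 557091) (nat_lit 12) (.e (nat_lit 164022) (nat_lit 46) (.e (nat_lit 704628) (nat_lit 9) .nil))))))) (.g (nat_lit 1) (.e (nat_lit 4725) (nat_lit 0) .nil) .nil)))) (.nd (nat_lit 9) 
(.lf (nat_lit 447845) (.g (nat_lit 3612) (.e (nat_lit 394) (nat_lit 32) (.e (nat_lit 426343) (nat_lit 14) (.e (nat_lit 491570) (nat_lit 13) (.e (nat_lit 393260) (nat_lit 21) (.e (nat_lit 409616) (nat_lit 10) (.e (nat_lit 7936) (nat_lit 298) .nil)))))) (.g (nat_lit 1) (.e (nat_lit 4045) (nat_lit 0) .nil) .nil))) 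
(.lf (nat_lit 448357) (.g (nat_lit 3724) (.e (nat_lit 430) (nat_lit 32) (.e (nat_lit 426190) (nat_lit 9) (.e (nat_lit 426566) (nat_lit 34) (.e (nat_lit 393253) (nat_lit 18) (.e (nat_lit 164332) (nat_lit 230) (.e (nat_lit 163867) (nat_lit 2) (.e (nat_lit 196630) (nat_lit 9) .nil))))))) (.g (nat_lit 1) (.e (nat_lit 5709) (nat_lit 0) .nil) .nil))))) (.nd (nat_lit 8) (.nd (nat_lit 9) 
(.lf (nat_lit 447717) (.g (nat_lit 4322) (.e (nat_lit 392) (nat_lit 32) (.e (nat_lit 426316) (nat_lit 12) (.e (nat_lit 475185) (nat_lit 29) (.e (nat_lit 557107) (nat_lit 15) (.e (nat_lit 188440) (nat_lit 20) (.e (nat_lit 3307) (nat_lit 202) (.e (nat_lit 573461) (nat_lit 9) .nil))))))) (.g (nat_lit 1) (.e (nat_lit 3339) (nat_lit 0) .nil) .nil))) 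
(.lf (nat_lit 448229) (.g (nat_lit 2272) (.e (nat_lit 426) (nat_lit 32) (.e (nat_lit 426315) (nat_lit 12) (.e (nat_lit 475183) (nat_lit 29) (.e (nat_lit 557100) (nat_lit 13) (.e (nat_lit 172113) (nat_lit 10) .nil))))) (.g (nat_lit 0) (.e (nat_lit 5276) (nat_lit 0) .nil) .nil)))) (.nd (nat_lit 9) 
(.lf (nat_lit 447973) (.g (nat_lit 2784) (.e (nat_lit 403) (nat_lit 32) (.e (nat_lit 426340) (nat_lit 14) (.e (nat_lit 491570) (nat_lit 13) (.e (nat_lit 393238) (nat_lit 17) (.e (nat_lit 7107) (nat_lit 380) (.e (nat_lit 164339) (nat_lit 232) .nil)))))) (.g (nat_lit 1) (.e (nat_lit 4451) (nat_lit 0) .nil) .nil))) 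
(.lf (nat_lit 448485) (.g (nat_lit 2957) (.e (nat_lit 430) (nat_lit 32) (.e (nat_lit 426343) (nat_lit 14) (.e (nat_lit 491537) (nat_lit 2) (.e (nat_lit 90170) (nat_lit 13) (.e (nat_lit 172113) (nat_lit 10) (.e (nat_lit 434248) (nat_lit 28) (.e (nat_lit 573457) (nat_lit 9) .nil))))))) (.g (nat_lit 1) (.e (nat_lit 5981) (nat_lit 0) .nil) .nil)))))))) 
(.nd (nat_lit 5) (.nd (nat_lit 6) (.nd (nat_lit 7) (.nd (nat_lit 8) (.nd (nat_lit 9) 
(.lf (nat_lit 447509) (.g (nat_lit 4600) (.e (nat_lit 375) (nat_lit 32) (.e (nat_lit 426125) (nat_lit 2) (.e (nat_lit 196666) (nat_lit 13) (.e (nat_lit 65610) (nat_lit 10) (.e (nat_lit 344129) (nat_lit 26) (.e (nat_lit 557093) (nat_lit 12) (.e (nat_lit 164022) (nat_lit 46) (.e (nat_lit 704626) (nat_lit 9) .nil)))))))) (.g (nat_lit 1) (.e (nat_lit 2205) (nat_lit 0) .nil) .nil))) 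
(.lf (nat_lit 448021) (.g (nat_lit 4884) (.e (nat_lit 411) (nat_lit 32) (.e (nat_lit 426113) (nat_lit 2) (.e (nat_lit 196666) (nat_lit 13) (.e (nat_lit 65617) (nat_lit 10) (.e (nat_lit 344130) (nat_lit 26) (.e (nat_lit 557090) (nat_lit 12) (.e (nat_lit 164022) (nat_lit 46) (.e (nat_lit 704629) (nat_lit 9) .nil)))))))) (.g (nat_lit 1) (.e (nat_lit 4593) (nat_lit 0) .nil) .nil)))) (.nd (nat_lit 9) 
(.lf (nat_lit 447765) (.g (nat_lit 4351) (.e (nat_lit 396) (nat_lit 32) (.e (nat_lit 426123) (nat_lit 2) (.e (nat_lit 196666) (nat_lit 13) (.e (nat_lit 65617) (nat_lit 10) (.e (nat_lit 344133) (nat_lit 26) (.e (nat_lit 557091) (nat_lit 12) (.e (nat_lit 164022) (nat_lit 46) (.e (nat_lit 704626) (nat_lit 9) .nil)))))))) (.g (nat_lit 1) (.e (nat_lit 3471) (nat_lit 0) .nil) .nil))) 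
(.lf (nat_lit 448277) (.g (nat_lit 2741) (.e (nat_lit 425) (nat_lit 32) (.e (nat_lit 426341) (nat_lit 14) (.e (nat_lit 491570) (nat_lit 13) (.e (nat_lit 393260) (nat_lit 21) (.e (nat_lit 409616) (nat_lit 10) (.e (nat_lit 7936) (nat_lit 298) .nil)))))) (.g (nat_lit 1) (.e (nat_lit 5513) (nat_lit 0) .nil) .nil))))) (.nd (nat_lit 8) (.nd (nat_lit 9) 
(.lf (nat_lit 447637) (.g (nat_lit 1585) (.e (nat_lit 379) (nat_lit 32) (.e (nat_lit 426131) (nat_lit 3) (.e (nat_lit 204868) (nat_lit 29) (.e (nat_lit 360473) (nat_lit 8) .nil)))) (.g (nat_lit 0) (.e (nat_lit 2946) (nat_lit 0) .nil) .nil))) 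
(.lf (nat_lit 448149) (.g (nat_lit 2533) (.e (nat_lit 440) (nat_lit 32) (.e (nat_lit 426316) (nat_lit 12) (.e (nat_lit 475185) (nat_lit 29) (.e (nat_lit 557107) (nat_lit 15) (.e (nat_lit 188440) (nat_lit 20) (.e (nat_lit 3307) (nat_lit 202) (.e (nat_lit 573449) (nat_lit 9) .nil))))))) (.g (nat_lit 1) (.e (nat_lit 4891) (nat_lit 0) .nil) .nil)))) (.nd (nat_lit 9) 
(.lf (nat_lit 447893) (.g (nat_lit 3062) (.e (nat_lit 397) (nat_lit 32) (.e (nat_lit 426190) (nat_lit 9) (.e (nat_lit 426566) (nat_lit 34) (.e (nat_lit 393253) (nat_lit 18) (.e (nat_lit 164332) (nat_lit 230) (.e (nat_lit 163867) (nat_lit 2) (.e (nat_lit 196628) (nat_lit 9) .nil))))))) (.g (nat_lit 1) (.e (nat_lit 4257) (nat_lit 0) .nil) .nil))) 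
(.lf (nat_lit 448405) (.g (nat_lit 2008) (.e (nat_lit 430) (nat_lit 32) (.e (nat_lit 426308) (nat_lit 12) (.e (nat_lit 475184) (nat_lit 29) (.e (nat_lit 557107) (nat_lit 15) (.e (nat_lit 188440) (nat_lit 20) .nil))))) (.g (nat_lit 0) (.e (nat_lit 5804) (nat_lit 0) .nil) .nil)))))) (.nd (nat_lit 7) (.nd (nat_lit 8) (.nd (nat_lit 9) 
(.lf (nat_lit 447573) (.g (nat_lit 2326) (.e (nat_lit 375) (nat_lit 32) (.e (nat_lit 426135) (nat_lit 3) (.e (nat_lit 204868) (nat_lit 29) (.e (nat_lit 360473) (nat_lit 8) (.e (nat_lit 557094) (nat_lit 12) (.e (nat_lit 164022) (nat_lit 46) (.e (nat_lit 704628) (nat_lit 9) .nil))))))) (.g (nat_lit 1) (.e (nat_lit 2285) (nat_lit 0) .nil) .nil))) 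
(.lf (nat_lit 448085) (.g (nat_lit 3389) (.e (nat_lit 436) (nat_lit 32) (.e (nat_lit 426121) (nat_lit 2) (.e (nat_lit 196666) (nat_lit 13) (.e (nat_lit 65617) (nat_lit 10) (.e (nat_lit 344132) (nat_lit 26) (.e (nat_lit 557093) (nat_lit 12) (.e (nat_lit 164022) (nat_lit 46) (.e (nat_lit 704628) (nat_lit 9) .nil)))))))) (.g (nat_lit 1) (.e (nat_lit 4701) (nat_lit 0) .nil) .nil)))) (.nd (nat_lit 9) 
(.lf (nat_lit 447829) (.g (nat_lit 2800) (.e (nat_lit 394) (nat_lit 32) (.e (nat_lit 426306) (nat_lit 12) (.e (nat_lit 475183) (nat_lit 29) (.e (nat_lit 557097) (nat_lit 13) (.e (nat_lit 172115) (nat_lit 10) .nil))))) (.g (nat_lit 0) (.e (nat_lit 3959) (nat_lit 0) .nil) .nil))) 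
(.lf (nat_lit 448341) (.g (nat_lit 3078) (.e (nat_lit 430) (nat_lit 32) (.e (nat_lit 426139) (nat_lit 3) (.e (nat_lit 204869) (nat_lit 29) (.e (nat_lit 360475) (nat_lit 8) (.e (nat_lit 557091) (nat_lit 12) (.e (nat_lit 164022) (nat_lit 46) (.e (nat_lit 704626) (nat_lit 9) .nil))))))) (.g (nat_lit 1) (.e (nat_lit 5681) (nat_lit 0) .nil) .nil))))) (.nd (nat_lit 8) (.nd (nat_lit 9) 
(.lf (nat_lit 447701) (.g (nat_lit 2010) (.e (nat_lit 392) (nat_lit 32) (.e (nat_lit 426190) (nat_lit 9) (.e (nat_lit 426566) (nat_lit 34) (.e (nat_lit 393253) (nat_lit 18) (.e (nat_lit 164329) (nat_lit 230) .nil))))) (.g (nat_lit 0) (.e (nat_lit 3314) (nat_lit 0) .nil) .nil))) 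
(.lf (nat_lit 448213) (.g (nat_lit 4878) (.e (nat_lit 426) (nat_lit 32) (.e (nat_lit 426306) (nat_lit 12) (.e (nat_lit 475184) (nat_lit 29) (.e (nat_lit 557098) (nat_lit 13) (.e (nat_lit 172115) (nat_lit 10) (.e (nat_lit 434244) (nat_lit 28) (.e (nat_lit 573458) (nat_lit 9) .nil))))))) (.g (nat_lit 1) (.e (nat_lit 5260) (nat_lit 0) .nil) .nil)))) (.nd (nat_lit 9) 
(.lf (nat_lit 447957) (.g (nat_lit 2739) (.e (nat_lit 403) (nat_lit 32) (.e (nat_lit 426339) (nat_lit 14) (.e (nat_lit 491570) (nat_lit 13) (.e (nat_lit 393238) (nat_lit 17) (.e (nat_lit 7107) (nat_lit 380) (.e (nat_lit 164339) (nat_lit 232) .nil)))))) (.g (nat_lit 1) (.e (nat_lit 4431) (nat_lit 0) .nil) .nil))) 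
(.lf (nat_lit 448469) (.g (nat_lit 3606) (.e (nat_lit 430) (nat_lit 32) (.e (nat_lit 426343) (nat_lit 14) (.e (nat_lit 491535) (nat_lit 2) (.e (nat_lit 90178) (nat_lit 15) (.e (nat_lit 188440) (nat_lit 20) (.e (nat_lit 3307) (nat_lit 202) (.e (nat_lit 573456) (nat_lit 9) .nil))))))) (.g (nat_lit 1) (.e (nat_lit 5965) (nat_lit 0) .nil) .nil))))))) 
(.nd (nat_lit 6) (.nd (nat_lit 7) (.nd (nat_lit 8) (.nd (nat_lit 9) 
(.lf (nat_lit 447541) (.g (nat_lit 4266) (.e (nat_lit 375) (nat_lit 32) (.e (nat_lit 426125) (nat_lit 2) (.e (nat_lit 196666) (nat_lit 13) (.e (nat_lit 65610) (nat_lit 10) (.e (nat_lit 344132) (nat_lit 26) (.e (nat_lit 557094) (nat_lit 12) (.e (nat_lit 164022) (nat_lit 46) (.e (nat_lit 704626) (nat_lit 9) .nil)))))))) (.g (nat_lit 1) (.e (nat_lit 2239) (nat_lit 0) .nil) .nil))) 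
(.lf (nat_lit 448053) (.g (nat_lit 2210) (.e (nat_lit 411) (nat_lit 32) (.e (nat_lit 426140) (nat_lit 3) (.e (nat_lit 204868) (nat_lit 29) (.e (nat_lit 360474) (nat_lit 8) (.e (nat_lit 557094) (nat_lit 12) .nil))))) (.g (nat_lit 0) (.e (nat_lit 4634) (nat_lit 0) .nil) .nil)))) (.nd (nat_lit 9) 
(.lf (nat_lit 447797) (.g (nat_lit 4547) (.e (nat_lit 396) (nat_lit 32) (.e (nat_lit 426316) (nat_lit 12) (.e (nat_lit 475185) (nat_lit 29) (.e (nat_lit 557100) (nat_lit 13) (.e (nat_lit 172106) (nat_lit 10) (.e (nat_lit 434244) (nat_lit 28) (.e (nat_lit 573451) (nat_lit 9) .nil))))))) (.g (nat_lit 1) (.e (nat_lit 3560) (nat_lit 0) .nil) .nil))) 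
(.lf (nat_lit 448309) (.g (nat_lit 2391) (.e (nat_lit 430) (nat_lit 32) (.e (nat_lit 426011) (nat_lit 0) (.e (nat_lit 7548) (nat_lit 402) (.e (nat_lit 1234) (nat_lit 91) (.e (nat_lit 90170) (nat_lit 13) (.e (nat_lit 172113) (nat_lit 10) (.e (nat_lit 434248) (nat_lit 28) (.e (nat_lit 573452) (nat_lit 9) .nil)))))))) (.g (nat_lit 1) (.e (nat_lit 5549) (nat_lit 0) .nil) .nil))))) 
(.nd (nat_lit 8) (.nd (nat_lit 9) 
(.lf (nat_lit 447669) (.g (nat_lit 2724) (.e (nat_lit 389) (nat_lit 32) (.e (nat_lit 426190) (nat_lit 9) (.e (nat_lit 426566) (nat_lit 34) (.e (nat_lit 393251) (nat_lit 18) (.e (nat_lit 164325) (nat_lit 230) (.e (nat_lit 163868) (nat_lit 2) (.e (nat_lit 196624) (nat_lit 9) .nil))))))) (.g (nat_lit 1) (.e (nat_lit 3047) (nat_lit 0) .nil) .nil))) 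
(.lf (nat_lit 448181) (.g (nat_lit 644) (.e (nat_lit 422) (nat_lit 32) (.e (nat_lit 426190) (nat_lit 9) (.e (nat_lit 426566) (nat_lit 34) .nil))) (.g (nat_lit 0) (.e (nat_lit 5005) (nat_lit 0) .nil) .nil)))) (.nd (nat_lit 9) 
(.lf (nat_lit 447925) (.g (nat_lit 3545) (.e (nat_lit 400) (nat_lit 32) (.e (nat_lit 426316) (nat_lit 12) (.e (nat_lit 475185) (nat_lit 29) (.e (nat_lit 557101) (nat_lit 13) (.e (nat_lit 172115) (nat_lit 10) .nil))))) (.g (nat_lit 0) (.e (nat_lit 4326) (nat_lit 0) .nil) .nil))) 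
(.lf (nat_lit 448437) (.g (nat_lit 965) (.e (nat_lit 430) (nat_lit 32) (.e (nat_lit 426342) (nat_lit 14) (.e (nat_lit 491526) (nat_lit 0) (.e (nat_lit 7936) (nat_lit 119) (.e (nat_lit 516166) (nat_lit 12) (.e (nat_lit 450588) (nat_lit 10) (.e (nat_lit 573452) (nat_lit 9) .nil))))))) (.g (nat_lit 1) (.e (nat_lit 5932) (nat_lit 0) .nil) .nil)))))) (.nd (nat_lit 7) (.nd (nat_lit 8) (.nd (nat_lit 9) 
(.lf (nat_lit 447605) (.g (nat_lit 1952) (.e (nat_lit 375) (nat_lit 32) (.e (nat_lit 426173) (nat_lit 7) (.e (nat_lit 409616) (nat_lit 10) (.e (nat_lit 858) (nat_lit 75) (.e (nat_lit 778327) (nat_lit 6) (.e (nat_lit 81953) (nat_lit 22) (.e (nat_lit 98048) (nat_lit 0) .nil))))))) (.g (nat_lit 1) (.e (nat_lit 2323) (nat_lit 0) .nil) .nil))) 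
(.lf (nat_lit 448117) (.g (nat_lit 1155) (.e (nat_lit 436) (nat_lit 32) (.e (nat_lit 426188) (nat_lit 9) (.e (nat_lit 426566) (nat_lit 34) (.e (nat_lit 393253) (nat_lit 18) .nil)))) (.g (nat_lit 0) (.e (nat_lit 4753) (nat_lit 0) .nil) .nil)))) (.nd (nat_lit 9) 
(.lf (nat_lit 447861) (.g (nat_lit 4210) (.e (nat_lit 395) (nat_lit 32) (.e (nat_lit 426316) (nat_lit 12) (.e (nat_lit 475185) (nat_lit 29) (.e (nat_lit 557101) (nat_lit 13) (.e (nat_lit 172115) (nat_lit 10) (.e (nat_lit 434244) (nat_lit 28) (.e (nat_lit 573449) (nat_lit 9) .nil))))))) (.g (nat_lit 1) (.e (nat_lit 4146) (nat_lit 0) .nil) .nil))) 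
(.lf (nat_lit 448373) (.g (nat_lit 4041) (.e (nat_lit 430) (nat_lit 32) (.e (nat_lit 426300) (nat_lit 11) (.e (nat_lit 458789) (nat_lit 23) (.e (nat_lit 532569) (nat_lit 16) (.e (nat_lit 401448) (nat_lit 10) (.e (nat_lit 434247) (nat_lit 28) (.e (nat_lit 573457) (nat_lit 9) .nil))))))) (.g (nat_lit 1) (.e (nat_lit 5771) (nat_lit 0) .nil) .nil))))) (.nd (nat_lit 8) (.nd (nat_lit 9) 
(.lf (nat_lit 447733) (.g (nat_lit 3220) (.e (nat_lit 393) (nat_lit 32) (.e (nat_lit 426316) (nat_lit 12) (.e (nat_lit 475185) (nat_lit 29) (.e (nat_lit 557101) (nat_lit 13) .nil)))) (.g (nat_lit 0) (.e (nat_lit 3429) (nat_lit 0) .nil) .nil))) 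
(.lf (nat_lit 448245) (.g (nat_lit 3869) (.e (nat_lit 426) (nat_lit 32) (.e (nat_lit 426316) (nat_lit 12) (.e (nat_lit 475185) (nat_lit 29) (.e (nat_lit 557107) (nat_lit 15) (.e (nat_lit 188440) (nat_lit 20) (.e (nat_lit 3307) (nat_lit 202) (.e (nat_lit 573462) (nat_lit 9) .nil))))))) (.g (nat_lit 1) (.e (nat_lit 5296) (nat_lit 0) .nil) .nil)))) (.nd (nat_lit 9) 
(.lf (nat_lit 447989) (.g (nat_lit 4680) (.e (nat_lit 404) (nat_lit 32) (.e (nat_lit 426339) (nat_lit 14) (.e (nat_lit 491571) (nat_lit 13) (.e (nat_lit 393260) (nat_lit 21) (.e (nat_lit 409625) (nat_lit 10) .nil))))) (.g (nat_lit 0) (.e (nat_lit 4496) (nat_lit 0) .nil) .nil))) 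
(.lf (nat_lit 448501) (.g (nat_lit 491) (.e (nat_lit 430) (nat_lit 32) (.e (nat_lit 426343) (nat_lit 14) (.e (nat_lit 491540) (nat_lit 3) .nil))) (.g (nat_lit 0) (.e (nat_lit 5997) (nat_lit 0) .nil) .nil))))))))) (.nd (nat_lit 4) (.nd (nat_lit 5) (.nd (nat_lit 6) (.nd (nat_lit 7) (.nd (nat_lit 8) (.nd (nat_lit 9) 
(.lf (nat_lit 447501) (.g (nat_lit 6241) (.e (nat_lit 375) (nat_lit 32) (.e (nat_lit 426125) (nat_lit 2) (.e (nat_lit 196666) (nat_lit 13) (.e (nat_lit 65610) (nat_lit 10) (.e (nat_lit 344129) (nat_lit 26) (.e (nat_lit 557091) (nat_lit 12) (.e (nat_lit 164022) (nat_lit 46) (.e (nat_lit 704627) (nat_lit 9) .nil)))))))) (.g (nat_lit 1) (.e (nat_lit 2197) (nat_lit 0) .nil) .nil))) 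
(.lf (nat_lit 448013) (.g (nat_lit 4141) (.e (nat_lit 414) (nat_lit 32) (.e (nat_lit 426312) (nat_lit 12) (.e (nat_lit 475185) (nat_lit 29) (.e (nat_lit 557101) (nat_lit 13) (.e (nat_lit 172115) (nat_lit 10) (.e (nat_lit 434244) (nat_lit 28) (.e (nat_lit 573449) (nat_lit 9) .nil))))))) (.g (nat_lit 1) (.e (nat_lit 4565) (nat_lit 0) .nil) .nil)))) (.nd (nat_lit 9) 
(.lf (nat_lit 447757) (.g (nat_lit 3518) (.e (nat_lit 396) (nat_lit 32) (.e (nat_lit 426123) (nat_lit 2) (.e (nat_lit 196666) (nat_lit 13) (.e (nat_lit 65617) (nat_lit 10) (.e (nat_lit 344132) (nat_lit 26) .nil))))) (.g (nat_lit 0) (.e (nat_lit 3463) (nat_lit 0) .nil) .nil))) 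
(.lf (nat_lit 448269) (.g (nat_lit 1234) (.e (nat_lit 425) (nat_lit 32) (.e (nat_lit 426190) (nat_lit 9) (.e (nat_lit 426566) (nat_lit 34) (.e (nat_lit 393252) (nat_lit 18) .nil)))) (.g (nat_lit 0) (.e (nat_lit 5495) (nat_lit 0) .nil) .nil))))) (.nd (nat_lit 8) (.nd (nat_lit 9) 
(.lf (nat_lit 447629) (.g (nat_lit 4193) (.e (nat_lit 375) (nat_lit 32) (.e (nat_lit 426338) (nat_lit 14) (.e (nat_lit 491571) (nat_lit 13) (.e (nat_lit 393260) (nat_lit 21) (.e (nat_lit 409616) (nat_lit 10) .nil))))) (.g (nat_lit 0) (.e (nat_lit 2934) (nat_lit 0) .nil) .nil))) 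
(.lf (nat_lit 448141) (.g (nat_lit 2600) (.e (nat_lit 440) (nat_lit 32) (.e (nat_lit 426139) (nat_lit 3) (.e (nat_lit 204869) (nat_lit 29) (.e (nat_lit 360473) (nat_lit 8) (.e (nat_lit 557093) (nat_lit 12) .nil))))) (.g (nat_lit 0) (.e (nat_lit 4883) (nat_lit 0) .nil) .nil)))) (.nd (nat_lit 9) 
(.lf (nat_lit 447885) (.g (nat_lit 701) (.e (nat_lit 397) (nat_lit 32) (.e (nat_lit 426011) (nat_lit 0) (.e (nat_lit 7583) (nat_lit 405) .nil))) (.g (nat_lit 0) (.e (nat_lit 4223) (nat_lit 0) .nil) .nil))) 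
(.lf (nat_lit 448397) (.g (nat_lit 2472) (.e (nat_lit 430) (nat_lit 32) (.e (nat_lit 426308) (nat_lit 12) (.e (nat_lit 475184) (nat_lit 29) (.e (nat_lit 557098) (nat_lit 13) (.e (nat_lit 172105) (nat_lit 10) (.e (nat_lit 434248) (nat_lit 28) (.e (nat_lit 573452) (nat_lit 9) .nil))))))) (.g (nat_lit 1) (.e (nat_lit 5796) (nat_lit 0) .nil) .nil)))))) 
(.nd (nat_lit 7) (.nd (nat_lit 8) (.nd (nat_lit 9) 
(.lf (nat_lit 447565) (.g (nat_lit 4179) (.e (nat_lit 375) (nat_lit 32) (.e (nat_lit 426125) (nat_lit 2) (.e (nat_lit 196674) (nat_lit 15) (.e (nat_lit 81946) (nat_lit 20) (.e (nat_lit 1858) (nat_lit 124) .nil))))) (.g (nat_lit 0) (.e (nat_lit 2273) (nat_lit 0) .nil) .nil))) 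
(.lf (nat_lit 448077) (.g (nat_lit 2694) (.e (nat_lit 411) (nat_lit 32) (.e (nat_lit 426340) (nat_lit 14) (.e (nat_lit 491571) (nat_lit 13) (.e (nat_lit 393260) (nat_lit 21) (.e (nat_lit 409616) (nat_lit 10) (.e (nat_lit 7936) (nat_lit 298) .nil)))))) (.g (nat_lit 1) (.e (nat_lit 4683) (nat_lit 0) .nil) .nil)))) (.nd (nat_lit 9) 
(.lf (nat_lit 447821) (.g (nat_lit 744) (.e (nat_lit 396) (nat_lit 32) (.e (nat_lit 426343) (nat_lit 14) (.e (nat_lit 491539) (nat_lit 3) .nil))) (.g (nat_lit 0) (.e (nat_lit 3742) (nat_lit 0) .nil) .nil))) 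
(.lf (nat_lit 448333) (.g (nat_lit 3367) (.e (nat_lit 430) (nat_lit 32) (.e (nat_lit 426133) (nat_lit 3) (.e (nat_lit 204869) (nat_lit 29) (.e (nat_lit 360474) (nat_lit 8) (.e (nat_lit 557094) (nat_lit 12) .nil))))) (.g (nat_lit 0) (.e (nat_lit 5654) (nat_lit 0) .nil) .nil))))) (.nd (nat_lit 8) (.nd (nat_lit 9) 
(.lf (nat_lit 447693) (.g (nat_lit 3793) (.e (nat_lit 391) (nat_lit 32) (.e (nat_lit 426316) (nat_lit 12) (.e (nat_lit 475185) (nat_lit 29) (.e (nat_lit 557098) (nat_lit 13) (.e (nat_lit 172115) (nat_lit 10) .nil))))) (.g (nat_lit 0) (.e (nat_lit 3093) (nat_lit 0) .nil) .nil))) 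
(.lf (nat_lit 448205) (.g (nat_lit 1586) (.e (nat_lit 426) (nat_lit 32) (.e (nat_lit 426188) (nat_lit 9) (.e (nat_lit 426566) (nat_lit 34) (.e (nat_lit 393254) (nat_lit 18) (.e (nat_lit 164326) (nat_lit 230) (.e (nat_lit 163871) (nat_lit 2) (.e (nat_lit 196635) (nat_lit 9) .nil))))))) (.g (nat_lit 1) (.e (nat_lit 5230) (nat_lit 0) .nil) .nil)))) (.nd (nat_lit 9) 
(.lf (nat_lit 447949) (.g (nat_lit 2729) (.e (nat_lit 401) (nat_lit 32) (.e (nat_lit 426340) (nat_lit 14) (.e (nat_lit 491571) (nat_lit 13) (.e (nat_lit 393260) (nat_lit 21) (.e (nat_lit 409616) (nat_lit 10) (.e (nat_lit 7936) (nat_lit 298) .nil)))))) (.g (nat_lit 1) (.e (nat_lit 4402) (nat_lit 0) .nil) .nil))) 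
(.lf (nat_lit 448461) (.g (nat_lit 3762) (.e (nat_lit 430) (nat_lit 32) (.e (nat_lit 426343) (nat_lit 14) (.e (nat_lit 491526) (nat_lit 0) (.e (nat_lit 1788) (nat_lit 119) (.e (nat_lit 516165) (nat_lit 12) (.e (nat_lit 450586) (nat_lit 10) (.e (nat_lit 573452) (nat_lit 9) .nil))))))) (.g (nat_lit 1) (.e (nat_lit 5957) (nat_lit 0) .nil) .nil))))))) 
(.nd (nat_lit 6) (.nd (nat_lit 7) (.nd (nat_lit 8) (.nd (nat_lit 9) 
(.lf (nat_lit 447533) (.g (nat_lit 2939) (.e (nat_lit 375) (nat_lit 32) (.e (nat_lit 426125) (nat_lit 2) (.e (nat_lit 196666) (nat_lit 13) (.e (nat_lit 65610) (nat_lit 10) (.e (nat_lit 344132) (nat_lit 26) (.e (nat_lit 557091) (nat_lit 12) (.e (nat_lit 164022) (nat_lit 46) (.e (nat_lit 704626) (nat_lit 9) .nil)))))))) (.g (nat_lit 1) (.e (nat_lit 2231) (nat_lit 0) .nil) .nil))) 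
(.lf (nat_lit 448045) (.g (nat_lit 3221) (.e (nat_lit 411) (nat_lit 32) (.e (nat_lit 426136) (nat_lit 3) (.e (nat_lit 204869) (nat_lit 29) (.e (nat_lit 360474) (nat_lit 8) (.e (nat_lit 557091) (nat_lit 12) .nil))))) (.g (nat_lit 0) (.e (nat_lit 4617) (nat_lit 0) .nil) .nil)))) (.nd (nat_lit 9) 
(.lf (nat_lit 447789) (.g (nat_lit 2589) (.e (nat_lit 396) (nat_lit 32) (.e (nat_lit 426308) (nat_lit 12) (.e (nat_lit 475185) (nat_lit 29) (.e (nat_lit 557100) (nat_lit 13) (.e (nat_lit 172113) (nat_lit 10) (.e (nat_lit 434245) (nat_lit 28) (.e (nat_lit 573451) (nat_lit 9) .nil))))))) (.g (nat_lit 1) (.e (nat_lit 3549) (nat_lit 0) .nil) .nil))) 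
(.lf (nat_lit 448301) (.g (nat_lit 2315) (.e (nat_lit 430) (nat_lit 32) (.e (nat_lit 426011) (nat_lit 0) (.e (nat_lit 7523) (nat_lit 402) (.e (nat_lit 1234) (nat_lit 91) (.e (nat_lit 90170) (nat_lit 13) (.e (nat_lit 172113) (nat_lit 10) (.e (nat_lit 434247) (nat_lit 28) (.e (nat_lit 573456) (nat_lit 9) .nil)))))))) (.g (nat_lit 1) (.e (nat_lit 5541) (nat_lit 0) .nil) .nil))))) 
(.nd (nat_lit 8) (.nd (nat_lit 9) 
(.lf (nat_lit 447661) (.g (nat_lit 4221) (.e (nat_lit 388) (nat_lit 32) (.e (nat_lit 426338) (nat_lit 14) (.e (nat_lit 491571) (nat_lit 13) (.e (nat_lit 393260) (nat_lit 21) (.e (nat_lit 409616) (nat_lit 10) (.e (nat_lit 7936) (nat_lit 298) .nil)))))) (.g (nat_lit 1) (.e (nat_lit 3028) (nat_lit 0) .nil) .nil))) 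
(.lf (nat_lit 448173) (.g (nat_lit 3745) (.e (nat_lit 416) (nat_lit 32) (.e (nat_lit 426316) (nat_lit 12) (.e (nat_lit 475185) (nat_lit 29) (.e (nat_lit 557098) (nat_lit 13) (.e (nat_lit 172115) (nat_lit 10) (.e (nat_lit 434244) (nat_lit 28) (.e (nat_lit 573450) (nat_lit 9) .nil))))))) (.g (nat_lit 1) (.e (nat_lit 4942) (nat_lit 0) .nil) .nil)))) (.nd (nat_lit 9) 
(.lf (nat_lit 447917) (.g (nat_lit 2067) (.e (nat_lit 398) (nat_lit 32) (.e (nat_lit 426190) (nat_lit 9) (.e (nat_lit 426566) (nat_lit 34) (.e (nat_lit 393251) (nat_lit 18) (.e (nat_lit 164325) (nat_lit 230) .nil))))) (.g (nat_lit 0) (.e (nat_lit 4304) (nat_lit 0) .nil) .nil))) 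
(.lf (nat_lit 448429) (.g (nat_lit 3582) (.e (nat_lit 430) (nat_lit 32) (.e (nat_lit 426338) (nat_lit 14) (.e (nat_lit 491540) (nat_lit 3) (.e (nat_lit 98373) (nat_lit 29) (.e (nat_lit 450587) (nat_lit 10) (.e (nat_lit 573452) (nat_lit 9) .nil)))))) (.g (nat_lit 1) (.e (nat_lit 5924) (nat_lit 0) .nil) .nil)))))) (.nd (nat_lit 7) (.nd (nat_lit 8) (.nd (nat_lit 9) 
(.lf (nat_lit 447597) (.g (nat_lit 3423) (.e (nat_lit 375) (nat_lit 32) (.e (nat_lit 426140) (nat_lit 3) (.e (nat_lit 204869) (nat_lit 29) (.e (nat_lit 360474) (nat_lit 8) (.e (nat_lit 557093) (nat_lit 12) (.e (nat_lit 164023) (nat_lit 46) (.e (nat_lit 704628) (nat_lit 9) .nil))))))) (.g (nat_lit 1) (.e (nat_lit 2312) (nat_lit 0) .nil) .nil))) 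
(.lf (nat_lit 448109) (.g (nat_lit 4197) (.e (nat_lit 436) (nat_lit 32) (.e (nat_lit 426139) (nat_lit 3) (.e (nat_lit 204869) (nat_lit 29) (.e (nat_lit 360474) (nat_lit 8) (.e (nat_lit 557093) (nat_lit 12) (.e (nat_lit 164022) (nat_lit 46) (.e (nat_lit 704626) (nat_lit 9) .nil))))))) (.g (nat_lit 1) (.e (nat_lit 4744) (nat_lit 0) .nil) .nil)))) (.nd (nat_lit 9) 
(.lf (nat_lit 447853) (.g (nat_lit 491) (.e (nat_lit 395) (nat_lit 32) (.e (nat_lit 426316) (nat_lit 12) (.e (nat_lit 475185) (nat_lit 29) .nil))) (.g (nat_lit 0) (.e (nat_lit 4133) (nat_lit 0) .nil) .nil))) 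
(.lf (nat_lit 448365) (.g (nat_lit 2252) (.e (nat_lit 430) (nat_lit 32) (.e (nat_lit 426298) (nat_lit 11) (.e (nat_lit 458789) (nat_lit 23) (.e (nat_lit 532482) (nat_lit 0) (.e (nat_lit 6722) (nat_lit 362) (.e (nat_lit 180252) (nat_lit 10) (.e (nat_lit 573452) (nat_lit 9) .nil))))))) (.g (nat_lit 1) (.e (nat_lit 5763) (nat_lit 0) .nil) .nil))))) (.nd (nat_lit 8) (.nd (nat_lit 9) 
(.lf (nat_lit 447725) (.g (nat_lit 1637) (.e (nat_lit 392) (nat_lit 32) (.e (nat_lit 426343) (nat_lit 14) (.e (nat_lit 491570) (nat_lit 13) (.e (nat_lit 393260) (nat_lit 21) .nil)))) (.g (nat_lit 0) (.e (nat_lit 3392) (nat_lit 0) .nil) .nil))) 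
(.lf (nat_lit 448237) (.g (nat_lit 3048) (.e (nat_lit 426) (nat_lit 32) (.e (nat_lit 426316) (nat_lit 12) (.e (nat_lit 475184) (nat_lit 29) (.e (nat_lit 557100) (nat_lit 13) (.e (nat_lit 172113) (nat_lit 10) .nil))))) (.g (nat_lit 0) (.e (nat_lit 5285) (nat_lit 0) .nil) .nil)))) (.nd (nat_lit 9) 
(.lf (nat_lit 447981) (.g (nat_lit 3427) (.e (nat_lit 403) (nat_lit 32) (.e (nat_lit 426340) (nat_lit 14) (.e (nat_lit 491571) (nat_lit 13) (.e (nat_lit 393260) (nat_lit 21) (.e (nat_lit 409614) (nat_lit 10) (.e (nat_lit 5315) (nat_lit 298) .nil)))))) (.g (nat_lit 1) (.e (nat_lit 4460) (nat_lit 0) .nil) .nil))) 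
(.lf (nat_lit 448493) (.g (nat_lit 2698) (.e (nat_lit 430) (nat_lit 32) (.e (nat_lit 426343) (nat_lit 14) (.e (nat_lit 491539) (nat_lit 3) (.e (nat_lit 98372) (nat_lit 29) (.e (nat_lit 450586) (nat_lit 10) (.e (nat_lit 573457) (nat_lit 9) .nil)))))) (.g (nat_lit 1) (.e (nat_lit 5989) (nat_lit 0) .nil) .nil)))))))) 
(.nd (nat_lit 5) (.nd (nat_lit 6) (.nd (nat_lit 7) (.nd (nat_lit 8) (.nd (nat_lit 9) 
(.lf (nat_lit 447517) (.g (nat_lit 4840) (.e (nat_lit 375) (nat_lit 32) (.e (nat_lit 426125) (nat_lit 2) (.e (nat_lit 196666) (nat_lit 13) (.e (nat_lit 65610) (nat_lit 10) (.e (nat_lit 344130) (nat_lit 26) (.e (nat_lit 557090) (nat_lit 12) (.e (nat_lit 164022) (nat_lit 46) (.e (nat_lit 704627) (nat_lit 9) .nil)))))))) (.g (nat_lit 1) (.e (nat_lit 2215) (nat_lit 0) .nil) .nil))) 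
(.lf (nat_lit 448029) (.g (nat_lit 3082) (.e (nat_lit 411) (nat_lit 32) (.e (nat_lit 426125) (nat_lit 2) (.e (nat_lit 196666) (nat_lit 13) (.e (nat_lit 65610) (nat_lit 10) (.e (nat_lit 344133) (nat_lit 26) .nil))))) (.g (nat_lit 0) (.e (nat_lit 4601) (nat_lit 0) .nil) .nil)))) (.nd (nat_lit 9) 
(.lf (nat_lit 447773) (.g (nat_lit 1223) (.e (nat_lit 396) (nat_lit 32) (.e (nat_lit 426190) (nat_lit 9) (.e (nat_lit 426566) (nat_lit 34) (.e (nat_lit 393253) (nat_lit 18) .nil)))) (.g (nat_lit 0) (.e (nat_lit 3519) (nat_lit 0) .nil) .nil))) 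
(.lf (nat_lit 448285) (.g (nat_lit 2416) (.e (nat_lit 430) (nat_lit 32) (.e (nat_lit 426010) (nat_lit 0) (.e (nat_lit 7486) (nat_lit 402) (.e (nat_lit 1256) (nat_lit 92) (.e (nat_lit 98373) (nat_lit 29) (.e (nat_lit 450587) (nat_lit 10) (.e (nat_lit 573457) (nat_lit 9) .nil))))))) (.g (nat_lit 1) (.e (nat_lit 5521) (nat_lit 0) .nil) .nil))))) (.nd (nat_lit 8) (.nd (nat_lit 9) 
(.lf (nat_lit 447645) (.g (nat_lit 1299) (.e (nat_lit 385) (nat_lit 32) (.e (nat_lit 426347) (nat_lit 14) (.e (nat_lit 491537) (nat_lit 2) (.e (nat_lit 90170) (nat_lit 13) .nil)))) (.g (nat_lit 0) (.e (nat_lit 2976) (nat_lit 0) .nil) .nil))) 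
(.lf (nat_lit 448157) (.g (nat_lit 3279) (.e (nat_lit 416) (nat_lit 32) (.e (nat_lit 426123) (nat_lit 2) (.e (nat_lit 196666) (nat_lit 13) (.e (nat_lit 65617) (nat_lit 10) (.e (nat_lit 344127) (nat_lit 26) (.e (nat_lit 557090) (nat_lit 12) (.e (nat_lit 164022) (nat_lit 46) (.e (nat_lit 704629) (nat_lit 9) .nil)))))))) (.g (nat_lit 1) (.e (nat_lit 4913) (nat_lit 0) .nil) .nil)))) (.nd (nat_lit 9) 
(.lf (nat_lit 447901) (.g (nat_lit 670) (.e (nat_lit 397) (nat_lit 32) (.e (nat_lit 426341) (nat_lit 14) (.e (nat_lit 491539) (nat_lit 3) .nil))) (.g (nat_lit 0) (.e (nat_lit 4283) (nat_lit 0) .nil) .nil))) 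
(.lf (nat_lit 448413) (.g (nat_lit 3137) (.e (nat_lit 430) (nat_lit 32) (.e (nat_lit 426315) (nat_lit 12) (.e (nat_lit 475183) (nat_lit 29) (.e (nat_lit 557100) (nat_lit 13) (.e (nat_lit 172113) (nat_lit 10) (.e (nat_lit 434245) (nat_lit 28) (.e (nat_lit 573451) (nat_lit 9) .nil))))))) (.g (nat_lit 1) (.e (nat_lit 5812) (nat_lit 0) .nil) .nil)))))) 
(.nd (nat_lit 7) (.nd (nat_lit 8) (.nd (nat_lit 9) 
(.lf (nat_lit 447581) (.g (nat_lit 3311) (.e (nat_lit 375) (nat_lit 32) (.e (nat_lit 426140) (nat_lit 3) (.e (nat_lit 204868) (nat_lit 29) (.e (nat_lit 360473) (nat_lit 8) (.e (nat_lit 557093) (nat_lit 12) (.e (nat_lit 164022) (nat_lit 46) (.e (nat_lit 704626) (nat_lit 9) .nil))))))) (.g (nat_lit 1) (.e (nat_lit 2296) (nat_lit 0) .nil) .nil))) 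
(.lf (nat_lit 448093) (.g (nat_lit 3347) (.e (nat_lit 436) (nat_lit 32) (.e (nat_lit 426123) (nat_lit 2) (.e (nat_lit 196666) (nat_lit 13) (.e (nat_lit 65617) (nat_lit 10) (.e (nat_lit 344130) (nat_lit 26) (.e (nat_lit 557090) (nat_lit 12) (.e (nat_lit 164022) (nat_lit 46) (.e (nat_lit 704627) (nat_lit 9) .nil)))))))) (.g (nat_lit 1) (.e (nat_lit 4711) (nat_lit 0) .nil) .nil)))) (.nd (nat_lit 9) 
(.lf (nat_lit 447837) (.g (nat_lit 2049) (.e (nat_lit 394) (nat_lit 32) (.e (nat_lit 426316) (nat_lit 12) (.e (nat_lit 475185) (nat_lit 29) (.e (nat_lit 557107) (nat_lit 15) (.e (nat_lit 188440) (nat_lit 20) .nil))))) (.g (nat_lit 0) (.e (nat_lit 3970) (nat_lit 0) .nil) .nil))) 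
(.lf (nat_lit 448349) (.g (nat_lit 1803) (.e (nat_lit 430) (nat_lit 32) (.e (nat_lit 426190) (nat_lit 9) (.e (nat_lit 426566) (nat_lit 34) (.e (nat_lit 393253) (nat_lit 18) (.e (nat_lit 164324) (nat_lit 230) .nil))))) (.g (nat_lit 0) (.e (nat_lit 5701) (nat_lit 0) .nil) .nil))))) (.nd (nat_lit 8) (.nd (nat_lit 9) 
(.lf (nat_lit 447709) (.g (nat_lit 1972) (.e (nat_lit 392) (nat_lit 32) (.e (nat_lit 426316) (nat_lit 12) (.e (nat_lit 475185) (nat_lit 29) (.e (nat_lit 557101) (nat_lit 13) .nil)))) (.g (nat_lit 0) (.e (nat_lit 3331) (nat_lit 0) .nil) .nil))) 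
(.lf (nat_lit 448221) (.g (nat_lit 4311) (.e (nat_lit 426) (nat_lit 32) (.e (nat_lit 426308) (nat_lit 12) (.e (nat_lit 475183) (nat_lit 29) (.e (nat_lit 557101) (nat_lit 13) (.e (nat_lit 172115) (nat_lit 10) (.e (nat_lit 434244) (nat_lit 28) (.e (nat_lit 573458) (nat_lit 9) .nil))))))) (.g (nat_lit 1) (.e (nat_lit 5268) (nat_lit 0) .nil) .nil)))) (.nd (nat_lit 9) 
(.lf (nat_lit 447965) (.g (nat_lit 1962) (.e (nat_lit 403) (nat_lit 32) (.e (nat_lit 426340) (nat_lit 14) (.e (nat_lit 491549) (nat_lit 9) (.e (nat_lit 336421) (nat_lit 28) (.e (nat_lit 434197) (nat_lit 16) (.e (nat_lit 164340) (nat_lit 232) .nil)))))) (.g (nat_lit 1) (.e (nat_lit 4443) (nat_lit 0) .nil) .nil))) 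
(.lf (nat_lit 448477) (.g (nat_lit 1818) (.e (nat_lit 430) (nat_lit 32) (.e (nat_lit 426343) (nat_lit 14) (.e (nat_lit 491536) (nat_lit 2) (.e (nat_lit 90178) (nat_lit 15) (.e (nat_lit 188440) (nat_lit 20) .nil))))) (.g (nat_lit 0) (.e (nat_lit 5973) (nat_lit 0) .nil) .nil))))))) (.nd (nat_lit 6) (.nd (nat_lit 7) (.nd (nat_lit 8) (.nd (nat_lit 9) 
(.lf (nat_lit 447549) (.g (nat_lit 4692) (.e (nat_lit 375) (nat_lit 32) (.e (nat_lit 426125) (nat_lit 2) (.e (nat_lit 196666) (nat_lit 13) (.e (nat_lit 65614) (nat_lit 10) (.e (nat_lit 344132) (nat_lit 26) (.e (nat_lit 557093) (nat_lit 12) (.e (nat_lit 164022) (nat_lit 46) (.e (nat_lit 704627) (nat_lit 9) .nil)))))))) (.g (nat_lit 1) (.e (nat_lit 2254) (nat_lit 0) .nil) .nil))) 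
(.lf (nat_lit 448061) (.g (nat_lit 3719) (.e (nat_lit 411) (nat_lit 32) (.e (nat_lit 426140) (nat_lit 3) (.e (nat_lit 204869) (nat_lit 29) (.e (nat_lit 360474) (nat_lit 8) (.e (nat_lit 557094) (nat_lit 12) (.e (nat_lit 164022) (nat_lit 46) (.e (nat_lit 704628) (nat_lit 9) .nil))))))) (.g (nat_lit 1) (.e (nat_lit 4643) (nat_lit 0) .nil) .nil)))) (.nd (nat_lit 9) 
(.lf (nat_lit 447805) (.g (nat_lit 2231) (.e (nat_lit 396) (nat_lit 32) (.e (nat_lit 426338) (nat_lit 14) (.e (nat_lit 491537) (nat_lit 2) (.e (nat_lit 90170) (nat_lit 13) (.e (nat_lit 172106) (nat_lit 10) (.e (nat_lit 434244) (nat_lit 28) (.e (nat_lit 573451) (nat_lit 9) .nil))))))) (.g (nat_lit 1) (.e (nat_lit 3726) (nat_lit 0) .nil) .nil))) 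
(.lf (nat_lit 448317) (.g (nat_lit 3766) (.e (nat_lit 430) (nat_lit 32) (.e (nat_lit 426011) (nat_lit 0) (.e (nat_lit 7583) (nat_lit 405) (.e (nat_lit 57464) (nat_lit 23) (.e (nat_lit 516166) (nat_lit 12) (.e (nat_lit 450588) (nat_lit 10) (.e (nat_lit 573457) (nat_lit 9) .nil))))))) (.g (nat_lit 1) (.e (nat_lit 5557) (nat_lit 0) .nil) .nil))))) (.nd (nat_lit 8) (.nd (nat_lit 9) 
(.lf (nat_lit 447677) (.g (nat_lit 2718) (.e (nat_lit 389) (nat_lit 32) (.e (nat_lit 426315) (nat_lit 12) (.e (nat_lit 475185) (nat_lit 29) (.e (nat_lit 557101) (nat_lit 13) (.e (nat_lit 172115) (nat_lit 10) (.e (nat_lit 434244) (nat_lit 28) (.e (nat_lit 573450) (nat_lit 9) .nil))))))) (.g (nat_lit 1) (.e (nat_lit 3056) (nat_lit 0) .nil) .nil))) 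
(.lf (nat_lit 448189) (.g (nat_lit 3002) (.e (nat_lit 422) (nat_lit 32) (.e (nat_lit 426316) (nat_lit 12) (.e (nat_lit 475185) (nat_lit 29) (.e (nat_lit 557101) (nat_lit 13) .nil)))) (.g (nat_lit 0) (.e (nat_lit 5030) (nat_lit 0) .nil) .nil)))) (.nd (nat_lit 9) 
(.lf (nat_lit 447933) (.g (nat_lit 1935) (.e (nat_lit 401) (nat_lit 32) (.e (nat_lit 426340) (nat_lit 14) (.e (nat_lit 491549) (nat_lit 9) (.e (nat_lit 336421) (nat_lit 28) (.e (nat_lit 434197) (nat_lit 16) (.e (nat_lit 164337) (nat_lit 232) .nil)))))) (.g (nat_lit 1) (.e (nat_lit 4372) (nat_lit 0) .nil) .nil))) 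
(.lf (nat_lit 448445) (.g (nat_lit 2046) (.e (nat_lit 430) (nat_lit 32) (.e (nat_lit 426342) (nat_lit 14) (.e (nat_lit 491539) (nat_lit 3) (.e (nat_lit 98372) (nat_lit 29) (.e (nat_lit 450586) (nat_lit 10) (.e (nat_lit 573452) (nat_lit 9) .nil)))))) (.g (nat_lit 1) (.e (nat_lit 5940) (nat_lit 0) .nil) .nil)))))) (.nd (nat_lit 7) (.nd (nat_lit 8) (.nd (nat_lit 9) 
(.lf (nat_lit 447613) (.g (nat_lit 3258) (.e (nat_lit 375) (nat_lit 32) (.e (nat_lit 426173) (nat_lit 7) (.e (nat_lit 409617) (nat_lit 10) (.e (nat_lit 934) (nat_lit 76) (.e (nat_lit 786480) (nat_lit 29) (.e (nat_lit 352312) (nat_lit 22) (.e (nat_lit 98048) (nat_lit 0) .nil))))))) (.g (nat_lit 1) (.e (nat_lit 2382) (nat_lit 0) .nil) .nil))) 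
(.lf (nat_lit 448125) (.g (nat_lit 3089) (.e (nat_lit 437) (nat_lit 32) (.e (nat_lit 426316) (nat_lit 12) (.e (nat_lit 475185) (nat_lit 29) (.e (nat_lit 557100) (nat_lit 13) .nil)))) (.g (nat_lit 0) (.e (nat_lit 4796) (nat_lit 0) .nil) .nil)))) (.nd (nat_lit 9) 
(.lf (nat_lit 447869) (.g (nat_lit 3790) (.e (nat_lit 399) (nat_lit 32) (.e (nat_lit 426121) (nat_lit 2) (.e (nat_lit 196666) (nat_lit 13) (.e (nat_lit 65617) (nat_lit 10) (.e (nat_lit 344132) (nat_lit 26) (.e (nat_lit 557093) (nat_lit 12) (.e (nat_lit 164022) (nat_lit 46) (.e (nat_lit 704628) (nat_lit 9) .nil)))))))) (.g (nat_lit 1) (.e (nat_lit 4192) (nat_lit 0) .nil) .nil))) 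
(.lf (nat_lit 448381) (.g (nat_lit 4107) (.e (nat_lit 430) (nat_lit 32) (.e (nat_lit 426306) (nat_lit 12) (.e (nat_lit 475185) (nat_lit 29) (.e (nat_lit 557100) (nat_lit 13) (.e (nat_lit 172113) (nat_lit 10) (.e (nat_lit 434247) (nat_lit 28) (.e (nat_lit 573457) (nat_lit 9) .nil))))))) (.g (nat_lit 1) (.e (nat_lit 5779) (nat_lit 0) .nil) .nil))))) (.nd (nat_lit 8) (.nd (nat_lit 9) 
(.lf (nat_lit 447741) (.g (nat_lit 2338) (.e (nat_lit 396) (nat_lit 32) (.e (nat_lit 426121) (nat_lit 2) (.e (nat_lit 196666) (nat_lit 13) (.e (nat_lit 65617) (nat_lit 10) (.e (nat_lit 344130) (nat_lit 26) .nil))))) (.g (nat_lit 0) (.e (nat_lit 3447) (nat_lit 0) .nil) .nil))) 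
(.lf (nat_lit 448253) (.g (nat_lit 2327) (.e (nat_lit 426) (nat_lit 32) (.e (nat_lit 426342) (nat_lit 14) (.e (nat_lit 491537) (nat_lit 2) (.e (nat_lit 90170) (nat_lit 13) (.e (nat_lit 172106) (nat_lit 10) (.e (nat_lit 434244) (nat_lit 28) (.e (nat_lit 573458) (nat_lit 9) .nil))))))) (.g (nat_lit 1) (.e (nat_lit 5416) (nat_lit 0) .nil) .nil)))) (.nd (nat_lit 9) 
(.lf (nat_lit 447997) (.g (nat_lit 2235) (.e (nat_lit 404) (nat_lit 32) (.e (nat_lit 426340) (nat_lit 14) (.e (nat_lit 491571) (nat_lit 13) (.e (nat_lit 393260) (nat_lit 21) (.e (nat_lit 409616) (nat_lit 10) (.e (nat_lit 7936) (nat_lit 298) .nil)))))) (.g (nat_lit 1) (.e (nat_lit 4511) (nat_lit 0) .nil) .nil))) 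
(.lf (nat_lit 448509) (.g (nat_lit 4290) (.e (nat_lit 430) (nat_lit 32) (.e (nat_lit 426343) (nat_lit 14) (.e (nat_lit 491540) (nat_lit 3) (.e (nat_lit 98373) (nat_lit 29) (.e (nat_lit 450588) (nat_lit 10) (.e (nat_lit 573452) (nat_lit 9) .nil)))))) (.g (nat_lit 1) (.e (nat_lit 6005) (nat_lit 0) .nil) .nil))))))))))) 
(.nd (nat_lit 2) (.nd (nat_lit 3) (.nd (nat_lit 4) (.nd (nat_lit 5) (.nd (nat_lit 6) 
(.nd (nat_lit 7) (.nd (nat_lit 8) (.nd (nat_lit 9) 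
(.lf (nat_lit 447491) (.g (nat_lit 2989) (.e (nat_lit 375) (nat_lit 32) (.e (nat_lit 426125) (nat_lit 2) (.e (nat_lit 196666) (nat_lit 13) (.e (nat_lit 65610) (nat_lit 10) (.e (nat_lit 344129) (nat_lit 26) (.e (nat_lit 557088) (nat_lit 12) (.e (nat_lit 164022) (nat_lit 46) (.e (nat_lit 704628) (nat_lit 9) .nil)))))))) (.g (nat_lit 1) (.e (nat_lit 2186) (nat_lit 0) .nil) .nil))) 
(.lf (nat_lit 448003) (.g (nat_lit 1062) (.e (nat_lit 402) (nat_lit 32) (.e (nat_lit 426338) (nat_lit 14) (.e (nat_lit 491570) (nat_lit 13) (.e (nat_lit 393260) (nat_lit 21) .nil)))) (.g (nat_lit 0) (.e (nat_lit 4520) (nat_lit 0) .nil) .nil)))) (.nd (nat_lit 9) 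
(.lf (nat_lit 447747) (.g (nat_lit 3175) (.e (nat_lit 396) (nat_lit 32) (.e (nat_lit 426121) (nat_lit 2) (.e (nat_lit 196666) (nat_lit 13) (.e (nat_lit 65617) (nat_lit 10) (.e (nat_lit 344133) (nat_lit 26) (.e (nat_lit 557091) (nat_lit 12) (.e (nat_lit 164022) (nat_lit 46) (.e (nat_lit 704626) (nat_lit 9) .nil)))))))) (.g (nat_lit 1) (.e (nat_lit 3453) (nat_lit 0) .nil) .nil))) 
(.lf (nat_lit 448259) (.g (nat_lit 1686) (.e (nat_lit 426) (nat_lit 32) (.e (nat_lit 426343) (nat_lit 14) (.e (nat_lit 491570) (nat_lit 13) (.e (nat_lit 393260) (nat_lit 21) .nil)))) (.g (nat_lit 0) (.e (nat_lit 5422) (nat_lit 0) .nil) .nil))))) (.nd (nat_lit 8) (.nd (nat_lit 9) 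
(.lf (nat_lit 447619) (.g (nat_lit 2353) (.e (nat_lit 375) (nat_lit 32) (.e (nat_lit 426201) (nat_lit 9) (.e (nat_lit 426568) (nat_lit 34) (.e (nat_lit 393253) (nat_lit 18) (.e (nat_lit 164332) (nat_lit 230) (.e (nat_lit 163869) (nat_lit 2) (.e (nat_lit 196624) (nat_lit 9) .nil))))))) (.g (nat_lit 1) (.e (nat_lit 2892) (nat_lit 0) .nil) .nil))) 
(.lf (nat_lit 448131) (.g (nat_lit 3371) (.e (nat_lit 438) (nat_lit 32) (.e (nat_lit 426316) (nat_lit 12) (.e (nat_lit 475185) (nat_lit 29) (.e (nat_lit 557100) (nat_lit 13) .nil)))) (.g (nat_lit 0) (.e (nat_lit 4824) (nat_lit 0) .nil) .nil)))) (.nd (nat_lit 9) 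
(.lf (nat_lit 447875) (.g (nat_lit 3285) (.e (nat_lit 399) (nat_lit 32) (.e (nat_lit 426123) (nat_lit 2) (.e (nat_lit 196666) (nat_lit 13) (.e (nat_lit 65617) (nat_lit 10) (.e (nat_lit 344132) (nat_lit 26) (.e (nat_lit 557093) (nat_lit 12) (.e (nat_lit 164023) (nat_lit 46) (.e (nat_lit 704626) (nat_lit 9) .nil)))))))) (.g (nat_lit 1) (.e (nat_lit 4198) (nat_lit 0) .nil) .nil))) 
(.lf (nat_lit 448387) (.g (nat_lit 2653) (.e (nat_lit 430) (nat_lit 32) (.e (nat_lit 426308) (nat_lit 12) (.e (nat_lit 475183) (nat_lit 29) (.e (nat_lit 557098) (nat_lit 13) (.e (nat_lit 172105) (nat_lit 10) .nil))))) (.g (nat_lit 0) (.e (nat_lit 5786) (nat_lit 0) .nil) .nil)))))) (.nd (nat_lit 7) (.nd (nat_lit 8) (.nd (nat_lit 9) 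
(.lf (nat_lit 447555) (.g (nat_lit 2252) (.e (nat_lit 375) (nat_lit 32) (.e (nat_lit 426125) (nat_lit 2) (.e (nat_lit 196666) (nat_lit 13) (.e (nat_lit 65617) (nat_lit 10) (.e (nat_lit 344127) (nat_lit 26) (.e (nat_lit 557093) (nat_lit 12) (.e (nat_lit 164022) (nat_lit 46) (.e (nat_lit 704628) (nat_lit 9) .nil)))))))) (.g (nat_lit 1) (.e (nat_lit 2262) (nat_lit 0) .nil) .nil))) 
(.lf (nat_lit 448067) (.g (nat_lit 4095) (.e (nat_lit 411) (nat_lit 32) (.e (nat_lit 426195) (nat_lit 9) (.e (nat_lit 426566) (nat_lit 34) (.e (nat_lit 393253) (nat_lit 18) (.e (nat_lit 164329) (nat_lit 230) (.e (nat_lit 163867) (nat_lit 2) (.e (nat_lit 196624) (nat_lit 9) .nil))))))) (.g (nat_lit 1) (.e (nat_lit 4650) (nat_lit 0) .nil) .nil)))) (.nd (nat_lit 9) 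
(.lf (nat_lit 447811) (.g (nat_lit 4669) (.e (nat_lit 396) (nat_lit 32) (.e (nat_lit 426343) (nat_lit 14) (.e (nat_lit 491535) (nat_lit 2) (.e (nat_lit 90170) (nat_lit 13) (.e (nat_lit 172106) (nat_lit 10) (.e (nat_lit 434244) (nat_lit 28) (.e (nat_lit 573451) (nat_lit 9) .nil))))))) (.g (nat_lit 1) (.e (nat_lit 3732) (nat_lit 0) .nil) .nil))) 
(.lf (nat_lit 448323) (.g (nat_lit 3820) (.e (nat_lit 430) (nat_lit 32) (.e (nat_lit 426012) (nat_lit 0) (.e (nat_lit 7490) (nat_lit 402) (.e (nat_lit 1256) (nat_lit 92) (.e (nat_lit 98373) (nat_lit 29) (.e (nat_lit 450588) (nat_lit 10) (.e (nat_lit 573457) (nat_lit 9) .nil))))))) (.g (nat_lit 1) (.e (nat_lit 5563) (nat_lit 0) .nil) .nil))))) (.nd (nat_lit 8) (.nd (nat_lit 9) 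
(.lf (nat_lit 447683) (.g (nat_lit 3588) (.e (nat_lit 391) (nat_lit 32) (.e (nat_lit 426123) (nat_lit 2) (.e (nat_lit 196666) (nat_lit 13) (.e (nat_lit 65617) (nat_lit 10) (.e (nat_lit 344132) (nat_lit 26) (.e (nat_lit 557094) (nat_lit 12) (.e (nat_lit 164022) (nat_lit 46) (.e (nat_lit 704627) (nat_lit 9) .nil)))))))) (.g (nat_lit 1) (.e (nat_lit 3075) (nat_lit 0) .nil) .nil))) 
(.lf (nat_lit 448195) (.g (nat_lit 2906) (.e (nat_lit 423) (nat_lit 32) (.e (nat_lit 426343) (nat_lit 14) (.e (nat_lit 491570) (nat_lit 13) (.e (nat_lit 393260) (nat_lit 21) (.e (nat_lit 409617) (nat_lit 10) .nil))))) (.g (nat_lit 0) (.e (nat_lit 5056) (nat_lit 0) .nil) .nil)))) (.nd (nat_lit 9) 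
(.lf (nat_lit 447939) (.g (nat_lit 1505) (.e (nat_lit 401) (nat_lit 32) (.e (nat_lit 426340) (nat_lit 14) (.e (nat_lit 491550) (nat_lit 9) (.e (nat_lit 336421) (nat_lit 28) (.e (nat_lit 434197) (nat_lit 16) (.e (nat_lit 164338) (nat_lit 232) .nil)))))) (.g (nat_lit 1) (.e (nat_lit 4381) (nat_lit 0) .nil) .nil))) 
(.lf (nat_lit 448451) (.g (nat_lit 2364) (.e (nat_lit 430) (nat_lit 32) (.e (nat_lit 426342) (nat_lit 14) (.e (nat_lit 491540) (nat_lit 3) (.e (nat_lit 98372) (nat_lit 29) (.e (nat_lit 450586) (nat_lit 10) (.e (nat_lit 573457) (nat_lit 9) .nil)))))) (.g (nat_lit 1) (.e (nat_lit 5946) (nat_lit 0) .nil) .nil))))))) (.nd (nat_lit 6) (.nd (nat_lit 7) (.nd (nat_lit 8) (.nd (nat_lit 9) 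
(.lf (nat_lit 447523) (.g (nat_lit 5490) (.e (nat_lit 375) (nat_lit 32) (.e (nat_lit 426125) (nat_lit 2) (.e (nat_lit 196666) (nat_lit 13) (.e (nat_lit 65610) (nat_lit 10) (.e (nat_lit 344131) (nat_lit 26) (.e (nat_lit 557091) (nat_lit 12) (.e (nat_lit 164022) (nat_lit 46) (.e (nat_lit 704629) (nat_lit 9) .nil)))))))) (.g (nat_lit 1) (.e (nat_lit 2221) (nat_lit 0) .nil) .nil))) 
(.lf (nat_lit 448035) (.g (nat_lit 4030) (.e (nat_lit 411) (nat_lit 32) (.e (nat_lit 426125) (nat_lit 2) (.e (nat_lit 196666) (nat_lit 13) (.e (nat_lit 65617) (nat_lit 10) (.e (nat_lit 344132) (nat_lit 26) (.e (nat_lit 557093) (nat_lit 12) (.e (nat_lit 164022) (nat_lit 46) (.e (nat_lit 704628) (nat_lit 9) .nil)))))))) (.g (nat_lit 1) (.e (nat_lit 4607) (nat_lit 0) .nil) .nil)))) (.nd (nat_lit 9) 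
(.lf (nat_lit 447779) (.g (nat_lit 2368) (.e (nat_lit 396) (nat_lit 32) (.e (nat_lit 426305) (nat_lit 12) (.e (nat_lit 475185) (nat_lit 29) (.e (nat_lit 557100) (nat_lit 13) (.e (nat_lit 172113) (nat_lit 10) (.e (nat_lit 434248) (nat_lit 28) (.e (nat_lit 573452) (nat_lit 9) .nil))))))) (.g (nat_lit 1) (.e (nat_lit 3537) (nat_lit 0) .nil) .nil))) 
(.lf (nat_lit 448291) (.g (nat_lit 1978) (.e (nat_lit 430) (nat_lit 32) (.e (nat_lit 426011) (nat_lit 0) (.e (nat_lit 3546) (nat_lit 219) (.e (nat_lit 712753) (nat_lit 30) (.e (nat_lit 450586) (nat_lit 10) (.e (nat_lit 573473) (nat_lit 12) (.e (nat_lit 57508) (nat_lit 39) (.e (nat_lit 647190) (nat_lit 9) .nil)))))))) (.g (nat_lit 1) (.e (nat_lit 5527) (nat_lit 0) .nil) .nil))))) 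
(.nd (nat_lit 8) (.nd (nat_lit 9) 
(.lf (nat_lit 447651) (.g (nat_lit 3058) (.e (nat_lit 386) (nat_lit 32) (.e (nat_lit 426347) (nat_lit 14) (.e (nat_lit 491537) (nat_lit 2) (.e (nat_lit 90170) (nat_lit 13) (.e (nat_lit 172106) (nat_lit 10) .nil))))) (.g (nat_lit 0) (.e (nat_lit 2984) (nat_lit 0) .nil) .nil))) 
(.lf (nat_lit 448163) (.g (nat_lit 3249) (.e (nat_lit 416) (nat_lit 32) (.e (nat_lit 426139) (nat_lit 3) (.e (nat_lit 204869) (nat_lit 29) (.e (nat_lit 360474) (nat_lit 8) (.e (nat_lit 557093) (nat_lit 12) .nil))))) (.g (nat_lit 0) (.e (nat_lit 4932) (nat_lit 0) .nil) .nil)))) (.nd (nat_lit 9) 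
(.lf (nat_lit 447907) (.g (nat_lit 3264) (.e (nat_lit 397) (nat_lit 32) (.e (nat_lit 426344) (nat_lit 14) (.e (nat_lit 491539) (nat_lit 3) (.e (nat_lit 98373) (nat_lit 29) (.e (nat_lit 450587) (nat_lit 10) (.e (nat_lit 573454) (nat_lit 9) .nil)))))) (.g (nat_lit 1) (.e (nat_lit 4289) (nat_lit 0) .nil) .nil))) 
(.lf (nat_lit 448419) (.g (nat_lit 4400) (.e (nat_lit 430) (nat_lit 32) (.e (nat_lit 426315) (nat_lit 12) (.e (nat_lit 475185) (nat_lit 29) (.e (nat_lit 557100) (nat_lit 13) (.e (nat_lit 172113) (nat_lit 10) (.e (nat_lit 434247) (nat_lit 28) (.e (nat_lit 573456) (nat_lit 9) .nil))))))) (.g (nat_lit 1) (.e (nat_lit 5818) (nat_lit 0) .nil) .nil)))))) 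
(.nd (nat_lit 7) (.nd (nat_lit 8) (.nd (nat_lit 9) 
(.lf (nat_lit 447587) (.g (nat_lit 2259) (.e (nat_lit 375) (nat_lit 32) (.e (nat_lit 426140) (nat_lit 3) (.e (nat_lit 204868) (nat_lit 29) (.e (nat_lit 360474) (nat_lit 8) (.e (nat_lit 557094) (nat_lit 12) .nil))))) (.g (nat_lit 0) (.e (nat_lit 2302) (nat_lit 0) .nil) .nil))) 
(.lf (nat_lit 448099) (.g (nat_lit 2851) (.e (nat_lit 436) (nat_lit 32) (.e (nat_lit 426123) (nat_lit 2) (.e (nat_lit 196666) (nat_lit 13) (.e (nat_lit 65617) (nat_lit 10) (.e (nat_lit 344132) (nat_lit 26) (.e (nat_lit 557094) (nat_lit 12) (.e (nat_lit 164022) (nat_lit 46) (.e (nat_lit 704627) (nat_lit 9) .nil)))))))) (.g (nat_lit 1) (.e (nat_lit 4717) (nat_lit 0) .nil) .nil)))) (.nd (nat_lit 9) 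
(.lf (nat_lit 447843) (.g (nat_lit 1476) (.e (nat_lit 394) (nat_lit 32) (.e (nat_lit 426343) (nat_lit 14) (.e (nat_lit 491535) (nat_lit 2) (.e (nat_lit 90170) (nat_lit 13) .nil)))) (.g (nat_lit 0) (.e (nat_lit 4043) (nat_lit 0) .nil) .nil))) 
(.lf (nat_lit 448355) (.g (nat_lit 3860) (.e (nat_lit 430) (nat_lit 32) (.e (nat_lit 426190) (nat_lit 9) (.e (nat_lit 426566) (nat_lit 34) (.e (nat_lit 393253) (nat_lit 18) (.e (nat_lit 164330) (nat_lit 230) (.e (nat_lit 163869) (nat_lit 2) (.e (nat_lit 196630) (nat_lit 9) .nil))))))) (.g (nat_lit 1) (.e (nat_lit 5707) (nat_lit 0) .nil) .nil))))) (.nd (nat_lit 8) (.nd (nat_lit 9) 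
(.lf (nat_lit 447715) (.g (nat_lit 4528) (.e (nat_lit 392) (nat_lit 32) (.e (nat_lit 426316) (nat_lit 12) (.e (nat_lit 475185) (nat_lit 29) (.e (nat_lit 557107) (nat_lit 15) (.e (nat_lit 188440) (nat_lit 20) (.e (nat_lit 3307) (nat_lit 202) (.e (nat_lit 573457) (nat_lit 9) .nil))))))) (.g (nat_lit 1) (.e (nat_lit 3337) (nat_lit 0) .nil) .nil))) 
(.lf (nat_lit 448227) (.g (nat_lit 4103) (.e (nat_lit 426) (nat_lit 32) (.e (nat_lit 426314) (nat_lit 12) (.e (nat_lit 475185) (nat_lit 29) (.e (nat_lit 557101) (nat_lit 13) (.e (nat_lit 172115) (nat_lit 10) (.e (nat_lit 434244) (nat_lit 28) (.e (nat_lit 573458) (nat_lit 9) .nil))))))) (.g (nat_lit 1) (.e (nat_lit 5274) (nat_lit 0) .nil) .nil)))) (.nd (nat_lit 9) 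
(.lf (nat_lit 447971) (.g (nat_lit 2714) (.e (nat_lit 403) (nat_lit 32) (.e (nat_lit 426340) (nat_lit 14) (.e (nat_lit 491570) (nat_lit 13) (.e (nat_lit 393238) (nat_lit 17) (.e (nat_lit 7107) (nat_lit 380) (.e (nat_lit 164337) (nat_lit 232) .nil)))))) (.g (nat_lit 1) (.e (nat_lit 4449) (nat_lit 0) .nil) .nil))) 
(.lf (nat_lit 448483) (.g (nat_lit 4275) (.e (nat_lit 430) (nat_lit 32) (.e (nat_lit 426343) (nat_lit 14) (.e (nat_lit 491537) (nat_lit 2) (.e (nat_lit 90170) (nat_lit 13) (.e (nat_lit 172113) (nat_lit 10) (.e (nat_lit 434247) (nat_lit 28) (.e (nat_lit 573457) (nat_lit 9) .nil))))))) (.g (nat_lit 1) (.e (nat_lit 5979) (nat_lit 0) .nil) .nil)))))))) 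
(.nd (nat_lit 5) (.nd (nat_lit 6) (.nd (nat_lit 7) (.nd (nat_lit 8) (.nd (nat_lit 9) 
(.lf (nat_lit 447507) (.g (nat_lit 5499) (.e (nat_lit 375) (nat_lit 32) (.e (nat_lit 426125) (nat_lit 2) (.e (nat_lit 196666) (nat_lit 13) (.e (nat_lit 65610) (nat_lit 10) (.e (nat_lit 344129) (nat_lit 26) (.e (nat_lit 557092) (nat_lit 12) (.e (nat_lit 164023) (nat_lit 46) (.e (nat_lit 704628) (nat_lit 9) .nil)))))))) (.g (nat_lit 1) (.e (nat_lit 2203) (nat_lit 0) .nil) .nil))) 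
(.lf (nat_lit 448019) (.g (nat_lit 3932) (.e (nat_lit 410) (nat_lit 32) (.e (nat_lit 426340) (nat_lit 14) (.e (nat_lit 491540) (nat_lit 3) (.e (nat_lit 98373) (nat_lit 29) (.e (nat_lit 450587) (nat_lit 10) (.e (nat_lit 573454) (nat_lit 9) .nil)))))) (.g (nat_lit 1) (.e (nat_lit 4591) (nat_lit 0) .nil) .nil)))) (.nd (nat_lit 9) 
(.lf (nat_lit 447763) (.g (nat_lit 3806) (.e (nat_lit 396) (nat_lit 32) (.e (nat_lit 426123) (nat_lit 2) (.e (nat_lit 196666) (nat_lit 13) (.e (nat_lit 65617) (nat_lit 10) (.e (nat_lit 344133) (nat_lit 26) (.e (nat_lit 557068) (nat_lit 9) (.e (nat_lit 2739) (nat_lit 174) (.e (nat_lit 253959) (nat_lit 9) .nil)))))))) (.g (nat_lit 1) (.e (nat_lit 3469) (nat_lit 0) .nil) .nil))) 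
(.lf (nat_lit 448275) (.g (nat_lit 3265) (.e (nat_lit 425) (nat_lit 32) (.e (nat_lit 426316) (nat_lit 12) (.e (nat_lit 475185) (nat_lit 29) (.e (nat_lit 557101) (nat_lit 13) (.e (nat_lit 172115) (nat_lit 10) .nil))))) (.g (nat_lit 0) (.e (nat_lit 5501) (nat_lit 0) .nil) .nil))))) (.nd (nat_lit 8) (.nd (nat_lit 9) 
(.lf (nat_lit 447635) (.g (nat_lit 2521) (.e (nat_lit 378) (nat_lit 32) (.e (nat_lit 426438) (nat_lit 18) (.e (nat_lit 98367) (nat_lit 27) (.e (nat_lit 434248) (nat_lit 28) (.e (nat_lit 573480) (nat_lit 13) .nil))))) (.g (nat_lit 0) (.e (nat_lit 2942) (nat_lit 0) .nil) .nil))) 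
(.lf (nat_lit 448147) (.g (nat_lit 3582) (.e (nat_lit 440) (nat_lit 32) (.e (nat_lit 426316) (nat_lit 12) (.e (nat_lit 475185) (nat_lit 29) (.e (nat_lit 557098) (nat_lit 13) (.e (nat_lit 172115) (nat_lit 10) .nil))))) (.g (nat_lit 0) (.e (nat_lit 4889) (nat_lit 0) .nil) .nil)))) (.nd (nat_lit 9) 
(.lf (nat_lit 447891) (.g (nat_lit 3261) (.e (nat_lit 397) (nat_lit 32) (.e (nat_lit 426190) (nat_lit 9) (.e (nat_lit 426566) (nat_lit 34) (.e (nat_lit 393253) (nat_lit 18) (.e (nat_lit 164329) (nat_lit 230) (.e (nat_lit 163867) (nat_lit 2) (.e (nat_lit 196628) (nat_lit 9) .nil))))))) (.g (nat_lit 1) (.e (nat_lit 4255) (nat_lit 0) .nil) .nil))) 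
(.lf (nat_lit 448403) (.g (nat_lit 4375) (.e (nat_lit 430) (nat_lit 32) (.e (nat_lit 426308) (nat_lit 12) (.e (nat_lit 475184) (nat_lit 29) (.e (nat_lit 557100) (nat_lit 13) (.e (nat_lit 172113) (nat_lit 10) (.e (nat_lit 434248) (nat_lit 28) (.e (nat_lit 573452) (nat_lit 9) .nil))))))) (.g (nat_lit 1) (.e (nat_lit 5802) (nat_lit 0) .nil) .nil)))))) 
(.nd (nat_lit 7) (.nd (nat_lit 8) (.nd (nat_lit 9) 
(.lf (nat_lit 447571) (.g (nat_lit 1649) (.e (nat_lit 375) (nat_lit 32) (.e (nat_lit 426135) (nat_lit 3) (.e (nat_lit 204868) (nat_lit 29) (.e (nat_lit 360473) (nat_lit 8) (.e (nat_lit 557093) (nat_lit 12) (.e (nat_lit 164022) (nat_lit 46) (.e (nat_lit 704627) (nat_lit 9) .nil))))))) (.g (nat_lit 1) (.e (nat_lit 2283) (nat_lit 0) .nil) .nil))) 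
(.lf (nat_lit 448083) (.g (nat_lit 2400) (.e (nat_lit 436) (nat_lit 32) (.e (nat_lit 426121) (nat_lit 2) (.e (nat_lit 196666) (nat_lit 13) (.e (nat_lit 65617) (nat_lit 10) (.e (nat_lit 344130) (nat_lit 26) (.e (nat_lit 557090) (nat_lit 12) (.e (nat_lit 164022) (nat_lit 46) (.e (nat_lit 704627) (nat_lit 9) .nil)))))))) (.g (nat_lit 1) (.e (nat_lit 4699) (nat_lit 0) .nil) .nil)))) (.nd (nat_lit 9) 
(.lf (nat_lit 447827) (.g (nat_lit 3372) (.e (nat_lit 396) (nat_lit 32) (.e (nat_lit 426343) (nat_lit 14) (.e (nat_lit 491570) (nat_lit 13) (.e (nat_lit 393260) (nat_lit 21) (.e (nat_lit 409616) (nat_lit 10) (.e (nat_lit 7936) (nat_lit 298) .nil)))))) (.g (nat_lit 1) (.e (nat_lit 3748) (nat_lit 0) .nil) .nil))) 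
(.lf (nat_lit 448339) (.g (nat_lit 2823) (.e (nat_lit 430) (nat_lit 32) (.e (nat_lit 426139) (nat_lit 3) (.e (nat_lit 204869) (nat_lit 29) (.e (nat_lit 360474) (nat_lit 8) (.e (nat_lit 557094) (nat_lit 12) .nil))))) (.g (nat_lit 0) (.e (nat_lit 5678) (nat_lit 0) .nil) .nil))))) (.nd (nat_lit 8) (.nd (nat_lit 9) 
(.lf (nat_lit 447699) (.g (nat_lit 630) (.e (nat_lit 392) (nat_lit 32) (.e (nat_lit 426190) (nat_lit 9) (.e (nat_lit 426566) (nat_lit 34) .nil))) (.g (nat_lit 0) (.e (nat_lit 3312) (nat_lit 0) .nil) .nil))) 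
(.lf (nat_lit 448211) (.g (nat_lit 3933) (.e (nat_lit 426) (nat_lit 32) (.e (nat_lit 426306) (nat_lit 12) (.e (nat_lit 475183) (nat_lit 29) (.e (nat_lit 557100) (nat_lit 13) (.e (nat_lit 172113) (nat_lit 10) (.e (nat_lit 434245) (nat_lit 28) (.e (nat_lit 573458) (nat_lit 9) .nil))))))) (.g (nat_lit 1) (.e (nat_lit 5258) (nat_lit 0) .nil) .nil)))) (.nd (nat_lit 9) 
(.lf (nat_lit 447955) (.g (nat_lit 3387) (.e (nat_lit 401) (nat_lit 32) (.e (nat_lit 426340) (nat_lit 14) (.e (nat_lit 491571) (nat_lit 13) (.e (nat_lit 393260) (nat_lit 21) (.e (nat_lit 409625) (nat_lit 10) .nil))))) (.g (nat_lit 0) (.e (nat_lit 4408) (nat_lit 0) .nil) .nil))) 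
(.lf (nat_lit 448467) (.g (nat_lit 4589) (.e (nat_lit 430) (nat_lit 32) (.e (nat_lit 426343) (nat_lit 14) (.e (nat_lit 491526) (nat_lit 0) (.e (nat_lit 1788) (nat_lit 119) (.e (nat_lit 516166) (nat_lit 12) (.e (nat_lit 450588) (nat_lit 10) (.e (nat_lit 573452) (nat_lit 9) .nil))))))) (.g (nat_lit 1) (.e (nat_lit 5963) (nat_lit 0) .nil) .nil))))))) 
(.nd (nat_lit 6) (.nd (nat_lit 7) (.nd (nat_lit 8) (.nd (nat_lit 9) 
(.lf (nat_lit 447539) (.g (nat_lit 3942) (.e (nat_lit 375) (nat_lit 32) (.e (nat_lit 426125) (nat_lit 2) (.e (nat_lit 196666) (nat_lit 13) (.e (nat_lit 65610) (nat_lit 10) (.e (nat_lit 344132) (nat_lit 26) (.e (nat_lit 557093) (nat_lit 12) (.e (nat_lit 164023) (nat_lit 46) (.e (nat_lit 704627) (nat_lit 9) .nil)))))))) (.g (nat_lit 1) (.e (nat_lit 2237) (nat_lit 0) .nil) .nil))) 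
(.lf (nat_lit 448051) (.g (nat_lit 4348) (.e (nat_lit 411) (nat_lit 32) (.e (nat_lit 426140) (nat_lit 3) (.e (nat_lit 204868) (nat_lit 29) (.e (nat_lit 360473) (nat_lit 8) (.e (nat_lit 557094) (nat_lit 12) (.e (nat_lit 164022) (nat_lit 46) (.e (nat_lit 704629) (nat_lit 9) .nil))))))) (.g (nat_lit 1) (.e (nat_lit 4632) (nat_lit 0) .nil) .nil)))) (.nd (nat_lit 9) 
(.lf (nat_lit 447795) (.g (nat_lit 3893) (.e (nat_lit 396) (nat_lit 32) (.e (nat_lit 426316) (nat_lit 12) (.e (nat_lit 475185) (nat_lit 29) (.e (nat_lit 557098) (nat_lit 13) (.e (nat_lit 172112) (nat_lit 10) .nil))))) (.g (nat_lit 0) (.e (nat_lit 3558) (nat_lit 0) .nil) .nil))) 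
(.lf (nat_lit 448307) (.g (nat_lit 2377) (.e (nat_lit 430) (nat_lit 32) (.e (nat_lit 426011) (nat_lit 0) (.e (nat_lit 7548) (nat_lit 402) (.e (nat_lit 1234) (nat_lit 91) (.e (nat_lit 90170) (nat_lit 13) (.e (nat_lit 172113) (nat_lit 10) (.e (nat_lit 434245) (nat_lit 28) (.e (nat_lit 573451) (nat_lit 9) .nil)))))))) (.g (nat_lit 1) (.e (nat_lit 5547) (nat_lit 0) .nil) .nil))))) 
(.nd (nat_lit 8) (.nd (nat_lit 9) 
(.lf (nat_lit 447667) (.g (nat_lit 1770) (.e (nat_lit 389) (nat_lit 32) (.e (nat_lit 426189) (nat_lit 9) (.e (nat_lit 426566) (nat_lit 34) (.e (nat_lit 393253) (nat_lit 18) (.e (nat_lit 164325) (nat_lit 230) .nil))))) (.g (nat_lit 0) (.e (nat_lit 3045) (nat_lit 0) .nil) .nil))) 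
(.lf (nat_lit 448179) (.g (nat_lit 4209) (.e (nat_lit 418) (nat_lit 32) (.e (nat_lit 426347) (nat_lit 14) (.e (nat_lit 491571) (nat_lit 13) (.e (nat_lit 393260) (nat_lit 21) (.e (nat_lit 409617) (nat_lit 10) (.e (nat_lit 5353) (nat_lit 298) .nil)))))) (.g (nat_lit 1) (.e (nat_lit 4986) (nat_lit 0) .nil) .nil)))) (.nd (nat_lit 9) 
(.lf (nat_lit 447923) (.g (nat_lit 1032) (.e (nat_lit 400) (nat_lit 32) (.e (nat_lit 426198) (nat_lit 9) (.e (nat_lit 426533) (nat_lit 28) (.e (nat_lit 352000) (nat_lit 5) .nil)))) (.g (nat_lit 0) (.e (nat_lit 4323) (nat_lit 0) .nil) .nil))) 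
(.lf (nat_lit 448435) (.g (nat_lit 3509) (.e (nat_lit 430) (nat_lit 32) (.e (nat_lit 426341) (nat_lit 14) (.e (nat_lit 491540) (nat_lit 3) (.e (nat_lit 98373) (nat_lit 29) (.e (nat_lit 450587) (nat_lit 10) (.e (nat_lit 573452) (nat_lit 9) .nil)))))) (.g (nat_lit 1) (.e (nat_lit 5930) (nat_lit 0) .nil) .nil)))))) (.nd (nat_lit 7) (.nd (nat_lit 8) (.nd (nat_lit 9) 
(.lf (nat_lit 447603) (.g (nat_lit 1688) (.e (nat_lit 375) (nat_lit 32) (.e (nat_lit 426173) (nat_lit 7) (.e (nat_lit 409616) (nat_lit 10) (.e (nat_lit 7936) (nat_lit 43) (.e (nat_lit 516166) (nat_lit 12) (.e (nat_lit 450588) (nat_lit 10) (.e (nat_lit 581376) (nat_lit 9) .nil))))))) (.g (nat_lit 1) (.e (nat_lit 2319) (nat_lit 0) .nil) .nil))) 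
(.lf (nat_lit 448115) (.g (nat_lit 5261) (.e (nat_lit 436) (nat_lit 32) (.e (nat_lit 426139) (nat_lit 3) (.e (nat_lit 204869) (nat_lit 29) (.e (nat_lit 360475) (nat_lit 8) (.e (nat_lit 557091) (nat_lit 12) (.e (nat_lit 164022) (nat_lit 46) (.e (nat_lit 704628) (nat_lit 9) .nil))))))) (.g (nat_lit 1) (.e (nat_lit 4750) (nat_lit 0) .nil) .nil)))) (.nd (nat_lit 9) 
(.lf (nat_lit 447859) (.g (nat_lit 3030) (.e (nat_lit 395) (nat_lit 32) (.e (nat_lit 426316) (nat_lit 12) (.e (nat_lit 475185) (nat_lit 29) (.e (nat_lit 557100) (nat_lit 13) (.e (nat_lit 172113) (nat_lit 10) (.e (nat_lit 434245) (nat_lit 28) (.e (nat_lit 573451) (nat_lit 9) .nil))))))) (.g (nat_lit 1) (.e (nat_lit 4144) (nat_lit 0) .nil) .nil))) 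
(.lf (nat_lit 448371) (.g (nat_lit 3889) (.e (nat_lit 430) (nat_lit 32) (.e (nat_lit 426298) (nat_lit 11) (.e (nat_lit 458789) (nat_lit 23) (.e (nat_lit 532569) (nat_lit 16) (.e (nat_lit 401448) (nat_lit 10) (.e (nat_lit 434247) (nat_lit 28) (.e (nat_lit 573456) (nat_lit 9) .nil))))))) (.g (nat_lit 1) (.e (nat_lit 5769) (nat_lit 0) .nil) .nil))))) (.nd (nat_lit 8) (.nd (nat_lit 9) 
(.lf (nat_lit 447731) (.g (nat_lit 2189) (.e (nat_lit 393) (nat_lit 32) (.e (nat_lit 426190) (nat_lit 9) (.e (nat_lit 426566) (nat_lit 34) (.e (nat_lit 393253) (nat_lit 18) (.e (nat_lit 164329) (nat_lit 230) .nil))))) (.g (nat_lit 0) (.e (nat_lit 3425) (nat_lit 0) .nil) .nil))) 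
(.lf (nat_lit 448243) (.g (nat_lit 1678) (.e (nat_lit 426) (nat_lit 32) (.e (nat_lit 426316) (nat_lit 12) (.e (nat_lit 475185) (nat_lit 29) (.e (nat_lit 557107) (nat_lit 15) .nil)))) (.g (nat_lit 0) (.e (nat_lit 5294) (nat_lit 0) .nil) .nil)))) (.nd (nat_lit 9) 
(.lf (nat_lit 447987) (.g (nat_lit 2655) (.e (nat_lit 403) (nat_lit 32) (.e (nat_lit 426340) (nat_lit 14) (.e (nat_lit 491571) (nat_lit 13) (.e (nat_lit 393260) (nat_lit 21) (.e (nat_lit 417536) (nat_lit 10) .nil))))) (.g (nat_lit 0) (.e (nat_lit 4466) (nat_lit 0) .nil) .nil))) 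
(.lf (nat_lit 448499) (.g (nat_lit 4213) (.e (nat_lit 430) (nat_lit 32) (.e (nat_lit 426343) (nat_lit 14) (.e (nat_lit 491539) (nat_lit 3) (.e (nat_lit 98373) (nat_lit 29) (.e (nat_lit 450588) (nat_lit 10) (.e (nat_lit 573452) (nat_lit 9) .nil)))))) (.g (nat_lit 1) (.e (nat_lit 5995) (nat_lit 0) .nil) .nil))))))))) 
(.nd (nat_lit 4) (.nd (nat_lit 5) (.nd (nat_lit 6) (.nd (nat_lit 7) (.nd (nat_lit 8) 
(.nd (nat_lit 9) 
(.lf (nat_lit 447499) (.g (nat_lit 2195) (.e (nat_lit 375) (nat_lit 32) (.e (nat_lit 426125) (nat_lit 2) (.e (nat_lit 196666) (nat_lit 13) (.e (nat_lit 65610) (nat_lit 10) (.e (nat_lit 344129) (nat_lit 26) (.e (nat_lit 557090) (nat_lit 12) (.e (nat_lit 171776) (nat_lit 46) (.e (nat_lit 704620) (nat_lit 9) .nil)))))))) (.g (nat_lit 1) (.e (nat_lit 2194) (nat_lit 0) .nil) .nil))) 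
(.lf (nat_lit 448011) (.g (nat_lit 3235) (.e (nat_lit 414) (nat_lit 32) (.e (nat_lit 426140) (nat_lit 3) (.e (nat_lit 204869) (nat_lit 29) (.e (nat_lit 360474) (nat_lit 8) (.e (nat_lit 557093) (nat_lit 12) (.e (nat_lit 164022) (nat_lit 46) (.e (nat_lit 704628) (nat_lit 9) .nil))))))) (.g (nat_lit 1) (.e (nat_lit 4557) (nat_lit 0) .nil) .nil)))) (.nd (nat_lit 9) 
(.lf (nat_lit 447755) (.g (nat_lit 3653) (.e (nat_lit 396) (nat_lit 32) (.e (nat_lit 426123) (nat_lit 2) (.e (nat_lit 196666) (nat_lit 13) (.e (nat_lit 65617) (nat_lit 10) (.e (nat_lit 344130) (nat_lit 26) (.e (nat_lit 557065) (nat_lit 9) (.e (nat_lit 2741) (nat_lit 174) (.e (nat_lit 253959) (nat_lit 9) .nil)))))))) (.g (nat_lit 1) (.e (nat_lit 3461) (nat_lit 0) .nil) .nil))) 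
(.lf (nat_lit 448267) (.g (nat_lit 3279) (.e (nat_lit 424) (nat_lit 32) (.e (nat_lit 426316) (nat_lit 12) (.e (nat_lit 475185) (nat_lit 29) (.e (nat_lit 557101) (nat_lit 13) .nil)))) (.g (nat_lit 0) (.e (nat_lit 5471) (nat_lit 0) .nil) .nil))))) (.nd (nat_lit 8) (.nd (nat_lit 9) 
(.lf (nat_lit 447627) (.g (nat_lit 2731) (.e (nat_lit 375) (nat_lit 32) (.e (nat_lit 426317) (nat_lit 12) (.e (nat_lit 475185) (nat_lit 29) (.e (nat_lit 557101) (nat_lit 13) (.e (nat_lit 172115) (nat_lit 10) (.e (nat_lit 434244) (nat_lit 28) (.e (nat_lit 573449) (nat_lit 9) .nil))))))) (.g (nat_lit 1) (.e (nat_lit 2906) (nat_lit 0) .nil) .nil))) 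
(.lf (nat_lit 448139) (.g (nat_lit 2444) (.e (nat_lit 440) (nat_lit 32) (.e (nat_lit 426123) (nat_lit 2) (.e (nat_lit 196666) (nat_lit 13) (.e (nat_lit 65617) (nat_lit 10) (.e (nat_lit 344132) (nat_lit 26) .nil))))) (.g (nat_lit 0) (.e (nat_lit 4861) (nat_lit 0) .nil) .nil)))) (.nd (nat_lit 9) 
(.lf (nat_lit 447883) (.g (nat_lit 4159) (.e (nat_lit 399) (nat_lit 32) (.e (nat_lit 426338) (nat_lit 14) (.e (nat_lit 491571) (nat_lit 13) (.e (nat_lit 393260) (nat_lit 21) (.e (nat_lit 409616) (nat_lit 10) .nil))))) (.g (nat_lit 0) (.e (nat_lit 4221) (nat_lit 0) .nil) .nil))) 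
(.lf (nat_lit 448395) (.g (nat_lit 2255) (.e (nat_lit 430) (nat_lit 32) (.e (nat_lit 426308) (nat_lit 12) (.e (nat_lit 475184) (nat_lit 29) (.e (nat_lit 557098) (nat_lit 13) (.e (nat_lit 172105) (nat_lit 10) .nil))))) (.g (nat_lit 0) (.e (nat_lit 5794) (nat_lit 0) .nil) .nil)))))) (.nd (nat_lit 7) (.nd (nat_lit 8) (.nd (nat_lit 9) 
(.lf (nat_lit 447563) (.g (nat_lit 4552) (.e (nat_lit 375) (nat_lit 32) (.e (nat_lit 426125) (nat_lit 2) (.e (nat_lit 196666) (nat_lit 13) (.e (nat_lit 65617) (nat_lit 10) (.e (nat_lit 344132) (nat_lit 26) (.e (nat_lit 557093) (nat_lit 12) (.e (nat_lit 164023) (nat_lit 46) (.e (nat_lit 704629) (nat_lit 9) .nil)))))))) (.g (nat_lit 1) (.e (nat_lit 2270) (nat_lit 0) .nil) .nil))) 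
(.lf (nat_lit 448075) (.g (nat_lit 3236) (.e (nat_lit 411) (nat_lit 32) (.e (nat_lit 426340) (nat_lit 14) (.e (nat_lit 491540) (nat_lit 3) (.e (nat_lit 98373) (nat_lit 29) (.e (nat_lit 450587) (nat_lit 10) (.e (nat_lit 581376) (nat_lit 9) .nil)))))) (.g (nat_lit 1) (.e (nat_lit 4681) (nat_lit 0) .nil) .nil)))) (.nd (nat_lit 9) 
(.lf (nat_lit 447819) (.g (nat_lit 3627) (.e (nat_lit 396) (nat_lit 32) (.e (nat_lit 426343) (nat_lit 14) (.e (nat_lit 491537) (nat_lit 2) (.e (nat_lit 90170) (nat_lit 13) (.e (nat_lit 172113) (nat_lit 10) (.e (nat_lit 434248) (nat_lit 28) (.e (nat_lit 573452) (nat_lit 9) .nil))))))) (.g (nat_lit 1) (.e (nat_lit 3740) (nat_lit 0) .nil) .nil))) 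
(.lf (nat_lit 448331) (.g (nat_lit 3825) (.e (nat_lit 430) (nat_lit 32) (.e (nat_lit 426133) (nat_lit 3) (.e (nat_lit 204869) (nat_lit 29) (.e (nat_lit 360474) (nat_lit 8) (.e (nat_lit 557093) (nat_lit 12) (.e (nat_lit 164023) (nat_lit 46) (.e (nat_lit 704644) (nat_lit 9) .nil))))))) (.g (nat_lit 1) (.e (nat_lit 5652) (nat_lit 0) .nil) .nil))))) (.nd (nat_lit 8) (.nd (nat_lit 9) 
(.lf (nat_lit 447691) (.g (nat_lit 1781) (.e (nat_lit 391) (nat_lit 32) (.e (nat_lit 426190) (nat_lit 9) (.e (nat_lit 426566) (nat_lit 34) (.e (nat_lit 393253) (nat_lit 18) (.e (nat_lit 164332) (nat_lit 230) (.e (nat_lit 163867) (nat_lit 2) (.e (nat_lit 196624) (nat_lit 9) .nil))))))) (.g (nat_lit 1) (.e (nat_lit 3090) (nat_lit 0) .nil) .nil))) 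
(.lf (nat_lit 448203) (.g (nat_lit 2084) (.e (nat_lit 426) (nat_lit 32) (.e (nat_lit 426188) (nat_lit 9) (.e (nat_lit 426566) (nat_lit 34) (.e (nat_lit 393253) (nat_lit 18) (.e (nat_lit 164326) (nat_lit 230) (.e (nat_lit 163868) (nat_lit 2) (.e (nat_lit 196617) (nat_lit 9) .nil))))))) (.g (nat_lit 1) (.e (nat_lit 5228) (nat_lit 0) .nil) .nil)))) (.nd (nat_lit 9) 
(.lf (nat_lit 447947) (.g (nat_lit 3423) (.e (nat_lit 401) (nat_lit 32) (.e (nat_lit 426340) (nat_lit 14) (.e (nat_lit 491571) (nat_lit 13) (.e (nat_lit 393260) (nat_lit 21) (.e (nat_lit 409616) (nat_lit 10) (.e (nat_lit 5353) (nat_lit 298) .nil)))))) (.g (nat_lit 1) (.e (nat_lit 4400) (nat_lit 0) .nil) .nil))) 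
(.lf (nat_lit 448459) (.g (nat_lit 2607) (.e (nat_lit 430) (nat_lit 32) (.e (nat_lit 426343) (nat_lit 14) (.e (nat_lit 491520) (nat_lit 0) (.e (nat_lit 1788) (nat_lit 119) (.e (nat_lit 516166) (nat_lit 12) (.e (nat_lit 450587) (nat_lit 10) (.e (nat_lit 573457) (nat_lit 9) .nil))))))) (.g (nat_lit 1) (.e (nat_lit 5954) (nat_lit 0) .nil) .nil))))))) 
(.nd (nat_lit 6) (.nd (nat_lit 7) (.nd (nat_lit 8) (.nd (nat_lit 9) 
(.lf (nat_lit 447531) (.g (nat_lit 3687) (.e (nat_lit 375) (nat_lit 32) (.e (nat_lit 426125) (nat_lit 2) (.e (nat_lit 196666) (nat_lit 13) (.e (nat_lit 65610) (nat_lit 10) (.e (nat_lit 344131) (nat_lit 26) (.e (nat_lit 557094) (nat_lit 12) (.e (nat_lit 164022) (nat_lit 46) (.e (nat_lit 704627) (nat_lit 9) .nil)))))))) (.g (nat_lit 1) (.e (nat_lit 2229) (nat_lit 0) .nil) .nil))) 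
(.lf (nat_lit 448043) (.g (nat_lit 6366) (.e (nat_lit 411) (nat_lit 32) (.e (nat_lit 426125) (nat_lit 2) (.e (nat_lit 196666) (nat_lit 13) (.e (nat_lit 65617) (nat_lit 10) (.e (nat_lit 344133) (nat_lit 26) (.e (nat_lit 557091) (nat_lit 12) (.e (nat_lit 164022) (nat_lit 46) (.e (nat_lit 704629) (nat_lit 9) .nil)))))))) (.g (nat_lit 1) (.e (nat_lit 4615) (nat_lit 0) .nil) .nil)))) (.nd (nat_lit 9) 
(.lf (nat_lit 447787) (.g (nat_lit 3957) (.e (nat_lit 396) (nat_lit 32) (.e (nat_lit 426308) (nat_lit 12) (.e (nat_lit 475184) (nat_lit 29) (.e (nat_lit 557101) (nat_lit 13) (.e (nat_lit 172115) (nat_lit 10) (.e (nat_lit 434244) (nat_lit 28) (.e (nat_lit 573449) (nat_lit 9) .nil))))))) (.g (nat_lit 1) (.e (nat_lit 3547) (nat_lit 0) .nil) .nil))) 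
(.lf (nat_lit 448299) (.g (nat_lit 2147) (.e (nat_lit 430) (nat_lit 32) (.e (nat_lit 426011) (nat_lit 0) (.e (nat_lit 7513) (nat_lit 402) (.e (nat_lit 1234) (nat_lit 91) (.e (nat_lit 90170) (nat_lit 13) (.e (nat_lit 172113) (nat_lit 10) (.e (nat_lit 434248) (nat_lit 28) (.e (nat_lit 573452) (nat_lit 9) .nil)))))))) (.g (nat_lit 1) (.e (nat_lit 5539) (nat_lit 0) .nil) .nil))))) 
(.nd (nat_lit 8) (.nd (nat_lit 9) 
(.lf (nat_lit 447659) (.g (nat_lit 2721) (.e (nat_lit 388) (nat_lit 32) (.e (nat_lit 426190) (nat_lit 9) (.e (nat_lit 426566) (nat_lit 34) (.e (nat_lit 393253) (nat_lit 18) (.e (nat_lit 164327) (nat_lit 230) (.e (nat_lit 163868) (nat_lit 2) (.e (nat_lit 196624) (nat_lit 9) .nil))))))) (.g (nat_lit 1) (.e (nat_lit 3006) (nat_lit 0) .nil) .nil))) 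
(.lf (nat_lit 448171) (.g (nat_lit 1935) (.e (nat_lit 416) (nat_lit 32) (.e (nat_lit 426306) (nat_lit 12) (.e (nat_lit 475185) (nat_lit 29) (.e (nat_lit 557101) (nat_lit 13) .nil)))) (.g (nat_lit 0) (.e (nat_lit 4940) (nat_lit 0) .nil) .nil)))) (.nd (nat_lit 9) 
(.lf (nat_lit 447915) (.g (nat_lit 3299) (.e (nat_lit 398) (nat_lit 32) (.e (nat_lit 426123) (nat_lit 2) (.e (nat_lit 196666) (nat_lit 13) (.e (nat_lit 65617) (nat_lit 10) (.e (nat_lit 344132) (nat_lit 26) (.e (nat_lit 557093) (nat_lit 12) (.e (nat_lit 164023) (nat_lit 46) (.e (nat_lit 704626) (nat_lit 9) .nil)))))))) (.g (nat_lit 1) (.e (nat_lit 4297) (nat_lit 0) .nil) .nil))) 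
(.lf (nat_lit 448427) (.g (nat_lit 2597) (.e (nat_lit 430) (nat_lit 32) (.e (nat_lit 426338) (nat_lit 14) (.e (nat_lit 491540) (nat_lit 3) (.e (nat_lit 98372) (nat_lit 29) (.e (nat_lit 450586) (nat_lit 10) (.e (nat_lit 573456) (nat_lit 9) .nil)))))) (.g (nat_lit 1) (.e (nat_lit 5922) (nat_lit 0) .nil) .nil)))))) (.nd (nat_lit 7) (.nd (nat_lit 8) (.nd (nat_lit 9) 
(.lf (nat_lit 447595) (.g (nat_lit 4432) (.e (nat_lit 375) (nat_lit 32) (.e (nat_lit 426140) (nat_lit 3) (.e (nat_lit 204869) (nat_lit 29) (.e (nat_lit 360474) (nat_lit 8) (.e (nat_lit 557093) (nat_lit 12) (.e (nat_lit 164022) (nat_lit 46) (.e (nat_lit 704628) (nat_lit 9) .nil))))))) (.g (nat_lit 1) (.e (nat_lit 2310) (nat_lit 0) .nil) .nil))) 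
(.lf (nat_lit 448107) (.g (nat_lit 4665) (.e (nat_lit 436) (nat_lit 32) (.e (nat_lit 426139) (nat_lit 3) (.e (nat_lit 204869) (nat_lit 29) (.e (nat_lit 360474) (nat_lit 8) (.e (nat_lit 557091) (nat_lit 12) (.e (nat_lit 164022) (nat_lit 46) (.e (nat_lit 704628) (nat_lit 9) .nil))))))) (.g (nat_lit 1) (.e (nat_lit 4742) (nat_lit 0) .nil) .nil)))) (.nd (nat_lit 9) 
(.lf (nat_lit 447851) (.g (nat_lit 1945) (.e (nat_lit 395) (nat_lit 32) (.e (nat_lit 426190) (nat_lit 9) (.e (nat_lit 426566) (nat_lit 34) (.e (nat_lit 393253) (nat_lit 18) (.e (nat_lit 164327) (nat_lit 230) (.e (nat_lit 163868) (nat_lit 2) (.e (nat_lit 196627) (nat_lit 9) .nil))))))) (.g (nat_lit 1) (.e (nat_lit 4127) (nat_lit 0) .nil) .nil))) 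
(.lf (nat_lit 448363) (.g (nat_lit 1636) (.e (nat_lit 430) (nat_lit 32) (.e (nat_lit 426298) (nat_lit 11) (.e (nat_lit 458789) (nat_lit 23) (.e (nat_lit 532482) (nat_lit 0) (.e (nat_lit 6722) (nat_lit 362) (.e (nat_lit 180250) (nat_lit 10) (.e (nat_lit 573457) (nat_lit 9) .nil))))))) (.g (nat_lit 1) (.e (nat_lit 5761) (nat_lit 0) .nil) .nil))))) (.nd (nat_lit 8) (.nd (nat_lit 9) 
(.lf (nat_lit 447723) (.g (nat_lit 3598) (.e (nat_lit 392) (nat_lit 32) (.e (nat_lit 426341) (nat_lit 14) (.e (nat_lit 491571) (nat_lit 13) (.e (nat_lit 393260) (nat_lit 21) (.e (nat_lit 409623) (nat_lit 10) (.e (nat_lit 5293) (nat_lit 298) .nil)))))) (.g (nat_lit 1) (.e (nat_lit 3390) (nat_lit 0) .nil) .nil))) 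
(.lf (nat_lit 448235) (.g (nat_lit 5018) (.e (nat_lit 426) (nat_lit 32) (.e (nat_lit 426316) (nat_lit 12) (.e (nat_lit 475183) (nat_lit 29) (.e (nat_lit 557101) (nat_lit 13) (.e (nat_lit 172115) (nat_lit 10) (.e (nat_lit 434244) (nat_lit 28) (.e (nat_lit 573458) (nat_lit 9) .nil))))))) (.g (nat_lit 1) (.e (nat_lit 5283) (nat_lit 0) .nil) .nil)))) (.nd (nat_lit 9) 
(.lf (nat_lit 447979) (.g (nat_lit 2993) (.e (nat_lit 403) (nat_lit 32) (.e (nat_lit 426340) (nat_lit 14) (.e (nat_lit 491571) (nat_lit 13) (.e (nat_lit 393260) (nat_lit 21) (.e (nat_lit 409614) (nat_lit 10) .nil))))) (.g (nat_lit 0) (.e (nat_lit 4458) (nat_lit 0) .nil) .nil))) 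
(.lf (nat_lit 448491) (.g (nat_lit 2743) (.e (nat_lit 430) (nat_lit 32) (.e (nat_lit 426343) (nat_lit 14) (.e (nat_lit 491539) (nat_lit 3) (.e (nat_lit 98372) (nat_lit 29) (.e (nat_lit 450586) (nat_lit 10) (.e (nat_lit 573452) (nat_lit 9) .nil)))))) (.g (nat_lit 1) (.e (nat_lit 5987) (nat_lit 0) .nil) .nil)))))))) 
(.nd (nat_lit 5) (.nd (nat_lit 6) (.nd (nat_lit 7) (.nd (nat_lit 8) (.nd (nat_lit 9) 
(.lf (nat_lit 447515) (.g (nat_lit 6130) (.e (nat_lit 375) (nat_lit 32) (.e (nat_lit 426125) (nat_lit 2) (.e (nat_lit 196666) (nat_lit 13) (.e (nat_lit 65610) (nat_lit 10) (.e (nat_lit 344129) (nat_lit 26) (.e (nat_lit 557094) (nat_lit 12) (.e (nat_lit 164022) (nat_lit 46) (.e (nat_lit 704628) (nat_lit 9) .nil)))))))) (.g (nat_lit 1) (.e (nat_lit 2211) (nat_lit 0) .nil) .nil))) 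
(.lf (nat_lit 448027) (.g (nat_lit 3137) (.e (nat_lit 411) (nat_lit 32) (.e (nat_lit 426125) (nat_lit 2) (.e (nat_lit 196666) (nat_lit 13) (.e (nat_lit 65610) (nat_lit 10) (.e (nat_lit 344130) (nat_lit 26) .nil))))) (.g (nat_lit 0) (.e (nat_lit 4599) (nat_lit 0) .nil) .nil)))) (.nd (nat_lit 9) 
(.lf (nat_lit 447771) (.g (nat_lit 564) (.e (nat_lit 396) (nat_lit 32) (.e (nat_lit 426190) (nat_lit 9) (.e (nat_lit 426566) (nat_lit 34) .nil))) (.g (nat_lit 0) (.e (nat_lit 3517) (nat_lit 0) .nil) .nil))) 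
(.lf (nat_lit 448283) (.g (nat_lit 2236) (.e (nat_lit 429) (nat_lit 32) (.e (nat_lit 426347) (nat_lit 14) (.e (nat_lit 491570) (nat_lit 13) (.e (nat_lit 393260) (nat_lit 21) (.e (nat_lit 409617) (nat_lit 10) .nil))))) (.g (nat_lit 0) (.e (nat_lit 5519) (nat_lit 0) .nil) .nil))))) (.nd (nat_lit 8) (.nd (nat_lit 9) 
(.lf (nat_lit 447643) (.g (nat_lit 3877) (.e (nat_lit 381) (nat_lit 32) (.e (nat_lit 426428) (nat_lit 17) (.e (nat_lit 90174) (nat_lit 14) (.e (nat_lit 180250) (nat_lit 10) (.e (nat_lit 573482) (nat_lit 13) (.e (nat_lit 65568) (nat_lit 2) (.e (nat_lit 98048) (nat_lit 0) .nil))))))) (.g (nat_lit 1) (.e (nat_lit 2974) (nat_lit 0) .nil) .nil))) 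
(.lf (nat_lit 448155) (.g (nat_lit 2846) (.e (nat_lit 416) (nat_lit 32) (.e (nat_lit 426122) (nat_lit 2) (.e (nat_lit 196666) (nat_lit 13) (.e (nat_lit 65617) (nat_lit 10) (.e (nat_lit 344132) (nat_lit 26) (.e (nat_lit 557094) (nat_lit 12) (.e (nat_lit 164022) (nat_lit 46) (.e (nat_lit 704628) (nat_lit 9) .nil)))))))) (.g (nat_lit 1) (.e (nat_lit 4911) (nat_lit 0) .nil) .nil)))) (.nd (nat_lit 9) 
(.lf (nat_lit 447899) (.g (nat_lit 3545) (.e (nat_lit 397) (nat_lit 32) (.e (nat_lit 426316) (nat_lit 12) (.e (nat_lit 475185) (nat_lit 29) (.e (nat_lit 557109) (nat_lit 15) (.e (nat_lit 188441) (nat_lit 20) .nil))))) (.g (nat_lit 0) (.e (nat_lit 4265) (nat_lit 0) .nil) .nil))) 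
(.lf (nat_lit 448411) (.g (nat_lit 4227) (.e (nat_lit 430) (nat_lit 32) (.e (nat_lit 426308) (nat_lit 12) (.e (nat_lit 475185) (nat_lit 29) (.e (nat_lit 557100) (nat_lit 13) (.e (nat_lit 172113) (nat_lit 10) (.e (nat_lit 434248) (nat_lit 28) (.e (nat_lit 573452) (nat_lit 9) .nil))))))) (.g (nat_lit 1) (.e (nat_lit 5810) (nat_lit 0) .nil) .nil)))))) 
(.nd (nat_lit 7) (.nd (nat_lit 8) (.nd (nat_lit 9) 
(.lf (nat_lit 447579) (.g (nat_lit 5867) (.e (nat_lit 375) (nat_lit 32) (.e (nat_lit 426135) (nat_lit 3) (.e (nat_lit 204869) (nat_lit 29) (.e (nat_lit 360475) (nat_lit 8) (.e (nat_lit 557091) (nat_lit 12) (.e (nat_lit 164022) (nat_lit 46) (.e (nat_lit 704628) (nat_lit 9) .nil))))))) (.g (nat_lit 1) (.e (nat_lit 2291) (nat_lit 0) .nil) .nil))) 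
(.lf (nat_lit 448091) (.g (nat_lit 2514) (.e (nat_lit 436) (nat_lit 32) (.e (nat_lit 426121) (nat_lit 2) (.e (nat_lit 196666) (nat_lit 13) (.e (nat_lit 65617) (nat_lit 10) (.e (nat_lit 344133) (nat_lit 26) (.e (nat_lit 557091) (nat_lit 12) (.e (nat_lit 164022) (nat_lit 46) (.e (nat_lit 704627) (nat_lit 9) .nil)))))))) (.g (nat_lit 1) (.e (nat_lit 4707) (nat_lit 0) .nil) .nil)))) (.nd (nat_lit 9) 
(.lf (nat_lit 447835) (.g (nat_lit 2474) (.e (nat_lit 394) (nat_lit 32) (.e (nat_lit 426316) (nat_lit 12) (.e (nat_lit 475183) (nat_lit 29) (.e (nat_lit 557100) (nat_lit 13) (.e (nat_lit 172106) (nat_lit 10) (.e (nat_lit 434244) (nat_lit 28) (.e (nat_lit 573458) (nat_lit 9) .nil))))))) (.g (nat_lit 1) (.e (nat_lit 3965) (nat_lit 0) .nil) .nil))) 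
(.lf (nat_lit 448347) (.g (nat_lit 3831) (.e (nat_lit 430) (nat_lit 32) (.e (nat_lit 426190) (nat_lit 9) (.e (nat_lit 426566) (nat_lit 34) (.e (nat_lit 393252) (nat_lit 18) (.e (nat_lit 164330) (nat_lit 230) (.e (nat_lit 163869) (nat_lit 2) (.e (nat_lit 196630) (nat_lit 9) .nil))))))) (.g (nat_lit 1) (.e (nat_lit 5698) (nat_lit 0) .nil) .nil))))) (.nd (nat_lit 8) (.nd (nat_lit 9) 
(.lf (nat_lit 447707) (.g (nat_lit 3193) (.e (nat_lit 392) (nat_lit 32) (.e (nat_lit 426316) (nat_lit 12) (.e (nat_lit 475185) (nat_lit 29) (.e (nat_lit 557098) (nat_lit 13) (.e (nat_lit 172112) (nat_lit 10) .nil))))) (.g (nat_lit 0) (.e (nat_lit 3329) (nat_lit 0) .nil) .nil))) 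
(.lf (nat_lit 448219) (.g (nat_lit 3492) (.e (nat_lit 426) (nat_lit 32) (.e (nat_lit 426308) (nat_lit 12) (.e (nat_lit 475183) (nat_lit 29) (.e (nat_lit 557100) (nat_lit 13) (.e (nat_lit 172106) (nat_lit 10) (.e (nat_lit 434244) (nat_lit 28) (.e (nat_lit 573458) (nat_lit 9) .nil))))))) (.g (nat_lit 1) (.e (nat_lit 5266) (nat_lit 0) .nil) .nil)))) (.nd (nat_lit 9) 
(.lf (nat_lit 447963) (.g (nat_lit 1979) (.e (nat_lit 403) (nat_lit 32) (.e (nat_lit 426340) (nat_lit 14) (.e (nat_lit 491549) (nat_lit 9) (.e (nat_lit 336421) (nat_lit 28) (.e (nat_lit 434197) (nat_lit 16) (.e (nat_lit 164338) (nat_lit 232) .nil)))))) (.g (nat_lit 1) (.e (nat_lit 4441) (nat_lit 0) .nil) .nil))) 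
(.lf (nat_lit 448475) (.g (nat_lit 3965) (.e (nat_lit 430) (nat_lit 32) (.e (nat_lit 426343) (nat_lit 14) (.e (nat_lit 491536) (nat_lit 2) (.e (nat_lit 90170) (nat_lit 13) (.e (nat_lit 172113) (nat_lit 10) (.e (nat_lit 434247) (nat_lit 28) (.e (nat_lit 573457) (nat_lit 9) .nil))))))) (.g (nat_lit 1) (.e (nat_lit 5971) (nat_lit 0) .nil) .nil))))))) 
(.nd (nat_lit 6) (.nd (nat_lit 7) (.nd (nat_lit 8) (.nd (nat_lit 9) 
(.lf (nat_lit 447547) (.g (nat_lit 3779) (.e (nat_lit 375) (nat_lit 32) (.e (nat_lit 426125) (nat_lit 2) (.e (nat_lit 196666) (nat_lit 13) (.e (nat_lit 65614) (nat_lit 10) .nil)))) (.g (nat_lit 0) (.e (nat_lit 2252) (nat_lit 0) .nil) .nil))) 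
(.lf (nat_lit 448059) (.g (nat_lit 3433) (.e (nat_lit 411) (nat_lit 32) (.e (nat_lit 426140) (nat_lit 3) (.e (nat_lit 204869) (nat_lit 29) (.e (nat_lit 360474) (nat_lit 8) (.e (nat_lit 557093) (nat_lit 12) (.e (nat_lit 164023) (nat_lit 46) (.e (nat_lit 704629) (nat_lit 9) .nil))))))) (.g (nat_lit 1) (.e (nat_lit 4641) (nat_lit 0) .nil) .nil)))) (.nd (nat_lit 9) 
(.lf (nat_lit 447803) (.g (nat_lit 2749) (.e (nat_lit 396) (nat_lit 32) (.e (nat_lit 426316) (nat_lit 12) (.e (nat_lit 475185) (nat_lit 29) (.e (nat_lit 557107) (nat_lit 15) (.e (nat_lit 188440) (nat_lit 20) (.e (nat_lit 3307) (nat_lit 202) (.e (nat_lit 573452) (nat_lit 9) .nil))))))) (.g (nat_lit 1) (.e (nat_lit 3566) (nat_lit 0) .nil) .nil))) 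
(.lf (nat_lit 448315) (.g (nat_lit 3447) (.e (nat_lit 430) (nat_lit 32) (.e (nat_lit 426011) (nat_lit 0) (.e (nat_lit 7583) (nat_lit 405) (.e (nat_lit 57464) (nat_lit 23) (.e (nat_lit 516165) (nat_lit 12) (.e (nat_lit 450588) (nat_lit 10) (.e (nat_lit 573452) (nat_lit 9) .nil))))))) (.g (nat_lit 1) (.e (nat_lit 5555) (nat_lit 0) .nil) .nil))))) (.nd (nat_lit 8) (.nd (nat_lit 9) 
(.lf (nat_lit 447675) (.g (nat_lit 2581) (.e (nat_lit 389) (nat_lit 32) (.e (nat_lit 426306) (nat_lit 12) (.e (nat_lit 475185) (nat_lit 29) (.e (nat_lit 557101) (nat_lit 13) (.e (nat_lit 172115) (nat_lit 10) .nil))))) (.g (nat_lit 0) (.e (nat_lit 3054) (nat_lit 0) .nil) .nil))) 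
(.lf (nat_lit 448187) (.g (nat_lit 2440) (.e (nat_lit 422) (nat_lit 32) (.e (nat_lit 426316) (nat_lit 12) (.e (nat_lit 475185) (nat_lit 29) (.e (nat_lit 557100) (nat_lit 13) (.e (nat_lit 172106) (nat_lit 10) .nil))))) (.g (nat_lit 0) (.e (nat_lit 5028) (nat_lit 0) .nil) .nil)))) (.nd (nat_lit 9) 
(.lf (nat_lit 447931) (.g (nat_lit 5211) (.e (nat_lit 401) (nat_lit 32) (.e (nat_lit 426340) (nat_lit 14) (.e (nat_lit 491540) (nat_lit 3) (.e (nat_lit 98373) (nat_lit 29) (.e (nat_lit 450587) (nat_lit 10) (.e (nat_lit 573464) (nat_lit 9) .nil)))))) (.g (nat_lit 1) (.e (nat_lit 4369) (nat_lit 0) .nil) .nil))) 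
(.lf (nat_lit 448443) (.g (nat_lit 4083) (.e (nat_lit 430) (nat_lit 32) (.e (nat_lit 426342) (nat_lit 14) (.e (nat_lit 491537) (nat_lit 2) (.e (nat_lit 90170) (nat_lit 13) (.e (nat_lit 172113) (nat_lit 10) (.e (nat_lit 434248) (nat_lit 28) (.e (nat_lit 573452) (nat_lit 9) .nil))))))) (.g (nat_lit 1) (.e (nat_lit 5938) (nat_lit 0) .nil) .nil)))))) (.nd (nat_lit 7) (.nd (nat_lit 8) (.nd (nat_lit 9) 
(.lf (nat_lit 447611) (.g (nat_lit 3263) (.e (nat_lit 375) (nat_lit 32) (.e (nat_lit 426173) (nat_lit 7) (.e (nat_lit 409617) (nat_lit 10) (.e (nat_lit 932) (nat_lit 76) (.e (nat_lit 786480) (nat_lit 29) (.e (nat_lit 352312) (nat_lit 22) (.e (nat_lit 98048) (nat_lit 0) .nil))))))) (.g (nat_lit 1) (.e (nat_lit 2380) (nat_lit 0) .nil) .nil))) 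
(.lf (nat_lit 448123) (.g (nat_lit 2337) (.e (nat_lit 437) (nat_lit 32) (.e (nat_lit 426305) (nat_lit 12) (.e (nat_lit 475185) (nat_lit 29) (.e (nat_lit 557100) (nat_lit 13) (.e (nat_lit 172113) (nat_lit 10) .nil))))) (.g (nat_lit 0) (.e (nat_lit 4794) (nat_lit 0) .nil) .nil)))) (.nd (nat_lit 9) 
(.lf (nat_lit 447867) (.g (nat_lit 2846) (.e (nat_lit 395) (nat_lit 32) (.e (nat_lit 426341) (nat_lit 14) (.e (nat_lit 491537) (nat_lit 2) (.e (nat_lit 90170) (nat_lit 13) (.e (nat_lit 172113) (nat_lit 10) .nil))))) (.g (nat_lit 0) (.e (nat_lit 4190) (nat_lit 0) .nil) .nil))) 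
(.lf (nat_lit 448379) (.g (nat_lit 4532) (.e (nat_lit 430) (nat_lit 32) (.e (nat_lit 426306) (nat_lit 12) (.e (nat_lit 475185) (nat_lit 29) (.e (nat_lit 557100) (nat_lit 13) (.e (nat_lit 172113) (nat_lit 10) (.e (nat_lit 434245) (nat_lit 28) (.e (nat_lit 573451) (nat_lit 9) .nil))))))) (.g (nat_lit 1) (.e (nat_lit 5777) (nat_lit 0) .nil) .nil))))) (.nd (nat_lit 8) (.nd (nat_lit 9) 
(.lf (nat_lit 447739) (.g (nat_lit 3310) (.e (nat_lit 396) (nat_lit 32) (.e (nat_lit 426121) (nat_lit 2) (.e (nat_lit 196666) (nat_lit 13) (.e (nat_lit 65610) (nat_lit 10) (.e (nat_lit 344129) (nat_lit 26) (.e (nat_lit 557074) (nat_lit 9) (.e (nat_lit 2739) (nat_lit 174) (.e (nat_lit 253959) (nat_lit 9) .nil)))))))) (.g (nat_lit 1) (.e (nat_lit 3445) (nat_lit 0) .nil) .nil))) 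
(.lf (nat_lit 448251) (.g (nat_lit 1121) (.e (nat_lit 426) (nat_lit 32) (.e (nat_lit 426341) (nat_lit 14) (.e (nat_lit 491570) (nat_lit 13) (.e (nat_lit 393260) (nat_lit 21) .nil)))) (.g (nat_lit 0) (.e (nat_lit 5414) (nat_lit 0) .nil) .nil)))) (.nd (nat_lit 9) 
(.lf (nat_lit 447995) (.g (nat_lit 1851) (.e (nat_lit 404) (nat_lit 32) (.e (nat_lit 426340) (nat_lit 14) (.e (nat_lit 491570) (nat_lit 13) (.e (nat_lit 393238) (nat_lit 17) (.e (nat_lit 7114) (nat_lit 381) (.e (nat_lit 229644) (nat_lit 232) .nil)))))) (.g (nat_lit 1) (.e (nat_lit 4503) (nat_lit 0) .nil) .nil))) 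
(.lf (nat_lit 448507) (.g (nat_lit 4153) (.e (nat_lit 430) (nat_lit 32) (.e (nat_lit 426343) (nat_lit 14) (.e (nat_lit 491540) (nat_lit 3) (.e (nat_lit 98373) (nat_lit 29) (.e (nat_lit 450587) (nat_lit 10) (.e (nat_lit 573457) (nat_lit 9) .nil)))))) (.g (nat_lit 1) (.e (nat_lit 6003) (nat_lit 0) .nil) .nil)))))))))) 
(.nd (nat_lit 3) (.nd (nat_lit 4) (.nd (nat_lit 5) (.nd (nat_lit 6) (.nd (nat_lit 7) 
(.nd (nat_lit 8) (.nd (nat_lit 9) 
(.lf (nat_lit 447495) (.g (nat_lit 3551) (.e (nat_lit 375) (nat_lit 32) (.e (nat_lit 426125) (nat_lit 2) (.e (nat_lit 196666) (nat_lit 13) (.e (nat_lit 65610) (nat_lit 10) (.e (nat_lit 344129) (nat_lit 26) (.e (nat_lit 557089) (nat_lit 12) (.e (nat_lit 164022) (nat_lit 46) (.e (nat_lit 704627) (nat_lit 9) .nil)))))))) (.g (nat_lit 1) (.e (nat_lit 2190) (nat_lit 0) .nil) .nil))) 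
(.lf (nat_lit 448007) (.g (nat_lit 3734) (.e (nat_lit 414) (nat_lit 32) (.e (nat_lit 426125) (nat_lit 2) (.e (nat_lit 196666) (nat_lit 13) (.e (nat_lit 65617) (nat_lit 10) (.e (nat_lit 344130) (nat_lit 26) .nil))))) (.g (nat_lit 0) (.e (nat_lit 4550) (nat_lit 0) .nil) .nil)))) (.nd (nat_lit 9) 
(.lf (nat_lit 447751) (.g (nat_lit 5041) (.e (nat_lit 396) (nat_lit 32) (.e (nat_lit 426123) (nat_lit 2) (.e (nat_lit 196666) (nat_lit 13) (.e (nat_lit 65610) (nat_lit 10) (.e (nat_lit 344129) (nat_lit 26) (.e (nat_lit 557067) (nat_lit 9) (.e (nat_lit 2739) (nat_lit 174) (.e (nat_lit 253959) (nat_lit 9) .nil)))))))) (.g (nat_lit 1) (.e (nat_lit 3457) (nat_lit 0) .nil) .nil))) 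
(.lf (nat_lit 448263) (.g (nat_lit 2112) (.e (nat_lit 427) (nat_lit 32) (.e (nat_lit 426190) (nat_lit 9) (.e (nat_lit 426566) (nat_lit 34) (.e (nat_lit 393253) (nat_lit 18) (.e (nat_lit 164329) (nat_lit 230) .nil))))) (.g (nat_lit 0) (.e (nat_lit 5430) (nat_lit 0) .nil) .nil))))) (.nd (nat_lit 8) (.nd (nat_lit 9) 
(.lf (nat_lit 447623) (.g (nat_lit 2303) (.e (nat_lit 375) (nat_lit 32) (.e (nat_lit 426317) (nat_lit 12) (.e (nat_lit 475183) (nat_lit 29) (.e (nat_lit 557098) (nat_lit 13) (.e (nat_lit 172115) (nat_lit 10) (.e (nat_lit 434244) (nat_lit 28) (.e (nat_lit 573450) (nat_lit 9) .nil))))))) (.g (nat_lit 1) (.e (nat_lit 2902) (nat_lit 0) .nil) .nil))) 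
(.lf (nat_lit 448135) (.g (nat_lit 1257) (.e (nat_lit 439) (nat_lit 32) (.e (nat_lit 426523) (nat_lit 27) (.e (nat_lit 336076) (nat_lit 9) (.e (nat_lit 336320) (nat_lit 17) (.e (nat_lit 196698) (nat_lit 19) (.e (nat_lit 57809) (nat_lit 246) (.e (nat_lit 57879) (nat_lit 270) .nil))))))) (.g (nat_lit 1) (.e (nat_lit 4856) (nat_lit 0) .nil) .nil)))) (.nd (nat_lit 9) 
(.lf (nat_lit 447879) (.g (nat_lit 4546) (.e (nat_lit 399) (nat_lit 32) (.e (nat_lit 426139) (nat_lit 3) (.e (nat_lit 204869) (nat_lit 29) (.e (nat_lit 360475) (nat_lit 8) (.e (nat_lit 557091) (nat_lit 12) (.e (nat_lit 164022) (nat_lit 46) (.e (nat_lit 704628) (nat_lit 9) .nil))))))) (.g (nat_lit 1) (.e (nat_lit 4210) (nat_lit 0) .nil) .nil))) 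
(.lf (nat_lit 448391) (.g (nat_lit 4190) (.e (nat_lit 430) (nat_lit 32) (.e (nat_lit 426308) (nat_lit 12) (.e (nat_lit 475183) (nat_lit 29) (.e (nat_lit 557100) (nat_lit 13) (.e (nat_lit 172113) (nat_lit 10) (.e (nat_lit 434247) (nat_lit 28) (.e (nat_lit 573457) (nat_lit 9) .nil))))))) (.g (nat_lit 1) (.e (nat_lit 5790) (nat_lit 0) .nil) .nil)))))) 
(.nd (nat_lit 7) (.nd (nat_lit 8) (.nd (nat_lit 9) 
(.lf (nat_lit 447559) (.g (nat_lit 4733) (.e (nat_lit 375) (nat_lit 32) (.e (nat_lit 426125) (nat_lit 2) (.e (nat_lit 196666) (nat_lit 13) (.e (nat_lit 65617) (nat_lit 10) (.e (nat_lit 344132) (nat_lit 26) (.e (nat_lit 557093) (nat_lit 12) (.e (nat_lit 164022) (nat_lit 46) (.e (nat_lit 704627) (nat_lit 9) .nil)))))))) (.g (nat_lit 1) (.e (nat_lit 2266) (nat_lit 0) .nil) .nil))) 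
(.lf (nat_lit 448071) (.g (nat_lit 3611) (.e (nat_lit 411) (nat_lit 32) (.e (nat_lit 426340) (nat_lit 14) (.e (nat_lit 491540) (nat_lit 3) (.e (nat_lit 98373) (nat_lit 29) (.e (nat_lit 450586) (nat_lit 10) (.e (nat_lit 573450) (nat_lit 9) .nil)))))) (.g (nat_lit 1) (.e (nat_lit 4677) (nat_lit 0) .nil) .nil)))) (.nd (nat_lit 9) 
(.lf (nat_lit 447815) (.g (nat_lit 2208) (.e (nat_lit 396) (nat_lit 32) (.e (nat_lit 426343) (nat_lit 14) (.e (nat_lit 491536) (nat_lit 2) (.e (nat_lit 90170) (nat_lit 13) (.e (nat_lit 172113) (nat_lit 10) (.e (nat_lit 434248) (nat_lit 28) (.e (nat_lit 573452) (nat_lit 9) .nil))))))) (.g (nat_lit 1) (.e (nat_lit 3736) (nat_lit 0) .nil) .nil))) 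
(.lf (nat_lit 448327) (.g (nat_lit 2737) (.e (nat_lit 430) (nat_lit 32) (.e (nat_lit 426012) (nat_lit 0) (.e (nat_lit 7583) (nat_lit 405) (.e (nat_lit 57464) (nat_lit 23) (.e (nat_lit 516166) (nat_lit 12) (.e (nat_lit 450587) (nat_lit 10) (.e (nat_lit 573457) (nat_lit 9) .nil))))))) (.g (nat_lit 1) (.e (nat_lit 5567) (nat_lit 0) .nil) .nil))))) (.nd (nat_lit 8) (.nd (nat_lit 9) 
(.lf (nat_lit 447687) (.g (nat_lit 2055) (.e (nat_lit 391) (nat_lit 32) (.e (nat_lit 426190) (nat_lit 9) (.e (nat_lit 426566) (nat_lit 34) (.e (nat_lit 393251) (nat_lit 18) (.e (nat_lit 164325) (nat_lit 230) .nil))))) (.g (nat_lit 0) (.e (nat_lit 3086) (nat_lit 0) .nil) .nil))) 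
(.lf (nat_lit 448199) (.g (nat_lit 5088) (.e (nat_lit 426) (nat_lit 32) (.e (nat_lit 426188) (nat_lit 9) (.e (nat_lit 426354) (nat_lit 15) (.e (nat_lit 1860) (nat_lit 124) (.e (nat_lit 557101) (nat_lit 13) (.e (nat_lit 172115) (nat_lit 10) (.e (nat_lit 434244) (nat_lit 28) (.e (nat_lit 573458) (nat_lit 9) .nil)))))))) (.g (nat_lit 1) (.e (nat_lit 5215) (nat_lit 0) .nil) .nil)))) (.nd (nat_lit 9) 
(.lf (nat_lit 447943) (.g (nat_lit 2041) (.e (nat_lit 401) (nat_lit 32) (.e (nat_lit 426340) (nat_lit 14) (.e (nat_lit 491570) (nat_lit 13) (.e (nat_lit 393260) (nat_lit 21) (.e (nat_lit 409618) (nat_lit 10) .nil))))) (.g (nat_lit 0) (.e (nat_lit 4386) (nat_lit 0) .nil) .nil))) 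
(.lf (nat_lit 448455) (.g (nat_lit 3808) (.e (nat_lit 430) (nat_lit 32) (.e (nat_lit 426342) (nat_lit 14) (.e (nat_lit 491540) (nat_lit 3) (.e (nat_lit 98373) (nat_lit 29) (.e (nat_lit 450588) (nat_lit 10) (.e (nat_lit 573452) (nat_lit 9) .nil)))))) (.g (nat_lit 1) (.e (nat_lit 5950) (nat_lit 0) .nil) .nil))))))) (.nd (nat_lit 6) (.nd (nat_lit 7) (.nd (nat_lit 8) (.nd (nat_lit 9) 
(.lf (nat_lit 447527) (.g (nat_lit 4215) (.e (nat_lit 375) (nat_lit 32) (.e (nat_lit 426125) (nat_lit 2) (.e (nat_lit 196666) (nat_lit 13) (.e (nat_lit 65610) (nat_lit 10) (.e (nat_lit 344131) (nat_lit 26) (.e (nat_lit 557093) (nat_lit 12) (.e (nat_lit 164023) (nat_lit 46) (.e (nat_lit 704626) (nat_lit 9) .nil)))))))) (.g (nat_lit 1) (.e (nat_lit 2225) (nat_lit 0) .nil) .nil))) 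
(.lf (nat_lit 448039) (.g (nat_lit 3837) (.e (nat_lit 411) (nat_lit 32) (.e (nat_lit 426125) (nat_lit 2) (.e (nat_lit 196666) (nat_lit 13) (.e (nat_lit 65617) (nat_lit 10) (.e (nat_lit 344132) (nat_lit 26) (.e (nat_lit 557094) (nat_lit 12) (.e (nat_lit 164022) (nat_lit 46) (.e (nat_lit 704628) (nat_lit 9) .nil)))))))) (.g (nat_lit 1) (.e (nat_lit 4611) (nat_lit 0) .nil) .nil)))) (.nd (nat_lit 9) 
(.lf (nat_lit 447783) (.g (nat_lit 2427) (.e (nat_lit 396) (nat_lit 32) (.e (nat_lit 426308) (nat_lit 12) (.e (nat_lit 475183) (nat_lit 29) (.e (nat_lit 557100) (nat_lit 13) (.e (nat_lit 172113) (nat_lit 10) (.e (nat_lit 434245) (nat_lit 28) (.e (nat_lit 573451) (nat_lit 9) .nil))))))) (.g (nat_lit 1) (.e (nat_lit 3543) (nat_lit 0) .nil) .nil))) 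
(.lf (nat_lit 448295) (.g (nat_lit 3932) (.e (nat_lit 430) (nat_lit 32) (.e (nat_lit 426011) (nat_lit 0) (.e (nat_lit 7486) (nat_lit 402) (.e (nat_lit 1256) (nat_lit 92) (.e (nat_lit 98373) (nat_lit 29) (.e (nat_lit 450588) (nat_lit 10) (.e (nat_lit 573457) (nat_lit 9) .nil))))))) (.g (nat_lit 1) (.e (nat_lit 5535) (nat_lit 0) .nil) .nil))))) (.nd (nat_lit 8) (.nd (nat_lit 9) 
(.lf (nat_lit 447655) (.g (nat_lit 3213) (.e (nat_lit 388) (nat_lit 32) (.e (nat_lit 426121) (nat_lit 2) (.e (nat_lit 196666) (nat_lit 13) (.e (nat_lit 65617) (nat_lit 10) (.e (nat_lit 344133) (nat_lit 26) (.e (nat_lit 557091) (nat_lit 12) (.e (nat_lit 164022) (nat_lit 46) (.e (nat_lit 704628) (nat_lit 9) .nil)))))))) (.g (nat_lit 1) (.e (nat_lit 2998) (nat_lit 0) .nil) .nil))) 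
(.lf (nat_lit 448167) (.g (nat_lit 1711) (.e (nat_lit 416) (nat_lit 32) (.e (nat_lit 426190) (nat_lit 9) (.e (nat_lit 426566) (nat_lit 34) (.e (nat_lit 393253) (nat_lit 18) (.e (nat_lit 164325) (nat_lit 230) .nil))))) (.g (nat_lit 0) (.e (nat_lit 4936) (nat_lit 0) .nil) .nil)))) (.nd (nat_lit 9) 
(.lf (nat_lit 447911) (.g (nat_lit 3915) (.e (nat_lit 398) (nat_lit 32) (.e (nat_lit 426123) (nat_lit 2) (.e (nat_lit 196666) (nat_lit 13) (.e (nat_lit 65617) (nat_lit 10) (.e (nat_lit 344130) (nat_lit 26) (.e (nat_lit 557090) (nat_lit 12) (.e (nat_lit 164022) (nat_lit 46) (.e (nat_lit 704629) (nat_lit 9) .nil)))))))) (.g (nat_lit 1) (.e (nat_lit 4293) (nat_lit 0) .nil) .nil))) 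
(.lf (nat_lit 448423) (.g (nat_lit 2748) (.e (nat_lit 430) (nat_lit 32) (.e (nat_lit 426316) (nat_lit 12) (.e (nat_lit 475185) (nat_lit 29) (.e (nat_lit 557098) (nat_lit 13) .nil)))) (.g (nat_lit 0) (.e (nat_lit 5822) (nat_lit 0) .nil) .nil)))))) (.nd (nat_lit 7) (.nd (nat_lit 8) (.nd (nat_lit 9) 
(.lf (nat_lit 447591) (.g (nat_lit 5090) (.e (nat_lit 375) (nat_lit 32) (.e (nat_lit 426140) (nat_lit 3) (.e (nat_lit 204868) (nat_lit 29) (.e (nat_lit 360475) (nat_lit 8) (.e (nat_lit 557091) (nat_lit 12) (.e (nat_lit 164022) (nat_lit 46) (.e (nat_lit 704629) (nat_lit 9) .nil))))))) (.g (nat_lit 1) (.e (nat_lit 2306) (nat_lit 0) .nil) .nil))) 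
(.lf (nat_lit 448103) (.g (nat_lit 2311) (.e (nat_lit 436) (nat_lit 32) (.e (nat_lit 426137) (nat_lit 3) (.e (nat_lit 204869) (nat_lit 29) (.e (nat_lit 360474) (nat_lit 8) (.e (nat_lit 557094) (nat_lit 12) (.e (nat_lit 164022) (nat_lit 46) (.e (nat_lit 704626) (nat_lit 9) .nil))))))) (.g (nat_lit 1) (.e (nat_lit 4727) (nat_lit 0) .nil) .nil)))) (.nd (nat_lit 9) 
(.lf (nat_lit 447847) (.g (nat_lit 1615) (.e (nat_lit 395) (nat_lit 32) (.e (nat_lit 426188) (nat_lit 9) (.e (nat_lit 426566) (nat_lit 34) (.e (nat_lit 393253) (nat_lit 18) (.e (nat_lit 164326) (nat_lit 230) (.e (nat_lit 163871) (nat_lit 2) (.e (nat_lit 196626) (nat_lit 9) .nil))))))) (.g (nat_lit 1) (.e (nat_lit 4123) (nat_lit 0) .nil) .nil))) 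
(.lf (nat_lit 448359) (.g (nat_lit 3802) (.e (nat_lit 430) (nat_lit 32) (.e (nat_lit 426190) (nat_lit 9) (.e (nat_lit 426566) (nat_lit 34) (.e (nat_lit 393254) (nat_lit 18) (.e (nat_lit 164332) (nat_lit 230) .nil))))) (.g (nat_lit 0) (.e (nat_lit 5711) (nat_lit 0) .nil) .nil))))) (.nd (nat_lit 8) (.nd (nat_lit 9) 
(.lf (nat_lit 447719) (.g (nat_lit 2520) (.e (nat_lit 392) (nat_lit 32) (.e (nat_lit 426316) (nat_lit 12) (.e (nat_lit 475185) (nat_lit 29) (.e (nat_lit 557107) (nat_lit 15) (.e (nat_lit 188440) (nat_lit 20) (.e (nat_lit 3307) (nat_lit 202) (.e (nat_lit 573463) (nat_lit 9) .nil))))))) (.g (nat_lit 1) (.e (nat_lit 3341) (nat_lit 0) .nil) .nil))) 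
(.lf (nat_lit 448231) (.g (nat_lit 3941) (.e (nat_lit 426) (nat_lit 32) (.e (nat_lit 426315) (nat_lit 12) (.e (nat_lit 475185) (nat_lit 29) (.e (nat_lit 557101) (nat_lit 13) (.e (nat_lit 172115) (nat_lit 10) (.e (nat_lit 434244) (nat_lit 28) (.e (nat_lit 573458) (nat_lit 9) .nil))))))) (.g (nat_lit 1) (.e (nat_lit 5278) (nat_lit 0) .nil) .nil)))) (.nd (nat_lit 9) 
(.lf (nat_lit 447975) (.g (nat_lit 1305) (.e (nat_lit 403) (nat_lit 32) (.e (nat_lit 426340) (nat_lit 14) (.e (nat_lit 491571) (nat_lit 13) (.e (nat_lit 393230) (nat_lit 17) .nil)))) (.g (nat_lit 0) (.e (nat_lit 4453) (nat_lit 0) .nil) .nil))) 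
(.lf (nat_lit 448487) (.g (nat_lit 3488) (.e (nat_lit 430) (nat_lit 32) (.e (nat_lit 426343) (nat_lit 14) (.e (nat_lit 491538) (nat_lit 3) (.e (nat_lit 98372) (nat_lit 29) (.e (nat_lit 450588) (nat_lit 10) (.e (nat_lit 573452) (nat_lit 9) .nil)))))) (.g (nat_lit 1) (.e (nat_lit 5983) (nat_lit 0) .nil) .nil)))))))) 
(.nd (nat_lit 5) (.nd (nat_lit 6) (.nd (nat_lit 7) (.nd (nat_lit 8) (.nd (nat_lit 9) 
(.lf (nat_lit 447511) (.g (nat_lit 5015) (.e (nat_lit 375) (nat_lit 32) (.e (nat_lit 426125) (nat_lit 2) (.e (nat_lit 196666) (nat_lit 13) (.e (nat_lit 65610) (nat_lit 10) (.e (nat_lit 344129) (nat_lit 26) (.e (nat_lit 557093) (nat_lit 12) (.e (nat_lit 164022) (nat_lit 46) (.e (nat_lit 704628) (nat_lit 9) .nil)))))))) (.g (nat_lit 1) (.e (nat_lit 2207) (nat_lit 0) .nil) .nil))) 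
(.lf (nat_lit 448023) (.g (nat_lit 5006) (.e (nat_lit 411) (nat_lit 32) (.e (nat_lit 426113) (nat_lit 2) (.e (nat_lit 196666) (nat_lit 13) (.e (nat_lit 65617) (nat_lit 10) (.e (nat_lit 344133) (nat_lit 26) (.e (nat_lit 557091) (nat_lit 12) (.e (nat_lit 164022) (nat_lit 46) (.e (nat_lit 704629) (nat_lit 9) .nil)))))))) (.g (nat_lit 1) (.e (nat_lit 4595) (nat_lit 0) .nil) .nil)))) (.nd (nat_lit 9) 
(.lf (nat_lit 447767) (.g (nat_lit 2865) (.e (nat_lit 396) (nat_lit 32) (.e (nat_lit 426139) (nat_lit 3) (.e (nat_lit 204869) (nat_lit 29) (.e (nat_lit 360474) (nat_lit 8) (.e (nat_lit 557093) (nat_lit 12) (.e (nat_lit 164023) (nat_lit 46) (.e (nat_lit 704645) (nat_lit 9) .nil))))))) (.g (nat_lit 1) (.e (nat_lit 3511) (nat_lit 0) .nil) .nil))) 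
(.lf (nat_lit 448279) (.g (nat_lit 3420) (.e (nat_lit 425) (nat_lit 32) (.e (nat_lit 426343) (nat_lit 14) (.e (nat_lit 491570) (nat_lit 13) (.e (nat_lit 393260) (nat_lit 21) (.e (nat_lit 409616) (nat_lit 10) (.e (nat_lit 7936) (nat_lit 298) .nil)))))) (.g (nat_lit 1) (.e (nat_lit 5515) (nat_lit 0) .nil) .nil))))) (.nd (nat_lit 8) (.nd (nat_lit 9) 
(.lf (nat_lit 447639) (.g (nat_lit 3797) (.e (nat_lit 379) (nat_lit 32) (.e (nat_lit 426428) (nat_lit 17) (.e (nat_lit 90174) (nat_lit 14) (.e (nat_lit 180250) (nat_lit 10) (.e (nat_lit 573482) (nat_lit 13) (.e (nat_lit 65568) (nat_lit 2) (.e (nat_lit 98048) (nat_lit 0) .nil))))))) (.g (nat_lit 1) (.e (nat_lit 2968) (nat_lit 0) .nil) .nil))) 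
(.lf (nat_lit 448151) (.g (nat_lit 3506) (.e (nat_lit 416) (nat_lit 32) (.e (nat_lit 426121) (nat_lit 2) (.e (nat_lit 196666) (nat_lit 13) (.e (nat_lit 65617) (nat_lit 10) (.e (nat_lit 344132) (nat_lit 26) (.e (nat_lit 557093) (nat_lit 12) (.e (nat_lit 164022) (nat_lit 46) (.e (nat_lit 704626) (nat_lit 9) .nil)))))))) (.g (nat_lit 1) (.e (nat_lit 4907) (nat_lit 0) .nil) .nil)))) (.nd (nat_lit 9) 
(.lf (nat_lit 447895) (.g (nat_lit 2843) (.e (nat_lit 397) (nat_lit 32) (.e (nat_lit 426316) (nat_lit 12) (.e (nat_lit 475185) (nat_lit 29) (.e (nat_lit 557098) (nat_lit 13) .nil)))) (.g (nat_lit 0) (.e (nat_lit 4261) (nat_lit 0) .nil) .nil))) 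
(.lf (nat_lit 448407) (.g (nat_lit 2900) (.e (nat_lit 430) (nat_lit 32) (.e (nat_lit 426308) (nat_lit 12) (.e (nat_lit 475184) (nat_lit 29) (.e (nat_lit 557107) (nat_lit 15) (.e (nat_lit 188440) (nat_lit 20) (.e (nat_lit 3307) (nat_lit 202) (.e (nat_lit 573457) (nat_lit 9) .nil))))))) (.g (nat_lit 1) (.e (nat_lit 5806) (nat_lit 0) .nil) .nil)))))) 
(.nd (nat_lit 7) (.nd (nat_lit 8) (.nd (nat_lit 9) 
(.lf (nat_lit 447575) (.g (nat_lit 4436) (.e (nat_lit 375) (nat_lit 32) (.e (nat_lit 426135) (nat_lit 3) (.e (nat_lit 204869) (nat_lit 29) (.e (nat_lit 360474) (nat_lit 8) (.e (nat_lit 557093) (nat_lit 12) (.e (nat_lit 164022) (nat_lit 46) (.e (nat_lit 704628) (nat_lit 9) .nil))))))) (.g (nat_lit 1) (.e (nat_lit 2287) (nat_lit 0) .nil) .nil))) 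
(.lf (nat_lit 448087) (.g (nat_lit 2809) (.e (nat_lit 436) (nat_lit 32) (.e (nat_lit 426121) (nat_lit 2) (.e (nat_lit 196666) (nat_lit 13) (.e (nat_lit 65617) (nat_lit 10) (.e (nat_lit 344132) (nat_lit 26) (.e (nat_lit 557093) (nat_lit 12) (.e (nat_lit 164023) (nat_lit 46) (.e (nat_lit 704626) (nat_lit 9) .nil)))))))) (.g (nat_lit 1) (.e (nat_lit 4703) (nat_lit 0) .nil) .nil)))) (.nd (nat_lit 9) 
(.lf (nat_lit 447831) (.g (nat_lit 2488) (.e (nat_lit 394) (nat_lit 32) (.e (nat_lit 426308) (nat_lit 12) (.e (nat_lit 475183) (nat_lit 29) (.e (nat_lit 557097) (nat_lit 13) (.e (nat_lit 172115) (nat_lit 10) (.e (nat_lit 434244) (nat_lit 28) (.e (nat_lit 573458) (nat_lit 9) .nil))))))) (.g (nat_lit 1) (.e (nat_lit 3961) (nat_lit 0) .nil) .nil))) 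
(.lf (nat_lit 448343) (.g (nat_lit 2918) (.e (nat_lit 430) (nat_lit 32) (.e (nat_lit 426189) (nat_lit 9) (.e (nat_lit 426566) (nat_lit 34) (.e (nat_lit 393254) (nat_lit 18) (.e (nat_lit 164327) (nat_lit 230) (.e (nat_lit 163870) (nat_lit 2) (.e (nat_lit 196630) (nat_lit 9) .nil))))))) (.g (nat_lit 1) (.e (nat_lit 5685) (nat_lit 0) .nil) .nil))))) (.nd (nat_lit 8) (.nd (nat_lit 9) 
(.lf (nat_lit 447703) (.g (nat_lit 3937) (.e (nat_lit 392) (nat_lit 32) (.e (nat_lit 426316) (nat_lit 12) (.e (nat_lit 475185) (nat_lit 29) (.e (nat_lit 557097) (nat_lit 13) .nil)))) (.g (nat_lit 0) (.e (nat_lit 3325) (nat_lit 0) .nil) .nil))) 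
(.lf (nat_lit 448215) (.g (nat_lit 3724) (.e (nat_lit 426) (nat_lit 32) (.e (nat_lit 426306) (nat_lit 12) (.e (nat_lit 475184) (nat_lit 29) (.e (nat_lit 557100) (nat_lit 13) (.e (nat_lit 172113) (nat_lit 10) (.e (nat_lit 434245) (nat_lit 28) (.e (nat_lit 573458) (nat_lit 9) .nil))))))) (.g (nat_lit 1) (.e (nat_lit 5262) (nat_lit 0) .nil) .nil)))) (.nd (nat_lit 9) 
(.lf (nat_lit 447959) (.g (nat_lit 2521) (.e (nat_lit 403) (nat_lit 32) (.e (nat_lit 426339) (nat_lit 14) (.e (nat_lit 491571) (nat_lit 13) (.e (nat_lit 393232) (nat_lit 17) (.e (nat_lit 7110) (nat_lit 380) (.e (nat_lit 164340) (nat_lit 232) .nil)))))) (.g (nat_lit 1) (.e (nat_lit 4433) (nat_lit 0) .nil) .nil))) 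
(.lf (nat_lit 448471) (.g (nat_lit 4800) (.e (nat_lit 430) (nat_lit 32) (.e (nat_lit 426343) (nat_lit 14) (.e (nat_lit 491536) (nat_lit 2) (.e (nat_lit 90170) (nat_lit 13) (.e (nat_lit 172106) (nat_lit 10) (.e (nat_lit 434244) (nat_lit 28) (.e (nat_lit 573451) (nat_lit 9) .nil))))))) (.g (nat_lit 1) (.e (nat_lit 5967) (nat_lit 0) .nil) .nil))))))) 
(.nd (nat_lit 6) (.nd (nat_lit 7) (.nd (nat_lit 8) (.nd (nat_lit 9) 
(.lf (nat_lit 447543) (.g (nat_lit 2773) (.e (nat_lit 375) (nat_lit 32) (.e (nat_lit 426125) (nat_lit 2) (.e (nat_lit 196666) (nat_lit 13) (.e (nat_lit 65610) (nat_lit 10) (.e (nat_lit 344133) (nat_lit 26) .nil))))) (.g (nat_lit 0) (.e (nat_lit 2241) (nat_lit 0) .nil) .nil))) 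
(.lf (nat_lit 448055) (.g (nat_lit 5342) (.e (nat_lit 411) (nat_lit 32) (.e (nat_lit 426140) (nat_lit 3) (.e (nat_lit 204868) (nat_lit 29) (.e (nat_lit 360475) (nat_lit 8) (.e (nat_lit 557091) (nat_lit 12) (.e (nat_lit 164022) (nat_lit 46) (.e (nat_lit 704629) (nat_lit 9) .nil))))))) (.g (nat_lit 1) (.e (nat_lit 4636) (nat_lit 0) .nil) .nil)))) (.nd (nat_lit 9) 
(.lf (nat_lit 447799) (.g (nat_lit 2561) (.e (nat_lit 396) (nat_lit 32) (.e (nat_lit 426316) (nat_lit 12) (.e (nat_lit 475185) (nat_lit 29) (.e (nat_lit 557101) (nat_lit 13) .nil)))) (.g (nat_lit 0) (.e (nat_lit 3562) (nat_lit 0) .nil) .nil))) 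
(.lf (nat_lit 448311) (.g (nat_lit 2024) (.e (nat_lit 430) (nat_lit 32) (.e (nat_lit 426011) (nat_lit 0) (.e (nat_lit 7548) (nat_lit 402) (.e (nat_lit 1235) (nat_lit 91) (.e (nat_lit 90170) (nat_lit 13) (.e (nat_lit 172113) (nat_lit 10) (.e (nat_lit 434247) (nat_lit 28) (.e (nat_lit 573456) (nat_lit 9) .nil)))))))) (.g (nat_lit 1) (.e (nat_lit 5551) (nat_lit 0) .nil) .nil))))) 
(.nd (nat_lit 8) (.nd (nat_lit 9) 
(.lf (nat_lit 447671) (.g (nat_lit 2339) (.e (nat_lit 389) (nat_lit 32) (.e (nat_lit 426190) (nat_lit 9) (.e (nat_lit 426566) (nat_lit 34) (.e (nat_lit 393253) (nat_lit 18) (.e (nat_lit 164324) (nat_lit 230) .nil))))) (.g (nat_lit 0) (.e (nat_lit 3049) (nat_lit 0) .nil) .nil))) 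
(.lf (nat_lit 448183) (.g (nat_lit 3667) (.e (nat_lit 422) (nat_lit 32) (.e (nat_lit 426198) (nat_lit 9) (.e (nat_lit 426402) (nat_lit 15) (.e (nat_lit 1858) (nat_lit 124) (.e (nat_lit 557101) (nat_lit 13) (.e (nat_lit 172115) (nat_lit 10) (.e (nat_lit 434244) (nat_lit 28) (.e (nat_lit 573458) (nat_lit 9) .nil)))))))) (.g (nat_lit 1) (.e (nat_lit 5007) (nat_lit 0) .nil) .nil)))) (.nd (nat_lit 9) 
(.lf (nat_lit 447927) (.g (nat_lit 4229) (.e (nat_lit 401) (nat_lit 32) (.e (nat_lit 426338) (nat_lit 14) (.e (nat_lit 491571) (nat_lit 13) (.e (nat_lit 393260) (nat_lit 21) (.e (nat_lit 409618) (nat_lit 10) .nil))))) (.g (nat_lit 0) (.e (nat_lit 4362) (nat_lit 0) .nil) .nil))) 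
(.lf (nat_lit 448439) (.g (nat_lit 1912) (.e (nat_lit 430) (nat_lit 32) (.e (nat_lit 426342) (nat_lit 14) (.e (nat_lit 491537) (nat_lit 2) (.e (nat_lit 90170) (nat_lit 13) (.e (nat_lit 172113) (nat_lit 10) (.e (nat_lit 434242) (nat_lit 28) (.e (nat_lit 573456) (nat_lit 9) .nil))))))) (.g (nat_lit 1) (.e (nat_lit 5934) (nat_lit 0) .nil) .nil)))))) (.nd (nat_lit 7) (.nd (nat_lit 8) (.nd (nat_lit 9) 
(.lf (nat_lit 447607) (.g (nat_lit 3394) (.e (nat_lit 375) (nat_lit 32) (.e (nat_lit 426173) (nat_lit 7) (.e (nat_lit 409616) (nat_lit 10) (.e (nat_lit 934) (nat_lit 76) (.e (nat_lit 786480) (nat_lit 29) (.e (nat_lit 352312) (nat_lit 22) (.e (nat_lit 98048) (nat_lit 0) .nil))))))) (.g (nat_lit 1) (.e (nat_lit 2325) (nat_lit 0) .nil) .nil))) 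
(.lf (nat_lit 448119) (.g (nat_lit 3740) (.e (nat_lit 436) (nat_lit 32) (.e (nat_lit 426316) (nat_lit 12) (.e (nat_lit 475185) (nat_lit 29) (.e (nat_lit 557098) (nat_lit 13) (.e (nat_lit 172115) (nat_lit 10) .nil))))) (.g (nat_lit 0) (.e (nat_lit 4755) (nat_lit 0) .nil) .nil)))) (.nd (nat_lit 9) 
(.lf (nat_lit 447863) (.g (nat_lit 2525) (.e (nat_lit 395) (nat_lit 32) (.e (nat_lit 426316) (nat_lit 12) (.e (nat_lit 475185) (nat_lit 29) (.e (nat_lit 557107) (nat_lit 15) (.e (nat_lit 188440) (nat_lit 20) (.e (nat_lit 3307) (nat_lit 202) (.e (nat_lit 573448) (nat_lit 9) .nil))))))) (.g (nat_lit 1) (.e (nat_lit 4148) (nat_lit 0) .nil) .nil))) 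
(.lf (nat_lit 448375) (.g (nat_lit 2556) (.e (nat_lit 430) (nat_lit 32) (.e (nat_lit 426305) (nat_lit 12) (.e (nat_lit 475185) (nat_lit 29) (.e (nat_lit 557100) (nat_lit 13) (.e (nat_lit 172113) (nat_lit 10) (.e (nat_lit 434245) (nat_lit 28) (.e (nat_lit 573451) (nat_lit 9) .nil))))))) (.g (nat_lit 1) (.e (nat_lit 5773) (nat_lit 0) .nil) .nil))))) (.nd (nat_lit 8) (.nd (nat_lit 9) 
(.lf (nat_lit 447735) (.g (nat_lit 2053) (.e (nat_lit 396) (nat_lit 32) (.e (nat_lit 426011) (nat_lit 0) (.e (nat_lit 7581) (nat_lit 405) (.e (nat_lit 57464) (nat_lit 23) .nil)))) (.g (nat_lit 0) (.e (nat_lit 3440) (nat_lit 0) .nil) .nil))) 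
(.lf (nat_lit 448247) (.g (nat_lit 3732) (.e (nat_lit 426) (nat_lit 32) (.e (nat_lit 426338) (nat_lit 14) (.e (nat_lit 491537) (nat_lit 2) (.e (nat_lit 90170) (nat_lit 13) (.e (nat_lit 172106) (nat_lit 10) (.e (nat_lit 434244) (nat_lit 28) (.e (nat_lit 573458) (nat_lit 9) .nil))))))) (.g (nat_lit 1) (.e (nat_lit 5410) (nat_lit 0) .nil) .nil)))) (.nd (nat_lit 9) 
(.lf (nat_lit 447991) (.g (nat_lit 2234) (.e (nat_lit 404) (nat_lit 32) (.e (nat_lit 426340) (nat_lit 14) (.e (nat_lit 491549) (nat_lit 9) (.e (nat_lit 336421) (nat_lit 28) (.e (nat_lit 434198) (nat_lit 17) (.e (nat_lit 229646) (nat_lit 232) .nil)))))) (.g (nat_lit 1) (.e (nat_lit 4499) (nat_lit 0) .nil) .nil))) 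
(.lf (nat_lit 448503) (.g (nat_lit 2961) (.e (nat_lit 430) (nat_lit 32) (.e (nat_lit 426343) (nat_lit 14) (.e (nat_lit 491540) (nat_lit 3) (.e (nat_lit 98372) (nat_lit 29) (.e (nat_lit 450586) (nat_lit 10) (.e (nat_lit 573456) (nat_lit 9) .nil)))))) (.g (nat_lit 1) (.e (nat_lit 5999) (nat_lit 0) .nil) .nil))))))))) 
(.nd (nat_lit 4) (.nd (nat_lit 5) (.nd (nat_lit 6) (.nd (nat_lit 7) (.nd (nat_lit 8) 
(.nd (nat_lit 9) 
(.lf (nat_lit 447503) (.g (nat_lit 5330) (.e (nat_lit 375) (nat_lit 32) (.e (nat_lit 426125) (nat_lit 2) (.e (nat_lit 196666) (nat_lit 13) (.e (nat_lit 65610) (nat_lit 10) (.e (nat_lit 344129) (nat_lit 26) (.e (nat_lit 557092) (nat_lit 12) (.e (nat_lit 164022) (nat_lit 46) (.e (nat_lit 704626) (nat_lit 9) .nil)))))))) (.g (nat_lit 1) (.e (nat_lit 2199) (nat_lit 0) .nil) .nil))) 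
(.lf (nat_lit 448015) (.g (nat_lit 2538) (.e (nat_lit 414) (nat_lit 32) (.e (nat_lit 426340) (nat_lit 14) (.e (nat_lit 491571) (nat_lit 13) (.e (nat_lit 393260) (nat_lit 21) (.e (nat_lit 409616) (nat_lit 10) (.e (nat_lit 7936) (nat_lit 298) .nil)))))) (.g (nat_lit 1) (.e (nat_lit 4568) (nat_lit 0) .nil) .nil)))) (.nd (nat_lit 9) 
(.lf (nat_lit 447759) (.g (nat_lit 3795) (.e (nat_lit 396) (nat_lit 32) (.e (nat_lit 426123) (nat_lit 2) (.e (nat_lit 196666) (nat_lit 13) (.e (nat_lit 65617) (nat_lit 10) (.e (nat_lit 344132) (nat_lit 26) (.e (nat_lit 557093) (nat_lit 12) (.e (nat_lit 164023) (nat_lit 46) (.e (nat_lit 704644) (nat_lit 9) .nil)))))))) (.g (nat_lit 1) (.e (nat_lit 3465) (nat_lit 0) .nil) .nil))) 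
(.lf (nat_lit 448271) (.g (nat_lit 2162) (.e (nat_lit 425) (nat_lit 32) (.e (nat_lit 426190) (nat_lit 9) (.e (nat_lit 426566) (nat_lit 34) (.e (nat_lit 393253) (nat_lit 18) (.e (nat_lit 164329) (nat_lit 230) .nil))))) (.g (nat_lit 0) (.e (nat_lit 5497) (nat_lit 0) .nil) .nil))))) (.nd (nat_lit 8) (.nd (nat_lit 9) 
(.lf (nat_lit 447631) (.g (nat_lit 2947) (.e (nat_lit 375) (nat_lit 32) (.e (nat_lit 426345) (nat_lit 14) (.e (nat_lit 491537) (nat_lit 2) (.e (nat_lit 90170) (nat_lit 13) (.e (nat_lit 172113) (nat_lit 10) (.e (nat_lit 434245) (nat_lit 28) (.e (nat_lit 573450) (nat_lit 9) .nil))))))) (.g (nat_lit 1) (.e (nat_lit 2936) (nat_lit 0) .nil) .nil))) 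
(.lf (nat_lit 448143) (.g (nat_lit 3741) (.e (nat_lit 440) (nat_lit 32) (.e (nat_lit 426139) (nat_lit 3) (.e (nat_lit 204869) (nat_lit 29) (.e (nat_lit 360474) (nat_lit 8) (.e (nat_lit 557091) (nat_lit 12) (.e (nat_lit 164022) (nat_lit 46) (.e (nat_lit 704627) (nat_lit 9) .nil))))))) (.g (nat_lit 1) (.e (nat_lit 4885) (nat_lit 0) .nil) .nil)))) (.nd (nat_lit 9) 
(.lf (nat_lit 447887) (.g (nat_lit 2177) (.e (nat_lit 397) (nat_lit 32) (.e (nat_lit 426190) (nat_lit 9) (.e (nat_lit 426566) (nat_lit 34) (.e (nat_lit 393251) (nat_lit 18) (.e (nat_lit 164332) (nat_lit 230) (.e (nat_lit 163867) (nat_lit 2) (.e (nat_lit 196628) (nat_lit 9) .nil))))))) (.g (nat_lit 1) (.e (nat_lit 4251) (nat_lit 0) .nil) .nil))) 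
(.lf (nat_lit 448399) (.g (nat_lit 4447) (.e (nat_lit 430) (nat_lit 32) (.e (nat_lit 426308) (nat_lit 12) (.e (nat_lit 475184) (nat_lit 29) (.e (nat_lit 557098) (nat_lit 13) (.e (nat_lit 172115) (nat_lit 10) (.e (nat_lit 434244) (nat_lit 28) (.e (nat_lit 573449) (nat_lit 9) .nil))))))) (.g (nat_lit 1) (.e (nat_lit 5798) (nat_lit 0) .nil) .nil)))))) 
(.nd (nat_lit 7) (.nd (nat_lit 8) (.nd (nat_lit 9) 
(.lf (nat_lit 447567) (.g (nat_lit 3457) (.e (nat_lit 375) (nat_lit 32) (.e (nat_lit 426134) (nat_lit 3) (.e (nat_lit 204869) (nat_lit 29) (.e (nat_lit 360474) (nat_lit 8) (.e (nat_lit 557094) (nat_lit 12) (.e (nat_lit 164022) (nat_lit 46) (.e (nat_lit 704629) (nat_lit 9) .nil))))))) (.g (nat_lit 1) (.e (nat_lit 2276) (nat_lit 0) .nil) .nil))) 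
(.lf (nat_lit 448079) (.g (nat_lit 3766) (.e (nat_lit 412) (nat_lit 32) (.e (nat_lit 426316) (nat_lit 12) (.e (nat_lit 475185) (nat_lit 29) (.e (nat_lit 557098) (nat_lit 13) (.e (nat_lit 172115) (nat_lit 10) .nil))))) (.g (nat_lit 0) (.e (nat_lit 4685) (nat_lit 0) .nil) .nil)))) (.nd (nat_lit 9) 
(.lf (nat_lit 447823) (.g (nat_lit 576) (.e (nat_lit 396) (nat_lit 32) (.e (nat_lit 426343) (nat_lit 14) (.e (nat_lit 491540) (nat_lit 3) .nil))) (.g (nat_lit 0) (.e (nat_lit 3744) (nat_lit 0) .nil) .nil))) 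
(.lf (nat_lit 448335) (.g (nat_lit 2534) (.e (nat_lit 430) (nat_lit 32) (.e (nat_lit 426137) (nat_lit 3) (.e (nat_lit 204869) (nat_lit 29) (.e (nat_lit 360474) (nat_lit 8) (.e (nat_lit 557093) (nat_lit 12) (.e (nat_lit 164022) (nat_lit 46) (.e (nat_lit 704644) (nat_lit 9) .nil))))))) (.g (nat_lit 1) (.e (nat_lit 5665) (nat_lit 0) .nil) .nil))))) (.nd (nat_lit 8) (.nd (nat_lit 9) 
(.lf (nat_lit 447695) (.g (nat_lit 1619) (.e (nat_lit 392) (nat_lit 32) (.e (nat_lit 426188) (nat_lit 9) (.e (nat_lit 426566) (nat_lit 34) (.e (nat_lit 393253) (nat_lit 18) (.e (nat_lit 164326) (nat_lit 230) (.e (nat_lit 163871) (nat_lit 2) (.e (nat_lit 196623) (nat_lit 9) .nil))))))) (.g (nat_lit 1) (.e (nat_lit 3308) (nat_lit 0) .nil) .nil))) 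
(.lf (nat_lit 448207) (.g (nat_lit 5310) (.e (nat_lit 426) (nat_lit 32) (.e (nat_lit 426200) (nat_lit 9) (.e (nat_lit 426354) (nat_lit 15) (.e (nat_lit 1860) (nat_lit 124) (.e (nat_lit 557101) (nat_lit 13) (.e (nat_lit 172115) (nat_lit 10) (.e (nat_lit 434244) (nat_lit 28) (.e (nat_lit 573458) (nat_lit 9) .nil)))))))) (.g (nat_lit 1) (.e (nat_lit 5245) (nat_lit 0) .nil) .nil)))) (.nd (nat_lit 9) 
(.lf (nat_lit 447951) (.g (nat_lit 3335) (.e (nat_lit 401) (nat_lit 32) (.e (nat_lit 426340) (nat_lit 14) (.e (nat_lit 491571) (nat_lit 13) (.e (nat_lit 393260) (nat_lit 21) (.e (nat_lit 409618) (nat_lit 10) (.e (nat_lit 5363) (nat_lit 298) .nil)))))) (.g (nat_lit 1) (.e (nat_lit 4404) (nat_lit 0) .nil) .nil))) 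
(.lf (nat_lit 448463) (.g (nat_lit 3713) (.e (nat_lit 430) (nat_lit 32) (.e (nat_lit 426343) (nat_lit 14) (.e (nat_lit 491526) (nat_lit 0) (.e (nat_lit 1788) (nat_lit 119) (.e (nat_lit 516165) (nat_lit 12) (.e (nat_lit 450586) (nat_lit 10) (.e (nat_lit 573457) (nat_lit 9) .nil))))))) (.g (nat_lit 1) (.e (nat_lit 5959) (nat_lit 0) .nil) .nil))))))) 
(.nd (nat_lit 6) (.nd (nat_lit 7) (.nd (nat_lit 8) (.nd (nat_lit 9) 
(.lf (nat_lit 447535) (.g (nat_lit 3419) (.e (nat_lit 375) (nat_lit 32) (.e (nat_lit 426125) (nat_lit 2) (.e (nat_lit 196666) (nat_lit 13) (.e (nat_lit 65610) (nat_lit 10) (.e (nat_lit 344132) (nat_lit 26) (.e (nat_lit 557091) (nat_lit 12) (.e (nat_lit 164022) (nat_lit 46) (.e (nat_lit 704628) (nat_lit 9) .nil)))))))) (.g (nat_lit 1) (.e (nat_lit 2233) (nat_lit 0) .nil) .nil))) 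
(.lf (nat_lit 448047) (.g (nat_lit 3679) (.e (nat_lit 411) (nat_lit 32) (.e (nat_lit 426140) (nat_lit 3) (.e (nat_lit 204868) (nat_lit 29) (.e (nat_lit 360473) (nat_lit 8) (.e (nat_lit 557091) (nat_lit 12) (.e (nat_lit 164022) (nat_lit 46) (.e (nat_lit 704628) (nat_lit 9) .nil))))))) (.g (nat_lit 1) (.e (nat_lit 4628) (nat_lit 0) .nil) .nil)))) (.nd (nat_lit 9) 
(.lf (nat_lit 447791) (.g (nat_lit 2702) (.e (nat_lit 396) (nat_lit 32) (.e (nat_lit 426314) (nat_lit 12) (.e (nat_lit 475185) (nat_lit 29) (.e (nat_lit 557100) (nat_lit 13) (.e (nat_lit 172113) (nat_lit 10) (.e (nat_lit 434245) (nat_lit 28) (.e (nat_lit 573451) (nat_lit 9) .nil))))))) (.g (nat_lit 1) (.e (nat_lit 3551) (nat_lit 0) .nil) .nil))) 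
(.lf (nat_lit 448303) (.g (nat_lit 2595) (.e (nat_lit 430) (nat_lit 32) (.e (nat_lit 426011) (nat_lit 0) (.e (nat_lit 7523) (nat_lit 402) (.e (nat_lit 1235) (nat_lit 91) (.e (nat_lit 90170) (nat_lit 13) (.e (nat_lit 172113) (nat_lit 10) (.e (nat_lit 434245) (nat_lit 28) (.e (nat_lit 573451) (nat_lit 9) .nil)))))))) (.g (nat_lit 1) (.e (nat_lit 5543) (nat_lit 0) .nil) .nil))))) 
(.nd (nat_lit 8) (.nd (nat_lit 9) 
(.lf (nat_lit 447663) (.g (nat_lit 2339) (.e (nat_lit 389) (nat_lit 32) (.e (nat_lit 426121) (nat_lit 2) (.e (nat_lit 196666) (nat_lit 13) (.e (nat_lit 65617) (nat_lit 10) (.e (nat_lit 344130) (nat_lit 26) .nil))))) (.g (nat_lit 0) (.e (nat_lit 3035) (nat_lit 0) .nil) .nil))) 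
(.lf (nat_lit 448175) (.g (nat_lit 3423) (.e (nat_lit 416) (nat_lit 32) (.e (nat_lit 426316) (nat_lit 12) (.e (nat_lit 475185) (nat_lit 29) (.e (nat_lit 557101) (nat_lit 13) (.e (nat_lit 172115) (nat_lit 10) .nil))))) (.g (nat_lit 0) (.e (nat_lit 4944) (nat_lit 0) .nil) .nil)))) (.nd (nat_lit 9) 
(.lf (nat_lit 447919) (.g (nat_lit 1667) (.e (nat_lit 398) (nat_lit 32) (.e (nat_lit 426190) (nat_lit 9) (.e (nat_lit 426566) (nat_lit 34) (.e (nat_lit 393253) (nat_lit 18) (.e (nat_lit 164332) (nat_lit 230) .nil))))) (.g (nat_lit 0) (.e (nat_lit 4306) (nat_lit 0) .nil) .nil))) 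
(.lf (nat_lit 448431) (.g (nat_lit 3624) (.e (nat_lit 430) (nat_lit 32) (.e (nat_lit 426338) (nat_lit 14) (.e (nat_lit 491540) (nat_lit 3) (.e (nat_lit 98373) (nat_lit 29) (.e (nat_lit 450587) (nat_lit 10) (.e (nat_lit 573457) (nat_lit 9) .nil)))))) (.g (nat_lit 1) (.e (nat_lit 5926) (nat_lit 0) .nil) .nil)))))) (.nd (nat_lit 7) (.nd (nat_lit 8) (.nd (nat_lit 9) 
(.lf (nat_lit 447599) (.g (nat_lit 518) (.e (nat_lit 375) (nat_lit 32) (.e (nat_lit 426173) (nat_lit 7) (.e (nat_lit 409612) (nat_lit 10) .nil))) (.g (nat_lit 0) (.e (nat_lit 2314) (nat_lit 0) .nil) .nil))) 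
(.lf (nat_lit 448111) (.g (nat_lit 4812) (.e (nat_lit 436) (nat_lit 32) (.e (nat_lit 426139) (nat_lit 3) (.e (nat_lit 204869) (nat_lit 29) (.e (nat_lit 360474) (nat_lit 8) (.e (nat_lit 557093) (nat_lit 12) (.e (nat_lit 164022) (nat_lit 46) (.e (nat_lit 704628) (nat_lit 9) .nil))))))) (.g (nat_lit 1) (.e (nat_lit 4746) (nat_lit 0) .nil) .nil)))) (.nd (nat_lit 9) 
(.lf (nat_lit 447855) (.g (nat_lit 3160) (.e (nat_lit 395) (nat_lit 32) (.e (nat_lit 426316) (nat_lit 12) (.e (nat_lit 475185) (nat_lit 29) (.e (nat_lit 557098) (nat_lit 13) (.e (nat_lit 172111) (nat_lit 10) .nil))))) (.g (nat_lit 0) (.e (nat_lit 4140) (nat_lit 0) .nil) .nil))) 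
(.lf (nat_lit 448367) (.g (nat_lit 2558) (.e (nat_lit 430) (nat_lit 32) (.e (nat_lit 426298) (nat_lit 11) (.e (nat_lit 458789) (nat_lit 23) (.e (nat_lit 532482) (nat_lit 0) (.e (nat_lit 6724) (nat_lit 362) (.e (nat_lit 180250) (nat_lit 10) (.e (nat_lit 573457) (nat_lit 9) .nil))))))) (.g (nat_lit 1) (.e (nat_lit 5765) (nat_lit 0) .nil) .nil))))) (.nd (nat_lit 8) (.nd (nat_lit 9) 
(.lf (nat_lit 447727) (.g (nat_lit 3880) (.e (nat_lit 392) (nat_lit 32) (.e (nat_lit 426343) (nat_lit 14) (.e (nat_lit 491570) (nat_lit 13) (.e (nat_lit 393260) (nat_lit 21) (.e (nat_lit 409623) (nat_lit 10) (.e (nat_lit 5293) (nat_lit 298) .nil)))))) (.g (nat_lit 1) (.e (nat_lit 3394) (nat_lit 0) .nil) .nil))) 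
(.lf (nat_lit 448239) (.g (nat_lit 3290) (.e (nat_lit 426) (nat_lit 32) (.e (nat_lit 426316) (nat_lit 12) (.e (nat_lit 475185) (nat_lit 29) (.e (nat_lit 557098) (nat_lit 13) (.e (nat_lit 172105) (nat_lit 10) (.e (nat_lit 434244) (nat_lit 28) (.e (nat_lit 573458) (nat_lit 9) .nil))))))) (.g (nat_lit 1) (.e (nat_lit 5289) (nat_lit 0) .nil) .nil)))) (.nd (nat_lit 9) 
(.lf (nat_lit 447983) (.g (nat_lit 2735) (.e (nat_lit 403) (nat_lit 32) (.e (nat_lit 426340) (nat_lit 14) (.e (nat_lit 491571) (nat_lit 13) (.e (nat_lit 393260) (nat_lit 21) (.e (nat_lit 409617) (nat_lit 10) (.e (nat_lit 5353) (nat_lit 298) .nil)))))) (.g (nat_lit 1) (.e (nat_lit 4462) (nat_lit 0) .nil) .nil))) 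
(.lf (nat_lit 448495) (.g (nat_lit 3415) (.e (nat_lit 430) (nat_lit 32) (.e (nat_lit 426343) (nat_lit 14) (.e (nat_lit 491539) (nat_lit 3) (.e (nat_lit 98373) (nat_lit 29) (.e (nat_lit 450587) (nat_lit 10) (.e (nat_lit 573452) (nat_lit 9) .nil)))))) (.g (nat_lit 1) (.e (nat_lit 5991) (nat_lit 0) .nil) .nil)))))))) 
(.nd (nat_lit 5) (.nd (nat_lit 6) (.nd (nat_lit 7) (.nd (nat_lit 8) (.nd (nat_lit 9) 
(.lf (nat_lit 447519) (.g (nat_lit 5950) (.e (nat_lit 375) (nat_lit 32) (.e (nat_lit 426125) (nat_lit 2) (.e (nat_lit 196666) (nat_lit 13) (.e (nat_lit 65610) (nat_lit 10) (.e (nat_lit 344130) (nat_lit 26) (.e (nat_lit 557090) (nat_lit 12) (.e (nat_lit 164022) (nat_lit 46) (.e (nat_lit 704629) (nat_lit 9) .nil)))))))) (.g (nat_lit 1) (.e (nat_lit 2217) (nat_lit 0) .nil) .nil))) 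
(.lf (nat_lit 448031) (.g (nat_lit 2206) (.e (nat_lit 411) (nat_lit 32) (.e (nat_lit 426125) (nat_lit 2) (.e (nat_lit 196666) (nat_lit 13) (.e (nat_lit 65617) (nat_lit 10) (.e (nat_lit 344127) (nat_lit 26) (.e (nat_lit 557094) (nat_lit 12) (.e (nat_lit 164022) (nat_lit 46) (.e (nat_lit 704629) (nat_lit 9) .nil)))))))) (.g (nat_lit 1) (.e (nat_lit 4603) (nat_lit 0) .nil) .nil)))) (.nd (nat_lit 9) 
(.lf (nat_lit 447775) (.g (nat_lit 1664) (.e (nat_lit 396) (nat_lit 32) (.e (nat_lit 426190) (nat_lit 9) (.e (nat_lit 426566) (nat_lit 34) (.e (nat_lit 393253) (nat_lit 18) (.e (nat_lit 164327) (nat_lit 230) .nil))))) (.g (nat_lit 0) (.e (nat_lit 3521) (nat_lit 0) .nil) .nil))) 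
(.lf (nat_lit 448287) (.g (nat_lit 3459) (.e (nat_lit 430) (nat_lit 32) (.e (nat_lit 426010) (nat_lit 0) (.e (nat_lit 7581) (nat_lit 405) (.e (nat_lit 57464) (nat_lit 23) (.e (nat_lit 516166) (nat_lit 12) (.e (nat_lit 450588) (nat_lit 10) (.e (nat_lit 573457) (nat_lit 9) .nil))))))) (.g (nat_lit 1) (.e (nat_lit 5523) (nat_lit 0) .nil) .nil))))) (.nd (nat_lit 8) (.nd (nat_lit 9) 
(.lf (nat_lit 447647) (.g (nat_lit 554) (.e (nat_lit 386) (nat_lit 32) (.e (nat_lit 426129) (nat_lit 3) (.e (nat_lit 204868) (nat_lit 29) .nil))) (.g (nat_lit 0) (.e (nat_lit 2980) (nat_lit 0) .nil) .nil))) 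
(.lf (nat_lit 448159) (.g (nat_lit 3575) (.e (nat_lit 416) (nat_lit 32) (.e (nat_lit 426123) (nat_lit 2) (.e (nat_lit 196666) (nat_lit 13) (.e (nat_lit 65617) (nat_lit 10) (.e (nat_lit 344132) (nat_lit 26) (.e (nat_lit 557093) (nat_lit 12) (.e (nat_lit 164023) (nat_lit 46) (.e (nat_lit 704627) (nat_lit 9) .nil)))))))) (.g (nat_lit 1) (.e (nat_lit 4915) (nat_lit 0) .nil) .nil)))) (.nd (nat_lit 9) 
(.lf (nat_lit 447903) (.g (nat_lit 2039) (.e (nat_lit 397) (nat_lit 32) (.e (nat_lit 426343) (nat_lit 14) (.e (nat_lit 491568) (nat_lit 13) (.e (nat_lit 393260) (nat_lit 21) (.e (nat_lit 409617) (nat_lit 10) .nil))))) (.g (nat_lit 0) (.e (nat_lit 4285) (nat_lit 0) .nil) .nil))) 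
(.lf (nat_lit 448415) (.g (nat_lit 2524) (.e (nat_lit 430) (nat_lit 32) (.e (nat_lit 426315) (nat_lit 12) (.e (nat_lit 475183) (nat_lit 29) (.e (nat_lit 557107) (nat_lit 15) (.e (nat_lit 188440) (nat_lit 20) (.e (nat_lit 3307) (nat_lit 202) (.e (nat_lit 573456) (nat_lit 9) .nil))))))) (.g (nat_lit 1) (.e (nat_lit 5814) (nat_lit 0) .nil) .nil)))))) 
(.nd (nat_lit 7) (.nd (nat_lit 8) (.nd (nat_lit 9) 
(.lf (nat_lit 447583) (.g (nat_lit 3739) (.e (nat_lit 375) (nat_lit 32) (.e (nat_lit 426140) (nat_lit 3) (.e (nat_lit 204868) (nat_lit 29) (.e (nat_lit 360473) (nat_lit 8) (.e (nat_lit 557093) (nat_lit 12) (.e (nat_lit 164022) (nat_lit 46) (.e (nat_lit 704628) (nat_lit 9) .nil))))))) (.g (nat_lit 1) (.e (nat_lit 2298) (nat_lit 0) .nil) .nil))) 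
(.lf (nat_lit 448095) (.g (nat_lit 3717) (.e (nat_lit 436) (nat_lit 32) (.e (nat_lit 426123) (nat_lit 2) (.e (nat_lit 196666) (nat_lit 13) (.e (nat_lit 65617) (nat_lit 10) (.e (nat_lit 344132) (nat_lit 26) (.e (nat_lit 557093) (nat_lit 12) (.e (nat_lit 164022) (nat_lit 46) (.e (nat_lit 704626) (nat_lit 9) .nil)))))))) (.g (nat_lit 1) (.e (nat_lit 4713) (nat_lit 0) .nil) .nil)))) (.nd (nat_lit 9) 
(.lf (nat_lit 447839) (.g (nat_lit 2177) (.e (nat_lit 394) (nat_lit 32) (.e (nat_lit 426338) (nat_lit 14) (.e (nat_lit 491537) (nat_lit 2) (.e (nat_lit 90170) (nat_lit 13) (.e (nat_lit 172113) (nat_lit 10) (.e (nat_lit 434245) (nat_lit 28) (.e (nat_lit 573458) (nat_lit 9) .nil))))))) (.g (nat_lit 1) (.e (nat_lit 4039) (nat_lit 0) .nil) .nil))) 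
(.lf (nat_lit 448351) (.g (nat_lit 2569) (.e (nat_lit 430) (nat_lit 32) (.e (nat_lit 426190) (nat_lit 9) (.e (nat_lit 426566) (nat_lit 34) (.e (nat_lit 393253) (nat_lit 18) (.e (nat_lit 164327) (nat_lit 230) (.e (nat_lit 163866) (nat_lit 2) (.e (nat_lit 196630) (nat_lit 9) .nil))))))) (.g (nat_lit 1) (.e (nat_lit 5703) (nat_lit 0) .nil) .nil))))) (.nd (nat_lit 8) (.nd (nat_lit 9) 
(.lf (nat_lit 447711) (.g (nat_lit 3208) (.e (nat_lit 392) (nat_lit 32) (.e (nat_lit 426316) (nat_lit 12) (.e (nat_lit 475185) (nat_lit 29) (.e (nat_lit 557107) (nat_lit 15) (.e (nat_lit 188440) (nat_lit 20) (.e (nat_lit 3307) (nat_lit 202) (.e (nat_lit 573449) (nat_lit 9) .nil))))))) (.g (nat_lit 1) (.e (nat_lit 3333) (nat_lit 0) .nil) .nil))) 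
(.lf (nat_lit 448223) (.g (nat_lit 2386) (.e (nat_lit 426) (nat_lit 32) (.e (nat_lit 426308) (nat_lit 12) (.e (nat_lit 475184) (nat_lit 29) (.e (nat_lit 557100) (nat_lit 13) (.e (nat_lit 172113) (nat_lit 10) (.e (nat_lit 434245) (nat_lit 28) (.e (nat_lit 573458) (nat_lit 9) .nil))))))) (.g (nat_lit 1) (.e (nat_lit 5270) (nat_lit 0) .nil) .nil)))) (.nd (nat_lit 9) 
(.lf (nat_lit 447967) (.g (nat_lit 2112) (.e (nat_lit 403) (nat_lit 32) (.e (nat_lit 426340) (nat_lit 14) (.e (nat_lit 491549) (nat_lit 9) (.e (nat_lit 336438) (nat_lit 31) (.e (nat_lit 458769) (nat_lit 16) (.e (nat_lit 164339) (nat_lit 232) .nil)))))) (.g (nat_lit 1) (.e (nat_lit 4445) (nat_lit 0) .nil) .nil))) 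
(.lf (nat_lit 448479) (.g (nat_lit 1978) (.e (nat_lit 430) (nat_lit 32) (.e (nat_lit 426343) (nat_lit 14) (.e (nat_lit 491537) (nat_lit 2) (.e (nat_lit 90170) (nat_lit 13) (.e (nat_lit 172113) (nat_lit 10) .nil))))) (.g (nat_lit 0) (.e (nat_lit 5975) (nat_lit 0) .nil) .nil))))))) (.nd (nat_lit 6) (.nd (nat_lit 7) (.nd (nat_lit 8) (.nd (nat_lit 9) 
(.lf (nat_lit 447551) (.g (nat_lit 5017) (.e (nat_lit 375) (nat_lit 32) (.e (nat_lit 426125) (nat_lit 2) (.e (nat_lit 196666) (nat_lit 13) (.e (nat_lit 65614) (nat_lit 10) (.e (nat_lit 344132) (nat_lit 26) (.e (nat_lit 557093) (nat_lit 12) (.e (nat_lit 164023) (nat_lit 46) (.e (nat_lit 704626) (nat_lit 9) .nil)))))))) (.g (nat_lit 1) (.e (nat_lit 2256) (nat_lit 0) .nil) .nil))) 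
(.lf (nat_lit 448063) (.g (nat_lit 4534) (.e (nat_lit 411) (nat_lit 32) (.e (nat_lit 426140) (nat_lit 3) (.e (nat_lit 204869) (nat_lit 29) (.e (nat_lit 360475) (nat_lit 8) (.e (nat_lit 557091) (nat_lit 12) (.e (nat_lit 164022) (nat_lit 46) (.e (nat_lit 704628) (nat_lit 9) .nil))))))) (.g (nat_lit 1) (.e (nat_lit 4645) (nat_lit 0) .nil) .nil)))) (.nd (nat_lit 9) 
(.lf (nat_lit 447807) (.g (nat_lit 4305) (.e (nat_lit 396) (nat_lit 32) (.e (nat_lit 426341) (nat_lit 14) (.e (nat_lit 491537) (nat_lit 2) (.e (nat_lit 90170) (nat_lit 13) (.e (nat_lit 172106) (nat_lit 10) (.e (nat_lit 434244) (nat_lit 28) (.e (nat_lit 573451) (nat_lit 9) .nil))))))) (.g (nat_lit 1) (.e (nat_lit 3728) (nat_lit 0) .nil) .nil))) 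
(.lf (nat_lit 448319) (.g (nat_lit 3168) (.e (nat_lit 430) (nat_lit 32) (.e (nat_lit 426012) (nat_lit 0) (.e (nat_lit 7486) (nat_lit 402) (.e (nat_lit 1256) (nat_lit 92) (.e (nat_lit 98373) (nat_lit 29) (.e (nat_lit 450587) (nat_lit 10) (.e (nat_lit 573457) (nat_lit 9) .nil))))))) (.g (nat_lit 1) (.e (nat_lit 5559) (nat_lit 0) .nil) .nil))))) (.nd (nat_lit 8) (.nd (nat_lit 9) 
(.lf (nat_lit 447679) (.g (nat_lit 2557) (.e (nat_lit 391) (nat_lit 32) (.e (nat_lit 426123) (nat_lit 2) (.e (nat_lit 196666) (nat_lit 13) (.e (nat_lit 65617) (nat_lit 10) .nil)))) (.g (nat_lit 0) (.e (nat_lit 3071) (nat_lit 0) .nil) .nil))) 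
(.lf (nat_lit 448191) (.g (nat_lit 1535) (.e (nat_lit 423) (nat_lit 32) (.e (nat_lit 426188) (nat_lit 9) (.e (nat_lit 426566) (nat_lit 34) (.e (nat_lit 393253) (nat_lit 18) (.e (nat_lit 164326) (nat_lit 230) (.e (nat_lit 163868) (nat_lit 2) (.e (nat_lit 196617) (nat_lit 9) .nil))))))) (.g (nat_lit 1) (.e (nat_lit 5049) (nat_lit 0) .nil) .nil)))) (.nd (nat_lit 9) 
(.lf (nat_lit 447935) (.g (nat_lit 2115) (.e (nat_lit 401) (nat_lit 32) (.e (nat_lit 426340) (nat_lit 14) (.e (nat_lit 491549) (nat_lit 9) (.e (nat_lit 336421) (nat_lit 28) (.e (nat_lit 434197) (nat_lit 16) (.e (nat_lit 164339) (nat_lit 232) .nil)))))) (.g (nat_lit 1) (.e (nat_lit 4374) (nat_lit 0) .nil) .nil))) 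
(.lf (nat_lit 448447) (.g (nat_lit 1982) (.e (nat_lit 430) (nat_lit 32) (.e (nat_lit 426342) (nat_lit 14) (.e (nat_lit 491539) (nat_lit 3) (.e (nat_lit 98372) (nat_lit 29) (.e (nat_lit 450586) (nat_lit 10) (.e (nat_lit 573457) (nat_lit 9) .nil)))))) (.g (nat_lit 1) (.e (nat_lit 5942) (nat_lit 0) .nil) .nil)))))) (.nd (nat_lit 7) (.nd (nat_lit 8) (.nd (nat_lit 9) 
(.lf (nat_lit 447615) (.g (nat_lit 2046) (.e (nat_lit 375) (nat_lit 32) (.e (nat_lit 426173) (nat_lit 7) (.e (nat_lit 409649) (nat_lit 18) (.e (nat_lit 303111) (nat_lit 0) (.e (nat_lit 3468) (nat_lit 217) (.e (nat_lit 696362) (nat_lit 17) (.e (nat_lit 81664) (nat_lit 40) .nil))))))) (.g (nat_lit 1) (.e (nat_lit 2536) (nat_lit 0) .nil) .nil))) 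
(.lf (nat_lit 448127) (.g (nat_lit 2553) (.e (nat_lit 437) (nat_lit 32) (.e (nat_lit 426316) (nat_lit 12) (.e (nat_lit 475185) (nat_lit 29) (.e (nat_lit 557107) (nat_lit 15) (.e (nat_lit 188440) (nat_lit 20) .nil))))) (.g (nat_lit 0) (.e (nat_lit 4798) (nat_lit 0) .nil) .nil)))) (.nd (nat_lit 9) 
(.lf (nat_lit 447871) (.g (nat_lit 3464) (.e (nat_lit 399) (nat_lit 32) (.e (nat_lit 426123) (nat_lit 2) (.e (nat_lit 196666) (nat_lit 13) (.e (nat_lit 65617) (nat_lit 10) (.e (nat_lit 344130) (nat_lit 26) (.e (nat_lit 557090) (nat_lit 12) (.e (nat_lit 164022) (nat_lit 46) (.e (nat_lit 704626) (nat_lit 9) .nil)))))))) (.g (nat_lit 1) (.e (nat_lit 4194) (nat_lit 0) .nil) .nil))) 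
(.lf (nat_lit 448383) (.g (nat_lit 393) (.e (nat_lit 430) (nat_lit 32) (.e (nat_lit 426308) (nat_lit 12) (.e (nat_lit 475183) (nat_lit 29) .nil))) (.g (nat_lit 0) (.e (nat_lit 5781) (nat_lit 0) .nil) .nil))))) (.nd (nat_lit 8) (.nd (nat_lit 9) 
(.lf (nat_lit 447743) (.g (nat_lit 3070) (.e (nat_lit 396) (nat_lit 32) (.e (nat_lit 426121) (nat_lit 2) (.e (nat_lit 196666) (nat_lit 13) (.e (nat_lit 65617) (nat_lit 10) (.e (nat_lit 344130) (nat_lit 26) (.e (nat_lit 557090) (nat_lit 12) (.e (nat_lit 164022) (nat_lit 46) (.e (nat_lit 704626) (nat_lit 9) .nil)))))))) (.g (nat_lit 1) (.e (nat_lit 3449) (nat_lit 0) .nil) .nil))) 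
(.lf (nat_lit 448255) (.g (nat_lit 2707) (.e (nat_lit 426) (nat_lit 32) (.e (nat_lit 426343) (nat_lit 14) (.e (nat_lit 491535) (nat_lit 2) (.e (nat_lit 90170) (nat_lit 13) (.e (nat_lit 172113) (nat_lit 10) (.e (nat_lit 434245) (nat_lit 28) (.e (nat_lit 573458) (nat_lit 9) .nil))))))) (.g (nat_lit 1) (.e (nat_lit 5418) (nat_lit 0) .nil) .nil)))) (.nd (nat_lit 9) 
(.lf (nat_lit 447999) (.g (nat_lit 3956) (.e (nat_lit 404) (nat_lit 32) (.e (nat_lit 426340) (nat_lit 14) (.e (nat_lit 491571) (nat_lit 13) (.e (nat_lit 393260) (nat_lit 21) (.e (nat_lit 409624) (nat_lit 10) .nil))))) (.g (nat_lit 0) (.e (nat_lit 4513) (nat_lit 0) .nil) .nil))) 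
(.lf (nat_lit 448511) (.g (nat_lit 2336) (.e (nat_lit 430) (nat_lit 32) (.e (nat_lit 426343) (nat_lit 14) (.e (nat_lit 491544) (nat_lit 7) (.e (nat_lit 319530) (nat_lit 16) (.e (nat_lit 286756) (nat_lit 10) (.e (nat_lit 344160) (nat_lit 37) (.e (nat_lit 647190) (nat_lit 9) .nil))))))) (.g (nat_lit 1) (.e (nat_lit 6007) (nat_lit 0) .nil) .nil)))))))))))))

noncomputable def tv5498 : DT := (.nd (nat_lit 0) (.nd (nat_lit 1) (.nd (nat_lit 2) (.nd (nat_lit 3) (.nd (nat_lit 4) (.nd (nat_lit 5) (.nd (nat_lit 6) (.nd (nat_lit 7) (.nd (nat_lit 8) (.nd (nat_lit 9) 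
(.lf (nat_lit 448512) (.g (nat_lit 4138) (.e (nat_lit 430) (nat_lit 32) (.e (nat_lit 426343) (nat_lit 14) (.e (nat_lit 491544) (nat_lit 7) (.e (nat_lit 319531) (nat_lit 16) (.e (nat_lit 286756) (nat_lit 10) (.e (nat_lit 344160) (nat_lit 37) (.e (nat_lit 647190) (nat_lit 9) .nil))))))) (.g (nat_lit 1) (.e (nat_lit 6008) (nat_lit 0) .nil) .nil))) 
(.lf (nat_lit 449024) (.g (nat_lit 2926) (.e (nat_lit 220) (nat_lit 20) (.e (nat_lit 327698) (nat_lit 8) (.e (nat_lit 303119) (nat_lit 3) (.e (nat_lit 204869) (nat_lit 29) (.e (nat_lit 360474) (nat_lit 8) (.e (nat_lit 557073) (nat_lit 9) .nil)))))) (.g (nat_lit 1) (.e (nat_lit 10382) (nat_lit 0) .nil) .nil)))) (.nd (nat_lit 9) 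
(.lf (nat_lit 448768) (.g (nat_lit 659) (.e (nat_lit 488) (nat_lit 38) (.e (nat_lit 475212) (nat_lit 42) (.e (nat_lit 720931) (nat_lit 21) .nil))) (.g (nat_lit 0) (.e (nat_lit 9672) (nat_lit 0) .nil) .nil))) 
(.lf (nat_lit 449280) (.g (nat_lit 2325) (.e (nat_lit 604) (nat_lit 45) (.e (nat_lit 532499) (nat_lit 1) (.e (nat_lit 57931) (nat_lit 282) (.e (nat_lit 163885) (nat_lit 5) (.e (nat_lit 221210) (nat_lit 22) .nil))))) (.g (nat_lit 0) (.e (nat_lit 11385) (nat_lit 0) .nil) .nil))))) (.nd (nat_lit 8) (.nd (nat_lit 9) 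
(.lf (nat_lit 448640) (.g (nat_lit 1691) (.e (nat_lit 447) (nat_lit 33) (.e (nat_lit 434180) (nat_lit 0) (.e (nat_lit 1428) (nat_lit 108) (.e (nat_lit 336421) (nat_lit 28) (.e (nat_lit 434198) (nat_lit 17) (.e (nat_lit 229644) (nat_lit 232) .nil)))))) (.g (nat_lit 1) (.e (nat_lit 6677) (nat_lit 0) .nil) .nil))) 
(.lf (nat_lit 449152) (.g (nat_lit 1375) (.e (nat_lit 300) (nat_lit 22) (.e (nat_lit 344068) (nat_lit 0) (.e (nat_lit 3090) (nat_lit 191) (.e (nat_lit 483372) (nat_lit 21) (.e (nat_lit 319505) (nat_lit 10) (.e (nat_lit 7936) (nat_lit 312) .nil)))))) (.g (nat_lit 1) (.e (nat_lit 10932) (nat_lit 0) .nil) .nil)))) (.nd (nat_lit 9) 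
(.lf (nat_lit 448896) (.g (nat_lit 1215) (.e (nat_lit 497) (nat_lit 39) (.e (nat_lit 483413) (nat_lit 27) (.e (nat_lit 409344) (nat_lit 17) (.e (nat_lit 90172) (nat_lit 14) (.e (nat_lit 188160) (nat_lit 32) .nil))))) (.g (nat_lit 0) (.e (nat_lit 10079) (nat_lit 0) .nil) .nil))) 
(.lf (nat_lit 449408) (.g (nat_lit 3560) (.e (nat_lit 632) (nat_lit 50) (.e (nat_lit 573489) (nat_lit 14) (.e (nat_lit 73754) (nat_lit 8) (.e (nat_lit 557100) (nat_lit 13) (.e (nat_lit 172065) (nat_lit 3) (.e (nat_lit 212736) (nat_lit 7) (.e (nat_lit 409616) (nat_lit 10) .nil))))))) (.g (nat_lit 1) (.e (nat_lit 11853) (nat_lit 0) .nil) .nil)))))) (.nd (nat_lit 7) (.nd (nat_lit 8) (.nd (nat_lit 9) 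
(.lf (nat_lit 448576) (.g (nat_lit 3798) (.e (nat_lit 435) (nat_lit 32) (.e (nat_lit 426123) (nat_lit 2) (.e (nat_lit 196666) (nat_lit 13) (.e (nat_lit 65617) (nat_lit 10) (.e (nat_lit 344132) (nat_lit 26) (.e (nat_lit 557094) (nat_lit 12) (.e (nat_lit 164022) (nat_lit 46) (.e (nat_lit 704627) (nat_lit 9) .nil)))))))) (.g (nat_lit 1) (.e (nat_lit 6121) (nat_lit 0) .nil) .nil))) 
(.lf (nat_lit 449088) (.g (nat_lit 3959) (.e (nat_lit 260) (nat_lit 21) (.e (nat_lit 336226) (nat_lit 14) (.e (nat_lit 401459) (nat_lit 13) (.e (nat_lit 483372) (nat_lit 21) (.e (nat_lit 319511) (nat_lit 10) .nil))))) (.g (nat_lit 0) (.e (nat_lit 10579) (nat_lit 0) .nil) .nil)))) (.nd (nat_lit 9) 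
(.lf (nat_lit 448832) (.g (nat_lit 3075) (.e (nat_lit 496) (nat_lit 39) (.e (nat_lit 483372) (nat_lit 21) (.e (nat_lit 319505) (nat_lit 10) (.e (nat_lit 618) (nat_lit 48) (.e (nat_lit 557105) (nat_lit 14) (.e (nat_lit 188160) (nat_lit 32) .nil)))))) (.g (nat_lit 1) (.e (nat_lit 9920) (nat_lit 0) .nil) .nil))) 
(.lf (nat_lit 449344) (.g (nat_lit 917) (.e (nat_lit 584) (nat_lit 43) (.e (nat_lit 516115) (nat_lit 1) (.e (nat_lit 164398) (nat_lit 256) .nil))) (.g (nat_lit 0) (.e (nat_lit 11574) (nat_lit 0) .nil) .nil))))) (.nd (nat_lit 8) (.nd (nat_lit 9) 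
(.lf (nat_lit 448704) (.g (nat_lit 3374) (.e (nat_lit 457) (nat_lit 34) (.e (nat_lit 442373) (nat_lit 0) (.e (nat_lit 1846) (nat_lit 124) (.e (nat_lit 557101) (nat_lit 13) (.e (nat_lit 172115) (nat_lit 10) (.e (nat_lit 434244) (nat_lit 28) (.e (nat_lit 573450) (nat_lit 9) .nil))))))) (.g (nat_lit 1) (.e (nat_lit 7427) (nat_lit 0) .nil) .nil))) 
(.lf (nat_lit 449216) (.g (nat_lit 1336) (.e (nat_lit 539) (nat_lit 41) (.e (nat_lit 500065) (nat_lit 18) (.e (nat_lit 65617) (nat_lit 10) (.e (nat_lit 344130) (nat_lit 26) .nil)))) (.g (nat_lit 0) (.e (nat_lit 11202) (nat_lit 0) .nil) .nil)))) (.nd (nat_lit 9) 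
(.lf (nat_lit 448960) (.g (nat_lit 621) (.e (nat_lit 500) (nat_lit 40) (.e (nat_lit 491569) (nat_lit 13) (.e (nat_lit 393301) (nat_lit 27) .nil))) (.g (nat_lit 0) (.e (nat_lit 10243) (nat_lit 0) .nil) .nil))) 
(.lf (nat_lit 449472) (.g (nat_lit 2537) (.e (nat_lit 632) (nat_lit 50) (.e (nat_lit 573489) (nat_lit 14) (.e (nat_lit 73755) (nat_lit 8) (.e (nat_lit 557105) (nat_lit 14) (.e (nat_lit 180252) (nat_lit 10) (.e (nat_lit 581376) (nat_lit 0) (.e (nat_lit 2824) (nat_lit 182) (.e (nat_lit 409611) (nat_lit 10) .nil)))))))) (.g (nat_lit 1) (.e (nat_lit 11978) (nat_lit 0) .nil) .nil))))))) 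
(.nd (nat_lit 6) (.nd (nat_lit 7) (.nd (nat_lit 8) (.nd (nat_lit 9) 
(.lf (nat_lit 448544) (.g (nat_lit 4521) (.e (nat_lit 432) (nat_lit 32) (.e (nat_lit 426347) (nat_lit 14) (.e (nat_lit 491571) (nat_lit 13) (.e (nat_lit 393260) (nat_lit 21) (.e (nat_lit 409625) (nat_lit 10) .nil))))) (.g (nat_lit 0) (.e (nat_lit 6056) (nat_lit 0) .nil) .nil))) 
(.lf (nat_lit 449056) (.g (nat_lit 3365) (.e (nat_lit 232) (nat_lit 21) (.e (nat_lit 336013) (nat_lit 2) (.e (nat_lit 90134) (nat_lit 9) (.e (nat_lit 3025) (nat_lit 187) (.e (nat_lit 450588) (nat_lit 10) (.e (nat_lit 573475) (nat_lit 12) (.e (nat_lit 57574) (nat_lit 55) (.e (nat_lit 778360) (nat_lit 9) .nil)))))))) (.g (nat_lit 1) (.e (nat_lit 10448) (nat_lit 0) .nil) .nil)))) (.nd (nat_lit 9) 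
(.lf (nat_lit 448800) (.g (nat_lit 597) (.e (nat_lit 494) (nat_lit 39) (.e (nat_lit 483412) (nat_lit 27) (.e (nat_lit 409344) (nat_lit 17) .nil))) (.g (nat_lit 0) (.e (nat_lit 9836) (nat_lit 0) .nil) .nil))) 
(.lf (nat_lit 449312) (.g (nat_lit 2577) (.e (nat_lit 7936) (nat_lit 45) (.e (nat_lit 532550) (nat_lit 12) (.e (nat_lit 360474) (nat_lit 8) (.e (nat_lit 557070) (nat_lit 9) .nil)))) (.g (nat_lit 0) (.e (nat_lit 11480) (nat_lit 0) .nil) .nil))))) (.nd (nat_lit 8) (.nd (nat_lit 9) 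
(.lf (nat_lit 448672) (.g (nat_lit 3158) (.e (nat_lit 452) (nat_lit 33) (.e (nat_lit 434231) (nat_lit 23) (.e (nat_lit 532549) (nat_lit 12) (.e (nat_lit 360474) (nat_lit 8) (.e (nat_lit 557093) (nat_lit 12) (.e (nat_lit 164022) (nat_lit 46) (.e (nat_lit 704626) (nat_lit 9) .nil))))))) (.g (nat_lit 1) (.e (nat_lit 6990) (nat_lit 0) .nil) .nil))) 
(.lf (nat_lit 449184) (.g (nat_lit 3754) (.e (nat_lit 307) (nat_lit 22) (.e (nat_lit 344097) (nat_lit 18) (.e (nat_lit 4715) (nat_lit 275) (.e (nat_lit 2610) (nat_lit 163) (.e (nat_lit 163977) (nat_lit 30) (.e (nat_lit 573482) (nat_lit 13) (.e (nat_lit 65619) (nat_lit 10) (.e (nat_lit 344129) (nat_lit 26) (.e (nat_lit 557066) (nat_lit 9) .nil))))))))) (.g (nat_lit 1) (.e (nat_lit 11034) (nat_lit 0) .nil) .nil)))) 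
(.nd (nat_lit 9) 
(.lf (nat_lit 448928) (.g (nat_lit 3863) (.e (nat_lit 498) (nat_lit 40) (.e (nat_lit 491569) (nat_lit 13) (.e (nat_lit 393301) (nat_lit 27) (.e (nat_lit 491559) (nat_lit 10) (.e (nat_lit 344095) (nat_lit 18) .nil))))) (.g (nat_lit 0) (.e (nat_lit 10181) (nat_lit 0) .nil) .nil))) 
(.lf (nat_lit 449440) (.g (nat_lit 3567) (.e (nat_lit 632) (nat_lit 50) (.e (nat_lit 573489) (nat_lit 14) (.e (nat_lit 73755) (nat_lit 8) (.e (nat_lit 557098) (nat_lit 13) (.e (nat_lit 172066) (nat_lit 3) (.e (nat_lit 212736) (nat_lit 7) (.e (nat_lit 409616) (nat_lit 10) .nil))))))) (.g (nat_lit 1) (.e (nat_lit 11906) (nat_lit 0) .nil) .nil)))))) (.nd (nat_lit 7) (.nd (nat_lit 8) (.nd (nat_lit 9) 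
(.lf (nat_lit 448608) (.g (nat_lit 4279) (.e (nat_lit 441) (nat_lit 33) (.e (nat_lit 434181) (nat_lit 0) (.e (nat_lit 1253) (nat_lit 92) (.e (nat_lit 98373) (nat_lit 29) (.e (nat_lit 450587) (nat_lit 10) (.e (nat_lit 573454) (nat_lit 9) .nil)))))) (.g (nat_lit 1) (.e (nat_lit 6214) (nat_lit 0) .nil) .nil))) 
(.lf (nat_lit 449120) (.g (nat_lit 3379) (.e (nat_lit 293) (nat_lit 21) (.e (nat_lit 335872) (nat_lit 0) (.e (nat_lit 6711) (nat_lit 360) (.e (nat_lit 163962) (nat_lit 25) (.e (nat_lit 532550) (nat_lit 12) (.e (nat_lit 360475) (nat_lit 8) (.e (nat_lit 557066) (nat_lit 9) .nil))))))) (.g (nat_lit 1) (.e (nat_lit 10856) (nat_lit 0) .nil) .nil)))) (.nd (nat_lit 9) 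
(.lf (nat_lit 448864) (.g (nat_lit 931) (.e (nat_lit 496) (nat_lit 39) (.e (nat_lit 483383) (nat_lit 23) (.e (nat_lit 343808) (nat_lit 17) .nil))) (.g (nat_lit 0) (.e (nat_lit 9961) (nat_lit 0) .nil) .nil))) 
(.lf (nat_lit 449376) (.g (nat_lit 2276) (.e (nat_lit 632) (nat_lit 50) (.e (nat_lit 573482) (nat_lit 13) (.e (nat_lit 65619) (nat_lit 10) (.e (nat_lit 344090) (nat_lit 18) (.e (nat_lit 7710) (nat_lit 414) (.e (nat_lit 163908) (nat_lit 12) (.e (nat_lit 426170) (nat_lit 7) (.e (nat_lit 409617) (nat_lit 10) .nil)))))))) (.g (nat_lit 1) (.e (nat_lit 11770) (nat_lit 0) .nil) .nil))))) 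
(.nd (nat_lit 8) (.nd (nat_lit 9) 
(.lf (nat_lit 448736) (.g (nat_lit 1287) (.e (nat_lit 463) (nat_lit 34) (.e (nat_lit 442396) (nat_lit 20) (.e (nat_lit 3572) (nat_lit 222) (.e (nat_lit 737300) (nat_lit 7) (.e (nat_lit 286747) (nat_lit 9) (.e (nat_lit 336013) (nat_lit 2) (.e (nat_lit 98048) (nat_lit 0) .nil))))))) (.g (nat_lit 1) (.e (nat_lit 7825) (nat_lit 0) .nil) .nil))) 
(.lf (nat_lit 449248) (.g (nat_lit 2391) (.e (nat_lit 595) (nat_lit 45) (.e (nat_lit 532550) (nat_lit 12) (.e (nat_lit 360475) (nat_lit 8) (.e (nat_lit 557086) (nat_lit 11) .nil)))) (.g (nat_lit 0) (.e (nat_lit 11279) (nat_lit 0) .nil) .nil)))) (.nd (nat_lit 9) 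
(.lf (nat_lit 448992) (.g (nat_lit 3630) (.e (nat_lit 503) (nat_lit 40) (.e (nat_lit 491563) (nat_lit 12) (.e (nat_lit 385074) (nat_lit 31) (.e (nat_lit 573484) (nat_lit 13) .nil)))) (.g (nat_lit 0) (.e (nat_lit 10306) (nat_lit 0) .nil) .nil))) 
(.lf (nat_lit 449504) (.g (nat_lit 2462) (.e (nat_lit 682) (nat_lit 58) (.e (nat_lit 638998) (nat_lit 8) (.e (nat_lit 172123) (nat_lit 13) (.e (nat_lit 483408) (nat_lit 26) (.e (nat_lit 385111) (nat_lit 53) (.e (nat_lit 811033) (nat_lit 11) .nil)))))) (.g (nat_lit 1) (.e (nat_lit 12294) (nat_lit 0) .nil) .nil)))))))) 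
(.nd (nat_lit 5) (.nd (nat_lit 6) (.nd (nat_lit 7) (.nd (nat_lit 8) (.nd (nat_lit 9) 
(.lf (nat_lit 448528) (.g (nat_lit 4077) (.e (nat_lit 430) (nat_lit 32) (.e (nat_lit 426344) (nat_lit 14) (.e (nat_lit 491536) (nat_lit 2) (.e (nat_lit 90178) (nat_lit 15) (.e (nat_lit 188440) (nat_lit 20) (.e (nat_lit 3307) (nat_lit 202) (.e (nat_lit 573456) (nat_lit 9) .nil))))))) (.g (nat_lit 1) (.e (nat_lit 6024) (nat_lit 0) .nil) .nil))) 
(.lf (nat_lit 449040) (.g (nat_lit 2501) (.e (nat_lit 224) (nat_lit 21) (.e (nat_lit 336228) (nat_lit 14) (.e (nat_lit 401459) (nat_lit 13) (.e (nat_lit 483350) (nat_lit 17) (.e (nat_lit 6113) (nat_lit 332) .nil))))) (.g (nat_lit 0) (.e (nat_lit 10404) (nat_lit 0) .nil) .nil)))) (.nd (nat_lit 9) 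
(.lf (nat_lit 448784) (.g (nat_lit 3430) (.e (nat_lit 492) (nat_lit 39) (.e (nat_lit 483365) (nat_lit 18) (.e (nat_lit 57847) (nat_lit 252) (.e (nat_lit 57368) (nat_lit 1) (.e (nat_lit 57854) (nat_lit 252) (.e (nat_lit 57389) (nat_lit 5) (.e (nat_lit 114723) (nat_lit 24) (.e (nat_lit 106507) (nat_lit 9) .nil)))))))) (.g (nat_lit 1) (.e (nat_lit 9735) (nat_lit 0) .nil) .nil))) 
(.lf (nat_lit 449296) (.g (nat_lit 2886) (.e (nat_lit 604) (nat_lit 45) (.e (nat_lit 532504) (nat_lit 1) (.e (nat_lit 57931) (nat_lit 282) (.e (nat_lit 163885) (nat_lit 5) (.e (nat_lit 221210) (nat_lit 22) (.e (nat_lit 196656) (nat_lit 11) (.e (nat_lit 16425) (nat_lit 7) (.e (nat_lit 409616) (nat_lit 10) .nil)))))))) (.g (nat_lit 1) (.e (nat_lit 11419) (nat_lit 0) .nil) .nil))))) 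
(.nd (nat_lit 8) (.nd (nat_lit 9) 
(.lf (nat_lit 448656) (.g (nat_lit 2925) (.e (nat_lit 450) (nat_lit 33) (.e (nat_lit 434231) (nat_lit 23) (.e (nat_lit 532550) (nat_lit 12) (.e (nat_lit 360474) (nat_lit 8) (.e (nat_lit 557093) (nat_lit 12) .nil))))) (.g (nat_lit 0) (.e (nat_lit 6856) (nat_lit 0) .nil) .nil))) 
(.lf (nat_lit 449168) (.g (nat_lit 2213) (.e (nat_lit 300) (nat_lit 22) (.e (nat_lit 344069) (nat_lit 0) (.e (nat_lit 3090) (nat_lit 191) (.e (nat_lit 483372) (nat_lit 21) (.e (nat_lit 319496) (nat_lit 10) (.e (nat_lit 5677) (nat_lit 312) .nil)))))) (.g (nat_lit 1) (.e (nat_lit 10964) (nat_lit 0) .nil) .nil)))) (.nd (nat_lit 9) 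
(.lf (nat_lit 448912) (.g (nat_lit 2088) (.e (nat_lit 498) (nat_lit 40) (.e (nat_lit 491565) (nat_lit 12) (.e (nat_lit 385067) (nat_lit 26) (.e (nat_lit 532513) (nat_lit 3) (.e (nat_lit 122624) (nat_lit 12) .nil))))) (.g (nat_lit 0) (.e (nat_lit 10144) (nat_lit 0) .nil) .nil))) 
(.lf (nat_lit 449424) (.g (nat_lit 2703) (.e (nat_lit 632) (nat_lit 50) (.e (nat_lit 573489) (nat_lit 14) (.e (nat_lit 73755) (nat_lit 8) (.e (nat_lit 557096) (nat_lit 13) (.e (nat_lit 172067) (nat_lit 3) (.e (nat_lit 212736) (nat_lit 7) (.e (nat_lit 409612) (nat_lit 10) .nil))))))) (.g (nat_lit 1) (.e (nat_lit 11877) (nat_lit 0) .nil) .nil)))))) (.nd (nat_lit 7) (.nd (nat_lit 8) (.nd (nat_lit 9) 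
(.lf (nat_lit 448592) (.g (nat_lit 3054) (.e (nat_lit 7936) (nat_lit 32) (.e (nat_lit 426316) (nat_lit 12) (.e (nat_lit 475185) (nat_lit 29) (.e (nat_lit 557098) (nat_lit 13) (.e (nat_lit 172115) (nat_lit 10) .nil))))) (.g (nat_lit 0) (.e (nat_lit 6191) (nat_lit 0) .nil) .nil))) 
(.lf (nat_lit 449104) (.g (nat_lit 2521) (.e (nat_lit 283) (nat_lit 21) (.e (nat_lit 336204) (nat_lit 12) (.e (nat_lit 385074) (nat_lit 31) (.e (nat_lit 573491) (nat_lit 15) (.e (nat_lit 81946) (nat_lit 20) .nil))))) (.g (nat_lit 0) (.e (nat_lit 10652) (nat_lit 0) .nil) .nil)))) (.nd (nat_lit 9) 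
(.lf (nat_lit 448848) (.g (nat_lit 1212) (.e (nat_lit 496) (nat_lit 39) (.e (nat_lit 483380) (nat_lit 23) (.e (nat_lit 336316) (nat_lit 17) (.e (nat_lit 204544) (nat_lit 19) .nil)))) (.g (nat_lit 0) (.e (nat_lit 9938) (nat_lit 0) .nil) .nil))) 
(.lf (nat_lit 449360) (.g (nat_lit 608) (.e (nat_lit 630) (nat_lit 50) (.e (nat_lit 573487) (nat_lit 14) (.e (nat_lit 81664) (nat_lit 32) .nil))) (.g (nat_lit 0) (.e (nat_lit 11675) (nat_lit 0) .nil) .nil))))) (.nd (nat_lit 8) (.nd (nat_lit 9) 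
(.lf (nat_lit 448720) (.g (nat_lit 2384) (.e (nat_lit 457) (nat_lit 34) (.e (nat_lit 442379) (nat_lit 0) (.e (nat_lit 1856) (nat_lit 124) (.e (nat_lit 557100) (nat_lit 13) (.e (nat_lit 172113) (nat_lit 10) (.e (nat_lit 434248) (nat_lit 28) (.e (nat_lit 573449) (nat_lit 9) .nil))))))) (.g (nat_lit 1) (.e (nat_lit 7444) (nat_lit 0) .nil) .nil))) 
(.lf (nat_lit 449232) (.g (nat_lit 3697) (.e (nat_lit 594) (nat_lit 45) (.e (nat_lit 532550) (nat_lit 12) (.e (nat_lit 360475) (nat_lit 8) (.e (nat_lit 557087) (nat_lit 11) .nil)))) (.g (nat_lit 0) (.e (nat_lit 11231) (nat_lit 0) .nil) .nil)))) (.nd (nat_lit 9) 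
(.lf (nat_lit 448976) (.g (nat_lit 709) (.e (nat_lit 501) (nat_lit 40) (.e (nat_lit 491570) (nat_lit 13) (.e (nat_lit 393260) (nat_lit 21) .nil))) (.g (nat_lit 0) (.e (nat_lit 10276) (nat_lit 0) .nil) .nil))) 
(.lf (nat_lit 449488) (.g (nat_lit 3939) (.e (nat_lit 632) (nat_lit 50) (.e (nat_lit 573491) (nat_lit 15) (.e (nat_lit 81946) (nat_lit 20) (.e (nat_lit 2391) (nat_lit 156) (.e (nat_lit 819219) (nat_lit 4) (.e (nat_lit 172082) (nat_lit 7) (.e (nat_lit 409612) (nat_lit 10) .nil))))))) (.g (nat_lit 1) (.e (nat_lit 12032) (nat_lit 0) .nil) .nil))))))) 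
(.nd (nat_lit 6) (.nd (nat_lit 7) (.nd (nat_lit 8) (.nd (nat_lit 9) 
(.lf (nat_lit 448560) (.g (nat_lit 2259) (.e (nat_lit 433) (nat_lit 32) (.e (nat_lit 426347) (nat_lit 14) (.e (nat_lit 491549) (nat_lit 9) (.e (nat_lit 336369) (nat_lit 27) (.e (nat_lit 426173) (nat_lit 7) (.e (nat_lit 409617) (nat_lit 10) (.e (nat_lit 7936) (nat_lit 298) .nil))))))) (.g (nat_lit 1) (.e (nat_lit 6090) (nat_lit 0) .nil) .nil))) 
(.lf (nat_lit 449072) (.g (nat_lit 2512) (.e (nat_lit 248) (nat_lit 21) (.e (nat_lit 336204) (nat_lit 12) (.e (nat_lit 385074) (nat_lit 31) (.e (nat_lit 573491) (nat_lit 15) (.e (nat_lit 81946) (nat_lit 20) .nil))))) (.g (nat_lit 0) (.e (nat_lit 10519) (nat_lit 0) .nil) .nil)))) (.nd (nat_lit 9) 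
(.lf (nat_lit 448816) (.g (nat_lit 622) (.e (nat_lit 496) (nat_lit 39) (.e (nat_lit 483365) (nat_lit 18) (.e (nat_lit 57847) (nat_lit 252) .nil))) (.g (nat_lit 0) (.e (nat_lit 9893) (nat_lit 0) .nil) .nil))) 
(.lf (nat_lit 449328) (.g (nat_lit 2314) (.e (nat_lit 577) (nat_lit 43) (.e (nat_lit 516151) (nat_lit 9) (.e (nat_lit 426286) (nat_lit 10) (.e (nat_lit 434247) (nat_lit 28) .nil)))) (.g (nat_lit 0) (.e (nat_lit 11506) (nat_lit 0) .nil) .nil))))) (.nd (nat_lit 8) (.nd (nat_lit 9) 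
(.lf (nat_lit 448688) (.g (nat_lit 4423) (.e (nat_lit 452) (nat_lit 33) (.e (nat_lit 434231) (nat_lit 23) (.e (nat_lit 532550) (nat_lit 12) (.e (nat_lit 360475) (nat_lit 8) (.e (nat_lit 557091) (nat_lit 12) (.e (nat_lit 164022) (nat_lit 46) (.e (nat_lit 704626) (nat_lit 9) .nil))))))) (.g (nat_lit 1) (.e (nat_lit 7008) (nat_lit 0) .nil) .nil))) 
(.lf (nat_lit 449200) (.g (nat_lit 1727) (.e (nat_lit 352) (nat_lit 28) (.e (nat_lit 393251) (nat_lit 18) (.e (nat_lit 164325) (nat_lit 230) (.e (nat_lit 163864) (nat_lit 1) .nil)))) (.g (nat_lit 0) (.e (nat_lit 11151) (nat_lit 0) .nil) .nil)))) (.nd (nat_lit 9) 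
(.lf (nat_lit 448944) (.g (nat_lit 3469) (.e (nat_lit 499) (nat_lit 40) (.e (nat_lit 491568) (nat_lit 13) (.e (nat_lit 393301) (nat_lit 27) (.e (nat_lit 491560) (nat_lit 10) (.e (nat_lit 352000) (nat_lit 44) (.e (nat_lit 778240) (nat_lit 0) .nil)))))) (.g (nat_lit 1) (.e (nat_lit 10214) (nat_lit 0) .nil) .nil))) 
(.lf (nat_lit 449456) (.g (nat_lit 2783) (.e (nat_lit 632) (nat_lit 50) (.e (nat_lit 573489) (nat_lit 14) (.e (nat_lit 73755) (nat_lit 8) (.e (nat_lit 557104) (nat_lit 14) (.e (nat_lit 180244) (nat_lit 5) (.e (nat_lit 540416) (nat_lit 24) (.e (nat_lit 409611) (nat_lit 10) .nil))))))) (.g (nat_lit 1) (.e (nat_lit 11942) (nat_lit 0) .nil) .nil)))))) 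
(.nd (nat_lit 7) (.nd (nat_lit 8) (.nd (nat_lit 9) 
(.lf (nat_lit 448624) (.g (nat_lit 2166) (.e (nat_lit 442) (nat_lit 33) (.e (nat_lit 434233) (nat_lit 23) (.e (nat_lit 532535) (nat_lit 9) (.e (nat_lit 336176) (nat_lit 10) .nil)))) (.g (nat_lit 0) (.e (nat_lit 6303) (nat_lit 0) .nil) .nil))) 
(.lf (nat_lit 449136) (.g (nat_lit 797) (.e (nat_lit 299) (nat_lit 22) (.e (nat_lit 344068) (nat_lit 0) (.e (nat_lit 3090) (nat_lit 191) (.e (nat_lit 483372) (nat_lit 21) .nil)))) (.g (nat_lit 0) (.e (nat_lit 10902) (nat_lit 0) .nil) .nil)))) (.nd (nat_lit 9) 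
(.lf (nat_lit 448880) (.g (nat_lit 1462) (.e (nat_lit 496) (nat_lit 39) (.e (nat_lit 483406) (nat_lit 26) (.e (nat_lit 385057) (nat_lit 22) (.e (nat_lit 499780) (nat_lit 1) (.e (nat_lit 57806) (nat_lit 246) (.e (nat_lit 57878) (nat_lit 270) .nil)))))) (.g (nat_lit 1) (.e (nat_lit 10034) (nat_lit 0) .nil) .nil))) 
(.lf (nat_lit 449392) (.g (nat_lit 2670) (.e (nat_lit 632) (nat_lit 50) (.e (nat_lit 573484) (nat_lit 13) (.e (nat_lit 65610) (nat_lit 10) (.e (nat_lit 344097) (nat_lit 18) (.e (nat_lit 6896) (nat_lit 371) .nil))))) (.g (nat_lit 0) (.e (nat_lit 11798) (nat_lit 0) .nil) .nil))))) (.nd (nat_lit 8) (.nd (nat_lit 9) 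
(.lf (nat_lit 448752) (.g (nat_lit 949) (.e (nat_lit 7936) (nat_lit 35) (.e (nat_lit 450595) (nat_lit 17) (.e (nat_lit 663580) (nat_lit 9) (.e (nat_lit 7936) (nat_lit 24) .nil)))) (.g (nat_lit 0) (.e (nat_lit 9164) (nat_lit 0) .nil) .nil))) 
(.lf (nat_lit 449264) (.g (nat_lit 820) (.e (nat_lit 596) (nat_lit 45) (.e (nat_lit 532550) (nat_lit 12) (.e (nat_lit 360475) (nat_lit 8) .nil))) (.g (nat_lit 0) (.e (nat_lit 11356) (nat_lit 0) .nil) .nil)))) (.nd (nat_lit 9) 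
(.lf (nat_lit 449008) (.g (nat_lit 3193) (.e (nat_lit 214) (nat_lit 19) (.e (nat_lit 319490) (nat_lit 0) (.e (nat_lit 5626) (nat_lit 312) (.e (nat_lit 2685) (nat_lit 168) (.e (nat_lit 204868) (nat_lit 29) (.e (nat_lit 360473) (nat_lit 8) (.e (nat_lit 557073) (nat_lit 9) .nil))))))) (.g (nat_lit 1) (.e (nat_lit 10334) (nat_lit 0) .nil) .nil))) 
(.lf (nat_lit 449520) (.g (nat_lit 3627) (.e (nat_lit 852) (nat_lit 74) (.e (nat_lit 770072) (nat_lit 8) (.e (nat_lit 65586) (nat_lit 7) (.e (nat_lit 319531) (nat_lit 16) (.e (nat_lit 286748) (nat_lit 9) (.e (nat_lit 336295) (nat_lit 15) (.e (nat_lit 3806) (nat_lit 231) (.e (nat_lit 811031) (nat_lit 11) .nil)))))))) (.g (nat_lit 1) (.e (nat_lit 12578) (nat_lit 0) .nil) .nil))))))))) 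
(.nd (nat_lit 4) (.nd (nat_lit 5) (.nd (nat_lit 6) (.nd (nat_lit 7) (.nd (nat_lit 8) 
(.nd (nat_lit 9) 
(.lf (nat_lit 448520) (.g (nat_lit 2830) (.e (nat_lit 430) (nat_lit 32) (.e (nat_lit 426343) (nat_lit 14) (.e (nat_lit 491570) (nat_lit 13) (.e (nat_lit 393260) (nat_lit 21) (.e (nat_lit 417536) (nat_lit 10) .nil))))) (.g (nat_lit 0) (.e (nat_lit 6016) (nat_lit 0) .nil) .nil))) 
(.lf (nat_lit 449032) (.g (nat_lit 5911) (.e (nat_lit 220) (nat_lit 20) (.e (nat_lit 327699) (nat_lit 8) (.e (nat_lit 303119) (nat_lit 3) (.e (nat_lit 204869) (nat_lit 29) (.e (nat_lit 360475) (nat_lit 8) (.e (nat_lit 557067) (nat_lit 9) .nil)))))) (.g (nat_lit 1) (.e (nat_lit 10390) (nat_lit 0) .nil) .nil)))) (.nd (nat_lit 9) 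
(.lf (nat_lit 448776) (.g (nat_lit 2084) (.e (nat_lit 492) (nat_lit 39) (.e (nat_lit 483363) (nat_lit 18) (.e (nat_lit 57847) (nat_lit 252) (.e (nat_lit 57368) (nat_lit 1) (.e (nat_lit 57854) (nat_lit 252) .nil))))) (.g (nat_lit 0) (.e (nat_lit 9725) (nat_lit 0) .nil) .nil))) 
(.lf (nat_lit 449288) (.g (nat_lit 3997) (.e (nat_lit 604) (nat_lit 45) (.e (nat_lit 532503) (nat_lit 1) (.e (nat_lit 57931) (nat_lit 282) (.e (nat_lit 163884) (nat_lit 5) (.e (nat_lit 221210) (nat_lit 22) (.e (nat_lit 196656) (nat_lit 11) (.e (nat_lit 16425) (nat_lit 7) (.e (nat_lit 409616) (nat_lit 10) .nil)))))))) (.g (nat_lit 1) (.e (nat_lit 11409) (nat_lit 0) .nil) .nil))))) 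
(.nd (nat_lit 8) (.nd (nat_lit 9) 
(.lf (nat_lit 448648) (.g (nat_lit 2199) (.e (nat_lit 447) (nat_lit 33) (.e (nat_lit 434181) (nat_lit 0) (.e (nat_lit 1428) (nat_lit 108) (.e (nat_lit 336421) (nat_lit 28) (.e (nat_lit 434198) (nat_lit 17) (.e (nat_lit 229645) (nat_lit 232) .nil)))))) (.g (nat_lit 1) (.e (nat_lit 6685) (nat_lit 0) .nil) .nil))) 
(.lf (nat_lit 449160) (.g (nat_lit 1831) (.e (nat_lit 300) (nat_lit 22) (.e (nat_lit 344068) (nat_lit 0) (.e (nat_lit 3090) (nat_lit 191) (.e (nat_lit 483375) (nat_lit 22) (.e (nat_lit 327705) (nat_lit 10) .nil))))) (.g (nat_lit 0) (.e (nat_lit 10940) (nat_lit 0) .nil) .nil)))) (.nd (nat_lit 9) 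
(.lf (nat_lit 448904) (.g (nat_lit 2840) (.e (nat_lit 498) (nat_lit 40) (.e (nat_lit 491563) (nat_lit 12) (.e (nat_lit 385065) (nat_lit 26) (.e (nat_lit 532515) (nat_lit 3) (.e (nat_lit 122624) (nat_lit 12) (.e (nat_lit 434244) (nat_lit 28) (.e (nat_lit 573451) (nat_lit 9) .nil))))))) (.g (nat_lit 1) (.e (nat_lit 10135) (nat_lit 0) .nil) .nil))) 
(.lf (nat_lit 449416) (.g (nat_lit 2853) (.e (nat_lit 632) (nat_lit 50) (.e (nat_lit 573489) (nat_lit 14) (.e (nat_lit 73754) (nat_lit 8) (.e (nat_lit 557101) (nat_lit 13) (.e (nat_lit 172065) (nat_lit 3) (.e (nat_lit 212736) (nat_lit 7) (.e (nat_lit 409616) (nat_lit 10) .nil))))))) (.g (nat_lit 1) (.e (nat_lit 11863) (nat_lit 0) .nil) .nil)))))) (.nd (nat_lit 7) (.nd (nat_lit 8) (.nd (nat_lit 9) 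
(.lf (nat_lit 448584) (.g (nat_lit 3666) (.e (nat_lit 435) (nat_lit 32) (.e (nat_lit 426139) (nat_lit 3) (.e (nat_lit 204869) (nat_lit 29) (.e (nat_lit 360474) (nat_lit 8) (.e (nat_lit 557094) (nat_lit 12) (.e (nat_lit 164022) (nat_lit 46) (.e (nat_lit 704627) (nat_lit 9) .nil))))))) (.g (nat_lit 1) (.e (nat_lit 6144) (nat_lit 0) .nil) .nil))) 
(.lf (nat_lit 449096) (.g (nat_lit 3244) (.e (nat_lit 276) (nat_lit 21) (.e (nat_lit 336011) (nat_lit 2) (.e (nat_lit 90170) (nat_lit 13) (.e (nat_lit 172113) (nat_lit 10) (.e (nat_lit 434242) (nat_lit 28) .nil))))) (.g (nat_lit 0) (.e (nat_lit 10590) (nat_lit 0) .nil) .nil)))) (.nd (nat_lit 9) 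
(.lf (nat_lit 448840) (.g (nat_lit 2001) (.e (nat_lit 496) (nat_lit 39) (.e (nat_lit 483379) (nat_lit 23) (.e (nat_lit 336320) (nat_lit 17) (.e (nat_lit 196698) (nat_lit 19) (.e (nat_lit 57816) (nat_lit 246) (.e (nat_lit 57878) (nat_lit 270) .nil)))))) (.g (nat_lit 1) (.e (nat_lit 9929) (nat_lit 0) .nil) .nil))) 
(.lf (nat_lit 449352) (.g (nat_lit 1995) (.e (nat_lit 585) (nat_lit 43) (.e (nat_lit 516151) (nat_lit 9) (.e (nat_lit 426286) (nat_lit 10) .nil))) (.g (nat_lit 0) (.e (nat_lit 11656) (nat_lit 0) .nil) .nil))))) (.nd (nat_lit 8) (.nd (nat_lit 9) 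
(.lf (nat_lit 448712) (.g (nat_lit 3732) (.e (nat_lit 457) (nat_lit 34) (.e (nat_lit 442374) (nat_lit 0) (.e (nat_lit 1856) (nat_lit 124) (.e (nat_lit 557100) (nat_lit 13) (.e (nat_lit 172113) (nat_lit 10) (.e (nat_lit 434248) (nat_lit 28) (.e (nat_lit 573449) (nat_lit 9) .nil))))))) (.g (nat_lit 1) (.e (nat_lit 7436) (nat_lit 0) .nil) .nil))) 
(.lf (nat_lit 449224) (.g (nat_lit 4280) (.e (nat_lit 592) (nat_lit 45) (.e (nat_lit 532550) (nat_lit 12) (.e (nat_lit 360475) (nat_lit 8) (.e (nat_lit 557087) (nat_lit 11) .nil)))) (.g (nat_lit 0) (.e (nat_lit 11219) (nat_lit 0) .nil) .nil)))) (.nd (nat_lit 9) 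
(.lf (nat_lit 448968) (.g (nat_lit 3000) (.e (nat_lit 501) (nat_lit 40) (.e (nat_lit 491568) (nat_lit 13) (.e (nat_lit 393301) (nat_lit 27) (.e (nat_lit 491560) (nat_lit 10) (.e (nat_lit 344178) (nat_lit 44) (.e (nat_lit 778240) (nat_lit 0) .nil)))))) (.g (nat_lit 1) (.e (nat_lit 10268) (nat_lit 0) .nil) .nil))) 
(.lf (nat_lit 449480) (.g (nat_lit 1943) (.e (nat_lit 632) (nat_lit 50) (.e (nat_lit 573490) (nat_lit 15) (.e (nat_lit 81950) (nat_lit 21) (.e (nat_lit 57704) (nat_lit 164) (.e (nat_lit 2628) (nat_lit 164) (.e (nat_lit 172079) (nat_lit 7) (.e (nat_lit 409611) (nat_lit 10) .nil))))))) (.g (nat_lit 1) (.e (nat_lit 12004) (nat_lit 0) .nil) .nil))))))) 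
(.nd (nat_lit 6) (.nd (nat_lit 7) (.nd (nat_lit 8) (.nd (nat_lit 9) 
(.lf (nat_lit 448552) (.g (nat_lit 5408) (.e (nat_lit 433) (nat_lit 32) (.e (nat_lit 426129) (nat_lit 3) (.e (nat_lit 204869) (nat_lit 29) (.e (nat_lit 360474) (nat_lit 8) (.e (nat_lit 557093) (nat_lit 12) (.e (nat_lit 164022) (nat_lit 46) (.e (nat_lit 704629) (nat_lit 9) .nil))))))) (.g (nat_lit 1) (.e (nat_lit 6068) (nat_lit 0) .nil) .nil))) 
(.lf (nat_lit 449064) (.g (nat_lit 3426) (.e (nat_lit 234) (nat_lit 21) (.e (nat_lit 336369) (nat_lit 27) (.e (nat_lit 426173) (nat_lit 7) (.e (nat_lit 409617) (nat_lit 10) (.e (nat_lit 632) (nat_lit 50) (.e (nat_lit 573487) (nat_lit 14) (.e (nat_lit 81664) (nat_lit 32) .nil))))))) (.g (nat_lit 1) (.e (nat_lit 10473) (nat_lit 0) .nil) .nil)))) (.nd (nat_lit 9) 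
(.lf (nat_lit 448808) (.g (nat_lit 896) (.e (nat_lit 496) (nat_lit 39) (.e (nat_lit 483363) (nat_lit 18) (.e (nat_lit 57854) (nat_lit 252) .nil))) (.g (nat_lit 0) (.e (nat_lit 9864) (nat_lit 0) .nil) .nil))) 
(.lf (nat_lit 449320) (.g (nat_lit 2478) (.e (nat_lit 7936) (nat_lit 46) (.e (nat_lit 540706) (nat_lit 12) (.e (nat_lit 360475) (nat_lit 8) (.e (nat_lit 557064) (nat_lit 9) .nil)))) (.g (nat_lit 0) (.e (nat_lit 11494) (nat_lit 0) .nil) .nil))))) (.nd (nat_lit 8) (.nd (nat_lit 9) 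
(.lf (nat_lit 448680) (.g (nat_lit 4382) (.e (nat_lit 452) (nat_lit 33) (.e (nat_lit 434231) (nat_lit 23) (.e (nat_lit 532549) (nat_lit 12) (.e (nat_lit 360475) (nat_lit 8) (.e (nat_lit 557091) (nat_lit 12) (.e (nat_lit 164022) (nat_lit 46) (.e (nat_lit 704626) (nat_lit 9) .nil))))))) (.g (nat_lit 1) (.e (nat_lit 6998) (nat_lit 0) .nil) .nil))) 
(.lf (nat_lit 449192) (.g (nat_lit 1590) (.e (nat_lit 317) (nat_lit 23) (.e (nat_lit 352324) (nat_lit 26) (.e (nat_lit 147512) (nat_lit 14) (.e (nat_lit 2808) (nat_lit 180) .nil)))) (.g (nat_lit 0) (.e (nat_lit 11083) (nat_lit 0) .nil) .nil)))) (.nd (nat_lit 9) 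
(.lf (nat_lit 448936) (.g (nat_lit 4019) (.e (nat_lit 498) (nat_lit 40) (.e (nat_lit 491571) (nat_lit 13) (.e (nat_lit 393260) (nat_lit 21) (.e (nat_lit 409646) (nat_lit 18) .nil)))) (.g (nat_lit 0) (.e (nat_lit 10198) (nat_lit 0) .nil) .nil))) 
(.lf (nat_lit 449448) (.g (nat_lit 3377) (.e (nat_lit 632) (nat_lit 50) (.e (nat_lit 573489) (nat_lit 14) (.e (nat_lit 73755) (nat_lit 8) (.e (nat_lit 557103) (nat_lit 14) (.e (nat_lit 180243) (nat_lit 5) (.e (nat_lit 540416) (nat_lit 24) (.e (nat_lit 409617) (nat_lit 10) .nil))))))) (.g (nat_lit 1) (.e (nat_lit 11917) (nat_lit 0) .nil) .nil)))))) 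
(.nd (nat_lit 7) (.nd (nat_lit 8) (.nd (nat_lit 9) 
(.lf (nat_lit 448616) (.g (nat_lit 4845) (.e (nat_lit 442) (nat_lit 33) (.e (nat_lit 434181) (nat_lit 0) (.e (nat_lit 1253) (nat_lit 92) (.e (nat_lit 98373) (nat_lit 29) (.e (nat_lit 450587) (nat_lit 10) (.e (nat_lit 573449) (nat_lit 9) .nil)))))) (.g (nat_lit 1) (.e (nat_lit 6265) (nat_lit 0) .nil) .nil))) 
(.lf (nat_lit 449128) (.g (nat_lit 4404) (.e (nat_lit 7936) (nat_lit 21) (.e (nat_lit 336227) (nat_lit 14) (.e (nat_lit 401459) (nat_lit 13) (.e (nat_lit 483372) (nat_lit 21) (.e (nat_lit 319511) (nat_lit 10) .nil))))) (.g (nat_lit 0) (.e (nat_lit 10886) (nat_lit 0) .nil) .nil)))) (.nd (nat_lit 9) 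
(.lf (nat_lit 448872) (.g (nat_lit 1647) (.e (nat_lit 496) (nat_lit 39) (.e (nat_lit 483405) (nat_lit 26) (.e (nat_lit 385057) (nat_lit 22) (.e (nat_lit 499780) (nat_lit 1) (.e (nat_lit 57808) (nat_lit 246) (.e (nat_lit 57879) (nat_lit 270) .nil)))))) (.g (nat_lit 1) (.e (nat_lit 10021) (nat_lit 0) .nil) .nil))) 
(.lf (nat_lit 449384) (.g (nat_lit 3472) (.e (nat_lit 632) (nat_lit 50) (.e (nat_lit 573482) (nat_lit 13) (.e (nat_lit 65619) (nat_lit 10) (.e (nat_lit 344117) (nat_lit 21) (.e (nat_lit 516159) (nat_lit 10) (.e (nat_lit 434275) (nat_lit 39) (.e (nat_lit 663589) (nat_lit 14) (.e (nat_lit 2448) (nat_lit 157) .nil)))))))) (.g (nat_lit 1) (.e (nat_lit 11778) (nat_lit 0) .nil) .nil))))) 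
(.nd (nat_lit 8) (.nd (nat_lit 9) 
(.lf (nat_lit 448744) (.g (nat_lit 1582) (.e (nat_lit 464) (nat_lit 34) (.e (nat_lit 442419) (nat_lit 21) (.e (nat_lit 164327) (nat_lit 230) (.e (nat_lit 163886) (nat_lit 5) .nil)))) (.g (nat_lit 0) (.e (nat_lit 7981) (nat_lit 0) .nil) .nil))) 
(.lf (nat_lit 449256) (.g (nat_lit 743) (.e (nat_lit 596) (nat_lit 45) (.e (nat_lit 532490) (nat_lit 0) (.e (nat_lit 2346) (nat_lit 151) .nil))) (.g (nat_lit 0) (.e (nat_lit 11290) (nat_lit 0) .nil) .nil)))) (.nd (nat_lit 9) 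
(.lf (nat_lit 449000) (.g (nat_lit 2920) (.e (nat_lit 503) (nat_lit 40) (.e (nat_lit 491569) (nat_lit 13) (.e (nat_lit 393301) (nat_lit 27) (.e (nat_lit 491558) (nat_lit 10) (.e (nat_lit 344095) (nat_lit 18) .nil))))) (.g (nat_lit 0) (.e (nat_lit 10317) (nat_lit 0) .nil) .nil))) 
(.lf (nat_lit 449512) (.g (nat_lit 3685) (.e (nat_lit 850) (nat_lit 74) (.e (nat_lit 770072) (nat_lit 8) (.e (nat_lit 65583) (nat_lit 7) (.e (nat_lit 319530) (nat_lit 16) (.e (nat_lit 286759) (nat_lit 12) (.e (nat_lit 385115) (nat_lit 53) (.e (nat_lit 811031) (nat_lit 11) .nil))))))) (.g (nat_lit 1) (.e (nat_lit 12570) (nat_lit 0) .nil) .nil)))))))) 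
(.nd (nat_lit 5) (.nd (nat_lit 6) (.nd (nat_lit 7) (.nd (nat_lit 8) (.nd (nat_lit 9) 
(.lf (nat_lit 448536) (.g (nat_lit 4590) (.e (nat_lit 430) (nat_lit 32) (.e (nat_lit 426344) (nat_lit 14) (.e (nat_lit 491544) (nat_lit 7) (.e (nat_lit 319533) (nat_lit 16) (.e (nat_lit 286753) (nat_lit 10) (.e (nat_lit 344160) (nat_lit 37) (.e (nat_lit 647190) (nat_lit 9) .nil))))))) (.g (nat_lit 1) (.e (nat_lit 6032) (nat_lit 0) .nil) .nil))) 
(.lf (nat_lit 449048) (.g (nat_lit 2519) (.e (nat_lit 227) (nat_lit 21) (.e (nat_lit 336019) (nat_lit 3) (.e (nat_lit 98372) (nat_lit 29) (.e (nat_lit 450586) (nat_lit 10) (.e (nat_lit 573477) (nat_lit 12) .nil))))) (.g (nat_lit 0) (.e (nat_lit 10418) (nat_lit 0) .nil) .nil)))) (.nd (nat_lit 9) 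
(.lf (nat_lit 448792) (.g (nat_lit 1879) (.e (nat_lit 492) (nat_lit 39) (.e (nat_lit 483365) (nat_lit 18) (.e (nat_lit 57854) (nat_lit 252) (.e (nat_lit 57366) (nat_lit 1) .nil)))) (.g (nat_lit 0) (.e (nat_lit 9745) (nat_lit 0) .nil) .nil))) 
(.lf (nat_lit 449304) (.g (nat_lit 806) (.e (nat_lit 7936) (nat_lit 45) (.e (nat_lit 532535) (nat_lit 9) (.e (nat_lit 336099) (nat_lit 9) (.e (nat_lit 336013) (nat_lit 2) (.e (nat_lit 98048) (nat_lit 12) .nil))))) (.g (nat_lit 0) (.e (nat_lit 11465) (nat_lit 0) .nil) .nil))))) (.nd (nat_lit 8) (.nd (nat_lit 9) 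
(.lf (nat_lit 448664) (.g (nat_lit 3696) (.e (nat_lit 452) (nat_lit 33) (.e (nat_lit 434231) (nat_lit 23) (.e (nat_lit 532549) (nat_lit 12) (.e (nat_lit 360473) (nat_lit 8) (.e (nat_lit 557093) (nat_lit 12) (.e (nat_lit 164022) (nat_lit 46) (.e (nat_lit 704626) (nat_lit 9) .nil))))))) (.g (nat_lit 1) (.e (nat_lit 6982) (nat_lit 0) .nil) .nil))) 
(.lf (nat_lit 449176) (.g (nat_lit 3042) (.e (nat_lit 300) (nat_lit 22) (.e (nat_lit 344069) (nat_lit 0) (.e (nat_lit 3090) (nat_lit 191) (.e (nat_lit 483372) (nat_lit 21) (.e (nat_lit 319506) (nat_lit 10) (.e (nat_lit 5722) (nat_lit 312) .nil)))))) (.g (nat_lit 1) (.e (nat_lit 10972) (nat_lit 0) .nil) .nil)))) (.nd (nat_lit 9) 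
(.lf (nat_lit 448920) (.g (nat_lit 2777) (.e (nat_lit 498) (nat_lit 40) (.e (nat_lit 491568) (nat_lit 13) (.e (nat_lit 393301) (nat_lit 27) (.e (nat_lit 491560) (nat_lit 10) (.e (nat_lit 344178) (nat_lit 44) .nil))))) (.g (nat_lit 0) (.e (nat_lit 10173) (nat_lit 0) .nil) .nil))) 
(.lf (nat_lit 449432) (.g (nat_lit 1933) (.e (nat_lit 632) (nat_lit 50) (.e (nat_lit 573489) (nat_lit 14) (.e (nat_lit 73755) (nat_lit 8) (.e (nat_lit 557097) (nat_lit 13) (.e (nat_lit 172066) (nat_lit 3) .nil))))) (.g (nat_lit 0) (.e (nat_lit 11886) (nat_lit 0) .nil) .nil)))))) (.nd (nat_lit 7) (.nd (nat_lit 8) (.nd (nat_lit 9) 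
(.lf (nat_lit 448600) (.g (nat_lit 2337) (.e (nat_lit 7936) (nat_lit 32) (.e (nat_lit 426347) (nat_lit 14) (.e (nat_lit 491570) (nat_lit 13) (.e (nat_lit 393238) (nat_lit 17) (.e (nat_lit 7114) (nat_lit 381) .nil))))) (.g (nat_lit 0) (.e (nat_lit 6205) (nat_lit 0) .nil) .nil))) 
(.lf (nat_lit 449112) (.g (nat_lit 2235) (.e (nat_lit 288) (nat_lit 21) (.e (nat_lit 335872) (nat_lit 0) (.e (nat_lit 6713) (nat_lit 360) (.e (nat_lit 163962) (nat_lit 25) (.e (nat_lit 532550) (nat_lit 12) (.e (nat_lit 360474) (nat_lit 8) (.e (nat_lit 557073) (nat_lit 9) .nil))))))) (.g (nat_lit 1) (.e (nat_lit 10757) (nat_lit 0) .nil) .nil)))) (.nd (nat_lit 9) 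
(.lf (nat_lit 448856) (.g (nat_lit 1778) (.e (nat_lit 496) (nat_lit 39) (.e (nat_lit 483382) (nat_lit 23) (.e (nat_lit 336320) (nat_lit 17) (.e (nat_lit 196698) (nat_lit 19) (.e (nat_lit 57808) (nat_lit 246) (.e (nat_lit 57879) (nat_lit 270) .nil)))))) (.g (nat_lit 1) (.e (nat_lit 9947) (nat_lit 0) .nil) .nil))) 
(.lf (nat_lit 449368) (.g (nat_lit 3435) (.e (nat_lit 632) (nat_lit 50) (.e (nat_lit 573482) (nat_lit 13) (.e (nat_lit 65604) (nat_lit 9) (.e (nat_lit 336028) (nat_lit 3) (.e (nat_lit 98367) (nat_lit 27) (.e (nat_lit 434275) (nat_lit 39) (.e (nat_lit 663589) (nat_lit 14) (.e (nat_lit 2448) (nat_lit 157) .nil)))))))) (.g (nat_lit 1) (.e (nat_lit 11757) (nat_lit 0) .nil) .nil))))) 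
(.nd (nat_lit 8) (.nd (nat_lit 9) 
(.lf (nat_lit 448728) (.g (nat_lit 1843) (.e (nat_lit 461) (nat_lit 34) (.e (nat_lit 442379) (nat_lit 0) (.e (nat_lit 1856) (nat_lit 124) (.e (nat_lit 557100) (nat_lit 13) (.e (nat_lit 172113) (nat_lit 10) .nil))))) (.g (nat_lit 0) (.e (nat_lit 7733) (nat_lit 0) .nil) .nil))) 
(.lf (nat_lit 449240) (.g (nat_lit 1924) (.e (nat_lit 595) (nat_lit 45) (.e (nat_lit 532535) (nat_lit 9) (.e (nat_lit 336178) (nat_lit 10) (.e (nat_lit 344129) (nat_lit 26) .nil)))) (.g (nat_lit 0) (.e (nat_lit 11257) (nat_lit 0) .nil) .nil)))) (.nd (nat_lit 9) 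
(.lf (nat_lit 448984) (.g (nat_lit 3584) (.e (nat_lit 502) (nat_lit 40) (.e (nat_lit 491568) (nat_lit 13) (.e (nat_lit 393301) (nat_lit 27) (.e (nat_lit 491560) (nat_lit 10) (.e (nat_lit 352000) (nat_lit 44) (.e (nat_lit 778254) (nat_lit 0) .nil)))))) (.g (nat_lit 1) (.e (nat_lit 10296) (nat_lit 0) .nil) .nil))) 
(.lf (nat_lit 449496) (.g (nat_lit 1379) (.e (nat_lit 618) (nat_lit 48) (.e (nat_lit 557098) (nat_lit 13) (.e (nat_lit 172105) (nat_lit 10) (.e (nat_lit 434295) (nat_lit 49) (.e (nat_lit 745491) (nat_lit 4) .nil))))) (.g (nat_lit 0) (.e (nat_lit 12276) (nat_lit 0) .nil) .nil))))))) (.nd (nat_lit 6) (.nd (nat_lit 7) (.nd (nat_lit 8) (.nd (nat_lit 9) 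
(.lf (nat_lit 448568) (.g (nat_lit 1949) (.e (nat_lit 435) (nat_lit 32) (.e (nat_lit 426122) (nat_lit 2) (.e (nat_lit 196666) (nat_lit 13) (.e (nat_lit 65617) (nat_lit 10) (.e (nat_lit 344132) (nat_lit 26) (.e (nat_lit 557094) (nat_lit 12) (.e (nat_lit 164022) (nat_lit 46) (.e (nat_lit 704628) (nat_lit 9) .nil)))))))) (.g (nat_lit 1) (.e (nat_lit 6113) (nat_lit 0) .nil) .nil))) 
(.lf (nat_lit 449080) (.g (nat_lit 3264) (.e (nat_lit 255) (nat_lit 21) (.e (nat_lit 336027) (nat_lit 3) (.e (nat_lit 98373) (nat_lit 29) (.e (nat_lit 450587) (nat_lit 10) (.e (nat_lit 573477) (nat_lit 12) .nil))))) (.g (nat_lit 0) (.e (nat_lit 10568) (nat_lit 0) .nil) .nil)))) (.nd (nat_lit 9) 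
(.lf (nat_lit 448824) (.g (nat_lit 1616) (.e (nat_lit 496) (nat_lit 39) (.e (nat_lit 483365) (nat_lit 18) (.e (nat_lit 57854) (nat_lit 252) (.e (nat_lit 57378) (nat_lit 3) .nil)))) (.g (nat_lit 0) (.e (nat_lit 9909) (nat_lit 0) .nil) .nil))) 
(.lf (nat_lit 449336) (.g (nat_lit 1186) (.e (nat_lit 578) (nat_lit 43) (.e (nat_lit 516166) (nat_lit 12) (.e (nat_lit 450588) (nat_lit 10) .nil))) (.g (nat_lit 0) (.e (nat_lit 11535) (nat_lit 0) .nil) .nil))))) (.nd (nat_lit 8) (.nd (nat_lit 9) 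
(.lf (nat_lit 448696) (.g (nat_lit 1952) (.e (nat_lit 454) (nat_lit 34) (.e (nat_lit 442374) (nat_lit 0) (.e (nat_lit 1856) (nat_lit 124) (.e (nat_lit 557098) (nat_lit 13) (.e (nat_lit 172115) (nat_lit 10) .nil))))) (.g (nat_lit 0) (.e (nat_lit 7221) (nat_lit 0) .nil) .nil))) 
(.lf (nat_lit 449208) (.g (nat_lit 3732) (.e (nat_lit 356) (nat_lit 29) (.e (nat_lit 401459) (nat_lit 13) (.e (nat_lit 483372) (nat_lit 21) (.e (nat_lit 319533) (nat_lit 16) .nil)))) (.g (nat_lit 0) (.e (nat_lit 11165) (nat_lit 0) .nil) .nil)))) (.nd (nat_lit 9) 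
(.lf (nat_lit 448952) (.g (nat_lit 1199) (.e (nat_lit 500) (nat_lit 40) (.e (nat_lit 491566) (nat_lit 12) (.e (nat_lit 385072) (nat_lit 31) .nil))) (.g (nat_lit 0) (.e (nat_lit 10228) (nat_lit 0) .nil) .nil))) 
(.lf (nat_lit 449464) (.g (nat_lit 2883) (.e (nat_lit 632) (nat_lit 50) (.e (nat_lit 573489) (nat_lit 14) (.e (nat_lit 73755) (nat_lit 8) (.e (nat_lit 557105) (nat_lit 14) (.e (nat_lit 180245) (nat_lit 5) (.e (nat_lit 540416) (nat_lit 24) (.e (nat_lit 409612) (nat_lit 10) .nil))))))) (.g (nat_lit 1) (.e (nat_lit 11968) (nat_lit 0) .nil) .nil)))))) 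
(.nd (nat_lit 7) (.nd (nat_lit 8) (.nd (nat_lit 9) 
(.lf (nat_lit 448632) (.g (nat_lit 1872) (.e (nat_lit 446) (nat_lit 33) (.e (nat_lit 434181) (nat_lit 0) (.e (nat_lit 1427) (nat_lit 108) (.e (nat_lit 336421) (nat_lit 28) (.e (nat_lit 434197) (nat_lit 16) (.e (nat_lit 164337) (nat_lit 232) .nil)))))) (.g (nat_lit 1) (.e (nat_lit 6629) (nat_lit 0) .nil) .nil))) 
(.lf (nat_lit 449144) (.g (nat_lit 275) (.e (nat_lit 300) (nat_lit 22) (.e (nat_lit 344068) (nat_lit 0) (.e (nat_lit 3090) (nat_lit 191) .nil))) (.g (nat_lit 0) (.e (nat_lit 10924) (nat_lit 0) .nil) .nil)))) (.nd (nat_lit 9) 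
(.lf (nat_lit 448888) (.g (nat_lit 3580) (.e (nat_lit 497) (nat_lit 39) (.e (nat_lit 483363) (nat_lit 18) (.e (nat_lit 57847) (nat_lit 252) (.e (nat_lit 57368) (nat_lit 1) (.e (nat_lit 57854) (nat_lit 252) (.e (nat_lit 57389) (nat_lit 5) (.e (nat_lit 114723) (nat_lit 24) (.e (nat_lit 106505) (nat_lit 9) .nil)))))))) (.g (nat_lit 1) (.e (nat_lit 10050) (nat_lit 0) .nil) .nil))) 
(.lf (nat_lit 449400) (.g (nat_lit 1953) (.e (nat_lit 632) (nat_lit 50) (.e (nat_lit 573485) (nat_lit 13) (.e (nat_lit 65619) (nat_lit 10) (.e (nat_lit 344090) (nat_lit 18) (.e (nat_lit 7708) (nat_lit 414) (.e (nat_lit 163908) (nat_lit 12) (.e (nat_lit 426171) (nat_lit 7) (.e (nat_lit 409612) (nat_lit 10) .nil)))))))) (.g (nat_lit 1) (.e (nat_lit 11830) (nat_lit 0) .nil) .nil))))) 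
(.nd (nat_lit 8) (.nd (nat_lit 9) 
(.lf (nat_lit 448760) (.g (nat_lit 2866) (.e (nat_lit 483) (nat_lit 38) (.e (nat_lit 475177) (nat_lit 24) (.e (nat_lit 516150) (nat_lit 9) (.e (nat_lit 426131) (nat_lit 3) (.e (nat_lit 204837) (nat_lit 20) .nil))))) (.g (nat_lit 0) (.e (nat_lit 9600) (nat_lit 0) .nil) .nil))) 
(.lf (nat_lit 449272) (.g (nat_lit 2729) (.e (nat_lit 604) (nat_lit 45) (.e (nat_lit 532499) (nat_lit 1) (.e (nat_lit 57926) (nat_lit 282) (.e (nat_lit 163885) (nat_lit 5) (.e (nat_lit 221212) (nat_lit 22) (.e (nat_lit 196656) (nat_lit 11) (.e (nat_lit 16425) (nat_lit 7) (.e (nat_lit 409616) (nat_lit 10) .nil)))))))) (.g (nat_lit 1) (.e (nat_lit 11377) (nat_lit 0) .nil) .nil)))) (.nd (nat_lit 9) 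
(.lf (nat_lit 449016) (.g (nat_lit 1083) (.e (nat_lit 216) (nat_lit 19) (.e (nat_lit 319490) (nat_lit 0) (.e (nat_lit 5664) (nat_lit 312) (.e (nat_lit 3085) (nat_lit 191) .nil)))) (.g (nat_lit 0) (.e (nat_lit 10355) (nat_lit 0) .nil) .nil))) 
(.lf (nat_lit 449528) (.g (nat_lit 1924) (.e (nat_lit 859) (nat_lit 75) (.e (nat_lit 778326) (nat_lit 6) (.e (nat_lit 81953) (nat_lit 22) (.e (nat_lit 98048) (nat_lit 2) .nil)))) (.g (nat_lit 0) (.e (nat_lit 12586) (nat_lit 0) .nil) .nil)))))))))) (.nd (nat_lit 3) (.nd (nat_lit 4) (.nd (nat_lit 5) (.nd (nat_lit 6) (.nd (nat_lit 7) (.nd (nat_lit 8) (.nd (nat_lit 9) 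
(.lf (nat_lit 448516) (.g (nat_lit 2735) (.e (nat_lit 430) (nat_lit 32) (.e (nat_lit 426343) (nat_lit 14) (.e (nat_lit 491568) (nat_lit 13) (.e (nat_lit 393260) (nat_lit 21) (.e (nat_lit 409623) (nat_lit 10) (.e (nat_lit 5270) (nat_lit 298) .nil)))))) (.g (nat_lit 1) (.e (nat_lit 6012) (nat_lit 0) .nil) .nil))) 
(.lf (nat_lit 449028) (.g (nat_lit 1813) (.e (nat_lit 220) (nat_lit 20) (.e (nat_lit 327699) (nat_lit 8) (.e (nat_lit 303119) (nat_lit 3) (.e (nat_lit 204868) (nat_lit 29) (.e (nat_lit 360473) (nat_lit 8) (.e (nat_lit 557072) (nat_lit 9) .nil)))))) (.g (nat_lit 1) (.e (nat_lit 10386) (nat_lit 0) .nil) .nil)))) (.nd (nat_lit 9) 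
(.lf (nat_lit 448772) (.g (nat_lit 1471) (.e (nat_lit 490) (nat_lit 39) (.e (nat_lit 483413) (nat_lit 27) (.e (nat_lit 409344) (nat_lit 17) (.e (nat_lit 90172) (nat_lit 14) (.e (nat_lit 188160) (nat_lit 32) .nil))))) (.g (nat_lit 0) (.e (nat_lit 9703) (nat_lit 0) .nil) .nil))) 
(.lf (nat_lit 449284) (.g (nat_lit 2664) (.e (nat_lit 604) (nat_lit 45) (.e (nat_lit 532501) (nat_lit 1) (.e (nat_lit 57927) (nat_lit 282) (.e (nat_lit 163885) (nat_lit 5) (.e (nat_lit 221212) (nat_lit 22) (.e (nat_lit 196656) (nat_lit 11) (.e (nat_lit 16425) (nat_lit 7) (.e (nat_lit 409617) (nat_lit 10) .nil)))))))) (.g (nat_lit 1) (.e (nat_lit 11399) (nat_lit 0) .nil) .nil))))) 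
(.nd (nat_lit 8) (.nd (nat_lit 9) 
(.lf (nat_lit 448644) (.g (nat_lit 2173) (.e (nat_lit 447) (nat_lit 33) (.e (nat_lit 434181) (nat_lit 0) (.e (nat_lit 1427) (nat_lit 108) (.e (nat_lit 336421) (nat_lit 28) (.e (nat_lit 434198) (nat_lit 17) (.e (nat_lit 229644) (nat_lit 232) .nil)))))) (.g (nat_lit 1) (.e (nat_lit 6681) (nat_lit 0) .nil) .nil))) 
(.lf (nat_lit 449156) (.g (nat_lit 2562) (.e (nat_lit 300) (nat_lit 22) (.e (nat_lit 344068) (nat_lit 0) (.e (nat_lit 3090) (nat_lit 191) (.e (nat_lit 483372) (nat_lit 21) (.e (nat_lit 319509) (nat_lit 10) (.e (nat_lit 5723) (nat_lit 312) .nil)))))) (.g (nat_lit 1) (.e (nat_lit 10936) (nat_lit 0) .nil) .nil)))) (.nd (nat_lit 9) 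
(.lf (nat_lit 448900) (.g (nat_lit 3140) (.e (nat_lit 498) (nat_lit 40) (.e (nat_lit 491549) (nat_lit 9) (.e (nat_lit 336324) (nat_lit 18) (.e (nat_lit 204838) (nat_lit 20) (.e (nat_lit 122624) (nat_lit 12) (.e (nat_lit 434248) (nat_lit 28) (.e (nat_lit 573452) (nat_lit 9) .nil))))))) (.g (nat_lit 1) (.e (nat_lit 10129) (nat_lit 0) .nil) .nil))) 
(.lf (nat_lit 449412) (.g (nat_lit 2882) (.e (nat_lit 632) (nat_lit 50) (.e (nat_lit 573489) (nat_lit 14) (.e (nat_lit 73754) (nat_lit 8) (.e (nat_lit 557100) (nat_lit 13) (.e (nat_lit 172067) (nat_lit 3) (.e (nat_lit 212736) (nat_lit 7) (.e (nat_lit 409616) (nat_lit 10) .nil))))))) (.g (nat_lit 1) (.e (nat_lit 11858) (nat_lit 0) .nil) .nil)))))) (.nd (nat_lit 7) (.nd (nat_lit 8) (.nd (nat_lit 9) 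
(.lf (nat_lit 448580) (.g (nat_lit 2301) (.e (nat_lit 435) (nat_lit 32) (.e (nat_lit 426137) (nat_lit 3) (.e (nat_lit 204869) (nat_lit 29) (.e (nat_lit 360474) (nat_lit 8) (.e (nat_lit 557094) (nat_lit 12) (.e (nat_lit 164022) (nat_lit 46) (.e (nat_lit 704627) (nat_lit 9) .nil))))))) (.g (nat_lit 1) (.e (nat_lit 6135) (nat_lit 0) .nil) .nil))) 
(.lf (nat_lit 449092) (.g (nat_lit 3264) (.e (nat_lit 270) (nat_lit 21) (.e (nat_lit 336027) (nat_lit 3) (.e (nat_lit 98373) (nat_lit 29) (.e (nat_lit 450587) (nat_lit 10) (.e (nat_lit 573477) (nat_lit 12) .nil))))) (.g (nat_lit 0) (.e (nat_lit 10583) (nat_lit 0) .nil) .nil)))) (.nd (nat_lit 9) 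
(.lf (nat_lit 448836) (.g (nat_lit 2015) (.e (nat_lit 496) (nat_lit 39) (.e (nat_lit 483379) (nat_lit 23) (.e (nat_lit 336320) (nat_lit 17) (.e (nat_lit 196698) (nat_lit 19) (.e (nat_lit 57809) (nat_lit 246) (.e (nat_lit 57883) (nat_lit 270) .nil)))))) (.g (nat_lit 1) (.e (nat_lit 9925) (nat_lit 0) .nil) .nil))) 
(.lf (nat_lit 449348) (.g (nat_lit 2250) (.e (nat_lit 584) (nat_lit 43) (.e (nat_lit 516115) (nat_lit 1) (.e (nat_lit 164403) (nat_lit 256) (.e (nat_lit 57389) (nat_lit 5) (.e (nat_lit 114716) (nat_lit 22) .nil))))) (.g (nat_lit 0) (.e (nat_lit 11578) (nat_lit 0) .nil) .nil))))) (.nd (nat_lit 8) (.nd (nat_lit 9) 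
(.lf (nat_lit 448708) (.g (nat_lit 2931) (.e (nat_lit 457) (nat_lit 34) (.e (nat_lit 442374) (nat_lit 0) (.e (nat_lit 1856) (nat_lit 124) (.e (nat_lit 557098) (nat_lit 13) (.e (nat_lit 172115) (nat_lit 10) (.e (nat_lit 434244) (nat_lit 28) (.e (nat_lit 573449) (nat_lit 9) .nil))))))) (.g (nat_lit 1) (.e (nat_lit 7432) (nat_lit 0) .nil) .nil))) 
(.lf (nat_lit 449220) (.g (nat_lit 5440) (.e (nat_lit 592) (nat_lit 45) (.e (nat_lit 532550) (nat_lit 12) (.e (nat_lit 360475) (nat_lit 8) (.e (nat_lit 557066) (nat_lit 9) .nil)))) (.g (nat_lit 0) (.e (nat_lit 11215) (nat_lit 0) .nil) .nil)))) (.nd (nat_lit 9) 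
(.lf (nat_lit 448964) (.g (nat_lit 2697) (.e (nat_lit 500) (nat_lit 40) (.e (nat_lit 491569) (nat_lit 13) (.e (nat_lit 393301) (nat_lit 27) (.e (nat_lit 491560) (nat_lit 10) (.e (nat_lit 352000) (nat_lit 44) .nil))))) (.g (nat_lit 0) (.e (nat_lit 10247) (nat_lit 0) .nil) .nil))) 
(.lf (nat_lit 449476) (.g (nat_lit 3000) (.e (nat_lit 632) (nat_lit 50) (.e (nat_lit 573489) (nat_lit 14) (.e (nat_lit 73755) (nat_lit 8) (.e (nat_lit 557105) (nat_lit 14) (.e (nat_lit 180252) (nat_lit 10) (.e (nat_lit 581376) (nat_lit 0) (.e (nat_lit 2827) (nat_lit 182) (.e (nat_lit 409615) (nat_lit 10) .nil)))))))) (.g (nat_lit 1) (.e (nat_lit 11982) (nat_lit 0) .nil) .nil))))))) 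
(.nd (nat_lit 6) (.nd (nat_lit 7) (.nd (nat_lit 8) (.nd (nat_lit 9) 
(.lf (nat_lit 448548) (.g (nat_lit 2033) (.e (nat_lit 433) (nat_lit 32) (.e (nat_lit 426129) (nat_lit 3) (.e (nat_lit 204868) (nat_lit 29) (.e (nat_lit 360473) (nat_lit 8) (.e (nat_lit 557093) (nat_lit 12) (.e (nat_lit 164022) (nat_lit 46) (.e (nat_lit 704628) (nat_lit 9) .nil))))))) (.g (nat_lit 1) (.e (nat_lit 6064) (nat_lit 0) .nil) .nil))) 
(.lf (nat_lit 449060) (.g (nat_lit 2423) (.e (nat_lit 233) (nat_lit 21) (.e (nat_lit 336456) (nat_lit 34) (.e (nat_lit 483372) (nat_lit 21) (.e (nat_lit 319504) (nat_lit 10) .nil)))) (.g (nat_lit 0) (.e (nat_lit 10468) (nat_lit 0) .nil) .nil)))) (.nd (nat_lit 9) 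
(.lf (nat_lit 448804) (.g (nat_lit 2118) (.e (nat_lit 496) (nat_lit 39) (.e (nat_lit 483363) (nat_lit 18) (.e (nat_lit 57847) (nat_lit 252) (.e (nat_lit 57377) (nat_lit 3) .nil)))) (.g (nat_lit 0) (.e (nat_lit 9859) (nat_lit 0) .nil) .nil))) 
(.lf (nat_lit 449316) (.g (nat_lit 2474) (.e (nat_lit 606) (nat_lit 46) (.e (nat_lit 540706) (nat_lit 12) (.e (nat_lit 360475) (nat_lit 8) (.e (nat_lit 557064) (nat_lit 9) .nil)))) (.g (nat_lit 0) (.e (nat_lit 11488) (nat_lit 0) .nil) .nil))))) (.nd (nat_lit 8) (.nd (nat_lit 9) 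
(.lf (nat_lit 448676) (.g (nat_lit 2802) (.e (nat_lit 452) (nat_lit 33) (.e (nat_lit 434231) (nat_lit 23) (.e (nat_lit 532549) (nat_lit 12) (.e (nat_lit 360474) (nat_lit 8) (.e (nat_lit 557093) (nat_lit 12) (.e (nat_lit 164023) (nat_lit 46) (.e (nat_lit 704628) (nat_lit 9) .nil))))))) (.g (nat_lit 1) (.e (nat_lit 6994) (nat_lit 0) .nil) .nil))) 
(.lf (nat_lit 449188) (.g (nat_lit 2484) (.e (nat_lit 307) (nat_lit 22) (.e (nat_lit 344117) (nat_lit 21) (.e (nat_lit 516116) (nat_lit 1) (.e (nat_lit 164226) (nat_lit 181) .nil)))) (.g (nat_lit 0) (.e (nat_lit 11051) (nat_lit 0) .nil) .nil)))) (.nd (nat_lit 9) 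
(.lf (nat_lit 448932) (.g (nat_lit 3181) (.e (nat_lit 498) (nat_lit 40) (.e (nat_lit 491569) (nat_lit 13) (.e (nat_lit 393301) (nat_lit 27) (.e (nat_lit 491560) (nat_lit 10) (.e (nat_lit 344178) (nat_lit 44) .nil))))) (.g (nat_lit 0) (.e (nat_lit 10185) (nat_lit 0) .nil) .nil))) 
(.lf (nat_lit 449444) (.g (nat_lit 4238) (.e (nat_lit 632) (nat_lit 50) (.e (nat_lit 573489) (nat_lit 14) (.e (nat_lit 73755) (nat_lit 8) (.e (nat_lit 557098) (nat_lit 13) (.e (nat_lit 172067) (nat_lit 3) (.e (nat_lit 212736) (nat_lit 7) (.e (nat_lit 409617) (nat_lit 10) .nil))))))) (.g (nat_lit 1) (.e (nat_lit 11913) (nat_lit 0) .nil) .nil)))))) (.nd (nat_lit 7) (.nd (nat_lit 8) (.nd (nat_lit 9) 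
(.lf (nat_lit 448612) (.g (nat_lit 5838) (.e (nat_lit 442) (nat_lit 33) (.e (nat_lit 434180) (nat_lit 0) (.e (nat_lit 1253) (nat_lit 92) (.e (nat_lit 98373) (nat_lit 29) (.e (nat_lit 450588) (nat_lit 10) (.e (nat_lit 573448) (nat_lit 9) .nil)))))) (.g (nat_lit 1) (.e (nat_lit 6261) (nat_lit 0) .nil) .nil))) 
(.lf (nat_lit 449124) (.g (nat_lit 3200) (.e (nat_lit 275) (nat_lit 21) (.e (nat_lit 336204) (nat_lit 12) (.e (nat_lit 385074) (nat_lit 31) (.e (nat_lit 573484) (nat_lit 13) .nil)))) (.g (nat_lit 0) (.e (nat_lit 10880) (nat_lit 0) .nil) .nil)))) (.nd (nat_lit 9) 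
(.lf (nat_lit 448868) (.g (nat_lit 447) (.e (nat_lit 496) (nat_lit 39) (.e (nat_lit 483403) (nat_lit 26) (.e (nat_lit 385057) (nat_lit 22) .nil))) (.g (nat_lit 0) (.e (nat_lit 10016) (nat_lit 0) .nil) .nil))) 
(.lf (nat_lit 449380) (.g (nat_lit 2758) (.e (nat_lit 632) (nat_lit 50) (.e (nat_lit 573482) (nat_lit 13) (.e (nat_lit 65619) (nat_lit 10) (.e (nat_lit 344097) (nat_lit 18) (.e (nat_lit 7672) (nat_lit 410) (.e (nat_lit 2628) (nat_lit 164) (.e (nat_lit 172082) (nat_lit 7) (.e (nat_lit 409612) (nat_lit 10) .nil)))))))) (.g (nat_lit 1) (.e (nat_lit 11774) (nat_lit 0) .nil) .nil))))) 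
(.nd (nat_lit 8) (.nd (nat_lit 9) 
(.lf (nat_lit 448740) (.g (nat_lit 1509) (.e (nat_lit 463) (nat_lit 34) (.e (nat_lit 442399) (nat_lit 20) (.e (nat_lit 3572) (nat_lit 222) (.e (nat_lit 737300) (nat_lit 7) (.e (nat_lit 286747) (nat_lit 9) (.e (nat_lit 336013) (nat_lit 2) (.e (nat_lit 98048) (nat_lit 0) .nil))))))) (.g (nat_lit 1) (.e (nat_lit 7839) (nat_lit 0) .nil) .nil))) 
(.lf (nat_lit 449252) (.g (nat_lit 2152) (.e (nat_lit 597) (nat_lit 45) (.e (nat_lit 532535) (nat_lit 9) (.e (nat_lit 336176) (nat_lit 10) .nil))) (.g (nat_lit 0) (.e (nat_lit 11286) (nat_lit 0) .nil) .nil)))) (.nd (nat_lit 9) 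
(.lf (nat_lit 448996) (.g (nat_lit 3182) (.e (nat_lit 503) (nat_lit 40) (.e (nat_lit 491568) (nat_lit 13) (.e (nat_lit 393301) (nat_lit 27) (.e (nat_lit 491560) (nat_lit 10) (.e (nat_lit 344096) (nat_lit 18) .nil))))) (.g (nat_lit 0) (.e (nat_lit 10313) (nat_lit 0) .nil) .nil))) 
(.lf (nat_lit 449508) (.g (nat_lit 1663) (.e (nat_lit 848) (nat_lit 73) (.e (nat_lit 761906) (nat_lit 16) (.e (nat_lit 172097) (nat_lit 9) (.e (nat_lit 426025) (nat_lit 0) (.e (nat_lit 3540) (nat_lit 218) .nil))))) (.g (nat_lit 0) (.e (nat_lit 12519) (nat_lit 0) .nil) .nil)))))))) (.nd (nat_lit 5) (.nd (nat_lit 6) (.nd (nat_lit 7) (.nd (nat_lit 8) (.nd (nat_lit 9) 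
(.lf (nat_lit 448532) (.g (nat_lit 3817) (.e (nat_lit 430) (nat_lit 32) (.e (nat_lit 426344) (nat_lit 14) (.e (nat_lit 491538) (nat_lit 3) (.e (nat_lit 98373) (nat_lit 29) (.e (nat_lit 450588) (nat_lit 10) (.e (nat_lit 573457) (nat_lit 9) .nil)))))) (.g (nat_lit 1) (.e (nat_lit 6028) (nat_lit 0) .nil) .nil))) 
(.lf (nat_lit 449044) (.g (nat_lit 4810) (.e (nat_lit 226) (nat_lit 21) (.e (nat_lit 336324) (nat_lit 18) (.e (nat_lit 204831) (nat_lit 18) (.e (nat_lit 57849) (nat_lit 252) .nil)))) (.g (nat_lit 0) (.e (nat_lit 10410) (nat_lit 0) .nil) .nil)))) (.nd (nat_lit 9) 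
(.lf (nat_lit 448788) (.g (nat_lit 1702) (.e (nat_lit 492) (nat_lit 39) (.e (nat_lit 483365) (nat_lit 18) (.e (nat_lit 57849) (nat_lit 252) (.e (nat_lit 57365) (nat_lit 1) (.e (nat_lit 57854) (nat_lit 252) .nil))))) (.g (nat_lit 0) (.e (nat_lit 9741) (nat_lit 0) .nil) .nil))) 
(.lf (nat_lit 449300) (.g (nat_lit 5494) (.e (nat_lit 604) (nat_lit 45) (.e (nat_lit 532550) (nat_lit 12) (.e (nat_lit 360475) (nat_lit 8) (.e (nat_lit 557066) (nat_lit 9) .nil)))) (.g (nat_lit 0) (.e (nat_lit 11454) (nat_lit 0) .nil) .nil))))) (.nd (nat_lit 8) (.nd (nat_lit 9) 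
(.lf (nat_lit 448660) (.g (nat_lit 1879) (.e (nat_lit 452) (nat_lit 33) (.e (nat_lit 434219) (nat_lit 19) (.e (nat_lit 499952) (nat_lit 14) (.e (nat_lit 1598) (nat_lit 111) (.e (nat_lit 360473) (nat_lit 8) (.e (nat_lit 557094) (nat_lit 12) (.e (nat_lit 164022) (nat_lit 46) (.e (nat_lit 704629) (nat_lit 9) .nil)))))))) (.g (nat_lit 1) (.e (nat_lit 6937) (nat_lit 0) .nil) .nil))) 
(.lf (nat_lit 449172) (.g (nat_lit 2594) (.e (nat_lit 300) (nat_lit 22) (.e (nat_lit 344069) (nat_lit 0) (.e (nat_lit 3090) (nat_lit 191) (.e (nat_lit 483372) (nat_lit 21) (.e (nat_lit 319502) (nat_lit 10) (.e (nat_lit 5677) (nat_lit 312) .nil)))))) (.g (nat_lit 1) (.e (nat_lit 10968) (nat_lit 0) .nil) .nil)))) (.nd (nat_lit 9) 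
(.lf (nat_lit 448916) (.g (nat_lit 1239) (.e (nat_lit 498) (nat_lit 40) (.e (nat_lit 491568) (nat_lit 13) (.e (nat_lit 393301) (nat_lit 27) (.e (nat_lit 491558) (nat_lit 10) .nil)))) (.g (nat_lit 0) (.e (nat_lit 10169) (nat_lit 0) .nil) .nil))) 
(.lf (nat_lit 449428) (.g (nat_lit 1173) (.e (nat_lit 632) (nat_lit 50) (.e (nat_lit 573489) (nat_lit 14) (.e (nat_lit 73755) (nat_lit 8) (.e (nat_lit 557097) (nat_lit 13) .nil)))) (.g (nat_lit 0) (.e (nat_lit 11882) (nat_lit 0) .nil) .nil)))))) (.nd (nat_lit 7) (.nd (nat_lit 8) (.nd (nat_lit 9) 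
(.lf (nat_lit 448596) (.g (nat_lit 1814) (.e (nat_lit 7936) (nat_lit 32) (.e (nat_lit 426347) (nat_lit 14) (.e (nat_lit 491549) (nat_lit 9) (.e (nat_lit 336421) (nat_lit 28) (.e (nat_lit 434198) (nat_lit 17) .nil))))) (.g (nat_lit 0) (.e (nat_lit 6201) (nat_lit 0) .nil) .nil))) 
(.lf (nat_lit 449108) (.g (nat_lit 4184) (.e (nat_lit 284) (nat_lit 21) (.e (nat_lit 336226) (nat_lit 14) (.e (nat_lit 401459) (nat_lit 13) (.e (nat_lit 483372) (nat_lit 21) (.e (nat_lit 319504) (nat_lit 10) .nil))))) (.g (nat_lit 0) (.e (nat_lit 10736) (nat_lit 0) .nil) .nil)))) (.nd (nat_lit 9) 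
(.lf (nat_lit 448852) (.g (nat_lit 1538) (.e (nat_lit 496) (nat_lit 39) (.e (nat_lit 483381) (nat_lit 23) (.e (nat_lit 336320) (nat_lit 17) (.e (nat_lit 196698) (nat_lit 19) (.e (nat_lit 57816) (nat_lit 246) (.e (nat_lit 57878) (nat_lit 270) .nil)))))) (.g (nat_lit 1) (.e (nat_lit 9943) (nat_lit 0) .nil) .nil))) 
(.lf (nat_lit 449364) (.g (nat_lit 3333) (.e (nat_lit 632) (nat_lit 50) (.e (nat_lit 573482) (nat_lit 13) (.e (nat_lit 65604) (nat_lit 9) (.e (nat_lit 336028) (nat_lit 3) (.e (nat_lit 98366) (nat_lit 27) (.e (nat_lit 434275) (nat_lit 39) (.e (nat_lit 663589) (nat_lit 14) (.e (nat_lit 2448) (nat_lit 157) .nil)))))))) (.g (nat_lit 1) (.e (nat_lit 11753) (nat_lit 0) .nil) .nil))))) 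
(.nd (nat_lit 8) (.nd (nat_lit 9) 
(.lf (nat_lit 448724) (.g (nat_lit 3929) (.e (nat_lit 459) (nat_lit 34) (.e (nat_lit 442379) (nat_lit 0) (.e (nat_lit 1856) (nat_lit 124) (.e (nat_lit 557100) (nat_lit 13) (.e (nat_lit 172113) (nat_lit 10) (.e (nat_lit 434245) (nat_lit 28) (.e (nat_lit 573448) (nat_lit 9) .nil))))))) (.g (nat_lit 1) (.e (nat_lit 7561) (nat_lit 0) .nil) .nil))) 
(.lf (nat_lit 449236) (.g (nat_lit 3117) (.e (nat_lit 595) (nat_lit 45) (.e (nat_lit 532535) (nat_lit 9) (.e (nat_lit 336099) (nat_lit 9) (.e (nat_lit 336013) (nat_lit 2) (.e (nat_lit 90165) (nat_lit 12) (.e (nat_lit 164218) (nat_lit 179) (.e (nat_lit 164262) (nat_lit 221) (.e (nat_lit 1053) (nat_lit 81) .nil)))))))) (.g (nat_lit 1) (.e (nat_lit 11242) (nat_lit 0) .nil) .nil)))) (.nd (nat_lit 9) 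
(.lf (nat_lit 448980) (.g (nat_lit 3625) (.e (nat_lit 502) (nat_lit 40) (.e (nat_lit 491563) (nat_lit 12) (.e (nat_lit 385074) (nat_lit 31) (.e (nat_lit 573484) (nat_lit 13) .nil)))) (.g (nat_lit 0) (.e (nat_lit 10284) (nat_lit 0) .nil) .nil))) 
(.lf (nat_lit 449492) (.g (nat_lit 2728) (.e (nat_lit 632) (nat_lit 50) (.e (nat_lit 573493) (nat_lit 15) (.e (nat_lit 81947) (nat_lit 20) (.e (nat_lit 991) (nat_lit 81) (.e (nat_lit 6908) (nat_lit 371) (.e (nat_lit 1126) (nat_lit 83) (.e (nat_lit 16425) (nat_lit 7) (.e (nat_lit 409617) (nat_lit 10) .nil)))))))) (.g (nat_lit 1) (.e (nat_lit 12096) (nat_lit 0) .nil) .nil))))))) 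
(.nd (nat_lit 6) (.nd (nat_lit 7) (.nd (nat_lit 8) (.nd (nat_lit 9) 
(.lf (nat_lit 448564) (.g (nat_lit 2499) (.e (nat_lit 435) (nat_lit 32) (.e (nat_lit 426121) (nat_lit 2) (.e (nat_lit 196666) (nat_lit 13) (.e (nat_lit 65617) (nat_lit 10) (.e (nat_lit 344132) (nat_lit 26) (.e (nat_lit 557093) (nat_lit 12) (.e (nat_lit 164023) (nat_lit 46) (.e (nat_lit 704628) (nat_lit 9) .nil)))))))) (.g (nat_lit 1) (.e (nat_lit 6109) (nat_lit 0) .nil) .nil))) 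
(.lf (nat_lit 449076) (.g (nat_lit 894) (.e (nat_lit 249) (nat_lit 21) (.e (nat_lit 336231) (nat_lit 14) (.e (nat_lit 401414) (nat_lit 0) .nil))) (.g (nat_lit 0) (.e (nat_lit 10554) (nat_lit 0) .nil) .nil)))) (.nd (nat_lit 9) 
(.lf (nat_lit 448820) (.g (nat_lit 646) (.e (nat_lit 496) (nat_lit 39) (.e (nat_lit 483365) (nat_lit 18) (.e (nat_lit 57848) (nat_lit 252) .nil))) (.g (nat_lit 0) (.e (nat_lit 9897) (nat_lit 0) .nil) .nil))) 
(.lf (nat_lit 449332) (.g (nat_lit 1184) (.e (nat_lit 580) (nat_lit 43) (.e (nat_lit 516106) (nat_lit 0) (.e (nat_lit 2478) (nat_lit 157) (.e (nat_lit 6428) (nat_lit 342) .nil)))) (.g (nat_lit 0) (.e (nat_lit 11515) (nat_lit 0) .nil) .nil))))) (.nd (nat_lit 8) (.nd (nat_lit 9) 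
(.lf (nat_lit 448692) (.g (nat_lit 1055) (.e (nat_lit 7936) (nat_lit 33) (.e (nat_lit 434180) (nat_lit 0) (.e (nat_lit 1427) (nat_lit 108) (.e (nat_lit 336438) (nat_lit 31) .nil)))) (.g (nat_lit 0) (.e (nat_lit 7156) (nat_lit 0) .nil) .nil))) 
(.lf (nat_lit 449204) (.g (nat_lit 4598) (.e (nat_lit 353) (nat_lit 29) (.e (nat_lit 401459) (nat_lit 13) (.e (nat_lit 483372) (nat_lit 21) (.e (nat_lit 319534) (nat_lit 16) (.e (nat_lit 286728) (nat_lit 0) .nil))))) (.g (nat_lit 0) (.e (nat_lit 11157) (nat_lit 0) .nil) .nil)))) (.nd (nat_lit 9) 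
(.lf (nat_lit 448948) (.g (nat_lit 3667) (.e (nat_lit 499) (nat_lit 40) (.e (nat_lit 491569) (nat_lit 13) (.e (nat_lit 393301) (nat_lit 27) (.e (nat_lit 491560) (nat_lit 10) (.e (nat_lit 344179) (nat_lit 44) .nil))))) (.g (nat_lit 0) (.e (nat_lit 10218) (nat_lit 0) .nil) .nil))) 
(.lf (nat_lit 449460) (.g (nat_lit 3099) (.e (nat_lit 632) (nat_lit 50) (.e (nat_lit 573489) (nat_lit 14) (.e (nat_lit 73755) (nat_lit 8) (.e (nat_lit 557104) (nat_lit 14) (.e (nat_lit 180245) (nat_lit 5) (.e (nat_lit 540416) (nat_lit 24) (.e (nat_lit 409617) (nat_lit 10) .nil))))))) (.g (nat_lit 1) (.e (nat_lit 11946) (nat_lit 0) .nil) .nil)))))) 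
(.nd (nat_lit 7) (.nd (nat_lit 8) (.nd (nat_lit 9) 
(.lf (nat_lit 448628) (.g (nat_lit 2201) (.e (nat_lit 446) (nat_lit 33) (.e (nat_lit 434180) (nat_lit 0) (.e (nat_lit 1427) (nat_lit 108) (.e (nat_lit 336421) (nat_lit 28) (.e (nat_lit 434197) (nat_lit 16) (.e (nat_lit 164339) (nat_lit 232) .nil)))))) (.g (nat_lit 1) (.e (nat_lit 6625) (nat_lit 0) .nil) .nil))) 
(.lf (nat_lit 449140) (.g (nat_lit 2004) (.e (nat_lit 299) (nat_lit 22) (.e (nat_lit 344069) (nat_lit 0) (.e (nat_lit 3090) (nat_lit 191) (.e (nat_lit 483372) (nat_lit 21) (.e (nat_lit 319496) (nat_lit 10) .nil))))) (.g (nat_lit 0) (.e (nat_lit 10908) (nat_lit 0) .nil) .nil)))) (.nd (nat_lit 9) 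
(.lf (nat_lit 448884) (.g (nat_lit 3808) (.e (nat_lit 496) (nat_lit 39) (.e (nat_lit 483413) (nat_lit 27) (.e (nat_lit 401463) (nat_lit 15) (.e (nat_lit 1788) (nat_lit 119) (.e (nat_lit 516139) (nat_lit 7) (.e (nat_lit 409602) (nat_lit 0) (.e (nat_lit 5259) (nat_lit 298) .nil))))))) (.g (nat_lit 1) (.e (nat_lit 10042) (nat_lit 0) .nil) .nil))) 
(.lf (nat_lit 449396) (.g (nat_lit 2516) (.e (nat_lit 632) (nat_lit 50) (.e (nat_lit 573485) (nat_lit 13) (.e (nat_lit 65604) (nat_lit 9) (.e (nat_lit 336028) (nat_lit 3) (.e (nat_lit 98367) (nat_lit 27) (.e (nat_lit 434275) (nat_lit 39) (.e (nat_lit 663589) (nat_lit 14) (.e (nat_lit 2448) (nat_lit 157) .nil)))))))) (.g (nat_lit 1) (.e (nat_lit 11824) (nat_lit 0) .nil) .nil))))) 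
(.nd (nat_lit 8) (.nd (nat_lit 9) 
(.lf (nat_lit 448756) (.g (nat_lit 1228) (.e (nat_lit 473) (nat_lit 36) (.e (nat_lit 458769) (nat_lit 16) (.e (nat_lit 164108) (nat_lit 116) (.e (nat_lit 786176) (nat_lit 6) (.e (nat_lit 81953) (nat_lit 22) (.e (nat_lit 98048) (nat_lit 0) .nil)))))) (.g (nat_lit 1) (.e (nat_lit 9177) (nat_lit 0) .nil) .nil))) 
(.lf (nat_lit 449268) (.g (nat_lit 5179) (.e (nat_lit 600) (nat_lit 45) (.e (nat_lit 532550) (nat_lit 12) (.e (nat_lit 360475) (nat_lit 8) (.e (nat_lit 557087) (nat_lit 11) .nil)))) (.g (nat_lit 0) (.e (nat_lit 11368) (nat_lit 0) .nil) .nil)))) (.nd (nat_lit 9) 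
(.lf (nat_lit 449012) (.g (nat_lit 4543) (.e (nat_lit 214) (nat_lit 19) (.e (nat_lit 319490) (nat_lit 0) (.e (nat_lit 5626) (nat_lit 312) (.e (nat_lit 2685) (nat_lit 168) (.e (nat_lit 204869) (nat_lit 29) (.e (nat_lit 360475) (nat_lit 8) (.e (nat_lit 557073) (nat_lit 9) .nil))))))) (.g (nat_lit 1) (.e (nat_lit 10338) (nat_lit 0) .nil) .nil))) 
(.lf (nat_lit 449524) (.g (nat_lit 1837) (.e (nat_lit 7936) (nat_lit 74) (.e (nat_lit 770072) (nat_lit 8) (.e (nat_lit 65583) (nat_lit 7) (.e (nat_lit 319530) (nat_lit 16) (.e (nat_lit 286748) (nat_lit 9) .nil))))) (.g (nat_lit 0) (.e (nat_lit 12582) (nat_lit 0) .nil) .nil))))))))) (.nd (nat_lit 4) (.nd (nat_lit 5) (.nd (nat_lit 6) (.nd (nat_lit 7) (.nd (nat_lit 8) (.nd (nat_lit 9) 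
(.lf (nat_lit 448524) (.g (nat_lit 3115) (.e (nat_lit 430) (nat_lit 32) (.e (nat_lit 426344) (nat_lit 14) (.e (nat_lit 491530) (nat_lit 0) (.e (nat_lit 1796) (nat_lit 119) (.e (nat_lit 516166) (nat_lit 12) (.e (nat_lit 450587) (nat_lit 10) (.e (nat_lit 573457) (nat_lit 9) .nil))))))) (.g (nat_lit 1) (.e (nat_lit 6020) (nat_lit 0) .nil) .nil))) 
(.lf (nat_lit 449036) (.g (nat_lit 2319) (.e (nat_lit 220) (nat_lit 20) (.e (nat_lit 327700) (nat_lit 8) (.e (nat_lit 303119) (nat_lit 3) (.e (nat_lit 204868) (nat_lit 29) (.e (nat_lit 360473) (nat_lit 8) (.e (nat_lit 557072) (nat_lit 9) .nil)))))) (.g (nat_lit 1) (.e (nat_lit 10394) (nat_lit 0) .nil) .nil)))) (.nd (nat_lit 9) 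
(.lf (nat_lit 448780) (.g (nat_lit 3793) (.e (nat_lit 492) (nat_lit 39) (.e (nat_lit 483363) (nat_lit 18) (.e (nat_lit 57847) (nat_lit 252) (.e (nat_lit 57368) (nat_lit 1) (.e (nat_lit 57854) (nat_lit 252) (.e (nat_lit 57389) (nat_lit 5) (.e (nat_lit 114723) (nat_lit 24) (.e (nat_lit 106509) (nat_lit 9) .nil)))))))) (.g (nat_lit 1) (.e (nat_lit 9729) (nat_lit 0) .nil) .nil))) 
(.lf (nat_lit 449292) (.g (nat_lit 2068) (.e (nat_lit 604) (nat_lit 45) (.e (nat_lit 532504) (nat_lit 1) (.e (nat_lit 57852) (nat_lit 252) (.e (nat_lit 57409) (nat_lit 12) (.e (nat_lit 336019) (nat_lit 3) (.e (nat_lit 98361) (nat_lit 26) (.e (nat_lit 426173) (nat_lit 7) (.e (nat_lit 409617) (nat_lit 10) .nil)))))))) (.g (nat_lit 1) (.e (nat_lit 11413) (nat_lit 0) .nil) .nil))))) 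
(.nd (nat_lit 8) (.nd (nat_lit 9) 
(.lf (nat_lit 448652) (.g (nat_lit 2258) (.e (nat_lit 449) (nat_lit 33) (.e (nat_lit 434231) (nat_lit 23) (.e (nat_lit 532550) (nat_lit 12) (.e (nat_lit 360474) (nat_lit 8) (.e (nat_lit 557094) (nat_lit 12) .nil))))) (.g (nat_lit 0) (.e (nat_lit 6783) (nat_lit 0) .nil) .nil))) 
(.lf (nat_lit 449164) (.g (nat_lit 2591) (.e (nat_lit 300) (nat_lit 22) (.e (nat_lit 344069) (nat_lit 0) (.e (nat_lit 3090) (nat_lit 191) (.e (nat_lit 483350) (nat_lit 17) (.e (nat_lit 6212) (nat_lit 333) (.e (nat_lit 57865) (nat_lit 256) .nil)))))) (.g (nat_lit 1) (.e (nat_lit 10960) (nat_lit 0) .nil) .nil)))) (.nd (nat_lit 9) 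
(.lf (nat_lit 448908) (.g (nat_lit 3043) (.e (nat_lit 498) (nat_lit 40) (.e (nat_lit 491563) (nat_lit 12) (.e (nat_lit 385068) (nat_lit 26) (.e (nat_lit 532513) (nat_lit 3) (.e (nat_lit 122624) (nat_lit 12) (.e (nat_lit 434248) (nat_lit 28) (.e (nat_lit 573452) (nat_lit 9) .nil))))))) (.g (nat_lit 1) (.e (nat_lit 10139) (nat_lit 0) .nil) .nil))) 
(.lf (nat_lit 449420) (.g (nat_lit 2031) (.e (nat_lit 632) (nat_lit 50) (.e (nat_lit 573489) (nat_lit 14) (.e (nat_lit 73754) (nat_lit 8) (.e (nat_lit 557101) (nat_lit 13) (.e (nat_lit 172067) (nat_lit 3) (.e (nat_lit 212736) (nat_lit 7) (.e (nat_lit 409615) (nat_lit 10) .nil))))))) (.g (nat_lit 1) (.e (nat_lit 11869) (nat_lit 0) .nil) .nil)))))) (.nd (nat_lit 7) (.nd (nat_lit 8) (.nd (nat_lit 9) 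
(.lf (nat_lit 448588) (.g (nat_lit 2226) (.e (nat_lit 7936) (nat_lit 32) (.e (nat_lit 426305) (nat_lit 12) (.e (nat_lit 475185) (nat_lit 29) (.e (nat_lit 557100) (nat_lit 13) (.e (nat_lit 172113) (nat_lit 10) .nil))))) (.g (nat_lit 0) (.e (nat_lit 6186) (nat_lit 0) .nil) .nil))) 
(.lf (nat_lit 449100) (.g (nat_lit 2790) (.e (nat_lit 276) (nat_lit 21) (.e (nat_lit 336027) (nat_lit 3) (.e (nat_lit 98373) (nat_lit 29) (.e (nat_lit 450586) (nat_lit 10) (.e (nat_lit 573477) (nat_lit 12) .nil))))) (.g (nat_lit 0) (.e (nat_lit 10594) (nat_lit 0) .nil) .nil)))) (.nd (nat_lit 9) 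
(.lf (nat_lit 448844) (.g (nat_lit 1454) (.e (nat_lit 496) (nat_lit 39) (.e (nat_lit 483380) (nat_lit 23) (.e (nat_lit 336316) (nat_lit 17) (.e (nat_lit 196698) (nat_lit 19) .nil)))) (.g (nat_lit 0) (.e (nat_lit 9934) (nat_lit 0) .nil) .nil))) 
(.lf (nat_lit 449356) (.g (nat_lit 5014) (.e (nat_lit 7936) (nat_lit 43) (.e (nat_lit 516166) (nat_lit 12) (.e (nat_lit 450587) (nat_lit 10) (.e (nat_lit 573449) (nat_lit 9) (.e (nat_lit 375) (nat_lit 32) .nil))))) (.g (nat_lit 0) (.e (nat_lit 11660) (nat_lit 0) .nil) .nil))))) (.nd (nat_lit 8) (.nd (nat_lit 9) 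
(.lf (nat_lit 448716) (.g (nat_lit 2273) (.e (nat_lit 457) (nat_lit 34) (.e (nat_lit 442379) (nat_lit 0) (.e (nat_lit 1855) (nat_lit 124) (.e (nat_lit 557101) (nat_lit 13) (.e (nat_lit 172115) (nat_lit 10) (.e (nat_lit 434244) (nat_lit 28) (.e (nat_lit 573450) (nat_lit 9) .nil))))))) (.g (nat_lit 1) (.e (nat_lit 7440) (nat_lit 0) .nil) .nil))) 
(.lf (nat_lit 449228) (.g (nat_lit 4259) (.e (nat_lit 594) (nat_lit 45) (.e (nat_lit 532550) (nat_lit 12) (.e (nat_lit 360474) (nat_lit 8) (.e (nat_lit 557087) (nat_lit 11) .nil)))) (.g (nat_lit 0) (.e (nat_lit 11227) (nat_lit 0) .nil) .nil)))) (.nd (nat_lit 9) 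
(.lf (nat_lit 448972) (.g (nat_lit 2895) (.e (nat_lit 501) (nat_lit 40) (.e (nat_lit 491569) (nat_lit 13) (.e (nat_lit 393301) (nat_lit 27) (.e (nat_lit 491558) (nat_lit 10) (.e (nat_lit 344095) (nat_lit 18) .nil))))) (.g (nat_lit 0) (.e (nat_lit 10272) (nat_lit 0) .nil) .nil))) 
(.lf (nat_lit 449484) (.g (nat_lit 374) (.e (nat_lit 632) (nat_lit 50) (.e (nat_lit 573491) (nat_lit 15) (.e (nat_lit 81943) (nat_lit 20) .nil))) (.g (nat_lit 0) (.e (nat_lit 12013) (nat_lit 0) .nil) .nil))))))) (.nd (nat_lit 6) (.nd (nat_lit 7) (.nd (nat_lit 8) (.nd (nat_lit 9) 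
(.lf (nat_lit 448556) (.g (nat_lit 3403) (.e (nat_lit 433) (nat_lit 32) (.e (nat_lit 426347) (nat_lit 14) (.e (nat_lit 491537) (nat_lit 2) (.e (nat_lit 90170) (nat_lit 13) (.e (nat_lit 172113) (nat_lit 10) (.e (nat_lit 434248) (nat_lit 28) (.e (nat_lit 573450) (nat_lit 9) .nil))))))) (.g (nat_lit 1) (.e (nat_lit 6086) (nat_lit 0) .nil) .nil))) 
(.lf (nat_lit 449068) (.g (nat_lit 3119) (.e (nat_lit 236) (nat_lit 21) (.e (nat_lit 336369) (nat_lit 27) (.e (nat_lit 426173) (nat_lit 7) (.e (nat_lit 409617) (nat_lit 10) (.e (nat_lit 632) (nat_lit 50) (.e (nat_lit 573487) (nat_lit 14) (.e (nat_lit 81664) (nat_lit 32) .nil))))))) (.g (nat_lit 1) (.e (nat_lit 10478) (nat_lit 0) .nil) .nil)))) (.nd (nat_lit 9) 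
(.lf (nat_lit 448812) (.g (nat_lit 1199) (.e (nat_lit 496) (nat_lit 39) (.e (nat_lit 483364) (nat_lit 18) (.e (nat_lit 57854) (nat_lit 252) (.e (nat_lit 57378) (nat_lit 3) .nil)))) (.g (nat_lit 0) (.e (nat_lit 9879) (nat_lit 0) .nil) .nil))) 
(.lf (nat_lit 449324) (.g (nat_lit 3676) (.e (nat_lit 576) (nat_lit 43) (.e (nat_lit 516151) (nat_lit 9) (.e (nat_lit 426286) (nat_lit 10) (.e (nat_lit 434245) (nat_lit 28) (.e (nat_lit 573471) (nat_lit 11) .nil))))) (.g (nat_lit 0) (.e (nat_lit 11500) (nat_lit 0) .nil) .nil))))) (.nd (nat_lit 8) (.nd (nat_lit 9) 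
(.lf (nat_lit 448684) (.g (nat_lit 3857) (.e (nat_lit 452) (nat_lit 33) (.e (nat_lit 434231) (nat_lit 23) (.e (nat_lit 532550) (nat_lit 12) (.e (nat_lit 360474) (nat_lit 8) (.e (nat_lit 557093) (nat_lit 12) (.e (nat_lit 164022) (nat_lit 46) (.e (nat_lit 704627) (nat_lit 9) .nil))))))) (.g (nat_lit 1) (.e (nat_lit 7003) (nat_lit 0) .nil) .nil))) 
(.lf (nat_lit 449196) (.g (nat_lit 1511) (.e (nat_lit 349) (nat_lit 28) (.e (nat_lit 393251) (nat_lit 18) (.e (nat_lit 164325) (nat_lit 230) (.e (nat_lit 163875) (nat_lit 3) .nil)))) (.g (nat_lit 0) (.e (nat_lit 11135) (nat_lit 0) .nil) .nil)))) (.nd (nat_lit 9) 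
(.lf (nat_lit 448940) (.g (nat_lit 722) (.e (nat_lit 499) (nat_lit 40) (.e (nat_lit 491568) (nat_lit 13) (.e (nat_lit 393301) (nat_lit 27) .nil))) (.g (nat_lit 0) (.e (nat_lit 10210) (nat_lit 0) .nil) .nil))) 
(.lf (nat_lit 449452) (.g (nat_lit 1299) (.e (nat_lit 632) (nat_lit 50) (.e (nat_lit 573489) (nat_lit 14) (.e (nat_lit 73755) (nat_lit 8) (.e (nat_lit 557104) (nat_lit 14) .nil)))) (.g (nat_lit 0) (.e (nat_lit 11931) (nat_lit 0) .nil) .nil)))))) (.nd (nat_lit 7) (.nd (nat_lit 8) (.nd (nat_lit 9) 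
(.lf (nat_lit 448620) (.g (nat_lit 3101) (.e (nat_lit 442) (nat_lit 33) (.e (nat_lit 434232) (nat_lit 23) (.e (nat_lit 532549) (nat_lit 12) (.e (nat_lit 360473) (nat_lit 8) (.e (nat_lit 557093) (nat_lit 12) (.e (nat_lit 164023) (nat_lit 46) (.e (nat_lit 704629) (nat_lit 9) .nil))))))) (.g (nat_lit 1) (.e (nat_lit 6281) (nat_lit 0) .nil) .nil))) 
(.lf (nat_lit 449132) (.g (nat_lit 1865) (.e (nat_lit 297) (nat_lit 22) (.e (nat_lit 344068) (nat_lit 0) (.e (nat_lit 3090) (nat_lit 191) (.e (nat_lit 483372) (nat_lit 21) (.e (nat_lit 319505) (nat_lit 10) (.e (nat_lit 7936) (nat_lit 312) .nil)))))) (.g (nat_lit 1) (.e (nat_lit 10892) (nat_lit 0) .nil) .nil)))) (.nd (nat_lit 9) 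
(.lf (nat_lit 448876) (.g (nat_lit 1822) (.e (nat_lit 496) (nat_lit 39) (.e (nat_lit 483405) (nat_lit 26) (.e (nat_lit 385057) (nat_lit 22) (.e (nat_lit 499780) (nat_lit 1) (.e (nat_lit 57811) (nat_lit 246) (.e (nat_lit 57883) (nat_lit 270) .nil)))))) (.g (nat_lit 1) (.e (nat_lit 10025) (nat_lit 0) .nil) .nil))) 
(.lf (nat_lit 449388) (.g (nat_lit 1431) (.e (nat_lit 632) (nat_lit 50) (.e (nat_lit 573482) (nat_lit 13) (.e (nat_lit 65619) (nat_lit 10) (.e (nat_lit 344183) (nat_lit 49) .nil)))) (.g (nat_lit 0) (.e (nat_lit 11783) (nat_lit 0) .nil) .nil))))) (.nd (nat_lit 8) (.nd (nat_lit 9) 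
(.lf (nat_lit 448748) (.g (nat_lit 1893) (.e (nat_lit 469) (nat_lit 35) (.e (nat_lit 450605) (nat_lit 27) (.e (nat_lit 745491) (nat_lit 4) (.e (nat_lit 65598) (nat_lit 9) (.e (nat_lit 336013) (nat_lit 2) (.e (nat_lit 98048) (nat_lit 0) .nil)))))) (.g (nat_lit 1) (.e (nat_lit 8997) (nat_lit 0) .nil) .nil))) 
(.lf (nat_lit 449260) (.g (nat_lit 2998) (.e (nat_lit 596) (nat_lit 45) (.e (nat_lit 532535) (nat_lit 9) (.e (nat_lit 336099) (nat_lit 9) (.e (nat_lit 336013) (nat_lit 2) (.e (nat_lit 90165) (nat_lit 12) (.e (nat_lit 164218) (nat_lit 179) (.e (nat_lit 164261) (nat_lit 221) (.e (nat_lit 1049) (nat_lit 81) .nil)))))))) (.g (nat_lit 1) (.e (nat_lit 11312) (nat_lit 0) .nil) .nil)))) (.nd (nat_lit 9) 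
(.lf (nat_lit 449004) (.g (nat_lit 4365) (.e (nat_lit 503) (nat_lit 40) (.e (nat_lit 491571) (nat_lit 13) (.e (nat_lit 393260) (nat_lit 21) (.e (nat_lit 409646) (nat_lit 18) .nil)))) (.g (nat_lit 0) (.e (nat_lit 10322) (nat_lit 0) .nil) .nil))) 
(.lf (nat_lit 449516) (.g (nat_lit 3663) (.e (nat_lit 852) (nat_lit 74) (.e (nat_lit 770072) (nat_lit 8) (.e (nat_lit 65583) (nat_lit 7) (.e (nat_lit 319530) (nat_lit 16) (.e (nat_lit 286759) (nat_lit 12) (.e (nat_lit 385115) (nat_lit 53) (.e (nat_lit 811033) (nat_lit 11) .nil))))))) (.g (nat_lit 1) (.e (nat_lit 12574) (nat_lit 0) .nil) .nil)))))))) 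
(.nd (nat_lit 5) (.nd (nat_lit 6) (.nd (nat_lit 7) (.nd (nat_lit 8) (.nd (nat_lit 9) 
(.lf (nat_lit 448540) (.g (nat_lit 3381) (.e (nat_lit 431) (nat_lit 32) (.e (nat_lit 426316) (nat_lit 12) (.e (nat_lit 475185) (nat_lit 29) (.e (nat_lit 557100) (nat_lit 13) .nil)))) (.g (nat_lit 0) (.e (nat_lit 6047) (nat_lit 0) .nil) .nil))) 
(.lf (nat_lit 449052) (.g (nat_lit 1518) (.e (nat_lit 231) (nat_lit 21) (.e (nat_lit 336228) (nat_lit 14) (.e (nat_lit 401459) (nat_lit 13) (.e (nat_lit 483372) (nat_lit 21) .nil)))) (.g (nat_lit 0) (.e (nat_lit 10426) (nat_lit 0) .nil) .nil)))) (.nd (nat_lit 9) 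
(.lf (nat_lit 448796) (.g (nat_lit 2079) (.e (nat_lit 493) (nat_lit 39) (.e (nat_lit 483372) (nat_lit 21) (.e (nat_lit 319504) (nat_lit 10) (.e (nat_lit 618) (nat_lit 48) (.e (nat_lit 557103) (nat_lit 14) (.e (nat_lit 188160) (nat_lit 32) .nil)))))) (.g (nat_lit 1) (.e (nat_lit 9779) (nat_lit 0) .nil) .nil))) 
(.lf (nat_lit 449308) (.g (nat_lit 1754) (.e (nat_lit 7936) (nat_lit 45) (.e (nat_lit 532549) (nat_lit 12) (.e (nat_lit 360475) (nat_lit 8) (.e (nat_lit 557066) (nat_lit 9) .nil)))) (.g (nat_lit 0) (.e (nat_lit 11472) (nat_lit 0) .nil) .nil))))) (.nd (nat_lit 8) (.nd (nat_lit 9) 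
(.lf (nat_lit 448668) (.g (nat_lit 2732) (.e (nat_lit 452) (nat_lit 33) (.e (nat_lit 434231) (nat_lit 23) (.e (nat_lit 532549) (nat_lit 12) (.e (nat_lit 360473) (nat_lit 8) (.e (nat_lit 557093) (nat_lit 12) (.e (nat_lit 164023) (nat_lit 46) (.e (nat_lit 704627) (nat_lit 9) .nil))))))) (.g (nat_lit 1) (.e (nat_lit 6986) (nat_lit 0) .nil) .nil))) 
(.lf (nat_lit 449180) (.g (nat_lit 2342) (.e (nat_lit 300) (nat_lit 22) (.e (nat_lit 344069) (nat_lit 0) (.e (nat_lit 3090) (nat_lit 191) (.e (nat_lit 483372) (nat_lit 21) (.e (nat_lit 319510) (nat_lit 10) (.e (nat_lit 5723) (nat_lit 312) .nil)))))) (.g (nat_lit 1) (.e (nat_lit 10976) (nat_lit 0) .nil) .nil)))) (.nd (nat_lit 9) 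
(.lf (nat_lit 448924) (.g (nat_lit 2888) (.e (nat_lit 498) (nat_lit 40) (.e (nat_lit 491569) (nat_lit 13) (.e (nat_lit 393301) (nat_lit 27) (.e (nat_lit 491558) (nat_lit 10) (.e (nat_lit 344091) (nat_lit 18) .nil))))) (.g (nat_lit 0) (.e (nat_lit 10177) (nat_lit 0) .nil) .nil))) 
(.lf (nat_lit 449436) (.g (nat_lit 2994) (.e (nat_lit 632) (nat_lit 50) (.e (nat_lit 573489) (nat_lit 14) (.e (nat_lit 73755) (nat_lit 8) (.e (nat_lit 557098) (nat_lit 13) (.e (nat_lit 172065) (nat_lit 3) .nil))))) (.g (nat_lit 0) (.e (nat_lit 11901) (nat_lit 0) .nil) .nil)))))) (.nd (nat_lit 7) (.nd (nat_lit 8) (.nd (nat_lit 9) 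
(.lf (nat_lit 448604) (.g (nat_lit 4338) (.e (nat_lit 7936) (nat_lit 32) (.e (nat_lit 426347) (nat_lit 14) (.e (nat_lit 491571) (nat_lit 13) (.e (nat_lit 393260) (nat_lit 21) (.e (nat_lit 409625) (nat_lit 10) .nil))))) (.g (nat_lit 0) (.e (nat_lit 6209) (nat_lit 0) .nil) .nil))) 
(.lf (nat_lit 449116) (.g (nat_lit 2791) (.e (nat_lit 288) (nat_lit 21) (.e (nat_lit 335876) (nat_lit 0) (.e (nat_lit 6713) (nat_lit 360) (.e (nat_lit 163962) (nat_lit 25) (.e (nat_lit 532550) (nat_lit 12) (.e (nat_lit 360475) (nat_lit 8) (.e (nat_lit 557068) (nat_lit 9) .nil))))))) (.g (nat_lit 1) (.e (nat_lit 10770) (nat_lit 0) .nil) .nil)))) (.nd (nat_lit 9) 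
(.lf (nat_lit 448860) (.g (nat_lit 987) (.e (nat_lit 496) (nat_lit 39) (.e (nat_lit 483383) (nat_lit 23) (.e (nat_lit 336315) (nat_lit 17) .nil))) (.g (nat_lit 0) (.e (nat_lit 9956) (nat_lit 0) .nil) .nil))) 
(.lf (nat_lit 449372) (.g (nat_lit 2314) (.e (nat_lit 632) (nat_lit 50) (.e (nat_lit 573482) (nat_lit 13) (.e (nat_lit 65619) (nat_lit 10) (.e (nat_lit 344090) (nat_lit 18) (.e (nat_lit 7607) (nat_lit 410) (.e (nat_lit 2630) (nat_lit 164) (.e (nat_lit 172082) (nat_lit 7) (.e (nat_lit 409612) (nat_lit 10) .nil)))))))) (.g (nat_lit 1) (.e (nat_lit 11766) (nat_lit 0) .nil) .nil))))) 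
(.nd (nat_lit 8) (.nd (nat_lit 9) 
(.lf (nat_lit 448732) (.g (nat_lit 898) (.e (nat_lit 461) (nat_lit 34) (.e (nat_lit 442421) (nat_lit 21) (.e (nat_lit 164327) (nat_lit 230) .nil))) (.g (nat_lit 0) (.e (nat_lit 7748) (nat_lit 0) .nil) .nil))) 
(.lf (nat_lit 449244) (.g (nat_lit 5103) (.e (nat_lit 595) (nat_lit 45) (.e (nat_lit 532550) (nat_lit 12) (.e (nat_lit 360475) (nat_lit 8) (.e (nat_lit 557066) (nat_lit 9) .nil)))) (.g (nat_lit 0) (.e (nat_lit 11273) (nat_lit 0) .nil) .nil)))) (.nd (nat_lit 9) 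
(.lf (nat_lit 448988) (.g (nat_lit 3100) (.e (nat_lit 502) (nat_lit 40) (.e (nat_lit 491569) (nat_lit 13) (.e (nat_lit 393301) (nat_lit 27) (.e (nat_lit 491560) (nat_lit 10) (.e (nat_lit 352000) (nat_lit 44) .nil))))) (.g (nat_lit 0) (.e (nat_lit 10300) (nat_lit 0) .nil) .nil))) 
(.lf (nat_lit 449500) (.g (nat_lit 2014) (.e (nat_lit 618) (nat_lit 48) (.e (nat_lit 557105) (nat_lit 14) (.e (nat_lit 180252) (nat_lit 10) (.e (nat_lit 573487) (nat_lit 14) (.e (nat_lit 73753) (nat_lit 8) .nil))))) (.g (nat_lit 0) (.e (nat_lit 12283) (nat_lit 0) .nil) .nil))))))) (.nd (nat_lit 6) (.nd (nat_lit 7) (.nd (nat_lit 8) (.nd (nat_lit 9) 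
(.lf (nat_lit 448572) (.g (nat_lit 5222) (.e (nat_lit 435) (nat_lit 32) (.e (nat_lit 426123) (nat_lit 2) (.e (nat_lit 196666) (nat_lit 13) (.e (nat_lit 65617) (nat_lit 10) (.e (nat_lit 344130) (nat_lit 26) (.e (nat_lit 557090) (nat_lit 12) (.e (nat_lit 164022) (nat_lit 46) (.e (nat_lit 704629) (nat_lit 9) .nil)))))))) (.g (nat_lit 1) (.e (nat_lit 6117) (nat_lit 0) .nil) .nil))) 
(.lf (nat_lit 449084) (.g (nat_lit 3801) (.e (nat_lit 259) (nat_lit 21) (.e (nat_lit 336226) (nat_lit 14) (.e (nat_lit 401459) (nat_lit 13) (.e (nat_lit 483372) (nat_lit 21) (.e (nat_lit 327424) (nat_lit 10) .nil))))) (.g (nat_lit 0) (.e (nat_lit 10574) (nat_lit 0) .nil) .nil)))) (.nd (nat_lit 9) 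
(.lf (nat_lit 448828) (.g (nat_lit 3074) (.e (nat_lit 496) (nat_lit 39) (.e (nat_lit 483372) (nat_lit 21) (.e (nat_lit 319504) (nat_lit 10) (.e (nat_lit 618) (nat_lit 48) (.e (nat_lit 557103) (nat_lit 14) (.e (nat_lit 188160) (nat_lit 32) .nil)))))) (.g (nat_lit 1) (.e (nat_lit 9916) (nat_lit 0) .nil) .nil))) 
(.lf (nat_lit 449340) (.g (nat_lit 2996) (.e (nat_lit 582) (nat_lit 43) (.e (nat_lit 516151) (nat_lit 9) (.e (nat_lit 426286) (nat_lit 10) (.e (nat_lit 434245) (nat_lit 28) .nil)))) (.g (nat_lit 0) (.e (nat_lit 11548) (nat_lit 0) .nil) .nil))))) (.nd (nat_lit 8) (.nd (nat_lit 9) 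
(.lf (nat_lit 448700) (.g (nat_lit 1132) (.e (nat_lit 456) (nat_lit 34) (.e (nat_lit 442374) (nat_lit 0) (.e (nat_lit 2059) (nat_lit 142) (.e (nat_lit 704595) (nat_lit 5) .nil)))) (.g (nat_lit 0) (.e (nat_lit 7335) (nat_lit 0) .nil) .nil))) 
(.lf (nat_lit 449212) (.g (nat_lit 2050) (.e (nat_lit 558) (nat_lit 41) (.e (nat_lit 499919) (nat_lit 9) (.e (nat_lit 172106) (nat_lit 10) (.e (nat_lit 434244) (nat_lit 28) (.e (nat_lit 573450) (nat_lit 9) .nil))))) (.g (nat_lit 0) (.e (nat_lit 11196) (nat_lit 0) .nil) .nil)))) (.nd (nat_lit 9) 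
(.lf (nat_lit 448956) (.g (nat_lit 2804) (.e (nat_lit 500) (nat_lit 40) (.e (nat_lit 491568) (nat_lit 13) (.e (nat_lit 393301) (nat_lit 27) (.e (nat_lit 491560) (nat_lit 10) (.e (nat_lit 344178) (nat_lit 44) .nil))))) (.g (nat_lit 0) (.e (nat_lit 10239) (nat_lit 0) .nil) .nil))) 
(.lf (nat_lit 449468) (.g (nat_lit 2481) (.e (nat_lit 632) (nat_lit 50) (.e (nat_lit 573489) (nat_lit 14) (.e (nat_lit 73755) (nat_lit 8) (.e (nat_lit 557105) (nat_lit 14) (.e (nat_lit 180252) (nat_lit 10) (.e (nat_lit 573441) (nat_lit 0) (.e (nat_lit 2822) (nat_lit 182) (.e (nat_lit 409612) (nat_lit 10) .nil)))))))) (.g (nat_lit 1) (.e (nat_lit 11974) (nat_lit 0) .nil) .nil)))))) 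
(.nd (nat_lit 7) (.nd (nat_lit 8) (.nd (nat_lit 9) 
(.lf (nat_lit 448636) (.g (nat_lit 2373) (.e (nat_lit 447) (nat_lit 33) (.e (nat_lit 434180) (nat_lit 0) (.e (nat_lit 1427) (nat_lit 108) (.e (nat_lit 336421) (nat_lit 28) (.e (nat_lit 434198) (nat_lit 17) (.e (nat_lit 229644) (nat_lit 232) .nil)))))) (.g (nat_lit 1) (.e (nat_lit 6673) (nat_lit 0) .nil) .nil))) 
(.lf (nat_lit 449148) (.g (nat_lit 1853) (.e (nat_lit 300) (nat_lit 22) (.e (nat_lit 344068) (nat_lit 0) (.e (nat_lit 3090) (nat_lit 191) (.e (nat_lit 483372) (nat_lit 21) (.e (nat_lit 319496) (nat_lit 10) .nil))))) (.g (nat_lit 0) (.e (nat_lit 10928) (nat_lit 0) .nil) .nil)))) (.nd (nat_lit 9) 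
(.lf (nat_lit 448892) (.g (nat_lit 1708) (.e (nat_lit 497) (nat_lit 39) (.e (nat_lit 483365) (nat_lit 18) (.e (nat_lit 57849) (nat_lit 252) (.e (nat_lit 57365) (nat_lit 1) (.e (nat_lit 57854) (nat_lit 252) .nil))))) (.g (nat_lit 0) (.e (nat_lit 10056) (nat_lit 0) .nil) .nil))) 
(.lf (nat_lit 449404) (.g (nat_lit 1242) (.e (nat_lit 632) (nat_lit 50) (.e (nat_lit 573485) (nat_lit 13) (.e (nat_lit 65619) (nat_lit 10) (.e (nat_lit 344183) (nat_lit 49) .nil)))) (.g (nat_lit 0) (.e (nat_lit 11839) (nat_lit 0) .nil) .nil))))) (.nd (nat_lit 8) (.nd (nat_lit 9) 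
(.lf (nat_lit 448764) (.g (nat_lit 3515) (.e (nat_lit 484) (nat_lit 38) (.e (nat_lit 475185) (nat_lit 29) (.e (nat_lit 557100) (nat_lit 13) (.e (nat_lit 172113) (nat_lit 10) (.e (nat_lit 434248) (nat_lit 28) .nil))))) (.g (nat_lit 0) (.e (nat_lit 9634) (nat_lit 0) .nil) .nil))) 
(.lf (nat_lit 449276) (.g (nat_lit 2659) (.e (nat_lit 604) (nat_lit 45) (.e (nat_lit 532499) (nat_lit 1) (.e (nat_lit 57927) (nat_lit 282) (.e (nat_lit 163885) (nat_lit 5) (.e (nat_lit 221212) (nat_lit 22) (.e (nat_lit 196656) (nat_lit 11) (.e (nat_lit 16425) (nat_lit 7) (.e (nat_lit 409616) (nat_lit 10) .nil)))))))) (.g (nat_lit 1) (.e (nat_lit 11381) (nat_lit 0) .nil) .nil)))) (.nd (nat_lit 9) 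
(.lf (nat_lit 449020) (.g (nat_lit 1781) (.e (nat_lit 7936) (nat_lit 19) (.e (nat_lit 319490) (nat_lit 0) (.e (nat_lit 5664) (nat_lit 312) (.e (nat_lit 3085) (nat_lit 191) (.e (nat_lit 483377) (nat_lit 22) .nil))))) (.g (nat_lit 0) (.e (nat_lit 10360) (nat_lit 0) .nil) .nil))) 
(.lf (nat_lit 449532) (.g (nat_lit 2154) (.e (nat_lit 879) (nat_lit 75) (.e (nat_lit 778466) (nat_lit 11) (.e (nat_lit 24617) (nat_lit 7) (.e (nat_lit 319528) (nat_lit 16) (.e (nat_lit 286759) (nat_lit 12) .nil))))) (.g (nat_lit 0) (.e (nat_lit 12606) (nat_lit 0) .nil) .nil))))))))))) 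
(.nd (nat_lit 2) (.nd (nat_lit 3) (.nd (nat_lit 4) (.nd (nat_lit 5) (.nd (nat_lit 6) 
(.nd (nat_lit 7) (.nd (nat_lit 8) (.nd (nat_lit 9) 
(.lf (nat_lit 448514) (.g (nat_lit 4784) (.e (nat_lit 430) (nat_lit 32) (.e (nat_lit 426343) (nat_lit 14) (.e (nat_lit 491544) (nat_lit 7) (.e (nat_lit 319534) (nat_lit 16) (.e (nat_lit 286756) (nat_lit 10) (.e (nat_lit 344160) (nat_lit 37) (.e (nat_lit 647190) (nat_lit 9) .nil))))))) (.g (nat_lit 1) (.e (nat_lit 6010) (nat_lit 0) .nil) .nil))) 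
(.lf (nat_lit 449026) (.g (nat_lit 2749) (.e (nat_lit 220) (nat_lit 20) (.e (nat_lit 327699) (nat_lit 8) (.e (nat_lit 303117) (nat_lit 2) (.e (nat_lit 196666) (nat_lit 13) (.e (nat_lit 65617) (nat_lit 10) .nil))))) (.g (nat_lit 0) (.e (nat_lit 10384) (nat_lit 0) .nil) .nil)))) (.nd (nat_lit 9) 
(.lf (nat_lit 448770) (.g (nat_lit 3141) (.e (nat_lit 489) (nat_lit 38) (.e (nat_lit 475185) (nat_lit 29) (.e (nat_lit 557100) (nat_lit 13) (.e (nat_lit 172113) (nat_lit 10) .nil)))) (.g (nat_lit 0) (.e (nat_lit 9686) (nat_lit 0) .nil) .nil))) 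
(.lf (nat_lit 449282) (.g (nat_lit 2478) (.e (nat_lit 604) (nat_lit 45) (.e (nat_lit 532501) (nat_lit 1) (.e (nat_lit 57927) (nat_lit 282) (.e (nat_lit 163884) (nat_lit 5) (.e (nat_lit 221212) (nat_lit 22) .nil))))) (.g (nat_lit 0) (.e (nat_lit 11397) (nat_lit 0) .nil) .nil))))) (.nd (nat_lit 8) (.nd (nat_lit 9) 
(.lf (nat_lit 448642) (.g (nat_lit 1806) (.e (nat_lit 447) (nat_lit 33) (.e (nat_lit 434180) (nat_lit 0) (.e (nat_lit 1428) (nat_lit 108) (.e (nat_lit 336421) (nat_lit 28) (.e (nat_lit 434198) (nat_lit 17) (.e (nat_lit 229646) (nat_lit 232) .nil)))))) (.g (nat_lit 1) (.e (nat_lit 6679) (nat_lit 0) .nil) .nil))) 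
(.lf (nat_lit 449154) (.g (nat_lit 3102) (.e (nat_lit 300) (nat_lit 22) (.e (nat_lit 344068) (nat_lit 0) (.e (nat_lit 3090) (nat_lit 191) (.e (nat_lit 483372) (nat_lit 21) (.e (nat_lit 319506) (nat_lit 10) (.e (nat_lit 5722) (nat_lit 312) .nil)))))) (.g (nat_lit 1) (.e (nat_lit 10934) (nat_lit 0) .nil) .nil)))) (.nd (nat_lit 9) 
(.lf (nat_lit 448898) (.g (nat_lit 523) (.e (nat_lit 7936) (nat_lit 39) (.e (nat_lit 483412) (nat_lit 27) (.e (nat_lit 409344) (nat_lit 17) .nil))) (.g (nat_lit 0) (.e (nat_lit 10120) (nat_lit 0) .nil) .nil))) 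
(.lf (nat_lit 449410) (.g (nat_lit 2450) (.e (nat_lit 632) (nat_lit 50) (.e (nat_lit 573489) (nat_lit 14) (.e (nat_lit 73754) (nat_lit 8) (.e (nat_lit 557100) (nat_lit 13) (.e (nat_lit 172067) (nat_lit 3) (.e (nat_lit 212736) (nat_lit 7) (.e (nat_lit 409612) (nat_lit 10) .nil))))))) (.g (nat_lit 1) (.e (nat_lit 11856) (nat_lit 0) .nil) .nil)))))) (.nd (nat_lit 7) (.nd (nat_lit 8) (.nd (nat_lit 9) 
(.lf (nat_lit 448578) (.g (nat_lit 4738) (.e (nat_lit 435) (nat_lit 32) (.e (nat_lit 426123) (nat_lit 2) (.e (nat_lit 196666) (nat_lit 13) (.e (nat_lit 65617) (nat_lit 10) (.e (nat_lit 344132) (nat_lit 26) (.e (nat_lit 557094) (nat_lit 12) (.e (nat_lit 164022) (nat_lit 46) (.e (nat_lit 704629) (nat_lit 9) .nil)))))))) (.g (nat_lit 1) (.e (nat_lit 6123) (nat_lit 0) .nil) .nil))) 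
(.lf (nat_lit 449090) (.g (nat_lit 2269) (.e (nat_lit 268) (nat_lit 21) (.e (nat_lit 336001) (nat_lit 2) (.e (nat_lit 90170) (nat_lit 13) (.e (nat_lit 172113) (nat_lit 10) (.e (nat_lit 434248) (nat_lit 28) .nil))))) (.g (nat_lit 0) (.e (nat_lit 10581) (nat_lit 0) .nil) .nil)))) (.nd (nat_lit 9) 
(.lf (nat_lit 448834) (.g (nat_lit 1846) (.e (nat_lit 496) (nat_lit 39) (.e (nat_lit 483379) (nat_lit 23) (.e (nat_lit 336320) (nat_lit 17) (.e (nat_lit 196698) (nat_lit 19) (.e (nat_lit 57808) (nat_lit 246) (.e (nat_lit 57879) (nat_lit 270) .nil)))))) (.g (nat_lit 1) (.e (nat_lit 9923) (nat_lit 0) .nil) .nil))) 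
(.lf (nat_lit 449346) (.g (nat_lit 2354) (.e (nat_lit 584) (nat_lit 43) (.e (nat_lit 516115) (nat_lit 1) (.e (nat_lit 164399) (nat_lit 256) (.e (nat_lit 57388) (nat_lit 5) (.e (nat_lit 114714) (nat_lit 22) .nil))))) (.g (nat_lit 0) (.e (nat_lit 11576) (nat_lit 0) .nil) .nil))))) (.nd (nat_lit 8) (.nd (nat_lit 9) 
(.lf (nat_lit 448706) (.g (nat_lit 1850) (.e (nat_lit 457) (nat_lit 34) (.e (nat_lit 442374) (nat_lit 0) (.e (nat_lit 1855) (nat_lit 124) (.e (nat_lit 557101) (nat_lit 13) (.e (nat_lit 172115) (nat_lit 10) (.e (nat_lit 434244) (nat_lit 28) (.e (nat_lit 573449) (nat_lit 9) .nil))))))) (.g (nat_lit 1) (.e (nat_lit 7429) (nat_lit 0) .nil) .nil))) 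
(.lf (nat_lit 449218) (.g (nat_lit 3360) (.e (nat_lit 592) (nat_lit 45) (.e (nat_lit 532550) (nat_lit 12) (.e (nat_lit 360473) (nat_lit 8) (.e (nat_lit 557087) (nat_lit 11) .nil)))) (.g (nat_lit 0) (.e (nat_lit 11212) (nat_lit 0) .nil) .nil)))) (.nd (nat_lit 9) 
(.lf (nat_lit 448962) (.g (nat_lit 2848) (.e (nat_lit 500) (nat_lit 40) (.e (nat_lit 491569) (nat_lit 13) (.e (nat_lit 393301) (nat_lit 27) (.e (nat_lit 491560) (nat_lit 10) (.e (nat_lit 344178) (nat_lit 44) .nil))))) (.g (nat_lit 0) (.e (nat_lit 10245) (nat_lit 0) .nil) .nil))) 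
(.lf (nat_lit 449474) (.g (nat_lit 2497) (.e (nat_lit 632) (nat_lit 50) (.e (nat_lit 573489) (nat_lit 14) (.e (nat_lit 73755) (nat_lit 8) (.e (nat_lit 557105) (nat_lit 14) (.e (nat_lit 180252) (nat_lit 10) (.e (nat_lit 581376) (nat_lit 0) (.e (nat_lit 2824) (nat_lit 182) (.e (nat_lit 409615) (nat_lit 10) .nil)))))))) (.g (nat_lit 1) (.e (nat_lit 11980) (nat_lit 0) .nil) .nil))))))) 
(.nd (nat_lit 6) (.nd (nat_lit 7) (.nd (nat_lit 8) (.nd (nat_lit 9) 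
(.lf (nat_lit 448546) (.g (nat_lit 4681) (.e (nat_lit 433) (nat_lit 32) (.e (nat_lit 425987) (nat_lit 0) (.e (nat_lit 7489) (nat_lit 402) (.e (nat_lit 1239) (nat_lit 91) (.e (nat_lit 90170) (nat_lit 13) (.e (nat_lit 172106) (nat_lit 10) (.e (nat_lit 434244) (nat_lit 28) (.e (nat_lit 573450) (nat_lit 9) .nil)))))))) (.g (nat_lit 1) (.e (nat_lit 6059) (nat_lit 0) .nil) .nil))) 
(.lf (nat_lit 449058) (.g (nat_lit 3039) (.e (nat_lit 232) (nat_lit 21) (.e (nat_lit 336060) (nat_lit 7) (.e (nat_lit 319534) (nat_lit 16) (.e (nat_lit 286722) (nat_lit 0) (.e (nat_lit 2265) (nat_lit 149) (.e (nat_lit 761910) (nat_lit 17) (.e (nat_lit 188160) (nat_lit 40) .nil))))))) (.g (nat_lit 1) (.e (nat_lit 10458) (nat_lit 0) .nil) .nil)))) (.nd (nat_lit 9) 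
(.lf (nat_lit 448802) (.g (nat_lit 1465) (.e (nat_lit 495) (nat_lit 39) (.e (nat_lit 483413) (nat_lit 27) (.e (nat_lit 409344) (nat_lit 17) (.e (nat_lit 90172) (nat_lit 14) (.e (nat_lit 188160) (nat_lit 32) .nil))))) (.g (nat_lit 0) (.e (nat_lit 9850) (nat_lit 0) .nil) .nil))) 
(.lf (nat_lit 449314) (.g (nat_lit 3499) (.e (nat_lit 606) (nat_lit 46) (.e (nat_lit 540704) (nat_lit 12) (.e (nat_lit 360473) (nat_lit 8) (.e (nat_lit 557087) (nat_lit 11) (.e (nat_lit 24617) (nat_lit 7) (.e (nat_lit 319504) (nat_lit 10) .nil)))))) (.g (nat_lit 1) (.e (nat_lit 11486) (nat_lit 0) .nil) .nil))))) (.nd (nat_lit 8) (.nd (nat_lit 9) 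
(.lf (nat_lit 448674) (.g (nat_lit 3586) (.e (nat_lit 452) (nat_lit 33) (.e (nat_lit 434231) (nat_lit 23) (.e (nat_lit 532549) (nat_lit 12) (.e (nat_lit 360474) (nat_lit 8) (.e (nat_lit 557093) (nat_lit 12) (.e (nat_lit 164022) (nat_lit 46) (.e (nat_lit 704628) (nat_lit 9) .nil))))))) (.g (nat_lit 1) (.e (nat_lit 6992) (nat_lit 0) .nil) .nil))) 
(.lf (nat_lit 449186) (.g (nat_lit 2216) (.e (nat_lit 307) (nat_lit 22) (.e (nat_lit 344097) (nat_lit 18) (.e (nat_lit 4716) (nat_lit 275) (.e (nat_lit 2610) (nat_lit 163) (.e (nat_lit 163979) (nat_lit 30) (.e (nat_lit 573482) (nat_lit 13) (.e (nat_lit 65619) (nat_lit 10) (.e (nat_lit 344129) (nat_lit 26) (.e (nat_lit 557065) (nat_lit 9) .nil))))))))) (.g (nat_lit 1) (.e (nat_lit 11040) (nat_lit 0) .nil) .nil)))) 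
(.nd (nat_lit 9) 
(.lf (nat_lit 448930) (.g (nat_lit 3525) (.e (nat_lit 498) (nat_lit 40) (.e (nat_lit 491569) (nat_lit 13) (.e (nat_lit 393301) (nat_lit 27) (.e (nat_lit 491560) (nat_lit 10) (.e (nat_lit 344094) (nat_lit 18) (.e (nat_lit 7454) (nat_lit 396) (.e (nat_lit 992) (nat_lit 81) .nil))))))) (.g (nat_lit 1) (.e (nat_lit 10183) (nat_lit 0) .nil) .nil))) 
(.lf (nat_lit 449442) (.g (nat_lit 2769) (.e (nat_lit 632) (nat_lit 50) (.e (nat_lit 573489) (nat_lit 14) (.e (nat_lit 73755) (nat_lit 8) (.e (nat_lit 557098) (nat_lit 13) (.e (nat_lit 172067) (nat_lit 3) .nil))))) (.g (nat_lit 0) (.e (nat_lit 11908) (nat_lit 0) .nil) .nil)))))) (.nd (nat_lit 7) (.nd (nat_lit 8) (.nd (nat_lit 9) 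
(.lf (nat_lit 448610) (.g (nat_lit 4669) (.e (nat_lit 442) (nat_lit 33) (.e (nat_lit 434180) (nat_lit 0) (.e (nat_lit 1253) (nat_lit 92) (.e (nat_lit 98373) (nat_lit 29) (.e (nat_lit 450587) (nat_lit 10) (.e (nat_lit 573449) (nat_lit 9) .nil)))))) (.g (nat_lit 1) (.e (nat_lit 6259) (nat_lit 0) .nil) .nil))) 
(.lf (nat_lit 449122) (.g (nat_lit 3048) (.e (nat_lit 293) (nat_lit 21) (.e (nat_lit 335874) (nat_lit 0) (.e (nat_lit 6713) (nat_lit 360) (.e (nat_lit 163962) (nat_lit 25) (.e (nat_lit 532550) (nat_lit 12) (.e (nat_lit 360475) (nat_lit 8) (.e (nat_lit 557066) (nat_lit 9) .nil))))))) (.g (nat_lit 1) (.e (nat_lit 10862) (nat_lit 0) .nil) .nil)))) (.nd (nat_lit 9) 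
(.lf (nat_lit 448866) (.g (nat_lit 744) (.e (nat_lit 496) (nat_lit 39) (.e (nat_lit 483384) (nat_lit 23) (.e (nat_lit 336320) (nat_lit 17) (.e (nat_lit 196698) (nat_lit 19) .nil)))) (.g (nat_lit 0) (.e (nat_lit 9963) (nat_lit 0) .nil) .nil))) 
(.lf (nat_lit 449378) (.g (nat_lit 3203) (.e (nat_lit 632) (nat_lit 50) (.e (nat_lit 573482) (nat_lit 13) (.e (nat_lit 65619) (nat_lit 10) (.e (nat_lit 344090) (nat_lit 18) (.e (nat_lit 7710) (nat_lit 414) (.e (nat_lit 163908) (nat_lit 12) (.e (nat_lit 426171) (nat_lit 7) (.e (nat_lit 409612) (nat_lit 10) .nil)))))))) (.g (nat_lit 1) (.e (nat_lit 11772) (nat_lit 0) .nil) .nil))))) 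
(.nd (nat_lit 8) (.nd (nat_lit 9) 
(.lf (nat_lit 448738) (.g (nat_lit 2113) (.e (nat_lit 463) (nat_lit 34) (.e (nat_lit 442399) (nat_lit 20) (.e (nat_lit 3399) (nat_lit 211) (.e (nat_lit 647183) (nat_lit 4) (.e (nat_lit 172079) (nat_lit 7) (.e (nat_lit 409618) (nat_lit 10) (.e (nat_lit 5363) (nat_lit 298) .nil))))))) (.g (nat_lit 1) (.e (nat_lit 7829) (nat_lit 0) .nil) .nil))) 
(.lf (nat_lit 449250) (.g (nat_lit 3670) (.e (nat_lit 595) (nat_lit 45) (.e (nat_lit 532550) (nat_lit 12) (.e (nat_lit 360475) (nat_lit 8) (.e (nat_lit 557086) (nat_lit 11) (.e (nat_lit 24621) (nat_lit 8) .nil))))) (.g (nat_lit 0) (.e (nat_lit 11281) (nat_lit 0) .nil) .nil)))) (.nd (nat_lit 9) 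
(.lf (nat_lit 448994) (.g (nat_lit 3854) (.e (nat_lit 503) (nat_lit 40) (.e (nat_lit 491568) (nat_lit 13) (.e (nat_lit 393301) (nat_lit 27) (.e (nat_lit 491560) (nat_lit 10) (.e (nat_lit 344094) (nat_lit 18) (.e (nat_lit 7454) (nat_lit 396) (.e (nat_lit 989) (nat_lit 81) .nil))))))) (.g (nat_lit 1) (.e (nat_lit 10311) (nat_lit 0) .nil) .nil))) 
(.lf (nat_lit 449506) (.g (nat_lit 2005) (.e (nat_lit 682) (nat_lit 58) (.e (nat_lit 638998) (nat_lit 8) (.e (nat_lit 172123) (nat_lit 13) (.e (nat_lit 483408) (nat_lit 26) (.e (nat_lit 385114) (nat_lit 53) .nil))))) (.g (nat_lit 0) (.e (nat_lit 12296) (nat_lit 0) .nil) .nil)))))))) (.nd (nat_lit 5) (.nd (nat_lit 6) (.nd (nat_lit 7) (.nd (nat_lit 8) (.nd (nat_lit 9) 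
(.lf (nat_lit 448530) (.g (nat_lit 2892) (.e (nat_lit 430) (nat_lit 32) (.e (nat_lit 426344) (nat_lit 14) (.e (nat_lit 491538) (nat_lit 3) (.e (nat_lit 98373) (nat_lit 29) (.e (nat_lit 450587) (nat_lit 10) (.e (nat_lit 573457) (nat_lit 9) .nil)))))) (.g (nat_lit 1) (.e (nat_lit 6026) (nat_lit 0) .nil) .nil))) 
(.lf (nat_lit 449042) (.g (nat_lit 3647) (.e (nat_lit 224) (nat_lit 21) (.e (nat_lit 336369) (nat_lit 27) (.e (nat_lit 426173) (nat_lit 7) (.e (nat_lit 409617) (nat_lit 10) (.e (nat_lit 632) (nat_lit 50) (.e (nat_lit 573487) (nat_lit 14) (.e (nat_lit 81664) (nat_lit 32) .nil))))))) (.g (nat_lit 1) (.e (nat_lit 10407) (nat_lit 0) .nil) .nil)))) (.nd (nat_lit 9) 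
(.lf (nat_lit 448786) (.g (nat_lit 1376) (.e (nat_lit 492) (nat_lit 39) (.e (nat_lit 483365) (nat_lit 18) (.e (nat_lit 57848) (nat_lit 252) (.e (nat_lit 57365) (nat_lit 1) .nil)))) (.g (nat_lit 0) (.e (nat_lit 9737) (nat_lit 0) .nil) .nil))) 
(.lf (nat_lit 449298) (.g (nat_lit 2527) (.e (nat_lit 604) (nat_lit 45) (.e (nat_lit 532515) (nat_lit 3) (.e (nat_lit 114719) (nat_lit 23) (.e (nat_lit 98365) (nat_lit 26) (.e (nat_lit 426137) (nat_lit 3) .nil))))) (.g (nat_lit 0) (.e (nat_lit 11425) (nat_lit 0) .nil) .nil))))) (.nd (nat_lit 8) (.nd (nat_lit 9) 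
(.lf (nat_lit 448658) (.g (nat_lit 3311) (.e (nat_lit 450) (nat_lit 33) (.e (nat_lit 434231) (nat_lit 23) (.e (nat_lit 532550) (nat_lit 12) (.e (nat_lit 360474) (nat_lit 8) (.e (nat_lit 557094) (nat_lit 12) (.e (nat_lit 164022) (nat_lit 46) (.e (nat_lit 704629) (nat_lit 9) .nil))))))) (.g (nat_lit 1) (.e (nat_lit 6858) (nat_lit 0) .nil) .nil))) 
(.lf (nat_lit 449170) (.g (nat_lit 2503) (.e (nat_lit 300) (nat_lit 22) (.e (nat_lit 344069) (nat_lit 0) (.e (nat_lit 3090) (nat_lit 191) (.e (nat_lit 483372) (nat_lit 21) (.e (nat_lit 319496) (nat_lit 10) (.e (nat_lit 5721) (nat_lit 312) .nil)))))) (.g (nat_lit 1) (.e (nat_lit 10966) (nat_lit 0) .nil) .nil)))) (.nd (nat_lit 9) 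
(.lf (nat_lit 448914) (.g (nat_lit 1552) (.e (nat_lit 498) (nat_lit 40) (.e (nat_lit 491565) (nat_lit 12) (.e (nat_lit 385102) (nat_lit 50) (.e (nat_lit 786483) (nat_lit 30) (.e (nat_lit 360478) (nat_lit 12) .nil))))) (.g (nat_lit 0) (.e (nat_lit 10146) (nat_lit 0) .nil) .nil))) 
(.lf (nat_lit 449426) (.g (nat_lit 3205) (.e (nat_lit 632) (nat_lit 50) (.e (nat_lit 573489) (nat_lit 14) (.e (nat_lit 73755) (nat_lit 8) (.e (nat_lit 557096) (nat_lit 13) (.e (nat_lit 172067) (nat_lit 3) (.e (nat_lit 212736) (nat_lit 7) (.e (nat_lit 409616) (nat_lit 10) .nil))))))) (.g (nat_lit 1) (.e (nat_lit 11879) (nat_lit 0) .nil) .nil)))))) (.nd (nat_lit 7) (.nd (nat_lit 8) (.nd (nat_lit 9) 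
(.lf (nat_lit 448594) (.g (nat_lit 2237) (.e (nat_lit 7936) (nat_lit 32) (.e (nat_lit 426340) (nat_lit 14) (.e (nat_lit 491568) (nat_lit 13) (.e (nat_lit 393260) (nat_lit 21) (.e (nat_lit 409623) (nat_lit 10) .nil))))) (.g (nat_lit 0) (.e (nat_lit 6199) (nat_lit 0) .nil) .nil))) 
(.lf (nat_lit 449106) (.g (nat_lit 4219) (.e (nat_lit 286) (nat_lit 21) (.e (nat_lit 336229) (nat_lit 14) (.e (nat_lit 401459) (nat_lit 13) (.e (nat_lit 483372) (nat_lit 21) (.e (nat_lit 319502) (nat_lit 10) .nil))))) (.g (nat_lit 0) (.e (nat_lit 10657) (nat_lit 0) .nil) .nil)))) (.nd (nat_lit 9) 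
(.lf (nat_lit 448850) (.g (nat_lit 1421) (.e (nat_lit 496) (nat_lit 39) (.e (nat_lit 483381) (nat_lit 23) (.e (nat_lit 336320) (nat_lit 17) (.e (nat_lit 196698) (nat_lit 19) (.e (nat_lit 57811) (nat_lit 246) (.e (nat_lit 57879) (nat_lit 270) .nil)))))) (.g (nat_lit 1) (.e (nat_lit 9941) (nat_lit 0) .nil) .nil))) 
(.lf (nat_lit 449362) (.g (nat_lit 479) (.e (nat_lit 630) (nat_lit 50) (.e (nat_lit 573488) (nat_lit 14) (.e (nat_lit 81664) (nat_lit 32) .nil))) (.g (nat_lit 0) (.e (nat_lit 11679) (nat_lit 0) .nil) .nil))))) (.nd (nat_lit 8) (.nd (nat_lit 9) 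
(.lf (nat_lit 448722) (.g (nat_lit 2509) (.e (nat_lit 459) (nat_lit 34) (.e (nat_lit 442379) (nat_lit 0) (.e (nat_lit 1855) (nat_lit 124) (.e (nat_lit 557098) (nat_lit 13) (.e (nat_lit 172115) (nat_lit 10) (.e (nat_lit 434244) (nat_lit 28) (.e (nat_lit 573449) (nat_lit 9) .nil))))))) (.g (nat_lit 1) (.e (nat_lit 7559) (nat_lit 0) .nil) .nil))) 
(.lf (nat_lit 449234) (.g (nat_lit 4632) (.e (nat_lit 595) (nat_lit 45) (.e (nat_lit 532535) (nat_lit 9) (.e (nat_lit 336099) (nat_lit 9) (.e (nat_lit 336013) (nat_lit 2) (.e (nat_lit 90161) (nat_lit 12) .nil))))) (.g (nat_lit 0) (.e (nat_lit 11238) (nat_lit 0) .nil) .nil)))) (.nd (nat_lit 9) 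
(.lf (nat_lit 448978) (.g (nat_lit 4323) (.e (nat_lit 501) (nat_lit 40) (.e (nat_lit 491571) (nat_lit 13) (.e (nat_lit 393260) (nat_lit 21) (.e (nat_lit 409646) (nat_lit 18) .nil)))) (.g (nat_lit 0) (.e (nat_lit 10278) (nat_lit 0) .nil) .nil))) 
(.lf (nat_lit 449490) (.g (nat_lit 1784) (.e (nat_lit 632) (nat_lit 50) (.e (nat_lit 573493) (nat_lit 15) (.e (nat_lit 81938) (nat_lit 20) (.e (nat_lit 989) (nat_lit 81) .nil)))) (.g (nat_lit 0) (.e (nat_lit 12073) (nat_lit 0) .nil) .nil))))))) (.nd (nat_lit 6) (.nd (nat_lit 7) (.nd (nat_lit 8) (.nd (nat_lit 9) 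
(.lf (nat_lit 448562) (.g (nat_lit 3169) (.e (nat_lit 435) (nat_lit 32) (.e (nat_lit 426121) (nat_lit 2) (.e (nat_lit 196666) (nat_lit 13) (.e (nat_lit 65617) (nat_lit 10) (.e (nat_lit 344130) (nat_lit 26) (.e (nat_lit 557090) (nat_lit 12) (.e (nat_lit 164022) (nat_lit 46) (.e (nat_lit 704627) (nat_lit 9) .nil)))))))) (.g (nat_lit 1) (.e (nat_lit 6107) (nat_lit 0) .nil) .nil))) 
(.lf (nat_lit 449074) (.g (nat_lit 3249) (.e (nat_lit 251) (nat_lit 21) (.e (nat_lit 336204) (nat_lit 12) (.e (nat_lit 385074) (nat_lit 31) (.e (nat_lit 573493) (nat_lit 15) (.e (nat_lit 81947) (nat_lit 20) .nil))))) (.g (nat_lit 0) (.e (nat_lit 10546) (nat_lit 0) .nil) .nil)))) (.nd (nat_lit 9) 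
(.lf (nat_lit 448818) (.g (nat_lit 2576) (.e (nat_lit 496) (nat_lit 39) (.e (nat_lit 483365) (nat_lit 18) (.e (nat_lit 57847) (nat_lit 252) (.e (nat_lit 57379) (nat_lit 3) (.e (nat_lit 98309) (nat_lit 0) (.e (nat_lit 6112) (nat_lit 332) (.e (nat_lit 2406) (nat_lit 157) (.e (nat_lit 5259) (nat_lit 298) .nil)))))))) (.g (nat_lit 1) (.e (nat_lit 9895) (nat_lit 0) .nil) .nil))) 
(.lf (nat_lit 449330) (.g (nat_lit 4847) (.e (nat_lit 577) (nat_lit 43) (.e (nat_lit 516166) (nat_lit 12) (.e (nat_lit 450587) (nat_lit 10) (.e (nat_lit 573471) (nat_lit 11) .nil)))) (.g (nat_lit 0) (.e (nat_lit 11511) (nat_lit 0) .nil) .nil))))) (.nd (nat_lit 8) (.nd (nat_lit 9) 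
(.lf (nat_lit 448690) (.g (nat_lit 363) (.e (nat_lit 7936) (nat_lit 33) (.e (nat_lit 434180) (nat_lit 0) (.e (nat_lit 1427) (nat_lit 108) .nil))) (.g (nat_lit 0) (.e (nat_lit 7154) (nat_lit 0) .nil) .nil))) 
(.lf (nat_lit 449202) (.g (nat_lit 1334) (.e (nat_lit 353) (nat_lit 29) (.e (nat_lit 401451) (nat_lit 12) (.e (nat_lit 475207) (nat_lit 41) .nil))) (.g (nat_lit 0) (.e (nat_lit 11155) (nat_lit 0) .nil) .nil)))) (.nd (nat_lit 9) 
(.lf (nat_lit 448946) (.g (nat_lit 1842) (.e (nat_lit 499) (nat_lit 40) (.e (nat_lit 491569) (nat_lit 13) (.e (nat_lit 393301) (nat_lit 27) (.e (nat_lit 491560) (nat_lit 10) .nil)))) (.g (nat_lit 0) (.e (nat_lit 10216) (nat_lit 0) .nil) .nil))) 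
(.lf (nat_lit 449458) (.g (nat_lit 2156) (.e (nat_lit 632) (nat_lit 50) (.e (nat_lit 573489) (nat_lit 14) (.e (nat_lit 73755) (nat_lit 8) (.e (nat_lit 557104) (nat_lit 14) (.e (nat_lit 180245) (nat_lit 5) .nil))))) (.g (nat_lit 0) (.e (nat_lit 11944) (nat_lit 0) .nil) .nil)))))) (.nd (nat_lit 7) (.nd (nat_lit 8) (.nd (nat_lit 9) 
(.lf (nat_lit 448626) (.g (nat_lit 2863) (.e (nat_lit 442) (nat_lit 33) (.e (nat_lit 434233) (nat_lit 23) (.e (nat_lit 532550) (nat_lit 12) (.e (nat_lit 360474) (nat_lit 8) (.e (nat_lit 557094) (nat_lit 12) (.e (nat_lit 164022) (nat_lit 46) (.e (nat_lit 704628) (nat_lit 9) .nil))))))) (.g (nat_lit 1) (.e (nat_lit 6305) (nat_lit 0) .nil) .nil))) 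
(.lf (nat_lit 449138) (.g (nat_lit 2432) (.e (nat_lit 299) (nat_lit 22) (.e (nat_lit 344068) (nat_lit 0) (.e (nat_lit 3090) (nat_lit 191) (.e (nat_lit 483372) (nat_lit 21) (.e (nat_lit 319505) (nat_lit 10) (.e (nat_lit 5712) (nat_lit 312) .nil)))))) (.g (nat_lit 1) (.e (nat_lit 10904) (nat_lit 0) .nil) .nil)))) (.nd (nat_lit 9) 
(.lf (nat_lit 448882) (.g (nat_lit 1524) (.e (nat_lit 496) (nat_lit 39) (.e (nat_lit 483410) (nat_lit 27) (.e (nat_lit 409344) (nat_lit 17) (.e (nat_lit 90172) (nat_lit 14) (.e (nat_lit 188160) (nat_lit 32) .nil))))) (.g (nat_lit 1) (.e (nat_lit 10036) (nat_lit 0) .nil) .nil))) 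
(.lf (nat_lit 449394) (.g (nat_lit 2413) (.e (nat_lit 632) (nat_lit 50) (.e (nat_lit 573485) (nat_lit 13) (.e (nat_lit 65604) (nat_lit 9) (.e (nat_lit 336028) (nat_lit 3) (.e (nat_lit 98366) (nat_lit 27) (.e (nat_lit 434275) (nat_lit 39) (.e (nat_lit 663589) (nat_lit 14) (.e (nat_lit 2448) (nat_lit 157) .nil)))))))) (.g (nat_lit 1) (.e (nat_lit 11822) (nat_lit 0) .nil) .nil))))) 
(.nd (nat_lit 8) (.nd (nat_lit 9) 
(.lf (nat_lit 448754) (.g (nat_lit 1001) (.e (nat_lit 7936) (nat_lit 35) (.e (nat_lit 450597) (nat_lit 17) (.e (nat_lit 663580) (nat_lit 9) (.e (nat_lit 7936) (nat_lit 24) .nil)))) (.g (nat_lit 0) (.e (nat_lit 9166) (nat_lit 0) .nil) .nil))) 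
(.lf (nat_lit 449266) (.g (nat_lit 1862) (.e (nat_lit 599) (nat_lit 45) (.e (nat_lit 532535) (nat_lit 9) (.e (nat_lit 336176) (nat_lit 10) .nil))) (.g (nat_lit 0) (.e (nat_lit 11364) (nat_lit 0) .nil) .nil)))) (.nd (nat_lit 9) 
(.lf (nat_lit 449010) (.g (nat_lit 2379) (.e (nat_lit 214) (nat_lit 19) (.e (nat_lit 319490) (nat_lit 0) (.e (nat_lit 5626) (nat_lit 312) (.e (nat_lit 2685) (nat_lit 168) (.e (nat_lit 204869) (nat_lit 29) (.e (nat_lit 360474) (nat_lit 8) (.e (nat_lit 557072) (nat_lit 9) .nil))))))) (.g (nat_lit 1) (.e (nat_lit 10336) (nat_lit 0) .nil) .nil))) 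
(.lf (nat_lit 449522) (.g (nat_lit 1845) (.e (nat_lit 852) (nat_lit 74) (.e (nat_lit 770072) (nat_lit 8) (.e (nat_lit 65586) (nat_lit 7) (.e (nat_lit 319531) (nat_lit 16) (.e (nat_lit 286759) (nat_lit 12) .nil))))) (.g (nat_lit 0) (.e (nat_lit 12580) (nat_lit 0) .nil) .nil))))))))) (.nd (nat_lit 4) (.nd (nat_lit 5) (.nd (nat_lit 6) (.nd (nat_lit 7) (.nd (nat_lit 8) (.nd (nat_lit 9) 
(.lf (nat_lit 448522) (.g (nat_lit 4792) (.e (nat_lit 430) (nat_lit 32) (.e (nat_lit 426344) (nat_lit 14) (.e (nat_lit 491526) (nat_lit 0) (.e (nat_lit 1788) (nat_lit 119) (.e (nat_lit 516166) (nat_lit 12) (.e (nat_lit 450588) (nat_lit 10) (.e (nat_lit 573457) (nat_lit 9) .nil))))))) (.g (nat_lit 1) (.e (nat_lit 6018) (nat_lit 0) .nil) .nil))) 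
(.lf (nat_lit 449034) (.g (nat_lit 3927) (.e (nat_lit 220) (nat_lit 20) (.e (nat_lit 327700) (nat_lit 8) (.e (nat_lit 303118) (nat_lit 3) (.e (nat_lit 204869) (nat_lit 29) (.e (nat_lit 360474) (nat_lit 8) (.e (nat_lit 557072) (nat_lit 9) .nil)))))) (.g (nat_lit 1) (.e (nat_lit 10392) (nat_lit 0) .nil) .nil)))) (.nd (nat_lit 9) 
(.lf (nat_lit 448778) (.g (nat_lit 2722) (.e (nat_lit 492) (nat_lit 39) (.e (nat_lit 483363) (nat_lit 18) (.e (nat_lit 57847) (nat_lit 252) (.e (nat_lit 57368) (nat_lit 1) (.e (nat_lit 57854) (nat_lit 252) (.e (nat_lit 57389) (nat_lit 5) (.e (nat_lit 114723) (nat_lit 24) (.e (nat_lit 106504) (nat_lit 9) .nil)))))))) (.g (nat_lit 1) (.e (nat_lit 9727) (nat_lit 0) .nil) .nil))) 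
(.lf (nat_lit 449290) (.g (nat_lit 1838) (.e (nat_lit 604) (nat_lit 45) (.e (nat_lit 532503) (nat_lit 1) (.e (nat_lit 57931) (nat_lit 282) (.e (nat_lit 163885) (nat_lit 5) (.e (nat_lit 221212) (nat_lit 22) .nil))))) (.g (nat_lit 0) (.e (nat_lit 11411) (nat_lit 0) .nil) .nil))))) (.nd (nat_lit 8) (.nd (nat_lit 9) 
(.lf (nat_lit 448650) (.g (nat_lit 471) (.e (nat_lit 445) (nat_lit 33) (.e (nat_lit 434180) (nat_lit 0) (.e (nat_lit 1427) (nat_lit 108) .nil))) (.g (nat_lit 0) (.e (nat_lit 6733) (nat_lit 0) .nil) .nil))) 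
(.lf (nat_lit 449162) (.g (nat_lit 1972) (.e (nat_lit 300) (nat_lit 22) (.e (nat_lit 344069) (nat_lit 0) (.e (nat_lit 3090) (nat_lit 191) (.e (nat_lit 483350) (nat_lit 17) (.e (nat_lit 6212) (nat_lit 333) .nil))))) (.g (nat_lit 0) (.e (nat_lit 10958) (nat_lit 0) .nil) .nil)))) (.nd (nat_lit 9) 
(.lf (nat_lit 448906) (.g (nat_lit 3140) (.e (nat_lit 498) (nat_lit 40) (.e (nat_lit 491563) (nat_lit 12) (.e (nat_lit 385067) (nat_lit 26) (.e (nat_lit 532513) (nat_lit 3) (.e (nat_lit 122624) (nat_lit 12) (.e (nat_lit 434248) (nat_lit 28) (.e (nat_lit 573452) (nat_lit 9) .nil))))))) (.g (nat_lit 1) (.e (nat_lit 10137) (nat_lit 0) .nil) .nil))) 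
(.lf (nat_lit 449418) (.g (nat_lit 2924) (.e (nat_lit 632) (nat_lit 50) (.e (nat_lit 573489) (nat_lit 14) (.e (nat_lit 73754) (nat_lit 8) (.e (nat_lit 557101) (nat_lit 13) (.e (nat_lit 172066) (nat_lit 3) (.e (nat_lit 212736) (nat_lit 7) (.e (nat_lit 409616) (nat_lit 10) .nil))))))) (.g (nat_lit 1) (.e (nat_lit 11867) (nat_lit 0) .nil) .nil)))))) (.nd (nat_lit 7) (.nd (nat_lit 8) (.nd (nat_lit 9) 
(.lf (nat_lit 448586) (.g (nat_lit 3797) (.e (nat_lit 435) (nat_lit 32) (.e (nat_lit 426316) (nat_lit 12) (.e (nat_lit 475185) (nat_lit 29) (.e (nat_lit 557098) (nat_lit 13) (.e (nat_lit 172115) (nat_lit 10) .nil))))) (.g (nat_lit 0) (.e (nat_lit 6146) (nat_lit 0) .nil) .nil))) 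
(.lf (nat_lit 449098) (.g (nat_lit 3379) (.e (nat_lit 276) (nat_lit 21) (.e (nat_lit 336011) (nat_lit 2) (.e (nat_lit 90170) (nat_lit 13) (.e (nat_lit 172113) (nat_lit 10) (.e (nat_lit 434248) (nat_lit 28) .nil))))) (.g (nat_lit 0) (.e (nat_lit 10592) (nat_lit 0) .nil) .nil)))) (.nd (nat_lit 9) 
(.lf (nat_lit 448842) (.g (nat_lit 952) (.e (nat_lit 496) (nat_lit 39) (.e (nat_lit 483380) (nat_lit 23) (.e (nat_lit 336315) (nat_lit 17) .nil))) (.g (nat_lit 0) (.e (nat_lit 9931) (nat_lit 0) .nil) .nil))) 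
(.lf (nat_lit 449354) (.g (nat_lit 589) (.e (nat_lit 7936) (nat_lit 43) (.e (nat_lit 516151) (nat_lit 9) (.e (nat_lit 426286) (nat_lit 10) .nil))) (.g (nat_lit 0) (.e (nat_lit 11658) (nat_lit 0) .nil) .nil))))) (.nd (nat_lit 8) (.nd (nat_lit 9) 
(.lf (nat_lit 448714) (.g (nat_lit 2652) (.e (nat_lit 457) (nat_lit 34) (.e (nat_lit 442377) (nat_lit 0) (.e (nat_lit 1856) (nat_lit 124) (.e (nat_lit 557101) (nat_lit 13) (.e (nat_lit 172115) (nat_lit 10) (.e (nat_lit 434244) (nat_lit 28) (.e (nat_lit 573450) (nat_lit 9) .nil))))))) (.g (nat_lit 1) (.e (nat_lit 7438) (nat_lit 0) .nil) .nil))) 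
(.lf (nat_lit 449226) (.g (nat_lit 2201) (.e (nat_lit 594) (nat_lit 45) (.e (nat_lit 532549) (nat_lit 12) (.e (nat_lit 360475) (nat_lit 8) (.e (nat_lit 557087) (nat_lit 11) .nil)))) (.g (nat_lit 0) (.e (nat_lit 11223) (nat_lit 0) .nil) .nil)))) (.nd (nat_lit 9) 
(.lf (nat_lit 448970) (.g (nat_lit 2958) (.e (nat_lit 501) (nat_lit 40) (.e (nat_lit 491568) (nat_lit 13) (.e (nat_lit 393301) (nat_lit 27) (.e (nat_lit 491560) (nat_lit 10) (.e (nat_lit 352000) (nat_lit 44) .nil))))) (.g (nat_lit 0) (.e (nat_lit 10270) (nat_lit 0) .nil) .nil))) 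
(.lf (nat_lit 449482) (.g (nat_lit 557) (.e (nat_lit 632) (nat_lit 50) (.e (nat_lit 573491) (nat_lit 15) (.e (nat_lit 81942) (nat_lit 20) .nil))) (.g (nat_lit 0) (.e (nat_lit 12010) (nat_lit 0) .nil) .nil))))))) (.nd (nat_lit 6) (.nd (nat_lit 7) (.nd (nat_lit 8) (.nd (nat_lit 9) 
(.lf (nat_lit 448554) (.g (nat_lit 5708) (.e (nat_lit 433) (nat_lit 32) (.e (nat_lit 426129) (nat_lit 3) (.e (nat_lit 204869) (nat_lit 29) (.e (nat_lit 360475) (nat_lit 8) (.e (nat_lit 557091) (nat_lit 12) (.e (nat_lit 164022) (nat_lit 46) (.e (nat_lit 704629) (nat_lit 9) .nil))))))) (.g (nat_lit 1) (.e (nat_lit 6070) (nat_lit 0) .nil) .nil))) 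
(.lf (nat_lit 449066) (.g (nat_lit 1440) (.e (nat_lit 234) (nat_lit 21) (.e (nat_lit 336456) (nat_lit 34) (.e (nat_lit 483372) (nat_lit 21) .nil))) (.g (nat_lit 0) (.e (nat_lit 10475) (nat_lit 0) .nil) .nil)))) (.nd (nat_lit 9) 
(.lf (nat_lit 448810) (.g (nat_lit 2823) (.e (nat_lit 496) (nat_lit 39) (.e (nat_lit 483363) (nat_lit 18) (.e (nat_lit 57854) (nat_lit 252) (.e (nat_lit 57378) (nat_lit 3) (.e (nat_lit 98309) (nat_lit 0) (.e (nat_lit 6112) (nat_lit 332) (.e (nat_lit 2507) (nat_lit 157) (.e (nat_lit 5259) (nat_lit 298) .nil)))))))) (.g (nat_lit 1) (.e (nat_lit 9870) (nat_lit 0) .nil) .nil))) 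
(.lf (nat_lit 449322) (.g (nat_lit 3444) (.e (nat_lit 575) (nat_lit 43) (.e (nat_lit 516151) (nat_lit 9) (.e (nat_lit 426286) (nat_lit 10) (.e (nat_lit 434245) (nat_lit 28) .nil)))) (.g (nat_lit 0) (.e (nat_lit 11498) (nat_lit 0) .nil) .nil))))) (.nd (nat_lit 8) (.nd (nat_lit 9) 
(.lf (nat_lit 448682) (.g (nat_lit 2234) (.e (nat_lit 452) (nat_lit 33) (.e (nat_lit 434231) (nat_lit 23) (.e (nat_lit 532550) (nat_lit 12) (.e (nat_lit 360473) (nat_lit 8) (.e (nat_lit 557091) (nat_lit 12) .nil))))) (.g (nat_lit 0) (.e (nat_lit 7000) (nat_lit 0) .nil) .nil))) 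
(.lf (nat_lit 449194) (.g (nat_lit 1865) (.e (nat_lit 347) (nat_lit 28) (.e (nat_lit 393253) (nat_lit 18) (.e (nat_lit 164325) (nat_lit 230) (.e (nat_lit 163864) (nat_lit 1) (.e (nat_lit 164332) (nat_lit 230) .nil))))) (.g (nat_lit 0) (.e (nat_lit 11128) (nat_lit 0) .nil) .nil)))) (.nd (nat_lit 9) 
(.lf (nat_lit 448938) (.g (nat_lit 3654) (.e (nat_lit 499) (nat_lit 40) (.e (nat_lit 491563) (nat_lit 12) (.e (nat_lit 385074) (nat_lit 31) (.e (nat_lit 573484) (nat_lit 13) .nil)))) (.g (nat_lit 0) (.e (nat_lit 10205) (nat_lit 0) .nil) .nil))) 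
(.lf (nat_lit 449450) (.g (nat_lit 3400) (.e (nat_lit 632) (nat_lit 50) (.e (nat_lit 573489) (nat_lit 14) (.e (nat_lit 73755) (nat_lit 8) (.e (nat_lit 557103) (nat_lit 14) (.e (nat_lit 180244) (nat_lit 5) (.e (nat_lit 540416) (nat_lit 24) (.e (nat_lit 409612) (nat_lit 10) .nil))))))) (.g (nat_lit 1) (.e (nat_lit 11925) (nat_lit 0) .nil) .nil)))))) 
(.nd (nat_lit 7) (.nd (nat_lit 8) (.nd (nat_lit 9) 
(.lf (nat_lit 448618) (.g (nat_lit 5819) (.e (nat_lit 442) (nat_lit 33) (.e (nat_lit 434181) (nat_lit 0) (.e (nat_lit 1253) (nat_lit 92) (.e (nat_lit 98373) (nat_lit 29) (.e (nat_lit 450588) (nat_lit 10) (.e (nat_lit 573448) (nat_lit 9) .nil)))))) (.g (nat_lit 1) (.e (nat_lit 6267) (nat_lit 0) .nil) .nil))) 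
(.lf (nat_lit 449130) (.g (nat_lit 2299) (.e (nat_lit 296) (nat_lit 22) (.e (nat_lit 344069) (nat_lit 0) (.e (nat_lit 3090) (nat_lit 191) (.e (nat_lit 483372) (nat_lit 21) (.e (nat_lit 319504) (nat_lit 10) (.e (nat_lit 7936) (nat_lit 312) .nil)))))) (.g (nat_lit 1) (.e (nat_lit 10890) (nat_lit 0) .nil) .nil)))) (.nd (nat_lit 9) 
(.lf (nat_lit 448874) (.g (nat_lit 1675) (.e (nat_lit 496) (nat_lit 39) (.e (nat_lit 483405) (nat_lit 26) (.e (nat_lit 385057) (nat_lit 22) (.e (nat_lit 499780) (nat_lit 1) (.e (nat_lit 57810) (nat_lit 246) (.e (nat_lit 57879) (nat_lit 270) .nil)))))) (.g (nat_lit 1) (.e (nat_lit 10023) (nat_lit 0) .nil) .nil))) 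
(.lf (nat_lit 449386) (.g (nat_lit 2847) (.e (nat_lit 632) (nat_lit 50) (.e (nat_lit 573482) (nat_lit 13) (.e (nat_lit 65619) (nat_lit 10) (.e (nat_lit 344117) (nat_lit 21) (.e (nat_lit 516160) (nat_lit 10) (.e (nat_lit 434275) (nat_lit 39) (.e (nat_lit 663589) (nat_lit 14) (.e (nat_lit 2427) (nat_lit 157) .nil)))))))) (.g (nat_lit 1) (.e (nat_lit 11780) (nat_lit 0) .nil) .nil))))) 
(.nd (nat_lit 8) (.nd (nat_lit 9) 
(.lf (nat_lit 448746) (.g (nat_lit 1580) (.e (nat_lit 7936) (nat_lit 34) (.e (nat_lit 442421) (nat_lit 21) (.e (nat_lit 164319) (nat_lit 228) (.e (nat_lit 57427) (nat_lit 15) (.e (nat_lit 360483) (nat_lit 15) .nil))))) (.g (nat_lit 0) (.e (nat_lit 8038) (nat_lit 0) .nil) .nil))) 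
(.lf (nat_lit 449258) (.g (nat_lit 919) (.e (nat_lit 596) (nat_lit 45) (.e (nat_lit 532535) (nat_lit 9) (.e (nat_lit 336020) (nat_lit 3) .nil))) (.g (nat_lit 0) (.e (nat_lit 11303) (nat_lit 0) .nil) .nil)))) (.nd (nat_lit 9) 
(.lf (nat_lit 449002) (.g (nat_lit 3286) (.e (nat_lit 503) (nat_lit 40) (.e (nat_lit 491569) (nat_lit 13) (.e (nat_lit 393301) (nat_lit 27) (.e (nat_lit 491560) (nat_lit 10) (.e (nat_lit 344178) (nat_lit 44) .nil))))) (.g (nat_lit 0) (.e (nat_lit 10319) (nat_lit 0) .nil) .nil))) 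
(.lf (nat_lit 449514) (.g (nat_lit 2461) (.e (nat_lit 850) (nat_lit 74) (.e (nat_lit 770072) (nat_lit 8) (.e (nat_lit 65586) (nat_lit 7) (.e (nat_lit 319531) (nat_lit 16) (.e (nat_lit 286759) (nat_lit 12) (.e (nat_lit 385115) (nat_lit 53) (.e (nat_lit 811031) (nat_lit 11) .nil))))))) (.g (nat_lit 1) (.e (nat_lit 12572) (nat_lit 0) .nil) .nil)))))))) 
(.nd (nat_lit 5) (.nd (nat_lit 6) (.nd (nat_lit 7) (.nd (nat_lit 8) (.nd (nat_lit 9) 
(.lf (nat_lit 448538) (.g (nat_lit 1537) (.e (nat_lit 430) (nat_lit 32) (.e (nat_lit 426344) (nat_lit 14) (.e (nat_lit 491568) (nat_lit 13) (.e (nat_lit 393260) (nat_lit 21) (.e (nat_lit 409616) (nat_lit 10) (.e (nat_lit 7936) (nat_lit 298) .nil)))))) (.g (nat_lit 1) (.e (nat_lit 6034) (nat_lit 0) .nil) .nil))) 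
(.lf (nat_lit 449050) (.g (nat_lit 4476) (.e (nat_lit 227) (nat_lit 21) (.e (nat_lit 336019) (nat_lit 3) (.e (nat_lit 98373) (nat_lit 29) (.e (nat_lit 450587) (nat_lit 10) (.e (nat_lit 573478) (nat_lit 12) .nil))))) (.g (nat_lit 0) (.e (nat_lit 10420) (nat_lit 0) .nil) .nil)))) (.nd (nat_lit 9) 
(.lf (nat_lit 448794) (.g (nat_lit 2294) (.e (nat_lit 492) (nat_lit 39) (.e (nat_lit 483372) (nat_lit 21) (.e (nat_lit 319504) (nat_lit 10) (.e (nat_lit 618) (nat_lit 48) (.e (nat_lit 557103) (nat_lit 14) .nil))))) (.g (nat_lit 0) (.e (nat_lit 9747) (nat_lit 0) .nil) .nil))) 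
(.lf (nat_lit 449306) (.g (nat_lit 529) (.e (nat_lit 7936) (nat_lit 45) (.e (nat_lit 532544) (nat_lit 10) (.e (nat_lit 344080) (nat_lit 13) .nil))) (.g (nat_lit 0) (.e (nat_lit 11468) (nat_lit 0) .nil) .nil))))) (.nd (nat_lit 8) (.nd (nat_lit 9) 
(.lf (nat_lit 448666) (.g (nat_lit 4121) (.e (nat_lit 452) (nat_lit 33) (.e (nat_lit 434231) (nat_lit 23) (.e (nat_lit 532549) (nat_lit 12) (.e (nat_lit 360473) (nat_lit 8) (.e (nat_lit 557093) (nat_lit 12) (.e (nat_lit 164022) (nat_lit 46) (.e (nat_lit 704628) (nat_lit 9) .nil))))))) (.g (nat_lit 1) (.e (nat_lit 6984) (nat_lit 0) .nil) .nil))) 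
(.lf (nat_lit 449178) (.g (nat_lit 1926) (.e (nat_lit 300) (nat_lit 22) (.e (nat_lit 344069) (nat_lit 0) (.e (nat_lit 3090) (nat_lit 191) (.e (nat_lit 483372) (nat_lit 21) (.e (nat_lit 319510) (nat_lit 10) .nil))))) (.g (nat_lit 0) (.e (nat_lit 10974) (nat_lit 0) .nil) .nil)))) (.nd (nat_lit 9) 
(.lf (nat_lit 448922) (.g (nat_lit 932) (.e (nat_lit 498) (nat_lit 40) (.e (nat_lit 491569) (nat_lit 13) (.e (nat_lit 393301) (nat_lit 27) .nil))) (.g (nat_lit 0) (.e (nat_lit 10175) (nat_lit 0) .nil) .nil))) 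
(.lf (nat_lit 449434) (.g (nat_lit 2636) (.e (nat_lit 632) (nat_lit 50) (.e (nat_lit 573489) (nat_lit 14) (.e (nat_lit 73755) (nat_lit 8) (.e (nat_lit 557097) (nat_lit 13) (.e (nat_lit 172067) (nat_lit 3) (.e (nat_lit 212736) (nat_lit 7) (.e (nat_lit 409611) (nat_lit 10) .nil))))))) (.g (nat_lit 1) (.e (nat_lit 11895) (nat_lit 0) .nil) .nil)))))) (.nd (nat_lit 7) (.nd (nat_lit 8) (.nd (nat_lit 9) 
(.lf (nat_lit 448602) (.g (nat_lit 2254) (.e (nat_lit 7936) (nat_lit 32) (.e (nat_lit 426347) (nat_lit 14) (.e (nat_lit 491570) (nat_lit 13) (.e (nat_lit 393260) (nat_lit 21) (.e (nat_lit 409623) (nat_lit 10) .nil))))) (.g (nat_lit 0) (.e (nat_lit 6207) (nat_lit 0) .nil) .nil))) 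
(.lf (nat_lit 449114) (.g (nat_lit 2974) (.e (nat_lit 288) (nat_lit 21) (.e (nat_lit 335876) (nat_lit 0) (.e (nat_lit 6711) (nat_lit 360) (.e (nat_lit 163962) (nat_lit 25) (.e (nat_lit 532550) (nat_lit 12) (.e (nat_lit 360475) (nat_lit 8) (.e (nat_lit 557068) (nat_lit 9) .nil))))))) (.g (nat_lit 1) (.e (nat_lit 10767) (nat_lit 0) .nil) .nil)))) (.nd (nat_lit 9) 
(.lf (nat_lit 448858) (.g (nat_lit 1803) (.e (nat_lit 496) (nat_lit 39) (.e (nat_lit 483382) (nat_lit 23) (.e (nat_lit 336320) (nat_lit 17) (.e (nat_lit 196698) (nat_lit 19) (.e (nat_lit 57810) (nat_lit 246) (.e (nat_lit 57879) (nat_lit 270) .nil)))))) (.g (nat_lit 1) (.e (nat_lit 9949) (nat_lit 0) .nil) .nil))) 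
(.lf (nat_lit 449370) (.g (nat_lit 464) (.e (nat_lit 632) (nat_lit 50) (.e (nat_lit 573482) (nat_lit 13) (.e (nat_lit 65619) (nat_lit 10) .nil))) (.g (nat_lit 0) (.e (nat_lit 11763) (nat_lit 0) .nil) .nil))))) (.nd (nat_lit 8) (.nd (nat_lit 9) 
(.lf (nat_lit 448730) (.g (nat_lit 2720) (.e (nat_lit 461) (nat_lit 34) (.e (nat_lit 442409) (nat_lit 20) (.e (nat_lit 3579) (nat_lit 223) (.e (nat_lit 745491) (nat_lit 4) (.e (nat_lit 65598) (nat_lit 9) (.e (nat_lit 336013) (nat_lit 2) (.e (nat_lit 98048) (nat_lit 0) .nil))))))) (.g (nat_lit 1) (.e (nat_lit 7741) (nat_lit 0) .nil) .nil))) 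
(.lf (nat_lit 449242) (.g (nat_lit 3495) (.e (nat_lit 595) (nat_lit 45) (.e (nat_lit 532549) (nat_lit 12) (.e (nat_lit 360475) (nat_lit 8) (.e (nat_lit 557087) (nat_lit 11) (.e (nat_lit 24617) (nat_lit 7) .nil))))) (.g (nat_lit 0) (.e (nat_lit 11264) (nat_lit 0) .nil) .nil)))) (.nd (nat_lit 9) 
(.lf (nat_lit 448986) (.g (nat_lit 3035) (.e (nat_lit 502) (nat_lit 40) (.e (nat_lit 491569) (nat_lit 13) (.e (nat_lit 393301) (nat_lit 27) (.e (nat_lit 491558) (nat_lit 10) (.e (nat_lit 352000) (nat_lit 44) .nil))))) (.g (nat_lit 0) (.e (nat_lit 10298) (nat_lit 0) .nil) .nil))) 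
(.lf (nat_lit 449498) (.g (nat_lit 1781) (.e (nat_lit 618) (nat_lit 48) (.e (nat_lit 557098) (nat_lit 13) (.e (nat_lit 172115) (nat_lit 10) (.e (nat_lit 434295) (nat_lit 49) (.e (nat_lit 745491) (nat_lit 4) .nil))))) (.g (nat_lit 0) (.e (nat_lit 12278) (nat_lit 0) .nil) .nil))))))) (.nd (nat_lit 6) (.nd (nat_lit 7) (.nd (nat_lit 8) (.nd (nat_lit 9) 
(.lf (nat_lit 448570) (.g (nat_lit 4294) (.e (nat_lit 435) (nat_lit 32) (.e (nat_lit 426123) (nat_lit 2) (.e (nat_lit 196666) (nat_lit 13) (.e (nat_lit 65617) (nat_lit 10) (.e (nat_lit 344130) (nat_lit 26) (.e (nat_lit 557090) (nat_lit 12) (.e (nat_lit 164022) (nat_lit 46) (.e (nat_lit 704627) (nat_lit 9) .nil)))))))) (.g (nat_lit 1) (.e (nat_lit 6115) (nat_lit 0) .nil) .nil))) 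
(.lf (nat_lit 449082) (.g (nat_lit 1682) (.e (nat_lit 256) (nat_lit 21) (.e (nat_lit 336228) (nat_lit 14) (.e (nat_lit 401437) (nat_lit 9) (.e (nat_lit 426533) (nat_lit 28) (.e (nat_lit 344085) (nat_lit 15) .nil))))) (.g (nat_lit 0) (.e (nat_lit 10571) (nat_lit 0) .nil) .nil)))) (.nd (nat_lit 9) 
(.lf (nat_lit 448826) (.g (nat_lit 1607) (.e (nat_lit 496) (nat_lit 39) (.e (nat_lit 483372) (nat_lit 21) (.e (nat_lit 319503) (nat_lit 10) (.e (nat_lit 618) (nat_lit 48) (.e (nat_lit 557105) (nat_lit 14) (.e (nat_lit 188160) (nat_lit 32) .nil)))))) (.g (nat_lit 1) (.e (nat_lit 9914) (nat_lit 0) .nil) .nil))) 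
(.lf (nat_lit 449338) (.g (nat_lit 1186) (.e (nat_lit 579) (nat_lit 43) (.e (nat_lit 516166) (nat_lit 12) (.e (nat_lit 450588) (nat_lit 10) .nil))) (.g (nat_lit 0) (.e (nat_lit 11537) (nat_lit 0) .nil) .nil))))) (.nd (nat_lit 8) (.nd (nat_lit 9) 
(.lf (nat_lit 448698) (.g (nat_lit 2446) (.e (nat_lit 455) (nat_lit 34) (.e (nat_lit 442374) (nat_lit 0) (.e (nat_lit 1856) (nat_lit 124) (.e (nat_lit 557100) (nat_lit 13) (.e (nat_lit 172113) (nat_lit 10) .nil))))) (.g (nat_lit 0) (.e (nat_lit 7285) (nat_lit 0) .nil) .nil))) 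
(.lf (nat_lit 449210) (.g (nat_lit 1324) (.e (nat_lit 511) (nat_lit 41) (.e (nat_lit 499923) (nat_lit 10) (.e (nat_lit 188160) (nat_lit 32) (.e (nat_lit 1256) (nat_lit 92) (.e (nat_lit 98359) (nat_lit 26) (.e (nat_lit 426171) (nat_lit 7) (.e (nat_lit 417536) (nat_lit 10) .nil))))))) (.g (nat_lit 1) (.e (nat_lit 11176) (nat_lit 0) .nil) .nil)))) (.nd (nat_lit 9) 
(.lf (nat_lit 448954) (.g (nat_lit 1016) (.e (nat_lit 500) (nat_lit 40) (.e (nat_lit 491566) (nat_lit 12) (.e (nat_lit 385104) (nat_lit 50) .nil))) (.g (nat_lit 0) (.e (nat_lit 10237) (nat_lit 0) .nil) .nil))) 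
(.lf (nat_lit 449466) (.g (nat_lit 2188) (.e (nat_lit 632) (nat_lit 50) (.e (nat_lit 573489) (nat_lit 14) (.e (nat_lit 73755) (nat_lit 8) (.e (nat_lit 557105) (nat_lit 14) (.e (nat_lit 180251) (nat_lit 10) (.e (nat_lit 581376) (nat_lit 0) (.e (nat_lit 2830) (nat_lit 182) (.e (nat_lit 409617) (nat_lit 10) .nil)))))))) (.g (nat_lit 1) (.e (nat_lit 11972) (nat_lit 0) .nil) .nil)))))) 
(.nd (nat_lit 7) (.nd (nat_lit 8) (.nd (nat_lit 9) 
(.lf (nat_lit 448634) (.g (nat_lit 1993) (.e (nat_lit 446) (nat_lit 33) (.e (nat_lit 434181) (nat_lit 0) (.e (nat_lit 1427) (nat_lit 108) (.e (nat_lit 336438) (nat_lit 31) (.e (nat_lit 458769) (nat_lit 16) (.e (nat_lit 164337) (nat_lit 232) .nil)))))) (.g (nat_lit 1) (.e (nat_lit 6631) (nat_lit 0) .nil) .nil))) 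
(.lf (nat_lit 449146) (.g (nat_lit 2857) (.e (nat_lit 300) (nat_lit 22) (.e (nat_lit 344068) (nat_lit 0) (.e (nat_lit 3090) (nat_lit 191) (.e (nat_lit 483350) (nat_lit 17) (.e (nat_lit 6218) (nat_lit 333) (.e (nat_lit 57863) (nat_lit 256) .nil)))))) (.g (nat_lit 1) (.e (nat_lit 10926) (nat_lit 0) .nil) .nil)))) (.nd (nat_lit 9) 
(.lf (nat_lit 448890) (.g (nat_lit 2925) (.e (nat_lit 497) (nat_lit 39) (.e (nat_lit 483365) (nat_lit 18) (.e (nat_lit 57847) (nat_lit 252) (.e (nat_lit 57368) (nat_lit 1) (.e (nat_lit 57854) (nat_lit 252) (.e (nat_lit 57389) (nat_lit 5) (.e (nat_lit 114723) (nat_lit 24) (.e (nat_lit 106504) (nat_lit 9) .nil)))))))) (.g (nat_lit 1) (.e (nat_lit 10053) (nat_lit 0) .nil) .nil))) 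
(.lf (nat_lit 449402) (.g (nat_lit 2876) (.e (nat_lit 632) (nat_lit 50) (.e (nat_lit 573485) (nat_lit 13) (.e (nat_lit 65619) (nat_lit 10) (.e (nat_lit 344090) (nat_lit 18) (.e (nat_lit 7710) (nat_lit 414) (.e (nat_lit 163908) (nat_lit 12) (.e (nat_lit 426171) (nat_lit 7) (.e (nat_lit 409612) (nat_lit 10) .nil)))))))) (.g (nat_lit 1) (.e (nat_lit 11833) (nat_lit 0) .nil) .nil))))) 
(.nd (nat_lit 8) (.nd (nat_lit 9) 
(.lf (nat_lit 448762) (.g (nat_lit 3141) (.e (nat_lit 484) (nat_lit 38) (.e (nat_lit 475185) (nat_lit 29) (.e (nat_lit 557100) (nat_lit 13) (.e (nat_lit 172113) (nat_lit 10) .nil)))) (.g (nat_lit 0) (.e (nat_lit 9632) (nat_lit 0) .nil) .nil))) 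
(.lf (nat_lit 449274) (.g (nat_lit 3571) (.e (nat_lit 604) (nat_lit 45) (.e (nat_lit 532499) (nat_lit 1) (.e (nat_lit 57926) (nat_lit 282) (.e (nat_lit 163886) (nat_lit 5) (.e (nat_lit 221212) (nat_lit 22) (.e (nat_lit 196656) (nat_lit 11) (.e (nat_lit 16425) (nat_lit 7) (.e (nat_lit 409616) (nat_lit 10) .nil)))))))) (.g (nat_lit 1) (.e (nat_lit 11379) (nat_lit 0) .nil) .nil)))) (.nd (nat_lit 9) 
(.lf (nat_lit 449018) (.g (nat_lit 2601) (.e (nat_lit 216) (nat_lit 19) (.e (nat_lit 319490) (nat_lit 0) (.e (nat_lit 5664) (nat_lit 312) (.e (nat_lit 3085) (nat_lit 191) (.e (nat_lit 483377) (nat_lit 22) (.e (nat_lit 327709) (nat_lit 10) (.e (nat_lit 5632) (nat_lit 312) .nil))))))) (.g (nat_lit 1) (.e (nat_lit 10357) (nat_lit 0) .nil) .nil))) 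
(.lf (nat_lit 449530) (.g (nat_lit 1792) (.e (nat_lit 879) (nat_lit 75) (.e (nat_lit 778466) (nat_lit 11) (.e (nat_lit 24616) (nat_lit 7) (.e (nat_lit 319530) (nat_lit 16) (.e (nat_lit 286759) (nat_lit 12) .nil))))) (.g (nat_lit 0) (.e (nat_lit 12604) (nat_lit 0) .nil) .nil)))))))))) 
(.nd (nat_lit 3) (.nd (nat_lit 4) (.nd (nat_lit 5) (.nd (nat_lit 6) (.nd (nat_lit 7) 
(.nd (nat_lit 8) (.nd (nat_lit 9) 
(.lf (nat_lit 448518) (.g (nat_lit 4397) (.e (nat_lit 430) (nat_lit 32) (.e (nat_lit 426343) (nat_lit 14) (.e (nat_lit 491570) (nat_lit 13) (.e (nat_lit 393260) (nat_lit 21) (.e (nat_lit 409616) (nat_lit 10) (.e (nat_lit 7936) (nat_lit 298) .nil)))))) (.g (nat_lit 1) (.e (nat_lit 6014) (nat_lit 0) .nil) .nil))) 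
(.lf (nat_lit 449030) (.g (nat_lit 6010) (.e (nat_lit 220) (nat_lit 20) (.e (nat_lit 327699) (nat_lit 8) (.e (nat_lit 303119) (nat_lit 3) (.e (nat_lit 204869) (nat_lit 29) (.e (nat_lit 360474) (nat_lit 8) (.e (nat_lit 557072) (nat_lit 9) .nil)))))) (.g (nat_lit 1) (.e (nat_lit 10388) (nat_lit 0) .nil) .nil)))) (.nd (nat_lit 9) 
(.lf (nat_lit 448774) (.g (nat_lit 831) (.e (nat_lit 492) (nat_lit 39) (.e (nat_lit 483363) (nat_lit 18) (.e (nat_lit 57847) (nat_lit 252) .nil))) (.g (nat_lit 0) (.e (nat_lit 9723) (nat_lit 0) .nil) .nil))) 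
(.lf (nat_lit 449286) (.g (nat_lit 2201) (.e (nat_lit 604) (nat_lit 45) (.e (nat_lit 532501) (nat_lit 1) (.e (nat_lit 57931) (nat_lit 282) (.e (nat_lit 163885) (nat_lit 5) (.e (nat_lit 221210) (nat_lit 22) .nil))))) (.g (nat_lit 0) (.e (nat_lit 11404) (nat_lit 0) .nil) .nil))))) (.nd (nat_lit 8) (.nd (nat_lit 9) 
(.lf (nat_lit 448646) (.g (nat_lit 2289) (.e (nat_lit 447) (nat_lit 33) (.e (nat_lit 434181) (nat_lit 0) (.e (nat_lit 1427) (nat_lit 108) (.e (nat_lit 336421) (nat_lit 28) (.e (nat_lit 434198) (nat_lit 17) (.e (nat_lit 229647) (nat_lit 232) .nil)))))) (.g (nat_lit 1) (.e (nat_lit 6683) (nat_lit 0) .nil) .nil))) 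
(.lf (nat_lit 449158) (.g (nat_lit 1806) (.e (nat_lit 300) (nat_lit 22) (.e (nat_lit 344068) (nat_lit 0) (.e (nat_lit 3090) (nat_lit 191) (.e (nat_lit 483372) (nat_lit 21) (.e (nat_lit 319510) (nat_lit 10) (.e (nat_lit 5723) (nat_lit 312) .nil)))))) (.g (nat_lit 1) (.e (nat_lit 10938) (nat_lit 0) .nil) .nil)))) (.nd (nat_lit 9) 
(.lf (nat_lit 448902) (.g (nat_lit 1342) (.e (nat_lit 498) (nat_lit 40) (.e (nat_lit 491549) (nat_lit 9) (.e (nat_lit 336325) (nat_lit 18) (.e (nat_lit 204838) (nat_lit 20) .nil)))) (.g (nat_lit 0) (.e (nat_lit 10131) (nat_lit 0) .nil) .nil))) 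
(.lf (nat_lit 449414) (.g (nat_lit 1032) (.e (nat_lit 632) (nat_lit 50) (.e (nat_lit 573489) (nat_lit 14) (.e (nat_lit 73754) (nat_lit 8) (.e (nat_lit 557101) (nat_lit 13) .nil)))) (.g (nat_lit 0) (.e (nat_lit 11861) (nat_lit 0) .nil) .nil)))))) (.nd (nat_lit 7) (.nd (nat_lit 8) (.nd (nat_lit 9) 
(.lf (nat_lit 448582) (.g (nat_lit 3944) (.e (nat_lit 435) (nat_lit 32) (.e (nat_lit 426139) (nat_lit 3) (.e (nat_lit 204869) (nat_lit 29) (.e (nat_lit 360474) (nat_lit 8) (.e (nat_lit 557093) (nat_lit 12) (.e (nat_lit 164022) (nat_lit 46) (.e (nat_lit 704627) (nat_lit 9) .nil))))))) (.g (nat_lit 1) (.e (nat_lit 6142) (nat_lit 0) .nil) .nil))) 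
(.lf (nat_lit 449094) (.g (nat_lit 3319) (.e (nat_lit 270) (nat_lit 21) (.e (nat_lit 336027) (nat_lit 3) (.e (nat_lit 98373) (nat_lit 29) (.e (nat_lit 450588) (nat_lit 10) (.e (nat_lit 573475) (nat_lit 12) .nil))))) (.g (nat_lit 0) (.e (nat_lit 10585) (nat_lit 0) .nil) .nil)))) (.nd (nat_lit 9) 
(.lf (nat_lit 448838) (.g (nat_lit 1870) (.e (nat_lit 496) (nat_lit 39) (.e (nat_lit 483379) (nat_lit 23) (.e (nat_lit 336320) (nat_lit 17) (.e (nat_lit 196698) (nat_lit 19) (.e (nat_lit 57811) (nat_lit 246) (.e (nat_lit 57879) (nat_lit 270) .nil)))))) (.g (nat_lit 1) (.e (nat_lit 9927) (nat_lit 0) .nil) .nil))) 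
(.lf (nat_lit 449350) (.g (nat_lit 5262) (.e (nat_lit 584) (nat_lit 43) (.e (nat_lit 516166) (nat_lit 12) (.e (nat_lit 450588) (nat_lit 10) (.e (nat_lit 573471) (nat_lit 11) .nil)))) (.g (nat_lit 0) (.e (nat_lit 11647) (nat_lit 0) .nil) .nil))))) (.nd (nat_lit 8) (.nd (nat_lit 9) 
(.lf (nat_lit 448710) (.g (nat_lit 3621) (.e (nat_lit 457) (nat_lit 34) (.e (nat_lit 442374) (nat_lit 0) (.e (nat_lit 1856) (nat_lit 124) (.e (nat_lit 557100) (nat_lit 13) (.e (nat_lit 172113) (nat_lit 10) (.e (nat_lit 434245) (nat_lit 28) (.e (nat_lit 573449) (nat_lit 9) .nil))))))) (.g (nat_lit 1) (.e (nat_lit 7434) (nat_lit 0) .nil) .nil))) 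
(.lf (nat_lit 449222) (.g (nat_lit 4764) (.e (nat_lit 592) (nat_lit 45) (.e (nat_lit 532550) (nat_lit 12) (.e (nat_lit 360475) (nat_lit 8) (.e (nat_lit 557085) (nat_lit 11) .nil)))) (.g (nat_lit 0) (.e (nat_lit 11217) (nat_lit 0) .nil) .nil)))) (.nd (nat_lit 9) 
(.lf (nat_lit 448966) (.g (nat_lit 1196) (.e (nat_lit 501) (nat_lit 40) (.e (nat_lit 491566) (nat_lit 12) (.e (nat_lit 385074) (nat_lit 31) .nil))) (.g (nat_lit 0) (.e (nat_lit 10262) (nat_lit 0) .nil) .nil))) 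
(.lf (nat_lit 449478) (.g (nat_lit 2689) (.e (nat_lit 632) (nat_lit 50) (.e (nat_lit 573489) (nat_lit 14) (.e (nat_lit 73755) (nat_lit 8) (.e (nat_lit 557105) (nat_lit 14) (.e (nat_lit 180252) (nat_lit 10) (.e (nat_lit 581376) (nat_lit 0) (.e (nat_lit 2829) (nat_lit 182) (.e (nat_lit 409615) (nat_lit 10) .nil)))))))) (.g (nat_lit 1) (.e (nat_lit 11984) (nat_lit 0) .nil) .nil))))))) 
(.nd (nat_lit 6) (.nd (nat_lit 7) (.nd (nat_lit 8) (.nd (nat_lit 9) 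
(.lf (nat_lit 448550) (.g (nat_lit 1805) (.e (nat_lit 433) (nat_lit 32) (.e (nat_lit 426129) (nat_lit 3) (.e (nat_lit 204868) (nat_lit 29) (.e (nat_lit 360473) (nat_lit 8) (.e (nat_lit 557094) (nat_lit 12) (.e (nat_lit 164022) (nat_lit 46) (.e (nat_lit 704628) (nat_lit 9) .nil))))))) (.g (nat_lit 1) (.e (nat_lit 6066) (nat_lit 0) .nil) .nil))) 
(.lf (nat_lit 449062) (.g (nat_lit 4536) (.e (nat_lit 234) (nat_lit 21) (.e (nat_lit 336019) (nat_lit 3) (.e (nat_lit 98373) (nat_lit 29) (.e (nat_lit 450587) (nat_lit 10) (.e (nat_lit 573478) (nat_lit 12) .nil))))) (.g (nat_lit 0) (.e (nat_lit 10470) (nat_lit 0) .nil) .nil)))) (.nd (nat_lit 9) 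
(.lf (nat_lit 448806) (.g (nat_lit 2839) (.e (nat_lit 496) (nat_lit 39) (.e (nat_lit 483363) (nat_lit 18) (.e (nat_lit 57847) (nat_lit 252) (.e (nat_lit 57379) (nat_lit 3) (.e (nat_lit 98309) (nat_lit 0) (.e (nat_lit 6112) (nat_lit 332) (.e (nat_lit 2507) (nat_lit 157) (.e (nat_lit 5259) (nat_lit 298) .nil)))))))) (.g (nat_lit 1) (.e (nat_lit 9861) (nat_lit 0) .nil) .nil))) 
(.lf (nat_lit 449318) (.g (nat_lit 4201) (.e (nat_lit 606) (nat_lit 46) (.e (nat_lit 540706) (nat_lit 12) (.e (nat_lit 360475) (nat_lit 8) (.e (nat_lit 557087) (nat_lit 11) (.e (nat_lit 24617) (nat_lit 7) (.e (nat_lit 319504) (nat_lit 10) .nil)))))) (.g (nat_lit 1) (.e (nat_lit 11491) (nat_lit 0) .nil) .nil))))) (.nd (nat_lit 8) (.nd (nat_lit 9) 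
(.lf (nat_lit 448678) (.g (nat_lit 3104) (.e (nat_lit 452) (nat_lit 33) (.e (nat_lit 434231) (nat_lit 23) (.e (nat_lit 532549) (nat_lit 12) (.e (nat_lit 360474) (nat_lit 8) (.e (nat_lit 557094) (nat_lit 12) (.e (nat_lit 164022) (nat_lit 46) (.e (nat_lit 704628) (nat_lit 9) .nil))))))) (.g (nat_lit 1) (.e (nat_lit 6996) (nat_lit 0) .nil) .nil))) 
(.lf (nat_lit 449190) (.g (nat_lit 2075) (.e (nat_lit 7936) (nat_lit 22) (.e (nat_lit 344068) (nat_lit 0) (.e (nat_lit 3090) (nat_lit 191) (.e (nat_lit 483372) (nat_lit 21) (.e (nat_lit 319513) (nat_lit 10) .nil))))) (.g (nat_lit 0) (.e (nat_lit 11053) (nat_lit 0) .nil) .nil)))) (.nd (nat_lit 9) 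
(.lf (nat_lit 448934) (.g (nat_lit 1248) (.e (nat_lit 498) (nat_lit 40) (.e (nat_lit 491570) (nat_lit 13) (.e (nat_lit 393260) (nat_lit 21) (.e (nat_lit 409648) (nat_lit 18) .nil)))) (.g (nat_lit 0) (.e (nat_lit 10189) (nat_lit 0) .nil) .nil))) 
(.lf (nat_lit 449446) (.g (nat_lit 1427) (.e (nat_lit 632) (nat_lit 50) (.e (nat_lit 573489) (nat_lit 14) (.e (nat_lit 73755) (nat_lit 8) (.e (nat_lit 557103) (nat_lit 14) .nil)))) (.g (nat_lit 0) (.e (nat_lit 11915) (nat_lit 0) .nil) .nil)))))) (.nd (nat_lit 7) (.nd (nat_lit 8) (.nd (nat_lit 9) 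
(.lf (nat_lit 448614) (.g (nat_lit 3476) (.e (nat_lit 442) (nat_lit 33) (.e (nat_lit 434181) (nat_lit 0) (.e (nat_lit 1235) (nat_lit 91) (.e (nat_lit 90170) (nat_lit 13) (.e (nat_lit 172113) (nat_lit 10) (.e (nat_lit 434248) (nat_lit 28) (.e (nat_lit 573450) (nat_lit 9) .nil))))))) (.g (nat_lit 1) (.e (nat_lit 6263) (nat_lit 0) .nil) .nil))) 
(.lf (nat_lit 449126) (.g (nat_lit 2184) (.e (nat_lit 7936) (nat_lit 21) (.e (nat_lit 336204) (nat_lit 12) (.e (nat_lit 385074) (nat_lit 31) (.e (nat_lit 573491) (nat_lit 15) (.e (nat_lit 81946) (nat_lit 20) .nil))))) (.g (nat_lit 0) (.e (nat_lit 10884) (nat_lit 0) .nil) .nil)))) (.nd (nat_lit 9) 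
(.lf (nat_lit 448870) (.g (nat_lit 437) (.e (nat_lit 496) (nat_lit 39) (.e (nat_lit 483405) (nat_lit 26) (.e (nat_lit 385056) (nat_lit 22) .nil))) (.g (nat_lit 0) (.e (nat_lit 10019) (nat_lit 0) .nil) .nil))) 
(.lf (nat_lit 449382) (.g (nat_lit 2506) (.e (nat_lit 632) (nat_lit 50) (.e (nat_lit 573482) (nat_lit 13) (.e (nat_lit 65619) (nat_lit 10) (.e (nat_lit 344117) (nat_lit 21) (.e (nat_lit 516159) (nat_lit 10) (.e (nat_lit 434275) (nat_lit 39) (.e (nat_lit 663589) (nat_lit 14) (.e (nat_lit 2426) (nat_lit 157) .nil)))))))) (.g (nat_lit 1) (.e (nat_lit 11776) (nat_lit 0) .nil) .nil))))) 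
(.nd (nat_lit 8) (.nd (nat_lit 9) 
(.lf (nat_lit 448742) (.g (nat_lit 2017) (.e (nat_lit 464) (nat_lit 34) (.e (nat_lit 442379) (nat_lit 0) (.e (nat_lit 2059) (nat_lit 142) (.e (nat_lit 704595) (nat_lit 5) (.e (nat_lit 180292) (nat_lit 49) (.e (nat_lit 229645) (nat_lit 232) .nil)))))) (.g (nat_lit 1) (.e (nat_lit 7930) (nat_lit 0) .nil) .nil))) 
(.lf (nat_lit 449254) (.g (nat_lit 5438) (.e (nat_lit 598) (nat_lit 45) (.e (nat_lit 532550) (nat_lit 12) (.e (nat_lit 360475) (nat_lit 8) (.e (nat_lit 557087) (nat_lit 11) .nil)))) (.g (nat_lit 0) (.e (nat_lit 11288) (nat_lit 0) .nil) .nil)))) (.nd (nat_lit 9) 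
(.lf (nat_lit 448998) (.g (nat_lit 3618) (.e (nat_lit 503) (nat_lit 40) (.e (nat_lit 491568) (nat_lit 13) (.e (nat_lit 393301) (nat_lit 27) (.e (nat_lit 491560) (nat_lit 10) (.e (nat_lit 344179) (nat_lit 44) (.e (nat_lit 786176) (nat_lit 0) .nil)))))) (.g (nat_lit 1) (.e (nat_lit 10315) (nat_lit 0) .nil) .nil))) 
(.lf (nat_lit 449510) (.g (nat_lit 3344) (.e (nat_lit 850) (nat_lit 74) (.e (nat_lit 770072) (nat_lit 8) (.e (nat_lit 65583) (nat_lit 7) (.e (nat_lit 319530) (nat_lit 16) (.e (nat_lit 286748) (nat_lit 9) (.e (nat_lit 336295) (nat_lit 15) (.e (nat_lit 3806) (nat_lit 231) (.e (nat_lit 811031) (nat_lit 11) .nil)))))))) (.g (nat_lit 1) (.e (nat_lit 12568) (nat_lit 0) .nil) .nil)))))))) 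
(.nd (nat_lit 5) (.nd (nat_lit 6) (.nd (nat_lit 7) (.nd (nat_lit 8) (.nd (nat_lit 9) 
(.lf (nat_lit 448534) (.g (nat_lit 3396) (.e (nat_lit 430) (nat_lit 32) (.e (nat_lit 426344) (nat_lit 14) (.e (nat_lit 491539) (nat_lit 3) (.e (nat_lit 98373) (nat_lit 29) (.e (nat_lit 450587) (nat_lit 10) (.e (nat_lit 573457) (nat_lit 9) .nil)))))) (.g (nat_lit 1) (.e (nat_lit 6030) (nat_lit 0) .nil) .nil))) 
(.lf (nat_lit 449046) (.g (nat_lit 3299) (.e (nat_lit 226) (nat_lit 21) (.e (nat_lit 336369) (nat_lit 27) (.e (nat_lit 426173) (nat_lit 7) (.e (nat_lit 409617) (nat_lit 10) (.e (nat_lit 632) (nat_lit 50) (.e (nat_lit 573488) (nat_lit 14) (.e (nat_lit 81664) (nat_lit 32) .nil))))))) (.g (nat_lit 1) (.e (nat_lit 10412) (nat_lit 0) .nil) .nil)))) (.nd (nat_lit 9) 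
(.lf (nat_lit 448790) (.g (nat_lit 696) (.e (nat_lit 492) (nat_lit 39) (.e (nat_lit 483365) (nat_lit 18) (.e (nat_lit 57854) (nat_lit 252) .nil))) (.g (nat_lit 0) (.e (nat_lit 9743) (nat_lit 0) .nil) .nil))) 
(.lf (nat_lit 449302) (.g (nat_lit 1186) (.e (nat_lit 605) (nat_lit 45) (.e (nat_lit 532550) (nat_lit 12) (.e (nat_lit 360475) (nat_lit 8) .nil))) (.g (nat_lit 0) (.e (nat_lit 11459) (nat_lit 0) .nil) .nil))))) (.nd (nat_lit 8) (.nd (nat_lit 9) 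
(.lf (nat_lit 448662) (.g (nat_lit 2171) (.e (nat_lit 452) (nat_lit 33) (.e (nat_lit 434219) (nat_lit 19) (.e (nat_lit 500059) (nat_lit 18) (.e (nat_lit 65617) (nat_lit 10) (.e (nat_lit 344132) (nat_lit 26) (.e (nat_lit 557094) (nat_lit 12) (.e (nat_lit 164022) (nat_lit 46) (.e (nat_lit 704629) (nat_lit 9) .nil)))))))) (.g (nat_lit 1) (.e (nat_lit 6940) (nat_lit 0) .nil) .nil))) 
(.lf (nat_lit 449174) (.g (nat_lit 2106) (.e (nat_lit 300) (nat_lit 22) (.e (nat_lit 344069) (nat_lit 0) (.e (nat_lit 3090) (nat_lit 191) (.e (nat_lit 483372) (nat_lit 21) (.e (nat_lit 319505) (nat_lit 10) (.e (nat_lit 7936) (nat_lit 312) .nil)))))) (.g (nat_lit 1) (.e (nat_lit 10970) (nat_lit 0) .nil) .nil)))) (.nd (nat_lit 9) 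
(.lf (nat_lit 448918) (.g (nat_lit 3164) (.e (nat_lit 498) (nat_lit 40) (.e (nat_lit 491568) (nat_lit 13) (.e (nat_lit 393301) (nat_lit 27) (.e (nat_lit 491560) (nat_lit 10) (.e (nat_lit 344094) (nat_lit 18) (.e (nat_lit 7454) (nat_lit 396) (.e (nat_lit 993) (nat_lit 81) .nil))))))) (.g (nat_lit 1) (.e (nat_lit 10171) (nat_lit 0) .nil) .nil))) 
(.lf (nat_lit 449430) (.g (nat_lit 3362) (.e (nat_lit 632) (nat_lit 50) (.e (nat_lit 573489) (nat_lit 14) (.e (nat_lit 73755) (nat_lit 8) (.e (nat_lit 557097) (nat_lit 13) (.e (nat_lit 172065) (nat_lit 3) (.e (nat_lit 212736) (nat_lit 7) (.e (nat_lit 409616) (nat_lit 10) .nil))))))) (.g (nat_lit 1) (.e (nat_lit 11884) (nat_lit 0) .nil) .nil)))))) (.nd (nat_lit 7) (.nd (nat_lit 8) (.nd (nat_lit 9) 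
(.lf (nat_lit 448598) (.g (nat_lit 1149) (.e (nat_lit 7936) (nat_lit 32) (.e (nat_lit 426347) (nat_lit 14) (.e (nat_lit 491550) (nat_lit 9) (.e (nat_lit 336421) (nat_lit 28) .nil)))) (.g (nat_lit 0) (.e (nat_lit 6203) (nat_lit 0) .nil) .nil))) 
(.lf (nat_lit 449110) (.g (nat_lit 2423) (.e (nat_lit 288) (nat_lit 21) (.e (nat_lit 335872) (nat_lit 0) (.e (nat_lit 6711) (nat_lit 360) (.e (nat_lit 163962) (nat_lit 25) (.e (nat_lit 532550) (nat_lit 12) (.e (nat_lit 360474) (nat_lit 8) (.e (nat_lit 557073) (nat_lit 9) .nil))))))) (.g (nat_lit 1) (.e (nat_lit 10754) (nat_lit 0) .nil) .nil)))) (.nd (nat_lit 9) 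
(.lf (nat_lit 448854) (.g (nat_lit 273) (.e (nat_lit 496) (nat_lit 39) (.e (nat_lit 483382) (nat_lit 23) (.e (nat_lit 336318) (nat_lit 17) .nil))) (.g (nat_lit 0) (.e (nat_lit 9945) (nat_lit 0) .nil) .nil))) 
(.lf (nat_lit 449366) (.g (nat_lit 2469) (.e (nat_lit 632) (nat_lit 50) (.e (nat_lit 573482) (nat_lit 13) (.e (nat_lit 65604) (nat_lit 9) (.e (nat_lit 336028) (nat_lit 3) (.e (nat_lit 98367) (nat_lit 27) (.e (nat_lit 434275) (nat_lit 39) (.e (nat_lit 663589) (nat_lit 14) (.e (nat_lit 2426) (nat_lit 157) .nil)))))))) (.g (nat_lit 1) (.e (nat_lit 11755) (nat_lit 0) .nil) .nil))))) 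
(.nd (nat_lit 8) (.nd (nat_lit 9) 
(.lf (nat_lit 448726) (.g (nat_lit 1947) (.e (nat_lit 460) (nat_lit 34) (.e (nat_lit 442421) (nat_lit 21) (.e (nat_lit 164319) (nat_lit 228) (.e (nat_lit 57427) (nat_lit 15) (.e (nat_lit 360483) (nat_lit 15) .nil))))) (.g (nat_lit 0) (.e (nat_lit 7713) (nat_lit 0) .nil) .nil))) 
(.lf (nat_lit 449238) (.g (nat_lit 4794) (.e (nat_lit 595) (nat_lit 45) (.e (nat_lit 532535) (nat_lit 9) (.e (nat_lit 336099) (nat_lit 9) (.e (nat_lit 336013) (nat_lit 2) (.e (nat_lit 90165) (nat_lit 12) (.e (nat_lit 164218) (nat_lit 179) (.e (nat_lit 164266) (nat_lit 221) (.e (nat_lit 1065) (nat_lit 81) .nil)))))))) (.g (nat_lit 1) (.e (nat_lit 11244) (nat_lit 0) .nil) .nil)))) (.nd (nat_lit 9) 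
(.lf (nat_lit 448982) (.g (nat_lit 1129) (.e (nat_lit 502) (nat_lit 40) (.e (nat_lit 491566) (nat_lit 12) (.e (nat_lit 385074) (nat_lit 31) .nil))) (.g (nat_lit 0) (.e (nat_lit 10287) (nat_lit 0) .nil) .nil))) 
(.lf (nat_lit 449494) (.g (nat_lit 1467) (.e (nat_lit 635) (nat_lit 50) (.e (nat_lit 573451) (nat_lit 9) (.e (nat_lit 1595) (nat_lit 111) (.e (nat_lit 360493) (nat_lit 27) .nil)))) (.g (nat_lit 0) (.e (nat_lit 12204) (nat_lit 0) .nil) .nil))))))) (.nd (nat_lit 6) (.nd (nat_lit 7) (.nd (nat_lit 8) (.nd (nat_lit 9) 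
(.lf (nat_lit 448566) (.g (nat_lit 3283) (.e (nat_lit 435) (nat_lit 32) (.e (nat_lit 426121) (nat_lit 2) (.e (nat_lit 196666) (nat_lit 13) (.e (nat_lit 65617) (nat_lit 10) (.e (nat_lit 344133) (nat_lit 26) (.e (nat_lit 557091) (nat_lit 12) (.e (nat_lit 164022) (nat_lit 46) (.e (nat_lit 704627) (nat_lit 9) .nil)))))))) (.g (nat_lit 1) (.e (nat_lit 6111) (nat_lit 0) .nil) .nil))) 
(.lf (nat_lit 449078) (.g (nat_lit 1732) (.e (nat_lit 253) (nat_lit 21) (.e (nat_lit 336204) (nat_lit 12) (.e (nat_lit 385074) (nat_lit 31) (.e (nat_lit 573491) (nat_lit 15) .nil)))) (.g (nat_lit 0) (.e (nat_lit 10564) (nat_lit 0) .nil) .nil)))) (.nd (nat_lit 9) 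
(.lf (nat_lit 448822) (.g (nat_lit 3550) (.e (nat_lit 496) (nat_lit 39) (.e (nat_lit 483365) (nat_lit 18) (.e (nat_lit 57849) (nat_lit 252) (.e (nat_lit 57379) (nat_lit 3) (.e (nat_lit 98309) (nat_lit 0) .nil))))) (.g (nat_lit 0) (.e (nat_lit 9906) (nat_lit 0) .nil) .nil))) 
(.lf (nat_lit 449334) (.g (nat_lit 2340) (.e (nat_lit 580) (nat_lit 43) (.e (nat_lit 516106) (nat_lit 0) (.e (nat_lit 3459) (nat_lit 216) (.e (nat_lit 688139) (nat_lit 5) (.e (nat_lit 3085) (nat_lit 191) (.e (nat_lit 483337) (nat_lit 9) (.e (nat_lit 426181) (nat_lit 8) (.e (nat_lit 417795) (nat_lit 0) .nil)))))))) (.g (nat_lit 1) (.e (nat_lit 11518) (nat_lit 0) .nil) .nil))))) 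
(.nd (nat_lit 8) (.nd (nat_lit 9) 
(.lf (nat_lit 448694) (.g (nat_lit 1388) (.e (nat_lit 7936) (nat_lit 33) (.e (nat_lit 434181) (nat_lit 0) (.e (nat_lit 1427) (nat_lit 108) (.e (nat_lit 336421) (nat_lit 28) (.e (nat_lit 434198) (nat_lit 17) .nil))))) (.g (nat_lit 0) (.e (nat_lit 7158) (nat_lit 0) .nil) .nil))) 
(.lf (nat_lit 449206) (.g (nat_lit 2313) (.e (nat_lit 355) (nat_lit 29) (.e (nat_lit 401454) (nat_lit 12) (.e (nat_lit 475198) (nat_lit 40) (.e (nat_lit 704595) (nat_lit 5) (.e (nat_lit 180291) (nat_lit 48) .nil))))) (.g (nat_lit 0) (.e (nat_lit 11162) (nat_lit 0) .nil) .nil)))) (.nd (nat_lit 9) 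
(.lf (nat_lit 448950) (.g (nat_lit 1095) (.e (nat_lit 500) (nat_lit 40) (.e (nat_lit 491566) (nat_lit 12) (.e (nat_lit 385068) (nat_lit 26) .nil))) (.g (nat_lit 0) (.e (nat_lit 10226) (nat_lit 0) .nil) .nil))) 
(.lf (nat_lit 449462) (.g (nat_lit 2758) (.e (nat_lit 632) (nat_lit 50) (.e (nat_lit 573489) (nat_lit 14) (.e (nat_lit 73755) (nat_lit 8) (.e (nat_lit 557105) (nat_lit 14) (.e (nat_lit 180244) (nat_lit 5) (.e (nat_lit 540416) (nat_lit 24) (.e (nat_lit 409617) (nat_lit 10) .nil))))))) (.g (nat_lit 1) (.e (nat_lit 11966) (nat_lit 0) .nil) .nil)))))) 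
(.nd (nat_lit 7) (.nd (nat_lit 8) (.nd (nat_lit 9) 
(.lf (nat_lit 448630) (.g (nat_lit 2105) (.e (nat_lit 446) (nat_lit 33) (.e (nat_lit 434180) (nat_lit 0) (.e (nat_lit 1427) (nat_lit 108) (.e (nat_lit 336438) (nat_lit 31) (.e (nat_lit 458769) (nat_lit 16) (.e (nat_lit 164339) (nat_lit 232) .nil)))))) (.g (nat_lit 1) (.e (nat_lit 6627) (nat_lit 0) .nil) .nil))) 
(.lf (nat_lit 449142) (.g (nat_lit 2668) (.e (nat_lit 299) (nat_lit 22) (.e (nat_lit 344069) (nat_lit 0) (.e (nat_lit 3090) (nat_lit 191) (.e (nat_lit 483372) (nat_lit 21) (.e (nat_lit 319505) (nat_lit 10) (.e (nat_lit 5688) (nat_lit 312) .nil)))))) (.g (nat_lit 1) (.e (nat_lit 10910) (nat_lit 0) .nil) .nil)))) (.nd (nat_lit 9) 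
(.lf (nat_lit 448886) (.g (nat_lit 2401) (.e (nat_lit 497) (nat_lit 39) (.e (nat_lit 483363) (nat_lit 18) (.e (nat_lit 57847) (nat_lit 252) (.e (nat_lit 57365) (nat_lit 1) (.e (nat_lit 57854) (nat_lit 252) (.e (nat_lit 57389) (nat_lit 5) (.e (nat_lit 114722) (nat_lit 24) (.e (nat_lit 106505) (nat_lit 9) .nil)))))))) (.g (nat_lit 1) (.e (nat_lit 10048) (nat_lit 0) .nil) .nil))) 
(.lf (nat_lit 449398) (.g (nat_lit 1925) (.e (nat_lit 632) (nat_lit 50) (.e (nat_lit 573485) (nat_lit 13) (.e (nat_lit 65619) (nat_lit 10) (.e (nat_lit 344090) (nat_lit 18) (.e (nat_lit 7708) (nat_lit 414) .nil))))) (.g (nat_lit 0) (.e (nat_lit 11828) (nat_lit 0) .nil) .nil))))) (.nd (nat_lit 8) (.nd (nat_lit 9) 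
(.lf (nat_lit 448758) (.g (nat_lit 1546) (.e (nat_lit 7936) (nat_lit 37) (.e (nat_lit 466946) (nat_lit 0) (.e (nat_lit 1856) (nat_lit 124) (.e (nat_lit 557101) (nat_lit 13) (.e (nat_lit 172115) (nat_lit 10) .nil))))) (.g (nat_lit 0) (.e (nat_lit 9571) (nat_lit 0) .nil) .nil))) 
(.lf (nat_lit 449270) (.g (nat_lit 5431) (.e (nat_lit 601) (nat_lit 45) (.e (nat_lit 532550) (nat_lit 12) (.e (nat_lit 360475) (nat_lit 8) (.e (nat_lit 557066) (nat_lit 9) .nil)))) (.g (nat_lit 0) (.e (nat_lit 11374) (nat_lit 0) .nil) .nil)))) (.nd (nat_lit 9) 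
(.lf (nat_lit 449014) (.g (nat_lit 2546) (.e (nat_lit 214) (nat_lit 19) (.e (nat_lit 319490) (nat_lit 0) (.e (nat_lit 5761) (nat_lit 315) (.e (nat_lit 163962) (nat_lit 25) (.e (nat_lit 532535) (nat_lit 9) (.e (nat_lit 336176) (nat_lit 10) (.e (nat_lit 344133) (nat_lit 26) (.e (nat_lit 557071) (nat_lit 9) .nil)))))))) (.g (nat_lit 1) (.e (nat_lit 10344) (nat_lit 0) .nil) .nil))) 
(.lf (nat_lit 449526) (.g (nat_lit 1702) (.e (nat_lit 7936) (nat_lit 74) (.e (nat_lit 770072) (nat_lit 8) (.e (nat_lit 65586) (nat_lit 7) (.e (nat_lit 319531) (nat_lit 16) (.e (nat_lit 286748) (nat_lit 9) .nil))))) (.g (nat_lit 0) (.e (nat_lit 12584) (nat_lit 0) .nil) .nil))))))))) (.nd (nat_lit 4) (.nd (nat_lit 5) (.nd (nat_lit 6) (.nd (nat_lit 7) (.nd (nat_lit 8) (.nd (nat_lit 9) 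
(.lf (nat_lit 448526) (.g (nat_lit 3757) (.e (nat_lit 430) (nat_lit 32) (.e (nat_lit 426344) (nat_lit 14) (.e (nat_lit 491535) (nat_lit 2) (.e (nat_lit 90170) (nat_lit 13) (.e (nat_lit 172113) (nat_lit 10) (.e (nat_lit 434248) (nat_lit 28) (.e (nat_lit 573452) (nat_lit 9) .nil))))))) (.g (nat_lit 1) (.e (nat_lit 6022) (nat_lit 0) .nil) .nil))) 
(.lf (nat_lit 449038) (.g (nat_lit 6021) (.e (nat_lit 220) (nat_lit 20) (.e (nat_lit 327700) (nat_lit 8) (.e (nat_lit 303119) (nat_lit 3) (.e (nat_lit 204869) (nat_lit 29) (.e (nat_lit 360474) (nat_lit 8) (.e (nat_lit 557072) (nat_lit 9) .nil)))))) (.g (nat_lit 1) (.e (nat_lit 10396) (nat_lit 0) .nil) .nil)))) (.nd (nat_lit 9) 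
(.lf (nat_lit 448782) (.g (nat_lit 621) (.e (nat_lit 492) (nat_lit 39) (.e (nat_lit 483365) (nat_lit 18) (.e (nat_lit 57847) (nat_lit 252) .nil))) (.g (nat_lit 0) (.e (nat_lit 9733) (nat_lit 0) .nil) .nil))) 
(.lf (nat_lit 449294) (.g (nat_lit 2964) (.e (nat_lit 604) (nat_lit 45) (.e (nat_lit 532504) (nat_lit 1) (.e (nat_lit 57931) (nat_lit 282) (.e (nat_lit 163884) (nat_lit 5) (.e (nat_lit 221210) (nat_lit 22) (.e (nat_lit 196656) (nat_lit 11) (.e (nat_lit 16425) (nat_lit 7) (.e (nat_lit 409616) (nat_lit 10) .nil)))))))) (.g (nat_lit 1) (.e (nat_lit 11417) (nat_lit 0) .nil) .nil))))) 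
(.nd (nat_lit 8) (.nd (nat_lit 9) 
(.lf (nat_lit 448654) (.g (nat_lit 2485) (.e (nat_lit 449) (nat_lit 33) (.e (nat_lit 434231) (nat_lit 23) (.e (nat_lit 532550) (nat_lit 12) (.e (nat_lit 360475) (nat_lit 8) (.e (nat_lit 557091) (nat_lit 12) .nil))))) (.g (nat_lit 0) (.e (nat_lit 6785) (nat_lit 0) .nil) .nil))) 
(.lf (nat_lit 449166) (.g (nat_lit 1344) (.e (nat_lit 300) (nat_lit 22) (.e (nat_lit 344069) (nat_lit 0) (.e (nat_lit 3090) (nat_lit 191) (.e (nat_lit 483354) (nat_lit 17) (.e (nat_lit 6206) (nat_lit 333) (.e (nat_lit 57863) (nat_lit 256) .nil)))))) (.g (nat_lit 1) (.e (nat_lit 10962) (nat_lit 0) .nil) .nil)))) (.nd (nat_lit 9) 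
(.lf (nat_lit 448910) (.g (nat_lit 883) (.e (nat_lit 498) (nat_lit 40) (.e (nat_lit 491563) (nat_lit 12) (.e (nat_lit 385074) (nat_lit 31) .nil))) (.g (nat_lit 0) (.e (nat_lit 10141) (nat_lit 0) .nil) .nil))) 
(.lf (nat_lit 449422) (.g (nat_lit 2983) (.e (nat_lit 632) (nat_lit 50) (.e (nat_lit 573489) (nat_lit 14) (.e (nat_lit 73754) (nat_lit 8) (.e (nat_lit 557103) (nat_lit 14) (.e (nat_lit 180243) (nat_lit 5) (.e (nat_lit 540416) (nat_lit 24) (.e (nat_lit 409616) (nat_lit 10) .nil))))))) (.g (nat_lit 1) (.e (nat_lit 11872) (nat_lit 0) .nil) .nil)))))) 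
(.nd (nat_lit 7) (.nd (nat_lit 8) (.nd (nat_lit 9) 
(.lf (nat_lit 448590) (.g (nat_lit 2642) (.e (nat_lit 7936) (nat_lit 32) (.e (nat_lit 426315) (nat_lit 12) (.e (nat_lit 475185) (nat_lit 29) (.e (nat_lit 557101) (nat_lit 13) (.e (nat_lit 172115) (nat_lit 10) .nil))))) (.g (nat_lit 0) (.e (nat_lit 6188) (nat_lit 0) .nil) .nil))) 
(.lf (nat_lit 449102) (.g (nat_lit 2161) (.e (nat_lit 277) (nat_lit 21) (.e (nat_lit 336235) (nat_lit 14) (.e (nat_lit 401437) (nat_lit 9) (.e (nat_lit 426482) (nat_lit 27) (.e (nat_lit 336060) (nat_lit 7) .nil))))) (.g (nat_lit 0) (.e (nat_lit 10600) (nat_lit 0) .nil) .nil)))) (.nd (nat_lit 9) 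
(.lf (nat_lit 448846) (.g (nat_lit 1898) (.e (nat_lit 496) (nat_lit 39) (.e (nat_lit 483380) (nat_lit 23) (.e (nat_lit 336316) (nat_lit 17) (.e (nat_lit 196698) (nat_lit 19) (.e (nat_lit 57811) (nat_lit 246) (.e (nat_lit 57883) (nat_lit 270) .nil)))))) (.g (nat_lit 1) (.e (nat_lit 9936) (nat_lit 0) .nil) .nil))) 
(.lf (nat_lit 449358) (.g (nat_lit 2100) (.e (nat_lit 7936) (nat_lit 43) (.e (nat_lit 516166) (nat_lit 12) (.e (nat_lit 450587) (nat_lit 10) (.e (nat_lit 573469) (nat_lit 11) (.e (nat_lit 16424) (nat_lit 7) .nil))))) (.g (nat_lit 0) (.e (nat_lit 11662) (nat_lit 0) .nil) .nil))))) (.nd (nat_lit 8) (.nd (nat_lit 9) 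
(.lf (nat_lit 448718) (.g (nat_lit 2273) (.e (nat_lit 457) (nat_lit 34) (.e (nat_lit 442379) (nat_lit 0) (.e (nat_lit 1856) (nat_lit 124) (.e (nat_lit 557100) (nat_lit 13) (.e (nat_lit 172113) (nat_lit 10) (.e (nat_lit 434245) (nat_lit 28) (.e (nat_lit 573449) (nat_lit 9) .nil))))))) (.g (nat_lit 1) (.e (nat_lit 7442) (nat_lit 0) .nil) .nil))) 
(.lf (nat_lit 449230) (.g (nat_lit 4672) (.e (nat_lit 594) (nat_lit 45) (.e (nat_lit 532550) (nat_lit 12) (.e (nat_lit 360475) (nat_lit 8) (.e (nat_lit 557068) (nat_lit 9) .nil)))) (.g (nat_lit 0) (.e (nat_lit 11229) (nat_lit 0) .nil) .nil)))) (.nd (nat_lit 9) 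
(.lf (nat_lit 448974) (.g (nat_lit 3163) (.e (nat_lit 501) (nat_lit 40) (.e (nat_lit 491569) (nat_lit 13) (.e (nat_lit 393301) (nat_lit 27) (.e (nat_lit 491560) (nat_lit 10) (.e (nat_lit 344178) (nat_lit 44) .nil))))) (.g (nat_lit 0) (.e (nat_lit 10274) (nat_lit 0) .nil) .nil))) 
(.lf (nat_lit 449486) (.g (nat_lit 1912) (.e (nat_lit 632) (nat_lit 50) (.e (nat_lit 573491) (nat_lit 15) (.e (nat_lit 81943) (nat_lit 20) (.e (nat_lit 2391) (nat_lit 156) (.e (nat_lit 819219) (nat_lit 4) (.e (nat_lit 172080) (nat_lit 7) (.e (nat_lit 409611) (nat_lit 10) .nil))))))) (.g (nat_lit 1) (.e (nat_lit 12022) (nat_lit 0) .nil) .nil))))))) 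
(.nd (nat_lit 6) (.nd (nat_lit 7) (.nd (nat_lit 8) (.nd (nat_lit 9) 
(.lf (nat_lit 448558) (.g (nat_lit 4569) (.e (nat_lit 433) (nat_lit 32) (.e (nat_lit 426347) (nat_lit 14) (.e (nat_lit 491540) (nat_lit 3) (.e (nat_lit 98373) (nat_lit 29) (.e (nat_lit 450587) (nat_lit 10) (.e (nat_lit 573450) (nat_lit 9) .nil)))))) (.g (nat_lit 1) (.e (nat_lit 6088) (nat_lit 0) .nil) .nil))) 
(.lf (nat_lit 449070) (.g (nat_lit 2680) (.e (nat_lit 247) (nat_lit 21) (.e (nat_lit 336204) (nat_lit 12) (.e (nat_lit 385074) (nat_lit 31) (.e (nat_lit 573484) (nat_lit 13) (.e (nat_lit 65617) (nat_lit 10) .nil))))) (.g (nat_lit 0) (.e (nat_lit 10507) (nat_lit 0) .nil) .nil)))) (.nd (nat_lit 9) 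
(.lf (nat_lit 448814) (.g (nat_lit 2021) (.e (nat_lit 496) (nat_lit 39) (.e (nat_lit 483364) (nat_lit 18) (.e (nat_lit 57854) (nat_lit 252) (.e (nat_lit 57378) (nat_lit 3) (.e (nat_lit 98309) (nat_lit 0) (.e (nat_lit 6244) (nat_lit 336) (.e (nat_lit 229644) (nat_lit 232) .nil))))))) (.g (nat_lit 1) (.e (nat_lit 9881) (nat_lit 0) .nil) .nil))) 
(.lf (nat_lit 449326) (.g (nat_lit 1426) (.e (nat_lit 577) (nat_lit 43) (.e (nat_lit 516115) (nat_lit 1) (.e (nat_lit 164399) (nat_lit 256) (.e (nat_lit 57388) (nat_lit 5) .nil)))) (.g (nat_lit 0) (.e (nat_lit 11504) (nat_lit 0) .nil) .nil))))) (.nd (nat_lit 8) (.nd (nat_lit 9) 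
(.lf (nat_lit 448686) (.g (nat_lit 3660) (.e (nat_lit 452) (nat_lit 33) (.e (nat_lit 434231) (nat_lit 23) (.e (nat_lit 532550) (nat_lit 12) (.e (nat_lit 360474) (nat_lit 8) (.e (nat_lit 557093) (nat_lit 12) (.e (nat_lit 164023) (nat_lit 46) (.e (nat_lit 704626) (nat_lit 9) .nil))))))) (.g (nat_lit 1) (.e (nat_lit 7005) (nat_lit 0) .nil) .nil))) 
(.lf (nat_lit 449198) (.g (nat_lit 1390) (.e (nat_lit 351) (nat_lit 28) (.e (nat_lit 393253) (nat_lit 18) (.e (nat_lit 164325) (nat_lit 230) (.e (nat_lit 163875) (nat_lit 3) .nil)))) (.g (nat_lit 0) (.e (nat_lit 11139) (nat_lit 0) .nil) .nil)))) (.nd (nat_lit 9) 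
(.lf (nat_lit 448942) (.g (nat_lit 3669) (.e (nat_lit 499) (nat_lit 40) (.e (nat_lit 491568) (nat_lit 13) (.e (nat_lit 393301) (nat_lit 27) (.e (nat_lit 491560) (nat_lit 10) (.e (nat_lit 344178) (nat_lit 44) (.e (nat_lit 778240) (nat_lit 0) .nil)))))) (.g (nat_lit 1) (.e (nat_lit 10212) (nat_lit 0) .nil) .nil))) 
(.lf (nat_lit 449454) (.g (nat_lit 2394) (.e (nat_lit 632) (nat_lit 50) (.e (nat_lit 573489) (nat_lit 14) (.e (nat_lit 73755) (nat_lit 8) (.e (nat_lit 557104) (nat_lit 14) (.e (nat_lit 180243) (nat_lit 5) (.e (nat_lit 540416) (nat_lit 24) (.e (nat_lit 409617) (nat_lit 10) .nil))))))) (.g (nat_lit 1) (.e (nat_lit 11934) (nat_lit 0) .nil) .nil)))))) 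
(.nd (nat_lit 7) (.nd (nat_lit 8) (.nd (nat_lit 9) 
(.lf (nat_lit 448622) (.g (nat_lit 1755) (.e (nat_lit 442) (nat_lit 33) (.e (nat_lit 434233) (nat_lit 23) (.e (nat_lit 532535) (nat_lit 9) (.e (nat_lit 336173) (nat_lit 10) .nil)))) (.g (nat_lit 0) (.e (nat_lit 6301) (nat_lit 0) .nil) .nil))) 
(.lf (nat_lit 449134) (.g (nat_lit 2078) (.e (nat_lit 297) (nat_lit 22) (.e (nat_lit 344069) (nat_lit 0) (.e (nat_lit 3090) (nat_lit 191) (.e (nat_lit 483372) (nat_lit 21) (.e (nat_lit 319505) (nat_lit 10) (.e (nat_lit 7936) (nat_lit 312) .nil)))))) (.g (nat_lit 1) (.e (nat_lit 10895) (nat_lit 0) .nil) .nil)))) (.nd (nat_lit 9) 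
(.lf (nat_lit 448878) (.g (nat_lit 1808) (.e (nat_lit 496) (nat_lit 39) (.e (nat_lit 483405) (nat_lit 26) (.e (nat_lit 385057) (nat_lit 22) (.e (nat_lit 499780) (nat_lit 1) (.e (nat_lit 57816) (nat_lit 246) (.e (nat_lit 57878) (nat_lit 270) .nil)))))) (.g (nat_lit 1) (.e (nat_lit 10027) (nat_lit 0) .nil) .nil))) 
(.lf (nat_lit 449390) (.g (nat_lit 556) (.e (nat_lit 632) (nat_lit 50) (.e (nat_lit 573482) (nat_lit 13) (.e (nat_lit 73472) (nat_lit 18) .nil))) (.g (nat_lit 0) (.e (nat_lit 11790) (nat_lit 0) .nil) .nil))))) (.nd (nat_lit 8) (.nd (nat_lit 9) 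
(.lf (nat_lit 448750) (.g (nat_lit 950) (.e (nat_lit 7936) (nat_lit 35) (.e (nat_lit 450595) (nat_lit 17) (.e (nat_lit 663574) (nat_lit 9) (.e (nat_lit 7936) (nat_lit 24) .nil)))) (.g (nat_lit 0) (.e (nat_lit 9162) (nat_lit 0) .nil) .nil))) 
(.lf (nat_lit 449262) (.g (nat_lit 887) (.e (nat_lit 596) (nat_lit 45) (.e (nat_lit 532535) (nat_lit 9) (.e (nat_lit 336295) (nat_lit 15) .nil))) (.g (nat_lit 0) (.e (nat_lit 11350) (nat_lit 0) .nil) .nil)))) (.nd (nat_lit 9) 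
(.lf (nat_lit 449006) (.g (nat_lit 3260) (.e (nat_lit 7936) (nat_lit 40) (.e (nat_lit 491571) (nat_lit 13) (.e (nat_lit 393260) (nat_lit 21) (.e (nat_lit 409648) (nat_lit 18) .nil)))) (.g (nat_lit 0) (.e (nat_lit 10329) (nat_lit 0) .nil) .nil))) 
(.lf (nat_lit 449518) (.g (nat_lit 1843) (.e (nat_lit 852) (nat_lit 74) (.e (nat_lit 770072) (nat_lit 8) (.e (nat_lit 65586) (nat_lit 7) (.e (nat_lit 319531) (nat_lit 16) (.e (nat_lit 286748) (nat_lit 9) .nil))))) (.g (nat_lit 0) (.e (nat_lit 12576) (nat_lit 0) .nil) .nil)))))))) (.nd (nat_lit 5) (.nd (nat_lit 6) (.nd (nat_lit 7) (.nd (nat_lit 8) (.nd (nat_lit 9) 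
(.lf (nat_lit 448542) (.g (nat_lit 1335) (.e (nat_lit 432) (nat_lit 32) (.e (nat_lit 426347) (nat_lit 14) (.e (nat_lit 491570) (nat_lit 13) (.e (nat_lit 393260) (nat_lit 21) .nil)))) (.g (nat_lit 0) (.e (nat_lit 6053) (nat_lit 0) .nil) .nil))) 
(.lf (nat_lit 449054) (.g (nat_lit 761) (.e (nat_lit 232) (nat_lit 21) (.e (nat_lit 336013) (nat_lit 2) (.e (nat_lit 90134) (nat_lit 9) .nil))) (.g (nat_lit 0) (.e (nat_lit 10444) (nat_lit 0) .nil) .nil)))) (.nd (nat_lit 9) 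
(.lf (nat_lit 448798) (.g (nat_lit 935) (.e (nat_lit 493) (nat_lit 39) (.e (nat_lit 483411) (nat_lit 27) (.e (nat_lit 401414) (nat_lit 0) .nil))) (.g (nat_lit 0) (.e (nat_lit 9812) (nat_lit 0) .nil) .nil))) 
(.lf (nat_lit 449310) (.g (nat_lit 1468) (.e (nat_lit 7936) (nat_lit 45) (.e (nat_lit 532550) (nat_lit 12) (.e (nat_lit 360451) (nat_lit 0) (.e (nat_lit 4031) (nat_lit 245) .nil)))) (.g (nat_lit 0) (.e (nat_lit 11475) (nat_lit 0) .nil) .nil))))) (.nd (nat_lit 8) (.nd (nat_lit 9) 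
(.lf (nat_lit 448670) (.g (nat_lit 2999) (.e (nat_lit 452) (nat_lit 33) (.e (nat_lit 434231) (nat_lit 23) (.e (nat_lit 532549) (nat_lit 12) (.e (nat_lit 360473) (nat_lit 8) (.e (nat_lit 557093) (nat_lit 12) (.e (nat_lit 164023) (nat_lit 46) (.e (nat_lit 704629) (nat_lit 9) .nil))))))) (.g (nat_lit 1) (.e (nat_lit 6988) (nat_lit 0) .nil) .nil))) 
(.lf (nat_lit 449182) (.g (nat_lit 2252) (.e (nat_lit 300) (nat_lit 22) (.e (nat_lit 344069) (nat_lit 0) (.e (nat_lit 3090) (nat_lit 191) (.e (nat_lit 483375) (nat_lit 22) (.e (nat_lit 327705) (nat_lit 10) (.e (nat_lit 5723) (nat_lit 312) .nil)))))) (.g (nat_lit 1) (.e (nat_lit 10978) (nat_lit 0) .nil) .nil)))) (.nd (nat_lit 9) 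
(.lf (nat_lit 448926) (.g (nat_lit 2954) (.e (nat_lit 498) (nat_lit 40) (.e (nat_lit 491569) (nat_lit 13) (.e (nat_lit 393301) (nat_lit 27) (.e (nat_lit 491558) (nat_lit 10) (.e (nat_lit 344095) (nat_lit 18) (.e (nat_lit 7454) (nat_lit 396) (.e (nat_lit 992) (nat_lit 81) .nil))))))) (.g (nat_lit 1) (.e (nat_lit 10179) (nat_lit 0) .nil) .nil))) 
(.lf (nat_lit 449438) (.g (nat_lit 3602) (.e (nat_lit 632) (nat_lit 50) (.e (nat_lit 573489) (nat_lit 14) (.e (nat_lit 73755) (nat_lit 8) (.e (nat_lit 557098) (nat_lit 13) (.e (nat_lit 172065) (nat_lit 3) (.e (nat_lit 212736) (nat_lit 7) (.e (nat_lit 409617) (nat_lit 10) .nil))))))) (.g (nat_lit 1) (.e (nat_lit 11903) (nat_lit 0) .nil) .nil)))))) (.nd (nat_lit 7) (.nd (nat_lit 8) (.nd (nat_lit 9) 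
(.lf (nat_lit 448606) (.g (nat_lit 4278) (.e (nat_lit 441) (nat_lit 33) (.e (nat_lit 434180) (nat_lit 0) (.e (nat_lit 1253) (nat_lit 92) (.e (nat_lit 98373) (nat_lit 29) (.e (nat_lit 450587) (nat_lit 10) (.e (nat_lit 573454) (nat_lit 9) .nil)))))) (.g (nat_lit 1) (.e (nat_lit 6212) (nat_lit 0) .nil) .nil))) 
(.lf (nat_lit 449118) (.g (nat_lit 918) (.e (nat_lit 290) (nat_lit 21) (.e (nat_lit 335988) (nat_lit 1) (.e (nat_lit 57927) (nat_lit 282) .nil))) (.g (nat_lit 0) (.e (nat_lit 10801) (nat_lit 0) .nil) .nil)))) (.nd (nat_lit 9) 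
(.lf (nat_lit 448862) (.g (nat_lit 1617) (.e (nat_lit 496) (nat_lit 39) (.e (nat_lit 483383) (nat_lit 23) (.e (nat_lit 336316) (nat_lit 17) (.e (nat_lit 196697) (nat_lit 19) .nil)))) (.g (nat_lit 0) (.e (nat_lit 9959) (nat_lit 0) .nil) .nil))) 
(.lf (nat_lit 449374) (.g (nat_lit 2212) (.e (nat_lit 632) (nat_lit 50) (.e (nat_lit 573482) (nat_lit 13) (.e (nat_lit 65619) (nat_lit 10) (.e (nat_lit 344090) (nat_lit 18) (.e (nat_lit 7708) (nat_lit 414) (.e (nat_lit 163908) (nat_lit 12) (.e (nat_lit 426171) (nat_lit 7) (.e (nat_lit 409612) (nat_lit 10) .nil)))))))) (.g (nat_lit 1) (.e (nat_lit 11768) (nat_lit 0) .nil) .nil))))) 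
(.nd (nat_lit 8) (.nd (nat_lit 9) 
(.lf (nat_lit 448734) (.g (nat_lit 2011) (.e (nat_lit 463) (nat_lit 34) (.e (nat_lit 442379) (nat_lit 0) (.e (nat_lit 2059) (nat_lit 142) (.e (nat_lit 704595) (nat_lit 5) (.e (nat_lit 180291) (nat_lit 48) (.e (nat_lit 164340) (nat_lit 232) .nil)))))) (.g (nat_lit 1) (.e (nat_lit 7810) (nat_lit 0) .nil) .nil))) 
(.lf (nat_lit 449246) (.g (nat_lit 2723) (.e (nat_lit 595) (nat_lit 45) (.e (nat_lit 532550) (nat_lit 12) (.e (nat_lit 360475) (nat_lit 8) (.e (nat_lit 557085) (nat_lit 11) .nil)))) (.g (nat_lit 0) (.e (nat_lit 11277) (nat_lit 0) .nil) .nil)))) (.nd (nat_lit 9) 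
(.lf (nat_lit 448990) (.g (nat_lit 3647) (.e (nat_lit 502) (nat_lit 40) (.e (nat_lit 491571) (nat_lit 13) (.e (nat_lit 393260) (nat_lit 21) (.e (nat_lit 409648) (nat_lit 18) .nil)))) (.g (nat_lit 0) (.e (nat_lit 10303) (nat_lit 0) .nil) .nil))) 
(.lf (nat_lit 449502) (.g (nat_lit 448) (.e (nat_lit 682) (nat_lit 58) (.e (nat_lit 638998) (nat_lit 8) (.e (nat_lit 172123) (nat_lit 13) .nil))) (.g (nat_lit 0) (.e (nat_lit 12292) (nat_lit 0) .nil) .nil))))))) (.nd (nat_lit 6) (.nd (nat_lit 7) (.nd (nat_lit 8) (.nd (nat_lit 9) 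
(.lf (nat_lit 448574) (.g (nat_lit 4685) (.e (nat_lit 435) (nat_lit 32) (.e (nat_lit 426123) (nat_lit 2) (.e (nat_lit 196666) (nat_lit 13) (.e (nat_lit 65617) (nat_lit 10) (.e (nat_lit 344132) (nat_lit 26) (.e (nat_lit 557093) (nat_lit 12) (.e (nat_lit 164022) (nat_lit 46) (.e (nat_lit 704628) (nat_lit 9) .nil)))))))) (.g (nat_lit 1) (.e (nat_lit 6119) (nat_lit 0) .nil) .nil))) 
(.lf (nat_lit 449086) (.g (nat_lit 3305) (.e (nat_lit 260) (nat_lit 21) (.e (nat_lit 336204) (nat_lit 12) (.e (nat_lit 385074) (nat_lit 31) (.e (nat_lit 573484) (nat_lit 13) .nil)))) (.g (nat_lit 0) (.e (nat_lit 10576) (nat_lit 0) .nil) .nil)))) (.nd (nat_lit 9) 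
(.lf (nat_lit 448830) (.g (nat_lit 2987) (.e (nat_lit 496) (nat_lit 39) (.e (nat_lit 483372) (nat_lit 21) (.e (nat_lit 319504) (nat_lit 10) (.e (nat_lit 618) (nat_lit 48) (.e (nat_lit 557105) (nat_lit 14) (.e (nat_lit 188160) (nat_lit 32) .nil)))))) (.g (nat_lit 1) (.e (nat_lit 9918) (nat_lit 0) .nil) .nil))) 
(.lf (nat_lit 449342) (.g (nat_lit 1063) (.e (nat_lit 583) (nat_lit 43) (.e (nat_lit 516166) (nat_lit 12) (.e (nat_lit 450588) (nat_lit 10) .nil))) (.g (nat_lit 0) (.e (nat_lit 11554) (nat_lit 0) .nil) .nil))))) (.nd (nat_lit 8) (.nd (nat_lit 9) 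
(.lf (nat_lit 448702) (.g (nat_lit 2153) (.e (nat_lit 456) (nat_lit 34) (.e (nat_lit 442374) (nat_lit 0) (.e (nat_lit 2059) (nat_lit 142) (.e (nat_lit 704595) (nat_lit 5) (.e (nat_lit 180292) (nat_lit 49) (.e (nat_lit 229646) (nat_lit 232) .nil)))))) (.g (nat_lit 1) (.e (nat_lit 7337) (nat_lit 0) .nil) .nil))) 
(.lf (nat_lit 449214) (.g (nat_lit 2129) (.e (nat_lit 539) (nat_lit 41) (.e (nat_lit 500065) (nat_lit 18) (.e (nat_lit 65610) (nat_lit 10) (.e (nat_lit 344129) (nat_lit 26) (.e (nat_lit 557066) (nat_lit 9) .nil))))) (.g (nat_lit 0) (.e (nat_lit 11200) (nat_lit 0) .nil) .nil)))) (.nd (nat_lit 9) 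
(.lf (nat_lit 448958) (.g (nat_lit 3406) (.e (nat_lit 500) (nat_lit 40) (.e (nat_lit 491568) (nat_lit 13) (.e (nat_lit 393301) (nat_lit 27) (.e (nat_lit 491560) (nat_lit 10) (.e (nat_lit 352000) (nat_lit 44) (.e (nat_lit 778244) (nat_lit 0) .nil)))))) (.g (nat_lit 1) (.e (nat_lit 10241) (nat_lit 0) .nil) .nil))) 
(.lf (nat_lit 449470) (.g (nat_lit 1831) (.e (nat_lit 632) (nat_lit 50) (.e (nat_lit 573489) (nat_lit 14) (.e (nat_lit 73755) (nat_lit 8) (.e (nat_lit 557105) (nat_lit 14) (.e (nat_lit 180252) (nat_lit 10) (.e (nat_lit 573442) (nat_lit 0) (.e (nat_lit 2826) (nat_lit 182) (.e (nat_lit 409612) (nat_lit 10) .nil)))))))) (.g (nat_lit 1) (.e (nat_lit 11976) (nat_lit 0) .nil) .nil)))))) 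
(.nd (nat_lit 7) (.nd (nat_lit 8) (.nd (nat_lit 9) 
(.lf (nat_lit 448638) (.g (nat_lit 2484) (.e (nat_lit 447) (nat_lit 33) (.e (nat_lit 434180) (nat_lit 0) (.e (nat_lit 1427) (nat_lit 108) (.e (nat_lit 336421) (nat_lit 28) (.e (nat_lit 434198) (nat_lit 17) (.e (nat_lit 229646) (nat_lit 232) .nil)))))) (.g (nat_lit 1) (.e (nat_lit 6675) (nat_lit 0) .nil) .nil))) 
(.lf (nat_lit 449150) (.g (nat_lit 1898) (.e (nat_lit 300) (nat_lit 22) (.e (nat_lit 344068) (nat_lit 0) (.e (nat_lit 3090) (nat_lit 191) (.e (nat_lit 483372) (nat_lit 21) (.e (nat_lit 319496) (nat_lit 10) (.e (nat_lit 5723) (nat_lit 312) .nil)))))) (.g (nat_lit 1) (.e (nat_lit 10930) (nat_lit 0) .nil) .nil)))) (.nd (nat_lit 9) 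
(.lf (nat_lit 448894) (.g (nat_lit 1097) (.e (nat_lit 497) (nat_lit 39) (.e (nat_lit 483372) (nat_lit 21) (.e (nat_lit 319500) (nat_lit 10) .nil))) (.g (nat_lit 0) (.e (nat_lit 10060) (nat_lit 0) .nil) .nil))) 
(.lf (nat_lit 449406) (.g (nat_lit 1164) (.e (nat_lit 632) (nat_lit 50) (.e (nat_lit 573489) (nat_lit 14) (.e (nat_lit 73754) (nat_lit 8) (.e (nat_lit 557095) (nat_lit 13) .nil)))) (.g (nat_lit 0) (.e (nat_lit 11850) (nat_lit 0) .nil) .nil))))) (.nd (nat_lit 8) (.nd (nat_lit 9) 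
(.lf (nat_lit 448766) (.g (nat_lit 3141) (.e (nat_lit 488) (nat_lit 38) (.e (nat_lit 475185) (nat_lit 29) (.e (nat_lit 557100) (nat_lit 13) (.e (nat_lit 172113) (nat_lit 10) .nil)))) (.g (nat_lit 0) (.e (nat_lit 9667) (nat_lit 0) .nil) .nil))) 
(.lf (nat_lit 449278) (.g (nat_lit 2247) (.e (nat_lit 604) (nat_lit 45) (.e (nat_lit 532499) (nat_lit 1) (.e (nat_lit 57931) (nat_lit 282) (.e (nat_lit 163884) (nat_lit 5) (.e (nat_lit 221210) (nat_lit 22) (.e (nat_lit 196656) (nat_lit 11) (.e (nat_lit 16425) (nat_lit 7) (.e (nat_lit 409616) (nat_lit 10) .nil)))))))) (.g (nat_lit 1) (.e (nat_lit 11383) (nat_lit 0) .nil) .nil)))) (.nd (nat_lit 9) 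
(.lf (nat_lit 449022) (.g (nat_lit 2252) (.e (nat_lit 220) (nat_lit 20) (.e (nat_lit 327681) (nat_lit 0) (.e (nat_lit 5762) (nat_lit 315) (.e (nat_lit 163962) (nat_lit 25) (.e (nat_lit 532550) (nat_lit 12) (.e (nat_lit 360474) (nat_lit 8) (.e (nat_lit 557073) (nat_lit 9) .nil))))))) (.g (nat_lit 1) (.e (nat_lit 10368) (nat_lit 0) .nil) .nil))) 
(.lf (nat_lit 449534) (.g (nat_lit 2076) (.e (nat_lit 879) (nat_lit 75) (.e (nat_lit 778466) (nat_lit 11) (.e (nat_lit 24617) (nat_lit 7) (.e (nat_lit 319529) (nat_lit 16) .nil)))) (.g (nat_lit 0) (.e (nat_lit 12608) (nat_lit 0) .nil) .nil)))))))))))) 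
(.nd (nat_lit 1) (.nd (nat_lit 2) (.nd (nat_lit 3) (.nd (nat_lit 4) (.nd (nat_lit 5) 
(.nd (nat_lit 6) (.nd (nat_lit 7) (.nd (nat_lit 8) (.nd (nat_lit 9) 
(.lf (nat_lit 448513) (.g (nat_lit 4855) (.e (nat_lit 430) (nat_lit 32) (.e (nat_lit 426343) (nat_lit 14) (.e (nat_lit 491544) (nat_lit 7) (.e (nat_lit 319533) (nat_lit 16) (.e (nat_lit 286753) (nat_lit 10) (.e (nat_lit 344160) (nat_lit 37) (.e (nat_lit 647190) (nat_lit 9) .nil))))))) (.g (nat_lit 1) (.e (nat_lit 6009) (nat_lit 0) .nil) .nil))) 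
(.lf (nat_lit 449025) (.g (nat_lit 4306) (.e (nat_lit 220) (nat_lit 20) (.e (nat_lit 327698) (nat_lit 8) (.e (nat_lit 303119) (nat_lit 3) (.e (nat_lit 204869) (nat_lit 29) (.e (nat_lit 360475) (nat_lit 8) (.e (nat_lit 557068) (nat_lit 9) .nil)))))) (.g (nat_lit 1) (.e (nat_lit 10383) (nat_lit 0) .nil) .nil)))) (.nd (nat_lit 9) 
(.lf (nat_lit 448769) (.g (nat_lit 2905) (.e (nat_lit 489) (nat_lit 38) (.e (nat_lit 475179) (nat_lit 24) (.e (nat_lit 516146) (nat_lit 9) (.e (nat_lit 426131) (nat_lit 3) (.e (nat_lit 204838) (nat_lit 20) (.e (nat_lit 122624) (nat_lit 2) (.e (nat_lit 196624) (nat_lit 9) .nil))))))) (.g (nat_lit 1) (.e (nat_lit 9674) (nat_lit 0) .nil) .nil))) 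
(.lf (nat_lit 449281) (.g (nat_lit 3002) (.e (nat_lit 604) (nat_lit 45) (.e (nat_lit 532499) (nat_lit 1) (.e (nat_lit 57931) (nat_lit 282) (.e (nat_lit 163885) (nat_lit 5) (.e (nat_lit 221210) (nat_lit 22) (.e (nat_lit 196656) (nat_lit 11) (.e (nat_lit 16425) (nat_lit 7) (.e (nat_lit 409617) (nat_lit 10) .nil)))))))) (.g (nat_lit 1) (.e (nat_lit 11386) (nat_lit 0) .nil) .nil))))) 
(.nd (nat_lit 8) (.nd (nat_lit 9) 
(.lf (nat_lit 448641) (.g (nat_lit 1704) (.e (nat_lit 447) (nat_lit 33) (.e (nat_lit 434180) (nat_lit 0) (.e (nat_lit 1428) (nat_lit 108) (.e (nat_lit 336421) (nat_lit 28) (.e (nat_lit 434198) (nat_lit 17) (.e (nat_lit 229645) (nat_lit 232) .nil)))))) (.g (nat_lit 1) (.e (nat_lit 6678) (nat_lit 0) .nil) .nil))) 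
(.lf (nat_lit 449153) (.g (nat_lit 3204) (.e (nat_lit 300) (nat_lit 22) (.e (nat_lit 344068) (nat_lit 0) (.e (nat_lit 3090) (nat_lit 191) (.e (nat_lit 483372) (nat_lit 21) (.e (nat_lit 319506) (nat_lit 10) (.e (nat_lit 5721) (nat_lit 312) .nil)))))) (.g (nat_lit 1) (.e (nat_lit 10933) (nat_lit 0) .nil) .nil)))) (.nd (nat_lit 9) 
(.lf (nat_lit 448897) (.g (nat_lit 507) (.e (nat_lit 7936) (nat_lit 39) (.e (nat_lit 483411) (nat_lit 27) (.e (nat_lit 409344) (nat_lit 17) .nil))) (.g (nat_lit 0) (.e (nat_lit 10119) (nat_lit 0) .nil) .nil))) 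
(.lf (nat_lit 449409) (.g (nat_lit 3246) (.e (nat_lit 632) (nat_lit 50) (.e (nat_lit 573489) (nat_lit 14) (.e (nat_lit 73754) (nat_lit 8) (.e (nat_lit 557100) (nat_lit 13) (.e (nat_lit 172065) (nat_lit 3) (.e (nat_lit 212736) (nat_lit 7) (.e (nat_lit 409617) (nat_lit 10) .nil))))))) (.g (nat_lit 1) (.e (nat_lit 11854) (nat_lit 0) .nil) .nil)))))) (.nd (nat_lit 7) (.nd (nat_lit 8) (.nd (nat_lit 9) 
(.lf (nat_lit 448577) (.g (nat_lit 4492) (.e (nat_lit 435) (nat_lit 32) (.e (nat_lit 426123) (nat_lit 2) (.e (nat_lit 196666) (nat_lit 13) (.e (nat_lit 65617) (nat_lit 10) (.e (nat_lit 344132) (nat_lit 26) (.e (nat_lit 557094) (nat_lit 12) (.e (nat_lit 164022) (nat_lit 46) (.e (nat_lit 704628) (nat_lit 9) .nil)))))))) (.g (nat_lit 1) (.e (nat_lit 6122) (nat_lit 0) .nil) .nil))) 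
(.lf (nat_lit 449089) (.g (nat_lit 2296) (.e (nat_lit 268) (nat_lit 21) (.e (nat_lit 336001) (nat_lit 2) (.e (nat_lit 90170) (nat_lit 13) (.e (nat_lit 172113) (nat_lit 10) (.e (nat_lit 434245) (nat_lit 28) .nil))))) (.g (nat_lit 0) (.e (nat_lit 10580) (nat_lit 0) .nil) .nil)))) (.nd (nat_lit 9) 
(.lf (nat_lit 448833) (.g (nat_lit 196) (.e (nat_lit 496) (nat_lit 39) (.e (nat_lit 483379) (nat_lit 23) (.e (nat_lit 336318) (nat_lit 17) .nil))) (.g (nat_lit 0) (.e (nat_lit 9922) (nat_lit 0) .nil) .nil))) 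
(.lf (nat_lit 449345) (.g (nat_lit 2252) (.e (nat_lit 584) (nat_lit 43) (.e (nat_lit 516115) (nat_lit 1) (.e (nat_lit 164398) (nat_lit 256) (.e (nat_lit 57390) (nat_lit 5) (.e (nat_lit 114716) (nat_lit 22) .nil))))) (.g (nat_lit 0) (.e (nat_lit 11575) (nat_lit 0) .nil) .nil))))) (.nd (nat_lit 8) (.nd (nat_lit 9) 
(.lf (nat_lit 448705) (.g (nat_lit 2972) (.e (nat_lit 457) (nat_lit 34) (.e (nat_lit 442374) (nat_lit 0) (.e (nat_lit 1855) (nat_lit 124) (.e (nat_lit 557098) (nat_lit 13) (.e (nat_lit 172115) (nat_lit 10) (.e (nat_lit 434244) (nat_lit 28) (.e (nat_lit 573450) (nat_lit 9) .nil))))))) (.g (nat_lit 1) (.e (nat_lit 7428) (nat_lit 0) .nil) .nil))) 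
(.lf (nat_lit 449217) (.g (nat_lit 1224) (.e (nat_lit 592) (nat_lit 45) (.e (nat_lit 532550) (nat_lit 12) (.e (nat_lit 360472) (nat_lit 8) .nil))) (.g (nat_lit 0) (.e (nat_lit 11211) (nat_lit 0) .nil) .nil)))) (.nd (nat_lit 9) 
(.lf (nat_lit 448961) (.g (nat_lit 2701) (.e (nat_lit 500) (nat_lit 40) (.e (nat_lit 491569) (nat_lit 13) (.e (nat_lit 393301) (nat_lit 27) (.e (nat_lit 491558) (nat_lit 10) (.e (nat_lit 352000) (nat_lit 44) .nil))))) (.g (nat_lit 0) (.e (nat_lit 10244) (nat_lit 0) .nil) .nil))) 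
(.lf (nat_lit 449473) (.g (nat_lit 1833) (.e (nat_lit 632) (nat_lit 50) (.e (nat_lit 573489) (nat_lit 14) (.e (nat_lit 73755) (nat_lit 8) (.e (nat_lit 557105) (nat_lit 14) (.e (nat_lit 180252) (nat_lit 10) (.e (nat_lit 581376) (nat_lit 0) (.e (nat_lit 2824) (nat_lit 182) (.e (nat_lit 409612) (nat_lit 10) .nil)))))))) (.g (nat_lit 1) (.e (nat_lit 11979) (nat_lit 0) .nil) .nil))))))) 
(.nd (nat_lit 6) (.nd (nat_lit 7) (.nd (nat_lit 8) (.nd (nat_lit 9) 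
(.lf (nat_lit 448545) (.g (nat_lit 4813) (.e (nat_lit 433) (nat_lit 32) (.e (nat_lit 425984) (nat_lit 0) (.e (nat_lit 7489) (nat_lit 402) (.e (nat_lit 1239) (nat_lit 91) (.e (nat_lit 90170) (nat_lit 13) (.e (nat_lit 172106) (nat_lit 10) (.e (nat_lit 434244) (nat_lit 28) (.e (nat_lit 573450) (nat_lit 9) .nil)))))))) (.g (nat_lit 1) (.e (nat_lit 6058) (nat_lit 0) .nil) .nil))) 
(.lf (nat_lit 449057) (.g (nat_lit 4639) (.e (nat_lit 232) (nat_lit 21) (.e (nat_lit 336013) (nat_lit 2) (.e (nat_lit 90134) (nat_lit 9) (.e (nat_lit 3025) (nat_lit 187) (.e (nat_lit 450588) (nat_lit 10) (.e (nat_lit 573475) (nat_lit 12) (.e (nat_lit 57574) (nat_lit 55) (.e (nat_lit 778362) (nat_lit 9) .nil)))))))) (.g (nat_lit 1) (.e (nat_lit 10449) (nat_lit 0) .nil) .nil)))) (.nd (nat_lit 9) 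
(.lf (nat_lit 448801) (.g (nat_lit 1463) (.e (nat_lit 494) (nat_lit 39) (.e (nat_lit 483413) (nat_lit 27) (.e (nat_lit 409344) (nat_lit 17) (.e (nat_lit 90172) (nat_lit 14) (.e (nat_lit 188160) (nat_lit 32) .nil))))) (.g (nat_lit 1) (.e (nat_lit 9838) (nat_lit 0) .nil) .nil))) 
(.lf (nat_lit 449313) (.g (nat_lit 103) (.e (nat_lit 7936) (nat_lit 45) (.e (nat_lit 532550) (nat_lit 12) (.e (nat_lit 360475) (nat_lit 8) .nil))) (.g (nat_lit 0) (.e (nat_lit 11483) (nat_lit 0) .nil) .nil))))) (.nd (nat_lit 8) (.nd (nat_lit 9) 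
(.lf (nat_lit 448673) (.g (nat_lit 3078) (.e (nat_lit 452) (nat_lit 33) (.e (nat_lit 434231) (nat_lit 23) (.e (nat_lit 532549) (nat_lit 12) (.e (nat_lit 360474) (nat_lit 8) (.e (nat_lit 557093) (nat_lit 12) (.e (nat_lit 164022) (nat_lit 46) (.e (nat_lit 704627) (nat_lit 9) .nil))))))) (.g (nat_lit 1) (.e (nat_lit 6991) (nat_lit 0) .nil) .nil))) 
(.lf (nat_lit 449185) (.g (nat_lit 4249) (.e (nat_lit 307) (nat_lit 22) (.e (nat_lit 344097) (nat_lit 18) (.e (nat_lit 4715) (nat_lit 275) (.e (nat_lit 2610) (nat_lit 163) (.e (nat_lit 163978) (nat_lit 30) (.e (nat_lit 573479) (nat_lit 13) (.e (nat_lit 65619) (nat_lit 10) (.e (nat_lit 344129) (nat_lit 26) (.e (nat_lit 557066) (nat_lit 9) .nil))))))))) (.g (nat_lit 1) (.e (nat_lit 11035) (nat_lit 0) .nil) .nil)))) 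
(.nd (nat_lit 9) 
(.lf (nat_lit 448929) (.g (nat_lit 3023) (.e (nat_lit 498) (nat_lit 40) (.e (nat_lit 491569) (nat_lit 13) (.e (nat_lit 393301) (nat_lit 27) (.e (nat_lit 491560) (nat_lit 10) (.e (nat_lit 344094) (nat_lit 18) .nil))))) (.g (nat_lit 0) (.e (nat_lit 10182) (nat_lit 0) .nil) .nil))) 
(.lf (nat_lit 449441) (.g (nat_lit 4002) (.e (nat_lit 632) (nat_lit 50) (.e (nat_lit 573489) (nat_lit 14) (.e (nat_lit 73755) (nat_lit 8) (.e (nat_lit 557098) (nat_lit 13) (.e (nat_lit 172066) (nat_lit 3) (.e (nat_lit 212736) (nat_lit 7) (.e (nat_lit 409617) (nat_lit 10) .nil))))))) (.g (nat_lit 1) (.e (nat_lit 11907) (nat_lit 0) .nil) .nil)))))) (.nd (nat_lit 7) (.nd (nat_lit 8) (.nd (nat_lit 9) 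
(.lf (nat_lit 448609) (.g (nat_lit 4528) (.e (nat_lit 442) (nat_lit 33) (.e (nat_lit 434180) (nat_lit 0) (.e (nat_lit 1253) (nat_lit 92) (.e (nat_lit 98373) (nat_lit 29) (.e (nat_lit 450587) (nat_lit 10) (.e (nat_lit 573448) (nat_lit 9) .nil)))))) (.g (nat_lit 1) (.e (nat_lit 6258) (nat_lit 0) .nil) .nil))) 
(.lf (nat_lit 449121) (.g (nat_lit 3211) (.e (nat_lit 293) (nat_lit 21) (.e (nat_lit 335872) (nat_lit 0) (.e (nat_lit 6713) (nat_lit 360) (.e (nat_lit 163962) (nat_lit 25) (.e (nat_lit 532550) (nat_lit 12) (.e (nat_lit 360475) (nat_lit 8) (.e (nat_lit 557066) (nat_lit 9) .nil))))))) (.g (nat_lit 1) (.e (nat_lit 10858) (nat_lit 0) .nil) .nil)))) (.nd (nat_lit 9) 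
(.lf (nat_lit 448865) (.g (nat_lit 1759) (.e (nat_lit 496) (nat_lit 39) (.e (nat_lit 483383) (nat_lit 23) (.e (nat_lit 343808) (nat_lit 17) (.e (nat_lit 196698) (nat_lit 19) (.e (nat_lit 57813) (nat_lit 246) (.e (nat_lit 57878) (nat_lit 270) .nil)))))) (.g (nat_lit 1) (.e (nat_lit 9962) (nat_lit 0) .nil) .nil))) 
(.lf (nat_lit 449377) (.g (nat_lit 3262) (.e (nat_lit 632) (nat_lit 50) (.e (nat_lit 573482) (nat_lit 13) (.e (nat_lit 65619) (nat_lit 10) (.e (nat_lit 344090) (nat_lit 18) (.e (nat_lit 7710) (nat_lit 414) (.e (nat_lit 163908) (nat_lit 12) (.e (nat_lit 426173) (nat_lit 7) (.e (nat_lit 409617) (nat_lit 10) .nil)))))))) (.g (nat_lit 1) (.e (nat_lit 11771) (nat_lit 0) .nil) .nil))))) 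
(.nd (nat_lit 8) (.nd (nat_lit 9) 
(.lf (nat_lit 448737) (.g (nat_lit 2313) (.e (nat_lit 463) (nat_lit 34) (.e (nat_lit 442399) (nat_lit 20) (.e (nat_lit 3397) (nat_lit 211) (.e (nat_lit 647183) (nat_lit 4) (.e (nat_lit 172079) (nat_lit 7) (.e (nat_lit 409618) (nat_lit 10) (.e (nat_lit 5363) (nat_lit 298) .nil))))))) (.g (nat_lit 1) (.e (nat_lit 7826) (nat_lit 0) .nil) .nil))) 
(.lf (nat_lit 449249) (.g (nat_lit 3273) (.e (nat_lit 595) (nat_lit 45) (.e (nat_lit 532550) (nat_lit 12) (.e (nat_lit 360475) (nat_lit 8) (.e (nat_lit 557086) (nat_lit 11) (.e (nat_lit 24617) (nat_lit 7) .nil))))) (.g (nat_lit 0) (.e (nat_lit 11280) (nat_lit 0) .nil) .nil)))) (.nd (nat_lit 9) 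
(.lf (nat_lit 448993) (.g (nat_lit 710) (.e (nat_lit 503) (nat_lit 40) (.e (nat_lit 491568) (nat_lit 13) (.e (nat_lit 393301) (nat_lit 27) .nil))) (.g (nat_lit 0) (.e (nat_lit 10310) (nat_lit 0) .nil) .nil))) 
(.lf (nat_lit 449505) (.g (nat_lit 1972) (.e (nat_lit 682) (nat_lit 58) (.e (nat_lit 638998) (nat_lit 8) (.e (nat_lit 172123) (nat_lit 13) (.e (nat_lit 483408) (nat_lit 26) (.e (nat_lit 385113) (nat_lit 53) .nil))))) (.g (nat_lit 0) (.e (nat_lit 12295) (nat_lit 0) .nil) .nil)))))))) (.nd (nat_lit 5) (.nd (nat_lit 6) (.nd (nat_lit 7) (.nd (nat_lit 8) (.nd (nat_lit 9) 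
(.lf (nat_lit 448529) (.g (nat_lit 2299) (.e (nat_lit 430) (nat_lit 32) (.e (nat_lit 426344) (nat_lit 14) (.e (nat_lit 491538) (nat_lit 3) (.e (nat_lit 98372) (nat_lit 29) (.e (nat_lit 450586) (nat_lit 10) (.e (nat_lit 573452) (nat_lit 9) .nil)))))) (.g (nat_lit 1) (.e (nat_lit 6025) (nat_lit 0) .nil) .nil))) 
(.lf (nat_lit 449041) (.g (nat_lit 2771) (.e (nat_lit 224) (nat_lit 21) (.e (nat_lit 336228) (nat_lit 14) (.e (nat_lit 401459) (nat_lit 13) (.e (nat_lit 483372) (nat_lit 21) (.e (nat_lit 327424) (nat_lit 10) .nil))))) (.g (nat_lit 0) (.e (nat_lit 10405) (nat_lit 0) .nil) .nil)))) (.nd (nat_lit 9) 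
(.lf (nat_lit 448785) (.g (nat_lit 3518) (.e (nat_lit 492) (nat_lit 39) (.e (nat_lit 483365) (nat_lit 18) (.e (nat_lit 57847) (nat_lit 252) (.e (nat_lit 57368) (nat_lit 1) (.e (nat_lit 57854) (nat_lit 252) (.e (nat_lit 57389) (nat_lit 5) (.e (nat_lit 114723) (nat_lit 24) (.e (nat_lit 106509) (nat_lit 9) .nil)))))))) (.g (nat_lit 1) (.e (nat_lit 9736) (nat_lit 0) .nil) .nil))) 
(.lf (nat_lit 449297) (.g (nat_lit 4564) (.e (nat_lit 604) (nat_lit 45) (.e (nat_lit 532504) (nat_lit 1) (.e (nat_lit 57931) (nat_lit 282) (.e (nat_lit 163885) (nat_lit 5) (.e (nat_lit 221212) (nat_lit 22) (.e (nat_lit 196656) (nat_lit 11) (.e (nat_lit 16425) (nat_lit 7) (.e (nat_lit 409617) (nat_lit 10) .nil)))))))) (.g (nat_lit 1) (.e (nat_lit 11421) (nat_lit 0) .nil) .nil))))) 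
(.nd (nat_lit 8) (.nd (nat_lit 9) 
(.lf (nat_lit 448657) (.g (nat_lit 2847) (.e (nat_lit 450) (nat_lit 33) (.e (nat_lit 434231) (nat_lit 23) (.e (nat_lit 532550) (nat_lit 12) (.e (nat_lit 360474) (nat_lit 8) (.e (nat_lit 557094) (nat_lit 12) .nil))))) (.g (nat_lit 0) (.e (nat_lit 6857) (nat_lit 0) .nil) .nil))) 
(.lf (nat_lit 449169) (.g (nat_lit 2109) (.e (nat_lit 300) (nat_lit 22) (.e (nat_lit 344069) (nat_lit 0) (.e (nat_lit 3090) (nat_lit 191) (.e (nat_lit 483372) (nat_lit 21) (.e (nat_lit 319496) (nat_lit 10) (.e (nat_lit 5718) (nat_lit 312) .nil)))))) (.g (nat_lit 1) (.e (nat_lit 10965) (nat_lit 0) .nil) .nil)))) (.nd (nat_lit 9) 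
(.lf (nat_lit 448913) (.g (nat_lit 2473) (.e (nat_lit 498) (nat_lit 40) (.e (nat_lit 491565) (nat_lit 12) (.e (nat_lit 385068) (nat_lit 26) (.e (nat_lit 532513) (nat_lit 3) (.e (nat_lit 122624) (nat_lit 12) .nil))))) (.g (nat_lit 0) (.e (nat_lit 10145) (nat_lit 0) .nil) .nil))) 
(.lf (nat_lit 449425) (.g (nat_lit 2849) (.e (nat_lit 632) (nat_lit 50) (.e (nat_lit 573489) (nat_lit 14) (.e (nat_lit 73755) (nat_lit 8) (.e (nat_lit 557096) (nat_lit 13) (.e (nat_lit 172067) (nat_lit 3) (.e (nat_lit 212736) (nat_lit 7) (.e (nat_lit 409615) (nat_lit 10) .nil))))))) (.g (nat_lit 1) (.e (nat_lit 11878) (nat_lit 0) .nil) .nil)))))) (.nd (nat_lit 7) (.nd (nat_lit 8) (.nd (nat_lit 9) 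
(.lf (nat_lit 448593) (.g (nat_lit 2338) (.e (nat_lit 7936) (nat_lit 32) (.e (nat_lit 426318) (nat_lit 12) (.e (nat_lit 475185) (nat_lit 29) (.e (nat_lit 557100) (nat_lit 13) (.e (nat_lit 172113) (nat_lit 10) .nil))))) (.g (nat_lit 0) (.e (nat_lit 6192) (nat_lit 0) .nil) .nil))) 
(.lf (nat_lit 449105) (.g (nat_lit 3840) (.e (nat_lit 286) (nat_lit 21) (.e (nat_lit 336226) (nat_lit 14) (.e (nat_lit 401459) (nat_lit 13) (.e (nat_lit 483372) (nat_lit 21) (.e (nat_lit 319504) (nat_lit 10) .nil))))) (.g (nat_lit 0) (.e (nat_lit 10654) (nat_lit 0) .nil) .nil)))) (.nd (nat_lit 9) 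
(.lf (nat_lit 448849) (.g (nat_lit 1419) (.e (nat_lit 496) (nat_lit 39) (.e (nat_lit 483381) (nat_lit 23) (.e (nat_lit 336320) (nat_lit 17) (.e (nat_lit 196698) (nat_lit 19) (.e (nat_lit 57810) (nat_lit 246) (.e (nat_lit 57879) (nat_lit 270) .nil)))))) (.g (nat_lit 1) (.e (nat_lit 9940) (nat_lit 0) .nil) .nil))) 
(.lf (nat_lit 449361) (.g (nat_lit 994) (.e (nat_lit 630) (nat_lit 50) (.e (nat_lit 573487) (nat_lit 14) (.e (nat_lit 81664) (nat_lit 32) (.e (nat_lit 351) (nat_lit 28) (.e (nat_lit 393259) (nat_lit 21) .nil))))) (.g (nat_lit 0) (.e (nat_lit 11676) (nat_lit 0) .nil) .nil))))) (.nd (nat_lit 8) (.nd (nat_lit 9) 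
(.lf (nat_lit 448721) (.g (nat_lit 3737) (.e (nat_lit 457) (nat_lit 34) (.e (nat_lit 442379) (nat_lit 0) (.e (nat_lit 1856) (nat_lit 124) (.e (nat_lit 557101) (nat_lit 13) (.e (nat_lit 172115) (nat_lit 10) (.e (nat_lit 434244) (nat_lit 28) (.e (nat_lit 573450) (nat_lit 9) .nil))))))) (.g (nat_lit 1) (.e (nat_lit 7445) (nat_lit 0) .nil) .nil))) 
(.lf (nat_lit 449233) (.g (nat_lit 2284) (.e (nat_lit 595) (nat_lit 45) (.e (nat_lit 532535) (nat_lit 9) (.e (nat_lit 336099) (nat_lit 9) (.e (nat_lit 336013) (nat_lit 2) .nil)))) (.g (nat_lit 0) (.e (nat_lit 11237) (nat_lit 0) .nil) .nil)))) (.nd (nat_lit 9) 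
(.lf (nat_lit 448977) (.g (nat_lit 859) (.e (nat_lit 501) (nat_lit 40) (.e (nat_lit 491571) (nat_lit 13) (.e (nat_lit 393260) (nat_lit 21) .nil))) (.g (nat_lit 0) (.e (nat_lit 10277) (nat_lit 0) .nil) .nil))) 
(.lf (nat_lit 449489) (.g (nat_lit 3168) (.e (nat_lit 632) (nat_lit 50) (.e (nat_lit 573492) (nat_lit 15) (.e (nat_lit 81950) (nat_lit 21) (.e (nat_lit 65280) (nat_lit 146) .nil)))) (.g (nat_lit 0) (.e (nat_lit 12051) (nat_lit 0) .nil) .nil))))))) (.nd (nat_lit 6) (.nd (nat_lit 7) (.nd (nat_lit 8) (.nd (nat_lit 9) 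
(.lf (nat_lit 448561) (.g (nat_lit 3012) (.e (nat_lit 433) (nat_lit 32) (.e (nat_lit 426347) (nat_lit 14) (.e (nat_lit 491570) (nat_lit 13) (.e (nat_lit 393260) (nat_lit 21) (.e (nat_lit 409616) (nat_lit 10) (.e (nat_lit 7936) (nat_lit 298) .nil)))))) (.g (nat_lit 1) (.e (nat_lit 6091) (nat_lit 0) .nil) .nil))) 
(.lf (nat_lit 449073) (.g (nat_lit 4166) (.e (nat_lit 250) (nat_lit 21) (.e (nat_lit 336226) (nat_lit 14) (.e (nat_lit 401459) (nat_lit 13) (.e (nat_lit 483372) (nat_lit 21) (.e (nat_lit 319504) (nat_lit 10) .nil))))) (.g (nat_lit 0) (.e (nat_lit 10534) (nat_lit 0) .nil) .nil)))) (.nd (nat_lit 9) 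
(.lf (nat_lit 448817) (.g (nat_lit 2187) (.e (nat_lit 496) (nat_lit 39) (.e (nat_lit 483365) (nat_lit 18) (.e (nat_lit 57847) (nat_lit 252) (.e (nat_lit 57377) (nat_lit 3) .nil)))) (.g (nat_lit 0) (.e (nat_lit 9894) (nat_lit 0) .nil) .nil))) 
(.lf (nat_lit 449329) (.g (nat_lit 2418) (.e (nat_lit 577) (nat_lit 43) (.e (nat_lit 516166) (nat_lit 12) (.e (nat_lit 450587) (nat_lit 10) (.e (nat_lit 573469) (nat_lit 11) .nil)))) (.g (nat_lit 0) (.e (nat_lit 11510) (nat_lit 0) .nil) .nil))))) (.nd (nat_lit 8) (.nd (nat_lit 9) 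
(.lf (nat_lit 448689) (.g (nat_lit 2340) (.e (nat_lit 452) (nat_lit 33) (.e (nat_lit 434232) (nat_lit 23) (.e (nat_lit 532549) (nat_lit 12) (.e (nat_lit 360473) (nat_lit 8) (.e (nat_lit 557094) (nat_lit 12) (.e (nat_lit 164022) (nat_lit 46) (.e (nat_lit 704629) (nat_lit 9) .nil))))))) (.g (nat_lit 1) (.e (nat_lit 7026) (nat_lit 0) .nil) .nil))) 
(.lf (nat_lit 449201) (.g (nat_lit 3263) (.e (nat_lit 353) (nat_lit 29) (.e (nat_lit 401425) (nat_lit 2) (.e (nat_lit 196666) (nat_lit 13) (.e (nat_lit 65610) (nat_lit 10) (.e (nat_lit 344117) (nat_lit 21) .nil))))) (.g (nat_lit 0) (.e (nat_lit 11152) (nat_lit 0) .nil) .nil)))) (.nd (nat_lit 9) 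
(.lf (nat_lit 448945) (.g (nat_lit 959) (.e (nat_lit 499) (nat_lit 40) (.e (nat_lit 491569) (nat_lit 13) (.e (nat_lit 393301) (nat_lit 27) .nil))) (.g (nat_lit 0) (.e (nat_lit 10215) (nat_lit 0) .nil) .nil))) 
(.lf (nat_lit 449457) (.g (nat_lit 3777) (.e (nat_lit 632) (nat_lit 50) (.e (nat_lit 573489) (nat_lit 14) (.e (nat_lit 73755) (nat_lit 8) (.e (nat_lit 557104) (nat_lit 14) (.e (nat_lit 180244) (nat_lit 5) (.e (nat_lit 540416) (nat_lit 24) (.e (nat_lit 409615) (nat_lit 10) .nil))))))) (.g (nat_lit 1) (.e (nat_lit 11943) (nat_lit 0) .nil) .nil)))))) 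
(.nd (nat_lit 7) (.nd (nat_lit 8) (.nd (nat_lit 9) 
(.lf (nat_lit 448625) (.g (nat_lit 3133) (.e (nat_lit 442) (nat_lit 33) (.e (nat_lit 434233) (nat_lit 23) (.e (nat_lit 532550) (nat_lit 12) (.e (nat_lit 360474) (nat_lit 8) (.e (nat_lit 557093) (nat_lit 12) (.e (nat_lit 164022) (nat_lit 46) (.e (nat_lit 704628) (nat_lit 9) .nil))))))) (.g (nat_lit 1) (.e (nat_lit 6304) (nat_lit 0) .nil) .nil))) 
(.lf (nat_lit 449137) (.g (nat_lit 1990) (.e (nat_lit 299) (nat_lit 22) (.e (nat_lit 344068) (nat_lit 0) (.e (nat_lit 3090) (nat_lit 191) (.e (nat_lit 483372) (nat_lit 21) (.e (nat_lit 319504) (nat_lit 10) (.e (nat_lit 7936) (nat_lit 312) .nil)))))) (.g (nat_lit 1) (.e (nat_lit 10903) (nat_lit 0) .nil) .nil)))) (.nd (nat_lit 9) 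
(.lf (nat_lit 448881) (.g (nat_lit 1047) (.e (nat_lit 496) (nat_lit 39) (.e (nat_lit 483408) (nat_lit 26) (.e (nat_lit 385057) (nat_lit 22) .nil))) (.g (nat_lit 0) (.e (nat_lit 10035) (nat_lit 0) .nil) .nil))) 
(.lf (nat_lit 449393) (.g (nat_lit 2149) (.e (nat_lit 632) (nat_lit 50) (.e (nat_lit 573485) (nat_lit 13) (.e (nat_lit 65604) (nat_lit 9) (.e (nat_lit 336028) (nat_lit 3) (.e (nat_lit 98366) (nat_lit 27) (.e (nat_lit 434275) (nat_lit 39) (.e (nat_lit 663589) (nat_lit 14) (.e (nat_lit 2427) (nat_lit 157) .nil)))))))) (.g (nat_lit 1) (.e (nat_lit 11821) (nat_lit 0) .nil) .nil))))) 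
(.nd (nat_lit 8) (.nd (nat_lit 9) 
(.lf (nat_lit 448753) (.g (nat_lit 812) (.e (nat_lit 7936) (nat_lit 35) (.e (nat_lit 450597) (nat_lit 17) (.e (nat_lit 663574) (nat_lit 9) (.e (nat_lit 7936) (nat_lit 24) .nil)))) (.g (nat_lit 0) (.e (nat_lit 9165) (nat_lit 0) .nil) .nil))) 
(.lf (nat_lit 449265) (.g (nat_lit 5278) (.e (nat_lit 596) (nat_lit 45) (.e (nat_lit 532550) (nat_lit 12) (.e (nat_lit 360475) (nat_lit 8) (.e (nat_lit 557066) (nat_lit 9) .nil)))) (.g (nat_lit 0) (.e (nat_lit 11357) (nat_lit 0) .nil) .nil)))) (.nd (nat_lit 9) 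
(.lf (nat_lit 449009) (.g (nat_lit 4161) (.e (nat_lit 214) (nat_lit 19) (.e (nat_lit 319490) (nat_lit 0) (.e (nat_lit 5626) (nat_lit 312) (.e (nat_lit 2685) (nat_lit 168) (.e (nat_lit 204868) (nat_lit 29) (.e (nat_lit 360475) (nat_lit 8) (.e (nat_lit 557068) (nat_lit 9) .nil))))))) (.g (nat_lit 1) (.e (nat_lit 10335) (nat_lit 0) .nil) .nil))) 
(.lf (nat_lit 449521) (.g (nat_lit 2945) (.e (nat_lit 852) (nat_lit 74) (.e (nat_lit 770072) (nat_lit 8) (.e (nat_lit 65586) (nat_lit 7) (.e (nat_lit 319531) (nat_lit 16) (.e (nat_lit 286748) (nat_lit 9) (.e (nat_lit 336295) (nat_lit 15) (.e (nat_lit 3806) (nat_lit 231) (.e (nat_lit 811033) (nat_lit 11) .nil)))))))) (.g (nat_lit 1) (.e (nat_lit 12579) (nat_lit 0) .nil) .nil))))))))) 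
(.nd (nat_lit 4) (.nd (nat_lit 5) (.nd (nat_lit 6) (.nd (nat_lit 7) (.nd (nat_lit 8) 
(.nd (nat_lit 9) 
(.lf (nat_lit 448521) (.g (nat_lit 1572) (.e (nat_lit 430) (nat_lit 32) (.e (nat_lit 426344) (nat_lit 14) (.e (nat_lit 491520) (nat_lit 0) (.e (nat_lit 1788) (nat_lit 119) (.e (nat_lit 516165) (nat_lit 12) .nil))))) (.g (nat_lit 0) (.e (nat_lit 6017) (nat_lit 0) .nil) .nil))) 
(.lf (nat_lit 449033) (.g (nat_lit 930) (.e (nat_lit 220) (nat_lit 20) (.e (nat_lit 327700) (nat_lit 8) (.e (nat_lit 303118) (nat_lit 3) (.e (nat_lit 204869) (nat_lit 29) .nil)))) (.g (nat_lit 0) (.e (nat_lit 10391) (nat_lit 0) .nil) .nil)))) (.nd (nat_lit 9) 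
(.lf (nat_lit 448777) (.g (nat_lit 2210) (.e (nat_lit 492) (nat_lit 39) (.e (nat_lit 483363) (nat_lit 18) (.e (nat_lit 57847) (nat_lit 252) (.e (nat_lit 57368) (nat_lit 1) (.e (nat_lit 57854) (nat_lit 252) (.e (nat_lit 57389) (nat_lit 5) (.e (nat_lit 114722) (nat_lit 24) (.e (nat_lit 106509) (nat_lit 9) .nil)))))))) (.g (nat_lit 1) (.e (nat_lit 9726) (nat_lit 0) .nil) .nil))) 
(.lf (nat_lit 449289) (.g (nat_lit 3351) (.e (nat_lit 604) (nat_lit 45) (.e (nat_lit 532503) (nat_lit 1) (.e (nat_lit 57931) (nat_lit 282) (.e (nat_lit 163885) (nat_lit 5) (.e (nat_lit 221210) (nat_lit 22) (.e (nat_lit 196656) (nat_lit 11) (.e (nat_lit 16425) (nat_lit 7) (.e (nat_lit 409616) (nat_lit 10) .nil)))))))) (.g (nat_lit 1) (.e (nat_lit 11410) (nat_lit 0) .nil) .nil))))) 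
(.nd (nat_lit 8) (.nd (nat_lit 9) 
(.lf (nat_lit 448649) (.g (nat_lit 2286) (.e (nat_lit 447) (nat_lit 33) (.e (nat_lit 434181) (nat_lit 0) (.e (nat_lit 1428) (nat_lit 108) (.e (nat_lit 336421) (nat_lit 28) (.e (nat_lit 434198) (nat_lit 17) (.e (nat_lit 229647) (nat_lit 232) .nil)))))) (.g (nat_lit 1) (.e (nat_lit 6686) (nat_lit 0) .nil) .nil))) 
(.lf (nat_lit 449161) (.g (nat_lit 1137) (.e (nat_lit 300) (nat_lit 22) (.e (nat_lit 344069) (nat_lit 0) (.e (nat_lit 3090) (nat_lit 191) (.e (nat_lit 483342) (nat_lit 17) .nil)))) (.g (nat_lit 0) (.e (nat_lit 10957) (nat_lit 0) .nil) .nil)))) (.nd (nat_lit 9) 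
(.lf (nat_lit 448905) (.g (nat_lit 1331) (.e (nat_lit 498) (nat_lit 40) (.e (nat_lit 491563) (nat_lit 12) (.e (nat_lit 385066) (nat_lit 26) .nil))) (.g (nat_lit 0) (.e (nat_lit 10136) (nat_lit 0) .nil) .nil))) 
(.lf (nat_lit 449417) (.g (nat_lit 1602) (.e (nat_lit 632) (nat_lit 50) (.e (nat_lit 573489) (nat_lit 14) (.e (nat_lit 73754) (nat_lit 8) (.e (nat_lit 557101) (nat_lit 13) (.e (nat_lit 172066) (nat_lit 3) .nil))))) (.g (nat_lit 0) (.e (nat_lit 11864) (nat_lit 0) .nil) .nil)))))) (.nd (nat_lit 7) (.nd (nat_lit 8) (.nd (nat_lit 9) 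
(.lf (nat_lit 448585) (.g (nat_lit 4351) (.e (nat_lit 435) (nat_lit 32) (.e (nat_lit 426139) (nat_lit 3) (.e (nat_lit 204869) (nat_lit 29) (.e (nat_lit 360475) (nat_lit 8) (.e (nat_lit 557091) (nat_lit 12) (.e (nat_lit 164022) (nat_lit 46) (.e (nat_lit 704627) (nat_lit 9) .nil))))))) (.g (nat_lit 1) (.e (nat_lit 6145) (nat_lit 0) .nil) .nil))) 
(.lf (nat_lit 449097) (.g (nat_lit 3458) (.e (nat_lit 276) (nat_lit 21) (.e (nat_lit 336011) (nat_lit 2) (.e (nat_lit 90170) (nat_lit 13) (.e (nat_lit 172113) (nat_lit 10) (.e (nat_lit 434247) (nat_lit 28) .nil))))) (.g (nat_lit 0) (.e (nat_lit 10591) (nat_lit 0) .nil) .nil)))) (.nd (nat_lit 9) 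
(.lf (nat_lit 448841) (.g (nat_lit 2140) (.e (nat_lit 496) (nat_lit 39) (.e (nat_lit 483379) (nat_lit 23) (.e (nat_lit 336320) (nat_lit 17) (.e (nat_lit 196698) (nat_lit 19) (.e (nat_lit 57816) (nat_lit 246) (.e (nat_lit 57881) (nat_lit 270) .nil)))))) (.g (nat_lit 1) (.e (nat_lit 9930) (nat_lit 0) .nil) .nil))) 
(.lf (nat_lit 449353) (.g (nat_lit 5438) (.e (nat_lit 585) (nat_lit 43) (.e (nat_lit 516166) (nat_lit 12) (.e (nat_lit 450588) (nat_lit 10) (.e (nat_lit 573471) (nat_lit 11) .nil)))) (.g (nat_lit 0) (.e (nat_lit 11657) (nat_lit 0) .nil) .nil))))) (.nd (nat_lit 8) (.nd (nat_lit 9) 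
(.lf (nat_lit 448713) (.g (nat_lit 2958) (.e (nat_lit 457) (nat_lit 34) (.e (nat_lit 442377) (nat_lit 0) (.e (nat_lit 1856) (nat_lit 124) (.e (nat_lit 557100) (nat_lit 13) (.e (nat_lit 172106) (nat_lit 10) (.e (nat_lit 434244) (nat_lit 28) (.e (nat_lit 573450) (nat_lit 9) .nil))))))) (.g (nat_lit 1) (.e (nat_lit 7437) (nat_lit 0) .nil) .nil))) 
(.lf (nat_lit 449225) (.g (nat_lit 5338) (.e (nat_lit 592) (nat_lit 45) (.e (nat_lit 532550) (nat_lit 12) (.e (nat_lit 360475) (nat_lit 8) (.e (nat_lit 557087) (nat_lit 11) (.e (nat_lit 24617) (nat_lit 7) .nil))))) (.g (nat_lit 0) (.e (nat_lit 11220) (nat_lit 0) .nil) .nil)))) (.nd (nat_lit 9) 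
(.lf (nat_lit 448969) (.g (nat_lit 2883) (.e (nat_lit 501) (nat_lit 40) (.e (nat_lit 491568) (nat_lit 13) (.e (nat_lit 393301) (nat_lit 27) (.e (nat_lit 491560) (nat_lit 10) (.e (nat_lit 344179) (nat_lit 44) .nil))))) (.g (nat_lit 0) (.e (nat_lit 10269) (nat_lit 0) .nil) .nil))) 
(.lf (nat_lit 449481) (.g (nat_lit 2288) (.e (nat_lit 632) (nat_lit 50) (.e (nat_lit 573490) (nat_lit 15) (.e (nat_lit 81950) (nat_lit 21) (.e (nat_lit 57704) (nat_lit 164) (.e (nat_lit 2628) (nat_lit 164) (.e (nat_lit 172082) (nat_lit 7) (.e (nat_lit 409612) (nat_lit 10) .nil))))))) (.g (nat_lit 1) (.e (nat_lit 12005) (nat_lit 0) .nil) .nil))))))) 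
(.nd (nat_lit 6) (.nd (nat_lit 7) (.nd (nat_lit 8) (.nd (nat_lit 9) 
(.lf (nat_lit 448553) (.g (nat_lit 5059) (.e (nat_lit 433) (nat_lit 32) (.e (nat_lit 426129) (nat_lit 3) (.e (nat_lit 204869) (nat_lit 29) (.e (nat_lit 360474) (nat_lit 8) (.e (nat_lit 557094) (nat_lit 12) (.e (nat_lit 164022) (nat_lit 46) (.e (nat_lit 704629) (nat_lit 9) .nil))))))) (.g (nat_lit 1) (.e (nat_lit 6069) (nat_lit 0) .nil) .nil))) 
(.lf (nat_lit 449065) (.g (nat_lit 2547) (.e (nat_lit 234) (nat_lit 21) (.e (nat_lit 336369) (nat_lit 27) (.e (nat_lit 426173) (nat_lit 7) (.e (nat_lit 409617) (nat_lit 10) (.e (nat_lit 632) (nat_lit 50) (.e (nat_lit 573489) (nat_lit 14) (.e (nat_lit 81664) (nat_lit 32) .nil))))))) (.g (nat_lit 1) (.e (nat_lit 10474) (nat_lit 0) .nil) .nil)))) (.nd (nat_lit 9) 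
(.lf (nat_lit 448809) (.g (nat_lit 2803) (.e (nat_lit 496) (nat_lit 39) (.e (nat_lit 483363) (nat_lit 18) (.e (nat_lit 57854) (nat_lit 252) (.e (nat_lit 57378) (nat_lit 3) (.e (nat_lit 98309) (nat_lit 0) (.e (nat_lit 6112) (nat_lit 332) (.e (nat_lit 2406) (nat_lit 157) (.e (nat_lit 5259) (nat_lit 298) .nil)))))))) (.g (nat_lit 1) (.e (nat_lit 9869) (nat_lit 0) .nil) .nil))) 
(.lf (nat_lit 449321) (.g (nat_lit 3651) (.e (nat_lit 574) (nat_lit 43) (.e (nat_lit 516151) (nat_lit 9) (.e (nat_lit 426286) (nat_lit 10) (.e (nat_lit 434245) (nat_lit 28) (.e (nat_lit 573471) (nat_lit 11) .nil))))) (.g (nat_lit 0) (.e (nat_lit 11496) (nat_lit 0) .nil) .nil))))) (.nd (nat_lit 8) (.nd (nat_lit 9) 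
(.lf (nat_lit 448681) (.g (nat_lit 1569) (.e (nat_lit 452) (nat_lit 33) (.e (nat_lit 434231) (nat_lit 23) (.e (nat_lit 532550) (nat_lit 12) (.e (nat_lit 360473) (nat_lit 8) .nil)))) (.g (nat_lit 0) (.e (nat_lit 6999) (nat_lit 0) .nil) .nil))) 
(.lf (nat_lit 449193) (.g (nat_lit 1496) (.e (nat_lit 7936) (nat_lit 23) (.e (nat_lit 352309) (nat_lit 21) (.e (nat_lit 57857) (nat_lit 254) (.e (nat_lit 163908) (nat_lit 12) (.e (nat_lit 426286) (nat_lit 10) .nil))))) (.g (nat_lit 0) (.e (nat_lit 11088) (nat_lit 0) .nil) .nil)))) (.nd (nat_lit 9) 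
(.lf (nat_lit 448937) (.g (nat_lit 3429) (.e (nat_lit 498) (nat_lit 40) (.e (nat_lit 491571) (nat_lit 13) (.e (nat_lit 393260) (nat_lit 21) (.e (nat_lit 409648) (nat_lit 18) .nil)))) (.g (nat_lit 0) (.e (nat_lit 10199) (nat_lit 0) .nil) .nil))) 
(.lf (nat_lit 449449) (.g (nat_lit 2552) (.e (nat_lit 632) (nat_lit 50) (.e (nat_lit 573489) (nat_lit 14) (.e (nat_lit 73755) (nat_lit 8) (.e (nat_lit 557103) (nat_lit 14) (.e (nat_lit 180244) (nat_lit 5) (.e (nat_lit 540416) (nat_lit 24) (.e (nat_lit 409611) (nat_lit 10) .nil))))))) (.g (nat_lit 1) (.e (nat_lit 11924) (nat_lit 0) .nil) .nil)))))) 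
(.nd (nat_lit 7) (.nd (nat_lit 8) (.nd (nat_lit 9) 
(.lf (nat_lit 448617) (.g (nat_lit 4650) (.e (nat_lit 442) (nat_lit 33) (.e (nat_lit 434181) (nat_lit 0) (.e (nat_lit 1253) (nat_lit 92) (.e (nat_lit 98373) (nat_lit 29) (.e (nat_lit 450587) (nat_lit 10) (.e (nat_lit 573450) (nat_lit 9) .nil)))))) (.g (nat_lit 1) (.e (nat_lit 6266) (nat_lit 0) .nil) .nil))) 
(.lf (nat_lit 449129) (.g (nat_lit 2228) (.e (nat_lit 296) (nat_lit 22) (.e (nat_lit 344068) (nat_lit 0) (.e (nat_lit 3090) (nat_lit 191) (.e (nat_lit 483372) (nat_lit 21) (.e (nat_lit 319504) (nat_lit 10) (.e (nat_lit 7936) (nat_lit 312) .nil)))))) (.g (nat_lit 1) (.e (nat_lit 10889) (nat_lit 0) .nil) .nil)))) (.nd (nat_lit 9) 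
(.lf (nat_lit 448873) (.g (nat_lit 1688) (.e (nat_lit 496) (nat_lit 39) (.e (nat_lit 483405) (nat_lit 26) (.e (nat_lit 385057) (nat_lit 22) (.e (nat_lit 499780) (nat_lit 1) (.e (nat_lit 57809) (nat_lit 246) (.e (nat_lit 57879) (nat_lit 270) .nil)))))) (.g (nat_lit 1) (.e (nat_lit 10022) (nat_lit 0) .nil) .nil))) 
(.lf (nat_lit 449385) (.g (nat_lit 3111) (.e (nat_lit 632) (nat_lit 50) (.e (nat_lit 573482) (nat_lit 13) (.e (nat_lit 65619) (nat_lit 10) (.e (nat_lit 344117) (nat_lit 21) (.e (nat_lit 516159) (nat_lit 10) (.e (nat_lit 434275) (nat_lit 39) (.e (nat_lit 663589) (nat_lit 14) (.e (nat_lit 2449) (nat_lit 157) .nil)))))))) (.g (nat_lit 1) (.e (nat_lit 11779) (nat_lit 0) .nil) .nil))))) 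
(.nd (nat_lit 8) (.nd (nat_lit 9) 
(.lf (nat_lit 448745) (.g (nat_lit 1853) (.e (nat_lit 7936) (nat_lit 34) (.e (nat_lit 442374) (nat_lit 0) (.e (nat_lit 2059) (nat_lit 142) (.e (nat_lit 704595) (nat_lit 5) (.e (nat_lit 180291) (nat_lit 48) .nil))))) (.g (nat_lit 0) (.e (nat_lit 8035) (nat_lit 0) .nil) .nil))) 
(.lf (nat_lit 449257) (.g (nat_lit 1339) (.e (nat_lit 596) (nat_lit 45) (.e (nat_lit 532499) (nat_lit 1) (.e (nat_lit 57684) (nat_lit 155) (.e (nat_lit 122909) (nat_lit 12) .nil)))) (.g (nat_lit 0) (.e (nat_lit 11294) (nat_lit 0) .nil) .nil)))) (.nd (nat_lit 9) 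
(.lf (nat_lit 449001) (.g (nat_lit 3128) (.e (nat_lit 503) (nat_lit 40) (.e (nat_lit 491569) (nat_lit 13) (.e (nat_lit 393301) (nat_lit 27) (.e (nat_lit 491560) (nat_lit 10) (.e (nat_lit 344094) (nat_lit 18) .nil))))) (.g (nat_lit 0) (.e (nat_lit 10318) (nat_lit 0) .nil) .nil))) 
(.lf (nat_lit 449513) (.g (nat_lit 3884) (.e (nat_lit 850) (nat_lit 74) (.e (nat_lit 770072) (nat_lit 8) (.e (nat_lit 65586) (nat_lit 7) (.e (nat_lit 319531) (nat_lit 16) (.e (nat_lit 286748) (nat_lit 9) (.e (nat_lit 336295) (nat_lit 15) (.e (nat_lit 3806) (nat_lit 231) (.e (nat_lit 811031) (nat_lit 11) .nil)))))))) (.g (nat_lit 1) (.e (nat_lit 12571) (nat_lit 0) .nil) .nil)))))))) 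
(.nd (nat_lit 5) (.nd (nat_lit 6) (.nd (nat_lit 7) (.nd (nat_lit 8) (.nd (nat_lit 9) 
(.lf (nat_lit 448537) (.g (nat_lit 4658) (.e (nat_lit 430) (nat_lit 32) (.e (nat_lit 426344) (nat_lit 14) (.e (nat_lit 491544) (nat_lit 7) (.e (nat_lit 319534) (nat_lit 16) (.e (nat_lit 286756) (nat_lit 10) (.e (nat_lit 344160) (nat_lit 37) (.e (nat_lit 647190) (nat_lit 9) .nil))))))) (.g (nat_lit 1) (.e (nat_lit 6033) (nat_lit 0) .nil) .nil))) 
(.lf (nat_lit 449049) (.g (nat_lit 4557) (.e (nat_lit 227) (nat_lit 21) (.e (nat_lit 336019) (nat_lit 3) (.e (nat_lit 98373) (nat_lit 29) (.e (nat_lit 450587) (nat_lit 10) (.e (nat_lit 573477) (nat_lit 12) .nil))))) (.g (nat_lit 0) (.e (nat_lit 10419) (nat_lit 0) .nil) .nil)))) (.nd (nat_lit 9) 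
(.lf (nat_lit 448793) (.g (nat_lit 2030) (.e (nat_lit 492) (nat_lit 39) (.e (nat_lit 483365) (nat_lit 18) (.e (nat_lit 57854) (nat_lit 252) (.e (nat_lit 57366) (nat_lit 1) (.e (nat_lit 57854) (nat_lit 252) .nil))))) (.g (nat_lit 0) (.e (nat_lit 9746) (nat_lit 0) .nil) .nil))) 
(.lf (nat_lit 449305) (.g (nat_lit 1275) (.e (nat_lit 7936) (nat_lit 45) (.e (nat_lit 532535) (nat_lit 9) (.e (nat_lit 343808) (nat_lit 10) .nil))) (.g (nat_lit 0) (.e (nat_lit 11467) (nat_lit 0) .nil) .nil))))) (.nd (nat_lit 8) (.nd (nat_lit 9) 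
(.lf (nat_lit 448665) (.g (nat_lit 3647) (.e (nat_lit 452) (nat_lit 33) (.e (nat_lit 434231) (nat_lit 23) (.e (nat_lit 532549) (nat_lit 12) (.e (nat_lit 360473) (nat_lit 8) (.e (nat_lit 557093) (nat_lit 12) (.e (nat_lit 164022) (nat_lit 46) (.e (nat_lit 704627) (nat_lit 9) .nil))))))) (.g (nat_lit 1) (.e (nat_lit 6983) (nat_lit 0) .nil) .nil))) 
(.lf (nat_lit 449177) (.g (nat_lit 3060) (.e (nat_lit 300) (nat_lit 22) (.e (nat_lit 344069) (nat_lit 0) (.e (nat_lit 3090) (nat_lit 191) (.e (nat_lit 483372) (nat_lit 21) (.e (nat_lit 319506) (nat_lit 10) (.e (nat_lit 5723) (nat_lit 312) .nil)))))) (.g (nat_lit 1) (.e (nat_lit 10973) (nat_lit 0) .nil) .nil)))) (.nd (nat_lit 9) 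
(.lf (nat_lit 448921) (.g (nat_lit 2932) (.e (nat_lit 498) (nat_lit 40) (.e (nat_lit 491568) (nat_lit 13) (.e (nat_lit 393301) (nat_lit 27) (.e (nat_lit 491560) (nat_lit 10) (.e (nat_lit 352000) (nat_lit 44) .nil))))) (.g (nat_lit 0) (.e (nat_lit 10174) (nat_lit 0) .nil) .nil))) 
(.lf (nat_lit 449433) (.g (nat_lit 2680) (.e (nat_lit 632) (nat_lit 50) (.e (nat_lit 573489) (nat_lit 14) (.e (nat_lit 73755) (nat_lit 8) (.e (nat_lit 557097) (nat_lit 13) (.e (nat_lit 172067) (nat_lit 3) (.e (nat_lit 212736) (nat_lit 7) (.e (nat_lit 409608) (nat_lit 10) .nil))))))) (.g (nat_lit 1) (.e (nat_lit 11894) (nat_lit 0) .nil) .nil)))))) (.nd (nat_lit 7) (.nd (nat_lit 8) (.nd (nat_lit 9) 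
(.lf (nat_lit 448601) (.g (nat_lit 1137) (.e (nat_lit 7936) (nat_lit 32) (.e (nat_lit 426347) (nat_lit 14) (.e (nat_lit 491570) (nat_lit 13) (.e (nat_lit 393260) (nat_lit 21) .nil)))) (.g (nat_lit 0) (.e (nat_lit 6206) (nat_lit 0) .nil) .nil))) 
(.lf (nat_lit 449113) (.g (nat_lit 2345) (.e (nat_lit 288) (nat_lit 21) (.e (nat_lit 335876) (nat_lit 0) (.e (nat_lit 6711) (nat_lit 360) (.e (nat_lit 163962) (nat_lit 25) (.e (nat_lit 532550) (nat_lit 12) (.e (nat_lit 360474) (nat_lit 8) (.e (nat_lit 557073) (nat_lit 9) .nil))))))) (.g (nat_lit 1) (.e (nat_lit 10766) (nat_lit 0) .nil) .nil)))) (.nd (nat_lit 9) 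
(.lf (nat_lit 448857) (.g (nat_lit 1800) (.e (nat_lit 496) (nat_lit 39) (.e (nat_lit 483382) (nat_lit 23) (.e (nat_lit 336320) (nat_lit 17) (.e (nat_lit 196698) (nat_lit 19) (.e (nat_lit 57809) (nat_lit 246) (.e (nat_lit 57879) (nat_lit 270) .nil)))))) (.g (nat_lit 1) (.e (nat_lit 9948) (nat_lit 0) .nil) .nil))) 
(.lf (nat_lit 449369) (.g (nat_lit 3074) (.e (nat_lit 632) (nat_lit 50) (.e (nat_lit 573482) (nat_lit 13) (.e (nat_lit 65604) (nat_lit 9) (.e (nat_lit 336028) (nat_lit 3) (.e (nat_lit 98367) (nat_lit 27) (.e (nat_lit 434275) (nat_lit 39) (.e (nat_lit 663589) (nat_lit 14) (.e (nat_lit 2449) (nat_lit 157) .nil)))))))) (.g (nat_lit 1) (.e (nat_lit 11758) (nat_lit 0) .nil) .nil))))) 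
(.nd (nat_lit 8) (.nd (nat_lit 9) 
(.lf (nat_lit 448729) (.g (nat_lit 583) (.e (nat_lit 461) (nat_lit 34) (.e (nat_lit 442399) (nat_lit 20) (.e (nat_lit 3571) (nat_lit 222) (.e (nat_lit 737299) (nat_lit 7) .nil)))) (.g (nat_lit 0) (.e (nat_lit 7737) (nat_lit 0) .nil) .nil))) 
(.lf (nat_lit 449241) (.g (nat_lit 864) (.e (nat_lit 595) (nat_lit 45) (.e (nat_lit 532535) (nat_lit 9) (.e (nat_lit 343808) (nat_lit 10) .nil))) (.g (nat_lit 0) (.e (nat_lit 11258) (nat_lit 0) .nil) .nil)))) (.nd (nat_lit 9) 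
(.lf (nat_lit 448985) (.g (nat_lit 987) (.e (nat_lit 502) (nat_lit 40) (.e (nat_lit 491569) (nat_lit 13) (.e (nat_lit 393301) (nat_lit 27) .nil))) (.g (nat_lit 0) (.e (nat_lit 10297) (nat_lit 0) .nil) .nil))) 
(.lf (nat_lit 449497) (.g (nat_lit 2027) (.e (nat_lit 618) (nat_lit 48) (.e (nat_lit 557098) (nat_lit 13) (.e (nat_lit 172115) (nat_lit 10) (.e (nat_lit 434202) (nat_lit 18) (.e (nat_lit 6828) (nat_lit 367) .nil))))) (.g (nat_lit 0) (.e (nat_lit 12277) (nat_lit 0) .nil) .nil))))))) (.nd (nat_lit 6) (.nd (nat_lit 7) (.nd (nat_lit 8) (.nd (nat_lit 9) 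
(.lf (nat_lit 448569) (.g (nat_lit 2557) (.e (nat_lit 435) (nat_lit 32) (.e (nat_lit 426123) (nat_lit 2) (.e (nat_lit 196666) (nat_lit 13) (.e (nat_lit 65617) (nat_lit 10) .nil)))) (.g (nat_lit 0) (.e (nat_lit 6114) (nat_lit 0) .nil) .nil))) 
(.lf (nat_lit 449081) (.g (nat_lit 3319) (.e (nat_lit 255) (nat_lit 21) (.e (nat_lit 336027) (nat_lit 3) (.e (nat_lit 98373) (nat_lit 29) (.e (nat_lit 450588) (nat_lit 10) (.e (nat_lit 573475) (nat_lit 12) .nil))))) (.g (nat_lit 0) (.e (nat_lit 10569) (nat_lit 0) .nil) .nil)))) (.nd (nat_lit 9) 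
(.lf (nat_lit 448825) (.g (nat_lit 2522) (.e (nat_lit 496) (nat_lit 39) (.e (nat_lit 483365) (nat_lit 18) (.e (nat_lit 57854) (nat_lit 252) (.e (nat_lit 57378) (nat_lit 3) (.e (nat_lit 98309) (nat_lit 0) .nil))))) (.g (nat_lit 0) (.e (nat_lit 9910) (nat_lit 0) .nil) .nil))) 
(.lf (nat_lit 449337) (.g (nat_lit 4047) (.e (nat_lit 579) (nat_lit 43) (.e (nat_lit 516151) (nat_lit 9) (.e (nat_lit 426286) (nat_lit 10) (.e (nat_lit 434245) (nat_lit 28) .nil)))) (.g (nat_lit 0) (.e (nat_lit 11536) (nat_lit 0) .nil) .nil))))) (.nd (nat_lit 8) (.nd (nat_lit 9) 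
(.lf (nat_lit 448697) (.g (nat_lit 2179) (.e (nat_lit 454) (nat_lit 34) (.e (nat_lit 442374) (nat_lit 0) (.e (nat_lit 1856) (nat_lit 124) (.e (nat_lit 557101) (nat_lit 13) (.e (nat_lit 172115) (nat_lit 10) (.e (nat_lit 434244) (nat_lit 28) (.e (nat_lit 573449) (nat_lit 9) .nil))))))) (.g (nat_lit 1) (.e (nat_lit 7222) (nat_lit 0) .nil) .nil))) 
(.lf (nat_lit 449209) (.g (nat_lit 3804) (.e (nat_lit 358) (nat_lit 29) (.e (nat_lit 401459) (nat_lit 13) (.e (nat_lit 483372) (nat_lit 21) (.e (nat_lit 319533) (nat_lit 16) .nil)))) (.g (nat_lit 0) (.e (nat_lit 11175) (nat_lit 0) .nil) .nil)))) (.nd (nat_lit 9) 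
(.lf (nat_lit 448953) (.g (nat_lit 1097) (.e (nat_lit 500) (nat_lit 40) (.e (nat_lit 491566) (nat_lit 12) (.e (nat_lit 385074) (nat_lit 31) .nil))) (.g (nat_lit 0) (.e (nat_lit 10230) (nat_lit 0) .nil) .nil))) 
(.lf (nat_lit 449465) (.g (nat_lit 3029) (.e (nat_lit 632) (nat_lit 50) (.e (nat_lit 573489) (nat_lit 14) (.e (nat_lit 73755) (nat_lit 8) (.e (nat_lit 557105) (nat_lit 14) (.e (nat_lit 180245) (nat_lit 5) (.e (nat_lit 540416) (nat_lit 24) (.e (nat_lit 409615) (nat_lit 10) .nil))))))) (.g (nat_lit 1) (.e (nat_lit 11969) (nat_lit 0) .nil) .nil)))))) 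
(.nd (nat_lit 7) (.nd (nat_lit 8) (.nd (nat_lit 9) 
(.lf (nat_lit 448633) (.g (nat_lit 1860) (.e (nat_lit 446) (nat_lit 33) (.e (nat_lit 434181) (nat_lit 0) (.e (nat_lit 1427) (nat_lit 108) (.e (nat_lit 336421) (nat_lit 28) (.e (nat_lit 434197) (nat_lit 16) (.e (nat_lit 164338) (nat_lit 232) .nil)))))) (.g (nat_lit 1) (.e (nat_lit 6630) (nat_lit 0) .nil) .nil))) 
(.lf (nat_lit 449145) (.g (nat_lit 1749) (.e (nat_lit 300) (nat_lit 22) (.e (nat_lit 344068) (nat_lit 0) (.e (nat_lit 3090) (nat_lit 191) (.e (nat_lit 483350) (nat_lit 17) (.e (nat_lit 6212) (nat_lit 333) .nil))))) (.g (nat_lit 0) (.e (nat_lit 10925) (nat_lit 0) .nil) .nil)))) (.nd (nat_lit 9) 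
(.lf (nat_lit 448889) (.g (nat_lit 1570) (.e (nat_lit 497) (nat_lit 39) (.e (nat_lit 483365) (nat_lit 18) (.e (nat_lit 57847) (nat_lit 252) (.e (nat_lit 57368) (nat_lit 1) .nil)))) (.g (nat_lit 0) (.e (nat_lit 10052) (nat_lit 0) .nil) .nil))) 
(.lf (nat_lit 449401) (.g (nat_lit 2916) (.e (nat_lit 632) (nat_lit 50) (.e (nat_lit 573485) (nat_lit 13) (.e (nat_lit 65619) (nat_lit 10) (.e (nat_lit 344090) (nat_lit 18) (.e (nat_lit 7710) (nat_lit 414) (.e (nat_lit 163908) (nat_lit 12) (.e (nat_lit 426173) (nat_lit 7) (.e (nat_lit 409617) (nat_lit 10) .nil)))))))) (.g (nat_lit 1) (.e (nat_lit 11832) (nat_lit 0) .nil) .nil))))) 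
(.nd (nat_lit 8) (.nd (nat_lit 9) 
(.lf (nat_lit 448761) (.g (nat_lit 2912) (.e (nat_lit 483) (nat_lit 38) (.e (nat_lit 475177) (nat_lit 24) (.e (nat_lit 516150) (nat_lit 9) (.e (nat_lit 426131) (nat_lit 3) (.e (nat_lit 204838) (nat_lit 20) .nil))))) (.g (nat_lit 0) (.e (nat_lit 9601) (nat_lit 0) .nil) .nil))) 
(.lf (nat_lit 449273) (.g (nat_lit 2336) (.e (nat_lit 604) (nat_lit 45) (.e (nat_lit 532499) (nat_lit 1) (.e (nat_lit 57926) (nat_lit 282) (.e (nat_lit 163886) (nat_lit 5) (.e (nat_lit 221211) (nat_lit 22) .nil))))) (.g (nat_lit 0) (.e (nat_lit 11378) (nat_lit 0) .nil) .nil)))) (.nd (nat_lit 9) 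
(.lf (nat_lit 449017) (.g (nat_lit 2138) (.e (nat_lit 216) (nat_lit 19) (.e (nat_lit 319490) (nat_lit 0) (.e (nat_lit 5664) (nat_lit 312) (.e (nat_lit 3085) (nat_lit 191) (.e (nat_lit 483377) (nat_lit 22) (.e (nat_lit 327709) (nat_lit 10) (.e (nat_lit 5631) (nat_lit 312) .nil))))))) (.g (nat_lit 1) (.e (nat_lit 10356) (nat_lit 0) .nil) .nil))) 
(.lf (nat_lit 449529) (.g (nat_lit 2366) (.e (nat_lit 879) (nat_lit 75) (.e (nat_lit 778465) (nat_lit 11) (.e (nat_lit 24617) (nat_lit 7) (.e (nat_lit 319533) (nat_lit 16) (.e (nat_lit 286753) (nat_lit 10) .nil))))) (.g (nat_lit 0) (.e (nat_lit 12603) (nat_lit 0) .nil) .nil)))))))))) 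
(.nd (nat_lit 3) (.nd (nat_lit 4) (.nd (nat_lit 5) (.nd (nat_lit 6) (.nd (nat_lit 7) 
(.nd (nat_lit 8) (.nd (nat_lit 9) 
(.lf (nat_lit 448517) (.g (nat_lit 3032) (.e (nat_lit 430) (nat_lit 32) (.e (nat_lit 426343) (nat_lit 14) (.e (nat_lit 491570) (nat_lit 13) (.e (nat_lit 393238) (nat_lit 17) (.e (nat_lit 6989) (nat_lit 377) (.e (nat_lit 2404) (nat_lit 157) (.e (nat_lit 5270) (nat_lit 298) .nil))))))) (.g (nat_lit 1) (.e (nat_lit 6013) (nat_lit 0) .nil) .nil))) 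
(.lf (nat_lit 449029) (.g (nat_lit 1610) (.e (nat_lit 220) (nat_lit 20) (.e (nat_lit 327699) (nat_lit 8) (.e (nat_lit 303119) (nat_lit 3) (.e (nat_lit 204868) (nat_lit 29) (.e (nat_lit 360473) (nat_lit 8) (.e (nat_lit 557073) (nat_lit 9) .nil)))))) (.g (nat_lit 1) (.e (nat_lit 10387) (nat_lit 0) .nil) .nil)))) (.nd (nat_lit 9) 
(.lf (nat_lit 448773) (.g (nat_lit 2742) (.e (nat_lit 491) (nat_lit 39) (.e (nat_lit 483372) (nat_lit 21) (.e (nat_lit 319505) (nat_lit 10) (.e (nat_lit 618) (nat_lit 48) (.e (nat_lit 557105) (nat_lit 14) .nil))))) (.g (nat_lit 0) (.e (nat_lit 9708) (nat_lit 0) .nil) .nil))) 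
(.lf (nat_lit 449285) (.g (nat_lit 2158) (.e (nat_lit 604) (nat_lit 45) (.e (nat_lit 532501) (nat_lit 1) (.e (nat_lit 57931) (nat_lit 282) (.e (nat_lit 163884) (nat_lit 5) (.e (nat_lit 221210) (nat_lit 22) (.e (nat_lit 196656) (nat_lit 11) (.e (nat_lit 16425) (nat_lit 7) (.e (nat_lit 409616) (nat_lit 10) .nil)))))))) (.g (nat_lit 1) (.e (nat_lit 11403) (nat_lit 0) .nil) .nil))))) 
(.nd (nat_lit 8) (.nd (nat_lit 9) 
(.lf (nat_lit 448645) (.g (nat_lit 2198) (.e (nat_lit 447) (nat_lit 33) (.e (nat_lit 434181) (nat_lit 0) (.e (nat_lit 1427) (nat_lit 108) (.e (nat_lit 336421) (nat_lit 28) (.e (nat_lit 434198) (nat_lit 17) (.e (nat_lit 229645) (nat_lit 232) .nil)))))) (.g (nat_lit 1) (.e (nat_lit 6682) (nat_lit 0) .nil) .nil))) 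
(.lf (nat_lit 449157) (.g (nat_lit 1787) (.e (nat_lit 300) (nat_lit 22) (.e (nat_lit 344068) (nat_lit 0) (.e (nat_lit 3090) (nat_lit 191) (.e (nat_lit 483372) (nat_lit 21) (.e (nat_lit 319510) (nat_lit 10) (.e (nat_lit 5721) (nat_lit 312) .nil)))))) (.g (nat_lit 1) (.e (nat_lit 10937) (nat_lit 0) .nil) .nil)))) (.nd (nat_lit 9) 
(.lf (nat_lit 448901) (.g (nat_lit 2067) (.e (nat_lit 498) (nat_lit 40) (.e (nat_lit 491549) (nat_lit 9) (.e (nat_lit 336325) (nat_lit 18) (.e (nat_lit 204837) (nat_lit 20) (.e (nat_lit 122624) (nat_lit 12) (.e (nat_lit 434248) (nat_lit 28) (.e (nat_lit 573452) (nat_lit 9) .nil))))))) (.g (nat_lit 1) (.e (nat_lit 10130) (nat_lit 0) .nil) .nil))) 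
(.lf (nat_lit 449413) (.g (nat_lit 3139) (.e (nat_lit 632) (nat_lit 50) (.e (nat_lit 573489) (nat_lit 14) (.e (nat_lit 73754) (nat_lit 8) (.e (nat_lit 557100) (nat_lit 13) (.e (nat_lit 172067) (nat_lit 3) (.e (nat_lit 212736) (nat_lit 7) (.e (nat_lit 409617) (nat_lit 10) .nil))))))) (.g (nat_lit 1) (.e (nat_lit 11859) (nat_lit 0) .nil) .nil)))))) (.nd (nat_lit 7) (.nd (nat_lit 8) (.nd (nat_lit 9) 
(.lf (nat_lit 448581) (.g (nat_lit 4450) (.e (nat_lit 435) (nat_lit 32) (.e (nat_lit 426139) (nat_lit 3) (.e (nat_lit 204869) (nat_lit 29) (.e (nat_lit 360474) (nat_lit 8) (.e (nat_lit 557091) (nat_lit 12) (.e (nat_lit 164022) (nat_lit 46) (.e (nat_lit 704628) (nat_lit 9) .nil))))))) (.g (nat_lit 1) (.e (nat_lit 6141) (nat_lit 0) .nil) .nil))) 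
(.lf (nat_lit 449093) (.g (nat_lit 3154) (.e (nat_lit 270) (nat_lit 21) (.e (nat_lit 336027) (nat_lit 3) (.e (nat_lit 98373) (nat_lit 29) (.e (nat_lit 450587) (nat_lit 10) (.e (nat_lit 573478) (nat_lit 12) .nil))))) (.g (nat_lit 0) (.e (nat_lit 10584) (nat_lit 0) .nil) .nil)))) (.nd (nat_lit 9) 
(.lf (nat_lit 448837) (.g (nat_lit 1872) (.e (nat_lit 496) (nat_lit 39) (.e (nat_lit 483379) (nat_lit 23) (.e (nat_lit 336320) (nat_lit 17) (.e (nat_lit 196698) (nat_lit 19) (.e (nat_lit 57810) (nat_lit 246) (.e (nat_lit 57879) (nat_lit 270) .nil)))))) (.g (nat_lit 1) (.e (nat_lit 9926) (nat_lit 0) .nil) .nil))) 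
(.lf (nat_lit 449349) (.g (nat_lit 574) (.e (nat_lit 584) (nat_lit 43) (.e (nat_lit 516120) (nat_lit 1) (.e (nat_lit 164330) (nat_lit 230) .nil))) (.g (nat_lit 0) (.e (nat_lit 11628) (nat_lit 0) .nil) .nil))))) (.nd (nat_lit 8) (.nd (nat_lit 9) 
(.lf (nat_lit 448709) (.g (nat_lit 4133) (.e (nat_lit 457) (nat_lit 34) (.e (nat_lit 442374) (nat_lit 0) (.e (nat_lit 1856) (nat_lit 124) (.e (nat_lit 557098) (nat_lit 13) (.e (nat_lit 172115) (nat_lit 10) (.e (nat_lit 434244) (nat_lit 28) (.e (nat_lit 573450) (nat_lit 9) .nil))))))) (.g (nat_lit 1) (.e (nat_lit 7433) (nat_lit 0) .nil) .nil))) 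
(.lf (nat_lit 449221) (.g (nat_lit 5028) (.e (nat_lit 592) (nat_lit 45) (.e (nat_lit 532550) (nat_lit 12) (.e (nat_lit 360475) (nat_lit 8) (.e (nat_lit 557068) (nat_lit 9) .nil)))) (.g (nat_lit 0) (.e (nat_lit 11216) (nat_lit 0) .nil) .nil)))) (.nd (nat_lit 9) 
(.lf (nat_lit 448965) (.g (nat_lit 3631) (.e (nat_lit 501) (nat_lit 40) (.e (nat_lit 491563) (nat_lit 12) (.e (nat_lit 385074) (nat_lit 31) (.e (nat_lit 573484) (nat_lit 13) .nil)))) (.g (nat_lit 0) (.e (nat_lit 10260) (nat_lit 0) .nil) .nil))) 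
(.lf (nat_lit 449477) (.g (nat_lit 1780) (.e (nat_lit 632) (nat_lit 50) (.e (nat_lit 573489) (nat_lit 14) (.e (nat_lit 73755) (nat_lit 8) (.e (nat_lit 557105) (nat_lit 14) (.e (nat_lit 180252) (nat_lit 10) (.e (nat_lit 581376) (nat_lit 0) (.e (nat_lit 2829) (nat_lit 182) (.e (nat_lit 409612) (nat_lit 10) .nil)))))))) (.g (nat_lit 1) (.e (nat_lit 11983) (nat_lit 0) .nil) .nil))))))) 
(.nd (nat_lit 6) (.nd (nat_lit 7) (.nd (nat_lit 8) (.nd (nat_lit 9) 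
(.lf (nat_lit 448549) (.g (nat_lit 3228) (.e (nat_lit 433) (nat_lit 32) (.e (nat_lit 426129) (nat_lit 3) (.e (nat_lit 204868) (nat_lit 29) (.e (nat_lit 360473) (nat_lit 8) (.e (nat_lit 557093) (nat_lit 12) (.e (nat_lit 164022) (nat_lit 46) (.e (nat_lit 704629) (nat_lit 9) .nil))))))) (.g (nat_lit 1) (.e (nat_lit 6065) (nat_lit 0) .nil) .nil))) 
(.lf (nat_lit 449061) (.g (nat_lit 4617) (.e (nat_lit 234) (nat_lit 21) (.e (nat_lit 336019) (nat_lit 3) (.e (nat_lit 98373) (nat_lit 29) (.e (nat_lit 450587) (nat_lit 10) (.e (nat_lit 573477) (nat_lit 12) .nil))))) (.g (nat_lit 0) (.e (nat_lit 10469) (nat_lit 0) .nil) .nil)))) (.nd (nat_lit 9) 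
(.lf (nat_lit 448805) (.g (nat_lit 2819) (.e (nat_lit 496) (nat_lit 39) (.e (nat_lit 483363) (nat_lit 18) (.e (nat_lit 57847) (nat_lit 252) (.e (nat_lit 57379) (nat_lit 3) (.e (nat_lit 98309) (nat_lit 0) (.e (nat_lit 6112) (nat_lit 332) (.e (nat_lit 2406) (nat_lit 157) (.e (nat_lit 5259) (nat_lit 298) .nil)))))))) (.g (nat_lit 1) (.e (nat_lit 9860) (nat_lit 0) .nil) .nil))) 
(.lf (nat_lit 449317) (.g (nat_lit 2492) (.e (nat_lit 606) (nat_lit 46) (.e (nat_lit 540706) (nat_lit 12) (.e (nat_lit 360475) (nat_lit 8) (.e (nat_lit 557087) (nat_lit 11) (.e (nat_lit 24617) (nat_lit 7) .nil))))) (.g (nat_lit 0) (.e (nat_lit 11490) (nat_lit 0) .nil) .nil))))) (.nd (nat_lit 8) (.nd (nat_lit 9) 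
(.lf (nat_lit 448677) (.g (nat_lit 2695) (.e (nat_lit 452) (nat_lit 33) (.e (nat_lit 434231) (nat_lit 23) (.e (nat_lit 532549) (nat_lit 12) (.e (nat_lit 360474) (nat_lit 8) (.e (nat_lit 557094) (nat_lit 12) .nil))))) (.g (nat_lit 0) (.e (nat_lit 6995) (nat_lit 0) .nil) .nil))) 
(.lf (nat_lit 449189) (.g (nat_lit 4211) (.e (nat_lit 307) (nat_lit 22) (.e (nat_lit 344118) (nat_lit 21) (.e (nat_lit 516166) (nat_lit 12) (.e (nat_lit 450587) (nat_lit 10) (.e (nat_lit 573478) (nat_lit 12) .nil))))) (.g (nat_lit 0) (.e (nat_lit 11052) (nat_lit 0) .nil) .nil)))) (.nd (nat_lit 9) 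
(.lf (nat_lit 448933) (.g (nat_lit 1545) (.e (nat_lit 498) (nat_lit 40) (.e (nat_lit 491570) (nat_lit 13) (.e (nat_lit 393260) (nat_lit 21) (.e (nat_lit 409646) (nat_lit 18) .nil)))) (.g (nat_lit 0) (.e (nat_lit 10188) (nat_lit 0) .nil) .nil))) 
(.lf (nat_lit 449445) (.g (nat_lit 3360) (.e (nat_lit 632) (nat_lit 50) (.e (nat_lit 573489) (nat_lit 14) (.e (nat_lit 73755) (nat_lit 8) (.e (nat_lit 557100) (nat_lit 13) (.e (nat_lit 172065) (nat_lit 3) .nil))))) (.g (nat_lit 0) (.e (nat_lit 11914) (nat_lit 0) .nil) .nil)))))) (.nd (nat_lit 7) (.nd (nat_lit 8) (.nd (nat_lit 9) 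
(.lf (nat_lit 448613) (.g (nat_lit 3744) (.e (nat_lit 442) (nat_lit 33) (.e (nat_lit 434181) (nat_lit 0) (.e (nat_lit 1234) (nat_lit 91) (.e (nat_lit 90170) (nat_lit 13) (.e (nat_lit 172113) (nat_lit 10) (.e (nat_lit 434248) (nat_lit 28) (.e (nat_lit 573450) (nat_lit 9) .nil))))))) (.g (nat_lit 1) (.e (nat_lit 6262) (nat_lit 0) .nil) .nil))) 
(.lf (nat_lit 449125) (.g (nat_lit 3989) (.e (nat_lit 7936) (nat_lit 21) (.e (nat_lit 336204) (nat_lit 12) (.e (nat_lit 385074) (nat_lit 31) (.e (nat_lit 573484) (nat_lit 13) (.e (nat_lit 65617) (nat_lit 10) .nil))))) (.g (nat_lit 0) (.e (nat_lit 10883) (nat_lit 0) .nil) .nil)))) (.nd (nat_lit 9) 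
(.lf (nat_lit 448869) (.g (nat_lit 1912) (.e (nat_lit 496) (nat_lit 39) (.e (nat_lit 483403) (nat_lit 26) (.e (nat_lit 385057) (nat_lit 22) (.e (nat_lit 499780) (nat_lit 1) (.e (nat_lit 57806) (nat_lit 246) (.e (nat_lit 57878) (nat_lit 270) .nil)))))) (.g (nat_lit 1) (.e (nat_lit 10017) (nat_lit 0) .nil) .nil))) 
(.lf (nat_lit 449381) (.g (nat_lit 2985) (.e (nat_lit 632) (nat_lit 50) (.e (nat_lit 573482) (nat_lit 13) (.e (nat_lit 65619) (nat_lit 10) (.e (nat_lit 344097) (nat_lit 18) (.e (nat_lit 7672) (nat_lit 410) (.e (nat_lit 2628) (nat_lit 164) (.e (nat_lit 172082) (nat_lit 7) (.e (nat_lit 409617) (nat_lit 10) .nil)))))))) (.g (nat_lit 1) (.e (nat_lit 11775) (nat_lit 0) .nil) .nil))))) 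
(.nd (nat_lit 8) (.nd (nat_lit 9) 
(.lf (nat_lit 448741) (.g (nat_lit 427) (.e (nat_lit 463) (nat_lit 34) (.e (nat_lit 442436) (nat_lit 26) (.e (nat_lit 254007) (nat_lit 14) .nil))) (.g (nat_lit 0) (.e (nat_lit 7920) (nat_lit 0) .nil) .nil))) 
(.lf (nat_lit 449253) (.g (nat_lit 5438) (.e (nat_lit 597) (nat_lit 45) (.e (nat_lit 532550) (nat_lit 12) (.e (nat_lit 360475) (nat_lit 8) (.e (nat_lit 557087) (nat_lit 11) .nil)))) (.g (nat_lit 0) (.e (nat_lit 11287) (nat_lit 0) .nil) .nil)))) (.nd (nat_lit 9) 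
(.lf (nat_lit 448997) (.g (nat_lit 2803) (.e (nat_lit 503) (nat_lit 40) (.e (nat_lit 491568) (nat_lit 13) (.e (nat_lit 393301) (nat_lit 27) (.e (nat_lit 491560) (nat_lit 10) (.e (nat_lit 344178) (nat_lit 44) .nil))))) (.g (nat_lit 0) (.e (nat_lit 10314) (nat_lit 0) .nil) .nil))) 
(.lf (nat_lit 449509) (.g (nat_lit 2443) (.e (nat_lit 848) (nat_lit 73) (.e (nat_lit 761914) (nat_lit 18) (.e (nat_lit 188434) (nat_lit 20) (.e (nat_lit 3469) (nat_lit 217) (.e (nat_lit 696344) (nat_lit 8) (.e (nat_lit 172079) (nat_lit 7) (.e (nat_lit 409611) (nat_lit 10) .nil))))))) (.g (nat_lit 1) (.e (nat_lit 12535) (nat_lit 0) .nil) .nil)))))))) 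
(.nd (nat_lit 5) (.nd (nat_lit 6) (.nd (nat_lit 7) (.nd (nat_lit 8) (.nd (nat_lit 9) 
(.lf (nat_lit 448533) (.g (nat_lit 3010) (.e (nat_lit 430) (nat_lit 32) (.e (nat_lit 426344) (nat_lit 14) (.e (nat_lit 491539) (nat_lit 3) (.e (nat_lit 98373) (nat_lit 29) (.e (nat_lit 450587) (nat_lit 10) (.e (nat_lit 573452) (nat_lit 9) .nil)))))) (.g (nat_lit 1) (.e (nat_lit 6029) (nat_lit 0) .nil) .nil))) 
(.lf (nat_lit 449045) (.g (nat_lit 3642) (.e (nat_lit 226) (nat_lit 21) (.e (nat_lit 336369) (nat_lit 27) (.e (nat_lit 426173) (nat_lit 7) (.e (nat_lit 409617) (nat_lit 10) (.e (nat_lit 632) (nat_lit 50) (.e (nat_lit 573487) (nat_lit 14) (.e (nat_lit 81664) (nat_lit 32) .nil))))))) (.g (nat_lit 1) (.e (nat_lit 10411) (nat_lit 0) .nil) .nil)))) (.nd (nat_lit 9) 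
(.lf (nat_lit 448789) (.g (nat_lit 1883) (.e (nat_lit 492) (nat_lit 39) (.e (nat_lit 483365) (nat_lit 18) (.e (nat_lit 57849) (nat_lit 252) (.e (nat_lit 57367) (nat_lit 1) .nil)))) (.g (nat_lit 0) (.e (nat_lit 9742) (nat_lit 0) .nil) .nil))) 
(.lf (nat_lit 449301) (.g (nat_lit 1959) (.e (nat_lit 605) (nat_lit 45) (.e (nat_lit 532513) (nat_lit 3) (.e (nat_lit 114714) (nat_lit 22) (.e (nat_lit 90172) (nat_lit 14) (.e (nat_lit 180244) (nat_lit 5) .nil))))) (.g (nat_lit 0) (.e (nat_lit 11456) (nat_lit 0) .nil) .nil))))) (.nd (nat_lit 8) (.nd (nat_lit 9) 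
(.lf (nat_lit 448661) (.g (nat_lit 523) (.e (nat_lit 452) (nat_lit 33) (.e (nat_lit 434219) (nat_lit 19) (.e (nat_lit 500059) (nat_lit 18) .nil))) (.g (nat_lit 0) (.e (nat_lit 6939) (nat_lit 0) .nil) .nil))) 
(.lf (nat_lit 449173) (.g (nat_lit 2326) (.e (nat_lit 300) (nat_lit 22) (.e (nat_lit 344069) (nat_lit 0) (.e (nat_lit 3090) (nat_lit 191) (.e (nat_lit 483372) (nat_lit 21) (.e (nat_lit 319504) (nat_lit 10) (.e (nat_lit 7936) (nat_lit 312) .nil)))))) (.g (nat_lit 1) (.e (nat_lit 10969) (nat_lit 0) .nil) .nil)))) (.nd (nat_lit 9) 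
(.lf (nat_lit 448917) (.g (nat_lit 3597) (.e (nat_lit 498) (nat_lit 40) (.e (nat_lit 491568) (nat_lit 13) (.e (nat_lit 393301) (nat_lit 27) (.e (nat_lit 491560) (nat_lit 10) (.e (nat_lit 344094) (nat_lit 18) (.e (nat_lit 7454) (nat_lit 396) (.e (nat_lit 992) (nat_lit 81) .nil))))))) (.g (nat_lit 1) (.e (nat_lit 10170) (nat_lit 0) .nil) .nil))) 
(.lf (nat_lit 449429) (.g (nat_lit 1917) (.e (nat_lit 632) (nat_lit 50) (.e (nat_lit 573489) (nat_lit 14) (.e (nat_lit 73755) (nat_lit 8) (.e (nat_lit 557097) (nat_lit 13) (.e (nat_lit 172065) (nat_lit 3) .nil))))) (.g (nat_lit 0) (.e (nat_lit 11883) (nat_lit 0) .nil) .nil)))))) (.nd (nat_lit 7) (.nd (nat_lit 8) (.nd (nat_lit 9) 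
(.lf (nat_lit 448597) (.g (nat_lit 1911) (.e (nat_lit 7936) (nat_lit 32) (.e (nat_lit 426347) (nat_lit 14) (.e (nat_lit 491549) (nat_lit 9) (.e (nat_lit 336438) (nat_lit 31) (.e (nat_lit 458769) (nat_lit 16) .nil))))) (.g (nat_lit 0) (.e (nat_lit 6202) (nat_lit 0) .nil) .nil))) 
(.lf (nat_lit 449109) (.g (nat_lit 4829) (.e (nat_lit 285) (nat_lit 21) (.e (nat_lit 336226) (nat_lit 14) (.e (nat_lit 401459) (nat_lit 13) (.e (nat_lit 483372) (nat_lit 21) (.e (nat_lit 319502) (nat_lit 10) .nil))))) (.g (nat_lit 0) (.e (nat_lit 10746) (nat_lit 0) .nil) .nil)))) (.nd (nat_lit 9) 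
(.lf (nat_lit 448853) (.g (nat_lit 916) (.e (nat_lit 496) (nat_lit 39) (.e (nat_lit 483382) (nat_lit 23) (.e (nat_lit 336316) (nat_lit 17) (.e (nat_lit 196698) (nat_lit 19) .nil)))) (.g (nat_lit 0) (.e (nat_lit 9944) (nat_lit 0) .nil) .nil))) 
(.lf (nat_lit 449365) (.g (nat_lit 2972) (.e (nat_lit 632) (nat_lit 50) (.e (nat_lit 573482) (nat_lit 13) (.e (nat_lit 65604) (nat_lit 9) (.e (nat_lit 336028) (nat_lit 3) (.e (nat_lit 98366) (nat_lit 27) (.e (nat_lit 434275) (nat_lit 39) (.e (nat_lit 663589) (nat_lit 14) (.e (nat_lit 2449) (nat_lit 157) .nil)))))))) (.g (nat_lit 1) (.e (nat_lit 11754) (nat_lit 0) .nil) .nil))))) 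
(.nd (nat_lit 8) (.nd (nat_lit 9) 
(.lf (nat_lit 448725) (.g (nat_lit 3125) (.e (nat_lit 459) (nat_lit 34) (.e (nat_lit 442379) (nat_lit 0) (.e (nat_lit 1856) (nat_lit 124) (.e (nat_lit 557100) (nat_lit 13) (.e (nat_lit 172113) (nat_lit 10) (.e (nat_lit 434245) (nat_lit 28) (.e (nat_lit 573449) (nat_lit 9) .nil))))))) (.g (nat_lit 1) (.e (nat_lit 7562) (nat_lit 0) .nil) .nil))) 
(.lf (nat_lit 449237) (.g (nat_lit 3072) (.e (nat_lit 595) (nat_lit 45) (.e (nat_lit 532535) (nat_lit 9) (.e (nat_lit 336099) (nat_lit 9) (.e (nat_lit 336013) (nat_lit 2) (.e (nat_lit 90165) (nat_lit 12) (.e (nat_lit 164218) (nat_lit 179) (.e (nat_lit 164262) (nat_lit 221) (.e (nat_lit 1052) (nat_lit 81) .nil)))))))) (.g (nat_lit 1) (.e (nat_lit 11243) (nat_lit 0) .nil) .nil)))) (.nd (nat_lit 9) 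
(.lf (nat_lit 448981) (.g (nat_lit 4176) (.e (nat_lit 502) (nat_lit 40) (.e (nat_lit 491563) (nat_lit 12) (.e (nat_lit 385074) (nat_lit 31) (.e (nat_lit 573491) (nat_lit 15) .nil)))) (.g (nat_lit 0) (.e (nat_lit 10285) (nat_lit 0) .nil) .nil))) 
(.lf (nat_lit 449493) (.g (nat_lit 1499) (.e (nat_lit 632) (nat_lit 50) (.e (nat_lit 573493) (nat_lit 15) (.e (nat_lit 81957) (nat_lit 24) (.e (nat_lit 130816) (nat_lit 146) .nil)))) (.g (nat_lit 0) (.e (nat_lit 12162) (nat_lit 0) .nil) .nil))))))) (.nd (nat_lit 6) (.nd (nat_lit 7) (.nd (nat_lit 8) (.nd (nat_lit 9) 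
(.lf (nat_lit 448565) (.g (nat_lit 3352) (.e (nat_lit 435) (nat_lit 32) (.e (nat_lit 426121) (nat_lit 2) (.e (nat_lit 196666) (nat_lit 13) (.e (nat_lit 65617) (nat_lit 10) (.e (nat_lit 344132) (nat_lit 26) (.e (nat_lit 557094) (nat_lit 12) (.e (nat_lit 164022) (nat_lit 46) (.e (nat_lit 704628) (nat_lit 9) .nil)))))))) (.g (nat_lit 1) (.e (nat_lit 6110) (nat_lit 0) .nil) .nil))) 
(.lf (nat_lit 449077) (.g (nat_lit 789) (.e (nat_lit 249) (nat_lit 21) (.e (nat_lit 336232) (nat_lit 14) (.e (nat_lit 401414) (nat_lit 0) .nil))) (.g (nat_lit 0) (.e (nat_lit 10560) (nat_lit 0) .nil) .nil)))) (.nd (nat_lit 9) 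
(.lf (nat_lit 448821) (.g (nat_lit 2059) (.e (nat_lit 496) (nat_lit 39) (.e (nat_lit 483365) (nat_lit 18) (.e (nat_lit 57849) (nat_lit 252) (.e (nat_lit 57377) (nat_lit 3) .nil)))) (.g (nat_lit 0) (.e (nat_lit 9905) (nat_lit 0) .nil) .nil))) 
(.lf (nat_lit 449333) (.g (nat_lit 1649) (.e (nat_lit 580) (nat_lit 43) (.e (nat_lit 516106) (nat_lit 0) (.e (nat_lit 3459) (nat_lit 216) (.e (nat_lit 688139) (nat_lit 5) .nil)))) (.g (nat_lit 0) (.e (nat_lit 11517) (nat_lit 0) .nil) .nil))))) (.nd (nat_lit 8) (.nd (nat_lit 9) 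
(.lf (nat_lit 448693) (.g (nat_lit 599) (.e (nat_lit 7936) (nat_lit 33) (.e (nat_lit 434180) (nat_lit 0) (.e (nat_lit 1428) (nat_lit 108) (.e (nat_lit 336421) (nat_lit 28) .nil)))) (.g (nat_lit 0) (.e (nat_lit 7157) (nat_lit 0) .nil) .nil))) 
(.lf (nat_lit 449205) (.g (nat_lit 1991) (.e (nat_lit 355) (nat_lit 29) (.e (nat_lit 401454) (nat_lit 12) (.e (nat_lit 475197) (nat_lit 40) (.e (nat_lit 704595) (nat_lit 5) (.e (nat_lit 180291) (nat_lit 48) .nil))))) (.g (nat_lit 0) (.e (nat_lit 11161) (nat_lit 0) .nil) .nil)))) (.nd (nat_lit 9) 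
(.lf (nat_lit 448949) (.g (nat_lit 3795) (.e (nat_lit 500) (nat_lit 40) (.e (nat_lit 491563) (nat_lit 12) (.e (nat_lit 385074) (nat_lit 31) (.e (nat_lit 573484) (nat_lit 13) .nil)))) (.g (nat_lit 0) (.e (nat_lit 10225) (nat_lit 0) .nil) .nil))) 
(.lf (nat_lit 449461) (.g (nat_lit 1374) (.e (nat_lit 632) (nat_lit 50) (.e (nat_lit 573489) (nat_lit 14) (.e (nat_lit 73755) (nat_lit 8) (.e (nat_lit 557105) (nat_lit 14) .nil)))) (.g (nat_lit 0) (.e (nat_lit 11959) (nat_lit 0) .nil) .nil)))))) (.nd (nat_lit 7) (.nd (nat_lit 8) (.nd (nat_lit 9) 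
(.lf (nat_lit 448629) (.g (nat_lit 2159) (.e (nat_lit 446) (nat_lit 33) (.e (nat_lit 434180) (nat_lit 0) (.e (nat_lit 1427) (nat_lit 108) (.e (nat_lit 336421) (nat_lit 28) (.e (nat_lit 434197) (nat_lit 16) (.e (nat_lit 164340) (nat_lit 232) .nil)))))) (.g (nat_lit 1) (.e (nat_lit 6626) (nat_lit 0) .nil) .nil))) 
(.lf (nat_lit 449141) (.g (nat_lit 2307) (.e (nat_lit 299) (nat_lit 22) (.e (nat_lit 344069) (nat_lit 0) (.e (nat_lit 3090) (nat_lit 191) (.e (nat_lit 483372) (nat_lit 21) (.e (nat_lit 319504) (nat_lit 10) (.e (nat_lit 7936) (nat_lit 312) .nil)))))) (.g (nat_lit 1) (.e (nat_lit 10909) (nat_lit 0) .nil) .nil)))) (.nd (nat_lit 9) 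
(.lf (nat_lit 448885) (.g (nat_lit 1439) (.e (nat_lit 496) (nat_lit 39) (.e (nat_lit 483413) (nat_lit 27) (.e (nat_lit 409344) (nat_lit 17) (.e (nat_lit 90172) (nat_lit 14) (.e (nat_lit 188160) (nat_lit 32) .nil))))) (.g (nat_lit 1) (.e (nat_lit 10043) (nat_lit 0) .nil) .nil))) 
(.lf (nat_lit 449397) (.g (nat_lit 1927) (.e (nat_lit 632) (nat_lit 50) (.e (nat_lit 573485) (nat_lit 13) (.e (nat_lit 65619) (nat_lit 10) (.e (nat_lit 344090) (nat_lit 18) (.e (nat_lit 6848) (nat_lit 371) .nil))))) (.g (nat_lit 0) (.e (nat_lit 11825) (nat_lit 0) .nil) .nil))))) (.nd (nat_lit 8) (.nd (nat_lit 9) 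
(.lf (nat_lit 448757) (.g (nat_lit 4193) (.e (nat_lit 473) (nat_lit 36) (.e (nat_lit 458788) (nat_lit 23) (.e (nat_lit 532550) (nat_lit 12) (.e (nat_lit 360474) (nat_lit 8) (.e (nat_lit 557094) (nat_lit 12) (.e (nat_lit 164022) (nat_lit 46) (.e (nat_lit 704626) (nat_lit 9) .nil))))))) (.g (nat_lit 1) (.e (nat_lit 9178) (nat_lit 0) .nil) .nil))) 
(.lf (nat_lit 449269) (.g (nat_lit 1959) (.e (nat_lit 601) (nat_lit 45) (.e (nat_lit 532513) (nat_lit 3) (.e (nat_lit 114714) (nat_lit 22) (.e (nat_lit 90172) (nat_lit 14) (.e (nat_lit 180244) (nat_lit 5) .nil))))) (.g (nat_lit 0) (.e (nat_lit 11369) (nat_lit 0) .nil) .nil)))) (.nd (nat_lit 9) 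
(.lf (nat_lit 449013) (.g (nat_lit 4257) (.e (nat_lit 214) (nat_lit 19) (.e (nat_lit 319490) (nat_lit 0) (.e (nat_lit 5761) (nat_lit 315) (.e (nat_lit 163962) (nat_lit 25) (.e (nat_lit 532535) (nat_lit 9) (.e (nat_lit 336176) (nat_lit 10) (.e (nat_lit 344133) (nat_lit 26) (.e (nat_lit 557068) (nat_lit 9) .nil)))))))) (.g (nat_lit 1) (.e (nat_lit 10343) (nat_lit 0) .nil) .nil))) 
(.lf (nat_lit 449525) (.g (nat_lit 657) (.e (nat_lit 7936) (nat_lit 74) (.e (nat_lit 770072) (nat_lit 8) (.e (nat_lit 65584) (nat_lit 7) .nil))) (.g (nat_lit 0) (.e (nat_lit 12583) (nat_lit 0) .nil) .nil))))))))) (.nd (nat_lit 4) (.nd (nat_lit 5) (.nd (nat_lit 6) (.nd (nat_lit 7) (.nd (nat_lit 8) (.nd (nat_lit 9) 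
(.lf (nat_lit 448525) (.g (nat_lit 3756) (.e (nat_lit 430) (nat_lit 32) (.e (nat_lit 426344) (nat_lit 14) (.e (nat_lit 491530) (nat_lit 0) (.e (nat_lit 1796) (nat_lit 119) (.e (nat_lit 516166) (nat_lit 12) (.e (nat_lit 450588) (nat_lit 10) (.e (nat_lit 573452) (nat_lit 9) .nil))))))) (.g (nat_lit 1) (.e (nat_lit 6021) (nat_lit 0) .nil) .nil))) 
(.lf (nat_lit 449037) (.g (nat_lit 2171) (.e (nat_lit 220) (nat_lit 20) (.e (nat_lit 327700) (nat_lit 8) (.e (nat_lit 303119) (nat_lit 3) (.e (nat_lit 204868) (nat_lit 29) (.e (nat_lit 360473) (nat_lit 8) (.e (nat_lit 557073) (nat_lit 9) .nil)))))) (.g (nat_lit 1) (.e (nat_lit 10395) (nat_lit 0) .nil) .nil)))) (.nd (nat_lit 9) 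
(.lf (nat_lit 448781) (.g (nat_lit 1669) (.e (nat_lit 492) (nat_lit 39) (.e (nat_lit 483365) (nat_lit 18) (.e (nat_lit 57846) (nat_lit 252) (.e (nat_lit 57365) (nat_lit 1) (.e (nat_lit 57854) (nat_lit 252) .nil))))) (.g (nat_lit 0) (.e (nat_lit 9732) (nat_lit 0) .nil) .nil))) 
(.lf (nat_lit 449293) (.g (nat_lit 1149) (.e (nat_lit 604) (nat_lit 45) (.e (nat_lit 532504) (nat_lit 1) (.e (nat_lit 57931) (nat_lit 282) .nil))) (.g (nat_lit 0) (.e (nat_lit 11416) (nat_lit 0) .nil) .nil))))) (.nd (nat_lit 8) (.nd (nat_lit 9) 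
(.lf (nat_lit 448653) (.g (nat_lit 3845) (.e (nat_lit 449) (nat_lit 33) (.e (nat_lit 434231) (nat_lit 23) (.e (nat_lit 532550) (nat_lit 12) (.e (nat_lit 360474) (nat_lit 8) (.e (nat_lit 557094) (nat_lit 12) (.e (nat_lit 164022) (nat_lit 46) (.e (nat_lit 704628) (nat_lit 9) .nil))))))) (.g (nat_lit 1) (.e (nat_lit 6784) (nat_lit 0) .nil) .nil))) 
(.lf (nat_lit 449165) (.g (nat_lit 2985) (.e (nat_lit 300) (nat_lit 22) (.e (nat_lit 344069) (nat_lit 0) (.e (nat_lit 3090) (nat_lit 191) (.e (nat_lit 483350) (nat_lit 17) (.e (nat_lit 6218) (nat_lit 333) (.e (nat_lit 57863) (nat_lit 256) .nil)))))) (.g (nat_lit 1) (.e (nat_lit 10961) (nat_lit 0) .nil) .nil)))) (.nd (nat_lit 9) 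
(.lf (nat_lit 448909) (.g (nat_lit 2915) (.e (nat_lit 498) (nat_lit 40) (.e (nat_lit 491563) (nat_lit 12) (.e (nat_lit 385068) (nat_lit 26) (.e (nat_lit 532515) (nat_lit 3) (.e (nat_lit 122624) (nat_lit 12) (.e (nat_lit 434248) (nat_lit 28) (.e (nat_lit 573452) (nat_lit 9) .nil))))))) (.g (nat_lit 1) (.e (nat_lit 10140) (nat_lit 0) .nil) .nil))) 
(.lf (nat_lit 449421) (.g (nat_lit 2377) (.e (nat_lit 632) (nat_lit 50) (.e (nat_lit 573489) (nat_lit 14) (.e (nat_lit 73754) (nat_lit 8) (.e (nat_lit 557101) (nat_lit 13) (.e (nat_lit 172067) (nat_lit 3) (.e (nat_lit 212736) (nat_lit 7) (.e (nat_lit 409616) (nat_lit 10) .nil))))))) (.g (nat_lit 1) (.e (nat_lit 11870) (nat_lit 0) .nil) .nil)))))) (.nd (nat_lit 7) (.nd (nat_lit 8) (.nd (nat_lit 9) 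
(.lf (nat_lit 448589) (.g (nat_lit 2579) (.e (nat_lit 7936) (nat_lit 32) (.e (nat_lit 426306) (nat_lit 12) (.e (nat_lit 475185) (nat_lit 29) (.e (nat_lit 557101) (nat_lit 13) (.e (nat_lit 172115) (nat_lit 10) .nil))))) (.g (nat_lit 0) (.e (nat_lit 6187) (nat_lit 0) .nil) .nil))) 
(.lf (nat_lit 449101) (.g (nat_lit 549) (.e (nat_lit 276) (nat_lit 21) (.e (nat_lit 336086) (nat_lit 9) (.e (nat_lit 336421) (nat_lit 28) .nil))) (.g (nat_lit 0) (.e (nat_lit 10595) (nat_lit 0) .nil) .nil)))) (.nd (nat_lit 9) 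
(.lf (nat_lit 448845) (.g (nat_lit 1944) (.e (nat_lit 496) (nat_lit 39) (.e (nat_lit 483380) (nat_lit 23) (.e (nat_lit 336316) (nat_lit 17) (.e (nat_lit 196698) (nat_lit 19) (.e (nat_lit 57809) (nat_lit 246) (.e (nat_lit 57883) (nat_lit 270) .nil)))))) (.g (nat_lit 1) (.e (nat_lit 9935) (nat_lit 0) .nil) .nil))) 
(.lf (nat_lit 449357) (.g (nat_lit 4699) (.e (nat_lit 7936) (nat_lit 43) (.e (nat_lit 516166) (nat_lit 12) (.e (nat_lit 450587) (nat_lit 10) (.e (nat_lit 573450) (nat_lit 9) .nil)))) (.g (nat_lit 0) (.e (nat_lit 11661) (nat_lit 0) .nil) .nil))))) (.nd (nat_lit 8) (.nd (nat_lit 9) 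
(.lf (nat_lit 448717) (.g (nat_lit 4047) (.e (nat_lit 457) (nat_lit 34) (.e (nat_lit 442379) (nat_lit 0) (.e (nat_lit 1856) (nat_lit 124) (.e (nat_lit 557100) (nat_lit 13) (.e (nat_lit 172106) (nat_lit 10) (.e (nat_lit 434244) (nat_lit 28) (.e (nat_lit 573450) (nat_lit 9) .nil))))))) (.g (nat_lit 1) (.e (nat_lit 7441) (nat_lit 0) .nil) .nil))) 
(.lf (nat_lit 449229) (.g (nat_lit 4649) (.e (nat_lit 594) (nat_lit 45) (.e (nat_lit 532550) (nat_lit 12) (.e (nat_lit 360475) (nat_lit 8) (.e (nat_lit 557066) (nat_lit 9) .nil)))) (.g (nat_lit 0) (.e (nat_lit 11228) (nat_lit 0) .nil) .nil)))) (.nd (nat_lit 9) 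
(.lf (nat_lit 448973) (.g (nat_lit 3005) (.e (nat_lit 501) (nat_lit 40) (.e (nat_lit 491569) (nat_lit 13) (.e (nat_lit 393301) (nat_lit 27) (.e (nat_lit 491560) (nat_lit 10) (.e (nat_lit 344094) (nat_lit 18) .nil))))) (.g (nat_lit 0) (.e (nat_lit 10273) (nat_lit 0) .nil) .nil))) 
(.lf (nat_lit 449485) (.g (nat_lit 1779) (.e (nat_lit 632) (nat_lit 50) (.e (nat_lit 573491) (nat_lit 15) (.e (nat_lit 81943) (nat_lit 20) (.e (nat_lit 2391) (nat_lit 156) (.e (nat_lit 819219) (nat_lit 4) (.e (nat_lit 172079) (nat_lit 7) (.e (nat_lit 409615) (nat_lit 10) .nil))))))) (.g (nat_lit 1) (.e (nat_lit 12021) (nat_lit 0) .nil) .nil))))))) 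
(.nd (nat_lit 6) (.nd (nat_lit 7) (.nd (nat_lit 8) (.nd (nat_lit 9) 
(.lf (nat_lit 448557) (.g (nat_lit 4510) (.e (nat_lit 433) (nat_lit 32) (.e (nat_lit 426347) (nat_lit 14) (.e (nat_lit 491540) (nat_lit 3) (.e (nat_lit 98373) (nat_lit 29) (.e (nat_lit 450587) (nat_lit 10) (.e (nat_lit 573449) (nat_lit 9) .nil)))))) (.g (nat_lit 1) (.e (nat_lit 6087) (nat_lit 0) .nil) .nil))) 
(.lf (nat_lit 449069) (.g (nat_lit 1440) (.e (nat_lit 236) (nat_lit 21) (.e (nat_lit 336456) (nat_lit 34) (.e (nat_lit 483372) (nat_lit 21) .nil))) (.g (nat_lit 0) (.e (nat_lit 10479) (nat_lit 0) .nil) .nil)))) (.nd (nat_lit 9) 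
(.lf (nat_lit 448813) (.g (nat_lit 2019) (.e (nat_lit 496) (nat_lit 39) (.e (nat_lit 483364) (nat_lit 18) (.e (nat_lit 57854) (nat_lit 252) (.e (nat_lit 57378) (nat_lit 3) (.e (nat_lit 98309) (nat_lit 0) .nil))))) (.g (nat_lit 0) (.e (nat_lit 9880) (nat_lit 0) .nil) .nil))) 
(.lf (nat_lit 449325) (.g (nat_lit 4968) (.e (nat_lit 576) (nat_lit 43) (.e (nat_lit 516166) (nat_lit 12) (.e (nat_lit 450588) (nat_lit 10) (.e (nat_lit 573471) (nat_lit 11) (.e (nat_lit 16425) (nat_lit 7) .nil))))) (.g (nat_lit 0) (.e (nat_lit 11501) (nat_lit 0) .nil) .nil))))) (.nd (nat_lit 8) (.nd (nat_lit 9) 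
(.lf (nat_lit 448685) (.g (nat_lit 4362) (.e (nat_lit 452) (nat_lit 33) (.e (nat_lit 434231) (nat_lit 23) (.e (nat_lit 532550) (nat_lit 12) (.e (nat_lit 360474) (nat_lit 8) (.e (nat_lit 557093) (nat_lit 12) (.e (nat_lit 164022) (nat_lit 46) (.e (nat_lit 704628) (nat_lit 9) .nil))))))) (.g (nat_lit 1) (.e (nat_lit 7004) (nat_lit 0) .nil) .nil))) 
(.lf (nat_lit 449197) (.g (nat_lit 1404) (.e (nat_lit 351) (nat_lit 28) (.e (nat_lit 393251) (nat_lit 18) (.e (nat_lit 164325) (nat_lit 230) (.e (nat_lit 163875) (nat_lit 3) .nil)))) (.g (nat_lit 0) (.e (nat_lit 11138) (nat_lit 0) .nil) .nil)))) (.nd (nat_lit 9) 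
(.lf (nat_lit 448941) (.g (nat_lit 2790) (.e (nat_lit 499) (nat_lit 40) (.e (nat_lit 491568) (nat_lit 13) (.e (nat_lit 393301) (nat_lit 27) (.e (nat_lit 491560) (nat_lit 10) (.e (nat_lit 344178) (nat_lit 44) .nil))))) (.g (nat_lit 0) (.e (nat_lit 10211) (nat_lit 0) .nil) .nil))) 
(.lf (nat_lit 449453) (.g (nat_lit 2366) (.e (nat_lit 632) (nat_lit 50) (.e (nat_lit 573489) (nat_lit 14) (.e (nat_lit 73755) (nat_lit 8) (.e (nat_lit 557104) (nat_lit 14) (.e (nat_lit 180243) (nat_lit 5) (.e (nat_lit 540416) (nat_lit 24) (.e (nat_lit 409616) (nat_lit 10) .nil))))))) (.g (nat_lit 1) (.e (nat_lit 11933) (nat_lit 0) .nil) .nil)))))) 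
(.nd (nat_lit 7) (.nd (nat_lit 8) (.nd (nat_lit 9) 
(.lf (nat_lit 448621) (.g (nat_lit 1996) (.e (nat_lit 442) (nat_lit 33) (.e (nat_lit 434233) (nat_lit 23) (.e (nat_lit 532501) (nat_lit 1) (.e (nat_lit 57730) (nat_lit 181) (.e (nat_lit 1187) (nat_lit 88) (.e (nat_lit 65652) (nat_lit 27) (.e (nat_lit 426163) (nat_lit 6) (.e (nat_lit 253963) (nat_lit 9) .nil)))))))) (.g (nat_lit 1) (.e (nat_lit 6282) (nat_lit 0) .nil) .nil))) 
(.lf (nat_lit 449133) (.g (nat_lit 2296) (.e (nat_lit 297) (nat_lit 22) (.e (nat_lit 344069) (nat_lit 0) (.e (nat_lit 3090) (nat_lit 191) (.e (nat_lit 483372) (nat_lit 21) (.e (nat_lit 319504) (nat_lit 10) (.e (nat_lit 7936) (nat_lit 312) .nil)))))) (.g (nat_lit 1) (.e (nat_lit 10894) (nat_lit 0) .nil) .nil)))) (.nd (nat_lit 9) 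
(.lf (nat_lit 448877) (.g (nat_lit 1831) (.e (nat_lit 496) (nat_lit 39) (.e (nat_lit 483405) (nat_lit 26) (.e (nat_lit 385057) (nat_lit 22) (.e (nat_lit 499780) (nat_lit 1) (.e (nat_lit 57813) (nat_lit 246) (.e (nat_lit 57878) (nat_lit 270) .nil)))))) (.g (nat_lit 1) (.e (nat_lit 10026) (nat_lit 0) .nil) .nil))) 
(.lf (nat_lit 449389) (.g (nat_lit 2103) (.e (nat_lit 632) (nat_lit 50) (.e (nat_lit 573482) (nat_lit 13) (.e (nat_lit 65619) (nat_lit 10) (.e (nat_lit 344183) (nat_lit 49) (.e (nat_lit 819219) (nat_lit 4) (.e (nat_lit 172079) (nat_lit 7) (.e (nat_lit 409617) (nat_lit 10) .nil))))))) (.g (nat_lit 1) (.e (nat_lit 11785) (nat_lit 0) .nil) .nil))))) (.nd (nat_lit 8) (.nd (nat_lit 9) 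
(.lf (nat_lit 448749) (.g (nat_lit 1228) (.e (nat_lit 7936) (nat_lit 35) (.e (nat_lit 450568) (nat_lit 0) (.e (nat_lit 5201) (nat_lit 294) (.e (nat_lit 57427) (nat_lit 15) (.e (nat_lit 360484) (nat_lit 15) .nil))))) (.g (nat_lit 0) (.e (nat_lit 9005) (nat_lit 0) .nil) .nil))) 
(.lf (nat_lit 449261) (.g (nat_lit 3013) (.e (nat_lit 596) (nat_lit 45) (.e (nat_lit 532535) (nat_lit 9) (.e (nat_lit 336099) (nat_lit 9) (.e (nat_lit 336013) (nat_lit 2) (.e (nat_lit 90165) (nat_lit 12) (.e (nat_lit 164218) (nat_lit 179) (.e (nat_lit 164261) (nat_lit 221) (.e (nat_lit 1050) (nat_lit 81) .nil)))))))) (.g (nat_lit 1) (.e (nat_lit 11313) (nat_lit 0) .nil) .nil)))) (.nd (nat_lit 9) 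
(.lf (nat_lit 449005) (.g (nat_lit 3866) (.e (nat_lit 503) (nat_lit 40) (.e (nat_lit 491571) (nat_lit 13) (.e (nat_lit 393260) (nat_lit 21) (.e (nat_lit 409649) (nat_lit 18) .nil)))) (.g (nat_lit 0) (.e (nat_lit 10323) (nat_lit 0) .nil) .nil))) 
(.lf (nat_lit 449517) (.g (nat_lit 658) (.e (nat_lit 852) (nat_lit 74) (.e (nat_lit 770072) (nat_lit 8) (.e (nat_lit 65584) (nat_lit 7) .nil))) (.g (nat_lit 0) (.e (nat_lit 12575) (nat_lit 0) .nil) .nil)))))))) (.nd (nat_lit 5) (.nd (nat_lit 6) (.nd (nat_lit 7) (.nd (nat_lit 8) (.nd (nat_lit 9) 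
(.lf (nat_lit 448541) (.g (nat_lit 4166) (.e (nat_lit 431) (nat_lit 32) (.e (nat_lit 426338) (nat_lit 14) (.e (nat_lit 491571) (nat_lit 13) (.e (nat_lit 393260) (nat_lit 21) (.e (nat_lit 409616) (nat_lit 10) .nil))))) (.g (nat_lit 0) (.e (nat_lit 6052) (nat_lit 0) .nil) .nil))) 
(.lf (nat_lit 449053) (.g (nat_lit 3523) (.e (nat_lit 232) (nat_lit 21) (.e (nat_lit 335997) (nat_lit 1) (.e (nat_lit 57771) (nat_lit 227) (.e (nat_lit 2610) (nat_lit 163) (.e (nat_lit 163979) (nat_lit 30) (.e (nat_lit 573482) (nat_lit 13) (.e (nat_lit 65619) (nat_lit 10) (.e (nat_lit 344129) (nat_lit 26) (.e (nat_lit 557066) (nat_lit 9) .nil))))))))) (.g (nat_lit 1) (.e (nat_lit 10442) (nat_lit 0) .nil) .nil)))) 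
(.nd (nat_lit 9) 
(.lf (nat_lit 448797) (.g (nat_lit 2504) (.e (nat_lit 493) (nat_lit 39) (.e (nat_lit 483372) (nat_lit 21) (.e (nat_lit 319505) (nat_lit 10) (.e (nat_lit 618) (nat_lit 48) (.e (nat_lit 557105) (nat_lit 14) .nil))))) (.g (nat_lit 0) (.e (nat_lit 9780) (nat_lit 0) .nil) .nil))) 
(.lf (nat_lit 449309) (.g (nat_lit 1615) (.e (nat_lit 7936) (nat_lit 45) (.e (nat_lit 532550) (nat_lit 12) (.e (nat_lit 360450) (nat_lit 0) (.e (nat_lit 4046) (nat_lit 245) .nil)))) (.g (nat_lit 0) (.e (nat_lit 11473) (nat_lit 0) .nil) .nil))))) (.nd (nat_lit 8) (.nd (nat_lit 9) 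
(.lf (nat_lit 448669) (.g (nat_lit 3703) (.e (nat_lit 452) (nat_lit 33) (.e (nat_lit 434231) (nat_lit 23) (.e (nat_lit 532549) (nat_lit 12) (.e (nat_lit 360473) (nat_lit 8) (.e (nat_lit 557093) (nat_lit 12) (.e (nat_lit 164023) (nat_lit 46) (.e (nat_lit 704628) (nat_lit 9) .nil))))))) (.g (nat_lit 1) (.e (nat_lit 6987) (nat_lit 0) .nil) .nil))) 
(.lf (nat_lit 449181) (.g (nat_lit 2112) (.e (nat_lit 300) (nat_lit 22) (.e (nat_lit 344069) (nat_lit 0) (.e (nat_lit 3090) (nat_lit 191) (.e (nat_lit 483372) (nat_lit 21) (.e (nat_lit 327424) (nat_lit 10) .nil))))) (.g (nat_lit 0) (.e (nat_lit 10977) (nat_lit 0) .nil) .nil)))) (.nd (nat_lit 9) 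
(.lf (nat_lit 448925) (.g (nat_lit 2899) (.e (nat_lit 498) (nat_lit 40) (.e (nat_lit 491569) (nat_lit 13) (.e (nat_lit 393301) (nat_lit 27) (.e (nat_lit 491558) (nat_lit 10) (.e (nat_lit 344095) (nat_lit 18) .nil))))) (.g (nat_lit 0) (.e (nat_lit 10178) (nat_lit 0) .nil) .nil))) 
(.lf (nat_lit 449437) (.g (nat_lit 3983) (.e (nat_lit 632) (nat_lit 50) (.e (nat_lit 573489) (nat_lit 14) (.e (nat_lit 73755) (nat_lit 8) (.e (nat_lit 557098) (nat_lit 13) (.e (nat_lit 172065) (nat_lit 3) (.e (nat_lit 212736) (nat_lit 7) (.e (nat_lit 409616) (nat_lit 10) .nil))))))) (.g (nat_lit 1) (.e (nat_lit 11902) (nat_lit 0) .nil) .nil)))))) (.nd (nat_lit 7) (.nd (nat_lit 8) (.nd (nat_lit 9) 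
(.lf (nat_lit 448605) (.g (nat_lit 1119) (.e (nat_lit 7936) (nat_lit 32) (.e (nat_lit 426568) (nat_lit 34) (.e (nat_lit 393260) (nat_lit 21) (.e (nat_lit 409617) (nat_lit 10) .nil)))) (.g (nat_lit 0) (.e (nat_lit 6211) (nat_lit 0) .nil) .nil))) 
(.lf (nat_lit 449117) (.g (nat_lit 1412) (.e (nat_lit 290) (nat_lit 21) (.e (nat_lit 335894) (nat_lit 0) (.e (nat_lit 6712) (nat_lit 360) (.e (nat_lit 163962) (nat_lit 25) .nil)))) (.g (nat_lit 0) (.e (nat_lit 10788) (nat_lit 0) .nil) .nil)))) (.nd (nat_lit 9) 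
(.lf (nat_lit 448861) (.g (nat_lit 666) (.e (nat_lit 496) (nat_lit 39) (.e (nat_lit 483383) (nat_lit 23) (.e (nat_lit 336316) (nat_lit 17) .nil))) (.g (nat_lit 0) (.e (nat_lit 9957) (nat_lit 0) .nil) .nil))) 
(.lf (nat_lit 449373) (.g (nat_lit 2509) (.e (nat_lit 632) (nat_lit 50) (.e (nat_lit 573482) (nat_lit 13) (.e (nat_lit 65619) (nat_lit 10) (.e (nat_lit 344090) (nat_lit 18) (.e (nat_lit 7708) (nat_lit 414) (.e (nat_lit 163908) (nat_lit 12) (.e (nat_lit 426173) (nat_lit 7) (.e (nat_lit 409617) (nat_lit 10) .nil)))))))) (.g (nat_lit 1) (.e (nat_lit 11767) (nat_lit 0) .nil) .nil))))) 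
(.nd (nat_lit 8) (.nd (nat_lit 9) 
(.lf (nat_lit 448733) (.g (nat_lit 2036) (.e (nat_lit 463) (nat_lit 34) (.e (nat_lit 442379) (nat_lit 0) (.e (nat_lit 2059) (nat_lit 142) (.e (nat_lit 704595) (nat_lit 5) (.e (nat_lit 180291) (nat_lit 48) (.e (nat_lit 164338) (nat_lit 232) .nil)))))) (.g (nat_lit 1) (.e (nat_lit 7809) (nat_lit 0) .nil) .nil))) 
(.lf (nat_lit 449245) (.g (nat_lit 2888) (.e (nat_lit 595) (nat_lit 45) (.e (nat_lit 532550) (nat_lit 12) (.e (nat_lit 360475) (nat_lit 8) (.e (nat_lit 557068) (nat_lit 9) .nil)))) (.g (nat_lit 0) (.e (nat_lit 11274) (nat_lit 0) .nil) .nil)))) (.nd (nat_lit 9) 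
(.lf (nat_lit 448989) (.g (nat_lit 4212) (.e (nat_lit 502) (nat_lit 40) (.e (nat_lit 491571) (nat_lit 13) (.e (nat_lit 393260) (nat_lit 21) (.e (nat_lit 409646) (nat_lit 18) .nil)))) (.g (nat_lit 0) (.e (nat_lit 10302) (nat_lit 0) .nil) .nil))) 
(.lf (nat_lit 449501) (.g (nat_lit 2147) (.e (nat_lit 618) (nat_lit 48) (.e (nat_lit 557105) (nat_lit 14) (.e (nat_lit 180252) (nat_lit 10) (.e (nat_lit 573488) (nat_lit 14) (.e (nat_lit 73755) (nat_lit 8) .nil))))) (.g (nat_lit 0) (.e (nat_lit 12284) (nat_lit 0) .nil) .nil))))))) (.nd (nat_lit 6) (.nd (nat_lit 7) (.nd (nat_lit 8) (.nd (nat_lit 9) 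
(.lf (nat_lit 448573) (.g (nat_lit 3522) (.e (nat_lit 435) (nat_lit 32) (.e (nat_lit 426123) (nat_lit 2) (.e (nat_lit 196666) (nat_lit 13) (.e (nat_lit 65617) (nat_lit 10) (.e (nat_lit 344132) (nat_lit 26) .nil))))) (.g (nat_lit 0) (.e (nat_lit 6118) (nat_lit 0) .nil) .nil))) 
(.lf (nat_lit 449085) (.g (nat_lit 1826) (.e (nat_lit 258) (nat_lit 21) (.e (nat_lit 336228) (nat_lit 14) (.e (nat_lit 401458) (nat_lit 13) (.e (nat_lit 483350) (nat_lit 17) (.e (nat_lit 6225) (nat_lit 334) .nil))))) (.g (nat_lit 0) (.e (nat_lit 10575) (nat_lit 0) .nil) .nil)))) (.nd (nat_lit 9) 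
(.lf (nat_lit 448829) (.g (nat_lit 1992) (.e (nat_lit 496) (nat_lit 39) (.e (nat_lit 483372) (nat_lit 21) (.e (nat_lit 319504) (nat_lit 10) (.e (nat_lit 618) (nat_lit 48) (.e (nat_lit 557104) (nat_lit 14) .nil))))) (.g (nat_lit 0) (.e (nat_lit 9917) (nat_lit 0) .nil) .nil))) 
(.lf (nat_lit 449341) (.g (nat_lit 3437) (.e (nat_lit 583) (nat_lit 43) (.e (nat_lit 516151) (nat_lit 9) (.e (nat_lit 426286) (nat_lit 10) (.e (nat_lit 434245) (nat_lit 28) .nil)))) (.g (nat_lit 0) (.e (nat_lit 11552) (nat_lit 0) .nil) .nil))))) (.nd (nat_lit 8) (.nd (nat_lit 9) 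
(.lf (nat_lit 448701) (.g (nat_lit 1905) (.e (nat_lit 456) (nat_lit 34) (.e (nat_lit 442374) (nat_lit 0) (.e (nat_lit 2059) (nat_lit 142) (.e (nat_lit 704595) (nat_lit 5) (.e (nat_lit 180292) (nat_lit 49) .nil))))) (.g (nat_lit 0) (.e (nat_lit 7336) (nat_lit 0) .nil) .nil))) 
(.lf (nat_lit 449213) (.g (nat_lit 1304) (.e (nat_lit 558) (nat_lit 41) (.e (nat_lit 499919) (nat_lit 9) (.e (nat_lit 172113) (nat_lit 10) (.e (nat_lit 434245) (nat_lit 28) .nil)))) (.g (nat_lit 0) (.e (nat_lit 11197) (nat_lit 0) .nil) .nil)))) (.nd (nat_lit 9) 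
(.lf (nat_lit 448957) (.g (nat_lit 2958) (.e (nat_lit 500) (nat_lit 40) (.e (nat_lit 491568) (nat_lit 13) (.e (nat_lit 393301) (nat_lit 27) (.e (nat_lit 491560) (nat_lit 10) (.e (nat_lit 352000) (nat_lit 44) .nil))))) (.g (nat_lit 0) (.e (nat_lit 10240) (nat_lit 0) .nil) .nil))) 
(.lf (nat_lit 449469) (.g (nat_lit 1829) (.e (nat_lit 632) (nat_lit 50) (.e (nat_lit 573489) (nat_lit 14) (.e (nat_lit 73755) (nat_lit 8) (.e (nat_lit 557105) (nat_lit 14) (.e (nat_lit 180252) (nat_lit 10) (.e (nat_lit 573442) (nat_lit 0) (.e (nat_lit 2822) (nat_lit 182) (.e (nat_lit 409612) (nat_lit 10) .nil)))))))) (.g (nat_lit 1) (.e (nat_lit 11975) (nat_lit 0) .nil) .nil)))))) 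
(.nd (nat_lit 7) (.nd (nat_lit 8) (.nd (nat_lit 9) 
(.lf (nat_lit 448637) (.g (nat_lit 2384) (.e (nat_lit 447) (nat_lit 33) (.e (nat_lit 434180) (nat_lit 0) (.e (nat_lit 1427) (nat_lit 108) (.e (nat_lit 336421) (nat_lit 28) (.e (nat_lit 434198) (nat_lit 17) (.e (nat_lit 229645) (nat_lit 232) .nil)))))) (.g (nat_lit 1) (.e (nat_lit 6674) (nat_lit 0) .nil) .nil))) 
(.lf (nat_lit 449149) (.g (nat_lit 1924) (.e (nat_lit 300) (nat_lit 22) (.e (nat_lit 344068) (nat_lit 0) (.e (nat_lit 3090) (nat_lit 191) (.e (nat_lit 483372) (nat_lit 21) (.e (nat_lit 319496) (nat_lit 10) (.e (nat_lit 5721) (nat_lit 312) .nil)))))) (.g (nat_lit 1) (.e (nat_lit 10929) (nat_lit 0) .nil) .nil)))) (.nd (nat_lit 9) 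
(.lf (nat_lit 448893) (.g (nat_lit 2128) (.e (nat_lit 497) (nat_lit 39) (.e (nat_lit 483365) (nat_lit 18) (.e (nat_lit 57849) (nat_lit 252) (.e (nat_lit 57368) (nat_lit 1) (.e (nat_lit 57854) (nat_lit 252) .nil))))) (.g (nat_lit 0) (.e (nat_lit 10057) (nat_lit 0) .nil) .nil))) 
(.lf (nat_lit 449405) (.g (nat_lit 427) (.e (nat_lit 632) (nat_lit 50) (.e (nat_lit 573487) (nat_lit 14) (.e (nat_lit 81664) (nat_lit 34) .nil))) (.g (nat_lit 0) (.e (nat_lit 11849) (nat_lit 0) .nil) .nil))))) (.nd (nat_lit 8) (.nd (nat_lit 9) 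
(.lf (nat_lit 448765) (.g (nat_lit 3141) (.e (nat_lit 485) (nat_lit 38) (.e (nat_lit 475185) (nat_lit 29) (.e (nat_lit 557100) (nat_lit 13) (.e (nat_lit 172113) (nat_lit 10) .nil)))) (.g (nat_lit 0) (.e (nat_lit 9640) (nat_lit 0) .nil) .nil))) 
(.lf (nat_lit 449277) (.g (nat_lit 4905) (.e (nat_lit 604) (nat_lit 45) (.e (nat_lit 532499) (nat_lit 1) (.e (nat_lit 57927) (nat_lit 282) (.e (nat_lit 163886) (nat_lit 5) (.e (nat_lit 221212) (nat_lit 22) (.e (nat_lit 196656) (nat_lit 11) (.e (nat_lit 16425) (nat_lit 7) (.e (nat_lit 409617) (nat_lit 10) .nil)))))))) (.g (nat_lit 1) (.e (nat_lit 11382) (nat_lit 0) .nil) .nil)))) (.nd (nat_lit 9) 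
(.lf (nat_lit 449021) (.g (nat_lit 2420) (.e (nat_lit 220) (nat_lit 20) (.e (nat_lit 327681) (nat_lit 0) (.e (nat_lit 5762) (nat_lit 315) (.e (nat_lit 163962) (nat_lit 25) (.e (nat_lit 532550) (nat_lit 12) (.e (nat_lit 360474) (nat_lit 8) (.e (nat_lit 557072) (nat_lit 9) .nil))))))) (.g (nat_lit 1) (.e (nat_lit 10367) (nat_lit 0) .nil) .nil))) 
(.lf (nat_lit 449533) (.g (nat_lit 2187) (.e (nat_lit 879) (nat_lit 75) (.e (nat_lit 778466) (nat_lit 11) (.e (nat_lit 24617) (nat_lit 7) (.e (nat_lit 319528) (nat_lit 16) (.e (nat_lit 286759) (nat_lit 12) (.e (nat_lit 385115) (nat_lit 53) (.e (nat_lit 811034) (nat_lit 11) .nil))))))) (.g (nat_lit 1) (.e (nat_lit 12607) (nat_lit 0) .nil) .nil))))))))))) 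
(.nd (nat_lit 2) (.nd (nat_lit 3) (.nd (nat_lit 4) (.nd (nat_lit 5) (.nd (nat_lit 6) 
(.nd (nat_lit 7) (.nd (nat_lit 8) (.nd (nat_lit 9) 
(.lf (nat_lit 448515) (.g (nat_lit 2663) (.e (nat_lit 430) (nat_lit 32) (.e (nat_lit 426343) (nat_lit 14) (.e (nat_lit 491568) (nat_lit 13) (.e (nat_lit 393260) (nat_lit 21) (.e (nat_lit 409616) (nat_lit 10) (.e (nat_lit 7936) (nat_lit 298) .nil)))))) (.g (nat_lit 1) (.e (nat_lit 6011) (nat_lit 0) .nil) .nil))) 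
(.lf (nat_lit 449027) (.g (nat_lit 942) (.e (nat_lit 220) (nat_lit 20) (.e (nat_lit 327699) (nat_lit 8) (.e (nat_lit 303118) (nat_lit 3) (.e (nat_lit 204868) (nat_lit 29) .nil)))) (.g (nat_lit 0) (.e (nat_lit 10385) (nat_lit 0) .nil) .nil)))) (.nd (nat_lit 9) 
(.lf (nat_lit 448771) (.g (nat_lit 1186) (.e (nat_lit 490) (nat_lit 39) (.e (nat_lit 483412) (nat_lit 27) (.e (nat_lit 409344) (nat_lit 17) (.e (nat_lit 90172) (nat_lit 14) (.e (nat_lit 188160) (nat_lit 32) .nil))))) (.g (nat_lit 0) (.e (nat_lit 9699) (nat_lit 0) .nil) .nil))) 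
(.lf (nat_lit 449283) (.g (nat_lit 3061) (.e (nat_lit 604) (nat_lit 45) (.e (nat_lit 532501) (nat_lit 1) (.e (nat_lit 57927) (nat_lit 282) (.e (nat_lit 163884) (nat_lit 5) (.e (nat_lit 221212) (nat_lit 22) (.e (nat_lit 196656) (nat_lit 11) (.e (nat_lit 16425) (nat_lit 7) (.e (nat_lit 409617) (nat_lit 10) .nil)))))))) (.g (nat_lit 1) (.e (nat_lit 11398) (nat_lit 0) .nil) .nil))))) 
(.nd (nat_lit 8) (.nd (nat_lit 9) 
(.lf (nat_lit 448643) (.g (nat_lit 1800) (.e (nat_lit 447) (nat_lit 33) (.e (nat_lit 434180) (nat_lit 0) (.e (nat_lit 1428) (nat_lit 108) (.e (nat_lit 336421) (nat_lit 28) (.e (nat_lit 434198) (nat_lit 17) (.e (nat_lit 229647) (nat_lit 232) .nil)))))) (.g (nat_lit 1) (.e (nat_lit 6680) (nat_lit 0) .nil) .nil))) 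
(.lf (nat_lit 449155) (.g (nat_lit 3119) (.e (nat_lit 300) (nat_lit 22) (.e (nat_lit 344068) (nat_lit 0) (.e (nat_lit 3090) (nat_lit 191) (.e (nat_lit 483372) (nat_lit 21) (.e (nat_lit 319506) (nat_lit 10) (.e (nat_lit 5723) (nat_lit 312) .nil)))))) (.g (nat_lit 1) (.e (nat_lit 10935) (nat_lit 0) .nil) .nil)))) (.nd (nat_lit 9) 
(.lf (nat_lit 448899) (.g (nat_lit 2166) (.e (nat_lit 498) (nat_lit 40) (.e (nat_lit 491546) (nat_lit 9) (.e (nat_lit 336028) (nat_lit 3) (.e (nat_lit 98350) (nat_lit 24) (.e (nat_lit 409649) (nat_lit 18) .nil))))) (.g (nat_lit 0) (.e (nat_lit 10122) (nat_lit 0) .nil) .nil))) 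
(.lf (nat_lit 449411) (.g (nat_lit 2536) (.e (nat_lit 632) (nat_lit 50) (.e (nat_lit 573489) (nat_lit 14) (.e (nat_lit 73754) (nat_lit 8) (.e (nat_lit 557100) (nat_lit 13) (.e (nat_lit 172067) (nat_lit 3) (.e (nat_lit 212736) (nat_lit 7) (.e (nat_lit 409615) (nat_lit 10) .nil))))))) (.g (nat_lit 1) (.e (nat_lit 11857) (nat_lit 0) .nil) .nil)))))) (.nd (nat_lit 7) (.nd (nat_lit 8) (.nd (nat_lit 9) 
(.lf (nat_lit 448579) (.g (nat_lit 4413) (.e (nat_lit 435) (nat_lit 32) (.e (nat_lit 426123) (nat_lit 2) (.e (nat_lit 196666) (nat_lit 13) (.e (nat_lit 65617) (nat_lit 10) (.e (nat_lit 344133) (nat_lit 26) (.e (nat_lit 557091) (nat_lit 12) (.e (nat_lit 164022) (nat_lit 46) (.e (nat_lit 704627) (nat_lit 9) .nil)))))))) (.g (nat_lit 1) (.e (nat_lit 6124) (nat_lit 0) .nil) .nil))) 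
(.lf (nat_lit 449091) (.g (nat_lit 3175) (.e (nat_lit 269) (nat_lit 21) (.e (nat_lit 336204) (nat_lit 12) (.e (nat_lit 385074) (nat_lit 31) (.e (nat_lit 573484) (nat_lit 13) .nil)))) (.g (nat_lit 0) (.e (nat_lit 10582) (nat_lit 0) .nil) .nil)))) (.nd (nat_lit 9) 
(.lf (nat_lit 448835) (.g (nat_lit 1859) (.e (nat_lit 496) (nat_lit 39) (.e (nat_lit 483379) (nat_lit 23) (.e (nat_lit 336320) (nat_lit 17) (.e (nat_lit 196698) (nat_lit 19) (.e (nat_lit 57809) (nat_lit 246) (.e (nat_lit 57879) (nat_lit 270) .nil)))))) (.g (nat_lit 1) (.e (nat_lit 9924) (nat_lit 0) .nil) .nil))) 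
(.lf (nat_lit 449347) (.g (nat_lit 1820) (.e (nat_lit 584) (nat_lit 43) (.e (nat_lit 516115) (nat_lit 1) (.e (nat_lit 164399) (nat_lit 256) (.e (nat_lit 57390) (nat_lit 5) (.e (nat_lit 114716) (nat_lit 22) .nil))))) (.g (nat_lit 0) (.e (nat_lit 11577) (nat_lit 0) .nil) .nil))))) (.nd (nat_lit 8) (.nd (nat_lit 9) 
(.lf (nat_lit 448707) (.g (nat_lit 3125) (.e (nat_lit 457) (nat_lit 34) (.e (nat_lit 442374) (nat_lit 0) (.e (nat_lit 1855) (nat_lit 124) (.e (nat_lit 557101) (nat_lit 13) (.e (nat_lit 172115) (nat_lit 10) (.e (nat_lit 434244) (nat_lit 28) (.e (nat_lit 573450) (nat_lit 9) .nil))))))) (.g (nat_lit 1) (.e (nat_lit 7430) (nat_lit 0) .nil) .nil))) 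
(.lf (nat_lit 449219) (.g (nat_lit 4419) (.e (nat_lit 592) (nat_lit 45) (.e (nat_lit 532550) (nat_lit 12) (.e (nat_lit 360474) (nat_lit 8) (.e (nat_lit 557085) (nat_lit 11) .nil)))) (.g (nat_lit 0) (.e (nat_lit 11214) (nat_lit 0) .nil) .nil)))) (.nd (nat_lit 9) 
(.lf (nat_lit 448963) (.g (nat_lit 3321) (.e (nat_lit 500) (nat_lit 40) (.e (nat_lit 491569) (nat_lit 13) (.e (nat_lit 393301) (nat_lit 27) (.e (nat_lit 491560) (nat_lit 10) (.e (nat_lit 344179) (nat_lit 44) .nil))))) (.g (nat_lit 0) (.e (nat_lit 10246) (nat_lit 0) .nil) .nil))) 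
(.lf (nat_lit 449475) (.g (nat_lit 2661) (.e (nat_lit 632) (nat_lit 50) (.e (nat_lit 573489) (nat_lit 14) (.e (nat_lit 73755) (nat_lit 8) (.e (nat_lit 557105) (nat_lit 14) (.e (nat_lit 180252) (nat_lit 10) (.e (nat_lit 581376) (nat_lit 0) (.e (nat_lit 2826) (nat_lit 182) (.e (nat_lit 409615) (nat_lit 10) .nil)))))))) (.g (nat_lit 1) (.e (nat_lit 11981) (nat_lit 0) .nil) .nil))))))) 
(.nd (nat_lit 6) (.nd (nat_lit 7) (.nd (nat_lit 8) (.nd (nat_lit 9) 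
(.lf (nat_lit 448547) (.g (nat_lit 472) (.e (nat_lit 433) (nat_lit 32) (.e (nat_lit 426129) (nat_lit 3) (.e (nat_lit 204868) (nat_lit 29) .nil))) (.g (nat_lit 0) (.e (nat_lit 6063) (nat_lit 0) .nil) .nil))) 
(.lf (nat_lit 449059) (.g (nat_lit 3702) (.e (nat_lit 229) (nat_lit 21) (.e (nat_lit 336226) (nat_lit 14) (.e (nat_lit 401459) (nat_lit 13) (.e (nat_lit 483372) (nat_lit 21) (.e (nat_lit 327424) (nat_lit 10) .nil))))) (.g (nat_lit 0) (.e (nat_lit 10461) (nat_lit 0) .nil) .nil)))) (.nd (nat_lit 9) 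
(.lf (nat_lit 448803) (.g (nat_lit 705) (.e (nat_lit 496) (nat_lit 39) (.e (nat_lit 483363) (nat_lit 18) (.e (nat_lit 57847) (nat_lit 252) .nil))) (.g (nat_lit 0) (.e (nat_lit 9856) (nat_lit 0) .nil) .nil))) 
(.lf (nat_lit 449315) (.g (nat_lit 3984) (.e (nat_lit 606) (nat_lit 46) (.e (nat_lit 540704) (nat_lit 12) (.e (nat_lit 360473) (nat_lit 8) (.e (nat_lit 557087) (nat_lit 11) (.e (nat_lit 24617) (nat_lit 7) (.e (nat_lit 319505) (nat_lit 10) .nil)))))) (.g (nat_lit 1) (.e (nat_lit 11487) (nat_lit 0) .nil) .nil))))) (.nd (nat_lit 8) (.nd (nat_lit 9) 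
(.lf (nat_lit 448675) (.g (nat_lit 2889) (.e (nat_lit 452) (nat_lit 33) (.e (nat_lit 434231) (nat_lit 23) (.e (nat_lit 532549) (nat_lit 12) (.e (nat_lit 360474) (nat_lit 8) (.e (nat_lit 557093) (nat_lit 12) (.e (nat_lit 164023) (nat_lit 46) (.e (nat_lit 704626) (nat_lit 9) .nil))))))) (.g (nat_lit 1) (.e (nat_lit 6993) (nat_lit 0) .nil) .nil))) 
(.lf (nat_lit 449187) (.g (nat_lit 526) (.e (nat_lit 307) (nat_lit 22) (.e (nat_lit 344107) (nat_lit 19) (.e (nat_lit 499811) (nat_lit 5) .nil))) (.g (nat_lit 0) (.e (nat_lit 11050) (nat_lit 0) .nil) .nil)))) (.nd (nat_lit 9) 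
(.lf (nat_lit 448931) (.g (nat_lit 4223) (.e (nat_lit 498) (nat_lit 40) (.e (nat_lit 491569) (nat_lit 13) (.e (nat_lit 393301) (nat_lit 27) (.e (nat_lit 491560) (nat_lit 10) (.e (nat_lit 344095) (nat_lit 18) .nil))))) (.g (nat_lit 0) (.e (nat_lit 10184) (nat_lit 0) .nil) .nil))) 
(.lf (nat_lit 449443) (.g (nat_lit 4048) (.e (nat_lit 632) (nat_lit 50) (.e (nat_lit 573489) (nat_lit 14) (.e (nat_lit 73755) (nat_lit 8) (.e (nat_lit 557098) (nat_lit 13) (.e (nat_lit 172067) (nat_lit 3) (.e (nat_lit 212736) (nat_lit 7) (.e (nat_lit 409616) (nat_lit 10) .nil))))))) (.g (nat_lit 1) (.e (nat_lit 11912) (nat_lit 0) .nil) .nil)))))) (.nd (nat_lit 7) (.nd (nat_lit 8) (.nd (nat_lit 9) 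
(.lf (nat_lit 448611) (.g (nat_lit 4672) (.e (nat_lit 442) (nat_lit 33) (.e (nat_lit 434180) (nat_lit 0) (.e (nat_lit 1253) (nat_lit 92) (.e (nat_lit 98373) (nat_lit 29) (.e (nat_lit 450587) (nat_lit 10) (.e (nat_lit 573450) (nat_lit 9) .nil)))))) (.g (nat_lit 1) (.e (nat_lit 6260) (nat_lit 0) .nil) .nil))) 
(.lf (nat_lit 449123) (.g (nat_lit 3258) (.e (nat_lit 295) (nat_lit 21) (.e (nat_lit 336027) (nat_lit 3) (.e (nat_lit 98373) (nat_lit 29) (.e (nat_lit 450587) (nat_lit 10) (.e (nat_lit 573477) (nat_lit 12) .nil))))) (.g (nat_lit 0) (.e (nat_lit 10873) (nat_lit 0) .nil) .nil)))) (.nd (nat_lit 9) 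
(.lf (nat_lit 448867) (.g (nat_lit 873) (.e (nat_lit 496) (nat_lit 39) (.e (nat_lit 483385) (nat_lit 23) (.e (nat_lit 336320) (nat_lit 17) .nil))) (.g (nat_lit 0) (.e (nat_lit 9964) (nat_lit 0) .nil) .nil))) 
(.lf (nat_lit 449379) (.g (nat_lit 2443) (.e (nat_lit 632) (nat_lit 50) (.e (nat_lit 573482) (nat_lit 13) (.e (nat_lit 65619) (nat_lit 10) (.e (nat_lit 344097) (nat_lit 18) (.e (nat_lit 6896) (nat_lit 371) (.e (nat_lit 1122) (nat_lit 83) (.e (nat_lit 16425) (nat_lit 7) (.e (nat_lit 409617) (nat_lit 10) .nil)))))))) (.g (nat_lit 1) (.e (nat_lit 11773) (nat_lit 0) .nil) .nil))))) 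
(.nd (nat_lit 8) (.nd (nat_lit 9) 
(.lf (nat_lit 448739) (.g (nat_lit 2393) (.e (nat_lit 463) (nat_lit 34) (.e (nat_lit 442399) (nat_lit 20) (.e (nat_lit 3402) (nat_lit 211) (.e (nat_lit 647183) (nat_lit 4) (.e (nat_lit 172079) (nat_lit 7) (.e (nat_lit 409618) (nat_lit 10) (.e (nat_lit 5364) (nat_lit 298) .nil))))))) (.g (nat_lit 1) (.e (nat_lit 7836) (nat_lit 0) .nil) .nil))) 
(.lf (nat_lit 449251) (.g (nat_lit 3561) (.e (nat_lit 595) (nat_lit 45) (.e (nat_lit 532550) (nat_lit 12) (.e (nat_lit 360475) (nat_lit 8) (.e (nat_lit 557086) (nat_lit 11) (.e (nat_lit 24622) (nat_lit 8) .nil))))) (.g (nat_lit 0) (.e (nat_lit 11282) (nat_lit 0) .nil) .nil)))) (.nd (nat_lit 9) 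
(.lf (nat_lit 448995) (.g (nat_lit 3453) (.e (nat_lit 503) (nat_lit 40) (.e (nat_lit 491568) (nat_lit 13) (.e (nat_lit 393301) (nat_lit 27) (.e (nat_lit 491560) (nat_lit 10) (.e (nat_lit 344095) (nat_lit 18) .nil))))) (.g (nat_lit 0) (.e (nat_lit 10312) (nat_lit 0) .nil) .nil))) 
(.lf (nat_lit 449507) (.g (nat_lit 2284) (.e (nat_lit 848) (nat_lit 73) (.e (nat_lit 761905) (nat_lit 16) (.e (nat_lit 172097) (nat_lit 9) (.e (nat_lit 426025) (nat_lit 0) (.e (nat_lit 3536) (nat_lit 218) (.e (nat_lit 704736) (nat_lit 11) (.e (nat_lit 16425) (nat_lit 7) (.e (nat_lit 409617) (nat_lit 10) .nil)))))))) (.g (nat_lit 1) (.e (nat_lit 12457) (nat_lit 0) .nil) .nil)))))))) 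
(.nd (nat_lit 5) (.nd (nat_lit 6) (.nd (nat_lit 7) (.nd (nat_lit 8) (.nd (nat_lit 9) 
(.lf (nat_lit 448531) (.g (nat_lit 3452) (.e (nat_lit 430) (nat_lit 32) (.e (nat_lit 426344) (nat_lit 14) (.e (nat_lit 491538) (nat_lit 3) (.e (nat_lit 98373) (nat_lit 29) (.e (nat_lit 450588) (nat_lit 10) (.e (nat_lit 573452) (nat_lit 9) .nil)))))) (.g (nat_lit 1) (.e (nat_lit 6027) (nat_lit 0) .nil) .nil))) 
(.lf (nat_lit 449043) (.g (nat_lit 2633) (.e (nat_lit 224) (nat_lit 21) (.e (nat_lit 336369) (nat_lit 27) (.e (nat_lit 426173) (nat_lit 7) (.e (nat_lit 409617) (nat_lit 10) (.e (nat_lit 632) (nat_lit 50) (.e (nat_lit 573489) (nat_lit 14) (.e (nat_lit 81664) (nat_lit 32) .nil))))))) (.g (nat_lit 1) (.e (nat_lit 10408) (nat_lit 0) .nil) .nil)))) (.nd (nat_lit 9) 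
(.lf (nat_lit 448787) (.g (nat_lit 1619) (.e (nat_lit 492) (nat_lit 39) (.e (nat_lit 483365) (nat_lit 18) (.e (nat_lit 57848) (nat_lit 252) (.e (nat_lit 57368) (nat_lit 1) (.e (nat_lit 57854) (nat_lit 252) (.e (nat_lit 57389) (nat_lit 5) (.e (nat_lit 114723) (nat_lit 24) (.e (nat_lit 106505) (nat_lit 9) .nil)))))))) (.g (nat_lit 1) (.e (nat_lit 9738) (nat_lit 0) .nil) .nil))) 
(.lf (nat_lit 449299) (.g (nat_lit 4063) (.e (nat_lit 604) (nat_lit 45) (.e (nat_lit 532535) (nat_lit 9) (.e (nat_lit 336176) (nat_lit 10) (.e (nat_lit 344130) (nat_lit 26) .nil)))) (.g (nat_lit 0) (.e (nat_lit 11453) (nat_lit 0) .nil) .nil))))) (.nd (nat_lit 8) (.nd (nat_lit 9) 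
(.lf (nat_lit 448659) (.g (nat_lit 4124) (.e (nat_lit 450) (nat_lit 33) (.e (nat_lit 434231) (nat_lit 23) (.e (nat_lit 532550) (nat_lit 12) (.e (nat_lit 360475) (nat_lit 8) (.e (nat_lit 557091) (nat_lit 12) (.e (nat_lit 164022) (nat_lit 46) (.e (nat_lit 704629) (nat_lit 9) .nil))))))) (.g (nat_lit 1) (.e (nat_lit 6859) (nat_lit 0) .nil) .nil))) 
(.lf (nat_lit 449171) (.g (nat_lit 2478) (.e (nat_lit 300) (nat_lit 22) (.e (nat_lit 344069) (nat_lit 0) (.e (nat_lit 3090) (nat_lit 191) (.e (nat_lit 483372) (nat_lit 21) (.e (nat_lit 319496) (nat_lit 10) (.e (nat_lit 5723) (nat_lit 312) .nil)))))) (.g (nat_lit 1) (.e (nat_lit 10967) (nat_lit 0) .nil) .nil)))) (.nd (nat_lit 9) 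
(.lf (nat_lit 448915) (.g (nat_lit 1717) (.e (nat_lit 498) (nat_lit 40) (.e (nat_lit 491565) (nat_lit 12) (.e (nat_lit 385102) (nat_lit 50) (.e (nat_lit 786483) (nat_lit 30) (.e (nat_lit 360478) (nat_lit 12) (.e (nat_lit 622600) (nat_lit 5) .nil)))))) (.g (nat_lit 1) (.e (nat_lit 10147) (nat_lit 0) .nil) .nil))) 
(.lf (nat_lit 449427) (.g (nat_lit 3395) (.e (nat_lit 632) (nat_lit 50) (.e (nat_lit 573489) (nat_lit 14) (.e (nat_lit 73755) (nat_lit 8) (.e (nat_lit 557096) (nat_lit 13) (.e (nat_lit 172067) (nat_lit 3) (.e (nat_lit 212736) (nat_lit 7) (.e (nat_lit 409617) (nat_lit 10) .nil))))))) (.g (nat_lit 1) (.e (nat_lit 11880) (nat_lit 0) .nil) .nil)))))) (.nd (nat_lit 7) (.nd (nat_lit 8) (.nd (nat_lit 9) 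
(.lf (nat_lit 448595) (.g (nat_lit 1871) (.e (nat_lit 7936) (nat_lit 32) (.e (nat_lit 426347) (nat_lit 14) (.e (nat_lit 491549) (nat_lit 9) (.e (nat_lit 336421) (nat_lit 28) (.e (nat_lit 434197) (nat_lit 16) .nil))))) (.g (nat_lit 0) (.e (nat_lit 6200) (nat_lit 0) .nil) .nil))) 
(.lf (nat_lit 449107) (.g (nat_lit 3074) (.e (nat_lit 287) (nat_lit 21) (.e (nat_lit 336204) (nat_lit 12) (.e (nat_lit 385074) (nat_lit 31) (.e (nat_lit 573484) (nat_lit 13) .nil)))) (.g (nat_lit 0) (.e (nat_lit 10666) (nat_lit 0) .nil) .nil)))) (.nd (nat_lit 9) 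
(.lf (nat_lit 448851) (.g (nat_lit 1537) (.e (nat_lit 496) (nat_lit 39) (.e (nat_lit 483381) (nat_lit 23) (.e (nat_lit 336320) (nat_lit 17) (.e (nat_lit 196698) (nat_lit 19) (.e (nat_lit 57813) (nat_lit 246) (.e (nat_lit 57878) (nat_lit 270) .nil)))))) (.g (nat_lit 1) (.e (nat_lit 9942) (nat_lit 0) .nil) .nil))) 
(.lf (nat_lit 449363) (.g (nat_lit 3067) (.e (nat_lit 632) (nat_lit 50) (.e (nat_lit 573482) (nat_lit 13) (.e (nat_lit 65604) (nat_lit 9) (.e (nat_lit 336028) (nat_lit 3) (.e (nat_lit 98366) (nat_lit 27) (.e (nat_lit 434275) (nat_lit 39) (.e (nat_lit 663589) (nat_lit 14) (.e (nat_lit 2427) (nat_lit 157) .nil)))))))) (.g (nat_lit 1) (.e (nat_lit 11752) (nat_lit 0) .nil) .nil))))) 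
(.nd (nat_lit 8) (.nd (nat_lit 9) 
(.lf (nat_lit 448723) (.g (nat_lit 2831) (.e (nat_lit 459) (nat_lit 34) (.e (nat_lit 442379) (nat_lit 0) (.e (nat_lit 1856) (nat_lit 124) (.e (nat_lit 557100) (nat_lit 13) (.e (nat_lit 172113) (nat_lit 10) (.e (nat_lit 434242) (nat_lit 28) (.e (nat_lit 573450) (nat_lit 9) .nil))))))) (.g (nat_lit 1) (.e (nat_lit 7560) (nat_lit 0) .nil) .nil))) 
(.lf (nat_lit 449235) (.g (nat_lit 2958) (.e (nat_lit 595) (nat_lit 45) (.e (nat_lit 532535) (nat_lit 9) (.e (nat_lit 336099) (nat_lit 9) (.e (nat_lit 336013) (nat_lit 2) (.e (nat_lit 90165) (nat_lit 12) .nil))))) (.g (nat_lit 0) (.e (nat_lit 11239) (nat_lit 0) .nil) .nil)))) (.nd (nat_lit 9) 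
(.lf (nat_lit 448979) (.g (nat_lit 4959) (.e (nat_lit 501) (nat_lit 40) (.e (nat_lit 491571) (nat_lit 13) (.e (nat_lit 393260) (nat_lit 21) (.e (nat_lit 409649) (nat_lit 18) (.e (nat_lit 303111) (nat_lit 0) .nil))))) (.g (nat_lit 0) (.e (nat_lit 10279) (nat_lit 0) .nil) .nil))) 
(.lf (nat_lit 449491) (.g (nat_lit 1776) (.e (nat_lit 632) (nat_lit 50) (.e (nat_lit 573493) (nat_lit 15) (.e (nat_lit 81938) (nat_lit 20) (.e (nat_lit 990) (nat_lit 81) .nil)))) (.g (nat_lit 0) (.e (nat_lit 12074) (nat_lit 0) .nil) .nil))))))) (.nd (nat_lit 6) (.nd (nat_lit 7) (.nd (nat_lit 8) (.nd (nat_lit 9) 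
(.lf (nat_lit 448563) (.g (nat_lit 3841) (.e (nat_lit 435) (nat_lit 32) (.e (nat_lit 426121) (nat_lit 2) (.e (nat_lit 196666) (nat_lit 13) (.e (nat_lit 65617) (nat_lit 10) (.e (nat_lit 344130) (nat_lit 26) (.e (nat_lit 557090) (nat_lit 12) (.e (nat_lit 164022) (nat_lit 46) (.e (nat_lit 704628) (nat_lit 9) .nil)))))))) (.g (nat_lit 1) (.e (nat_lit 6108) (nat_lit 0) .nil) .nil))) 
(.lf (nat_lit 449075) (.g (nat_lit 2472) (.e (nat_lit 249) (nat_lit 21) (.e (nat_lit 336204) (nat_lit 12) (.e (nat_lit 385074) (nat_lit 31) (.e (nat_lit 573491) (nat_lit 15) (.e (nat_lit 81946) (nat_lit 20) .nil))))) (.g (nat_lit 0) (.e (nat_lit 10553) (nat_lit 0) .nil) .nil)))) (.nd (nat_lit 9) 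
(.lf (nat_lit 448819) (.g (nat_lit 2594) (.e (nat_lit 496) (nat_lit 39) (.e (nat_lit 483365) (nat_lit 18) (.e (nat_lit 57847) (nat_lit 252) (.e (nat_lit 57379) (nat_lit 3) (.e (nat_lit 98309) (nat_lit 0) (.e (nat_lit 6112) (nat_lit 332) (.e (nat_lit 2507) (nat_lit 157) (.e (nat_lit 5259) (nat_lit 298) .nil)))))))) (.g (nat_lit 1) (.e (nat_lit 9896) (nat_lit 0) .nil) .nil))) 
(.lf (nat_lit 449331) (.g (nat_lit 3667) (.e (nat_lit 577) (nat_lit 43) (.e (nat_lit 516166) (nat_lit 12) (.e (nat_lit 450588) (nat_lit 10) (.e (nat_lit 573471) (nat_lit 11) .nil)))) (.g (nat_lit 0) (.e (nat_lit 11512) (nat_lit 0) .nil) .nil))))) (.nd (nat_lit 8) (.nd (nat_lit 9) 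
(.lf (nat_lit 448691) (.g (nat_lit 1817) (.e (nat_lit 7936) (nat_lit 33) (.e (nat_lit 434180) (nat_lit 0) (.e (nat_lit 1427) (nat_lit 108) (.e (nat_lit 336421) (nat_lit 28) (.e (nat_lit 434198) (nat_lit 17) .nil))))) (.g (nat_lit 0) (.e (nat_lit 7155) (nat_lit 0) .nil) .nil))) 
(.lf (nat_lit 449203) (.g (nat_lit 2711) (.e (nat_lit 353) (nat_lit 29) (.e (nat_lit 401456) (nat_lit 13) (.e (nat_lit 483413) (nat_lit 27) (.e (nat_lit 401448) (nat_lit 10) (.e (nat_lit 434206) (nat_lit 18) .nil))))) (.g (nat_lit 0) (.e (nat_lit 11156) (nat_lit 0) .nil) .nil)))) (.nd (nat_lit 9) 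
(.lf (nat_lit 448947) (.g (nat_lit 3193) (.e (nat_lit 499) (nat_lit 40) (.e (nat_lit 491569) (nat_lit 13) (.e (nat_lit 393301) (nat_lit 27) (.e (nat_lit 491560) (nat_lit 10) (.e (nat_lit 344178) (nat_lit 44) .nil))))) (.g (nat_lit 0) (.e (nat_lit 10217) (nat_lit 0) .nil) .nil))) 
(.lf (nat_lit 449459) (.g (nat_lit 3198) (.e (nat_lit 632) (nat_lit 50) (.e (nat_lit 573489) (nat_lit 14) (.e (nat_lit 73755) (nat_lit 8) (.e (nat_lit 557104) (nat_lit 14) (.e (nat_lit 180245) (nat_lit 5) (.e (nat_lit 540416) (nat_lit 24) (.e (nat_lit 409616) (nat_lit 10) .nil))))))) (.g (nat_lit 1) (.e (nat_lit 11945) (nat_lit 0) .nil) .nil)))))) 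
(.nd (nat_lit 7) (.nd (nat_lit 8) (.nd (nat_lit 9) 
(.lf (nat_lit 448627) (.g (nat_lit 2162) (.e (nat_lit 446) (nat_lit 33) (.e (nat_lit 434180) (nat_lit 0) (.e (nat_lit 1427) (nat_lit 108) (.e (nat_lit 336421) (nat_lit 28) (.e (nat_lit 434197) (nat_lit 16) (.e (nat_lit 164338) (nat_lit 232) .nil)))))) (.g (nat_lit 1) (.e (nat_lit 6624) (nat_lit 0) .nil) .nil))) 
(.lf (nat_lit 449139) (.g (nat_lit 951) (.e (nat_lit 299) (nat_lit 22) (.e (nat_lit 344069) (nat_lit 0) (.e (nat_lit 3090) (nat_lit 191) (.e (nat_lit 483372) (nat_lit 21) .nil)))) (.g (nat_lit 0) (.e (nat_lit 10907) (nat_lit 0) .nil) .nil)))) (.nd (nat_lit 9) 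
(.lf (nat_lit 448883) (.g (nat_lit 1346) (.e (nat_lit 496) (nat_lit 39) (.e (nat_lit 483412) (nat_lit 27) (.e (nat_lit 409344) (nat_lit 17) (.e (nat_lit 90172) (nat_lit 14) (.e (nat_lit 188160) (nat_lit 32) .nil))))) (.g (nat_lit 1) (.e (nat_lit 10038) (nat_lit 0) .nil) .nil))) 
(.lf (nat_lit 449395) (.g (nat_lit 2052) (.e (nat_lit 632) (nat_lit 50) (.e (nat_lit 573485) (nat_lit 13) (.e (nat_lit 65604) (nat_lit 9) (.e (nat_lit 336028) (nat_lit 3) (.e (nat_lit 98366) (nat_lit 27) (.e (nat_lit 434275) (nat_lit 39) (.e (nat_lit 663589) (nat_lit 14) (.e (nat_lit 2449) (nat_lit 157) .nil)))))))) (.g (nat_lit 1) (.e (nat_lit 11823) (nat_lit 0) .nil) .nil))))) 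
(.nd (nat_lit 8) (.nd (nat_lit 9) 
(.lf (nat_lit 448755) (.g (nat_lit 364) (.e (nat_lit 7936) (nat_lit 35) (.e (nat_lit 450597) (nat_lit 17) (.e (nat_lit 663579) (nat_lit 9) .nil))) (.g (nat_lit 0) (.e (nat_lit 9167) (nat_lit 0) .nil) .nil))) 
(.lf (nat_lit 449267) (.g (nat_lit 1179) (.e (nat_lit 599) (nat_lit 45) (.e (nat_lit 532550) (nat_lit 12) (.e (nat_lit 360475) (nat_lit 8) .nil))) (.g (nat_lit 0) (.e (nat_lit 11365) (nat_lit 0) .nil) .nil)))) (.nd (nat_lit 9) 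
(.lf (nat_lit 449011) (.g (nat_lit 3892) (.e (nat_lit 214) (nat_lit 19) (.e (nat_lit 319490) (nat_lit 0) (.e (nat_lit 5626) (nat_lit 312) (.e (nat_lit 2685) (nat_lit 168) (.e (nat_lit 204869) (nat_lit 29) (.e (nat_lit 360474) (nat_lit 8) (.e (nat_lit 557073) (nat_lit 9) .nil))))))) (.g (nat_lit 1) (.e (nat_lit 10337) (nat_lit 0) .nil) .nil))) 
(.lf (nat_lit 449523) (.g (nat_lit 1860) (.e (nat_lit 852) (nat_lit 74) (.e (nat_lit 770072) (nat_lit 8) (.e (nat_lit 65586) (nat_lit 7) (.e (nat_lit 319531) (nat_lit 16) (.e (nat_lit 286759) (nat_lit 12) (.e (nat_lit 385115) (nat_lit 53) (.e (nat_lit 811032) (nat_lit 11) .nil))))))) (.g (nat_lit 1) (.e (nat_lit 12581) (nat_lit 0) .nil) .nil))))))))) 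
(.nd (nat_lit 4) (.nd (nat_lit 5) (.nd (nat_lit 6) (.nd (nat_lit 7) (.nd (nat_lit 8) 
(.nd (nat_lit 9) 
(.lf (nat_lit 448523) (.g (nat_lit 3433) (.e (nat_lit 430) (nat_lit 32) (.e (nat_lit 426344) (nat_lit 14) (.e (nat_lit 491530) (nat_lit 0) (.e (nat_lit 1796) (nat_lit 119) (.e (nat_lit 516166) (nat_lit 12) (.e (nat_lit 450587) (nat_lit 10) (.e (nat_lit 573456) (nat_lit 9) .nil))))))) (.g (nat_lit 1) (.e (nat_lit 6019) (nat_lit 0) .nil) .nil))) 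
(.lf (nat_lit 449035) (.g (nat_lit 3681) (.e (nat_lit 220) (nat_lit 20) (.e (nat_lit 327700) (nat_lit 8) (.e (nat_lit 303118) (nat_lit 3) (.e (nat_lit 204869) (nat_lit 29) (.e (nat_lit 360474) (nat_lit 8) (.e (nat_lit 557073) (nat_lit 9) .nil)))))) (.g (nat_lit 1) (.e (nat_lit 10393) (nat_lit 0) .nil) .nil)))) (.nd (nat_lit 9) 
(.lf (nat_lit 448779) (.g (nat_lit 3709) (.e (nat_lit 492) (nat_lit 39) (.e (nat_lit 483363) (nat_lit 18) (.e (nat_lit 57847) (nat_lit 252) (.e (nat_lit 57368) (nat_lit 1) (.e (nat_lit 57854) (nat_lit 252) (.e (nat_lit 57389) (nat_lit 5) (.e (nat_lit 114723) (nat_lit 24) (.e (nat_lit 106507) (nat_lit 9) .nil)))))))) (.g (nat_lit 1) (.e (nat_lit 9728) (nat_lit 0) .nil) .nil))) 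
(.lf (nat_lit 449291) (.g (nat_lit 4978) (.e (nat_lit 604) (nat_lit 45) (.e (nat_lit 532503) (nat_lit 1) (.e (nat_lit 57931) (nat_lit 282) (.e (nat_lit 163885) (nat_lit 5) (.e (nat_lit 221212) (nat_lit 22) (.e (nat_lit 196656) (nat_lit 11) (.e (nat_lit 16425) (nat_lit 7) (.e (nat_lit 409617) (nat_lit 10) .nil)))))))) (.g (nat_lit 1) (.e (nat_lit 11412) (nat_lit 0) .nil) .nil))))) 
(.nd (nat_lit 8) (.nd (nat_lit 9) 
(.lf (nat_lit 448651) (.g (nat_lit 2345) (.e (nat_lit 449) (nat_lit 33) (.e (nat_lit 434231) (nat_lit 23) (.e (nat_lit 532550) (nat_lit 12) (.e (nat_lit 360474) (nat_lit 8) (.e (nat_lit 557093) (nat_lit 12) .nil))))) (.g (nat_lit 0) (.e (nat_lit 6782) (nat_lit 0) .nil) .nil))) 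
(.lf (nat_lit 449163) (.g (nat_lit 2046) (.e (nat_lit 300) (nat_lit 22) (.e (nat_lit 344069) (nat_lit 0) (.e (nat_lit 3090) (nat_lit 191) (.e (nat_lit 483350) (nat_lit 17) (.e (nat_lit 6212) (nat_lit 333) (.e (nat_lit 57864) (nat_lit 256) .nil)))))) (.g (nat_lit 1) (.e (nat_lit 10959) (nat_lit 0) .nil) .nil)))) (.nd (nat_lit 9) 
(.lf (nat_lit 448907) (.g (nat_lit 2732) (.e (nat_lit 498) (nat_lit 40) (.e (nat_lit 491563) (nat_lit 12) (.e (nat_lit 385067) (nat_lit 26) (.e (nat_lit 532515) (nat_lit 3) (.e (nat_lit 122624) (nat_lit 12) (.e (nat_lit 434248) (nat_lit 28) (.e (nat_lit 573452) (nat_lit 9) .nil))))))) (.g (nat_lit 1) (.e (nat_lit 10138) (nat_lit 0) .nil) .nil))) 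
(.lf (nat_lit 449419) (.g (nat_lit 1945) (.e (nat_lit 632) (nat_lit 50) (.e (nat_lit 573489) (nat_lit 14) (.e (nat_lit 73754) (nat_lit 8) (.e (nat_lit 557101) (nat_lit 13) (.e (nat_lit 172067) (nat_lit 3) (.e (nat_lit 212736) (nat_lit 7) (.e (nat_lit 409612) (nat_lit 10) .nil))))))) (.g (nat_lit 1) (.e (nat_lit 11868) (nat_lit 0) .nil) .nil)))))) (.nd (nat_lit 7) (.nd (nat_lit 8) (.nd (nat_lit 9) 
(.lf (nat_lit 448587) (.g (nat_lit 3635) (.e (nat_lit 435) (nat_lit 32) (.e (nat_lit 426316) (nat_lit 12) (.e (nat_lit 475185) (nat_lit 29) (.e (nat_lit 557101) (nat_lit 13) (.e (nat_lit 172115) (nat_lit 10) .nil))))) (.g (nat_lit 0) (.e (nat_lit 6147) (nat_lit 0) .nil) .nil))) 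
(.lf (nat_lit 449099) (.g (nat_lit 2555) (.e (nat_lit 276) (nat_lit 21) (.e (nat_lit 336027) (nat_lit 3) (.e (nat_lit 98373) (nat_lit 29) (.e (nat_lit 450586) (nat_lit 10) (.e (nat_lit 573475) (nat_lit 12) .nil))))) (.g (nat_lit 0) (.e (nat_lit 10593) (nat_lit 0) .nil) .nil)))) (.nd (nat_lit 9) 
(.lf (nat_lit 448843) (.g (nat_lit 1476) (.e (nat_lit 496) (nat_lit 39) (.e (nat_lit 483380) (nat_lit 23) (.e (nat_lit 336316) (nat_lit 17) (.e (nat_lit 196697) (nat_lit 19) .nil)))) (.g (nat_lit 0) (.e (nat_lit 9933) (nat_lit 0) .nil) .nil))) 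
(.lf (nat_lit 449355) (.g (nat_lit 3036) (.e (nat_lit 7936) (nat_lit 43) (.e (nat_lit 516166) (nat_lit 12) (.e (nat_lit 450586) (nat_lit 10) (.e (nat_lit 573450) (nat_lit 9) (.e (nat_lit 375) (nat_lit 32) .nil))))) (.g (nat_lit 0) (.e (nat_lit 11659) (nat_lit 0) .nil) .nil))))) (.nd (nat_lit 8) (.nd (nat_lit 9) 
(.lf (nat_lit 448715) (.g (nat_lit 2384) (.e (nat_lit 457) (nat_lit 34) (.e (nat_lit 442379) (nat_lit 0) (.e (nat_lit 1855) (nat_lit 124) (.e (nat_lit 557098) (nat_lit 13) (.e (nat_lit 172115) (nat_lit 10) (.e (nat_lit 434244) (nat_lit 28) (.e (nat_lit 573450) (nat_lit 9) .nil))))))) (.g (nat_lit 1) (.e (nat_lit 7439) (nat_lit 0) .nil) .nil))) 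
(.lf (nat_lit 449227) (.g (nat_lit 3207) (.e (nat_lit 594) (nat_lit 45) (.e (nat_lit 532550) (nat_lit 12) (.e (nat_lit 360474) (nat_lit 8) (.e (nat_lit 557085) (nat_lit 11) .nil)))) (.g (nat_lit 0) (.e (nat_lit 11226) (nat_lit 0) .nil) .nil)))) (.nd (nat_lit 9) 
(.lf (nat_lit 448971) (.g (nat_lit 932) (.e (nat_lit 501) (nat_lit 40) (.e (nat_lit 491569) (nat_lit 13) (.e (nat_lit 393301) (nat_lit 27) .nil))) (.g (nat_lit 0) (.e (nat_lit 10271) (nat_lit 0) .nil) .nil))) 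
(.lf (nat_lit 449483) (.g (nat_lit 1870) (.e (nat_lit 632) (nat_lit 50) (.e (nat_lit 573491) (nat_lit 15) (.e (nat_lit 81942) (nat_lit 20) (.e (nat_lit 2391) (nat_lit 156) (.e (nat_lit 819219) (nat_lit 4) (.e (nat_lit 172079) (nat_lit 7) (.e (nat_lit 409611) (nat_lit 10) .nil))))))) (.g (nat_lit 1) (.e (nat_lit 12012) (nat_lit 0) .nil) .nil))))))) 
(.nd (nat_lit 6) (.nd (nat_lit 7) (.nd (nat_lit 8) (.nd (nat_lit 9) 
(.lf (nat_lit 448555) (.g (nat_lit 5139) (.e (nat_lit 433) (nat_lit 32) (.e (nat_lit 426347) (nat_lit 14) (.e (nat_lit 491537) (nat_lit 2) (.e (nat_lit 90170) (nat_lit 13) (.e (nat_lit 172106) (nat_lit 10) (.e (nat_lit 434244) (nat_lit 28) (.e (nat_lit 573450) (nat_lit 9) .nil))))))) (.g (nat_lit 1) (.e (nat_lit 6085) (nat_lit 0) .nil) .nil))) 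
(.lf (nat_lit 449067) (.g (nat_lit 1440) (.e (nat_lit 235) (nat_lit 21) (.e (nat_lit 336456) (nat_lit 34) (.e (nat_lit 483372) (nat_lit 21) .nil))) (.g (nat_lit 0) (.e (nat_lit 10477) (nat_lit 0) .nil) .nil)))) (.nd (nat_lit 9) 
(.lf (nat_lit 448811) (.g (nat_lit 2535) (.e (nat_lit 496) (nat_lit 39) (.e (nat_lit 483364) (nat_lit 18) (.e (nat_lit 57852) (nat_lit 252) (.e (nat_lit 57377) (nat_lit 3) (.e (nat_lit 98309) (nat_lit 0) .nil))))) (.g (nat_lit 0) (.e (nat_lit 9874) (nat_lit 0) .nil) .nil))) 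
(.lf (nat_lit 449323) (.g (nat_lit 5124) (.e (nat_lit 575) (nat_lit 43) (.e (nat_lit 516166) (nat_lit 12) (.e (nat_lit 450588) (nat_lit 10) (.e (nat_lit 573471) (nat_lit 11) .nil)))) (.g (nat_lit 0) (.e (nat_lit 11499) (nat_lit 0) .nil) .nil))))) (.nd (nat_lit 8) (.nd (nat_lit 9) 
(.lf (nat_lit 448683) (.g (nat_lit 3936) (.e (nat_lit 452) (nat_lit 33) (.e (nat_lit 434231) (nat_lit 23) (.e (nat_lit 532550) (nat_lit 12) (.e (nat_lit 360474) (nat_lit 8) (.e (nat_lit 557093) (nat_lit 12) (.e (nat_lit 164022) (nat_lit 46) (.e (nat_lit 704626) (nat_lit 9) .nil))))))) (.g (nat_lit 1) (.e (nat_lit 7002) (nat_lit 0) .nil) .nil))) 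
(.lf (nat_lit 449195) (.g (nat_lit 2122) (.e (nat_lit 347) (nat_lit 28) (.e (nat_lit 393253) (nat_lit 18) (.e (nat_lit 164327) (nat_lit 230) (.e (nat_lit 163864) (nat_lit 1) (.e (nat_lit 164332) (nat_lit 230) .nil))))) (.g (nat_lit 0) (.e (nat_lit 11129) (nat_lit 0) .nil) .nil)))) (.nd (nat_lit 9) 
(.lf (nat_lit 448939) (.g (nat_lit 1190) (.e (nat_lit 499) (nat_lit 40) (.e (nat_lit 491566) (nat_lit 12) (.e (nat_lit 385074) (nat_lit 31) .nil))) (.g (nat_lit 0) (.e (nat_lit 10206) (nat_lit 0) .nil) .nil))) 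
(.lf (nat_lit 449451) (.g (nat_lit 3546) (.e (nat_lit 632) (nat_lit 50) (.e (nat_lit 573489) (nat_lit 14) (.e (nat_lit 73755) (nat_lit 8) (.e (nat_lit 557103) (nat_lit 14) (.e (nat_lit 180244) (nat_lit 5) (.e (nat_lit 540416) (nat_lit 24) (.e (nat_lit 409615) (nat_lit 10) .nil))))))) (.g (nat_lit 1) (.e (nat_lit 11926) (nat_lit 0) .nil) .nil)))))) 
(.nd (nat_lit 7) (.nd (nat_lit 8) (.nd (nat_lit 9) 
(.lf (nat_lit 448619) (.g (nat_lit 1209) (.e (nat_lit 442) (nat_lit 33) (.e (nat_lit 434197) (nat_lit 16) (.e (nat_lit 164108) (nat_lit 116) (.e (nat_lit 786176) (nat_lit 6) (.e (nat_lit 81953) (nat_lit 22) (.e (nat_lit 98048) (nat_lit 0) .nil)))))) (.g (nat_lit 1) (.e (nat_lit 6275) (nat_lit 0) .nil) .nil))) 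
(.lf (nat_lit 449131) (.g (nat_lit 2053) (.e (nat_lit 297) (nat_lit 22) (.e (nat_lit 344068) (nat_lit 0) (.e (nat_lit 3090) (nat_lit 191) (.e (nat_lit 483372) (nat_lit 21) (.e (nat_lit 319504) (nat_lit 10) (.e (nat_lit 7936) (nat_lit 312) .nil)))))) (.g (nat_lit 1) (.e (nat_lit 10891) (nat_lit 0) .nil) .nil)))) (.nd (nat_lit 9) 
(.lf (nat_lit 448875) (.g (nat_lit 1663) (.e (nat_lit 496) (nat_lit 39) (.e (nat_lit 483405) (nat_lit 26) (.e (nat_lit 385057) (nat_lit 22) (.e (nat_lit 499780) (nat_lit 1) (.e (nat_lit 57811) (nat_lit 246) (.e (nat_lit 57879) (nat_lit 270) .nil)))))) (.g (nat_lit 1) (.e (nat_lit 10024) (nat_lit 0) .nil) .nil))) 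
(.lf (nat_lit 449387) (.g (nat_lit 2755) (.e (nat_lit 632) (nat_lit 50) (.e (nat_lit 573482) (nat_lit 13) (.e (nat_lit 65619) (nat_lit 10) (.e (nat_lit 344117) (nat_lit 21) (.e (nat_lit 516160) (nat_lit 10) (.e (nat_lit 434275) (nat_lit 39) (.e (nat_lit 663589) (nat_lit 14) (.e (nat_lit 2449) (nat_lit 157) .nil)))))))) (.g (nat_lit 1) (.e (nat_lit 11781) (nat_lit 0) .nil) .nil))))) 
(.nd (nat_lit 8) (.nd (nat_lit 9) 
(.lf (nat_lit 448747) (.g (nat_lit 1985) (.e (nat_lit 466) (nat_lit 35) (.e (nat_lit 450605) (nat_lit 27) (.e (nat_lit 745491) (nat_lit 4) (.e (nat_lit 65598) (nat_lit 9) (.e (nat_lit 336013) (nat_lit 2) (.e (nat_lit 98048) (nat_lit 0) .nil)))))) (.g (nat_lit 1) (.e (nat_lit 8473) (nat_lit 0) .nil) .nil))) 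
(.lf (nat_lit 449259) (.g (nat_lit 1592) (.e (nat_lit 596) (nat_lit 45) (.e (nat_lit 532535) (nat_lit 9) (.e (nat_lit 336020) (nat_lit 3) (.e (nat_lit 106240) (nat_lit 16) .nil)))) (.g (nat_lit 0) (.e (nat_lit 11305) (nat_lit 0) .nil) .nil)))) (.nd (nat_lit 9) 
(.lf (nat_lit 449003) (.g (nat_lit 3759) (.e (nat_lit 503) (nat_lit 40) (.e (nat_lit 491569) (nat_lit 13) (.e (nat_lit 393301) (nat_lit 27) (.e (nat_lit 491560) (nat_lit 10) (.e (nat_lit 344179) (nat_lit 44) .nil))))) (.g (nat_lit 0) (.e (nat_lit 10320) (nat_lit 0) .nil) .nil))) 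
(.lf (nat_lit 449515) (.g (nat_lit 3108) (.e (nat_lit 852) (nat_lit 74) (.e (nat_lit 770072) (nat_lit 8) (.e (nat_lit 65583) (nat_lit 7) (.e (nat_lit 319530) (nat_lit 16) (.e (nat_lit 286759) (nat_lit 12) (.e (nat_lit 385115) (nat_lit 53) (.e (nat_lit 811031) (nat_lit 11) .nil))))))) (.g (nat_lit 1) (.e (nat_lit 12573) (nat_lit 0) .nil) .nil)))))))) 
(.nd (nat_lit 5) (.nd (nat_lit 6) (.nd (nat_lit 7) (.nd (nat_lit 8) (.nd (nat_lit 9) 
(.lf (nat_lit 448539) (.g (nat_lit 3823) (.e (nat_lit 431) (nat_lit 32) (.e (nat_lit 426316) (nat_lit 12) (.e (nat_lit 475185) (nat_lit 29) (.e (nat_lit 557098) (nat_lit 13) (.e (nat_lit 172115) (nat_lit 10) .nil))))) (.g (nat_lit 0) (.e (nat_lit 6046) (nat_lit 0) .nil) .nil))) 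
(.lf (nat_lit 449051) (.g (nat_lit 3222) (.e (nat_lit 227) (nat_lit 21) (.e (nat_lit 336369) (nat_lit 27) (.e (nat_lit 426173) (nat_lit 7) (.e (nat_lit 409617) (nat_lit 10) (.e (nat_lit 632) (nat_lit 50) (.e (nat_lit 573487) (nat_lit 14) (.e (nat_lit 81664) (nat_lit 32) .nil))))))) (.g (nat_lit 1) (.e (nat_lit 10421) (nat_lit 0) .nil) .nil)))) (.nd (nat_lit 9) 
(.lf (nat_lit 448795) (.g (nat_lit 2080) (.e (nat_lit 492) (nat_lit 39) (.e (nat_lit 483372) (nat_lit 21) (.e (nat_lit 319504) (nat_lit 10) (.e (nat_lit 618) (nat_lit 48) (.e (nat_lit 557105) (nat_lit 14) .nil))))) (.g (nat_lit 0) (.e (nat_lit 9748) (nat_lit 0) .nil) .nil))) 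
(.lf (nat_lit 449307) (.g (nat_lit 2328) (.e (nat_lit 7936) (nat_lit 45) (.e (nat_lit 532549) (nat_lit 12) (.e (nat_lit 360473) (nat_lit 8) (.e (nat_lit 557066) (nat_lit 9) (.e (nat_lit 232) (nat_lit 21) .nil))))) (.g (nat_lit 0) (.e (nat_lit 11471) (nat_lit 0) .nil) .nil))))) (.nd (nat_lit 8) (.nd (nat_lit 9) 
(.lf (nat_lit 448667) (.g (nat_lit 3830) (.e (nat_lit 452) (nat_lit 33) (.e (nat_lit 434231) (nat_lit 23) (.e (nat_lit 532549) (nat_lit 12) (.e (nat_lit 360473) (nat_lit 8) (.e (nat_lit 557093) (nat_lit 12) (.e (nat_lit 164023) (nat_lit 46) (.e (nat_lit 704626) (nat_lit 9) .nil))))))) (.g (nat_lit 1) (.e (nat_lit 6985) (nat_lit 0) .nil) .nil))) 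
(.lf (nat_lit 449179) (.g (nat_lit 2336) (.e (nat_lit 300) (nat_lit 22) (.e (nat_lit 344069) (nat_lit 0) (.e (nat_lit 3090) (nat_lit 191) (.e (nat_lit 483372) (nat_lit 21) (.e (nat_lit 319510) (nat_lit 10) (.e (nat_lit 5721) (nat_lit 312) .nil)))))) (.g (nat_lit 1) (.e (nat_lit 10975) (nat_lit 0) .nil) .nil)))) (.nd (nat_lit 9) 
(.lf (nat_lit 448923) (.g (nat_lit 1736) (.e (nat_lit 498) (nat_lit 40) (.e (nat_lit 491569) (nat_lit 13) (.e (nat_lit 393301) (nat_lit 27) (.e (nat_lit 491558) (nat_lit 10) .nil)))) (.g (nat_lit 0) (.e (nat_lit 10176) (nat_lit 0) .nil) .nil))) 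
(.lf (nat_lit 449435) (.g (nat_lit 1691) (.e (nat_lit 632) (nat_lit 50) (.e (nat_lit 573489) (nat_lit 14) (.e (nat_lit 73755) (nat_lit 8) (.e (nat_lit 557098) (nat_lit 13) .nil)))) (.g (nat_lit 0) (.e (nat_lit 11896) (nat_lit 0) .nil) .nil)))))) (.nd (nat_lit 7) (.nd (nat_lit 8) (.nd (nat_lit 9) 
(.lf (nat_lit 448603) (.g (nat_lit 3842) (.e (nat_lit 7936) (nat_lit 32) (.e (nat_lit 426347) (nat_lit 14) (.e (nat_lit 491571) (nat_lit 13) (.e (nat_lit 393260) (nat_lit 21) (.e (nat_lit 409618) (nat_lit 10) .nil))))) (.g (nat_lit 0) (.e (nat_lit 6208) (nat_lit 0) .nil) .nil))) 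
(.lf (nat_lit 449115) (.g (nat_lit 2146) (.e (nat_lit 288) (nat_lit 21) (.e (nat_lit 335876) (nat_lit 0) (.e (nat_lit 6713) (nat_lit 360) (.e (nat_lit 163962) (nat_lit 25) (.e (nat_lit 532550) (nat_lit 12) (.e (nat_lit 360474) (nat_lit 8) (.e (nat_lit 557073) (nat_lit 9) .nil))))))) (.g (nat_lit 1) (.e (nat_lit 10769) (nat_lit 0) .nil) .nil)))) (.nd (nat_lit 9) 
(.lf (nat_lit 448859) (.g (nat_lit 1801) (.e (nat_lit 496) (nat_lit 39) (.e (nat_lit 483382) (nat_lit 23) (.e (nat_lit 336320) (nat_lit 17) (.e (nat_lit 196698) (nat_lit 19) (.e (nat_lit 57811) (nat_lit 246) (.e (nat_lit 57879) (nat_lit 270) .nil)))))) (.g (nat_lit 1) (.e (nat_lit 9950) (nat_lit 0) .nil) .nil))) 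
(.lf (nat_lit 449371) (.g (nat_lit 2448) (.e (nat_lit 632) (nat_lit 50) (.e (nat_lit 573482) (nat_lit 13) (.e (nat_lit 65619) (nat_lit 10) (.e (nat_lit 344090) (nat_lit 18) (.e (nat_lit 6860) (nat_lit 371) (.e (nat_lit 1122) (nat_lit 83) (.e (nat_lit 16425) (nat_lit 7) (.e (nat_lit 409617) (nat_lit 10) .nil)))))))) (.g (nat_lit 1) (.e (nat_lit 11765) (nat_lit 0) .nil) .nil))))) 
(.nd (nat_lit 8) (.nd (nat_lit 9) 
(.lf (nat_lit 448731) (.g (nat_lit 743) (.e (nat_lit 461) (nat_lit 34) (.e (nat_lit 442421) (nat_lit 21) (.e (nat_lit 164326) (nat_lit 230) .nil))) (.g (nat_lit 0) (.e (nat_lit 7747) (nat_lit 0) .nil) .nil))) 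
(.lf (nat_lit 449243) (.g (nat_lit 3537) (.e (nat_lit 595) (nat_lit 45) (.e (nat_lit 532550) (nat_lit 12) (.e (nat_lit 360474) (nat_lit 8) (.e (nat_lit 557085) (nat_lit 11) (.e (nat_lit 24617) (nat_lit 7) .nil))))) (.g (nat_lit 0) (.e (nat_lit 11272) (nat_lit 0) .nil) .nil)))) (.nd (nat_lit 9) 
(.lf (nat_lit 448987) (.g (nat_lit 3723) (.e (nat_lit 502) (nat_lit 40) (.e (nat_lit 491569) (nat_lit 13) (.e (nat_lit 393301) (nat_lit 27) (.e (nat_lit 491560) (nat_lit 10) (.e (nat_lit 344179) (nat_lit 44) .nil))))) (.g (nat_lit 0) (.e (nat_lit 10299) (nat_lit 0) .nil) .nil))) 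
(.lf (nat_lit 449499) (.g (nat_lit 1669) (.e (nat_lit 618) (nat_lit 48) (.e (nat_lit 557101) (nat_lit 13) (.e (nat_lit 172115) (nat_lit 10) (.e (nat_lit 434295) (nat_lit 49) (.e (nat_lit 745491) (nat_lit 4) .nil))))) (.g (nat_lit 0) (.e (nat_lit 12281) (nat_lit 0) .nil) .nil))))))) (.nd (nat_lit 6) (.nd (nat_lit 7) (.nd (nat_lit 8) (.nd (nat_lit 9) 
(.lf (nat_lit 448571) (.g (nat_lit 4966) (.e (nat_lit 435) (nat_lit 32) (.e (nat_lit 426123) (nat_lit 2) (.e (nat_lit 196666) (nat_lit 13) (.e (nat_lit 65617) (nat_lit 10) (.e (nat_lit 344130) (nat_lit 26) (.e (nat_lit 557090) (nat_lit 12) (.e (nat_lit 164022) (nat_lit 46) (.e (nat_lit 704628) (nat_lit 9) .nil)))))))) (.g (nat_lit 1) (.e (nat_lit 6116) (nat_lit 0) .nil) .nil))) 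
(.lf (nat_lit 449083) (.g (nat_lit 4063) (.e (nat_lit 259) (nat_lit 21) (.e (nat_lit 336226) (nat_lit 14) (.e (nat_lit 401459) (nat_lit 13) (.e (nat_lit 483372) (nat_lit 21) (.e (nat_lit 319511) (nat_lit 10) .nil))))) (.g (nat_lit 0) (.e (nat_lit 10573) (nat_lit 0) .nil) .nil)))) (.nd (nat_lit 9) 
(.lf (nat_lit 448827) (.g (nat_lit 1987) (.e (nat_lit 496) (nat_lit 39) (.e (nat_lit 483372) (nat_lit 21) (.e (nat_lit 319504) (nat_lit 10) (.e (nat_lit 616) (nat_lit 48) .nil)))) (.g (nat_lit 0) (.e (nat_lit 9915) (nat_lit 0) .nil) .nil))) 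
(.lf (nat_lit 449339) (.g (nat_lit 5422) (.e (nat_lit 581) (nat_lit 43) (.e (nat_lit 516166) (nat_lit 12) (.e (nat_lit 450588) (nat_lit 10) (.e (nat_lit 573471) (nat_lit 11) .nil)))) (.g (nat_lit 0) (.e (nat_lit 11547) (nat_lit 0) .nil) .nil))))) (.nd (nat_lit 8) (.nd (nat_lit 9) 
(.lf (nat_lit 448699) (.g (nat_lit 752) (.e (nat_lit 455) (nat_lit 34) (.e (nat_lit 442421) (nat_lit 21) (.e (nat_lit 164319) (nat_lit 228) .nil))) (.g (nat_lit 0) (.e (nat_lit 7304) (nat_lit 0) .nil) .nil))) 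
(.lf (nat_lit 449211) (.g (nat_lit 1988) (.e (nat_lit 555) (nat_lit 41) (.e (nat_lit 499919) (nat_lit 9) (.e (nat_lit 172113) (nat_lit 10) (.e (nat_lit 434245) (nat_lit 28) (.e (nat_lit 573471) (nat_lit 11) .nil))))) (.g (nat_lit 0) (.e (nat_lit 11194) (nat_lit 0) .nil) .nil)))) (.nd (nat_lit 9) 
(.lf (nat_lit 448955) (.g (nat_lit 1059) (.e (nat_lit 500) (nat_lit 40) (.e (nat_lit 491566) (nat_lit 12) (.e (nat_lit 385105) (nat_lit 50) .nil))) (.g (nat_lit 0) (.e (nat_lit 10238) (nat_lit 0) .nil) .nil))) 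
(.lf (nat_lit 449467) (.g (nat_lit 1675) (.e (nat_lit 632) (nat_lit 50) (.e (nat_lit 573489) (nat_lit 14) (.e (nat_lit 73755) (nat_lit 8) (.e (nat_lit 557105) (nat_lit 14) (.e (nat_lit 180252) (nat_lit 10) .nil))))) (.g (nat_lit 0) (.e (nat_lit 11973) (nat_lit 0) .nil) .nil)))))) (.nd (nat_lit 7) (.nd (nat_lit 8) (.nd (nat_lit 9) 
(.lf (nat_lit 448635) (.g (nat_lit 1944) (.e (nat_lit 446) (nat_lit 33) (.e (nat_lit 434181) (nat_lit 0) (.e (nat_lit 1427) (nat_lit 108) (.e (nat_lit 336438) (nat_lit 31) (.e (nat_lit 458769) (nat_lit 16) (.e (nat_lit 164340) (nat_lit 232) .nil)))))) (.g (nat_lit 1) (.e (nat_lit 6632) (nat_lit 0) .nil) .nil))) 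
(.lf (nat_lit 449147) (.g (nat_lit 2789) (.e (nat_lit 300) (nat_lit 22) (.e (nat_lit 344068) (nat_lit 0) (.e (nat_lit 3090) (nat_lit 191) (.e (nat_lit 483350) (nat_lit 17) (.e (nat_lit 6218) (nat_lit 333) (.e (nat_lit 57864) (nat_lit 256) .nil)))))) (.g (nat_lit 1) (.e (nat_lit 10927) (nat_lit 0) .nil) .nil)))) (.nd (nat_lit 9) 
(.lf (nat_lit 448891) (.g (nat_lit 1722) (.e (nat_lit 497) (nat_lit 39) (.e (nat_lit 483365) (nat_lit 18) (.e (nat_lit 57848) (nat_lit 252) (.e (nat_lit 57368) (nat_lit 1) (.e (nat_lit 57854) (nat_lit 252) .nil))))) (.g (nat_lit 0) (.e (nat_lit 10055) (nat_lit 0) .nil) .nil))) 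
(.lf (nat_lit 449403) (.g (nat_lit 3070) (.e (nat_lit 632) (nat_lit 50) (.e (nat_lit 573485) (nat_lit 13) (.e (nat_lit 65619) (nat_lit 10) (.e (nat_lit 344117) (nat_lit 21) (.e (nat_lit 516159) (nat_lit 10) (.e (nat_lit 434275) (nat_lit 39) (.e (nat_lit 663589) (nat_lit 14) (.e (nat_lit 2448) (nat_lit 157) .nil)))))))) (.g (nat_lit 1) (.e (nat_lit 11836) (nat_lit 0) .nil) .nil))))) 
(.nd (nat_lit 8) (.nd (nat_lit 9) 
(.lf (nat_lit 448763) (.g (nat_lit 3583) (.e (nat_lit 484) (nat_lit 38) (.e (nat_lit 475185) (nat_lit 29) (.e (nat_lit 557100) (nat_lit 13) (.e (nat_lit 172113) (nat_lit 10) (.e (nat_lit 434247) (nat_lit 28) .nil))))) (.g (nat_lit 0) (.e (nat_lit 9633) (nat_lit 0) .nil) .nil))) 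
(.lf (nat_lit 449275) (.g (nat_lit 3802) (.e (nat_lit 604) (nat_lit 45) (.e (nat_lit 532499) (nat_lit 1) (.e (nat_lit 57927) (nat_lit 282) (.e (nat_lit 163884) (nat_lit 5) (.e (nat_lit 221212) (nat_lit 22) (.e (nat_lit 196656) (nat_lit 11) (.e (nat_lit 16425) (nat_lit 7) (.e (nat_lit 409617) (nat_lit 10) .nil)))))))) (.g (nat_lit 1) (.e (nat_lit 11380) (nat_lit 0) .nil) .nil)))) (.nd (nat_lit 9) 
(.lf (nat_lit 449019) (.g (nat_lit 2598) (.e (nat_lit 216) (nat_lit 19) (.e (nat_lit 319490) (nat_lit 0) (.e (nat_lit 5664) (nat_lit 312) (.e (nat_lit 3085) (nat_lit 191) (.e (nat_lit 483377) (nat_lit 22) (.e (nat_lit 327709) (nat_lit 10) (.e (nat_lit 5634) (nat_lit 312) .nil))))))) (.g (nat_lit 1) (.e (nat_lit 10358) (nat_lit 0) .nil) .nil))) 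
(.lf (nat_lit 449531) (.g (nat_lit 1990) (.e (nat_lit 879) (nat_lit 75) (.e (nat_lit 778466) (nat_lit 11) (.e (nat_lit 24616) (nat_lit 7) (.e (nat_lit 319530) (nat_lit 16) (.e (nat_lit 286759) (nat_lit 12) (.e (nat_lit 385115) (nat_lit 53) (.e (nat_lit 811033) (nat_lit 11) .nil))))))) (.g (nat_lit 1) (.e (nat_lit 12605) (nat_lit 0) .nil) .nil)))))))))) 
(.nd (nat_lit 3) (.nd (nat_lit 4) (.nd (nat_lit 5) (.nd (nat_lit 6) (.nd (nat_lit 7) 
(.nd (nat_lit 8) (.nd (nat_lit 9) 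
(.lf (nat_lit 448519) (.g (nat_lit 3908) (.e (nat_lit 430) (nat_lit 32) (.e (nat_lit 426343) (nat_lit 14) (.e (nat_lit 491570) (nat_lit 13) (.e (nat_lit 393260) (nat_lit 21) (.e (nat_lit 409617) (nat_lit 10) (.e (nat_lit 7936) (nat_lit 298) .nil)))))) (.g (nat_lit 1) (.e (nat_lit 6015) (nat_lit 0) .nil) .nil))) 
(.lf (nat_lit 449031) (.g (nat_lit 5778) (.e (nat_lit 220) (nat_lit 20) (.e (nat_lit 327699) (nat_lit 8) (.e (nat_lit 303119) (nat_lit 3) (.e (nat_lit 204869) (nat_lit 29) (.e (nat_lit 360474) (nat_lit 8) (.e (nat_lit 557073) (nat_lit 9) .nil)))))) (.g (nat_lit 1) (.e (nat_lit 10389) (nat_lit 0) .nil) .nil)))) (.nd (nat_lit 9) 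
(.lf (nat_lit 448775) (.g (nat_lit 2414) (.e (nat_lit 492) (nat_lit 39) (.e (nat_lit 483363) (nat_lit 18) (.e (nat_lit 57847) (nat_lit 252) (.e (nat_lit 57365) (nat_lit 1) (.e (nat_lit 57854) (nat_lit 252) .nil))))) (.g (nat_lit 0) (.e (nat_lit 9724) (nat_lit 0) .nil) .nil))) 
(.lf (nat_lit 449287) (.g (nat_lit 816) (.e (nat_lit 604) (nat_lit 45) (.e (nat_lit 532503) (nat_lit 1) (.e (nat_lit 57684) (nat_lit 155) .nil))) (.g (nat_lit 0) (.e (nat_lit 11406) (nat_lit 0) .nil) .nil))))) (.nd (nat_lit 8) (.nd (nat_lit 9) 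
(.lf (nat_lit 448647) (.g (nat_lit 2178) (.e (nat_lit 447) (nat_lit 33) (.e (nat_lit 434181) (nat_lit 0) (.e (nat_lit 1428) (nat_lit 108) (.e (nat_lit 336421) (nat_lit 28) (.e (nat_lit 434198) (nat_lit 17) (.e (nat_lit 229644) (nat_lit 232) .nil)))))) (.g (nat_lit 1) (.e (nat_lit 6684) (nat_lit 0) .nil) .nil))) 
(.lf (nat_lit 449159) (.g (nat_lit 2110) (.e (nat_lit 300) (nat_lit 22) (.e (nat_lit 344068) (nat_lit 0) (.e (nat_lit 3090) (nat_lit 191) (.e (nat_lit 483372) (nat_lit 21) (.e (nat_lit 327424) (nat_lit 10) .nil))))) (.g (nat_lit 0) (.e (nat_lit 10939) (nat_lit 0) .nil) .nil)))) (.nd (nat_lit 9) 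
(.lf (nat_lit 448903) (.g (nat_lit 2985) (.e (nat_lit 498) (nat_lit 40) (.e (nat_lit 491563) (nat_lit 12) (.e (nat_lit 385065) (nat_lit 26) (.e (nat_lit 532513) (nat_lit 3) (.e (nat_lit 122624) (nat_lit 12) (.e (nat_lit 434244) (nat_lit 28) (.e (nat_lit 573451) (nat_lit 9) .nil))))))) (.g (nat_lit 1) (.e (nat_lit 10134) (nat_lit 0) .nil) .nil))) 
(.lf (nat_lit 449415) (.g (nat_lit 1610) (.e (nat_lit 632) (nat_lit 50) (.e (nat_lit 573489) (nat_lit 14) (.e (nat_lit 73754) (nat_lit 8) (.e (nat_lit 557101) (nat_lit 13) (.e (nat_lit 172065) (nat_lit 3) .nil))))) (.g (nat_lit 0) (.e (nat_lit 11862) (nat_lit 0) .nil) .nil)))))) (.nd (nat_lit 7) (.nd (nat_lit 8) (.nd (nat_lit 9) 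
(.lf (nat_lit 448583) (.g (nat_lit 4565) (.e (nat_lit 435) (nat_lit 32) (.e (nat_lit 426139) (nat_lit 3) (.e (nat_lit 204869) (nat_lit 29) (.e (nat_lit 360474) (nat_lit 8) (.e (nat_lit 557093) (nat_lit 12) (.e (nat_lit 164022) (nat_lit 46) (.e (nat_lit 704628) (nat_lit 9) .nil))))))) (.g (nat_lit 1) (.e (nat_lit 6143) (nat_lit 0) .nil) .nil))) 
(.lf (nat_lit 449095) (.g (nat_lit 3811) (.e (nat_lit 265) (nat_lit 21) (.e (nat_lit 336013) (nat_lit 2) (.e (nat_lit 90170) (nat_lit 13) (.e (nat_lit 172113) (nat_lit 10) (.e (nat_lit 434247) (nat_lit 28) .nil))))) (.g (nat_lit 0) (.e (nat_lit 10586) (nat_lit 0) .nil) .nil)))) (.nd (nat_lit 9) 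
(.lf (nat_lit 448839) (.g (nat_lit 1986) (.e (nat_lit 496) (nat_lit 39) (.e (nat_lit 483379) (nat_lit 23) (.e (nat_lit 336320) (nat_lit 17) (.e (nat_lit 196698) (nat_lit 19) (.e (nat_lit 57813) (nat_lit 246) (.e (nat_lit 57878) (nat_lit 270) .nil)))))) (.g (nat_lit 1) (.e (nat_lit 9928) (nat_lit 0) .nil) .nil))) 
(.lf (nat_lit 449351) (.g (nat_lit 1529) (.e (nat_lit 585) (nat_lit 43) (.e (nat_lit 516120) (nat_lit 1) (.e (nat_lit 164329) (nat_lit 230) .nil))) (.g (nat_lit 0) (.e (nat_lit 11649) (nat_lit 0) .nil) .nil))))) (.nd (nat_lit 8) (.nd (nat_lit 9) 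
(.lf (nat_lit 448711) (.g (nat_lit 4519) (.e (nat_lit 457) (nat_lit 34) (.e (nat_lit 442374) (nat_lit 0) (.e (nat_lit 1856) (nat_lit 124) (.e (nat_lit 557100) (nat_lit 13) (.e (nat_lit 172113) (nat_lit 10) (.e (nat_lit 434245) (nat_lit 28) (.e (nat_lit 573450) (nat_lit 9) .nil))))))) (.g (nat_lit 1) (.e (nat_lit 7435) (nat_lit 0) .nil) .nil))) 
(.lf (nat_lit 449223) (.g (nat_lit 5043) (.e (nat_lit 592) (nat_lit 45) (.e (nat_lit 532550) (nat_lit 12) (.e (nat_lit 360475) (nat_lit 8) (.e (nat_lit 557086) (nat_lit 11) .nil)))) (.g (nat_lit 0) (.e (nat_lit 11218) (nat_lit 0) .nil) .nil)))) (.nd (nat_lit 9) 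
(.lf (nat_lit 448967) (.g (nat_lit 3112) (.e (nat_lit 501) (nat_lit 40) (.e (nat_lit 491568) (nat_lit 13) (.e (nat_lit 393301) (nat_lit 27) (.e (nat_lit 491560) (nat_lit 10) (.e (nat_lit 344094) (nat_lit 18) (.e (nat_lit 7454) (nat_lit 396) (.e (nat_lit 989) (nat_lit 81) .nil))))))) (.g (nat_lit 1) (.e (nat_lit 10267) (nat_lit 0) .nil) .nil))) 
(.lf (nat_lit 449479) (.g (nat_lit 2877) (.e (nat_lit 632) (nat_lit 50) (.e (nat_lit 573489) (nat_lit 14) (.e (nat_lit 73755) (nat_lit 8) (.e (nat_lit 557105) (nat_lit 14) (.e (nat_lit 180252) (nat_lit 10) (.e (nat_lit 581376) (nat_lit 0) (.e (nat_lit 2828) (nat_lit 182) (.e (nat_lit 409615) (nat_lit 10) .nil)))))))) (.g (nat_lit 1) (.e (nat_lit 11985) (nat_lit 0) .nil) .nil))))))) 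
(.nd (nat_lit 6) (.nd (nat_lit 7) (.nd (nat_lit 8) (.nd (nat_lit 9) 
(.lf (nat_lit 448551) (.g (nat_lit 4258) (.e (nat_lit 433) (nat_lit 32) (.e (nat_lit 426129) (nat_lit 3) (.e (nat_lit 204869) (nat_lit 29) (.e (nat_lit 360474) (nat_lit 8) (.e (nat_lit 557093) (nat_lit 12) (.e (nat_lit 164022) (nat_lit 46) (.e (nat_lit 704628) (nat_lit 9) .nil))))))) (.g (nat_lit 1) (.e (nat_lit 6067) (nat_lit 0) .nil) .nil))) 
(.lf (nat_lit 449063) (.g (nat_lit 5099) (.e (nat_lit 234) (nat_lit 21) (.e (nat_lit 336019) (nat_lit 3) (.e (nat_lit 98373) (nat_lit 29) (.e (nat_lit 450588) (nat_lit 10) (.e (nat_lit 573475) (nat_lit 12) .nil))))) (.g (nat_lit 0) (.e (nat_lit 10471) (nat_lit 0) .nil) .nil)))) (.nd (nat_lit 9) 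
(.lf (nat_lit 448807) (.g (nat_lit 2616) (.e (nat_lit 496) (nat_lit 39) (.e (nat_lit 483363) (nat_lit 18) (.e (nat_lit 57849) (nat_lit 252) (.e (nat_lit 57379) (nat_lit 3) (.e (nat_lit 98309) (nat_lit 0) .nil))))) (.g (nat_lit 0) (.e (nat_lit 9863) (nat_lit 0) .nil) .nil))) 
(.lf (nat_lit 449319) (.g (nat_lit 1691) (.e (nat_lit 607) (nat_lit 46) (.e (nat_lit 540706) (nat_lit 12) (.e (nat_lit 360475) (nat_lit 8) (.e (nat_lit 557086) (nat_lit 11) .nil)))) (.g (nat_lit 0) (.e (nat_lit 11493) (nat_lit 0) .nil) .nil))))) (.nd (nat_lit 8) (.nd (nat_lit 9) 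
(.lf (nat_lit 448679) (.g (nat_lit 3272) (.e (nat_lit 452) (nat_lit 33) (.e (nat_lit 434231) (nat_lit 23) (.e (nat_lit 532549) (nat_lit 12) (.e (nat_lit 360474) (nat_lit 8) (.e (nat_lit 557094) (nat_lit 12) (.e (nat_lit 164022) (nat_lit 46) (.e (nat_lit 704629) (nat_lit 9) .nil))))))) (.g (nat_lit 1) (.e (nat_lit 6997) (nat_lit 0) .nil) .nil))) 
(.lf (nat_lit 449191) (.g (nat_lit 977) (.e (nat_lit 7936) (nat_lit 22) (.e (nat_lit 344069) (nat_lit 0) (.e (nat_lit 3090) (nat_lit 191) (.e (nat_lit 483354) (nat_lit 17) .nil)))) (.g (nat_lit 0) (.e (nat_lit 11054) (nat_lit 0) .nil) .nil)))) (.nd (nat_lit 9) 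
(.lf (nat_lit 448935) (.g (nat_lit 2350) (.e (nat_lit 498) (nat_lit 40) (.e (nat_lit 491570) (nat_lit 13) (.e (nat_lit 393260) (nat_lit 21) (.e (nat_lit 409648) (nat_lit 18) (.e (nat_lit 303108) (nat_lit 0) .nil))))) (.g (nat_lit 0) (.e (nat_lit 10190) (nat_lit 0) .nil) .nil))) 
(.lf (nat_lit 449447) (.g (nat_lit 3349) (.e (nat_lit 632) (nat_lit 50) (.e (nat_lit 573489) (nat_lit 14) (.e (nat_lit 73755) (nat_lit 8) (.e (nat_lit 557103) (nat_lit 14) (.e (nat_lit 180243) (nat_lit 5) (.e (nat_lit 540416) (nat_lit 24) (.e (nat_lit 409616) (nat_lit 10) .nil))))))) (.g (nat_lit 1) (.e (nat_lit 11916) (nat_lit 0) .nil) .nil)))))) 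
(.nd (nat_lit 7) (.nd (nat_lit 8) (.nd (nat_lit 9) 
(.lf (nat_lit 448615) (.g (nat_lit 4516) (.e (nat_lit 442) (nat_lit 33) (.e (nat_lit 434181) (nat_lit 0) (.e (nat_lit 1253) (nat_lit 92) (.e (nat_lit 98373) (nat_lit 29) (.e (nat_lit 450587) (nat_lit 10) (.e (nat_lit 573448) (nat_lit 9) .nil)))))) (.g (nat_lit 1) (.e (nat_lit 6264) (nat_lit 0) .nil) .nil))) 
(.lf (nat_lit 449127) (.g (nat_lit 4134) (.e (nat_lit 7936) (nat_lit 21) (.e (nat_lit 336226) (nat_lit 14) (.e (nat_lit 401459) (nat_lit 13) (.e (nat_lit 483372) (nat_lit 21) (.e (nat_lit 319506) (nat_lit 10) .nil))))) (.g (nat_lit 0) (.e (nat_lit 10885) (nat_lit 0) .nil) .nil)))) (.nd (nat_lit 9) 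
(.lf (nat_lit 448871) (.g (nat_lit 753) (.e (nat_lit 496) (nat_lit 39) (.e (nat_lit 483405) (nat_lit 26) (.e (nat_lit 385057) (nat_lit 22) (.e (nat_lit 499780) (nat_lit 1) .nil)))) (.g (nat_lit 0) (.e (nat_lit 10020) (nat_lit 0) .nil) .nil))) 
(.lf (nat_lit 449383) (.g (nat_lit 3203) (.e (nat_lit 632) (nat_lit 50) (.e (nat_lit 573482) (nat_lit 13) (.e (nat_lit 65619) (nat_lit 10) (.e (nat_lit 344117) (nat_lit 21) (.e (nat_lit 516159) (nat_lit 10) (.e (nat_lit 434275) (nat_lit 39) (.e (nat_lit 663589) (nat_lit 14) (.e (nat_lit 2427) (nat_lit 157) .nil)))))))) (.g (nat_lit 1) (.e (nat_lit 11777) (nat_lit 0) .nil) .nil))))) 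
(.nd (nat_lit 8) (.nd (nat_lit 9) 
(.lf (nat_lit 448743) (.g (nat_lit 1366) (.e (nat_lit 464) (nat_lit 34) (.e (nat_lit 442379) (nat_lit 0) (.e (nat_lit 2175) (nat_lit 143) (.e (nat_lit 712749) (nat_lit 28) (.e (nat_lit 434198) (nat_lit 17) .nil))))) (.g (nat_lit 0) (.e (nat_lit 7936) (nat_lit 0) .nil) .nil))) 
(.lf (nat_lit 449255) (.g (nat_lit 2323) (.e (nat_lit 596) (nat_lit 45) (.e (nat_lit 532490) (nat_lit 0) (.e (nat_lit 1040) (nat_lit 81) (.e (nat_lit 7273) (nat_lit 385) (.e (nat_lit 122909) (nat_lit 12) (.e (nat_lit 336453) (nat_lit 34) (.e (nat_lit 483376) (nat_lit 22) (.e (nat_lit 327683) (nat_lit 0) .nil)))))))) (.g (nat_lit 1) (.e (nat_lit 11289) (nat_lit 0) .nil) .nil)))) (.nd (nat_lit 9) 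
(.lf (nat_lit 448999) (.g (nat_lit 968) (.e (nat_lit 503) (nat_lit 40) (.e (nat_lit 491569) (nat_lit 13) (.e (nat_lit 393301) (nat_lit 27) .nil))) (.g (nat_lit 0) (.e (nat_lit 10316) (nat_lit 0) .nil) .nil))) 
(.lf (nat_lit 449511) (.g (nat_lit 2398) (.e (nat_lit 850) (nat_lit 74) (.e (nat_lit 770072) (nat_lit 8) (.e (nat_lit 65583) (nat_lit 7) (.e (nat_lit 319530) (nat_lit 16) (.e (nat_lit 286759) (nat_lit 12) (.e (nat_lit 385113) (nat_lit 53) (.e (nat_lit 811031) (nat_lit 11) .nil))))))) (.g (nat_lit 1) (.e (nat_lit 12569) (nat_lit 0) .nil) .nil)))))))) 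
(.nd (nat_lit 5) (.nd (nat_lit 6) (.nd (nat_lit 7) (.nd (nat_lit 8) (.nd (nat_lit 9) 
(.lf (nat_lit 448535) (.g (nat_lit 4491) (.e (nat_lit 430) (nat_lit 32) (.e (nat_lit 426344) (nat_lit 14) (.e (nat_lit 491539) (nat_lit 3) (.e (nat_lit 98373) (nat_lit 29) (.e (nat_lit 450588) (nat_lit 10) (.e (nat_lit 573457) (nat_lit 9) .nil)))))) (.g (nat_lit 1) (.e (nat_lit 6031) (nat_lit 0) .nil) .nil))) 
(.lf (nat_lit 449047) (.g (nat_lit 3603) (.e (nat_lit 226) (nat_lit 21) (.e (nat_lit 336369) (nat_lit 27) (.e (nat_lit 426173) (nat_lit 7) (.e (nat_lit 409617) (nat_lit 10) (.e (nat_lit 632) (nat_lit 50) (.e (nat_lit 573489) (nat_lit 14) (.e (nat_lit 81664) (nat_lit 32) .nil))))))) (.g (nat_lit 1) (.e (nat_lit 10413) (nat_lit 0) .nil) .nil)))) (.nd (nat_lit 9) 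
(.lf (nat_lit 448791) (.g (nat_lit 1626) (.e (nat_lit 492) (nat_lit 39) (.e (nat_lit 483365) (nat_lit 18) (.e (nat_lit 57854) (nat_lit 252) (.e (nat_lit 57364) (nat_lit 1) .nil)))) (.g (nat_lit 0) (.e (nat_lit 9744) (nat_lit 0) .nil) .nil))) 
(.lf (nat_lit 449303) (.g (nat_lit 2933) (.e (nat_lit 7936) (nat_lit 45) (.e (nat_lit 532535) (nat_lit 9) (.e (nat_lit 336099) (nat_lit 9) (.e (nat_lit 336013) (nat_lit 2) (.e (nat_lit 90161) (nat_lit 12) .nil))))) (.g (nat_lit 0) (.e (nat_lit 11464) (nat_lit 0) .nil) .nil))))) (.nd (nat_lit 8) (.nd (nat_lit 9) 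
(.lf (nat_lit 448663) (.g (nat_lit 4048) (.e (nat_lit 452) (nat_lit 33) (.e (nat_lit 434231) (nat_lit 23) (.e (nat_lit 532549) (nat_lit 12) (.e (nat_lit 360473) (nat_lit 8) (.e (nat_lit 557091) (nat_lit 12) (.e (nat_lit 164022) (nat_lit 46) (.e (nat_lit 704626) (nat_lit 9) .nil))))))) (.g (nat_lit 1) (.e (nat_lit 6981) (nat_lit 0) .nil) .nil))) 
(.lf (nat_lit 449175) (.g (nat_lit 3148) (.e (nat_lit 300) (nat_lit 22) (.e (nat_lit 344069) (nat_lit 0) (.e (nat_lit 3090) (nat_lit 191) (.e (nat_lit 483372) (nat_lit 21) (.e (nat_lit 319506) (nat_lit 10) (.e (nat_lit 5721) (nat_lit 312) .nil)))))) (.g (nat_lit 1) (.e (nat_lit 10971) (nat_lit 0) .nil) .nil)))) (.nd (nat_lit 9) 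
(.lf (nat_lit 448919) (.g (nat_lit 3427) (.e (nat_lit 498) (nat_lit 40) (.e (nat_lit 491568) (nat_lit 13) (.e (nat_lit 393301) (nat_lit 27) (.e (nat_lit 491560) (nat_lit 10) (.e (nat_lit 344095) (nat_lit 18) .nil))))) (.g (nat_lit 0) (.e (nat_lit 10172) (nat_lit 0) .nil) .nil))) 
(.lf (nat_lit 449431) (.g (nat_lit 2981) (.e (nat_lit 632) (nat_lit 50) (.e (nat_lit 573489) (nat_lit 14) (.e (nat_lit 73755) (nat_lit 8) (.e (nat_lit 557097) (nat_lit 13) (.e (nat_lit 172065) (nat_lit 3) (.e (nat_lit 212736) (nat_lit 7) (.e (nat_lit 409617) (nat_lit 10) .nil))))))) (.g (nat_lit 1) (.e (nat_lit 11885) (nat_lit 0) .nil) .nil)))))) (.nd (nat_lit 7) (.nd (nat_lit 8) (.nd (nat_lit 9) 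
(.lf (nat_lit 448599) (.g (nat_lit 1748) (.e (nat_lit 7936) (nat_lit 32) (.e (nat_lit 426347) (nat_lit 14) (.e (nat_lit 491550) (nat_lit 9) (.e (nat_lit 336421) (nat_lit 28) (.e (nat_lit 434198) (nat_lit 17) .nil))))) (.g (nat_lit 0) (.e (nat_lit 6204) (nat_lit 0) .nil) .nil))) 
(.lf (nat_lit 449111) (.g (nat_lit 3073) (.e (nat_lit 288) (nat_lit 21) (.e (nat_lit 335872) (nat_lit 0) (.e (nat_lit 6711) (nat_lit 360) (.e (nat_lit 163962) (nat_lit 25) (.e (nat_lit 532550) (nat_lit 12) (.e (nat_lit 360475) (nat_lit 8) (.e (nat_lit 557068) (nat_lit 9) .nil))))))) (.g (nat_lit 1) (.e (nat_lit 10755) (nat_lit 0) .nil) .nil)))) (.nd (nat_lit 9) 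
(.lf (nat_lit 448855) (.g (nat_lit 893) (.e (nat_lit 496) (nat_lit 39) (.e (nat_lit 483382) (nat_lit 23) (.e (nat_lit 336320) (nat_lit 17) (.e (nat_lit 196698) (nat_lit 19) (.e (nat_lit 57808) (nat_lit 246) .nil))))) (.g (nat_lit 0) (.e (nat_lit 9946) (nat_lit 0) .nil) .nil))) 
(.lf (nat_lit 449367) (.g (nat_lit 3168) (.e (nat_lit 632) (nat_lit 50) (.e (nat_lit 573482) (nat_lit 13) (.e (nat_lit 65604) (nat_lit 9) (.e (nat_lit 336028) (nat_lit 3) (.e (nat_lit 98367) (nat_lit 27) (.e (nat_lit 434275) (nat_lit 39) (.e (nat_lit 663589) (nat_lit 14) (.e (nat_lit 2427) (nat_lit 157) .nil)))))))) (.g (nat_lit 1) (.e (nat_lit 11756) (nat_lit 0) .nil) .nil))))) 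
(.nd (nat_lit 8) (.nd (nat_lit 9) 
(.lf (nat_lit 448727) (.g (nat_lit 2024) (.e (nat_lit 460) (nat_lit 34) (.e (nat_lit 442421) (nat_lit 21) (.e (nat_lit 164319) (nat_lit 228) (.e (nat_lit 57427) (nat_lit 15) (.e (nat_lit 360484) (nat_lit 15) .nil))))) (.g (nat_lit 0) (.e (nat_lit 7714) (nat_lit 0) .nil) .nil))) 
(.lf (nat_lit 449239) (.g (nat_lit 1953) (.e (nat_lit 595) (nat_lit 45) (.e (nat_lit 532535) (nat_lit 9) (.e (nat_lit 336173) (nat_lit 10) (.e (nat_lit 344129) (nat_lit 26) .nil)))) (.g (nat_lit 0) (.e (nat_lit 11256) (nat_lit 0) .nil) .nil)))) (.nd (nat_lit 9) 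
(.lf (nat_lit 448983) (.g (nat_lit 1059) (.e (nat_lit 502) (nat_lit 40) (.e (nat_lit 491568) (nat_lit 13) (.e (nat_lit 393260) (nat_lit 21) .nil))) (.g (nat_lit 0) (.e (nat_lit 10295) (nat_lit 0) .nil) .nil))) 
(.lf (nat_lit 449495) (.g (nat_lit 1467) (.e (nat_lit 637) (nat_lit 50) (.e (nat_lit 573451) (nat_lit 9) (.e (nat_lit 1595) (nat_lit 111) (.e (nat_lit 360493) (nat_lit 27) .nil)))) (.g (nat_lit 0) (.e (nat_lit 12215) (nat_lit 0) .nil) .nil))))))) (.nd (nat_lit 6) (.nd (nat_lit 7) (.nd (nat_lit 8) (.nd (nat_lit 9) 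
(.lf (nat_lit 448567) (.g (nat_lit 3980) (.e (nat_lit 435) (nat_lit 32) (.e (nat_lit 426121) (nat_lit 2) (.e (nat_lit 196666) (nat_lit 13) (.e (nat_lit 65617) (nat_lit 10) (.e (nat_lit 344133) (nat_lit 26) (.e (nat_lit 557091) (nat_lit 12) (.e (nat_lit 164022) (nat_lit 46) (.e (nat_lit 704628) (nat_lit 9) .nil)))))))) (.g (nat_lit 1) (.e (nat_lit 6112) (nat_lit 0) .nil) .nil))) 
(.lf (nat_lit 449079) (.g (nat_lit 1877) (.e (nat_lit 253) (nat_lit 21) (.e (nat_lit 336231) (nat_lit 14) (.e (nat_lit 401425) (nat_lit 2) (.e (nat_lit 196666) (nat_lit 13) .nil)))) (.g (nat_lit 0) (.e (nat_lit 10565) (nat_lit 0) .nil) .nil)))) (.nd (nat_lit 9) 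
(.lf (nat_lit 448823) (.g (nat_lit 3567) (.e (nat_lit 496) (nat_lit 39) (.e (nat_lit 483365) (nat_lit 18) (.e (nat_lit 57849) (nat_lit 252) (.e (nat_lit 57379) (nat_lit 3) (.e (nat_lit 98309) (nat_lit 0) (.e (nat_lit 6112) (nat_lit 332) (.e (nat_lit 2507) (nat_lit 157) (.e (nat_lit 5259) (nat_lit 298) .nil)))))))) (.g (nat_lit 1) (.e (nat_lit 9907) (nat_lit 0) .nil) .nil))) 
(.lf (nat_lit 449335) (.g (nat_lit 4488) (.e (nat_lit 580) (nat_lit 43) (.e (nat_lit 516166) (nat_lit 12) (.e (nat_lit 450588) (nat_lit 10) (.e (nat_lit 573471) (nat_lit 11) .nil)))) (.g (nat_lit 0) (.e (nat_lit 11533) (nat_lit 0) .nil) .nil))))) (.nd (nat_lit 8) (.nd (nat_lit 9) 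
(.lf (nat_lit 448695) (.g (nat_lit 684) (.e (nat_lit 453) (nat_lit 34) (.e (nat_lit 442427) (nat_lit 23) (.e (nat_lit 204810) (nat_lit 9) .nil))) (.g (nat_lit 0) (.e (nat_lit 7213) (nat_lit 0) .nil) .nil))) 
(.lf (nat_lit 449207) (.g (nat_lit 3130) (.e (nat_lit 355) (nat_lit 29) (.e (nat_lit 401454) (nat_lit 12) (.e (nat_lit 475198) (nat_lit 40) (.e (nat_lit 704595) (nat_lit 5) (.e (nat_lit 180291) (nat_lit 48) (.e (nat_lit 164358) (nat_lit 246) .nil)))))) (.g (nat_lit 1) (.e (nat_lit 11163) (nat_lit 0) .nil) .nil)))) (.nd (nat_lit 9) 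
(.lf (nat_lit 448951) (.g (nat_lit 2117) (.e (nat_lit 500) (nat_lit 40) (.e (nat_lit 491566) (nat_lit 12) (.e (nat_lit 385068) (nat_lit 26) (.e (nat_lit 532499) (nat_lit 1) .nil)))) (.g (nat_lit 0) (.e (nat_lit 10227) (nat_lit 0) .nil) .nil))) 
(.lf (nat_lit 449463) (.g (nat_lit 2475) (.e (nat_lit 632) (nat_lit 50) (.e (nat_lit 573489) (nat_lit 14) (.e (nat_lit 73755) (nat_lit 8) (.e (nat_lit 557105) (nat_lit 14) (.e (nat_lit 180245) (nat_lit 5) .nil))))) (.g (nat_lit 0) (.e (nat_lit 11967) (nat_lit 0) .nil) .nil)))))) (.nd (nat_lit 7) (.nd (nat_lit 8) (.nd (nat_lit 9) 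
(.lf (nat_lit 448631) (.g (nat_lit 2087) (.e (nat_lit 446) (nat_lit 33) (.e (nat_lit 434180) (nat_lit 0) (.e (nat_lit 1427) (nat_lit 108) (.e (nat_lit 336438) (nat_lit 31) (.e (nat_lit 458769) (nat_lit 16) (.e (nat_lit 164340) (nat_lit 232) .nil)))))) (.g (nat_lit 1) (.e (nat_lit 6628) (nat_lit 0) .nil) .nil))) 
(.lf (nat_lit 449143) (.g (nat_lit 2809) (.e (nat_lit 299) (nat_lit 22) (.e (nat_lit 344069) (nat_lit 0) (.e (nat_lit 3090) (nat_lit 191) (.e (nat_lit 483372) (nat_lit 21) (.e (nat_lit 319511) (nat_lit 10) (.e (nat_lit 5664) (nat_lit 312) .nil)))))) (.g (nat_lit 1) (.e (nat_lit 10911) (nat_lit 0) .nil) .nil)))) (.nd (nat_lit 9) 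
(.lf (nat_lit 448887) (.g (nat_lit 3680) (.e (nat_lit 497) (nat_lit 39) (.e (nat_lit 483363) (nat_lit 18) (.e (nat_lit 57847) (nat_lit 252) (.e (nat_lit 57368) (nat_lit 1) (.e (nat_lit 57854) (nat_lit 252) (.e (nat_lit 57389) (nat_lit 5) (.e (nat_lit 114723) (nat_lit 24) (.e (nat_lit 106504) (nat_lit 9) .nil)))))))) (.g (nat_lit 1) (.e (nat_lit 10049) (nat_lit 0) .nil) .nil))) 
(.lf (nat_lit 449399) (.g (nat_lit 2231) (.e (nat_lit 632) (nat_lit 50) (.e (nat_lit 573485) (nat_lit 13) (.e (nat_lit 65619) (nat_lit 10) (.e (nat_lit 344090) (nat_lit 18) (.e (nat_lit 7708) (nat_lit 414) (.e (nat_lit 163908) (nat_lit 12) (.e (nat_lit 426173) (nat_lit 7) (.e (nat_lit 409617) (nat_lit 10) .nil)))))))) (.g (nat_lit 1) (.e (nat_lit 11829) (nat_lit 0) .nil) .nil))))) 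
(.nd (nat_lit 8) (.nd (nat_lit 9) 
(.lf (nat_lit 448759) (.g (nat_lit 3141) (.e (nat_lit 482) (nat_lit 38) (.e (nat_lit 475185) (nat_lit 29) (.e (nat_lit 557100) (nat_lit 13) (.e (nat_lit 172113) (nat_lit 10) .nil)))) (.g (nat_lit 0) (.e (nat_lit 9599) (nat_lit 0) .nil) .nil))) 
(.lf (nat_lit 449271) (.g (nat_lit 2712) (.e (nat_lit 604) (nat_lit 45) (.e (nat_lit 532499) (nat_lit 1) (.e (nat_lit 57926) (nat_lit 282) (.e (nat_lit 163884) (nat_lit 5) (.e (nat_lit 221212) (nat_lit 22) .nil))))) (.g (nat_lit 0) (.e (nat_lit 11376) (nat_lit 0) .nil) .nil)))) (.nd (nat_lit 9) 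
(.lf (nat_lit 449015) (.g (nat_lit 3537) (.e (nat_lit 214) (nat_lit 19) (.e (nat_lit 319492) (nat_lit 0) (.e (nat_lit 5626) (nat_lit 312) (.e (nat_lit 2685) (nat_lit 168) (.e (nat_lit 204869) (nat_lit 29) (.e (nat_lit 360474) (nat_lit 8) (.e (nat_lit 557073) (nat_lit 9) .nil))))))) (.g (nat_lit 1) (.e (nat_lit 10352) (nat_lit 0) .nil) .nil))) 
(.lf (nat_lit 449527) (.g (nat_lit 1704) (.e (nat_lit 7936) (nat_lit 74) (.e (nat_lit 770072) (nat_lit 8) (.e (nat_lit 65586) (nat_lit 7) (.e (nat_lit 319531) (nat_lit 16) (.e (nat_lit 286759) (nat_lit 12) .nil))))) (.g (nat_lit 0) (.e (nat_lit 12585) (nat_lit 0) .nil) .nil))))))))) (.nd (nat_lit 4) (.nd (nat_lit 5) (.nd (nat_lit 6) (.nd (nat_lit 7) (.nd (nat_lit 8) (.nd (nat_lit 9) 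
(.lf (nat_lit 448527) (.g (nat_lit 1584) (.e (nat_lit 430) (nat_lit 32) (.e (nat_lit 426344) (nat_lit 14) (.e (nat_lit 491536) (nat_lit 2) (.e (nat_lit 90170) (nat_lit 13) (.e (nat_lit 172113) (nat_lit 10) (.e (nat_lit 434242) (nat_lit 28) (.e (nat_lit 573456) (nat_lit 9) .nil))))))) (.g (nat_lit 1) (.e (nat_lit 6023) (nat_lit 0) .nil) .nil))) 
(.lf (nat_lit 449039) (.g (nat_lit 5833) (.e (nat_lit 220) (nat_lit 20) (.e (nat_lit 327700) (nat_lit 8) (.e (nat_lit 303119) (nat_lit 3) (.e (nat_lit 204869) (nat_lit 29) (.e (nat_lit 360474) (nat_lit 8) (.e (nat_lit 557073) (nat_lit 9) .nil)))))) (.g (nat_lit 1) (.e (nat_lit 10397) (nat_lit 0) .nil) .nil)))) (.nd (nat_lit 9) 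
(.lf (nat_lit 448783) (.g (nat_lit 1935) (.e (nat_lit 492) (nat_lit 39) (.e (nat_lit 483365) (nat_lit 18) (.e (nat_lit 57847) (nat_lit 252) (.e (nat_lit 57368) (nat_lit 1) (.e (nat_lit 57854) (nat_lit 252) (.e (nat_lit 57389) (nat_lit 5) (.e (nat_lit 114722) (nat_lit 24) (.e (nat_lit 106509) (nat_lit 9) .nil)))))))) (.g (nat_lit 1) (.e (nat_lit 9734) (nat_lit 0) .nil) .nil))) 
(.lf (nat_lit 449295) (.g (nat_lit 2566) (.e (nat_lit 604) (nat_lit 45) (.e (nat_lit 532504) (nat_lit 1) (.e (nat_lit 57931) (nat_lit 282) (.e (nat_lit 163884) (nat_lit 5) (.e (nat_lit 221212) (nat_lit 22) .nil))))) (.g (nat_lit 0) (.e (nat_lit 11418) (nat_lit 0) .nil) .nil))))) (.nd (nat_lit 8) (.nd (nat_lit 9) 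
(.lf (nat_lit 448655) (.g (nat_lit 4663) (.e (nat_lit 449) (nat_lit 33) (.e (nat_lit 434231) (nat_lit 23) (.e (nat_lit 532550) (nat_lit 12) (.e (nat_lit 360475) (nat_lit 8) (.e (nat_lit 557091) (nat_lit 12) (.e (nat_lit 164022) (nat_lit 46) (.e (nat_lit 704628) (nat_lit 9) .nil))))))) (.g (nat_lit 1) (.e (nat_lit 6786) (nat_lit 0) .nil) .nil))) 
(.lf (nat_lit 449167) (.g (nat_lit 2021) (.e (nat_lit 300) (nat_lit 22) (.e (nat_lit 344069) (nat_lit 0) (.e (nat_lit 3090) (nat_lit 191) (.e (nat_lit 483372) (nat_lit 21) (.e (nat_lit 319496) (nat_lit 10) .nil))))) (.g (nat_lit 0) (.e (nat_lit 10963) (nat_lit 0) .nil) .nil)))) (.nd (nat_lit 9) 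
(.lf (nat_lit 448911) (.g (nat_lit 3795) (.e (nat_lit 498) (nat_lit 40) (.e (nat_lit 491563) (nat_lit 12) (.e (nat_lit 385074) (nat_lit 31) (.e (nat_lit 573484) (nat_lit 13) .nil)))) (.g (nat_lit 0) (.e (nat_lit 10142) (nat_lit 0) .nil) .nil))) 
(.lf (nat_lit 449423) (.g (nat_lit 3078) (.e (nat_lit 632) (nat_lit 50) (.e (nat_lit 573489) (nat_lit 14) (.e (nat_lit 73754) (nat_lit 8) (.e (nat_lit 557103) (nat_lit 14) (.e (nat_lit 180243) (nat_lit 5) (.e (nat_lit 540416) (nat_lit 24) (.e (nat_lit 409617) (nat_lit 10) .nil))))))) (.g (nat_lit 1) (.e (nat_lit 11873) (nat_lit 0) .nil) .nil)))))) 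
(.nd (nat_lit 7) (.nd (nat_lit 8) (.nd (nat_lit 9) 
(.lf (nat_lit 448591) (.g (nat_lit 3858) (.e (nat_lit 7936) (nat_lit 32) (.e (nat_lit 426316) (nat_lit 12) (.e (nat_lit 475185) (nat_lit 29) (.e (nat_lit 557097) (nat_lit 13) .nil)))) (.g (nat_lit 0) (.e (nat_lit 6190) (nat_lit 0) .nil) .nil))) 
(.lf (nat_lit 449103) (.g (nat_lit 2435) (.e (nat_lit 282) (nat_lit 21) (.e (nat_lit 336204) (nat_lit 12) (.e (nat_lit 385074) (nat_lit 31) (.e (nat_lit 573491) (nat_lit 15) (.e (nat_lit 81946) (nat_lit 20) .nil))))) (.g (nat_lit 0) (.e (nat_lit 10640) (nat_lit 0) .nil) .nil)))) (.nd (nat_lit 9) 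
(.lf (nat_lit 448847) (.g (nat_lit 1601) (.e (nat_lit 496) (nat_lit 39) (.e (nat_lit 483380) (nat_lit 23) (.e (nat_lit 336316) (nat_lit 17) (.e (nat_lit 196698) (nat_lit 19) (.e (nat_lit 57815) (nat_lit 246) .nil))))) (.g (nat_lit 0) (.e (nat_lit 9937) (nat_lit 0) .nil) .nil))) 
(.lf (nat_lit 449359) (.g (nat_lit 2104) (.e (nat_lit 630) (nat_lit 50) (.e (nat_lit 573482) (nat_lit 13) (.e (nat_lit 65619) (nat_lit 10) (.e (nat_lit 344183) (nat_lit 49) (.e (nat_lit 819219) (nat_lit 4) .nil))))) (.g (nat_lit 0) (.e (nat_lit 11667) (nat_lit 0) .nil) .nil))))) (.nd (nat_lit 8) (.nd (nat_lit 9) 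
(.lf (nat_lit 448719) (.g (nat_lit 3737) (.e (nat_lit 457) (nat_lit 34) (.e (nat_lit 442379) (nat_lit 0) (.e (nat_lit 1856) (nat_lit 124) (.e (nat_lit 557100) (nat_lit 13) (.e (nat_lit 172113) (nat_lit 10) (.e (nat_lit 434245) (nat_lit 28) (.e (nat_lit 573450) (nat_lit 9) .nil))))))) (.g (nat_lit 1) (.e (nat_lit 7443) (nat_lit 0) .nil) .nil))) 
(.lf (nat_lit 449231) (.g (nat_lit 4686) (.e (nat_lit 594) (nat_lit 45) (.e (nat_lit 532550) (nat_lit 12) (.e (nat_lit 360475) (nat_lit 8) (.e (nat_lit 557086) (nat_lit 11) .nil)))) (.g (nat_lit 0) (.e (nat_lit 11230) (nat_lit 0) .nil) .nil)))) (.nd (nat_lit 9) 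
(.lf (nat_lit 448975) (.g (nat_lit 3637) (.e (nat_lit 501) (nat_lit 40) (.e (nat_lit 491569) (nat_lit 13) (.e (nat_lit 393301) (nat_lit 27) (.e (nat_lit 491560) (nat_lit 10) (.e (nat_lit 344179) (nat_lit 44) .nil))))) (.g (nat_lit 0) (.e (nat_lit 10275) (nat_lit 0) .nil) .nil))) 
(.lf (nat_lit 449487) (.g (nat_lit 3562) (.e (nat_lit 632) (nat_lit 50) (.e (nat_lit 573491) (nat_lit 15) (.e (nat_lit 81946) (nat_lit 20) (.e (nat_lit 2391) (nat_lit 156) (.e (nat_lit 819219) (nat_lit 4) (.e (nat_lit 172079) (nat_lit 7) (.e (nat_lit 409611) (nat_lit 10) .nil))))))) (.g (nat_lit 1) (.e (nat_lit 12031) (nat_lit 0) .nil) .nil))))))) 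
(.nd (nat_lit 6) (.nd (nat_lit 7) (.nd (nat_lit 8) (.nd (nat_lit 9) 
(.lf (nat_lit 448559) (.g (nat_lit 2719) (.e (nat_lit 433) (nat_lit 32) (.e (nat_lit 426347) (nat_lit 14) (.e (nat_lit 491549) (nat_lit 9) (.e (nat_lit 336369) (nat_lit 27) (.e (nat_lit 426173) (nat_lit 7) (.e (nat_lit 409616) (nat_lit 10) (.e (nat_lit 7936) (nat_lit 298) .nil))))))) (.g (nat_lit 1) (.e (nat_lit 6089) (nat_lit 0) .nil) .nil))) 
(.lf (nat_lit 449071) (.g (nat_lit 1510) (.e (nat_lit 247) (nat_lit 21) (.e (nat_lit 336204) (nat_lit 12) (.e (nat_lit 385074) (nat_lit 31) (.e (nat_lit 573491) (nat_lit 15) .nil)))) (.g (nat_lit 0) (.e (nat_lit 10508) (nat_lit 0) .nil) .nil)))) (.nd (nat_lit 9) 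
(.lf (nat_lit 448815) (.g (nat_lit 597) (.e (nat_lit 496) (nat_lit 39) (.e (nat_lit 483365) (nat_lit 18) (.e (nat_lit 57846) (nat_lit 252) .nil))) (.g (nat_lit 0) (.e (nat_lit 9890) (nat_lit 0) .nil) .nil))) 
(.lf (nat_lit 449327) (.g (nat_lit 2275) (.e (nat_lit 577) (nat_lit 43) (.e (nat_lit 516151) (nat_lit 9) (.e (nat_lit 426286) (nat_lit 10) (.e (nat_lit 434245) (nat_lit 28) .nil)))) (.g (nat_lit 0) (.e (nat_lit 11505) (nat_lit 0) .nil) .nil))))) (.nd (nat_lit 8) (.nd (nat_lit 9) 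
(.lf (nat_lit 448687) (.g (nat_lit 3546) (.e (nat_lit 452) (nat_lit 33) (.e (nat_lit 434231) (nat_lit 23) (.e (nat_lit 532550) (nat_lit 12) (.e (nat_lit 360474) (nat_lit 8) (.e (nat_lit 557094) (nat_lit 12) (.e (nat_lit 164022) (nat_lit 46) (.e (nat_lit 704626) (nat_lit 9) .nil))))))) (.g (nat_lit 1) (.e (nat_lit 7006) (nat_lit 0) .nil) .nil))) 
(.lf (nat_lit 449199) (.g (nat_lit 3606) (.e (nat_lit 351) (nat_lit 28) (.e (nat_lit 393253) (nat_lit 18) (.e (nat_lit 164327) (nat_lit 230) (.e (nat_lit 163873) (nat_lit 3) (.e (nat_lit 204805) (nat_lit 0) .nil))))) (.g (nat_lit 0) (.e (nat_lit 11140) (nat_lit 0) .nil) .nil)))) (.nd (nat_lit 9) 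
(.lf (nat_lit 448943) (.g (nat_lit 3566) (.e (nat_lit 499) (nat_lit 40) (.e (nat_lit 491568) (nat_lit 13) (.e (nat_lit 393301) (nat_lit 27) (.e (nat_lit 491560) (nat_lit 10) (.e (nat_lit 344179) (nat_lit 44) (.e (nat_lit 786176) (nat_lit 0) .nil)))))) (.g (nat_lit 1) (.e (nat_lit 10213) (nat_lit 0) .nil) .nil))) 
(.lf (nat_lit 449455) (.g (nat_lit 2827) (.e (nat_lit 632) (nat_lit 50) (.e (nat_lit 573489) (nat_lit 14) (.e (nat_lit 73755) (nat_lit 8) (.e (nat_lit 557104) (nat_lit 14) (.e (nat_lit 180244) (nat_lit 5) (.e (nat_lit 540416) (nat_lit 24) (.e (nat_lit 409608) (nat_lit 10) .nil))))))) (.g (nat_lit 1) (.e (nat_lit 11941) (nat_lit 0) .nil) .nil)))))) 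
(.nd (nat_lit 7) (.nd (nat_lit 8) (.nd (nat_lit 9) 
(.lf (nat_lit 448623) (.g (nat_lit 3698) (.e (nat_lit 442) (nat_lit 33) (.e (nat_lit 434233) (nat_lit 23) (.e (nat_lit 532535) (nat_lit 9) (.e (nat_lit 336173) (nat_lit 10) (.e (nat_lit 344132) (nat_lit 26) (.e (nat_lit 557093) (nat_lit 12) (.e (nat_lit 164023) (nat_lit 46) (.e (nat_lit 704629) (nat_lit 9) .nil)))))))) (.g (nat_lit 1) (.e (nat_lit 6302) (nat_lit 0) .nil) .nil))) 
(.lf (nat_lit 449135) (.g (nat_lit 4164) (.e (nat_lit 297) (nat_lit 22) (.e (nat_lit 344118) (nat_lit 21) (.e (nat_lit 516151) (nat_lit 9) (.e (nat_lit 426286) (nat_lit 10) (.e (nat_lit 434247) (nat_lit 28) .nil))))) (.g (nat_lit 0) (.e (nat_lit 10897) (nat_lit 0) .nil) .nil)))) (.nd (nat_lit 9) 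
(.lf (nat_lit 448879) (.g (nat_lit 989) (.e (nat_lit 496) (nat_lit 39) (.e (nat_lit 483406) (nat_lit 26) (.e (nat_lit 385057) (nat_lit 22) (.e (nat_lit 499780) (nat_lit 1) .nil)))) (.g (nat_lit 0) (.e (nat_lit 10033) (nat_lit 0) .nil) .nil))) 
(.lf (nat_lit 449391) (.g (nat_lit 1509) (.e (nat_lit 632) (nat_lit 50) (.e (nat_lit 573484) (nat_lit 13) (.e (nat_lit 65610) (nat_lit 10) (.e (nat_lit 344090) (nat_lit 18) .nil)))) (.g (nat_lit 0) (.e (nat_lit 11792) (nat_lit 0) .nil) .nil))))) (.nd (nat_lit 8) (.nd (nat_lit 9) 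
(.lf (nat_lit 448751) (.g (nat_lit 283) (.e (nat_lit 7936) (nat_lit 35) (.e (nat_lit 450595) (nat_lit 17) (.e (nat_lit 663575) (nat_lit 9) .nil))) (.g (nat_lit 0) (.e (nat_lit 9163) (nat_lit 0) .nil) .nil))) 
(.lf (nat_lit 449263) (.g (nat_lit 764) (.e (nat_lit 596) (nat_lit 45) (.e (nat_lit 532550) (nat_lit 12) (.e (nat_lit 360474) (nat_lit 8) .nil))) (.g (nat_lit 0) (.e (nat_lit 11354) (nat_lit 0) .nil) .nil)))) (.nd (nat_lit 9) 
(.lf (nat_lit 449007) (.g (nat_lit 3395) (.e (nat_lit 7936) (nat_lit 40) (.e (nat_lit 491571) (nat_lit 13) (.e (nat_lit 393260) (nat_lit 21) (.e (nat_lit 409649) (nat_lit 18) .nil)))) (.g (nat_lit 0) (.e (nat_lit 10330) (nat_lit 0) .nil) .nil))) 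
(.lf (nat_lit 449519) (.g (nat_lit 4147) (.e (nat_lit 852) (nat_lit 74) (.e (nat_lit 770072) (nat_lit 8) (.e (nat_lit 65586) (nat_lit 7) (.e (nat_lit 319531) (nat_lit 16) (.e (nat_lit 286748) (nat_lit 9) (.e (nat_lit 336295) (nat_lit 15) (.e (nat_lit 3632) (nat_lit 227) (.e (nat_lit 778548) (nat_lit 14) (.e (nat_lit 992) (nat_lit 81) .nil))))))))) (.g (nat_lit 1) (.e (nat_lit 12577) (nat_lit 0) .nil) .nil)))))))) 
(.nd (nat_lit 5) (.nd (nat_lit 6) (.nd (nat_lit 7) (.nd (nat_lit 8) (.nd (nat_lit 9) 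
(.lf (nat_lit 448543) (.g (nat_lit 2796) (.e (nat_lit 432) (nat_lit 32) (.e (nat_lit 426347) (nat_lit 14) (.e (nat_lit 491570) (nat_lit 13) (.e (nat_lit 393260) (nat_lit 21) (.e (nat_lit 409625) (nat_lit 10) .nil))))) (.g (nat_lit 0) (.e (nat_lit 6054) (nat_lit 0) .nil) .nil))) 
(.lf (nat_lit 449055) (.g (nat_lit 3477) (.e (nat_lit 232) (nat_lit 21) (.e (nat_lit 336013) (nat_lit 2) (.e (nat_lit 90134) (nat_lit 9) (.e (nat_lit 3025) (nat_lit 187) (.e (nat_lit 450588) (nat_lit 10) (.e (nat_lit 573475) (nat_lit 12) (.e (nat_lit 57574) (nat_lit 55) (.e (nat_lit 778359) (nat_lit 9) .nil)))))))) (.g (nat_lit 1) (.e (nat_lit 10447) (nat_lit 0) .nil) .nil)))) (.nd (nat_lit 9) 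
(.lf (nat_lit 448799) (.g (nat_lit 2105) (.e (nat_lit 494) (nat_lit 39) (.e (nat_lit 483364) (nat_lit 18) (.e (nat_lit 57854) (nat_lit 252) (.e (nat_lit 57378) (nat_lit 3) (.e (nat_lit 98309) (nat_lit 0) .nil))))) (.g (nat_lit 0) (.e (nat_lit 9814) (nat_lit 0) .nil) .nil))) 
(.lf (nat_lit 449311) (.g (nat_lit 3304) (.e (nat_lit 7936) (nat_lit 45) (.e (nat_lit 532550) (nat_lit 12) (.e (nat_lit 360473) (nat_lit 8) (.e (nat_lit 557087) (nat_lit 11) (.e (nat_lit 24617) (nat_lit 7) .nil))))) (.g (nat_lit 0) (.e (nat_lit 11479) (nat_lit 0) .nil) .nil))))) (.nd (nat_lit 8) (.nd (nat_lit 9) 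
(.lf (nat_lit 448671) (.g (nat_lit 2739) (.e (nat_lit 452) (nat_lit 33) (.e (nat_lit 434231) (nat_lit 23) (.e (nat_lit 532549) (nat_lit 12) (.e (nat_lit 360474) (nat_lit 8) (.e (nat_lit 557093) (nat_lit 12) .nil))))) (.g (nat_lit 0) (.e (nat_lit 6989) (nat_lit 0) .nil) .nil))) 
(.lf (nat_lit 449183) (.g (nat_lit 3368) (.e (nat_lit 307) (nat_lit 22) (.e (nat_lit 344090) (nat_lit 18) (.e (nat_lit 4708) (nat_lit 275) (.e (nat_lit 2610) (nat_lit 163) (.e (nat_lit 163977) (nat_lit 30) (.e (nat_lit 573482) (nat_lit 13) (.e (nat_lit 65619) (nat_lit 10) (.e (nat_lit 344129) (nat_lit 26) (.e (nat_lit 557066) (nat_lit 9) .nil))))))))) (.g (nat_lit 1) (.e (nat_lit 11027) (nat_lit 0) .nil) .nil)))) 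
(.nd (nat_lit 9) 
(.lf (nat_lit 448927) (.g (nat_lit 3817) (.e (nat_lit 498) (nat_lit 40) (.e (nat_lit 491569) (nat_lit 13) (.e (nat_lit 393301) (nat_lit 27) (.e (nat_lit 491559) (nat_lit 10) (.e (nat_lit 344091) (nat_lit 18) .nil))))) (.g (nat_lit 0) (.e (nat_lit 10180) (nat_lit 0) .nil) .nil))) 
(.lf (nat_lit 449439) (.g (nat_lit 2906) (.e (nat_lit 632) (nat_lit 50) (.e (nat_lit 573489) (nat_lit 14) (.e (nat_lit 73755) (nat_lit 8) (.e (nat_lit 557098) (nat_lit 13) (.e (nat_lit 172066) (nat_lit 3) .nil))))) (.g (nat_lit 0) (.e (nat_lit 11904) (nat_lit 0) .nil) .nil)))))) (.nd (nat_lit 7) (.nd (nat_lit 8) (.nd (nat_lit 9) 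
(.lf (nat_lit 448607) (.g (nat_lit 3326) (.e (nat_lit 441) (nat_lit 33) (.e (nat_lit 434181) (nat_lit 0) (.e (nat_lit 1252) (nat_lit 92) (.e (nat_lit 98373) (nat_lit 29) (.e (nat_lit 450587) (nat_lit 10) (.e (nat_lit 573454) (nat_lit 9) .nil)))))) (.g (nat_lit 1) (.e (nat_lit 6213) (nat_lit 0) .nil) .nil))) 
(.lf (nat_lit 449119) (.g (nat_lit 1555) (.e (nat_lit 292) (nat_lit 21) (.e (nat_lit 336235) (nat_lit 14) (.e (nat_lit 401458) (nat_lit 13) (.e (nat_lit 483350) (nat_lit 17) .nil)))) (.g (nat_lit 0) (.e (nat_lit 10852) (nat_lit 0) .nil) .nil)))) (.nd (nat_lit 9) 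
(.lf (nat_lit 448863) (.g (nat_lit 2005) (.e (nat_lit 496) (nat_lit 39) (.e (nat_lit 483383) (nat_lit 23) (.e (nat_lit 336316) (nat_lit 17) (.e (nat_lit 196698) (nat_lit 19) (.e (nat_lit 57816) (nat_lit 246) (.e (nat_lit 57881) (nat_lit 270) .nil)))))) (.g (nat_lit 1) (.e (nat_lit 9960) (nat_lit 0) .nil) .nil))) 
(.lf (nat_lit 449375) (.g (nat_lit 2603) (.e (nat_lit 632) (nat_lit 50) (.e (nat_lit 573482) (nat_lit 13) (.e (nat_lit 65619) (nat_lit 10) (.e (nat_lit 344090) (nat_lit 18) (.e (nat_lit 7708) (nat_lit 414) (.e (nat_lit 163909) (nat_lit 12) (.e (nat_lit 426173) (nat_lit 7) (.e (nat_lit 409617) (nat_lit 10) .nil)))))))) (.g (nat_lit 1) (.e (nat_lit 11769) (nat_lit 0) .nil) .nil))))) 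
(.nd (nat_lit 8) (.nd (nat_lit 9) 
(.lf (nat_lit 448735) (.g (nat_lit 2041) (.e (nat_lit 463) (nat_lit 34) (.e (nat_lit 442396) (nat_lit 20) (.e (nat_lit 3402) (nat_lit 211) (.e (nat_lit 647183) (nat_lit 4) (.e (nat_lit 172079) (nat_lit 7) (.e (nat_lit 409618) (nat_lit 10) (.e (nat_lit 5364) (nat_lit 298) .nil))))))) (.g (nat_lit 1) (.e (nat_lit 7821) (nat_lit 0) .nil) .nil))) 
(.lf (nat_lit 449247) (.g (nat_lit 3809) (.e (nat_lit 595) (nat_lit 45) (.e (nat_lit 532550) (nat_lit 12) (.e (nat_lit 360475) (nat_lit 8) (.e (nat_lit 557085) (nat_lit 11) (.e (nat_lit 24622) (nat_lit 8) .nil))))) (.g (nat_lit 0) (.e (nat_lit 11278) (nat_lit 0) .nil) .nil)))) (.nd (nat_lit 9) 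
(.lf (nat_lit 448991) (.g (nat_lit 4807) (.e (nat_lit 502) (nat_lit 40) (.e (nat_lit 491571) (nat_lit 13) (.e (nat_lit 393260) (nat_lit 21) (.e (nat_lit 409649) (nat_lit 18) (.e (nat_lit 303111) (nat_lit 0) .nil))))) (.g (nat_lit 0) (.e (nat_lit 10304) (nat_lit 0) .nil) .nil))) 
(.lf (nat_lit 449503) (.g (nat_lit 1891) (.e (nat_lit 682) (nat_lit 58) (.e (nat_lit 638998) (nat_lit 8) (.e (nat_lit 172123) (nat_lit 13) (.e (nat_lit 483403) (nat_lit 26) (.e (nat_lit 385114) (nat_lit 53) .nil))))) (.g (nat_lit 0) (.e (nat_lit 12293) (nat_lit 0) .nil) .nil))))))) (.nd (nat_lit 6) (.nd (nat_lit 7) (.nd (nat_lit 8) (.nd (nat_lit 9) 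
(.lf (nat_lit 448575) (.g (nat_lit 3639) (.e (nat_lit 435) (nat_lit 32) (.e (nat_lit 426123) (nat_lit 2) (.e (nat_lit 196666) (nat_lit 13) (.e (nat_lit 65617) (nat_lit 10) (.e (nat_lit 344132) (nat_lit 26) (.e (nat_lit 557093) (nat_lit 12) (.e (nat_lit 164023) (nat_lit 46) (.e (nat_lit 704628) (nat_lit 9) .nil)))))))) (.g (nat_lit 1) (.e (nat_lit 6120) (nat_lit 0) .nil) .nil))) 
(.lf (nat_lit 449087) (.g (nat_lit 3481) (.e (nat_lit 260) (nat_lit 21) (.e (nat_lit 336226) (nat_lit 14) (.e (nat_lit 401459) (nat_lit 13) (.e (nat_lit 483372) (nat_lit 21) (.e (nat_lit 319505) (nat_lit 10) .nil))))) (.g (nat_lit 0) (.e (nat_lit 10578) (nat_lit 0) .nil) .nil)))) (.nd (nat_lit 9) 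
(.lf (nat_lit 448831) (.g (nat_lit 3653) (.e (nat_lit 496) (nat_lit 39) (.e (nat_lit 483372) (nat_lit 21) (.e (nat_lit 319505) (nat_lit 10) (.e (nat_lit 618) (nat_lit 48) (.e (nat_lit 557103) (nat_lit 14) (.e (nat_lit 188160) (nat_lit 32) .nil)))))) (.g (nat_lit 1) (.e (nat_lit 9919) (nat_lit 0) .nil) .nil))) 
(.lf (nat_lit 449343) (.g (nat_lit 4977) (.e (nat_lit 583) (nat_lit 43) (.e (nat_lit 516166) (nat_lit 12) (.e (nat_lit 450588) (nat_lit 10) (.e (nat_lit 573471) (nat_lit 11) .nil)))) (.g (nat_lit 0) (.e (nat_lit 11555) (nat_lit 0) .nil) .nil))))) (.nd (nat_lit 8) (.nd (nat_lit 9) 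
(.lf (nat_lit 448703) (.g (nat_lit 2200) (.e (nat_lit 456) (nat_lit 34) (.e (nat_lit 442374) (nat_lit 0) (.e (nat_lit 2059) (nat_lit 142) (.e (nat_lit 704595) (nat_lit 5) (.e (nat_lit 180292) (nat_lit 49) (.e (nat_lit 229647) (nat_lit 232) .nil)))))) (.g (nat_lit 1) (.e (nat_lit 7338) (nat_lit 0) .nil) .nil))) 
(.lf (nat_lit 449215) (.g (nat_lit 2304) (.e (nat_lit 539) (nat_lit 41) (.e (nat_lit 500065) (nat_lit 18) (.e (nat_lit 65610) (nat_lit 10) (.e (nat_lit 344129) (nat_lit 26) (.e (nat_lit 557087) (nat_lit 11) .nil))))) (.g (nat_lit 0) (.e (nat_lit 11201) (nat_lit 0) .nil) .nil)))) (.nd (nat_lit 9) 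
(.lf (nat_lit 448959) (.g (nat_lit 3301) (.e (nat_lit 500) (nat_lit 40) (.e (nat_lit 491568) (nat_lit 13) (.e (nat_lit 393301) (nat_lit 27) (.e (nat_lit 491560) (nat_lit 10) (.e (nat_lit 352000) (nat_lit 44) (.e (nat_lit 778254) (nat_lit 0) .nil)))))) (.g (nat_lit 1) (.e (nat_lit 10242) (nat_lit 0) .nil) .nil))) 
(.lf (nat_lit 449471) (.g (nat_lit 1784) (.e (nat_lit 632) (nat_lit 50) (.e (nat_lit 573489) (nat_lit 14) (.e (nat_lit 73755) (nat_lit 8) (.e (nat_lit 557105) (nat_lit 14) (.e (nat_lit 180252) (nat_lit 10) (.e (nat_lit 581376) (nat_lit 0) (.e (nat_lit 2823) (nat_lit 182) (.e (nat_lit 409612) (nat_lit 10) .nil)))))))) (.g (nat_lit 1) (.e (nat_lit 11977) (nat_lit 0) .nil) .nil)))))) 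
(.nd (nat_lit 7) (.nd (nat_lit 8) (.nd (nat_lit 9) 
(.lf (nat_lit 448639) (.g (nat_lit 2487) (.e (nat_lit 447) (nat_lit 33) (.e (nat_lit 434180) (nat_lit 0) (.e (nat_lit 1427) (nat_lit 108) (.e (nat_lit 336421) (nat_lit 28) (.e (nat_lit 434198) (nat_lit 17) (.e (nat_lit 229647) (nat_lit 232) .nil)))))) (.g (nat_lit 1) (.e (nat_lit 6676) (nat_lit 0) .nil) .nil))) 
(.lf (nat_lit 449151) (.g (nat_lit 2558) (.e (nat_lit 300) (nat_lit 22) (.e (nat_lit 344068) (nat_lit 0) (.e (nat_lit 3090) (nat_lit 191) (.e (nat_lit 483372) (nat_lit 21) (.e (nat_lit 319502) (nat_lit 10) .nil))))) (.g (nat_lit 0) (.e (nat_lit 10931) (nat_lit 0) .nil) .nil)))) (.nd (nat_lit 9) 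
(.lf (nat_lit 448895) (.g (nat_lit 1168) (.e (nat_lit 497) (nat_lit 39) (.e (nat_lit 483412) (nat_lit 27) (.e (nat_lit 409344) (nat_lit 17) (.e (nat_lit 90172) (nat_lit 14) (.e (nat_lit 188160) (nat_lit 32) .nil))))) (.g (nat_lit 0) (.e (nat_lit 10078) (nat_lit 0) .nil) .nil))) 
(.lf (nat_lit 449407) (.g (nat_lit 2542) (.e (nat_lit 632) (nat_lit 50) (.e (nat_lit 573489) (nat_lit 14) (.e (nat_lit 73754) (nat_lit 8) (.e (nat_lit 557100) (nat_lit 13) (.e (nat_lit 172065) (nat_lit 3) .nil))))) (.g (nat_lit 0) (.e (nat_lit 11852) (nat_lit 0) .nil) .nil))))) (.nd (nat_lit 8) (.nd (nat_lit 9) 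
(.lf (nat_lit 448767) (.g (nat_lit 743) (.e (nat_lit 488) (nat_lit 38) (.e (nat_lit 475212) (nat_lit 42) (.e (nat_lit 720929) (nat_lit 21) .nil))) (.g (nat_lit 0) (.e (nat_lit 9671) (nat_lit 0) .nil) .nil))) 
(.lf (nat_lit 449279) (.g (nat_lit 3003) (.e (nat_lit 604) (nat_lit 45) (.e (nat_lit 532499) (nat_lit 1) (.e (nat_lit 57931) (nat_lit 282) (.e (nat_lit 163884) (nat_lit 5) (.e (nat_lit 221210) (nat_lit 22) (.e (nat_lit 196656) (nat_lit 11) (.e (nat_lit 16425) (nat_lit 7) (.e (nat_lit 409617) (nat_lit 10) .nil)))))))) (.g (nat_lit 1) (.e (nat_lit 11384) (nat_lit 0) .nil) .nil)))) (.nd (nat_lit 9) 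
(.lf (nat_lit 449023) (.g (nat_lit 3117) (.e (nat_lit 220) (nat_lit 20) (.e (nat_lit 327698) (nat_lit 8) (.e (nat_lit 303119) (nat_lit 3) (.e (nat_lit 204869) (nat_lit 29) (.e (nat_lit 360474) (nat_lit 8) (.e (nat_lit 557072) (nat_lit 9) .nil)))))) (.g (nat_lit 1) (.e (nat_lit 10381) (nat_lit 0) .nil) .nil))) 
(.lf (nat_lit 449535) (.g (nat_lit 2590) (.e (nat_lit 879) (nat_lit 75) (.e (nat_lit 778466) (nat_lit 11) (.e (nat_lit 24617) (nat_lit 7) (.e (nat_lit 319529) (nat_lit 16) (.e (nat_lit 286759) (nat_lit 12) (.e (nat_lit 385115) (nat_lit 53) (.e (nat_lit 811034) (nat_lit 11) .nil))))))) (.g (nat_lit 1) (.e (nat_lit 12609) (nat_lit 0) .nil) .nil)))))))))))))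

noncomputable def tv5499 : DT := (.nd (nat_lit 0) (.nd (nat_lit 1) (.nd (nat_lit 2) (.nd (nat_lit 3) (.nd (nat_lit 4) (.nd (nat_lit 5) (.nd (nat_lit 6) (.nd (nat_lit 7) (.nd (nat_lit 8) (.nd (nat_lit 9) 
(.lf (nat_lit 449536) (.g (nat_lit 2948) (.e (nat_lit 879) (nat_lit 75) (.e (nat_lit 778466) (nat_lit 11) (.e (nat_lit 24617) (nat_lit 7) (.e (nat_lit 319530) (nat_lit 16) (.e (nat_lit 286759) (nat_lit 12) .nil))))) (.g (nat_lit 0) (.e (nat_lit 12610) (nat_lit 0) .nil) .nil))) 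
(.lf (nat_lit 450048) (.g (nat_lit 3386) (.e (nat_lit 2477) (nat_lit 157) (.e (nat_lit 2663) (nat_lit 167) (.e (nat_lit 196666) (nat_lit 13) (.e (nat_lit 65610) (nat_lit 10) (.e (nat_lit 344117) (nat_lit 21) (.e (nat_lit 516151) (nat_lit 9) (.e (nat_lit 426104) (nat_lit 1) (.e (nat_lit 164254) (nat_lit 215) .nil)))))))) (.g (nat_lit 1) (.e (nat_lit 14290) (nat_lit 0) .nil) .nil)))) 
(.nd (nat_lit 9) 
(.lf (nat_lit 449792) (.g (nat_lit 1921) (.e (nat_lit 2433) (nat_lit 157) (.e (nat_lit 2668) (nat_lit 167) (.e (nat_lit 196666) (nat_lit 13) (.e (nat_lit 65610) (nat_lit 10) (.e (nat_lit 344117) (nat_lit 21) (.e (nat_lit 516151) (nat_lit 9) (.e (nat_lit 426018) (nat_lit 0) (.e (nat_lit 2411) (nat_lit 157) (.e (nat_lit 4761) (nat_lit 281) .nil))))))))) (.g (nat_lit 1) (.e (nat_lit 13399) (nat_lit 0) .nil) .nil))) 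
(.lf (nat_lit 450304) (.g (nat_lit 2106) (.e (nat_lit 2551) (nat_lit 159) (.e (nat_lit 24640) (nat_lit 10) (.e (nat_lit 344156) (nat_lit 36) (.e (nat_lit 638998) (nat_lit 8) (.e (nat_lit 172106) (nat_lit 10) (.e (nat_lit 434202) (nat_lit 18) (.e (nat_lit 5796) (nat_lit 320) .nil))))))) (.g (nat_lit 1) (.e (nat_lit 15449) (nat_lit 0) .nil) .nil))))) (.nd (nat_lit 8) (.nd (nat_lit 9) 
(.lf (nat_lit 449664) (.g (nat_lit 2278) (.e (nat_lit 787) (nat_lit 66) (.e (nat_lit 704738) (nat_lit 11) (.e (nat_lit 16425) (nat_lit 7) (.e (nat_lit 409646) (nat_lit 18) .nil)))) (.g (nat_lit 0) (.e (nat_lit 12882) (nat_lit 0) .nil) .nil))) 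
(.lf (nat_lit 450176) (.g (nat_lit 4604) (.e (nat_lit 2508) (nat_lit 157) (.e (nat_lit 3249) (nat_lit 197) (.e (nat_lit 532526) (nat_lit 8) (.e (nat_lit 327699) (nat_lit 8) (.e (nat_lit 303119) (nat_lit 3) (.e (nat_lit 204863) (nat_lit 27) (.e (nat_lit 344066) (nat_lit 0) .nil))))))) (.g (nat_lit 1) (.e (nat_lit 14917) (nat_lit 0) .nil) .nil)))) (.nd (nat_lit 9) 
(.lf (nat_lit 449920) (.g (nat_lit 2497) (.e (nat_lit 2458) (nat_lit 157) (.e (nat_lit 5546) (nat_lit 306) (.e (nat_lit 2610) (nat_lit 163) (.e (nat_lit 163978) (nat_lit 30) (.e (nat_lit 573484) (nat_lit 13) (.e (nat_lit 65610) (nat_lit 10) (.e (nat_lit 344117) (nat_lit 21) (.e (nat_lit 516145) (nat_lit 9) (.e (nat_lit 426091) (nat_lit 0) .nil))))))))) (.g (nat_lit 1) (.e (nat_lit 13962) (nat_lit 0) .nil) .nil))) 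
(.lf (nat_lit 450432) (.g (nat_lit 967) (.e (nat_lit 2555) (nat_lit 159) (.e (nat_lit 24617) (nat_lit 7) (.e (nat_lit 319504) (nat_lit 10) (.e (nat_lit 618) (nat_lit 48) .nil)))) (.g (nat_lit 0) (.e (nat_lit 15896) (nat_lit 0) .nil) .nil)))))) (.nd (nat_lit 7) (.nd (nat_lit 8) (.nd (nat_lit 9) 
(.lf (nat_lit 449600) (.g (nat_lit 2167) (.e (nat_lit 883) (nat_lit 75) (.e (nat_lit 778466) (nat_lit 11) (.e (nat_lit 24617) (nat_lit 7) (.e (nat_lit 319531) (nat_lit 16) (.e (nat_lit 286759) (nat_lit 12) (.e (nat_lit 385093) (nat_lit 49) (.e (nat_lit 778510) (nat_lit 14) (.e (nat_lit 982) (nat_lit 81) .nil)))))))) (.g (nat_lit 1) (.e (nat_lit 12682) (nat_lit 0) .nil) .nil))) 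
(.lf (nat_lit 450112) (.g (nat_lit 3371) (.e (nat_lit 2489) (nat_lit 157) (.e (nat_lit 2663) (nat_lit 167) (.e (nat_lit 196666) (nat_lit 13) (.e (nat_lit 65610) (nat_lit 10) (.e (nat_lit 344117) (nat_lit 21) .nil))))) (.g (nat_lit 0) (.e (nat_lit 14569) (nat_lit 0) .nil) .nil)))) (.nd (nat_lit 9) 
(.lf (nat_lit 449856) (.g (nat_lit 2668) (.e (nat_lit 2445) (nat_lit 157) (.e (nat_lit 2668) (nat_lit 167) (.e (nat_lit 196666) (nat_lit 13) (.e (nat_lit 65610) (nat_lit 10) (.e (nat_lit 344117) (nat_lit 21) (.e (nat_lit 516151) (nat_lit 9) (.e (nat_lit 426042) (nat_lit 0) (.e (nat_lit 2416) (nat_lit 157) (.e (nat_lit 4778) (nat_lit 281) .nil))))))))) (.g (nat_lit 1) (.e (nat_lit 13673) (nat_lit 0) .nil) .nil))) 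
(.lf (nat_lit 450368) (.g (nat_lit 1166) (.e (nat_lit 2552) (nat_lit 159) (.e (nat_lit 24660) (nat_lit 13) (.e (nat_lit 393260) (nat_lit 21) (.e (nat_lit 409648) (nat_lit 18) .nil)))) (.g (nat_lit 0) (.e (nat_lit 15673) (nat_lit 0) .nil) .nil))))) (.nd (nat_lit 8) (.nd (nat_lit 9) 
(.lf (nat_lit 449728) (.g (nat_lit 4436) (.e (nat_lit 2399) (nat_lit 157) (.e (nat_lit 2668) (nat_lit 167) (.e (nat_lit 196666) (nat_lit 13) (.e (nat_lit 65610) (nat_lit 10) (.e (nat_lit 344117) (nat_lit 21) (.e (nat_lit 516160) (nat_lit 10) (.e (nat_lit 434208) (nat_lit 18) (.e (nat_lit 4751) (nat_lit 281) .nil)))))))) (.g (nat_lit 1) (.e (nat_lit 13100) (nat_lit 0) .nil) .nil))) 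
(.lf (nat_lit 450240) (.g (nat_lit 4329) (.e (nat_lit 2515) (nat_lit 157) (.e (nat_lit 5948) (nat_lit 322) (.e (nat_lit 57373) (nat_lit 2) (.e (nat_lit 90174) (nat_lit 14) (.e (nat_lit 180243) (nat_lit 5) (.e (nat_lit 532513) (nat_lit 3) (.e (nat_lit 114718) (nat_lit 23) (.e (nat_lit 98325) (nat_lit 17) .nil)))))))) (.g (nat_lit 1) (.e (nat_lit 15245) (nat_lit 0) .nil) .nil)))) (.nd (nat_lit 9) 
(.lf (nat_lit 449984) (.g (nat_lit 2738) (.e (nat_lit 2466) (nat_lit 157) (.e (nat_lit 3307) (nat_lit 202) (.e (nat_lit 573489) (nat_lit 14) (.e (nat_lit 73755) (nat_lit 8) (.e (nat_lit 557105) (nat_lit 14) (.e (nat_lit 180252) (nat_lit 10) (.e (nat_lit 573474) (nat_lit 12) (.e (nat_lit 57502) (nat_lit 38) (.e (nat_lit 638986) (nat_lit 5) .nil))))))))) (.g (nat_lit 1) (.e (nat_lit 14150) (nat_lit 0) .nil) .nil))) 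
(.lf (nat_lit 450496) (.g (nat_lit 4984) (.e (nat_lit 2557) (nat_lit 159) (.e (nat_lit 24662) (nat_lit 14) (.e (nat_lit 401425) (nat_lit 2) (.e (nat_lit 196666) (nat_lit 13) (.e (nat_lit 65617) (nat_lit 10) .nil))))) (.g (nat_lit 0) (.e (nat_lit 16190) (nat_lit 0) .nil) .nil))))))) (.nd (nat_lit 6) (.nd (nat_lit 7) (.nd (nat_lit 8) (.nd (nat_lit 9) 
(.lf (nat_lit 449568) (.g (nat_lit 2168) (.e (nat_lit 883) (nat_lit 75) (.e (nat_lit 778465) (nat_lit 11) (.e (nat_lit 24617) (nat_lit 7) (.e (nat_lit 319531) (nat_lit 16) (.e (nat_lit 286759) (nat_lit 12) (.e (nat_lit 385093) (nat_lit 49) (.e (nat_lit 778510) (nat_lit 14) (.e (nat_lit 982) (nat_lit 81) .nil)))))))) (.g (nat_lit 1) (.e (nat_lit 12646) (nat_lit 0) .nil) .nil))) 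
(.lf (nat_lit 450080) (.g (nat_lit 3815) (.e (nat_lit 2479) (nat_lit 157) (.e (nat_lit 2663) (nat_lit 167) (.e (nat_lit 196666) (nat_lit 13) (.e (nat_lit 65610) (nat_lit 10) (.e (nat_lit 344117) (nat_lit 21) (.e (nat_lit 516151) (nat_lit 9) (.e (nat_lit 426104) (nat_lit 1) (.e (nat_lit 164254) (nat_lit 215) .nil)))))))) (.g (nat_lit 1) (.e (nat_lit 14391) (nat_lit 0) .nil) .nil)))) 
(.nd (nat_lit 9) 
(.lf (nat_lit 449824) (.g (nat_lit 2594) (.e (nat_lit 2438) (nat_lit 157) (.e (nat_lit 3540) (nat_lit 218) (.e (nat_lit 704738) (nat_lit 11) (.e (nat_lit 16425) (nat_lit 7) (.e (nat_lit 409649) (nat_lit 18) .nil))))) (.g (nat_lit 0) (.e (nat_lit 13518) (nat_lit 0) .nil) .nil))) 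
(.lf (nat_lit 450336) (.g (nat_lit 2786) (.e (nat_lit 2551) (nat_lit 159) (.e (nat_lit 24640) (nat_lit 10) (.e (nat_lit 344156) (nat_lit 36) (.e (nat_lit 638998) (nat_lit 8) (.e (nat_lit 172115) (nat_lit 10) (.e (nat_lit 434209) (nat_lit 18) (.e (nat_lit 5841) (nat_lit 320) .nil))))))) (.g (nat_lit 1) (.e (nat_lit 15481) (nat_lit 0) .nil) .nil))))) (.nd (nat_lit 8) (.nd (nat_lit 9) 
(.lf (nat_lit 449696) (.g (nat_lit 382) (.e (nat_lit 2400) (nat_lit 157) (.e (nat_lit 5604) (nat_lit 310) (.e (nat_lit 163932) (nat_lit 17) .nil))) (.g (nat_lit 0) (.e (nat_lit 13013) (nat_lit 0) .nil) .nil))) 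
(.lf (nat_lit 450208) (.g (nat_lit 2374) (.e (nat_lit 2517) (nat_lit 157) (.e (nat_lit 2664) (nat_lit 167) (.e (nat_lit 196666) (nat_lit 13) (.e (nat_lit 65610) (nat_lit 10) (.e (nat_lit 344117) (nat_lit 21) .nil))))) (.g (nat_lit 0) (.e (nat_lit 15134) (nat_lit 0) .nil) .nil)))) (.nd (nat_lit 9) 
(.lf (nat_lit 449952) (.g (nat_lit 2247) (.e (nat_lit 2458) (nat_lit 157) (.e (nat_lit 5548) (nat_lit 306) (.e (nat_lit 2610) (nat_lit 163) (.e (nat_lit 163978) (nat_lit 30) (.e (nat_lit 573484) (nat_lit 13) (.e (nat_lit 65610) (nat_lit 10) (.e (nat_lit 344117) (nat_lit 21) (.e (nat_lit 516151) (nat_lit 9) (.e (nat_lit 426039) (nat_lit 0) .nil))))))))) (.g (nat_lit 1) (.e (nat_lit 14048) (nat_lit 0) .nil) .nil))) 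
(.lf (nat_lit 450464) (.g (nat_lit 2655) (.e (nat_lit 2556) (nat_lit 159) (.e (nat_lit 24640) (nat_lit 10) (.e (nat_lit 344117) (nat_lit 21) (.e (nat_lit 516185) (nat_lit 16) (.e (nat_lit 491560) (nat_lit 10) .nil))))) (.g (nat_lit 0) (.e (nat_lit 16058) (nat_lit 0) .nil) .nil)))))) (.nd (nat_lit 7) (.nd (nat_lit 8) (.nd (nat_lit 9) 
(.lf (nat_lit 449632) (.g (nat_lit 2590) (.e (nat_lit 934) (nat_lit 76) (.e (nat_lit 786481) (nat_lit 30) (.e (nat_lit 360477) (nat_lit 11) (.e (nat_lit 581651) (nat_lit 4) (.e (nat_lit 172082) (nat_lit 7) (.e (nat_lit 409612) (nat_lit 10) .nil)))))) (.g (nat_lit 1) (.e (nat_lit 12819) (nat_lit 0) .nil) .nil))) 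
(.lf (nat_lit 450144) (.g (nat_lit 3837) (.e (nat_lit 2505) (nat_lit 157) (.e (nat_lit 3249) (nat_lit 197) (.e (nat_lit 532550) (nat_lit 12) (.e (nat_lit 360475) (nat_lit 8) (.e (nat_lit 557087) (nat_lit 11) (.e (nat_lit 24588) (nat_lit 0) (.e (nat_lit 6674) (nat_lit 357) .nil))))))) (.g (nat_lit 1) (.e (nat_lit 14790) (nat_lit 0) .nil) .nil)))) (.nd (nat_lit 9) 
(.lf (nat_lit 449888) (.g (nat_lit 4513) (.e (nat_lit 2450) (nat_lit 157) (.e (nat_lit 3098) (nat_lit 192) (.e (nat_lit 491569) (nat_lit 13) (.e (nat_lit 393301) (nat_lit 27) (.e (nat_lit 491559) (nat_lit 10) (.e (nat_lit 344091) (nat_lit 18) (.e (nat_lit 6852) (nat_lit 371) .nil))))))) (.g (nat_lit 1) (.e (nat_lit 13852) (nat_lit 0) .nil) .nil))) 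
(.lf (nat_lit 450400) (.g (nat_lit 2167) (.e (nat_lit 2553) (nat_lit 159) (.e (nat_lit 24640) (nat_lit 10) (.e (nat_lit 344156) (nat_lit 36) (.e (nat_lit 638999) (nat_lit 8) (.e (nat_lit 172113) (nat_lit 10) (.e (nat_lit 434203) (nat_lit 18) (.e (nat_lit 5799) (nat_lit 320) .nil))))))) (.g (nat_lit 1) (.e (nat_lit 15747) (nat_lit 0) .nil) .nil))))) (.nd (nat_lit 8) (.nd (nat_lit 9) 
(.lf (nat_lit 449760) (.g (nat_lit 3975) (.e (nat_lit 2422) (nat_lit 157) (.e (nat_lit 2668) (nat_lit 167) (.e (nat_lit 196683) (nat_lit 18) (.e (nat_lit 1374) (nat_lit 104) (.e (nat_lit 303145) (nat_lit 13) (.e (nat_lit 483337) (nat_lit 9) (.e (nat_lit 426107) (nat_lit 1) (.e (nat_lit 164347) (nat_lit 240) .nil)))))))) (.g (nat_lit 1) (.e (nat_lit 13220) (nat_lit 0) .nil) .nil))) 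
(.lf (nat_lit 450272) (.g (nat_lit 870) (.e (nat_lit 2551) (nat_lit 159) (.e (nat_lit 24608) (nat_lit 3) (.e (nat_lit 98373) (nat_lit 29) .nil))) (.g (nat_lit 0) (.e (nat_lit 15403) (nat_lit 0) .nil) .nil)))) (.nd (nat_lit 9) 
(.lf (nat_lit 450016) (.g (nat_lit 3525) (.e (nat_lit 2477) (nat_lit 157) (.e (nat_lit 2663) (nat_lit 167) (.e (nat_lit 196666) (nat_lit 13) (.e (nat_lit 65610) (nat_lit 10) (.e (nat_lit 344117) (nat_lit 21) (.e (nat_lit 516151) (nat_lit 9) (.e (nat_lit 426017) (nat_lit 0) (.e (nat_lit 2439) (nat_lit 157) (.e (nat_lit 4817) (nat_lit 281) .nil))))))))) (.g (nat_lit 1) (.e (nat_lit 14258) (nat_lit 0) .nil) .nil))) 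
(.lf (nat_lit 450528) (.g (nat_lit 2287) (.e (nat_lit 2559) (nat_lit 159) (.e (nat_lit 24640) (nat_lit 10) (.e (nat_lit 344156) (nat_lit 36) (.e (nat_lit 638985) (nat_lit 5) (.e (nat_lit 3015) (nat_lit 187) .nil))))) (.g (nat_lit 0) (.e (nat_lit 16291) (nat_lit 0) .nil) .nil)))))))) (.nd (nat_lit 5) (.nd (nat_lit 6) (.nd (nat_lit 7) (.nd (nat_lit 8) (.nd (nat_lit 9) 
(.lf (nat_lit 449552) (.g (nat_lit 3554) (.e (nat_lit 883) (nat_lit 75) (.e (nat_lit 778465) (nat_lit 11) (.e (nat_lit 24616) (nat_lit 7) (.e (nat_lit 319530) (nat_lit 16) (.e (nat_lit 286759) (nat_lit 12) (.e (nat_lit 385115) (nat_lit 53) (.e (nat_lit 811033) (nat_lit 11) .nil))))))) (.g (nat_lit 1) (.e (nat_lit 12629) (nat_lit 0) .nil) .nil))) 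
(.lf (nat_lit 450064) (.g (nat_lit 2859) (.e (nat_lit 2478) (nat_lit 157) (.e (nat_lit 5224) (nat_lit 296) (.e (nat_lit 163903) (nat_lit 12) (.e (nat_lit 426566) (nat_lit 34) (.e (nat_lit 393273) (nat_lit 23) (.e (nat_lit 426437) (nat_lit 18) (.e (nat_lit 98325) (nat_lit 17) .nil))))))) (.g (nat_lit 1) (.e (nat_lit 14353) (nat_lit 0) .nil) .nil)))) (.nd (nat_lit 9) 
(.lf (nat_lit 449808) (.g (nat_lit 2427) (.e (nat_lit 2433) (nat_lit 157) (.e (nat_lit 2668) (nat_lit 167) (.e (nat_lit 196670) (nat_lit 14) (.e (nat_lit 73753) (nat_lit 8) (.e (nat_lit 557105) (nat_lit 14) (.e (nat_lit 180252) (nat_lit 10) (.e (nat_lit 573474) (nat_lit 12) (.e (nat_lit 57348) (nat_lit 0) (.e (nat_lit 5438) (nat_lit 306) .nil))))))))) (.g (nat_lit 1) (.e (nat_lit 13426) (nat_lit 0) .nil) .nil))) 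
(.lf (nat_lit 450320) (.g (nat_lit 3027) (.e (nat_lit 2551) (nat_lit 159) (.e (nat_lit 24640) (nat_lit 10) (.e (nat_lit 344156) (nat_lit 36) (.e (nat_lit 638998) (nat_lit 8) (.e (nat_lit 172113) (nat_lit 10) (.e (nat_lit 434203) (nat_lit 18) (.e (nat_lit 5842) (nat_lit 320) .nil))))))) (.g (nat_lit 1) (.e (nat_lit 15465) (nat_lit 0) .nil) .nil))))) (.nd (nat_lit 8) (.nd (nat_lit 9) 
(.lf (nat_lit 449680) (.g (nat_lit 3790) (.e (nat_lit 2397) (nat_lit 157) (.e (nat_lit 4413) (nat_lit 259) (.e (nat_lit 57374) (nat_lit 2) (.e (nat_lit 90170) (nat_lit 13) (.e (nat_lit 172106) (nat_lit 10) (.e (nat_lit 434244) (nat_lit 28) (.e (nat_lit 573471) (nat_lit 11) (.e (nat_lit 16392) (nat_lit 0) .nil)))))))) (.g (nat_lit 1) (.e (nat_lit 12921) (nat_lit 0) .nil) .nil))) 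
(.lf (nat_lit 450192) (.g (nat_lit 4125) (.e (nat_lit 2508) (nat_lit 157) (.e (nat_lit 3249) (nat_lit 197) (.e (nat_lit 532569) (nat_lit 16) (.e (nat_lit 401448) (nat_lit 10) (.e (nat_lit 434232) (nat_lit 23) (.e (nat_lit 532526) (nat_lit 8) (.e (nat_lit 327703) (nat_lit 10) (.e (nat_lit 5712) (nat_lit 312) .nil)))))))) (.g (nat_lit 1) (.e (nat_lit 15006) (nat_lit 0) .nil) .nil)))) 
(.nd (nat_lit 9) 
(.lf (nat_lit 449936) (.g (nat_lit 3923) (.e (nat_lit 2458) (nat_lit 157) (.e (nat_lit 5547) (nat_lit 306) (.e (nat_lit 2601) (nat_lit 163) (.e (nat_lit 163977) (nat_lit 30) (.e (nat_lit 573485) (nat_lit 13) (.e (nat_lit 65604) (nat_lit 9) (.e (nat_lit 336013) (nat_lit 2) (.e (nat_lit 90170) (nat_lit 13) (.e (nat_lit 172042) (nat_lit 0) .nil))))))))) (.g (nat_lit 1) (.e (nat_lit 14013) (nat_lit 0) .nil) .nil))) 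
(.lf (nat_lit 450448) (.g (nat_lit 3224) (.e (nat_lit 2555) (nat_lit 159) (.e (nat_lit 24662) (nat_lit 14) (.e (nat_lit 401425) (nat_lit 2) (.e (nat_lit 196666) (nat_lit 13) (.e (nat_lit 65610) (nat_lit 10) (.e (nat_lit 344090) (nat_lit 18) (.e (nat_lit 4068) (nat_lit 245) .nil))))))) (.g (nat_lit 1) (.e (nat_lit 15940) (nat_lit 0) .nil) .nil)))))) 
(.nd (nat_lit 7) (.nd (nat_lit 8) (.nd (nat_lit 9) 
(.lf (nat_lit 449616) (.g (nat_lit 2359) (.e (nat_lit 882) (nat_lit 75) (.e (nat_lit 778466) (nat_lit 11) (.e (nat_lit 24617) (nat_lit 7) (.e (nat_lit 319533) (nat_lit 16) .nil)))) (.g (nat_lit 0) (.e (nat_lit 12698) (nat_lit 0) .nil) .nil))) 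
(.lf (nat_lit 450128) (.g (nat_lit 4638) (.e (nat_lit 2505) (nat_lit 157) (.e (nat_lit 3249) (nat_lit 197) (.e (nat_lit 532482) (nat_lit 0) (.e (nat_lit 6203) (nat_lit 332) (.e (nat_lit 2798) (nat_lit 180) (.e (nat_lit 303119) (nat_lit 3) (.e (nat_lit 204863) (nat_lit 27) (.e (nat_lit 344066) (nat_lit 0) .nil)))))))) (.g (nat_lit 1) (.e (nat_lit 14704) (nat_lit 0) .nil) .nil)))) (.nd (nat_lit 9) 
(.lf (nat_lit 449872) (.g (nat_lit 2032) (.e (nat_lit 2448) (nat_lit 157) (.e (nat_lit 2668) (nat_lit 167) (.e (nat_lit 196666) (nat_lit 13) (.e (nat_lit 65610) (nat_lit 10) .nil)))) (.g (nat_lit 0) (.e (nat_lit 13740) (nat_lit 0) .nil) .nil))) 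
(.lf (nat_lit 450384) (.g (nat_lit 1933) (.e (nat_lit 2553) (nat_lit 159) (.e (nat_lit 24608) (nat_lit 3) (.e (nat_lit 98373) (nat_lit 29) (.e (nat_lit 458496) (nat_lit 3) .nil)))) (.g (nat_lit 0) (.e (nat_lit 15722) (nat_lit 0) .nil) .nil))))) (.nd (nat_lit 8) (.nd (nat_lit 9) 
(.lf (nat_lit 449744) (.g (nat_lit 2393) (.e (nat_lit 2416) (nat_lit 157) (.e (nat_lit 2666) (nat_lit 167) (.e (nat_lit 196666) (nat_lit 13) (.e (nat_lit 65610) (nat_lit 10) (.e (nat_lit 344117) (nat_lit 21) (.e (nat_lit 516151) (nat_lit 9) (.e (nat_lit 426097) (nat_lit 1) (.e (nat_lit 164259) (nat_lit 215) .nil)))))))) (.g (nat_lit 1) (.e (nat_lit 13161) (nat_lit 0) .nil) .nil))) 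
(.lf (nat_lit 450256) (.g (nat_lit 2328) (.e (nat_lit 2525) (nat_lit 157) (.e (nat_lit 5195) (nat_lit 294) (.e (nat_lit 57437) (nat_lit 17) (.e (nat_lit 376860) (nat_lit 21) (.e (nat_lit 57832) (nat_lit 250) (.e (nat_lit 7936) (nat_lit 166) (.e (nat_lit 188426) (nat_lit 20) .nil))))))) (.g (nat_lit 1) (.e (nat_lit 15334) (nat_lit 0) .nil) .nil)))) (.nd (nat_lit 9) 
(.lf (nat_lit 450000) (.g (nat_lit 2930) (.e (nat_lit 2467) (nat_lit 157) (.e (nat_lit 3469) (nat_lit 217) (.e (nat_lit 696344) (nat_lit 8) (.e (nat_lit 172067) (nat_lit 3) (.e (nat_lit 204868) (nat_lit 29) .nil))))) (.g (nat_lit 0) (.e (nat_lit 14181) (nat_lit 0) .nil) .nil))) 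
(.lf (nat_lit 450512) (.g (nat_lit 1935) (.e (nat_lit 2558) (nat_lit 159) (.e (nat_lit 24640) (nat_lit 10) (.e (nat_lit 344156) (nat_lit 36) (.e (nat_lit 638998) (nat_lit 8) (.e (nat_lit 172115) (nat_lit 10) .nil))))) (.g (nat_lit 0) (.e (nat_lit 16217) (nat_lit 0) .nil) .nil))))))) (.nd (nat_lit 6) (.nd (nat_lit 7) (.nd (nat_lit 8) (.nd (nat_lit 9) 
(.lf (nat_lit 449584) (.g (nat_lit 2168) (.e (nat_lit 883) (nat_lit 75) (.e (nat_lit 778465) (nat_lit 11) (.e (nat_lit 24617) (nat_lit 7) (.e (nat_lit 319534) (nat_lit 16) (.e (nat_lit 286759) (nat_lit 12) (.e (nat_lit 385093) (nat_lit 49) (.e (nat_lit 778510) (nat_lit 14) (.e (nat_lit 982) (nat_lit 81) .nil)))))))) (.g (nat_lit 1) (.e (nat_lit 12662) (nat_lit 0) .nil) .nil))) 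
(.lf (nat_lit 450096) (.g (nat_lit 5462) (.e (nat_lit 2472) (nat_lit 157) (.e (nat_lit 3307) (nat_lit 202) (.e (nat_lit 573489) (nat_lit 14) (.e (nat_lit 73755) (nat_lit 8) (.e (nat_lit 557105) (nat_lit 14) (.e (nat_lit 180252) (nat_lit 10) (.e (nat_lit 573474) (nat_lit 12) (.e (nat_lit 57503) (nat_lit 38) (.e (nat_lit 638985) (nat_lit 5) .nil))))))))) (.g (nat_lit 1) (.e (nat_lit 14449) (nat_lit 0) .nil) .nil)))) 
(.nd (nat_lit 9) 
(.lf (nat_lit 449840) (.g (nat_lit 4107) (.e (nat_lit 2443) (nat_lit 157) (.e (nat_lit 7660) (nat_lit 410) (.e (nat_lit 1172) (nat_lit 87) (.e (nat_lit 57572) (nat_lit 54) (.e (nat_lit 770072) (nat_lit 8) (.e (nat_lit 65586) (nat_lit 7) (.e (nat_lit 319531) (nat_lit 16) (.e (nat_lit 286748) (nat_lit 9) (.e (nat_lit 336295) (nat_lit 15) .nil))))))))) (.g (nat_lit 1) (.e (nat_lit 13611) (nat_lit 0) .nil) .nil))) 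
(.lf (nat_lit 450352) (.g (nat_lit 743) (.e (nat_lit 2551) (nat_lit 159) (.e (nat_lit 24662) (nat_lit 14) (.e (nat_lit 401459) (nat_lit 13) .nil))) (.g (nat_lit 0) (.e (nat_lit 15514) (nat_lit 0) .nil) .nil))))) (.nd (nat_lit 8) (.nd (nat_lit 9) 
(.lf (nat_lit 449712) (.g (nat_lit 3765) (.e (nat_lit 2400) (nat_lit 157) (.e (nat_lit 7590) (nat_lit 407) (.e (nat_lit 73747) (nat_lit 3) (.e (nat_lit 516139) (nat_lit 7) (.e (nat_lit 409640) (nat_lit 17) (.e (nat_lit 294928) (nat_lit 2) (.e (nat_lit 90133) (nat_lit 9) .nil))))))) (.g (nat_lit 1) (.e (nat_lit 13047) (nat_lit 0) .nil) .nil))) 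
(.lf (nat_lit 450224) (.g (nat_lit 2394) (.e (nat_lit 2515) (nat_lit 157) (.e (nat_lit 2663) (nat_lit 167) (.e (nat_lit 196670) (nat_lit 14) (.e (nat_lit 73753) (nat_lit 8) (.e (nat_lit 557103) (nat_lit 14) .nil))))) (.g (nat_lit 0) (.e (nat_lit 15176) (nat_lit 0) .nil) .nil)))) (.nd (nat_lit 9) 
(.lf (nat_lit 449968) (.g (nat_lit 3203) (.e (nat_lit 2463) (nat_lit 157) (.e (nat_lit 2666) (nat_lit 167) (.e (nat_lit 196666) (nat_lit 13) (.e (nat_lit 65610) (nat_lit 10) (.e (nat_lit 344117) (nat_lit 21) (.e (nat_lit 516151) (nat_lit 9) (.e (nat_lit 426043) (nat_lit 0) (.e (nat_lit 2424) (nat_lit 157) (.e (nat_lit 4762) (nat_lit 281) .nil))))))))) (.g (nat_lit 1) (.e (nat_lit 14110) (nat_lit 0) .nil) .nil))) 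
(.lf (nat_lit 450480) (.g (nat_lit 3357) (.e (nat_lit 2557) (nat_lit 159) (.e (nat_lit 24608) (nat_lit 3) (.e (nat_lit 98372) (nat_lit 29) (.e (nat_lit 450579) (nat_lit 5) (.e (nat_lit 532499) (nat_lit 1) .nil))))) (.g (nat_lit 0) (.e (nat_lit 16136) (nat_lit 0) .nil) .nil)))))) (.nd (nat_lit 7) (.nd (nat_lit 8) (.nd (nat_lit 9) 
(.lf (nat_lit 449648) (.g (nat_lit 3917) (.e (nat_lit 720) (nat_lit 64) (.e (nat_lit 688177) (nat_lit 16) (.e (nat_lit 65614) (nat_lit 10) (.e (nat_lit 344179) (nat_lit 44) (.e (nat_lit 778466) (nat_lit 11) (.e (nat_lit 24617) (nat_lit 7) (.e (nat_lit 319505) (nat_lit 10) .nil))))))) (.g (nat_lit 1) (.e (nat_lit 12851) (nat_lit 0) .nil) .nil))) 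
(.lf (nat_lit 450160) (.g (nat_lit 1855) (.e (nat_lit 2508) (nat_lit 157) (.e (nat_lit 2887) (nat_lit 184) (.e (nat_lit 426317) (nat_lit 12) (.e (nat_lit 475211) (nat_lit 41) (.e (nat_lit 712755) (nat_lit 30) .nil))))) (.g (nat_lit 0) (.e (nat_lit 14882) (nat_lit 0) .nil) .nil)))) (.nd (nat_lit 9) 
(.lf (nat_lit 449904) (.g (nat_lit 3371) (.e (nat_lit 2458) (nat_lit 157) (.e (nat_lit 2663) (nat_lit 167) (.e (nat_lit 196666) (nat_lit 13) (.e (nat_lit 65610) (nat_lit 10) (.e (nat_lit 344117) (nat_lit 21) .nil))))) (.g (nat_lit 0) (.e (nat_lit 13905) (nat_lit 0) .nil) .nil))) 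
(.lf (nat_lit 450416) (.g (nat_lit 1470) (.e (nat_lit 2554) (nat_lit 159) (.e (nat_lit 24608) (nat_lit 3) (.e (nat_lit 98373) (nat_lit 29) .nil))) (.g (nat_lit 0) (.e (nat_lit 15796) (nat_lit 0) .nil) .nil))))) (.nd (nat_lit 8) (.nd (nat_lit 9) 
(.lf (nat_lit 449776) (.g (nat_lit 2429) (.e (nat_lit 2426) (nat_lit 157) (.e (nat_lit 632) (nat_lit 50) (.e (nat_lit 573482) (nat_lit 13) (.e (nat_lit 65604) (nat_lit 9) (.e (nat_lit 336028) (nat_lit 3) .nil))))) (.g (nat_lit 0) (.e (nat_lit 13275) (nat_lit 0) .nil) .nil))) 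
(.lf (nat_lit 450288) (.g (nat_lit 2653) (.e (nat_lit 2551) (nat_lit 159) (.e (nat_lit 24640) (nat_lit 10) (.e (nat_lit 344156) (nat_lit 36) (.e (nat_lit 638985) (nat_lit 5) (.e (nat_lit 3015) (nat_lit 187) (.e (nat_lit 450562) (nat_lit 0) (.e (nat_lit 5811) (nat_lit 320) .nil))))))) (.g (nat_lit 1) (.e (nat_lit 15432) (nat_lit 0) .nil) .nil)))) (.nd (nat_lit 9) 
(.lf (nat_lit 450032) (.g (nat_lit 3417) (.e (nat_lit 2477) (nat_lit 157) (.e (nat_lit 2663) (nat_lit 167) (.e (nat_lit 196666) (nat_lit 13) (.e (nat_lit 65610) (nat_lit 10) (.e (nat_lit 344117) (nat_lit 21) (.e (nat_lit 516151) (nat_lit 9) (.e (nat_lit 426040) (nat_lit 0) (.e (nat_lit 2423) (nat_lit 157) (.e (nat_lit 4818) (nat_lit 281) .nil))))))))) (.g (nat_lit 1) (.e (nat_lit 14274) (nat_lit 0) .nil) .nil))) 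
(.lf (nat_lit 450544) (.g (nat_lit 2686) (.e (nat_lit 2559) (nat_lit 159) (.e (nat_lit 24658) (nat_lit 13) (.e (nat_lit 393301) (nat_lit 27) (.e (nat_lit 491560) (nat_lit 10) .nil)))) (.g (nat_lit 0) (.e (nat_lit 16308) (nat_lit 0) .nil) .nil))))))))) (.nd (nat_lit 4) (.nd (nat_lit 5) (.nd (nat_lit 6) (.nd (nat_lit 7) (.nd (nat_lit 8) (.nd (nat_lit 9) 
(.lf (nat_lit 449544) (.g (nat_lit 2199) (.e (nat_lit 879) (nat_lit 75) (.e (nat_lit 778466) (nat_lit 11) (.e (nat_lit 24617) (nat_lit 7) (.e (nat_lit 319534) (nat_lit 16) (.e (nat_lit 286759) (nat_lit 12) .nil))))) (.g (nat_lit 0) (.e (nat_lit 12618) (nat_lit 0) .nil) .nil))) 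
(.lf (nat_lit 450056) (.g (nat_lit 3446) (.e (nat_lit 2478) (nat_lit 157) (.e (nat_lit 2663) (nat_lit 167) (.e (nat_lit 196666) (nat_lit 13) (.e (nat_lit 65610) (nat_lit 10) (.e (nat_lit 344117) (nat_lit 21) (.e (nat_lit 516151) (nat_lit 9) (.e (nat_lit 426022) (nat_lit 0) (.e (nat_lit 2403) (nat_lit 157) (.e (nat_lit 4825) (nat_lit 281) .nil))))))))) (.g (nat_lit 1) (.e (nat_lit 14312) (nat_lit 0) .nil) .nil)))) 
(.nd (nat_lit 9) 
(.lf (nat_lit 449800) (.g (nat_lit 2046) (.e (nat_lit 2433) (nat_lit 157) (.e (nat_lit 2668) (nat_lit 167) (.e (nat_lit 196666) (nat_lit 13) (.e (nat_lit 65610) (nat_lit 10) (.e (nat_lit 344117) (nat_lit 21) (.e (nat_lit 516159) (nat_lit 10) (.e (nat_lit 434199) (nat_lit 18) (.e (nat_lit 4762) (nat_lit 281) .nil)))))))) (.g (nat_lit 1) (.e (nat_lit 13407) (nat_lit 0) .nil) .nil))) 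
(.lf (nat_lit 450312) (.g (nat_lit 3806) (.e (nat_lit 2551) (nat_lit 159) (.e (nat_lit 24640) (nat_lit 10) (.e (nat_lit 344156) (nat_lit 36) (.e (nat_lit 638998) (nat_lit 8) (.e (nat_lit 172113) (nat_lit 10) (.e (nat_lit 434203) (nat_lit 18) (.e (nat_lit 5800) (nat_lit 320) .nil))))))) (.g (nat_lit 1) (.e (nat_lit 15457) (nat_lit 0) .nil) .nil))))) (.nd (nat_lit 8) (.nd (nat_lit 9) 
(.lf (nat_lit 449672) (.g (nat_lit 2498) (.e (nat_lit 789) (nat_lit 66) (.e (nat_lit 704738) (nat_lit 11) (.e (nat_lit 16425) (nat_lit 7) (.e (nat_lit 409644) (nat_lit 18) .nil)))) (.g (nat_lit 0) (.e (nat_lit 12893) (nat_lit 0) .nil) .nil))) 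
(.lf (nat_lit 450184) (.g (nat_lit 5553) (.e (nat_lit 2508) (nat_lit 157) (.e (nat_lit 3249) (nat_lit 197) (.e (nat_lit 532569) (nat_lit 16) (.e (nat_lit 401434) (nat_lit 9) (.e (nat_lit 426140) (nat_lit 3) (.e (nat_lit 204846) (nat_lit 24) (.e (nat_lit 319505) (nat_lit 10) (.e (nat_lit 5712) (nat_lit 312) .nil)))))))) (.g (nat_lit 1) (.e (nat_lit 14994) (nat_lit 0) .nil) .nil)))) 
(.nd (nat_lit 9) 
(.lf (nat_lit 449928) (.g (nat_lit 223) (.e (nat_lit 2458) (nat_lit 157) (.e (nat_lit 5546) (nat_lit 306) (.e (nat_lit 2638) (nat_lit 165) .nil))) (.g (nat_lit 0) (.e (nat_lit 13977) (nat_lit 0) .nil) .nil))) 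
(.lf (nat_lit 450440) (.g (nat_lit 3350) (.e (nat_lit 2555) (nat_lit 159) (.e (nat_lit 24617) (nat_lit 7) (.e (nat_lit 319534) (nat_lit 16) (.e (nat_lit 286756) (nat_lit 10) (.e (nat_lit 344160) (nat_lit 37) (.e (nat_lit 647200) (nat_lit 12) (.e (nat_lit 57348) (nat_lit 0) (.e (nat_lit 7464) (nat_lit 396) .nil)))))))) (.g (nat_lit 1) (.e (nat_lit 15914) (nat_lit 0) .nil) .nil)))))) 
(.nd (nat_lit 7) (.nd (nat_lit 8) (.nd (nat_lit 9) 
(.lf (nat_lit 449608) (.g (nat_lit 2817) (.e (nat_lit 883) (nat_lit 75) (.e (nat_lit 778466) (nat_lit 11) (.e (nat_lit 24617) (nat_lit 7) (.e (nat_lit 319532) (nat_lit 16) (.e (nat_lit 286759) (nat_lit 12) (.e (nat_lit 385115) (nat_lit 53) (.e (nat_lit 811033) (nat_lit 11) .nil))))))) (.g (nat_lit 1) (.e (nat_lit 12690) (nat_lit 0) .nil) .nil))) 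
(.lf (nat_lit 450120) (.g (nat_lit 3790) (.e (nat_lit 2505) (nat_lit 157) (.e (nat_lit 3062) (nat_lit 190) (.e (nat_lit 475185) (nat_lit 29) (.e (nat_lit 557100) (nat_lit 13) (.e (nat_lit 172106) (nat_lit 10) (.e (nat_lit 434231) (nat_lit 23) (.e (nat_lit 532500) (nat_lit 1) (.e (nat_lit 57762) (nat_lit 215) .nil)))))))) (.g (nat_lit 1) (.e (nat_lit 14684) (nat_lit 0) .nil) .nil)))) 
(.nd (nat_lit 9) 
(.lf (nat_lit 449864) (.g (nat_lit 4159) (.e (nat_lit 2445) (nat_lit 157) (.e (nat_lit 3098) (nat_lit 192) (.e (nat_lit 491569) (nat_lit 13) (.e (nat_lit 393301) (nat_lit 27) (.e (nat_lit 491558) (nat_lit 10) (.e (nat_lit 344096) (nat_lit 18) (.e (nat_lit 6869) (nat_lit 371) .nil))))))) (.g (nat_lit 1) (.e (nat_lit 13717) (nat_lit 0) .nil) .nil))) 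
(.lf (nat_lit 450376) (.g (nat_lit 1483) (.e (nat_lit 2553) (nat_lit 159) (.e (nat_lit 24608) (nat_lit 3) (.e (nat_lit 98365) (nat_lit 26) (.e (nat_lit 426099) (nat_lit 1) .nil)))) (.g (nat_lit 0) (.e (nat_lit 15713) (nat_lit 0) .nil) .nil))))) (.nd (nat_lit 8) (.nd (nat_lit 9) 
(.lf (nat_lit 449736) (.g (nat_lit 3574) (.e (nat_lit 2410) (nat_lit 157) (.e (nat_lit 5626) (nat_lit 312) (.e (nat_lit 2668) (nat_lit 167) (.e (nat_lit 196666) (nat_lit 13) (.e (nat_lit 65610) (nat_lit 10) (.e (nat_lit 344117) (nat_lit 21) (.e (nat_lit 516102) (nat_lit 0) (.e (nat_lit 6989) (nat_lit 377) .nil)))))))) (.g (nat_lit 1) (.e (nat_lit 13144) (nat_lit 0) .nil) .nil))) 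
(.lf (nat_lit 450248) (.g (nat_lit 2107) (.e (nat_lit 2504) (nat_lit 157) (.e (nat_lit 5946) (nat_lit 322) (.e (nat_lit 57409) (nat_lit 12) (.e (nat_lit 336443) (nat_lit 32) (.e (nat_lit 466977) (nat_lit 22) .nil))))) (.g (nat_lit 0) (.e (nat_lit 15290) (nat_lit 0) .nil) .nil)))) (.nd (nat_lit 9) 
(.lf (nat_lit 449992) (.g (nat_lit 2438) (.e (nat_lit 2468) (nat_lit 157) (.e (nat_lit 3469) (nat_lit 217) (.e (nat_lit 696344) (nat_lit 8) (.e (nat_lit 172064) (nat_lit 2) (.e (nat_lit 196666) (nat_lit 13) .nil))))) (.g (nat_lit 0) (.e (nat_lit 14163) (nat_lit 0) .nil) .nil))) 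
(.lf (nat_lit 450504) (.g (nat_lit 2784) (.e (nat_lit 2558) (nat_lit 159) (.e (nat_lit 24640) (nat_lit 10) (.e (nat_lit 344156) (nat_lit 36) (.e (nat_lit 638985) (nat_lit 5) (.e (nat_lit 3015) (nat_lit 187) (.e (nat_lit 450562) (nat_lit 0) (.e (nat_lit 5796) (nat_lit 320) .nil))))))) (.g (nat_lit 1) (.e (nat_lit 16208) (nat_lit 0) .nil) .nil))))))) 
(.nd (nat_lit 6) (.nd (nat_lit 7) (.nd (nat_lit 8) (.nd (nat_lit 9) 
(.lf (nat_lit 449576) (.g (nat_lit 2631) (.e (nat_lit 883) (nat_lit 75) (.e (nat_lit 778465) (nat_lit 11) (.e (nat_lit 24617) (nat_lit 7) (.e (nat_lit 319533) (nat_lit 16) (.e (nat_lit 286758) (nat_lit 12) (.e (nat_lit 385113) (nat_lit 53) (.e (nat_lit 811031) (nat_lit 11) .nil))))))) (.g (nat_lit 1) (.e (nat_lit 12654) (nat_lit 0) .nil) .nil))) 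
(.lf (nat_lit 450088) (.g (nat_lit 5941) (.e (nat_lit 2472) (nat_lit 157) (.e (nat_lit 3307) (nat_lit 202) (.e (nat_lit 573484) (nat_lit 13) (.e (nat_lit 65610) (nat_lit 10) (.e (nat_lit 344117) (nat_lit 21) (.e (nat_lit 516160) (nat_lit 10) (.e (nat_lit 434272) (nat_lit 38) (.e (nat_lit 655364) (nat_lit 0) .nil)))))))) (.g (nat_lit 1) (.e (nat_lit 14439) (nat_lit 0) .nil) .nil)))) 
(.nd (nat_lit 9) 
(.lf (nat_lit 449832) (.g (nat_lit 4435) (.e (nat_lit 2440) (nat_lit 157) (.e (nat_lit 3098) (nat_lit 192) (.e (nat_lit 491569) (nat_lit 13) (.e (nat_lit 393301) (nat_lit 27) (.e (nat_lit 491560) (nat_lit 10) (.e (nat_lit 344096) (nat_lit 18) (.e (nat_lit 6855) (nat_lit 371) .nil))))))) (.g (nat_lit 1) (.e (nat_lit 13544) (nat_lit 0) .nil) .nil))) 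
(.lf (nat_lit 450344) (.g (nat_lit 2034) (.e (nat_lit 2551) (nat_lit 159) (.e (nat_lit 24653) (nat_lit 12) (.e (nat_lit 385102) (nat_lit 50) (.e (nat_lit 786483) (nat_lit 30) (.e (nat_lit 360450) (nat_lit 0) (.e (nat_lit 4825) (nat_lit 281) .nil)))))) (.g (nat_lit 1) (.e (nat_lit 15491) (nat_lit 0) .nil) .nil))))) (.nd (nat_lit 8) (.nd (nat_lit 9) 
(.lf (nat_lit 449704) (.g (nat_lit 4125) (.e (nat_lit 2400) (nat_lit 157) (.e (nat_lit 7064) (nat_lit 377) (.e (nat_lit 1368) (nat_lit 103) (.e (nat_lit 294928) (nat_lit 2) (.e (nat_lit 90167) (nat_lit 13) (.e (nat_lit 172126) (nat_lit 14) (.e (nat_lit 491537) (nat_lit 2) (.e (nat_lit 90133) (nat_lit 9) .nil)))))))) (.g (nat_lit 1) (.e (nat_lit 13025) (nat_lit 0) .nil) .nil))) 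
(.lf (nat_lit 450216) (.g (nat_lit 3372) (.e (nat_lit 2518) (nat_lit 157) (.e (nat_lit 2663) (nat_lit 167) (.e (nat_lit 196666) (nat_lit 13) (.e (nat_lit 65610) (nat_lit 10) (.e (nat_lit 344117) (nat_lit 21) .nil))))) (.g (nat_lit 0) (.e (nat_lit 15158) (nat_lit 0) .nil) .nil)))) (.nd (nat_lit 9) 
(.lf (nat_lit 449960) (.g (nat_lit 3972) (.e (nat_lit 2461) (nat_lit 157) (.e (nat_lit 3307) (nat_lit 202) (.e (nat_lit 573489) (nat_lit 14) (.e (nat_lit 73755) (nat_lit 8) (.e (nat_lit 557105) (nat_lit 14) (.e (nat_lit 180252) (nat_lit 10) (.e (nat_lit 573473) (nat_lit 12) (.e (nat_lit 57503) (nat_lit 38) (.e (nat_lit 638983) (nat_lit 5) .nil))))))))) (.g (nat_lit 1) (.e (nat_lit 14095) (nat_lit 0) .nil) .nil))) 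
(.lf (nat_lit 450472) (.g (nat_lit 1984) (.e (nat_lit 2556) (nat_lit 159) (.e (nat_lit 24665) (nat_lit 14) (.e (nat_lit 401423) (nat_lit 2) (.e (nat_lit 196666) (nat_lit 13) (.e (nat_lit 65610) (nat_lit 10) .nil))))) (.g (nat_lit 0) (.e (nat_lit 16090) (nat_lit 0) .nil) .nil)))))) (.nd (nat_lit 7) (.nd (nat_lit 8) (.nd (nat_lit 9) 
(.lf (nat_lit 449640) (.g (nat_lit 4703) (.e (nat_lit 934) (nat_lit 76) (.e (nat_lit 786483) (nat_lit 30) (.e (nat_lit 360475) (nat_lit 8) (.e (nat_lit 557119) (nat_lit 18) (.e (nat_lit 2798) (nat_lit 180) (.e (nat_lit 303124) (nat_lit 7) (.e (nat_lit 409612) (nat_lit 10) .nil))))))) (.g (nat_lit 1) (.e (nat_lit 12831) (nat_lit 0) .nil) .nil))) 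
(.lf (nat_lit 450152) (.g (nat_lit 2631) (.e (nat_lit 2505) (nat_lit 157) (.e (nat_lit 5626) (nat_lit 312) (.e (nat_lit 2668) (nat_lit 167) (.e (nat_lit 196666) (nat_lit 13) (.e (nat_lit 65610) (nat_lit 10) (.e (nat_lit 344117) (nat_lit 21) (.e (nat_lit 516106) (nat_lit 0) (.e (nat_lit 6966) (nat_lit 377) .nil)))))))) (.g (nat_lit 1) (.e (nat_lit 14835) (nat_lit 0) .nil) .nil)))) (.nd (nat_lit 9) 
(.lf (nat_lit 449896) (.g (nat_lit 3371) (.e (nat_lit 2454) (nat_lit 157) (.e (nat_lit 2663) (nat_lit 167) (.e (nat_lit 196666) (nat_lit 13) (.e (nat_lit 65610) (nat_lit 10) (.e (nat_lit 344117) (nat_lit 21) .nil))))) (.g (nat_lit 0) (.e (nat_lit 13874) (nat_lit 0) .nil) .nil))) 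
(.lf (nat_lit 450408) (.g (nat_lit 3874) (.e (nat_lit 2553) (nat_lit 159) (.e (nat_lit 24658) (nat_lit 13) (.e (nat_lit 393301) (nat_lit 27) (.e (nat_lit 491560) (nat_lit 10) (.e (nat_lit 344089) (nat_lit 18) (.e (nat_lit 7409) (nat_lit 396) .nil)))))) (.g (nat_lit 1) (.e (nat_lit 15757) (nat_lit 0) .nil) .nil))))) (.nd (nat_lit 8) (.nd (nat_lit 9) 
(.lf (nat_lit 449768) (.g (nat_lit 2336) (.e (nat_lit 2423) (nat_lit 157) (.e (nat_lit 5738) (nat_lit 312) (.e (nat_lit 2663) (nat_lit 167) (.e (nat_lit 196666) (nat_lit 13) (.e (nat_lit 65619) (nat_lit 10) .nil))))) (.g (nat_lit 0) (.e (nat_lit 13251) (nat_lit 0) .nil) .nil))) 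
(.lf (nat_lit 450280) (.g (nat_lit 2260) (.e (nat_lit 2551) (nat_lit 159) (.e (nat_lit 24617) (nat_lit 7) (.e (nat_lit 319505) (nat_lit 10) (.e (nat_lit 618) (nat_lit 48) (.e (nat_lit 557100) (nat_lit 13) .nil))))) (.g (nat_lit 0) (.e (nat_lit 15411) (nat_lit 0) .nil) .nil)))) (.nd (nat_lit 9) 
(.lf (nat_lit 450024) (.g (nat_lit 3385) (.e (nat_lit 2477) (nat_lit 157) (.e (nat_lit 2663) (nat_lit 167) (.e (nat_lit 196666) (nat_lit 13) (.e (nat_lit 65610) (nat_lit 10) (.e (nat_lit 344117) (nat_lit 21) (.e (nat_lit 516151) (nat_lit 9) (.e (nat_lit 426023) (nat_lit 0) (.e (nat_lit 2400) (nat_lit 157) (.e (nat_lit 4830) (nat_lit 281) .nil))))))))) (.g (nat_lit 1) (.e (nat_lit 14266) (nat_lit 0) .nil) .nil))) 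
(.lf (nat_lit 450536) (.g (nat_lit 3663) (.e (nat_lit 2559) (nat_lit 159) (.e (nat_lit 24640) (nat_lit 10) (.e (nat_lit 344156) (nat_lit 36) (.e (nat_lit 638998) (nat_lit 8) (.e (nat_lit 172113) (nat_lit 10) (.e (nat_lit 434203) (nat_lit 18) (.e (nat_lit 5800) (nat_lit 320) .nil))))))) (.g (nat_lit 1) (.e (nat_lit 16300) (nat_lit 0) .nil) .nil)))))))) 
(.nd (nat_lit 5) (.nd (nat_lit 6) (.nd (nat_lit 7) (.nd (nat_lit 8) (.nd (nat_lit 9) 
(.lf (nat_lit 449560) (.g (nat_lit 3722) (.e (nat_lit 883) (nat_lit 75) (.e (nat_lit 778465) (nat_lit 11) (.e (nat_lit 24617) (nat_lit 7) (.e (nat_lit 319528) (nat_lit 16) (.e (nat_lit 286759) (nat_lit 12) (.e (nat_lit 385115) (nat_lit 53) (.e (nat_lit 811034) (nat_lit 11) .nil))))))) (.g (nat_lit 1) (.e (nat_lit 12638) (nat_lit 0) .nil) .nil))) 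
(.lf (nat_lit 450072) (.g (nat_lit 2224) (.e (nat_lit 2478) (nat_lit 157) (.e (nat_lit 6400) (nat_lit 339) (.e (nat_lit 57379) (nat_lit 3) (.e (nat_lit 98341) (nat_lit 20) (.e (nat_lit 221211) (nat_lit 22) (.e (nat_lit 196666) (nat_lit 13) (.e (nat_lit 65569) (nat_lit 3) (.e (nat_lit 98325) (nat_lit 17) .nil)))))))) (.g (nat_lit 1) (.e (nat_lit 14383) (nat_lit 0) .nil) .nil)))) (.nd (nat_lit 9) 
(.lf (nat_lit 449816) (.g (nat_lit 4661) (.e (nat_lit 2433) (nat_lit 157) (.e (nat_lit 3098) (nat_lit 192) (.e (nat_lit 491569) (nat_lit 13) (.e (nat_lit 393301) (nat_lit 27) (.e (nat_lit 491559) (nat_lit 10) (.e (nat_lit 344091) (nat_lit 18) (.e (nat_lit 6853) (nat_lit 371) .nil))))))) (.g (nat_lit 1) (.e (nat_lit 13478) (nat_lit 0) .nil) .nil))) 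
(.lf (nat_lit 450328) (.g (nat_lit 2144) (.e (nat_lit 2551) (nat_lit 159) (.e (nat_lit 24640) (nat_lit 10) (.e (nat_lit 344156) (nat_lit 36) (.e (nat_lit 638998) (nat_lit 8) (.e (nat_lit 172115) (nat_lit 10) (.e (nat_lit 434202) (nat_lit 18) (.e (nat_lit 5833) (nat_lit 320) .nil))))))) (.g (nat_lit 1) (.e (nat_lit 15473) (nat_lit 0) .nil) .nil))))) (.nd (nat_lit 8) (.nd (nat_lit 9) 
(.lf (nat_lit 449688) (.g (nat_lit 3430) (.e (nat_lit 2397) (nat_lit 157) (.e (nat_lit 7585) (nat_lit 406) (.e (nat_lit 65571) (nat_lit 3) (.e (nat_lit 98389) (nat_lit 33) (.e (nat_lit 491558) (nat_lit 10) (.e (nat_lit 344107) (nat_lit 19) (.e (nat_lit 499825) (nat_lit 5) .nil))))))) (.g (nat_lit 1) (.e (nat_lit 12950) (nat_lit 0) .nil) .nil))) 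
(.lf (nat_lit 450200) (.g (nat_lit 675) (.e (nat_lit 2511) (nat_lit 157) (.e (nat_lit 2440) (nat_lit 157) (.e (nat_lit 6421) (nat_lit 341) (.e (nat_lit 163941) (nat_lit 19) .nil)))) (.g (nat_lit 0) (.e (nat_lit 15075) (nat_lit 0) .nil) .nil)))) (.nd (nat_lit 9) 
(.lf (nat_lit 449944) (.g (nat_lit 5599) (.e (nat_lit 2458) (nat_lit 157) (.e (nat_lit 5547) (nat_lit 306) (.e (nat_lit 2610) (nat_lit 163) (.e (nat_lit 163979) (nat_lit 30) (.e (nat_lit 573482) (nat_lit 13) (.e (nat_lit 65604) (nat_lit 9) (.e (nat_lit 336013) (nat_lit 2) (.e (nat_lit 90170) (nat_lit 13) (.e (nat_lit 172046) (nat_lit 0) .nil))))))))) (.g (nat_lit 1) (.e (nat_lit 14025) (nat_lit 0) .nil) .nil))) 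
(.lf (nat_lit 450456) (.g (nat_lit 2545) (.e (nat_lit 2555) (nat_lit 159) (.e (nat_lit 24665) (nat_lit 14) (.e (nat_lit 401423) (nat_lit 2) (.e (nat_lit 196666) (nat_lit 13) (.e (nat_lit 65617) (nat_lit 10) .nil))))) (.g (nat_lit 0) (.e (nat_lit 15965) (nat_lit 0) .nil) .nil)))))) (.nd (nat_lit 7) (.nd (nat_lit 8) (.nd (nat_lit 9) 
(.lf (nat_lit 449624) (.g (nat_lit 2382) (.e (nat_lit 913) (nat_lit 75) (.e (nat_lit 778466) (nat_lit 11) (.e (nat_lit 24617) (nat_lit 7) (.e (nat_lit 319534) (nat_lit 16) (.e (nat_lit 286759) (nat_lit 12) (.e (nat_lit 385115) (nat_lit 53) (.e (nat_lit 811039) (nat_lit 11) .nil))))))) (.g (nat_lit 1) (.e (nat_lit 12734) (nat_lit 0) .nil) .nil))) 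
(.lf (nat_lit 450136) (.g (nat_lit 3820) (.e (nat_lit 2505) (nat_lit 157) (.e (nat_lit 3249) (nat_lit 197) (.e (nat_lit 532526) (nat_lit 8) (.e (nat_lit 327699) (nat_lit 8) (.e (nat_lit 303117) (nat_lit 2) (.e (nat_lit 196669) (nat_lit 14) (.e (nat_lit 73779) (nat_lit 32) .nil))))))) (.g (nat_lit 1) (.e (nat_lit 14716) (nat_lit 0) .nil) .nil)))) (.nd (nat_lit 9) 
(.lf (nat_lit 449880) (.g (nat_lit 2168) (.e (nat_lit 2450) (nat_lit 157) (.e (nat_lit 3098) (nat_lit 192) (.e (nat_lit 491566) (nat_lit 12) (.e (nat_lit 385104) (nat_lit 50) (.e (nat_lit 786483) (nat_lit 30) .nil))))) (.g (nat_lit 0) (.e (nat_lit 13844) (nat_lit 0) .nil) .nil))) 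
(.lf (nat_lit 450392) (.g (nat_lit 2911) (.e (nat_lit 2553) (nat_lit 159) (.e (nat_lit 24640) (nat_lit 10) (.e (nat_lit 344156) (nat_lit 36) (.e (nat_lit 638985) (nat_lit 5) (.e (nat_lit 3015) (nat_lit 187) (.e (nat_lit 450563) (nat_lit 0) (.e (nat_lit 5796) (nat_lit 320) .nil))))))) (.g (nat_lit 1) (.e (nat_lit 15738) (nat_lit 0) .nil) .nil))))) (.nd (nat_lit 8) (.nd (nat_lit 9) 
(.lf (nat_lit 449752) (.g (nat_lit 2509) (.e (nat_lit 2416) (nat_lit 157) (.e (nat_lit 3468) (nat_lit 217) (.e (nat_lit 696344) (nat_lit 8) (.e (nat_lit 172079) (nat_lit 7) (.e (nat_lit 409645) (nat_lit 18) (.e (nat_lit 303140) (nat_lit 10) (.e (nat_lit 434275) (nat_lit 39) (.e (nat_lit 663580) (nat_lit 9) .nil)))))))) (.g (nat_lit 1) (.e (nat_lit 13193) (nat_lit 0) .nil) .nil))) 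
(.lf (nat_lit 450264) (.g (nat_lit 2112) (.e (nat_lit 2551) (nat_lit 159) (.e (nat_lit 24603) (nat_lit 2) (.e (nat_lit 90176) (nat_lit 15) (.e (nat_lit 188450) (nat_lit 23) (.e (nat_lit 204830) (nat_lit 18) (.e (nat_lit 65280) (nat_lit 233) .nil)))))) (.g (nat_lit 1) (.e (nat_lit 15395) (nat_lit 0) .nil) .nil)))) (.nd (nat_lit 9) 
(.lf (nat_lit 450008) (.g (nat_lit 1902) (.e (nat_lit 2475) (nat_lit 157) (.e (nat_lit 5224) (nat_lit 296) (.e (nat_lit 163871) (nat_lit 2) (.e (nat_lit 196653) (nat_lit 11) (.e (nat_lit 16465) (nat_lit 13) (.e (nat_lit 483339) (nat_lit 9) (.e (nat_lit 426072) (nat_lit 0) .nil))))))) (.g (nat_lit 1) (.e (nat_lit 14228) (nat_lit 0) .nil) .nil))) 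
(.lf (nat_lit 450520) (.g (nat_lit 1496) (.e (nat_lit 2559) (nat_lit 159) (.e (nat_lit 24608) (nat_lit 3) (.e (nat_lit 98372) (nat_lit 29) .nil))) (.g (nat_lit 0) (.e (nat_lit 16277) (nat_lit 0) .nil) .nil))))))) (.nd (nat_lit 6) (.nd (nat_lit 7) (.nd (nat_lit 8) (.nd (nat_lit 9) 
(.lf (nat_lit 449592) (.g (nat_lit 3122) (.e (nat_lit 883) (nat_lit 75) (.e (nat_lit 778466) (nat_lit 11) (.e (nat_lit 24616) (nat_lit 7) (.e (nat_lit 319530) (nat_lit 16) (.e (nat_lit 286759) (nat_lit 12) (.e (nat_lit 385115) (nat_lit 53) (.e (nat_lit 811031) (nat_lit 11) .nil))))))) (.g (nat_lit 1) (.e (nat_lit 12673) (nat_lit 0) .nil) .nil))) 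
(.lf (nat_lit 450104) (.g (nat_lit 3705) (.e (nat_lit 2473) (nat_lit 157) (.e (nat_lit 3307) (nat_lit 202) (.e (nat_lit 573489) (nat_lit 14) (.e (nat_lit 73755) (nat_lit 8) (.e (nat_lit 557105) (nat_lit 14) (.e (nat_lit 180252) (nat_lit 10) (.e (nat_lit 573474) (nat_lit 12) (.e (nat_lit 57504) (nat_lit 38) (.e (nat_lit 638986) (nat_lit 5) .nil))))))))) (.g (nat_lit 1) (.e (nat_lit 14465) (nat_lit 0) .nil) .nil)))) 
(.nd (nat_lit 9) 
(.lf (nat_lit 449848) (.g (nat_lit 4547) (.e (nat_lit 2444) (nat_lit 157) (.e (nat_lit 3098) (nat_lit 192) (.e (nat_lit 491569) (nat_lit 13) (.e (nat_lit 393301) (nat_lit 27) (.e (nat_lit 491559) (nat_lit 10) (.e (nat_lit 344091) (nat_lit 18) (.e (nat_lit 6869) (nat_lit 371) .nil))))))) (.g (nat_lit 1) (.e (nat_lit 13657) (nat_lit 0) .nil) .nil))) 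
(.lf (nat_lit 450360) (.g (nat_lit 1913) (.e (nat_lit 2552) (nat_lit 159) (.e (nat_lit 24640) (nat_lit 10) (.e (nat_lit 344156) (nat_lit 36) (.e (nat_lit 638985) (nat_lit 5) .nil)))) (.g (nat_lit 0) (.e (nat_lit 15664) (nat_lit 0) .nil) .nil))))) (.nd (nat_lit 8) (.nd (nat_lit 9) 
(.lf (nat_lit 449720) (.g (nat_lit 5053) (.e (nat_lit 2402) (nat_lit 157) (.e (nat_lit 5734) (nat_lit 312) (.e (nat_lit 2666) (nat_lit 167) (.e (nat_lit 196666) (nat_lit 13) (.e (nat_lit 65610) (nat_lit 10) (.e (nat_lit 344117) (nat_lit 21) (.e (nat_lit 516106) (nat_lit 0) (.e (nat_lit 6986) (nat_lit 377) .nil)))))))) (.g (nat_lit 1) (.e (nat_lit 13058) (nat_lit 0) .nil) .nil))) 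
(.lf (nat_lit 450232) (.g (nat_lit 2303) (.e (nat_lit 2515) (nat_lit 157) (.e (nat_lit 3090) (nat_lit 191) (.e (nat_lit 483363) (nat_lit 18) (.e (nat_lit 57655) (nat_lit 152) (.e (nat_lit 1207) (nat_lit 89) (.e (nat_lit 73746) (nat_lit 3) (.e (nat_lit 516117) (nat_lit 1) (.e (nat_lit 164226) (nat_lit 181) .nil)))))))) (.g (nat_lit 1) (.e (nat_lit 15222) (nat_lit 0) .nil) .nil)))) (.nd (nat_lit 9) 
(.lf (nat_lit 449976) (.g (nat_lit 3183) (.e (nat_lit 2466) (nat_lit 157) (.e (nat_lit 2845) (nat_lit 184) (.e (nat_lit 426568) (nat_lit 34) (.e (nat_lit 393271) (nat_lit 23) (.e (nat_lit 426131) (nat_lit 3) (.e (nat_lit 204830) (nat_lit 18) (.e (nat_lit 57663) (nat_lit 152) .nil))))))) (.g (nat_lit 1) (.e (nat_lit 14137) (nat_lit 0) .nil) .nil))) 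
(.lf (nat_lit 450488) (.g (nat_lit 2930) (.e (nat_lit 2557) (nat_lit 159) (.e (nat_lit 24658) (nat_lit 13) (.e (nat_lit 393301) (nat_lit 27) (.e (nat_lit 491558) (nat_lit 10) .nil)))) (.g (nat_lit 0) (.e (nat_lit 16165) (nat_lit 0) .nil) .nil)))))) (.nd (nat_lit 7) (.nd (nat_lit 8) (.nd (nat_lit 9) 
(.lf (nat_lit 449656) (.g (nat_lit 2733) (.e (nat_lit 752) (nat_lit 66) (.e (nat_lit 704738) (nat_lit 11) (.e (nat_lit 16425) (nat_lit 7) (.e (nat_lit 409649) (nat_lit 18) (.e (nat_lit 303143) (nat_lit 12) .nil))))) (.g (nat_lit 0) (.e (nat_lit 12873) (nat_lit 0) .nil) .nil))) 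
(.lf (nat_lit 450168) (.g (nat_lit 3079) (.e (nat_lit 2508) (nat_lit 157) (.e (nat_lit 3249) (nat_lit 197) (.e (nat_lit 532486) (nat_lit 0) (.e (nat_lit 6113) (nat_lit 332) (.e (nat_lit 1374) (nat_lit 104) (.e (nat_lit 303119) (nat_lit 3) (.e (nat_lit 204846) (nat_lit 24) (.e (nat_lit 319504) (nat_lit 10) (.e (nat_lit 5712) (nat_lit 312) .nil))))))))) (.g (nat_lit 1) (.e (nat_lit 14908) (nat_lit 0) .nil) .nil)))) 
(.nd (nat_lit 9) 
(.lf (nat_lit 449912) (.g (nat_lit 4596) (.e (nat_lit 2458) (nat_lit 157) (.e (nat_lit 5546) (nat_lit 306) (.e (nat_lit 2599) (nat_lit 163) (.e (nat_lit 163979) (nat_lit 30) (.e (nat_lit 573482) (nat_lit 13) (.e (nat_lit 65604) (nat_lit 9) (.e (nat_lit 336013) (nat_lit 2) (.e (nat_lit 90170) (nat_lit 13) (.e (nat_lit 172042) (nat_lit 0) .nil))))))))) (.g (nat_lit 1) (.e (nat_lit 13938) (nat_lit 0) .nil) .nil))) 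
(.lf (nat_lit 450424) (.g (nat_lit 2141) (.e (nat_lit 2555) (nat_lit 159) (.e (nat_lit 24604) (nat_lit 2) (.e (nat_lit 90176) (nat_lit 15) (.e (nat_lit 188450) (nat_lit 23) (.e (nat_lit 204830) (nat_lit 18) .nil))))) (.g (nat_lit 0) (.e (nat_lit 15887) (nat_lit 0) .nil) .nil))))) (.nd (nat_lit 8) (.nd (nat_lit 9) 
(.lf (nat_lit 449784) (.g (nat_lit 4590) (.e (nat_lit 2432) (nat_lit 157) (.e (nat_lit 3471) (nat_lit 217) (.e (nat_lit 696344) (nat_lit 8) (.e (nat_lit 172064) (nat_lit 2) (.e (nat_lit 196666) (nat_lit 13) (.e (nat_lit 65610) (nat_lit 10) (.e (nat_lit 344129) (nat_lit 26) (.e (nat_lit 557067) (nat_lit 9) .nil)))))))) (.g (nat_lit 1) (.e (nat_lit 13365) (nat_lit 0) .nil) .nil))) 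
(.lf (nat_lit 450296) (.g (nat_lit 2244) (.e (nat_lit 2551) (nat_lit 159) (.e (nat_lit 24640) (nat_lit 10) (.e (nat_lit 344156) (nat_lit 36) (.e (nat_lit 638985) (nat_lit 5) (.e (nat_lit 3027) (nat_lit 187) .nil))))) (.g (nat_lit 0) (.e (nat_lit 15440) (nat_lit 0) .nil) .nil)))) (.nd (nat_lit 9) 
(.lf (nat_lit 450040) (.g (nat_lit 3445) (.e (nat_lit 2477) (nat_lit 157) (.e (nat_lit 2663) (nat_lit 167) (.e (nat_lit 196666) (nat_lit 13) (.e (nat_lit 65610) (nat_lit 10) (.e (nat_lit 344117) (nat_lit 21) (.e (nat_lit 516151) (nat_lit 9) (.e (nat_lit 426043) (nat_lit 0) (.e (nat_lit 2422) (nat_lit 157) (.e (nat_lit 4778) (nat_lit 281) .nil))))))))) (.g (nat_lit 1) (.e (nat_lit 14282) (nat_lit 0) .nil) .nil))) 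
(.lf (nat_lit 450552) (.g (nat_lit 3544) (.e (nat_lit 2560) (nat_lit 159) (.e (nat_lit 24608) (nat_lit 3) (.e (nat_lit 98372) (nat_lit 29) (.e (nat_lit 450579) (nat_lit 5) (.e (nat_lit 532501) (nat_lit 1) .nil))))) (.g (nat_lit 0) (.e (nat_lit 16370) (nat_lit 0) .nil) .nil)))))))))) 
(.nd (nat_lit 3) (.nd (nat_lit 4) (.nd (nat_lit 5) (.nd (nat_lit 6) (.nd (nat_lit 7) 
(.nd (nat_lit 8) (.nd (nat_lit 9) 
(.lf (nat_lit 449540) (.g (nat_lit 2970) (.e (nat_lit 879) (nat_lit 75) (.e (nat_lit 778466) (nat_lit 11) (.e (nat_lit 24617) (nat_lit 7) (.e (nat_lit 319533) (nat_lit 16) (.e (nat_lit 286753) (nat_lit 10) .nil))))) (.g (nat_lit 0) (.e (nat_lit 12614) (nat_lit 0) .nil) .nil))) 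
(.lf (nat_lit 450052) (.g (nat_lit 2505) (.e (nat_lit 2477) (nat_lit 157) (.e (nat_lit 2663) (nat_lit 167) (.e (nat_lit 196670) (nat_lit 14) (.e (nat_lit 73753) (nat_lit 8) (.e (nat_lit 557103) (nat_lit 14) (.e (nat_lit 180244) (nat_lit 5) (.e (nat_lit 532503) (nat_lit 1) (.e (nat_lit 57703) (nat_lit 164) .nil)))))))) (.g (nat_lit 1) (.e (nat_lit 14296) (nat_lit 0) .nil) .nil)))) (.nd (nat_lit 9) 
(.lf (nat_lit 449796) (.g (nat_lit 2328) (.e (nat_lit 2433) (nat_lit 157) (.e (nat_lit 2668) (nat_lit 167) (.e (nat_lit 196666) (nat_lit 13) (.e (nat_lit 65610) (nat_lit 10) (.e (nat_lit 344117) (nat_lit 21) (.e (nat_lit 516151) (nat_lit 9) (.e (nat_lit 426042) (nat_lit 0) (.e (nat_lit 2424) (nat_lit 157) (.e (nat_lit 4762) (nat_lit 281) .nil))))))))) (.g (nat_lit 1) (.e (nat_lit 13403) (nat_lit 0) .nil) .nil))) 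
(.lf (nat_lit 450308) (.g (nat_lit 2063) (.e (nat_lit 2551) (nat_lit 159) (.e (nat_lit 24640) (nat_lit 10) (.e (nat_lit 344156) (nat_lit 36) (.e (nat_lit 638998) (nat_lit 8) (.e (nat_lit 172113) (nat_lit 10) .nil))))) (.g (nat_lit 0) (.e (nat_lit 15453) (nat_lit 0) .nil) .nil))))) (.nd (nat_lit 8) (.nd (nat_lit 9) 
(.lf (nat_lit 449668) (.g (nat_lit 2519) (.e (nat_lit 788) (nat_lit 66) (.e (nat_lit 704738) (nat_lit 11) (.e (nat_lit 16425) (nat_lit 7) (.e (nat_lit 409644) (nat_lit 18) (.e (nat_lit 303143) (nat_lit 12) .nil))))) (.g (nat_lit 0) (.e (nat_lit 12889) (nat_lit 0) .nil) .nil))) 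
(.lf (nat_lit 450180) (.g (nat_lit 1747) (.e (nat_lit 2508) (nat_lit 157) (.e (nat_lit 3249) (nat_lit 197) (.e (nat_lit 532547) (nat_lit 11) (.e (nat_lit 352318) (nat_lit 24) (.e (nat_lit 130816) (nat_lit 140) (.e (nat_lit 1212) (nat_lit 89) (.e (nat_lit 73780) (nat_lit 32) .nil))))))) (.g (nat_lit 1) (.e (nat_lit 14959) (nat_lit 0) .nil) .nil)))) (.nd (nat_lit 9) 
(.lf (nat_lit 449924) (.g (nat_lit 4365) (.e (nat_lit 2458) (nat_lit 157) (.e (nat_lit 5546) (nat_lit 306) (.e (nat_lit 2610) (nat_lit 163) (.e (nat_lit 163979) (nat_lit 30) (.e (nat_lit 573482) (nat_lit 13) (.e (nat_lit 65604) (nat_lit 9) (.e (nat_lit 336013) (nat_lit 2) (.e (nat_lit 90170) (nat_lit 13) (.e (nat_lit 172042) (nat_lit 0) .nil))))))))) (.g (nat_lit 1) (.e (nat_lit 13967) (nat_lit 0) .nil) .nil))) 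
(.lf (nat_lit 450436) (.g (nat_lit 3409) (.e (nat_lit 2555) (nat_lit 159) (.e (nat_lit 24617) (nat_lit 7) (.e (nat_lit 319533) (nat_lit 16) (.e (nat_lit 286753) (nat_lit 10) (.e (nat_lit 344160) (nat_lit 37) (.e (nat_lit 647200) (nat_lit 12) (.e (nat_lit 57348) (nat_lit 0) (.e (nat_lit 7464) (nat_lit 396) .nil)))))))) (.g (nat_lit 1) (.e (nat_lit 15907) (nat_lit 0) .nil) .nil)))))) 
(.nd (nat_lit 7) (.nd (nat_lit 8) (.nd (nat_lit 9) 
(.lf (nat_lit 449604) (.g (nat_lit 3023) (.e (nat_lit 883) (nat_lit 75) (.e (nat_lit 778466) (nat_lit 11) (.e (nat_lit 24617) (nat_lit 7) (.e (nat_lit 319531) (nat_lit 16) (.e (nat_lit 286759) (nat_lit 12) (.e (nat_lit 385115) (nat_lit 53) (.e (nat_lit 811033) (nat_lit 11) .nil))))))) (.g (nat_lit 1) (.e (nat_lit 12686) (nat_lit 0) .nil) .nil))) 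
(.lf (nat_lit 450116) (.g (nat_lit 1016) (.e (nat_lit 2486) (nat_lit 157) (.e (nat_lit 5597) (nat_lit 310) (.e (nat_lit 163843) (nat_lit 0) (.e (nat_lit 3222) (nat_lit 196) .nil)))) (.g (nat_lit 0) (.e (nat_lit 14606) (nat_lit 0) .nil) .nil)))) (.nd (nat_lit 9) 
(.lf (nat_lit 449860) (.g (nat_lit 1867) (.e (nat_lit 2445) (nat_lit 157) (.e (nat_lit 2685) (nat_lit 168) (.e (nat_lit 204877) (nat_lit 31) (.e (nat_lit 376865) (nat_lit 22) (.e (nat_lit 90173) (nat_lit 14) (.e (nat_lit 180227) (nat_lit 0) (.e (nat_lit 4778) (nat_lit 281) .nil))))))) (.g (nat_lit 1) (.e (nat_lit 13679) (nat_lit 0) .nil) .nil))) 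
(.lf (nat_lit 450372) (.g (nat_lit 1708) (.e (nat_lit 2553) (nat_lit 159) (.e (nat_lit 24604) (nat_lit 2) (.e (nat_lit 90185) (nat_lit 17) (.e (nat_lit 237582) (nat_lit 1) .nil)))) (.g (nat_lit 0) (.e (nat_lit 15709) (nat_lit 0) .nil) .nil))))) (.nd (nat_lit 8) (.nd (nat_lit 9) 
(.lf (nat_lit 449732) (.g (nat_lit 5045) (.e (nat_lit 2399) (nat_lit 157) (.e (nat_lit 6839) (nat_lit 369) (.e (nat_lit 163875) (nat_lit 3) (.e (nat_lit 204862) (nat_lit 27) (.e (nat_lit 344117) (nat_lit 21) (.e (nat_lit 516195) (nat_lit 26) (.e (nat_lit 336027) (nat_lit 3) (.e (nat_lit 98319) (nat_lit 17) .nil)))))))) (.g (nat_lit 1) (.e (nat_lit 13128) (nat_lit 0) .nil) .nil))) 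
(.lf (nat_lit 450244) (.g (nat_lit 2327) (.e (nat_lit 2516) (nat_lit 157) (.e (nat_lit 2664) (nat_lit 167) (.e (nat_lit 196666) (nat_lit 13) (.e (nat_lit 65610) (nat_lit 10) (.e (nat_lit 344117) (nat_lit 21) (.e (nat_lit 516159) (nat_lit 10) (.e (nat_lit 434208) (nat_lit 18) (.e (nat_lit 4751) (nat_lit 281) .nil)))))))) (.g (nat_lit 1) (.e (nat_lit 15252) (nat_lit 0) .nil) .nil)))) 
(.nd (nat_lit 9) 
(.lf (nat_lit 449988) (.g (nat_lit 2093) (.e (nat_lit 2466) (nat_lit 157) (.e (nat_lit 3469) (nat_lit 217) (.e (nat_lit 696344) (nat_lit 8) (.e (nat_lit 172082) (nat_lit 7) (.e (nat_lit 409648) (nat_lit 18) .nil))))) (.g (nat_lit 0) (.e (nat_lit 14156) (nat_lit 0) .nil) .nil))) 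
(.lf (nat_lit 450500) (.g (nat_lit 1543) (.e (nat_lit 2558) (nat_lit 159) (.e (nat_lit 24608) (nat_lit 3) (.e (nat_lit 98372) (nat_lit 29) .nil))) (.g (nat_lit 0) (.e (nat_lit 16198) (nat_lit 0) .nil) .nil))))))) (.nd (nat_lit 6) (.nd (nat_lit 7) (.nd (nat_lit 8) (.nd (nat_lit 9) 
(.lf (nat_lit 449572) (.g (nat_lit 3605) (.e (nat_lit 883) (nat_lit 75) (.e (nat_lit 778465) (nat_lit 11) (.e (nat_lit 24617) (nat_lit 7) (.e (nat_lit 319531) (nat_lit 16) (.e (nat_lit 286759) (nat_lit 12) (.e (nat_lit 385115) (nat_lit 53) (.e (nat_lit 811033) (nat_lit 11) .nil))))))) (.g (nat_lit 1) (.e (nat_lit 12650) (nat_lit 0) .nil) .nil))) 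
(.lf (nat_lit 450084) (.g (nat_lit 2530) (.e (nat_lit 2470) (nat_lit 157) (.e (nat_lit 3469) (nat_lit 217) (.e (nat_lit 696344) (nat_lit 8) (.e (nat_lit 172064) (nat_lit 2) (.e (nat_lit 196666) (nat_lit 13) (.e (nat_lit 65610) (nat_lit 10) (.e (nat_lit 344129) (nat_lit 26) (.e (nat_lit 557067) (nat_lit 9) .nil)))))))) (.g (nat_lit 1) (.e (nat_lit 14427) (nat_lit 0) .nil) .nil)))) (.nd (nat_lit 9) 
(.lf (nat_lit 449828) (.g (nat_lit 4125) (.e (nat_lit 2440) (nat_lit 157) (.e (nat_lit 3098) (nat_lit 192) (.e (nat_lit 491569) (nat_lit 13) (.e (nat_lit 393301) (nat_lit 27) (.e (nat_lit 491558) (nat_lit 10) (.e (nat_lit 344096) (nat_lit 18) (.e (nat_lit 6855) (nat_lit 371) .nil))))))) (.g (nat_lit 1) (.e (nat_lit 13540) (nat_lit 0) .nil) .nil))) 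
(.lf (nat_lit 450340) (.g (nat_lit 2192) (.e (nat_lit 2551) (nat_lit 159) (.e (nat_lit 24640) (nat_lit 10) (.e (nat_lit 344156) (nat_lit 36) (.e (nat_lit 638999) (nat_lit 8) (.e (nat_lit 172113) (nat_lit 10) (.e (nat_lit 434203) (nat_lit 18) (.e (nat_lit 5796) (nat_lit 320) .nil))))))) (.g (nat_lit 1) (.e (nat_lit 15485) (nat_lit 0) .nil) .nil))))) (.nd (nat_lit 8) (.nd (nat_lit 9) 
(.lf (nat_lit 449700) (.g (nat_lit 1557) (.e (nat_lit 2400) (nat_lit 157) (.e (nat_lit 7064) (nat_lit 377) (.e (nat_lit 1349) (nat_lit 102) (.e (nat_lit 286735) (nat_lit 3) (.e (nat_lit 98359) (nat_lit 26) .nil))))) (.g (nat_lit 0) (.e (nat_lit 13021) (nat_lit 0) .nil) .nil))) 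
(.lf (nat_lit 450212) (.g (nat_lit 2417) (.e (nat_lit 2517) (nat_lit 157) (.e (nat_lit 2664) (nat_lit 167) (.e (nat_lit 196666) (nat_lit 13) (.e (nat_lit 65610) (nat_lit 10) (.e (nat_lit 344117) (nat_lit 21) (.e (nat_lit 516159) (nat_lit 10) (.e (nat_lit 434202) (nat_lit 18) (.e (nat_lit 4751) (nat_lit 281) .nil)))))))) (.g (nat_lit 1) (.e (nat_lit 15138) (nat_lit 0) .nil) .nil)))) 
(.nd (nat_lit 9) 
(.lf (nat_lit 449956) (.g (nat_lit 2558) (.e (nat_lit 2458) (nat_lit 157) (.e (nat_lit 7556) (nat_lit 402) (.e (nat_lit 1635) (nat_lit 114) (.e (nat_lit 385073) (nat_lit 31) (.e (nat_lit 573493) (nat_lit 15) (.e (nat_lit 81962) (nat_lit 25) (.e (nat_lit 139289) (nat_lit 9) .nil))))))) (.g (nat_lit 1) (.e (nat_lit 14057) (nat_lit 0) .nil) .nil))) 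
(.lf (nat_lit 450468) (.g (nat_lit 5353) (.e (nat_lit 2556) (nat_lit 159) (.e (nat_lit 24662) (nat_lit 14) (.e (nat_lit 401425) (nat_lit 2) (.e (nat_lit 196666) (nat_lit 13) (.e (nat_lit 65610) (nat_lit 10) (.e (nat_lit 344097) (nat_lit 18) (.e (nat_lit 4073) (nat_lit 245) .nil))))))) (.g (nat_lit 1) (.e (nat_lit 16065) (nat_lit 0) .nil) .nil)))))) 
(.nd (nat_lit 7) (.nd (nat_lit 8) (.nd (nat_lit 9) 
(.lf (nat_lit 449636) (.g (nat_lit 3171) (.e (nat_lit 934) (nat_lit 76) (.e (nat_lit 786483) (nat_lit 30) (.e (nat_lit 360475) (nat_lit 8) (.e (nat_lit 557119) (nat_lit 18) (.e (nat_lit 2798) (nat_lit 180) (.e (nat_lit 303123) (nat_lit 7) (.e (nat_lit 409611) (nat_lit 10) .nil))))))) (.g (nat_lit 1) (.e (nat_lit 12827) (nat_lit 0) .nil) .nil))) 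
(.lf (nat_lit 450148) (.g (nat_lit 4411) (.e (nat_lit 2505) (nat_lit 157) (.e (nat_lit 3249) (nat_lit 197) (.e (nat_lit 532569) (nat_lit 16) (.e (nat_lit 401448) (nat_lit 10) (.e (nat_lit 434232) (nat_lit 23) (.e (nat_lit 532523) (nat_lit 7) (.e (nat_lit 319505) (nat_lit 10) (.e (nat_lit 5712) (nat_lit 312) .nil)))))))) (.g (nat_lit 1) (.e (nat_lit 14828) (nat_lit 0) .nil) .nil)))) 
(.nd (nat_lit 9) 
(.lf (nat_lit 449892) (.g (nat_lit 3651) (.e (nat_lit 2450) (nat_lit 157) (.e (nat_lit 3098) (nat_lit 192) (.e (nat_lit 491569) (nat_lit 13) (.e (nat_lit 393301) (nat_lit 27) (.e (nat_lit 491560) (nat_lit 10) (.e (nat_lit 344090) (nat_lit 18) (.e (nat_lit 6850) (nat_lit 371) .nil))))))) (.g (nat_lit 1) (.e (nat_lit 13856) (nat_lit 0) .nil) .nil))) 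
(.lf (nat_lit 450404) (.g (nat_lit 1194) (.e (nat_lit 2553) (nat_lit 159) (.e (nat_lit 24658) (nat_lit 13) (.e (nat_lit 393301) (nat_lit 27) (.e (nat_lit 491559) (nat_lit 10) .nil)))) (.g (nat_lit 0) (.e (nat_lit 15753) (nat_lit 0) .nil) .nil))))) (.nd (nat_lit 8) (.nd (nat_lit 9) 
(.lf (nat_lit 449764) (.g (nat_lit 1798) (.e (nat_lit 2423) (nat_lit 157) (.e (nat_lit 358) (nat_lit 29) (.e (nat_lit 401456) (nat_lit 13) (.e (nat_lit 483413) (nat_lit 27) (.e (nat_lit 401446) (nat_lit 10) .nil))))) (.g (nat_lit 0) (.e (nat_lit 13239) (nat_lit 0) .nil) .nil))) 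
(.lf (nat_lit 450276) (.g (nat_lit 2903) (.e (nat_lit 2551) (nat_lit 159) (.e (nat_lit 24608) (nat_lit 3) (.e (nat_lit 98373) (nat_lit 29) (.e (nat_lit 450587) (nat_lit 10) (.e (nat_lit 573475) (nat_lit 12) (.e (nat_lit 57346) (nat_lit 0) (.e (nat_lit 7437) (nat_lit 396) .nil))))))) (.g (nat_lit 1) (.e (nat_lit 15407) (nat_lit 0) .nil) .nil)))) (.nd (nat_lit 9) 
(.lf (nat_lit 450020) (.g (nat_lit 4869) (.e (nat_lit 2477) (nat_lit 157) (.e (nat_lit 2663) (nat_lit 167) (.e (nat_lit 196666) (nat_lit 13) (.e (nat_lit 65610) (nat_lit 10) (.e (nat_lit 344117) (nat_lit 21) (.e (nat_lit 516151) (nat_lit 9) (.e (nat_lit 426022) (nat_lit 0) (.e (nat_lit 2402) (nat_lit 157) (.e (nat_lit 4830) (nat_lit 281) .nil))))))))) (.g (nat_lit 1) (.e (nat_lit 14262) (nat_lit 0) .nil) .nil))) 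
(.lf (nat_lit 450532) (.g (nat_lit 1416) (.e (nat_lit 2559) (nat_lit 159) (.e (nat_lit 24640) (nat_lit 10) (.e (nat_lit 344156) (nat_lit 36) (.e (nat_lit 638998) (nat_lit 8) .nil)))) (.g (nat_lit 0) (.e (nat_lit 16296) (nat_lit 0) .nil) .nil)))))))) (.nd (nat_lit 5) (.nd (nat_lit 6) (.nd (nat_lit 7) (.nd (nat_lit 8) (.nd (nat_lit 9) 
(.lf (nat_lit 449556) (.g (nat_lit 1930) (.e (nat_lit 883) (nat_lit 75) (.e (nat_lit 778465) (nat_lit 11) (.e (nat_lit 24617) (nat_lit 7) (.e (nat_lit 319528) (nat_lit 16) (.e (nat_lit 286759) (nat_lit 12) (.e (nat_lit 385094) (nat_lit 49) (.e (nat_lit 778510) (nat_lit 14) (.e (nat_lit 982) (nat_lit 81) .nil)))))))) (.g (nat_lit 1) (.e (nat_lit 12634) (nat_lit 0) .nil) .nil))) 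
(.lf (nat_lit 450068) (.g (nat_lit 3647) (.e (nat_lit 2478) (nat_lit 157) (.e (nat_lit 5548) (nat_lit 306) (.e (nat_lit 2610) (nat_lit 163) (.e (nat_lit 163978) (nat_lit 30) (.e (nat_lit 573485) (nat_lit 13) (.e (nat_lit 65604) (nat_lit 9) (.e (nat_lit 336013) (nat_lit 2) (.e (nat_lit 90170) (nat_lit 13) (.e (nat_lit 172042) (nat_lit 0) .nil))))))))) (.g (nat_lit 1) (.e (nat_lit 14366) (nat_lit 0) .nil) .nil)))) 
(.nd (nat_lit 9) 
(.lf (nat_lit 449812) (.g (nat_lit 2750) (.e (nat_lit 2433) (nat_lit 157) (.e (nat_lit 2851) (nat_lit 184) (.e (nat_lit 426566) (nat_lit 34) (.e (nat_lit 393268) (nat_lit 23) (.e (nat_lit 426436) (nat_lit 18) (.e (nat_lit 98334) (nat_lit 18) (.e (nat_lit 164305) (nat_lit 226) .nil))))))) (.g (nat_lit 1) (.e (nat_lit 13472) (nat_lit 0) .nil) .nil))) 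
(.lf (nat_lit 450324) (.g (nat_lit 2134) (.e (nat_lit 2551) (nat_lit 159) (.e (nat_lit 24640) (nat_lit 10) (.e (nat_lit 344156) (nat_lit 36) (.e (nat_lit 638998) (nat_lit 8) (.e (nat_lit 172115) (nat_lit 10) (.e (nat_lit 434202) (nat_lit 18) (.e (nat_lit 5798) (nat_lit 320) .nil))))))) (.g (nat_lit 1) (.e (nat_lit 15469) (nat_lit 0) .nil) .nil))))) (.nd (nat_lit 8) (.nd (nat_lit 9) 
(.lf (nat_lit 449684) (.g (nat_lit 3267) (.e (nat_lit 2397) (nat_lit 157) (.e (nat_lit 5626) (nat_lit 312) (.e (nat_lit 2668) (nat_lit 167) (.e (nat_lit 196666) (nat_lit 13) (.e (nat_lit 65619) (nat_lit 10) .nil))))) (.g (nat_lit 0) (.e (nat_lit 12925) (nat_lit 0) .nil) .nil))) 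
(.lf (nat_lit 450196) (.g (nat_lit 1609) (.e (nat_lit 2510) (nat_lit 157) (.e (nat_lit 2661) (nat_lit 167) (.e (nat_lit 196666) (nat_lit 13) (.e (nat_lit 65610) (nat_lit 10) (.e (nat_lit 344117) (nat_lit 21) (.e (nat_lit 516151) (nat_lit 9) (.e (nat_lit 426042) (nat_lit 0) (.e (nat_lit 2427) (nat_lit 157) (.e (nat_lit 4754) (nat_lit 281) .nil))))))))) (.g (nat_lit 1) (.e (nat_lit 15040) (nat_lit 0) .nil) .nil)))) 
(.nd (nat_lit 9) 
(.lf (nat_lit 449940) (.g (nat_lit 3465) (.e (nat_lit 2458) (nat_lit 157) (.e (nat_lit 5547) (nat_lit 306) (.e (nat_lit 2610) (nat_lit 163) (.e (nat_lit 163977) (nat_lit 30) (.e (nat_lit 573485) (nat_lit 13) (.e (nat_lit 65604) (nat_lit 9) (.e (nat_lit 336013) (nat_lit 2) (.e (nat_lit 90170) (nat_lit 13) (.e (nat_lit 172042) (nat_lit 0) .nil))))))))) (.g (nat_lit 1) (.e (nat_lit 14021) (nat_lit 0) .nil) .nil))) 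
(.lf (nat_lit 450452) (.g (nat_lit 3070) (.e (nat_lit 2555) (nat_lit 159) (.e (nat_lit 24662) (nat_lit 14) (.e (nat_lit 401459) (nat_lit 13) (.e (nat_lit 483395) (nat_lit 24) (.e (nat_lit 344096) (nat_lit 18) (.e (nat_lit 4761) (nat_lit 281) .nil)))))) (.g (nat_lit 1) (.e (nat_lit 15950) (nat_lit 0) .nil) .nil)))))) (.nd (nat_lit 7) (.nd (nat_lit 8) (.nd (nat_lit 9) 
(.lf (nat_lit 449620) (.g (nat_lit 2077) (.e (nat_lit 913) (nat_lit 75) (.e (nat_lit 778465) (nat_lit 11) (.e (nat_lit 24617) (nat_lit 7) (.e (nat_lit 319531) (nat_lit 16) (.e (nat_lit 286759) (nat_lit 12) .nil))))) (.g (nat_lit 0) (.e (nat_lit 12730) (nat_lit 0) .nil) .nil))) 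
(.lf (nat_lit 450132) (.g (nat_lit 264) (.e (nat_lit 2505) (nat_lit 157) (.e (nat_lit 3249) (nat_lit 197) (.e (nat_lit 532526) (nat_lit 8) .nil))) (.g (nat_lit 0) (.e (nat_lit 14712) (nat_lit 0) .nil) .nil)))) (.nd (nat_lit 9) 
(.lf (nat_lit 449876) (.g (nat_lit 3765) (.e (nat_lit 2449) (nat_lit 157) (.e (nat_lit 3096) (nat_lit 192) (.e (nat_lit 491569) (nat_lit 13) (.e (nat_lit 393301) (nat_lit 27) (.e (nat_lit 491558) (nat_lit 10) (.e (nat_lit 344091) (nat_lit 18) (.e (nat_lit 6923) (nat_lit 371) .nil))))))) (.g (nat_lit 1) (.e (nat_lit 13759) (nat_lit 0) .nil) .nil))) 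
(.lf (nat_lit 450388) (.g (nat_lit 1881) (.e (nat_lit 2553) (nat_lit 159) (.e (nat_lit 24640) (nat_lit 10) (.e (nat_lit 344156) (nat_lit 36) (.e (nat_lit 638985) (nat_lit 5) .nil)))) (.g (nat_lit 0) (.e (nat_lit 15734) (nat_lit 0) .nil) .nil))))) (.nd (nat_lit 8) (.nd (nat_lit 9) 
(.lf (nat_lit 449748) (.g (nat_lit 2619) (.e (nat_lit 2416) (nat_lit 157) (.e (nat_lit 3307) (nat_lit 202) (.e (nat_lit 573489) (nat_lit 14) (.e (nat_lit 73755) (nat_lit 8) (.e (nat_lit 557105) (nat_lit 14) .nil))))) (.g (nat_lit 0) (.e (nat_lit 13173) (nat_lit 0) .nil) .nil))) 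
(.lf (nat_lit 450260) (.g (nat_lit 3018) (.e (nat_lit 7936) (nat_lit 157) (.e (nat_lit 3502) (nat_lit 218) (.e (nat_lit 704738) (nat_lit 11) (.e (nat_lit 16425) (nat_lit 7) (.e (nat_lit 409648) (nat_lit 18) .nil))))) (.g (nat_lit 0) (.e (nat_lit 15362) (nat_lit 0) .nil) .nil)))) (.nd (nat_lit 9) 
(.lf (nat_lit 450004) (.g (nat_lit 1674) (.e (nat_lit 2467) (nat_lit 157) (.e (nat_lit 3469) (nat_lit 217) (.e (nat_lit 696344) (nat_lit 8) (.e (nat_lit 172081) (nat_lit 7) (.e (nat_lit 409648) (nat_lit 18) .nil))))) (.g (nat_lit 0) (.e (nat_lit 14185) (nat_lit 0) .nil) .nil))) 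
(.lf (nat_lit 450516) (.g (nat_lit 3027) (.e (nat_lit 2559) (nat_lit 159) (.e (nat_lit 24608) (nat_lit 3) (.e (nat_lit 98365) (nat_lit 26) (.e (nat_lit 426098) (nat_lit 1) (.e (nat_lit 164325) (nat_lit 230) .nil))))) (.g (nat_lit 0) (.e (nat_lit 16272) (nat_lit 0) .nil) .nil))))))) (.nd (nat_lit 6) (.nd (nat_lit 7) (.nd (nat_lit 8) (.nd (nat_lit 9) 
(.lf (nat_lit 449588) (.g (nat_lit 2159) (.e (nat_lit 883) (nat_lit 75) (.e (nat_lit 778465) (nat_lit 11) (.e (nat_lit 24617) (nat_lit 7) (.e (nat_lit 319534) (nat_lit 16) (.e (nat_lit 286759) (nat_lit 12) (.e (nat_lit 385113) (nat_lit 53) (.e (nat_lit 811035) (nat_lit 11) .nil))))))) (.g (nat_lit 1) (.e (nat_lit 12666) (nat_lit 0) .nil) .nil))) 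
(.lf (nat_lit 450100) (.g (nat_lit 2678) (.e (nat_lit 2473) (nat_lit 157) (.e (nat_lit 3307) (nat_lit 202) (.e (nat_lit 573489) (nat_lit 14) (.e (nat_lit 73755) (nat_lit 8) (.e (nat_lit 557105) (nat_lit 14) .nil))))) (.g (nat_lit 0) (.e (nat_lit 14461) (nat_lit 0) .nil) .nil)))) (.nd (nat_lit 9) 
(.lf (nat_lit 449844) (.g (nat_lit 2568) (.e (nat_lit 2444) (nat_lit 157) (.e (nat_lit 3098) (nat_lit 192) (.e (nat_lit 491537) (nat_lit 2) (.e (nat_lit 90170) (nat_lit 13) (.e (nat_lit 172106) (nat_lit 10) (.e (nat_lit 434231) (nat_lit 23) (.e (nat_lit 532500) (nat_lit 1) (.e (nat_lit 57764) (nat_lit 215) .nil)))))))) (.g (nat_lit 1) (.e (nat_lit 13653) (nat_lit 0) .nil) .nil))) 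
(.lf (nat_lit 450356) (.g (nat_lit 2473) (.e (nat_lit 2552) (nat_lit 159) (.e (nat_lit 24604) (nat_lit 2) (.e (nat_lit 90176) (nat_lit 15) (.e (nat_lit 188450) (nat_lit 23) (.e (nat_lit 204830) (nat_lit 18) .nil))))) (.g (nat_lit 0) (.e (nat_lit 15656) (nat_lit 0) .nil) .nil))))) (.nd (nat_lit 8) (.nd (nat_lit 9) 
(.lf (nat_lit 449716) (.g (nat_lit 3695) (.e (nat_lit 2402) (nat_lit 157) (.e (nat_lit 4761) (nat_lit 281) (.e (nat_lit 2461) (nat_lit 157) (.e (nat_lit 2666) (nat_lit 167) (.e (nat_lit 196666) (nat_lit 13) (.e (nat_lit 65610) (nat_lit 10) (.e (nat_lit 344117) (nat_lit 21) (.e (nat_lit 516151) (nat_lit 9) (.e (nat_lit 426023) (nat_lit 0) .nil))))))))) (.g (nat_lit 1) (.e (nat_lit 13053) (nat_lit 0) .nil) .nil))) 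
(.lf (nat_lit 450228) (.g (nat_lit 3041) (.e (nat_lit 2515) (nat_lit 157) (.e (nat_lit 2854) (nat_lit 184) (.e (nat_lit 426320) (nat_lit 12) (.e (nat_lit 475207) (nat_lit 41) (.e (nat_lit 712755) (nat_lit 30) (.e (nat_lit 450563) (nat_lit 0) (.e (nat_lit 5537) (nat_lit 306) .nil))))))) (.g (nat_lit 1) (.e (nat_lit 15187) (nat_lit 0) .nil) .nil)))) (.nd (nat_lit 9) 
(.lf (nat_lit 449972) (.g (nat_lit 1479) (.e (nat_lit 2466) (nat_lit 157) (.e (nat_lit 2845) (nat_lit 184) (.e (nat_lit 426438) (nat_lit 18) (.e (nat_lit 98358) (nat_lit 26) (.e (nat_lit 426323) (nat_lit 13) .nil))))) (.g (nat_lit 0) (.e (nat_lit 14133) (nat_lit 0) .nil) .nil))) 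
(.lf (nat_lit 450484) (.g (nat_lit 2852) (.e (nat_lit 2557) (nat_lit 159) (.e (nat_lit 24640) (nat_lit 10) (.e (nat_lit 344117) (nat_lit 21) (.e (nat_lit 516185) (nat_lit 16) (.e (nat_lit 491560) (nat_lit 10) .nil))))) (.g (nat_lit 0) (.e (nat_lit 16152) (nat_lit 0) .nil) .nil)))))) (.nd (nat_lit 7) (.nd (nat_lit 8) (.nd (nat_lit 9) 
(.lf (nat_lit 449652) (.g (nat_lit 2647) (.e (nat_lit 752) (nat_lit 66) (.e (nat_lit 704738) (nat_lit 11) (.e (nat_lit 16425) (nat_lit 7) (.e (nat_lit 409643) (nat_lit 18) (.e (nat_lit 303143) (nat_lit 12) .nil))))) (.g (nat_lit 0) (.e (nat_lit 12869) (nat_lit 0) .nil) .nil))) 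
(.lf (nat_lit 450164) (.g (nat_lit 4140) (.e (nat_lit 2508) (nat_lit 157) (.e (nat_lit 3249) (nat_lit 197) (.e (nat_lit 532482) (nat_lit 0) (.e (nat_lit 6203) (nat_lit 332) (.e (nat_lit 2798) (nat_lit 180) (.e (nat_lit 303117) (nat_lit 2) (.e (nat_lit 196668) (nat_lit 14) (.e (nat_lit 73780) (nat_lit 32) .nil)))))))) (.g (nat_lit 1) (.e (nat_lit 14903) (nat_lit 0) .nil) .nil)))) (.nd (nat_lit 9) 
(.lf (nat_lit 449908) (.g (nat_lit 3364) (.e (nat_lit 2458) (nat_lit 157) (.e (nat_lit 5939) (nat_lit 322) (.e (nat_lit 57379) (nat_lit 3) (.e (nat_lit 98365) (nat_lit 26) (.e (nat_lit 426325) (nat_lit 13) (.e (nat_lit 483337) (nat_lit 9) (.e (nat_lit 426035) (nat_lit 0) .nil))))))) (.g (nat_lit 1) (.e (nat_lit 13928) (nat_lit 0) .nil) .nil))) 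
(.lf (nat_lit 450420) (.g (nat_lit 1979) (.e (nat_lit 2554) (nat_lit 159) (.e (nat_lit 24653) (nat_lit 12) (.e (nat_lit 385102) (nat_lit 50) (.e (nat_lit 786483) (nat_lit 30) (.e (nat_lit 360450) (nat_lit 0) (.e (nat_lit 4825) (nat_lit 281) .nil)))))) (.g (nat_lit 1) (.e (nat_lit 15801) (nat_lit 0) .nil) .nil))))) (.nd (nat_lit 8) (.nd (nat_lit 9) 
(.lf (nat_lit 449780) (.g (nat_lit 2130) (.e (nat_lit 2427) (nat_lit 157) (.e (nat_lit 5537) (nat_lit 306) (.e (nat_lit 2610) (nat_lit 163) (.e (nat_lit 163978) (nat_lit 30) (.e (nat_lit 573484) (nat_lit 13) .nil))))) (.g (nat_lit 0) (.e (nat_lit 13335) (nat_lit 0) .nil) .nil))) 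
(.lf (nat_lit 450292) (.g (nat_lit 2166) (.e (nat_lit 2551) (nat_lit 159) (.e (nat_lit 24640) (nat_lit 10) (.e (nat_lit 344156) (nat_lit 36) (.e (nat_lit 638985) (nat_lit 5) (.e (nat_lit 3016) (nat_lit 187) .nil))))) (.g (nat_lit 0) (.e (nat_lit 15436) (nat_lit 0) .nil) .nil)))) (.nd (nat_lit 9) 
(.lf (nat_lit 450036) (.g (nat_lit 3404) (.e (nat_lit 2477) (nat_lit 157) (.e (nat_lit 2663) (nat_lit 167) (.e (nat_lit 196666) (nat_lit 13) (.e (nat_lit 65610) (nat_lit 10) (.e (nat_lit 344117) (nat_lit 21) (.e (nat_lit 516151) (nat_lit 9) (.e (nat_lit 426042) (nat_lit 0) (.e (nat_lit 2424) (nat_lit 157) (.e (nat_lit 4818) (nat_lit 281) .nil))))))))) (.g (nat_lit 1) (.e (nat_lit 14278) (nat_lit 0) .nil) .nil))) 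
(.lf (nat_lit 450548) (.g (nat_lit 1888) (.e (nat_lit 2559) (nat_lit 159) (.e (nat_lit 24660) (nat_lit 13) (.e (nat_lit 393260) (nat_lit 21) (.e (nat_lit 409648) (nat_lit 18) (.e (nat_lit 303104) (nat_lit 0) .nil))))) (.g (nat_lit 0) (.e (nat_lit 16312) (nat_lit 0) .nil) .nil))))))))) (.nd (nat_lit 4) (.nd (nat_lit 5) (.nd (nat_lit 6) (.nd (nat_lit 7) (.nd (nat_lit 8) (.nd (nat_lit 9) 
(.lf (nat_lit 449548) (.g (nat_lit 1680) (.e (nat_lit 883) (nat_lit 75) (.e (nat_lit 778465) (nat_lit 11) (.e (nat_lit 24608) (nat_lit 3) (.e (nat_lit 98365) (nat_lit 26) (.e (nat_lit 426306) (nat_lit 12) (.e (nat_lit 475174) (nat_lit 23) (.e (nat_lit 507908) (nat_lit 0) .nil))))))) (.g (nat_lit 1) (.e (nat_lit 12625) (nat_lit 0) .nil) .nil))) 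
(.lf (nat_lit 450060) (.g (nat_lit 1005) (.e (nat_lit 2478) (nat_lit 157) (.e (nat_lit 2946) (nat_lit 184) (.e (nat_lit 426306) (nat_lit 12) (.e (nat_lit 475207) (nat_lit 41) .nil)))) (.g (nat_lit 0) (.e (nat_lit 14316) (nat_lit 0) .nil) .nil)))) (.nd (nat_lit 9) 
(.lf (nat_lit 449804) (.g (nat_lit 2020) (.e (nat_lit 2433) (nat_lit 157) (.e (nat_lit 2668) (nat_lit 167) (.e (nat_lit 196666) (nat_lit 13) (.e (nat_lit 65610) (nat_lit 10) (.e (nat_lit 344117) (nat_lit 21) (.e (nat_lit 516160) (nat_lit 10) (.e (nat_lit 442112) (nat_lit 18) (.e (nat_lit 4761) (nat_lit 281) .nil)))))))) (.g (nat_lit 1) (.e (nat_lit 13411) (nat_lit 0) .nil) .nil))) 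
(.lf (nat_lit 450316) (.g (nat_lit 2926) (.e (nat_lit 2551) (nat_lit 159) (.e (nat_lit 24640) (nat_lit 10) (.e (nat_lit 344156) (nat_lit 36) (.e (nat_lit 638998) (nat_lit 8) (.e (nat_lit 172113) (nat_lit 10) (.e (nat_lit 434203) (nat_lit 18) (.e (nat_lit 5833) (nat_lit 320) .nil))))))) (.g (nat_lit 1) (.e (nat_lit 15461) (nat_lit 0) .nil) .nil))))) (.nd (nat_lit 8) (.nd (nat_lit 9) 
(.lf (nat_lit 449676) (.g (nat_lit 1256) (.e (nat_lit 2397) (nat_lit 157) (.e (nat_lit 268) (nat_lit 21) (.e (nat_lit 336228) (nat_lit 14) (.e (nat_lit 401428) (nat_lit 3) .nil)))) (.g (nat_lit 0) (.e (nat_lit 12911) (nat_lit 0) .nil) .nil))) 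
(.lf (nat_lit 450188) (.g (nat_lit 2004) (.e (nat_lit 2508) (nat_lit 157) (.e (nat_lit 3249) (nat_lit 197) (.e (nat_lit 532569) (nat_lit 16) (.e (nat_lit 401448) (nat_lit 10) (.e (nat_lit 434232) (nat_lit 23) .nil))))) (.g (nat_lit 0) (.e (nat_lit 15002) (nat_lit 0) .nil) .nil)))) (.nd (nat_lit 9) 
(.lf (nat_lit 449932) (.g (nat_lit 4285) (.e (nat_lit 2458) (nat_lit 157) (.e (nat_lit 5547) (nat_lit 306) (.e (nat_lit 2599) (nat_lit 163) (.e (nat_lit 163979) (nat_lit 30) (.e (nat_lit 573482) (nat_lit 13) (.e (nat_lit 65604) (nat_lit 9) (.e (nat_lit 336013) (nat_lit 2) (.e (nat_lit 90170) (nat_lit 13) (.e (nat_lit 172042) (nat_lit 0) .nil))))))))) (.g (nat_lit 1) (.e (nat_lit 13999) (nat_lit 0) .nil) .nil))) 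
(.lf (nat_lit 450444) (.g (nat_lit 1441) (.e (nat_lit 2555) (nat_lit 159) (.e (nat_lit 24658) (nat_lit 13) (.e (nat_lit 393301) (nat_lit 27) .nil))) (.g (nat_lit 0) (.e (nat_lit 15934) (nat_lit 0) .nil) .nil)))))) (.nd (nat_lit 7) (.nd (nat_lit 8) (.nd (nat_lit 9) 
(.lf (nat_lit 449612) (.g (nat_lit 2876) (.e (nat_lit 883) (nat_lit 75) (.e (nat_lit 778466) (nat_lit 11) (.e (nat_lit 24617) (nat_lit 7) (.e (nat_lit 319533) (nat_lit 16) (.e (nat_lit 286759) (nat_lit 12) (.e (nat_lit 385115) (nat_lit 53) (.e (nat_lit 811033) (nat_lit 11) .nil))))))) (.g (nat_lit 1) (.e (nat_lit 12694) (nat_lit 0) .nil) .nil))) 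
(.lf (nat_lit 450124) (.g (nat_lit 3690) (.e (nat_lit 2505) (nat_lit 157) (.e (nat_lit 3141) (nat_lit 193) (.e (nat_lit 500065) (nat_lit 18) (.e (nat_lit 65630) (nat_lit 14) (.e (nat_lit 401428) (nat_lit 3) (.e (nat_lit 204863) (nat_lit 27) (.e (nat_lit 344065) (nat_lit 0) .nil))))))) (.g (nat_lit 1) (.e (nat_lit 14698) (nat_lit 0) .nil) .nil)))) (.nd (nat_lit 9) 
(.lf (nat_lit 449868) (.g (nat_lit 4499) (.e (nat_lit 2445) (nat_lit 157) (.e (nat_lit 3098) (nat_lit 192) (.e (nat_lit 491569) (nat_lit 13) (.e (nat_lit 393301) (nat_lit 27) (.e (nat_lit 491560) (nat_lit 10) (.e (nat_lit 344096) (nat_lit 18) (.e (nat_lit 6869) (nat_lit 371) .nil))))))) (.g (nat_lit 1) (.e (nat_lit 13721) (nat_lit 0) .nil) .nil))) 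
(.lf (nat_lit 450380) (.g (nat_lit 2973) (.e (nat_lit 2553) (nat_lit 159) (.e (nat_lit 24608) (nat_lit 3) (.e (nat_lit 98372) (nat_lit 29) (.e (nat_lit 450579) (nat_lit 5) (.e (nat_lit 532501) (nat_lit 1) (.e (nat_lit 65280) (nat_lit 233) .nil)))))) (.g (nat_lit 1) (.e (nat_lit 15718) (nat_lit 0) .nil) .nil))))) (.nd (nat_lit 8) (.nd (nat_lit 9) 
(.lf (nat_lit 449740) (.g (nat_lit 2379) (.e (nat_lit 2416) (nat_lit 157) (.e (nat_lit 2666) (nat_lit 167) (.e (nat_lit 196666) (nat_lit 13) (.e (nat_lit 65610) (nat_lit 10) (.e (nat_lit 344117) (nat_lit 21) .nil))))) (.g (nat_lit 0) (.e (nat_lit 13157) (nat_lit 0) .nil) .nil))) 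
(.lf (nat_lit 450252) (.g (nat_lit 2419) (.e (nat_lit 2536) (nat_lit 157) (.e (nat_lit 2666) (nat_lit 167) (.e (nat_lit 196666) (nat_lit 13) (.e (nat_lit 65610) (nat_lit 10) (.e (nat_lit 344117) (nat_lit 21) (.e (nat_lit 516151) (nat_lit 9) (.e (nat_lit 426042) (nat_lit 0) (.e (nat_lit 2427) (nat_lit 157) (.e (nat_lit 4751) (nat_lit 281) .nil))))))))) (.g (nat_lit 1) (.e (nat_lit 15301) (nat_lit 0) .nil) .nil)))) 
(.nd (nat_lit 9) 
(.lf (nat_lit 449996) (.g (nat_lit 3944) (.e (nat_lit 2467) (nat_lit 157) (.e (nat_lit 3307) (nat_lit 202) (.e (nat_lit 573489) (nat_lit 14) (.e (nat_lit 73755) (nat_lit 8) (.e (nat_lit 557105) (nat_lit 14) (.e (nat_lit 180252) (nat_lit 10) (.e (nat_lit 573473) (nat_lit 12) (.e (nat_lit 57504) (nat_lit 38) (.e (nat_lit 638986) (nat_lit 5) .nil))))))))) (.g (nat_lit 1) (.e (nat_lit 14171) (nat_lit 0) .nil) .nil))) 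
(.lf (nat_lit 450508) (.g (nat_lit 2218) (.e (nat_lit 2558) (nat_lit 159) (.e (nat_lit 24640) (nat_lit 10) (.e (nat_lit 344156) (nat_lit 36) (.e (nat_lit 638985) (nat_lit 5) (.e (nat_lit 3022) (nat_lit 187) .nil))))) (.g (nat_lit 0) (.e (nat_lit 16212) (nat_lit 0) .nil) .nil))))))) (.nd (nat_lit 6) (.nd (nat_lit 7) (.nd (nat_lit 8) (.nd (nat_lit 9) 
(.lf (nat_lit 449580) (.g (nat_lit 4114) (.e (nat_lit 883) (nat_lit 75) (.e (nat_lit 778465) (nat_lit 11) (.e (nat_lit 24617) (nat_lit 7) (.e (nat_lit 319533) (nat_lit 16) (.e (nat_lit 286759) (nat_lit 12) (.e (nat_lit 385115) (nat_lit 53) (.e (nat_lit 811031) (nat_lit 11) .nil))))))) (.g (nat_lit 1) (.e (nat_lit 12658) (nat_lit 0) .nil) .nil))) 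
(.lf (nat_lit 450092) (.g (nat_lit 2800) (.e (nat_lit 2472) (nat_lit 157) (.e (nat_lit 3307) (nat_lit 202) (.e (nat_lit 573489) (nat_lit 14) (.e (nat_lit 73754) (nat_lit 8) (.e (nat_lit 557105) (nat_lit 14) (.e (nat_lit 180252) (nat_lit 10) (.e (nat_lit 573475) (nat_lit 12) (.e (nat_lit 57503) (nat_lit 38) (.e (nat_lit 638985) (nat_lit 5) .nil))))))))) (.g (nat_lit 1) (.e (nat_lit 14445) (nat_lit 0) .nil) .nil)))) 
(.nd (nat_lit 9) 
(.lf (nat_lit 449836) (.g (nat_lit 2042) (.e (nat_lit 2443) (nat_lit 157) (.e (nat_lit 353) (nat_lit 29) (.e (nat_lit 401451) (nat_lit 12) (.e (nat_lit 475207) (nat_lit 41) .nil)))) (.g (nat_lit 0) (.e (nat_lit 13582) (nat_lit 0) .nil) .nil))) 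
(.lf (nat_lit 450348) (.g (nat_lit 3343) (.e (nat_lit 2551) (nat_lit 159) (.e (nat_lit 24658) (nat_lit 13) (.e (nat_lit 393301) (nat_lit 27) (.e (nat_lit 491559) (nat_lit 10) (.e (nat_lit 344091) (nat_lit 18) .nil))))) (.g (nat_lit 0) (.e (nat_lit 15497) (nat_lit 0) .nil) .nil))))) (.nd (nat_lit 8) (.nd (nat_lit 9) 
(.lf (nat_lit 449708) (.g (nat_lit 3979) (.e (nat_lit 2400) (nat_lit 157) (.e (nat_lit 7586) (nat_lit 406) (.e (nat_lit 65571) (nat_lit 3) (.e (nat_lit 98389) (nat_lit 33) (.e (nat_lit 491558) (nat_lit 10) (.e (nat_lit 344107) (nat_lit 19) (.e (nat_lit 499825) (nat_lit 5) .nil))))))) (.g (nat_lit 1) (.e (nat_lit 13043) (nat_lit 0) .nil) .nil))) 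
(.lf (nat_lit 450220) (.g (nat_lit 2253) (.e (nat_lit 2518) (nat_lit 157) (.e (nat_lit 2664) (nat_lit 167) (.e (nat_lit 196666) (nat_lit 13) (.e (nat_lit 65610) (nat_lit 10) (.e (nat_lit 344117) (nat_lit 21) .nil))))) (.g (nat_lit 0) (.e (nat_lit 15162) (nat_lit 0) .nil) .nil)))) (.nd (nat_lit 9) 
(.lf (nat_lit 449964) (.g (nat_lit 3142) (.e (nat_lit 2461) (nat_lit 157) (.e (nat_lit 3307) (nat_lit 202) (.e (nat_lit 573489) (nat_lit 14) (.e (nat_lit 73755) (nat_lit 8) (.e (nat_lit 557105) (nat_lit 14) (.e (nat_lit 180252) (nat_lit 10) (.e (nat_lit 573474) (nat_lit 12) (.e (nat_lit 57504) (nat_lit 38) (.e (nat_lit 638984) (nat_lit 5) .nil))))))))) (.g (nat_lit 1) (.e (nat_lit 14100) (nat_lit 0) .nil) .nil))) 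
(.lf (nat_lit 450476) (.g (nat_lit 2054) (.e (nat_lit 2557) (nat_lit 159) (.e (nat_lit 24601) (nat_lit 2) (.e (nat_lit 90176) (nat_lit 15) (.e (nat_lit 188450) (nat_lit 23) (.e (nat_lit 204830) (nat_lit 18) (.e (nat_lit 65280) (nat_lit 233) .nil)))))) (.g (nat_lit 1) (.e (nat_lit 16130) (nat_lit 0) .nil) .nil)))))) (.nd (nat_lit 7) (.nd (nat_lit 8) (.nd (nat_lit 9) 
(.lf (nat_lit 449644) (.g (nat_lit 2441) (.e (nat_lit 943) (nat_lit 77) (.e (nat_lit 794657) (nat_lit 21) (.e (nat_lit 164325) (nat_lit 230) (.e (nat_lit 163903) (nat_lit 12) .nil)))) (.g (nat_lit 0) (.e (nat_lit 12840) (nat_lit 0) .nil) .nil))) 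
(.lf (nat_lit 450156) (.g (nat_lit 2001) (.e (nat_lit 2506) (nat_lit 157) (.e (nat_lit 5626) (nat_lit 312) (.e (nat_lit 2668) (nat_lit 167) (.e (nat_lit 196666) (nat_lit 13) (.e (nat_lit 65610) (nat_lit 10) .nil))))) (.g (nat_lit 0) (.e (nat_lit 14849) (nat_lit 0) .nil) .nil)))) (.nd (nat_lit 9) 
(.lf (nat_lit 449900) (.g (nat_lit 3543) (.e (nat_lit 2454) (nat_lit 157) (.e (nat_lit 2663) (nat_lit 167) (.e (nat_lit 196666) (nat_lit 13) (.e (nat_lit 65610) (nat_lit 10) (.e (nat_lit 344117) (nat_lit 21) (.e (nat_lit 516151) (nat_lit 9) (.e (nat_lit 426097) (nat_lit 1) (.e (nat_lit 164260) (nat_lit 215) .nil)))))))) (.g (nat_lit 1) (.e (nat_lit 13878) (nat_lit 0) .nil) .nil))) 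
(.lf (nat_lit 450412) (.g (nat_lit 2001) (.e (nat_lit 2554) (nat_lit 159) (.e (nat_lit 24605) (nat_lit 2) (.e (nat_lit 90170) (nat_lit 13) (.e (nat_lit 172106) (nat_lit 10) (.e (nat_lit 434244) (nat_lit 28) .nil))))) (.g (nat_lit 0) (.e (nat_lit 15789) (nat_lit 0) .nil) .nil))))) (.nd (nat_lit 8) (.nd (nat_lit 9) 
(.lf (nat_lit 449772) (.g (nat_lit 5203) (.e (nat_lit 2425) (nat_lit 157) (.e (nat_lit 4849) (nat_lit 285) (.e (nat_lit 163870) (nat_lit 2) (.e (nat_lit 196666) (nat_lit 13) (.e (nat_lit 65610) (nat_lit 10) (.e (nat_lit 344117) (nat_lit 21) (.e (nat_lit 516151) (nat_lit 9) (.e (nat_lit 426042) (nat_lit 0) .nil)))))))) (.g (nat_lit 1) (.e (nat_lit 13267) (nat_lit 0) .nil) .nil))) 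
(.lf (nat_lit 450284) (.g (nat_lit 1869) (.e (nat_lit 2551) (nat_lit 159) (.e (nat_lit 24640) (nat_lit 10) (.e (nat_lit 344156) (nat_lit 36) (.e (nat_lit 638985) (nat_lit 5) .nil)))) (.g (nat_lit 0) (.e (nat_lit 15428) (nat_lit 0) .nil) .nil)))) (.nd (nat_lit 9) 
(.lf (nat_lit 450028) (.g (nat_lit 3453) (.e (nat_lit 2477) (nat_lit 157) (.e (nat_lit 2663) (nat_lit 167) (.e (nat_lit 196666) (nat_lit 13) (.e (nat_lit 65610) (nat_lit 10) (.e (nat_lit 344117) (nat_lit 21) (.e (nat_lit 516151) (nat_lit 9) (.e (nat_lit 426037) (nat_lit 0) (.e (nat_lit 2423) (nat_lit 157) (.e (nat_lit 4818) (nat_lit 281) .nil))))))))) (.g (nat_lit 1) (.e (nat_lit 14270) (nat_lit 0) .nil) .nil))) 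
(.lf (nat_lit 450540) (.g (nat_lit 2029) (.e (nat_lit 2559) (nat_lit 159) (.e (nat_lit 24640) (nat_lit 10) (.e (nat_lit 344156) (nat_lit 36) (.e (nat_lit 638998) (nat_lit 8) (.e (nat_lit 172115) (nat_lit 10) (.e (nat_lit 434202) (nat_lit 18) (.e (nat_lit 5798) (nat_lit 320) .nil))))))) (.g (nat_lit 1) (.e (nat_lit 16304) (nat_lit 0) .nil) .nil)))))))) 
(.nd (nat_lit 5) (.nd (nat_lit 6) (.nd (nat_lit 7) (.nd (nat_lit 8) (.nd (nat_lit 9) 
(.lf (nat_lit 449564) (.g (nat_lit 3704) (.e (nat_lit 883) (nat_lit 75) (.e (nat_lit 778465) (nat_lit 11) (.e (nat_lit 24617) (nat_lit 7) (.e (nat_lit 319529) (nat_lit 16) (.e (nat_lit 286759) (nat_lit 12) (.e (nat_lit 385115) (nat_lit 53) (.e (nat_lit 811034) (nat_lit 11) .nil))))))) (.g (nat_lit 1) (.e (nat_lit 12642) (nat_lit 0) .nil) .nil))) 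
(.lf (nat_lit 450076) (.g (nat_lit 3523) (.e (nat_lit 2479) (nat_lit 157) (.e (nat_lit 2663) (nat_lit 167) (.e (nat_lit 196666) (nat_lit 13) (.e (nat_lit 65610) (nat_lit 10) (.e (nat_lit 344117) (nat_lit 21) (.e (nat_lit 516151) (nat_lit 9) (.e (nat_lit 426037) (nat_lit 0) (.e (nat_lit 2426) (nat_lit 157) (.e (nat_lit 4778) (nat_lit 281) .nil))))))))) (.g (nat_lit 1) (.e (nat_lit 14387) (nat_lit 0) .nil) .nil)))) 
(.nd (nat_lit 9) 
(.lf (nat_lit 449820) (.g (nat_lit 4236) (.e (nat_lit 2434) (nat_lit 157) (.e (nat_lit 3471) (nat_lit 217) (.e (nat_lit 696343) (nat_lit 8) (.e (nat_lit 172064) (nat_lit 2) (.e (nat_lit 196666) (nat_lit 13) (.e (nat_lit 65610) (nat_lit 10) (.e (nat_lit 344129) (nat_lit 26) (.e (nat_lit 557067) (nat_lit 9) .nil)))))))) (.g (nat_lit 1) (.e (nat_lit 13510) (nat_lit 0) .nil) .nil))) 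
(.lf (nat_lit 450332) (.g (nat_lit 2125) (.e (nat_lit 2551) (nat_lit 159) (.e (nat_lit 24640) (nat_lit 10) (.e (nat_lit 344156) (nat_lit 36) (.e (nat_lit 638998) (nat_lit 8) (.e (nat_lit 172115) (nat_lit 10) (.e (nat_lit 434202) (nat_lit 18) (.e (nat_lit 5842) (nat_lit 320) .nil))))))) (.g (nat_lit 1) (.e (nat_lit 15477) (nat_lit 0) .nil) .nil))))) (.nd (nat_lit 8) (.nd (nat_lit 9) 
(.lf (nat_lit 449692) (.g (nat_lit 5011) (.e (nat_lit 2397) (nat_lit 157) (.e (nat_lit 7590) (nat_lit 407) (.e (nat_lit 73747) (nat_lit 3) (.e (nat_lit 516139) (nat_lit 7) (.e (nat_lit 409641) (nat_lit 17) (.e (nat_lit 294928) (nat_lit 2) (.e (nat_lit 90133) (nat_lit 9) .nil))))))) (.g (nat_lit 1) (.e (nat_lit 12954) (nat_lit 0) .nil) .nil))) 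
(.lf (nat_lit 450204) (.g (nat_lit 2254) (.e (nat_lit 2513) (nat_lit 157) (.e (nat_lit 2664) (nat_lit 167) (.e (nat_lit 196666) (nat_lit 13) (.e (nat_lit 65610) (nat_lit 10) (.e (nat_lit 344117) (nat_lit 21) .nil))))) (.g (nat_lit 0) (.e (nat_lit 15085) (nat_lit 0) .nil) .nil)))) (.nd (nat_lit 9) 
(.lf (nat_lit 449948) (.g (nat_lit 4757) (.e (nat_lit 2458) (nat_lit 157) (.e (nat_lit 5547) (nat_lit 306) (.e (nat_lit 2611) (nat_lit 163) (.e (nat_lit 163977) (nat_lit 30) (.e (nat_lit 573482) (nat_lit 13) (.e (nat_lit 65604) (nat_lit 9) (.e (nat_lit 336013) (nat_lit 2) (.e (nat_lit 90170) (nat_lit 13) (.e (nat_lit 172046) (nat_lit 0) .nil))))))))) (.g (nat_lit 1) (.e (nat_lit 14029) (nat_lit 0) .nil) .nil))) 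
(.lf (nat_lit 450460) (.g (nat_lit 3475) (.e (nat_lit 2556) (nat_lit 159) (.e (nat_lit 24608) (nat_lit 3) (.e (nat_lit 98372) (nat_lit 29) (.e (nat_lit 450579) (nat_lit 5) (.e (nat_lit 532501) (nat_lit 1) .nil))))) (.g (nat_lit 0) (.e (nat_lit 16054) (nat_lit 0) .nil) .nil)))))) (.nd (nat_lit 7) (.nd (nat_lit 8) (.nd (nat_lit 9) 
(.lf (nat_lit 449628) (.g (nat_lit 1428) (.e (nat_lit 917) (nat_lit 75) (.e (nat_lit 778466) (nat_lit 11) (.e (nat_lit 24617) (nat_lit 7) (.e (nat_lit 319534) (nat_lit 16) (.e (nat_lit 286756) (nat_lit 10) .nil))))) (.g (nat_lit 0) (.e (nat_lit 12774) (nat_lit 0) .nil) .nil))) 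
(.lf (nat_lit 450140) (.g (nat_lit 2963) (.e (nat_lit 2505) (nat_lit 157) (.e (nat_lit 3249) (nat_lit 197) (.e (nat_lit 532542) (nat_lit 9) (.e (nat_lit 336204) (nat_lit 12) (.e (nat_lit 385074) (nat_lit 31) (.e (nat_lit 573489) (nat_lit 14) (.e (nat_lit 73779) (nat_lit 32) .nil))))))) (.g (nat_lit 1) (.e (nat_lit 14736) (nat_lit 0) .nil) .nil)))) (.nd (nat_lit 9) 
(.lf (nat_lit 449884) (.g (nat_lit 4087) (.e (nat_lit 2450) (nat_lit 157) (.e (nat_lit 3098) (nat_lit 192) (.e (nat_lit 491569) (nat_lit 13) (.e (nat_lit 393301) (nat_lit 27) (.e (nat_lit 491558) (nat_lit 10) (.e (nat_lit 344091) (nat_lit 18) (.e (nat_lit 6850) (nat_lit 371) .nil))))))) (.g (nat_lit 1) (.e (nat_lit 13848) (nat_lit 0) .nil) .nil))) 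
(.lf (nat_lit 450396) (.g (nat_lit 3816) (.e (nat_lit 2553) (nat_lit 159) (.e (nat_lit 24640) (nat_lit 10) (.e (nat_lit 344156) (nat_lit 36) (.e (nat_lit 638998) (nat_lit 8) (.e (nat_lit 172113) (nat_lit 10) (.e (nat_lit 434203) (nat_lit 18) (.e (nat_lit 5799) (nat_lit 320) .nil))))))) (.g (nat_lit 1) (.e (nat_lit 15743) (nat_lit 0) .nil) .nil))))) (.nd (nat_lit 8) (.nd (nat_lit 9) 
(.lf (nat_lit 449756) (.g (nat_lit 4299) (.e (nat_lit 2416) (nat_lit 157) (.e (nat_lit 3471) (nat_lit 217) (.e (nat_lit 696344) (nat_lit 8) (.e (nat_lit 172079) (nat_lit 7) (.e (nat_lit 409649) (nat_lit 18) (.e (nat_lit 303140) (nat_lit 10) (.e (nat_lit 434275) (nat_lit 39) (.e (nat_lit 663580) (nat_lit 9) .nil)))))))) (.g (nat_lit 1) (.e (nat_lit 13197) (nat_lit 0) .nil) .nil))) 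
(.lf (nat_lit 450268) (.g (nat_lit 1567) (.e (nat_lit 2551) (nat_lit 159) (.e (nat_lit 24608) (nat_lit 3) (.e (nat_lit 98365) (nat_lit 26) (.e (nat_lit 426188) (nat_lit 9) .nil)))) (.g (nat_lit 0) (.e (nat_lit 15399) (nat_lit 0) .nil) .nil)))) (.nd (nat_lit 9) 
(.lf (nat_lit 450012) (.g (nat_lit 3523) (.e (nat_lit 2477) (nat_lit 157) (.e (nat_lit 2663) (nat_lit 167) (.e (nat_lit 196666) (nat_lit 13) (.e (nat_lit 65610) (nat_lit 10) (.e (nat_lit 344117) (nat_lit 21) (.e (nat_lit 516151) (nat_lit 9) (.e (nat_lit 426017) (nat_lit 0) (.e (nat_lit 2398) (nat_lit 157) (.e (nat_lit 4825) (nat_lit 281) .nil))))))))) (.g (nat_lit 1) (.e (nat_lit 14254) (nat_lit 0) .nil) .nil))) 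
(.lf (nat_lit 450524) (.g (nat_lit 1889) (.e (nat_lit 2559) (nat_lit 159) (.e (nat_lit 24617) (nat_lit 7) (.e (nat_lit 319505) (nat_lit 10) (.e (nat_lit 618) (nat_lit 48) .nil)))) (.g (nat_lit 0) (.e (nat_lit 16282) (nat_lit 0) .nil) .nil))))))) (.nd (nat_lit 6) (.nd (nat_lit 7) (.nd (nat_lit 8) (.nd (nat_lit 9) 
(.lf (nat_lit 449596) (.g (nat_lit 1909) (.e (nat_lit 883) (nat_lit 75) (.e (nat_lit 778466) (nat_lit 11) (.e (nat_lit 24617) (nat_lit 7) (.e (nat_lit 319528) (nat_lit 16) (.e (nat_lit 286759) (nat_lit 12) .nil))))) (.g (nat_lit 0) (.e (nat_lit 12678) (nat_lit 0) .nil) .nil))) 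
(.lf (nat_lit 450108) (.g (nat_lit 1015) (.e (nat_lit 2485) (nat_lit 157) (.e (nat_lit 5597) (nat_lit 310) (.e (nat_lit 163843) (nat_lit 0) (.e (nat_lit 3222) (nat_lit 196) .nil)))) (.g (nat_lit 0) (.e (nat_lit 14495) (nat_lit 0) .nil) .nil)))) (.nd (nat_lit 9) 
(.lf (nat_lit 449852) (.g (nat_lit 4485) (.e (nat_lit 2444) (nat_lit 157) (.e (nat_lit 3098) (nat_lit 192) (.e (nat_lit 491569) (nat_lit 13) (.e (nat_lit 393301) (nat_lit 27) (.e (nat_lit 491560) (nat_lit 10) (.e (nat_lit 344096) (nat_lit 18) (.e (nat_lit 6869) (nat_lit 371) .nil))))))) (.g (nat_lit 1) (.e (nat_lit 13661) (nat_lit 0) .nil) .nil))) 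
(.lf (nat_lit 450364) (.g (nat_lit 1927) (.e (nat_lit 2552) (nat_lit 159) (.e (nat_lit 24640) (nat_lit 10) (.e (nat_lit 344156) (nat_lit 36) (.e (nat_lit 638998) (nat_lit 8) (.e (nat_lit 172115) (nat_lit 10) .nil))))) (.g (nat_lit 0) (.e (nat_lit 15668) (nat_lit 0) .nil) .nil))))) (.nd (nat_lit 8) (.nd (nat_lit 9) 
(.lf (nat_lit 449724) (.g (nat_lit 3991) (.e (nat_lit 2403) (nat_lit 157) (.e (nat_lit 4507) (nat_lit 263) (.e (nat_lit 2619) (nat_lit 164) (.e (nat_lit 172064) (nat_lit 2) (.e (nat_lit 196666) (nat_lit 13) (.e (nat_lit 65610) (nat_lit 10) (.e (nat_lit 344117) (nat_lit 21) (.e (nat_lit 516096) (nat_lit 0) .nil)))))))) (.g (nat_lit 1) (.e (nat_lit 13074) (nat_lit 0) .nil) .nil))) 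
(.lf (nat_lit 450236) (.g (nat_lit 4470) (.e (nat_lit 2515) (nat_lit 157) (.e (nat_lit 5947) (nat_lit 322) (.e (nat_lit 57371) (nat_lit 2) (.e (nat_lit 90174) (nat_lit 14) (.e (nat_lit 180243) (nat_lit 5) (.e (nat_lit 532513) (nat_lit 3) (.e (nat_lit 114718) (nat_lit 23) (.e (nat_lit 98325) (nat_lit 17) .nil)))))))) (.g (nat_lit 1) (.e (nat_lit 15241) (nat_lit 0) .nil) .nil)))) (.nd (nat_lit 9) 
(.lf (nat_lit 449980) (.g (nat_lit 2718) (.e (nat_lit 2466) (nat_lit 157) (.e (nat_lit 3307) (nat_lit 202) (.e (nat_lit 573489) (nat_lit 14) (.e (nat_lit 73755) (nat_lit 8) (.e (nat_lit 557103) (nat_lit 14) .nil))))) (.g (nat_lit 0) (.e (nat_lit 14145) (nat_lit 0) .nil) .nil))) 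
(.lf (nat_lit 450492) (.g (nat_lit 4431) (.e (nat_lit 2557) (nat_lit 159) (.e (nat_lit 24658) (nat_lit 13) (.e (nat_lit 393301) (nat_lit 27) (.e (nat_lit 491560) (nat_lit 10) (.e (nat_lit 344089) (nat_lit 18) .nil))))) (.g (nat_lit 0) (.e (nat_lit 16169) (nat_lit 0) .nil) .nil)))))) (.nd (nat_lit 7) (.nd (nat_lit 8) (.nd (nat_lit 9) 
(.lf (nat_lit 449660) (.g (nat_lit 2610) (.e (nat_lit 754) (nat_lit 66) (.e (nat_lit 704738) (nat_lit 11) (.e (nat_lit 16425) (nat_lit 7) (.e (nat_lit 409649) (nat_lit 18) (.e (nat_lit 303143) (nat_lit 12) .nil))))) (.g (nat_lit 0) (.e (nat_lit 12877) (nat_lit 0) .nil) .nil))) 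
(.lf (nat_lit 450172) (.g (nat_lit 3493) (.e (nat_lit 2508) (nat_lit 157) (.e (nat_lit 3249) (nat_lit 197) (.e (nat_lit 532526) (nat_lit 8) (.e (nat_lit 327698) (nat_lit 8) (.e (nat_lit 303117) (nat_lit 2) (.e (nat_lit 196668) (nat_lit 14) (.e (nat_lit 73780) (nat_lit 32) .nil))))))) (.g (nat_lit 1) (.e (nat_lit 14913) (nat_lit 0) .nil) .nil)))) (.nd (nat_lit 9) 
(.lf (nat_lit 449916) (.g (nat_lit 4063) (.e (nat_lit 2458) (nat_lit 157) (.e (nat_lit 5546) (nat_lit 306) (.e (nat_lit 2600) (nat_lit 163) (.e (nat_lit 163977) (nat_lit 30) (.e (nat_lit 573485) (nat_lit 13) (.e (nat_lit 65604) (nat_lit 9) (.e (nat_lit 336013) (nat_lit 2) (.e (nat_lit 90170) (nat_lit 13) (.e (nat_lit 172042) (nat_lit 0) .nil))))))))) (.g (nat_lit 1) (.e (nat_lit 13952) (nat_lit 0) .nil) .nil))) 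
(.lf (nat_lit 450428) (.g (nat_lit 3126) (.e (nat_lit 2555) (nat_lit 159) (.e (nat_lit 24608) (nat_lit 3) (.e (nat_lit 98372) (nat_lit 29) (.e (nat_lit 450588) (nat_lit 10) .nil)))) (.g (nat_lit 0) (.e (nat_lit 15891) (nat_lit 0) .nil) .nil))))) (.nd (nat_lit 8) (.nd (nat_lit 9) 
(.lf (nat_lit 449788) (.g (nat_lit 2110) (.e (nat_lit 2433) (nat_lit 157) (.e (nat_lit 2668) (nat_lit 167) (.e (nat_lit 196655) (nat_lit 11) (.e (nat_lit 16465) (nat_lit 13) (.e (nat_lit 483341) (nat_lit 9) (.e (nat_lit 426100) (nat_lit 1) (.e (nat_lit 164305) (nat_lit 226) .nil))))))) (.g (nat_lit 1) (.e (nat_lit 13385) (nat_lit 0) .nil) .nil))) 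
(.lf (nat_lit 450300) (.g (nat_lit 2621) (.e (nat_lit 2551) (nat_lit 159) (.e (nat_lit 24640) (nat_lit 10) (.e (nat_lit 344156) (nat_lit 36) (.e (nat_lit 638985) (nat_lit 5) (.e (nat_lit 3027) (nat_lit 187) (.e (nat_lit 450564) (nat_lit 0) (.e (nat_lit 5853) (nat_lit 320) .nil))))))) (.g (nat_lit 1) (.e (nat_lit 15444) (nat_lit 0) .nil) .nil)))) (.nd (nat_lit 9) 
(.lf (nat_lit 450044) (.g (nat_lit 4225) (.e (nat_lit 2477) (nat_lit 157) (.e (nat_lit 2663) (nat_lit 167) (.e (nat_lit 196666) (nat_lit 13) (.e (nat_lit 65610) (nat_lit 10) (.e (nat_lit 344117) (nat_lit 21) (.e (nat_lit 516151) (nat_lit 9) (.e (nat_lit 426043) (nat_lit 0) (.e (nat_lit 2425) (nat_lit 157) (.e (nat_lit 4821) (nat_lit 281) .nil))))))))) (.g (nat_lit 1) (.e (nat_lit 14286) (nat_lit 0) .nil) .nil))) 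
(.lf (nat_lit 450556) (.g (nat_lit 2978) (.e (nat_lit 2560) (nat_lit 159) (.e (nat_lit 24658) (nat_lit 13) (.e (nat_lit 393301) (nat_lit 27) (.e (nat_lit 491558) (nat_lit 10) .nil)))) (.g (nat_lit 0) (.e (nat_lit 16375) (nat_lit 0) .nil) .nil))))))))))) (.nd (nat_lit 2) (.nd (nat_lit 3) (.nd (nat_lit 4) (.nd (nat_lit 5) (.nd (nat_lit 6) (.nd (nat_lit 7) (.nd (nat_lit 8) (.nd (nat_lit 9) 
(.lf (nat_lit 449538) (.g (nat_lit 2996) (.e (nat_lit 879) (nat_lit 75) (.e (nat_lit 778466) (nat_lit 11) (.e (nat_lit 24617) (nat_lit 7) (.e (nat_lit 319531) (nat_lit 16) (.e (nat_lit 286759) (nat_lit 12) (.e (nat_lit 385115) (nat_lit 53) (.e (nat_lit 811033) (nat_lit 11) .nil))))))) (.g (nat_lit 1) (.e (nat_lit 12612) (nat_lit 0) .nil) .nil))) 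
(.lf (nat_lit 450050) (.g (nat_lit 4974) (.e (nat_lit 2477) (nat_lit 157) (.e (nat_lit 2663) (nat_lit 167) (.e (nat_lit 196666) (nat_lit 13) (.e (nat_lit 65610) (nat_lit 10) (.e (nat_lit 344117) (nat_lit 21) (.e (nat_lit 516151) (nat_lit 9) (.e (nat_lit 426142) (nat_lit 4) (.e (nat_lit 229610) (nat_lit 215) .nil)))))))) (.g (nat_lit 1) (.e (nat_lit 14292) (nat_lit 0) .nil) .nil)))) 
(.nd (nat_lit 9) 
(.lf (nat_lit 449794) (.g (nat_lit 1920) (.e (nat_lit 2433) (nat_lit 157) (.e (nat_lit 2668) (nat_lit 167) (.e (nat_lit 196666) (nat_lit 13) (.e (nat_lit 65610) (nat_lit 10) (.e (nat_lit 344117) (nat_lit 21) (.e (nat_lit 516151) (nat_lit 9) (.e (nat_lit 426022) (nat_lit 0) (.e (nat_lit 2400) (nat_lit 157) (.e (nat_lit 4761) (nat_lit 281) .nil))))))))) (.g (nat_lit 1) (.e (nat_lit 13401) (nat_lit 0) .nil) .nil))) 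
(.lf (nat_lit 450306) (.g (nat_lit 1790) (.e (nat_lit 2551) (nat_lit 159) (.e (nat_lit 24640) (nat_lit 10) (.e (nat_lit 344156) (nat_lit 36) (.e (nat_lit 638998) (nat_lit 8) (.e (nat_lit 172107) (nat_lit 10) .nil))))) (.g (nat_lit 0) (.e (nat_lit 15451) (nat_lit 0) .nil) .nil))))) (.nd (nat_lit 8) (.nd (nat_lit 9) 
(.lf (nat_lit 449666) (.g (nat_lit 2875) (.e (nat_lit 787) (nat_lit 66) (.e (nat_lit 704738) (nat_lit 11) (.e (nat_lit 16425) (nat_lit 7) (.e (nat_lit 409649) (nat_lit 18) (.e (nat_lit 303143) (nat_lit 12) .nil))))) (.g (nat_lit 0) (.e (nat_lit 12884) (nat_lit 0) .nil) .nil))) 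
(.lf (nat_lit 450178) (.g (nat_lit 2905) (.e (nat_lit 2508) (nat_lit 157) (.e (nat_lit 3249) (nat_lit 197) (.e (nat_lit 532542) (nat_lit 9) (.e (nat_lit 336204) (nat_lit 12) (.e (nat_lit 385074) (nat_lit 31) (.e (nat_lit 573489) (nat_lit 14) (.e (nat_lit 73779) (nat_lit 32) .nil))))))) (.g (nat_lit 1) (.e (nat_lit 14933) (nat_lit 0) .nil) .nil)))) (.nd (nat_lit 9) 
(.lf (nat_lit 449922) (.g (nat_lit 4288) (.e (nat_lit 2458) (nat_lit 157) (.e (nat_lit 5546) (nat_lit 306) (.e (nat_lit 2610) (nat_lit 163) (.e (nat_lit 163978) (nat_lit 30) (.e (nat_lit 573485) (nat_lit 13) (.e (nat_lit 65604) (nat_lit 9) (.e (nat_lit 336013) (nat_lit 2) (.e (nat_lit 90170) (nat_lit 13) (.e (nat_lit 172042) (nat_lit 0) .nil))))))))) (.g (nat_lit 1) (.e (nat_lit 13964) (nat_lit 0) .nil) .nil))) 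
(.lf (nat_lit 450434) (.g (nat_lit 1958) (.e (nat_lit 2555) (nat_lit 159) (.e (nat_lit 24617) (nat_lit 7) (.e (nat_lit 319505) (nat_lit 10) (.e (nat_lit 720) (nat_lit 64) .nil)))) (.g (nat_lit 0) (.e (nat_lit 15899) (nat_lit 0) .nil) .nil)))))) (.nd (nat_lit 7) (.nd (nat_lit 8) (.nd (nat_lit 9) 
(.lf (nat_lit 449602) (.g (nat_lit 3090) (.e (nat_lit 883) (nat_lit 75) (.e (nat_lit 778466) (nat_lit 11) (.e (nat_lit 24617) (nat_lit 7) (.e (nat_lit 319531) (nat_lit 16) (.e (nat_lit 286759) (nat_lit 12) (.e (nat_lit 385115) (nat_lit 53) (.e (nat_lit 811031) (nat_lit 11) .nil))))))) (.g (nat_lit 1) (.e (nat_lit 12684) (nat_lit 0) .nil) .nil))) 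
(.lf (nat_lit 450114) (.g (nat_lit 2261) (.e (nat_lit 2489) (nat_lit 157) (.e (nat_lit 2664) (nat_lit 167) (.e (nat_lit 196666) (nat_lit 13) (.e (nat_lit 65610) (nat_lit 10) (.e (nat_lit 344117) (nat_lit 21) .nil))))) (.g (nat_lit 0) (.e (nat_lit 14571) (nat_lit 0) .nil) .nil)))) (.nd (nat_lit 9) 
(.lf (nat_lit 449858) (.g (nat_lit 4408) (.e (nat_lit 2445) (nat_lit 157) (.e (nat_lit 2668) (nat_lit 167) (.e (nat_lit 196666) (nat_lit 13) (.e (nat_lit 65610) (nat_lit 10) (.e (nat_lit 344117) (nat_lit 21) (.e (nat_lit 516160) (nat_lit 10) (.e (nat_lit 434203) (nat_lit 18) (.e (nat_lit 4778) (nat_lit 281) .nil)))))))) (.g (nat_lit 1) (.e (nat_lit 13675) (nat_lit 0) .nil) .nil))) 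
(.lf (nat_lit 450370) (.g (nat_lit 2110) (.e (nat_lit 2553) (nat_lit 159) (.e (nat_lit 24604) (nat_lit 2) (.e (nat_lit 90176) (nat_lit 15) (.e (nat_lit 188450) (nat_lit 23) (.e (nat_lit 204829) (nat_lit 18) .nil))))) (.g (nat_lit 0) (.e (nat_lit 15707) (nat_lit 0) .nil) .nil))))) (.nd (nat_lit 8) (.nd (nat_lit 9) 
(.lf (nat_lit 449730) (.g (nat_lit 2274) (.e (nat_lit 2399) (nat_lit 157) (.e (nat_lit 3071) (nat_lit 190) (.e (nat_lit 475179) (nat_lit 24) (.e (nat_lit 516176) (nat_lit 14) (.e (nat_lit 466952) (nat_lit 11) .nil))))) (.g (nat_lit 0) (.e (nat_lit 13112) (nat_lit 0) .nil) .nil))) 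
(.lf (nat_lit 450242) (.g (nat_lit 3371) (.e (nat_lit 2516) (nat_lit 157) (.e (nat_lit 2663) (nat_lit 167) (.e (nat_lit 196666) (nat_lit 13) (.e (nat_lit 65610) (nat_lit 10) (.e (nat_lit 344117) (nat_lit 21) .nil))))) (.g (nat_lit 0) (.e (nat_lit 15250) (nat_lit 0) .nil) .nil)))) (.nd (nat_lit 9) 
(.lf (nat_lit 449986) (.g (nat_lit 2674) (.e (nat_lit 2466) (nat_lit 157) (.e (nat_lit 3307) (nat_lit 202) (.e (nat_lit 573489) (nat_lit 14) (.e (nat_lit 73755) (nat_lit 8) (.e (nat_lit 557105) (nat_lit 14) (.e (nat_lit 180252) (nat_lit 10) (.e (nat_lit 573475) (nat_lit 12) (.e (nat_lit 57504) (nat_lit 38) (.e (nat_lit 638985) (nat_lit 5) .nil))))))))) (.g (nat_lit 1) (.e (nat_lit 14152) (nat_lit 0) .nil) .nil))) 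
(.lf (nat_lit 450498) (.g (nat_lit 3005) (.e (nat_lit 2557) (nat_lit 159) (.e (nat_lit 24662) (nat_lit 14) (.e (nat_lit 401459) (nat_lit 13) (.e (nat_lit 483395) (nat_lit 24) (.e (nat_lit 344096) (nat_lit 18) .nil))))) (.g (nat_lit 0) (.e (nat_lit 16196) (nat_lit 0) .nil) .nil))))))) (.nd (nat_lit 6) (.nd (nat_lit 7) (.nd (nat_lit 8) (.nd (nat_lit 9) 
(.lf (nat_lit 449570) (.g (nat_lit 2867) (.e (nat_lit 883) (nat_lit 75) (.e (nat_lit 778465) (nat_lit 11) (.e (nat_lit 24617) (nat_lit 7) (.e (nat_lit 319531) (nat_lit 16) (.e (nat_lit 286759) (nat_lit 12) (.e (nat_lit 385113) (nat_lit 53) (.e (nat_lit 811031) (nat_lit 11) .nil))))))) (.g (nat_lit 1) (.e (nat_lit 12648) (nat_lit 0) .nil) .nil))) 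
(.lf (nat_lit 450082) (.g (nat_lit 2421) (.e (nat_lit 2481) (nat_lit 157) (.e (nat_lit 2666) (nat_lit 167) (.e (nat_lit 196666) (nat_lit 13) (.e (nat_lit 65610) (nat_lit 10) (.e (nat_lit 344117) (nat_lit 21) (.e (nat_lit 516151) (nat_lit 9) (.e (nat_lit 426142) (nat_lit 4) (.e (nat_lit 229610) (nat_lit 215) .nil)))))))) (.g (nat_lit 1) (.e (nat_lit 14417) (nat_lit 0) .nil) .nil)))) 
(.nd (nat_lit 9) 
(.lf (nat_lit 449826) (.g (nat_lit 2868) (.e (nat_lit 2437) (nat_lit 157) (.e (nat_lit 3540) (nat_lit 218) (.e (nat_lit 704738) (nat_lit 11) (.e (nat_lit 16425) (nat_lit 7) (.e (nat_lit 409648) (nat_lit 18) .nil))))) (.g (nat_lit 0) (.e (nat_lit 13528) (nat_lit 0) .nil) .nil))) 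
(.lf (nat_lit 450338) (.g (nat_lit 2874) (.e (nat_lit 2551) (nat_lit 159) (.e (nat_lit 24640) (nat_lit 10) (.e (nat_lit 344156) (nat_lit 36) (.e (nat_lit 638998) (nat_lit 8) (.e (nat_lit 172115) (nat_lit 10) (.e (nat_lit 434209) (nat_lit 18) (.e (nat_lit 5853) (nat_lit 320) .nil))))))) (.g (nat_lit 1) (.e (nat_lit 15483) (nat_lit 0) .nil) .nil))))) (.nd (nat_lit 8) (.nd (nat_lit 9) 
(.lf (nat_lit 449698) (.g (nat_lit 796) (.e (nat_lit 2400) (nat_lit 157) (.e (nat_lit 7064) (nat_lit 377) (.e (nat_lit 1349) (nat_lit 102) (.e (nat_lit 286733) (nat_lit 2) .nil)))) (.g (nat_lit 0) (.e (nat_lit 13019) (nat_lit 0) .nil) .nil))) 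
(.lf (nat_lit 450210) (.g (nat_lit 2382) (.e (nat_lit 2517) (nat_lit 157) (.e (nat_lit 2664) (nat_lit 167) (.e (nat_lit 196666) (nat_lit 13) (.e (nat_lit 65610) (nat_lit 10) (.e (nat_lit 344117) (nat_lit 21) (.e (nat_lit 516151) (nat_lit 9) (.e (nat_lit 426042) (nat_lit 0) (.e (nat_lit 2427) (nat_lit 157) (.e (nat_lit 4751) (nat_lit 281) .nil))))))))) (.g (nat_lit 1) (.e (nat_lit 15136) (nat_lit 0) .nil) .nil)))) 
(.nd (nat_lit 9) 
(.lf (nat_lit 449954) (.g (nat_lit 3522) (.e (nat_lit 2458) (nat_lit 157) (.e (nat_lit 5548) (nat_lit 306) (.e (nat_lit 2611) (nat_lit 163) (.e (nat_lit 163978) (nat_lit 30) (.e (nat_lit 573479) (nat_lit 13) (.e (nat_lit 65604) (nat_lit 9) (.e (nat_lit 336013) (nat_lit 2) (.e (nat_lit 90170) (nat_lit 13) (.e (nat_lit 172046) (nat_lit 0) .nil))))))))) (.g (nat_lit 1) (.e (nat_lit 14052) (nat_lit 0) .nil) .nil))) 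
(.lf (nat_lit 450466) (.g (nat_lit 1984) (.e (nat_lit 2556) (nat_lit 159) (.e (nat_lit 24662) (nat_lit 14) (.e (nat_lit 401425) (nat_lit 2) .nil))) (.g (nat_lit 0) (.e (nat_lit 16063) (nat_lit 0) .nil) .nil)))))) (.nd (nat_lit 7) (.nd (nat_lit 8) (.nd (nat_lit 9) 
(.lf (nat_lit 449634) (.g (nat_lit 2367) (.e (nat_lit 934) (nat_lit 76) (.e (nat_lit 786483) (nat_lit 30) (.e (nat_lit 360475) (nat_lit 8) (.e (nat_lit 557119) (nat_lit 18) (.e (nat_lit 2797) (nat_lit 180) (.e (nat_lit 303123) (nat_lit 7) (.e (nat_lit 409611) (nat_lit 10) .nil))))))) (.g (nat_lit 1) (.e (nat_lit 12825) (nat_lit 0) .nil) .nil))) 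
(.lf (nat_lit 450146) (.g (nat_lit 4024) (.e (nat_lit 2505) (nat_lit 157) (.e (nat_lit 3249) (nat_lit 197) (.e (nat_lit 532569) (nat_lit 16) (.e (nat_lit 401440) (nat_lit 9) (.e (nat_lit 426136) (nat_lit 3) (.e (nat_lit 204846) (nat_lit 24) (.e (nat_lit 319505) (nat_lit 10) (.e (nat_lit 5712) (nat_lit 312) .nil)))))))) (.g (nat_lit 1) (.e (nat_lit 14822) (nat_lit 0) .nil) .nil)))) 
(.nd (nat_lit 9) 
(.lf (nat_lit 449890) (.g (nat_lit 3682) (.e (nat_lit 2450) (nat_lit 157) (.e (nat_lit 3098) (nat_lit 192) (.e (nat_lit 491569) (nat_lit 13) (.e (nat_lit 393301) (nat_lit 27) (.e (nat_lit 491560) (nat_lit 10) (.e (nat_lit 344087) (nat_lit 18) (.e (nat_lit 6852) (nat_lit 371) .nil))))))) (.g (nat_lit 1) (.e (nat_lit 13854) (nat_lit 0) .nil) .nil))) 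
(.lf (nat_lit 450402) (.g (nat_lit 2059) (.e (nat_lit 2553) (nat_lit 159) (.e (nat_lit 24653) (nat_lit 12) (.e (nat_lit 385102) (nat_lit 50) (.e (nat_lit 786483) (nat_lit 30) (.e (nat_lit 360451) (nat_lit 0) (.e (nat_lit 4761) (nat_lit 281) .nil)))))) (.g (nat_lit 1) (.e (nat_lit 15750) (nat_lit 0) .nil) .nil))))) (.nd (nat_lit 8) (.nd (nat_lit 9) 
(.lf (nat_lit 449762) (.g (nat_lit 4336) (.e (nat_lit 2422) (nat_lit 157) (.e (nat_lit 4849) (nat_lit 285) (.e (nat_lit 163870) (nat_lit 2) (.e (nat_lit 196666) (nat_lit 13) (.e (nat_lit 65610) (nat_lit 10) (.e (nat_lit 344117) (nat_lit 21) (.e (nat_lit 516151) (nat_lit 9) (.e (nat_lit 426043) (nat_lit 0) .nil)))))))) (.g (nat_lit 1) (.e (nat_lit 13233) (nat_lit 0) .nil) .nil))) 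
(.lf (nat_lit 450274) (.g (nat_lit 2574) (.e (nat_lit 2551) (nat_lit 159) (.e (nat_lit 24608) (nat_lit 3) (.e (nat_lit 98373) (nat_lit 29) (.e (nat_lit 450587) (nat_lit 10) (.e (nat_lit 573475) (nat_lit 12) .nil))))) (.g (nat_lit 0) (.e (nat_lit 15405) (nat_lit 0) .nil) .nil)))) (.nd (nat_lit 9) 
(.lf (nat_lit 450018) (.g (nat_lit 3495) (.e (nat_lit 2477) (nat_lit 157) (.e (nat_lit 2663) (nat_lit 167) (.e (nat_lit 196666) (nat_lit 13) (.e (nat_lit 65610) (nat_lit 10) (.e (nat_lit 344117) (nat_lit 21) (.e (nat_lit 516151) (nat_lit 9) (.e (nat_lit 426017) (nat_lit 0) (.e (nat_lit 2411) (nat_lit 157) (.e (nat_lit 4824) (nat_lit 281) .nil))))))))) (.g (nat_lit 1) (.e (nat_lit 14260) (nat_lit 0) .nil) .nil))) 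
(.lf (nat_lit 450530) (.g (nat_lit 2303) (.e (nat_lit 2559) (nat_lit 159) (.e (nat_lit 24640) (nat_lit 10) (.e (nat_lit 344156) (nat_lit 36) (.e (nat_lit 638985) (nat_lit 5) (.e (nat_lit 3022) (nat_lit 187) .nil))))) (.g (nat_lit 0) (.e (nat_lit 16293) (nat_lit 0) .nil) .nil)))))))) (.nd (nat_lit 5) (.nd (nat_lit 6) (.nd (nat_lit 7) (.nd (nat_lit 8) (.nd (nat_lit 9) 
(.lf (nat_lit 449554) (.g (nat_lit 1853) (.e (nat_lit 883) (nat_lit 75) (.e (nat_lit 778465) (nat_lit 11) (.e (nat_lit 24617) (nat_lit 7) (.e (nat_lit 319528) (nat_lit 16) (.e (nat_lit 286759) (nat_lit 12) .nil))))) (.g (nat_lit 0) (.e (nat_lit 12632) (nat_lit 0) .nil) .nil))) 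
(.lf (nat_lit 450066) (.g (nat_lit 1846) (.e (nat_lit 2478) (nat_lit 157) (.e (nat_lit 5547) (nat_lit 306) (.e (nat_lit 2610) (nat_lit 163) (.e (nat_lit 163979) (nat_lit 30) (.e (nat_lit 573482) (nat_lit 13) .nil))))) (.g (nat_lit 0) (.e (nat_lit 14364) (nat_lit 0) .nil) .nil)))) (.nd (nat_lit 9) 
(.lf (nat_lit 449810) (.g (nat_lit 2250) (.e (nat_lit 2433) (nat_lit 157) (.e (nat_lit 2685) (nat_lit 168) (.e (nat_lit 204863) (nat_lit 27) (.e (nat_lit 344117) (nat_lit 21) (.e (nat_lit 516130) (nat_lit 3) .nil))))) (.g (nat_lit 0) (.e (nat_lit 13435) (nat_lit 0) .nil) .nil))) 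
(.lf (nat_lit 450322) (.g (nat_lit 2833) (.e (nat_lit 2551) (nat_lit 159) (.e (nat_lit 24640) (nat_lit 10) (.e (nat_lit 344156) (nat_lit 36) (.e (nat_lit 638998) (nat_lit 8) (.e (nat_lit 172113) (nat_lit 10) (.e (nat_lit 434203) (nat_lit 18) (.e (nat_lit 5845) (nat_lit 320) .nil))))))) (.g (nat_lit 1) (.e (nat_lit 15467) (nat_lit 0) .nil) .nil))))) (.nd (nat_lit 8) (.nd (nat_lit 9) 
(.lf (nat_lit 449682) (.g (nat_lit 3751) (.e (nat_lit 2397) (nat_lit 157) (.e (nat_lit 5626) (nat_lit 312) (.e (nat_lit 2668) (nat_lit 167) (.e (nat_lit 196666) (nat_lit 13) (.e (nat_lit 65610) (nat_lit 10) (.e (nat_lit 344117) (nat_lit 21) (.e (nat_lit 516102) (nat_lit 0) (.e (nat_lit 6989) (nat_lit 377) .nil)))))))) (.g (nat_lit 1) (.e (nat_lit 12923) (nat_lit 0) .nil) .nil))) 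
(.lf (nat_lit 450194) (.g (nat_lit 4260) (.e (nat_lit 2509) (nat_lit 157) (.e (nat_lit 5626) (nat_lit 312) (.e (nat_lit 2668) (nat_lit 167) (.e (nat_lit 196666) (nat_lit 13) (.e (nat_lit 65610) (nat_lit 10) (.e (nat_lit 344117) (nat_lit 21) (.e (nat_lit 516106) (nat_lit 0) (.e (nat_lit 7936) (nat_lit 377) .nil)))))))) (.g (nat_lit 1) (.e (nat_lit 15032) (nat_lit 0) .nil) .nil)))) (.nd (nat_lit 9) 
(.lf (nat_lit 449938) (.g (nat_lit 2772) (.e (nat_lit 2458) (nat_lit 157) (.e (nat_lit 5547) (nat_lit 306) (.e (nat_lit 2610) (nat_lit 163) (.e (nat_lit 163977) (nat_lit 30) (.e (nat_lit 573482) (nat_lit 13) (.e (nat_lit 65604) (nat_lit 9) (.e (nat_lit 336013) (nat_lit 2) (.e (nat_lit 90170) (nat_lit 13) (.e (nat_lit 172049) (nat_lit 0) .nil))))))))) (.g (nat_lit 1) (.e (nat_lit 14019) (nat_lit 0) .nil) .nil))) 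
(.lf (nat_lit 450450) (.g (nat_lit 839) (.e (nat_lit 2555) (nat_lit 159) (.e (nat_lit 24662) (nat_lit 14) (.e (nat_lit 401459) (nat_lit 13) .nil))) (.g (nat_lit 0) (.e (nat_lit 15948) (nat_lit 0) .nil) .nil)))))) (.nd (nat_lit 7) (.nd (nat_lit 8) (.nd (nat_lit 9) 
(.lf (nat_lit 449618) (.g (nat_lit 2273) (.e (nat_lit 890) (nat_lit 75) (.e (nat_lit 778462) (nat_lit 11) (.e (nat_lit 24660) (nat_lit 13) (.e (nat_lit 393260) (nat_lit 21) (.e (nat_lit 409636) (nat_lit 14) (.e (nat_lit 270341) (nat_lit 0) .nil)))))) (.g (nat_lit 1) (.e (nat_lit 12717) (nat_lit 0) .nil) .nil))) 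
(.lf (nat_lit 450130) (.g (nat_lit 4626) (.e (nat_lit 2505) (nat_lit 157) (.e (nat_lit 3249) (nat_lit 197) (.e (nat_lit 532503) (nat_lit 1) (.e (nat_lit 57931) (nat_lit 282) (.e (nat_lit 163869) (nat_lit 2) (.e (nat_lit 196670) (nat_lit 14) (.e (nat_lit 73746) (nat_lit 3) (.e (nat_lit 516124) (nat_lit 2) (.e (nat_lit 213019) (nat_lit 9) .nil))))))))) (.g (nat_lit 1) (.e (nat_lit 14709) (nat_lit 0) .nil) .nil)))) 
(.nd (nat_lit 9) 
(.lf (nat_lit 449874) (.g (nat_lit 1615) (.e (nat_lit 2448) (nat_lit 157) (.e (nat_lit 3098) (nat_lit 192) (.e (nat_lit 491568) (nat_lit 13) (.e (nat_lit 393301) (nat_lit 27) .nil)))) (.g (nat_lit 0) (.e (nat_lit 13745) (nat_lit 0) .nil) .nil))) 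
(.lf (nat_lit 450386) (.g (nat_lit 4036) (.e (nat_lit 2553) (nat_lit 159) (.e (nat_lit 24608) (nat_lit 3) (.e (nat_lit 98373) (nat_lit 29) (.e (nat_lit 450587) (nat_lit 10) (.e (nat_lit 573475) (nat_lit 12) (.e (nat_lit 57346) (nat_lit 0) (.e (nat_lit 7409) (nat_lit 396) .nil))))))) (.g (nat_lit 1) (.e (nat_lit 15724) (nat_lit 0) .nil) .nil))))) (.nd (nat_lit 8) (.nd (nat_lit 9) 
(.lf (nat_lit 449746) (.g (nat_lit 1993) (.e (nat_lit 2416) (nat_lit 157) (.e (nat_lit 2668) (nat_lit 167) (.e (nat_lit 196666) (nat_lit 13) (.e (nat_lit 65610) (nat_lit 10) .nil)))) (.g (nat_lit 0) (.e (nat_lit 13163) (nat_lit 0) .nil) .nil))) 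
(.lf (nat_lit 450258) (.g (nat_lit 1934) (.e (nat_lit 2527) (nat_lit 157) (.e (nat_lit 5195) (nat_lit 294) (.e (nat_lit 57437) (nat_lit 17) (.e (nat_lit 376860) (nat_lit 21) (.e (nat_lit 57832) (nat_lit 250) .nil))))) (.g (nat_lit 0) (.e (nat_lit 15342) (nat_lit 0) .nil) .nil)))) (.nd (nat_lit 9) 
(.lf (nat_lit 450002) (.g (nat_lit 5611) (.e (nat_lit 2467) (nat_lit 157) (.e (nat_lit 3469) (nat_lit 217) (.e (nat_lit 696344) (nat_lit 8) (.e (nat_lit 172078) (nat_lit 7) (.e (nat_lit 409649) (nat_lit 18) (.e (nat_lit 303140) (nat_lit 10) (.e (nat_lit 434275) (nat_lit 39) (.e (nat_lit 663574) (nat_lit 9) .nil)))))))) (.g (nat_lit 1) (.e (nat_lit 14183) (nat_lit 0) .nil) .nil))) 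
(.lf (nat_lit 450514) (.g (nat_lit 1206) (.e (nat_lit 2558) (nat_lit 159) (.e (nat_lit 24660) (nat_lit 13) (.e (nat_lit 393260) (nat_lit 21) (.e (nat_lit 409648) (nat_lit 18) .nil)))) (.g (nat_lit 0) (.e (nat_lit 16219) (nat_lit 0) .nil) .nil))))))) (.nd (nat_lit 6) (.nd (nat_lit 7) (.nd (nat_lit 8) (.nd (nat_lit 9) 
(.lf (nat_lit 449586) (.g (nat_lit 2354) (.e (nat_lit 883) (nat_lit 75) (.e (nat_lit 778465) (nat_lit 11) (.e (nat_lit 24617) (nat_lit 7) (.e (nat_lit 319534) (nat_lit 16) (.e (nat_lit 286759) (nat_lit 12) (.e (nat_lit 385111) (nat_lit 53) (.e (nat_lit 811035) (nat_lit 11) .nil))))))) (.g (nat_lit 1) (.e (nat_lit 12664) (nat_lit 0) .nil) .nil))) 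
(.lf (nat_lit 450098) (.g (nat_lit 4729) (.e (nat_lit 2472) (nat_lit 157) (.e (nat_lit 3307) (nat_lit 202) (.e (nat_lit 573489) (nat_lit 14) (.e (nat_lit 73755) (nat_lit 8) (.e (nat_lit 557105) (nat_lit 14) (.e (nat_lit 180252) (nat_lit 10) (.e (nat_lit 573474) (nat_lit 12) (.e (nat_lit 57504) (nat_lit 38) (.e (nat_lit 638985) (nat_lit 5) .nil))))))))) (.g (nat_lit 1) (.e (nat_lit 14451) (nat_lit 0) .nil) .nil)))) 
(.nd (nat_lit 9) 
(.lf (nat_lit 449842) (.g (nat_lit 2786) (.e (nat_lit 2444) (nat_lit 157) (.e (nat_lit 2668) (nat_lit 167) (.e (nat_lit 196666) (nat_lit 13) (.e (nat_lit 65610) (nat_lit 10) (.e (nat_lit 344117) (nat_lit 21) (.e (nat_lit 516151) (nat_lit 9) (.e (nat_lit 426042) (nat_lit 0) (.e (nat_lit 2426) (nat_lit 157) (.e (nat_lit 4778) (nat_lit 281) .nil))))))))) (.g (nat_lit 1) (.e (nat_lit 13624) (nat_lit 0) .nil) .nil))) 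
(.lf (nat_lit 450354) (.g (nat_lit 2259) (.e (nat_lit 2551) (nat_lit 159) (.e (nat_lit 24665) (nat_lit 14) (.e (nat_lit 401414) (nat_lit 0) (.e (nat_lit 3124) (nat_lit 193) .nil)))) (.g (nat_lit 0) (.e (nat_lit 15517) (nat_lit 0) .nil) .nil))))) (.nd (nat_lit 8) (.nd (nat_lit 9) 
(.lf (nat_lit 449714) (.g (nat_lit 4197) (.e (nat_lit 2400) (nat_lit 157) (.e (nat_lit 7590) (nat_lit 407) (.e (nat_lit 73747) (nat_lit 3) (.e (nat_lit 516139) (nat_lit 7) (.e (nat_lit 409642) (nat_lit 17) (.e (nat_lit 294928) (nat_lit 2) (.e (nat_lit 90133) (nat_lit 9) .nil))))))) (.g (nat_lit 1) (.e (nat_lit 13049) (nat_lit 0) .nil) .nil))) 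
(.lf (nat_lit 450226) (.g (nat_lit 2156) (.e (nat_lit 2515) (nat_lit 157) (.e (nat_lit 2681) (nat_lit 168) (.e (nat_lit 204863) (nat_lit 27) (.e (nat_lit 344132) (nat_lit 26) (.e (nat_lit 557101) (nat_lit 13) .nil))))) (.g (nat_lit 0) (.e (nat_lit 15182) (nat_lit 0) .nil) .nil)))) (.nd (nat_lit 9) 
(.lf (nat_lit 449970) (.g (nat_lit 1469) (.e (nat_lit 2464) (nat_lit 157) (.e (nat_lit 3469) (nat_lit 217) (.e (nat_lit 696344) (nat_lit 8) (.e (nat_lit 172079) (nat_lit 7) .nil)))) (.g (nat_lit 0) (.e (nat_lit 14126) (nat_lit 0) .nil) .nil))) 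
(.lf (nat_lit 450482) (.g (nat_lit 3419) (.e (nat_lit 2557) (nat_lit 159) (.e (nat_lit 24608) (nat_lit 3) (.e (nat_lit 98373) (nat_lit 29) (.e (nat_lit 450587) (nat_lit 10) (.e (nat_lit 573475) (nat_lit 12) .nil))))) (.g (nat_lit 0) (.e (nat_lit 16138) (nat_lit 0) .nil) .nil)))))) (.nd (nat_lit 7) (.nd (nat_lit 8) (.nd (nat_lit 9) 
(.lf (nat_lit 449650) (.g (nat_lit 3851) (.e (nat_lit 720) (nat_lit 64) (.e (nat_lit 688177) (nat_lit 16) (.e (nat_lit 65617) (nat_lit 10) (.e (nat_lit 344179) (nat_lit 44) (.e (nat_lit 778466) (nat_lit 11) (.e (nat_lit 24617) (nat_lit 7) (.e (nat_lit 319505) (nat_lit 10) .nil))))))) (.g (nat_lit 1) (.e (nat_lit 12853) (nat_lit 0) .nil) .nil))) 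
(.lf (nat_lit 450162) (.g (nat_lit 2121) (.e (nat_lit 2508) (nat_lit 157) (.e (nat_lit 3062) (nat_lit 190) (.e (nat_lit 475185) (nat_lit 29) (.e (nat_lit 557107) (nat_lit 15) .nil)))) (.g (nat_lit 0) (.e (nat_lit 14891) (nat_lit 0) .nil) .nil)))) (.nd (nat_lit 9) 
(.lf (nat_lit 449906) (.g (nat_lit 1417) (.e (nat_lit 2458) (nat_lit 157) (.e (nat_lit 3459) (nat_lit 216) (.e (nat_lit 688139) (nat_lit 5) (.e (nat_lit 3085) (nat_lit 191) (.e (nat_lit 491264) (nat_lit 11) (.e (nat_lit 442433) (nat_lit 25) (.e (nat_lit 245768) (nat_lit 0) .nil))))))) (.g (nat_lit 1) (.e (nat_lit 13913) (nat_lit 0) .nil) .nil))) 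
(.lf (nat_lit 450418) (.g (nat_lit 1194) (.e (nat_lit 2554) (nat_lit 159) (.e (nat_lit 24608) (nat_lit 3) (.e (nat_lit 98389) (nat_lit 33) .nil))) (.g (nat_lit 0) (.e (nat_lit 15798) (nat_lit 0) .nil) .nil))))) (.nd (nat_lit 8) (.nd (nat_lit 9) 
(.lf (nat_lit 449778) (.g (nat_lit 1750) (.e (nat_lit 2426) (nat_lit 157) (.e (nat_lit 2678) (nat_lit 168) (.e (nat_lit 204863) (nat_lit 27) (.e (nat_lit 344133) (nat_lit 26) (.e (nat_lit 557098) (nat_lit 13) .nil))))) (.g (nat_lit 0) (.e (nat_lit 13292) (nat_lit 0) .nil) .nil))) 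
(.lf (nat_lit 450290) (.g (nat_lit 2428) (.e (nat_lit 2551) (nat_lit 159) (.e (nat_lit 24640) (nat_lit 10) (.e (nat_lit 344156) (nat_lit 36) (.e (nat_lit 638985) (nat_lit 5) (.e (nat_lit 3015) (nat_lit 187) (.e (nat_lit 450563) (nat_lit 0) (.e (nat_lit 5837) (nat_lit 320) .nil))))))) (.g (nat_lit 1) (.e (nat_lit 15434) (nat_lit 0) .nil) .nil)))) (.nd (nat_lit 9) 
(.lf (nat_lit 450034) (.g (nat_lit 3681) (.e (nat_lit 2477) (nat_lit 157) (.e (nat_lit 2663) (nat_lit 167) (.e (nat_lit 196666) (nat_lit 13) (.e (nat_lit 65610) (nat_lit 10) (.e (nat_lit 344117) (nat_lit 21) (.e (nat_lit 516151) (nat_lit 9) (.e (nat_lit 426042) (nat_lit 0) (.e (nat_lit 2423) (nat_lit 157) (.e (nat_lit 4818) (nat_lit 281) .nil))))))))) (.g (nat_lit 1) (.e (nat_lit 14276) (nat_lit 0) .nil) .nil))) 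
(.lf (nat_lit 450546) (.g (nat_lit 4546) (.e (nat_lit 2559) (nat_lit 159) (.e (nat_lit 24658) (nat_lit 13) (.e (nat_lit 393301) (nat_lit 27) (.e (nat_lit 491560) (nat_lit 10) (.e (nat_lit 344089) (nat_lit 18) .nil))))) (.g (nat_lit 0) (.e (nat_lit 16310) (nat_lit 0) .nil) .nil))))))))) (.nd (nat_lit 4) (.nd (nat_lit 5) (.nd (nat_lit 6) (.nd (nat_lit 7) (.nd (nat_lit 8) (.nd (nat_lit 9) 
(.lf (nat_lit 449546) (.g (nat_lit 1988) (.e (nat_lit 883) (nat_lit 75) (.e (nat_lit 778464) (nat_lit 11) (.e (nat_lit 24617) (nat_lit 7) (.e (nat_lit 319533) (nat_lit 16) (.e (nat_lit 286759) (nat_lit 12) (.e (nat_lit 385115) (nat_lit 53) (.e (nat_lit 811032) (nat_lit 11) .nil))))))) (.g (nat_lit 1) (.e (nat_lit 12620) (nat_lit 0) .nil) .nil))) 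
(.lf (nat_lit 450058) (.g (nat_lit 2406) (.e (nat_lit 2478) (nat_lit 157) (.e (nat_lit 2666) (nat_lit 167) (.e (nat_lit 196666) (nat_lit 13) (.e (nat_lit 65610) (nat_lit 10) (.e (nat_lit 344117) (nat_lit 21) (.e (nat_lit 516151) (nat_lit 9) (.e (nat_lit 426023) (nat_lit 0) (.e (nat_lit 2403) (nat_lit 157) (.e (nat_lit 4825) (nat_lit 281) .nil))))))))) (.g (nat_lit 1) (.e (nat_lit 14314) (nat_lit 0) .nil) .nil)))) 
(.nd (nat_lit 9) 
(.lf (nat_lit 449802) (.g (nat_lit 1889) (.e (nat_lit 2433) (nat_lit 157) (.e (nat_lit 2668) (nat_lit 167) (.e (nat_lit 196666) (nat_lit 13) (.e (nat_lit 65610) (nat_lit 10) (.e (nat_lit 344117) (nat_lit 21) (.e (nat_lit 516160) (nat_lit 10) (.e (nat_lit 434199) (nat_lit 18) (.e (nat_lit 4762) (nat_lit 281) .nil)))))))) (.g (nat_lit 1) (.e (nat_lit 13409) (nat_lit 0) .nil) .nil))) 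
(.lf (nat_lit 450314) (.g (nat_lit 2830) (.e (nat_lit 2551) (nat_lit 159) (.e (nat_lit 24640) (nat_lit 10) (.e (nat_lit 344156) (nat_lit 36) (.e (nat_lit 638998) (nat_lit 8) (.e (nat_lit 172113) (nat_lit 10) (.e (nat_lit 434203) (nat_lit 18) (.e (nat_lit 5832) (nat_lit 320) .nil))))))) (.g (nat_lit 1) (.e (nat_lit 15459) (nat_lit 0) .nil) .nil))))) (.nd (nat_lit 8) (.nd (nat_lit 9) 
(.lf (nat_lit 449674) (.g (nat_lit 2424) (.e (nat_lit 789) (nat_lit 66) (.e (nat_lit 704738) (nat_lit 11) (.e (nat_lit 16425) (nat_lit 7) (.e (nat_lit 409648) (nat_lit 18) .nil)))) (.g (nat_lit 0) (.e (nat_lit 12895) (nat_lit 0) .nil) .nil))) 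
(.lf (nat_lit 450186) (.g (nat_lit 4481) (.e (nat_lit 2508) (nat_lit 157) (.e (nat_lit 3249) (nat_lit 197) (.e (nat_lit 532569) (nat_lit 16) (.e (nat_lit 401440) (nat_lit 9) (.e (nat_lit 426136) (nat_lit 3) (.e (nat_lit 204846) (nat_lit 24) (.e (nat_lit 319505) (nat_lit 10) (.e (nat_lit 5712) (nat_lit 312) .nil)))))))) (.g (nat_lit 1) (.e (nat_lit 14996) (nat_lit 0) .nil) .nil)))) 
(.nd (nat_lit 9) 
(.lf (nat_lit 449930) (.g (nat_lit 4288) (.e (nat_lit 2458) (nat_lit 157) (.e (nat_lit 5547) (nat_lit 306) (.e (nat_lit 2599) (nat_lit 163) (.e (nat_lit 163978) (nat_lit 30) (.e (nat_lit 573485) (nat_lit 13) (.e (nat_lit 65604) (nat_lit 9) (.e (nat_lit 336013) (nat_lit 2) (.e (nat_lit 90170) (nat_lit 13) (.e (nat_lit 172042) (nat_lit 0) .nil))))))))) (.g (nat_lit 1) (.e (nat_lit 13997) (nat_lit 0) .nil) .nil))) 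
(.lf (nat_lit 450442) (.g (nat_lit 2580) (.e (nat_lit 2555) (nat_lit 159) (.e (nat_lit 24617) (nat_lit 7) (.e (nat_lit 319534) (nat_lit 16) (.e (nat_lit 286756) (nat_lit 10) (.e (nat_lit 344160) (nat_lit 37) (.e (nat_lit 647200) (nat_lit 12) (.e (nat_lit 57353) (nat_lit 0) (.e (nat_lit 7464) (nat_lit 396) .nil)))))))) (.g (nat_lit 1) (.e (nat_lit 15916) (nat_lit 0) .nil) .nil)))))) 
(.nd (nat_lit 7) (.nd (nat_lit 8) (.nd (nat_lit 9) 
(.lf (nat_lit 449610) (.g (nat_lit 2903) (.e (nat_lit 883) (nat_lit 75) (.e (nat_lit 778466) (nat_lit 11) (.e (nat_lit 24617) (nat_lit 7) (.e (nat_lit 319533) (nat_lit 16) (.e (nat_lit 286759) (nat_lit 12) (.e (nat_lit 385115) (nat_lit 53) (.e (nat_lit 811031) (nat_lit 11) .nil))))))) (.g (nat_lit 1) (.e (nat_lit 12692) (nat_lit 0) .nil) .nil))) 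
(.lf (nat_lit 450122) (.g (nat_lit 3430) (.e (nat_lit 2505) (nat_lit 157) (.e (nat_lit 3141) (nat_lit 193) (.e (nat_lit 500065) (nat_lit 18) (.e (nat_lit 65628) (nat_lit 14) (.e (nat_lit 401428) (nat_lit 3) (.e (nat_lit 204863) (nat_lit 27) (.e (nat_lit 344065) (nat_lit 0) .nil))))))) (.g (nat_lit 1) (.e (nat_lit 14696) (nat_lit 0) .nil) .nil)))) (.nd (nat_lit 9) 
(.lf (nat_lit 449866) (.g (nat_lit 3646) (.e (nat_lit 2445) (nat_lit 157) (.e (nat_lit 3098) (nat_lit 192) (.e (nat_lit 491569) (nat_lit 13) (.e (nat_lit 393301) (nat_lit 27) (.e (nat_lit 491560) (nat_lit 10) (.e (nat_lit 344090) (nat_lit 18) (.e (nat_lit 6869) (nat_lit 371) .nil))))))) (.g (nat_lit 1) (.e (nat_lit 13719) (nat_lit 0) .nil) .nil))) 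
(.lf (nat_lit 450378) (.g (nat_lit 2643) (.e (nat_lit 2553) (nat_lit 159) (.e (nat_lit 24608) (nat_lit 3) (.e (nat_lit 98365) (nat_lit 26) (.e (nat_lit 426100) (nat_lit 1) (.e (nat_lit 164332) (nat_lit 230) (.e (nat_lit 163874) (nat_lit 3) (.e (nat_lit 204831) (nat_lit 18) (.e (nat_lit 57909) (nat_lit 278) .nil)))))))) (.g (nat_lit 1) (.e (nat_lit 15715) (nat_lit 0) .nil) .nil))))) 
(.nd (nat_lit 8) (.nd (nat_lit 9) 
(.lf (nat_lit 449738) (.g (nat_lit 5457) (.e (nat_lit 2410) (nat_lit 157) (.e (nat_lit 5626) (nat_lit 312) (.e (nat_lit 2668) (nat_lit 167) (.e (nat_lit 196666) (nat_lit 13) (.e (nat_lit 65610) (nat_lit 10) (.e (nat_lit 344117) (nat_lit 21) (.e (nat_lit 516106) (nat_lit 0) (.e (nat_lit 6986) (nat_lit 377) .nil)))))))) (.g (nat_lit 1) (.e (nat_lit 13146) (nat_lit 0) .nil) .nil))) 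
(.lf (nat_lit 450250) (.g (nat_lit 2355) (.e (nat_lit 2534) (nat_lit 157) (.e (nat_lit 2666) (nat_lit 167) (.e (nat_lit 196666) (nat_lit 13) (.e (nat_lit 65610) (nat_lit 10) (.e (nat_lit 344117) (nat_lit 21) .nil))))) (.g (nat_lit 0) (.e (nat_lit 15294) (nat_lit 0) .nil) .nil)))) (.nd (nat_lit 9) 
(.lf (nat_lit 449994) (.g (nat_lit 3175) (.e (nat_lit 2467) (nat_lit 157) (.e (nat_lit 3307) (nat_lit 202) (.e (nat_lit 573489) (nat_lit 14) (.e (nat_lit 73755) (nat_lit 8) (.e (nat_lit 557105) (nat_lit 14) (.e (nat_lit 180252) (nat_lit 10) (.e (nat_lit 573473) (nat_lit 12) (.e (nat_lit 57503) (nat_lit 38) (.e (nat_lit 638985) (nat_lit 5) .nil))))))))) (.g (nat_lit 1) (.e (nat_lit 14169) (nat_lit 0) .nil) .nil))) 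
(.lf (nat_lit 450506) (.g (nat_lit 2349) (.e (nat_lit 2558) (nat_lit 159) (.e (nat_lit 24640) (nat_lit 10) (.e (nat_lit 344156) (nat_lit 36) (.e (nat_lit 638985) (nat_lit 5) (.e (nat_lit 3015) (nat_lit 187) (.e (nat_lit 450562) (nat_lit 0) (.e (nat_lit 5811) (nat_lit 320) .nil))))))) (.g (nat_lit 1) (.e (nat_lit 16210) (nat_lit 0) .nil) .nil))))))) 
(.nd (nat_lit 6) (.nd (nat_lit 7) (.nd (nat_lit 8) (.nd (nat_lit 9) 
(.lf (nat_lit 449578) (.g (nat_lit 2557) (.e (nat_lit 883) (nat_lit 75) (.e (nat_lit 778465) (nat_lit 11) (.e (nat_lit 24617) (nat_lit 7) (.e (nat_lit 319533) (nat_lit 16) (.e (nat_lit 286758) (nat_lit 12) (.e (nat_lit 385115) (nat_lit 53) (.e (nat_lit 811032) (nat_lit 11) .nil))))))) (.g (nat_lit 1) (.e (nat_lit 12656) (nat_lit 0) .nil) .nil))) 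
(.lf (nat_lit 450090) (.g (nat_lit 2033) (.e (nat_lit 2472) (nat_lit 157) (.e (nat_lit 3307) (nat_lit 202) (.e (nat_lit 573485) (nat_lit 13) (.e (nat_lit 65619) (nat_lit 10) (.e (nat_lit 344117) (nat_lit 21) .nil))))) (.g (nat_lit 0) (.e (nat_lit 14443) (nat_lit 0) .nil) .nil)))) (.nd (nat_lit 9) 
(.lf (nat_lit 449834) (.g (nat_lit 1565) (.e (nat_lit 2442) (nat_lit 157) (.e (nat_lit 632) (nat_lit 50) (.e (nat_lit 573482) (nat_lit 13) (.e (nat_lit 65604) (nat_lit 9) .nil)))) (.g (nat_lit 0) (.e (nat_lit 13557) (nat_lit 0) .nil) .nil))) 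
(.lf (nat_lit 450346) (.g (nat_lit 1825) (.e (nat_lit 2551) (nat_lit 159) (.e (nat_lit 24653) (nat_lit 12) (.e (nat_lit 385102) (nat_lit 50) (.e (nat_lit 786483) (nat_lit 30) (.e (nat_lit 360451) (nat_lit 0) (.e (nat_lit 4780) (nat_lit 281) .nil)))))) (.g (nat_lit 1) (.e (nat_lit 15493) (nat_lit 0) .nil) .nil))))) (.nd (nat_lit 8) (.nd (nat_lit 9) 
(.lf (nat_lit 449706) (.g (nat_lit 4589) (.e (nat_lit 2400) (nat_lit 157) (.e (nat_lit 7586) (nat_lit 406) (.e (nat_lit 65571) (nat_lit 3) (.e (nat_lit 98350) (nat_lit 24) (.e (nat_lit 409617) (nat_lit 10) (.e (nat_lit 5355) (nat_lit 298) (.e (nat_lit 1235) (nat_lit 91) (.e (nat_lit 90133) (nat_lit 9) .nil)))))))) (.g (nat_lit 1) (.e (nat_lit 13041) (nat_lit 0) .nil) .nil))) 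
(.lf (nat_lit 450218) (.g (nat_lit 3506) (.e (nat_lit 2518) (nat_lit 157) (.e (nat_lit 2663) (nat_lit 167) (.e (nat_lit 196666) (nat_lit 13) (.e (nat_lit 65610) (nat_lit 10) (.e (nat_lit 344117) (nat_lit 21) (.e (nat_lit 516160) (nat_lit 10) (.e (nat_lit 434203) (nat_lit 18) (.e (nat_lit 4751) (nat_lit 281) .nil)))))))) (.g (nat_lit 1) (.e (nat_lit 15160) (nat_lit 0) .nil) .nil)))) 
(.nd (nat_lit 9) 
(.lf (nat_lit 449962) (.g (nat_lit 3899) (.e (nat_lit 2461) (nat_lit 157) (.e (nat_lit 3307) (nat_lit 202) (.e (nat_lit 573489) (nat_lit 14) (.e (nat_lit 73755) (nat_lit 8) (.e (nat_lit 557105) (nat_lit 14) (.e (nat_lit 180252) (nat_lit 10) (.e (nat_lit 573473) (nat_lit 12) (.e (nat_lit 57504) (nat_lit 38) (.e (nat_lit 638986) (nat_lit 5) .nil))))))))) (.g (nat_lit 1) (.e (nat_lit 14097) (nat_lit 0) .nil) .nil))) 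
(.lf (nat_lit 450474) (.g (nat_lit 1882) (.e (nat_lit 2556) (nat_lit 159) (.e (nat_lit 24665) (nat_lit 14) (.e (nat_lit 401423) (nat_lit 2) (.e (nat_lit 196672) (nat_lit 15) .nil)))) (.g (nat_lit 0) (.e (nat_lit 16092) (nat_lit 0) .nil) .nil)))))) (.nd (nat_lit 7) (.nd (nat_lit 8) (.nd (nat_lit 9) 
(.lf (nat_lit 449642) (.g (nat_lit 2670) (.e (nat_lit 934) (nat_lit 76) (.e (nat_lit 786483) (nat_lit 30) (.e (nat_lit 360475) (nat_lit 8) (.e (nat_lit 557119) (nat_lit 18) (.e (nat_lit 2808) (nat_lit 180) (.e (nat_lit 303124) (nat_lit 7) (.e (nat_lit 409612) (nat_lit 10) .nil))))))) (.g (nat_lit 1) (.e (nat_lit 12833) (nat_lit 0) .nil) .nil))) 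
(.lf (nat_lit 450154) (.g (nat_lit 3130) (.e (nat_lit 2505) (nat_lit 157) (.e (nat_lit 5626) (nat_lit 312) (.e (nat_lit 2668) (nat_lit 167) (.e (nat_lit 196666) (nat_lit 13) (.e (nat_lit 65619) (nat_lit 10) .nil))))) (.g (nat_lit 0) (.e (nat_lit 14839) (nat_lit 0) .nil) .nil)))) (.nd (nat_lit 9) 
(.lf (nat_lit 449898) (.g (nat_lit 3466) (.e (nat_lit 2454) (nat_lit 157) (.e (nat_lit 2663) (nat_lit 167) (.e (nat_lit 196666) (nat_lit 13) (.e (nat_lit 65610) (nat_lit 10) (.e (nat_lit 344117) (nat_lit 21) (.e (nat_lit 516151) (nat_lit 9) (.e (nat_lit 426050) (nat_lit 0) (.e (nat_lit 2449) (nat_lit 157) (.e (nat_lit 4778) (nat_lit 281) .nil))))))))) (.g (nat_lit 1) (.e (nat_lit 13876) (nat_lit 0) .nil) .nil))) 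
(.lf (nat_lit 450410) (.g (nat_lit 1085) (.e (nat_lit 2553) (nat_lit 159) (.e (nat_lit 24662) (nat_lit 14) (.e (nat_lit 401459) (nat_lit 13) .nil))) (.g (nat_lit 0) (.e (nat_lit 15767) (nat_lit 0) .nil) .nil))))) (.nd (nat_lit 8) (.nd (nat_lit 9) 
(.lf (nat_lit 449770) (.g (nat_lit 3609) (.e (nat_lit 2425) (nat_lit 157) (.e (nat_lit 4848) (nat_lit 285) (.e (nat_lit 163869) (nat_lit 2) (.e (nat_lit 196666) (nat_lit 13) (.e (nat_lit 65610) (nat_lit 10) (.e (nat_lit 344117) (nat_lit 21) (.e (nat_lit 516151) (nat_lit 9) (.e (nat_lit 426043) (nat_lit 0) .nil)))))))) (.g (nat_lit 1) (.e (nat_lit 13265) (nat_lit 0) .nil) .nil))) 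
(.lf (nat_lit 450282) (.g (nat_lit 2322) (.e (nat_lit 2551) (nat_lit 159) (.e (nat_lit 24617) (nat_lit 7) (.e (nat_lit 319505) (nat_lit 10) (.e (nat_lit 618) (nat_lit 48) (.e (nat_lit 557109) (nat_lit 15) .nil))))) (.g (nat_lit 0) (.e (nat_lit 15413) (nat_lit 0) .nil) .nil)))) (.nd (nat_lit 9) 
(.lf (nat_lit 450026) (.g (nat_lit 3333) (.e (nat_lit 2477) (nat_lit 157) (.e (nat_lit 2663) (nat_lit 167) (.e (nat_lit 196666) (nat_lit 13) (.e (nat_lit 65610) (nat_lit 10) (.e (nat_lit 344117) (nat_lit 21) (.e (nat_lit 516151) (nat_lit 9) (.e (nat_lit 426034) (nat_lit 0) (.e (nat_lit 2438) (nat_lit 157) (.e (nat_lit 4817) (nat_lit 281) .nil))))))))) (.g (nat_lit 1) (.e (nat_lit 14268) (nat_lit 0) .nil) .nil))) 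
(.lf (nat_lit 450538) (.g (nat_lit 1992) (.e (nat_lit 2559) (nat_lit 159) (.e (nat_lit 24640) (nat_lit 10) (.e (nat_lit 344156) (nat_lit 36) (.e (nat_lit 638998) (nat_lit 8) (.e (nat_lit 172115) (nat_lit 10) .nil))))) (.g (nat_lit 0) (.e (nat_lit 16302) (nat_lit 0) .nil) .nil)))))))) (.nd (nat_lit 5) (.nd (nat_lit 6) (.nd (nat_lit 7) (.nd (nat_lit 8) (.nd (nat_lit 9) 
(.lf (nat_lit 449562) (.g (nat_lit 3628) (.e (nat_lit 883) (nat_lit 75) (.e (nat_lit 778465) (nat_lit 11) (.e (nat_lit 24617) (nat_lit 7) (.e (nat_lit 319529) (nat_lit 16) (.e (nat_lit 286759) (nat_lit 12) (.e (nat_lit 385115) (nat_lit 53) (.e (nat_lit 811031) (nat_lit 11) .nil))))))) (.g (nat_lit 1) (.e (nat_lit 12640) (nat_lit 0) .nil) .nil))) 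
(.lf (nat_lit 450074) (.g (nat_lit 2202) (.e (nat_lit 2478) (nat_lit 157) (.e (nat_lit 6401) (nat_lit 339) (.e (nat_lit 57411) (nat_lit 12) (.e (nat_lit 336456) (nat_lit 34) (.e (nat_lit 483394) (nat_lit 24) .nil))))) (.g (nat_lit 0) (.e (nat_lit 14385) (nat_lit 0) .nil) .nil)))) (.nd (nat_lit 9) 
(.lf (nat_lit 449818) (.g (nat_lit 4544) (.e (nat_lit 2433) (nat_lit 157) (.e (nat_lit 3471) (nat_lit 217) (.e (nat_lit 696343) (nat_lit 8) (.e (nat_lit 172064) (nat_lit 2) (.e (nat_lit 196666) (nat_lit 13) (.e (nat_lit 65610) (nat_lit 10) (.e (nat_lit 344129) (nat_lit 26) (.e (nat_lit 557067) (nat_lit 9) .nil)))))))) (.g (nat_lit 1) (.e (nat_lit 13500) (nat_lit 0) .nil) .nil))) 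
(.lf (nat_lit 450330) (.g (nat_lit 2132) (.e (nat_lit 2551) (nat_lit 159) (.e (nat_lit 24640) (nat_lit 10) (.e (nat_lit 344156) (nat_lit 36) (.e (nat_lit 638998) (nat_lit 8) (.e (nat_lit 172115) (nat_lit 10) (.e (nat_lit 434202) (nat_lit 18) (.e (nat_lit 5836) (nat_lit 320) .nil))))))) (.g (nat_lit 1) (.e (nat_lit 15475) (nat_lit 0) .nil) .nil))))) (.nd (nat_lit 8) (.nd (nat_lit 9) 
(.lf (nat_lit 449690) (.g (nat_lit 3955) (.e (nat_lit 2397) (nat_lit 157) (.e (nat_lit 7586) (nat_lit 406) (.e (nat_lit 65571) (nat_lit 3) (.e (nat_lit 98389) (nat_lit 33) (.e (nat_lit 491558) (nat_lit 10) (.e (nat_lit 344107) (nat_lit 19) (.e (nat_lit 499825) (nat_lit 5) .nil))))))) (.g (nat_lit 1) (.e (nat_lit 12952) (nat_lit 0) .nil) .nil))) 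
(.lf (nat_lit 450202) (.g (nat_lit 5457) (.e (nat_lit 2512) (nat_lit 157) (.e (nat_lit 5626) (nat_lit 312) (.e (nat_lit 2668) (nat_lit 167) (.e (nat_lit 196666) (nat_lit 13) (.e (nat_lit 65610) (nat_lit 10) (.e (nat_lit 344117) (nat_lit 21) (.e (nat_lit 516106) (nat_lit 0) (.e (nat_lit 6986) (nat_lit 377) .nil)))))))) (.g (nat_lit 1) (.e (nat_lit 15079) (nat_lit 0) .nil) .nil)))) (.nd (nat_lit 9) 
(.lf (nat_lit 449946) (.g (nat_lit 5190) (.e (nat_lit 2458) (nat_lit 157) (.e (nat_lit 5547) (nat_lit 306) (.e (nat_lit 2610) (nat_lit 163) (.e (nat_lit 163979) (nat_lit 30) (.e (nat_lit 573493) (nat_lit 15) (.e (nat_lit 81953) (nat_lit 22) (.e (nat_lit 90170) (nat_lit 13) (.e (nat_lit 172046) (nat_lit 0) .nil)))))))) (.g (nat_lit 1) (.e (nat_lit 14027) (nat_lit 0) .nil) .nil))) 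
(.lf (nat_lit 450458) (.g (nat_lit 2717) (.e (nat_lit 2556) (nat_lit 159) (.e (nat_lit 24604) (nat_lit 2) (.e (nat_lit 90176) (nat_lit 15) (.e (nat_lit 188450) (nat_lit 23) (.e (nat_lit 204830) (nat_lit 18) (.e (nat_lit 65280) (nat_lit 233) .nil)))))) (.g (nat_lit 1) (.e (nat_lit 16051) (nat_lit 0) .nil) .nil)))))) (.nd (nat_lit 7) (.nd (nat_lit 8) (.nd (nat_lit 9) 
(.lf (nat_lit 449626) (.g (nat_lit 2810) (.e (nat_lit 917) (nat_lit 75) (.e (nat_lit 778466) (nat_lit 11) (.e (nat_lit 24616) (nat_lit 7) (.e (nat_lit 319530) (nat_lit 16) (.e (nat_lit 286759) (nat_lit 12) (.e (nat_lit 385115) (nat_lit 53) (.e (nat_lit 811032) (nat_lit 11) .nil))))))) (.g (nat_lit 1) (.e (nat_lit 12755) (nat_lit 0) .nil) .nil))) 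
(.lf (nat_lit 450138) (.g (nat_lit 4702) (.e (nat_lit 2505) (nat_lit 157) (.e (nat_lit 3249) (nat_lit 197) (.e (nat_lit 532526) (nat_lit 8) (.e (nat_lit 327699) (nat_lit 8) (.e (nat_lit 303119) (nat_lit 3) (.e (nat_lit 204863) (nat_lit 27) (.e (nat_lit 344066) (nat_lit 0) .nil))))))) (.g (nat_lit 1) (.e (nat_lit 14718) (nat_lit 0) .nil) .nil)))) (.nd (nat_lit 9) 
(.lf (nat_lit 449882) (.g (nat_lit 1610) (.e (nat_lit 2450) (nat_lit 157) (.e (nat_lit 3098) (nat_lit 192) (.e (nat_lit 491568) (nat_lit 13) (.e (nat_lit 393301) (nat_lit 27) .nil)))) (.g (nat_lit 0) (.e (nat_lit 13846) (nat_lit 0) .nil) .nil))) 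
(.lf (nat_lit 450394) (.g (nat_lit 1885) (.e (nat_lit 2553) (nat_lit 159) (.e (nat_lit 24640) (nat_lit 10) (.e (nat_lit 344156) (nat_lit 36) (.e (nat_lit 638998) (nat_lit 8) (.e (nat_lit 172106) (nat_lit 10) .nil))))) (.g (nat_lit 0) (.e (nat_lit 15741) (nat_lit 0) .nil) .nil))))) (.nd (nat_lit 8) (.nd (nat_lit 9) 
(.lf (nat_lit 449754) (.g (nat_lit 2968) (.e (nat_lit 2416) (nat_lit 157) (.e (nat_lit 3469) (nat_lit 217) (.e (nat_lit 696344) (nat_lit 8) (.e (nat_lit 172079) (nat_lit 7) (.e (nat_lit 409645) (nat_lit 18) (.e (nat_lit 303139) (nat_lit 10) (.e (nat_lit 434275) (nat_lit 39) (.e (nat_lit 663580) (nat_lit 9) .nil)))))))) (.g (nat_lit 1) (.e (nat_lit 13195) (nat_lit 0) .nil) .nil))) 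
(.lf (nat_lit 450266) (.g (nat_lit 2493) (.e (nat_lit 2551) (nat_lit 159) (.e (nat_lit 24608) (nat_lit 3) (.e (nat_lit 98365) (nat_lit 26) (.e (nat_lit 426100) (nat_lit 1) (.e (nat_lit 164332) (nat_lit 230) .nil))))) (.g (nat_lit 0) (.e (nat_lit 15397) (nat_lit 0) .nil) .nil)))) (.nd (nat_lit 9) 
(.lf (nat_lit 450010) (.g (nat_lit 2678) (.e (nat_lit 2476) (nat_lit 157) (.e (nat_lit 3307) (nat_lit 202) (.e (nat_lit 573489) (nat_lit 14) (.e (nat_lit 73755) (nat_lit 8) (.e (nat_lit 557105) (nat_lit 14) .nil))))) (.g (nat_lit 0) (.e (nat_lit 14250) (nat_lit 0) .nil) .nil))) 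
(.lf (nat_lit 450522) (.g (nat_lit 3597) (.e (nat_lit 2559) (nat_lit 159) (.e (nat_lit 24608) (nat_lit 3) (.e (nat_lit 98372) (nat_lit 29) (.e (nat_lit 450579) (nat_lit 5) (.e (nat_lit 532504) (nat_lit 1) .nil))))) (.g (nat_lit 0) (.e (nat_lit 16279) (nat_lit 0) .nil) .nil))))))) (.nd (nat_lit 6) (.nd (nat_lit 7) (.nd (nat_lit 8) (.nd (nat_lit 9) 
(.lf (nat_lit 449594) (.g (nat_lit 3156) (.e (nat_lit 883) (nat_lit 75) (.e (nat_lit 778466) (nat_lit 11) (.e (nat_lit 24616) (nat_lit 7) (.e (nat_lit 319530) (nat_lit 16) (.e (nat_lit 286759) (nat_lit 12) (.e (nat_lit 385115) (nat_lit 53) (.e (nat_lit 811033) (nat_lit 11) .nil))))))) (.g (nat_lit 1) (.e (nat_lit 12675) (nat_lit 0) .nil) .nil))) 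
(.lf (nat_lit 450106) (.g (nat_lit 2136) (.e (nat_lit 2473) (nat_lit 157) (.e (nat_lit 3469) (nat_lit 217) (.e (nat_lit 696344) (nat_lit 8) (.e (nat_lit 172082) (nat_lit 7) (.e (nat_lit 409648) (nat_lit 18) (.e (nat_lit 303137) (nat_lit 10) (.e (nat_lit 434275) (nat_lit 39) (.e (nat_lit 663574) (nat_lit 9) .nil)))))))) (.g (nat_lit 1) (.e (nat_lit 14475) (nat_lit 0) .nil) .nil)))) 
(.nd (nat_lit 9) 
(.lf (nat_lit 449850) (.g (nat_lit 3659) (.e (nat_lit 2444) (nat_lit 157) (.e (nat_lit 3098) (nat_lit 192) (.e (nat_lit 491569) (nat_lit 13) (.e (nat_lit 393301) (nat_lit 27) (.e (nat_lit 491560) (nat_lit 10) (.e (nat_lit 344091) (nat_lit 18) (.e (nat_lit 6869) (nat_lit 371) .nil))))))) (.g (nat_lit 1) (.e (nat_lit 13659) (nat_lit 0) .nil) .nil))) 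
(.lf (nat_lit 450362) (.g (nat_lit 2191) (.e (nat_lit 2552) (nat_lit 159) (.e (nat_lit 24640) (nat_lit 10) (.e (nat_lit 344156) (nat_lit 36) (.e (nat_lit 638985) (nat_lit 5) (.e (nat_lit 3022) (nat_lit 187) .nil))))) (.g (nat_lit 0) (.e (nat_lit 15666) (nat_lit 0) .nil) .nil))))) (.nd (nat_lit 8) (.nd (nat_lit 9) 
(.lf (nat_lit 449722) (.g (nat_lit 1402) (.e (nat_lit 2403) (nat_lit 157) (.e (nat_lit 4411) (nat_lit 259) (.e (nat_lit 57374) (nat_lit 2) (.e (nat_lit 90170) (nat_lit 13) (.e (nat_lit 172106) (nat_lit 10) .nil))))) (.g (nat_lit 0) (.e (nat_lit 13072) (nat_lit 0) .nil) .nil))) 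
(.lf (nat_lit 450234) (.g (nat_lit 1607) (.e (nat_lit 2515) (nat_lit 157) (.e (nat_lit 3090) (nat_lit 191) (.e (nat_lit 483364) (nat_lit 18) (.e (nat_lit 57665) (nat_lit 152) .nil)))) (.g (nat_lit 0) (.e (nat_lit 15227) (nat_lit 0) .nil) .nil)))) (.nd (nat_lit 9) 
(.lf (nat_lit 449978) (.g (nat_lit 1416) (.e (nat_lit 2466) (nat_lit 157) (.e (nat_lit 2845) (nat_lit 184) (.e (nat_lit 426568) (nat_lit 34) (.e (nat_lit 393279) (nat_lit 23) (.e (nat_lit 426129) (nat_lit 3) (.e (nat_lit 204829) (nat_lit 18) (.e (nat_lit 57665) (nat_lit 152) .nil))))))) (.g (nat_lit 1) (.e (nat_lit 14139) (nat_lit 0) .nil) .nil))) 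
(.lf (nat_lit 450490) (.g (nat_lit 2570) (.e (nat_lit 2557) (nat_lit 159) (.e (nat_lit 24658) (nat_lit 13) (.e (nat_lit 393301) (nat_lit 27) (.e (nat_lit 491560) (nat_lit 10) .nil)))) (.g (nat_lit 0) (.e (nat_lit 16167) (nat_lit 0) .nil) .nil)))))) (.nd (nat_lit 7) (.nd (nat_lit 8) (.nd (nat_lit 9) 
(.lf (nat_lit 449658) (.g (nat_lit 2451) (.e (nat_lit 754) (nat_lit 66) (.e (nat_lit 704738) (nat_lit 11) (.e (nat_lit 16425) (nat_lit 7) (.e (nat_lit 409646) (nat_lit 18) (.e (nat_lit 303143) (nat_lit 12) .nil))))) (.g (nat_lit 0) (.e (nat_lit 12875) (nat_lit 0) .nil) .nil))) 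
(.lf (nat_lit 450170) (.g (nat_lit 3925) (.e (nat_lit 2508) (nat_lit 157) (.e (nat_lit 3249) (nat_lit 197) (.e (nat_lit 532523) (nat_lit 7) (.e (nat_lit 319537) (nat_lit 19) (.e (nat_lit 311315) (nat_lit 3) (.e (nat_lit 204846) (nat_lit 24) (.e (nat_lit 319505) (nat_lit 10) (.e (nat_lit 5712) (nat_lit 312) .nil)))))))) (.g (nat_lit 1) (.e (nat_lit 14911) (nat_lit 0) .nil) .nil)))) 
(.nd (nat_lit 9) 
(.lf (nat_lit 449914) (.g (nat_lit 4187) (.e (nat_lit 2458) (nat_lit 157) (.e (nat_lit 5546) (nat_lit 306) (.e (nat_lit 2600) (nat_lit 163) (.e (nat_lit 163977) (nat_lit 30) (.e (nat_lit 573482) (nat_lit 13) (.e (nat_lit 65604) (nat_lit 9) (.e (nat_lit 336013) (nat_lit 2) (.e (nat_lit 90170) (nat_lit 13) (.e (nat_lit 172042) (nat_lit 0) .nil))))))))) (.g (nat_lit 1) (.e (nat_lit 13950) (nat_lit 0) .nil) .nil))) 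
(.lf (nat_lit 450426) (.g (nat_lit 1542) (.e (nat_lit 2555) (nat_lit 159) (.e (nat_lit 24608) (nat_lit 3) (.e (nat_lit 98372) (nat_lit 29) .nil))) (.g (nat_lit 0) (.e (nat_lit 15889) (nat_lit 0) .nil) .nil))))) (.nd (nat_lit 8) (.nd (nat_lit 9) 
(.lf (nat_lit 449786) (.g (nat_lit 780) (.e (nat_lit 2433) (nat_lit 157) (.e (nat_lit 2668) (nat_lit 167) (.e (nat_lit 196654) (nat_lit 11) .nil))) (.g (nat_lit 0) (.e (nat_lit 13383) (nat_lit 0) .nil) .nil))) 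
(.lf (nat_lit 450298) (.g (nat_lit 2665) (.e (nat_lit 2551) (nat_lit 159) (.e (nat_lit 24640) (nat_lit 10) (.e (nat_lit 344156) (nat_lit 36) (.e (nat_lit 638985) (nat_lit 5) (.e (nat_lit 3027) (nat_lit 187) (.e (nat_lit 450564) (nat_lit 0) (.e (nat_lit 5850) (nat_lit 320) .nil))))))) (.g (nat_lit 1) (.e (nat_lit 15442) (nat_lit 0) .nil) .nil)))) (.nd (nat_lit 9) 
(.lf (nat_lit 450042) (.g (nat_lit 3682) (.e (nat_lit 2477) (nat_lit 157) (.e (nat_lit 2663) (nat_lit 167) (.e (nat_lit 196666) (nat_lit 13) (.e (nat_lit 65610) (nat_lit 10) (.e (nat_lit 344117) (nat_lit 21) (.e (nat_lit 516151) (nat_lit 9) (.e (nat_lit 426043) (nat_lit 0) (.e (nat_lit 2424) (nat_lit 157) (.e (nat_lit 4818) (nat_lit 281) .nil))))))))) (.g (nat_lit 1) (.e (nat_lit 14284) (nat_lit 0) .nil) .nil))) 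
(.lf (nat_lit 450554) (.g (nat_lit 3307) (.e (nat_lit 2560) (nat_lit 159) (.e (nat_lit 24609) (nat_lit 3) (.e (nat_lit 98373) (nat_lit 29) (.e (nat_lit 450587) (nat_lit 10) (.e (nat_lit 573475) (nat_lit 12) (.e (nat_lit 57346) (nat_lit 0) (.e (nat_lit 7403) (nat_lit 396) .nil))))))) (.g (nat_lit 1) (.e (nat_lit 16372) (nat_lit 0) .nil) .nil)))))))))) 
(.nd (nat_lit 3) (.nd (nat_lit 4) (.nd (nat_lit 5) (.nd (nat_lit 6) (.nd (nat_lit 7) 
(.nd (nat_lit 8) (.nd (nat_lit 9) 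
(.lf (nat_lit 449542) (.g (nat_lit 2873) (.e (nat_lit 879) (nat_lit 75) (.e (nat_lit 778466) (nat_lit 11) (.e (nat_lit 24617) (nat_lit 7) (.e (nat_lit 319533) (nat_lit 16) (.e (nat_lit 286758) (nat_lit 12) .nil))))) (.g (nat_lit 0) (.e (nat_lit 12616) (nat_lit 0) .nil) .nil))) 
(.lf (nat_lit 450054) (.g (nat_lit 3537) (.e (nat_lit 2477) (nat_lit 157) (.e (nat_lit 3308) (nat_lit 202) (.e (nat_lit 573493) (nat_lit 15) (.e (nat_lit 81956) (nat_lit 23) (.e (nat_lit 98366) (nat_lit 27) .nil))))) (.g (nat_lit 0) (.e (nat_lit 14307) (nat_lit 0) .nil) .nil)))) (.nd (nat_lit 9) 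
(.lf (nat_lit 449798) (.g (nat_lit 2606) (.e (nat_lit 2433) (nat_lit 157) (.e (nat_lit 2668) (nat_lit 167) (.e (nat_lit 196666) (nat_lit 13) (.e (nat_lit 65610) (nat_lit 10) (.e (nat_lit 344117) (nat_lit 21) (.e (nat_lit 516151) (nat_lit 9) (.e (nat_lit 426043) (nat_lit 0) (.e (nat_lit 2424) (nat_lit 157) (.e (nat_lit 4762) (nat_lit 281) .nil))))))))) (.g (nat_lit 1) (.e (nat_lit 13405) (nat_lit 0) .nil) .nil))) 
(.lf (nat_lit 450310) (.g (nat_lit 3746) (.e (nat_lit 2551) (nat_lit 159) (.e (nat_lit 24640) (nat_lit 10) (.e (nat_lit 344156) (nat_lit 36) (.e (nat_lit 638998) (nat_lit 8) (.e (nat_lit 172113) (nat_lit 10) (.e (nat_lit 434203) (nat_lit 18) (.e (nat_lit 5798) (nat_lit 320) .nil))))))) (.g (nat_lit 1) (.e (nat_lit 15455) (nat_lit 0) .nil) .nil))))) (.nd (nat_lit 8) (.nd (nat_lit 9) 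
(.lf (nat_lit 449670) (.g (nat_lit 1982) (.e (nat_lit 788) (nat_lit 66) (.e (nat_lit 704738) (nat_lit 11) (.e (nat_lit 16425) (nat_lit 7) (.e (nat_lit 409648) (nat_lit 18) .nil)))) (.g (nat_lit 0) (.e (nat_lit 12891) (nat_lit 0) .nil) .nil))) 
(.lf (nat_lit 450182) (.g (nat_lit 2014) (.e (nat_lit 2508) (nat_lit 157) (.e (nat_lit 3249) (nat_lit 197) (.e (nat_lit 532569) (nat_lit 16) (.e (nat_lit 401434) (nat_lit 9) (.e (nat_lit 426140) (nat_lit 3) .nil))))) (.g (nat_lit 0) (.e (nat_lit 14992) (nat_lit 0) .nil) .nil)))) (.nd (nat_lit 9) 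
(.lf (nat_lit 449926) (.g (nat_lit 3998) (.e (nat_lit 2458) (nat_lit 157) (.e (nat_lit 5546) (nat_lit 306) (.e (nat_lit 2610) (nat_lit 163) (.e (nat_lit 163979) (nat_lit 30) (.e (nat_lit 573493) (nat_lit 15) (.e (nat_lit 81953) (nat_lit 22) (.e (nat_lit 90170) (nat_lit 13) (.e (nat_lit 172042) (nat_lit 0) .nil)))))))) (.g (nat_lit 1) (.e (nat_lit 13970) (nat_lit 0) .nil) .nil))) 
(.lf (nat_lit 450438) (.g (nat_lit 4376) (.e (nat_lit 2555) (nat_lit 159) (.e (nat_lit 24617) (nat_lit 7) (.e (nat_lit 319533) (nat_lit 16) (.e (nat_lit 286753) (nat_lit 10) (.e (nat_lit 344160) (nat_lit 37) (.e (nat_lit 647201) (nat_lit 12) (.e (nat_lit 57351) (nat_lit 0) (.e (nat_lit 7464) (nat_lit 396) .nil)))))))) (.g (nat_lit 1) (.e (nat_lit 15909) (nat_lit 0) .nil) .nil)))))) 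
(.nd (nat_lit 7) (.nd (nat_lit 8) (.nd (nat_lit 9) 
(.lf (nat_lit 449606) (.g (nat_lit 2185) (.e (nat_lit 883) (nat_lit 75) (.e (nat_lit 778466) (nat_lit 11) (.e (nat_lit 24617) (nat_lit 7) (.e (nat_lit 319532) (nat_lit 16) .nil)))) (.g (nat_lit 0) (.e (nat_lit 12688) (nat_lit 0) .nil) .nil))) 
(.lf (nat_lit 450118) (.g (nat_lit 4095) (.e (nat_lit 2505) (nat_lit 157) (.e (nat_lit 3062) (nat_lit 190) (.e (nat_lit 475185) (nat_lit 29) (.e (nat_lit 557100) (nat_lit 13) (.e (nat_lit 172106) (nat_lit 10) (.e (nat_lit 434231) (nat_lit 23) (.e (nat_lit 532499) (nat_lit 1) (.e (nat_lit 57762) (nat_lit 215) .nil)))))))) (.g (nat_lit 1) (.e (nat_lit 14682) (nat_lit 0) .nil) .nil)))) 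
(.nd (nat_lit 9) 
(.lf (nat_lit 449862) (.g (nat_lit 1590) (.e (nat_lit 2445) (nat_lit 157) (.e (nat_lit 3098) (nat_lit 192) (.e (nat_lit 491568) (nat_lit 13) (.e (nat_lit 393301) (nat_lit 27) .nil)))) (.g (nat_lit 0) (.e (nat_lit 13715) (nat_lit 0) .nil) .nil))) 
(.lf (nat_lit 450374) (.g (nat_lit 4289) (.e (nat_lit 2553) (nat_lit 159) (.e (nat_lit 24605) (nat_lit 2) (.e (nat_lit 90170) (nat_lit 13) (.e (nat_lit 172106) (nat_lit 10) (.e (nat_lit 434231) (nat_lit 23) (.e (nat_lit 532500) (nat_lit 1) (.e (nat_lit 65280) (nat_lit 233) .nil))))))) (.g (nat_lit 1) (.e (nat_lit 15711) (nat_lit 0) .nil) .nil))))) (.nd (nat_lit 8) (.nd (nat_lit 9) 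
(.lf (nat_lit 449734) (.g (nat_lit 1143) (.e (nat_lit 2404) (nat_lit 157) (.e (nat_lit 5270) (nat_lit 298) (.e (nat_lit 396) (nat_lit 32) .nil))) (.g (nat_lit 0) (.e (nat_lit 13132) (nat_lit 0) .nil) .nil))) 
(.lf (nat_lit 450246) (.g (nat_lit 2274) (.e (nat_lit 2503) (nat_lit 157) (.e (nat_lit 3062) (nat_lit 190) (.e (nat_lit 475179) (nat_lit 24) (.e (nat_lit 516176) (nat_lit 14) (.e (nat_lit 466950) (nat_lit 11) .nil))))) (.g (nat_lit 0) (.e (nat_lit 15272) (nat_lit 0) .nil) .nil)))) (.nd (nat_lit 9) 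
(.lf (nat_lit 449990) (.g (nat_lit 3183) (.e (nat_lit 2466) (nat_lit 157) (.e (nat_lit 5939) (nat_lit 322) (.e (nat_lit 57379) (nat_lit 3) (.e (nat_lit 98365) (nat_lit 26) (.e (nat_lit 426325) (nat_lit 13) (.e (nat_lit 483337) (nat_lit 9) (.e (nat_lit 426031) (nat_lit 0) .nil))))))) (.g (nat_lit 1) (.e (nat_lit 14158) (nat_lit 0) .nil) .nil))) 
(.lf (nat_lit 450502) (.g (nat_lit 1938) (.e (nat_lit 2558) (nat_lit 159) (.e (nat_lit 24640) (nat_lit 10) (.e (nat_lit 344156) (nat_lit 36) (.e (nat_lit 638985) (nat_lit 5) .nil)))) (.g (nat_lit 0) (.e (nat_lit 16206) (nat_lit 0) .nil) .nil))))))) (.nd (nat_lit 6) (.nd (nat_lit 7) (.nd (nat_lit 8) (.nd (nat_lit 9) 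
(.lf (nat_lit 449574) (.g (nat_lit 2085) (.e (nat_lit 883) (nat_lit 75) (.e (nat_lit 778465) (nat_lit 11) (.e (nat_lit 24617) (nat_lit 7) (.e (nat_lit 319532) (nat_lit 16) (.e (nat_lit 286759) (nat_lit 12) .nil))))) (.g (nat_lit 0) (.e (nat_lit 12652) (nat_lit 0) .nil) .nil))) 
(.lf (nat_lit 450086) (.g (nat_lit 5373) (.e (nat_lit 2472) (nat_lit 157) (.e (nat_lit 3307) (nat_lit 202) (.e (nat_lit 573484) (nat_lit 13) (.e (nat_lit 65610) (nat_lit 10) (.e (nat_lit 344117) (nat_lit 21) (.e (nat_lit 516159) (nat_lit 10) (.e (nat_lit 434272) (nat_lit 38) (.e (nat_lit 655364) (nat_lit 0) .nil)))))))) (.g (nat_lit 1) (.e (nat_lit 14437) (nat_lit 0) .nil) .nil)))) 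
(.nd (nat_lit 9) 
(.lf (nat_lit 449830) (.g (nat_lit 3929) (.e (nat_lit 2440) (nat_lit 157) (.e (nat_lit 3098) (nat_lit 192) (.e (nat_lit 491569) (nat_lit 13) (.e (nat_lit 393301) (nat_lit 27) (.e (nat_lit 491560) (nat_lit 10) (.e (nat_lit 344088) (nat_lit 18) (.e (nat_lit 6857) (nat_lit 371) .nil))))))) (.g (nat_lit 1) (.e (nat_lit 13542) (nat_lit 0) .nil) .nil))) 
(.lf (nat_lit 450342) (.g (nat_lit 2167) (.e (nat_lit 2551) (nat_lit 159) (.e (nat_lit 24640) (nat_lit 10) (.e (nat_lit 344156) (nat_lit 36) (.e (nat_lit 638999) (nat_lit 8) (.e (nat_lit 172113) (nat_lit 10) (.e (nat_lit 434203) (nat_lit 18) (.e (nat_lit 5811) (nat_lit 320) .nil))))))) (.g (nat_lit 1) (.e (nat_lit 15487) (nat_lit 0) .nil) .nil))))) (.nd (nat_lit 8) (.nd (nat_lit 9) 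
(.lf (nat_lit 449702) (.g (nat_lit 4396) (.e (nat_lit 2400) (nat_lit 157) (.e (nat_lit 7064) (nat_lit 377) (.e (nat_lit 1349) (nat_lit 102) (.e (nat_lit 286735) (nat_lit 3) (.e (nat_lit 98363) (nat_lit 26) (.e (nat_lit 426318) (nat_lit 12) (.e (nat_lit 475185) (nat_lit 29) (.e (nat_lit 557070) (nat_lit 9) .nil)))))))) (.g (nat_lit 1) (.e (nat_lit 13023) (nat_lit 0) .nil) .nil))) 
(.lf (nat_lit 450214) (.g (nat_lit 4104) (.e (nat_lit 2517) (nat_lit 157) (.e (nat_lit 2664) (nat_lit 167) (.e (nat_lit 196666) (nat_lit 13) (.e (nat_lit 65610) (nat_lit 10) (.e (nat_lit 344117) (nat_lit 21) (.e (nat_lit 516159) (nat_lit 10) (.e (nat_lit 434208) (nat_lit 18) (.e (nat_lit 4754) (nat_lit 281) .nil)))))))) (.g (nat_lit 1) (.e (nat_lit 15140) (nat_lit 0) .nil) .nil)))) 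
(.nd (nat_lit 9) 
(.lf (nat_lit 449958) (.g (nat_lit 2082) (.e (nat_lit 2457) (nat_lit 157) (.e (nat_lit 3469) (nat_lit 217) (.e (nat_lit 696344) (nat_lit 8) (.e (nat_lit 172082) (nat_lit 7) (.e (nat_lit 409648) (nat_lit 18) .nil))))) (.g (nat_lit 0) (.e (nat_lit 14084) (nat_lit 0) .nil) .nil))) 
(.lf (nat_lit 450470) (.g (nat_lit 925) (.e (nat_lit 2556) (nat_lit 159) (.e (nat_lit 24662) (nat_lit 14) (.e (nat_lit 401459) (nat_lit 13) .nil))) (.g (nat_lit 0) (.e (nat_lit 16073) (nat_lit 0) .nil) .nil)))))) (.nd (nat_lit 7) (.nd (nat_lit 8) (.nd (nat_lit 9) 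
(.lf (nat_lit 449638) (.g (nat_lit 2465) (.e (nat_lit 934) (nat_lit 76) (.e (nat_lit 786483) (nat_lit 30) (.e (nat_lit 360475) (nat_lit 8) (.e (nat_lit 557119) (nat_lit 18) (.e (nat_lit 2798) (nat_lit 180) (.e (nat_lit 303124) (nat_lit 7) (.e (nat_lit 409609) (nat_lit 10) .nil))))))) (.g (nat_lit 1) (.e (nat_lit 12829) (nat_lit 0) .nil) .nil))) 
(.lf (nat_lit 450150) (.g (nat_lit 1903) (.e (nat_lit 2505) (nat_lit 157) (.e (nat_lit 5626) (nat_lit 312) (.e (nat_lit 2668) (nat_lit 167) (.e (nat_lit 196666) (nat_lit 13) (.e (nat_lit 65610) (nat_lit 10) .nil))))) (.g (nat_lit 0) (.e (nat_lit 14833) (nat_lit 0) .nil) .nil)))) (.nd (nat_lit 9) 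
(.lf (nat_lit 449894) (.g (nat_lit 3453) (.e (nat_lit 2450) (nat_lit 157) (.e (nat_lit 3223) (nat_lit 196) (.e (nat_lit 524319) (nat_lit 11) (.e (nat_lit 442427) (nat_lit 23) (.e (nat_lit 204863) (nat_lit 27) (.e (nat_lit 344156) (nat_lit 36) (.e (nat_lit 638983) (nat_lit 5) .nil))))))) (.g (nat_lit 1) (.e (nat_lit 13865) (nat_lit 0) .nil) .nil))) 
(.lf (nat_lit 450406) (.g (nat_lit 3353) (.e (nat_lit 2553) (nat_lit 159) (.e (nat_lit 24658) (nat_lit 13) (.e (nat_lit 393301) (nat_lit 27) (.e (nat_lit 491559) (nat_lit 10) (.e (nat_lit 344089) (nat_lit 18) (.e (nat_lit 7409) (nat_lit 396) .nil)))))) (.g (nat_lit 1) (.e (nat_lit 15755) (nat_lit 0) .nil) .nil))))) (.nd (nat_lit 8) (.nd (nat_lit 9) 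
(.lf (nat_lit 449766) (.g (nat_lit 5186) (.e (nat_lit 2423) (nat_lit 157) (.e (nat_lit 4849) (nat_lit 285) (.e (nat_lit 163870) (nat_lit 2) (.e (nat_lit 196666) (nat_lit 13) (.e (nat_lit 65610) (nat_lit 10) (.e (nat_lit 344117) (nat_lit 21) (.e (nat_lit 516151) (nat_lit 9) (.e (nat_lit 426042) (nat_lit 0) .nil)))))))) (.g (nat_lit 1) (.e (nat_lit 13247) (nat_lit 0) .nil) .nil))) 
(.lf (nat_lit 450278) (.g (nat_lit 1810) (.e (nat_lit 2551) (nat_lit 159) (.e (nat_lit 24617) (nat_lit 7) (.e (nat_lit 319505) (nat_lit 10) (.e (nat_lit 618) (nat_lit 48) .nil)))) (.g (nat_lit 0) (.e (nat_lit 15409) (nat_lit 0) .nil) .nil)))) (.nd (nat_lit 9) 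
(.lf (nat_lit 450022) (.g (nat_lit 5585) (.e (nat_lit 2477) (nat_lit 157) (.e (nat_lit 2663) (nat_lit 167) (.e (nat_lit 196666) (nat_lit 13) (.e (nat_lit 65610) (nat_lit 10) (.e (nat_lit 344117) (nat_lit 21) (.e (nat_lit 516151) (nat_lit 9) (.e (nat_lit 426022) (nat_lit 0) (.e (nat_lit 2403) (nat_lit 157) (.e (nat_lit 4825) (nat_lit 281) .nil))))))))) (.g (nat_lit 1) (.e (nat_lit 14264) (nat_lit 0) .nil) .nil))) 
(.lf (nat_lit 450534) (.g (nat_lit 3667) (.e (nat_lit 2559) (nat_lit 159) (.e (nat_lit 24640) (nat_lit 10) (.e (nat_lit 344156) (nat_lit 36) (.e (nat_lit 638998) (nat_lit 8) (.e (nat_lit 172113) (nat_lit 10) (.e (nat_lit 434203) (nat_lit 18) (.e (nat_lit 5796) (nat_lit 320) .nil))))))) (.g (nat_lit 1) (.e (nat_lit 16298) (nat_lit 0) .nil) .nil)))))))) 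
(.nd (nat_lit 5) (.nd (nat_lit 6) (.nd (nat_lit 7) (.nd (nat_lit 8) (.nd (nat_lit 9) 
(.lf (nat_lit 449558) (.g (nat_lit 3580) (.e (nat_lit 883) (nat_lit 75) (.e (nat_lit 778465) (nat_lit 11) (.e (nat_lit 24617) (nat_lit 7) (.e (nat_lit 319528) (nat_lit 16) (.e (nat_lit 286759) (nat_lit 12) (.e (nat_lit 385115) (nat_lit 53) (.e (nat_lit 811031) (nat_lit 11) .nil))))))) (.g (nat_lit 1) (.e (nat_lit 12636) (nat_lit 0) .nil) .nil))) 
(.lf (nat_lit 450070) (.g (nat_lit 2857) (.e (nat_lit 2478) (nat_lit 157) (.e (nat_lit 5548) (nat_lit 306) (.e (nat_lit 2610) (nat_lit 163) (.e (nat_lit 163979) (nat_lit 30) (.e (nat_lit 573482) (nat_lit 13) (.e (nat_lit 65604) (nat_lit 9) (.e (nat_lit 336028) (nat_lit 3) (.e (nat_lit 98359) (nat_lit 26) (.e (nat_lit 426039) (nat_lit 0) .nil))))))))) (.g (nat_lit 1) (.e (nat_lit 14369) (nat_lit 0) .nil) .nil)))) 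
(.nd (nat_lit 9) 
(.lf (nat_lit 449814) (.g (nat_lit 1148) (.e (nat_lit 2433) (nat_lit 157) (.e (nat_lit 2851) (nat_lit 184) (.e (nat_lit 426566) (nat_lit 34) (.e (nat_lit 393293) (nat_lit 26) (.e (nat_lit 475177) (nat_lit 24) .nil))))) (.g (nat_lit 0) (.e (nat_lit 13474) (nat_lit 0) .nil) .nil))) 
(.lf (nat_lit 450326) (.g (nat_lit 2131) (.e (nat_lit 2551) (nat_lit 159) (.e (nat_lit 24640) (nat_lit 10) (.e (nat_lit 344156) (nat_lit 36) (.e (nat_lit 638998) (nat_lit 8) (.e (nat_lit 172115) (nat_lit 10) (.e (nat_lit 434202) (nat_lit 18) (.e (nat_lit 5832) (nat_lit 320) .nil))))))) (.g (nat_lit 1) (.e (nat_lit 15471) (nat_lit 0) .nil) .nil))))) (.nd (nat_lit 8) (.nd (nat_lit 9) 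
(.lf (nat_lit 449686) (.g (nat_lit 2443) (.e (nat_lit 2397) (nat_lit 157) (.e (nat_lit 5940) (nat_lit 322) (.e (nat_lit 57409) (nat_lit 12) (.e (nat_lit 336443) (nat_lit 32) (.e (nat_lit 466974) (nat_lit 22) .nil))))) (.g (nat_lit 0) (.e (nat_lit 12932) (nat_lit 0) .nil) .nil))) 
(.lf (nat_lit 450198) (.g (nat_lit 4400) (.e (nat_lit 2510) (nat_lit 157) (.e (nat_lit 5626) (nat_lit 312) (.e (nat_lit 2668) (nat_lit 167) (.e (nat_lit 196666) (nat_lit 13) (.e (nat_lit 65610) (nat_lit 10) (.e (nat_lit 344117) (nat_lit 21) (.e (nat_lit 516099) (nat_lit 0) (.e (nat_lit 7060) (nat_lit 377) .nil)))))))) (.g (nat_lit 1) (.e (nat_lit 15060) (nat_lit 0) .nil) .nil)))) (.nd (nat_lit 9) 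
(.lf (nat_lit 449942) (.g (nat_lit 5545) (.e (nat_lit 2458) (nat_lit 157) (.e (nat_lit 5547) (nat_lit 306) (.e (nat_lit 2610) (nat_lit 163) (.e (nat_lit 163978) (nat_lit 30) (.e (nat_lit 573485) (nat_lit 13) (.e (nat_lit 65604) (nat_lit 9) (.e (nat_lit 336013) (nat_lit 2) (.e (nat_lit 90170) (nat_lit 13) (.e (nat_lit 172046) (nat_lit 0) .nil))))))))) (.g (nat_lit 1) (.e (nat_lit 14023) (nat_lit 0) .nil) .nil))) 
(.lf (nat_lit 450454) (.g (nat_lit 1965) (.e (nat_lit 2555) (nat_lit 159) (.e (nat_lit 24665) (nat_lit 14) (.e (nat_lit 401423) (nat_lit 2) (.e (nat_lit 196666) (nat_lit 13) .nil)))) (.g (nat_lit 0) (.e (nat_lit 15963) (nat_lit 0) .nil) .nil)))))) (.nd (nat_lit 7) (.nd (nat_lit 8) (.nd (nat_lit 9) 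
(.lf (nat_lit 449622) (.g (nat_lit 2239) (.e (nat_lit 913) (nat_lit 75) (.e (nat_lit 778465) (nat_lit 11) (.e (nat_lit 24617) (nat_lit 7) (.e (nat_lit 319534) (nat_lit 16) (.e (nat_lit 286759) (nat_lit 12) .nil))))) (.g (nat_lit 0) (.e (nat_lit 12732) (nat_lit 0) .nil) .nil))) 
(.lf (nat_lit 450134) (.g (nat_lit 3883) (.e (nat_lit 2505) (nat_lit 157) (.e (nat_lit 3249) (nat_lit 197) (.e (nat_lit 532526) (nat_lit 8) (.e (nat_lit 327698) (nat_lit 8) (.e (nat_lit 303117) (nat_lit 2) (.e (nat_lit 196670) (nat_lit 14) (.e (nat_lit 73779) (nat_lit 32) .nil))))))) (.g (nat_lit 1) (.e (nat_lit 14714) (nat_lit 0) .nil) .nil)))) (.nd (nat_lit 9) 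
(.lf (nat_lit 449878) (.g (nat_lit 2282) (.e (nat_lit 2450) (nat_lit 157) (.e (nat_lit 2853) (nat_lit 184) (.e (nat_lit 426566) (nat_lit 34) (.e (nat_lit 393294) (nat_lit 26) (.e (nat_lit 475177) (nat_lit 24) .nil))))) (.g (nat_lit 0) (.e (nat_lit 13777) (nat_lit 0) .nil) .nil))) 
(.lf (nat_lit 450390) (.g (nat_lit 2440) (.e (nat_lit 2553) (nat_lit 159) (.e (nat_lit 24640) (nat_lit 10) (.e (nat_lit 344156) (nat_lit 36) (.e (nat_lit 638985) (nat_lit 5) (.e (nat_lit 3015) (nat_lit 187) (.e (nat_lit 450562) (nat_lit 0) (.e (nat_lit 5797) (nat_lit 320) .nil))))))) (.g (nat_lit 1) (.e (nat_lit 15736) (nat_lit 0) .nil) .nil))))) (.nd (nat_lit 8) (.nd (nat_lit 9) 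
(.lf (nat_lit 449750) (.g (nat_lit 2698) (.e (nat_lit 2416) (nat_lit 157) (.e (nat_lit 3307) (nat_lit 202) (.e (nat_lit 573489) (nat_lit 14) (.e (nat_lit 73755) (nat_lit 8) (.e (nat_lit 557105) (nat_lit 14) (.e (nat_lit 180252) (nat_lit 10) (.e (nat_lit 573473) (nat_lit 12) (.e (nat_lit 57503) (nat_lit 38) (.e (nat_lit 638985) (nat_lit 5) .nil))))))))) (.g (nat_lit 1) (.e (nat_lit 13175) (nat_lit 0) .nil) .nil))) 
(.lf (nat_lit 450262) (.g (nat_lit 1012) (.e (nat_lit 2542) (nat_lit 158) (.e (nat_lit 8446) (nat_lit 140) (.e (nat_lit 57424) (nat_lit 14) (.e (nat_lit 360192) (nat_lit 4) .nil)))) (.g (nat_lit 0) (.e (nat_lit 15378) (nat_lit 0) .nil) .nil)))) (.nd (nat_lit 9) 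
(.lf (nat_lit 450006) (.g (nat_lit 5483) (.e (nat_lit 2467) (nat_lit 157) (.e (nat_lit 3469) (nat_lit 217) (.e (nat_lit 696344) (nat_lit 8) (.e (nat_lit 172082) (nat_lit 7) (.e (nat_lit 409649) (nat_lit 18) (.e (nat_lit 303140) (nat_lit 10) (.e (nat_lit 434275) (nat_lit 39) (.e (nat_lit 663574) (nat_lit 9) .nil)))))))) (.g (nat_lit 1) (.e (nat_lit 14187) (nat_lit 0) .nil) .nil))) 
(.lf (nat_lit 450518) (.g (nat_lit 2549) (.e (nat_lit 2559) (nat_lit 159) (.e (nat_lit 24608) (nat_lit 3) (.e (nat_lit 98365) (nat_lit 26) (.e (nat_lit 426100) (nat_lit 1) (.e (nat_lit 164332) (nat_lit 230) .nil))))) (.g (nat_lit 0) (.e (nat_lit 16274) (nat_lit 0) .nil) .nil))))))) (.nd (nat_lit 6) (.nd (nat_lit 7) (.nd (nat_lit 8) (.nd (nat_lit 9) 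
(.lf (nat_lit 449590) (.g (nat_lit 3787) (.e (nat_lit 883) (nat_lit 75) (.e (nat_lit 778465) (nat_lit 11) (.e (nat_lit 24617) (nat_lit 7) (.e (nat_lit 319534) (nat_lit 16) (.e (nat_lit 286759) (nat_lit 12) (.e (nat_lit 385115) (nat_lit 53) (.e (nat_lit 811033) (nat_lit 11) .nil))))))) (.g (nat_lit 1) (.e (nat_lit 12668) (nat_lit 0) .nil) .nil))) 
(.lf (nat_lit 450102) (.g (nat_lit 2742) (.e (nat_lit 2473) (nat_lit 157) (.e (nat_lit 3307) (nat_lit 202) (.e (nat_lit 573489) (nat_lit 14) (.e (nat_lit 73755) (nat_lit 8) (.e (nat_lit 557105) (nat_lit 14) (.e (nat_lit 180252) (nat_lit 10) (.e (nat_lit 573473) (nat_lit 12) (.e (nat_lit 57503) (nat_lit 38) (.e (nat_lit 638985) (nat_lit 5) .nil))))))))) (.g (nat_lit 1) (.e (nat_lit 14463) (nat_lit 0) .nil) .nil)))) 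
(.nd (nat_lit 9) 
(.lf (nat_lit 449846) (.g (nat_lit 3928) (.e (nat_lit 2444) (nat_lit 157) (.e (nat_lit 3098) (nat_lit 192) (.e (nat_lit 491569) (nat_lit 13) (.e (nat_lit 393301) (nat_lit 27) (.e (nat_lit 491558) (nat_lit 10) (.e (nat_lit 344091) (nat_lit 18) (.e (nat_lit 6869) (nat_lit 371) .nil))))))) (.g (nat_lit 1) (.e (nat_lit 13655) (nat_lit 0) .nil) .nil))) 
(.lf (nat_lit 450358) (.g (nat_lit 3705) (.e (nat_lit 2552) (nat_lit 159) (.e (nat_lit 24608) (nat_lit 3) (.e (nat_lit 98373) (nat_lit 29) (.e (nat_lit 450587) (nat_lit 10) (.e (nat_lit 573475) (nat_lit 12) .nil))))) (.g (nat_lit 0) (.e (nat_lit 15658) (nat_lit 0) .nil) .nil))))) (.nd (nat_lit 8) (.nd (nat_lit 9) 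
(.lf (nat_lit 449718) (.g (nat_lit 4738) (.e (nat_lit 2402) (nat_lit 157) (.e (nat_lit 4830) (nat_lit 281) (.e (nat_lit 2477) (nat_lit 157) (.e (nat_lit 2663) (nat_lit 167) (.e (nat_lit 196666) (nat_lit 13) (.e (nat_lit 65610) (nat_lit 10) (.e (nat_lit 344117) (nat_lit 21) (.e (nat_lit 516151) (nat_lit 9) (.e (nat_lit 426023) (nat_lit 0) .nil))))))))) (.g (nat_lit 1) (.e (nat_lit 13055) (nat_lit 0) .nil) .nil))) 
(.lf (nat_lit 450230) (.g (nat_lit 1505) (.e (nat_lit 2515) (nat_lit 157) (.e (nat_lit 3089) (nat_lit 191) (.e (nat_lit 483365) (nat_lit 18) (.e (nat_lit 57655) (nat_lit 152) (.e (nat_lit 1207) (nat_lit 89) .nil))))) (.g (nat_lit 0) (.e (nat_lit 15219) (nat_lit 0) .nil) .nil)))) (.nd (nat_lit 9) 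
(.lf (nat_lit 449974) (.g (nat_lit 1680) (.e (nat_lit 2466) (nat_lit 157) (.e (nat_lit 2845) (nat_lit 184) (.e (nat_lit 426479) (nat_lit 27) (.e (nat_lit 336434) (nat_lit 30) (.e (nat_lit 450579) (nat_lit 5) (.e (nat_lit 532504) (nat_lit 1) (.e (nat_lit 57662) (nat_lit 152) .nil))))))) (.g (nat_lit 1) (.e (nat_lit 14135) (nat_lit 0) .nil) .nil))) 
(.lf (nat_lit 450486) (.g (nat_lit 2795) (.e (nat_lit 2557) (nat_lit 159) (.e (nat_lit 24647) (nat_lit 12) (.e (nat_lit 385105) (nat_lit 50) (.e (nat_lit 786483) (nat_lit 30) (.e (nat_lit 360450) (nat_lit 0) (.e (nat_lit 4766) (nat_lit 281) .nil)))))) (.g (nat_lit 1) (.e (nat_lit 16156) (nat_lit 0) .nil) .nil)))))) (.nd (nat_lit 7) (.nd (nat_lit 8) (.nd (nat_lit 9) 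
(.lf (nat_lit 449654) (.g (nat_lit 2582) (.e (nat_lit 752) (nat_lit 66) (.e (nat_lit 704738) (nat_lit 11) (.e (nat_lit 16425) (nat_lit 7) (.e (nat_lit 409646) (nat_lit 18) (.e (nat_lit 303143) (nat_lit 12) .nil))))) (.g (nat_lit 0) (.e (nat_lit 12871) (nat_lit 0) .nil) .nil))) 
(.lf (nat_lit 450166) (.g (nat_lit 4425) (.e (nat_lit 2508) (nat_lit 157) (.e (nat_lit 3249) (nat_lit 197) (.e (nat_lit 532482) (nat_lit 0) (.e (nat_lit 6203) (nat_lit 332) (.e (nat_lit 2798) (nat_lit 180) (.e (nat_lit 303117) (nat_lit 2) (.e (nat_lit 196670) (nat_lit 14) (.e (nat_lit 73779) (nat_lit 32) .nil)))))))) (.g (nat_lit 1) (.e (nat_lit 14905) (nat_lit 0) .nil) .nil)))) (.nd (nat_lit 9) 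
(.lf (nat_lit 449910) (.g (nat_lit 4608) (.e (nat_lit 2458) (nat_lit 157) (.e (nat_lit 5546) (nat_lit 306) (.e (nat_lit 2599) (nat_lit 163) (.e (nat_lit 163978) (nat_lit 30) (.e (nat_lit 573485) (nat_lit 13) (.e (nat_lit 65604) (nat_lit 9) (.e (nat_lit 336013) (nat_lit 2) (.e (nat_lit 90170) (nat_lit 13) (.e (nat_lit 172042) (nat_lit 0) .nil))))))))) (.g (nat_lit 1) (.e (nat_lit 13936) (nat_lit 0) .nil) .nil))) 
(.lf (nat_lit 450422) (.g (nat_lit 1203) (.e (nat_lit 2554) (nat_lit 159) (.e (nat_lit 24665) (nat_lit 14) (.e (nat_lit 401414) (nat_lit 0) .nil))) (.g (nat_lit 0) (.e (nat_lit 15813) (nat_lit 0) .nil) .nil))))) (.nd (nat_lit 8) (.nd (nat_lit 9) 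
(.lf (nat_lit 449782) (.g (nat_lit 2643) (.e (nat_lit 2430) (nat_lit 157) (.e (nat_lit 3471) (nat_lit 217) (.e (nat_lit 696344) (nat_lit 8) (.e (nat_lit 172067) (nat_lit 3) (.e (nat_lit 204855) (nat_lit 26) (.e (nat_lit 336176) (nat_lit 10) (.e (nat_lit 344133) (nat_lit 26) (.e (nat_lit 557068) (nat_lit 9) .nil)))))))) (.g (nat_lit 1) (.e (nat_lit 13352) (nat_lit 0) .nil) .nil))) 
(.lf (nat_lit 450294) (.g (nat_lit 2350) (.e (nat_lit 2551) (nat_lit 159) (.e (nat_lit 24640) (nat_lit 10) (.e (nat_lit 344156) (nat_lit 36) (.e (nat_lit 638985) (nat_lit 5) (.e (nat_lit 3022) (nat_lit 187) (.e (nat_lit 450565) (nat_lit 0) (.e (nat_lit 5853) (nat_lit 320) .nil))))))) (.g (nat_lit 1) (.e (nat_lit 15438) (nat_lit 0) .nil) .nil)))) (.nd (nat_lit 9) 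
(.lf (nat_lit 450038) (.g (nat_lit 3838) (.e (nat_lit 2477) (nat_lit 157) (.e (nat_lit 2663) (nat_lit 167) (.e (nat_lit 196666) (nat_lit 13) (.e (nat_lit 65610) (nat_lit 10) (.e (nat_lit 344117) (nat_lit 21) (.e (nat_lit 516151) (nat_lit 9) (.e (nat_lit 426042) (nat_lit 0) (.e (nat_lit 2438) (nat_lit 157) (.e (nat_lit 4817) (nat_lit 281) .nil))))))))) (.g (nat_lit 1) (.e (nat_lit 14280) (nat_lit 0) .nil) .nil))) 
(.lf (nat_lit 450550) (.g (nat_lit 674) (.e (nat_lit 2560) (nat_lit 159) (.e (nat_lit 24604) (nat_lit 2) (.e (nat_lit 90185) (nat_lit 17) .nil))) (.g (nat_lit 0) (.e (nat_lit 16368) (nat_lit 0) .nil) .nil))))))))) (.nd (nat_lit 4) (.nd (nat_lit 5) (.nd (nat_lit 6) (.nd (nat_lit 7) (.nd (nat_lit 8) (.nd (nat_lit 9) 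
(.lf (nat_lit 449550) (.g (nat_lit 1694) (.e (nat_lit 883) (nat_lit 75) (.e (nat_lit 778465) (nat_lit 11) (.e (nat_lit 24616) (nat_lit 7) (.e (nat_lit 319530) (nat_lit 16) (.e (nat_lit 286759) (nat_lit 12) (.e (nat_lit 385113) (nat_lit 53) (.e (nat_lit 811035) (nat_lit 11) .nil))))))) (.g (nat_lit 1) (.e (nat_lit 12627) (nat_lit 0) .nil) .nil))) 
(.lf (nat_lit 450062) (.g (nat_lit 2983) (.e (nat_lit 2478) (nat_lit 157) (.e (nat_lit 3386) (nat_lit 210) (.e (nat_lit 639020) (nat_lit 16) (.e (nat_lit 65627) (nat_lit 13) (.e (nat_lit 393284) (nat_lit 24) (.e (nat_lit 434276) (nat_lit 39) (.e (nat_lit 663580) (nat_lit 9) .nil))))))) (.g (nat_lit 1) (.e (nat_lit 14335) (nat_lit 0) .nil) .nil)))) (.nd (nat_lit 9) 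
(.lf (nat_lit 449806) (.g (nat_lit 2401) (.e (nat_lit 2433) (nat_lit 157) (.e (nat_lit 2668) (nat_lit 167) (.e (nat_lit 196669) (nat_lit 14) (.e (nat_lit 73755) (nat_lit 8) (.e (nat_lit 557105) (nat_lit 14) (.e (nat_lit 180252) (nat_lit 10) (.e (nat_lit 573474) (nat_lit 12) (.e (nat_lit 57347) (nat_lit 0) (.e (nat_lit 5438) (nat_lit 306) .nil))))))))) (.g (nat_lit 1) (.e (nat_lit 13424) (nat_lit 0) .nil) .nil))) 
(.lf (nat_lit 450318) (.g (nat_lit 2124) (.e (nat_lit 2551) (nat_lit 159) (.e (nat_lit 24640) (nat_lit 10) (.e (nat_lit 344156) (nat_lit 36) (.e (nat_lit 638998) (nat_lit 8) (.e (nat_lit 172113) (nat_lit 10) (.e (nat_lit 434203) (nat_lit 18) (.e (nat_lit 5836) (nat_lit 320) .nil))))))) (.g (nat_lit 1) (.e (nat_lit 15463) (nat_lit 0) .nil) .nil))))) (.nd (nat_lit 8) (.nd (nat_lit 9) 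
(.lf (nat_lit 449678) (.g (nat_lit 4214) (.e (nat_lit 2397) (nat_lit 157) (.e (nat_lit 4409) (nat_lit 259) (.e (nat_lit 57374) (nat_lit 2) (.e (nat_lit 90170) (nat_lit 13) (.e (nat_lit 172106) (nat_lit 10) (.e (nat_lit 434244) (nat_lit 28) (.e (nat_lit 573471) (nat_lit 11) (.e (nat_lit 16392) (nat_lit 0) .nil)))))))) (.g (nat_lit 1) (.e (nat_lit 12919) (nat_lit 0) .nil) .nil))) 
(.lf (nat_lit 450190) (.g (nat_lit 4766) (.e (nat_lit 2508) (nat_lit 157) (.e (nat_lit 3249) (nat_lit 197) (.e (nat_lit 532569) (nat_lit 16) (.e (nat_lit 401448) (nat_lit 10) (.e (nat_lit 434232) (nat_lit 23) (.e (nat_lit 532523) (nat_lit 7) (.e (nat_lit 319504) (nat_lit 10) (.e (nat_lit 5712) (nat_lit 312) .nil)))))))) (.g (nat_lit 1) (.e (nat_lit 15004) (nat_lit 0) .nil) .nil)))) 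
(.nd (nat_lit 9) 
(.lf (nat_lit 449934) (.g (nat_lit 4043) (.e (nat_lit 2458) (nat_lit 157) (.e (nat_lit 5547) (nat_lit 306) (.e (nat_lit 2601) (nat_lit 163) (.e (nat_lit 163977) (nat_lit 30) (.e (nat_lit 573482) (nat_lit 13) (.e (nat_lit 65604) (nat_lit 9) (.e (nat_lit 336013) (nat_lit 2) (.e (nat_lit 90170) (nat_lit 13) (.e (nat_lit 172042) (nat_lit 0) .nil))))))))) (.g (nat_lit 1) (.e (nat_lit 14011) (nat_lit 0) .nil) .nil))) 
(.lf (nat_lit 450446) (.g (nat_lit 2551) (.e (nat_lit 2555) (nat_lit 159) (.e (nat_lit 24658) (nat_lit 13) (.e (nat_lit 393301) (nat_lit 27) (.e (nat_lit 491560) (nat_lit 10) .nil)))) (.g (nat_lit 0) (.e (nat_lit 15936) (nat_lit 0) .nil) .nil)))))) (.nd (nat_lit 7) (.nd (nat_lit 8) (.nd (nat_lit 9) 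
(.lf (nat_lit 449614) (.g (nat_lit 2261) (.e (nat_lit 882) (nat_lit 75) (.e (nat_lit 778466) (nat_lit 11) (.e (nat_lit 24617) (nat_lit 7) (.e (nat_lit 319528) (nat_lit 16) .nil)))) (.g (nat_lit 0) (.e (nat_lit 12696) (nat_lit 0) .nil) .nil))) 
(.lf (nat_lit 450126) (.g (nat_lit 4353) (.e (nat_lit 2505) (nat_lit 157) (.e (nat_lit 3249) (nat_lit 197) (.e (nat_lit 532482) (nat_lit 0) (.e (nat_lit 6203) (nat_lit 332) (.e (nat_lit 2798) (nat_lit 180) (.e (nat_lit 303117) (nat_lit 2) (.e (nat_lit 196668) (nat_lit 14) (.e (nat_lit 73780) (nat_lit 32) .nil)))))))) (.g (nat_lit 1) (.e (nat_lit 14702) (nat_lit 0) .nil) .nil)))) (.nd (nat_lit 9) 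
(.lf (nat_lit 449870) (.g (nat_lit 3839) (.e (nat_lit 2447) (nat_lit 157) (.e (nat_lit 3098) (nat_lit 192) (.e (nat_lit 491569) (nat_lit 13) (.e (nat_lit 393301) (nat_lit 27) (.e (nat_lit 491560) (nat_lit 10) (.e (nat_lit 344089) (nat_lit 18) (.e (nat_lit 6864) (nat_lit 371) .nil))))))) (.g (nat_lit 1) (.e (nat_lit 13732) (nat_lit 0) .nil) .nil))) 
(.lf (nat_lit 450382) (.g (nat_lit 2957) (.e (nat_lit 2553) (nat_lit 159) (.e (nat_lit 24608) (nat_lit 3) (.e (nat_lit 98372) (nat_lit 29) (.e (nat_lit 450579) (nat_lit 5) (.e (nat_lit 532504) (nat_lit 1) (.e (nat_lit 65280) (nat_lit 233) .nil)))))) (.g (nat_lit 1) (.e (nat_lit 15720) (nat_lit 0) .nil) .nil))))) (.nd (nat_lit 8) (.nd (nat_lit 9) 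
(.lf (nat_lit 449742) (.g (nat_lit 2411) (.e (nat_lit 2416) (nat_lit 157) (.e (nat_lit 2666) (nat_lit 167) (.e (nat_lit 196666) (nat_lit 13) (.e (nat_lit 65610) (nat_lit 10) (.e (nat_lit 344117) (nat_lit 21) (.e (nat_lit 516151) (nat_lit 9) (.e (nat_lit 426023) (nat_lit 0) (.e (nat_lit 2400) (nat_lit 157) (.e (nat_lit 4830) (nat_lit 281) .nil))))))))) (.g (nat_lit 1) (.e (nat_lit 13159) (nat_lit 0) .nil) .nil))) 
(.lf (nat_lit 450254) (.g (nat_lit 422) (.e (nat_lit 2525) (nat_lit 157) (.e (nat_lit 5195) (nat_lit 294) (.e (nat_lit 57437) (nat_lit 17) .nil))) (.g (nat_lit 0) (.e (nat_lit 15332) (nat_lit 0) .nil) .nil)))) (.nd (nat_lit 9) 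
(.lf (nat_lit 449998) (.g (nat_lit 2928) (.e (nat_lit 2467) (nat_lit 157) (.e (nat_lit 3307) (nat_lit 202) (.e (nat_lit 573489) (nat_lit 14) (.e (nat_lit 73755) (nat_lit 8) (.e (nat_lit 557105) (nat_lit 14) (.e (nat_lit 180252) (nat_lit 10) (.e (nat_lit 573475) (nat_lit 12) (.e (nat_lit 57504) (nat_lit 38) (.e (nat_lit 638985) (nat_lit 5) .nil))))))))) (.g (nat_lit 1) (.e (nat_lit 14173) (nat_lit 0) .nil) .nil))) 
(.lf (nat_lit 450510) (.g (nat_lit 1359) (.e (nat_lit 2558) (nat_lit 159) (.e (nat_lit 24640) (nat_lit 10) (.e (nat_lit 344156) (nat_lit 36) (.e (nat_lit 638998) (nat_lit 8) .nil)))) (.g (nat_lit 0) (.e (nat_lit 16215) (nat_lit 0) .nil) .nil))))))) (.nd (nat_lit 6) (.nd (nat_lit 7) (.nd (nat_lit 8) (.nd (nat_lit 9) 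
(.lf (nat_lit 449582) (.g (nat_lit 4232) (.e (nat_lit 883) (nat_lit 75) (.e (nat_lit 778465) (nat_lit 11) (.e (nat_lit 24617) (nat_lit 7) (.e (nat_lit 319533) (nat_lit 16) (.e (nat_lit 286759) (nat_lit 12) (.e (nat_lit 385115) (nat_lit 53) (.e (nat_lit 811034) (nat_lit 11) .nil))))))) (.g (nat_lit 1) (.e (nat_lit 12660) (nat_lit 0) .nil) .nil))) 
(.lf (nat_lit 450094) (.g (nat_lit 2080) (.e (nat_lit 2472) (nat_lit 157) (.e (nat_lit 3307) (nat_lit 202) (.e (nat_lit 573489) (nat_lit 14) (.e (nat_lit 73755) (nat_lit 8) (.e (nat_lit 557103) (nat_lit 14) (.e (nat_lit 180250) (nat_lit 10) (.e (nat_lit 573473) (nat_lit 12) (.e (nat_lit 57503) (nat_lit 38) (.e (nat_lit 638985) (nat_lit 5) .nil))))))))) (.g (nat_lit 1) (.e (nat_lit 14447) (nat_lit 0) .nil) .nil)))) 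
(.nd (nat_lit 9) 
(.lf (nat_lit 449838) (.g (nat_lit 2955) (.e (nat_lit 2443) (nat_lit 157) (.e (nat_lit 2668) (nat_lit 167) (.e (nat_lit 196666) (nat_lit 13) (.e (nat_lit 65610) (nat_lit 10) (.e (nat_lit 344117) (nat_lit 21) (.e (nat_lit 516151) (nat_lit 9) (.e (nat_lit 426042) (nat_lit 0) (.e (nat_lit 2427) (nat_lit 157) (.e (nat_lit 4778) (nat_lit 281) .nil))))))))) (.g (nat_lit 1) (.e (nat_lit 13586) (nat_lit 0) .nil) .nil))) 
(.lf (nat_lit 450350) (.g (nat_lit 1805) (.e (nat_lit 2551) (nat_lit 159) (.e (nat_lit 24658) (nat_lit 13) (.e (nat_lit 393301) (nat_lit 27) (.e (nat_lit 491560) (nat_lit 10) .nil)))) (.g (nat_lit 0) (.e (nat_lit 15499) (nat_lit 0) .nil) .nil))))) (.nd (nat_lit 8) (.nd (nat_lit 9) 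
(.lf (nat_lit 449710) (.g (nat_lit 4059) (.e (nat_lit 2400) (nat_lit 157) (.e (nat_lit 7590) (nat_lit 407) (.e (nat_lit 73747) (nat_lit 3) (.e (nat_lit 516139) (nat_lit 7) (.e (nat_lit 409616) (nat_lit 10) (.e (nat_lit 5355) (nat_lit 298) (.e (nat_lit 1235) (nat_lit 91) (.e (nat_lit 90133) (nat_lit 9) .nil)))))))) (.g (nat_lit 1) (.e (nat_lit 13045) (nat_lit 0) .nil) .nil))) 
(.lf (nat_lit 450222) (.g (nat_lit 3371) (.e (nat_lit 2515) (nat_lit 157) (.e (nat_lit 2663) (nat_lit 167) (.e (nat_lit 196666) (nat_lit 13) (.e (nat_lit 65610) (nat_lit 10) (.e (nat_lit 344117) (nat_lit 21) .nil))))) (.g (nat_lit 0) (.e (nat_lit 15173) (nat_lit 0) .nil) .nil)))) (.nd (nat_lit 9) 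
(.lf (nat_lit 449966) (.g (nat_lit 5150) (.e (nat_lit 2461) (nat_lit 157) (.e (nat_lit 3307) (nat_lit 202) (.e (nat_lit 573489) (nat_lit 14) (.e (nat_lit 73755) (nat_lit 8) (.e (nat_lit 557105) (nat_lit 14) (.e (nat_lit 180252) (nat_lit 10) (.e (nat_lit 573475) (nat_lit 12) (.e (nat_lit 57503) (nat_lit 38) (.e (nat_lit 638983) (nat_lit 5) .nil))))))))) (.g (nat_lit 1) (.e (nat_lit 14102) (nat_lit 0) .nil) .nil))) 
(.lf (nat_lit 450478) (.g (nat_lit 1534) (.e (nat_lit 2557) (nat_lit 159) (.e (nat_lit 24607) (nat_lit 3) (.e (nat_lit 98365) (nat_lit 26) (.e (nat_lit 426298) (nat_lit 11) (.e (nat_lit 458789) (nat_lit 23) (.e (nat_lit 532501) (nat_lit 1) (.e (nat_lit 65280) (nat_lit 233) .nil))))))) (.g (nat_lit 1) (.e (nat_lit 16132) (nat_lit 0) .nil) .nil)))))) 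
(.nd (nat_lit 7) (.nd (nat_lit 8) (.nd (nat_lit 9) 
(.lf (nat_lit 449646) (.g (nat_lit 3158) (.e (nat_lit 946) (nat_lit 77) (.e (nat_lit 794657) (nat_lit 21) (.e (nat_lit 164325) (nat_lit 230) (.e (nat_lit 163903) (nat_lit 12) (.e (nat_lit 426428) (nat_lit 17) (.e (nat_lit 90170) (nat_lit 13) (.e (nat_lit 172082) (nat_lit 7) (.e (nat_lit 409612) (nat_lit 10) .nil)))))))) (.g (nat_lit 1) (.e (nat_lit 12844) (nat_lit 0) .nil) .nil))) 
(.lf (nat_lit 450158) (.g (nat_lit 1244) (.e (nat_lit 2507) (nat_lit 157) (.e (nat_lit 5293) (nat_lit 298) (.e (nat_lit 1176) (nat_lit 87) (.e (nat_lit 57849) (nat_lit 252) (.e (nat_lit 57388) (nat_lit 5) .nil))))) (.g (nat_lit 0) (.e (nat_lit 14858) (nat_lit 0) .nil) .nil)))) (.nd (nat_lit 9) 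
(.lf (nat_lit 449902) (.g (nat_lit 1952) (.e (nat_lit 2456) (nat_lit 157) (.e (nat_lit 3469) (nat_lit 217) (.e (nat_lit 696344) (nat_lit 8) (.e (nat_lit 172079) (nat_lit 7) (.e (nat_lit 409645) (nat_lit 18) (.e (nat_lit 303135) (nat_lit 10) (.e (nat_lit 434276) (nat_lit 39) (.e (nat_lit 663574) (nat_lit 9) .nil)))))))) (.g (nat_lit 1) (.e (nat_lit 13901) (nat_lit 0) .nil) .nil))) 
(.lf (nat_lit 450414) (.g (nat_lit 3508) (.e (nat_lit 2554) (nat_lit 159) (.e (nat_lit 24608) (nat_lit 3) (.e (nat_lit 98372) (nat_lit 29) (.e (nat_lit 450579) (nat_lit 5) (.e (nat_lit 532503) (nat_lit 1) .nil))))) (.g (nat_lit 0) (.e (nat_lit 15794) (nat_lit 0) .nil) .nil))))) (.nd (nat_lit 8) (.nd (nat_lit 9) 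
(.lf (nat_lit 449774) (.g (nat_lit 1905) (.e (nat_lit 2425) (nat_lit 157) (.e (nat_lit 5381) (nat_lit 300) (.e (nat_lit 16456) (nat_lit 12) (.e (nat_lit 475198) (nat_lit 40) (.e (nat_lit 704595) (nat_lit 5) .nil))))) (.g (nat_lit 0) (.e (nat_lit 13271) (nat_lit 0) .nil) .nil))) 
(.lf (nat_lit 450286) (.g (nat_lit 2869) (.e (nat_lit 2551) (nat_lit 159) (.e (nat_lit 24640) (nat_lit 10) (.e (nat_lit 344156) (nat_lit 36) (.e (nat_lit 638985) (nat_lit 5) (.e (nat_lit 3015) (nat_lit 187) (.e (nat_lit 450562) (nat_lit 0) (.e (nat_lit 5796) (nat_lit 320) .nil))))))) (.g (nat_lit 1) (.e (nat_lit 15430) (nat_lit 0) .nil) .nil)))) (.nd (nat_lit 9) 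
(.lf (nat_lit 450030) (.g (nat_lit 3384) (.e (nat_lit 2477) (nat_lit 157) (.e (nat_lit 2663) (nat_lit 167) (.e (nat_lit 196666) (nat_lit 13) (.e (nat_lit 65610) (nat_lit 10) (.e (nat_lit 344117) (nat_lit 21) (.e (nat_lit 516151) (nat_lit 9) (.e (nat_lit 426038) (nat_lit 0) (.e (nat_lit 2422) (nat_lit 157) (.e (nat_lit 4818) (nat_lit 281) .nil))))))))) (.g (nat_lit 1) (.e (nat_lit 14272) (nat_lit 0) .nil) .nil))) 
(.lf (nat_lit 450542) (.g (nat_lit 3045) (.e (nat_lit 2559) (nat_lit 159) (.e (nat_lit 24658) (nat_lit 13) (.e (nat_lit 393301) (nat_lit 27) (.e (nat_lit 491558) (nat_lit 10) .nil)))) (.g (nat_lit 0) (.e (nat_lit 16306) (nat_lit 0) .nil) .nil)))))))) (.nd (nat_lit 5) (.nd (nat_lit 6) (.nd (nat_lit 7) (.nd (nat_lit 8) (.nd (nat_lit 9) 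
(.lf (nat_lit 449566) (.g (nat_lit 3043) (.e (nat_lit 883) (nat_lit 75) (.e (nat_lit 778465) (nat_lit 11) (.e (nat_lit 24617) (nat_lit 7) (.e (nat_lit 319530) (nat_lit 16) (.e (nat_lit 286759) (nat_lit 12) (.e (nat_lit 385115) (nat_lit 53) (.e (nat_lit 811032) (nat_lit 11) .nil))))))) (.g (nat_lit 1) (.e (nat_lit 12644) (nat_lit 0) .nil) .nil))) 
(.lf (nat_lit 450078) (.g (nat_lit 3442) (.e (nat_lit 2479) (nat_lit 157) (.e (nat_lit 2663) (nat_lit 167) (.e (nat_lit 196666) (nat_lit 13) (.e (nat_lit 65610) (nat_lit 10) (.e (nat_lit 344117) (nat_lit 21) (.e (nat_lit 516151) (nat_lit 9) (.e (nat_lit 426040) (nat_lit 0) (.e (nat_lit 2426) (nat_lit 157) (.e (nat_lit 4778) (nat_lit 281) .nil))))))))) (.g (nat_lit 1) (.e (nat_lit 14389) (nat_lit 0) .nil) .nil)))) 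
(.nd (nat_lit 9) 
(.lf (nat_lit 449822) (.g (nat_lit 2638) (.e (nat_lit 2435) (nat_lit 157) (.e (nat_lit 6989) (nat_lit 377) (.e (nat_lit 1361) (nat_lit 102) (.e (nat_lit 286761) (nat_lit 13) (.e (nat_lit 393293) (nat_lit 26) (.e (nat_lit 475204) (nat_lit 40) (.e (nat_lit 704554) (nat_lit 0) .nil))))))) (.g (nat_lit 1) (.e (nat_lit 13512) (nat_lit 0) .nil) .nil))) 
(.lf (nat_lit 450334) (.g (nat_lit 2036) (.e (nat_lit 2551) (nat_lit 159) (.e (nat_lit 24640) (nat_lit 10) (.e (nat_lit 344156) (nat_lit 36) (.e (nat_lit 638998) (nat_lit 8) (.e (nat_lit 172115) (nat_lit 10) (.e (nat_lit 434202) (nat_lit 18) (.e (nat_lit 5843) (nat_lit 320) .nil))))))) (.g (nat_lit 1) (.e (nat_lit 15479) (nat_lit 0) .nil) .nil))))) (.nd (nat_lit 8) (.nd (nat_lit 9) 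
(.lf (nat_lit 449694) (.g (nat_lit 1262) (.e (nat_lit 2397) (nat_lit 157) (.e (nat_lit 7590) (nat_lit 407) (.e (nat_lit 73747) (nat_lit 3) (.e (nat_lit 516185) (nat_lit 16) (.e (nat_lit 491552) (nat_lit 9) .nil))))) (.g (nat_lit 0) (.e (nat_lit 12956) (nat_lit 0) .nil) .nil))) 
(.lf (nat_lit 450206) (.g (nat_lit 3371) (.e (nat_lit 2517) (nat_lit 157) (.e (nat_lit 2663) (nat_lit 167) (.e (nat_lit 196666) (nat_lit 13) (.e (nat_lit 65610) (nat_lit 10) (.e (nat_lit 344117) (nat_lit 21) .nil))))) (.g (nat_lit 0) (.e (nat_lit 15132) (nat_lit 0) .nil) .nil)))) (.nd (nat_lit 9) 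
(.lf (nat_lit 449950) (.g (nat_lit 3403) (.e (nat_lit 2458) (nat_lit 157) (.e (nat_lit 5548) (nat_lit 306) (.e (nat_lit 2610) (nat_lit 163) (.e (nat_lit 163977) (nat_lit 30) (.e (nat_lit 573482) (nat_lit 13) (.e (nat_lit 65604) (nat_lit 9) (.e (nat_lit 336013) (nat_lit 2) (.e (nat_lit 90170) (nat_lit 13) (.e (nat_lit 172042) (nat_lit 0) .nil))))))))) (.g (nat_lit 1) (.e (nat_lit 14045) (nat_lit 0) .nil) .nil))) 
(.lf (nat_lit 450462) (.g (nat_lit 3540) (.e (nat_lit 2556) (nat_lit 159) (.e (nat_lit 24608) (nat_lit 3) (.e (nat_lit 98372) (nat_lit 29) (.e (nat_lit 450579) (nat_lit 5) (.e (nat_lit 532504) (nat_lit 1) .nil))))) (.g (nat_lit 0) (.e (nat_lit 16056) (nat_lit 0) .nil) .nil)))))) (.nd (nat_lit 7) (.nd (nat_lit 8) (.nd (nat_lit 9) 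
(.lf (nat_lit 449630) (.g (nat_lit 1558) (.e (nat_lit 932) (nat_lit 76) (.e (nat_lit 786481) (nat_lit 30) (.e (nat_lit 360477) (nat_lit 11) (.e (nat_lit 581651) (nat_lit 4) (.e (nat_lit 172082) (nat_lit 7) (.e (nat_lit 409612) (nat_lit 10) .nil)))))) (.g (nat_lit 1) (.e (nat_lit 12794) (nat_lit 0) .nil) .nil))) 
(.lf (nat_lit 450142) (.g (nat_lit 1920) (.e (nat_lit 2505) (nat_lit 157) (.e (nat_lit 3249) (nat_lit 197) (.e (nat_lit 532547) (nat_lit 11) (.e (nat_lit 352318) (nat_lit 24) (.e (nat_lit 130816) (nat_lit 140) (.e (nat_lit 1212) (nat_lit 89) (.e (nat_lit 73780) (nat_lit 32) .nil))))))) (.g (nat_lit 1) (.e (nat_lit 14777) (nat_lit 0) .nil) .nil)))) (.nd (nat_lit 9) 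
(.lf (nat_lit 449886) (.g (nat_lit 3915) (.e (nat_lit 2450) (nat_lit 157) (.e (nat_lit 3098) (nat_lit 192) (.e (nat_lit 491569) (nat_lit 13) (.e (nat_lit 393301) (nat_lit 27) (.e (nat_lit 491558) (nat_lit 10) (.e (nat_lit 344096) (nat_lit 18) (.e (nat_lit 6850) (nat_lit 371) .nil))))))) (.g (nat_lit 1) (.e (nat_lit 13850) (nat_lit 0) .nil) .nil))) 
(.lf (nat_lit 450398) (.g (nat_lit 2239) (.e (nat_lit 2553) (nat_lit 159) (.e (nat_lit 24640) (nat_lit 10) (.e (nat_lit 344156) (nat_lit 36) (.e (nat_lit 638998) (nat_lit 8) (.e (nat_lit 172115) (nat_lit 10) (.e (nat_lit 434202) (nat_lit 18) (.e (nat_lit 5796) (nat_lit 320) .nil))))))) (.g (nat_lit 1) (.e (nat_lit 15745) (nat_lit 0) .nil) .nil))))) (.nd (nat_lit 8) (.nd (nat_lit 9) 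
(.lf (nat_lit 449758) (.g (nat_lit 1301) (.e (nat_lit 2420) (nat_lit 157) (.e (nat_lit 6402) (nat_lit 339) (.e (nat_lit 57411) (nat_lit 12) (.e (nat_lit 336456) (nat_lit 34) .nil)))) (.g (nat_lit 0) (.e (nat_lit 13211) (nat_lit 0) .nil) .nil))) 
(.lf (nat_lit 450270) (.g (nat_lit 3301) (.e (nat_lit 2551) (nat_lit 159) (.e (nat_lit 24608) (nat_lit 3) (.e (nat_lit 98372) (nat_lit 29) (.e (nat_lit 450579) (nat_lit 5) (.e (nat_lit 532501) (nat_lit 1) (.e (nat_lit 57777) (nat_lit 233) .nil)))))) (.g (nat_lit 1) (.e (nat_lit 15401) (nat_lit 0) .nil) .nil)))) (.nd (nat_lit 9) 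
(.lf (nat_lit 450014) (.g (nat_lit 3416) (.e (nat_lit 2477) (nat_lit 157) (.e (nat_lit 2663) (nat_lit 167) (.e (nat_lit 196666) (nat_lit 13) (.e (nat_lit 65610) (nat_lit 10) (.e (nat_lit 344117) (nat_lit 21) (.e (nat_lit 516151) (nat_lit 9) (.e (nat_lit 426017) (nat_lit 0) (.e (nat_lit 2417) (nat_lit 157) (.e (nat_lit 4817) (nat_lit 281) .nil))))))))) (.g (nat_lit 1) (.e (nat_lit 14256) (nat_lit 0) .nil) .nil))) 
(.lf (nat_lit 450526) (.g (nat_lit 745) (.e (nat_lit 2559) (nat_lit 159) (.e (nat_lit 24640) (nat_lit 10) (.e (nat_lit 344156) (nat_lit 36) .nil))) (.g (nat_lit 0) (.e (nat_lit 16285) (nat_lit 0) .nil) .nil))))))) (.nd (nat_lit 6) (.nd (nat_lit 7) (.nd (nat_lit 8) (.nd (nat_lit 9) 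
(.lf (nat_lit 449598) (.g (nat_lit 2662) (.e (nat_lit 883) (nat_lit 75) (.e (nat_lit 778466) (nat_lit 11) (.e (nat_lit 24617) (nat_lit 7) (.e (nat_lit 319529) (nat_lit 16) (.e (nat_lit 286759) (nat_lit 12) (.e (nat_lit 385115) (nat_lit 53) (.e (nat_lit 811032) (nat_lit 11) .nil))))))) (.g (nat_lit 1) (.e (nat_lit 12680) (nat_lit 0) .nil) .nil))) 
(.lf (nat_lit 450110) (.g (nat_lit 2252) (.e (nat_lit 2487) (nat_lit 157) (.e (nat_lit 2664) (nat_lit 167) (.e (nat_lit 196666) (nat_lit 13) (.e (nat_lit 65610) (nat_lit 10) (.e (nat_lit 344117) (nat_lit 21) .nil))))) (.g (nat_lit 0) (.e (nat_lit 14497) (nat_lit 0) .nil) .nil)))) (.nd (nat_lit 9) 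
(.lf (nat_lit 449854) (.g (nat_lit 2399) (.e (nat_lit 2444) (nat_lit 157) (.e (nat_lit 5954) (nat_lit 322) (.e (nat_lit 57373) (nat_lit 2) (.e (nat_lit 90174) (nat_lit 14) (.e (nat_lit 180243) (nat_lit 5) (.e (nat_lit 532515) (nat_lit 3) (.e (nat_lit 114719) (nat_lit 23) (.e (nat_lit 98331) (nat_lit 17) .nil)))))))) (.g (nat_lit 1) (.e (nat_lit 13671) (nat_lit 0) .nil) .nil))) 
(.lf (nat_lit 450366) (.g (nat_lit 2498) (.e (nat_lit 2552) (nat_lit 159) (.e (nat_lit 24658) (nat_lit 13) (.e (nat_lit 393301) (nat_lit 27) (.e (nat_lit 491559) (nat_lit 10) .nil)))) (.g (nat_lit 0) (.e (nat_lit 15670) (nat_lit 0) .nil) .nil))))) (.nd (nat_lit 8) (.nd (nat_lit 9) 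
(.lf (nat_lit 449726) (.g (nat_lit 4683) (.e (nat_lit 2403) (nat_lit 157) (.e (nat_lit 4825) (nat_lit 281) (.e (nat_lit 2477) (nat_lit 157) (.e (nat_lit 2663) (nat_lit 167) (.e (nat_lit 196666) (nat_lit 13) (.e (nat_lit 65610) (nat_lit 10) (.e (nat_lit 344117) (nat_lit 21) (.e (nat_lit 516151) (nat_lit 9) (.e (nat_lit 426023) (nat_lit 0) .nil))))))))) (.g (nat_lit 1) (.e (nat_lit 13076) (nat_lit 0) .nil) .nil))) 
(.lf (nat_lit 450238) (.g (nat_lit 1945) (.e (nat_lit 2515) (nat_lit 157) (.e (nat_lit 5947) (nat_lit 322) (.e (nat_lit 57371) (nat_lit 2) (.e (nat_lit 90174) (nat_lit 14) (.e (nat_lit 180245) (nat_lit 5) (.e (nat_lit 532515) (nat_lit 3) (.e (nat_lit 114719) (nat_lit 23) (.e (nat_lit 98325) (nat_lit 17) .nil)))))))) (.g (nat_lit 1) (.e (nat_lit 15243) (nat_lit 0) .nil) .nil)))) (.nd (nat_lit 9) 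
(.lf (nat_lit 449982) (.g (nat_lit 2921) (.e (nat_lit 2466) (nat_lit 157) (.e (nat_lit 3307) (nat_lit 202) (.e (nat_lit 573489) (nat_lit 14) (.e (nat_lit 73755) (nat_lit 8) (.e (nat_lit 557105) (nat_lit 14) (.e (nat_lit 180252) (nat_lit 10) (.e (nat_lit 573473) (nat_lit 12) (.e (nat_lit 57503) (nat_lit 38) (.e (nat_lit 638985) (nat_lit 5) .nil))))))))) (.g (nat_lit 1) (.e (nat_lit 14147) (nat_lit 0) .nil) .nil))) 
(.lf (nat_lit 450494) (.g (nat_lit 3588) (.e (nat_lit 2557) (nat_lit 159) (.e (nat_lit 24662) (nat_lit 14) (.e (nat_lit 401425) (nat_lit 2) (.e (nat_lit 196666) (nat_lit 13) (.e (nat_lit 65610) (nat_lit 10) .nil))))) (.g (nat_lit 0) (.e (nat_lit 16188) (nat_lit 0) .nil) .nil)))))) (.nd (nat_lit 7) (.nd (nat_lit 8) (.nd (nat_lit 9) 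
(.lf (nat_lit 449662) (.g (nat_lit 2240) (.e (nat_lit 787) (nat_lit 66) (.e (nat_lit 704738) (nat_lit 11) (.e (nat_lit 16425) (nat_lit 7) (.e (nat_lit 409643) (nat_lit 18) .nil)))) (.g (nat_lit 0) (.e (nat_lit 12880) (nat_lit 0) .nil) .nil))) 
(.lf (nat_lit 450174) (.g (nat_lit 4593) (.e (nat_lit 2508) (nat_lit 157) (.e (nat_lit 3249) (nat_lit 197) (.e (nat_lit 532526) (nat_lit 8) (.e (nat_lit 327699) (nat_lit 8) (.e (nat_lit 303117) (nat_lit 2) (.e (nat_lit 196668) (nat_lit 14) (.e (nat_lit 73780) (nat_lit 32) .nil))))))) (.g (nat_lit 1) (.e (nat_lit 14915) (nat_lit 0) .nil) .nil)))) (.nd (nat_lit 9) 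
(.lf (nat_lit 449918) (.g (nat_lit 2414) (.e (nat_lit 2458) (nat_lit 157) (.e (nat_lit 5546) (nat_lit 306) (.e (nat_lit 2610) (nat_lit 163) (.e (nat_lit 163977) (nat_lit 30) (.e (nat_lit 573485) (nat_lit 13) (.e (nat_lit 65604) (nat_lit 9) (.e (nat_lit 336013) (nat_lit 2) (.e (nat_lit 90170) (nat_lit 13) (.e (nat_lit 172042) (nat_lit 0) .nil))))))))) (.g (nat_lit 1) (.e (nat_lit 13959) (nat_lit 0) .nil) .nil))) 
(.lf (nat_lit 450430) (.g (nat_lit 3412) (.e (nat_lit 2555) (nat_lit 159) (.e (nat_lit 24608) (nat_lit 3) (.e (nat_lit 98373) (nat_lit 29) (.e (nat_lit 450587) (nat_lit 10) (.e (nat_lit 573475) (nat_lit 12) .nil))))) (.g (nat_lit 0) (.e (nat_lit 15893) (nat_lit 0) .nil) .nil))))) (.nd (nat_lit 8) (.nd (nat_lit 9) 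
(.lf (nat_lit 449790) (.g (nat_lit 2818) (.e (nat_lit 2433) (nat_lit 157) (.e (nat_lit 2668) (nat_lit 167) (.e (nat_lit 196656) (nat_lit 11) (.e (nat_lit 16465) (nat_lit 13) (.e (nat_lit 483341) (nat_lit 9) (.e (nat_lit 426100) (nat_lit 1) (.e (nat_lit 164305) (nat_lit 226) .nil))))))) (.g (nat_lit 1) (.e (nat_lit 13387) (nat_lit 0) .nil) .nil))) 
(.lf (nat_lit 450302) (.g (nat_lit 2866) (.e (nat_lit 2551) (nat_lit 159) (.e (nat_lit 24640) (nat_lit 10) (.e (nat_lit 344156) (nat_lit 36) (.e (nat_lit 638985) (nat_lit 5) (.e (nat_lit 3027) (nat_lit 187) (.e (nat_lit 450567) (nat_lit 0) (.e (nat_lit 5848) (nat_lit 320) .nil))))))) (.g (nat_lit 1) (.e (nat_lit 15446) (nat_lit 0) .nil) .nil)))) (.nd (nat_lit 9) 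
(.lf (nat_lit 450046) (.g (nat_lit 3499) (.e (nat_lit 2477) (nat_lit 157) (.e (nat_lit 2663) (nat_lit 167) (.e (nat_lit 196666) (nat_lit 13) (.e (nat_lit 65610) (nat_lit 10) (.e (nat_lit 344117) (nat_lit 21) (.e (nat_lit 516151) (nat_lit 9) (.e (nat_lit 426047) (nat_lit 0) (.e (nat_lit 2425) (nat_lit 157) (.e (nat_lit 4818) (nat_lit 281) .nil))))))))) (.g (nat_lit 1) (.e (nat_lit 14288) (nat_lit 0) .nil) .nil))) 
(.lf (nat_lit 450558) (.g (nat_lit 4417) (.e (nat_lit 2560) (nat_lit 159) (.e (nat_lit 24658) (nat_lit 13) (.e (nat_lit 393301) (nat_lit 27) (.e (nat_lit 491560) (nat_lit 10) (.e (nat_lit 344089) (nat_lit 18) .nil))))) (.g (nat_lit 0) (.e (nat_lit 16377) (nat_lit 0) .nil) .nil)))))))))))) 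
(.nd (nat_lit 1) (.nd (nat_lit 2) (.nd (nat_lit 3) (.nd (nat_lit 4) (.nd (nat_lit 5) 
(.nd (nat_lit 6) (.nd (nat_lit 7) (.nd (nat_lit 8) (.nd (nat_lit 9) 
(.lf (nat_lit 449537) (.g (nat_lit 2284) (.e (nat_lit 879) (nat_lit 75) (.e (nat_lit 778466) (nat_lit 11) (.e (nat_lit 24617) (nat_lit 7) (.e (nat_lit 319531) (nat_lit 16) (.e (nat_lit 286759) (nat_lit 12) .nil))))) (.g (nat_lit 0) (.e (nat_lit 12611) (nat_lit 0) .nil) .nil))) 
(.lf (nat_lit 450049) (.g (nat_lit 3790) (.e (nat_lit 2477) (nat_lit 157) (.e (nat_lit 2663) (nat_lit 167) (.e (nat_lit 196666) (nat_lit 13) (.e (nat_lit 65610) (nat_lit 10) (.e (nat_lit 344117) (nat_lit 21) (.e (nat_lit 516151) (nat_lit 9) (.e (nat_lit 426104) (nat_lit 1) (.e (nat_lit 164255) (nat_lit 215) .nil)))))))) (.g (nat_lit 1) (.e (nat_lit 14291) (nat_lit 0) .nil) .nil)))) 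
(.nd (nat_lit 9) 
(.lf (nat_lit 449793) (.g (nat_lit 2083) (.e (nat_lit 2433) (nat_lit 157) (.e (nat_lit 2668) (nat_lit 167) (.e (nat_lit 196666) (nat_lit 13) (.e (nat_lit 65610) (nat_lit 10) (.e (nat_lit 344117) (nat_lit 21) (.e (nat_lit 516151) (nat_lit 9) (.e (nat_lit 426022) (nat_lit 0) (.e (nat_lit 2397) (nat_lit 157) (.e (nat_lit 4762) (nat_lit 281) .nil))))))))) (.g (nat_lit 1) (.e (nat_lit 13400) (nat_lit 0) .nil) .nil))) 
(.lf (nat_lit 450305) (.g (nat_lit 2658) (.e (nat_lit 2551) (nat_lit 159) (.e (nat_lit 24640) (nat_lit 10) (.e (nat_lit 344156) (nat_lit 36) (.e (nat_lit 638998) (nat_lit 8) (.e (nat_lit 172106) (nat_lit 10) (.e (nat_lit 434202) (nat_lit 18) (.e (nat_lit 5840) (nat_lit 320) .nil))))))) (.g (nat_lit 1) (.e (nat_lit 15450) (nat_lit 0) .nil) .nil))))) (.nd (nat_lit 8) (.nd (nat_lit 9) 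
(.lf (nat_lit 449665) (.g (nat_lit 2333) (.e (nat_lit 787) (nat_lit 66) (.e (nat_lit 704738) (nat_lit 11) (.e (nat_lit 16425) (nat_lit 7) (.e (nat_lit 409648) (nat_lit 18) .nil)))) (.g (nat_lit 0) (.e (nat_lit 12883) (nat_lit 0) .nil) .nil))) 
(.lf (nat_lit 450177) (.g (nat_lit 2907) (.e (nat_lit 2508) (nat_lit 157) (.e (nat_lit 3249) (nat_lit 197) (.e (nat_lit 532542) (nat_lit 9) (.e (nat_lit 336204) (nat_lit 12) (.e (nat_lit 385074) (nat_lit 31) (.e (nat_lit 573487) (nat_lit 14) (.e (nat_lit 73780) (nat_lit 32) .nil))))))) (.g (nat_lit 1) (.e (nat_lit 14932) (nat_lit 0) .nil) .nil)))) (.nd (nat_lit 9) 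
(.lf (nat_lit 449921) (.g (nat_lit 2337) (.e (nat_lit 2458) (nat_lit 157) (.e (nat_lit 5546) (nat_lit 306) (.e (nat_lit 2610) (nat_lit 163) (.e (nat_lit 163978) (nat_lit 30) (.e (nat_lit 573484) (nat_lit 13) (.e (nat_lit 65610) (nat_lit 10) (.e (nat_lit 344117) (nat_lit 21) (.e (nat_lit 516151) (nat_lit 9) (.e (nat_lit 426043) (nat_lit 0) .nil))))))))) (.g (nat_lit 1) (.e (nat_lit 13963) (nat_lit 0) .nil) .nil))) 
(.lf (nat_lit 450433) (.g (nat_lit 1824) (.e (nat_lit 2555) (nat_lit 159) (.e (nat_lit 24617) (nat_lit 7) (.e (nat_lit 319505) (nat_lit 10) (.e (nat_lit 618) (nat_lit 48) .nil)))) (.g (nat_lit 0) (.e (nat_lit 15898) (nat_lit 0) .nil) .nil)))))) (.nd (nat_lit 7) (.nd (nat_lit 8) (.nd (nat_lit 9) 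
(.lf (nat_lit 449601) (.g (nat_lit 1867) (.e (nat_lit 883) (nat_lit 75) (.e (nat_lit 778466) (nat_lit 11) (.e (nat_lit 24617) (nat_lit 7) (.e (nat_lit 319531) (nat_lit 16) (.e (nat_lit 286759) (nat_lit 12) (.e (nat_lit 385094) (nat_lit 49) (.e (nat_lit 778510) (nat_lit 14) (.e (nat_lit 982) (nat_lit 81) .nil)))))))) (.g (nat_lit 1) (.e (nat_lit 12683) (nat_lit 0) .nil) .nil))) 
(.lf (nat_lit 450113) (.g (nat_lit 3455) (.e (nat_lit 2489) (nat_lit 157) (.e (nat_lit 2663) (nat_lit 167) (.e (nat_lit 196666) (nat_lit 13) (.e (nat_lit 65610) (nat_lit 10) (.e (nat_lit 344117) (nat_lit 21) (.e (nat_lit 516160) (nat_lit 10) (.e (nat_lit 434208) (nat_lit 18) (.e (nat_lit 4751) (nat_lit 281) .nil)))))))) (.g (nat_lit 1) (.e (nat_lit 14570) (nat_lit 0) .nil) .nil)))) 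
(.nd (nat_lit 9) 
(.lf (nat_lit 449857) (.g (nat_lit 3102) (.e (nat_lit 2445) (nat_lit 157) (.e (nat_lit 2668) (nat_lit 167) (.e (nat_lit 196666) (nat_lit 13) (.e (nat_lit 65610) (nat_lit 10) (.e (nat_lit 344117) (nat_lit 21) (.e (nat_lit 516151) (nat_lit 9) (.e (nat_lit 426042) (nat_lit 0) (.e (nat_lit 2422) (nat_lit 157) (.e (nat_lit 4778) (nat_lit 281) .nil))))))))) (.g (nat_lit 1) (.e (nat_lit 13674) (nat_lit 0) .nil) .nil))) 
(.lf (nat_lit 450369) (.g (nat_lit 1840) (.e (nat_lit 2552) (nat_lit 159) (.e (nat_lit 24660) (nat_lit 13) (.e (nat_lit 393260) (nat_lit 21) (.e (nat_lit 409648) (nat_lit 18) (.e (nat_lit 303104) (nat_lit 0) .nil))))) (.g (nat_lit 0) (.e (nat_lit 15674) (nat_lit 0) .nil) .nil))))) (.nd (nat_lit 8) (.nd (nat_lit 9) 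
(.lf (nat_lit 449729) (.g (nat_lit 4470) (.e (nat_lit 2399) (nat_lit 157) (.e (nat_lit 2685) (nat_lit 168) (.e (nat_lit 204837) (nat_lit 20) (.e (nat_lit 114714) (nat_lit 22) (.e (nat_lit 90172) (nat_lit 14) (.e (nat_lit 180244) (nat_lit 5) (.e (nat_lit 532503) (nat_lit 1) (.e (nat_lit 57653) (nat_lit 152) .nil)))))))) (.g (nat_lit 1) (.e (nat_lit 13101) (nat_lit 0) .nil) .nil))) 
(.lf (nat_lit 450241) (.g (nat_lit 3984) (.e (nat_lit 2515) (nat_lit 157) (.e (nat_lit 5948) (nat_lit 322) (.e (nat_lit 57373) (nat_lit 2) (.e (nat_lit 90174) (nat_lit 14) (.e (nat_lit 180243) (nat_lit 5) (.e (nat_lit 532515) (nat_lit 3) (.e (nat_lit 114719) (nat_lit 23) (.e (nat_lit 98325) (nat_lit 17) .nil)))))))) (.g (nat_lit 1) (.e (nat_lit 15246) (nat_lit 0) .nil) .nil)))) (.nd (nat_lit 9) 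
(.lf (nat_lit 449985) (.g (nat_lit 5480) (.e (nat_lit 2466) (nat_lit 157) (.e (nat_lit 3307) (nat_lit 202) (.e (nat_lit 573489) (nat_lit 14) (.e (nat_lit 73755) (nat_lit 8) (.e (nat_lit 557105) (nat_lit 14) (.e (nat_lit 180252) (nat_lit 10) (.e (nat_lit 573474) (nat_lit 12) (.e (nat_lit 57504) (nat_lit 38) (.e (nat_lit 638986) (nat_lit 5) .nil))))))))) (.g (nat_lit 1) (.e (nat_lit 14151) (nat_lit 0) .nil) .nil))) 
(.lf (nat_lit 450497) (.g (nat_lit 934) (.e (nat_lit 2557) (nat_lit 159) (.e (nat_lit 24662) (nat_lit 14) (.e (nat_lit 401459) (nat_lit 13) .nil))) (.g (nat_lit 0) (.e (nat_lit 16195) (nat_lit 0) .nil) .nil))))))) (.nd (nat_lit 6) (.nd (nat_lit 7) (.nd (nat_lit 8) (.nd (nat_lit 9) 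
(.lf (nat_lit 449569) (.g (nat_lit 2025) (.e (nat_lit 883) (nat_lit 75) (.e (nat_lit 778465) (nat_lit 11) (.e (nat_lit 24617) (nat_lit 7) (.e (nat_lit 319531) (nat_lit 16) (.e (nat_lit 286759) (nat_lit 12) (.e (nat_lit 385111) (nat_lit 53) (.e (nat_lit 811035) (nat_lit 11) .nil))))))) (.g (nat_lit 1) (.e (nat_lit 12647) (nat_lit 0) .nil) .nil))) 
(.lf (nat_lit 450081) (.g (nat_lit 3644) (.e (nat_lit 2479) (nat_lit 157) (.e (nat_lit 2663) (nat_lit 167) (.e (nat_lit 196666) (nat_lit 13) (.e (nat_lit 65610) (nat_lit 10) (.e (nat_lit 344117) (nat_lit 21) (.e (nat_lit 516160) (nat_lit 10) (.e (nat_lit 434203) (nat_lit 18) (.e (nat_lit 4778) (nat_lit 281) .nil)))))))) (.g (nat_lit 1) (.e (nat_lit 14392) (nat_lit 0) .nil) .nil)))) 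
(.nd (nat_lit 9) 
(.lf (nat_lit 449825) (.g (nat_lit 2013) (.e (nat_lit 2439) (nat_lit 157) (.e (nat_lit 2895) (nat_lit 184) (.e (nat_lit 426566) (nat_lit 34) (.e (nat_lit 393271) (nat_lit 23) (.e (nat_lit 426436) (nat_lit 18) .nil))))) (.g (nat_lit 0) (.e (nat_lit 13523) (nat_lit 0) .nil) .nil))) 
(.lf (nat_lit 450337) (.g (nat_lit 2813) (.e (nat_lit 2551) (nat_lit 159) (.e (nat_lit 24640) (nat_lit 10) (.e (nat_lit 344156) (nat_lit 36) (.e (nat_lit 638998) (nat_lit 8) (.e (nat_lit 172115) (nat_lit 10) (.e (nat_lit 434209) (nat_lit 18) (.e (nat_lit 5850) (nat_lit 320) .nil))))))) (.g (nat_lit 1) (.e (nat_lit 15482) (nat_lit 0) .nil) .nil))))) (.nd (nat_lit 8) (.nd (nat_lit 9) 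
(.lf (nat_lit 449697) (.g (nat_lit 1676) (.e (nat_lit 2400) (nat_lit 157) (.e (nat_lit 7064) (nat_lit 377) (.e (nat_lit 1348) (nat_lit 102) (.e (nat_lit 286735) (nat_lit 3) (.e (nat_lit 98359) (nat_lit 26) .nil))))) (.g (nat_lit 0) (.e (nat_lit 13018) (nat_lit 0) .nil) .nil))) 
(.lf (nat_lit 450209) (.g (nat_lit 2478) (.e (nat_lit 2517) (nat_lit 157) (.e (nat_lit 2664) (nat_lit 167) (.e (nat_lit 196666) (nat_lit 13) (.e (nat_lit 65610) (nat_lit 10) (.e (nat_lit 344117) (nat_lit 21) (.e (nat_lit 516151) (nat_lit 9) (.e (nat_lit 426042) (nat_lit 0) (.e (nat_lit 2426) (nat_lit 157) (.e (nat_lit 4758) (nat_lit 281) .nil))))))))) (.g (nat_lit 1) (.e (nat_lit 15135) (nat_lit 0) .nil) .nil)))) 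
(.nd (nat_lit 9) 
(.lf (nat_lit 449953) (.g (nat_lit 2126) (.e (nat_lit 2458) (nat_lit 157) (.e (nat_lit 5548) (nat_lit 306) (.e (nat_lit 2610) (nat_lit 163) (.e (nat_lit 163979) (nat_lit 30) (.e (nat_lit 573482) (nat_lit 13) (.e (nat_lit 65604) (nat_lit 9) (.e (nat_lit 336028) (nat_lit 3) (.e (nat_lit 98359) (nat_lit 26) (.e (nat_lit 426038) (nat_lit 0) .nil))))))))) (.g (nat_lit 1) (.e (nat_lit 14049) (nat_lit 0) .nil) .nil))) 
(.lf (nat_lit 450465) (.g (nat_lit 2458) (.e (nat_lit 2556) (nat_lit 159) (.e (nat_lit 24647) (nat_lit 12) (.e (nat_lit 385105) (nat_lit 50) (.e (nat_lit 786483) (nat_lit 30) (.e (nat_lit 360450) (nat_lit 0) (.e (nat_lit 4766) (nat_lit 281) .nil)))))) (.g (nat_lit 1) (.e (nat_lit 16061) (nat_lit 0) .nil) .nil)))))) (.nd (nat_lit 7) (.nd (nat_lit 8) (.nd (nat_lit 9) 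
(.lf (nat_lit 449633) (.g (nat_lit 2313) (.e (nat_lit 934) (nat_lit 76) (.e (nat_lit 786483) (nat_lit 30) (.e (nat_lit 360475) (nat_lit 8) (.e (nat_lit 557119) (nat_lit 18) (.e (nat_lit 2796) (nat_lit 180) (.e (nat_lit 303123) (nat_lit 7) (.e (nat_lit 409612) (nat_lit 10) .nil))))))) (.g (nat_lit 1) (.e (nat_lit 12824) (nat_lit 0) .nil) .nil))) 
(.lf (nat_lit 450145) (.g (nat_lit 5084) (.e (nat_lit 2505) (nat_lit 157) (.e (nat_lit 3249) (nat_lit 197) (.e (nat_lit 532569) (nat_lit 16) (.e (nat_lit 401434) (nat_lit 9) (.e (nat_lit 426140) (nat_lit 3) (.e (nat_lit 204846) (nat_lit 24) (.e (nat_lit 319505) (nat_lit 10) (.e (nat_lit 5712) (nat_lit 312) .nil)))))))) (.g (nat_lit 1) (.e (nat_lit 14821) (nat_lit 0) .nil) .nil)))) 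
(.nd (nat_lit 9) 
(.lf (nat_lit 449889) (.g (nat_lit 3666) (.e (nat_lit 2450) (nat_lit 157) (.e (nat_lit 3098) (nat_lit 192) (.e (nat_lit 491569) (nat_lit 13) (.e (nat_lit 393301) (nat_lit 27) (.e (nat_lit 491560) (nat_lit 10) (.e (nat_lit 344087) (nat_lit 18) (.e (nat_lit 6850) (nat_lit 371) .nil))))))) (.g (nat_lit 1) (.e (nat_lit 13853) (nat_lit 0) .nil) .nil))) 
(.lf (nat_lit 450401) (.g (nat_lit 2091) (.e (nat_lit 2553) (nat_lit 159) (.e (nat_lit 24653) (nat_lit 12) (.e (nat_lit 385102) (nat_lit 50) (.e (nat_lit 786483) (nat_lit 30) (.e (nat_lit 360450) (nat_lit 0) (.e (nat_lit 4761) (nat_lit 281) .nil)))))) (.g (nat_lit 1) (.e (nat_lit 15749) (nat_lit 0) .nil) .nil))))) (.nd (nat_lit 8) (.nd (nat_lit 9) 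
(.lf (nat_lit 449761) (.g (nat_lit 3282) (.e (nat_lit 2422) (nat_lit 157) (.e (nat_lit 4778) (nat_lit 281) (.e (nat_lit 2444) (nat_lit 157) (.e (nat_lit 2668) (nat_lit 167) (.e (nat_lit 196666) (nat_lit 13) (.e (nat_lit 65610) (nat_lit 10) (.e (nat_lit 344117) (nat_lit 21) (.e (nat_lit 516151) (nat_lit 9) (.e (nat_lit 426043) (nat_lit 0) .nil))))))))) (.g (nat_lit 1) (.e (nat_lit 13230) (nat_lit 0) .nil) .nil))) 
(.lf (nat_lit 450273) (.g (nat_lit 2374) (.e (nat_lit 2551) (nat_lit 159) (.e (nat_lit 24608) (nat_lit 3) (.e (nat_lit 98373) (nat_lit 29) (.e (nat_lit 458496) (nat_lit 3) .nil)))) (.g (nat_lit 0) (.e (nat_lit 15404) (nat_lit 0) .nil) .nil)))) (.nd (nat_lit 9) 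
(.lf (nat_lit 450017) (.g (nat_lit 3425) (.e (nat_lit 2477) (nat_lit 157) (.e (nat_lit 2663) (nat_lit 167) (.e (nat_lit 196666) (nat_lit 13) (.e (nat_lit 65610) (nat_lit 10) (.e (nat_lit 344117) (nat_lit 21) (.e (nat_lit 516151) (nat_lit 9) (.e (nat_lit 426017) (nat_lit 0) (.e (nat_lit 2437) (nat_lit 157) (.e (nat_lit 4817) (nat_lit 281) .nil))))))))) (.g (nat_lit 1) (.e (nat_lit 14259) (nat_lit 0) .nil) .nil))) 
(.lf (nat_lit 450529) (.g (nat_lit 3797) (.e (nat_lit 2559) (nat_lit 159) (.e (nat_lit 24640) (nat_lit 10) (.e (nat_lit 344156) (nat_lit 36) (.e (nat_lit 638985) (nat_lit 5) (.e (nat_lit 3015) (nat_lit 187) (.e (nat_lit 450562) (nat_lit 0) (.e (nat_lit 5812) (nat_lit 320) .nil))))))) (.g (nat_lit 1) (.e (nat_lit 16292) (nat_lit 0) .nil) .nil)))))))) 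
(.nd (nat_lit 5) (.nd (nat_lit 6) (.nd (nat_lit 7) (.nd (nat_lit 8) (.nd (nat_lit 9) 
(.lf (nat_lit 449553) (.g (nat_lit 3513) (.e (nat_lit 883) (nat_lit 75) (.e (nat_lit 778465) (nat_lit 11) (.e (nat_lit 24616) (nat_lit 7) (.e (nat_lit 319530) (nat_lit 16) (.e (nat_lit 286759) (nat_lit 12) (.e (nat_lit 385115) (nat_lit 53) (.e (nat_lit 811034) (nat_lit 11) .nil))))))) (.g (nat_lit 1) (.e (nat_lit 12630) (nat_lit 0) .nil) .nil))) 
(.lf (nat_lit 450065) (.g (nat_lit 2485) (.e (nat_lit 2478) (nat_lit 157) (.e (nat_lit 5224) (nat_lit 296) (.e (nat_lit 163903) (nat_lit 12) (.e (nat_lit 426566) (nat_lit 34) (.e (nat_lit 393296) (nat_lit 26) (.e (nat_lit 475176) (nat_lit 24) (.e (nat_lit 516106) (nat_lit 0) .nil))))))) (.g (nat_lit 1) (.e (nat_lit 14354) (nat_lit 0) .nil) .nil)))) (.nd (nat_lit 9) 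
(.lf (nat_lit 449809) (.g (nat_lit 3166) (.e (nat_lit 2433) (nat_lit 157) (.e (nat_lit 2668) (nat_lit 167) (.e (nat_lit 196686) (nat_lit 18) (.e (nat_lit 1385) (nat_lit 105) (.e (nat_lit 311343) (nat_lit 13) (.e (nat_lit 483341) (nat_lit 9) (.e (nat_lit 426145) (nat_lit 4) (.e (nat_lit 229666) (nat_lit 240) .nil)))))))) (.g (nat_lit 1) (.e (nat_lit 13427) (nat_lit 0) .nil) .nil))) 
(.lf (nat_lit 450321) (.g (nat_lit 2889) (.e (nat_lit 2551) (nat_lit 159) (.e (nat_lit 24640) (nat_lit 10) (.e (nat_lit 344156) (nat_lit 36) (.e (nat_lit 638998) (nat_lit 8) (.e (nat_lit 172113) (nat_lit 10) (.e (nat_lit 434203) (nat_lit 18) (.e (nat_lit 5847) (nat_lit 320) .nil))))))) (.g (nat_lit 1) (.e (nat_lit 15466) (nat_lit 0) .nil) .nil))))) (.nd (nat_lit 8) (.nd (nat_lit 9) 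
(.lf (nat_lit 449681) (.g (nat_lit 4766) (.e (nat_lit 2397) (nat_lit 157) (.e (nat_lit 4847) (nat_lit 285) (.e (nat_lit 163870) (nat_lit 2) (.e (nat_lit 196666) (nat_lit 13) (.e (nat_lit 65610) (nat_lit 10) (.e (nat_lit 344117) (nat_lit 21) (.e (nat_lit 516151) (nat_lit 9) (.e (nat_lit 426023) (nat_lit 0) .nil)))))))) (.g (nat_lit 1) (.e (nat_lit 12922) (nat_lit 0) .nil) .nil))) 
(.lf (nat_lit 450193) (.g (nat_lit 2859) (.e (nat_lit 2508) (nat_lit 157) (.e (nat_lit 3249) (nat_lit 197) (.e (nat_lit 532569) (nat_lit 16) (.e (nat_lit 401448) (nat_lit 10) (.e (nat_lit 434234) (nat_lit 23) (.e (nat_lit 532523) (nat_lit 7) (.e (nat_lit 319504) (nat_lit 10) (.e (nat_lit 5712) (nat_lit 312) .nil)))))))) (.g (nat_lit 1) (.e (nat_lit 15007) (nat_lit 0) .nil) .nil)))) 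
(.nd (nat_lit 9) 
(.lf (nat_lit 449937) (.g (nat_lit 4516) (.e (nat_lit 2458) (nat_lit 157) (.e (nat_lit 5547) (nat_lit 306) (.e (nat_lit 2601) (nat_lit 163) (.e (nat_lit 163977) (nat_lit 30) (.e (nat_lit 573485) (nat_lit 13) (.e (nat_lit 65604) (nat_lit 9) (.e (nat_lit 336013) (nat_lit 2) (.e (nat_lit 90170) (nat_lit 13) (.e (nat_lit 172046) (nat_lit 0) .nil))))))))) (.g (nat_lit 1) (.e (nat_lit 14014) (nat_lit 0) .nil) .nil))) 
(.lf (nat_lit 450449) (.g (nat_lit 4517) (.e (nat_lit 2555) (nat_lit 159) (.e (nat_lit 24662) (nat_lit 14) (.e (nat_lit 401425) (nat_lit 2) (.e (nat_lit 196666) (nat_lit 13) (.e (nat_lit 65617) (nat_lit 10) .nil))))) (.g (nat_lit 0) (.e (nat_lit 15941) (nat_lit 0) .nil) .nil)))))) (.nd (nat_lit 7) (.nd (nat_lit 8) (.nd (nat_lit 9) 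
(.lf (nat_lit 449617) (.g (nat_lit 1550) (.e (nat_lit 890) (nat_lit 75) (.e (nat_lit 778462) (nat_lit 11) (.e (nat_lit 24660) (nat_lit 13) (.e (nat_lit 393259) (nat_lit 21) (.e (nat_lit 409636) (nat_lit 14) .nil))))) (.g (nat_lit 0) (.e (nat_lit 12716) (nat_lit 0) .nil) .nil))) 
(.lf (nat_lit 450129) (.g (nat_lit 2210) (.e (nat_lit 2505) (nat_lit 157) (.e (nat_lit 3249) (nat_lit 197) (.e (nat_lit 532499) (nat_lit 1) (.e (nat_lit 57926) (nat_lit 282) (.e (nat_lit 163869) (nat_lit 2) (.e (nat_lit 196670) (nat_lit 14) (.e (nat_lit 73746) (nat_lit 3) (.e (nat_lit 516124) (nat_lit 2) (.e (nat_lit 213013) (nat_lit 9) .nil))))))))) (.g (nat_lit 1) (.e (nat_lit 14705) (nat_lit 0) .nil) .nil)))) 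
(.nd (nat_lit 9) 
(.lf (nat_lit 449873) (.g (nat_lit 2382) (.e (nat_lit 2448) (nat_lit 157) (.e (nat_lit 3098) (nat_lit 192) (.e (nat_lit 491566) (nat_lit 12) (.e (nat_lit 385063) (nat_lit 25) .nil)))) (.g (nat_lit 0) (.e (nat_lit 13741) (nat_lit 0) .nil) .nil))) 
(.lf (nat_lit 450385) (.g (nat_lit 3861) (.e (nat_lit 2553) (nat_lit 159) (.e (nat_lit 24608) (nat_lit 3) (.e (nat_lit 98373) (nat_lit 29) (.e (nat_lit 450587) (nat_lit 10) (.e (nat_lit 573475) (nat_lit 12) (.e (nat_lit 57346) (nat_lit 0) (.e (nat_lit 7408) (nat_lit 396) .nil))))))) (.g (nat_lit 1) (.e (nat_lit 15723) (nat_lit 0) .nil) .nil))))) (.nd (nat_lit 8) (.nd (nat_lit 9) 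
(.lf (nat_lit 449745) (.g (nat_lit 2486) (.e (nat_lit 2416) (nat_lit 157) (.e (nat_lit 2666) (nat_lit 167) (.e (nat_lit 196666) (nat_lit 13) (.e (nat_lit 65610) (nat_lit 10) (.e (nat_lit 344117) (nat_lit 21) (.e (nat_lit 516159) (nat_lit 10) (.e (nat_lit 434209) (nat_lit 18) (.e (nat_lit 4814) (nat_lit 281) .nil)))))))) (.g (nat_lit 1) (.e (nat_lit 13162) (nat_lit 0) .nil) .nil))) 
(.lf (nat_lit 450257) (.g (nat_lit 1937) (.e (nat_lit 2527) (nat_lit 157) (.e (nat_lit 5195) (nat_lit 294) (.e (nat_lit 57437) (nat_lit 17) (.e (nat_lit 376860) (nat_lit 21) (.e (nat_lit 57830) (nat_lit 250) .nil))))) (.g (nat_lit 0) (.e (nat_lit 15341) (nat_lit 0) .nil) .nil)))) (.nd (nat_lit 9) 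
(.lf (nat_lit 450001) (.g (nat_lit 5138) (.e (nat_lit 2467) (nat_lit 157) (.e (nat_lit 3469) (nat_lit 217) (.e (nat_lit 696344) (nat_lit 8) (.e (nat_lit 172078) (nat_lit 7) (.e (nat_lit 409646) (nat_lit 18) (.e (nat_lit 303140) (nat_lit 10) (.e (nat_lit 434275) (nat_lit 39) (.e (nat_lit 663574) (nat_lit 9) .nil)))))))) (.g (nat_lit 1) (.e (nat_lit 14182) (nat_lit 0) .nil) .nil))) 
(.lf (nat_lit 450513) (.g (nat_lit 1649) (.e (nat_lit 2558) (nat_lit 159) (.e (nat_lit 24660) (nat_lit 13) (.e (nat_lit 393260) (nat_lit 21) (.e (nat_lit 409616) (nat_lit 10) .nil)))) (.g (nat_lit 0) (.e (nat_lit 16218) (nat_lit 0) .nil) .nil))))))) (.nd (nat_lit 6) (.nd (nat_lit 7) (.nd (nat_lit 8) (.nd (nat_lit 9) 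
(.lf (nat_lit 449585) (.g (nat_lit 2167) (.e (nat_lit 883) (nat_lit 75) (.e (nat_lit 778465) (nat_lit 11) (.e (nat_lit 24617) (nat_lit 7) (.e (nat_lit 319534) (nat_lit 16) (.e (nat_lit 286759) (nat_lit 12) (.e (nat_lit 385094) (nat_lit 49) (.e (nat_lit 778510) (nat_lit 14) (.e (nat_lit 982) (nat_lit 81) .nil)))))))) (.g (nat_lit 1) (.e (nat_lit 12663) (nat_lit 0) .nil) .nil))) 
(.lf (nat_lit 450097) (.g (nat_lit 4777) (.e (nat_lit 2472) (nat_lit 157) (.e (nat_lit 3307) (nat_lit 202) (.e (nat_lit 573489) (nat_lit 14) (.e (nat_lit 73755) (nat_lit 8) (.e (nat_lit 557105) (nat_lit 14) (.e (nat_lit 180252) (nat_lit 10) (.e (nat_lit 573474) (nat_lit 12) (.e (nat_lit 57504) (nat_lit 38) (.e (nat_lit 638983) (nat_lit 5) .nil))))))))) (.g (nat_lit 1) (.e (nat_lit 14450) (nat_lit 0) .nil) .nil)))) 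
(.nd (nat_lit 9) 
(.lf (nat_lit 449841) (.g (nat_lit 2584) (.e (nat_lit 2444) (nat_lit 157) (.e (nat_lit 2668) (nat_lit 167) (.e (nat_lit 196666) (nat_lit 13) (.e (nat_lit 65610) (nat_lit 10) (.e (nat_lit 344117) (nat_lit 21) .nil))))) (.g (nat_lit 0) (.e (nat_lit 13623) (nat_lit 0) .nil) .nil))) 
(.lf (nat_lit 450353) (.g (nat_lit 2793) (.e (nat_lit 2551) (nat_lit 159) (.e (nat_lit 24662) (nat_lit 14) (.e (nat_lit 401459) (nat_lit 13) (.e (nat_lit 483403) (nat_lit 26) .nil)))) (.g (nat_lit 0) (.e (nat_lit 15515) (nat_lit 0) .nil) .nil))))) (.nd (nat_lit 8) (.nd (nat_lit 9) 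
(.lf (nat_lit 449713) (.g (nat_lit 4873) (.e (nat_lit 2400) (nat_lit 157) (.e (nat_lit 7590) (nat_lit 407) (.e (nat_lit 73747) (nat_lit 3) (.e (nat_lit 516139) (nat_lit 7) (.e (nat_lit 409641) (nat_lit 17) (.e (nat_lit 294928) (nat_lit 2) (.e (nat_lit 90133) (nat_lit 9) .nil))))))) (.g (nat_lit 1) (.e (nat_lit 13048) (nat_lit 0) .nil) .nil))) 
(.lf (nat_lit 450225) (.g (nat_lit 2111) (.e (nat_lit 2515) (nat_lit 157) (.e (nat_lit 2681) (nat_lit 168) (.e (nat_lit 204863) (nat_lit 27) (.e (nat_lit 344132) (nat_lit 26) (.e (nat_lit 557100) (nat_lit 13) .nil))))) (.g (nat_lit 0) (.e (nat_lit 15181) (nat_lit 0) .nil) .nil)))) (.nd (nat_lit 9) 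
(.lf (nat_lit 449969) (.g (nat_lit 2678) (.e (nat_lit 2462) (nat_lit 157) (.e (nat_lit 3307) (nat_lit 202) (.e (nat_lit 573489) (nat_lit 14) (.e (nat_lit 73755) (nat_lit 8) (.e (nat_lit 557105) (nat_lit 14) .nil))))) (.g (nat_lit 0) (.e (nat_lit 14121) (nat_lit 0) .nil) .nil))) 
(.lf (nat_lit 450481) (.g (nat_lit 1410) (.e (nat_lit 2557) (nat_lit 159) (.e (nat_lit 24608) (nat_lit 3) (.e (nat_lit 98373) (nat_lit 29) .nil))) (.g (nat_lit 0) (.e (nat_lit 16137) (nat_lit 0) .nil) .nil)))))) (.nd (nat_lit 7) (.nd (nat_lit 8) (.nd (nat_lit 9) 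
(.lf (nat_lit 449649) (.g (nat_lit 4020) (.e (nat_lit 720) (nat_lit 64) (.e (nat_lit 688177) (nat_lit 16) (.e (nat_lit 65616) (nat_lit 10) (.e (nat_lit 344179) (nat_lit 44) (.e (nat_lit 778466) (nat_lit 11) (.e (nat_lit 24617) (nat_lit 7) (.e (nat_lit 319505) (nat_lit 10) .nil))))))) (.g (nat_lit 1) (.e (nat_lit 12852) (nat_lit 0) .nil) .nil))) 
(.lf (nat_lit 450161) (.g (nat_lit 3519) (.e (nat_lit 2508) (nat_lit 157) (.e (nat_lit 3062) (nat_lit 190) (.e (nat_lit 475185) (nat_lit 29) (.e (nat_lit 557100) (nat_lit 13) (.e (nat_lit 172106) (nat_lit 10) (.e (nat_lit 434231) (nat_lit 23) (.e (nat_lit 532500) (nat_lit 1) (.e (nat_lit 57761) (nat_lit 215) .nil)))))))) (.g (nat_lit 1) (.e (nat_lit 14890) (nat_lit 0) .nil) .nil)))) 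
(.nd (nat_lit 9) 
(.lf (nat_lit 449905) (.g (nat_lit 3453) (.e (nat_lit 2458) (nat_lit 157) (.e (nat_lit 3388) (nat_lit 210) (.e (nat_lit 639020) (nat_lit 16) (.e (nat_lit 65571) (nat_lit 3) (.e (nat_lit 98370) (nat_lit 28) (.e (nat_lit 442433) (nat_lit 25) (.e (nat_lit 245768) (nat_lit 0) .nil))))))) (.g (nat_lit 1) (.e (nat_lit 13908) (nat_lit 0) .nil) .nil))) 
(.lf (nat_lit 450417) (.g (nat_lit 3795) (.e (nat_lit 2554) (nat_lit 159) (.e (nat_lit 24608) (nat_lit 3) (.e (nat_lit 98373) (nat_lit 29) (.e (nat_lit 450587) (nat_lit 10) (.e (nat_lit 573475) (nat_lit 12) (.e (nat_lit 57346) (nat_lit 0) (.e (nat_lit 7461) (nat_lit 396) .nil))))))) (.g (nat_lit 1) (.e (nat_lit 15797) (nat_lit 0) .nil) .nil))))) (.nd (nat_lit 8) (.nd (nat_lit 9) 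
(.lf (nat_lit 449777) (.g (nat_lit 1848) (.e (nat_lit 2426) (nat_lit 157) (.e (nat_lit 632) (nat_lit 50) (.e (nat_lit 573485) (nat_lit 13) (.e (nat_lit 65604) (nat_lit 9) (.e (nat_lit 336028) (nat_lit 3) .nil))))) (.g (nat_lit 0) (.e (nat_lit 13277) (nat_lit 0) .nil) .nil))) 
(.lf (nat_lit 450289) (.g (nat_lit 2391) (.e (nat_lit 2551) (nat_lit 159) (.e (nat_lit 24640) (nat_lit 10) (.e (nat_lit 344156) (nat_lit 36) (.e (nat_lit 638985) (nat_lit 5) (.e (nat_lit 3015) (nat_lit 187) (.e (nat_lit 450563) (nat_lit 0) (.e (nat_lit 5800) (nat_lit 320) .nil))))))) (.g (nat_lit 1) (.e (nat_lit 15433) (nat_lit 0) .nil) .nil)))) (.nd (nat_lit 9) 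
(.lf (nat_lit 450033) (.g (nat_lit 3522) (.e (nat_lit 2477) (nat_lit 157) (.e (nat_lit 2663) (nat_lit 167) (.e (nat_lit 196666) (nat_lit 13) (.e (nat_lit 65610) (nat_lit 10) (.e (nat_lit 344117) (nat_lit 21) (.e (nat_lit 516151) (nat_lit 9) (.e (nat_lit 426040) (nat_lit 0) (.e (nat_lit 2515) (nat_lit 157) (.e (nat_lit 4823) (nat_lit 281) .nil))))))))) (.g (nat_lit 1) (.e (nat_lit 14275) (nat_lit 0) .nil) .nil))) 
(.lf (nat_lit 450545) (.g (nat_lit 4722) (.e (nat_lit 2559) (nat_lit 159) (.e (nat_lit 24658) (nat_lit 13) (.e (nat_lit 393301) (nat_lit 27) (.e (nat_lit 491560) (nat_lit 10) (.e (nat_lit 344088) (nat_lit 18) .nil))))) (.g (nat_lit 0) (.e (nat_lit 16309) (nat_lit 0) .nil) .nil))))))))) (.nd (nat_lit 4) (.nd (nat_lit 5) (.nd (nat_lit 6) (.nd (nat_lit 7) (.nd (nat_lit 8) (.nd (nat_lit 9) 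
(.lf (nat_lit 449545) (.g (nat_lit 2010) (.e (nat_lit 883) (nat_lit 75) (.e (nat_lit 778464) (nat_lit 11) (.e (nat_lit 24617) (nat_lit 7) (.e (nat_lit 319533) (nat_lit 16) (.e (nat_lit 286758) (nat_lit 12) .nil))))) (.g (nat_lit 0) (.e (nat_lit 12619) (nat_lit 0) .nil) .nil))) 
(.lf (nat_lit 450057) (.g (nat_lit 2427) (.e (nat_lit 2478) (nat_lit 157) (.e (nat_lit 2666) (nat_lit 167) (.e (nat_lit 196666) (nat_lit 13) (.e (nat_lit 65610) (nat_lit 10) (.e (nat_lit 344117) (nat_lit 21) (.e (nat_lit 516151) (nat_lit 9) (.e (nat_lit 426022) (nat_lit 0) (.e (nat_lit 2402) (nat_lit 157) (.e (nat_lit 4830) (nat_lit 281) .nil))))))))) (.g (nat_lit 1) (.e (nat_lit 14313) (nat_lit 0) .nil) .nil)))) 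
(.nd (nat_lit 9) 
(.lf (nat_lit 449801) (.g (nat_lit 1873) (.e (nat_lit 2433) (nat_lit 157) (.e (nat_lit 2668) (nat_lit 167) (.e (nat_lit 196666) (nat_lit 13) (.e (nat_lit 65610) (nat_lit 10) (.e (nat_lit 344117) (nat_lit 21) (.e (nat_lit 516159) (nat_lit 10) (.e (nat_lit 434200) (nat_lit 18) (.e (nat_lit 4762) (nat_lit 281) .nil)))))))) (.g (nat_lit 1) (.e (nat_lit 13408) (nat_lit 0) .nil) .nil))) 
(.lf (nat_lit 450313) (.g (nat_lit 3815) (.e (nat_lit 2551) (nat_lit 159) (.e (nat_lit 24640) (nat_lit 10) (.e (nat_lit 344156) (nat_lit 36) (.e (nat_lit 638998) (nat_lit 8) (.e (nat_lit 172113) (nat_lit 10) (.e (nat_lit 434203) (nat_lit 18) (.e (nat_lit 5811) (nat_lit 320) .nil))))))) (.g (nat_lit 1) (.e (nat_lit 15458) (nat_lit 0) .nil) .nil))))) (.nd (nat_lit 8) (.nd (nat_lit 9) 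
(.lf (nat_lit 449673) (.g (nat_lit 2369) (.e (nat_lit 789) (nat_lit 66) (.e (nat_lit 704738) (nat_lit 11) (.e (nat_lit 16425) (nat_lit 7) (.e (nat_lit 409646) (nat_lit 18) .nil)))) (.g (nat_lit 0) (.e (nat_lit 12894) (nat_lit 0) .nil) .nil))) 
(.lf (nat_lit 450185) (.g (nat_lit 3285) (.e (nat_lit 2508) (nat_lit 157) (.e (nat_lit 3249) (nat_lit 197) (.e (nat_lit 532569) (nat_lit 16) (.e (nat_lit 401440) (nat_lit 9) (.e (nat_lit 426132) (nat_lit 3) (.e (nat_lit 204846) (nat_lit 24) (.e (nat_lit 319505) (nat_lit 10) (.e (nat_lit 5712) (nat_lit 312) .nil)))))))) (.g (nat_lit 1) (.e (nat_lit 14995) (nat_lit 0) .nil) .nil)))) 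
(.nd (nat_lit 9) 
(.lf (nat_lit 449929) (.g (nat_lit 476) (.e (nat_lit 2458) (nat_lit 157) (.e (nat_lit 5546) (nat_lit 306) (.e (nat_lit 2640) (nat_lit 165) .nil))) (.g (nat_lit 0) (.e (nat_lit 13983) (nat_lit 0) .nil) .nil))) 
(.lf (nat_lit 450441) (.g (nat_lit 2461) (.e (nat_lit 2555) (nat_lit 159) (.e (nat_lit 24617) (nat_lit 7) (.e (nat_lit 319534) (nat_lit 16) (.e (nat_lit 286756) (nat_lit 10) (.e (nat_lit 344160) (nat_lit 37) (.e (nat_lit 647200) (nat_lit 12) (.e (nat_lit 57352) (nat_lit 0) (.e (nat_lit 7464) (nat_lit 396) .nil)))))))) (.g (nat_lit 1) (.e (nat_lit 15915) (nat_lit 0) .nil) .nil)))))) 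
(.nd (nat_lit 7) (.nd (nat_lit 8) (.nd (nat_lit 9) 
(.lf (nat_lit 449609) (.g (nat_lit 2337) (.e (nat_lit 883) (nat_lit 75) (.e (nat_lit 778466) (nat_lit 11) (.e (nat_lit 24617) (nat_lit 7) (.e (nat_lit 319533) (nat_lit 16) (.e (nat_lit 286758) (nat_lit 12) .nil))))) (.g (nat_lit 0) (.e (nat_lit 12691) (nat_lit 0) .nil) .nil))) 
(.lf (nat_lit 450121) (.g (nat_lit 2818) (.e (nat_lit 2505) (nat_lit 157) (.e (nat_lit 3062) (nat_lit 190) (.e (nat_lit 475185) (nat_lit 29) (.e (nat_lit 557107) (nat_lit 15) (.e (nat_lit 188450) (nat_lit 23) .nil))))) (.g (nat_lit 0) (.e (nat_lit 14685) (nat_lit 0) .nil) .nil)))) (.nd (nat_lit 9) 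
(.lf (nat_lit 449865) (.g (nat_lit 4561) (.e (nat_lit 2445) (nat_lit 157) (.e (nat_lit 3098) (nat_lit 192) (.e (nat_lit 491569) (nat_lit 13) (.e (nat_lit 393301) (nat_lit 27) (.e (nat_lit 491559) (nat_lit 10) (.e (nat_lit 344091) (nat_lit 18) (.e (nat_lit 6869) (nat_lit 371) .nil))))))) (.g (nat_lit 1) (.e (nat_lit 13718) (nat_lit 0) .nil) .nil))) 
(.lf (nat_lit 450377) (.g (nat_lit 2679) (.e (nat_lit 2553) (nat_lit 159) (.e (nat_lit 24608) (nat_lit 3) (.e (nat_lit 98365) (nat_lit 26) (.e (nat_lit 426100) (nat_lit 1) (.e (nat_lit 164332) (nat_lit 230) (.e (nat_lit 163874) (nat_lit 3) (.e (nat_lit 204829) (nat_lit 18) (.e (nat_lit 57904) (nat_lit 278) .nil)))))))) (.g (nat_lit 1) (.e (nat_lit 15714) (nat_lit 0) .nil) .nil))))) 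
(.nd (nat_lit 8) (.nd (nat_lit 9) 
(.lf (nat_lit 449737) (.g (nat_lit 2648) (.e (nat_lit 2410) (nat_lit 157) (.e (nat_lit 5626) (nat_lit 312) (.e (nat_lit 2668) (nat_lit 167) (.e (nat_lit 196666) (nat_lit 13) (.e (nat_lit 65610) (nat_lit 10) (.e (nat_lit 344117) (nat_lit 21) (.e (nat_lit 516106) (nat_lit 0) (.e (nat_lit 6966) (nat_lit 377) .nil)))))))) (.g (nat_lit 1) (.e (nat_lit 13145) (nat_lit 0) .nil) .nil))) 
(.lf (nat_lit 450249) (.g (nat_lit 2355) (.e (nat_lit 2532) (nat_lit 157) (.e (nat_lit 2666) (nat_lit 167) (.e (nat_lit 196666) (nat_lit 13) (.e (nat_lit 65610) (nat_lit 10) (.e (nat_lit 344117) (nat_lit 21) .nil))))) (.g (nat_lit 0) (.e (nat_lit 15291) (nat_lit 0) .nil) .nil)))) (.nd (nat_lit 9) 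
(.lf (nat_lit 449993) (.g (nat_lit 1884) (.e (nat_lit 2467) (nat_lit 157) (.e (nat_lit 3307) (nat_lit 202) (.e (nat_lit 573489) (nat_lit 14) (.e (nat_lit 73755) (nat_lit 8) .nil)))) (.g (nat_lit 0) (.e (nat_lit 14168) (nat_lit 0) .nil) .nil))) 
(.lf (nat_lit 450505) (.g (nat_lit 2770) (.e (nat_lit 2558) (nat_lit 159) (.e (nat_lit 24640) (nat_lit 10) (.e (nat_lit 344156) (nat_lit 36) (.e (nat_lit 638985) (nat_lit 5) (.e (nat_lit 3015) (nat_lit 187) (.e (nat_lit 450562) (nat_lit 0) (.e (nat_lit 5797) (nat_lit 320) .nil))))))) (.g (nat_lit 1) (.e (nat_lit 16209) (nat_lit 0) .nil) .nil))))))) 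
(.nd (nat_lit 6) (.nd (nat_lit 7) (.nd (nat_lit 8) (.nd (nat_lit 9) 
(.lf (nat_lit 449577) (.g (nat_lit 3306) (.e (nat_lit 883) (nat_lit 75) (.e (nat_lit 778465) (nat_lit 11) (.e (nat_lit 24617) (nat_lit 7) (.e (nat_lit 319533) (nat_lit 16) (.e (nat_lit 286758) (nat_lit 12) (.e (nat_lit 385115) (nat_lit 53) (.e (nat_lit 811031) (nat_lit 11) .nil))))))) (.g (nat_lit 1) (.e (nat_lit 12655) (nat_lit 0) .nil) .nil))) 
(.lf (nat_lit 450089) (.g (nat_lit 3436) (.e (nat_lit 2472) (nat_lit 157) (.e (nat_lit 3307) (nat_lit 202) (.e (nat_lit 573485) (nat_lit 13) (.e (nat_lit 65604) (nat_lit 9) (.e (nat_lit 336013) (nat_lit 2) (.e (nat_lit 90170) (nat_lit 13) (.e (nat_lit 172042) (nat_lit 0) (.e (nat_lit 3409) (nat_lit 212) (.e (nat_lit 655364) (nat_lit 0) .nil))))))))) (.g (nat_lit 1) (.e (nat_lit 14440) (nat_lit 0) .nil) .nil)))) 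
(.nd (nat_lit 9) 
(.lf (nat_lit 449833) (.g (nat_lit 1948) (.e (nat_lit 2440) (nat_lit 157) (.e (nat_lit 3114) (nat_lit 193) (.e (nat_lit 500075) (nat_lit 20) (.e (nat_lit 81955) (nat_lit 23) (.e (nat_lit 98350) (nat_lit 24) (.e (nat_lit 409623) (nat_lit 10) (.e (nat_lit 5664) (nat_lit 312) .nil))))))) (.g (nat_lit 1) (.e (nat_lit 13545) (nat_lit 0) .nil) .nil))) 
(.lf (nat_lit 450345) (.g (nat_lit 2010) (.e (nat_lit 2551) (nat_lit 159) (.e (nat_lit 24653) (nat_lit 12) (.e (nat_lit 385102) (nat_lit 50) (.e (nat_lit 786483) (nat_lit 30) (.e (nat_lit 360451) (nat_lit 0) (.e (nat_lit 4764) (nat_lit 281) .nil)))))) (.g (nat_lit 1) (.e (nat_lit 15492) (nat_lit 0) .nil) .nil))))) (.nd (nat_lit 8) (.nd (nat_lit 9) 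
(.lf (nat_lit 449705) (.g (nat_lit 1754) (.e (nat_lit 2400) (nat_lit 157) (.e (nat_lit 7485) (nat_lit 402) (.e (nat_lit 1642) (nat_lit 114) (.e (nat_lit 385074) (nat_lit 31) (.e (nat_lit 573491) (nat_lit 15) .nil))))) (.g (nat_lit 0) (.e (nat_lit 13029) (nat_lit 0) .nil) .nil))) 
(.lf (nat_lit 450217) (.g (nat_lit 3396) (.e (nat_lit 2518) (nat_lit 157) (.e (nat_lit 2663) (nat_lit 167) (.e (nat_lit 196666) (nat_lit 13) (.e (nat_lit 65610) (nat_lit 10) (.e (nat_lit 344117) (nat_lit 21) (.e (nat_lit 516151) (nat_lit 9) (.e (nat_lit 426017) (nat_lit 0) (.e (nat_lit 2430) (nat_lit 157) (.e (nat_lit 4751) (nat_lit 281) .nil))))))))) (.g (nat_lit 1) (.e (nat_lit 15159) (nat_lit 0) .nil) .nil)))) 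
(.nd (nat_lit 9) 
(.lf (nat_lit 449961) (.g (nat_lit 2723) (.e (nat_lit 2461) (nat_lit 157) (.e (nat_lit 3307) (nat_lit 202) (.e (nat_lit 573489) (nat_lit 14) (.e (nat_lit 73755) (nat_lit 8) (.e (nat_lit 557105) (nat_lit 14) (.e (nat_lit 180252) (nat_lit 10) (.e (nat_lit 573473) (nat_lit 12) (.e (nat_lit 57504) (nat_lit 38) (.e (nat_lit 638985) (nat_lit 5) .nil))))))))) (.g (nat_lit 1) (.e (nat_lit 14096) (nat_lit 0) .nil) .nil))) 
(.lf (nat_lit 450473) (.g (nat_lit 2071) (.e (nat_lit 2556) (nat_lit 159) (.e (nat_lit 24665) (nat_lit 14) (.e (nat_lit 401423) (nat_lit 2) (.e (nat_lit 196666) (nat_lit 13) (.e (nat_lit 65610) (nat_lit 10) (.e (nat_lit 344090) (nat_lit 18) (.e (nat_lit 4068) (nat_lit 245) .nil))))))) (.g (nat_lit 1) (.e (nat_lit 16091) (nat_lit 0) .nil) .nil)))))) 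
(.nd (nat_lit 7) (.nd (nat_lit 8) (.nd (nat_lit 9) 
(.lf (nat_lit 449641) (.g (nat_lit 3171) (.e (nat_lit 934) (nat_lit 76) (.e (nat_lit 786483) (nat_lit 30) (.e (nat_lit 360475) (nat_lit 8) (.e (nat_lit 557119) (nat_lit 18) (.e (nat_lit 2808) (nat_lit 180) (.e (nat_lit 303123) (nat_lit 7) (.e (nat_lit 409612) (nat_lit 10) .nil))))))) (.g (nat_lit 1) (.e (nat_lit 12832) (nat_lit 0) .nil) .nil))) 
(.lf (nat_lit 450153) (.g (nat_lit 5152) (.e (nat_lit 2505) (nat_lit 157) (.e (nat_lit 5626) (nat_lit 312) (.e (nat_lit 2668) (nat_lit 167) (.e (nat_lit 196666) (nat_lit 13) (.e (nat_lit 65610) (nat_lit 10) (.e (nat_lit 344117) (nat_lit 21) (.e (nat_lit 516106) (nat_lit 0) (.e (nat_lit 6986) (nat_lit 377) .nil)))))))) (.g (nat_lit 1) (.e (nat_lit 14836) (nat_lit 0) .nil) .nil)))) (.nd (nat_lit 9) 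
(.lf (nat_lit 449897) (.g (nat_lit 3407) (.e (nat_lit 2454) (nat_lit 157) (.e (nat_lit 2663) (nat_lit 167) (.e (nat_lit 196666) (nat_lit 13) (.e (nat_lit 65610) (nat_lit 10) (.e (nat_lit 344117) (nat_lit 21) (.e (nat_lit 516151) (nat_lit 9) (.e (nat_lit 426037) (nat_lit 0) (.e (nat_lit 2422) (nat_lit 157) (.e (nat_lit 4778) (nat_lit 281) .nil))))))))) (.g (nat_lit 1) (.e (nat_lit 13875) (nat_lit 0) .nil) .nil))) 
(.lf (nat_lit 450409) (.g (nat_lit 1705) (.e (nat_lit 2553) (nat_lit 159) (.e (nat_lit 24660) (nat_lit 13) (.e (nat_lit 393260) (nat_lit 21) (.e (nat_lit 409648) (nat_lit 18) (.e (nat_lit 303104) (nat_lit 0) .nil))))) (.g (nat_lit 0) (.e (nat_lit 15758) (nat_lit 0) .nil) .nil))))) (.nd (nat_lit 8) (.nd (nat_lit 9) 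
(.lf (nat_lit 449769) (.g (nat_lit 2735) (.e (nat_lit 2424) (nat_lit 157) (.e (nat_lit 3497) (nat_lit 218) (.e (nat_lit 704738) (nat_lit 11) (.e (nat_lit 16425) (nat_lit 7) (.e (nat_lit 409649) (nat_lit 18) .nil))))) (.g (nat_lit 0) (.e (nat_lit 13258) (nat_lit 0) .nil) .nil))) 
(.lf (nat_lit 450281) (.g (nat_lit 2353) (.e (nat_lit 2551) (nat_lit 159) (.e (nat_lit 24617) (nat_lit 7) (.e (nat_lit 319505) (nat_lit 10) (.e (nat_lit 618) (nat_lit 48) (.e (nat_lit 557101) (nat_lit 13) .nil))))) (.g (nat_lit 0) (.e (nat_lit 15412) (nat_lit 0) .nil) .nil)))) (.nd (nat_lit 9) 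
(.lf (nat_lit 450025) (.g (nat_lit 3546) (.e (nat_lit 2477) (nat_lit 157) (.e (nat_lit 2663) (nat_lit 167) (.e (nat_lit 196666) (nat_lit 13) (.e (nat_lit 65610) (nat_lit 10) (.e (nat_lit 344117) (nat_lit 21) (.e (nat_lit 516151) (nat_lit 9) (.e (nat_lit 426034) (nat_lit 0) (.e (nat_lit 2425) (nat_lit 157) (.e (nat_lit 4818) (nat_lit 281) .nil))))))))) (.g (nat_lit 1) (.e (nat_lit 14267) (nat_lit 0) .nil) .nil))) 
(.lf (nat_lit 450537) (.g (nat_lit 3631) (.e (nat_lit 2559) (nat_lit 159) (.e (nat_lit 24640) (nat_lit 10) (.e (nat_lit 344156) (nat_lit 36) (.e (nat_lit 638998) (nat_lit 8) (.e (nat_lit 172113) (nat_lit 10) (.e (nat_lit 434203) (nat_lit 18) (.e (nat_lit 5811) (nat_lit 320) .nil))))))) (.g (nat_lit 1) (.e (nat_lit 16301) (nat_lit 0) .nil) .nil)))))))) 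
(.nd (nat_lit 5) (.nd (nat_lit 6) (.nd (nat_lit 7) (.nd (nat_lit 8) (.nd (nat_lit 9) 
(.lf (nat_lit 449561) (.g (nat_lit 2047) (.e (nat_lit 883) (nat_lit 75) (.e (nat_lit 778465) (nat_lit 11) (.e (nat_lit 24617) (nat_lit 7) (.e (nat_lit 319529) (nat_lit 16) (.e (nat_lit 286759) (nat_lit 12) (.e (nat_lit 385113) (nat_lit 53) (.e (nat_lit 811031) (nat_lit 11) .nil))))))) (.g (nat_lit 1) (.e (nat_lit 12639) (nat_lit 0) .nil) .nil))) 
(.lf (nat_lit 450073) (.g (nat_lit 2171) (.e (nat_lit 2478) (nat_lit 157) (.e (nat_lit 6401) (nat_lit 339) (.e (nat_lit 57409) (nat_lit 12) (.e (nat_lit 336456) (nat_lit 34) (.e (nat_lit 483394) (nat_lit 24) (.e (nat_lit 344117) (nat_lit 21) (.e (nat_lit 516106) (nat_lit 0) .nil))))))) (.g (nat_lit 1) (.e (nat_lit 14384) (nat_lit 0) .nil) .nil)))) (.nd (nat_lit 9) 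
(.lf (nat_lit 449817) (.g (nat_lit 3553) (.e (nat_lit 2433) (nat_lit 157) (.e (nat_lit 3098) (nat_lit 192) (.e (nat_lit 491569) (nat_lit 13) (.e (nat_lit 393301) (nat_lit 27) (.e (nat_lit 491560) (nat_lit 10) (.e (nat_lit 344088) (nat_lit 18) (.e (nat_lit 6853) (nat_lit 371) .nil))))))) (.g (nat_lit 1) (.e (nat_lit 13479) (nat_lit 0) .nil) .nil))) 
(.lf (nat_lit 450329) (.g (nat_lit 2152) (.e (nat_lit 2551) (nat_lit 159) (.e (nat_lit 24640) (nat_lit 10) (.e (nat_lit 344156) (nat_lit 36) (.e (nat_lit 638998) (nat_lit 8) (.e (nat_lit 172115) (nat_lit 10) (.e (nat_lit 434202) (nat_lit 18) (.e (nat_lit 5834) (nat_lit 320) .nil))))))) (.g (nat_lit 1) (.e (nat_lit 15474) (nat_lit 0) .nil) .nil))))) (.nd (nat_lit 8) (.nd (nat_lit 9) 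
(.lf (nat_lit 449689) (.g (nat_lit 3690) (.e (nat_lit 2397) (nat_lit 157) (.e (nat_lit 7585) (nat_lit 406) (.e (nat_lit 65571) (nat_lit 3) (.e (nat_lit 98389) (nat_lit 33) (.e (nat_lit 491560) (nat_lit 10) (.e (nat_lit 344107) (nat_lit 19) (.e (nat_lit 499825) (nat_lit 5) .nil))))))) (.g (nat_lit 1) (.e (nat_lit 12951) (nat_lit 0) .nil) .nil))) 
(.lf (nat_lit 450201) (.g (nat_lit 2009) (.e (nat_lit 2511) (nat_lit 157) (.e (nat_lit 5626) (nat_lit 312) (.e (nat_lit 2668) (nat_lit 167) (.e (nat_lit 196666) (nat_lit 13) (.e (nat_lit 65610) (nat_lit 10) (.e (nat_lit 344117) (nat_lit 21) (.e (nat_lit 516102) (nat_lit 0) (.e (nat_lit 6989) (nat_lit 377) .nil)))))))) (.g (nat_lit 1) (.e (nat_lit 15078) (nat_lit 0) .nil) .nil)))) (.nd (nat_lit 9) 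
(.lf (nat_lit 449945) (.g (nat_lit 4636) (.e (nat_lit 2458) (nat_lit 157) (.e (nat_lit 5547) (nat_lit 306) (.e (nat_lit 2610) (nat_lit 163) (.e (nat_lit 163979) (nat_lit 30) (.e (nat_lit 573493) (nat_lit 15) (.e (nat_lit 81953) (nat_lit 22) (.e (nat_lit 90170) (nat_lit 13) (.e (nat_lit 172042) (nat_lit 0) .nil)))))))) (.g (nat_lit 1) (.e (nat_lit 14026) (nat_lit 0) .nil) .nil))) 
(.lf (nat_lit 450457) (.g (nat_lit 635) (.e (nat_lit 2556) (nat_lit 159) (.e (nat_lit 24604) (nat_lit 2) (.e (nat_lit 90176) (nat_lit 15) .nil))) (.g (nat_lit 0) (.e (nat_lit 16050) (nat_lit 0) .nil) .nil)))))) (.nd (nat_lit 7) (.nd (nat_lit 8) (.nd (nat_lit 9) 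
(.lf (nat_lit 449625) (.g (nat_lit 2005) (.e (nat_lit 917) (nat_lit 75) (.e (nat_lit 778466) (nat_lit 11) (.e (nat_lit 24616) (nat_lit 7) (.e (nat_lit 319530) (nat_lit 16) (.e (nat_lit 286759) (nat_lit 12) (.e (nat_lit 385115) (nat_lit 53) (.e (nat_lit 811031) (nat_lit 11) .nil))))))) (.g (nat_lit 1) (.e (nat_lit 12754) (nat_lit 0) .nil) .nil))) 
(.lf (nat_lit 450137) (.g (nat_lit 5011) (.e (nat_lit 2505) (nat_lit 157) (.e (nat_lit 3249) (nat_lit 197) (.e (nat_lit 532526) (nat_lit 8) (.e (nat_lit 327699) (nat_lit 8) (.e (nat_lit 303117) (nat_lit 2) (.e (nat_lit 196670) (nat_lit 14) (.e (nat_lit 73779) (nat_lit 32) .nil))))))) (.g (nat_lit 1) (.e (nat_lit 14717) (nat_lit 0) .nil) .nil)))) (.nd (nat_lit 9) 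
(.lf (nat_lit 449881) (.g (nat_lit 1862) (.e (nat_lit 2450) (nat_lit 157) (.e (nat_lit 3098) (nat_lit 192) (.e (nat_lit 491566) (nat_lit 12) (.e (nat_lit 385105) (nat_lit 50) .nil)))) (.g (nat_lit 0) (.e (nat_lit 13845) (nat_lit 0) .nil) .nil))) 
(.lf (nat_lit 450393) (.g (nat_lit 1392) (.e (nat_lit 2553) (nat_lit 159) (.e (nat_lit 24640) (nat_lit 10) (.e (nat_lit 344156) (nat_lit 36) (.e (nat_lit 638998) (nat_lit 8) .nil)))) (.g (nat_lit 0) (.e (nat_lit 15740) (nat_lit 0) .nil) .nil))))) (.nd (nat_lit 8) (.nd (nat_lit 9) 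
(.lf (nat_lit 449753) (.g (nat_lit 1837) (.e (nat_lit 2416) (nat_lit 157) (.e (nat_lit 3469) (nat_lit 217) (.e (nat_lit 696344) (nat_lit 8) (.e (nat_lit 172079) (nat_lit 7) (.e (nat_lit 409645) (nat_lit 18) .nil))))) (.g (nat_lit 0) (.e (nat_lit 13194) (nat_lit 0) .nil) .nil))) 
(.lf (nat_lit 450265) (.g (nat_lit 2942) (.e (nat_lit 2551) (nat_lit 159) (.e (nat_lit 24604) (nat_lit 2) (.e (nat_lit 90170) (nat_lit 13) (.e (nat_lit 172106) (nat_lit 10) (.e (nat_lit 434231) (nat_lit 23) (.e (nat_lit 532490) (nat_lit 0) (.e (nat_lit 1040) (nat_lit 81) (.e (nat_lit 4614) (nat_lit 269) .nil)))))))) (.g (nat_lit 1) (.e (nat_lit 15396) (nat_lit 0) .nil) .nil)))) (.nd (nat_lit 9) 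
(.lf (nat_lit 450009) (.g (nat_lit 2551) (.e (nat_lit 2475) (nat_lit 157) (.e (nat_lit 5224) (nat_lit 296) (.e (nat_lit 163871) (nat_lit 2) (.e (nat_lit 196656) (nat_lit 11) (.e (nat_lit 16465) (nat_lit 13) (.e (nat_lit 483339) (nat_lit 9) (.e (nat_lit 426072) (nat_lit 0) .nil))))))) (.g (nat_lit 1) (.e (nat_lit 14231) (nat_lit 0) .nil) .nil))) 
(.lf (nat_lit 450521) (.g (nat_lit 3532) (.e (nat_lit 2559) (nat_lit 159) (.e (nat_lit 24608) (nat_lit 3) (.e (nat_lit 98372) (nat_lit 29) (.e (nat_lit 450579) (nat_lit 5) (.e (nat_lit 532501) (nat_lit 1) .nil))))) (.g (nat_lit 0) (.e (nat_lit 16278) (nat_lit 0) .nil) .nil))))))) (.nd (nat_lit 6) (.nd (nat_lit 7) (.nd (nat_lit 8) (.nd (nat_lit 9) 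
(.lf (nat_lit 449593) (.g (nat_lit 2686) (.e (nat_lit 883) (nat_lit 75) (.e (nat_lit 778466) (nat_lit 11) (.e (nat_lit 24616) (nat_lit 7) (.e (nat_lit 319530) (nat_lit 16) (.e (nat_lit 286759) (nat_lit 12) (.e (nat_lit 385115) (nat_lit 53) (.e (nat_lit 811032) (nat_lit 11) .nil))))))) (.g (nat_lit 1) (.e (nat_lit 12674) (nat_lit 0) .nil) .nil))) 
(.lf (nat_lit 450105) (.g (nat_lit 4510) (.e (nat_lit 2473) (nat_lit 157) (.e (nat_lit 3469) (nat_lit 217) (.e (nat_lit 696344) (nat_lit 8) (.e (nat_lit 172079) (nat_lit 7) (.e (nat_lit 409649) (nat_lit 18) (.e (nat_lit 303140) (nat_lit 10) (.e (nat_lit 434275) (nat_lit 39) (.e (nat_lit 663574) (nat_lit 9) .nil)))))))) (.g (nat_lit 1) (.e (nat_lit 14474) (nat_lit 0) .nil) .nil)))) 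
(.nd (nat_lit 9) 
(.lf (nat_lit 449849) (.g (nat_lit 3632) (.e (nat_lit 2444) (nat_lit 157) (.e (nat_lit 3098) (nat_lit 192) (.e (nat_lit 491569) (nat_lit 13) (.e (nat_lit 393301) (nat_lit 27) (.e (nat_lit 491560) (nat_lit 10) (.e (nat_lit 344090) (nat_lit 18) (.e (nat_lit 6869) (nat_lit 371) .nil))))))) (.g (nat_lit 1) (.e (nat_lit 13658) (nat_lit 0) .nil) .nil))) 
(.lf (nat_lit 450361) (.g (nat_lit 2220) (.e (nat_lit 2552) (nat_lit 159) (.e (nat_lit 24640) (nat_lit 10) (.e (nat_lit 344156) (nat_lit 36) (.e (nat_lit 638985) (nat_lit 5) (.e (nat_lit 3015) (nat_lit 187) .nil))))) (.g (nat_lit 0) (.e (nat_lit 15665) (nat_lit 0) .nil) .nil))))) (.nd (nat_lit 8) (.nd (nat_lit 9) 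
(.lf (nat_lit 449721) (.g (nat_lit 1538) (.e (nat_lit 2402) (nat_lit 157) (.e (nat_lit 7064) (nat_lit 377) (.e (nat_lit 1349) (nat_lit 102) (.e (nat_lit 286761) (nat_lit 13) (.e (nat_lit 393293) (nat_lit 26) .nil))))) (.g (nat_lit 0) (.e (nat_lit 13071) (nat_lit 0) .nil) .nil))) 
(.lf (nat_lit 450233) (.g (nat_lit 1715) (.e (nat_lit 2515) (nat_lit 157) (.e (nat_lit 3090) (nat_lit 191) (.e (nat_lit 483363) (nat_lit 18) (.e (nat_lit 57665) (nat_lit 152) .nil)))) (.g (nat_lit 0) (.e (nat_lit 15223) (nat_lit 0) .nil) .nil)))) (.nd (nat_lit 9) 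
(.lf (nat_lit 449977) (.g (nat_lit 3521) (.e (nat_lit 2466) (nat_lit 157) (.e (nat_lit 2845) (nat_lit 184) (.e (nat_lit 426568) (nat_lit 34) (.e (nat_lit 393271) (nat_lit 23) (.e (nat_lit 426131) (nat_lit 3) (.e (nat_lit 204830) (nat_lit 18) (.e (nat_lit 57665) (nat_lit 152) .nil))))))) (.g (nat_lit 1) (.e (nat_lit 14138) (nat_lit 0) .nil) .nil))) 
(.lf (nat_lit 450489) (.g (nat_lit 4210) (.e (nat_lit 2557) (nat_lit 159) (.e (nat_lit 24658) (nat_lit 13) (.e (nat_lit 393301) (nat_lit 27) (.e (nat_lit 491559) (nat_lit 10) (.e (nat_lit 344089) (nat_lit 18) .nil))))) (.g (nat_lit 0) (.e (nat_lit 16166) (nat_lit 0) .nil) .nil)))))) (.nd (nat_lit 7) (.nd (nat_lit 8) (.nd (nat_lit 9) 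
(.lf (nat_lit 449657) (.g (nat_lit 2127) (.e (nat_lit 754) (nat_lit 66) (.e (nat_lit 704738) (nat_lit 11) (.e (nat_lit 16425) (nat_lit 7) (.e (nat_lit 409644) (nat_lit 18) .nil)))) (.g (nat_lit 0) (.e (nat_lit 12874) (nat_lit 0) .nil) .nil))) 
(.lf (nat_lit 450169) (.g (nat_lit 2654) (.e (nat_lit 2508) (nat_lit 157) (.e (nat_lit 3249) (nat_lit 197) (.e (nat_lit 532523) (nat_lit 7) (.e (nat_lit 319505) (nat_lit 10) (.e (nat_lit 5714) (nat_lit 312) (.e (nat_lit 2682) (nat_lit 168) (.e (nat_lit 204846) (nat_lit 24) (.e (nat_lit 319505) (nat_lit 10) (.e (nat_lit 5712) (nat_lit 312) .nil))))))))) (.g (nat_lit 1) (.e (nat_lit 14909) (nat_lit 0) .nil) .nil)))) 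
(.nd (nat_lit 9) 
(.lf (nat_lit 449913) (.g (nat_lit 5103) (.e (nat_lit 2458) (nat_lit 157) (.e (nat_lit 5546) (nat_lit 306) (.e (nat_lit 2599) (nat_lit 163) (.e (nat_lit 163979) (nat_lit 30) (.e (nat_lit 573482) (nat_lit 13) (.e (nat_lit 65604) (nat_lit 9) (.e (nat_lit 336013) (nat_lit 2) (.e (nat_lit 90170) (nat_lit 13) (.e (nat_lit 172046) (nat_lit 0) .nil))))))))) (.g (nat_lit 1) (.e (nat_lit 13939) (nat_lit 0) .nil) .nil))) 
(.lf (nat_lit 450425) (.g (nat_lit 1694) (.e (nat_lit 2555) (nat_lit 159) (.e (nat_lit 24608) (nat_lit 3) (.e (nat_lit 98365) (nat_lit 26) (.e (nat_lit 426298) (nat_lit 11) .nil)))) (.g (nat_lit 0) (.e (nat_lit 15888) (nat_lit 0) .nil) .nil))))) (.nd (nat_lit 8) (.nd (nat_lit 9) 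
(.lf (nat_lit 449785) (.g (nat_lit 2485) (.e (nat_lit 2433) (nat_lit 157) (.e (nat_lit 2668) (nat_lit 167) (.e (nat_lit 196653) (nat_lit 11) (.e (nat_lit 16465) (nat_lit 13) (.e (nat_lit 483341) (nat_lit 9) (.e (nat_lit 426108) (nat_lit 1) (.e (nat_lit 164305) (nat_lit 226) .nil))))))) (.g (nat_lit 1) (.e (nat_lit 13382) (nat_lit 0) .nil) .nil))) 
(.lf (nat_lit 450297) (.g (nat_lit 2638) (.e (nat_lit 2551) (nat_lit 159) (.e (nat_lit 24640) (nat_lit 10) (.e (nat_lit 344156) (nat_lit 36) (.e (nat_lit 638985) (nat_lit 5) (.e (nat_lit 3027) (nat_lit 187) (.e (nat_lit 450561) (nat_lit 0) (.e (nat_lit 5811) (nat_lit 320) .nil))))))) (.g (nat_lit 1) (.e (nat_lit 15441) (nat_lit 0) .nil) .nil)))) (.nd (nat_lit 9) 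
(.lf (nat_lit 450041) (.g (nat_lit 4132) (.e (nat_lit 2477) (nat_lit 157) (.e (nat_lit 2663) (nat_lit 167) (.e (nat_lit 196666) (nat_lit 13) (.e (nat_lit 65610) (nat_lit 10) (.e (nat_lit 344117) (nat_lit 21) (.e (nat_lit 516151) (nat_lit 9) (.e (nat_lit 426043) (nat_lit 0) (.e (nat_lit 2423) (nat_lit 157) (.e (nat_lit 4821) (nat_lit 281) .nil))))))))) (.g (nat_lit 1) (.e (nat_lit 14283) (nat_lit 0) .nil) .nil))) 
(.lf (nat_lit 450553) (.g (nat_lit 3608) (.e (nat_lit 2560) (nat_lit 159) (.e (nat_lit 24608) (nat_lit 3) (.e (nat_lit 98372) (nat_lit 29) (.e (nat_lit 450579) (nat_lit 5) (.e (nat_lit 532504) (nat_lit 1) .nil))))) (.g (nat_lit 0) (.e (nat_lit 16371) (nat_lit 0) .nil) .nil)))))))))) 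
(.nd (nat_lit 3) (.nd (nat_lit 4) (.nd (nat_lit 5) (.nd (nat_lit 6) (.nd (nat_lit 7) 
(.nd (nat_lit 8) (.nd (nat_lit 9) 
(.lf (nat_lit 449541) (.g (nat_lit 3832) (.e (nat_lit 879) (nat_lit 75) (.e (nat_lit 778466) (nat_lit 11) (.e (nat_lit 24617) (nat_lit 7) (.e (nat_lit 319533) (nat_lit 16) (.e (nat_lit 286753) (nat_lit 10) (.e (nat_lit 344160) (nat_lit 37) (.e (nat_lit 647203) (nat_lit 14) (.e (nat_lit 2505) (nat_lit 157) .nil)))))))) (.g (nat_lit 1) (.e (nat_lit 12615) (nat_lit 0) .nil) .nil))) 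
(.lf (nat_lit 450053) (.g (nat_lit 2431) (.e (nat_lit 2477) (nat_lit 157) (.e (nat_lit 2666) (nat_lit 167) (.e (nat_lit 196666) (nat_lit 13) (.e (nat_lit 65610) (nat_lit 10) (.e (nat_lit 344117) (nat_lit 21) (.e (nat_lit 516160) (nat_lit 10) (.e (nat_lit 434208) (nat_lit 18) (.e (nat_lit 4778) (nat_lit 281) .nil)))))))) (.g (nat_lit 1) (.e (nat_lit 14298) (nat_lit 0) .nil) .nil)))) 
(.nd (nat_lit 9) 
(.lf (nat_lit 449797) (.g (nat_lit 3424) (.e (nat_lit 2433) (nat_lit 157) (.e (nat_lit 2668) (nat_lit 167) (.e (nat_lit 196666) (nat_lit 13) (.e (nat_lit 65610) (nat_lit 10) (.e (nat_lit 344117) (nat_lit 21) (.e (nat_lit 516151) (nat_lit 9) (.e (nat_lit 426042) (nat_lit 0) (.e (nat_lit 2425) (nat_lit 157) (.e (nat_lit 4762) (nat_lit 281) .nil))))))))) (.g (nat_lit 1) (.e (nat_lit 13404) (nat_lit 0) .nil) .nil))) 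
(.lf (nat_lit 450309) (.g (nat_lit 3840) (.e (nat_lit 2551) (nat_lit 159) (.e (nat_lit 24640) (nat_lit 10) (.e (nat_lit 344156) (nat_lit 36) (.e (nat_lit 638998) (nat_lit 8) (.e (nat_lit 172113) (nat_lit 10) (.e (nat_lit 434203) (nat_lit 18) (.e (nat_lit 5796) (nat_lit 320) .nil))))))) (.g (nat_lit 1) (.e (nat_lit 15454) (nat_lit 0) .nil) .nil))))) (.nd (nat_lit 8) (.nd (nat_lit 9) 
(.lf (nat_lit 449669) (.g (nat_lit 2384) (.e (nat_lit 788) (nat_lit 66) (.e (nat_lit 704738) (nat_lit 11) (.e (nat_lit 16425) (nat_lit 7) (.e (nat_lit 409645) (nat_lit 18) .nil)))) (.g (nat_lit 0) (.e (nat_lit 12890) (nat_lit 0) .nil) .nil))) 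
(.lf (nat_lit 450181) (.g (nat_lit 3803) (.e (nat_lit 2508) (nat_lit 157) (.e (nat_lit 3249) (nat_lit 197) (.e (nat_lit 532550) (nat_lit 12) (.e (nat_lit 360475) (nat_lit 8) (.e (nat_lit 557087) (nat_lit 11) (.e (nat_lit 24588) (nat_lit 0) (.e (nat_lit 6674) (nat_lit 357) .nil))))))) (.g (nat_lit 1) (.e (nat_lit 14968) (nat_lit 0) .nil) .nil)))) (.nd (nat_lit 9) 
(.lf (nat_lit 449925) (.g (nat_lit 2199) (.e (nat_lit 2458) (nat_lit 157) (.e (nat_lit 5546) (nat_lit 306) (.e (nat_lit 2610) (nat_lit 163) (.e (nat_lit 163979) (nat_lit 30) (.e (nat_lit 573482) (nat_lit 13) (.e (nat_lit 65604) (nat_lit 9) (.e (nat_lit 336028) (nat_lit 3) (.e (nat_lit 98359) (nat_lit 26) (.e (nat_lit 426042) (nat_lit 0) .nil))))))))) (.g (nat_lit 1) (.e (nat_lit 13968) (nat_lit 0) .nil) .nil))) 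
(.lf (nat_lit 450437) (.g (nat_lit 2471) (.e (nat_lit 2555) (nat_lit 159) (.e (nat_lit 24617) (nat_lit 7) (.e (nat_lit 319533) (nat_lit 16) (.e (nat_lit 286753) (nat_lit 10) (.e (nat_lit 344160) (nat_lit 37) (.e (nat_lit 647200) (nat_lit 12) (.e (nat_lit 57352) (nat_lit 0) (.e (nat_lit 7464) (nat_lit 396) .nil)))))))) (.g (nat_lit 1) (.e (nat_lit 15908) (nat_lit 0) .nil) .nil)))))) 
(.nd (nat_lit 7) (.nd (nat_lit 8) (.nd (nat_lit 9) 
(.lf (nat_lit 449605) (.g (nat_lit 3134) (.e (nat_lit 883) (nat_lit 75) (.e (nat_lit 778466) (nat_lit 11) (.e (nat_lit 24617) (nat_lit 7) (.e (nat_lit 319531) (nat_lit 16) (.e (nat_lit 286759) (nat_lit 12) (.e (nat_lit 385115) (nat_lit 53) (.e (nat_lit 811034) (nat_lit 11) .nil))))))) (.g (nat_lit 1) (.e (nat_lit 12687) (nat_lit 0) .nil) .nil))) 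
(.lf (nat_lit 450117) (.g (nat_lit 1942) (.e (nat_lit 2497) (nat_lit 157) (.e (nat_lit 3067) (nat_lit 190) (.e (nat_lit 475179) (nat_lit 24) (.e (nat_lit 516176) (nat_lit 14) (.e (nat_lit 466954) (nat_lit 11) .nil))))) (.g (nat_lit 0) (.e (nat_lit 14614) (nat_lit 0) .nil) .nil)))) (.nd (nat_lit 9) 
(.lf (nat_lit 449861) (.g (nat_lit 4173) (.e (nat_lit 2445) (nat_lit 157) (.e (nat_lit 2685) (nat_lit 168) (.e (nat_lit 204877) (nat_lit 31) (.e (nat_lit 376865) (nat_lit 22) (.e (nat_lit 90174) (nat_lit 14) (.e (nat_lit 180225) (nat_lit 0) (.e (nat_lit 4778) (nat_lit 281) .nil))))))) (.g (nat_lit 1) (.e (nat_lit 13680) (nat_lit 0) .nil) .nil))) 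
(.lf (nat_lit 450373) (.g (nat_lit 1597) (.e (nat_lit 2553) (nat_lit 159) (.e (nat_lit 24604) (nat_lit 2) (.e (nat_lit 90185) (nat_lit 17) (.e (nat_lit 237584) (nat_lit 1) .nil)))) (.g (nat_lit 0) (.e (nat_lit 15710) (nat_lit 0) .nil) .nil))))) (.nd (nat_lit 8) (.nd (nat_lit 9) 
(.lf (nat_lit 449733) (.g (nat_lit 1810) (.e (nat_lit 2399) (nat_lit 157) (.e (nat_lit 6830) (nat_lit 367) (.e (nat_lit 57378) (nat_lit 3) (.e (nat_lit 98368) (nat_lit 27) .nil)))) (.g (nat_lit 0) (.e (nat_lit 13129) (nat_lit 0) .nil) .nil))) 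
(.lf (nat_lit 450245) (.g (nat_lit 2262) (.e (nat_lit 2503) (nat_lit 157) (.e (nat_lit 3062) (nat_lit 190) (.e (nat_lit 475179) (nat_lit 24) (.e (nat_lit 516174) (nat_lit 14) (.e (nat_lit 466954) (nat_lit 11) .nil))))) (.g (nat_lit 0) (.e (nat_lit 15271) (nat_lit 0) .nil) .nil)))) (.nd (nat_lit 9) 
(.lf (nat_lit 449989) (.g (nat_lit 3521) (.e (nat_lit 2466) (nat_lit 157) (.e (nat_lit 5937) (nat_lit 322) (.e (nat_lit 57379) (nat_lit 3) (.e (nat_lit 98365) (nat_lit 26) (.e (nat_lit 426325) (nat_lit 13) (.e (nat_lit 483337) (nat_lit 9) (.e (nat_lit 426031) (nat_lit 0) .nil))))))) (.g (nat_lit 1) (.e (nat_lit 14157) (nat_lit 0) .nil) .nil))) 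
(.lf (nat_lit 450501) (.g (nat_lit 691) (.e (nat_lit 2558) (nat_lit 159) (.e (nat_lit 24640) (nat_lit 10) (.e (nat_lit 344156) (nat_lit 36) .nil))) (.g (nat_lit 0) (.e (nat_lit 16200) (nat_lit 0) .nil) .nil))))))) (.nd (nat_lit 6) (.nd (nat_lit 7) (.nd (nat_lit 8) (.nd (nat_lit 9) 
(.lf (nat_lit 449573) (.g (nat_lit 3706) (.e (nat_lit 883) (nat_lit 75) (.e (nat_lit 778465) (nat_lit 11) (.e (nat_lit 24617) (nat_lit 7) (.e (nat_lit 319531) (nat_lit 16) (.e (nat_lit 286759) (nat_lit 12) (.e (nat_lit 385115) (nat_lit 53) (.e (nat_lit 811034) (nat_lit 11) .nil))))))) (.g (nat_lit 1) (.e (nat_lit 12651) (nat_lit 0) .nil) .nil))) 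
(.lf (nat_lit 450085) (.g (nat_lit 2974) (.e (nat_lit 2472) (nat_lit 157) (.e (nat_lit 3307) (nat_lit 202) (.e (nat_lit 573484) (nat_lit 13) (.e (nat_lit 65610) (nat_lit 10) (.e (nat_lit 344117) (nat_lit 21) (.e (nat_lit 516151) (nat_lit 9) (.e (nat_lit 426034) (nat_lit 0) (.e (nat_lit 3409) (nat_lit 212) (.e (nat_lit 655364) (nat_lit 0) .nil))))))))) (.g (nat_lit 1) (.e (nat_lit 14436) (nat_lit 0) .nil) .nil)))) 
(.nd (nat_lit 9) 
(.lf (nat_lit 449829) (.g (nat_lit 3335) (.e (nat_lit 2440) (nat_lit 157) (.e (nat_lit 3098) (nat_lit 192) (.e (nat_lit 491569) (nat_lit 13) (.e (nat_lit 393301) (nat_lit 27) (.e (nat_lit 491560) (nat_lit 10) (.e (nat_lit 344088) (nat_lit 18) (.e (nat_lit 6848) (nat_lit 371) .nil))))))) (.g (nat_lit 1) (.e (nat_lit 13541) (nat_lit 0) .nil) .nil))) 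
(.lf (nat_lit 450341) (.g (nat_lit 2158) (.e (nat_lit 2551) (nat_lit 159) (.e (nat_lit 24640) (nat_lit 10) (.e (nat_lit 344156) (nat_lit 36) (.e (nat_lit 638999) (nat_lit 8) (.e (nat_lit 172113) (nat_lit 10) (.e (nat_lit 434203) (nat_lit 18) (.e (nat_lit 5800) (nat_lit 320) .nil))))))) (.g (nat_lit 1) (.e (nat_lit 15486) (nat_lit 0) .nil) .nil))))) (.nd (nat_lit 8) (.nd (nat_lit 9) 
(.lf (nat_lit 449701) (.g (nat_lit 1832) (.e (nat_lit 2400) (nat_lit 157) (.e (nat_lit 7064) (nat_lit 377) (.e (nat_lit 1349) (nat_lit 102) (.e (nat_lit 286735) (nat_lit 3) (.e (nat_lit 98362) (nat_lit 26) .nil))))) (.g (nat_lit 0) (.e (nat_lit 13022) (nat_lit 0) .nil) .nil))) 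
(.lf (nat_lit 450213) (.g (nat_lit 2578) (.e (nat_lit 2517) (nat_lit 157) (.e (nat_lit 2664) (nat_lit 167) (.e (nat_lit 196666) (nat_lit 13) (.e (nat_lit 65610) (nat_lit 10) (.e (nat_lit 344117) (nat_lit 21) (.e (nat_lit 516159) (nat_lit 10) (.e (nat_lit 434208) (nat_lit 18) (.e (nat_lit 4751) (nat_lit 281) .nil)))))))) (.g (nat_lit 1) (.e (nat_lit 15139) (nat_lit 0) .nil) .nil)))) 
(.nd (nat_lit 9) 
(.lf (nat_lit 449957) (.g (nat_lit 3206) (.e (nat_lit 2457) (nat_lit 157) (.e (nat_lit 2844) (nat_lit 184) (.e (nat_lit 426568) (nat_lit 34) (.e (nat_lit 393271) (nat_lit 23) (.e (nat_lit 426131) (nat_lit 3) (.e (nat_lit 204830) (nat_lit 18) (.e (nat_lit 57663) (nat_lit 152) .nil))))))) (.g (nat_lit 1) (.e (nat_lit 14082) (nat_lit 0) .nil) .nil))) 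
(.lf (nat_lit 450469) (.g (nat_lit 4949) (.e (nat_lit 2556) (nat_lit 159) (.e (nat_lit 24662) (nat_lit 14) (.e (nat_lit 401425) (nat_lit 2) (.e (nat_lit 196666) (nat_lit 13) (.e (nat_lit 65617) (nat_lit 10) .nil))))) (.g (nat_lit 0) (.e (nat_lit 16066) (nat_lit 0) .nil) .nil)))))) (.nd (nat_lit 7) (.nd (nat_lit 8) (.nd (nat_lit 9) 
(.lf (nat_lit 449637) (.g (nat_lit 2237) (.e (nat_lit 934) (nat_lit 76) (.e (nat_lit 786483) (nat_lit 30) (.e (nat_lit 360475) (nat_lit 8) (.e (nat_lit 557119) (nat_lit 18) (.e (nat_lit 2798) (nat_lit 180) (.e (nat_lit 303123) (nat_lit 7) (.e (nat_lit 409616) (nat_lit 10) .nil))))))) (.g (nat_lit 1) (.e (nat_lit 12828) (nat_lit 0) .nil) .nil))) 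
(.lf (nat_lit 450149) (.g (nat_lit 1999) (.e (nat_lit 2505) (nat_lit 157) (.e (nat_lit 3302) (nat_lit 202) (.e (nat_lit 573492) (nat_lit 15) (.e (nat_lit 81956) (nat_lit 23) (.e (nat_lit 98367) (nat_lit 27) .nil))))) (.g (nat_lit 0) (.e (nat_lit 14831) (nat_lit 0) .nil) .nil)))) (.nd (nat_lit 9) 
(.lf (nat_lit 449893) (.g (nat_lit 3469) (.e (nat_lit 2450) (nat_lit 157) (.e (nat_lit 3098) (nat_lit 192) (.e (nat_lit 491569) (nat_lit 13) (.e (nat_lit 393301) (nat_lit 27) (.e (nat_lit 491560) (nat_lit 10) (.e (nat_lit 344094) (nat_lit 18) (.e (nat_lit 6850) (nat_lit 371) .nil))))))) (.g (nat_lit 1) (.e (nat_lit 13857) (nat_lit 0) .nil) .nil))) 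
(.lf (nat_lit 450405) (.g (nat_lit 3022) (.e (nat_lit 2553) (nat_lit 159) (.e (nat_lit 24658) (nat_lit 13) (.e (nat_lit 393301) (nat_lit 27) (.e (nat_lit 491559) (nat_lit 10) (.e (nat_lit 344089) (nat_lit 18) .nil))))) (.g (nat_lit 0) (.e (nat_lit 15754) (nat_lit 0) .nil) .nil))))) (.nd (nat_lit 8) (.nd (nat_lit 9) 
(.lf (nat_lit 449765) (.g (nat_lit 4993) (.e (nat_lit 2423) (nat_lit 157) (.e (nat_lit 4849) (nat_lit 285) (.e (nat_lit 163869) (nat_lit 2) (.e (nat_lit 196666) (nat_lit 13) (.e (nat_lit 65610) (nat_lit 10) (.e (nat_lit 344117) (nat_lit 21) (.e (nat_lit 516151) (nat_lit 9) (.e (nat_lit 426042) (nat_lit 0) .nil)))))))) (.g (nat_lit 1) (.e (nat_lit 13246) (nat_lit 0) .nil) .nil))) 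
(.lf (nat_lit 450277) (.g (nat_lit 1098) (.e (nat_lit 2551) (nat_lit 159) (.e (nat_lit 24617) (nat_lit 7) (.e (nat_lit 319504) (nat_lit 10) (.e (nat_lit 618) (nat_lit 48) .nil)))) (.g (nat_lit 0) (.e (nat_lit 15408) (nat_lit 0) .nil) .nil)))) (.nd (nat_lit 9) 
(.lf (nat_lit 450021) (.g (nat_lit 3484) (.e (nat_lit 2477) (nat_lit 157) (.e (nat_lit 2663) (nat_lit 167) (.e (nat_lit 196666) (nat_lit 13) (.e (nat_lit 65610) (nat_lit 10) (.e (nat_lit 344117) (nat_lit 21) (.e (nat_lit 516151) (nat_lit 9) (.e (nat_lit 426022) (nat_lit 0) (.e (nat_lit 2403) (nat_lit 157) (.e (nat_lit 4824) (nat_lit 281) .nil))))))))) (.g (nat_lit 1) (.e (nat_lit 14263) (nat_lit 0) .nil) .nil))) 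
(.lf (nat_lit 450533) (.g (nat_lit 1933) (.e (nat_lit 2559) (nat_lit 159) (.e (nat_lit 24640) (nat_lit 10) (.e (nat_lit 344156) (nat_lit 36) (.e (nat_lit 638998) (nat_lit 8) (.e (nat_lit 172106) (nat_lit 10) (.e (nat_lit 434202) (nat_lit 18) (.e (nat_lit 5796) (nat_lit 320) .nil))))))) (.g (nat_lit 1) (.e (nat_lit 16297) (nat_lit 0) .nil) .nil)))))))) 
(.nd (nat_lit 5) (.nd (nat_lit 6) (.nd (nat_lit 7) (.nd (nat_lit 8) (.nd (nat_lit 9) 
(.lf (nat_lit 449557) (.g (nat_lit 2864) (.e (nat_lit 883) (nat_lit 75) (.e (nat_lit 778465) (nat_lit 11) (.e (nat_lit 24617) (nat_lit 7) (.e (nat_lit 319528) (nat_lit 16) (.e (nat_lit 286759) (nat_lit 12) (.e (nat_lit 385113) (nat_lit 53) (.e (nat_lit 811031) (nat_lit 11) .nil))))))) (.g (nat_lit 1) (.e (nat_lit 12635) (nat_lit 0) .nil) .nil))) 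
(.lf (nat_lit 450069) (.g (nat_lit 3680) (.e (nat_lit 2478) (nat_lit 157) (.e (nat_lit 5548) (nat_lit 306) (.e (nat_lit 2610) (nat_lit 163) (.e (nat_lit 163979) (nat_lit 30) (.e (nat_lit 573482) (nat_lit 13) (.e (nat_lit 65604) (nat_lit 9) (.e (nat_lit 336013) (nat_lit 2) (.e (nat_lit 90170) (nat_lit 13) (.e (nat_lit 172042) (nat_lit 0) .nil))))))))) (.g (nat_lit 1) (.e (nat_lit 14368) (nat_lit 0) .nil) .nil)))) 
(.nd (nat_lit 9) 
(.lf (nat_lit 449813) (.g (nat_lit 1948) (.e (nat_lit 2433) (nat_lit 157) (.e (nat_lit 2851) (nat_lit 184) (.e (nat_lit 426566) (nat_lit 34) (.e (nat_lit 393273) (nat_lit 23) .nil)))) (.g (nat_lit 0) (.e (nat_lit 13473) (nat_lit 0) .nil) .nil))) 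
(.lf (nat_lit 450325) (.g (nat_lit 2121) (.e (nat_lit 2551) (nat_lit 159) (.e (nat_lit 24640) (nat_lit 10) (.e (nat_lit 344156) (nat_lit 36) (.e (nat_lit 638998) (nat_lit 8) (.e (nat_lit 172115) (nat_lit 10) (.e (nat_lit 434202) (nat_lit 18) (.e (nat_lit 5800) (nat_lit 320) .nil))))))) (.g (nat_lit 1) (.e (nat_lit 15470) (nat_lit 0) .nil) .nil))))) (.nd (nat_lit 8) (.nd (nat_lit 9) 
(.lf (nat_lit 449685) (.g (nat_lit 5084) (.e (nat_lit 2397) (nat_lit 157) (.e (nat_lit 5734) (nat_lit 312) (.e (nat_lit 2666) (nat_lit 167) (.e (nat_lit 196666) (nat_lit 13) (.e (nat_lit 65610) (nat_lit 10) (.e (nat_lit 344117) (nat_lit 21) (.e (nat_lit 516106) (nat_lit 0) (.e (nat_lit 6986) (nat_lit 377) .nil)))))))) (.g (nat_lit 1) (.e (nat_lit 12927) (nat_lit 0) .nil) .nil))) 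
(.lf (nat_lit 450197) (.g (nat_lit 3515) (.e (nat_lit 2510) (nat_lit 157) (.e (nat_lit 2661) (nat_lit 167) (.e (nat_lit 196666) (nat_lit 13) (.e (nat_lit 65610) (nat_lit 10) (.e (nat_lit 344117) (nat_lit 21) (.e (nat_lit 516159) (nat_lit 10) (.e (nat_lit 434208) (nat_lit 18) (.e (nat_lit 4754) (nat_lit 281) .nil)))))))) (.g (nat_lit 1) (.e (nat_lit 15041) (nat_lit 0) .nil) .nil)))) 
(.nd (nat_lit 9) 
(.lf (nat_lit 449941) (.g (nat_lit 4952) (.e (nat_lit 2458) (nat_lit 157) (.e (nat_lit 5547) (nat_lit 306) (.e (nat_lit 2610) (nat_lit 163) (.e (nat_lit 163978) (nat_lit 30) (.e (nat_lit 573485) (nat_lit 13) (.e (nat_lit 65604) (nat_lit 9) (.e (nat_lit 336013) (nat_lit 2) (.e (nat_lit 90170) (nat_lit 13) (.e (nat_lit 172042) (nat_lit 0) .nil))))))))) (.g (nat_lit 1) (.e (nat_lit 14022) (nat_lit 0) .nil) .nil))) 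
(.lf (nat_lit 450453) (.g (nat_lit 2209) (.e (nat_lit 2555) (nat_lit 159) (.e (nat_lit 24665) (nat_lit 14) (.e (nat_lit 401414) (nat_lit 0) (.e (nat_lit 3124) (nat_lit 193) (.e (nat_lit 507648) (nat_lit 22) .nil))))) (.g (nat_lit 0) (.e (nat_lit 15952) (nat_lit 0) .nil) .nil)))))) (.nd (nat_lit 7) (.nd (nat_lit 8) (.nd (nat_lit 9) 
(.lf (nat_lit 449621) (.g (nat_lit 2439) (.e (nat_lit 913) (nat_lit 75) (.e (nat_lit 778465) (nat_lit 11) (.e (nat_lit 24617) (nat_lit 7) (.e (nat_lit 319533) (nat_lit 16) (.e (nat_lit 286759) (nat_lit 12) .nil))))) (.g (nat_lit 0) (.e (nat_lit 12731) (nat_lit 0) .nil) .nil))) 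
(.lf (nat_lit 450133) (.g (nat_lit 3736) (.e (nat_lit 2505) (nat_lit 157) (.e (nat_lit 3249) (nat_lit 197) (.e (nat_lit 532526) (nat_lit 8) (.e (nat_lit 327698) (nat_lit 8) (.e (nat_lit 303117) (nat_lit 2) (.e (nat_lit 196668) (nat_lit 14) (.e (nat_lit 73780) (nat_lit 32) .nil))))))) (.g (nat_lit 1) (.e (nat_lit 14713) (nat_lit 0) .nil) .nil)))) (.nd (nat_lit 9) 
(.lf (nat_lit 449877) (.g (nat_lit 787) (.e (nat_lit 2450) (nat_lit 157) (.e (nat_lit 2668) (nat_lit 167) (.e (nat_lit 196653) (nat_lit 11) .nil))) (.g (nat_lit 0) (.e (nat_lit 13773) (nat_lit 0) .nil) .nil))) 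
(.lf (nat_lit 450389) (.g (nat_lit 2481) (.e (nat_lit 2553) (nat_lit 159) (.e (nat_lit 24640) (nat_lit 10) (.e (nat_lit 344156) (nat_lit 36) (.e (nat_lit 638985) (nat_lit 5) (.e (nat_lit 3015) (nat_lit 187) (.e (nat_lit 450562) (nat_lit 0) (.e (nat_lit 5796) (nat_lit 320) .nil))))))) (.g (nat_lit 1) (.e (nat_lit 15735) (nat_lit 0) .nil) .nil))))) (.nd (nat_lit 8) (.nd (nat_lit 9) 
(.lf (nat_lit 449749) (.g (nat_lit 2766) (.e (nat_lit 2416) (nat_lit 157) (.e (nat_lit 3307) (nat_lit 202) (.e (nat_lit 573489) (nat_lit 14) (.e (nat_lit 73755) (nat_lit 8) (.e (nat_lit 557105) (nat_lit 14) (.e (nat_lit 180251) (nat_lit 10) (.e (nat_lit 573475) (nat_lit 12) (.e (nat_lit 57503) (nat_lit 38) (.e (nat_lit 638985) (nat_lit 5) .nil))))))))) (.g (nat_lit 1) (.e (nat_lit 13174) (nat_lit 0) .nil) .nil))) 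
(.lf (nat_lit 450261) (.g (nat_lit 2575) (.e (nat_lit 7936) (nat_lit 157) (.e (nat_lit 3522) (nat_lit 218) (.e (nat_lit 704738) (nat_lit 11) (.e (nat_lit 16425) (nat_lit 7) (.e (nat_lit 409649) (nat_lit 18) .nil))))) (.g (nat_lit 0) (.e (nat_lit 15364) (nat_lit 0) .nil) .nil)))) (.nd (nat_lit 9) 
(.lf (nat_lit 450005) (.g (nat_lit 5500) (.e (nat_lit 2467) (nat_lit 157) (.e (nat_lit 3469) (nat_lit 217) (.e (nat_lit 696344) (nat_lit 8) (.e (nat_lit 172082) (nat_lit 7) (.e (nat_lit 409646) (nat_lit 18) (.e (nat_lit 303140) (nat_lit 10) (.e (nat_lit 434275) (nat_lit 39) (.e (nat_lit 663574) (nat_lit 9) .nil)))))))) (.g (nat_lit 1) (.e (nat_lit 14186) (nat_lit 0) .nil) .nil))) 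
(.lf (nat_lit 450517) (.g (nat_lit 1616) (.e (nat_lit 2559) (nat_lit 159) (.e (nat_lit 24608) (nat_lit 3) (.e (nat_lit 98365) (nat_lit 26) (.e (nat_lit 426099) (nat_lit 1) .nil)))) (.g (nat_lit 0) (.e (nat_lit 16273) (nat_lit 0) .nil) .nil))))))) (.nd (nat_lit 6) (.nd (nat_lit 7) (.nd (nat_lit 8) (.nd (nat_lit 9) 
(.lf (nat_lit 449589) (.g (nat_lit 3915) (.e (nat_lit 883) (nat_lit 75) (.e (nat_lit 778465) (nat_lit 11) (.e (nat_lit 24617) (nat_lit 7) (.e (nat_lit 319534) (nat_lit 16) (.e (nat_lit 286759) (nat_lit 12) (.e (nat_lit 385115) (nat_lit 53) (.e (nat_lit 811031) (nat_lit 11) .nil))))))) (.g (nat_lit 1) (.e (nat_lit 12667) (nat_lit 0) .nil) .nil))) 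
(.lf (nat_lit 450101) (.g (nat_lit 2810) (.e (nat_lit 2473) (nat_lit 157) (.e (nat_lit 3307) (nat_lit 202) (.e (nat_lit 573489) (nat_lit 14) (.e (nat_lit 73755) (nat_lit 8) (.e (nat_lit 557105) (nat_lit 14) (.e (nat_lit 180251) (nat_lit 10) (.e (nat_lit 573475) (nat_lit 12) (.e (nat_lit 57503) (nat_lit 38) (.e (nat_lit 638985) (nat_lit 5) .nil))))))))) (.g (nat_lit 1) (.e (nat_lit 14462) (nat_lit 0) .nil) .nil)))) 
(.nd (nat_lit 9) 
(.lf (nat_lit 449845) (.g (nat_lit 1583) (.e (nat_lit 2444) (nat_lit 157) (.e (nat_lit 3098) (nat_lit 192) (.e (nat_lit 491568) (nat_lit 13) (.e (nat_lit 393301) (nat_lit 27) .nil)))) (.g (nat_lit 0) (.e (nat_lit 13654) (nat_lit 0) .nil) .nil))) 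
(.lf (nat_lit 450357) (.g (nat_lit 1476) (.e (nat_lit 2552) (nat_lit 159) (.e (nat_lit 24608) (nat_lit 3) (.e (nat_lit 98372) (nat_lit 29) .nil))) (.g (nat_lit 0) (.e (nat_lit 15657) (nat_lit 0) .nil) .nil))))) (.nd (nat_lit 8) (.nd (nat_lit 9) 
(.lf (nat_lit 449717) (.g (nat_lit 3764) (.e (nat_lit 2402) (nat_lit 157) (.e (nat_lit 4830) (nat_lit 281) (.e (nat_lit 2416) (nat_lit 157) (.e (nat_lit 2666) (nat_lit 167) (.e (nat_lit 196666) (nat_lit 13) (.e (nat_lit 65610) (nat_lit 10) (.e (nat_lit 344117) (nat_lit 21) (.e (nat_lit 516151) (nat_lit 9) (.e (nat_lit 426023) (nat_lit 0) .nil))))))))) (.g (nat_lit 1) (.e (nat_lit 13054) (nat_lit 0) .nil) .nil))) 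
(.lf (nat_lit 450229) (.g (nat_lit 716) (.e (nat_lit 2515) (nat_lit 157) (.e (nat_lit 2856) (nat_lit 184) (.e (nat_lit 426566) (nat_lit 34) .nil))) (.g (nat_lit 0) (.e (nat_lit 15193) (nat_lit 0) .nil) .nil)))) (.nd (nat_lit 9) 
(.lf (nat_lit 449973) (.g (nat_lit 1625) (.e (nat_lit 2466) (nat_lit 157) (.e (nat_lit 2845) (nat_lit 184) (.e (nat_lit 426479) (nat_lit 27) (.e (nat_lit 336434) (nat_lit 30) (.e (nat_lit 450579) (nat_lit 5) (.e (nat_lit 532501) (nat_lit 1) (.e (nat_lit 57662) (nat_lit 152) .nil))))))) (.g (nat_lit 1) (.e (nat_lit 14134) (nat_lit 0) .nil) .nil))) 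
(.lf (nat_lit 450485) (.g (nat_lit 769) (.e (nat_lit 2557) (nat_lit 159) (.e (nat_lit 24647) (nat_lit 12) (.e (nat_lit 385105) (nat_lit 50) (.e (nat_lit 786481) (nat_lit 30) .nil)))) (.g (nat_lit 0) (.e (nat_lit 16155) (nat_lit 0) .nil) .nil)))))) (.nd (nat_lit 7) (.nd (nat_lit 8) (.nd (nat_lit 9) 
(.lf (nat_lit 449653) (.g (nat_lit 2240) (.e (nat_lit 752) (nat_lit 66) (.e (nat_lit 704738) (nat_lit 11) (.e (nat_lit 16425) (nat_lit 7) (.e (nat_lit 409644) (nat_lit 18) .nil)))) (.g (nat_lit 0) (.e (nat_lit 12870) (nat_lit 0) .nil) .nil))) 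
(.lf (nat_lit 450165) (.g (nat_lit 3161) (.e (nat_lit 2508) (nat_lit 157) (.e (nat_lit 3249) (nat_lit 197) (.e (nat_lit 532482) (nat_lit 0) (.e (nat_lit 6203) (nat_lit 332) (.e (nat_lit 2798) (nat_lit 180) (.e (nat_lit 303117) (nat_lit 2) (.e (nat_lit 196669) (nat_lit 14) (.e (nat_lit 73779) (nat_lit 32) .nil)))))))) (.g (nat_lit 1) (.e (nat_lit 14904) (nat_lit 0) .nil) .nil)))) (.nd (nat_lit 9) 
(.lf (nat_lit 449909) (.g (nat_lit 4359) (.e (nat_lit 2458) (nat_lit 157) (.e (nat_lit 5939) (nat_lit 322) (.e (nat_lit 57379) (nat_lit 3) (.e (nat_lit 98366) (nat_lit 27) (.e (nat_lit 434231) (nat_lit 23) (.e (nat_lit 532514) (nat_lit 3) (.e (nat_lit 114719) (nat_lit 23) (.e (nat_lit 98325) (nat_lit 17) .nil)))))))) (.g (nat_lit 1) (.e (nat_lit 13929) (nat_lit 0) .nil) .nil))) 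
(.lf (nat_lit 450421) (.g (nat_lit 835) (.e (nat_lit 2554) (nat_lit 159) (.e (nat_lit 24662) (nat_lit 14) (.e (nat_lit 401459) (nat_lit 13) .nil))) (.g (nat_lit 0) (.e (nat_lit 15812) (nat_lit 0) .nil) .nil))))) (.nd (nat_lit 8) (.nd (nat_lit 9) 
(.lf (nat_lit 449781) (.g (nat_lit 2584) (.e (nat_lit 2428) (nat_lit 157) (.e (nat_lit 2668) (nat_lit 167) (.e (nat_lit 196666) (nat_lit 13) (.e (nat_lit 65610) (nat_lit 10) (.e (nat_lit 344117) (nat_lit 21) .nil))))) (.g (nat_lit 0) (.e (nat_lit 13342) (nat_lit 0) .nil) .nil))) 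
(.lf (nat_lit 450293) (.g (nat_lit 2229) (.e (nat_lit 2551) (nat_lit 159) (.e (nat_lit 24640) (nat_lit 10) (.e (nat_lit 344156) (nat_lit 36) (.e (nat_lit 638985) (nat_lit 5) (.e (nat_lit 3022) (nat_lit 187) .nil))))) (.g (nat_lit 0) (.e (nat_lit 15437) (nat_lit 0) .nil) .nil)))) (.nd (nat_lit 9) 
(.lf (nat_lit 450037) (.g (nat_lit 4976) (.e (nat_lit 2477) (nat_lit 157) (.e (nat_lit 2663) (nat_lit 167) (.e (nat_lit 196666) (nat_lit 13) (.e (nat_lit 65610) (nat_lit 10) (.e (nat_lit 344117) (nat_lit 21) (.e (nat_lit 516151) (nat_lit 9) (.e (nat_lit 426042) (nat_lit 0) (.e (nat_lit 2425) (nat_lit 157) (.e (nat_lit 4821) (nat_lit 281) .nil))))))))) (.g (nat_lit 1) (.e (nat_lit 14279) (nat_lit 0) .nil) .nil))) 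
(.lf (nat_lit 450549) (.g (nat_lit 2677) (.e (nat_lit 2560) (nat_lit 159) (.e (nat_lit 24604) (nat_lit 2) (.e (nat_lit 90176) (nat_lit 15) (.e (nat_lit 188450) (nat_lit 23) (.e (nat_lit 204830) (nat_lit 18) (.e (nat_lit 65280) (nat_lit 233) .nil)))))) (.g (nat_lit 1) (.e (nat_lit 16367) (nat_lit 0) .nil) .nil))))))))) 
(.nd (nat_lit 4) (.nd (nat_lit 5) (.nd (nat_lit 6) (.nd (nat_lit 7) (.nd (nat_lit 8) 
(.nd (nat_lit 9) 
(.lf (nat_lit 449549) (.g (nat_lit 2697) (.e (nat_lit 883) (nat_lit 75) (.e (nat_lit 778465) (nat_lit 11) (.e (nat_lit 24616) (nat_lit 7) (.e (nat_lit 319530) (nat_lit 16) (.e (nat_lit 286759) (nat_lit 12) (.e (nat_lit 385113) (nat_lit 53) (.e (nat_lit 811031) (nat_lit 11) .nil))))))) (.g (nat_lit 1) (.e (nat_lit 12626) (nat_lit 0) .nil) .nil))) 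
(.lf (nat_lit 450061) (.g (nat_lit 2995) (.e (nat_lit 2478) (nat_lit 157) (.e (nat_lit 2946) (nat_lit 184) (.e (nat_lit 426306) (nat_lit 12) (.e (nat_lit 475207) (nat_lit 41) (.e (nat_lit 712755) (nat_lit 30) (.e (nat_lit 450563) (nat_lit 0) (.e (nat_lit 5537) (nat_lit 306) .nil))))))) (.g (nat_lit 1) (.e (nat_lit 14317) (nat_lit 0) .nil) .nil)))) (.nd (nat_lit 9) 
(.lf (nat_lit 449805) (.g (nat_lit 2368) (.e (nat_lit 2433) (nat_lit 157) (.e (nat_lit 2668) (nat_lit 167) (.e (nat_lit 196669) (nat_lit 14) (.e (nat_lit 73755) (nat_lit 8) (.e (nat_lit 557105) (nat_lit 14) (.e (nat_lit 180252) (nat_lit 10) (.e (nat_lit 573474) (nat_lit 12) (.e (nat_lit 57347) (nat_lit 0) (.e (nat_lit 5436) (nat_lit 306) .nil))))))))) (.g (nat_lit 1) (.e (nat_lit 13423) (nat_lit 0) .nil) .nil))) 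
(.lf (nat_lit 450317) (.g (nat_lit 2886) (.e (nat_lit 2551) (nat_lit 159) (.e (nat_lit 24640) (nat_lit 10) (.e (nat_lit 344156) (nat_lit 36) (.e (nat_lit 638998) (nat_lit 8) (.e (nat_lit 172113) (nat_lit 10) (.e (nat_lit 434203) (nat_lit 18) (.e (nat_lit 5834) (nat_lit 320) .nil))))))) (.g (nat_lit 1) (.e (nat_lit 15462) (nat_lit 0) .nil) .nil))))) (.nd (nat_lit 8) (.nd (nat_lit 9) 
(.lf (nat_lit 449677) (.g (nat_lit 2584) (.e (nat_lit 2397) (nat_lit 157) (.e (nat_lit 2668) (nat_lit 167) (.e (nat_lit 196666) (nat_lit 13) (.e (nat_lit 65610) (nat_lit 10) (.e (nat_lit 344117) (nat_lit 21) .nil))))) (.g (nat_lit 0) (.e (nat_lit 12915) (nat_lit 0) .nil) .nil))) 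
(.lf (nat_lit 450189) (.g (nat_lit 2184) (.e (nat_lit 2508) (nat_lit 157) (.e (nat_lit 3249) (nat_lit 197) (.e (nat_lit 532569) (nat_lit 16) (.e (nat_lit 401448) (nat_lit 10) (.e (nat_lit 434232) (nat_lit 23) (.e (nat_lit 532522) (nat_lit 7) (.e (nat_lit 319500) (nat_lit 10) (.e (nat_lit 5712) (nat_lit 312) .nil)))))))) (.g (nat_lit 1) (.e (nat_lit 15003) (nat_lit 0) .nil) .nil)))) 
(.nd (nat_lit 9) 
(.lf (nat_lit 449933) (.g (nat_lit 4878) (.e (nat_lit 2458) (nat_lit 157) (.e (nat_lit 5547) (nat_lit 306) (.e (nat_lit 2599) (nat_lit 163) (.e (nat_lit 163979) (nat_lit 30) (.e (nat_lit 573482) (nat_lit 13) (.e (nat_lit 65604) (nat_lit 9) (.e (nat_lit 336013) (nat_lit 2) (.e (nat_lit 90170) (nat_lit 13) (.e (nat_lit 172046) (nat_lit 0) .nil))))))))) (.g (nat_lit 1) (.e (nat_lit 14000) (nat_lit 0) .nil) .nil))) 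
(.lf (nat_lit 450445) (.g (nat_lit 2947) (.e (nat_lit 2555) (nat_lit 159) (.e (nat_lit 24658) (nat_lit 13) (.e (nat_lit 393301) (nat_lit 27) (.e (nat_lit 491558) (nat_lit 10) .nil)))) (.g (nat_lit 0) (.e (nat_lit 15935) (nat_lit 0) .nil) .nil)))))) (.nd (nat_lit 7) (.nd (nat_lit 8) (.nd (nat_lit 9) 
(.lf (nat_lit 449613) (.g (nat_lit 1867) (.e (nat_lit 883) (nat_lit 75) (.e (nat_lit 778466) (nat_lit 11) (.e (nat_lit 24617) (nat_lit 7) (.e (nat_lit 319534) (nat_lit 16) (.e (nat_lit 286759) (nat_lit 12) (.e (nat_lit 385094) (nat_lit 49) (.e (nat_lit 778510) (nat_lit 14) (.e (nat_lit 982) (nat_lit 81) .nil)))))))) (.g (nat_lit 1) (.e (nat_lit 12695) (nat_lit 0) .nil) .nil))) 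
(.lf (nat_lit 450125) (.g (nat_lit 4296) (.e (nat_lit 2505) (nat_lit 157) (.e (nat_lit 3141) (nat_lit 193) (.e (nat_lit 500065) (nat_lit 18) (.e (nat_lit 65630) (nat_lit 14) (.e (nat_lit 401428) (nat_lit 3) (.e (nat_lit 204863) (nat_lit 27) (.e (nat_lit 344066) (nat_lit 0) .nil))))))) (.g (nat_lit 1) (.e (nat_lit 14699) (nat_lit 0) .nil) .nil)))) (.nd (nat_lit 9) 
(.lf (nat_lit 449869) (.g (nat_lit 5207) (.e (nat_lit 2445) (nat_lit 157) (.e (nat_lit 3098) (nat_lit 192) (.e (nat_lit 491569) (nat_lit 13) (.e (nat_lit 393301) (nat_lit 27) (.e (nat_lit 491560) (nat_lit 10) (.e (nat_lit 344097) (nat_lit 18) (.e (nat_lit 6875) (nat_lit 371) .nil))))))) (.g (nat_lit 1) (.e (nat_lit 13722) (nat_lit 0) .nil) .nil))) 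
(.lf (nat_lit 450381) (.g (nat_lit 2709) (.e (nat_lit 2553) (nat_lit 159) (.e (nat_lit 24608) (nat_lit 3) (.e (nat_lit 98372) (nat_lit 29) (.e (nat_lit 450579) (nat_lit 5) (.e (nat_lit 532503) (nat_lit 1) (.e (nat_lit 65280) (nat_lit 233) .nil)))))) (.g (nat_lit 1) (.e (nat_lit 15719) (nat_lit 0) .nil) .nil))))) (.nd (nat_lit 8) (.nd (nat_lit 9) 
(.lf (nat_lit 449741) (.g (nat_lit 2388) (.e (nat_lit 2416) (nat_lit 157) (.e (nat_lit 2666) (nat_lit 167) (.e (nat_lit 196666) (nat_lit 13) (.e (nat_lit 65610) (nat_lit 10) (.e (nat_lit 344117) (nat_lit 21) (.e (nat_lit 516151) (nat_lit 9) (.e (nat_lit 426022) (nat_lit 0) (.e (nat_lit 2402) (nat_lit 157) (.e (nat_lit 4825) (nat_lit 281) .nil))))))))) (.g (nat_lit 1) (.e (nat_lit 13158) (nat_lit 0) .nil) .nil))) 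
(.lf (nat_lit 450253) (.g (nat_lit 2264) (.e (nat_lit 2524) (nat_lit 157) (.e (nat_lit 2857) (nat_lit 184) (.e (nat_lit 426568) (nat_lit 34) (.e (nat_lit 393271) (nat_lit 23) (.e (nat_lit 426131) (nat_lit 3) .nil))))) (.g (nat_lit 0) (.e (nat_lit 15326) (nat_lit 0) .nil) .nil)))) (.nd (nat_lit 9) 
(.lf (nat_lit 449997) (.g (nat_lit 4613) (.e (nat_lit 2467) (nat_lit 157) (.e (nat_lit 3307) (nat_lit 202) (.e (nat_lit 573489) (nat_lit 14) (.e (nat_lit 73755) (nat_lit 8) (.e (nat_lit 557105) (nat_lit 14) (.e (nat_lit 180252) (nat_lit 10) (.e (nat_lit 573474) (nat_lit 12) (.e (nat_lit 57504) (nat_lit 38) (.e (nat_lit 638986) (nat_lit 5) .nil))))))))) (.g (nat_lit 1) (.e (nat_lit 14172) (nat_lit 0) .nil) .nil))) 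
(.lf (nat_lit 450509) (.g (nat_lit 2334) (.e (nat_lit 2558) (nat_lit 159) (.e (nat_lit 24640) (nat_lit 10) (.e (nat_lit 344156) (nat_lit 36) (.e (nat_lit 638985) (nat_lit 5) (.e (nat_lit 3027) (nat_lit 187) (.e (nat_lit 450561) (nat_lit 0) (.e (nat_lit 5811) (nat_lit 320) .nil))))))) (.g (nat_lit 1) (.e (nat_lit 16213) (nat_lit 0) .nil) .nil))))))) 
(.nd (nat_lit 6) (.nd (nat_lit 7) (.nd (nat_lit 8) (.nd (nat_lit 9) 
(.lf (nat_lit 449581) (.g (nat_lit 4111) (.e (nat_lit 883) (nat_lit 75) (.e (nat_lit 778465) (nat_lit 11) (.e (nat_lit 24617) (nat_lit 7) (.e (nat_lit 319533) (nat_lit 16) (.e (nat_lit 286759) (nat_lit 12) (.e (nat_lit 385115) (nat_lit 53) (.e (nat_lit 811033) (nat_lit 11) .nil))))))) (.g (nat_lit 1) (.e (nat_lit 12659) (nat_lit 0) .nil) .nil))) 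
(.lf (nat_lit 450093) (.g (nat_lit 1873) (.e (nat_lit 2472) (nat_lit 157) (.e (nat_lit 3307) (nat_lit 202) (.e (nat_lit 573489) (nat_lit 14) (.e (nat_lit 73755) (nat_lit 8) (.e (nat_lit 557103) (nat_lit 14) .nil))))) (.g (nat_lit 0) (.e (nat_lit 14446) (nat_lit 0) .nil) .nil)))) (.nd (nat_lit 9) 
(.lf (nat_lit 449837) (.g (nat_lit 2584) (.e (nat_lit 2443) (nat_lit 157) (.e (nat_lit 2668) (nat_lit 167) (.e (nat_lit 196666) (nat_lit 13) (.e (nat_lit 65610) (nat_lit 10) (.e (nat_lit 344117) (nat_lit 21) .nil))))) (.g (nat_lit 0) (.e (nat_lit 13585) (nat_lit 0) .nil) .nil))) 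
(.lf (nat_lit 450349) (.g (nat_lit 3477) (.e (nat_lit 2551) (nat_lit 159) (.e (nat_lit 24658) (nat_lit 13) (.e (nat_lit 393301) (nat_lit 27) (.e (nat_lit 491559) (nat_lit 10) (.e (nat_lit 344098) (nat_lit 18) .nil))))) (.g (nat_lit 0) (.e (nat_lit 15498) (nat_lit 0) .nil) .nil))))) (.nd (nat_lit 8) (.nd (nat_lit 9) 
(.lf (nat_lit 449709) (.g (nat_lit 4321) (.e (nat_lit 2400) (nat_lit 157) (.e (nat_lit 7586) (nat_lit 406) (.e (nat_lit 65571) (nat_lit 3) (.e (nat_lit 98389) (nat_lit 33) (.e (nat_lit 491560) (nat_lit 10) (.e (nat_lit 344107) (nat_lit 19) (.e (nat_lit 499825) (nat_lit 5) .nil))))))) (.g (nat_lit 1) (.e (nat_lit 13044) (nat_lit 0) .nil) .nil))) 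
(.lf (nat_lit 450221) (.g (nat_lit 4178) (.e (nat_lit 2518) (nat_lit 157) (.e (nat_lit 2664) (nat_lit 167) (.e (nat_lit 196666) (nat_lit 13) (.e (nat_lit 65610) (nat_lit 10) (.e (nat_lit 344117) (nat_lit 21) (.e (nat_lit 516160) (nat_lit 10) (.e (nat_lit 434208) (nat_lit 18) (.e (nat_lit 4751) (nat_lit 281) .nil)))))))) (.g (nat_lit 1) (.e (nat_lit 15163) (nat_lit 0) .nil) .nil)))) 
(.nd (nat_lit 9) 
(.lf (nat_lit 449965) (.g (nat_lit 3611) (.e (nat_lit 2461) (nat_lit 157) (.e (nat_lit 3307) (nat_lit 202) (.e (nat_lit 573489) (nat_lit 14) (.e (nat_lit 73755) (nat_lit 8) (.e (nat_lit 557105) (nat_lit 14) (.e (nat_lit 180252) (nat_lit 10) (.e (nat_lit 573474) (nat_lit 12) (.e (nat_lit 57504) (nat_lit 38) (.e (nat_lit 638985) (nat_lit 5) .nil))))))))) (.g (nat_lit 1) (.e (nat_lit 14101) (nat_lit 0) .nil) .nil))) 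
(.lf (nat_lit 450477) (.g (nat_lit 4316) (.e (nat_lit 2557) (nat_lit 159) (.e (nat_lit 24604) (nat_lit 2) (.e (nat_lit 90170) (nat_lit 13) (.e (nat_lit 172106) (nat_lit 10) (.e (nat_lit 434231) (nat_lit 23) (.e (nat_lit 532500) (nat_lit 1) (.e (nat_lit 65280) (nat_lit 233) .nil))))))) (.g (nat_lit 1) (.e (nat_lit 16131) (nat_lit 0) .nil) .nil)))))) 
(.nd (nat_lit 7) (.nd (nat_lit 8) (.nd (nat_lit 9) 
(.lf (nat_lit 449645) (.g (nat_lit 1698) (.e (nat_lit 943) (nat_lit 77) (.e (nat_lit 794661) (nat_lit 21) (.e (nat_lit 164322) (nat_lit 230) (.e (nat_lit 163902) (nat_lit 12) (.e (nat_lit 426428) (nat_lit 17) .nil))))) (.g (nat_lit 0) (.e (nat_lit 12841) (nat_lit 0) .nil) .nil))) 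
(.lf (nat_lit 450157) (.g (nat_lit 4784) (.e (nat_lit 2506) (nat_lit 157) (.e (nat_lit 5664) (nat_lit 312) (.e (nat_lit 2661) (nat_lit 167) (.e (nat_lit 196666) (nat_lit 13) (.e (nat_lit 65610) (nat_lit 10) (.e (nat_lit 344117) (nat_lit 21) (.e (nat_lit 516106) (nat_lit 0) (.e (nat_lit 6986) (nat_lit 377) .nil)))))))) (.g (nat_lit 1) (.e (nat_lit 14850) (nat_lit 0) .nil) .nil)))) (.nd (nat_lit 9) 
(.lf (nat_lit 449901) (.g (nat_lit 3532) (.e (nat_lit 2454) (nat_lit 157) (.e (nat_lit 2663) (nat_lit 167) (.e (nat_lit 196666) (nat_lit 13) (.e (nat_lit 65610) (nat_lit 10) (.e (nat_lit 344117) (nat_lit 21) (.e (nat_lit 516151) (nat_lit 9) (.e (nat_lit 426104) (nat_lit 1) (.e (nat_lit 164255) (nat_lit 215) .nil)))))))) (.g (nat_lit 1) (.e (nat_lit 13879) (nat_lit 0) .nil) .nil))) 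
(.lf (nat_lit 450413) (.g (nat_lit 3596) (.e (nat_lit 2554) (nat_lit 159) (.e (nat_lit 24608) (nat_lit 3) (.e (nat_lit 98372) (nat_lit 29) (.e (nat_lit 450579) (nat_lit 5) (.e (nat_lit 532501) (nat_lit 1) .nil))))) (.g (nat_lit 0) (.e (nat_lit 15793) (nat_lit 0) .nil) .nil))))) (.nd (nat_lit 8) (.nd (nat_lit 9) 
(.lf (nat_lit 449773) (.g (nat_lit 4452) (.e (nat_lit 2425) (nat_lit 157) (.e (nat_lit 4849) (nat_lit 285) (.e (nat_lit 163870) (nat_lit 2) (.e (nat_lit 196666) (nat_lit 13) (.e (nat_lit 65610) (nat_lit 10) (.e (nat_lit 344117) (nat_lit 21) (.e (nat_lit 516151) (nat_lit 9) (.e (nat_lit 426043) (nat_lit 0) .nil)))))))) (.g (nat_lit 1) (.e (nat_lit 13268) (nat_lit 0) .nil) .nil))) 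
(.lf (nat_lit 450285) (.g (nat_lit 2199) (.e (nat_lit 2551) (nat_lit 159) (.e (nat_lit 24640) (nat_lit 10) (.e (nat_lit 344156) (nat_lit 36) (.e (nat_lit 638985) (nat_lit 5) (.e (nat_lit 3015) (nat_lit 187) .nil))))) (.g (nat_lit 0) (.e (nat_lit 15429) (nat_lit 0) .nil) .nil)))) (.nd (nat_lit 9) 
(.lf (nat_lit 450029) (.g (nat_lit 3542) (.e (nat_lit 2477) (nat_lit 157) (.e (nat_lit 2663) (nat_lit 167) (.e (nat_lit 196666) (nat_lit 13) (.e (nat_lit 65610) (nat_lit 10) (.e (nat_lit 344117) (nat_lit 21) (.e (nat_lit 516151) (nat_lit 9) (.e (nat_lit 426037) (nat_lit 0) (.e (nat_lit 2515) (nat_lit 157) (.e (nat_lit 4823) (nat_lit 281) .nil))))))))) (.g (nat_lit 1) (.e (nat_lit 14271) (nat_lit 0) .nil) .nil))) 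
(.lf (nat_lit 450541) (.g (nat_lit 2765) (.e (nat_lit 2559) (nat_lit 159) (.e (nat_lit 24640) (nat_lit 10) (.e (nat_lit 344156) (nat_lit 36) (.e (nat_lit 639001) (nat_lit 10) (.e (nat_lit 188455) (nat_lit 24) (.e (nat_lit 229698) (nat_lit 254) .nil)))))) (.g (nat_lit 1) (.e (nat_lit 16305) (nat_lit 0) .nil) .nil)))))))) 
(.nd (nat_lit 5) (.nd (nat_lit 6) (.nd (nat_lit 7) (.nd (nat_lit 8) (.nd (nat_lit 9) 
(.lf (nat_lit 449565) (.g (nat_lit 2189) (.e (nat_lit 883) (nat_lit 75) (.e (nat_lit 778465) (nat_lit 11) (.e (nat_lit 24617) (nat_lit 7) (.e (nat_lit 319530) (nat_lit 16) (.e (nat_lit 286759) (nat_lit 12) .nil))))) (.g (nat_lit 0) (.e (nat_lit 12643) (nat_lit 0) .nil) .nil))) 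
(.lf (nat_lit 450077) (.g (nat_lit 3482) (.e (nat_lit 2479) (nat_lit 157) (.e (nat_lit 2663) (nat_lit 167) (.e (nat_lit 196666) (nat_lit 13) (.e (nat_lit 65610) (nat_lit 10) (.e (nat_lit 344117) (nat_lit 21) (.e (nat_lit 516151) (nat_lit 9) (.e (nat_lit 426038) (nat_lit 0) (.e (nat_lit 2427) (nat_lit 157) (.e (nat_lit 4778) (nat_lit 281) .nil))))))))) (.g (nat_lit 1) (.e (nat_lit 14388) (nat_lit 0) .nil) .nil)))) 
(.nd (nat_lit 9) 
(.lf (nat_lit 449821) (.g (nat_lit 4538) (.e (nat_lit 2434) (nat_lit 157) (.e (nat_lit 3471) (nat_lit 217) (.e (nat_lit 696344) (nat_lit 8) (.e (nat_lit 172064) (nat_lit 2) (.e (nat_lit 196666) (nat_lit 13) (.e (nat_lit 65610) (nat_lit 10) (.e (nat_lit 344129) (nat_lit 26) (.e (nat_lit 557067) (nat_lit 9) .nil)))))))) (.g (nat_lit 1) (.e (nat_lit 13511) (nat_lit 0) .nil) .nil))) 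
(.lf (nat_lit 450333) (.g (nat_lit 2132) (.e (nat_lit 2551) (nat_lit 159) (.e (nat_lit 24640) (nat_lit 10) (.e (nat_lit 344156) (nat_lit 36) (.e (nat_lit 638998) (nat_lit 8) (.e (nat_lit 172115) (nat_lit 10) (.e (nat_lit 434202) (nat_lit 18) (.e (nat_lit 5847) (nat_lit 320) .nil))))))) (.g (nat_lit 1) (.e (nat_lit 15478) (nat_lit 0) .nil) .nil))))) (.nd (nat_lit 8) (.nd (nat_lit 9) 
(.lf (nat_lit 449693) (.g (nat_lit 4329) (.e (nat_lit 2397) (nat_lit 157) (.e (nat_lit 7590) (nat_lit 407) (.e (nat_lit 73747) (nat_lit 3) (.e (nat_lit 516139) (nat_lit 7) (.e (nat_lit 409642) (nat_lit 17) (.e (nat_lit 294928) (nat_lit 2) (.e (nat_lit 90133) (nat_lit 9) .nil))))))) (.g (nat_lit 1) (.e (nat_lit 12955) (nat_lit 0) .nil) .nil))) 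
(.lf (nat_lit 450205) (.g (nat_lit 2165) (.e (nat_lit 2513) (nat_lit 157) (.e (nat_lit 3090) (nat_lit 191) (.e (nat_lit 483363) (nat_lit 18) (.e (nat_lit 57655) (nat_lit 152) (.e (nat_lit 1207) (nat_lit 89) .nil))))) (.g (nat_lit 0) (.e (nat_lit 15091) (nat_lit 0) .nil) .nil)))) (.nd (nat_lit 9) 
(.lf (nat_lit 449949) (.g (nat_lit 3514) (.e (nat_lit 2458) (nat_lit 157) (.e (nat_lit 5547) (nat_lit 306) (.e (nat_lit 2611) (nat_lit 163) (.e (nat_lit 163978) (nat_lit 30) (.e (nat_lit 573479) (nat_lit 13) (.e (nat_lit 65604) (nat_lit 9) (.e (nat_lit 336013) (nat_lit 2) (.e (nat_lit 90170) (nat_lit 13) (.e (nat_lit 172042) (nat_lit 0) .nil))))))))) (.g (nat_lit 1) (.e (nat_lit 14036) (nat_lit 0) .nil) .nil))) 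
(.lf (nat_lit 450461) (.g (nat_lit 3388) (.e (nat_lit 2556) (nat_lit 159) (.e (nat_lit 24608) (nat_lit 3) (.e (nat_lit 98372) (nat_lit 29) (.e (nat_lit 450579) (nat_lit 5) (.e (nat_lit 532503) (nat_lit 1) .nil))))) (.g (nat_lit 0) (.e (nat_lit 16055) (nat_lit 0) .nil) .nil)))))) (.nd (nat_lit 7) (.nd (nat_lit 8) (.nd (nat_lit 9) 
(.lf (nat_lit 449629) (.g (nat_lit 1219) (.e (nat_lit 932) (nat_lit 76) (.e (nat_lit 786481) (nat_lit 30) (.e (nat_lit 368384) (nat_lit 5) (.e (nat_lit 532579) (nat_lit 26) (.e (nat_lit 426172) (nat_lit 7) (.e (nat_lit 417536) (nat_lit 10) .nil)))))) (.g (nat_lit 1) (.e (nat_lit 12793) (nat_lit 0) .nil) .nil))) 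
(.lf (nat_lit 450141) (.g (nat_lit 688) (.e (nat_lit 2505) (nat_lit 157) (.e (nat_lit 3249) (nat_lit 197) (.e (nat_lit 532544) (nat_lit 10) (.e (nat_lit 344081) (nat_lit 13) .nil)))) (.g (nat_lit 0) (.e (nat_lit 14737) (nat_lit 0) .nil) .nil)))) (.nd (nat_lit 9) 
(.lf (nat_lit 449885) (.g (nat_lit 3894) (.e (nat_lit 2450) (nat_lit 157) (.e (nat_lit 3098) (nat_lit 192) (.e (nat_lit 491569) (nat_lit 13) (.e (nat_lit 393301) (nat_lit 27) (.e (nat_lit 491558) (nat_lit 10) (.e (nat_lit 344091) (nat_lit 18) (.e (nat_lit 6852) (nat_lit 371) .nil))))))) (.g (nat_lit 1) (.e (nat_lit 13849) (nat_lit 0) .nil) .nil))) 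
(.lf (nat_lit 450397) (.g (nat_lit 1968) (.e (nat_lit 2553) (nat_lit 159) (.e (nat_lit 24640) (nat_lit 10) (.e (nat_lit 344156) (nat_lit 36) (.e (nat_lit 638998) (nat_lit 8) (.e (nat_lit 172115) (nat_lit 10) .nil))))) (.g (nat_lit 0) (.e (nat_lit 15744) (nat_lit 0) .nil) .nil))))) (.nd (nat_lit 8) (.nd (nat_lit 9) 
(.lf (nat_lit 449757) (.g (nat_lit 2594) (.e (nat_lit 2417) (nat_lit 157) (.e (nat_lit 3540) (nat_lit 218) (.e (nat_lit 704738) (nat_lit 11) (.e (nat_lit 16425) (nat_lit 7) (.e (nat_lit 409649) (nat_lit 18) .nil))))) (.g (nat_lit 0) (.e (nat_lit 13208) (nat_lit 0) .nil) .nil))) 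
(.lf (nat_lit 450269) (.g (nat_lit 1457) (.e (nat_lit 2551) (nat_lit 159) (.e (nat_lit 24608) (nat_lit 3) (.e (nat_lit 98365) (nat_lit 26) (.e (nat_lit 426298) (nat_lit 11) .nil)))) (.g (nat_lit 0) (.e (nat_lit 15400) (nat_lit 0) .nil) .nil)))) (.nd (nat_lit 9) 
(.lf (nat_lit 450013) (.g (nat_lit 3520) (.e (nat_lit 2477) (nat_lit 157) (.e (nat_lit 2663) (nat_lit 167) (.e (nat_lit 196666) (nat_lit 13) (.e (nat_lit 65610) (nat_lit 10) (.e (nat_lit 344117) (nat_lit 21) (.e (nat_lit 516151) (nat_lit 9) (.e (nat_lit 426017) (nat_lit 0) (.e (nat_lit 2398) (nat_lit 157) (.e (nat_lit 4830) (nat_lit 281) .nil))))))))) (.g (nat_lit 1) (.e (nat_lit 14255) (nat_lit 0) .nil) .nil))) 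
(.lf (nat_lit 450525) (.g (nat_lit 2432) (.e (nat_lit 2559) (nat_lit 159) (.e (nat_lit 24617) (nat_lit 7) (.e (nat_lit 319505) (nat_lit 10) (.e (nat_lit 618) (nat_lit 48) (.e (nat_lit 557101) (nat_lit 13) .nil))))) (.g (nat_lit 0) (.e (nat_lit 16283) (nat_lit 0) .nil) .nil))))))) (.nd (nat_lit 6) (.nd (nat_lit 7) (.nd (nat_lit 8) (.nd (nat_lit 9) 
(.lf (nat_lit 449597) (.g (nat_lit 1930) (.e (nat_lit 883) (nat_lit 75) (.e (nat_lit 778466) (nat_lit 11) (.e (nat_lit 24617) (nat_lit 7) (.e (nat_lit 319528) (nat_lit 16) (.e (nat_lit 286759) (nat_lit 12) (.e (nat_lit 385093) (nat_lit 49) (.e (nat_lit 778510) (nat_lit 14) (.e (nat_lit 982) (nat_lit 81) .nil)))))))) (.g (nat_lit 1) (.e (nat_lit 12679) (nat_lit 0) .nil) .nil))) 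
(.lf (nat_lit 450109) (.g (nat_lit 3371) (.e (nat_lit 2487) (nat_lit 157) (.e (nat_lit 2663) (nat_lit 167) (.e (nat_lit 196666) (nat_lit 13) (.e (nat_lit 65610) (nat_lit 10) (.e (nat_lit 344117) (nat_lit 21) .nil))))) (.g (nat_lit 0) (.e (nat_lit 14496) (nat_lit 0) .nil) .nil)))) (.nd (nat_lit 9) 
(.lf (nat_lit 449853) (.g (nat_lit 5103) (.e (nat_lit 2444) (nat_lit 157) (.e (nat_lit 3098) (nat_lit 192) (.e (nat_lit 491569) (nat_lit 13) (.e (nat_lit 393301) (nat_lit 27) (.e (nat_lit 491560) (nat_lit 10) (.e (nat_lit 344097) (nat_lit 18) (.e (nat_lit 6875) (nat_lit 371) .nil))))))) (.g (nat_lit 1) (.e (nat_lit 13662) (nat_lit 0) .nil) .nil))) 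
(.lf (nat_lit 450365) (.g (nat_lit 1540) (.e (nat_lit 2552) (nat_lit 159) (.e (nat_lit 24658) (nat_lit 13) (.e (nat_lit 393301) (nat_lit 27) .nil))) (.g (nat_lit 0) (.e (nat_lit 15669) (nat_lit 0) .nil) .nil))))) (.nd (nat_lit 8) (.nd (nat_lit 9) 
(.lf (nat_lit 449725) (.g (nat_lit 3846) (.e (nat_lit 2403) (nat_lit 157) (.e (nat_lit 4825) (nat_lit 281) (.e (nat_lit 2416) (nat_lit 157) (.e (nat_lit 2666) (nat_lit 167) (.e (nat_lit 196666) (nat_lit 13) (.e (nat_lit 65610) (nat_lit 10) (.e (nat_lit 344117) (nat_lit 21) (.e (nat_lit 516151) (nat_lit 9) (.e (nat_lit 426023) (nat_lit 0) .nil))))))))) (.g (nat_lit 1) (.e (nat_lit 13075) (nat_lit 0) .nil) .nil))) 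
(.lf (nat_lit 450237) (.g (nat_lit 4145) (.e (nat_lit 2515) (nat_lit 157) (.e (nat_lit 5947) (nat_lit 322) (.e (nat_lit 57371) (nat_lit 2) (.e (nat_lit 90174) (nat_lit 14) (.e (nat_lit 180243) (nat_lit 5) (.e (nat_lit 532515) (nat_lit 3) (.e (nat_lit 114719) (nat_lit 23) (.e (nat_lit 98325) (nat_lit 17) .nil)))))))) (.g (nat_lit 1) (.e (nat_lit 15242) (nat_lit 0) .nil) .nil)))) (.nd (nat_lit 9) 
(.lf (nat_lit 449981) (.g (nat_lit 2377) (.e (nat_lit 2466) (nat_lit 157) (.e (nat_lit 3307) (nat_lit 202) (.e (nat_lit 573489) (nat_lit 14) (.e (nat_lit 73755) (nat_lit 8) (.e (nat_lit 557105) (nat_lit 14) .nil))))) (.g (nat_lit 0) (.e (nat_lit 14146) (nat_lit 0) .nil) .nil))) 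
(.lf (nat_lit 450493) (.g (nat_lit 1994) (.e (nat_lit 2557) (nat_lit 159) (.e (nat_lit 24662) (nat_lit 14) (.e (nat_lit 401425) (nat_lit 2) .nil))) (.g (nat_lit 0) (.e (nat_lit 16187) (nat_lit 0) .nil) .nil)))))) (.nd (nat_lit 7) (.nd (nat_lit 8) (.nd (nat_lit 9) 
(.lf (nat_lit 449661) (.g (nat_lit 2433) (.e (nat_lit 755) (nat_lit 66) (.e (nat_lit 704738) (nat_lit 11) (.e (nat_lit 16425) (nat_lit 7) (.e (nat_lit 409644) (nat_lit 18) .nil)))) (.g (nat_lit 0) (.e (nat_lit 12878) (nat_lit 0) .nil) .nil))) 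
(.lf (nat_lit 450173) (.g (nat_lit 3765) (.e (nat_lit 2508) (nat_lit 157) (.e (nat_lit 3249) (nat_lit 197) (.e (nat_lit 532526) (nat_lit 8) (.e (nat_lit 327698) (nat_lit 8) (.e (nat_lit 303117) (nat_lit 2) (.e (nat_lit 196670) (nat_lit 14) (.e (nat_lit 73779) (nat_lit 32) .nil))))))) (.g (nat_lit 1) (.e (nat_lit 14914) (nat_lit 0) .nil) .nil)))) (.nd (nat_lit 9) 
(.lf (nat_lit 449917) (.g (nat_lit 4570) (.e (nat_lit 2458) (nat_lit 157) (.e (nat_lit 5546) (nat_lit 306) (.e (nat_lit 2600) (nat_lit 163) (.e (nat_lit 163977) (nat_lit 30) (.e (nat_lit 573485) (nat_lit 13) (.e (nat_lit 65604) (nat_lit 9) (.e (nat_lit 336013) (nat_lit 2) (.e (nat_lit 90170) (nat_lit 13) (.e (nat_lit 172046) (nat_lit 0) .nil))))))))) (.g (nat_lit 1) (.e (nat_lit 13953) (nat_lit 0) .nil) .nil))) 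
(.lf (nat_lit 450429) (.g (nat_lit 1344) (.e (nat_lit 2555) (nat_lit 159) (.e (nat_lit 24608) (nat_lit 3) (.e (nat_lit 98373) (nat_lit 29) .nil))) (.g (nat_lit 0) (.e (nat_lit 15892) (nat_lit 0) .nil) .nil))))) (.nd (nat_lit 8) (.nd (nat_lit 9) 
(.lf (nat_lit 449789) (.g (nat_lit 3446) (.e (nat_lit 2433) (nat_lit 157) (.e (nat_lit 2668) (nat_lit 167) (.e (nat_lit 196656) (nat_lit 11) (.e (nat_lit 16435) (nat_lit 9) (.e (nat_lit 426566) (nat_lit 34) (.e (nat_lit 393252) (nat_lit 18) (.e (nat_lit 164305) (nat_lit 226) .nil))))))) (.g (nat_lit 1) (.e (nat_lit 13386) (nat_lit 0) .nil) .nil))) 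
(.lf (nat_lit 450301) (.g (nat_lit 2816) (.e (nat_lit 2551) (nat_lit 159) (.e (nat_lit 24640) (nat_lit 10) (.e (nat_lit 344156) (nat_lit 36) (.e (nat_lit 638985) (nat_lit 5) (.e (nat_lit 3027) (nat_lit 187) (.e (nat_lit 450567) (nat_lit 0) (.e (nat_lit 5826) (nat_lit 320) .nil))))))) (.g (nat_lit 1) (.e (nat_lit 15445) (nat_lit 0) .nil) .nil)))) (.nd (nat_lit 9) 
(.lf (nat_lit 450045) (.g (nat_lit 3354) (.e (nat_lit 2477) (nat_lit 157) (.e (nat_lit 2663) (nat_lit 167) (.e (nat_lit 196666) (nat_lit 13) (.e (nat_lit 65610) (nat_lit 10) (.e (nat_lit 344117) (nat_lit 21) (.e (nat_lit 516151) (nat_lit 9) (.e (nat_lit 426047) (nat_lit 0) (.e (nat_lit 2422) (nat_lit 157) (.e (nat_lit 4778) (nat_lit 281) .nil))))))))) (.g (nat_lit 1) (.e (nat_lit 14287) (nat_lit 0) .nil) .nil))) 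
(.lf (nat_lit 450557) (.g (nat_lit 4258) (.e (nat_lit 2560) (nat_lit 159) (.e (nat_lit 24658) (nat_lit 13) (.e (nat_lit 393301) (nat_lit 27) (.e (nat_lit 491559) (nat_lit 10) (.e (nat_lit 344089) (nat_lit 18) .nil))))) (.g (nat_lit 0) (.e (nat_lit 16376) (nat_lit 0) .nil) .nil))))))))))) 
(.nd (nat_lit 2) (.nd (nat_lit 3) (.nd (nat_lit 4) (.nd (nat_lit 5) (.nd (nat_lit 6) 
(.nd (nat_lit 7) (.nd (nat_lit 8) (.nd (nat_lit 9) 
(.lf (nat_lit 449539) (.g (nat_lit 2321) (.e (nat_lit 879) (nat_lit 75) (.e (nat_lit 778466) (nat_lit 11) (.e (nat_lit 24617) (nat_lit 7) (.e (nat_lit 319532) (nat_lit 16) .nil)))) (.g (nat_lit 0) (.e (nat_lit 12613) (nat_lit 0) .nil) .nil))) 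
(.lf (nat_lit 450051) (.g (nat_lit 3584) (.e (nat_lit 2477) (nat_lit 157) (.e (nat_lit 2663) (nat_lit 167) (.e (nat_lit 196670) (nat_lit 14) (.e (nat_lit 73753) (nat_lit 8) (.e (nat_lit 557103) (nat_lit 14) (.e (nat_lit 180243) (nat_lit 5) (.e (nat_lit 532501) (nat_lit 1) (.e (nat_lit 57703) (nat_lit 164) .nil)))))))) (.g (nat_lit 1) (.e (nat_lit 14295) (nat_lit 0) .nil) .nil)))) (.nd (nat_lit 9) 
(.lf (nat_lit 449795) (.g (nat_lit 2358) (.e (nat_lit 2433) (nat_lit 157) (.e (nat_lit 2668) (nat_lit 167) (.e (nat_lit 196666) (nat_lit 13) (.e (nat_lit 65610) (nat_lit 10) (.e (nat_lit 344117) (nat_lit 21) (.e (nat_lit 516151) (nat_lit 9) (.e (nat_lit 426023) (nat_lit 0) (.e (nat_lit 2402) (nat_lit 157) (.e (nat_lit 4761) (nat_lit 281) .nil))))))))) (.g (nat_lit 1) (.e (nat_lit 13402) (nat_lit 0) .nil) .nil))) 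
(.lf (nat_lit 450307) (.g (nat_lit 1972) (.e (nat_lit 2551) (nat_lit 159) (.e (nat_lit 24640) (nat_lit 10) (.e (nat_lit 344156) (nat_lit 36) (.e (nat_lit 638998) (nat_lit 8) (.e (nat_lit 172107) (nat_lit 10) (.e (nat_lit 434203) (nat_lit 18) (.e (nat_lit 5799) (nat_lit 320) .nil))))))) (.g (nat_lit 1) (.e (nat_lit 15452) (nat_lit 0) .nil) .nil))))) (.nd (nat_lit 8) (.nd (nat_lit 9) 
(.lf (nat_lit 449667) (.g (nat_lit 2228) (.e (nat_lit 788) (nat_lit 66) (.e (nat_lit 704738) (nat_lit 11) (.e (nat_lit 16425) (nat_lit 7) (.e (nat_lit 409643) (nat_lit 18) (.e (nat_lit 303143) (nat_lit 12) .nil))))) (.g (nat_lit 0) (.e (nat_lit 12888) (nat_lit 0) .nil) .nil))) 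
(.lf (nat_lit 450179) (.g (nat_lit 1917) (.e (nat_lit 2508) (nat_lit 157) (.e (nat_lit 3249) (nat_lit 197) (.e (nat_lit 532547) (nat_lit 11) (.e (nat_lit 352318) (nat_lit 24) (.e (nat_lit 123040) (nat_lit 140) .nil))))) (.g (nat_lit 0) (.e (nat_lit 14958) (nat_lit 0) .nil) .nil)))) (.nd (nat_lit 9) 
(.lf (nat_lit 449923) (.g (nat_lit 2085) (.e (nat_lit 2458) (nat_lit 157) (.e (nat_lit 5546) (nat_lit 306) (.e (nat_lit 2610) (nat_lit 163) (.e (nat_lit 163979) (nat_lit 30) (.e (nat_lit 573482) (nat_lit 13) .nil))))) (.g (nat_lit 0) (.e (nat_lit 13966) (nat_lit 0) .nil) .nil))) 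
(.lf (nat_lit 450435) (.g (nat_lit 2530) (.e (nat_lit 2555) (nat_lit 159) (.e (nat_lit 24617) (nat_lit 7) (.e (nat_lit 319533) (nat_lit 16) (.e (nat_lit 286753) (nat_lit 10) (.e (nat_lit 344160) (nat_lit 37) (.e (nat_lit 647200) (nat_lit 12) (.e (nat_lit 57347) (nat_lit 0) (.e (nat_lit 7464) (nat_lit 396) .nil)))))))) (.g (nat_lit 1) (.e (nat_lit 15906) (nat_lit 0) .nil) .nil)))))) 
(.nd (nat_lit 7) (.nd (nat_lit 8) (.nd (nat_lit 9) 
(.lf (nat_lit 449603) (.g (nat_lit 2532) (.e (nat_lit 883) (nat_lit 75) (.e (nat_lit 778466) (nat_lit 11) (.e (nat_lit 24617) (nat_lit 7) (.e (nat_lit 319531) (nat_lit 16) (.e (nat_lit 286759) (nat_lit 12) (.e (nat_lit 385115) (nat_lit 53) (.e (nat_lit 811032) (nat_lit 11) .nil))))))) (.g (nat_lit 1) (.e (nat_lit 12685) (nat_lit 0) .nil) .nil))) 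
(.lf (nat_lit 450115) (.g (nat_lit 3492) (.e (nat_lit 2490) (nat_lit 157) (.e (nat_lit 2663) (nat_lit 167) (.e (nat_lit 196666) (nat_lit 13) (.e (nat_lit 65610) (nat_lit 10) (.e (nat_lit 344117) (nat_lit 21) (.e (nat_lit 516160) (nat_lit 10) (.e (nat_lit 434208) (nat_lit 18) (.e (nat_lit 4751) (nat_lit 281) .nil)))))))) (.g (nat_lit 1) (.e (nat_lit 14585) (nat_lit 0) .nil) .nil)))) 
(.nd (nat_lit 9) 
(.lf (nat_lit 449859) (.g (nat_lit 3540) (.e (nat_lit 2445) (nat_lit 157) (.e (nat_lit 2668) (nat_lit 167) (.e (nat_lit 196666) (nat_lit 13) (.e (nat_lit 65610) (nat_lit 10) (.e (nat_lit 344117) (nat_lit 21) (.e (nat_lit 516160) (nat_lit 10) (.e (nat_lit 434206) (nat_lit 18) (.e (nat_lit 4778) (nat_lit 281) .nil)))))))) (.g (nat_lit 1) (.e (nat_lit 13676) (nat_lit 0) .nil) .nil))) 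
(.lf (nat_lit 450371) (.g (nat_lit 2483) (.e (nat_lit 2553) (nat_lit 159) (.e (nat_lit 24604) (nat_lit 2) (.e (nat_lit 90176) (nat_lit 15) (.e (nat_lit 188450) (nat_lit 23) (.e (nat_lit 204830) (nat_lit 18) (.e (nat_lit 65280) (nat_lit 233) .nil)))))) (.g (nat_lit 1) (.e (nat_lit 15708) (nat_lit 0) .nil) .nil))))) (.nd (nat_lit 8) (.nd (nat_lit 9) 
(.lf (nat_lit 449731) (.g (nat_lit 1889) (.e (nat_lit 2399) (nat_lit 157) (.e (nat_lit 5968) (nat_lit 324) (.e (nat_lit 163871) (nat_lit 2) (.e (nat_lit 196665) (nat_lit 13) (.e (nat_lit 65633) (nat_lit 15) .nil))))) (.g (nat_lit 0) (.e (nat_lit 13117) (nat_lit 0) .nil) .nil))) 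
(.lf (nat_lit 450243) (.g (nat_lit 2252) (.e (nat_lit 2516) (nat_lit 157) (.e (nat_lit 2664) (nat_lit 167) (.e (nat_lit 196666) (nat_lit 13) (.e (nat_lit 65610) (nat_lit 10) (.e (nat_lit 344117) (nat_lit 21) .nil))))) (.g (nat_lit 0) (.e (nat_lit 15251) (nat_lit 0) .nil) .nil)))) (.nd (nat_lit 9) 
(.lf (nat_lit 449987) (.g (nat_lit 4927) (.e (nat_lit 2466) (nat_lit 157) (.e (nat_lit 3469) (nat_lit 217) (.e (nat_lit 696344) (nat_lit 8) (.e (nat_lit 172064) (nat_lit 2) (.e (nat_lit 196666) (nat_lit 13) (.e (nat_lit 65610) (nat_lit 10) (.e (nat_lit 344129) (nat_lit 26) (.e (nat_lit 557067) (nat_lit 9) .nil)))))))) (.g (nat_lit 1) (.e (nat_lit 14155) (nat_lit 0) .nil) .nil))) 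
(.lf (nat_lit 450499) (.g (nat_lit 3685) (.e (nat_lit 2557) (nat_lit 159) (.e (nat_lit 24662) (nat_lit 14) (.e (nat_lit 401459) (nat_lit 13) (.e (nat_lit 483395) (nat_lit 24) (.e (nat_lit 344096) (nat_lit 18) (.e (nat_lit 4764) (nat_lit 281) .nil)))))) (.g (nat_lit 1) (.e (nat_lit 16197) (nat_lit 0) .nil) .nil))))))) (.nd (nat_lit 6) (.nd (nat_lit 7) (.nd (nat_lit 8) (.nd (nat_lit 9) 
(.lf (nat_lit 449571) (.g (nat_lit 3648) (.e (nat_lit 883) (nat_lit 75) (.e (nat_lit 778465) (nat_lit 11) (.e (nat_lit 24617) (nat_lit 7) (.e (nat_lit 319531) (nat_lit 16) (.e (nat_lit 286759) (nat_lit 12) (.e (nat_lit 385115) (nat_lit 53) (.e (nat_lit 811031) (nat_lit 11) .nil))))))) (.g (nat_lit 1) (.e (nat_lit 12649) (nat_lit 0) .nil) .nil))) 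
(.lf (nat_lit 450083) (.g (nat_lit 2678) (.e (nat_lit 2482) (nat_lit 157) (.e (nat_lit 3307) (nat_lit 202) (.e (nat_lit 573489) (nat_lit 14) (.e (nat_lit 73755) (nat_lit 8) (.e (nat_lit 557105) (nat_lit 14) .nil))))) (.g (nat_lit 0) (.e (nat_lit 14423) (nat_lit 0) .nil) .nil)))) (.nd (nat_lit 9) 
(.lf (nat_lit 449827) (.g (nat_lit 1587) (.e (nat_lit 2440) (nat_lit 157) (.e (nat_lit 3098) (nat_lit 192) (.e (nat_lit 491568) (nat_lit 13) (.e (nat_lit 393301) (nat_lit 27) .nil)))) (.g (nat_lit 0) (.e (nat_lit 13539) (nat_lit 0) .nil) .nil))) 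
(.lf (nat_lit 450339) (.g (nat_lit 1874) (.e (nat_lit 2551) (nat_lit 159) (.e (nat_lit 24640) (nat_lit 10) (.e (nat_lit 344156) (nat_lit 36) (.e (nat_lit 638999) (nat_lit 8) .nil)))) (.g (nat_lit 0) (.e (nat_lit 15484) (nat_lit 0) .nil) .nil))))) (.nd (nat_lit 8) (.nd (nat_lit 9) 
(.lf (nat_lit 449699) (.g (nat_lit 1849) (.e (nat_lit 2400) (nat_lit 157) (.e (nat_lit 7064) (nat_lit 377) (.e (nat_lit 1349) (nat_lit 102) (.e (nat_lit 286735) (nat_lit 3) (.e (nat_lit 98354) (nat_lit 26) .nil))))) (.g (nat_lit 0) (.e (nat_lit 13020) (nat_lit 0) .nil) .nil))) 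
(.lf (nat_lit 450211) (.g (nat_lit 2491) (.e (nat_lit 2517) (nat_lit 157) (.e (nat_lit 2664) (nat_lit 167) (.e (nat_lit 196666) (nat_lit 13) (.e (nat_lit 65610) (nat_lit 10) (.e (nat_lit 344117) (nat_lit 21) (.e (nat_lit 516151) (nat_lit 9) (.e (nat_lit 426043) (nat_lit 0) (.e (nat_lit 2422) (nat_lit 157) (.e (nat_lit 4758) (nat_lit 281) .nil))))))))) (.g (nat_lit 1) (.e (nat_lit 15137) (nat_lit 0) .nil) .nil)))) 
(.nd (nat_lit 9) 
(.lf (nat_lit 449955) (.g (nat_lit 2547) (.e (nat_lit 2458) (nat_lit 157) (.e (nat_lit 7515) (nat_lit 402) (.e (nat_lit 1635) (nat_lit 114) (.e (nat_lit 385073) (nat_lit 31) (.e (nat_lit 573493) (nat_lit 15) (.e (nat_lit 81962) (nat_lit 25) (.e (nat_lit 139289) (nat_lit 9) .nil))))))) (.g (nat_lit 1) (.e (nat_lit 14055) (nat_lit 0) .nil) .nil))) 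
(.lf (nat_lit 450467) (.g (nat_lit 3553) (.e (nat_lit 2556) (nat_lit 159) (.e (nat_lit 24662) (nat_lit 14) (.e (nat_lit 401425) (nat_lit 2) (.e (nat_lit 196666) (nat_lit 13) (.e (nat_lit 65610) (nat_lit 10) .nil))))) (.g (nat_lit 0) (.e (nat_lit 16064) (nat_lit 0) .nil) .nil)))))) (.nd (nat_lit 7) (.nd (nat_lit 8) (.nd (nat_lit 9) 
(.lf (nat_lit 449635) (.g (nat_lit 2403) (.e (nat_lit 934) (nat_lit 76) (.e (nat_lit 786483) (nat_lit 30) (.e (nat_lit 360475) (nat_lit 8) (.e (nat_lit 557119) (nat_lit 18) (.e (nat_lit 2797) (nat_lit 180) (.e (nat_lit 303124) (nat_lit 7) (.e (nat_lit 409612) (nat_lit 10) .nil))))))) (.g (nat_lit 1) (.e (nat_lit 12826) (nat_lit 0) .nil) .nil))) 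
(.lf (nat_lit 450147) (.g (nat_lit 4244) (.e (nat_lit 2505) (nat_lit 157) (.e (nat_lit 3249) (nat_lit 197) (.e (nat_lit 532569) (nat_lit 16) (.e (nat_lit 401448) (nat_lit 10) (.e (nat_lit 434232) (nat_lit 23) (.e (nat_lit 532523) (nat_lit 7) (.e (nat_lit 319504) (nat_lit 10) (.e (nat_lit 5712) (nat_lit 312) .nil)))))))) (.g (nat_lit 1) (.e (nat_lit 14827) (nat_lit 0) .nil) .nil)))) 
(.nd (nat_lit 9) 
(.lf (nat_lit 449891) (.g (nat_lit 4167) (.e (nat_lit 2450) (nat_lit 157) (.e (nat_lit 3098) (nat_lit 192) (.e (nat_lit 491569) (nat_lit 13) (.e (nat_lit 393301) (nat_lit 27) (.e (nat_lit 491560) (nat_lit 10) (.e (nat_lit 344088) (nat_lit 18) (.e (nat_lit 6850) (nat_lit 371) .nil))))))) (.g (nat_lit 1) (.e (nat_lit 13855) (nat_lit 0) .nil) .nil))) 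
(.lf (nat_lit 450403) (.g (nat_lit 3183) (.e (nat_lit 2553) (nat_lit 159) (.e (nat_lit 24658) (nat_lit 13) (.e (nat_lit 393301) (nat_lit 27) (.e (nat_lit 491558) (nat_lit 10) (.e (nat_lit 344089) (nat_lit 18) .nil))))) (.g (nat_lit 0) (.e (nat_lit 15752) (nat_lit 0) .nil) .nil))))) (.nd (nat_lit 8) (.nd (nat_lit 9) 
(.lf (nat_lit 449763) (.g (nat_lit 4423) (.e (nat_lit 2422) (nat_lit 157) (.e (nat_lit 5710) (nat_lit 312) (.e (nat_lit 2664) (nat_lit 167) (.e (nat_lit 196666) (nat_lit 13) (.e (nat_lit 65610) (nat_lit 10) (.e (nat_lit 344117) (nat_lit 21) (.e (nat_lit 516106) (nat_lit 0) (.e (nat_lit 7008) (nat_lit 377) .nil)))))))) (.g (nat_lit 1) (.e (nat_lit 13236) (nat_lit 0) .nil) .nil))) 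
(.lf (nat_lit 450275) (.g (nat_lit 2586) (.e (nat_lit 2551) (nat_lit 159) (.e (nat_lit 24608) (nat_lit 3) (.e (nat_lit 98373) (nat_lit 29) (.e (nat_lit 450587) (nat_lit 10) (.e (nat_lit 573475) (nat_lit 12) (.e (nat_lit 57345) (nat_lit 0) (.e (nat_lit 7458) (nat_lit 396) .nil))))))) (.g (nat_lit 1) (.e (nat_lit 15406) (nat_lit 0) .nil) .nil)))) (.nd (nat_lit 9) 
(.lf (nat_lit 450019) (.g (nat_lit 3471) (.e (nat_lit 2477) (nat_lit 157) (.e (nat_lit 2663) (nat_lit 167) (.e (nat_lit 196666) (nat_lit 13) (.e (nat_lit 65610) (nat_lit 10) (.e (nat_lit 344117) (nat_lit 21) (.e (nat_lit 516151) (nat_lit 9) (.e (nat_lit 426017) (nat_lit 0) (.e (nat_lit 2411) (nat_lit 157) (.e (nat_lit 4829) (nat_lit 281) .nil))))))))) (.g (nat_lit 1) (.e (nat_lit 14261) (nat_lit 0) .nil) .nil))) 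
(.lf (nat_lit 450531) (.g (nat_lit 2315) (.e (nat_lit 2559) (nat_lit 159) (.e (nat_lit 24640) (nat_lit 10) (.e (nat_lit 344156) (nat_lit 36) (.e (nat_lit 638985) (nat_lit 5) (.e (nat_lit 3027) (nat_lit 187) .nil))))) (.g (nat_lit 0) (.e (nat_lit 16294) (nat_lit 0) .nil) .nil)))))))) (.nd (nat_lit 5) (.nd (nat_lit 6) (.nd (nat_lit 7) (.nd (nat_lit 8) (.nd (nat_lit 9) 
(.lf (nat_lit 449555) (.g (nat_lit 2006) (.e (nat_lit 883) (nat_lit 75) (.e (nat_lit 778465) (nat_lit 11) (.e (nat_lit 24617) (nat_lit 7) (.e (nat_lit 319528) (nat_lit 16) (.e (nat_lit 286759) (nat_lit 12) (.e (nat_lit 385093) (nat_lit 49) (.e (nat_lit 778510) (nat_lit 14) (.e (nat_lit 982) (nat_lit 81) .nil)))))))) (.g (nat_lit 1) (.e (nat_lit 12633) (nat_lit 0) .nil) .nil))) 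
(.lf (nat_lit 450067) (.g (nat_lit 3786) (.e (nat_lit 2478) (nat_lit 157) (.e (nat_lit 5548) (nat_lit 306) (.e (nat_lit 2610) (nat_lit 163) (.e (nat_lit 163978) (nat_lit 30) (.e (nat_lit 573479) (nat_lit 13) (.e (nat_lit 65604) (nat_lit 9) (.e (nat_lit 336013) (nat_lit 2) (.e (nat_lit 90170) (nat_lit 13) (.e (nat_lit 172046) (nat_lit 0) .nil))))))))) (.g (nat_lit 1) (.e (nat_lit 14365) (nat_lit 0) .nil) .nil)))) 
(.nd (nat_lit 9) 
(.lf (nat_lit 449811) (.g (nat_lit 2316) (.e (nat_lit 2433) (nat_lit 157) (.e (nat_lit 2849) (nat_lit 184) (.e (nat_lit 426566) (nat_lit 34) (.e (nat_lit 393294) (nat_lit 26) (.e (nat_lit 475177) (nat_lit 24) .nil))))) (.g (nat_lit 0) (.e (nat_lit 13471) (nat_lit 0) .nil) .nil))) 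
(.lf (nat_lit 450323) (.g (nat_lit 2004) (.e (nat_lit 2551) (nat_lit 159) (.e (nat_lit 24640) (nat_lit 10) (.e (nat_lit 344156) (nat_lit 36) (.e (nat_lit 638998) (nat_lit 8) (.e (nat_lit 172115) (nat_lit 10) .nil))))) (.g (nat_lit 0) (.e (nat_lit 15468) (nat_lit 0) .nil) .nil))))) (.nd (nat_lit 8) (.nd (nat_lit 9) 
(.lf (nat_lit 449683) (.g (nat_lit 5152) (.e (nat_lit 2397) (nat_lit 157) (.e (nat_lit 5626) (nat_lit 312) (.e (nat_lit 2668) (nat_lit 167) (.e (nat_lit 196666) (nat_lit 13) (.e (nat_lit 65610) (nat_lit 10) (.e (nat_lit 344117) (nat_lit 21) (.e (nat_lit 516106) (nat_lit 0) (.e (nat_lit 6986) (nat_lit 377) .nil)))))))) (.g (nat_lit 1) (.e (nat_lit 12924) (nat_lit 0) .nil) .nil))) 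
(.lf (nat_lit 450195) (.g (nat_lit 3991) (.e (nat_lit 2510) (nat_lit 157) (.e (nat_lit 2654) (nat_lit 167) (.e (nat_lit 196666) (nat_lit 13) (.e (nat_lit 65610) (nat_lit 10) (.e (nat_lit 344117) (nat_lit 21) (.e (nat_lit 516160) (nat_lit 10) (.e (nat_lit 434208) (nat_lit 18) (.e (nat_lit 4754) (nat_lit 281) .nil)))))))) (.g (nat_lit 1) (.e (nat_lit 15039) (nat_lit 0) .nil) .nil)))) 
(.nd (nat_lit 9) 
(.lf (nat_lit 449939) (.g (nat_lit 2756) (.e (nat_lit 2458) (nat_lit 157) (.e (nat_lit 5547) (nat_lit 306) (.e (nat_lit 2610) (nat_lit 163) (.e (nat_lit 163977) (nat_lit 30) (.e (nat_lit 573482) (nat_lit 13) (.e (nat_lit 65604) (nat_lit 9) (.e (nat_lit 336028) (nat_lit 3) (.e (nat_lit 98359) (nat_lit 26) (.e (nat_lit 426039) (nat_lit 0) .nil))))))))) (.g (nat_lit 1) (.e (nat_lit 14020) (nat_lit 0) .nil) .nil))) 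
(.lf (nat_lit 450451) (.g (nat_lit 2949) (.e (nat_lit 2555) (nat_lit 159) (.e (nat_lit 24662) (nat_lit 14) (.e (nat_lit 401459) (nat_lit 13) (.e (nat_lit 483395) (nat_lit 24) (.e (nat_lit 344096) (nat_lit 18) .nil))))) (.g (nat_lit 0) (.e (nat_lit 15949) (nat_lit 0) .nil) .nil)))))) (.nd (nat_lit 7) (.nd (nat_lit 8) (.nd (nat_lit 9) 
(.lf (nat_lit 449619) (.g (nat_lit 1941) (.e (nat_lit 913) (nat_lit 75) (.e (nat_lit 778465) (nat_lit 11) (.e (nat_lit 24617) (nat_lit 7) (.e (nat_lit 319528) (nat_lit 16) (.e (nat_lit 286759) (nat_lit 12) .nil))))) (.g (nat_lit 0) (.e (nat_lit 12729) (nat_lit 0) .nil) .nil))) 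
(.lf (nat_lit 450131) (.g (nat_lit 3252) (.e (nat_lit 2505) (nat_lit 157) (.e (nat_lit 3249) (nat_lit 197) (.e (nat_lit 532523) (nat_lit 7) (.e (nat_lit 319537) (nat_lit 19) (.e (nat_lit 311315) (nat_lit 3) (.e (nat_lit 204846) (nat_lit 24) (.e (nat_lit 319505) (nat_lit 10) (.e (nat_lit 5712) (nat_lit 312) .nil)))))))) (.g (nat_lit 1) (.e (nat_lit 14711) (nat_lit 0) .nil) .nil)))) 
(.nd (nat_lit 9) 
(.lf (nat_lit 449875) (.g (nat_lit 3683) (.e (nat_lit 2448) (nat_lit 157) (.e (nat_lit 3098) (nat_lit 192) (.e (nat_lit 491569) (nat_lit 13) (.e (nat_lit 393301) (nat_lit 27) (.e (nat_lit 491560) (nat_lit 10) (.e (nat_lit 344087) (nat_lit 18) (.e (nat_lit 6915) (nat_lit 371) .nil))))))) (.g (nat_lit 1) (.e (nat_lit 13746) (nat_lit 0) .nil) .nil))) 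
(.lf (nat_lit 450387) (.g (nat_lit 1311) (.e (nat_lit 2553) (nat_lit 159) (.e (nat_lit 24628) (nat_lit 9) (.e (nat_lit 336019) (nat_lit 3) (.e (nat_lit 98389) (nat_lit 33) .nil)))) (.g (nat_lit 0) (.e (nat_lit 15726) (nat_lit 0) .nil) .nil))))) (.nd (nat_lit 8) (.nd (nat_lit 9) 
(.lf (nat_lit 449747) (.g (nat_lit 2584) (.e (nat_lit 2416) (nat_lit 157) (.e (nat_lit 2668) (nat_lit 167) (.e (nat_lit 196666) (nat_lit 13) (.e (nat_lit 65610) (nat_lit 10) (.e (nat_lit 344117) (nat_lit 21) (.e (nat_lit 516151) (nat_lit 9) (.e (nat_lit 426022) (nat_lit 0) (.e (nat_lit 2403) (nat_lit 157) (.e (nat_lit 4825) (nat_lit 281) .nil))))))))) (.g (nat_lit 1) (.e (nat_lit 13164) (nat_lit 0) .nil) .nil))) 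
(.lf (nat_lit 450259) (.g (nat_lit 2038) (.e (nat_lit 7936) (nat_lit 157) (.e (nat_lit 2668) (nat_lit 167) (.e (nat_lit 196666) (nat_lit 13) (.e (nat_lit 65610) (nat_lit 10) (.e (nat_lit 344117) (nat_lit 21) .nil))))) (.g (nat_lit 0) (.e (nat_lit 15351) (nat_lit 0) .nil) .nil)))) (.nd (nat_lit 9) 
(.lf (nat_lit 450003) (.g (nat_lit 5172) (.e (nat_lit 2467) (nat_lit 157) (.e (nat_lit 3469) (nat_lit 217) (.e (nat_lit 696344) (nat_lit 8) (.e (nat_lit 172079) (nat_lit 7) (.e (nat_lit 409645) (nat_lit 18) (.e (nat_lit 303140) (nat_lit 10) (.e (nat_lit 434275) (nat_lit 39) (.e (nat_lit 663574) (nat_lit 9) .nil)))))))) (.g (nat_lit 1) (.e (nat_lit 14184) (nat_lit 0) .nil) .nil))) 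
(.lf (nat_lit 450515) (.g (nat_lit 1880) (.e (nat_lit 2558) (nat_lit 159) (.e (nat_lit 24660) (nat_lit 13) (.e (nat_lit 393260) (nat_lit 21) (.e (nat_lit 409648) (nat_lit 18) (.e (nat_lit 303104) (nat_lit 0) .nil))))) (.g (nat_lit 0) (.e (nat_lit 16220) (nat_lit 0) .nil) .nil))))))) (.nd (nat_lit 6) (.nd (nat_lit 7) (.nd (nat_lit 8) (.nd (nat_lit 9) 
(.lf (nat_lit 449587) (.g (nat_lit 3145) (.e (nat_lit 883) (nat_lit 75) (.e (nat_lit 778465) (nat_lit 11) (.e (nat_lit 24617) (nat_lit 7) (.e (nat_lit 319534) (nat_lit 16) (.e (nat_lit 286759) (nat_lit 12) (.e (nat_lit 385113) (nat_lit 53) (.e (nat_lit 811031) (nat_lit 11) .nil))))))) (.g (nat_lit 1) (.e (nat_lit 12665) (nat_lit 0) .nil) .nil))) 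
(.lf (nat_lit 450099) (.g (nat_lit 4837) (.e (nat_lit 2472) (nat_lit 157) (.e (nat_lit 3307) (nat_lit 202) (.e (nat_lit 573489) (nat_lit 14) (.e (nat_lit 73755) (nat_lit 8) (.e (nat_lit 557105) (nat_lit 14) (.e (nat_lit 180252) (nat_lit 10) (.e (nat_lit 573475) (nat_lit 12) (.e (nat_lit 57503) (nat_lit 38) (.e (nat_lit 638985) (nat_lit 5) .nil))))))))) (.g (nat_lit 1) (.e (nat_lit 14452) (nat_lit 0) .nil) .nil)))) 
(.nd (nat_lit 9) 
(.lf (nat_lit 449843) (.g (nat_lit 2636) (.e (nat_lit 2444) (nat_lit 157) (.e (nat_lit 2668) (nat_lit 167) (.e (nat_lit 196666) (nat_lit 13) (.e (nat_lit 65610) (nat_lit 10) (.e (nat_lit 344117) (nat_lit 21) (.e (nat_lit 516160) (nat_lit 10) (.e (nat_lit 434207) (nat_lit 18) (.e (nat_lit 4778) (nat_lit 281) .nil)))))))) (.g (nat_lit 1) (.e (nat_lit 13625) (nat_lit 0) .nil) .nil))) 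
(.lf (nat_lit 450355) (.g (nat_lit 699) (.e (nat_lit 2552) (nat_lit 159) (.e (nat_lit 24604) (nat_lit 2) (.e (nat_lit 90176) (nat_lit 15) .nil))) (.g (nat_lit 0) (.e (nat_lit 15655) (nat_lit 0) .nil) .nil))))) (.nd (nat_lit 8) (.nd (nat_lit 9) 
(.lf (nat_lit 449715) (.g (nat_lit 2366) (.e (nat_lit 2400) (nat_lit 157) (.e (nat_lit 7590) (nat_lit 407) (.e (nat_lit 73747) (nat_lit 3) (.e (nat_lit 516141) (nat_lit 8) (.e (nat_lit 417827) (nat_lit 17) (.e (nat_lit 294928) (nat_lit 2) (.e (nat_lit 90133) (nat_lit 9) .nil))))))) (.g (nat_lit 1) (.e (nat_lit 13050) (nat_lit 0) .nil) .nil))) 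
(.lf (nat_lit 450227) (.g (nat_lit 2011) (.e (nat_lit 2515) (nat_lit 157) (.e (nat_lit 2681) (nat_lit 168) (.e (nat_lit 204863) (nat_lit 27) (.e (nat_lit 344133) (nat_lit 26) (.e (nat_lit 557098) (nat_lit 13) .nil))))) (.g (nat_lit 0) (.e (nat_lit 15183) (nat_lit 0) .nil) .nil)))) (.nd (nat_lit 9) 
(.lf (nat_lit 449971) (.g (nat_lit 2621) (.e (nat_lit 2464) (nat_lit 157) (.e (nat_lit 5939) (nat_lit 322) (.e (nat_lit 57379) (nat_lit 3) (.e (nat_lit 98367) (nat_lit 27) (.e (nat_lit 434231) (nat_lit 23) (.e (nat_lit 532507) (nat_lit 2) (.e (nat_lit 106517) (nat_lit 9) (.e (nat_lit 1255) (nat_lit 92) (.e (nat_lit 98321) (nat_lit 17) .nil))))))))) (.g (nat_lit 1) (.e (nat_lit 14127) (nat_lit 0) .nil) .nil))) 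
(.lf (nat_lit 450483) (.g (nat_lit 2121) (.e (nat_lit 2557) (nat_lit 159) (.e (nat_lit 24640) (nat_lit 10) (.e (nat_lit 344117) (nat_lit 21) (.e (nat_lit 516185) (nat_lit 16) .nil)))) (.g (nat_lit 0) (.e (nat_lit 16151) (nat_lit 0) .nil) .nil)))))) (.nd (nat_lit 7) (.nd (nat_lit 8) (.nd (nat_lit 9) 
(.lf (nat_lit 449651) (.g (nat_lit 4053) (.e (nat_lit 720) (nat_lit 64) (.e (nat_lit 688177) (nat_lit 16) (.e (nat_lit 65620) (nat_lit 10) (.e (nat_lit 344179) (nat_lit 44) (.e (nat_lit 778466) (nat_lit 11) (.e (nat_lit 24617) (nat_lit 7) (.e (nat_lit 319505) (nat_lit 10) .nil))))))) (.g (nat_lit 1) (.e (nat_lit 12854) (nat_lit 0) .nil) .nil))) 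
(.lf (nat_lit 450163) (.g (nat_lit 3631) (.e (nat_lit 2508) (nat_lit 157) (.e (nat_lit 3141) (nat_lit 193) (.e (nat_lit 500065) (nat_lit 18) (.e (nat_lit 65630) (nat_lit 14) (.e (nat_lit 401425) (nat_lit 2) (.e (nat_lit 196668) (nat_lit 14) (.e (nat_lit 73780) (nat_lit 32) .nil))))))) (.g (nat_lit 1) (.e (nat_lit 14900) (nat_lit 0) .nil) .nil)))) (.nd (nat_lit 9) 
(.lf (nat_lit 449907) (.g (nat_lit 1904) (.e (nat_lit 2458) (nat_lit 157) (.e (nat_lit 5224) (nat_lit 296) (.e (nat_lit 163903) (nat_lit 12) (.e (nat_lit 426566) (nat_lit 34) (.e (nat_lit 393273) (nat_lit 23) (.e (nat_lit 426437) (nat_lit 18) (.e (nat_lit 98325) (nat_lit 17) .nil))))))) (.g (nat_lit 1) (.e (nat_lit 13920) (nat_lit 0) .nil) .nil))) 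
(.lf (nat_lit 450419) (.g (nat_lit 2088) (.e (nat_lit 2554) (nat_lit 159) (.e (nat_lit 24653) (nat_lit 12) (.e (nat_lit 385102) (nat_lit 50) (.e (nat_lit 786483) (nat_lit 30) (.e (nat_lit 360450) (nat_lit 0) (.e (nat_lit 4766) (nat_lit 281) .nil)))))) (.g (nat_lit 1) (.e (nat_lit 15800) (nat_lit 0) .nil) .nil))))) (.nd (nat_lit 8) (.nd (nat_lit 9) 
(.lf (nat_lit 449779) (.g (nat_lit 4807) (.e (nat_lit 2427) (nat_lit 157) (.e (nat_lit 4778) (nat_lit 281) (.e (nat_lit 2445) (nat_lit 157) (.e (nat_lit 2668) (nat_lit 167) (.e (nat_lit 196666) (nat_lit 13) (.e (nat_lit 65610) (nat_lit 10) (.e (nat_lit 344117) (nat_lit 21) (.e (nat_lit 516151) (nat_lit 9) (.e (nat_lit 426042) (nat_lit 0) .nil))))))))) (.g (nat_lit 1) (.e (nat_lit 13334) (nat_lit 0) .nil) .nil))) 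
(.lf (nat_lit 450291) (.g (nat_lit 2329) (.e (nat_lit 2551) (nat_lit 159) (.e (nat_lit 24640) (nat_lit 10) (.e (nat_lit 344156) (nat_lit 36) (.e (nat_lit 638985) (nat_lit 5) (.e (nat_lit 3015) (nat_lit 187) (.e (nat_lit 450563) (nat_lit 0) (.e (nat_lit 5849) (nat_lit 320) .nil))))))) (.g (nat_lit 1) (.e (nat_lit 15435) (nat_lit 0) .nil) .nil)))) (.nd (nat_lit 9) 
(.lf (nat_lit 450035) (.g (nat_lit 5072) (.e (nat_lit 2477) (nat_lit 157) (.e (nat_lit 2663) (nat_lit 167) (.e (nat_lit 196666) (nat_lit 13) (.e (nat_lit 65610) (nat_lit 10) (.e (nat_lit 344117) (nat_lit 21) (.e (nat_lit 516151) (nat_lit 9) (.e (nat_lit 426042) (nat_lit 0) (.e (nat_lit 2423) (nat_lit 157) (.e (nat_lit 4821) (nat_lit 281) .nil))))))))) (.g (nat_lit 1) (.e (nat_lit 14277) (nat_lit 0) .nil) .nil))) 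
(.lf (nat_lit 450547) (.g (nat_lit 1214) (.e (nat_lit 2559) (nat_lit 159) (.e (nat_lit 24660) (nat_lit 13) (.e (nat_lit 393260) (nat_lit 21) (.e (nat_lit 409648) (nat_lit 18) .nil)))) (.g (nat_lit 0) (.e (nat_lit 16311) (nat_lit 0) .nil) .nil))))))))) (.nd (nat_lit 4) (.nd (nat_lit 5) (.nd (nat_lit 6) (.nd (nat_lit 7) (.nd (nat_lit 8) (.nd (nat_lit 9) 
(.lf (nat_lit 449547) (.g (nat_lit 1851) (.e (nat_lit 883) (nat_lit 75) (.e (nat_lit 778464) (nat_lit 11) (.e (nat_lit 24617) (nat_lit 7) (.e (nat_lit 319534) (nat_lit 16) (.e (nat_lit 286759) (nat_lit 12) (.e (nat_lit 385115) (nat_lit 53) (.e (nat_lit 811032) (nat_lit 11) .nil))))))) (.g (nat_lit 1) (.e (nat_lit 12621) (nat_lit 0) .nil) .nil))) 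
(.lf (nat_lit 450059) (.g (nat_lit 992) (.e (nat_lit 2478) (nat_lit 157) (.e (nat_lit 2854) (nat_lit 184) (.e (nat_lit 426320) (nat_lit 12) (.e (nat_lit 475209) (nat_lit 41) .nil)))) (.g (nat_lit 0) (.e (nat_lit 14315) (nat_lit 0) .nil) .nil)))) (.nd (nat_lit 9) 
(.lf (nat_lit 449803) (.g (nat_lit 1868) (.e (nat_lit 2433) (nat_lit 157) (.e (nat_lit 2668) (nat_lit 167) (.e (nat_lit 196666) (nat_lit 13) (.e (nat_lit 65610) (nat_lit 10) (.e (nat_lit 344117) (nat_lit 21) (.e (nat_lit 516160) (nat_lit 10) (.e (nat_lit 434201) (nat_lit 18) (.e (nat_lit 4762) (nat_lit 281) .nil)))))))) (.g (nat_lit 1) (.e (nat_lit 13410) (nat_lit 0) .nil) .nil))) 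
(.lf (nat_lit 450315) (.g (nat_lit 2924) (.e (nat_lit 2551) (nat_lit 159) (.e (nat_lit 24640) (nat_lit 10) (.e (nat_lit 344156) (nat_lit 36) (.e (nat_lit 638998) (nat_lit 8) (.e (nat_lit 172113) (nat_lit 10) (.e (nat_lit 434203) (nat_lit 18) (.e (nat_lit 5830) (nat_lit 320) .nil))))))) (.g (nat_lit 1) (.e (nat_lit 15460) (nat_lit 0) .nil) .nil))))) (.nd (nat_lit 8) (.nd (nat_lit 9) 
(.lf (nat_lit 449675) (.g (nat_lit 2991) (.e (nat_lit 789) (nat_lit 66) (.e (nat_lit 704738) (nat_lit 11) (.e (nat_lit 16425) (nat_lit 7) (.e (nat_lit 409649) (nat_lit 18) (.e (nat_lit 303143) (nat_lit 12) .nil))))) (.g (nat_lit 0) (.e (nat_lit 12896) (nat_lit 0) .nil) .nil))) 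
(.lf (nat_lit 450187) (.g (nat_lit 1845) (.e (nat_lit 2508) (nat_lit 157) (.e (nat_lit 3249) (nat_lit 197) (.e (nat_lit 532569) (nat_lit 16) (.e (nat_lit 401448) (nat_lit 10) (.e (nat_lit 434231) (nat_lit 23) .nil))))) (.g (nat_lit 0) (.e (nat_lit 15001) (nat_lit 0) .nil) .nil)))) (.nd (nat_lit 9) 
(.lf (nat_lit 449931) (.g (nat_lit 4881) (.e (nat_lit 2458) (nat_lit 157) (.e (nat_lit 5547) (nat_lit 306) (.e (nat_lit 2599) (nat_lit 163) (.e (nat_lit 163978) (nat_lit 30) (.e (nat_lit 573485) (nat_lit 13) (.e (nat_lit 65604) (nat_lit 9) (.e (nat_lit 336013) (nat_lit 2) (.e (nat_lit 90170) (nat_lit 13) (.e (nat_lit 172046) (nat_lit 0) .nil))))))))) (.g (nat_lit 1) (.e (nat_lit 13998) (nat_lit 0) .nil) .nil))) 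
(.lf (nat_lit 450443) (.g (nat_lit 2122) (.e (nat_lit 2555) (nat_lit 159) (.e (nat_lit 24640) (nat_lit 10) (.e (nat_lit 344117) (nat_lit 21) (.e (nat_lit 516185) (nat_lit 16) .nil)))) (.g (nat_lit 0) (.e (nat_lit 15920) (nat_lit 0) .nil) .nil)))))) (.nd (nat_lit 7) (.nd (nat_lit 8) (.nd (nat_lit 9) 
(.lf (nat_lit 449611) (.g (nat_lit 2263) (.e (nat_lit 883) (nat_lit 75) (.e (nat_lit 778466) (nat_lit 11) (.e (nat_lit 24617) (nat_lit 7) (.e (nat_lit 319533) (nat_lit 16) (.e (nat_lit 286759) (nat_lit 12) (.e (nat_lit 385115) (nat_lit 53) (.e (nat_lit 811032) (nat_lit 11) .nil))))))) (.g (nat_lit 1) (.e (nat_lit 12693) (nat_lit 0) .nil) .nil))) 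
(.lf (nat_lit 450123) (.g (nat_lit 3671) (.e (nat_lit 2505) (nat_lit 157) (.e (nat_lit 3141) (nat_lit 193) (.e (nat_lit 500065) (nat_lit 18) (.e (nat_lit 65630) (nat_lit 14) (.e (nat_lit 401425) (nat_lit 2) (.e (nat_lit 196668) (nat_lit 14) (.e (nat_lit 73780) (nat_lit 32) .nil))))))) (.g (nat_lit 1) (.e (nat_lit 14697) (nat_lit 0) .nil) .nil)))) (.nd (nat_lit 9) 
(.lf (nat_lit 449867) (.g (nat_lit 3488) (.e (nat_lit 2445) (nat_lit 157) (.e (nat_lit 3098) (nat_lit 192) (.e (nat_lit 491569) (nat_lit 13) (.e (nat_lit 393301) (nat_lit 27) (.e (nat_lit 491560) (nat_lit 10) (.e (nat_lit 344094) (nat_lit 18) (.e (nat_lit 6869) (nat_lit 371) .nil))))))) (.g (nat_lit 1) (.e (nat_lit 13720) (nat_lit 0) .nil) .nil))) 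
(.lf (nat_lit 450379) (.g (nat_lit 2456) (.e (nat_lit 2553) (nat_lit 159) (.e (nat_lit 24608) (nat_lit 3) (.e (nat_lit 98372) (nat_lit 29) (.e (nat_lit 450579) (nat_lit 5) (.e (nat_lit 532499) (nat_lit 1) (.e (nat_lit 65280) (nat_lit 233) .nil)))))) (.g (nat_lit 1) (.e (nat_lit 15717) (nat_lit 0) .nil) .nil))))) (.nd (nat_lit 8) (.nd (nat_lit 9) 
(.lf (nat_lit 449739) (.g (nat_lit 3294) (.e (nat_lit 2410) (nat_lit 157) (.e (nat_lit 5626) (nat_lit 312) (.e (nat_lit 2668) (nat_lit 167) (.e (nat_lit 196666) (nat_lit 13) (.e (nat_lit 65619) (nat_lit 10) (.e (nat_lit 344117) (nat_lit 21) (.e (nat_lit 516106) (nat_lit 0) (.e (nat_lit 6986) (nat_lit 377) .nil)))))))) (.g (nat_lit 1) (.e (nat_lit 13147) (nat_lit 0) .nil) .nil))) 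
(.lf (nat_lit 450251) (.g (nat_lit 2355) (.e (nat_lit 2536) (nat_lit 157) (.e (nat_lit 2666) (nat_lit 167) (.e (nat_lit 196666) (nat_lit 13) (.e (nat_lit 65610) (nat_lit 10) (.e (nat_lit 344117) (nat_lit 21) .nil))))) (.g (nat_lit 0) (.e (nat_lit 15300) (nat_lit 0) .nil) .nil)))) (.nd (nat_lit 9) 
(.lf (nat_lit 449995) (.g (nat_lit 2986) (.e (nat_lit 2467) (nat_lit 157) (.e (nat_lit 3307) (nat_lit 202) (.e (nat_lit 573489) (nat_lit 14) (.e (nat_lit 73755) (nat_lit 8) (.e (nat_lit 557105) (nat_lit 14) (.e (nat_lit 180252) (nat_lit 10) (.e (nat_lit 573473) (nat_lit 12) (.e (nat_lit 57504) (nat_lit 38) (.e (nat_lit 638985) (nat_lit 5) .nil))))))))) (.g (nat_lit 1) (.e (nat_lit 14170) (nat_lit 0) .nil) .nil))) 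
(.lf (nat_lit 450507) (.g (nat_lit 3889) (.e (nat_lit 2558) (nat_lit 159) (.e (nat_lit 24640) (nat_lit 10) (.e (nat_lit 344156) (nat_lit 36) (.e (nat_lit 638985) (nat_lit 5) (.e (nat_lit 3015) (nat_lit 187) (.e (nat_lit 450562) (nat_lit 0) (.e (nat_lit 5812) (nat_lit 320) .nil))))))) (.g (nat_lit 1) (.e (nat_lit 16211) (nat_lit 0) .nil) .nil))))))) 
(.nd (nat_lit 6) (.nd (nat_lit 7) (.nd (nat_lit 8) (.nd (nat_lit 9) 
(.lf (nat_lit 449579) (.g (nat_lit 3150) (.e (nat_lit 883) (nat_lit 75) (.e (nat_lit 778465) (nat_lit 11) (.e (nat_lit 24617) (nat_lit 7) (.e (nat_lit 319533) (nat_lit 16) (.e (nat_lit 286758) (nat_lit 12) (.e (nat_lit 385115) (nat_lit 53) (.e (nat_lit 811033) (nat_lit 11) .nil))))))) (.g (nat_lit 1) (.e (nat_lit 12657) (nat_lit 0) .nil) .nil))) 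
(.lf (nat_lit 450091) (.g (nat_lit 3058) (.e (nat_lit 2472) (nat_lit 157) (.e (nat_lit 3307) (nat_lit 202) (.e (nat_lit 573485) (nat_lit 13) (.e (nat_lit 65619) (nat_lit 10) (.e (nat_lit 344117) (nat_lit 21) (.e (nat_lit 516151) (nat_lit 9) (.e (nat_lit 426043) (nat_lit 0) (.e (nat_lit 3408) (nat_lit 212) (.e (nat_lit 655364) (nat_lit 0) .nil))))))))) (.g (nat_lit 1) (.e (nat_lit 14444) (nat_lit 0) .nil) .nil)))) 
(.nd (nat_lit 9) 
(.lf (nat_lit 449835) (.g (nat_lit 2584) (.e (nat_lit 2442) (nat_lit 157) (.e (nat_lit 2668) (nat_lit 167) (.e (nat_lit 196666) (nat_lit 13) (.e (nat_lit 65610) (nat_lit 10) (.e (nat_lit 344117) (nat_lit 21) .nil))))) (.g (nat_lit 0) (.e (nat_lit 13561) (nat_lit 0) .nil) .nil))) 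
(.lf (nat_lit 450347) (.g (nat_lit 3224) (.e (nat_lit 2551) (nat_lit 159) (.e (nat_lit 24658) (nat_lit 13) (.e (nat_lit 393301) (nat_lit 27) (.e (nat_lit 491558) (nat_lit 10) (.e (nat_lit 344096) (nat_lit 18) .nil))))) (.g (nat_lit 0) (.e (nat_lit 15496) (nat_lit 0) .nil) .nil))))) (.nd (nat_lit 8) (.nd (nat_lit 9) 
(.lf (nat_lit 449707) (.g (nat_lit 4604) (.e (nat_lit 2400) (nat_lit 157) (.e (nat_lit 7586) (nat_lit 406) (.e (nat_lit 65571) (nat_lit 3) (.e (nat_lit 98350) (nat_lit 24) (.e (nat_lit 409641) (nat_lit 17) (.e (nat_lit 294928) (nat_lit 2) (.e (nat_lit 90133) (nat_lit 9) .nil))))))) (.g (nat_lit 1) (.e (nat_lit 13042) (nat_lit 0) .nil) .nil))) 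
(.lf (nat_lit 450219) (.g (nat_lit 5236) (.e (nat_lit 2518) (nat_lit 157) (.e (nat_lit 2663) (nat_lit 167) (.e (nat_lit 196666) (nat_lit 13) (.e (nat_lit 65610) (nat_lit 10) (.e (nat_lit 344117) (nat_lit 21) (.e (nat_lit 516160) (nat_lit 10) (.e (nat_lit 434208) (nat_lit 18) (.e (nat_lit 4751) (nat_lit 281) .nil)))))))) (.g (nat_lit 1) (.e (nat_lit 15161) (nat_lit 0) .nil) .nil)))) 
(.nd (nat_lit 9) 
(.lf (nat_lit 449963) (.g (nat_lit 5946) (.e (nat_lit 2461) (nat_lit 157) (.e (nat_lit 3307) (nat_lit 202) (.e (nat_lit 573489) (nat_lit 14) (.e (nat_lit 73755) (nat_lit 8) (.e (nat_lit 557105) (nat_lit 14) (.e (nat_lit 180252) (nat_lit 10) (.e (nat_lit 573474) (nat_lit 12) (.e (nat_lit 57504) (nat_lit 38) (.e (nat_lit 638983) (nat_lit 5) .nil))))))))) (.g (nat_lit 1) (.e (nat_lit 14099) (nat_lit 0) .nil) .nil))) 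
(.lf (nat_lit 450475) (.g (nat_lit 2761) (.e (nat_lit 2556) (nat_lit 159) (.e (nat_lit 24665) (nat_lit 14) (.e (nat_lit 401423) (nat_lit 2) (.e (nat_lit 196672) (nat_lit 15) (.e (nat_lit 81957) (nat_lit 24) .nil))))) (.g (nat_lit 0) (.e (nat_lit 16093) (nat_lit 0) .nil) .nil)))))) (.nd (nat_lit 7) (.nd (nat_lit 8) (.nd (nat_lit 9) 
(.lf (nat_lit 449643) (.g (nat_lit 644) (.e (nat_lit 7936) (nat_lit 76) (.e (nat_lit 786478) (nat_lit 29) (.e (nat_lit 352269) (nat_lit 7) .nil))) (.g (nat_lit 0) (.e (nat_lit 12838) (nat_lit 0) .nil) .nil))) 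
(.lf (nat_lit 450155) (.g (nat_lit 2294) (.e (nat_lit 2506) (nat_lit 157) (.e (nat_lit 3062) (nat_lit 190) (.e (nat_lit 475179) (nat_lit 24) (.e (nat_lit 516174) (nat_lit 14) (.e (nat_lit 466954) (nat_lit 11) (.e (nat_lit 335986) (nat_lit 1) (.e (nat_lit 57660) (nat_lit 152) .nil))))))) (.g (nat_lit 1) (.e (nat_lit 14848) (nat_lit 0) .nil) .nil)))) (.nd (nat_lit 9) 
(.lf (nat_lit 449899) (.g (nat_lit 3503) (.e (nat_lit 2454) (nat_lit 157) (.e (nat_lit 2663) (nat_lit 167) (.e (nat_lit 196666) (nat_lit 13) (.e (nat_lit 65610) (nat_lit 10) (.e (nat_lit 344117) (nat_lit 21) (.e (nat_lit 516151) (nat_lit 9) (.e (nat_lit 426047) (nat_lit 0) (.e (nat_lit 2426) (nat_lit 157) (.e (nat_lit 4778) (nat_lit 281) .nil))))))))) (.g (nat_lit 1) (.e (nat_lit 13877) (nat_lit 0) .nil) .nil))) 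
(.lf (nat_lit 450411) (.g (nat_lit 2794) (.e (nat_lit 2554) (nat_lit 159) (.e (nat_lit 24604) (nat_lit 2) (.e (nat_lit 90176) (nat_lit 15) (.e (nat_lit 188450) (nat_lit 23) (.e (nat_lit 204830) (nat_lit 18) (.e (nat_lit 65280) (nat_lit 233) .nil)))))) (.g (nat_lit 1) (.e (nat_lit 15787) (nat_lit 0) .nil) .nil))))) (.nd (nat_lit 8) (.nd (nat_lit 9) 
(.lf (nat_lit 449771) (.g (nat_lit 4982) (.e (nat_lit 2425) (nat_lit 157) (.e (nat_lit 4849) (nat_lit 285) (.e (nat_lit 163869) (nat_lit 2) (.e (nat_lit 196666) (nat_lit 13) (.e (nat_lit 65610) (nat_lit 10) (.e (nat_lit 344117) (nat_lit 21) (.e (nat_lit 516151) (nat_lit 9) (.e (nat_lit 426042) (nat_lit 0) .nil)))))))) (.g (nat_lit 1) (.e (nat_lit 13266) (nat_lit 0) .nil) .nil))) 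
(.lf (nat_lit 450283) (.g (nat_lit 751) (.e (nat_lit 2551) (nat_lit 159) (.e (nat_lit 24640) (nat_lit 10) (.e (nat_lit 344156) (nat_lit 36) .nil))) (.g (nat_lit 0) (.e (nat_lit 15417) (nat_lit 0) .nil) .nil)))) (.nd (nat_lit 9) 
(.lf (nat_lit 450027) (.g (nat_lit 3548) (.e (nat_lit 2477) (nat_lit 157) (.e (nat_lit 2663) (nat_lit 167) (.e (nat_lit 196666) (nat_lit 13) (.e (nat_lit 65610) (nat_lit 10) (.e (nat_lit 344117) (nat_lit 21) (.e (nat_lit 516151) (nat_lit 9) (.e (nat_lit 426037) (nat_lit 0) (.e (nat_lit 2422) (nat_lit 157) (.e (nat_lit 4778) (nat_lit 281) .nil))))))))) (.g (nat_lit 1) (.e (nat_lit 14269) (nat_lit 0) .nil) .nil))) 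
(.lf (nat_lit 450539) (.g (nat_lit 2010) (.e (nat_lit 2559) (nat_lit 159) (.e (nat_lit 24640) (nat_lit 10) (.e (nat_lit 344156) (nat_lit 36) (.e (nat_lit 638998) (nat_lit 8) (.e (nat_lit 172115) (nat_lit 10) (.e (nat_lit 434202) (nat_lit 18) (.e (nat_lit 5797) (nat_lit 320) .nil))))))) (.g (nat_lit 1) (.e (nat_lit 16303) (nat_lit 0) .nil) .nil)))))))) 
(.nd (nat_lit 5) (.nd (nat_lit 6) (.nd (nat_lit 7) (.nd (nat_lit 8) (.nd (nat_lit 9) 
(.lf (nat_lit 449563) (.g (nat_lit 3584) (.e (nat_lit 883) (nat_lit 75) (.e (nat_lit 778465) (nat_lit 11) (.e (nat_lit 24617) (nat_lit 7) (.e (nat_lit 319529) (nat_lit 16) (.e (nat_lit 286759) (nat_lit 12) (.e (nat_lit 385115) (nat_lit 53) (.e (nat_lit 811033) (nat_lit 11) .nil))))))) (.g (nat_lit 1) (.e (nat_lit 12641) (nat_lit 0) .nil) .nil))) 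
(.lf (nat_lit 450075) (.g (nat_lit 3372) (.e (nat_lit 2479) (nat_lit 157) (.e (nat_lit 2663) (nat_lit 167) (.e (nat_lit 196666) (nat_lit 13) (.e (nat_lit 65610) (nat_lit 10) (.e (nat_lit 344117) (nat_lit 21) .nil))))) (.g (nat_lit 0) (.e (nat_lit 14386) (nat_lit 0) .nil) .nil)))) (.nd (nat_lit 9) 
(.lf (nat_lit 449819) (.g (nat_lit 4788) (.e (nat_lit 2433) (nat_lit 157) (.e (nat_lit 3471) (nat_lit 217) (.e (nat_lit 696344) (nat_lit 8) (.e (nat_lit 172064) (nat_lit 2) (.e (nat_lit 196666) (nat_lit 13) (.e (nat_lit 65610) (nat_lit 10) (.e (nat_lit 344129) (nat_lit 26) (.e (nat_lit 557067) (nat_lit 9) .nil)))))))) (.g (nat_lit 1) (.e (nat_lit 13501) (nat_lit 0) .nil) .nil))) 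
(.lf (nat_lit 450331) (.g (nat_lit 2017) (.e (nat_lit 2551) (nat_lit 159) (.e (nat_lit 24640) (nat_lit 10) (.e (nat_lit 344156) (nat_lit 36) (.e (nat_lit 638998) (nat_lit 8) (.e (nat_lit 172115) (nat_lit 10) (.e (nat_lit 434202) (nat_lit 18) (.e (nat_lit 5835) (nat_lit 320) .nil))))))) (.g (nat_lit 1) (.e (nat_lit 15476) (nat_lit 0) .nil) .nil))))) (.nd (nat_lit 8) (.nd (nat_lit 9) 
(.lf (nat_lit 449691) (.g (nat_lit 4296) (.e (nat_lit 2397) (nat_lit 157) (.e (nat_lit 7586) (nat_lit 406) (.e (nat_lit 65571) (nat_lit 3) (.e (nat_lit 98389) (nat_lit 33) (.e (nat_lit 491560) (nat_lit 10) (.e (nat_lit 344107) (nat_lit 19) (.e (nat_lit 499825) (nat_lit 5) .nil))))))) (.g (nat_lit 1) (.e (nat_lit 12953) (nat_lit 0) .nil) .nil))) 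
(.lf (nat_lit 450203) (.g (nat_lit 3371) (.e (nat_lit 2513) (nat_lit 157) (.e (nat_lit 2663) (nat_lit 167) (.e (nat_lit 196666) (nat_lit 13) (.e (nat_lit 65610) (nat_lit 10) (.e (nat_lit 344117) (nat_lit 21) .nil))))) (.g (nat_lit 0) (.e (nat_lit 15084) (nat_lit 0) .nil) .nil)))) (.nd (nat_lit 9) 
(.lf (nat_lit 449947) (.g (nat_lit 4164) (.e (nat_lit 2458) (nat_lit 157) (.e (nat_lit 5547) (nat_lit 306) (.e (nat_lit 2611) (nat_lit 163) (.e (nat_lit 163977) (nat_lit 30) (.e (nat_lit 573482) (nat_lit 13) (.e (nat_lit 65604) (nat_lit 9) (.e (nat_lit 336013) (nat_lit 2) (.e (nat_lit 90170) (nat_lit 13) (.e (nat_lit 172042) (nat_lit 0) .nil))))))))) (.g (nat_lit 1) (.e (nat_lit 14028) (nat_lit 0) .nil) .nil))) 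
(.lf (nat_lit 450459) (.g (nat_lit 1694) (.e (nat_lit 2556) (nat_lit 159) (.e (nat_lit 24608) (nat_lit 3) (.e (nat_lit 98365) (nat_lit 26) (.e (nat_lit 426298) (nat_lit 11) .nil)))) (.g (nat_lit 0) (.e (nat_lit 16052) (nat_lit 0) .nil) .nil)))))) (.nd (nat_lit 7) (.nd (nat_lit 8) (.nd (nat_lit 9) 
(.lf (nat_lit 449627) (.g (nat_lit 2433) (.e (nat_lit 917) (nat_lit 75) (.e (nat_lit 778466) (nat_lit 11) (.e (nat_lit 24617) (nat_lit 7) (.e (nat_lit 319533) (nat_lit 16) (.e (nat_lit 286753) (nat_lit 10) .nil))))) (.g (nat_lit 0) (.e (nat_lit 12770) (nat_lit 0) .nil) .nil))) 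
(.lf (nat_lit 450139) (.g (nat_lit 3093) (.e (nat_lit 2505) (nat_lit 157) (.e (nat_lit 3249) (nat_lit 197) (.e (nat_lit 532542) (nat_lit 9) (.e (nat_lit 336204) (nat_lit 12) (.e (nat_lit 385074) (nat_lit 31) (.e (nat_lit 573487) (nat_lit 14) (.e (nat_lit 73780) (nat_lit 32) .nil))))))) (.g (nat_lit 1) (.e (nat_lit 14735) (nat_lit 0) .nil) .nil)))) (.nd (nat_lit 9) 
(.lf (nat_lit 449883) (.g (nat_lit 2088) (.e (nat_lit 2450) (nat_lit 157) (.e (nat_lit 3098) (nat_lit 192) (.e (nat_lit 491568) (nat_lit 13) (.e (nat_lit 393301) (nat_lit 27) (.e (nat_lit 491559) (nat_lit 10) .nil))))) (.g (nat_lit 0) (.e (nat_lit 13847) (nat_lit 0) .nil) .nil))) 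
(.lf (nat_lit 450395) (.g (nat_lit 2869) (.e (nat_lit 2553) (nat_lit 159) (.e (nat_lit 24640) (nat_lit 10) (.e (nat_lit 344156) (nat_lit 36) (.e (nat_lit 638998) (nat_lit 8) (.e (nat_lit 172113) (nat_lit 10) (.e (nat_lit 434203) (nat_lit 18) (.e (nat_lit 5797) (nat_lit 320) .nil))))))) (.g (nat_lit 1) (.e (nat_lit 15742) (nat_lit 0) .nil) .nil))))) (.nd (nat_lit 8) (.nd (nat_lit 9) 
(.lf (nat_lit 449755) (.g (nat_lit 2611) (.e (nat_lit 2416) (nat_lit 157) (.e (nat_lit 3471) (nat_lit 217) (.e (nat_lit 696344) (nat_lit 8) (.e (nat_lit 172079) (nat_lit 7) (.e (nat_lit 409645) (nat_lit 18) (.e (nat_lit 303135) (nat_lit 10) (.e (nat_lit 434275) (nat_lit 39) (.e (nat_lit 663580) (nat_lit 9) .nil)))))))) (.g (nat_lit 1) (.e (nat_lit 13196) (nat_lit 0) .nil) .nil))) 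
(.lf (nat_lit 450267) (.g (nat_lit 1540) (.e (nat_lit 2551) (nat_lit 159) (.e (nat_lit 24608) (nat_lit 3) (.e (nat_lit 98365) (nat_lit 26) (.e (nat_lit 426187) (nat_lit 9) .nil)))) (.g (nat_lit 0) (.e (nat_lit 15398) (nat_lit 0) .nil) .nil)))) (.nd (nat_lit 9) 
(.lf (nat_lit 450011) (.g (nat_lit 3332) (.e (nat_lit 2477) (nat_lit 157) (.e (nat_lit 2663) (nat_lit 167) (.e (nat_lit 196666) (nat_lit 13) (.e (nat_lit 65610) (nat_lit 10) (.e (nat_lit 344117) (nat_lit 21) .nil))))) (.g (nat_lit 0) (.e (nat_lit 14253) (nat_lit 0) .nil) .nil))) 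
(.lf (nat_lit 450523) (.g (nat_lit 3603) (.e (nat_lit 2559) (nat_lit 159) (.e (nat_lit 24608) (nat_lit 3) (.e (nat_lit 98373) (nat_lit 29) (.e (nat_lit 450587) (nat_lit 10) (.e (nat_lit 573475) (nat_lit 12) .nil))))) (.g (nat_lit 0) (.e (nat_lit 16281) (nat_lit 0) .nil) .nil))))))) (.nd (nat_lit 6) (.nd (nat_lit 7) (.nd (nat_lit 8) (.nd (nat_lit 9) 
(.lf (nat_lit 449595) (.g (nat_lit 3121) (.e (nat_lit 883) (nat_lit 75) (.e (nat_lit 778466) (nat_lit 11) (.e (nat_lit 24616) (nat_lit 7) (.e (nat_lit 319530) (nat_lit 16) (.e (nat_lit 286759) (nat_lit 12) (.e (nat_lit 385115) (nat_lit 53) (.e (nat_lit 811034) (nat_lit 11) .nil))))))) (.g (nat_lit 1) (.e (nat_lit 12676) (nat_lit 0) .nil) .nil))) 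
(.lf (nat_lit 450107) (.g (nat_lit 3206) (.e (nat_lit 2473) (nat_lit 157) (.e (nat_lit 5939) (nat_lit 322) (.e (nat_lit 57379) (nat_lit 3) (.e (nat_lit 98365) (nat_lit 26) (.e (nat_lit 426325) (nat_lit 13) (.e (nat_lit 483337) (nat_lit 9) (.e (nat_lit 426030) (nat_lit 0) .nil))))))) (.g (nat_lit 1) (.e (nat_lit 14476) (nat_lit 0) .nil) .nil)))) (.nd (nat_lit 9) 
(.lf (nat_lit 449851) (.g (nat_lit 3474) (.e (nat_lit 2444) (nat_lit 157) (.e (nat_lit 3098) (nat_lit 192) (.e (nat_lit 491569) (nat_lit 13) (.e (nat_lit 393301) (nat_lit 27) (.e (nat_lit 491560) (nat_lit 10) (.e (nat_lit 344094) (nat_lit 18) (.e (nat_lit 6869) (nat_lit 371) .nil))))))) (.g (nat_lit 1) (.e (nat_lit 13660) (nat_lit 0) .nil) .nil))) 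
(.lf (nat_lit 450363) (.g (nat_lit 1351) (.e (nat_lit 2552) (nat_lit 159) (.e (nat_lit 24640) (nat_lit 10) (.e (nat_lit 344156) (nat_lit 36) (.e (nat_lit 638998) (nat_lit 8) .nil)))) (.g (nat_lit 0) (.e (nat_lit 15667) (nat_lit 0) .nil) .nil))))) (.nd (nat_lit 8) (.nd (nat_lit 9) 
(.lf (nat_lit 449723) (.g (nat_lit 3303) (.e (nat_lit 2403) (nat_lit 157) (.e (nat_lit 4507) (nat_lit 263) (.e (nat_lit 2619) (nat_lit 164) (.e (nat_lit 172062) (nat_lit 2) (.e (nat_lit 196666) (nat_lit 13) (.e (nat_lit 65610) (nat_lit 10) (.e (nat_lit 344117) (nat_lit 21) (.e (nat_lit 516096) (nat_lit 0) .nil)))))))) (.g (nat_lit 1) (.e (nat_lit 13073) (nat_lit 0) .nil) .nil))) 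
(.lf (nat_lit 450235) (.g (nat_lit 4436) (.e (nat_lit 2515) (nat_lit 157) (.e (nat_lit 4506) (nat_lit 263) (.e (nat_lit 2619) (nat_lit 164) (.e (nat_lit 172064) (nat_lit 2) (.e (nat_lit 196666) (nat_lit 13) (.e (nat_lit 65610) (nat_lit 10) (.e (nat_lit 344117) (nat_lit 21) (.e (nat_lit 516106) (nat_lit 0) .nil)))))))) (.g (nat_lit 1) (.e (nat_lit 15239) (nat_lit 0) .nil) .nil)))) (.nd (nat_lit 9) 
(.lf (nat_lit 449979) (.g (nat_lit 2438) (.e (nat_lit 2466) (nat_lit 157) (.e (nat_lit 3307) (nat_lit 202) (.e (nat_lit 573489) (nat_lit 14) (.e (nat_lit 73754) (nat_lit 8) (.e (nat_lit 557105) (nat_lit 14) .nil))))) (.g (nat_lit 0) (.e (nat_lit 14144) (nat_lit 0) .nil) .nil))) 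
(.lf (nat_lit 450491) (.g (nat_lit 4606) (.e (nat_lit 2557) (nat_lit 159) (.e (nat_lit 24658) (nat_lit 13) (.e (nat_lit 393301) (nat_lit 27) (.e (nat_lit 491560) (nat_lit 10) (.e (nat_lit 344088) (nat_lit 18) .nil))))) (.g (nat_lit 0) (.e (nat_lit 16168) (nat_lit 0) .nil) .nil)))))) (.nd (nat_lit 7) (.nd (nat_lit 8) (.nd (nat_lit 9) 
(.lf (nat_lit 449659) (.g (nat_lit 2819) (.e (nat_lit 754) (nat_lit 66) (.e (nat_lit 704738) (nat_lit 11) (.e (nat_lit 16425) (nat_lit 7) (.e (nat_lit 409648) (nat_lit 18) (.e (nat_lit 303143) (nat_lit 12) .nil))))) (.g (nat_lit 0) (.e (nat_lit 12876) (nat_lit 0) .nil) .nil))) 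
(.lf (nat_lit 450171) (.g (nat_lit 4413) (.e (nat_lit 2508) (nat_lit 157) (.e (nat_lit 3249) (nat_lit 197) (.e (nat_lit 532523) (nat_lit 7) (.e (nat_lit 319538) (nat_lit 19) (.e (nat_lit 311315) (nat_lit 3) (.e (nat_lit 204846) (nat_lit 24) (.e (nat_lit 319505) (nat_lit 10) (.e (nat_lit 5712) (nat_lit 312) .nil)))))))) (.g (nat_lit 1) (.e (nat_lit 14912) (nat_lit 0) .nil) .nil)))) 
(.nd (nat_lit 9) 
(.lf (nat_lit 449915) (.g (nat_lit 4694) (.e (nat_lit 2458) (nat_lit 157) (.e (nat_lit 5546) (nat_lit 306) (.e (nat_lit 2600) (nat_lit 163) (.e (nat_lit 163977) (nat_lit 30) (.e (nat_lit 573482) (nat_lit 13) (.e (nat_lit 65604) (nat_lit 9) (.e (nat_lit 336013) (nat_lit 2) (.e (nat_lit 90170) (nat_lit 13) (.e (nat_lit 172046) (nat_lit 0) .nil))))))))) (.g (nat_lit 1) (.e (nat_lit 13951) (nat_lit 0) .nil) .nil))) 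
(.lf (nat_lit 450427) (.g (nat_lit 2919) (.e (nat_lit 2555) (nat_lit 159) (.e (nat_lit 24608) (nat_lit 3) (.e (nat_lit 98372) (nat_lit 29) (.e (nat_lit 450586) (nat_lit 10) .nil)))) (.g (nat_lit 0) (.e (nat_lit 15890) (nat_lit 0) .nil) .nil))))) (.nd (nat_lit 8) (.nd (nat_lit 9) 
(.lf (nat_lit 449787) (.g (nat_lit 2268) (.e (nat_lit 2433) (nat_lit 157) (.e (nat_lit 2668) (nat_lit 167) (.e (nat_lit 196655) (nat_lit 11) (.e (nat_lit 16435) (nat_lit 9) (.e (nat_lit 426566) (nat_lit 34) (.e (nat_lit 393252) (nat_lit 18) (.e (nat_lit 164305) (nat_lit 226) .nil))))))) (.g (nat_lit 1) (.e (nat_lit 13384) (nat_lit 0) .nil) .nil))) 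
(.lf (nat_lit 450299) (.g (nat_lit 2432) (.e (nat_lit 2551) (nat_lit 159) (.e (nat_lit 24640) (nat_lit 10) (.e (nat_lit 344156) (nat_lit 36) (.e (nat_lit 638985) (nat_lit 5) (.e (nat_lit 3027) (nat_lit 187) (.e (nat_lit 450564) (nat_lit 0) (.e (nat_lit 5851) (nat_lit 320) .nil))))))) (.g (nat_lit 1) (.e (nat_lit 15443) (nat_lit 0) .nil) .nil)))) (.nd (nat_lit 9) 
(.lf (nat_lit 450043) (.g (nat_lit 3718) (.e (nat_lit 2477) (nat_lit 157) (.e (nat_lit 2663) (nat_lit 167) (.e (nat_lit 196666) (nat_lit 13) (.e (nat_lit 65610) (nat_lit 10) (.e (nat_lit 344117) (nat_lit 21) (.e (nat_lit 516151) (nat_lit 9) (.e (nat_lit 426043) (nat_lit 0) (.e (nat_lit 2425) (nat_lit 157) (.e (nat_lit 4818) (nat_lit 281) .nil))))))))) (.g (nat_lit 1) (.e (nat_lit 14285) (nat_lit 0) .nil) .nil))) 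
(.lf (nat_lit 450555) (.g (nat_lit 1668) (.e (nat_lit 2560) (nat_lit 159) (.e (nat_lit 24653) (nat_lit 12) (.e (nat_lit 385102) (nat_lit 50) (.e (nat_lit 786483) (nat_lit 30) (.e (nat_lit 360451) (nat_lit 0) (.e (nat_lit 4761) (nat_lit 281) .nil)))))) (.g (nat_lit 1) (.e (nat_lit 16374) (nat_lit 0) .nil) .nil)))))))))) 
(.nd (nat_lit 3) (.nd (nat_lit 4) (.nd (nat_lit 5) (.nd (nat_lit 6) (.nd (nat_lit 7) 
(.nd (nat_lit 8) (.nd (nat_lit 9) 
(.lf (nat_lit 449543) (.g (nat_lit 2705) (.e (nat_lit 879) (nat_lit 75) (.e (nat_lit 778466) (nat_lit 11) (.e (nat_lit 24617) (nat_lit 7) (.e (nat_lit 319533) (nat_lit 16) (.e (nat_lit 286759) (nat_lit 12) .nil))))) (.g (nat_lit 0) (.e (nat_lit 12617) (nat_lit 0) .nil) .nil))) 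
(.lf (nat_lit 450055) (.g (nat_lit 3372) (.e (nat_lit 2478) (nat_lit 157) (.e (nat_lit 2663) (nat_lit 167) (.e (nat_lit 196666) (nat_lit 13) (.e (nat_lit 65610) (nat_lit 10) (.e (nat_lit 344117) (nat_lit 21) .nil))))) (.g (nat_lit 0) (.e (nat_lit 14311) (nat_lit 0) .nil) .nil)))) (.nd (nat_lit 9) 
(.lf (nat_lit 449799) (.g (nat_lit 2656) (.e (nat_lit 2433) (nat_lit 157) (.e (nat_lit 2668) (nat_lit 167) (.e (nat_lit 196666) (nat_lit 13) (.e (nat_lit 65610) (nat_lit 10) (.e (nat_lit 344117) (nat_lit 21) (.e (nat_lit 516151) (nat_lit 9) (.e (nat_lit 426043) (nat_lit 0) (.e (nat_lit 2425) (nat_lit 157) (.e (nat_lit 4762) (nat_lit 281) .nil))))))))) (.g (nat_lit 1) (.e (nat_lit 13406) (nat_lit 0) .nil) .nil))) 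
(.lf (nat_lit 450311) (.g (nat_lit 4238) (.e (nat_lit 2551) (nat_lit 159) (.e (nat_lit 24640) (nat_lit 10) (.e (nat_lit 344156) (nat_lit 36) (.e (nat_lit 638998) (nat_lit 8) (.e (nat_lit 172113) (nat_lit 10) (.e (nat_lit 434203) (nat_lit 18) (.e (nat_lit 5799) (nat_lit 320) .nil))))))) (.g (nat_lit 1) (.e (nat_lit 15456) (nat_lit 0) .nil) .nil))))) (.nd (nat_lit 8) (.nd (nat_lit 9) 
(.lf (nat_lit 449671) (.g (nat_lit 2330) (.e (nat_lit 789) (nat_lit 66) (.e (nat_lit 704738) (nat_lit 11) (.e (nat_lit 16425) (nat_lit 7) (.e (nat_lit 409643) (nat_lit 18) .nil)))) (.g (nat_lit 0) (.e (nat_lit 12892) (nat_lit 0) .nil) .nil))) 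
(.lf (nat_lit 450183) (.g (nat_lit 2986) (.e (nat_lit 2508) (nat_lit 157) (.e (nat_lit 3249) (nat_lit 197) (.e (nat_lit 532569) (nat_lit 16) (.e (nat_lit 401434) (nat_lit 9) (.e (nat_lit 426140) (nat_lit 3) (.e (nat_lit 204845) (nat_lit 24) (.e (nat_lit 319505) (nat_lit 10) (.e (nat_lit 5712) (nat_lit 312) .nil)))))))) (.g (nat_lit 1) (.e (nat_lit 14993) (nat_lit 0) .nil) .nil)))) 
(.nd (nat_lit 9) 
(.lf (nat_lit 449927) (.g (nat_lit 3862) (.e (nat_lit 2458) (nat_lit 157) (.e (nat_lit 5546) (nat_lit 306) (.e (nat_lit 2611) (nat_lit 163) (.e (nat_lit 163979) (nat_lit 30) (.e (nat_lit 573482) (nat_lit 13) (.e (nat_lit 65604) (nat_lit 9) (.e (nat_lit 336013) (nat_lit 2) (.e (nat_lit 90170) (nat_lit 13) (.e (nat_lit 172042) (nat_lit 0) .nil))))))))) (.g (nat_lit 1) (.e (nat_lit 13972) (nat_lit 0) .nil) .nil))) 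
(.lf (nat_lit 450439) (.g (nat_lit 2398) (.e (nat_lit 2555) (nat_lit 159) (.e (nat_lit 24617) (nat_lit 7) (.e (nat_lit 319534) (nat_lit 16) (.e (nat_lit 286756) (nat_lit 10) (.e (nat_lit 344160) (nat_lit 37) .nil))))) (.g (nat_lit 0) (.e (nat_lit 15913) (nat_lit 0) .nil) .nil)))))) (.nd (nat_lit 7) (.nd (nat_lit 8) (.nd (nat_lit 9) 
(.lf (nat_lit 449607) (.g (nat_lit 2769) (.e (nat_lit 883) (nat_lit 75) (.e (nat_lit 778466) (nat_lit 11) (.e (nat_lit 24617) (nat_lit 7) (.e (nat_lit 319532) (nat_lit 16) (.e (nat_lit 286759) (nat_lit 12) (.e (nat_lit 385115) (nat_lit 53) (.e (nat_lit 811031) (nat_lit 11) .nil))))))) (.g (nat_lit 1) (.e (nat_lit 12689) (nat_lit 0) .nil) .nil))) 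
(.lf (nat_lit 450119) (.g (nat_lit 4214) (.e (nat_lit 2505) (nat_lit 157) (.e (nat_lit 3062) (nat_lit 190) (.e (nat_lit 475185) (nat_lit 29) (.e (nat_lit 557100) (nat_lit 13) (.e (nat_lit 172106) (nat_lit 10) (.e (nat_lit 434231) (nat_lit 23) (.e (nat_lit 532500) (nat_lit 1) (.e (nat_lit 57760) (nat_lit 215) .nil)))))))) (.g (nat_lit 1) (.e (nat_lit 14683) (nat_lit 0) .nil) .nil)))) 
(.nd (nat_lit 9) 
(.lf (nat_lit 449863) (.g (nat_lit 3942) (.e (nat_lit 2445) (nat_lit 157) (.e (nat_lit 3098) (nat_lit 192) (.e (nat_lit 491569) (nat_lit 13) (.e (nat_lit 393301) (nat_lit 27) (.e (nat_lit 491558) (nat_lit 10) (.e (nat_lit 344091) (nat_lit 18) (.e (nat_lit 6869) (nat_lit 371) .nil))))))) (.g (nat_lit 1) (.e (nat_lit 13716) (nat_lit 0) .nil) .nil))) 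
(.lf (nat_lit 450375) (.g (nat_lit 1730) (.e (nat_lit 2553) (nat_lit 159) (.e (nat_lit 24608) (nat_lit 3) (.e (nat_lit 98365) (nat_lit 26) (.e (nat_lit 426098) (nat_lit 1) (.e (nat_lit 164327) (nat_lit 230) .nil))))) (.g (nat_lit 0) (.e (nat_lit 15712) (nat_lit 0) .nil) .nil))))) (.nd (nat_lit 8) (.nd (nat_lit 9) 
(.lf (nat_lit 449735) (.g (nat_lit 3376) (.e (nat_lit 2409) (nat_lit 157) (.e (nat_lit 5626) (nat_lit 312) (.e (nat_lit 2668) (nat_lit 167) (.e (nat_lit 196666) (nat_lit 13) (.e (nat_lit 65610) (nat_lit 10) (.e (nat_lit 344117) (nat_lit 21) (.e (nat_lit 516106) (nat_lit 0) (.e (nat_lit 6966) (nat_lit 377) .nil)))))))) (.g (nat_lit 1) (.e (nat_lit 13141) (nat_lit 0) .nil) .nil))) 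
(.lf (nat_lit 450247) (.g (nat_lit 3747) (.e (nat_lit 2503) (nat_lit 157) (.e (nat_lit 3062) (nat_lit 190) (.e (nat_lit 475179) (nat_lit 24) (.e (nat_lit 516176) (nat_lit 14) (.e (nat_lit 466954) (nat_lit 11) (.e (nat_lit 335986) (nat_lit 1) (.e (nat_lit 57655) (nat_lit 152) .nil))))))) (.g (nat_lit 1) (.e (nat_lit 15273) (nat_lit 0) .nil) .nil)))) (.nd (nat_lit 9) 
(.lf (nat_lit 449991) (.g (nat_lit 3371) (.e (nat_lit 2468) (nat_lit 157) (.e (nat_lit 2663) (nat_lit 167) (.e (nat_lit 196666) (nat_lit 13) (.e (nat_lit 65610) (nat_lit 10) (.e (nat_lit 344117) (nat_lit 21) .nil))))) (.g (nat_lit 0) (.e (nat_lit 14159) (nat_lit 0) .nil) .nil))) 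
(.lf (nat_lit 450503) (.g (nat_lit 2246) (.e (nat_lit 2558) (nat_lit 159) (.e (nat_lit 24640) (nat_lit 10) (.e (nat_lit 344156) (nat_lit 36) (.e (nat_lit 638985) (nat_lit 5) (.e (nat_lit 3015) (nat_lit 187) .nil))))) (.g (nat_lit 0) (.e (nat_lit 16207) (nat_lit 0) .nil) .nil))))))) (.nd (nat_lit 6) (.nd (nat_lit 7) (.nd (nat_lit 8) (.nd (nat_lit 9) 
(.lf (nat_lit 449575) (.g (nat_lit 2425) (.e (nat_lit 883) (nat_lit 75) (.e (nat_lit 778465) (nat_lit 11) (.e (nat_lit 24617) (nat_lit 7) (.e (nat_lit 319533) (nat_lit 16) (.e (nat_lit 286758) (nat_lit 12) .nil))))) (.g (nat_lit 0) (.e (nat_lit 12653) (nat_lit 0) .nil) .nil))) 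
(.lf (nat_lit 450087) (.g (nat_lit 3010) (.e (nat_lit 2472) (nat_lit 157) (.e (nat_lit 3307) (nat_lit 202) (.e (nat_lit 573484) (nat_lit 13) (.e (nat_lit 65610) (nat_lit 10) (.e (nat_lit 344117) (nat_lit 21) (.e (nat_lit 516160) (nat_lit 10) (.e (nat_lit 434270) (nat_lit 38) (.e (nat_lit 655364) (nat_lit 0) .nil)))))))) (.g (nat_lit 1) (.e (nat_lit 14438) (nat_lit 0) .nil) .nil)))) 
(.nd (nat_lit 9) 
(.lf (nat_lit 449831) (.g (nat_lit 3448) (.e (nat_lit 2440) (nat_lit 157) (.e (nat_lit 3098) (nat_lit 192) (.e (nat_lit 491569) (nat_lit 13) (.e (nat_lit 393301) (nat_lit 27) (.e (nat_lit 491560) (nat_lit 10) (.e (nat_lit 344088) (nat_lit 18) (.e (nat_lit 6894) (nat_lit 371) .nil))))))) (.g (nat_lit 1) (.e (nat_lit 13543) (nat_lit 0) .nil) .nil))) 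
(.lf (nat_lit 450343) (.g (nat_lit 2319) (.e (nat_lit 2551) (nat_lit 159) (.e (nat_lit 24653) (nat_lit 12) (.e (nat_lit 385102) (nat_lit 50) (.e (nat_lit 786483) (nat_lit 30) (.e (nat_lit 360450) (nat_lit 0) (.e (nat_lit 4766) (nat_lit 281) .nil)))))) (.g (nat_lit 1) (.e (nat_lit 15490) (nat_lit 0) .nil) .nil))))) (.nd (nat_lit 8) (.nd (nat_lit 9) 
(.lf (nat_lit 449703) (.g (nat_lit 4127) (.e (nat_lit 2400) (nat_lit 157) (.e (nat_lit 7064) (nat_lit 377) (.e (nat_lit 1349) (nat_lit 102) (.e (nat_lit 286735) (nat_lit 3) (.e (nat_lit 98367) (nat_lit 27) (.e (nat_lit 434180) (nat_lit 0) (.e (nat_lit 1235) (nat_lit 91) (.e (nat_lit 90133) (nat_lit 9) .nil)))))))) (.g (nat_lit 1) (.e (nat_lit 13024) (nat_lit 0) .nil) .nil))) 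
(.lf (nat_lit 450215) (.g (nat_lit 4790) (.e (nat_lit 2517) (nat_lit 157) (.e (nat_lit 2664) (nat_lit 167) (.e (nat_lit 196666) (nat_lit 13) (.e (nat_lit 65610) (nat_lit 10) (.e (nat_lit 344117) (nat_lit 21) (.e (nat_lit 516160) (nat_lit 10) (.e (nat_lit 434208) (nat_lit 18) (.e (nat_lit 4754) (nat_lit 281) .nil)))))))) (.g (nat_lit 1) (.e (nat_lit 15141) (nat_lit 0) .nil) .nil)))) 
(.nd (nat_lit 9) 
(.lf (nat_lit 449959) (.g (nat_lit 2672) (.e (nat_lit 2461) (nat_lit 157) (.e (nat_lit 3307) (nat_lit 202) (.e (nat_lit 573489) (nat_lit 14) (.e (nat_lit 73755) (nat_lit 8) (.e (nat_lit 557105) (nat_lit 14) .nil))))) (.g (nat_lit 0) (.e (nat_lit 14094) (nat_lit 0) .nil) .nil))) 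
(.lf (nat_lit 450471) (.g (nat_lit 3052) (.e (nat_lit 2556) (nat_lit 159) (.e (nat_lit 24662) (nat_lit 14) (.e (nat_lit 401459) (nat_lit 13) (.e (nat_lit 483395) (nat_lit 24) (.e (nat_lit 344096) (nat_lit 18) (.e (nat_lit 4761) (nat_lit 281) .nil)))))) (.g (nat_lit 1) (.e (nat_lit 16074) (nat_lit 0) .nil) .nil)))))) (.nd (nat_lit 7) (.nd (nat_lit 8) (.nd (nat_lit 9) 
(.lf (nat_lit 449639) (.g (nat_lit 3341) (.e (nat_lit 934) (nat_lit 76) (.e (nat_lit 786483) (nat_lit 30) (.e (nat_lit 360475) (nat_lit 8) (.e (nat_lit 557119) (nat_lit 18) (.e (nat_lit 2798) (nat_lit 180) (.e (nat_lit 303124) (nat_lit 7) (.e (nat_lit 409611) (nat_lit 10) .nil))))))) (.g (nat_lit 1) (.e (nat_lit 12830) (nat_lit 0) .nil) .nil))) 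
(.lf (nat_lit 450151) (.g (nat_lit 5084) (.e (nat_lit 2505) (nat_lit 157) (.e (nat_lit 5626) (nat_lit 312) (.e (nat_lit 2668) (nat_lit 167) (.e (nat_lit 196666) (nat_lit 13) (.e (nat_lit 65610) (nat_lit 10) (.e (nat_lit 344117) (nat_lit 21) (.e (nat_lit 516099) (nat_lit 0) (.e (nat_lit 7060) (nat_lit 377) .nil)))))))) (.g (nat_lit 1) (.e (nat_lit 14834) (nat_lit 0) .nil) .nil)))) (.nd (nat_lit 9) 
(.lf (nat_lit 449895) (.g (nat_lit 3371) (.e (nat_lit 2451) (nat_lit 157) (.e (nat_lit 2663) (nat_lit 167) (.e (nat_lit 196666) (nat_lit 13) (.e (nat_lit 65610) (nat_lit 10) (.e (nat_lit 344117) (nat_lit 21) .nil))))) (.g (nat_lit 0) (.e (nat_lit 13869) (nat_lit 0) .nil) .nil))) 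
(.lf (nat_lit 450407) (.g (nat_lit 3163) (.e (nat_lit 2553) (nat_lit 159) (.e (nat_lit 24658) (nat_lit 13) (.e (nat_lit 393301) (nat_lit 27) (.e (nat_lit 491560) (nat_lit 10) (.e (nat_lit 344089) (nat_lit 18) (.e (nat_lit 7408) (nat_lit 396) .nil)))))) (.g (nat_lit 1) (.e (nat_lit 15756) (nat_lit 0) .nil) .nil))))) (.nd (nat_lit 8) (.nd (nat_lit 9) 
(.lf (nat_lit 449767) (.g (nat_lit 4246) (.e (nat_lit 2423) (nat_lit 157) (.e (nat_lit 4849) (nat_lit 285) (.e (nat_lit 163870) (nat_lit 2) (.e (nat_lit 196666) (nat_lit 13) (.e (nat_lit 65610) (nat_lit 10) (.e (nat_lit 344117) (nat_lit 21) (.e (nat_lit 516151) (nat_lit 9) (.e (nat_lit 426043) (nat_lit 0) .nil)))))))) (.g (nat_lit 1) (.e (nat_lit 13248) (nat_lit 0) .nil) .nil))) 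
(.lf (nat_lit 450279) (.g (nat_lit 2362) (.e (nat_lit 2551) (nat_lit 159) (.e (nat_lit 24617) (nat_lit 7) (.e (nat_lit 319505) (nat_lit 10) (.e (nat_lit 618) (nat_lit 48) (.e (nat_lit 557098) (nat_lit 13) .nil))))) (.g (nat_lit 0) (.e (nat_lit 15410) (nat_lit 0) .nil) .nil)))) (.nd (nat_lit 9) 
(.lf (nat_lit 450023) (.g (nat_lit 3503) (.e (nat_lit 2477) (nat_lit 157) (.e (nat_lit 2663) (nat_lit 167) (.e (nat_lit 196666) (nat_lit 13) (.e (nat_lit 65610) (nat_lit 10) (.e (nat_lit 344117) (nat_lit 21) (.e (nat_lit 516151) (nat_lit 9) (.e (nat_lit 426022) (nat_lit 0) (.e (nat_lit 2403) (nat_lit 157) (.e (nat_lit 4829) (nat_lit 281) .nil))))))))) (.g (nat_lit 1) (.e (nat_lit 14265) (nat_lit 0) .nil) .nil))) 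
(.lf (nat_lit 450535) (.g (nat_lit 3641) (.e (nat_lit 2559) (nat_lit 159) (.e (nat_lit 24640) (nat_lit 10) (.e (nat_lit 344156) (nat_lit 36) (.e (nat_lit 638998) (nat_lit 8) (.e (nat_lit 172113) (nat_lit 10) (.e (nat_lit 434203) (nat_lit 18) (.e (nat_lit 5798) (nat_lit 320) .nil))))))) (.g (nat_lit 1) (.e (nat_lit 16299) (nat_lit 0) .nil) .nil)))))))) 
(.nd (nat_lit 5) (.nd (nat_lit 6) (.nd (nat_lit 7) (.nd (nat_lit 8) (.nd (nat_lit 9) 
(.lf (nat_lit 449559) (.g (nat_lit 3617) (.e (nat_lit 883) (nat_lit 75) (.e (nat_lit 778465) (nat_lit 11) (.e (nat_lit 24617) (nat_lit 7) (.e (nat_lit 319528) (nat_lit 16) (.e (nat_lit 286759) (nat_lit 12) (.e (nat_lit 385115) (nat_lit 53) (.e (nat_lit 811033) (nat_lit 11) .nil))))))) (.g (nat_lit 1) (.e (nat_lit 12637) (nat_lit 0) .nil) .nil))) 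
(.lf (nat_lit 450071) (.g (nat_lit 1889) (.e (nat_lit 2478) (nat_lit 157) (.e (nat_lit 6393) (nat_lit 339) (.e (nat_lit 57407) (nat_lit 12) (.e (nat_lit 336456) (nat_lit 34) (.e (nat_lit 483394) (nat_lit 24) (.e (nat_lit 344117) (nat_lit 21) (.e (nat_lit 516106) (nat_lit 0) .nil))))))) (.g (nat_lit 1) (.e (nat_lit 14382) (nat_lit 0) .nil) .nil)))) (.nd (nat_lit 9) 
(.lf (nat_lit 449815) (.g (nat_lit 3932) (.e (nat_lit 2433) (nat_lit 157) (.e (nat_lit 3098) (nat_lit 192) (.e (nat_lit 491569) (nat_lit 13) (.e (nat_lit 393301) (nat_lit 27) (.e (nat_lit 491558) (nat_lit 10) (.e (nat_lit 344091) (nat_lit 18) (.e (nat_lit 6853) (nat_lit 371) .nil))))))) (.g (nat_lit 1) (.e (nat_lit 13477) (nat_lit 0) .nil) .nil))) 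
(.lf (nat_lit 450327) (.g (nat_lit 2083) (.e (nat_lit 2551) (nat_lit 159) (.e (nat_lit 24640) (nat_lit 10) (.e (nat_lit 344156) (nat_lit 36) (.e (nat_lit 638998) (nat_lit 8) (.e (nat_lit 172115) (nat_lit 10) (.e (nat_lit 434202) (nat_lit 18) (.e (nat_lit 5830) (nat_lit 320) .nil))))))) (.g (nat_lit 1) (.e (nat_lit 15472) (nat_lit 0) .nil) .nil))))) (.nd (nat_lit 8) (.nd (nat_lit 9) 
(.lf (nat_lit 449687) (.g (nat_lit 2856) (.e (nat_lit 2397) (nat_lit 157) (.e (nat_lit 7064) (nat_lit 377) (.e (nat_lit 1348) (nat_lit 102) (.e (nat_lit 286735) (nat_lit 3) (.e (nat_lit 98360) (nat_lit 26) (.e (nat_lit 426340) (nat_lit 14) (.e (nat_lit 491537) (nat_lit 2) (.e (nat_lit 90133) (nat_lit 9) .nil)))))))) (.g (nat_lit 1) (.e (nat_lit 12933) (nat_lit 0) .nil) .nil))) 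
(.lf (nat_lit 450199) (.g (nat_lit 4427) (.e (nat_lit 2510) (nat_lit 157) (.e (nat_lit 5626) (nat_lit 312) (.e (nat_lit 2668) (nat_lit 167) (.e (nat_lit 196666) (nat_lit 13) (.e (nat_lit 65610) (nat_lit 10) (.e (nat_lit 344117) (nat_lit 21) (.e (nat_lit 516106) (nat_lit 0) (.e (nat_lit 7936) (nat_lit 377) .nil)))))))) (.g (nat_lit 1) (.e (nat_lit 15061) (nat_lit 0) .nil) .nil)))) (.nd (nat_lit 9) 
(.lf (nat_lit 449943) (.g (nat_lit 5006) (.e (nat_lit 2458) (nat_lit 157) (.e (nat_lit 5547) (nat_lit 306) (.e (nat_lit 2610) (nat_lit 163) (.e (nat_lit 163979) (nat_lit 30) (.e (nat_lit 573482) (nat_lit 13) (.e (nat_lit 65604) (nat_lit 9) (.e (nat_lit 336013) (nat_lit 2) (.e (nat_lit 90170) (nat_lit 13) (.e (nat_lit 172042) (nat_lit 0) .nil))))))))) (.g (nat_lit 1) (.e (nat_lit 14024) (nat_lit 0) .nil) .nil))) 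
(.lf (nat_lit 450455) (.g (nat_lit 5546) (.e (nat_lit 2555) (nat_lit 159) (.e (nat_lit 24665) (nat_lit 14) (.e (nat_lit 401423) (nat_lit 2) (.e (nat_lit 196666) (nat_lit 13) (.e (nat_lit 65610) (nat_lit 10) (.e (nat_lit 344097) (nat_lit 18) (.e (nat_lit 4073) (nat_lit 245) .nil))))))) (.g (nat_lit 1) (.e (nat_lit 15964) (nat_lit 0) .nil) .nil)))))) 
(.nd (nat_lit 7) (.nd (nat_lit 8) (.nd (nat_lit 9) 
(.lf (nat_lit 449623) (.g (nat_lit 2757) (.e (nat_lit 913) (nat_lit 75) (.e (nat_lit 778466) (nat_lit 11) (.e (nat_lit 24617) (nat_lit 7) (.e (nat_lit 319533) (nat_lit 16) (.e (nat_lit 286759) (nat_lit 12) .nil))))) (.g (nat_lit 0) (.e (nat_lit 12733) (nat_lit 0) .nil) .nil))) 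
(.lf (nat_lit 450135) (.g (nat_lit 4856) (.e (nat_lit 2505) (nat_lit 157) (.e (nat_lit 3249) (nat_lit 197) (.e (nat_lit 532526) (nat_lit 8) (.e (nat_lit 327699) (nat_lit 8) (.e (nat_lit 303117) (nat_lit 2) (.e (nat_lit 196668) (nat_lit 14) (.e (nat_lit 73780) (nat_lit 32) .nil))))))) (.g (nat_lit 1) (.e (nat_lit 14715) (nat_lit 0) .nil) .nil)))) (.nd (nat_lit 9) 
(.lf (nat_lit 449879) (.g (nat_lit 3364) (.e (nat_lit 2450) (nat_lit 157) (.e (nat_lit 2862) (nat_lit 184) (.e (nat_lit 426568) (nat_lit 34) (.e (nat_lit 393271) (nat_lit 23) (.e (nat_lit 426131) (nat_lit 3) (.e (nat_lit 204830) (nat_lit 18) (.e (nat_lit 57663) (nat_lit 152) .nil))))))) (.g (nat_lit 1) (.e (nat_lit 13778) (nat_lit 0) .nil) .nil))) 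
(.lf (nat_lit 450391) (.g (nat_lit 3728) (.e (nat_lit 2553) (nat_lit 159) (.e (nat_lit 24640) (nat_lit 10) (.e (nat_lit 344156) (nat_lit 36) (.e (nat_lit 638985) (nat_lit 5) (.e (nat_lit 3015) (nat_lit 187) (.e (nat_lit 450562) (nat_lit 0) (.e (nat_lit 5812) (nat_lit 320) .nil))))))) (.g (nat_lit 1) (.e (nat_lit 15737) (nat_lit 0) .nil) .nil))))) (.nd (nat_lit 8) (.nd (nat_lit 9) 
(.lf (nat_lit 449751) (.g (nat_lit 3488) (.e (nat_lit 2416) (nat_lit 157) (.e (nat_lit 3390) (nat_lit 210) (.e (nat_lit 639020) (nat_lit 16) (.e (nat_lit 65627) (nat_lit 13) (.e (nat_lit 393284) (nat_lit 24) (.e (nat_lit 434276) (nat_lit 39) (.e (nat_lit 663580) (nat_lit 9) .nil))))))) (.g (nat_lit 1) (.e (nat_lit 13176) (nat_lit 0) .nil) .nil))) 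
(.lf (nat_lit 450263) (.g (nat_lit 2297) (.e (nat_lit 2551) (nat_lit 159) (.e (nat_lit 24603) (nat_lit 2) (.e (nat_lit 90176) (nat_lit 15) (.e (nat_lit 188450) (nat_lit 23) (.e (nat_lit 204830) (nat_lit 18) (.e (nat_lit 57777) (nat_lit 233) .nil)))))) (.g (nat_lit 1) (.e (nat_lit 15394) (nat_lit 0) .nil) .nil)))) (.nd (nat_lit 9) 
(.lf (nat_lit 450007) (.g (nat_lit 1442) (.e (nat_lit 2475) (nat_lit 157) (.e (nat_lit 5224) (nat_lit 296) (.e (nat_lit 163871) (nat_lit 2) (.e (nat_lit 196653) (nat_lit 11) (.e (nat_lit 16465) (nat_lit 13) .nil))))) (.g (nat_lit 0) (.e (nat_lit 14227) (nat_lit 0) .nil) .nil))) 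
(.lf (nat_lit 450519) (.g (nat_lit 2689) (.e (nat_lit 2559) (nat_lit 159) (.e (nat_lit 24608) (nat_lit 3) (.e (nat_lit 98365) (nat_lit 26) (.e (nat_lit 426100) (nat_lit 1) (.e (nat_lit 164332) (nat_lit 230) (.e (nat_lit 163874) (nat_lit 3) (.e (nat_lit 204830) (nat_lit 18) (.e (nat_lit 57910) (nat_lit 278) .nil)))))))) (.g (nat_lit 1) (.e (nat_lit 16275) (nat_lit 0) .nil) .nil))))))) 
(.nd (nat_lit 6) (.nd (nat_lit 7) (.nd (nat_lit 8) (.nd (nat_lit 9) 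
(.lf (nat_lit 449591) (.g (nat_lit 4039) (.e (nat_lit 883) (nat_lit 75) (.e (nat_lit 778465) (nat_lit 11) (.e (nat_lit 24617) (nat_lit 7) (.e (nat_lit 319534) (nat_lit 16) (.e (nat_lit 286759) (nat_lit 12) (.e (nat_lit 385115) (nat_lit 53) (.e (nat_lit 811034) (nat_lit 11) .nil))))))) (.g (nat_lit 1) (.e (nat_lit 12669) (nat_lit 0) .nil) .nil))) 
(.lf (nat_lit 450103) (.g (nat_lit 3036) (.e (nat_lit 2473) (nat_lit 157) (.e (nat_lit 3307) (nat_lit 202) (.e (nat_lit 573489) (nat_lit 14) (.e (nat_lit 73755) (nat_lit 8) (.e (nat_lit 557105) (nat_lit 14) (.e (nat_lit 180252) (nat_lit 10) (.e (nat_lit 573473) (nat_lit 12) (.e (nat_lit 57504) (nat_lit 38) (.e (nat_lit 638986) (nat_lit 5) .nil))))))))) (.g (nat_lit 1) (.e (nat_lit 14464) (nat_lit 0) .nil) .nil)))) 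
(.nd (nat_lit 9) 
(.lf (nat_lit 449847) (.g (nat_lit 4145) (.e (nat_lit 2444) (nat_lit 157) (.e (nat_lit 3098) (nat_lit 192) (.e (nat_lit 491569) (nat_lit 13) (.e (nat_lit 393301) (nat_lit 27) (.e (nat_lit 491558) (nat_lit 10) (.e (nat_lit 344096) (nat_lit 18) (.e (nat_lit 6869) (nat_lit 371) .nil))))))) (.g (nat_lit 1) (.e (nat_lit 13656) (nat_lit 0) .nil) .nil))) 
(.lf (nat_lit 450359) (.g (nat_lit 3777) (.e (nat_lit 2552) (nat_lit 159) (.e (nat_lit 24608) (nat_lit 3) (.e (nat_lit 98373) (nat_lit 29) (.e (nat_lit 450587) (nat_lit 10) (.e (nat_lit 573475) (nat_lit 12) (.e (nat_lit 57346) (nat_lit 0) (.e (nat_lit 7409) (nat_lit 396) .nil))))))) (.g (nat_lit 1) (.e (nat_lit 15659) (nat_lit 0) .nil) .nil))))) (.nd (nat_lit 8) (.nd (nat_lit 9) 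
(.lf (nat_lit 449719) (.g (nat_lit 4647) (.e (nat_lit 2402) (nat_lit 157) (.e (nat_lit 4847) (nat_lit 285) (.e (nat_lit 163870) (nat_lit 2) (.e (nat_lit 196666) (nat_lit 13) (.e (nat_lit 65610) (nat_lit 10) (.e (nat_lit 344117) (nat_lit 21) (.e (nat_lit 516151) (nat_lit 9) (.e (nat_lit 426023) (nat_lit 0) .nil)))))))) (.g (nat_lit 1) (.e (nat_lit 13056) (nat_lit 0) .nil) .nil))) 
(.lf (nat_lit 450231) (.g (nat_lit 672) (.e (nat_lit 2515) (nat_lit 157) (.e (nat_lit 3090) (nat_lit 191) (.e (nat_lit 483363) (nat_lit 18) .nil))) (.g (nat_lit 0) (.e (nat_lit 15221) (nat_lit 0) .nil) .nil)))) (.nd (nat_lit 9) 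
(.lf (nat_lit 449975) (.g (nat_lit 1989) (.e (nat_lit 2466) (nat_lit 157) (.e (nat_lit 2845) (nat_lit 184) (.e (nat_lit 426566) (nat_lit 34) (.e (nat_lit 393271) (nat_lit 23) (.e (nat_lit 426131) (nat_lit 3) .nil))))) (.g (nat_lit 0) (.e (nat_lit 14136) (nat_lit 0) .nil) .nil))) 
(.lf (nat_lit 450487) (.g (nat_lit 1424) (.e (nat_lit 2557) (nat_lit 159) (.e (nat_lit 24658) (nat_lit 13) (.e (nat_lit 393301) (nat_lit 27) .nil))) (.g (nat_lit 0) (.e (nat_lit 16164) (nat_lit 0) .nil) .nil)))))) (.nd (nat_lit 7) (.nd (nat_lit 8) (.nd (nat_lit 9) 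
(.lf (nat_lit 449655) (.g (nat_lit 2941) (.e (nat_lit 752) (nat_lit 66) (.e (nat_lit 704738) (nat_lit 11) (.e (nat_lit 16425) (nat_lit 7) (.e (nat_lit 409648) (nat_lit 18) (.e (nat_lit 303143) (nat_lit 12) .nil))))) (.g (nat_lit 0) (.e (nat_lit 12872) (nat_lit 0) .nil) .nil))) 
(.lf (nat_lit 450167) (.g (nat_lit 4589) (.e (nat_lit 2508) (nat_lit 157) (.e (nat_lit 3249) (nat_lit 197) (.e (nat_lit 532482) (nat_lit 0) (.e (nat_lit 6203) (nat_lit 332) (.e (nat_lit 2798) (nat_lit 180) (.e (nat_lit 303119) (nat_lit 3) (.e (nat_lit 204863) (nat_lit 27) (.e (nat_lit 344066) (nat_lit 0) .nil)))))))) (.g (nat_lit 1) (.e (nat_lit 14906) (nat_lit 0) .nil) .nil)))) (.nd (nat_lit 9) 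
(.lf (nat_lit 449911) (.g (nat_lit 5115) (.e (nat_lit 2458) (nat_lit 157) (.e (nat_lit 5546) (nat_lit 306) (.e (nat_lit 2599) (nat_lit 163) (.e (nat_lit 163978) (nat_lit 30) (.e (nat_lit 573485) (nat_lit 13) (.e (nat_lit 65604) (nat_lit 9) (.e (nat_lit 336013) (nat_lit 2) (.e (nat_lit 90170) (nat_lit 13) (.e (nat_lit 172046) (nat_lit 0) .nil))))))))) (.g (nat_lit 1) (.e (nat_lit 13937) (nat_lit 0) .nil) .nil))) 
(.lf (nat_lit 450423) (.g (nat_lit 2073) (.e (nat_lit 2555) (nat_lit 159) (.e (nat_lit 24603) (nat_lit 2) (.e (nat_lit 90176) (nat_lit 15) (.e (nat_lit 188450) (nat_lit 23) (.e (nat_lit 204830) (nat_lit 18) (.e (nat_lit 65280) (nat_lit 233) .nil)))))) (.g (nat_lit 1) (.e (nat_lit 15886) (nat_lit 0) .nil) .nil))))) (.nd (nat_lit 8) (.nd (nat_lit 9) 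
(.lf (nat_lit 449783) (.g (nat_lit 4340) (.e (nat_lit 2432) (nat_lit 157) (.e (nat_lit 3471) (nat_lit 217) (.e (nat_lit 696343) (nat_lit 8) (.e (nat_lit 172064) (nat_lit 2) (.e (nat_lit 196666) (nat_lit 13) (.e (nat_lit 65610) (nat_lit 10) (.e (nat_lit 344129) (nat_lit 26) (.e (nat_lit 557067) (nat_lit 9) .nil)))))))) (.g (nat_lit 1) (.e (nat_lit 13364) (nat_lit 0) .nil) .nil))) 
(.lf (nat_lit 450295) (.g (nat_lit 3528) (.e (nat_lit 2551) (nat_lit 159) (.e (nat_lit 24640) (nat_lit 10) (.e (nat_lit 344156) (nat_lit 36) (.e (nat_lit 638985) (nat_lit 5) (.e (nat_lit 3022) (nat_lit 187) (.e (nat_lit 450569) (nat_lit 0) (.e (nat_lit 5852) (nat_lit 320) .nil))))))) (.g (nat_lit 1) (.e (nat_lit 15439) (nat_lit 0) .nil) .nil)))) (.nd (nat_lit 9) 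
(.lf (nat_lit 450039) (.g (nat_lit 3351) (.e (nat_lit 2477) (nat_lit 157) (.e (nat_lit 2663) (nat_lit 167) (.e (nat_lit 196666) (nat_lit 13) (.e (nat_lit 65610) (nat_lit 10) (.e (nat_lit 344117) (nat_lit 21) (.e (nat_lit 516151) (nat_lit 9) (.e (nat_lit 426045) (nat_lit 0) (.e (nat_lit 2438) (nat_lit 157) (.e (nat_lit 4817) (nat_lit 281) .nil))))))))) (.g (nat_lit 1) (.e (nat_lit 14281) (nat_lit 0) .nil) .nil))) 
(.lf (nat_lit 450551) (.g (nat_lit 1520) (.e (nat_lit 2560) (nat_lit 159) (.e (nat_lit 24608) (nat_lit 3) (.e (nat_lit 98372) (nat_lit 29) .nil))) (.g (nat_lit 0) (.e (nat_lit 16369) (nat_lit 0) .nil) .nil))))))))) (.nd (nat_lit 4) (.nd (nat_lit 5) (.nd (nat_lit 6) (.nd (nat_lit 7) (.nd (nat_lit 8) (.nd (nat_lit 9) 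
(.lf (nat_lit 449551) (.g (nat_lit 3470) (.e (nat_lit 883) (nat_lit 75) (.e (nat_lit 778465) (nat_lit 11) (.e (nat_lit 24616) (nat_lit 7) (.e (nat_lit 319530) (nat_lit 16) (.e (nat_lit 286759) (nat_lit 12) (.e (nat_lit 385115) (nat_lit 53) (.e (nat_lit 811031) (nat_lit 11) .nil))))))) (.g (nat_lit 1) (.e (nat_lit 12628) (nat_lit 0) .nil) .nil))) 
(.lf (nat_lit 450063) (.g (nat_lit 1855) (.e (nat_lit 2478) (nat_lit 157) (.e (nat_lit 5224) (nat_lit 296) (.e (nat_lit 163903) (nat_lit 12) (.e (nat_lit 426566) (nat_lit 34) (.e (nat_lit 393272) (nat_lit 23) .nil))))) (.g (nat_lit 0) (.e (nat_lit 14352) (nat_lit 0) .nil) .nil)))) (.nd (nat_lit 9) 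
(.lf (nat_lit 449807) (.g (nat_lit 2395) (.e (nat_lit 2433) (nat_lit 157) (.e (nat_lit 2668) (nat_lit 167) (.e (nat_lit 196670) (nat_lit 14) (.e (nat_lit 73753) (nat_lit 8) (.e (nat_lit 557105) (nat_lit 14) (.e (nat_lit 180252) (nat_lit 10) (.e (nat_lit 573474) (nat_lit 12) (.e (nat_lit 57348) (nat_lit 0) (.e (nat_lit 5436) (nat_lit 306) .nil))))))))) (.g (nat_lit 1) (.e (nat_lit 13425) (nat_lit 0) .nil) .nil))) 
(.lf (nat_lit 450319) (.g (nat_lit 2839) (.e (nat_lit 2551) (nat_lit 159) (.e (nat_lit 24640) (nat_lit 10) (.e (nat_lit 344156) (nat_lit 36) (.e (nat_lit 638998) (nat_lit 8) (.e (nat_lit 172113) (nat_lit 10) (.e (nat_lit 434203) (nat_lit 18) (.e (nat_lit 5839) (nat_lit 320) .nil))))))) (.g (nat_lit 1) (.e (nat_lit 15464) (nat_lit 0) .nil) .nil))))) (.nd (nat_lit 8) (.nd (nat_lit 9) 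
(.lf (nat_lit 449679) (.g (nat_lit 4095) (.e (nat_lit 2397) (nat_lit 157) (.e (nat_lit 4413) (nat_lit 259) (.e (nat_lit 57373) (nat_lit 2) (.e (nat_lit 90170) (nat_lit 13) (.e (nat_lit 172106) (nat_lit 10) (.e (nat_lit 434244) (nat_lit 28) (.e (nat_lit 573471) (nat_lit 11) (.e (nat_lit 16392) (nat_lit 0) .nil)))))))) (.g (nat_lit 1) (.e (nat_lit 12920) (nat_lit 0) .nil) .nil))) 
(.lf (nat_lit 450191) (.g (nat_lit 4826) (.e (nat_lit 2508) (nat_lit 157) (.e (nat_lit 3249) (nat_lit 197) (.e (nat_lit 532569) (nat_lit 16) (.e (nat_lit 401448) (nat_lit 10) (.e (nat_lit 434232) (nat_lit 23) (.e (nat_lit 532523) (nat_lit 7) (.e (nat_lit 319505) (nat_lit 10) (.e (nat_lit 5712) (nat_lit 312) .nil)))))))) (.g (nat_lit 1) (.e (nat_lit 15005) (nat_lit 0) .nil) .nil)))) 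
(.nd (nat_lit 9) 
(.lf (nat_lit 449935) (.g (nat_lit 4636) (.e (nat_lit 2458) (nat_lit 157) (.e (nat_lit 5547) (nat_lit 306) (.e (nat_lit 2601) (nat_lit 163) (.e (nat_lit 163977) (nat_lit 30) (.e (nat_lit 573482) (nat_lit 13) (.e (nat_lit 65604) (nat_lit 9) (.e (nat_lit 336013) (nat_lit 2) (.e (nat_lit 90170) (nat_lit 13) (.e (nat_lit 172046) (nat_lit 0) .nil))))))))) (.g (nat_lit 1) (.e (nat_lit 14012) (nat_lit 0) .nil) .nil))) 
(.lf (nat_lit 450447) (.g (nat_lit 2686) (.e (nat_lit 2555) (nat_lit 159) (.e (nat_lit 24662) (nat_lit 14) (.e (nat_lit 401425) (nat_lit 2) (.e (nat_lit 196666) (nat_lit 13) .nil)))) (.g (nat_lit 0) (.e (nat_lit 15939) (nat_lit 0) .nil) .nil)))))) (.nd (nat_lit 7) (.nd (nat_lit 8) (.nd (nat_lit 9) 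
(.lf (nat_lit 449615) (.g (nat_lit 2301) (.e (nat_lit 882) (nat_lit 75) (.e (nat_lit 778466) (nat_lit 11) (.e (nat_lit 24617) (nat_lit 7) (.e (nat_lit 319531) (nat_lit 16) .nil)))) (.g (nat_lit 0) (.e (nat_lit 12697) (nat_lit 0) .nil) .nil))) 
(.lf (nat_lit 450127) (.g (nat_lit 3273) (.e (nat_lit 2505) (nat_lit 157) (.e (nat_lit 3249) (nat_lit 197) (.e (nat_lit 532482) (nat_lit 0) (.e (nat_lit 6203) (nat_lit 332) (.e (nat_lit 2798) (nat_lit 180) (.e (nat_lit 303117) (nat_lit 2) (.e (nat_lit 196669) (nat_lit 14) (.e (nat_lit 73779) (nat_lit 32) .nil)))))))) (.g (nat_lit 1) (.e (nat_lit 14703) (nat_lit 0) .nil) .nil)))) (.nd (nat_lit 9) 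
(.lf (nat_lit 449871) (.g (nat_lit 4053) (.e (nat_lit 2447) (nat_lit 157) (.e (nat_lit 5627) (nat_lit 312) (.e (nat_lit 2668) (nat_lit 167) (.e (nat_lit 196666) (nat_lit 13) (.e (nat_lit 65610) (nat_lit 10) (.e (nat_lit 344117) (nat_lit 21) (.e (nat_lit 516106) (nat_lit 0) (.e (nat_lit 7016) (nat_lit 377) .nil)))))))) (.g (nat_lit 1) (.e (nat_lit 13733) (nat_lit 0) .nil) .nil))) 
(.lf (nat_lit 450383) (.g (nat_lit 1789) (.e (nat_lit 2553) (nat_lit 159) (.e (nat_lit 24608) (nat_lit 3) (.e (nat_lit 98372) (nat_lit 29) (.e (nat_lit 458496) (nat_lit 3) .nil)))) (.g (nat_lit 0) (.e (nat_lit 15721) (nat_lit 0) .nil) .nil))))) (.nd (nat_lit 8) (.nd (nat_lit 9) 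
(.lf (nat_lit 449743) (.g (nat_lit 2418) (.e (nat_lit 2416) (nat_lit 157) (.e (nat_lit 2666) (nat_lit 167) (.e (nat_lit 196666) (nat_lit 13) (.e (nat_lit 65610) (nat_lit 10) (.e (nat_lit 344117) (nat_lit 21) (.e (nat_lit 516151) (nat_lit 9) (.e (nat_lit 426023) (nat_lit 0) (.e (nat_lit 2403) (nat_lit 157) (.e (nat_lit 4829) (nat_lit 281) .nil))))))))) (.g (nat_lit 1) (.e (nat_lit 13160) (nat_lit 0) .nil) .nil))) 
(.lf (nat_lit 450255) (.g (nat_lit 2570) (.e (nat_lit 2525) (nat_lit 157) (.e (nat_lit 5195) (nat_lit 294) (.e (nat_lit 57437) (nat_lit 17) (.e (nat_lit 376860) (nat_lit 21) (.e (nat_lit 57830) (nat_lit 250) (.e (nat_lit 7936) (nat_lit 166) (.e (nat_lit 188426) (nat_lit 20) .nil))))))) (.g (nat_lit 1) (.e (nat_lit 15333) (nat_lit 0) .nil) .nil)))) (.nd (nat_lit 9) 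
(.lf (nat_lit 449999) (.g (nat_lit 1560) (.e (nat_lit 2467) (nat_lit 157) (.e (nat_lit 3469) (nat_lit 217) (.e (nat_lit 696344) (nat_lit 8) (.e (nat_lit 172065) (nat_lit 3) .nil)))) (.g (nat_lit 0) (.e (nat_lit 14180) (nat_lit 0) .nil) .nil))) 
(.lf (nat_lit 450511) (.g (nat_lit 3564) (.e (nat_lit 2558) (nat_lit 159) (.e (nat_lit 24640) (nat_lit 10) (.e (nat_lit 344156) (nat_lit 36) (.e (nat_lit 638998) (nat_lit 8) (.e (nat_lit 172113) (nat_lit 10) (.e (nat_lit 434203) (nat_lit 18) (.e (nat_lit 5796) (nat_lit 320) .nil))))))) (.g (nat_lit 1) (.e (nat_lit 16216) (nat_lit 0) .nil) .nil))))))) 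
(.nd (nat_lit 6) (.nd (nat_lit 7) (.nd (nat_lit 8) (.nd (nat_lit 9) 
(.lf (nat_lit 449583) (.g (nat_lit 2137) (.e (nat_lit 883) (nat_lit 75) (.e (nat_lit 778465) (nat_lit 11) (.e (nat_lit 24617) (nat_lit 7) (.e (nat_lit 319534) (nat_lit 16) (.e (nat_lit 286759) (nat_lit 12) .nil))))) (.g (nat_lit 0) (.e (nat_lit 12661) (nat_lit 0) .nil) .nil))) 
(.lf (nat_lit 450095) (.g (nat_lit 4262) (.e (nat_lit 2472) (nat_lit 157) (.e (nat_lit 3307) (nat_lit 202) (.e (nat_lit 573489) (nat_lit 14) (.e (nat_lit 73755) (nat_lit 8) (.e (nat_lit 557105) (nat_lit 14) (.e (nat_lit 180252) (nat_lit 10) (.e (nat_lit 573473) (nat_lit 12) (.e (nat_lit 57504) (nat_lit 38) (.e (nat_lit 638986) (nat_lit 5) .nil))))))))) (.g (nat_lit 1) (.e (nat_lit 14448) (nat_lit 0) .nil) .nil)))) 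
(.nd (nat_lit 9) 
(.lf (nat_lit 449839) (.g (nat_lit 5786) (.e (nat_lit 2443) (nat_lit 157) (.e (nat_lit 5627) (nat_lit 312) (.e (nat_lit 2668) (nat_lit 167) (.e (nat_lit 196666) (nat_lit 13) (.e (nat_lit 65610) (nat_lit 10) (.e (nat_lit 344117) (nat_lit 21) (.e (nat_lit 516097) (nat_lit 0) (.e (nat_lit 7026) (nat_lit 377) .nil)))))))) (.g (nat_lit 1) (.e (nat_lit 13603) (nat_lit 0) .nil) .nil))) 
(.lf (nat_lit 450351) (.g (nat_lit 3665) (.e (nat_lit 2551) (nat_lit 159) (.e (nat_lit 24658) (nat_lit 13) (.e (nat_lit 393301) (nat_lit 27) (.e (nat_lit 491560) (nat_lit 10) (.e (nat_lit 344089) (nat_lit 18) .nil))))) (.g (nat_lit 0) (.e (nat_lit 15500) (nat_lit 0) .nil) .nil))))) (.nd (nat_lit 8) (.nd (nat_lit 9) 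
(.lf (nat_lit 449711) (.g (nat_lit 4425) (.e (nat_lit 2400) (nat_lit 157) (.e (nat_lit 7590) (nat_lit 407) (.e (nat_lit 73747) (nat_lit 3) (.e (nat_lit 516139) (nat_lit 7) (.e (nat_lit 409617) (nat_lit 10) (.e (nat_lit 5355) (nat_lit 298) (.e (nat_lit 1235) (nat_lit 91) (.e (nat_lit 90133) (nat_lit 9) .nil)))))))) (.g (nat_lit 1) (.e (nat_lit 13046) (nat_lit 0) .nil) .nil))) 
(.lf (nat_lit 450223) (.g (nat_lit 3383) (.e (nat_lit 2515) (nat_lit 157) (.e (nat_lit 2663) (nat_lit 167) (.e (nat_lit 196666) (nat_lit 13) (.e (nat_lit 65610) (nat_lit 10) (.e (nat_lit 344117) (nat_lit 21) (.e (nat_lit 516151) (nat_lit 9) (.e (nat_lit 426038) (nat_lit 0) (.e (nat_lit 2438) (nat_lit 157) (.e (nat_lit 4817) (nat_lit 281) .nil))))))))) (.g (nat_lit 1) (.e (nat_lit 15174) (nat_lit 0) .nil) .nil)))) 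
(.nd (nat_lit 9) 
(.lf (nat_lit 449967) (.g (nat_lit 2246) (.e (nat_lit 2461) (nat_lit 157) (.e (nat_lit 3308) (nat_lit 202) (.e (nat_lit 573489) (nat_lit 14) (.e (nat_lit 73755) (nat_lit 8) (.e (nat_lit 557105) (nat_lit 14) .nil))))) (.g (nat_lit 0) (.e (nat_lit 14103) (nat_lit 0) .nil) .nil))) 
(.lf (nat_lit 450479) (.g (nat_lit 2415) (.e (nat_lit 2557) (nat_lit 159) (.e (nat_lit 24608) (nat_lit 3) (.e (nat_lit 98365) (nat_lit 26) (.e (nat_lit 426298) (nat_lit 11) (.e (nat_lit 458789) (nat_lit 23) (.e (nat_lit 532501) (nat_lit 1) (.e (nat_lit 65280) (nat_lit 233) .nil))))))) (.g (nat_lit 1) (.e (nat_lit 16134) (nat_lit 0) .nil) .nil)))))) 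
(.nd (nat_lit 7) (.nd (nat_lit 8) (.nd (nat_lit 9) 
(.lf (nat_lit 449647) (.g (nat_lit 4073) (.e (nat_lit 720) (nat_lit 64) (.e (nat_lit 688177) (nat_lit 16) (.e (nat_lit 65611) (nat_lit 10) (.e (nat_lit 344179) (nat_lit 44) (.e (nat_lit 778466) (nat_lit 11) (.e (nat_lit 24617) (nat_lit 7) (.e (nat_lit 319505) (nat_lit 10) .nil))))))) (.g (nat_lit 1) (.e (nat_lit 12850) (nat_lit 0) .nil) .nil))) 
(.lf (nat_lit 450159) (.g (nat_lit 1450) (.e (nat_lit 2507) (nat_lit 157) (.e (nat_lit 5293) (nat_lit 298) (.e (nat_lit 1176) (nat_lit 87) (.e (nat_lit 57849) (nat_lit 252) (.e (nat_lit 57390) (nat_lit 5) (.e (nat_lit 122624) (nat_lit 13) (.e (nat_lit 442376) (nat_lit 0) (.e (nat_lit 6112) (nat_lit 332) .nil)))))))) (.g (nat_lit 1) (.e (nat_lit 14859) (nat_lit 0) .nil) .nil)))) (.nd (nat_lit 9) 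
(.lf (nat_lit 449903) (.g (nat_lit 2176) (.e (nat_lit 2456) (nat_lit 157) (.e (nat_lit 3469) (nat_lit 217) (.e (nat_lit 696344) (nat_lit 8) (.e (nat_lit 172082) (nat_lit 7) (.e (nat_lit 409648) (nat_lit 18) (.e (nat_lit 303137) (nat_lit 10) (.e (nat_lit 434275) (nat_lit 39) (.e (nat_lit 663574) (nat_lit 9) .nil)))))))) (.g (nat_lit 1) (.e (nat_lit 13902) (nat_lit 0) .nil) .nil))) 
(.lf (nat_lit 450415) (.g (nat_lit 3660) (.e (nat_lit 2554) (nat_lit 159) (.e (nat_lit 24608) (nat_lit 3) (.e (nat_lit 98372) (nat_lit 29) (.e (nat_lit 450579) (nat_lit 5) (.e (nat_lit 532504) (nat_lit 1) .nil))))) (.g (nat_lit 0) (.e (nat_lit 15795) (nat_lit 0) .nil) .nil))))) (.nd (nat_lit 8) (.nd (nat_lit 9) 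
(.lf (nat_lit 449775) (.g (nat_lit 2902) (.e (nat_lit 2425) (nat_lit 157) (.e (nat_lit 5381) (nat_lit 300) (.e (nat_lit 16456) (nat_lit 12) (.e (nat_lit 475199) (nat_lit 40) (.e (nat_lit 704595) (nat_lit 5) (.e (nat_lit 180285) (nat_lit 45) .nil)))))) (.g (nat_lit 1) (.e (nat_lit 13272) (nat_lit 0) .nil) .nil))) 
(.lf (nat_lit 450287) (.g (nat_lit 3824) (.e (nat_lit 2551) (nat_lit 159) (.e (nat_lit 24640) (nat_lit 10) (.e (nat_lit 344156) (nat_lit 36) (.e (nat_lit 638985) (nat_lit 5) (.e (nat_lit 3015) (nat_lit 187) (.e (nat_lit 450562) (nat_lit 0) (.e (nat_lit 5799) (nat_lit 320) .nil))))))) (.g (nat_lit 1) (.e (nat_lit 15431) (nat_lit 0) .nil) .nil)))) (.nd (nat_lit 9) 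
(.lf (nat_lit 450031) (.g (nat_lit 3464) (.e (nat_lit 2477) (nat_lit 157) (.e (nat_lit 2663) (nat_lit 167) (.e (nat_lit 196666) (nat_lit 13) (.e (nat_lit 65610) (nat_lit 10) (.e (nat_lit 344117) (nat_lit 21) (.e (nat_lit 516151) (nat_lit 9) (.e (nat_lit 426040) (nat_lit 0) (.e (nat_lit 2422) (nat_lit 157) (.e (nat_lit 4778) (nat_lit 281) .nil))))))))) (.g (nat_lit 1) (.e (nat_lit 14273) (nat_lit 0) .nil) .nil))) 
(.lf (nat_lit 450543) (.g (nat_lit 2498) (.e (nat_lit 2559) (nat_lit 159) (.e (nat_lit 24658) (nat_lit 13) (.e (nat_lit 393301) (nat_lit 27) (.e (nat_lit 491559) (nat_lit 10) .nil)))) (.g (nat_lit 0) (.e (nat_lit 16307) (nat_lit 0) .nil) .nil)))))))) (.nd (nat_lit 5) (.nd (nat_lit 6) (.nd (nat_lit 7) (.nd (nat_lit 8) (.nd (nat_lit 9) 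
(.lf (nat_lit 449567) (.g (nat_lit 1947) (.e (nat_lit 883) (nat_lit 75) (.e (nat_lit 778465) (nat_lit 11) (.e (nat_lit 24617) (nat_lit 7) (.e (nat_lit 319531) (nat_lit 16) (.e (nat_lit 286759) (nat_lit 12) .nil))))) (.g (nat_lit 0) (.e (nat_lit 12645) (nat_lit 0) .nil) .nil))) 
(.lf (nat_lit 450079) (.g (nat_lit 3728) (.e (nat_lit 2479) (nat_lit 157) (.e (nat_lit 2663) (nat_lit 167) (.e (nat_lit 196666) (nat_lit 13) (.e (nat_lit 65610) (nat_lit 10) (.e (nat_lit 344117) (nat_lit 21) (.e (nat_lit 516151) (nat_lit 9) (.e (nat_lit 426097) (nat_lit 1) (.e (nat_lit 164260) (nat_lit 215) .nil)))))))) (.g (nat_lit 1) (.e (nat_lit 14390) (nat_lit 0) .nil) .nil)))) 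
(.nd (nat_lit 9) 
(.lf (nat_lit 449823) (.g (nat_lit 1872) (.e (nat_lit 2436) (nat_lit 157) (.e (nat_lit 6989) (nat_lit 377) (.e (nat_lit 1361) (nat_lit 102) (.e (nat_lit 286761) (nat_lit 13) (.e (nat_lit 393289) (nat_lit 25) .nil))))) (.g (nat_lit 0) (.e (nat_lit 13516) (nat_lit 0) .nil) .nil))) 
(.lf (nat_lit 450335) (.g (nat_lit 2042) (.e (nat_lit 2551) (nat_lit 159) (.e (nat_lit 24640) (nat_lit 10) (.e (nat_lit 344156) (nat_lit 36) (.e (nat_lit 638998) (nat_lit 8) (.e (nat_lit 172115) (nat_lit 10) (.e (nat_lit 434202) (nat_lit 18) (.e (nat_lit 5845) (nat_lit 320) .nil))))))) (.g (nat_lit 1) (.e (nat_lit 15480) (nat_lit 0) .nil) .nil))))) (.nd (nat_lit 8) (.nd (nat_lit 9) 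
(.lf (nat_lit 449695) (.g (nat_lit 4088) (.e (nat_lit 2398) (nat_lit 157) (.e (nat_lit 5626) (nat_lit 312) (.e (nat_lit 2668) (nat_lit 167) (.e (nat_lit 196666) (nat_lit 13) (.e (nat_lit 65610) (nat_lit 10) (.e (nat_lit 344117) (nat_lit 21) (.e (nat_lit 516098) (nat_lit 0) (.e (nat_lit 6961) (nat_lit 377) .nil)))))))) (.g (nat_lit 1) (.e (nat_lit 12961) (nat_lit 0) .nil) .nil))) 
(.lf (nat_lit 450207) (.g (nat_lit 4142) (.e (nat_lit 2517) (nat_lit 157) (.e (nat_lit 2663) (nat_lit 167) (.e (nat_lit 196666) (nat_lit 13) (.e (nat_lit 65610) (nat_lit 10) (.e (nat_lit 344117) (nat_lit 21) (.e (nat_lit 516159) (nat_lit 10) (.e (nat_lit 434208) (nat_lit 18) (.e (nat_lit 4754) (nat_lit 281) .nil)))))))) (.g (nat_lit 1) (.e (nat_lit 15133) (nat_lit 0) .nil) .nil)))) 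
(.nd (nat_lit 9) 
(.lf (nat_lit 449951) (.g (nat_lit 3266) (.e (nat_lit 2458) (nat_lit 157) (.e (nat_lit 5548) (nat_lit 306) (.e (nat_lit 2610) (nat_lit 163) (.e (nat_lit 163977) (nat_lit 30) (.e (nat_lit 573485) (nat_lit 13) (.e (nat_lit 65604) (nat_lit 9) (.e (nat_lit 336013) (nat_lit 2) (.e (nat_lit 90170) (nat_lit 13) (.e (nat_lit 172042) (nat_lit 0) .nil))))))))) (.g (nat_lit 1) (.e (nat_lit 14046) (nat_lit 0) .nil) .nil))) 
(.lf (nat_lit 450463) (.g (nat_lit 3652) (.e (nat_lit 2556) (nat_lit 159) (.e (nat_lit 24608) (nat_lit 3) (.e (nat_lit 98373) (nat_lit 29) (.e (nat_lit 450587) (nat_lit 10) (.e (nat_lit 573475) (nat_lit 12) .nil))))) (.g (nat_lit 0) (.e (nat_lit 16057) (nat_lit 0) .nil) .nil)))))) (.nd (nat_lit 7) (.nd (nat_lit 8) (.nd (nat_lit 9) 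
(.lf (nat_lit 449631) (.g (nat_lit 2304) (.e (nat_lit 934) (nat_lit 76) (.e (nat_lit 786480) (nat_lit 29) (.e (nat_lit 352269) (nat_lit 7) (.e (nat_lit 245776) (nat_lit 4) (.e (nat_lit 172079) (nat_lit 7) (.e (nat_lit 409611) (nat_lit 10) .nil)))))) (.g (nat_lit 1) (.e (nat_lit 12817) (nat_lit 0) .nil) .nil))) 
(.lf (nat_lit 450143) (.g (nat_lit 3080) (.e (nat_lit 2505) (nat_lit 157) (.e (nat_lit 3249) (nat_lit 197) (.e (nat_lit 532550) (nat_lit 12) (.e (nat_lit 360475) (nat_lit 8) (.e (nat_lit 557066) (nat_lit 9) (.e (nat_lit 297) (nat_lit 22) (.e (nat_lit 344066) (nat_lit 0) .nil))))))) (.g (nat_lit 1) (.e (nat_lit 14789) (nat_lit 0) .nil) .nil)))) (.nd (nat_lit 9) 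
(.lf (nat_lit 449887) (.g (nat_lit 4754) (.e (nat_lit 2450) (nat_lit 157) (.e (nat_lit 3098) (nat_lit 192) (.e (nat_lit 491569) (nat_lit 13) (.e (nat_lit 393301) (nat_lit 27) (.e (nat_lit 491559) (nat_lit 10) (.e (nat_lit 344091) (nat_lit 18) (.e (nat_lit 6850) (nat_lit 371) .nil))))))) (.g (nat_lit 1) (.e (nat_lit 13851) (nat_lit 0) .nil) .nil))) 
(.lf (nat_lit 450399) (.g (nat_lit 1846) (.e (nat_lit 2553) (nat_lit 159) (.e (nat_lit 24640) (nat_lit 10) (.e (nat_lit 344156) (nat_lit 36) (.e (nat_lit 638999) (nat_lit 8) .nil)))) (.g (nat_lit 0) (.e (nat_lit 15746) (nat_lit 0) .nil) .nil))))) (.nd (nat_lit 8) (.nd (nat_lit 9) 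
(.lf (nat_lit 449759) (.g (nat_lit 2557) (.e (nat_lit 2422) (nat_lit 157) (.e (nat_lit 2668) (nat_lit 167) (.e (nat_lit 196666) (nat_lit 13) (.e (nat_lit 65610) (nat_lit 10) (.e (nat_lit 344117) (nat_lit 21) .nil))))) (.g (nat_lit 0) (.e (nat_lit 13219) (nat_lit 0) .nil) .nil))) 
(.lf (nat_lit 450271) (.g (nat_lit 3267) (.e (nat_lit 2551) (nat_lit 159) (.e (nat_lit 24608) (nat_lit 3) (.e (nat_lit 98372) (nat_lit 29) (.e (nat_lit 450579) (nat_lit 5) (.e (nat_lit 532504) (nat_lit 1) (.e (nat_lit 57777) (nat_lit 233) .nil)))))) (.g (nat_lit 1) (.e (nat_lit 15402) (nat_lit 0) .nil) .nil)))) (.nd (nat_lit 9) 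
(.lf (nat_lit 450015) (.g (nat_lit 3503) (.e (nat_lit 2477) (nat_lit 157) (.e (nat_lit 2663) (nat_lit 167) (.e (nat_lit 196666) (nat_lit 13) (.e (nat_lit 65610) (nat_lit 10) (.e (nat_lit 344117) (nat_lit 21) (.e (nat_lit 516151) (nat_lit 9) (.e (nat_lit 426017) (nat_lit 0) (.e (nat_lit 2420) (nat_lit 157) (.e (nat_lit 4817) (nat_lit 281) .nil))))))))) (.g (nat_lit 1) (.e (nat_lit 14257) (nat_lit 0) .nil) .nil))) 
(.lf (nat_lit 450527) (.g (nat_lit 1957) (.e (nat_lit 2559) (nat_lit 159) (.e (nat_lit 24640) (nat_lit 10) (.e (nat_lit 344156) (nat_lit 36) (.e (nat_lit 638985) (nat_lit 5) .nil)))) (.g (nat_lit 0) (.e (nat_lit 16290) (nat_lit 0) .nil) .nil))))))) (.nd (nat_lit 6) (.nd (nat_lit 7) (.nd (nat_lit 8) (.nd (nat_lit 9) 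
(.lf (nat_lit 449599) (.g (nat_lit 2811) (.e (nat_lit 883) (nat_lit 75) (.e (nat_lit 778466) (nat_lit 11) (.e (nat_lit 24617) (nat_lit 7) (.e (nat_lit 319530) (nat_lit 16) (.e (nat_lit 286759) (nat_lit 12) .nil))))) (.g (nat_lit 0) (.e (nat_lit 12681) (nat_lit 0) .nil) .nil))) 
(.lf (nat_lit 450111) (.g (nat_lit 3371) (.e (nat_lit 2491) (nat_lit 157) (.e (nat_lit 2663) (nat_lit 167) (.e (nat_lit 196666) (nat_lit 13) (.e (nat_lit 65610) (nat_lit 10) (.e (nat_lit 344117) (nat_lit 21) .nil))))) (.g (nat_lit 0) (.e (nat_lit 14540) (nat_lit 0) .nil) .nil)))) (.nd (nat_lit 9) 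
(.lf (nat_lit 449855) (.g (nat_lit 2576) (.e (nat_lit 2445) (nat_lit 157) (.e (nat_lit 2668) (nat_lit 167) (.e (nat_lit 196666) (nat_lit 13) (.e (nat_lit 65610) (nat_lit 10) (.e (nat_lit 344117) (nat_lit 21) .nil))))) (.g (nat_lit 0) (.e (nat_lit 13672) (nat_lit 0) .nil) .nil))) 
(.lf (nat_lit 450367) (.g (nat_lit 4546) (.e (nat_lit 2552) (nat_lit 159) (.e (nat_lit 24658) (nat_lit 13) (.e (nat_lit 393301) (nat_lit 27) (.e (nat_lit 491560) (nat_lit 10) (.e (nat_lit 344089) (nat_lit 18) .nil))))) (.g (nat_lit 0) (.e (nat_lit 15671) (nat_lit 0) .nil) .nil))))) (.nd (nat_lit 8) (.nd (nat_lit 9) 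
(.lf (nat_lit 449727) (.g (nat_lit 2188) (.e (nat_lit 2399) (nat_lit 157) (.e (nat_lit 2668) (nat_lit 167) (.e (nat_lit 196666) (nat_lit 13) (.e (nat_lit 65610) (nat_lit 10) (.e (nat_lit 344117) (nat_lit 21) .nil))))) (.g (nat_lit 0) (.e (nat_lit 13099) (nat_lit 0) .nil) .nil))) 
(.lf (nat_lit 450239) (.g (nat_lit 4542) (.e (nat_lit 2515) (nat_lit 157) (.e (nat_lit 5948) (nat_lit 322) (.e (nat_lit 57371) (nat_lit 2) (.e (nat_lit 90174) (nat_lit 14) (.e (nat_lit 180243) (nat_lit 5) (.e (nat_lit 532513) (nat_lit 3) (.e (nat_lit 114718) (nat_lit 23) (.e (nat_lit 98325) (nat_lit 17) .nil)))))))) (.g (nat_lit 1) (.e (nat_lit 15244) (nat_lit 0) .nil) .nil)))) (.nd (nat_lit 9) 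
(.lf (nat_lit 449983) (.g (nat_lit 2732) (.e (nat_lit 2466) (nat_lit 157) (.e (nat_lit 3307) (nat_lit 202) (.e (nat_lit 573489) (nat_lit 14) (.e (nat_lit 73755) (nat_lit 8) (.e (nat_lit 557105) (nat_lit 14) (.e (nat_lit 180252) (nat_lit 10) (.e (nat_lit 573473) (nat_lit 12) (.e (nat_lit 57504) (nat_lit 38) (.e (nat_lit 638985) (nat_lit 5) .nil))))))))) (.g (nat_lit 1) (.e (nat_lit 14148) (nat_lit 0) .nil) .nil))) 
(.lf (nat_lit 450495) (.g (nat_lit 3595) (.e (nat_lit 2557) (nat_lit 159) (.e (nat_lit 24662) (nat_lit 14) (.e (nat_lit 401425) (nat_lit 2) (.e (nat_lit 196666) (nat_lit 13) (.e (nat_lit 65610) (nat_lit 10) (.e (nat_lit 344090) (nat_lit 18) (.e (nat_lit 4068) (nat_lit 245) .nil))))))) (.g (nat_lit 1) (.e (nat_lit 16189) (nat_lit 0) .nil) .nil)))))) 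
(.nd (nat_lit 7) (.nd (nat_lit 8) (.nd (nat_lit 9) 
(.lf (nat_lit 449663) (.g (nat_lit 2407) (.e (nat_lit 787) (nat_lit 66) (.e (nat_lit 704738) (nat_lit 11) (.e (nat_lit 16425) (nat_lit 7) (.e (nat_lit 409644) (nat_lit 18) .nil)))) (.g (nat_lit 0) (.e (nat_lit 12881) (nat_lit 0) .nil) .nil))) 
(.lf (nat_lit 450175) (.g (nat_lit 4873) (.e (nat_lit 2508) (nat_lit 157) (.e (nat_lit 3249) (nat_lit 197) (.e (nat_lit 532526) (nat_lit 8) (.e (nat_lit 327699) (nat_lit 8) (.e (nat_lit 303117) (nat_lit 2) (.e (nat_lit 196670) (nat_lit 14) (.e (nat_lit 73779) (nat_lit 32) .nil))))))) (.g (nat_lit 1) (.e (nat_lit 14916) (nat_lit 0) .nil) .nil)))) (.nd (nat_lit 9) 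
(.lf (nat_lit 449919) (.g (nat_lit 2325) (.e (nat_lit 2458) (nat_lit 157) (.e (nat_lit 5546) (nat_lit 306) (.e (nat_lit 2610) (nat_lit 163) (.e (nat_lit 163977) (nat_lit 30) (.e (nat_lit 573493) (nat_lit 15) (.e (nat_lit 81953) (nat_lit 22) (.e (nat_lit 90170) (nat_lit 13) (.e (nat_lit 172042) (nat_lit 0) .nil)))))))) (.g (nat_lit 1) (.e (nat_lit 13961) (nat_lit 0) .nil) .nil))) 
(.lf (nat_lit 450431) (.g (nat_lit 3587) (.e (nat_lit 2555) (nat_lit 159) (.e (nat_lit 24608) (nat_lit 3) (.e (nat_lit 98373) (nat_lit 29) (.e (nat_lit 450587) (nat_lit 10) (.e (nat_lit 573475) (nat_lit 12) (.e (nat_lit 57346) (nat_lit 0) (.e (nat_lit 7458) (nat_lit 396) .nil))))))) (.g (nat_lit 1) (.e (nat_lit 15894) (nat_lit 0) .nil) .nil))))) (.nd (nat_lit 8) (.nd (nat_lit 9) 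
(.lf (nat_lit 449791) (.g (nat_lit 1849) (.e (nat_lit 2433) (nat_lit 157) (.e (nat_lit 2668) (nat_lit 167) (.e (nat_lit 196666) (nat_lit 13) (.e (nat_lit 65610) (nat_lit 10) (.e (nat_lit 344117) (nat_lit 21) .nil))))) (.g (nat_lit 0) (.e (nat_lit 13398) (nat_lit 0) .nil) .nil))) 
(.lf (nat_lit 450303) (.g (nat_lit 1921) (.e (nat_lit 2551) (nat_lit 159) (.e (nat_lit 24640) (nat_lit 10) (.e (nat_lit 344156) (nat_lit 36) (.e (nat_lit 638998) (nat_lit 8) (.e (nat_lit 172106) (nat_lit 10) .nil))))) (.g (nat_lit 0) (.e (nat_lit 15448) (nat_lit 0) .nil) .nil)))) (.nd (nat_lit 9) 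
(.lf (nat_lit 450047) (.g (nat_lit 3517) (.e (nat_lit 2477) (nat_lit 157) (.e (nat_lit 2663) (nat_lit 167) (.e (nat_lit 196666) (nat_lit 13) (.e (nat_lit 65610) (nat_lit 10) (.e (nat_lit 344117) (nat_lit 21) (.e (nat_lit 516151) (nat_lit 9) (.e (nat_lit 426047) (nat_lit 0) (.e (nat_lit 2515) (nat_lit 157) (.e (nat_lit 4823) (nat_lit 281) .nil))))))))) (.g (nat_lit 1) (.e (nat_lit 14289) (nat_lit 0) .nil) .nil))) 
(.lf (nat_lit 450559) (.g (nat_lit 2076) (.e (nat_lit 7936) (nat_lit 159) (.e (nat_lit 24604) (nat_lit 2) (.e (nat_lit 90176) (nat_lit 15) (.e (nat_lit 188450) (nat_lit 23) (.e (nat_lit 204830) (nat_lit 18) .nil))))) (.g (nat_lit 0) (.e (nat_lit 16415) (nat_lit 0) .nil) .nil)))))))))))))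


end

end Pool.Agent.Lib.MP_5854e1_co.Cz
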