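import Pool.Agent.Lib.MP_5854e1_co.DtD

/-!
# Windows and cells of the rings
-/

set_option autoImplicit false
set_option maxRecDepth 100000
set_option deprecated.oldSectionVars true

namespace Pool.Agent.Lib.MP_5854e1_co.Cz

open Pool.Agent.Lib.MP_5854e1_co

noncomputable section

noncomputable def tv5500 : DT := (.nd (nat_lit 0) (.nd (nat_lit 1) (.nd (nat_lit 2) (.nd (nat_lit 3) (.nd (nat_lit 4) (.nd (nat_lit 5) (.nd (nat_lit 6) (.nd (nat_lit 7) (.nd (nat_lit 8) (.nd (nat_lit 9) 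
(.lf (nat_lit 450560) (.g (nat_lit 2265) (.e (nat_lit 7936) (nat_lit 159) (.e (nat_lit 24608) (nat_lit 3) (.e (nat_lit 98372) (nat_lit 29) (.e (nat_lit 458496) (nat_lit 3) .nil)))) (.g (nat_lit 0) (.e (nat_lit 16418) (nat_lit 0) .nil) .nil))) 
(.lf (nat_lit 451072) (.g (nat_lit 3488) (.e (nat_lit 2606) (nat_lit 163) (.e (nat_lit 164403) (nat_lit 256) (.e (nat_lit 57373) (nat_lit 2) (.e (nat_lit 90174) (nat_lit 14) (.e (nat_lit 180243) (nat_lit 5) (.e (nat_lit 532515) (nat_lit 3) (.e (nat_lit 114716) (nat_lit 22) (.e (nat_lit 90129) (nat_lit 9) .nil)))))))) (.g (nat_lit 1) (.e (nat_lit 18729) (nat_lit 0) .nil) .nil)))) (.nd (nat_lit 9) 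
(.lf (nat_lit 450816) (.g (nat_lit 4306) (.e (nat_lit 2599) (nat_lit 163) (.e (nat_lit 163976) (nat_lit 30) (.e (nat_lit 573481) (nat_lit 13) (.e (nat_lit 65619) (nat_lit 10) (.e (nat_lit 344117) (nat_lit 21) (.e (nat_lit 516160) (nat_lit 10) (.e (nat_lit 434209) (nat_lit 18) (.e (nat_lit 5546) (nat_lit 306) .nil)))))))) (.g (nat_lit 1) (.e (nat_lit 17251) (nat_lit 0) .nil) .nil))) 
(.lf (nat_lit 451328) (.g (nat_lit 4625) (.e (nat_lit 2610) (nat_lit 163) (.e (nat_lit 163977) (nat_lit 30) (.e (nat_lit 573493) (nat_lit 15) (.e (nat_lit 81956) (nat_lit 23) (.e (nat_lit 98367) (nat_lit 27) (.e (nat_lit 434209) (nat_lit 18) (.e (nat_lit 5548) (nat_lit 306) .nil))))))) (.g (nat_lit 1) (.e (nat_lit 19538) (nat_lit 0) .nil) .nil))))) (.nd (nat_lit 8) (.nd (nat_lit 9) 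
(.lf (nat_lit 450688) (.g (nat_lit 3580) (.e (nat_lit 2587) (nat_lit 162) (.e (nat_lit 49189) (nat_lit 11) (.e (nat_lit 16425) (nat_lit 7) (.e (nat_lit 409643) (nat_lit 18) (.e (nat_lit 303143) (nat_lit 12) (.e (nat_lit 475198) (nat_lit 40) (.e (nat_lit 704790) (nat_lit 14) .nil))))))) (.g (nat_lit 1) (.e (nat_lit 16924) (nat_lit 0) .nil) .nil))) 
(.lf (nat_lit 451200) (.g (nat_lit 4234) (.e (nat_lit 2610) (nat_lit 163) (.e (nat_lit 163977) (nat_lit 30) (.e (nat_lit 573485) (nat_lit 13) (.e (nat_lit 65619) (nat_lit 10) (.e (nat_lit 344117) (nat_lit 21) (.e (nat_lit 516170) (nat_lit 13) (.e (nat_lit 458774) (nat_lit 18) (.e (nat_lit 5548) (nat_lit 306) .nil)))))))) (.g (nat_lit 1) (.e (nat_lit 19371) (nat_lit 0) .nil) .nil)))) 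
(.nd (nat_lit 9) 
(.lf (nat_lit 450944) (.g (nat_lit 5052) (.e (nat_lit 2601) (nat_lit 163) (.e (nat_lit 163977) (nat_lit 30) (.e (nat_lit 573482) (nat_lit 13) (.e (nat_lit 65619) (nat_lit 10) (.e (nat_lit 344117) (nat_lit 21) (.e (nat_lit 516151) (nat_lit 9) (.e (nat_lit 426104) (nat_lit 1) (.e (nat_lit 164345) (nat_lit 240) .nil)))))))) (.g (nat_lit 1) (.e (nat_lit 18010) (nat_lit 0) .nil) .nil))) 
(.lf (nat_lit 451456) (.g (nat_lit 4312) (.e (nat_lit 2610) (nat_lit 163) (.e (nat_lit 163978) (nat_lit 30) (.e (nat_lit 573485) (nat_lit 13) (.e (nat_lit 65604) (nat_lit 9) (.e (nat_lit 336028) (nat_lit 3) (.e (nat_lit 98366) (nat_lit 27) (.e (nat_lit 434209) (nat_lit 18) (.e (nat_lit 5546) (nat_lit 306) .nil)))))))) (.g (nat_lit 1) (.e (nat_lit 19693) (nat_lit 0) .nil) .nil)))))) 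
(.nd (nat_lit 7) (.nd (nat_lit 8) (.nd (nat_lit 9) 
(.lf (nat_lit 450624) (.g (nat_lit 4045) (.e (nat_lit 2570) (nat_lit 160) (.e (nat_lit 32807) (nat_lit 18) (.e (nat_lit 172126) (nat_lit 14) (.e (nat_lit 491540) (nat_lit 3) (.e (nat_lit 98367) (nat_lit 27) (.e (nat_lit 434186) (nat_lit 13) .nil)))))) (.g (nat_lit 1) (.e (nat_lit 16656) (nat_lit 0) .nil) .nil))) 
(.lf (nat_lit 451136) (.g (nat_lit 4040) (.e (nat_lit 2610) (nat_lit 163) (.e (nat_lit 163977) (nat_lit 30) (.e (nat_lit 573482) (nat_lit 13) (.e (nat_lit 65619) (nat_lit 10) (.e (nat_lit 344117) (nat_lit 21) (.e (nat_lit 516160) (nat_lit 10) (.e (nat_lit 434209) (nat_lit 18) (.e (nat_lit 5547) (nat_lit 306) .nil)))))))) (.g (nat_lit 1) (.e (nat_lit 19306) (nat_lit 0) .nil) .nil)))) 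
(.nd (nat_lit 9) 
(.lf (nat_lit 450880) (.g (nat_lit 1296) (.e (nat_lit 2599) (nat_lit 163) (.e (nat_lit 164399) (nat_lit 256) (.e (nat_lit 57372) (nat_lit 2) (.e (nat_lit 90174) (nat_lit 14) .nil)))) (.g (nat_lit 0) (.e (nat_lit 17630) (nat_lit 0) .nil) .nil))) 
(.lf (nat_lit 451392) (.g (nat_lit 3863) (.e (nat_lit 2610) (nat_lit 163) (.e (nat_lit 163978) (nat_lit 30) (.e (nat_lit 573479) (nat_lit 13) (.e (nat_lit 65619) (nat_lit 10) (.e (nat_lit 344129) (nat_lit 26) (.e (nat_lit 557066) (nat_lit 9) (.e (nat_lit 307) (nat_lit 22) (.e (nat_lit 344090) (nat_lit 18) (.e (nat_lit 4708) (nat_lit 275) .nil))))))))) (.g (nat_lit 1) (.e (nat_lit 19618) (nat_lit 0) .nil) .nil))))) 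
(.nd (nat_lit 8) (.nd (nat_lit 9) 
(.lf (nat_lit 450752) (.g (nat_lit 2419) (.e (nat_lit 2592) (nat_lit 162) (.e (nat_lit 49189) (nat_lit 11) (.e (nat_lit 16425) (nat_lit 7) (.e (nat_lit 409649) (nat_lit 18) (.e (nat_lit 303140) (nat_lit 10) (.e (nat_lit 434272) (nat_lit 38) (.e (nat_lit 663296) (nat_lit 14) .nil))))))) (.g (nat_lit 1) (.e (nat_lit 16992) (nat_lit 0) .nil) .nil))) 
(.lf (nat_lit 451264) (.g (nat_lit 2457) (.e (nat_lit 2610) (nat_lit 163) (.e (nat_lit 163977) (nat_lit 30) (.e (nat_lit 573493) (nat_lit 15) (.e (nat_lit 81953) (nat_lit 22) (.e (nat_lit 90170) (nat_lit 13) (.e (nat_lit 172049) (nat_lit 0) (.e (nat_lit 2458) (nat_lit 157) (.e (nat_lit 5547) (nat_lit 306) .nil)))))))) (.g (nat_lit 1) (.e (nat_lit 19466) (nat_lit 0) .nil) .nil)))) (.nd (nat_lit 9) 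
(.lf (nat_lit 451008) (.g (nat_lit 4163) (.e (nat_lit 2602) (nat_lit 163) (.e (nat_lit 163979) (nat_lit 30) (.e (nat_lit 573482) (nat_lit 13) (.e (nat_lit 65619) (nat_lit 10) (.e (nat_lit 344117) (nat_lit 21) (.e (nat_lit 516151) (nat_lit 9) (.e (nat_lit 426142) (nat_lit 4) (.e (nat_lit 229664) (nat_lit 240) .nil)))))))) (.g (nat_lit 1) (.e (nat_lit 18402) (nat_lit 0) .nil) .nil))) 
(.lf (nat_lit 451520) (.g (nat_lit 2313) (.e (nat_lit 2610) (nat_lit 163) (.e (nat_lit 163978) (nat_lit 30) (.e (nat_lit 573493) (nat_lit 15) (.e (nat_lit 81954) (nat_lit 23) .nil)))) (.g (nat_lit 0) (.e (nat_lit 20058) (nat_lit 0) .nil) .nil))))))) (.nd (nat_lit 6) (.nd (nat_lit 7) (.nd (nat_lit 8) (.nd (nat_lit 9) 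
(.lf (nat_lit 450592) (.g (nat_lit 2632) (.e (nat_lit 2570) (nat_lit 160) (.e (nat_lit 32806) (nat_lit 18) (.e (nat_lit 172126) (nat_lit 14) (.e (nat_lit 491537) (nat_lit 2) (.e (nat_lit 90174) (nat_lit 14) (.e (nat_lit 180287) (nat_lit 45) .nil)))))) (.g (nat_lit 1) (.e (nat_lit 16506) (nat_lit 0) .nil) .nil))) 
(.lf (nat_lit 451104) (.g (nat_lit 3560) (.e (nat_lit 2610) (nat_lit 163) (.e (nat_lit 163977) (nat_lit 30) (.e (nat_lit 573482) (nat_lit 13) (.e (nat_lit 65604) (nat_lit 9) (.e (nat_lit 336013) (nat_lit 2) (.e (nat_lit 90170) (nat_lit 13) (.e (nat_lit 172059) (nat_lit 1) (.e (nat_lit 164347) (nat_lit 240) .nil)))))))) (.g (nat_lit 1) (.e (nat_lit 19274) (nat_lit 0) .nil) .nil)))) 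
(.nd (nat_lit 9) 
(.lf (nat_lit 450848) (.g (nat_lit 3913) (.e (nat_lit 2599) (nat_lit 163) (.e (nat_lit 163978) (nat_lit 30) (.e (nat_lit 573485) (nat_lit 13) (.e (nat_lit 65619) (nat_lit 10) (.e (nat_lit 344117) (nat_lit 21) (.e (nat_lit 516170) (nat_lit 13) (.e (nat_lit 458774) (nat_lit 18) (.e (nat_lit 5546) (nat_lit 306) .nil)))))))) (.g (nat_lit 1) (.e (nat_lit 17358) (nat_lit 0) .nil) .nil))) 
(.lf (nat_lit 451360) (.g (nat_lit 4531) (.e (nat_lit 2610) (nat_lit 163) (.e (nat_lit 163978) (nat_lit 30) (.e (nat_lit 573479) (nat_lit 13) (.e (nat_lit 65619) (nat_lit 10) (.e (nat_lit 344117) (nat_lit 21) (.e (nat_lit 516097) (nat_lit 0) (.e (nat_lit 7366) (nat_lit 388) (.e (nat_lit 2610) (nat_lit 163) (.e (nat_lit 164347) (nat_lit 240) .nil))))))))) (.g (nat_lit 1) (.e (nat_lit 19586) (nat_lit 0) .nil) .nil))))) 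
(.nd (nat_lit 8) (.nd (nat_lit 9) 
(.lf (nat_lit 450720) (.g (nat_lit 3255) (.e (nat_lit 2591) (nat_lit 162) (.e (nat_lit 49189) (nat_lit 11) (.e (nat_lit 16425) (nat_lit 7) (.e (nat_lit 409648) (nat_lit 18) (.e (nat_lit 303137) (nat_lit 10) (.e (nat_lit 434271) (nat_lit 38) (.e (nat_lit 655404) (nat_lit 14) .nil))))))) (.g (nat_lit 1) (.e (nat_lit 16957) (nat_lit 0) .nil) .nil))) 
(.lf (nat_lit 451232) (.g (nat_lit 2348) (.e (nat_lit 2610) (nat_lit 163) (.e (nat_lit 163977) (nat_lit 30) (.e (nat_lit 573491) (nat_lit 15) (.e (nat_lit 81954) (nat_lit 23) (.e (nat_lit 98367) (nat_lit 27) (.e (nat_lit 434209) (nat_lit 18) (.e (nat_lit 5546) (nat_lit 306) .nil))))))) (.g (nat_lit 1) (.e (nat_lit 19408) (nat_lit 0) .nil) .nil)))) (.nd (nat_lit 9) 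
(.lf (nat_lit 450976) (.g (nat_lit 3537) (.e (nat_lit 2601) (nat_lit 163) (.e (nat_lit 163979) (nat_lit 30) (.e (nat_lit 573482) (nat_lit 13) (.e (nat_lit 65604) (nat_lit 9) (.e (nat_lit 336028) (nat_lit 3) (.e (nat_lit 98354) (nat_lit 26) (.e (nat_lit 426109) (nat_lit 1) (.e (nat_lit 164347) (nat_lit 240) .nil)))))))) (.g (nat_lit 1) (.e (nat_lit 18194) (nat_lit 0) .nil) .nil))) 
(.lf (nat_lit 451488) (.g (nat_lit 4210) (.e (nat_lit 2610) (nat_lit 163) (.e (nat_lit 163978) (nat_lit 30) (.e (nat_lit 573485) (nat_lit 13) (.e (nat_lit 65619) (nat_lit 10) (.e (nat_lit 344117) (nat_lit 21) (.e (nat_lit 516159) (nat_lit 10) (.e (nat_lit 434209) (nat_lit 18) (.e (nat_lit 5546) (nat_lit 306) .nil)))))))) (.g (nat_lit 1) (.e (nat_lit 19727) (nat_lit 0) .nil) .nil)))))) 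
(.nd (nat_lit 7) (.nd (nat_lit 8) (.nd (nat_lit 9) 
(.lf (nat_lit 450656) (.g (nat_lit 2632) (.e (nat_lit 2571) (nat_lit 160) (.e (nat_lit 32807) (nat_lit 18) (.e (nat_lit 172124) (nat_lit 14) (.e (nat_lit 491535) (nat_lit 2) (.e (nat_lit 90172) (nat_lit 14) (.e (nat_lit 180285) (nat_lit 45) .nil)))))) (.g (nat_lit 1) (.e (nat_lit 16847) (nat_lit 0) .nil) .nil))) 
(.lf (nat_lit 451168) (.g (nat_lit 3357) (.e (nat_lit 2610) (nat_lit 163) (.e (nat_lit 163977) (nat_lit 30) (.e (nat_lit 573485) (nat_lit 13) (.e (nat_lit 65604) (nat_lit 9) (.e (nat_lit 336013) (nat_lit 2) (.e (nat_lit 90170) (nat_lit 13) (.e (nat_lit 172061) (nat_lit 1) (.e (nat_lit 164347) (nat_lit 240) .nil)))))))) (.g (nat_lit 1) (.e (nat_lit 19338) (nat_lit 0) .nil) .nil)))) 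
(.nd (nat_lit 9) 
(.lf (nat_lit 450912) (.g (nat_lit 3174) (.e (nat_lit 2600) (nat_lit 163) (.e (nat_lit 164398) (nat_lit 256) (.e (nat_lit 57373) (nat_lit 2) (.e (nat_lit 90174) (nat_lit 14) (.e (nat_lit 180243) (nat_lit 5) (.e (nat_lit 532515) (nat_lit 3) (.e (nat_lit 114716) (nat_lit 22) (.e (nat_lit 90137) (nat_lit 9) .nil)))))))) (.g (nat_lit 1) (.e (nat_lit 17838) (nat_lit 0) .nil) .nil))) 
(.lf (nat_lit 451424) (.g (nat_lit 2620) (.e (nat_lit 2610) (nat_lit 163) (.e (nat_lit 163978) (nat_lit 30) (.e (nat_lit 573484) (nat_lit 13) (.e (nat_lit 65610) (nat_lit 10) (.e (nat_lit 344117) (nat_lit 21) (.e (nat_lit 516170) (nat_lit 13) (.e (nat_lit 458774) (nat_lit 18) (.e (nat_lit 5543) (nat_lit 306) .nil)))))))) (.g (nat_lit 1) (.e (nat_lit 19650) (nat_lit 0) .nil) .nil))))) 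
(.nd (nat_lit 8) (.nd (nat_lit 9) 
(.lf (nat_lit 450784) (.g (nat_lit 2800) (.e (nat_lit 2579) (nat_lit 161) (.e (nat_lit 40993) (nat_lit 11) (.e (nat_lit 24657) (nat_lit 13) (.e (nat_lit 393260) (nat_lit 21) (.e (nat_lit 409617) (nat_lit 10) (.e (nat_lit 4934) (nat_lit 287) .nil)))))) (.g (nat_lit 1) (.e (nat_lit 17027) (nat_lit 0) .nil) .nil))) 
(.lf (nat_lit 451296) (.g (nat_lit 4940) (.e (nat_lit 2610) (nat_lit 163) (.e (nat_lit 163977) (nat_lit 30) (.e (nat_lit 573493) (nat_lit 15) (.e (nat_lit 81954) (nat_lit 23) (.e (nat_lit 98367) (nat_lit 27) (.e (nat_lit 434209) (nat_lit 18) (.e (nat_lit 5548) (nat_lit 306) .nil))))))) (.g (nat_lit 1) (.e (nat_lit 19498) (nat_lit 0) .nil) .nil)))) (.nd (nat_lit 9) 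
(.lf (nat_lit 451040) (.g (nat_lit 3289) (.e (nat_lit 2606) (nat_lit 163) (.e (nat_lit 163978) (nat_lit 30) (.e (nat_lit 573489) (nat_lit 14) (.e (nat_lit 73755) (nat_lit 8) (.e (nat_lit 557103) (nat_lit 14) .nil))))) (.g (nat_lit 0) (.e (nat_lit 18680) (nat_lit 0) .nil) .nil))) 
(.lf (nat_lit 451552) (.g (nat_lit 2463) (.e (nat_lit 2610) (nat_lit 163) (.e (nat_lit 163979) (nat_lit 30) (.e (nat_lit 573482) (nat_lit 13) (.e (nat_lit 65604) (nat_lit 9) (.e (nat_lit 336028) (nat_lit 3) (.e (nat_lit 98359) (nat_lit 26) (.e (nat_lit 426038) (nat_lit 0) (.e (nat_lit 2458) (nat_lit 157) (.e (nat_lit 5547) (nat_lit 306) .nil))))))))) (.g (nat_lit 1) (.e (nat_lit 20145) (nat_lit 0) .nil) .nil)))))))) 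
(.nd (nat_lit 5) (.nd (nat_lit 6) (.nd (nat_lit 7) (.nd (nat_lit 8) (.nd (nat_lit 9) 
(.lf (nat_lit 450576) (.g (nat_lit 2714) (.e (nat_lit 2569) (nat_lit 160) (.e (nat_lit 32807) (nat_lit 18) (.e (nat_lit 172124) (nat_lit 14) (.e (nat_lit 491535) (nat_lit 2) (.e (nat_lit 90172) (nat_lit 14) (.e (nat_lit 180285) (nat_lit 45) .nil)))))) (.g (nat_lit 1) (.e (nat_lit 16481) (nat_lit 0) .nil) .nil))) 
(.lf (nat_lit 451088) (.g (nat_lit 2358) (.e (nat_lit 2607) (nat_lit 163) (.e (nat_lit 164403) (nat_lit 256) (.e (nat_lit 57373) (nat_lit 2) (.e (nat_lit 90174) (nat_lit 14) (.e (nat_lit 180243) (nat_lit 5) .nil))))) (.g (nat_lit 0) (.e (nat_lit 19001) (nat_lit 0) .nil) .nil)))) (.nd (nat_lit 9) 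
(.lf (nat_lit 450832) (.g (nat_lit 4188) (.e (nat_lit 2599) (nat_lit 163) (.e (nat_lit 163978) (nat_lit 30) (.e (nat_lit 573485) (nat_lit 13) (.e (nat_lit 65604) (nat_lit 9) (.e (nat_lit 336013) (nat_lit 2) (.e (nat_lit 90170) (nat_lit 13) (.e (nat_lit 172061) (nat_lit 1) (.e (nat_lit 164346) (nat_lit 240) .nil)))))))) (.g (nat_lit 1) (.e (nat_lit 17333) (nat_lit 0) .nil) .nil))) 
(.lf (nat_lit 451344) (.g (nat_lit 3644) (.e (nat_lit 2610) (nat_lit 163) (.e (nat_lit 163978) (nat_lit 30) (.e (nat_lit 573479) (nat_lit 13) (.e (nat_lit 65604) (nat_lit 9) (.e (nat_lit 336013) (nat_lit 2) (.e (nat_lit 90170) (nat_lit 13) (.e (nat_lit 172061) (nat_lit 1) (.e (nat_lit 164347) (nat_lit 240) .nil)))))))) (.g (nat_lit 1) (.e (nat_lit 19570) (nat_lit 0) .nil) .nil))))) 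
(.nd (nat_lit 8) (.nd (nat_lit 9) 
(.lf (nat_lit 450704) (.g (nat_lit 3090) (.e (nat_lit 2587) (nat_lit 162) (.e (nat_lit 49189) (nat_lit 11) (.e (nat_lit 16425) (nat_lit 7) (.e (nat_lit 409649) (nat_lit 18) (.e (nat_lit 303143) (nat_lit 12) (.e (nat_lit 475199) (nat_lit 40) (.e (nat_lit 704790) (nat_lit 14) .nil))))))) (.g (nat_lit 1) (.e (nat_lit 16940) (nat_lit 0) .nil) .nil))) 
(.lf (nat_lit 451216) (.g (nat_lit 1820) (.e (nat_lit 2610) (nat_lit 163) (.e (nat_lit 163977) (nat_lit 30) (.e (nat_lit 573491) (nat_lit 15) (.e (nat_lit 81954) (nat_lit 23) (.e (nat_lit 98354) (nat_lit 26) .nil))))) (.g (nat_lit 0) (.e (nat_lit 19392) (nat_lit 0) .nil) .nil)))) (.nd (nat_lit 9) 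
(.lf (nat_lit 450960) (.g (nat_lit 1920) (.e (nat_lit 2601) (nat_lit 163) (.e (nat_lit 163978) (nat_lit 30) (.e (nat_lit 573484) (nat_lit 13) (.e (nat_lit 65610) (nat_lit 10) (.e (nat_lit 344117) (nat_lit 21) .nil))))) (.g (nat_lit 0) (.e (nat_lit 18157) (nat_lit 0) .nil) .nil))) 
(.lf (nat_lit 451472) (.g (nat_lit 4960) (.e (nat_lit 2610) (nat_lit 163) (.e (nat_lit 163978) (nat_lit 30) (.e (nat_lit 573485) (nat_lit 13) (.e (nat_lit 65619) (nat_lit 10) (.e (nat_lit 344117) (nat_lit 21) (.e (nat_lit 516151) (nat_lit 9) (.e (nat_lit 426042) (nat_lit 0) (.e (nat_lit 2458) (nat_lit 157) (.e (nat_lit 5547) (nat_lit 306) .nil))))))))) (.g (nat_lit 1) (.e (nat_lit 19711) (nat_lit 0) .nil) .nil)))))) 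
(.nd (nat_lit 7) (.nd (nat_lit 8) (.nd (nat_lit 9) 
(.lf (nat_lit 450640) (.g (nat_lit 2952) (.e (nat_lit 2571) (nat_lit 160) (.e (nat_lit 32807) (nat_lit 18) (.e (nat_lit 172118) (nat_lit 12) (.e (nat_lit 475185) (nat_lit 29) (.e (nat_lit 557104) (nat_lit 14) (.e (nat_lit 180284) (nat_lit 45) .nil)))))) (.g (nat_lit 1) (.e (nat_lit 16823) (nat_lit 0) .nil) .nil))) 
(.lf (nat_lit 451152) (.g (nat_lit 3321) (.e (nat_lit 2610) (nat_lit 163) (.e (nat_lit 163977) (nat_lit 30) (.e (nat_lit 573484) (nat_lit 13) (.e (nat_lit 65610) (nat_lit 10) (.e (nat_lit 344117) (nat_lit 21) (.e (nat_lit 516151) (nat_lit 9) (.e (nat_lit 426104) (nat_lit 1) (.e (nat_lit 164348) (nat_lit 240) .nil)))))))) (.g (nat_lit 1) (.e (nat_lit 19322) (nat_lit 0) .nil) .nil)))) 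
(.nd (nat_lit 9) 
(.lf (nat_lit 450896) (.g (nat_lit 3820) (.e (nat_lit 2600) (nat_lit 163) (.e (nat_lit 163977) (nat_lit 30) (.e (nat_lit 573482) (nat_lit 13) (.e (nat_lit 65604) (nat_lit 9) (.e (nat_lit 336013) (nat_lit 2) (.e (nat_lit 90170) (nat_lit 13) (.e (nat_lit 172061) (nat_lit 1) (.e (nat_lit 164346) (nat_lit 240) .nil)))))))) (.g (nat_lit 1) (.e (nat_lit 17711) (nat_lit 0) .nil) .nil))) 
(.lf (nat_lit 451408) (.g (nat_lit 3956) (.e (nat_lit 2610) (nat_lit 163) (.e (nat_lit 163978) (nat_lit 30) (.e (nat_lit 573484) (nat_lit 13) (.e (nat_lit 65610) (nat_lit 10) (.e (nat_lit 344117) (nat_lit 21) (.e (nat_lit 516151) (nat_lit 9) (.e (nat_lit 426104) (nat_lit 1) (.e (nat_lit 164347) (nat_lit 240) .nil)))))))) (.g (nat_lit 1) (.e (nat_lit 19634) (nat_lit 0) .nil) .nil))))) 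
(.nd (nat_lit 8) (.nd (nat_lit 9) 
(.lf (nat_lit 450768) (.g (nat_lit 3175) (.e (nat_lit 2576) (nat_lit 161) (.e (nat_lit 40996) (nat_lit 11) (.e (nat_lit 24658) (nat_lit 13) (.e (nat_lit 393234) (nat_lit 17) (.e (nat_lit 7110) (nat_lit 380) .nil))))) (.g (nat_lit 0) (.e (nat_lit 17011) (nat_lit 0) .nil) .nil))) 
(.lf (nat_lit 451280) (.g (nat_lit 5081) (.e (nat_lit 2610) (nat_lit 163) (.e (nat_lit 163977) (nat_lit 30) (.e (nat_lit 573493) (nat_lit 15) (.e (nat_lit 81953) (nat_lit 22) (.e (nat_lit 90185) (nat_lit 17) (.e (nat_lit 237584) (nat_lit 1) (.e (nat_lit 164345) (nat_lit 240) .nil))))))) (.g (nat_lit 1) (.e (nat_lit 19482) (nat_lit 0) .nil) .nil)))) (.nd (nat_lit 9) 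
(.lf (nat_lit 451024) (.g (nat_lit 3950) (.e (nat_lit 2604) (nat_lit 163) (.e (nat_lit 163975) (nat_lit 30) (.e (nat_lit 573481) (nat_lit 13) (.e (nat_lit 65619) (nat_lit 10) (.e (nat_lit 344117) (nat_lit 21) (.e (nat_lit 516151) (nat_lit 9) (.e (nat_lit 426142) (nat_lit 4) (.e (nat_lit 229666) (nat_lit 240) .nil)))))))) (.g (nat_lit 1) (.e (nat_lit 18517) (nat_lit 0) .nil) .nil))) 
(.lf (nat_lit 451536) (.g (nat_lit 3090) (.e (nat_lit 2610) (nat_lit 163) (.e (nat_lit 163979) (nat_lit 30) (.e (nat_lit 573481) (nat_lit 13) (.e (nat_lit 65619) (nat_lit 10) (.e (nat_lit 344117) (nat_lit 21) (.e (nat_lit 516160) (nat_lit 10) (.e (nat_lit 434209) (nat_lit 18) (.e (nat_lit 5548) (nat_lit 306) .nil)))))))) (.g (nat_lit 1) (.e (nat_lit 20127) (nat_lit 0) .nil) .nil))))))) 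
(.nd (nat_lit 6) (.nd (nat_lit 7) (.nd (nat_lit 8) (.nd (nat_lit 9) 
(.lf (nat_lit 450608) (.g (nat_lit 2621) (.e (nat_lit 2570) (nat_lit 160) (.e (nat_lit 32807) (nat_lit 18) (.e (nat_lit 172124) (nat_lit 14) (.e (nat_lit 491535) (nat_lit 2) (.e (nat_lit 90172) (nat_lit 14) (.e (nat_lit 180285) (nat_lit 45) .nil)))))) (.g (nat_lit 1) (.e (nat_lit 16621) (nat_lit 0) .nil) .nil))) 
(.lf (nat_lit 451120) (.g (nat_lit 4393) (.e (nat_lit 2610) (nat_lit 163) (.e (nat_lit 163977) (nat_lit 30) (.e (nat_lit 573482) (nat_lit 13) (.e (nat_lit 65604) (nat_lit 9) (.e (nat_lit 336028) (nat_lit 3) (.e (nat_lit 98366) (nat_lit 27) (.e (nat_lit 434209) (nat_lit 18) (.e (nat_lit 5548) (nat_lit 306) .nil)))))))) (.g (nat_lit 1) (.e (nat_lit 19290) (nat_lit 0) .nil) .nil)))) (.nd (nat_lit 9) 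
(.lf (nat_lit 450864) (.g (nat_lit 4198) (.e (nat_lit 2599) (nat_lit 163) (.e (nat_lit 163979) (nat_lit 30) (.e (nat_lit 573482) (nat_lit 13) (.e (nat_lit 65619) (nat_lit 10) (.e (nat_lit 344117) (nat_lit 21) (.e (nat_lit 516143) (nat_lit 9) (.e (nat_lit 426109) (nat_lit 1) (.e (nat_lit 164346) (nat_lit 240) .nil)))))))) (.g (nat_lit 1) (.e (nat_lit 17404) (nat_lit 0) .nil) .nil))) 
(.lf (nat_lit 451376) (.g (nat_lit 3793) (.e (nat_lit 2610) (nat_lit 163) (.e (nat_lit 163978) (nat_lit 30) (.e (nat_lit 573479) (nat_lit 13) (.e (nat_lit 65619) (nat_lit 10) (.e (nat_lit 344117) (nat_lit 21) (.e (nat_lit 516159) (nat_lit 10) (.e (nat_lit 434209) (nat_lit 18) (.e (nat_lit 5546) (nat_lit 306) .nil)))))))) (.g (nat_lit 1) (.e (nat_lit 19602) (nat_lit 0) .nil) .nil))))) 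
(.nd (nat_lit 8) (.nd (nat_lit 9) 
(.lf (nat_lit 450736) (.g (nat_lit 3810) (.e (nat_lit 2592) (nat_lit 162) (.e (nat_lit 49189) (nat_lit 11) (.e (nat_lit 16425) (nat_lit 7) (.e (nat_lit 409623) (nat_lit 10) (.e (nat_lit 5664) (nat_lit 312) (.e (nat_lit 3062) (nat_lit 190) (.e (nat_lit 475198) (nat_lit 40) (.e (nat_lit 704790) (nat_lit 14) .nil)))))))) (.g (nat_lit 1) (.e (nat_lit 16976) (nat_lit 0) .nil) .nil))) 
(.lf (nat_lit 451248) (.g (nat_lit 3105) (.e (nat_lit 2610) (nat_lit 163) (.e (nat_lit 163977) (nat_lit 30) (.e (nat_lit 573492) (nat_lit 15) (.e (nat_lit 81956) (nat_lit 23) (.e (nat_lit 106240) (nat_lit 26) (.e (nat_lit 426107) (nat_lit 1) (.e (nat_lit 164347) (nat_lit 240) .nil))))))) (.g (nat_lit 1) (.e (nat_lit 19440) (nat_lit 0) .nil) .nil)))) (.nd (nat_lit 9) 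
(.lf (nat_lit 450992) (.g (nat_lit 3564) (.e (nat_lit 2602) (nat_lit 163) (.e (nat_lit 163976) (nat_lit 30) (.e (nat_lit 573481) (nat_lit 13) (.e (nat_lit 65619) (nat_lit 10) (.e (nat_lit 344117) (nat_lit 21) (.e (nat_lit 516151) (nat_lit 9) (.e (nat_lit 426142) (nat_lit 4) (.e (nat_lit 229664) (nat_lit 240) .nil)))))))) (.g (nat_lit 1) (.e (nat_lit 18327) (nat_lit 0) .nil) .nil))) 
(.lf (nat_lit 451504) (.g (nat_lit 3976) (.e (nat_lit 2610) (nat_lit 163) (.e (nat_lit 163978) (nat_lit 30) (.e (nat_lit 573485) (nat_lit 13) (.e (nat_lit 65619) (nat_lit 10) (.e (nat_lit 344129) (nat_lit 26) (.e (nat_lit 557087) (nat_lit 11) (.e (nat_lit 24597) (nat_lit 1) (.e (nat_lit 57771) (nat_lit 227) .nil)))))))) (.g (nat_lit 1) (.e (nat_lit 19750) (nat_lit 0) .nil) .nil)))))) 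
(.nd (nat_lit 7) (.nd (nat_lit 8) (.nd (nat_lit 9) 
(.lf (nat_lit 450672) (.g (nat_lit 3097) (.e (nat_lit 2571) (nat_lit 160) (.e (nat_lit 32807) (nat_lit 18) (.e (nat_lit 172126) (nat_lit 14) (.e (nat_lit 491539) (nat_lit 3) (.e (nat_lit 98367) (nat_lit 27) (.e (nat_lit 434192) (nat_lit 13) .nil)))))) (.g (nat_lit 1) (.e (nat_lit 16884) (nat_lit 0) .nil) .nil))) 
(.lf (nat_lit 451184) (.g (nat_lit 4445) (.e (nat_lit 2610) (nat_lit 163) (.e (nat_lit 163977) (nat_lit 30) (.e (nat_lit 573485) (nat_lit 13) (.e (nat_lit 65604) (nat_lit 9) (.e (nat_lit 336028) (nat_lit 3) (.e (nat_lit 98367) (nat_lit 27) (.e (nat_lit 434209) (nat_lit 18) (.e (nat_lit 5548) (nat_lit 306) .nil)))))))) (.g (nat_lit 1) (.e (nat_lit 19355) (nat_lit 0) .nil) .nil)))) (.nd (nat_lit 9) 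
(.lf (nat_lit 450928) (.g (nat_lit 4102) (.e (nat_lit 2601) (nat_lit 163) (.e (nat_lit 163975) (nat_lit 30) (.e (nat_lit 573481) (nat_lit 13) (.e (nat_lit 65619) (nat_lit 10) (.e (nat_lit 344117) (nat_lit 21) (.e (nat_lit 516151) (nat_lit 9) (.e (nat_lit 426097) (nat_lit 1) (.e (nat_lit 164347) (nat_lit 240) .nil)))))))) (.g (nat_lit 1) (.e (nat_lit 17877) (nat_lit 0) .nil) .nil))) 
(.lf (nat_lit 451440) (.g (nat_lit 4512) (.e (nat_lit 2610) (nat_lit 163) (.e (nat_lit 163978) (nat_lit 30) (.e (nat_lit 573485) (nat_lit 13) (.e (nat_lit 65604) (nat_lit 9) (.e (nat_lit 336028) (nat_lit 3) (.e (nat_lit 98354) (nat_lit 26) (.e (nat_lit 426109) (nat_lit 1) (.e (nat_lit 164345) (nat_lit 240) .nil)))))))) (.g (nat_lit 1) (.e (nat_lit 19673) (nat_lit 0) .nil) .nil))))) 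
(.nd (nat_lit 8) (.nd (nat_lit 9) 
(.lf (nat_lit 450800) (.g (nat_lit 2613) (.e (nat_lit 2598) (nat_lit 163) (.e (nat_lit 164403) (nat_lit 256) (.e (nat_lit 57373) (nat_lit 2) (.e (nat_lit 90174) (nat_lit 14) (.e (nat_lit 180243) (nat_lit 5) .nil))))) (.g (nat_lit 0) (.e (nat_lit 17194) (nat_lit 0) .nil) .nil))) 
(.lf (nat_lit 451312) (.g (nat_lit 4027) (.e (nat_lit 2610) (nat_lit 163) (.e (nat_lit 163977) (nat_lit 30) (.e (nat_lit 573493) (nat_lit 15) (.e (nat_lit 81956) (nat_lit 23) (.e (nat_lit 98360) (nat_lit 26) (.e (nat_lit 426109) (nat_lit 1) (.e (nat_lit 164347) (nat_lit 240) .nil))))))) (.g (nat_lit 1) (.e (nat_lit 19522) (nat_lit 0) .nil) .nil)))) (.nd (nat_lit 9) 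
(.lf (nat_lit 451056) (.g (nat_lit 2328) (.e (nat_lit 2606) (nat_lit 163) (.e (nat_lit 163978) (nat_lit 30) (.e (nat_lit 573489) (nat_lit 14) (.e (nat_lit 73755) (nat_lit 8) (.e (nat_lit 557105) (nat_lit 14) (.e (nat_lit 180245) (nat_lit 5) (.e (nat_lit 532503) (nat_lit 1) (.e (nat_lit 57652) (nat_lit 152) .nil)))))))) (.g (nat_lit 1) (.e (nat_lit 18696) (nat_lit 0) .nil) .nil))) 
(.lf (nat_lit 451568) (.g (nat_lit 2288) (.e (nat_lit 2610) (nat_lit 163) (.e (nat_lit 163979) (nat_lit 30) (.e (nat_lit 573482) (nat_lit 13) (.e (nat_lit 65604) (nat_lit 9) (.e (nat_lit 336028) (nat_lit 3) (.e (nat_lit 106240) (nat_lit 26) (.e (nat_lit 426107) (nat_lit 1) (.e (nat_lit 164345) (nat_lit 240) .nil)))))))) (.g (nat_lit 1) (.e (nat_lit 20161) (nat_lit 0) .nil) .nil))))))))) 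
(.nd (nat_lit 4) (.nd (nat_lit 5) (.nd (nat_lit 6) (.nd (nat_lit 7) (.nd (nat_lit 8) 
(.nd (nat_lit 9) 
(.lf (nat_lit 450568) (.g (nat_lit 2122) (.e (nat_lit 2569) (nat_lit 160) (.e (nat_lit 32807) (nat_lit 18) (.e (nat_lit 172118) (nat_lit 12) (.e (nat_lit 475185) (nat_lit 29) (.e (nat_lit 557105) (nat_lit 14) (.e (nat_lit 188160) (nat_lit 45) .nil)))))) (.g (nat_lit 1) (.e (nat_lit 16470) (nat_lit 0) .nil) .nil))) 
(.lf (nat_lit 451080) (.g (nat_lit 1918) (.e (nat_lit 2607) (nat_lit 163) (.e (nat_lit 164183) (nat_lit 154) (.e (nat_lit 57411) (nat_lit 12) (.e (nat_lit 336019) (nat_lit 3) (.e (nat_lit 98381) (nat_lit 31) .nil))))) (.g (nat_lit 0) (.e (nat_lit 18943) (nat_lit 0) .nil) .nil)))) (.nd (nat_lit 9) 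
(.lf (nat_lit 450824) (.g (nat_lit 2567) (.e (nat_lit 2599) (nat_lit 163) (.e (nat_lit 163978) (nat_lit 30) (.e (nat_lit 573479) (nat_lit 13) (.e (nat_lit 65619) (nat_lit 10) (.e (nat_lit 344117) (nat_lit 21) (.e (nat_lit 516151) (nat_lit 9) (.e (nat_lit 426097) (nat_lit 1) (.e (nat_lit 164345) (nat_lit 240) .nil)))))))) (.g (nat_lit 1) (.e (nat_lit 17314) (nat_lit 0) .nil) .nil))) 
(.lf (nat_lit 451336) (.g (nat_lit 4082) (.e (nat_lit 2610) (nat_lit 163) (.e (nat_lit 163977) (nat_lit 30) (.e (nat_lit 573493) (nat_lit 15) (.e (nat_lit 81956) (nat_lit 23) (.e (nat_lit 98368) (nat_lit 27) (.e (nat_lit 434212) (nat_lit 18) (.e (nat_lit 5548) (nat_lit 306) .nil))))))) (.g (nat_lit 1) (.e (nat_lit 19546) (nat_lit 0) .nil) .nil))))) (.nd (nat_lit 8) (.nd (nat_lit 9) 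
(.lf (nat_lit 450696) (.g (nat_lit 3108) (.e (nat_lit 2587) (nat_lit 162) (.e (nat_lit 49189) (nat_lit 11) (.e (nat_lit 16425) (nat_lit 7) (.e (nat_lit 409648) (nat_lit 18) (.e (nat_lit 303137) (nat_lit 10) (.e (nat_lit 434272) (nat_lit 38) (.e (nat_lit 655404) (nat_lit 14) .nil))))))) (.g (nat_lit 1) (.e (nat_lit 16932) (nat_lit 0) .nil) .nil))) 
(.lf (nat_lit 451208) (.g (nat_lit 2929) (.e (nat_lit 2610) (nat_lit 163) (.e (nat_lit 163977) (nat_lit 30) (.e (nat_lit 573491) (nat_lit 15) (.e (nat_lit 81951) (nat_lit 22) (.e (nat_lit 90170) (nat_lit 13) (.e (nat_lit 172061) (nat_lit 1) (.e (nat_lit 164347) (nat_lit 240) .nil))))))) (.g (nat_lit 1) (.e (nat_lit 19381) (nat_lit 0) .nil) .nil)))) (.nd (nat_lit 9) 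
(.lf (nat_lit 450952) (.g (nat_lit 2739) (.e (nat_lit 2601) (nat_lit 163) (.e (nat_lit 163977) (nat_lit 30) (.e (nat_lit 573485) (nat_lit 13) (.e (nat_lit 65619) (nat_lit 10) (.e (nat_lit 344117) (nat_lit 21) (.e (nat_lit 516143) (nat_lit 9) (.e (nat_lit 426109) (nat_lit 1) (.e (nat_lit 164346) (nat_lit 240) .nil)))))))) (.g (nat_lit 1) (.e (nat_lit 18021) (nat_lit 0) .nil) .nil))) 
(.lf (nat_lit 451464) (.g (nat_lit 1842) (.e (nat_lit 2610) (nat_lit 163) (.e (nat_lit 163978) (nat_lit 30) (.e (nat_lit 573485) (nat_lit 13) (.e (nat_lit 65619) (nat_lit 10) (.e (nat_lit 344117) (nat_lit 21) .nil))))) (.g (nat_lit 0) (.e (nat_lit 19702) (nat_lit 0) .nil) .nil)))))) (.nd (nat_lit 7) (.nd (nat_lit 8) (.nd (nat_lit 9) 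
(.lf (nat_lit 450632) (.g (nat_lit 1974) (.e (nat_lit 2570) (nat_lit 160) (.e (nat_lit 32808) (nat_lit 19) (.e (nat_lit 180278) (nat_lit 32) (.e (nat_lit 1253) (nat_lit 92) (.e (nat_lit 98367) (nat_lit 27) (.e (nat_lit 434193) (nat_lit 13) .nil)))))) (.g (nat_lit 1) (.e (nat_lit 16664) (nat_lit 0) .nil) .nil))) 
(.lf (nat_lit 451144) (.g (nat_lit 3421) (.e (nat_lit 2610) (nat_lit 163) (.e (nat_lit 163977) (nat_lit 30) (.e (nat_lit 573484) (nat_lit 13) (.e (nat_lit 65610) (nat_lit 10) (.e (nat_lit 344117) (nat_lit 21) (.e (nat_lit 516143) (nat_lit 9) (.e (nat_lit 426109) (nat_lit 1) (.e (nat_lit 164345) (nat_lit 240) .nil)))))))) (.g (nat_lit 1) (.e (nat_lit 19314) (nat_lit 0) .nil) .nil)))) 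
(.nd (nat_lit 9) 
(.lf (nat_lit 450888) (.g (nat_lit 3900) (.e (nat_lit 2600) (nat_lit 163) (.e (nat_lit 163975) (nat_lit 30) (.e (nat_lit 573481) (nat_lit 13) (.e (nat_lit 65619) (nat_lit 10) (.e (nat_lit 344117) (nat_lit 21) (.e (nat_lit 516143) (nat_lit 9) (.e (nat_lit 426109) (nat_lit 1) (.e (nat_lit 164346) (nat_lit 240) .nil)))))))) (.g (nat_lit 1) (.e (nat_lit 17644) (nat_lit 0) .nil) .nil))) 
(.lf (nat_lit 451400) (.g (nat_lit 2658) (.e (nat_lit 2610) (nat_lit 163) (.e (nat_lit 163978) (nat_lit 30) (.e (nat_lit 573484) (nat_lit 13) (.e (nat_lit 65610) (nat_lit 10) (.e (nat_lit 344117) (nat_lit 21) (.e (nat_lit 516151) (nat_lit 9) (.e (nat_lit 426041) (nat_lit 0) (.e (nat_lit 2458) (nat_lit 157) (.e (nat_lit 5547) (nat_lit 306) .nil))))))))) (.g (nat_lit 1) (.e (nat_lit 19626) (nat_lit 0) .nil) .nil))))) 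
(.nd (nat_lit 8) (.nd (nat_lit 9) 
(.lf (nat_lit 450760) (.g (nat_lit 3269) (.e (nat_lit 2597) (nat_lit 162) (.e (nat_lit 49189) (nat_lit 11) (.e (nat_lit 16425) (nat_lit 7) (.e (nat_lit 409648) (nat_lit 18) (.e (nat_lit 303137) (nat_lit 10) (.e (nat_lit 434272) (nat_lit 38) (.e (nat_lit 663296) (nat_lit 14) .nil))))))) (.g (nat_lit 1) (.e (nat_lit 17002) (nat_lit 0) .nil) .nil))) 
(.lf (nat_lit 451272) (.g (nat_lit 4437) (.e (nat_lit 2610) (nat_lit 163) (.e (nat_lit 163977) (nat_lit 30) (.e (nat_lit 573493) (nat_lit 15) (.e (nat_lit 81953) (nat_lit 22) (.e (nat_lit 90171) (nat_lit 14) (.e (nat_lit 180228) (nat_lit 0) (.e (nat_lit 5548) (nat_lit 306) .nil))))))) (.g (nat_lit 1) (.e (nat_lit 19474) (nat_lit 0) .nil) .nil)))) (.nd (nat_lit 9) 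
(.lf (nat_lit 451016) (.g (nat_lit 1821) (.e (nat_lit 2603) (nat_lit 163) (.e (nat_lit 164398) (nat_lit 256) (.e (nat_lit 57373) (nat_lit 2) (.e (nat_lit 90174) (nat_lit 14) (.e (nat_lit 180243) (nat_lit 5) (.e (nat_lit 532515) (nat_lit 3) (.e (nat_lit 114716) (nat_lit 22) (.e (nat_lit 90127) (nat_lit 9) .nil)))))))) (.g (nat_lit 1) (.e (nat_lit 18501) (nat_lit 0) .nil) .nil))) 
(.lf (nat_lit 451528) (.g (nat_lit 2720) (.e (nat_lit 2610) (nat_lit 163) (.e (nat_lit 163979) (nat_lit 30) (.e (nat_lit 573481) (nat_lit 13) (.e (nat_lit 65604) (nat_lit 9) (.e (nat_lit 336013) (nat_lit 2) (.e (nat_lit 90170) (nat_lit 13) (.e (nat_lit 172059) (nat_lit 1) (.e (nat_lit 164348) (nat_lit 240) .nil)))))))) (.g (nat_lit 1) (.e (nat_lit 20119) (nat_lit 0) .nil) .nil))))))) 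
(.nd (nat_lit 6) (.nd (nat_lit 7) (.nd (nat_lit 8) (.nd (nat_lit 9) 
(.lf (nat_lit 450600) (.g (nat_lit 2373) (.e (nat_lit 2570) (nat_lit 160) (.e (nat_lit 32807) (nat_lit 18) (.e (nat_lit 172118) (nat_lit 12) (.e (nat_lit 475185) (nat_lit 29) (.e (nat_lit 557105) (nat_lit 14) (.e (nat_lit 180288) (nat_lit 45) .nil)))))) (.g (nat_lit 1) (.e (nat_lit 16601) (nat_lit 0) .nil) .nil))) 
(.lf (nat_lit 451112) (.g (nat_lit 2372) (.e (nat_lit 2610) (nat_lit 163) (.e (nat_lit 163977) (nat_lit 30) (.e (nat_lit 573482) (nat_lit 13) (.e (nat_lit 65604) (nat_lit 9) (.e (nat_lit 336028) (nat_lit 3) (.e (nat_lit 98359) (nat_lit 26) (.e (nat_lit 426097) (nat_lit 1) (.e (nat_lit 164346) (nat_lit 240) .nil)))))))) (.g (nat_lit 1) (.e (nat_lit 19282) (nat_lit 0) .nil) .nil)))) 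
(.nd (nat_lit 9) 
(.lf (nat_lit 450856) (.g (nat_lit 3835) (.e (nat_lit 2599) (nat_lit 163) (.e (nat_lit 163979) (nat_lit 30) (.e (nat_lit 573482) (nat_lit 13) (.e (nat_lit 65604) (nat_lit 9) (.e (nat_lit 336028) (nat_lit 3) (.e (nat_lit 98359) (nat_lit 26) (.e (nat_lit 426097) (nat_lit 1) (.e (nat_lit 164346) (nat_lit 240) .nil)))))))) (.g (nat_lit 1) (.e (nat_lit 17396) (nat_lit 0) .nil) .nil))) 
(.lf (nat_lit 451368) (.g (nat_lit 3998) (.e (nat_lit 2610) (nat_lit 163) (.e (nat_lit 163978) (nat_lit 30) (.e (nat_lit 573479) (nat_lit 13) (.e (nat_lit 65619) (nat_lit 10) (.e (nat_lit 344117) (nat_lit 21) (.e (nat_lit 516151) (nat_lit 9) (.e (nat_lit 426097) (nat_lit 1) (.e (nat_lit 164346) (nat_lit 240) .nil)))))))) (.g (nat_lit 1) (.e (nat_lit 19594) (nat_lit 0) .nil) .nil))))) 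
(.nd (nat_lit 8) (.nd (nat_lit 9) 
(.lf (nat_lit 450728) (.g (nat_lit 3156) (.e (nat_lit 2591) (nat_lit 162) (.e (nat_lit 49189) (nat_lit 11) (.e (nat_lit 16425) (nat_lit 7) (.e (nat_lit 409648) (nat_lit 18) (.e (nat_lit 303142) (nat_lit 12) (.e (nat_lit 475199) (nat_lit 40) (.e (nat_lit 704790) (nat_lit 14) .nil))))))) (.g (nat_lit 1) (.e (nat_lit 16965) (nat_lit 0) .nil) .nil))) 
(.lf (nat_lit 451240) (.g (nat_lit 2492) (.e (nat_lit 2610) (nat_lit 163) (.e (nat_lit 163977) (nat_lit 30) (.e (nat_lit 573492) (nat_lit 15) (.e (nat_lit 81956) (nat_lit 23) (.e (nat_lit 98355) (nat_lit 26) .nil))))) (.g (nat_lit 0) (.e (nat_lit 19432) (nat_lit 0) .nil) .nil)))) (.nd (nat_lit 9) 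
(.lf (nat_lit 450984) (.g (nat_lit 4197) (.e (nat_lit 2601) (nat_lit 163) (.e (nat_lit 163979) (nat_lit 30) (.e (nat_lit 573482) (nat_lit 13) (.e (nat_lit 65604) (nat_lit 9) (.e (nat_lit 336028) (nat_lit 3) (.e (nat_lit 98367) (nat_lit 27) (.e (nat_lit 434209) (nat_lit 18) (.e (nat_lit 5547) (nat_lit 306) .nil)))))))) (.g (nat_lit 1) (.e (nat_lit 18203) (nat_lit 0) .nil) .nil))) 
(.lf (nat_lit 451496) (.g (nat_lit 4207) (.e (nat_lit 2610) (nat_lit 163) (.e (nat_lit 163978) (nat_lit 30) (.e (nat_lit 573485) (nat_lit 13) (.e (nat_lit 65619) (nat_lit 10) (.e (nat_lit 344117) (nat_lit 21) (.e (nat_lit 516169) (nat_lit 13) (.e (nat_lit 458774) (nat_lit 18) (.e (nat_lit 5547) (nat_lit 306) .nil)))))))) (.g (nat_lit 1) (.e (nat_lit 19735) (nat_lit 0) .nil) .nil)))))) 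
(.nd (nat_lit 7) (.nd (nat_lit 8) (.nd (nat_lit 9) 
(.lf (nat_lit 450664) (.g (nat_lit 3118) (.e (nat_lit 2571) (nat_lit 160) (.e (nat_lit 32807) (nat_lit 18) (.e (nat_lit 172124) (nat_lit 14) (.e (nat_lit 491540) (nat_lit 3) (.e (nat_lit 98367) (nat_lit 27) (.e (nat_lit 434192) (nat_lit 13) .nil)))))) (.g (nat_lit 1) (.e (nat_lit 16860) (nat_lit 0) .nil) .nil))) 
(.lf (nat_lit 451176) (.g (nat_lit 3038) (.e (nat_lit 2610) (nat_lit 163) (.e (nat_lit 163977) (nat_lit 30) (.e (nat_lit 573485) (nat_lit 13) (.e (nat_lit 65604) (nat_lit 9) (.e (nat_lit 336028) (nat_lit 3) (.e (nat_lit 98359) (nat_lit 26) (.e (nat_lit 426104) (nat_lit 1) (.e (nat_lit 164345) (nat_lit 240) .nil)))))))) (.g (nat_lit 1) (.e (nat_lit 19347) (nat_lit 0) .nil) .nil)))) 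
(.nd (nat_lit 9) 
(.lf (nat_lit 450920) (.g (nat_lit 3893) (.e (nat_lit 2601) (nat_lit 163) (.e (nat_lit 163975) (nat_lit 30) (.e (nat_lit 573481) (nat_lit 13) (.e (nat_lit 65604) (nat_lit 9) (.e (nat_lit 336013) (nat_lit 2) (.e (nat_lit 90170) (nat_lit 13) (.e (nat_lit 172059) (nat_lit 1) (.e (nat_lit 164347) (nat_lit 240) .nil)))))))) (.g (nat_lit 1) (.e (nat_lit 17863) (nat_lit 0) .nil) .nil))) 
(.lf (nat_lit 451432) (.g (nat_lit 2332) (.e (nat_lit 2610) (nat_lit 163) (.e (nat_lit 163978) (nat_lit 30) (.e (nat_lit 573485) (nat_lit 13) (.e (nat_lit 65604) (nat_lit 9) (.e (nat_lit 336013) (nat_lit 2) (.e (nat_lit 90170) (nat_lit 13) (.e (nat_lit 172032) (nat_lit 0) (.e (nat_lit 2458) (nat_lit 157) (.e (nat_lit 5547) (nat_lit 306) .nil))))))))) (.g (nat_lit 1) (.e (nat_lit 19664) (nat_lit 0) .nil) .nil))))) 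
(.nd (nat_lit 8) (.nd (nat_lit 9) 
(.lf (nat_lit 450792) (.g (nat_lit 1887) (.e (nat_lit 2598) (nat_lit 163) (.e (nat_lit 163978) (nat_lit 30) (.e (nat_lit 573479) (nat_lit 13) (.e (nat_lit 65619) (nat_lit 10) .nil)))) (.g (nat_lit 0) (.e (nat_lit 17039) (nat_lit 0) .nil) .nil))) 
(.lf (nat_lit 451304) (.g (nat_lit 3246) (.e (nat_lit 2610) (nat_lit 163) (.e (nat_lit 163977) (nat_lit 30) (.e (nat_lit 573493) (nat_lit 15) (.e (nat_lit 81956) (nat_lit 23) (.e (nat_lit 98359) (nat_lit 26) (.e (nat_lit 426097) (nat_lit 1) (.e (nat_lit 164345) (nat_lit 240) .nil))))))) (.g (nat_lit 1) (.e (nat_lit 19514) (nat_lit 0) .nil) .nil)))) (.nd (nat_lit 9) 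
(.lf (nat_lit 451048) (.g (nat_lit 5377) (.e (nat_lit 2606) (nat_lit 163) (.e (nat_lit 163978) (nat_lit 30) (.e (nat_lit 573489) (nat_lit 14) (.e (nat_lit 73755) (nat_lit 8) (.e (nat_lit 557104) (nat_lit 14) (.e (nat_lit 180244) (nat_lit 5) (.e (nat_lit 532499) (nat_lit 1) (.e (nat_lit 57657) (nat_lit 152) .nil)))))))) (.g (nat_lit 1) (.e (nat_lit 18688) (nat_lit 0) .nil) .nil))) 
(.lf (nat_lit 451560) (.g (nat_lit 2202) (.e (nat_lit 2610) (nat_lit 163) (.e (nat_lit 163979) (nat_lit 30) (.e (nat_lit 573482) (nat_lit 13) (.e (nat_lit 65604) (nat_lit 9) (.e (nat_lit 336028) (nat_lit 3) (.e (nat_lit 98359) (nat_lit 26) (.e (nat_lit 426104) (nat_lit 1) (.e (nat_lit 164346) (nat_lit 240) .nil)))))))) (.g (nat_lit 1) (.e (nat_lit 20153) (nat_lit 0) .nil) .nil)))))))) 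
(.nd (nat_lit 5) (.nd (nat_lit 6) (.nd (nat_lit 7) (.nd (nat_lit 8) (.nd (nat_lit 9) 
(.lf (nat_lit 450584) (.g (nat_lit 3104) (.e (nat_lit 2569) (nat_lit 160) (.e (nat_lit 32808) (nat_lit 19) (.e (nat_lit 180277) (nat_lit 32) (.e (nat_lit 1234) (nat_lit 91) (.e (nat_lit 90172) (nat_lit 14) (.e (nat_lit 180285) (nat_lit 45) .nil)))))) (.g (nat_lit 1) (.e (nat_lit 16496) (nat_lit 0) .nil) .nil))) 
(.lf (nat_lit 451096) (.g (nat_lit 3547) (.e (nat_lit 2609) (nat_lit 163) (.e (nat_lit 164403) (nat_lit 256) (.e (nat_lit 57371) (nat_lit 2) (.e (nat_lit 90174) (nat_lit 14) (.e (nat_lit 180243) (nat_lit 5) (.e (nat_lit 532515) (nat_lit 3) (.e (nat_lit 114716) (nat_lit 22) (.e (nat_lit 90137) (nat_lit 9) .nil)))))))) (.g (nat_lit 1) (.e (nat_lit 19249) (nat_lit 0) .nil) .nil)))) (.nd (nat_lit 9) 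
(.lf (nat_lit 450840) (.g (nat_lit 4624) (.e (nat_lit 2599) (nat_lit 163) (.e (nat_lit 163978) (nat_lit 30) (.e (nat_lit 573485) (nat_lit 13) (.e (nat_lit 65619) (nat_lit 10) (.e (nat_lit 344117) (nat_lit 21) (.e (nat_lit 516151) (nat_lit 9) (.e (nat_lit 426042) (nat_lit 0) (.e (nat_lit 2458) (nat_lit 157) (.e (nat_lit 5546) (nat_lit 306) .nil))))))))) (.g (nat_lit 1) (.e (nat_lit 17350) (nat_lit 0) .nil) .nil))) 
(.lf (nat_lit 451352) (.g (nat_lit 2984) (.e (nat_lit 2610) (nat_lit 163) (.e (nat_lit 163978) (nat_lit 30) (.e (nat_lit 573479) (nat_lit 13) (.e (nat_lit 65604) (nat_lit 9) (.e (nat_lit 336028) (nat_lit 3) (.e (nat_lit 98359) (nat_lit 26) (.e (nat_lit 426104) (nat_lit 1) (.e (nat_lit 164345) (nat_lit 240) .nil)))))))) (.g (nat_lit 1) (.e (nat_lit 19578) (nat_lit 0) .nil) .nil))))) 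
(.nd (nat_lit 8) (.nd (nat_lit 9) 
(.lf (nat_lit 450712) (.g (nat_lit 3617) (.e (nat_lit 2591) (nat_lit 162) (.e (nat_lit 49189) (nat_lit 11) (.e (nat_lit 16425) (nat_lit 7) (.e (nat_lit 409643) (nat_lit 18) (.e (nat_lit 303143) (nat_lit 12) (.e (nat_lit 475198) (nat_lit 40) (.e (nat_lit 704790) (nat_lit 14) .nil))))))) (.g (nat_lit 1) (.e (nat_lit 16949) (nat_lit 0) .nil) .nil))) 
(.lf (nat_lit 451224) (.g (nat_lit 2755) (.e (nat_lit 2610) (nat_lit 163) (.e (nat_lit 163977) (nat_lit 30) (.e (nat_lit 573491) (nat_lit 15) (.e (nat_lit 81954) (nat_lit 23) (.e (nat_lit 98359) (nat_lit 26) (.e (nat_lit 426104) (nat_lit 1) (.e (nat_lit 164345) (nat_lit 240) .nil))))))) (.g (nat_lit 1) (.e (nat_lit 19400) (nat_lit 0) .nil) .nil)))) (.nd (nat_lit 9) 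
(.lf (nat_lit 450968) (.g (nat_lit 4286) (.e (nat_lit 2601) (nat_lit 163) (.e (nat_lit 163978) (nat_lit 30) (.e (nat_lit 573485) (nat_lit 13) (.e (nat_lit 65619) (nat_lit 10) (.e (nat_lit 344117) (nat_lit 21) (.e (nat_lit 516160) (nat_lit 10) (.e (nat_lit 434209) (nat_lit 18) (.e (nat_lit 5548) (nat_lit 306) .nil)))))))) (.g (nat_lit 1) (.e (nat_lit 18170) (nat_lit 0) .nil) .nil))) 
(.lf (nat_lit 451480) (.g (nat_lit 2379) (.e (nat_lit 2610) (nat_lit 163) (.e (nat_lit 163978) (nat_lit 30) (.e (nat_lit 573485) (nat_lit 13) (.e (nat_lit 65619) (nat_lit 10) (.e (nat_lit 344117) (nat_lit 21) (.e (nat_lit 516151) (nat_lit 9) (.e (nat_lit 433920) (nat_lit 1) (.e (nat_lit 164348) (nat_lit 240) .nil)))))))) (.g (nat_lit 1) (.e (nat_lit 19719) (nat_lit 0) .nil) .nil)))))) 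
(.nd (nat_lit 7) (.nd (nat_lit 8) (.nd (nat_lit 9) 
(.lf (nat_lit 450648) (.g (nat_lit 3259) (.e (nat_lit 2571) (nat_lit 160) (.e (nat_lit 32807) (nat_lit 18) (.e (nat_lit 172120) (nat_lit 12) (.e (nat_lit 475184) (nat_lit 29) (.e (nat_lit 557103) (nat_lit 14) (.e (nat_lit 180285) (nat_lit 45) .nil)))))) (.g (nat_lit 1) (.e (nat_lit 16831) (nat_lit 0) .nil) .nil))) 
(.lf (nat_lit 451160) (.g (nat_lit 3482) (.e (nat_lit 2610) (nat_lit 163) (.e (nat_lit 163977) (nat_lit 30) (.e (nat_lit 573484) (nat_lit 13) (.e (nat_lit 65610) (nat_lit 10) (.e (nat_lit 344117) (nat_lit 21) (.e (nat_lit 516170) (nat_lit 13) (.e (nat_lit 458774) (nat_lit 18) (.e (nat_lit 5548) (nat_lit 306) .nil)))))))) (.g (nat_lit 1) (.e (nat_lit 19330) (nat_lit 0) .nil) .nil)))) 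
(.nd (nat_lit 9) 
(.lf (nat_lit 450904) (.g (nat_lit 3689) (.e (nat_lit 2600) (nat_lit 163) (.e (nat_lit 163977) (nat_lit 30) (.e (nat_lit 573485) (nat_lit 13) (.e (nat_lit 65619) (nat_lit 10) (.e (nat_lit 344117) (nat_lit 21) (.e (nat_lit 516143) (nat_lit 9) (.e (nat_lit 426109) (nat_lit 1) (.e (nat_lit 164346) (nat_lit 240) .nil)))))))) (.g (nat_lit 1) (.e (nat_lit 17723) (nat_lit 0) .nil) .nil))) 
(.lf (nat_lit 451416) (.g (nat_lit 4591) (.e (nat_lit 2610) (nat_lit 163) (.e (nat_lit 163978) (nat_lit 30) (.e (nat_lit 573484) (nat_lit 13) (.e (nat_lit 65610) (nat_lit 10) (.e (nat_lit 344117) (nat_lit 21) (.e (nat_lit 516159) (nat_lit 10) (.e (nat_lit 434209) (nat_lit 18) (.e (nat_lit 5546) (nat_lit 306) .nil)))))))) (.g (nat_lit 1) (.e (nat_lit 19642) (nat_lit 0) .nil) .nil))))) 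
(.nd (nat_lit 8) (.nd (nat_lit 9) 
(.lf (nat_lit 450776) (.g (nat_lit 2011) (.e (nat_lit 2578) (nat_lit 161) (.e (nat_lit 40993) (nat_lit 11) (.e (nat_lit 24657) (nat_lit 13) (.e (nat_lit 393260) (nat_lit 21) (.e (nat_lit 409616) (nat_lit 10) .nil))))) (.g (nat_lit 0) (.e (nat_lit 17019) (nat_lit 0) .nil) .nil))) 
(.lf (nat_lit 451288) (.g (nat_lit 3809) (.e (nat_lit 2610) (nat_lit 163) (.e (nat_lit 163977) (nat_lit 30) (.e (nat_lit 573493) (nat_lit 15) (.e (nat_lit 81954) (nat_lit 23) (.e (nat_lit 98365) (nat_lit 26) .nil))))) (.g (nat_lit 0) (.e (nat_lit 19490) (nat_lit 0) .nil) .nil)))) (.nd (nat_lit 9) 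
(.lf (nat_lit 451032) (.g (nat_lit 2231) (.e (nat_lit 2606) (nat_lit 163) (.e (nat_lit 163978) (nat_lit 30) (.e (nat_lit 573487) (nat_lit 14) (.e (nat_lit 73753) (nat_lit 8) (.e (nat_lit 557103) (nat_lit 14) (.e (nat_lit 180244) (nat_lit 5) (.e (nat_lit 532499) (nat_lit 1) (.e (nat_lit 57657) (nat_lit 152) .nil)))))))) (.g (nat_lit 1) (.e (nat_lit 18672) (nat_lit 0) .nil) .nil))) 
(.lf (nat_lit 451544) (.g (nat_lit 4972) (.e (nat_lit 2610) (nat_lit 163) (.e (nat_lit 163979) (nat_lit 30) (.e (nat_lit 573482) (nat_lit 13) (.e (nat_lit 65604) (nat_lit 9) (.e (nat_lit 336013) (nat_lit 2) (.e (nat_lit 90170) (nat_lit 13) (.e (nat_lit 172059) (nat_lit 1) (.e (nat_lit 164345) (nat_lit 240) .nil)))))))) (.g (nat_lit 1) (.e (nat_lit 20136) (nat_lit 0) .nil) .nil))))))) 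
(.nd (nat_lit 6) (.nd (nat_lit 7) (.nd (nat_lit 8) (.nd (nat_lit 9) 
(.lf (nat_lit 450616) (.g (nat_lit 2955) (.e (nat_lit 2570) (nat_lit 160) (.e (nat_lit 32807) (nat_lit 18) (.e (nat_lit 172126) (nat_lit 14) (.e (nat_lit 491535) (nat_lit 2) (.e (nat_lit 90172) (nat_lit 14) (.e (nat_lit 180285) (nat_lit 45) .nil)))))) (.g (nat_lit 1) (.e (nat_lit 16642) (nat_lit 0) .nil) .nil))) 
(.lf (nat_lit 451128) (.g (nat_lit 2775) (.e (nat_lit 2610) (nat_lit 163) (.e (nat_lit 163977) (nat_lit 30) (.e (nat_lit 573482) (nat_lit 13) (.e (nat_lit 65619) (nat_lit 10) (.e (nat_lit 344117) (nat_lit 21) (.e (nat_lit 516151) (nat_lit 9) (.e (nat_lit 426097) (nat_lit 1) (.e (nat_lit 164346) (nat_lit 240) .nil)))))))) (.g (nat_lit 1) (.e (nat_lit 19298) (nat_lit 0) .nil) .nil)))) 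
(.nd (nat_lit 9) 
(.lf (nat_lit 450872) (.g (nat_lit 4740) (.e (nat_lit 2599) (nat_lit 163) (.e (nat_lit 163979) (nat_lit 30) (.e (nat_lit 573482) (nat_lit 13) (.e (nat_lit 65619) (nat_lit 10) (.e (nat_lit 344117) (nat_lit 21) (.e (nat_lit 516159) (nat_lit 10) (.e (nat_lit 434209) (nat_lit 18) (.e (nat_lit 5548) (nat_lit 306) .nil)))))))) (.g (nat_lit 1) (.e (nat_lit 17412) (nat_lit 0) .nil) .nil))) 
(.lf (nat_lit 451384) (.g (nat_lit 2752) (.e (nat_lit 2610) (nat_lit 163) (.e (nat_lit 163978) (nat_lit 30) (.e (nat_lit 573479) (nat_lit 13) (.e (nat_lit 65619) (nat_lit 10) (.e (nat_lit 344117) (nat_lit 21) (.e (nat_lit 516161) (nat_lit 10) (.e (nat_lit 434209) (nat_lit 18) (.e (nat_lit 5547) (nat_lit 306) .nil)))))))) (.g (nat_lit 1) (.e (nat_lit 19610) (nat_lit 0) .nil) .nil))))) 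
(.nd (nat_lit 8) (.nd (nat_lit 9) 
(.lf (nat_lit 450744) (.g (nat_lit 3197) (.e (nat_lit 2592) (nat_lit 162) (.e (nat_lit 49189) (nat_lit 11) (.e (nat_lit 16425) (nat_lit 7) (.e (nat_lit 409648) (nat_lit 18) (.e (nat_lit 303137) (nat_lit 10) (.e (nat_lit 434271) (nat_lit 38) (.e (nat_lit 663296) (nat_lit 14) .nil))))))) (.g (nat_lit 1) (.e (nat_lit 16984) (nat_lit 0) .nil) .nil))) 
(.lf (nat_lit 451256) (.g (nat_lit 3569) (.e (nat_lit 2610) (nat_lit 163) (.e (nat_lit 163977) (nat_lit 30) (.e (nat_lit 573493) (nat_lit 15) (.e (nat_lit 81951) (nat_lit 22) (.e (nat_lit 90170) (nat_lit 13) (.e (nat_lit 172061) (nat_lit 1) (.e (nat_lit 164345) (nat_lit 240) .nil))))))) (.g (nat_lit 1) (.e (nat_lit 19451) (nat_lit 0) .nil) .nil)))) (.nd (nat_lit 9) 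
(.lf (nat_lit 451000) (.g (nat_lit 4405) (.e (nat_lit 2602) (nat_lit 163) (.e (nat_lit 163978) (nat_lit 30) (.e (nat_lit 573485) (nat_lit 13) (.e (nat_lit 65604) (nat_lit 9) (.e (nat_lit 336013) (nat_lit 2) (.e (nat_lit 90170) (nat_lit 13) (.e (nat_lit 172070) (nat_lit 4) (.e (nat_lit 229664) (nat_lit 240) .nil)))))))) (.g (nat_lit 1) (.e (nat_lit 18351) (nat_lit 0) .nil) .nil))) 
(.lf (nat_lit 451512) (.g (nat_lit 3890) (.e (nat_lit 2610) (nat_lit 163) (.e (nat_lit 163978) (nat_lit 30) (.e (nat_lit 573490) (nat_lit 15) (.e (nat_lit 81956) (nat_lit 23) (.e (nat_lit 98363) (nat_lit 26) .nil))))) (.g (nat_lit 0) (.e (nat_lit 20038) (nat_lit 0) .nil) .nil)))))) (.nd (nat_lit 7) (.nd (nat_lit 8) (.nd (nat_lit 9) 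
(.lf (nat_lit 450680) (.g (nat_lit 2084) (.e (nat_lit 2571) (nat_lit 160) (.e (nat_lit 32808) (nat_lit 19) (.e (nat_lit 180278) (nat_lit 32) (.e (nat_lit 1253) (nat_lit 92) (.e (nat_lit 98367) (nat_lit 27) (.e (nat_lit 434193) (nat_lit 13) .nil)))))) (.g (nat_lit 1) (.e (nat_lit 16894) (nat_lit 0) .nil) .nil))) 
(.lf (nat_lit 451192) (.g (nat_lit 2528) (.e (nat_lit 2610) (nat_lit 163) (.e (nat_lit 163977) (nat_lit 30) (.e (nat_lit 573485) (nat_lit 13) (.e (nat_lit 65619) (nat_lit 10) (.e (nat_lit 344117) (nat_lit 21) (.e (nat_lit 516159) (nat_lit 10) (.e (nat_lit 434209) (nat_lit 18) (.e (nat_lit 5546) (nat_lit 306) .nil)))))))) (.g (nat_lit 1) (.e (nat_lit 19363) (nat_lit 0) .nil) .nil)))) 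
(.nd (nat_lit 9) 
(.lf (nat_lit 450936) (.g (nat_lit 4471) (.e (nat_lit 2601) (nat_lit 163) (.e (nat_lit 163976) (nat_lit 30) (.e (nat_lit 573481) (nat_lit 13) (.e (nat_lit 65619) (nat_lit 10) (.e (nat_lit 344117) (nat_lit 21) (.e (nat_lit 516160) (nat_lit 10) (.e (nat_lit 434209) (nat_lit 18) (.e (nat_lit 5548) (nat_lit 306) .nil)))))))) (.g (nat_lit 1) (.e (nat_lit 17965) (nat_lit 0) .nil) .nil))) 
(.lf (nat_lit 451448) (.g (nat_lit 3516) (.e (nat_lit 2610) (nat_lit 163) (.e (nat_lit 163978) (nat_lit 30) (.e (nat_lit 573485) (nat_lit 13) (.e (nat_lit 65604) (nat_lit 9) (.e (nat_lit 336028) (nat_lit 3) (.e (nat_lit 98359) (nat_lit 26) (.e (nat_lit 426104) (nat_lit 1) (.e (nat_lit 164347) (nat_lit 240) .nil)))))))) (.g (nat_lit 1) (.e (nat_lit 19685) (nat_lit 0) .nil) .nil))))) 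
(.nd (nat_lit 8) (.nd (nat_lit 9) 
(.lf (nat_lit 450808) (.g (nat_lit 3699) (.e (nat_lit 2599) (nat_lit 163) (.e (nat_lit 163976) (nat_lit 30) (.e (nat_lit 573481) (nat_lit 13) (.e (nat_lit 65604) (nat_lit 9) (.e (nat_lit 336013) (nat_lit 2) (.e (nat_lit 90170) (nat_lit 13) (.e (nat_lit 172061) (nat_lit 1) (.e (nat_lit 164348) (nat_lit 240) .nil)))))))) (.g (nat_lit 1) (.e (nat_lit 17236) (nat_lit 0) .nil) .nil))) 
(.lf (nat_lit 451320) (.g (nat_lit 3604) (.e (nat_lit 2610) (nat_lit 163) (.e (nat_lit 163977) (nat_lit 30) (.e (nat_lit 573493) (nat_lit 15) (.e (nat_lit 81956) (nat_lit 23) (.e (nat_lit 106240) (nat_lit 26) .nil))))) (.g (nat_lit 0) (.e (nat_lit 19530) (nat_lit 0) .nil) .nil)))) (.nd (nat_lit 9) 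
(.lf (nat_lit 451064) (.g (nat_lit 2839) (.e (nat_lit 2606) (nat_lit 163) (.e (nat_lit 163979) (nat_lit 30) (.e (nat_lit 573489) (nat_lit 14) (.e (nat_lit 73755) (nat_lit 8) (.e (nat_lit 557104) (nat_lit 14) (.e (nat_lit 180244) (nat_lit 5) (.e (nat_lit 532503) (nat_lit 1) (.e (nat_lit 57657) (nat_lit 152) .nil)))))))) (.g (nat_lit 1) (.e (nat_lit 18710) (nat_lit 0) .nil) .nil))) 
(.lf (nat_lit 451576) (.g (nat_lit 2522) (.e (nat_lit 2610) (nat_lit 163) (.e (nat_lit 163979) (nat_lit 30) (.e (nat_lit 573482) (nat_lit 13) (.e (nat_lit 65604) (nat_lit 9) (.e (nat_lit 336028) (nat_lit 3) (.e (nat_lit 98367) (nat_lit 27) (.e (nat_lit 434211) (nat_lit 18) (.e (nat_lit 5548) (nat_lit 306) .nil)))))))) (.g (nat_lit 1) (.e (nat_lit 20169) (nat_lit 0) .nil) .nil)))))))))) 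
(.nd (nat_lit 3) (.nd (nat_lit 4) (.nd (nat_lit 5) (.nd (nat_lit 6) (.nd (nat_lit 7) 
(.nd (nat_lit 8) (.nd (nat_lit 9) 
(.lf (nat_lit 450564) (.g (nat_lit 3122) (.e (nat_lit 2569) (nat_lit 160) (.e (nat_lit 32807) (nat_lit 18) (.e (nat_lit 172118) (nat_lit 12) (.e (nat_lit 475183) (nat_lit 29) (.e (nat_lit 557103) (nat_lit 14) (.e (nat_lit 180285) (nat_lit 45) .nil)))))) (.g (nat_lit 1) (.e (nat_lit 16466) (nat_lit 0) .nil) .nil))) 
(.lf (nat_lit 451076) (.g (nat_lit 2197) (.e (nat_lit 2607) (nat_lit 163) (.e (nat_lit 163979) (nat_lit 30) (.e (nat_lit 573482) (nat_lit 13) (.e (nat_lit 65604) (nat_lit 9) (.e (nat_lit 336013) (nat_lit 2) .nil))))) (.g (nat_lit 0) (.e (nat_lit 18810) (nat_lit 0) .nil) .nil)))) (.nd (nat_lit 9) 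
(.lf (nat_lit 450820) (.g (nat_lit 1895) (.e (nat_lit 2599) (nat_lit 163) (.e (nat_lit 163978) (nat_lit 30) (.e (nat_lit 573479) (nat_lit 13) (.e (nat_lit 65619) (nat_lit 10) .nil)))) (.g (nat_lit 0) (.e (nat_lit 17310) (nat_lit 0) .nil) .nil))) 
(.lf (nat_lit 451332) (.g (nat_lit 3060) (.e (nat_lit 2610) (nat_lit 163) (.e (nat_lit 163977) (nat_lit 30) (.e (nat_lit 573493) (nat_lit 15) (.e (nat_lit 81956) (nat_lit 23) (.e (nat_lit 98368) (nat_lit 27) (.e (nat_lit 434209) (nat_lit 18) (.e (nat_lit 5546) (nat_lit 306) .nil))))))) (.g (nat_lit 1) (.e (nat_lit 19542) (nat_lit 0) .nil) .nil))))) (.nd (nat_lit 8) (.nd (nat_lit 9) 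
(.lf (nat_lit 450692) (.g (nat_lit 3021) (.e (nat_lit 2587) (nat_lit 162) (.e (nat_lit 49189) (nat_lit 11) (.e (nat_lit 16425) (nat_lit 7) (.e (nat_lit 409646) (nat_lit 18) (.e (nat_lit 303143) (nat_lit 12) (.e (nat_lit 475199) (nat_lit 40) (.e (nat_lit 704836) (nat_lit 14) .nil))))))) (.g (nat_lit 1) (.e (nat_lit 16928) (nat_lit 0) .nil) .nil))) 
(.lf (nat_lit 451204) (.g (nat_lit 377) (.e (nat_lit 2610) (nat_lit 163) (.e (nat_lit 163977) (nat_lit 30) (.e (nat_lit 573491) (nat_lit 15) .nil))) (.g (nat_lit 0) (.e (nat_lit 19376) (nat_lit 0) .nil) .nil)))) (.nd (nat_lit 9) 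
(.lf (nat_lit 450948) (.g (nat_lit 4334) (.e (nat_lit 2601) (nat_lit 163) (.e (nat_lit 163977) (nat_lit 30) (.e (nat_lit 573484) (nat_lit 13) (.e (nat_lit 65610) (nat_lit 10) (.e (nat_lit 344117) (nat_lit 21) (.e (nat_lit 516151) (nat_lit 9) (.e (nat_lit 426104) (nat_lit 1) (.e (nat_lit 164345) (nat_lit 240) .nil)))))))) (.g (nat_lit 1) (.e (nat_lit 18015) (nat_lit 0) .nil) .nil))) 
(.lf (nat_lit 451460) (.g (nat_lit 2508) (.e (nat_lit 2610) (nat_lit 163) (.e (nat_lit 163978) (nat_lit 30) (.e (nat_lit 573485) (nat_lit 13) (.e (nat_lit 65604) (nat_lit 9) (.e (nat_lit 336028) (nat_lit 3) (.e (nat_lit 98367) (nat_lit 27) (.e (nat_lit 434211) (nat_lit 18) (.e (nat_lit 5548) (nat_lit 306) .nil)))))))) (.g (nat_lit 1) (.e (nat_lit 19697) (nat_lit 0) .nil) .nil)))))) 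
(.nd (nat_lit 7) (.nd (nat_lit 8) (.nd (nat_lit 9) 
(.lf (nat_lit 450628) (.g (nat_lit 2974) (.e (nat_lit 2570) (nat_lit 160) (.e (nat_lit 32808) (nat_lit 19) (.e (nat_lit 180277) (nat_lit 32) (.e (nat_lit 1234) (nat_lit 91) (.e (nat_lit 90174) (nat_lit 14) (.e (nat_lit 180288) (nat_lit 45) .nil)))))) (.g (nat_lit 1) (.e (nat_lit 16660) (nat_lit 0) .nil) .nil))) 
(.lf (nat_lit 451140) (.g (nat_lit 4325) (.e (nat_lit 2610) (nat_lit 163) (.e (nat_lit 163977) (nat_lit 30) (.e (nat_lit 573482) (nat_lit 13) (.e (nat_lit 65619) (nat_lit 10) (.e (nat_lit 344117) (nat_lit 21) (.e (nat_lit 516170) (nat_lit 13) (.e (nat_lit 458774) (nat_lit 18) (.e (nat_lit 5548) (nat_lit 306) .nil)))))))) (.g (nat_lit 1) (.e (nat_lit 19310) (nat_lit 0) .nil) .nil)))) 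
(.nd (nat_lit 9) 
(.lf (nat_lit 450884) (.g (nat_lit 3823) (.e (nat_lit 2599) (nat_lit 163) (.e (nat_lit 164403) (nat_lit 256) (.e (nat_lit 57373) (nat_lit 2) (.e (nat_lit 90174) (nat_lit 14) (.e (nat_lit 180243) (nat_lit 5) (.e (nat_lit 532515) (nat_lit 3) (.e (nat_lit 114716) (nat_lit 22) (.e (nat_lit 90137) (nat_lit 9) .nil)))))))) (.g (nat_lit 1) (.e (nat_lit 17634) (nat_lit 0) .nil) .nil))) 
(.lf (nat_lit 451396) (.g (nat_lit 3422) (.e (nat_lit 2610) (nat_lit 163) (.e (nat_lit 163978) (nat_lit 30) (.e (nat_lit 573484) (nat_lit 13) (.e (nat_lit 65610) (nat_lit 10) (.e (nat_lit 344117) (nat_lit 21) (.e (nat_lit 516145) (nat_lit 9) (.e (nat_lit 426093) (nat_lit 0) (.e (nat_lit 2458) (nat_lit 157) (.e (nat_lit 5547) (nat_lit 306) .nil))))))))) (.g (nat_lit 1) (.e (nat_lit 19622) (nat_lit 0) .nil) .nil))))) 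
(.nd (nat_lit 8) (.nd (nat_lit 9) 
(.lf (nat_lit 450756) (.g (nat_lit 3134) (.e (nat_lit 2592) (nat_lit 162) (.e (nat_lit 49189) (nat_lit 11) (.e (nat_lit 16425) (nat_lit 7) (.e (nat_lit 409649) (nat_lit 18) (.e (nat_lit 303143) (nat_lit 12) (.e (nat_lit 475199) (nat_lit 40) (.e (nat_lit 704790) (nat_lit 14) .nil))))))) (.g (nat_lit 1) (.e (nat_lit 16996) (nat_lit 0) .nil) .nil))) 
(.lf (nat_lit 451268) (.g (nat_lit 3299) (.e (nat_lit 2610) (nat_lit 163) (.e (nat_lit 163977) (nat_lit 30) (.e (nat_lit 573493) (nat_lit 15) (.e (nat_lit 81953) (nat_lit 22) (.e (nat_lit 90170) (nat_lit 13) (.e (nat_lit 172059) (nat_lit 1) (.e (nat_lit 164347) (nat_lit 240) .nil))))))) (.g (nat_lit 1) (.e (nat_lit 19470) (nat_lit 0) .nil) .nil)))) (.nd (nat_lit 9) 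
(.lf (nat_lit 451012) (.g (nat_lit 3075) (.e (nat_lit 2602) (nat_lit 163) (.e (nat_lit 164403) (nat_lit 256) (.e (nat_lit 57373) (nat_lit 2) (.e (nat_lit 90174) (nat_lit 14) (.e (nat_lit 180251) (nat_lit 10) .nil))))) (.g (nat_lit 0) (.e (nat_lit 18474) (nat_lit 0) .nil) .nil))) 
(.lf (nat_lit 451524) (.g (nat_lit 6017) (.e (nat_lit 2610) (nat_lit 163) (.e (nat_lit 163978) (nat_lit 30) (.e (nat_lit 573493) (nat_lit 15) (.e (nat_lit 81956) (nat_lit 23) (.e (nat_lit 98365) (nat_lit 26) .nil))))) (.g (nat_lit 0) (.e (nat_lit 20086) (nat_lit 0) .nil) .nil))))))) (.nd (nat_lit 6) (.nd (nat_lit 7) (.nd (nat_lit 8) (.nd (nat_lit 9) 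
(.lf (nat_lit 450596) (.g (nat_lit 2338) (.e (nat_lit 2570) (nat_lit 160) (.e (nat_lit 32807) (nat_lit 18) (.e (nat_lit 172118) (nat_lit 12) (.e (nat_lit 475185) (nat_lit 29) (.e (nat_lit 557103) (nat_lit 14) (.e (nat_lit 180287) (nat_lit 45) .nil)))))) (.g (nat_lit 1) (.e (nat_lit 16597) (nat_lit 0) .nil) .nil))) 
(.lf (nat_lit 451108) (.g (nat_lit 3125) (.e (nat_lit 2610) (nat_lit 163) (.e (nat_lit 163977) (nat_lit 30) (.e (nat_lit 573482) (nat_lit 13) (.e (nat_lit 65604) (nat_lit 9) (.e (nat_lit 336028) (nat_lit 3) (.e (nat_lit 98354) (nat_lit 26) (.e (nat_lit 426109) (nat_lit 1) (.e (nat_lit 164345) (nat_lit 240) .nil)))))))) (.g (nat_lit 1) (.e (nat_lit 19278) (nat_lit 0) .nil) .nil)))) 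
(.nd (nat_lit 9) 
(.lf (nat_lit 450852) (.g (nat_lit 4494) (.e (nat_lit 2599) (nat_lit 163) (.e (nat_lit 163979) (nat_lit 30) (.e (nat_lit 573482) (nat_lit 13) (.e (nat_lit 65604) (nat_lit 9) (.e (nat_lit 336013) (nat_lit 2) (.e (nat_lit 90170) (nat_lit 13) (.e (nat_lit 172061) (nat_lit 1) (.e (nat_lit 164348) (nat_lit 240) .nil)))))))) (.g (nat_lit 1) (.e (nat_lit 17389) (nat_lit 0) .nil) .nil))) 
(.lf (nat_lit 451364) (.g (nat_lit 3092) (.e (nat_lit 2610) (nat_lit 163) (.e (nat_lit 163978) (nat_lit 30) (.e (nat_lit 573479) (nat_lit 13) (.e (nat_lit 65619) (nat_lit 10) (.e (nat_lit 344117) (nat_lit 21) (.e (nat_lit 516145) (nat_lit 9) (.e (nat_lit 433920) (nat_lit 1) (.e (nat_lit 164347) (nat_lit 240) .nil)))))))) (.g (nat_lit 1) (.e (nat_lit 19590) (nat_lit 0) .nil) .nil))))) 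
(.nd (nat_lit 8) (.nd (nat_lit 9) 
(.lf (nat_lit 450724) (.g (nat_lit 2007) (.e (nat_lit 2591) (nat_lit 162) (.e (nat_lit 49189) (nat_lit 11) (.e (nat_lit 16425) (nat_lit 7) (.e (nat_lit 409648) (nat_lit 18) (.e (nat_lit 303142) (nat_lit 12) (.e (nat_lit 475197) (nat_lit 40) (.e (nat_lit 704789) (nat_lit 14) .nil))))))) (.g (nat_lit 1) (.e (nat_lit 16961) (nat_lit 0) .nil) .nil))) 
(.lf (nat_lit 451236) (.g (nat_lit 2500) (.e (nat_lit 2610) (nat_lit 163) (.e (nat_lit 163977) (nat_lit 30) (.e (nat_lit 573491) (nat_lit 15) (.e (nat_lit 81956) (nat_lit 23) (.e (nat_lit 98363) (nat_lit 26) .nil))))) (.g (nat_lit 0) (.e (nat_lit 19416) (nat_lit 0) .nil) .nil)))) (.nd (nat_lit 9) 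
(.lf (nat_lit 450980) (.g (nat_lit 2018) (.e (nat_lit 2601) (nat_lit 163) (.e (nat_lit 163979) (nat_lit 30) (.e (nat_lit 573482) (nat_lit 13) (.e (nat_lit 65604) (nat_lit 9) (.e (nat_lit 336028) (nat_lit 3) (.e (nat_lit 98359) (nat_lit 26) (.e (nat_lit 426103) (nat_lit 1) (.e (nat_lit 164348) (nat_lit 240) .nil)))))))) (.g (nat_lit 1) (.e (nat_lit 18199) (nat_lit 0) .nil) .nil))) 
(.lf (nat_lit 451492) (.g (nat_lit 3791) (.e (nat_lit 2610) (nat_lit 163) (.e (nat_lit 163978) (nat_lit 30) (.e (nat_lit 573485) (nat_lit 13) (.e (nat_lit 65619) (nat_lit 10) (.e (nat_lit 344117) (nat_lit 21) (.e (nat_lit 516161) (nat_lit 10) (.e (nat_lit 434209) (nat_lit 18) (.e (nat_lit 5548) (nat_lit 306) .nil)))))))) (.g (nat_lit 1) (.e (nat_lit 19731) (nat_lit 0) .nil) .nil)))))) 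
(.nd (nat_lit 7) (.nd (nat_lit 8) (.nd (nat_lit 9) 
(.lf (nat_lit 450660) (.g (nat_lit 2776) (.e (nat_lit 2571) (nat_lit 160) (.e (nat_lit 32807) (nat_lit 18) (.e (nat_lit 172124) (nat_lit 14) (.e (nat_lit 491537) (nat_lit 2) (.e (nat_lit 90174) (nat_lit 14) (.e (nat_lit 180287) (nat_lit 45) .nil)))))) (.g (nat_lit 1) (.e (nat_lit 16853) (nat_lit 0) .nil) .nil))) 
(.lf (nat_lit 451172) (.g (nat_lit 3017) (.e (nat_lit 2610) (nat_lit 163) (.e (nat_lit 163977) (nat_lit 30) (.e (nat_lit 573485) (nat_lit 13) (.e (nat_lit 65604) (nat_lit 9) (.e (nat_lit 336028) (nat_lit 3) (.e (nat_lit 98359) (nat_lit 26) (.e (nat_lit 426097) (nat_lit 1) (.e (nat_lit 164345) (nat_lit 240) .nil)))))))) (.g (nat_lit 1) (.e (nat_lit 19343) (nat_lit 0) .nil) .nil)))) 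
(.nd (nat_lit 9) 
(.lf (nat_lit 450916) (.g (nat_lit 4442) (.e (nat_lit 2601) (nat_lit 163) (.e (nat_lit 163962) (nat_lit 25) (.e (nat_lit 532544) (nat_lit 10) (.e (nat_lit 344130) (nat_lit 26) (.e (nat_lit 557097) (nat_lit 13) (.e (nat_lit 172133) (nat_lit 15) (.e (nat_lit 1800) (nat_lit 119) (.e (nat_lit 516119) (nat_lit 1) (.e (nat_lit 164345) (nat_lit 240) .nil))))))))) (.g (nat_lit 1) (.e (nat_lit 17846) (nat_lit 0) .nil) .nil))) 
(.lf (nat_lit 451428) (.g (nat_lit 2877) (.e (nat_lit 2610) (nat_lit 163) (.e (nat_lit 163978) (nat_lit 30) (.e (nat_lit 573484) (nat_lit 13) (.e (nat_lit 65617) (nat_lit 10) .nil)))) (.g (nat_lit 0) (.e (nat_lit 19655) (nat_lit 0) .nil) .nil))))) (.nd (nat_lit 8) (.nd (nat_lit 9) 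
(.lf (nat_lit 450788) (.g (nat_lit 1238) (.e (nat_lit 2580) (nat_lit 161) (.e (nat_lit 40965) (nat_lit 0) (.e (nat_lit 1582) (nat_lit 111) (.e (nat_lit 360477) (nat_lit 11) (.e (nat_lit 581652) (nat_lit 5) (.e (nat_lit 180284) (nat_lit 45) .nil)))))) (.g (nat_lit 1) (.e (nat_lit 17031) (nat_lit 0) .nil) .nil))) 
(.lf (nat_lit 451300) (.g (nat_lit 2597) (.e (nat_lit 2610) (nat_lit 163) (.e (nat_lit 163977) (nat_lit 30) (.e (nat_lit 573493) (nat_lit 15) (.e (nat_lit 81956) (nat_lit 23) (.e (nat_lit 98356) (nat_lit 26) .nil))))) (.g (nat_lit 0) (.e (nat_lit 19510) (nat_lit 0) .nil) .nil)))) (.nd (nat_lit 9) 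
(.lf (nat_lit 451044) (.g (nat_lit 3907) (.e (nat_lit 2606) (nat_lit 163) (.e (nat_lit 163978) (nat_lit 30) (.e (nat_lit 573489) (nat_lit 14) (.e (nat_lit 73755) (nat_lit 8) (.e (nat_lit 557103) (nat_lit 14) (.e (nat_lit 180244) (nat_lit 5) (.e (nat_lit 532503) (nat_lit 1) (.e (nat_lit 57651) (nat_lit 152) .nil)))))))) (.g (nat_lit 1) (.e (nat_lit 18684) (nat_lit 0) .nil) .nil))) 
(.lf (nat_lit 451556) (.g (nat_lit 4604) (.e (nat_lit 2610) (nat_lit 163) (.e (nat_lit 163979) (nat_lit 30) (.e (nat_lit 573482) (nat_lit 13) (.e (nat_lit 65604) (nat_lit 9) (.e (nat_lit 336028) (nat_lit 3) (.e (nat_lit 98359) (nat_lit 26) (.e (nat_lit 426097) (nat_lit 1) (.e (nat_lit 164347) (nat_lit 240) .nil)))))))) (.g (nat_lit 1) (.e (nat_lit 20149) (nat_lit 0) .nil) .nil)))))))) 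
(.nd (nat_lit 5) (.nd (nat_lit 6) (.nd (nat_lit 7) (.nd (nat_lit 8) (.nd (nat_lit 9) 
(.lf (nat_lit 450580) (.g (nat_lit 3008) (.e (nat_lit 2569) (nat_lit 160) (.e (nat_lit 32807) (nat_lit 18) (.e (nat_lit 172126) (nat_lit 14) (.e (nat_lit 491535) (nat_lit 2) (.e (nat_lit 90172) (nat_lit 14) (.e (nat_lit 180285) (nat_lit 45) .nil)))))) (.g (nat_lit 1) (.e (nat_lit 16489) (nat_lit 0) .nil) .nil))) 
(.lf (nat_lit 451092) (.g (nat_lit 3314) (.e (nat_lit 2609) (nat_lit 163) (.e (nat_lit 164189) (nat_lit 157) (.e (nat_lit 229399) (nat_lit 12) (.e (nat_lit 426125) (nat_lit 2) (.e (nat_lit 196666) (nat_lit 13) (.e (nat_lit 65610) (nat_lit 10) (.e (nat_lit 344129) (nat_lit 26) (.e (nat_lit 557074) (nat_lit 9) .nil)))))))) (.g (nat_lit 1) (.e (nat_lit 19234) (nat_lit 0) .nil) .nil)))) 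
(.nd (nat_lit 9) 
(.lf (nat_lit 450836) (.g (nat_lit 4922) (.e (nat_lit 2599) (nat_lit 163) (.e (nat_lit 163978) (nat_lit 30) (.e (nat_lit 573485) (nat_lit 13) (.e (nat_lit 65604) (nat_lit 9) (.e (nat_lit 336028) (nat_lit 3) (.e (nat_lit 98367) (nat_lit 27) (.e (nat_lit 434209) (nat_lit 18) (.e (nat_lit 5548) (nat_lit 306) .nil)))))))) (.g (nat_lit 1) (.e (nat_lit 17346) (nat_lit 0) .nil) .nil))) 
(.lf (nat_lit 451348) (.g (nat_lit 3111) (.e (nat_lit 2610) (nat_lit 163) (.e (nat_lit 163978) (nat_lit 30) (.e (nat_lit 573479) (nat_lit 13) (.e (nat_lit 65604) (nat_lit 9) (.e (nat_lit 336028) (nat_lit 3) (.e (nat_lit 98354) (nat_lit 26) (.e (nat_lit 426109) (nat_lit 1) (.e (nat_lit 164347) (nat_lit 240) .nil)))))))) (.g (nat_lit 1) (.e (nat_lit 19574) (nat_lit 0) .nil) .nil))))) 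
(.nd (nat_lit 8) (.nd (nat_lit 9) 
(.lf (nat_lit 450708) (.g (nat_lit 3150) (.e (nat_lit 2591) (nat_lit 162) (.e (nat_lit 49189) (nat_lit 11) (.e (nat_lit 16424) (nat_lit 7) (.e (nat_lit 409645) (nat_lit 18) (.e (nat_lit 303143) (nat_lit 12) (.e (nat_lit 475198) (nat_lit 40) (.e (nat_lit 704790) (nat_lit 14) .nil))))))) (.g (nat_lit 1) (.e (nat_lit 16945) (nat_lit 0) .nil) .nil))) 
(.lf (nat_lit 451220) (.g (nat_lit 3005) (.e (nat_lit 2610) (nat_lit 163) (.e (nat_lit 163977) (nat_lit 30) (.e (nat_lit 573491) (nat_lit 15) (.e (nat_lit 81954) (nat_lit 23) (.e (nat_lit 98356) (nat_lit 26) (.e (nat_lit 433920) (nat_lit 1) (.e (nat_lit 164348) (nat_lit 240) .nil))))))) (.g (nat_lit 1) (.e (nat_lit 19396) (nat_lit 0) .nil) .nil)))) (.nd (nat_lit 9) 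
(.lf (nat_lit 450964) (.g (nat_lit 2326) (.e (nat_lit 2601) (nat_lit 163) (.e (nat_lit 163978) (nat_lit 30) (.e (nat_lit 573485) (nat_lit 13) (.e (nat_lit 65604) (nat_lit 9) (.e (nat_lit 336013) (nat_lit 2) .nil))))) (.g (nat_lit 0) (.e (nat_lit 18164) (nat_lit 0) .nil) .nil))) 
(.lf (nat_lit 451476) (.g (nat_lit 4387) (.e (nat_lit 2610) (nat_lit 163) (.e (nat_lit 163978) (nat_lit 30) (.e (nat_lit 573485) (nat_lit 13) (.e (nat_lit 65619) (nat_lit 10) (.e (nat_lit 344117) (nat_lit 21) (.e (nat_lit 516151) (nat_lit 9) (.e (nat_lit 426097) (nat_lit 1) (.e (nat_lit 164346) (nat_lit 240) .nil)))))))) (.g (nat_lit 1) (.e (nat_lit 19715) (nat_lit 0) .nil) .nil)))))) 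
(.nd (nat_lit 7) (.nd (nat_lit 8) (.nd (nat_lit 9) 
(.lf (nat_lit 450644) (.g (nat_lit 2745) (.e (nat_lit 2571) (nat_lit 160) (.e (nat_lit 32807) (nat_lit 18) (.e (nat_lit 172119) (nat_lit 12) (.e (nat_lit 475184) (nat_lit 29) (.e (nat_lit 557103) (nat_lit 14) (.e (nat_lit 180285) (nat_lit 45) .nil)))))) (.g (nat_lit 1) (.e (nat_lit 16827) (nat_lit 0) .nil) .nil))) 
(.lf (nat_lit 451156) (.g (nat_lit 4938) (.e (nat_lit 2610) (nat_lit 163) (.e (nat_lit 163977) (nat_lit 30) (.e (nat_lit 573484) (nat_lit 13) (.e (nat_lit 65610) (nat_lit 10) (.e (nat_lit 344117) (nat_lit 21) (.e (nat_lit 516160) (nat_lit 10) (.e (nat_lit 434209) (nat_lit 18) (.e (nat_lit 5548) (nat_lit 306) .nil)))))))) (.g (nat_lit 1) (.e (nat_lit 19326) (nat_lit 0) .nil) .nil)))) 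
(.nd (nat_lit 9) 
(.lf (nat_lit 450900) (.g (nat_lit 3875) (.e (nat_lit 2600) (nat_lit 163) (.e (nat_lit 163977) (nat_lit 30) (.e (nat_lit 573482) (nat_lit 13) (.e (nat_lit 65619) (nat_lit 10) (.e (nat_lit 344117) (nat_lit 21) (.e (nat_lit 516151) (nat_lit 9) (.e (nat_lit 426097) (nat_lit 1) (.e (nat_lit 164346) (nat_lit 240) .nil)))))))) (.g (nat_lit 1) (.e (nat_lit 17715) (nat_lit 0) .nil) .nil))) 
(.lf (nat_lit 451412) (.g (nat_lit 2464) (.e (nat_lit 2610) (nat_lit 163) (.e (nat_lit 163978) (nat_lit 30) (.e (nat_lit 573484) (nat_lit 13) (.e (nat_lit 65610) (nat_lit 10) (.e (nat_lit 344117) (nat_lit 21) (.e (nat_lit 516152) (nat_lit 9) (.e (nat_lit 426109) (nat_lit 1) (.e (nat_lit 164345) (nat_lit 240) .nil)))))))) (.g (nat_lit 1) (.e (nat_lit 19638) (nat_lit 0) .nil) .nil))))) 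
(.nd (nat_lit 8) (.nd (nat_lit 9) 
(.lf (nat_lit 450772) (.g (nat_lit 154) (.e (nat_lit 2577) (nat_lit 161) (.e (nat_lit 40965) (nat_lit 0) (.e (nat_lit 1568) (nat_lit 110) .nil))) (.g (nat_lit 0) (.e (nat_lit 17015) (nat_lit 0) .nil) .nil))) 
(.lf (nat_lit 451284) (.g (nat_lit 3647) (.e (nat_lit 2610) (nat_lit 163) (.e (nat_lit 163977) (nat_lit 30) (.e (nat_lit 573493) (nat_lit 15) (.e (nat_lit 81954) (nat_lit 23) (.e (nat_lit 98354) (nat_lit 26) .nil))))) (.g (nat_lit 0) (.e (nat_lit 19486) (nat_lit 0) .nil) .nil)))) (.nd (nat_lit 9) 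
(.lf (nat_lit 451028) (.g (nat_lit 2616) (.e (nat_lit 2605) (nat_lit 163) (.e (nat_lit 163978) (nat_lit 30) (.e (nat_lit 573485) (nat_lit 13) (.e (nat_lit 65619) (nat_lit 10) (.e (nat_lit 344117) (nat_lit 21) .nil))))) (.g (nat_lit 0) (.e (nat_lit 18584) (nat_lit 0) .nil) .nil))) 
(.lf (nat_lit 451540) (.g (nat_lit 2028) (.e (nat_lit 2610) (nat_lit 163) (.e (nat_lit 163979) (nat_lit 30) (.e (nat_lit 573482) (nat_lit 13) (.e (nat_lit 65604) (nat_lit 9) (.e (nat_lit 336013) (nat_lit 2) (.e (nat_lit 90134) (nat_lit 9) (.e (nat_lit 2978) (nat_lit 185) (.e (nat_lit 434209) (nat_lit 18) (.e (nat_lit 5547) (nat_lit 306) .nil))))))))) (.g (nat_lit 1) (.e (nat_lit 20132) (nat_lit 0) .nil) .nil))))))) 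
(.nd (nat_lit 6) (.nd (nat_lit 7) (.nd (nat_lit 8) (.nd (nat_lit 9) 
(.lf (nat_lit 450612) (.g (nat_lit 2787) (.e (nat_lit 2570) (nat_lit 160) (.e (nat_lit 32807) (nat_lit 18) (.e (nat_lit 172124) (nat_lit 14) (.e (nat_lit 491537) (nat_lit 2) (.e (nat_lit 90174) (nat_lit 14) (.e (nat_lit 180287) (nat_lit 45) .nil)))))) (.g (nat_lit 1) (.e (nat_lit 16627) (nat_lit 0) .nil) .nil))) 
(.lf (nat_lit 451124) (.g (nat_lit 3431) (.e (nat_lit 2610) (nat_lit 163) (.e (nat_lit 163977) (nat_lit 30) (.e (nat_lit 573482) (nat_lit 13) (.e (nat_lit 65619) (nat_lit 10) (.e (nat_lit 344117) (nat_lit 21) (.e (nat_lit 516143) (nat_lit 9) (.e (nat_lit 426109) (nat_lit 1) (.e (nat_lit 164345) (nat_lit 240) .nil)))))))) (.g (nat_lit 1) (.e (nat_lit 19294) (nat_lit 0) .nil) .nil)))) 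
(.nd (nat_lit 9) 
(.lf (nat_lit 450868) (.g (nat_lit 4557) (.e (nat_lit 2599) (nat_lit 163) (.e (nat_lit 163979) (nat_lit 30) (.e (nat_lit 573482) (nat_lit 13) (.e (nat_lit 65619) (nat_lit 10) (.e (nat_lit 344117) (nat_lit 21) (.e (nat_lit 516151) (nat_lit 9) (.e (nat_lit 426097) (nat_lit 1) (.e (nat_lit 164348) (nat_lit 240) .nil)))))))) (.g (nat_lit 1) (.e (nat_lit 17408) (nat_lit 0) .nil) .nil))) 
(.lf (nat_lit 451380) (.g (nat_lit 4030) (.e (nat_lit 2610) (nat_lit 163) (.e (nat_lit 163978) (nat_lit 30) (.e (nat_lit 573479) (nat_lit 13) (.e (nat_lit 65619) (nat_lit 10) (.e (nat_lit 344117) (nat_lit 21) (.e (nat_lit 516160) (nat_lit 10) (.e (nat_lit 434209) (nat_lit 18) (.e (nat_lit 5546) (nat_lit 306) .nil)))))))) (.g (nat_lit 1) (.e (nat_lit 19606) (nat_lit 0) .nil) .nil))))) 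
(.nd (nat_lit 8) (.nd (nat_lit 9) 
(.lf (nat_lit 450740) (.g (nat_lit 4232) (.e (nat_lit 2592) (nat_lit 162) (.e (nat_lit 49189) (nat_lit 11) (.e (nat_lit 16425) (nat_lit 7) (.e (nat_lit 409645) (nat_lit 18) (.e (nat_lit 303143) (nat_lit 12) (.e (nat_lit 475198) (nat_lit 40) (.e (nat_lit 704790) (nat_lit 14) .nil))))))) (.g (nat_lit 1) (.e (nat_lit 16980) (nat_lit 0) .nil) .nil))) 
(.lf (nat_lit 451252) (.g (nat_lit 4763) (.e (nat_lit 2610) (nat_lit 163) (.e (nat_lit 163977) (nat_lit 30) (.e (nat_lit 573492) (nat_lit 15) (.e (nat_lit 81956) (nat_lit 23) (.e (nat_lit 98378) (nat_lit 30) (.e (nat_lit 458774) (nat_lit 18) (.e (nat_lit 5548) (nat_lit 306) .nil))))))) (.g (nat_lit 1) (.e (nat_lit 19444) (nat_lit 0) .nil) .nil)))) (.nd (nat_lit 9) 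
(.lf (nat_lit 450996) (.g (nat_lit 4243) (.e (nat_lit 2602) (nat_lit 163) (.e (nat_lit 163978) (nat_lit 30) (.e (nat_lit 573485) (nat_lit 13) (.e (nat_lit 65604) (nat_lit 9) (.e (nat_lit 336013) (nat_lit 2) (.e (nat_lit 90170) (nat_lit 13) (.e (nat_lit 172068) (nat_lit 4) (.e (nat_lit 229664) (nat_lit 240) .nil)))))))) (.g (nat_lit 1) (.e (nat_lit 18347) (nat_lit 0) .nil) .nil))) 
(.lf (nat_lit 451508) (.g (nat_lit 692) (.e (nat_lit 2610) (nat_lit 163) (.e (nat_lit 163978) (nat_lit 30) (.e (nat_lit 573490) (nat_lit 15) .nil))) (.g (nat_lit 0) (.e (nat_lit 20034) (nat_lit 0) .nil) .nil)))))) (.nd (nat_lit 7) (.nd (nat_lit 8) (.nd (nat_lit 9) 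
(.lf (nat_lit 450676) (.g (nat_lit 3117) (.e (nat_lit 2571) (nat_lit 160) (.e (nat_lit 32807) (nat_lit 18) (.e (nat_lit 172126) (nat_lit 14) (.e (nat_lit 491540) (nat_lit 3) (.e (nat_lit 98367) (nat_lit 27) (.e (nat_lit 434193) (nat_lit 13) .nil)))))) (.g (nat_lit 1) (.e (nat_lit 16890) (nat_lit 0) .nil) .nil))) 
(.lf (nat_lit 451188) (.g (nat_lit 2687) (.e (nat_lit 2610) (nat_lit 163) (.e (nat_lit 163977) (nat_lit 30) (.e (nat_lit 573485) (nat_lit 13) (.e (nat_lit 65619) (nat_lit 10) (.e (nat_lit 344117) (nat_lit 21) (.e (nat_lit 516151) (nat_lit 9) (.e (nat_lit 426097) (nat_lit 1) (.e (nat_lit 164346) (nat_lit 240) .nil)))))))) (.g (nat_lit 1) (.e (nat_lit 19359) (nat_lit 0) .nil) .nil)))) 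
(.nd (nat_lit 9) 
(.lf (nat_lit 450932) (.g (nat_lit 4564) (.e (nat_lit 2601) (nat_lit 163) (.e (nat_lit 163975) (nat_lit 30) (.e (nat_lit 573481) (nat_lit 13) (.e (nat_lit 65619) (nat_lit 10) (.e (nat_lit 344117) (nat_lit 21) (.e (nat_lit 516160) (nat_lit 10) (.e (nat_lit 434209) (nat_lit 18) (.e (nat_lit 5547) (nat_lit 306) .nil)))))))) (.g (nat_lit 1) (.e (nat_lit 17881) (nat_lit 0) .nil) .nil))) 
(.lf (nat_lit 451444) (.g (nat_lit 2240) (.e (nat_lit 2610) (nat_lit 163) (.e (nat_lit 163978) (nat_lit 30) (.e (nat_lit 573485) (nat_lit 13) (.e (nat_lit 65604) (nat_lit 9) (.e (nat_lit 336028) (nat_lit 3) (.e (nat_lit 98359) (nat_lit 26) (.e (nat_lit 426103) (nat_lit 1) (.e (nat_lit 164347) (nat_lit 240) .nil)))))))) (.g (nat_lit 1) (.e (nat_lit 19681) (nat_lit 0) .nil) .nil))))) 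
(.nd (nat_lit 8) (.nd (nat_lit 9) 
(.lf (nat_lit 450804) (.g (nat_lit 3495) (.e (nat_lit 2599) (nat_lit 163) (.e (nat_lit 163975) (nat_lit 30) (.e (nat_lit 573481) (nat_lit 13) (.e (nat_lit 65619) (nat_lit 10) (.e (nat_lit 344117) (nat_lit 21) (.e (nat_lit 516159) (nat_lit 10) (.e (nat_lit 434209) (nat_lit 18) (.e (nat_lit 5548) (nat_lit 306) .nil)))))))) (.g (nat_lit 1) (.e (nat_lit 17205) (nat_lit 0) .nil) .nil))) 
(.lf (nat_lit 451316) (.g (nat_lit 4365) (.e (nat_lit 2610) (nat_lit 163) (.e (nat_lit 163977) (nat_lit 30) (.e (nat_lit 573493) (nat_lit 15) (.e (nat_lit 81956) (nat_lit 23) (.e (nat_lit 98364) (nat_lit 26) .nil))))) (.g (nat_lit 0) (.e (nat_lit 19526) (nat_lit 0) .nil) .nil)))) (.nd (nat_lit 9) 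
(.lf (nat_lit 451060) (.g (nat_lit 2291) (.e (nat_lit 2606) (nat_lit 163) (.e (nat_lit 163979) (nat_lit 30) (.e (nat_lit 573489) (nat_lit 14) (.e (nat_lit 73755) (nat_lit 8) (.e (nat_lit 557097) (nat_lit 13) (.e (nat_lit 172067) (nat_lit 3) (.e (nat_lit 204830) (nat_lit 18) (.e (nat_lit 57663) (nat_lit 152) .nil)))))))) (.g (nat_lit 1) (.e (nat_lit 18706) (nat_lit 0) .nil) .nil))) 
(.lf (nat_lit 451572) (.g (nat_lit 4434) (.e (nat_lit 2610) (nat_lit 163) (.e (nat_lit 163979) (nat_lit 30) (.e (nat_lit 573482) (nat_lit 13) (.e (nat_lit 65604) (nat_lit 9) (.e (nat_lit 336028) (nat_lit 3) (.e (nat_lit 98366) (nat_lit 27) (.e (nat_lit 434209) (nat_lit 18) (.e (nat_lit 5546) (nat_lit 306) .nil)))))))) (.g (nat_lit 1) (.e (nat_lit 20165) (nat_lit 0) .nil) .nil))))))))) 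
(.nd (nat_lit 4) (.nd (nat_lit 5) (.nd (nat_lit 6) (.nd (nat_lit 7) (.nd (nat_lit 8) 
(.nd (nat_lit 9) 
(.lf (nat_lit 450572) (.g (nat_lit 3456) (.e (nat_lit 2569) (nat_lit 160) (.e (nat_lit 32807) (nat_lit 18) (.e (nat_lit 172120) (nat_lit 12) (.e (nat_lit 475183) (nat_lit 29) (.e (nat_lit 557103) (nat_lit 14) (.e (nat_lit 180285) (nat_lit 45) .nil)))))) (.g (nat_lit 1) (.e (nat_lit 16474) (nat_lit 0) .nil) .nil))) 
(.lf (nat_lit 451084) (.g (nat_lit 4001) (.e (nat_lit 2607) (nat_lit 163) (.e (nat_lit 164402) (nat_lit 256) (.e (nat_lit 57371) (nat_lit 2) (.e (nat_lit 90174) (nat_lit 14) (.e (nat_lit 180243) (nat_lit 5) (.e (nat_lit 532515) (nat_lit 3) (.e (nat_lit 114716) (nat_lit 22) (.e (nat_lit 90137) (nat_lit 9) .nil)))))))) (.g (nat_lit 1) (.e (nat_lit 18997) (nat_lit 0) .nil) .nil)))) (.nd (nat_lit 9) 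
(.lf (nat_lit 450828) (.g (nat_lit 3029) (.e (nat_lit 2599) (nat_lit 163) (.e (nat_lit 163978) (nat_lit 30) (.e (nat_lit 573479) (nat_lit 13) (.e (nat_lit 65619) (nat_lit 10) (.e (nat_lit 344117) (nat_lit 21) (.e (nat_lit 516160) (nat_lit 10) (.e (nat_lit 434209) (nat_lit 18) (.e (nat_lit 5547) (nat_lit 306) .nil)))))))) (.g (nat_lit 1) (.e (nat_lit 17318) (nat_lit 0) .nil) .nil))) 
(.lf (nat_lit 451340) (.g (nat_lit 3699) (.e (nat_lit 2610) (nat_lit 163) (.e (nat_lit 163978) (nat_lit 30) (.e (nat_lit 573479) (nat_lit 13) (.e (nat_lit 65604) (nat_lit 9) (.e (nat_lit 336013) (nat_lit 2) (.e (nat_lit 90170) (nat_lit 13) (.e (nat_lit 172059) (nat_lit 1) (.e (nat_lit 164347) (nat_lit 240) .nil)))))))) (.g (nat_lit 1) (.e (nat_lit 19566) (nat_lit 0) .nil) .nil))))) 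
(.nd (nat_lit 8) (.nd (nat_lit 9) 
(.lf (nat_lit 450700) (.g (nat_lit 2047) (.e (nat_lit 2587) (nat_lit 162) (.e (nat_lit 49189) (nat_lit 11) (.e (nat_lit 16425) (nat_lit 7) (.e (nat_lit 409648) (nat_lit 18) (.e (nat_lit 303142) (nat_lit 12) (.e (nat_lit 475199) (nat_lit 40) (.e (nat_lit 704814) (nat_lit 14) .nil))))))) (.g (nat_lit 1) (.e (nat_lit 16936) (nat_lit 0) .nil) .nil))) 
(.lf (nat_lit 451212) (.g (nat_lit 2787) (.e (nat_lit 2610) (nat_lit 163) (.e (nat_lit 163977) (nat_lit 30) (.e (nat_lit 573491) (nat_lit 15) (.e (nat_lit 81951) (nat_lit 22) (.e (nat_lit 90185) (nat_lit 17) (.e (nat_lit 237584) (nat_lit 1) (.e (nat_lit 164345) (nat_lit 240) .nil))))))) (.g (nat_lit 1) (.e (nat_lit 19388) (nat_lit 0) .nil) .nil)))) (.nd (nat_lit 9) 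
(.lf (nat_lit 450956) (.g (nat_lit 2219) (.e (nat_lit 2601) (nat_lit 163) (.e (nat_lit 163978) (nat_lit 30) (.e (nat_lit 573479) (nat_lit 13) (.e (nat_lit 65604) (nat_lit 9) .nil)))) (.g (nat_lit 0) (.e (nat_lit 18153) (nat_lit 0) .nil) .nil))) 
(.lf (nat_lit 451468) (.g (nat_lit 2486) (.e (nat_lit 2610) (nat_lit 163) (.e (nat_lit 163978) (nat_lit 30) (.e (nat_lit 573485) (nat_lit 13) (.e (nat_lit 65619) (nat_lit 10) (.e (nat_lit 344117) (nat_lit 21) (.e (nat_lit 516143) (nat_lit 9) (.e (nat_lit 426104) (nat_lit 1) (.e (nat_lit 164345) (nat_lit 240) .nil)))))))) (.g (nat_lit 1) (.e (nat_lit 19707) (nat_lit 0) .nil) .nil)))))) 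
(.nd (nat_lit 7) (.nd (nat_lit 8) (.nd (nat_lit 9) 
(.lf (nat_lit 450636) (.g (nat_lit 2645) (.e (nat_lit 2571) (nat_lit 160) (.e (nat_lit 32807) (nat_lit 18) (.e (nat_lit 172118) (nat_lit 12) (.e (nat_lit 475185) (nat_lit 29) (.e (nat_lit 557100) (nat_lit 13) (.e (nat_lit 172039) (nat_lit 0) (.e (nat_lit 7013) (nat_lit 377) .nil))))))) (.g (nat_lit 1) (.e (nat_lit 16819) (nat_lit 0) .nil) .nil))) 
(.lf (nat_lit 451148) (.g (nat_lit 2594) (.e (nat_lit 2610) (nat_lit 163) (.e (nat_lit 163977) (nat_lit 30) (.e (nat_lit 573484) (nat_lit 13) (.e (nat_lit 65610) (nat_lit 10) (.e (nat_lit 344117) (nat_lit 21) (.e (nat_lit 516151) (nat_lit 9) (.e (nat_lit 426097) (nat_lit 1) (.e (nat_lit 164346) (nat_lit 240) .nil)))))))) (.g (nat_lit 1) (.e (nat_lit 19318) (nat_lit 0) .nil) .nil)))) 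
(.nd (nat_lit 9) 
(.lf (nat_lit 450892) (.g (nat_lit 3537) (.e (nat_lit 2600) (nat_lit 163) (.e (nat_lit 163976) (nat_lit 30) (.e (nat_lit 573481) (nat_lit 13) (.e (nat_lit 65619) (nat_lit 10) (.e (nat_lit 344117) (nat_lit 21) (.e (nat_lit 516151) (nat_lit 9) (.e (nat_lit 426097) (nat_lit 1) (.e (nat_lit 164345) (nat_lit 240) .nil)))))))) (.g (nat_lit 1) (.e (nat_lit 17684) (nat_lit 0) .nil) .nil))) 
(.lf (nat_lit 451404) (.g (nat_lit 2292) (.e (nat_lit 2610) (nat_lit 163) (.e (nat_lit 163978) (nat_lit 30) (.e (nat_lit 573484) (nat_lit 13) (.e (nat_lit 65610) (nat_lit 10) (.e (nat_lit 344117) (nat_lit 21) (.e (nat_lit 516151) (nat_lit 9) (.e (nat_lit 426101) (nat_lit 1) (.e (nat_lit 164347) (nat_lit 240) .nil)))))))) (.g (nat_lit 1) (.e (nat_lit 19630) (nat_lit 0) .nil) .nil))))) 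
(.nd (nat_lit 8) (.nd (nat_lit 9) 
(.lf (nat_lit 450764) (.g (nat_lit 2030) (.e (nat_lit 2576) (nat_lit 161) (.e (nat_lit 40996) (nat_lit 11) (.e (nat_lit 24625) (nat_lit 9) (.e (nat_lit 336438) (nat_lit 31) (.e (nat_lit 458769) (nat_lit 16) (.e (nat_lit 164269) (nat_lit 221) .nil)))))) (.g (nat_lit 1) (.e (nat_lit 17007) (nat_lit 0) .nil) .nil))) 
(.lf (nat_lit 451276) (.g (nat_lit 3840) (.e (nat_lit 2610) (nat_lit 163) (.e (nat_lit 163977) (nat_lit 30) (.e (nat_lit 573493) (nat_lit 15) (.e (nat_lit 81953) (nat_lit 22) (.e (nat_lit 90174) (nat_lit 14) (.e (nat_lit 180228) (nat_lit 0) (.e (nat_lit 5546) (nat_lit 306) .nil))))))) (.g (nat_lit 1) (.e (nat_lit 19478) (nat_lit 0) .nil) .nil)))) (.nd (nat_lit 9) 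
(.lf (nat_lit 451020) (.g (nat_lit 3641) (.e (nat_lit 2604) (nat_lit 163) (.e (nat_lit 163975) (nat_lit 30) (.e (nat_lit 573481) (nat_lit 13) (.e (nat_lit 65604) (nat_lit 9) (.e (nat_lit 336013) (nat_lit 2) (.e (nat_lit 90170) (nat_lit 13) (.e (nat_lit 172069) (nat_lit 4) (.e (nat_lit 229663) (nat_lit 240) .nil)))))))) (.g (nat_lit 1) (.e (nat_lit 18513) (nat_lit 0) .nil) .nil))) 
(.lf (nat_lit 451532) (.g (nat_lit 2650) (.e (nat_lit 2610) (nat_lit 163) (.e (nat_lit 163979) (nat_lit 30) (.e (nat_lit 573481) (nat_lit 13) (.e (nat_lit 65619) (nat_lit 10) (.e (nat_lit 344117) (nat_lit 21) .nil))))) (.g (nat_lit 0) (.e (nat_lit 20123) (nat_lit 0) .nil) .nil))))))) (.nd (nat_lit 6) (.nd (nat_lit 7) (.nd (nat_lit 8) (.nd (nat_lit 9) 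
(.lf (nat_lit 450604) (.g (nat_lit 3375) (.e (nat_lit 2570) (nat_lit 160) (.e (nat_lit 32807) (nat_lit 18) (.e (nat_lit 172120) (nat_lit 12) (.e (nat_lit 475183) (nat_lit 29) (.e (nat_lit 557103) (nat_lit 14) (.e (nat_lit 180285) (nat_lit 45) .nil)))))) (.g (nat_lit 1) (.e (nat_lit 16605) (nat_lit 0) .nil) .nil))) 
(.lf (nat_lit 451116) (.g (nat_lit 2050) (.e (nat_lit 2610) (nat_lit 163) (.e (nat_lit 163977) (nat_lit 30) (.e (nat_lit 573482) (nat_lit 13) (.e (nat_lit 65604) (nat_lit 9) (.e (nat_lit 336028) (nat_lit 3) (.e (nat_lit 98359) (nat_lit 26) (.e (nat_lit 426104) (nat_lit 1) (.e (nat_lit 164347) (nat_lit 240) .nil)))))))) (.g (nat_lit 1) (.e (nat_lit 19286) (nat_lit 0) .nil) .nil)))) 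
(.nd (nat_lit 9) 
(.lf (nat_lit 450860) (.g (nat_lit 4463) (.e (nat_lit 2599) (nat_lit 163) (.e (nat_lit 163979) (nat_lit 30) (.e (nat_lit 573482) (nat_lit 13) (.e (nat_lit 65604) (nat_lit 9) (.e (nat_lit 336028) (nat_lit 3) (.e (nat_lit 98366) (nat_lit 27) (.e (nat_lit 434209) (nat_lit 18) (.e (nat_lit 5547) (nat_lit 306) .nil)))))))) (.g (nat_lit 1) (.e (nat_lit 17400) (nat_lit 0) .nil) .nil))) 
(.lf (nat_lit 451372) (.g (nat_lit 3303) (.e (nat_lit 2610) (nat_lit 163) (.e (nat_lit 163978) (nat_lit 30) (.e (nat_lit 573479) (nat_lit 13) (.e (nat_lit 65619) (nat_lit 10) (.e (nat_lit 344117) (nat_lit 21) (.e (nat_lit 516152) (nat_lit 9) (.e (nat_lit 426109) (nat_lit 1) (.e (nat_lit 164345) (nat_lit 240) .nil)))))))) (.g (nat_lit 1) (.e (nat_lit 19598) (nat_lit 0) .nil) .nil))))) 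
(.nd (nat_lit 8) (.nd (nat_lit 9) 
(.lf (nat_lit 450732) (.g (nat_lit 3605) (.e (nat_lit 2591) (nat_lit 162) (.e (nat_lit 49189) (nat_lit 11) (.e (nat_lit 16425) (nat_lit 7) (.e (nat_lit 409649) (nat_lit 18) (.e (nat_lit 303143) (nat_lit 12) (.e (nat_lit 475198) (nat_lit 40) (.e (nat_lit 704790) (nat_lit 14) .nil))))))) (.g (nat_lit 1) (.e (nat_lit 16969) (nat_lit 0) .nil) .nil))) 
(.lf (nat_lit 451244) (.g (nat_lit 3472) (.e (nat_lit 2610) (nat_lit 163) (.e (nat_lit 163977) (nat_lit 30) (.e (nat_lit 573492) (nat_lit 15) (.e (nat_lit 81956) (nat_lit 23) (.e (nat_lit 98358) (nat_lit 26) .nil))))) (.g (nat_lit 0) (.e (nat_lit 19436) (nat_lit 0) .nil) .nil)))) (.nd (nat_lit 9) 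
(.lf (nat_lit 450988) (.g (nat_lit 4406) (.e (nat_lit 2601) (nat_lit 163) (.e (nat_lit 163979) (nat_lit 30) (.e (nat_lit 573482) (nat_lit 13) (.e (nat_lit 65619) (nat_lit 10) (.e (nat_lit 344117) (nat_lit 21) (.e (nat_lit 516159) (nat_lit 10) (.e (nat_lit 434209) (nat_lit 18) (.e (nat_lit 5548) (nat_lit 306) .nil)))))))) (.g (nat_lit 1) (.e (nat_lit 18207) (nat_lit 0) .nil) .nil))) 
(.lf (nat_lit 451500) (.g (nat_lit 5326) (.e (nat_lit 2610) (nat_lit 163) (.e (nat_lit 163978) (nat_lit 30) (.e (nat_lit 573485) (nat_lit 13) (.e (nat_lit 65619) (nat_lit 10) (.e (nat_lit 344117) (nat_lit 21) (.e (nat_lit 516170) (nat_lit 13) (.e (nat_lit 458774) (nat_lit 18) (.e (nat_lit 5547) (nat_lit 306) .nil)))))))) (.g (nat_lit 1) (.e (nat_lit 19739) (nat_lit 0) .nil) .nil)))))) 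
(.nd (nat_lit 7) (.nd (nat_lit 8) (.nd (nat_lit 9) 
(.lf (nat_lit 450668) (.g (nat_lit 3330) (.e (nat_lit 2571) (nat_lit 160) (.e (nat_lit 32807) (nat_lit 18) (.e (nat_lit 172126) (nat_lit 14) (.e (nat_lit 491536) (nat_lit 2) (.e (nat_lit 90174) (nat_lit 14) (.e (nat_lit 180288) (nat_lit 45) .nil)))))) (.g (nat_lit 1) (.e (nat_lit 16875) (nat_lit 0) .nil) .nil))) 
(.lf (nat_lit 451180) (.g (nat_lit 3635) (.e (nat_lit 2610) (nat_lit 163) (.e (nat_lit 163977) (nat_lit 30) (.e (nat_lit 573485) (nat_lit 13) (.e (nat_lit 65604) (nat_lit 9) (.e (nat_lit 336028) (nat_lit 3) (.e (nat_lit 98366) (nat_lit 27) (.e (nat_lit 434209) (nat_lit 18) (.e (nat_lit 5547) (nat_lit 306) .nil)))))))) (.g (nat_lit 1) (.e (nat_lit 19351) (nat_lit 0) .nil) .nil)))) (.nd (nat_lit 9) 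
(.lf (nat_lit 450924) (.g (nat_lit 3979) (.e (nat_lit 2601) (nat_lit 163) (.e (nat_lit 163975) (nat_lit 30) (.e (nat_lit 573481) (nat_lit 13) (.e (nat_lit 65619) (nat_lit 10) (.e (nat_lit 344117) (nat_lit 21) (.e (nat_lit 516143) (nat_lit 9) (.e (nat_lit 426109) (nat_lit 1) (.e (nat_lit 164345) (nat_lit 240) .nil)))))))) (.g (nat_lit 1) (.e (nat_lit 17873) (nat_lit 0) .nil) .nil))) 
(.lf (nat_lit 451436) (.g (nat_lit 4942) (.e (nat_lit 2610) (nat_lit 163) (.e (nat_lit 163978) (nat_lit 30) (.e (nat_lit 573485) (nat_lit 13) (.e (nat_lit 65604) (nat_lit 9) (.e (nat_lit 336013) (nat_lit 2) (.e (nat_lit 90170) (nat_lit 13) (.e (nat_lit 172059) (nat_lit 1) (.e (nat_lit 164345) (nat_lit 240) .nil)))))))) (.g (nat_lit 1) (.e (nat_lit 19668) (nat_lit 0) .nil) .nil))))) 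
(.nd (nat_lit 8) (.nd (nat_lit 9) 
(.lf (nat_lit 450796) (.g (nat_lit 2136) (.e (nat_lit 2598) (nat_lit 163) (.e (nat_lit 163979) (nat_lit 30) (.e (nat_lit 573482) (nat_lit 13) (.e (nat_lit 65619) (nat_lit 10) (.e (nat_lit 344117) (nat_lit 21) .nil))))) (.g (nat_lit 0) (.e (nat_lit 17116) (nat_lit 0) .nil) .nil))) 
(.lf (nat_lit 451308) (.g (nat_lit 3496) (.e (nat_lit 2610) (nat_lit 163) (.e (nat_lit 163977) (nat_lit 30) (.e (nat_lit 573493) (nat_lit 15) (.e (nat_lit 81956) (nat_lit 23) (.e (nat_lit 98359) (nat_lit 26) (.e (nat_lit 426104) (nat_lit 1) (.e (nat_lit 164345) (nat_lit 240) .nil))))))) (.g (nat_lit 1) (.e (nat_lit 19518) (nat_lit 0) .nil) .nil)))) (.nd (nat_lit 9) 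
(.lf (nat_lit 451052) (.g (nat_lit 4887) (.e (nat_lit 2606) (nat_lit 163) (.e (nat_lit 163978) (nat_lit 30) (.e (nat_lit 573489) (nat_lit 14) (.e (nat_lit 73755) (nat_lit 8) (.e (nat_lit 557104) (nat_lit 14) (.e (nat_lit 180244) (nat_lit 5) (.e (nat_lit 532503) (nat_lit 1) (.e (nat_lit 57661) (nat_lit 152) .nil)))))))) (.g (nat_lit 1) (.e (nat_lit 18692) (nat_lit 0) .nil) .nil))) 
(.lf (nat_lit 451564) (.g (nat_lit 3154) (.e (nat_lit 2610) (nat_lit 163) (.e (nat_lit 163979) (nat_lit 30) (.e (nat_lit 573482) (nat_lit 13) (.e (nat_lit 65604) (nat_lit 9) (.e (nat_lit 336028) (nat_lit 3) (.e (nat_lit 98361) (nat_lit 26) (.e (nat_lit 426109) (nat_lit 1) (.e (nat_lit 164345) (nat_lit 240) .nil)))))))) (.g (nat_lit 1) (.e (nat_lit 20157) (nat_lit 0) .nil) .nil)))))))) 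
(.nd (nat_lit 5) (.nd (nat_lit 6) (.nd (nat_lit 7) (.nd (nat_lit 8) (.nd (nat_lit 9) 
(.lf (nat_lit 450588) (.g (nat_lit 2692) (.e (nat_lit 2569) (nat_lit 160) (.e (nat_lit 32809) (nat_lit 20) (.e (nat_lit 188418) (nat_lit 0) (.e (nat_lit 1856) (nat_lit 124) (.e (nat_lit 557103) (nat_lit 14) (.e (nat_lit 180285) (nat_lit 45) .nil)))))) (.g (nat_lit 1) (.e (nat_lit 16500) (nat_lit 0) .nil) .nil))) 
(.lf (nat_lit 451100) (.g (nat_lit 2042) (.e (nat_lit 2610) (nat_lit 163) (.e (nat_lit 163977) (nat_lit 30) (.e (nat_lit 573479) (nat_lit 13) (.e (nat_lit 65619) (nat_lit 10) (.e (nat_lit 344117) (nat_lit 21) (.e (nat_lit 516160) (nat_lit 10) (.e (nat_lit 434209) (nat_lit 18) (.e (nat_lit 5548) (nat_lit 306) .nil)))))))) (.g (nat_lit 1) (.e (nat_lit 19270) (nat_lit 0) .nil) .nil)))) 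
(.nd (nat_lit 9) 
(.lf (nat_lit 450844) (.g (nat_lit 4631) (.e (nat_lit 2599) (nat_lit 163) (.e (nat_lit 163978) (nat_lit 30) (.e (nat_lit 573485) (nat_lit 13) (.e (nat_lit 65619) (nat_lit 10) (.e (nat_lit 344117) (nat_lit 21) (.e (nat_lit 516159) (nat_lit 10) (.e (nat_lit 434209) (nat_lit 18) (.e (nat_lit 5546) (nat_lit 306) .nil)))))))) (.g (nat_lit 1) (.e (nat_lit 17354) (nat_lit 0) .nil) .nil))) 
(.lf (nat_lit 451356) (.g (nat_lit 3758) (.e (nat_lit 2610) (nat_lit 163) (.e (nat_lit 163978) (nat_lit 30) (.e (nat_lit 573479) (nat_lit 13) (.e (nat_lit 65604) (nat_lit 9) (.e (nat_lit 336028) (nat_lit 3) (.e (nat_lit 98367) (nat_lit 27) (.e (nat_lit 434209) (nat_lit 18) (.e (nat_lit 5547) (nat_lit 306) .nil)))))))) (.g (nat_lit 1) (.e (nat_lit 19582) (nat_lit 0) .nil) .nil))))) 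
(.nd (nat_lit 8) (.nd (nat_lit 9) 
(.lf (nat_lit 450716) (.g (nat_lit 3361) (.e (nat_lit 2591) (nat_lit 162) (.e (nat_lit 49189) (nat_lit 11) (.e (nat_lit 16425) (nat_lit 7) (.e (nat_lit 409646) (nat_lit 18) (.e (nat_lit 303143) (nat_lit 12) (.e (nat_lit 475199) (nat_lit 40) (.e (nat_lit 704836) (nat_lit 14) .nil))))))) (.g (nat_lit 1) (.e (nat_lit 16953) (nat_lit 0) .nil) .nil))) 
(.lf (nat_lit 451228) (.g (nat_lit 2281) (.e (nat_lit 2610) (nat_lit 163) (.e (nat_lit 163977) (nat_lit 30) (.e (nat_lit 573491) (nat_lit 15) (.e (nat_lit 81954) (nat_lit 23) (.e (nat_lit 98364) (nat_lit 26) (.e (nat_lit 426107) (nat_lit 1) (.e (nat_lit 164347) (nat_lit 240) .nil))))))) (.g (nat_lit 1) (.e (nat_lit 19404) (nat_lit 0) .nil) .nil)))) (.nd (nat_lit 9) 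
(.lf (nat_lit 450972) (.g (nat_lit 3920) (.e (nat_lit 2601) (nat_lit 163) (.e (nat_lit 163979) (nat_lit 30) (.e (nat_lit 573482) (nat_lit 13) (.e (nat_lit 65604) (nat_lit 9) (.e (nat_lit 336013) (nat_lit 2) (.e (nat_lit 90170) (nat_lit 13) (.e (nat_lit 172059) (nat_lit 1) (.e (nat_lit 164347) (nat_lit 240) .nil)))))))) (.g (nat_lit 1) (.e (nat_lit 18190) (nat_lit 0) .nil) .nil))) 
(.lf (nat_lit 451484) (.g (nat_lit 2541) (.e (nat_lit 2610) (nat_lit 163) (.e (nat_lit 163978) (nat_lit 30) (.e (nat_lit 573485) (nat_lit 13) (.e (nat_lit 65619) (nat_lit 10) (.e (nat_lit 344117) (nat_lit 21) (.e (nat_lit 516153) (nat_lit 9) (.e (nat_lit 426109) (nat_lit 1) (.e (nat_lit 164346) (nat_lit 240) .nil)))))))) (.g (nat_lit 1) (.e (nat_lit 19723) (nat_lit 0) .nil) .nil)))))) 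
(.nd (nat_lit 7) (.nd (nat_lit 8) (.nd (nat_lit 9) 
(.lf (nat_lit 450652) (.g (nat_lit 2735) (.e (nat_lit 2571) (nat_lit 160) (.e (nat_lit 32807) (nat_lit 18) (.e (nat_lit 172120) (nat_lit 12) (.e (nat_lit 475185) (nat_lit 29) (.e (nat_lit 557105) (nat_lit 14) (.e (nat_lit 180282) (nat_lit 45) .nil)))))) (.g (nat_lit 1) (.e (nat_lit 16835) (nat_lit 0) .nil) .nil))) 
(.lf (nat_lit 451164) (.g (nat_lit 2709) (.e (nat_lit 2610) (nat_lit 163) (.e (nat_lit 163977) (nat_lit 30) (.e (nat_lit 573485) (nat_lit 13) (.e (nat_lit 65604) (nat_lit 9) (.e (nat_lit 336013) (nat_lit 2) (.e (nat_lit 90170) (nat_lit 13) (.e (nat_lit 172059) (nat_lit 1) (.e (nat_lit 164346) (nat_lit 240) .nil)))))))) (.g (nat_lit 1) (.e (nat_lit 19334) (nat_lit 0) .nil) .nil)))) 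
(.nd (nat_lit 9) 
(.lf (nat_lit 450908) (.g (nat_lit 3206) (.e (nat_lit 2600) (nat_lit 163) (.e (nat_lit 163978) (nat_lit 30) (.e (nat_lit 573485) (nat_lit 13) (.e (nat_lit 65604) (nat_lit 9) (.e (nat_lit 336013) (nat_lit 2) (.e (nat_lit 90170) (nat_lit 13) (.e (nat_lit 172061) (nat_lit 1) (.e (nat_lit 164346) (nat_lit 240) .nil)))))))) (.g (nat_lit 1) (.e (nat_lit 17817) (nat_lit 0) .nil) .nil))) 
(.lf (nat_lit 451420) (.g (nat_lit 2347) (.e (nat_lit 2610) (nat_lit 163) (.e (nat_lit 163978) (nat_lit 30) (.e (nat_lit 573484) (nat_lit 13) (.e (nat_lit 65610) (nat_lit 10) (.e (nat_lit 344117) (nat_lit 21) (.e (nat_lit 516160) (nat_lit 10) (.e (nat_lit 434209) (nat_lit 18) (.e (nat_lit 5543) (nat_lit 306) .nil)))))))) (.g (nat_lit 1) (.e (nat_lit 19646) (nat_lit 0) .nil) .nil))))) 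
(.nd (nat_lit 8) (.nd (nat_lit 9) 
(.lf (nat_lit 450780) (.g (nat_lit 1284) (.e (nat_lit 2579) (nat_lit 161) (.e (nat_lit 40965) (nat_lit 0) (.e (nat_lit 1582) (nat_lit 111) (.e (nat_lit 360477) (nat_lit 11) (.e (nat_lit 581652) (nat_lit 5) (.e (nat_lit 180284) (nat_lit 45) .nil)))))) (.g (nat_lit 1) (.e (nat_lit 17023) (nat_lit 0) .nil) .nil))) 
(.lf (nat_lit 451292) (.g (nat_lit 3510) (.e (nat_lit 2610) (nat_lit 163) (.e (nat_lit 163977) (nat_lit 30) (.e (nat_lit 573493) (nat_lit 15) (.e (nat_lit 81954) (nat_lit 23) (.e (nat_lit 98366) (nat_lit 27) .nil))))) (.g (nat_lit 0) (.e (nat_lit 19494) (nat_lit 0) .nil) .nil)))) (.nd (nat_lit 9) 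
(.lf (nat_lit 451036) (.g (nat_lit 3555) (.e (nat_lit 2606) (nat_lit 163) (.e (nat_lit 163978) (nat_lit 30) (.e (nat_lit 573489) (nat_lit 14) (.e (nat_lit 73755) (nat_lit 8) (.e (nat_lit 557097) (nat_lit 13) .nil))))) (.g (nat_lit 0) (.e (nat_lit 18676) (nat_lit 0) .nil) .nil))) 
(.lf (nat_lit 451548) (.g (nat_lit 1853) (.e (nat_lit 2610) (nat_lit 163) (.e (nat_lit 163979) (nat_lit 30) (.e (nat_lit 573482) (nat_lit 13) (.e (nat_lit 65604) (nat_lit 9) (.e (nat_lit 336028) (nat_lit 3) .nil))))) (.g (nat_lit 0) (.e (nat_lit 20140) (nat_lit 0) .nil) .nil))))))) (.nd (nat_lit 6) (.nd (nat_lit 7) (.nd (nat_lit 8) (.nd (nat_lit 9) 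
(.lf (nat_lit 450620) (.g (nat_lit 2359) (.e (nat_lit 2570) (nat_lit 160) (.e (nat_lit 32807) (nat_lit 18) (.e (nat_lit 172126) (nat_lit 14) (.e (nat_lit 491539) (nat_lit 3) (.e (nat_lit 98366) (nat_lit 27) .nil))))) (.g (nat_lit 0) (.e (nat_lit 16650) (nat_lit 0) .nil) .nil))) 
(.lf (nat_lit 451132) (.g (nat_lit 2594) (.e (nat_lit 2610) (nat_lit 163) (.e (nat_lit 163977) (nat_lit 30) (.e (nat_lit 573482) (nat_lit 13) (.e (nat_lit 65619) (nat_lit 10) (.e (nat_lit 344117) (nat_lit 21) (.e (nat_lit 516159) (nat_lit 10) (.e (nat_lit 434209) (nat_lit 18) (.e (nat_lit 5546) (nat_lit 306) .nil)))))))) (.g (nat_lit 1) (.e (nat_lit 19302) (nat_lit 0) .nil) .nil)))) 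
(.nd (nat_lit 9) 
(.lf (nat_lit 450876) (.g (nat_lit 4735) (.e (nat_lit 2599) (nat_lit 163) (.e (nat_lit 163979) (nat_lit 30) (.e (nat_lit 573482) (nat_lit 13) (.e (nat_lit 65619) (nat_lit 10) (.e (nat_lit 344117) (nat_lit 21) (.e (nat_lit 516170) (nat_lit 13) (.e (nat_lit 458774) (nat_lit 18) (.e (nat_lit 5548) (nat_lit 306) .nil)))))))) (.g (nat_lit 1) (.e (nat_lit 17416) (nat_lit 0) .nil) .nil))) 
(.lf (nat_lit 451388) (.g (nat_lit 5379) (.e (nat_lit 2610) (nat_lit 163) (.e (nat_lit 163978) (nat_lit 30) (.e (nat_lit 573479) (nat_lit 13) (.e (nat_lit 65619) (nat_lit 10) (.e (nat_lit 344117) (nat_lit 21) (.e (nat_lit 516170) (nat_lit 13) (.e (nat_lit 458774) (nat_lit 18) (.e (nat_lit 5548) (nat_lit 306) .nil)))))))) (.g (nat_lit 1) (.e (nat_lit 19614) (nat_lit 0) .nil) .nil))))) 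
(.nd (nat_lit 8) (.nd (nat_lit 9) 
(.lf (nat_lit 450748) (.g (nat_lit 2318) (.e (nat_lit 2592) (nat_lit 162) (.e (nat_lit 49189) (nat_lit 11) (.e (nat_lit 16425) (nat_lit 7) (.e (nat_lit 409648) (nat_lit 18) (.e (nat_lit 303142) (nat_lit 12) (.e (nat_lit 475197) (nat_lit 40) (.e (nat_lit 704790) (nat_lit 14) .nil))))))) (.g (nat_lit 1) (.e (nat_lit 16988) (nat_lit 0) .nil) .nil))) 
(.lf (nat_lit 451260) (.g (nat_lit 4881) (.e (nat_lit 2610) (nat_lit 163) (.e (nat_lit 163977) (nat_lit 30) (.e (nat_lit 573493) (nat_lit 15) (.e (nat_lit 81951) (nat_lit 22) (.e (nat_lit 90185) (nat_lit 17) (.e (nat_lit 237582) (nat_lit 1) (.e (nat_lit 164348) (nat_lit 240) .nil))))))) (.g (nat_lit 1) (.e (nat_lit 19455) (nat_lit 0) .nil) .nil)))) (.nd (nat_lit 9) 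
(.lf (nat_lit 451004) (.g (nat_lit 4161) (.e (nat_lit 2602) (nat_lit 163) (.e (nat_lit 163979) (nat_lit 30) (.e (nat_lit 573482) (nat_lit 13) (.e (nat_lit 65604) (nat_lit 9) (.e (nat_lit 336013) (nat_lit 2) (.e (nat_lit 90170) (nat_lit 13) (.e (nat_lit 172068) (nat_lit 4) (.e (nat_lit 229664) (nat_lit 240) .nil)))))))) (.g (nat_lit 1) (.e (nat_lit 18396) (nat_lit 0) .nil) .nil))) 
(.lf (nat_lit 451516) (.g (nat_lit 791) (.e (nat_lit 2610) (nat_lit 163) (.e (nat_lit 163978) (nat_lit 30) (.e (nat_lit 573491) (nat_lit 15) .nil))) (.g (nat_lit 0) (.e (nat_lit 20042) (nat_lit 0) .nil) .nil)))))) (.nd (nat_lit 7) (.nd (nat_lit 8) (.nd (nat_lit 9) 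
(.lf (nat_lit 450684) (.g (nat_lit 2179) (.e (nat_lit 2587) (nat_lit 162) (.e (nat_lit 49185) (nat_lit 11) (.e (nat_lit 16465) (nat_lit 13) (.e (nat_lit 483395) (nat_lit 24) (.e (nat_lit 344156) (nat_lit 36) (.e (nat_lit 638980) (nat_lit 0) .nil)))))) (.g (nat_lit 1) (.e (nat_lit 16917) (nat_lit 0) .nil) .nil))) 
(.lf (nat_lit 451196) (.g (nat_lit 3975) (.e (nat_lit 2610) (nat_lit 163) (.e (nat_lit 163977) (nat_lit 30) (.e (nat_lit 573485) (nat_lit 13) (.e (nat_lit 65619) (nat_lit 10) (.e (nat_lit 344117) (nat_lit 21) (.e (nat_lit 516160) (nat_lit 10) (.e (nat_lit 434209) (nat_lit 18) (.e (nat_lit 5547) (nat_lit 306) .nil)))))))) (.g (nat_lit 1) (.e (nat_lit 19367) (nat_lit 0) .nil) .nil)))) 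
(.nd (nat_lit 9) 
(.lf (nat_lit 450940) (.g (nat_lit 2546) (.e (nat_lit 2601) (nat_lit 163) (.e (nat_lit 163977) (nat_lit 30) (.e (nat_lit 573482) (nat_lit 13) (.e (nat_lit 65604) (nat_lit 9) (.e (nat_lit 336028) (nat_lit 3) (.e (nat_lit 98354) (nat_lit 26) (.e (nat_lit 426109) (nat_lit 1) (.e (nat_lit 164346) (nat_lit 240) .nil)))))))) (.g (nat_lit 1) (.e (nat_lit 18006) (nat_lit 0) .nil) .nil))) 
(.lf (nat_lit 451452) (.g (nat_lit 2200) (.e (nat_lit 2610) (nat_lit 163) (.e (nat_lit 163978) (nat_lit 30) (.e (nat_lit 573485) (nat_lit 13) (.e (nat_lit 65604) (nat_lit 9) (.e (nat_lit 336028) (nat_lit 3) (.e (nat_lit 106240) (nat_lit 26) (.e (nat_lit 426107) (nat_lit 1) (.e (nat_lit 164345) (nat_lit 240) .nil)))))))) (.g (nat_lit 1) (.e (nat_lit 19689) (nat_lit 0) .nil) .nil))))) 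
(.nd (nat_lit 8) (.nd (nat_lit 9) 
(.lf (nat_lit 450812) (.g (nat_lit 3938) (.e (nat_lit 2599) (nat_lit 163) (.e (nat_lit 163976) (nat_lit 30) (.e (nat_lit 573481) (nat_lit 13) (.e (nat_lit 65619) (nat_lit 10) (.e (nat_lit 344117) (nat_lit 21) (.e (nat_lit 516151) (nat_lit 9) (.e (nat_lit 426097) (nat_lit 1) (.e (nat_lit 164348) (nat_lit 240) .nil)))))))) (.g (nat_lit 1) (.e (nat_lit 17247) (nat_lit 0) .nil) .nil))) 
(.lf (nat_lit 451324) (.g (nat_lit 3178) (.e (nat_lit 2610) (nat_lit 163) (.e (nat_lit 163977) (nat_lit 30) (.e (nat_lit 573493) (nat_lit 15) (.e (nat_lit 81956) (nat_lit 23) (.e (nat_lit 98367) (nat_lit 27) (.e (nat_lit 434202) (nat_lit 18) (.e (nat_lit 5537) (nat_lit 306) .nil))))))) (.g (nat_lit 1) (.e (nat_lit 19534) (nat_lit 0) .nil) .nil)))) (.nd (nat_lit 9) 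
(.lf (nat_lit 451068) (.g (nat_lit 2856) (.e (nat_lit 2606) (nat_lit 163) (.e (nat_lit 164401) (nat_lit 256) (.e (nat_lit 57378) (nat_lit 3) (.e (nat_lit 98368) (nat_lit 27) (.e (nat_lit 434245) (nat_lit 28) (.e (nat_lit 573488) (nat_lit 14) (.e (nat_lit 73755) (nat_lit 8) (.e (nat_lit 557067) (nat_lit 9) .nil)))))))) (.g (nat_lit 1) (.e (nat_lit 18725) (nat_lit 0) .nil) .nil))) 
(.lf (nat_lit 451580) (.g (nat_lit 2568) (.e (nat_lit 2610) (nat_lit 163) (.e (nat_lit 163979) (nat_lit 30) (.e (nat_lit 573482) (nat_lit 13) (.e (nat_lit 65604) (nat_lit 9) (.e (nat_lit 336028) (nat_lit 3) (.e (nat_lit 98376) (nat_lit 30) (.e (nat_lit 458774) (nat_lit 18) (.e (nat_lit 5547) (nat_lit 306) .nil)))))))) (.g (nat_lit 1) (.e (nat_lit 20173) (nat_lit 0) .nil) .nil))))))))))) 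
(.nd (nat_lit 2) (.nd (nat_lit 3) (.nd (nat_lit 4) (.nd (nat_lit 5) (.nd (nat_lit 6) 
(.nd (nat_lit 7) (.nd (nat_lit 8) (.nd (nat_lit 9) 
(.lf (nat_lit 450562) (.g (nat_lit 1592) (.e (nat_lit 7936) (nat_lit 159) (.e (nat_lit 24608) (nat_lit 3) (.e (nat_lit 98374) (nat_lit 29) (.e (nat_lit 458496) (nat_lit 3) .nil)))) (.g (nat_lit 0) (.e (nat_lit 16420) (nat_lit 0) .nil) .nil))) 
(.lf (nat_lit 451074) (.g (nat_lit 2703) (.e (nat_lit 2606) (nat_lit 163) (.e (nat_lit 164403) (nat_lit 256) (.e (nat_lit 57378) (nat_lit 3) (.e (nat_lit 98368) (nat_lit 27) (.e (nat_lit 434248) (nat_lit 28) .nil))))) (.g (nat_lit 0) (.e (nat_lit 18731) (nat_lit 0) .nil) .nil)))) (.nd (nat_lit 9) 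
(.lf (nat_lit 450818) (.g (nat_lit 2056) (.e (nat_lit 2599) (nat_lit 163) (.e (nat_lit 163978) (nat_lit 30) (.e (nat_lit 573479) (nat_lit 13) (.e (nat_lit 65604) (nat_lit 9) .nil)))) (.g (nat_lit 0) (.e (nat_lit 17308) (nat_lit 0) .nil) .nil))) 
(.lf (nat_lit 451330) (.g (nat_lit 2753) (.e (nat_lit 2610) (nat_lit 163) (.e (nat_lit 163977) (nat_lit 30) (.e (nat_lit 573493) (nat_lit 15) (.e (nat_lit 81956) (nat_lit 23) (.e (nat_lit 98367) (nat_lit 27) (.e (nat_lit 434213) (nat_lit 18) (.e (nat_lit 5548) (nat_lit 306) .nil))))))) (.g (nat_lit 1) (.e (nat_lit 19540) (nat_lit 0) .nil) .nil))))) (.nd (nat_lit 8) (.nd (nat_lit 9) 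
(.lf (nat_lit 450690) (.g (nat_lit 4114) (.e (nat_lit 2587) (nat_lit 162) (.e (nat_lit 49189) (nat_lit 11) (.e (nat_lit 16425) (nat_lit 7) (.e (nat_lit 409645) (nat_lit 18) (.e (nat_lit 303143) (nat_lit 12) (.e (nat_lit 475198) (nat_lit 40) (.e (nat_lit 704790) (nat_lit 14) .nil))))))) (.g (nat_lit 1) (.e (nat_lit 16926) (nat_lit 0) .nil) .nil))) 
(.lf (nat_lit 451202) (.g (nat_lit 3010) (.e (nat_lit 2610) (nat_lit 163) (.e (nat_lit 163977) (nat_lit 30) (.e (nat_lit 573485) (nat_lit 13) (.e (nat_lit 65619) (nat_lit 10) (.e (nat_lit 344117) (nat_lit 21) (.e (nat_lit 516171) (nat_lit 13) (.e (nat_lit 458774) (nat_lit 18) (.e (nat_lit 5548) (nat_lit 306) .nil)))))))) (.g (nat_lit 1) (.e (nat_lit 19373) (nat_lit 0) .nil) .nil)))) 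
(.nd (nat_lit 9) 
(.lf (nat_lit 450946) (.g (nat_lit 4483) (.e (nat_lit 2601) (nat_lit 163) (.e (nat_lit 163977) (nat_lit 30) (.e (nat_lit 573482) (nat_lit 13) (.e (nat_lit 65619) (nat_lit 10) (.e (nat_lit 344117) (nat_lit 21) (.e (nat_lit 516170) (nat_lit 13) (.e (nat_lit 458774) (nat_lit 18) (.e (nat_lit 5548) (nat_lit 306) .nil)))))))) (.g (nat_lit 1) (.e (nat_lit 18012) (nat_lit 0) .nil) .nil))) 
(.lf (nat_lit 451458) (.g (nat_lit 3839) (.e (nat_lit 2610) (nat_lit 163) (.e (nat_lit 163978) (nat_lit 30) (.e (nat_lit 573485) (nat_lit 13) (.e (nat_lit 65604) (nat_lit 9) (.e (nat_lit 336028) (nat_lit 3) (.e (nat_lit 98367) (nat_lit 27) (.e (nat_lit 434202) (nat_lit 18) (.e (nat_lit 5537) (nat_lit 306) .nil)))))))) (.g (nat_lit 1) (.e (nat_lit 19695) (nat_lit 0) .nil) .nil)))))) 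
(.nd (nat_lit 7) (.nd (nat_lit 8) (.nd (nat_lit 9) 
(.lf (nat_lit 450626) (.g (nat_lit 3069) (.e (nat_lit 2570) (nat_lit 160) (.e (nat_lit 32807) (nat_lit 18) (.e (nat_lit 172126) (nat_lit 14) (.e (nat_lit 491540) (nat_lit 3) (.e (nat_lit 98367) (nat_lit 27) (.e (nat_lit 434193) (nat_lit 13) .nil)))))) (.g (nat_lit 1) (.e (nat_lit 16658) (nat_lit 0) .nil) .nil))) 
(.lf (nat_lit 451138) (.g (nat_lit 3372) (.e (nat_lit 2610) (nat_lit 163) (.e (nat_lit 163977) (nat_lit 30) (.e (nat_lit 573482) (nat_lit 13) (.e (nat_lit 65619) (nat_lit 10) (.e (nat_lit 344117) (nat_lit 21) (.e (nat_lit 516169) (nat_lit 13) (.e (nat_lit 458774) (nat_lit 18) (.e (nat_lit 5548) (nat_lit 306) .nil)))))))) (.g (nat_lit 1) (.e (nat_lit 19308) (nat_lit 0) .nil) .nil)))) 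
(.nd (nat_lit 9) 
(.lf (nat_lit 450882) (.g (nat_lit 3402) (.e (nat_lit 2599) (nat_lit 163) (.e (nat_lit 164399) (nat_lit 256) (.e (nat_lit 57373) (nat_lit 2) (.e (nat_lit 90174) (nat_lit 14) (.e (nat_lit 180243) (nat_lit 5) (.e (nat_lit 532515) (nat_lit 3) (.e (nat_lit 114716) (nat_lit 22) (.e (nat_lit 90137) (nat_lit 9) .nil)))))))) (.g (nat_lit 1) (.e (nat_lit 17632) (nat_lit 0) .nil) .nil))) 
(.lf (nat_lit 451394) (.g (nat_lit 4531) (.e (nat_lit 2610) (nat_lit 163) (.e (nat_lit 163978) (nat_lit 30) (.e (nat_lit 573484) (nat_lit 13) (.e (nat_lit 65610) (nat_lit 10) (.e (nat_lit 344117) (nat_lit 21) (.e (nat_lit 516143) (nat_lit 9) (.e (nat_lit 426109) (nat_lit 1) (.e (nat_lit 164346) (nat_lit 240) .nil)))))))) (.g (nat_lit 1) (.e (nat_lit 19620) (nat_lit 0) .nil) .nil))))) 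
(.nd (nat_lit 8) (.nd (nat_lit 9) 
(.lf (nat_lit 450754) (.g (nat_lit 2789) (.e (nat_lit 2592) (nat_lit 162) (.e (nat_lit 49189) (nat_lit 11) (.e (nat_lit 16425) (nat_lit 7) (.e (nat_lit 409649) (nat_lit 18) (.e (nat_lit 303143) (nat_lit 12) (.e (nat_lit 475197) (nat_lit 40) (.e (nat_lit 704790) (nat_lit 14) .nil))))))) (.g (nat_lit 1) (.e (nat_lit 16994) (nat_lit 0) .nil) .nil))) 
(.lf (nat_lit 451266) (.g (nat_lit 3297) (.e (nat_lit 2610) (nat_lit 163) (.e (nat_lit 163977) (nat_lit 30) (.e (nat_lit 573493) (nat_lit 15) (.e (nat_lit 81953) (nat_lit 22) (.e (nat_lit 90170) (nat_lit 13) (.e (nat_lit 172059) (nat_lit 1) (.e (nat_lit 164345) (nat_lit 240) .nil))))))) (.g (nat_lit 1) (.e (nat_lit 19468) (nat_lit 0) .nil) .nil)))) (.nd (nat_lit 9) 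
(.lf (nat_lit 451010) (.g (nat_lit 2174) (.e (nat_lit 2602) (nat_lit 163) (.e (nat_lit 164403) (nat_lit 256) (.e (nat_lit 57371) (nat_lit 2) (.e (nat_lit 90174) (nat_lit 14) (.e (nat_lit 180243) (nat_lit 5) .nil))))) (.g (nat_lit 0) (.e (nat_lit 18472) (nat_lit 0) .nil) .nil))) 
(.lf (nat_lit 451522) (.g (nat_lit 6232) (.e (nat_lit 2610) (nat_lit 163) (.e (nat_lit 163978) (nat_lit 30) (.e (nat_lit 573493) (nat_lit 15) (.e (nat_lit 81956) (nat_lit 23) (.e (nat_lit 98363) (nat_lit 26) (.e (nat_lit 426110) (nat_lit 1) (.e (nat_lit 164348) (nat_lit 240) .nil))))))) (.g (nat_lit 1) (.e (nat_lit 20084) (nat_lit 0) .nil) .nil))))))) 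
(.nd (nat_lit 6) (.nd (nat_lit 7) (.nd (nat_lit 8) (.nd (nat_lit 9) 
(.lf (nat_lit 450594) (.g (nat_lit 2477) (.e (nat_lit 2570) (nat_lit 160) (.e (nat_lit 32807) (nat_lit 18) (.e (nat_lit 172118) (nat_lit 12) (.e (nat_lit 475184) (nat_lit 29) (.e (nat_lit 557103) (nat_lit 14) (.e (nat_lit 180285) (nat_lit 45) .nil)))))) (.g (nat_lit 1) (.e (nat_lit 16595) (nat_lit 0) .nil) .nil))) 
(.lf (nat_lit 451106) (.g (nat_lit 2748) (.e (nat_lit 2610) (nat_lit 163) (.e (nat_lit 163977) (nat_lit 30) (.e (nat_lit 573482) (nat_lit 13) (.e (nat_lit 65604) (nat_lit 9) (.e (nat_lit 336013) (nat_lit 2) (.e (nat_lit 90170) (nat_lit 13) (.e (nat_lit 172061) (nat_lit 1) (.e (nat_lit 164346) (nat_lit 240) .nil)))))))) (.g (nat_lit 1) (.e (nat_lit 19276) (nat_lit 0) .nil) .nil)))) 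
(.nd (nat_lit 9) 
(.lf (nat_lit 450850) (.g (nat_lit 4303) (.e (nat_lit 2599) (nat_lit 163) (.e (nat_lit 163979) (nat_lit 30) (.e (nat_lit 573482) (nat_lit 13) (.e (nat_lit 65604) (nat_lit 9) (.e (nat_lit 336013) (nat_lit 2) (.e (nat_lit 90170) (nat_lit 13) (.e (nat_lit 172059) (nat_lit 1) (.e (nat_lit 164346) (nat_lit 240) .nil)))))))) (.g (nat_lit 1) (.e (nat_lit 17387) (nat_lit 0) .nil) .nil))) 
(.lf (nat_lit 451362) (.g (nat_lit 4039) (.e (nat_lit 2610) (nat_lit 163) (.e (nat_lit 163978) (nat_lit 30) (.e (nat_lit 573479) (nat_lit 13) (.e (nat_lit 65619) (nat_lit 10) (.e (nat_lit 344117) (nat_lit 21) (.e (nat_lit 516143) (nat_lit 9) (.e (nat_lit 426109) (nat_lit 1) (.e (nat_lit 164346) (nat_lit 240) .nil)))))))) (.g (nat_lit 1) (.e (nat_lit 19588) (nat_lit 0) .nil) .nil))))) 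
(.nd (nat_lit 8) (.nd (nat_lit 9) 
(.lf (nat_lit 450722) (.g (nat_lit 3488) (.e (nat_lit 2591) (nat_lit 162) (.e (nat_lit 49189) (nat_lit 11) (.e (nat_lit 16425) (nat_lit 7) (.e (nat_lit 409648) (nat_lit 18) (.e (nat_lit 303137) (nat_lit 10) (.e (nat_lit 434272) (nat_lit 38) (.e (nat_lit 663296) (nat_lit 14) .nil))))))) (.g (nat_lit 1) (.e (nat_lit 16959) (nat_lit 0) .nil) .nil))) 
(.lf (nat_lit 451234) (.g (nat_lit 4115) (.e (nat_lit 2610) (nat_lit 163) (.e (nat_lit 163977) (nat_lit 30) (.e (nat_lit 573491) (nat_lit 15) (.e (nat_lit 81954) (nat_lit 23) (.e (nat_lit 98367) (nat_lit 27) (.e (nat_lit 434209) (nat_lit 18) (.e (nat_lit 5548) (nat_lit 306) .nil))))))) (.g (nat_lit 1) (.e (nat_lit 19410) (nat_lit 0) .nil) .nil)))) (.nd (nat_lit 9) 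
(.lf (nat_lit 450978) (.g (nat_lit 2201) (.e (nat_lit 2601) (nat_lit 163) (.e (nat_lit 163979) (nat_lit 30) (.e (nat_lit 573482) (nat_lit 13) (.e (nat_lit 65604) (nat_lit 9) (.e (nat_lit 336028) (nat_lit 3) (.e (nat_lit 98359) (nat_lit 26) (.e (nat_lit 426097) (nat_lit 1) (.e (nat_lit 164346) (nat_lit 240) .nil)))))))) (.g (nat_lit 1) (.e (nat_lit 18197) (nat_lit 0) .nil) .nil))) 
(.lf (nat_lit 451490) (.g (nat_lit 4444) (.e (nat_lit 2610) (nat_lit 163) (.e (nat_lit 163978) (nat_lit 30) (.e (nat_lit 573485) (nat_lit 13) (.e (nat_lit 65619) (nat_lit 10) (.e (nat_lit 344117) (nat_lit 21) (.e (nat_lit 516160) (nat_lit 10) (.e (nat_lit 434209) (nat_lit 18) (.e (nat_lit 5546) (nat_lit 306) .nil)))))))) (.g (nat_lit 1) (.e (nat_lit 19729) (nat_lit 0) .nil) .nil)))))) 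
(.nd (nat_lit 7) (.nd (nat_lit 8) (.nd (nat_lit 9) 
(.lf (nat_lit 450658) (.g (nat_lit 3000) (.e (nat_lit 2571) (nat_lit 160) (.e (nat_lit 32807) (nat_lit 18) (.e (nat_lit 172124) (nat_lit 14) (.e (nat_lit 491536) (nat_lit 2) (.e (nat_lit 90174) (nat_lit 14) (.e (nat_lit 180288) (nat_lit 45) .nil)))))) (.g (nat_lit 1) (.e (nat_lit 16849) (nat_lit 0) .nil) .nil))) 
(.lf (nat_lit 451170) (.g (nat_lit 2245) (.e (nat_lit 2610) (nat_lit 163) (.e (nat_lit 163977) (nat_lit 30) (.e (nat_lit 573485) (nat_lit 13) (.e (nat_lit 65604) (nat_lit 9) (.e (nat_lit 336028) (nat_lit 3) (.e (nat_lit 98354) (nat_lit 26) (.e (nat_lit 426109) (nat_lit 1) (.e (nat_lit 164346) (nat_lit 240) .nil)))))))) (.g (nat_lit 1) (.e (nat_lit 19340) (nat_lit 0) .nil) .nil)))) 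
(.nd (nat_lit 9) 
(.lf (nat_lit 450914) (.g (nat_lit 3253) (.e (nat_lit 2600) (nat_lit 163) (.e (nat_lit 164403) (nat_lit 256) (.e (nat_lit 57373) (nat_lit 2) (.e (nat_lit 90174) (nat_lit 14) (.e (nat_lit 180243) (nat_lit 5) (.e (nat_lit 532515) (nat_lit 3) (.e (nat_lit 114716) (nat_lit 22) (.e (nat_lit 90137) (nat_lit 9) .nil)))))))) (.g (nat_lit 1) (.e (nat_lit 17840) (nat_lit 0) .nil) .nil))) 
(.lf (nat_lit 451426) (.g (nat_lit 5002) (.e (nat_lit 2610) (nat_lit 163) (.e (nat_lit 163978) (nat_lit 30) (.e (nat_lit 573484) (nat_lit 13) (.e (nat_lit 65610) (nat_lit 10) (.e (nat_lit 344117) (nat_lit 21) (.e (nat_lit 516170) (nat_lit 13) (.e (nat_lit 458774) (nat_lit 18) (.e (nat_lit 5548) (nat_lit 306) .nil)))))))) (.g (nat_lit 1) (.e (nat_lit 19652) (nat_lit 0) .nil) .nil))))) 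
(.nd (nat_lit 8) (.nd (nat_lit 9) 
(.lf (nat_lit 450786) (.g (nat_lit 1115) (.e (nat_lit 2580) (nat_lit 161) (.e (nat_lit 40964) (nat_lit 0) (.e (nat_lit 1582) (nat_lit 111) (.e (nat_lit 360477) (nat_lit 11) (.e (nat_lit 581652) (nat_lit 5) (.e (nat_lit 180284) (nat_lit 45) .nil)))))) (.g (nat_lit 1) (.e (nat_lit 17029) (nat_lit 0) .nil) .nil))) 
(.lf (nat_lit 451298) (.g (nat_lit 3168) (.e (nat_lit 2610) (nat_lit 163) (.e (nat_lit 163977) (nat_lit 30) (.e (nat_lit 573493) (nat_lit 15) (.e (nat_lit 81956) (nat_lit 23) (.e (nat_lit 98354) (nat_lit 26) (.e (nat_lit 426109) (nat_lit 1) (.e (nat_lit 164345) (nat_lit 240) .nil))))))) (.g (nat_lit 1) (.e (nat_lit 19508) (nat_lit 0) .nil) .nil)))) (.nd (nat_lit 9) 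
(.lf (nat_lit 451042) (.g (nat_lit 3859) (.e (nat_lit 2606) (nat_lit 163) (.e (nat_lit 163978) (nat_lit 30) (.e (nat_lit 573489) (nat_lit 14) (.e (nat_lit 73755) (nat_lit 8) (.e (nat_lit 557103) (nat_lit 14) (.e (nat_lit 180244) (nat_lit 5) (.e (nat_lit 532499) (nat_lit 1) (.e (nat_lit 57661) (nat_lit 152) .nil)))))))) (.g (nat_lit 1) (.e (nat_lit 18682) (nat_lit 0) .nil) .nil))) 
(.lf (nat_lit 451554) (.g (nat_lit 4553) (.e (nat_lit 2610) (nat_lit 163) (.e (nat_lit 163979) (nat_lit 30) (.e (nat_lit 573482) (nat_lit 13) (.e (nat_lit 65604) (nat_lit 9) (.e (nat_lit 336028) (nat_lit 3) (.e (nat_lit 98359) (nat_lit 26) (.e (nat_lit 426097) (nat_lit 1) (.e (nat_lit 164345) (nat_lit 240) .nil)))))))) (.g (nat_lit 1) (.e (nat_lit 20147) (nat_lit 0) .nil) .nil)))))))) 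
(.nd (nat_lit 5) (.nd (nat_lit 6) (.nd (nat_lit 7) (.nd (nat_lit 8) (.nd (nat_lit 9) 
(.lf (nat_lit 450578) (.g (nat_lit 3164) (.e (nat_lit 2569) (nat_lit 160) (.e (nat_lit 32807) (nat_lit 18) (.e (nat_lit 172124) (nat_lit 14) (.e (nat_lit 491537) (nat_lit 2) (.e (nat_lit 90172) (nat_lit 14) (.e (nat_lit 180285) (nat_lit 45) .nil)))))) (.g (nat_lit 1) (.e (nat_lit 16483) (nat_lit 0) .nil) .nil))) 
(.lf (nat_lit 451090) (.g (nat_lit 2440) (.e (nat_lit 2608) (nat_lit 163) (.e (nat_lit 164332) (nat_lit 230) (.e (nat_lit 163884) (nat_lit 5) (.e (nat_lit 221194) (nat_lit 11) (.e (nat_lit 336222) (nat_lit 13) (.e (nat_lit 393238) (nat_lit 17) (.e (nat_lit 7349) (nat_lit 388) .nil))))))) (.g (nat_lit 1) (.e (nat_lit 19173) (nat_lit 0) .nil) .nil)))) (.nd (nat_lit 9) 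
(.lf (nat_lit 450834) (.g (nat_lit 4754) (.e (nat_lit 2599) (nat_lit 163) (.e (nat_lit 163978) (nat_lit 30) (.e (nat_lit 573485) (nat_lit 13) (.e (nat_lit 65604) (nat_lit 9) (.e (nat_lit 336028) (nat_lit 3) (.e (nat_lit 98366) (nat_lit 27) (.e (nat_lit 434209) (nat_lit 18) (.e (nat_lit 5548) (nat_lit 306) .nil)))))))) (.g (nat_lit 1) (.e (nat_lit 17344) (nat_lit 0) .nil) .nil))) 
(.lf (nat_lit 451346) (.g (nat_lit 2282) (.e (nat_lit 2610) (nat_lit 163) (.e (nat_lit 163978) (nat_lit 30) (.e (nat_lit 573479) (nat_lit 13) (.e (nat_lit 65604) (nat_lit 9) (.e (nat_lit 336028) (nat_lit 3) .nil))))) (.g (nat_lit 0) (.e (nat_lit 19572) (nat_lit 0) .nil) .nil))))) (.nd (nat_lit 8) (.nd (nat_lit 9) 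
(.lf (nat_lit 450706) (.g (nat_lit 1807) (.e (nat_lit 2590) (nat_lit 162) (.e (nat_lit 49189) (nat_lit 11) (.e (nat_lit 16425) (nat_lit 7) (.e (nat_lit 409648) (nat_lit 18) (.e (nat_lit 303137) (nat_lit 10) .nil))))) (.g (nat_lit 0) (.e (nat_lit 16942) (nat_lit 0) .nil) .nil))) 
(.lf (nat_lit 451218) (.g (nat_lit 2437) (.e (nat_lit 2610) (nat_lit 163) (.e (nat_lit 163977) (nat_lit 30) (.e (nat_lit 573491) (nat_lit 15) (.e (nat_lit 81954) (nat_lit 23) (.e (nat_lit 98354) (nat_lit 26) (.e (nat_lit 426109) (nat_lit 1) (.e (nat_lit 164347) (nat_lit 240) .nil))))))) (.g (nat_lit 1) (.e (nat_lit 19394) (nat_lit 0) .nil) .nil)))) (.nd (nat_lit 9) 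
(.lf (nat_lit 450962) (.g (nat_lit 2027) (.e (nat_lit 2601) (nat_lit 163) (.e (nat_lit 163978) (nat_lit 30) (.e (nat_lit 573484) (nat_lit 13) (.e (nat_lit 65610) (nat_lit 10) (.e (nat_lit 344117) (nat_lit 21) (.e (nat_lit 516151) (nat_lit 9) (.e (nat_lit 433920) (nat_lit 1) (.e (nat_lit 164348) (nat_lit 240) .nil)))))))) (.g (nat_lit 1) (.e (nat_lit 18159) (nat_lit 0) .nil) .nil))) 
(.lf (nat_lit 451474) (.g (nat_lit 2666) (.e (nat_lit 2610) (nat_lit 163) (.e (nat_lit 163978) (nat_lit 30) (.e (nat_lit 573485) (nat_lit 13) (.e (nat_lit 65619) (nat_lit 10) (.e (nat_lit 344117) (nat_lit 21) (.e (nat_lit 516151) (nat_lit 9) (.e (nat_lit 426043) (nat_lit 0) (.e (nat_lit 2458) (nat_lit 157) (.e (nat_lit 5548) (nat_lit 306) .nil))))))))) (.g (nat_lit 1) (.e (nat_lit 19713) (nat_lit 0) .nil) .nil)))))) 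
(.nd (nat_lit 7) (.nd (nat_lit 8) (.nd (nat_lit 9) 
(.lf (nat_lit 450642) (.g (nat_lit 2316) (.e (nat_lit 2571) (nat_lit 160) (.e (nat_lit 32807) (nat_lit 18) (.e (nat_lit 172118) (nat_lit 12) (.e (nat_lit 475185) (nat_lit 29) (.e (nat_lit 557105) (nat_lit 14) (.e (nat_lit 180288) (nat_lit 45) .nil)))))) (.g (nat_lit 1) (.e (nat_lit 16825) (nat_lit 0) .nil) .nil))) 
(.lf (nat_lit 451154) (.g (nat_lit 4520) (.e (nat_lit 2610) (nat_lit 163) (.e (nat_lit 163977) (nat_lit 30) (.e (nat_lit 573484) (nat_lit 13) (.e (nat_lit 65610) (nat_lit 10) (.e (nat_lit 344117) (nat_lit 21) (.e (nat_lit 516159) (nat_lit 10) (.e (nat_lit 434209) (nat_lit 18) (.e (nat_lit 5548) (nat_lit 306) .nil)))))))) (.g (nat_lit 1) (.e (nat_lit 19324) (nat_lit 0) .nil) .nil)))) 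
(.nd (nat_lit 9) 
(.lf (nat_lit 450898) (.g (nat_lit 3473) (.e (nat_lit 2600) (nat_lit 163) (.e (nat_lit 163977) (nat_lit 30) (.e (nat_lit 573482) (nat_lit 13) (.e (nat_lit 65604) (nat_lit 9) (.e (nat_lit 336028) (nat_lit 3) (.e (nat_lit 98359) (nat_lit 26) (.e (nat_lit 426097) (nat_lit 1) (.e (nat_lit 164346) (nat_lit 240) .nil)))))))) (.g (nat_lit 1) (.e (nat_lit 17713) (nat_lit 0) .nil) .nil))) 
(.lf (nat_lit 451410) (.g (nat_lit 2610) (.e (nat_lit 2610) (nat_lit 163) (.e (nat_lit 163978) (nat_lit 30) (.e (nat_lit 573484) (nat_lit 13) (.e (nat_lit 65610) (nat_lit 10) (.e (nat_lit 344117) (nat_lit 21) (.e (nat_lit 516151) (nat_lit 9) (.e (nat_lit 433920) (nat_lit 1) (.e (nat_lit 164347) (nat_lit 240) .nil)))))))) (.g (nat_lit 1) (.e (nat_lit 19636) (nat_lit 0) .nil) .nil))))) 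
(.nd (nat_lit 8) (.nd (nat_lit 9) 
(.lf (nat_lit 450770) (.g (nat_lit 965) (.e (nat_lit 2576) (nat_lit 161) (.e (nat_lit 40997) (nat_lit 11) (.e (nat_lit 24624) (nat_lit 9) (.e (nat_lit 336438) (nat_lit 31) (.e (nat_lit 458769) (nat_lit 16) .nil))))) (.g (nat_lit 0) (.e (nat_lit 17013) (nat_lit 0) .nil) .nil))) 
(.lf (nat_lit 451282) (.g (nat_lit 5444) (.e (nat_lit 2610) (nat_lit 163) (.e (nat_lit 163977) (nat_lit 30) (.e (nat_lit 573493) (nat_lit 15) (.e (nat_lit 81953) (nat_lit 22) (.e (nat_lit 90185) (nat_lit 17) (.e (nat_lit 237585) (nat_lit 1) (.e (nat_lit 164345) (nat_lit 240) .nil))))))) (.g (nat_lit 1) (.e (nat_lit 19484) (nat_lit 0) .nil) .nil)))) (.nd (nat_lit 9) 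
(.lf (nat_lit 451026) (.g (nat_lit 3144) (.e (nat_lit 2604) (nat_lit 163) (.e (nat_lit 164398) (nat_lit 256) (.e (nat_lit 57373) (nat_lit 2) (.e (nat_lit 90174) (nat_lit 14) (.e (nat_lit 180243) (nat_lit 5) (.e (nat_lit 532515) (nat_lit 3) (.e (nat_lit 114716) (nat_lit 22) (.e (nat_lit 90129) (nat_lit 9) .nil)))))))) (.g (nat_lit 1) (.e (nat_lit 18552) (nat_lit 0) .nil) .nil))) 
(.lf (nat_lit 451538) (.g (nat_lit 2238) (.e (nat_lit 2610) (nat_lit 163) (.e (nat_lit 163979) (nat_lit 30) (.e (nat_lit 573482) (nat_lit 13) (.e (nat_lit 65604) (nat_lit 9) (.e (nat_lit 336013) (nat_lit 2) (.e (nat_lit 90134) (nat_lit 9) (.e (nat_lit 2882) (nat_lit 184) (.e (nat_lit 426109) (nat_lit 1) (.e (nat_lit 164345) (nat_lit 240) .nil))))))))) (.g (nat_lit 1) (.e (nat_lit 20130) (nat_lit 0) .nil) .nil))))))) 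
(.nd (nat_lit 6) (.nd (nat_lit 7) (.nd (nat_lit 8) (.nd (nat_lit 9) 
(.lf (nat_lit 450610) (.g (nat_lit 3048) (.e (nat_lit 2570) (nat_lit 160) (.e (nat_lit 32807) (nat_lit 18) (.e (nat_lit 172124) (nat_lit 14) (.e (nat_lit 491536) (nat_lit 2) (.e (nat_lit 90174) (nat_lit 14) (.e (nat_lit 180288) (nat_lit 45) .nil)))))) (.g (nat_lit 1) (.e (nat_lit 16623) (nat_lit 0) .nil) .nil))) 
(.lf (nat_lit 451122) (.g (nat_lit 3943) (.e (nat_lit 2610) (nat_lit 163) (.e (nat_lit 163977) (nat_lit 30) (.e (nat_lit 573482) (nat_lit 13) (.e (nat_lit 65604) (nat_lit 9) (.e (nat_lit 336028) (nat_lit 3) (.e (nat_lit 98367) (nat_lit 27) (.e (nat_lit 434209) (nat_lit 18) (.e (nat_lit 5547) (nat_lit 306) .nil)))))))) (.g (nat_lit 1) (.e (nat_lit 19292) (nat_lit 0) .nil) .nil)))) (.nd (nat_lit 9) 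
(.lf (nat_lit 450866) (.g (nat_lit 4698) (.e (nat_lit 2599) (nat_lit 163) (.e (nat_lit 163979) (nat_lit 30) (.e (nat_lit 573482) (nat_lit 13) (.e (nat_lit 65619) (nat_lit 10) (.e (nat_lit 344117) (nat_lit 21) (.e (nat_lit 516151) (nat_lit 9) (.e (nat_lit 426042) (nat_lit 0) (.e (nat_lit 2458) (nat_lit 157) (.e (nat_lit 5546) (nat_lit 306) .nil))))))))) (.g (nat_lit 1) (.e (nat_lit 17406) (nat_lit 0) .nil) .nil))) 
(.lf (nat_lit 451378) (.g (nat_lit 5174) (.e (nat_lit 2610) (nat_lit 163) (.e (nat_lit 163978) (nat_lit 30) (.e (nat_lit 573479) (nat_lit 13) (.e (nat_lit 65619) (nat_lit 10) (.e (nat_lit 344117) (nat_lit 21) (.e (nat_lit 516159) (nat_lit 10) (.e (nat_lit 434209) (nat_lit 18) (.e (nat_lit 5548) (nat_lit 306) .nil)))))))) (.g (nat_lit 1) (.e (nat_lit 19604) (nat_lit 0) .nil) .nil))))) 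
(.nd (nat_lit 8) (.nd (nat_lit 9) 
(.lf (nat_lit 450738) (.g (nat_lit 3722) (.e (nat_lit 2592) (nat_lit 162) (.e (nat_lit 49189) (nat_lit 11) (.e (nat_lit 16425) (nat_lit 7) (.e (nat_lit 409643) (nat_lit 18) (.e (nat_lit 303143) (nat_lit 12) (.e (nat_lit 475198) (nat_lit 40) (.e (nat_lit 704790) (nat_lit 14) .nil))))))) (.g (nat_lit 1) (.e (nat_lit 16978) (nat_lit 0) .nil) .nil))) 
(.lf (nat_lit 451250) (.g (nat_lit 2757) (.e (nat_lit 2610) (nat_lit 163) (.e (nat_lit 163977) (nat_lit 30) (.e (nat_lit 573492) (nat_lit 15) (.e (nat_lit 81956) (nat_lit 23) (.e (nat_lit 98378) (nat_lit 30) (.e (nat_lit 458774) (nat_lit 18) (.e (nat_lit 5543) (nat_lit 306) .nil))))))) (.g (nat_lit 1) (.e (nat_lit 19442) (nat_lit 0) .nil) .nil)))) (.nd (nat_lit 9) 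
(.lf (nat_lit 450994) (.g (nat_lit 1859) (.e (nat_lit 2602) (nat_lit 163) (.e (nat_lit 163978) (nat_lit 30) (.e (nat_lit 573479) (nat_lit 13) (.e (nat_lit 65619) (nat_lit 10) .nil)))) (.g (nat_lit 0) (.e (nat_lit 18342) (nat_lit 0) .nil) .nil))) 
(.lf (nat_lit 451506) (.g (nat_lit 4171) (.e (nat_lit 2610) (nat_lit 163) (.e (nat_lit 163978) (nat_lit 30) (.e (nat_lit 573485) (nat_lit 13) (.e (nat_lit 65619) (nat_lit 10) (.e (nat_lit 344129) (nat_lit 26) (.e (nat_lit 557087) (nat_lit 11) (.e (nat_lit 24597) (nat_lit 1) (.e (nat_lit 57773) (nat_lit 227) .nil)))))))) (.g (nat_lit 1) (.e (nat_lit 19752) (nat_lit 0) .nil) .nil)))))) 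
(.nd (nat_lit 7) (.nd (nat_lit 8) (.nd (nat_lit 9) 
(.lf (nat_lit 450674) (.g (nat_lit 3989) (.e (nat_lit 2571) (nat_lit 160) (.e (nat_lit 32807) (nat_lit 18) (.e (nat_lit 172126) (nat_lit 14) (.e (nat_lit 491540) (nat_lit 3) (.e (nat_lit 98367) (nat_lit 27) (.e (nat_lit 434186) (nat_lit 13) .nil)))))) (.g (nat_lit 1) (.e (nat_lit 16888) (nat_lit 0) .nil) .nil))) 
(.lf (nat_lit 451186) (.g (nat_lit 2627) (.e (nat_lit 2610) (nat_lit 163) (.e (nat_lit 163977) (nat_lit 30) (.e (nat_lit 573485) (nat_lit 13) (.e (nat_lit 65619) (nat_lit 10) (.e (nat_lit 344117) (nat_lit 21) (.e (nat_lit 516143) (nat_lit 9) (.e (nat_lit 426109) (nat_lit 1) (.e (nat_lit 164346) (nat_lit 240) .nil)))))))) (.g (nat_lit 1) (.e (nat_lit 19357) (nat_lit 0) .nil) .nil)))) 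
(.nd (nat_lit 9) 
(.lf (nat_lit 450930) (.g (nat_lit 4256) (.e (nat_lit 2601) (nat_lit 163) (.e (nat_lit 163975) (nat_lit 30) (.e (nat_lit 573481) (nat_lit 13) (.e (nat_lit 65619) (nat_lit 10) (.e (nat_lit 344117) (nat_lit 21) (.e (nat_lit 516159) (nat_lit 10) (.e (nat_lit 434209) (nat_lit 18) (.e (nat_lit 5547) (nat_lit 306) .nil)))))))) (.g (nat_lit 1) (.e (nat_lit 17879) (nat_lit 0) .nil) .nil))) 
(.lf (nat_lit 451442) (.g (nat_lit 4536) (.e (nat_lit 2610) (nat_lit 163) (.e (nat_lit 163978) (nat_lit 30) (.e (nat_lit 573485) (nat_lit 13) (.e (nat_lit 65604) (nat_lit 9) (.e (nat_lit 336028) (nat_lit 3) (.e (nat_lit 98359) (nat_lit 26) (.e (nat_lit 426097) (nat_lit 1) (.e (nat_lit 164345) (nat_lit 240) .nil)))))))) (.g (nat_lit 1) (.e (nat_lit 19679) (nat_lit 0) .nil) .nil))))) 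
(.nd (nat_lit 8) (.nd (nat_lit 9) 
(.lf (nat_lit 450802) (.g (nat_lit 3041) (.e (nat_lit 2599) (nat_lit 163) (.e (nat_lit 163975) (nat_lit 30) (.e (nat_lit 573481) (nat_lit 13) (.e (nat_lit 65619) (nat_lit 10) (.e (nat_lit 344117) (nat_lit 21) (.e (nat_lit 516143) (nat_lit 9) (.e (nat_lit 426109) (nat_lit 1) (.e (nat_lit 164347) (nat_lit 240) .nil)))))))) (.g (nat_lit 1) (.e (nat_lit 17203) (nat_lit 0) .nil) .nil))) 
(.lf (nat_lit 451314) (.g (nat_lit 4075) (.e (nat_lit 2610) (nat_lit 163) (.e (nat_lit 163977) (nat_lit 30) (.e (nat_lit 573493) (nat_lit 15) (.e (nat_lit 81956) (nat_lit 23) (.e (nat_lit 98361) (nat_lit 26) (.e (nat_lit 426109) (nat_lit 1) (.e (nat_lit 164345) (nat_lit 240) .nil))))))) (.g (nat_lit 1) (.e (nat_lit 19524) (nat_lit 0) .nil) .nil)))) (.nd (nat_lit 9) 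
(.lf (nat_lit 451058) (.g (nat_lit 3500) (.e (nat_lit 2606) (nat_lit 163) (.e (nat_lit 163978) (nat_lit 30) (.e (nat_lit 573489) (nat_lit 14) (.e (nat_lit 73755) (nat_lit 8) (.e (nat_lit 557105) (nat_lit 14) (.e (nat_lit 180245) (nat_lit 5) (.e (nat_lit 532503) (nat_lit 1) (.e (nat_lit 57661) (nat_lit 152) .nil)))))))) (.g (nat_lit 1) (.e (nat_lit 18698) (nat_lit 0) .nil) .nil))) 
(.lf (nat_lit 451570) (.g (nat_lit 3855) (.e (nat_lit 2610) (nat_lit 163) (.e (nat_lit 163979) (nat_lit 30) (.e (nat_lit 573482) (nat_lit 13) (.e (nat_lit 65604) (nat_lit 9) (.e (nat_lit 336028) (nat_lit 3) (.e (nat_lit 98366) (nat_lit 27) (.e (nat_lit 434202) (nat_lit 18) (.e (nat_lit 5537) (nat_lit 306) .nil)))))))) (.g (nat_lit 1) (.e (nat_lit 20163) (nat_lit 0) .nil) .nil))))))))) 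
(.nd (nat_lit 4) (.nd (nat_lit 5) (.nd (nat_lit 6) (.nd (nat_lit 7) (.nd (nat_lit 8) 
(.nd (nat_lit 9) 
(.lf (nat_lit 450570) (.g (nat_lit 2856) (.e (nat_lit 2569) (nat_lit 160) (.e (nat_lit 32807) (nat_lit 18) (.e (nat_lit 172119) (nat_lit 12) (.e (nat_lit 475184) (nat_lit 29) (.e (nat_lit 557103) (nat_lit 14) (.e (nat_lit 180285) (nat_lit 45) .nil)))))) (.g (nat_lit 1) (.e (nat_lit 16472) (nat_lit 0) .nil) .nil))) 
(.lf (nat_lit 451082) (.g (nat_lit 3009) (.e (nat_lit 2607) (nat_lit 163) (.e (nat_lit 164332) (nat_lit 230) (.e (nat_lit 163905) (nat_lit 12) (.e (nat_lit 426472) (nat_lit 25) (.e (nat_lit 319534) (nat_lit 16) (.e (nat_lit 286756) (nat_lit 10) (.e (nat_lit 344174) (nat_lit 42) (.e (nat_lit 761885) (nat_lit 13) .nil)))))))) (.g (nat_lit 1) (.e (nat_lit 18977) (nat_lit 0) .nil) .nil)))) 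
(.nd (nat_lit 9) 
(.lf (nat_lit 450826) (.g (nat_lit 2638) (.e (nat_lit 2599) (nat_lit 163) (.e (nat_lit 163978) (nat_lit 30) (.e (nat_lit 573479) (nat_lit 13) (.e (nat_lit 65619) (nat_lit 10) (.e (nat_lit 344117) (nat_lit 21) (.e (nat_lit 516151) (nat_lit 9) (.e (nat_lit 426097) (nat_lit 1) (.e (nat_lit 164347) (nat_lit 240) .nil)))))))) (.g (nat_lit 1) (.e (nat_lit 17316) (nat_lit 0) .nil) .nil))) 
(.lf (nat_lit 451338) (.g (nat_lit 3638) (.e (nat_lit 2610) (nat_lit 163) (.e (nat_lit 163978) (nat_lit 30) (.e (nat_lit 573479) (nat_lit 13) (.e (nat_lit 65604) (nat_lit 9) (.e (nat_lit 336013) (nat_lit 2) (.e (nat_lit 90170) (nat_lit 13) (.e (nat_lit 172059) (nat_lit 1) (.e (nat_lit 164345) (nat_lit 240) .nil)))))))) (.g (nat_lit 1) (.e (nat_lit 19564) (nat_lit 0) .nil) .nil))))) 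
(.nd (nat_lit 8) (.nd (nat_lit 9) 
(.lf (nat_lit 450698) (.g (nat_lit 3470) (.e (nat_lit 2587) (nat_lit 162) (.e (nat_lit 49189) (nat_lit 11) (.e (nat_lit 16425) (nat_lit 7) (.e (nat_lit 409648) (nat_lit 18) (.e (nat_lit 303142) (nat_lit 12) (.e (nat_lit 475198) (nat_lit 40) (.e (nat_lit 704790) (nat_lit 14) .nil))))))) (.g (nat_lit 1) (.e (nat_lit 16934) (nat_lit 0) .nil) .nil))) 
(.lf (nat_lit 451210) (.g (nat_lit 2866) (.e (nat_lit 2610) (nat_lit 163) (.e (nat_lit 163977) (nat_lit 30) (.e (nat_lit 573491) (nat_lit 15) (.e (nat_lit 81951) (nat_lit 22) (.e (nat_lit 90185) (nat_lit 17) (.e (nat_lit 237582) (nat_lit 1) (.e (nat_lit 164347) (nat_lit 240) .nil))))))) (.g (nat_lit 1) (.e (nat_lit 19386) (nat_lit 0) .nil) .nil)))) (.nd (nat_lit 9) 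
(.lf (nat_lit 450954) (.g (nat_lit 3374) (.e (nat_lit 2601) (nat_lit 163) (.e (nat_lit 163977) (nat_lit 30) (.e (nat_lit 573485) (nat_lit 13) (.e (nat_lit 65619) (nat_lit 10) (.e (nat_lit 344117) (nat_lit 21) (.e (nat_lit 516169) (nat_lit 13) (.e (nat_lit 458774) (nat_lit 18) (.e (nat_lit 5548) (nat_lit 306) .nil)))))))) (.g (nat_lit 1) (.e (nat_lit 18023) (nat_lit 0) .nil) .nil))) 
(.lf (nat_lit 451466) (.g (nat_lit 3127) (.e (nat_lit 2610) (nat_lit 163) (.e (nat_lit 163978) (nat_lit 30) (.e (nat_lit 573485) (nat_lit 13) (.e (nat_lit 65619) (nat_lit 10) (.e (nat_lit 344117) (nat_lit 21) (.e (nat_lit 516106) (nat_lit 0) (.e (nat_lit 7936) (nat_lit 388) (.e (nat_lit 2610) (nat_lit 163) (.e (nat_lit 164347) (nat_lit 240) .nil))))))))) (.g (nat_lit 1) (.e (nat_lit 19704) (nat_lit 0) .nil) .nil)))))) 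
(.nd (nat_lit 7) (.nd (nat_lit 8) (.nd (nat_lit 9) 
(.lf (nat_lit 450634) (.g (nat_lit 3004) (.e (nat_lit 2571) (nat_lit 160) (.e (nat_lit 32807) (nat_lit 18) (.e (nat_lit 172118) (nat_lit 12) (.e (nat_lit 475183) (nat_lit 29) (.e (nat_lit 557103) (nat_lit 14) (.e (nat_lit 180285) (nat_lit 45) .nil)))))) (.g (nat_lit 1) (.e (nat_lit 16817) (nat_lit 0) .nil) .nil))) 
(.lf (nat_lit 451146) (.g (nat_lit 3386) (.e (nat_lit 2610) (nat_lit 163) (.e (nat_lit 163977) (nat_lit 30) (.e (nat_lit 573484) (nat_lit 13) (.e (nat_lit 65610) (nat_lit 10) (.e (nat_lit 344117) (nat_lit 21) (.e (nat_lit 516145) (nat_lit 9) (.e (nat_lit 433920) (nat_lit 1) (.e (nat_lit 164348) (nat_lit 240) .nil)))))))) (.g (nat_lit 1) (.e (nat_lit 19316) (nat_lit 0) .nil) .nil)))) 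
(.nd (nat_lit 9) 
(.lf (nat_lit 450890) (.g (nat_lit 5029) (.e (nat_lit 2600) (nat_lit 163) (.e (nat_lit 163975) (nat_lit 30) (.e (nat_lit 573481) (nat_lit 13) (.e (nat_lit 65619) (nat_lit 10) (.e (nat_lit 344117) (nat_lit 21) (.e (nat_lit 516151) (nat_lit 9) (.e (nat_lit 426104) (nat_lit 1) (.e (nat_lit 164345) (nat_lit 240) .nil)))))))) (.g (nat_lit 1) (.e (nat_lit 17646) (nat_lit 0) .nil) .nil))) 
(.lf (nat_lit 451402) (.g (nat_lit 3689) (.e (nat_lit 2610) (nat_lit 163) (.e (nat_lit 163978) (nat_lit 30) (.e (nat_lit 573484) (nat_lit 13) (.e (nat_lit 65610) (nat_lit 10) (.e (nat_lit 344117) (nat_lit 21) (.e (nat_lit 516151) (nat_lit 9) (.e (nat_lit 426042) (nat_lit 0) (.e (nat_lit 2458) (nat_lit 157) (.e (nat_lit 5548) (nat_lit 306) .nil))))))))) (.g (nat_lit 1) (.e (nat_lit 19628) (nat_lit 0) .nil) .nil))))) 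
(.nd (nat_lit 8) (.nd (nat_lit 9) 
(.lf (nat_lit 450762) (.g (nat_lit 1925) (.e (nat_lit 2574) (nat_lit 161) (.e (nat_lit 40996) (nat_lit 11) (.e (nat_lit 24658) (nat_lit 13) (.e (nat_lit 393260) (nat_lit 21) (.e (nat_lit 417536) (nat_lit 10) .nil))))) (.g (nat_lit 0) (.e (nat_lit 17004) (nat_lit 0) .nil) .nil))) 
(.lf (nat_lit 451274) (.g (nat_lit 3360) (.e (nat_lit 2610) (nat_lit 163) (.e (nat_lit 163977) (nat_lit 30) (.e (nat_lit 573493) (nat_lit 15) (.e (nat_lit 81953) (nat_lit 22) (.e (nat_lit 90172) (nat_lit 14) (.e (nat_lit 180229) (nat_lit 0) (.e (nat_lit 5547) (nat_lit 306) .nil))))))) (.g (nat_lit 1) (.e (nat_lit 19476) (nat_lit 0) .nil) .nil)))) (.nd (nat_lit 9) 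
(.lf (nat_lit 451018) (.g (nat_lit 1857) (.e (nat_lit 2603) (nat_lit 163) (.e (nat_lit 164403) (nat_lit 256) (.e (nat_lit 57378) (nat_lit 3) (.e (nat_lit 98376) (nat_lit 30) (.e (nat_lit 458789) (nat_lit 23) .nil))))) (.g (nat_lit 0) (.e (nat_lit 18503) (nat_lit 0) .nil) .nil))) 
(.lf (nat_lit 451530) (.g (nat_lit 2859) (.e (nat_lit 2610) (nat_lit 163) (.e (nat_lit 163979) (nat_lit 30) (.e (nat_lit 573481) (nat_lit 13) (.e (nat_lit 65604) (nat_lit 9) (.e (nat_lit 336028) (nat_lit 3) (.e (nat_lit 98366) (nat_lit 27) (.e (nat_lit 434209) (nat_lit 18) (.e (nat_lit 5548) (nat_lit 306) .nil)))))))) (.g (nat_lit 1) (.e (nat_lit 20121) (nat_lit 0) .nil) .nil))))))) 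
(.nd (nat_lit 6) (.nd (nat_lit 7) (.nd (nat_lit 8) (.nd (nat_lit 9) 
(.lf (nat_lit 450602) (.g (nat_lit 2746) (.e (nat_lit 2570) (nat_lit 160) (.e (nat_lit 32807) (nat_lit 18) (.e (nat_lit 172119) (nat_lit 12) (.e (nat_lit 475184) (nat_lit 29) (.e (nat_lit 557103) (nat_lit 14) (.e (nat_lit 180285) (nat_lit 45) .nil)))))) (.g (nat_lit 1) (.e (nat_lit 16603) (nat_lit 0) .nil) .nil))) 
(.lf (nat_lit 451114) (.g (nat_lit 2862) (.e (nat_lit 2610) (nat_lit 163) (.e (nat_lit 163977) (nat_lit 30) (.e (nat_lit 573482) (nat_lit 13) (.e (nat_lit 65604) (nat_lit 9) (.e (nat_lit 336028) (nat_lit 3) (.e (nat_lit 98359) (nat_lit 26) (.e (nat_lit 426103) (nat_lit 1) (.e (nat_lit 164348) (nat_lit 240) .nil)))))))) (.g (nat_lit 1) (.e (nat_lit 19284) (nat_lit 0) .nil) .nil)))) 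
(.nd (nat_lit 9) 
(.lf (nat_lit 450858) (.g (nat_lit 2823) (.e (nat_lit 2599) (nat_lit 163) (.e (nat_lit 163979) (nat_lit 30) (.e (nat_lit 573482) (nat_lit 13) (.e (nat_lit 65604) (nat_lit 9) (.e (nat_lit 336028) (nat_lit 3) (.e (nat_lit 98359) (nat_lit 26) (.e (nat_lit 426104) (nat_lit 1) (.e (nat_lit 164348) (nat_lit 240) .nil)))))))) (.g (nat_lit 1) (.e (nat_lit 17398) (nat_lit 0) .nil) .nil))) 
(.lf (nat_lit 451370) (.g (nat_lit 5542) (.e (nat_lit 2610) (nat_lit 163) (.e (nat_lit 163978) (nat_lit 30) (.e (nat_lit 573479) (nat_lit 13) (.e (nat_lit 65619) (nat_lit 10) (.e (nat_lit 344117) (nat_lit 21) (.e (nat_lit 516151) (nat_lit 9) (.e (nat_lit 426104) (nat_lit 1) (.e (nat_lit 164345) (nat_lit 240) .nil)))))))) (.g (nat_lit 1) (.e (nat_lit 19596) (nat_lit 0) .nil) .nil))))) 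
(.nd (nat_lit 8) (.nd (nat_lit 9) 
(.lf (nat_lit 450730) (.g (nat_lit 2554) (.e (nat_lit 2591) (nat_lit 162) (.e (nat_lit 49189) (nat_lit 11) (.e (nat_lit 16425) (nat_lit 7) (.e (nat_lit 409649) (nat_lit 18) (.e (nat_lit 303143) (nat_lit 12) (.e (nat_lit 475197) (nat_lit 40) (.e (nat_lit 704787) (nat_lit 14) .nil))))))) (.g (nat_lit 1) (.e (nat_lit 16967) (nat_lit 0) .nil) .nil))) 
(.lf (nat_lit 451242) (.g (nat_lit 3185) (.e (nat_lit 2610) (nat_lit 163) (.e (nat_lit 163977) (nat_lit 30) (.e (nat_lit 573492) (nat_lit 15) (.e (nat_lit 81956) (nat_lit 23) (.e (nat_lit 98356) (nat_lit 26) (.e (nat_lit 433920) (nat_lit 1) (.e (nat_lit 164345) (nat_lit 240) .nil))))))) (.g (nat_lit 1) (.e (nat_lit 19434) (nat_lit 0) .nil) .nil)))) (.nd (nat_lit 9) 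
(.lf (nat_lit 450986) (.g (nat_lit 3862) (.e (nat_lit 2601) (nat_lit 163) (.e (nat_lit 163979) (nat_lit 30) (.e (nat_lit 573482) (nat_lit 13) (.e (nat_lit 65619) (nat_lit 10) (.e (nat_lit 344117) (nat_lit 21) (.e (nat_lit 516151) (nat_lit 9) (.e (nat_lit 426097) (nat_lit 1) (.e (nat_lit 164345) (nat_lit 240) .nil)))))))) (.g (nat_lit 1) (.e (nat_lit 18205) (nat_lit 0) .nil) .nil))) 
(.lf (nat_lit 451498) (.g (nat_lit 3211) (.e (nat_lit 2610) (nat_lit 163) (.e (nat_lit 163978) (nat_lit 30) (.e (nat_lit 573485) (nat_lit 13) (.e (nat_lit 65619) (nat_lit 10) (.e (nat_lit 344117) (nat_lit 21) (.e (nat_lit 516170) (nat_lit 13) (.e (nat_lit 458774) (nat_lit 18) (.e (nat_lit 5543) (nat_lit 306) .nil)))))))) (.g (nat_lit 1) (.e (nat_lit 19737) (nat_lit 0) .nil) .nil)))))) 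
(.nd (nat_lit 7) (.nd (nat_lit 8) (.nd (nat_lit 9) 
(.lf (nat_lit 450666) (.g (nat_lit 2959) (.e (nat_lit 2571) (nat_lit 160) (.e (nat_lit 32807) (nat_lit 18) (.e (nat_lit 172126) (nat_lit 14) (.e (nat_lit 491535) (nat_lit 2) (.e (nat_lit 90172) (nat_lit 14) (.e (nat_lit 180285) (nat_lit 45) .nil)))))) (.g (nat_lit 1) (.e (nat_lit 16873) (nat_lit 0) .nil) .nil))) 
(.lf (nat_lit 451178) (.g (nat_lit 2921) (.e (nat_lit 2610) (nat_lit 163) (.e (nat_lit 163977) (nat_lit 30) (.e (nat_lit 573485) (nat_lit 13) (.e (nat_lit 65604) (nat_lit 9) (.e (nat_lit 336028) (nat_lit 3) (.e (nat_lit 98359) (nat_lit 26) (.e (nat_lit 426104) (nat_lit 1) (.e (nat_lit 164348) (nat_lit 240) .nil)))))))) (.g (nat_lit 1) (.e (nat_lit 19349) (nat_lit 0) .nil) .nil)))) 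
(.nd (nat_lit 9) 
(.lf (nat_lit 450922) (.g (nat_lit 3833) (.e (nat_lit 2601) (nat_lit 163) (.e (nat_lit 163975) (nat_lit 30) (.e (nat_lit 573481) (nat_lit 13) (.e (nat_lit 65604) (nat_lit 9) (.e (nat_lit 336013) (nat_lit 2) (.e (nat_lit 90170) (nat_lit 13) (.e (nat_lit 172061) (nat_lit 1) (.e (nat_lit 164347) (nat_lit 240) .nil)))))))) (.g (nat_lit 1) (.e (nat_lit 17865) (nat_lit 0) .nil) .nil))) 
(.lf (nat_lit 451434) (.g (nat_lit 4795) (.e (nat_lit 2610) (nat_lit 163) (.e (nat_lit 163978) (nat_lit 30) (.e (nat_lit 573485) (nat_lit 13) (.e (nat_lit 65604) (nat_lit 9) (.e (nat_lit 336013) (nat_lit 2) (.e (nat_lit 90170) (nat_lit 13) (.e (nat_lit 172046) (nat_lit 0) (.e (nat_lit 2458) (nat_lit 157) (.e (nat_lit 5546) (nat_lit 306) .nil))))))))) (.g (nat_lit 1) (.e (nat_lit 19666) (nat_lit 0) .nil) .nil))))) 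
(.nd (nat_lit 8) (.nd (nat_lit 9) 
(.lf (nat_lit 450794) (.g (nat_lit 2007) (.e (nat_lit 2598) (nat_lit 163) (.e (nat_lit 163978) (nat_lit 30) (.e (nat_lit 573485) (nat_lit 13) (.e (nat_lit 65619) (nat_lit 10) (.e (nat_lit 344117) (nat_lit 21) .nil))))) (.g (nat_lit 0) (.e (nat_lit 17046) (nat_lit 0) .nil) .nil))) 
(.lf (nat_lit 451306) (.g (nat_lit 3245) (.e (nat_lit 2610) (nat_lit 163) (.e (nat_lit 163977) (nat_lit 30) (.e (nat_lit 573493) (nat_lit 15) (.e (nat_lit 81956) (nat_lit 23) (.e (nat_lit 98359) (nat_lit 26) (.e (nat_lit 426097) (nat_lit 1) (.e (nat_lit 164347) (nat_lit 240) .nil))))))) (.g (nat_lit 1) (.e (nat_lit 19516) (nat_lit 0) .nil) .nil)))) (.nd (nat_lit 9) 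
(.lf (nat_lit 451050) (.g (nat_lit 3715) (.e (nat_lit 2606) (nat_lit 163) (.e (nat_lit 163978) (nat_lit 30) (.e (nat_lit 573489) (nat_lit 14) (.e (nat_lit 73755) (nat_lit 8) (.e (nat_lit 557104) (nat_lit 14) (.e (nat_lit 180244) (nat_lit 5) (.e (nat_lit 532503) (nat_lit 1) (.e (nat_lit 57652) (nat_lit 152) .nil)))))))) (.g (nat_lit 1) (.e (nat_lit 18690) (nat_lit 0) .nil) .nil))) 
(.lf (nat_lit 451562) (.g (nat_lit 3860) (.e (nat_lit 2610) (nat_lit 163) (.e (nat_lit 163979) (nat_lit 30) (.e (nat_lit 573482) (nat_lit 13) (.e (nat_lit 65604) (nat_lit 9) (.e (nat_lit 336028) (nat_lit 3) (.e (nat_lit 98359) (nat_lit 26) (.e (nat_lit 426104) (nat_lit 1) (.e (nat_lit 164348) (nat_lit 240) .nil)))))))) (.g (nat_lit 1) (.e (nat_lit 20155) (nat_lit 0) .nil) .nil)))))))) 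
(.nd (nat_lit 5) (.nd (nat_lit 6) (.nd (nat_lit 7) (.nd (nat_lit 8) (.nd (nat_lit 9) 
(.lf (nat_lit 450586) (.g (nat_lit 3249) (.e (nat_lit 2569) (nat_lit 160) (.e (nat_lit 32808) (nat_lit 19) (.e (nat_lit 180278) (nat_lit 32) (.e (nat_lit 1234) (nat_lit 91) (.e (nat_lit 90172) (nat_lit 14) (.e (nat_lit 180285) (nat_lit 45) .nil)))))) (.g (nat_lit 1) (.e (nat_lit 16498) (nat_lit 0) .nil) .nil))) 
(.lf (nat_lit 451098) (.g (nat_lit 2850) (.e (nat_lit 2610) (nat_lit 163) (.e (nat_lit 163964) (nat_lit 25) (.e (nat_lit 532563) (nat_lit 15) (.e (nat_lit 385066) (nat_lit 26) (.e (nat_lit 532534) (nat_lit 9) (.e (nat_lit 336019) (nat_lit 3) (.e (nat_lit 98334) (nat_lit 18) (.e (nat_lit 164242) (nat_lit 195) .nil)))))))) (.g (nat_lit 1) (.e (nat_lit 19258) (nat_lit 0) .nil) .nil)))) 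
(.nd (nat_lit 9) 
(.lf (nat_lit 450842) (.g (nat_lit 4481) (.e (nat_lit 2599) (nat_lit 163) (.e (nat_lit 163978) (nat_lit 30) (.e (nat_lit 573485) (nat_lit 13) (.e (nat_lit 65619) (nat_lit 10) (.e (nat_lit 344117) (nat_lit 21) (.e (nat_lit 516151) (nat_lit 9) (.e (nat_lit 426097) (nat_lit 1) (.e (nat_lit 164348) (nat_lit 240) .nil)))))))) (.g (nat_lit 1) (.e (nat_lit 17352) (nat_lit 0) .nil) .nil))) 
(.lf (nat_lit 451354) (.g (nat_lit 4167) (.e (nat_lit 2610) (nat_lit 163) (.e (nat_lit 163978) (nat_lit 30) (.e (nat_lit 573479) (nat_lit 13) (.e (nat_lit 65604) (nat_lit 9) (.e (nat_lit 336028) (nat_lit 3) (.e (nat_lit 98366) (nat_lit 27) (.e (nat_lit 434209) (nat_lit 18) (.e (nat_lit 5548) (nat_lit 306) .nil)))))))) (.g (nat_lit 1) (.e (nat_lit 19580) (nat_lit 0) .nil) .nil))))) 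
(.nd (nat_lit 8) (.nd (nat_lit 9) 
(.lf (nat_lit 450714) (.g (nat_lit 4111) (.e (nat_lit 2591) (nat_lit 162) (.e (nat_lit 49189) (nat_lit 11) (.e (nat_lit 16425) (nat_lit 7) (.e (nat_lit 409645) (nat_lit 18) (.e (nat_lit 303143) (nat_lit 12) (.e (nat_lit 475198) (nat_lit 40) (.e (nat_lit 704790) (nat_lit 14) .nil))))))) (.g (nat_lit 1) (.e (nat_lit 16951) (nat_lit 0) .nil) .nil))) 
(.lf (nat_lit 451226) (.g (nat_lit 2466) (.e (nat_lit 2610) (nat_lit 163) (.e (nat_lit 163977) (nat_lit 30) (.e (nat_lit 573491) (nat_lit 15) (.e (nat_lit 81954) (nat_lit 23) (.e (nat_lit 98362) (nat_lit 26) (.e (nat_lit 426103) (nat_lit 1) (.e (nat_lit 164348) (nat_lit 240) .nil))))))) (.g (nat_lit 1) (.e (nat_lit 19402) (nat_lit 0) .nil) .nil)))) (.nd (nat_lit 9) 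
(.lf (nat_lit 450970) (.g (nat_lit 4376) (.e (nat_lit 2601) (nat_lit 163) (.e (nat_lit 163979) (nat_lit 30) (.e (nat_lit 573482) (nat_lit 13) (.e (nat_lit 65604) (nat_lit 9) (.e (nat_lit 336013) (nat_lit 2) (.e (nat_lit 90170) (nat_lit 13) (.e (nat_lit 172046) (nat_lit 0) (.e (nat_lit 2458) (nat_lit 157) (.e (nat_lit 5547) (nat_lit 306) .nil))))))))) (.g (nat_lit 1) (.e (nat_lit 18188) (nat_lit 0) .nil) .nil))) 
(.lf (nat_lit 451482) (.g (nat_lit 3038) (.e (nat_lit 2610) (nat_lit 163) (.e (nat_lit 163978) (nat_lit 30) (.e (nat_lit 573485) (nat_lit 13) (.e (nat_lit 65619) (nat_lit 10) (.e (nat_lit 344117) (nat_lit 21) (.e (nat_lit 516152) (nat_lit 9) (.e (nat_lit 426109) (nat_lit 1) (.e (nat_lit 164346) (nat_lit 240) .nil)))))))) (.g (nat_lit 1) (.e (nat_lit 19721) (nat_lit 0) .nil) .nil)))))) 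
(.nd (nat_lit 7) (.nd (nat_lit 8) (.nd (nat_lit 9) 
(.lf (nat_lit 450650) (.g (nat_lit 3143) (.e (nat_lit 2571) (nat_lit 160) (.e (nat_lit 32807) (nat_lit 18) (.e (nat_lit 172120) (nat_lit 12) (.e (nat_lit 475185) (nat_lit 29) (.e (nat_lit 557103) (nat_lit 14) (.e (nat_lit 180288) (nat_lit 45) .nil)))))) (.g (nat_lit 1) (.e (nat_lit 16833) (nat_lit 0) .nil) .nil))) 
(.lf (nat_lit 451162) (.g (nat_lit 2635) (.e (nat_lit 2610) (nat_lit 163) (.e (nat_lit 163977) (nat_lit 30) (.e (nat_lit 573485) (nat_lit 13) (.e (nat_lit 65604) (nat_lit 9) (.e (nat_lit 336013) (nat_lit 2) (.e (nat_lit 90170) (nat_lit 13) (.e (nat_lit 172049) (nat_lit 0) (.e (nat_lit 2458) (nat_lit 157) (.e (nat_lit 5547) (nat_lit 306) .nil))))))))) (.g (nat_lit 1) (.e (nat_lit 19332) (nat_lit 0) .nil) .nil)))) 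
(.nd (nat_lit 9) 
(.lf (nat_lit 450906) (.g (nat_lit 4815) (.e (nat_lit 2600) (nat_lit 163) (.e (nat_lit 163977) (nat_lit 30) (.e (nat_lit 573485) (nat_lit 13) (.e (nat_lit 65619) (nat_lit 10) (.e (nat_lit 344117) (nat_lit 21) (.e (nat_lit 516151) (nat_lit 9) (.e (nat_lit 426104) (nat_lit 1) (.e (nat_lit 164345) (nat_lit 240) .nil)))))))) (.g (nat_lit 1) (.e (nat_lit 17725) (nat_lit 0) .nil) .nil))) 
(.lf (nat_lit 451418) (.g (nat_lit 3139) (.e (nat_lit 2610) (nat_lit 163) (.e (nat_lit 163978) (nat_lit 30) (.e (nat_lit 573484) (nat_lit 13) (.e (nat_lit 65610) (nat_lit 10) (.e (nat_lit 344117) (nat_lit 21) (.e (nat_lit 516159) (nat_lit 10) (.e (nat_lit 434212) (nat_lit 18) (.e (nat_lit 5548) (nat_lit 306) .nil)))))))) (.g (nat_lit 1) (.e (nat_lit 19644) (nat_lit 0) .nil) .nil))))) 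
(.nd (nat_lit 8) (.nd (nat_lit 9) 
(.lf (nat_lit 450778) (.g (nat_lit 569) (.e (nat_lit 2579) (nat_lit 161) (.e (nat_lit 40964) (nat_lit 0) (.e (nat_lit 1582) (nat_lit 111) (.e (nat_lit 368384) (nat_lit 11) (.e (nat_lit 581652) (nat_lit 5) (.e (nat_lit 180284) (nat_lit 45) .nil)))))) (.g (nat_lit 1) (.e (nat_lit 17021) (nat_lit 0) .nil) .nil))) 
(.lf (nat_lit 451290) (.g (nat_lit 4392) (.e (nat_lit 2610) (nat_lit 163) (.e (nat_lit 163977) (nat_lit 30) (.e (nat_lit 573493) (nat_lit 15) (.e (nat_lit 81954) (nat_lit 23) (.e (nat_lit 98365) (nat_lit 26) (.e (nat_lit 426107) (nat_lit 1) (.e (nat_lit 164347) (nat_lit 240) .nil))))))) (.g (nat_lit 1) (.e (nat_lit 19492) (nat_lit 0) .nil) .nil)))) (.nd (nat_lit 9) 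
(.lf (nat_lit 451034) (.g (nat_lit 2792) (.e (nat_lit 2606) (nat_lit 163) (.e (nat_lit 163978) (nat_lit 30) (.e (nat_lit 573489) (nat_lit 14) (.e (nat_lit 73754) (nat_lit 8) (.e (nat_lit 557101) (nat_lit 13) (.e (nat_lit 172066) (nat_lit 3) (.e (nat_lit 204830) (nat_lit 18) (.e (nat_lit 57663) (nat_lit 152) .nil)))))))) (.g (nat_lit 1) (.e (nat_lit 18674) (nat_lit 0) .nil) .nil))) 
(.lf (nat_lit 451546) (.g (nat_lit 5024) (.e (nat_lit 2610) (nat_lit 163) (.e (nat_lit 163979) (nat_lit 30) (.e (nat_lit 573482) (nat_lit 13) (.e (nat_lit 65604) (nat_lit 9) (.e (nat_lit 336013) (nat_lit 2) (.e (nat_lit 90170) (nat_lit 13) (.e (nat_lit 172059) (nat_lit 1) (.e (nat_lit 164347) (nat_lit 240) .nil)))))))) (.g (nat_lit 1) (.e (nat_lit 20138) (nat_lit 0) .nil) .nil))))))) 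
(.nd (nat_lit 6) (.nd (nat_lit 7) (.nd (nat_lit 8) (.nd (nat_lit 9) 
(.lf (nat_lit 450618) (.g (nat_lit 3375) (.e (nat_lit 2570) (nat_lit 160) (.e (nat_lit 32807) (nat_lit 18) (.e (nat_lit 172126) (nat_lit 14) (.e (nat_lit 491536) (nat_lit 2) (.e (nat_lit 90174) (nat_lit 14) (.e (nat_lit 180288) (nat_lit 45) .nil)))))) (.g (nat_lit 1) (.e (nat_lit 16644) (nat_lit 0) .nil) .nil))) 
(.lf (nat_lit 451130) (.g (nat_lit 4569) (.e (nat_lit 2610) (nat_lit 163) (.e (nat_lit 163977) (nat_lit 30) (.e (nat_lit 573482) (nat_lit 13) (.e (nat_lit 65619) (nat_lit 10) (.e (nat_lit 344117) (nat_lit 21) (.e (nat_lit 516151) (nat_lit 9) (.e (nat_lit 426104) (nat_lit 1) (.e (nat_lit 164345) (nat_lit 240) .nil)))))))) (.g (nat_lit 1) (.e (nat_lit 19300) (nat_lit 0) .nil) .nil)))) 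
(.nd (nat_lit 9) 
(.lf (nat_lit 450874) (.g (nat_lit 5018) (.e (nat_lit 2599) (nat_lit 163) (.e (nat_lit 163979) (nat_lit 30) (.e (nat_lit 573482) (nat_lit 13) (.e (nat_lit 65619) (nat_lit 10) (.e (nat_lit 344117) (nat_lit 21) (.e (nat_lit 516160) (nat_lit 10) (.e (nat_lit 434209) (nat_lit 18) (.e (nat_lit 5548) (nat_lit 306) .nil)))))))) (.g (nat_lit 1) (.e (nat_lit 17414) (nat_lit 0) .nil) .nil))) 
(.lf (nat_lit 451386) (.g (nat_lit 4465) (.e (nat_lit 2610) (nat_lit 163) (.e (nat_lit 163978) (nat_lit 30) (.e (nat_lit 573479) (nat_lit 13) (.e (nat_lit 65619) (nat_lit 10) (.e (nat_lit 344117) (nat_lit 21) (.e (nat_lit 516169) (nat_lit 13) (.e (nat_lit 458774) (nat_lit 18) (.e (nat_lit 5548) (nat_lit 306) .nil)))))))) (.g (nat_lit 1) (.e (nat_lit 19612) (nat_lit 0) .nil) .nil))))) 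
(.nd (nat_lit 8) (.nd (nat_lit 9) 
(.lf (nat_lit 450746) (.g (nat_lit 1956) (.e (nat_lit 2592) (nat_lit 162) (.e (nat_lit 49189) (nat_lit 11) (.e (nat_lit 16425) (nat_lit 7) (.e (nat_lit 409648) (nat_lit 18) (.e (nat_lit 303142) (nat_lit 12) .nil))))) (.g (nat_lit 0) (.e (nat_lit 16986) (nat_lit 0) .nil) .nil))) 
(.lf (nat_lit 451258) (.g (nat_lit 3572) (.e (nat_lit 2610) (nat_lit 163) (.e (nat_lit 163977) (nat_lit 30) (.e (nat_lit 573493) (nat_lit 15) (.e (nat_lit 81951) (nat_lit 22) (.e (nat_lit 90172) (nat_lit 14) (.e (nat_lit 180229) (nat_lit 0) (.e (nat_lit 5547) (nat_lit 306) .nil))))))) (.g (nat_lit 1) (.e (nat_lit 19453) (nat_lit 0) .nil) .nil)))) (.nd (nat_lit 9) 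
(.lf (nat_lit 451002) (.g (nat_lit 3995) (.e (nat_lit 2602) (nat_lit 163) (.e (nat_lit 163978) (nat_lit 30) (.e (nat_lit 573485) (nat_lit 13) (.e (nat_lit 65604) (nat_lit 9) (.e (nat_lit 336013) (nat_lit 2) (.e (nat_lit 90170) (nat_lit 13) (.e (nat_lit 172070) (nat_lit 4) (.e (nat_lit 229666) (nat_lit 240) .nil)))))))) (.g (nat_lit 1) (.e (nat_lit 18353) (nat_lit 0) .nil) .nil))) 
(.lf (nat_lit 451514) (.g (nat_lit 3440) (.e (nat_lit 2610) (nat_lit 163) (.e (nat_lit 163978) (nat_lit 30) (.e (nat_lit 573490) (nat_lit 15) (.e (nat_lit 81956) (nat_lit 23) (.e (nat_lit 98376) (nat_lit 30) (.e (nat_lit 458774) (nat_lit 18) (.e (nat_lit 5548) (nat_lit 306) .nil))))))) (.g (nat_lit 1) (.e (nat_lit 20040) (nat_lit 0) .nil) .nil)))))) 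
(.nd (nat_lit 7) (.nd (nat_lit 8) (.nd (nat_lit 9) 
(.lf (nat_lit 450682) (.g (nat_lit 2222) (.e (nat_lit 2571) (nat_lit 160) (.e (nat_lit 32809) (nat_lit 20) (.e (nat_lit 188420) (nat_lit 0) (.e (nat_lit 1856) (nat_lit 124) (.e (nat_lit 557104) (nat_lit 14) (.e (nat_lit 180284) (nat_lit 45) .nil)))))) (.g (nat_lit 1) (.e (nat_lit 16897) (nat_lit 0) .nil) .nil))) 
(.lf (nat_lit 451194) (.g (nat_lit 4300) (.e (nat_lit 2610) (nat_lit 163) (.e (nat_lit 163977) (nat_lit 30) (.e (nat_lit 573485) (nat_lit 13) (.e (nat_lit 65619) (nat_lit 10) (.e (nat_lit 344117) (nat_lit 21) (.e (nat_lit 516159) (nat_lit 10) (.e (nat_lit 434209) (nat_lit 18) (.e (nat_lit 5548) (nat_lit 306) .nil)))))))) (.g (nat_lit 1) (.e (nat_lit 19365) (nat_lit 0) .nil) .nil)))) 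
(.nd (nat_lit 9) 
(.lf (nat_lit 450938) (.g (nat_lit 3856) (.e (nat_lit 2601) (nat_lit 163) (.e (nat_lit 163977) (nat_lit 30) (.e (nat_lit 573482) (nat_lit 13) (.e (nat_lit 65604) (nat_lit 9) (.e (nat_lit 336013) (nat_lit 2) (.e (nat_lit 90170) (nat_lit 13) (.e (nat_lit 172046) (nat_lit 0) (.e (nat_lit 2458) (nat_lit 157) (.e (nat_lit 5548) (nat_lit 306) .nil))))))))) (.g (nat_lit 1) (.e (nat_lit 18004) (nat_lit 0) .nil) .nil))) 
(.lf (nat_lit 451450) (.g (nat_lit 2427) (.e (nat_lit 2610) (nat_lit 163) (.e (nat_lit 163978) (nat_lit 30) (.e (nat_lit 573485) (nat_lit 13) (.e (nat_lit 65604) (nat_lit 9) (.e (nat_lit 336028) (nat_lit 3) (.e (nat_lit 98359) (nat_lit 26) (.e (nat_lit 433920) (nat_lit 1) (.e (nat_lit 164348) (nat_lit 240) .nil)))))))) (.g (nat_lit 1) (.e (nat_lit 19687) (nat_lit 0) .nil) .nil))))) 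
(.nd (nat_lit 8) (.nd (nat_lit 9) 
(.lf (nat_lit 450810) (.g (nat_lit 4069) (.e (nat_lit 2599) (nat_lit 163) (.e (nat_lit 163976) (nat_lit 30) (.e (nat_lit 573481) (nat_lit 13) (.e (nat_lit 65619) (nat_lit 10) (.e (nat_lit 344117) (nat_lit 21) (.e (nat_lit 516151) (nat_lit 9) (.e (nat_lit 426042) (nat_lit 0) (.e (nat_lit 2458) (nat_lit 157) (.e (nat_lit 5546) (nat_lit 306) .nil))))))))) (.g (nat_lit 1) (.e (nat_lit 17245) (nat_lit 0) .nil) .nil))) 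
(.lf (nat_lit 451322) (.g (nat_lit 2707) (.e (nat_lit 2610) (nat_lit 163) (.e (nat_lit 163977) (nat_lit 30) (.e (nat_lit 573493) (nat_lit 15) (.e (nat_lit 81956) (nat_lit 23) (.e (nat_lit 98366) (nat_lit 27) (.e (nat_lit 434209) (nat_lit 18) (.e (nat_lit 5546) (nat_lit 306) .nil))))))) (.g (nat_lit 1) (.e (nat_lit 19532) (nat_lit 0) .nil) .nil)))) (.nd (nat_lit 9) 
(.lf (nat_lit 451066) (.g (nat_lit 3516) (.e (nat_lit 2606) (nat_lit 163) (.e (nat_lit 164396) (nat_lit 256) (.e (nat_lit 57371) (nat_lit 2) (.e (nat_lit 90174) (nat_lit 14) (.e (nat_lit 180243) (nat_lit 5) (.e (nat_lit 532515) (nat_lit 3) (.e (nat_lit 114716) (nat_lit 22) (.e (nat_lit 90129) (nat_lit 9) .nil)))))))) (.g (nat_lit 1) (.e (nat_lit 18723) (nat_lit 0) .nil) .nil))) 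
(.lf (nat_lit 451578) (.g (nat_lit 2044) (.e (nat_lit 2610) (nat_lit 163) (.e (nat_lit 163979) (nat_lit 30) (.e (nat_lit 573482) (nat_lit 13) (.e (nat_lit 65604) (nat_lit 9) (.e (nat_lit 336028) (nat_lit 3) (.e (nat_lit 98367) (nat_lit 27) (.e (nat_lit 434213) (nat_lit 18) (.e (nat_lit 5547) (nat_lit 306) .nil)))))))) (.g (nat_lit 1) (.e (nat_lit 20171) (nat_lit 0) .nil) .nil)))))))))) 
(.nd (nat_lit 3) (.nd (nat_lit 4) (.nd (nat_lit 5) (.nd (nat_lit 6) (.nd (nat_lit 7) 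
(.nd (nat_lit 8) (.nd (nat_lit 9) 
(.lf (nat_lit 450566) (.g (nat_lit 3013) (.e (nat_lit 2569) (nat_lit 160) (.e (nat_lit 32807) (nat_lit 18) (.e (nat_lit 172118) (nat_lit 12) (.e (nat_lit 475185) (nat_lit 29) (.e (nat_lit 557103) (nat_lit 14) (.e (nat_lit 180285) (nat_lit 45) .nil)))))) (.g (nat_lit 1) (.e (nat_lit 16468) (nat_lit 0) .nil) .nil))) 
(.lf (nat_lit 451078) (.g (nat_lit 2225) (.e (nat_lit 2607) (nat_lit 163) (.e (nat_lit 163979) (nat_lit 30) (.e (nat_lit 573482) (nat_lit 13) (.e (nat_lit 65619) (nat_lit 10) (.e (nat_lit 344117) (nat_lit 21) (.e (nat_lit 516151) (nat_lit 9) (.e (nat_lit 426097) (nat_lit 1) (.e (nat_lit 164346) (nat_lit 240) .nil)))))))) (.g (nat_lit 1) (.e (nat_lit 18816) (nat_lit 0) .nil) .nil)))) 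
(.nd (nat_lit 9) 
(.lf (nat_lit 450822) (.g (nat_lit 2575) (.e (nat_lit 2599) (nat_lit 163) (.e (nat_lit 163978) (nat_lit 30) (.e (nat_lit 573479) (nat_lit 13) (.e (nat_lit 65619) (nat_lit 10) (.e (nat_lit 344117) (nat_lit 21) (.e (nat_lit 516143) (nat_lit 9) (.e (nat_lit 426109) (nat_lit 1) (.e (nat_lit 164345) (nat_lit 240) .nil)))))))) (.g (nat_lit 1) (.e (nat_lit 17312) (nat_lit 0) .nil) .nil))) 
(.lf (nat_lit 451334) (.g (nat_lit 5138) (.e (nat_lit 2610) (nat_lit 163) (.e (nat_lit 163977) (nat_lit 30) (.e (nat_lit 573493) (nat_lit 15) (.e (nat_lit 81956) (nat_lit 23) (.e (nat_lit 98368) (nat_lit 27) (.e (nat_lit 434209) (nat_lit 18) (.e (nat_lit 5548) (nat_lit 306) .nil))))))) (.g (nat_lit 1) (.e (nat_lit 19544) (nat_lit 0) .nil) .nil))))) (.nd (nat_lit 8) (.nd (nat_lit 9) 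
(.lf (nat_lit 450694) (.g (nat_lit 3628) (.e (nat_lit 2587) (nat_lit 162) (.e (nat_lit 49189) (nat_lit 11) (.e (nat_lit 16425) (nat_lit 7) (.e (nat_lit 409647) (nat_lit 18) (.e (nat_lit 303143) (nat_lit 12) (.e (nat_lit 475198) (nat_lit 40) (.e (nat_lit 704790) (nat_lit 14) .nil))))))) (.g (nat_lit 1) (.e (nat_lit 16930) (nat_lit 0) .nil) .nil))) 
(.lf (nat_lit 451206) (.g (nat_lit 2895) (.e (nat_lit 2610) (nat_lit 163) (.e (nat_lit 163977) (nat_lit 30) (.e (nat_lit 573491) (nat_lit 15) (.e (nat_lit 81951) (nat_lit 22) (.e (nat_lit 90170) (nat_lit 13) (.e (nat_lit 172059) (nat_lit 1) (.e (nat_lit 164347) (nat_lit 240) .nil))))))) (.g (nat_lit 1) (.e (nat_lit 19379) (nat_lit 0) .nil) .nil)))) (.nd (nat_lit 9) 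
(.lf (nat_lit 450950) (.g (nat_lit 3739) (.e (nat_lit 2601) (nat_lit 163) (.e (nat_lit 163977) (nat_lit 30) (.e (nat_lit 573485) (nat_lit 13) (.e (nat_lit 65604) (nat_lit 9) (.e (nat_lit 336013) (nat_lit 2) (.e (nat_lit 90170) (nat_lit 13) (.e (nat_lit 172046) (nat_lit 0) (.e (nat_lit 2458) (nat_lit 157) (.e (nat_lit 5548) (nat_lit 306) .nil))))))))) (.g (nat_lit 1) (.e (nat_lit 18017) (nat_lit 0) .nil) .nil))) 
(.lf (nat_lit 451462) (.g (nat_lit 2013) (.e (nat_lit 2610) (nat_lit 163) (.e (nat_lit 163978) (nat_lit 30) (.e (nat_lit 573485) (nat_lit 13) (.e (nat_lit 65604) (nat_lit 9) (.e (nat_lit 336028) (nat_lit 3) (.e (nat_lit 98367) (nat_lit 27) (.e (nat_lit 434213) (nat_lit 18) (.e (nat_lit 5547) (nat_lit 306) .nil)))))))) (.g (nat_lit 1) (.e (nat_lit 19699) (nat_lit 0) .nil) .nil)))))) 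
(.nd (nat_lit 7) (.nd (nat_lit 8) (.nd (nat_lit 9) 
(.lf (nat_lit 450630) (.g (nat_lit 1916) (.e (nat_lit 2570) (nat_lit 160) (.e (nat_lit 32808) (nat_lit 19) (.e (nat_lit 180277) (nat_lit 32) (.e (nat_lit 1253) (nat_lit 92) (.e (nat_lit 98367) (nat_lit 27) (.e (nat_lit 434193) (nat_lit 13) .nil)))))) (.g (nat_lit 1) (.e (nat_lit 16662) (nat_lit 0) .nil) .nil))) 
(.lf (nat_lit 451142) (.g (nat_lit 3074) (.e (nat_lit 2610) (nat_lit 163) (.e (nat_lit 163977) (nat_lit 30) (.e (nat_lit 573482) (nat_lit 13) (.e (nat_lit 65619) (nat_lit 10) (.e (nat_lit 344117) (nat_lit 21) (.e (nat_lit 516171) (nat_lit 13) (.e (nat_lit 458774) (nat_lit 18) (.e (nat_lit 5548) (nat_lit 306) .nil)))))))) (.g (nat_lit 1) (.e (nat_lit 19312) (nat_lit 0) .nil) .nil)))) 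
(.nd (nat_lit 9) 
(.lf (nat_lit 450886) (.g (nat_lit 3796) (.e (nat_lit 2600) (nat_lit 163) (.e (nat_lit 163975) (nat_lit 30) (.e (nat_lit 573481) (nat_lit 13) (.e (nat_lit 65604) (nat_lit 9) (.e (nat_lit 336013) (nat_lit 2) (.e (nat_lit 90170) (nat_lit 13) (.e (nat_lit 172059) (nat_lit 1) (.e (nat_lit 164346) (nat_lit 240) .nil)))))))) (.g (nat_lit 1) (.e (nat_lit 17637) (nat_lit 0) .nil) .nil))) 
(.lf (nat_lit 451398) (.g (nat_lit 3681) (.e (nat_lit 2610) (nat_lit 163) (.e (nat_lit 163978) (nat_lit 30) (.e (nat_lit 573484) (nat_lit 13) (.e (nat_lit 65610) (nat_lit 10) (.e (nat_lit 344117) (nat_lit 21) (.e (nat_lit 516145) (nat_lit 9) (.e (nat_lit 433920) (nat_lit 1) (.e (nat_lit 164347) (nat_lit 240) .nil)))))))) (.g (nat_lit 1) (.e (nat_lit 19624) (nat_lit 0) .nil) .nil))))) 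
(.nd (nat_lit 8) (.nd (nat_lit 9) 
(.lf (nat_lit 450758) (.g (nat_lit 1694) (.e (nat_lit 2593) (nat_lit 162) (.e (nat_lit 49187) (nat_lit 11) (.e (nat_lit 16425) (nat_lit 7) (.e (nat_lit 409648) (nat_lit 18) (.e (nat_lit 303142) (nat_lit 12) (.e (nat_lit 475198) (nat_lit 40) (.e (nat_lit 704790) (nat_lit 14) .nil))))))) (.g (nat_lit 1) (.e (nat_lit 17000) (nat_lit 0) .nil) .nil))) 
(.lf (nat_lit 451270) (.g (nat_lit 2574) (.e (nat_lit 2610) (nat_lit 163) (.e (nat_lit 163977) (nat_lit 30) (.e (nat_lit 573493) (nat_lit 15) (.e (nat_lit 81953) (nat_lit 22) (.e (nat_lit 90170) (nat_lit 13) (.e (nat_lit 172061) (nat_lit 1) (.e (nat_lit 164346) (nat_lit 240) .nil))))))) (.g (nat_lit 1) (.e (nat_lit 19472) (nat_lit 0) .nil) .nil)))) (.nd (nat_lit 9) 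
(.lf (nat_lit 451014) (.g (nat_lit 2170) (.e (nat_lit 2603) (nat_lit 163) (.e (nat_lit 164398) (nat_lit 256) (.e (nat_lit 57372) (nat_lit 2) (.e (nat_lit 90174) (nat_lit 14) (.e (nat_lit 180243) (nat_lit 5) (.e (nat_lit 532515) (nat_lit 3) (.e (nat_lit 114716) (nat_lit 22) (.e (nat_lit 90129) (nat_lit 9) .nil)))))))) (.g (nat_lit 1) (.e (nat_lit 18499) (nat_lit 0) .nil) .nil))) 
(.lf (nat_lit 451526) (.g (nat_lit 861) (.e (nat_lit 2610) (nat_lit 163) (.e (nat_lit 163979) (nat_lit 30) (.e (nat_lit 573480) (nat_lit 13) .nil))) (.g (nat_lit 0) (.e (nat_lit 20117) (nat_lit 0) .nil) .nil))))))) (.nd (nat_lit 6) (.nd (nat_lit 7) (.nd (nat_lit 8) (.nd (nat_lit 9) 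
(.lf (nat_lit 450598) (.g (nat_lit 2807) (.e (nat_lit 2570) (nat_lit 160) (.e (nat_lit 32807) (nat_lit 18) (.e (nat_lit 172118) (nat_lit 12) (.e (nat_lit 475185) (nat_lit 29) (.e (nat_lit 557105) (nat_lit 14) (.e (nat_lit 180282) (nat_lit 45) .nil)))))) (.g (nat_lit 1) (.e (nat_lit 16599) (nat_lit 0) .nil) .nil))) 
(.lf (nat_lit 451110) (.g (nat_lit 3187) (.e (nat_lit 2610) (nat_lit 163) (.e (nat_lit 163977) (nat_lit 30) (.e (nat_lit 573482) (nat_lit 13) (.e (nat_lit 65604) (nat_lit 9) (.e (nat_lit 336028) (nat_lit 3) (.e (nat_lit 98354) (nat_lit 26) (.e (nat_lit 426109) (nat_lit 1) (.e (nat_lit 164347) (nat_lit 240) .nil)))))))) (.g (nat_lit 1) (.e (nat_lit 19280) (nat_lit 0) .nil) .nil)))) 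
(.nd (nat_lit 9) 
(.lf (nat_lit 450854) (.g (nat_lit 3850) (.e (nat_lit 2599) (nat_lit 163) (.e (nat_lit 163979) (nat_lit 30) (.e (nat_lit 573482) (nat_lit 13) (.e (nat_lit 65604) (nat_lit 9) (.e (nat_lit 336028) (nat_lit 3) (.e (nat_lit 98354) (nat_lit 26) (.e (nat_lit 426109) (nat_lit 1) (.e (nat_lit 164346) (nat_lit 240) .nil)))))))) (.g (nat_lit 1) (.e (nat_lit 17391) (nat_lit 0) .nil) .nil))) 
(.lf (nat_lit 451366) (.g (nat_lit 4624) (.e (nat_lit 2610) (nat_lit 163) (.e (nat_lit 163978) (nat_lit 30) (.e (nat_lit 573479) (nat_lit 13) (.e (nat_lit 65619) (nat_lit 10) (.e (nat_lit 344117) (nat_lit 21) (.e (nat_lit 516151) (nat_lit 9) (.e (nat_lit 426042) (nat_lit 0) (.e (nat_lit 2458) (nat_lit 157) (.e (nat_lit 5547) (nat_lit 306) .nil))))))))) (.g (nat_lit 1) (.e (nat_lit 19592) (nat_lit 0) .nil) .nil))))) 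
(.nd (nat_lit 8) (.nd (nat_lit 9) 
(.lf (nat_lit 450726) (.g (nat_lit 3554) (.e (nat_lit 2591) (nat_lit 162) (.e (nat_lit 49189) (nat_lit 11) (.e (nat_lit 16425) (nat_lit 7) (.e (nat_lit 409648) (nat_lit 18) (.e (nat_lit 303142) (nat_lit 12) (.e (nat_lit 475198) (nat_lit 40) (.e (nat_lit 704790) (nat_lit 14) .nil))))))) (.g (nat_lit 1) (.e (nat_lit 16963) (nat_lit 0) .nil) .nil))) 
(.lf (nat_lit 451238) (.g (nat_lit 2826) (.e (nat_lit 2610) (nat_lit 163) (.e (nat_lit 163977) (nat_lit 30) (.e (nat_lit 573492) (nat_lit 15) (.e (nat_lit 81956) (nat_lit 23) (.e (nat_lit 98354) (nat_lit 26) .nil))))) (.g (nat_lit 0) (.e (nat_lit 19430) (nat_lit 0) .nil) .nil)))) (.nd (nat_lit 9) 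
(.lf (nat_lit 450982) (.g (nat_lit 4018) (.e (nat_lit 2601) (nat_lit 163) (.e (nat_lit 163979) (nat_lit 30) (.e (nat_lit 573482) (nat_lit 13) (.e (nat_lit 65604) (nat_lit 9) (.e (nat_lit 336028) (nat_lit 3) (.e (nat_lit 98366) (nat_lit 27) (.e (nat_lit 434209) (nat_lit 18) (.e (nat_lit 5547) (nat_lit 306) .nil)))))))) (.g (nat_lit 1) (.e (nat_lit 18201) (nat_lit 0) .nil) .nil))) 
(.lf (nat_lit 451494) (.g (nat_lit 2278) (.e (nat_lit 2610) (nat_lit 163) (.e (nat_lit 163978) (nat_lit 30) (.e (nat_lit 573485) (nat_lit 13) (.e (nat_lit 65619) (nat_lit 10) (.e (nat_lit 344117) (nat_lit 21) (.e (nat_lit 516169) (nat_lit 13) (.e (nat_lit 458774) (nat_lit 18) (.e (nat_lit 5543) (nat_lit 306) .nil)))))))) (.g (nat_lit 1) (.e (nat_lit 19733) (nat_lit 0) .nil) .nil)))))) 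
(.nd (nat_lit 7) (.nd (nat_lit 8) (.nd (nat_lit 9) 
(.lf (nat_lit 450662) (.g (nat_lit 4042) (.e (nat_lit 2571) (nat_lit 160) (.e (nat_lit 32807) (nat_lit 18) (.e (nat_lit 172124) (nat_lit 14) (.e (nat_lit 491540) (nat_lit 3) (.e (nat_lit 98367) (nat_lit 27) (.e (nat_lit 434186) (nat_lit 13) .nil)))))) (.g (nat_lit 1) (.e (nat_lit 16858) (nat_lit 0) .nil) .nil))) 
(.lf (nat_lit 451174) (.g (nat_lit 3013) (.e (nat_lit 2610) (nat_lit 163) (.e (nat_lit 163977) (nat_lit 30) (.e (nat_lit 573485) (nat_lit 13) (.e (nat_lit 65604) (nat_lit 9) (.e (nat_lit 336028) (nat_lit 3) (.e (nat_lit 98359) (nat_lit 26) (.e (nat_lit 426097) (nat_lit 1) (.e (nat_lit 164347) (nat_lit 240) .nil)))))))) (.g (nat_lit 1) (.e (nat_lit 19345) (nat_lit 0) .nil) .nil)))) 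
(.nd (nat_lit 9) 
(.lf (nat_lit 450918) (.g (nat_lit 5663) (.e (nat_lit 2601) (nat_lit 163) (.e (nat_lit 163962) (nat_lit 25) (.e (nat_lit 532544) (nat_lit 10) (.e (nat_lit 344133) (nat_lit 26) (.e (nat_lit 557098) (nat_lit 13) (.e (nat_lit 172133) (nat_lit 15) (.e (nat_lit 1800) (nat_lit 119) (.e (nat_lit 516119) (nat_lit 1) (.e (nat_lit 164345) (nat_lit 240) .nil))))))))) (.g (nat_lit 1) (.e (nat_lit 17848) (nat_lit 0) .nil) .nil))) 
(.lf (nat_lit 451430) (.g (nat_lit 2000) (.e (nat_lit 2610) (nat_lit 163) (.e (nat_lit 163978) (nat_lit 30) (.e (nat_lit 573485) (nat_lit 13) (.e (nat_lit 65604) (nat_lit 9) (.e (nat_lit 336013) (nat_lit 2) (.e (nat_lit 90134) (nat_lit 9) (.e (nat_lit 2978) (nat_lit 185) (.e (nat_lit 434209) (nat_lit 18) (.e (nat_lit 5547) (nat_lit 306) .nil))))))))) (.g (nat_lit 1) (.e (nat_lit 19662) (nat_lit 0) .nil) .nil))))) 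
(.nd (nat_lit 8) (.nd (nat_lit 9) 
(.lf (nat_lit 450790) (.g (nat_lit 1251) (.e (nat_lit 2580) (nat_lit 161) (.e (nat_lit 40965) (nat_lit 0) (.e (nat_lit 1582) (nat_lit 111) (.e (nat_lit 360477) (nat_lit 11) (.e (nat_lit 581652) (nat_lit 5) (.e (nat_lit 180287) (nat_lit 45) .nil)))))) (.g (nat_lit 1) (.e (nat_lit 17033) (nat_lit 0) .nil) .nil))) 
(.lf (nat_lit 451302) (.g (nat_lit 3970) (.e (nat_lit 2610) (nat_lit 163) (.e (nat_lit 163977) (nat_lit 30) (.e (nat_lit 573493) (nat_lit 15) (.e (nat_lit 81956) (nat_lit 23) (.e (nat_lit 98356) (nat_lit 26) (.e (nat_lit 433920) (nat_lit 1) (.e (nat_lit 164348) (nat_lit 240) .nil))))))) (.g (nat_lit 1) (.e (nat_lit 19512) (nat_lit 0) .nil) .nil)))) (.nd (nat_lit 9) 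
(.lf (nat_lit 451046) (.g (nat_lit 4755) (.e (nat_lit 2606) (nat_lit 163) (.e (nat_lit 163978) (nat_lit 30) (.e (nat_lit 573489) (nat_lit 14) (.e (nat_lit 73755) (nat_lit 8) (.e (nat_lit 557103) (nat_lit 14) (.e (nat_lit 180244) (nat_lit 5) (.e (nat_lit 532503) (nat_lit 1) (.e (nat_lit 57661) (nat_lit 152) .nil)))))))) (.g (nat_lit 1) (.e (nat_lit 18686) (nat_lit 0) .nil) .nil))) 
(.lf (nat_lit 451558) (.g (nat_lit 3487) (.e (nat_lit 2610) (nat_lit 163) (.e (nat_lit 163979) (nat_lit 30) (.e (nat_lit 573482) (nat_lit 13) (.e (nat_lit 65604) (nat_lit 9) (.e (nat_lit 336028) (nat_lit 3) (.e (nat_lit 98359) (nat_lit 26) (.e (nat_lit 426103) (nat_lit 1) (.e (nat_lit 164348) (nat_lit 240) .nil)))))))) (.g (nat_lit 1) (.e (nat_lit 20151) (nat_lit 0) .nil) .nil)))))))) 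
(.nd (nat_lit 5) (.nd (nat_lit 6) (.nd (nat_lit 7) (.nd (nat_lit 8) (.nd (nat_lit 9) 
(.lf (nat_lit 450582) (.g (nat_lit 3200) (.e (nat_lit 2569) (nat_lit 160) (.e (nat_lit 32807) (nat_lit 18) (.e (nat_lit 172126) (nat_lit 14) (.e (nat_lit 491537) (nat_lit 2) (.e (nat_lit 90172) (nat_lit 14) (.e (nat_lit 180285) (nat_lit 45) .nil)))))) (.g (nat_lit 1) (.e (nat_lit 16492) (nat_lit 0) .nil) .nil))) 
(.lf (nat_lit 451094) (.g (nat_lit 3523) (.e (nat_lit 2609) (nat_lit 163) (.e (nat_lit 164402) (nat_lit 256) (.e (nat_lit 57373) (nat_lit 2) (.e (nat_lit 90174) (nat_lit 14) (.e (nat_lit 180243) (nat_lit 5) (.e (nat_lit 532515) (nat_lit 3) (.e (nat_lit 114716) (nat_lit 22) (.e (nat_lit 90137) (nat_lit 9) .nil)))))))) (.g (nat_lit 1) (.e (nat_lit 19247) (nat_lit 0) .nil) .nil)))) (.nd (nat_lit 9) 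
(.lf (nat_lit 450838) (.g (nat_lit 1926) (.e (nat_lit 2599) (nat_lit 163) (.e (nat_lit 163978) (nat_lit 30) (.e (nat_lit 573485) (nat_lit 13) (.e (nat_lit 65619) (nat_lit 10) (.e (nat_lit 344117) (nat_lit 21) .nil))))) (.g (nat_lit 0) (.e (nat_lit 17348) (nat_lit 0) .nil) .nil))) 
(.lf (nat_lit 451350) (.g (nat_lit 3031) (.e (nat_lit 2610) (nat_lit 163) (.e (nat_lit 163978) (nat_lit 30) (.e (nat_lit 573479) (nat_lit 13) (.e (nat_lit 65604) (nat_lit 9) (.e (nat_lit 336028) (nat_lit 3) (.e (nat_lit 98359) (nat_lit 26) (.e (nat_lit 426097) (nat_lit 1) (.e (nat_lit 164347) (nat_lit 240) .nil)))))))) (.g (nat_lit 1) (.e (nat_lit 19576) (nat_lit 0) .nil) .nil))))) 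
(.nd (nat_lit 8) (.nd (nat_lit 9) 
(.lf (nat_lit 450710) (.g (nat_lit 2506) (.e (nat_lit 2591) (nat_lit 162) (.e (nat_lit 49189) (nat_lit 11) (.e (nat_lit 16425) (nat_lit 7) (.e (nat_lit 409643) (nat_lit 18) (.e (nat_lit 303143) (nat_lit 12) (.e (nat_lit 475197) (nat_lit 40) (.e (nat_lit 704787) (nat_lit 14) .nil))))))) (.g (nat_lit 1) (.e (nat_lit 16947) (nat_lit 0) .nil) .nil))) 
(.lf (nat_lit 451222) (.g (nat_lit 2445) (.e (nat_lit 2610) (nat_lit 163) (.e (nat_lit 163977) (nat_lit 30) (.e (nat_lit 573491) (nat_lit 15) (.e (nat_lit 81954) (nat_lit 23) (.e (nat_lit 98359) (nat_lit 26) (.e (nat_lit 426097) (nat_lit 1) (.e (nat_lit 164345) (nat_lit 240) .nil))))))) (.g (nat_lit 1) (.e (nat_lit 19398) (nat_lit 0) .nil) .nil)))) (.nd (nat_lit 9) 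
(.lf (nat_lit 450966) (.g (nat_lit 2398) (.e (nat_lit 2601) (nat_lit 163) (.e (nat_lit 163978) (nat_lit 30) (.e (nat_lit 573485) (nat_lit 13) (.e (nat_lit 65619) (nat_lit 10) (.e (nat_lit 344117) (nat_lit 21) .nil))))) (.g (nat_lit 0) (.e (nat_lit 18168) (nat_lit 0) .nil) .nil))) 
(.lf (nat_lit 451478) (.g (nat_lit 4849) (.e (nat_lit 2610) (nat_lit 163) (.e (nat_lit 163978) (nat_lit 30) (.e (nat_lit 573485) (nat_lit 13) (.e (nat_lit 65619) (nat_lit 10) (.e (nat_lit 344117) (nat_lit 21) (.e (nat_lit 516151) (nat_lit 9) (.e (nat_lit 426104) (nat_lit 1) (.e (nat_lit 164347) (nat_lit 240) .nil)))))))) (.g (nat_lit 1) (.e (nat_lit 19717) (nat_lit 0) .nil) .nil)))))) 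
(.nd (nat_lit 7) (.nd (nat_lit 8) (.nd (nat_lit 9) 
(.lf (nat_lit 450646) (.g (nat_lit 3462) (.e (nat_lit 2571) (nat_lit 160) (.e (nat_lit 32807) (nat_lit 18) (.e (nat_lit 172119) (nat_lit 12) (.e (nat_lit 475185) (nat_lit 29) (.e (nat_lit 557103) (nat_lit 14) (.e (nat_lit 180288) (nat_lit 45) .nil)))))) (.g (nat_lit 1) (.e (nat_lit 16829) (nat_lit 0) .nil) .nil))) 
(.lf (nat_lit 451158) (.g (nat_lit 2737) (.e (nat_lit 2610) (nat_lit 163) (.e (nat_lit 163977) (nat_lit 30) (.e (nat_lit 573484) (nat_lit 13) (.e (nat_lit 65610) (nat_lit 10) (.e (nat_lit 344117) (nat_lit 21) (.e (nat_lit 516169) (nat_lit 13) (.e (nat_lit 458774) (nat_lit 18) (.e (nat_lit 5548) (nat_lit 306) .nil)))))))) (.g (nat_lit 1) (.e (nat_lit 19328) (nat_lit 0) .nil) .nil)))) 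
(.nd (nat_lit 9) 
(.lf (nat_lit 450902) (.g (nat_lit 3545) (.e (nat_lit 2600) (nat_lit 163) (.e (nat_lit 163977) (nat_lit 30) (.e (nat_lit 573482) (nat_lit 13) (.e (nat_lit 65619) (nat_lit 10) (.e (nat_lit 344117) (nat_lit 21) (.e (nat_lit 516170) (nat_lit 13) (.e (nat_lit 458774) (nat_lit 18) (.e (nat_lit 5546) (nat_lit 306) .nil)))))))) (.g (nat_lit 1) (.e (nat_lit 17717) (nat_lit 0) .nil) .nil))) 
(.lf (nat_lit 451414) (.g (nat_lit 3603) (.e (nat_lit 2610) (nat_lit 163) (.e (nat_lit 163978) (nat_lit 30) (.e (nat_lit 573484) (nat_lit 13) (.e (nat_lit 65610) (nat_lit 10) (.e (nat_lit 344117) (nat_lit 21) (.e (nat_lit 516159) (nat_lit 10) (.e (nat_lit 434202) (nat_lit 18) (.e (nat_lit 5537) (nat_lit 306) .nil)))))))) (.g (nat_lit 1) (.e (nat_lit 19640) (nat_lit 0) .nil) .nil))))) 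
(.nd (nat_lit 8) (.nd (nat_lit 9) 
(.lf (nat_lit 450774) (.g (nat_lit 3704) (.e (nat_lit 2577) (nat_lit 161) (.e (nat_lit 40996) (nat_lit 11) (.e (nat_lit 24658) (nat_lit 13) (.e (nat_lit 393260) (nat_lit 21) (.e (nat_lit 409616) (nat_lit 10) (.e (nat_lit 4926) (nat_lit 287) .nil)))))) (.g (nat_lit 1) (.e (nat_lit 17017) (nat_lit 0) .nil) .nil))) 
(.lf (nat_lit 451286) (.g (nat_lit 3767) (.e (nat_lit 2610) (nat_lit 163) (.e (nat_lit 163977) (nat_lit 30) (.e (nat_lit 573493) (nat_lit 15) (.e (nat_lit 81954) (nat_lit 23) (.e (nat_lit 98362) (nat_lit 26) .nil))))) (.g (nat_lit 0) (.e (nat_lit 19488) (nat_lit 0) .nil) .nil)))) (.nd (nat_lit 9) 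
(.lf (nat_lit 451030) (.g (nat_lit 1162) (.e (nat_lit 2605) (nat_lit 163) (.e (nat_lit 164327) (nat_lit 230) (.e (nat_lit 163886) (nat_lit 5) (.e (nat_lit 229120) (nat_lit 13) .nil)))) (.g (nat_lit 0) (.e (nat_lit 18646) (nat_lit 0) .nil) .nil))) 
(.lf (nat_lit 451542) (.g (nat_lit 4872) (.e (nat_lit 2610) (nat_lit 163) (.e (nat_lit 163979) (nat_lit 30) (.e (nat_lit 573482) (nat_lit 13) (.e (nat_lit 65604) (nat_lit 9) (.e (nat_lit 336013) (nat_lit 2) (.e (nat_lit 90170) (nat_lit 13) (.e (nat_lit 172046) (nat_lit 0) (.e (nat_lit 2458) (nat_lit 157) (.e (nat_lit 5546) (nat_lit 306) .nil))))))))) (.g (nat_lit 1) (.e (nat_lit 20134) (nat_lit 0) .nil) .nil))))))) 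
(.nd (nat_lit 6) (.nd (nat_lit 7) (.nd (nat_lit 8) (.nd (nat_lit 9) 
(.lf (nat_lit 450614) (.g (nat_lit 3054) (.e (nat_lit 2570) (nat_lit 160) (.e (nat_lit 32807) (nat_lit 18) (.e (nat_lit 172124) (nat_lit 14) (.e (nat_lit 491540) (nat_lit 3) (.e (nat_lit 98367) (nat_lit 27) (.e (nat_lit 434192) (nat_lit 13) .nil)))))) (.g (nat_lit 1) (.e (nat_lit 16632) (nat_lit 0) .nil) .nil))) 
(.lf (nat_lit 451126) (.g (nat_lit 3488) (.e (nat_lit 2610) (nat_lit 163) (.e (nat_lit 163977) (nat_lit 30) (.e (nat_lit 573482) (nat_lit 13) (.e (nat_lit 65619) (nat_lit 10) (.e (nat_lit 344117) (nat_lit 21) (.e (nat_lit 516143) (nat_lit 9) (.e (nat_lit 426109) (nat_lit 1) (.e (nat_lit 164347) (nat_lit 240) .nil)))))))) (.g (nat_lit 1) (.e (nat_lit 19296) (nat_lit 0) .nil) .nil)))) 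
(.nd (nat_lit 9) 
(.lf (nat_lit 450870) (.g (nat_lit 4687) (.e (nat_lit 2599) (nat_lit 163) (.e (nat_lit 163979) (nat_lit 30) (.e (nat_lit 573482) (nat_lit 13) (.e (nat_lit 65619) (nat_lit 10) (.e (nat_lit 344117) (nat_lit 21) (.e (nat_lit 516159) (nat_lit 10) (.e (nat_lit 434209) (nat_lit 18) (.e (nat_lit 5546) (nat_lit 306) .nil)))))))) (.g (nat_lit 1) (.e (nat_lit 17410) (nat_lit 0) .nil) .nil))) 
(.lf (nat_lit 451382) (.g (nat_lit 5467) (.e (nat_lit 2610) (nat_lit 163) (.e (nat_lit 163978) (nat_lit 30) (.e (nat_lit 573479) (nat_lit 13) (.e (nat_lit 65619) (nat_lit 10) (.e (nat_lit 344117) (nat_lit 21) (.e (nat_lit 516160) (nat_lit 10) (.e (nat_lit 434209) (nat_lit 18) (.e (nat_lit 5548) (nat_lit 306) .nil)))))))) (.g (nat_lit 1) (.e (nat_lit 19608) (nat_lit 0) .nil) .nil))))) 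
(.nd (nat_lit 8) (.nd (nat_lit 9) 
(.lf (nat_lit 450742) (.g (nat_lit 3704) (.e (nat_lit 2592) (nat_lit 162) (.e (nat_lit 49189) (nat_lit 11) (.e (nat_lit 16425) (nat_lit 7) (.e (nat_lit 409647) (nat_lit 18) (.e (nat_lit 303143) (nat_lit 12) (.e (nat_lit 475198) (nat_lit 40) (.e (nat_lit 704790) (nat_lit 14) .nil))))))) (.g (nat_lit 1) (.e (nat_lit 16982) (nat_lit 0) .nil) .nil))) 
(.lf (nat_lit 451254) (.g (nat_lit 3533) (.e (nat_lit 2610) (nat_lit 163) (.e (nat_lit 163977) (nat_lit 30) (.e (nat_lit 573493) (nat_lit 15) (.e (nat_lit 81951) (nat_lit 22) (.e (nat_lit 90170) (nat_lit 13) .nil))))) (.g (nat_lit 0) (.e (nat_lit 19449) (nat_lit 0) .nil) .nil)))) (.nd (nat_lit 9) 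
(.lf (nat_lit 450998) (.g (nat_lit 4514) (.e (nat_lit 2602) (nat_lit 163) (.e (nat_lit 163978) (nat_lit 30) (.e (nat_lit 573485) (nat_lit 13) (.e (nat_lit 65604) (nat_lit 9) (.e (nat_lit 336013) (nat_lit 2) (.e (nat_lit 90170) (nat_lit 13) (.e (nat_lit 172069) (nat_lit 4) (.e (nat_lit 229664) (nat_lit 240) .nil)))))))) (.g (nat_lit 1) (.e (nat_lit 18349) (nat_lit 0) .nil) .nil))) 
(.lf (nat_lit 451510) (.g (nat_lit 1715) (.e (nat_lit 2610) (nat_lit 163) (.e (nat_lit 163978) (nat_lit 30) (.e (nat_lit 573490) (nat_lit 15) (.e (nat_lit 81956) (nat_lit 23) .nil)))) (.g (nat_lit 0) (.e (nat_lit 20036) (nat_lit 0) .nil) .nil)))))) (.nd (nat_lit 7) (.nd (nat_lit 8) (.nd (nat_lit 9) 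
(.lf (nat_lit 450678) (.g (nat_lit 3034) (.e (nat_lit 2571) (nat_lit 160) (.e (nat_lit 32808) (nat_lit 19) (.e (nat_lit 180277) (nat_lit 32) (.e (nat_lit 1234) (nat_lit 91) (.e (nat_lit 90174) (nat_lit 14) (.e (nat_lit 180288) (nat_lit 45) .nil)))))) (.g (nat_lit 1) (.e (nat_lit 16892) (nat_lit 0) .nil) .nil))) 
(.lf (nat_lit 451190) (.g (nat_lit 4481) (.e (nat_lit 2610) (nat_lit 163) (.e (nat_lit 163977) (nat_lit 30) (.e (nat_lit 573485) (nat_lit 13) (.e (nat_lit 65619) (nat_lit 10) (.e (nat_lit 344117) (nat_lit 21) (.e (nat_lit 516151) (nat_lit 9) (.e (nat_lit 426104) (nat_lit 1) (.e (nat_lit 164345) (nat_lit 240) .nil)))))))) (.g (nat_lit 1) (.e (nat_lit 19361) (nat_lit 0) .nil) .nil)))) 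
(.nd (nat_lit 9) 
(.lf (nat_lit 450934) (.g (nat_lit 3817) (.e (nat_lit 2601) (nat_lit 163) (.e (nat_lit 163976) (nat_lit 30) (.e (nat_lit 573481) (nat_lit 13) (.e (nat_lit 65604) (nat_lit 9) (.e (nat_lit 336013) (nat_lit 2) (.e (nat_lit 90170) (nat_lit 13) (.e (nat_lit 172061) (nat_lit 1) (.e (nat_lit 164348) (nat_lit 240) .nil)))))))) (.g (nat_lit 1) (.e (nat_lit 17960) (nat_lit 0) .nil) .nil))) 
(.lf (nat_lit 451446) (.g (nat_lit 4559) (.e (nat_lit 2610) (nat_lit 163) (.e (nat_lit 163978) (nat_lit 30) (.e (nat_lit 573485) (nat_lit 13) (.e (nat_lit 65604) (nat_lit 9) (.e (nat_lit 336028) (nat_lit 3) (.e (nat_lit 98359) (nat_lit 26) (.e (nat_lit 426104) (nat_lit 1) (.e (nat_lit 164345) (nat_lit 240) .nil)))))))) (.g (nat_lit 1) (.e (nat_lit 19683) (nat_lit 0) .nil) .nil))))) 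
(.nd (nat_lit 8) (.nd (nat_lit 9) 
(.lf (nat_lit 450806) (.g (nat_lit 3498) (.e (nat_lit 2599) (nat_lit 163) (.e (nat_lit 163976) (nat_lit 30) (.e (nat_lit 573481) (nat_lit 13) (.e (nat_lit 65604) (nat_lit 9) (.e (nat_lit 336013) (nat_lit 2) (.e (nat_lit 90170) (nat_lit 13) (.e (nat_lit 172059) (nat_lit 1) (.e (nat_lit 164346) (nat_lit 240) .nil)))))))) (.g (nat_lit 1) (.e (nat_lit 17234) (nat_lit 0) .nil) .nil))) 
(.lf (nat_lit 451318) (.g (nat_lit 5818) (.e (nat_lit 2610) (nat_lit 163) (.e (nat_lit 163977) (nat_lit 30) (.e (nat_lit 573493) (nat_lit 15) (.e (nat_lit 81956) (nat_lit 23) (.e (nat_lit 98365) (nat_lit 26) (.e (nat_lit 426098) (nat_lit 1) (.e (nat_lit 164348) (nat_lit 240) .nil))))))) (.g (nat_lit 1) (.e (nat_lit 19528) (nat_lit 0) .nil) .nil)))) (.nd (nat_lit 9) 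
(.lf (nat_lit 451062) (.g (nat_lit 3918) (.e (nat_lit 2606) (nat_lit 163) (.e (nat_lit 163979) (nat_lit 30) (.e (nat_lit 573489) (nat_lit 14) (.e (nat_lit 73755) (nat_lit 8) (.e (nat_lit 557104) (nat_lit 14) (.e (nat_lit 180244) (nat_lit 5) (.e (nat_lit 532499) (nat_lit 1) (.e (nat_lit 57657) (nat_lit 152) .nil)))))))) (.g (nat_lit 1) (.e (nat_lit 18708) (nat_lit 0) .nil) .nil))) 
(.lf (nat_lit 451574) (.g (nat_lit 3838) (.e (nat_lit 2610) (nat_lit 163) (.e (nat_lit 163979) (nat_lit 30) (.e (nat_lit 573482) (nat_lit 13) (.e (nat_lit 65604) (nat_lit 9) (.e (nat_lit 336028) (nat_lit 3) (.e (nat_lit 98367) (nat_lit 27) (.e (nat_lit 434202) (nat_lit 18) (.e (nat_lit 5537) (nat_lit 306) .nil)))))))) (.g (nat_lit 1) (.e (nat_lit 20167) (nat_lit 0) .nil) .nil))))))))) 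
(.nd (nat_lit 4) (.nd (nat_lit 5) (.nd (nat_lit 6) (.nd (nat_lit 7) (.nd (nat_lit 8) 
(.nd (nat_lit 9) 
(.lf (nat_lit 450574) (.g (nat_lit 3251) (.e (nat_lit 2569) (nat_lit 160) (.e (nat_lit 32807) (nat_lit 18) (.e (nat_lit 172120) (nat_lit 12) (.e (nat_lit 475185) (nat_lit 29) (.e (nat_lit 557103) (nat_lit 14) (.e (nat_lit 180285) (nat_lit 45) .nil)))))) (.g (nat_lit 1) (.e (nat_lit 16476) (nat_lit 0) .nil) .nil))) 
(.lf (nat_lit 451086) (.g (nat_lit 2174) (.e (nat_lit 2607) (nat_lit 163) (.e (nat_lit 164403) (nat_lit 256) (.e (nat_lit 57371) (nat_lit 2) (.e (nat_lit 90174) (nat_lit 14) (.e (nat_lit 180243) (nat_lit 5) .nil))))) (.g (nat_lit 0) (.e (nat_lit 18999) (nat_lit 0) .nil) .nil)))) (.nd (nat_lit 9) 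
(.lf (nat_lit 450830) (.g (nat_lit 3195) (.e (nat_lit 2599) (nat_lit 163) (.e (nat_lit 163978) (nat_lit 30) (.e (nat_lit 573479) (nat_lit 13) (.e (nat_lit 65619) (nat_lit 10) (.e (nat_lit 344117) (nat_lit 21) (.e (nat_lit 516170) (nat_lit 13) (.e (nat_lit 458774) (nat_lit 18) (.e (nat_lit 5547) (nat_lit 306) .nil)))))))) (.g (nat_lit 1) (.e (nat_lit 17320) (nat_lit 0) .nil) .nil))) 
(.lf (nat_lit 451342) (.g (nat_lit 3554) (.e (nat_lit 2610) (nat_lit 163) (.e (nat_lit 163978) (nat_lit 30) (.e (nat_lit 573479) (nat_lit 13) (.e (nat_lit 65604) (nat_lit 9) (.e (nat_lit 336013) (nat_lit 2) (.e (nat_lit 90170) (nat_lit 13) (.e (nat_lit 172061) (nat_lit 1) (.e (nat_lit 164345) (nat_lit 240) .nil)))))))) (.g (nat_lit 1) (.e (nat_lit 19568) (nat_lit 0) .nil) .nil))))) 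
(.nd (nat_lit 8) (.nd (nat_lit 9) 
(.lf (nat_lit 450702) (.g (nat_lit 1956) (.e (nat_lit 2587) (nat_lit 162) (.e (nat_lit 49189) (nat_lit 11) (.e (nat_lit 16425) (nat_lit 7) (.e (nat_lit 409649) (nat_lit 18) (.e (nat_lit 303132) (nat_lit 9) .nil))))) (.g (nat_lit 0) (.e (nat_lit 16938) (nat_lit 0) .nil) .nil))) 
(.lf (nat_lit 451214) (.g (nat_lit 3012) (.e (nat_lit 2610) (nat_lit 163) (.e (nat_lit 163977) (nat_lit 30) (.e (nat_lit 573491) (nat_lit 15) (.e (nat_lit 81951) (nat_lit 22) (.e (nat_lit 90185) (nat_lit 17) (.e (nat_lit 237585) (nat_lit 1) (.e (nat_lit 164345) (nat_lit 240) .nil))))))) (.g (nat_lit 1) (.e (nat_lit 19390) (nat_lit 0) .nil) .nil)))) (.nd (nat_lit 9) 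
(.lf (nat_lit 450958) (.g (nat_lit 2474) (.e (nat_lit 2601) (nat_lit 163) (.e (nat_lit 163978) (nat_lit 30) (.e (nat_lit 573479) (nat_lit 13) (.e (nat_lit 65619) (nat_lit 10) (.e (nat_lit 344117) (nat_lit 21) (.e (nat_lit 516151) (nat_lit 9) (.e (nat_lit 426097) (nat_lit 1) (.e (nat_lit 164348) (nat_lit 240) .nil)))))))) (.g (nat_lit 1) (.e (nat_lit 18155) (nat_lit 0) .nil) .nil))) 
(.lf (nat_lit 451470) (.g (nat_lit 4327) (.e (nat_lit 2610) (nat_lit 163) (.e (nat_lit 163978) (nat_lit 30) (.e (nat_lit 573485) (nat_lit 13) (.e (nat_lit 65619) (nat_lit 10) (.e (nat_lit 344117) (nat_lit 21) (.e (nat_lit 516143) (nat_lit 9) (.e (nat_lit 426109) (nat_lit 1) (.e (nat_lit 164346) (nat_lit 240) .nil)))))))) (.g (nat_lit 1) (.e (nat_lit 19709) (nat_lit 0) .nil) .nil)))))) 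
(.nd (nat_lit 7) (.nd (nat_lit 8) (.nd (nat_lit 9) 
(.lf (nat_lit 450638) (.g (nat_lit 2312) (.e (nat_lit 2571) (nat_lit 160) (.e (nat_lit 32807) (nat_lit 18) (.e (nat_lit 172118) (nat_lit 12) (.e (nat_lit 475185) (nat_lit 29) (.e (nat_lit 557103) (nat_lit 14) (.e (nat_lit 180287) (nat_lit 45) .nil)))))) (.g (nat_lit 1) (.e (nat_lit 16821) (nat_lit 0) .nil) .nil))) 
(.lf (nat_lit 451150) (.g (nat_lit 3422) (.e (nat_lit 2610) (nat_lit 163) (.e (nat_lit 163977) (nat_lit 30) (.e (nat_lit 573484) (nat_lit 13) (.e (nat_lit 65610) (nat_lit 10) (.e (nat_lit 344117) (nat_lit 21) (.e (nat_lit 516151) (nat_lit 9) (.e (nat_lit 426104) (nat_lit 1) (.e (nat_lit 164345) (nat_lit 240) .nil)))))))) (.g (nat_lit 1) (.e (nat_lit 19320) (nat_lit 0) .nil) .nil)))) 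
(.nd (nat_lit 9) 
(.lf (nat_lit 450894) (.g (nat_lit 4543) (.e (nat_lit 2600) (nat_lit 163) (.e (nat_lit 163976) (nat_lit 30) (.e (nat_lit 573481) (nat_lit 13) (.e (nat_lit 65619) (nat_lit 10) (.e (nat_lit 344117) (nat_lit 21) (.e (nat_lit 516151) (nat_lit 9) (.e (nat_lit 426104) (nat_lit 1) (.e (nat_lit 164345) (nat_lit 240) .nil)))))))) (.g (nat_lit 1) (.e (nat_lit 17686) (nat_lit 0) .nil) .nil))) 
(.lf (nat_lit 451406) (.g (nat_lit 4983) (.e (nat_lit 2610) (nat_lit 163) (.e (nat_lit 163978) (nat_lit 30) (.e (nat_lit 573484) (nat_lit 13) (.e (nat_lit 65610) (nat_lit 10) (.e (nat_lit 344117) (nat_lit 21) (.e (nat_lit 516151) (nat_lit 9) (.e (nat_lit 426104) (nat_lit 1) (.e (nat_lit 164345) (nat_lit 240) .nil)))))))) (.g (nat_lit 1) (.e (nat_lit 19632) (nat_lit 0) .nil) .nil))))) 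
(.nd (nat_lit 8) (.nd (nat_lit 9) 
(.lf (nat_lit 450766) (.g (nat_lit 908) (.e (nat_lit 2576) (nat_lit 161) (.e (nat_lit 40996) (nat_lit 11) (.e (nat_lit 24629) (nat_lit 9) (.e (nat_lit 336438) (nat_lit 31) (.e (nat_lit 458769) (nat_lit 16) (.e (nat_lit 164269) (nat_lit 221) .nil)))))) (.g (nat_lit 1) (.e (nat_lit 17009) (nat_lit 0) .nil) .nil))) 
(.lf (nat_lit 451278) (.g (nat_lit 5156) (.e (nat_lit 2610) (nat_lit 163) (.e (nat_lit 163977) (nat_lit 30) (.e (nat_lit 573493) (nat_lit 15) (.e (nat_lit 81953) (nat_lit 22) (.e (nat_lit 90185) (nat_lit 17) (.e (nat_lit 237582) (nat_lit 1) (.e (nat_lit 164345) (nat_lit 240) .nil))))))) (.g (nat_lit 1) (.e (nat_lit 19480) (nat_lit 0) .nil) .nil)))) (.nd (nat_lit 9) 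
(.lf (nat_lit 451022) (.g (nat_lit 3772) (.e (nat_lit 2604) (nat_lit 163) (.e (nat_lit 163975) (nat_lit 30) (.e (nat_lit 573481) (nat_lit 13) (.e (nat_lit 65604) (nat_lit 9) (.e (nat_lit 336013) (nat_lit 2) (.e (nat_lit 90170) (nat_lit 13) (.e (nat_lit 172070) (nat_lit 4) (.e (nat_lit 229666) (nat_lit 240) .nil)))))))) (.g (nat_lit 1) (.e (nat_lit 18515) (nat_lit 0) .nil) .nil))) 
(.lf (nat_lit 451534) (.g (nat_lit 3153) (.e (nat_lit 2610) (nat_lit 163) (.e (nat_lit 163979) (nat_lit 30) (.e (nat_lit 573481) (nat_lit 13) (.e (nat_lit 65619) (nat_lit 10) (.e (nat_lit 344117) (nat_lit 21) (.e (nat_lit 516151) (nat_lit 9) (.e (nat_lit 426104) (nat_lit 1) (.e (nat_lit 164345) (nat_lit 240) .nil)))))))) (.g (nat_lit 1) (.e (nat_lit 20125) (nat_lit 0) .nil) .nil))))))) 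
(.nd (nat_lit 6) (.nd (nat_lit 7) (.nd (nat_lit 8) (.nd (nat_lit 9) 
(.lf (nat_lit 450606) (.g (nat_lit 3176) (.e (nat_lit 2570) (nat_lit 160) (.e (nat_lit 32807) (nat_lit 18) (.e (nat_lit 172120) (nat_lit 12) (.e (nat_lit 475185) (nat_lit 29) (.e (nat_lit 557103) (nat_lit 14) (.e (nat_lit 180288) (nat_lit 45) .nil)))))) (.g (nat_lit 1) (.e (nat_lit 16607) (nat_lit 0) .nil) .nil))) 
(.lf (nat_lit 451118) (.g (nat_lit 2631) (.e (nat_lit 2610) (nat_lit 163) (.e (nat_lit 163977) (nat_lit 30) (.e (nat_lit 573482) (nat_lit 13) (.e (nat_lit 65604) (nat_lit 9) (.e (nat_lit 336028) (nat_lit 3) (.e (nat_lit 98366) (nat_lit 27) (.e (nat_lit 434209) (nat_lit 18) (.e (nat_lit 5546) (nat_lit 306) .nil)))))))) (.g (nat_lit 1) (.e (nat_lit 19288) (nat_lit 0) .nil) .nil)))) (.nd (nat_lit 9) 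
(.lf (nat_lit 450862) (.g (nat_lit 4871) (.e (nat_lit 2599) (nat_lit 163) (.e (nat_lit 163979) (nat_lit 30) (.e (nat_lit 573482) (nat_lit 13) (.e (nat_lit 65604) (nat_lit 9) (.e (nat_lit 336028) (nat_lit 3) (.e (nat_lit 98367) (nat_lit 27) (.e (nat_lit 434209) (nat_lit 18) (.e (nat_lit 5546) (nat_lit 306) .nil)))))))) (.g (nat_lit 1) (.e (nat_lit 17402) (nat_lit 0) .nil) .nil))) 
(.lf (nat_lit 451374) (.g (nat_lit 2739) (.e (nat_lit 2610) (nat_lit 163) (.e (nat_lit 163978) (nat_lit 30) (.e (nat_lit 573479) (nat_lit 13) (.e (nat_lit 65619) (nat_lit 10) (.e (nat_lit 344117) (nat_lit 21) (.e (nat_lit 516153) (nat_lit 9) (.e (nat_lit 426109) (nat_lit 1) (.e (nat_lit 164345) (nat_lit 240) .nil)))))))) (.g (nat_lit 1) (.e (nat_lit 19600) (nat_lit 0) .nil) .nil))))) 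
(.nd (nat_lit 8) (.nd (nat_lit 9) 
(.lf (nat_lit 450734) (.g (nat_lit 3236) (.e (nat_lit 2591) (nat_lit 162) (.e (nat_lit 49189) (nat_lit 11) (.e (nat_lit 16425) (nat_lit 7) (.e (nat_lit 409649) (nat_lit 18) (.e (nat_lit 303143) (nat_lit 12) (.e (nat_lit 475199) (nat_lit 40) (.e (nat_lit 704836) (nat_lit 14) .nil))))))) (.g (nat_lit 1) (.e (nat_lit 16971) (nat_lit 0) .nil) .nil))) 
(.lf (nat_lit 451246) (.g (nat_lit 4757) (.e (nat_lit 2610) (nat_lit 163) (.e (nat_lit 163977) (nat_lit 30) (.e (nat_lit 573492) (nat_lit 15) (.e (nat_lit 81956) (nat_lit 23) (.e (nat_lit 98365) (nat_lit 26) (.e (nat_lit 426107) (nat_lit 1) (.e (nat_lit 164347) (nat_lit 240) .nil))))))) (.g (nat_lit 1) (.e (nat_lit 19438) (nat_lit 0) .nil) .nil)))) (.nd (nat_lit 9) 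
(.lf (nat_lit 450990) (.g (nat_lit 4326) (.e (nat_lit 2601) (nat_lit 163) (.e (nat_lit 163979) (nat_lit 30) (.e (nat_lit 573482) (nat_lit 13) (.e (nat_lit 65619) (nat_lit 10) (.e (nat_lit 344117) (nat_lit 21) (.e (nat_lit 516170) (nat_lit 13) (.e (nat_lit 458774) (nat_lit 18) (.e (nat_lit 5547) (nat_lit 306) .nil)))))))) (.g (nat_lit 1) (.e (nat_lit 18209) (nat_lit 0) .nil) .nil))) 
(.lf (nat_lit 451502) (.g (nat_lit 3944) (.e (nat_lit 2610) (nat_lit 163) (.e (nat_lit 163978) (nat_lit 30) (.e (nat_lit 573485) (nat_lit 13) (.e (nat_lit 65619) (nat_lit 10) (.e (nat_lit 344117) (nat_lit 21) (.e (nat_lit 516171) (nat_lit 13) (.e (nat_lit 458774) (nat_lit 18) (.e (nat_lit 5547) (nat_lit 306) .nil)))))))) (.g (nat_lit 1) (.e (nat_lit 19741) (nat_lit 0) .nil) .nil)))))) 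
(.nd (nat_lit 7) (.nd (nat_lit 8) (.nd (nat_lit 9) 
(.lf (nat_lit 450670) (.g (nat_lit 2360) (.e (nat_lit 2571) (nat_lit 160) (.e (nat_lit 32807) (nat_lit 18) (.e (nat_lit 172126) (nat_lit 14) (.e (nat_lit 491539) (nat_lit 3) (.e (nat_lit 98366) (nat_lit 27) .nil))))) (.g (nat_lit 0) (.e (nat_lit 16882) (nat_lit 0) .nil) .nil))) 
(.lf (nat_lit 451182) (.g (nat_lit 2681) (.e (nat_lit 2610) (nat_lit 163) (.e (nat_lit 163977) (nat_lit 30) (.e (nat_lit 573485) (nat_lit 13) (.e (nat_lit 65604) (nat_lit 9) (.e (nat_lit 336028) (nat_lit 3) (.e (nat_lit 98367) (nat_lit 27) (.e (nat_lit 434209) (nat_lit 18) (.e (nat_lit 5546) (nat_lit 306) .nil)))))))) (.g (nat_lit 1) (.e (nat_lit 19353) (nat_lit 0) .nil) .nil)))) (.nd (nat_lit 9) 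
(.lf (nat_lit 450926) (.g (nat_lit 4045) (.e (nat_lit 2601) (nat_lit 163) (.e (nat_lit 163975) (nat_lit 30) (.e (nat_lit 573481) (nat_lit 13) (.e (nat_lit 65619) (nat_lit 10) (.e (nat_lit 344117) (nat_lit 21) (.e (nat_lit 516143) (nat_lit 9) (.e (nat_lit 426109) (nat_lit 1) (.e (nat_lit 164347) (nat_lit 240) .nil)))))))) (.g (nat_lit 1) (.e (nat_lit 17875) (nat_lit 0) .nil) .nil))) 
(.lf (nat_lit 451438) (.g (nat_lit 4428) (.e (nat_lit 2610) (nat_lit 163) (.e (nat_lit 163978) (nat_lit 30) (.e (nat_lit 573485) (nat_lit 13) (.e (nat_lit 65604) (nat_lit 9) (.e (nat_lit 336013) (nat_lit 2) (.e (nat_lit 90170) (nat_lit 13) (.e (nat_lit 172061) (nat_lit 1) (.e (nat_lit 164346) (nat_lit 240) .nil)))))))) (.g (nat_lit 1) (.e (nat_lit 19670) (nat_lit 0) .nil) .nil))))) 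
(.nd (nat_lit 8) (.nd (nat_lit 9) 
(.lf (nat_lit 450798) (.g (nat_lit 1796) (.e (nat_lit 2598) (nat_lit 163) (.e (nat_lit 164398) (nat_lit 256) (.e (nat_lit 57373) (nat_lit 2) (.e (nat_lit 90174) (nat_lit 14) (.e (nat_lit 180243) (nat_lit 5) (.e (nat_lit 532515) (nat_lit 3) (.e (nat_lit 114716) (nat_lit 22) (.e (nat_lit 90137) (nat_lit 9) .nil)))))))) (.g (nat_lit 1) (.e (nat_lit 17192) (nat_lit 0) .nil) .nil))) 
(.lf (nat_lit 451310) (.g (nat_lit 4014) (.e (nat_lit 2610) (nat_lit 163) (.e (nat_lit 163977) (nat_lit 30) (.e (nat_lit 573493) (nat_lit 15) (.e (nat_lit 81956) (nat_lit 23) (.e (nat_lit 98360) (nat_lit 26) (.e (nat_lit 426109) (nat_lit 1) (.e (nat_lit 164345) (nat_lit 240) .nil))))))) (.g (nat_lit 1) (.e (nat_lit 19520) (nat_lit 0) .nil) .nil)))) (.nd (nat_lit 9) 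
(.lf (nat_lit 451054) (.g (nat_lit 2421) (.e (nat_lit 2606) (nat_lit 163) (.e (nat_lit 163978) (nat_lit 30) (.e (nat_lit 573489) (nat_lit 14) (.e (nat_lit 73755) (nat_lit 8) (.e (nat_lit 557105) (nat_lit 14) (.e (nat_lit 180245) (nat_lit 5) (.e (nat_lit 532499) (nat_lit 1) (.e (nat_lit 57661) (nat_lit 152) .nil)))))))) (.g (nat_lit 1) (.e (nat_lit 18694) (nat_lit 0) .nil) .nil))) 
(.lf (nat_lit 451566) (.g (nat_lit 3384) (.e (nat_lit 2610) (nat_lit 163) (.e (nat_lit 163979) (nat_lit 30) (.e (nat_lit 573482) (nat_lit 13) (.e (nat_lit 65604) (nat_lit 9) (.e (nat_lit 336028) (nat_lit 3) (.e (nat_lit 98363) (nat_lit 26) (.e (nat_lit 426110) (nat_lit 1) (.e (nat_lit 164348) (nat_lit 240) .nil)))))))) (.g (nat_lit 1) (.e (nat_lit 20159) (nat_lit 0) .nil) .nil)))))))) 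
(.nd (nat_lit 5) (.nd (nat_lit 6) (.nd (nat_lit 7) (.nd (nat_lit 8) (.nd (nat_lit 9) 
(.lf (nat_lit 450590) (.g (nat_lit 2583) (.e (nat_lit 2569) (nat_lit 160) (.e (nat_lit 32809) (nat_lit 20) (.e (nat_lit 188420) (nat_lit 0) (.e (nat_lit 1856) (nat_lit 124) (.e (nat_lit 557103) (nat_lit 14) (.e (nat_lit 180285) (nat_lit 45) .nil)))))) (.g (nat_lit 1) (.e (nat_lit 16502) (nat_lit 0) .nil) .nil))) 
(.lf (nat_lit 451102) (.g (nat_lit 3565) (.e (nat_lit 2610) (nat_lit 163) (.e (nat_lit 163977) (nat_lit 30) (.e (nat_lit 573482) (nat_lit 13) (.e (nat_lit 65604) (nat_lit 9) (.e (nat_lit 336013) (nat_lit 2) (.e (nat_lit 90170) (nat_lit 13) (.e (nat_lit 172059) (nat_lit 1) (.e (nat_lit 164345) (nat_lit 240) .nil)))))))) (.g (nat_lit 1) (.e (nat_lit 19272) (nat_lit 0) .nil) .nil)))) 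
(.nd (nat_lit 9) 
(.lf (nat_lit 450846) (.g (nat_lit 4875) (.e (nat_lit 2599) (nat_lit 163) (.e (nat_lit 163978) (nat_lit 30) (.e (nat_lit 573485) (nat_lit 13) (.e (nat_lit 65619) (nat_lit 10) (.e (nat_lit 344117) (nat_lit 21) (.e (nat_lit 516160) (nat_lit 10) (.e (nat_lit 434209) (nat_lit 18) (.e (nat_lit 5546) (nat_lit 306) .nil)))))))) (.g (nat_lit 1) (.e (nat_lit 17356) (nat_lit 0) .nil) .nil))) 
(.lf (nat_lit 451358) (.g (nat_lit 1885) (.e (nat_lit 2610) (nat_lit 163) (.e (nat_lit 163978) (nat_lit 30) (.e (nat_lit 573479) (nat_lit 13) (.e (nat_lit 65610) (nat_lit 10) .nil)))) (.g (nat_lit 0) (.e (nat_lit 19584) (nat_lit 0) .nil) .nil))))) (.nd (nat_lit 8) (.nd (nat_lit 9) 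
(.lf (nat_lit 450718) (.g (nat_lit 3584) (.e (nat_lit 2591) (nat_lit 162) (.e (nat_lit 49189) (nat_lit 11) (.e (nat_lit 16425) (nat_lit 7) (.e (nat_lit 409647) (nat_lit 18) (.e (nat_lit 303143) (nat_lit 12) (.e (nat_lit 475198) (nat_lit 40) (.e (nat_lit 704790) (nat_lit 14) .nil))))))) (.g (nat_lit 1) (.e (nat_lit 16955) (nat_lit 0) .nil) .nil))) 
(.lf (nat_lit 451230) (.g (nat_lit 2972) (.e (nat_lit 2610) (nat_lit 163) (.e (nat_lit 163977) (nat_lit 30) (.e (nat_lit 573491) (nat_lit 15) (.e (nat_lit 81954) (nat_lit 23) (.e (nat_lit 98366) (nat_lit 27) (.e (nat_lit 434209) (nat_lit 18) (.e (nat_lit 5547) (nat_lit 306) .nil))))))) (.g (nat_lit 1) (.e (nat_lit 19406) (nat_lit 0) .nil) .nil)))) (.nd (nat_lit 9) 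
(.lf (nat_lit 450974) (.g (nat_lit 1959) (.e (nat_lit 2601) (nat_lit 163) (.e (nat_lit 163979) (nat_lit 30) (.e (nat_lit 573482) (nat_lit 13) (.e (nat_lit 65604) (nat_lit 9) (.e (nat_lit 336028) (nat_lit 3) .nil))))) (.g (nat_lit 0) (.e (nat_lit 18192) (nat_lit 0) .nil) .nil))) 
(.lf (nat_lit 451486) (.g (nat_lit 2781) (.e (nat_lit 2610) (nat_lit 163) (.e (nat_lit 163978) (nat_lit 30) (.e (nat_lit 573485) (nat_lit 13) (.e (nat_lit 65619) (nat_lit 10) (.e (nat_lit 344117) (nat_lit 21) (.e (nat_lit 524032) (nat_lit 9) (.e (nat_lit 426107) (nat_lit 1) (.e (nat_lit 164347) (nat_lit 240) .nil)))))))) (.g (nat_lit 1) (.e (nat_lit 19725) (nat_lit 0) .nil) .nil)))))) 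
(.nd (nat_lit 7) (.nd (nat_lit 8) (.nd (nat_lit 9) 
(.lf (nat_lit 450654) (.g (nat_lit 2682) (.e (nat_lit 2571) (nat_lit 160) (.e (nat_lit 32807) (nat_lit 18) (.e (nat_lit 172120) (nat_lit 12) (.e (nat_lit 475185) (nat_lit 29) (.e (nat_lit 557105) (nat_lit 14) (.e (nat_lit 180285) (nat_lit 45) .nil)))))) (.g (nat_lit 1) (.e (nat_lit 16837) (nat_lit 0) .nil) .nil))) 
(.lf (nat_lit 451166) (.g (nat_lit 3343) (.e (nat_lit 2610) (nat_lit 163) (.e (nat_lit 163977) (nat_lit 30) (.e (nat_lit 573485) (nat_lit 13) (.e (nat_lit 65604) (nat_lit 9) (.e (nat_lit 336013) (nat_lit 2) (.e (nat_lit 90170) (nat_lit 13) (.e (nat_lit 172061) (nat_lit 1) (.e (nat_lit 164345) (nat_lit 240) .nil)))))))) (.g (nat_lit 1) (.e (nat_lit 19336) (nat_lit 0) .nil) .nil)))) 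
(.nd (nat_lit 9) 
(.lf (nat_lit 450910) (.g (nat_lit 2653) (.e (nat_lit 2600) (nat_lit 163) (.e (nat_lit 163978) (nat_lit 30) (.e (nat_lit 573485) (nat_lit 13) (.e (nat_lit 65619) (nat_lit 10) (.e (nat_lit 344117) (nat_lit 21) .nil))))) (.g (nat_lit 0) (.e (nat_lit 17819) (nat_lit 0) .nil) .nil))) 
(.lf (nat_lit 451422) (.g (nat_lit 2348) (.e (nat_lit 2610) (nat_lit 163) (.e (nat_lit 163978) (nat_lit 30) (.e (nat_lit 573484) (nat_lit 13) (.e (nat_lit 65610) (nat_lit 10) (.e (nat_lit 344117) (nat_lit 21) (.e (nat_lit 516160) (nat_lit 10) (.e (nat_lit 434213) (nat_lit 18) (.e (nat_lit 5548) (nat_lit 306) .nil)))))))) (.g (nat_lit 1) (.e (nat_lit 19648) (nat_lit 0) .nil) .nil))))) 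
(.nd (nat_lit 8) (.nd (nat_lit 9) 
(.lf (nat_lit 450782) (.g (nat_lit 149) (.e (nat_lit 2579) (nat_lit 161) (.e (nat_lit 40965) (nat_lit 0) (.e (nat_lit 1591) (nat_lit 111) .nil))) (.g (nat_lit 0) (.e (nat_lit 17025) (nat_lit 0) .nil) .nil))) 
(.lf (nat_lit 451294) (.g (nat_lit 3512) (.e (nat_lit 2610) (nat_lit 163) (.e (nat_lit 163977) (nat_lit 30) (.e (nat_lit 573493) (nat_lit 15) (.e (nat_lit 81954) (nat_lit 23) (.e (nat_lit 98367) (nat_lit 27) .nil))))) (.g (nat_lit 0) (.e (nat_lit 19496) (nat_lit 0) .nil) .nil)))) (.nd (nat_lit 9) 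
(.lf (nat_lit 451038) (.g (nat_lit 3120) (.e (nat_lit 2606) (nat_lit 163) (.e (nat_lit 163978) (nat_lit 30) (.e (nat_lit 573489) (nat_lit 14) (.e (nat_lit 73755) (nat_lit 8) (.e (nat_lit 557098) (nat_lit 13) (.e (nat_lit 172066) (nat_lit 3) (.e (nat_lit 204829) (nat_lit 18) (.e (nat_lit 57664) (nat_lit 152) .nil)))))))) (.g (nat_lit 1) (.e (nat_lit 18678) (nat_lit 0) .nil) .nil))) 
(.lf (nat_lit 451550) (.g (nat_lit 4157) (.e (nat_lit 2610) (nat_lit 163) (.e (nat_lit 163979) (nat_lit 30) (.e (nat_lit 573482) (nat_lit 13) (.e (nat_lit 65604) (nat_lit 9) (.e (nat_lit 336028) (nat_lit 3) (.e (nat_lit 98354) (nat_lit 26) (.e (nat_lit 426109) (nat_lit 1) (.e (nat_lit 164346) (nat_lit 240) .nil)))))))) (.g (nat_lit 1) (.e (nat_lit 20143) (nat_lit 0) .nil) .nil))))))) 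
(.nd (nat_lit 6) (.nd (nat_lit 7) (.nd (nat_lit 8) (.nd (nat_lit 9) 
(.lf (nat_lit 450622) (.g (nat_lit 3009) (.e (nat_lit 2570) (nat_lit 160) (.e (nat_lit 32807) (nat_lit 18) (.e (nat_lit 172126) (nat_lit 14) (.e (nat_lit 491539) (nat_lit 3) (.e (nat_lit 98367) (nat_lit 27) (.e (nat_lit 434192) (nat_lit 13) .nil)))))) (.g (nat_lit 1) (.e (nat_lit 16652) (nat_lit 0) .nil) .nil))) 
(.lf (nat_lit 451134) (.g (nat_lit 4366) (.e (nat_lit 2610) (nat_lit 163) (.e (nat_lit 163977) (nat_lit 30) (.e (nat_lit 573482) (nat_lit 13) (.e (nat_lit 65619) (nat_lit 10) (.e (nat_lit 344117) (nat_lit 21) (.e (nat_lit 516159) (nat_lit 10) (.e (nat_lit 434209) (nat_lit 18) (.e (nat_lit 5548) (nat_lit 306) .nil)))))))) (.g (nat_lit 1) (.e (nat_lit 19304) (nat_lit 0) .nil) .nil)))) 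
(.nd (nat_lit 9) 
(.lf (nat_lit 450878) (.g (nat_lit 3904) (.e (nat_lit 2599) (nat_lit 163) (.e (nat_lit 164398) (nat_lit 256) (.e (nat_lit 57373) (nat_lit 2) (.e (nat_lit 90174) (nat_lit 14) (.e (nat_lit 180243) (nat_lit 5) (.e (nat_lit 532515) (nat_lit 3) (.e (nat_lit 114716) (nat_lit 22) (.e (nat_lit 90137) (nat_lit 9) .nil)))))))) (.g (nat_lit 1) (.e (nat_lit 17628) (nat_lit 0) .nil) .nil))) 
(.lf (nat_lit 451390) (.g (nat_lit 4072) (.e (nat_lit 2610) (nat_lit 163) (.e (nat_lit 163978) (nat_lit 30) (.e (nat_lit 573479) (nat_lit 13) (.e (nat_lit 65619) (nat_lit 10) (.e (nat_lit 344117) (nat_lit 21) (.e (nat_lit 516171) (nat_lit 13) (.e (nat_lit 458774) (nat_lit 18) (.e (nat_lit 5548) (nat_lit 306) .nil)))))))) (.g (nat_lit 1) (.e (nat_lit 19616) (nat_lit 0) .nil) .nil))))) 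
(.nd (nat_lit 8) (.nd (nat_lit 9) 
(.lf (nat_lit 450750) (.g (nat_lit 3121) (.e (nat_lit 2592) (nat_lit 162) (.e (nat_lit 49189) (nat_lit 11) (.e (nat_lit 16425) (nat_lit 7) (.e (nat_lit 409648) (nat_lit 18) (.e (nat_lit 303142) (nat_lit 12) (.e (nat_lit 475199) (nat_lit 40) (.e (nat_lit 704790) (nat_lit 14) .nil))))))) (.g (nat_lit 1) (.e (nat_lit 16990) (nat_lit 0) .nil) .nil))) 
(.lf (nat_lit 451262) (.g (nat_lit 3930) (.e (nat_lit 2610) (nat_lit 163) (.e (nat_lit 163977) (nat_lit 30) (.e (nat_lit 573493) (nat_lit 15) (.e (nat_lit 81953) (nat_lit 22) (.e (nat_lit 90170) (nat_lit 13) (.e (nat_lit 172046) (nat_lit 0) (.e (nat_lit 2458) (nat_lit 157) (.e (nat_lit 5547) (nat_lit 306) .nil)))))))) (.g (nat_lit 1) (.e (nat_lit 19464) (nat_lit 0) .nil) .nil)))) (.nd (nat_lit 9) 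
(.lf (nat_lit 451006) (.g (nat_lit 3876) (.e (nat_lit 2602) (nat_lit 163) (.e (nat_lit 163979) (nat_lit 30) (.e (nat_lit 573482) (nat_lit 13) (.e (nat_lit 65604) (nat_lit 9) (.e (nat_lit 336013) (nat_lit 2) (.e (nat_lit 90170) (nat_lit 13) (.e (nat_lit 172069) (nat_lit 4) (.e (nat_lit 229663) (nat_lit 240) .nil)))))))) (.g (nat_lit 1) (.e (nat_lit 18398) (nat_lit 0) .nil) .nil))) 
(.lf (nat_lit 451518) (.g (nat_lit 627) (.e (nat_lit 2610) (nat_lit 163) (.e (nat_lit 163978) (nat_lit 30) (.e (nat_lit 573493) (nat_lit 15) .nil))) (.g (nat_lit 0) (.e (nat_lit 20051) (nat_lit 0) .nil) .nil)))))) (.nd (nat_lit 7) (.nd (nat_lit 8) (.nd (nat_lit 9) 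
(.lf (nat_lit 450686) (.g (nat_lit 3306) (.e (nat_lit 2587) (nat_lit 162) (.e (nat_lit 49189) (nat_lit 11) (.e (nat_lit 16424) (nat_lit 7) (.e (nat_lit 409645) (nat_lit 18) (.e (nat_lit 303143) (nat_lit 12) (.e (nat_lit 475198) (nat_lit 40) (.e (nat_lit 704790) (nat_lit 14) .nil))))))) (.g (nat_lit 1) (.e (nat_lit 16922) (nat_lit 0) .nil) .nil))) 
(.lf (nat_lit 451198) (.g (nat_lit 3279) (.e (nat_lit 2610) (nat_lit 163) (.e (nat_lit 163977) (nat_lit 30) (.e (nat_lit 573485) (nat_lit 13) (.e (nat_lit 65619) (nat_lit 10) (.e (nat_lit 344117) (nat_lit 21) (.e (nat_lit 516169) (nat_lit 13) (.e (nat_lit 458774) (nat_lit 18) (.e (nat_lit 5548) (nat_lit 306) .nil)))))))) (.g (nat_lit 1) (.e (nat_lit 19369) (nat_lit 0) .nil) .nil)))) 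
(.nd (nat_lit 9) 
(.lf (nat_lit 450942) (.g (nat_lit 3661) (.e (nat_lit 2601) (nat_lit 163) (.e (nat_lit 163977) (nat_lit 30) (.e (nat_lit 573482) (nat_lit 13) (.e (nat_lit 65604) (nat_lit 9) (.e (nat_lit 336028) (nat_lit 3) (.e (nat_lit 98359) (nat_lit 26) (.e (nat_lit 426104) (nat_lit 1) (.e (nat_lit 164345) (nat_lit 240) .nil)))))))) (.g (nat_lit 1) (.e (nat_lit 18008) (nat_lit 0) .nil) .nil))) 
(.lf (nat_lit 451454) (.g (nat_lit 3855) (.e (nat_lit 2610) (nat_lit 163) (.e (nat_lit 163978) (nat_lit 30) (.e (nat_lit 573485) (nat_lit 13) (.e (nat_lit 65604) (nat_lit 9) (.e (nat_lit 336028) (nat_lit 3) (.e (nat_lit 98366) (nat_lit 27) (.e (nat_lit 434202) (nat_lit 18) (.e (nat_lit 5537) (nat_lit 306) .nil)))))))) (.g (nat_lit 1) (.e (nat_lit 19691) (nat_lit 0) .nil) .nil))))) 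
(.nd (nat_lit 8) (.nd (nat_lit 9) 
(.lf (nat_lit 450814) (.g (nat_lit 4066) (.e (nat_lit 2599) (nat_lit 163) (.e (nat_lit 163976) (nat_lit 30) (.e (nat_lit 573481) (nat_lit 13) (.e (nat_lit 65619) (nat_lit 10) (.e (nat_lit 344117) (nat_lit 21) (.e (nat_lit 516159) (nat_lit 10) (.e (nat_lit 434209) (nat_lit 18) (.e (nat_lit 5546) (nat_lit 306) .nil)))))))) (.g (nat_lit 1) (.e (nat_lit 17249) (nat_lit 0) .nil) .nil))) 
(.lf (nat_lit 451326) (.g (nat_lit 2855) (.e (nat_lit 2610) (nat_lit 163) (.e (nat_lit 163977) (nat_lit 30) (.e (nat_lit 573493) (nat_lit 15) (.e (nat_lit 81956) (nat_lit 23) (.e (nat_lit 98367) (nat_lit 27) (.e (nat_lit 434209) (nat_lit 18) (.e (nat_lit 5546) (nat_lit 306) .nil))))))) (.g (nat_lit 1) (.e (nat_lit 19536) (nat_lit 0) .nil) .nil)))) (.nd (nat_lit 9) 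
(.lf (nat_lit 451070) (.g (nat_lit 4769) (.e (nat_lit 2606) (nat_lit 163) (.e (nat_lit 164403) (nat_lit 256) (.e (nat_lit 57371) (nat_lit 2) (.e (nat_lit 90174) (nat_lit 14) (.e (nat_lit 180251) (nat_lit 10) (.e (nat_lit 573489) (nat_lit 14) (.e (nat_lit 73755) (nat_lit 8) (.e (nat_lit 557067) (nat_lit 9) .nil)))))))) (.g (nat_lit 1) (.e (nat_lit 18727) (nat_lit 0) .nil) .nil))) 
(.lf (nat_lit 451582) (.g (nat_lit 2686) (.e (nat_lit 2610) (nat_lit 163) (.e (nat_lit 163979) (nat_lit 30) (.e (nat_lit 573482) (nat_lit 13) (.e (nat_lit 65619) (nat_lit 10) (.e (nat_lit 344117) (nat_lit 21) (.e (nat_lit 516097) (nat_lit 0) (.e (nat_lit 7366) (nat_lit 388) (.e (nat_lit 2610) (nat_lit 163) (.e (nat_lit 164345) (nat_lit 240) .nil))))))))) (.g (nat_lit 1) (.e (nat_lit 20175) (nat_lit 0) .nil) .nil)))))))))))) 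
(.nd (nat_lit 1) (.nd (nat_lit 2) (.nd (nat_lit 3) (.nd (nat_lit 4) (.nd (nat_lit 5) 
(.nd (nat_lit 6) (.nd (nat_lit 7) (.nd (nat_lit 8) (.nd (nat_lit 9) 
(.lf (nat_lit 450561) (.g (nat_lit 2462) (.e (nat_lit 7936) (nat_lit 159) (.e (nat_lit 24608) (nat_lit 3) (.e (nat_lit 98373) (nat_lit 29) (.e (nat_lit 458496) (nat_lit 3) .nil)))) (.g (nat_lit 0) (.e (nat_lit 16419) (nat_lit 0) .nil) .nil))) 
(.lf (nat_lit 451073) (.g (nat_lit 5171) (.e (nat_lit 2606) (nat_lit 163) (.e (nat_lit 164403) (nat_lit 256) (.e (nat_lit 57378) (nat_lit 3) (.e (nat_lit 98368) (nat_lit 27) (.e (nat_lit 434247) (nat_lit 28) (.e (nat_lit 573489) (nat_lit 14) (.e (nat_lit 73755) (nat_lit 8) (.e (nat_lit 557067) (nat_lit 9) .nil)))))))) (.g (nat_lit 1) (.e (nat_lit 18730) (nat_lit 0) .nil) .nil)))) (.nd (nat_lit 9) 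
(.lf (nat_lit 450817) (.g (nat_lit 4406) (.e (nat_lit 2599) (nat_lit 163) (.e (nat_lit 163976) (nat_lit 30) (.e (nat_lit 573481) (nat_lit 13) (.e (nat_lit 65619) (nat_lit 10) (.e (nat_lit 344117) (nat_lit 21) (.e (nat_lit 516160) (nat_lit 10) (.e (nat_lit 434209) (nat_lit 18) (.e (nat_lit 5548) (nat_lit 306) .nil)))))))) (.g (nat_lit 1) (.e (nat_lit 17252) (nat_lit 0) .nil) .nil))) 
(.lf (nat_lit 451329) (.g (nat_lit 2783) (.e (nat_lit 2610) (nat_lit 163) (.e (nat_lit 163977) (nat_lit 30) (.e (nat_lit 573493) (nat_lit 15) (.e (nat_lit 81956) (nat_lit 23) (.e (nat_lit 98367) (nat_lit 27) (.e (nat_lit 434211) (nat_lit 18) (.e (nat_lit 5548) (nat_lit 306) .nil))))))) (.g (nat_lit 1) (.e (nat_lit 19539) (nat_lit 0) .nil) .nil))))) (.nd (nat_lit 8) (.nd (nat_lit 9) 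
(.lf (nat_lit 450689) (.g (nat_lit 1769) (.e (nat_lit 2587) (nat_lit 162) (.e (nat_lit 49189) (nat_lit 11) (.e (nat_lit 16425) (nat_lit 7) (.e (nat_lit 409645) (nat_lit 18) (.e (nat_lit 303143) (nat_lit 12) .nil))))) (.g (nat_lit 0) (.e (nat_lit 16925) (nat_lit 0) .nil) .nil))) 
(.lf (nat_lit 451201) (.g (nat_lit 2568) (.e (nat_lit 2610) (nat_lit 163) (.e (nat_lit 163977) (nat_lit 30) (.e (nat_lit 573485) (nat_lit 13) (.e (nat_lit 65619) (nat_lit 10) (.e (nat_lit 344117) (nat_lit 21) (.e (nat_lit 516171) (nat_lit 13) (.e (nat_lit 458774) (nat_lit 18) (.e (nat_lit 5547) (nat_lit 306) .nil)))))))) (.g (nat_lit 1) (.e (nat_lit 19372) (nat_lit 0) .nil) .nil)))) 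
(.nd (nat_lit 9) 
(.lf (nat_lit 450945) (.g (nat_lit 3521) (.e (nat_lit 2601) (nat_lit 163) (.e (nat_lit 163977) (nat_lit 30) (.e (nat_lit 573482) (nat_lit 13) (.e (nat_lit 65619) (nat_lit 10) (.e (nat_lit 344117) (nat_lit 21) (.e (nat_lit 516169) (nat_lit 13) (.e (nat_lit 458774) (nat_lit 18) (.e (nat_lit 5548) (nat_lit 306) .nil)))))))) (.g (nat_lit 1) (.e (nat_lit 18011) (nat_lit 0) .nil) .nil))) 
(.lf (nat_lit 451457) (.g (nat_lit 2187) (.e (nat_lit 2610) (nat_lit 163) (.e (nat_lit 163978) (nat_lit 30) (.e (nat_lit 573485) (nat_lit 13) (.e (nat_lit 65604) (nat_lit 9) (.e (nat_lit 336028) (nat_lit 3) (.e (nat_lit 98366) (nat_lit 27) (.e (nat_lit 434212) (nat_lit 18) (.e (nat_lit 5548) (nat_lit 306) .nil)))))))) (.g (nat_lit 1) (.e (nat_lit 19694) (nat_lit 0) .nil) .nil)))))) 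
(.nd (nat_lit 7) (.nd (nat_lit 8) (.nd (nat_lit 9) 
(.lf (nat_lit 450625) (.g (nat_lit 3017) (.e (nat_lit 2570) (nat_lit 160) (.e (nat_lit 32807) (nat_lit 18) (.e (nat_lit 172126) (nat_lit 14) (.e (nat_lit 491540) (nat_lit 3) (.e (nat_lit 98367) (nat_lit 27) (.e (nat_lit 434192) (nat_lit 13) .nil)))))) (.g (nat_lit 1) (.e (nat_lit 16657) (nat_lit 0) .nil) .nil))) 
(.lf (nat_lit 451137) (.g (nat_lit 4655) (.e (nat_lit 2610) (nat_lit 163) (.e (nat_lit 163977) (nat_lit 30) (.e (nat_lit 573482) (nat_lit 13) (.e (nat_lit 65619) (nat_lit 10) (.e (nat_lit 344117) (nat_lit 21) (.e (nat_lit 516160) (nat_lit 10) (.e (nat_lit 434209) (nat_lit 18) (.e (nat_lit 5548) (nat_lit 306) .nil)))))))) (.g (nat_lit 1) (.e (nat_lit 19307) (nat_lit 0) .nil) .nil)))) 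
(.nd (nat_lit 9) 
(.lf (nat_lit 450881) (.g (nat_lit 2135) (.e (nat_lit 2599) (nat_lit 163) (.e (nat_lit 164399) (nat_lit 256) (.e (nat_lit 57373) (nat_lit 2) (.e (nat_lit 90174) (nat_lit 14) (.e (nat_lit 180243) (nat_lit 5) .nil))))) (.g (nat_lit 0) (.e (nat_lit 17631) (nat_lit 0) .nil) .nil))) 
(.lf (nat_lit 451393) (.g (nat_lit 1767) (.e (nat_lit 2610) (nat_lit 163) (.e (nat_lit 163978) (nat_lit 30) (.e (nat_lit 573484) (nat_lit 13) (.e (nat_lit 65610) (nat_lit 10) (.e (nat_lit 344117) (nat_lit 21) .nil))))) (.g (nat_lit 0) (.e (nat_lit 19619) (nat_lit 0) .nil) .nil))))) (.nd (nat_lit 8) (.nd (nat_lit 9) 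
(.lf (nat_lit 450753) (.g (nat_lit 2495) (.e (nat_lit 2592) (nat_lit 162) (.e (nat_lit 49189) (nat_lit 11) (.e (nat_lit 16425) (nat_lit 7) (.e (nat_lit 409649) (nat_lit 18) (.e (nat_lit 303143) (nat_lit 12) (.e (nat_lit 475197) (nat_lit 40) (.e (nat_lit 704787) (nat_lit 14) .nil))))))) (.g (nat_lit 1) (.e (nat_lit 16993) (nat_lit 0) .nil) .nil))) 
(.lf (nat_lit 451265) (.g (nat_lit 2258) (.e (nat_lit 2610) (nat_lit 163) (.e (nat_lit 163977) (nat_lit 30) (.e (nat_lit 573493) (nat_lit 15) (.e (nat_lit 81953) (nat_lit 22) (.e (nat_lit 90170) (nat_lit 13) (.e (nat_lit 172049) (nat_lit 0) (.e (nat_lit 2458) (nat_lit 157) (.e (nat_lit 5548) (nat_lit 306) .nil)))))))) (.g (nat_lit 1) (.e (nat_lit 19467) (nat_lit 0) .nil) .nil)))) (.nd (nat_lit 9) 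
(.lf (nat_lit 451009) (.g (nat_lit 1841) (.e (nat_lit 2602) (nat_lit 163) (.e (nat_lit 164399) (nat_lit 256) (.e (nat_lit 57372) (nat_lit 2) (.e (nat_lit 90174) (nat_lit 14) (.e (nat_lit 180243) (nat_lit 5) .nil))))) (.g (nat_lit 0) (.e (nat_lit 18471) (nat_lit 0) .nil) .nil))) 
(.lf (nat_lit 451521) (.g (nat_lit 3309) (.e (nat_lit 2610) (nat_lit 163) (.e (nat_lit 163978) (nat_lit 30) (.e (nat_lit 573493) (nat_lit 15) (.e (nat_lit 81956) (nat_lit 23) (.e (nat_lit 98356) (nat_lit 26) .nil))))) (.g (nat_lit 0) (.e (nat_lit 20083) (nat_lit 0) .nil) .nil))))))) (.nd (nat_lit 6) (.nd (nat_lit 7) (.nd (nat_lit 8) (.nd (nat_lit 9) 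
(.lf (nat_lit 450593) (.g (nat_lit 2972) (.e (nat_lit 2570) (nat_lit 160) (.e (nat_lit 32807) (nat_lit 18) (.e (nat_lit 172118) (nat_lit 12) (.e (nat_lit 475183) (nat_lit 29) (.e (nat_lit 557103) (nat_lit 14) (.e (nat_lit 180285) (nat_lit 45) .nil)))))) (.g (nat_lit 1) (.e (nat_lit 16594) (nat_lit 0) .nil) .nil))) 
(.lf (nat_lit 451105) (.g (nat_lit 3480) (.e (nat_lit 2610) (nat_lit 163) (.e (nat_lit 163977) (nat_lit 30) (.e (nat_lit 573482) (nat_lit 13) (.e (nat_lit 65604) (nat_lit 9) (.e (nat_lit 336013) (nat_lit 2) (.e (nat_lit 90170) (nat_lit 13) (.e (nat_lit 172061) (nat_lit 1) (.e (nat_lit 164345) (nat_lit 240) .nil)))))))) (.g (nat_lit 1) (.e (nat_lit 19275) (nat_lit 0) .nil) .nil)))) 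
(.nd (nat_lit 9) 
(.lf (nat_lit 450849) (.g (nat_lit 4654) (.e (nat_lit 2599) (nat_lit 163) (.e (nat_lit 163978) (nat_lit 30) (.e (nat_lit 573485) (nat_lit 13) (.e (nat_lit 65619) (nat_lit 10) (.e (nat_lit 344117) (nat_lit 21) (.e (nat_lit 516170) (nat_lit 13) (.e (nat_lit 458774) (nat_lit 18) (.e (nat_lit 5548) (nat_lit 306) .nil)))))))) (.g (nat_lit 1) (.e (nat_lit 17359) (nat_lit 0) .nil) .nil))) 
(.lf (nat_lit 451361) (.g (nat_lit 4527) (.e (nat_lit 2610) (nat_lit 163) (.e (nat_lit 163978) (nat_lit 30) (.e (nat_lit 573479) (nat_lit 13) (.e (nat_lit 65619) (nat_lit 10) (.e (nat_lit 344117) (nat_lit 21) (.e (nat_lit 516143) (nat_lit 9) (.e (nat_lit 426109) (nat_lit 1) (.e (nat_lit 164345) (nat_lit 240) .nil)))))))) (.g (nat_lit 1) (.e (nat_lit 19587) (nat_lit 0) .nil) .nil))))) 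
(.nd (nat_lit 8) (.nd (nat_lit 9) 
(.lf (nat_lit 450721) (.g (nat_lit 3663) (.e (nat_lit 2591) (nat_lit 162) (.e (nat_lit 49189) (nat_lit 11) (.e (nat_lit 16425) (nat_lit 7) (.e (nat_lit 409648) (nat_lit 18) (.e (nat_lit 303137) (nat_lit 10) (.e (nat_lit 434272) (nat_lit 38) (.e (nat_lit 655404) (nat_lit 14) .nil))))))) (.g (nat_lit 1) (.e (nat_lit 16958) (nat_lit 0) .nil) .nil))) 
(.lf (nat_lit 451233) (.g (nat_lit 3526) (.e (nat_lit 2610) (nat_lit 163) (.e (nat_lit 163977) (nat_lit 30) (.e (nat_lit 573491) (nat_lit 15) (.e (nat_lit 81954) (nat_lit 23) (.e (nat_lit 98367) (nat_lit 27) (.e (nat_lit 434209) (nat_lit 18) (.e (nat_lit 5547) (nat_lit 306) .nil))))))) (.g (nat_lit 1) (.e (nat_lit 19409) (nat_lit 0) .nil) .nil)))) (.nd (nat_lit 9) 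
(.lf (nat_lit 450977) (.g (nat_lit 3419) (.e (nat_lit 2601) (nat_lit 163) (.e (nat_lit 163979) (nat_lit 30) (.e (nat_lit 573482) (nat_lit 13) (.e (nat_lit 65604) (nat_lit 9) (.e (nat_lit 336028) (nat_lit 3) (.e (nat_lit 98359) (nat_lit 26) (.e (nat_lit 426097) (nat_lit 1) (.e (nat_lit 164345) (nat_lit 240) .nil)))))))) (.g (nat_lit 1) (.e (nat_lit 18196) (nat_lit 0) .nil) .nil))) 
(.lf (nat_lit 451489) (.g (nat_lit 3342) (.e (nat_lit 2610) (nat_lit 163) (.e (nat_lit 163978) (nat_lit 30) (.e (nat_lit 573485) (nat_lit 13) (.e (nat_lit 65619) (nat_lit 10) (.e (nat_lit 344117) (nat_lit 21) (.e (nat_lit 516159) (nat_lit 10) (.e (nat_lit 434212) (nat_lit 18) (.e (nat_lit 5548) (nat_lit 306) .nil)))))))) (.g (nat_lit 1) (.e (nat_lit 19728) (nat_lit 0) .nil) .nil)))))) 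
(.nd (nat_lit 7) (.nd (nat_lit 8) (.nd (nat_lit 9) 
(.lf (nat_lit 450657) (.g (nat_lit 2764) (.e (nat_lit 2571) (nat_lit 160) (.e (nat_lit 32807) (nat_lit 18) (.e (nat_lit 172124) (nat_lit 14) (.e (nat_lit 491536) (nat_lit 2) (.e (nat_lit 90172) (nat_lit 14) (.e (nat_lit 180285) (nat_lit 45) .nil)))))) (.g (nat_lit 1) (.e (nat_lit 16848) (nat_lit 0) .nil) .nil))) 
(.lf (nat_lit 451169) (.g (nat_lit 3001) (.e (nat_lit 2610) (nat_lit 163) (.e (nat_lit 163977) (nat_lit 30) (.e (nat_lit 573485) (nat_lit 13) (.e (nat_lit 65604) (nat_lit 9) (.e (nat_lit 336028) (nat_lit 3) (.e (nat_lit 98354) (nat_lit 26) (.e (nat_lit 426109) (nat_lit 1) (.e (nat_lit 164345) (nat_lit 240) .nil)))))))) (.g (nat_lit 1) (.e (nat_lit 19339) (nat_lit 0) .nil) .nil)))) 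
(.nd (nat_lit 9) 
(.lf (nat_lit 450913) (.g (nat_lit 2174) (.e (nat_lit 2600) (nat_lit 163) (.e (nat_lit 164403) (nat_lit 256) (.e (nat_lit 57371) (nat_lit 2) (.e (nat_lit 90174) (nat_lit 14) (.e (nat_lit 180243) (nat_lit 5) .nil))))) (.g (nat_lit 0) (.e (nat_lit 17839) (nat_lit 0) .nil) .nil))) 
(.lf (nat_lit 451425) (.g (nat_lit 2994) (.e (nat_lit 2610) (nat_lit 163) (.e (nat_lit 163978) (nat_lit 30) (.e (nat_lit 573484) (nat_lit 13) (.e (nat_lit 65610) (nat_lit 10) (.e (nat_lit 344117) (nat_lit 21) (.e (nat_lit 516170) (nat_lit 13) (.e (nat_lit 458774) (nat_lit 18) (.e (nat_lit 5546) (nat_lit 306) .nil)))))))) (.g (nat_lit 1) (.e (nat_lit 19651) (nat_lit 0) .nil) .nil))))) 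
(.nd (nat_lit 8) (.nd (nat_lit 9) 
(.lf (nat_lit 450785) (.g (nat_lit 356) (.e (nat_lit 2580) (nat_lit 161) (.e (nat_lit 40964) (nat_lit 0) (.e (nat_lit 1582) (nat_lit 111) (.e (nat_lit 368384) (nat_lit 10) .nil)))) (.g (nat_lit 0) (.e (nat_lit 17028) (nat_lit 0) .nil) .nil))) 
(.lf (nat_lit 451297) (.g (nat_lit 2452) (.e (nat_lit 2610) (nat_lit 163) (.e (nat_lit 163977) (nat_lit 30) (.e (nat_lit 573493) (nat_lit 15) (.e (nat_lit 81956) (nat_lit 23) (.e (nat_lit 98354) (nat_lit 26) .nil))))) (.g (nat_lit 0) (.e (nat_lit 19507) (nat_lit 0) .nil) .nil)))) (.nd (nat_lit 9) 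
(.lf (nat_lit 451041) (.g (nat_lit 3452) (.e (nat_lit 2606) (nat_lit 163) (.e (nat_lit 163978) (nat_lit 30) (.e (nat_lit 573489) (nat_lit 14) (.e (nat_lit 73755) (nat_lit 8) (.e (nat_lit 557103) (nat_lit 14) (.e (nat_lit 180244) (nat_lit 5) (.e (nat_lit 532499) (nat_lit 1) (.e (nat_lit 57659) (nat_lit 152) .nil)))))))) (.g (nat_lit 1) (.e (nat_lit 18681) (nat_lit 0) .nil) .nil))) 
(.lf (nat_lit 451553) (.g (nat_lit 4157) (.e (nat_lit 2610) (nat_lit 163) (.e (nat_lit 163979) (nat_lit 30) (.e (nat_lit 573482) (nat_lit 13) (.e (nat_lit 65604) (nat_lit 9) (.e (nat_lit 336028) (nat_lit 3) (.e (nat_lit 98359) (nat_lit 26) (.e (nat_lit 426039) (nat_lit 0) (.e (nat_lit 2458) (nat_lit 157) (.e (nat_lit 5547) (nat_lit 306) .nil))))))))) (.g (nat_lit 1) (.e (nat_lit 20146) (nat_lit 0) .nil) .nil)))))))) 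
(.nd (nat_lit 5) (.nd (nat_lit 6) (.nd (nat_lit 7) (.nd (nat_lit 8) (.nd (nat_lit 9) 
(.lf (nat_lit 450577) (.g (nat_lit 2855) (.e (nat_lit 2569) (nat_lit 160) (.e (nat_lit 32807) (nat_lit 18) (.e (nat_lit 172124) (nat_lit 14) (.e (nat_lit 491536) (nat_lit 2) (.e (nat_lit 90172) (nat_lit 14) (.e (nat_lit 180285) (nat_lit 45) .nil)))))) (.g (nat_lit 1) (.e (nat_lit 16482) (nat_lit 0) .nil) .nil))) 
(.lf (nat_lit 451089) (.g (nat_lit 3682) (.e (nat_lit 2607) (nat_lit 163) (.e (nat_lit 164403) (nat_lit 256) (.e (nat_lit 57373) (nat_lit 2) (.e (nat_lit 90174) (nat_lit 14) (.e (nat_lit 180243) (nat_lit 5) (.e (nat_lit 532515) (nat_lit 3) (.e (nat_lit 114716) (nat_lit 22) (.e (nat_lit 90137) (nat_lit 9) .nil)))))))) (.g (nat_lit 1) (.e (nat_lit 19002) (nat_lit 0) .nil) .nil)))) (.nd (nat_lit 9) 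
(.lf (nat_lit 450833) (.g (nat_lit 4702) (.e (nat_lit 2599) (nat_lit 163) (.e (nat_lit 163978) (nat_lit 30) (.e (nat_lit 573485) (nat_lit 13) (.e (nat_lit 65604) (nat_lit 9) (.e (nat_lit 336028) (nat_lit 3) (.e (nat_lit 98366) (nat_lit 27) (.e (nat_lit 434209) (nat_lit 18) (.e (nat_lit 5546) (nat_lit 306) .nil)))))))) (.g (nat_lit 1) (.e (nat_lit 17343) (nat_lit 0) .nil) .nil))) 
(.lf (nat_lit 451345) (.g (nat_lit 4148) (.e (nat_lit 2610) (nat_lit 163) (.e (nat_lit 163978) (nat_lit 30) (.e (nat_lit 573479) (nat_lit 13) (.e (nat_lit 65604) (nat_lit 9) (.e (nat_lit 336013) (nat_lit 2) (.e (nat_lit 90170) (nat_lit 13) (.e (nat_lit 172061) (nat_lit 1) (.e (nat_lit 164348) (nat_lit 240) .nil)))))))) (.g (nat_lit 1) (.e (nat_lit 19571) (nat_lit 0) .nil) .nil))))) 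
(.nd (nat_lit 8) (.nd (nat_lit 9) 
(.lf (nat_lit 450705) (.g (nat_lit 2811) (.e (nat_lit 2587) (nat_lit 162) (.e (nat_lit 49189) (nat_lit 11) (.e (nat_lit 16425) (nat_lit 7) (.e (nat_lit 409649) (nat_lit 18) (.e (nat_lit 303143) (nat_lit 12) (.e (nat_lit 475199) (nat_lit 40) (.e (nat_lit 704836) (nat_lit 14) .nil))))))) (.g (nat_lit 1) (.e (nat_lit 16941) (nat_lit 0) .nil) .nil))) 
(.lf (nat_lit 451217) (.g (nat_lit 2376) (.e (nat_lit 2610) (nat_lit 163) (.e (nat_lit 163977) (nat_lit 30) (.e (nat_lit 573491) (nat_lit 15) (.e (nat_lit 81954) (nat_lit 23) (.e (nat_lit 98354) (nat_lit 26) (.e (nat_lit 426109) (nat_lit 1) (.e (nat_lit 164345) (nat_lit 240) .nil))))))) (.g (nat_lit 1) (.e (nat_lit 19393) (nat_lit 0) .nil) .nil)))) (.nd (nat_lit 9) 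
(.lf (nat_lit 450961) (.g (nat_lit 3565) (.e (nat_lit 2601) (nat_lit 163) (.e (nat_lit 163978) (nat_lit 30) (.e (nat_lit 573484) (nat_lit 13) (.e (nat_lit 65610) (nat_lit 10) (.e (nat_lit 344117) (nat_lit 21) (.e (nat_lit 516143) (nat_lit 9) (.e (nat_lit 426109) (nat_lit 1) (.e (nat_lit 164345) (nat_lit 240) .nil)))))))) (.g (nat_lit 1) (.e (nat_lit 18158) (nat_lit 0) .nil) .nil))) 
(.lf (nat_lit 451473) (.g (nat_lit 4645) (.e (nat_lit 2610) (nat_lit 163) (.e (nat_lit 163978) (nat_lit 30) (.e (nat_lit 573485) (nat_lit 13) (.e (nat_lit 65619) (nat_lit 10) (.e (nat_lit 344117) (nat_lit 21) (.e (nat_lit 516151) (nat_lit 9) (.e (nat_lit 426042) (nat_lit 0) (.e (nat_lit 2458) (nat_lit 157) (.e (nat_lit 5548) (nat_lit 306) .nil))))))))) (.g (nat_lit 1) (.e (nat_lit 19712) (nat_lit 0) .nil) .nil)))))) 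
(.nd (nat_lit 7) (.nd (nat_lit 8) (.nd (nat_lit 9) 
(.lf (nat_lit 450641) (.g (nat_lit 2269) (.e (nat_lit 2571) (nat_lit 160) (.e (nat_lit 32807) (nat_lit 18) (.e (nat_lit 172118) (nat_lit 12) (.e (nat_lit 475185) (nat_lit 29) (.e (nat_lit 557105) (nat_lit 14) (.e (nat_lit 180284) (nat_lit 45) .nil)))))) (.g (nat_lit 1) (.e (nat_lit 16824) (nat_lit 0) .nil) .nil))) 
(.lf (nat_lit 451153) (.g (nat_lit 3890) (.e (nat_lit 2610) (nat_lit 163) (.e (nat_lit 163977) (nat_lit 30) (.e (nat_lit 573484) (nat_lit 13) (.e (nat_lit 65610) (nat_lit 10) (.e (nat_lit 344117) (nat_lit 21) (.e (nat_lit 516159) (nat_lit 10) (.e (nat_lit 434209) (nat_lit 18) (.e (nat_lit 5547) (nat_lit 306) .nil)))))))) (.g (nat_lit 1) (.e (nat_lit 19323) (nat_lit 0) .nil) .nil)))) 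
(.nd (nat_lit 9) 
(.lf (nat_lit 450897) (.g (nat_lit 3489) (.e (nat_lit 2600) (nat_lit 163) (.e (nat_lit 163977) (nat_lit 30) (.e (nat_lit 573482) (nat_lit 13) (.e (nat_lit 65604) (nat_lit 9) (.e (nat_lit 336028) (nat_lit 3) (.e (nat_lit 98354) (nat_lit 26) (.e (nat_lit 426109) (nat_lit 1) (.e (nat_lit 164346) (nat_lit 240) .nil)))))))) (.g (nat_lit 1) (.e (nat_lit 17712) (nat_lit 0) .nil) .nil))) 
(.lf (nat_lit 451409) (.g (nat_lit 4283) (.e (nat_lit 2610) (nat_lit 163) (.e (nat_lit 163978) (nat_lit 30) (.e (nat_lit 573484) (nat_lit 13) (.e (nat_lit 65610) (nat_lit 10) (.e (nat_lit 344117) (nat_lit 21) (.e (nat_lit 516151) (nat_lit 9) (.e (nat_lit 426104) (nat_lit 1) (.e (nat_lit 164348) (nat_lit 240) .nil)))))))) (.g (nat_lit 1) (.e (nat_lit 19635) (nat_lit 0) .nil) .nil))))) 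
(.nd (nat_lit 8) (.nd (nat_lit 9) 
(.lf (nat_lit 450769) (.g (nat_lit 1190) (.e (nat_lit 2576) (nat_lit 161) (.e (nat_lit 40996) (nat_lit 11) (.e (nat_lit 24658) (nat_lit 13) (.e (nat_lit 401152) (nat_lit 17) .nil)))) (.g (nat_lit 0) (.e (nat_lit 17012) (nat_lit 0) .nil) .nil))) 
(.lf (nat_lit 451281) (.g (nat_lit 5289) (.e (nat_lit 2610) (nat_lit 163) (.e (nat_lit 163977) (nat_lit 30) (.e (nat_lit 573493) (nat_lit 15) (.e (nat_lit 81953) (nat_lit 22) (.e (nat_lit 90185) (nat_lit 17) (.e (nat_lit 237584) (nat_lit 1) (.e (nat_lit 164347) (nat_lit 240) .nil))))))) (.g (nat_lit 1) (.e (nat_lit 19483) (nat_lit 0) .nil) .nil)))) (.nd (nat_lit 9) 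
(.lf (nat_lit 451025) (.g (nat_lit 2680) (.e (nat_lit 2604) (nat_lit 163) (.e (nat_lit 163977) (nat_lit 30) (.e (nat_lit 573482) (nat_lit 13) (.e (nat_lit 65604) (nat_lit 9) (.e (nat_lit 336028) (nat_lit 3) (.e (nat_lit 98359) (nat_lit 26) (.e (nat_lit 426142) (nat_lit 4) (.e (nat_lit 229666) (nat_lit 240) .nil)))))))) (.g (nat_lit 1) (.e (nat_lit 18532) (nat_lit 0) .nil) .nil))) 
(.lf (nat_lit 451537) (.g (nat_lit 2867) (.e (nat_lit 2610) (nat_lit 163) (.e (nat_lit 163979) (nat_lit 30) (.e (nat_lit 573481) (nat_lit 13) (.e (nat_lit 65619) (nat_lit 10) (.e (nat_lit 344117) (nat_lit 21) (.e (nat_lit 516170) (nat_lit 13) (.e (nat_lit 458774) (nat_lit 18) (.e (nat_lit 5548) (nat_lit 306) .nil)))))))) (.g (nat_lit 1) (.e (nat_lit 20128) (nat_lit 0) .nil) .nil))))))) 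
(.nd (nat_lit 6) (.nd (nat_lit 7) (.nd (nat_lit 8) (.nd (nat_lit 9) 
(.lf (nat_lit 450609) (.g (nat_lit 2747) (.e (nat_lit 2570) (nat_lit 160) (.e (nat_lit 32807) (nat_lit 18) (.e (nat_lit 172124) (nat_lit 14) (.e (nat_lit 491536) (nat_lit 2) (.e (nat_lit 90172) (nat_lit 14) (.e (nat_lit 180285) (nat_lit 45) .nil)))))) (.g (nat_lit 1) (.e (nat_lit 16622) (nat_lit 0) .nil) .nil))) 
(.lf (nat_lit 451121) (.g (nat_lit 2803) (.e (nat_lit 2610) (nat_lit 163) (.e (nat_lit 163977) (nat_lit 30) (.e (nat_lit 573482) (nat_lit 13) (.e (nat_lit 65604) (nat_lit 9) (.e (nat_lit 336028) (nat_lit 3) (.e (nat_lit 98367) (nat_lit 27) (.e (nat_lit 434209) (nat_lit 18) (.e (nat_lit 5546) (nat_lit 306) .nil)))))))) (.g (nat_lit 1) (.e (nat_lit 19291) (nat_lit 0) .nil) .nil)))) (.nd (nat_lit 9) 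
(.lf (nat_lit 450865) (.g (nat_lit 4319) (.e (nat_lit 2599) (nat_lit 163) (.e (nat_lit 163979) (nat_lit 30) (.e (nat_lit 573482) (nat_lit 13) (.e (nat_lit 65619) (nat_lit 10) (.e (nat_lit 344117) (nat_lit 21) (.e (nat_lit 516143) (nat_lit 9) (.e (nat_lit 426109) (nat_lit 1) (.e (nat_lit 164347) (nat_lit 240) .nil)))))))) (.g (nat_lit 1) (.e (nat_lit 17405) (nat_lit 0) .nil) .nil))) 
(.lf (nat_lit 451377) (.g (nat_lit 4632) (.e (nat_lit 2610) (nat_lit 163) (.e (nat_lit 163978) (nat_lit 30) (.e (nat_lit 573479) (nat_lit 13) (.e (nat_lit 65619) (nat_lit 10) (.e (nat_lit 344117) (nat_lit 21) (.e (nat_lit 516159) (nat_lit 10) (.e (nat_lit 434209) (nat_lit 18) (.e (nat_lit 5547) (nat_lit 306) .nil)))))))) (.g (nat_lit 1) (.e (nat_lit 19603) (nat_lit 0) .nil) .nil))))) 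
(.nd (nat_lit 8) (.nd (nat_lit 9) 
(.lf (nat_lit 450737) (.g (nat_lit 2745) (.e (nat_lit 2592) (nat_lit 162) (.e (nat_lit 49189) (nat_lit 11) (.e (nat_lit 16425) (nat_lit 7) (.e (nat_lit 409643) (nat_lit 18) (.e (nat_lit 303143) (nat_lit 12) (.e (nat_lit 475197) (nat_lit 40) (.e (nat_lit 704790) (nat_lit 14) .nil))))))) (.g (nat_lit 1) (.e (nat_lit 16977) (nat_lit 0) .nil) .nil))) 
(.lf (nat_lit 451249) (.g (nat_lit 2816) (.e (nat_lit 2610) (nat_lit 163) (.e (nat_lit 163977) (nat_lit 30) (.e (nat_lit 573492) (nat_lit 15) (.e (nat_lit 81956) (nat_lit 23) (.e (nat_lit 98376) (nat_lit 30) .nil))))) (.g (nat_lit 0) (.e (nat_lit 19441) (nat_lit 0) .nil) .nil)))) (.nd (nat_lit 9) 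
(.lf (nat_lit 450993) (.g (nat_lit 2020) (.e (nat_lit 2602) (nat_lit 163) (.e (nat_lit 163978) (nat_lit 30) (.e (nat_lit 573479) (nat_lit 13) (.e (nat_lit 65604) (nat_lit 9) .nil)))) (.g (nat_lit 0) (.e (nat_lit 18341) (nat_lit 0) .nil) .nil))) 
(.lf (nat_lit 451505) (.g (nat_lit 4046) (.e (nat_lit 2610) (nat_lit 163) (.e (nat_lit 163978) (nat_lit 30) (.e (nat_lit 573485) (nat_lit 13) (.e (nat_lit 65619) (nat_lit 10) (.e (nat_lit 344129) (nat_lit 26) (.e (nat_lit 557087) (nat_lit 11) (.e (nat_lit 24597) (nat_lit 1) (.e (nat_lit 57772) (nat_lit 227) .nil)))))))) (.g (nat_lit 1) (.e (nat_lit 19751) (nat_lit 0) .nil) .nil)))))) 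
(.nd (nat_lit 7) (.nd (nat_lit 8) (.nd (nat_lit 9) 
(.lf (nat_lit 450673) (.g (nat_lit 3454) (.e (nat_lit 2571) (nat_lit 160) (.e (nat_lit 32807) (nat_lit 18) (.e (nat_lit 172126) (nat_lit 14) (.e (nat_lit 491539) (nat_lit 3) (.e (nat_lit 98367) (nat_lit 27) (.e (nat_lit 434193) (nat_lit 13) .nil)))))) (.g (nat_lit 1) (.e (nat_lit 16885) (nat_lit 0) .nil) .nil))) 
(.lf (nat_lit 451185) (.g (nat_lit 3375) (.e (nat_lit 2610) (nat_lit 163) (.e (nat_lit 163977) (nat_lit 30) (.e (nat_lit 573485) (nat_lit 13) (.e (nat_lit 65619) (nat_lit 10) (.e (nat_lit 344117) (nat_lit 21) (.e (nat_lit 516143) (nat_lit 9) (.e (nat_lit 426109) (nat_lit 1) (.e (nat_lit 164345) (nat_lit 240) .nil)))))))) (.g (nat_lit 1) (.e (nat_lit 19356) (nat_lit 0) .nil) .nil)))) 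
(.nd (nat_lit 9) 
(.lf (nat_lit 450929) (.g (nat_lit 5105) (.e (nat_lit 2601) (nat_lit 163) (.e (nat_lit 163975) (nat_lit 30) (.e (nat_lit 573481) (nat_lit 13) (.e (nat_lit 65619) (nat_lit 10) (.e (nat_lit 344117) (nat_lit 21) (.e (nat_lit 516151) (nat_lit 9) (.e (nat_lit 426104) (nat_lit 1) (.e (nat_lit 164345) (nat_lit 240) .nil)))))))) (.g (nat_lit 1) (.e (nat_lit 17878) (nat_lit 0) .nil) .nil))) 
(.lf (nat_lit 451441) (.g (nat_lit 4067) (.e (nat_lit 2610) (nat_lit 163) (.e (nat_lit 163978) (nat_lit 30) (.e (nat_lit 573485) (nat_lit 13) (.e (nat_lit 65604) (nat_lit 9) (.e (nat_lit 336028) (nat_lit 3) (.e (nat_lit 98354) (nat_lit 26) (.e (nat_lit 426109) (nat_lit 1) (.e (nat_lit 164346) (nat_lit 240) .nil)))))))) (.g (nat_lit 1) (.e (nat_lit 19674) (nat_lit 0) .nil) .nil))))) 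
(.nd (nat_lit 8) (.nd (nat_lit 9) 
(.lf (nat_lit 450801) (.g (nat_lit 3108) (.e (nat_lit 2598) (nat_lit 163) (.e (nat_lit 164403) (nat_lit 256) (.e (nat_lit 57373) (nat_lit 2) (.e (nat_lit 90174) (nat_lit 14) (.e (nat_lit 180251) (nat_lit 10) .nil))))) (.g (nat_lit 0) (.e (nat_lit 17195) (nat_lit 0) .nil) .nil))) 
(.lf (nat_lit 451313) (.g (nat_lit 4008) (.e (nat_lit 2610) (nat_lit 163) (.e (nat_lit 163977) (nat_lit 30) (.e (nat_lit 573493) (nat_lit 15) (.e (nat_lit 81956) (nat_lit 23) (.e (nat_lit 98361) (nat_lit 26) .nil))))) (.g (nat_lit 0) (.e (nat_lit 19523) (nat_lit 0) .nil) .nil)))) (.nd (nat_lit 9) 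
(.lf (nat_lit 451057) (.g (nat_lit 2327) (.e (nat_lit 2606) (nat_lit 163) (.e (nat_lit 163978) (nat_lit 30) (.e (nat_lit 573489) (nat_lit 14) (.e (nat_lit 73755) (nat_lit 8) (.e (nat_lit 557105) (nat_lit 14) (.e (nat_lit 180245) (nat_lit 5) (.e (nat_lit 532503) (nat_lit 1) (.e (nat_lit 57659) (nat_lit 152) .nil)))))))) (.g (nat_lit 1) (.e (nat_lit 18697) (nat_lit 0) .nil) .nil))) 
(.lf (nat_lit 451569) (.g (nat_lit 3047) (.e (nat_lit 2610) (nat_lit 163) (.e (nat_lit 163979) (nat_lit 30) (.e (nat_lit 573482) (nat_lit 13) (.e (nat_lit 65604) (nat_lit 9) (.e (nat_lit 336028) (nat_lit 3) (.e (nat_lit 106240) (nat_lit 26) (.e (nat_lit 426107) (nat_lit 1) (.e (nat_lit 164347) (nat_lit 240) .nil)))))))) (.g (nat_lit 1) (.e (nat_lit 20162) (nat_lit 0) .nil) .nil))))))))) 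
(.nd (nat_lit 4) (.nd (nat_lit 5) (.nd (nat_lit 6) (.nd (nat_lit 7) (.nd (nat_lit 8) 
(.nd (nat_lit 9) 
(.lf (nat_lit 450569) (.g (nat_lit 3237) (.e (nat_lit 2569) (nat_lit 160) (.e (nat_lit 32807) (nat_lit 18) (.e (nat_lit 172119) (nat_lit 12) (.e (nat_lit 475183) (nat_lit 29) (.e (nat_lit 557103) (nat_lit 14) (.e (nat_lit 180285) (nat_lit 45) .nil)))))) (.g (nat_lit 1) (.e (nat_lit 16471) (nat_lit 0) .nil) .nil))) 
(.lf (nat_lit 451081) (.g (nat_lit 1466) (.e (nat_lit 2607) (nat_lit 163) (.e (nat_lit 164332) (nat_lit 230) (.e (nat_lit 163905) (nat_lit 12) (.e (nat_lit 426472) (nat_lit 25) .nil)))) (.g (nat_lit 0) (.e (nat_lit 18976) (nat_lit 0) .nil) .nil)))) (.nd (nat_lit 9) 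
(.lf (nat_lit 450825) (.g (nat_lit 2538) (.e (nat_lit 2599) (nat_lit 163) (.e (nat_lit 163978) (nat_lit 30) (.e (nat_lit 573479) (nat_lit 13) (.e (nat_lit 65619) (nat_lit 10) (.e (nat_lit 344117) (nat_lit 21) (.e (nat_lit 516151) (nat_lit 9) (.e (nat_lit 426097) (nat_lit 1) (.e (nat_lit 164346) (nat_lit 240) .nil)))))))) (.g (nat_lit 1) (.e (nat_lit 17315) (nat_lit 0) .nil) .nil))) 
(.lf (nat_lit 451337) (.g (nat_lit 2374) (.e (nat_lit 2610) (nat_lit 163) (.e (nat_lit 163978) (nat_lit 30) (.e (nat_lit 573479) (nat_lit 13) (.e (nat_lit 65604) (nat_lit 9) (.e (nat_lit 336013) (nat_lit 2) .nil))))) (.g (nat_lit 0) (.e (nat_lit 19563) (nat_lit 0) .nil) .nil))))) (.nd (nat_lit 8) (.nd (nat_lit 9) 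
(.lf (nat_lit 450697) (.g (nat_lit 2374) (.e (nat_lit 2587) (nat_lit 162) (.e (nat_lit 49189) (nat_lit 11) (.e (nat_lit 16425) (nat_lit 7) (.e (nat_lit 409648) (nat_lit 18) (.e (nat_lit 303142) (nat_lit 12) (.e (nat_lit 475197) (nat_lit 40) (.e (nat_lit 704790) (nat_lit 14) .nil))))))) (.g (nat_lit 1) (.e (nat_lit 16933) (nat_lit 0) .nil) .nil))) 
(.lf (nat_lit 451209) (.g (nat_lit 2696) (.e (nat_lit 2610) (nat_lit 163) (.e (nat_lit 163977) (nat_lit 30) (.e (nat_lit 573491) (nat_lit 15) (.e (nat_lit 81951) (nat_lit 22) (.e (nat_lit 90185) (nat_lit 17) (.e (nat_lit 237582) (nat_lit 1) (.e (nat_lit 164345) (nat_lit 240) .nil))))))) (.g (nat_lit 1) (.e (nat_lit 19385) (nat_lit 0) .nil) .nil)))) (.nd (nat_lit 9) 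
(.lf (nat_lit 450953) (.g (nat_lit 4908) (.e (nat_lit 2601) (nat_lit 163) (.e (nat_lit 163977) (nat_lit 30) (.e (nat_lit 573485) (nat_lit 13) (.e (nat_lit 65619) (nat_lit 10) (.e (nat_lit 344117) (nat_lit 21) (.e (nat_lit 516151) (nat_lit 9) (.e (nat_lit 426104) (nat_lit 1) (.e (nat_lit 164345) (nat_lit 240) .nil)))))))) (.g (nat_lit 1) (.e (nat_lit 18022) (nat_lit 0) .nil) .nil))) 
(.lf (nat_lit 451465) (.g (nat_lit 2505) (.e (nat_lit 2610) (nat_lit 163) (.e (nat_lit 163978) (nat_lit 30) (.e (nat_lit 573485) (nat_lit 13) (.e (nat_lit 65619) (nat_lit 10) (.e (nat_lit 344117) (nat_lit 21) (.e (nat_lit 516097) (nat_lit 0) (.e (nat_lit 7366) (nat_lit 388) (.e (nat_lit 2610) (nat_lit 163) (.e (nat_lit 164345) (nat_lit 240) .nil))))))))) (.g (nat_lit 1) (.e (nat_lit 19703) (nat_lit 0) .nil) .nil)))))) 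
(.nd (nat_lit 7) (.nd (nat_lit 8) (.nd (nat_lit 9) 
(.lf (nat_lit 450633) (.g (nat_lit 2154) (.e (nat_lit 2570) (nat_lit 160) (.e (nat_lit 32809) (nat_lit 20) (.e (nat_lit 188420) (nat_lit 0) (.e (nat_lit 1856) (nat_lit 124) (.e (nat_lit 557104) (nat_lit 14) (.e (nat_lit 180284) (nat_lit 45) .nil)))))) (.g (nat_lit 1) (.e (nat_lit 16675) (nat_lit 0) .nil) .nil))) 
(.lf (nat_lit 451145) (.g (nat_lit 3478) (.e (nat_lit 2610) (nat_lit 163) (.e (nat_lit 163977) (nat_lit 30) (.e (nat_lit 573484) (nat_lit 13) (.e (nat_lit 65610) (nat_lit 10) (.e (nat_lit 344117) (nat_lit 21) (.e (nat_lit 516143) (nat_lit 9) (.e (nat_lit 426109) (nat_lit 1) (.e (nat_lit 164347) (nat_lit 240) .nil)))))))) (.g (nat_lit 1) (.e (nat_lit 19315) (nat_lit 0) .nil) .nil)))) 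
(.nd (nat_lit 9) 
(.lf (nat_lit 450889) (.g (nat_lit 3972) (.e (nat_lit 2600) (nat_lit 163) (.e (nat_lit 163975) (nat_lit 30) (.e (nat_lit 573481) (nat_lit 13) (.e (nat_lit 65619) (nat_lit 10) (.e (nat_lit 344117) (nat_lit 21) (.e (nat_lit 516151) (nat_lit 9) (.e (nat_lit 426097) (nat_lit 1) (.e (nat_lit 164346) (nat_lit 240) .nil)))))))) (.g (nat_lit 1) (.e (nat_lit 17645) (nat_lit 0) .nil) .nil))) 
(.lf (nat_lit 451401) (.g (nat_lit 4001) (.e (nat_lit 2610) (nat_lit 163) (.e (nat_lit 163978) (nat_lit 30) (.e (nat_lit 573484) (nat_lit 13) (.e (nat_lit 65610) (nat_lit 10) (.e (nat_lit 344117) (nat_lit 21) (.e (nat_lit 516151) (nat_lit 9) (.e (nat_lit 426042) (nat_lit 0) (.e (nat_lit 2458) (nat_lit 157) (.e (nat_lit 5547) (nat_lit 306) .nil))))))))) (.g (nat_lit 1) (.e (nat_lit 19627) (nat_lit 0) .nil) .nil))))) 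
(.nd (nat_lit 8) (.nd (nat_lit 9) 
(.lf (nat_lit 450761) (.g (nat_lit 1506) (.e (nat_lit 7936) (nat_lit 162) (.e (nat_lit 49189) (nat_lit 11) (.e (nat_lit 16425) (nat_lit 7) (.e (nat_lit 409647) (nat_lit 18) (.e (nat_lit 303143) (nat_lit 12) .nil))))) (.g (nat_lit 0) (.e (nat_lit 17003) (nat_lit 0) .nil) .nil))) 
(.lf (nat_lit 451273) (.g (nat_lit 4398) (.e (nat_lit 2610) (nat_lit 163) (.e (nat_lit 163977) (nat_lit 30) (.e (nat_lit 573493) (nat_lit 15) (.e (nat_lit 81953) (nat_lit 22) (.e (nat_lit 90171) (nat_lit 14) (.e (nat_lit 180229) (nat_lit 0) (.e (nat_lit 5548) (nat_lit 306) .nil))))))) (.g (nat_lit 1) (.e (nat_lit 19475) (nat_lit 0) .nil) .nil)))) (.nd (nat_lit 9) 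
(.lf (nat_lit 451017) (.g (nat_lit 2441) (.e (nat_lit 2603) (nat_lit 163) (.e (nat_lit 164403) (nat_lit 256) (.e (nat_lit 57373) (nat_lit 2) (.e (nat_lit 90174) (nat_lit 14) (.e (nat_lit 180243) (nat_lit 5) .nil))))) (.g (nat_lit 0) (.e (nat_lit 18502) (nat_lit 0) .nil) .nil))) 
(.lf (nat_lit 451529) (.g (nat_lit 2520) (.e (nat_lit 2610) (nat_lit 163) (.e (nat_lit 163979) (nat_lit 30) (.e (nat_lit 573481) (nat_lit 13) (.e (nat_lit 65604) (nat_lit 9) (.e (nat_lit 336028) (nat_lit 3) .nil))))) (.g (nat_lit 0) (.e (nat_lit 20120) (nat_lit 0) .nil) .nil))))))) (.nd (nat_lit 6) (.nd (nat_lit 7) (.nd (nat_lit 8) (.nd (nat_lit 9) 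
(.lf (nat_lit 450601) (.g (nat_lit 3136) (.e (nat_lit 2570) (nat_lit 160) (.e (nat_lit 32807) (nat_lit 18) (.e (nat_lit 172119) (nat_lit 12) (.e (nat_lit 475183) (nat_lit 29) (.e (nat_lit 557103) (nat_lit 14) (.e (nat_lit 180285) (nat_lit 45) .nil)))))) (.g (nat_lit 1) (.e (nat_lit 16602) (nat_lit 0) .nil) .nil))) 
(.lf (nat_lit 451113) (.g (nat_lit 3143) (.e (nat_lit 2610) (nat_lit 163) (.e (nat_lit 163977) (nat_lit 30) (.e (nat_lit 573482) (nat_lit 13) (.e (nat_lit 65604) (nat_lit 9) (.e (nat_lit 336028) (nat_lit 3) (.e (nat_lit 98359) (nat_lit 26) (.e (nat_lit 426097) (nat_lit 1) (.e (nat_lit 164347) (nat_lit 240) .nil)))))))) (.g (nat_lit 1) (.e (nat_lit 19283) (nat_lit 0) .nil) .nil)))) 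
(.nd (nat_lit 9) 
(.lf (nat_lit 450857) (.g (nat_lit 4145) (.e (nat_lit 2599) (nat_lit 163) (.e (nat_lit 163979) (nat_lit 30) (.e (nat_lit 573482) (nat_lit 13) (.e (nat_lit 65604) (nat_lit 9) (.e (nat_lit 336028) (nat_lit 3) (.e (nat_lit 98359) (nat_lit 26) (.e (nat_lit 426097) (nat_lit 1) (.e (nat_lit 164348) (nat_lit 240) .nil)))))))) (.g (nat_lit 1) (.e (nat_lit 17397) (nat_lit 0) .nil) .nil))) 
(.lf (nat_lit 451369) (.g (nat_lit 4591) (.e (nat_lit 2610) (nat_lit 163) (.e (nat_lit 163978) (nat_lit 30) (.e (nat_lit 573479) (nat_lit 13) (.e (nat_lit 65619) (nat_lit 10) (.e (nat_lit 344117) (nat_lit 21) (.e (nat_lit 516151) (nat_lit 9) (.e (nat_lit 426097) (nat_lit 1) (.e (nat_lit 164347) (nat_lit 240) .nil)))))))) (.g (nat_lit 1) (.e (nat_lit 19595) (nat_lit 0) .nil) .nil))))) 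
(.nd (nat_lit 8) (.nd (nat_lit 9) 
(.lf (nat_lit 450729) (.g (nat_lit 3509) (.e (nat_lit 2591) (nat_lit 162) (.e (nat_lit 49189) (nat_lit 11) (.e (nat_lit 16425) (nat_lit 7) (.e (nat_lit 409649) (nat_lit 18) (.e (nat_lit 303132) (nat_lit 9) (.e (nat_lit 426025) (nat_lit 0) (.e (nat_lit 3399) (nat_lit 211) (.e (nat_lit 647205) (nat_lit 14) .nil)))))))) (.g (nat_lit 1) (.e (nat_lit 16966) (nat_lit 0) .nil) .nil))) 
(.lf (nat_lit 451241) (.g (nat_lit 3037) (.e (nat_lit 2610) (nat_lit 163) (.e (nat_lit 163977) (nat_lit 30) (.e (nat_lit 573492) (nat_lit 15) (.e (nat_lit 81956) (nat_lit 23) (.e (nat_lit 98356) (nat_lit 26) .nil))))) (.g (nat_lit 0) (.e (nat_lit 19433) (nat_lit 0) .nil) .nil)))) (.nd (nat_lit 9) 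
(.lf (nat_lit 450985) (.g (nat_lit 3735) (.e (nat_lit 2601) (nat_lit 163) (.e (nat_lit 163979) (nat_lit 30) (.e (nat_lit 573482) (nat_lit 13) (.e (nat_lit 65619) (nat_lit 10) (.e (nat_lit 344117) (nat_lit 21) (.e (nat_lit 516143) (nat_lit 9) (.e (nat_lit 426109) (nat_lit 1) (.e (nat_lit 164345) (nat_lit 240) .nil)))))))) (.g (nat_lit 1) (.e (nat_lit 18204) (nat_lit 0) .nil) .nil))) 
(.lf (nat_lit 451497) (.g (nat_lit 4627) (.e (nat_lit 2610) (nat_lit 163) (.e (nat_lit 163978) (nat_lit 30) (.e (nat_lit 573485) (nat_lit 13) (.e (nat_lit 65619) (nat_lit 10) (.e (nat_lit 344117) (nat_lit 21) (.e (nat_lit 516169) (nat_lit 13) (.e (nat_lit 458774) (nat_lit 18) (.e (nat_lit 5548) (nat_lit 306) .nil)))))))) (.g (nat_lit 1) (.e (nat_lit 19736) (nat_lit 0) .nil) .nil)))))) 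
(.nd (nat_lit 7) (.nd (nat_lit 8) (.nd (nat_lit 9) 
(.lf (nat_lit 450665) (.g (nat_lit 3056) (.e (nat_lit 2571) (nat_lit 160) (.e (nat_lit 32807) (nat_lit 18) (.e (nat_lit 172124) (nat_lit 14) (.e (nat_lit 491540) (nat_lit 3) (.e (nat_lit 98367) (nat_lit 27) (.e (nat_lit 434193) (nat_lit 13) .nil)))))) (.g (nat_lit 1) (.e (nat_lit 16861) (nat_lit 0) .nil) .nil))) 
(.lf (nat_lit 451177) (.g (nat_lit 1920) (.e (nat_lit 2610) (nat_lit 163) (.e (nat_lit 163977) (nat_lit 30) (.e (nat_lit 573485) (nat_lit 13) (.e (nat_lit 65604) (nat_lit 9) (.e (nat_lit 336028) (nat_lit 3) (.e (nat_lit 98359) (nat_lit 26) (.e (nat_lit 426104) (nat_lit 1) (.e (nat_lit 164347) (nat_lit 240) .nil)))))))) (.g (nat_lit 1) (.e (nat_lit 19348) (nat_lit 0) .nil) .nil)))) 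
(.nd (nat_lit 9) 
(.lf (nat_lit 450921) (.g (nat_lit 3810) (.e (nat_lit 2601) (nat_lit 163) (.e (nat_lit 163975) (nat_lit 30) (.e (nat_lit 573481) (nat_lit 13) (.e (nat_lit 65604) (nat_lit 9) (.e (nat_lit 336013) (nat_lit 2) (.e (nat_lit 90170) (nat_lit 13) (.e (nat_lit 172061) (nat_lit 1) (.e (nat_lit 164345) (nat_lit 240) .nil)))))))) (.g (nat_lit 1) (.e (nat_lit 17864) (nat_lit 0) .nil) .nil))) 
(.lf (nat_lit 451433) (.g (nat_lit 2205) (.e (nat_lit 2610) (nat_lit 163) (.e (nat_lit 163978) (nat_lit 30) (.e (nat_lit 573485) (nat_lit 13) (.e (nat_lit 65604) (nat_lit 9) (.e (nat_lit 336013) (nat_lit 2) (.e (nat_lit 90170) (nat_lit 13) (.e (nat_lit 172042) (nat_lit 0) (.e (nat_lit 2458) (nat_lit 157) (.e (nat_lit 5543) (nat_lit 306) .nil))))))))) (.g (nat_lit 1) (.e (nat_lit 19665) (nat_lit 0) .nil) .nil))))) 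
(.nd (nat_lit 8) (.nd (nat_lit 9) 
(.lf (nat_lit 450793) (.g (nat_lit 1964) (.e (nat_lit 2598) (nat_lit 163) (.e (nat_lit 163978) (nat_lit 30) (.e (nat_lit 573485) (nat_lit 13) (.e (nat_lit 65604) (nat_lit 9) (.e (nat_lit 336013) (nat_lit 2) .nil))))) (.g (nat_lit 0) (.e (nat_lit 17044) (nat_lit 0) .nil) .nil))) 
(.lf (nat_lit 451305) (.g (nat_lit 2471) (.e (nat_lit 2610) (nat_lit 163) (.e (nat_lit 163977) (nat_lit 30) (.e (nat_lit 573493) (nat_lit 15) (.e (nat_lit 81956) (nat_lit 23) (.e (nat_lit 98359) (nat_lit 26) (.e (nat_lit 426097) (nat_lit 1) (.e (nat_lit 164346) (nat_lit 240) .nil))))))) (.g (nat_lit 1) (.e (nat_lit 19515) (nat_lit 0) .nil) .nil)))) (.nd (nat_lit 9) 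
(.lf (nat_lit 451049) (.g (nat_lit 4516) (.e (nat_lit 2606) (nat_lit 163) (.e (nat_lit 163978) (nat_lit 30) (.e (nat_lit 573489) (nat_lit 14) (.e (nat_lit 73755) (nat_lit 8) (.e (nat_lit 557104) (nat_lit 14) (.e (nat_lit 180244) (nat_lit 5) (.e (nat_lit 532501) (nat_lit 1) (.e (nat_lit 57663) (nat_lit 152) .nil)))))))) (.g (nat_lit 1) (.e (nat_lit 18689) (nat_lit 0) .nil) .nil))) 
(.lf (nat_lit 451561) (.g (nat_lit 3540) (.e (nat_lit 2610) (nat_lit 163) (.e (nat_lit 163979) (nat_lit 30) (.e (nat_lit 573482) (nat_lit 13) (.e (nat_lit 65604) (nat_lit 9) (.e (nat_lit 336028) (nat_lit 3) (.e (nat_lit 98359) (nat_lit 26) (.e (nat_lit 426104) (nat_lit 1) (.e (nat_lit 164347) (nat_lit 240) .nil)))))))) (.g (nat_lit 1) (.e (nat_lit 20154) (nat_lit 0) .nil) .nil)))))))) 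
(.nd (nat_lit 5) (.nd (nat_lit 6) (.nd (nat_lit 7) (.nd (nat_lit 8) (.nd (nat_lit 9) 
(.lf (nat_lit 450585) (.g (nat_lit 2311) (.e (nat_lit 2569) (nat_lit 160) (.e (nat_lit 32808) (nat_lit 19) (.e (nat_lit 180277) (nat_lit 32) (.e (nat_lit 1235) (nat_lit 91) (.e (nat_lit 90172) (nat_lit 14) (.e (nat_lit 180285) (nat_lit 45) .nil)))))) (.g (nat_lit 1) (.e (nat_lit 16497) (nat_lit 0) .nil) .nil))) 
(.lf (nat_lit 451097) (.g (nat_lit 2405) (.e (nat_lit 2609) (nat_lit 163) (.e (nat_lit 164403) (nat_lit 256) (.e (nat_lit 57373) (nat_lit 2) (.e (nat_lit 90174) (nat_lit 14) (.e (nat_lit 180243) (nat_lit 5) (.e (nat_lit 532513) (nat_lit 3) (.e (nat_lit 114714) (nat_lit 22) (.e (nat_lit 90137) (nat_lit 9) .nil)))))))) (.g (nat_lit 1) (.e (nat_lit 19250) (nat_lit 0) .nil) .nil)))) (.nd (nat_lit 9) 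
(.lf (nat_lit 450841) (.g (nat_lit 4195) (.e (nat_lit 2599) (nat_lit 163) (.e (nat_lit 163978) (nat_lit 30) (.e (nat_lit 573485) (nat_lit 13) (.e (nat_lit 65619) (nat_lit 10) (.e (nat_lit 344117) (nat_lit 21) (.e (nat_lit 516151) (nat_lit 9) (.e (nat_lit 426097) (nat_lit 1) (.e (nat_lit 164346) (nat_lit 240) .nil)))))))) (.g (nat_lit 1) (.e (nat_lit 17351) (nat_lit 0) .nil) .nil))) 
(.lf (nat_lit 451353) (.g (nat_lit 3621) (.e (nat_lit 2610) (nat_lit 163) (.e (nat_lit 163978) (nat_lit 30) (.e (nat_lit 573479) (nat_lit 13) (.e (nat_lit 65604) (nat_lit 9) (.e (nat_lit 336028) (nat_lit 3) (.e (nat_lit 98366) (nat_lit 27) (.e (nat_lit 434209) (nat_lit 18) (.e (nat_lit 5547) (nat_lit 306) .nil)))))))) (.g (nat_lit 1) (.e (nat_lit 19579) (nat_lit 0) .nil) .nil))))) 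
(.nd (nat_lit 8) (.nd (nat_lit 9) 
(.lf (nat_lit 450713) (.g (nat_lit 3278) (.e (nat_lit 2591) (nat_lit 162) (.e (nat_lit 49189) (nat_lit 11) (.e (nat_lit 16425) (nat_lit 7) (.e (nat_lit 409643) (nat_lit 18) (.e (nat_lit 303143) (nat_lit 12) (.e (nat_lit 475199) (nat_lit 40) (.e (nat_lit 704836) (nat_lit 14) .nil))))))) (.g (nat_lit 1) (.e (nat_lit 16950) (nat_lit 0) .nil) .nil))) 
(.lf (nat_lit 451225) (.g (nat_lit 2006) (.e (nat_lit 2610) (nat_lit 163) (.e (nat_lit 163977) (nat_lit 30) (.e (nat_lit 573491) (nat_lit 15) (.e (nat_lit 81954) (nat_lit 23) (.e (nat_lit 98360) (nat_lit 26) .nil))))) (.g (nat_lit 0) (.e (nat_lit 19401) (nat_lit 0) .nil) .nil)))) (.nd (nat_lit 9) 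
(.lf (nat_lit 450969) (.g (nat_lit 2487) (.e (nat_lit 2601) (nat_lit 163) (.e (nat_lit 163978) (nat_lit 30) (.e (nat_lit 573485) (nat_lit 13) (.e (nat_lit 65619) (nat_lit 10) (.e (nat_lit 344117) (nat_lit 21) (.e (nat_lit 516171) (nat_lit 13) (.e (nat_lit 458774) (nat_lit 18) (.e (nat_lit 5547) (nat_lit 306) .nil)))))))) (.g (nat_lit 1) (.e (nat_lit 18171) (nat_lit 0) .nil) .nil))) 
(.lf (nat_lit 451481) (.g (nat_lit 3622) (.e (nat_lit 2610) (nat_lit 163) (.e (nat_lit 163978) (nat_lit 30) (.e (nat_lit 573485) (nat_lit 13) (.e (nat_lit 65619) (nat_lit 10) (.e (nat_lit 344117) (nat_lit 21) (.e (nat_lit 516152) (nat_lit 9) (.e (nat_lit 426109) (nat_lit 1) (.e (nat_lit 164345) (nat_lit 240) .nil)))))))) (.g (nat_lit 1) (.e (nat_lit 19720) (nat_lit 0) .nil) .nil)))))) 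
(.nd (nat_lit 7) (.nd (nat_lit 8) (.nd (nat_lit 9) 
(.lf (nat_lit 450649) (.g (nat_lit 2978) (.e (nat_lit 2571) (nat_lit 160) (.e (nat_lit 32807) (nat_lit 18) (.e (nat_lit 172120) (nat_lit 12) (.e (nat_lit 475185) (nat_lit 29) (.e (nat_lit 557100) (nat_lit 13) (.e (nat_lit 172039) (nat_lit 0) (.e (nat_lit 7013) (nat_lit 377) .nil))))))) (.g (nat_lit 1) (.e (nat_lit 16832) (nat_lit 0) .nil) .nil))) 
(.lf (nat_lit 451161) (.g (nat_lit 4058) (.e (nat_lit 2610) (nat_lit 163) (.e (nat_lit 163977) (nat_lit 30) (.e (nat_lit 573485) (nat_lit 13) (.e (nat_lit 65604) (nat_lit 9) (.e (nat_lit 336013) (nat_lit 2) (.e (nat_lit 90170) (nat_lit 13) (.e (nat_lit 172046) (nat_lit 0) (.e (nat_lit 2458) (nat_lit 157) (.e (nat_lit 5547) (nat_lit 306) .nil))))))))) (.g (nat_lit 1) (.e (nat_lit 19331) (nat_lit 0) .nil) .nil)))) 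
(.nd (nat_lit 9) 
(.lf (nat_lit 450905) (.g (nat_lit 3735) (.e (nat_lit 2600) (nat_lit 163) (.e (nat_lit 163977) (nat_lit 30) (.e (nat_lit 573485) (nat_lit 13) (.e (nat_lit 65619) (nat_lit 10) (.e (nat_lit 344117) (nat_lit 21) (.e (nat_lit 516151) (nat_lit 9) (.e (nat_lit 426097) (nat_lit 1) (.e (nat_lit 164346) (nat_lit 240) .nil)))))))) (.g (nat_lit 1) (.e (nat_lit 17724) (nat_lit 0) .nil) .nil))) 
(.lf (nat_lit 451417) (.g (nat_lit 2506) (.e (nat_lit 2610) (nat_lit 163) (.e (nat_lit 163978) (nat_lit 30) (.e (nat_lit 573484) (nat_lit 13) (.e (nat_lit 65610) (nat_lit 10) (.e (nat_lit 344117) (nat_lit 21) (.e (nat_lit 516159) (nat_lit 10) (.e (nat_lit 434211) (nat_lit 18) (.e (nat_lit 5548) (nat_lit 306) .nil)))))))) (.g (nat_lit 1) (.e (nat_lit 19643) (nat_lit 0) .nil) .nil))))) 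
(.nd (nat_lit 8) (.nd (nat_lit 9) 
(.lf (nat_lit 450777) (.g (nat_lit 370) (.e (nat_lit 2579) (nat_lit 161) (.e (nat_lit 40964) (nat_lit 0) (.e (nat_lit 1582) (nat_lit 111) (.e (nat_lit 368384) (nat_lit 10) .nil)))) (.g (nat_lit 0) (.e (nat_lit 17020) (nat_lit 0) .nil) .nil))) 
(.lf (nat_lit 451289) (.g (nat_lit 3829) (.e (nat_lit 2610) (nat_lit 163) (.e (nat_lit 163977) (nat_lit 30) (.e (nat_lit 573493) (nat_lit 15) (.e (nat_lit 81954) (nat_lit 23) (.e (nat_lit 98365) (nat_lit 26) (.e (nat_lit 426098) (nat_lit 1) (.e (nat_lit 164348) (nat_lit 240) .nil))))))) (.g (nat_lit 1) (.e (nat_lit 19491) (nat_lit 0) .nil) .nil)))) (.nd (nat_lit 9) 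
(.lf (nat_lit 451033) (.g (nat_lit 2870) (.e (nat_lit 2606) (nat_lit 163) (.e (nat_lit 163978) (nat_lit 30) (.e (nat_lit 573489) (nat_lit 14) (.e (nat_lit 73754) (nat_lit 8) (.e (nat_lit 557100) (nat_lit 13) .nil))))) (.g (nat_lit 0) (.e (nat_lit 18673) (nat_lit 0) .nil) .nil))) 
(.lf (nat_lit 451545) (.g (nat_lit 4637) (.e (nat_lit 2610) (nat_lit 163) (.e (nat_lit 163979) (nat_lit 30) (.e (nat_lit 573482) (nat_lit 13) (.e (nat_lit 65604) (nat_lit 9) (.e (nat_lit 336013) (nat_lit 2) (.e (nat_lit 90170) (nat_lit 13) (.e (nat_lit 172059) (nat_lit 1) (.e (nat_lit 164346) (nat_lit 240) .nil)))))))) (.g (nat_lit 1) (.e (nat_lit 20137) (nat_lit 0) .nil) .nil))))))) 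
(.nd (nat_lit 6) (.nd (nat_lit 7) (.nd (nat_lit 8) (.nd (nat_lit 9) 
(.lf (nat_lit 450617) (.g (nat_lit 3122) (.e (nat_lit 2570) (nat_lit 160) (.e (nat_lit 32807) (nat_lit 18) (.e (nat_lit 172126) (nat_lit 14) (.e (nat_lit 491536) (nat_lit 2) (.e (nat_lit 90172) (nat_lit 14) (.e (nat_lit 180285) (nat_lit 45) .nil)))))) (.g (nat_lit 1) (.e (nat_lit 16643) (nat_lit 0) .nil) .nil))) 
(.lf (nat_lit 451129) (.g (nat_lit 3546) (.e (nat_lit 2610) (nat_lit 163) (.e (nat_lit 163977) (nat_lit 30) (.e (nat_lit 573482) (nat_lit 13) (.e (nat_lit 65619) (nat_lit 10) (.e (nat_lit 344117) (nat_lit 21) (.e (nat_lit 516151) (nat_lit 9) (.e (nat_lit 426097) (nat_lit 1) (.e (nat_lit 164347) (nat_lit 240) .nil)))))))) (.g (nat_lit 1) (.e (nat_lit 19299) (nat_lit 0) .nil) .nil)))) 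
(.nd (nat_lit 9) 
(.lf (nat_lit 450873) (.g (nat_lit 4930) (.e (nat_lit 2599) (nat_lit 163) (.e (nat_lit 163979) (nat_lit 30) (.e (nat_lit 573482) (nat_lit 13) (.e (nat_lit 65619) (nat_lit 10) (.e (nat_lit 344117) (nat_lit 21) (.e (nat_lit 516160) (nat_lit 10) (.e (nat_lit 434209) (nat_lit 18) (.e (nat_lit 5546) (nat_lit 306) .nil)))))))) (.g (nat_lit 1) (.e (nat_lit 17413) (nat_lit 0) .nil) .nil))) 
(.lf (nat_lit 451385) (.g (nat_lit 4024) (.e (nat_lit 2610) (nat_lit 163) (.e (nat_lit 163978) (nat_lit 30) (.e (nat_lit 573479) (nat_lit 13) (.e (nat_lit 65619) (nat_lit 10) (.e (nat_lit 344117) (nat_lit 21) (.e (nat_lit 516169) (nat_lit 13) (.e (nat_lit 458774) (nat_lit 18) (.e (nat_lit 5547) (nat_lit 306) .nil)))))))) (.g (nat_lit 1) (.e (nat_lit 19611) (nat_lit 0) .nil) .nil))))) 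
(.nd (nat_lit 8) (.nd (nat_lit 9) 
(.lf (nat_lit 450745) (.g (nat_lit 3564) (.e (nat_lit 2592) (nat_lit 162) (.e (nat_lit 49189) (nat_lit 11) (.e (nat_lit 16425) (nat_lit 7) (.e (nat_lit 409648) (nat_lit 18) (.e (nat_lit 303137) (nat_lit 10) (.e (nat_lit 434272) (nat_lit 38) (.e (nat_lit 663296) (nat_lit 14) .nil))))))) (.g (nat_lit 1) (.e (nat_lit 16985) (nat_lit 0) .nil) .nil))) 
(.lf (nat_lit 451257) (.g (nat_lit 3583) (.e (nat_lit 2610) (nat_lit 163) (.e (nat_lit 163977) (nat_lit 30) (.e (nat_lit 573493) (nat_lit 15) (.e (nat_lit 81951) (nat_lit 22) (.e (nat_lit 90170) (nat_lit 13) (.e (nat_lit 172061) (nat_lit 1) (.e (nat_lit 164347) (nat_lit 240) .nil))))))) (.g (nat_lit 1) (.e (nat_lit 19452) (nat_lit 0) .nil) .nil)))) (.nd (nat_lit 9) 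
(.lf (nat_lit 451001) (.g (nat_lit 4591) (.e (nat_lit 2602) (nat_lit 163) (.e (nat_lit 163978) (nat_lit 30) (.e (nat_lit 573485) (nat_lit 13) (.e (nat_lit 65604) (nat_lit 9) (.e (nat_lit 336013) (nat_lit 2) (.e (nat_lit 90170) (nat_lit 13) (.e (nat_lit 172070) (nat_lit 4) (.e (nat_lit 229665) (nat_lit 240) .nil)))))))) (.g (nat_lit 1) (.e (nat_lit 18352) (nat_lit 0) .nil) .nil))) 
(.lf (nat_lit 451513) (.g (nat_lit 3371) (.e (nat_lit 2610) (nat_lit 163) (.e (nat_lit 163978) (nat_lit 30) (.e (nat_lit 573490) (nat_lit 15) (.e (nat_lit 81956) (nat_lit 23) (.e (nat_lit 98376) (nat_lit 30) .nil))))) (.g (nat_lit 0) (.e (nat_lit 20039) (nat_lit 0) .nil) .nil)))))) (.nd (nat_lit 7) (.nd (nat_lit 8) (.nd (nat_lit 9) 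
(.lf (nat_lit 450681) (.g (nat_lit 2002) (.e (nat_lit 2571) (nat_lit 160) (.e (nat_lit 32809) (nat_lit 20) (.e (nat_lit 188418) (nat_lit 0) (.e (nat_lit 1856) (nat_lit 124) (.e (nat_lit 557104) (nat_lit 14) (.e (nat_lit 180284) (nat_lit 45) .nil)))))) (.g (nat_lit 1) (.e (nat_lit 16896) (nat_lit 0) .nil) .nil))) 
(.lf (nat_lit 451193) (.g (nat_lit 3669) (.e (nat_lit 2610) (nat_lit 163) (.e (nat_lit 163977) (nat_lit 30) (.e (nat_lit 573485) (nat_lit 13) (.e (nat_lit 65619) (nat_lit 10) (.e (nat_lit 344117) (nat_lit 21) (.e (nat_lit 516159) (nat_lit 10) (.e (nat_lit 434209) (nat_lit 18) (.e (nat_lit 5547) (nat_lit 306) .nil)))))))) (.g (nat_lit 1) (.e (nat_lit 19364) (nat_lit 0) .nil) .nil)))) 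
(.nd (nat_lit 9) 
(.lf (nat_lit 450937) (.g (nat_lit 1598) (.e (nat_lit 2601) (nat_lit 163) (.e (nat_lit 163977) (nat_lit 30) (.e (nat_lit 573479) (nat_lit 13) (.e (nat_lit 65619) (nat_lit 10) (.e (nat_lit 344117) (nat_lit 21) (.e (nat_lit 516159) (nat_lit 10) (.e (nat_lit 434209) (nat_lit 18) (.e (nat_lit 5547) (nat_lit 306) .nil)))))))) (.g (nat_lit 1) (.e (nat_lit 18003) (nat_lit 0) .nil) .nil))) 
(.lf (nat_lit 451449) (.g (nat_lit 3877) (.e (nat_lit 2610) (nat_lit 163) (.e (nat_lit 163978) (nat_lit 30) (.e (nat_lit 573485) (nat_lit 13) (.e (nat_lit 65604) (nat_lit 9) (.e (nat_lit 336028) (nat_lit 3) (.e (nat_lit 98359) (nat_lit 26) (.e (nat_lit 426104) (nat_lit 1) (.e (nat_lit 164348) (nat_lit 240) .nil)))))))) (.g (nat_lit 1) (.e (nat_lit 19686) (nat_lit 0) .nil) .nil))))) 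
(.nd (nat_lit 8) (.nd (nat_lit 9) 
(.lf (nat_lit 450809) (.g (nat_lit 3573) (.e (nat_lit 2599) (nat_lit 163) (.e (nat_lit 163976) (nat_lit 30) (.e (nat_lit 573481) (nat_lit 13) (.e (nat_lit 65619) (nat_lit 10) (.e (nat_lit 344117) (nat_lit 21) (.e (nat_lit 516143) (nat_lit 9) (.e (nat_lit 426109) (nat_lit 1) (.e (nat_lit 164346) (nat_lit 240) .nil)))))))) (.g (nat_lit 1) (.e (nat_lit 17244) (nat_lit 0) .nil) .nil))) 
(.lf (nat_lit 451321) (.g (nat_lit 3704) (.e (nat_lit 2610) (nat_lit 163) (.e (nat_lit 163977) (nat_lit 30) (.e (nat_lit 573493) (nat_lit 15) (.e (nat_lit 81956) (nat_lit 23) (.e (nat_lit 106240) (nat_lit 26) (.e (nat_lit 426107) (nat_lit 1) (.e (nat_lit 164347) (nat_lit 240) .nil))))))) (.g (nat_lit 1) (.e (nat_lit 19531) (nat_lit 0) .nil) .nil)))) (.nd (nat_lit 9) 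
(.lf (nat_lit 451065) (.g (nat_lit 2255) (.e (nat_lit 2606) (nat_lit 163) (.e (nat_lit 163979) (nat_lit 30) (.e (nat_lit 573489) (nat_lit 14) (.e (nat_lit 73755) (nat_lit 8) (.e (nat_lit 557104) (nat_lit 14) (.e (nat_lit 180244) (nat_lit 5) (.e (nat_lit 532503) (nat_lit 1) (.e (nat_lit 57659) (nat_lit 152) .nil)))))))) (.g (nat_lit 1) (.e (nat_lit 18711) (nat_lit 0) .nil) .nil))) 
(.lf (nat_lit 451577) (.g (nat_lit 2072) (.e (nat_lit 2610) (nat_lit 163) (.e (nat_lit 163979) (nat_lit 30) (.e (nat_lit 573482) (nat_lit 13) (.e (nat_lit 65604) (nat_lit 9) (.e (nat_lit 336028) (nat_lit 3) (.e (nat_lit 98367) (nat_lit 27) (.e (nat_lit 434213) (nat_lit 18) (.e (nat_lit 5543) (nat_lit 306) .nil)))))))) (.g (nat_lit 1) (.e (nat_lit 20170) (nat_lit 0) .nil) .nil)))))))))) 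
(.nd (nat_lit 3) (.nd (nat_lit 4) (.nd (nat_lit 5) (.nd (nat_lit 6) (.nd (nat_lit 7) 
(.nd (nat_lit 8) (.nd (nat_lit 9) 
(.lf (nat_lit 450565) (.g (nat_lit 2622) (.e (nat_lit 2569) (nat_lit 160) (.e (nat_lit 32807) (nat_lit 18) (.e (nat_lit 172118) (nat_lit 12) (.e (nat_lit 475184) (nat_lit 29) (.e (nat_lit 557103) (nat_lit 14) (.e (nat_lit 180285) (nat_lit 45) .nil)))))) (.g (nat_lit 1) (.e (nat_lit 16467) (nat_lit 0) .nil) .nil))) 
(.lf (nat_lit 451077) (.g (nat_lit 2354) (.e (nat_lit 2607) (nat_lit 163) (.e (nat_lit 163979) (nat_lit 30) (.e (nat_lit 573482) (nat_lit 13) (.e (nat_lit 65604) (nat_lit 9) (.e (nat_lit 336013) (nat_lit 2) (.e (nat_lit 90170) (nat_lit 13) (.e (nat_lit 172061) (nat_lit 1) (.e (nat_lit 164346) (nat_lit 240) .nil)))))))) (.g (nat_lit 1) (.e (nat_lit 18811) (nat_lit 0) .nil) .nil)))) 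
(.nd (nat_lit 9) 
(.lf (nat_lit 450821) (.g (nat_lit 2584) (.e (nat_lit 2599) (nat_lit 163) (.e (nat_lit 163978) (nat_lit 30) (.e (nat_lit 573479) (nat_lit 13) (.e (nat_lit 65619) (nat_lit 10) (.e (nat_lit 344117) (nat_lit 21) (.e (nat_lit 516097) (nat_lit 0) (.e (nat_lit 7366) (nat_lit 388) (.e (nat_lit 2610) (nat_lit 163) (.e (nat_lit 164347) (nat_lit 240) .nil))))))))) (.g (nat_lit 1) (.e (nat_lit 17311) (nat_lit 0) .nil) .nil))) 
(.lf (nat_lit 451333) (.g (nat_lit 4546) (.e (nat_lit 2610) (nat_lit 163) (.e (nat_lit 163977) (nat_lit 30) (.e (nat_lit 573493) (nat_lit 15) (.e (nat_lit 81956) (nat_lit 23) (.e (nat_lit 98368) (nat_lit 27) (.e (nat_lit 434209) (nat_lit 18) (.e (nat_lit 5547) (nat_lit 306) .nil))))))) (.g (nat_lit 1) (.e (nat_lit 19543) (nat_lit 0) .nil) .nil))))) (.nd (nat_lit 8) (.nd (nat_lit 9) 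
(.lf (nat_lit 450693) (.g (nat_lit 1580) (.e (nat_lit 2587) (nat_lit 162) (.e (nat_lit 49189) (nat_lit 11) (.e (nat_lit 16425) (nat_lit 7) (.e (nat_lit 409647) (nat_lit 18) (.e (nat_lit 303143) (nat_lit 12) .nil))))) (.g (nat_lit 0) (.e (nat_lit 16929) (nat_lit 0) .nil) .nil))) 
(.lf (nat_lit 451205) (.g (nat_lit 2893) (.e (nat_lit 2610) (nat_lit 163) (.e (nat_lit 163977) (nat_lit 30) (.e (nat_lit 573491) (nat_lit 15) (.e (nat_lit 81951) (nat_lit 22) (.e (nat_lit 90170) (nat_lit 13) (.e (nat_lit 172059) (nat_lit 1) (.e (nat_lit 164345) (nat_lit 240) .nil))))))) (.g (nat_lit 1) (.e (nat_lit 19378) (nat_lit 0) .nil) .nil)))) (.nd (nat_lit 9) 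
(.lf (nat_lit 450949) (.g (nat_lit 3345) (.e (nat_lit 2601) (nat_lit 163) (.e (nat_lit 163977) (nat_lit 30) (.e (nat_lit 573484) (nat_lit 13) (.e (nat_lit 65610) (nat_lit 10) (.e (nat_lit 344117) (nat_lit 21) (.e (nat_lit 516151) (nat_lit 9) (.e (nat_lit 426104) (nat_lit 1) (.e (nat_lit 164347) (nat_lit 240) .nil)))))))) (.g (nat_lit 1) (.e (nat_lit 18016) (nat_lit 0) .nil) .nil))) 
(.lf (nat_lit 451461) (.g (nat_lit 2073) (.e (nat_lit 2610) (nat_lit 163) (.e (nat_lit 163978) (nat_lit 30) (.e (nat_lit 573485) (nat_lit 13) (.e (nat_lit 65604) (nat_lit 9) (.e (nat_lit 336028) (nat_lit 3) (.e (nat_lit 98367) (nat_lit 27) (.e (nat_lit 434213) (nat_lit 18) (.e (nat_lit 5543) (nat_lit 306) .nil)))))))) (.g (nat_lit 1) (.e (nat_lit 19698) (nat_lit 0) .nil) .nil)))))) 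
(.nd (nat_lit 7) (.nd (nat_lit 8) (.nd (nat_lit 9) 
(.lf (nat_lit 450629) (.g (nat_lit 2336) (.e (nat_lit 2570) (nat_lit 160) (.e (nat_lit 32808) (nat_lit 19) (.e (nat_lit 180277) (nat_lit 32) (.e (nat_lit 1235) (nat_lit 91) (.e (nat_lit 90174) (nat_lit 14) (.e (nat_lit 180288) (nat_lit 45) .nil)))))) (.g (nat_lit 1) (.e (nat_lit 16661) (nat_lit 0) .nil) .nil))) 
(.lf (nat_lit 451141) (.g (nat_lit 2632) (.e (nat_lit 2610) (nat_lit 163) (.e (nat_lit 163977) (nat_lit 30) (.e (nat_lit 573482) (nat_lit 13) (.e (nat_lit 65619) (nat_lit 10) (.e (nat_lit 344117) (nat_lit 21) (.e (nat_lit 516171) (nat_lit 13) (.e (nat_lit 458774) (nat_lit 18) (.e (nat_lit 5547) (nat_lit 306) .nil)))))))) (.g (nat_lit 1) (.e (nat_lit 19311) (nat_lit 0) .nil) .nil)))) 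
(.nd (nat_lit 9) 
(.lf (nat_lit 450885) (.g (nat_lit 1585) (.e (nat_lit 2600) (nat_lit 163) (.e (nat_lit 163975) (nat_lit 30) (.e (nat_lit 573451) (nat_lit 9) (.e (nat_lit 1569) (nat_lit 110) .nil)))) (.g (nat_lit 0) (.e (nat_lit 17636) (nat_lit 0) .nil) .nil))) 
(.lf (nat_lit 451397) (.g (nat_lit 2708) (.e (nat_lit 2610) (nat_lit 163) (.e (nat_lit 163978) (nat_lit 30) (.e (nat_lit 573484) (nat_lit 13) (.e (nat_lit 65610) (nat_lit 10) (.e (nat_lit 344117) (nat_lit 21) (.e (nat_lit 516145) (nat_lit 9) (.e (nat_lit 426112) (nat_lit 1) (.e (nat_lit 164348) (nat_lit 240) .nil)))))))) (.g (nat_lit 1) (.e (nat_lit 19623) (nat_lit 0) .nil) .nil))))) 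
(.nd (nat_lit 8) (.nd (nat_lit 9) 
(.lf (nat_lit 450757) (.g (nat_lit 1463) (.e (nat_lit 2593) (nat_lit 162) (.e (nat_lit 49185) (nat_lit 11) (.e (nat_lit 16425) (nat_lit 7) (.e (nat_lit 409643) (nat_lit 18) (.e (nat_lit 303143) (nat_lit 12) .nil))))) (.g (nat_lit 0) (.e (nat_lit 16999) (nat_lit 0) .nil) .nil))) 
(.lf (nat_lit 451269) (.g (nat_lit 3306) (.e (nat_lit 2610) (nat_lit 163) (.e (nat_lit 163977) (nat_lit 30) (.e (nat_lit 573493) (nat_lit 15) (.e (nat_lit 81953) (nat_lit 22) (.e (nat_lit 90170) (nat_lit 13) (.e (nat_lit 172061) (nat_lit 1) (.e (nat_lit 164345) (nat_lit 240) .nil))))))) (.g (nat_lit 1) (.e (nat_lit 19471) (nat_lit 0) .nil) .nil)))) (.nd (nat_lit 9) 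
(.lf (nat_lit 451013) (.g (nat_lit 3247) (.e (nat_lit 2602) (nat_lit 163) (.e (nat_lit 164403) (nat_lit 256) (.e (nat_lit 57373) (nat_lit 2) (.e (nat_lit 90174) (nat_lit 14) (.e (nat_lit 180252) (nat_lit 10) .nil))))) (.g (nat_lit 0) (.e (nat_lit 18475) (nat_lit 0) .nil) .nil))) 
(.lf (nat_lit 451525) (.g (nat_lit 5000) (.e (nat_lit 2610) (nat_lit 163) (.e (nat_lit 163978) (nat_lit 30) (.e (nat_lit 573493) (nat_lit 15) (.e (nat_lit 81956) (nat_lit 23) (.e (nat_lit 106240) (nat_lit 26) .nil))))) (.g (nat_lit 0) (.e (nat_lit 20087) (nat_lit 0) .nil) .nil))))))) (.nd (nat_lit 6) (.nd (nat_lit 7) (.nd (nat_lit 8) (.nd (nat_lit 9) 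
(.lf (nat_lit 450597) (.g (nat_lit 2804) (.e (nat_lit 2570) (nat_lit 160) (.e (nat_lit 32807) (nat_lit 18) (.e (nat_lit 172118) (nat_lit 12) (.e (nat_lit 475185) (nat_lit 29) (.e (nat_lit 557103) (nat_lit 14) (.e (nat_lit 180288) (nat_lit 45) .nil)))))) (.g (nat_lit 1) (.e (nat_lit 16598) (nat_lit 0) .nil) .nil))) 
(.lf (nat_lit 451109) (.g (nat_lit 2369) (.e (nat_lit 2610) (nat_lit 163) (.e (nat_lit 163977) (nat_lit 30) (.e (nat_lit 573482) (nat_lit 13) (.e (nat_lit 65604) (nat_lit 9) (.e (nat_lit 336028) (nat_lit 3) (.e (nat_lit 98354) (nat_lit 26) (.e (nat_lit 426109) (nat_lit 1) (.e (nat_lit 164346) (nat_lit 240) .nil)))))))) (.g (nat_lit 1) (.e (nat_lit 19279) (nat_lit 0) .nil) .nil)))) 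
(.nd (nat_lit 9) 
(.lf (nat_lit 450853) (.g (nat_lit 1950) (.e (nat_lit 2599) (nat_lit 163) (.e (nat_lit 163979) (nat_lit 30) (.e (nat_lit 573482) (nat_lit 13) (.e (nat_lit 65604) (nat_lit 9) (.e (nat_lit 336028) (nat_lit 3) .nil))))) (.g (nat_lit 0) (.e (nat_lit 17390) (nat_lit 0) .nil) .nil))) 
(.lf (nat_lit 451365) (.g (nat_lit 3614) (.e (nat_lit 2610) (nat_lit 163) (.e (nat_lit 163978) (nat_lit 30) (.e (nat_lit 573479) (nat_lit 13) (.e (nat_lit 65619) (nat_lit 10) (.e (nat_lit 344117) (nat_lit 21) (.e (nat_lit 516151) (nat_lit 9) (.e (nat_lit 426018) (nat_lit 0) (.e (nat_lit 2536) (nat_lit 157) (.e (nat_lit 5543) (nat_lit 306) .nil))))))))) (.g (nat_lit 1) (.e (nat_lit 19591) (nat_lit 0) .nil) .nil))))) 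
(.nd (nat_lit 8) (.nd (nat_lit 9) 
(.lf (nat_lit 450725) (.g (nat_lit 2352) (.e (nat_lit 2591) (nat_lit 162) (.e (nat_lit 49189) (nat_lit 11) (.e (nat_lit 16425) (nat_lit 7) (.e (nat_lit 409648) (nat_lit 18) (.e (nat_lit 303142) (nat_lit 12) (.e (nat_lit 475197) (nat_lit 40) (.e (nat_lit 704790) (nat_lit 14) .nil))))))) (.g (nat_lit 1) (.e (nat_lit 16962) (nat_lit 0) .nil) .nil))) 
(.lf (nat_lit 451237) (.g (nat_lit 4788) (.e (nat_lit 2610) (nat_lit 163) (.e (nat_lit 163977) (nat_lit 30) (.e (nat_lit 573492) (nat_lit 15) (.e (nat_lit 81953) (nat_lit 22) (.e (nat_lit 90170) (nat_lit 13) .nil))))) (.g (nat_lit 0) (.e (nat_lit 19417) (nat_lit 0) .nil) .nil)))) (.nd (nat_lit 9) 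
(.lf (nat_lit 450981) (.g (nat_lit 3297) (.e (nat_lit 2601) (nat_lit 163) (.e (nat_lit 163979) (nat_lit 30) (.e (nat_lit 573482) (nat_lit 13) (.e (nat_lit 65604) (nat_lit 9) (.e (nat_lit 336028) (nat_lit 3) (.e (nat_lit 98366) (nat_lit 27) (.e (nat_lit 434209) (nat_lit 18) (.e (nat_lit 5546) (nat_lit 306) .nil)))))))) (.g (nat_lit 1) (.e (nat_lit 18200) (nat_lit 0) .nil) .nil))) 
(.lf (nat_lit 451493) (.g (nat_lit 3427) (.e (nat_lit 2610) (nat_lit 163) (.e (nat_lit 163978) (nat_lit 30) (.e (nat_lit 573485) (nat_lit 13) (.e (nat_lit 65619) (nat_lit 10) (.e (nat_lit 344117) (nat_lit 21) (.e (nat_lit 516168) (nat_lit 13) (.e (nat_lit 458774) (nat_lit 18) (.e (nat_lit 5548) (nat_lit 306) .nil)))))))) (.g (nat_lit 1) (.e (nat_lit 19732) (nat_lit 0) .nil) .nil)))))) 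
(.nd (nat_lit 7) (.nd (nat_lit 8) (.nd (nat_lit 9) 
(.lf (nat_lit 450661) (.g (nat_lit 3183) (.e (nat_lit 2571) (nat_lit 160) (.e (nat_lit 32807) (nat_lit 18) (.e (nat_lit 172124) (nat_lit 14) (.e (nat_lit 491537) (nat_lit 2) (.e (nat_lit 90174) (nat_lit 14) (.e (nat_lit 180288) (nat_lit 45) .nil)))))) (.g (nat_lit 1) (.e (nat_lit 16854) (nat_lit 0) .nil) .nil))) 
(.lf (nat_lit 451173) (.g (nat_lit 2242) (.e (nat_lit 2610) (nat_lit 163) (.e (nat_lit 163977) (nat_lit 30) (.e (nat_lit 573485) (nat_lit 13) (.e (nat_lit 65604) (nat_lit 9) (.e (nat_lit 336028) (nat_lit 3) (.e (nat_lit 98359) (nat_lit 26) (.e (nat_lit 426097) (nat_lit 1) (.e (nat_lit 164346) (nat_lit 240) .nil)))))))) (.g (nat_lit 1) (.e (nat_lit 19344) (nat_lit 0) .nil) .nil)))) 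
(.nd (nat_lit 9) 
(.lf (nat_lit 450917) (.g (nat_lit 2249) (.e (nat_lit 2601) (nat_lit 163) (.e (nat_lit 163962) (nat_lit 25) (.e (nat_lit 532544) (nat_lit 10) (.e (nat_lit 344131) (nat_lit 26) (.e (nat_lit 557098) (nat_lit 13) (.e (nat_lit 179968) (nat_lit 18) (.e (nat_lit 98335) (nat_lit 18) (.e (nat_lit 164345) (nat_lit 240) .nil)))))))) (.g (nat_lit 1) (.e (nat_lit 17847) (nat_lit 0) .nil) .nil))) 
(.lf (nat_lit 451429) (.g (nat_lit 1860) (.e (nat_lit 2610) (nat_lit 163) (.e (nat_lit 163978) (nat_lit 30) (.e (nat_lit 573485) (nat_lit 13) (.e (nat_lit 65604) (nat_lit 9) (.e (nat_lit 336013) (nat_lit 2) .nil))))) (.g (nat_lit 0) (.e (nat_lit 19658) (nat_lit 0) .nil) .nil))))) (.nd (nat_lit 8) (.nd (nat_lit 9) 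
(.lf (nat_lit 450789) (.g (nat_lit 1441) (.e (nat_lit 2580) (nat_lit 161) (.e (nat_lit 40965) (nat_lit 0) (.e (nat_lit 1582) (nat_lit 111) (.e (nat_lit 360477) (nat_lit 11) (.e (nat_lit 581652) (nat_lit 5) (.e (nat_lit 180285) (nat_lit 45) .nil)))))) (.g (nat_lit 1) (.e (nat_lit 17032) (nat_lit 0) .nil) .nil))) 
(.lf (nat_lit 451301) (.g (nat_lit 3121) (.e (nat_lit 2610) (nat_lit 163) (.e (nat_lit 163977) (nat_lit 30) (.e (nat_lit 573493) (nat_lit 15) (.e (nat_lit 81956) (nat_lit 23) (.e (nat_lit 98356) (nat_lit 26) (.e (nat_lit 433920) (nat_lit 1) (.e (nat_lit 164347) (nat_lit 240) .nil))))))) (.g (nat_lit 1) (.e (nat_lit 19511) (nat_lit 0) .nil) .nil)))) (.nd (nat_lit 9) 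
(.lf (nat_lit 451045) (.g (nat_lit 3931) (.e (nat_lit 2606) (nat_lit 163) (.e (nat_lit 163978) (nat_lit 30) (.e (nat_lit 573489) (nat_lit 14) (.e (nat_lit 73755) (nat_lit 8) (.e (nat_lit 557103) (nat_lit 14) (.e (nat_lit 180244) (nat_lit 5) (.e (nat_lit 532503) (nat_lit 1) (.e (nat_lit 57658) (nat_lit 152) .nil)))))))) (.g (nat_lit 1) (.e (nat_lit 18685) (nat_lit 0) .nil) .nil))) 
(.lf (nat_lit 451557) (.g (nat_lit 2269) (.e (nat_lit 2610) (nat_lit 163) (.e (nat_lit 163979) (nat_lit 30) (.e (nat_lit 573482) (nat_lit 13) (.e (nat_lit 65604) (nat_lit 9) (.e (nat_lit 336028) (nat_lit 3) (.e (nat_lit 98359) (nat_lit 26) (.e (nat_lit 426103) (nat_lit 1) (.e (nat_lit 164347) (nat_lit 240) .nil)))))))) (.g (nat_lit 1) (.e (nat_lit 20150) (nat_lit 0) .nil) .nil)))))))) 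
(.nd (nat_lit 5) (.nd (nat_lit 6) (.nd (nat_lit 7) (.nd (nat_lit 8) (.nd (nat_lit 9) 
(.lf (nat_lit 450581) (.g (nat_lit 3127) (.e (nat_lit 2569) (nat_lit 160) (.e (nat_lit 32807) (nat_lit 18) (.e (nat_lit 172126) (nat_lit 14) (.e (nat_lit 491536) (nat_lit 2) (.e (nat_lit 90172) (nat_lit 14) (.e (nat_lit 180285) (nat_lit 45) .nil)))))) (.g (nat_lit 1) (.e (nat_lit 16490) (nat_lit 0) .nil) .nil))) 
(.lf (nat_lit 451093) (.g (nat_lit 3822) (.e (nat_lit 2609) (nat_lit 163) (.e (nat_lit 164402) (nat_lit 256) (.e (nat_lit 57371) (nat_lit 2) (.e (nat_lit 90174) (nat_lit 14) (.e (nat_lit 180243) (nat_lit 5) (.e (nat_lit 532515) (nat_lit 3) (.e (nat_lit 114716) (nat_lit 22) (.e (nat_lit 90137) (nat_lit 9) .nil)))))))) (.g (nat_lit 1) (.e (nat_lit 19246) (nat_lit 0) .nil) .nil)))) (.nd (nat_lit 9) 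
(.lf (nat_lit 450837) (.g (nat_lit 2010) (.e (nat_lit 2599) (nat_lit 163) (.e (nat_lit 163978) (nat_lit 30) (.e (nat_lit 573485) (nat_lit 13) (.e (nat_lit 65604) (nat_lit 9) (.e (nat_lit 336028) (nat_lit 3) (.e (nat_lit 98367) (nat_lit 27) (.e (nat_lit 434211) (nat_lit 18) (.e (nat_lit 5546) (nat_lit 306) .nil)))))))) (.g (nat_lit 1) (.e (nat_lit 17347) (nat_lit 0) .nil) .nil))) 
(.lf (nat_lit 451349) (.g (nat_lit 2961) (.e (nat_lit 2610) (nat_lit 163) (.e (nat_lit 163978) (nat_lit 30) (.e (nat_lit 573479) (nat_lit 13) (.e (nat_lit 65604) (nat_lit 9) (.e (nat_lit 336028) (nat_lit 3) (.e (nat_lit 98359) (nat_lit 26) (.e (nat_lit 426097) (nat_lit 1) (.e (nat_lit 164345) (nat_lit 240) .nil)))))))) (.g (nat_lit 1) (.e (nat_lit 19575) (nat_lit 0) .nil) .nil))))) 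
(.nd (nat_lit 8) (.nd (nat_lit 9) 
(.lf (nat_lit 450709) (.g (nat_lit 3691) (.e (nat_lit 2591) (nat_lit 162) (.e (nat_lit 49189) (nat_lit 11) (.e (nat_lit 16425) (nat_lit 7) (.e (nat_lit 409623) (nat_lit 10) (.e (nat_lit 5664) (nat_lit 312) (.e (nat_lit 3062) (nat_lit 190) (.e (nat_lit 475198) (nat_lit 40) (.e (nat_lit 704790) (nat_lit 14) .nil)))))))) (.g (nat_lit 1) (.e (nat_lit 16946) (nat_lit 0) .nil) .nil))) 
(.lf (nat_lit 451221) (.g (nat_lit 1719) (.e (nat_lit 2610) (nat_lit 163) (.e (nat_lit 163977) (nat_lit 30) (.e (nat_lit 573491) (nat_lit 15) (.e (nat_lit 81954) (nat_lit 23) (.e (nat_lit 98359) (nat_lit 26) .nil))))) (.g (nat_lit 0) (.e (nat_lit 19397) (nat_lit 0) .nil) .nil)))) (.nd (nat_lit 9) 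
(.lf (nat_lit 450965) (.g (nat_lit 2442) (.e (nat_lit 2601) (nat_lit 163) (.e (nat_lit 163978) (nat_lit 30) (.e (nat_lit 573485) (nat_lit 13) (.e (nat_lit 65604) (nat_lit 9) (.e (nat_lit 336013) (nat_lit 2) (.e (nat_lit 90170) (nat_lit 13) (.e (nat_lit 172049) (nat_lit 0) (.e (nat_lit 2458) (nat_lit 157) (.e (nat_lit 5547) (nat_lit 306) .nil))))))))) (.g (nat_lit 1) (.e (nat_lit 18165) (nat_lit 0) .nil) .nil))) 
(.lf (nat_lit 451477) (.g (nat_lit 5880) (.e (nat_lit 2610) (nat_lit 163) (.e (nat_lit 163978) (nat_lit 30) (.e (nat_lit 573485) (nat_lit 13) (.e (nat_lit 65619) (nat_lit 10) (.e (nat_lit 344117) (nat_lit 21) (.e (nat_lit 516151) (nat_lit 9) (.e (nat_lit 426104) (nat_lit 1) (.e (nat_lit 164345) (nat_lit 240) .nil)))))))) (.g (nat_lit 1) (.e (nat_lit 19716) (nat_lit 0) .nil) .nil)))))) 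
(.nd (nat_lit 7) (.nd (nat_lit 8) (.nd (nat_lit 9) 
(.lf (nat_lit 450645) (.g (nat_lit 1759) (.e (nat_lit 2571) (nat_lit 160) (.e (nat_lit 32807) (nat_lit 18) (.e (nat_lit 172119) (nat_lit 12) (.e (nat_lit 475184) (nat_lit 29) (.e (nat_lit 557103) (nat_lit 14) (.e (nat_lit 180288) (nat_lit 45) .nil)))))) (.g (nat_lit 1) (.e (nat_lit 16828) (nat_lit 0) .nil) .nil))) 
(.lf (nat_lit 451157) (.g (nat_lit 2290) (.e (nat_lit 2610) (nat_lit 163) (.e (nat_lit 163977) (nat_lit 30) (.e (nat_lit 573484) (nat_lit 13) (.e (nat_lit 65610) (nat_lit 10) (.e (nat_lit 344117) (nat_lit 21) (.e (nat_lit 516169) (nat_lit 13) (.e (nat_lit 458774) (nat_lit 18) (.e (nat_lit 5547) (nat_lit 306) .nil)))))))) (.g (nat_lit 1) (.e (nat_lit 19327) (nat_lit 0) .nil) .nil)))) 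
(.nd (nat_lit 9) 
(.lf (nat_lit 450901) (.g (nat_lit 4956) (.e (nat_lit 2600) (nat_lit 163) (.e (nat_lit 163977) (nat_lit 30) (.e (nat_lit 573482) (nat_lit 13) (.e (nat_lit 65619) (nat_lit 10) (.e (nat_lit 344117) (nat_lit 21) (.e (nat_lit 516151) (nat_lit 9) (.e (nat_lit 426104) (nat_lit 1) (.e (nat_lit 164345) (nat_lit 240) .nil)))))))) (.g (nat_lit 1) (.e (nat_lit 17716) (nat_lit 0) .nil) .nil))) 
(.lf (nat_lit 451413) (.g (nat_lit 2467) (.e (nat_lit 2610) (nat_lit 163) (.e (nat_lit 163978) (nat_lit 30) (.e (nat_lit 573484) (nat_lit 13) (.e (nat_lit 65610) (nat_lit 10) (.e (nat_lit 344117) (nat_lit 21) (.e (nat_lit 516152) (nat_lit 9) (.e (nat_lit 426109) (nat_lit 1) (.e (nat_lit 164347) (nat_lit 240) .nil)))))))) (.g (nat_lit 1) (.e (nat_lit 19639) (nat_lit 0) .nil) .nil))))) 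
(.nd (nat_lit 8) (.nd (nat_lit 9) 
(.lf (nat_lit 450773) (.g (nat_lit 805) (.e (nat_lit 2577) (nat_lit 161) (.e (nat_lit 40965) (nat_lit 0) (.e (nat_lit 1597) (nat_lit 111) (.e (nat_lit 368384) (nat_lit 10) .nil)))) (.g (nat_lit 0) (.e (nat_lit 17016) (nat_lit 0) .nil) .nil))) 
(.lf (nat_lit 451285) (.g (nat_lit 3545) (.e (nat_lit 2610) (nat_lit 163) (.e (nat_lit 163977) (nat_lit 30) (.e (nat_lit 573493) (nat_lit 15) (.e (nat_lit 81954) (nat_lit 23) (.e (nat_lit 98359) (nat_lit 26) .nil))))) (.g (nat_lit 0) (.e (nat_lit 19487) (nat_lit 0) .nil) .nil)))) (.nd (nat_lit 9) 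
(.lf (nat_lit 451029) (.g (nat_lit 1073) (.e (nat_lit 2605) (nat_lit 163) (.e (nat_lit 164327) (nat_lit 230) (.e (nat_lit 163884) (nat_lit 5) (.e (nat_lit 229120) (nat_lit 13) .nil)))) (.g (nat_lit 0) (.e (nat_lit 18645) (nat_lit 0) .nil) .nil))) 
(.lf (nat_lit 451541) (.g (nat_lit 2656) (.e (nat_lit 2610) (nat_lit 163) (.e (nat_lit 163979) (nat_lit 30) (.e (nat_lit 573482) (nat_lit 13) (.e (nat_lit 65604) (nat_lit 9) (.e (nat_lit 336013) (nat_lit 2) (.e (nat_lit 90134) (nat_lit 9) (.e (nat_lit 2978) (nat_lit 185) (.e (nat_lit 434209) (nat_lit 18) (.e (nat_lit 5548) (nat_lit 306) .nil))))))))) (.g (nat_lit 1) (.e (nat_lit 20133) (nat_lit 0) .nil) .nil))))))) 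
(.nd (nat_lit 6) (.nd (nat_lit 7) (.nd (nat_lit 8) (.nd (nat_lit 9) 
(.lf (nat_lit 450613) (.g (nat_lit 3214) (.e (nat_lit 2570) (nat_lit 160) (.e (nat_lit 32807) (nat_lit 18) (.e (nat_lit 172124) (nat_lit 14) (.e (nat_lit 491537) (nat_lit 2) (.e (nat_lit 90174) (nat_lit 14) (.e (nat_lit 180288) (nat_lit 45) .nil)))))) (.g (nat_lit 1) (.e (nat_lit 16628) (nat_lit 0) .nil) .nil))) 
(.lf (nat_lit 451125) (.g (nat_lit 2683) (.e (nat_lit 2610) (nat_lit 163) (.e (nat_lit 163977) (nat_lit 30) (.e (nat_lit 573482) (nat_lit 13) (.e (nat_lit 65619) (nat_lit 10) (.e (nat_lit 344117) (nat_lit 21) (.e (nat_lit 516143) (nat_lit 9) (.e (nat_lit 426109) (nat_lit 1) (.e (nat_lit 164346) (nat_lit 240) .nil)))))))) (.g (nat_lit 1) (.e (nat_lit 19295) (nat_lit 0) .nil) .nil)))) 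
(.nd (nat_lit 9) 
(.lf (nat_lit 450869) (.g (nat_lit 5313) (.e (nat_lit 2599) (nat_lit 163) (.e (nat_lit 163979) (nat_lit 30) (.e (nat_lit 573482) (nat_lit 13) (.e (nat_lit 65619) (nat_lit 10) (.e (nat_lit 344117) (nat_lit 21) (.e (nat_lit 516151) (nat_lit 9) (.e (nat_lit 426104) (nat_lit 1) (.e (nat_lit 164345) (nat_lit 240) .nil)))))))) (.g (nat_lit 1) (.e (nat_lit 17409) (nat_lit 0) .nil) .nil))) 
(.lf (nat_lit 451381) (.g (nat_lit 4941) (.e (nat_lit 2610) (nat_lit 163) (.e (nat_lit 163978) (nat_lit 30) (.e (nat_lit 573479) (nat_lit 13) (.e (nat_lit 65619) (nat_lit 10) (.e (nat_lit 344117) (nat_lit 21) (.e (nat_lit 516160) (nat_lit 10) (.e (nat_lit 434209) (nat_lit 18) (.e (nat_lit 5547) (nat_lit 306) .nil)))))))) (.g (nat_lit 1) (.e (nat_lit 19607) (nat_lit 0) .nil) .nil))))) 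
(.nd (nat_lit 8) (.nd (nat_lit 9) 
(.lf (nat_lit 450741) (.g (nat_lit 4039) (.e (nat_lit 2592) (nat_lit 162) (.e (nat_lit 49189) (nat_lit 11) (.e (nat_lit 16425) (nat_lit 7) (.e (nat_lit 409646) (nat_lit 18) (.e (nat_lit 303143) (nat_lit 12) (.e (nat_lit 475198) (nat_lit 40) (.e (nat_lit 704790) (nat_lit 14) .nil))))))) (.g (nat_lit 1) (.e (nat_lit 16981) (nat_lit 0) .nil) .nil))) 
(.lf (nat_lit 451253) (.g (nat_lit 344) (.e (nat_lit 2610) (nat_lit 163) (.e (nat_lit 163977) (nat_lit 30) (.e (nat_lit 573493) (nat_lit 15) .nil))) (.g (nat_lit 0) (.e (nat_lit 19445) (nat_lit 0) .nil) .nil)))) (.nd (nat_lit 9) 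
(.lf (nat_lit 450997) (.g (nat_lit 3946) (.e (nat_lit 2602) (nat_lit 163) (.e (nat_lit 163978) (nat_lit 30) (.e (nat_lit 573485) (nat_lit 13) (.e (nat_lit 65604) (nat_lit 9) (.e (nat_lit 336013) (nat_lit 2) (.e (nat_lit 90170) (nat_lit 13) (.e (nat_lit 172069) (nat_lit 4) (.e (nat_lit 229663) (nat_lit 240) .nil)))))))) (.g (nat_lit 1) (.e (nat_lit 18348) (nat_lit 0) .nil) .nil))) 
(.lf (nat_lit 451509) (.g (nat_lit 1756) (.e (nat_lit 2610) (nat_lit 163) (.e (nat_lit 163978) (nat_lit 30) (.e (nat_lit 573490) (nat_lit 15) (.e (nat_lit 81952) (nat_lit 22) .nil)))) (.g (nat_lit 0) (.e (nat_lit 20035) (nat_lit 0) .nil) .nil)))))) (.nd (nat_lit 7) (.nd (nat_lit 8) (.nd (nat_lit 9) 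
(.lf (nat_lit 450677) (.g (nat_lit 3061) (.e (nat_lit 2571) (nat_lit 160) (.e (nat_lit 32808) (nat_lit 19) (.e (nat_lit 180277) (nat_lit 32) (.e (nat_lit 1234) (nat_lit 91) (.e (nat_lit 90172) (nat_lit 14) (.e (nat_lit 180285) (nat_lit 45) .nil)))))) (.g (nat_lit 1) (.e (nat_lit 16891) (nat_lit 0) .nil) .nil))) 
(.lf (nat_lit 451189) (.g (nat_lit 3458) (.e (nat_lit 2610) (nat_lit 163) (.e (nat_lit 163977) (nat_lit 30) (.e (nat_lit 573485) (nat_lit 13) (.e (nat_lit 65619) (nat_lit 10) (.e (nat_lit 344117) (nat_lit 21) (.e (nat_lit 516151) (nat_lit 9) (.e (nat_lit 426097) (nat_lit 1) (.e (nat_lit 164347) (nat_lit 240) .nil)))))))) (.g (nat_lit 1) (.e (nat_lit 19360) (nat_lit 0) .nil) .nil)))) 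
(.nd (nat_lit 9) 
(.lf (nat_lit 450933) (.g (nat_lit 3868) (.e (nat_lit 2601) (nat_lit 163) (.e (nat_lit 163976) (nat_lit 30) (.e (nat_lit 573481) (nat_lit 13) (.e (nat_lit 65604) (nat_lit 9) (.e (nat_lit 336013) (nat_lit 2) (.e (nat_lit 90170) (nat_lit 13) (.e (nat_lit 172059) (nat_lit 1) (.e (nat_lit 164348) (nat_lit 240) .nil)))))))) (.g (nat_lit 1) (.e (nat_lit 17959) (nat_lit 0) .nil) .nil))) 
(.lf (nat_lit 451445) (.g (nat_lit 3372) (.e (nat_lit 2610) (nat_lit 163) (.e (nat_lit 163978) (nat_lit 30) (.e (nat_lit 573485) (nat_lit 13) (.e (nat_lit 65604) (nat_lit 9) (.e (nat_lit 336028) (nat_lit 3) (.e (nat_lit 98359) (nat_lit 26) (.e (nat_lit 426103) (nat_lit 1) (.e (nat_lit 164348) (nat_lit 240) .nil)))))))) (.g (nat_lit 1) (.e (nat_lit 19682) (nat_lit 0) .nil) .nil))))) 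
(.nd (nat_lit 8) (.nd (nat_lit 9) 
(.lf (nat_lit 450805) (.g (nat_lit 3770) (.e (nat_lit 2599) (nat_lit 163) (.e (nat_lit 163975) (nat_lit 30) (.e (nat_lit 573481) (nat_lit 13) (.e (nat_lit 65619) (nat_lit 10) (.e (nat_lit 344117) (nat_lit 21) (.e (nat_lit 516160) (nat_lit 10) (.e (nat_lit 434209) (nat_lit 18) (.e (nat_lit 5548) (nat_lit 306) .nil)))))))) (.g (nat_lit 1) (.e (nat_lit 17206) (nat_lit 0) .nil) .nil))) 
(.lf (nat_lit 451317) (.g (nat_lit 5216) (.e (nat_lit 2610) (nat_lit 163) (.e (nat_lit 163977) (nat_lit 30) (.e (nat_lit 573493) (nat_lit 15) (.e (nat_lit 81956) (nat_lit 23) (.e (nat_lit 98364) (nat_lit 26) (.e (nat_lit 426107) (nat_lit 1) (.e (nat_lit 164347) (nat_lit 240) .nil))))))) (.g (nat_lit 1) (.e (nat_lit 19527) (nat_lit 0) .nil) .nil)))) (.nd (nat_lit 9) 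
(.lf (nat_lit 451061) (.g (nat_lit 2561) (.e (nat_lit 2606) (nat_lit 163) (.e (nat_lit 163979) (nat_lit 30) (.e (nat_lit 573489) (nat_lit 14) (.e (nat_lit 73755) (nat_lit 8) (.e (nat_lit 557103) (nat_lit 14) (.e (nat_lit 180244) (nat_lit 5) (.e (nat_lit 532503) (nat_lit 1) (.e (nat_lit 57661) (nat_lit 152) .nil)))))))) (.g (nat_lit 1) (.e (nat_lit 18707) (nat_lit 0) .nil) .nil))) 
(.lf (nat_lit 451573) (.g (nat_lit 2199) (.e (nat_lit 2610) (nat_lit 163) (.e (nat_lit 163979) (nat_lit 30) (.e (nat_lit 573482) (nat_lit 13) (.e (nat_lit 65604) (nat_lit 9) (.e (nat_lit 336028) (nat_lit 3) (.e (nat_lit 98366) (nat_lit 27) (.e (nat_lit 434212) (nat_lit 18) (.e (nat_lit 5548) (nat_lit 306) .nil)))))))) (.g (nat_lit 1) (.e (nat_lit 20166) (nat_lit 0) .nil) .nil))))))))) 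
(.nd (nat_lit 4) (.nd (nat_lit 5) (.nd (nat_lit 6) (.nd (nat_lit 7) (.nd (nat_lit 8) 
(.nd (nat_lit 9) 
(.lf (nat_lit 450573) (.g (nat_lit 3287) (.e (nat_lit 2569) (nat_lit 160) (.e (nat_lit 32807) (nat_lit 18) (.e (nat_lit 172120) (nat_lit 12) (.e (nat_lit 475184) (nat_lit 29) (.e (nat_lit 557103) (nat_lit 14) (.e (nat_lit 180285) (nat_lit 45) .nil)))))) (.g (nat_lit 1) (.e (nat_lit 16475) (nat_lit 0) .nil) .nil))) 
(.lf (nat_lit 451085) (.g (nat_lit 3702) (.e (nat_lit 2607) (nat_lit 163) (.e (nat_lit 164402) (nat_lit 256) (.e (nat_lit 57373) (nat_lit 2) (.e (nat_lit 90174) (nat_lit 14) (.e (nat_lit 180243) (nat_lit 5) (.e (nat_lit 532515) (nat_lit 3) (.e (nat_lit 114716) (nat_lit 22) (.e (nat_lit 90137) (nat_lit 9) .nil)))))))) (.g (nat_lit 1) (.e (nat_lit 18998) (nat_lit 0) .nil) .nil)))) (.nd (nat_lit 9) 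
(.lf (nat_lit 450829) (.g (nat_lit 3282) (.e (nat_lit 2599) (nat_lit 163) (.e (nat_lit 163978) (nat_lit 30) (.e (nat_lit 573479) (nat_lit 13) (.e (nat_lit 65619) (nat_lit 10) (.e (nat_lit 344117) (nat_lit 21) (.e (nat_lit 516160) (nat_lit 10) (.e (nat_lit 434209) (nat_lit 18) (.e (nat_lit 5548) (nat_lit 306) .nil)))))))) (.g (nat_lit 1) (.e (nat_lit 17319) (nat_lit 0) .nil) .nil))) 
(.lf (nat_lit 451341) (.g (nat_lit 4200) (.e (nat_lit 2610) (nat_lit 163) (.e (nat_lit 163978) (nat_lit 30) (.e (nat_lit 573479) (nat_lit 13) (.e (nat_lit 65604) (nat_lit 9) (.e (nat_lit 336013) (nat_lit 2) (.e (nat_lit 90170) (nat_lit 13) (.e (nat_lit 172059) (nat_lit 1) (.e (nat_lit 164348) (nat_lit 240) .nil)))))))) (.g (nat_lit 1) (.e (nat_lit 19567) (nat_lit 0) .nil) .nil))))) 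
(.nd (nat_lit 8) (.nd (nat_lit 9) 
(.lf (nat_lit 450701) (.g (nat_lit 2005) (.e (nat_lit 2587) (nat_lit 162) (.e (nat_lit 49189) (nat_lit 11) (.e (nat_lit 16425) (nat_lit 7) (.e (nat_lit 409648) (nat_lit 18) (.e (nat_lit 303142) (nat_lit 12) (.e (nat_lit 475199) (nat_lit 40) (.e (nat_lit 704836) (nat_lit 14) .nil))))))) (.g (nat_lit 1) (.e (nat_lit 16937) (nat_lit 0) .nil) .nil))) 
(.lf (nat_lit 451213) (.g (nat_lit 3011) (.e (nat_lit 2610) (nat_lit 163) (.e (nat_lit 163977) (nat_lit 30) (.e (nat_lit 573491) (nat_lit 15) (.e (nat_lit 81951) (nat_lit 22) (.e (nat_lit 90185) (nat_lit 17) (.e (nat_lit 237584) (nat_lit 1) (.e (nat_lit 164347) (nat_lit 240) .nil))))))) (.g (nat_lit 1) (.e (nat_lit 19389) (nat_lit 0) .nil) .nil)))) (.nd (nat_lit 9) 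
(.lf (nat_lit 450957) (.g (nat_lit 2257) (.e (nat_lit 2601) (nat_lit 163) (.e (nat_lit 163978) (nat_lit 30) (.e (nat_lit 573479) (nat_lit 13) (.e (nat_lit 65619) (nat_lit 10) (.e (nat_lit 344117) (nat_lit 21) .nil))))) (.g (nat_lit 0) (.e (nat_lit 18154) (nat_lit 0) .nil) .nil))) 
(.lf (nat_lit 451469) (.g (nat_lit 4764) (.e (nat_lit 2610) (nat_lit 163) (.e (nat_lit 163978) (nat_lit 30) (.e (nat_lit 573485) (nat_lit 13) (.e (nat_lit 65619) (nat_lit 10) (.e (nat_lit 344117) (nat_lit 21) (.e (nat_lit 516143) (nat_lit 9) (.e (nat_lit 426109) (nat_lit 1) (.e (nat_lit 164345) (nat_lit 240) .nil)))))))) (.g (nat_lit 1) (.e (nat_lit 19708) (nat_lit 0) .nil) .nil)))))) 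
(.nd (nat_lit 7) (.nd (nat_lit 8) (.nd (nat_lit 9) 
(.lf (nat_lit 450637) (.g (nat_lit 2893) (.e (nat_lit 2571) (nat_lit 160) (.e (nat_lit 32807) (nat_lit 18) (.e (nat_lit 172118) (nat_lit 12) (.e (nat_lit 475185) (nat_lit 29) (.e (nat_lit 557103) (nat_lit 14) (.e (nat_lit 180285) (nat_lit 45) .nil)))))) (.g (nat_lit 1) (.e (nat_lit 16820) (nat_lit 0) .nil) .nil))) 
(.lf (nat_lit 451149) (.g (nat_lit 3365) (.e (nat_lit 2610) (nat_lit 163) (.e (nat_lit 163977) (nat_lit 30) (.e (nat_lit 573484) (nat_lit 13) (.e (nat_lit 65610) (nat_lit 10) (.e (nat_lit 344117) (nat_lit 21) (.e (nat_lit 516151) (nat_lit 9) (.e (nat_lit 426097) (nat_lit 1) (.e (nat_lit 164347) (nat_lit 240) .nil)))))))) (.g (nat_lit 1) (.e (nat_lit 19319) (nat_lit 0) .nil) .nil)))) 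
(.nd (nat_lit 9) 
(.lf (nat_lit 450893) (.g (nat_lit 3376) (.e (nat_lit 2600) (nat_lit 163) (.e (nat_lit 163976) (nat_lit 30) (.e (nat_lit 573481) (nat_lit 13) (.e (nat_lit 65619) (nat_lit 10) (.e (nat_lit 344117) (nat_lit 21) (.e (nat_lit 516151) (nat_lit 9) (.e (nat_lit 426097) (nat_lit 1) (.e (nat_lit 164346) (nat_lit 240) .nil)))))))) (.g (nat_lit 1) (.e (nat_lit 17685) (nat_lit 0) .nil) .nil))) 
(.lf (nat_lit 451405) (.g (nat_lit 2625) (.e (nat_lit 2610) (nat_lit 163) (.e (nat_lit 163978) (nat_lit 30) (.e (nat_lit 573484) (nat_lit 13) (.e (nat_lit 65610) (nat_lit 10) (.e (nat_lit 344117) (nat_lit 21) (.e (nat_lit 516151) (nat_lit 9) (.e (nat_lit 426103) (nat_lit 1) (.e (nat_lit 164348) (nat_lit 240) .nil)))))))) (.g (nat_lit 1) (.e (nat_lit 19631) (nat_lit 0) .nil) .nil))))) 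
(.nd (nat_lit 8) (.nd (nat_lit 9) 
(.lf (nat_lit 450765) (.g (nat_lit 1645) (.e (nat_lit 2576) (nat_lit 161) (.e (nat_lit 40996) (nat_lit 11) (.e (nat_lit 24627) (nat_lit 9) (.e (nat_lit 336438) (nat_lit 31) (.e (nat_lit 458769) (nat_lit 16) (.e (nat_lit 164269) (nat_lit 221) .nil)))))) (.g (nat_lit 1) (.e (nat_lit 17008) (nat_lit 0) .nil) .nil))) 
(.lf (nat_lit 451277) (.g (nat_lit 4398) (.e (nat_lit 2610) (nat_lit 163) (.e (nat_lit 163977) (nat_lit 30) (.e (nat_lit 573493) (nat_lit 15) (.e (nat_lit 81953) (nat_lit 22) (.e (nat_lit 90174) (nat_lit 14) (.e (nat_lit 180228) (nat_lit 0) (.e (nat_lit 5547) (nat_lit 306) .nil))))))) (.g (nat_lit 1) (.e (nat_lit 19479) (nat_lit 0) .nil) .nil)))) (.nd (nat_lit 9) 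
(.lf (nat_lit 451021) (.g (nat_lit 4331) (.e (nat_lit 2604) (nat_lit 163) (.e (nat_lit 163975) (nat_lit 30) (.e (nat_lit 573481) (nat_lit 13) (.e (nat_lit 65604) (nat_lit 9) (.e (nat_lit 336013) (nat_lit 2) (.e (nat_lit 90170) (nat_lit 13) (.e (nat_lit 172070) (nat_lit 4) (.e (nat_lit 229663) (nat_lit 240) .nil)))))))) (.g (nat_lit 1) (.e (nat_lit 18514) (nat_lit 0) .nil) .nil))) 
(.lf (nat_lit 451533) (.g (nat_lit 2697) (.e (nat_lit 2610) (nat_lit 163) (.e (nat_lit 163979) (nat_lit 30) (.e (nat_lit 573481) (nat_lit 13) (.e (nat_lit 65619) (nat_lit 10) (.e (nat_lit 344117) (nat_lit 21) (.e (nat_lit 516151) (nat_lit 9) (.e (nat_lit 426097) (nat_lit 1) (.e (nat_lit 164348) (nat_lit 240) .nil)))))))) (.g (nat_lit 1) (.e (nat_lit 20124) (nat_lit 0) .nil) .nil))))))) 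
(.nd (nat_lit 6) (.nd (nat_lit 7) (.nd (nat_lit 8) (.nd (nat_lit 9) 
(.lf (nat_lit 450605) (.g (nat_lit 3250) (.e (nat_lit 2570) (nat_lit 160) (.e (nat_lit 32807) (nat_lit 18) (.e (nat_lit 172120) (nat_lit 12) (.e (nat_lit 475184) (nat_lit 29) (.e (nat_lit 557103) (nat_lit 14) (.e (nat_lit 180285) (nat_lit 45) .nil)))))) (.g (nat_lit 1) (.e (nat_lit 16606) (nat_lit 0) .nil) .nil))) 
(.lf (nat_lit 451117) (.g (nat_lit 3050) (.e (nat_lit 2610) (nat_lit 163) (.e (nat_lit 163977) (nat_lit 30) (.e (nat_lit 573482) (nat_lit 13) (.e (nat_lit 65604) (nat_lit 9) (.e (nat_lit 336028) (nat_lit 3) (.e (nat_lit 98359) (nat_lit 26) (.e (nat_lit 426104) (nat_lit 1) (.e (nat_lit 164348) (nat_lit 240) .nil)))))))) (.g (nat_lit 1) (.e (nat_lit 19287) (nat_lit 0) .nil) .nil)))) 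
(.nd (nat_lit 9) 
(.lf (nat_lit 450861) (.g (nat_lit 4731) (.e (nat_lit 2599) (nat_lit 163) (.e (nat_lit 163979) (nat_lit 30) (.e (nat_lit 573482) (nat_lit 13) (.e (nat_lit 65604) (nat_lit 9) (.e (nat_lit 336028) (nat_lit 3) (.e (nat_lit 98366) (nat_lit 27) (.e (nat_lit 434209) (nat_lit 18) (.e (nat_lit 5548) (nat_lit 306) .nil)))))))) (.g (nat_lit 1) (.e (nat_lit 17401) (nat_lit 0) .nil) .nil))) 
(.lf (nat_lit 451373) (.g (nat_lit 3310) (.e (nat_lit 2610) (nat_lit 163) (.e (nat_lit 163978) (nat_lit 30) (.e (nat_lit 573479) (nat_lit 13) (.e (nat_lit 65619) (nat_lit 10) (.e (nat_lit 344117) (nat_lit 21) (.e (nat_lit 516152) (nat_lit 9) (.e (nat_lit 426109) (nat_lit 1) (.e (nat_lit 164347) (nat_lit 240) .nil)))))))) (.g (nat_lit 1) (.e (nat_lit 19599) (nat_lit 0) .nil) .nil))))) 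
(.nd (nat_lit 8) (.nd (nat_lit 9) 
(.lf (nat_lit 450733) (.g (nat_lit 3023) (.e (nat_lit 2591) (nat_lit 162) (.e (nat_lit 49189) (nat_lit 11) (.e (nat_lit 16425) (nat_lit 7) (.e (nat_lit 409649) (nat_lit 18) (.e (nat_lit 303143) (nat_lit 12) (.e (nat_lit 475199) (nat_lit 40) (.e (nat_lit 704790) (nat_lit 14) .nil))))))) (.g (nat_lit 1) (.e (nat_lit 16970) (nat_lit 0) .nil) .nil))) 
(.lf (nat_lit 451245) (.g (nat_lit 4471) (.e (nat_lit 2610) (nat_lit 163) (.e (nat_lit 163977) (nat_lit 30) (.e (nat_lit 573492) (nat_lit 15) (.e (nat_lit 81956) (nat_lit 23) (.e (nat_lit 98365) (nat_lit 26) .nil))))) (.g (nat_lit 0) (.e (nat_lit 19437) (nat_lit 0) .nil) .nil)))) (.nd (nat_lit 9) 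
(.lf (nat_lit 450989) (.g (nat_lit 4701) (.e (nat_lit 2601) (nat_lit 163) (.e (nat_lit 163979) (nat_lit 30) (.e (nat_lit 573482) (nat_lit 13) (.e (nat_lit 65619) (nat_lit 10) (.e (nat_lit 344117) (nat_lit 21) (.e (nat_lit 516160) (nat_lit 10) (.e (nat_lit 434209) (nat_lit 18) (.e (nat_lit 5548) (nat_lit 306) .nil)))))))) (.g (nat_lit 1) (.e (nat_lit 18208) (nat_lit 0) .nil) .nil))) 
(.lf (nat_lit 451501) (.g (nat_lit 2319) (.e (nat_lit 2610) (nat_lit 163) (.e (nat_lit 163978) (nat_lit 30) (.e (nat_lit 573485) (nat_lit 13) (.e (nat_lit 65619) (nat_lit 10) (.e (nat_lit 344117) (nat_lit 21) (.e (nat_lit 516171) (nat_lit 13) (.e (nat_lit 458774) (nat_lit 18) (.e (nat_lit 5546) (nat_lit 306) .nil)))))))) (.g (nat_lit 1) (.e (nat_lit 19740) (nat_lit 0) .nil) .nil)))))) 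
(.nd (nat_lit 7) (.nd (nat_lit 8) (.nd (nat_lit 9) 
(.lf (nat_lit 450669) (.g (nat_lit 3331) (.e (nat_lit 2571) (nat_lit 160) (.e (nat_lit 32807) (nat_lit 18) (.e (nat_lit 172126) (nat_lit 14) (.e (nat_lit 491537) (nat_lit 2) (.e (nat_lit 90174) (nat_lit 14) (.e (nat_lit 180288) (nat_lit 45) .nil)))))) (.g (nat_lit 1) (.e (nat_lit 16879) (nat_lit 0) .nil) .nil))) 
(.lf (nat_lit 451181) (.g (nat_lit 4270) (.e (nat_lit 2610) (nat_lit 163) (.e (nat_lit 163977) (nat_lit 30) (.e (nat_lit 573485) (nat_lit 13) (.e (nat_lit 65604) (nat_lit 9) (.e (nat_lit 336028) (nat_lit 3) (.e (nat_lit 98366) (nat_lit 27) (.e (nat_lit 434209) (nat_lit 18) (.e (nat_lit 5548) (nat_lit 306) .nil)))))))) (.g (nat_lit 1) (.e (nat_lit 19352) (nat_lit 0) .nil) .nil)))) (.nd (nat_lit 9) 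
(.lf (nat_lit 450925) (.g (nat_lit 2794) (.e (nat_lit 2601) (nat_lit 163) (.e (nat_lit 163975) (nat_lit 30) (.e (nat_lit 573481) (nat_lit 13) (.e (nat_lit 65619) (nat_lit 10) (.e (nat_lit 344117) (nat_lit 21) (.e (nat_lit 516143) (nat_lit 9) (.e (nat_lit 426109) (nat_lit 1) (.e (nat_lit 164346) (nat_lit 240) .nil)))))))) (.g (nat_lit 1) (.e (nat_lit 17874) (nat_lit 0) .nil) .nil))) 
(.lf (nat_lit 451437) (.g (nat_lit 4526) (.e (nat_lit 2610) (nat_lit 163) (.e (nat_lit 163978) (nat_lit 30) (.e (nat_lit 573485) (nat_lit 13) (.e (nat_lit 65604) (nat_lit 9) (.e (nat_lit 336013) (nat_lit 2) (.e (nat_lit 90170) (nat_lit 13) (.e (nat_lit 172059) (nat_lit 1) (.e (nat_lit 164346) (nat_lit 240) .nil)))))))) (.g (nat_lit 1) (.e (nat_lit 19669) (nat_lit 0) .nil) .nil))))) 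
(.nd (nat_lit 8) (.nd (nat_lit 9) 
(.lf (nat_lit 450797) (.g (nat_lit 2151) (.e (nat_lit 2598) (nat_lit 163) (.e (nat_lit 163979) (nat_lit 30) (.e (nat_lit 573482) (nat_lit 13) (.e (nat_lit 65619) (nat_lit 10) (.e (nat_lit 344117) (nat_lit 21) (.e (nat_lit 516143) (nat_lit 9) (.e (nat_lit 426109) (nat_lit 1) (.e (nat_lit 164347) (nat_lit 240) .nil)))))))) (.g (nat_lit 1) (.e (nat_lit 17117) (nat_lit 0) .nil) .nil))) 
(.lf (nat_lit 451309) (.g (nat_lit 3399) (.e (nat_lit 2610) (nat_lit 163) (.e (nat_lit 163977) (nat_lit 30) (.e (nat_lit 573493) (nat_lit 15) (.e (nat_lit 81956) (nat_lit 23) (.e (nat_lit 98359) (nat_lit 26) (.e (nat_lit 426104) (nat_lit 1) (.e (nat_lit 164348) (nat_lit 240) .nil))))))) (.g (nat_lit 1) (.e (nat_lit 19519) (nat_lit 0) .nil) .nil)))) (.nd (nat_lit 9) 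
(.lf (nat_lit 451053) (.g (nat_lit 4539) (.e (nat_lit 2606) (nat_lit 163) (.e (nat_lit 163978) (nat_lit 30) (.e (nat_lit 573489) (nat_lit 14) (.e (nat_lit 73755) (nat_lit 8) (.e (nat_lit 557104) (nat_lit 14) (.e (nat_lit 180244) (nat_lit 5) (.e (nat_lit 532504) (nat_lit 1) (.e (nat_lit 57663) (nat_lit 152) .nil)))))))) (.g (nat_lit 1) (.e (nat_lit 18693) (nat_lit 0) .nil) .nil))) 
(.lf (nat_lit 451565) (.g (nat_lit 2437) (.e (nat_lit 2610) (nat_lit 163) (.e (nat_lit 163979) (nat_lit 30) (.e (nat_lit 573482) (nat_lit 13) (.e (nat_lit 65604) (nat_lit 9) (.e (nat_lit 336028) (nat_lit 3) (.e (nat_lit 98361) (nat_lit 26) (.e (nat_lit 426109) (nat_lit 1) (.e (nat_lit 164346) (nat_lit 240) .nil)))))))) (.g (nat_lit 1) (.e (nat_lit 20158) (nat_lit 0) .nil) .nil)))))))) 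
(.nd (nat_lit 5) (.nd (nat_lit 6) (.nd (nat_lit 7) (.nd (nat_lit 8) (.nd (nat_lit 9) 
(.lf (nat_lit 450589) (.g (nat_lit 1969) (.e (nat_lit 2569) (nat_lit 160) (.e (nat_lit 32809) (nat_lit 20) (.e (nat_lit 188418) (nat_lit 0) (.e (nat_lit 1856) (nat_lit 124) (.e (nat_lit 557103) (nat_lit 14) (.e (nat_lit 188160) (nat_lit 45) .nil)))))) (.g (nat_lit 1) (.e (nat_lit 16501) (nat_lit 0) .nil) .nil))) 
(.lf (nat_lit 451101) (.g (nat_lit 4195) (.e (nat_lit 2610) (nat_lit 163) (.e (nat_lit 163977) (nat_lit 30) (.e (nat_lit 573482) (nat_lit 13) (.e (nat_lit 65604) (nat_lit 9) (.e (nat_lit 336013) (nat_lit 2) (.e (nat_lit 90170) (nat_lit 13) (.e (nat_lit 172046) (nat_lit 0) (.e (nat_lit 2458) (nat_lit 157) (.e (nat_lit 5547) (nat_lit 306) .nil))))))))) (.g (nat_lit 1) (.e (nat_lit 19271) (nat_lit 0) .nil) .nil)))) 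
(.nd (nat_lit 9) 
(.lf (nat_lit 450845) (.g (nat_lit 4677) (.e (nat_lit 2599) (nat_lit 163) (.e (nat_lit 163978) (nat_lit 30) (.e (nat_lit 573485) (nat_lit 13) (.e (nat_lit 65619) (nat_lit 10) (.e (nat_lit 344117) (nat_lit 21) (.e (nat_lit 516159) (nat_lit 10) (.e (nat_lit 434209) (nat_lit 18) (.e (nat_lit 5548) (nat_lit 306) .nil)))))))) (.g (nat_lit 1) (.e (nat_lit 17355) (nat_lit 0) .nil) .nil))) 
(.lf (nat_lit 451357) (.g (nat_lit 4293) (.e (nat_lit 2610) (nat_lit 163) (.e (nat_lit 163978) (nat_lit 30) (.e (nat_lit 573479) (nat_lit 13) (.e (nat_lit 65604) (nat_lit 9) (.e (nat_lit 336028) (nat_lit 3) (.e (nat_lit 98367) (nat_lit 27) (.e (nat_lit 434209) (nat_lit 18) (.e (nat_lit 5548) (nat_lit 306) .nil)))))))) (.g (nat_lit 1) (.e (nat_lit 19583) (nat_lit 0) .nil) .nil))))) 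
(.nd (nat_lit 8) (.nd (nat_lit 9) 
(.lf (nat_lit 450717) (.g (nat_lit 1852) (.e (nat_lit 2591) (nat_lit 162) (.e (nat_lit 49189) (nat_lit 11) (.e (nat_lit 16425) (nat_lit 7) (.e (nat_lit 409647) (nat_lit 18) (.e (nat_lit 303143) (nat_lit 12) (.e (nat_lit 475197) (nat_lit 40) (.e (nat_lit 704789) (nat_lit 14) .nil))))))) (.g (nat_lit 1) (.e (nat_lit 16954) (nat_lit 0) .nil) .nil))) 
(.lf (nat_lit 451229) (.g (nat_lit 3439) (.e (nat_lit 2610) (nat_lit 163) (.e (nat_lit 163977) (nat_lit 30) (.e (nat_lit 573491) (nat_lit 15) (.e (nat_lit 81954) (nat_lit 23) (.e (nat_lit 98365) (nat_lit 26) (.e (nat_lit 426107) (nat_lit 1) (.e (nat_lit 164347) (nat_lit 240) .nil))))))) (.g (nat_lit 1) (.e (nat_lit 19405) (nat_lit 0) .nil) .nil)))) (.nd (nat_lit 9) 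
(.lf (nat_lit 450973) (.g (nat_lit 3855) (.e (nat_lit 2601) (nat_lit 163) (.e (nat_lit 163979) (nat_lit 30) (.e (nat_lit 573482) (nat_lit 13) (.e (nat_lit 65604) (nat_lit 9) (.e (nat_lit 336013) (nat_lit 2) (.e (nat_lit 90170) (nat_lit 13) (.e (nat_lit 172061) (nat_lit 1) (.e (nat_lit 164347) (nat_lit 240) .nil)))))))) (.g (nat_lit 1) (.e (nat_lit 18191) (nat_lit 0) .nil) .nil))) 
(.lf (nat_lit 451485) (.g (nat_lit 2011) (.e (nat_lit 2610) (nat_lit 163) (.e (nat_lit 163978) (nat_lit 30) (.e (nat_lit 573485) (nat_lit 13) (.e (nat_lit 65619) (nat_lit 10) (.e (nat_lit 344117) (nat_lit 21) (.e (nat_lit 524032) (nat_lit 9) (.e (nat_lit 426107) (nat_lit 1) (.e (nat_lit 164345) (nat_lit 240) .nil)))))))) (.g (nat_lit 1) (.e (nat_lit 19724) (nat_lit 0) .nil) .nil)))))) 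
(.nd (nat_lit 7) (.nd (nat_lit 8) (.nd (nat_lit 9) 
(.lf (nat_lit 450653) (.g (nat_lit 2631) (.e (nat_lit 2571) (nat_lit 160) (.e (nat_lit 32807) (nat_lit 18) (.e (nat_lit 172120) (nat_lit 12) (.e (nat_lit 475185) (nat_lit 29) (.e (nat_lit 557105) (nat_lit 14) (.e (nat_lit 180284) (nat_lit 45) .nil)))))) (.g (nat_lit 1) (.e (nat_lit 16836) (nat_lit 0) .nil) .nil))) 
(.lf (nat_lit 451165) (.g (nat_lit 3423) (.e (nat_lit 2610) (nat_lit 163) (.e (nat_lit 163977) (nat_lit 30) (.e (nat_lit 573485) (nat_lit 13) (.e (nat_lit 65604) (nat_lit 9) (.e (nat_lit 336013) (nat_lit 2) (.e (nat_lit 90170) (nat_lit 13) (.e (nat_lit 172059) (nat_lit 1) (.e (nat_lit 164347) (nat_lit 240) .nil)))))))) (.g (nat_lit 1) (.e (nat_lit 19335) (nat_lit 0) .nil) .nil)))) 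
(.nd (nat_lit 9) 
(.lf (nat_lit 450909) (.g (nat_lit 2608) (.e (nat_lit 2600) (nat_lit 163) (.e (nat_lit 163978) (nat_lit 30) (.e (nat_lit 573485) (nat_lit 13) (.e (nat_lit 65604) (nat_lit 9) (.e (nat_lit 336028) (nat_lit 3) .nil))))) (.g (nat_lit 0) (.e (nat_lit 17818) (nat_lit 0) .nil) .nil))) 
(.lf (nat_lit 451421) (.g (nat_lit 4953) (.e (nat_lit 2610) (nat_lit 163) (.e (nat_lit 163978) (nat_lit 30) (.e (nat_lit 573484) (nat_lit 13) (.e (nat_lit 65610) (nat_lit 10) (.e (nat_lit 344117) (nat_lit 21) (.e (nat_lit 516160) (nat_lit 10) (.e (nat_lit 434209) (nat_lit 18) (.e (nat_lit 5546) (nat_lit 306) .nil)))))))) (.g (nat_lit 1) (.e (nat_lit 19647) (nat_lit 0) .nil) .nil))))) 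
(.nd (nat_lit 8) (.nd (nat_lit 9) 
(.lf (nat_lit 450781) (.g (nat_lit 1479) (.e (nat_lit 2579) (nat_lit 161) (.e (nat_lit 40965) (nat_lit 0) (.e (nat_lit 1582) (nat_lit 111) (.e (nat_lit 360477) (nat_lit 11) (.e (nat_lit 581652) (nat_lit 5) (.e (nat_lit 180285) (nat_lit 45) .nil)))))) (.g (nat_lit 1) (.e (nat_lit 17024) (nat_lit 0) .nil) .nil))) 
(.lf (nat_lit 451293) (.g (nat_lit 3860) (.e (nat_lit 2610) (nat_lit 163) (.e (nat_lit 163977) (nat_lit 30) (.e (nat_lit 573493) (nat_lit 15) (.e (nat_lit 81954) (nat_lit 23) (.e (nat_lit 98366) (nat_lit 27) (.e (nat_lit 434209) (nat_lit 18) (.e (nat_lit 5548) (nat_lit 306) .nil))))))) (.g (nat_lit 1) (.e (nat_lit 19495) (nat_lit 0) .nil) .nil)))) (.nd (nat_lit 9) 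
(.lf (nat_lit 451037) (.g (nat_lit 3663) (.e (nat_lit 2606) (nat_lit 163) (.e (nat_lit 163978) (nat_lit 30) (.e (nat_lit 573489) (nat_lit 14) (.e (nat_lit 73755) (nat_lit 8) (.e (nat_lit 557097) (nat_lit 13) (.e (nat_lit 172067) (nat_lit 3) (.e (nat_lit 204830) (nat_lit 18) (.e (nat_lit 57663) (nat_lit 152) .nil)))))))) (.g (nat_lit 1) (.e (nat_lit 18677) (nat_lit 0) .nil) .nil))) 
(.lf (nat_lit 451549) (.g (nat_lit 4533) (.e (nat_lit 2610) (nat_lit 163) (.e (nat_lit 163979) (nat_lit 30) (.e (nat_lit 573482) (nat_lit 13) (.e (nat_lit 65604) (nat_lit 9) (.e (nat_lit 336028) (nat_lit 3) (.e (nat_lit 98354) (nat_lit 26) (.e (nat_lit 426109) (nat_lit 1) (.e (nat_lit 164345) (nat_lit 240) .nil)))))))) (.g (nat_lit 1) (.e (nat_lit 20142) (nat_lit 0) .nil) .nil))))))) 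
(.nd (nat_lit 6) (.nd (nat_lit 7) (.nd (nat_lit 8) (.nd (nat_lit 9) 
(.lf (nat_lit 450621) (.g (nat_lit 2547) (.e (nat_lit 2570) (nat_lit 160) (.e (nat_lit 32807) (nat_lit 18) (.e (nat_lit 172126) (nat_lit 14) (.e (nat_lit 491539) (nat_lit 3) (.e (nat_lit 98366) (nat_lit 27) (.e (nat_lit 434188) (nat_lit 13) .nil)))))) (.g (nat_lit 1) (.e (nat_lit 16651) (nat_lit 0) .nil) .nil))) 
(.lf (nat_lit 451133) (.g (nat_lit 3735) (.e (nat_lit 2610) (nat_lit 163) (.e (nat_lit 163977) (nat_lit 30) (.e (nat_lit 573482) (nat_lit 13) (.e (nat_lit 65619) (nat_lit 10) (.e (nat_lit 344117) (nat_lit 21) (.e (nat_lit 516159) (nat_lit 10) (.e (nat_lit 434209) (nat_lit 18) (.e (nat_lit 5547) (nat_lit 306) .nil)))))))) (.g (nat_lit 1) (.e (nat_lit 19303) (nat_lit 0) .nil) .nil)))) 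
(.nd (nat_lit 9) 
(.lf (nat_lit 450877) (.g (nat_lit 2411) (.e (nat_lit 2599) (nat_lit 163) (.e (nat_lit 164398) (nat_lit 256) (.e (nat_lit 57373) (nat_lit 2) (.e (nat_lit 90174) (nat_lit 14) (.e (nat_lit 180243) (nat_lit 5) (.e (nat_lit 532513) (nat_lit 3) (.e (nat_lit 114714) (nat_lit 22) (.e (nat_lit 90137) (nat_lit 9) .nil)))))))) (.g (nat_lit 1) (.e (nat_lit 17627) (nat_lit 0) .nil) .nil))) 
(.lf (nat_lit 451389) (.g (nat_lit 3637) (.e (nat_lit 2610) (nat_lit 163) (.e (nat_lit 163978) (nat_lit 30) (.e (nat_lit 573479) (nat_lit 13) (.e (nat_lit 65619) (nat_lit 10) (.e (nat_lit 344117) (nat_lit 21) (.e (nat_lit 516171) (nat_lit 13) (.e (nat_lit 458774) (nat_lit 18) (.e (nat_lit 5547) (nat_lit 306) .nil)))))))) (.g (nat_lit 1) (.e (nat_lit 19615) (nat_lit 0) .nil) .nil))))) 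
(.nd (nat_lit 8) (.nd (nat_lit 9) 
(.lf (nat_lit 450749) (.g (nat_lit 3513) (.e (nat_lit 2592) (nat_lit 162) (.e (nat_lit 49189) (nat_lit 11) (.e (nat_lit 16425) (nat_lit 7) (.e (nat_lit 409648) (nat_lit 18) (.e (nat_lit 303142) (nat_lit 12) (.e (nat_lit 475198) (nat_lit 40) (.e (nat_lit 704790) (nat_lit 14) .nil))))))) (.g (nat_lit 1) (.e (nat_lit 16989) (nat_lit 0) .nil) .nil))) 
(.lf (nat_lit 451261) (.g (nat_lit 2793) (.e (nat_lit 2610) (nat_lit 163) (.e (nat_lit 163977) (nat_lit 30) (.e (nat_lit 573493) (nat_lit 15) (.e (nat_lit 81953) (nat_lit 22) (.e (nat_lit 90170) (nat_lit 13) (.e (nat_lit 172046) (nat_lit 0) (.e (nat_lit 2458) (nat_lit 157) (.e (nat_lit 5546) (nat_lit 306) .nil)))))))) (.g (nat_lit 1) (.e (nat_lit 19463) (nat_lit 0) .nil) .nil)))) (.nd (nat_lit 9) 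
(.lf (nat_lit 451005) (.g (nat_lit 4217) (.e (nat_lit 2602) (nat_lit 163) (.e (nat_lit 163979) (nat_lit 30) (.e (nat_lit 573482) (nat_lit 13) (.e (nat_lit 65604) (nat_lit 9) (.e (nat_lit 336013) (nat_lit 2) (.e (nat_lit 90170) (nat_lit 13) (.e (nat_lit 172068) (nat_lit 4) (.e (nat_lit 229665) (nat_lit 240) .nil)))))))) (.g (nat_lit 1) (.e (nat_lit 18397) (nat_lit 0) .nil) .nil))) 
(.lf (nat_lit 451517) (.g (nat_lit 3523) (.e (nat_lit 2610) (nat_lit 163) (.e (nat_lit 163978) (nat_lit 30) (.e (nat_lit 573491) (nat_lit 15) (.e (nat_lit 81952) (nat_lit 22) .nil)))) (.g (nat_lit 0) (.e (nat_lit 20049) (nat_lit 0) .nil) .nil)))))) (.nd (nat_lit 7) (.nd (nat_lit 8) (.nd (nat_lit 9) 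
(.lf (nat_lit 450685) (.g (nat_lit 1679) (.e (nat_lit 2587) (nat_lit 162) (.e (nat_lit 49187) (nat_lit 11) (.e (nat_lit 16425) (nat_lit 7) (.e (nat_lit 409648) (nat_lit 18) (.e (nat_lit 303142) (nat_lit 12) .nil))))) (.g (nat_lit 0) (.e (nat_lit 16918) (nat_lit 0) .nil) .nil))) 
(.lf (nat_lit 451197) (.g (nat_lit 4590) (.e (nat_lit 2610) (nat_lit 163) (.e (nat_lit 163977) (nat_lit 30) (.e (nat_lit 573485) (nat_lit 13) (.e (nat_lit 65619) (nat_lit 10) (.e (nat_lit 344117) (nat_lit 21) (.e (nat_lit 516160) (nat_lit 10) (.e (nat_lit 434209) (nat_lit 18) (.e (nat_lit 5548) (nat_lit 306) .nil)))))))) (.g (nat_lit 1) (.e (nat_lit 19368) (nat_lit 0) .nil) .nil)))) 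
(.nd (nat_lit 9) 
(.lf (nat_lit 450941) (.g (nat_lit 2549) (.e (nat_lit 2601) (nat_lit 163) (.e (nat_lit 163977) (nat_lit 30) (.e (nat_lit 573482) (nat_lit 13) (.e (nat_lit 65604) (nat_lit 9) (.e (nat_lit 336028) (nat_lit 3) (.e (nat_lit 98359) (nat_lit 26) (.e (nat_lit 426097) (nat_lit 1) (.e (nat_lit 164346) (nat_lit 240) .nil)))))))) (.g (nat_lit 1) (.e (nat_lit 18007) (nat_lit 0) .nil) .nil))) 
(.lf (nat_lit 451453) (.g (nat_lit 2970) (.e (nat_lit 2610) (nat_lit 163) (.e (nat_lit 163978) (nat_lit 30) (.e (nat_lit 573485) (nat_lit 13) (.e (nat_lit 65604) (nat_lit 9) (.e (nat_lit 336028) (nat_lit 3) (.e (nat_lit 106240) (nat_lit 26) (.e (nat_lit 426107) (nat_lit 1) (.e (nat_lit 164347) (nat_lit 240) .nil)))))))) (.g (nat_lit 1) (.e (nat_lit 19690) (nat_lit 0) .nil) .nil))))) 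
(.nd (nat_lit 8) (.nd (nat_lit 9) 
(.lf (nat_lit 450813) (.g (nat_lit 4686) (.e (nat_lit 2599) (nat_lit 163) (.e (nat_lit 163976) (nat_lit 30) (.e (nat_lit 573481) (nat_lit 13) (.e (nat_lit 65619) (nat_lit 10) (.e (nat_lit 344117) (nat_lit 21) (.e (nat_lit 516151) (nat_lit 9) (.e (nat_lit 426104) (nat_lit 1) (.e (nat_lit 164345) (nat_lit 240) .nil)))))))) (.g (nat_lit 1) (.e (nat_lit 17248) (nat_lit 0) .nil) .nil))) 
(.lf (nat_lit 451325) (.g (nat_lit 3035) (.e (nat_lit 2610) (nat_lit 163) (.e (nat_lit 163977) (nat_lit 30) (.e (nat_lit 573493) (nat_lit 15) (.e (nat_lit 81956) (nat_lit 23) (.e (nat_lit 98367) (nat_lit 27) (.e (nat_lit 434208) (nat_lit 18) (.e (nat_lit 5537) (nat_lit 306) .nil))))))) (.g (nat_lit 1) (.e (nat_lit 19535) (nat_lit 0) .nil) .nil)))) (.nd (nat_lit 9) 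
(.lf (nat_lit 451069) (.g (nat_lit 1947) (.e (nat_lit 2606) (nat_lit 163) (.e (nat_lit 164402) (nat_lit 256) (.e (nat_lit 57371) (nat_lit 2) (.e (nat_lit 90174) (nat_lit 14) (.e (nat_lit 180243) (nat_lit 5) (.e (nat_lit 532513) (nat_lit 3) (.e (nat_lit 114714) (nat_lit 22) (.e (nat_lit 90129) (nat_lit 9) .nil)))))))) (.g (nat_lit 1) (.e (nat_lit 18726) (nat_lit 0) .nil) .nil))) 
(.lf (nat_lit 451581) (.g (nat_lit 1903) (.e (nat_lit 2610) (nat_lit 163) (.e (nat_lit 163979) (nat_lit 30) (.e (nat_lit 573482) (nat_lit 13) (.e (nat_lit 65619) (nat_lit 10) (.e (nat_lit 344117) (nat_lit 21) .nil))))) (.g (nat_lit 0) (.e (nat_lit 20174) (nat_lit 0) .nil) .nil))))))))))) 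
(.nd (nat_lit 2) (.nd (nat_lit 3) (.nd (nat_lit 4) (.nd (nat_lit 5) (.nd (nat_lit 6) 
(.nd (nat_lit 7) (.nd (nat_lit 8) (.nd (nat_lit 9) 
(.lf (nat_lit 450563) (.g (nat_lit 1231) (.e (nat_lit 7936) (nat_lit 159) (.e (nat_lit 24609) (nat_lit 3) (.e (nat_lit 98372) (nat_lit 29) (.e (nat_lit 458496) (nat_lit 3) .nil)))) (.g (nat_lit 0) (.e (nat_lit 16421) (nat_lit 0) .nil) .nil))) 
(.lf (nat_lit 451075) (.g (nat_lit 1888) (.e (nat_lit 2606) (nat_lit 163) (.e (nat_lit 164403) (nat_lit 256) (.e (nat_lit 57378) (nat_lit 3) (.e (nat_lit 98376) (nat_lit 30) (.e (nat_lit 458789) (nat_lit 23) (.e (nat_lit 532515) (nat_lit 3) (.e (nat_lit 114716) (nat_lit 22) (.e (nat_lit 90129) (nat_lit 9) .nil)))))))) (.g (nat_lit 1) (.e (nat_lit 18732) (nat_lit 0) .nil) .nil)))) (.nd (nat_lit 9) 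
(.lf (nat_lit 450819) (.g (nat_lit 2511) (.e (nat_lit 2599) (nat_lit 163) (.e (nat_lit 163978) (nat_lit 30) (.e (nat_lit 573479) (nat_lit 13) (.e (nat_lit 65604) (nat_lit 9) (.e (nat_lit 336028) (nat_lit 3) .nil))))) (.g (nat_lit 0) (.e (nat_lit 17309) (nat_lit 0) .nil) .nil))) 
(.lf (nat_lit 451331) (.g (nat_lit 3065) (.e (nat_lit 2610) (nat_lit 163) (.e (nat_lit 163977) (nat_lit 30) (.e (nat_lit 573493) (nat_lit 15) (.e (nat_lit 81956) (nat_lit 23) (.e (nat_lit 98368) (nat_lit 27) (.e (nat_lit 434202) (nat_lit 18) (.e (nat_lit 5537) (nat_lit 306) .nil))))))) (.g (nat_lit 1) (.e (nat_lit 19541) (nat_lit 0) .nil) .nil))))) (.nd (nat_lit 8) (.nd (nat_lit 9) 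
(.lf (nat_lit 450691) (.g (nat_lit 3915) (.e (nat_lit 2587) (nat_lit 162) (.e (nat_lit 49189) (nat_lit 11) (.e (nat_lit 16425) (nat_lit 7) (.e (nat_lit 409646) (nat_lit 18) (.e (nat_lit 303143) (nat_lit 12) (.e (nat_lit 475198) (nat_lit 40) (.e (nat_lit 704790) (nat_lit 14) .nil))))))) (.g (nat_lit 1) (.e (nat_lit 16927) (nat_lit 0) .nil) .nil))) 
(.lf (nat_lit 451203) (.g (nat_lit 2487) (.e (nat_lit 2610) (nat_lit 163) (.e (nat_lit 163977) (nat_lit 30) (.e (nat_lit 573485) (nat_lit 13) (.e (nat_lit 65619) (nat_lit 10) (.e (nat_lit 344129) (nat_lit 26) (.e (nat_lit 557087) (nat_lit 11) (.e (nat_lit 24597) (nat_lit 1) (.e (nat_lit 57773) (nat_lit 227) .nil)))))))) (.g (nat_lit 1) (.e (nat_lit 19374) (nat_lit 0) .nil) .nil)))) 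
(.nd (nat_lit 9) 
(.lf (nat_lit 450947) (.g (nat_lit 3727) (.e (nat_lit 2601) (nat_lit 163) (.e (nat_lit 163977) (nat_lit 30) (.e (nat_lit 573484) (nat_lit 13) (.e (nat_lit 65610) (nat_lit 10) (.e (nat_lit 344117) (nat_lit 21) (.e (nat_lit 516145) (nat_lit 9) (.e (nat_lit 433920) (nat_lit 1) (.e (nat_lit 164348) (nat_lit 240) .nil)))))))) (.g (nat_lit 1) (.e (nat_lit 18013) (nat_lit 0) .nil) .nil))) 
(.lf (nat_lit 451459) (.g (nat_lit 4485) (.e (nat_lit 2610) (nat_lit 163) (.e (nat_lit 163978) (nat_lit 30) (.e (nat_lit 573485) (nat_lit 13) (.e (nat_lit 65604) (nat_lit 9) (.e (nat_lit 336028) (nat_lit 3) (.e (nat_lit 98367) (nat_lit 27) (.e (nat_lit 434209) (nat_lit 18) (.e (nat_lit 5546) (nat_lit 306) .nil)))))))) (.g (nat_lit 1) (.e (nat_lit 19696) (nat_lit 0) .nil) .nil)))))) 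
(.nd (nat_lit 7) (.nd (nat_lit 8) (.nd (nat_lit 9) 
(.lf (nat_lit 450627) (.g (nat_lit 3000) (.e (nat_lit 2570) (nat_lit 160) (.e (nat_lit 32808) (nat_lit 19) (.e (nat_lit 180277) (nat_lit 32) (.e (nat_lit 1234) (nat_lit 91) (.e (nat_lit 90172) (nat_lit 14) (.e (nat_lit 180285) (nat_lit 45) .nil)))))) (.g (nat_lit 1) (.e (nat_lit 16659) (nat_lit 0) .nil) .nil))) 
(.lf (nat_lit 451139) (.g (nat_lit 4041) (.e (nat_lit 2610) (nat_lit 163) (.e (nat_lit 163977) (nat_lit 30) (.e (nat_lit 573482) (nat_lit 13) (.e (nat_lit 65619) (nat_lit 10) (.e (nat_lit 344117) (nat_lit 21) (.e (nat_lit 516170) (nat_lit 13) (.e (nat_lit 458774) (nat_lit 18) (.e (nat_lit 5547) (nat_lit 306) .nil)))))))) (.g (nat_lit 1) (.e (nat_lit 19309) (nat_lit 0) .nil) .nil)))) 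
(.nd (nat_lit 9) 
(.lf (nat_lit 450883) (.g (nat_lit 2704) (.e (nat_lit 2599) (nat_lit 163) (.e (nat_lit 164403) (nat_lit 256) (.e (nat_lit 57373) (nat_lit 2) (.e (nat_lit 90174) (nat_lit 14) (.e (nat_lit 180243) (nat_lit 5) .nil))))) (.g (nat_lit 0) (.e (nat_lit 17633) (nat_lit 0) .nil) .nil))) 
(.lf (nat_lit 451395) (.g (nat_lit 2701) (.e (nat_lit 2610) (nat_lit 163) (.e (nat_lit 163978) (nat_lit 30) (.e (nat_lit 573484) (nat_lit 13) (.e (nat_lit 65610) (nat_lit 10) (.e (nat_lit 344117) (nat_lit 21) (.e (nat_lit 516143) (nat_lit 9) (.e (nat_lit 426109) (nat_lit 1) (.e (nat_lit 164348) (nat_lit 240) .nil)))))))) (.g (nat_lit 1) (.e (nat_lit 19621) (nat_lit 0) .nil) .nil))))) 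
(.nd (nat_lit 8) (.nd (nat_lit 9) 
(.lf (nat_lit 450755) (.g (nat_lit 3706) (.e (nat_lit 2592) (nat_lit 162) (.e (nat_lit 49189) (nat_lit 11) (.e (nat_lit 16425) (nat_lit 7) (.e (nat_lit 409649) (nat_lit 18) (.e (nat_lit 303143) (nat_lit 12) (.e (nat_lit 475198) (nat_lit 40) (.e (nat_lit 704790) (nat_lit 14) .nil))))))) (.g (nat_lit 1) (.e (nat_lit 16995) (nat_lit 0) .nil) .nil))) 
(.lf (nat_lit 451267) (.g (nat_lit 2574) (.e (nat_lit 2610) (nat_lit 163) (.e (nat_lit 163977) (nat_lit 30) (.e (nat_lit 573493) (nat_lit 15) (.e (nat_lit 81953) (nat_lit 22) (.e (nat_lit 90170) (nat_lit 13) (.e (nat_lit 172059) (nat_lit 1) (.e (nat_lit 164346) (nat_lit 240) .nil))))))) (.g (nat_lit 1) (.e (nat_lit 19469) (nat_lit 0) .nil) .nil)))) (.nd (nat_lit 9) 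
(.lf (nat_lit 451011) (.g (nat_lit 3166) (.e (nat_lit 2602) (nat_lit 163) (.e (nat_lit 164403) (nat_lit 256) (.e (nat_lit 57373) (nat_lit 2) (.e (nat_lit 90174) (nat_lit 14) (.e (nat_lit 180243) (nat_lit 5) (.e (nat_lit 532515) (nat_lit 3) (.e (nat_lit 114716) (nat_lit 22) (.e (nat_lit 90129) (nat_lit 9) .nil)))))))) (.g (nat_lit 1) (.e (nat_lit 18473) (nat_lit 0) .nil) .nil))) 
(.lf (nat_lit 451523) (.g (nat_lit 6595) (.e (nat_lit 2610) (nat_lit 163) (.e (nat_lit 163978) (nat_lit 30) (.e (nat_lit 573493) (nat_lit 15) (.e (nat_lit 81956) (nat_lit 23) (.e (nat_lit 98364) (nat_lit 26) .nil))))) (.g (nat_lit 0) (.e (nat_lit 20085) (nat_lit 0) .nil) .nil))))))) (.nd (nat_lit 6) (.nd (nat_lit 7) (.nd (nat_lit 8) (.nd (nat_lit 9) 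
(.lf (nat_lit 450595) (.g (nat_lit 2880) (.e (nat_lit 2570) (nat_lit 160) (.e (nat_lit 32807) (nat_lit 18) (.e (nat_lit 172118) (nat_lit 12) (.e (nat_lit 475185) (nat_lit 29) (.e (nat_lit 557103) (nat_lit 14) (.e (nat_lit 180285) (nat_lit 45) .nil)))))) (.g (nat_lit 1) (.e (nat_lit 16596) (nat_lit 0) .nil) .nil))) 
(.lf (nat_lit 451107) (.g (nat_lit 3494) (.e (nat_lit 2610) (nat_lit 163) (.e (nat_lit 163977) (nat_lit 30) (.e (nat_lit 573482) (nat_lit 13) (.e (nat_lit 65604) (nat_lit 9) (.e (nat_lit 336013) (nat_lit 2) (.e (nat_lit 90170) (nat_lit 13) (.e (nat_lit 172061) (nat_lit 1) (.e (nat_lit 164347) (nat_lit 240) .nil)))))))) (.g (nat_lit 1) (.e (nat_lit 19277) (nat_lit 0) .nil) .nil)))) 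
(.nd (nat_lit 9) 
(.lf (nat_lit 450851) (.g (nat_lit 4183) (.e (nat_lit 2599) (nat_lit 163) (.e (nat_lit 163979) (nat_lit 30) (.e (nat_lit 573482) (nat_lit 13) (.e (nat_lit 65604) (nat_lit 9) (.e (nat_lit 336013) (nat_lit 2) (.e (nat_lit 90170) (nat_lit 13) (.e (nat_lit 172061) (nat_lit 1) (.e (nat_lit 164346) (nat_lit 240) .nil)))))))) (.g (nat_lit 1) (.e (nat_lit 17388) (nat_lit 0) .nil) .nil))) 
(.lf (nat_lit 451363) (.g (nat_lit 4665) (.e (nat_lit 2610) (nat_lit 163) (.e (nat_lit 163978) (nat_lit 30) (.e (nat_lit 573479) (nat_lit 13) (.e (nat_lit 65619) (nat_lit 10) (.e (nat_lit 344117) (nat_lit 21) (.e (nat_lit 516143) (nat_lit 9) (.e (nat_lit 426109) (nat_lit 1) (.e (nat_lit 164347) (nat_lit 240) .nil)))))))) (.g (nat_lit 1) (.e (nat_lit 19589) (nat_lit 0) .nil) .nil))))) 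
(.nd (nat_lit 8) (.nd (nat_lit 9) 
(.lf (nat_lit 450723) (.g (nat_lit 2270) (.e (nat_lit 2591) (nat_lit 162) (.e (nat_lit 49189) (nat_lit 11) (.e (nat_lit 16425) (nat_lit 7) (.e (nat_lit 409648) (nat_lit 18) (.e (nat_lit 303142) (nat_lit 12) (.e (nat_lit 475197) (nat_lit 40) (.e (nat_lit 704787) (nat_lit 14) .nil))))))) (.g (nat_lit 1) (.e (nat_lit 16960) (nat_lit 0) .nil) .nil))) 
(.lf (nat_lit 451235) (.g (nat_lit 2157) (.e (nat_lit 2610) (nat_lit 163) (.e (nat_lit 163977) (nat_lit 30) (.e (nat_lit 573491) (nat_lit 15) (.e (nat_lit 81954) (nat_lit 23) (.e (nat_lit 98368) (nat_lit 27) .nil))))) (.g (nat_lit 0) (.e (nat_lit 19411) (nat_lit 0) .nil) .nil)))) (.nd (nat_lit 9) 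
(.lf (nat_lit 450979) (.g (nat_lit 3500) (.e (nat_lit 2601) (nat_lit 163) (.e (nat_lit 163979) (nat_lit 30) (.e (nat_lit 573482) (nat_lit 13) (.e (nat_lit 65604) (nat_lit 9) (.e (nat_lit 336028) (nat_lit 3) (.e (nat_lit 98359) (nat_lit 26) (.e (nat_lit 426097) (nat_lit 1) (.e (nat_lit 164347) (nat_lit 240) .nil)))))))) (.g (nat_lit 1) (.e (nat_lit 18198) (nat_lit 0) .nil) .nil))) 
(.lf (nat_lit 451491) (.g (nat_lit 3144) (.e (nat_lit 2610) (nat_lit 163) (.e (nat_lit 163978) (nat_lit 30) (.e (nat_lit 573485) (nat_lit 13) (.e (nat_lit 65619) (nat_lit 10) (.e (nat_lit 344117) (nat_lit 21) (.e (nat_lit 516161) (nat_lit 10) (.e (nat_lit 434209) (nat_lit 18) (.e (nat_lit 5547) (nat_lit 306) .nil)))))))) (.g (nat_lit 1) (.e (nat_lit 19730) (nat_lit 0) .nil) .nil)))))) 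
(.nd (nat_lit 7) (.nd (nat_lit 8) (.nd (nat_lit 9) 
(.lf (nat_lit 450659) (.g (nat_lit 3119) (.e (nat_lit 2571) (nat_lit 160) (.e (nat_lit 32807) (nat_lit 18) (.e (nat_lit 172124) (nat_lit 14) (.e (nat_lit 491537) (nat_lit 2) (.e (nat_lit 90172) (nat_lit 14) (.e (nat_lit 180285) (nat_lit 45) .nil)))))) (.g (nat_lit 1) (.e (nat_lit 16851) (nat_lit 0) .nil) .nil))) 
(.lf (nat_lit 451171) (.g (nat_lit 3063) (.e (nat_lit 2610) (nat_lit 163) (.e (nat_lit 163977) (nat_lit 30) (.e (nat_lit 573485) (nat_lit 13) (.e (nat_lit 65604) (nat_lit 9) (.e (nat_lit 336028) (nat_lit 3) (.e (nat_lit 98354) (nat_lit 26) (.e (nat_lit 426109) (nat_lit 1) (.e (nat_lit 164347) (nat_lit 240) .nil)))))))) (.g (nat_lit 1) (.e (nat_lit 19341) (nat_lit 0) .nil) .nil)))) 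
(.nd (nat_lit 9) 
(.lf (nat_lit 450915) (.g (nat_lit 4866) (.e (nat_lit 2601) (nat_lit 163) (.e (nat_lit 163962) (nat_lit 25) (.e (nat_lit 532543) (nat_lit 10) (.e (nat_lit 344129) (nat_lit 26) (.e (nat_lit 557097) (nat_lit 13) (.e (nat_lit 172133) (nat_lit 15) (.e (nat_lit 1800) (nat_lit 119) (.e (nat_lit 516119) (nat_lit 1) (.e (nat_lit 164345) (nat_lit 240) .nil))))))))) (.g (nat_lit 1) (.e (nat_lit 17845) (nat_lit 0) .nil) .nil))) 
(.lf (nat_lit 451427) (.g (nat_lit 3416) (.e (nat_lit 2610) (nat_lit 163) (.e (nat_lit 163978) (nat_lit 30) (.e (nat_lit 573484) (nat_lit 13) (.e (nat_lit 65610) (nat_lit 10) (.e (nat_lit 344117) (nat_lit 21) (.e (nat_lit 516171) (nat_lit 13) (.e (nat_lit 458774) (nat_lit 18) (.e (nat_lit 5548) (nat_lit 306) .nil)))))))) (.g (nat_lit 1) (.e (nat_lit 19653) (nat_lit 0) .nil) .nil))))) 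
(.nd (nat_lit 8) (.nd (nat_lit 9) 
(.lf (nat_lit 450787) (.g (nat_lit 1129) (.e (nat_lit 2580) (nat_lit 161) (.e (nat_lit 40964) (nat_lit 0) (.e (nat_lit 1582) (nat_lit 111) (.e (nat_lit 360477) (nat_lit 11) (.e (nat_lit 581652) (nat_lit 5) (.e (nat_lit 180287) (nat_lit 45) .nil)))))) (.g (nat_lit 1) (.e (nat_lit 17030) (nat_lit 0) .nil) .nil))) 
(.lf (nat_lit 451299) (.g (nat_lit 3229) (.e (nat_lit 2610) (nat_lit 163) (.e (nat_lit 163977) (nat_lit 30) (.e (nat_lit 573493) (nat_lit 15) (.e (nat_lit 81956) (nat_lit 23) (.e (nat_lit 98354) (nat_lit 26) (.e (nat_lit 426109) (nat_lit 1) (.e (nat_lit 164347) (nat_lit 240) .nil))))))) (.g (nat_lit 1) (.e (nat_lit 19509) (nat_lit 0) .nil) .nil)))) (.nd (nat_lit 9) 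
(.lf (nat_lit 451043) (.g (nat_lit 3780) (.e (nat_lit 2606) (nat_lit 163) (.e (nat_lit 163978) (nat_lit 30) (.e (nat_lit 573489) (nat_lit 14) (.e (nat_lit 73755) (nat_lit 8) (.e (nat_lit 557103) (nat_lit 14) (.e (nat_lit 180244) (nat_lit 5) (.e (nat_lit 532499) (nat_lit 1) (.e (nat_lit 57665) (nat_lit 152) .nil)))))))) (.g (nat_lit 1) (.e (nat_lit 18683) (nat_lit 0) .nil) .nil))) 
(.lf (nat_lit 451555) (.g (nat_lit 4160) (.e (nat_lit 2610) (nat_lit 163) (.e (nat_lit 163979) (nat_lit 30) (.e (nat_lit 573482) (nat_lit 13) (.e (nat_lit 65604) (nat_lit 9) (.e (nat_lit 336028) (nat_lit 3) (.e (nat_lit 98359) (nat_lit 26) (.e (nat_lit 426097) (nat_lit 1) (.e (nat_lit 164346) (nat_lit 240) .nil)))))))) (.g (nat_lit 1) (.e (nat_lit 20148) (nat_lit 0) .nil) .nil)))))))) 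
(.nd (nat_lit 5) (.nd (nat_lit 6) (.nd (nat_lit 7) (.nd (nat_lit 8) (.nd (nat_lit 9) 
(.lf (nat_lit 450579) (.g (nat_lit 3841) (.e (nat_lit 2569) (nat_lit 160) (.e (nat_lit 32807) (nat_lit 18) (.e (nat_lit 172124) (nat_lit 14) (.e (nat_lit 491540) (nat_lit 3) (.e (nat_lit 98367) (nat_lit 27) (.e (nat_lit 434186) (nat_lit 13) .nil)))))) (.g (nat_lit 1) (.e (nat_lit 16485) (nat_lit 0) .nil) .nil))) 
(.lf (nat_lit 451091) (.g (nat_lit 2754) (.e (nat_lit 2608) (nat_lit 163) (.e (nat_lit 164332) (nat_lit 230) (.e (nat_lit 163885) (nat_lit 5) (.e (nat_lit 221194) (nat_lit 11) (.e (nat_lit 336222) (nat_lit 13) (.e (nat_lit 393238) (nat_lit 17) (.e (nat_lit 7349) (nat_lit 388) .nil))))))) (.g (nat_lit 1) (.e (nat_lit 19175) (nat_lit 0) .nil) .nil)))) (.nd (nat_lit 9) 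
(.lf (nat_lit 450835) (.g (nat_lit 4902) (.e (nat_lit 2599) (nat_lit 163) (.e (nat_lit 163978) (nat_lit 30) (.e (nat_lit 573485) (nat_lit 13) (.e (nat_lit 65604) (nat_lit 9) (.e (nat_lit 336028) (nat_lit 3) (.e (nat_lit 98367) (nat_lit 27) (.e (nat_lit 434209) (nat_lit 18) (.e (nat_lit 5546) (nat_lit 306) .nil)))))))) (.g (nat_lit 1) (.e (nat_lit 17345) (nat_lit 0) .nil) .nil))) 
(.lf (nat_lit 451347) (.g (nat_lit 2968) (.e (nat_lit 2610) (nat_lit 163) (.e (nat_lit 163978) (nat_lit 30) (.e (nat_lit 573479) (nat_lit 13) (.e (nat_lit 65604) (nat_lit 9) (.e (nat_lit 336028) (nat_lit 3) (.e (nat_lit 98354) (nat_lit 26) (.e (nat_lit 426109) (nat_lit 1) (.e (nat_lit 164345) (nat_lit 240) .nil)))))))) (.g (nat_lit 1) (.e (nat_lit 19573) (nat_lit 0) .nil) .nil))))) 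
(.nd (nat_lit 8) (.nd (nat_lit 9) 
(.lf (nat_lit 450707) (.g (nat_lit 2073) (.e (nat_lit 2590) (nat_lit 162) (.e (nat_lit 49189) (nat_lit 11) (.e (nat_lit 16425) (nat_lit 7) (.e (nat_lit 409648) (nat_lit 18) (.e (nat_lit 303142) (nat_lit 12) .nil))))) (.g (nat_lit 0) (.e (nat_lit 16943) (nat_lit 0) .nil) .nil))) 
(.lf (nat_lit 451219) (.g (nat_lit 2177) (.e (nat_lit 2610) (nat_lit 163) (.e (nat_lit 163977) (nat_lit 30) (.e (nat_lit 573491) (nat_lit 15) (.e (nat_lit 81954) (nat_lit 23) (.e (nat_lit 98356) (nat_lit 26) (.e (nat_lit 433920) (nat_lit 1) (.e (nat_lit 164347) (nat_lit 240) .nil))))))) (.g (nat_lit 1) (.e (nat_lit 19395) (nat_lit 0) .nil) .nil)))) (.nd (nat_lit 9) 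
(.lf (nat_lit 450963) (.g (nat_lit 3286) (.e (nat_lit 2601) (nat_lit 163) (.e (nat_lit 163978) (nat_lit 30) (.e (nat_lit 573484) (nat_lit 13) (.e (nat_lit 65617) (nat_lit 10) .nil)))) (.g (nat_lit 0) (.e (nat_lit 18163) (nat_lit 0) .nil) .nil))) 
(.lf (nat_lit 451475) (.g (nat_lit 4867) (.e (nat_lit 2610) (nat_lit 163) (.e (nat_lit 163978) (nat_lit 30) (.e (nat_lit 573485) (nat_lit 13) (.e (nat_lit 65619) (nat_lit 10) (.e (nat_lit 344117) (nat_lit 21) (.e (nat_lit 516151) (nat_lit 9) (.e (nat_lit 426097) (nat_lit 1) (.e (nat_lit 164345) (nat_lit 240) .nil)))))))) (.g (nat_lit 1) (.e (nat_lit 19714) (nat_lit 0) .nil) .nil)))))) 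
(.nd (nat_lit 7) (.nd (nat_lit 8) (.nd (nat_lit 9) 
(.lf (nat_lit 450643) (.g (nat_lit 3165) (.e (nat_lit 2571) (nat_lit 160) (.e (nat_lit 32807) (nat_lit 18) (.e (nat_lit 172119) (nat_lit 12) (.e (nat_lit 475183) (nat_lit 29) (.e (nat_lit 557103) (nat_lit 14) (.e (nat_lit 180285) (nat_lit 45) .nil)))))) (.g (nat_lit 1) (.e (nat_lit 16826) (nat_lit 0) .nil) .nil))) 
(.lf (nat_lit 451155) (.g (nat_lit 4324) (.e (nat_lit 2610) (nat_lit 163) (.e (nat_lit 163977) (nat_lit 30) (.e (nat_lit 573484) (nat_lit 13) (.e (nat_lit 65610) (nat_lit 10) (.e (nat_lit 344117) (nat_lit 21) (.e (nat_lit 516160) (nat_lit 10) (.e (nat_lit 434209) (nat_lit 18) (.e (nat_lit 5547) (nat_lit 306) .nil)))))))) (.g (nat_lit 1) (.e (nat_lit 19325) (nat_lit 0) .nil) .nil)))) 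
(.nd (nat_lit 9) 
(.lf (nat_lit 450899) (.g (nat_lit 3797) (.e (nat_lit 2600) (nat_lit 163) (.e (nat_lit 163977) (nat_lit 30) (.e (nat_lit 573482) (nat_lit 13) (.e (nat_lit 65619) (nat_lit 10) (.e (nat_lit 344117) (nat_lit 21) (.e (nat_lit 516143) (nat_lit 9) (.e (nat_lit 426109) (nat_lit 1) (.e (nat_lit 164346) (nat_lit 240) .nil)))))))) (.g (nat_lit 1) (.e (nat_lit 17714) (nat_lit 0) .nil) .nil))) 
(.lf (nat_lit 451411) (.g (nat_lit 3362) (.e (nat_lit 2610) (nat_lit 163) (.e (nat_lit 163978) (nat_lit 30) (.e (nat_lit 573484) (nat_lit 13) (.e (nat_lit 65610) (nat_lit 10) (.e (nat_lit 344117) (nat_lit 21) (.e (nat_lit 516151) (nat_lit 9) (.e (nat_lit 433920) (nat_lit 1) (.e (nat_lit 164348) (nat_lit 240) .nil)))))))) (.g (nat_lit 1) (.e (nat_lit 19637) (nat_lit 0) .nil) .nil))))) 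
(.nd (nat_lit 8) (.nd (nat_lit 9) 
(.lf (nat_lit 450771) (.g (nat_lit 1442) (.e (nat_lit 2576) (nat_lit 161) (.e (nat_lit 40997) (nat_lit 11) (.e (nat_lit 24625) (nat_lit 9) (.e (nat_lit 336438) (nat_lit 31) (.e (nat_lit 458769) (nat_lit 16) .nil))))) (.g (nat_lit 0) (.e (nat_lit 17014) (nat_lit 0) .nil) .nil))) 
(.lf (nat_lit 451283) (.g (nat_lit 2054) (.e (nat_lit 2610) (nat_lit 163) (.e (nat_lit 163977) (nat_lit 30) (.e (nat_lit 573493) (nat_lit 15) (.e (nat_lit 81954) (nat_lit 23) .nil)))) (.g (nat_lit 0) (.e (nat_lit 19485) (nat_lit 0) .nil) .nil)))) (.nd (nat_lit 9) 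
(.lf (nat_lit 451027) (.g (nat_lit 2339) (.e (nat_lit 2604) (nat_lit 163) (.e (nat_lit 164398) (nat_lit 256) (.e (nat_lit 57378) (nat_lit 3) (.e (nat_lit 98368) (nat_lit 27) (.e (nat_lit 434245) (nat_lit 28) (.e (nat_lit 573488) (nat_lit 14) (.e (nat_lit 73755) (nat_lit 8) (.e (nat_lit 557068) (nat_lit 9) .nil)))))))) (.g (nat_lit 1) (.e (nat_lit 18553) (nat_lit 0) .nil) .nil))) 
(.lf (nat_lit 451539) (.g (nat_lit 2108) (.e (nat_lit 2610) (nat_lit 163) (.e (nat_lit 163979) (nat_lit 30) (.e (nat_lit 573482) (nat_lit 13) (.e (nat_lit 65604) (nat_lit 9) (.e (nat_lit 336013) (nat_lit 2) (.e (nat_lit 90134) (nat_lit 9) (.e (nat_lit 2882) (nat_lit 184) (.e (nat_lit 426109) (nat_lit 1) (.e (nat_lit 164347) (nat_lit 240) .nil))))))))) (.g (nat_lit 1) (.e (nat_lit 20131) (nat_lit 0) .nil) .nil))))))) 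
(.nd (nat_lit 6) (.nd (nat_lit 7) (.nd (nat_lit 8) (.nd (nat_lit 9) 
(.lf (nat_lit 450611) (.g (nat_lit 3091) (.e (nat_lit 2570) (nat_lit 160) (.e (nat_lit 32807) (nat_lit 18) (.e (nat_lit 172124) (nat_lit 14) (.e (nat_lit 491537) (nat_lit 2) (.e (nat_lit 90172) (nat_lit 14) (.e (nat_lit 180285) (nat_lit 45) .nil)))))) (.g (nat_lit 1) (.e (nat_lit 16625) (nat_lit 0) .nil) .nil))) 
(.lf (nat_lit 451123) (.g (nat_lit 4567) (.e (nat_lit 2610) (nat_lit 163) (.e (nat_lit 163977) (nat_lit 30) (.e (nat_lit 573482) (nat_lit 13) (.e (nat_lit 65604) (nat_lit 9) (.e (nat_lit 336028) (nat_lit 3) (.e (nat_lit 98367) (nat_lit 27) (.e (nat_lit 434209) (nat_lit 18) (.e (nat_lit 5548) (nat_lit 306) .nil)))))))) (.g (nat_lit 1) (.e (nat_lit 19293) (nat_lit 0) .nil) .nil)))) (.nd (nat_lit 9) 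
(.lf (nat_lit 450867) (.g (nat_lit 4271) (.e (nat_lit 2599) (nat_lit 163) (.e (nat_lit 163979) (nat_lit 30) (.e (nat_lit 573482) (nat_lit 13) (.e (nat_lit 65619) (nat_lit 10) (.e (nat_lit 344117) (nat_lit 21) (.e (nat_lit 516151) (nat_lit 9) (.e (nat_lit 426097) (nat_lit 1) (.e (nat_lit 164346) (nat_lit 240) .nil)))))))) (.g (nat_lit 1) (.e (nat_lit 17407) (nat_lit 0) .nil) .nil))) 
(.lf (nat_lit 451379) (.g (nat_lit 3665) (.e (nat_lit 2610) (nat_lit 163) (.e (nat_lit 163978) (nat_lit 30) (.e (nat_lit 573479) (nat_lit 13) (.e (nat_lit 65619) (nat_lit 10) (.e (nat_lit 344117) (nat_lit 21) (.e (nat_lit 516160) (nat_lit 10) (.e (nat_lit 434202) (nat_lit 18) (.e (nat_lit 5537) (nat_lit 306) .nil)))))))) (.g (nat_lit 1) (.e (nat_lit 19605) (nat_lit 0) .nil) .nil))))) 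
(.nd (nat_lit 8) (.nd (nat_lit 9) 
(.lf (nat_lit 450739) (.g (nat_lit 1918) (.e (nat_lit 2592) (nat_lit 162) (.e (nat_lit 49189) (nat_lit 11) (.e (nat_lit 16425) (nat_lit 7) (.e (nat_lit 409644) (nat_lit 18) (.e (nat_lit 303143) (nat_lit 12) .nil))))) (.g (nat_lit 0) (.e (nat_lit 16979) (nat_lit 0) .nil) .nil))) 
(.lf (nat_lit 451251) (.g (nat_lit 2956) (.e (nat_lit 2610) (nat_lit 163) (.e (nat_lit 163977) (nat_lit 30) (.e (nat_lit 573492) (nat_lit 15) (.e (nat_lit 81956) (nat_lit 23) (.e (nat_lit 98378) (nat_lit 30) (.e (nat_lit 458774) (nat_lit 18) (.e (nat_lit 5546) (nat_lit 306) .nil))))))) (.g (nat_lit 1) (.e (nat_lit 19443) (nat_lit 0) .nil) .nil)))) (.nd (nat_lit 9) 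
(.lf (nat_lit 450995) (.g (nat_lit 2573) (.e (nat_lit 2602) (nat_lit 163) (.e (nat_lit 163978) (nat_lit 30) (.e (nat_lit 573479) (nat_lit 13) (.e (nat_lit 65619) (nat_lit 10) (.e (nat_lit 344117) (nat_lit 21) (.e (nat_lit 516151) (nat_lit 9) (.e (nat_lit 426142) (nat_lit 4) (.e (nat_lit 229664) (nat_lit 240) .nil)))))))) (.g (nat_lit 1) (.e (nat_lit 18343) (nat_lit 0) .nil) .nil))) 
(.lf (nat_lit 451507) (.g (nat_lit 3238) (.e (nat_lit 2610) (nat_lit 163) (.e (nat_lit 163978) (nat_lit 30) (.e (nat_lit 573485) (nat_lit 13) (.e (nat_lit 65619) (nat_lit 10) (.e (nat_lit 344129) (nat_lit 26) (.e (nat_lit 557087) (nat_lit 11) (.e (nat_lit 24598) (nat_lit 1) (.e (nat_lit 57770) (nat_lit 227) .nil)))))))) (.g (nat_lit 1) (.e (nat_lit 19753) (nat_lit 0) .nil) .nil)))))) 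
(.nd (nat_lit 7) (.nd (nat_lit 8) (.nd (nat_lit 9) 
(.lf (nat_lit 450675) (.g (nat_lit 3103) (.e (nat_lit 2571) (nat_lit 160) (.e (nat_lit 32807) (nat_lit 18) (.e (nat_lit 172126) (nat_lit 14) (.e (nat_lit 491540) (nat_lit 3) (.e (nat_lit 98367) (nat_lit 27) (.e (nat_lit 434192) (nat_lit 13) .nil)))))) (.g (nat_lit 1) (.e (nat_lit 16889) (nat_lit 0) .nil) .nil))) 
(.lf (nat_lit 451187) (.g (nat_lit 3432) (.e (nat_lit 2610) (nat_lit 163) (.e (nat_lit 163977) (nat_lit 30) (.e (nat_lit 573485) (nat_lit 13) (.e (nat_lit 65619) (nat_lit 10) (.e (nat_lit 344117) (nat_lit 21) (.e (nat_lit 516143) (nat_lit 9) (.e (nat_lit 426109) (nat_lit 1) (.e (nat_lit 164347) (nat_lit 240) .nil)))))))) (.g (nat_lit 1) (.e (nat_lit 19358) (nat_lit 0) .nil) .nil)))) 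
(.nd (nat_lit 9) 
(.lf (nat_lit 450931) (.g (nat_lit 3704) (.e (nat_lit 2601) (nat_lit 163) (.e (nat_lit 163975) (nat_lit 30) (.e (nat_lit 573481) (nat_lit 13) (.e (nat_lit 65619) (nat_lit 10) (.e (nat_lit 344117) (nat_lit 21) (.e (nat_lit 516160) (nat_lit 10) (.e (nat_lit 434209) (nat_lit 18) (.e (nat_lit 5546) (nat_lit 306) .nil)))))))) (.g (nat_lit 1) (.e (nat_lit 17880) (nat_lit 0) .nil) .nil))) 
(.lf (nat_lit 451443) (.g (nat_lit 4064) (.e (nat_lit 2610) (nat_lit 163) (.e (nat_lit 163978) (nat_lit 30) (.e (nat_lit 573485) (nat_lit 13) (.e (nat_lit 65604) (nat_lit 9) (.e (nat_lit 336028) (nat_lit 3) (.e (nat_lit 98359) (nat_lit 26) (.e (nat_lit 426097) (nat_lit 1) (.e (nat_lit 164346) (nat_lit 240) .nil)))))))) (.g (nat_lit 1) (.e (nat_lit 19680) (nat_lit 0) .nil) .nil))))) 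
(.nd (nat_lit 8) (.nd (nat_lit 9) 
(.lf (nat_lit 450803) (.g (nat_lit 3380) (.e (nat_lit 2599) (nat_lit 163) (.e (nat_lit 163975) (nat_lit 30) (.e (nat_lit 573481) (nat_lit 13) (.e (nat_lit 65619) (nat_lit 10) (.e (nat_lit 344117) (nat_lit 21) (.e (nat_lit 516159) (nat_lit 10) (.e (nat_lit 434209) (nat_lit 18) (.e (nat_lit 5546) (nat_lit 306) .nil)))))))) (.g (nat_lit 1) (.e (nat_lit 17204) (nat_lit 0) .nil) .nil))) 
(.lf (nat_lit 451315) (.g (nat_lit 5342) (.e (nat_lit 2610) (nat_lit 163) (.e (nat_lit 163977) (nat_lit 30) (.e (nat_lit 573493) (nat_lit 15) (.e (nat_lit 81956) (nat_lit 23) (.e (nat_lit 98362) (nat_lit 26) (.e (nat_lit 426103) (nat_lit 1) (.e (nat_lit 164348) (nat_lit 240) .nil))))))) (.g (nat_lit 1) (.e (nat_lit 19525) (nat_lit 0) .nil) .nil)))) (.nd (nat_lit 9) 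
(.lf (nat_lit 451059) (.g (nat_lit 2411) (.e (nat_lit 2606) (nat_lit 163) (.e (nat_lit 163978) (nat_lit 30) (.e (nat_lit 573489) (nat_lit 14) (.e (nat_lit 73755) (nat_lit 8) (.e (nat_lit 557105) (nat_lit 14) (.e (nat_lit 180245) (nat_lit 5) (.e (nat_lit 532504) (nat_lit 1) (.e (nat_lit 57662) (nat_lit 152) .nil)))))))) (.g (nat_lit 1) (.e (nat_lit 18699) (nat_lit 0) .nil) .nil))) 
(.lf (nat_lit 451571) (.g (nat_lit 2129) (.e (nat_lit 2610) (nat_lit 163) (.e (nat_lit 163979) (nat_lit 30) (.e (nat_lit 573482) (nat_lit 13) (.e (nat_lit 65604) (nat_lit 9) (.e (nat_lit 336028) (nat_lit 3) (.e (nat_lit 98366) (nat_lit 27) (.e (nat_lit 434209) (nat_lit 18) (.e (nat_lit 5543) (nat_lit 306) .nil)))))))) (.g (nat_lit 1) (.e (nat_lit 20164) (nat_lit 0) .nil) .nil))))))))) 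
(.nd (nat_lit 4) (.nd (nat_lit 5) (.nd (nat_lit 6) (.nd (nat_lit 7) (.nd (nat_lit 8) 
(.nd (nat_lit 9) 
(.lf (nat_lit 450571) (.g (nat_lit 2373) (.e (nat_lit 2569) (nat_lit 160) (.e (nat_lit 32807) (nat_lit 18) (.e (nat_lit 172119) (nat_lit 12) (.e (nat_lit 475185) (nat_lit 29) (.e (nat_lit 557105) (nat_lit 14) (.e (nat_lit 188160) (nat_lit 45) .nil)))))) (.g (nat_lit 1) (.e (nat_lit 16473) (nat_lit 0) .nil) .nil))) 
(.lf (nat_lit 451083) (.g (nat_lit 3541) (.e (nat_lit 2607) (nat_lit 163) (.e (nat_lit 164396) (nat_lit 256) (.e (nat_lit 57371) (nat_lit 2) (.e (nat_lit 90174) (nat_lit 14) (.e (nat_lit 180243) (nat_lit 5) (.e (nat_lit 532515) (nat_lit 3) (.e (nat_lit 114716) (nat_lit 22) (.e (nat_lit 90137) (nat_lit 9) .nil)))))))) (.g (nat_lit 1) (.e (nat_lit 18996) (nat_lit 0) .nil) .nil)))) (.nd (nat_lit 9) 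
(.lf (nat_lit 450827) (.g (nat_lit 3202) (.e (nat_lit 2599) (nat_lit 163) (.e (nat_lit 163978) (nat_lit 30) (.e (nat_lit 573479) (nat_lit 13) (.e (nat_lit 65619) (nat_lit 10) (.e (nat_lit 344117) (nat_lit 21) (.e (nat_lit 516160) (nat_lit 10) (.e (nat_lit 434209) (nat_lit 18) (.e (nat_lit 5546) (nat_lit 306) .nil)))))))) (.g (nat_lit 1) (.e (nat_lit 17317) (nat_lit 0) .nil) .nil))) 
(.lf (nat_lit 451339) (.g (nat_lit 3171) (.e (nat_lit 2610) (nat_lit 163) (.e (nat_lit 163978) (nat_lit 30) (.e (nat_lit 573479) (nat_lit 13) (.e (nat_lit 65604) (nat_lit 9) (.e (nat_lit 336013) (nat_lit 2) (.e (nat_lit 90170) (nat_lit 13) (.e (nat_lit 172059) (nat_lit 1) (.e (nat_lit 164346) (nat_lit 240) .nil)))))))) (.g (nat_lit 1) (.e (nat_lit 19565) (nat_lit 0) .nil) .nil))))) 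
(.nd (nat_lit 8) (.nd (nat_lit 9) 
(.lf (nat_lit 450699) (.g (nat_lit 3122) (.e (nat_lit 2587) (nat_lit 162) (.e (nat_lit 49189) (nat_lit 11) (.e (nat_lit 16425) (nat_lit 7) (.e (nat_lit 409648) (nat_lit 18) (.e (nat_lit 303142) (nat_lit 12) (.e (nat_lit 475199) (nat_lit 40) (.e (nat_lit 704790) (nat_lit 14) .nil))))))) (.g (nat_lit 1) (.e (nat_lit 16935) (nat_lit 0) .nil) .nil))) 
(.lf (nat_lit 451211) (.g (nat_lit 4223) (.e (nat_lit 2610) (nat_lit 163) (.e (nat_lit 163977) (nat_lit 30) (.e (nat_lit 573491) (nat_lit 15) (.e (nat_lit 81951) (nat_lit 22) (.e (nat_lit 90185) (nat_lit 17) (.e (nat_lit 237582) (nat_lit 1) (.e (nat_lit 164348) (nat_lit 240) .nil))))))) (.g (nat_lit 1) (.e (nat_lit 19387) (nat_lit 0) .nil) .nil)))) (.nd (nat_lit 9) 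
(.lf (nat_lit 450955) (.g (nat_lit 4338) (.e (nat_lit 2601) (nat_lit 163) (.e (nat_lit 163977) (nat_lit 30) (.e (nat_lit 573485) (nat_lit 13) (.e (nat_lit 65619) (nat_lit 10) (.e (nat_lit 344117) (nat_lit 21) (.e (nat_lit 516170) (nat_lit 13) (.e (nat_lit 458774) (nat_lit 18) (.e (nat_lit 5548) (nat_lit 306) .nil)))))))) (.g (nat_lit 1) (.e (nat_lit 18024) (nat_lit 0) .nil) .nil))) 
(.lf (nat_lit 451467) (.g (nat_lit 2018) (.e (nat_lit 2610) (nat_lit 163) (.e (nat_lit 163978) (nat_lit 30) (.e (nat_lit 573485) (nat_lit 13) (.e (nat_lit 65619) (nat_lit 10) (.e (nat_lit 344117) (nat_lit 21) (.e (nat_lit 516106) (nat_lit 0) (.e (nat_lit 7936) (nat_lit 388) (.e (nat_lit 2612) (nat_lit 163) (.e (nat_lit 164347) (nat_lit 240) .nil))))))))) (.g (nat_lit 1) (.e (nat_lit 19705) (nat_lit 0) .nil) .nil)))))) 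
(.nd (nat_lit 7) (.nd (nat_lit 8) (.nd (nat_lit 9) 
(.lf (nat_lit 450635) (.g (nat_lit 2496) (.e (nat_lit 2571) (nat_lit 160) (.e (nat_lit 32807) (nat_lit 18) (.e (nat_lit 172118) (nat_lit 12) (.e (nat_lit 475184) (nat_lit 29) (.e (nat_lit 557103) (nat_lit 14) (.e (nat_lit 180285) (nat_lit 45) .nil)))))) (.g (nat_lit 1) (.e (nat_lit 16818) (nat_lit 0) .nil) .nil))) 
(.lf (nat_lit 451147) (.g (nat_lit 3377) (.e (nat_lit 2610) (nat_lit 163) (.e (nat_lit 163977) (nat_lit 30) (.e (nat_lit 573484) (nat_lit 13) (.e (nat_lit 65610) (nat_lit 10) (.e (nat_lit 344117) (nat_lit 21) (.e (nat_lit 516151) (nat_lit 9) (.e (nat_lit 426097) (nat_lit 1) (.e (nat_lit 164345) (nat_lit 240) .nil)))))))) (.g (nat_lit 1) (.e (nat_lit 19317) (nat_lit 0) .nil) .nil)))) 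
(.nd (nat_lit 9) 
(.lf (nat_lit 450891) (.g (nat_lit 3183) (.e (nat_lit 2600) (nat_lit 163) (.e (nat_lit 163976) (nat_lit 30) (.e (nat_lit 573481) (nat_lit 13) (.e (nat_lit 65604) (nat_lit 9) (.e (nat_lit 336013) (nat_lit 2) (.e (nat_lit 90170) (nat_lit 13) (.e (nat_lit 172059) (nat_lit 1) (.e (nat_lit 164346) (nat_lit 240) .nil)))))))) (.g (nat_lit 1) (.e (nat_lit 17679) (nat_lit 0) .nil) .nil))) 
(.lf (nat_lit 451403) (.g (nat_lit 4452) (.e (nat_lit 2610) (nat_lit 163) (.e (nat_lit 163978) (nat_lit 30) (.e (nat_lit 573484) (nat_lit 13) (.e (nat_lit 65610) (nat_lit 10) (.e (nat_lit 344117) (nat_lit 21) (.e (nat_lit 516151) (nat_lit 9) (.e (nat_lit 426097) (nat_lit 1) (.e (nat_lit 164346) (nat_lit 240) .nil)))))))) (.g (nat_lit 1) (.e (nat_lit 19629) (nat_lit 0) .nil) .nil))))) 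
(.nd (nat_lit 8) (.nd (nat_lit 9) 
(.lf (nat_lit 450763) (.g (nat_lit 1498) (.e (nat_lit 2576) (nat_lit 161) (.e (nat_lit 40993) (nat_lit 11) (.e (nat_lit 24628) (nat_lit 9) (.e (nat_lit 336438) (nat_lit 31) (.e (nat_lit 458769) (nat_lit 16) (.e (nat_lit 164269) (nat_lit 221) .nil)))))) (.g (nat_lit 1) (.e (nat_lit 17006) (nat_lit 0) .nil) .nil))) 
(.lf (nat_lit 451275) (.g (nat_lit 4999) (.e (nat_lit 2610) (nat_lit 163) (.e (nat_lit 163977) (nat_lit 30) (.e (nat_lit 573493) (nat_lit 15) (.e (nat_lit 81953) (nat_lit 22) (.e (nat_lit 90172) (nat_lit 14) (.e (nat_lit 180229) (nat_lit 0) (.e (nat_lit 5548) (nat_lit 306) .nil))))))) (.g (nat_lit 1) (.e (nat_lit 19477) (nat_lit 0) .nil) .nil)))) (.nd (nat_lit 9) 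
(.lf (nat_lit 451019) (.g (nat_lit 3752) (.e (nat_lit 2604) (nat_lit 163) (.e (nat_lit 163975) (nat_lit 30) (.e (nat_lit 573481) (nat_lit 13) (.e (nat_lit 65604) (nat_lit 9) (.e (nat_lit 336013) (nat_lit 2) (.e (nat_lit 90170) (nat_lit 13) (.e (nat_lit 172068) (nat_lit 4) (.e (nat_lit 229666) (nat_lit 240) .nil)))))))) (.g (nat_lit 1) (.e (nat_lit 18512) (nat_lit 0) .nil) .nil))) 
(.lf (nat_lit 451531) (.g (nat_lit 3034) (.e (nat_lit 2610) (nat_lit 163) (.e (nat_lit 163979) (nat_lit 30) (.e (nat_lit 573481) (nat_lit 13) (.e (nat_lit 65604) (nat_lit 9) (.e (nat_lit 336028) (nat_lit 3) (.e (nat_lit 98367) (nat_lit 27) (.e (nat_lit 434209) (nat_lit 18) (.e (nat_lit 5548) (nat_lit 306) .nil)))))))) (.g (nat_lit 1) (.e (nat_lit 20122) (nat_lit 0) .nil) .nil))))))) 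
(.nd (nat_lit 6) (.nd (nat_lit 7) (.nd (nat_lit 8) (.nd (nat_lit 9) 
(.lf (nat_lit 450603) (.g (nat_lit 3543) (.e (nat_lit 2570) (nat_lit 160) (.e (nat_lit 32807) (nat_lit 18) (.e (nat_lit 172119) (nat_lit 12) (.e (nat_lit 475185) (nat_lit 29) (.e (nat_lit 557103) (nat_lit 14) (.e (nat_lit 180288) (nat_lit 45) .nil)))))) (.g (nat_lit 1) (.e (nat_lit 16604) (nat_lit 0) .nil) .nil))) 
(.lf (nat_lit 451115) (.g (nat_lit 3168) (.e (nat_lit 2610) (nat_lit 163) (.e (nat_lit 163977) (nat_lit 30) (.e (nat_lit 573482) (nat_lit 13) (.e (nat_lit 65604) (nat_lit 9) (.e (nat_lit 336028) (nat_lit 3) (.e (nat_lit 98359) (nat_lit 26) (.e (nat_lit 426104) (nat_lit 1) (.e (nat_lit 164345) (nat_lit 240) .nil)))))))) (.g (nat_lit 1) (.e (nat_lit 19285) (nat_lit 0) .nil) .nil)))) 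
(.nd (nat_lit 9) 
(.lf (nat_lit 450859) (.g (nat_lit 4672) (.e (nat_lit 2599) (nat_lit 163) (.e (nat_lit 163979) (nat_lit 30) (.e (nat_lit 573482) (nat_lit 13) (.e (nat_lit 65604) (nat_lit 9) (.e (nat_lit 336028) (nat_lit 3) (.e (nat_lit 98366) (nat_lit 27) (.e (nat_lit 434209) (nat_lit 18) (.e (nat_lit 5546) (nat_lit 306) .nil)))))))) (.g (nat_lit 1) (.e (nat_lit 17399) (nat_lit 0) .nil) .nil))) 
(.lf (nat_lit 451371) (.g (nat_lit 4947) (.e (nat_lit 2610) (nat_lit 163) (.e (nat_lit 163978) (nat_lit 30) (.e (nat_lit 573479) (nat_lit 13) (.e (nat_lit 65619) (nat_lit 10) (.e (nat_lit 344117) (nat_lit 21) (.e (nat_lit 516151) (nat_lit 9) (.e (nat_lit 426104) (nat_lit 1) (.e (nat_lit 164348) (nat_lit 240) .nil)))))))) (.g (nat_lit 1) (.e (nat_lit 19597) (nat_lit 0) .nil) .nil))))) 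
(.nd (nat_lit 8) (.nd (nat_lit 9) 
(.lf (nat_lit 450731) (.g (nat_lit 2663) (.e (nat_lit 2591) (nat_lit 162) (.e (nat_lit 49189) (nat_lit 11) (.e (nat_lit 16425) (nat_lit 7) (.e (nat_lit 409649) (nat_lit 18) (.e (nat_lit 303143) (nat_lit 12) (.e (nat_lit 475197) (nat_lit 40) (.e (nat_lit 704790) (nat_lit 14) .nil))))))) (.g (nat_lit 1) (.e (nat_lit 16968) (nat_lit 0) .nil) .nil))) 
(.lf (nat_lit 451243) (.g (nat_lit 4220) (.e (nat_lit 2610) (nat_lit 163) (.e (nat_lit 163977) (nat_lit 30) (.e (nat_lit 573492) (nat_lit 15) (.e (nat_lit 81956) (nat_lit 23) (.e (nat_lit 98356) (nat_lit 26) (.e (nat_lit 433920) (nat_lit 1) (.e (nat_lit 164347) (nat_lit 240) .nil))))))) (.g (nat_lit 1) (.e (nat_lit 19435) (nat_lit 0) .nil) .nil)))) (.nd (nat_lit 9) 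
(.lf (nat_lit 450987) (.g (nat_lit 3296) (.e (nat_lit 2601) (nat_lit 163) (.e (nat_lit 163979) (nat_lit 30) (.e (nat_lit 573482) (nat_lit 13) (.e (nat_lit 65619) (nat_lit 10) (.e (nat_lit 344117) (nat_lit 21) (.e (nat_lit 516159) (nat_lit 10) (.e (nat_lit 434209) (nat_lit 18) (.e (nat_lit 5546) (nat_lit 306) .nil)))))))) (.g (nat_lit 1) (.e (nat_lit 18206) (nat_lit 0) .nil) .nil))) 
(.lf (nat_lit 451499) (.g (nat_lit 3585) (.e (nat_lit 2610) (nat_lit 163) (.e (nat_lit 163978) (nat_lit 30) (.e (nat_lit 573485) (nat_lit 13) (.e (nat_lit 65619) (nat_lit 10) (.e (nat_lit 344117) (nat_lit 21) (.e (nat_lit 516170) (nat_lit 13) (.e (nat_lit 458774) (nat_lit 18) (.e (nat_lit 5546) (nat_lit 306) .nil)))))))) (.g (nat_lit 1) (.e (nat_lit 19738) (nat_lit 0) .nil) .nil)))))) 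
(.nd (nat_lit 7) (.nd (nat_lit 8) (.nd (nat_lit 9) 
(.lf (nat_lit 450667) (.g (nat_lit 3123) (.e (nat_lit 2571) (nat_lit 160) (.e (nat_lit 32807) (nat_lit 18) (.e (nat_lit 172126) (nat_lit 14) (.e (nat_lit 491536) (nat_lit 2) (.e (nat_lit 90172) (nat_lit 14) (.e (nat_lit 180285) (nat_lit 45) .nil)))))) (.g (nat_lit 1) (.e (nat_lit 16874) (nat_lit 0) .nil) .nil))) 
(.lf (nat_lit 451179) (.g (nat_lit 2508) (.e (nat_lit 2610) (nat_lit 163) (.e (nat_lit 163977) (nat_lit 30) (.e (nat_lit 573485) (nat_lit 13) (.e (nat_lit 65604) (nat_lit 9) (.e (nat_lit 336028) (nat_lit 3) (.e (nat_lit 98366) (nat_lit 27) (.e (nat_lit 434209) (nat_lit 18) (.e (nat_lit 5546) (nat_lit 306) .nil)))))))) (.g (nat_lit 1) (.e (nat_lit 19350) (nat_lit 0) .nil) .nil)))) (.nd (nat_lit 9) 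
(.lf (nat_lit 450923) (.g (nat_lit 1756) (.e (nat_lit 2601) (nat_lit 163) (.e (nat_lit 163975) (nat_lit 30) (.e (nat_lit 573481) (nat_lit 13) (.e (nat_lit 65619) (nat_lit 10) (.e (nat_lit 344117) (nat_lit 21) .nil))))) (.g (nat_lit 0) (.e (nat_lit 17872) (nat_lit 0) .nil) .nil))) 
(.lf (nat_lit 451435) (.g (nat_lit 4122) (.e (nat_lit 2610) (nat_lit 163) (.e (nat_lit 163978) (nat_lit 30) (.e (nat_lit 573485) (nat_lit 13) (.e (nat_lit 65604) (nat_lit 9) (.e (nat_lit 336013) (nat_lit 2) (.e (nat_lit 90170) (nat_lit 13) (.e (nat_lit 172049) (nat_lit 0) (.e (nat_lit 2458) (nat_lit 157) (.e (nat_lit 5547) (nat_lit 306) .nil))))))))) (.g (nat_lit 1) (.e (nat_lit 19667) (nat_lit 0) .nil) .nil))))) 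
(.nd (nat_lit 8) (.nd (nat_lit 9) 
(.lf (nat_lit 450795) (.g (nat_lit 2070) (.e (nat_lit 2598) (nat_lit 163) (.e (nat_lit 163979) (nat_lit 30) (.e (nat_lit 573482) (nat_lit 13) (.e (nat_lit 65604) (nat_lit 9) (.e (nat_lit 336013) (nat_lit 2) .nil))))) (.g (nat_lit 0) (.e (nat_lit 17114) (nat_lit 0) .nil) .nil))) 
(.lf (nat_lit 451307) (.g (nat_lit 3605) (.e (nat_lit 2610) (nat_lit 163) (.e (nat_lit 163977) (nat_lit 30) (.e (nat_lit 573493) (nat_lit 15) (.e (nat_lit 81956) (nat_lit 23) (.e (nat_lit 98359) (nat_lit 26) (.e (nat_lit 426103) (nat_lit 1) (.e (nat_lit 164348) (nat_lit 240) .nil))))))) (.g (nat_lit 1) (.e (nat_lit 19517) (nat_lit 0) .nil) .nil)))) (.nd (nat_lit 9) 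
(.lf (nat_lit 451051) (.g (nat_lit 3714) (.e (nat_lit 2606) (nat_lit 163) (.e (nat_lit 163978) (nat_lit 30) (.e (nat_lit 573489) (nat_lit 14) (.e (nat_lit 73755) (nat_lit 8) (.e (nat_lit 557104) (nat_lit 14) (.e (nat_lit 180244) (nat_lit 5) (.e (nat_lit 532503) (nat_lit 1) (.e (nat_lit 57659) (nat_lit 152) .nil)))))))) (.g (nat_lit 1) (.e (nat_lit 18691) (nat_lit 0) .nil) .nil))) 
(.lf (nat_lit 451563) (.g (nat_lit 2424) (.e (nat_lit 2610) (nat_lit 163) (.e (nat_lit 163979) (nat_lit 30) (.e (nat_lit 573482) (nat_lit 13) (.e (nat_lit 65604) (nat_lit 9) (.e (nat_lit 336028) (nat_lit 3) (.e (nat_lit 98359) (nat_lit 26) (.e (nat_lit 433920) (nat_lit 1) (.e (nat_lit 164348) (nat_lit 240) .nil)))))))) (.g (nat_lit 1) (.e (nat_lit 20156) (nat_lit 0) .nil) .nil)))))))) 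
(.nd (nat_lit 5) (.nd (nat_lit 6) (.nd (nat_lit 7) (.nd (nat_lit 8) (.nd (nat_lit 9) 
(.lf (nat_lit 450587) (.g (nat_lit 2389) (.e (nat_lit 2569) (nat_lit 160) (.e (nat_lit 32808) (nat_lit 19) (.e (nat_lit 180278) (nat_lit 32) (.e (nat_lit 1235) (nat_lit 91) (.e (nat_lit 90172) (nat_lit 14) (.e (nat_lit 180285) (nat_lit 45) .nil)))))) (.g (nat_lit 1) (.e (nat_lit 16499) (nat_lit 0) .nil) .nil))) 
(.lf (nat_lit 451099) (.g (nat_lit 2101) (.e (nat_lit 2610) (nat_lit 163) (.e (nat_lit 163977) (nat_lit 30) (.e (nat_lit 573479) (nat_lit 13) (.e (nat_lit 65619) (nat_lit 10) (.e (nat_lit 344117) (nat_lit 21) (.e (nat_lit 516151) (nat_lit 9) (.e (nat_lit 426097) (nat_lit 1) (.e (nat_lit 164348) (nat_lit 240) .nil)))))))) (.g (nat_lit 1) (.e (nat_lit 19269) (nat_lit 0) .nil) .nil)))) 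
(.nd (nat_lit 9) 
(.lf (nat_lit 450843) (.g (nat_lit 5232) (.e (nat_lit 2599) (nat_lit 163) (.e (nat_lit 163978) (nat_lit 30) (.e (nat_lit 573485) (nat_lit 13) (.e (nat_lit 65619) (nat_lit 10) (.e (nat_lit 344117) (nat_lit 21) (.e (nat_lit 516151) (nat_lit 9) (.e (nat_lit 426104) (nat_lit 1) (.e (nat_lit 164345) (nat_lit 240) .nil)))))))) (.g (nat_lit 1) (.e (nat_lit 17353) (nat_lit 0) .nil) .nil))) 
(.lf (nat_lit 451355) (.g (nat_lit 2920) (.e (nat_lit 2610) (nat_lit 163) (.e (nat_lit 163978) (nat_lit 30) (.e (nat_lit 573479) (nat_lit 13) (.e (nat_lit 65604) (nat_lit 9) (.e (nat_lit 336028) (nat_lit 3) (.e (nat_lit 98367) (nat_lit 27) (.e (nat_lit 434209) (nat_lit 18) (.e (nat_lit 5546) (nat_lit 306) .nil)))))))) (.g (nat_lit 1) (.e (nat_lit 19581) (nat_lit 0) .nil) .nil))))) 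
(.nd (nat_lit 8) (.nd (nat_lit 9) 
(.lf (nat_lit 450715) (.g (nat_lit 3787) (.e (nat_lit 2591) (nat_lit 162) (.e (nat_lit 49189) (nat_lit 11) (.e (nat_lit 16425) (nat_lit 7) (.e (nat_lit 409646) (nat_lit 18) (.e (nat_lit 303143) (nat_lit 12) (.e (nat_lit 475198) (nat_lit 40) (.e (nat_lit 704790) (nat_lit 14) .nil))))))) (.g (nat_lit 1) (.e (nat_lit 16952) (nat_lit 0) .nil) .nil))) 
(.lf (nat_lit 451227) (.g (nat_lit 3197) (.e (nat_lit 2610) (nat_lit 163) (.e (nat_lit 163977) (nat_lit 30) (.e (nat_lit 573491) (nat_lit 15) (.e (nat_lit 81954) (nat_lit 23) (.e (nat_lit 98363) (nat_lit 26) (.e (nat_lit 426110) (nat_lit 1) (.e (nat_lit 164348) (nat_lit 240) .nil))))))) (.g (nat_lit 1) (.e (nat_lit 19403) (nat_lit 0) .nil) .nil)))) (.nd (nat_lit 9) 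
(.lf (nat_lit 450971) (.g (nat_lit 3836) (.e (nat_lit 2601) (nat_lit 163) (.e (nat_lit 163979) (nat_lit 30) (.e (nat_lit 573482) (nat_lit 13) (.e (nat_lit 65604) (nat_lit 9) (.e (nat_lit 336013) (nat_lit 2) (.e (nat_lit 90170) (nat_lit 13) (.e (nat_lit 172059) (nat_lit 1) (.e (nat_lit 164345) (nat_lit 240) .nil)))))))) (.g (nat_lit 1) (.e (nat_lit 18189) (nat_lit 0) .nil) .nil))) 
(.lf (nat_lit 451483) (.g (nat_lit 3621) (.e (nat_lit 2610) (nat_lit 163) (.e (nat_lit 163978) (nat_lit 30) (.e (nat_lit 573485) (nat_lit 13) (.e (nat_lit 65619) (nat_lit 10) (.e (nat_lit 344117) (nat_lit 21) (.e (nat_lit 516152) (nat_lit 9) (.e (nat_lit 426109) (nat_lit 1) (.e (nat_lit 164347) (nat_lit 240) .nil)))))))) (.g (nat_lit 1) (.e (nat_lit 19722) (nat_lit 0) .nil) .nil)))))) 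
(.nd (nat_lit 7) (.nd (nat_lit 8) (.nd (nat_lit 9) 
(.lf (nat_lit 450651) (.g (nat_lit 3378) (.e (nat_lit 2571) (nat_lit 160) (.e (nat_lit 32807) (nat_lit 18) (.e (nat_lit 172120) (nat_lit 12) (.e (nat_lit 475185) (nat_lit 29) (.e (nat_lit 557104) (nat_lit 14) (.e (nat_lit 180284) (nat_lit 45) .nil)))))) (.g (nat_lit 1) (.e (nat_lit 16834) (nat_lit 0) .nil) .nil))) 
(.lf (nat_lit 451163) (.g (nat_lit 3428) (.e (nat_lit 2610) (nat_lit 163) (.e (nat_lit 163977) (nat_lit 30) (.e (nat_lit 573485) (nat_lit 13) (.e (nat_lit 65604) (nat_lit 9) (.e (nat_lit 336013) (nat_lit 2) (.e (nat_lit 90170) (nat_lit 13) (.e (nat_lit 172059) (nat_lit 1) (.e (nat_lit 164345) (nat_lit 240) .nil)))))))) (.g (nat_lit 1) (.e (nat_lit 19333) (nat_lit 0) .nil) .nil)))) 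
(.nd (nat_lit 9) 
(.lf (nat_lit 450907) (.g (nat_lit 2609) (.e (nat_lit 2600) (nat_lit 163) (.e (nat_lit 163978) (nat_lit 30) (.e (nat_lit 573485) (nat_lit 13) (.e (nat_lit 65604) (nat_lit 9) (.e (nat_lit 336013) (nat_lit 2) .nil))))) (.g (nat_lit 0) (.e (nat_lit 17816) (nat_lit 0) .nil) .nil))) 
(.lf (nat_lit 451419) (.g (nat_lit 3337) (.e (nat_lit 2610) (nat_lit 163) (.e (nat_lit 163978) (nat_lit 30) (.e (nat_lit 573484) (nat_lit 13) (.e (nat_lit 65610) (nat_lit 10) (.e (nat_lit 344117) (nat_lit 21) (.e (nat_lit 516160) (nat_lit 10) (.e (nat_lit 434202) (nat_lit 18) (.e (nat_lit 5537) (nat_lit 306) .nil)))))))) (.g (nat_lit 1) (.e (nat_lit 19645) (nat_lit 0) .nil) .nil))))) 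
(.nd (nat_lit 8) (.nd (nat_lit 9) 
(.lf (nat_lit 450779) (.g (nat_lit 542) (.e (nat_lit 2579) (nat_lit 161) (.e (nat_lit 40964) (nat_lit 0) (.e (nat_lit 1582) (nat_lit 111) (.e (nat_lit 368384) (nat_lit 11) (.e (nat_lit 581652) (nat_lit 5) (.e (nat_lit 180287) (nat_lit 45) .nil)))))) (.g (nat_lit 1) (.e (nat_lit 17022) (nat_lit 0) .nil) .nil))) 
(.lf (nat_lit 451291) (.g (nat_lit 3867) (.e (nat_lit 2610) (nat_lit 163) (.e (nat_lit 163977) (nat_lit 30) (.e (nat_lit 573493) (nat_lit 15) (.e (nat_lit 81954) (nat_lit 23) (.e (nat_lit 98365) (nat_lit 26) (.e (nat_lit 426108) (nat_lit 1) (.e (nat_lit 164345) (nat_lit 240) .nil))))))) (.g (nat_lit 1) (.e (nat_lit 19493) (nat_lit 0) .nil) .nil)))) (.nd (nat_lit 9) 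
(.lf (nat_lit 451035) (.g (nat_lit 3233) (.e (nat_lit 2606) (nat_lit 163) (.e (nat_lit 163978) (nat_lit 30) (.e (nat_lit 573489) (nat_lit 14) (.e (nat_lit 73755) (nat_lit 8) (.e (nat_lit 557096) (nat_lit 13) (.e (nat_lit 172067) (nat_lit 3) (.e (nat_lit 204830) (nat_lit 18) (.e (nat_lit 57663) (nat_lit 152) .nil)))))))) (.g (nat_lit 1) (.e (nat_lit 18675) (nat_lit 0) .nil) .nil))) 
(.lf (nat_lit 451547) (.g (nat_lit 4539) (.e (nat_lit 2610) (nat_lit 163) (.e (nat_lit 163979) (nat_lit 30) (.e (nat_lit 573482) (nat_lit 13) (.e (nat_lit 65604) (nat_lit 9) (.e (nat_lit 336013) (nat_lit 2) (.e (nat_lit 90170) (nat_lit 13) (.e (nat_lit 172061) (nat_lit 1) (.e (nat_lit 164346) (nat_lit 240) .nil)))))))) (.g (nat_lit 1) (.e (nat_lit 20139) (nat_lit 0) .nil) .nil))))))) 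
(.nd (nat_lit 6) (.nd (nat_lit 7) (.nd (nat_lit 8) (.nd (nat_lit 9) 
(.lf (nat_lit 450619) (.g (nat_lit 3358) (.e (nat_lit 2570) (nat_lit 160) (.e (nat_lit 32807) (nat_lit 18) (.e (nat_lit 172126) (nat_lit 14) (.e (nat_lit 491537) (nat_lit 2) (.e (nat_lit 90174) (nat_lit 14) (.e (nat_lit 180288) (nat_lit 45) .nil)))))) (.g (nat_lit 1) (.e (nat_lit 16648) (nat_lit 0) .nil) .nil))) 
(.lf (nat_lit 451131) (.g (nat_lit 2346) (.e (nat_lit 2610) (nat_lit 163) (.e (nat_lit 163977) (nat_lit 30) (.e (nat_lit 573482) (nat_lit 13) (.e (nat_lit 65619) (nat_lit 10) (.e (nat_lit 344117) (nat_lit 21) (.e (nat_lit 516152) (nat_lit 9) (.e (nat_lit 426109) (nat_lit 1) (.e (nat_lit 164345) (nat_lit 240) .nil)))))))) (.g (nat_lit 1) (.e (nat_lit 19301) (nat_lit 0) .nil) .nil)))) 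
(.nd (nat_lit 9) 
(.lf (nat_lit 450875) (.g (nat_lit 3990) (.e (nat_lit 2599) (nat_lit 163) (.e (nat_lit 163979) (nat_lit 30) (.e (nat_lit 573482) (nat_lit 13) (.e (nat_lit 65619) (nat_lit 10) (.e (nat_lit 344117) (nat_lit 21) (.e (nat_lit 516170) (nat_lit 13) (.e (nat_lit 458774) (nat_lit 18) (.e (nat_lit 5546) (nat_lit 306) .nil)))))))) (.g (nat_lit 1) (.e (nat_lit 17415) (nat_lit 0) .nil) .nil))) 
(.lf (nat_lit 451387) (.g (nat_lit 5102) (.e (nat_lit 2610) (nat_lit 163) (.e (nat_lit 163978) (nat_lit 30) (.e (nat_lit 573479) (nat_lit 13) (.e (nat_lit 65619) (nat_lit 10) (.e (nat_lit 344117) (nat_lit 21) (.e (nat_lit 516170) (nat_lit 13) (.e (nat_lit 458774) (nat_lit 18) (.e (nat_lit 5547) (nat_lit 306) .nil)))))))) (.g (nat_lit 1) (.e (nat_lit 19613) (nat_lit 0) .nil) .nil))))) 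
(.nd (nat_lit 8) (.nd (nat_lit 9) 
(.lf (nat_lit 450747) (.g (nat_lit 2051) (.e (nat_lit 2592) (nat_lit 162) (.e (nat_lit 49189) (nat_lit 11) (.e (nat_lit 16425) (nat_lit 7) (.e (nat_lit 409648) (nat_lit 18) (.e (nat_lit 303142) (nat_lit 12) (.e (nat_lit 475197) (nat_lit 40) (.e (nat_lit 704787) (nat_lit 14) .nil))))))) (.g (nat_lit 1) (.e (nat_lit 16987) (nat_lit 0) .nil) .nil))) 
(.lf (nat_lit 451259) (.g (nat_lit 5221) (.e (nat_lit 2610) (nat_lit 163) (.e (nat_lit 163977) (nat_lit 30) (.e (nat_lit 573493) (nat_lit 15) (.e (nat_lit 81951) (nat_lit 22) (.e (nat_lit 90172) (nat_lit 14) (.e (nat_lit 180229) (nat_lit 0) (.e (nat_lit 5548) (nat_lit 306) .nil))))))) (.g (nat_lit 1) (.e (nat_lit 19454) (nat_lit 0) .nil) .nil)))) (.nd (nat_lit 9) 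
(.lf (nat_lit 451003) (.g (nat_lit 4154) (.e (nat_lit 2602) (nat_lit 163) (.e (nat_lit 163978) (nat_lit 30) (.e (nat_lit 573485) (nat_lit 13) (.e (nat_lit 65619) (nat_lit 10) (.e (nat_lit 344117) (nat_lit 21) (.e (nat_lit 516151) (nat_lit 9) (.e (nat_lit 426142) (nat_lit 4) (.e (nat_lit 229664) (nat_lit 240) .nil)))))))) (.g (nat_lit 1) (.e (nat_lit 18355) (nat_lit 0) .nil) .nil))) 
(.lf (nat_lit 451515) (.g (nat_lit 3371) (.e (nat_lit 2610) (nat_lit 163) (.e (nat_lit 163978) (nat_lit 30) (.e (nat_lit 573490) (nat_lit 15) (.e (nat_lit 81956) (nat_lit 23) (.e (nat_lit 98377) (nat_lit 30) .nil))))) (.g (nat_lit 0) (.e (nat_lit 20041) (nat_lit 0) .nil) .nil)))))) (.nd (nat_lit 7) (.nd (nat_lit 8) (.nd (nat_lit 9) 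
(.lf (nat_lit 450683) (.g (nat_lit 1723) (.e (nat_lit 2586) (nat_lit 162) (.e (nat_lit 49189) (nat_lit 11) (.e (nat_lit 16425) (nat_lit 7) (.e (nat_lit 409649) (nat_lit 18) (.e (nat_lit 303140) (nat_lit 10) .nil))))) (.g (nat_lit 0) (.e (nat_lit 16915) (nat_lit 0) .nil) .nil))) 
(.lf (nat_lit 451195) (.g (nat_lit 2762) (.e (nat_lit 2610) (nat_lit 163) (.e (nat_lit 163977) (nat_lit 30) (.e (nat_lit 573485) (nat_lit 13) (.e (nat_lit 65619) (nat_lit 10) (.e (nat_lit 344117) (nat_lit 21) (.e (nat_lit 516160) (nat_lit 10) (.e (nat_lit 434209) (nat_lit 18) (.e (nat_lit 5546) (nat_lit 306) .nil)))))))) (.g (nat_lit 1) (.e (nat_lit 19366) (nat_lit 0) .nil) .nil)))) 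
(.nd (nat_lit 9) 
(.lf (nat_lit 450939) (.g (nat_lit 3213) (.e (nat_lit 2601) (nat_lit 163) (.e (nat_lit 163977) (nat_lit 30) (.e (nat_lit 573482) (nat_lit 13) (.e (nat_lit 65604) (nat_lit 9) (.e (nat_lit 336013) (nat_lit 2) (.e (nat_lit 90170) (nat_lit 13) (.e (nat_lit 172049) (nat_lit 0) (.e (nat_lit 2458) (nat_lit 157) (.e (nat_lit 5547) (nat_lit 306) .nil))))))))) (.g (nat_lit 1) (.e (nat_lit 18005) (nat_lit 0) .nil) .nil))) 
(.lf (nat_lit 451451) (.g (nat_lit 2684) (.e (nat_lit 2610) (nat_lit 163) (.e (nat_lit 163978) (nat_lit 30) (.e (nat_lit 573485) (nat_lit 13) (.e (nat_lit 65604) (nat_lit 9) (.e (nat_lit 336028) (nat_lit 3) (.e (nat_lit 98365) (nat_lit 26) (.e (nat_lit 426098) (nat_lit 1) (.e (nat_lit 164348) (nat_lit 240) .nil)))))))) (.g (nat_lit 1) (.e (nat_lit 19688) (nat_lit 0) .nil) .nil))))) 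
(.nd (nat_lit 8) (.nd (nat_lit 9) 
(.lf (nat_lit 450811) (.g (nat_lit 3643) (.e (nat_lit 2599) (nat_lit 163) (.e (nat_lit 163976) (nat_lit 30) (.e (nat_lit 573481) (nat_lit 13) (.e (nat_lit 65619) (nat_lit 10) (.e (nat_lit 344117) (nat_lit 21) (.e (nat_lit 516151) (nat_lit 9) (.e (nat_lit 426097) (nat_lit 1) (.e (nat_lit 164346) (nat_lit 240) .nil)))))))) (.g (nat_lit 1) (.e (nat_lit 17246) (nat_lit 0) .nil) .nil))) 
(.lf (nat_lit 451323) (.g (nat_lit 3834) (.e (nat_lit 2610) (nat_lit 163) (.e (nat_lit 163977) (nat_lit 30) (.e (nat_lit 573493) (nat_lit 15) (.e (nat_lit 81956) (nat_lit 23) (.e (nat_lit 98366) (nat_lit 27) (.e (nat_lit 434209) (nat_lit 18) (.e (nat_lit 5547) (nat_lit 306) .nil))))))) (.g (nat_lit 1) (.e (nat_lit 19533) (nat_lit 0) .nil) .nil)))) (.nd (nat_lit 9) 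
(.lf (nat_lit 451067) (.g (nat_lit 5038) (.e (nat_lit 2606) (nat_lit 163) (.e (nat_lit 164396) (nat_lit 256) (.e (nat_lit 57371) (nat_lit 2) (.e (nat_lit 90174) (nat_lit 14) (.e (nat_lit 180251) (nat_lit 10) (.e (nat_lit 573489) (nat_lit 14) (.e (nat_lit 73755) (nat_lit 8) (.e (nat_lit 557067) (nat_lit 9) .nil)))))))) (.g (nat_lit 1) (.e (nat_lit 18724) (nat_lit 0) .nil) .nil))) 
(.lf (nat_lit 451579) (.g (nat_lit 2692) (.e (nat_lit 2610) (nat_lit 163) (.e (nat_lit 163979) (nat_lit 30) (.e (nat_lit 573482) (nat_lit 13) (.e (nat_lit 65604) (nat_lit 9) (.e (nat_lit 336028) (nat_lit 3) (.e (nat_lit 98367) (nat_lit 27) (.e (nat_lit 434213) (nat_lit 18) (.e (nat_lit 5548) (nat_lit 306) .nil)))))))) (.g (nat_lit 1) (.e (nat_lit 20172) (nat_lit 0) .nil) .nil)))))))))) 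
(.nd (nat_lit 3) (.nd (nat_lit 4) (.nd (nat_lit 5) (.nd (nat_lit 6) (.nd (nat_lit 7) 
(.nd (nat_lit 8) (.nd (nat_lit 9) 
(.lf (nat_lit 450567) (.g (nat_lit 2530) (.e (nat_lit 2569) (nat_lit 160) (.e (nat_lit 32807) (nat_lit 18) (.e (nat_lit 172118) (nat_lit 12) (.e (nat_lit 475185) (nat_lit 29) (.e (nat_lit 557105) (nat_lit 14) (.e (nat_lit 180285) (nat_lit 45) .nil)))))) (.g (nat_lit 1) (.e (nat_lit 16469) (nat_lit 0) .nil) .nil))) 
(.lf (nat_lit 451079) (.g (nat_lit 4311) (.e (nat_lit 2607) (nat_lit 163) (.e (nat_lit 163979) (nat_lit 30) (.e (nat_lit 573482) (nat_lit 13) (.e (nat_lit 65619) (nat_lit 10) (.e (nat_lit 344129) (nat_lit 26) (.e (nat_lit 557087) (nat_lit 11) (.e (nat_lit 24597) (nat_lit 1) (.e (nat_lit 57773) (nat_lit 227) .nil)))))))) (.g (nat_lit 1) (.e (nat_lit 18818) (nat_lit 0) .nil) .nil)))) 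
(.nd (nat_lit 9) 
(.lf (nat_lit 450823) (.g (nat_lit 2593) (.e (nat_lit 2599) (nat_lit 163) (.e (nat_lit 163978) (nat_lit 30) (.e (nat_lit 573479) (nat_lit 13) (.e (nat_lit 65619) (nat_lit 10) (.e (nat_lit 344117) (nat_lit 21) (.e (nat_lit 516143) (nat_lit 9) (.e (nat_lit 426109) (nat_lit 1) (.e (nat_lit 164346) (nat_lit 240) .nil)))))))) (.g (nat_lit 1) (.e (nat_lit 17313) (nat_lit 0) .nil) .nil))) 
(.lf (nat_lit 451335) (.g (nat_lit 2842) (.e (nat_lit 2610) (nat_lit 163) (.e (nat_lit 163977) (nat_lit 30) (.e (nat_lit 573493) (nat_lit 15) (.e (nat_lit 81956) (nat_lit 23) (.e (nat_lit 98368) (nat_lit 27) (.e (nat_lit 434212) (nat_lit 18) (.e (nat_lit 5547) (nat_lit 306) .nil))))))) (.g (nat_lit 1) (.e (nat_lit 19545) (nat_lit 0) .nil) .nil))))) (.nd (nat_lit 8) (.nd (nat_lit 9) 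
(.lf (nat_lit 450695) (.g (nat_lit 3685) (.e (nat_lit 2587) (nat_lit 162) (.e (nat_lit 49189) (nat_lit 11) (.e (nat_lit 16425) (nat_lit 7) (.e (nat_lit 409648) (nat_lit 18) (.e (nat_lit 303137) (nat_lit 10) (.e (nat_lit 434272) (nat_lit 38) (.e (nat_lit 655400) (nat_lit 14) .nil))))))) (.g (nat_lit 1) (.e (nat_lit 16931) (nat_lit 0) .nil) .nil))) 
(.lf (nat_lit 451207) (.g (nat_lit 2915) (.e (nat_lit 2610) (nat_lit 163) (.e (nat_lit 163977) (nat_lit 30) (.e (nat_lit 573491) (nat_lit 15) (.e (nat_lit 81951) (nat_lit 22) (.e (nat_lit 90170) (nat_lit 13) (.e (nat_lit 172061) (nat_lit 1) (.e (nat_lit 164345) (nat_lit 240) .nil))))))) (.g (nat_lit 1) (.e (nat_lit 19380) (nat_lit 0) .nil) .nil)))) (.nd (nat_lit 9) 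
(.lf (nat_lit 450951) (.g (nat_lit 3093) (.e (nat_lit 2601) (nat_lit 163) (.e (nat_lit 163977) (nat_lit 30) (.e (nat_lit 573485) (nat_lit 13) (.e (nat_lit 65604) (nat_lit 9) (.e (nat_lit 336013) (nat_lit 2) (.e (nat_lit 90170) (nat_lit 13) (.e (nat_lit 172049) (nat_lit 0) (.e (nat_lit 2458) (nat_lit 157) (.e (nat_lit 5547) (nat_lit 306) .nil))))))))) (.g (nat_lit 1) (.e (nat_lit 18018) (nat_lit 0) .nil) .nil))) 
(.lf (nat_lit 451463) (.g (nat_lit 2719) (.e (nat_lit 2610) (nat_lit 163) (.e (nat_lit 163978) (nat_lit 30) (.e (nat_lit 573485) (nat_lit 13) (.e (nat_lit 65604) (nat_lit 9) (.e (nat_lit 336028) (nat_lit 3) (.e (nat_lit 98367) (nat_lit 27) (.e (nat_lit 434213) (nat_lit 18) (.e (nat_lit 5548) (nat_lit 306) .nil)))))))) (.g (nat_lit 1) (.e (nat_lit 19700) (nat_lit 0) .nil) .nil)))))) 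
(.nd (nat_lit 7) (.nd (nat_lit 8) (.nd (nat_lit 9) 
(.lf (nat_lit 450631) (.g (nat_lit 3194) (.e (nat_lit 2570) (nat_lit 160) (.e (nat_lit 32808) (nat_lit 19) (.e (nat_lit 180278) (nat_lit 32) (.e (nat_lit 1234) (nat_lit 91) (.e (nat_lit 90172) (nat_lit 14) (.e (nat_lit 180285) (nat_lit 45) .nil)))))) (.g (nat_lit 1) (.e (nat_lit 16663) (nat_lit 0) .nil) .nil))) 
(.lf (nat_lit 451143) (.g (nat_lit 2491) (.e (nat_lit 2610) (nat_lit 163) (.e (nat_lit 163977) (nat_lit 30) (.e (nat_lit 573482) (nat_lit 13) (.e (nat_lit 65619) (nat_lit 10) (.e (nat_lit 344129) (nat_lit 26) (.e (nat_lit 557087) (nat_lit 11) (.e (nat_lit 24597) (nat_lit 1) (.e (nat_lit 57773) (nat_lit 227) .nil)))))))) (.g (nat_lit 1) (.e (nat_lit 19313) (nat_lit 0) .nil) .nil)))) 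
(.nd (nat_lit 9) 
(.lf (nat_lit 450887) (.g (nat_lit 3681) (.e (nat_lit 2600) (nat_lit 163) (.e (nat_lit 163975) (nat_lit 30) (.e (nat_lit 573481) (nat_lit 13) (.e (nat_lit 65604) (nat_lit 9) (.e (nat_lit 336013) (nat_lit 2) (.e (nat_lit 90170) (nat_lit 13) (.e (nat_lit 172061) (nat_lit 1) (.e (nat_lit 164346) (nat_lit 240) .nil)))))))) (.g (nat_lit 1) (.e (nat_lit 17638) (nat_lit 0) .nil) .nil))) 
(.lf (nat_lit 451399) (.g (nat_lit 4398) (.e (nat_lit 2610) (nat_lit 163) (.e (nat_lit 163978) (nat_lit 30) (.e (nat_lit 573484) (nat_lit 13) (.e (nat_lit 65610) (nat_lit 10) (.e (nat_lit 344117) (nat_lit 21) (.e (nat_lit 516145) (nat_lit 9) (.e (nat_lit 433920) (nat_lit 1) (.e (nat_lit 164348) (nat_lit 240) .nil)))))))) (.g (nat_lit 1) (.e (nat_lit 19625) (nat_lit 0) .nil) .nil))))) 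
(.nd (nat_lit 8) (.nd (nat_lit 9) 
(.lf (nat_lit 450759) (.g (nat_lit 2028) (.e (nat_lit 2595) (nat_lit 162) (.e (nat_lit 49189) (nat_lit 11) (.e (nat_lit 16425) (nat_lit 7) (.e (nat_lit 409648) (nat_lit 18) (.e (nat_lit 303142) (nat_lit 12) .nil))))) (.g (nat_lit 0) (.e (nat_lit 17001) (nat_lit 0) .nil) .nil))) 
(.lf (nat_lit 451271) (.g (nat_lit 3321) (.e (nat_lit 2610) (nat_lit 163) (.e (nat_lit 163977) (nat_lit 30) (.e (nat_lit 573493) (nat_lit 15) (.e (nat_lit 81953) (nat_lit 22) (.e (nat_lit 90170) (nat_lit 13) (.e (nat_lit 172061) (nat_lit 1) (.e (nat_lit 164347) (nat_lit 240) .nil))))))) (.g (nat_lit 1) (.e (nat_lit 19473) (nat_lit 0) .nil) .nil)))) (.nd (nat_lit 9) 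
(.lf (nat_lit 451015) (.g (nat_lit 1907) (.e (nat_lit 2603) (nat_lit 163) (.e (nat_lit 164398) (nat_lit 256) (.e (nat_lit 57373) (nat_lit 2) (.e (nat_lit 90174) (nat_lit 14) (.e (nat_lit 180243) (nat_lit 5) (.e (nat_lit 532513) (nat_lit 3) (.e (nat_lit 114714) (nat_lit 22) (.e (nat_lit 90129) (nat_lit 9) .nil)))))))) (.g (nat_lit 1) (.e (nat_lit 18500) (nat_lit 0) .nil) .nil))) 
(.lf (nat_lit 451527) (.g (nat_lit 2407) (.e (nat_lit 2610) (nat_lit 163) (.e (nat_lit 163979) (nat_lit 30) (.e (nat_lit 573481) (nat_lit 13) (.e (nat_lit 65604) (nat_lit 9) (.e (nat_lit 336013) (nat_lit 2) .nil))))) (.g (nat_lit 0) (.e (nat_lit 20118) (nat_lit 0) .nil) .nil))))))) (.nd (nat_lit 6) (.nd (nat_lit 7) (.nd (nat_lit 8) (.nd (nat_lit 9) 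
(.lf (nat_lit 450599) (.g (nat_lit 2248) (.e (nat_lit 2570) (nat_lit 160) (.e (nat_lit 32807) (nat_lit 18) (.e (nat_lit 172118) (nat_lit 12) (.e (nat_lit 475185) (nat_lit 29) (.e (nat_lit 557105) (nat_lit 14) (.e (nat_lit 180284) (nat_lit 45) .nil)))))) (.g (nat_lit 1) (.e (nat_lit 16600) (nat_lit 0) .nil) .nil))) 
(.lf (nat_lit 451111) (.g (nat_lit 3147) (.e (nat_lit 2610) (nat_lit 163) (.e (nat_lit 163977) (nat_lit 30) (.e (nat_lit 573482) (nat_lit 13) (.e (nat_lit 65604) (nat_lit 9) (.e (nat_lit 336028) (nat_lit 3) (.e (nat_lit 98359) (nat_lit 26) (.e (nat_lit 426097) (nat_lit 1) (.e (nat_lit 164345) (nat_lit 240) .nil)))))))) (.g (nat_lit 1) (.e (nat_lit 19281) (nat_lit 0) .nil) .nil)))) 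
(.nd (nat_lit 9) 
(.lf (nat_lit 450855) (.g (nat_lit 3982) (.e (nat_lit 2599) (nat_lit 163) (.e (nat_lit 163979) (nat_lit 30) (.e (nat_lit 573482) (nat_lit 13) (.e (nat_lit 65604) (nat_lit 9) (.e (nat_lit 336028) (nat_lit 3) (.e (nat_lit 98354) (nat_lit 26) (.e (nat_lit 426109) (nat_lit 1) (.e (nat_lit 164347) (nat_lit 240) .nil)))))))) (.g (nat_lit 1) (.e (nat_lit 17392) (nat_lit 0) .nil) .nil))) 
(.lf (nat_lit 451367) (.g (nat_lit 4529) (.e (nat_lit 2610) (nat_lit 163) (.e (nat_lit 163978) (nat_lit 30) (.e (nat_lit 573479) (nat_lit 13) (.e (nat_lit 65619) (nat_lit 10) (.e (nat_lit 344117) (nat_lit 21) (.e (nat_lit 516151) (nat_lit 9) (.e (nat_lit 426097) (nat_lit 1) (.e (nat_lit 164345) (nat_lit 240) .nil)))))))) (.g (nat_lit 1) (.e (nat_lit 19593) (nat_lit 0) .nil) .nil))))) 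
(.nd (nat_lit 8) (.nd (nat_lit 9) 
(.lf (nat_lit 450727) (.g (nat_lit 1990) (.e (nat_lit 2591) (nat_lit 162) (.e (nat_lit 49189) (nat_lit 11) (.e (nat_lit 16425) (nat_lit 7) (.e (nat_lit 409648) (nat_lit 18) (.e (nat_lit 303142) (nat_lit 12) (.e (nat_lit 475199) (nat_lit 40) (.e (nat_lit 704787) (nat_lit 14) .nil))))))) (.g (nat_lit 1) (.e (nat_lit 16964) (nat_lit 0) .nil) .nil))) 
(.lf (nat_lit 451239) (.g (nat_lit 2852) (.e (nat_lit 2610) (nat_lit 163) (.e (nat_lit 163977) (nat_lit 30) (.e (nat_lit 573492) (nat_lit 15) (.e (nat_lit 81956) (nat_lit 23) (.e (nat_lit 98354) (nat_lit 26) (.e (nat_lit 426109) (nat_lit 1) (.e (nat_lit 164347) (nat_lit 240) .nil))))))) (.g (nat_lit 1) (.e (nat_lit 19431) (nat_lit 0) .nil) .nil)))) (.nd (nat_lit 9) 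
(.lf (nat_lit 450983) (.g (nat_lit 3474) (.e (nat_lit 2601) (nat_lit 163) (.e (nat_lit 163979) (nat_lit 30) (.e (nat_lit 573482) (nat_lit 13) (.e (nat_lit 65604) (nat_lit 9) (.e (nat_lit 336028) (nat_lit 3) (.e (nat_lit 98367) (nat_lit 27) (.e (nat_lit 434209) (nat_lit 18) (.e (nat_lit 5546) (nat_lit 306) .nil)))))))) (.g (nat_lit 1) (.e (nat_lit 18202) (nat_lit 0) .nil) .nil))) 
(.lf (nat_lit 451495) (.g (nat_lit 2529) (.e (nat_lit 2610) (nat_lit 163) (.e (nat_lit 163978) (nat_lit 30) (.e (nat_lit 573485) (nat_lit 13) (.e (nat_lit 65619) (nat_lit 10) (.e (nat_lit 344117) (nat_lit 21) (.e (nat_lit 516169) (nat_lit 13) (.e (nat_lit 458774) (nat_lit 18) (.e (nat_lit 5546) (nat_lit 306) .nil)))))))) (.g (nat_lit 1) (.e (nat_lit 19734) (nat_lit 0) .nil) .nil)))))) 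
(.nd (nat_lit 7) (.nd (nat_lit 8) (.nd (nat_lit 9) 
(.lf (nat_lit 450663) (.g (nat_lit 3221) (.e (nat_lit 2571) (nat_lit 160) (.e (nat_lit 32807) (nat_lit 18) (.e (nat_lit 172124) (nat_lit 14) (.e (nat_lit 491540) (nat_lit 3) (.e (nat_lit 98367) (nat_lit 27) (.e (nat_lit 434191) (nat_lit 13) .nil)))))) (.g (nat_lit 1) (.e (nat_lit 16859) (nat_lit 0) .nil) .nil))) 
(.lf (nat_lit 451175) (.g (nat_lit 2733) (.e (nat_lit 2610) (nat_lit 163) (.e (nat_lit 163977) (nat_lit 30) (.e (nat_lit 573485) (nat_lit 13) (.e (nat_lit 65604) (nat_lit 9) (.e (nat_lit 336028) (nat_lit 3) (.e (nat_lit 98359) (nat_lit 26) (.e (nat_lit 426103) (nat_lit 1) (.e (nat_lit 164348) (nat_lit 240) .nil)))))))) (.g (nat_lit 1) (.e (nat_lit 19346) (nat_lit 0) .nil) .nil)))) 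
(.nd (nat_lit 9) 
(.lf (nat_lit 450919) (.g (nat_lit 3886) (.e (nat_lit 2601) (nat_lit 163) (.e (nat_lit 163975) (nat_lit 30) (.e (nat_lit 573481) (nat_lit 13) (.e (nat_lit 65604) (nat_lit 9) (.e (nat_lit 336013) (nat_lit 2) (.e (nat_lit 90170) (nat_lit 13) (.e (nat_lit 172059) (nat_lit 1) (.e (nat_lit 164345) (nat_lit 240) .nil)))))))) (.g (nat_lit 1) (.e (nat_lit 17862) (nat_lit 0) .nil) .nil))) 
(.lf (nat_lit 451431) (.g (nat_lit 2647) (.e (nat_lit 2610) (nat_lit 163) (.e (nat_lit 163978) (nat_lit 30) (.e (nat_lit 573485) (nat_lit 13) (.e (nat_lit 65604) (nat_lit 9) (.e (nat_lit 336013) (nat_lit 2) (.e (nat_lit 90134) (nat_lit 9) (.e (nat_lit 2978) (nat_lit 185) (.e (nat_lit 434209) (nat_lit 18) (.e (nat_lit 5548) (nat_lit 306) .nil))))))))) (.g (nat_lit 1) (.e (nat_lit 19663) (nat_lit 0) .nil) .nil))))) 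
(.nd (nat_lit 8) (.nd (nat_lit 9) 
(.lf (nat_lit 450791) (.g (nat_lit 149) (.e (nat_lit 2580) (nat_lit 161) (.e (nat_lit 40965) (nat_lit 0) (.e (nat_lit 1591) (nat_lit 111) .nil))) (.g (nat_lit 0) (.e (nat_lit 17034) (nat_lit 0) .nil) .nil))) 
(.lf (nat_lit 451303) (.g (nat_lit 2320) (.e (nat_lit 2610) (nat_lit 163) (.e (nat_lit 163977) (nat_lit 30) (.e (nat_lit 573493) (nat_lit 15) (.e (nat_lit 81956) (nat_lit 23) (.e (nat_lit 98359) (nat_lit 26) .nil))))) (.g (nat_lit 0) (.e (nat_lit 19513) (nat_lit 0) .nil) .nil)))) (.nd (nat_lit 9) 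
(.lf (nat_lit 451047) (.g (nat_lit 4425) (.e (nat_lit 2606) (nat_lit 163) (.e (nat_lit 163978) (nat_lit 30) (.e (nat_lit 573489) (nat_lit 14) (.e (nat_lit 73755) (nat_lit 8) (.e (nat_lit 557104) (nat_lit 14) (.e (nat_lit 180244) (nat_lit 5) (.e (nat_lit 532499) (nat_lit 1) (.e (nat_lit 57652) (nat_lit 152) .nil)))))))) (.g (nat_lit 1) (.e (nat_lit 18687) (nat_lit 0) .nil) .nil))) 
(.lf (nat_lit 451559) (.g (nat_lit 4555) (.e (nat_lit 2610) (nat_lit 163) (.e (nat_lit 163979) (nat_lit 30) (.e (nat_lit 573482) (nat_lit 13) (.e (nat_lit 65604) (nat_lit 9) (.e (nat_lit 336028) (nat_lit 3) (.e (nat_lit 98359) (nat_lit 26) (.e (nat_lit 426104) (nat_lit 1) (.e (nat_lit 164345) (nat_lit 240) .nil)))))))) (.g (nat_lit 1) (.e (nat_lit 20152) (nat_lit 0) .nil) .nil)))))))) 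
(.nd (nat_lit 5) (.nd (nat_lit 6) (.nd (nat_lit 7) (.nd (nat_lit 8) (.nd (nat_lit 9) 
(.lf (nat_lit 450583) (.g (nat_lit 3142) (.e (nat_lit 2569) (nat_lit 160) (.e (nat_lit 32807) (nat_lit 18) (.e (nat_lit 172126) (nat_lit 14) (.e (nat_lit 491540) (nat_lit 3) (.e (nat_lit 98367) (nat_lit 27) (.e (nat_lit 434191) (nat_lit 13) .nil)))))) (.g (nat_lit 1) (.e (nat_lit 16493) (nat_lit 0) .nil) .nil))) 
(.lf (nat_lit 451095) (.g (nat_lit 2166) (.e (nat_lit 2609) (nat_lit 163) (.e (nat_lit 164403) (nat_lit 256) (.e (nat_lit 57371) (nat_lit 2) (.e (nat_lit 90174) (nat_lit 14) (.e (nat_lit 180243) (nat_lit 5) .nil))))) (.g (nat_lit 0) (.e (nat_lit 19248) (nat_lit 0) .nil) .nil)))) (.nd (nat_lit 9) 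
(.lf (nat_lit 450839) (.g (nat_lit 4149) (.e (nat_lit 2599) (nat_lit 163) (.e (nat_lit 163978) (nat_lit 30) (.e (nat_lit 573485) (nat_lit 13) (.e (nat_lit 65619) (nat_lit 10) (.e (nat_lit 344117) (nat_lit 21) (.e (nat_lit 516143) (nat_lit 9) (.e (nat_lit 426109) (nat_lit 1) (.e (nat_lit 164346) (nat_lit 240) .nil)))))))) (.g (nat_lit 1) (.e (nat_lit 17349) (nat_lit 0) .nil) .nil))) 
(.lf (nat_lit 451351) (.g (nat_lit 3539) (.e (nat_lit 2610) (nat_lit 163) (.e (nat_lit 163978) (nat_lit 30) (.e (nat_lit 573479) (nat_lit 13) (.e (nat_lit 65604) (nat_lit 9) (.e (nat_lit 336028) (nat_lit 3) (.e (nat_lit 98359) (nat_lit 26) (.e (nat_lit 426097) (nat_lit 1) (.e (nat_lit 164348) (nat_lit 240) .nil)))))))) (.g (nat_lit 1) (.e (nat_lit 19577) (nat_lit 0) .nil) .nil))))) 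
(.nd (nat_lit 8) (.nd (nat_lit 9) 
(.lf (nat_lit 450711) (.g (nat_lit 2615) (.e (nat_lit 2591) (nat_lit 162) (.e (nat_lit 49189) (nat_lit 11) (.e (nat_lit 16425) (nat_lit 7) (.e (nat_lit 409643) (nat_lit 18) (.e (nat_lit 303143) (nat_lit 12) (.e (nat_lit 475197) (nat_lit 40) (.e (nat_lit 704790) (nat_lit 14) .nil))))))) (.g (nat_lit 1) (.e (nat_lit 16948) (nat_lit 0) .nil) .nil))) 
(.lf (nat_lit 451223) (.g (nat_lit 2432) (.e (nat_lit 2610) (nat_lit 163) (.e (nat_lit 163977) (nat_lit 30) (.e (nat_lit 573491) (nat_lit 15) (.e (nat_lit 81954) (nat_lit 23) (.e (nat_lit 98359) (nat_lit 26) (.e (nat_lit 426097) (nat_lit 1) (.e (nat_lit 164347) (nat_lit 240) .nil))))))) (.g (nat_lit 1) (.e (nat_lit 19399) (nat_lit 0) .nil) .nil)))) (.nd (nat_lit 9) 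
(.lf (nat_lit 450967) (.g (nat_lit 3451) (.e (nat_lit 2601) (nat_lit 163) (.e (nat_lit 163978) (nat_lit 30) (.e (nat_lit 573485) (nat_lit 13) (.e (nat_lit 65619) (nat_lit 10) (.e (nat_lit 344117) (nat_lit 21) (.e (nat_lit 516143) (nat_lit 9) (.e (nat_lit 426109) (nat_lit 1) (.e (nat_lit 164347) (nat_lit 240) .nil)))))))) (.g (nat_lit 1) (.e (nat_lit 18169) (nat_lit 0) .nil) .nil))) 
(.lf (nat_lit 451479) (.g (nat_lit 5186) (.e (nat_lit 2610) (nat_lit 163) (.e (nat_lit 163978) (nat_lit 30) (.e (nat_lit 573485) (nat_lit 13) (.e (nat_lit 65619) (nat_lit 10) (.e (nat_lit 344117) (nat_lit 21) (.e (nat_lit 516151) (nat_lit 9) (.e (nat_lit 426104) (nat_lit 1) (.e (nat_lit 164348) (nat_lit 240) .nil)))))))) (.g (nat_lit 1) (.e (nat_lit 19718) (nat_lit 0) .nil) .nil)))))) 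
(.nd (nat_lit 7) (.nd (nat_lit 8) (.nd (nat_lit 9) 
(.lf (nat_lit 450647) (.g (nat_lit 3408) (.e (nat_lit 2571) (nat_lit 160) (.e (nat_lit 32807) (nat_lit 18) (.e (nat_lit 172120) (nat_lit 12) (.e (nat_lit 475183) (nat_lit 29) (.e (nat_lit 557103) (nat_lit 14) (.e (nat_lit 180285) (nat_lit 45) .nil)))))) (.g (nat_lit 1) (.e (nat_lit 16830) (nat_lit 0) .nil) .nil))) 
(.lf (nat_lit 451159) (.g (nat_lit 3199) (.e (nat_lit 2610) (nat_lit 163) (.e (nat_lit 163977) (nat_lit 30) (.e (nat_lit 573484) (nat_lit 13) (.e (nat_lit 65610) (nat_lit 10) (.e (nat_lit 344117) (nat_lit 21) (.e (nat_lit 516170) (nat_lit 13) (.e (nat_lit 458774) (nat_lit 18) (.e (nat_lit 5547) (nat_lit 306) .nil)))))))) (.g (nat_lit 1) (.e (nat_lit 19329) (nat_lit 0) .nil) .nil)))) 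
(.nd (nat_lit 9) 
(.lf (nat_lit 450903) (.g (nat_lit 3816) (.e (nat_lit 2600) (nat_lit 163) (.e (nat_lit 163977) (nat_lit 30) (.e (nat_lit 573485) (nat_lit 13) (.e (nat_lit 65604) (nat_lit 9) (.e (nat_lit 336013) (nat_lit 2) (.e (nat_lit 90170) (nat_lit 13) (.e (nat_lit 172059) (nat_lit 1) (.e (nat_lit 164346) (nat_lit 240) .nil)))))))) (.g (nat_lit 1) (.e (nat_lit 17720) (nat_lit 0) .nil) .nil))) 
(.lf (nat_lit 451415) (.g (nat_lit 2284) (.e (nat_lit 2610) (nat_lit 163) (.e (nat_lit 163978) (nat_lit 30) (.e (nat_lit 573484) (nat_lit 13) (.e (nat_lit 65610) (nat_lit 10) (.e (nat_lit 344117) (nat_lit 21) (.e (nat_lit 516159) (nat_lit 10) (.e (nat_lit 434209) (nat_lit 18) (.e (nat_lit 5543) (nat_lit 306) .nil)))))))) (.g (nat_lit 1) (.e (nat_lit 19641) (nat_lit 0) .nil) .nil))))) 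
(.nd (nat_lit 8) (.nd (nat_lit 9) 
(.lf (nat_lit 450775) (.g (nat_lit 3426) (.e (nat_lit 2577) (nat_lit 161) (.e (nat_lit 40996) (nat_lit 11) (.e (nat_lit 24658) (nat_lit 13) (.e (nat_lit 393260) (nat_lit 21) (.e (nat_lit 409617) (nat_lit 10) (.e (nat_lit 4934) (nat_lit 287) .nil)))))) (.g (nat_lit 1) (.e (nat_lit 17018) (nat_lit 0) .nil) .nil))) 
(.lf (nat_lit 451287) (.g (nat_lit 3778) (.e (nat_lit 2610) (nat_lit 163) (.e (nat_lit 163977) (nat_lit 30) (.e (nat_lit 573493) (nat_lit 15) (.e (nat_lit 81954) (nat_lit 23) (.e (nat_lit 98363) (nat_lit 26) .nil))))) (.g (nat_lit 0) (.e (nat_lit 19489) (nat_lit 0) .nil) .nil)))) (.nd (nat_lit 9) 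
(.lf (nat_lit 451031) (.g (nat_lit 2711) (.e (nat_lit 2605) (nat_lit 163) (.e (nat_lit 164327) (nat_lit 230) (.e (nat_lit 163903) (nat_lit 12) (.e (nat_lit 426472) (nat_lit 25) (.e (nat_lit 319534) (nat_lit 16) (.e (nat_lit 286756) (nat_lit 10) (.e (nat_lit 344174) (nat_lit 42) (.e (nat_lit 761887) (nat_lit 13) .nil)))))))) (.g (nat_lit 1) (.e (nat_lit 18650) (nat_lit 0) .nil) .nil))) 
(.lf (nat_lit 451543) (.g (nat_lit 4176) (.e (nat_lit 2610) (nat_lit 163) (.e (nat_lit 163979) (nat_lit 30) (.e (nat_lit 573482) (nat_lit 13) (.e (nat_lit 65604) (nat_lit 9) (.e (nat_lit 336013) (nat_lit 2) (.e (nat_lit 90170) (nat_lit 13) (.e (nat_lit 172049) (nat_lit 0) (.e (nat_lit 2458) (nat_lit 157) (.e (nat_lit 5547) (nat_lit 306) .nil))))))))) (.g (nat_lit 1) (.e (nat_lit 20135) (nat_lit 0) .nil) .nil))))))) 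
(.nd (nat_lit 6) (.nd (nat_lit 7) (.nd (nat_lit 8) (.nd (nat_lit 9) 
(.lf (nat_lit 450615) (.g (nat_lit 3054) (.e (nat_lit 2570) (nat_lit 160) (.e (nat_lit 32807) (nat_lit 18) (.e (nat_lit 172124) (nat_lit 14) (.e (nat_lit 491540) (nat_lit 3) (.e (nat_lit 98367) (nat_lit 27) (.e (nat_lit 434193) (nat_lit 13) .nil)))))) (.g (nat_lit 1) (.e (nat_lit 16633) (nat_lit 0) .nil) .nil))) 
(.lf (nat_lit 451127) (.g (nat_lit 3558) (.e (nat_lit 2610) (nat_lit 163) (.e (nat_lit 163977) (nat_lit 30) (.e (nat_lit 573482) (nat_lit 13) (.e (nat_lit 65619) (nat_lit 10) (.e (nat_lit 344117) (nat_lit 21) (.e (nat_lit 516151) (nat_lit 9) (.e (nat_lit 426097) (nat_lit 1) (.e (nat_lit 164345) (nat_lit 240) .nil)))))))) (.g (nat_lit 1) (.e (nat_lit 19297) (nat_lit 0) .nil) .nil)))) 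
(.nd (nat_lit 9) 
(.lf (nat_lit 450871) (.g (nat_lit 4462) (.e (nat_lit 2599) (nat_lit 163) (.e (nat_lit 163979) (nat_lit 30) (.e (nat_lit 573482) (nat_lit 13) (.e (nat_lit 65619) (nat_lit 10) (.e (nat_lit 344117) (nat_lit 21) (.e (nat_lit 516159) (nat_lit 10) (.e (nat_lit 434209) (nat_lit 18) (.e (nat_lit 5547) (nat_lit 306) .nil)))))))) (.g (nat_lit 1) (.e (nat_lit 17411) (nat_lit 0) .nil) .nil))) 
(.lf (nat_lit 451383) (.g (nat_lit 2729) (.e (nat_lit 2610) (nat_lit 163) (.e (nat_lit 163978) (nat_lit 30) (.e (nat_lit 573479) (nat_lit 13) (.e (nat_lit 65619) (nat_lit 10) (.e (nat_lit 344117) (nat_lit 21) (.e (nat_lit 516160) (nat_lit 10) (.e (nat_lit 434211) (nat_lit 18) (.e (nat_lit 5548) (nat_lit 306) .nil)))))))) (.g (nat_lit 1) (.e (nat_lit 19609) (nat_lit 0) .nil) .nil))))) 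
(.nd (nat_lit 8) (.nd (nat_lit 9) 
(.lf (nat_lit 450743) (.g (nat_lit 2235) (.e (nat_lit 2592) (nat_lit 162) (.e (nat_lit 49189) (nat_lit 11) (.e (nat_lit 16425) (nat_lit 7) (.e (nat_lit 409648) (nat_lit 18) (.e (nat_lit 303136) (nat_lit 10) .nil))))) (.g (nat_lit 0) (.e (nat_lit 16983) (nat_lit 0) .nil) .nil))) 
(.lf (nat_lit 451255) (.g (nat_lit 3634) (.e (nat_lit 2610) (nat_lit 163) (.e (nat_lit 163977) (nat_lit 30) (.e (nat_lit 573493) (nat_lit 15) (.e (nat_lit 81951) (nat_lit 22) (.e (nat_lit 90170) (nat_lit 13) (.e (nat_lit 172046) (nat_lit 0) (.e (nat_lit 2458) (nat_lit 157) (.e (nat_lit 5547) (nat_lit 306) .nil)))))))) (.g (nat_lit 1) (.e (nat_lit 19450) (nat_lit 0) .nil) .nil)))) (.nd (nat_lit 9) 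
(.lf (nat_lit 450999) (.g (nat_lit 4502) (.e (nat_lit 2602) (nat_lit 163) (.e (nat_lit 163978) (nat_lit 30) (.e (nat_lit 573485) (nat_lit 13) (.e (nat_lit 65604) (nat_lit 9) (.e (nat_lit 336013) (nat_lit 2) (.e (nat_lit 90170) (nat_lit 13) (.e (nat_lit 172070) (nat_lit 4) (.e (nat_lit 229663) (nat_lit 240) .nil)))))))) (.g (nat_lit 1) (.e (nat_lit 18350) (nat_lit 0) .nil) .nil))) 
(.lf (nat_lit 451511) (.g (nat_lit 3295) (.e (nat_lit 2610) (nat_lit 163) (.e (nat_lit 163978) (nat_lit 30) (.e (nat_lit 573490) (nat_lit 15) (.e (nat_lit 81956) (nat_lit 23) (.e (nat_lit 98356) (nat_lit 26) .nil))))) (.g (nat_lit 0) (.e (nat_lit 20037) (nat_lit 0) .nil) .nil)))))) (.nd (nat_lit 7) (.nd (nat_lit 8) (.nd (nat_lit 9) 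
(.lf (nat_lit 450679) (.g (nat_lit 1961) (.e (nat_lit 2571) (nat_lit 160) (.e (nat_lit 32808) (nat_lit 19) (.e (nat_lit 180277) (nat_lit 32) (.e (nat_lit 1253) (nat_lit 92) (.e (nat_lit 98367) (nat_lit 27) (.e (nat_lit 434192) (nat_lit 13) .nil)))))) (.g (nat_lit 1) (.e (nat_lit 16893) (nat_lit 0) .nil) .nil))) 
(.lf (nat_lit 451191) (.g (nat_lit 2233) (.e (nat_lit 2610) (nat_lit 163) (.e (nat_lit 163977) (nat_lit 30) (.e (nat_lit 573485) (nat_lit 13) (.e (nat_lit 65619) (nat_lit 10) (.e (nat_lit 344117) (nat_lit 21) (.e (nat_lit 516152) (nat_lit 9) (.e (nat_lit 426109) (nat_lit 1) (.e (nat_lit 164345) (nat_lit 240) .nil)))))))) (.g (nat_lit 1) (.e (nat_lit 19362) (nat_lit 0) .nil) .nil)))) 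
(.nd (nat_lit 9) 
(.lf (nat_lit 450935) (.g (nat_lit 4179) (.e (nat_lit 2601) (nat_lit 163) (.e (nat_lit 163976) (nat_lit 30) (.e (nat_lit 573481) (nat_lit 13) (.e (nat_lit 65619) (nat_lit 10) (.e (nat_lit 344117) (nat_lit 21) (.e (nat_lit 516159) (nat_lit 10) (.e (nat_lit 434209) (nat_lit 18) (.e (nat_lit 5548) (nat_lit 306) .nil)))))))) (.g (nat_lit 1) (.e (nat_lit 17964) (nat_lit 0) .nil) .nil))) 
(.lf (nat_lit 451447) (.g (nat_lit 2106) (.e (nat_lit 2610) (nat_lit 163) (.e (nat_lit 163978) (nat_lit 30) (.e (nat_lit 573485) (nat_lit 13) (.e (nat_lit 65604) (nat_lit 9) (.e (nat_lit 336028) (nat_lit 3) (.e (nat_lit 98359) (nat_lit 26) (.e (nat_lit 426104) (nat_lit 1) (.e (nat_lit 164346) (nat_lit 240) .nil)))))))) (.g (nat_lit 1) (.e (nat_lit 19684) (nat_lit 0) .nil) .nil))))) 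
(.nd (nat_lit 8) (.nd (nat_lit 9) 
(.lf (nat_lit 450807) (.g (nat_lit 3379) (.e (nat_lit 2599) (nat_lit 163) (.e (nat_lit 163976) (nat_lit 30) (.e (nat_lit 573481) (nat_lit 13) (.e (nat_lit 65604) (nat_lit 9) (.e (nat_lit 336013) (nat_lit 2) (.e (nat_lit 90170) (nat_lit 13) (.e (nat_lit 172061) (nat_lit 1) (.e (nat_lit 164346) (nat_lit 240) .nil)))))))) (.g (nat_lit 1) (.e (nat_lit 17235) (nat_lit 0) .nil) .nil))) 
(.lf (nat_lit 451319) (.g (nat_lit 6137) (.e (nat_lit 2610) (nat_lit 163) (.e (nat_lit 163977) (nat_lit 30) (.e (nat_lit 573493) (nat_lit 15) (.e (nat_lit 81956) (nat_lit 23) (.e (nat_lit 98365) (nat_lit 26) (.e (nat_lit 426107) (nat_lit 1) (.e (nat_lit 164347) (nat_lit 240) .nil))))))) (.g (nat_lit 1) (.e (nat_lit 19529) (nat_lit 0) .nil) .nil)))) (.nd (nat_lit 9) 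
(.lf (nat_lit 451063) (.g (nat_lit 2256) (.e (nat_lit 2606) (nat_lit 163) (.e (nat_lit 163979) (nat_lit 30) (.e (nat_lit 573489) (nat_lit 14) (.e (nat_lit 73755) (nat_lit 8) (.e (nat_lit 557104) (nat_lit 14) (.e (nat_lit 180244) (nat_lit 5) (.e (nat_lit 532503) (nat_lit 1) (.e (nat_lit 57652) (nat_lit 152) .nil)))))))) (.g (nat_lit 1) (.e (nat_lit 18709) (nat_lit 0) .nil) .nil))) 
(.lf (nat_lit 451575) (.g (nat_lit 4606) (.e (nat_lit 2610) (nat_lit 163) (.e (nat_lit 163979) (nat_lit 30) (.e (nat_lit 573482) (nat_lit 13) (.e (nat_lit 65604) (nat_lit 9) (.e (nat_lit 336028) (nat_lit 3) (.e (nat_lit 98367) (nat_lit 27) (.e (nat_lit 434209) (nat_lit 18) (.e (nat_lit 5546) (nat_lit 306) .nil)))))))) (.g (nat_lit 1) (.e (nat_lit 20168) (nat_lit 0) .nil) .nil))))))))) 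
(.nd (nat_lit 4) (.nd (nat_lit 5) (.nd (nat_lit 6) (.nd (nat_lit 7) (.nd (nat_lit 8) 
(.nd (nat_lit 9) 
(.lf (nat_lit 450575) (.g (nat_lit 2365) (.e (nat_lit 2569) (nat_lit 160) (.e (nat_lit 32807) (nat_lit 18) (.e (nat_lit 172120) (nat_lit 12) (.e (nat_lit 475185) (nat_lit 29) (.e (nat_lit 557105) (nat_lit 14) (.e (nat_lit 188160) (nat_lit 45) .nil)))))) (.g (nat_lit 1) (.e (nat_lit 16477) (nat_lit 0) .nil) .nil))) 
(.lf (nat_lit 451087) (.g (nat_lit 3052) (.e (nat_lit 2607) (nat_lit 163) (.e (nat_lit 164403) (nat_lit 256) (.e (nat_lit 57373) (nat_lit 2) (.e (nat_lit 90173) (nat_lit 14) (.e (nat_lit 180252) (nat_lit 10) (.e (nat_lit 573489) (nat_lit 14) (.e (nat_lit 73755) (nat_lit 8) (.e (nat_lit 557074) (nat_lit 9) .nil)))))))) (.g (nat_lit 1) (.e (nat_lit 19000) (nat_lit 0) .nil) .nil)))) (.nd (nat_lit 9) 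
(.lf (nat_lit 450831) (.g (nat_lit 4314) (.e (nat_lit 2599) (nat_lit 163) (.e (nat_lit 163978) (nat_lit 30) (.e (nat_lit 573485) (nat_lit 13) (.e (nat_lit 65604) (nat_lit 9) (.e (nat_lit 336013) (nat_lit 2) (.e (nat_lit 90170) (nat_lit 13) (.e (nat_lit 172059) (nat_lit 1) (.e (nat_lit 164346) (nat_lit 240) .nil)))))))) (.g (nat_lit 1) (.e (nat_lit 17332) (nat_lit 0) .nil) .nil))) 
(.lf (nat_lit 451343) (.g (nat_lit 3073) (.e (nat_lit 2610) (nat_lit 163) (.e (nat_lit 163978) (nat_lit 30) (.e (nat_lit 573479) (nat_lit 13) (.e (nat_lit 65604) (nat_lit 9) (.e (nat_lit 336013) (nat_lit 2) (.e (nat_lit 90170) (nat_lit 13) (.e (nat_lit 172061) (nat_lit 1) (.e (nat_lit 164346) (nat_lit 240) .nil)))))))) (.g (nat_lit 1) (.e (nat_lit 19569) (nat_lit 0) .nil) .nil))))) 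
(.nd (nat_lit 8) (.nd (nat_lit 9) 
(.lf (nat_lit 450703) (.g (nat_lit 3648) (.e (nat_lit 2587) (nat_lit 162) (.e (nat_lit 49189) (nat_lit 11) (.e (nat_lit 16425) (nat_lit 7) (.e (nat_lit 409649) (nat_lit 18) (.e (nat_lit 303143) (nat_lit 12) (.e (nat_lit 475198) (nat_lit 40) (.e (nat_lit 704790) (nat_lit 14) .nil))))))) (.g (nat_lit 1) (.e (nat_lit 16939) (nat_lit 0) .nil) .nil))) 
(.lf (nat_lit 451215) (.g (nat_lit 1158) (.e (nat_lit 2610) (nat_lit 163) (.e (nat_lit 163977) (nat_lit 30) (.e (nat_lit 573491) (nat_lit 15) (.e (nat_lit 81954) (nat_lit 23) .nil)))) (.g (nat_lit 0) (.e (nat_lit 19391) (nat_lit 0) .nil) .nil)))) (.nd (nat_lit 9) 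
(.lf (nat_lit 450959) (.g (nat_lit 2461) (.e (nat_lit 2601) (nat_lit 163) (.e (nat_lit 163978) (nat_lit 30) (.e (nat_lit 573479) (nat_lit 13) (.e (nat_lit 65619) (nat_lit 10) (.e (nat_lit 344117) (nat_lit 21) (.e (nat_lit 516160) (nat_lit 10) (.e (nat_lit 434209) (nat_lit 18) (.e (nat_lit 5547) (nat_lit 306) .nil)))))))) (.g (nat_lit 1) (.e (nat_lit 18156) (nat_lit 0) .nil) .nil))) 
(.lf (nat_lit 451471) (.g (nat_lit 2499) (.e (nat_lit 2610) (nat_lit 163) (.e (nat_lit 163978) (nat_lit 30) (.e (nat_lit 573485) (nat_lit 13) (.e (nat_lit 65619) (nat_lit 10) (.e (nat_lit 344117) (nat_lit 21) (.e (nat_lit 516143) (nat_lit 9) (.e (nat_lit 426109) (nat_lit 1) (.e (nat_lit 164348) (nat_lit 240) .nil)))))))) (.g (nat_lit 1) (.e (nat_lit 19710) (nat_lit 0) .nil) .nil)))))) 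
(.nd (nat_lit 7) (.nd (nat_lit 8) (.nd (nat_lit 9) 
(.lf (nat_lit 450639) (.g (nat_lit 2771) (.e (nat_lit 2571) (nat_lit 160) (.e (nat_lit 32807) (nat_lit 18) (.e (nat_lit 172118) (nat_lit 12) (.e (nat_lit 475185) (nat_lit 29) (.e (nat_lit 557103) (nat_lit 14) (.e (nat_lit 180288) (nat_lit 45) .nil)))))) (.g (nat_lit 1) (.e (nat_lit 16822) (nat_lit 0) .nil) .nil))) 
(.lf (nat_lit 451151) (.g (nat_lit 2316) (.e (nat_lit 2610) (nat_lit 163) (.e (nat_lit 163977) (nat_lit 30) (.e (nat_lit 573484) (nat_lit 13) (.e (nat_lit 65610) (nat_lit 10) (.e (nat_lit 344117) (nat_lit 21) (.e (nat_lit 516151) (nat_lit 9) (.e (nat_lit 426104) (nat_lit 1) (.e (nat_lit 164347) (nat_lit 240) .nil)))))))) (.g (nat_lit 1) (.e (nat_lit 19321) (nat_lit 0) .nil) .nil)))) 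
(.nd (nat_lit 9) 
(.lf (nat_lit 450895) (.g (nat_lit 3930) (.e (nat_lit 2600) (nat_lit 163) (.e (nat_lit 163977) (nat_lit 30) (.e (nat_lit 573482) (nat_lit 13) (.e (nat_lit 65604) (nat_lit 9) (.e (nat_lit 336013) (nat_lit 2) (.e (nat_lit 90170) (nat_lit 13) (.e (nat_lit 172059) (nat_lit 1) (.e (nat_lit 164346) (nat_lit 240) .nil)))))))) (.g (nat_lit 1) (.e (nat_lit 17710) (nat_lit 0) .nil) .nil))) 
(.lf (nat_lit 451407) (.g (nat_lit 2538) (.e (nat_lit 2610) (nat_lit 163) (.e (nat_lit 163978) (nat_lit 30) (.e (nat_lit 573484) (nat_lit 13) (.e (nat_lit 65610) (nat_lit 10) (.e (nat_lit 344117) (nat_lit 21) (.e (nat_lit 516151) (nat_lit 9) (.e (nat_lit 426104) (nat_lit 1) (.e (nat_lit 164346) (nat_lit 240) .nil)))))))) (.g (nat_lit 1) (.e (nat_lit 19633) (nat_lit 0) .nil) .nil))))) 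
(.nd (nat_lit 8) (.nd (nat_lit 9) 
(.lf (nat_lit 450767) (.g (nat_lit 1932) (.e (nat_lit 2576) (nat_lit 161) (.e (nat_lit 40996) (nat_lit 11) (.e (nat_lit 24658) (nat_lit 13) (.e (nat_lit 393234) (nat_lit 17) .nil)))) (.g (nat_lit 0) (.e (nat_lit 17010) (nat_lit 0) .nil) .nil))) 
(.lf (nat_lit 451279) (.g (nat_lit 5326) (.e (nat_lit 2610) (nat_lit 163) (.e (nat_lit 163977) (nat_lit 30) (.e (nat_lit 573493) (nat_lit 15) (.e (nat_lit 81953) (nat_lit 22) (.e (nat_lit 90185) (nat_lit 17) (.e (nat_lit 237582) (nat_lit 1) (.e (nat_lit 164347) (nat_lit 240) .nil))))))) (.g (nat_lit 1) (.e (nat_lit 19481) (nat_lit 0) .nil) .nil)))) (.nd (nat_lit 9) 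
(.lf (nat_lit 451023) (.g (nat_lit 4633) (.e (nat_lit 2604) (nat_lit 163) (.e (nat_lit 163975) (nat_lit 30) (.e (nat_lit 573481) (nat_lit 13) (.e (nat_lit 65619) (nat_lit 10) (.e (nat_lit 344117) (nat_lit 21) (.e (nat_lit 516151) (nat_lit 9) (.e (nat_lit 426142) (nat_lit 4) (.e (nat_lit 229663) (nat_lit 240) .nil)))))))) (.g (nat_lit 1) (.e (nat_lit 18516) (nat_lit 0) .nil) .nil))) 
(.lf (nat_lit 451535) (.g (nat_lit 2804) (.e (nat_lit 2610) (nat_lit 163) (.e (nat_lit 163979) (nat_lit 30) (.e (nat_lit 573481) (nat_lit 13) (.e (nat_lit 65619) (nat_lit 10) (.e (nat_lit 344117) (nat_lit 21) (.e (nat_lit 516159) (nat_lit 10) (.e (nat_lit 434209) (nat_lit 18) (.e (nat_lit 5548) (nat_lit 306) .nil)))))))) (.g (nat_lit 1) (.e (nat_lit 20126) (nat_lit 0) .nil) .nil))))))) 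
(.nd (nat_lit 6) (.nd (nat_lit 7) (.nd (nat_lit 8) (.nd (nat_lit 9) 
(.lf (nat_lit 450607) (.g (nat_lit 3381) (.e (nat_lit 2570) (nat_lit 160) (.e (nat_lit 32807) (nat_lit 18) (.e (nat_lit 172120) (nat_lit 12) (.e (nat_lit 475185) (nat_lit 29) (.e (nat_lit 557104) (nat_lit 14) (.e (nat_lit 180284) (nat_lit 45) .nil)))))) (.g (nat_lit 1) (.e (nat_lit 16608) (nat_lit 0) .nil) .nil))) 
(.lf (nat_lit 451119) (.g (nat_lit 3758) (.e (nat_lit 2610) (nat_lit 163) (.e (nat_lit 163977) (nat_lit 30) (.e (nat_lit 573482) (nat_lit 13) (.e (nat_lit 65604) (nat_lit 9) (.e (nat_lit 336028) (nat_lit 3) (.e (nat_lit 98366) (nat_lit 27) (.e (nat_lit 434209) (nat_lit 18) (.e (nat_lit 5547) (nat_lit 306) .nil)))))))) (.g (nat_lit 1) (.e (nat_lit 19289) (nat_lit 0) .nil) .nil)))) (.nd (nat_lit 9) 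
(.lf (nat_lit 450863) (.g (nat_lit 4898) (.e (nat_lit 2599) (nat_lit 163) (.e (nat_lit 163979) (nat_lit 30) (.e (nat_lit 573482) (nat_lit 13) (.e (nat_lit 65604) (nat_lit 9) (.e (nat_lit 336028) (nat_lit 3) (.e (nat_lit 98367) (nat_lit 27) (.e (nat_lit 434209) (nat_lit 18) (.e (nat_lit 5548) (nat_lit 306) .nil)))))))) (.g (nat_lit 1) (.e (nat_lit 17403) (nat_lit 0) .nil) .nil))) 
(.lf (nat_lit 451375) (.g (nat_lit 3617) (.e (nat_lit 2610) (nat_lit 163) (.e (nat_lit 163978) (nat_lit 30) (.e (nat_lit 573479) (nat_lit 13) (.e (nat_lit 65619) (nat_lit 10) (.e (nat_lit 344117) (nat_lit 21) (.e (nat_lit 516159) (nat_lit 10) (.e (nat_lit 434202) (nat_lit 18) (.e (nat_lit 5537) (nat_lit 306) .nil)))))))) (.g (nat_lit 1) (.e (nat_lit 19601) (nat_lit 0) .nil) .nil))))) 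
(.nd (nat_lit 8) (.nd (nat_lit 9) 
(.lf (nat_lit 450735) (.g (nat_lit 3262) (.e (nat_lit 2592) (nat_lit 162) (.e (nat_lit 49189) (nat_lit 11) (.e (nat_lit 16424) (nat_lit 7) (.e (nat_lit 409645) (nat_lit 18) (.e (nat_lit 303143) (nat_lit 12) (.e (nat_lit 475198) (nat_lit 40) (.e (nat_lit 704790) (nat_lit 14) .nil))))))) (.g (nat_lit 1) (.e (nat_lit 16975) (nat_lit 0) .nil) .nil))) 
(.lf (nat_lit 451247) (.g (nat_lit 2551) (.e (nat_lit 2610) (nat_lit 163) (.e (nat_lit 163977) (nat_lit 30) (.e (nat_lit 573492) (nat_lit 15) (.e (nat_lit 81956) (nat_lit 23) (.e (nat_lit 106240) (nat_lit 26) .nil))))) (.g (nat_lit 0) (.e (nat_lit 19439) (nat_lit 0) .nil) .nil)))) (.nd (nat_lit 9) 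
(.lf (nat_lit 450991) (.g (nat_lit 1836) (.e (nat_lit 2601) (nat_lit 163) (.e (nat_lit 164398) (nat_lit 256) (.e (nat_lit 57373) (nat_lit 2) (.e (nat_lit 90174) (nat_lit 14) (.e (nat_lit 180243) (nat_lit 5) (.e (nat_lit 532515) (nat_lit 3) (.e (nat_lit 114716) (nat_lit 22) (.e (nat_lit 90121) (nat_lit 9) .nil)))))))) (.g (nat_lit 1) (.e (nat_lit 18322) (nat_lit 0) .nil) .nil))) 
(.lf (nat_lit 451503) (.g (nat_lit 4358) (.e (nat_lit 2610) (nat_lit 163) (.e (nat_lit 163978) (nat_lit 30) (.e (nat_lit 573485) (nat_lit 13) (.e (nat_lit 65619) (nat_lit 10) (.e (nat_lit 344117) (nat_lit 21) (.e (nat_lit 516171) (nat_lit 13) (.e (nat_lit 458774) (nat_lit 18) (.e (nat_lit 5548) (nat_lit 306) .nil)))))))) (.g (nat_lit 1) (.e (nat_lit 19742) (nat_lit 0) .nil) .nil)))))) 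
(.nd (nat_lit 7) (.nd (nat_lit 8) (.nd (nat_lit 9) 
(.lf (nat_lit 450671) (.g (nat_lit 2583) (.e (nat_lit 2571) (nat_lit 160) (.e (nat_lit 32807) (nat_lit 18) (.e (nat_lit 172126) (nat_lit 14) (.e (nat_lit 491539) (nat_lit 3) (.e (nat_lit 98366) (nat_lit 27) (.e (nat_lit 434188) (nat_lit 13) .nil)))))) (.g (nat_lit 1) (.e (nat_lit 16883) (nat_lit 0) .nil) .nil))) 
(.lf (nat_lit 451183) (.g (nat_lit 3821) (.e (nat_lit 2610) (nat_lit 163) (.e (nat_lit 163977) (nat_lit 30) (.e (nat_lit 573485) (nat_lit 13) (.e (nat_lit 65604) (nat_lit 9) (.e (nat_lit 336028) (nat_lit 3) (.e (nat_lit 98367) (nat_lit 27) (.e (nat_lit 434209) (nat_lit 18) (.e (nat_lit 5547) (nat_lit 306) .nil)))))))) (.g (nat_lit 1) (.e (nat_lit 19354) (nat_lit 0) .nil) .nil)))) (.nd (nat_lit 9) 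
(.lf (nat_lit 450927) (.g (nat_lit 4097) (.e (nat_lit 2601) (nat_lit 163) (.e (nat_lit 163975) (nat_lit 30) (.e (nat_lit 573481) (nat_lit 13) (.e (nat_lit 65619) (nat_lit 10) (.e (nat_lit 344117) (nat_lit 21) (.e (nat_lit 516151) (nat_lit 9) (.e (nat_lit 426097) (nat_lit 1) (.e (nat_lit 164345) (nat_lit 240) .nil)))))))) (.g (nat_lit 1) (.e (nat_lit 17876) (nat_lit 0) .nil) .nil))) 
(.lf (nat_lit 451439) (.g (nat_lit 1859) (.e (nat_lit 2610) (nat_lit 163) (.e (nat_lit 163978) (nat_lit 30) (.e (nat_lit 573485) (nat_lit 13) (.e (nat_lit 65604) (nat_lit 9) (.e (nat_lit 336028) (nat_lit 3) .nil))))) (.g (nat_lit 0) (.e (nat_lit 19671) (nat_lit 0) .nil) .nil))))) (.nd (nat_lit 8) (.nd (nat_lit 9) 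
(.lf (nat_lit 450799) (.g (nat_lit 2158) (.e (nat_lit 2598) (nat_lit 163) (.e (nat_lit 164399) (nat_lit 256) (.e (nat_lit 57373) (nat_lit 2) (.e (nat_lit 90174) (nat_lit 14) (.e (nat_lit 180243) (nat_lit 5) .nil))))) (.g (nat_lit 0) (.e (nat_lit 17193) (nat_lit 0) .nil) .nil))) 
(.lf (nat_lit 451311) (.g (nat_lit 3164) (.e (nat_lit 2610) (nat_lit 163) (.e (nat_lit 163977) (nat_lit 30) (.e (nat_lit 573493) (nat_lit 15) (.e (nat_lit 81956) (nat_lit 23) (.e (nat_lit 98360) (nat_lit 26) (.e (nat_lit 426109) (nat_lit 1) (.e (nat_lit 164346) (nat_lit 240) .nil))))))) (.g (nat_lit 1) (.e (nat_lit 19521) (nat_lit 0) .nil) .nil)))) (.nd (nat_lit 9) 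
(.lf (nat_lit 451055) (.g (nat_lit 2331) (.e (nat_lit 2606) (nat_lit 163) (.e (nat_lit 163978) (nat_lit 30) (.e (nat_lit 573489) (nat_lit 14) (.e (nat_lit 73755) (nat_lit 8) (.e (nat_lit 557105) (nat_lit 14) (.e (nat_lit 180245) (nat_lit 5) (.e (nat_lit 532501) (nat_lit 1) (.e (nat_lit 57662) (nat_lit 152) .nil)))))))) (.g (nat_lit 1) (.e (nat_lit 18695) (nat_lit 0) .nil) .nil))) 
(.lf (nat_lit 451567) (.g (nat_lit 2660) (.e (nat_lit 2610) (nat_lit 163) (.e (nat_lit 163979) (nat_lit 30) (.e (nat_lit 573482) (nat_lit 13) (.e (nat_lit 65604) (nat_lit 9) (.e (nat_lit 336028) (nat_lit 3) (.e (nat_lit 98365) (nat_lit 26) (.e (nat_lit 426098) (nat_lit 1) (.e (nat_lit 164348) (nat_lit 240) .nil)))))))) (.g (nat_lit 1) (.e (nat_lit 20160) (nat_lit 0) .nil) .nil)))))))) 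
(.nd (nat_lit 5) (.nd (nat_lit 6) (.nd (nat_lit 7) (.nd (nat_lit 8) (.nd (nat_lit 9) 
(.lf (nat_lit 450591) (.g (nat_lit 2020) (.e (nat_lit 2570) (nat_lit 160) (.e (nat_lit 32806) (nat_lit 18) (.e (nat_lit 172126) (nat_lit 14) (.e (nat_lit 491536) (nat_lit 2) (.e (nat_lit 90172) (nat_lit 14) .nil))))) (.g (nat_lit 0) (.e (nat_lit 16505) (nat_lit 0) .nil) .nil))) 
(.lf (nat_lit 451103) (.g (nat_lit 2846) (.e (nat_lit 2610) (nat_lit 163) (.e (nat_lit 163977) (nat_lit 30) (.e (nat_lit 573482) (nat_lit 13) (.e (nat_lit 65604) (nat_lit 9) (.e (nat_lit 336013) (nat_lit 2) (.e (nat_lit 90170) (nat_lit 13) (.e (nat_lit 172059) (nat_lit 1) (.e (nat_lit 164346) (nat_lit 240) .nil)))))))) (.g (nat_lit 1) (.e (nat_lit 19273) (nat_lit 0) .nil) .nil)))) 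
(.nd (nat_lit 9) 
(.lf (nat_lit 450847) (.g (nat_lit 4956) (.e (nat_lit 2599) (nat_lit 163) (.e (nat_lit 163978) (nat_lit 30) (.e (nat_lit 573485) (nat_lit 13) (.e (nat_lit 65619) (nat_lit 10) (.e (nat_lit 344117) (nat_lit 21) (.e (nat_lit 516160) (nat_lit 10) (.e (nat_lit 434209) (nat_lit 18) (.e (nat_lit 5548) (nat_lit 306) .nil)))))))) (.g (nat_lit 1) (.e (nat_lit 17357) (nat_lit 0) .nil) .nil))) 
(.lf (nat_lit 451359) (.g (nat_lit 1666) (.e (nat_lit 2610) (nat_lit 163) (.e (nat_lit 163978) (nat_lit 30) (.e (nat_lit 573479) (nat_lit 13) (.e (nat_lit 65619) (nat_lit 10) .nil)))) (.g (nat_lit 0) (.e (nat_lit 19585) (nat_lit 0) .nil) .nil))))) (.nd (nat_lit 8) (.nd (nat_lit 9) 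
(.lf (nat_lit 450719) (.g (nat_lit 2243) (.e (nat_lit 2591) (nat_lit 162) (.e (nat_lit 49189) (nat_lit 11) (.e (nat_lit 16425) (nat_lit 7) (.e (nat_lit 409648) (nat_lit 18) (.e (nat_lit 303136) (nat_lit 10) .nil))))) (.g (nat_lit 0) (.e (nat_lit 16956) (nat_lit 0) .nil) .nil))) 
(.lf (nat_lit 451231) (.g (nat_lit 3607) (.e (nat_lit 2610) (nat_lit 163) (.e (nat_lit 163977) (nat_lit 30) (.e (nat_lit 573491) (nat_lit 15) (.e (nat_lit 81954) (nat_lit 23) (.e (nat_lit 98366) (nat_lit 27) (.e (nat_lit 434209) (nat_lit 18) (.e (nat_lit 5548) (nat_lit 306) .nil))))))) (.g (nat_lit 1) (.e (nat_lit 19407) (nat_lit 0) .nil) .nil)))) (.nd (nat_lit 9) 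
(.lf (nat_lit 450975) (.g (nat_lit 2198) (.e (nat_lit 2601) (nat_lit 163) (.e (nat_lit 163979) (nat_lit 30) (.e (nat_lit 573482) (nat_lit 13) (.e (nat_lit 65604) (nat_lit 9) (.e (nat_lit 336028) (nat_lit 3) (.e (nat_lit 98354) (nat_lit 26) (.e (nat_lit 426109) (nat_lit 1) (.e (nat_lit 164346) (nat_lit 240) .nil)))))))) (.g (nat_lit 1) (.e (nat_lit 18193) (nat_lit 0) .nil) .nil))) 
(.lf (nat_lit 451487) (.g (nat_lit 4034) (.e (nat_lit 2610) (nat_lit 163) (.e (nat_lit 163978) (nat_lit 30) (.e (nat_lit 573485) (nat_lit 13) (.e (nat_lit 65619) (nat_lit 10) (.e (nat_lit 344117) (nat_lit 21) (.e (nat_lit 516159) (nat_lit 10) (.e (nat_lit 434202) (nat_lit 18) (.e (nat_lit 5537) (nat_lit 306) .nil)))))))) (.g (nat_lit 1) (.e (nat_lit 19726) (nat_lit 0) .nil) .nil)))))) 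
(.nd (nat_lit 7) (.nd (nat_lit 8) (.nd (nat_lit 9) 
(.lf (nat_lit 450655) (.g (nat_lit 2684) (.e (nat_lit 2571) (nat_lit 160) (.e (nat_lit 32807) (nat_lit 18) (.e (nat_lit 172120) (nat_lit 12) (.e (nat_lit 475185) (nat_lit 29) (.e (nat_lit 557105) (nat_lit 14) (.e (nat_lit 180288) (nat_lit 45) .nil)))))) (.g (nat_lit 1) (.e (nat_lit 16838) (nat_lit 0) .nil) .nil))) 
(.lf (nat_lit 451167) (.g (nat_lit 2611) (.e (nat_lit 2610) (nat_lit 163) (.e (nat_lit 163977) (nat_lit 30) (.e (nat_lit 573485) (nat_lit 13) (.e (nat_lit 65604) (nat_lit 9) (.e (nat_lit 336013) (nat_lit 2) (.e (nat_lit 90170) (nat_lit 13) (.e (nat_lit 172061) (nat_lit 1) (.e (nat_lit 164346) (nat_lit 240) .nil)))))))) (.g (nat_lit 1) (.e (nat_lit 19337) (nat_lit 0) .nil) .nil)))) 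
(.nd (nat_lit 9) 
(.lf (nat_lit 450911) (.g (nat_lit 3468) (.e (nat_lit 2600) (nat_lit 163) (.e (nat_lit 163978) (nat_lit 30) (.e (nat_lit 573485) (nat_lit 13) (.e (nat_lit 65619) (nat_lit 10) (.e (nat_lit 344117) (nat_lit 21) (.e (nat_lit 516151) (nat_lit 9) (.e (nat_lit 426097) (nat_lit 1) (.e (nat_lit 164345) (nat_lit 240) .nil)))))))) (.g (nat_lit 1) (.e (nat_lit 17820) (nat_lit 0) .nil) .nil))) 
(.lf (nat_lit 451423) (.g (nat_lit 3834) (.e (nat_lit 2610) (nat_lit 163) (.e (nat_lit 163978) (nat_lit 30) (.e (nat_lit 573484) (nat_lit 13) (.e (nat_lit 65610) (nat_lit 10) (.e (nat_lit 344117) (nat_lit 21) (.e (nat_lit 516169) (nat_lit 13) (.e (nat_lit 458774) (nat_lit 18) (.e (nat_lit 5547) (nat_lit 306) .nil)))))))) (.g (nat_lit 1) (.e (nat_lit 19649) (nat_lit 0) .nil) .nil))))) 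
(.nd (nat_lit 8) (.nd (nat_lit 9) 
(.lf (nat_lit 450783) (.g (nat_lit 3380) (.e (nat_lit 2579) (nat_lit 161) (.e (nat_lit 40993) (nat_lit 11) (.e (nat_lit 24657) (nat_lit 13) (.e (nat_lit 393260) (nat_lit 21) (.e (nat_lit 409616) (nat_lit 10) (.e (nat_lit 4931) (nat_lit 287) .nil)))))) (.g (nat_lit 1) (.e (nat_lit 17026) (nat_lit 0) .nil) .nil))) 
(.lf (nat_lit 451295) (.g (nat_lit 4351) (.e (nat_lit 2610) (nat_lit 163) (.e (nat_lit 163977) (nat_lit 30) (.e (nat_lit 573493) (nat_lit 15) (.e (nat_lit 81954) (nat_lit 23) (.e (nat_lit 98367) (nat_lit 27) (.e (nat_lit 434209) (nat_lit 18) (.e (nat_lit 5547) (nat_lit 306) .nil))))))) (.g (nat_lit 1) (.e (nat_lit 19497) (nat_lit 0) .nil) .nil)))) (.nd (nat_lit 9) 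
(.lf (nat_lit 451039) (.g (nat_lit 3044) (.e (nat_lit 2606) (nat_lit 163) (.e (nat_lit 163978) (nat_lit 30) (.e (nat_lit 573489) (nat_lit 14) (.e (nat_lit 73755) (nat_lit 8) (.e (nat_lit 557098) (nat_lit 13) (.e (nat_lit 172066) (nat_lit 3) (.e (nat_lit 204829) (nat_lit 18) (.e (nat_lit 57665) (nat_lit 152) .nil)))))))) (.g (nat_lit 1) (.e (nat_lit 18679) (nat_lit 0) .nil) .nil))) 
(.lf (nat_lit 451551) (.g (nat_lit 2707) (.e (nat_lit 2610) (nat_lit 163) (.e (nat_lit 163979) (nat_lit 30) (.e (nat_lit 573482) (nat_lit 13) (.e (nat_lit 65604) (nat_lit 9) (.e (nat_lit 336028) (nat_lit 3) (.e (nat_lit 98359) (nat_lit 26) (.e (nat_lit 426018) (nat_lit 0) (.e (nat_lit 2536) (nat_lit 157) (.e (nat_lit 5543) (nat_lit 306) .nil))))))))) (.g (nat_lit 1) (.e (nat_lit 20144) (nat_lit 0) .nil) .nil))))))) 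
(.nd (nat_lit 6) (.nd (nat_lit 7) (.nd (nat_lit 8) (.nd (nat_lit 9) 
(.lf (nat_lit 450623) (.g (nat_lit 3434) (.e (nat_lit 2570) (nat_lit 160) (.e (nat_lit 32807) (nat_lit 18) (.e (nat_lit 172126) (nat_lit 14) (.e (nat_lit 491539) (nat_lit 3) (.e (nat_lit 98367) (nat_lit 27) (.e (nat_lit 434193) (nat_lit 13) .nil)))))) (.g (nat_lit 1) (.e (nat_lit 16653) (nat_lit 0) .nil) .nil))) 
(.lf (nat_lit 451135) (.g (nat_lit 2827) (.e (nat_lit 2610) (nat_lit 163) (.e (nat_lit 163977) (nat_lit 30) (.e (nat_lit 573482) (nat_lit 13) (.e (nat_lit 65619) (nat_lit 10) (.e (nat_lit 344117) (nat_lit 21) (.e (nat_lit 516160) (nat_lit 10) (.e (nat_lit 434209) (nat_lit 18) (.e (nat_lit 5546) (nat_lit 306) .nil)))))))) (.g (nat_lit 1) (.e (nat_lit 19305) (nat_lit 0) .nil) .nil)))) 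
(.nd (nat_lit 9) 
(.lf (nat_lit 450879) (.g (nat_lit 1895) (.e (nat_lit 2599) (nat_lit 163) (.e (nat_lit 164398) (nat_lit 256) (.e (nat_lit 57378) (nat_lit 3) (.e (nat_lit 98376) (nat_lit 30) (.e (nat_lit 458789) (nat_lit 23) (.e (nat_lit 532515) (nat_lit 3) (.e (nat_lit 114716) (nat_lit 22) (.e (nat_lit 90137) (nat_lit 9) .nil)))))))) (.g (nat_lit 1) (.e (nat_lit 17629) (nat_lit 0) .nil) .nil))) 
(.lf (nat_lit 451391) (.g (nat_lit 3225) (.e (nat_lit 2610) (nat_lit 163) (.e (nat_lit 163978) (nat_lit 30) (.e (nat_lit 573479) (nat_lit 13) (.e (nat_lit 65619) (nat_lit 10) (.e (nat_lit 344129) (nat_lit 26) (.e (nat_lit 557066) (nat_lit 9) (.e (nat_lit 232) (nat_lit 21) (.e (nat_lit 335997) (nat_lit 1) (.e (nat_lit 57772) (nat_lit 227) .nil))))))))) (.g (nat_lit 1) (.e (nat_lit 19617) (nat_lit 0) .nil) .nil))))) 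
(.nd (nat_lit 8) (.nd (nat_lit 9) 
(.lf (nat_lit 450751) (.g (nat_lit 2550) (.e (nat_lit 2592) (nat_lit 162) (.e (nat_lit 49189) (nat_lit 11) (.e (nat_lit 16425) (nat_lit 7) (.e (nat_lit 409649) (nat_lit 18) (.e (nat_lit 303140) (nat_lit 10) (.e (nat_lit 434271) (nat_lit 38) (.e (nat_lit 663296) (nat_lit 14) .nil))))))) (.g (nat_lit 1) (.e (nat_lit 16991) (nat_lit 0) .nil) .nil))) 
(.lf (nat_lit 451263) (.g (nat_lit 3696) (.e (nat_lit 2610) (nat_lit 163) (.e (nat_lit 163977) (nat_lit 30) (.e (nat_lit 573493) (nat_lit 15) (.e (nat_lit 81953) (nat_lit 22) (.e (nat_lit 90170) (nat_lit 13) (.e (nat_lit 172046) (nat_lit 0) (.e (nat_lit 2458) (nat_lit 157) (.e (nat_lit 5548) (nat_lit 306) .nil)))))))) (.g (nat_lit 1) (.e (nat_lit 19465) (nat_lit 0) .nil) .nil)))) (.nd (nat_lit 9) 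
(.lf (nat_lit 451007) (.g (nat_lit 4393) (.e (nat_lit 2602) (nat_lit 163) (.e (nat_lit 163979) (nat_lit 30) (.e (nat_lit 573482) (nat_lit 13) (.e (nat_lit 65604) (nat_lit 9) (.e (nat_lit 336013) (nat_lit 2) (.e (nat_lit 90170) (nat_lit 13) (.e (nat_lit 172070) (nat_lit 4) (.e (nat_lit 229663) (nat_lit 240) .nil)))))))) (.g (nat_lit 1) (.e (nat_lit 18399) (nat_lit 0) .nil) .nil))) 
(.lf (nat_lit 451519) (.g (nat_lit 2062) (.e (nat_lit 2610) (nat_lit 163) (.e (nat_lit 163978) (nat_lit 30) (.e (nat_lit 573493) (nat_lit 15) (.e (nat_lit 81953) (nat_lit 22) .nil)))) (.g (nat_lit 0) (.e (nat_lit 20057) (nat_lit 0) .nil) .nil)))))) (.nd (nat_lit 7) (.nd (nat_lit 8) (.nd (nat_lit 9) 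
(.lf (nat_lit 450687) (.g (nat_lit 3749) (.e (nat_lit 2587) (nat_lit 162) (.e (nat_lit 49189) (nat_lit 11) (.e (nat_lit 16425) (nat_lit 7) (.e (nat_lit 409623) (nat_lit 10) (.e (nat_lit 5664) (nat_lit 312) (.e (nat_lit 3062) (nat_lit 190) (.e (nat_lit 475198) (nat_lit 40) (.e (nat_lit 704790) (nat_lit 14) .nil)))))))) (.g (nat_lit 1) (.e (nat_lit 16923) (nat_lit 0) .nil) .nil))) 
(.lf (nat_lit 451199) (.g (nat_lit 3950) (.e (nat_lit 2610) (nat_lit 163) (.e (nat_lit 163977) (nat_lit 30) (.e (nat_lit 573485) (nat_lit 13) (.e (nat_lit 65619) (nat_lit 10) (.e (nat_lit 344117) (nat_lit 21) (.e (nat_lit 516170) (nat_lit 13) (.e (nat_lit 458774) (nat_lit 18) (.e (nat_lit 5547) (nat_lit 306) .nil)))))))) (.g (nat_lit 1) (.e (nat_lit 19370) (nat_lit 0) .nil) .nil)))) 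
(.nd (nat_lit 9) 
(.lf (nat_lit 450943) (.g (nat_lit 2850) (.e (nat_lit 2601) (nat_lit 163) (.e (nat_lit 163977) (nat_lit 30) (.e (nat_lit 573482) (nat_lit 13) (.e (nat_lit 65619) (nat_lit 10) (.e (nat_lit 344117) (nat_lit 21) (.e (nat_lit 516143) (nat_lit 9) (.e (nat_lit 426109) (nat_lit 1) (.e (nat_lit 164346) (nat_lit 240) .nil)))))))) (.g (nat_lit 1) (.e (nat_lit 18009) (nat_lit 0) .nil) .nil))) 
(.lf (nat_lit 451455) (.g (nat_lit 2129) (.e (nat_lit 2610) (nat_lit 163) (.e (nat_lit 163978) (nat_lit 30) (.e (nat_lit 573485) (nat_lit 13) (.e (nat_lit 65604) (nat_lit 9) (.e (nat_lit 336028) (nat_lit 3) (.e (nat_lit 98366) (nat_lit 27) (.e (nat_lit 434209) (nat_lit 18) (.e (nat_lit 5543) (nat_lit 306) .nil)))))))) (.g (nat_lit 1) (.e (nat_lit 19692) (nat_lit 0) .nil) .nil))))) 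
(.nd (nat_lit 8) (.nd (nat_lit 9) 
(.lf (nat_lit 450815) (.g (nat_lit 4131) (.e (nat_lit 2599) (nat_lit 163) (.e (nat_lit 163976) (nat_lit 30) (.e (nat_lit 573481) (nat_lit 13) (.e (nat_lit 65619) (nat_lit 10) (.e (nat_lit 344117) (nat_lit 21) (.e (nat_lit 516159) (nat_lit 10) (.e (nat_lit 434209) (nat_lit 18) (.e (nat_lit 5548) (nat_lit 306) .nil)))))))) (.g (nat_lit 1) (.e (nat_lit 17250) (nat_lit 0) .nil) .nil))) 
(.lf (nat_lit 451327) (.g (nat_lit 4006) (.e (nat_lit 2610) (nat_lit 163) (.e (nat_lit 163977) (nat_lit 30) (.e (nat_lit 573493) (nat_lit 15) (.e (nat_lit 81956) (nat_lit 23) (.e (nat_lit 98367) (nat_lit 27) (.e (nat_lit 434209) (nat_lit 18) (.e (nat_lit 5547) (nat_lit 306) .nil))))))) (.g (nat_lit 1) (.e (nat_lit 19537) (nat_lit 0) .nil) .nil)))) (.nd (nat_lit 9) 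
(.lf (nat_lit 451071) (.g (nat_lit 2416) (.e (nat_lit 2606) (nat_lit 163) (.e (nat_lit 164403) (nat_lit 256) (.e (nat_lit 57373) (nat_lit 2) (.e (nat_lit 90174) (nat_lit 14) (.e (nat_lit 180243) (nat_lit 5) .nil))))) (.g (nat_lit 0) (.e (nat_lit 18728) (nat_lit 0) .nil) .nil))) 
(.lf (nat_lit 451583) (.g (nat_lit 3249) (.e (nat_lit 2610) (nat_lit 163) (.e (nat_lit 163979) (nat_lit 30) (.e (nat_lit 573482) (nat_lit 13) (.e (nat_lit 65619) (nat_lit 10) (.e (nat_lit 344117) (nat_lit 21) (.e (nat_lit 516106) (nat_lit 0) (.e (nat_lit 7936) (nat_lit 388) (.e (nat_lit 2610) (nat_lit 163) (.e (nat_lit 164347) (nat_lit 240) .nil))))))))) (.g (nat_lit 1) (.e (nat_lit 20176) (nat_lit 0) .nil) .nil)))))))))))))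

noncomputable def tv5501 : DT := (.nd (nat_lit 0) (.nd (nat_lit 1) (.nd (nat_lit 2) (.nd (nat_lit 3) (.nd (nat_lit 4) (.nd (nat_lit 5) (.nd (nat_lit 6) (.nd (nat_lit 7) (.nd (nat_lit 8) (.nd (nat_lit 9) 
(.lf (nat_lit 451584) (.g (nat_lit 2140) (.e (nat_lit 2610) (nat_lit 163) (.e (nat_lit 163979) (nat_lit 30) (.e (nat_lit 573482) (nat_lit 13) (.e (nat_lit 65619) (nat_lit 10) (.e (nat_lit 344117) (nat_lit 21) (.e (nat_lit 516106) (nat_lit 0) (.e (nat_lit 7936) (nat_lit 388) (.e (nat_lit 2612) (nat_lit 163) (.e (nat_lit 164347) (nat_lit 240) .nil))))))))) (.g (nat_lit 1) (.e (nat_lit 20177) (nat_lit 0) .nil) .nil))) 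
(.lf (nat_lit 452096) (.g (nat_lit 4543) (.e (nat_lit 2612) (nat_lit 163) (.e (nat_lit 163977) (nat_lit 30) (.e (nat_lit 573482) (nat_lit 13) (.e (nat_lit 65604) (nat_lit 9) (.e (nat_lit 336013) (nat_lit 2) (.e (nat_lit 90170) (nat_lit 13) (.e (nat_lit 172068) (nat_lit 4) (.e (nat_lit 229666) (nat_lit 240) .nil)))))))) (.g (nat_lit 1) (.e (nat_lit 22214) (nat_lit 0) .nil) .nil)))) 
(.nd (nat_lit 9) 
(.lf (nat_lit 451840) (.g (nat_lit 4361) (.e (nat_lit 2610) (nat_lit 163) (.e (nat_lit 163979) (nat_lit 30) (.e (nat_lit 573493) (nat_lit 15) (.e (nat_lit 81956) (nat_lit 23) (.e (nat_lit 98368) (nat_lit 27) (.e (nat_lit 434203) (nat_lit 18) (.e (nat_lit 5537) (nat_lit 306) .nil))))))) (.g (nat_lit 1) (.e (nat_lit 20569) (nat_lit 0) .nil) .nil))) 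
(.lf (nat_lit 452352) (.g (nat_lit 5141) (.e (nat_lit 2612) (nat_lit 163) (.e (nat_lit 163978) (nat_lit 30) (.e (nat_lit 573489) (nat_lit 14) (.e (nat_lit 73755) (nat_lit 8) (.e (nat_lit 557098) (nat_lit 13) (.e (nat_lit 172131) (nat_lit 15) (.e (nat_lit 1800) (nat_lit 119) (.e (nat_lit 516117) (nat_lit 1) (.e (nat_lit 164304) (nat_lit 226) .nil))))))))) (.g (nat_lit 1) (.e (nat_lit 22533) (nat_lit 0) .nil) .nil))))) 
(.nd (nat_lit 8) (.nd (nat_lit 9) 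
(.lf (nat_lit 451712) (.g (nat_lit 4776) (.e (nat_lit 2610) (nat_lit 163) (.e (nat_lit 163979) (nat_lit 30) (.e (nat_lit 573493) (nat_lit 15) (.e (nat_lit 81951) (nat_lit 22) (.e (nat_lit 90170) (nat_lit 13) (.e (nat_lit 172059) (nat_lit 1) (.e (nat_lit 164348) (nat_lit 240) .nil))))))) (.g (nat_lit 1) (.e (nat_lit 20381) (nat_lit 0) .nil) .nil))) 
(.lf (nat_lit 452224) (.g (nat_lit 4390) (.e (nat_lit 2612) (nat_lit 163) (.e (nat_lit 163978) (nat_lit 30) (.e (nat_lit 573484) (nat_lit 13) (.e (nat_lit 65610) (nat_lit 10) (.e (nat_lit 344117) (nat_lit 21) (.e (nat_lit 516159) (nat_lit 10) (.e (nat_lit 434215) (nat_lit 18) (.e (nat_lit 5448) (nat_lit 306) .nil)))))))) (.g (nat_lit 1) (.e (nat_lit 22376) (nat_lit 0) .nil) .nil)))) 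
(.nd (nat_lit 9) 
(.lf (nat_lit 451968) (.g (nat_lit 3462) (.e (nat_lit 2611) (nat_lit 163) (.e (nat_lit 163978) (nat_lit 30) (.e (nat_lit 573479) (nat_lit 13) (.e (nat_lit 65619) (nat_lit 10) (.e (nat_lit 344117) (nat_lit 21) (.e (nat_lit 516170) (nat_lit 13) (.e (nat_lit 458774) (nat_lit 18) (.e (nat_lit 5546) (nat_lit 306) .nil)))))))) (.g (nat_lit 1) (.e (nat_lit 21353) (nat_lit 0) .nil) .nil))) 
(.lf (nat_lit 452480) (.g (nat_lit 2159) (.e (nat_lit 2612) (nat_lit 163) (.e (nat_lit 163979) (nat_lit 30) (.e (nat_lit 573491) (nat_lit 15) (.e (nat_lit 81951) (nat_lit 22) (.e (nat_lit 90170) (nat_lit 13) .nil))))) (.g (nat_lit 0) (.e (nat_lit 22714) (nat_lit 0) .nil) .nil)))))) (.nd (nat_lit 7) (.nd (nat_lit 8) (.nd (nat_lit 9) 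
(.lf (nat_lit 451648) (.g (nat_lit 2963) (.e (nat_lit 2610) (nat_lit 163) (.e (nat_lit 163979) (nat_lit 30) (.e (nat_lit 573491) (nat_lit 15) (.e (nat_lit 81954) (nat_lit 23) (.e (nat_lit 98354) (nat_lit 26) (.e (nat_lit 426109) (nat_lit 1) (.e (nat_lit 164346) (nat_lit 240) .nil))))))) (.g (nat_lit 1) (.e (nat_lit 20275) (nat_lit 0) .nil) .nil))) 
(.lf (nat_lit 452160) (.g (nat_lit 3108) (.e (nat_lit 2612) (nat_lit 163) (.e (nat_lit 163977) (nat_lit 30) (.e (nat_lit 573492) (nat_lit 15) (.e (nat_lit 81956) (nat_lit 23) (.e (nat_lit 98355) (nat_lit 26) (.e (nat_lit 426148) (nat_lit 4) (.e (nat_lit 229666) (nat_lit 240) .nil))))))) (.g (nat_lit 1) (.e (nat_lit 22290) (nat_lit 0) .nil) .nil)))) (.nd (nat_lit 9) 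
(.lf (nat_lit 451904) (.g (nat_lit 4176) (.e (nat_lit 2611) (nat_lit 163) (.e (nat_lit 163977) (nat_lit 30) (.e (nat_lit 573482) (nat_lit 13) (.e (nat_lit 65604) (nat_lit 9) (.e (nat_lit 336013) (nat_lit 2) (.e (nat_lit 90170) (nat_lit 13) (.e (nat_lit 172061) (nat_lit 1) (.e (nat_lit 164347) (nat_lit 240) .nil)))))))) (.g (nat_lit 1) (.e (nat_lit 20995) (nat_lit 0) .nil) .nil))) 
(.lf (nat_lit 452416) (.g (nat_lit 2457) (.e (nat_lit 2612) (nat_lit 163) (.e (nat_lit 163979) (nat_lit 30) (.e (nat_lit 573482) (nat_lit 13) (.e (nat_lit 65619) (nat_lit 10) (.e (nat_lit 344117) (nat_lit 21) (.e (nat_lit 516152) (nat_lit 9) (.e (nat_lit 426144) (nat_lit 4) (.e (nat_lit 229665) (nat_lit 240) .nil)))))))) (.g (nat_lit 1) (.e (nat_lit 22640) (nat_lit 0) .nil) .nil))))) 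
(.nd (nat_lit 8) (.nd (nat_lit 9) 
(.lf (nat_lit 451776) (.g (nat_lit 3682) (.e (nat_lit 2610) (nat_lit 163) (.e (nat_lit 163979) (nat_lit 30) (.e (nat_lit 573493) (nat_lit 15) (.e (nat_lit 81954) (nat_lit 23) (.e (nat_lit 98366) (nat_lit 27) (.e (nat_lit 434209) (nat_lit 18) (.e (nat_lit 5546) (nat_lit 306) .nil))))))) (.g (nat_lit 1) (.e (nat_lit 20462) (nat_lit 0) .nil) .nil))) 
(.lf (nat_lit 452288) (.g (nat_lit 2998) (.e (nat_lit 2612) (nat_lit 163) (.e (nat_lit 163978) (nat_lit 30) (.e (nat_lit 573487) (nat_lit 14) (.e (nat_lit 73753) (nat_lit 8) (.e (nat_lit 557100) (nat_lit 13) (.e (nat_lit 179968) (nat_lit 15) (.e (nat_lit 1800) (nat_lit 119) (.e (nat_lit 516120) (nat_lit 1) (.e (nat_lit 164304) (nat_lit 226) .nil))))))))) (.g (nat_lit 1) (.e (nat_lit 22454) (nat_lit 0) .nil) .nil)))) 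
(.nd (nat_lit 9) 
(.lf (nat_lit 452032) (.g (nat_lit 4250) (.e (nat_lit 2611) (nat_lit 163) (.e (nat_lit 163979) (nat_lit 30) (.e (nat_lit 573482) (nat_lit 13) (.e (nat_lit 65619) (nat_lit 10) (.e (nat_lit 344117) (nat_lit 21) (.e (nat_lit 516143) (nat_lit 9) (.e (nat_lit 426109) (nat_lit 1) (.e (nat_lit 164345) (nat_lit 240) .nil)))))))) (.g (nat_lit 1) (.e (nat_lit 21793) (nat_lit 0) .nil) .nil))) 
(.lf (nat_lit 452544) (.g (nat_lit 3637) (.e (nat_lit 2612) (nat_lit 163) (.e (nat_lit 163979) (nat_lit 30) (.e (nat_lit 573493) (nat_lit 15) (.e (nat_lit 81956) (nat_lit 23) (.e (nat_lit 98356) (nat_lit 26) (.e (nat_lit 433920) (nat_lit 4) (.e (nat_lit 229663) (nat_lit 240) .nil))))))) (.g (nat_lit 1) (.e (nat_lit 22807) (nat_lit 0) .nil) .nil))))))) 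
(.nd (nat_lit 6) (.nd (nat_lit 7) (.nd (nat_lit 8) (.nd (nat_lit 9) 
(.lf (nat_lit 451616) (.g (nat_lit 2700) (.e (nat_lit 2610) (nat_lit 163) (.e (nat_lit 163979) (nat_lit 30) (.e (nat_lit 573482) (nat_lit 13) (.e (nat_lit 65619) (nat_lit 10) (.e (nat_lit 344117) (nat_lit 21) (.e (nat_lit 516169) (nat_lit 13) (.e (nat_lit 458774) (nat_lit 18) (.e (nat_lit 5546) (nat_lit 306) .nil)))))))) (.g (nat_lit 1) (.e (nat_lit 20210) (nat_lit 0) .nil) .nil))) 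
(.lf (nat_lit 452128) (.g (nat_lit 3551) (.e (nat_lit 2612) (nat_lit 163) (.e (nat_lit 163977) (nat_lit 30) (.e (nat_lit 573487) (nat_lit 14) (.e (nat_lit 73753) (nat_lit 8) (.e (nat_lit 557098) (nat_lit 13) (.e (nat_lit 172133) (nat_lit 15) (.e (nat_lit 1800) (nat_lit 119) (.e (nat_lit 516117) (nat_lit 1) (.e (nat_lit 164304) (nat_lit 226) .nil))))))))) (.g (nat_lit 1) (.e (nat_lit 22247) (nat_lit 0) .nil) .nil)))) 
(.nd (nat_lit 9) 
(.lf (nat_lit 451872) (.g (nat_lit 4071) (.e (nat_lit 2610) (nat_lit 163) (.e (nat_lit 164396) (nat_lit 256) (.e (nat_lit 57371) (nat_lit 2) (.e (nat_lit 90174) (nat_lit 14) (.e (nat_lit 180243) (nat_lit 5) (.e (nat_lit 532515) (nat_lit 3) (.e (nat_lit 114716) (nat_lit 22) (.e (nat_lit 90140) (nat_lit 9) .nil)))))))) (.g (nat_lit 1) (.e (nat_lit 20950) (nat_lit 0) .nil) .nil))) 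
(.lf (nat_lit 452384) (.g (nat_lit 3428) (.e (nat_lit 2612) (nat_lit 163) (.e (nat_lit 163978) (nat_lit 30) (.e (nat_lit 573489) (nat_lit 14) (.e (nat_lit 73755) (nat_lit 8) (.e (nat_lit 557104) (nat_lit 14) (.e (nat_lit 180244) (nat_lit 5) (.e (nat_lit 532503) (nat_lit 1) (.e (nat_lit 57658) (nat_lit 152) .nil)))))))) (.g (nat_lit 1) (.e (nat_lit 22565) (nat_lit 0) .nil) .nil))))) 
(.nd (nat_lit 8) (.nd (nat_lit 9) 
(.lf (nat_lit 451744) (.g (nat_lit 4939) (.e (nat_lit 2610) (nat_lit 163) (.e (nat_lit 163979) (nat_lit 30) (.e (nat_lit 573493) (nat_lit 15) (.e (nat_lit 81953) (nat_lit 22) (.e (nat_lit 90184) (nat_lit 17) (.e (nat_lit 237583) (nat_lit 1) (.e (nat_lit 164347) (nat_lit 240) .nil))))))) (.g (nat_lit 1) (.e (nat_lit 20428) (nat_lit 0) .nil) .nil))) 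
(.lf (nat_lit 452256) (.g (nat_lit 3065) (.e (nat_lit 2612) (nat_lit 163) (.e (nat_lit 163978) (nat_lit 30) (.e (nat_lit 573485) (nat_lit 13) (.e (nat_lit 65619) (nat_lit 10) (.e (nat_lit 344117) (nat_lit 21) (.e (nat_lit 516161) (nat_lit 10) (.e (nat_lit 434215) (nat_lit 18) (.e (nat_lit 5448) (nat_lit 306) .nil)))))))) (.g (nat_lit 1) (.e (nat_lit 22412) (nat_lit 0) .nil) .nil)))) 
(.nd (nat_lit 9) 
(.lf (nat_lit 452000) (.g (nat_lit 2162) (.e (nat_lit 2611) (nat_lit 163) (.e (nat_lit 163978) (nat_lit 30) (.e (nat_lit 573485) (nat_lit 13) (.e (nat_lit 65619) (nat_lit 10) (.e (nat_lit 344117) (nat_lit 21) (.e (nat_lit 516151) (nat_lit 9) (.e (nat_lit 433920) (nat_lit 1) (.e (nat_lit 164348) (nat_lit 240) .nil)))))))) (.g (nat_lit 1) (.e (nat_lit 21447) (nat_lit 0) .nil) .nil))) 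
(.lf (nat_lit 452512) (.g (nat_lit 4057) (.e (nat_lit 2612) (nat_lit 163) (.e (nat_lit 163979) (nat_lit 30) (.e (nat_lit 573493) (nat_lit 15) (.e (nat_lit 81951) (nat_lit 22) (.e (nat_lit 90170) (nat_lit 13) (.e (nat_lit 172068) (nat_lit 4) (.e (nat_lit 229665) (nat_lit 240) .nil))))))) (.g (nat_lit 1) (.e (nat_lit 22769) (nat_lit 0) .nil) .nil)))))) 
(.nd (nat_lit 7) (.nd (nat_lit 8) (.nd (nat_lit 9) 
(.lf (nat_lit 451680) (.g (nat_lit 2274) (.e (nat_lit 2610) (nat_lit 163) (.e (nat_lit 163979) (nat_lit 30) (.e (nat_lit 573491) (nat_lit 15) (.e (nat_lit 81955) (nat_lit 23) (.e (nat_lit 98365) (nat_lit 26) .nil))))) (.g (nat_lit 0) (.e (nat_lit 20311) (nat_lit 0) .nil) .nil))) 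
(.lf (nat_lit 452192) (.g (nat_lit 2928) (.e (nat_lit 2612) (nat_lit 163) (.e (nat_lit 163977) (nat_lit 30) (.e (nat_lit 573493) (nat_lit 15) (.e (nat_lit 81956) (nat_lit 23) (.e (nat_lit 98359) (nat_lit 26) (.e (nat_lit 426142) (nat_lit 4) (.e (nat_lit 229665) (nat_lit 240) .nil))))))) (.g (nat_lit 1) (.e (nat_lit 22332) (nat_lit 0) .nil) .nil)))) (.nd (nat_lit 9) 
(.lf (nat_lit 451936) (.g (nat_lit 3203) (.e (nat_lit 2611) (nat_lit 163) (.e (nat_lit 163978) (nat_lit 30) (.e (nat_lit 573479) (nat_lit 13) (.e (nat_lit 65604) (nat_lit 9) (.e (nat_lit 336013) (nat_lit 2) (.e (nat_lit 90170) (nat_lit 13) (.e (nat_lit 172061) (nat_lit 1) (.e (nat_lit 164346) (nat_lit 240) .nil)))))))) (.g (nat_lit 1) (.e (nat_lit 21319) (nat_lit 0) .nil) .nil))) 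
(.lf (nat_lit 452448) (.g (nat_lit 2986) (.e (nat_lit 2612) (nat_lit 163) (.e (nat_lit 163979) (nat_lit 30) (.e (nat_lit 573488) (nat_lit 14) (.e (nat_lit 73755) (nat_lit 8) (.e (nat_lit 557097) (nat_lit 13) (.e (nat_lit 179968) (nat_lit 18) (.e (nat_lit 98335) (nat_lit 18) (.e (nat_lit 164305) (nat_lit 226) .nil)))))))) (.g (nat_lit 1) (.e (nat_lit 22678) (nat_lit 0) .nil) .nil))))) 
(.nd (nat_lit 8) (.nd (nat_lit 9) 
(.lf (nat_lit 451808) (.g (nat_lit 4417) (.e (nat_lit 2610) (nat_lit 163) (.e (nat_lit 163979) (nat_lit 30) (.e (nat_lit 573493) (nat_lit 15) (.e (nat_lit 81956) (nat_lit 23) (.e (nat_lit 98361) (nat_lit 26) (.e (nat_lit 426109) (nat_lit 1) (.e (nat_lit 164346) (nat_lit 240) .nil))))))) (.g (nat_lit 1) (.e (nat_lit 20537) (nat_lit 0) .nil) .nil))) 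
(.lf (nat_lit 452320) (.g (nat_lit 3109) (.e (nat_lit 2612) (nat_lit 163) (.e (nat_lit 163978) (nat_lit 30) (.e (nat_lit 573489) (nat_lit 14) (.e (nat_lit 73755) (nat_lit 8) (.e (nat_lit 557096) (nat_lit 13) (.e (nat_lit 172131) (nat_lit 15) (.e (nat_lit 1800) (nat_lit 119) (.e (nat_lit 516117) (nat_lit 1) (.e (nat_lit 164304) (nat_lit 226) .nil))))))))) (.g (nat_lit 1) (.e (nat_lit 22501) (nat_lit 0) .nil) .nil)))) 
(.nd (nat_lit 9) 
(.lf (nat_lit 452064) (.g (nat_lit 2155) (.e (nat_lit 2611) (nat_lit 163) (.e (nat_lit 164402) (nat_lit 256) (.e (nat_lit 57371) (nat_lit 2) (.e (nat_lit 90174) (nat_lit 14) (.e (nat_lit 180245) (nat_lit 5) .nil))))) (.g (nat_lit 0) (.e (nat_lit 22153) (nat_lit 0) .nil) .nil))) 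
(.lf (nat_lit 452576) (.g (nat_lit 1695) (.e (nat_lit 2612) (nat_lit 163) (.e (nat_lit 164326) (nat_lit 230) (.e (nat_lit 163903) (nat_lit 12) (.e (nat_lit 426568) (nat_lit 34) (.e (nat_lit 393279) (nat_lit 23) (.e (nat_lit 426429) (nat_lit 17) (.e (nat_lit 90130) (nat_lit 9) .nil))))))) (.g (nat_lit 1) (.e (nat_lit 23025) (nat_lit 0) .nil) .nil)))))))) 
(.nd (nat_lit 5) (.nd (nat_lit 6) (.nd (nat_lit 7) (.nd (nat_lit 8) (.nd (nat_lit 9) 
(.lf (nat_lit 451600) (.g (nat_lit 3263) (.e (nat_lit 2610) (nat_lit 163) (.e (nat_lit 163979) (nat_lit 30) (.e (nat_lit 573482) (nat_lit 13) (.e (nat_lit 65619) (nat_lit 10) (.e (nat_lit 344117) (nat_lit 21) (.e (nat_lit 516152) (nat_lit 9) (.e (nat_lit 426109) (nat_lit 1) (.e (nat_lit 164346) (nat_lit 240) .nil)))))))) (.g (nat_lit 1) (.e (nat_lit 20194) (nat_lit 0) .nil) .nil))) 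
(.lf (nat_lit 452112) (.g (nat_lit 2732) (.e (nat_lit 2612) (nat_lit 163) (.e (nat_lit 163977) (nat_lit 30) (.e (nat_lit 573485) (nat_lit 13) (.e (nat_lit 65604) (nat_lit 9) (.e (nat_lit 336028) (nat_lit 3) (.e (nat_lit 98359) (nat_lit 26) (.e (nat_lit 426142) (nat_lit 4) (.e (nat_lit 229665) (nat_lit 240) .nil)))))))) (.g (nat_lit 1) (.e (nat_lit 22230) (nat_lit 0) .nil) .nil)))) 
(.nd (nat_lit 9) 
(.lf (nat_lit 451856) (.g (nat_lit 2952) (.e (nat_lit 2610) (nat_lit 163) (.e (nat_lit 163979) (nat_lit 30) (.e (nat_lit 573493) (nat_lit 15) (.e (nat_lit 81956) (nat_lit 23) (.e (nat_lit 98368) (nat_lit 27) (.e (nat_lit 434213) (nat_lit 18) (.e (nat_lit 5547) (nat_lit 306) .nil))))))) (.g (nat_lit 1) (.e (nat_lit 20585) (nat_lit 0) .nil) .nil))) 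
(.lf (nat_lit 452368) (.g (nat_lit 3771) (.e (nat_lit 2612) (nat_lit 163) (.e (nat_lit 163978) (nat_lit 30) (.e (nat_lit 573489) (nat_lit 14) (.e (nat_lit 73755) (nat_lit 8) (.e (nat_lit 557098) (nat_lit 13) (.e (nat_lit 179968) (nat_lit 15) (.e (nat_lit 1800) (nat_lit 119) (.e (nat_lit 516120) (nat_lit 1) (.e (nat_lit 164305) (nat_lit 226) .nil))))))))) (.g (nat_lit 1) (.e (nat_lit 22549) (nat_lit 0) .nil) .nil))))) 
(.nd (nat_lit 8) (.nd (nat_lit 9) 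
(.lf (nat_lit 451728) (.g (nat_lit 2808) (.e (nat_lit 2610) (nat_lit 163) (.e (nat_lit 163979) (nat_lit 30) (.e (nat_lit 573493) (nat_lit 15) (.e (nat_lit 81953) (nat_lit 22) (.e (nat_lit 90170) (nat_lit 13) (.e (nat_lit 172046) (nat_lit 0) (.e (nat_lit 2478) (nat_lit 157) (.e (nat_lit 5547) (nat_lit 306) .nil)))))))) (.g (nat_lit 1) (.e (nat_lit 20412) (nat_lit 0) .nil) .nil))) 
(.lf (nat_lit 452240) (.g (nat_lit 3455) (.e (nat_lit 2612) (nat_lit 163) (.e (nat_lit 163978) (nat_lit 30) (.e (nat_lit 573485) (nat_lit 13) (.e (nat_lit 65604) (nat_lit 9) (.e (nat_lit 336028) (nat_lit 3) (.e (nat_lit 98361) (nat_lit 26) (.e (nat_lit 426144) (nat_lit 4) (.e (nat_lit 229663) (nat_lit 240) .nil)))))))) (.g (nat_lit 1) (.e (nat_lit 22395) (nat_lit 0) .nil) .nil)))) 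
(.nd (nat_lit 9) 
(.lf (nat_lit 451984) (.g (nat_lit 2195) (.e (nat_lit 2611) (nat_lit 163) (.e (nat_lit 163978) (nat_lit 30) (.e (nat_lit 573485) (nat_lit 13) (.e (nat_lit 65604) (nat_lit 9) (.e (nat_lit 336028) (nat_lit 3) (.e (nat_lit 98366) (nat_lit 27) (.e (nat_lit 434209) (nat_lit 18) (.e (nat_lit 5543) (nat_lit 306) .nil)))))))) (.g (nat_lit 1) (.e (nat_lit 21429) (nat_lit 0) .nil) .nil))) 
(.lf (nat_lit 452496) (.g (nat_lit 2928) (.e (nat_lit 2612) (nat_lit 163) (.e (nat_lit 163979) (nat_lit 30) (.e (nat_lit 573492) (nat_lit 15) (.e (nat_lit 81956) (nat_lit 23) (.e (nat_lit 98355) (nat_lit 26) (.e (nat_lit 426141) (nat_lit 4) (.e (nat_lit 229665) (nat_lit 240) .nil))))))) (.g (nat_lit 1) (.e (nat_lit 22743) (nat_lit 0) .nil) .nil)))))) 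
(.nd (nat_lit 7) (.nd (nat_lit 8) (.nd (nat_lit 9) 
(.lf (nat_lit 451664) (.g (nat_lit 2495) (.e (nat_lit 2610) (nat_lit 163) (.e (nat_lit 163979) (nat_lit 30) (.e (nat_lit 573491) (nat_lit 15) (.e (nat_lit 81954) (nat_lit 23) (.e (nat_lit 98365) (nat_lit 26) (.e (nat_lit 426105) (nat_lit 1) (.e (nat_lit 164345) (nat_lit 240) .nil))))))) (.g (nat_lit 1) (.e (nat_lit 20292) (nat_lit 0) .nil) .nil))) 
(.lf (nat_lit 452176) (.g (nat_lit 4116) (.e (nat_lit 2612) (nat_lit 163) (.e (nat_lit 163977) (nat_lit 30) (.e (nat_lit 573493) (nat_lit 15) (.e (nat_lit 81953) (nat_lit 22) (.e (nat_lit 90166) (nat_lit 13) (.e (nat_lit 172069) (nat_lit 4) (.e (nat_lit 229663) (nat_lit 240) .nil))))))) (.g (nat_lit 1) (.e (nat_lit 22313) (nat_lit 0) .nil) .nil)))) (.nd (nat_lit 9) 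
(.lf (nat_lit 451920) (.g (nat_lit 4048) (.e (nat_lit 2611) (nat_lit 163) (.e (nat_lit 163977) (nat_lit 30) (.e (nat_lit 573485) (nat_lit 13) (.e (nat_lit 65604) (nat_lit 9) (.e (nat_lit 336013) (nat_lit 2) (.e (nat_lit 90170) (nat_lit 13) (.e (nat_lit 172059) (nat_lit 1) (.e (nat_lit 164345) (nat_lit 240) .nil)))))))) (.g (nat_lit 1) (.e (nat_lit 21038) (nat_lit 0) .nil) .nil))) 
(.lf (nat_lit 452432) (.g (nat_lit 4401) (.e (nat_lit 2612) (nat_lit 163) (.e (nat_lit 163979) (nat_lit 30) (.e (nat_lit 573487) (nat_lit 14) (.e (nat_lit 73753) (nat_lit 8) (.e (nat_lit 557098) (nat_lit 13) (.e (nat_lit 172133) (nat_lit 15) (.e (nat_lit 1800) (nat_lit 119) (.e (nat_lit 516117) (nat_lit 1) (.e (nat_lit 164305) (nat_lit 226) .nil))))))))) (.g (nat_lit 1) (.e (nat_lit 22662) (nat_lit 0) .nil) .nil))))) 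
(.nd (nat_lit 8) (.nd (nat_lit 9) 
(.lf (nat_lit 451792) (.g (nat_lit 2313) (.e (nat_lit 2610) (nat_lit 163) (.e (nat_lit 163979) (nat_lit 30) (.e (nat_lit 573493) (nat_lit 15) (.e (nat_lit 81956) (nat_lit 23) (.e (nat_lit 98359) (nat_lit 26) .nil))))) (.g (nat_lit 0) (.e (nat_lit 20507) (nat_lit 0) .nil) .nil))) 
(.lf (nat_lit 452304) (.g (nat_lit 2711) (.e (nat_lit 2612) (nat_lit 163) (.e (nat_lit 163978) (nat_lit 30) (.e (nat_lit 573489) (nat_lit 14) (.e (nat_lit 73754) (nat_lit 8) (.e (nat_lit 557095) (nat_lit 13) (.e (nat_lit 172133) (nat_lit 15) (.e (nat_lit 1800) (nat_lit 119) (.e (nat_lit 516120) (nat_lit 1) (.e (nat_lit 164305) (nat_lit 226) .nil))))))))) (.g (nat_lit 1) (.e (nat_lit 22472) (nat_lit 0) .nil) .nil)))) 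
(.nd (nat_lit 9) 
(.lf (nat_lit 452048) (.g (nat_lit 3012) (.e (nat_lit 2611) (nat_lit 163) (.e (nat_lit 163979) (nat_lit 30) (.e (nat_lit 573482) (nat_lit 13) (.e (nat_lit 65619) (nat_lit 10) (.e (nat_lit 344117) (nat_lit 21) (.e (nat_lit 516170) (nat_lit 13) (.e (nat_lit 458774) (nat_lit 18) (.e (nat_lit 5543) (nat_lit 306) .nil)))))))) (.g (nat_lit 1) (.e (nat_lit 21809) (nat_lit 0) .nil) .nil))) 
(.lf (nat_lit 452560) (.g (nat_lit 2785) (.e (nat_lit 2612) (nat_lit 163) (.e (nat_lit 163979) (nat_lit 30) (.e (nat_lit 573493) (nat_lit 15) (.e (nat_lit 81956) (nat_lit 23) (.e (nat_lit 98366) (nat_lit 27) (.e (nat_lit 434216) (nat_lit 18) (.e (nat_lit 5448) (nat_lit 306) .nil))))))) (.g (nat_lit 1) (.e (nat_lit 22823) (nat_lit 0) .nil) .nil))))))) 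
(.nd (nat_lit 6) (.nd (nat_lit 7) (.nd (nat_lit 8) (.nd (nat_lit 9) 
(.lf (nat_lit 451632) (.g (nat_lit 3291) (.e (nat_lit 2610) (nat_lit 163) (.e (nat_lit 163979) (nat_lit 30) (.e (nat_lit 573482) (nat_lit 13) (.e (nat_lit 65619) (nat_lit 10) (.e (nat_lit 344129) (nat_lit 26) (.e (nat_lit 557087) (nat_lit 11) (.e (nat_lit 24598) (nat_lit 1) (.e (nat_lit 57770) (nat_lit 227) .nil)))))))) (.g (nat_lit 1) (.e (nat_lit 20228) (nat_lit 0) .nil) .nil))) 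
(.lf (nat_lit 452144) (.g (nat_lit 2749) (.e (nat_lit 2612) (nat_lit 163) (.e (nat_lit 163977) (nat_lit 30) (.e (nat_lit 573491) (nat_lit 15) (.e (nat_lit 81951) (nat_lit 22) (.e (nat_lit 90167) (nat_lit 13) (.e (nat_lit 172070) (nat_lit 4) (.e (nat_lit 229663) (nat_lit 240) .nil))))))) (.g (nat_lit 1) (.e (nat_lit 22266) (nat_lit 0) .nil) .nil)))) (.nd (nat_lit 9) 
(.lf (nat_lit 451888) (.g (nat_lit 2575) (.e (nat_lit 2610) (nat_lit 163) (.e (nat_lit 164403) (nat_lit 256) (.e (nat_lit 57373) (nat_lit 2) (.e (nat_lit 90174) (nat_lit 14) (.e (nat_lit 180243) (nat_lit 5) (.e (nat_lit 532515) (nat_lit 3) (.e (nat_lit 114715) (nat_lit 22) (.e (nat_lit 90121) (nat_lit 9) .nil)))))))) (.g (nat_lit 1) (.e (nat_lit 20966) (nat_lit 0) .nil) .nil))) 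
(.lf (nat_lit 452400) (.g (nat_lit 5609) (.e (nat_lit 2612) (nat_lit 163) (.e (nat_lit 163979) (nat_lit 30) (.e (nat_lit 573482) (nat_lit 13) (.e (nat_lit 65604) (nat_lit 9) (.e (nat_lit 336028) (nat_lit 3) (.e (nat_lit 98359) (nat_lit 26) (.e (nat_lit 426142) (nat_lit 4) (.e (nat_lit 229663) (nat_lit 240) .nil)))))))) (.g (nat_lit 1) (.e (nat_lit 22624) (nat_lit 0) .nil) .nil))))) 
(.nd (nat_lit 8) (.nd (nat_lit 9) 
(.lf (nat_lit 451760) (.g (nat_lit 4335) (.e (nat_lit 2610) (nat_lit 163) (.e (nat_lit 163979) (nat_lit 30) (.e (nat_lit 573493) (nat_lit 15) (.e (nat_lit 81954) (nat_lit 23) (.e (nat_lit 98359) (nat_lit 26) (.e (nat_lit 426097) (nat_lit 1) (.e (nat_lit 164347) (nat_lit 240) .nil))))))) (.g (nat_lit 1) (.e (nat_lit 20446) (nat_lit 0) .nil) .nil))) 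
(.lf (nat_lit 452272) (.g (nat_lit 5484) (.e (nat_lit 2612) (nat_lit 163) (.e (nat_lit 163978) (nat_lit 30) (.e (nat_lit 573487) (nat_lit 14) (.e (nat_lit 73753) (nat_lit 8) (.e (nat_lit 557098) (nat_lit 13) (.e (nat_lit 172133) (nat_lit 15) (.e (nat_lit 1800) (nat_lit 119) (.e (nat_lit 516120) (nat_lit 1) (.e (nat_lit 164304) (nat_lit 226) .nil))))))))) (.g (nat_lit 1) (.e (nat_lit 22436) (nat_lit 0) .nil) .nil)))) 
(.nd (nat_lit 9) 
(.lf (nat_lit 452016) (.g (nat_lit 3585) (.e (nat_lit 2611) (nat_lit 163) (.e (nat_lit 163979) (nat_lit 30) (.e (nat_lit 573482) (nat_lit 13) (.e (nat_lit 65604) (nat_lit 9) (.e (nat_lit 336013) (nat_lit 2) (.e (nat_lit 90170) (nat_lit 13) (.e (nat_lit 172042) (nat_lit 0) (.e (nat_lit 2458) (nat_lit 157) (.e (nat_lit 5548) (nat_lit 306) .nil))))))))) (.g (nat_lit 1) (.e (nat_lit 21765) (nat_lit 0) .nil) .nil))) 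
(.lf (nat_lit 452528) (.g (nat_lit 4349) (.e (nat_lit 2612) (nat_lit 163) (.e (nat_lit 163979) (nat_lit 30) (.e (nat_lit 573493) (nat_lit 15) (.e (nat_lit 81953) (nat_lit 22) (.e (nat_lit 90170) (nat_lit 13) (.e (nat_lit 172070) (nat_lit 4) (.e (nat_lit 229665) (nat_lit 240) .nil))))))) (.g (nat_lit 1) (.e (nat_lit 22786) (nat_lit 0) .nil) .nil)))))) 
(.nd (nat_lit 7) (.nd (nat_lit 8) (.nd (nat_lit 9) 
(.lf (nat_lit 451696) (.g (nat_lit 3712) (.e (nat_lit 2610) (nat_lit 163) (.e (nat_lit 163979) (nat_lit 30) (.e (nat_lit 573492) (nat_lit 15) (.e (nat_lit 81956) (nat_lit 23) (.e (nat_lit 106240) (nat_lit 26) (.e (nat_lit 426107) (nat_lit 1) (.e (nat_lit 164347) (nat_lit 240) .nil))))))) (.g (nat_lit 1) (.e (nat_lit 20349) (nat_lit 0) .nil) .nil))) 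
(.lf (nat_lit 452208) (.g (nat_lit 2858) (.e (nat_lit 2612) (nat_lit 163) (.e (nat_lit 163978) (nat_lit 30) (.e (nat_lit 573479) (nat_lit 13) (.e (nat_lit 65604) (nat_lit 9) (.e (nat_lit 336028) (nat_lit 3) (.e (nat_lit 98359) (nat_lit 26) (.e (nat_lit 426142) (nat_lit 4) (.e (nat_lit 229666) (nat_lit 240) .nil)))))))) (.g (nat_lit 1) (.e (nat_lit 22357) (nat_lit 0) .nil) .nil)))) 
(.nd (nat_lit 9) 
(.lf (nat_lit 451952) (.g (nat_lit 3754) (.e (nat_lit 2611) (nat_lit 163) (.e (nat_lit 163978) (nat_lit 30) (.e (nat_lit 573479) (nat_lit 13) (.e (nat_lit 65619) (nat_lit 10) (.e (nat_lit 344117) (nat_lit 21) (.e (nat_lit 516145) (nat_lit 9) (.e (nat_lit 433920) (nat_lit 1) (.e (nat_lit 164348) (nat_lit 240) .nil)))))))) (.g (nat_lit 1) (.e (nat_lit 21337) (nat_lit 0) .nil) .nil))) 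
(.lf (nat_lit 452464) (.g (nat_lit 4628) (.e (nat_lit 2612) (nat_lit 163) (.e (nat_lit 163979) (nat_lit 30) (.e (nat_lit 573489) (nat_lit 14) (.e (nat_lit 73755) (nat_lit 8) (.e (nat_lit 557098) (nat_lit 13) (.e (nat_lit 172133) (nat_lit 15) (.e (nat_lit 1800) (nat_lit 119) (.e (nat_lit 516117) (nat_lit 1) (.e (nat_lit 164304) (nat_lit 226) .nil))))))))) (.g (nat_lit 1) (.e (nat_lit 22698) (nat_lit 0) .nil) .nil))))) 
(.nd (nat_lit 8) (.nd (nat_lit 9) 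
(.lf (nat_lit 451824) (.g (nat_lit 7040) (.e (nat_lit 2610) (nat_lit 163) (.e (nat_lit 163979) (nat_lit 30) (.e (nat_lit 573493) (nat_lit 15) (.e (nat_lit 81956) (nat_lit 23) (.e (nat_lit 98365) (nat_lit 26) (.e (nat_lit 426108) (nat_lit 1) (.e (nat_lit 164345) (nat_lit 240) .nil))))))) (.g (nat_lit 1) (.e (nat_lit 20553) (nat_lit 0) .nil) .nil))) 
(.lf (nat_lit 452336) (.g (nat_lit 3531) (.e (nat_lit 2612) (nat_lit 163) (.e (nat_lit 163978) (nat_lit 30) (.e (nat_lit 573489) (nat_lit 14) (.e (nat_lit 73755) (nat_lit 8) (.e (nat_lit 557097) (nat_lit 13) (.e (nat_lit 172131) (nat_lit 15) (.e (nat_lit 1800) (nat_lit 119) (.e (nat_lit 516120) (nat_lit 1) (.e (nat_lit 164304) (nat_lit 226) .nil))))))))) (.g (nat_lit 1) (.e (nat_lit 22517) (nat_lit 0) .nil) .nil)))) 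
(.nd (nat_lit 9) 
(.lf (nat_lit 452080) (.g (nat_lit 4269) (.e (nat_lit 2612) (nat_lit 163) (.e (nat_lit 163964) (nat_lit 25) (.e (nat_lit 532513) (nat_lit 3) (.e (nat_lit 114714) (nat_lit 22) (.e (nat_lit 90172) (nat_lit 14) (.e (nat_lit 180243) (nat_lit 5) (.e (nat_lit 532501) (nat_lit 1) (.e (nat_lit 57663) (nat_lit 152) .nil)))))))) (.g (nat_lit 1) (.e (nat_lit 22181) (nat_lit 0) .nil) .nil))) 
(.lf (nat_lit 452592) (.g (nat_lit 2411) (.e (nat_lit 2612) (nat_lit 163) (.e (nat_lit 164403) (nat_lit 256) (.e (nat_lit 57371) (nat_lit 2) (.e (nat_lit 90173) (nat_lit 14) (.e (nat_lit 180252) (nat_lit 10) (.e (nat_lit 573489) (nat_lit 14) (.e (nat_lit 73755) (nat_lit 8) (.e (nat_lit 557065) (nat_lit 9) .nil)))))))) (.g (nat_lit 1) (.e (nat_lit 23276) (nat_lit 0) .nil) .nil))))))))) 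
(.nd (nat_lit 4) (.nd (nat_lit 5) (.nd (nat_lit 6) (.nd (nat_lit 7) (.nd (nat_lit 8) 
(.nd (nat_lit 9) 
(.lf (nat_lit 451592) (.g (nat_lit 4988) (.e (nat_lit 2610) (nat_lit 163) (.e (nat_lit 163979) (nat_lit 30) (.e (nat_lit 573482) (nat_lit 13) (.e (nat_lit 65619) (nat_lit 10) (.e (nat_lit 344117) (nat_lit 21) (.e (nat_lit 516151) (nat_lit 9) (.e (nat_lit 426097) (nat_lit 1) (.e (nat_lit 164345) (nat_lit 240) .nil)))))))) (.g (nat_lit 1) (.e (nat_lit 20186) (nat_lit 0) .nil) .nil))) 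
(.lf (nat_lit 452104) (.g (nat_lit 3315) (.e (nat_lit 2612) (nat_lit 163) (.e (nat_lit 163977) (nat_lit 30) (.e (nat_lit 573482) (nat_lit 13) (.e (nat_lit 65619) (nat_lit 10) (.e (nat_lit 344117) (nat_lit 21) (.e (nat_lit 516152) (nat_lit 9) (.e (nat_lit 426144) (nat_lit 4) (.e (nat_lit 229663) (nat_lit 240) .nil)))))))) (.g (nat_lit 1) (.e (nat_lit 22222) (nat_lit 0) .nil) .nil)))) 
(.nd (nat_lit 9) 
(.lf (nat_lit 451848) (.g (nat_lit 6269) (.e (nat_lit 2610) (nat_lit 163) (.e (nat_lit 163979) (nat_lit 30) (.e (nat_lit 573493) (nat_lit 15) (.e (nat_lit 81956) (nat_lit 23) (.e (nat_lit 98368) (nat_lit 27) (.e (nat_lit 434209) (nat_lit 18) (.e (nat_lit 5548) (nat_lit 306) .nil))))))) (.g (nat_lit 1) (.e (nat_lit 20577) (nat_lit 0) .nil) .nil))) 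
(.lf (nat_lit 452360) (.g (nat_lit 2913) (.e (nat_lit 2612) (nat_lit 163) (.e (nat_lit 163978) (nat_lit 30) (.e (nat_lit 573489) (nat_lit 14) (.e (nat_lit 73755) (nat_lit 8) (.e (nat_lit 557098) (nat_lit 13) (.e (nat_lit 172136) (nat_lit 15) (.e (nat_lit 1784) (nat_lit 119) (.e (nat_lit 516117) (nat_lit 1) (.e (nat_lit 164304) (nat_lit 226) .nil))))))))) (.g (nat_lit 1) (.e (nat_lit 22541) (nat_lit 0) .nil) .nil))))) 
(.nd (nat_lit 8) (.nd (nat_lit 9) 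
(.lf (nat_lit 451720) (.g (nat_lit 4279) (.e (nat_lit 2610) (nat_lit 163) (.e (nat_lit 163979) (nat_lit 30) (.e (nat_lit 573493) (nat_lit 15) (.e (nat_lit 81951) (nat_lit 22) (.e (nat_lit 90185) (nat_lit 17) (.e (nat_lit 237582) (nat_lit 1) (.e (nat_lit 164345) (nat_lit 240) .nil))))))) (.g (nat_lit 1) (.e (nat_lit 20389) (nat_lit 0) .nil) .nil))) 
(.lf (nat_lit 452232) (.g (nat_lit 3365) (.e (nat_lit 2612) (nat_lit 163) (.e (nat_lit 163978) (nat_lit 30) (.e (nat_lit 573485) (nat_lit 13) (.e (nat_lit 65604) (nat_lit 9) (.e (nat_lit 336013) (nat_lit 2) (.e (nat_lit 90170) (nat_lit 13) (.e (nat_lit 172069) (nat_lit 4) (.e (nat_lit 229666) (nat_lit 240) .nil)))))))) (.g (nat_lit 1) (.e (nat_lit 22386) (nat_lit 0) .nil) .nil)))) 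
(.nd (nat_lit 9) 
(.lf (nat_lit 451976) (.g (nat_lit 4720) (.e (nat_lit 2611) (nat_lit 163) (.e (nat_lit 163978) (nat_lit 30) (.e (nat_lit 573485) (nat_lit 13) (.e (nat_lit 65604) (nat_lit 9) (.e (nat_lit 336013) (nat_lit 2) (.e (nat_lit 90170) (nat_lit 13) (.e (nat_lit 172059) (nat_lit 1) (.e (nat_lit 164345) (nat_lit 240) .nil)))))))) (.g (nat_lit 1) (.e (nat_lit 21404) (nat_lit 0) .nil) .nil))) 
(.lf (nat_lit 452488) (.g (nat_lit 1499) (.e (nat_lit 2612) (nat_lit 163) (.e (nat_lit 163979) (nat_lit 30) (.e (nat_lit 573491) (nat_lit 15) (.e (nat_lit 81954) (nat_lit 23) .nil)))) (.g (nat_lit 0) (.e (nat_lit 22723) (nat_lit 0) .nil) .nil)))))) (.nd (nat_lit 7) (.nd (nat_lit 8) (.nd (nat_lit 9) 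
(.lf (nat_lit 451656) (.g (nat_lit 2429) (.e (nat_lit 2610) (nat_lit 163) (.e (nat_lit 163979) (nat_lit 30) (.e (nat_lit 573491) (nat_lit 15) (.e (nat_lit 81954) (nat_lit 23) (.e (nat_lit 98360) (nat_lit 26) (.e (nat_lit 426109) (nat_lit 1) (.e (nat_lit 164345) (nat_lit 240) .nil))))))) (.g (nat_lit 1) (.e (nat_lit 20284) (nat_lit 0) .nil) .nil))) 
(.lf (nat_lit 452168) (.g (nat_lit 3030) (.e (nat_lit 2612) (nat_lit 163) (.e (nat_lit 163977) (nat_lit 30) (.e (nat_lit 573492) (nat_lit 15) (.e (nat_lit 81956) (nat_lit 23) (.e (nat_lit 106240) (nat_lit 26) (.e (nat_lit 426144) (nat_lit 4) (.e (nat_lit 229663) (nat_lit 240) .nil))))))) (.g (nat_lit 1) (.e (nat_lit 22298) (nat_lit 0) .nil) .nil)))) (.nd (nat_lit 9) 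
(.lf (nat_lit 451912) (.g (nat_lit 2943) (.e (nat_lit 2611) (nat_lit 163) (.e (nat_lit 163977) (nat_lit 30) (.e (nat_lit 573482) (nat_lit 13) (.e (nat_lit 65619) (nat_lit 10) (.e (nat_lit 344117) (nat_lit 21) (.e (nat_lit 516152) (nat_lit 9) (.e (nat_lit 426109) (nat_lit 1) (.e (nat_lit 164347) (nat_lit 240) .nil)))))))) (.g (nat_lit 1) (.e (nat_lit 21011) (nat_lit 0) .nil) .nil))) 
(.lf (nat_lit 452424) (.g (nat_lit 3513) (.e (nat_lit 2612) (nat_lit 163) (.e (nat_lit 163979) (nat_lit 30) (.e (nat_lit 573487) (nat_lit 14) (.e (nat_lit 73753) (nat_lit 8) (.e (nat_lit 557096) (nat_lit 13) (.e (nat_lit 172133) (nat_lit 15) (.e (nat_lit 1800) (nat_lit 119) (.e (nat_lit 516120) (nat_lit 1) (.e (nat_lit 164305) (nat_lit 226) .nil))))))))) (.g (nat_lit 1) (.e (nat_lit 22653) (nat_lit 0) .nil) .nil))))) 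
(.nd (nat_lit 8) (.nd (nat_lit 9) 
(.lf (nat_lit 451784) (.g (nat_lit 3530) (.e (nat_lit 2610) (nat_lit 163) (.e (nat_lit 163979) (nat_lit 30) (.e (nat_lit 573493) (nat_lit 15) (.e (nat_lit 81954) (nat_lit 23) (.e (nat_lit 98367) (nat_lit 27) (.e (nat_lit 434213) (nat_lit 18) (.e (nat_lit 5548) (nat_lit 306) .nil))))))) (.g (nat_lit 1) (.e (nat_lit 20470) (nat_lit 0) .nil) .nil))) 
(.lf (nat_lit 452296) (.g (nat_lit 3299) (.e (nat_lit 2612) (nat_lit 163) (.e (nat_lit 163978) (nat_lit 30) (.e (nat_lit 573487) (nat_lit 14) (.e (nat_lit 73753) (nat_lit 8) (.e (nat_lit 557103) (nat_lit 14) (.e (nat_lit 180244) (nat_lit 5) (.e (nat_lit 532499) (nat_lit 1) (.e (nat_lit 57659) (nat_lit 152) .nil)))))))) (.g (nat_lit 1) (.e (nat_lit 22464) (nat_lit 0) .nil) .nil)))) 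
(.nd (nat_lit 9) 
(.lf (nat_lit 452040) (.g (nat_lit 3092) (.e (nat_lit 2611) (nat_lit 163) (.e (nat_lit 163979) (nat_lit 30) (.e (nat_lit 573482) (nat_lit 13) (.e (nat_lit 65619) (nat_lit 10) (.e (nat_lit 344117) (nat_lit 21) (.e (nat_lit 516152) (nat_lit 9) (.e (nat_lit 426109) (nat_lit 1) (.e (nat_lit 164345) (nat_lit 240) .nil)))))))) (.g (nat_lit 1) (.e (nat_lit 21801) (nat_lit 0) .nil) .nil))) 
(.lf (nat_lit 452552) (.g (nat_lit 3106) (.e (nat_lit 2612) (nat_lit 163) (.e (nat_lit 163979) (nat_lit 30) (.e (nat_lit 573493) (nat_lit 15) (.e (nat_lit 81956) (nat_lit 23) (.e (nat_lit 98360) (nat_lit 26) (.e (nat_lit 426146) (nat_lit 4) (.e (nat_lit 229663) (nat_lit 240) .nil))))))) (.g (nat_lit 1) (.e (nat_lit 22815) (nat_lit 0) .nil) .nil))))))) 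
(.nd (nat_lit 6) (.nd (nat_lit 7) (.nd (nat_lit 8) (.nd (nat_lit 9) 
(.lf (nat_lit 451624) (.g (nat_lit 4061) (.e (nat_lit 2610) (nat_lit 163) (.e (nat_lit 163979) (nat_lit 30) (.e (nat_lit 573482) (nat_lit 13) (.e (nat_lit 65619) (nat_lit 10) (.e (nat_lit 344117) (nat_lit 21) (.e (nat_lit 516171) (nat_lit 13) (.e (nat_lit 458774) (nat_lit 18) (.e (nat_lit 5547) (nat_lit 306) .nil)))))))) (.g (nat_lit 1) (.e (nat_lit 20218) (nat_lit 0) .nil) .nil))) 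
(.lf (nat_lit 452136) (.g (nat_lit 3167) (.e (nat_lit 2612) (nat_lit 163) (.e (nat_lit 163977) (nat_lit 30) (.e (nat_lit 573489) (nat_lit 14) (.e (nat_lit 73755) (nat_lit 8) (.e (nat_lit 557096) (nat_lit 13) (.e (nat_lit 172133) (nat_lit 15) (.e (nat_lit 1800) (nat_lit 119) (.e (nat_lit 516120) (nat_lit 1) (.e (nat_lit 164305) (nat_lit 226) .nil))))))))) (.g (nat_lit 1) (.e (nat_lit 22258) (nat_lit 0) .nil) .nil)))) 
(.nd (nat_lit 9) 
(.lf (nat_lit 451880) (.g (nat_lit 4349) (.e (nat_lit 2610) (nat_lit 163) (.e (nat_lit 164402) (nat_lit 256) (.e (nat_lit 57371) (nat_lit 2) (.e (nat_lit 90174) (nat_lit 14) (.e (nat_lit 180243) (nat_lit 5) (.e (nat_lit 532515) (nat_lit 3) (.e (nat_lit 114716) (nat_lit 22) (.e (nat_lit 90140) (nat_lit 9) .nil)))))))) (.g (nat_lit 1) (.e (nat_lit 20958) (nat_lit 0) .nil) .nil))) 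
(.lf (nat_lit 452392) (.g (nat_lit 750) (.e (nat_lit 2612) (nat_lit 163) (.e (nat_lit 163978) (nat_lit 30) (.e (nat_lit 573493) (nat_lit 15) .nil))) (.g (nat_lit 0) (.e (nat_lit 22599) (nat_lit 0) .nil) .nil))))) (.nd (nat_lit 8) (.nd (nat_lit 9) 
(.lf (nat_lit 451752) (.g (nat_lit 4261) (.e (nat_lit 2610) (nat_lit 163) (.e (nat_lit 163979) (nat_lit 30) (.e (nat_lit 573493) (nat_lit 15) (.e (nat_lit 81954) (nat_lit 23) (.e (nat_lit 98354) (nat_lit 26) (.e (nat_lit 426109) (nat_lit 1) (.e (nat_lit 164346) (nat_lit 240) .nil))))))) (.g (nat_lit 1) (.e (nat_lit 20436) (nat_lit 0) .nil) .nil))) 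
(.lf (nat_lit 452264) (.g (nat_lit 3812) (.e (nat_lit 2612) (nat_lit 163) (.e (nat_lit 163978) (nat_lit 30) (.e (nat_lit 573487) (nat_lit 14) (.e (nat_lit 73753) (nat_lit 8) (.e (nat_lit 557097) (nat_lit 13) (.e (nat_lit 172133) (nat_lit 15) (.e (nat_lit 1800) (nat_lit 119) (.e (nat_lit 516120) (nat_lit 1) (.e (nat_lit 164304) (nat_lit 226) .nil))))))))) (.g (nat_lit 1) (.e (nat_lit 22425) (nat_lit 0) .nil) .nil)))) 
(.nd (nat_lit 9) 
(.lf (nat_lit 452008) (.g (nat_lit 5218) (.e (nat_lit 2611) (nat_lit 163) (.e (nat_lit 163978) (nat_lit 30) (.e (nat_lit 573485) (nat_lit 13) (.e (nat_lit 65619) (nat_lit 10) (.e (nat_lit 344117) (nat_lit 21) (.e (nat_lit 516159) (nat_lit 10) (.e (nat_lit 434209) (nat_lit 18) (.e (nat_lit 5548) (nat_lit 306) .nil)))))))) (.g (nat_lit 1) (.e (nat_lit 21455) (nat_lit 0) .nil) .nil))) 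
(.lf (nat_lit 452520) (.g (nat_lit 4632) (.e (nat_lit 2612) (nat_lit 163) (.e (nat_lit 163979) (nat_lit 30) (.e (nat_lit 573493) (nat_lit 15) (.e (nat_lit 81953) (nat_lit 22) (.e (nat_lit 90167) (nat_lit 13) (.e (nat_lit 172070) (nat_lit 4) (.e (nat_lit 229666) (nat_lit 240) .nil))))))) (.g (nat_lit 1) (.e (nat_lit 22778) (nat_lit 0) .nil) .nil)))))) 
(.nd (nat_lit 7) (.nd (nat_lit 8) (.nd (nat_lit 9) 
(.lf (nat_lit 451688) (.g (nat_lit 3309) (.e (nat_lit 2610) (nat_lit 163) (.e (nat_lit 163979) (nat_lit 30) (.e (nat_lit 573492) (nat_lit 15) (.e (nat_lit 81956) (nat_lit 23) (.e (nat_lit 98356) (nat_lit 26) (.e (nat_lit 433920) (nat_lit 1) (.e (nat_lit 164345) (nat_lit 240) .nil))))))) (.g (nat_lit 1) (.e (nat_lit 20341) (nat_lit 0) .nil) .nil))) 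
(.lf (nat_lit 452200) (.g (nat_lit 2385) (.e (nat_lit 2612) (nat_lit 163) (.e (nat_lit 163977) (nat_lit 30) (.e (nat_lit 573493) (nat_lit 15) (.e (nat_lit 81956) (nat_lit 23) (.e (nat_lit 98366) (nat_lit 27) .nil))))) (.g (nat_lit 0) (.e (nat_lit 22340) (nat_lit 0) .nil) .nil)))) (.nd (nat_lit 9) 
(.lf (nat_lit 451944) (.g (nat_lit 3689) (.e (nat_lit 2611) (nat_lit 163) (.e (nat_lit 163978) (nat_lit 30) (.e (nat_lit 573479) (nat_lit 13) (.e (nat_lit 65604) (nat_lit 9) (.e (nat_lit 336028) (nat_lit 3) (.e (nat_lit 98367) (nat_lit 27) (.e (nat_lit 434209) (nat_lit 18) (.e (nat_lit 5547) (nat_lit 306) .nil)))))))) (.g (nat_lit 1) (.e (nat_lit 21329) (nat_lit 0) .nil) .nil))) 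
(.lf (nat_lit 452456) (.g (nat_lit 4057) (.e (nat_lit 2612) (nat_lit 163) (.e (nat_lit 163979) (nat_lit 30) (.e (nat_lit 573489) (nat_lit 14) (.e (nat_lit 73755) (nat_lit 8) (.e (nat_lit 557096) (nat_lit 13) (.e (nat_lit 172133) (nat_lit 15) (.e (nat_lit 1800) (nat_lit 119) (.e (nat_lit 516117) (nat_lit 1) (.e (nat_lit 164304) (nat_lit 226) .nil))))))))) (.g (nat_lit 1) (.e (nat_lit 22690) (nat_lit 0) .nil) .nil))))) 
(.nd (nat_lit 8) (.nd (nat_lit 9) 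
(.lf (nat_lit 451816) (.g (nat_lit 6698) (.e (nat_lit 2610) (nat_lit 163) (.e (nat_lit 163979) (nat_lit 30) (.e (nat_lit 573493) (nat_lit 15) (.e (nat_lit 81956) (nat_lit 23) (.e (nat_lit 98364) (nat_lit 26) (.e (nat_lit 426107) (nat_lit 1) (.e (nat_lit 164347) (nat_lit 240) .nil))))))) (.g (nat_lit 1) (.e (nat_lit 20545) (nat_lit 0) .nil) .nil))) 
(.lf (nat_lit 452328) (.g (nat_lit 3497) (.e (nat_lit 2612) (nat_lit 163) (.e (nat_lit 163978) (nat_lit 30) (.e (nat_lit 573489) (nat_lit 14) (.e (nat_lit 73755) (nat_lit 8) (.e (nat_lit 557096) (nat_lit 13) (.e (nat_lit 179968) (nat_lit 18) (.e (nat_lit 98333) (nat_lit 18) (.e (nat_lit 164304) (nat_lit 226) .nil)))))))) (.g (nat_lit 1) (.e (nat_lit 22509) (nat_lit 0) .nil) .nil)))) 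
(.nd (nat_lit 9) 
(.lf (nat_lit 452072) (.g (nat_lit 2345) (.e (nat_lit 2611) (nat_lit 163) (.e (nat_lit 164403) (nat_lit 256) (.e (nat_lit 57373) (nat_lit 2) (.e (nat_lit 90174) (nat_lit 14) (.e (nat_lit 180243) (nat_lit 5) .nil))))) (.g (nat_lit 0) (.e (nat_lit 22161) (nat_lit 0) .nil) .nil))) 
(.lf (nat_lit 452584) (.g (nat_lit 3912) (.e (nat_lit 2612) (nat_lit 163) (.e (nat_lit 164396) (nat_lit 256) (.e (nat_lit 57371) (nat_lit 2) (.e (nat_lit 90174) (nat_lit 14) (.e (nat_lit 180243) (nat_lit 5) (.e (nat_lit 532513) (nat_lit 3) (.e (nat_lit 114714) (nat_lit 22) (.e (nat_lit 90130) (nat_lit 9) .nil)))))))) (.g (nat_lit 1) (.e (nat_lit 23268) (nat_lit 0) .nil) .nil)))))))) 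
(.nd (nat_lit 5) (.nd (nat_lit 6) (.nd (nat_lit 7) (.nd (nat_lit 8) (.nd (nat_lit 9) 
(.lf (nat_lit 451608) (.g (nat_lit 4421) (.e (nat_lit 2610) (nat_lit 163) (.e (nat_lit 163979) (nat_lit 30) (.e (nat_lit 573482) (nat_lit 13) (.e (nat_lit 65619) (nat_lit 10) (.e (nat_lit 344117) (nat_lit 21) (.e (nat_lit 516159) (nat_lit 10) (.e (nat_lit 434209) (nat_lit 18) (.e (nat_lit 5546) (nat_lit 306) .nil)))))))) (.g (nat_lit 1) (.e (nat_lit 20202) (nat_lit 0) .nil) .nil))) 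
(.lf (nat_lit 452120) (.g (nat_lit 3225) (.e (nat_lit 2612) (nat_lit 163) (.e (nat_lit 163977) (nat_lit 30) (.e (nat_lit 573487) (nat_lit 14) (.e (nat_lit 73753) (nat_lit 8) (.e (nat_lit 557096) (nat_lit 13) (.e (nat_lit 172133) (nat_lit 15) (.e (nat_lit 1800) (nat_lit 119) (.e (nat_lit 516120) (nat_lit 1) (.e (nat_lit 164304) (nat_lit 226) .nil))))))))) (.g (nat_lit 1) (.e (nat_lit 22239) (nat_lit 0) .nil) .nil)))) 
(.nd (nat_lit 9) 
(.lf (nat_lit 451864) (.g (nat_lit 2809) (.e (nat_lit 2610) (nat_lit 163) (.e (nat_lit 164347) (nat_lit 240) (.e (nat_lit 2638) (nat_lit 165) (.e (nat_lit 188160) (nat_lit 38) (.e (nat_lit 122936) (nat_lit 23) (.e (nat_lit 516131) (nat_lit 3) (.e (nat_lit 221218) (nat_lit 24) (.e (nat_lit 213016) (nat_lit 9) .nil)))))))) (.g (nat_lit 1) (.e (nat_lit 20887) (nat_lit 0) .nil) .nil))) 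
(.lf (nat_lit 452376) (.g (nat_lit 2854) (.e (nat_lit 2612) (nat_lit 163) (.e (nat_lit 163978) (nat_lit 30) (.e (nat_lit 573489) (nat_lit 14) (.e (nat_lit 73755) (nat_lit 8) (.e (nat_lit 557103) (nat_lit 14) (.e (nat_lit 180244) (nat_lit 5) (.e (nat_lit 532500) (nat_lit 1) (.e (nat_lit 57663) (nat_lit 152) .nil)))))))) (.g (nat_lit 1) (.e (nat_lit 22557) (nat_lit 0) .nil) .nil))))) 
(.nd (nat_lit 8) (.nd (nat_lit 9) 
(.lf (nat_lit 451736) (.g (nat_lit 4351) (.e (nat_lit 2610) (nat_lit 163) (.e (nat_lit 163979) (nat_lit 30) (.e (nat_lit 573493) (nat_lit 15) (.e (nat_lit 81953) (nat_lit 22) (.e (nat_lit 90171) (nat_lit 14) (.e (nat_lit 180229) (nat_lit 0) (.e (nat_lit 5548) (nat_lit 306) .nil))))))) (.g (nat_lit 1) (.e (nat_lit 20420) (nat_lit 0) .nil) .nil))) 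
(.lf (nat_lit 452248) (.g (nat_lit 5893) (.e (nat_lit 2612) (nat_lit 163) (.e (nat_lit 163978) (nat_lit 30) (.e (nat_lit 573485) (nat_lit 13) (.e (nat_lit 65619) (nat_lit 10) (.e (nat_lit 344117) (nat_lit 21) (.e (nat_lit 516151) (nat_lit 9) (.e (nat_lit 426142) (nat_lit 4) (.e (nat_lit 229663) (nat_lit 240) .nil)))))))) (.g (nat_lit 1) (.e (nat_lit 22404) (nat_lit 0) .nil) .nil)))) 
(.nd (nat_lit 9) 
(.lf (nat_lit 451992) (.g (nat_lit 5470) (.e (nat_lit 2611) (nat_lit 163) (.e (nat_lit 163978) (nat_lit 30) (.e (nat_lit 573485) (nat_lit 13) (.e (nat_lit 65604) (nat_lit 9) (.e (nat_lit 336028) (nat_lit 3) (.e (nat_lit 98367) (nat_lit 27) (.e (nat_lit 434209) (nat_lit 18) (.e (nat_lit 5548) (nat_lit 306) .nil)))))))) (.g (nat_lit 1) (.e (nat_lit 21437) (nat_lit 0) .nil) .nil))) 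
(.lf (nat_lit 452504) (.g (nat_lit 4349) (.e (nat_lit 2612) (nat_lit 163) (.e (nat_lit 163979) (nat_lit 30) (.e (nat_lit 573492) (nat_lit 15) (.e (nat_lit 81956) (nat_lit 23) (.e (nat_lit 98360) (nat_lit 26) (.e (nat_lit 426143) (nat_lit 4) (.e (nat_lit 229663) (nat_lit 240) .nil))))))) (.g (nat_lit 1) (.e (nat_lit 22751) (nat_lit 0) .nil) .nil)))))) 
(.nd (nat_lit 7) (.nd (nat_lit 8) (.nd (nat_lit 9) 
(.lf (nat_lit 451672) (.g (nat_lit 2632) (.e (nat_lit 2610) (nat_lit 163) (.e (nat_lit 163979) (nat_lit 30) (.e (nat_lit 573491) (nat_lit 15) (.e (nat_lit 81954) (nat_lit 23) (.e (nat_lit 98367) (nat_lit 27) (.e (nat_lit 434208) (nat_lit 18) (.e (nat_lit 5537) (nat_lit 306) .nil))))))) (.g (nat_lit 1) (.e (nat_lit 20300) (nat_lit 0) .nil) .nil))) 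
(.lf (nat_lit 452184) (.g (nat_lit 4386) (.e (nat_lit 2612) (nat_lit 163) (.e (nat_lit 163977) (nat_lit 30) (.e (nat_lit 573493) (nat_lit 15) (.e (nat_lit 81953) (nat_lit 22) (.e (nat_lit 90172) (nat_lit 14) (.e (nat_lit 180233) (nat_lit 0) (.e (nat_lit 5448) (nat_lit 306) .nil))))))) (.g (nat_lit 1) (.e (nat_lit 22321) (nat_lit 0) .nil) .nil)))) (.nd (nat_lit 9) 
(.lf (nat_lit 451928) (.g (nat_lit 3771) (.e (nat_lit 2611) (nat_lit 163) (.e (nat_lit 163977) (nat_lit 30) (.e (nat_lit 573485) (nat_lit 13) (.e (nat_lit 65619) (nat_lit 10) (.e (nat_lit 344117) (nat_lit 21) (.e (nat_lit 516151) (nat_lit 9) (.e (nat_lit 426097) (nat_lit 1) (.e (nat_lit 164346) (nat_lit 240) .nil)))))))) (.g (nat_lit 1) (.e (nat_lit 21053) (nat_lit 0) .nil) .nil))) 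
(.lf (nat_lit 452440) (.g (nat_lit 2701) (.e (nat_lit 2612) (nat_lit 163) (.e (nat_lit 163979) (nat_lit 30) (.e (nat_lit 573487) (nat_lit 14) (.e (nat_lit 73753) (nat_lit 8) (.e (nat_lit 557101) (nat_lit 13) (.e (nat_lit 172136) (nat_lit 15) (.e (nat_lit 1800) (nat_lit 119) (.e (nat_lit 516117) (nat_lit 1) (.e (nat_lit 164305) (nat_lit 226) .nil))))))))) (.g (nat_lit 1) (.e (nat_lit 22670) (nat_lit 0) .nil) .nil))))) 
(.nd (nat_lit 8) (.nd (nat_lit 9) 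
(.lf (nat_lit 451800) (.g (nat_lit 3782) (.e (nat_lit 2610) (nat_lit 163) (.e (nat_lit 163979) (nat_lit 30) (.e (nat_lit 573493) (nat_lit 15) (.e (nat_lit 81956) (nat_lit 23) (.e (nat_lit 98359) (nat_lit 26) (.e (nat_lit 426104) (nat_lit 1) (.e (nat_lit 164347) (nat_lit 240) .nil))))))) (.g (nat_lit 1) (.e (nat_lit 20529) (nat_lit 0) .nil) .nil))) 
(.lf (nat_lit 452312) (.g (nat_lit 4379) (.e (nat_lit 2612) (nat_lit 163) (.e (nat_lit 163978) (nat_lit 30) (.e (nat_lit 573489) (nat_lit 14) (.e (nat_lit 73754) (nat_lit 8) (.e (nat_lit 557101) (nat_lit 13) (.e (nat_lit 172136) (nat_lit 15) (.e (nat_lit 1800) (nat_lit 119) (.e (nat_lit 516117) (nat_lit 1) (.e (nat_lit 164304) (nat_lit 226) .nil))))))))) (.g (nat_lit 1) (.e (nat_lit 22480) (nat_lit 0) .nil) .nil)))) 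
(.nd (nat_lit 9) 
(.lf (nat_lit 452056) (.g (nat_lit 1924) (.e (nat_lit 2611) (nat_lit 163) (.e (nat_lit 164183) (nat_lit 154) (.e (nat_lit 57411) (nat_lit 12) (.e (nat_lit 336019) (nat_lit 3) (.e (nat_lit 98380) (nat_lit 31) .nil))))) (.g (nat_lit 0) (.e (nat_lit 22082) (nat_lit 0) .nil) .nil))) 
(.lf (nat_lit 452568) (.g (nat_lit 3804) (.e (nat_lit 2612) (nat_lit 163) (.e (nat_lit 164326) (nat_lit 230) (.e (nat_lit 163903) (nat_lit 12) (.e (nat_lit 426566) (nat_lit 34) (.e (nat_lit 393268) (nat_lit 23) (.e (nat_lit 426428) (nat_lit 17) (.e (nat_lit 90134) (nat_lit 9) .nil))))))) (.g (nat_lit 1) (.e (nat_lit 23016) (nat_lit 0) .nil) .nil))))))) 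
(.nd (nat_lit 6) (.nd (nat_lit 7) (.nd (nat_lit 8) (.nd (nat_lit 9) 
(.lf (nat_lit 451640) (.g (nat_lit 3702) (.e (nat_lit 2610) (nat_lit 163) (.e (nat_lit 163979) (nat_lit 30) (.e (nat_lit 573491) (nat_lit 15) (.e (nat_lit 81951) (nat_lit 22) (.e (nat_lit 90185) (nat_lit 17) (.e (nat_lit 237582) (nat_lit 1) (.e (nat_lit 164345) (nat_lit 240) .nil))))))) (.g (nat_lit 1) (.e (nat_lit 20267) (nat_lit 0) .nil) .nil))) 
(.lf (nat_lit 452152) (.g (nat_lit 2110) (.e (nat_lit 2612) (nat_lit 163) (.e (nat_lit 163977) (nat_lit 30) (.e (nat_lit 573491) (nat_lit 15) (.e (nat_lit 81954) (nat_lit 23) (.e (nat_lit 98359) (nat_lit 26) (.e (nat_lit 426142) (nat_lit 4) (.e (nat_lit 229665) (nat_lit 240) .nil))))))) (.g (nat_lit 1) (.e (nat_lit 22277) (nat_lit 0) .nil) .nil)))) (.nd (nat_lit 9) 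
(.lf (nat_lit 451896) (.g (nat_lit 1849) (.e (nat_lit 2611) (nat_lit 163) (.e (nat_lit 163977) (nat_lit 30) (.e (nat_lit 573482) (nat_lit 13) (.e (nat_lit 65604) (nat_lit 9) (.e (nat_lit 336013) (nat_lit 2) (.e (nat_lit 90170) (nat_lit 13) (.e (nat_lit 172042) (nat_lit 0) (.e (nat_lit 2458) (nat_lit 157) (.e (nat_lit 5543) (nat_lit 306) .nil))))))))) (.g (nat_lit 1) (.e (nat_lit 20987) (nat_lit 0) .nil) .nil))) 
(.lf (nat_lit 452408) (.g (nat_lit 2766) (.e (nat_lit 2612) (nat_lit 163) (.e (nat_lit 163979) (nat_lit 30) (.e (nat_lit 573482) (nat_lit 13) (.e (nat_lit 65619) (nat_lit 10) (.e (nat_lit 344117) (nat_lit 21) (.e (nat_lit 516143) (nat_lit 9) (.e (nat_lit 426142) (nat_lit 4) (.e (nat_lit 229663) (nat_lit 240) .nil)))))))) (.g (nat_lit 1) (.e (nat_lit 22632) (nat_lit 0) .nil) .nil))))) 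
(.nd (nat_lit 8) (.nd (nat_lit 9) 
(.lf (nat_lit 451768) (.g (nat_lit 3717) (.e (nat_lit 2610) (nat_lit 163) (.e (nat_lit 163979) (nat_lit 30) (.e (nat_lit 573493) (nat_lit 15) (.e (nat_lit 81954) (nat_lit 23) (.e (nat_lit 98364) (nat_lit 26) .nil))))) (.g (nat_lit 0) (.e (nat_lit 20454) (nat_lit 0) .nil) .nil))) 
(.lf (nat_lit 452280) (.g (nat_lit 3879) (.e (nat_lit 2612) (nat_lit 163) (.e (nat_lit 163978) (nat_lit 30) (.e (nat_lit 573487) (nat_lit 14) (.e (nat_lit 73753) (nat_lit 8) (.e (nat_lit 557098) (nat_lit 13) (.e (nat_lit 179968) (nat_lit 15) (.e (nat_lit 1800) (nat_lit 119) (.e (nat_lit 516120) (nat_lit 1) (.e (nat_lit 164304) (nat_lit 226) .nil))))))))) (.g (nat_lit 1) (.e (nat_lit 22444) (nat_lit 0) .nil) .nil)))) 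
(.nd (nat_lit 9) 
(.lf (nat_lit 452024) (.g (nat_lit 4354) (.e (nat_lit 2611) (nat_lit 163) (.e (nat_lit 163979) (nat_lit 30) (.e (nat_lit 573482) (nat_lit 13) (.e (nat_lit 65604) (nat_lit 9) (.e (nat_lit 336013) (nat_lit 2) (.e (nat_lit 90170) (nat_lit 13) (.e (nat_lit 172061) (nat_lit 1) (.e (nat_lit 164347) (nat_lit 240) .nil)))))))) (.g (nat_lit 1) (.e (nat_lit 21773) (nat_lit 0) .nil) .nil))) 
(.lf (nat_lit 452536) (.g (nat_lit 3847) (.e (nat_lit 2612) (nat_lit 163) (.e (nat_lit 163979) (nat_lit 30) (.e (nat_lit 573493) (nat_lit 15) (.e (nat_lit 81954) (nat_lit 23) (.e (nat_lit 98359) (nat_lit 26) (.e (nat_lit 426142) (nat_lit 4) (.e (nat_lit 229665) (nat_lit 240) .nil))))))) (.g (nat_lit 1) (.e (nat_lit 22796) (nat_lit 0) .nil) .nil)))))) 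
(.nd (nat_lit 7) (.nd (nat_lit 8) (.nd (nat_lit 9) 
(.lf (nat_lit 451704) (.g (nat_lit 2024) (.e (nat_lit 2610) (nat_lit 163) (.e (nat_lit 163979) (nat_lit 30) (.e (nat_lit 573493) (nat_lit 15) (.e (nat_lit 81951) (nat_lit 22) .nil)))) (.g (nat_lit 0) (.e (nat_lit 20373) (nat_lit 0) .nil) .nil))) 
(.lf (nat_lit 452216) (.g (nat_lit 4359) (.e (nat_lit 2612) (nat_lit 163) (.e (nat_lit 163978) (nat_lit 30) (.e (nat_lit 573484) (nat_lit 13) (.e (nat_lit 65610) (nat_lit 10) (.e (nat_lit 344117) (nat_lit 21) (.e (nat_lit 516145) (nat_lit 9) (.e (nat_lit 433920) (nat_lit 4) (.e (nat_lit 229663) (nat_lit 240) .nil)))))))) (.g (nat_lit 1) (.e (nat_lit 22368) (nat_lit 0) .nil) .nil)))) 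
(.nd (nat_lit 9) 
(.lf (nat_lit 451960) (.g (nat_lit 5012) (.e (nat_lit 2611) (nat_lit 163) (.e (nat_lit 163978) (nat_lit 30) (.e (nat_lit 573479) (nat_lit 13) (.e (nat_lit 65619) (nat_lit 10) (.e (nat_lit 344117) (nat_lit 21) (.e (nat_lit 516159) (nat_lit 10) (.e (nat_lit 434209) (nat_lit 18) (.e (nat_lit 5548) (nat_lit 306) .nil)))))))) (.g (nat_lit 1) (.e (nat_lit 21345) (nat_lit 0) .nil) .nil))) 
(.lf (nat_lit 452472) (.g (nat_lit 3031) (.e (nat_lit 2612) (nat_lit 163) (.e (nat_lit 163979) (nat_lit 30) (.e (nat_lit 573489) (nat_lit 14) (.e (nat_lit 73755) (nat_lit 8) (.e (nat_lit 557098) (nat_lit 13) (.e (nat_lit 179968) (nat_lit 15) (.e (nat_lit 1800) (nat_lit 119) (.e (nat_lit 516117) (nat_lit 1) (.e (nat_lit 164305) (nat_lit 226) .nil))))))))) (.g (nat_lit 1) (.e (nat_lit 22706) (nat_lit 0) .nil) .nil))))) 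
(.nd (nat_lit 8) (.nd (nat_lit 9) 
(.lf (nat_lit 451832) (.g (nat_lit 4560) (.e (nat_lit 2610) (nat_lit 163) (.e (nat_lit 163979) (nat_lit 30) (.e (nat_lit 573493) (nat_lit 15) (.e (nat_lit 81956) (nat_lit 23) (.e (nat_lit 98367) (nat_lit 27) (.e (nat_lit 434209) (nat_lit 18) (.e (nat_lit 5546) (nat_lit 306) .nil))))))) (.g (nat_lit 1) (.e (nat_lit 20561) (nat_lit 0) .nil) .nil))) 
(.lf (nat_lit 452344) (.g (nat_lit 4183) (.e (nat_lit 2612) (nat_lit 163) (.e (nat_lit 163978) (nat_lit 30) (.e (nat_lit 573489) (nat_lit 14) (.e (nat_lit 73755) (nat_lit 8) (.e (nat_lit 557097) (nat_lit 13) (.e (nat_lit 179968) (nat_lit 18) (.e (nat_lit 98333) (nat_lit 18) (.e (nat_lit 164304) (nat_lit 226) .nil)))))))) (.g (nat_lit 1) (.e (nat_lit 22525) (nat_lit 0) .nil) .nil)))) 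
(.nd (nat_lit 9) 
(.lf (nat_lit 452088) (.g (nat_lit 3994) (.e (nat_lit 2612) (nat_lit 163) (.e (nat_lit 163964) (nat_lit 25) (.e (nat_lit 532513) (nat_lit 3) (.e (nat_lit 114718) (nat_lit 23) (.e (nat_lit 98384) (nat_lit 32) (.e (nat_lit 475177) (nat_lit 24) (.e (nat_lit 516117) (nat_lit 1) (.e (nat_lit 164305) (nat_lit 226) .nil)))))))) (.g (nat_lit 1) (.e (nat_lit 22189) (nat_lit 0) .nil) .nil))) 
(.lf (nat_lit 452600) (.g (nat_lit 3166) (.e (nat_lit 2612) (nat_lit 163) (.e (nat_lit 164403) (nat_lit 256) (.e (nat_lit 57373) (nat_lit 2) (.e (nat_lit 90174) (nat_lit 14) (.e (nat_lit 180243) (nat_lit 5) (.e (nat_lit 532513) (nat_lit 3) (.e (nat_lit 114714) (nat_lit 22) (.e (nat_lit 90134) (nat_lit 9) .nil)))))))) (.g (nat_lit 1) (.e (nat_lit 23284) (nat_lit 0) .nil) .nil)))))))))) 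
(.nd (nat_lit 3) (.nd (nat_lit 4) (.nd (nat_lit 5) (.nd (nat_lit 6) (.nd (nat_lit 7) 
(.nd (nat_lit 8) (.nd (nat_lit 9) 
(.lf (nat_lit 451588) (.g (nat_lit 2568) (.e (nat_lit 2610) (nat_lit 163) (.e (nat_lit 163979) (nat_lit 30) (.e (nat_lit 573482) (nat_lit 13) (.e (nat_lit 65619) (nat_lit 10) (.e (nat_lit 344117) (nat_lit 21) (.e (nat_lit 516143) (nat_lit 9) (.e (nat_lit 426109) (nat_lit 1) (.e (nat_lit 164348) (nat_lit 240) .nil)))))))) (.g (nat_lit 1) (.e (nat_lit 20182) (nat_lit 0) .nil) .nil))) 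
(.lf (nat_lit 452100) (.g (nat_lit 2495) (.e (nat_lit 2612) (nat_lit 163) (.e (nat_lit 163977) (nat_lit 30) (.e (nat_lit 573482) (nat_lit 13) (.e (nat_lit 65604) (nat_lit 9) (.e (nat_lit 336028) (nat_lit 3) (.e (nat_lit 98367) (nat_lit 27) (.e (nat_lit 434215) (nat_lit 18) (.e (nat_lit 5448) (nat_lit 306) .nil)))))))) (.g (nat_lit 1) (.e (nat_lit 22218) (nat_lit 0) .nil) .nil)))) (.nd (nat_lit 9) 
(.lf (nat_lit 451844) (.g (nat_lit 4063) (.e (nat_lit 2610) (nat_lit 163) (.e (nat_lit 163979) (nat_lit 30) (.e (nat_lit 573493) (nat_lit 15) (.e (nat_lit 81956) (nat_lit 23) (.e (nat_lit 98368) (nat_lit 27) (.e (nat_lit 434207) (nat_lit 18) (.e (nat_lit 5537) (nat_lit 306) .nil))))))) (.g (nat_lit 1) (.e (nat_lit 20573) (nat_lit 0) .nil) .nil))) 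
(.lf (nat_lit 452356) (.g (nat_lit 6770) (.e (nat_lit 2612) (nat_lit 163) (.e (nat_lit 163978) (nat_lit 30) (.e (nat_lit 573489) (nat_lit 14) (.e (nat_lit 73755) (nat_lit 8) (.e (nat_lit 557098) (nat_lit 13) (.e (nat_lit 172133) (nat_lit 15) (.e (nat_lit 1800) (nat_lit 119) (.e (nat_lit 516117) (nat_lit 1) (.e (nat_lit 164304) (nat_lit 226) .nil))))))))) (.g (nat_lit 1) (.e (nat_lit 22537) (nat_lit 0) .nil) .nil))))) 
(.nd (nat_lit 8) (.nd (nat_lit 9) 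
(.lf (nat_lit 451716) (.g (nat_lit 4015) (.e (nat_lit 2610) (nat_lit 163) (.e (nat_lit 163979) (nat_lit 30) (.e (nat_lit 573493) (nat_lit 15) (.e (nat_lit 81951) (nat_lit 22) (.e (nat_lit 90172) (nat_lit 14) (.e (nat_lit 180229) (nat_lit 0) (.e (nat_lit 5546) (nat_lit 306) .nil))))))) (.g (nat_lit 1) (.e (nat_lit 20385) (nat_lit 0) .nil) .nil))) 
(.lf (nat_lit 452228) (.g (nat_lit 5860) (.e (nat_lit 2612) (nat_lit 163) (.e (nat_lit 163978) (nat_lit 30) (.e (nat_lit 573485) (nat_lit 13) (.e (nat_lit 65604) (nat_lit 9) (.e (nat_lit 336013) (nat_lit 2) (.e (nat_lit 90170) (nat_lit 13) (.e (nat_lit 172068) (nat_lit 4) (.e (nat_lit 229663) (nat_lit 240) .nil)))))))) (.g (nat_lit 1) (.e (nat_lit 22382) (nat_lit 0) .nil) .nil)))) 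
(.nd (nat_lit 9) 
(.lf (nat_lit 451972) (.g (nat_lit 2705) (.e (nat_lit 2611) (nat_lit 163) (.e (nat_lit 163978) (nat_lit 30) (.e (nat_lit 573479) (nat_lit 13) (.e (nat_lit 65619) (nat_lit 10) (.e (nat_lit 344129) (nat_lit 26) .nil))))) (.g (nat_lit 0) (.e (nat_lit 21358) (nat_lit 0) .nil) .nil))) 
(.lf (nat_lit 452484) (.g (nat_lit 4033) (.e (nat_lit 2612) (nat_lit 163) (.e (nat_lit 163979) (nat_lit 30) (.e (nat_lit 573491) (nat_lit 15) (.e (nat_lit 81951) (nat_lit 22) (.e (nat_lit 90170) (nat_lit 13) (.e (nat_lit 172070) (nat_lit 4) (.e (nat_lit 229666) (nat_lit 240) .nil))))))) (.g (nat_lit 1) (.e (nat_lit 22718) (nat_lit 0) .nil) .nil)))))) 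
(.nd (nat_lit 7) (.nd (nat_lit 8) (.nd (nat_lit 9) 
(.lf (nat_lit 451652) (.g (nat_lit 3008) (.e (nat_lit 2610) (nat_lit 163) (.e (nat_lit 163979) (nat_lit 30) (.e (nat_lit 573491) (nat_lit 15) (.e (nat_lit 81954) (nat_lit 23) (.e (nat_lit 98359) (nat_lit 26) (.e (nat_lit 426097) (nat_lit 1) (.e (nat_lit 164346) (nat_lit 240) .nil))))))) (.g (nat_lit 1) (.e (nat_lit 20280) (nat_lit 0) .nil) .nil))) 
(.lf (nat_lit 452164) (.g (nat_lit 3081) (.e (nat_lit 2612) (nat_lit 163) (.e (nat_lit 163977) (nat_lit 30) (.e (nat_lit 573492) (nat_lit 15) (.e (nat_lit 81956) (nat_lit 23) (.e (nat_lit 98357) (nat_lit 26) (.e (nat_lit 426141) (nat_lit 4) (.e (nat_lit 229663) (nat_lit 240) .nil))))))) (.g (nat_lit 1) (.e (nat_lit 22294) (nat_lit 0) .nil) .nil)))) (.nd (nat_lit 9) 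
(.lf (nat_lit 451908) (.g (nat_lit 4163) (.e (nat_lit 2611) (nat_lit 163) (.e (nat_lit 163977) (nat_lit 30) (.e (nat_lit 573482) (nat_lit 13) (.e (nat_lit 65619) (nat_lit 10) (.e (nat_lit 344117) (nat_lit 21) (.e (nat_lit 516151) (nat_lit 9) (.e (nat_lit 426097) (nat_lit 1) (.e (nat_lit 164345) (nat_lit 240) .nil)))))))) (.g (nat_lit 1) (.e (nat_lit 21007) (nat_lit 0) .nil) .nil))) 
(.lf (nat_lit 452420) (.g (nat_lit 2508) (.e (nat_lit 2612) (nat_lit 163) (.e (nat_lit 163979) (nat_lit 30) (.e (nat_lit 573482) (nat_lit 13) (.e (nat_lit 65619) (nat_lit 10) (.e (nat_lit 344117) (nat_lit 21) (.e (nat_lit 516161) (nat_lit 10) (.e (nat_lit 434215) (nat_lit 18) (.e (nat_lit 5448) (nat_lit 306) .nil)))))))) (.g (nat_lit 1) (.e (nat_lit 22644) (nat_lit 0) .nil) .nil))))) 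
(.nd (nat_lit 8) (.nd (nat_lit 9) 
(.lf (nat_lit 451780) (.g (nat_lit 4037) (.e (nat_lit 2610) (nat_lit 163) (.e (nat_lit 163979) (nat_lit 30) (.e (nat_lit 573493) (nat_lit 15) (.e (nat_lit 81954) (nat_lit 23) (.e (nat_lit 98367) (nat_lit 27) (.e (nat_lit 434202) (nat_lit 18) (.e (nat_lit 5537) (nat_lit 306) .nil))))))) (.g (nat_lit 1) (.e (nat_lit 20466) (nat_lit 0) .nil) .nil))) 
(.lf (nat_lit 452292) (.g (nat_lit 3179) (.e (nat_lit 2612) (nat_lit 163) (.e (nat_lit 163978) (nat_lit 30) (.e (nat_lit 573487) (nat_lit 14) (.e (nat_lit 73753) (nat_lit 8) (.e (nat_lit 557101) (nat_lit 13) (.e (nat_lit 172136) (nat_lit 15) (.e (nat_lit 1800) (nat_lit 119) (.e (nat_lit 516120) (nat_lit 1) (.e (nat_lit 164305) (nat_lit 226) .nil))))))))) (.g (nat_lit 1) (.e (nat_lit 22460) (nat_lit 0) .nil) .nil)))) 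
(.nd (nat_lit 9) 
(.lf (nat_lit 452036) (.g (nat_lit 4037) (.e (nat_lit 2611) (nat_lit 163) (.e (nat_lit 163979) (nat_lit 30) (.e (nat_lit 573482) (nat_lit 13) (.e (nat_lit 65619) (nat_lit 10) (.e (nat_lit 344117) (nat_lit 21) (.e (nat_lit 516151) (nat_lit 9) (.e (nat_lit 426097) (nat_lit 1) (.e (nat_lit 164346) (nat_lit 240) .nil)))))))) (.g (nat_lit 1) (.e (nat_lit 21797) (nat_lit 0) .nil) .nil))) 
(.lf (nat_lit 452548) (.g (nat_lit 4143) (.e (nat_lit 2612) (nat_lit 163) (.e (nat_lit 163979) (nat_lit 30) (.e (nat_lit 573493) (nat_lit 15) (.e (nat_lit 81956) (nat_lit 23) (.e (nat_lit 98360) (nat_lit 26) (.e (nat_lit 426142) (nat_lit 4) (.e (nat_lit 229663) (nat_lit 240) .nil))))))) (.g (nat_lit 1) (.e (nat_lit 22811) (nat_lit 0) .nil) .nil))))))) 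
(.nd (nat_lit 6) (.nd (nat_lit 7) (.nd (nat_lit 8) (.nd (nat_lit 9) 
(.lf (nat_lit 451620) (.g (nat_lit 3754) (.e (nat_lit 2610) (nat_lit 163) (.e (nat_lit 163979) (nat_lit 30) (.e (nat_lit 573482) (nat_lit 13) (.e (nat_lit 65619) (nat_lit 10) (.e (nat_lit 344117) (nat_lit 21) (.e (nat_lit 516170) (nat_lit 13) (.e (nat_lit 458774) (nat_lit 18) (.e (nat_lit 5546) (nat_lit 306) .nil)))))))) (.g (nat_lit 1) (.e (nat_lit 20214) (nat_lit 0) .nil) .nil))) 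
(.lf (nat_lit 452132) (.g (nat_lit 2973) (.e (nat_lit 2612) (nat_lit 163) (.e (nat_lit 163977) (nat_lit 30) (.e (nat_lit 573489) (nat_lit 14) (.e (nat_lit 73754) (nat_lit 8) (.e (nat_lit 557095) (nat_lit 13) (.e (nat_lit 179968) (nat_lit 18) (.e (nat_lit 98335) (nat_lit 18) (.e (nat_lit 164305) (nat_lit 226) .nil)))))))) (.g (nat_lit 1) (.e (nat_lit 22251) (nat_lit 0) .nil) .nil)))) 
(.nd (nat_lit 9) 
(.lf (nat_lit 451876) (.g (nat_lit 2342) (.e (nat_lit 2610) (nat_lit 163) (.e (nat_lit 164401) (nat_lit 256) (.e (nat_lit 57378) (nat_lit 3) (.e (nat_lit 98376) (nat_lit 30) (.e (nat_lit 458789) (nat_lit 23) (.e (nat_lit 532515) (nat_lit 3) (.e (nat_lit 114716) (nat_lit 22) (.e (nat_lit 90140) (nat_lit 9) .nil)))))))) (.g (nat_lit 1) (.e (nat_lit 20954) (nat_lit 0) .nil) .nil))) 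
(.lf (nat_lit 452388) (.g (nat_lit 4443) (.e (nat_lit 2612) (nat_lit 163) (.e (nat_lit 163978) (nat_lit 30) (.e (nat_lit 573489) (nat_lit 14) (.e (nat_lit 73755) (nat_lit 8) (.e (nat_lit 557105) (nat_lit 14) (.e (nat_lit 180245) (nat_lit 5) (.e (nat_lit 532499) (nat_lit 1) (.e (nat_lit 57659) (nat_lit 152) .nil)))))))) (.g (nat_lit 1) (.e (nat_lit 22569) (nat_lit 0) .nil) .nil))))) 
(.nd (nat_lit 8) (.nd (nat_lit 9) 
(.lf (nat_lit 451748) (.g (nat_lit 6637) (.e (nat_lit 2610) (nat_lit 163) (.e (nat_lit 163979) (nat_lit 30) (.e (nat_lit 573493) (nat_lit 15) (.e (nat_lit 81953) (nat_lit 22) (.e (nat_lit 90185) (nat_lit 17) (.e (nat_lit 237584) (nat_lit 1) (.e (nat_lit 164347) (nat_lit 240) .nil))))))) (.g (nat_lit 1) (.e (nat_lit 20432) (nat_lit 0) .nil) .nil))) 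
(.lf (nat_lit 452260) (.g (nat_lit 4821) (.e (nat_lit 2612) (nat_lit 163) (.e (nat_lit 163978) (nat_lit 30) (.e (nat_lit 573487) (nat_lit 14) (.e (nat_lit 73753) (nat_lit 8) (.e (nat_lit 557096) (nat_lit 13) (.e (nat_lit 172133) (nat_lit 15) (.e (nat_lit 1800) (nat_lit 119) (.e (nat_lit 516117) (nat_lit 1) (.e (nat_lit 164305) (nat_lit 226) .nil))))))))) (.g (nat_lit 1) (.e (nat_lit 22421) (nat_lit 0) .nil) .nil)))) 
(.nd (nat_lit 9) 
(.lf (nat_lit 452004) (.g (nat_lit 2544) (.e (nat_lit 2611) (nat_lit 163) (.e (nat_lit 163978) (nat_lit 30) (.e (nat_lit 573485) (nat_lit 13) (.e (nat_lit 65619) (nat_lit 10) (.e (nat_lit 344117) (nat_lit 21) (.e (nat_lit 524032) (nat_lit 9) (.e (nat_lit 426107) (nat_lit 1) (.e (nat_lit 164347) (nat_lit 240) .nil)))))))) (.g (nat_lit 1) (.e (nat_lit 21451) (nat_lit 0) .nil) .nil))) 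
(.lf (nat_lit 452516) (.g (nat_lit 3789) (.e (nat_lit 2612) (nat_lit 163) (.e (nat_lit 163979) (nat_lit 30) (.e (nat_lit 573493) (nat_lit 15) (.e (nat_lit 81951) (nat_lit 22) (.e (nat_lit 90174) (nat_lit 14) .nil))))) (.g (nat_lit 0) (.e (nat_lit 22773) (nat_lit 0) .nil) .nil)))))) (.nd (nat_lit 7) (.nd (nat_lit 8) (.nd (nat_lit 9) 
(.lf (nat_lit 451684) (.g (nat_lit 3126) (.e (nat_lit 2610) (nat_lit 163) (.e (nat_lit 163979) (nat_lit 30) (.e (nat_lit 573492) (nat_lit 15) (.e (nat_lit 81956) (nat_lit 23) (.e (nat_lit 98354) (nat_lit 26) (.e (nat_lit 426109) (nat_lit 1) (.e (nat_lit 164345) (nat_lit 240) .nil))))))) (.g (nat_lit 1) (.e (nat_lit 20334) (nat_lit 0) .nil) .nil))) 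
(.lf (nat_lit 452196) (.g (nat_lit 4535) (.e (nat_lit 2612) (nat_lit 163) (.e (nat_lit 163977) (nat_lit 30) (.e (nat_lit 573493) (nat_lit 15) (.e (nat_lit 81956) (nat_lit 23) (.e (nat_lit 98362) (nat_lit 26) (.e (nat_lit 426142) (nat_lit 4) (.e (nat_lit 229663) (nat_lit 240) .nil))))))) (.g (nat_lit 1) (.e (nat_lit 22336) (nat_lit 0) .nil) .nil)))) (.nd (nat_lit 9) 
(.lf (nat_lit 451940) (.g (nat_lit 2955) (.e (nat_lit 2611) (nat_lit 163) (.e (nat_lit 163978) (nat_lit 30) (.e (nat_lit 573479) (nat_lit 13) (.e (nat_lit 65604) (nat_lit 9) (.e (nat_lit 336028) (nat_lit 3) (.e (nat_lit 98366) (nat_lit 27) (.e (nat_lit 434209) (nat_lit 18) (.e (nat_lit 5546) (nat_lit 306) .nil)))))))) (.g (nat_lit 1) (.e (nat_lit 21325) (nat_lit 0) .nil) .nil))) 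
(.lf (nat_lit 452452) (.g (nat_lit 2839) (.e (nat_lit 2612) (nat_lit 163) (.e (nat_lit 163979) (nat_lit 30) (.e (nat_lit 573488) (nat_lit 14) (.e (nat_lit 73755) (nat_lit 8) (.e (nat_lit 557098) (nat_lit 13) (.e (nat_lit 172133) (nat_lit 15) (.e (nat_lit 1800) (nat_lit 119) (.e (nat_lit 516120) (nat_lit 1) (.e (nat_lit 164305) (nat_lit 226) .nil))))))))) (.g (nat_lit 1) (.e (nat_lit 22682) (nat_lit 0) .nil) .nil))))) 
(.nd (nat_lit 8) (.nd (nat_lit 9) 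
(.lf (nat_lit 451812) (.g (nat_lit 5189) (.e (nat_lit 2610) (nat_lit 163) (.e (nat_lit 163979) (nat_lit 30) (.e (nat_lit 573493) (nat_lit 15) (.e (nat_lit 81956) (nat_lit 23) (.e (nat_lit 98362) (nat_lit 26) (.e (nat_lit 426109) (nat_lit 1) (.e (nat_lit 164347) (nat_lit 240) .nil))))))) (.g (nat_lit 1) (.e (nat_lit 20541) (nat_lit 0) .nil) .nil))) 
(.lf (nat_lit 452324) (.g (nat_lit 4839) (.e (nat_lit 2612) (nat_lit 163) (.e (nat_lit 163978) (nat_lit 30) (.e (nat_lit 573489) (nat_lit 14) (.e (nat_lit 73755) (nat_lit 8) (.e (nat_lit 557096) (nat_lit 13) (.e (nat_lit 172133) (nat_lit 15) (.e (nat_lit 1800) (nat_lit 119) (.e (nat_lit 516120) (nat_lit 1) (.e (nat_lit 164305) (nat_lit 226) .nil))))))))) (.g (nat_lit 1) (.e (nat_lit 22505) (nat_lit 0) .nil) .nil)))) 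
(.nd (nat_lit 9) 
(.lf (nat_lit 452068) (.g (nat_lit 3171) (.e (nat_lit 2611) (nat_lit 163) (.e (nat_lit 164403) (nat_lit 256) (.e (nat_lit 57371) (nat_lit 2) (.e (nat_lit 90174) (nat_lit 14) (.e (nat_lit 180243) (nat_lit 5) (.e (nat_lit 532513) (nat_lit 3) (.e (nat_lit 114714) (nat_lit 22) (.e (nat_lit 90140) (nat_lit 9) .nil)))))))) (.g (nat_lit 1) (.e (nat_lit 22157) (nat_lit 0) .nil) .nil))) 
(.lf (nat_lit 452580) (.g (nat_lit 2196) (.e (nat_lit 2612) (nat_lit 163) (.e (nat_lit 164327) (nat_lit 230) (.e (nat_lit 163903) (nat_lit 12) (.e (nat_lit 426567) (nat_lit 34) .nil)))) (.g (nat_lit 0) (.e (nat_lit 23091) (nat_lit 0) .nil) .nil)))))))) (.nd (nat_lit 5) (.nd (nat_lit 6) (.nd (nat_lit 7) (.nd (nat_lit 8) (.nd (nat_lit 9) 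
(.lf (nat_lit 451604) (.g (nat_lit 3272) (.e (nat_lit 2610) (nat_lit 163) (.e (nat_lit 163979) (nat_lit 30) (.e (nat_lit 573482) (nat_lit 13) (.e (nat_lit 65619) (nat_lit 10) (.e (nat_lit 344117) (nat_lit 21) (.e (nat_lit 516153) (nat_lit 9) (.e (nat_lit 426109) (nat_lit 1) (.e (nat_lit 164347) (nat_lit 240) .nil)))))))) (.g (nat_lit 1) (.e (nat_lit 20198) (nat_lit 0) .nil) .nil))) 
(.lf (nat_lit 452116) (.g (nat_lit 4265) (.e (nat_lit 2612) (nat_lit 163) (.e (nat_lit 163977) (nat_lit 30) (.e (nat_lit 573485) (nat_lit 13) (.e (nat_lit 65619) (nat_lit 10) (.e (nat_lit 344117) (nat_lit 21) (.e (nat_lit 516151) (nat_lit 9) (.e (nat_lit 426142) (nat_lit 4) (.e (nat_lit 229666) (nat_lit 240) .nil)))))))) (.g (nat_lit 1) (.e (nat_lit 22234) (nat_lit 0) .nil) .nil)))) 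
(.nd (nat_lit 9) 
(.lf (nat_lit 451860) (.g (nat_lit 1092) (.e (nat_lit 2610) (nat_lit 163) (.e (nat_lit 164345) (nat_lit 240) (.e (nat_lit 2638) (nat_lit 165) (.e (nat_lit 188160) (nat_lit 38) .nil)))) (.g (nat_lit 0) (.e (nat_lit 20748) (nat_lit 0) .nil) .nil))) 
(.lf (nat_lit 452372) (.g (nat_lit 3509) (.e (nat_lit 2612) (nat_lit 163) (.e (nat_lit 163978) (nat_lit 30) (.e (nat_lit 573489) (nat_lit 14) (.e (nat_lit 73755) (nat_lit 8) (.e (nat_lit 557098) (nat_lit 13) (.e (nat_lit 179968) (nat_lit 18) (.e (nat_lit 98335) (nat_lit 18) (.e (nat_lit 164304) (nat_lit 226) .nil)))))))) (.g (nat_lit 1) (.e (nat_lit 22553) (nat_lit 0) .nil) .nil))))) 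
(.nd (nat_lit 8) (.nd (nat_lit 9) 
(.lf (nat_lit 451732) (.g (nat_lit 4224) (.e (nat_lit 2610) (nat_lit 163) (.e (nat_lit 163979) (nat_lit 30) (.e (nat_lit 573493) (nat_lit 15) (.e (nat_lit 81953) (nat_lit 22) (.e (nat_lit 90170) (nat_lit 13) (.e (nat_lit 172059) (nat_lit 1) (.e (nat_lit 164346) (nat_lit 240) .nil))))))) (.g (nat_lit 1) (.e (nat_lit 20416) (nat_lit 0) .nil) .nil))) 
(.lf (nat_lit 452244) (.g (nat_lit 2715) (.e (nat_lit 2612) (nat_lit 163) (.e (nat_lit 163978) (nat_lit 30) (.e (nat_lit 573485) (nat_lit 13) (.e (nat_lit 65619) (nat_lit 10) (.e (nat_lit 344117) (nat_lit 21) (.e (nat_lit 516143) (nat_lit 9) (.e (nat_lit 426142) (nat_lit 4) (.e (nat_lit 229663) (nat_lit 240) .nil)))))))) (.g (nat_lit 1) (.e (nat_lit 22400) (nat_lit 0) .nil) .nil)))) 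
(.nd (nat_lit 9) 
(.lf (nat_lit 451988) (.g (nat_lit 4105) (.e (nat_lit 2611) (nat_lit 163) (.e (nat_lit 163978) (nat_lit 30) (.e (nat_lit 573485) (nat_lit 13) (.e (nat_lit 65604) (nat_lit 9) (.e (nat_lit 336028) (nat_lit 3) (.e (nat_lit 98367) (nat_lit 27) (.e (nat_lit 434202) (nat_lit 18) (.e (nat_lit 5537) (nat_lit 306) .nil)))))))) (.g (nat_lit 1) (.e (nat_lit 21433) (nat_lit 0) .nil) .nil))) 
(.lf (nat_lit 452500) (.g (nat_lit 3175) (.e (nat_lit 2612) (nat_lit 163) (.e (nat_lit 163979) (nat_lit 30) (.e (nat_lit 573492) (nat_lit 15) (.e (nat_lit 81956) (nat_lit 23) (.e (nat_lit 98356) (nat_lit 26) (.e (nat_lit 426148) (nat_lit 4) (.e (nat_lit 229665) (nat_lit 240) .nil))))))) (.g (nat_lit 1) (.e (nat_lit 22747) (nat_lit 0) .nil) .nil)))))) 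
(.nd (nat_lit 7) (.nd (nat_lit 8) (.nd (nat_lit 9) 
(.lf (nat_lit 451668) (.g (nat_lit 3207) (.e (nat_lit 2610) (nat_lit 163) (.e (nat_lit 163979) (nat_lit 30) (.e (nat_lit 573491) (nat_lit 15) (.e (nat_lit 81954) (nat_lit 23) (.e (nat_lit 98366) (nat_lit 27) (.e (nat_lit 434209) (nat_lit 18) (.e (nat_lit 5546) (nat_lit 306) .nil))))))) (.g (nat_lit 1) (.e (nat_lit 20296) (nat_lit 0) .nil) .nil))) 
(.lf (nat_lit 452180) (.g (nat_lit 4164) (.e (nat_lit 2612) (nat_lit 163) (.e (nat_lit 163977) (nat_lit 30) (.e (nat_lit 573493) (nat_lit 15) (.e (nat_lit 81953) (nat_lit 22) (.e (nat_lit 90170) (nat_lit 13) (.e (nat_lit 172068) (nat_lit 4) (.e (nat_lit 229666) (nat_lit 240) .nil))))))) (.g (nat_lit 1) (.e (nat_lit 22317) (nat_lit 0) .nil) .nil)))) (.nd (nat_lit 9) 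
(.lf (nat_lit 451924) (.g (nat_lit 1496) (.e (nat_lit 2611) (nat_lit 163) (.e (nat_lit 163977) (nat_lit 30) (.e (nat_lit 573485) (nat_lit 13) (.e (nat_lit 65619) (nat_lit 10) (.e (nat_lit 344117) (nat_lit 21) .nil))))) (.g (nat_lit 0) (.e (nat_lit 21048) (nat_lit 0) .nil) .nil))) 
(.lf (nat_lit 452436) (.g (nat_lit 2853) (.e (nat_lit 2612) (nat_lit 163) (.e (nat_lit 163979) (nat_lit 30) (.e (nat_lit 573487) (nat_lit 14) (.e (nat_lit 73753) (nat_lit 8) (.e (nat_lit 557098) (nat_lit 13) (.e (nat_lit 179968) (nat_lit 15) (.e (nat_lit 1800) (nat_lit 119) (.e (nat_lit 516117) (nat_lit 1) (.e (nat_lit 164304) (nat_lit 226) .nil))))))))) (.g (nat_lit 1) (.e (nat_lit 22666) (nat_lit 0) .nil) .nil))))) 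
(.nd (nat_lit 8) (.nd (nat_lit 9) 
(.lf (nat_lit 451796) (.g (nat_lit 2997) (.e (nat_lit 2610) (nat_lit 163) (.e (nat_lit 163979) (nat_lit 30) (.e (nat_lit 573493) (nat_lit 15) (.e (nat_lit 81956) (nat_lit 23) (.e (nat_lit 98359) (nat_lit 26) (.e (nat_lit 426101) (nat_lit 1) (.e (nat_lit 164347) (nat_lit 240) .nil))))))) (.g (nat_lit 1) (.e (nat_lit 20525) (nat_lit 0) .nil) .nil))) 
(.lf (nat_lit 452308) (.g (nat_lit 3452) (.e (nat_lit 2612) (nat_lit 163) (.e (nat_lit 163978) (nat_lit 30) (.e (nat_lit 573489) (nat_lit 14) (.e (nat_lit 73754) (nat_lit 8) (.e (nat_lit 557100) (nat_lit 13) (.e (nat_lit 172138) (nat_lit 15) (.e (nat_lit 1800) (nat_lit 119) (.e (nat_lit 516120) (nat_lit 1) (.e (nat_lit 164305) (nat_lit 226) .nil))))))))) (.g (nat_lit 1) (.e (nat_lit 22476) (nat_lit 0) .nil) .nil)))) 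
(.nd (nat_lit 9) 
(.lf (nat_lit 452052) (.g (nat_lit 4478) (.e (nat_lit 2611) (nat_lit 163) (.e (nat_lit 163979) (nat_lit 30) (.e (nat_lit 573482) (nat_lit 13) (.e (nat_lit 65619) (nat_lit 10) (.e (nat_lit 344129) (nat_lit 26) (.e (nat_lit 557087) (nat_lit 11) (.e (nat_lit 24597) (nat_lit 1) (.e (nat_lit 57771) (nat_lit 227) .nil)))))))) (.g (nat_lit 1) (.e (nat_lit 21816) (nat_lit 0) .nil) .nil))) 
(.lf (nat_lit 452564) (.g (nat_lit 3258) (.e (nat_lit 2612) (nat_lit 163) (.e (nat_lit 164326) (nat_lit 230) (.e (nat_lit 163903) (nat_lit 12) (.e (nat_lit 426428) (nat_lit 17) (.e (nat_lit 90170) (nat_lit 13) (.e (nat_lit 172113) (nat_lit 10) (.e (nat_lit 434203) (nat_lit 18) (.e (nat_lit 6738) (nat_lit 365) (.e (nat_lit 2433) (nat_lit 157) .nil))))))))) (.g (nat_lit 1) (.e (nat_lit 23009) (nat_lit 0) .nil) .nil))))))) 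
(.nd (nat_lit 6) (.nd (nat_lit 7) (.nd (nat_lit 8) (.nd (nat_lit 9) 
(.lf (nat_lit 451636) (.g (nat_lit 3964) (.e (nat_lit 2610) (nat_lit 163) (.e (nat_lit 163979) (nat_lit 30) (.e (nat_lit 573491) (nat_lit 15) (.e (nat_lit 81951) (nat_lit 22) (.e (nat_lit 90170) (nat_lit 13) (.e (nat_lit 172059) (nat_lit 1) (.e (nat_lit 164347) (nat_lit 240) .nil))))))) (.g (nat_lit 1) (.e (nat_lit 20258) (nat_lit 0) .nil) .nil))) 
(.lf (nat_lit 452148) (.g (nat_lit 1323) (.e (nat_lit 2612) (nat_lit 163) (.e (nat_lit 163977) (nat_lit 30) (.e (nat_lit 573491) (nat_lit 15) (.e (nat_lit 81953) (nat_lit 22) .nil)))) (.g (nat_lit 0) (.e (nat_lit 22273) (nat_lit 0) .nil) .nil)))) (.nd (nat_lit 9) 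
(.lf (nat_lit 451892) (.g (nat_lit 2851) (.e (nat_lit 2610) (nat_lit 163) (.e (nat_lit 164403) (nat_lit 256) (.e (nat_lit 57378) (nat_lit 3) (.e (nat_lit 98367) (nat_lit 27) (.e (nat_lit 434231) (nat_lit 23) (.e (nat_lit 532514) (nat_lit 3) (.e (nat_lit 114716) (nat_lit 22) (.e (nat_lit 90140) (nat_lit 9) .nil)))))))) (.g (nat_lit 1) (.e (nat_lit 20970) (nat_lit 0) .nil) .nil))) 
(.lf (nat_lit 452404) (.g (nat_lit 3434) (.e (nat_lit 2612) (nat_lit 163) (.e (nat_lit 163979) (nat_lit 30) (.e (nat_lit 573482) (nat_lit 13) (.e (nat_lit 65604) (nat_lit 9) (.e (nat_lit 336028) (nat_lit 3) (.e (nat_lit 98361) (nat_lit 26) (.e (nat_lit 426144) (nat_lit 4) (.e (nat_lit 229663) (nat_lit 240) .nil)))))))) (.g (nat_lit 1) (.e (nat_lit 22628) (nat_lit 0) .nil) .nil))))) 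
(.nd (nat_lit 8) (.nd (nat_lit 9) 
(.lf (nat_lit 451764) (.g (nat_lit 3693) (.e (nat_lit 2610) (nat_lit 163) (.e (nat_lit 163979) (nat_lit 30) (.e (nat_lit 573493) (nat_lit 15) (.e (nat_lit 81954) (nat_lit 23) (.e (nat_lit 98360) (nat_lit 26) .nil))))) (.g (nat_lit 0) (.e (nat_lit 20450) (nat_lit 0) .nil) .nil))) 
(.lf (nat_lit 452276) (.g (nat_lit 3593) (.e (nat_lit 2612) (nat_lit 163) (.e (nat_lit 163978) (nat_lit 30) (.e (nat_lit 573487) (nat_lit 14) (.e (nat_lit 73753) (nat_lit 8) (.e (nat_lit 557098) (nat_lit 13) (.e (nat_lit 172136) (nat_lit 15) (.e (nat_lit 1800) (nat_lit 119) (.e (nat_lit 516120) (nat_lit 1) (.e (nat_lit 164304) (nat_lit 226) .nil))))))))) (.g (nat_lit 1) (.e (nat_lit 22440) (nat_lit 0) .nil) .nil)))) 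
(.nd (nat_lit 9) 
(.lf (nat_lit 452020) (.g (nat_lit 4076) (.e (nat_lit 2611) (nat_lit 163) (.e (nat_lit 163979) (nat_lit 30) (.e (nat_lit 573482) (nat_lit 13) (.e (nat_lit 65604) (nat_lit 9) (.e (nat_lit 336013) (nat_lit 2) (.e (nat_lit 90170) (nat_lit 13) (.e (nat_lit 172059) (nat_lit 1) (.e (nat_lit 164346) (nat_lit 240) .nil)))))))) (.g (nat_lit 1) (.e (nat_lit 21769) (nat_lit 0) .nil) .nil))) 
(.lf (nat_lit 452532) (.g (nat_lit 4869) (.e (nat_lit 2612) (nat_lit 163) (.e (nat_lit 163979) (nat_lit 30) (.e (nat_lit 573493) (nat_lit 15) (.e (nat_lit 81953) (nat_lit 22) (.e (nat_lit 90172) (nat_lit 14) (.e (nat_lit 180233) (nat_lit 0) (.e (nat_lit 5448) (nat_lit 306) .nil))))))) (.g (nat_lit 1) (.e (nat_lit 22790) (nat_lit 0) .nil) .nil)))))) 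
(.nd (nat_lit 7) (.nd (nat_lit 8) (.nd (nat_lit 9) 
(.lf (nat_lit 451700) (.g (nat_lit 3316) (.e (nat_lit 2610) (nat_lit 163) (.e (nat_lit 163979) (nat_lit 30) (.e (nat_lit 573492) (nat_lit 15) (.e (nat_lit 81956) (nat_lit 23) (.e (nat_lit 98377) (nat_lit 30) (.e (nat_lit 458774) (nat_lit 18) (.e (nat_lit 5546) (nat_lit 306) .nil))))))) (.g (nat_lit 1) (.e (nat_lit 20353) (nat_lit 0) .nil) .nil))) 
(.lf (nat_lit 452212) (.g (nat_lit 4136) (.e (nat_lit 2612) (nat_lit 163) (.e (nat_lit 163978) (nat_lit 30) (.e (nat_lit 573484) (nat_lit 13) (.e (nat_lit 65610) (nat_lit 10) (.e (nat_lit 344117) (nat_lit 21) (.e (nat_lit 516143) (nat_lit 9) (.e (nat_lit 426143) (nat_lit 4) (.e (nat_lit 229663) (nat_lit 240) .nil)))))))) (.g (nat_lit 1) (.e (nat_lit 22364) (nat_lit 0) .nil) .nil)))) 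
(.nd (nat_lit 9) 
(.lf (nat_lit 451956) (.g (nat_lit 5488) (.e (nat_lit 2611) (nat_lit 163) (.e (nat_lit 163978) (nat_lit 30) (.e (nat_lit 573479) (nat_lit 13) (.e (nat_lit 65619) (nat_lit 10) (.e (nat_lit 344117) (nat_lit 21) (.e (nat_lit 516151) (nat_lit 9) (.e (nat_lit 426104) (nat_lit 1) (.e (nat_lit 164345) (nat_lit 240) .nil)))))))) (.g (nat_lit 1) (.e (nat_lit 21341) (nat_lit 0) .nil) .nil))) 
(.lf (nat_lit 452468) (.g (nat_lit 3474) (.e (nat_lit 2612) (nat_lit 163) (.e (nat_lit 163979) (nat_lit 30) (.e (nat_lit 573489) (nat_lit 14) (.e (nat_lit 73755) (nat_lit 8) (.e (nat_lit 557098) (nat_lit 13) (.e (nat_lit 172136) (nat_lit 15) (.e (nat_lit 1800) (nat_lit 119) (.e (nat_lit 516117) (nat_lit 1) (.e (nat_lit 164304) (nat_lit 226) .nil))))))))) (.g (nat_lit 1) (.e (nat_lit 22702) (nat_lit 0) .nil) .nil))))) 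
(.nd (nat_lit 8) (.nd (nat_lit 9) 
(.lf (nat_lit 451828) (.g (nat_lit 4416) (.e (nat_lit 2610) (nat_lit 163) (.e (nat_lit 163979) (nat_lit 30) (.e (nat_lit 573493) (nat_lit 15) (.e (nat_lit 81956) (nat_lit 23) (.e (nat_lit 98366) (nat_lit 27) (.e (nat_lit 434209) (nat_lit 18) (.e (nat_lit 5546) (nat_lit 306) .nil))))))) (.g (nat_lit 1) (.e (nat_lit 20557) (nat_lit 0) .nil) .nil))) 
(.lf (nat_lit 452340) (.g (nat_lit 3840) (.e (nat_lit 2612) (nat_lit 163) (.e (nat_lit 163978) (nat_lit 30) (.e (nat_lit 573489) (nat_lit 14) (.e (nat_lit 73755) (nat_lit 8) (.e (nat_lit 557097) (nat_lit 13) (.e (nat_lit 172136) (nat_lit 15) (.e (nat_lit 1800) (nat_lit 119) (.e (nat_lit 516117) (nat_lit 1) (.e (nat_lit 164304) (nat_lit 226) .nil))))))))) (.g (nat_lit 1) (.e (nat_lit 22521) (nat_lit 0) .nil) .nil)))) 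
(.nd (nat_lit 9) 
(.lf (nat_lit 452084) (.g (nat_lit 4257) (.e (nat_lit 2612) (nat_lit 163) (.e (nat_lit 163964) (nat_lit 25) (.e (nat_lit 532513) (nat_lit 3) (.e (nat_lit 114714) (nat_lit 22) (.e (nat_lit 90172) (nat_lit 14) (.e (nat_lit 180244) (nat_lit 5) (.e (nat_lit 532504) (nat_lit 1) (.e (nat_lit 57663) (nat_lit 152) .nil)))))))) (.g (nat_lit 1) (.e (nat_lit 22185) (nat_lit 0) .nil) .nil))) 
(.lf (nat_lit 452596) (.g (nat_lit 4429) (.e (nat_lit 2612) (nat_lit 163) (.e (nat_lit 164403) (nat_lit 256) (.e (nat_lit 57371) (nat_lit 2) (.e (nat_lit 90174) (nat_lit 14) (.e (nat_lit 180243) (nat_lit 5) (.e (nat_lit 532515) (nat_lit 3) (.e (nat_lit 114716) (nat_lit 22) (.e (nat_lit 90130) (nat_lit 9) .nil)))))))) (.g (nat_lit 1) (.e (nat_lit 23280) (nat_lit 0) .nil) .nil))))))))) 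
(.nd (nat_lit 4) (.nd (nat_lit 5) (.nd (nat_lit 6) (.nd (nat_lit 7) (.nd (nat_lit 8) 
(.nd (nat_lit 9) 
(.lf (nat_lit 451596) (.g (nat_lit 4977) (.e (nat_lit 2610) (nat_lit 163) (.e (nat_lit 163979) (nat_lit 30) (.e (nat_lit 573482) (nat_lit 13) (.e (nat_lit 65619) (nat_lit 10) (.e (nat_lit 344117) (nat_lit 21) (.e (nat_lit 516151) (nat_lit 9) (.e (nat_lit 426104) (nat_lit 1) (.e (nat_lit 164347) (nat_lit 240) .nil)))))))) (.g (nat_lit 1) (.e (nat_lit 20190) (nat_lit 0) .nil) .nil))) 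
(.lf (nat_lit 452108) (.g (nat_lit 2326) (.e (nat_lit 2612) (nat_lit 163) (.e (nat_lit 163977) (nat_lit 30) (.e (nat_lit 573484) (nat_lit 13) (.e (nat_lit 65610) (nat_lit 10) (.e (nat_lit 344117) (nat_lit 21) (.e (nat_lit 516159) (nat_lit 10) (.e (nat_lit 434216) (nat_lit 18) (.e (nat_lit 5448) (nat_lit 306) .nil)))))))) (.g (nat_lit 1) (.e (nat_lit 22226) (nat_lit 0) .nil) .nil)))) 
(.nd (nat_lit 9) 
(.lf (nat_lit 451852) (.g (nat_lit 3910) (.e (nat_lit 2610) (nat_lit 163) (.e (nat_lit 163979) (nat_lit 30) (.e (nat_lit 573493) (nat_lit 15) (.e (nat_lit 81956) (nat_lit 23) (.e (nat_lit 98368) (nat_lit 27) (.e (nat_lit 434211) (nat_lit 18) (.e (nat_lit 5548) (nat_lit 306) .nil))))))) (.g (nat_lit 1) (.e (nat_lit 20581) (nat_lit 0) .nil) .nil))) 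
(.lf (nat_lit 452364) (.g (nat_lit 4192) (.e (nat_lit 2612) (nat_lit 163) (.e (nat_lit 163978) (nat_lit 30) (.e (nat_lit 573489) (nat_lit 14) (.e (nat_lit 73755) (nat_lit 8) (.e (nat_lit 557098) (nat_lit 13) (.e (nat_lit 172136) (nat_lit 15) (.e (nat_lit 1800) (nat_lit 119) (.e (nat_lit 516120) (nat_lit 1) (.e (nat_lit 164305) (nat_lit 226) .nil))))))))) (.g (nat_lit 1) (.e (nat_lit 22545) (nat_lit 0) .nil) .nil))))) 
(.nd (nat_lit 8) (.nd (nat_lit 9) 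
(.lf (nat_lit 451724) (.g (nat_lit 4821) (.e (nat_lit 2610) (nat_lit 163) (.e (nat_lit 163979) (nat_lit 30) (.e (nat_lit 573493) (nat_lit 15) (.e (nat_lit 81951) (nat_lit 22) (.e (nat_lit 90185) (nat_lit 17) (.e (nat_lit 237584) (nat_lit 1) (.e (nat_lit 164347) (nat_lit 240) .nil))))))) (.g (nat_lit 1) (.e (nat_lit 20393) (nat_lit 0) .nil) .nil))) 
(.lf (nat_lit 452236) (.g (nat_lit 5619) (.e (nat_lit 2612) (nat_lit 163) (.e (nat_lit 163978) (nat_lit 30) (.e (nat_lit 573485) (nat_lit 13) (.e (nat_lit 65604) (nat_lit 9) (.e (nat_lit 336028) (nat_lit 3) (.e (nat_lit 98359) (nat_lit 26) (.e (nat_lit 426142) (nat_lit 4) (.e (nat_lit 229663) (nat_lit 240) .nil)))))))) (.g (nat_lit 1) (.e (nat_lit 22391) (nat_lit 0) .nil) .nil)))) 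
(.nd (nat_lit 9) 
(.lf (nat_lit 451980) (.g (nat_lit 4346) (.e (nat_lit 2611) (nat_lit 163) (.e (nat_lit 163978) (nat_lit 30) (.e (nat_lit 573485) (nat_lit 13) (.e (nat_lit 65604) (nat_lit 9) (.e (nat_lit 336013) (nat_lit 2) (.e (nat_lit 90170) (nat_lit 13) (.e (nat_lit 172061) (nat_lit 1) (.e (nat_lit 164346) (nat_lit 240) .nil)))))))) (.g (nat_lit 1) (.e (nat_lit 21408) (nat_lit 0) .nil) .nil))) 
(.lf (nat_lit 452492) (.g (nat_lit 3434) (.e (nat_lit 2612) (nat_lit 163) (.e (nat_lit 163979) (nat_lit 30) (.e (nat_lit 573491) (nat_lit 15) (.e (nat_lit 81954) (nat_lit 23) (.e (nat_lit 98367) (nat_lit 27) (.e (nat_lit 434215) (nat_lit 18) (.e (nat_lit 5448) (nat_lit 306) .nil))))))) (.g (nat_lit 1) (.e (nat_lit 22727) (nat_lit 0) .nil) .nil)))))) 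
(.nd (nat_lit 7) (.nd (nat_lit 8) (.nd (nat_lit 9) 
(.lf (nat_lit 451660) (.g (nat_lit 3492) (.e (nat_lit 2610) (nat_lit 163) (.e (nat_lit 163979) (nat_lit 30) (.e (nat_lit 573491) (nat_lit 15) (.e (nat_lit 81954) (nat_lit 23) (.e (nat_lit 98364) (nat_lit 26) (.e (nat_lit 426107) (nat_lit 1) (.e (nat_lit 164347) (nat_lit 240) .nil))))))) (.g (nat_lit 1) (.e (nat_lit 20288) (nat_lit 0) .nil) .nil))) 
(.lf (nat_lit 452172) (.g (nat_lit 5722) (.e (nat_lit 2612) (nat_lit 163) (.e (nat_lit 163977) (nat_lit 30) (.e (nat_lit 573493) (nat_lit 15) (.e (nat_lit 81951) (nat_lit 22) (.e (nat_lit 90170) (nat_lit 13) (.e (nat_lit 172070) (nat_lit 4) (.e (nat_lit 229663) (nat_lit 240) .nil))))))) (.g (nat_lit 1) (.e (nat_lit 22306) (nat_lit 0) .nil) .nil)))) (.nd (nat_lit 9) 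
(.lf (nat_lit 451916) (.g (nat_lit 4612) (.e (nat_lit 2611) (nat_lit 163) (.e (nat_lit 163977) (nat_lit 30) (.e (nat_lit 573482) (nat_lit 13) (.e (nat_lit 65619) (nat_lit 10) (.e (nat_lit 344117) (nat_lit 21) (.e (nat_lit 516170) (nat_lit 13) (.e (nat_lit 458774) (nat_lit 18) (.e (nat_lit 5547) (nat_lit 306) .nil)))))))) (.g (nat_lit 1) (.e (nat_lit 21015) (nat_lit 0) .nil) .nil))) 
(.lf (nat_lit 452428) (.g (nat_lit 2949) (.e (nat_lit 2612) (nat_lit 163) (.e (nat_lit 163979) (nat_lit 30) (.e (nat_lit 573487) (nat_lit 14) (.e (nat_lit 73753) (nat_lit 8) (.e (nat_lit 557097) (nat_lit 13) (.e (nat_lit 179968) (nat_lit 18) (.e (nat_lit 98334) (nat_lit 18) (.e (nat_lit 164305) (nat_lit 226) .nil)))))))) (.g (nat_lit 1) (.e (nat_lit 22657) (nat_lit 0) .nil) .nil))))) 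
(.nd (nat_lit 8) (.nd (nat_lit 9) 
(.lf (nat_lit 451788) (.g (nat_lit 2659) (.e (nat_lit 2610) (nat_lit 163) (.e (nat_lit 163979) (nat_lit 30) (.e (nat_lit 573493) (nat_lit 15) (.e (nat_lit 81956) (nat_lit 23) (.e (nat_lit 98356) (nat_lit 26) .nil))))) (.g (nat_lit 0) (.e (nat_lit 20502) (nat_lit 0) .nil) .nil))) 
(.lf (nat_lit 452300) (.g (nat_lit 2346) (.e (nat_lit 2612) (nat_lit 163) (.e (nat_lit 163978) (nat_lit 30) (.e (nat_lit 573489) (nat_lit 14) (.e (nat_lit 73754) (nat_lit 8) (.e (nat_lit 557095) (nat_lit 13) (.e (nat_lit 172067) (nat_lit 3) (.e (nat_lit 204830) (nat_lit 18) (.e (nat_lit 57663) (nat_lit 152) .nil)))))))) (.g (nat_lit 1) (.e (nat_lit 22468) (nat_lit 0) .nil) .nil)))) 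
(.nd (nat_lit 9) 
(.lf (nat_lit 452044) (.g (nat_lit 4812) (.e (nat_lit 2611) (nat_lit 163) (.e (nat_lit 163979) (nat_lit 30) (.e (nat_lit 573482) (nat_lit 13) (.e (nat_lit 65619) (nat_lit 10) (.e (nat_lit 344117) (nat_lit 21) (.e (nat_lit 516159) (nat_lit 10) (.e (nat_lit 434209) (nat_lit 18) (.e (nat_lit 5548) (nat_lit 306) .nil)))))))) (.g (nat_lit 1) (.e (nat_lit 21805) (nat_lit 0) .nil) .nil))) 
(.lf (nat_lit 452556) (.g (nat_lit 5656) (.e (nat_lit 2612) (nat_lit 163) (.e (nat_lit 163979) (nat_lit 30) (.e (nat_lit 573493) (nat_lit 15) (.e (nat_lit 81956) (nat_lit 23) (.e (nat_lit 98362) (nat_lit 26) (.e (nat_lit 426144) (nat_lit 4) (.e (nat_lit 229663) (nat_lit 240) .nil))))))) (.g (nat_lit 1) (.e (nat_lit 22819) (nat_lit 0) .nil) .nil))))))) 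
(.nd (nat_lit 6) (.nd (nat_lit 7) (.nd (nat_lit 8) (.nd (nat_lit 9) 
(.lf (nat_lit 451628) (.g (nat_lit 4203) (.e (nat_lit 2610) (nat_lit 163) (.e (nat_lit 163979) (nat_lit 30) (.e (nat_lit 573482) (nat_lit 13) (.e (nat_lit 65619) (nat_lit 10) (.e (nat_lit 344129) (nat_lit 26) (.e (nat_lit 557066) (nat_lit 9) (.e (nat_lit 307) (nat_lit 22) (.e (nat_lit 344097) (nat_lit 18) (.e (nat_lit 4716) (nat_lit 275) .nil))))))))) (.g (nat_lit 1) (.e (nat_lit 20224) (nat_lit 0) .nil) .nil))) 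
(.lf (nat_lit 452140) (.g (nat_lit 3991) (.e (nat_lit 2612) (nat_lit 163) (.e (nat_lit 163977) (nat_lit 30) (.e (nat_lit 573489) (nat_lit 14) (.e (nat_lit 73755) (nat_lit 8) (.e (nat_lit 557098) (nat_lit 13) (.e (nat_lit 179968) (nat_lit 18) (.e (nat_lit 98335) (nat_lit 18) (.e (nat_lit 164305) (nat_lit 226) .nil)))))))) (.g (nat_lit 1) (.e (nat_lit 22262) (nat_lit 0) .nil) .nil)))) 
(.nd (nat_lit 9) 
(.lf (nat_lit 451884) (.g (nat_lit 3040) (.e (nat_lit 2610) (nat_lit 163) (.e (nat_lit 164403) (nat_lit 256) (.e (nat_lit 57371) (nat_lit 2) (.e (nat_lit 90174) (nat_lit 14) (.e (nat_lit 180243) (nat_lit 5) (.e (nat_lit 532513) (nat_lit 3) (.e (nat_lit 114714) (nat_lit 22) (.e (nat_lit 90140) (nat_lit 9) .nil)))))))) (.g (nat_lit 1) (.e (nat_lit 20962) (nat_lit 0) .nil) .nil))) 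
(.lf (nat_lit 452396) (.g (nat_lit 3296) (.e (nat_lit 2612) (nat_lit 163) (.e (nat_lit 163979) (nat_lit 30) (.e (nat_lit 573482) (nat_lit 13) (.e (nat_lit 65604) (nat_lit 9) (.e (nat_lit 336013) (nat_lit 2) (.e (nat_lit 90170) (nat_lit 13) (.e (nat_lit 172069) (nat_lit 4) (.e (nat_lit 229666) (nat_lit 240) .nil)))))))) (.g (nat_lit 1) (.e (nat_lit 22620) (nat_lit 0) .nil) .nil))))) 
(.nd (nat_lit 8) (.nd (nat_lit 9) 
(.lf (nat_lit 451756) (.g (nat_lit 3685) (.e (nat_lit 2610) (nat_lit 163) (.e (nat_lit 163979) (nat_lit 30) (.e (nat_lit 573493) (nat_lit 15) (.e (nat_lit 81954) (nat_lit 23) (.e (nat_lit 98358) (nat_lit 26) (.e (nat_lit 426112) (nat_lit 1) (.e (nat_lit 164348) (nat_lit 240) .nil))))))) (.g (nat_lit 1) (.e (nat_lit 20440) (nat_lit 0) .nil) .nil))) 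
(.lf (nat_lit 452268) (.g (nat_lit 2848) (.e (nat_lit 2612) (nat_lit 163) (.e (nat_lit 163978) (nat_lit 30) (.e (nat_lit 573487) (nat_lit 14) (.e (nat_lit 73753) (nat_lit 8) (.e (nat_lit 557098) (nat_lit 13) (.e (nat_lit 172131) (nat_lit 15) (.e (nat_lit 1800) (nat_lit 119) (.e (nat_lit 516117) (nat_lit 1) (.e (nat_lit 164304) (nat_lit 226) .nil))))))))) (.g (nat_lit 1) (.e (nat_lit 22432) (nat_lit 0) .nil) .nil)))) 
(.nd (nat_lit 9) 
(.lf (nat_lit 452012) (.g (nat_lit 3463) (.e (nat_lit 2611) (nat_lit 163) (.e (nat_lit 163978) (nat_lit 30) (.e (nat_lit 573485) (nat_lit 13) (.e (nat_lit 65619) (nat_lit 10) (.e (nat_lit 344117) (nat_lit 21) (.e (nat_lit 516161) (nat_lit 10) (.e (nat_lit 434209) (nat_lit 18) (.e (nat_lit 5548) (nat_lit 306) .nil)))))))) (.g (nat_lit 1) (.e (nat_lit 21459) (nat_lit 0) .nil) .nil))) 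
(.lf (nat_lit 452524) (.g (nat_lit 2440) (.e (nat_lit 2612) (nat_lit 163) (.e (nat_lit 163979) (nat_lit 30) (.e (nat_lit 573493) (nat_lit 15) (.e (nat_lit 81953) (nat_lit 22) (.e (nat_lit 90170) (nat_lit 13) (.e (nat_lit 172069) (nat_lit 4) (.e (nat_lit 229665) (nat_lit 240) .nil))))))) (.g (nat_lit 1) (.e (nat_lit 22782) (nat_lit 0) .nil) .nil)))))) 
(.nd (nat_lit 7) (.nd (nat_lit 8) (.nd (nat_lit 9) 
(.lf (nat_lit 451692) (.g (nat_lit 5878) (.e (nat_lit 2610) (nat_lit 163) (.e (nat_lit 163979) (nat_lit 30) (.e (nat_lit 573492) (nat_lit 15) (.e (nat_lit 81956) (nat_lit 23) (.e (nat_lit 98363) (nat_lit 26) (.e (nat_lit 426110) (nat_lit 1) (.e (nat_lit 164348) (nat_lit 240) .nil))))))) (.g (nat_lit 1) (.e (nat_lit 20345) (nat_lit 0) .nil) .nil))) 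
(.lf (nat_lit 452204) (.g (nat_lit 2808) (.e (nat_lit 2612) (nat_lit 163) (.e (nat_lit 163978) (nat_lit 30) (.e (nat_lit 573479) (nat_lit 13) (.e (nat_lit 65604) (nat_lit 9) (.e (nat_lit 336013) (nat_lit 2) (.e (nat_lit 90170) (nat_lit 13) (.e (nat_lit 172068) (nat_lit 4) (.e (nat_lit 229665) (nat_lit 240) .nil)))))))) (.g (nat_lit 1) (.e (nat_lit 22353) (nat_lit 0) .nil) .nil)))) 
(.nd (nat_lit 9) 
(.lf (nat_lit 451948) (.g (nat_lit 4458) (.e (nat_lit 2611) (nat_lit 163) (.e (nat_lit 163978) (nat_lit 30) (.e (nat_lit 573479) (nat_lit 13) (.e (nat_lit 65619) (nat_lit 10) (.e (nat_lit 344117) (nat_lit 21) (.e (nat_lit 516097) (nat_lit 0) (.e (nat_lit 7366) (nat_lit 388) (.e (nat_lit 2610) (nat_lit 163) (.e (nat_lit 164347) (nat_lit 240) .nil))))))))) (.g (nat_lit 1) (.e (nat_lit 21333) (nat_lit 0) .nil) .nil))) 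
(.lf (nat_lit 452460) (.g (nat_lit 2991) (.e (nat_lit 2612) (nat_lit 163) (.e (nat_lit 163979) (nat_lit 30) (.e (nat_lit 573489) (nat_lit 14) (.e (nat_lit 73755) (nat_lit 8) (.e (nat_lit 557097) (nat_lit 13) (.e (nat_lit 172132) (nat_lit 15) (.e (nat_lit 1796) (nat_lit 119) (.e (nat_lit 516120) (nat_lit 1) (.e (nat_lit 164304) (nat_lit 226) .nil))))))))) (.g (nat_lit 1) (.e (nat_lit 22694) (nat_lit 0) .nil) .nil))))) 
(.nd (nat_lit 8) (.nd (nat_lit 9) 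
(.lf (nat_lit 451820) (.g (nat_lit 5172) (.e (nat_lit 2610) (nat_lit 163) (.e (nat_lit 163979) (nat_lit 30) (.e (nat_lit 573493) (nat_lit 15) (.e (nat_lit 81956) (nat_lit 23) (.e (nat_lit 98365) (nat_lit 26) (.e (nat_lit 426106) (nat_lit 1) (.e (nat_lit 164345) (nat_lit 240) .nil))))))) (.g (nat_lit 1) (.e (nat_lit 20549) (nat_lit 0) .nil) .nil))) 
(.lf (nat_lit 452332) (.g (nat_lit 4692) (.e (nat_lit 2612) (nat_lit 163) (.e (nat_lit 163978) (nat_lit 30) (.e (nat_lit 573489) (nat_lit 14) (.e (nat_lit 73755) (nat_lit 8) (.e (nat_lit 557097) (nat_lit 13) (.e (nat_lit 172065) (nat_lit 3) (.e (nat_lit 204830) (nat_lit 18) (.e (nat_lit 57663) (nat_lit 152) .nil)))))))) (.g (nat_lit 1) (.e (nat_lit 22513) (nat_lit 0) .nil) .nil)))) 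
(.nd (nat_lit 9) 
(.lf (nat_lit 452076) (.g (nat_lit 4687) (.e (nat_lit 2611) (nat_lit 163) (.e (nat_lit 164403) (nat_lit 256) (.e (nat_lit 57373) (nat_lit 2) (.e (nat_lit 90174) (nat_lit 14) (.e (nat_lit 180243) (nat_lit 5) (.e (nat_lit 532515) (nat_lit 3) (.e (nat_lit 114716) (nat_lit 22) (.e (nat_lit 90140) (nat_lit 9) .nil)))))))) (.g (nat_lit 1) (.e (nat_lit 22165) (nat_lit 0) .nil) .nil))) 
(.lf (nat_lit 452588) (.g (nat_lit 2390) (.e (nat_lit 2612) (nat_lit 163) (.e (nat_lit 164402) (nat_lit 256) (.e (nat_lit 57371) (nat_lit 2) (.e (nat_lit 90174) (nat_lit 14) (.e (nat_lit 180250) (nat_lit 10) (.e (nat_lit 573489) (nat_lit 14) (.e (nat_lit 73755) (nat_lit 8) (.e (nat_lit 557065) (nat_lit 9) .nil)))))))) (.g (nat_lit 1) (.e (nat_lit 23272) (nat_lit 0) .nil) .nil)))))))) 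
(.nd (nat_lit 5) (.nd (nat_lit 6) (.nd (nat_lit 7) (.nd (nat_lit 8) (.nd (nat_lit 9) 
(.lf (nat_lit 451612) (.g (nat_lit 3249) (.e (nat_lit 2610) (nat_lit 163) (.e (nat_lit 163979) (nat_lit 30) (.e (nat_lit 573482) (nat_lit 13) (.e (nat_lit 65619) (nat_lit 10) (.e (nat_lit 344117) (nat_lit 21) (.e (nat_lit 516161) (nat_lit 10) (.e (nat_lit 434209) (nat_lit 18) (.e (nat_lit 5547) (nat_lit 306) .nil)))))))) (.g (nat_lit 1) (.e (nat_lit 20206) (nat_lit 0) .nil) .nil))) 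
(.lf (nat_lit 452124) (.g (nat_lit 2083) (.e (nat_lit 2612) (nat_lit 163) (.e (nat_lit 163977) (nat_lit 30) (.e (nat_lit 573487) (nat_lit 14) (.e (nat_lit 73753) (nat_lit 8) (.e (nat_lit 557097) (nat_lit 13) (.e (nat_lit 172133) (nat_lit 15) (.e (nat_lit 1800) (nat_lit 119) (.e (nat_lit 516120) (nat_lit 1) (.e (nat_lit 164304) (nat_lit 226) .nil))))))))) (.g (nat_lit 1) (.e (nat_lit 22243) (nat_lit 0) .nil) .nil)))) 
(.nd (nat_lit 9) 
(.lf (nat_lit 451868) (.g (nat_lit 2334) (.e (nat_lit 2610) (nat_lit 163) (.e (nat_lit 164347) (nat_lit 240) (.e (nat_lit 2640) (nat_lit 165) (.e (nat_lit 188160) (nat_lit 38) (.e (nat_lit 122936) (nat_lit 23) (.e (nat_lit 516131) (nat_lit 3) (.e (nat_lit 221218) (nat_lit 24) (.e (nat_lit 213017) (nat_lit 9) .nil)))))))) (.g (nat_lit 1) (.e (nat_lit 20902) (nat_lit 0) .nil) .nil))) 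
(.lf (nat_lit 452380) (.g (nat_lit 2987) (.e (nat_lit 2612) (nat_lit 163) (.e (nat_lit 163978) (nat_lit 30) (.e (nat_lit 573489) (nat_lit 14) (.e (nat_lit 73755) (nat_lit 8) (.e (nat_lit 557103) (nat_lit 14) (.e (nat_lit 180244) (nat_lit 5) (.e (nat_lit 532503) (nat_lit 1) (.e (nat_lit 57661) (nat_lit 152) .nil)))))))) (.g (nat_lit 1) (.e (nat_lit 22561) (nat_lit 0) .nil) .nil))))) 
(.nd (nat_lit 8) (.nd (nat_lit 9) 
(.lf (nat_lit 451740) (.g (nat_lit 3732) (.e (nat_lit 2610) (nat_lit 163) (.e (nat_lit 163979) (nat_lit 30) (.e (nat_lit 573493) (nat_lit 15) (.e (nat_lit 81953) (nat_lit 22) (.e (nat_lit 90174) (nat_lit 14) (.e (nat_lit 180225) (nat_lit 0) (.e (nat_lit 5537) (nat_lit 306) .nil))))))) (.g (nat_lit 1) (.e (nat_lit 20424) (nat_lit 0) .nil) .nil))) 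
(.lf (nat_lit 452252) (.g (nat_lit 3491) (.e (nat_lit 2612) (nat_lit 163) (.e (nat_lit 163978) (nat_lit 30) (.e (nat_lit 573485) (nat_lit 13) (.e (nat_lit 65619) (nat_lit 10) (.e (nat_lit 344117) (nat_lit 21) (.e (nat_lit 516153) (nat_lit 9) (.e (nat_lit 426144) (nat_lit 4) (.e (nat_lit 229663) (nat_lit 240) .nil)))))))) (.g (nat_lit 1) (.e (nat_lit 22408) (nat_lit 0) .nil) .nil)))) 
(.nd (nat_lit 9) 
(.lf (nat_lit 451996) (.g (nat_lit 4246) (.e (nat_lit 2611) (nat_lit 163) (.e (nat_lit 163978) (nat_lit 30) (.e (nat_lit 573485) (nat_lit 13) (.e (nat_lit 65619) (nat_lit 10) (.e (nat_lit 344117) (nat_lit 21) (.e (nat_lit 516143) (nat_lit 9) (.e (nat_lit 426109) (nat_lit 1) (.e (nat_lit 164346) (nat_lit 240) .nil)))))))) (.g (nat_lit 1) (.e (nat_lit 21443) (nat_lit 0) .nil) .nil))) 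
(.lf (nat_lit 452508) (.g (nat_lit 5918) (.e (nat_lit 2612) (nat_lit 163) (.e (nat_lit 163979) (nat_lit 30) (.e (nat_lit 573492) (nat_lit 15) (.e (nat_lit 81956) (nat_lit 23) (.e (nat_lit 98365) (nat_lit 26) (.e (nat_lit 426145) (nat_lit 4) (.e (nat_lit 229663) (nat_lit 240) .nil))))))) (.g (nat_lit 1) (.e (nat_lit 22755) (nat_lit 0) .nil) .nil)))))) 
(.nd (nat_lit 7) (.nd (nat_lit 8) (.nd (nat_lit 9) 
(.lf (nat_lit 451676) (.g (nat_lit 2432) (.e (nat_lit 2610) (nat_lit 163) (.e (nat_lit 163979) (nat_lit 30) (.e (nat_lit 573491) (nat_lit 15) (.e (nat_lit 81954) (nat_lit 23) (.e (nat_lit 98367) (nat_lit 27) (.e (nat_lit 434213) (nat_lit 18) (.e (nat_lit 5543) (nat_lit 306) .nil))))))) (.g (nat_lit 1) (.e (nat_lit 20304) (nat_lit 0) .nil) .nil))) 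
(.lf (nat_lit 452188) (.g (nat_lit 4874) (.e (nat_lit 2612) (nat_lit 163) (.e (nat_lit 163977) (nat_lit 30) (.e (nat_lit 573493) (nat_lit 15) (.e (nat_lit 81954) (nat_lit 23) (.e (nat_lit 98359) (nat_lit 26) (.e (nat_lit 426142) (nat_lit 4) (.e (nat_lit 229663) (nat_lit 240) .nil))))))) (.g (nat_lit 1) (.e (nat_lit 22326) (nat_lit 0) .nil) .nil)))) (.nd (nat_lit 9) 
(.lf (nat_lit 451932) (.g (nat_lit 3577) (.e (nat_lit 2611) (nat_lit 163) (.e (nat_lit 163978) (nat_lit 30) (.e (nat_lit 573479) (nat_lit 13) (.e (nat_lit 65604) (nat_lit 9) (.e (nat_lit 336013) (nat_lit 2) (.e (nat_lit 90170) (nat_lit 13) (.e (nat_lit 172059) (nat_lit 1) (.e (nat_lit 164345) (nat_lit 240) .nil)))))))) (.g (nat_lit 1) (.e (nat_lit 21315) (nat_lit 0) .nil) .nil))) 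
(.lf (nat_lit 452444) (.g (nat_lit 2707) (.e (nat_lit 2612) (nat_lit 163) (.e (nat_lit 163979) (nat_lit 30) (.e (nat_lit 573488) (nat_lit 14) (.e (nat_lit 73755) (nat_lit 8) (.e (nat_lit 557097) (nat_lit 13) (.e (nat_lit 172133) (nat_lit 15) (.e (nat_lit 1800) (nat_lit 119) (.e (nat_lit 516117) (nat_lit 1) (.e (nat_lit 164304) (nat_lit 226) .nil))))))))) (.g (nat_lit 1) (.e (nat_lit 22674) (nat_lit 0) .nil) .nil))))) 
(.nd (nat_lit 8) (.nd (nat_lit 9) 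
(.lf (nat_lit 451804) (.g (nat_lit 4875) (.e (nat_lit 2610) (nat_lit 163) (.e (nat_lit 163979) (nat_lit 30) (.e (nat_lit 573493) (nat_lit 15) (.e (nat_lit 81956) (nat_lit 23) (.e (nat_lit 98360) (nat_lit 26) (.e (nat_lit 426109) (nat_lit 1) (.e (nat_lit 164346) (nat_lit 240) .nil))))))) (.g (nat_lit 1) (.e (nat_lit 20533) (nat_lit 0) .nil) .nil))) 
(.lf (nat_lit 452316) (.g (nat_lit 3351) (.e (nat_lit 2612) (nat_lit 163) (.e (nat_lit 163978) (nat_lit 30) (.e (nat_lit 573489) (nat_lit 14) (.e (nat_lit 73754) (nat_lit 8) (.e (nat_lit 557101) (nat_lit 13) (.e (nat_lit 179968) (nat_lit 15) (.e (nat_lit 1800) (nat_lit 119) (.e (nat_lit 516117) (nat_lit 1) (.e (nat_lit 164304) (nat_lit 226) .nil))))))))) (.g (nat_lit 1) (.e (nat_lit 22484) (nat_lit 0) .nil) .nil)))) 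
(.nd (nat_lit 9) 
(.lf (nat_lit 452060) (.g (nat_lit 2963) (.e (nat_lit 2611) (nat_lit 163) (.e (nat_lit 164402) (nat_lit 256) (.e (nat_lit 57371) (nat_lit 2) (.e (nat_lit 90174) (nat_lit 14) (.e (nat_lit 180243) (nat_lit 5) (.e (nat_lit 532513) (nat_lit 3) (.e (nat_lit 114714) (nat_lit 22) (.e (nat_lit 90121) (nat_lit 9) .nil)))))))) (.g (nat_lit 1) (.e (nat_lit 22149) (nat_lit 0) .nil) .nil))) 
(.lf (nat_lit 452572) (.g (nat_lit 4106) (.e (nat_lit 2612) (nat_lit 163) (.e (nat_lit 164326) (nat_lit 230) (.e (nat_lit 163903) (nat_lit 12) (.e (nat_lit 426567) (nat_lit 34) (.e (nat_lit 393268) (nat_lit 23) (.e (nat_lit 426428) (nat_lit 17) (.e (nat_lit 90134) (nat_lit 9) .nil))))))) (.g (nat_lit 1) (.e (nat_lit 23021) (nat_lit 0) .nil) .nil))))))) 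
(.nd (nat_lit 6) (.nd (nat_lit 7) (.nd (nat_lit 8) (.nd (nat_lit 9) 
(.lf (nat_lit 451644) (.g (nat_lit 4006) (.e (nat_lit 2610) (nat_lit 163) (.e (nat_lit 163979) (nat_lit 30) (.e (nat_lit 573491) (nat_lit 15) (.e (nat_lit 81951) (nat_lit 22) (.e (nat_lit 90185) (nat_lit 17) (.e (nat_lit 237585) (nat_lit 1) (.e (nat_lit 164345) (nat_lit 240) .nil))))))) (.g (nat_lit 1) (.e (nat_lit 20271) (nat_lit 0) .nil) .nil))) 
(.lf (nat_lit 452156) (.g (nat_lit 2359) (.e (nat_lit 2612) (nat_lit 163) (.e (nat_lit 163977) (nat_lit 30) (.e (nat_lit 573491) (nat_lit 15) (.e (nat_lit 81954) (nat_lit 23) (.e (nat_lit 98362) (nat_lit 26) (.e (nat_lit 426144) (nat_lit 4) (.e (nat_lit 229663) (nat_lit 240) .nil))))))) (.g (nat_lit 1) (.e (nat_lit 22281) (nat_lit 0) .nil) .nil)))) (.nd (nat_lit 9) 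
(.lf (nat_lit 451900) (.g (nat_lit 4020) (.e (nat_lit 2611) (nat_lit 163) (.e (nat_lit 163977) (nat_lit 30) (.e (nat_lit 573482) (nat_lit 13) (.e (nat_lit 65604) (nat_lit 9) (.e (nat_lit 336013) (nat_lit 2) (.e (nat_lit 90170) (nat_lit 13) (.e (nat_lit 172059) (nat_lit 1) (.e (nat_lit 164346) (nat_lit 240) .nil)))))))) (.g (nat_lit 1) (.e (nat_lit 20991) (nat_lit 0) .nil) .nil))) 
(.lf (nat_lit 452412) (.g (nat_lit 5976) (.e (nat_lit 2612) (nat_lit 163) (.e (nat_lit 163979) (nat_lit 30) (.e (nat_lit 573482) (nat_lit 13) (.e (nat_lit 65619) (nat_lit 10) (.e (nat_lit 344117) (nat_lit 21) (.e (nat_lit 516151) (nat_lit 9) (.e (nat_lit 426142) (nat_lit 4) (.e (nat_lit 229663) (nat_lit 240) .nil)))))))) (.g (nat_lit 1) (.e (nat_lit 22636) (nat_lit 0) .nil) .nil))))) 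
(.nd (nat_lit 8) (.nd (nat_lit 9) 
(.lf (nat_lit 451772) (.g (nat_lit 4179) (.e (nat_lit 2610) (nat_lit 163) (.e (nat_lit 163979) (nat_lit 30) (.e (nat_lit 573493) (nat_lit 15) (.e (nat_lit 81954) (nat_lit 23) (.e (nat_lit 98365) (nat_lit 26) (.e (nat_lit 426107) (nat_lit 1) (.e (nat_lit 164345) (nat_lit 240) .nil))))))) (.g (nat_lit 1) (.e (nat_lit 20458) (nat_lit 0) .nil) .nil))) 
(.lf (nat_lit 452284) (.g (nat_lit 2886) (.e (nat_lit 2612) (nat_lit 163) (.e (nat_lit 163978) (nat_lit 30) (.e (nat_lit 573487) (nat_lit 14) (.e (nat_lit 73753) (nat_lit 8) (.e (nat_lit 557098) (nat_lit 13) (.e (nat_lit 179968) (nat_lit 18) (.e (nat_lit 98334) (nat_lit 18) (.e (nat_lit 164304) (nat_lit 226) .nil)))))))) (.g (nat_lit 1) (.e (nat_lit 22448) (nat_lit 0) .nil) .nil)))) 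
(.nd (nat_lit 9) 
(.lf (nat_lit 452028) (.g (nat_lit 4794) (.e (nat_lit 2611) (nat_lit 163) (.e (nat_lit 163979) (nat_lit 30) (.e (nat_lit 573482) (nat_lit 13) (.e (nat_lit 65604) (nat_lit 9) (.e (nat_lit 336028) (nat_lit 3) (.e (nat_lit 98366) (nat_lit 27) (.e (nat_lit 434209) (nat_lit 18) (.e (nat_lit 5548) (nat_lit 306) .nil)))))))) (.g (nat_lit 1) (.e (nat_lit 21789) (nat_lit 0) .nil) .nil))) 
(.lf (nat_lit 452540) (.g (nat_lit 2744) (.e (nat_lit 2612) (nat_lit 163) (.e (nat_lit 163979) (nat_lit 30) (.e (nat_lit 573493) (nat_lit 15) (.e (nat_lit 81956) (nat_lit 23) (.e (nat_lit 98354) (nat_lit 26) (.e (nat_lit 426144) (nat_lit 4) (.e (nat_lit 229663) (nat_lit 240) .nil))))))) (.g (nat_lit 1) (.e (nat_lit 22803) (nat_lit 0) .nil) .nil)))))) 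
(.nd (nat_lit 7) (.nd (nat_lit 8) (.nd (nat_lit 9) 
(.lf (nat_lit 451708) (.g (nat_lit 3817) (.e (nat_lit 2610) (nat_lit 163) (.e (nat_lit 163979) (nat_lit 30) (.e (nat_lit 573493) (nat_lit 15) (.e (nat_lit 81951) (nat_lit 22) (.e (nat_lit 90170) (nat_lit 13) (.e (nat_lit 172046) (nat_lit 0) (.e (nat_lit 2458) (nat_lit 157) (.e (nat_lit 5546) (nat_lit 306) .nil)))))))) (.g (nat_lit 1) (.e (nat_lit 20377) (nat_lit 0) .nil) .nil))) 
(.lf (nat_lit 452220) (.g (nat_lit 5130) (.e (nat_lit 2612) (nat_lit 163) (.e (nat_lit 163978) (nat_lit 30) (.e (nat_lit 573484) (nat_lit 13) (.e (nat_lit 65610) (nat_lit 10) (.e (nat_lit 344117) (nat_lit 21) (.e (nat_lit 516151) (nat_lit 9) (.e (nat_lit 426142) (nat_lit 4) (.e (nat_lit 229666) (nat_lit 240) .nil)))))))) (.g (nat_lit 1) (.e (nat_lit 22372) (nat_lit 0) .nil) .nil)))) 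
(.nd (nat_lit 9) 
(.lf (nat_lit 451964) (.g (nat_lit 5295) (.e (nat_lit 2611) (nat_lit 163) (.e (nat_lit 163978) (nat_lit 30) (.e (nat_lit 573479) (nat_lit 13) (.e (nat_lit 65619) (nat_lit 10) (.e (nat_lit 344117) (nat_lit 21) (.e (nat_lit 516160) (nat_lit 10) (.e (nat_lit 434209) (nat_lit 18) (.e (nat_lit 5548) (nat_lit 306) .nil)))))))) (.g (nat_lit 1) (.e (nat_lit 21349) (nat_lit 0) .nil) .nil))) 
(.lf (nat_lit 452476) (.g (nat_lit 2925) (.e (nat_lit 2612) (nat_lit 163) (.e (nat_lit 163979) (nat_lit 30) (.e (nat_lit 573489) (nat_lit 14) (.e (nat_lit 73755) (nat_lit 8) (.e (nat_lit 557104) (nat_lit 14) (.e (nat_lit 180244) (nat_lit 5) (.e (nat_lit 532501) (nat_lit 1) (.e (nat_lit 57663) (nat_lit 152) .nil)))))))) (.g (nat_lit 1) (.e (nat_lit 22710) (nat_lit 0) .nil) .nil))))) 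
(.nd (nat_lit 8) (.nd (nat_lit 9) 
(.lf (nat_lit 451836) (.g (nat_lit 3926) (.e (nat_lit 2610) (nat_lit 163) (.e (nat_lit 163979) (nat_lit 30) (.e (nat_lit 573493) (nat_lit 15) (.e (nat_lit 81956) (nat_lit 23) (.e (nat_lit 98367) (nat_lit 27) (.e (nat_lit 434213) (nat_lit 18) (.e (nat_lit 5548) (nat_lit 306) .nil))))))) (.g (nat_lit 1) (.e (nat_lit 20565) (nat_lit 0) .nil) .nil))) 
(.lf (nat_lit 452348) (.g (nat_lit 4061) (.e (nat_lit 2612) (nat_lit 163) (.e (nat_lit 163978) (nat_lit 30) (.e (nat_lit 573489) (nat_lit 14) (.e (nat_lit 73755) (nat_lit 8) (.e (nat_lit 557098) (nat_lit 13) (.e (nat_lit 172066) (nat_lit 3) (.e (nat_lit 204829) (nat_lit 18) (.e (nat_lit 57659) (nat_lit 152) .nil)))))))) (.g (nat_lit 1) (.e (nat_lit 22529) (nat_lit 0) .nil) .nil)))) 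
(.nd (nat_lit 9) 
(.lf (nat_lit 452092) (.g (nat_lit 4804) (.e (nat_lit 2612) (nat_lit 163) (.e (nat_lit 163964) (nat_lit 25) (.e (nat_lit 532515) (nat_lit 3) (.e (nat_lit 114719) (nat_lit 23) (.e (nat_lit 98356) (nat_lit 26) (.e (nat_lit 426436) (nat_lit 18) (.e (nat_lit 98335) (nat_lit 18) (.e (nat_lit 164305) (nat_lit 226) .nil)))))))) (.g (nat_lit 1) (.e (nat_lit 22203) (nat_lit 0) .nil) .nil))) 
(.lf (nat_lit 452604) (.g (nat_lit 1793) (.e (nat_lit 2612) (nat_lit 163) (.e (nat_lit 164403) (nat_lit 256) (.e (nat_lit 57377) (nat_lit 3) (.e (nat_lit 98357) (nat_lit 26) .nil)))) (.g (nat_lit 0) (.e (nat_lit 23288) (nat_lit 0) .nil) .nil))))))))))) (.nd (nat_lit 2) (.nd (nat_lit 3) (.nd (nat_lit 4) (.nd (nat_lit 5) (.nd (nat_lit 6) (.nd (nat_lit 7) (.nd (nat_lit 8) (.nd (nat_lit 9) 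
(.lf (nat_lit 451586) (.g (nat_lit 4863) (.e (nat_lit 2610) (nat_lit 163) (.e (nat_lit 163979) (nat_lit 30) (.e (nat_lit 573482) (nat_lit 13) (.e (nat_lit 65619) (nat_lit 10) (.e (nat_lit 344117) (nat_lit 21) (.e (nat_lit 516143) (nat_lit 9) (.e (nat_lit 426109) (nat_lit 1) (.e (nat_lit 164345) (nat_lit 240) .nil)))))))) (.g (nat_lit 1) (.e (nat_lit 20180) (nat_lit 0) .nil) .nil))) 
(.lf (nat_lit 452098) (.g (nat_lit 3519) (.e (nat_lit 2612) (nat_lit 163) (.e (nat_lit 163977) (nat_lit 30) (.e (nat_lit 573482) (nat_lit 13) (.e (nat_lit 65604) (nat_lit 9) (.e (nat_lit 336013) (nat_lit 2) (.e (nat_lit 90170) (nat_lit 13) (.e (nat_lit 172070) (nat_lit 4) (.e (nat_lit 229665) (nat_lit 240) .nil)))))))) (.g (nat_lit 1) (.e (nat_lit 22216) (nat_lit 0) .nil) .nil)))) 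
(.nd (nat_lit 9) 
(.lf (nat_lit 451842) (.g (nat_lit 3678) (.e (nat_lit 2610) (nat_lit 163) (.e (nat_lit 163979) (nat_lit 30) (.e (nat_lit 573493) (nat_lit 15) (.e (nat_lit 81956) (nat_lit 23) (.e (nat_lit 98368) (nat_lit 27) (.e (nat_lit 434205) (nat_lit 18) (.e (nat_lit 5543) (nat_lit 306) .nil))))))) (.g (nat_lit 1) (.e (nat_lit 20571) (nat_lit 0) .nil) .nil))) 
(.lf (nat_lit 452354) (.g (nat_lit 5202) (.e (nat_lit 2612) (nat_lit 163) (.e (nat_lit 163978) (nat_lit 30) (.e (nat_lit 573489) (nat_lit 14) (.e (nat_lit 73755) (nat_lit 8) (.e (nat_lit 557098) (nat_lit 13) (.e (nat_lit 172131) (nat_lit 15) (.e (nat_lit 1800) (nat_lit 119) (.e (nat_lit 516120) (nat_lit 1) (.e (nat_lit 164304) (nat_lit 226) .nil))))))))) (.g (nat_lit 1) (.e (nat_lit 22535) (nat_lit 0) .nil) .nil))))) 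
(.nd (nat_lit 8) (.nd (nat_lit 9) 
(.lf (nat_lit 451714) (.g (nat_lit 4961) (.e (nat_lit 2610) (nat_lit 163) (.e (nat_lit 163979) (nat_lit 30) (.e (nat_lit 573493) (nat_lit 15) (.e (nat_lit 81951) (nat_lit 22) (.e (nat_lit 90170) (nat_lit 13) (.e (nat_lit 172061) (nat_lit 1) (.e (nat_lit 164348) (nat_lit 240) .nil))))))) (.g (nat_lit 1) (.e (nat_lit 20383) (nat_lit 0) .nil) .nil))) 
(.lf (nat_lit 452226) (.g (nat_lit 4565) (.e (nat_lit 2612) (nat_lit 163) (.e (nat_lit 163978) (nat_lit 30) (.e (nat_lit 573484) (nat_lit 13) (.e (nat_lit 65610) (nat_lit 10) (.e (nat_lit 344117) (nat_lit 21) (.e (nat_lit 516160) (nat_lit 10) (.e (nat_lit 434215) (nat_lit 18) (.e (nat_lit 5448) (nat_lit 306) .nil)))))))) (.g (nat_lit 1) (.e (nat_lit 22378) (nat_lit 0) .nil) .nil)))) 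
(.nd (nat_lit 9) 
(.lf (nat_lit 451970) (.g (nat_lit 3532) (.e (nat_lit 2611) (nat_lit 163) (.e (nat_lit 163978) (nat_lit 30) (.e (nat_lit 573479) (nat_lit 13) (.e (nat_lit 65619) (nat_lit 10) (.e (nat_lit 344117) (nat_lit 21) (.e (nat_lit 516171) (nat_lit 13) (.e (nat_lit 458774) (nat_lit 18) (.e (nat_lit 5547) (nat_lit 306) .nil)))))))) (.g (nat_lit 1) (.e (nat_lit 21355) (nat_lit 0) .nil) .nil))) 
(.lf (nat_lit 452482) (.g (nat_lit 3814) (.e (nat_lit 2612) (nat_lit 163) (.e (nat_lit 163979) (nat_lit 30) (.e (nat_lit 573491) (nat_lit 15) (.e (nat_lit 81951) (nat_lit 22) (.e (nat_lit 90170) (nat_lit 13) (.e (nat_lit 172068) (nat_lit 4) (.e (nat_lit 229666) (nat_lit 240) .nil))))))) (.g (nat_lit 1) (.e (nat_lit 22716) (nat_lit 0) .nil) .nil)))))) 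
(.nd (nat_lit 7) (.nd (nat_lit 8) (.nd (nat_lit 9) 
(.lf (nat_lit 451650) (.g (nat_lit 3295) (.e (nat_lit 2610) (nat_lit 163) (.e (nat_lit 163979) (nat_lit 30) (.e (nat_lit 573491) (nat_lit 15) (.e (nat_lit 81954) (nat_lit 23) (.e (nat_lit 98356) (nat_lit 26) (.e (nat_lit 433920) (nat_lit 1) (.e (nat_lit 164347) (nat_lit 240) .nil))))))) (.g (nat_lit 1) (.e (nat_lit 20277) (nat_lit 0) .nil) .nil))) 
(.lf (nat_lit 452162) (.g (nat_lit 3617) (.e (nat_lit 2612) (nat_lit 163) (.e (nat_lit 163977) (nat_lit 30) (.e (nat_lit 573492) (nat_lit 15) (.e (nat_lit 81956) (nat_lit 23) (.e (nat_lit 98356) (nat_lit 26) (.e (nat_lit 426148) (nat_lit 4) (.e (nat_lit 229666) (nat_lit 240) .nil))))))) (.g (nat_lit 1) (.e (nat_lit 22292) (nat_lit 0) .nil) .nil)))) (.nd (nat_lit 9) 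
(.lf (nat_lit 451906) (.g (nat_lit 3849) (.e (nat_lit 2611) (nat_lit 163) (.e (nat_lit 163977) (nat_lit 30) (.e (nat_lit 573482) (nat_lit 13) (.e (nat_lit 65619) (nat_lit 10) (.e (nat_lit 344117) (nat_lit 21) (.e (nat_lit 516143) (nat_lit 9) (.e (nat_lit 426109) (nat_lit 1) (.e (nat_lit 164346) (nat_lit 240) .nil)))))))) (.g (nat_lit 1) (.e (nat_lit 21005) (nat_lit 0) .nil) .nil))) 
(.lf (nat_lit 452418) (.g (nat_lit 2933) (.e (nat_lit 2612) (nat_lit 163) (.e (nat_lit 163979) (nat_lit 30) (.e (nat_lit 573482) (nat_lit 13) (.e (nat_lit 65619) (nat_lit 10) (.e (nat_lit 344117) (nat_lit 21) (.e (nat_lit 516159) (nat_lit 10) (.e (nat_lit 434215) (nat_lit 18) (.e (nat_lit 5448) (nat_lit 306) .nil)))))))) (.g (nat_lit 1) (.e (nat_lit 22642) (nat_lit 0) .nil) .nil))))) 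
(.nd (nat_lit 8) (.nd (nat_lit 9) 
(.lf (nat_lit 451778) (.g (nat_lit 4871) (.e (nat_lit 2610) (nat_lit 163) (.e (nat_lit 163979) (nat_lit 30) (.e (nat_lit 573493) (nat_lit 15) (.e (nat_lit 81954) (nat_lit 23) (.e (nat_lit 98366) (nat_lit 27) (.e (nat_lit 434209) (nat_lit 18) (.e (nat_lit 5548) (nat_lit 306) .nil))))))) (.g (nat_lit 1) (.e (nat_lit 20464) (nat_lit 0) .nil) .nil))) 
(.lf (nat_lit 452290) (.g (nat_lit 3658) (.e (nat_lit 2612) (nat_lit 163) (.e (nat_lit 163978) (nat_lit 30) (.e (nat_lit 573487) (nat_lit 14) (.e (nat_lit 73753) (nat_lit 8) (.e (nat_lit 557101) (nat_lit 13) (.e (nat_lit 172136) (nat_lit 15) (.e (nat_lit 1800) (nat_lit 119) (.e (nat_lit 516117) (nat_lit 1) (.e (nat_lit 164305) (nat_lit 226) .nil))))))))) (.g (nat_lit 1) (.e (nat_lit 22458) (nat_lit 0) .nil) .nil)))) 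
(.nd (nat_lit 9) 
(.lf (nat_lit 452034) (.g (nat_lit 4379) (.e (nat_lit 2611) (nat_lit 163) (.e (nat_lit 163979) (nat_lit 30) (.e (nat_lit 573482) (nat_lit 13) (.e (nat_lit 65619) (nat_lit 10) (.e (nat_lit 344117) (nat_lit 21) (.e (nat_lit 516143) (nat_lit 9) (.e (nat_lit 426109) (nat_lit 1) (.e (nat_lit 164347) (nat_lit 240) .nil)))))))) (.g (nat_lit 1) (.e (nat_lit 21795) (nat_lit 0) .nil) .nil))) 
(.lf (nat_lit 452546) (.g (nat_lit 2789) (.e (nat_lit 2612) (nat_lit 163) (.e (nat_lit 163979) (nat_lit 30) (.e (nat_lit 573493) (nat_lit 15) (.e (nat_lit 81956) (nat_lit 23) (.e (nat_lit 98359) (nat_lit 26) (.e (nat_lit 426142) (nat_lit 4) (.e (nat_lit 229664) (nat_lit 240) .nil))))))) (.g (nat_lit 1) (.e (nat_lit 22809) (nat_lit 0) .nil) .nil))))))) 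
(.nd (nat_lit 6) (.nd (nat_lit 7) (.nd (nat_lit 8) (.nd (nat_lit 9) 
(.lf (nat_lit 451618) (.g (nat_lit 4734) (.e (nat_lit 2610) (nat_lit 163) (.e (nat_lit 163979) (nat_lit 30) (.e (nat_lit 573482) (nat_lit 13) (.e (nat_lit 65619) (nat_lit 10) (.e (nat_lit 344117) (nat_lit 21) (.e (nat_lit 516169) (nat_lit 13) (.e (nat_lit 458774) (nat_lit 18) (.e (nat_lit 5548) (nat_lit 306) .nil)))))))) (.g (nat_lit 1) (.e (nat_lit 20212) (nat_lit 0) .nil) .nil))) 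
(.lf (nat_lit 452130) (.g (nat_lit 3089) (.e (nat_lit 2612) (nat_lit 163) (.e (nat_lit 163977) (nat_lit 30) (.e (nat_lit 573487) (nat_lit 14) (.e (nat_lit 73753) (nat_lit 8) (.e (nat_lit 557098) (nat_lit 13) (.e (nat_lit 172133) (nat_lit 15) (.e (nat_lit 1800) (nat_lit 119) (.e (nat_lit 516120) (nat_lit 1) (.e (nat_lit 164305) (nat_lit 226) .nil))))))))) (.g (nat_lit 1) (.e (nat_lit 22249) (nat_lit 0) .nil) .nil)))) 
(.nd (nat_lit 9) 
(.lf (nat_lit 451874) (.g (nat_lit 2373) (.e (nat_lit 2610) (nat_lit 163) (.e (nat_lit 164401) (nat_lit 256) (.e (nat_lit 57373) (nat_lit 2) (.e (nat_lit 90174) (nat_lit 14) (.e (nat_lit 180243) (nat_lit 5) (.e (nat_lit 532513) (nat_lit 3) (.e (nat_lit 114714) (nat_lit 22) (.e (nat_lit 90140) (nat_lit 9) .nil)))))))) (.g (nat_lit 1) (.e (nat_lit 20952) (nat_lit 0) .nil) .nil))) 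
(.lf (nat_lit 452386) (.g (nat_lit 3240) (.e (nat_lit 2612) (nat_lit 163) (.e (nat_lit 163978) (nat_lit 30) (.e (nat_lit 573489) (nat_lit 14) (.e (nat_lit 73755) (nat_lit 8) (.e (nat_lit 557104) (nat_lit 14) (.e (nat_lit 180245) (nat_lit 5) (.e (nat_lit 532499) (nat_lit 1) (.e (nat_lit 57659) (nat_lit 152) .nil)))))))) (.g (nat_lit 1) (.e (nat_lit 22567) (nat_lit 0) .nil) .nil))))) 
(.nd (nat_lit 8) (.nd (nat_lit 9) 
(.lf (nat_lit 451746) (.g (nat_lit 6674) (.e (nat_lit 2610) (nat_lit 163) (.e (nat_lit 163979) (nat_lit 30) (.e (nat_lit 573493) (nat_lit 15) (.e (nat_lit 81953) (nat_lit 22) (.e (nat_lit 90185) (nat_lit 17) (.e (nat_lit 237582) (nat_lit 1) (.e (nat_lit 164347) (nat_lit 240) .nil))))))) (.g (nat_lit 1) (.e (nat_lit 20430) (nat_lit 0) .nil) .nil))) 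
(.lf (nat_lit 452258) (.g (nat_lit 3289) (.e (nat_lit 2612) (nat_lit 163) (.e (nat_lit 163978) (nat_lit 30) (.e (nat_lit 573487) (nat_lit 14) (.e (nat_lit 73753) (nat_lit 8) (.e (nat_lit 557096) (nat_lit 13) (.e (nat_lit 172132) (nat_lit 15) (.e (nat_lit 1796) (nat_lit 119) (.e (nat_lit 516120) (nat_lit 1) (.e (nat_lit 164304) (nat_lit 226) .nil))))))))) (.g (nat_lit 1) (.e (nat_lit 22419) (nat_lit 0) .nil) .nil)))) 
(.nd (nat_lit 9) 
(.lf (nat_lit 452002) (.g (nat_lit 3406) (.e (nat_lit 2611) (nat_lit 163) (.e (nat_lit 163978) (nat_lit 30) (.e (nat_lit 573485) (nat_lit 13) (.e (nat_lit 65619) (nat_lit 10) (.e (nat_lit 344117) (nat_lit 21) (.e (nat_lit 516152) (nat_lit 9) (.e (nat_lit 426109) (nat_lit 1) (.e (nat_lit 164347) (nat_lit 240) .nil)))))))) (.g (nat_lit 1) (.e (nat_lit 21449) (nat_lit 0) .nil) .nil))) 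
(.lf (nat_lit 452514) (.g (nat_lit 5747) (.e (nat_lit 2612) (nat_lit 163) (.e (nat_lit 163979) (nat_lit 30) (.e (nat_lit 573493) (nat_lit 15) (.e (nat_lit 81951) (nat_lit 22) (.e (nat_lit 90170) (nat_lit 13) (.e (nat_lit 172070) (nat_lit 4) (.e (nat_lit 229663) (nat_lit 240) .nil))))))) (.g (nat_lit 1) (.e (nat_lit 22771) (nat_lit 0) .nil) .nil)))))) 
(.nd (nat_lit 7) (.nd (nat_lit 8) (.nd (nat_lit 9) 
(.lf (nat_lit 451682) (.g (nat_lit 1410) (.e (nat_lit 2610) (nat_lit 163) (.e (nat_lit 163979) (nat_lit 30) (.e (nat_lit 573492) (nat_lit 15) (.e (nat_lit 81956) (nat_lit 23) .nil)))) (.g (nat_lit 0) (.e (nat_lit 20313) (nat_lit 0) .nil) .nil))) 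
(.lf (nat_lit 452194) (.g (nat_lit 3728) (.e (nat_lit 2612) (nat_lit 163) (.e (nat_lit 163977) (nat_lit 30) (.e (nat_lit 573493) (nat_lit 15) (.e (nat_lit 81956) (nat_lit 23) (.e (nat_lit 98360) (nat_lit 26) (.e (nat_lit 426142) (nat_lit 4) (.e (nat_lit 229663) (nat_lit 240) .nil))))))) (.g (nat_lit 1) (.e (nat_lit 22334) (nat_lit 0) .nil) .nil)))) (.nd (nat_lit 9) 
(.lf (nat_lit 451938) (.g (nat_lit 3978) (.e (nat_lit 2611) (nat_lit 163) (.e (nat_lit 163978) (nat_lit 30) (.e (nat_lit 573479) (nat_lit 13) (.e (nat_lit 65604) (nat_lit 9) (.e (nat_lit 336013) (nat_lit 2) (.e (nat_lit 90170) (nat_lit 13) (.e (nat_lit 172061) (nat_lit 1) (.e (nat_lit 164348) (nat_lit 240) .nil)))))))) (.g (nat_lit 1) (.e (nat_lit 21321) (nat_lit 0) .nil) .nil))) 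
(.lf (nat_lit 452450) (.g (nat_lit 3197) (.e (nat_lit 2612) (nat_lit 163) (.e (nat_lit 163979) (nat_lit 30) (.e (nat_lit 573488) (nat_lit 14) (.e (nat_lit 73755) (nat_lit 8) (.e (nat_lit 557098) (nat_lit 13) (.e (nat_lit 172133) (nat_lit 15) (.e (nat_lit 1800) (nat_lit 119) (.e (nat_lit 516117) (nat_lit 1) (.e (nat_lit 164305) (nat_lit 226) .nil))))))))) (.g (nat_lit 1) (.e (nat_lit 22680) (nat_lit 0) .nil) .nil))))) 
(.nd (nat_lit 8) (.nd (nat_lit 9) 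
(.lf (nat_lit 451810) (.g (nat_lit 5155) (.e (nat_lit 2610) (nat_lit 163) (.e (nat_lit 163979) (nat_lit 30) (.e (nat_lit 573493) (nat_lit 15) (.e (nat_lit 81956) (nat_lit 23) (.e (nat_lit 98362) (nat_lit 26) (.e (nat_lit 426109) (nat_lit 1) (.e (nat_lit 164345) (nat_lit 240) .nil))))))) (.g (nat_lit 1) (.e (nat_lit 20539) (nat_lit 0) .nil) .nil))) 
(.lf (nat_lit 452322) (.g (nat_lit 6174) (.e (nat_lit 2612) (nat_lit 163) (.e (nat_lit 163978) (nat_lit 30) (.e (nat_lit 573489) (nat_lit 14) (.e (nat_lit 73755) (nat_lit 8) (.e (nat_lit 557096) (nat_lit 13) (.e (nat_lit 172133) (nat_lit 15) (.e (nat_lit 1800) (nat_lit 119) (.e (nat_lit 516117) (nat_lit 1) (.e (nat_lit 164304) (nat_lit 226) .nil))))))))) (.g (nat_lit 1) (.e (nat_lit 22503) (nat_lit 0) .nil) .nil)))) 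
(.nd (nat_lit 9) 
(.lf (nat_lit 452066) (.g (nat_lit 4343) (.e (nat_lit 2611) (nat_lit 163) (.e (nat_lit 164402) (nat_lit 256) (.e (nat_lit 57373) (nat_lit 2) (.e (nat_lit 90174) (nat_lit 14) (.e (nat_lit 180243) (nat_lit 5) (.e (nat_lit 532515) (nat_lit 3) (.e (nat_lit 114716) (nat_lit 22) (.e (nat_lit 90140) (nat_lit 9) .nil)))))))) (.g (nat_lit 1) (.e (nat_lit 22155) (nat_lit 0) .nil) .nil))) 
(.lf (nat_lit 452578) (.g (nat_lit 2786) (.e (nat_lit 2612) (nat_lit 163) (.e (nat_lit 164326) (nat_lit 230) (.e (nat_lit 163904) (nat_lit 12) (.e (nat_lit 426566) (nat_lit 34) (.e (nat_lit 393268) (nat_lit 23) (.e (nat_lit 426428) (nat_lit 17) (.e (nat_lit 90130) (nat_lit 9) .nil))))))) (.g (nat_lit 1) (.e (nat_lit 23027) (nat_lit 0) .nil) .nil)))))))) 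
(.nd (nat_lit 5) (.nd (nat_lit 6) (.nd (nat_lit 7) (.nd (nat_lit 8) (.nd (nat_lit 9) 
(.lf (nat_lit 451602) (.g (nat_lit 3222) (.e (nat_lit 2610) (nat_lit 163) (.e (nat_lit 163979) (nat_lit 30) (.e (nat_lit 573482) (nat_lit 13) (.e (nat_lit 65619) (nat_lit 10) (.e (nat_lit 344117) (nat_lit 21) (.e (nat_lit 516153) (nat_lit 9) (.e (nat_lit 426109) (nat_lit 1) (.e (nat_lit 164345) (nat_lit 240) .nil)))))))) (.g (nat_lit 1) (.e (nat_lit 20196) (nat_lit 0) .nil) .nil))) 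
(.lf (nat_lit 452114) (.g (nat_lit 3928) (.e (nat_lit 2612) (nat_lit 163) (.e (nat_lit 163977) (nat_lit 30) (.e (nat_lit 573485) (nat_lit 13) (.e (nat_lit 65619) (nat_lit 10) (.e (nat_lit 344117) (nat_lit 21) (.e (nat_lit 516143) (nat_lit 9) (.e (nat_lit 426144) (nat_lit 4) (.e (nat_lit 229663) (nat_lit 240) .nil)))))))) (.g (nat_lit 1) (.e (nat_lit 22232) (nat_lit 0) .nil) .nil)))) 
(.nd (nat_lit 9) 
(.lf (nat_lit 451858) (.g (nat_lit 3037) (.e (nat_lit 2610) (nat_lit 163) (.e (nat_lit 164050) (nat_lit 55) (.e (nat_lit 778466) (nat_lit 11) (.e (nat_lit 24617) (nat_lit 7) (.e (nat_lit 319534) (nat_lit 16) (.e (nat_lit 286756) (nat_lit 10) (.e (nat_lit 344090) (nat_lit 18) (.e (nat_lit 5918) (nat_lit 320) .nil)))))))) (.g (nat_lit 1) (.e (nat_lit 20623) (nat_lit 0) .nil) .nil))) 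
(.lf (nat_lit 452370) (.g (nat_lit 3705) (.e (nat_lit 2612) (nat_lit 163) (.e (nat_lit 163978) (nat_lit 30) (.e (nat_lit 573489) (nat_lit 14) (.e (nat_lit 73755) (nat_lit 8) (.e (nat_lit 557098) (nat_lit 13) (.e (nat_lit 179968) (nat_lit 18) (.e (nat_lit 98333) (nat_lit 18) (.e (nat_lit 164305) (nat_lit 226) .nil)))))))) (.g (nat_lit 1) (.e (nat_lit 22551) (nat_lit 0) .nil) .nil))))) 
(.nd (nat_lit 8) (.nd (nat_lit 9) 
(.lf (nat_lit 451730) (.g (nat_lit 3717) (.e (nat_lit 2610) (nat_lit 163) (.e (nat_lit 163979) (nat_lit 30) (.e (nat_lit 573493) (nat_lit 15) (.e (nat_lit 81953) (nat_lit 22) (.e (nat_lit 90170) (nat_lit 13) (.e (nat_lit 172049) (nat_lit 0) (.e (nat_lit 2458) (nat_lit 157) (.e (nat_lit 5547) (nat_lit 306) .nil)))))))) (.g (nat_lit 1) (.e (nat_lit 20414) (nat_lit 0) .nil) .nil))) 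
(.lf (nat_lit 452242) (.g (nat_lit 3124) (.e (nat_lit 2612) (nat_lit 163) (.e (nat_lit 163978) (nat_lit 30) (.e (nat_lit 573485) (nat_lit 13) (.e (nat_lit 65604) (nat_lit 9) (.e (nat_lit 336028) (nat_lit 3) (.e (nat_lit 98366) (nat_lit 27) (.e (nat_lit 434216) (nat_lit 18) (.e (nat_lit 5448) (nat_lit 306) .nil)))))))) (.g (nat_lit 1) (.e (nat_lit 22397) (nat_lit 0) .nil) .nil)))) (.nd (nat_lit 9) 
(.lf (nat_lit 451986) (.g (nat_lit 4860) (.e (nat_lit 2611) (nat_lit 163) (.e (nat_lit 163978) (nat_lit 30) (.e (nat_lit 573485) (nat_lit 13) (.e (nat_lit 65604) (nat_lit 9) (.e (nat_lit 336028) (nat_lit 3) (.e (nat_lit 98366) (nat_lit 27) (.e (nat_lit 434209) (nat_lit 18) (.e (nat_lit 5547) (nat_lit 306) .nil)))))))) (.g (nat_lit 1) (.e (nat_lit 21431) (nat_lit 0) .nil) .nil))) 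
(.lf (nat_lit 452498) (.g (nat_lit 3492) (.e (nat_lit 2612) (nat_lit 163) (.e (nat_lit 163979) (nat_lit 30) (.e (nat_lit 573492) (nat_lit 15) (.e (nat_lit 81956) (nat_lit 23) (.e (nat_lit 98355) (nat_lit 26) (.e (nat_lit 426148) (nat_lit 4) (.e (nat_lit 229666) (nat_lit 240) .nil))))))) (.g (nat_lit 1) (.e (nat_lit 22745) (nat_lit 0) .nil) .nil)))))) 
(.nd (nat_lit 7) (.nd (nat_lit 8) (.nd (nat_lit 9) 
(.lf (nat_lit 451666) (.g (nat_lit 4536) (.e (nat_lit 2610) (nat_lit 163) (.e (nat_lit 163979) (nat_lit 30) (.e (nat_lit 573491) (nat_lit 15) (.e (nat_lit 81954) (nat_lit 23) (.e (nat_lit 98365) (nat_lit 26) (.e (nat_lit 426107) (nat_lit 1) (.e (nat_lit 164347) (nat_lit 240) .nil))))))) (.g (nat_lit 1) (.e (nat_lit 20294) (nat_lit 0) .nil) .nil))) 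
(.lf (nat_lit 452178) (.g (nat_lit 4949) (.e (nat_lit 2612) (nat_lit 163) (.e (nat_lit 163977) (nat_lit 30) (.e (nat_lit 573493) (nat_lit 15) (.e (nat_lit 81953) (nat_lit 22) (.e (nat_lit 90167) (nat_lit 13) (.e (nat_lit 172070) (nat_lit 4) (.e (nat_lit 229666) (nat_lit 240) .nil))))))) (.g (nat_lit 1) (.e (nat_lit 22315) (nat_lit 0) .nil) .nil)))) (.nd (nat_lit 9) 
(.lf (nat_lit 451922) (.g (nat_lit 3969) (.e (nat_lit 2611) (nat_lit 163) (.e (nat_lit 163977) (nat_lit 30) (.e (nat_lit 573485) (nat_lit 13) (.e (nat_lit 65604) (nat_lit 9) (.e (nat_lit 336013) (nat_lit 2) (.e (nat_lit 90170) (nat_lit 13) (.e (nat_lit 172061) (nat_lit 1) (.e (nat_lit 164345) (nat_lit 240) .nil)))))))) (.g (nat_lit 1) (.e (nat_lit 21040) (nat_lit 0) .nil) .nil))) 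
(.lf (nat_lit 452434) (.g (nat_lit 4043) (.e (nat_lit 2612) (nat_lit 163) (.e (nat_lit 163979) (nat_lit 30) (.e (nat_lit 573487) (nat_lit 14) (.e (nat_lit 73753) (nat_lit 8) (.e (nat_lit 557098) (nat_lit 13) (.e (nat_lit 172133) (nat_lit 15) (.e (nat_lit 1800) (nat_lit 119) (.e (nat_lit 516120) (nat_lit 1) (.e (nat_lit 164305) (nat_lit 226) .nil))))))))) (.g (nat_lit 1) (.e (nat_lit 22664) (nat_lit 0) .nil) .nil))))) 
(.nd (nat_lit 8) (.nd (nat_lit 9) 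
(.lf (nat_lit 451794) (.g (nat_lit 4167) (.e (nat_lit 2610) (nat_lit 163) (.e (nat_lit 163979) (nat_lit 30) (.e (nat_lit 573493) (nat_lit 15) (.e (nat_lit 81956) (nat_lit 23) (.e (nat_lit 98359) (nat_lit 26) (.e (nat_lit 426097) (nat_lit 1) (.e (nat_lit 164346) (nat_lit 240) .nil))))))) (.g (nat_lit 1) (.e (nat_lit 20523) (nat_lit 0) .nil) .nil))) 
(.lf (nat_lit 452306) (.g (nat_lit 4800) (.e (nat_lit 2612) (nat_lit 163) (.e (nat_lit 163978) (nat_lit 30) (.e (nat_lit 573489) (nat_lit 14) (.e (nat_lit 73754) (nat_lit 8) (.e (nat_lit 557100) (nat_lit 13) (.e (nat_lit 172138) (nat_lit 15) (.e (nat_lit 1800) (nat_lit 119) (.e (nat_lit 516117) (nat_lit 1) (.e (nat_lit 164304) (nat_lit 226) .nil))))))))) (.g (nat_lit 1) (.e (nat_lit 22474) (nat_lit 0) .nil) .nil)))) 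
(.nd (nat_lit 9) 
(.lf (nat_lit 452050) (.g (nat_lit 4787) (.e (nat_lit 2611) (nat_lit 163) (.e (nat_lit 163979) (nat_lit 30) (.e (nat_lit 573482) (nat_lit 13) (.e (nat_lit 65619) (nat_lit 10) (.e (nat_lit 344117) (nat_lit 21) (.e (nat_lit 516170) (nat_lit 13) (.e (nat_lit 458774) (nat_lit 18) (.e (nat_lit 5547) (nat_lit 306) .nil)))))))) (.g (nat_lit 1) (.e (nat_lit 21811) (nat_lit 0) .nil) .nil))) 
(.lf (nat_lit 452562) (.g (nat_lit 794) (.e (nat_lit 2612) (nat_lit 163) (.e (nat_lit 164325) (nat_lit 230) (.e (nat_lit 163904) (nat_lit 12) .nil))) (.g (nat_lit 0) (.e (nat_lit 22942) (nat_lit 0) .nil) .nil))))))) (.nd (nat_lit 6) (.nd (nat_lit 7) (.nd (nat_lit 8) (.nd (nat_lit 9) 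
(.lf (nat_lit 451634) (.g (nat_lit 3903) (.e (nat_lit 2610) (nat_lit 163) (.e (nat_lit 163979) (nat_lit 30) (.e (nat_lit 573491) (nat_lit 15) (.e (nat_lit 81951) (nat_lit 22) (.e (nat_lit 90170) (nat_lit 13) (.e (nat_lit 172059) (nat_lit 1) (.e (nat_lit 164345) (nat_lit 240) .nil))))))) (.g (nat_lit 1) (.e (nat_lit 20256) (nat_lit 0) .nil) .nil))) 
(.lf (nat_lit 452146) (.g (nat_lit 3733) (.e (nat_lit 2612) (nat_lit 163) (.e (nat_lit 163977) (nat_lit 30) (.e (nat_lit 573491) (nat_lit 15) (.e (nat_lit 81951) (nat_lit 22) (.e (nat_lit 90170) (nat_lit 13) (.e (nat_lit 172068) (nat_lit 4) (.e (nat_lit 229666) (nat_lit 240) .nil))))))) (.g (nat_lit 1) (.e (nat_lit 22268) (nat_lit 0) .nil) .nil)))) (.nd (nat_lit 9) 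
(.lf (nat_lit 451890) (.g (nat_lit 4654) (.e (nat_lit 2610) (nat_lit 163) (.e (nat_lit 164403) (nat_lit 256) (.e (nat_lit 57373) (nat_lit 2) (.e (nat_lit 90174) (nat_lit 14) (.e (nat_lit 180243) (nat_lit 5) (.e (nat_lit 532515) (nat_lit 3) (.e (nat_lit 114716) (nat_lit 22) (.e (nat_lit 90140) (nat_lit 9) .nil)))))))) (.g (nat_lit 1) (.e (nat_lit 20968) (nat_lit 0) .nil) .nil))) 
(.lf (nat_lit 452402) (.g (nat_lit 3358) (.e (nat_lit 2612) (nat_lit 163) (.e (nat_lit 163979) (nat_lit 30) (.e (nat_lit 573482) (nat_lit 13) (.e (nat_lit 65604) (nat_lit 9) (.e (nat_lit 336028) (nat_lit 3) (.e (nat_lit 98359) (nat_lit 26) (.e (nat_lit 426146) (nat_lit 4) (.e (nat_lit 229663) (nat_lit 240) .nil)))))))) (.g (nat_lit 1) (.e (nat_lit 22626) (nat_lit 0) .nil) .nil))))) 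
(.nd (nat_lit 8) (.nd (nat_lit 9) 
(.lf (nat_lit 451762) (.g (nat_lit 4366) (.e (nat_lit 2610) (nat_lit 163) (.e (nat_lit 163979) (nat_lit 30) (.e (nat_lit 573493) (nat_lit 15) (.e (nat_lit 81954) (nat_lit 23) (.e (nat_lit 98359) (nat_lit 26) (.e (nat_lit 426104) (nat_lit 1) (.e (nat_lit 164345) (nat_lit 240) .nil))))))) (.g (nat_lit 1) (.e (nat_lit 20448) (nat_lit 0) .nil) .nil))) 
(.lf (nat_lit 452274) (.g (nat_lit 3532) (.e (nat_lit 2612) (nat_lit 163) (.e (nat_lit 163978) (nat_lit 30) (.e (nat_lit 573487) (nat_lit 14) (.e (nat_lit 73753) (nat_lit 8) (.e (nat_lit 557098) (nat_lit 13) (.e (nat_lit 172136) (nat_lit 15) (.e (nat_lit 1800) (nat_lit 119) (.e (nat_lit 516117) (nat_lit 1) (.e (nat_lit 164304) (nat_lit 226) .nil))))))))) (.g (nat_lit 1) (.e (nat_lit 22438) (nat_lit 0) .nil) .nil)))) 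
(.nd (nat_lit 9) 
(.lf (nat_lit 452018) (.g (nat_lit 4178) (.e (nat_lit 2611) (nat_lit 163) (.e (nat_lit 163979) (nat_lit 30) (.e (nat_lit 573482) (nat_lit 13) (.e (nat_lit 65604) (nat_lit 9) (.e (nat_lit 336013) (nat_lit 2) (.e (nat_lit 90170) (nat_lit 13) (.e (nat_lit 172046) (nat_lit 0) (.e (nat_lit 2458) (nat_lit 157) (.e (nat_lit 5548) (nat_lit 306) .nil))))))))) (.g (nat_lit 1) (.e (nat_lit 21767) (nat_lit 0) .nil) .nil))) 
(.lf (nat_lit 452530) (.g (nat_lit 4536) (.e (nat_lit 2612) (nat_lit 163) (.e (nat_lit 163979) (nat_lit 30) (.e (nat_lit 573493) (nat_lit 15) (.e (nat_lit 81953) (nat_lit 22) (.e (nat_lit 90171) (nat_lit 14) (.e (nat_lit 180233) (nat_lit 0) (.e (nat_lit 5448) (nat_lit 306) .nil))))))) (.g (nat_lit 1) (.e (nat_lit 22788) (nat_lit 0) .nil) .nil)))))) 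
(.nd (nat_lit 7) (.nd (nat_lit 8) (.nd (nat_lit 9) 
(.lf (nat_lit 451698) (.g (nat_lit 2980) (.e (nat_lit 2610) (nat_lit 163) (.e (nat_lit 163979) (nat_lit 30) (.e (nat_lit 573492) (nat_lit 15) (.e (nat_lit 81956) (nat_lit 23) (.e (nat_lit 98376) (nat_lit 30) (.e (nat_lit 458774) (nat_lit 18) (.e (nat_lit 5546) (nat_lit 306) .nil))))))) (.g (nat_lit 1) (.e (nat_lit 20351) (nat_lit 0) .nil) .nil))) 
(.lf (nat_lit 452210) (.g (nat_lit 3267) (.e (nat_lit 2612) (nat_lit 163) (.e (nat_lit 163978) (nat_lit 30) (.e (nat_lit 573484) (nat_lit 13) (.e (nat_lit 65610) (nat_lit 10) (.e (nat_lit 344117) (nat_lit 21) (.e (nat_lit 516143) (nat_lit 9) (.e (nat_lit 426142) (nat_lit 4) (.e (nat_lit 229663) (nat_lit 240) .nil)))))))) (.g (nat_lit 1) (.e (nat_lit 22362) (nat_lit 0) .nil) .nil)))) 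
(.nd (nat_lit 9) 
(.lf (nat_lit 451954) (.g (nat_lit 4128) (.e (nat_lit 2611) (nat_lit 163) (.e (nat_lit 163978) (nat_lit 30) (.e (nat_lit 573479) (nat_lit 13) (.e (nat_lit 65619) (nat_lit 10) (.e (nat_lit 344117) (nat_lit 21) (.e (nat_lit 516151) (nat_lit 9) (.e (nat_lit 426097) (nat_lit 1) (.e (nat_lit 164346) (nat_lit 240) .nil)))))))) (.g (nat_lit 1) (.e (nat_lit 21339) (nat_lit 0) .nil) .nil))) 
(.lf (nat_lit 452466) (.g (nat_lit 4749) (.e (nat_lit 2612) (nat_lit 163) (.e (nat_lit 163979) (nat_lit 30) (.e (nat_lit 573489) (nat_lit 14) (.e (nat_lit 73755) (nat_lit 8) (.e (nat_lit 557098) (nat_lit 13) (.e (nat_lit 172133) (nat_lit 15) (.e (nat_lit 1800) (nat_lit 119) (.e (nat_lit 516120) (nat_lit 1) (.e (nat_lit 164304) (nat_lit 226) .nil))))))))) (.g (nat_lit 1) (.e (nat_lit 22700) (nat_lit 0) .nil) .nil))))) 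
(.nd (nat_lit 8) (.nd (nat_lit 9) 
(.lf (nat_lit 451826) (.g (nat_lit 3870) (.e (nat_lit 2610) (nat_lit 163) (.e (nat_lit 163979) (nat_lit 30) (.e (nat_lit 573493) (nat_lit 15) (.e (nat_lit 81956) (nat_lit 23) (.e (nat_lit 106240) (nat_lit 26) (.e (nat_lit 426107) (nat_lit 1) (.e (nat_lit 164347) (nat_lit 240) .nil))))))) (.g (nat_lit 1) (.e (nat_lit 20555) (nat_lit 0) .nil) .nil))) 
(.lf (nat_lit 452338) (.g (nat_lit 6805) (.e (nat_lit 2612) (nat_lit 163) (.e (nat_lit 163978) (nat_lit 30) (.e (nat_lit 573489) (nat_lit 14) (.e (nat_lit 73755) (nat_lit 8) (.e (nat_lit 557097) (nat_lit 13) (.e (nat_lit 172133) (nat_lit 15) (.e (nat_lit 1800) (nat_lit 119) (.e (nat_lit 516120) (nat_lit 1) (.e (nat_lit 164304) (nat_lit 226) .nil))))))))) (.g (nat_lit 1) (.e (nat_lit 22519) (nat_lit 0) .nil) .nil)))) 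
(.nd (nat_lit 9) 
(.lf (nat_lit 452082) (.g (nat_lit 4374) (.e (nat_lit 2612) (nat_lit 163) (.e (nat_lit 163964) (nat_lit 25) (.e (nat_lit 532513) (nat_lit 3) (.e (nat_lit 114714) (nat_lit 22) (.e (nat_lit 90172) (nat_lit 14) (.e (nat_lit 180244) (nat_lit 5) (.e (nat_lit 532499) (nat_lit 1) (.e (nat_lit 57659) (nat_lit 152) .nil)))))))) (.g (nat_lit 1) (.e (nat_lit 22183) (nat_lit 0) .nil) .nil))) 
(.lf (nat_lit 452594) (.g (nat_lit 4004) (.e (nat_lit 2612) (nat_lit 163) (.e (nat_lit 164403) (nat_lit 256) (.e (nat_lit 57371) (nat_lit 2) (.e (nat_lit 90174) (nat_lit 14) (.e (nat_lit 180243) (nat_lit 5) (.e (nat_lit 532513) (nat_lit 3) (.e (nat_lit 114714) (nat_lit 22) (.e (nat_lit 90130) (nat_lit 9) .nil)))))))) (.g (nat_lit 1) (.e (nat_lit 23278) (nat_lit 0) .nil) .nil))))))))) 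
(.nd (nat_lit 4) (.nd (nat_lit 5) (.nd (nat_lit 6) (.nd (nat_lit 7) (.nd (nat_lit 8) 
(.nd (nat_lit 9) 
(.lf (nat_lit 451594) (.g (nat_lit 5031) (.e (nat_lit 2610) (nat_lit 163) (.e (nat_lit 163979) (nat_lit 30) (.e (nat_lit 573482) (nat_lit 13) (.e (nat_lit 65619) (nat_lit 10) (.e (nat_lit 344117) (nat_lit 21) (.e (nat_lit 516151) (nat_lit 9) (.e (nat_lit 426097) (nat_lit 1) (.e (nat_lit 164347) (nat_lit 240) .nil)))))))) (.g (nat_lit 1) (.e (nat_lit 20188) (nat_lit 0) .nil) .nil))) 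
(.lf (nat_lit 452106) (.g (nat_lit 4733) (.e (nat_lit 2612) (nat_lit 163) (.e (nat_lit 163977) (nat_lit 30) (.e (nat_lit 573484) (nat_lit 13) (.e (nat_lit 65610) (nat_lit 10) (.e (nat_lit 344117) (nat_lit 21) (.e (nat_lit 516151) (nat_lit 9) (.e (nat_lit 426142) (nat_lit 4) (.e (nat_lit 229663) (nat_lit 240) .nil)))))))) (.g (nat_lit 1) (.e (nat_lit 22224) (nat_lit 0) .nil) .nil)))) 
(.nd (nat_lit 9) 
(.lf (nat_lit 451850) (.g (nat_lit 3125) (.e (nat_lit 2610) (nat_lit 163) (.e (nat_lit 163979) (nat_lit 30) (.e (nat_lit 573493) (nat_lit 15) (.e (nat_lit 81956) (nat_lit 23) (.e (nat_lit 98368) (nat_lit 27) (.e (nat_lit 434211) (nat_lit 18) (.e (nat_lit 5546) (nat_lit 306) .nil))))))) (.g (nat_lit 1) (.e (nat_lit 20579) (nat_lit 0) .nil) .nil))) 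
(.lf (nat_lit 452362) (.g (nat_lit 5616) (.e (nat_lit 2612) (nat_lit 163) (.e (nat_lit 163978) (nat_lit 30) (.e (nat_lit 573489) (nat_lit 14) (.e (nat_lit 73755) (nat_lit 8) (.e (nat_lit 557098) (nat_lit 13) (.e (nat_lit 172136) (nat_lit 15) (.e (nat_lit 1800) (nat_lit 119) (.e (nat_lit 516117) (nat_lit 1) (.e (nat_lit 164304) (nat_lit 226) .nil))))))))) (.g (nat_lit 1) (.e (nat_lit 22543) (nat_lit 0) .nil) .nil))))) 
(.nd (nat_lit 8) (.nd (nat_lit 9) 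
(.lf (nat_lit 451722) (.g (nat_lit 5202) (.e (nat_lit 2610) (nat_lit 163) (.e (nat_lit 163979) (nat_lit 30) (.e (nat_lit 573493) (nat_lit 15) (.e (nat_lit 81951) (nat_lit 22) (.e (nat_lit 90185) (nat_lit 17) (.e (nat_lit 237582) (nat_lit 1) (.e (nat_lit 164348) (nat_lit 240) .nil))))))) (.g (nat_lit 1) (.e (nat_lit 20391) (nat_lit 0) .nil) .nil))) 
(.lf (nat_lit 452234) (.g (nat_lit 3567) (.e (nat_lit 2612) (nat_lit 163) (.e (nat_lit 163978) (nat_lit 30) (.e (nat_lit 573485) (nat_lit 13) (.e (nat_lit 65604) (nat_lit 9) (.e (nat_lit 336013) (nat_lit 2) (.e (nat_lit 90170) (nat_lit 13) (.e (nat_lit 172070) (nat_lit 4) (.e (nat_lit 229664) (nat_lit 240) .nil)))))))) (.g (nat_lit 1) (.e (nat_lit 22388) (nat_lit 0) .nil) .nil)))) 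
(.nd (nat_lit 9) 
(.lf (nat_lit 451978) (.g (nat_lit 4792) (.e (nat_lit 2611) (nat_lit 163) (.e (nat_lit 163978) (nat_lit 30) (.e (nat_lit 573485) (nat_lit 13) (.e (nat_lit 65604) (nat_lit 9) (.e (nat_lit 336013) (nat_lit 2) (.e (nat_lit 90170) (nat_lit 13) (.e (nat_lit 172059) (nat_lit 1) (.e (nat_lit 164347) (nat_lit 240) .nil)))))))) (.g (nat_lit 1) (.e (nat_lit 21406) (nat_lit 0) .nil) .nil))) 
(.lf (nat_lit 452490) (.g (nat_lit 3565) (.e (nat_lit 2612) (nat_lit 163) (.e (nat_lit 163979) (nat_lit 30) (.e (nat_lit 573491) (nat_lit 15) (.e (nat_lit 81954) (nat_lit 23) (.e (nat_lit 98359) (nat_lit 26) (.e (nat_lit 426142) (nat_lit 4) (.e (nat_lit 229666) (nat_lit 240) .nil))))))) (.g (nat_lit 1) (.e (nat_lit 22725) (nat_lit 0) .nil) .nil)))))) 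
(.nd (nat_lit 7) (.nd (nat_lit 8) (.nd (nat_lit 9) 
(.lf (nat_lit 451658) (.g (nat_lit 2458) (.e (nat_lit 2610) (nat_lit 163) (.e (nat_lit 163979) (nat_lit 30) (.e (nat_lit 573491) (nat_lit 15) (.e (nat_lit 81954) (nat_lit 23) (.e (nat_lit 98361) (nat_lit 26) .nil))))) (.g (nat_lit 0) (.e (nat_lit 20286) (nat_lit 0) .nil) .nil))) 
(.lf (nat_lit 452170) (.g (nat_lit 3561) (.e (nat_lit 2612) (nat_lit 163) (.e (nat_lit 163977) (nat_lit 30) (.e (nat_lit 573493) (nat_lit 15) (.e (nat_lit 81951) (nat_lit 22) (.e (nat_lit 90170) (nat_lit 13) .nil))))) (.g (nat_lit 0) (.e (nat_lit 22304) (nat_lit 0) .nil) .nil)))) (.nd (nat_lit 9) 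
(.lf (nat_lit 451914) (.g (nat_lit 3488) (.e (nat_lit 2611) (nat_lit 163) (.e (nat_lit 163977) (nat_lit 30) (.e (nat_lit 573482) (nat_lit 13) (.e (nat_lit 65619) (nat_lit 10) (.e (nat_lit 344117) (nat_lit 21) (.e (nat_lit 516169) (nat_lit 13) (.e (nat_lit 458774) (nat_lit 18) (.e (nat_lit 5547) (nat_lit 306) .nil)))))))) (.g (nat_lit 1) (.e (nat_lit 21013) (nat_lit 0) .nil) .nil))) 
(.lf (nat_lit 452426) (.g (nat_lit 2717) (.e (nat_lit 2612) (nat_lit 163) (.e (nat_lit 163979) (nat_lit 30) (.e (nat_lit 573487) (nat_lit 14) (.e (nat_lit 73753) (nat_lit 8) (.e (nat_lit 557097) (nat_lit 13) (.e (nat_lit 172133) (nat_lit 15) (.e (nat_lit 1800) (nat_lit 119) (.e (nat_lit 516117) (nat_lit 1) (.e (nat_lit 164305) (nat_lit 226) .nil))))))))) (.g (nat_lit 1) (.e (nat_lit 22655) (nat_lit 0) .nil) .nil))))) 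
(.nd (nat_lit 8) (.nd (nat_lit 9) 
(.lf (nat_lit 451786) (.g (nat_lit 4489) (.e (nat_lit 2610) (nat_lit 163) (.e (nat_lit 163979) (nat_lit 30) (.e (nat_lit 573493) (nat_lit 15) (.e (nat_lit 81956) (nat_lit 23) (.e (nat_lit 98354) (nat_lit 26) (.e (nat_lit 426109) (nat_lit 1) (.e (nat_lit 164345) (nat_lit 240) .nil))))))) (.g (nat_lit 1) (.e (nat_lit 20500) (nat_lit 0) .nil) .nil))) 
(.lf (nat_lit 452298) (.g (nat_lit 3517) (.e (nat_lit 2612) (nat_lit 163) (.e (nat_lit 163978) (nat_lit 30) (.e (nat_lit 573487) (nat_lit 14) (.e (nat_lit 73753) (nat_lit 8) (.e (nat_lit 557103) (nat_lit 14) (.e (nat_lit 180244) (nat_lit 5) (.e (nat_lit 532503) (nat_lit 1) (.e (nat_lit 57659) (nat_lit 152) .nil)))))))) (.g (nat_lit 1) (.e (nat_lit 22466) (nat_lit 0) .nil) .nil)))) 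
(.nd (nat_lit 9) 
(.lf (nat_lit 452042) (.g (nat_lit 4010) (.e (nat_lit 2611) (nat_lit 163) (.e (nat_lit 163979) (nat_lit 30) (.e (nat_lit 573482) (nat_lit 13) (.e (nat_lit 65619) (nat_lit 10) (.e (nat_lit 344117) (nat_lit 21) (.e (nat_lit 516159) (nat_lit 10) (.e (nat_lit 434202) (nat_lit 18) (.e (nat_lit 5537) (nat_lit 306) .nil)))))))) (.g (nat_lit 1) (.e (nat_lit 21803) (nat_lit 0) .nil) .nil))) 
(.lf (nat_lit 452554) (.g (nat_lit 4250) (.e (nat_lit 2612) (nat_lit 163) (.e (nat_lit 163979) (nat_lit 30) (.e (nat_lit 573493) (nat_lit 15) (.e (nat_lit 81956) (nat_lit 23) (.e (nat_lit 98362) (nat_lit 26) .nil))))) (.g (nat_lit 0) (.e (nat_lit 22817) (nat_lit 0) .nil) .nil))))))) (.nd (nat_lit 6) (.nd (nat_lit 7) (.nd (nat_lit 8) (.nd (nat_lit 9) 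
(.lf (nat_lit 451626) (.g (nat_lit 3310) (.e (nat_lit 2610) (nat_lit 163) (.e (nat_lit 163979) (nat_lit 30) (.e (nat_lit 573482) (nat_lit 13) (.e (nat_lit 65619) (nat_lit 10) (.e (nat_lit 344129) (nat_lit 26) (.e (nat_lit 557065) (nat_lit 9) (.e (nat_lit 307) (nat_lit 22) (.e (nat_lit 344090) (nat_lit 18) (.e (nat_lit 4708) (nat_lit 275) .nil))))))))) (.g (nat_lit 1) (.e (nat_lit 20222) (nat_lit 0) .nil) .nil))) 
(.lf (nat_lit 452138) (.g (nat_lit 3903) (.e (nat_lit 2612) (nat_lit 163) (.e (nat_lit 163977) (nat_lit 30) (.e (nat_lit 573489) (nat_lit 14) (.e (nat_lit 73755) (nat_lit 8) (.e (nat_lit 557098) (nat_lit 13) (.e (nat_lit 172133) (nat_lit 15) (.e (nat_lit 1800) (nat_lit 119) (.e (nat_lit 516120) (nat_lit 1) (.e (nat_lit 164304) (nat_lit 226) .nil))))))))) (.g (nat_lit 1) (.e (nat_lit 22260) (nat_lit 0) .nil) .nil)))) 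
(.nd (nat_lit 9) 
(.lf (nat_lit 451882) (.g (nat_lit 4050) (.e (nat_lit 2610) (nat_lit 163) (.e (nat_lit 164402) (nat_lit 256) (.e (nat_lit 57373) (nat_lit 2) (.e (nat_lit 90174) (nat_lit 14) (.e (nat_lit 180243) (nat_lit 5) (.e (nat_lit 532515) (nat_lit 3) (.e (nat_lit 114716) (nat_lit 22) (.e (nat_lit 90140) (nat_lit 9) .nil)))))))) (.g (nat_lit 1) (.e (nat_lit 20960) (nat_lit 0) .nil) .nil))) 
(.lf (nat_lit 452394) (.g (nat_lit 5862) (.e (nat_lit 2612) (nat_lit 163) (.e (nat_lit 163979) (nat_lit 30) (.e (nat_lit 573482) (nat_lit 13) (.e (nat_lit 65604) (nat_lit 9) (.e (nat_lit 336013) (nat_lit 2) (.e (nat_lit 90170) (nat_lit 13) (.e (nat_lit 172068) (nat_lit 4) (.e (nat_lit 229663) (nat_lit 240) .nil)))))))) (.g (nat_lit 1) (.e (nat_lit 22618) (nat_lit 0) .nil) .nil))))) 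
(.nd (nat_lit 8) (.nd (nat_lit 9) 
(.lf (nat_lit 451754) (.g (nat_lit 3566) (.e (nat_lit 2610) (nat_lit 163) (.e (nat_lit 163979) (nat_lit 30) (.e (nat_lit 573493) (nat_lit 15) (.e (nat_lit 81954) (nat_lit 23) (.e (nat_lit 98356) (nat_lit 26) .nil))))) (.g (nat_lit 0) (.e (nat_lit 20438) (nat_lit 0) .nil) .nil))) 
(.lf (nat_lit 452266) (.g (nat_lit 3838) (.e (nat_lit 2612) (nat_lit 163) (.e (nat_lit 163978) (nat_lit 30) (.e (nat_lit 573487) (nat_lit 14) (.e (nat_lit 73753) (nat_lit 8) (.e (nat_lit 557097) (nat_lit 13) (.e (nat_lit 179968) (nat_lit 18) (.e (nat_lit 98334) (nat_lit 18) (.e (nat_lit 164305) (nat_lit 226) .nil)))))))) (.g (nat_lit 1) (.e (nat_lit 22427) (nat_lit 0) .nil) .nil)))) 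
(.nd (nat_lit 9) 
(.lf (nat_lit 452010) (.g (nat_lit 5084) (.e (nat_lit 2611) (nat_lit 163) (.e (nat_lit 163978) (nat_lit 30) (.e (nat_lit 573485) (nat_lit 13) (.e (nat_lit 65619) (nat_lit 10) (.e (nat_lit 344117) (nat_lit 21) (.e (nat_lit 516160) (nat_lit 10) (.e (nat_lit 434209) (nat_lit 18) (.e (nat_lit 5547) (nat_lit 306) .nil)))))))) (.g (nat_lit 1) (.e (nat_lit 21457) (nat_lit 0) .nil) .nil))) 
(.lf (nat_lit 452522) (.g (nat_lit 2766) (.e (nat_lit 2612) (nat_lit 163) (.e (nat_lit 163979) (nat_lit 30) (.e (nat_lit 573493) (nat_lit 15) (.e (nat_lit 81953) (nat_lit 22) (.e (nat_lit 90170) (nat_lit 13) (.e (nat_lit 172068) (nat_lit 4) (.e (nat_lit 229664) (nat_lit 240) .nil))))))) (.g (nat_lit 1) (.e (nat_lit 22780) (nat_lit 0) .nil) .nil)))))) 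
(.nd (nat_lit 7) (.nd (nat_lit 8) (.nd (nat_lit 9) 
(.lf (nat_lit 451690) (.g (nat_lit 4374) (.e (nat_lit 2610) (nat_lit 163) (.e (nat_lit 163979) (nat_lit 30) (.e (nat_lit 573492) (nat_lit 15) (.e (nat_lit 81956) (nat_lit 23) (.e (nat_lit 98356) (nat_lit 26) (.e (nat_lit 433920) (nat_lit 1) (.e (nat_lit 164347) (nat_lit 240) .nil))))))) (.g (nat_lit 1) (.e (nat_lit 20343) (nat_lit 0) .nil) .nil))) 
(.lf (nat_lit 452202) (.g (nat_lit 4235) (.e (nat_lit 2612) (nat_lit 163) (.e (nat_lit 163977) (nat_lit 30) (.e (nat_lit 573493) (nat_lit 15) (.e (nat_lit 81956) (nat_lit 23) (.e (nat_lit 98368) (nat_lit 27) (.e (nat_lit 434215) (nat_lit 18) (.e (nat_lit 5448) (nat_lit 306) .nil))))))) (.g (nat_lit 1) (.e (nat_lit 22342) (nat_lit 0) .nil) .nil)))) (.nd (nat_lit 9) 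
(.lf (nat_lit 451946) (.g (nat_lit 2291) (.e (nat_lit 2611) (nat_lit 163) (.e (nat_lit 163978) (nat_lit 30) (.e (nat_lit 573479) (nat_lit 13) (.e (nat_lit 65610) (nat_lit 10) .nil)))) (.g (nat_lit 0) (.e (nat_lit 21331) (nat_lit 0) .nil) .nil))) 
(.lf (nat_lit 452458) (.g (nat_lit 4185) (.e (nat_lit 2612) (nat_lit 163) (.e (nat_lit 163979) (nat_lit 30) (.e (nat_lit 573489) (nat_lit 14) (.e (nat_lit 73755) (nat_lit 8) (.e (nat_lit 557096) (nat_lit 13) (.e (nat_lit 172133) (nat_lit 15) (.e (nat_lit 1800) (nat_lit 119) (.e (nat_lit 516120) (nat_lit 1) (.e (nat_lit 164304) (nat_lit 226) .nil))))))))) (.g (nat_lit 1) (.e (nat_lit 22692) (nat_lit 0) .nil) .nil))))) 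
(.nd (nat_lit 8) (.nd (nat_lit 9) 
(.lf (nat_lit 451818) (.g (nat_lit 5169) (.e (nat_lit 2610) (nat_lit 163) (.e (nat_lit 163979) (nat_lit 30) (.e (nat_lit 573493) (nat_lit 15) (.e (nat_lit 81956) (nat_lit 23) (.e (nat_lit 98365) (nat_lit 26) (.e (nat_lit 426098) (nat_lit 1) (.e (nat_lit 164347) (nat_lit 240) .nil))))))) (.g (nat_lit 1) (.e (nat_lit 20547) (nat_lit 0) .nil) .nil))) 
(.lf (nat_lit 452330) (.g (nat_lit 3707) (.e (nat_lit 2612) (nat_lit 163) (.e (nat_lit 163978) (nat_lit 30) (.e (nat_lit 573489) (nat_lit 14) (.e (nat_lit 73755) (nat_lit 8) (.e (nat_lit 557096) (nat_lit 13) (.e (nat_lit 179968) (nat_lit 18) (.e (nat_lit 98334) (nat_lit 18) (.e (nat_lit 164304) (nat_lit 226) .nil)))))))) (.g (nat_lit 1) (.e (nat_lit 22511) (nat_lit 0) .nil) .nil)))) 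
(.nd (nat_lit 9) 
(.lf (nat_lit 452074) (.g (nat_lit 2994) (.e (nat_lit 2611) (nat_lit 163) (.e (nat_lit 164403) (nat_lit 256) (.e (nat_lit 57373) (nat_lit 2) (.e (nat_lit 90174) (nat_lit 14) (.e (nat_lit 180243) (nat_lit 5) (.e (nat_lit 532515) (nat_lit 3) (.e (nat_lit 114715) (nat_lit 22) (.e (nat_lit 90121) (nat_lit 9) .nil)))))))) (.g (nat_lit 1) (.e (nat_lit 22163) (nat_lit 0) .nil) .nil))) 
(.lf (nat_lit 452586) (.g (nat_lit 3620) (.e (nat_lit 2612) (nat_lit 163) (.e (nat_lit 164402) (nat_lit 256) (.e (nat_lit 57371) (nat_lit 2) (.e (nat_lit 90174) (nat_lit 14) (.e (nat_lit 180243) (nat_lit 5) (.e (nat_lit 532513) (nat_lit 3) (.e (nat_lit 114714) (nat_lit 22) (.e (nat_lit 90130) (nat_lit 9) .nil)))))))) (.g (nat_lit 1) (.e (nat_lit 23270) (nat_lit 0) .nil) .nil)))))))) 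
(.nd (nat_lit 5) (.nd (nat_lit 6) (.nd (nat_lit 7) (.nd (nat_lit 8) (.nd (nat_lit 9) 
(.lf (nat_lit 451610) (.g (nat_lit 3443) (.e (nat_lit 2610) (nat_lit 163) (.e (nat_lit 163979) (nat_lit 30) (.e (nat_lit 573482) (nat_lit 13) (.e (nat_lit 65619) (nat_lit 10) (.e (nat_lit 344117) (nat_lit 21) (.e (nat_lit 516159) (nat_lit 10) (.e (nat_lit 434212) (nat_lit 18) (.e (nat_lit 5548) (nat_lit 306) .nil)))))))) (.g (nat_lit 1) (.e (nat_lit 20204) (nat_lit 0) .nil) .nil))) 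
(.lf (nat_lit 452122) (.g (nat_lit 3284) (.e (nat_lit 2612) (nat_lit 163) (.e (nat_lit 163977) (nat_lit 30) (.e (nat_lit 573487) (nat_lit 14) (.e (nat_lit 73753) (nat_lit 8) (.e (nat_lit 557096) (nat_lit 13) (.e (nat_lit 179968) (nat_lit 18) (.e (nat_lit 98334) (nat_lit 18) (.e (nat_lit 164305) (nat_lit 226) .nil)))))))) (.g (nat_lit 1) (.e (nat_lit 22241) (nat_lit 0) .nil) .nil)))) 
(.nd (nat_lit 9) 
(.lf (nat_lit 451866) (.g (nat_lit 2835) (.e (nat_lit 2610) (nat_lit 163) (.e (nat_lit 164347) (nat_lit 240) (.e (nat_lit 2638) (nat_lit 165) (.e (nat_lit 188160) (nat_lit 38) (.e (nat_lit 122936) (nat_lit 23) (.e (nat_lit 516131) (nat_lit 3) (.e (nat_lit 221219) (nat_lit 24) (.e (nat_lit 213016) (nat_lit 9) .nil)))))))) (.g (nat_lit 1) (.e (nat_lit 20889) (nat_lit 0) .nil) .nil))) 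
(.lf (nat_lit 452378) (.g (nat_lit 3289) (.e (nat_lit 2612) (nat_lit 163) (.e (nat_lit 163978) (nat_lit 30) (.e (nat_lit 573489) (nat_lit 14) (.e (nat_lit 73755) (nat_lit 8) (.e (nat_lit 557103) (nat_lit 14) (.e (nat_lit 180244) (nat_lit 5) (.e (nat_lit 532503) (nat_lit 1) (.e (nat_lit 57658) (nat_lit 152) .nil)))))))) (.g (nat_lit 1) (.e (nat_lit 22559) (nat_lit 0) .nil) .nil))))) 
(.nd (nat_lit 8) (.nd (nat_lit 9) 
(.lf (nat_lit 451738) (.g (nat_lit 4038) (.e (nat_lit 2610) (nat_lit 163) (.e (nat_lit 163979) (nat_lit 30) (.e (nat_lit 573493) (nat_lit 15) (.e (nat_lit 81953) (nat_lit 22) (.e (nat_lit 90172) (nat_lit 14) (.e (nat_lit 180229) (nat_lit 0) (.e (nat_lit 5546) (nat_lit 306) .nil))))))) (.g (nat_lit 1) (.e (nat_lit 20422) (nat_lit 0) .nil) .nil))) 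
(.lf (nat_lit 452250) (.g (nat_lit 3916) (.e (nat_lit 2612) (nat_lit 163) (.e (nat_lit 163978) (nat_lit 30) (.e (nat_lit 573485) (nat_lit 13) (.e (nat_lit 65619) (nat_lit 10) (.e (nat_lit 344117) (nat_lit 21) (.e (nat_lit 516152) (nat_lit 9) (.e (nat_lit 426144) (nat_lit 4) (.e (nat_lit 229663) (nat_lit 240) .nil)))))))) (.g (nat_lit 1) (.e (nat_lit 22406) (nat_lit 0) .nil) .nil)))) 
(.nd (nat_lit 9) 
(.lf (nat_lit 451994) (.g (nat_lit 2147) (.e (nat_lit 2611) (nat_lit 163) (.e (nat_lit 163978) (nat_lit 30) (.e (nat_lit 573485) (nat_lit 13) (.e (nat_lit 65619) (nat_lit 10) (.e (nat_lit 344117) (nat_lit 21) .nil))))) (.g (nat_lit 0) (.e (nat_lit 21440) (nat_lit 0) .nil) .nil))) 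
(.lf (nat_lit 452506) (.g (nat_lit 5207) (.e (nat_lit 2612) (nat_lit 163) (.e (nat_lit 163979) (nat_lit 30) (.e (nat_lit 573492) (nat_lit 15) (.e (nat_lit 81956) (nat_lit 23) (.e (nat_lit 98362) (nat_lit 26) (.e (nat_lit 426143) (nat_lit 4) (.e (nat_lit 229663) (nat_lit 240) .nil))))))) (.g (nat_lit 1) (.e (nat_lit 22753) (nat_lit 0) .nil) .nil)))))) 
(.nd (nat_lit 7) (.nd (nat_lit 8) (.nd (nat_lit 9) 
(.lf (nat_lit 451674) (.g (nat_lit 4495) (.e (nat_lit 2610) (nat_lit 163) (.e (nat_lit 163979) (nat_lit 30) (.e (nat_lit 573491) (nat_lit 15) (.e (nat_lit 81954) (nat_lit 23) (.e (nat_lit 98367) (nat_lit 27) (.e (nat_lit 434209) (nat_lit 18) (.e (nat_lit 5547) (nat_lit 306) .nil))))))) (.g (nat_lit 1) (.e (nat_lit 20302) (nat_lit 0) .nil) .nil))) 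
(.lf (nat_lit 452186) (.g (nat_lit 1967) (.e (nat_lit 2612) (nat_lit 163) (.e (nat_lit 163977) (nat_lit 30) (.e (nat_lit 573493) (nat_lit 15) (.e (nat_lit 81954) (nat_lit 23) .nil)))) (.g (nat_lit 0) (.e (nat_lit 22324) (nat_lit 0) .nil) .nil)))) (.nd (nat_lit 9) 
(.lf (nat_lit 451930) (.g (nat_lit 3749) (.e (nat_lit 2611) (nat_lit 163) (.e (nat_lit 163977) (nat_lit 30) (.e (nat_lit 573485) (nat_lit 13) (.e (nat_lit 65619) (nat_lit 10) (.e (nat_lit 344117) (nat_lit 21) (.e (nat_lit 516159) (nat_lit 10) (.e (nat_lit 434202) (nat_lit 18) (.e (nat_lit 5537) (nat_lit 306) .nil)))))))) (.g (nat_lit 1) (.e (nat_lit 21055) (nat_lit 0) .nil) .nil))) 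
(.lf (nat_lit 452442) (.g (nat_lit 2732) (.e (nat_lit 2612) (nat_lit 163) (.e (nat_lit 163979) (nat_lit 30) (.e (nat_lit 573487) (nat_lit 14) (.e (nat_lit 73753) (nat_lit 8) (.e (nat_lit 557103) (nat_lit 14) (.e (nat_lit 180243) (nat_lit 5) (.e (nat_lit 532501) (nat_lit 1) (.e (nat_lit 57663) (nat_lit 152) .nil)))))))) (.g (nat_lit 1) (.e (nat_lit 22672) (nat_lit 0) .nil) .nil))))) 
(.nd (nat_lit 8) (.nd (nat_lit 9) 
(.lf (nat_lit 451802) (.g (nat_lit 2477) (.e (nat_lit 2610) (nat_lit 163) (.e (nat_lit 163979) (nat_lit 30) (.e (nat_lit 573493) (nat_lit 15) (.e (nat_lit 81956) (nat_lit 23) (.e (nat_lit 98359) (nat_lit 26) (.e (nat_lit 433920) (nat_lit 1) (.e (nat_lit 164348) (nat_lit 240) .nil))))))) (.g (nat_lit 1) (.e (nat_lit 20531) (nat_lit 0) .nil) .nil))) 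
(.lf (nat_lit 452314) (.g (nat_lit 4440) (.e (nat_lit 2612) (nat_lit 163) (.e (nat_lit 163978) (nat_lit 30) (.e (nat_lit 573489) (nat_lit 14) (.e (nat_lit 73754) (nat_lit 8) (.e (nat_lit 557101) (nat_lit 13) (.e (nat_lit 172136) (nat_lit 15) (.e (nat_lit 1800) (nat_lit 119) (.e (nat_lit 516120) (nat_lit 1) (.e (nat_lit 164304) (nat_lit 226) .nil))))))))) (.g (nat_lit 1) (.e (nat_lit 22482) (nat_lit 0) .nil) .nil)))) 
(.nd (nat_lit 9) 
(.lf (nat_lit 452058) (.g (nat_lit 4270) (.e (nat_lit 2611) (nat_lit 163) (.e (nat_lit 164396) (nat_lit 256) (.e (nat_lit 57371) (nat_lit 2) (.e (nat_lit 90174) (nat_lit 14) (.e (nat_lit 180243) (nat_lit 5) (.e (nat_lit 532515) (nat_lit 3) (.e (nat_lit 114716) (nat_lit 22) (.e (nat_lit 90140) (nat_lit 9) .nil)))))))) (.g (nat_lit 1) (.e (nat_lit 22147) (nat_lit 0) .nil) .nil))) 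
(.lf (nat_lit 452570) (.g (nat_lit 3839) (.e (nat_lit 2612) (nat_lit 163) (.e (nat_lit 164326) (nat_lit 230) (.e (nat_lit 163903) (nat_lit 12) (.e (nat_lit 426566) (nat_lit 34) (.e (nat_lit 393271) (nat_lit 23) (.e (nat_lit 426428) (nat_lit 17) (.e (nat_lit 90134) (nat_lit 9) .nil))))))) (.g (nat_lit 1) (.e (nat_lit 23018) (nat_lit 0) .nil) .nil))))))) 
(.nd (nat_lit 6) (.nd (nat_lit 7) (.nd (nat_lit 8) (.nd (nat_lit 9) 
(.lf (nat_lit 451642) (.g (nat_lit 3793) (.e (nat_lit 2610) (nat_lit 163) (.e (nat_lit 163979) (nat_lit 30) (.e (nat_lit 573491) (nat_lit 15) (.e (nat_lit 81951) (nat_lit 22) (.e (nat_lit 90185) (nat_lit 17) (.e (nat_lit 237584) (nat_lit 1) (.e (nat_lit 164345) (nat_lit 240) .nil))))))) (.g (nat_lit 1) (.e (nat_lit 20269) (nat_lit 0) .nil) .nil))) 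
(.lf (nat_lit 452154) (.g (nat_lit 2395) (.e (nat_lit 2612) (nat_lit 163) (.e (nat_lit 163977) (nat_lit 30) (.e (nat_lit 573491) (nat_lit 15) (.e (nat_lit 81954) (nat_lit 23) (.e (nat_lit 98361) (nat_lit 26) (.e (nat_lit 426144) (nat_lit 4) (.e (nat_lit 229663) (nat_lit 240) .nil))))))) (.g (nat_lit 1) (.e (nat_lit 22279) (nat_lit 0) .nil) .nil)))) (.nd (nat_lit 9) 
(.lf (nat_lit 451898) (.g (nat_lit 3334) (.e (nat_lit 2611) (nat_lit 163) (.e (nat_lit 163977) (nat_lit 30) (.e (nat_lit 573482) (nat_lit 13) (.e (nat_lit 65604) (nat_lit 9) (.e (nat_lit 336013) (nat_lit 2) (.e (nat_lit 90170) (nat_lit 13) (.e (nat_lit 172049) (nat_lit 0) (.e (nat_lit 2458) (nat_lit 157) (.e (nat_lit 5547) (nat_lit 306) .nil))))))))) (.g (nat_lit 1) (.e (nat_lit 20989) (nat_lit 0) .nil) .nil))) 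
(.lf (nat_lit 452410) (.g (nat_lit 4732) (.e (nat_lit 2612) (nat_lit 163) (.e (nat_lit 163979) (nat_lit 30) (.e (nat_lit 573482) (nat_lit 13) (.e (nat_lit 65619) (nat_lit 10) (.e (nat_lit 344117) (nat_lit 21) (.e (nat_lit 516143) (nat_lit 9) (.e (nat_lit 426144) (nat_lit 4) (.e (nat_lit 229663) (nat_lit 240) .nil)))))))) (.g (nat_lit 1) (.e (nat_lit 22634) (nat_lit 0) .nil) .nil))))) 
(.nd (nat_lit 8) (.nd (nat_lit 9) 
(.lf (nat_lit 451770) (.g (nat_lit 4411) (.e (nat_lit 2610) (nat_lit 163) (.e (nat_lit 163979) (nat_lit 30) (.e (nat_lit 573493) (nat_lit 15) (.e (nat_lit 81954) (nat_lit 23) (.e (nat_lit 98365) (nat_lit 26) (.e (nat_lit 426098) (nat_lit 1) (.e (nat_lit 164348) (nat_lit 240) .nil))))))) (.g (nat_lit 1) (.e (nat_lit 20456) (nat_lit 0) .nil) .nil))) 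
(.lf (nat_lit 452282) (.g (nat_lit 3133) (.e (nat_lit 2612) (nat_lit 163) (.e (nat_lit 163978) (nat_lit 30) (.e (nat_lit 573487) (nat_lit 14) (.e (nat_lit 73753) (nat_lit 8) (.e (nat_lit 557098) (nat_lit 13) (.e (nat_lit 179968) (nat_lit 18) (.e (nat_lit 98333) (nat_lit 18) (.e (nat_lit 164304) (nat_lit 226) .nil)))))))) (.g (nat_lit 1) (.e (nat_lit 22446) (nat_lit 0) .nil) .nil)))) 
(.nd (nat_lit 9) 
(.lf (nat_lit 452026) (.g (nat_lit 3731) (.e (nat_lit 2611) (nat_lit 163) (.e (nat_lit 163979) (nat_lit 30) (.e (nat_lit 573482) (nat_lit 13) (.e (nat_lit 65604) (nat_lit 9) (.e (nat_lit 336028) (nat_lit 3) (.e (nat_lit 98366) (nat_lit 27) (.e (nat_lit 434202) (nat_lit 18) (.e (nat_lit 5537) (nat_lit 306) .nil)))))))) (.g (nat_lit 1) (.e (nat_lit 21787) (nat_lit 0) .nil) .nil))) 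
(.lf (nat_lit 452538) (.g (nat_lit 4338) (.e (nat_lit 2612) (nat_lit 163) (.e (nat_lit 163979) (nat_lit 30) (.e (nat_lit 573493) (nat_lit 15) (.e (nat_lit 81954) (nat_lit 23) (.e (nat_lit 98365) (nat_lit 26) (.e (nat_lit 426145) (nat_lit 4) (.e (nat_lit 229663) (nat_lit 240) .nil))))))) (.g (nat_lit 1) (.e (nat_lit 22798) (nat_lit 0) .nil) .nil)))))) 
(.nd (nat_lit 7) (.nd (nat_lit 8) (.nd (nat_lit 9) 
(.lf (nat_lit 451706) (.g (nat_lit 4017) (.e (nat_lit 2610) (nat_lit 163) (.e (nat_lit 163979) (nat_lit 30) (.e (nat_lit 573493) (nat_lit 15) (.e (nat_lit 81951) (nat_lit 22) (.e (nat_lit 90170) (nat_lit 13) (.e (nat_lit 172042) (nat_lit 0) (.e (nat_lit 2458) (nat_lit 157) (.e (nat_lit 5547) (nat_lit 306) .nil)))))))) (.g (nat_lit 1) (.e (nat_lit 20375) (nat_lit 0) .nil) .nil))) 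
(.lf (nat_lit 452218) (.g (nat_lit 3313) (.e (nat_lit 2612) (nat_lit 163) (.e (nat_lit 163978) (nat_lit 30) (.e (nat_lit 573484) (nat_lit 13) (.e (nat_lit 65610) (nat_lit 10) (.e (nat_lit 344117) (nat_lit 21) (.e (nat_lit 516151) (nat_lit 9) (.e (nat_lit 426142) (nat_lit 4) (.e (nat_lit 229664) (nat_lit 240) .nil)))))))) (.g (nat_lit 1) (.e (nat_lit 22370) (nat_lit 0) .nil) .nil)))) 
(.nd (nat_lit 9) 
(.lf (nat_lit 451962) (.g (nat_lit 4190) (.e (nat_lit 2611) (nat_lit 163) (.e (nat_lit 163978) (nat_lit 30) (.e (nat_lit 573479) (nat_lit 13) (.e (nat_lit 65619) (nat_lit 10) (.e (nat_lit 344117) (nat_lit 21) (.e (nat_lit 516160) (nat_lit 10) (.e (nat_lit 434209) (nat_lit 18) (.e (nat_lit 5546) (nat_lit 306) .nil)))))))) (.g (nat_lit 1) (.e (nat_lit 21347) (nat_lit 0) .nil) .nil))) 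
(.lf (nat_lit 452474) (.g (nat_lit 4715) (.e (nat_lit 2612) (nat_lit 163) (.e (nat_lit 163979) (nat_lit 30) (.e (nat_lit 573489) (nat_lit 14) (.e (nat_lit 73755) (nat_lit 8) (.e (nat_lit 557098) (nat_lit 13) (.e (nat_lit 179968) (nat_lit 18) (.e (nat_lit 98334) (nat_lit 18) (.e (nat_lit 164305) (nat_lit 226) .nil)))))))) (.g (nat_lit 1) (.e (nat_lit 22708) (nat_lit 0) .nil) .nil))))) 
(.nd (nat_lit 8) (.nd (nat_lit 9) 
(.lf (nat_lit 451834) (.g (nat_lit 3053) (.e (nat_lit 2610) (nat_lit 163) (.e (nat_lit 163979) (nat_lit 30) (.e (nat_lit 573493) (nat_lit 15) (.e (nat_lit 81956) (nat_lit 23) (.e (nat_lit 98367) (nat_lit 27) (.e (nat_lit 434211) (nat_lit 18) (.e (nat_lit 5547) (nat_lit 306) .nil))))))) (.g (nat_lit 1) (.e (nat_lit 20563) (nat_lit 0) .nil) .nil))) 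
(.lf (nat_lit 452346) (.g (nat_lit 3985) (.e (nat_lit 2612) (nat_lit 163) (.e (nat_lit 163978) (nat_lit 30) (.e (nat_lit 573489) (nat_lit 14) (.e (nat_lit 73755) (nat_lit 8) (.e (nat_lit 557097) (nat_lit 13) (.e (nat_lit 179968) (nat_lit 18) (.e (nat_lit 98334) (nat_lit 18) (.e (nat_lit 164304) (nat_lit 226) .nil)))))))) (.g (nat_lit 1) (.e (nat_lit 22527) (nat_lit 0) .nil) .nil)))) 
(.nd (nat_lit 9) 
(.lf (nat_lit 452090) (.g (nat_lit 4106) (.e (nat_lit 2612) (nat_lit 163) (.e (nat_lit 163964) (nat_lit 25) (.e (nat_lit 532513) (nat_lit 3) (.e (nat_lit 114718) (nat_lit 23) (.e (nat_lit 98384) (nat_lit 32) (.e (nat_lit 475177) (nat_lit 24) (.e (nat_lit 516120) (nat_lit 1) (.e (nat_lit 164305) (nat_lit 226) .nil)))))))) (.g (nat_lit 1) (.e (nat_lit 22191) (nat_lit 0) .nil) .nil))) 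
(.lf (nat_lit 452602) (.g (nat_lit 5150) (.e (nat_lit 2612) (nat_lit 163) (.e (nat_lit 164403) (nat_lit 256) (.e (nat_lit 57373) (nat_lit 2) (.e (nat_lit 90174) (nat_lit 14) (.e (nat_lit 180243) (nat_lit 5) (.e (nat_lit 532515) (nat_lit 3) (.e (nat_lit 114716) (nat_lit 22) (.e (nat_lit 90130) (nat_lit 9) .nil)))))))) (.g (nat_lit 1) (.e (nat_lit 23286) (nat_lit 0) .nil) .nil)))))))))) 
(.nd (nat_lit 3) (.nd (nat_lit 4) (.nd (nat_lit 5) (.nd (nat_lit 6) (.nd (nat_lit 7) 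
(.nd (nat_lit 8) (.nd (nat_lit 9) 
(.lf (nat_lit 451590) (.g (nat_lit 5103) (.e (nat_lit 2610) (nat_lit 163) (.e (nat_lit 163979) (nat_lit 30) (.e (nat_lit 573482) (nat_lit 13) (.e (nat_lit 65619) (nat_lit 10) (.e (nat_lit 344117) (nat_lit 21) (.e (nat_lit 516151) (nat_lit 9) (.e (nat_lit 426042) (nat_lit 0) (.e (nat_lit 2458) (nat_lit 157) (.e (nat_lit 5547) (nat_lit 306) .nil))))))))) (.g (nat_lit 1) (.e (nat_lit 20184) (nat_lit 0) .nil) .nil))) 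
(.lf (nat_lit 452102) (.g (nat_lit 3188) (.e (nat_lit 2612) (nat_lit 163) (.e (nat_lit 163977) (nat_lit 30) (.e (nat_lit 573482) (nat_lit 13) (.e (nat_lit 65619) (nat_lit 10) (.e (nat_lit 344117) (nat_lit 21) (.e (nat_lit 516151) (nat_lit 9) (.e (nat_lit 426142) (nat_lit 4) (.e (nat_lit 229665) (nat_lit 240) .nil)))))))) (.g (nat_lit 1) (.e (nat_lit 22220) (nat_lit 0) .nil) .nil)))) 
(.nd (nat_lit 9) 
(.lf (nat_lit 451846) (.g (nat_lit 4764) (.e (nat_lit 2610) (nat_lit 163) (.e (nat_lit 163979) (nat_lit 30) (.e (nat_lit 573493) (nat_lit 15) (.e (nat_lit 81956) (nat_lit 23) (.e (nat_lit 98368) (nat_lit 27) (.e (nat_lit 434209) (nat_lit 18) (.e (nat_lit 5546) (nat_lit 306) .nil))))))) (.g (nat_lit 1) (.e (nat_lit 20575) (nat_lit 0) .nil) .nil))) 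
(.lf (nat_lit 452358) (.g (nat_lit 6898) (.e (nat_lit 2612) (nat_lit 163) (.e (nat_lit 163978) (nat_lit 30) (.e (nat_lit 573489) (nat_lit 14) (.e (nat_lit 73755) (nat_lit 8) (.e (nat_lit 557098) (nat_lit 13) (.e (nat_lit 172133) (nat_lit 15) (.e (nat_lit 1800) (nat_lit 119) (.e (nat_lit 516120) (nat_lit 1) (.e (nat_lit 164304) (nat_lit 226) .nil))))))))) (.g (nat_lit 1) (.e (nat_lit 22539) (nat_lit 0) .nil) .nil))))) 
(.nd (nat_lit 8) (.nd (nat_lit 9) 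
(.lf (nat_lit 451718) (.g (nat_lit 4136) (.e (nat_lit 2610) (nat_lit 163) (.e (nat_lit 163979) (nat_lit 30) (.e (nat_lit 573493) (nat_lit 15) (.e (nat_lit 81951) (nat_lit 22) (.e (nat_lit 90174) (nat_lit 14) (.e (nat_lit 180228) (nat_lit 0) (.e (nat_lit 5548) (nat_lit 306) .nil))))))) (.g (nat_lit 1) (.e (nat_lit 20387) (nat_lit 0) .nil) .nil))) 
(.lf (nat_lit 452230) (.g (nat_lit 6261) (.e (nat_lit 2612) (nat_lit 163) (.e (nat_lit 163978) (nat_lit 30) (.e (nat_lit 573485) (nat_lit 13) (.e (nat_lit 65604) (nat_lit 9) (.e (nat_lit 336013) (nat_lit 2) (.e (nat_lit 90170) (nat_lit 13) (.e (nat_lit 172069) (nat_lit 4) (.e (nat_lit 229663) (nat_lit 240) .nil)))))))) (.g (nat_lit 1) (.e (nat_lit 22384) (nat_lit 0) .nil) .nil)))) 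
(.nd (nat_lit 9) 
(.lf (nat_lit 451974) (.g (nat_lit 3604) (.e (nat_lit 2611) (nat_lit 163) (.e (nat_lit 163978) (nat_lit 30) (.e (nat_lit 573479) (nat_lit 13) (.e (nat_lit 65619) (nat_lit 10) (.e (nat_lit 344129) (nat_lit 26) (.e (nat_lit 557087) (nat_lit 11) (.e (nat_lit 24597) (nat_lit 1) (.e (nat_lit 57771) (nat_lit 227) .nil)))))))) (.g (nat_lit 1) (.e (nat_lit 21362) (nat_lit 0) .nil) .nil))) 
(.lf (nat_lit 452486) (.g (nat_lit 3941) (.e (nat_lit 2612) (nat_lit 163) (.e (nat_lit 163979) (nat_lit 30) (.e (nat_lit 573491) (nat_lit 15) (.e (nat_lit 81951) (nat_lit 22) (.e (nat_lit 90172) (nat_lit 14) (.e (nat_lit 180233) (nat_lit 0) (.e (nat_lit 5448) (nat_lit 306) .nil))))))) (.g (nat_lit 1) (.e (nat_lit 22720) (nat_lit 0) .nil) .nil)))))) 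
(.nd (nat_lit 7) (.nd (nat_lit 8) (.nd (nat_lit 9) 
(.lf (nat_lit 451654) (.g (nat_lit 3763) (.e (nat_lit 2610) (nat_lit 163) (.e (nat_lit 163979) (nat_lit 30) (.e (nat_lit 573491) (nat_lit 15) (.e (nat_lit 81954) (nat_lit 23) (.e (nat_lit 98359) (nat_lit 26) (.e (nat_lit 426104) (nat_lit 1) (.e (nat_lit 164345) (nat_lit 240) .nil))))))) (.g (nat_lit 1) (.e (nat_lit 20282) (nat_lit 0) .nil) .nil))) 
(.lf (nat_lit 452166) (.g (nat_lit 4753) (.e (nat_lit 2612) (nat_lit 163) (.e (nat_lit 163977) (nat_lit 30) (.e (nat_lit 573492) (nat_lit 15) (.e (nat_lit 81956) (nat_lit 23) (.e (nat_lit 98359) (nat_lit 26) .nil))))) (.g (nat_lit 0) (.e (nat_lit 22296) (nat_lit 0) .nil) .nil)))) (.nd (nat_lit 9) 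
(.lf (nat_lit 451910) (.g (nat_lit 4215) (.e (nat_lit 2611) (nat_lit 163) (.e (nat_lit 163977) (nat_lit 30) (.e (nat_lit 573482) (nat_lit 13) (.e (nat_lit 65619) (nat_lit 10) (.e (nat_lit 344117) (nat_lit 21) (.e (nat_lit 516151) (nat_lit 9) (.e (nat_lit 426097) (nat_lit 1) (.e (nat_lit 164347) (nat_lit 240) .nil)))))))) (.g (nat_lit 1) (.e (nat_lit 21009) (nat_lit 0) .nil) .nil))) 
(.lf (nat_lit 452422) (.g (nat_lit 3864) (.e (nat_lit 2612) (nat_lit 163) (.e (nat_lit 163979) (nat_lit 30) (.e (nat_lit 573487) (nat_lit 14) (.e (nat_lit 73753) (nat_lit 8) (.e (nat_lit 557096) (nat_lit 13) (.e (nat_lit 172133) (nat_lit 15) (.e (nat_lit 1800) (nat_lit 119) (.e (nat_lit 516117) (nat_lit 1) (.e (nat_lit 164305) (nat_lit 226) .nil))))))))) (.g (nat_lit 1) (.e (nat_lit 22651) (nat_lit 0) .nil) .nil))))) 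
(.nd (nat_lit 8) (.nd (nat_lit 9) 
(.lf (nat_lit 451782) (.g (nat_lit 5483) (.e (nat_lit 2610) (nat_lit 163) (.e (nat_lit 163979) (nat_lit 30) (.e (nat_lit 573493) (nat_lit 15) (.e (nat_lit 81954) (nat_lit 23) (.e (nat_lit 98367) (nat_lit 27) (.e (nat_lit 434209) (nat_lit 18) (.e (nat_lit 5547) (nat_lit 306) .nil))))))) (.g (nat_lit 1) (.e (nat_lit 20468) (nat_lit 0) .nil) .nil))) 
(.lf (nat_lit 452294) (.g (nat_lit 2961) (.e (nat_lit 2612) (nat_lit 163) (.e (nat_lit 163978) (nat_lit 30) (.e (nat_lit 573487) (nat_lit 14) (.e (nat_lit 73753) (nat_lit 8) (.e (nat_lit 557101) (nat_lit 13) (.e (nat_lit 179968) (nat_lit 15) (.e (nat_lit 1800) (nat_lit 119) (.e (nat_lit 516120) (nat_lit 1) (.e (nat_lit 164304) (nat_lit 226) .nil))))))))) (.g (nat_lit 1) (.e (nat_lit 22462) (nat_lit 0) .nil) .nil)))) 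
(.nd (nat_lit 9) 
(.lf (nat_lit 452038) (.g (nat_lit 4748) (.e (nat_lit 2611) (nat_lit 163) (.e (nat_lit 163979) (nat_lit 30) (.e (nat_lit 573482) (nat_lit 13) (.e (nat_lit 65619) (nat_lit 10) (.e (nat_lit 344117) (nat_lit 21) (.e (nat_lit 516151) (nat_lit 9) (.e (nat_lit 426097) (nat_lit 1) (.e (nat_lit 164348) (nat_lit 240) .nil)))))))) (.g (nat_lit 1) (.e (nat_lit 21799) (nat_lit 0) .nil) .nil))) 
(.lf (nat_lit 452550) (.g (nat_lit 4344) (.e (nat_lit 2612) (nat_lit 163) (.e (nat_lit 163979) (nat_lit 30) (.e (nat_lit 573493) (nat_lit 15) (.e (nat_lit 81956) (nat_lit 23) (.e (nat_lit 98360) (nat_lit 26) (.e (nat_lit 426144) (nat_lit 4) (.e (nat_lit 229665) (nat_lit 240) .nil))))))) (.g (nat_lit 1) (.e (nat_lit 22813) (nat_lit 0) .nil) .nil))))))) 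
(.nd (nat_lit 6) (.nd (nat_lit 7) (.nd (nat_lit 8) (.nd (nat_lit 9) 
(.lf (nat_lit 451622) (.g (nat_lit 5687) (.e (nat_lit 2610) (nat_lit 163) (.e (nat_lit 163979) (nat_lit 30) (.e (nat_lit 573482) (nat_lit 13) (.e (nat_lit 65619) (nat_lit 10) (.e (nat_lit 344117) (nat_lit 21) (.e (nat_lit 516170) (nat_lit 13) (.e (nat_lit 458774) (nat_lit 18) (.e (nat_lit 5548) (nat_lit 306) .nil)))))))) (.g (nat_lit 1) (.e (nat_lit 20216) (nat_lit 0) .nil) .nil))) 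
(.lf (nat_lit 452134) (.g (nat_lit 3518) (.e (nat_lit 2612) (nat_lit 163) (.e (nat_lit 163977) (nat_lit 30) (.e (nat_lit 573489) (nat_lit 14) (.e (nat_lit 73755) (nat_lit 8) (.e (nat_lit 557096) (nat_lit 13) (.e (nat_lit 172133) (nat_lit 15) (.e (nat_lit 1800) (nat_lit 119) (.e (nat_lit 516117) (nat_lit 1) (.e (nat_lit 164305) (nat_lit 226) .nil))))))))) (.g (nat_lit 1) (.e (nat_lit 22256) (nat_lit 0) .nil) .nil)))) 
(.nd (nat_lit 9) 
(.lf (nat_lit 451878) (.g (nat_lit 3071) (.e (nat_lit 2610) (nat_lit 163) (.e (nat_lit 164402) (nat_lit 256) (.e (nat_lit 57371) (nat_lit 2) (.e (nat_lit 90174) (nat_lit 14) (.e (nat_lit 180243) (nat_lit 5) (.e (nat_lit 532513) (nat_lit 3) (.e (nat_lit 114714) (nat_lit 22) (.e (nat_lit 90140) (nat_lit 9) .nil)))))))) (.g (nat_lit 1) (.e (nat_lit 20956) (nat_lit 0) .nil) .nil))) 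
(.lf (nat_lit 452390) (.g (nat_lit 2429) (.e (nat_lit 2612) (nat_lit 163) (.e (nat_lit 163978) (nat_lit 30) (.e (nat_lit 573489) (nat_lit 14) (.e (nat_lit 73755) (nat_lit 8) (.e (nat_lit 557105) (nat_lit 14) (.e (nat_lit 180245) (nat_lit 5) (.e (nat_lit 532503) (nat_lit 1) (.e (nat_lit 57652) (nat_lit 152) .nil)))))))) (.g (nat_lit 1) (.e (nat_lit 22571) (nat_lit 0) .nil) .nil))))) 
(.nd (nat_lit 8) (.nd (nat_lit 9) 
(.lf (nat_lit 451750) (.g (nat_lit 1981) (.e (nat_lit 2610) (nat_lit 163) (.e (nat_lit 163979) (nat_lit 30) (.e (nat_lit 573493) (nat_lit 15) (.e (nat_lit 81954) (nat_lit 23) .nil)))) (.g (nat_lit 0) (.e (nat_lit 20434) (nat_lit 0) .nil) .nil))) 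
(.lf (nat_lit 452262) (.g (nat_lit 4470) (.e (nat_lit 2612) (nat_lit 163) (.e (nat_lit 163978) (nat_lit 30) (.e (nat_lit 573487) (nat_lit 14) (.e (nat_lit 73753) (nat_lit 8) (.e (nat_lit 557096) (nat_lit 13) (.e (nat_lit 172133) (nat_lit 15) (.e (nat_lit 1800) (nat_lit 119) (.e (nat_lit 516120) (nat_lit 1) (.e (nat_lit 164305) (nat_lit 226) .nil))))))))) (.g (nat_lit 1) (.e (nat_lit 22423) (nat_lit 0) .nil) .nil)))) 
(.nd (nat_lit 9) 
(.lf (nat_lit 452006) (.g (nat_lit 4158) (.e (nat_lit 2611) (nat_lit 163) (.e (nat_lit 163978) (nat_lit 30) (.e (nat_lit 573485) (nat_lit 13) (.e (nat_lit 65619) (nat_lit 10) (.e (nat_lit 344117) (nat_lit 21) (.e (nat_lit 516159) (nat_lit 10) (.e (nat_lit 434209) (nat_lit 18) (.e (nat_lit 5546) (nat_lit 306) .nil)))))))) (.g (nat_lit 1) (.e (nat_lit 21453) (nat_lit 0) .nil) .nil))) 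
(.lf (nat_lit 452518) (.g (nat_lit 3717) (.e (nat_lit 2612) (nat_lit 163) (.e (nat_lit 163979) (nat_lit 30) (.e (nat_lit 573493) (nat_lit 15) (.e (nat_lit 81953) (nat_lit 22) (.e (nat_lit 90166) (nat_lit 13) (.e (nat_lit 172070) (nat_lit 4) (.e (nat_lit 229663) (nat_lit 240) .nil))))))) (.g (nat_lit 1) (.e (nat_lit 22776) (nat_lit 0) .nil) .nil)))))) 
(.nd (nat_lit 7) (.nd (nat_lit 8) (.nd (nat_lit 9) 
(.lf (nat_lit 451686) (.g (nat_lit 2890) (.e (nat_lit 2610) (nat_lit 163) (.e (nat_lit 163979) (nat_lit 30) (.e (nat_lit 573492) (nat_lit 15) (.e (nat_lit 81956) (nat_lit 23) (.e (nat_lit 98356) (nat_lit 26) .nil))))) (.g (nat_lit 0) (.e (nat_lit 20336) (nat_lit 0) .nil) .nil))) 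
(.lf (nat_lit 452198) (.g (nat_lit 3862) (.e (nat_lit 2612) (nat_lit 163) (.e (nat_lit 163977) (nat_lit 30) (.e (nat_lit 573493) (nat_lit 15) (.e (nat_lit 81956) (nat_lit 23) (.e (nat_lit 98363) (nat_lit 26) (.e (nat_lit 426147) (nat_lit 4) (.e (nat_lit 229666) (nat_lit 240) .nil))))))) (.g (nat_lit 1) (.e (nat_lit 22338) (nat_lit 0) .nil) .nil)))) (.nd (nat_lit 9) 
(.lf (nat_lit 451942) (.g (nat_lit 3995) (.e (nat_lit 2611) (nat_lit 163) (.e (nat_lit 163978) (nat_lit 30) (.e (nat_lit 573479) (nat_lit 13) (.e (nat_lit 65604) (nat_lit 9) (.e (nat_lit 336028) (nat_lit 3) (.e (nat_lit 98366) (nat_lit 27) (.e (nat_lit 434209) (nat_lit 18) (.e (nat_lit 5548) (nat_lit 306) .nil)))))))) (.g (nat_lit 1) (.e (nat_lit 21327) (nat_lit 0) .nil) .nil))) 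
(.lf (nat_lit 452454) (.g (nat_lit 3498) (.e (nat_lit 2612) (nat_lit 163) (.e (nat_lit 163979) (nat_lit 30) (.e (nat_lit 573489) (nat_lit 14) (.e (nat_lit 73754) (nat_lit 8) (.e (nat_lit 557095) (nat_lit 13) (.e (nat_lit 179968) (nat_lit 18) (.e (nat_lit 98335) (nat_lit 18) (.e (nat_lit 164305) (nat_lit 226) .nil)))))))) (.g (nat_lit 1) (.e (nat_lit 22684) (nat_lit 0) .nil) .nil))))) 
(.nd (nat_lit 8) (.nd (nat_lit 9) 
(.lf (nat_lit 451814) (.g (nat_lit 4487) (.e (nat_lit 2610) (nat_lit 163) (.e (nat_lit 163979) (nat_lit 30) (.e (nat_lit 573493) (nat_lit 15) (.e (nat_lit 81956) (nat_lit 23) (.e (nat_lit 98364) (nat_lit 26) .nil))))) (.g (nat_lit 0) (.e (nat_lit 20543) (nat_lit 0) .nil) .nil))) 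
(.lf (nat_lit 452326) (.g (nat_lit 3090) (.e (nat_lit 2612) (nat_lit 163) (.e (nat_lit 163978) (nat_lit 30) (.e (nat_lit 573489) (nat_lit 14) (.e (nat_lit 73755) (nat_lit 8) (.e (nat_lit 557096) (nat_lit 13) (.e (nat_lit 179968) (nat_lit 15) (.e (nat_lit 1800) (nat_lit 119) (.e (nat_lit 516117) (nat_lit 1) (.e (nat_lit 164304) (nat_lit 226) .nil))))))))) (.g (nat_lit 1) (.e (nat_lit 22507) (nat_lit 0) .nil) .nil)))) 
(.nd (nat_lit 9) 
(.lf (nat_lit 452070) (.g (nat_lit 3276) (.e (nat_lit 2611) (nat_lit 163) (.e (nat_lit 164403) (nat_lit 256) (.e (nat_lit 57371) (nat_lit 2) (.e (nat_lit 90174) (nat_lit 14) (.e (nat_lit 180243) (nat_lit 5) (.e (nat_lit 532515) (nat_lit 3) (.e (nat_lit 114716) (nat_lit 22) (.e (nat_lit 90121) (nat_lit 9) .nil)))))))) (.g (nat_lit 1) (.e (nat_lit 22159) (nat_lit 0) .nil) .nil))) 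
(.lf (nat_lit 452582) (.g (nat_lit 1794) (.e (nat_lit 2612) (nat_lit 163) (.e (nat_lit 164332) (nat_lit 230) (.e (nat_lit 163905) (nat_lit 12) (.e (nat_lit 426568) (nat_lit 34) (.e (nat_lit 393271) (nat_lit 23) .nil))))) (.g (nat_lit 0) (.e (nat_lit 23114) (nat_lit 0) .nil) .nil)))))))) (.nd (nat_lit 5) (.nd (nat_lit 6) (.nd (nat_lit 7) (.nd (nat_lit 8) (.nd (nat_lit 9) 
(.lf (nat_lit 451606) (.g (nat_lit 3006) (.e (nat_lit 2610) (nat_lit 163) (.e (nat_lit 163979) (nat_lit 30) (.e (nat_lit 573482) (nat_lit 13) (.e (nat_lit 65619) (nat_lit 10) (.e (nat_lit 344117) (nat_lit 21) (.e (nat_lit 524032) (nat_lit 9) (.e (nat_lit 426107) (nat_lit 1) (.e (nat_lit 164347) (nat_lit 240) .nil)))))))) (.g (nat_lit 1) (.e (nat_lit 20200) (nat_lit 0) .nil) .nil))) 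
(.lf (nat_lit 452118) (.g (nat_lit 3097) (.e (nat_lit 2612) (nat_lit 163) (.e (nat_lit 163977) (nat_lit 30) (.e (nat_lit 573487) (nat_lit 14) (.e (nat_lit 73753) (nat_lit 8) (.e (nat_lit 557096) (nat_lit 13) (.e (nat_lit 172133) (nat_lit 15) (.e (nat_lit 1800) (nat_lit 119) (.e (nat_lit 516117) (nat_lit 1) (.e (nat_lit 164304) (nat_lit 226) .nil))))))))) (.g (nat_lit 1) (.e (nat_lit 22237) (nat_lit 0) .nil) .nil)))) 
(.nd (nat_lit 9) 
(.lf (nat_lit 451862) (.g (nat_lit 5026) (.e (nat_lit 2610) (nat_lit 163) (.e (nat_lit 164347) (nat_lit 240) (.e (nat_lit 2610) (nat_lit 163) (.e (nat_lit 163979) (nat_lit 30) (.e (nat_lit 573482) (nat_lit 13) (.e (nat_lit 65619) (nat_lit 10) (.e (nat_lit 344117) (nat_lit 21) (.e (nat_lit 516097) (nat_lit 0) (.e (nat_lit 7366) (nat_lit 388) .nil))))))))) (.g (nat_lit 1) (.e (nat_lit 20764) (nat_lit 0) .nil) .nil))) 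
(.lf (nat_lit 452374) (.g (nat_lit 3388) (.e (nat_lit 2612) (nat_lit 163) (.e (nat_lit 163978) (nat_lit 30) (.e (nat_lit 573489) (nat_lit 14) (.e (nat_lit 73755) (nat_lit 8) (.e (nat_lit 557103) (nat_lit 14) (.e (nat_lit 180244) (nat_lit 5) (.e (nat_lit 532499) (nat_lit 1) (.e (nat_lit 57663) (nat_lit 152) .nil)))))))) (.g (nat_lit 1) (.e (nat_lit 22555) (nat_lit 0) .nil) .nil))))) 
(.nd (nat_lit 8) (.nd (nat_lit 9) 
(.lf (nat_lit 451734) (.g (nat_lit 4224) (.e (nat_lit 2610) (nat_lit 163) (.e (nat_lit 163979) (nat_lit 30) (.e (nat_lit 573493) (nat_lit 15) (.e (nat_lit 81953) (nat_lit 22) (.e (nat_lit 90170) (nat_lit 13) (.e (nat_lit 172061) (nat_lit 1) (.e (nat_lit 164346) (nat_lit 240) .nil))))))) (.g (nat_lit 1) (.e (nat_lit 20418) (nat_lit 0) .nil) .nil))) 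
(.lf (nat_lit 452246) (.g (nat_lit 4725) (.e (nat_lit 2612) (nat_lit 163) (.e (nat_lit 163978) (nat_lit 30) (.e (nat_lit 573485) (nat_lit 13) (.e (nat_lit 65619) (nat_lit 10) (.e (nat_lit 344117) (nat_lit 21) (.e (nat_lit 516143) (nat_lit 9) (.e (nat_lit 426144) (nat_lit 4) (.e (nat_lit 229663) (nat_lit 240) .nil)))))))) (.g (nat_lit 1) (.e (nat_lit 22402) (nat_lit 0) .nil) .nil)))) 
(.nd (nat_lit 9) 
(.lf (nat_lit 451990) (.g (nat_lit 4432) (.e (nat_lit 2611) (nat_lit 163) (.e (nat_lit 163978) (nat_lit 30) (.e (nat_lit 573485) (nat_lit 13) (.e (nat_lit 65604) (nat_lit 9) (.e (nat_lit 336028) (nat_lit 3) (.e (nat_lit 98367) (nat_lit 27) (.e (nat_lit 434209) (nat_lit 18) (.e (nat_lit 5546) (nat_lit 306) .nil)))))))) (.g (nat_lit 1) (.e (nat_lit 21435) (nat_lit 0) .nil) .nil))) 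
(.lf (nat_lit 452502) (.g (nat_lit 3730) (.e (nat_lit 2612) (nat_lit 163) (.e (nat_lit 163979) (nat_lit 30) (.e (nat_lit 573492) (nat_lit 15) (.e (nat_lit 81956) (nat_lit 23) (.e (nat_lit 98356) (nat_lit 26) (.e (nat_lit 433920) (nat_lit 4) (.e (nat_lit 229665) (nat_lit 240) .nil))))))) (.g (nat_lit 1) (.e (nat_lit 22749) (nat_lit 0) .nil) .nil)))))) 
(.nd (nat_lit 7) (.nd (nat_lit 8) (.nd (nat_lit 9) 
(.lf (nat_lit 451670) (.g (nat_lit 4459) (.e (nat_lit 2610) (nat_lit 163) (.e (nat_lit 163979) (nat_lit 30) (.e (nat_lit 573491) (nat_lit 15) (.e (nat_lit 81954) (nat_lit 23) (.e (nat_lit 98366) (nat_lit 27) (.e (nat_lit 434209) (nat_lit 18) (.e (nat_lit 5548) (nat_lit 306) .nil))))))) (.g (nat_lit 1) (.e (nat_lit 20298) (nat_lit 0) .nil) .nil))) 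
(.lf (nat_lit 452182) (.g (nat_lit 5004) (.e (nat_lit 2612) (nat_lit 163) (.e (nat_lit 163977) (nat_lit 30) (.e (nat_lit 573493) (nat_lit 15) (.e (nat_lit 81953) (nat_lit 22) (.e (nat_lit 90171) (nat_lit 14) (.e (nat_lit 180233) (nat_lit 0) (.e (nat_lit 5448) (nat_lit 306) .nil))))))) (.g (nat_lit 1) (.e (nat_lit 22319) (nat_lit 0) .nil) .nil)))) (.nd (nat_lit 9) 
(.lf (nat_lit 451926) (.g (nat_lit 3711) (.e (nat_lit 2611) (nat_lit 163) (.e (nat_lit 163977) (nat_lit 30) (.e (nat_lit 573485) (nat_lit 13) (.e (nat_lit 65619) (nat_lit 10) (.e (nat_lit 344117) (nat_lit 21) (.e (nat_lit 516143) (nat_lit 9) (.e (nat_lit 426109) (nat_lit 1) (.e (nat_lit 164346) (nat_lit 240) .nil)))))))) (.g (nat_lit 1) (.e (nat_lit 21051) (nat_lit 0) .nil) .nil))) 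
(.lf (nat_lit 452438) (.g (nat_lit 2854) (.e (nat_lit 2612) (nat_lit 163) (.e (nat_lit 163979) (nat_lit 30) (.e (nat_lit 573487) (nat_lit 14) (.e (nat_lit 73753) (nat_lit 8) (.e (nat_lit 557098) (nat_lit 13) (.e (nat_lit 179968) (nat_lit 15) (.e (nat_lit 1800) (nat_lit 119) (.e (nat_lit 516120) (nat_lit 1) (.e (nat_lit 164304) (nat_lit 226) .nil))))))))) (.g (nat_lit 1) (.e (nat_lit 22668) (nat_lit 0) .nil) .nil))))) 
(.nd (nat_lit 8) (.nd (nat_lit 9) 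
(.lf (nat_lit 451798) (.g (nat_lit 4122) (.e (nat_lit 2610) (nat_lit 163) (.e (nat_lit 163979) (nat_lit 30) (.e (nat_lit 573493) (nat_lit 15) (.e (nat_lit 81956) (nat_lit 23) (.e (nat_lit 98359) (nat_lit 26) (.e (nat_lit 426103) (nat_lit 1) (.e (nat_lit 164348) (nat_lit 240) .nil))))))) (.g (nat_lit 1) (.e (nat_lit 20527) (nat_lit 0) .nil) .nil))) 
(.lf (nat_lit 452310) (.g (nat_lit 3186) (.e (nat_lit 2612) (nat_lit 163) (.e (nat_lit 163978) (nat_lit 30) (.e (nat_lit 573489) (nat_lit 14) (.e (nat_lit 73754) (nat_lit 8) (.e (nat_lit 557101) (nat_lit 13) (.e (nat_lit 172066) (nat_lit 3) (.e (nat_lit 204829) (nat_lit 18) (.e (nat_lit 57659) (nat_lit 152) .nil)))))))) (.g (nat_lit 1) (.e (nat_lit 22478) (nat_lit 0) .nil) .nil)))) 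
(.nd (nat_lit 9) 
(.lf (nat_lit 452054) (.g (nat_lit 1279) (.e (nat_lit 2611) (nat_lit 163) (.e (nat_lit 164182) (nat_lit 154) (.e (nat_lit 57411) (nat_lit 12) (.e (nat_lit 336019) (nat_lit 3) .nil)))) (.g (nat_lit 0) (.e (nat_lit 22080) (nat_lit 0) .nil) .nil))) 
(.lf (nat_lit 452566) (.g (nat_lit 955) (.e (nat_lit 2612) (nat_lit 163) (.e (nat_lit 164326) (nat_lit 230) (.e (nat_lit 163903) (nat_lit 12) (.e (nat_lit 426566) (nat_lit 34) .nil)))) (.g (nat_lit 0) (.e (nat_lit 23014) (nat_lit 0) .nil) .nil))))))) (.nd (nat_lit 6) (.nd (nat_lit 7) (.nd (nat_lit 8) (.nd (nat_lit 9) 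
(.lf (nat_lit 451638) (.g (nat_lit 3515) (.e (nat_lit 2610) (nat_lit 163) (.e (nat_lit 163979) (nat_lit 30) (.e (nat_lit 573491) (nat_lit 15) (.e (nat_lit 81951) (nat_lit 22) (.e (nat_lit 90170) (nat_lit 13) (.e (nat_lit 172061) (nat_lit 1) (.e (nat_lit 164346) (nat_lit 240) .nil))))))) (.g (nat_lit 1) (.e (nat_lit 20260) (nat_lit 0) .nil) .nil))) 
(.lf (nat_lit 452150) (.g (nat_lit 3203) (.e (nat_lit 2612) (nat_lit 163) (.e (nat_lit 163977) (nat_lit 30) (.e (nat_lit 573491) (nat_lit 15) (.e (nat_lit 81954) (nat_lit 23) (.e (nat_lit 98356) (nat_lit 26) (.e (nat_lit 426148) (nat_lit 4) (.e (nat_lit 229663) (nat_lit 240) .nil))))))) (.g (nat_lit 1) (.e (nat_lit 22275) (nat_lit 0) .nil) .nil)))) (.nd (nat_lit 9) 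
(.lf (nat_lit 451894) (.g (nat_lit 3532) (.e (nat_lit 2610) (nat_lit 163) (.e (nat_lit 164403) (nat_lit 256) (.e (nat_lit 57378) (nat_lit 3) (.e (nat_lit 98376) (nat_lit 30) (.e (nat_lit 458789) (nat_lit 23) (.e (nat_lit 532515) (nat_lit 3) (.e (nat_lit 114716) (nat_lit 22) (.e (nat_lit 90140) (nat_lit 9) .nil)))))))) (.g (nat_lit 1) (.e (nat_lit 20972) (nat_lit 0) .nil) .nil))) 
(.lf (nat_lit 452406) (.g (nat_lit 2499) (.e (nat_lit 2612) (nat_lit 163) (.e (nat_lit 163979) (nat_lit 30) (.e (nat_lit 573482) (nat_lit 13) (.e (nat_lit 65604) (nat_lit 9) (.e (nat_lit 336028) (nat_lit 3) (.e (nat_lit 98366) (nat_lit 27) (.e (nat_lit 434216) (nat_lit 18) (.e (nat_lit 5448) (nat_lit 306) .nil)))))))) (.g (nat_lit 1) (.e (nat_lit 22630) (nat_lit 0) .nil) .nil))))) 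
(.nd (nat_lit 8) (.nd (nat_lit 9) 
(.lf (nat_lit 451766) (.g (nat_lit 3717) (.e (nat_lit 2610) (nat_lit 163) (.e (nat_lit 163979) (nat_lit 30) (.e (nat_lit 573493) (nat_lit 15) (.e (nat_lit 81954) (nat_lit 23) (.e (nat_lit 98362) (nat_lit 26) .nil))))) (.g (nat_lit 0) (.e (nat_lit 20452) (nat_lit 0) .nil) .nil))) 
(.lf (nat_lit 452278) (.g (nat_lit 3871) (.e (nat_lit 2612) (nat_lit 163) (.e (nat_lit 163978) (nat_lit 30) (.e (nat_lit 573487) (nat_lit 14) (.e (nat_lit 73753) (nat_lit 8) (.e (nat_lit 557098) (nat_lit 13) (.e (nat_lit 179968) (nat_lit 15) (.e (nat_lit 1800) (nat_lit 119) (.e (nat_lit 516117) (nat_lit 1) (.e (nat_lit 164304) (nat_lit 226) .nil))))))))) (.g (nat_lit 1) (.e (nat_lit 22442) (nat_lit 0) .nil) .nil)))) 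
(.nd (nat_lit 9) 
(.lf (nat_lit 452022) (.g (nat_lit 4272) (.e (nat_lit 2611) (nat_lit 163) (.e (nat_lit 163979) (nat_lit 30) (.e (nat_lit 573482) (nat_lit 13) (.e (nat_lit 65604) (nat_lit 9) (.e (nat_lit 336013) (nat_lit 2) (.e (nat_lit 90170) (nat_lit 13) (.e (nat_lit 172061) (nat_lit 1) (.e (nat_lit 164345) (nat_lit 240) .nil)))))))) (.g (nat_lit 1) (.e (nat_lit 21771) (nat_lit 0) .nil) .nil))) 
(.lf (nat_lit 452534) (.g (nat_lit 3460) (.e (nat_lit 2612) (nat_lit 163) (.e (nat_lit 163979) (nat_lit 30) (.e (nat_lit 573493) (nat_lit 15) (.e (nat_lit 81954) (nat_lit 23) (.e (nat_lit 98359) (nat_lit 26) .nil))))) (.g (nat_lit 0) (.e (nat_lit 22794) (nat_lit 0) .nil) .nil)))))) (.nd (nat_lit 7) (.nd (nat_lit 8) (.nd (nat_lit 9) 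
(.lf (nat_lit 451702) (.g (nat_lit 3597) (.e (nat_lit 2610) (nat_lit 163) (.e (nat_lit 163979) (nat_lit 30) (.e (nat_lit 573492) (nat_lit 15) (.e (nat_lit 81956) (nat_lit 23) (.e (nat_lit 98378) (nat_lit 30) (.e (nat_lit 458774) (nat_lit 18) (.e (nat_lit 5546) (nat_lit 306) .nil))))))) (.g (nat_lit 1) (.e (nat_lit 20355) (nat_lit 0) .nil) .nil))) 
(.lf (nat_lit 452214) (.g (nat_lit 2667) (.e (nat_lit 2612) (nat_lit 163) (.e (nat_lit 163978) (nat_lit 30) (.e (nat_lit 573484) (nat_lit 13) (.e (nat_lit 65610) (nat_lit 10) (.e (nat_lit 344117) (nat_lit 21) (.e (nat_lit 516143) (nat_lit 9) (.e (nat_lit 426144) (nat_lit 4) (.e (nat_lit 229666) (nat_lit 240) .nil)))))))) (.g (nat_lit 1) (.e (nat_lit 22366) (nat_lit 0) .nil) .nil)))) 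
(.nd (nat_lit 9) 
(.lf (nat_lit 451958) (.g (nat_lit 2798) (.e (nat_lit 2611) (nat_lit 163) (.e (nat_lit 163978) (nat_lit 30) (.e (nat_lit 573479) (nat_lit 13) (.e (nat_lit 65619) (nat_lit 10) (.e (nat_lit 344117) (nat_lit 21) (.e (nat_lit 516152) (nat_lit 9) (.e (nat_lit 426109) (nat_lit 1) (.e (nat_lit 164346) (nat_lit 240) .nil)))))))) (.g (nat_lit 1) (.e (nat_lit 21343) (nat_lit 0) .nil) .nil))) 
(.lf (nat_lit 452470) (.g (nat_lit 3528) (.e (nat_lit 2612) (nat_lit 163) (.e (nat_lit 163979) (nat_lit 30) (.e (nat_lit 573489) (nat_lit 14) (.e (nat_lit 73755) (nat_lit 8) (.e (nat_lit 557098) (nat_lit 13) (.e (nat_lit 172136) (nat_lit 15) (.e (nat_lit 1800) (nat_lit 119) (.e (nat_lit 516120) (nat_lit 1) (.e (nat_lit 164304) (nat_lit 226) .nil))))))))) (.g (nat_lit 1) (.e (nat_lit 22704) (nat_lit 0) .nil) .nil))))) 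
(.nd (nat_lit 8) (.nd (nat_lit 9) 
(.lf (nat_lit 451830) (.g (nat_lit 2968) (.e (nat_lit 2610) (nat_lit 163) (.e (nat_lit 163979) (nat_lit 30) (.e (nat_lit 573493) (nat_lit 15) (.e (nat_lit 81956) (nat_lit 23) (.e (nat_lit 98367) (nat_lit 27) (.e (nat_lit 434207) (nat_lit 18) (.e (nat_lit 5537) (nat_lit 306) .nil))))))) (.g (nat_lit 1) (.e (nat_lit 20559) (nat_lit 0) .nil) .nil))) 
(.lf (nat_lit 452342) (.g (nat_lit 3776) (.e (nat_lit 2612) (nat_lit 163) (.e (nat_lit 163978) (nat_lit 30) (.e (nat_lit 573489) (nat_lit 14) (.e (nat_lit 73755) (nat_lit 8) (.e (nat_lit 557097) (nat_lit 13) (.e (nat_lit 179968) (nat_lit 15) (.e (nat_lit 1800) (nat_lit 119) (.e (nat_lit 516117) (nat_lit 1) (.e (nat_lit 164304) (nat_lit 226) .nil))))))))) (.g (nat_lit 1) (.e (nat_lit 22523) (nat_lit 0) .nil) .nil)))) 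
(.nd (nat_lit 9) 
(.lf (nat_lit 452086) (.g (nat_lit 4338) (.e (nat_lit 2612) (nat_lit 163) (.e (nat_lit 163964) (nat_lit 25) (.e (nat_lit 532513) (nat_lit 3) (.e (nat_lit 114714) (nat_lit 22) (.e (nat_lit 90174) (nat_lit 14) (.e (nat_lit 180243) (nat_lit 5) (.e (nat_lit 532504) (nat_lit 1) (.e (nat_lit 57663) (nat_lit 152) .nil)))))))) (.g (nat_lit 1) (.e (nat_lit 22187) (nat_lit 0) .nil) .nil))) 
(.lf (nat_lit 452598) (.g (nat_lit 2466) (.e (nat_lit 2612) (nat_lit 163) (.e (nat_lit 164403) (nat_lit 256) (.e (nat_lit 57373) (nat_lit 2) (.e (nat_lit 90174) (nat_lit 14) (.e (nat_lit 180243) (nat_lit 5) .nil))))) (.g (nat_lit 0) (.e (nat_lit 23282) (nat_lit 0) .nil) .nil))))))))) (.nd (nat_lit 4) (.nd (nat_lit 5) (.nd (nat_lit 6) (.nd (nat_lit 7) (.nd (nat_lit 8) (.nd (nat_lit 9) 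
(.lf (nat_lit 451598) (.g (nat_lit 2480) (.e (nat_lit 2610) (nat_lit 163) (.e (nat_lit 163979) (nat_lit 30) (.e (nat_lit 573482) (nat_lit 13) (.e (nat_lit 65619) (nat_lit 10) (.e (nat_lit 344117) (nat_lit 21) (.e (nat_lit 516151) (nat_lit 9) (.e (nat_lit 433920) (nat_lit 1) (.e (nat_lit 164348) (nat_lit 240) .nil)))))))) (.g (nat_lit 1) (.e (nat_lit 20192) (nat_lit 0) .nil) .nil))) 
(.lf (nat_lit 452110) (.g (nat_lit 1878) (.e (nat_lit 2612) (nat_lit 163) (.e (nat_lit 163977) (nat_lit 30) (.e (nat_lit 573485) (nat_lit 13) (.e (nat_lit 65604) (nat_lit 9) (.e (nat_lit 336013) (nat_lit 2) (.e (nat_lit 90170) (nat_lit 13) (.e (nat_lit 172070) (nat_lit 4) (.e (nat_lit 229664) (nat_lit 240) .nil)))))))) (.g (nat_lit 1) (.e (nat_lit 22228) (nat_lit 0) .nil) .nil)))) 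
(.nd (nat_lit 9) 
(.lf (nat_lit 451854) (.g (nat_lit 4141) (.e (nat_lit 2610) (nat_lit 163) (.e (nat_lit 163979) (nat_lit 30) (.e (nat_lit 573493) (nat_lit 15) (.e (nat_lit 81956) (nat_lit 23) (.e (nat_lit 98368) (nat_lit 27) (.e (nat_lit 434212) (nat_lit 18) (.e (nat_lit 5547) (nat_lit 306) .nil))))))) (.g (nat_lit 1) (.e (nat_lit 20583) (nat_lit 0) .nil) .nil))) 
(.lf (nat_lit 452366) (.g (nat_lit 2746) (.e (nat_lit 2612) (nat_lit 163) (.e (nat_lit 163978) (nat_lit 30) (.e (nat_lit 573489) (nat_lit 14) (.e (nat_lit 73755) (nat_lit 8) (.e (nat_lit 557098) (nat_lit 13) (.e (nat_lit 179968) (nat_lit 15) (.e (nat_lit 1796) (nat_lit 119) (.e (nat_lit 516120) (nat_lit 1) (.e (nat_lit 164304) (nat_lit 226) .nil))))))))) (.g (nat_lit 1) (.e (nat_lit 22547) (nat_lit 0) .nil) .nil))))) 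
(.nd (nat_lit 8) (.nd (nat_lit 9) 
(.lf (nat_lit 451726) (.g (nat_lit 4581) (.e (nat_lit 2610) (nat_lit 163) (.e (nat_lit 163979) (nat_lit 30) (.e (nat_lit 573493) (nat_lit 15) (.e (nat_lit 81951) (nat_lit 22) (.e (nat_lit 90185) (nat_lit 17) (.e (nat_lit 237585) (nat_lit 1) (.e (nat_lit 164345) (nat_lit 240) .nil))))))) (.g (nat_lit 1) (.e (nat_lit 20395) (nat_lit 0) .nil) .nil))) 
(.lf (nat_lit 452238) (.g (nat_lit 3412) (.e (nat_lit 2612) (nat_lit 163) (.e (nat_lit 163978) (nat_lit 30) (.e (nat_lit 573485) (nat_lit 13) (.e (nat_lit 65604) (nat_lit 9) (.e (nat_lit 336028) (nat_lit 3) (.e (nat_lit 98359) (nat_lit 26) (.e (nat_lit 426146) (nat_lit 4) (.e (nat_lit 229663) (nat_lit 240) .nil)))))))) (.g (nat_lit 1) (.e (nat_lit 22393) (nat_lit 0) .nil) .nil)))) 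
(.nd (nat_lit 9) 
(.lf (nat_lit 451982) (.g (nat_lit 2150) (.e (nat_lit 2611) (nat_lit 163) (.e (nat_lit 163978) (nat_lit 30) (.e (nat_lit 573485) (nat_lit 13) (.e (nat_lit 65604) (nat_lit 9) (.e (nat_lit 336028) (nat_lit 3) .nil))))) (.g (nat_lit 0) (.e (nat_lit 21410) (nat_lit 0) .nil) .nil))) 
(.lf (nat_lit 452494) (.g (nat_lit 1292) (.e (nat_lit 2612) (nat_lit 163) (.e (nat_lit 163979) (nat_lit 30) (.e (nat_lit 573492) (nat_lit 15) (.e (nat_lit 81956) (nat_lit 23) .nil)))) (.g (nat_lit 0) (.e (nat_lit 22731) (nat_lit 0) .nil) .nil)))))) (.nd (nat_lit 7) (.nd (nat_lit 8) (.nd (nat_lit 9) 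
(.lf (nat_lit 451662) (.g (nat_lit 3422) (.e (nat_lit 2610) (nat_lit 163) (.e (nat_lit 163979) (nat_lit 30) (.e (nat_lit 573491) (nat_lit 15) (.e (nat_lit 81954) (nat_lit 23) (.e (nat_lit 98365) (nat_lit 26) (.e (nat_lit 426098) (nat_lit 1) (.e (nat_lit 164348) (nat_lit 240) .nil))))))) (.g (nat_lit 1) (.e (nat_lit 20290) (nat_lit 0) .nil) .nil))) 
(.lf (nat_lit 452174) (.g (nat_lit 3832) (.e (nat_lit 2612) (nat_lit 163) (.e (nat_lit 163977) (nat_lit 30) (.e (nat_lit 573493) (nat_lit 15) (.e (nat_lit 81951) (nat_lit 22) (.e (nat_lit 90172) (nat_lit 14) (.e (nat_lit 180232) (nat_lit 0) (.e (nat_lit 5448) (nat_lit 306) .nil))))))) (.g (nat_lit 1) (.e (nat_lit 22308) (nat_lit 0) .nil) .nil)))) (.nd (nat_lit 9) 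
(.lf (nat_lit 451918) (.g (nat_lit 4352) (.e (nat_lit 2611) (nat_lit 163) (.e (nat_lit 163977) (nat_lit 30) (.e (nat_lit 573482) (nat_lit 13) (.e (nat_lit 65619) (nat_lit 10) (.e (nat_lit 344129) (nat_lit 26) (.e (nat_lit 557087) (nat_lit 11) (.e (nat_lit 24597) (nat_lit 1) (.e (nat_lit 57771) (nat_lit 227) .nil)))))))) (.g (nat_lit 1) (.e (nat_lit 21017) (nat_lit 0) .nil) .nil))) 
(.lf (nat_lit 452430) (.g (nat_lit 2598) (.e (nat_lit 2612) (nat_lit 163) (.e (nat_lit 163979) (nat_lit 30) (.e (nat_lit 573487) (nat_lit 14) (.e (nat_lit 73753) (nat_lit 8) (.e (nat_lit 557098) (nat_lit 13) (.e (nat_lit 172132) (nat_lit 15) (.e (nat_lit 1796) (nat_lit 119) (.e (nat_lit 516120) (nat_lit 1) (.e (nat_lit 164304) (nat_lit 226) .nil))))))))) (.g (nat_lit 1) (.e (nat_lit 22660) (nat_lit 0) .nil) .nil))))) 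
(.nd (nat_lit 8) (.nd (nat_lit 9) 
(.lf (nat_lit 451790) (.g (nat_lit 3382) (.e (nat_lit 2610) (nat_lit 163) (.e (nat_lit 163979) (nat_lit 30) (.e (nat_lit 573493) (nat_lit 15) (.e (nat_lit 81956) (nat_lit 23) (.e (nat_lit 98356) (nat_lit 26) (.e (nat_lit 433920) (nat_lit 1) (.e (nat_lit 164345) (nat_lit 240) .nil))))))) (.g (nat_lit 1) (.e (nat_lit 20504) (nat_lit 0) .nil) .nil))) 
(.lf (nat_lit 452302) (.g (nat_lit 3057) (.e (nat_lit 2612) (nat_lit 163) (.e (nat_lit 163978) (nat_lit 30) (.e (nat_lit 573489) (nat_lit 14) (.e (nat_lit 73754) (nat_lit 8) (.e (nat_lit 557095) (nat_lit 13) (.e (nat_lit 172133) (nat_lit 15) (.e (nat_lit 1800) (nat_lit 119) (.e (nat_lit 516117) (nat_lit 1) (.e (nat_lit 164305) (nat_lit 226) .nil))))))))) (.g (nat_lit 1) (.e (nat_lit 22470) (nat_lit 0) .nil) .nil)))) 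
(.nd (nat_lit 9) 
(.lf (nat_lit 452046) (.g (nat_lit 5091) (.e (nat_lit 2611) (nat_lit 163) (.e (nat_lit 163979) (nat_lit 30) (.e (nat_lit 573482) (nat_lit 13) (.e (nat_lit 65619) (nat_lit 10) (.e (nat_lit 344117) (nat_lit 21) (.e (nat_lit 516160) (nat_lit 10) (.e (nat_lit 434209) (nat_lit 18) (.e (nat_lit 5548) (nat_lit 306) .nil)))))))) (.g (nat_lit 1) (.e (nat_lit 21807) (nat_lit 0) .nil) .nil))) 
(.lf (nat_lit 452558) (.g (nat_lit 6082) (.e (nat_lit 2612) (nat_lit 163) (.e (nat_lit 163979) (nat_lit 30) (.e (nat_lit 573493) (nat_lit 15) (.e (nat_lit 81956) (nat_lit 23) (.e (nat_lit 98365) (nat_lit 26) (.e (nat_lit 426145) (nat_lit 4) (.e (nat_lit 229663) (nat_lit 240) .nil))))))) (.g (nat_lit 1) (.e (nat_lit 22821) (nat_lit 0) .nil) .nil))))))) 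
(.nd (nat_lit 6) (.nd (nat_lit 7) (.nd (nat_lit 8) (.nd (nat_lit 9) 
(.lf (nat_lit 451630) (.g (nat_lit 4096) (.e (nat_lit 2610) (nat_lit 163) (.e (nat_lit 163979) (nat_lit 30) (.e (nat_lit 573482) (nat_lit 13) (.e (nat_lit 65619) (nat_lit 10) (.e (nat_lit 344129) (nat_lit 26) (.e (nat_lit 557087) (nat_lit 11) (.e (nat_lit 24597) (nat_lit 1) (.e (nat_lit 57772) (nat_lit 227) .nil)))))))) (.g (nat_lit 1) (.e (nat_lit 20226) (nat_lit 0) .nil) .nil))) 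
(.lf (nat_lit 452142) (.g (nat_lit 2647) (.e (nat_lit 2612) (nat_lit 163) (.e (nat_lit 163977) (nat_lit 30) (.e (nat_lit 573489) (nat_lit 14) (.e (nat_lit 73755) (nat_lit 8) (.e (nat_lit 557104) (nat_lit 14) (.e (nat_lit 180244) (nat_lit 5) (.e (nat_lit 532503) (nat_lit 1) (.e (nat_lit 57659) (nat_lit 152) .nil)))))))) (.g (nat_lit 1) (.e (nat_lit 22264) (nat_lit 0) .nil) .nil)))) 
(.nd (nat_lit 9) 
(.lf (nat_lit 451886) (.g (nat_lit 2862) (.e (nat_lit 2610) (nat_lit 163) (.e (nat_lit 164403) (nat_lit 256) (.e (nat_lit 57373) (nat_lit 2) (.e (nat_lit 90174) (nat_lit 14) (.e (nat_lit 180243) (nat_lit 5) (.e (nat_lit 532513) (nat_lit 3) (.e (nat_lit 114714) (nat_lit 22) (.e (nat_lit 90121) (nat_lit 9) .nil)))))))) (.g (nat_lit 1) (.e (nat_lit 20964) (nat_lit 0) .nil) .nil))) 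
(.lf (nat_lit 452398) (.g (nat_lit 3322) (.e (nat_lit 2612) (nat_lit 163) (.e (nat_lit 163979) (nat_lit 30) (.e (nat_lit 573482) (nat_lit 13) (.e (nat_lit 65604) (nat_lit 9) (.e (nat_lit 336013) (nat_lit 2) (.e (nat_lit 90170) (nat_lit 13) (.e (nat_lit 172070) (nat_lit 4) (.e (nat_lit 229664) (nat_lit 240) .nil)))))))) (.g (nat_lit 1) (.e (nat_lit 22622) (nat_lit 0) .nil) .nil))))) 
(.nd (nat_lit 8) (.nd (nat_lit 9) 
(.lf (nat_lit 451758) (.g (nat_lit 4293) (.e (nat_lit 2610) (nat_lit 163) (.e (nat_lit 163979) (nat_lit 30) (.e (nat_lit 573493) (nat_lit 15) (.e (nat_lit 81954) (nat_lit 23) (.e (nat_lit 98359) (nat_lit 26) (.e (nat_lit 426097) (nat_lit 1) (.e (nat_lit 164345) (nat_lit 240) .nil))))))) (.g (nat_lit 1) (.e (nat_lit 20444) (nat_lit 0) .nil) .nil))) 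
(.lf (nat_lit 452270) (.g (nat_lit 5356) (.e (nat_lit 2612) (nat_lit 163) (.e (nat_lit 163978) (nat_lit 30) (.e (nat_lit 573487) (nat_lit 14) (.e (nat_lit 73753) (nat_lit 8) (.e (nat_lit 557098) (nat_lit 13) (.e (nat_lit 172133) (nat_lit 15) (.e (nat_lit 1800) (nat_lit 119) (.e (nat_lit 516117) (nat_lit 1) (.e (nat_lit 164304) (nat_lit 226) .nil))))))))) (.g (nat_lit 1) (.e (nat_lit 22434) (nat_lit 0) .nil) .nil)))) 
(.nd (nat_lit 9) 
(.lf (nat_lit 452014) (.g (nat_lit 2121) (.e (nat_lit 2611) (nat_lit 163) (.e (nat_lit 163978) (nat_lit 30) (.e (nat_lit 573490) (nat_lit 15) (.e (nat_lit 81956) (nat_lit 23) .nil)))) (.g (nat_lit 0) (.e (nat_lit 21626) (nat_lit 0) .nil) .nil))) 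
(.lf (nat_lit 452526) (.g (nat_lit 5596) (.e (nat_lit 2612) (nat_lit 163) (.e (nat_lit 163979) (nat_lit 30) (.e (nat_lit 573493) (nat_lit 15) (.e (nat_lit 81953) (nat_lit 22) (.e (nat_lit 90170) (nat_lit 13) (.e (nat_lit 172070) (nat_lit 4) (.e (nat_lit 229663) (nat_lit 240) .nil))))))) (.g (nat_lit 1) (.e (nat_lit 22784) (nat_lit 0) .nil) .nil)))))) 
(.nd (nat_lit 7) (.nd (nat_lit 8) (.nd (nat_lit 9) 
(.lf (nat_lit 451694) (.g (nat_lit 5406) (.e (nat_lit 2610) (nat_lit 163) (.e (nat_lit 163979) (nat_lit 30) (.e (nat_lit 573492) (nat_lit 15) (.e (nat_lit 81956) (nat_lit 23) (.e (nat_lit 98365) (nat_lit 26) (.e (nat_lit 426107) (nat_lit 1) (.e (nat_lit 164347) (nat_lit 240) .nil))))))) (.g (nat_lit 1) (.e (nat_lit 20347) (nat_lit 0) .nil) .nil))) 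
(.lf (nat_lit 452206) (.g (nat_lit 4499) (.e (nat_lit 2612) (nat_lit 163) (.e (nat_lit 163978) (nat_lit 30) (.e (nat_lit 573479) (nat_lit 13) (.e (nat_lit 65604) (nat_lit 9) (.e (nat_lit 336013) (nat_lit 2) (.e (nat_lit 90170) (nat_lit 13) (.e (nat_lit 172069) (nat_lit 4) (.e (nat_lit 229663) (nat_lit 240) .nil)))))))) (.g (nat_lit 1) (.e (nat_lit 22355) (nat_lit 0) .nil) .nil)))) 
(.nd (nat_lit 9) 
(.lf (nat_lit 451950) (.g (nat_lit 4169) (.e (nat_lit 2611) (nat_lit 163) (.e (nat_lit 163978) (nat_lit 30) (.e (nat_lit 573479) (nat_lit 13) (.e (nat_lit 65619) (nat_lit 10) (.e (nat_lit 344117) (nat_lit 21) (.e (nat_lit 516143) (nat_lit 9) (.e (nat_lit 426109) (nat_lit 1) (.e (nat_lit 164346) (nat_lit 240) .nil)))))))) (.g (nat_lit 1) (.e (nat_lit 21335) (nat_lit 0) .nil) .nil))) 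
(.lf (nat_lit 452462) (.g (nat_lit 4632) (.e (nat_lit 2612) (nat_lit 163) (.e (nat_lit 163979) (nat_lit 30) (.e (nat_lit 573489) (nat_lit 14) (.e (nat_lit 73755) (nat_lit 8) (.e (nat_lit 557097) (nat_lit 13) (.e (nat_lit 172133) (nat_lit 15) (.e (nat_lit 1800) (nat_lit 119) (.e (nat_lit 516117) (nat_lit 1) (.e (nat_lit 164305) (nat_lit 226) .nil))))))))) (.g (nat_lit 1) (.e (nat_lit 22696) (nat_lit 0) .nil) .nil))))) 
(.nd (nat_lit 8) (.nd (nat_lit 9) 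
(.lf (nat_lit 451822) (.g (nat_lit 7431) (.e (nat_lit 2610) (nat_lit 163) (.e (nat_lit 163979) (nat_lit 30) (.e (nat_lit 573493) (nat_lit 15) (.e (nat_lit 81956) (nat_lit 23) (.e (nat_lit 98365) (nat_lit 26) (.e (nat_lit 426107) (nat_lit 1) (.e (nat_lit 164347) (nat_lit 240) .nil))))))) (.g (nat_lit 1) (.e (nat_lit 20551) (nat_lit 0) .nil) .nil))) 
(.lf (nat_lit 452334) (.g (nat_lit 3519) (.e (nat_lit 2612) (nat_lit 163) (.e (nat_lit 163978) (nat_lit 30) (.e (nat_lit 573489) (nat_lit 14) (.e (nat_lit 73755) (nat_lit 8) (.e (nat_lit 557097) (nat_lit 13) (.e (nat_lit 172067) (nat_lit 3) (.e (nat_lit 204829) (nat_lit 18) (.e (nat_lit 57659) (nat_lit 152) .nil)))))))) (.g (nat_lit 1) (.e (nat_lit 22515) (nat_lit 0) .nil) .nil)))) 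
(.nd (nat_lit 9) 
(.lf (nat_lit 452078) (.g (nat_lit 2306) (.e (nat_lit 2612) (nat_lit 163) (.e (nat_lit 163961) (nat_lit 25) (.e (nat_lit 532514) (nat_lit 3) (.e (nat_lit 114719) (nat_lit 23) (.e (nat_lit 98356) (nat_lit 26) (.e (nat_lit 426438) (nat_lit 18) (.e (nat_lit 98335) (nat_lit 18) (.e (nat_lit 164305) (nat_lit 226) .nil)))))))) (.g (nat_lit 1) (.e (nat_lit 22168) (nat_lit 0) .nil) .nil))) 
(.lf (nat_lit 452590) (.g (nat_lit 2056) (.e (nat_lit 2612) (nat_lit 163) (.e (nat_lit 164403) (nat_lit 256) (.e (nat_lit 57370) (nat_lit 2) (.e (nat_lit 90174) (nat_lit 14) (.e (nat_lit 180243) (nat_lit 5) (.e (nat_lit 532513) (nat_lit 3) (.e (nat_lit 114714) (nat_lit 22) (.e (nat_lit 90130) (nat_lit 9) .nil)))))))) (.g (nat_lit 1) (.e (nat_lit 23274) (nat_lit 0) .nil) .nil)))))))) 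
(.nd (nat_lit 5) (.nd (nat_lit 6) (.nd (nat_lit 7) (.nd (nat_lit 8) (.nd (nat_lit 9) 
(.lf (nat_lit 451614) (.g (nat_lit 3483) (.e (nat_lit 2610) (nat_lit 163) (.e (nat_lit 163979) (nat_lit 30) (.e (nat_lit 573482) (nat_lit 13) (.e (nat_lit 65619) (nat_lit 10) (.e (nat_lit 344117) (nat_lit 21) (.e (nat_lit 516168) (nat_lit 13) (.e (nat_lit 458774) (nat_lit 18) (.e (nat_lit 5548) (nat_lit 306) .nil)))))))) (.g (nat_lit 1) (.e (nat_lit 20208) (nat_lit 0) .nil) .nil))) 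
(.lf (nat_lit 452126) (.g (nat_lit 2195) (.e (nat_lit 2612) (nat_lit 163) (.e (nat_lit 163977) (nat_lit 30) (.e (nat_lit 573487) (nat_lit 14) (.e (nat_lit 73753) (nat_lit 8) (.e (nat_lit 557097) (nat_lit 13) (.e (nat_lit 179968) (nat_lit 18) (.e (nat_lit 98335) (nat_lit 18) (.e (nat_lit 164305) (nat_lit 226) .nil)))))))) (.g (nat_lit 1) (.e (nat_lit 22245) (nat_lit 0) .nil) .nil)))) 
(.nd (nat_lit 9) 
(.lf (nat_lit 451870) (.g (nat_lit 2793) (.e (nat_lit 2610) (nat_lit 163) (.e (nat_lit 164396) (nat_lit 256) (.e (nat_lit 57371) (nat_lit 2) (.e (nat_lit 90174) (nat_lit 14) (.e (nat_lit 180243) (nat_lit 5) (.e (nat_lit 532513) (nat_lit 3) (.e (nat_lit 114714) (nat_lit 22) (.e (nat_lit 90140) (nat_lit 9) .nil)))))))) (.g (nat_lit 1) (.e (nat_lit 20948) (nat_lit 0) .nil) .nil))) 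
(.lf (nat_lit 452382) (.g (nat_lit 3472) (.e (nat_lit 2612) (nat_lit 163) (.e (nat_lit 163978) (nat_lit 30) (.e (nat_lit 573489) (nat_lit 14) (.e (nat_lit 73755) (nat_lit 8) (.e (nat_lit 557104) (nat_lit 14) (.e (nat_lit 180244) (nat_lit 5) (.e (nat_lit 532499) (nat_lit 1) (.e (nat_lit 65280) (nat_lit 152) .nil)))))))) (.g (nat_lit 1) (.e (nat_lit 22563) (nat_lit 0) .nil) .nil))))) 
(.nd (nat_lit 8) (.nd (nat_lit 9) 
(.lf (nat_lit 451742) (.g (nat_lit 5092) (.e (nat_lit 2610) (nat_lit 163) (.e (nat_lit 163979) (nat_lit 30) (.e (nat_lit 573493) (nat_lit 15) (.e (nat_lit 81953) (nat_lit 22) (.e (nat_lit 90174) (nat_lit 14) (.e (nat_lit 180228) (nat_lit 0) (.e (nat_lit 5546) (nat_lit 306) .nil))))))) (.g (nat_lit 1) (.e (nat_lit 20426) (nat_lit 0) .nil) .nil))) 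
(.lf (nat_lit 452254) (.g (nat_lit 3634) (.e (nat_lit 2612) (nat_lit 163) (.e (nat_lit 163978) (nat_lit 30) (.e (nat_lit 573485) (nat_lit 13) (.e (nat_lit 65619) (nat_lit 10) (.e (nat_lit 344117) (nat_lit 21) (.e (nat_lit 516159) (nat_lit 10) (.e (nat_lit 434216) (nat_lit 18) (.e (nat_lit 5448) (nat_lit 306) .nil)))))))) (.g (nat_lit 1) (.e (nat_lit 22410) (nat_lit 0) .nil) .nil)))) 
(.nd (nat_lit 9) 
(.lf (nat_lit 451998) (.g (nat_lit 2687) (.e (nat_lit 2611) (nat_lit 163) (.e (nat_lit 163978) (nat_lit 30) (.e (nat_lit 573485) (nat_lit 13) (.e (nat_lit 65619) (nat_lit 10) (.e (nat_lit 344117) (nat_lit 21) (.e (nat_lit 516151) (nat_lit 9) (.e (nat_lit 426043) (nat_lit 0) (.e (nat_lit 2458) (nat_lit 157) (.e (nat_lit 5547) (nat_lit 306) .nil))))))))) (.g (nat_lit 1) (.e (nat_lit 21445) (nat_lit 0) .nil) .nil))) 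
(.lf (nat_lit 452510) (.g (nat_lit 4255) (.e (nat_lit 2612) (nat_lit 163) (.e (nat_lit 163979) (nat_lit 30) (.e (nat_lit 573492) (nat_lit 15) (.e (nat_lit 81956) (nat_lit 23) (.e (nat_lit 106240) (nat_lit 26) (.e (nat_lit 426147) (nat_lit 4) (.e (nat_lit 229666) (nat_lit 240) .nil))))))) (.g (nat_lit 1) (.e (nat_lit 22757) (nat_lit 0) .nil) .nil)))))) 
(.nd (nat_lit 7) (.nd (nat_lit 8) (.nd (nat_lit 9) 
(.lf (nat_lit 451678) (.g (nat_lit 2931) (.e (nat_lit 2610) (nat_lit 163) (.e (nat_lit 163979) (nat_lit 30) (.e (nat_lit 573491) (nat_lit 15) (.e (nat_lit 81954) (nat_lit 23) (.e (nat_lit 98368) (nat_lit 27) (.e (nat_lit 434209) (nat_lit 18) (.e (nat_lit 5548) (nat_lit 306) .nil))))))) (.g (nat_lit 1) (.e (nat_lit 20306) (nat_lit 0) .nil) .nil))) 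
(.lf (nat_lit 452190) (.g (nat_lit 3836) (.e (nat_lit 2612) (nat_lit 163) (.e (nat_lit 163977) (nat_lit 30) (.e (nat_lit 573493) (nat_lit 15) (.e (nat_lit 81954) (nat_lit 23) (.e (nat_lit 98365) (nat_lit 26) (.e (nat_lit 426145) (nat_lit 4) (.e (nat_lit 229663) (nat_lit 240) .nil))))))) (.g (nat_lit 1) (.e (nat_lit 22328) (nat_lit 0) .nil) .nil)))) (.nd (nat_lit 9) 
(.lf (nat_lit 451934) (.g (nat_lit 3649) (.e (nat_lit 2611) (nat_lit 163) (.e (nat_lit 163978) (nat_lit 30) (.e (nat_lit 573479) (nat_lit 13) (.e (nat_lit 65604) (nat_lit 9) (.e (nat_lit 336013) (nat_lit 2) (.e (nat_lit 90170) (nat_lit 13) (.e (nat_lit 172059) (nat_lit 1) (.e (nat_lit 164347) (nat_lit 240) .nil)))))))) (.g (nat_lit 1) (.e (nat_lit 21317) (nat_lit 0) .nil) .nil))) 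
(.lf (nat_lit 452446) (.g (nat_lit 2840) (.e (nat_lit 2612) (nat_lit 163) (.e (nat_lit 163979) (nat_lit 30) (.e (nat_lit 573488) (nat_lit 14) (.e (nat_lit 73755) (nat_lit 8) (.e (nat_lit 557097) (nat_lit 13) (.e (nat_lit 172133) (nat_lit 15) (.e (nat_lit 1800) (nat_lit 119) (.e (nat_lit 516120) (nat_lit 1) (.e (nat_lit 164304) (nat_lit 226) .nil))))))))) (.g (nat_lit 1) (.e (nat_lit 22676) (nat_lit 0) .nil) .nil))))) 
(.nd (nat_lit 8) (.nd (nat_lit 9) 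
(.lf (nat_lit 451806) (.g (nat_lit 3959) (.e (nat_lit 2610) (nat_lit 163) (.e (nat_lit 163979) (nat_lit 30) (.e (nat_lit 573493) (nat_lit 15) (.e (nat_lit 81956) (nat_lit 23) (.e (nat_lit 98361) (nat_lit 26) .nil))))) (.g (nat_lit 0) (.e (nat_lit 20535) (nat_lit 0) .nil) .nil))) 
(.lf (nat_lit 452318) (.g (nat_lit 1432) (.e (nat_lit 2612) (nat_lit 163) (.e (nat_lit 163978) (nat_lit 30) (.e (nat_lit 573489) (nat_lit 14) (.e (nat_lit 73755) (nat_lit 8) .nil)))) (.g (nat_lit 0) (.e (nat_lit 22486) (nat_lit 0) .nil) .nil)))) (.nd (nat_lit 9) 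
(.lf (nat_lit 452062) (.g (nat_lit 3493) (.e (nat_lit 2611) (nat_lit 163) (.e (nat_lit 164402) (nat_lit 256) (.e (nat_lit 57371) (nat_lit 2) (.e (nat_lit 90174) (nat_lit 14) (.e (nat_lit 180243) (nat_lit 5) (.e (nat_lit 532515) (nat_lit 3) (.e (nat_lit 114716) (nat_lit 22) (.e (nat_lit 90121) (nat_lit 9) .nil)))))))) (.g (nat_lit 1) (.e (nat_lit 22151) (nat_lit 0) .nil) .nil))) 
(.lf (nat_lit 452574) (.g (nat_lit 4296) (.e (nat_lit 2612) (nat_lit 163) (.e (nat_lit 164326) (nat_lit 230) (.e (nat_lit 163903) (nat_lit 12) (.e (nat_lit 426568) (nat_lit 34) (.e (nat_lit 393268) (nat_lit 23) (.e (nat_lit 426428) (nat_lit 17) (.e (nat_lit 90134) (nat_lit 9) .nil))))))) (.g (nat_lit 1) (.e (nat_lit 23023) (nat_lit 0) .nil) .nil))))))) 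
(.nd (nat_lit 6) (.nd (nat_lit 7) (.nd (nat_lit 8) (.nd (nat_lit 9) 
(.lf (nat_lit 451646) (.g (nat_lit 1326) (.e (nat_lit 2610) (nat_lit 163) (.e (nat_lit 163979) (nat_lit 30) (.e (nat_lit 573491) (nat_lit 15) (.e (nat_lit 81954) (nat_lit 23) .nil)))) (.g (nat_lit 0) (.e (nat_lit 20273) (nat_lit 0) .nil) .nil))) 
(.lf (nat_lit 452158) (.g (nat_lit 4782) (.e (nat_lit 2612) (nat_lit 163) (.e (nat_lit 163977) (nat_lit 30) (.e (nat_lit 573492) (nat_lit 15) (.e (nat_lit 81953) (nat_lit 22) (.e (nat_lit 90170) (nat_lit 13) .nil))))) (.g (nat_lit 0) (.e (nat_lit 22283) (nat_lit 0) .nil) .nil)))) (.nd (nat_lit 9) 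
(.lf (nat_lit 451902) (.g (nat_lit 4101) (.e (nat_lit 2611) (nat_lit 163) (.e (nat_lit 163977) (nat_lit 30) (.e (nat_lit 573482) (nat_lit 13) (.e (nat_lit 65604) (nat_lit 9) (.e (nat_lit 336013) (nat_lit 2) (.e (nat_lit 90170) (nat_lit 13) (.e (nat_lit 172061) (nat_lit 1) (.e (nat_lit 164345) (nat_lit 240) .nil)))))))) (.g (nat_lit 1) (.e (nat_lit 20993) (nat_lit 0) .nil) .nil))) 
(.lf (nat_lit 452414) (.g (nat_lit 2692) (.e (nat_lit 2612) (nat_lit 163) (.e (nat_lit 163979) (nat_lit 30) (.e (nat_lit 573482) (nat_lit 13) (.e (nat_lit 65619) (nat_lit 10) (.e (nat_lit 344117) (nat_lit 21) (.e (nat_lit 516152) (nat_lit 9) (.e (nat_lit 426143) (nat_lit 4) (.e (nat_lit 229663) (nat_lit 240) .nil)))))))) (.g (nat_lit 1) (.e (nat_lit 22638) (nat_lit 0) .nil) .nil))))) 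
(.nd (nat_lit 8) (.nd (nat_lit 9) 
(.lf (nat_lit 451774) (.g (nat_lit 5072) (.e (nat_lit 2610) (nat_lit 163) (.e (nat_lit 163979) (nat_lit 30) (.e (nat_lit 573493) (nat_lit 15) (.e (nat_lit 81954) (nat_lit 23) (.e (nat_lit 98365) (nat_lit 26) (.e (nat_lit 426108) (nat_lit 1) (.e (nat_lit 164345) (nat_lit 240) .nil))))))) (.g (nat_lit 1) (.e (nat_lit 20460) (nat_lit 0) .nil) .nil))) 
(.lf (nat_lit 452286) (.g (nat_lit 3292) (.e (nat_lit 2612) (nat_lit 163) (.e (nat_lit 163978) (nat_lit 30) (.e (nat_lit 573487) (nat_lit 14) (.e (nat_lit 73753) (nat_lit 8) (.e (nat_lit 557100) (nat_lit 13) (.e (nat_lit 172138) (nat_lit 15) (.e (nat_lit 1800) (nat_lit 119) (.e (nat_lit 516120) (nat_lit 1) (.e (nat_lit 164305) (nat_lit 226) .nil))))))))) (.g (nat_lit 1) (.e (nat_lit 22452) (nat_lit 0) .nil) .nil)))) 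
(.nd (nat_lit 9) 
(.lf (nat_lit 452030) (.g (nat_lit 4650) (.e (nat_lit 2611) (nat_lit 163) (.e (nat_lit 163979) (nat_lit 30) (.e (nat_lit 573482) (nat_lit 13) (.e (nat_lit 65604) (nat_lit 9) (.e (nat_lit 336028) (nat_lit 3) (.e (nat_lit 98367) (nat_lit 27) (.e (nat_lit 434209) (nat_lit 18) (.e (nat_lit 5547) (nat_lit 306) .nil)))))))) (.g (nat_lit 1) (.e (nat_lit 21791) (nat_lit 0) .nil) .nil))) 
(.lf (nat_lit 452542) (.g (nat_lit 3153) (.e (nat_lit 2612) (nat_lit 163) (.e (nat_lit 163979) (nat_lit 30) (.e (nat_lit 573493) (nat_lit 15) (.e (nat_lit 81956) (nat_lit 23) (.e (nat_lit 98355) (nat_lit 26) (.e (nat_lit 426148) (nat_lit 4) (.e (nat_lit 229663) (nat_lit 240) .nil))))))) (.g (nat_lit 1) (.e (nat_lit 22805) (nat_lit 0) .nil) .nil)))))) 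
(.nd (nat_lit 7) (.nd (nat_lit 8) (.nd (nat_lit 9) 
(.lf (nat_lit 451710) (.g (nat_lit 4063) (.e (nat_lit 2610) (nat_lit 163) (.e (nat_lit 163979) (nat_lit 30) (.e (nat_lit 573493) (nat_lit 15) (.e (nat_lit 81951) (nat_lit 22) (.e (nat_lit 90170) (nat_lit 13) (.e (nat_lit 172046) (nat_lit 0) (.e (nat_lit 2478) (nat_lit 157) (.e (nat_lit 5548) (nat_lit 306) .nil)))))))) (.g (nat_lit 1) (.e (nat_lit 20379) (nat_lit 0) .nil) .nil))) 
(.lf (nat_lit 452222) (.g (nat_lit 3710) (.e (nat_lit 2612) (nat_lit 163) (.e (nat_lit 163978) (nat_lit 30) (.e (nat_lit 573484) (nat_lit 13) (.e (nat_lit 65610) (nat_lit 10) (.e (nat_lit 344117) (nat_lit 21) (.e (nat_lit 516152) (nat_lit 9) (.e (nat_lit 426144) (nat_lit 4) (.e (nat_lit 229663) (nat_lit 240) .nil)))))))) (.g (nat_lit 1) (.e (nat_lit 22374) (nat_lit 0) .nil) .nil)))) 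
(.nd (nat_lit 9) 
(.lf (nat_lit 451966) (.g (nat_lit 3912) (.e (nat_lit 2611) (nat_lit 163) (.e (nat_lit 163978) (nat_lit 30) (.e (nat_lit 573479) (nat_lit 13) (.e (nat_lit 65619) (nat_lit 10) (.e (nat_lit 344117) (nat_lit 21) (.e (nat_lit 516169) (nat_lit 13) (.e (nat_lit 458774) (nat_lit 18) (.e (nat_lit 5547) (nat_lit 306) .nil)))))))) (.g (nat_lit 1) (.e (nat_lit 21351) (nat_lit 0) .nil) .nil))) 
(.lf (nat_lit 452478) (.g (nat_lit 2956) (.e (nat_lit 2612) (nat_lit 163) (.e (nat_lit 163979) (nat_lit 30) (.e (nat_lit 573489) (nat_lit 14) (.e (nat_lit 73755) (nat_lit 8) (.e (nat_lit 557104) (nat_lit 14) (.e (nat_lit 180244) (nat_lit 5) (.e (nat_lit 532504) (nat_lit 1) (.e (nat_lit 57663) (nat_lit 152) .nil)))))))) (.g (nat_lit 1) (.e (nat_lit 22712) (nat_lit 0) .nil) .nil))))) 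
(.nd (nat_lit 8) (.nd (nat_lit 9) 
(.lf (nat_lit 451838) (.g (nat_lit 3124) (.e (nat_lit 2610) (nat_lit 163) (.e (nat_lit 163979) (nat_lit 30) (.e (nat_lit 573493) (nat_lit 15) (.e (nat_lit 81956) (nat_lit 23) (.e (nat_lit 98368) (nat_lit 27) (.e (nat_lit 434200) (nat_lit 18) (.e (nat_lit 5537) (nat_lit 306) .nil))))))) (.g (nat_lit 1) (.e (nat_lit 20567) (nat_lit 0) .nil) .nil))) 
(.lf (nat_lit 452350) (.g (nat_lit 4694) (.e (nat_lit 2612) (nat_lit 163) (.e (nat_lit 163978) (nat_lit 30) (.e (nat_lit 573489) (nat_lit 14) (.e (nat_lit 73755) (nat_lit 8) (.e (nat_lit 557098) (nat_lit 13) (.e (nat_lit 172067) (nat_lit 3) (.e (nat_lit 204830) (nat_lit 18) (.e (nat_lit 57663) (nat_lit 152) .nil)))))))) (.g (nat_lit 1) (.e (nat_lit 22531) (nat_lit 0) .nil) .nil)))) 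
(.nd (nat_lit 9) 
(.lf (nat_lit 452094) (.g (nat_lit 2317) (.e (nat_lit 2612) (nat_lit 163) (.e (nat_lit 163977) (nat_lit 30) (.e (nat_lit 573481) (nat_lit 13) (.e (nat_lit 65604) (nat_lit 9) (.e (nat_lit 336028) (nat_lit 3) (.e (nat_lit 98359) (nat_lit 26) (.e (nat_lit 426142) (nat_lit 4) (.e (nat_lit 229663) (nat_lit 240) .nil)))))))) (.g (nat_lit 1) (.e (nat_lit 22212) (nat_lit 0) .nil) .nil))) 
(.lf (nat_lit 452606) (.g (nat_lit 2865) (.e (nat_lit 2612) (nat_lit 163) (.e (nat_lit 164403) (nat_lit 256) (.e (nat_lit 57378) (nat_lit 3) (.e (nat_lit 98366) (nat_lit 27) (.e (nat_lit 434231) (nat_lit 23) (.e (nat_lit 532514) (nat_lit 3) (.e (nat_lit 114716) (nat_lit 22) (.e (nat_lit 90130) (nat_lit 9) .nil)))))))) (.g (nat_lit 1) (.e (nat_lit 23290) (nat_lit 0) .nil) .nil)))))))))))) 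
(.nd (nat_lit 1) (.nd (nat_lit 2) (.nd (nat_lit 3) (.nd (nat_lit 4) (.nd (nat_lit 5) 
(.nd (nat_lit 6) (.nd (nat_lit 7) (.nd (nat_lit 8) (.nd (nat_lit 9) 
(.lf (nat_lit 451585) (.g (nat_lit 2554) (.e (nat_lit 2610) (nat_lit 163) (.e (nat_lit 163979) (nat_lit 30) (.e (nat_lit 573482) (nat_lit 13) (.e (nat_lit 65619) (nat_lit 10) (.e (nat_lit 344117) (nat_lit 21) (.e (nat_lit 516143) (nat_lit 9) (.e (nat_lit 426104) (nat_lit 1) (.e (nat_lit 164345) (nat_lit 240) .nil)))))))) (.g (nat_lit 1) (.e (nat_lit 20179) (nat_lit 0) .nil) .nil))) 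
(.lf (nat_lit 452097) (.g (nat_lit 2101) (.e (nat_lit 2612) (nat_lit 163) (.e (nat_lit 163977) (nat_lit 30) (.e (nat_lit 573482) (nat_lit 13) (.e (nat_lit 65604) (nat_lit 9) (.e (nat_lit 336013) (nat_lit 2) (.e (nat_lit 90170) (nat_lit 13) (.e (nat_lit 172070) (nat_lit 4) (.e (nat_lit 229664) (nat_lit 240) .nil)))))))) (.g (nat_lit 1) (.e (nat_lit 22215) (nat_lit 0) .nil) .nil)))) 
(.nd (nat_lit 9) 
(.lf (nat_lit 451841) (.g (nat_lit 3023) (.e (nat_lit 2610) (nat_lit 163) (.e (nat_lit 163979) (nat_lit 30) (.e (nat_lit 573493) (nat_lit 15) (.e (nat_lit 81956) (nat_lit 23) (.e (nat_lit 98368) (nat_lit 27) (.e (nat_lit 434205) (nat_lit 18) (.e (nat_lit 5494) (nat_lit 306) .nil))))))) (.g (nat_lit 1) (.e (nat_lit 20570) (nat_lit 0) .nil) .nil))) 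
(.lf (nat_lit 452353) (.g (nat_lit 4196) (.e (nat_lit 2612) (nat_lit 163) (.e (nat_lit 163978) (nat_lit 30) (.e (nat_lit 573489) (nat_lit 14) (.e (nat_lit 73755) (nat_lit 8) (.e (nat_lit 557098) (nat_lit 13) (.e (nat_lit 172131) (nat_lit 15) (.e (nat_lit 1800) (nat_lit 119) (.e (nat_lit 516117) (nat_lit 1) (.e (nat_lit 164305) (nat_lit 226) .nil))))))))) (.g (nat_lit 1) (.e (nat_lit 22534) (nat_lit 0) .nil) .nil))))) 
(.nd (nat_lit 8) (.nd (nat_lit 9) 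
(.lf (nat_lit 451713) (.g (nat_lit 4134) (.e (nat_lit 2610) (nat_lit 163) (.e (nat_lit 163979) (nat_lit 30) (.e (nat_lit 573493) (nat_lit 15) (.e (nat_lit 81951) (nat_lit 22) (.e (nat_lit 90170) (nat_lit 13) (.e (nat_lit 172061) (nat_lit 1) (.e (nat_lit 164346) (nat_lit 240) .nil))))))) (.g (nat_lit 1) (.e (nat_lit 20382) (nat_lit 0) .nil) .nil))) 
(.lf (nat_lit 452225) (.g (nat_lit 4339) (.e (nat_lit 2612) (nat_lit 163) (.e (nat_lit 163978) (nat_lit 30) (.e (nat_lit 573484) (nat_lit 13) (.e (nat_lit 65610) (nat_lit 10) (.e (nat_lit 344117) (nat_lit 21) (.e (nat_lit 516159) (nat_lit 10) (.e (nat_lit 434216) (nat_lit 18) (.e (nat_lit 5448) (nat_lit 306) .nil)))))))) (.g (nat_lit 1) (.e (nat_lit 22377) (nat_lit 0) .nil) .nil)))) 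
(.nd (nat_lit 9) 
(.lf (nat_lit 451969) (.g (nat_lit 4997) (.e (nat_lit 2611) (nat_lit 163) (.e (nat_lit 163978) (nat_lit 30) (.e (nat_lit 573479) (nat_lit 13) (.e (nat_lit 65619) (nat_lit 10) (.e (nat_lit 344117) (nat_lit 21) (.e (nat_lit 516170) (nat_lit 13) (.e (nat_lit 458774) (nat_lit 18) (.e (nat_lit 5547) (nat_lit 306) .nil)))))))) (.g (nat_lit 1) (.e (nat_lit 21354) (nat_lit 0) .nil) .nil))) 
(.lf (nat_lit 452481) (.g (nat_lit 3213) (.e (nat_lit 2612) (nat_lit 163) (.e (nat_lit 163979) (nat_lit 30) (.e (nat_lit 573491) (nat_lit 15) (.e (nat_lit 81951) (nat_lit 22) (.e (nat_lit 90170) (nat_lit 13) (.e (nat_lit 172068) (nat_lit 4) (.e (nat_lit 229665) (nat_lit 240) .nil))))))) (.g (nat_lit 1) (.e (nat_lit 22715) (nat_lit 0) .nil) .nil)))))) 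
(.nd (nat_lit 7) (.nd (nat_lit 8) (.nd (nat_lit 9) 
(.lf (nat_lit 451649) (.g (nat_lit 3533) (.e (nat_lit 2610) (nat_lit 163) (.e (nat_lit 163979) (nat_lit 30) (.e (nat_lit 573491) (nat_lit 15) (.e (nat_lit 81954) (nat_lit 23) (.e (nat_lit 98354) (nat_lit 26) (.e (nat_lit 426109) (nat_lit 1) (.e (nat_lit 164347) (nat_lit 240) .nil))))))) (.g (nat_lit 1) (.e (nat_lit 20276) (nat_lit 0) .nil) .nil))) 
(.lf (nat_lit 452161) (.g (nat_lit 3330) (.e (nat_lit 2612) (nat_lit 163) (.e (nat_lit 163977) (nat_lit 30) (.e (nat_lit 573492) (nat_lit 15) (.e (nat_lit 81956) (nat_lit 23) (.e (nat_lit 98356) (nat_lit 26) .nil))))) (.g (nat_lit 0) (.e (nat_lit 22291) (nat_lit 0) .nil) .nil)))) (.nd (nat_lit 9) 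
(.lf (nat_lit 451905) (.g (nat_lit 4036) (.e (nat_lit 2611) (nat_lit 163) (.e (nat_lit 163977) (nat_lit 30) (.e (nat_lit 573482) (nat_lit 13) (.e (nat_lit 65619) (nat_lit 10) (.e (nat_lit 344117) (nat_lit 21) (.e (nat_lit 516143) (nat_lit 9) (.e (nat_lit 426109) (nat_lit 1) (.e (nat_lit 164345) (nat_lit 240) .nil)))))))) (.g (nat_lit 1) (.e (nat_lit 21004) (nat_lit 0) .nil) .nil))) 
(.lf (nat_lit 452417) (.g (nat_lit 3556) (.e (nat_lit 2612) (nat_lit 163) (.e (nat_lit 163979) (nat_lit 30) (.e (nat_lit 573482) (nat_lit 13) (.e (nat_lit 65619) (nat_lit 10) (.e (nat_lit 344117) (nat_lit 21) (.e (nat_lit 516153) (nat_lit 9) (.e (nat_lit 426144) (nat_lit 4) (.e (nat_lit 229663) (nat_lit 240) .nil)))))))) (.g (nat_lit 1) (.e (nat_lit 22641) (nat_lit 0) .nil) .nil))))) 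
(.nd (nat_lit 8) (.nd (nat_lit 9) 
(.lf (nat_lit 451777) (.g (nat_lit 4357) (.e (nat_lit 2610) (nat_lit 163) (.e (nat_lit 163979) (nat_lit 30) (.e (nat_lit 573493) (nat_lit 15) (.e (nat_lit 81954) (nat_lit 23) (.e (nat_lit 98366) (nat_lit 27) (.e (nat_lit 434209) (nat_lit 18) (.e (nat_lit 5547) (nat_lit 306) .nil))))))) (.g (nat_lit 1) (.e (nat_lit 20463) (nat_lit 0) .nil) .nil))) 
(.lf (nat_lit 452289) (.g (nat_lit 3617) (.e (nat_lit 2612) (nat_lit 163) (.e (nat_lit 163978) (nat_lit 30) (.e (nat_lit 573487) (nat_lit 14) (.e (nat_lit 73753) (nat_lit 8) (.e (nat_lit 557101) (nat_lit 13) (.e (nat_lit 172136) (nat_lit 15) (.e (nat_lit 1800) (nat_lit 119) (.e (nat_lit 516117) (nat_lit 1) (.e (nat_lit 164304) (nat_lit 226) .nil))))))))) (.g (nat_lit 1) (.e (nat_lit 22457) (nat_lit 0) .nil) .nil)))) 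
(.nd (nat_lit 9) 
(.lf (nat_lit 452033) (.g (nat_lit 3945) (.e (nat_lit 2611) (nat_lit 163) (.e (nat_lit 163979) (nat_lit 30) (.e (nat_lit 573482) (nat_lit 13) (.e (nat_lit 65619) (nat_lit 10) (.e (nat_lit 344117) (nat_lit 21) (.e (nat_lit 516143) (nat_lit 9) (.e (nat_lit 426109) (nat_lit 1) (.e (nat_lit 164346) (nat_lit 240) .nil)))))))) (.g (nat_lit 1) (.e (nat_lit 21794) (nat_lit 0) .nil) .nil))) 
(.lf (nat_lit 452545) (.g (nat_lit 5526) (.e (nat_lit 2612) (nat_lit 163) (.e (nat_lit 163979) (nat_lit 30) (.e (nat_lit 573493) (nat_lit 15) (.e (nat_lit 81956) (nat_lit 23) (.e (nat_lit 98359) (nat_lit 26) (.e (nat_lit 426142) (nat_lit 4) (.e (nat_lit 229663) (nat_lit 240) .nil))))))) (.g (nat_lit 1) (.e (nat_lit 22808) (nat_lit 0) .nil) .nil))))))) 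
(.nd (nat_lit 6) (.nd (nat_lit 7) (.nd (nat_lit 8) (.nd (nat_lit 9) 
(.lf (nat_lit 451617) (.g (nat_lit 4353) (.e (nat_lit 2610) (nat_lit 163) (.e (nat_lit 163979) (nat_lit 30) (.e (nat_lit 573482) (nat_lit 13) (.e (nat_lit 65619) (nat_lit 10) (.e (nat_lit 344117) (nat_lit 21) (.e (nat_lit 516169) (nat_lit 13) (.e (nat_lit 458774) (nat_lit 18) (.e (nat_lit 5547) (nat_lit 306) .nil)))))))) (.g (nat_lit 1) (.e (nat_lit 20211) (nat_lit 0) .nil) .nil))) 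
(.lf (nat_lit 452129) (.g (nat_lit 3447) (.e (nat_lit 2612) (nat_lit 163) (.e (nat_lit 163977) (nat_lit 30) (.e (nat_lit 573487) (nat_lit 14) (.e (nat_lit 73753) (nat_lit 8) (.e (nat_lit 557098) (nat_lit 13) (.e (nat_lit 172133) (nat_lit 15) (.e (nat_lit 1800) (nat_lit 119) (.e (nat_lit 516117) (nat_lit 1) (.e (nat_lit 164305) (nat_lit 226) .nil))))))))) (.g (nat_lit 1) (.e (nat_lit 22248) (nat_lit 0) .nil) .nil)))) 
(.nd (nat_lit 9) 
(.lf (nat_lit 451873) (.g (nat_lit 2085) (.e (nat_lit 2610) (nat_lit 163) (.e (nat_lit 164401) (nat_lit 256) (.e (nat_lit 57371) (nat_lit 2) (.e (nat_lit 90174) (nat_lit 14) (.e (nat_lit 180243) (nat_lit 5) (.e (nat_lit 532515) (nat_lit 3) (.e (nat_lit 114716) (nat_lit 22) (.e (nat_lit 90140) (nat_lit 9) .nil)))))))) (.g (nat_lit 1) (.e (nat_lit 20951) (nat_lit 0) .nil) .nil))) 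
(.lf (nat_lit 452385) (.g (nat_lit 5343) (.e (nat_lit 2612) (nat_lit 163) (.e (nat_lit 163978) (nat_lit 30) (.e (nat_lit 573489) (nat_lit 14) (.e (nat_lit 73755) (nat_lit 8) (.e (nat_lit 557104) (nat_lit 14) (.e (nat_lit 180244) (nat_lit 5) (.e (nat_lit 532503) (nat_lit 1) (.e (nat_lit 57659) (nat_lit 152) .nil)))))))) (.g (nat_lit 1) (.e (nat_lit 22566) (nat_lit 0) .nil) .nil))))) 
(.nd (nat_lit 8) (.nd (nat_lit 9) 
(.lf (nat_lit 451745) (.g (nat_lit 6429) (.e (nat_lit 2610) (nat_lit 163) (.e (nat_lit 163979) (nat_lit 30) (.e (nat_lit 573493) (nat_lit 15) (.e (nat_lit 81953) (nat_lit 22) (.e (nat_lit 90185) (nat_lit 17) (.e (nat_lit 237582) (nat_lit 1) (.e (nat_lit 164345) (nat_lit 240) .nil))))))) (.g (nat_lit 1) (.e (nat_lit 20429) (nat_lit 0) .nil) .nil))) 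
(.lf (nat_lit 452257) (.g (nat_lit 2703) (.e (nat_lit 2612) (nat_lit 163) (.e (nat_lit 163978) (nat_lit 30) (.e (nat_lit 573485) (nat_lit 13) (.e (nat_lit 65619) (nat_lit 10) (.e (nat_lit 344117) (nat_lit 21) (.e (nat_lit 516161) (nat_lit 10) (.e (nat_lit 434216) (nat_lit 18) (.e (nat_lit 5448) (nat_lit 306) .nil)))))))) (.g (nat_lit 1) (.e (nat_lit 22413) (nat_lit 0) .nil) .nil)))) 
(.nd (nat_lit 9) 
(.lf (nat_lit 452001) (.g (nat_lit 3337) (.e (nat_lit 2611) (nat_lit 163) (.e (nat_lit 163978) (nat_lit 30) (.e (nat_lit 573485) (nat_lit 13) (.e (nat_lit 65619) (nat_lit 10) (.e (nat_lit 344117) (nat_lit 21) (.e (nat_lit 516152) (nat_lit 9) (.e (nat_lit 426109) (nat_lit 1) (.e (nat_lit 164345) (nat_lit 240) .nil)))))))) (.g (nat_lit 1) (.e (nat_lit 21448) (nat_lit 0) .nil) .nil))) 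
(.lf (nat_lit 452513) (.g (nat_lit 5461) (.e (nat_lit 2612) (nat_lit 163) (.e (nat_lit 163979) (nat_lit 30) (.e (nat_lit 573493) (nat_lit 15) (.e (nat_lit 81951) (nat_lit 22) (.e (nat_lit 90170) (nat_lit 13) (.e (nat_lit 172069) (nat_lit 4) (.e (nat_lit 229663) (nat_lit 240) .nil))))))) (.g (nat_lit 1) (.e (nat_lit 22770) (nat_lit 0) .nil) .nil)))))) 
(.nd (nat_lit 7) (.nd (nat_lit 8) (.nd (nat_lit 9) 
(.lf (nat_lit 451681) (.g (nat_lit 1824) (.e (nat_lit 2610) (nat_lit 163) (.e (nat_lit 163979) (nat_lit 30) (.e (nat_lit 573491) (nat_lit 15) (.e (nat_lit 81956) (nat_lit 23) .nil)))) (.g (nat_lit 0) (.e (nat_lit 20312) (nat_lit 0) .nil) .nil))) 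
(.lf (nat_lit 452193) (.g (nat_lit 3729) (.e (nat_lit 2612) (nat_lit 163) (.e (nat_lit 163977) (nat_lit 30) (.e (nat_lit 573493) (nat_lit 15) (.e (nat_lit 81956) (nat_lit 23) (.e (nat_lit 98359) (nat_lit 26) (.e (nat_lit 426146) (nat_lit 4) (.e (nat_lit 229663) (nat_lit 240) .nil))))))) (.g (nat_lit 1) (.e (nat_lit 22333) (nat_lit 0) .nil) .nil)))) (.nd (nat_lit 9) 
(.lf (nat_lit 451937) (.g (nat_lit 3581) (.e (nat_lit 2611) (nat_lit 163) (.e (nat_lit 163978) (nat_lit 30) (.e (nat_lit 573479) (nat_lit 13) (.e (nat_lit 65604) (nat_lit 9) (.e (nat_lit 336013) (nat_lit 2) (.e (nat_lit 90170) (nat_lit 13) (.e (nat_lit 172061) (nat_lit 1) (.e (nat_lit 164347) (nat_lit 240) .nil)))))))) (.g (nat_lit 1) (.e (nat_lit 21320) (nat_lit 0) .nil) .nil))) 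
(.lf (nat_lit 452449) (.g (nat_lit 3134) (.e (nat_lit 2612) (nat_lit 163) (.e (nat_lit 163979) (nat_lit 30) (.e (nat_lit 573488) (nat_lit 14) (.e (nat_lit 73755) (nat_lit 8) (.e (nat_lit 557098) (nat_lit 13) (.e (nat_lit 172133) (nat_lit 15) (.e (nat_lit 1800) (nat_lit 119) (.e (nat_lit 516117) (nat_lit 1) (.e (nat_lit 164304) (nat_lit 226) .nil))))))))) (.g (nat_lit 1) (.e (nat_lit 22679) (nat_lit 0) .nil) .nil))))) 
(.nd (nat_lit 8) (.nd (nat_lit 9) 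
(.lf (nat_lit 451809) (.g (nat_lit 4538) (.e (nat_lit 2610) (nat_lit 163) (.e (nat_lit 163979) (nat_lit 30) (.e (nat_lit 573493) (nat_lit 15) (.e (nat_lit 81956) (nat_lit 23) (.e (nat_lit 98362) (nat_lit 26) (.e (nat_lit 426103) (nat_lit 1) (.e (nat_lit 164347) (nat_lit 240) .nil))))))) (.g (nat_lit 1) (.e (nat_lit 20538) (nat_lit 0) .nil) .nil))) 
(.lf (nat_lit 452321) (.g (nat_lit 3170) (.e (nat_lit 2612) (nat_lit 163) (.e (nat_lit 163978) (nat_lit 30) (.e (nat_lit 573489) (nat_lit 14) (.e (nat_lit 73755) (nat_lit 8) (.e (nat_lit 557096) (nat_lit 13) (.e (nat_lit 172131) (nat_lit 15) (.e (nat_lit 1800) (nat_lit 119) (.e (nat_lit 516120) (nat_lit 1) (.e (nat_lit 164304) (nat_lit 226) .nil))))))))) (.g (nat_lit 1) (.e (nat_lit 22502) (nat_lit 0) .nil) .nil)))) 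
(.nd (nat_lit 9) 
(.lf (nat_lit 452065) (.g (nat_lit 3194) (.e (nat_lit 2611) (nat_lit 163) (.e (nat_lit 164402) (nat_lit 256) (.e (nat_lit 57373) (nat_lit 2) (.e (nat_lit 90174) (nat_lit 14) (.e (nat_lit 180243) (nat_lit 5) (.e (nat_lit 532515) (nat_lit 3) (.e (nat_lit 114716) (nat_lit 22) (.e (nat_lit 90121) (nat_lit 9) .nil)))))))) (.g (nat_lit 1) (.e (nat_lit 22154) (nat_lit 0) .nil) .nil))) 
(.lf (nat_lit 452577) (.g (nat_lit 2145) (.e (nat_lit 2612) (nat_lit 163) (.e (nat_lit 164326) (nat_lit 230) (.e (nat_lit 163903) (nat_lit 12) (.e (nat_lit 426568) (nat_lit 34) (.e (nat_lit 393279) (nat_lit 23) (.e (nat_lit 426429) (nat_lit 17) (.e (nat_lit 90134) (nat_lit 9) .nil))))))) (.g (nat_lit 1) (.e (nat_lit 23026) (nat_lit 0) .nil) .nil)))))))) 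
(.nd (nat_lit 5) (.nd (nat_lit 6) (.nd (nat_lit 7) (.nd (nat_lit 8) (.nd (nat_lit 9) 
(.lf (nat_lit 451601) (.g (nat_lit 3772) (.e (nat_lit 2610) (nat_lit 163) (.e (nat_lit 163979) (nat_lit 30) (.e (nat_lit 573482) (nat_lit 13) (.e (nat_lit 65619) (nat_lit 10) (.e (nat_lit 344117) (nat_lit 21) (.e (nat_lit 516152) (nat_lit 9) (.e (nat_lit 426109) (nat_lit 1) (.e (nat_lit 164347) (nat_lit 240) .nil)))))))) (.g (nat_lit 1) (.e (nat_lit 20195) (nat_lit 0) .nil) .nil))) 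
(.lf (nat_lit 452113) (.g (nat_lit 2287) (.e (nat_lit 2612) (nat_lit 163) (.e (nat_lit 163977) (nat_lit 30) (.e (nat_lit 573485) (nat_lit 13) (.e (nat_lit 65604) (nat_lit 9) (.e (nat_lit 336028) (nat_lit 3) (.e (nat_lit 98367) (nat_lit 27) (.e (nat_lit 434215) (nat_lit 18) (.e (nat_lit 5448) (nat_lit 306) .nil)))))))) (.g (nat_lit 1) (.e (nat_lit 22231) (nat_lit 0) .nil) .nil)))) (.nd (nat_lit 9) 
(.lf (nat_lit 451857) (.g (nat_lit 3702) (.e (nat_lit 2610) (nat_lit 163) (.e (nat_lit 163979) (nat_lit 30) (.e (nat_lit 573493) (nat_lit 15) (.e (nat_lit 81956) (nat_lit 23) (.e (nat_lit 98368) (nat_lit 27) (.e (nat_lit 434213) (nat_lit 18) (.e (nat_lit 5548) (nat_lit 306) .nil))))))) (.g (nat_lit 1) (.e (nat_lit 20586) (nat_lit 0) .nil) .nil))) 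
(.lf (nat_lit 452369) (.g (nat_lit 4510) (.e (nat_lit 2612) (nat_lit 163) (.e (nat_lit 163978) (nat_lit 30) (.e (nat_lit 573489) (nat_lit 14) (.e (nat_lit 73755) (nat_lit 8) (.e (nat_lit 557098) (nat_lit 13) (.e (nat_lit 179968) (nat_lit 18) (.e (nat_lit 98333) (nat_lit 18) (.e (nat_lit 164304) (nat_lit 226) .nil)))))))) (.g (nat_lit 1) (.e (nat_lit 22550) (nat_lit 0) .nil) .nil))))) 
(.nd (nat_lit 8) (.nd (nat_lit 9) 
(.lf (nat_lit 451729) (.g (nat_lit 3079) (.e (nat_lit 2610) (nat_lit 163) (.e (nat_lit 163979) (nat_lit 30) (.e (nat_lit 573493) (nat_lit 15) (.e (nat_lit 81953) (nat_lit 22) (.e (nat_lit 90170) (nat_lit 13) (.e (nat_lit 172049) (nat_lit 0) (.e (nat_lit 2458) (nat_lit 157) (.e (nat_lit 5546) (nat_lit 306) .nil)))))))) (.g (nat_lit 1) (.e (nat_lit 20413) (nat_lit 0) .nil) .nil))) 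
(.lf (nat_lit 452241) (.g (nat_lit 3129) (.e (nat_lit 2612) (nat_lit 163) (.e (nat_lit 163978) (nat_lit 30) (.e (nat_lit 573485) (nat_lit 13) (.e (nat_lit 65604) (nat_lit 9) (.e (nat_lit 336028) (nat_lit 3) (.e (nat_lit 98366) (nat_lit 27) (.e (nat_lit 434215) (nat_lit 18) (.e (nat_lit 5448) (nat_lit 306) .nil)))))))) (.g (nat_lit 1) (.e (nat_lit 22396) (nat_lit 0) .nil) .nil)))) (.nd (nat_lit 9) 
(.lf (nat_lit 451985) (.g (nat_lit 4259) (.e (nat_lit 2611) (nat_lit 163) (.e (nat_lit 163978) (nat_lit 30) (.e (nat_lit 573485) (nat_lit 13) (.e (nat_lit 65604) (nat_lit 9) (.e (nat_lit 336028) (nat_lit 3) (.e (nat_lit 98366) (nat_lit 27) (.e (nat_lit 434209) (nat_lit 18) (.e (nat_lit 5546) (nat_lit 306) .nil)))))))) (.g (nat_lit 1) (.e (nat_lit 21430) (nat_lit 0) .nil) .nil))) 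
(.lf (nat_lit 452497) (.g (nat_lit 2593) (.e (nat_lit 2612) (nat_lit 163) (.e (nat_lit 163979) (nat_lit 30) (.e (nat_lit 573492) (nat_lit 15) (.e (nat_lit 81956) (nat_lit 23) (.e (nat_lit 98355) (nat_lit 26) (.e (nat_lit 426148) (nat_lit 4) (.e (nat_lit 229665) (nat_lit 240) .nil))))))) (.g (nat_lit 1) (.e (nat_lit 22744) (nat_lit 0) .nil) .nil)))))) 
(.nd (nat_lit 7) (.nd (nat_lit 8) (.nd (nat_lit 9) 
(.lf (nat_lit 451665) (.g (nat_lit 3050) (.e (nat_lit 2610) (nat_lit 163) (.e (nat_lit 163979) (nat_lit 30) (.e (nat_lit 573491) (nat_lit 15) (.e (nat_lit 81954) (nat_lit 23) (.e (nat_lit 98365) (nat_lit 26) (.e (nat_lit 426107) (nat_lit 1) (.e (nat_lit 164345) (nat_lit 240) .nil))))))) (.g (nat_lit 1) (.e (nat_lit 20293) (nat_lit 0) .nil) .nil))) 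
(.lf (nat_lit 452177) (.g (nat_lit 4297) (.e (nat_lit 2612) (nat_lit 163) (.e (nat_lit 163977) (nat_lit 30) (.e (nat_lit 573493) (nat_lit 15) (.e (nat_lit 81953) (nat_lit 22) (.e (nat_lit 90166) (nat_lit 13) (.e (nat_lit 172070) (nat_lit 4) (.e (nat_lit 229663) (nat_lit 240) .nil))))))) (.g (nat_lit 1) (.e (nat_lit 22314) (nat_lit 0) .nil) .nil)))) (.nd (nat_lit 9) 
(.lf (nat_lit 451921) (.g (nat_lit 3875) (.e (nat_lit 2611) (nat_lit 163) (.e (nat_lit 163977) (nat_lit 30) (.e (nat_lit 573485) (nat_lit 13) (.e (nat_lit 65604) (nat_lit 9) (.e (nat_lit 336013) (nat_lit 2) (.e (nat_lit 90170) (nat_lit 13) (.e (nat_lit 172059) (nat_lit 1) (.e (nat_lit 164346) (nat_lit 240) .nil)))))))) (.g (nat_lit 1) (.e (nat_lit 21039) (nat_lit 0) .nil) .nil))) 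
(.lf (nat_lit 452433) (.g (nat_lit 4459) (.e (nat_lit 2612) (nat_lit 163) (.e (nat_lit 163979) (nat_lit 30) (.e (nat_lit 573487) (nat_lit 14) (.e (nat_lit 73753) (nat_lit 8) (.e (nat_lit 557098) (nat_lit 13) (.e (nat_lit 172133) (nat_lit 15) (.e (nat_lit 1800) (nat_lit 119) (.e (nat_lit 516120) (nat_lit 1) (.e (nat_lit 164304) (nat_lit 226) .nil))))))))) (.g (nat_lit 1) (.e (nat_lit 22663) (nat_lit 0) .nil) .nil))))) 
(.nd (nat_lit 8) (.nd (nat_lit 9) 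
(.lf (nat_lit 451793) (.g (nat_lit 4566) (.e (nat_lit 2610) (nat_lit 163) (.e (nat_lit 163979) (nat_lit 30) (.e (nat_lit 573493) (nat_lit 15) (.e (nat_lit 81956) (nat_lit 23) (.e (nat_lit 98359) (nat_lit 26) (.e (nat_lit 426097) (nat_lit 1) (.e (nat_lit 164345) (nat_lit 240) .nil))))))) (.g (nat_lit 1) (.e (nat_lit 20522) (nat_lit 0) .nil) .nil))) 
(.lf (nat_lit 452305) (.g (nat_lit 3633) (.e (nat_lit 2612) (nat_lit 163) (.e (nat_lit 163978) (nat_lit 30) (.e (nat_lit 573489) (nat_lit 14) (.e (nat_lit 73754) (nat_lit 8) (.e (nat_lit 557095) (nat_lit 13) (.e (nat_lit 179968) (nat_lit 18) (.e (nat_lit 98334) (nat_lit 18) (.e (nat_lit 164305) (nat_lit 226) .nil)))))))) (.g (nat_lit 1) (.e (nat_lit 22473) (nat_lit 0) .nil) .nil)))) 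
(.nd (nat_lit 9) 
(.lf (nat_lit 452049) (.g (nat_lit 3262) (.e (nat_lit 2611) (nat_lit 163) (.e (nat_lit 163979) (nat_lit 30) (.e (nat_lit 573482) (nat_lit 13) (.e (nat_lit 65619) (nat_lit 10) (.e (nat_lit 344117) (nat_lit 21) (.e (nat_lit 516170) (nat_lit 13) (.e (nat_lit 458774) (nat_lit 18) (.e (nat_lit 5546) (nat_lit 306) .nil)))))))) (.g (nat_lit 1) (.e (nat_lit 21810) (nat_lit 0) .nil) .nil))) 
(.lf (nat_lit 452561) (.g (nat_lit 5095) (.e (nat_lit 2612) (nat_lit 163) (.e (nat_lit 163979) (nat_lit 30) (.e (nat_lit 573493) (nat_lit 15) (.e (nat_lit 81956) (nat_lit 23) (.e (nat_lit 98368) (nat_lit 27) (.e (nat_lit 434216) (nat_lit 18) (.e (nat_lit 5448) (nat_lit 306) .nil))))))) (.g (nat_lit 1) (.e (nat_lit 22824) (nat_lit 0) .nil) .nil))))))) 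
(.nd (nat_lit 6) (.nd (nat_lit 7) (.nd (nat_lit 8) (.nd (nat_lit 9) 
(.lf (nat_lit 451633) (.g (nat_lit 1588) (.e (nat_lit 2610) (nat_lit 163) (.e (nat_lit 163979) (nat_lit 30) (.e (nat_lit 573485) (nat_lit 13) (.e (nat_lit 65604) (nat_lit 9) .nil)))) (.g (nat_lit 0) (.e (nat_lit 20229) (nat_lit 0) .nil) .nil))) 
(.lf (nat_lit 452145) (.g (nat_lit 2479) (.e (nat_lit 2612) (nat_lit 163) (.e (nat_lit 163977) (nat_lit 30) (.e (nat_lit 573491) (nat_lit 15) (.e (nat_lit 81951) (nat_lit 22) (.e (nat_lit 90170) (nat_lit 13) (.e (nat_lit 172068) (nat_lit 4) (.e (nat_lit 229665) (nat_lit 240) .nil))))))) (.g (nat_lit 1) (.e (nat_lit 22267) (nat_lit 0) .nil) .nil)))) (.nd (nat_lit 9) 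
(.lf (nat_lit 451889) (.g (nat_lit 3374) (.e (nat_lit 2610) (nat_lit 163) (.e (nat_lit 164403) (nat_lit 256) (.e (nat_lit 57373) (nat_lit 2) (.e (nat_lit 90174) (nat_lit 14) (.e (nat_lit 180243) (nat_lit 5) (.e (nat_lit 532515) (nat_lit 3) (.e (nat_lit 114716) (nat_lit 22) (.e (nat_lit 90121) (nat_lit 9) .nil)))))))) (.g (nat_lit 1) (.e (nat_lit 20967) (nat_lit 0) .nil) .nil))) 
(.lf (nat_lit 452401) (.g (nat_lit 2865) (.e (nat_lit 2612) (nat_lit 163) (.e (nat_lit 163979) (nat_lit 30) (.e (nat_lit 573482) (nat_lit 13) (.e (nat_lit 65604) (nat_lit 9) (.e (nat_lit 336028) (nat_lit 3) (.e (nat_lit 98359) (nat_lit 26) (.e (nat_lit 426142) (nat_lit 4) (.e (nat_lit 229664) (nat_lit 240) .nil)))))))) (.g (nat_lit 1) (.e (nat_lit 22625) (nat_lit 0) .nil) .nil))))) 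
(.nd (nat_lit 8) (.nd (nat_lit 9) 
(.lf (nat_lit 451761) (.g (nat_lit 4735) (.e (nat_lit 2610) (nat_lit 163) (.e (nat_lit 163979) (nat_lit 30) (.e (nat_lit 573493) (nat_lit 15) (.e (nat_lit 81954) (nat_lit 23) (.e (nat_lit 98359) (nat_lit 26) (.e (nat_lit 426097) (nat_lit 1) (.e (nat_lit 164348) (nat_lit 240) .nil))))))) (.g (nat_lit 1) (.e (nat_lit 20447) (nat_lit 0) .nil) .nil))) 
(.lf (nat_lit 452273) (.g (nat_lit 5000) (.e (nat_lit 2612) (nat_lit 163) (.e (nat_lit 163978) (nat_lit 30) (.e (nat_lit 573487) (nat_lit 14) (.e (nat_lit 73753) (nat_lit 8) (.e (nat_lit 557098) (nat_lit 13) (.e (nat_lit 172133) (nat_lit 15) (.e (nat_lit 1800) (nat_lit 119) (.e (nat_lit 516120) (nat_lit 1) (.e (nat_lit 164305) (nat_lit 226) .nil))))))))) (.g (nat_lit 1) (.e (nat_lit 22437) (nat_lit 0) .nil) .nil)))) 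
(.nd (nat_lit 9) 
(.lf (nat_lit 452017) (.g (nat_lit 4369) (.e (nat_lit 2611) (nat_lit 163) (.e (nat_lit 163979) (nat_lit 30) (.e (nat_lit 573482) (nat_lit 13) (.e (nat_lit 65604) (nat_lit 9) (.e (nat_lit 336013) (nat_lit 2) (.e (nat_lit 90170) (nat_lit 13) (.e (nat_lit 172046) (nat_lit 0) (.e (nat_lit 2458) (nat_lit 157) (.e (nat_lit 5546) (nat_lit 306) .nil))))))))) (.g (nat_lit 1) (.e (nat_lit 21766) (nat_lit 0) .nil) .nil))) 
(.lf (nat_lit 452529) (.g (nat_lit 2833) (.e (nat_lit 2612) (nat_lit 163) (.e (nat_lit 163979) (nat_lit 30) (.e (nat_lit 573493) (nat_lit 15) (.e (nat_lit 81953) (nat_lit 22) (.e (nat_lit 90170) (nat_lit 13) (.e (nat_lit 179968) (nat_lit 4) (.e (nat_lit 229663) (nat_lit 240) .nil))))))) (.g (nat_lit 1) (.e (nat_lit 22787) (nat_lit 0) .nil) .nil)))))) 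
(.nd (nat_lit 7) (.nd (nat_lit 8) (.nd (nat_lit 9) 
(.lf (nat_lit 451697) (.g (nat_lit 2852) (.e (nat_lit 2610) (nat_lit 163) (.e (nat_lit 163979) (nat_lit 30) (.e (nat_lit 573492) (nat_lit 15) (.e (nat_lit 81956) (nat_lit 23) (.e (nat_lit 98376) (nat_lit 30) (.e (nat_lit 458774) (nat_lit 18) (.e (nat_lit 5543) (nat_lit 306) .nil))))))) (.g (nat_lit 1) (.e (nat_lit 20350) (nat_lit 0) .nil) .nil))) 
(.lf (nat_lit 452209) (.g (nat_lit 3689) (.e (nat_lit 2612) (nat_lit 163) (.e (nat_lit 163978) (nat_lit 30) (.e (nat_lit 573479) (nat_lit 13) (.e (nat_lit 65619) (nat_lit 10) (.e (nat_lit 344117) (nat_lit 21) (.e (nat_lit 516151) (nat_lit 9) (.e (nat_lit 426142) (nat_lit 4) (.e (nat_lit 229665) (nat_lit 240) .nil)))))))) (.g (nat_lit 1) (.e (nat_lit 22358) (nat_lit 0) .nil) .nil)))) 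
(.nd (nat_lit 9) 
(.lf (nat_lit 451953) (.g (nat_lit 4465) (.e (nat_lit 2611) (nat_lit 163) (.e (nat_lit 163978) (nat_lit 30) (.e (nat_lit 573479) (nat_lit 13) (.e (nat_lit 65619) (nat_lit 10) (.e (nat_lit 344117) (nat_lit 21) (.e (nat_lit 516151) (nat_lit 9) (.e (nat_lit 426097) (nat_lit 1) (.e (nat_lit 164345) (nat_lit 240) .nil)))))))) (.g (nat_lit 1) (.e (nat_lit 21338) (nat_lit 0) .nil) .nil))) 
(.lf (nat_lit 452465) (.g (nat_lit 4514) (.e (nat_lit 2612) (nat_lit 163) (.e (nat_lit 163979) (nat_lit 30) (.e (nat_lit 573489) (nat_lit 14) (.e (nat_lit 73755) (nat_lit 8) (.e (nat_lit 557098) (nat_lit 13) (.e (nat_lit 172133) (nat_lit 15) (.e (nat_lit 1800) (nat_lit 119) (.e (nat_lit 516117) (nat_lit 1) (.e (nat_lit 164305) (nat_lit 226) .nil))))))))) (.g (nat_lit 1) (.e (nat_lit 22699) (nat_lit 0) .nil) .nil))))) 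
(.nd (nat_lit 8) (.nd (nat_lit 9) 
(.lf (nat_lit 451825) (.g (nat_lit 3111) (.e (nat_lit 2610) (nat_lit 163) (.e (nat_lit 163979) (nat_lit 30) (.e (nat_lit 573493) (nat_lit 15) (.e (nat_lit 81956) (nat_lit 23) (.e (nat_lit 106240) (nat_lit 26) (.e (nat_lit 426107) (nat_lit 1) (.e (nat_lit 164345) (nat_lit 240) .nil))))))) (.g (nat_lit 1) (.e (nat_lit 20554) (nat_lit 0) .nil) .nil))) 
(.lf (nat_lit 452337) (.g (nat_lit 6665) (.e (nat_lit 2612) (nat_lit 163) (.e (nat_lit 163978) (nat_lit 30) (.e (nat_lit 573489) (nat_lit 14) (.e (nat_lit 73755) (nat_lit 8) (.e (nat_lit 557097) (nat_lit 13) (.e (nat_lit 172133) (nat_lit 15) (.e (nat_lit 1800) (nat_lit 119) (.e (nat_lit 516117) (nat_lit 1) (.e (nat_lit 164304) (nat_lit 226) .nil))))))))) (.g (nat_lit 1) (.e (nat_lit 22518) (nat_lit 0) .nil) .nil)))) 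
(.nd (nat_lit 9) 
(.lf (nat_lit 452081) (.g (nat_lit 4336) (.e (nat_lit 2612) (nat_lit 163) (.e (nat_lit 163964) (nat_lit 25) (.e (nat_lit 532513) (nat_lit 3) (.e (nat_lit 114714) (nat_lit 22) (.e (nat_lit 90172) (nat_lit 14) (.e (nat_lit 180243) (nat_lit 5) (.e (nat_lit 532504) (nat_lit 1) (.e (nat_lit 57663) (nat_lit 152) .nil)))))))) (.g (nat_lit 1) (.e (nat_lit 22182) (nat_lit 0) .nil) .nil))) 
(.lf (nat_lit 452593) (.g (nat_lit 2166) (.e (nat_lit 2612) (nat_lit 163) (.e (nat_lit 164403) (nat_lit 256) (.e (nat_lit 57371) (nat_lit 2) (.e (nat_lit 90174) (nat_lit 14) (.e (nat_lit 180243) (nat_lit 5) .nil))))) (.g (nat_lit 0) (.e (nat_lit 23277) (nat_lit 0) .nil) .nil))))))))) (.nd (nat_lit 4) (.nd (nat_lit 5) (.nd (nat_lit 6) (.nd (nat_lit 7) (.nd (nat_lit 8) (.nd (nat_lit 9) 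
(.lf (nat_lit 451593) (.g (nat_lit 4587) (.e (nat_lit 2610) (nat_lit 163) (.e (nat_lit 163979) (nat_lit 30) (.e (nat_lit 573482) (nat_lit 13) (.e (nat_lit 65619) (nat_lit 10) (.e (nat_lit 344117) (nat_lit 21) (.e (nat_lit 516151) (nat_lit 9) (.e (nat_lit 426097) (nat_lit 1) (.e (nat_lit 164346) (nat_lit 240) .nil)))))))) (.g (nat_lit 1) (.e (nat_lit 20187) (nat_lit 0) .nil) .nil))) 
(.lf (nat_lit 452105) (.g (nat_lit 3756) (.e (nat_lit 2612) (nat_lit 163) (.e (nat_lit 163977) (nat_lit 30) (.e (nat_lit 573484) (nat_lit 13) (.e (nat_lit 65610) (nat_lit 10) (.e (nat_lit 344117) (nat_lit 21) (.e (nat_lit 516143) (nat_lit 9) (.e (nat_lit 426144) (nat_lit 4) (.e (nat_lit 229663) (nat_lit 240) .nil)))))))) (.g (nat_lit 1) (.e (nat_lit 22223) (nat_lit 0) .nil) .nil)))) 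
(.nd (nat_lit 9) 
(.lf (nat_lit 451849) (.g (nat_lit 3167) (.e (nat_lit 2610) (nat_lit 163) (.e (nat_lit 163979) (nat_lit 30) (.e (nat_lit 573493) (nat_lit 15) (.e (nat_lit 81956) (nat_lit 23) (.e (nat_lit 98368) (nat_lit 27) (.e (nat_lit 434211) (nat_lit 18) (.e (nat_lit 5543) (nat_lit 306) .nil))))))) (.g (nat_lit 1) (.e (nat_lit 20578) (nat_lit 0) .nil) .nil))) 
(.lf (nat_lit 452361) (.g (nat_lit 3205) (.e (nat_lit 2612) (nat_lit 163) (.e (nat_lit 163978) (nat_lit 30) (.e (nat_lit 573489) (nat_lit 14) (.e (nat_lit 73755) (nat_lit 8) (.e (nat_lit 557098) (nat_lit 13) (.e (nat_lit 172136) (nat_lit 15) (.e (nat_lit 1798) (nat_lit 119) (.e (nat_lit 516120) (nat_lit 1) (.e (nat_lit 164304) (nat_lit 226) .nil))))))))) (.g (nat_lit 1) (.e (nat_lit 22542) (nat_lit 0) .nil) .nil))))) 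
(.nd (nat_lit 8) (.nd (nat_lit 9) 
(.lf (nat_lit 451721) (.g (nat_lit 4524) (.e (nat_lit 2610) (nat_lit 163) (.e (nat_lit 163979) (nat_lit 30) (.e (nat_lit 573493) (nat_lit 15) (.e (nat_lit 81951) (nat_lit 22) (.e (nat_lit 90185) (nat_lit 17) (.e (nat_lit 237582) (nat_lit 1) (.e (nat_lit 164347) (nat_lit 240) .nil))))))) (.g (nat_lit 1) (.e (nat_lit 20390) (nat_lit 0) .nil) .nil))) 
(.lf (nat_lit 452233) (.g (nat_lit 6039) (.e (nat_lit 2612) (nat_lit 163) (.e (nat_lit 163978) (nat_lit 30) (.e (nat_lit 573485) (nat_lit 13) (.e (nat_lit 65604) (nat_lit 9) (.e (nat_lit 336013) (nat_lit 2) (.e (nat_lit 90170) (nat_lit 13) (.e (nat_lit 172070) (nat_lit 4) (.e (nat_lit 229663) (nat_lit 240) .nil)))))))) (.g (nat_lit 1) (.e (nat_lit 22387) (nat_lit 0) .nil) .nil)))) 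
(.nd (nat_lit 9) 
(.lf (nat_lit 451977) (.g (nat_lit 4444) (.e (nat_lit 2611) (nat_lit 163) (.e (nat_lit 163978) (nat_lit 30) (.e (nat_lit 573485) (nat_lit 13) (.e (nat_lit 65604) (nat_lit 9) (.e (nat_lit 336013) (nat_lit 2) (.e (nat_lit 90170) (nat_lit 13) (.e (nat_lit 172059) (nat_lit 1) (.e (nat_lit 164346) (nat_lit 240) .nil)))))))) (.g (nat_lit 1) (.e (nat_lit 21405) (nat_lit 0) .nil) .nil))) 
(.lf (nat_lit 452489) (.g (nat_lit 2958) (.e (nat_lit 2612) (nat_lit 163) (.e (nat_lit 163979) (nat_lit 30) (.e (nat_lit 573491) (nat_lit 15) (.e (nat_lit 81954) (nat_lit 23) (.e (nat_lit 98359) (nat_lit 26) (.e (nat_lit 426142) (nat_lit 4) (.e (nat_lit 229665) (nat_lit 240) .nil))))))) (.g (nat_lit 1) (.e (nat_lit 22724) (nat_lit 0) .nil) .nil)))))) 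
(.nd (nat_lit 7) (.nd (nat_lit 8) (.nd (nat_lit 9) 
(.lf (nat_lit 451657) (.g (nat_lit 2498) (.e (nat_lit 2610) (nat_lit 163) (.e (nat_lit 163979) (nat_lit 30) (.e (nat_lit 573491) (nat_lit 15) (.e (nat_lit 81954) (nat_lit 23) (.e (nat_lit 98360) (nat_lit 26) (.e (nat_lit 426109) (nat_lit 1) (.e (nat_lit 164347) (nat_lit 240) .nil))))))) (.g (nat_lit 1) (.e (nat_lit 20285) (nat_lit 0) .nil) .nil))) 
(.lf (nat_lit 452169) (.g (nat_lit 2004) (.e (nat_lit 2612) (nat_lit 163) (.e (nat_lit 163977) (nat_lit 30) (.e (nat_lit 573493) (nat_lit 15) (.e (nat_lit 81951) (nat_lit 22) .nil)))) (.g (nat_lit 0) (.e (nat_lit 22303) (nat_lit 0) .nil) .nil)))) (.nd (nat_lit 9) 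
(.lf (nat_lit 451913) (.g (nat_lit 3897) (.e (nat_lit 2611) (nat_lit 163) (.e (nat_lit 163977) (nat_lit 30) (.e (nat_lit 573482) (nat_lit 13) (.e (nat_lit 65619) (nat_lit 10) (.e (nat_lit 344117) (nat_lit 21) (.e (nat_lit 516159) (nat_lit 10) (.e (nat_lit 434202) (nat_lit 18) (.e (nat_lit 5537) (nat_lit 306) .nil)))))))) (.g (nat_lit 1) (.e (nat_lit 21012) (nat_lit 0) .nil) .nil))) 
(.lf (nat_lit 452425) (.g (nat_lit 2654) (.e (nat_lit 2612) (nat_lit 163) (.e (nat_lit 163979) (nat_lit 30) (.e (nat_lit 573487) (nat_lit 14) (.e (nat_lit 73753) (nat_lit 8) (.e (nat_lit 557097) (nat_lit 13) (.e (nat_lit 172133) (nat_lit 15) (.e (nat_lit 1800) (nat_lit 119) (.e (nat_lit 516117) (nat_lit 1) (.e (nat_lit 164304) (nat_lit 226) .nil))))))))) (.g (nat_lit 1) (.e (nat_lit 22654) (nat_lit 0) .nil) .nil))))) 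
(.nd (nat_lit 8) (.nd (nat_lit 9) 
(.lf (nat_lit 451785) (.g (nat_lit 3602) (.e (nat_lit 2610) (nat_lit 163) (.e (nat_lit 163979) (nat_lit 30) (.e (nat_lit 573493) (nat_lit 15) (.e (nat_lit 81954) (nat_lit 23) (.e (nat_lit 98368) (nat_lit 27) .nil))))) (.g (nat_lit 0) (.e (nat_lit 20471) (nat_lit 0) .nil) .nil))) 
(.lf (nat_lit 452297) (.g (nat_lit 3329) (.e (nat_lit 2612) (nat_lit 163) (.e (nat_lit 163978) (nat_lit 30) (.e (nat_lit 573487) (nat_lit 14) (.e (nat_lit 73753) (nat_lit 8) (.e (nat_lit 557103) (nat_lit 14) (.e (nat_lit 180244) (nat_lit 5) (.e (nat_lit 532501) (nat_lit 1) (.e (nat_lit 57663) (nat_lit 152) .nil)))))))) (.g (nat_lit 1) (.e (nat_lit 22465) (nat_lit 0) .nil) .nil)))) 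
(.nd (nat_lit 9) 
(.lf (nat_lit 452041) (.g (nat_lit 3160) (.e (nat_lit 2611) (nat_lit 163) (.e (nat_lit 163979) (nat_lit 30) (.e (nat_lit 573482) (nat_lit 13) (.e (nat_lit 65619) (nat_lit 10) (.e (nat_lit 344117) (nat_lit 21) (.e (nat_lit 516152) (nat_lit 9) (.e (nat_lit 426109) (nat_lit 1) (.e (nat_lit 164347) (nat_lit 240) .nil)))))))) (.g (nat_lit 1) (.e (nat_lit 21802) (nat_lit 0) .nil) .nil))) 
(.lf (nat_lit 452553) (.g (nat_lit 4265) (.e (nat_lit 2612) (nat_lit 163) (.e (nat_lit 163979) (nat_lit 30) (.e (nat_lit 573493) (nat_lit 15) (.e (nat_lit 81956) (nat_lit 23) (.e (nat_lit 98361) (nat_lit 26) (.e (nat_lit 426143) (nat_lit 4) (.e (nat_lit 229663) (nat_lit 240) .nil))))))) (.g (nat_lit 1) (.e (nat_lit 22816) (nat_lit 0) .nil) .nil))))))) 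
(.nd (nat_lit 6) (.nd (nat_lit 7) (.nd (nat_lit 8) (.nd (nat_lit 9) 
(.lf (nat_lit 451625) (.g (nat_lit 4436) (.e (nat_lit 2610) (nat_lit 163) (.e (nat_lit 163979) (nat_lit 30) (.e (nat_lit 573482) (nat_lit 13) (.e (nat_lit 65619) (nat_lit 10) (.e (nat_lit 344117) (nat_lit 21) (.e (nat_lit 516171) (nat_lit 13) (.e (nat_lit 458774) (nat_lit 18) (.e (nat_lit 5548) (nat_lit 306) .nil)))))))) (.g (nat_lit 1) (.e (nat_lit 20219) (nat_lit 0) .nil) .nil))) 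
(.lf (nat_lit 452137) (.g (nat_lit 2718) (.e (nat_lit 2612) (nat_lit 163) (.e (nat_lit 163977) (nat_lit 30) (.e (nat_lit 573489) (nat_lit 14) (.e (nat_lit 73755) (nat_lit 8) (.e (nat_lit 557097) (nat_lit 13) (.e (nat_lit 172132) (nat_lit 15) (.e (nat_lit 1796) (nat_lit 119) (.e (nat_lit 516120) (nat_lit 1) (.e (nat_lit 164304) (nat_lit 226) .nil))))))))) (.g (nat_lit 1) (.e (nat_lit 22259) (nat_lit 0) .nil) .nil)))) 
(.nd (nat_lit 9) 
(.lf (nat_lit 451881) (.g (nat_lit 2563) (.e (nat_lit 2610) (nat_lit 163) (.e (nat_lit 164402) (nat_lit 256) (.e (nat_lit 57373) (nat_lit 2) (.e (nat_lit 90174) (nat_lit 14) (.e (nat_lit 180243) (nat_lit 5) (.e (nat_lit 532515) (nat_lit 3) (.e (nat_lit 114716) (nat_lit 22) (.e (nat_lit 90121) (nat_lit 9) .nil)))))))) (.g (nat_lit 1) (.e (nat_lit 20959) (nat_lit 0) .nil) .nil))) 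
(.lf (nat_lit 452393) (.g (nat_lit 1952) (.e (nat_lit 2612) (nat_lit 163) (.e (nat_lit 163979) (nat_lit 30) (.e (nat_lit 573482) (nat_lit 13) (.e (nat_lit 65589) (nat_lit 9) .nil)))) (.g (nat_lit 0) (.e (nat_lit 22616) (nat_lit 0) .nil) .nil))))) (.nd (nat_lit 8) (.nd (nat_lit 9) 
(.lf (nat_lit 451753) (.g (nat_lit 4773) (.e (nat_lit 2610) (nat_lit 163) (.e (nat_lit 163979) (nat_lit 30) (.e (nat_lit 573493) (nat_lit 15) (.e (nat_lit 81954) (nat_lit 23) (.e (nat_lit 98354) (nat_lit 26) (.e (nat_lit 426109) (nat_lit 1) (.e (nat_lit 164347) (nat_lit 240) .nil))))))) (.g (nat_lit 1) (.e (nat_lit 20437) (nat_lit 0) .nil) .nil))) 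
(.lf (nat_lit 452265) (.g (nat_lit 3328) (.e (nat_lit 2612) (nat_lit 163) (.e (nat_lit 163978) (nat_lit 30) (.e (nat_lit 573487) (nat_lit 14) (.e (nat_lit 73753) (nat_lit 8) (.e (nat_lit 557097) (nat_lit 13) (.e (nat_lit 172133) (nat_lit 15) (.e (nat_lit 1800) (nat_lit 119) (.e (nat_lit 516120) (nat_lit 1) (.e (nat_lit 164305) (nat_lit 226) .nil))))))))) (.g (nat_lit 1) (.e (nat_lit 22426) (nat_lit 0) .nil) .nil)))) 
(.nd (nat_lit 9) 
(.lf (nat_lit 452009) (.g (nat_lit 4393) (.e (nat_lit 2611) (nat_lit 163) (.e (nat_lit 163978) (nat_lit 30) (.e (nat_lit 573485) (nat_lit 13) (.e (nat_lit 65619) (nat_lit 10) (.e (nat_lit 344117) (nat_lit 21) (.e (nat_lit 516160) (nat_lit 10) (.e (nat_lit 434209) (nat_lit 18) (.e (nat_lit 5546) (nat_lit 306) .nil)))))))) (.g (nat_lit 1) (.e (nat_lit 21456) (nat_lit 0) .nil) .nil))) 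
(.lf (nat_lit 452521) (.g (nat_lit 5369) (.e (nat_lit 2612) (nat_lit 163) (.e (nat_lit 163979) (nat_lit 30) (.e (nat_lit 573493) (nat_lit 15) (.e (nat_lit 81953) (nat_lit 22) (.e (nat_lit 90170) (nat_lit 13) (.e (nat_lit 172068) (nat_lit 4) (.e (nat_lit 229663) (nat_lit 240) .nil))))))) (.g (nat_lit 1) (.e (nat_lit 22779) (nat_lit 0) .nil) .nil)))))) 
(.nd (nat_lit 7) (.nd (nat_lit 8) (.nd (nat_lit 9) 
(.lf (nat_lit 451689) (.g (nat_lit 3393) (.e (nat_lit 2610) (nat_lit 163) (.e (nat_lit 163979) (nat_lit 30) (.e (nat_lit 573492) (nat_lit 15) (.e (nat_lit 81956) (nat_lit 23) (.e (nat_lit 98356) (nat_lit 26) (.e (nat_lit 433920) (nat_lit 1) (.e (nat_lit 164346) (nat_lit 240) .nil))))))) (.g (nat_lit 1) (.e (nat_lit 20342) (nat_lit 0) .nil) .nil))) 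
(.lf (nat_lit 452201) (.g (nat_lit 3651) (.e (nat_lit 2612) (nat_lit 163) (.e (nat_lit 163977) (nat_lit 30) (.e (nat_lit 573493) (nat_lit 15) (.e (nat_lit 81956) (nat_lit 23) (.e (nat_lit 98367) (nat_lit 27) (.e (nat_lit 434215) (nat_lit 18) (.e (nat_lit 5448) (nat_lit 306) .nil))))))) (.g (nat_lit 1) (.e (nat_lit 22341) (nat_lit 0) .nil) .nil)))) (.nd (nat_lit 9) 
(.lf (nat_lit 451945) (.g (nat_lit 4117) (.e (nat_lit 2611) (nat_lit 163) (.e (nat_lit 163978) (nat_lit 30) (.e (nat_lit 573479) (nat_lit 13) (.e (nat_lit 65604) (nat_lit 9) (.e (nat_lit 336028) (nat_lit 3) (.e (nat_lit 98367) (nat_lit 27) (.e (nat_lit 434209) (nat_lit 18) (.e (nat_lit 5548) (nat_lit 306) .nil)))))))) (.g (nat_lit 1) (.e (nat_lit 21330) (nat_lit 0) .nil) .nil))) 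
(.lf (nat_lit 452457) (.g (nat_lit 3943) (.e (nat_lit 2612) (nat_lit 163) (.e (nat_lit 163979) (nat_lit 30) (.e (nat_lit 573489) (nat_lit 14) (.e (nat_lit 73755) (nat_lit 8) (.e (nat_lit 557096) (nat_lit 13) (.e (nat_lit 172133) (nat_lit 15) (.e (nat_lit 1800) (nat_lit 119) (.e (nat_lit 516117) (nat_lit 1) (.e (nat_lit 164305) (nat_lit 226) .nil))))))))) (.g (nat_lit 1) (.e (nat_lit 22691) (nat_lit 0) .nil) .nil))))) 
(.nd (nat_lit 8) (.nd (nat_lit 9) 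
(.lf (nat_lit 451817) (.g (nat_lit 4889) (.e (nat_lit 2610) (nat_lit 163) (.e (nat_lit 163979) (nat_lit 30) (.e (nat_lit 573493) (nat_lit 15) (.e (nat_lit 81956) (nat_lit 23) (.e (nat_lit 98365) (nat_lit 26) (.e (nat_lit 426098) (nat_lit 1) (.e (nat_lit 164346) (nat_lit 240) .nil))))))) (.g (nat_lit 1) (.e (nat_lit 20546) (nat_lit 0) .nil) .nil))) 
(.lf (nat_lit 452329) (.g (nat_lit 2692) (.e (nat_lit 2612) (nat_lit 163) (.e (nat_lit 163978) (nat_lit 30) (.e (nat_lit 573489) (nat_lit 14) (.e (nat_lit 73755) (nat_lit 8) (.e (nat_lit 557096) (nat_lit 13) (.e (nat_lit 179968) (nat_lit 18) (.e (nat_lit 98333) (nat_lit 18) (.e (nat_lit 164305) (nat_lit 226) .nil)))))))) (.g (nat_lit 1) (.e (nat_lit 22510) (nat_lit 0) .nil) .nil)))) 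
(.nd (nat_lit 9) 
(.lf (nat_lit 452073) (.g (nat_lit 3281) (.e (nat_lit 2611) (nat_lit 163) (.e (nat_lit 164403) (nat_lit 256) (.e (nat_lit 57373) (nat_lit 2) (.e (nat_lit 90174) (nat_lit 14) (.e (nat_lit 180243) (nat_lit 5) (.e (nat_lit 532513) (nat_lit 3) (.e (nat_lit 114714) (nat_lit 22) (.e (nat_lit 90121) (nat_lit 9) .nil)))))))) (.g (nat_lit 1) (.e (nat_lit 22162) (nat_lit 0) .nil) .nil))) 
(.lf (nat_lit 452585) (.g (nat_lit 2942) (.e (nat_lit 2612) (nat_lit 163) (.e (nat_lit 164401) (nat_lit 256) (.e (nat_lit 57373) (nat_lit 2) (.e (nat_lit 90174) (nat_lit 14) (.e (nat_lit 180243) (nat_lit 5) (.e (nat_lit 532515) (nat_lit 3) (.e (nat_lit 114716) (nat_lit 22) (.e (nat_lit 90130) (nat_lit 9) .nil)))))))) (.g (nat_lit 1) (.e (nat_lit 23269) (nat_lit 0) .nil) .nil)))))))) 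
(.nd (nat_lit 5) (.nd (nat_lit 6) (.nd (nat_lit 7) (.nd (nat_lit 8) (.nd (nat_lit 9) 
(.lf (nat_lit 451609) (.g (nat_lit 2338) (.e (nat_lit 2610) (nat_lit 163) (.e (nat_lit 163979) (nat_lit 30) (.e (nat_lit 573482) (nat_lit 13) (.e (nat_lit 65619) (nat_lit 10) (.e (nat_lit 344117) (nat_lit 21) (.e (nat_lit 516159) (nat_lit 10) (.e (nat_lit 434212) (nat_lit 18) (.e (nat_lit 5547) (nat_lit 306) .nil)))))))) (.g (nat_lit 1) (.e (nat_lit 20203) (nat_lit 0) .nil) .nil))) 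
(.lf (nat_lit 452121) (.g (nat_lit 2642) (.e (nat_lit 2612) (nat_lit 163) (.e (nat_lit 163977) (nat_lit 30) (.e (nat_lit 573487) (nat_lit 14) (.e (nat_lit 73753) (nat_lit 8) (.e (nat_lit 557096) (nat_lit 13) (.e (nat_lit 172133) (nat_lit 15) (.e (nat_lit 1800) (nat_lit 119) (.e (nat_lit 516120) (nat_lit 1) (.e (nat_lit 164305) (nat_lit 226) .nil))))))))) (.g (nat_lit 1) (.e (nat_lit 22240) (nat_lit 0) .nil) .nil)))) 
(.nd (nat_lit 9) 
(.lf (nat_lit 451865) (.g (nat_lit 2918) (.e (nat_lit 2610) (nat_lit 163) (.e (nat_lit 164347) (nat_lit 240) (.e (nat_lit 2638) (nat_lit 165) (.e (nat_lit 188160) (nat_lit 38) (.e (nat_lit 122936) (nat_lit 23) (.e (nat_lit 516131) (nat_lit 3) (.e (nat_lit 221218) (nat_lit 24) (.e (nat_lit 213017) (nat_lit 9) .nil)))))))) (.g (nat_lit 1) (.e (nat_lit 20888) (nat_lit 0) .nil) .nil))) 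
(.lf (nat_lit 452377) (.g (nat_lit 3684) (.e (nat_lit 2612) (nat_lit 163) (.e (nat_lit 163978) (nat_lit 30) (.e (nat_lit 573489) (nat_lit 14) (.e (nat_lit 73755) (nat_lit 8) (.e (nat_lit 557103) (nat_lit 14) (.e (nat_lit 180244) (nat_lit 5) (.e (nat_lit 532503) (nat_lit 1) (.e (nat_lit 57652) (nat_lit 152) .nil)))))))) (.g (nat_lit 1) (.e (nat_lit 22558) (nat_lit 0) .nil) .nil))))) 
(.nd (nat_lit 8) (.nd (nat_lit 9) 
(.lf (nat_lit 451737) (.g (nat_lit 3676) (.e (nat_lit 2610) (nat_lit 163) (.e (nat_lit 163979) (nat_lit 30) (.e (nat_lit 573493) (nat_lit 15) (.e (nat_lit 81953) (nat_lit 22) (.e (nat_lit 90172) (nat_lit 14) (.e (nat_lit 180229) (nat_lit 0) (.e (nat_lit 5543) (nat_lit 306) .nil))))))) (.g (nat_lit 1) (.e (nat_lit 20421) (nat_lit 0) .nil) .nil))) 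
(.lf (nat_lit 452249) (.g (nat_lit 3412) (.e (nat_lit 2612) (nat_lit 163) (.e (nat_lit 163978) (nat_lit 30) (.e (nat_lit 573485) (nat_lit 13) (.e (nat_lit 65619) (nat_lit 10) (.e (nat_lit 344117) (nat_lit 21) (.e (nat_lit 516151) (nat_lit 9) (.e (nat_lit 426142) (nat_lit 4) (.e (nat_lit 229664) (nat_lit 240) .nil)))))))) (.g (nat_lit 1) (.e (nat_lit 22405) (nat_lit 0) .nil) .nil)))) 
(.nd (nat_lit 9) 
(.lf (nat_lit 451993) (.g (nat_lit 2299) (.e (nat_lit 2611) (nat_lit 163) (.e (nat_lit 163978) (nat_lit 30) (.e (nat_lit 573485) (nat_lit 13) (.e (nat_lit 65604) (nat_lit 9) (.e (nat_lit 336028) (nat_lit 3) (.e (nat_lit 98367) (nat_lit 27) (.e (nat_lit 434213) (nat_lit 18) (.e (nat_lit 5548) (nat_lit 306) .nil)))))))) (.g (nat_lit 1) (.e (nat_lit 21438) (nat_lit 0) .nil) .nil))) 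
(.lf (nat_lit 452505) (.g (nat_lit 3875) (.e (nat_lit 2612) (nat_lit 163) (.e (nat_lit 163979) (nat_lit 30) (.e (nat_lit 573492) (nat_lit 15) (.e (nat_lit 81956) (nat_lit 23) (.e (nat_lit 98360) (nat_lit 26) (.e (nat_lit 426144) (nat_lit 4) (.e (nat_lit 229665) (nat_lit 240) .nil))))))) (.g (nat_lit 1) (.e (nat_lit 22752) (nat_lit 0) .nil) .nil)))))) 
(.nd (nat_lit 7) (.nd (nat_lit 8) (.nd (nat_lit 9) 
(.lf (nat_lit 451673) (.g (nat_lit 3710) (.e (nat_lit 2610) (nat_lit 163) (.e (nat_lit 163979) (nat_lit 30) (.e (nat_lit 573491) (nat_lit 15) (.e (nat_lit 81954) (nat_lit 23) (.e (nat_lit 98367) (nat_lit 27) (.e (nat_lit 434209) (nat_lit 18) (.e (nat_lit 5546) (nat_lit 306) .nil))))))) (.g (nat_lit 1) (.e (nat_lit 20301) (nat_lit 0) .nil) .nil))) 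
(.lf (nat_lit 452185) (.g (nat_lit 1679) (.e (nat_lit 2612) (nat_lit 163) (.e (nat_lit 163977) (nat_lit 30) (.e (nat_lit 573493) (nat_lit 15) (.e (nat_lit 81953) (nat_lit 22) (.e (nat_lit 98048) (nat_lit 14) (.e (nat_lit 180232) (nat_lit 0) (.e (nat_lit 5448) (nat_lit 306) .nil))))))) (.g (nat_lit 1) (.e (nat_lit 22322) (nat_lit 0) .nil) .nil)))) (.nd (nat_lit 9) 
(.lf (nat_lit 451929) (.g (nat_lit 5038) (.e (nat_lit 2611) (nat_lit 163) (.e (nat_lit 163977) (nat_lit 30) (.e (nat_lit 573485) (nat_lit 13) (.e (nat_lit 65619) (nat_lit 10) (.e (nat_lit 344117) (nat_lit 21) (.e (nat_lit 516151) (nat_lit 9) (.e (nat_lit 426104) (nat_lit 1) (.e (nat_lit 164345) (nat_lit 240) .nil)))))))) (.g (nat_lit 1) (.e (nat_lit 21054) (nat_lit 0) .nil) .nil))) 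
(.lf (nat_lit 452441) (.g (nat_lit 2653) (.e (nat_lit 2612) (nat_lit 163) (.e (nat_lit 163979) (nat_lit 30) (.e (nat_lit 573487) (nat_lit 14) (.e (nat_lit 73753) (nat_lit 8) (.e (nat_lit 557101) (nat_lit 13) (.e (nat_lit 172136) (nat_lit 15) (.e (nat_lit 1800) (nat_lit 119) (.e (nat_lit 516120) (nat_lit 1) (.e (nat_lit 164304) (nat_lit 226) .nil))))))))) (.g (nat_lit 1) (.e (nat_lit 22671) (nat_lit 0) .nil) .nil))))) 
(.nd (nat_lit 8) (.nd (nat_lit 9) 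
(.lf (nat_lit 451801) (.g (nat_lit 4101) (.e (nat_lit 2610) (nat_lit 163) (.e (nat_lit 163979) (nat_lit 30) (.e (nat_lit 573493) (nat_lit 15) (.e (nat_lit 81956) (nat_lit 23) (.e (nat_lit 98359) (nat_lit 26) (.e (nat_lit 426104) (nat_lit 1) (.e (nat_lit 164348) (nat_lit 240) .nil))))))) (.g (nat_lit 1) (.e (nat_lit 20530) (nat_lit 0) .nil) .nil))) 
(.lf (nat_lit 452313) (.g (nat_lit 3434) (.e (nat_lit 2612) (nat_lit 163) (.e (nat_lit 163978) (nat_lit 30) (.e (nat_lit 573489) (nat_lit 14) (.e (nat_lit 73754) (nat_lit 8) (.e (nat_lit 557101) (nat_lit 13) (.e (nat_lit 172136) (nat_lit 15) (.e (nat_lit 1800) (nat_lit 119) (.e (nat_lit 516117) (nat_lit 1) (.e (nat_lit 164305) (nat_lit 226) .nil))))))))) (.g (nat_lit 1) (.e (nat_lit 22481) (nat_lit 0) .nil) .nil)))) 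
(.nd (nat_lit 9) 
(.lf (nat_lit 452057) (.g (nat_lit 3150) (.e (nat_lit 2611) (nat_lit 163) (.e (nat_lit 164396) (nat_lit 256) (.e (nat_lit 57371) (nat_lit 2) (.e (nat_lit 90174) (nat_lit 14) (.e (nat_lit 180243) (nat_lit 5) (.e (nat_lit 532515) (nat_lit 3) (.e (nat_lit 114716) (nat_lit 22) (.e (nat_lit 90121) (nat_lit 9) .nil)))))))) (.g (nat_lit 1) (.e (nat_lit 22146) (nat_lit 0) .nil) .nil))) 
(.lf (nat_lit 452569) (.g (nat_lit 3652) (.e (nat_lit 2612) (nat_lit 163) (.e (nat_lit 164326) (nat_lit 230) (.e (nat_lit 163903) (nat_lit 12) (.e (nat_lit 426566) (nat_lit 34) (.e (nat_lit 393271) (nat_lit 23) (.e (nat_lit 426428) (nat_lit 17) (.e (nat_lit 90130) (nat_lit 9) .nil))))))) (.g (nat_lit 1) (.e (nat_lit 23017) (nat_lit 0) .nil) .nil))))))) 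
(.nd (nat_lit 6) (.nd (nat_lit 7) (.nd (nat_lit 8) (.nd (nat_lit 9) 
(.lf (nat_lit 451641) (.g (nat_lit 3949) (.e (nat_lit 2610) (nat_lit 163) (.e (nat_lit 163979) (nat_lit 30) (.e (nat_lit 573491) (nat_lit 15) (.e (nat_lit 81951) (nat_lit 22) (.e (nat_lit 90185) (nat_lit 17) (.e (nat_lit 237582) (nat_lit 1) (.e (nat_lit 164347) (nat_lit 240) .nil))))))) (.g (nat_lit 1) (.e (nat_lit 20268) (nat_lit 0) .nil) .nil))) 
(.lf (nat_lit 452153) (.g (nat_lit 3354) (.e (nat_lit 2612) (nat_lit 163) (.e (nat_lit 163977) (nat_lit 30) (.e (nat_lit 573491) (nat_lit 15) (.e (nat_lit 81954) (nat_lit 23) (.e (nat_lit 98359) (nat_lit 26) (.e (nat_lit 426142) (nat_lit 4) (.e (nat_lit 229666) (nat_lit 240) .nil))))))) (.g (nat_lit 1) (.e (nat_lit 22278) (nat_lit 0) .nil) .nil)))) (.nd (nat_lit 9) 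
(.lf (nat_lit 451897) (.g (nat_lit 4031) (.e (nat_lit 2611) (nat_lit 163) (.e (nat_lit 163977) (nat_lit 30) (.e (nat_lit 573482) (nat_lit 13) (.e (nat_lit 65604) (nat_lit 9) (.e (nat_lit 336013) (nat_lit 2) (.e (nat_lit 90170) (nat_lit 13) (.e (nat_lit 172046) (nat_lit 0) (.e (nat_lit 2458) (nat_lit 157) (.e (nat_lit 5548) (nat_lit 306) .nil))))))))) (.g (nat_lit 1) (.e (nat_lit 20988) (nat_lit 0) .nil) .nil))) 
(.lf (nat_lit 452409) (.g (nat_lit 3591) (.e (nat_lit 2612) (nat_lit 163) (.e (nat_lit 163979) (nat_lit 30) (.e (nat_lit 573482) (nat_lit 13) (.e (nat_lit 65619) (nat_lit 10) (.e (nat_lit 344117) (nat_lit 21) (.e (nat_lit 516143) (nat_lit 9) (.e (nat_lit 426143) (nat_lit 4) (.e (nat_lit 229663) (nat_lit 240) .nil)))))))) (.g (nat_lit 1) (.e (nat_lit 22633) (nat_lit 0) .nil) .nil))))) 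
(.nd (nat_lit 8) (.nd (nat_lit 9) 
(.lf (nat_lit 451769) (.g (nat_lit 3759) (.e (nat_lit 2610) (nat_lit 163) (.e (nat_lit 163979) (nat_lit 30) (.e (nat_lit 573493) (nat_lit 15) (.e (nat_lit 81954) (nat_lit 23) (.e (nat_lit 98365) (nat_lit 26) .nil))))) (.g (nat_lit 0) (.e (nat_lit 20455) (nat_lit 0) .nil) .nil))) 
(.lf (nat_lit 452281) (.g (nat_lit 3380) (.e (nat_lit 2612) (nat_lit 163) (.e (nat_lit 163978) (nat_lit 30) (.e (nat_lit 573487) (nat_lit 14) (.e (nat_lit 73753) (nat_lit 8) (.e (nat_lit 557098) (nat_lit 13) (.e (nat_lit 179968) (nat_lit 15) (.e (nat_lit 1800) (nat_lit 119) (.e (nat_lit 516120) (nat_lit 1) (.e (nat_lit 164305) (nat_lit 226) .nil))))))))) (.g (nat_lit 1) (.e (nat_lit 22445) (nat_lit 0) .nil) .nil)))) 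
(.nd (nat_lit 9) 
(.lf (nat_lit 452025) (.g (nat_lit 4681) (.e (nat_lit 2611) (nat_lit 163) (.e (nat_lit 163979) (nat_lit 30) (.e (nat_lit 573482) (nat_lit 13) (.e (nat_lit 65604) (nat_lit 9) (.e (nat_lit 336013) (nat_lit 2) (.e (nat_lit 90170) (nat_lit 13) (.e (nat_lit 172061) (nat_lit 1) (.e (nat_lit 164348) (nat_lit 240) .nil)))))))) (.g (nat_lit 1) (.e (nat_lit 21774) (nat_lit 0) .nil) .nil))) 
(.lf (nat_lit 452537) (.g (nat_lit 4404) (.e (nat_lit 2612) (nat_lit 163) (.e (nat_lit 163979) (nat_lit 30) (.e (nat_lit 573493) (nat_lit 15) (.e (nat_lit 81954) (nat_lit 23) (.e (nat_lit 98359) (nat_lit 26) (.e (nat_lit 426142) (nat_lit 4) (.e (nat_lit 229666) (nat_lit 240) .nil))))))) (.g (nat_lit 1) (.e (nat_lit 22797) (nat_lit 0) .nil) .nil)))))) 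
(.nd (nat_lit 7) (.nd (nat_lit 8) (.nd (nat_lit 9) 
(.lf (nat_lit 451705) (.g (nat_lit 3411) (.e (nat_lit 2610) (nat_lit 163) (.e (nat_lit 163979) (nat_lit 30) (.e (nat_lit 573493) (nat_lit 15) (.e (nat_lit 81951) (nat_lit 22) (.e (nat_lit 90170) (nat_lit 13) .nil))))) (.g (nat_lit 0) (.e (nat_lit 20374) (nat_lit 0) .nil) .nil))) 
(.lf (nat_lit 452217) (.g (nat_lit 2740) (.e (nat_lit 2612) (nat_lit 163) (.e (nat_lit 163978) (nat_lit 30) (.e (nat_lit 573484) (nat_lit 13) (.e (nat_lit 65610) (nat_lit 10) (.e (nat_lit 344117) (nat_lit 21) (.e (nat_lit 516145) (nat_lit 9) (.e (nat_lit 433920) (nat_lit 4) (.e (nat_lit 229666) (nat_lit 240) .nil)))))))) (.g (nat_lit 1) (.e (nat_lit 22369) (nat_lit 0) .nil) .nil)))) 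
(.nd (nat_lit 9) 
(.lf (nat_lit 451961) (.g (nat_lit 2779) (.e (nat_lit 2611) (nat_lit 163) (.e (nat_lit 163978) (nat_lit 30) (.e (nat_lit 573479) (nat_lit 13) (.e (nat_lit 65619) (nat_lit 10) (.e (nat_lit 344117) (nat_lit 21) (.e (nat_lit 516159) (nat_lit 10) (.e (nat_lit 434212) (nat_lit 18) (.e (nat_lit 5548) (nat_lit 306) .nil)))))))) (.g (nat_lit 1) (.e (nat_lit 21346) (nat_lit 0) .nil) .nil))) 
(.lf (nat_lit 452473) (.g (nat_lit 3107) (.e (nat_lit 2612) (nat_lit 163) (.e (nat_lit 163979) (nat_lit 30) (.e (nat_lit 573489) (nat_lit 14) (.e (nat_lit 73755) (nat_lit 8) (.e (nat_lit 557098) (nat_lit 13) (.e (nat_lit 179968) (nat_lit 15) (.e (nat_lit 1800) (nat_lit 119) (.e (nat_lit 516120) (nat_lit 1) (.e (nat_lit 164304) (nat_lit 226) .nil))))))))) (.g (nat_lit 1) (.e (nat_lit 22707) (nat_lit 0) .nil) .nil))))) 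
(.nd (nat_lit 8) (.nd (nat_lit 9) 
(.lf (nat_lit 451833) (.g (nat_lit 3173) (.e (nat_lit 2610) (nat_lit 163) (.e (nat_lit 163979) (nat_lit 30) (.e (nat_lit 573493) (nat_lit 15) (.e (nat_lit 81956) (nat_lit 23) (.e (nat_lit 98367) (nat_lit 27) (.e (nat_lit 434211) (nat_lit 18) (.e (nat_lit 5546) (nat_lit 306) .nil))))))) (.g (nat_lit 1) (.e (nat_lit 20562) (nat_lit 0) .nil) .nil))) 
(.lf (nat_lit 452345) (.g (nat_lit 3378) (.e (nat_lit 2612) (nat_lit 163) (.e (nat_lit 163978) (nat_lit 30) (.e (nat_lit 573489) (nat_lit 14) (.e (nat_lit 73755) (nat_lit 8) (.e (nat_lit 557097) (nat_lit 13) (.e (nat_lit 179968) (nat_lit 18) (.e (nat_lit 98333) (nat_lit 18) (.e (nat_lit 164305) (nat_lit 226) .nil)))))))) (.g (nat_lit 1) (.e (nat_lit 22526) (nat_lit 0) .nil) .nil)))) 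
(.nd (nat_lit 9) 
(.lf (nat_lit 452089) (.g (nat_lit 3625) (.e (nat_lit 2612) (nat_lit 163) (.e (nat_lit 163964) (nat_lit 25) (.e (nat_lit 532513) (nat_lit 3) (.e (nat_lit 114718) (nat_lit 23) (.e (nat_lit 98384) (nat_lit 32) (.e (nat_lit 475177) (nat_lit 24) (.e (nat_lit 516120) (nat_lit 1) (.e (nat_lit 164304) (nat_lit 226) .nil)))))))) (.g (nat_lit 1) (.e (nat_lit 22190) (nat_lit 0) .nil) .nil))) 
(.lf (nat_lit 452601) (.g (nat_lit 2486) (.e (nat_lit 2612) (nat_lit 163) (.e (nat_lit 164403) (nat_lit 256) (.e (nat_lit 57373) (nat_lit 2) (.e (nat_lit 90174) (nat_lit 14) (.e (nat_lit 180243) (nat_lit 5) (.e (nat_lit 532515) (nat_lit 3) (.e (nat_lit 114716) (nat_lit 22) (.e (nat_lit 90127) (nat_lit 9) .nil)))))))) (.g (nat_lit 1) (.e (nat_lit 23285) (nat_lit 0) .nil) .nil)))))))))) 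
(.nd (nat_lit 3) (.nd (nat_lit 4) (.nd (nat_lit 5) (.nd (nat_lit 6) (.nd (nat_lit 7) 
(.nd (nat_lit 8) (.nd (nat_lit 9) 
(.lf (nat_lit 451589) (.g (nat_lit 2945) (.e (nat_lit 2610) (nat_lit 163) (.e (nat_lit 163979) (nat_lit 30) (.e (nat_lit 573482) (nat_lit 13) (.e (nat_lit 65619) (nat_lit 10) (.e (nat_lit 344117) (nat_lit 21) (.e (nat_lit 516145) (nat_lit 9) (.e (nat_lit 433920) (nat_lit 1) (.e (nat_lit 164346) (nat_lit 240) .nil)))))))) (.g (nat_lit 1) (.e (nat_lit 20183) (nat_lit 0) .nil) .nil))) 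
(.lf (nat_lit 452101) (.g (nat_lit 4067) (.e (nat_lit 2612) (nat_lit 163) (.e (nat_lit 163977) (nat_lit 30) (.e (nat_lit 573482) (nat_lit 13) (.e (nat_lit 65619) (nat_lit 10) (.e (nat_lit 344117) (nat_lit 21) (.e (nat_lit 516143) (nat_lit 9) (.e (nat_lit 426144) (nat_lit 4) (.e (nat_lit 229663) (nat_lit 240) .nil)))))))) (.g (nat_lit 1) (.e (nat_lit 22219) (nat_lit 0) .nil) .nil)))) 
(.nd (nat_lit 9) 
(.lf (nat_lit 451845) (.g (nat_lit 3865) (.e (nat_lit 2610) (nat_lit 163) (.e (nat_lit 163979) (nat_lit 30) (.e (nat_lit 573493) (nat_lit 15) (.e (nat_lit 81956) (nat_lit 23) (.e (nat_lit 98368) (nat_lit 27) (.e (nat_lit 434208) (nat_lit 18) (.e (nat_lit 5537) (nat_lit 306) .nil))))))) (.g (nat_lit 1) (.e (nat_lit 20574) (nat_lit 0) .nil) .nil))) 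
(.lf (nat_lit 452357) (.g (nat_lit 5786) (.e (nat_lit 2612) (nat_lit 163) (.e (nat_lit 163978) (nat_lit 30) (.e (nat_lit 573489) (nat_lit 14) (.e (nat_lit 73755) (nat_lit 8) (.e (nat_lit 557098) (nat_lit 13) (.e (nat_lit 172133) (nat_lit 15) (.e (nat_lit 1800) (nat_lit 119) (.e (nat_lit 516117) (nat_lit 1) (.e (nat_lit 164305) (nat_lit 226) .nil))))))))) (.g (nat_lit 1) (.e (nat_lit 22538) (nat_lit 0) .nil) .nil))))) 
(.nd (nat_lit 8) (.nd (nat_lit 9) 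
(.lf (nat_lit 451717) (.g (nat_lit 4380) (.e (nat_lit 2610) (nat_lit 163) (.e (nat_lit 163979) (nat_lit 30) (.e (nat_lit 573493) (nat_lit 15) (.e (nat_lit 81951) (nat_lit 22) (.e (nat_lit 90172) (nat_lit 14) (.e (nat_lit 180229) (nat_lit 0) (.e (nat_lit 5547) (nat_lit 306) .nil))))))) (.g (nat_lit 1) (.e (nat_lit 20386) (nat_lit 0) .nil) .nil))) 
(.lf (nat_lit 452229) (.g (nat_lit 3497) (.e (nat_lit 2612) (nat_lit 163) (.e (nat_lit 163978) (nat_lit 30) (.e (nat_lit 573485) (nat_lit 13) (.e (nat_lit 65604) (nat_lit 9) (.e (nat_lit 336013) (nat_lit 2) (.e (nat_lit 90170) (nat_lit 13) (.e (nat_lit 172068) (nat_lit 4) (.e (nat_lit 229664) (nat_lit 240) .nil)))))))) (.g (nat_lit 1) (.e (nat_lit 22383) (nat_lit 0) .nil) .nil)))) 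
(.nd (nat_lit 9) 
(.lf (nat_lit 451973) (.g (nat_lit 4645) (.e (nat_lit 2611) (nat_lit 163) (.e (nat_lit 163978) (nat_lit 30) (.e (nat_lit 573479) (nat_lit 13) (.e (nat_lit 65619) (nat_lit 10) (.e (nat_lit 344129) (nat_lit 26) (.e (nat_lit 557066) (nat_lit 9) (.e (nat_lit 307) (nat_lit 22) (.e (nat_lit 344097) (nat_lit 18) (.e (nat_lit 4715) (nat_lit 275) .nil))))))))) (.g (nat_lit 1) (.e (nat_lit 21361) (nat_lit 0) .nil) .nil))) 
(.lf (nat_lit 452485) (.g (nat_lit 3111) (.e (nat_lit 2612) (nat_lit 163) (.e (nat_lit 163979) (nat_lit 30) (.e (nat_lit 573491) (nat_lit 15) (.e (nat_lit 81951) (nat_lit 22) (.e (nat_lit 90172) (nat_lit 14) (.e (nat_lit 180232) (nat_lit 0) (.e (nat_lit 5448) (nat_lit 306) .nil))))))) (.g (nat_lit 1) (.e (nat_lit 22719) (nat_lit 0) .nil) .nil)))))) 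
(.nd (nat_lit 7) (.nd (nat_lit 8) (.nd (nat_lit 9) 
(.lf (nat_lit 451653) (.g (nat_lit 3516) (.e (nat_lit 2610) (nat_lit 163) (.e (nat_lit 163979) (nat_lit 30) (.e (nat_lit 573491) (nat_lit 15) (.e (nat_lit 81954) (nat_lit 23) (.e (nat_lit 98359) (nat_lit 26) (.e (nat_lit 426097) (nat_lit 1) (.e (nat_lit 164347) (nat_lit 240) .nil))))))) (.g (nat_lit 1) (.e (nat_lit 20281) (nat_lit 0) .nil) .nil))) 
(.lf (nat_lit 452165) (.g (nat_lit 3016) (.e (nat_lit 2612) (nat_lit 163) (.e (nat_lit 163977) (nat_lit 30) (.e (nat_lit 573492) (nat_lit 15) (.e (nat_lit 81956) (nat_lit 23) (.e (nat_lit 98357) (nat_lit 26) (.e (nat_lit 426148) (nat_lit 4) (.e (nat_lit 229663) (nat_lit 240) .nil))))))) (.g (nat_lit 1) (.e (nat_lit 22295) (nat_lit 0) .nil) .nil)))) (.nd (nat_lit 9) 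
(.lf (nat_lit 451909) (.g (nat_lit 3941) (.e (nat_lit 2611) (nat_lit 163) (.e (nat_lit 163977) (nat_lit 30) (.e (nat_lit 573482) (nat_lit 13) (.e (nat_lit 65619) (nat_lit 10) (.e (nat_lit 344117) (nat_lit 21) (.e (nat_lit 516151) (nat_lit 9) (.e (nat_lit 426097) (nat_lit 1) (.e (nat_lit 164346) (nat_lit 240) .nil)))))))) (.g (nat_lit 1) (.e (nat_lit 21008) (nat_lit 0) .nil) .nil))) 
(.lf (nat_lit 452421) (.g (nat_lit 3801) (.e (nat_lit 2612) (nat_lit 163) (.e (nat_lit 163979) (nat_lit 30) (.e (nat_lit 573487) (nat_lit 14) (.e (nat_lit 73753) (nat_lit 8) (.e (nat_lit 557096) (nat_lit 13) (.e (nat_lit 172133) (nat_lit 15) (.e (nat_lit 1800) (nat_lit 119) (.e (nat_lit 516117) (nat_lit 1) (.e (nat_lit 164304) (nat_lit 226) .nil))))))))) (.g (nat_lit 1) (.e (nat_lit 22650) (nat_lit 0) .nil) .nil))))) 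
(.nd (nat_lit 8) (.nd (nat_lit 9) 
(.lf (nat_lit 451781) (.g (nat_lit 4757) (.e (nat_lit 2610) (nat_lit 163) (.e (nat_lit 163979) (nat_lit 30) (.e (nat_lit 573493) (nat_lit 15) (.e (nat_lit 81954) (nat_lit 23) (.e (nat_lit 98367) (nat_lit 27) (.e (nat_lit 434209) (nat_lit 18) (.e (nat_lit 5546) (nat_lit 306) .nil))))))) (.g (nat_lit 1) (.e (nat_lit 20467) (nat_lit 0) .nil) .nil))) 
(.lf (nat_lit 452293) (.g (nat_lit 2953) (.e (nat_lit 2612) (nat_lit 163) (.e (nat_lit 163978) (nat_lit 30) (.e (nat_lit 573487) (nat_lit 14) (.e (nat_lit 73753) (nat_lit 8) (.e (nat_lit 557101) (nat_lit 13) (.e (nat_lit 179968) (nat_lit 15) (.e (nat_lit 1800) (nat_lit 119) (.e (nat_lit 516117) (nat_lit 1) (.e (nat_lit 164304) (nat_lit 226) .nil))))))))) (.g (nat_lit 1) (.e (nat_lit 22461) (nat_lit 0) .nil) .nil)))) 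
(.nd (nat_lit 9) 
(.lf (nat_lit 452037) (.g (nat_lit 4437) (.e (nat_lit 2611) (nat_lit 163) (.e (nat_lit 163979) (nat_lit 30) (.e (nat_lit 573482) (nat_lit 13) (.e (nat_lit 65619) (nat_lit 10) (.e (nat_lit 344117) (nat_lit 21) (.e (nat_lit 516151) (nat_lit 9) (.e (nat_lit 426097) (nat_lit 1) (.e (nat_lit 164347) (nat_lit 240) .nil)))))))) (.g (nat_lit 1) (.e (nat_lit 21798) (nat_lit 0) .nil) .nil))) 
(.lf (nat_lit 452549) (.g (nat_lit 3143) (.e (nat_lit 2612) (nat_lit 163) (.e (nat_lit 163979) (nat_lit 30) (.e (nat_lit 573493) (nat_lit 15) (.e (nat_lit 81956) (nat_lit 23) (.e (nat_lit 98360) (nat_lit 26) (.e (nat_lit 426142) (nat_lit 4) (.e (nat_lit 229666) (nat_lit 240) .nil))))))) (.g (nat_lit 1) (.e (nat_lit 22812) (nat_lit 0) .nil) .nil))))))) 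
(.nd (nat_lit 6) (.nd (nat_lit 7) (.nd (nat_lit 8) (.nd (nat_lit 9) 
(.lf (nat_lit 451621) (.g (nat_lit 5470) (.e (nat_lit 2610) (nat_lit 163) (.e (nat_lit 163979) (nat_lit 30) (.e (nat_lit 573482) (nat_lit 13) (.e (nat_lit 65619) (nat_lit 10) (.e (nat_lit 344117) (nat_lit 21) (.e (nat_lit 516170) (nat_lit 13) (.e (nat_lit 458774) (nat_lit 18) (.e (nat_lit 5547) (nat_lit 306) .nil)))))))) (.g (nat_lit 1) (.e (nat_lit 20215) (nat_lit 0) .nil) .nil))) 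
(.lf (nat_lit 452133) (.g (nat_lit 3674) (.e (nat_lit 2612) (nat_lit 163) (.e (nat_lit 163977) (nat_lit 30) (.e (nat_lit 573489) (nat_lit 14) (.e (nat_lit 73755) (nat_lit 8) (.e (nat_lit 557096) (nat_lit 13) (.e (nat_lit 172133) (nat_lit 15) (.e (nat_lit 1800) (nat_lit 119) (.e (nat_lit 516117) (nat_lit 1) (.e (nat_lit 164304) (nat_lit 226) .nil))))))))) (.g (nat_lit 1) (.e (nat_lit 22255) (nat_lit 0) .nil) .nil)))) 
(.nd (nat_lit 9) 
(.lf (nat_lit 451877) (.g (nat_lit 2332) (.e (nat_lit 2610) (nat_lit 163) (.e (nat_lit 164402) (nat_lit 256) (.e (nat_lit 57371) (nat_lit 2) (.e (nat_lit 90174) (nat_lit 14) (.e (nat_lit 180243) (nat_lit 5) (.e (nat_lit 532513) (nat_lit 3) (.e (nat_lit 114714) (nat_lit 22) (.e (nat_lit 90121) (nat_lit 9) .nil)))))))) (.g (nat_lit 1) (.e (nat_lit 20955) (nat_lit 0) .nil) .nil))) 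
(.lf (nat_lit 452389) (.g (nat_lit 2274) (.e (nat_lit 2612) (nat_lit 163) (.e (nat_lit 163978) (nat_lit 30) (.e (nat_lit 573489) (nat_lit 14) (.e (nat_lit 73755) (nat_lit 8) (.e (nat_lit 557105) (nat_lit 14) (.e (nat_lit 180245) (nat_lit 5) (.e (nat_lit 532502) (nat_lit 1) (.e (nat_lit 57659) (nat_lit 152) .nil)))))))) (.g (nat_lit 1) (.e (nat_lit 22570) (nat_lit 0) .nil) .nil))))) 
(.nd (nat_lit 8) (.nd (nat_lit 9) 
(.lf (nat_lit 451749) (.g (nat_lit 6705) (.e (nat_lit 2610) (nat_lit 163) (.e (nat_lit 163979) (nat_lit 30) (.e (nat_lit 573493) (nat_lit 15) (.e (nat_lit 81953) (nat_lit 22) (.e (nat_lit 90185) (nat_lit 17) (.e (nat_lit 237585) (nat_lit 1) (.e (nat_lit 164345) (nat_lit 240) .nil))))))) (.g (nat_lit 1) (.e (nat_lit 20433) (nat_lit 0) .nil) .nil))) 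
(.lf (nat_lit 452261) (.g (nat_lit 4954) (.e (nat_lit 2612) (nat_lit 163) (.e (nat_lit 163978) (nat_lit 30) (.e (nat_lit 573487) (nat_lit 14) (.e (nat_lit 73753) (nat_lit 8) (.e (nat_lit 557096) (nat_lit 13) (.e (nat_lit 172133) (nat_lit 15) (.e (nat_lit 1800) (nat_lit 119) (.e (nat_lit 516120) (nat_lit 1) (.e (nat_lit 164304) (nat_lit 226) .nil))))))))) (.g (nat_lit 1) (.e (nat_lit 22422) (nat_lit 0) .nil) .nil)))) 
(.nd (nat_lit 9) 
(.lf (nat_lit 452005) (.g (nat_lit 4301) (.e (nat_lit 2611) (nat_lit 163) (.e (nat_lit 163978) (nat_lit 30) (.e (nat_lit 573485) (nat_lit 13) (.e (nat_lit 65619) (nat_lit 10) (.e (nat_lit 344117) (nat_lit 21) (.e (nat_lit 516159) (nat_lit 10) (.e (nat_lit 434202) (nat_lit 18) (.e (nat_lit 5537) (nat_lit 306) .nil)))))))) (.g (nat_lit 1) (.e (nat_lit 21452) (nat_lit 0) .nil) .nil))) 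
(.lf (nat_lit 452517) (.g (nat_lit 3590) (.e (nat_lit 2612) (nat_lit 163) (.e (nat_lit 163979) (nat_lit 30) (.e (nat_lit 573493) (nat_lit 15) (.e (nat_lit 81953) (nat_lit 22) (.e (nat_lit 90166) (nat_lit 13) (.e (nat_lit 172069) (nat_lit 4) (.e (nat_lit 229663) (nat_lit 240) .nil))))))) (.g (nat_lit 1) (.e (nat_lit 22775) (nat_lit 0) .nil) .nil)))))) 
(.nd (nat_lit 7) (.nd (nat_lit 8) (.nd (nat_lit 9) 
(.lf (nat_lit 451685) (.g (nat_lit 3207) (.e (nat_lit 2610) (nat_lit 163) (.e (nat_lit 163979) (nat_lit 30) (.e (nat_lit 573492) (nat_lit 15) (.e (nat_lit 81956) (nat_lit 23) (.e (nat_lit 98354) (nat_lit 26) (.e (nat_lit 426109) (nat_lit 1) (.e (nat_lit 164347) (nat_lit 240) .nil))))))) (.g (nat_lit 1) (.e (nat_lit 20335) (nat_lit 0) .nil) .nil))) 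
(.lf (nat_lit 452197) (.g (nat_lit 5284) (.e (nat_lit 2612) (nat_lit 163) (.e (nat_lit 163977) (nat_lit 30) (.e (nat_lit 573493) (nat_lit 15) (.e (nat_lit 81956) (nat_lit 23) (.e (nat_lit 98362) (nat_lit 26) (.e (nat_lit 426144) (nat_lit 4) (.e (nat_lit 229663) (nat_lit 240) .nil))))))) (.g (nat_lit 1) (.e (nat_lit 22337) (nat_lit 0) .nil) .nil)))) (.nd (nat_lit 9) 
(.lf (nat_lit 451941) (.g (nat_lit 3556) (.e (nat_lit 2611) (nat_lit 163) (.e (nat_lit 163978) (nat_lit 30) (.e (nat_lit 573479) (nat_lit 13) (.e (nat_lit 65604) (nat_lit 9) (.e (nat_lit 336028) (nat_lit 3) (.e (nat_lit 98366) (nat_lit 27) (.e (nat_lit 434209) (nat_lit 18) (.e (nat_lit 5547) (nat_lit 306) .nil)))))))) (.g (nat_lit 1) (.e (nat_lit 21326) (nat_lit 0) .nil) .nil))) 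
(.lf (nat_lit 452453) (.g (nat_lit 3543) (.e (nat_lit 2612) (nat_lit 163) (.e (nat_lit 163979) (nat_lit 30) (.e (nat_lit 573488) (nat_lit 14) (.e (nat_lit 73755) (nat_lit 8) (.e (nat_lit 557098) (nat_lit 13) (.e (nat_lit 179968) (nat_lit 18) (.e (nat_lit 98334) (nat_lit 18) (.e (nat_lit 164305) (nat_lit 226) .nil)))))))) (.g (nat_lit 1) (.e (nat_lit 22683) (nat_lit 0) .nil) .nil))))) 
(.nd (nat_lit 8) (.nd (nat_lit 9) 
(.lf (nat_lit 451813) (.g (nat_lit 3136) (.e (nat_lit 2610) (nat_lit 163) (.e (nat_lit 163979) (nat_lit 30) (.e (nat_lit 573493) (nat_lit 15) (.e (nat_lit 81956) (nat_lit 23) (.e (nat_lit 98363) (nat_lit 26) .nil))))) (.g (nat_lit 0) (.e (nat_lit 20542) (nat_lit 0) .nil) .nil))) 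
(.lf (nat_lit 452325) (.g (nat_lit 2718) (.e (nat_lit 2612) (nat_lit 163) (.e (nat_lit 163978) (nat_lit 30) (.e (nat_lit 573489) (nat_lit 14) (.e (nat_lit 73755) (nat_lit 8) (.e (nat_lit 557096) (nat_lit 13) (.e (nat_lit 172138) (nat_lit 15) (.e (nat_lit 1800) (nat_lit 119) (.e (nat_lit 516120) (nat_lit 1) (.e (nat_lit 164304) (nat_lit 226) .nil))))))))) (.g (nat_lit 1) (.e (nat_lit 22506) (nat_lit 0) .nil) .nil)))) 
(.nd (nat_lit 9) 
(.lf (nat_lit 452069) (.g (nat_lit 2477) (.e (nat_lit 2611) (nat_lit 163) (.e (nat_lit 164403) (nat_lit 256) (.e (nat_lit 57371) (nat_lit 2) (.e (nat_lit 90174) (nat_lit 14) (.e (nat_lit 180243) (nat_lit 5) (.e (nat_lit 532515) (nat_lit 3) (.e (nat_lit 114715) (nat_lit 22) (.e (nat_lit 90121) (nat_lit 9) .nil)))))))) (.g (nat_lit 1) (.e (nat_lit 22158) (nat_lit 0) .nil) .nil))) 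
(.lf (nat_lit 452581) (.g (nat_lit 1369) (.e (nat_lit 2612) (nat_lit 163) (.e (nat_lit 164330) (nat_lit 230) (.e (nat_lit 163902) (nat_lit 12) (.e (nat_lit 426566) (nat_lit 34) .nil)))) (.g (nat_lit 0) (.e (nat_lit 23107) (nat_lit 0) .nil) .nil)))))))) (.nd (nat_lit 5) (.nd (nat_lit 6) (.nd (nat_lit 7) (.nd (nat_lit 8) (.nd (nat_lit 9) 
(.lf (nat_lit 451605) (.g (nat_lit 2247) (.e (nat_lit 2610) (nat_lit 163) (.e (nat_lit 163979) (nat_lit 30) (.e (nat_lit 573482) (nat_lit 13) (.e (nat_lit 65619) (nat_lit 10) (.e (nat_lit 344117) (nat_lit 21) (.e (nat_lit 524032) (nat_lit 9) (.e (nat_lit 426107) (nat_lit 1) (.e (nat_lit 164345) (nat_lit 240) .nil)))))))) (.g (nat_lit 1) (.e (nat_lit 20199) (nat_lit 0) .nil) .nil))) 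
(.lf (nat_lit 452117) (.g (nat_lit 3119) (.e (nat_lit 2612) (nat_lit 163) (.e (nat_lit 163977) (nat_lit 30) (.e (nat_lit 573485) (nat_lit 13) (.e (nat_lit 65619) (nat_lit 10) (.e (nat_lit 344117) (nat_lit 21) (.e (nat_lit 516152) (nat_lit 9) (.e (nat_lit 426144) (nat_lit 4) (.e (nat_lit 229663) (nat_lit 240) .nil)))))))) (.g (nat_lit 1) (.e (nat_lit 22235) (nat_lit 0) .nil) .nil)))) 
(.nd (nat_lit 9) 
(.lf (nat_lit 451861) (.g (nat_lit 2802) (.e (nat_lit 2610) (nat_lit 163) (.e (nat_lit 164347) (nat_lit 240) (.e (nat_lit 2610) (nat_lit 163) (.e (nat_lit 163978) (nat_lit 30) (.e (nat_lit 573479) (nat_lit 13) (.e (nat_lit 65619) (nat_lit 10) (.e (nat_lit 344117) (nat_lit 21) (.e (nat_lit 516106) (nat_lit 0) (.e (nat_lit 7936) (nat_lit 388) .nil))))))))) (.g (nat_lit 1) (.e (nat_lit 20761) (nat_lit 0) .nil) .nil))) 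
(.lf (nat_lit 452373) (.g (nat_lit 2826) (.e (nat_lit 2612) (nat_lit 163) (.e (nat_lit 163978) (nat_lit 30) (.e (nat_lit 573489) (nat_lit 14) (.e (nat_lit 73755) (nat_lit 8) (.e (nat_lit 557103) (nat_lit 14) .nil))))) (.g (nat_lit 0) (.e (nat_lit 22554) (nat_lit 0) .nil) .nil))))) (.nd (nat_lit 8) (.nd (nat_lit 9) 
(.lf (nat_lit 451733) (.g (nat_lit 4628) (.e (nat_lit 2610) (nat_lit 163) (.e (nat_lit 163979) (nat_lit 30) (.e (nat_lit 573493) (nat_lit 15) (.e (nat_lit 81953) (nat_lit 22) (.e (nat_lit 90170) (nat_lit 13) (.e (nat_lit 172059) (nat_lit 1) (.e (nat_lit 164347) (nat_lit 240) .nil))))))) (.g (nat_lit 1) (.e (nat_lit 20417) (nat_lit 0) .nil) .nil))) 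
(.lf (nat_lit 452245) (.g (nat_lit 3584) (.e (nat_lit 2612) (nat_lit 163) (.e (nat_lit 163978) (nat_lit 30) (.e (nat_lit 573485) (nat_lit 13) (.e (nat_lit 65619) (nat_lit 10) (.e (nat_lit 344117) (nat_lit 21) (.e (nat_lit 516143) (nat_lit 9) (.e (nat_lit 426143) (nat_lit 4) (.e (nat_lit 229663) (nat_lit 240) .nil)))))))) (.g (nat_lit 1) (.e (nat_lit 22401) (nat_lit 0) .nil) .nil)))) 
(.nd (nat_lit 9) 
(.lf (nat_lit 451989) (.g (nat_lit 2240) (.e (nat_lit 2611) (nat_lit 163) (.e (nat_lit 163978) (nat_lit 30) (.e (nat_lit 573485) (nat_lit 13) (.e (nat_lit 65604) (nat_lit 9) (.e (nat_lit 336028) (nat_lit 3) (.e (nat_lit 98367) (nat_lit 27) (.e (nat_lit 434203) (nat_lit 18) (.e (nat_lit 5537) (nat_lit 306) .nil)))))))) (.g (nat_lit 1) (.e (nat_lit 21434) (nat_lit 0) .nil) .nil))) 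
(.lf (nat_lit 452501) (.g (nat_lit 3983) (.e (nat_lit 2612) (nat_lit 163) (.e (nat_lit 163979) (nat_lit 30) (.e (nat_lit 573492) (nat_lit 15) (.e (nat_lit 81956) (nat_lit 23) (.e (nat_lit 98356) (nat_lit 26) (.e (nat_lit 426148) (nat_lit 4) (.e (nat_lit 229666) (nat_lit 240) .nil))))))) (.g (nat_lit 1) (.e (nat_lit 22748) (nat_lit 0) .nil) .nil)))))) 
(.nd (nat_lit 7) (.nd (nat_lit 8) (.nd (nat_lit 9) 
(.lf (nat_lit 451669) (.g (nat_lit 3941) (.e (nat_lit 2610) (nat_lit 163) (.e (nat_lit 163979) (nat_lit 30) (.e (nat_lit 573491) (nat_lit 15) (.e (nat_lit 81954) (nat_lit 23) (.e (nat_lit 98366) (nat_lit 27) (.e (nat_lit 434209) (nat_lit 18) (.e (nat_lit 5547) (nat_lit 306) .nil))))))) (.g (nat_lit 1) (.e (nat_lit 20297) (nat_lit 0) .nil) .nil))) 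
(.lf (nat_lit 452181) (.g (nat_lit 3247) (.e (nat_lit 2612) (nat_lit 163) (.e (nat_lit 163977) (nat_lit 30) (.e (nat_lit 573493) (nat_lit 15) (.e (nat_lit 81953) (nat_lit 22) (.e (nat_lit 90170) (nat_lit 13) (.e (nat_lit 172070) (nat_lit 4) (.e (nat_lit 229665) (nat_lit 240) .nil))))))) (.g (nat_lit 1) (.e (nat_lit 22318) (nat_lit 0) .nil) .nil)))) (.nd (nat_lit 9) 
(.lf (nat_lit 451925) (.g (nat_lit 3911) (.e (nat_lit 2611) (nat_lit 163) (.e (nat_lit 163977) (nat_lit 30) (.e (nat_lit 573485) (nat_lit 13) (.e (nat_lit 65619) (nat_lit 10) (.e (nat_lit 344117) (nat_lit 21) (.e (nat_lit 516143) (nat_lit 9) (.e (nat_lit 426109) (nat_lit 1) (.e (nat_lit 164345) (nat_lit 240) .nil)))))))) (.g (nat_lit 1) (.e (nat_lit 21050) (nat_lit 0) .nil) .nil))) 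
(.lf (nat_lit 452437) (.g (nat_lit 2955) (.e (nat_lit 2612) (nat_lit 163) (.e (nat_lit 163979) (nat_lit 30) (.e (nat_lit 573487) (nat_lit 14) (.e (nat_lit 73753) (nat_lit 8) (.e (nat_lit 557098) (nat_lit 13) (.e (nat_lit 179968) (nat_lit 15) (.e (nat_lit 1800) (nat_lit 119) (.e (nat_lit 516117) (nat_lit 1) (.e (nat_lit 164305) (nat_lit 226) .nil))))))))) (.g (nat_lit 1) (.e (nat_lit 22667) (nat_lit 0) .nil) .nil))))) 
(.nd (nat_lit 8) (.nd (nat_lit 9) 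
(.lf (nat_lit 451797) (.g (nat_lit 2905) (.e (nat_lit 2610) (nat_lit 163) (.e (nat_lit 163979) (nat_lit 30) (.e (nat_lit 573493) (nat_lit 15) (.e (nat_lit 81956) (nat_lit 23) (.e (nat_lit 98359) (nat_lit 26) (.e (nat_lit 426103) (nat_lit 1) (.e (nat_lit 164347) (nat_lit 240) .nil))))))) (.g (nat_lit 1) (.e (nat_lit 20526) (nat_lit 0) .nil) .nil))) 
(.lf (nat_lit 452309) (.g (nat_lit 3427) (.e (nat_lit 2612) (nat_lit 163) (.e (nat_lit 163978) (nat_lit 30) (.e (nat_lit 573489) (nat_lit 14) (.e (nat_lit 73754) (nat_lit 8) (.e (nat_lit 557100) (nat_lit 13) (.e (nat_lit 179968) (nat_lit 15) (.e (nat_lit 1800) (nat_lit 119) (.e (nat_lit 516117) (nat_lit 1) (.e (nat_lit 164304) (nat_lit 226) .nil))))))))) (.g (nat_lit 1) (.e (nat_lit 22477) (nat_lit 0) .nil) .nil)))) 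
(.nd (nat_lit 9) 
(.lf (nat_lit 452053) (.g (nat_lit 4304) (.e (nat_lit 2611) (nat_lit 163) (.e (nat_lit 163979) (nat_lit 30) (.e (nat_lit 573482) (nat_lit 13) (.e (nat_lit 65619) (nat_lit 10) (.e (nat_lit 344129) (nat_lit 26) (.e (nat_lit 557087) (nat_lit 11) (.e (nat_lit 24597) (nat_lit 1) (.e (nat_lit 57773) (nat_lit 227) .nil)))))))) (.g (nat_lit 1) (.e (nat_lit 21817) (nat_lit 0) .nil) .nil))) 
(.lf (nat_lit 452565) (.g (nat_lit 1998) (.e (nat_lit 2612) (nat_lit 163) (.e (nat_lit 164326) (nat_lit 230) (.e (nat_lit 163903) (nat_lit 12) (.e (nat_lit 426428) (nat_lit 17) (.e (nat_lit 90170) (nat_lit 13) (.e (nat_lit 172113) (nat_lit 10) (.e (nat_lit 434295) (nat_lit 49) (.e (nat_lit 745500) (nat_lit 9) .nil)))))))) (.g (nat_lit 1) (.e (nat_lit 23010) (nat_lit 0) .nil) .nil))))))) 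
(.nd (nat_lit 6) (.nd (nat_lit 7) (.nd (nat_lit 8) (.nd (nat_lit 9) 
(.lf (nat_lit 451637) (.g (nat_lit 3927) (.e (nat_lit 2610) (nat_lit 163) (.e (nat_lit 163979) (nat_lit 30) (.e (nat_lit 573491) (nat_lit 15) (.e (nat_lit 81951) (nat_lit 22) (.e (nat_lit 90170) (nat_lit 13) (.e (nat_lit 172061) (nat_lit 1) (.e (nat_lit 164345) (nat_lit 240) .nil))))))) (.g (nat_lit 1) (.e (nat_lit 20259) (nat_lit 0) .nil) .nil))) 
(.lf (nat_lit 452149) (.g (nat_lit 1120) (.e (nat_lit 2612) (nat_lit 163) (.e (nat_lit 163977) (nat_lit 30) (.e (nat_lit 573491) (nat_lit 15) (.e (nat_lit 81954) (nat_lit 23) .nil)))) (.g (nat_lit 0) (.e (nat_lit 22274) (nat_lit 0) .nil) .nil)))) (.nd (nat_lit 9) 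
(.lf (nat_lit 451893) (.g (nat_lit 4082) (.e (nat_lit 2610) (nat_lit 163) (.e (nat_lit 164403) (nat_lit 256) (.e (nat_lit 57378) (nat_lit 3) (.e (nat_lit 98368) (nat_lit 27) (.e (nat_lit 434247) (nat_lit 28) (.e (nat_lit 573489) (nat_lit 14) (.e (nat_lit 73755) (nat_lit 8) (.e (nat_lit 557075) (nat_lit 9) .nil)))))))) (.g (nat_lit 1) (.e (nat_lit 20971) (nat_lit 0) .nil) .nil))) 
(.lf (nat_lit 452405) (.g (nat_lit 2506) (.e (nat_lit 2612) (nat_lit 163) (.e (nat_lit 163979) (nat_lit 30) (.e (nat_lit 573482) (nat_lit 13) (.e (nat_lit 65604) (nat_lit 9) (.e (nat_lit 336028) (nat_lit 3) (.e (nat_lit 98366) (nat_lit 27) (.e (nat_lit 434215) (nat_lit 18) (.e (nat_lit 5448) (nat_lit 306) .nil)))))))) (.g (nat_lit 1) (.e (nat_lit 22629) (nat_lit 0) .nil) .nil))))) 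
(.nd (nat_lit 8) (.nd (nat_lit 9) 
(.lf (nat_lit 451765) (.g (nat_lit 3717) (.e (nat_lit 2610) (nat_lit 163) (.e (nat_lit 163979) (nat_lit 30) (.e (nat_lit 573493) (nat_lit 15) (.e (nat_lit 81954) (nat_lit 23) (.e (nat_lit 98361) (nat_lit 26) .nil))))) (.g (nat_lit 0) (.e (nat_lit 20451) (nat_lit 0) .nil) .nil))) 
(.lf (nat_lit 452277) (.g (nat_lit 3094) (.e (nat_lit 2612) (nat_lit 163) (.e (nat_lit 163978) (nat_lit 30) (.e (nat_lit 573487) (nat_lit 14) (.e (nat_lit 73753) (nat_lit 8) (.e (nat_lit 557098) (nat_lit 13) (.e (nat_lit 172136) (nat_lit 15) (.e (nat_lit 1800) (nat_lit 119) (.e (nat_lit 516120) (nat_lit 1) (.e (nat_lit 164305) (nat_lit 226) .nil))))))))) (.g (nat_lit 1) (.e (nat_lit 22441) (nat_lit 0) .nil) .nil)))) 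
(.nd (nat_lit 9) 
(.lf (nat_lit 452021) (.g (nat_lit 4726) (.e (nat_lit 2611) (nat_lit 163) (.e (nat_lit 163979) (nat_lit 30) (.e (nat_lit 573482) (nat_lit 13) (.e (nat_lit 65604) (nat_lit 9) (.e (nat_lit 336013) (nat_lit 2) (.e (nat_lit 90170) (nat_lit 13) (.e (nat_lit 172059) (nat_lit 1) (.e (nat_lit 164348) (nat_lit 240) .nil)))))))) (.g (nat_lit 1) (.e (nat_lit 21770) (nat_lit 0) .nil) .nil))) 
(.lf (nat_lit 452533) (.g (nat_lit 4488) (.e (nat_lit 2612) (nat_lit 163) (.e (nat_lit 163979) (nat_lit 30) (.e (nat_lit 573493) (nat_lit 15) (.e (nat_lit 81953) (nat_lit 22) (.e (nat_lit 90173) (nat_lit 14) (.e (nat_lit 180233) (nat_lit 0) (.e (nat_lit 5448) (nat_lit 306) .nil))))))) (.g (nat_lit 1) (.e (nat_lit 22791) (nat_lit 0) .nil) .nil)))))) 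
(.nd (nat_lit 7) (.nd (nat_lit 8) (.nd (nat_lit 9) 
(.lf (nat_lit 451701) (.g (nat_lit 3416) (.e (nat_lit 2610) (nat_lit 163) (.e (nat_lit 163979) (nat_lit 30) (.e (nat_lit 573492) (nat_lit 15) (.e (nat_lit 81956) (nat_lit 23) (.e (nat_lit 98378) (nat_lit 30) (.e (nat_lit 458774) (nat_lit 18) (.e (nat_lit 5543) (nat_lit 306) .nil))))))) (.g (nat_lit 1) (.e (nat_lit 20354) (nat_lit 0) .nil) .nil))) 
(.lf (nat_lit 452213) (.g (nat_lit 3607) (.e (nat_lit 2612) (nat_lit 163) (.e (nat_lit 163978) (nat_lit 30) (.e (nat_lit 573484) (nat_lit 13) (.e (nat_lit 65610) (nat_lit 10) (.e (nat_lit 344117) (nat_lit 21) (.e (nat_lit 516143) (nat_lit 9) (.e (nat_lit 426144) (nat_lit 4) (.e (nat_lit 229665) (nat_lit 240) .nil)))))))) (.g (nat_lit 1) (.e (nat_lit 22365) (nat_lit 0) .nil) .nil)))) 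
(.nd (nat_lit 9) 
(.lf (nat_lit 451957) (.g (nat_lit 3180) (.e (nat_lit 2611) (nat_lit 163) (.e (nat_lit 163978) (nat_lit 30) (.e (nat_lit 573479) (nat_lit 13) (.e (nat_lit 65619) (nat_lit 10) (.e (nat_lit 344117) (nat_lit 21) (.e (nat_lit 516151) (nat_lit 9) (.e (nat_lit 426104) (nat_lit 1) (.e (nat_lit 164346) (nat_lit 240) .nil)))))))) (.g (nat_lit 1) (.e (nat_lit 21342) (nat_lit 0) .nil) .nil))) 
(.lf (nat_lit 452469) (.g (nat_lit 3399) (.e (nat_lit 2612) (nat_lit 163) (.e (nat_lit 163979) (nat_lit 30) (.e (nat_lit 573489) (nat_lit 14) (.e (nat_lit 73755) (nat_lit 8) (.e (nat_lit 557098) (nat_lit 13) (.e (nat_lit 172136) (nat_lit 15) (.e (nat_lit 1800) (nat_lit 119) (.e (nat_lit 516117) (nat_lit 1) (.e (nat_lit 164305) (nat_lit 226) .nil))))))))) (.g (nat_lit 1) (.e (nat_lit 22703) (nat_lit 0) .nil) .nil))))) 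
(.nd (nat_lit 8) (.nd (nat_lit 9) 
(.lf (nat_lit 451829) (.g (nat_lit 4909) (.e (nat_lit 2610) (nat_lit 163) (.e (nat_lit 163979) (nat_lit 30) (.e (nat_lit 573493) (nat_lit 15) (.e (nat_lit 81956) (nat_lit 23) (.e (nat_lit 98367) (nat_lit 27) (.e (nat_lit 434202) (nat_lit 18) (.e (nat_lit 5537) (nat_lit 306) .nil))))))) (.g (nat_lit 1) (.e (nat_lit 20558) (nat_lit 0) .nil) .nil))) 
(.lf (nat_lit 452341) (.g (nat_lit 3901) (.e (nat_lit 2612) (nat_lit 163) (.e (nat_lit 163978) (nat_lit 30) (.e (nat_lit 573489) (nat_lit 14) (.e (nat_lit 73755) (nat_lit 8) (.e (nat_lit 557097) (nat_lit 13) (.e (nat_lit 172136) (nat_lit 15) (.e (nat_lit 1800) (nat_lit 119) (.e (nat_lit 516120) (nat_lit 1) (.e (nat_lit 164304) (nat_lit 226) .nil))))))))) (.g (nat_lit 1) (.e (nat_lit 22522) (nat_lit 0) .nil) .nil)))) 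
(.nd (nat_lit 9) 
(.lf (nat_lit 452085) (.g (nat_lit 4348) (.e (nat_lit 2612) (nat_lit 163) (.e (nat_lit 163964) (nat_lit 25) (.e (nat_lit 532513) (nat_lit 3) (.e (nat_lit 114714) (nat_lit 22) (.e (nat_lit 90174) (nat_lit 14) (.e (nat_lit 180243) (nat_lit 5) (.e (nat_lit 532501) (nat_lit 1) (.e (nat_lit 57663) (nat_lit 152) .nil)))))))) (.g (nat_lit 1) (.e (nat_lit 22186) (nat_lit 0) .nil) .nil))) 
(.lf (nat_lit 452597) (.g (nat_lit 3246) (.e (nat_lit 2612) (nat_lit 163) (.e (nat_lit 164403) (nat_lit 256) (.e (nat_lit 57371) (nat_lit 2) (.e (nat_lit 90174) (nat_lit 14) (.e (nat_lit 180250) (nat_lit 10) (.e (nat_lit 573489) (nat_lit 14) (.e (nat_lit 73755) (nat_lit 8) (.e (nat_lit 557065) (nat_lit 9) .nil)))))))) (.g (nat_lit 1) (.e (nat_lit 23281) (nat_lit 0) .nil) .nil))))))))) 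
(.nd (nat_lit 4) (.nd (nat_lit 5) (.nd (nat_lit 6) (.nd (nat_lit 7) (.nd (nat_lit 8) 
(.nd (nat_lit 9) 
(.lf (nat_lit 451597) (.g (nat_lit 5273) (.e (nat_lit 2610) (nat_lit 163) (.e (nat_lit 163979) (nat_lit 30) (.e (nat_lit 573482) (nat_lit 13) (.e (nat_lit 65619) (nat_lit 10) (.e (nat_lit 344117) (nat_lit 21) (.e (nat_lit 516151) (nat_lit 9) (.e (nat_lit 426104) (nat_lit 1) (.e (nat_lit 164348) (nat_lit 240) .nil)))))))) (.g (nat_lit 1) (.e (nat_lit 20191) (nat_lit 0) .nil) .nil))) 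
(.lf (nat_lit 452109) (.g (nat_lit 4325) (.e (nat_lit 2612) (nat_lit 163) (.e (nat_lit 163977) (nat_lit 30) (.e (nat_lit 573485) (nat_lit 13) (.e (nat_lit 65604) (nat_lit 9) (.e (nat_lit 336013) (nat_lit 2) (.e (nat_lit 90170) (nat_lit 13) (.e (nat_lit 172068) (nat_lit 4) (.e (nat_lit 229666) (nat_lit 240) .nil)))))))) (.g (nat_lit 1) (.e (nat_lit 22227) (nat_lit 0) .nil) .nil)))) 
(.nd (nat_lit 9) 
(.lf (nat_lit 451853) (.g (nat_lit 3268) (.e (nat_lit 2610) (nat_lit 163) (.e (nat_lit 163979) (nat_lit 30) (.e (nat_lit 573493) (nat_lit 15) (.e (nat_lit 81956) (nat_lit 23) (.e (nat_lit 98368) (nat_lit 27) (.e (nat_lit 434212) (nat_lit 18) (.e (nat_lit 5543) (nat_lit 306) .nil))))))) (.g (nat_lit 1) (.e (nat_lit 20582) (nat_lit 0) .nil) .nil))) 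
(.lf (nat_lit 452365) (.g (nat_lit 3167) (.e (nat_lit 2612) (nat_lit 163) (.e (nat_lit 163978) (nat_lit 30) (.e (nat_lit 573489) (nat_lit 14) (.e (nat_lit 73755) (nat_lit 8) (.e (nat_lit 557098) (nat_lit 13) (.e (nat_lit 172137) (nat_lit 15) (.e (nat_lit 1800) (nat_lit 119) (.e (nat_lit 516120) (nat_lit 1) (.e (nat_lit 164304) (nat_lit 226) .nil))))))))) (.g (nat_lit 1) (.e (nat_lit 22546) (nat_lit 0) .nil) .nil))))) 
(.nd (nat_lit 8) (.nd (nat_lit 9) 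
(.lf (nat_lit 451725) (.g (nat_lit 4989) (.e (nat_lit 2610) (nat_lit 163) (.e (nat_lit 163979) (nat_lit 30) (.e (nat_lit 573493) (nat_lit 15) (.e (nat_lit 81951) (nat_lit 22) (.e (nat_lit 90185) (nat_lit 17) (.e (nat_lit 237584) (nat_lit 1) (.e (nat_lit 164348) (nat_lit 240) .nil))))))) (.g (nat_lit 1) (.e (nat_lit 20394) (nat_lit 0) .nil) .nil))) 
(.lf (nat_lit 452237) (.g (nat_lit 3125) (.e (nat_lit 2612) (nat_lit 163) (.e (nat_lit 163978) (nat_lit 30) (.e (nat_lit 573485) (nat_lit 13) (.e (nat_lit 65604) (nat_lit 9) (.e (nat_lit 336028) (nat_lit 3) (.e (nat_lit 98359) (nat_lit 26) (.e (nat_lit 426142) (nat_lit 4) (.e (nat_lit 229664) (nat_lit 240) .nil)))))))) (.g (nat_lit 1) (.e (nat_lit 22392) (nat_lit 0) .nil) .nil)))) 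
(.nd (nat_lit 9) 
(.lf (nat_lit 451981) (.g (nat_lit 4724) (.e (nat_lit 2611) (nat_lit 163) (.e (nat_lit 163978) (nat_lit 30) (.e (nat_lit 573485) (nat_lit 13) (.e (nat_lit 65604) (nat_lit 9) (.e (nat_lit 336013) (nat_lit 2) (.e (nat_lit 90170) (nat_lit 13) (.e (nat_lit 172061) (nat_lit 1) (.e (nat_lit 164347) (nat_lit 240) .nil)))))))) (.g (nat_lit 1) (.e (nat_lit 21409) (nat_lit 0) .nil) .nil))) 
(.lf (nat_lit 452493) (.g (nat_lit 2286) (.e (nat_lit 2612) (nat_lit 163) (.e (nat_lit 163979) (nat_lit 30) (.e (nat_lit 573492) (nat_lit 15) (.e (nat_lit 81951) (nat_lit 22) .nil)))) (.g (nat_lit 0) (.e (nat_lit 22730) (nat_lit 0) .nil) .nil)))))) (.nd (nat_lit 7) (.nd (nat_lit 8) (.nd (nat_lit 9) 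
(.lf (nat_lit 451661) (.g (nat_lit 2127) (.e (nat_lit 2610) (nat_lit 163) (.e (nat_lit 163979) (nat_lit 30) (.e (nat_lit 573491) (nat_lit 15) (.e (nat_lit 81954) (nat_lit 23) (.e (nat_lit 98365) (nat_lit 26) .nil))))) (.g (nat_lit 0) (.e (nat_lit 20289) (nat_lit 0) .nil) .nil))) 
(.lf (nat_lit 452173) (.g (nat_lit 3752) (.e (nat_lit 2612) (nat_lit 163) (.e (nat_lit 163977) (nat_lit 30) (.e (nat_lit 573493) (nat_lit 15) (.e (nat_lit 81951) (nat_lit 22) (.e (nat_lit 90170) (nat_lit 13) (.e (nat_lit 172070) (nat_lit 4) (.e (nat_lit 229665) (nat_lit 240) .nil))))))) (.g (nat_lit 1) (.e (nat_lit 22307) (nat_lit 0) .nil) .nil)))) (.nd (nat_lit 9) 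
(.lf (nat_lit 451917) (.g (nat_lit 4600) (.e (nat_lit 2611) (nat_lit 163) (.e (nat_lit 163977) (nat_lit 30) (.e (nat_lit 573482) (nat_lit 13) (.e (nat_lit 65619) (nat_lit 10) (.e (nat_lit 344117) (nat_lit 21) (.e (nat_lit 516170) (nat_lit 13) (.e (nat_lit 458774) (nat_lit 18) (.e (nat_lit 5548) (nat_lit 306) .nil)))))))) (.g (nat_lit 1) (.e (nat_lit 21016) (nat_lit 0) .nil) .nil))) 
(.lf (nat_lit 452429) (.g (nat_lit 3103) (.e (nat_lit 2612) (nat_lit 163) (.e (nat_lit 163979) (nat_lit 30) (.e (nat_lit 573487) (nat_lit 14) (.e (nat_lit 73753) (nat_lit 8) (.e (nat_lit 557097) (nat_lit 13) (.e (nat_lit 179968) (nat_lit 18) (.e (nat_lit 98335) (nat_lit 18) (.e (nat_lit 164305) (nat_lit 226) .nil)))))))) (.g (nat_lit 1) (.e (nat_lit 22658) (nat_lit 0) .nil) .nil))))) 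
(.nd (nat_lit 8) (.nd (nat_lit 9) 
(.lf (nat_lit 451789) (.g (nat_lit 3486) (.e (nat_lit 2610) (nat_lit 163) (.e (nat_lit 163979) (nat_lit 30) (.e (nat_lit 573493) (nat_lit 15) (.e (nat_lit 81956) (nat_lit 23) (.e (nat_lit 98356) (nat_lit 26) (.e (nat_lit 426112) (nat_lit 1) (.e (nat_lit 164348) (nat_lit 240) .nil))))))) (.g (nat_lit 1) (.e (nat_lit 20503) (nat_lit 0) .nil) .nil))) 
(.lf (nat_lit 452301) (.g (nat_lit 4041) (.e (nat_lit 2612) (nat_lit 163) (.e (nat_lit 163978) (nat_lit 30) (.e (nat_lit 573489) (nat_lit 14) (.e (nat_lit 73754) (nat_lit 8) (.e (nat_lit 557095) (nat_lit 13) (.e (nat_lit 172133) (nat_lit 15) (.e (nat_lit 1800) (nat_lit 119) (.e (nat_lit 516117) (nat_lit 1) (.e (nat_lit 164304) (nat_lit 226) .nil))))))))) (.g (nat_lit 1) (.e (nat_lit 22469) (nat_lit 0) .nil) .nil)))) 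
(.nd (nat_lit 9) 
(.lf (nat_lit 452045) (.g (nat_lit 4791) (.e (nat_lit 2611) (nat_lit 163) (.e (nat_lit 163979) (nat_lit 30) (.e (nat_lit 573482) (nat_lit 13) (.e (nat_lit 65619) (nat_lit 10) (.e (nat_lit 344117) (nat_lit 21) (.e (nat_lit 516160) (nat_lit 10) (.e (nat_lit 434209) (nat_lit 18) (.e (nat_lit 5547) (nat_lit 306) .nil)))))))) (.g (nat_lit 1) (.e (nat_lit 21806) (nat_lit 0) .nil) .nil))) 
(.lf (nat_lit 452557) (.g (nat_lit 3724) (.e (nat_lit 2612) (nat_lit 163) (.e (nat_lit 163979) (nat_lit 30) (.e (nat_lit 573493) (nat_lit 15) (.e (nat_lit 81956) (nat_lit 23) (.e (nat_lit 98363) (nat_lit 26) (.e (nat_lit 426147) (nat_lit 4) (.e (nat_lit 229666) (nat_lit 240) .nil))))))) (.g (nat_lit 1) (.e (nat_lit 22820) (nat_lit 0) .nil) .nil))))))) 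
(.nd (nat_lit 6) (.nd (nat_lit 7) (.nd (nat_lit 8) (.nd (nat_lit 9) 
(.lf (nat_lit 451629) (.g (nat_lit 4026) (.e (nat_lit 2610) (nat_lit 163) (.e (nat_lit 163979) (nat_lit 30) (.e (nat_lit 573482) (nat_lit 13) (.e (nat_lit 65619) (nat_lit 10) (.e (nat_lit 344129) (nat_lit 26) (.e (nat_lit 557087) (nat_lit 11) (.e (nat_lit 24597) (nat_lit 1) (.e (nat_lit 57771) (nat_lit 227) .nil)))))))) (.g (nat_lit 1) (.e (nat_lit 20225) (nat_lit 0) .nil) .nil))) 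
(.lf (nat_lit 452141) (.g (nat_lit 2661) (.e (nat_lit 2612) (nat_lit 163) (.e (nat_lit 163977) (nat_lit 30) (.e (nat_lit 573489) (nat_lit 14) (.e (nat_lit 73755) (nat_lit 8) (.e (nat_lit 557104) (nat_lit 14) (.e (nat_lit 180244) (nat_lit 5) (.e (nat_lit 532501) (nat_lit 1) (.e (nat_lit 57663) (nat_lit 152) .nil)))))))) (.g (nat_lit 1) (.e (nat_lit 22263) (nat_lit 0) .nil) .nil)))) 
(.nd (nat_lit 9) 
(.lf (nat_lit 451885) (.g (nat_lit 2841) (.e (nat_lit 2610) (nat_lit 163) (.e (nat_lit 164403) (nat_lit 256) (.e (nat_lit 57371) (nat_lit 2) (.e (nat_lit 90174) (nat_lit 14) (.e (nat_lit 180243) (nat_lit 5) (.e (nat_lit 532515) (nat_lit 3) (.e (nat_lit 114716) (nat_lit 22) (.e (nat_lit 90121) (nat_lit 9) .nil)))))))) (.g (nat_lit 1) (.e (nat_lit 20963) (nat_lit 0) .nil) .nil))) 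
(.lf (nat_lit 452397) (.g (nat_lit 5972) (.e (nat_lit 2612) (nat_lit 163) (.e (nat_lit 163979) (nat_lit 30) (.e (nat_lit 573482) (nat_lit 13) (.e (nat_lit 65604) (nat_lit 9) (.e (nat_lit 336013) (nat_lit 2) (.e (nat_lit 90170) (nat_lit 13) (.e (nat_lit 172070) (nat_lit 4) (.e (nat_lit 229663) (nat_lit 240) .nil)))))))) (.g (nat_lit 1) (.e (nat_lit 22621) (nat_lit 0) .nil) .nil))))) 
(.nd (nat_lit 8) (.nd (nat_lit 9) 
(.lf (nat_lit 451757) (.g (nat_lit 3497) (.e (nat_lit 2610) (nat_lit 163) (.e (nat_lit 163979) (nat_lit 30) (.e (nat_lit 573493) (nat_lit 15) (.e (nat_lit 81954) (nat_lit 23) (.e (nat_lit 98359) (nat_lit 26) .nil))))) (.g (nat_lit 0) (.e (nat_lit 20441) (nat_lit 0) .nil) .nil))) 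
(.lf (nat_lit 452269) (.g (nat_lit 2909) (.e (nat_lit 2612) (nat_lit 163) (.e (nat_lit 163978) (nat_lit 30) (.e (nat_lit 573487) (nat_lit 14) (.e (nat_lit 73753) (nat_lit 8) (.e (nat_lit 557098) (nat_lit 13) (.e (nat_lit 172131) (nat_lit 15) (.e (nat_lit 1800) (nat_lit 119) (.e (nat_lit 516120) (nat_lit 1) (.e (nat_lit 164304) (nat_lit 226) .nil))))))))) (.g (nat_lit 1) (.e (nat_lit 22433) (nat_lit 0) .nil) .nil)))) 
(.nd (nat_lit 9) 
(.lf (nat_lit 452013) (.g (nat_lit 770) (.e (nat_lit 2611) (nat_lit 163) (.e (nat_lit 163978) (nat_lit 30) (.e (nat_lit 573490) (nat_lit 15) .nil))) (.g (nat_lit 0) (.e (nat_lit 21624) (nat_lit 0) .nil) .nil))) 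
(.lf (nat_lit 452525) (.g (nat_lit 2473) (.e (nat_lit 2612) (nat_lit 163) (.e (nat_lit 163979) (nat_lit 30) (.e (nat_lit 573493) (nat_lit 15) (.e (nat_lit 81953) (nat_lit 22) (.e (nat_lit 90170) (nat_lit 13) (.e (nat_lit 172069) (nat_lit 4) (.e (nat_lit 229666) (nat_lit 240) .nil))))))) (.g (nat_lit 1) (.e (nat_lit 22783) (nat_lit 0) .nil) .nil)))))) 
(.nd (nat_lit 7) (.nd (nat_lit 8) (.nd (nat_lit 9) 
(.lf (nat_lit 451693) (.g (nat_lit 5383) (.e (nat_lit 2610) (nat_lit 163) (.e (nat_lit 163979) (nat_lit 30) (.e (nat_lit 573492) (nat_lit 15) (.e (nat_lit 81956) (nat_lit 23) (.e (nat_lit 98364) (nat_lit 26) .nil))))) (.g (nat_lit 0) (.e (nat_lit 20346) (nat_lit 0) .nil) .nil))) 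
(.lf (nat_lit 452205) (.g (nat_lit 3462) (.e (nat_lit 2612) (nat_lit 163) (.e (nat_lit 163978) (nat_lit 30) (.e (nat_lit 573479) (nat_lit 13) (.e (nat_lit 65604) (nat_lit 9) (.e (nat_lit 336013) (nat_lit 2) (.e (nat_lit 90170) (nat_lit 13) (.e (nat_lit 172068) (nat_lit 4) (.e (nat_lit 229666) (nat_lit 240) .nil)))))))) (.g (nat_lit 1) (.e (nat_lit 22354) (nat_lit 0) .nil) .nil)))) 
(.nd (nat_lit 9) 
(.lf (nat_lit 451949) (.g (nat_lit 4475) (.e (nat_lit 2611) (nat_lit 163) (.e (nat_lit 163978) (nat_lit 30) (.e (nat_lit 573479) (nat_lit 13) (.e (nat_lit 65619) (nat_lit 10) (.e (nat_lit 344117) (nat_lit 21) (.e (nat_lit 516143) (nat_lit 9) (.e (nat_lit 426109) (nat_lit 1) (.e (nat_lit 164345) (nat_lit 240) .nil)))))))) (.g (nat_lit 1) (.e (nat_lit 21334) (nat_lit 0) .nil) .nil))) 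
(.lf (nat_lit 452461) (.g (nat_lit 4746) (.e (nat_lit 2612) (nat_lit 163) (.e (nat_lit 163979) (nat_lit 30) (.e (nat_lit 573489) (nat_lit 14) (.e (nat_lit 73755) (nat_lit 8) (.e (nat_lit 557097) (nat_lit 13) (.e (nat_lit 172133) (nat_lit 15) (.e (nat_lit 1800) (nat_lit 119) (.e (nat_lit 516117) (nat_lit 1) (.e (nat_lit 164304) (nat_lit 226) .nil))))))))) (.g (nat_lit 1) (.e (nat_lit 22695) (nat_lit 0) .nil) .nil))))) 
(.nd (nat_lit 8) (.nd (nat_lit 9) 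
(.lf (nat_lit 451821) (.g (nat_lit 5934) (.e (nat_lit 2610) (nat_lit 163) (.e (nat_lit 163979) (nat_lit 30) (.e (nat_lit 573493) (nat_lit 15) (.e (nat_lit 81956) (nat_lit 23) (.e (nat_lit 98365) (nat_lit 26) (.e (nat_lit 426107) (nat_lit 1) (.e (nat_lit 164345) (nat_lit 240) .nil))))))) (.g (nat_lit 1) (.e (nat_lit 20550) (nat_lit 0) .nil) .nil))) 
(.lf (nat_lit 452333) (.g (nat_lit 3986) (.e (nat_lit 2612) (nat_lit 163) (.e (nat_lit 163978) (nat_lit 30) (.e (nat_lit 573489) (nat_lit 14) (.e (nat_lit 73755) (nat_lit 8) (.e (nat_lit 557097) (nat_lit 13) (.e (nat_lit 172066) (nat_lit 3) (.e (nat_lit 204829) (nat_lit 18) (.e (nat_lit 57659) (nat_lit 152) .nil)))))))) (.g (nat_lit 1) (.e (nat_lit 22514) (nat_lit 0) .nil) .nil)))) 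
(.nd (nat_lit 9) 
(.lf (nat_lit 452077) (.g (nat_lit 2440) (.e (nat_lit 2611) (nat_lit 163) (.e (nat_lit 164403) (nat_lit 256) (.e (nat_lit 57378) (nat_lit 3) (.e (nat_lit 98376) (nat_lit 30) (.e (nat_lit 458789) (nat_lit 23) (.e (nat_lit 532515) (nat_lit 3) (.e (nat_lit 114716) (nat_lit 22) (.e (nat_lit 90121) (nat_lit 9) .nil)))))))) (.g (nat_lit 1) (.e (nat_lit 22166) (nat_lit 0) .nil) .nil))) 
(.lf (nat_lit 452589) (.g (nat_lit 3746) (.e (nat_lit 2612) (nat_lit 163) (.e (nat_lit 164402) (nat_lit 256) (.e (nat_lit 57373) (nat_lit 2) (.e (nat_lit 90174) (nat_lit 14) (.e (nat_lit 180243) (nat_lit 5) (.e (nat_lit 532515) (nat_lit 3) (.e (nat_lit 114716) (nat_lit 22) (.e (nat_lit 90130) (nat_lit 9) .nil)))))))) (.g (nat_lit 1) (.e (nat_lit 23273) (nat_lit 0) .nil) .nil)))))))) 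
(.nd (nat_lit 5) (.nd (nat_lit 6) (.nd (nat_lit 7) (.nd (nat_lit 8) (.nd (nat_lit 9) 
(.lf (nat_lit 451613) (.g (nat_lit 3877) (.e (nat_lit 2610) (nat_lit 163) (.e (nat_lit 163979) (nat_lit 30) (.e (nat_lit 573482) (nat_lit 13) (.e (nat_lit 65619) (nat_lit 10) (.e (nat_lit 344117) (nat_lit 21) (.e (nat_lit 516161) (nat_lit 10) (.e (nat_lit 434209) (nat_lit 18) (.e (nat_lit 5548) (nat_lit 306) .nil)))))))) (.g (nat_lit 1) (.e (nat_lit 20207) (nat_lit 0) .nil) .nil))) 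
(.lf (nat_lit 452125) (.g (nat_lit 2072) (.e (nat_lit 2612) (nat_lit 163) (.e (nat_lit 163977) (nat_lit 30) (.e (nat_lit 573487) (nat_lit 14) (.e (nat_lit 73753) (nat_lit 8) (.e (nat_lit 557097) (nat_lit 13) (.e (nat_lit 179968) (nat_lit 18) (.e (nat_lit 98334) (nat_lit 18) (.e (nat_lit 164305) (nat_lit 226) .nil)))))))) (.g (nat_lit 1) (.e (nat_lit 22244) (nat_lit 0) .nil) .nil)))) 
(.nd (nat_lit 9) 
(.lf (nat_lit 451869) (.g (nat_lit 2054) (.e (nat_lit 2610) (nat_lit 163) (.e (nat_lit 164396) (nat_lit 256) (.e (nat_lit 57371) (nat_lit 2) (.e (nat_lit 90174) (nat_lit 14) (.e (nat_lit 180243) (nat_lit 5) (.e (nat_lit 532513) (nat_lit 3) (.e (nat_lit 114714) (nat_lit 22) (.e (nat_lit 90121) (nat_lit 9) .nil)))))))) (.g (nat_lit 1) (.e (nat_lit 20947) (nat_lit 0) .nil) .nil))) 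
(.lf (nat_lit 452381) (.g (nat_lit 4526) (.e (nat_lit 2612) (nat_lit 163) (.e (nat_lit 163978) (nat_lit 30) (.e (nat_lit 573489) (nat_lit 14) (.e (nat_lit 73755) (nat_lit 8) (.e (nat_lit 557104) (nat_lit 14) (.e (nat_lit 180244) (nat_lit 5) (.e (nat_lit 532499) (nat_lit 1) (.e (nat_lit 57652) (nat_lit 152) .nil)))))))) (.g (nat_lit 1) (.e (nat_lit 22562) (nat_lit 0) .nil) .nil))))) 
(.nd (nat_lit 8) (.nd (nat_lit 9) 
(.lf (nat_lit 451741) (.g (nat_lit 4489) (.e (nat_lit 2610) (nat_lit 163) (.e (nat_lit 163979) (nat_lit 30) (.e (nat_lit 573493) (nat_lit 15) (.e (nat_lit 81953) (nat_lit 22) (.e (nat_lit 90174) (nat_lit 14) (.e (nat_lit 180228) (nat_lit 0) (.e (nat_lit 5543) (nat_lit 306) .nil))))))) (.g (nat_lit 1) (.e (nat_lit 20425) (nat_lit 0) .nil) .nil))) 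
(.lf (nat_lit 452253) (.g (nat_lit 3478) (.e (nat_lit 2612) (nat_lit 163) (.e (nat_lit 163978) (nat_lit 30) (.e (nat_lit 573485) (nat_lit 13) (.e (nat_lit 65619) (nat_lit 10) (.e (nat_lit 344117) (nat_lit 21) (.e (nat_lit 516159) (nat_lit 10) (.e (nat_lit 434215) (nat_lit 18) (.e (nat_lit 5448) (nat_lit 306) .nil)))))))) (.g (nat_lit 1) (.e (nat_lit 22409) (nat_lit 0) .nil) .nil)))) 
(.nd (nat_lit 9) 
(.lf (nat_lit 451997) (.g (nat_lit 4682) (.e (nat_lit 2611) (nat_lit 163) (.e (nat_lit 163978) (nat_lit 30) (.e (nat_lit 573485) (nat_lit 13) (.e (nat_lit 65619) (nat_lit 10) (.e (nat_lit 344117) (nat_lit 21) (.e (nat_lit 516143) (nat_lit 9) (.e (nat_lit 426109) (nat_lit 1) (.e (nat_lit 164347) (nat_lit 240) .nil)))))))) (.g (nat_lit 1) (.e (nat_lit 21444) (nat_lit 0) .nil) .nil))) 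
(.lf (nat_lit 452509) (.g (nat_lit 3864) (.e (nat_lit 2612) (nat_lit 163) (.e (nat_lit 163979) (nat_lit 30) (.e (nat_lit 573492) (nat_lit 15) (.e (nat_lit 81956) (nat_lit 23) (.e (nat_lit 106240) (nat_lit 26) (.e (nat_lit 426144) (nat_lit 4) (.e (nat_lit 229663) (nat_lit 240) .nil))))))) (.g (nat_lit 1) (.e (nat_lit 22756) (nat_lit 0) .nil) .nil)))))) 
(.nd (nat_lit 7) (.nd (nat_lit 8) (.nd (nat_lit 9) 
(.lf (nat_lit 451677) (.g (nat_lit 2460) (.e (nat_lit 2610) (nat_lit 163) (.e (nat_lit 163979) (nat_lit 30) (.e (nat_lit 573491) (nat_lit 15) (.e (nat_lit 81954) (nat_lit 23) (.e (nat_lit 98367) (nat_lit 27) (.e (nat_lit 434213) (nat_lit 18) (.e (nat_lit 5547) (nat_lit 306) .nil))))))) (.g (nat_lit 1) (.e (nat_lit 20305) (nat_lit 0) .nil) .nil))) 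
(.lf (nat_lit 452189) (.g (nat_lit 3920) (.e (nat_lit 2612) (nat_lit 163) (.e (nat_lit 163977) (nat_lit 30) (.e (nat_lit 573493) (nat_lit 15) (.e (nat_lit 81954) (nat_lit 23) (.e (nat_lit 98359) (nat_lit 26) (.e (nat_lit 426142) (nat_lit 4) (.e (nat_lit 229666) (nat_lit 240) .nil))))))) (.g (nat_lit 1) (.e (nat_lit 22327) (nat_lit 0) .nil) .nil)))) (.nd (nat_lit 9) 
(.lf (nat_lit 451933) (.g (nat_lit 3301) (.e (nat_lit 2611) (nat_lit 163) (.e (nat_lit 163978) (nat_lit 30) (.e (nat_lit 573479) (nat_lit 13) (.e (nat_lit 65604) (nat_lit 9) (.e (nat_lit 336013) (nat_lit 2) (.e (nat_lit 90170) (nat_lit 13) (.e (nat_lit 172059) (nat_lit 1) (.e (nat_lit 164346) (nat_lit 240) .nil)))))))) (.g (nat_lit 1) (.e (nat_lit 21316) (nat_lit 0) .nil) .nil))) 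
(.lf (nat_lit 452445) (.g (nat_lit 2770) (.e (nat_lit 2612) (nat_lit 163) (.e (nat_lit 163979) (nat_lit 30) (.e (nat_lit 573488) (nat_lit 14) (.e (nat_lit 73755) (nat_lit 8) (.e (nat_lit 557097) (nat_lit 13) (.e (nat_lit 172133) (nat_lit 15) (.e (nat_lit 1800) (nat_lit 119) (.e (nat_lit 516117) (nat_lit 1) (.e (nat_lit 164305) (nat_lit 226) .nil))))))))) (.g (nat_lit 1) (.e (nat_lit 22675) (nat_lit 0) .nil) .nil))))) 
(.nd (nat_lit 8) (.nd (nat_lit 9) 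
(.lf (nat_lit 451805) (.g (nat_lit 5432) (.e (nat_lit 2610) (nat_lit 163) (.e (nat_lit 163979) (nat_lit 30) (.e (nat_lit 573493) (nat_lit 15) (.e (nat_lit 81956) (nat_lit 23) (.e (nat_lit 98360) (nat_lit 26) (.e (nat_lit 426109) (nat_lit 1) (.e (nat_lit 164347) (nat_lit 240) .nil))))))) (.g (nat_lit 1) (.e (nat_lit 20534) (nat_lit 0) .nil) .nil))) 
(.lf (nat_lit 452317) (.g (nat_lit 3359) (.e (nat_lit 2612) (nat_lit 163) (.e (nat_lit 163978) (nat_lit 30) (.e (nat_lit 573489) (nat_lit 14) (.e (nat_lit 73754) (nat_lit 8) (.e (nat_lit 557101) (nat_lit 13) (.e (nat_lit 179968) (nat_lit 15) (.e (nat_lit 1800) (nat_lit 119) (.e (nat_lit 516120) (nat_lit 1) (.e (nat_lit 164304) (nat_lit 226) .nil))))))))) (.g (nat_lit 1) (.e (nat_lit 22485) (nat_lit 0) .nil) .nil)))) 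
(.nd (nat_lit 9) 
(.lf (nat_lit 452061) (.g (nat_lit 2694) (.e (nat_lit 2611) (nat_lit 163) (.e (nat_lit 164402) (nat_lit 256) (.e (nat_lit 57371) (nat_lit 2) (.e (nat_lit 90174) (nat_lit 14) (.e (nat_lit 180243) (nat_lit 5) (.e (nat_lit 532515) (nat_lit 3) (.e (nat_lit 114715) (nat_lit 22) (.e (nat_lit 90121) (nat_lit 9) .nil)))))))) (.g (nat_lit 1) (.e (nat_lit 22150) (nat_lit 0) .nil) .nil))) 
(.lf (nat_lit 452573) (.g (nat_lit 1787) (.e (nat_lit 2612) (nat_lit 163) (.e (nat_lit 164326) (nat_lit 230) (.e (nat_lit 163903) (nat_lit 12) (.e (nat_lit 426568) (nat_lit 34) (.e (nat_lit 393267) (nat_lit 23) (.e (nat_lit 426430) (nat_lit 17) (.e (nat_lit 90130) (nat_lit 9) .nil))))))) (.g (nat_lit 1) (.e (nat_lit 23022) (nat_lit 0) .nil) .nil))))))) 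
(.nd (nat_lit 6) (.nd (nat_lit 7) (.nd (nat_lit 8) (.nd (nat_lit 9) 
(.lf (nat_lit 451645) (.g (nat_lit 1833) (.e (nat_lit 2610) (nat_lit 163) (.e (nat_lit 163979) (nat_lit 30) (.e (nat_lit 573491) (nat_lit 15) (.e (nat_lit 81952) (nat_lit 22) .nil)))) (.g (nat_lit 0) (.e (nat_lit 20272) (nat_lit 0) .nil) .nil))) 
(.lf (nat_lit 452157) (.g (nat_lit 2977) (.e (nat_lit 2612) (nat_lit 163) (.e (nat_lit 163977) (nat_lit 30) (.e (nat_lit 573491) (nat_lit 15) (.e (nat_lit 81954) (nat_lit 23) (.e (nat_lit 98367) (nat_lit 27) (.e (nat_lit 434215) (nat_lit 18) (.e (nat_lit 5448) (nat_lit 306) .nil))))))) (.g (nat_lit 1) (.e (nat_lit 22282) (nat_lit 0) .nil) .nil)))) (.nd (nat_lit 9) 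
(.lf (nat_lit 451901) (.g (nat_lit 4240) (.e (nat_lit 2611) (nat_lit 163) (.e (nat_lit 163977) (nat_lit 30) (.e (nat_lit 573482) (nat_lit 13) (.e (nat_lit 65604) (nat_lit 9) (.e (nat_lit 336013) (nat_lit 2) (.e (nat_lit 90170) (nat_lit 13) (.e (nat_lit 172059) (nat_lit 1) (.e (nat_lit 164347) (nat_lit 240) .nil)))))))) (.g (nat_lit 1) (.e (nat_lit 20992) (nat_lit 0) .nil) .nil))) 
(.lf (nat_lit 452413) (.g (nat_lit 3245) (.e (nat_lit 2612) (nat_lit 163) (.e (nat_lit 163979) (nat_lit 30) (.e (nat_lit 573482) (nat_lit 13) (.e (nat_lit 65619) (nat_lit 10) (.e (nat_lit 344117) (nat_lit 21) (.e (nat_lit 516151) (nat_lit 9) (.e (nat_lit 426142) (nat_lit 4) (.e (nat_lit 229664) (nat_lit 240) .nil)))))))) (.g (nat_lit 1) (.e (nat_lit 22637) (nat_lit 0) .nil) .nil))))) 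
(.nd (nat_lit 8) (.nd (nat_lit 9) 
(.lf (nat_lit 451773) (.g (nat_lit 5663) (.e (nat_lit 2610) (nat_lit 163) (.e (nat_lit 163979) (nat_lit 30) (.e (nat_lit 573493) (nat_lit 15) (.e (nat_lit 81954) (nat_lit 23) (.e (nat_lit 98365) (nat_lit 26) (.e (nat_lit 426107) (nat_lit 1) (.e (nat_lit 164347) (nat_lit 240) .nil))))))) (.g (nat_lit 1) (.e (nat_lit 20459) (nat_lit 0) .nil) .nil))) 
(.lf (nat_lit 452285) (.g (nat_lit 3695) (.e (nat_lit 2612) (nat_lit 163) (.e (nat_lit 163978) (nat_lit 30) (.e (nat_lit 573487) (nat_lit 14) (.e (nat_lit 73753) (nat_lit 8) (.e (nat_lit 557100) (nat_lit 13) (.e (nat_lit 172138) (nat_lit 15) (.e (nat_lit 1800) (nat_lit 119) (.e (nat_lit 516117) (nat_lit 1) (.e (nat_lit 164305) (nat_lit 226) .nil))))))))) (.g (nat_lit 1) (.e (nat_lit 22451) (nat_lit 0) .nil) .nil)))) 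
(.nd (nat_lit 9) 
(.lf (nat_lit 452029) (.g (nat_lit 3714) (.e (nat_lit 2611) (nat_lit 163) (.e (nat_lit 163979) (nat_lit 30) (.e (nat_lit 573482) (nat_lit 13) (.e (nat_lit 65604) (nat_lit 9) (.e (nat_lit 336028) (nat_lit 3) (.e (nat_lit 98367) (nat_lit 27) (.e (nat_lit 434202) (nat_lit 18) (.e (nat_lit 5537) (nat_lit 306) .nil)))))))) (.g (nat_lit 1) (.e (nat_lit 21790) (nat_lit 0) .nil) .nil))) 
(.lf (nat_lit 452541) (.g (nat_lit 3111) (.e (nat_lit 2612) (nat_lit 163) (.e (nat_lit 163979) (nat_lit 30) (.e (nat_lit 573493) (nat_lit 15) (.e (nat_lit 81956) (nat_lit 23) (.e (nat_lit 98355) (nat_lit 26) (.e (nat_lit 426141) (nat_lit 4) (.e (nat_lit 229663) (nat_lit 240) .nil))))))) (.g (nat_lit 1) (.e (nat_lit 22804) (nat_lit 0) .nil) .nil)))))) 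
(.nd (nat_lit 7) (.nd (nat_lit 8) (.nd (nat_lit 9) 
(.lf (nat_lit 451709) (.g (nat_lit 4177) (.e (nat_lit 2610) (nat_lit 163) (.e (nat_lit 163979) (nat_lit 30) (.e (nat_lit 573493) (nat_lit 15) (.e (nat_lit 81951) (nat_lit 22) (.e (nat_lit 90170) (nat_lit 13) (.e (nat_lit 172046) (nat_lit 0) (.e (nat_lit 2458) (nat_lit 157) (.e (nat_lit 5548) (nat_lit 306) .nil)))))))) (.g (nat_lit 1) (.e (nat_lit 20378) (nat_lit 0) .nil) .nil))) 
(.lf (nat_lit 452221) (.g (nat_lit 3720) (.e (nat_lit 2612) (nat_lit 163) (.e (nat_lit 163978) (nat_lit 30) (.e (nat_lit 573484) (nat_lit 13) (.e (nat_lit 65610) (nat_lit 10) (.e (nat_lit 344117) (nat_lit 21) (.e (nat_lit 516151) (nat_lit 9) (.e (nat_lit 426146) (nat_lit 4) (.e (nat_lit 229663) (nat_lit 240) .nil)))))))) (.g (nat_lit 1) (.e (nat_lit 22373) (nat_lit 0) .nil) .nil)))) 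
(.nd (nat_lit 9) 
(.lf (nat_lit 451965) (.g (nat_lit 2817) (.e (nat_lit 2611) (nat_lit 163) (.e (nat_lit 163978) (nat_lit 30) (.e (nat_lit 573479) (nat_lit 13) (.e (nat_lit 65619) (nat_lit 10) (.e (nat_lit 344117) (nat_lit 21) (.e (nat_lit 516168) (nat_lit 13) (.e (nat_lit 458774) (nat_lit 18) (.e (nat_lit 5548) (nat_lit 306) .nil)))))))) (.g (nat_lit 1) (.e (nat_lit 21350) (nat_lit 0) .nil) .nil))) 
(.lf (nat_lit 452477) (.g (nat_lit 2911) (.e (nat_lit 2612) (nat_lit 163) (.e (nat_lit 163979) (nat_lit 30) (.e (nat_lit 573489) (nat_lit 14) (.e (nat_lit 73755) (nat_lit 8) (.e (nat_lit 557104) (nat_lit 14) (.e (nat_lit 180244) (nat_lit 5) (.e (nat_lit 532503) (nat_lit 1) (.e (nat_lit 57659) (nat_lit 152) .nil)))))))) (.g (nat_lit 1) (.e (nat_lit 22711) (nat_lit 0) .nil) .nil))))) 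
(.nd (nat_lit 8) (.nd (nat_lit 9) 
(.lf (nat_lit 451837) (.g (nat_lit 3051) (.e (nat_lit 2610) (nat_lit 163) (.e (nat_lit 163979) (nat_lit 30) (.e (nat_lit 573493) (nat_lit 15) (.e (nat_lit 81956) (nat_lit 23) (.e (nat_lit 98368) (nat_lit 27) (.e (nat_lit 434199) (nat_lit 18) (.e (nat_lit 5543) (nat_lit 306) .nil))))))) (.g (nat_lit 1) (.e (nat_lit 20566) (nat_lit 0) .nil) .nil))) 
(.lf (nat_lit 452349) (.g (nat_lit 3093) (.e (nat_lit 2612) (nat_lit 163) (.e (nat_lit 163978) (nat_lit 30) (.e (nat_lit 573489) (nat_lit 14) (.e (nat_lit 73755) (nat_lit 8) (.e (nat_lit 557098) (nat_lit 13) (.e (nat_lit 172066) (nat_lit 3) (.e (nat_lit 204831) (nat_lit 18) (.e (nat_lit 57659) (nat_lit 152) .nil)))))))) (.g (nat_lit 1) (.e (nat_lit 22530) (nat_lit 0) .nil) .nil)))) 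
(.nd (nat_lit 9) 
(.lf (nat_lit 452093) (.g (nat_lit 4264) (.e (nat_lit 2612) (nat_lit 163) (.e (nat_lit 163964) (nat_lit 25) (.e (nat_lit 532515) (nat_lit 3) (.e (nat_lit 114719) (nat_lit 23) (.e (nat_lit 98356) (nat_lit 26) (.e (nat_lit 426438) (nat_lit 18) (.e (nat_lit 98335) (nat_lit 18) (.e (nat_lit 164305) (nat_lit 226) .nil)))))))) (.g (nat_lit 1) (.e (nat_lit 22204) (nat_lit 0) .nil) .nil))) 
(.lf (nat_lit 452605) (.g (nat_lit 1883) (.e (nat_lit 2612) (nat_lit 163) (.e (nat_lit 164403) (nat_lit 256) (.e (nat_lit 57377) (nat_lit 3) (.e (nat_lit 98376) (nat_lit 30) .nil)))) (.g (nat_lit 0) (.e (nat_lit 23289) (nat_lit 0) .nil) .nil))))))))))) (.nd (nat_lit 2) (.nd (nat_lit 3) (.nd (nat_lit 4) (.nd (nat_lit 5) (.nd (nat_lit 6) (.nd (nat_lit 7) (.nd (nat_lit 8) (.nd (nat_lit 9) 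
(.lf (nat_lit 451587) (.g (nat_lit 4495) (.e (nat_lit 2610) (nat_lit 163) (.e (nat_lit 163979) (nat_lit 30) (.e (nat_lit 573482) (nat_lit 13) (.e (nat_lit 65619) (nat_lit 10) (.e (nat_lit 344117) (nat_lit 21) (.e (nat_lit 516143) (nat_lit 9) (.e (nat_lit 426109) (nat_lit 1) (.e (nat_lit 164346) (nat_lit 240) .nil)))))))) (.g (nat_lit 1) (.e (nat_lit 20181) (nat_lit 0) .nil) .nil))) 
(.lf (nat_lit 452099) (.g (nat_lit 2948) (.e (nat_lit 2612) (nat_lit 163) (.e (nat_lit 163977) (nat_lit 30) (.e (nat_lit 573482) (nat_lit 13) (.e (nat_lit 65604) (nat_lit 9) (.e (nat_lit 336028) (nat_lit 3) (.e (nat_lit 98359) (nat_lit 26) (.e (nat_lit 426142) (nat_lit 4) (.e (nat_lit 229665) (nat_lit 240) .nil)))))))) (.g (nat_lit 1) (.e (nat_lit 22217) (nat_lit 0) .nil) .nil)))) 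
(.nd (nat_lit 9) 
(.lf (nat_lit 451843) (.g (nat_lit 4106) (.e (nat_lit 2610) (nat_lit 163) (.e (nat_lit 163979) (nat_lit 30) (.e (nat_lit 573493) (nat_lit 15) (.e (nat_lit 81956) (nat_lit 23) (.e (nat_lit 98368) (nat_lit 27) (.e (nat_lit 434205) (nat_lit 18) (.e (nat_lit 5544) (nat_lit 306) .nil))))))) (.g (nat_lit 1) (.e (nat_lit 20572) (nat_lit 0) .nil) .nil))) 
(.lf (nat_lit 452355) (.g (nat_lit 3197) (.e (nat_lit 2612) (nat_lit 163) (.e (nat_lit 163978) (nat_lit 30) (.e (nat_lit 573489) (nat_lit 14) (.e (nat_lit 73755) (nat_lit 8) (.e (nat_lit 557098) (nat_lit 13) (.e (nat_lit 172132) (nat_lit 15) (.e (nat_lit 1796) (nat_lit 119) (.e (nat_lit 516120) (nat_lit 1) (.e (nat_lit 164305) (nat_lit 226) .nil))))))))) (.g (nat_lit 1) (.e (nat_lit 22536) (nat_lit 0) .nil) .nil))))) 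
(.nd (nat_lit 8) (.nd (nat_lit 9) 
(.lf (nat_lit 451715) (.g (nat_lit 3653) (.e (nat_lit 2610) (nat_lit 163) (.e (nat_lit 163979) (nat_lit 30) (.e (nat_lit 573493) (nat_lit 15) (.e (nat_lit 81951) (nat_lit 22) (.e (nat_lit 90172) (nat_lit 14) (.e (nat_lit 180229) (nat_lit 0) (.e (nat_lit 5543) (nat_lit 306) .nil))))))) (.g (nat_lit 1) (.e (nat_lit 20384) (nat_lit 0) .nil) .nil))) 
(.lf (nat_lit 452227) (.g (nat_lit 3881) (.e (nat_lit 2612) (nat_lit 163) (.e (nat_lit 163978) (nat_lit 30) (.e (nat_lit 573484) (nat_lit 13) (.e (nat_lit 65617) (nat_lit 10) (.e (nat_lit 344117) (nat_lit 21) (.e (nat_lit 516151) (nat_lit 9) (.e (nat_lit 426142) (nat_lit 4) (.e (nat_lit 229663) (nat_lit 240) .nil)))))))) (.g (nat_lit 1) (.e (nat_lit 22380) (nat_lit 0) .nil) .nil)))) 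
(.nd (nat_lit 9) 
(.lf (nat_lit 451971) (.g (nat_lit 3858) (.e (nat_lit 2611) (nat_lit 163) (.e (nat_lit 163978) (nat_lit 30) (.e (nat_lit 573479) (nat_lit 13) (.e (nat_lit 65619) (nat_lit 10) (.e (nat_lit 344117) (nat_lit 21) (.e (nat_lit 516171) (nat_lit 13) (.e (nat_lit 458774) (nat_lit 18) (.e (nat_lit 5548) (nat_lit 306) .nil)))))))) (.g (nat_lit 1) (.e (nat_lit 21356) (nat_lit 0) .nil) .nil))) 
(.lf (nat_lit 452483) (.g (nat_lit 3633) (.e (nat_lit 2612) (nat_lit 163) (.e (nat_lit 163979) (nat_lit 30) (.e (nat_lit 573491) (nat_lit 15) (.e (nat_lit 81951) (nat_lit 22) (.e (nat_lit 90170) (nat_lit 13) (.e (nat_lit 172070) (nat_lit 4) (.e (nat_lit 229665) (nat_lit 240) .nil))))))) (.g (nat_lit 1) (.e (nat_lit 22717) (nat_lit 0) .nil) .nil)))))) 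
(.nd (nat_lit 7) (.nd (nat_lit 8) (.nd (nat_lit 9) 
(.lf (nat_lit 451651) (.g (nat_lit 3472) (.e (nat_lit 2610) (nat_lit 163) (.e (nat_lit 163979) (nat_lit 30) (.e (nat_lit 573491) (nat_lit 15) (.e (nat_lit 81954) (nat_lit 23) (.e (nat_lit 98359) (nat_lit 26) (.e (nat_lit 426097) (nat_lit 1) (.e (nat_lit 164345) (nat_lit 240) .nil))))))) (.g (nat_lit 1) (.e (nat_lit 20279) (nat_lit 0) .nil) .nil))) 
(.lf (nat_lit 452163) (.g (nat_lit 3381) (.e (nat_lit 2612) (nat_lit 163) (.e (nat_lit 163977) (nat_lit 30) (.e (nat_lit 573492) (nat_lit 15) (.e (nat_lit 81956) (nat_lit 23) (.e (nat_lit 98356) (nat_lit 26) (.e (nat_lit 433920) (nat_lit 4) (.e (nat_lit 229666) (nat_lit 240) .nil))))))) (.g (nat_lit 1) (.e (nat_lit 22293) (nat_lit 0) .nil) .nil)))) (.nd (nat_lit 9) 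
(.lf (nat_lit 451907) (.g (nat_lit 4162) (.e (nat_lit 2611) (nat_lit 163) (.e (nat_lit 163977) (nat_lit 30) (.e (nat_lit 573482) (nat_lit 13) (.e (nat_lit 65619) (nat_lit 10) (.e (nat_lit 344117) (nat_lit 21) (.e (nat_lit 516143) (nat_lit 9) (.e (nat_lit 426109) (nat_lit 1) (.e (nat_lit 164347) (nat_lit 240) .nil)))))))) (.g (nat_lit 1) (.e (nat_lit 21006) (nat_lit 0) .nil) .nil))) 
(.lf (nat_lit 452419) (.g (nat_lit 3087) (.e (nat_lit 2612) (nat_lit 163) (.e (nat_lit 163979) (nat_lit 30) (.e (nat_lit 573482) (nat_lit 13) (.e (nat_lit 65619) (nat_lit 10) (.e (nat_lit 344117) (nat_lit 21) (.e (nat_lit 516159) (nat_lit 10) (.e (nat_lit 434216) (nat_lit 18) (.e (nat_lit 5448) (nat_lit 306) .nil)))))))) (.g (nat_lit 1) (.e (nat_lit 22643) (nat_lit 0) .nil) .nil))))) 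
(.nd (nat_lit 8) (.nd (nat_lit 9) 
(.lf (nat_lit 451779) (.g (nat_lit 3463) (.e (nat_lit 2610) (nat_lit 163) (.e (nat_lit 163979) (nat_lit 30) (.e (nat_lit 573493) (nat_lit 15) (.e (nat_lit 81954) (nat_lit 23) (.e (nat_lit 98367) (nat_lit 27) .nil))))) (.g (nat_lit 0) (.e (nat_lit 20465) (nat_lit 0) .nil) .nil))) 
(.lf (nat_lit 452291) (.g (nat_lit 3678) (.e (nat_lit 2612) (nat_lit 163) (.e (nat_lit 163978) (nat_lit 30) (.e (nat_lit 573487) (nat_lit 14) (.e (nat_lit 73753) (nat_lit 8) (.e (nat_lit 557101) (nat_lit 13) (.e (nat_lit 172136) (nat_lit 15) (.e (nat_lit 1800) (nat_lit 119) (.e (nat_lit 516120) (nat_lit 1) (.e (nat_lit 164304) (nat_lit 226) .nil))))))))) (.g (nat_lit 1) (.e (nat_lit 22459) (nat_lit 0) .nil) .nil)))) 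
(.nd (nat_lit 9) 
(.lf (nat_lit 452035) (.g (nat_lit 4374) (.e (nat_lit 2611) (nat_lit 163) (.e (nat_lit 163979) (nat_lit 30) (.e (nat_lit 573482) (nat_lit 13) (.e (nat_lit 65619) (nat_lit 10) (.e (nat_lit 344117) (nat_lit 21) (.e (nat_lit 516151) (nat_lit 9) (.e (nat_lit 426097) (nat_lit 1) (.e (nat_lit 164345) (nat_lit 240) .nil)))))))) (.g (nat_lit 1) (.e (nat_lit 21796) (nat_lit 0) .nil) .nil))) 
(.lf (nat_lit 452547) (.g (nat_lit 4205) (.e (nat_lit 2612) (nat_lit 163) (.e (nat_lit 163979) (nat_lit 30) (.e (nat_lit 573493) (nat_lit 15) (.e (nat_lit 81956) (nat_lit 23) (.e (nat_lit 98359) (nat_lit 26) (.e (nat_lit 426146) (nat_lit 4) (.e (nat_lit 229663) (nat_lit 240) .nil))))))) (.g (nat_lit 1) (.e (nat_lit 22810) (nat_lit 0) .nil) .nil))))))) 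
(.nd (nat_lit 6) (.nd (nat_lit 7) (.nd (nat_lit 8) (.nd (nat_lit 9) 
(.lf (nat_lit 451619) (.g (nat_lit 3325) (.e (nat_lit 2610) (nat_lit 163) (.e (nat_lit 163979) (nat_lit 30) (.e (nat_lit 573482) (nat_lit 13) (.e (nat_lit 65619) (nat_lit 10) (.e (nat_lit 344117) (nat_lit 21) (.e (nat_lit 516170) (nat_lit 13) (.e (nat_lit 458774) (nat_lit 18) (.e (nat_lit 5543) (nat_lit 306) .nil)))))))) (.g (nat_lit 1) (.e (nat_lit 20213) (nat_lit 0) .nil) .nil))) 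
(.lf (nat_lit 452131) (.g (nat_lit 2427) (.e (nat_lit 2612) (nat_lit 163) (.e (nat_lit 163977) (nat_lit 30) (.e (nat_lit 573489) (nat_lit 14) (.e (nat_lit 73754) (nat_lit 8) (.e (nat_lit 557095) (nat_lit 13) .nil))))) (.g (nat_lit 0) (.e (nat_lit 22250) (nat_lit 0) .nil) .nil)))) (.nd (nat_lit 9) 
(.lf (nat_lit 451875) (.g (nat_lit 2146) (.e (nat_lit 2610) (nat_lit 163) (.e (nat_lit 164401) (nat_lit 256) (.e (nat_lit 57373) (nat_lit 2) (.e (nat_lit 90174) (nat_lit 14) (.e (nat_lit 180243) (nat_lit 5) (.e (nat_lit 532515) (nat_lit 3) (.e (nat_lit 114716) (nat_lit 22) (.e (nat_lit 90121) (nat_lit 9) .nil)))))))) (.g (nat_lit 1) (.e (nat_lit 20953) (nat_lit 0) .nil) .nil))) 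
(.lf (nat_lit 452387) (.g (nat_lit 3118) (.e (nat_lit 2612) (nat_lit 163) (.e (nat_lit 163978) (nat_lit 30) (.e (nat_lit 573489) (nat_lit 14) (.e (nat_lit 73755) (nat_lit 8) (.e (nat_lit 557105) (nat_lit 14) (.e (nat_lit 180245) (nat_lit 5) (.e (nat_lit 532499) (nat_lit 1) (.e (nat_lit 57652) (nat_lit 152) .nil)))))))) (.g (nat_lit 1) (.e (nat_lit 22568) (nat_lit 0) .nil) .nil))))) 
(.nd (nat_lit 8) (.nd (nat_lit 9) 
(.lf (nat_lit 451747) (.g (nat_lit 6354) (.e (nat_lit 2610) (nat_lit 163) (.e (nat_lit 163979) (nat_lit 30) (.e (nat_lit 573493) (nat_lit 15) (.e (nat_lit 81953) (nat_lit 22) (.e (nat_lit 90185) (nat_lit 17) (.e (nat_lit 237584) (nat_lit 1) (.e (nat_lit 164345) (nat_lit 240) .nil))))))) (.g (nat_lit 1) (.e (nat_lit 20431) (nat_lit 0) .nil) .nil))) 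
(.lf (nat_lit 452259) (.g (nat_lit 4819) (.e (nat_lit 2612) (nat_lit 163) (.e (nat_lit 163978) (nat_lit 30) (.e (nat_lit 573487) (nat_lit 14) (.e (nat_lit 73753) (nat_lit 8) (.e (nat_lit 557096) (nat_lit 13) (.e (nat_lit 172133) (nat_lit 15) (.e (nat_lit 1800) (nat_lit 119) (.e (nat_lit 516117) (nat_lit 1) (.e (nat_lit 164304) (nat_lit 226) .nil))))))))) (.g (nat_lit 1) (.e (nat_lit 22420) (nat_lit 0) .nil) .nil)))) 
(.nd (nat_lit 9) 
(.lf (nat_lit 452003) (.g (nat_lit 2460) (.e (nat_lit 2611) (nat_lit 163) (.e (nat_lit 163978) (nat_lit 30) (.e (nat_lit 573485) (nat_lit 13) (.e (nat_lit 65619) (nat_lit 10) (.e (nat_lit 344117) (nat_lit 21) (.e (nat_lit 516153) (nat_lit 9) (.e (nat_lit 426109) (nat_lit 1) (.e (nat_lit 164346) (nat_lit 240) .nil)))))))) (.g (nat_lit 1) (.e (nat_lit 21450) (nat_lit 0) .nil) .nil))) 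
(.lf (nat_lit 452515) (.g (nat_lit 4848) (.e (nat_lit 2612) (nat_lit 163) (.e (nat_lit 163979) (nat_lit 30) (.e (nat_lit 573493) (nat_lit 15) (.e (nat_lit 81951) (nat_lit 22) (.e (nat_lit 90170) (nat_lit 13) (.e (nat_lit 172070) (nat_lit 4) (.e (nat_lit 229666) (nat_lit 240) .nil))))))) (.g (nat_lit 1) (.e (nat_lit 22772) (nat_lit 0) .nil) .nil)))))) 
(.nd (nat_lit 7) (.nd (nat_lit 8) (.nd (nat_lit 9) 
(.lf (nat_lit 451683) (.g (nat_lit 3064) (.e (nat_lit 2610) (nat_lit 163) (.e (nat_lit 163979) (nat_lit 30) (.e (nat_lit 573492) (nat_lit 15) (.e (nat_lit 81956) (nat_lit 23) (.e (nat_lit 98354) (nat_lit 26) .nil))))) (.g (nat_lit 0) (.e (nat_lit 20333) (nat_lit 0) .nil) .nil))) 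
(.lf (nat_lit 452195) (.g (nat_lit 3186) (.e (nat_lit 2612) (nat_lit 163) (.e (nat_lit 163977) (nat_lit 30) (.e (nat_lit 573493) (nat_lit 15) (.e (nat_lit 81956) (nat_lit 23) (.e (nat_lit 98360) (nat_lit 26) (.e (nat_lit 426144) (nat_lit 4) (.e (nat_lit 229665) (nat_lit 240) .nil))))))) (.g (nat_lit 1) (.e (nat_lit 22335) (nat_lit 0) .nil) .nil)))) (.nd (nat_lit 9) 
(.lf (nat_lit 451939) (.g (nat_lit 2688) (.e (nat_lit 2611) (nat_lit 163) (.e (nat_lit 163978) (nat_lit 30) (.e (nat_lit 573479) (nat_lit 13) (.e (nat_lit 65604) (nat_lit 9) (.e (nat_lit 336028) (nat_lit 3) .nil))))) (.g (nat_lit 0) (.e (nat_lit 21322) (nat_lit 0) .nil) .nil))) 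
(.lf (nat_lit 452451) (.g (nat_lit 3255) (.e (nat_lit 2612) (nat_lit 163) (.e (nat_lit 163979) (nat_lit 30) (.e (nat_lit 573488) (nat_lit 14) (.e (nat_lit 73755) (nat_lit 8) (.e (nat_lit 557098) (nat_lit 13) (.e (nat_lit 172133) (nat_lit 15) (.e (nat_lit 1800) (nat_lit 119) (.e (nat_lit 516120) (nat_lit 1) (.e (nat_lit 164304) (nat_lit 226) .nil))))))))) (.g (nat_lit 1) (.e (nat_lit 22681) (nat_lit 0) .nil) .nil))))) 
(.nd (nat_lit 8) (.nd (nat_lit 9) 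
(.lf (nat_lit 451811) (.g (nat_lit 4573) (.e (nat_lit 2610) (nat_lit 163) (.e (nat_lit 163979) (nat_lit 30) (.e (nat_lit 573493) (nat_lit 15) (.e (nat_lit 81956) (nat_lit 23) (.e (nat_lit 98362) (nat_lit 26) (.e (nat_lit 426109) (nat_lit 1) (.e (nat_lit 164346) (nat_lit 240) .nil))))))) (.g (nat_lit 1) (.e (nat_lit 20540) (nat_lit 0) .nil) .nil))) 
(.lf (nat_lit 452323) (.g (nat_lit 6309) (.e (nat_lit 2612) (nat_lit 163) (.e (nat_lit 163978) (nat_lit 30) (.e (nat_lit 573489) (nat_lit 14) (.e (nat_lit 73755) (nat_lit 8) (.e (nat_lit 557096) (nat_lit 13) (.e (nat_lit 172133) (nat_lit 15) (.e (nat_lit 1800) (nat_lit 119) (.e (nat_lit 516120) (nat_lit 1) (.e (nat_lit 164304) (nat_lit 226) .nil))))))))) (.g (nat_lit 1) (.e (nat_lit 22504) (nat_lit 0) .nil) .nil)))) 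
(.nd (nat_lit 9) 
(.lf (nat_lit 452067) (.g (nat_lit 1957) (.e (nat_lit 2611) (nat_lit 163) (.e (nat_lit 164402) (nat_lit 256) (.e (nat_lit 57377) (nat_lit 3) (.e (nat_lit 98376) (nat_lit 30) (.e (nat_lit 458789) (nat_lit 23) (.e (nat_lit 532515) (nat_lit 3) (.e (nat_lit 114716) (nat_lit 22) (.e (nat_lit 90140) (nat_lit 9) .nil)))))))) (.g (nat_lit 1) (.e (nat_lit 22156) (nat_lit 0) .nil) .nil))) 
(.lf (nat_lit 452579) (.g (nat_lit 2266) (.e (nat_lit 2612) (nat_lit 163) (.e (nat_lit 164326) (nat_lit 230) (.e (nat_lit 163904) (nat_lit 12) (.e (nat_lit 426566) (nat_lit 34) (.e (nat_lit 393271) (nat_lit 23) (.e (nat_lit 426428) (nat_lit 17) (.e (nat_lit 90130) (nat_lit 9) .nil))))))) (.g (nat_lit 1) (.e (nat_lit 23028) (nat_lit 0) .nil) .nil)))))))) 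
(.nd (nat_lit 5) (.nd (nat_lit 6) (.nd (nat_lit 7) (.nd (nat_lit 8) (.nd (nat_lit 9) 
(.lf (nat_lit 451603) (.g (nat_lit 2767) (.e (nat_lit 2610) (nat_lit 163) (.e (nat_lit 163979) (nat_lit 30) (.e (nat_lit 573482) (nat_lit 13) (.e (nat_lit 65619) (nat_lit 10) (.e (nat_lit 344117) (nat_lit 21) (.e (nat_lit 516153) (nat_lit 9) (.e (nat_lit 426109) (nat_lit 1) (.e (nat_lit 164346) (nat_lit 240) .nil)))))))) (.g (nat_lit 1) (.e (nat_lit 20197) (nat_lit 0) .nil) .nil))) 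
(.lf (nat_lit 452115) (.g (nat_lit 3017) (.e (nat_lit 2612) (nat_lit 163) (.e (nat_lit 163977) (nat_lit 30) (.e (nat_lit 573485) (nat_lit 13) (.e (nat_lit 65619) (nat_lit 10) (.e (nat_lit 344117) (nat_lit 21) (.e (nat_lit 516151) (nat_lit 9) (.e (nat_lit 426142) (nat_lit 4) (.e (nat_lit 229665) (nat_lit 240) .nil)))))))) (.g (nat_lit 1) (.e (nat_lit 22233) (nat_lit 0) .nil) .nil)))) 
(.nd (nat_lit 9) 
(.lf (nat_lit 451859) (.g (nat_lit 2952) (.e (nat_lit 2610) (nat_lit 163) (.e (nat_lit 164326) (nat_lit 230) (.e (nat_lit 163903) (nat_lit 12) (.e (nat_lit 426472) (nat_lit 25) (.e (nat_lit 319534) (nat_lit 16) (.e (nat_lit 286756) (nat_lit 10) (.e (nat_lit 344174) (nat_lit 42) (.e (nat_lit 761885) (nat_lit 13) .nil)))))))) (.g (nat_lit 1) (.e (nat_lit 20703) (nat_lit 0) .nil) .nil))) 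
(.lf (nat_lit 452371) (.g (nat_lit 4263) (.e (nat_lit 2612) (nat_lit 163) (.e (nat_lit 163978) (nat_lit 30) (.e (nat_lit 573489) (nat_lit 14) (.e (nat_lit 73755) (nat_lit 8) (.e (nat_lit 557098) (nat_lit 13) (.e (nat_lit 179968) (nat_lit 18) (.e (nat_lit 98334) (nat_lit 18) (.e (nat_lit 164304) (nat_lit 226) .nil)))))))) (.g (nat_lit 1) (.e (nat_lit 22552) (nat_lit 0) .nil) .nil))))) 
(.nd (nat_lit 8) (.nd (nat_lit 9) 
(.lf (nat_lit 451731) (.g (nat_lit 4569) (.e (nat_lit 2610) (nat_lit 163) (.e (nat_lit 163979) (nat_lit 30) (.e (nat_lit 573493) (nat_lit 15) (.e (nat_lit 81953) (nat_lit 22) (.e (nat_lit 90170) (nat_lit 13) (.e (nat_lit 172059) (nat_lit 1) (.e (nat_lit 164345) (nat_lit 240) .nil))))))) (.g (nat_lit 1) (.e (nat_lit 20415) (nat_lit 0) .nil) .nil))) 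
(.lf (nat_lit 452243) (.g (nat_lit 3928) (.e (nat_lit 2612) (nat_lit 163) (.e (nat_lit 163978) (nat_lit 30) (.e (nat_lit 573485) (nat_lit 13) (.e (nat_lit 65604) (nat_lit 9) (.e (nat_lit 336028) (nat_lit 3) (.e (nat_lit 98367) (nat_lit 27) (.e (nat_lit 434215) (nat_lit 18) (.e (nat_lit 5448) (nat_lit 306) .nil)))))))) (.g (nat_lit 1) (.e (nat_lit 22398) (nat_lit 0) .nil) .nil)))) (.nd (nat_lit 9) 
(.lf (nat_lit 451987) (.g (nat_lit 5299) (.e (nat_lit 2611) (nat_lit 163) (.e (nat_lit 163978) (nat_lit 30) (.e (nat_lit 573485) (nat_lit 13) (.e (nat_lit 65604) (nat_lit 9) (.e (nat_lit 336028) (nat_lit 3) (.e (nat_lit 98366) (nat_lit 27) (.e (nat_lit 434209) (nat_lit 18) (.e (nat_lit 5548) (nat_lit 306) .nil)))))))) (.g (nat_lit 1) (.e (nat_lit 21432) (nat_lit 0) .nil) .nil))) 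
(.lf (nat_lit 452499) (.g (nat_lit 2772) (.e (nat_lit 2612) (nat_lit 163) (.e (nat_lit 163979) (nat_lit 30) (.e (nat_lit 573492) (nat_lit 15) (.e (nat_lit 81956) (nat_lit 23) (.e (nat_lit 98356) (nat_lit 26) .nil))))) (.g (nat_lit 0) (.e (nat_lit 22746) (nat_lit 0) .nil) .nil)))))) (.nd (nat_lit 7) (.nd (nat_lit 8) (.nd (nat_lit 9) 
(.lf (nat_lit 451667) (.g (nat_lit 3937) (.e (nat_lit 2610) (nat_lit 163) (.e (nat_lit 163979) (nat_lit 30) (.e (nat_lit 573491) (nat_lit 15) (.e (nat_lit 81954) (nat_lit 23) (.e (nat_lit 98365) (nat_lit 26) (.e (nat_lit 426108) (nat_lit 1) (.e (nat_lit 164345) (nat_lit 240) .nil))))))) (.g (nat_lit 1) (.e (nat_lit 20295) (nat_lit 0) .nil) .nil))) 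
(.lf (nat_lit 452179) (.g (nat_lit 2174) (.e (nat_lit 2612) (nat_lit 163) (.e (nat_lit 163977) (nat_lit 30) (.e (nat_lit 573493) (nat_lit 15) (.e (nat_lit 81953) (nat_lit 22) (.e (nat_lit 90170) (nat_lit 13) .nil))))) (.g (nat_lit 0) (.e (nat_lit 22316) (nat_lit 0) .nil) .nil)))) (.nd (nat_lit 9) 
(.lf (nat_lit 451923) (.g (nat_lit 3777) (.e (nat_lit 2611) (nat_lit 163) (.e (nat_lit 163977) (nat_lit 30) (.e (nat_lit 573485) (nat_lit 13) (.e (nat_lit 65604) (nat_lit 9) (.e (nat_lit 336013) (nat_lit 2) (.e (nat_lit 90170) (nat_lit 13) (.e (nat_lit 172061) (nat_lit 1) (.e (nat_lit 164346) (nat_lit 240) .nil)))))))) (.g (nat_lit 1) (.e (nat_lit 21041) (nat_lit 0) .nil) .nil))) 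
(.lf (nat_lit 452435) (.g (nat_lit 2616) (.e (nat_lit 2612) (nat_lit 163) (.e (nat_lit 163979) (nat_lit 30) (.e (nat_lit 573487) (nat_lit 14) (.e (nat_lit 73753) (nat_lit 8) (.e (nat_lit 557098) (nat_lit 13) (.e (nat_lit 172136) (nat_lit 15) (.e (nat_lit 1800) (nat_lit 119) (.e (nat_lit 516117) (nat_lit 1) (.e (nat_lit 164305) (nat_lit 226) .nil))))))))) (.g (nat_lit 1) (.e (nat_lit 22665) (nat_lit 0) .nil) .nil))))) 
(.nd (nat_lit 8) (.nd (nat_lit 9) 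
(.lf (nat_lit 451795) (.g (nat_lit 4620) (.e (nat_lit 2610) (nat_lit 163) (.e (nat_lit 163979) (nat_lit 30) (.e (nat_lit 573493) (nat_lit 15) (.e (nat_lit 81956) (nat_lit 23) (.e (nat_lit 98359) (nat_lit 26) (.e (nat_lit 426097) (nat_lit 1) (.e (nat_lit 164347) (nat_lit 240) .nil))))))) (.g (nat_lit 1) (.e (nat_lit 20524) (nat_lit 0) .nil) .nil))) 
(.lf (nat_lit 452307) (.g (nat_lit 4937) (.e (nat_lit 2612) (nat_lit 163) (.e (nat_lit 163978) (nat_lit 30) (.e (nat_lit 573489) (nat_lit 14) (.e (nat_lit 73754) (nat_lit 8) (.e (nat_lit 557100) (nat_lit 13) (.e (nat_lit 172138) (nat_lit 15) (.e (nat_lit 1800) (nat_lit 119) (.e (nat_lit 516120) (nat_lit 1) (.e (nat_lit 164304) (nat_lit 226) .nil))))))))) (.g (nat_lit 1) (.e (nat_lit 22475) (nat_lit 0) .nil) .nil)))) 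
(.nd (nat_lit 9) 
(.lf (nat_lit 452051) (.g (nat_lit 4794) (.e (nat_lit 2611) (nat_lit 163) (.e (nat_lit 163979) (nat_lit 30) (.e (nat_lit 573482) (nat_lit 13) (.e (nat_lit 65619) (nat_lit 10) (.e (nat_lit 344117) (nat_lit 21) (.e (nat_lit 516170) (nat_lit 13) (.e (nat_lit 458774) (nat_lit 18) (.e (nat_lit 5548) (nat_lit 306) .nil)))))))) (.g (nat_lit 1) (.e (nat_lit 21812) (nat_lit 0) .nil) .nil))) 
(.lf (nat_lit 452563) (.g (nat_lit 2213) (.e (nat_lit 2612) (nat_lit 163) (.e (nat_lit 164326) (nat_lit 230) (.e (nat_lit 163903) (nat_lit 12) (.e (nat_lit 426428) (nat_lit 17) (.e (nat_lit 90170) (nat_lit 13) (.e (nat_lit 172113) (nat_lit 10) (.e (nat_lit 434203) (nat_lit 18) (.e (nat_lit 6736) (nat_lit 365) (.e (nat_lit 2433) (nat_lit 157) .nil))))))))) (.g (nat_lit 1) (.e (nat_lit 23008) (nat_lit 0) .nil) .nil))))))) 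
(.nd (nat_lit 6) (.nd (nat_lit 7) (.nd (nat_lit 8) (.nd (nat_lit 9) 
(.lf (nat_lit 451635) (.g (nat_lit 3501) (.e (nat_lit 2610) (nat_lit 163) (.e (nat_lit 163979) (nat_lit 30) (.e (nat_lit 573491) (nat_lit 15) (.e (nat_lit 81951) (nat_lit 22) (.e (nat_lit 90170) (nat_lit 13) (.e (nat_lit 172059) (nat_lit 1) (.e (nat_lit 164346) (nat_lit 240) .nil))))))) (.g (nat_lit 1) (.e (nat_lit 20257) (nat_lit 0) .nil) .nil))) 
(.lf (nat_lit 452147) (.g (nat_lit 2899) (.e (nat_lit 2612) (nat_lit 163) (.e (nat_lit 163977) (nat_lit 30) (.e (nat_lit 573491) (nat_lit 15) (.e (nat_lit 81951) (nat_lit 22) (.e (nat_lit 90170) (nat_lit 13) (.e (nat_lit 172070) (nat_lit 4) (.e (nat_lit 229665) (nat_lit 240) .nil))))))) (.g (nat_lit 1) (.e (nat_lit 22269) (nat_lit 0) .nil) .nil)))) (.nd (nat_lit 9) 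
(.lf (nat_lit 451891) (.g (nat_lit 2998) (.e (nat_lit 2610) (nat_lit 163) (.e (nat_lit 164403) (nat_lit 256) (.e (nat_lit 57378) (nat_lit 3) (.e (nat_lit 98366) (nat_lit 27) (.e (nat_lit 434231) (nat_lit 23) (.e (nat_lit 532514) (nat_lit 3) (.e (nat_lit 114716) (nat_lit 22) (.e (nat_lit 90140) (nat_lit 9) .nil)))))))) (.g (nat_lit 1) (.e (nat_lit 20969) (nat_lit 0) .nil) .nil))) 
(.lf (nat_lit 452403) (.g (nat_lit 2688) (.e (nat_lit 2612) (nat_lit 163) (.e (nat_lit 163979) (nat_lit 30) (.e (nat_lit 573482) (nat_lit 13) (.e (nat_lit 65604) (nat_lit 9) (.e (nat_lit 336028) (nat_lit 3) (.e (nat_lit 98360) (nat_lit 26) (.e (nat_lit 426144) (nat_lit 4) (.e (nat_lit 229663) (nat_lit 240) .nil)))))))) (.g (nat_lit 1) (.e (nat_lit 22627) (nat_lit 0) .nil) .nil))))) 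
(.nd (nat_lit 8) (.nd (nat_lit 9) 
(.lf (nat_lit 451763) (.g (nat_lit 3670) (.e (nat_lit 2610) (nat_lit 163) (.e (nat_lit 163979) (nat_lit 30) (.e (nat_lit 573493) (nat_lit 15) (.e (nat_lit 81954) (nat_lit 23) (.e (nat_lit 98359) (nat_lit 26) (.e (nat_lit 426104) (nat_lit 1) (.e (nat_lit 164348) (nat_lit 240) .nil))))))) (.g (nat_lit 1) (.e (nat_lit 20449) (nat_lit 0) .nil) .nil))) 
(.lf (nat_lit 452275) (.g (nat_lit 3573) (.e (nat_lit 2612) (nat_lit 163) (.e (nat_lit 163978) (nat_lit 30) (.e (nat_lit 573487) (nat_lit 14) (.e (nat_lit 73753) (nat_lit 8) (.e (nat_lit 557098) (nat_lit 13) (.e (nat_lit 172136) (nat_lit 15) (.e (nat_lit 1800) (nat_lit 119) (.e (nat_lit 516117) (nat_lit 1) (.e (nat_lit 164305) (nat_lit 226) .nil))))))))) (.g (nat_lit 1) (.e (nat_lit 22439) (nat_lit 0) .nil) .nil)))) 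
(.nd (nat_lit 9) 
(.lf (nat_lit 452019) (.g (nat_lit 4352) (.e (nat_lit 2611) (nat_lit 163) (.e (nat_lit 163979) (nat_lit 30) (.e (nat_lit 573482) (nat_lit 13) (.e (nat_lit 65604) (nat_lit 9) (.e (nat_lit 336013) (nat_lit 2) (.e (nat_lit 90170) (nat_lit 13) (.e (nat_lit 172059) (nat_lit 1) (.e (nat_lit 164345) (nat_lit 240) .nil)))))))) (.g (nat_lit 1) (.e (nat_lit 21768) (nat_lit 0) .nil) .nil))) 
(.lf (nat_lit 452531) (.g (nat_lit 4037) (.e (nat_lit 2612) (nat_lit 163) (.e (nat_lit 163979) (nat_lit 30) (.e (nat_lit 573493) (nat_lit 15) (.e (nat_lit 81953) (nat_lit 22) (.e (nat_lit 90172) (nat_lit 14) (.e (nat_lit 180232) (nat_lit 0) (.e (nat_lit 5448) (nat_lit 306) .nil))))))) (.g (nat_lit 1) (.e (nat_lit 22789) (nat_lit 0) .nil) .nil)))))) 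
(.nd (nat_lit 7) (.nd (nat_lit 8) (.nd (nat_lit 9) 
(.lf (nat_lit 451699) (.g (nat_lit 3187) (.e (nat_lit 2610) (nat_lit 163) (.e (nat_lit 163979) (nat_lit 30) (.e (nat_lit 573492) (nat_lit 15) (.e (nat_lit 81956) (nat_lit 23) (.e (nat_lit 98377) (nat_lit 30) (.e (nat_lit 458774) (nat_lit 18) (.e (nat_lit 5543) (nat_lit 306) .nil))))))) (.g (nat_lit 1) (.e (nat_lit 20352) (nat_lit 0) .nil) .nil))) 
(.lf (nat_lit 452211) (.g (nat_lit 2340) (.e (nat_lit 2612) (nat_lit 163) (.e (nat_lit 163978) (nat_lit 30) (.e (nat_lit 573484) (nat_lit 13) (.e (nat_lit 65610) (nat_lit 10) (.e (nat_lit 344117) (nat_lit 21) (.e (nat_lit 516143) (nat_lit 9) (.e (nat_lit 426142) (nat_lit 4) (.e (nat_lit 229666) (nat_lit 240) .nil)))))))) (.g (nat_lit 1) (.e (nat_lit 22363) (nat_lit 0) .nil) .nil)))) 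
(.nd (nat_lit 9) 
(.lf (nat_lit 451955) (.g (nat_lit 4530) (.e (nat_lit 2611) (nat_lit 163) (.e (nat_lit 163978) (nat_lit 30) (.e (nat_lit 573479) (nat_lit 13) (.e (nat_lit 65619) (nat_lit 10) (.e (nat_lit 344117) (nat_lit 21) (.e (nat_lit 516151) (nat_lit 9) (.e (nat_lit 426097) (nat_lit 1) (.e (nat_lit 164347) (nat_lit 240) .nil)))))))) (.g (nat_lit 1) (.e (nat_lit 21340) (nat_lit 0) .nil) .nil))) 
(.lf (nat_lit 452467) (.g (nat_lit 4156) (.e (nat_lit 2612) (nat_lit 163) (.e (nat_lit 163979) (nat_lit 30) (.e (nat_lit 573489) (nat_lit 14) (.e (nat_lit 73755) (nat_lit 8) (.e (nat_lit 557098) (nat_lit 13) (.e (nat_lit 172133) (nat_lit 15) (.e (nat_lit 1800) (nat_lit 119) (.e (nat_lit 516120) (nat_lit 1) (.e (nat_lit 164305) (nat_lit 226) .nil))))))))) (.g (nat_lit 1) (.e (nat_lit 22701) (nat_lit 0) .nil) .nil))))) 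
(.nd (nat_lit 8) (.nd (nat_lit 9) 
(.lf (nat_lit 451827) (.g (nat_lit 4129) (.e (nat_lit 2610) (nat_lit 163) (.e (nat_lit 163979) (nat_lit 30) (.e (nat_lit 573493) (nat_lit 15) (.e (nat_lit 81956) (nat_lit 23) (.e (nat_lit 98366) (nat_lit 27) (.e (nat_lit 434202) (nat_lit 18) (.e (nat_lit 5537) (nat_lit 306) .nil))))))) (.g (nat_lit 1) (.e (nat_lit 20556) (nat_lit 0) .nil) .nil))) 
(.lf (nat_lit 452339) (.g (nat_lit 5335) (.e (nat_lit 2612) (nat_lit 163) (.e (nat_lit 163978) (nat_lit 30) (.e (nat_lit 573489) (nat_lit 14) (.e (nat_lit 73755) (nat_lit 8) (.e (nat_lit 557097) (nat_lit 13) (.e (nat_lit 172133) (nat_lit 15) (.e (nat_lit 1800) (nat_lit 119) (.e (nat_lit 516120) (nat_lit 1) (.e (nat_lit 164305) (nat_lit 226) .nil))))))))) (.g (nat_lit 1) (.e (nat_lit 22520) (nat_lit 0) .nil) .nil)))) 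
(.nd (nat_lit 9) 
(.lf (nat_lit 452083) (.g (nat_lit 4305) (.e (nat_lit 2612) (nat_lit 163) (.e (nat_lit 163964) (nat_lit 25) (.e (nat_lit 532513) (nat_lit 3) (.e (nat_lit 114714) (nat_lit 22) (.e (nat_lit 90172) (nat_lit 14) (.e (nat_lit 180244) (nat_lit 5) (.e (nat_lit 532503) (nat_lit 1) (.e (nat_lit 57659) (nat_lit 152) .nil)))))))) (.g (nat_lit 1) (.e (nat_lit 22184) (nat_lit 0) .nil) .nil))) 
(.lf (nat_lit 452595) (.g (nat_lit 2434) (.e (nat_lit 2612) (nat_lit 163) (.e (nat_lit 164403) (nat_lit 256) (.e (nat_lit 57371) (nat_lit 2) (.e (nat_lit 90174) (nat_lit 14) (.e (nat_lit 180243) (nat_lit 5) (.e (nat_lit 532513) (nat_lit 3) (.e (nat_lit 114714) (nat_lit 22) (.e (nat_lit 90134) (nat_lit 9) .nil)))))))) (.g (nat_lit 1) (.e (nat_lit 23279) (nat_lit 0) .nil) .nil))))))))) 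
(.nd (nat_lit 4) (.nd (nat_lit 5) (.nd (nat_lit 6) (.nd (nat_lit 7) (.nd (nat_lit 8) 
(.nd (nat_lit 9) 
(.lf (nat_lit 451595) (.g (nat_lit 5980) (.e (nat_lit 2610) (nat_lit 163) (.e (nat_lit 163979) (nat_lit 30) (.e (nat_lit 573482) (nat_lit 13) (.e (nat_lit 65619) (nat_lit 10) (.e (nat_lit 344117) (nat_lit 21) (.e (nat_lit 516151) (nat_lit 9) (.e (nat_lit 426104) (nat_lit 1) (.e (nat_lit 164345) (nat_lit 240) .nil)))))))) (.g (nat_lit 1) (.e (nat_lit 20189) (nat_lit 0) .nil) .nil))) 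
(.lf (nat_lit 452107) (.g (nat_lit 2378) (.e (nat_lit 2612) (nat_lit 163) (.e (nat_lit 163977) (nat_lit 30) (.e (nat_lit 573484) (nat_lit 13) (.e (nat_lit 65610) (nat_lit 10) (.e (nat_lit 344117) (nat_lit 21) (.e (nat_lit 516159) (nat_lit 10) (.e (nat_lit 434215) (nat_lit 18) (.e (nat_lit 5448) (nat_lit 306) .nil)))))))) (.g (nat_lit 1) (.e (nat_lit 22225) (nat_lit 0) .nil) .nil)))) 
(.nd (nat_lit 9) 
(.lf (nat_lit 451851) (.g (nat_lit 3005) (.e (nat_lit 2610) (nat_lit 163) (.e (nat_lit 163979) (nat_lit 30) (.e (nat_lit 573493) (nat_lit 15) (.e (nat_lit 81956) (nat_lit 23) (.e (nat_lit 98368) (nat_lit 27) (.e (nat_lit 434211) (nat_lit 18) (.e (nat_lit 5547) (nat_lit 306) .nil))))))) (.g (nat_lit 1) (.e (nat_lit 20580) (nat_lit 0) .nil) .nil))) 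
(.lf (nat_lit 452363) (.g (nat_lit 5677) (.e (nat_lit 2612) (nat_lit 163) (.e (nat_lit 163978) (nat_lit 30) (.e (nat_lit 573489) (nat_lit 14) (.e (nat_lit 73755) (nat_lit 8) (.e (nat_lit 557098) (nat_lit 13) (.e (nat_lit 172136) (nat_lit 15) (.e (nat_lit 1800) (nat_lit 119) (.e (nat_lit 516120) (nat_lit 1) (.e (nat_lit 164304) (nat_lit 226) .nil))))))))) (.g (nat_lit 1) (.e (nat_lit 22544) (nat_lit 0) .nil) .nil))))) 
(.nd (nat_lit 8) (.nd (nat_lit 9) 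
(.lf (nat_lit 451723) (.g (nat_lit 4522) (.e (nat_lit 2610) (nat_lit 163) (.e (nat_lit 163979) (nat_lit 30) (.e (nat_lit 573493) (nat_lit 15) (.e (nat_lit 81951) (nat_lit 22) (.e (nat_lit 90185) (nat_lit 17) (.e (nat_lit 237584) (nat_lit 1) (.e (nat_lit 164345) (nat_lit 240) .nil))))))) (.g (nat_lit 1) (.e (nat_lit 20392) (nat_lit 0) .nil) .nil))) 
(.lf (nat_lit 452235) (.g (nat_lit 4954) (.e (nat_lit 2612) (nat_lit 163) (.e (nat_lit 163978) (nat_lit 30) (.e (nat_lit 573485) (nat_lit 13) (.e (nat_lit 65604) (nat_lit 9) (.e (nat_lit 336013) (nat_lit 2) (.e (nat_lit 90170) (nat_lit 13) (.e (nat_lit 172070) (nat_lit 4) (.e (nat_lit 229665) (nat_lit 240) .nil)))))))) (.g (nat_lit 1) (.e (nat_lit 22389) (nat_lit 0) .nil) .nil)))) 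
(.nd (nat_lit 9) 
(.lf (nat_lit 451979) (.g (nat_lit 4640) (.e (nat_lit 2611) (nat_lit 163) (.e (nat_lit 163978) (nat_lit 30) (.e (nat_lit 573485) (nat_lit 13) (.e (nat_lit 65604) (nat_lit 9) (.e (nat_lit 336013) (nat_lit 2) (.e (nat_lit 90170) (nat_lit 13) (.e (nat_lit 172061) (nat_lit 1) (.e (nat_lit 164345) (nat_lit 240) .nil)))))))) (.g (nat_lit 1) (.e (nat_lit 21407) (nat_lit 0) .nil) .nil))) 
(.lf (nat_lit 452491) (.g (nat_lit 2809) (.e (nat_lit 2612) (nat_lit 163) (.e (nat_lit 163979) (nat_lit 30) (.e (nat_lit 573491) (nat_lit 15) (.e (nat_lit 81954) (nat_lit 23) (.e (nat_lit 98360) (nat_lit 26) (.e (nat_lit 426144) (nat_lit 4) (.e (nat_lit 229663) (nat_lit 240) .nil))))))) (.g (nat_lit 1) (.e (nat_lit 22726) (nat_lit 0) .nil) .nil)))))) 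
(.nd (nat_lit 7) (.nd (nat_lit 8) (.nd (nat_lit 9) 
(.lf (nat_lit 451659) (.g (nat_lit 2768) (.e (nat_lit 2610) (nat_lit 163) (.e (nat_lit 163979) (nat_lit 30) (.e (nat_lit 573491) (nat_lit 15) (.e (nat_lit 81954) (nat_lit 23) (.e (nat_lit 98362) (nat_lit 26) (.e (nat_lit 426103) (nat_lit 1) (.e (nat_lit 164348) (nat_lit 240) .nil))))))) (.g (nat_lit 1) (.e (nat_lit 20287) (nat_lit 0) .nil) .nil))) 
(.lf (nat_lit 452171) (.g (nat_lit 5382) (.e (nat_lit 2612) (nat_lit 163) (.e (nat_lit 163977) (nat_lit 30) (.e (nat_lit 573493) (nat_lit 15) (.e (nat_lit 81951) (nat_lit 22) (.e (nat_lit 90170) (nat_lit 13) (.e (nat_lit 172069) (nat_lit 4) (.e (nat_lit 229663) (nat_lit 240) .nil))))))) (.g (nat_lit 1) (.e (nat_lit 22305) (nat_lit 0) .nil) .nil)))) (.nd (nat_lit 9) 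
(.lf (nat_lit 451915) (.g (nat_lit 3654) (.e (nat_lit 2611) (nat_lit 163) (.e (nat_lit 163977) (nat_lit 30) (.e (nat_lit 573482) (nat_lit 13) (.e (nat_lit 65619) (nat_lit 10) (.e (nat_lit 344117) (nat_lit 21) (.e (nat_lit 516169) (nat_lit 13) (.e (nat_lit 458774) (nat_lit 18) (.e (nat_lit 5548) (nat_lit 306) .nil)))))))) (.g (nat_lit 1) (.e (nat_lit 21014) (nat_lit 0) .nil) .nil))) 
(.lf (nat_lit 452427) (.g (nat_lit 2787) (.e (nat_lit 2612) (nat_lit 163) (.e (nat_lit 163979) (nat_lit 30) (.e (nat_lit 573487) (nat_lit 14) (.e (nat_lit 73753) (nat_lit 8) (.e (nat_lit 557097) (nat_lit 13) (.e (nat_lit 172133) (nat_lit 15) (.e (nat_lit 1800) (nat_lit 119) (.e (nat_lit 516120) (nat_lit 1) (.e (nat_lit 164304) (nat_lit 226) .nil))))))))) (.g (nat_lit 1) (.e (nat_lit 22656) (nat_lit 0) .nil) .nil))))) 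
(.nd (nat_lit 8) (.nd (nat_lit 9) 
(.lf (nat_lit 451787) (.g (nat_lit 4107) (.e (nat_lit 2610) (nat_lit 163) (.e (nat_lit 163979) (nat_lit 30) (.e (nat_lit 573493) (nat_lit 15) (.e (nat_lit 81956) (nat_lit 23) (.e (nat_lit 98354) (nat_lit 26) (.e (nat_lit 426109) (nat_lit 1) (.e (nat_lit 164346) (nat_lit 240) .nil))))))) (.g (nat_lit 1) (.e (nat_lit 20501) (nat_lit 0) .nil) .nil))) 
(.lf (nat_lit 452299) (.g (nat_lit 2412) (.e (nat_lit 2612) (nat_lit 163) (.e (nat_lit 163978) (nat_lit 30) (.e (nat_lit 573489) (nat_lit 14) (.e (nat_lit 73754) (nat_lit 8) (.e (nat_lit 557095) (nat_lit 13) (.e (nat_lit 172065) (nat_lit 3) (.e (nat_lit 204830) (nat_lit 18) (.e (nat_lit 57663) (nat_lit 152) .nil)))))))) (.g (nat_lit 1) (.e (nat_lit 22467) (nat_lit 0) .nil) .nil)))) 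
(.nd (nat_lit 9) 
(.lf (nat_lit 452043) (.g (nat_lit 4478) (.e (nat_lit 2611) (nat_lit 163) (.e (nat_lit 163979) (nat_lit 30) (.e (nat_lit 573482) (nat_lit 13) (.e (nat_lit 65619) (nat_lit 10) (.e (nat_lit 344117) (nat_lit 21) (.e (nat_lit 516159) (nat_lit 10) (.e (nat_lit 434209) (nat_lit 18) (.e (nat_lit 5547) (nat_lit 306) .nil)))))))) (.g (nat_lit 1) (.e (nat_lit 21804) (nat_lit 0) .nil) .nil))) 
(.lf (nat_lit 452555) (.g (nat_lit 4831) (.e (nat_lit 2612) (nat_lit 163) (.e (nat_lit 163979) (nat_lit 30) (.e (nat_lit 573493) (nat_lit 15) (.e (nat_lit 81956) (nat_lit 23) (.e (nat_lit 98362) (nat_lit 26) (.e (nat_lit 426142) (nat_lit 4) (.e (nat_lit 229663) (nat_lit 240) .nil))))))) (.g (nat_lit 1) (.e (nat_lit 22818) (nat_lit 0) .nil) .nil))))))) 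
(.nd (nat_lit 6) (.nd (nat_lit 7) (.nd (nat_lit 8) (.nd (nat_lit 9) 
(.lf (nat_lit 451627) (.g (nat_lit 4590) (.e (nat_lit 2610) (nat_lit 163) (.e (nat_lit 163979) (nat_lit 30) (.e (nat_lit 573482) (nat_lit 13) (.e (nat_lit 65619) (nat_lit 10) (.e (nat_lit 344129) (nat_lit 26) (.e (nat_lit 557066) (nat_lit 9) (.e (nat_lit 232) (nat_lit 21) (.e (nat_lit 335997) (nat_lit 1) (.e (nat_lit 57772) (nat_lit 227) .nil))))))))) (.g (nat_lit 1) (.e (nat_lit 20223) (nat_lit 0) .nil) .nil))) 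
(.lf (nat_lit 452139) (.g (nat_lit 3268) (.e (nat_lit 2612) (nat_lit 163) (.e (nat_lit 163977) (nat_lit 30) (.e (nat_lit 573489) (nat_lit 14) (.e (nat_lit 73755) (nat_lit 8) (.e (nat_lit 557098) (nat_lit 13) (.e (nat_lit 172133) (nat_lit 15) (.e (nat_lit 1800) (nat_lit 119) (.e (nat_lit 516120) (nat_lit 1) (.e (nat_lit 164305) (nat_lit 226) .nil))))))))) (.g (nat_lit 1) (.e (nat_lit 22261) (nat_lit 0) .nil) .nil)))) 
(.nd (nat_lit 9) 
(.lf (nat_lit 451883) (.g (nat_lit 2302) (.e (nat_lit 2610) (nat_lit 163) (.e (nat_lit 164403) (nat_lit 256) (.e (nat_lit 57370) (nat_lit 2) (.e (nat_lit 90174) (nat_lit 14) (.e (nat_lit 180243) (nat_lit 5) (.e (nat_lit 532515) (nat_lit 3) (.e (nat_lit 114716) (nat_lit 22) (.e (nat_lit 90140) (nat_lit 9) .nil)))))))) (.g (nat_lit 1) (.e (nat_lit 20961) (nat_lit 0) .nil) .nil))) 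
(.lf (nat_lit 452395) (.g (nat_lit 3252) (.e (nat_lit 2612) (nat_lit 163) (.e (nat_lit 163979) (nat_lit 30) (.e (nat_lit 573482) (nat_lit 13) (.e (nat_lit 65604) (nat_lit 9) (.e (nat_lit 336013) (nat_lit 2) (.e (nat_lit 90170) (nat_lit 13) (.e (nat_lit 172068) (nat_lit 4) (.e (nat_lit 229664) (nat_lit 240) .nil)))))))) (.g (nat_lit 1) (.e (nat_lit 22619) (nat_lit 0) .nil) .nil))))) 
(.nd (nat_lit 8) (.nd (nat_lit 9) 
(.lf (nat_lit 451755) (.g (nat_lit 3674) (.e (nat_lit 2610) (nat_lit 163) (.e (nat_lit 163979) (nat_lit 30) (.e (nat_lit 573493) (nat_lit 15) (.e (nat_lit 81954) (nat_lit 23) (.e (nat_lit 98356) (nat_lit 26) (.e (nat_lit 433920) (nat_lit 1) (.e (nat_lit 164348) (nat_lit 240) .nil))))))) (.g (nat_lit 1) (.e (nat_lit 20439) (nat_lit 0) .nil) .nil))) 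
(.lf (nat_lit 452267) (.g (nat_lit 3976) (.e (nat_lit 2612) (nat_lit 163) (.e (nat_lit 163978) (nat_lit 30) (.e (nat_lit 573487) (nat_lit 14) (.e (nat_lit 73753) (nat_lit 8) (.e (nat_lit 557097) (nat_lit 13) (.e (nat_lit 179968) (nat_lit 18) (.e (nat_lit 98335) (nat_lit 18) (.e (nat_lit 164305) (nat_lit 226) .nil)))))))) (.g (nat_lit 1) (.e (nat_lit 22428) (nat_lit 0) .nil) .nil)))) 
(.nd (nat_lit 9) 
(.lf (nat_lit 452011) (.g (nat_lit 5498) (.e (nat_lit 2611) (nat_lit 163) (.e (nat_lit 163978) (nat_lit 30) (.e (nat_lit 573485) (nat_lit 13) (.e (nat_lit 65619) (nat_lit 10) (.e (nat_lit 344117) (nat_lit 21) (.e (nat_lit 516160) (nat_lit 10) (.e (nat_lit 434209) (nat_lit 18) (.e (nat_lit 5548) (nat_lit 306) .nil)))))))) (.g (nat_lit 1) (.e (nat_lit 21458) (nat_lit 0) .nil) .nil))) 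
(.lf (nat_lit 452523) (.g (nat_lit 2577) (.e (nat_lit 2612) (nat_lit 163) (.e (nat_lit 163979) (nat_lit 30) (.e (nat_lit 573493) (nat_lit 15) (.e (nat_lit 81953) (nat_lit 22) (.e (nat_lit 90170) (nat_lit 13) (.e (nat_lit 172069) (nat_lit 4) (.e (nat_lit 229664) (nat_lit 240) .nil))))))) (.g (nat_lit 1) (.e (nat_lit 22781) (nat_lit 0) .nil) .nil)))))) 
(.nd (nat_lit 7) (.nd (nat_lit 8) (.nd (nat_lit 9) 
(.lf (nat_lit 451691) (.g (nat_lit 4153) (.e (nat_lit 2610) (nat_lit 163) (.e (nat_lit 163979) (nat_lit 30) (.e (nat_lit 573492) (nat_lit 15) (.e (nat_lit 81956) (nat_lit 23) (.e (nat_lit 98358) (nat_lit 26) .nil))))) (.g (nat_lit 0) (.e (nat_lit 20344) (nat_lit 0) .nil) .nil))) 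
(.lf (nat_lit 452203) (.g (nat_lit 4359) (.e (nat_lit 2612) (nat_lit 163) (.e (nat_lit 163977) (nat_lit 30) (.e (nat_lit 573493) (nat_lit 15) (.e (nat_lit 81956) (nat_lit 23) (.e (nat_lit 98368) (nat_lit 27) (.e (nat_lit 434216) (nat_lit 18) (.e (nat_lit 5448) (nat_lit 306) .nil))))))) (.g (nat_lit 1) (.e (nat_lit 22343) (nat_lit 0) .nil) .nil)))) (.nd (nat_lit 9) 
(.lf (nat_lit 451947) (.g (nat_lit 2072) (.e (nat_lit 2611) (nat_lit 163) (.e (nat_lit 163978) (nat_lit 30) (.e (nat_lit 573479) (nat_lit 13) (.e (nat_lit 65619) (nat_lit 10) .nil)))) (.g (nat_lit 0) (.e (nat_lit 21332) (nat_lit 0) .nil) .nil))) 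
(.lf (nat_lit 452459) (.g (nat_lit 3592) (.e (nat_lit 2612) (nat_lit 163) (.e (nat_lit 163979) (nat_lit 30) (.e (nat_lit 573489) (nat_lit 14) (.e (nat_lit 73755) (nat_lit 8) (.e (nat_lit 557096) (nat_lit 13) (.e (nat_lit 172133) (nat_lit 15) (.e (nat_lit 1800) (nat_lit 119) (.e (nat_lit 516120) (nat_lit 1) (.e (nat_lit 164305) (nat_lit 226) .nil))))))))) (.g (nat_lit 1) (.e (nat_lit 22693) (nat_lit 0) .nil) .nil))))) 
(.nd (nat_lit 8) (.nd (nat_lit 9) 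
(.lf (nat_lit 451819) (.g (nat_lit 6423) (.e (nat_lit 2610) (nat_lit 163) (.e (nat_lit 163979) (nat_lit 30) (.e (nat_lit 573493) (nat_lit 15) (.e (nat_lit 81956) (nat_lit 23) (.e (nat_lit 98365) (nat_lit 26) (.e (nat_lit 426098) (nat_lit 1) (.e (nat_lit 164348) (nat_lit 240) .nil))))))) (.g (nat_lit 1) (.e (nat_lit 20548) (nat_lit 0) .nil) .nil))) 
(.lf (nat_lit 452331) (.g (nat_lit 2856) (.e (nat_lit 2612) (nat_lit 163) (.e (nat_lit 163978) (nat_lit 30) (.e (nat_lit 573489) (nat_lit 14) (.e (nat_lit 73755) (nat_lit 8) (.e (nat_lit 557096) (nat_lit 13) (.e (nat_lit 179968) (nat_lit 18) (.e (nat_lit 98335) (nat_lit 18) (.e (nat_lit 164304) (nat_lit 226) .nil)))))))) (.g (nat_lit 1) (.e (nat_lit 22512) (nat_lit 0) .nil) .nil)))) 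
(.nd (nat_lit 9) 
(.lf (nat_lit 452075) (.g (nat_lit 3793) (.e (nat_lit 2611) (nat_lit 163) (.e (nat_lit 164403) (nat_lit 256) (.e (nat_lit 57373) (nat_lit 2) (.e (nat_lit 90174) (nat_lit 14) (.e (nat_lit 180243) (nat_lit 5) (.e (nat_lit 532515) (nat_lit 3) (.e (nat_lit 114716) (nat_lit 22) (.e (nat_lit 90121) (nat_lit 9) .nil)))))))) (.g (nat_lit 1) (.e (nat_lit 22164) (nat_lit 0) .nil) .nil))) 
(.lf (nat_lit 452587) (.g (nat_lit 4045) (.e (nat_lit 2612) (nat_lit 163) (.e (nat_lit 164402) (nat_lit 256) (.e (nat_lit 57371) (nat_lit 2) (.e (nat_lit 90174) (nat_lit 14) (.e (nat_lit 180243) (nat_lit 5) (.e (nat_lit 532515) (nat_lit 3) (.e (nat_lit 114716) (nat_lit 22) (.e (nat_lit 90130) (nat_lit 9) .nil)))))))) (.g (nat_lit 1) (.e (nat_lit 23271) (nat_lit 0) .nil) .nil)))))))) 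
(.nd (nat_lit 5) (.nd (nat_lit 6) (.nd (nat_lit 7) (.nd (nat_lit 8) (.nd (nat_lit 9) 
(.lf (nat_lit 451611) (.g (nat_lit 4654) (.e (nat_lit 2610) (nat_lit 163) (.e (nat_lit 163979) (nat_lit 30) (.e (nat_lit 573482) (nat_lit 13) (.e (nat_lit 65619) (nat_lit 10) (.e (nat_lit 344117) (nat_lit 21) (.e (nat_lit 516160) (nat_lit 10) (.e (nat_lit 434209) (nat_lit 18) (.e (nat_lit 5546) (nat_lit 306) .nil)))))))) (.g (nat_lit 1) (.e (nat_lit 20205) (nat_lit 0) .nil) .nil))) 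
(.lf (nat_lit 452123) (.g (nat_lit 3357) (.e (nat_lit 2612) (nat_lit 163) (.e (nat_lit 163977) (nat_lit 30) (.e (nat_lit 573487) (nat_lit 14) (.e (nat_lit 73753) (nat_lit 8) (.e (nat_lit 557096) (nat_lit 13) (.e (nat_lit 179968) (nat_lit 18) (.e (nat_lit 98335) (nat_lit 18) (.e (nat_lit 164305) (nat_lit 226) .nil)))))))) (.g (nat_lit 1) (.e (nat_lit 22242) (nat_lit 0) .nil) .nil)))) 
(.nd (nat_lit 9) 
(.lf (nat_lit 451867) (.g (nat_lit 2225) (.e (nat_lit 2610) (nat_lit 163) (.e (nat_lit 164347) (nat_lit 240) (.e (nat_lit 2640) (nat_lit 165) (.e (nat_lit 188160) (nat_lit 38) (.e (nat_lit 122936) (nat_lit 23) (.e (nat_lit 516131) (nat_lit 3) (.e (nat_lit 221218) (nat_lit 24) (.e (nat_lit 213016) (nat_lit 9) .nil)))))))) (.g (nat_lit 1) (.e (nat_lit 20901) (nat_lit 0) .nil) .nil))) 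
(.lf (nat_lit 452379) (.g (nat_lit 5211) (.e (nat_lit 2612) (nat_lit 163) (.e (nat_lit 163978) (nat_lit 30) (.e (nat_lit 573489) (nat_lit 14) (.e (nat_lit 73755) (nat_lit 8) (.e (nat_lit 557103) (nat_lit 14) (.e (nat_lit 180244) (nat_lit 5) (.e (nat_lit 532503) (nat_lit 1) (.e (nat_lit 57659) (nat_lit 152) .nil)))))))) (.g (nat_lit 1) (.e (nat_lit 22560) (nat_lit 0) .nil) .nil))))) 
(.nd (nat_lit 8) (.nd (nat_lit 9) 
(.lf (nat_lit 451739) (.g (nat_lit 4403) (.e (nat_lit 2610) (nat_lit 163) (.e (nat_lit 163979) (nat_lit 30) (.e (nat_lit 573493) (nat_lit 15) (.e (nat_lit 81953) (nat_lit 22) (.e (nat_lit 90172) (nat_lit 14) (.e (nat_lit 180229) (nat_lit 0) (.e (nat_lit 5547) (nat_lit 306) .nil))))))) (.g (nat_lit 1) (.e (nat_lit 20423) (nat_lit 0) .nil) .nil))) 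
(.lf (nat_lit 452251) (.g (nat_lit 2586) (.e (nat_lit 2612) (nat_lit 163) (.e (nat_lit 163978) (nat_lit 30) (.e (nat_lit 573485) (nat_lit 13) (.e (nat_lit 65619) (nat_lit 10) (.e (nat_lit 344117) (nat_lit 21) (.e (nat_lit 516152) (nat_lit 9) (.e (nat_lit 426144) (nat_lit 4) (.e (nat_lit 229665) (nat_lit 240) .nil)))))))) (.g (nat_lit 1) (.e (nat_lit 22407) (nat_lit 0) .nil) .nil)))) 
(.nd (nat_lit 9) 
(.lf (nat_lit 451995) (.g (nat_lit 4552) (.e (nat_lit 2611) (nat_lit 163) (.e (nat_lit 163978) (nat_lit 30) (.e (nat_lit 573485) (nat_lit 13) (.e (nat_lit 65619) (nat_lit 10) (.e (nat_lit 344117) (nat_lit 21) (.e (nat_lit 516143) (nat_lit 9) (.e (nat_lit 426109) (nat_lit 1) (.e (nat_lit 164345) (nat_lit 240) .nil)))))))) (.g (nat_lit 1) (.e (nat_lit 21442) (nat_lit 0) .nil) .nil))) 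
(.lf (nat_lit 452507) (.g (nat_lit 5231) (.e (nat_lit 2612) (nat_lit 163) (.e (nat_lit 163979) (nat_lit 30) (.e (nat_lit 573492) (nat_lit 15) (.e (nat_lit 81956) (nat_lit 23) (.e (nat_lit 98363) (nat_lit 26) (.e (nat_lit 426147) (nat_lit 4) (.e (nat_lit 229666) (nat_lit 240) .nil))))))) (.g (nat_lit 1) (.e (nat_lit 22754) (nat_lit 0) .nil) .nil)))))) 
(.nd (nat_lit 7) (.nd (nat_lit 8) (.nd (nat_lit 9) 
(.lf (nat_lit 451675) (.g (nat_lit 4967) (.e (nat_lit 2610) (nat_lit 163) (.e (nat_lit 163979) (nat_lit 30) (.e (nat_lit 573491) (nat_lit 15) (.e (nat_lit 81954) (nat_lit 23) (.e (nat_lit 98367) (nat_lit 27) (.e (nat_lit 434209) (nat_lit 18) (.e (nat_lit 5548) (nat_lit 306) .nil))))))) (.g (nat_lit 1) (.e (nat_lit 20303) (nat_lit 0) .nil) .nil))) 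
(.lf (nat_lit 452187) (.g (nat_lit 3537) (.e (nat_lit 2612) (nat_lit 163) (.e (nat_lit 163977) (nat_lit 30) (.e (nat_lit 573493) (nat_lit 15) (.e (nat_lit 81954) (nat_lit 23) (.e (nat_lit 98359) (nat_lit 26) .nil))))) (.g (nat_lit 0) (.e (nat_lit 22325) (nat_lit 0) .nil) .nil)))) (.nd (nat_lit 9) 
(.lf (nat_lit 451931) (.g (nat_lit 2780) (.e (nat_lit 2611) (nat_lit 163) (.e (nat_lit 163978) (nat_lit 30) (.e (nat_lit 573479) (nat_lit 13) (.e (nat_lit 65604) (nat_lit 9) (.e (nat_lit 336013) (nat_lit 2) .nil))))) (.g (nat_lit 0) (.e (nat_lit 21314) (nat_lit 0) .nil) .nil))) 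
(.lf (nat_lit 452443) (.g (nat_lit 2699) (.e (nat_lit 2612) (nat_lit 163) (.e (nat_lit 163979) (nat_lit 30) (.e (nat_lit 573487) (nat_lit 14) (.e (nat_lit 73753) (nat_lit 8) (.e (nat_lit 557103) (nat_lit 14) (.e (nat_lit 180243) (nat_lit 5) (.e (nat_lit 532504) (nat_lit 1) (.e (nat_lit 57663) (nat_lit 152) .nil)))))))) (.g (nat_lit 1) (.e (nat_lit 22673) (nat_lit 0) .nil) .nil))))) 
(.nd (nat_lit 8) (.nd (nat_lit 9) 
(.lf (nat_lit 451803) (.g (nat_lit 5351) (.e (nat_lit 2610) (nat_lit 163) (.e (nat_lit 163979) (nat_lit 30) (.e (nat_lit 573493) (nat_lit 15) (.e (nat_lit 81956) (nat_lit 23) (.e (nat_lit 98360) (nat_lit 26) (.e (nat_lit 426109) (nat_lit 1) (.e (nat_lit 164345) (nat_lit 240) .nil))))))) (.g (nat_lit 1) (.e (nat_lit 20532) (nat_lit 0) .nil) .nil))) 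
(.lf (nat_lit 452315) (.g (nat_lit 2955) (.e (nat_lit 2612) (nat_lit 163) (.e (nat_lit 163978) (nat_lit 30) (.e (nat_lit 573489) (nat_lit 14) (.e (nat_lit 73754) (nat_lit 8) (.e (nat_lit 557101) (nat_lit 13) (.e (nat_lit 172136) (nat_lit 15) (.e (nat_lit 1800) (nat_lit 119) (.e (nat_lit 516120) (nat_lit 1) (.e (nat_lit 164305) (nat_lit 226) .nil))))))))) (.g (nat_lit 1) (.e (nat_lit 22483) (nat_lit 0) .nil) .nil)))) 
(.nd (nat_lit 9) 
(.lf (nat_lit 452059) (.g (nat_lit 2083) (.e (nat_lit 2611) (nat_lit 163) (.e (nat_lit 164401) (nat_lit 256) (.e (nat_lit 57373) (nat_lit 2) (.e (nat_lit 90174) (nat_lit 14) (.e (nat_lit 180243) (nat_lit 5) (.e (nat_lit 532513) (nat_lit 3) (.e (nat_lit 114714) (nat_lit 22) (.e (nat_lit 90140) (nat_lit 9) .nil)))))))) (.g (nat_lit 1) (.e (nat_lit 22148) (nat_lit 0) .nil) .nil))) 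
(.lf (nat_lit 452571) (.g (nat_lit 3997) (.e (nat_lit 2612) (nat_lit 163) (.e (nat_lit 164326) (nat_lit 230) (.e (nat_lit 163903) (nat_lit 12) (.e (nat_lit 426567) (nat_lit 34) (.e (nat_lit 393268) (nat_lit 23) (.e (nat_lit 426428) (nat_lit 17) (.e (nat_lit 90130) (nat_lit 9) .nil))))))) (.g (nat_lit 1) (.e (nat_lit 23020) (nat_lit 0) .nil) .nil))))))) 
(.nd (nat_lit 6) (.nd (nat_lit 7) (.nd (nat_lit 8) (.nd (nat_lit 9) 
(.lf (nat_lit 451643) (.g (nat_lit 4094) (.e (nat_lit 2610) (nat_lit 163) (.e (nat_lit 163979) (nat_lit 30) (.e (nat_lit 573491) (nat_lit 15) (.e (nat_lit 81951) (nat_lit 22) (.e (nat_lit 90185) (nat_lit 17) (.e (nat_lit 237584) (nat_lit 1) (.e (nat_lit 164347) (nat_lit 240) .nil))))))) (.g (nat_lit 1) (.e (nat_lit 20270) (nat_lit 0) .nil) .nil))) 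
(.lf (nat_lit 452155) (.g (nat_lit 2497) (.e (nat_lit 2612) (nat_lit 163) (.e (nat_lit 163977) (nat_lit 30) (.e (nat_lit 573491) (nat_lit 15) (.e (nat_lit 81954) (nat_lit 23) (.e (nat_lit 98362) (nat_lit 26) (.e (nat_lit 426143) (nat_lit 4) (.e (nat_lit 229663) (nat_lit 240) .nil))))))) (.g (nat_lit 1) (.e (nat_lit 22280) (nat_lit 0) .nil) .nil)))) (.nd (nat_lit 9) 
(.lf (nat_lit 451899) (.g (nat_lit 4180) (.e (nat_lit 2611) (nat_lit 163) (.e (nat_lit 163977) (nat_lit 30) (.e (nat_lit 573482) (nat_lit 13) (.e (nat_lit 65604) (nat_lit 9) (.e (nat_lit 336013) (nat_lit 2) (.e (nat_lit 90170) (nat_lit 13) (.e (nat_lit 172059) (nat_lit 1) (.e (nat_lit 164345) (nat_lit 240) .nil)))))))) (.g (nat_lit 1) (.e (nat_lit 20990) (nat_lit 0) .nil) .nil))) 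
(.lf (nat_lit 452411) (.g (nat_lit 3209) (.e (nat_lit 2612) (nat_lit 163) (.e (nat_lit 163979) (nat_lit 30) (.e (nat_lit 573482) (nat_lit 13) (.e (nat_lit 65619) (nat_lit 10) (.e (nat_lit 344117) (nat_lit 21) (.e (nat_lit 516143) (nat_lit 9) (.e (nat_lit 426144) (nat_lit 4) (.e (nat_lit 229665) (nat_lit 240) .nil)))))))) (.g (nat_lit 1) (.e (nat_lit 22635) (nat_lit 0) .nil) .nil))))) 
(.nd (nat_lit 8) (.nd (nat_lit 9) 
(.lf (nat_lit 451771) (.g (nat_lit 3797) (.e (nat_lit 2610) (nat_lit 163) (.e (nat_lit 163979) (nat_lit 30) (.e (nat_lit 573493) (nat_lit 15) (.e (nat_lit 81954) (nat_lit 23) (.e (nat_lit 98365) (nat_lit 26) (.e (nat_lit 426100) (nat_lit 1) (.e (nat_lit 164345) (nat_lit 240) .nil))))))) (.g (nat_lit 1) (.e (nat_lit 20457) (nat_lit 0) .nil) .nil))) 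
(.lf (nat_lit 452283) (.g (nat_lit 3314) (.e (nat_lit 2612) (nat_lit 163) (.e (nat_lit 163978) (nat_lit 30) (.e (nat_lit 573487) (nat_lit 14) (.e (nat_lit 73753) (nat_lit 8) (.e (nat_lit 557098) (nat_lit 13) (.e (nat_lit 179968) (nat_lit 18) (.e (nat_lit 98333) (nat_lit 18) (.e (nat_lit 164305) (nat_lit 226) .nil)))))))) (.g (nat_lit 1) (.e (nat_lit 22447) (nat_lit 0) .nil) .nil)))) 
(.nd (nat_lit 9) 
(.lf (nat_lit 452027) (.g (nat_lit 4469) (.e (nat_lit 2611) (nat_lit 163) (.e (nat_lit 163979) (nat_lit 30) (.e (nat_lit 573482) (nat_lit 13) (.e (nat_lit 65604) (nat_lit 9) (.e (nat_lit 336028) (nat_lit 3) (.e (nat_lit 98366) (nat_lit 27) (.e (nat_lit 434209) (nat_lit 18) (.e (nat_lit 5547) (nat_lit 306) .nil)))))))) (.g (nat_lit 1) (.e (nat_lit 21788) (nat_lit 0) .nil) .nil))) 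
(.lf (nat_lit 452539) (.g (nat_lit 4126) (.e (nat_lit 2612) (nat_lit 163) (.e (nat_lit 163979) (nat_lit 30) (.e (nat_lit 573493) (nat_lit 15) (.e (nat_lit 81954) (nat_lit 23) (.e (nat_lit 98367) (nat_lit 27) (.e (nat_lit 434215) (nat_lit 18) (.e (nat_lit 5448) (nat_lit 306) .nil))))))) (.g (nat_lit 1) (.e (nat_lit 22799) (nat_lit 0) .nil) .nil)))))) 
(.nd (nat_lit 7) (.nd (nat_lit 8) (.nd (nat_lit 9) 
(.lf (nat_lit 451707) (.g (nat_lit 3688) (.e (nat_lit 2610) (nat_lit 163) (.e (nat_lit 163979) (nat_lit 30) (.e (nat_lit 573493) (nat_lit 15) (.e (nat_lit 81951) (nat_lit 22) (.e (nat_lit 90170) (nat_lit 13) (.e (nat_lit 172042) (nat_lit 0) (.e (nat_lit 2458) (nat_lit 157) (.e (nat_lit 5548) (nat_lit 306) .nil)))))))) (.g (nat_lit 1) (.e (nat_lit 20376) (nat_lit 0) .nil) .nil))) 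
(.lf (nat_lit 452219) (.g (nat_lit 4568) (.e (nat_lit 2612) (nat_lit 163) (.e (nat_lit 163978) (nat_lit 30) (.e (nat_lit 573484) (nat_lit 13) (.e (nat_lit 65610) (nat_lit 10) (.e (nat_lit 344117) (nat_lit 21) (.e (nat_lit 516151) (nat_lit 9) (.e (nat_lit 426142) (nat_lit 4) (.e (nat_lit 229665) (nat_lit 240) .nil)))))))) (.g (nat_lit 1) (.e (nat_lit 22371) (nat_lit 0) .nil) .nil)))) 
(.nd (nat_lit 9) 
(.lf (nat_lit 451963) (.g (nat_lit 4881) (.e (nat_lit 2611) (nat_lit 163) (.e (nat_lit 163978) (nat_lit 30) (.e (nat_lit 573479) (nat_lit 13) (.e (nat_lit 65619) (nat_lit 10) (.e (nat_lit 344117) (nat_lit 21) (.e (nat_lit 516160) (nat_lit 10) (.e (nat_lit 434209) (nat_lit 18) (.e (nat_lit 5547) (nat_lit 306) .nil)))))))) (.g (nat_lit 1) (.e (nat_lit 21348) (nat_lit 0) .nil) .nil))) 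
(.lf (nat_lit 452475) (.g (nat_lit 3038) (.e (nat_lit 2612) (nat_lit 163) (.e (nat_lit 163979) (nat_lit 30) (.e (nat_lit 573489) (nat_lit 14) (.e (nat_lit 73755) (nat_lit 8) (.e (nat_lit 557104) (nat_lit 14) (.e (nat_lit 180244) (nat_lit 5) (.e (nat_lit 532499) (nat_lit 1) (.e (nat_lit 57659) (nat_lit 152) .nil)))))))) (.g (nat_lit 1) (.e (nat_lit 22709) (nat_lit 0) .nil) .nil))))) 
(.nd (nat_lit 8) (.nd (nat_lit 9) 
(.lf (nat_lit 451835) (.g (nat_lit 3956) (.e (nat_lit 2610) (nat_lit 163) (.e (nat_lit 163979) (nat_lit 30) (.e (nat_lit 573493) (nat_lit 15) (.e (nat_lit 81956) (nat_lit 23) (.e (nat_lit 98367) (nat_lit 27) (.e (nat_lit 434211) (nat_lit 18) (.e (nat_lit 5548) (nat_lit 306) .nil))))))) (.g (nat_lit 1) (.e (nat_lit 20564) (nat_lit 0) .nil) .nil))) 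
(.lf (nat_lit 452347) (.g (nat_lit 3184) (.e (nat_lit 2612) (nat_lit 163) (.e (nat_lit 163978) (nat_lit 30) (.e (nat_lit 573489) (nat_lit 14) (.e (nat_lit 73755) (nat_lit 8) (.e (nat_lit 557097) (nat_lit 13) (.e (nat_lit 179968) (nat_lit 18) (.e (nat_lit 98335) (nat_lit 18) (.e (nat_lit 164304) (nat_lit 226) .nil)))))))) (.g (nat_lit 1) (.e (nat_lit 22528) (nat_lit 0) .nil) .nil)))) 
(.nd (nat_lit 9) 
(.lf (nat_lit 452091) (.g (nat_lit 3308) (.e (nat_lit 2612) (nat_lit 163) (.e (nat_lit 163964) (nat_lit 25) (.e (nat_lit 532513) (nat_lit 3) (.e (nat_lit 114719) (nat_lit 23) (.e (nat_lit 98384) (nat_lit 32) (.e (nat_lit 475177) (nat_lit 24) (.e (nat_lit 516120) (nat_lit 1) (.e (nat_lit 164305) (nat_lit 226) .nil)))))))) (.g (nat_lit 1) (.e (nat_lit 22192) (nat_lit 0) .nil) .nil))) 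
(.lf (nat_lit 452603) (.g (nat_lit 3505) (.e (nat_lit 2612) (nat_lit 163) (.e (nat_lit 164403) (nat_lit 256) (.e (nat_lit 57373) (nat_lit 2) (.e (nat_lit 90174) (nat_lit 14) (.e (nat_lit 180250) (nat_lit 10) (.e (nat_lit 573489) (nat_lit 14) (.e (nat_lit 73755) (nat_lit 8) (.e (nat_lit 557065) (nat_lit 9) .nil)))))))) (.g (nat_lit 1) (.e (nat_lit 23287) (nat_lit 0) .nil) .nil)))))))))) 
(.nd (nat_lit 3) (.nd (nat_lit 4) (.nd (nat_lit 5) (.nd (nat_lit 6) (.nd (nat_lit 7) 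
(.nd (nat_lit 8) (.nd (nat_lit 9) 
(.lf (nat_lit 451591) (.g (nat_lit 4766) (.e (nat_lit 2610) (nat_lit 163) (.e (nat_lit 163979) (nat_lit 30) (.e (nat_lit 573482) (nat_lit 13) (.e (nat_lit 65619) (nat_lit 10) (.e (nat_lit 344117) (nat_lit 21) (.e (nat_lit 516151) (nat_lit 9) (.e (nat_lit 426042) (nat_lit 0) (.e (nat_lit 2458) (nat_lit 157) (.e (nat_lit 5548) (nat_lit 306) .nil))))))))) (.g (nat_lit 1) (.e (nat_lit 20185) (nat_lit 0) .nil) .nil))) 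
(.lf (nat_lit 452103) (.g (nat_lit 4431) (.e (nat_lit 2612) (nat_lit 163) (.e (nat_lit 163977) (nat_lit 30) (.e (nat_lit 573482) (nat_lit 13) (.e (nat_lit 65619) (nat_lit 10) (.e (nat_lit 344117) (nat_lit 21) (.e (nat_lit 516151) (nat_lit 9) (.e (nat_lit 426142) (nat_lit 4) (.e (nat_lit 229666) (nat_lit 240) .nil)))))))) (.g (nat_lit 1) (.e (nat_lit 22221) (nat_lit 0) .nil) .nil)))) 
(.nd (nat_lit 9) 
(.lf (nat_lit 451847) (.g (nat_lit 5798) (.e (nat_lit 2610) (nat_lit 163) (.e (nat_lit 163979) (nat_lit 30) (.e (nat_lit 573493) (nat_lit 15) (.e (nat_lit 81956) (nat_lit 23) (.e (nat_lit 98368) (nat_lit 27) (.e (nat_lit 434209) (nat_lit 18) (.e (nat_lit 5547) (nat_lit 306) .nil))))))) (.g (nat_lit 1) (.e (nat_lit 20576) (nat_lit 0) .nil) .nil))) 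
(.lf (nat_lit 452359) (.g (nat_lit 5428) (.e (nat_lit 2612) (nat_lit 163) (.e (nat_lit 163978) (nat_lit 30) (.e (nat_lit 573489) (nat_lit 14) (.e (nat_lit 73755) (nat_lit 8) (.e (nat_lit 557098) (nat_lit 13) (.e (nat_lit 172133) (nat_lit 15) (.e (nat_lit 1800) (nat_lit 119) (.e (nat_lit 516120) (nat_lit 1) (.e (nat_lit 164305) (nat_lit 226) .nil))))))))) (.g (nat_lit 1) (.e (nat_lit 22540) (nat_lit 0) .nil) .nil))))) 
(.nd (nat_lit 8) (.nd (nat_lit 9) 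
(.lf (nat_lit 451719) (.g (nat_lit 3774) (.e (nat_lit 2610) (nat_lit 163) (.e (nat_lit 163979) (nat_lit 30) (.e (nat_lit 573493) (nat_lit 15) (.e (nat_lit 81951) (nat_lit 22) (.e (nat_lit 90185) (nat_lit 17) .nil))))) (.g (nat_lit 0) (.e (nat_lit 20388) (nat_lit 0) .nil) .nil))) 
(.lf (nat_lit 452231) (.g (nat_lit 3636) (.e (nat_lit 2612) (nat_lit 163) (.e (nat_lit 163978) (nat_lit 30) (.e (nat_lit 573485) (nat_lit 13) (.e (nat_lit 65604) (nat_lit 9) (.e (nat_lit 336013) (nat_lit 2) (.e (nat_lit 90170) (nat_lit 13) (.e (nat_lit 172069) (nat_lit 4) (.e (nat_lit 229664) (nat_lit 240) .nil)))))))) (.g (nat_lit 1) (.e (nat_lit 22385) (nat_lit 0) .nil) .nil)))) 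
(.nd (nat_lit 9) 
(.lf (nat_lit 451975) (.g (nat_lit 3430) (.e (nat_lit 2611) (nat_lit 163) (.e (nat_lit 163978) (nat_lit 30) (.e (nat_lit 573479) (nat_lit 13) (.e (nat_lit 65619) (nat_lit 10) (.e (nat_lit 344129) (nat_lit 26) (.e (nat_lit 557087) (nat_lit 11) (.e (nat_lit 24597) (nat_lit 1) (.e (nat_lit 57773) (nat_lit 227) .nil)))))))) (.g (nat_lit 1) (.e (nat_lit 21363) (nat_lit 0) .nil) .nil))) 
(.lf (nat_lit 452487) (.g (nat_lit 2769) (.e (nat_lit 2612) (nat_lit 163) (.e (nat_lit 163979) (nat_lit 30) (.e (nat_lit 573491) (nat_lit 15) (.e (nat_lit 81951) (nat_lit 22) (.e (nat_lit 90174) (nat_lit 14) .nil))))) (.g (nat_lit 0) (.e (nat_lit 22721) (nat_lit 0) .nil) .nil)))))) (.nd (nat_lit 7) (.nd (nat_lit 8) (.nd (nat_lit 9) 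
(.lf (nat_lit 451655) (.g (nat_lit 2750) (.e (nat_lit 2610) (nat_lit 163) (.e (nat_lit 163979) (nat_lit 30) (.e (nat_lit 573491) (nat_lit 15) (.e (nat_lit 81954) (nat_lit 23) (.e (nat_lit 98359) (nat_lit 26) (.e (nat_lit 426104) (nat_lit 1) (.e (nat_lit 164347) (nat_lit 240) .nil))))))) (.g (nat_lit 1) (.e (nat_lit 20283) (nat_lit 0) .nil) .nil))) 
(.lf (nat_lit 452167) (.g (nat_lit 5042) (.e (nat_lit 2612) (nat_lit 163) (.e (nat_lit 163977) (nat_lit 30) (.e (nat_lit 573492) (nat_lit 15) (.e (nat_lit 81956) (nat_lit 23) (.e (nat_lit 98365) (nat_lit 26) (.e (nat_lit 426145) (nat_lit 4) (.e (nat_lit 229663) (nat_lit 240) .nil))))))) (.g (nat_lit 1) (.e (nat_lit 22297) (nat_lit 0) .nil) .nil)))) (.nd (nat_lit 9) 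
(.lf (nat_lit 451911) (.g (nat_lit 5195) (.e (nat_lit 2611) (nat_lit 163) (.e (nat_lit 163977) (nat_lit 30) (.e (nat_lit 573482) (nat_lit 13) (.e (nat_lit 65619) (nat_lit 10) (.e (nat_lit 344117) (nat_lit 21) (.e (nat_lit 516151) (nat_lit 9) (.e (nat_lit 426104) (nat_lit 1) (.e (nat_lit 164345) (nat_lit 240) .nil)))))))) (.g (nat_lit 1) (.e (nat_lit 21010) (nat_lit 0) .nil) .nil))) 
(.lf (nat_lit 452423) (.g (nat_lit 3929) (.e (nat_lit 2612) (nat_lit 163) (.e (nat_lit 163979) (nat_lit 30) (.e (nat_lit 573487) (nat_lit 14) (.e (nat_lit 73753) (nat_lit 8) (.e (nat_lit 557096) (nat_lit 13) (.e (nat_lit 172133) (nat_lit 15) (.e (nat_lit 1800) (nat_lit 119) (.e (nat_lit 516120) (nat_lit 1) (.e (nat_lit 164304) (nat_lit 226) .nil))))))))) (.g (nat_lit 1) (.e (nat_lit 22652) (nat_lit 0) .nil) .nil))))) 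
(.nd (nat_lit 8) (.nd (nat_lit 9) 
(.lf (nat_lit 451783) (.g (nat_lit 5951) (.e (nat_lit 2610) (nat_lit 163) (.e (nat_lit 163979) (nat_lit 30) (.e (nat_lit 573493) (nat_lit 15) (.e (nat_lit 81954) (nat_lit 23) (.e (nat_lit 98367) (nat_lit 27) (.e (nat_lit 434209) (nat_lit 18) (.e (nat_lit 5548) (nat_lit 306) .nil))))))) (.g (nat_lit 1) (.e (nat_lit 20469) (nat_lit 0) .nil) .nil))) 
(.lf (nat_lit 452295) (.g (nat_lit 2728) (.e (nat_lit 2612) (nat_lit 163) (.e (nat_lit 163978) (nat_lit 30) (.e (nat_lit 573487) (nat_lit 14) (.e (nat_lit 73753) (nat_lit 8) (.e (nat_lit 557103) (nat_lit 14) (.e (nat_lit 180243) (nat_lit 5) (.e (nat_lit 532503) (nat_lit 1) (.e (nat_lit 57659) (nat_lit 152) .nil)))))))) (.g (nat_lit 1) (.e (nat_lit 22463) (nat_lit 0) .nil) .nil)))) 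
(.nd (nat_lit 9) 
(.lf (nat_lit 452039) (.g (nat_lit 5397) (.e (nat_lit 2611) (nat_lit 163) (.e (nat_lit 163979) (nat_lit 30) (.e (nat_lit 573482) (nat_lit 13) (.e (nat_lit 65619) (nat_lit 10) (.e (nat_lit 344117) (nat_lit 21) (.e (nat_lit 516151) (nat_lit 9) (.e (nat_lit 426104) (nat_lit 1) (.e (nat_lit 164345) (nat_lit 240) .nil)))))))) (.g (nat_lit 1) (.e (nat_lit 21800) (nat_lit 0) .nil) .nil))) 
(.lf (nat_lit 452551) (.g (nat_lit 3383) (.e (nat_lit 2612) (nat_lit 163) (.e (nat_lit 163979) (nat_lit 30) (.e (nat_lit 573493) (nat_lit 15) (.e (nat_lit 81956) (nat_lit 23) (.e (nat_lit 98360) (nat_lit 26) (.e (nat_lit 426144) (nat_lit 4) (.e (nat_lit 229666) (nat_lit 240) .nil))))))) (.g (nat_lit 1) (.e (nat_lit 22814) (nat_lit 0) .nil) .nil))))))) 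
(.nd (nat_lit 6) (.nd (nat_lit 7) (.nd (nat_lit 8) (.nd (nat_lit 9) 
(.lf (nat_lit 451623) (.g (nat_lit 2461) (.e (nat_lit 2610) (nat_lit 163) (.e (nat_lit 163979) (nat_lit 30) (.e (nat_lit 573482) (nat_lit 13) (.e (nat_lit 65619) (nat_lit 10) (.e (nat_lit 344117) (nat_lit 21) (.e (nat_lit 516171) (nat_lit 13) (.e (nat_lit 458774) (nat_lit 18) (.e (nat_lit 5546) (nat_lit 306) .nil)))))))) (.g (nat_lit 1) (.e (nat_lit 20217) (nat_lit 0) .nil) .nil))) 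
(.lf (nat_lit 452135) (.g (nat_lit 3802) (.e (nat_lit 2612) (nat_lit 163) (.e (nat_lit 163977) (nat_lit 30) (.e (nat_lit 573489) (nat_lit 14) (.e (nat_lit 73755) (nat_lit 8) (.e (nat_lit 557096) (nat_lit 13) (.e (nat_lit 172133) (nat_lit 15) (.e (nat_lit 1800) (nat_lit 119) (.e (nat_lit 516120) (nat_lit 1) (.e (nat_lit 164304) (nat_lit 226) .nil))))))))) (.g (nat_lit 1) (.e (nat_lit 22257) (nat_lit 0) .nil) .nil)))) 
(.nd (nat_lit 9) 
(.lf (nat_lit 451879) (.g (nat_lit 2862) (.e (nat_lit 2610) (nat_lit 163) (.e (nat_lit 164402) (nat_lit 256) (.e (nat_lit 57371) (nat_lit 2) (.e (nat_lit 90174) (nat_lit 14) (.e (nat_lit 180243) (nat_lit 5) (.e (nat_lit 532515) (nat_lit 3) (.e (nat_lit 114716) (nat_lit 22) (.e (nat_lit 90121) (nat_lit 9) .nil)))))))) (.g (nat_lit 1) (.e (nat_lit 20957) (nat_lit 0) .nil) .nil))) 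
(.lf (nat_lit 452391) (.g (nat_lit 3162) (.e (nat_lit 2612) (nat_lit 163) (.e (nat_lit 163978) (nat_lit 30) (.e (nat_lit 573490) (nat_lit 15) (.e (nat_lit 81953) (nat_lit 22) (.e (nat_lit 90174) (nat_lit 14) .nil))))) (.g (nat_lit 0) (.e (nat_lit 22595) (nat_lit 0) .nil) .nil))))) (.nd (nat_lit 8) (.nd (nat_lit 9) 
(.lf (nat_lit 451751) (.g (nat_lit 4644) (.e (nat_lit 2610) (nat_lit 163) (.e (nat_lit 163979) (nat_lit 30) (.e (nat_lit 573493) (nat_lit 15) (.e (nat_lit 81954) (nat_lit 23) (.e (nat_lit 98354) (nat_lit 26) (.e (nat_lit 426109) (nat_lit 1) (.e (nat_lit 164345) (nat_lit 240) .nil))))))) (.g (nat_lit 1) (.e (nat_lit 20435) (nat_lit 0) .nil) .nil))) 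
(.lf (nat_lit 452263) (.g (nat_lit 3672) (.e (nat_lit 2612) (nat_lit 163) (.e (nat_lit 163978) (nat_lit 30) (.e (nat_lit 573487) (nat_lit 14) (.e (nat_lit 73753) (nat_lit 8) (.e (nat_lit 557097) (nat_lit 13) (.e (nat_lit 172133) (nat_lit 15) (.e (nat_lit 1800) (nat_lit 119) (.e (nat_lit 516117) (nat_lit 1) (.e (nat_lit 164304) (nat_lit 226) .nil))))))))) (.g (nat_lit 1) (.e (nat_lit 22424) (nat_lit 0) .nil) .nil)))) 
(.nd (nat_lit 9) 
(.lf (nat_lit 452007) (.g (nat_lit 4770) (.e (nat_lit 2611) (nat_lit 163) (.e (nat_lit 163978) (nat_lit 30) (.e (nat_lit 573485) (nat_lit 13) (.e (nat_lit 65619) (nat_lit 10) (.e (nat_lit 344117) (nat_lit 21) (.e (nat_lit 516159) (nat_lit 10) (.e (nat_lit 434209) (nat_lit 18) (.e (nat_lit 5547) (nat_lit 306) .nil)))))))) (.g (nat_lit 1) (.e (nat_lit 21454) (nat_lit 0) .nil) .nil))) 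
(.lf (nat_lit 452519) (.g (nat_lit 4452) (.e (nat_lit 2612) (nat_lit 163) (.e (nat_lit 163979) (nat_lit 30) (.e (nat_lit 573493) (nat_lit 15) (.e (nat_lit 81953) (nat_lit 22) (.e (nat_lit 90167) (nat_lit 13) (.e (nat_lit 172070) (nat_lit 4) (.e (nat_lit 229665) (nat_lit 240) .nil))))))) (.g (nat_lit 1) (.e (nat_lit 22777) (nat_lit 0) .nil) .nil)))))) 
(.nd (nat_lit 7) (.nd (nat_lit 8) (.nd (nat_lit 9) 
(.lf (nat_lit 451687) (.g (nat_lit 3278) (.e (nat_lit 2610) (nat_lit 163) (.e (nat_lit 163979) (nat_lit 30) (.e (nat_lit 573492) (nat_lit 15) (.e (nat_lit 81956) (nat_lit 23) (.e (nat_lit 98356) (nat_lit 26) (.e (nat_lit 426112) (nat_lit 1) (.e (nat_lit 164348) (nat_lit 240) .nil))))))) (.g (nat_lit 1) (.e (nat_lit 20340) (nat_lit 0) .nil) .nil))) 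
(.lf (nat_lit 452199) (.g (nat_lit 4466) (.e (nat_lit 2612) (nat_lit 163) (.e (nat_lit 163977) (nat_lit 30) (.e (nat_lit 573493) (nat_lit 15) (.e (nat_lit 81956) (nat_lit 23) (.e (nat_lit 98365) (nat_lit 26) .nil))))) (.g (nat_lit 0) (.e (nat_lit 22339) (nat_lit 0) .nil) .nil)))) (.nd (nat_lit 9) 
(.lf (nat_lit 451943) (.g (nat_lit 3079) (.e (nat_lit 2611) (nat_lit 163) (.e (nat_lit 163978) (nat_lit 30) (.e (nat_lit 573479) (nat_lit 13) (.e (nat_lit 65604) (nat_lit 9) (.e (nat_lit 336028) (nat_lit 3) (.e (nat_lit 98367) (nat_lit 27) (.e (nat_lit 434209) (nat_lit 18) (.e (nat_lit 5546) (nat_lit 306) .nil)))))))) (.g (nat_lit 1) (.e (nat_lit 21328) (nat_lit 0) .nil) .nil))) 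
(.lf (nat_lit 452455) (.g (nat_lit 1540) (.e (nat_lit 2612) (nat_lit 163) (.e (nat_lit 163979) (nat_lit 30) (.e (nat_lit 573489) (nat_lit 14) (.e (nat_lit 73755) (nat_lit 8) .nil)))) (.g (nat_lit 0) (.e (nat_lit 22685) (nat_lit 0) .nil) .nil))))) (.nd (nat_lit 8) (.nd (nat_lit 9) 
(.lf (nat_lit 451815) (.g (nat_lit 5232) (.e (nat_lit 2610) (nat_lit 163) (.e (nat_lit 163979) (nat_lit 30) (.e (nat_lit 573493) (nat_lit 15) (.e (nat_lit 81956) (nat_lit 23) (.e (nat_lit 98364) (nat_lit 26) (.e (nat_lit 426107) (nat_lit 1) (.e (nat_lit 164345) (nat_lit 240) .nil))))))) (.g (nat_lit 1) (.e (nat_lit 20544) (nat_lit 0) .nil) .nil))) 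
(.lf (nat_lit 452327) (.g (nat_lit 3098) (.e (nat_lit 2612) (nat_lit 163) (.e (nat_lit 163978) (nat_lit 30) (.e (nat_lit 573489) (nat_lit 14) (.e (nat_lit 73755) (nat_lit 8) (.e (nat_lit 557096) (nat_lit 13) (.e (nat_lit 179968) (nat_lit 15) (.e (nat_lit 1800) (nat_lit 119) (.e (nat_lit 516120) (nat_lit 1) (.e (nat_lit 164304) (nat_lit 226) .nil))))))))) (.g (nat_lit 1) (.e (nat_lit 22508) (nat_lit 0) .nil) .nil)))) 
(.nd (nat_lit 9) 
(.lf (nat_lit 452071) (.g (nat_lit 4408) (.e (nat_lit 2611) (nat_lit 163) (.e (nat_lit 164403) (nat_lit 256) (.e (nat_lit 57371) (nat_lit 2) (.e (nat_lit 90174) (nat_lit 14) (.e (nat_lit 180243) (nat_lit 5) (.e (nat_lit 532515) (nat_lit 3) (.e (nat_lit 114716) (nat_lit 22) (.e (nat_lit 90140) (nat_lit 9) .nil)))))))) (.g (nat_lit 1) (.e (nat_lit 22160) (nat_lit 0) .nil) .nil))) 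
(.lf (nat_lit 452583) (.g (nat_lit 991) (.e (nat_lit 2612) (nat_lit 163) (.e (nat_lit 164319) (nat_lit 228) (.e (nat_lit 57406) (nat_lit 12) (.e (nat_lit 336326) (nat_lit 18) .nil)))) (.g (nat_lit 0) (.e (nat_lit 23116) (nat_lit 0) .nil) .nil)))))))) (.nd (nat_lit 5) (.nd (nat_lit 6) (.nd (nat_lit 7) (.nd (nat_lit 8) (.nd (nat_lit 9) 
(.lf (nat_lit 451607) (.g (nat_lit 4123) (.e (nat_lit 2610) (nat_lit 163) (.e (nat_lit 163979) (nat_lit 30) (.e (nat_lit 573482) (nat_lit 13) (.e (nat_lit 65619) (nat_lit 10) (.e (nat_lit 344117) (nat_lit 21) (.e (nat_lit 516159) (nat_lit 10) (.e (nat_lit 434202) (nat_lit 18) (.e (nat_lit 5537) (nat_lit 306) .nil)))))))) (.g (nat_lit 1) (.e (nat_lit 20201) (nat_lit 0) .nil) .nil))) 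
(.lf (nat_lit 452119) (.g (nat_lit 2993) (.e (nat_lit 2612) (nat_lit 163) (.e (nat_lit 163977) (nat_lit 30) (.e (nat_lit 573487) (nat_lit 14) (.e (nat_lit 73753) (nat_lit 8) (.e (nat_lit 557096) (nat_lit 13) (.e (nat_lit 172133) (nat_lit 15) (.e (nat_lit 1800) (nat_lit 119) (.e (nat_lit 516117) (nat_lit 1) (.e (nat_lit 164305) (nat_lit 226) .nil))))))))) (.g (nat_lit 1) (.e (nat_lit 22238) (nat_lit 0) .nil) .nil)))) 
(.nd (nat_lit 9) 
(.lf (nat_lit 451863) (.g (nat_lit 1340) (.e (nat_lit 2610) (nat_lit 163) (.e (nat_lit 164347) (nat_lit 240) (.e (nat_lit 2638) (nat_lit 165) (.e (nat_lit 188160) (nat_lit 38) .nil)))) (.g (nat_lit 0) (.e (nat_lit 20886) (nat_lit 0) .nil) .nil))) 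
(.lf (nat_lit 452375) (.g (nat_lit 3038) (.e (nat_lit 2612) (nat_lit 163) (.e (nat_lit 163978) (nat_lit 30) (.e (nat_lit 573489) (nat_lit 14) (.e (nat_lit 73755) (nat_lit 8) (.e (nat_lit 557103) (nat_lit 14) (.e (nat_lit 180244) (nat_lit 5) (.e (nat_lit 532499) (nat_lit 1) (.e (nat_lit 65280) (nat_lit 152) .nil)))))))) (.g (nat_lit 1) (.e (nat_lit 22556) (nat_lit 0) .nil) .nil))))) 
(.nd (nat_lit 8) (.nd (nat_lit 9) 
(.lf (nat_lit 451735) (.g (nat_lit 4374) (.e (nat_lit 2610) (nat_lit 163) (.e (nat_lit 163979) (nat_lit 30) (.e (nat_lit 573493) (nat_lit 15) (.e (nat_lit 81953) (nat_lit 22) (.e (nat_lit 90171) (nat_lit 14) (.e (nat_lit 180228) (nat_lit 0) (.e (nat_lit 5548) (nat_lit 306) .nil))))))) (.g (nat_lit 1) (.e (nat_lit 20419) (nat_lit 0) .nil) .nil))) 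
(.lf (nat_lit 452247) (.g (nat_lit 3395) (.e (nat_lit 2612) (nat_lit 163) (.e (nat_lit 163978) (nat_lit 30) (.e (nat_lit 573485) (nat_lit 13) (.e (nat_lit 65619) (nat_lit 10) (.e (nat_lit 344117) (nat_lit 21) (.e (nat_lit 516143) (nat_lit 9) (.e (nat_lit 426144) (nat_lit 4) (.e (nat_lit 229665) (nat_lit 240) .nil)))))))) (.g (nat_lit 1) (.e (nat_lit 22403) (nat_lit 0) .nil) .nil)))) 
(.nd (nat_lit 9) 
(.lf (nat_lit 451991) (.g (nat_lit 5042) (.e (nat_lit 2611) (nat_lit 163) (.e (nat_lit 163978) (nat_lit 30) (.e (nat_lit 573485) (nat_lit 13) (.e (nat_lit 65604) (nat_lit 9) (.e (nat_lit 336028) (nat_lit 3) (.e (nat_lit 98367) (nat_lit 27) (.e (nat_lit 434209) (nat_lit 18) (.e (nat_lit 5547) (nat_lit 306) .nil)))))))) (.g (nat_lit 1) (.e (nat_lit 21436) (nat_lit 0) .nil) .nil))) 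
(.lf (nat_lit 452503) (.g (nat_lit 3771) (.e (nat_lit 2612) (nat_lit 163) (.e (nat_lit 163979) (nat_lit 30) (.e (nat_lit 573492) (nat_lit 15) (.e (nat_lit 81956) (nat_lit 23) (.e (nat_lit 98356) (nat_lit 26) (.e (nat_lit 433920) (nat_lit 4) (.e (nat_lit 229666) (nat_lit 240) .nil))))))) (.g (nat_lit 1) (.e (nat_lit 22750) (nat_lit 0) .nil) .nil)))))) 
(.nd (nat_lit 7) (.nd (nat_lit 8) (.nd (nat_lit 9) 
(.lf (nat_lit 451671) (.g (nat_lit 3564) (.e (nat_lit 2610) (nat_lit 163) (.e (nat_lit 163979) (nat_lit 30) (.e (nat_lit 573491) (nat_lit 15) (.e (nat_lit 81954) (nat_lit 23) (.e (nat_lit 98367) (nat_lit 27) (.e (nat_lit 434202) (nat_lit 18) (.e (nat_lit 5537) (nat_lit 306) .nil))))))) (.g (nat_lit 1) (.e (nat_lit 20299) (nat_lit 0) .nil) .nil))) 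
(.lf (nat_lit 452183) (.g (nat_lit 3552) (.e (nat_lit 2612) (nat_lit 163) (.e (nat_lit 163977) (nat_lit 30) (.e (nat_lit 573493) (nat_lit 15) (.e (nat_lit 81953) (nat_lit 22) (.e (nat_lit 90172) (nat_lit 14) (.e (nat_lit 180232) (nat_lit 0) (.e (nat_lit 5448) (nat_lit 306) .nil))))))) (.g (nat_lit 1) (.e (nat_lit 22320) (nat_lit 0) .nil) .nil)))) (.nd (nat_lit 9) 
(.lf (nat_lit 451927) (.g (nat_lit 4006) (.e (nat_lit 2611) (nat_lit 163) (.e (nat_lit 163977) (nat_lit 30) (.e (nat_lit 573485) (nat_lit 13) (.e (nat_lit 65619) (nat_lit 10) (.e (nat_lit 344117) (nat_lit 21) (.e (nat_lit 516151) (nat_lit 9) (.e (nat_lit 426097) (nat_lit 1) (.e (nat_lit 164345) (nat_lit 240) .nil)))))))) (.g (nat_lit 1) (.e (nat_lit 21052) (nat_lit 0) .nil) .nil))) 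
(.lf (nat_lit 452439) (.g (nat_lit 2599) (.e (nat_lit 2612) (nat_lit 163) (.e (nat_lit 163979) (nat_lit 30) (.e (nat_lit 573487) (nat_lit 14) (.e (nat_lit 73753) (nat_lit 8) (.e (nat_lit 557101) (nat_lit 13) (.e (nat_lit 172136) (nat_lit 15) (.e (nat_lit 1800) (nat_lit 119) (.e (nat_lit 516117) (nat_lit 1) (.e (nat_lit 164304) (nat_lit 226) .nil))))))))) (.g (nat_lit 1) (.e (nat_lit 22669) (nat_lit 0) .nil) .nil))))) 
(.nd (nat_lit 8) (.nd (nat_lit 9) 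
(.lf (nat_lit 451799) (.g (nat_lit 4797) (.e (nat_lit 2610) (nat_lit 163) (.e (nat_lit 163979) (nat_lit 30) (.e (nat_lit 573493) (nat_lit 15) (.e (nat_lit 81956) (nat_lit 23) (.e (nat_lit 98359) (nat_lit 26) (.e (nat_lit 426104) (nat_lit 1) (.e (nat_lit 164345) (nat_lit 240) .nil))))))) (.g (nat_lit 1) (.e (nat_lit 20528) (nat_lit 0) .nil) .nil))) 
(.lf (nat_lit 452311) (.g (nat_lit 3568) (.e (nat_lit 2612) (nat_lit 163) (.e (nat_lit 163978) (nat_lit 30) (.e (nat_lit 573489) (nat_lit 14) (.e (nat_lit 73754) (nat_lit 8) (.e (nat_lit 557101) (nat_lit 13) (.e (nat_lit 172066) (nat_lit 3) (.e (nat_lit 204830) (nat_lit 18) (.e (nat_lit 57663) (nat_lit 152) .nil)))))))) (.g (nat_lit 1) (.e (nat_lit 22479) (nat_lit 0) .nil) .nil)))) 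
(.nd (nat_lit 9) 
(.lf (nat_lit 452055) (.g (nat_lit 2920) (.e (nat_lit 2611) (nat_lit 163) (.e (nat_lit 164182) (nat_lit 154) (.e (nat_lit 57411) (nat_lit 12) (.e (nat_lit 336019) (nat_lit 3) (.e (nat_lit 98381) (nat_lit 31) (.e (nat_lit 466967) (nat_lit 20) (.e (nat_lit 3304) (nat_lit 202) (.e (nat_lit 581376) (nat_lit 0) .nil)))))))) (.g (nat_lit 1) (.e (nat_lit 22081) (nat_lit 0) .nil) .nil))) 
(.lf (nat_lit 452567) (.g (nat_lit 3714) (.e (nat_lit 2612) (nat_lit 163) (.e (nat_lit 164326) (nat_lit 230) (.e (nat_lit 163903) (nat_lit 12) (.e (nat_lit 426566) (nat_lit 34) (.e (nat_lit 393268) (nat_lit 23) (.e (nat_lit 426428) (nat_lit 17) (.e (nat_lit 90130) (nat_lit 9) .nil))))))) (.g (nat_lit 1) (.e (nat_lit 23015) (nat_lit 0) .nil) .nil))))))) 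
(.nd (nat_lit 6) (.nd (nat_lit 7) (.nd (nat_lit 8) (.nd (nat_lit 9) 
(.lf (nat_lit 451639) (.g (nat_lit 4014) (.e (nat_lit 2610) (nat_lit 163) (.e (nat_lit 163979) (nat_lit 30) (.e (nat_lit 573491) (nat_lit 15) (.e (nat_lit 81951) (nat_lit 22) (.e (nat_lit 90170) (nat_lit 13) (.e (nat_lit 172061) (nat_lit 1) (.e (nat_lit 164347) (nat_lit 240) .nil))))))) (.g (nat_lit 1) (.e (nat_lit 20261) (nat_lit 0) .nil) .nil))) 
(.lf (nat_lit 452151) (.g (nat_lit 2234) (.e (nat_lit 2612) (nat_lit 163) (.e (nat_lit 163977) (nat_lit 30) (.e (nat_lit 573491) (nat_lit 15) (.e (nat_lit 81954) (nat_lit 23) (.e (nat_lit 98356) (nat_lit 26) (.e (nat_lit 433920) (nat_lit 4) (.e (nat_lit 229663) (nat_lit 240) .nil))))))) (.g (nat_lit 1) (.e (nat_lit 22276) (nat_lit 0) .nil) .nil)))) (.nd (nat_lit 9) 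
(.lf (nat_lit 451895) (.g (nat_lit 1632) (.e (nat_lit 2611) (nat_lit 163) (.e (nat_lit 163977) (nat_lit 30) (.e (nat_lit 573479) (nat_lit 13) (.e (nat_lit 65619) (nat_lit 10) (.e (nat_lit 344117) (nat_lit 21) (.e (nat_lit 516159) (nat_lit 10) (.e (nat_lit 434209) (nat_lit 18) (.e (nat_lit 5547) (nat_lit 306) .nil)))))))) (.g (nat_lit 1) (.e (nat_lit 20982) (nat_lit 0) .nil) .nil))) 
(.lf (nat_lit 452407) (.g (nat_lit 3304) (.e (nat_lit 2612) (nat_lit 163) (.e (nat_lit 163979) (nat_lit 30) (.e (nat_lit 573482) (nat_lit 13) (.e (nat_lit 65604) (nat_lit 9) (.e (nat_lit 336028) (nat_lit 3) (.e (nat_lit 98367) (nat_lit 27) (.e (nat_lit 434215) (nat_lit 18) (.e (nat_lit 5448) (nat_lit 306) .nil)))))))) (.g (nat_lit 1) (.e (nat_lit 22631) (nat_lit 0) .nil) .nil))))) 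
(.nd (nat_lit 8) (.nd (nat_lit 9) 
(.lf (nat_lit 451767) (.g (nat_lit 4169) (.e (nat_lit 2610) (nat_lit 163) (.e (nat_lit 163979) (nat_lit 30) (.e (nat_lit 573493) (nat_lit 15) (.e (nat_lit 81954) (nat_lit 23) (.e (nat_lit 98363) (nat_lit 26) (.e (nat_lit 426110) (nat_lit 1) (.e (nat_lit 164348) (nat_lit 240) .nil))))))) (.g (nat_lit 1) (.e (nat_lit 20453) (nat_lit 0) .nil) .nil))) 
(.lf (nat_lit 452279) (.g (nat_lit 3912) (.e (nat_lit 2612) (nat_lit 163) (.e (nat_lit 163978) (nat_lit 30) (.e (nat_lit 573487) (nat_lit 14) (.e (nat_lit 73753) (nat_lit 8) (.e (nat_lit 557098) (nat_lit 13) (.e (nat_lit 179968) (nat_lit 15) (.e (nat_lit 1800) (nat_lit 119) (.e (nat_lit 516117) (nat_lit 1) (.e (nat_lit 164305) (nat_lit 226) .nil))))))))) (.g (nat_lit 1) (.e (nat_lit 22443) (nat_lit 0) .nil) .nil)))) 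
(.nd (nat_lit 9) 
(.lf (nat_lit 452023) (.g (nat_lit 3978) (.e (nat_lit 2611) (nat_lit 163) (.e (nat_lit 163979) (nat_lit 30) (.e (nat_lit 573482) (nat_lit 13) (.e (nat_lit 65604) (nat_lit 9) (.e (nat_lit 336013) (nat_lit 2) (.e (nat_lit 90170) (nat_lit 13) (.e (nat_lit 172061) (nat_lit 1) (.e (nat_lit 164346) (nat_lit 240) .nil)))))))) (.g (nat_lit 1) (.e (nat_lit 21772) (nat_lit 0) .nil) .nil))) 
(.lf (nat_lit 452535) (.g (nat_lit 5302) (.e (nat_lit 2612) (nat_lit 163) (.e (nat_lit 163979) (nat_lit 30) (.e (nat_lit 573493) (nat_lit 15) (.e (nat_lit 81954) (nat_lit 23) (.e (nat_lit 98359) (nat_lit 26) (.e (nat_lit 426142) (nat_lit 4) (.e (nat_lit 229663) (nat_lit 240) .nil))))))) (.g (nat_lit 1) (.e (nat_lit 22795) (nat_lit 0) .nil) .nil)))))) 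
(.nd (nat_lit 7) (.nd (nat_lit 8) (.nd (nat_lit 9) 
(.lf (nat_lit 451703) (.g (nat_lit 330) (.e (nat_lit 2610) (nat_lit 163) (.e (nat_lit 163979) (nat_lit 30) (.e (nat_lit 573493) (nat_lit 15) .nil))) (.g (nat_lit 0) (.e (nat_lit 20356) (nat_lit 0) .nil) .nil))) 
(.lf (nat_lit 452215) (.g (nat_lit 4614) (.e (nat_lit 2612) (nat_lit 163) (.e (nat_lit 163978) (nat_lit 30) (.e (nat_lit 573484) (nat_lit 13) (.e (nat_lit 65610) (nat_lit 10) (.e (nat_lit 344117) (nat_lit 21) (.e (nat_lit 516145) (nat_lit 9) (.e (nat_lit 426148) (nat_lit 4) (.e (nat_lit 229663) (nat_lit 240) .nil)))))))) (.g (nat_lit 1) (.e (nat_lit 22367) (nat_lit 0) .nil) .nil)))) 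
(.nd (nat_lit 9) 
(.lf (nat_lit 451959) (.g (nat_lit 4564) (.e (nat_lit 2611) (nat_lit 163) (.e (nat_lit 163978) (nat_lit 30) (.e (nat_lit 573479) (nat_lit 13) (.e (nat_lit 65619) (nat_lit 10) (.e (nat_lit 344117) (nat_lit 21) (.e (nat_lit 516159) (nat_lit 10) (.e (nat_lit 434209) (nat_lit 18) (.e (nat_lit 5547) (nat_lit 306) .nil)))))))) (.g (nat_lit 1) (.e (nat_lit 21344) (nat_lit 0) .nil) .nil))) 
(.lf (nat_lit 452471) (.g (nat_lit 3106) (.e (nat_lit 2612) (nat_lit 163) (.e (nat_lit 163979) (nat_lit 30) (.e (nat_lit 573489) (nat_lit 14) (.e (nat_lit 73755) (nat_lit 8) (.e (nat_lit 557098) (nat_lit 13) (.e (nat_lit 179968) (nat_lit 15) (.e (nat_lit 1800) (nat_lit 119) (.e (nat_lit 516117) (nat_lit 1) (.e (nat_lit 164304) (nat_lit 226) .nil))))))))) (.g (nat_lit 1) (.e (nat_lit 22705) (nat_lit 0) .nil) .nil))))) 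
(.nd (nat_lit 8) (.nd (nat_lit 9) 
(.lf (nat_lit 451831) (.g (nat_lit 4766) (.e (nat_lit 2610) (nat_lit 163) (.e (nat_lit 163979) (nat_lit 30) (.e (nat_lit 573493) (nat_lit 15) (.e (nat_lit 81956) (nat_lit 23) (.e (nat_lit 98367) (nat_lit 27) (.e (nat_lit 434208) (nat_lit 18) (.e (nat_lit 5537) (nat_lit 306) .nil))))))) (.g (nat_lit 1) (.e (nat_lit 20560) (nat_lit 0) .nil) .nil))) 
(.lf (nat_lit 452343) (.g (nat_lit 3784) (.e (nat_lit 2612) (nat_lit 163) (.e (nat_lit 163978) (nat_lit 30) (.e (nat_lit 573489) (nat_lit 14) (.e (nat_lit 73755) (nat_lit 8) (.e (nat_lit 557097) (nat_lit 13) (.e (nat_lit 179968) (nat_lit 15) (.e (nat_lit 1800) (nat_lit 119) (.e (nat_lit 516120) (nat_lit 1) (.e (nat_lit 164304) (nat_lit 226) .nil))))))))) (.g (nat_lit 1) (.e (nat_lit 22524) (nat_lit 0) .nil) .nil)))) 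
(.nd (nat_lit 9) 
(.lf (nat_lit 452087) (.g (nat_lit 4797) (.e (nat_lit 2612) (nat_lit 163) (.e (nat_lit 163964) (nat_lit 25) (.e (nat_lit 532513) (nat_lit 3) (.e (nat_lit 114718) (nat_lit 23) (.e (nat_lit 98356) (nat_lit 26) (.e (nat_lit 426436) (nat_lit 18) (.e (nat_lit 98335) (nat_lit 18) (.e (nat_lit 164305) (nat_lit 226) .nil)))))))) (.g (nat_lit 1) (.e (nat_lit 22188) (nat_lit 0) .nil) .nil))) 
(.lf (nat_lit 452599) (.g (nat_lit 4743) (.e (nat_lit 2612) (nat_lit 163) (.e (nat_lit 164403) (nat_lit 256) (.e (nat_lit 57373) (nat_lit 2) (.e (nat_lit 90174) (nat_lit 14) (.e (nat_lit 180243) (nat_lit 5) (.e (nat_lit 532513) (nat_lit 3) (.e (nat_lit 114714) (nat_lit 22) (.e (nat_lit 90130) (nat_lit 9) .nil)))))))) (.g (nat_lit 1) (.e (nat_lit 23283) (nat_lit 0) .nil) .nil))))))))) 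
(.nd (nat_lit 4) (.nd (nat_lit 5) (.nd (nat_lit 6) (.nd (nat_lit 7) (.nd (nat_lit 8) 
(.nd (nat_lit 9) 
(.lf (nat_lit 451599) (.g (nat_lit 3778) (.e (nat_lit 2610) (nat_lit 163) (.e (nat_lit 163979) (nat_lit 30) (.e (nat_lit 573482) (nat_lit 13) (.e (nat_lit 65619) (nat_lit 10) (.e (nat_lit 344117) (nat_lit 21) (.e (nat_lit 516152) (nat_lit 9) (.e (nat_lit 426109) (nat_lit 1) (.e (nat_lit 164345) (nat_lit 240) .nil)))))))) (.g (nat_lit 1) (.e (nat_lit 20193) (nat_lit 0) .nil) .nil))) 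
(.lf (nat_lit 452111) (.g (nat_lit 3296) (.e (nat_lit 2612) (nat_lit 163) (.e (nat_lit 163977) (nat_lit 30) (.e (nat_lit 573485) (nat_lit 13) (.e (nat_lit 65604) (nat_lit 9) (.e (nat_lit 336013) (nat_lit 2) (.e (nat_lit 90170) (nat_lit 13) (.e (nat_lit 172070) (nat_lit 4) (.e (nat_lit 229665) (nat_lit 240) .nil)))))))) (.g (nat_lit 1) (.e (nat_lit 22229) (nat_lit 0) .nil) .nil)))) 
(.nd (nat_lit 9) 
(.lf (nat_lit 451855) (.g (nat_lit 2983) (.e (nat_lit 2610) (nat_lit 163) (.e (nat_lit 163979) (nat_lit 30) (.e (nat_lit 573493) (nat_lit 15) (.e (nat_lit 81956) (nat_lit 23) (.e (nat_lit 98368) (nat_lit 27) (.e (nat_lit 434213) (nat_lit 18) (.e (nat_lit 5543) (nat_lit 306) .nil))))))) (.g (nat_lit 1) (.e (nat_lit 20584) (nat_lit 0) .nil) .nil))) 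
(.lf (nat_lit 452367) (.g (nat_lit 4303) (.e (nat_lit 2612) (nat_lit 163) (.e (nat_lit 163978) (nat_lit 30) (.e (nat_lit 573489) (nat_lit 14) (.e (nat_lit 73755) (nat_lit 8) (.e (nat_lit 557098) (nat_lit 13) (.e (nat_lit 179968) (nat_lit 15) (.e (nat_lit 1800) (nat_lit 119) (.e (nat_lit 516117) (nat_lit 1) (.e (nat_lit 164305) (nat_lit 226) .nil))))))))) (.g (nat_lit 1) (.e (nat_lit 22548) (nat_lit 0) .nil) .nil))))) 
(.nd (nat_lit 8) (.nd (nat_lit 9) 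
(.lf (nat_lit 451727) (.g (nat_lit 4466) (.e (nat_lit 2610) (nat_lit 163) (.e (nat_lit 163979) (nat_lit 30) (.e (nat_lit 573493) (nat_lit 15) (.e (nat_lit 81953) (nat_lit 22) (.e (nat_lit 90170) (nat_lit 13) (.e (nat_lit 172046) (nat_lit 0) (.e (nat_lit 2458) (nat_lit 157) (.e (nat_lit 5546) (nat_lit 306) .nil)))))))) (.g (nat_lit 1) (.e (nat_lit 20411) (nat_lit 0) .nil) .nil))) 
(.lf (nat_lit 452239) (.g (nat_lit 2716) (.e (nat_lit 2612) (nat_lit 163) (.e (nat_lit 163978) (nat_lit 30) (.e (nat_lit 573485) (nat_lit 13) (.e (nat_lit 65604) (nat_lit 9) (.e (nat_lit 336028) (nat_lit 3) (.e (nat_lit 98360) (nat_lit 26) (.e (nat_lit 426144) (nat_lit 4) (.e (nat_lit 229663) (nat_lit 240) .nil)))))))) (.g (nat_lit 1) (.e (nat_lit 22394) (nat_lit 0) .nil) .nil)))) 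
(.nd (nat_lit 9) 
(.lf (nat_lit 451983) (.g (nat_lit 4121) (.e (nat_lit 2611) (nat_lit 163) (.e (nat_lit 163978) (nat_lit 30) (.e (nat_lit 573485) (nat_lit 13) (.e (nat_lit 65604) (nat_lit 9) (.e (nat_lit 336028) (nat_lit 3) (.e (nat_lit 98366) (nat_lit 27) (.e (nat_lit 434202) (nat_lit 18) (.e (nat_lit 5537) (nat_lit 306) .nil)))))))) (.g (nat_lit 1) (.e (nat_lit 21428) (nat_lit 0) .nil) .nil))) 
(.lf (nat_lit 452495) (.g (nat_lit 3298) (.e (nat_lit 2612) (nat_lit 163) (.e (nat_lit 163979) (nat_lit 30) (.e (nat_lit 573492) (nat_lit 15) (.e (nat_lit 81956) (nat_lit 23) (.e (nat_lit 98354) (nat_lit 26) (.e (nat_lit 426144) (nat_lit 4) (.e (nat_lit 229663) (nat_lit 240) .nil))))))) (.g (nat_lit 1) (.e (nat_lit 22742) (nat_lit 0) .nil) .nil)))))) 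
(.nd (nat_lit 7) (.nd (nat_lit 8) (.nd (nat_lit 9) 
(.lf (nat_lit 451663) (.g (nat_lit 2886) (.e (nat_lit 2610) (nat_lit 163) (.e (nat_lit 163979) (nat_lit 30) (.e (nat_lit 573491) (nat_lit 15) (.e (nat_lit 81954) (nat_lit 23) (.e (nat_lit 98365) (nat_lit 26) (.e (nat_lit 426100) (nat_lit 1) (.e (nat_lit 164345) (nat_lit 240) .nil))))))) (.g (nat_lit 1) (.e (nat_lit 20291) (nat_lit 0) .nil) .nil))) 
(.lf (nat_lit 452175) (.g (nat_lit 4712) (.e (nat_lit 2612) (nat_lit 163) (.e (nat_lit 163977) (nat_lit 30) (.e (nat_lit 573493) (nat_lit 15) (.e (nat_lit 81951) (nat_lit 22) (.e (nat_lit 90172) (nat_lit 14) (.e (nat_lit 180233) (nat_lit 0) (.e (nat_lit 5448) (nat_lit 306) .nil))))))) (.g (nat_lit 1) (.e (nat_lit 22309) (nat_lit 0) .nil) .nil)))) (.nd (nat_lit 9) 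
(.lf (nat_lit 451919) (.g (nat_lit 4197) (.e (nat_lit 2611) (nat_lit 163) (.e (nat_lit 163977) (nat_lit 30) (.e (nat_lit 573482) (nat_lit 13) (.e (nat_lit 65619) (nat_lit 10) (.e (nat_lit 344129) (nat_lit 26) (.e (nat_lit 557087) (nat_lit 11) (.e (nat_lit 24597) (nat_lit 1) (.e (nat_lit 57773) (nat_lit 227) .nil)))))))) (.g (nat_lit 1) (.e (nat_lit 21018) (nat_lit 0) .nil) .nil))) 
(.lf (nat_lit 452431) (.g (nat_lit 4338) (.e (nat_lit 2612) (nat_lit 163) (.e (nat_lit 163979) (nat_lit 30) (.e (nat_lit 573487) (nat_lit 14) (.e (nat_lit 73753) (nat_lit 8) (.e (nat_lit 557098) (nat_lit 13) (.e (nat_lit 172133) (nat_lit 15) (.e (nat_lit 1800) (nat_lit 119) (.e (nat_lit 516117) (nat_lit 1) (.e (nat_lit 164304) (nat_lit 226) .nil))))))))) (.g (nat_lit 1) (.e (nat_lit 22661) (nat_lit 0) .nil) .nil))))) 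
(.nd (nat_lit 8) (.nd (nat_lit 9) 
(.lf (nat_lit 451791) (.g (nat_lit 3522) (.e (nat_lit 2610) (nat_lit 163) (.e (nat_lit 163979) (nat_lit 30) (.e (nat_lit 573493) (nat_lit 15) (.e (nat_lit 81956) (nat_lit 23) (.e (nat_lit 98356) (nat_lit 26) (.e (nat_lit 433920) (nat_lit 1) (.e (nat_lit 164346) (nat_lit 240) .nil))))))) (.g (nat_lit 1) (.e (nat_lit 20505) (nat_lit 0) .nil) .nil))) 
(.lf (nat_lit 452303) (.g (nat_lit 4181) (.e (nat_lit 2612) (nat_lit 163) (.e (nat_lit 163978) (nat_lit 30) (.e (nat_lit 573489) (nat_lit 14) (.e (nat_lit 73754) (nat_lit 8) (.e (nat_lit 557095) (nat_lit 13) (.e (nat_lit 172133) (nat_lit 15) (.e (nat_lit 1800) (nat_lit 119) (.e (nat_lit 516120) (nat_lit 1) (.e (nat_lit 164304) (nat_lit 226) .nil))))))))) (.g (nat_lit 1) (.e (nat_lit 22471) (nat_lit 0) .nil) .nil)))) 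
(.nd (nat_lit 9) 
(.lf (nat_lit 452047) (.g (nat_lit 3848) (.e (nat_lit 2611) (nat_lit 163) (.e (nat_lit 163979) (nat_lit 30) (.e (nat_lit 573482) (nat_lit 13) (.e (nat_lit 65619) (nat_lit 10) (.e (nat_lit 344117) (nat_lit 21) (.e (nat_lit 516169) (nat_lit 13) (.e (nat_lit 458774) (nat_lit 18) (.e (nat_lit 5548) (nat_lit 306) .nil)))))))) (.g (nat_lit 1) (.e (nat_lit 21808) (nat_lit 0) .nil) .nil))) 
(.lf (nat_lit 452559) (.g (nat_lit 2817) (.e (nat_lit 2612) (nat_lit 163) (.e (nat_lit 163979) (nat_lit 30) (.e (nat_lit 573493) (nat_lit 15) (.e (nat_lit 81956) (nat_lit 23) (.e (nat_lit 98366) (nat_lit 27) (.e (nat_lit 434215) (nat_lit 18) (.e (nat_lit 5448) (nat_lit 306) .nil))))))) (.g (nat_lit 1) (.e (nat_lit 22822) (nat_lit 0) .nil) .nil))))))) 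
(.nd (nat_lit 6) (.nd (nat_lit 7) (.nd (nat_lit 8) (.nd (nat_lit 9) 
(.lf (nat_lit 451631) (.g (nat_lit 4351) (.e (nat_lit 2610) (nat_lit 163) (.e (nat_lit 163979) (nat_lit 30) (.e (nat_lit 573482) (nat_lit 13) (.e (nat_lit 65619) (nat_lit 10) (.e (nat_lit 344129) (nat_lit 26) (.e (nat_lit 557087) (nat_lit 11) (.e (nat_lit 24597) (nat_lit 1) (.e (nat_lit 57773) (nat_lit 227) .nil)))))))) (.g (nat_lit 1) (.e (nat_lit 20227) (nat_lit 0) .nil) .nil))) 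
(.lf (nat_lit 452143) (.g (nat_lit 2692) (.e (nat_lit 2612) (nat_lit 163) (.e (nat_lit 163977) (nat_lit 30) (.e (nat_lit 573489) (nat_lit 14) (.e (nat_lit 73755) (nat_lit 8) (.e (nat_lit 557104) (nat_lit 14) (.e (nat_lit 180244) (nat_lit 5) (.e (nat_lit 532504) (nat_lit 1) (.e (nat_lit 57663) (nat_lit 152) .nil)))))))) (.g (nat_lit 1) (.e (nat_lit 22265) (nat_lit 0) .nil) .nil)))) 
(.nd (nat_lit 9) 
(.lf (nat_lit 451887) (.g (nat_lit 3394) (.e (nat_lit 2610) (nat_lit 163) (.e (nat_lit 164403) (nat_lit 256) (.e (nat_lit 57373) (nat_lit 2) (.e (nat_lit 90174) (nat_lit 14) (.e (nat_lit 180243) (nat_lit 5) (.e (nat_lit 532513) (nat_lit 3) (.e (nat_lit 114714) (nat_lit 22) (.e (nat_lit 90140) (nat_lit 9) .nil)))))))) (.g (nat_lit 1) (.e (nat_lit 20965) (nat_lit 0) .nil) .nil))) 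
(.lf (nat_lit 452399) (.g (nat_lit 4722) (.e (nat_lit 2612) (nat_lit 163) (.e (nat_lit 163979) (nat_lit 30) (.e (nat_lit 573482) (nat_lit 13) (.e (nat_lit 65604) (nat_lit 9) (.e (nat_lit 336013) (nat_lit 2) (.e (nat_lit 90170) (nat_lit 13) (.e (nat_lit 172070) (nat_lit 4) (.e (nat_lit 229665) (nat_lit 240) .nil)))))))) (.g (nat_lit 1) (.e (nat_lit 22623) (nat_lit 0) .nil) .nil))))) 
(.nd (nat_lit 8) (.nd (nat_lit 9) 
(.lf (nat_lit 451759) (.g (nat_lit 3885) (.e (nat_lit 2610) (nat_lit 163) (.e (nat_lit 163979) (nat_lit 30) (.e (nat_lit 573493) (nat_lit 15) (.e (nat_lit 81954) (nat_lit 23) (.e (nat_lit 98359) (nat_lit 26) (.e (nat_lit 426097) (nat_lit 1) (.e (nat_lit 164346) (nat_lit 240) .nil))))))) (.g (nat_lit 1) (.e (nat_lit 20445) (nat_lit 0) .nil) .nil))) 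
(.lf (nat_lit 452271) (.g (nat_lit 5358) (.e (nat_lit 2612) (nat_lit 163) (.e (nat_lit 163978) (nat_lit 30) (.e (nat_lit 573487) (nat_lit 14) (.e (nat_lit 73753) (nat_lit 8) (.e (nat_lit 557098) (nat_lit 13) (.e (nat_lit 172133) (nat_lit 15) (.e (nat_lit 1800) (nat_lit 119) (.e (nat_lit 516117) (nat_lit 1) (.e (nat_lit 164305) (nat_lit 226) .nil))))))))) (.g (nat_lit 1) (.e (nat_lit 22435) (nat_lit 0) .nil) .nil)))) 
(.nd (nat_lit 9) 
(.lf (nat_lit 452015) (.g (nat_lit 1980) (.e (nat_lit 2611) (nat_lit 163) (.e (nat_lit 163979) (nat_lit 30) (.e (nat_lit 573482) (nat_lit 13) (.e (nat_lit 65604) (nat_lit 9) (.e (nat_lit 336013) (nat_lit 2) .nil))))) (.g (nat_lit 0) (.e (nat_lit 21763) (nat_lit 0) .nil) .nil))) 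
(.lf (nat_lit 452527) (.g (nat_lit 2949) (.e (nat_lit 2612) (nat_lit 163) (.e (nat_lit 163979) (nat_lit 30) (.e (nat_lit 573493) (nat_lit 15) (.e (nat_lit 81953) (nat_lit 22) (.e (nat_lit 90170) (nat_lit 13) (.e (nat_lit 172070) (nat_lit 4) (.e (nat_lit 229664) (nat_lit 240) .nil))))))) (.g (nat_lit 1) (.e (nat_lit 22785) (nat_lit 0) .nil) .nil)))))) 
(.nd (nat_lit 7) (.nd (nat_lit 8) (.nd (nat_lit 9) 
(.lf (nat_lit 451695) (.g (nat_lit 3603) (.e (nat_lit 2610) (nat_lit 163) (.e (nat_lit 163979) (nat_lit 30) (.e (nat_lit 573492) (nat_lit 15) (.e (nat_lit 81956) (nat_lit 23) (.e (nat_lit 106240) (nat_lit 26) .nil))))) (.g (nat_lit 0) (.e (nat_lit 20348) (nat_lit 0) .nil) .nil))) 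
(.lf (nat_lit 452207) (.g (nat_lit 3501) (.e (nat_lit 2612) (nat_lit 163) (.e (nat_lit 163978) (nat_lit 30) (.e (nat_lit 573479) (nat_lit 13) (.e (nat_lit 65604) (nat_lit 9) (.e (nat_lit 336013) (nat_lit 2) (.e (nat_lit 90170) (nat_lit 13) (.e (nat_lit 172070) (nat_lit 4) (.e (nat_lit 229666) (nat_lit 240) .nil)))))))) (.g (nat_lit 1) (.e (nat_lit 22356) (nat_lit 0) .nil) .nil)))) 
(.nd (nat_lit 9) 
(.lf (nat_lit 451951) (.g (nat_lit 4605) (.e (nat_lit 2611) (nat_lit 163) (.e (nat_lit 163978) (nat_lit 30) (.e (nat_lit 573479) (nat_lit 13) (.e (nat_lit 65619) (nat_lit 10) (.e (nat_lit 344117) (nat_lit 21) (.e (nat_lit 516143) (nat_lit 9) (.e (nat_lit 426109) (nat_lit 1) (.e (nat_lit 164347) (nat_lit 240) .nil)))))))) (.g (nat_lit 1) (.e (nat_lit 21336) (nat_lit 0) .nil) .nil))) 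
(.lf (nat_lit 452463) (.g (nat_lit 3402) (.e (nat_lit 2612) (nat_lit 163) (.e (nat_lit 163979) (nat_lit 30) (.e (nat_lit 573489) (nat_lit 14) (.e (nat_lit 73755) (nat_lit 8) (.e (nat_lit 557098) (nat_lit 13) (.e (nat_lit 172132) (nat_lit 15) (.e (nat_lit 1796) (nat_lit 119) (.e (nat_lit 516120) (nat_lit 1) (.e (nat_lit 164304) (nat_lit 226) .nil))))))))) (.g (nat_lit 1) (.e (nat_lit 22697) (nat_lit 0) .nil) .nil))))) 
(.nd (nat_lit 8) (.nd (nat_lit 9) 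
(.lf (nat_lit 451823) (.g (nat_lit 4973) (.e (nat_lit 2610) (nat_lit 163) (.e (nat_lit 163979) (nat_lit 30) (.e (nat_lit 573493) (nat_lit 15) (.e (nat_lit 81956) (nat_lit 23) (.e (nat_lit 98365) (nat_lit 26) (.e (nat_lit 426107) (nat_lit 1) (.e (nat_lit 164348) (nat_lit 240) .nil))))))) (.g (nat_lit 1) (.e (nat_lit 20552) (nat_lit 0) .nil) .nil))) 
(.lf (nat_lit 452335) (.g (nat_lit 3470) (.e (nat_lit 2612) (nat_lit 163) (.e (nat_lit 163978) (nat_lit 30) (.e (nat_lit 573489) (nat_lit 14) (.e (nat_lit 73755) (nat_lit 8) (.e (nat_lit 557097) (nat_lit 13) (.e (nat_lit 172131) (nat_lit 15) (.e (nat_lit 1800) (nat_lit 119) (.e (nat_lit 516117) (nat_lit 1) (.e (nat_lit 164304) (nat_lit 226) .nil))))))))) (.g (nat_lit 1) (.e (nat_lit 22516) (nat_lit 0) .nil) .nil)))) 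
(.nd (nat_lit 9) 
(.lf (nat_lit 452079) (.g (nat_lit 4524) (.e (nat_lit 2612) (nat_lit 163) (.e (nat_lit 163964) (nat_lit 25) (.e (nat_lit 532513) (nat_lit 3) (.e (nat_lit 114714) (nat_lit 22) (.e (nat_lit 90170) (nat_lit 13) (.e (nat_lit 172065) (nat_lit 3) (.e (nat_lit 204830) (nat_lit 18) (.e (nat_lit 57663) (nat_lit 152) .nil)))))))) (.g (nat_lit 1) (.e (nat_lit 22180) (nat_lit 0) .nil) .nil))) 
(.lf (nat_lit 452591) (.g (nat_lit 2460) (.e (nat_lit 2612) (nat_lit 163) (.e (nat_lit 164403) (nat_lit 256) (.e (nat_lit 57370) (nat_lit 2) (.e (nat_lit 90174) (nat_lit 14) (.e (nat_lit 180243) (nat_lit 5) (.e (nat_lit 532515) (nat_lit 3) (.e (nat_lit 114716) (nat_lit 22) (.e (nat_lit 90130) (nat_lit 9) .nil)))))))) (.g (nat_lit 1) (.e (nat_lit 23275) (nat_lit 0) .nil) .nil)))))))) 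
(.nd (nat_lit 5) (.nd (nat_lit 6) (.nd (nat_lit 7) (.nd (nat_lit 8) (.nd (nat_lit 9) 
(.lf (nat_lit 451615) (.g (nat_lit 2394) (.e (nat_lit 2610) (nat_lit 163) (.e (nat_lit 163979) (nat_lit 30) (.e (nat_lit 573482) (nat_lit 13) (.e (nat_lit 65619) (nat_lit 10) (.e (nat_lit 344117) (nat_lit 21) (.e (nat_lit 516169) (nat_lit 13) (.e (nat_lit 458774) (nat_lit 18) (.e (nat_lit 5543) (nat_lit 306) .nil)))))))) (.g (nat_lit 1) (.e (nat_lit 20209) (nat_lit 0) .nil) .nil))) 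
(.lf (nat_lit 452127) (.g (nat_lit 2181) (.e (nat_lit 2612) (nat_lit 163) (.e (nat_lit 163977) (nat_lit 30) (.e (nat_lit 573487) (nat_lit 14) (.e (nat_lit 73753) (nat_lit 8) (.e (nat_lit 557098) (nat_lit 13) .nil))))) (.g (nat_lit 0) (.e (nat_lit 22246) (nat_lit 0) .nil) .nil)))) (.nd (nat_lit 9) 
(.lf (nat_lit 451871) (.g (nat_lit 2584) (.e (nat_lit 2610) (nat_lit 163) (.e (nat_lit 164396) (nat_lit 256) (.e (nat_lit 57371) (nat_lit 2) (.e (nat_lit 90174) (nat_lit 14) (.e (nat_lit 180243) (nat_lit 5) (.e (nat_lit 532515) (nat_lit 3) (.e (nat_lit 114716) (nat_lit 22) (.e (nat_lit 90121) (nat_lit 9) .nil)))))))) (.g (nat_lit 1) (.e (nat_lit 20949) (nat_lit 0) .nil) .nil))) 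
(.lf (nat_lit 452383) (.g (nat_lit 3816) (.e (nat_lit 2612) (nat_lit 163) (.e (nat_lit 163978) (nat_lit 30) (.e (nat_lit 573489) (nat_lit 14) (.e (nat_lit 73755) (nat_lit 8) (.e (nat_lit 557104) (nat_lit 14) (.e (nat_lit 180244) (nat_lit 5) (.e (nat_lit 532503) (nat_lit 1) (.e (nat_lit 57652) (nat_lit 152) .nil)))))))) (.g (nat_lit 1) (.e (nat_lit 22564) (nat_lit 0) .nil) .nil))))) 
(.nd (nat_lit 8) (.nd (nat_lit 9) 
(.lf (nat_lit 451743) (.g (nat_lit 5237) (.e (nat_lit 2610) (nat_lit 163) (.e (nat_lit 163979) (nat_lit 30) (.e (nat_lit 573493) (nat_lit 15) (.e (nat_lit 81953) (nat_lit 22) (.e (nat_lit 90174) (nat_lit 14) (.e (nat_lit 180228) (nat_lit 0) (.e (nat_lit 5547) (nat_lit 306) .nil))))))) (.g (nat_lit 1) (.e (nat_lit 20427) (nat_lit 0) .nil) .nil))) 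
(.lf (nat_lit 452255) (.g (nat_lit 3635) (.e (nat_lit 2612) (nat_lit 163) (.e (nat_lit 163978) (nat_lit 30) (.e (nat_lit 573485) (nat_lit 13) (.e (nat_lit 65619) (nat_lit 10) (.e (nat_lit 344117) (nat_lit 21) (.e (nat_lit 516160) (nat_lit 10) (.e (nat_lit 434215) (nat_lit 18) (.e (nat_lit 5448) (nat_lit 306) .nil)))))))) (.g (nat_lit 1) (.e (nat_lit 22411) (nat_lit 0) .nil) .nil)))) 
(.nd (nat_lit 9) 
(.lf (nat_lit 451999) (.g (nat_lit 4306) (.e (nat_lit 2611) (nat_lit 163) (.e (nat_lit 163978) (nat_lit 30) (.e (nat_lit 573485) (nat_lit 13) (.e (nat_lit 65619) (nat_lit 10) (.e (nat_lit 344117) (nat_lit 21) (.e (nat_lit 516151) (nat_lit 9) (.e (nat_lit 426097) (nat_lit 1) (.e (nat_lit 164346) (nat_lit 240) .nil)))))))) (.g (nat_lit 1) (.e (nat_lit 21446) (nat_lit 0) .nil) .nil))) 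
(.lf (nat_lit 452511) (.g (nat_lit 5414) (.e (nat_lit 2612) (nat_lit 163) (.e (nat_lit 163979) (nat_lit 30) (.e (nat_lit 573493) (nat_lit 15) (.e (nat_lit 81951) (nat_lit 22) (.e (nat_lit 90170) (nat_lit 13) (.e (nat_lit 172068) (nat_lit 4) (.e (nat_lit 229663) (nat_lit 240) .nil))))))) (.g (nat_lit 1) (.e (nat_lit 22768) (nat_lit 0) .nil) .nil)))))) 
(.nd (nat_lit 7) (.nd (nat_lit 8) (.nd (nat_lit 9) 
(.lf (nat_lit 451679) (.g (nat_lit 1859) (.e (nat_lit 2610) (nat_lit 163) (.e (nat_lit 163979) (nat_lit 30) (.e (nat_lit 573491) (nat_lit 15) (.e (nat_lit 81955) (nat_lit 23) .nil)))) (.g (nat_lit 0) (.e (nat_lit 20310) (nat_lit 0) .nil) .nil))) 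
(.lf (nat_lit 452191) (.g (nat_lit 2667) (.e (nat_lit 2612) (nat_lit 163) (.e (nat_lit 163977) (nat_lit 30) (.e (nat_lit 573493) (nat_lit 15) (.e (nat_lit 81956) (nat_lit 23) (.e (nat_lit 98356) (nat_lit 26) .nil))))) (.g (nat_lit 0) (.e (nat_lit 22331) (nat_lit 0) .nil) .nil)))) (.nd (nat_lit 9) 
(.lf (nat_lit 451935) (.g (nat_lit 3497) (.e (nat_lit 2611) (nat_lit 163) (.e (nat_lit 163978) (nat_lit 30) (.e (nat_lit 573479) (nat_lit 13) (.e (nat_lit 65604) (nat_lit 9) (.e (nat_lit 336013) (nat_lit 2) (.e (nat_lit 90170) (nat_lit 13) (.e (nat_lit 172061) (nat_lit 1) (.e (nat_lit 164345) (nat_lit 240) .nil)))))))) (.g (nat_lit 1) (.e (nat_lit 21318) (nat_lit 0) .nil) .nil))) 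
(.lf (nat_lit 452447) (.g (nat_lit 2832) (.e (nat_lit 2612) (nat_lit 163) (.e (nat_lit 163979) (nat_lit 30) (.e (nat_lit 573488) (nat_lit 14) (.e (nat_lit 73755) (nat_lit 8) (.e (nat_lit 557097) (nat_lit 13) (.e (nat_lit 179968) (nat_lit 18) (.e (nat_lit 98334) (nat_lit 18) (.e (nat_lit 164305) (nat_lit 226) .nil)))))))) (.g (nat_lit 1) (.e (nat_lit 22677) (nat_lit 0) .nil) .nil))))) 
(.nd (nat_lit 8) (.nd (nat_lit 9) 
(.lf (nat_lit 451807) (.g (nat_lit 5140) (.e (nat_lit 2610) (nat_lit 163) (.e (nat_lit 163979) (nat_lit 30) (.e (nat_lit 573493) (nat_lit 15) (.e (nat_lit 81956) (nat_lit 23) (.e (nat_lit 98361) (nat_lit 26) (.e (nat_lit 426109) (nat_lit 1) (.e (nat_lit 164345) (nat_lit 240) .nil))))))) (.g (nat_lit 1) (.e (nat_lit 20536) (nat_lit 0) .nil) .nil))) 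
(.lf (nat_lit 452319) (.g (nat_lit 4126) (.e (nat_lit 2612) (nat_lit 163) (.e (nat_lit 163978) (nat_lit 30) (.e (nat_lit 573489) (nat_lit 14) (.e (nat_lit 73755) (nat_lit 8) (.e (nat_lit 557096) (nat_lit 13) (.e (nat_lit 172067) (nat_lit 3) (.e (nat_lit 204830) (nat_lit 18) (.e (nat_lit 57663) (nat_lit 152) .nil)))))))) (.g (nat_lit 1) (.e (nat_lit 22500) (nat_lit 0) .nil) .nil)))) 
(.nd (nat_lit 9) 
(.lf (nat_lit 452063) (.g (nat_lit 4643) (.e (nat_lit 2611) (nat_lit 163) (.e (nat_lit 164402) (nat_lit 256) (.e (nat_lit 57371) (nat_lit 2) (.e (nat_lit 90174) (nat_lit 14) (.e (nat_lit 180243) (nat_lit 5) (.e (nat_lit 532515) (nat_lit 3) (.e (nat_lit 114716) (nat_lit 22) (.e (nat_lit 90140) (nat_lit 9) .nil)))))))) (.g (nat_lit 1) (.e (nat_lit 22152) (nat_lit 0) .nil) .nil))) 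
(.lf (nat_lit 452575) (.g (nat_lit 4321) (.e (nat_lit 2612) (nat_lit 163) (.e (nat_lit 164326) (nat_lit 230) (.e (nat_lit 163903) (nat_lit 12) (.e (nat_lit 426568) (nat_lit 34) (.e (nat_lit 393271) (nat_lit 23) (.e (nat_lit 426428) (nat_lit 17) (.e (nat_lit 90134) (nat_lit 9) .nil))))))) (.g (nat_lit 1) (.e (nat_lit 23024) (nat_lit 0) .nil) .nil))))))) 
(.nd (nat_lit 6) (.nd (nat_lit 7) (.nd (nat_lit 8) (.nd (nat_lit 9) 
(.lf (nat_lit 451647) (.g (nat_lit 3402) (.e (nat_lit 2610) (nat_lit 163) (.e (nat_lit 163979) (nat_lit 30) (.e (nat_lit 573491) (nat_lit 15) (.e (nat_lit 81954) (nat_lit 23) (.e (nat_lit 98354) (nat_lit 26) (.e (nat_lit 426109) (nat_lit 1) (.e (nat_lit 164345) (nat_lit 240) .nil))))))) (.g (nat_lit 1) (.e (nat_lit 20274) (nat_lit 0) .nil) .nil))) 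
(.lf (nat_lit 452159) (.g (nat_lit 3452) (.e (nat_lit 2612) (nat_lit 163) (.e (nat_lit 163977) (nat_lit 30) (.e (nat_lit 573492) (nat_lit 15) (.e (nat_lit 81956) (nat_lit 23) (.e (nat_lit 98355) (nat_lit 26) (.e (nat_lit 426141) (nat_lit 4) (.e (nat_lit 229666) (nat_lit 240) .nil))))))) (.g (nat_lit 1) (.e (nat_lit 22289) (nat_lit 0) .nil) .nil)))) (.nd (nat_lit 9) 
(.lf (nat_lit 451903) (.g (nat_lit 3922) (.e (nat_lit 2611) (nat_lit 163) (.e (nat_lit 163977) (nat_lit 30) (.e (nat_lit 573482) (nat_lit 13) (.e (nat_lit 65604) (nat_lit 9) (.e (nat_lit 336013) (nat_lit 2) (.e (nat_lit 90170) (nat_lit 13) (.e (nat_lit 172061) (nat_lit 1) (.e (nat_lit 164346) (nat_lit 240) .nil)))))))) (.g (nat_lit 1) (.e (nat_lit 20994) (nat_lit 0) .nil) .nil))) 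
(.lf (nat_lit 452415) (.g (nat_lit 3980) (.e (nat_lit 2612) (nat_lit 163) (.e (nat_lit 163979) (nat_lit 30) (.e (nat_lit 573482) (nat_lit 13) (.e (nat_lit 65619) (nat_lit 10) (.e (nat_lit 344117) (nat_lit 21) (.e (nat_lit 516152) (nat_lit 9) (.e (nat_lit 426144) (nat_lit 4) (.e (nat_lit 229663) (nat_lit 240) .nil)))))))) (.g (nat_lit 1) (.e (nat_lit 22639) (nat_lit 0) .nil) .nil))))) 
(.nd (nat_lit 8) (.nd (nat_lit 9) 
(.lf (nat_lit 451775) (.g (nat_lit 3461) (.e (nat_lit 2610) (nat_lit 163) (.e (nat_lit 163979) (nat_lit 30) (.e (nat_lit 573493) (nat_lit 15) (.e (nat_lit 81954) (nat_lit 23) (.e (nat_lit 98366) (nat_lit 27) .nil))))) (.g (nat_lit 0) (.e (nat_lit 20461) (nat_lit 0) .nil) .nil))) 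
(.lf (nat_lit 452287) (.g (nat_lit 2990) (.e (nat_lit 2612) (nat_lit 163) (.e (nat_lit 163978) (nat_lit 30) (.e (nat_lit 573487) (nat_lit 14) (.e (nat_lit 73753) (nat_lit 8) (.e (nat_lit 557100) (nat_lit 13) (.e (nat_lit 179968) (nat_lit 15) (.e (nat_lit 1800) (nat_lit 119) (.e (nat_lit 516117) (nat_lit 1) (.e (nat_lit 164304) (nat_lit 226) .nil))))))))) (.g (nat_lit 1) (.e (nat_lit 22453) (nat_lit 0) .nil) .nil)))) 
(.nd (nat_lit 9) 
(.lf (nat_lit 452031) (.g (nat_lit 4964) (.e (nat_lit 2611) (nat_lit 163) (.e (nat_lit 163979) (nat_lit 30) (.e (nat_lit 573482) (nat_lit 13) (.e (nat_lit 65604) (nat_lit 9) (.e (nat_lit 336028) (nat_lit 3) (.e (nat_lit 98367) (nat_lit 27) (.e (nat_lit 434209) (nat_lit 18) (.e (nat_lit 5548) (nat_lit 306) .nil)))))))) (.g (nat_lit 1) (.e (nat_lit 21792) (nat_lit 0) .nil) .nil))) 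
(.lf (nat_lit 452543) (.g (nat_lit 4258) (.e (nat_lit 2612) (nat_lit 163) (.e (nat_lit 163979) (nat_lit 30) (.e (nat_lit 573493) (nat_lit 15) (.e (nat_lit 81956) (nat_lit 23) (.e (nat_lit 98356) (nat_lit 26) (.e (nat_lit 426148) (nat_lit 4) (.e (nat_lit 229663) (nat_lit 240) .nil))))))) (.g (nat_lit 1) (.e (nat_lit 22806) (nat_lit 0) .nil) .nil)))))) 
(.nd (nat_lit 7) (.nd (nat_lit 8) (.nd (nat_lit 9) 
(.lf (nat_lit 451711) (.g (nat_lit 3974) (.e (nat_lit 2610) (nat_lit 163) (.e (nat_lit 163979) (nat_lit 30) (.e (nat_lit 573493) (nat_lit 15) (.e (nat_lit 81951) (nat_lit 22) (.e (nat_lit 90170) (nat_lit 13) (.e (nat_lit 172059) (nat_lit 1) (.e (nat_lit 164346) (nat_lit 240) .nil))))))) (.g (nat_lit 1) (.e (nat_lit 20380) (nat_lit 0) .nil) .nil))) 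
(.lf (nat_lit 452223) (.g (nat_lit 3631) (.e (nat_lit 2612) (nat_lit 163) (.e (nat_lit 163978) (nat_lit 30) (.e (nat_lit 573484) (nat_lit 13) (.e (nat_lit 65610) (nat_lit 10) (.e (nat_lit 344117) (nat_lit 21) (.e (nat_lit 516153) (nat_lit 9) (.e (nat_lit 426144) (nat_lit 4) (.e (nat_lit 229663) (nat_lit 240) .nil)))))))) (.g (nat_lit 1) (.e (nat_lit 22375) (nat_lit 0) .nil) .nil)))) 
(.nd (nat_lit 9) 
(.lf (nat_lit 451967) (.g (nat_lit 4252) (.e (nat_lit 2611) (nat_lit 163) (.e (nat_lit 163978) (nat_lit 30) (.e (nat_lit 573479) (nat_lit 13) (.e (nat_lit 65619) (nat_lit 10) (.e (nat_lit 344117) (nat_lit 21) (.e (nat_lit 516169) (nat_lit 13) (.e (nat_lit 458774) (nat_lit 18) (.e (nat_lit 5548) (nat_lit 306) .nil)))))))) (.g (nat_lit 1) (.e (nat_lit 21352) (nat_lit 0) .nil) .nil))) 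
(.lf (nat_lit 452479) (.g (nat_lit 555) (.e (nat_lit 2612) (nat_lit 163) (.e (nat_lit 163979) (nat_lit 30) (.e (nat_lit 573491) (nat_lit 15) .nil))) (.g (nat_lit 0) (.e (nat_lit 22713) (nat_lit 0) .nil) .nil))))) (.nd (nat_lit 8) (.nd (nat_lit 9) 
(.lf (nat_lit 451839) (.g (nat_lit 4795) (.e (nat_lit 2610) (nat_lit 163) (.e (nat_lit 163979) (nat_lit 30) (.e (nat_lit 573493) (nat_lit 15) (.e (nat_lit 81956) (nat_lit 23) (.e (nat_lit 98368) (nat_lit 27) (.e (nat_lit 434202) (nat_lit 18) (.e (nat_lit 5537) (nat_lit 306) .nil))))))) (.g (nat_lit 1) (.e (nat_lit 20568) (nat_lit 0) .nil) .nil))) 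
(.lf (nat_lit 452351) (.g (nat_lit 3402) (.e (nat_lit 2612) (nat_lit 163) (.e (nat_lit 163978) (nat_lit 30) (.e (nat_lit 573489) (nat_lit 14) (.e (nat_lit 73755) (nat_lit 8) (.e (nat_lit 557098) (nat_lit 13) (.e (nat_lit 172131) (nat_lit 15) (.e (nat_lit 1784) (nat_lit 119) (.e (nat_lit 516117) (nat_lit 1) (.e (nat_lit 164304) (nat_lit 226) .nil))))))))) (.g (nat_lit 1) (.e (nat_lit 22532) (nat_lit 0) .nil) .nil)))) 
(.nd (nat_lit 9) 
(.lf (nat_lit 452095) (.g (nat_lit 2031) (.e (nat_lit 2612) (nat_lit 163) (.e (nat_lit 163977) (nat_lit 30) (.e (nat_lit 573482) (nat_lit 13) (.e (nat_lit 65604) (nat_lit 9) (.e (nat_lit 336013) (nat_lit 2) (.e (nat_lit 90170) (nat_lit 13) (.e (nat_lit 172068) (nat_lit 4) (.e (nat_lit 229664) (nat_lit 240) .nil)))))))) (.g (nat_lit 1) (.e (nat_lit 22213) (nat_lit 0) .nil) .nil))) 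
(.lf (nat_lit 452607) (.g (nat_lit 2718) (.e (nat_lit 2612) (nat_lit 163) (.e (nat_lit 164403) (nat_lit 256) (.e (nat_lit 57378) (nat_lit 3) (.e (nat_lit 98367) (nat_lit 27) (.e (nat_lit 434231) (nat_lit 23) (.e (nat_lit 532514) (nat_lit 3) (.e (nat_lit 114716) (nat_lit 22) (.e (nat_lit 90130) (nat_lit 9) .nil)))))))) (.g (nat_lit 1) (.e (nat_lit 23291) (nat_lit 0) .nil) .nil)))))))))))))

noncomputable def tv5502 : DT := (.nd (nat_lit 0) (.nd (nat_lit 1) (.nd (nat_lit 2) (.nd (nat_lit 3) (.nd (nat_lit 4) (.nd (nat_lit 5) (.nd (nat_lit 6) (.nd (nat_lit 7) (.nd (nat_lit 8) (.nd (nat_lit 9) 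
(.lf (nat_lit 452608) (.g (nat_lit 3222) (.e (nat_lit 2612) (nat_lit 163) (.e (nat_lit 164403) (nat_lit 256) (.e (nat_lit 57378) (nat_lit 3) (.e (nat_lit 98368) (nat_lit 27) (.e (nat_lit 434245) (nat_lit 28) (.e (nat_lit 573488) (nat_lit 14) (.e (nat_lit 73755) (nat_lit 8) (.e (nat_lit 557065) (nat_lit 9) .nil)))))))) (.g (nat_lit 1) (.e (nat_lit 23292) (nat_lit 0) .nil) .nil))) 
(.lf (nat_lit 453120) (.g (nat_lit 2179) (.e (nat_lit 2625) (nat_lit 164) (.e (nat_lit 172120) (nat_lit 12) (.e (nat_lit 475185) (nat_lit 29) (.e (nat_lit 557107) (nat_lit 15) .nil)))) (.g (nat_lit 0) (.e (nat_lit 26774) (nat_lit 0) .nil) .nil)))) (.nd (nat_lit 9) 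
(.lf (nat_lit 452864) (.g (nat_lit 3770) (.e (nat_lit 2619) (nat_lit 164) (.e (nat_lit 172120) (nat_lit 12) (.e (nat_lit 475210) (nat_lit 41) (.e (nat_lit 712752) (nat_lit 29) (.e (nat_lit 442421) (nat_lit 21) (.e (nat_lit 164348) (nat_lit 240) .nil)))))) (.g (nat_lit 1) (.e (nat_lit 25321) (nat_lit 0) .nil) .nil))) 
(.lf (nat_lit 453376) (.g (nat_lit 2827) (.e (nat_lit 2628) (nat_lit 164) (.e (nat_lit 172126) (nat_lit 14) (.e (nat_lit 491540) (nat_lit 3) (.e (nat_lit 98373) (nat_lit 29) (.e (nat_lit 450560) (nat_lit 0) (.e (nat_lit 3936) (nat_lit 239) .nil)))))) (.g (nat_lit 1) (.e (nat_lit 28655) (nat_lit 0) .nil) .nil))))) (.nd (nat_lit 8) (.nd (nat_lit 9) 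
(.lf (nat_lit 452736) (.g (nat_lit 3419) (.e (nat_lit 2618) (nat_lit 164) (.e (nat_lit 172124) (nat_lit 14) (.e (nat_lit 491550) (nat_lit 9) (.e (nat_lit 336443) (nat_lit 32) (.e (nat_lit 466969) (nat_lit 21) (.e (nat_lit 164345) (nat_lit 240) .nil)))))) (.g (nat_lit 1) (.e (nat_lit 24471) (nat_lit 0) .nil) .nil))) 
(.lf (nat_lit 453248) (.g (nat_lit 1754) (.e (nat_lit 2628) (nat_lit 164) (.e (nat_lit 172118) (nat_lit 12) (.e (nat_lit 475198) (nat_lit 40) (.e (nat_lit 704598) (nat_lit 6) (.e (nat_lit 188446) (nat_lit 21) (.e (nat_lit 164346) (nat_lit 240) .nil)))))) (.g (nat_lit 1) (.e (nat_lit 28159) (nat_lit 0) .nil) .nil)))) (.nd (nat_lit 9) 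
(.lf (nat_lit 452992) (.g (nat_lit 3575) (.e (nat_lit 2619) (nat_lit 164) (.e (nat_lit 172126) (nat_lit 14) (.e (nat_lit 491549) (nat_lit 9) (.e (nat_lit 336443) (nat_lit 32) (.e (nat_lit 466971) (nat_lit 21) (.e (nat_lit 164348) (nat_lit 240) .nil)))))) (.g (nat_lit 1) (.e (nat_lit 25777) (nat_lit 0) .nil) .nil))) 
(.lf (nat_lit 453504) (.g (nat_lit 3353) (.e (nat_lit 2629) (nat_lit 164) (.e (nat_lit 172120) (nat_lit 12) (.e (nat_lit 475211) (nat_lit 41) (.e (nat_lit 712752) (nat_lit 29) (.e (nat_lit 442421) (nat_lit 21) (.e (nat_lit 164347) (nat_lit 240) .nil)))))) (.g (nat_lit 1) (.e (nat_lit 29681) (nat_lit 0) .nil) .nil)))))) (.nd (nat_lit 7) (.nd (nat_lit 8) (.nd (nat_lit 9) 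
(.lf (nat_lit 452672) (.g (nat_lit 3438) (.e (nat_lit 2617) (nat_lit 164) (.e (nat_lit 172126) (nat_lit 14) (.e (nat_lit 491549) (nat_lit 9) (.e (nat_lit 336443) (nat_lit 32) (.e (nat_lit 466971) (nat_lit 21) (.e (nat_lit 164348) (nat_lit 240) .nil)))))) (.g (nat_lit 1) (.e (nat_lit 23924) (nat_lit 0) .nil) .nil))) 
(.lf (nat_lit 453184) (.g (nat_lit 992) (.e (nat_lit 2627) (nat_lit 164) (.e (nat_lit 172126) (nat_lit 14) (.e (nat_lit 491537) (nat_lit 2) .nil))) (.g (nat_lit 0) (.e (nat_lit 27459) (nat_lit 0) .nil) .nil)))) (.nd (nat_lit 9) 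
(.lf (nat_lit 452928) (.g (nat_lit 3187) (.e (nat_lit 2619) (nat_lit 164) (.e (nat_lit 172124) (nat_lit 14) (.e (nat_lit 491550) (nat_lit 9) (.e (nat_lit 336430) (nat_lit 29) (.e (nat_lit 442421) (nat_lit 21) (.e (nat_lit 164346) (nat_lit 240) .nil)))))) (.g (nat_lit 1) (.e (nat_lit 25441) (nat_lit 0) .nil) .nil))) 
(.lf (nat_lit 453440) (.g (nat_lit 1657) (.e (nat_lit 2629) (nat_lit 164) (.e (nat_lit 172118) (nat_lit 12) (.e (nat_lit 475210) (nat_lit 41) (.e (nat_lit 712753) (nat_lit 30) (.e (nat_lit 458496) (nat_lit 0) .nil))))) (.g (nat_lit 0) (.e (nat_lit 29582) (nat_lit 0) .nil) .nil))))) (.nd (nat_lit 8) (.nd (nat_lit 9) 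
(.lf (nat_lit 452800) (.g (nat_lit 3364) (.e (nat_lit 2619) (nat_lit 164) (.e (nat_lit 172118) (nat_lit 12) (.e (nat_lit 475210) (nat_lit 41) (.e (nat_lit 712752) (nat_lit 29) (.e (nat_lit 442421) (nat_lit 21) (.e (nat_lit 164346) (nat_lit 240) .nil)))))) (.g (nat_lit 1) (.e (nat_lit 25226) (nat_lit 0) .nil) .nil))) 
(.lf (nat_lit 453312) (.g (nat_lit 2802) (.e (nat_lit 2628) (nat_lit 164) (.e (nat_lit 172120) (nat_lit 12) (.e (nat_lit 475211) (nat_lit 41) (.e (nat_lit 712750) (nat_lit 29) (.e (nat_lit 442421) (nat_lit 21) (.e (nat_lit 164346) (nat_lit 240) .nil)))))) (.g (nat_lit 1) (.e (nat_lit 28271) (nat_lit 0) .nil) .nil)))) (.nd (nat_lit 9) 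
(.lf (nat_lit 453056) (.g (nat_lit 1468) (.e (nat_lit 2621) (nat_lit 164) (.e (nat_lit 172120) (nat_lit 12) (.e (nat_lit 475197) (nat_lit 40) (.e (nat_lit 704598) (nat_lit 6) (.e (nat_lit 188455) (nat_lit 24) (.e (nat_lit 229666) (nat_lit 240) .nil)))))) (.g (nat_lit 1) (.e (nat_lit 26205) (nat_lit 0) .nil) .nil))) 
(.lf (nat_lit 453568) (.g (nat_lit 3944) (.e (nat_lit 2629) (nat_lit 164) (.e (nat_lit 172126) (nat_lit 14) (.e (nat_lit 491540) (nat_lit 3) (.e (nat_lit 98373) (nat_lit 29) (.e (nat_lit 450568) (nat_lit 0) (.e (nat_lit 3978) (nat_lit 239) .nil)))))) (.g (nat_lit 1) (.e (nat_lit 30203) (nat_lit 0) .nil) .nil))))))) (.nd (nat_lit 6) (.nd (nat_lit 7) (.nd (nat_lit 8) (.nd (nat_lit 9) 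
(.lf (nat_lit 452640) (.g (nat_lit 1859) (.e (nat_lit 2617) (nat_lit 164) (.e (nat_lit 172124) (nat_lit 14) (.e (nat_lit 491549) (nat_lit 9) (.e (nat_lit 336434) (nat_lit 30) .nil)))) (.g (nat_lit 0) (.e (nat_lit 23809) (nat_lit 0) .nil) .nil))) 
(.lf (nat_lit 453152) (.g (nat_lit 4933) (.e (nat_lit 2625) (nat_lit 164) (.e (nat_lit 172126) (nat_lit 14) (.e (nat_lit 491540) (nat_lit 3) (.e (nat_lit 98373) (nat_lit 29) (.e (nat_lit 450562) (nat_lit 0) (.e (nat_lit 3948) (nat_lit 239) .nil)))))) (.g (nat_lit 1) (.e (nat_lit 26982) (nat_lit 0) .nil) .nil)))) (.nd (nat_lit 9) 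
(.lf (nat_lit 452896) (.g (nat_lit 3872) (.e (nat_lit 2619) (nat_lit 164) (.e (nat_lit 172120) (nat_lit 12) (.e (nat_lit 475211) (nat_lit 41) (.e (nat_lit 712755) (nat_lit 30) (.e (nat_lit 450564) (nat_lit 0) (.e (nat_lit 5548) (nat_lit 306) .nil)))))) (.g (nat_lit 1) (.e (nat_lit 25355) (nat_lit 0) .nil) .nil))) 
(.lf (nat_lit 453408) (.g (nat_lit 3450) (.e (nat_lit 2628) (nat_lit 164) (.e (nat_lit 172126) (nat_lit 14) (.e (nat_lit 491550) (nat_lit 9) (.e (nat_lit 336430) (nat_lit 29) (.e (nat_lit 442419) (nat_lit 21) (.e (nat_lit 164346) (nat_lit 240) .nil)))))) (.g (nat_lit 1) (.e (nat_lit 28720) (nat_lit 0) .nil) .nil))))) (.nd (nat_lit 8) (.nd (nat_lit 9) 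
(.lf (nat_lit 452768) (.g (nat_lit 2854) (.e (nat_lit 2619) (nat_lit 164) (.e (nat_lit 172062) (nat_lit 2) (.e (nat_lit 196666) (nat_lit 13) (.e (nat_lit 65610) (nat_lit 10) (.e (nat_lit 344117) (nat_lit 21) (.e (nat_lit 516098) (nat_lit 0) (.e (nat_lit 2409) (nat_lit 157) (.e (nat_lit 4506) (nat_lit 263) .nil)))))))) (.g (nat_lit 1) (.e (nat_lit 24740) (nat_lit 0) .nil) .nil))) 
(.lf (nat_lit 453280) (.g (nat_lit 3901) (.e (nat_lit 2628) (nat_lit 164) (.e (nat_lit 172118) (nat_lit 12) (.e (nat_lit 475211) (nat_lit 41) (.e (nat_lit 712755) (nat_lit 30) (.e (nat_lit 450563) (nat_lit 0) (.e (nat_lit 5537) (nat_lit 306) .nil)))))) (.g (nat_lit 1) (.e (nat_lit 28208) (nat_lit 0) .nil) .nil)))) (.nd (nat_lit 9) 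
(.lf (nat_lit 453024) (.g (nat_lit 2909) (.e (nat_lit 2620) (nat_lit 164) (.e (nat_lit 172066) (nat_lit 3) (.e (nat_lit 204869) (nat_lit 29) (.e (nat_lit 360475) (nat_lit 8) (.e (nat_lit 557089) (nat_lit 12) .nil))))) (.g (nat_lit 0) (.e (nat_lit 25994) (nat_lit 0) .nil) .nil))) 
(.lf (nat_lit 453536) (.g (nat_lit 2558) (.e (nat_lit 2629) (nat_lit 164) (.e (nat_lit 172124) (nat_lit 14) (.e (nat_lit 491549) (nat_lit 9) (.e (nat_lit 336434) (nat_lit 30) (.e (nat_lit 450561) (nat_lit 0) (.e (nat_lit 5537) (nat_lit 306) .nil)))))) (.g (nat_lit 1) (.e (nat_lit 29756) (nat_lit 0) .nil) .nil)))))) (.nd (nat_lit 7) (.nd (nat_lit 8) (.nd (nat_lit 9) 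
(.lf (nat_lit 452704) (.g (nat_lit 2319) (.e (nat_lit 2618) (nat_lit 164) (.e (nat_lit 172120) (nat_lit 12) (.e (nat_lit 475198) (nat_lit 40) (.e (nat_lit 704598) (nat_lit 6) (.e (nat_lit 188444) (nat_lit 21) (.e (nat_lit 164345) (nat_lit 240) .nil)))))) (.g (nat_lit 1) (.e (nat_lit 24414) (nat_lit 0) .nil) .nil))) 
(.lf (nat_lit 453216) (.g (nat_lit 2693) (.e (nat_lit 2628) (nat_lit 164) (.e (nat_lit 172065) (nat_lit 3) (.e (nat_lit 204869) (nat_lit 29) (.e (nat_lit 360475) (nat_lit 8) (.e (nat_lit 557091) (nat_lit 12) .nil))))) (.g (nat_lit 0) (.e (nat_lit 27539) (nat_lit 0) .nil) .nil)))) (.nd (nat_lit 9) 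
(.lf (nat_lit 452960) (.g (nat_lit 2783) (.e (nat_lit 2619) (nat_lit 164) (.e (nat_lit 172126) (nat_lit 14) (.e (nat_lit 491547) (nat_lit 9) (.e (nat_lit 336443) (nat_lit 32) (.e (nat_lit 466969) (nat_lit 21) (.e (nat_lit 164345) (nat_lit 240) .nil)))))) (.g (nat_lit 1) (.e (nat_lit 25725) (nat_lit 0) .nil) .nil))) 
(.lf (nat_lit 453472) (.g (nat_lit 2409) (.e (nat_lit 2629) (nat_lit 164) (.e (nat_lit 172119) (nat_lit 12) (.e (nat_lit 475211) (nat_lit 41) (.e (nat_lit 712753) (nat_lit 30) (.e (nat_lit 450565) (nat_lit 0) (.e (nat_lit 5548) (nat_lit 306) .nil)))))) (.g (nat_lit 1) (.e (nat_lit 29624) (nat_lit 0) .nil) .nil))))) (.nd (nat_lit 8) (.nd (nat_lit 9) 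
(.lf (nat_lit 452832) (.g (nat_lit 3369) (.e (nat_lit 2619) (nat_lit 164) (.e (nat_lit 172119) (nat_lit 12) (.e (nat_lit 475211) (nat_lit 41) (.e (nat_lit 712752) (nat_lit 29) (.e (nat_lit 442421) (nat_lit 21) (.e (nat_lit 164347) (nat_lit 240) .nil)))))) (.g (nat_lit 1) (.e (nat_lit 25268) (nat_lit 0) .nil) .nil))) 
(.lf (nat_lit 453344) (.g (nat_lit 2027) (.e (nat_lit 2628) (nat_lit 164) (.e (nat_lit 172124) (nat_lit 14) (.e (nat_lit 491549) (nat_lit 9) (.e (nat_lit 336434) (nat_lit 30) (.e (nat_lit 458496) (nat_lit 0) (.e (nat_lit 5547) (nat_lit 306) .nil)))))) (.g (nat_lit 1) (.e (nat_lit 28376) (nat_lit 0) .nil) .nil)))) (.nd (nat_lit 9) 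
(.lf (nat_lit 453088) (.g (nat_lit 2898) (.e (nat_lit 2622) (nat_lit 164) (.e (nat_lit 172066) (nat_lit 3) (.e (nat_lit 204869) (nat_lit 29) (.e (nat_lit 360475) (nat_lit 8) (.e (nat_lit 557091) (nat_lit 12) (.e (nat_lit 163844) (nat_lit 0) (.e (nat_lit 6250) (nat_lit 337) .nil))))))) (.g (nat_lit 1) (.e (nat_lit 26283) (nat_lit 0) .nil) .nil))) 
(.lf (nat_lit 453600) (.g (nat_lit 3253) (.e (nat_lit 2629) (nat_lit 164) (.e (nat_lit 172126) (nat_lit 14) (.e (nat_lit 491549) (nat_lit 9) (.e (nat_lit 336443) (nat_lit 32) (.e (nat_lit 466971) (nat_lit 21) (.e (nat_lit 164347) (nat_lit 240) .nil)))))) (.g (nat_lit 1) (.e (nat_lit 30272) (nat_lit 0) .nil) .nil)))))))) 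
(.nd (nat_lit 5) (.nd (nat_lit 6) (.nd (nat_lit 7) (.nd (nat_lit 8) (.nd (nat_lit 9) 
(.lf (nat_lit 452624) (.g (nat_lit 654) (.e (nat_lit 2616) (nat_lit 164) (.e (nat_lit 172126) (nat_lit 14) (.e (nat_lit 491540) (nat_lit 3) .nil))) (.g (nat_lit 0) (.e (nat_lit 23567) (nat_lit 0) .nil) .nil))) 
(.lf (nat_lit 453136) (.g (nat_lit 1980) (.e (nat_lit 2625) (nat_lit 164) (.e (nat_lit 172120) (nat_lit 12) (.e (nat_lit 475211) (nat_lit 41) (.e (nat_lit 712755) (nat_lit 30) (.e (nat_lit 458496) (nat_lit 0) .nil))))) (.g (nat_lit 0) (.e (nat_lit 26850) (nat_lit 0) .nil) .nil)))) (.nd (nat_lit 9) 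
(.lf (nat_lit 452880) (.g (nat_lit 2845) (.e (nat_lit 2619) (nat_lit 164) (.e (nat_lit 172120) (nat_lit 12) (.e (nat_lit 475211) (nat_lit 41) (.e (nat_lit 712750) (nat_lit 29) (.e (nat_lit 442421) (nat_lit 21) (.e (nat_lit 164345) (nat_lit 240) .nil)))))) (.g (nat_lit 1) (.e (nat_lit 25339) (nat_lit 0) .nil) .nil))) 
(.lf (nat_lit 453392) (.g (nat_lit 3587) (.e (nat_lit 2628) (nat_lit 164) (.e (nat_lit 172126) (nat_lit 14) (.e (nat_lit 491549) (nat_lit 9) (.e (nat_lit 336430) (nat_lit 29) (.e (nat_lit 442419) (nat_lit 21) (.e (nat_lit 164347) (nat_lit 240) .nil)))))) (.g (nat_lit 1) (.e (nat_lit 28702) (nat_lit 0) .nil) .nil))))) (.nd (nat_lit 8) (.nd (nat_lit 9) 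
(.lf (nat_lit 452752) (.g (nat_lit 3087) (.e (nat_lit 2618) (nat_lit 164) (.e (nat_lit 172126) (nat_lit 14) (.e (nat_lit 491549) (nat_lit 9) (.e (nat_lit 336430) (nat_lit 29) (.e (nat_lit 442419) (nat_lit 21) (.e (nat_lit 164346) (nat_lit 240) .nil)))))) (.g (nat_lit 1) (.e (nat_lit 24644) (nat_lit 0) .nil) .nil))) 
(.lf (nat_lit 453264) (.g (nat_lit 3892) (.e (nat_lit 2628) (nat_lit 164) (.e (nat_lit 172118) (nat_lit 12) (.e (nat_lit 475210) (nat_lit 41) (.e (nat_lit 712755) (nat_lit 30) (.e (nat_lit 450563) (nat_lit 0) (.e (nat_lit 5537) (nat_lit 306) .nil)))))) (.g (nat_lit 1) (.e (nat_lit 28189) (nat_lit 0) .nil) .nil)))) (.nd (nat_lit 9) 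
(.lf (nat_lit 453008) (.g (nat_lit 3159) (.e (nat_lit 2619) (nat_lit 164) (.e (nat_lit 172126) (nat_lit 14) (.e (nat_lit 491550) (nat_lit 9) (.e (nat_lit 336443) (nat_lit 32) (.e (nat_lit 466972) (nat_lit 21) (.e (nat_lit 164345) (nat_lit 240) .nil)))))) (.g (nat_lit 1) (.e (nat_lit 25794) (nat_lit 0) .nil) .nil))) 
(.lf (nat_lit 453520) (.g (nat_lit 3678) (.e (nat_lit 2629) (nat_lit 164) (.e (nat_lit 172124) (nat_lit 14) (.e (nat_lit 491540) (nat_lit 3) (.e (nat_lit 98373) (nat_lit 29) (.e (nat_lit 450567) (nat_lit 0) (.e (nat_lit 3978) (nat_lit 239) .nil)))))) (.g (nat_lit 1) (.e (nat_lit 29714) (nat_lit 0) .nil) .nil)))))) (.nd (nat_lit 7) (.nd (nat_lit 8) (.nd (nat_lit 9) 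
(.lf (nat_lit 452688) (.g (nat_lit 1656) (.e (nat_lit 2618) (nat_lit 164) (.e (nat_lit 172118) (nat_lit 12) (.e (nat_lit 475198) (nat_lit 40) (.e (nat_lit 704599) (nat_lit 6) (.e (nat_lit 188446) (nat_lit 21) .nil))))) (.g (nat_lit 0) (.e (nat_lit 24377) (nat_lit 0) .nil) .nil))) 
(.lf (nat_lit 453200) (.g (nat_lit 4010) (.e (nat_lit 2628) (nat_lit 164) (.e (nat_lit 172062) (nat_lit 2) (.e (nat_lit 196666) (nat_lit 13) (.e (nat_lit 65617) (nat_lit 10) (.e (nat_lit 344133) (nat_lit 26) (.e (nat_lit 557091) (nat_lit 12) (.e (nat_lit 163844) (nat_lit 0) (.e (nat_lit 6374) (nat_lit 337) .nil)))))))) (.g (nat_lit 1) (.e (nat_lit 27499) (nat_lit 0) .nil) .nil)))) 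
(.nd (nat_lit 9) 
(.lf (nat_lit 452944) (.g (nat_lit 1753) (.e (nat_lit 2619) (nat_lit 164) (.e (nat_lit 172124) (nat_lit 14) (.e (nat_lit 491568) (nat_lit 13) (.e (nat_lit 393282) (nat_lit 24) .nil)))) (.g (nat_lit 0) (.e (nat_lit 25460) (nat_lit 0) .nil) .nil))) 
(.lf (nat_lit 453456) (.g (nat_lit 2306) (.e (nat_lit 2629) (nat_lit 164) (.e (nat_lit 172118) (nat_lit 12) (.e (nat_lit 475211) (nat_lit 41) (.e (nat_lit 712755) (nat_lit 30) (.e (nat_lit 450564) (nat_lit 0) (.e (nat_lit 5548) (nat_lit 306) .nil)))))) (.g (nat_lit 1) (.e (nat_lit 29598) (nat_lit 0) .nil) .nil))))) (.nd (nat_lit 8) (.nd (nat_lit 9) 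
(.lf (nat_lit 452816) (.g (nat_lit 3489) (.e (nat_lit 2619) (nat_lit 164) (.e (nat_lit 172118) (nat_lit 12) (.e (nat_lit 475211) (nat_lit 41) (.e (nat_lit 712753) (nat_lit 30) (.e (nat_lit 450564) (nat_lit 0) (.e (nat_lit 5548) (nat_lit 306) .nil)))))) (.g (nat_lit 1) (.e (nat_lit 25246) (nat_lit 0) .nil) .nil))) 
(.lf (nat_lit 453328) (.g (nat_lit 1584) (.e (nat_lit 2628) (nat_lit 164) (.e (nat_lit 172124) (nat_lit 14) (.e (nat_lit 491547) (nat_lit 9) (.e (nat_lit 336443) (nat_lit 32) .nil)))) (.g (nat_lit 0) (.e (nat_lit 28339) (nat_lit 0) .nil) .nil)))) (.nd (nat_lit 9) 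
(.lf (nat_lit 453072) (.g (nat_lit 2326) (.e (nat_lit 2621) (nat_lit 164) (.e (nat_lit 172126) (nat_lit 14) (.e (nat_lit 491550) (nat_lit 9) (.e (nat_lit 336430) (nat_lit 29) (.e (nat_lit 442430) (nat_lit 24) .nil))))) (.g (nat_lit 0) (.e (nat_lit 26252) (nat_lit 0) .nil) .nil))) 
(.lf (nat_lit 453584) (.g (nat_lit 2911) (.e (nat_lit 2629) (nat_lit 164) (.e (nat_lit 172126) (nat_lit 14) (.e (nat_lit 491549) (nat_lit 9) (.e (nat_lit 336430) (nat_lit 29) (.e (nat_lit 442421) (nat_lit 21) (.e (nat_lit 164345) (nat_lit 240) .nil)))))) (.g (nat_lit 1) (.e (nat_lit 30255) (nat_lit 0) .nil) .nil))))))) (.nd (nat_lit 6) (.nd (nat_lit 7) (.nd (nat_lit 8) (.nd (nat_lit 9) 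
(.lf (nat_lit 452656) (.g (nat_lit 2782) (.e (nat_lit 2617) (nat_lit 164) (.e (nat_lit 172126) (nat_lit 14) (.e (nat_lit 491549) (nat_lit 9) (.e (nat_lit 336430) (nat_lit 29) (.e (nat_lit 442419) (nat_lit 21) (.e (nat_lit 164345) (nat_lit 240) .nil)))))) (.g (nat_lit 1) (.e (nat_lit 23908) (nat_lit 0) .nil) .nil))) 
(.lf (nat_lit 453168) (.g (nat_lit 3745) (.e (nat_lit 2626) (nat_lit 164) (.e (nat_lit 172126) (nat_lit 14) (.e (nat_lit 491537) (nat_lit 2) (.e (nat_lit 90170) (nat_lit 13) (.e (nat_lit 172113) (nat_lit 10) (.e (nat_lit 434208) (nat_lit 18) (.e (nat_lit 3955) (nat_lit 239) .nil))))))) (.g (nat_lit 1) (.e (nat_lit 27263) (nat_lit 0) .nil) .nil)))) (.nd (nat_lit 9) 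
(.lf (nat_lit 452912) (.g (nat_lit 2867) (.e (nat_lit 2619) (nat_lit 164) (.e (nat_lit 172124) (nat_lit 14) (.e (nat_lit 491549) (nat_lit 9) (.e (nat_lit 336432) (nat_lit 30) (.e (nat_lit 450564) (nat_lit 0) (.e (nat_lit 5548) (nat_lit 306) .nil)))))) (.g (nat_lit 1) (.e (nat_lit 25422) (nat_lit 0) .nil) .nil))) 
(.lf (nat_lit 453424) (.g (nat_lit 593) (.e (nat_lit 2628) (nat_lit 164) (.e (nat_lit 172126) (nat_lit 14) (.e (nat_lit 491568) (nat_lit 13) .nil))) (.g (nat_lit 0) (.e (nat_lit 28742) (nat_lit 0) .nil) .nil))))) (.nd (nat_lit 8) (.nd (nat_lit 9) 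
(.lf (nat_lit 452784) (.g (nat_lit 4279) (.e (nat_lit 2619) (nat_lit 164) (.e (nat_lit 172064) (nat_lit 2) (.e (nat_lit 196666) (nat_lit 13) (.e (nat_lit 65610) (nat_lit 10) (.e (nat_lit 344117) (nat_lit 21) (.e (nat_lit 516106) (nat_lit 0) (.e (nat_lit 2424) (nat_lit 157) (.e (nat_lit 4516) (nat_lit 263) .nil)))))))) (.g (nat_lit 1) (.e (nat_lit 24763) (nat_lit 0) .nil) .nil))) 
(.lf (nat_lit 453296) (.g (nat_lit 2497) (.e (nat_lit 2628) (nat_lit 164) (.e (nat_lit 172120) (nat_lit 12) (.e (nat_lit 475209) (nat_lit 41) (.e (nat_lit 712752) (nat_lit 29) (.e (nat_lit 442421) (nat_lit 21) (.e (nat_lit 164345) (nat_lit 240) .nil)))))) (.g (nat_lit 1) (.e (nat_lit 28249) (nat_lit 0) .nil) .nil)))) (.nd (nat_lit 9) 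
(.lf (nat_lit 453040) (.g (nat_lit 1982) (.e (nat_lit 2620) (nat_lit 164) (.e (nat_lit 172120) (nat_lit 12) (.e (nat_lit 475199) (nat_lit 40) (.e (nat_lit 704598) (nat_lit 6) (.e (nat_lit 188455) (nat_lit 24) .nil))))) (.g (nat_lit 0) (.e (nat_lit 26030) (nat_lit 0) .nil) .nil))) 
(.lf (nat_lit 453552) (.g (nat_lit 3085) (.e (nat_lit 2629) (nat_lit 164) (.e (nat_lit 172124) (nat_lit 14) (.e (nat_lit 491550) (nat_lit 9) (.e (nat_lit 336434) (nat_lit 30) (.e (nat_lit 450564) (nat_lit 0) (.e (nat_lit 5546) (nat_lit 306) .nil)))))) (.g (nat_lit 1) (.e (nat_lit 29775) (nat_lit 0) .nil) .nil)))))) (.nd (nat_lit 7) (.nd (nat_lit 8) (.nd (nat_lit 9) 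
(.lf (nat_lit 452720) (.g (nat_lit 410) (.e (nat_lit 2618) (nat_lit 164) (.e (nat_lit 172124) (nat_lit 14) (.e (nat_lit 491549) (nat_lit 9) .nil))) (.g (nat_lit 0) (.e (nat_lit 24452) (nat_lit 0) .nil) .nil))) 
(.lf (nat_lit 453232) (.g (nat_lit 2712) (.e (nat_lit 2628) (nat_lit 164) (.e (nat_lit 172067) (nat_lit 3) (.e (nat_lit 204869) (nat_lit 29) (.e (nat_lit 360474) (nat_lit 8) (.e (nat_lit 557093) (nat_lit 12) .nil))))) (.g (nat_lit 0) (.e (nat_lit 27583) (nat_lit 0) .nil) .nil)))) (.nd (nat_lit 9) 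
(.lf (nat_lit 452976) (.g (nat_lit 2868) (.e (nat_lit 2619) (nat_lit 164) (.e (nat_lit 172126) (nat_lit 14) (.e (nat_lit 491549) (nat_lit 9) (.e (nat_lit 336430) (nat_lit 29) (.e (nat_lit 442421) (nat_lit 21) (.e (nat_lit 164346) (nat_lit 240) .nil)))))) (.g (nat_lit 1) (.e (nat_lit 25761) (nat_lit 0) .nil) .nil))) 
(.lf (nat_lit 453488) (.g (nat_lit 3235) (.e (nat_lit 2629) (nat_lit 164) (.e (nat_lit 172120) (nat_lit 12) (.e (nat_lit 475210) (nat_lit 41) (.e (nat_lit 712752) (nat_lit 29) (.e (nat_lit 442421) (nat_lit 21) (.e (nat_lit 164346) (nat_lit 240) .nil)))))) (.g (nat_lit 1) (.e (nat_lit 29662) (nat_lit 0) .nil) .nil))))) (.nd (nat_lit 8) (.nd (nat_lit 9) 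
(.lf (nat_lit 452848) (.g (nat_lit 3191) (.e (nat_lit 2619) (nat_lit 164) (.e (nat_lit 172120) (nat_lit 12) (.e (nat_lit 475198) (nat_lit 40) (.e (nat_lit 704598) (nat_lit 6) (.e (nat_lit 188446) (nat_lit 21) (.e (nat_lit 164348) (nat_lit 240) .nil)))))) (.g (nat_lit 1) (.e (nat_lit 25289) (nat_lit 0) .nil) .nil))) 
(.lf (nat_lit 453360) (.g (nat_lit 1619) (.e (nat_lit 2628) (nat_lit 164) (.e (nat_lit 172124) (nat_lit 14) (.e (nat_lit 491550) (nat_lit 9) (.e (nat_lit 336434) (nat_lit 30) (.e (nat_lit 458496) (nat_lit 0) (.e (nat_lit 5543) (nat_lit 306) .nil)))))) (.g (nat_lit 1) (.e (nat_lit 28393) (nat_lit 0) .nil) .nil)))) (.nd (nat_lit 9) 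
(.lf (nat_lit 453104) (.g (nat_lit 3098) (.e (nat_lit 2622) (nat_lit 164) (.e (nat_lit 172124) (nat_lit 14) (.e (nat_lit 491549) (nat_lit 9) (.e (nat_lit 336434) (nat_lit 30) (.e (nat_lit 450568) (nat_lit 0) (.e (nat_lit 5448) (nat_lit 306) .nil)))))) (.g (nat_lit 1) (.e (nat_lit 26369) (nat_lit 0) .nil) .nil))) 
(.lf (nat_lit 453616) (.g (nat_lit 3217) (.e (nat_lit 2629) (nat_lit 164) (.e (nat_lit 172126) (nat_lit 14) (.e (nat_lit 491550) (nat_lit 9) (.e (nat_lit 336443) (nat_lit 32) (.e (nat_lit 466969) (nat_lit 21) (.e (nat_lit 164347) (nat_lit 240) .nil)))))) (.g (nat_lit 1) (.e (nat_lit 30291) (nat_lit 0) .nil) .nil))))))))) 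
(.nd (nat_lit 4) (.nd (nat_lit 5) (.nd (nat_lit 6) (.nd (nat_lit 7) (.nd (nat_lit 8) 
(.nd (nat_lit 9) 
(.lf (nat_lit 452616) (.g (nat_lit 1775) (.e (nat_lit 2615) (nat_lit 163) (.e (nat_lit 163975) (nat_lit 30) (.e (nat_lit 573451) (nat_lit 9) (.e (nat_lit 1569) (nat_lit 110) .nil)))) (.g (nat_lit 0) (.e (nat_lit 23392) (nat_lit 0) .nil) .nil))) 
(.lf (nat_lit 453128) (.g (nat_lit 1875) (.e (nat_lit 2625) (nat_lit 164) (.e (nat_lit 172120) (nat_lit 12) (.e (nat_lit 475211) (nat_lit 41) (.e (nat_lit 712753) (nat_lit 30) (.e (nat_lit 450564) (nat_lit 0) (.e (nat_lit 5546) (nat_lit 306) .nil)))))) (.g (nat_lit 1) (.e (nat_lit 26839) (nat_lit 0) .nil) .nil)))) (.nd (nat_lit 9) 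
(.lf (nat_lit 452872) (.g (nat_lit 4155) (.e (nat_lit 2619) (nat_lit 164) (.e (nat_lit 172120) (nat_lit 12) (.e (nat_lit 475210) (nat_lit 41) (.e (nat_lit 712755) (nat_lit 30) (.e (nat_lit 450563) (nat_lit 0) (.e (nat_lit 5537) (nat_lit 306) .nil)))))) (.g (nat_lit 1) (.e (nat_lit 25330) (nat_lit 0) .nil) .nil))) 
(.lf (nat_lit 453384) (.g (nat_lit 3460) (.e (nat_lit 2628) (nat_lit 164) (.e (nat_lit 172126) (nat_lit 14) (.e (nat_lit 491547) (nat_lit 9) (.e (nat_lit 336443) (nat_lit 32) (.e (nat_lit 466969) (nat_lit 21) (.e (nat_lit 164348) (nat_lit 240) .nil)))))) (.g (nat_lit 1) (.e (nat_lit 28664) (nat_lit 0) .nil) .nil))))) (.nd (nat_lit 8) (.nd (nat_lit 9) 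
(.lf (nat_lit 452744) (.g (nat_lit 2942) (.e (nat_lit 2618) (nat_lit 164) (.e (nat_lit 172126) (nat_lit 14) (.e (nat_lit 491540) (nat_lit 3) (.e (nat_lit 98373) (nat_lit 29) (.e (nat_lit 450568) (nat_lit 0) (.e (nat_lit 3978) (nat_lit 239) .nil)))))) (.g (nat_lit 1) (.e (nat_lit 24630) (nat_lit 0) .nil) .nil))) 
(.lf (nat_lit 453256) (.g (nat_lit 3549) (.e (nat_lit 2628) (nat_lit 164) (.e (nat_lit 172118) (nat_lit 12) (.e (nat_lit 475210) (nat_lit 41) (.e (nat_lit 712752) (nat_lit 29) (.e (nat_lit 442421) (nat_lit 21) (.e (nat_lit 164345) (nat_lit 240) .nil)))))) (.g (nat_lit 1) (.e (nat_lit 28181) (nat_lit 0) .nil) .nil)))) (.nd (nat_lit 9) 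
(.lf (nat_lit 453000) (.g (nat_lit 2035) (.e (nat_lit 2619) (nat_lit 164) (.e (nat_lit 172126) (nat_lit 14) (.e (nat_lit 491550) (nat_lit 9) (.e (nat_lit 336432) (nat_lit 30) (.e (nat_lit 458496) (nat_lit 0) (.e (nat_lit 5547) (nat_lit 306) .nil)))))) (.g (nat_lit 1) (.e (nat_lit 25786) (nat_lit 0) .nil) .nil))) 
(.lf (nat_lit 453512) (.g (nat_lit 2543) (.e (nat_lit 2629) (nat_lit 164) (.e (nat_lit 172120) (nat_lit 12) (.e (nat_lit 475211) (nat_lit 41) (.e (nat_lit 712755) (nat_lit 30) (.e (nat_lit 450565) (nat_lit 0) (.e (nat_lit 5548) (nat_lit 306) .nil)))))) (.g (nat_lit 1) (.e (nat_lit 29689) (nat_lit 0) .nil) .nil)))))) (.nd (nat_lit 7) (.nd (nat_lit 8) (.nd (nat_lit 9) 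
(.lf (nat_lit 452680) (.g (nat_lit 3640) (.e (nat_lit 2617) (nat_lit 164) (.e (nat_lit 172126) (nat_lit 14) (.e (nat_lit 491550) (nat_lit 9) (.e (nat_lit 336443) (nat_lit 32) (.e (nat_lit 466971) (nat_lit 21) (.e (nat_lit 164348) (nat_lit 240) .nil)))))) (.g (nat_lit 1) (.e (nat_lit 23940) (nat_lit 0) .nil) .nil))) 
(.lf (nat_lit 453192) (.g (nat_lit 2530) (.e (nat_lit 2628) (nat_lit 164) (.e (nat_lit 172062) (nat_lit 2) (.e (nat_lit 196666) (nat_lit 13) (.e (nat_lit 65617) (nat_lit 10) (.e (nat_lit 344130) (nat_lit 26) (.e (nat_lit 557090) (nat_lit 12) (.e (nat_lit 163847) (nat_lit 0) (.e (nat_lit 6374) (nat_lit 337) .nil)))))))) (.g (nat_lit 1) (.e (nat_lit 27491) (nat_lit 0) .nil) .nil)))) 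
(.nd (nat_lit 9) 
(.lf (nat_lit 452936) (.g (nat_lit 3897) (.e (nat_lit 2619) (nat_lit 164) (.e (nat_lit 172124) (nat_lit 14) (.e (nat_lit 491550) (nat_lit 9) (.e (nat_lit 336443) (nat_lit 32) (.e (nat_lit 466969) (nat_lit 21) (.e (nat_lit 164348) (nat_lit 240) .nil)))))) (.g (nat_lit 1) (.e (nat_lit 25449) (nat_lit 0) .nil) .nil))) 
(.lf (nat_lit 453448) (.g (nat_lit 2151) (.e (nat_lit 2629) (nat_lit 164) (.e (nat_lit 172118) (nat_lit 12) (.e (nat_lit 475211) (nat_lit 41) (.e (nat_lit 712752) (nat_lit 29) (.e (nat_lit 442421) (nat_lit 21) (.e (nat_lit 164345) (nat_lit 240) .nil)))))) (.g (nat_lit 1) (.e (nat_lit 29590) (nat_lit 0) .nil) .nil))))) (.nd (nat_lit 8) (.nd (nat_lit 9) 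
(.lf (nat_lit 452808) (.g (nat_lit 1931) (.e (nat_lit 2619) (nat_lit 164) (.e (nat_lit 172118) (nat_lit 12) (.e (nat_lit 475210) (nat_lit 41) (.e (nat_lit 712755) (nat_lit 30) (.e (nat_lit 458496) (nat_lit 0) .nil))))) (.g (nat_lit 0) (.e (nat_lit 25235) (nat_lit 0) .nil) .nil))) 
(.lf (nat_lit 453320) (.g (nat_lit 2303) (.e (nat_lit 2628) (nat_lit 164) (.e (nat_lit 172120) (nat_lit 12) (.e (nat_lit 475211) (nat_lit 41) (.e (nat_lit 712755) (nat_lit 30) (.e (nat_lit 450564) (nat_lit 0) (.e (nat_lit 5546) (nat_lit 306) .nil)))))) (.g (nat_lit 1) (.e (nat_lit 28282) (nat_lit 0) .nil) .nil)))) (.nd (nat_lit 9) 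
(.lf (nat_lit 453064) (.g (nat_lit 1935) (.e (nat_lit 2621) (nat_lit 164) (.e (nat_lit 172120) (nat_lit 12) (.e (nat_lit 475199) (nat_lit 40) (.e (nat_lit 704598) (nat_lit 6) (.e (nat_lit 188455) (nat_lit 24) .nil))))) (.g (nat_lit 0) (.e (nat_lit 26214) (nat_lit 0) .nil) .nil))) 
(.lf (nat_lit 453576) (.g (nat_lit 2909) (.e (nat_lit 2629) (nat_lit 164) (.e (nat_lit 172126) (nat_lit 14) (.e (nat_lit 491547) (nat_lit 9) (.e (nat_lit 336443) (nat_lit 32) (.e (nat_lit 466971) (nat_lit 21) (.e (nat_lit 164347) (nat_lit 240) .nil)))))) (.g (nat_lit 1) (.e (nat_lit 30211) (nat_lit 0) .nil) .nil))))))) (.nd (nat_lit 6) (.nd (nat_lit 7) (.nd (nat_lit 8) (.nd (nat_lit 9) 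
(.lf (nat_lit 452648) (.g (nat_lit 3292) (.e (nat_lit 2617) (nat_lit 164) (.e (nat_lit 172126) (nat_lit 14) (.e (nat_lit 491547) (nat_lit 9) (.e (nat_lit 336443) (nat_lit 32) (.e (nat_lit 466969) (nat_lit 21) (.e (nat_lit 164347) (nat_lit 240) .nil)))))) (.g (nat_lit 1) (.e (nat_lit 23865) (nat_lit 0) .nil) .nil))) 
(.lf (nat_lit 453160) (.g (nat_lit 1378) (.e (nat_lit 2626) (nat_lit 164) (.e (nat_lit 172119) (nat_lit 12) (.e (nat_lit 475207) (nat_lit 41) (.e (nat_lit 712755) (nat_lit 30) (.e (nat_lit 450563) (nat_lit 0) (.e (nat_lit 5505) (nat_lit 306) .nil)))))) (.g (nat_lit 1) (.e (nat_lit 27206) (nat_lit 0) .nil) .nil)))) (.nd (nat_lit 9) 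
(.lf (nat_lit 452904) (.g (nat_lit 3134) (.e (nat_lit 2619) (nat_lit 164) (.e (nat_lit 172124) (nat_lit 14) (.e (nat_lit 491548) (nat_lit 9) (.e (nat_lit 336443) (nat_lit 32) (.e (nat_lit 466971) (nat_lit 21) (.e (nat_lit 164347) (nat_lit 240) .nil)))))) (.g (nat_lit 1) (.e (nat_lit 25404) (nat_lit 0) .nil) .nil))) 
(.lf (nat_lit 453416) (.g (nat_lit 3687) (.e (nat_lit 2628) (nat_lit 164) (.e (nat_lit 172126) (nat_lit 14) (.e (nat_lit 491550) (nat_lit 9) (.e (nat_lit 336443) (nat_lit 32) (.e (nat_lit 466969) (nat_lit 21) (.e (nat_lit 164345) (nat_lit 240) .nil)))))) (.g (nat_lit 1) (.e (nat_lit 28728) (nat_lit 0) .nil) .nil))))) (.nd (nat_lit 8) (.nd (nat_lit 9) 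
(.lf (nat_lit 452776) (.g (nat_lit 4828) (.e (nat_lit 2619) (nat_lit 164) (.e (nat_lit 172064) (nat_lit 2) (.e (nat_lit 196666) (nat_lit 13) (.e (nat_lit 65610) (nat_lit 10) (.e (nat_lit 344117) (nat_lit 21) (.e (nat_lit 516097) (nat_lit 0) (.e (nat_lit 2401) (nat_lit 157) (.e (nat_lit 4507) (nat_lit 263) .nil)))))))) (.g (nat_lit 1) (.e (nat_lit 24755) (nat_lit 0) .nil) .nil))) 
(.lf (nat_lit 453288) (.g (nat_lit 2701) (.e (nat_lit 2628) (nat_lit 164) (.e (nat_lit 172120) (nat_lit 12) (.e (nat_lit 475198) (nat_lit 40) (.e (nat_lit 704598) (nat_lit 6) (.e (nat_lit 188446) (nat_lit 21) (.e (nat_lit 164345) (nat_lit 240) .nil)))))) (.g (nat_lit 1) (.e (nat_lit 28227) (nat_lit 0) .nil) .nil)))) (.nd (nat_lit 9) 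
(.lf (nat_lit 453032) (.g (nat_lit 2667) (.e (nat_lit 2620) (nat_lit 164) (.e (nat_lit 172067) (nat_lit 3) (.e (nat_lit 204869) (nat_lit 29) (.e (nat_lit 360475) (nat_lit 8) (.e (nat_lit 557089) (nat_lit 12) (.e (nat_lit 163849) (nat_lit 0) (.e (nat_lit 6252) (nat_lit 337) .nil))))))) (.g (nat_lit 1) (.e (nat_lit 26013) (nat_lit 0) .nil) .nil))) 
(.lf (nat_lit 453544) (.g (nat_lit 3421) (.e (nat_lit 2629) (nat_lit 164) (.e (nat_lit 172124) (nat_lit 14) (.e (nat_lit 491549) (nat_lit 9) (.e (nat_lit 336443) (nat_lit 32) (.e (nat_lit 466972) (nat_lit 21) (.e (nat_lit 164345) (nat_lit 240) .nil)))))) (.g (nat_lit 1) (.e (nat_lit 29764) (nat_lit 0) .nil) .nil)))))) (.nd (nat_lit 7) (.nd (nat_lit 8) (.nd (nat_lit 9) 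
(.lf (nat_lit 452712) (.g (nat_lit 3230) (.e (nat_lit 2618) (nat_lit 164) (.e (nat_lit 172120) (nat_lit 12) (.e (nat_lit 475210) (nat_lit 41) (.e (nat_lit 712752) (nat_lit 29) (.e (nat_lit 442421) (nat_lit 21) (.e (nat_lit 164345) (nat_lit 240) .nil)))))) (.g (nat_lit 1) (.e (nat_lit 24432) (nat_lit 0) .nil) .nil))) 
(.lf (nat_lit 453224) (.g (nat_lit 3270) (.e (nat_lit 2628) (nat_lit 164) (.e (nat_lit 172066) (nat_lit 3) (.e (nat_lit 204869) (nat_lit 29) (.e (nat_lit 360475) (nat_lit 8) (.e (nat_lit 557089) (nat_lit 12) (.e (nat_lit 163849) (nat_lit 0) (.e (nat_lit 6374) (nat_lit 337) .nil))))))) (.g (nat_lit 1) (.e (nat_lit 27547) (nat_lit 0) .nil) .nil)))) (.nd (nat_lit 9) 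
(.lf (nat_lit 452968) (.g (nat_lit 3019) (.e (nat_lit 2619) (nat_lit 164) (.e (nat_lit 172126) (nat_lit 14) (.e (nat_lit 491548) (nat_lit 9) (.e (nat_lit 336443) (nat_lit 32) (.e (nat_lit 466971) (nat_lit 21) (.e (nat_lit 164347) (nat_lit 240) .nil)))))) (.g (nat_lit 1) (.e (nat_lit 25745) (nat_lit 0) .nil) .nil))) 
(.lf (nat_lit 453480) (.g (nat_lit 1648) (.e (nat_lit 2629) (nat_lit 164) (.e (nat_lit 172120) (nat_lit 12) (.e (nat_lit 475198) (nat_lit 40) (.e (nat_lit 704599) (nat_lit 6) .nil)))) (.g (nat_lit 0) (.e (nat_lit 29639) (nat_lit 0) .nil) .nil))))) (.nd (nat_lit 8) (.nd (nat_lit 9) 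
(.lf (nat_lit 452840) (.g (nat_lit 2078) (.e (nat_lit 2619) (nat_lit 164) (.e (nat_lit 172119) (nat_lit 12) (.e (nat_lit 475211) (nat_lit 41) (.e (nat_lit 712755) (nat_lit 30) (.e (nat_lit 458496) (nat_lit 0) (.e (nat_lit 5543) (nat_lit 306) .nil)))))) (.g (nat_lit 1) (.e (nat_lit 25276) (nat_lit 0) .nil) .nil))) 
(.lf (nat_lit 453352) (.g (nat_lit 2852) (.e (nat_lit 2628) (nat_lit 164) (.e (nat_lit 172124) (nat_lit 14) (.e (nat_lit 491550) (nat_lit 9) (.e (nat_lit 336430) (nat_lit 29) (.e (nat_lit 442419) (nat_lit 21) (.e (nat_lit 164346) (nat_lit 240) .nil)))))) (.g (nat_lit 1) (.e (nat_lit 28385) (nat_lit 0) .nil) .nil)))) (.nd (nat_lit 9) 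
(.lf (nat_lit 453096) (.g (nat_lit 1824) (.e (nat_lit 2622) (nat_lit 164) (.e (nat_lit 172124) (nat_lit 14) (.e (nat_lit 491549) (nat_lit 9) (.e (nat_lit 336426) (nat_lit 29) .nil)))) (.g (nat_lit 0) (.e (nat_lit 26361) (nat_lit 0) .nil) .nil))) 
(.lf (nat_lit 453608) (.g (nat_lit 3061) (.e (nat_lit 2629) (nat_lit 164) (.e (nat_lit 172126) (nat_lit 14) (.e (nat_lit 491550) (nat_lit 9) (.e (nat_lit 336430) (nat_lit 29) (.e (nat_lit 442421) (nat_lit 21) (.e (nat_lit 164347) (nat_lit 240) .nil)))))) (.g (nat_lit 1) (.e (nat_lit 30282) (nat_lit 0) .nil) .nil)))))))) 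
(.nd (nat_lit 5) (.nd (nat_lit 6) (.nd (nat_lit 7) (.nd (nat_lit 8) (.nd (nat_lit 9) 
(.lf (nat_lit 452632) (.g (nat_lit 1835) (.e (nat_lit 2617) (nat_lit 164) (.e (nat_lit 172120) (nat_lit 12) (.e (nat_lit 475209) (nat_lit 41) (.e (nat_lit 712752) (nat_lit 29) (.e (nat_lit 442421) (nat_lit 21) .nil))))) (.g (nat_lit 0) (.e (nat_lit 23770) (nat_lit 0) .nil) .nil))) 
(.lf (nat_lit 453144) (.g (nat_lit 893) (.e (nat_lit 2625) (nat_lit 164) (.e (nat_lit 172126) (nat_lit 14) (.e (nat_lit 491539) (nat_lit 3) .nil))) (.g (nat_lit 0) (.e (nat_lit 26968) (nat_lit 0) .nil) .nil)))) (.nd (nat_lit 9) 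
(.lf (nat_lit 452888) (.g (nat_lit 3750) (.e (nat_lit 2619) (nat_lit 164) (.e (nat_lit 172120) (nat_lit 12) (.e (nat_lit 475211) (nat_lit 41) (.e (nat_lit 712753) (nat_lit 30) (.e (nat_lit 450564) (nat_lit 0) (.e (nat_lit 5546) (nat_lit 306) .nil)))))) (.g (nat_lit 1) (.e (nat_lit 25347) (nat_lit 0) .nil) .nil))) 
(.lf (nat_lit 453400) (.g (nat_lit 3093) (.e (nat_lit 2628) (nat_lit 164) (.e (nat_lit 172126) (nat_lit 14) (.e (nat_lit 491549) (nat_lit 9) (.e (nat_lit 336434) (nat_lit 30) (.e (nat_lit 450564) (nat_lit 0) (.e (nat_lit 5546) (nat_lit 306) .nil)))))) (.g (nat_lit 1) (.e (nat_lit 28710) (nat_lit 0) .nil) .nil))))) (.nd (nat_lit 8) (.nd (nat_lit 9) 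
(.lf (nat_lit 452760) (.g (nat_lit 2043) (.e (nat_lit 2618) (nat_lit 164) (.e (nat_lit 172126) (nat_lit 14) (.e (nat_lit 491550) (nat_lit 9) (.e (nat_lit 336432) (nat_lit 30) (.e (nat_lit 458496) (nat_lit 0) .nil))))) (.g (nat_lit 0) (.e (nat_lit 24653) (nat_lit 0) .nil) .nil))) 
(.lf (nat_lit 453272) (.g (nat_lit 3348) (.e (nat_lit 2628) (nat_lit 164) (.e (nat_lit 172118) (nat_lit 12) (.e (nat_lit 475211) (nat_lit 41) (.e (nat_lit 712752) (nat_lit 29) (.e (nat_lit 442421) (nat_lit 21) (.e (nat_lit 164345) (nat_lit 240) .nil)))))) (.g (nat_lit 1) (.e (nat_lit 28200) (nat_lit 0) .nil) .nil)))) (.nd (nat_lit 9) 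
(.lf (nat_lit 453016) (.g (nat_lit 1943) (.e (nat_lit 2619) (nat_lit 164) (.e (nat_lit 172126) (nat_lit 14) (.e (nat_lit 491569) (nat_lit 13) (.e (nat_lit 393278) (nat_lit 23) .nil)))) (.g (nat_lit 0) (.e (nat_lit 25813) (nat_lit 0) .nil) .nil))) 
(.lf (nat_lit 453528) (.g (nat_lit 3630) (.e (nat_lit 2629) (nat_lit 164) (.e (nat_lit 172124) (nat_lit 14) (.e (nat_lit 491549) (nat_lit 9) (.e (nat_lit 336430) (nat_lit 29) (.e (nat_lit 442419) (nat_lit 21) (.e (nat_lit 164347) (nat_lit 240) .nil)))))) (.g (nat_lit 1) (.e (nat_lit 29747) (nat_lit 0) .nil) .nil)))))) (.nd (nat_lit 7) (.nd (nat_lit 8) (.nd (nat_lit 9) 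
(.lf (nat_lit 452696) (.g (nat_lit 1490) (.e (nat_lit 2618) (nat_lit 164) (.e (nat_lit 172119) (nat_lit 12) (.e (nat_lit 475198) (nat_lit 40) (.e (nat_lit 704598) (nat_lit 6) (.e (nat_lit 188446) (nat_lit 21) (.e (nat_lit 164345) (nat_lit 240) .nil)))))) (.g (nat_lit 1) (.e (nat_lit 24392) (nat_lit 0) .nil) .nil))) 
(.lf (nat_lit 453208) (.g (nat_lit 2719) (.e (nat_lit 2628) (nat_lit 164) (.e (nat_lit 172064) (nat_lit 2) (.e (nat_lit 196666) (nat_lit 13) (.e (nat_lit 65617) (nat_lit 10) (.e (nat_lit 344133) (nat_lit 26) .nil))))) (.g (nat_lit 0) (.e (nat_lit 27511) (nat_lit 0) .nil) .nil)))) (.nd (nat_lit 9) 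
(.lf (nat_lit 452952) (.g (nat_lit 3634) (.e (nat_lit 2619) (nat_lit 164) (.e (nat_lit 172124) (nat_lit 14) (.e (nat_lit 491569) (nat_lit 13) (.e (nat_lit 393281) (nat_lit 23) (.e (nat_lit 426107) (nat_lit 1) (.e (nat_lit 164347) (nat_lit 240) .nil)))))) (.g (nat_lit 1) (.e (nat_lit 25477) (nat_lit 0) .nil) .nil))) 
(.lf (nat_lit 453464) (.g (nat_lit 1894) (.e (nat_lit 2629) (nat_lit 164) (.e (nat_lit 172119) (nat_lit 12) (.e (nat_lit 475210) (nat_lit 41) (.e (nat_lit 712753) (nat_lit 30) (.e (nat_lit 450564) (nat_lit 0) (.e (nat_lit 5548) (nat_lit 306) .nil)))))) (.g (nat_lit 1) (.e (nat_lit 29616) (nat_lit 0) .nil) .nil))))) (.nd (nat_lit 8) (.nd (nat_lit 9) 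
(.lf (nat_lit 452824) (.g (nat_lit 2940) (.e (nat_lit 2619) (nat_lit 164) (.e (nat_lit 172119) (nat_lit 12) (.e (nat_lit 475199) (nat_lit 40) (.e (nat_lit 704598) (nat_lit 6) (.e (nat_lit 188446) (nat_lit 21) (.e (nat_lit 164348) (nat_lit 240) .nil)))))) (.g (nat_lit 1) (.e (nat_lit 25255) (nat_lit 0) .nil) .nil))) 
(.lf (nat_lit 453336) (.g (nat_lit 2966) (.e (nat_lit 2628) (nat_lit 164) (.e (nat_lit 172124) (nat_lit 14) (.e (nat_lit 491549) (nat_lit 9) (.e (nat_lit 336430) (nat_lit 29) (.e (nat_lit 442421) (nat_lit 21) (.e (nat_lit 164347) (nat_lit 240) .nil)))))) (.g (nat_lit 1) (.e (nat_lit 28368) (nat_lit 0) .nil) .nil)))) (.nd (nat_lit 9) 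
(.lf (nat_lit 453080) (.g (nat_lit 2242) (.e (nat_lit 2622) (nat_lit 164) (.e (nat_lit 172066) (nat_lit 3) (.e (nat_lit 204869) (nat_lit 29) (.e (nat_lit 360474) (nat_lit 8) (.e (nat_lit 557093) (nat_lit 12) (.e (nat_lit 163849) (nat_lit 0) (.e (nat_lit 6255) (nat_lit 337) .nil))))))) (.g (nat_lit 1) (.e (nat_lit 26275) (nat_lit 0) .nil) .nil))) 
(.lf (nat_lit 453592) (.g (nat_lit 2403) (.e (nat_lit 2629) (nat_lit 164) (.e (nat_lit 172126) (nat_lit 14) (.e (nat_lit 491549) (nat_lit 9) (.e (nat_lit 336434) (nat_lit 30) (.e (nat_lit 450564) (nat_lit 0) (.e (nat_lit 5547) (nat_lit 306) .nil)))))) (.g (nat_lit 1) (.e (nat_lit 30264) (nat_lit 0) .nil) .nil))))))) (.nd (nat_lit 6) (.nd (nat_lit 7) (.nd (nat_lit 8) (.nd (nat_lit 9) 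
(.lf (nat_lit 452664) (.g (nat_lit 2190) (.e (nat_lit 2617) (nat_lit 164) (.e (nat_lit 172126) (nat_lit 14) (.e (nat_lit 491549) (nat_lit 9) (.e (nat_lit 336432) (nat_lit 30) (.e (nat_lit 458496) (nat_lit 0) (.e (nat_lit 5547) (nat_lit 306) .nil)))))) (.g (nat_lit 1) (.e (nat_lit 23916) (nat_lit 0) .nil) .nil))) 
(.lf (nat_lit 453176) (.g (nat_lit 2683) (.e (nat_lit 2626) (nat_lit 164) (.e (nat_lit 172126) (nat_lit 14) (.e (nat_lit 491540) (nat_lit 3) (.e (nat_lit 98373) (nat_lit 29) (.e (nat_lit 450560) (nat_lit 0) (.e (nat_lit 3966) (nat_lit 239) .nil)))))) (.g (nat_lit 1) (.e (nat_lit 27280) (nat_lit 0) .nil) .nil)))) (.nd (nat_lit 9) 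
(.lf (nat_lit 452920) (.g (nat_lit 3955) (.e (nat_lit 2619) (nat_lit 164) (.e (nat_lit 172124) (nat_lit 14) (.e (nat_lit 491549) (nat_lit 9) (.e (nat_lit 336443) (nat_lit 32) (.e (nat_lit 466969) (nat_lit 21) (.e (nat_lit 164348) (nat_lit 240) .nil)))))) (.g (nat_lit 1) (.e (nat_lit 25430) (nat_lit 0) .nil) .nil))) 
(.lf (nat_lit 453432) (.g (nat_lit 1694) (.e (nat_lit 2629) (nat_lit 164) (.e (nat_lit 172118) (nat_lit 12) (.e (nat_lit 475198) (nat_lit 40) (.e (nat_lit 704598) (nat_lit 6) (.e (nat_lit 188444) (nat_lit 21) (.e (nat_lit 164348) (nat_lit 240) .nil)))))) (.g (nat_lit 1) (.e (nat_lit 29566) (nat_lit 0) .nil) .nil))))) (.nd (nat_lit 8) (.nd (nat_lit 9) 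
(.lf (nat_lit 452792) (.g (nat_lit 2786) (.e (nat_lit 2619) (nat_lit 164) (.e (nat_lit 172118) (nat_lit 12) (.e (nat_lit 475198) (nat_lit 40) (.e (nat_lit 704598) (nat_lit 6) (.e (nat_lit 188446) (nat_lit 21) (.e (nat_lit 164348) (nat_lit 240) .nil)))))) (.g (nat_lit 1) (.e (nat_lit 25208) (nat_lit 0) .nil) .nil))) 
(.lf (nat_lit 453304) (.g (nat_lit 1697) (.e (nat_lit 2628) (nat_lit 164) (.e (nat_lit 172120) (nat_lit 12) (.e (nat_lit 475210) (nat_lit 41) (.e (nat_lit 712753) (nat_lit 30) (.e (nat_lit 458496) (nat_lit 0) (.e (nat_lit 5548) (nat_lit 306) .nil)))))) (.g (nat_lit 1) (.e (nat_lit 28262) (nat_lit 0) .nil) .nil)))) (.nd (nat_lit 9) 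
(.lf (nat_lit 453048) (.g (nat_lit 2660) (.e (nat_lit 2621) (nat_lit 164) (.e (nat_lit 172067) (nat_lit 3) (.e (nat_lit 204869) (nat_lit 29) (.e (nat_lit 360474) (nat_lit 8) (.e (nat_lit 557093) (nat_lit 12) .nil))))) (.g (nat_lit 0) (.e (nat_lit 26196) (nat_lit 0) .nil) .nil))) 
(.lf (nat_lit 453560) (.g (nat_lit 3752) (.e (nat_lit 2629) (nat_lit 164) (.e (nat_lit 172124) (nat_lit 14) (.e (nat_lit 491550) (nat_lit 9) (.e (nat_lit 336443) (nat_lit 32) (.e (nat_lit 466971) (nat_lit 21) (.e (nat_lit 164348) (nat_lit 240) .nil)))))) (.g (nat_lit 1) (.e (nat_lit 29783) (nat_lit 0) .nil) .nil)))))) (.nd (nat_lit 7) (.nd (nat_lit 8) (.nd (nat_lit 9) 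
(.lf (nat_lit 452728) (.g (nat_lit 3410) (.e (nat_lit 2618) (nat_lit 164) (.e (nat_lit 172124) (nat_lit 14) (.e (nat_lit 491549) (nat_lit 9) (.e (nat_lit 336443) (nat_lit 32) (.e (nat_lit 466969) (nat_lit 21) (.e (nat_lit 164345) (nat_lit 240) .nil)))))) (.g (nat_lit 1) (.e (nat_lit 24462) (nat_lit 0) .nil) .nil))) 
(.lf (nat_lit 453240) (.g (nat_lit 3178) (.e (nat_lit 2628) (nat_lit 164) (.e (nat_lit 172067) (nat_lit 3) (.e (nat_lit 204869) (nat_lit 29) (.e (nat_lit 360475) (nat_lit 8) (.e (nat_lit 557089) (nat_lit 12) (.e (nat_lit 163843) (nat_lit 0) (.e (nat_lit 6374) (nat_lit 337) .nil))))))) (.g (nat_lit 1) (.e (nat_lit 27591) (nat_lit 0) .nil) .nil)))) (.nd (nat_lit 9) 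
(.lf (nat_lit 452984) (.g (nat_lit 2063) (.e (nat_lit 2619) (nat_lit 164) (.e (nat_lit 172126) (nat_lit 14) (.e (nat_lit 491549) (nat_lit 9) (.e (nat_lit 336434) (nat_lit 30) (.e (nat_lit 458496) (nat_lit 0) (.e (nat_lit 5543) (nat_lit 306) .nil)))))) (.g (nat_lit 1) (.e (nat_lit 25769) (nat_lit 0) .nil) .nil))) 
(.lf (nat_lit 453496) (.g (nat_lit 2518) (.e (nat_lit 2629) (nat_lit 164) (.e (nat_lit 172120) (nat_lit 12) (.e (nat_lit 475210) (nat_lit 41) (.e (nat_lit 712755) (nat_lit 30) (.e (nat_lit 450564) (nat_lit 0) .nil))))) (.g (nat_lit 0) (.e (nat_lit 29671) (nat_lit 0) .nil) .nil))))) (.nd (nat_lit 8) (.nd (nat_lit 9) 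
(.lf (nat_lit 452856) (.g (nat_lit 3180) (.e (nat_lit 2619) (nat_lit 164) (.e (nat_lit 172120) (nat_lit 12) (.e (nat_lit 475199) (nat_lit 40) (.e (nat_lit 704598) (nat_lit 6) (.e (nat_lit 188444) (nat_lit 21) (.e (nat_lit 164347) (nat_lit 240) .nil)))))) (.g (nat_lit 1) (.e (nat_lit 25299) (nat_lit 0) .nil) .nil))) 
(.lf (nat_lit 453368) (.g (nat_lit 2272) (.e (nat_lit 2628) (nat_lit 164) (.e (nat_lit 172124) (nat_lit 14) (.e (nat_lit 491568) (nat_lit 13) (.e (nat_lit 393283) (nat_lit 24) (.e (nat_lit 434209) (nat_lit 18) (.e (nat_lit 5548) (nat_lit 306) .nil)))))) (.g (nat_lit 1) (.e (nat_lit 28404) (nat_lit 0) .nil) .nil)))) (.nd (nat_lit 9) 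
(.lf (nat_lit 453112) (.g (nat_lit 2402) (.e (nat_lit 2623) (nat_lit 164) (.e (nat_lit 172124) (nat_lit 14) (.e (nat_lit 491540) (nat_lit 3) (.e (nat_lit 98373) (nat_lit 29) (.e (nat_lit 450560) (nat_lit 0) .nil))))) (.g (nat_lit 0) (.e (nat_lit 26524) (nat_lit 0) .nil) .nil))) 
(.lf (nat_lit 453624) (.g (nat_lit 4518) (.e (nat_lit 2630) (nat_lit 164) (.e (nat_lit 172046) (nat_lit 0) (.e (nat_lit 3238) (nat_lit 197) (.e (nat_lit 532550) (nat_lit 12) (.e (nat_lit 360475) (nat_lit 8) (.e (nat_lit 557089) (nat_lit 12) (.e (nat_lit 163844) (nat_lit 0) (.e (nat_lit 6255) (nat_lit 337) .nil)))))))) (.g (nat_lit 1) (.e (nat_lit 30527) (nat_lit 0) .nil) .nil)))))))))) 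
(.nd (nat_lit 3) (.nd (nat_lit 4) (.nd (nat_lit 5) (.nd (nat_lit 6) (.nd (nat_lit 7) 
(.nd (nat_lit 8) (.nd (nat_lit 9) 
(.lf (nat_lit 452612) (.g (nat_lit 4593) (.e (nat_lit 2615) (nat_lit 163) (.e (nat_lit 163962) (nat_lit 25) (.e (nat_lit 532513) (nat_lit 3) (.e (nat_lit 114714) (nat_lit 22) (.e (nat_lit 90172) (nat_lit 14) (.e (nat_lit 180244) (nat_lit 5) (.e (nat_lit 532499) (nat_lit 1) (.e (nat_lit 57654) (nat_lit 152) .nil)))))))) (.g (nat_lit 1) (.e (nat_lit 23379) (nat_lit 0) .nil) .nil))) 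
(.lf (nat_lit 453124) (.g (nat_lit 2188) (.e (nat_lit 2625) (nat_lit 164) (.e (nat_lit 172120) (nat_lit 12) (.e (nat_lit 475207) (nat_lit 41) (.e (nat_lit 712755) (nat_lit 30) (.e (nat_lit 450563) (nat_lit 0) (.e (nat_lit 5537) (nat_lit 306) .nil)))))) (.g (nat_lit 1) (.e (nat_lit 26805) (nat_lit 0) .nil) .nil)))) (.nd (nat_lit 9) 
(.lf (nat_lit 452868) (.g (nat_lit 3864) (.e (nat_lit 2619) (nat_lit 164) (.e (nat_lit 172120) (nat_lit 12) (.e (nat_lit 475210) (nat_lit 41) (.e (nat_lit 712753) (nat_lit 30) (.e (nat_lit 450564) (nat_lit 0) (.e (nat_lit 5548) (nat_lit 306) .nil)))))) (.g (nat_lit 1) (.e (nat_lit 25325) (nat_lit 0) .nil) .nil))) 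
(.lf (nat_lit 453380) (.g (nat_lit 2627) (.e (nat_lit 2628) (nat_lit 164) (.e (nat_lit 172126) (nat_lit 14) (.e (nat_lit 491547) (nat_lit 9) (.e (nat_lit 336432) (nat_lit 30) (.e (nat_lit 450565) (nat_lit 0) (.e (nat_lit 5548) (nat_lit 306) .nil)))))) (.g (nat_lit 1) (.e (nat_lit 28660) (nat_lit 0) .nil) .nil))))) (.nd (nat_lit 8) (.nd (nat_lit 9) 
(.lf (nat_lit 452740) (.g (nat_lit 732) (.e (nat_lit 2618) (nat_lit 164) (.e (nat_lit 172126) (nat_lit 14) (.e (nat_lit 491540) (nat_lit 3) .nil))) (.g (nat_lit 0) (.e (nat_lit 24624) (nat_lit 0) .nil) .nil))) 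
(.lf (nat_lit 453252) (.g (nat_lit 1841) (.e (nat_lit 2628) (nat_lit 164) (.e (nat_lit 172118) (nat_lit 12) (.e (nat_lit 475198) (nat_lit 40) (.e (nat_lit 704599) (nat_lit 6) (.e (nat_lit 188445) (nat_lit 21) (.e (nat_lit 164348) (nat_lit 240) .nil)))))) (.g (nat_lit 1) (.e (nat_lit 28163) (nat_lit 0) .nil) .nil)))) (.nd (nat_lit 9) 
(.lf (nat_lit 452996) (.g (nat_lit 2574) (.e (nat_lit 2619) (nat_lit 164) (.e (nat_lit 172126) (nat_lit 14) (.e (nat_lit 491550) (nat_lit 9) (.e (nat_lit 336430) (nat_lit 29) (.e (nat_lit 442421) (nat_lit 21) (.e (nat_lit 164345) (nat_lit 240) .nil)))))) (.g (nat_lit 1) (.e (nat_lit 25782) (nat_lit 0) .nil) .nil))) 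
(.lf (nat_lit 453508) (.g (nat_lit 2159) (.e (nat_lit 2629) (nat_lit 164) (.e (nat_lit 172120) (nat_lit 12) (.e (nat_lit 475211) (nat_lit 41) (.e (nat_lit 712753) (nat_lit 30) (.e (nat_lit 458496) (nat_lit 0) (.e (nat_lit 5543) (nat_lit 306) .nil)))))) (.g (nat_lit 1) (.e (nat_lit 29685) (nat_lit 0) .nil) .nil)))))) (.nd (nat_lit 7) (.nd (nat_lit 8) (.nd (nat_lit 9) 
(.lf (nat_lit 452676) (.g (nat_lit 3378) (.e (nat_lit 2617) (nat_lit 164) (.e (nat_lit 172126) (nat_lit 14) (.e (nat_lit 491550) (nat_lit 9) (.e (nat_lit 336443) (nat_lit 32) (.e (nat_lit 466969) (nat_lit 21) (.e (nat_lit 164347) (nat_lit 240) .nil)))))) (.g (nat_lit 1) (.e (nat_lit 23936) (nat_lit 0) .nil) .nil))) 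
(.lf (nat_lit 453188) (.g (nat_lit 2447) (.e (nat_lit 2628) (nat_lit 164) (.e (nat_lit 172062) (nat_lit 2) (.e (nat_lit 196666) (nat_lit 13) (.e (nat_lit 65617) (nat_lit 10) (.e (nat_lit 344130) (nat_lit 26) (.e (nat_lit 557090) (nat_lit 12) (.e (nat_lit 163840) (nat_lit 0) (.e (nat_lit 6374) (nat_lit 337) .nil)))))))) (.g (nat_lit 1) (.e (nat_lit 27487) (nat_lit 0) .nil) .nil)))) 
(.nd (nat_lit 9) 
(.lf (nat_lit 452932) (.g (nat_lit 2104) (.e (nat_lit 2619) (nat_lit 164) (.e (nat_lit 172124) (nat_lit 14) (.e (nat_lit 491550) (nat_lit 9) (.e (nat_lit 336432) (nat_lit 30) (.e (nat_lit 458496) (nat_lit 0) (.e (nat_lit 5543) (nat_lit 306) .nil)))))) (.g (nat_lit 1) (.e (nat_lit 25445) (nat_lit 0) .nil) .nil))) 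
(.lf (nat_lit 453444) (.g (nat_lit 2336) (.e (nat_lit 2629) (nat_lit 164) (.e (nat_lit 172118) (nat_lit 12) (.e (nat_lit 475210) (nat_lit 41) (.e (nat_lit 712755) (nat_lit 30) (.e (nat_lit 450566) (nat_lit 0) (.e (nat_lit 5548) (nat_lit 306) .nil)))))) (.g (nat_lit 1) (.e (nat_lit 29586) (nat_lit 0) .nil) .nil))))) (.nd (nat_lit 8) (.nd (nat_lit 9) 
(.lf (nat_lit 452804) (.g (nat_lit 1647) (.e (nat_lit 2619) (nat_lit 164) (.e (nat_lit 172118) (nat_lit 12) (.e (nat_lit 475210) (nat_lit 41) (.e (nat_lit 712753) (nat_lit 30) (.e (nat_lit 458496) (nat_lit 0) (.e (nat_lit 5548) (nat_lit 306) .nil)))))) (.g (nat_lit 1) (.e (nat_lit 25231) (nat_lit 0) .nil) .nil))) 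
(.lf (nat_lit 453316) (.g (nat_lit 3833) (.e (nat_lit 2628) (nat_lit 164) (.e (nat_lit 172120) (nat_lit 12) (.e (nat_lit 475211) (nat_lit 41) (.e (nat_lit 712752) (nat_lit 29) (.e (nat_lit 442421) (nat_lit 21) (.e (nat_lit 164347) (nat_lit 240) .nil)))))) (.g (nat_lit 1) (.e (nat_lit 28278) (nat_lit 0) .nil) .nil)))) (.nd (nat_lit 9) 
(.lf (nat_lit 453060) (.g (nat_lit 1611) (.e (nat_lit 2621) (nat_lit 164) (.e (nat_lit 172120) (nat_lit 12) (.e (nat_lit 475198) (nat_lit 40) (.e (nat_lit 704599) (nat_lit 6) .nil)))) (.g (nat_lit 0) (.e (nat_lit 26210) (nat_lit 0) .nil) .nil))) 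
(.lf (nat_lit 453572) (.g (nat_lit 1778) (.e (nat_lit 2629) (nat_lit 164) (.e (nat_lit 172126) (nat_lit 14) (.e (nat_lit 491547) (nat_lit 9) (.e (nat_lit 336434) (nat_lit 30) (.e (nat_lit 450564) (nat_lit 0) (.e (nat_lit 5548) (nat_lit 306) .nil)))))) (.g (nat_lit 1) (.e (nat_lit 30207) (nat_lit 0) .nil) .nil))))))) (.nd (nat_lit 6) (.nd (nat_lit 7) (.nd (nat_lit 8) (.nd (nat_lit 9) 
(.lf (nat_lit 452644) (.g (nat_lit 601) (.e (nat_lit 2617) (nat_lit 164) (.e (nat_lit 172126) (nat_lit 14) (.e (nat_lit 491540) (nat_lit 3) .nil))) (.g (nat_lit 0) (.e (nat_lit 23850) (nat_lit 0) .nil) .nil))) 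
(.lf (nat_lit 453156) (.g (nat_lit 3645) (.e (nat_lit 2625) (nat_lit 164) (.e (nat_lit 172126) (nat_lit 14) (.e (nat_lit 491540) (nat_lit 3) (.e (nat_lit 98373) (nat_lit 29) (.e (nat_lit 450567) (nat_lit 0) (.e (nat_lit 3966) (nat_lit 239) .nil)))))) (.g (nat_lit 1) (.e (nat_lit 26986) (nat_lit 0) .nil) .nil)))) (.nd (nat_lit 9) 
(.lf (nat_lit 452900) (.g (nat_lit 2204) (.e (nat_lit 2619) (nat_lit 164) (.e (nat_lit 172120) (nat_lit 12) (.e (nat_lit 475211) (nat_lit 41) (.e (nat_lit 712755) (nat_lit 30) (.e (nat_lit 458496) (nat_lit 0) (.e (nat_lit 5548) (nat_lit 306) .nil)))))) (.g (nat_lit 1) (.e (nat_lit 25359) (nat_lit 0) .nil) .nil))) 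
(.lf (nat_lit 453412) (.g (nat_lit 3455) (.e (nat_lit 2628) (nat_lit 164) (.e (nat_lit 172126) (nat_lit 14) (.e (nat_lit 491550) (nat_lit 9) (.e (nat_lit 336430) (nat_lit 29) (.e (nat_lit 442421) (nat_lit 21) (.e (nat_lit 164347) (nat_lit 240) .nil)))))) (.g (nat_lit 1) (.e (nat_lit 28724) (nat_lit 0) .nil) .nil))))) (.nd (nat_lit 8) (.nd (nat_lit 9) 
(.lf (nat_lit 452772) (.g (nat_lit 3112) (.e (nat_lit 2619) (nat_lit 164) (.e (nat_lit 172062) (nat_lit 2) (.e (nat_lit 196666) (nat_lit 13) (.e (nat_lit 65610) (nat_lit 10) (.e (nat_lit 344117) (nat_lit 21) (.e (nat_lit 516106) (nat_lit 0) (.e (nat_lit 2515) (nat_lit 157) (.e (nat_lit 4506) (nat_lit 263) .nil)))))))) (.g (nat_lit 1) (.e (nat_lit 24744) (nat_lit 0) .nil) .nil))) 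
(.lf (nat_lit 453284) (.g (nat_lit 1903) (.e (nat_lit 2628) (nat_lit 164) (.e (nat_lit 172118) (nat_lit 12) (.e (nat_lit 475211) (nat_lit 41) (.e (nat_lit 712755) (nat_lit 30) (.e (nat_lit 458496) (nat_lit 0) (.e (nat_lit 5546) (nat_lit 306) .nil)))))) (.g (nat_lit 1) (.e (nat_lit 28212) (nat_lit 0) .nil) .nil)))) (.nd (nat_lit 9) 
(.lf (nat_lit 453028) (.g (nat_lit 3005) (.e (nat_lit 2620) (nat_lit 164) (.e (nat_lit 172066) (nat_lit 3) (.e (nat_lit 204869) (nat_lit 29) (.e (nat_lit 360475) (nat_lit 8) (.e (nat_lit 557091) (nat_lit 12) (.e (nat_lit 163843) (nat_lit 0) (.e (nat_lit 6254) (nat_lit 337) .nil))))))) (.g (nat_lit 1) (.e (nat_lit 25998) (nat_lit 0) .nil) .nil))) 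
(.lf (nat_lit 453540) (.g (nat_lit 3476) (.e (nat_lit 2629) (nat_lit 164) (.e (nat_lit 172124) (nat_lit 14) (.e (nat_lit 491549) (nat_lit 9) (.e (nat_lit 336443) (nat_lit 32) (.e (nat_lit 466971) (nat_lit 21) (.e (nat_lit 164345) (nat_lit 240) .nil)))))) (.g (nat_lit 1) (.e (nat_lit 29760) (nat_lit 0) .nil) .nil)))))) (.nd (nat_lit 7) (.nd (nat_lit 8) (.nd (nat_lit 9) 
(.lf (nat_lit 452708) (.g (nat_lit 2397) (.e (nat_lit 2618) (nat_lit 164) (.e (nat_lit 172120) (nat_lit 12) (.e (nat_lit 475198) (nat_lit 40) (.e (nat_lit 704599) (nat_lit 6) (.e (nat_lit 188445) (nat_lit 21) (.e (nat_lit 164345) (nat_lit 240) .nil)))))) (.g (nat_lit 1) (.e (nat_lit 24418) (nat_lit 0) .nil) .nil))) 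
(.lf (nat_lit 453220) (.g (nat_lit 2919) (.e (nat_lit 2628) (nat_lit 164) (.e (nat_lit 172066) (nat_lit 3) (.e (nat_lit 204869) (nat_lit 29) (.e (nat_lit 360475) (nat_lit 8) (.e (nat_lit 557089) (nat_lit 12) (.e (nat_lit 163841) (nat_lit 0) (.e (nat_lit 6374) (nat_lit 337) .nil))))))) (.g (nat_lit 1) (.e (nat_lit 27543) (nat_lit 0) .nil) .nil)))) (.nd (nat_lit 9) 
(.lf (nat_lit 452964) (.g (nat_lit 2838) (.e (nat_lit 2619) (nat_lit 164) (.e (nat_lit 172126) (nat_lit 14) (.e (nat_lit 491547) (nat_lit 9) (.e (nat_lit 336443) (nat_lit 32) (.e (nat_lit 466971) (nat_lit 21) (.e (nat_lit 164347) (nat_lit 240) .nil)))))) (.g (nat_lit 1) (.e (nat_lit 25729) (nat_lit 0) .nil) .nil))) 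
(.lf (nat_lit 453476) (.g (nat_lit 1880) (.e (nat_lit 2629) (nat_lit 164) (.e (nat_lit 172119) (nat_lit 12) (.e (nat_lit 475211) (nat_lit 41) (.e (nat_lit 712755) (nat_lit 30) (.e (nat_lit 458496) (nat_lit 0) .nil))))) (.g (nat_lit 0) (.e (nat_lit 29628) (nat_lit 0) .nil) .nil))))) (.nd (nat_lit 8) (.nd (nat_lit 9) 
(.lf (nat_lit 452836) (.g (nat_lit 1778) (.e (nat_lit 2619) (nat_lit 164) (.e (nat_lit 172119) (nat_lit 12) (.e (nat_lit 475211) (nat_lit 41) (.e (nat_lit 712753) (nat_lit 30) (.e (nat_lit 458496) (nat_lit 0) (.e (nat_lit 5547) (nat_lit 306) .nil)))))) (.g (nat_lit 1) (.e (nat_lit 25272) (nat_lit 0) .nil) .nil))) 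
(.lf (nat_lit 453348) (.g (nat_lit 3016) (.e (nat_lit 2628) (nat_lit 164) (.e (nat_lit 172124) (nat_lit 14) (.e (nat_lit 491549) (nat_lit 9) (.e (nat_lit 336443) (nat_lit 32) (.e (nat_lit 466971) (nat_lit 21) (.e (nat_lit 164345) (nat_lit 240) .nil)))))) (.g (nat_lit 1) (.e (nat_lit 28380) (nat_lit 0) .nil) .nil)))) (.nd (nat_lit 9) 
(.lf (nat_lit 453092) (.g (nat_lit 929) (.e (nat_lit 2622) (nat_lit 164) (.e (nat_lit 172118) (nat_lit 12) (.e (nat_lit 475211) (nat_lit 41) (.e (nat_lit 712753) (nat_lit 30) .nil)))) (.g (nat_lit 0) (.e (nat_lit 26303) (nat_lit 0) .nil) .nil))) 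
(.lf (nat_lit 453604) (.g (nat_lit 3017) (.e (nat_lit 2629) (nat_lit 164) (.e (nat_lit 172126) (nat_lit 14) (.e (nat_lit 491550) (nat_lit 9) (.e (nat_lit 336430) (nat_lit 29) (.e (nat_lit 442419) (nat_lit 21) (.e (nat_lit 164347) (nat_lit 240) .nil)))))) (.g (nat_lit 1) (.e (nat_lit 30278) (nat_lit 0) .nil) .nil)))))))) 
(.nd (nat_lit 5) (.nd (nat_lit 6) (.nd (nat_lit 7) (.nd (nat_lit 8) (.nd (nat_lit 9) 
(.lf (nat_lit 452628) (.g (nat_lit 4839) (.e (nat_lit 2616) (nat_lit 164) (.e (nat_lit 172126) (nat_lit 14) (.e (nat_lit 491540) (nat_lit 3) (.e (nat_lit 98373) (nat_lit 29) (.e (nat_lit 450562) (nat_lit 0) (.e (nat_lit 3948) (nat_lit 239) .nil)))))) (.g (nat_lit 1) (.e (nat_lit 23572) (nat_lit 0) .nil) .nil))) 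
(.lf (nat_lit 453140) (.g (nat_lit 2436) (.e (nat_lit 2625) (nat_lit 164) (.e (nat_lit 172124) (nat_lit 14) (.e (nat_lit 491540) (nat_lit 3) (.e (nat_lit 98373) (nat_lit 29) (.e (nat_lit 450560) (nat_lit 0) .nil))))) (.g (nat_lit 0) (.e (nat_lit 26889) (nat_lit 0) .nil) .nil)))) (.nd (nat_lit 9) 
(.lf (nat_lit 452884) (.g (nat_lit 3631) (.e (nat_lit 2619) (nat_lit 164) (.e (nat_lit 172120) (nat_lit 12) (.e (nat_lit 475211) (nat_lit 41) (.e (nat_lit 712752) (nat_lit 29) (.e (nat_lit 442421) (nat_lit 21) (.e (nat_lit 164345) (nat_lit 240) .nil)))))) (.g (nat_lit 1) (.e (nat_lit 25343) (nat_lit 0) .nil) .nil))) 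
(.lf (nat_lit 453396) (.g (nat_lit 2310) (.e (nat_lit 2628) (nat_lit 164) (.e (nat_lit 172126) (nat_lit 14) (.e (nat_lit 491549) (nat_lit 9) (.e (nat_lit 336432) (nat_lit 30) (.e (nat_lit 450561) (nat_lit 0) (.e (nat_lit 5537) (nat_lit 306) .nil)))))) (.g (nat_lit 1) (.e (nat_lit 28706) (nat_lit 0) .nil) .nil))))) (.nd (nat_lit 8) (.nd (nat_lit 9) 
(.lf (nat_lit 452756) (.g (nat_lit 3243) (.e (nat_lit 2618) (nat_lit 164) (.e (nat_lit 172126) (nat_lit 14) (.e (nat_lit 491549) (nat_lit 9) (.e (nat_lit 336443) (nat_lit 32) (.e (nat_lit 466969) (nat_lit 21) (.e (nat_lit 164345) (nat_lit 240) .nil)))))) (.g (nat_lit 1) (.e (nat_lit 24648) (nat_lit 0) .nil) .nil))) 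
(.lf (nat_lit 453268) (.g (nat_lit 2406) (.e (nat_lit 2628) (nat_lit 164) (.e (nat_lit 172118) (nat_lit 12) (.e (nat_lit 475210) (nat_lit 41) (.e (nat_lit 712755) (nat_lit 30) (.e (nat_lit 458496) (nat_lit 0) (.e (nat_lit 5547) (nat_lit 306) .nil)))))) (.g (nat_lit 1) (.e (nat_lit 28193) (nat_lit 0) .nil) .nil)))) (.nd (nat_lit 9) 
(.lf (nat_lit 453012) (.g (nat_lit 2352) (.e (nat_lit 2619) (nat_lit 164) (.e (nat_lit 172126) (nat_lit 14) (.e (nat_lit 491568) (nat_lit 13) (.e (nat_lit 393283) (nat_lit 24) (.e (nat_lit 434209) (nat_lit 18) (.e (nat_lit 5548) (nat_lit 306) .nil)))))) (.g (nat_lit 1) (.e (nat_lit 25801) (nat_lit 0) .nil) .nil))) 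
(.lf (nat_lit 453524) (.g (nat_lit 1871) (.e (nat_lit 2629) (nat_lit 164) (.e (nat_lit 172124) (nat_lit 14) (.e (nat_lit 491549) (nat_lit 9) (.e (nat_lit 336426) (nat_lit 29) (.e (nat_lit 442421) (nat_lit 21) .nil))))) (.g (nat_lit 0) (.e (nat_lit 29741) (nat_lit 0) .nil) .nil)))))) (.nd (nat_lit 7) (.nd (nat_lit 8) (.nd (nat_lit 9) 
(.lf (nat_lit 452692) (.g (nat_lit 3234) (.e (nat_lit 2618) (nat_lit 164) (.e (nat_lit 172118) (nat_lit 12) (.e (nat_lit 475211) (nat_lit 41) (.e (nat_lit 712752) (nat_lit 29) (.e (nat_lit 442421) (nat_lit 21) (.e (nat_lit 164345) (nat_lit 240) .nil)))))) (.g (nat_lit 1) (.e (nat_lit 24388) (nat_lit 0) .nil) .nil))) 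
(.lf (nat_lit 453204) (.g (nat_lit 1911) (.e (nat_lit 2628) (nat_lit 164) (.e (nat_lit 172064) (nat_lit 2) (.e (nat_lit 196666) (nat_lit 13) (.e (nat_lit 65617) (nat_lit 10) .nil)))) (.g (nat_lit 0) (.e (nat_lit 27507) (nat_lit 0) .nil) .nil)))) (.nd (nat_lit 9) 
(.lf (nat_lit 452948) (.g (nat_lit 2579) (.e (nat_lit 2619) (nat_lit 164) (.e (nat_lit 172124) (nat_lit 14) (.e (nat_lit 491569) (nat_lit 13) (.e (nat_lit 393271) (nat_lit 23) (.e (nat_lit 426112) (nat_lit 1) (.e (nat_lit 164347) (nat_lit 240) .nil)))))) (.g (nat_lit 1) (.e (nat_lit 25466) (nat_lit 0) .nil) .nil))) 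
(.lf (nat_lit 453460) (.g (nat_lit 1056) (.e (nat_lit 2629) (nat_lit 164) (.e (nat_lit 172119) (nat_lit 12) (.e (nat_lit 475198) (nat_lit 40) (.e (nat_lit 704598) (nat_lit 6) .nil)))) (.g (nat_lit 0) (.e (nat_lit 29602) (nat_lit 0) .nil) .nil))))) (.nd (nat_lit 8) (.nd (nat_lit 9) 
(.lf (nat_lit 452820) (.g (nat_lit 3570) (.e (nat_lit 2619) (nat_lit 164) (.e (nat_lit 172118) (nat_lit 12) (.e (nat_lit 475211) (nat_lit 41) (.e (nat_lit 712755) (nat_lit 30) (.e (nat_lit 450566) (nat_lit 0) (.e (nat_lit 5548) (nat_lit 306) .nil)))))) (.g (nat_lit 1) (.e (nat_lit 25250) (nat_lit 0) .nil) .nil))) 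
(.lf (nat_lit 453332) (.g (nat_lit 3071) (.e (nat_lit 2628) (nat_lit 164) (.e (nat_lit 172124) (nat_lit 14) (.e (nat_lit 491549) (nat_lit 9) (.e (nat_lit 336430) (nat_lit 29) (.e (nat_lit 442419) (nat_lit 21) (.e (nat_lit 164346) (nat_lit 240) .nil)))))) (.g (nat_lit 1) (.e (nat_lit 28364) (nat_lit 0) .nil) .nil)))) (.nd (nat_lit 9) 
(.lf (nat_lit 453076) (.g (nat_lit 2328) (.e (nat_lit 2622) (nat_lit 164) (.e (nat_lit 172062) (nat_lit 2) (.e (nat_lit 196666) (nat_lit 13) (.e (nat_lit 65617) (nat_lit 10) (.e (nat_lit 344133) (nat_lit 26) (.e (nat_lit 557091) (nat_lit 12) (.e (nat_lit 163847) (nat_lit 0) (.e (nat_lit 6255) (nat_lit 337) .nil)))))))) (.g (nat_lit 1) (.e (nat_lit 26271) (nat_lit 0) .nil) .nil))) 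
(.lf (nat_lit 453588) (.g (nat_lit 2349) (.e (nat_lit 2629) (nat_lit 164) (.e (nat_lit 172126) (nat_lit 14) (.e (nat_lit 491549) (nat_lit 9) (.e (nat_lit 336432) (nat_lit 30) (.e (nat_lit 458496) (nat_lit 0) (.e (nat_lit 5543) (nat_lit 306) .nil)))))) (.g (nat_lit 1) (.e (nat_lit 30259) (nat_lit 0) .nil) .nil))))))) (.nd (nat_lit 6) (.nd (nat_lit 7) (.nd (nat_lit 8) (.nd (nat_lit 9) 
(.lf (nat_lit 452660) (.g (nat_lit 2438) (.e (nat_lit 2617) (nat_lit 164) (.e (nat_lit 172126) (nat_lit 14) (.e (nat_lit 491549) (nat_lit 9) (.e (nat_lit 336432) (nat_lit 30) (.e (nat_lit 450564) (nat_lit 0) (.e (nat_lit 5548) (nat_lit 306) .nil)))))) (.g (nat_lit 1) (.e (nat_lit 23912) (nat_lit 0) .nil) .nil))) 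
(.lf (nat_lit 453172) (.g (nat_lit 3327) (.e (nat_lit 2626) (nat_lit 164) (.e (nat_lit 172126) (nat_lit 14) (.e (nat_lit 491540) (nat_lit 3) (.e (nat_lit 98372) (nat_lit 29) (.e (nat_lit 450564) (nat_lit 0) (.e (nat_lit 3944) (nat_lit 239) .nil)))))) (.g (nat_lit 1) (.e (nat_lit 27275) (nat_lit 0) .nil) .nil)))) (.nd (nat_lit 9) 
(.lf (nat_lit 452916) (.g (nat_lit 3953) (.e (nat_lit 2619) (nat_lit 164) (.e (nat_lit 172124) (nat_lit 14) (.e (nat_lit 491549) (nat_lit 9) (.e (nat_lit 336434) (nat_lit 30) (.e (nat_lit 450564) (nat_lit 0) (.e (nat_lit 5546) (nat_lit 306) .nil)))))) (.g (nat_lit 1) (.e (nat_lit 25426) (nat_lit 0) .nil) .nil))) 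
(.lf (nat_lit 453428) (.g (nat_lit 3638) (.e (nat_lit 2629) (nat_lit 164) (.e (nat_lit 172062) (nat_lit 2) (.e (nat_lit 196666) (nat_lit 13) (.e (nat_lit 65610) (nat_lit 10) (.e (nat_lit 344117) (nat_lit 21) (.e (nat_lit 516106) (nat_lit 0) (.e (nat_lit 2425) (nat_lit 157) (.e (nat_lit 4516) (nat_lit 263) .nil)))))))) (.g (nat_lit 1) (.e (nat_lit 29015) (nat_lit 0) .nil) .nil))))) 
(.nd (nat_lit 8) (.nd (nat_lit 9) 
(.lf (nat_lit 452788) (.g (nat_lit 2149) (.e (nat_lit 2619) (nat_lit 164) (.e (nat_lit 172118) (nat_lit 12) (.e (nat_lit 475198) (nat_lit 40) (.e (nat_lit 704598) (nat_lit 6) (.e (nat_lit 188444) (nat_lit 21) (.e (nat_lit 164345) (nat_lit 240) .nil)))))) (.g (nat_lit 1) (.e (nat_lit 25204) (nat_lit 0) .nil) .nil))) 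
(.lf (nat_lit 453300) (.g (nat_lit 3548) (.e (nat_lit 2628) (nat_lit 164) (.e (nat_lit 172120) (nat_lit 12) (.e (nat_lit 475210) (nat_lit 41) (.e (nat_lit 712752) (nat_lit 29) (.e (nat_lit 442421) (nat_lit 21) (.e (nat_lit 164346) (nat_lit 240) .nil)))))) (.g (nat_lit 1) (.e (nat_lit 28258) (nat_lit 0) .nil) .nil)))) (.nd (nat_lit 9) 
(.lf (nat_lit 453044) (.g (nat_lit 2920) (.e (nat_lit 2621) (nat_lit 164) (.e (nat_lit 172066) (nat_lit 3) (.e (nat_lit 204869) (nat_lit 29) (.e (nat_lit 360475) (nat_lit 8) (.e (nat_lit 557091) (nat_lit 12) .nil))))) (.g (nat_lit 0) (.e (nat_lit 26173) (nat_lit 0) .nil) .nil))) 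
(.lf (nat_lit 453556) (.g (nat_lit 3726) (.e (nat_lit 2629) (nat_lit 164) (.e (nat_lit 172124) (nat_lit 14) (.e (nat_lit 491550) (nat_lit 9) (.e (nat_lit 336443) (nat_lit 32) (.e (nat_lit 466969) (nat_lit 21) (.e (nat_lit 164348) (nat_lit 240) .nil)))))) (.g (nat_lit 1) (.e (nat_lit 29779) (nat_lit 0) .nil) .nil)))))) (.nd (nat_lit 7) (.nd (nat_lit 8) (.nd (nat_lit 9) 
(.lf (nat_lit 452724) (.g (nat_lit 2506) (.e (nat_lit 2618) (nat_lit 164) (.e (nat_lit 172124) (nat_lit 14) (.e (nat_lit 491549) (nat_lit 9) (.e (nat_lit 336432) (nat_lit 30) (.e (nat_lit 450564) (nat_lit 0) .nil))))) (.g (nat_lit 0) (.e (nat_lit 24458) (nat_lit 0) .nil) .nil))) 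
(.lf (nat_lit 453236) (.g (nat_lit 3225) (.e (nat_lit 2628) (nat_lit 164) (.e (nat_lit 172067) (nat_lit 3) (.e (nat_lit 204869) (nat_lit 29) (.e (nat_lit 360474) (nat_lit 8) (.e (nat_lit 557094) (nat_lit 12) (.e (nat_lit 163840) (nat_lit 0) (.e (nat_lit 6374) (nat_lit 337) .nil))))))) (.g (nat_lit 1) (.e (nat_lit 27587) (nat_lit 0) .nil) .nil)))) (.nd (nat_lit 9) 
(.lf (nat_lit 452980) (.g (nat_lit 2433) (.e (nat_lit 2619) (nat_lit 164) (.e (nat_lit 172126) (nat_lit 14) (.e (nat_lit 491549) (nat_lit 9) (.e (nat_lit 336432) (nat_lit 30) (.e (nat_lit 458496) (nat_lit 0) (.e (nat_lit 5546) (nat_lit 306) .nil)))))) (.g (nat_lit 1) (.e (nat_lit 25765) (nat_lit 0) .nil) .nil))) 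
(.lf (nat_lit 453492) (.g (nat_lit 1918) (.e (nat_lit 2629) (nat_lit 164) (.e (nat_lit 172120) (nat_lit 12) (.e (nat_lit 475210) (nat_lit 41) (.e (nat_lit 712753) (nat_lit 30) (.e (nat_lit 458496) (nat_lit 0) .nil))))) (.g (nat_lit 0) (.e (nat_lit 29666) (nat_lit 0) .nil) .nil))))) (.nd (nat_lit 8) (.nd (nat_lit 9) 
(.lf (nat_lit 452852) (.g (nat_lit 2823) (.e (nat_lit 2619) (nat_lit 164) (.e (nat_lit 172120) (nat_lit 12) (.e (nat_lit 475198) (nat_lit 40) (.e (nat_lit 704599) (nat_lit 6) (.e (nat_lit 188445) (nat_lit 21) (.e (nat_lit 164348) (nat_lit 240) .nil)))))) (.g (nat_lit 1) (.e (nat_lit 25293) (nat_lit 0) .nil) .nil))) 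
(.lf (nat_lit 453364) (.g (nat_lit 3450) (.e (nat_lit 2628) (nat_lit 164) (.e (nat_lit 172124) (nat_lit 14) (.e (nat_lit 491550) (nat_lit 9) (.e (nat_lit 336443) (nat_lit 32) (.e (nat_lit 466969) (nat_lit 21) (.e (nat_lit 164348) (nat_lit 240) .nil)))))) (.g (nat_lit 1) (.e (nat_lit 28397) (nat_lit 0) .nil) .nil)))) (.nd (nat_lit 9) 
(.lf (nat_lit 453108) (.g (nat_lit 2523) (.e (nat_lit 2622) (nat_lit 164) (.e (nat_lit 172133) (nat_lit 15) (.e (nat_lit 2059) (nat_lit 142) (.e (nat_lit 704595) (nat_lit 5) (.e (nat_lit 188160) (nat_lit 37) .nil))))) (.g (nat_lit 0) (.e (nat_lit 26412) (nat_lit 0) .nil) .nil))) 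
(.lf (nat_lit 453620) (.g (nat_lit 3374) (.e (nat_lit 2629) (nat_lit 164) (.e (nat_lit 172126) (nat_lit 14) (.e (nat_lit 491550) (nat_lit 9) (.e (nat_lit 336443) (nat_lit 32) (.e (nat_lit 466971) (nat_lit 21) (.e (nat_lit 164347) (nat_lit 240) .nil)))))) (.g (nat_lit 1) (.e (nat_lit 30295) (nat_lit 0) .nil) .nil))))))))) 
(.nd (nat_lit 4) (.nd (nat_lit 5) (.nd (nat_lit 6) (.nd (nat_lit 7) (.nd (nat_lit 8) 
(.nd (nat_lit 9) 
(.lf (nat_lit 452620) (.g (nat_lit 1440) (.e (nat_lit 2616) (nat_lit 164) (.e (nat_lit 172126) (nat_lit 14) (.e (nat_lit 491537) (nat_lit 2) (.e (nat_lit 90170) (nat_lit 13) .nil)))) (.g (nat_lit 0) (.e (nat_lit 23561) (nat_lit 0) .nil) .nil))) 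
(.lf (nat_lit 453132) (.g (nat_lit 2152) (.e (nat_lit 2625) (nat_lit 164) (.e (nat_lit 172120) (nat_lit 12) (.e (nat_lit 475211) (nat_lit 41) (.e (nat_lit 712755) (nat_lit 30) (.e (nat_lit 450562) (nat_lit 0) .nil))))) (.g (nat_lit 0) (.e (nat_lit 26843) (nat_lit 0) .nil) .nil)))) (.nd (nat_lit 9) 
(.lf (nat_lit 452876) (.g (nat_lit 3779) (.e (nat_lit 2619) (nat_lit 164) (.e (nat_lit 172120) (nat_lit 12) (.e (nat_lit 475210) (nat_lit 41) (.e (nat_lit 712755) (nat_lit 30) (.e (nat_lit 450565) (nat_lit 0) (.e (nat_lit 5548) (nat_lit 306) .nil)))))) (.g (nat_lit 1) (.e (nat_lit 25334) (nat_lit 0) .nil) .nil))) 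
(.lf (nat_lit 453388) (.g (nat_lit 3213) (.e (nat_lit 2628) (nat_lit 164) (.e (nat_lit 172126) (nat_lit 14) (.e (nat_lit 491547) (nat_lit 9) (.e (nat_lit 336443) (nat_lit 32) (.e (nat_lit 466972) (nat_lit 21) (.e (nat_lit 164345) (nat_lit 240) .nil)))))) (.g (nat_lit 1) (.e (nat_lit 28668) (nat_lit 0) .nil) .nil))))) (.nd (nat_lit 8) (.nd (nat_lit 9) 
(.lf (nat_lit 452748) (.g (nat_lit 2435) (.e (nat_lit 2618) (nat_lit 164) (.e (nat_lit 172126) (nat_lit 14) (.e (nat_lit 491547) (nat_lit 9) (.e (nat_lit 336443) (nat_lit 32) (.e (nat_lit 466971) (nat_lit 21) (.e (nat_lit 164345) (nat_lit 240) .nil)))))) (.g (nat_lit 1) (.e (nat_lit 24636) (nat_lit 0) .nil) .nil))) 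
(.lf (nat_lit 453260) (.g (nat_lit 1990) (.e (nat_lit 2628) (nat_lit 164) (.e (nat_lit 172118) (nat_lit 12) (.e (nat_lit 475210) (nat_lit 41) (.e (nat_lit 712753) (nat_lit 30) (.e (nat_lit 450564) (nat_lit 0) (.e (nat_lit 5547) (nat_lit 306) .nil)))))) (.g (nat_lit 1) (.e (nat_lit 28185) (nat_lit 0) .nil) .nil)))) (.nd (nat_lit 9) 
(.lf (nat_lit 453004) (.g (nat_lit 3875) (.e (nat_lit 2619) (nat_lit 164) (.e (nat_lit 172126) (nat_lit 14) (.e (nat_lit 491550) (nat_lit 9) (.e (nat_lit 336443) (nat_lit 32) (.e (nat_lit 466969) (nat_lit 21) (.e (nat_lit 164348) (nat_lit 240) .nil)))))) (.g (nat_lit 1) (.e (nat_lit 25790) (nat_lit 0) .nil) .nil))) 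
(.lf (nat_lit 453516) (.g (nat_lit 2266) (.e (nat_lit 2629) (nat_lit 164) (.e (nat_lit 172120) (nat_lit 12) (.e (nat_lit 475211) (nat_lit 41) (.e (nat_lit 712755) (nat_lit 30) (.e (nat_lit 458496) (nat_lit 0) (.e (nat_lit 5547) (nat_lit 306) .nil)))))) (.g (nat_lit 1) (.e (nat_lit 29693) (nat_lit 0) .nil) .nil)))))) (.nd (nat_lit 7) (.nd (nat_lit 8) (.nd (nat_lit 9) 
(.lf (nat_lit 452684) (.g (nat_lit 1813) (.e (nat_lit 2618) (nat_lit 164) (.e (nat_lit 172118) (nat_lit 12) (.e (nat_lit 475198) (nat_lit 40) (.e (nat_lit 704598) (nat_lit 6) (.e (nat_lit 188444) (nat_lit 21) (.e (nat_lit 164346) (nat_lit 240) .nil)))))) (.g (nat_lit 1) (.e (nat_lit 24373) (nat_lit 0) .nil) .nil))) 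
(.lf (nat_lit 453196) (.g (nat_lit 3897) (.e (nat_lit 2628) (nat_lit 164) (.e (nat_lit 172062) (nat_lit 2) (.e (nat_lit 196666) (nat_lit 13) (.e (nat_lit 65617) (nat_lit 10) (.e (nat_lit 344133) (nat_lit 26) (.e (nat_lit 557089) (nat_lit 12) (.e (nat_lit 163844) (nat_lit 0) (.e (nat_lit 6374) (nat_lit 337) .nil)))))))) (.g (nat_lit 1) (.e (nat_lit 27495) (nat_lit 0) .nil) .nil)))) 
(.nd (nat_lit 9) 
(.lf (nat_lit 452940) (.g (nat_lit 3768) (.e (nat_lit 2619) (nat_lit 164) (.e (nat_lit 172124) (nat_lit 14) (.e (nat_lit 491550) (nat_lit 9) (.e (nat_lit 336443) (nat_lit 32) (.e (nat_lit 466971) (nat_lit 21) (.e (nat_lit 164348) (nat_lit 240) .nil)))))) (.g (nat_lit 1) (.e (nat_lit 25453) (nat_lit 0) .nil) .nil))) 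
(.lf (nat_lit 453452) (.g (nat_lit 2247) (.e (nat_lit 2629) (nat_lit 164) (.e (nat_lit 172118) (nat_lit 12) (.e (nat_lit 475211) (nat_lit 41) (.e (nat_lit 712753) (nat_lit 30) (.e (nat_lit 450564) (nat_lit 0) (.e (nat_lit 5548) (nat_lit 306) .nil)))))) (.g (nat_lit 1) (.e (nat_lit 29594) (nat_lit 0) .nil) .nil))))) (.nd (nat_lit 8) (.nd (nat_lit 9) 
(.lf (nat_lit 452812) (.g (nat_lit 3279) (.e (nat_lit 2619) (nat_lit 164) (.e (nat_lit 172118) (nat_lit 12) (.e (nat_lit 475211) (nat_lit 41) (.e (nat_lit 712752) (nat_lit 29) (.e (nat_lit 442421) (nat_lit 21) (.e (nat_lit 164345) (nat_lit 240) .nil)))))) (.g (nat_lit 1) (.e (nat_lit 25242) (nat_lit 0) .nil) .nil))) 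
(.lf (nat_lit 453324) (.g (nat_lit 1976) (.e (nat_lit 2628) (nat_lit 164) (.e (nat_lit 172120) (nat_lit 12) (.e (nat_lit 475211) (nat_lit 41) (.e (nat_lit 712755) (nat_lit 30) (.e (nat_lit 458496) (nat_lit 0) .nil))))) (.g (nat_lit 0) (.e (nat_lit 28286) (nat_lit 0) .nil) .nil)))) (.nd (nat_lit 9) 
(.lf (nat_lit 453068) (.g (nat_lit 1759) (.e (nat_lit 2621) (nat_lit 164) (.e (nat_lit 172120) (nat_lit 12) (.e (nat_lit 475211) (nat_lit 41) (.e (nat_lit 712755) (nat_lit 30) .nil)))) (.g (nat_lit 0) (.e (nat_lit 26233) (nat_lit 0) .nil) .nil))) 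
(.lf (nat_lit 453580) (.g (nat_lit 2896) (.e (nat_lit 2629) (nat_lit 164) (.e (nat_lit 172126) (nat_lit 14) (.e (nat_lit 491549) (nat_lit 9) (.e (nat_lit 336426) (nat_lit 29) (.e (nat_lit 442421) (nat_lit 21) (.e (nat_lit 164347) (nat_lit 240) .nil)))))) (.g (nat_lit 1) (.e (nat_lit 30250) (nat_lit 0) .nil) .nil))))))) (.nd (nat_lit 6) (.nd (nat_lit 7) (.nd (nat_lit 8) (.nd (nat_lit 9) 
(.lf (nat_lit 452652) (.g (nat_lit 3481) (.e (nat_lit 2617) (nat_lit 164) (.e (nat_lit 172126) (nat_lit 14) (.e (nat_lit 491547) (nat_lit 9) (.e (nat_lit 336443) (nat_lit 32) (.e (nat_lit 466971) (nat_lit 21) (.e (nat_lit 164347) (nat_lit 240) .nil)))))) (.g (nat_lit 1) (.e (nat_lit 23869) (nat_lit 0) .nil) .nil))) 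
(.lf (nat_lit 453164) (.g (nat_lit 1524) (.e (nat_lit 2626) (nat_lit 164) (.e (nat_lit 172126) (nat_lit 14) (.e (nat_lit 491537) (nat_lit 2) (.e (nat_lit 90170) (nat_lit 13) .nil)))) (.g (nat_lit 0) (.e (nat_lit 27259) (nat_lit 0) .nil) .nil)))) (.nd (nat_lit 9) 
(.lf (nat_lit 452908) (.g (nat_lit 3771) (.e (nat_lit 2619) (nat_lit 164) (.e (nat_lit 172124) (nat_lit 14) (.e (nat_lit 491549) (nat_lit 9) (.e (nat_lit 336430) (nat_lit 29) (.e (nat_lit 442419) (nat_lit 21) (.e (nat_lit 164346) (nat_lit 240) .nil)))))) (.g (nat_lit 1) (.e (nat_lit 25418) (nat_lit 0) .nil) .nil))) 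
(.lf (nat_lit 453420) (.g (nat_lit 2408) (.e (nat_lit 2628) (nat_lit 164) (.e (nat_lit 172126) (nat_lit 14) (.e (nat_lit 491550) (nat_lit 9) (.e (nat_lit 336443) (nat_lit 32) (.e (nat_lit 466971) (nat_lit 21) (.e (nat_lit 164346) (nat_lit 240) .nil)))))) (.g (nat_lit 1) (.e (nat_lit 28732) (nat_lit 0) .nil) .nil))))) (.nd (nat_lit 8) (.nd (nat_lit 9) 
(.lf (nat_lit 452780) (.g (nat_lit 2811) (.e (nat_lit 2619) (nat_lit 164) (.e (nat_lit 172064) (nat_lit 2) (.e (nat_lit 196666) (nat_lit 13) (.e (nat_lit 65610) (nat_lit 10) (.e (nat_lit 344117) (nat_lit 21) (.e (nat_lit 516098) (nat_lit 0) (.e (nat_lit 2411) (nat_lit 157) (.e (nat_lit 4507) (nat_lit 263) .nil)))))))) (.g (nat_lit 1) (.e (nat_lit 24759) (nat_lit 0) .nil) .nil))) 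
(.lf (nat_lit 453292) (.g (nat_lit 1670) (.e (nat_lit 2628) (nat_lit 164) (.e (nat_lit 172120) (nat_lit 12) (.e (nat_lit 475198) (nat_lit 40) (.e (nat_lit 704599) (nat_lit 6) (.e (nat_lit 188445) (nat_lit 21) .nil))))) (.g (nat_lit 0) (.e (nat_lit 28231) (nat_lit 0) .nil) .nil)))) (.nd (nat_lit 9) 
(.lf (nat_lit 453036) (.g (nat_lit 1650) (.e (nat_lit 2620) (nat_lit 164) (.e (nat_lit 172120) (nat_lit 12) (.e (nat_lit 475198) (nat_lit 40) (.e (nat_lit 704598) (nat_lit 6) .nil)))) (.g (nat_lit 0) (.e (nat_lit 26026) (nat_lit 0) .nil) .nil))) 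
(.lf (nat_lit 453548) (.g (nat_lit 3069) (.e (nat_lit 2629) (nat_lit 164) (.e (nat_lit 172124) (nat_lit 14) (.e (nat_lit 491550) (nat_lit 9) (.e (nat_lit 336430) (nat_lit 29) (.e (nat_lit 442421) (nat_lit 21) (.e (nat_lit 164345) (nat_lit 240) .nil)))))) (.g (nat_lit 1) (.e (nat_lit 29770) (nat_lit 0) .nil) .nil)))))) (.nd (nat_lit 7) (.nd (nat_lit 8) (.nd (nat_lit 9) 
(.lf (nat_lit 452716) (.g (nat_lit 1894) (.e (nat_lit 2618) (nat_lit 164) (.e (nat_lit 172120) (nat_lit 12) (.e (nat_lit 475211) (nat_lit 41) (.e (nat_lit 712753) (nat_lit 30) (.e (nat_lit 450564) (nat_lit 0) (.e (nat_lit 5548) (nat_lit 306) .nil)))))) (.g (nat_lit 1) (.e (nat_lit 24442) (nat_lit 0) .nil) .nil))) 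
(.lf (nat_lit 453228) (.g (nat_lit 4795) (.e (nat_lit 2628) (nat_lit 164) (.e (nat_lit 172066) (nat_lit 3) (.e (nat_lit 204869) (nat_lit 29) (.e (nat_lit 360475) (nat_lit 8) (.e (nat_lit 557091) (nat_lit 12) (.e (nat_lit 163843) (nat_lit 0) (.e (nat_lit 6374) (nat_lit 337) .nil))))))) (.g (nat_lit 1) (.e (nat_lit 27551) (nat_lit 0) .nil) .nil)))) (.nd (nat_lit 9) 
(.lf (nat_lit 452972) (.g (nat_lit 2902) (.e (nat_lit 2619) (nat_lit 164) (.e (nat_lit 172126) (nat_lit 14) (.e (nat_lit 491549) (nat_lit 9) (.e (nat_lit 336430) (nat_lit 29) (.e (nat_lit 442419) (nat_lit 21) (.e (nat_lit 164345) (nat_lit 240) .nil)))))) (.g (nat_lit 1) (.e (nat_lit 25757) (nat_lit 0) .nil) .nil))) 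
(.lf (nat_lit 453484) (.g (nat_lit 2537) (.e (nat_lit 2629) (nat_lit 164) (.e (nat_lit 172120) (nat_lit 12) (.e (nat_lit 475198) (nat_lit 40) (.e (nat_lit 704599) (nat_lit 6) (.e (nat_lit 188446) (nat_lit 21) (.e (nat_lit 164347) (nat_lit 240) .nil)))))) (.g (nat_lit 1) (.e (nat_lit 29643) (nat_lit 0) .nil) .nil))))) (.nd (nat_lit 8) (.nd (nat_lit 9) 
(.lf (nat_lit 452844) (.g (nat_lit 3030) (.e (nat_lit 2619) (nat_lit 164) (.e (nat_lit 172120) (nat_lit 12) (.e (nat_lit 475197) (nat_lit 40) (.e (nat_lit 704598) (nat_lit 6) (.e (nat_lit 188446) (nat_lit 21) (.e (nat_lit 164348) (nat_lit 240) .nil)))))) (.g (nat_lit 1) (.e (nat_lit 25281) (nat_lit 0) .nil) .nil))) 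
(.lf (nat_lit 453356) (.g (nat_lit 2790) (.e (nat_lit 2628) (nat_lit 164) (.e (nat_lit 172124) (nat_lit 14) (.e (nat_lit 491550) (nat_lit 9) (.e (nat_lit 336430) (nat_lit 29) (.e (nat_lit 442421) (nat_lit 21) (.e (nat_lit 164347) (nat_lit 240) .nil)))))) (.g (nat_lit 1) (.e (nat_lit 28389) (nat_lit 0) .nil) .nil)))) (.nd (nat_lit 9) 
(.lf (nat_lit 453100) (.g (nat_lit 2423) (.e (nat_lit 2622) (nat_lit 164) (.e (nat_lit 172124) (nat_lit 14) (.e (nat_lit 491549) (nat_lit 9) (.e (nat_lit 336430) (nat_lit 29) (.e (nat_lit 442430) (nat_lit 24) .nil))))) (.g (nat_lit 0) (.e (nat_lit 26365) (nat_lit 0) .nil) .nil))) 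
(.lf (nat_lit 453612) (.g (nat_lit 2026) (.e (nat_lit 2629) (nat_lit 164) (.e (nat_lit 172126) (nat_lit 14) (.e (nat_lit 491550) (nat_lit 9) (.e (nat_lit 336432) (nat_lit 30) (.e (nat_lit 458496) (nat_lit 0) (.e (nat_lit 5543) (nat_lit 306) .nil)))))) (.g (nat_lit 1) (.e (nat_lit 30286) (nat_lit 0) .nil) .nil)))))))) 
(.nd (nat_lit 5) (.nd (nat_lit 6) (.nd (nat_lit 7) (.nd (nat_lit 8) (.nd (nat_lit 9) 
(.lf (nat_lit 452636) (.g (nat_lit 2246) (.e (nat_lit 2617) (nat_lit 164) (.e (nat_lit 172120) (nat_lit 12) (.e (nat_lit 475211) (nat_lit 41) (.e (nat_lit 712750) (nat_lit 29) (.e (nat_lit 442421) (nat_lit 21) .nil))))) (.g (nat_lit 0) (.e (nat_lit 23788) (nat_lit 0) .nil) .nil))) 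
(.lf (nat_lit 453148) (.g (nat_lit 2186) (.e (nat_lit 2625) (nat_lit 164) (.e (nat_lit 172126) (nat_lit 14) (.e (nat_lit 491540) (nat_lit 3) (.e (nat_lit 98373) (nat_lit 29) (.e (nat_lit 450560) (nat_lit 0) .nil))))) (.g (nat_lit 0) (.e (nat_lit 26978) (nat_lit 0) .nil) .nil)))) (.nd (nat_lit 9) 
(.lf (nat_lit 452892) (.g (nat_lit 3483) (.e (nat_lit 2619) (nat_lit 164) (.e (nat_lit 172120) (nat_lit 12) (.e (nat_lit 475211) (nat_lit 41) (.e (nat_lit 712755) (nat_lit 30) (.e (nat_lit 450562) (nat_lit 0) (.e (nat_lit 5537) (nat_lit 306) .nil)))))) (.g (nat_lit 1) (.e (nat_lit 25351) (nat_lit 0) .nil) .nil))) 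
(.lf (nat_lit 453404) (.g (nat_lit 2318) (.e (nat_lit 2628) (nat_lit 164) (.e (nat_lit 172126) (nat_lit 14) (.e (nat_lit 491549) (nat_lit 9) (.e (nat_lit 336443) (nat_lit 32) (.e (nat_lit 466971) (nat_lit 21) (.e (nat_lit 164346) (nat_lit 240) .nil)))))) (.g (nat_lit 1) (.e (nat_lit 28714) (nat_lit 0) .nil) .nil))))) (.nd (nat_lit 8) (.nd (nat_lit 9) 
(.lf (nat_lit 452764) (.g (nat_lit 1610) (.e (nat_lit 2618) (nat_lit 164) (.e (nat_lit 172126) (nat_lit 14) (.e (nat_lit 491568) (nat_lit 13) (.e (nat_lit 393283) (nat_lit 24) .nil)))) (.g (nat_lit 0) (.e (nat_lit 24659) (nat_lit 0) .nil) .nil))) 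
(.lf (nat_lit 453276) (.g (nat_lit 1894) (.e (nat_lit 2628) (nat_lit 164) (.e (nat_lit 172118) (nat_lit 12) (.e (nat_lit 475211) (nat_lit 41) (.e (nat_lit 712753) (nat_lit 30) (.e (nat_lit 450564) (nat_lit 0) (.e (nat_lit 5547) (nat_lit 306) .nil)))))) (.g (nat_lit 1) (.e (nat_lit 28204) (nat_lit 0) .nil) .nil)))) (.nd (nat_lit 9) 
(.lf (nat_lit 453020) (.g (nat_lit 1760) (.e (nat_lit 2619) (nat_lit 164) (.e (nat_lit 172133) (nat_lit 15) (.e (nat_lit 2059) (nat_lit 142) (.e (nat_lit 704595) (nat_lit 5) .nil)))) (.g (nat_lit 0) (.e (nat_lit 25984) (nat_lit 0) .nil) .nil))) 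
(.lf (nat_lit 453532) (.g (nat_lit 1086) (.e (nat_lit 2629) (nat_lit 164) (.e (nat_lit 172124) (nat_lit 14) (.e (nat_lit 491549) (nat_lit 9) (.e (nat_lit 336432) (nat_lit 30) .nil)))) (.g (nat_lit 0) (.e (nat_lit 29751) (nat_lit 0) .nil) .nil)))))) (.nd (nat_lit 7) (.nd (nat_lit 8) (.nd (nat_lit 9) 
(.lf (nat_lit 452700) (.g (nat_lit 1565) (.e (nat_lit 2618) (nat_lit 164) (.e (nat_lit 172119) (nat_lit 12) (.e (nat_lit 475211) (nat_lit 41) (.e (nat_lit 712753) (nat_lit 30) (.e (nat_lit 458496) (nat_lit 0) .nil))))) (.g (nat_lit 0) (.e (nat_lit 24404) (nat_lit 0) .nil) .nil))) 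
(.lf (nat_lit 453212) (.g (nat_lit 2817) (.e (nat_lit 2628) (nat_lit 164) (.e (nat_lit 172064) (nat_lit 2) (.e (nat_lit 196666) (nat_lit 13) (.e (nat_lit 65617) (nat_lit 10) (.e (nat_lit 344133) (nat_lit 26) (.e (nat_lit 557091) (nat_lit 12) (.e (nat_lit 171776) (nat_lit 0) (.e (nat_lit 6374) (nat_lit 337) .nil)))))))) (.g (nat_lit 1) (.e (nat_lit 27515) (nat_lit 0) .nil) .nil)))) 
(.nd (nat_lit 9) 
(.lf (nat_lit 452956) (.g (nat_lit 2699) (.e (nat_lit 2619) (nat_lit 164) (.e (nat_lit 172126) (nat_lit 14) (.e (nat_lit 491540) (nat_lit 3) (.e (nat_lit 98372) (nat_lit 29) (.e (nat_lit 450568) (nat_lit 0) (.e (nat_lit 3978) (nat_lit 239) .nil)))))) (.g (nat_lit 1) (.e (nat_lit 25721) (nat_lit 0) .nil) .nil))) 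
(.lf (nat_lit 453468) (.g (nat_lit 2613) (.e (nat_lit 2629) (nat_lit 164) (.e (nat_lit 172119) (nat_lit 12) (.e (nat_lit 475211) (nat_lit 41) (.e (nat_lit 712752) (nat_lit 29) (.e (nat_lit 442421) (nat_lit 21) (.e (nat_lit 164346) (nat_lit 240) .nil)))))) (.g (nat_lit 1) (.e (nat_lit 29620) (nat_lit 0) .nil) .nil))))) (.nd (nat_lit 8) (.nd (nat_lit 9) 
(.lf (nat_lit 452828) (.g (nat_lit 2021) (.e (nat_lit 2619) (nat_lit 164) (.e (nat_lit 172119) (nat_lit 12) (.e (nat_lit 475210) (nat_lit 41) (.e (nat_lit 712753) (nat_lit 30) (.e (nat_lit 450565) (nat_lit 0) (.e (nat_lit 5548) (nat_lit 306) .nil)))))) (.g (nat_lit 1) (.e (nat_lit 25263) (nat_lit 0) .nil) .nil))) 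
(.lf (nat_lit 453340) (.g (nat_lit 2222) (.e (nat_lit 2628) (nat_lit 164) (.e (nat_lit 172124) (nat_lit 14) (.e (nat_lit 491549) (nat_lit 9) (.e (nat_lit 336434) (nat_lit 30) (.e (nat_lit 450561) (nat_lit 0) .nil))))) (.g (nat_lit 0) (.e (nat_lit 28372) (nat_lit 0) .nil) .nil)))) (.nd (nat_lit 9) 
(.lf (nat_lit 453084) (.g (nat_lit 2842) (.e (nat_lit 2622) (nat_lit 164) (.e (nat_lit 172066) (nat_lit 3) (.e (nat_lit 204869) (nat_lit 29) (.e (nat_lit 360475) (nat_lit 8) (.e (nat_lit 557089) (nat_lit 12) (.e (nat_lit 163843) (nat_lit 0) (.e (nat_lit 6254) (nat_lit 337) .nil))))))) (.g (nat_lit 1) (.e (nat_lit 26279) (nat_lit 0) .nil) .nil))) 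
(.lf (nat_lit 453596) (.g (nat_lit 3309) (.e (nat_lit 2629) (nat_lit 164) (.e (nat_lit 172126) (nat_lit 14) (.e (nat_lit 491549) (nat_lit 9) (.e (nat_lit 336443) (nat_lit 32) (.e (nat_lit 466969) (nat_lit 21) (.e (nat_lit 164345) (nat_lit 240) .nil)))))) (.g (nat_lit 1) (.e (nat_lit 30268) (nat_lit 0) .nil) .nil))))))) (.nd (nat_lit 6) (.nd (nat_lit 7) (.nd (nat_lit 8) (.nd (nat_lit 9) 
(.lf (nat_lit 452668) (.g (nat_lit 3258) (.e (nat_lit 2617) (nat_lit 164) (.e (nat_lit 172126) (nat_lit 14) (.e (nat_lit 491549) (nat_lit 9) (.e (nat_lit 336443) (nat_lit 32) (.e (nat_lit 466969) (nat_lit 21) (.e (nat_lit 164347) (nat_lit 240) .nil)))))) (.g (nat_lit 1) (.e (nat_lit 23920) (nat_lit 0) .nil) .nil))) 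
(.lf (nat_lit 453180) (.g (nat_lit 4897) (.e (nat_lit 2626) (nat_lit 164) (.e (nat_lit 172126) (nat_lit 14) (.e (nat_lit 491540) (nat_lit 3) (.e (nat_lit 98373) (nat_lit 29) (.e (nat_lit 450563) (nat_lit 0) (.e (nat_lit 3966) (nat_lit 239) .nil)))))) (.g (nat_lit 1) (.e (nat_lit 27284) (nat_lit 0) .nil) .nil)))) (.nd (nat_lit 9) 
(.lf (nat_lit 452924) (.g (nat_lit 3666) (.e (nat_lit 2619) (nat_lit 164) (.e (nat_lit 172124) (nat_lit 14) (.e (nat_lit 491549) (nat_lit 9) (.e (nat_lit 336443) (nat_lit 32) (.e (nat_lit 466971) (nat_lit 21) (.e (nat_lit 164347) (nat_lit 240) .nil)))))) (.g (nat_lit 1) (.e (nat_lit 25434) (nat_lit 0) .nil) .nil))) 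
(.lf (nat_lit 453436) (.g (nat_lit 2966) (.e (nat_lit 2629) (nat_lit 164) (.e (nat_lit 172118) (nat_lit 12) (.e (nat_lit 475210) (nat_lit 41) (.e (nat_lit 712752) (nat_lit 29) (.e (nat_lit 442421) (nat_lit 21) (.e (nat_lit 164347) (nat_lit 240) .nil)))))) (.g (nat_lit 1) (.e (nat_lit 29578) (nat_lit 0) .nil) .nil))))) (.nd (nat_lit 8) (.nd (nat_lit 9) 
(.lf (nat_lit 452796) (.g (nat_lit 2419) (.e (nat_lit 2619) (nat_lit 164) (.e (nat_lit 172118) (nat_lit 12) (.e (nat_lit 475198) (nat_lit 40) (.e (nat_lit 704599) (nat_lit 6) (.e (nat_lit 188446) (nat_lit 21) (.e (nat_lit 164348) (nat_lit 240) .nil)))))) (.g (nat_lit 1) (.e (nat_lit 25212) (nat_lit 0) .nil) .nil))) 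
(.lf (nat_lit 453308) (.g (nat_lit 3415) (.e (nat_lit 2628) (nat_lit 164) (.e (nat_lit 172120) (nat_lit 12) (.e (nat_lit 475210) (nat_lit 41) (.e (nat_lit 712755) (nat_lit 30) (.e (nat_lit 450566) (nat_lit 0) (.e (nat_lit 5548) (nat_lit 306) .nil)))))) (.g (nat_lit 1) (.e (nat_lit 28267) (nat_lit 0) .nil) .nil)))) (.nd (nat_lit 9) 
(.lf (nat_lit 453052) (.g (nat_lit 2760) (.e (nat_lit 2621) (nat_lit 164) (.e (nat_lit 172067) (nat_lit 3) (.e (nat_lit 204869) (nat_lit 29) (.e (nat_lit 360475) (nat_lit 8) (.e (nat_lit 557091) (nat_lit 12) .nil))))) (.g (nat_lit 0) (.e (nat_lit 26200) (nat_lit 0) .nil) .nil))) 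
(.lf (nat_lit 453564) (.g (nat_lit 2692) (.e (nat_lit 2629) (nat_lit 164) (.e (nat_lit 172126) (nat_lit 14) (.e (nat_lit 491540) (nat_lit 3) (.e (nat_lit 98373) (nat_lit 29) (.e (nat_lit 450560) (nat_lit 0) (.e (nat_lit 3934) (nat_lit 239) .nil)))))) (.g (nat_lit 1) (.e (nat_lit 30199) (nat_lit 0) .nil) .nil)))))) (.nd (nat_lit 7) (.nd (nat_lit 8) (.nd (nat_lit 9) 
(.lf (nat_lit 452732) (.g (nat_lit 1542) (.e (nat_lit 2618) (nat_lit 164) (.e (nat_lit 172124) (nat_lit 14) (.e (nat_lit 491550) (nat_lit 9) (.e (nat_lit 336432) (nat_lit 30) (.e (nat_lit 450565) (nat_lit 0) (.e (nat_lit 5546) (nat_lit 306) .nil)))))) (.g (nat_lit 1) (.e (nat_lit 24467) (nat_lit 0) .nil) .nil))) 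
(.lf (nat_lit 453244) (.g (nat_lit 4909) (.e (nat_lit 2628) (nat_lit 164) (.e (nat_lit 172067) (nat_lit 3) (.e (nat_lit 204869) (nat_lit 29) (.e (nat_lit 360475) (nat_lit 8) (.e (nat_lit 557091) (nat_lit 12) (.e (nat_lit 163843) (nat_lit 0) (.e (nat_lit 6374) (nat_lit 337) .nil))))))) (.g (nat_lit 1) (.e (nat_lit 27595) (nat_lit 0) .nil) .nil)))) (.nd (nat_lit 9) 
(.lf (nat_lit 452988) (.g (nat_lit 3212) (.e (nat_lit 2619) (nat_lit 164) (.e (nat_lit 172126) (nat_lit 14) (.e (nat_lit 491549) (nat_lit 9) (.e (nat_lit 336443) (nat_lit 32) (.e (nat_lit 466969) (nat_lit 21) (.e (nat_lit 164345) (nat_lit 240) .nil)))))) (.g (nat_lit 1) (.e (nat_lit 25773) (nat_lit 0) .nil) .nil))) 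
(.lf (nat_lit 453500) (.g (nat_lit 2187) (.e (nat_lit 2629) (nat_lit 164) (.e (nat_lit 172120) (nat_lit 12) (.e (nat_lit 475210) (nat_lit 41) (.e (nat_lit 712755) (nat_lit 30) (.e (nat_lit 458496) (nat_lit 0) (.e (nat_lit 5547) (nat_lit 306) .nil)))))) (.g (nat_lit 1) (.e (nat_lit 29676) (nat_lit 0) .nil) .nil))))) (.nd (nat_lit 8) (.nd (nat_lit 9) 
(.lf (nat_lit 452860) (.g (nat_lit 2743) (.e (nat_lit 2619) (nat_lit 164) (.e (nat_lit 172120) (nat_lit 12) (.e (nat_lit 475209) (nat_lit 41) (.e (nat_lit 712752) (nat_lit 29) (.e (nat_lit 442421) (nat_lit 21) (.e (nat_lit 164346) (nat_lit 240) .nil)))))) (.g (nat_lit 1) (.e (nat_lit 25309) (nat_lit 0) .nil) .nil))) 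
(.lf (nat_lit 453372) (.g (nat_lit 2239) (.e (nat_lit 2628) (nat_lit 164) (.e (nat_lit 172126) (nat_lit 14) (.e (nat_lit 491537) (nat_lit 2) (.e (nat_lit 90170) (nat_lit 13) (.e (nat_lit 172113) (nat_lit 10) (.e (nat_lit 434201) (nat_lit 18) (.e (nat_lit 3988) (nat_lit 239) .nil))))))) (.g (nat_lit 1) (.e (nat_lit 28647) (nat_lit 0) .nil) .nil)))) (.nd (nat_lit 9) 
(.lf (nat_lit 453116) (.g (nat_lit 2033) (.e (nat_lit 2624) (nat_lit 164) (.e (nat_lit 172064) (nat_lit 2) (.e (nat_lit 196666) (nat_lit 13) (.e (nat_lit 65617) (nat_lit 10) .nil)))) (.g (nat_lit 0) (.e (nat_lit 26613) (nat_lit 0) .nil) .nil))) 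
(.lf (nat_lit 453628) (.g (nat_lit 3890) (.e (nat_lit 2630) (nat_lit 164) (.e (nat_lit 172062) (nat_lit 2) (.e (nat_lit 196666) (nat_lit 13) (.e (nat_lit 65610) (nat_lit 10) (.e (nat_lit 344129) (nat_lit 26) (.e (nat_lit 557089) (nat_lit 12) (.e (nat_lit 163843) (nat_lit 0) (.e (nat_lit 6254) (nat_lit 337) .nil)))))))) (.g (nat_lit 1) (.e (nat_lit 30541) (nat_lit 0) .nil) .nil))))))))))) 
(.nd (nat_lit 2) (.nd (nat_lit 3) (.nd (nat_lit 4) (.nd (nat_lit 5) (.nd (nat_lit 6) 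
(.nd (nat_lit 7) (.nd (nat_lit 8) (.nd (nat_lit 9) 
(.lf (nat_lit 452610) (.g (nat_lit 3440) (.e (nat_lit 2612) (nat_lit 163) (.e (nat_lit 164403) (nat_lit 256) (.e (nat_lit 57378) (nat_lit 3) (.e (nat_lit 98376) (nat_lit 30) (.e (nat_lit 458789) (nat_lit 23) (.e (nat_lit 532515) (nat_lit 3) (.e (nat_lit 114716) (nat_lit 22) (.e (nat_lit 90130) (nat_lit 9) .nil)))))))) (.g (nat_lit 1) (.e (nat_lit 23294) (nat_lit 0) .nil) .nil))) 
(.lf (nat_lit 453122) (.g (nat_lit 3420) (.e (nat_lit 2625) (nat_lit 164) (.e (nat_lit 172120) (nat_lit 12) (.e (nat_lit 475185) (nat_lit 29) (.e (nat_lit 557109) (nat_lit 15) (.e (nat_lit 188455) (nat_lit 24) .nil))))) (.g (nat_lit 0) (.e (nat_lit 26776) (nat_lit 0) .nil) .nil)))) (.nd (nat_lit 9) 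
(.lf (nat_lit 452866) (.g (nat_lit 3759) (.e (nat_lit 2619) (nat_lit 164) (.e (nat_lit 172120) (nat_lit 12) (.e (nat_lit 475210) (nat_lit 41) (.e (nat_lit 712753) (nat_lit 30) (.e (nat_lit 450564) (nat_lit 0) (.e (nat_lit 5546) (nat_lit 306) .nil)))))) (.g (nat_lit 1) (.e (nat_lit 25323) (nat_lit 0) .nil) .nil))) 
(.lf (nat_lit 453378) (.g (nat_lit 4318) (.e (nat_lit 2628) (nat_lit 164) (.e (nat_lit 172126) (nat_lit 14) (.e (nat_lit 491540) (nat_lit 3) (.e (nat_lit 98373) (nat_lit 29) (.e (nat_lit 450568) (nat_lit 0) (.e (nat_lit 3978) (nat_lit 239) .nil)))))) (.g (nat_lit 1) (.e (nat_lit 28657) (nat_lit 0) .nil) .nil))))) (.nd (nat_lit 8) (.nd (nat_lit 9) 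
(.lf (nat_lit 452738) (.g (nat_lit 2319) (.e (nat_lit 2618) (nat_lit 164) (.e (nat_lit 172124) (nat_lit 14) (.e (nat_lit 491568) (nat_lit 13) (.e (nat_lit 393266) (nat_lit 23) (.e (nat_lit 426109) (nat_lit 1) .nil))))) (.g (nat_lit 0) (.e (nat_lit 24475) (nat_lit 0) .nil) .nil))) 
(.lf (nat_lit 453250) (.g (nat_lit 1523) (.e (nat_lit 2628) (nat_lit 164) (.e (nat_lit 172118) (nat_lit 12) (.e (nat_lit 475198) (nat_lit 40) (.e (nat_lit 704599) (nat_lit 6) (.e (nat_lit 188444) (nat_lit 21) .nil))))) (.g (nat_lit 0) (.e (nat_lit 28161) (nat_lit 0) .nil) .nil)))) (.nd (nat_lit 9) 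
(.lf (nat_lit 452994) (.g (nat_lit 2618) (.e (nat_lit 2619) (nat_lit 164) (.e (nat_lit 172126) (nat_lit 14) (.e (nat_lit 491550) (nat_lit 9) (.e (nat_lit 336430) (nat_lit 29) (.e (nat_lit 442419) (nat_lit 21) (.e (nat_lit 164345) (nat_lit 240) .nil)))))) (.g (nat_lit 1) (.e (nat_lit 25780) (nat_lit 0) .nil) .nil))) 
(.lf (nat_lit 453506) (.g (nat_lit 2300) (.e (nat_lit 2629) (nat_lit 164) (.e (nat_lit 172120) (nat_lit 12) (.e (nat_lit 475211) (nat_lit 41) (.e (nat_lit 712753) (nat_lit 30) (.e (nat_lit 450564) (nat_lit 0) (.e (nat_lit 5546) (nat_lit 306) .nil)))))) (.g (nat_lit 1) (.e (nat_lit 29683) (nat_lit 0) .nil) .nil)))))) (.nd (nat_lit 7) (.nd (nat_lit 8) (.nd (nat_lit 9) 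
(.lf (nat_lit 452674) (.g (nat_lit 3323) (.e (nat_lit 2617) (nat_lit 164) (.e (nat_lit 172126) (nat_lit 14) (.e (nat_lit 491550) (nat_lit 9) (.e (nat_lit 336430) (nat_lit 29) (.e (nat_lit 442421) (nat_lit 21) (.e (nat_lit 164346) (nat_lit 240) .nil)))))) (.g (nat_lit 1) (.e (nat_lit 23929) (nat_lit 0) .nil) .nil))) 
(.lf (nat_lit 453186) (.g (nat_lit 2306) (.e (nat_lit 2628) (nat_lit 164) (.e (nat_lit 172062) (nat_lit 2) (.e (nat_lit 196666) (nat_lit 13) (.e (nat_lit 65617) (nat_lit 10) (.e (nat_lit 344130) (nat_lit 26) .nil))))) (.g (nat_lit 0) (.e (nat_lit 27485) (nat_lit 0) .nil) .nil)))) (.nd (nat_lit 9) 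
(.lf (nat_lit 452930) (.g (nat_lit 2005) (.e (nat_lit 2619) (nat_lit 164) (.e (nat_lit 172124) (nat_lit 14) (.e (nat_lit 491550) (nat_lit 9) (.e (nat_lit 336432) (nat_lit 30) (.e (nat_lit 450565) (nat_lit 0) (.e (nat_lit 5546) (nat_lit 306) .nil)))))) (.g (nat_lit 1) (.e (nat_lit 25443) (nat_lit 0) .nil) .nil))) 
(.lf (nat_lit 453442) (.g (nat_lit 2430) (.e (nat_lit 2629) (nat_lit 164) (.e (nat_lit 172118) (nat_lit 12) (.e (nat_lit 475210) (nat_lit 41) (.e (nat_lit 712755) (nat_lit 30) (.e (nat_lit 450564) (nat_lit 0) (.e (nat_lit 5548) (nat_lit 306) .nil)))))) (.g (nat_lit 1) (.e (nat_lit 29584) (nat_lit 0) .nil) .nil))))) (.nd (nat_lit 8) (.nd (nat_lit 9) 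
(.lf (nat_lit 452802) (.g (nat_lit 3208) (.e (nat_lit 2619) (nat_lit 164) (.e (nat_lit 172118) (nat_lit 12) (.e (nat_lit 475210) (nat_lit 41) (.e (nat_lit 712753) (nat_lit 30) (.e (nat_lit 450561) (nat_lit 0) (.e (nat_lit 5537) (nat_lit 306) .nil)))))) (.g (nat_lit 1) (.e (nat_lit 25228) (nat_lit 0) .nil) .nil))) 
(.lf (nat_lit 453314) (.g (nat_lit 3483) (.e (nat_lit 2628) (nat_lit 164) (.e (nat_lit 172120) (nat_lit 12) (.e (nat_lit 475211) (nat_lit 41) (.e (nat_lit 712752) (nat_lit 29) (.e (nat_lit 442421) (nat_lit 21) (.e (nat_lit 164345) (nat_lit 240) .nil)))))) (.g (nat_lit 1) (.e (nat_lit 28276) (nat_lit 0) .nil) .nil)))) (.nd (nat_lit 9) 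
(.lf (nat_lit 453058) (.g (nat_lit 1844) (.e (nat_lit 2621) (nat_lit 164) (.e (nat_lit 172120) (nat_lit 12) (.e (nat_lit 475198) (nat_lit 40) (.e (nat_lit 704598) (nat_lit 6) (.e (nat_lit 188453) (nat_lit 24) (.e (nat_lit 229665) (nat_lit 240) .nil)))))) (.g (nat_lit 1) (.e (nat_lit 26208) (nat_lit 0) .nil) .nil))) 
(.lf (nat_lit 453570) (.g (nat_lit 1633) (.e (nat_lit 2629) (nat_lit 164) (.e (nat_lit 172126) (nat_lit 14) (.e (nat_lit 491547) (nat_lit 9) (.e (nat_lit 336432) (nat_lit 30) (.e (nat_lit 458496) (nat_lit 0) .nil))))) (.g (nat_lit 0) (.e (nat_lit 30205) (nat_lit 0) .nil) .nil))))))) (.nd (nat_lit 6) (.nd (nat_lit 7) (.nd (nat_lit 8) (.nd (nat_lit 9) 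
(.lf (nat_lit 452642) (.g (nat_lit 674) (.e (nat_lit 2617) (nat_lit 164) (.e (nat_lit 172124) (nat_lit 14) (.e (nat_lit 491550) (nat_lit 9) .nil))) (.g (nat_lit 0) (.e (nat_lit 23811) (nat_lit 0) .nil) .nil))) 
(.lf (nat_lit 453154) (.g (nat_lit 4861) (.e (nat_lit 2625) (nat_lit 164) (.e (nat_lit 172126) (nat_lit 14) (.e (nat_lit 491540) (nat_lit 3) (.e (nat_lit 98373) (nat_lit 29) (.e (nat_lit 450563) (nat_lit 0) (.e (nat_lit 3966) (nat_lit 239) .nil)))))) (.g (nat_lit 1) (.e (nat_lit 26984) (nat_lit 0) .nil) .nil)))) (.nd (nat_lit 9) 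
(.lf (nat_lit 452898) (.g (nat_lit 2308) (.e (nat_lit 2619) (nat_lit 164) (.e (nat_lit 172120) (nat_lit 12) (.e (nat_lit 475211) (nat_lit 41) (.e (nat_lit 712755) (nat_lit 30) (.e (nat_lit 450566) (nat_lit 0) .nil))))) (.g (nat_lit 0) (.e (nat_lit 25357) (nat_lit 0) .nil) .nil))) 
(.lf (nat_lit 453410) (.g (nat_lit 3125) (.e (nat_lit 2628) (nat_lit 164) (.e (nat_lit 172126) (nat_lit 14) (.e (nat_lit 491550) (nat_lit 9) (.e (nat_lit 336430) (nat_lit 29) (.e (nat_lit 442421) (nat_lit 21) (.e (nat_lit 164345) (nat_lit 240) .nil)))))) (.g (nat_lit 1) (.e (nat_lit 28722) (nat_lit 0) .nil) .nil))))) (.nd (nat_lit 8) (.nd (nat_lit 9) 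
(.lf (nat_lit 452770) (.g (nat_lit 3289) (.e (nat_lit 2619) (nat_lit 164) (.e (nat_lit 172062) (nat_lit 2) (.e (nat_lit 196666) (nat_lit 13) (.e (nat_lit 65610) (nat_lit 10) (.e (nat_lit 344117) (nat_lit 21) (.e (nat_lit 516099) (nat_lit 0) (.e (nat_lit 7936) (nat_lit 157) (.e (nat_lit 4507) (nat_lit 263) .nil)))))))) (.g (nat_lit 1) (.e (nat_lit 24742) (nat_lit 0) .nil) .nil))) 
(.lf (nat_lit 453282) (.g (nat_lit 3219) (.e (nat_lit 2628) (nat_lit 164) (.e (nat_lit 172118) (nat_lit 12) (.e (nat_lit 475211) (nat_lit 41) (.e (nat_lit 712755) (nat_lit 30) (.e (nat_lit 450566) (nat_lit 0) (.e (nat_lit 5548) (nat_lit 306) .nil)))))) (.g (nat_lit 1) (.e (nat_lit 28210) (nat_lit 0) .nil) .nil)))) (.nd (nat_lit 9) 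
(.lf (nat_lit 453026) (.g (nat_lit 2989) (.e (nat_lit 2620) (nat_lit 164) (.e (nat_lit 172066) (nat_lit 3) (.e (nat_lit 204869) (nat_lit 29) (.e (nat_lit 360475) (nat_lit 8) (.e (nat_lit 557089) (nat_lit 12) (.e (nat_lit 163844) (nat_lit 0) (.e (nat_lit 6255) (nat_lit 337) .nil))))))) (.g (nat_lit 1) (.e (nat_lit 25996) (nat_lit 0) .nil) .nil))) 
(.lf (nat_lit 453538) (.g (nat_lit 3637) (.e (nat_lit 2629) (nat_lit 164) (.e (nat_lit 172124) (nat_lit 14) (.e (nat_lit 491549) (nat_lit 9) (.e (nat_lit 336443) (nat_lit 32) (.e (nat_lit 466969) (nat_lit 21) (.e (nat_lit 164345) (nat_lit 240) .nil)))))) (.g (nat_lit 1) (.e (nat_lit 29758) (nat_lit 0) .nil) .nil)))))) (.nd (nat_lit 7) (.nd (nat_lit 8) (.nd (nat_lit 9) 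
(.lf (nat_lit 452706) (.g (nat_lit 2411) (.e (nat_lit 2618) (nat_lit 164) (.e (nat_lit 172120) (nat_lit 12) (.e (nat_lit 475198) (nat_lit 40) (.e (nat_lit 704598) (nat_lit 6) (.e (nat_lit 188446) (nat_lit 21) (.e (nat_lit 164345) (nat_lit 240) .nil)))))) (.g (nat_lit 1) (.e (nat_lit 24416) (nat_lit 0) .nil) .nil))) 
(.lf (nat_lit 453218) (.g (nat_lit 3713) (.e (nat_lit 2628) (nat_lit 164) (.e (nat_lit 172065) (nat_lit 3) (.e (nat_lit 204869) (nat_lit 29) (.e (nat_lit 360475) (nat_lit 8) (.e (nat_lit 557091) (nat_lit 12) (.e (nat_lit 163841) (nat_lit 0) (.e (nat_lit 6374) (nat_lit 337) .nil))))))) (.g (nat_lit 1) (.e (nat_lit 27541) (nat_lit 0) .nil) .nil)))) (.nd (nat_lit 9) 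
(.lf (nat_lit 452962) (.g (nat_lit 3373) (.e (nat_lit 2619) (nat_lit 164) (.e (nat_lit 172126) (nat_lit 14) (.e (nat_lit 491547) (nat_lit 9) (.e (nat_lit 336443) (nat_lit 32) (.e (nat_lit 466969) (nat_lit 21) (.e (nat_lit 164348) (nat_lit 240) .nil)))))) (.g (nat_lit 1) (.e (nat_lit 25727) (nat_lit 0) .nil) .nil))) 
(.lf (nat_lit 453474) (.g (nat_lit 2287) (.e (nat_lit 2629) (nat_lit 164) (.e (nat_lit 172119) (nat_lit 12) (.e (nat_lit 475211) (nat_lit 41) (.e (nat_lit 712755) (nat_lit 30) (.e (nat_lit 450565) (nat_lit 0) (.e (nat_lit 5548) (nat_lit 306) .nil)))))) (.g (nat_lit 1) (.e (nat_lit 29626) (nat_lit 0) .nil) .nil))))) (.nd (nat_lit 8) (.nd (nat_lit 9) 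
(.lf (nat_lit 452834) (.g (nat_lit 3053) (.e (nat_lit 2619) (nat_lit 164) (.e (nat_lit 172119) (nat_lit 12) (.e (nat_lit 475211) (nat_lit 41) (.e (nat_lit 712753) (nat_lit 30) (.e (nat_lit 450565) (nat_lit 0) (.e (nat_lit 5548) (nat_lit 306) .nil)))))) (.g (nat_lit 1) (.e (nat_lit 25270) (nat_lit 0) .nil) .nil))) 
(.lf (nat_lit 453346) (.g (nat_lit 2916) (.e (nat_lit 2628) (nat_lit 164) (.e (nat_lit 172124) (nat_lit 14) (.e (nat_lit 491549) (nat_lit 9) (.e (nat_lit 336443) (nat_lit 32) (.e (nat_lit 466969) (nat_lit 21) (.e (nat_lit 164347) (nat_lit 240) .nil)))))) (.g (nat_lit 1) (.e (nat_lit 28378) (nat_lit 0) .nil) .nil)))) (.nd (nat_lit 9) 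
(.lf (nat_lit 453090) (.g (nat_lit 2850) (.e (nat_lit 2622) (nat_lit 164) (.e (nat_lit 172066) (nat_lit 3) (.e (nat_lit 204869) (nat_lit 29) (.e (nat_lit 360475) (nat_lit 8) (.e (nat_lit 557091) (nat_lit 12) (.e (nat_lit 163847) (nat_lit 0) (.e (nat_lit 6252) (nat_lit 337) .nil))))))) (.g (nat_lit 1) (.e (nat_lit 26285) (nat_lit 0) .nil) .nil))) 
(.lf (nat_lit 453602) (.g (nat_lit 2769) (.e (nat_lit 2629) (nat_lit 164) (.e (nat_lit 172126) (nat_lit 14) (.e (nat_lit 491550) (nat_lit 9) (.e (nat_lit 336430) (nat_lit 29) (.e (nat_lit 442419) (nat_lit 21) (.e (nat_lit 164345) (nat_lit 240) .nil)))))) (.g (nat_lit 1) (.e (nat_lit 30276) (nat_lit 0) .nil) .nil)))))))) 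
(.nd (nat_lit 5) (.nd (nat_lit 6) (.nd (nat_lit 7) (.nd (nat_lit 8) (.nd (nat_lit 9) 
(.lf (nat_lit 452626) (.g (nat_lit 1145) (.e (nat_lit 2616) (nat_lit 164) (.e (nat_lit 172126) (nat_lit 14) (.e (nat_lit 491540) (nat_lit 3) (.e (nat_lit 98373) (nat_lit 29) .nil)))) (.g (nat_lit 0) (.e (nat_lit 23570) (nat_lit 0) .nil) .nil))) 
(.lf (nat_lit 453138) (.g (nat_lit 609) (.e (nat_lit 2625) (nat_lit 164) (.e (nat_lit 172124) (nat_lit 14) (.e (nat_lit 491540) (nat_lit 3) .nil))) (.g (nat_lit 0) (.e (nat_lit 26886) (nat_lit 0) .nil) .nil)))) (.nd (nat_lit 9) 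
(.lf (nat_lit 452882) (.g (nat_lit 3535) (.e (nat_lit 2619) (nat_lit 164) (.e (nat_lit 172120) (nat_lit 12) (.e (nat_lit 475211) (nat_lit 41) (.e (nat_lit 712750) (nat_lit 29) (.e (nat_lit 442421) (nat_lit 21) (.e (nat_lit 164347) (nat_lit 240) .nil)))))) (.g (nat_lit 1) (.e (nat_lit 25341) (nat_lit 0) .nil) .nil))) 
(.lf (nat_lit 453394) (.g (nat_lit 3211) (.e (nat_lit 2628) (nat_lit 164) (.e (nat_lit 172126) (nat_lit 14) (.e (nat_lit 491549) (nat_lit 9) (.e (nat_lit 336430) (nat_lit 29) (.e (nat_lit 442421) (nat_lit 21) (.e (nat_lit 164346) (nat_lit 240) .nil)))))) (.g (nat_lit 1) (.e (nat_lit 28704) (nat_lit 0) .nil) .nil))))) (.nd (nat_lit 8) (.nd (nat_lit 9) 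
(.lf (nat_lit 452754) (.g (nat_lit 2620) (.e (nat_lit 2618) (nat_lit 164) (.e (nat_lit 172126) (nat_lit 14) (.e (nat_lit 491549) (nat_lit 9) (.e (nat_lit 336432) (nat_lit 30) (.e (nat_lit 458496) (nat_lit 0) .nil))))) (.g (nat_lit 0) (.e (nat_lit 24646) (nat_lit 0) .nil) .nil))) 
(.lf (nat_lit 453266) (.g (nat_lit 1754) (.e (nat_lit 2628) (nat_lit 164) (.e (nat_lit 172118) (nat_lit 12) (.e (nat_lit 475210) (nat_lit 41) (.e (nat_lit 712755) (nat_lit 30) (.e (nat_lit 458496) (nat_lit 0) .nil))))) (.g (nat_lit 0) (.e (nat_lit 28191) (nat_lit 0) .nil) .nil)))) (.nd (nat_lit 9) 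
(.lf (nat_lit 453010) (.g (nat_lit 1989) (.e (nat_lit 2619) (nat_lit 164) (.e (nat_lit 172126) (nat_lit 14) (.e (nat_lit 491568) (nat_lit 13) (.e (nat_lit 393282) (nat_lit 24) (.e (nat_lit 434209) (nat_lit 18) (.e (nat_lit 5548) (nat_lit 306) .nil)))))) (.g (nat_lit 1) (.e (nat_lit 25799) (nat_lit 0) .nil) .nil))) 
(.lf (nat_lit 453522) (.g (nat_lit 2087) (.e (nat_lit 2629) (nat_lit 164) (.e (nat_lit 172124) (nat_lit 14) (.e (nat_lit 491547) (nat_lit 9) (.e (nat_lit 336443) (nat_lit 32) (.e (nat_lit 466971) (nat_lit 21) (.e (nat_lit 164347) (nat_lit 240) .nil)))))) (.g (nat_lit 1) (.e (nat_lit 29718) (nat_lit 0) .nil) .nil)))))) (.nd (nat_lit 7) (.nd (nat_lit 8) (.nd (nat_lit 9) 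
(.lf (nat_lit 452690) (.g (nat_lit 3403) (.e (nat_lit 2618) (nat_lit 164) (.e (nat_lit 172118) (nat_lit 12) (.e (nat_lit 475210) (nat_lit 41) (.e (nat_lit 712752) (nat_lit 29) (.e (nat_lit 442421) (nat_lit 21) (.e (nat_lit 164345) (nat_lit 240) .nil)))))) (.g (nat_lit 1) (.e (nat_lit 24385) (nat_lit 0) .nil) .nil))) 
(.lf (nat_lit 453202) (.g (nat_lit 2773) (.e (nat_lit 2628) (nat_lit 164) (.e (nat_lit 172062) (nat_lit 2) (.e (nat_lit 196666) (nat_lit 13) (.e (nat_lit 65617) (nat_lit 10) (.e (nat_lit 344133) (nat_lit 26) (.e (nat_lit 557091) (nat_lit 12) (.e (nat_lit 171776) (nat_lit 0) (.e (nat_lit 6374) (nat_lit 337) .nil)))))))) (.g (nat_lit 1) (.e (nat_lit 27501) (nat_lit 0) .nil) .nil)))) 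
(.nd (nat_lit 9) 
(.lf (nat_lit 452946) (.g (nat_lit 2325) (.e (nat_lit 2619) (nat_lit 164) (.e (nat_lit 172124) (nat_lit 14) (.e (nat_lit 491568) (nat_lit 13) (.e (nat_lit 393283) (nat_lit 24) (.e (nat_lit 434209) (nat_lit 18) (.e (nat_lit 5547) (nat_lit 306) .nil)))))) (.g (nat_lit 1) (.e (nat_lit 25462) (nat_lit 0) .nil) .nil))) 
(.lf (nat_lit 453458) (.g (nat_lit 2182) (.e (nat_lit 2629) (nat_lit 164) (.e (nat_lit 172118) (nat_lit 12) (.e (nat_lit 475211) (nat_lit 41) (.e (nat_lit 712755) (nat_lit 30) (.e (nat_lit 450566) (nat_lit 0) (.e (nat_lit 5548) (nat_lit 306) .nil)))))) (.g (nat_lit 1) (.e (nat_lit 29600) (nat_lit 0) .nil) .nil))))) (.nd (nat_lit 8) (.nd (nat_lit 9) 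
(.lf (nat_lit 452818) (.g (nat_lit 1602) (.e (nat_lit 2619) (nat_lit 164) (.e (nat_lit 172118) (nat_lit 12) (.e (nat_lit 475211) (nat_lit 41) (.e (nat_lit 712753) (nat_lit 30) (.e (nat_lit 458496) (nat_lit 0) (.e (nat_lit 5548) (nat_lit 306) .nil)))))) (.g (nat_lit 1) (.e (nat_lit 25248) (nat_lit 0) .nil) .nil))) 
(.lf (nat_lit 453330) (.g (nat_lit 2609) (.e (nat_lit 2628) (nat_lit 164) (.e (nat_lit 172124) (nat_lit 14) (.e (nat_lit 491549) (nat_lit 9) (.e (nat_lit 336426) (nat_lit 29) (.e (nat_lit 442421) (nat_lit 21) (.e (nat_lit 164347) (nat_lit 240) .nil)))))) (.g (nat_lit 1) (.e (nat_lit 28362) (nat_lit 0) .nil) .nil)))) (.nd (nat_lit 9) 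
(.lf (nat_lit 453074) (.g (nat_lit 2391) (.e (nat_lit 2622) (nat_lit 164) (.e (nat_lit 172062) (nat_lit 2) (.e (nat_lit 196666) (nat_lit 13) (.e (nat_lit 65617) (nat_lit 10) (.e (nat_lit 344133) (nat_lit 26) (.e (nat_lit 557089) (nat_lit 12) (.e (nat_lit 163844) (nat_lit 0) (.e (nat_lit 6255) (nat_lit 337) .nil)))))))) (.g (nat_lit 1) (.e (nat_lit 26269) (nat_lit 0) .nil) .nil))) 
(.lf (nat_lit 453586) (.g (nat_lit 3250) (.e (nat_lit 2629) (nat_lit 164) (.e (nat_lit 172126) (nat_lit 14) (.e (nat_lit 491549) (nat_lit 9) (.e (nat_lit 336430) (nat_lit 29) (.e (nat_lit 442421) (nat_lit 21) (.e (nat_lit 164347) (nat_lit 240) .nil)))))) (.g (nat_lit 1) (.e (nat_lit 30257) (nat_lit 0) .nil) .nil))))))) (.nd (nat_lit 6) (.nd (nat_lit 7) (.nd (nat_lit 8) (.nd (nat_lit 9) 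
(.lf (nat_lit 452658) (.g (nat_lit 2712) (.e (nat_lit 2617) (nat_lit 164) (.e (nat_lit 172126) (nat_lit 14) (.e (nat_lit 491549) (nat_lit 9) (.e (nat_lit 336430) (nat_lit 29) (.e (nat_lit 442421) (nat_lit 21) (.e (nat_lit 164345) (nat_lit 240) .nil)))))) (.g (nat_lit 1) (.e (nat_lit 23910) (nat_lit 0) .nil) .nil))) 
(.lf (nat_lit 453170) (.g (nat_lit 2577) (.e (nat_lit 2626) (nat_lit 164) (.e (nat_lit 172126) (nat_lit 14) (.e (nat_lit 491539) (nat_lit 3) (.e (nat_lit 98373) (nat_lit 29) (.e (nat_lit 450562) (nat_lit 0) .nil))))) (.g (nat_lit 0) (.e (nat_lit 27269) (nat_lit 0) .nil) .nil)))) (.nd (nat_lit 9) 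
(.lf (nat_lit 452914) (.g (nat_lit 3791) (.e (nat_lit 2619) (nat_lit 164) (.e (nat_lit 172124) (nat_lit 14) (.e (nat_lit 491549) (nat_lit 9) (.e (nat_lit 336432) (nat_lit 30) (.e (nat_lit 450565) (nat_lit 0) (.e (nat_lit 5548) (nat_lit 306) .nil)))))) (.g (nat_lit 1) (.e (nat_lit 25424) (nat_lit 0) .nil) .nil))) 
(.lf (nat_lit 453426) (.g (nat_lit 2262) (.e (nat_lit 2628) (nat_lit 164) (.e (nat_lit 172126) (nat_lit 14) (.e (nat_lit 491568) (nat_lit 13) (.e (nat_lit 393283) (nat_lit 24) (.e (nat_lit 434209) (nat_lit 18) (.e (nat_lit 5547) (nat_lit 306) .nil)))))) (.g (nat_lit 1) (.e (nat_lit 28748) (nat_lit 0) .nil) .nil))))) (.nd (nat_lit 8) (.nd (nat_lit 9) 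
(.lf (nat_lit 452786) (.g (nat_lit 2618) (.e (nat_lit 2619) (nat_lit 164) (.e (nat_lit 172097) (nat_lit 9) (.e (nat_lit 426025) (nat_lit 0) (.e (nat_lit 3397) (nat_lit 211) (.e (nat_lit 647183) (nat_lit 4) (.e (nat_lit 172115) (nat_lit 10) (.e (nat_lit 434209) (nat_lit 18) (.e (nat_lit 5547) (nat_lit 306) .nil)))))))) (.g (nat_lit 1) (.e (nat_lit 24890) (nat_lit 0) .nil) .nil))) 
(.lf (nat_lit 453298) (.g (nat_lit 2988) (.e (nat_lit 2628) (nat_lit 164) (.e (nat_lit 172120) (nat_lit 12) (.e (nat_lit 475209) (nat_lit 41) (.e (nat_lit 712752) (nat_lit 29) (.e (nat_lit 442421) (nat_lit 21) (.e (nat_lit 164347) (nat_lit 240) .nil)))))) (.g (nat_lit 1) (.e (nat_lit 28251) (nat_lit 0) .nil) .nil)))) (.nd (nat_lit 9) 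
(.lf (nat_lit 453042) (.g (nat_lit 2841) (.e (nat_lit 2621) (nat_lit 164) (.e (nat_lit 172064) (nat_lit 2) (.e (nat_lit 196666) (nat_lit 13) (.e (nat_lit 65617) (nat_lit 10) (.e (nat_lit 344133) (nat_lit 26) (.e (nat_lit 557091) (nat_lit 12) (.e (nat_lit 163843) (nat_lit 0) (.e (nat_lit 6255) (nat_lit 337) .nil)))))))) (.g (nat_lit 1) (.e (nat_lit 26171) (nat_lit 0) .nil) .nil))) 
(.lf (nat_lit 453554) (.g (nat_lit 3607) (.e (nat_lit 2629) (nat_lit 164) (.e (nat_lit 172124) (nat_lit 14) (.e (nat_lit 491550) (nat_lit 9) (.e (nat_lit 336443) (nat_lit 32) (.e (nat_lit 466969) (nat_lit 21) (.e (nat_lit 164345) (nat_lit 240) .nil)))))) (.g (nat_lit 1) (.e (nat_lit 29777) (nat_lit 0) .nil) .nil)))))) (.nd (nat_lit 7) (.nd (nat_lit 8) (.nd (nat_lit 9) 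
(.lf (nat_lit 452722) (.g (nat_lit 3124) (.e (nat_lit 2618) (nat_lit 164) (.e (nat_lit 172124) (nat_lit 14) (.e (nat_lit 491549) (nat_lit 9) (.e (nat_lit 336430) (nat_lit 29) (.e (nat_lit 442421) (nat_lit 21) (.e (nat_lit 164346) (nat_lit 240) .nil)))))) (.g (nat_lit 1) (.e (nat_lit 24456) (nat_lit 0) .nil) .nil))) 
(.lf (nat_lit 453234) (.g (nat_lit 2938) (.e (nat_lit 2628) (nat_lit 164) (.e (nat_lit 172067) (nat_lit 3) (.e (nat_lit 204869) (nat_lit 29) (.e (nat_lit 360474) (nat_lit 8) (.e (nat_lit 557093) (nat_lit 12) (.e (nat_lit 171776) (nat_lit 0) (.e (nat_lit 6374) (nat_lit 337) .nil))))))) (.g (nat_lit 1) (.e (nat_lit 27585) (nat_lit 0) .nil) .nil)))) (.nd (nat_lit 9) 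
(.lf (nat_lit 452978) (.g (nat_lit 2324) (.e (nat_lit 2619) (nat_lit 164) (.e (nat_lit 172126) (nat_lit 14) (.e (nat_lit 491549) (nat_lit 9) (.e (nat_lit 336432) (nat_lit 30) (.e (nat_lit 450564) (nat_lit 0) .nil))))) (.g (nat_lit 0) (.e (nat_lit 25763) (nat_lit 0) .nil) .nil))) 
(.lf (nat_lit 453490) (.g (nat_lit 3395) (.e (nat_lit 2629) (nat_lit 164) (.e (nat_lit 172120) (nat_lit 12) (.e (nat_lit 475210) (nat_lit 41) (.e (nat_lit 712753) (nat_lit 30) (.e (nat_lit 450561) (nat_lit 0) (.e (nat_lit 5537) (nat_lit 306) .nil)))))) (.g (nat_lit 1) (.e (nat_lit 29664) (nat_lit 0) .nil) .nil))))) (.nd (nat_lit 8) (.nd (nat_lit 9) 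
(.lf (nat_lit 452850) (.g (nat_lit 1928) (.e (nat_lit 2619) (nat_lit 164) (.e (nat_lit 172120) (nat_lit 12) (.e (nat_lit 475198) (nat_lit 40) (.e (nat_lit 704599) (nat_lit 6) (.e (nat_lit 188444) (nat_lit 21) (.e (nat_lit 164348) (nat_lit 240) .nil)))))) (.g (nat_lit 1) (.e (nat_lit 25291) (nat_lit 0) .nil) .nil))) 
(.lf (nat_lit 453362) (.g (nat_lit 3209) (.e (nat_lit 2628) (nat_lit 164) (.e (nat_lit 172124) (nat_lit 14) (.e (nat_lit 491550) (nat_lit 9) (.e (nat_lit 336443) (nat_lit 32) (.e (nat_lit 466969) (nat_lit 21) (.e (nat_lit 164345) (nat_lit 240) .nil)))))) (.g (nat_lit 1) (.e (nat_lit 28395) (nat_lit 0) .nil) .nil)))) (.nd (nat_lit 9) 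
(.lf (nat_lit 453106) (.g (nat_lit 1515) (.e (nat_lit 2622) (nat_lit 164) (.e (nat_lit 172124) (nat_lit 14) (.e (nat_lit 491550) (nat_lit 9) (.e (nat_lit 336430) (nat_lit 29) .nil)))) (.g (nat_lit 0) (.e (nat_lit 26373) (nat_lit 0) .nil) .nil))) 
(.lf (nat_lit 453618) (.g (nat_lit 3254) (.e (nat_lit 2629) (nat_lit 164) (.e (nat_lit 172126) (nat_lit 14) (.e (nat_lit 491550) (nat_lit 9) (.e (nat_lit 336443) (nat_lit 32) (.e (nat_lit 466971) (nat_lit 21) (.e (nat_lit 164345) (nat_lit 240) .nil)))))) (.g (nat_lit 1) (.e (nat_lit 30293) (nat_lit 0) .nil) .nil))))))))) 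
(.nd (nat_lit 4) (.nd (nat_lit 5) (.nd (nat_lit 6) (.nd (nat_lit 7) (.nd (nat_lit 8) 
(.nd (nat_lit 9) 
(.lf (nat_lit 452618) (.g (nat_lit 2342) (.e (nat_lit 7936) (nat_lit 163) (.e (nat_lit 164399) (nat_lit 256) (.e (nat_lit 57378) (nat_lit 3) (.e (nat_lit 98368) (nat_lit 27) (.e (nat_lit 434245) (nat_lit 28) .nil))))) (.g (nat_lit 0) (.e (nat_lit 23475) (nat_lit 0) .nil) .nil))) 
(.lf (nat_lit 453130) (.g (nat_lit 2360) (.e (nat_lit 2625) (nat_lit 164) (.e (nat_lit 172120) (nat_lit 12) (.e (nat_lit 475211) (nat_lit 41) (.e (nat_lit 712755) (nat_lit 30) (.e (nat_lit 450560) (nat_lit 0) .nil))))) (.g (nat_lit 0) (.e (nat_lit 26841) (nat_lit 0) .nil) .nil)))) (.nd (nat_lit 9) 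
(.lf (nat_lit 452874) (.g (nat_lit 2697) (.e (nat_lit 2619) (nat_lit 164) (.e (nat_lit 172120) (nat_lit 12) (.e (nat_lit 475210) (nat_lit 41) (.e (nat_lit 712755) (nat_lit 30) (.e (nat_lit 450564) (nat_lit 0) (.e (nat_lit 5547) (nat_lit 306) .nil)))))) (.g (nat_lit 1) (.e (nat_lit 25332) (nat_lit 0) .nil) .nil))) 
(.lf (nat_lit 453386) (.g (nat_lit 3389) (.e (nat_lit 2628) (nat_lit 164) (.e (nat_lit 172126) (nat_lit 14) (.e (nat_lit 491547) (nat_lit 9) (.e (nat_lit 336443) (nat_lit 32) (.e (nat_lit 466971) (nat_lit 21) (.e (nat_lit 164347) (nat_lit 240) .nil)))))) (.g (nat_lit 1) (.e (nat_lit 28666) (nat_lit 0) .nil) .nil))))) (.nd (nat_lit 8) (.nd (nat_lit 9) 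
(.lf (nat_lit 452746) (.g (nat_lit 1664) (.e (nat_lit 2618) (nat_lit 164) (.e (nat_lit 172126) (nat_lit 14) (.e (nat_lit 491547) (nat_lit 9) (.e (nat_lit 336443) (nat_lit 32) .nil)))) (.g (nat_lit 0) (.e (nat_lit 24634) (nat_lit 0) .nil) .nil))) 
(.lf (nat_lit 453258) (.g (nat_lit 3757) (.e (nat_lit 2628) (nat_lit 164) (.e (nat_lit 172118) (nat_lit 12) (.e (nat_lit 475210) (nat_lit 41) (.e (nat_lit 712753) (nat_lit 30) (.e (nat_lit 450561) (nat_lit 0) (.e (nat_lit 5537) (nat_lit 306) .nil)))))) (.g (nat_lit 1) (.e (nat_lit 28183) (nat_lit 0) .nil) .nil)))) (.nd (nat_lit 9) 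
(.lf (nat_lit 453002) (.g (nat_lit 3337) (.e (nat_lit 2619) (nat_lit 164) (.e (nat_lit 172126) (nat_lit 14) (.e (nat_lit 491550) (nat_lit 9) (.e (nat_lit 336443) (nat_lit 32) (.e (nat_lit 466969) (nat_lit 21) (.e (nat_lit 164345) (nat_lit 240) .nil)))))) (.g (nat_lit 1) (.e (nat_lit 25788) (nat_lit 0) .nil) .nil))) 
(.lf (nat_lit 453514) (.g (nat_lit 2216) (.e (nat_lit 2629) (nat_lit 164) (.e (nat_lit 172120) (nat_lit 12) (.e (nat_lit 475211) (nat_lit 41) (.e (nat_lit 712755) (nat_lit 30) (.e (nat_lit 458496) (nat_lit 0) .nil))))) (.g (nat_lit 0) (.e (nat_lit 29691) (nat_lit 0) .nil) .nil)))))) (.nd (nat_lit 7) (.nd (nat_lit 8) (.nd (nat_lit 9) 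
(.lf (nat_lit 452682) (.g (nat_lit 3437) (.e (nat_lit 2617) (nat_lit 164) (.e (nat_lit 172127) (nat_lit 15) (.e (nat_lit 6724) (nat_lit 362) (.e (nat_lit 180243) (nat_lit 5) (.e (nat_lit 532579) (nat_lit 26) (.e (nat_lit 426107) (nat_lit 1) (.e (nat_lit 164347) (nat_lit 240) .nil))))))) (.g (nat_lit 1) (.e (nat_lit 24144) (nat_lit 0) .nil) .nil))) 
(.lf (nat_lit 453194) (.g (nat_lit 2448) (.e (nat_lit 2628) (nat_lit 164) (.e (nat_lit 172062) (nat_lit 2) (.e (nat_lit 196666) (nat_lit 13) (.e (nat_lit 65617) (nat_lit 10) (.e (nat_lit 344132) (nat_lit 26) (.e (nat_lit 557093) (nat_lit 12) (.e (nat_lit 171776) (nat_lit 0) (.e (nat_lit 6374) (nat_lit 337) .nil)))))))) (.g (nat_lit 1) (.e (nat_lit 27493) (nat_lit 0) .nil) .nil)))) 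
(.nd (nat_lit 9) 
(.lf (nat_lit 452938) (.g (nat_lit 2483) (.e (nat_lit 2619) (nat_lit 164) (.e (nat_lit 172124) (nat_lit 14) (.e (nat_lit 491550) (nat_lit 9) (.e (nat_lit 336443) (nat_lit 32) (.e (nat_lit 466971) (nat_lit 21) (.e (nat_lit 164346) (nat_lit 240) .nil)))))) (.g (nat_lit 1) (.e (nat_lit 25451) (nat_lit 0) .nil) .nil))) 
(.lf (nat_lit 453450) (.g (nat_lit 2712) (.e (nat_lit 2629) (nat_lit 164) (.e (nat_lit 172118) (nat_lit 12) (.e (nat_lit 475211) (nat_lit 41) (.e (nat_lit 712752) (nat_lit 29) (.e (nat_lit 442421) (nat_lit 21) (.e (nat_lit 164347) (nat_lit 240) .nil)))))) (.g (nat_lit 1) (.e (nat_lit 29592) (nat_lit 0) .nil) .nil))))) (.nd (nat_lit 8) (.nd (nat_lit 9) 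
(.lf (nat_lit 452810) (.g (nat_lit 2159) (.e (nat_lit 2619) (nat_lit 164) (.e (nat_lit 172118) (nat_lit 12) (.e (nat_lit 475211) (nat_lit 41) (.e (nat_lit 712750) (nat_lit 29) (.e (nat_lit 442421) (nat_lit 21) (.e (nat_lit 164345) (nat_lit 240) .nil)))))) (.g (nat_lit 1) (.e (nat_lit 25239) (nat_lit 0) .nil) .nil))) 
(.lf (nat_lit 453322) (.g (nat_lit 2237) (.e (nat_lit 2628) (nat_lit 164) (.e (nat_lit 172120) (nat_lit 12) (.e (nat_lit 475211) (nat_lit 41) (.e (nat_lit 712755) (nat_lit 30) (.e (nat_lit 450566) (nat_lit 0) .nil))))) (.g (nat_lit 0) (.e (nat_lit 28284) (nat_lit 0) .nil) .nil)))) (.nd (nat_lit 9) 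
(.lf (nat_lit 453066) (.g (nat_lit 1539) (.e (nat_lit 2621) (nat_lit 164) (.e (nat_lit 172120) (nat_lit 12) (.e (nat_lit 475211) (nat_lit 41) (.e (nat_lit 712753) (nat_lit 30) .nil)))) (.g (nat_lit 0) (.e (nat_lit 26231) (nat_lit 0) .nil) .nil))) 
(.lf (nat_lit 453578) (.g (nat_lit 419) (.e (nat_lit 2629) (nat_lit 164) (.e (nat_lit 172126) (nat_lit 14) (.e (nat_lit 491549) (nat_lit 9) .nil))) (.g (nat_lit 0) (.e (nat_lit 30239) (nat_lit 0) .nil) .nil))))))) (.nd (nat_lit 6) (.nd (nat_lit 7) (.nd (nat_lit 8) (.nd (nat_lit 9) 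
(.lf (nat_lit 452650) (.g (nat_lit 3105) (.e (nat_lit 2617) (nat_lit 164) (.e (nat_lit 172126) (nat_lit 14) (.e (nat_lit 491547) (nat_lit 9) (.e (nat_lit 336443) (nat_lit 32) (.e (nat_lit 466971) (nat_lit 21) (.e (nat_lit 164345) (nat_lit 240) .nil)))))) (.g (nat_lit 1) (.e (nat_lit 23867) (nat_lit 0) .nil) .nil))) 
(.lf (nat_lit 453162) (.g (nat_lit 2458) (.e (nat_lit 2626) (nat_lit 164) (.e (nat_lit 172124) (nat_lit 14) (.e (nat_lit 491540) (nat_lit 3) (.e (nat_lit 98373) (nat_lit 29) (.e (nat_lit 450560) (nat_lit 0) .nil))))) (.g (nat_lit 0) (.e (nat_lit 27225) (nat_lit 0) .nil) .nil)))) (.nd (nat_lit 9) 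
(.lf (nat_lit 452906) (.g (nat_lit 1902) (.e (nat_lit 2619) (nat_lit 164) (.e (nat_lit 172124) (nat_lit 14) (.e (nat_lit 491549) (nat_lit 9) (.e (nat_lit 336426) (nat_lit 29) (.e (nat_lit 442421) (nat_lit 21) .nil))))) (.g (nat_lit 0) (.e (nat_lit 25414) (nat_lit 0) .nil) .nil))) 
(.lf (nat_lit 453418) (.g (nat_lit 3769) (.e (nat_lit 2628) (nat_lit 164) (.e (nat_lit 172126) (nat_lit 14) (.e (nat_lit 491550) (nat_lit 9) (.e (nat_lit 336443) (nat_lit 32) (.e (nat_lit 466969) (nat_lit 21) (.e (nat_lit 164348) (nat_lit 240) .nil)))))) (.g (nat_lit 1) (.e (nat_lit 28730) (nat_lit 0) .nil) .nil))))) (.nd (nat_lit 8) (.nd (nat_lit 9) 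
(.lf (nat_lit 452778) (.g (nat_lit 4670) (.e (nat_lit 2619) (nat_lit 164) (.e (nat_lit 172064) (nat_lit 2) (.e (nat_lit 196666) (nat_lit 13) (.e (nat_lit 65610) (nat_lit 10) (.e (nat_lit 344117) (nat_lit 21) (.e (nat_lit 516097) (nat_lit 0) (.e (nat_lit 2412) (nat_lit 157) (.e (nat_lit 4507) (nat_lit 263) .nil)))))))) (.g (nat_lit 1) (.e (nat_lit 24757) (nat_lit 0) .nil) .nil))) 
(.lf (nat_lit 453290) (.g (nat_lit 1601) (.e (nat_lit 2628) (nat_lit 164) (.e (nat_lit 172120) (nat_lit 12) (.e (nat_lit 475198) (nat_lit 40) (.e (nat_lit 704599) (nat_lit 6) (.e (nat_lit 188444) (nat_lit 21) .nil))))) (.g (nat_lit 0) (.e (nat_lit 28229) (nat_lit 0) .nil) .nil)))) (.nd (nat_lit 9) 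
(.lf (nat_lit 453034) (.g (nat_lit 685) (.e (nat_lit 2620) (nat_lit 164) (.e (nat_lit 172120) (nat_lit 12) (.e (nat_lit 475197) (nat_lit 40) .nil))) (.g (nat_lit 0) (.e (nat_lit 26024) (nat_lit 0) .nil) .nil))) 
(.lf (nat_lit 453546) (.g (nat_lit 3623) (.e (nat_lit 2629) (nat_lit 164) (.e (nat_lit 172124) (nat_lit 14) (.e (nat_lit 491550) (nat_lit 9) (.e (nat_lit 336430) (nat_lit 29) (.e (nat_lit 442419) (nat_lit 21) (.e (nat_lit 164346) (nat_lit 240) .nil)))))) (.g (nat_lit 1) (.e (nat_lit 29768) (nat_lit 0) .nil) .nil)))))) (.nd (nat_lit 7) (.nd (nat_lit 8) (.nd (nat_lit 9) 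
(.lf (nat_lit 452714) (.g (nat_lit 3315) (.e (nat_lit 2618) (nat_lit 164) (.e (nat_lit 172120) (nat_lit 12) (.e (nat_lit 475211) (nat_lit 41) (.e (nat_lit 712752) (nat_lit 29) (.e (nat_lit 442421) (nat_lit 21) (.e (nat_lit 164345) (nat_lit 240) .nil)))))) (.g (nat_lit 1) (.e (nat_lit 24440) (nat_lit 0) .nil) .nil))) 
(.lf (nat_lit 453226) (.g (nat_lit 2920) (.e (nat_lit 2628) (nat_lit 164) (.e (nat_lit 172066) (nat_lit 3) (.e (nat_lit 204869) (nat_lit 29) (.e (nat_lit 360475) (nat_lit 8) (.e (nat_lit 557091) (nat_lit 12) .nil))))) (.g (nat_lit 0) (.e (nat_lit 27549) (nat_lit 0) .nil) .nil)))) (.nd (nat_lit 9) 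
(.lf (nat_lit 452970) (.g (nat_lit 1816) (.e (nat_lit 2619) (nat_lit 164) (.e (nat_lit 172126) (nat_lit 14) (.e (nat_lit 491549) (nat_lit 9) (.e (nat_lit 336426) (nat_lit 29) .nil)))) (.g (nat_lit 0) (.e (nat_lit 25754) (nat_lit 0) .nil) .nil))) 
(.lf (nat_lit 453482) (.g (nat_lit 2242) (.e (nat_lit 2629) (nat_lit 164) (.e (nat_lit 172120) (nat_lit 12) (.e (nat_lit 475198) (nat_lit 40) (.e (nat_lit 704599) (nat_lit 6) (.e (nat_lit 188445) (nat_lit 21) (.e (nat_lit 164348) (nat_lit 240) .nil)))))) (.g (nat_lit 1) (.e (nat_lit 29641) (nat_lit 0) .nil) .nil))))) (.nd (nat_lit 8) (.nd (nat_lit 9) 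
(.lf (nat_lit 452842) (.g (nat_lit 3358) (.e (nat_lit 2619) (nat_lit 164) (.e (nat_lit 172120) (nat_lit 12) (.e (nat_lit 475185) (nat_lit 29) (.e (nat_lit 557107) (nat_lit 15) (.e (nat_lit 188453) (nat_lit 24) .nil))))) (.g (nat_lit 0) (.e (nat_lit 25278) (nat_lit 0) .nil) .nil))) 
(.lf (nat_lit 453354) (.g (nat_lit 2641) (.e (nat_lit 2628) (nat_lit 164) (.e (nat_lit 172124) (nat_lit 14) (.e (nat_lit 491550) (nat_lit 9) (.e (nat_lit 336430) (nat_lit 29) (.e (nat_lit 442421) (nat_lit 21) (.e (nat_lit 164345) (nat_lit 240) .nil)))))) (.g (nat_lit 1) (.e (nat_lit 28387) (nat_lit 0) .nil) .nil)))) (.nd (nat_lit 9) 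
(.lf (nat_lit 453098) (.g (nat_lit 1679) (.e (nat_lit 2622) (nat_lit 164) (.e (nat_lit 172124) (nat_lit 14) (.e (nat_lit 491549) (nat_lit 9) (.e (nat_lit 336430) (nat_lit 29) .nil)))) (.g (nat_lit 0) (.e (nat_lit 26363) (nat_lit 0) .nil) .nil))) 
(.lf (nat_lit 453610) (.g (nat_lit 1401) (.e (nat_lit 2629) (nat_lit 164) (.e (nat_lit 172126) (nat_lit 14) (.e (nat_lit 491550) (nat_lit 9) (.e (nat_lit 336432) (nat_lit 30) .nil)))) (.g (nat_lit 0) (.e (nat_lit 30284) (nat_lit 0) .nil) .nil)))))))) (.nd (nat_lit 5) (.nd (nat_lit 6) (.nd (nat_lit 7) (.nd (nat_lit 8) (.nd (nat_lit 9) 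
(.lf (nat_lit 452634) (.g (nat_lit 2576) (.e (nat_lit 2617) (nat_lit 164) (.e (nat_lit 172120) (nat_lit 12) (.e (nat_lit 475209) (nat_lit 41) (.e (nat_lit 712752) (nat_lit 29) (.e (nat_lit 442421) (nat_lit 21) (.e (nat_lit 164347) (nat_lit 240) .nil)))))) (.g (nat_lit 1) (.e (nat_lit 23772) (nat_lit 0) .nil) .nil))) 
(.lf (nat_lit 453146) (.g (nat_lit 3227) (.e (nat_lit 2625) (nat_lit 164) (.e (nat_lit 172126) (nat_lit 14) (.e (nat_lit 491540) (nat_lit 3) (.e (nat_lit 98372) (nat_lit 29) (.e (nat_lit 450564) (nat_lit 0) (.e (nat_lit 3944) (nat_lit 239) .nil)))))) (.g (nat_lit 1) (.e (nat_lit 26976) (nat_lit 0) .nil) .nil)))) (.nd (nat_lit 9) 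
(.lf (nat_lit 452890) (.g (nat_lit 2198) (.e (nat_lit 2619) (nat_lit 164) (.e (nat_lit 172120) (nat_lit 12) (.e (nat_lit 475211) (nat_lit 41) (.e (nat_lit 712753) (nat_lit 30) (.e (nat_lit 450565) (nat_lit 0) (.e (nat_lit 5546) (nat_lit 306) .nil)))))) (.g (nat_lit 1) (.e (nat_lit 25349) (nat_lit 0) .nil) .nil))) 
(.lf (nat_lit 453402) (.g (nat_lit 3539) (.e (nat_lit 2628) (nat_lit 164) (.e (nat_lit 172126) (nat_lit 14) (.e (nat_lit 491549) (nat_lit 9) (.e (nat_lit 336443) (nat_lit 32) (.e (nat_lit 466969) (nat_lit 21) (.e (nat_lit 164347) (nat_lit 240) .nil)))))) (.g (nat_lit 1) (.e (nat_lit 28712) (nat_lit 0) .nil) .nil))))) (.nd (nat_lit 8) (.nd (nat_lit 9) 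
(.lf (nat_lit 452762) (.g (nat_lit 2430) (.e (nat_lit 2618) (nat_lit 164) (.e (nat_lit 172126) (nat_lit 14) (.e (nat_lit 491550) (nat_lit 9) (.e (nat_lit 336443) (nat_lit 32) (.e (nat_lit 466971) (nat_lit 21) .nil))))) (.g (nat_lit 0) (.e (nat_lit 24655) (nat_lit 0) .nil) .nil))) 
(.lf (nat_lit 453274) (.g (nat_lit 3504) (.e (nat_lit 2628) (nat_lit 164) (.e (nat_lit 172118) (nat_lit 12) (.e (nat_lit 475211) (nat_lit 41) (.e (nat_lit 712752) (nat_lit 29) (.e (nat_lit 442421) (nat_lit 21) (.e (nat_lit 164347) (nat_lit 240) .nil)))))) (.g (nat_lit 1) (.e (nat_lit 28202) (nat_lit 0) .nil) .nil)))) (.nd (nat_lit 9) 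
(.lf (nat_lit 453018) (.g (nat_lit 2872) (.e (nat_lit 2619) (nat_lit 164) (.e (nat_lit 172126) (nat_lit 14) (.e (nat_lit 491569) (nat_lit 13) (.e (nat_lit 393281) (nat_lit 23) (.e (nat_lit 426107) (nat_lit 1) (.e (nat_lit 164347) (nat_lit 240) .nil)))))) (.g (nat_lit 1) (.e (nat_lit 25816) (nat_lit 0) .nil) .nil))) 
(.lf (nat_lit 453530) (.g (nat_lit 3535) (.e (nat_lit 2629) (nat_lit 164) (.e (nat_lit 172124) (nat_lit 14) (.e (nat_lit 491549) (nat_lit 9) (.e (nat_lit 336430) (nat_lit 29) (.e (nat_lit 442421) (nat_lit 21) (.e (nat_lit 164346) (nat_lit 240) .nil)))))) (.g (nat_lit 1) (.e (nat_lit 29749) (nat_lit 0) .nil) .nil)))))) (.nd (nat_lit 7) (.nd (nat_lit 8) (.nd (nat_lit 9) 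
(.lf (nat_lit 452698) (.g (nat_lit 1884) (.e (nat_lit 2618) (nat_lit 164) (.e (nat_lit 172119) (nat_lit 12) (.e (nat_lit 475211) (nat_lit 41) (.e (nat_lit 712750) (nat_lit 29) (.e (nat_lit 442421) (nat_lit 21) .nil))))) (.g (nat_lit 0) (.e (nat_lit 24401) (nat_lit 0) .nil) .nil))) 
(.lf (nat_lit 453210) (.g (nat_lit 3749) (.e (nat_lit 2628) (nat_lit 164) (.e (nat_lit 172064) (nat_lit 2) (.e (nat_lit 196666) (nat_lit 13) (.e (nat_lit 65617) (nat_lit 10) (.e (nat_lit 344133) (nat_lit 26) (.e (nat_lit 557091) (nat_lit 12) (.e (nat_lit 163841) (nat_lit 0) (.e (nat_lit 6374) (nat_lit 337) .nil)))))))) (.g (nat_lit 1) (.e (nat_lit 27513) (nat_lit 0) .nil) .nil)))) 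
(.nd (nat_lit 9) 
(.lf (nat_lit 452954) (.g (nat_lit 593) (.e (nat_lit 2619) (nat_lit 164) (.e (nat_lit 172126) (nat_lit 14) (.e (nat_lit 491540) (nat_lit 3) .nil))) (.g (nat_lit 0) (.e (nat_lit 25717) (nat_lit 0) .nil) .nil))) 
(.lf (nat_lit 453466) (.g (nat_lit 2278) (.e (nat_lit 2629) (nat_lit 164) (.e (nat_lit 172119) (nat_lit 12) (.e (nat_lit 475210) (nat_lit 41) (.e (nat_lit 712755) (nat_lit 30) (.e (nat_lit 450563) (nat_lit 0) (.e (nat_lit 5537) (nat_lit 306) .nil)))))) (.g (nat_lit 1) (.e (nat_lit 29618) (nat_lit 0) .nil) .nil))))) (.nd (nat_lit 8) (.nd (nat_lit 9) 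
(.lf (nat_lit 452826) (.g (nat_lit 2447) (.e (nat_lit 2619) (nat_lit 164) (.e (nat_lit 172119) (nat_lit 12) (.e (nat_lit 475210) (nat_lit 41) (.e (nat_lit 712752) (nat_lit 29) (.e (nat_lit 442421) (nat_lit 21) (.e (nat_lit 164347) (nat_lit 240) .nil)))))) (.g (nat_lit 1) (.e (nat_lit 25261) (nat_lit 0) .nil) .nil))) 
(.lf (nat_lit 453338) (.g (nat_lit 2040) (.e (nat_lit 2628) (nat_lit 164) (.e (nat_lit 172124) (nat_lit 14) (.e (nat_lit 491549) (nat_lit 9) (.e (nat_lit 336432) (nat_lit 30) (.e (nat_lit 458496) (nat_lit 0) (.e (nat_lit 5543) (nat_lit 306) .nil)))))) (.g (nat_lit 1) (.e (nat_lit 28370) (nat_lit 0) .nil) .nil)))) (.nd (nat_lit 9) 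
(.lf (nat_lit 453082) (.g (nat_lit 2046) (.e (nat_lit 2622) (nat_lit 164) (.e (nat_lit 172066) (nat_lit 3) (.e (nat_lit 204869) (nat_lit 29) (.e (nat_lit 360474) (nat_lit 8) (.e (nat_lit 557094) (nat_lit 12) (.e (nat_lit 163849) (nat_lit 0) (.e (nat_lit 6255) (nat_lit 337) .nil))))))) (.g (nat_lit 1) (.e (nat_lit 26277) (nat_lit 0) .nil) .nil))) 
(.lf (nat_lit 453594) (.g (nat_lit 2340) (.e (nat_lit 2629) (nat_lit 164) (.e (nat_lit 172126) (nat_lit 14) (.e (nat_lit 491549) (nat_lit 9) (.e (nat_lit 336434) (nat_lit 30) (.e (nat_lit 458496) (nat_lit 0) (.e (nat_lit 5546) (nat_lit 306) .nil)))))) (.g (nat_lit 1) (.e (nat_lit 30266) (nat_lit 0) .nil) .nil))))))) (.nd (nat_lit 6) (.nd (nat_lit 7) (.nd (nat_lit 8) (.nd (nat_lit 9) 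
(.lf (nat_lit 452666) (.g (nat_lit 2188) (.e (nat_lit 2617) (nat_lit 164) (.e (nat_lit 172126) (nat_lit 14) (.e (nat_lit 491549) (nat_lit 9) (.e (nat_lit 336434) (nat_lit 30) (.e (nat_lit 450564) (nat_lit 0) (.e (nat_lit 5547) (nat_lit 306) .nil)))))) (.g (nat_lit 1) (.e (nat_lit 23918) (nat_lit 0) .nil) .nil))) 
(.lf (nat_lit 453178) (.g (nat_lit 4943) (.e (nat_lit 2626) (nat_lit 164) (.e (nat_lit 172126) (nat_lit 14) (.e (nat_lit 491540) (nat_lit 3) (.e (nat_lit 98373) (nat_lit 29) (.e (nat_lit 450562) (nat_lit 0) (.e (nat_lit 3948) (nat_lit 239) .nil)))))) (.g (nat_lit 1) (.e (nat_lit 27282) (nat_lit 0) .nil) .nil)))) (.nd (nat_lit 9) 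
(.lf (nat_lit 452922) (.g (nat_lit 3534) (.e (nat_lit 2619) (nat_lit 164) (.e (nat_lit 172124) (nat_lit 14) (.e (nat_lit 491549) (nat_lit 9) (.e (nat_lit 336443) (nat_lit 32) (.e (nat_lit 466971) (nat_lit 21) (.e (nat_lit 164345) (nat_lit 240) .nil)))))) (.g (nat_lit 1) (.e (nat_lit 25432) (nat_lit 0) .nil) .nil))) 
(.lf (nat_lit 453434) (.g (nat_lit 1761) (.e (nat_lit 2629) (nat_lit 164) (.e (nat_lit 172118) (nat_lit 12) (.e (nat_lit 475198) (nat_lit 40) (.e (nat_lit 704598) (nat_lit 6) (.e (nat_lit 188446) (nat_lit 21) (.e (nat_lit 164348) (nat_lit 240) .nil)))))) (.g (nat_lit 1) (.e (nat_lit 29568) (nat_lit 0) .nil) .nil))))) (.nd (nat_lit 8) (.nd (nat_lit 9) 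
(.lf (nat_lit 452794) (.g (nat_lit 2233) (.e (nat_lit 2619) (nat_lit 164) (.e (nat_lit 172118) (nat_lit 12) (.e (nat_lit 475198) (nat_lit 40) (.e (nat_lit 704599) (nat_lit 6) (.e (nat_lit 188445) (nat_lit 21) (.e (nat_lit 164345) (nat_lit 240) .nil)))))) (.g (nat_lit 1) (.e (nat_lit 25210) (nat_lit 0) .nil) .nil))) 
(.lf (nat_lit 453306) (.g (nat_lit 4042) (.e (nat_lit 2628) (nat_lit 164) (.e (nat_lit 172120) (nat_lit 12) (.e (nat_lit 475210) (nat_lit 41) (.e (nat_lit 712755) (nat_lit 30) (.e (nat_lit 450563) (nat_lit 0) (.e (nat_lit 5537) (nat_lit 306) .nil)))))) (.g (nat_lit 1) (.e (nat_lit 28264) (nat_lit 0) .nil) .nil)))) (.nd (nat_lit 9) 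
(.lf (nat_lit 453050) (.g (nat_lit 2745) (.e (nat_lit 2621) (nat_lit 164) (.e (nat_lit 172067) (nat_lit 3) (.e (nat_lit 204869) (nat_lit 29) (.e (nat_lit 360475) (nat_lit 8) (.e (nat_lit 557089) (nat_lit 12) .nil))))) (.g (nat_lit 0) (.e (nat_lit 26198) (nat_lit 0) .nil) .nil))) 
(.lf (nat_lit 453562) (.g (nat_lit 885) (.e (nat_lit 2629) (nat_lit 164) (.e (nat_lit 172126) (nat_lit 14) (.e (nat_lit 491539) (nat_lit 3) .nil))) (.g (nat_lit 0) (.e (nat_lit 30196) (nat_lit 0) .nil) .nil)))))) (.nd (nat_lit 7) (.nd (nat_lit 8) (.nd (nat_lit 9) 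
(.lf (nat_lit 452730) (.g (nat_lit 3165) (.e (nat_lit 2618) (nat_lit 164) (.e (nat_lit 172124) (nat_lit 14) (.e (nat_lit 491549) (nat_lit 9) (.e (nat_lit 336443) (nat_lit 32) (.e (nat_lit 466972) (nat_lit 21) (.e (nat_lit 164345) (nat_lit 240) .nil)))))) (.g (nat_lit 1) (.e (nat_lit 24464) (nat_lit 0) .nil) .nil))) 
(.lf (nat_lit 453242) (.g (nat_lit 2720) (.e (nat_lit 2628) (nat_lit 164) (.e (nat_lit 172067) (nat_lit 3) (.e (nat_lit 204869) (nat_lit 29) (.e (nat_lit 360475) (nat_lit 8) (.e (nat_lit 557091) (nat_lit 12) .nil))))) (.g (nat_lit 0) (.e (nat_lit 27593) (nat_lit 0) .nil) .nil)))) (.nd (nat_lit 9) 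
(.lf (nat_lit 452986) (.g (nat_lit 2314) (.e (nat_lit 2619) (nat_lit 164) (.e (nat_lit 172126) (nat_lit 14) (.e (nat_lit 491549) (nat_lit 9) (.e (nat_lit 336434) (nat_lit 30) (.e (nat_lit 458496) (nat_lit 0) (.e (nat_lit 5547) (nat_lit 306) .nil)))))) (.g (nat_lit 1) (.e (nat_lit 25771) (nat_lit 0) .nil) .nil))) 
(.lf (nat_lit 453498) (.g (nat_lit 2943) (.e (nat_lit 2629) (nat_lit 164) (.e (nat_lit 172120) (nat_lit 12) (.e (nat_lit 475210) (nat_lit 41) (.e (nat_lit 712755) (nat_lit 30) (.e (nat_lit 450566) (nat_lit 0) (.e (nat_lit 5548) (nat_lit 306) .nil)))))) (.g (nat_lit 1) (.e (nat_lit 29673) (nat_lit 0) .nil) .nil))))) (.nd (nat_lit 8) (.nd (nat_lit 9) 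
(.lf (nat_lit 452858) (.g (nat_lit 3379) (.e (nat_lit 2619) (nat_lit 164) (.e (nat_lit 172120) (nat_lit 12) (.e (nat_lit 475199) (nat_lit 40) (.e (nat_lit 704598) (nat_lit 6) (.e (nat_lit 188446) (nat_lit 21) (.e (nat_lit 164348) (nat_lit 240) .nil)))))) (.g (nat_lit 1) (.e (nat_lit 25303) (nat_lit 0) .nil) .nil))) 
(.lf (nat_lit 453370) (.g (nat_lit 1924) (.e (nat_lit 2628) (nat_lit 164) (.e (nat_lit 172126) (nat_lit 14) (.e (nat_lit 491537) (nat_lit 2) (.e (nat_lit 90170) (nat_lit 13) (.e (nat_lit 172113) (nat_lit 10) .nil))))) (.g (nat_lit 0) (.e (nat_lit 28645) (nat_lit 0) .nil) .nil)))) (.nd (nat_lit 9) 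
(.lf (nat_lit 453114) (.g (nat_lit 2505) (.e (nat_lit 2623) (nat_lit 164) (.e (nat_lit 172126) (nat_lit 14) (.e (nat_lit 491537) (nat_lit 2) (.e (nat_lit 90170) (nat_lit 13) (.e (nat_lit 172113) (nat_lit 10) (.e (nat_lit 434208) (nat_lit 18) (.e (nat_lit 3953) (nat_lit 239) .nil))))))) (.g (nat_lit 1) (.e (nat_lit 26585) (nat_lit 0) .nil) .nil))) 
(.lf (nat_lit 453626) (.g (nat_lit 4405) (.e (nat_lit 2630) (nat_lit 164) (.e (nat_lit 172046) (nat_lit 0) (.e (nat_lit 3238) (nat_lit 197) (.e (nat_lit 532550) (nat_lit 12) (.e (nat_lit 360475) (nat_lit 8) (.e (nat_lit 557089) (nat_lit 12) (.e (nat_lit 163849) (nat_lit 0) (.e (nat_lit 6255) (nat_lit 337) .nil)))))))) (.g (nat_lit 1) (.e (nat_lit 30529) (nat_lit 0) .nil) .nil)))))))))) 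
(.nd (nat_lit 3) (.nd (nat_lit 4) (.nd (nat_lit 5) (.nd (nat_lit 6) (.nd (nat_lit 7) 
(.nd (nat_lit 8) (.nd (nat_lit 9) 
(.lf (nat_lit 452614) (.g (nat_lit 4575) (.e (nat_lit 2615) (nat_lit 163) (.e (nat_lit 163962) (nat_lit 25) (.e (nat_lit 532513) (nat_lit 3) (.e (nat_lit 114714) (nat_lit 22) (.e (nat_lit 90172) (nat_lit 14) (.e (nat_lit 180244) (nat_lit 5) (.e (nat_lit 532503) (nat_lit 1) (.e (nat_lit 57653) (nat_lit 152) .nil)))))))) (.g (nat_lit 1) (.e (nat_lit 23381) (nat_lit 0) .nil) .nil))) 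
(.lf (nat_lit 453126) (.g (nat_lit 1052) (.e (nat_lit 2625) (nat_lit 164) (.e (nat_lit 172120) (nat_lit 12) (.e (nat_lit 475211) (nat_lit 41) (.e (nat_lit 712753) (nat_lit 30) .nil)))) (.g (nat_lit 0) (.e (nat_lit 26832) (nat_lit 0) .nil) .nil)))) (.nd (nat_lit 9) 
(.lf (nat_lit 452870) (.g (nat_lit 2006) (.e (nat_lit 2619) (nat_lit 164) (.e (nat_lit 172120) (nat_lit 12) (.e (nat_lit 475210) (nat_lit 41) (.e (nat_lit 712753) (nat_lit 30) (.e (nat_lit 458496) (nat_lit 0) (.e (nat_lit 5548) (nat_lit 306) .nil)))))) (.g (nat_lit 1) (.e (nat_lit 25328) (nat_lit 0) .nil) .nil))) 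
(.lf (nat_lit 453382) (.g (nat_lit 3325) (.e (nat_lit 2628) (nat_lit 164) (.e (nat_lit 172126) (nat_lit 14) (.e (nat_lit 491547) (nat_lit 9) (.e (nat_lit 336443) (nat_lit 32) (.e (nat_lit 466969) (nat_lit 21) (.e (nat_lit 164345) (nat_lit 240) .nil)))))) (.g (nat_lit 1) (.e (nat_lit 28662) (nat_lit 0) .nil) .nil))))) (.nd (nat_lit 8) (.nd (nat_lit 9) 
(.lf (nat_lit 452742) (.g (nat_lit 2919) (.e (nat_lit 2618) (nat_lit 164) (.e (nat_lit 172126) (nat_lit 14) (.e (nat_lit 491540) (nat_lit 3) (.e (nat_lit 98373) (nat_lit 29) (.e (nat_lit 450560) (nat_lit 0) (.e (nat_lit 3991) (nat_lit 239) .nil)))))) (.g (nat_lit 1) (.e (nat_lit 24628) (nat_lit 0) .nil) .nil))) 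
(.lf (nat_lit 453254) (.g (nat_lit 1979) (.e (nat_lit 2628) (nat_lit 164) (.e (nat_lit 172118) (nat_lit 12) (.e (nat_lit 475198) (nat_lit 40) (.e (nat_lit 704599) (nat_lit 6) (.e (nat_lit 188446) (nat_lit 21) (.e (nat_lit 164347) (nat_lit 240) .nil)))))) (.g (nat_lit 1) (.e (nat_lit 28165) (nat_lit 0) .nil) .nil)))) (.nd (nat_lit 9) 
(.lf (nat_lit 452998) (.g (nat_lit 3324) (.e (nat_lit 2619) (nat_lit 164) (.e (nat_lit 172126) (nat_lit 14) (.e (nat_lit 491550) (nat_lit 9) (.e (nat_lit 336432) (nat_lit 30) (.e (nat_lit 450565) (nat_lit 0) (.e (nat_lit 5548) (nat_lit 306) .nil)))))) (.g (nat_lit 1) (.e (nat_lit 25784) (nat_lit 0) .nil) .nil))) 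
(.lf (nat_lit 453510) (.g (nat_lit 3781) (.e (nat_lit 2629) (nat_lit 164) (.e (nat_lit 172120) (nat_lit 12) (.e (nat_lit 475211) (nat_lit 41) (.e (nat_lit 712755) (nat_lit 30) (.e (nat_lit 450563) (nat_lit 0) (.e (nat_lit 5537) (nat_lit 306) .nil)))))) (.g (nat_lit 1) (.e (nat_lit 29687) (nat_lit 0) .nil) .nil)))))) (.nd (nat_lit 7) (.nd (nat_lit 8) (.nd (nat_lit 9) 
(.lf (nat_lit 452678) (.g (nat_lit 3184) (.e (nat_lit 2617) (nat_lit 164) (.e (nat_lit 172126) (nat_lit 14) (.e (nat_lit 491550) (nat_lit 9) (.e (nat_lit 336443) (nat_lit 32) (.e (nat_lit 466971) (nat_lit 21) (.e (nat_lit 164345) (nat_lit 240) .nil)))))) (.g (nat_lit 1) (.e (nat_lit 23938) (nat_lit 0) .nil) .nil))) 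
(.lf (nat_lit 453190) (.g (nat_lit 4034) (.e (nat_lit 2628) (nat_lit 164) (.e (nat_lit 172062) (nat_lit 2) (.e (nat_lit 196666) (nat_lit 13) (.e (nat_lit 65617) (nat_lit 10) (.e (nat_lit 344130) (nat_lit 26) (.e (nat_lit 557090) (nat_lit 12) (.e (nat_lit 163843) (nat_lit 0) (.e (nat_lit 6374) (nat_lit 337) .nil)))))))) (.g (nat_lit 1) (.e (nat_lit 27489) (nat_lit 0) .nil) .nil)))) 
(.nd (nat_lit 9) 
(.lf (nat_lit 452934) (.g (nat_lit 3695) (.e (nat_lit 2619) (nat_lit 164) (.e (nat_lit 172124) (nat_lit 14) (.e (nat_lit 491550) (nat_lit 9) (.e (nat_lit 336443) (nat_lit 32) (.e (nat_lit 466969) (nat_lit 21) (.e (nat_lit 164345) (nat_lit 240) .nil)))))) (.g (nat_lit 1) (.e (nat_lit 25447) (nat_lit 0) .nil) .nil))) 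
(.lf (nat_lit 453446) (.g (nat_lit 1667) (.e (nat_lit 2629) (nat_lit 164) (.e (nat_lit 172118) (nat_lit 12) (.e (nat_lit 475211) (nat_lit 41) (.e (nat_lit 712750) (nat_lit 29) (.e (nat_lit 442421) (nat_lit 21) .nil))))) (.g (nat_lit 0) (.e (nat_lit 29588) (nat_lit 0) .nil) .nil))))) (.nd (nat_lit 8) (.nd (nat_lit 9) 
(.lf (nat_lit 452806) (.g (nat_lit 3574) (.e (nat_lit 2619) (nat_lit 164) (.e (nat_lit 172118) (nat_lit 12) (.e (nat_lit 475210) (nat_lit 41) (.e (nat_lit 712755) (nat_lit 30) (.e (nat_lit 450563) (nat_lit 0) (.e (nat_lit 5537) (nat_lit 306) .nil)))))) (.g (nat_lit 1) (.e (nat_lit 25233) (nat_lit 0) .nil) .nil))) 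
(.lf (nat_lit 453318) (.g (nat_lit 1680) (.e (nat_lit 2628) (nat_lit 164) (.e (nat_lit 172120) (nat_lit 12) (.e (nat_lit 475211) (nat_lit 41) (.e (nat_lit 712753) (nat_lit 30) (.e (nat_lit 458496) (nat_lit 0) (.e (nat_lit 5548) (nat_lit 306) .nil)))))) (.g (nat_lit 1) (.e (nat_lit 28280) (nat_lit 0) .nil) .nil)))) (.nd (nat_lit 9) 
(.lf (nat_lit 453062) (.g (nat_lit 1668) (.e (nat_lit 2621) (nat_lit 164) (.e (nat_lit 172120) (nat_lit 12) (.e (nat_lit 475199) (nat_lit 40) (.e (nat_lit 704598) (nat_lit 6) .nil)))) (.g (nat_lit 0) (.e (nat_lit 26212) (nat_lit 0) .nil) .nil))) 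
(.lf (nat_lit 453574) (.g (nat_lit 3080) (.e (nat_lit 2629) (nat_lit 164) (.e (nat_lit 172126) (nat_lit 14) (.e (nat_lit 491547) (nat_lit 9) (.e (nat_lit 336443) (nat_lit 32) (.e (nat_lit 466969) (nat_lit 21) (.e (nat_lit 164348) (nat_lit 240) .nil)))))) (.g (nat_lit 1) (.e (nat_lit 30209) (nat_lit 0) .nil) .nil))))))) (.nd (nat_lit 6) (.nd (nat_lit 7) (.nd (nat_lit 8) (.nd (nat_lit 9) 
(.lf (nat_lit 452646) (.g (nat_lit 3572) (.e (nat_lit 2617) (nat_lit 164) (.e (nat_lit 172126) (nat_lit 14) (.e (nat_lit 491540) (nat_lit 3) (.e (nat_lit 98373) (nat_lit 29) (.e (nat_lit 450560) (nat_lit 0) (.e (nat_lit 3988) (nat_lit 239) .nil)))))) (.g (nat_lit 1) (.e (nat_lit 23857) (nat_lit 0) .nil) .nil))) 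
(.lf (nat_lit 453158) (.g (nat_lit 3777) (.e (nat_lit 2625) (nat_lit 164) (.e (nat_lit 172126) (nat_lit 14) (.e (nat_lit 491540) (nat_lit 3) (.e (nat_lit 98373) (nat_lit 29) (.e (nat_lit 450569) (nat_lit 0) (.e (nat_lit 3966) (nat_lit 239) .nil)))))) (.g (nat_lit 1) (.e (nat_lit 26988) (nat_lit 0) .nil) .nil)))) (.nd (nat_lit 9) 
(.lf (nat_lit 452902) (.g (nat_lit 2128) (.e (nat_lit 2619) (nat_lit 164) (.e (nat_lit 172124) (nat_lit 14) (.e (nat_lit 491547) (nat_lit 9) (.e (nat_lit 336443) (nat_lit 32) (.e (nat_lit 466969) (nat_lit 21) (.e (nat_lit 164348) (nat_lit 240) .nil)))))) (.g (nat_lit 1) (.e (nat_lit 25396) (nat_lit 0) .nil) .nil))) 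
(.lf (nat_lit 453414) (.g (nat_lit 1195) (.e (nat_lit 2628) (nat_lit 164) (.e (nat_lit 172126) (nat_lit 14) (.e (nat_lit 491550) (nat_lit 9) (.e (nat_lit 336434) (nat_lit 30) .nil)))) (.g (nat_lit 0) (.e (nat_lit 28726) (nat_lit 0) .nil) .nil))))) (.nd (nat_lit 8) (.nd (nat_lit 9) 
(.lf (nat_lit 452774) (.g (nat_lit 3946) (.e (nat_lit 2619) (nat_lit 164) (.e (nat_lit 172064) (nat_lit 2) (.e (nat_lit 196666) (nat_lit 13) (.e (nat_lit 65610) (nat_lit 10) (.e (nat_lit 344117) (nat_lit 21) (.e (nat_lit 516097) (nat_lit 0) (.e (nat_lit 2398) (nat_lit 157) (.e (nat_lit 4507) (nat_lit 263) .nil)))))))) (.g (nat_lit 1) (.e (nat_lit 24753) (nat_lit 0) .nil) .nil))) 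
(.lf (nat_lit 453286) (.g (nat_lit 2587) (.e (nat_lit 2628) (nat_lit 164) (.e (nat_lit 172120) (nat_lit 12) (.e (nat_lit 475198) (nat_lit 40) (.e (nat_lit 704598) (nat_lit 6) (.e (nat_lit 188444) (nat_lit 21) (.e (nat_lit 164345) (nat_lit 240) .nil)))))) (.g (nat_lit 1) (.e (nat_lit 28225) (nat_lit 0) .nil) .nil)))) (.nd (nat_lit 9) 
(.lf (nat_lit 453030) (.g (nat_lit 2545) (.e (nat_lit 2620) (nat_lit 164) (.e (nat_lit 172067) (nat_lit 3) (.e (nat_lit 204869) (nat_lit 29) (.e (nat_lit 360474) (nat_lit 8) (.e (nat_lit 557094) (nat_lit 12) .nil))))) (.g (nat_lit 0) (.e (nat_lit 26011) (nat_lit 0) .nil) .nil))) 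
(.lf (nat_lit 453542) (.g (nat_lit 3658) (.e (nat_lit 2629) (nat_lit 164) (.e (nat_lit 172124) (nat_lit 14) (.e (nat_lit 491549) (nat_lit 9) (.e (nat_lit 336443) (nat_lit 32) (.e (nat_lit 466971) (nat_lit 21) (.e (nat_lit 164347) (nat_lit 240) .nil)))))) (.g (nat_lit 1) (.e (nat_lit 29762) (nat_lit 0) .nil) .nil)))))) (.nd (nat_lit 7) (.nd (nat_lit 8) (.nd (nat_lit 9) 
(.lf (nat_lit 452710) (.g (nat_lit 2373) (.e (nat_lit 2618) (nat_lit 164) (.e (nat_lit 172120) (nat_lit 12) (.e (nat_lit 475209) (nat_lit 41) (.e (nat_lit 712752) (nat_lit 29) (.e (nat_lit 442421) (nat_lit 21) (.e (nat_lit 164345) (nat_lit 240) .nil)))))) (.g (nat_lit 1) (.e (nat_lit 24427) (nat_lit 0) .nil) .nil))) 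
(.lf (nat_lit 453222) (.g (nat_lit 4832) (.e (nat_lit 2628) (nat_lit 164) (.e (nat_lit 172066) (nat_lit 3) (.e (nat_lit 204869) (nat_lit 29) (.e (nat_lit 360475) (nat_lit 8) (.e (nat_lit 557089) (nat_lit 12) (.e (nat_lit 163844) (nat_lit 0) (.e (nat_lit 6374) (nat_lit 337) .nil))))))) (.g (nat_lit 1) (.e (nat_lit 27545) (nat_lit 0) .nil) .nil)))) (.nd (nat_lit 9) 
(.lf (nat_lit 452966) (.g (nat_lit 2583) (.e (nat_lit 2619) (nat_lit 164) (.e (nat_lit 172126) (nat_lit 14) (.e (nat_lit 491547) (nat_lit 9) (.e (nat_lit 336443) (nat_lit 32) (.e (nat_lit 466972) (nat_lit 21) (.e (nat_lit 164345) (nat_lit 240) .nil)))))) (.g (nat_lit 1) (.e (nat_lit 25731) (nat_lit 0) .nil) .nil))) 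
(.lf (nat_lit 453478) (.g (nat_lit 4005) (.e (nat_lit 2629) (nat_lit 164) (.e (nat_lit 172120) (nat_lit 12) (.e (nat_lit 475185) (nat_lit 29) (.e (nat_lit 557109) (nat_lit 15) (.e (nat_lit 188455) (nat_lit 24) .nil))))) (.g (nat_lit 0) (.e (nat_lit 29630) (nat_lit 0) .nil) .nil))))) (.nd (nat_lit 8) (.nd (nat_lit 9) 
(.lf (nat_lit 452838) (.g (nat_lit 2490) (.e (nat_lit 2619) (nat_lit 164) (.e (nat_lit 172119) (nat_lit 12) (.e (nat_lit 475211) (nat_lit 41) (.e (nat_lit 712755) (nat_lit 30) (.e (nat_lit 450564) (nat_lit 0) (.e (nat_lit 5546) (nat_lit 306) .nil)))))) (.g (nat_lit 1) (.e (nat_lit 25274) (nat_lit 0) .nil) .nil))) 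
(.lf (nat_lit 453350) (.g (nat_lit 3050) (.e (nat_lit 2628) (nat_lit 164) (.e (nat_lit 172124) (nat_lit 14) (.e (nat_lit 491549) (nat_lit 9) (.e (nat_lit 336443) (nat_lit 32) (.e (nat_lit 466972) (nat_lit 21) (.e (nat_lit 164345) (nat_lit 240) .nil)))))) (.g (nat_lit 1) (.e (nat_lit 28382) (nat_lit 0) .nil) .nil)))) (.nd (nat_lit 9) 
(.lf (nat_lit 453094) (.g (nat_lit 1362) (.e (nat_lit 2622) (nat_lit 164) (.e (nat_lit 172119) (nat_lit 12) (.e (nat_lit 475199) (nat_lit 40) (.e (nat_lit 704598) (nat_lit 6) (.e (nat_lit 188453) (nat_lit 24) (.e (nat_lit 229666) (nat_lit 240) .nil)))))) (.g (nat_lit 1) (.e (nat_lit 26305) (nat_lit 0) .nil) .nil))) 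
(.lf (nat_lit 453606) (.g (nat_lit 2718) (.e (nat_lit 2629) (nat_lit 164) (.e (nat_lit 172126) (nat_lit 14) (.e (nat_lit 491550) (nat_lit 9) (.e (nat_lit 336430) (nat_lit 29) (.e (nat_lit 442421) (nat_lit 21) (.e (nat_lit 164345) (nat_lit 240) .nil)))))) (.g (nat_lit 1) (.e (nat_lit 30280) (nat_lit 0) .nil) .nil)))))))) 
(.nd (nat_lit 5) (.nd (nat_lit 6) (.nd (nat_lit 7) (.nd (nat_lit 8) (.nd (nat_lit 9) 
(.lf (nat_lit 452630) (.g (nat_lit 1051) (.e (nat_lit 2617) (nat_lit 164) (.e (nat_lit 172118) (nat_lit 12) (.e (nat_lit 475210) (nat_lit 41) (.e (nat_lit 712752) (nat_lit 29) .nil)))) (.g (nat_lit 0) (.e (nat_lit 23741) (nat_lit 0) .nil) .nil))) 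
(.lf (nat_lit 453142) (.g (nat_lit 1017) (.e (nat_lit 2625) (nat_lit 164) (.e (nat_lit 172126) (nat_lit 14) (.e (nat_lit 491537) (nat_lit 2) (.e (nat_lit 90170) (nat_lit 13) .nil)))) (.g (nat_lit 0) (.e (nat_lit 26965) (nat_lit 0) .nil) .nil)))) (.nd (nat_lit 9) 
(.lf (nat_lit 452886) (.g (nat_lit 4114) (.e (nat_lit 2619) (nat_lit 164) (.e (nat_lit 172120) (nat_lit 12) (.e (nat_lit 475211) (nat_lit 41) (.e (nat_lit 712752) (nat_lit 29) (.e (nat_lit 442421) (nat_lit 21) (.e (nat_lit 164347) (nat_lit 240) .nil)))))) (.g (nat_lit 1) (.e (nat_lit 25345) (nat_lit 0) .nil) .nil))) 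
(.lf (nat_lit 453398) (.g (nat_lit 1881) (.e (nat_lit 2628) (nat_lit 164) (.e (nat_lit 172126) (nat_lit 14) (.e (nat_lit 491549) (nat_lit 9) (.e (nat_lit 336432) (nat_lit 30) (.e (nat_lit 458496) (nat_lit 0) (.e (nat_lit 5546) (nat_lit 306) .nil)))))) (.g (nat_lit 1) (.e (nat_lit 28708) (nat_lit 0) .nil) .nil))))) (.nd (nat_lit 8) (.nd (nat_lit 9) 
(.lf (nat_lit 452758) (.g (nat_lit 2760) (.e (nat_lit 2618) (nat_lit 164) (.e (nat_lit 172126) (nat_lit 14) (.e (nat_lit 491550) (nat_lit 9) (.e (nat_lit 336430) (nat_lit 29) (.e (nat_lit 442419) (nat_lit 21) (.e (nat_lit 164345) (nat_lit 240) .nil)))))) (.g (nat_lit 1) (.e (nat_lit 24651) (nat_lit 0) .nil) .nil))) 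
(.lf (nat_lit 453270) (.g (nat_lit 2083) (.e (nat_lit 2628) (nat_lit 164) (.e (nat_lit 172118) (nat_lit 12) (.e (nat_lit 475211) (nat_lit 41) (.e (nat_lit 712750) (nat_lit 29) (.e (nat_lit 442421) (nat_lit 21) (.e (nat_lit 164346) (nat_lit 240) .nil)))))) (.g (nat_lit 1) (.e (nat_lit 28196) (nat_lit 0) .nil) .nil)))) (.nd (nat_lit 9) 
(.lf (nat_lit 453014) (.g (nat_lit 1996) (.e (nat_lit 2619) (nat_lit 164) (.e (nat_lit 172126) (nat_lit 14) (.e (nat_lit 491569) (nat_lit 13) (.e (nat_lit 393271) (nat_lit 23) (.e (nat_lit 426112) (nat_lit 1) (.e (nat_lit 164347) (nat_lit 240) .nil)))))) (.g (nat_lit 1) (.e (nat_lit 25810) (nat_lit 0) .nil) .nil))) 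
(.lf (nat_lit 453526) (.g (nat_lit 3310) (.e (nat_lit 2629) (nat_lit 164) (.e (nat_lit 172124) (nat_lit 14) (.e (nat_lit 491549) (nat_lit 9) (.e (nat_lit 336430) (nat_lit 29) (.e (nat_lit 442419) (nat_lit 21) (.e (nat_lit 164345) (nat_lit 240) .nil)))))) (.g (nat_lit 1) (.e (nat_lit 29745) (nat_lit 0) .nil) .nil)))))) (.nd (nat_lit 7) (.nd (nat_lit 8) (.nd (nat_lit 9) 
(.lf (nat_lit 452694) (.g (nat_lit 2467) (.e (nat_lit 2618) (nat_lit 164) (.e (nat_lit 172118) (nat_lit 12) (.e (nat_lit 475211) (nat_lit 41) (.e (nat_lit 712755) (nat_lit 30) (.e (nat_lit 450564) (nat_lit 0) (.e (nat_lit 5546) (nat_lit 306) .nil)))))) (.g (nat_lit 1) (.e (nat_lit 24390) (nat_lit 0) .nil) .nil))) 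
(.lf (nat_lit 453206) (.g (nat_lit 3794) (.e (nat_lit 2628) (nat_lit 164) (.e (nat_lit 172064) (nat_lit 2) (.e (nat_lit 196666) (nat_lit 13) (.e (nat_lit 65617) (nat_lit 10) (.e (nat_lit 344130) (nat_lit 26) (.e (nat_lit 557089) (nat_lit 12) (.e (nat_lit 163844) (nat_lit 0) (.e (nat_lit 6374) (nat_lit 337) .nil)))))))) (.g (nat_lit 1) (.e (nat_lit 27509) (nat_lit 0) .nil) .nil)))) 
(.nd (nat_lit 9) 
(.lf (nat_lit 452950) (.g (nat_lit 2716) (.e (nat_lit 2619) (nat_lit 164) (.e (nat_lit 172124) (nat_lit 14) (.e (nat_lit 491569) (nat_lit 13) (.e (nat_lit 393281) (nat_lit 23) (.e (nat_lit 426098) (nat_lit 1) (.e (nat_lit 164347) (nat_lit 240) .nil)))))) (.g (nat_lit 1) (.e (nat_lit 25471) (nat_lit 0) .nil) .nil))) 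
(.lf (nat_lit 453462) (.g (nat_lit 1818) (.e (nat_lit 2629) (nat_lit 164) (.e (nat_lit 172119) (nat_lit 12) (.e (nat_lit 475210) (nat_lit 41) (.e (nat_lit 712752) (nat_lit 29) (.e (nat_lit 442421) (nat_lit 21) .nil))))) (.g (nat_lit 0) (.e (nat_lit 29614) (nat_lit 0) .nil) .nil))))) (.nd (nat_lit 8) (.nd (nat_lit 9) 
(.lf (nat_lit 452822) (.g (nat_lit 2441) (.e (nat_lit 2619) (nat_lit 164) (.e (nat_lit 172118) (nat_lit 12) (.e (nat_lit 475211) (nat_lit 41) (.e (nat_lit 712755) (nat_lit 30) (.e (nat_lit 458496) (nat_lit 0) (.e (nat_lit 5543) (nat_lit 306) .nil)))))) (.g (nat_lit 1) (.e (nat_lit 25252) (nat_lit 0) .nil) .nil))) 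
(.lf (nat_lit 453334) (.g (nat_lit 2819) (.e (nat_lit 2628) (nat_lit 164) (.e (nat_lit 172124) (nat_lit 14) (.e (nat_lit 491549) (nat_lit 9) (.e (nat_lit 336430) (nat_lit 29) (.e (nat_lit 442421) (nat_lit 21) (.e (nat_lit 164345) (nat_lit 240) .nil)))))) (.g (nat_lit 1) (.e (nat_lit 28366) (nat_lit 0) .nil) .nil)))) (.nd (nat_lit 9) 
(.lf (nat_lit 453078) (.g (nat_lit 2733) (.e (nat_lit 2622) (nat_lit 164) (.e (nat_lit 172065) (nat_lit 3) (.e (nat_lit 204869) (nat_lit 29) (.e (nat_lit 360475) (nat_lit 8) (.e (nat_lit 557091) (nat_lit 12) .nil))))) (.g (nat_lit 0) (.e (nat_lit 26273) (nat_lit 0) .nil) .nil))) 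
(.lf (nat_lit 453590) (.g (nat_lit 2320) (.e (nat_lit 2629) (nat_lit 164) (.e (nat_lit 172126) (nat_lit 14) (.e (nat_lit 491549) (nat_lit 9) (.e (nat_lit 336434) (nat_lit 30) (.e (nat_lit 450561) (nat_lit 0) .nil))))) (.g (nat_lit 0) (.e (nat_lit 30262) (nat_lit 0) .nil) .nil))))))) (.nd (nat_lit 6) (.nd (nat_lit 7) (.nd (nat_lit 8) (.nd (nat_lit 9) 
(.lf (nat_lit 452662) (.g (nat_lit 2172) (.e (nat_lit 2617) (nat_lit 164) (.e (nat_lit 172126) (nat_lit 14) (.e (nat_lit 491549) (nat_lit 9) (.e (nat_lit 336432) (nat_lit 30) (.e (nat_lit 458496) (nat_lit 0) (.e (nat_lit 5543) (nat_lit 306) .nil)))))) (.g (nat_lit 1) (.e (nat_lit 23914) (nat_lit 0) .nil) .nil))) 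
(.lf (nat_lit 453174) (.g (nat_lit 2275) (.e (nat_lit 2626) (nat_lit 164) (.e (nat_lit 172126) (nat_lit 14) (.e (nat_lit 491540) (nat_lit 3) (.e (nat_lit 98373) (nat_lit 29) (.e (nat_lit 450560) (nat_lit 0) .nil))))) (.g (nat_lit 0) (.e (nat_lit 27277) (nat_lit 0) .nil) .nil)))) (.nd (nat_lit 9) 
(.lf (nat_lit 452918) (.g (nat_lit 2722) (.e (nat_lit 2619) (nat_lit 164) (.e (nat_lit 172124) (nat_lit 14) (.e (nat_lit 491549) (nat_lit 9) (.e (nat_lit 336443) (nat_lit 32) (.e (nat_lit 466968) (nat_lit 21) .nil))))) (.g (nat_lit 0) (.e (nat_lit 25428) (nat_lit 0) .nil) .nil))) 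
(.lf (nat_lit 453430) (.g (nat_lit 3809) (.e (nat_lit 2629) (nat_lit 164) (.e (nat_lit 172064) (nat_lit 2) (.e (nat_lit 196666) (nat_lit 13) (.e (nat_lit 65610) (nat_lit 10) (.e (nat_lit 344117) (nat_lit 21) (.e (nat_lit 516106) (nat_lit 0) (.e (nat_lit 2424) (nat_lit 157) (.e (nat_lit 4516) (nat_lit 263) .nil)))))))) (.g (nat_lit 1) (.e (nat_lit 29020) (nat_lit 0) .nil) .nil))))) 
(.nd (nat_lit 8) (.nd (nat_lit 9) 
(.lf (nat_lit 452790) (.g (nat_lit 2231) (.e (nat_lit 2619) (nat_lit 164) (.e (nat_lit 172118) (nat_lit 12) (.e (nat_lit 475198) (nat_lit 40) (.e (nat_lit 704598) (nat_lit 6) (.e (nat_lit 188446) (nat_lit 21) (.e (nat_lit 164345) (nat_lit 240) .nil)))))) (.g (nat_lit 1) (.e (nat_lit 25206) (nat_lit 0) .nil) .nil))) 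
(.lf (nat_lit 453302) (.g (nat_lit 3813) (.e (nat_lit 2628) (nat_lit 164) (.e (nat_lit 172120) (nat_lit 12) (.e (nat_lit 475210) (nat_lit 41) (.e (nat_lit 712753) (nat_lit 30) (.e (nat_lit 450561) (nat_lit 0) (.e (nat_lit 5537) (nat_lit 306) .nil)))))) (.g (nat_lit 1) (.e (nat_lit 28260) (nat_lit 0) .nil) .nil)))) (.nd (nat_lit 9) 
(.lf (nat_lit 453046) (.g (nat_lit 2952) (.e (nat_lit 2621) (nat_lit 164) (.e (nat_lit 172066) (nat_lit 3) (.e (nat_lit 204869) (nat_lit 29) (.e (nat_lit 360475) (nat_lit 8) (.e (nat_lit 557091) (nat_lit 12) (.e (nat_lit 163843) (nat_lit 0) (.e (nat_lit 6254) (nat_lit 337) .nil))))))) (.g (nat_lit 1) (.e (nat_lit 26175) (nat_lit 0) .nil) .nil))) 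
(.lf (nat_lit 453558) (.g (nat_lit 2643) (.e (nat_lit 2629) (nat_lit 164) (.e (nat_lit 172124) (nat_lit 14) (.e (nat_lit 491550) (nat_lit 9) (.e (nat_lit 336443) (nat_lit 32) (.e (nat_lit 466971) (nat_lit 21) (.e (nat_lit 164346) (nat_lit 240) .nil)))))) (.g (nat_lit 1) (.e (nat_lit 29781) (nat_lit 0) .nil) .nil)))))) (.nd (nat_lit 7) (.nd (nat_lit 8) (.nd (nat_lit 9) 
(.lf (nat_lit 452726) (.g (nat_lit 3213) (.e (nat_lit 2618) (nat_lit 164) (.e (nat_lit 172124) (nat_lit 14) (.e (nat_lit 491549) (nat_lit 9) (.e (nat_lit 336434) (nat_lit 30) (.e (nat_lit 450564) (nat_lit 0) (.e (nat_lit 5546) (nat_lit 306) .nil)))))) (.g (nat_lit 1) (.e (nat_lit 24460) (nat_lit 0) .nil) .nil))) 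
(.lf (nat_lit 453238) (.g (nat_lit 2948) (.e (nat_lit 2628) (nat_lit 164) (.e (nat_lit 172067) (nat_lit 3) (.e (nat_lit 204869) (nat_lit 29) (.e (nat_lit 360474) (nat_lit 8) (.e (nat_lit 557094) (nat_lit 12) (.e (nat_lit 171776) (nat_lit 0) (.e (nat_lit 6374) (nat_lit 337) .nil))))))) (.g (nat_lit 1) (.e (nat_lit 27589) (nat_lit 0) .nil) .nil)))) (.nd (nat_lit 9) 
(.lf (nat_lit 452982) (.g (nat_lit 3669) (.e (nat_lit 2619) (nat_lit 164) (.e (nat_lit 172126) (nat_lit 14) (.e (nat_lit 491549) (nat_lit 9) (.e (nat_lit 336434) (nat_lit 30) (.e (nat_lit 450564) (nat_lit 0) (.e (nat_lit 5546) (nat_lit 306) .nil)))))) (.g (nat_lit 1) (.e (nat_lit 25767) (nat_lit 0) .nil) .nil))) 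
(.lf (nat_lit 453494) (.g (nat_lit 1435) (.e (nat_lit 2629) (nat_lit 164) (.e (nat_lit 172120) (nat_lit 12) (.e (nat_lit 475210) (nat_lit 41) (.e (nat_lit 712755) (nat_lit 30) .nil)))) (.g (nat_lit 0) (.e (nat_lit 29669) (nat_lit 0) .nil) .nil))))) (.nd (nat_lit 8) (.nd (nat_lit 9) 
(.lf (nat_lit 452854) (.g (nat_lit 2872) (.e (nat_lit 2619) (nat_lit 164) (.e (nat_lit 172120) (nat_lit 12) (.e (nat_lit 475198) (nat_lit 40) (.e (nat_lit 704599) (nat_lit 6) (.e (nat_lit 188446) (nat_lit 21) (.e (nat_lit 164347) (nat_lit 240) .nil)))))) (.g (nat_lit 1) (.e (nat_lit 25295) (nat_lit 0) .nil) .nil))) 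
(.lf (nat_lit 453366) (.g (nat_lit 2997) (.e (nat_lit 2628) (nat_lit 164) (.e (nat_lit 172124) (nat_lit 14) (.e (nat_lit 491550) (nat_lit 9) (.e (nat_lit 336443) (nat_lit 32) (.e (nat_lit 466971) (nat_lit 21) (.e (nat_lit 164347) (nat_lit 240) .nil)))))) (.g (nat_lit 1) (.e (nat_lit 28399) (nat_lit 0) .nil) .nil)))) (.nd (nat_lit 9) 
(.lf (nat_lit 453110) (.g (nat_lit 3775) (.e (nat_lit 2623) (nat_lit 164) (.e (nat_lit 172119) (nat_lit 12) (.e (nat_lit 475185) (nat_lit 29) (.e (nat_lit 557109) (nat_lit 15) (.e (nat_lit 188455) (nat_lit 24) .nil))))) (.g (nat_lit 0) (.e (nat_lit 26480) (nat_lit 0) .nil) .nil))) 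
(.lf (nat_lit 453622) (.g (nat_lit 3200) (.e (nat_lit 2629) (nat_lit 164) (.e (nat_lit 172126) (nat_lit 14) (.e (nat_lit 491550) (nat_lit 9) (.e (nat_lit 336443) (nat_lit 32) (.e (nat_lit 466972) (nat_lit 21) (.e (nat_lit 164345) (nat_lit 240) .nil)))))) (.g (nat_lit 1) (.e (nat_lit 30297) (nat_lit 0) .nil) .nil))))))))) 
(.nd (nat_lit 4) (.nd (nat_lit 5) (.nd (nat_lit 6) (.nd (nat_lit 7) (.nd (nat_lit 8) 
(.nd (nat_lit 9) 
(.lf (nat_lit 452622) (.g (nat_lit 2032) (.e (nat_lit 2616) (nat_lit 164) (.e (nat_lit 172126) (nat_lit 14) (.e (nat_lit 491537) (nat_lit 2) (.e (nat_lit 90170) (nat_lit 13) (.e (nat_lit 172113) (nat_lit 10) (.e (nat_lit 434208) (nat_lit 18) (.e (nat_lit 3953) (nat_lit 239) .nil))))))) (.g (nat_lit 1) (.e (nat_lit 23563) (nat_lit 0) .nil) .nil))) 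
(.lf (nat_lit 453134) (.g (nat_lit 2318) (.e (nat_lit 2625) (nat_lit 164) (.e (nat_lit 172120) (nat_lit 12) (.e (nat_lit 475211) (nat_lit 41) (.e (nat_lit 712755) (nat_lit 30) (.e (nat_lit 450564) (nat_lit 0) (.e (nat_lit 5548) (nat_lit 306) .nil)))))) (.g (nat_lit 1) (.e (nat_lit 26848) (nat_lit 0) .nil) .nil)))) (.nd (nat_lit 9) 
(.lf (nat_lit 452878) (.g (nat_lit 3864) (.e (nat_lit 2619) (nat_lit 164) (.e (nat_lit 172120) (nat_lit 12) (.e (nat_lit 475210) (nat_lit 41) (.e (nat_lit 712755) (nat_lit 30) (.e (nat_lit 450566) (nat_lit 0) (.e (nat_lit 5548) (nat_lit 306) .nil)))))) (.g (nat_lit 1) (.e (nat_lit 25336) (nat_lit 0) .nil) .nil))) 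
(.lf (nat_lit 453390) (.g (nat_lit 3355) (.e (nat_lit 2628) (nat_lit 164) (.e (nat_lit 172126) (nat_lit 14) (.e (nat_lit 491549) (nat_lit 9) (.e (nat_lit 336430) (nat_lit 29) (.e (nat_lit 442419) (nat_lit 21) (.e (nat_lit 164345) (nat_lit 240) .nil)))))) (.g (nat_lit 1) (.e (nat_lit 28700) (nat_lit 0) .nil) .nil))))) (.nd (nat_lit 8) (.nd (nat_lit 9) 
(.lf (nat_lit 452750) (.g (nat_lit 1998) (.e (nat_lit 2618) (nat_lit 164) (.e (nat_lit 172126) (nat_lit 14) (.e (nat_lit 491549) (nat_lit 9) (.e (nat_lit 336426) (nat_lit 29) .nil)))) (.g (nat_lit 0) (.e (nat_lit 24642) (nat_lit 0) .nil) .nil))) 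
(.lf (nat_lit 453262) (.g (nat_lit 1731) (.e (nat_lit 2628) (nat_lit 164) (.e (nat_lit 172118) (nat_lit 12) (.e (nat_lit 475210) (nat_lit 41) (.e (nat_lit 712753) (nat_lit 30) (.e (nat_lit 458496) (nat_lit 0) (.e (nat_lit 5546) (nat_lit 306) .nil)))))) (.g (nat_lit 1) (.e (nat_lit 28187) (nat_lit 0) .nil) .nil)))) (.nd (nat_lit 9) 
(.lf (nat_lit 453006) (.g (nat_lit 3331) (.e (nat_lit 2619) (nat_lit 164) (.e (nat_lit 172126) (nat_lit 14) (.e (nat_lit 491550) (nat_lit 9) (.e (nat_lit 336443) (nat_lit 32) (.e (nat_lit 466971) (nat_lit 21) (.e (nat_lit 164347) (nat_lit 240) .nil)))))) (.g (nat_lit 1) (.e (nat_lit 25792) (nat_lit 0) .nil) .nil))) 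
(.lf (nat_lit 453518) (.g (nat_lit 2728) (.e (nat_lit 2629) (nat_lit 164) (.e (nat_lit 172124) (nat_lit 14) (.e (nat_lit 491540) (nat_lit 3) (.e (nat_lit 98373) (nat_lit 29) (.e (nat_lit 450560) (nat_lit 0) (.e (nat_lit 3936) (nat_lit 239) .nil)))))) (.g (nat_lit 1) (.e (nat_lit 29712) (nat_lit 0) .nil) .nil)))))) (.nd (nat_lit 7) (.nd (nat_lit 8) (.nd (nat_lit 9) 
(.lf (nat_lit 452686) (.g (nat_lit 1163) (.e (nat_lit 2618) (nat_lit 164) (.e (nat_lit 172118) (nat_lit 12) (.e (nat_lit 475198) (nat_lit 40) (.e (nat_lit 704599) (nat_lit 6) .nil)))) (.g (nat_lit 0) (.e (nat_lit 24375) (nat_lit 0) .nil) .nil))) 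
(.lf (nat_lit 453198) (.g (nat_lit 3339) (.e (nat_lit 2628) (nat_lit 164) (.e (nat_lit 172062) (nat_lit 2) (.e (nat_lit 196666) (nat_lit 13) (.e (nat_lit 65617) (nat_lit 10) (.e (nat_lit 344133) (nat_lit 26) (.e (nat_lit 557091) (nat_lit 12) (.e (nat_lit 163840) (nat_lit 0) (.e (nat_lit 6374) (nat_lit 337) .nil)))))))) (.g (nat_lit 1) (.e (nat_lit 27497) (nat_lit 0) .nil) .nil)))) 
(.nd (nat_lit 9) 
(.lf (nat_lit 452942) (.g (nat_lit 2270) (.e (nat_lit 2619) (nat_lit 164) (.e (nat_lit 172124) (nat_lit 14) (.e (nat_lit 491568) (nat_lit 13) (.e (nat_lit 393266) (nat_lit 23) (.e (nat_lit 426109) (nat_lit 1) .nil))))) (.g (nat_lit 0) (.e (nat_lit 25458) (nat_lit 0) .nil) .nil))) 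
(.lf (nat_lit 453454) (.g (nat_lit 1533) (.e (nat_lit 2629) (nat_lit 164) (.e (nat_lit 172118) (nat_lit 12) (.e (nat_lit 475211) (nat_lit 41) (.e (nat_lit 712753) (nat_lit 30) (.e (nat_lit 458496) (nat_lit 0) .nil))))) (.g (nat_lit 0) (.e (nat_lit 29596) (nat_lit 0) .nil) .nil))))) (.nd (nat_lit 8) (.nd (nat_lit 9) 
(.lf (nat_lit 452814) (.g (nat_lit 3286) (.e (nat_lit 2619) (nat_lit 164) (.e (nat_lit 172118) (nat_lit 12) (.e (nat_lit 475211) (nat_lit 41) (.e (nat_lit 712753) (nat_lit 30) (.e (nat_lit 450561) (nat_lit 0) (.e (nat_lit 5537) (nat_lit 306) .nil)))))) (.g (nat_lit 1) (.e (nat_lit 25244) (nat_lit 0) .nil) .nil))) 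
(.lf (nat_lit 453326) (.g (nat_lit 2963) (.e (nat_lit 2628) (nat_lit 164) (.e (nat_lit 172124) (nat_lit 14) (.e (nat_lit 491540) (nat_lit 3) (.e (nat_lit 98373) (nat_lit 29) (.e (nat_lit 450567) (nat_lit 0) (.e (nat_lit 3978) (nat_lit 239) .nil)))))) (.g (nat_lit 1) (.e (nat_lit 28337) (nat_lit 0) .nil) .nil)))) (.nd (nat_lit 9) 
(.lf (nat_lit 453070) (.g (nat_lit 2069) (.e (nat_lit 2621) (nat_lit 164) (.e (nat_lit 172126) (nat_lit 14) (.e (nat_lit 491549) (nat_lit 9) (.e (nat_lit 336434) (nat_lit 30) .nil)))) (.g (nat_lit 0) (.e (nat_lit 26250) (nat_lit 0) .nil) .nil))) 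
(.lf (nat_lit 453582) (.g (nat_lit 3482) (.e (nat_lit 2629) (nat_lit 164) (.e (nat_lit 172126) (nat_lit 14) (.e (nat_lit 491549) (nat_lit 9) (.e (nat_lit 336430) (nat_lit 29) (.e (nat_lit 442419) (nat_lit 21) (.e (nat_lit 164346) (nat_lit 240) .nil)))))) (.g (nat_lit 1) (.e (nat_lit 30253) (nat_lit 0) .nil) .nil))))))) (.nd (nat_lit 6) (.nd (nat_lit 7) (.nd (nat_lit 8) (.nd (nat_lit 9) 
(.lf (nat_lit 452654) (.g (nat_lit 2969) (.e (nat_lit 2617) (nat_lit 164) (.e (nat_lit 172126) (nat_lit 14) (.e (nat_lit 491547) (nat_lit 9) (.e (nat_lit 336443) (nat_lit 32) (.e (nat_lit 466972) (nat_lit 21) (.e (nat_lit 164345) (nat_lit 240) .nil)))))) (.g (nat_lit 1) (.e (nat_lit 23871) (nat_lit 0) .nil) .nil))) 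
(.lf (nat_lit 453166) (.g (nat_lit 3856) (.e (nat_lit 2626) (nat_lit 164) (.e (nat_lit 172126) (nat_lit 14) (.e (nat_lit 491537) (nat_lit 2) (.e (nat_lit 90170) (nat_lit 13) (.e (nat_lit 172113) (nat_lit 10) (.e (nat_lit 434203) (nat_lit 18) (.e (nat_lit 3970) (nat_lit 239) .nil))))))) (.g (nat_lit 1) (.e (nat_lit 27261) (nat_lit 0) .nil) .nil)))) (.nd (nat_lit 9) 
(.lf (nat_lit 452910) (.g (nat_lit 3922) (.e (nat_lit 2619) (nat_lit 164) (.e (nat_lit 172124) (nat_lit 14) (.e (nat_lit 491549) (nat_lit 9) (.e (nat_lit 336430) (nat_lit 29) (.e (nat_lit 442421) (nat_lit 21) (.e (nat_lit 164348) (nat_lit 240) .nil)))))) (.g (nat_lit 1) (.e (nat_lit 25420) (nat_lit 0) .nil) .nil))) 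
(.lf (nat_lit 453422) (.g (nat_lit 3838) (.e (nat_lit 2628) (nat_lit 164) (.e (nat_lit 172126) (nat_lit 14) (.e (nat_lit 491550) (nat_lit 9) (.e (nat_lit 336443) (nat_lit 32) (.e (nat_lit 466971) (nat_lit 21) (.e (nat_lit 164348) (nat_lit 240) .nil)))))) (.g (nat_lit 1) (.e (nat_lit 28734) (nat_lit 0) .nil) .nil))))) (.nd (nat_lit 8) (.nd (nat_lit 9) 
(.lf (nat_lit 452782) (.g (nat_lit 3449) (.e (nat_lit 2619) (nat_lit 164) (.e (nat_lit 172064) (nat_lit 2) (.e (nat_lit 196666) (nat_lit 13) (.e (nat_lit 65610) (nat_lit 10) (.e (nat_lit 344117) (nat_lit 21) (.e (nat_lit 516099) (nat_lit 0) (.e (nat_lit 2492) (nat_lit 157) (.e (nat_lit 4506) (nat_lit 263) .nil)))))))) (.g (nat_lit 1) (.e (nat_lit 24761) (nat_lit 0) .nil) .nil))) 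
(.lf (nat_lit 453294) (.g (nat_lit 2062) (.e (nat_lit 2628) (nat_lit 164) (.e (nat_lit 172120) (nat_lit 12) (.e (nat_lit 475198) (nat_lit 40) (.e (nat_lit 704599) (nat_lit 6) (.e (nat_lit 188445) (nat_lit 21) (.e (nat_lit 164348) (nat_lit 240) .nil)))))) (.g (nat_lit 1) (.e (nat_lit 28233) (nat_lit 0) .nil) .nil)))) (.nd (nat_lit 9) 
(.lf (nat_lit 453038) (.g (nat_lit 1962) (.e (nat_lit 2620) (nat_lit 164) (.e (nat_lit 172120) (nat_lit 12) (.e (nat_lit 475198) (nat_lit 40) (.e (nat_lit 704599) (nat_lit 6) (.e (nat_lit 188453) (nat_lit 24) .nil))))) (.g (nat_lit 0) (.e (nat_lit 26028) (nat_lit 0) .nil) .nil))) 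
(.lf (nat_lit 453550) (.g (nat_lit 3464) (.e (nat_lit 2629) (nat_lit 164) (.e (nat_lit 172124) (nat_lit 14) (.e (nat_lit 491550) (nat_lit 9) (.e (nat_lit 336430) (nat_lit 29) (.e (nat_lit 442421) (nat_lit 21) (.e (nat_lit 164347) (nat_lit 240) .nil)))))) (.g (nat_lit 1) (.e (nat_lit 29772) (nat_lit 0) .nil) .nil)))))) (.nd (nat_lit 7) (.nd (nat_lit 8) (.nd (nat_lit 9) 
(.lf (nat_lit 452718) (.g (nat_lit 2121) (.e (nat_lit 2618) (nat_lit 164) (.e (nat_lit 172120) (nat_lit 12) (.e (nat_lit 475211) (nat_lit 41) (.e (nat_lit 712753) (nat_lit 30) (.e (nat_lit 458496) (nat_lit 0) (.e (nat_lit 5543) (nat_lit 306) .nil)))))) (.g (nat_lit 1) (.e (nat_lit 24444) (nat_lit 0) .nil) .nil))) 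
(.lf (nat_lit 453230) (.g (nat_lit 3103) (.e (nat_lit 2628) (nat_lit 164) (.e (nat_lit 172066) (nat_lit 3) (.e (nat_lit 204869) (nat_lit 29) (.e (nat_lit 360475) (nat_lit 8) (.e (nat_lit 557091) (nat_lit 12) (.e (nat_lit 163847) (nat_lit 0) (.e (nat_lit 6374) (nat_lit 337) .nil))))))) (.g (nat_lit 1) (.e (nat_lit 27553) (nat_lit 0) .nil) .nil)))) (.nd (nat_lit 9) 
(.lf (nat_lit 452974) (.g (nat_lit 3164) (.e (nat_lit 2619) (nat_lit 164) (.e (nat_lit 172126) (nat_lit 14) (.e (nat_lit 491549) (nat_lit 9) (.e (nat_lit 336430) (nat_lit 29) (.e (nat_lit 442419) (nat_lit 21) (.e (nat_lit 164347) (nat_lit 240) .nil)))))) (.g (nat_lit 1) (.e (nat_lit 25759) (nat_lit 0) .nil) .nil))) 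
(.lf (nat_lit 453486) (.g (nat_lit 2221) (.e (nat_lit 2629) (nat_lit 164) (.e (nat_lit 172120) (nat_lit 12) (.e (nat_lit 475209) (nat_lit 41) (.e (nat_lit 712752) (nat_lit 29) (.e (nat_lit 442421) (nat_lit 21) (.e (nat_lit 164345) (nat_lit 240) .nil)))))) (.g (nat_lit 1) (.e (nat_lit 29656) (nat_lit 0) .nil) .nil))))) (.nd (nat_lit 8) (.nd (nat_lit 9) 
(.lf (nat_lit 452846) (.g (nat_lit 2489) (.e (nat_lit 2619) (nat_lit 164) (.e (nat_lit 172120) (nat_lit 12) (.e (nat_lit 475198) (nat_lit 40) (.e (nat_lit 704598) (nat_lit 6) (.e (nat_lit 188444) (nat_lit 21) (.e (nat_lit 164346) (nat_lit 240) .nil)))))) (.g (nat_lit 1) (.e (nat_lit 25287) (nat_lit 0) .nil) .nil))) 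
(.lf (nat_lit 453358) (.g (nat_lit 1688) (.e (nat_lit 2628) (nat_lit 164) (.e (nat_lit 172124) (nat_lit 14) (.e (nat_lit 491550) (nat_lit 9) (.e (nat_lit 336432) (nat_lit 30) (.e (nat_lit 458496) (nat_lit 0) (.e (nat_lit 5543) (nat_lit 306) .nil)))))) (.g (nat_lit 1) (.e (nat_lit 28391) (nat_lit 0) .nil) .nil)))) (.nd (nat_lit 9) 
(.lf (nat_lit 453102) (.g (nat_lit 2769) (.e (nat_lit 2622) (nat_lit 164) (.e (nat_lit 172124) (nat_lit 14) (.e (nat_lit 491549) (nat_lit 9) (.e (nat_lit 336432) (nat_lit 30) (.e (nat_lit 450568) (nat_lit 0) (.e (nat_lit 5448) (nat_lit 306) .nil)))))) (.g (nat_lit 1) (.e (nat_lit 26367) (nat_lit 0) .nil) .nil))) 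
(.lf (nat_lit 453614) (.g (nat_lit 1912) (.e (nat_lit 2629) (nat_lit 164) (.e (nat_lit 172126) (nat_lit 14) (.e (nat_lit 491550) (nat_lit 9) (.e (nat_lit 336434) (nat_lit 30) (.e (nat_lit 450564) (nat_lit 0) (.e (nat_lit 5547) (nat_lit 306) .nil)))))) (.g (nat_lit 1) (.e (nat_lit 30289) (nat_lit 0) .nil) .nil)))))))) 
(.nd (nat_lit 5) (.nd (nat_lit 6) (.nd (nat_lit 7) (.nd (nat_lit 8) (.nd (nat_lit 9) 
(.lf (nat_lit 452638) (.g (nat_lit 2869) (.e (nat_lit 2617) (nat_lit 164) (.e (nat_lit 172120) (nat_lit 12) (.e (nat_lit 475211) (nat_lit 41) (.e (nat_lit 712750) (nat_lit 29) (.e (nat_lit 442421) (nat_lit 21) (.e (nat_lit 164347) (nat_lit 240) .nil)))))) (.g (nat_lit 1) (.e (nat_lit 23790) (nat_lit 0) .nil) .nil))) 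
(.lf (nat_lit 453150) (.g (nat_lit 2697) (.e (nat_lit 2625) (nat_lit 164) (.e (nat_lit 172126) (nat_lit 14) (.e (nat_lit 491540) (nat_lit 3) (.e (nat_lit 98373) (nat_lit 29) (.e (nat_lit 450560) (nat_lit 0) (.e (nat_lit 3970) (nat_lit 239) .nil)))))) (.g (nat_lit 1) (.e (nat_lit 26980) (nat_lit 0) .nil) .nil)))) (.nd (nat_lit 9) 
(.lf (nat_lit 452894) (.g (nat_lit 3415) (.e (nat_lit 2619) (nat_lit 164) (.e (nat_lit 172120) (nat_lit 12) (.e (nat_lit 475211) (nat_lit 41) (.e (nat_lit 712755) (nat_lit 30) (.e (nat_lit 450564) (nat_lit 0) (.e (nat_lit 5546) (nat_lit 306) .nil)))))) (.g (nat_lit 1) (.e (nat_lit 25353) (nat_lit 0) .nil) .nil))) 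
(.lf (nat_lit 453406) (.g (nat_lit 3734) (.e (nat_lit 2628) (nat_lit 164) (.e (nat_lit 172126) (nat_lit 14) (.e (nat_lit 491549) (nat_lit 9) (.e (nat_lit 336443) (nat_lit 32) (.e (nat_lit 466971) (nat_lit 21) (.e (nat_lit 164348) (nat_lit 240) .nil)))))) (.g (nat_lit 1) (.e (nat_lit 28716) (nat_lit 0) .nil) .nil))))) (.nd (nat_lit 8) (.nd (nat_lit 9) 
(.lf (nat_lit 452766) (.g (nat_lit 4142) (.e (nat_lit 2619) (nat_lit 164) (.e (nat_lit 172062) (nat_lit 2) (.e (nat_lit 196666) (nat_lit 13) (.e (nat_lit 65610) (nat_lit 10) (.e (nat_lit 344117) (nat_lit 21) (.e (nat_lit 516097) (nat_lit 0) (.e (nat_lit 2401) (nat_lit 157) (.e (nat_lit 4507) (nat_lit 263) .nil)))))))) (.g (nat_lit 1) (.e (nat_lit 24738) (nat_lit 0) .nil) .nil))) 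
(.lf (nat_lit 453278) (.g (nat_lit 1633) (.e (nat_lit 2628) (nat_lit 164) (.e (nat_lit 172118) (nat_lit 12) (.e (nat_lit 475211) (nat_lit 41) (.e (nat_lit 712753) (nat_lit 30) (.e (nat_lit 458496) (nat_lit 0) (.e (nat_lit 5546) (nat_lit 306) .nil)))))) (.g (nat_lit 1) (.e (nat_lit 28206) (nat_lit 0) .nil) .nil)))) (.nd (nat_lit 9) 
(.lf (nat_lit 453022) (.g (nat_lit 2320) (.e (nat_lit 2620) (nat_lit 164) (.e (nat_lit 172062) (nat_lit 2) (.e (nat_lit 196666) (nat_lit 13) (.e (nat_lit 65617) (nat_lit 10) (.e (nat_lit 344133) (nat_lit 26) (.e (nat_lit 557091) (nat_lit 12) (.e (nat_lit 163847) (nat_lit 0) (.e (nat_lit 6252) (nat_lit 337) .nil)))))))) (.g (nat_lit 1) (.e (nat_lit 25992) (nat_lit 0) .nil) .nil))) 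
(.lf (nat_lit 453534) (.g (nat_lit 1956) (.e (nat_lit 2629) (nat_lit 164) (.e (nat_lit 172124) (nat_lit 14) (.e (nat_lit 491549) (nat_lit 9) (.e (nat_lit 336432) (nat_lit 30) (.e (nat_lit 450565) (nat_lit 0) (.e (nat_lit 5546) (nat_lit 306) .nil)))))) (.g (nat_lit 1) (.e (nat_lit 29753) (nat_lit 0) .nil) .nil)))))) (.nd (nat_lit 7) (.nd (nat_lit 8) (.nd (nat_lit 9) 
(.lf (nat_lit 452702) (.g (nat_lit 2299) (.e (nat_lit 2618) (nat_lit 164) (.e (nat_lit 172119) (nat_lit 12) (.e (nat_lit 475211) (nat_lit 41) (.e (nat_lit 712755) (nat_lit 30) (.e (nat_lit 450564) (nat_lit 0) (.e (nat_lit 5546) (nat_lit 306) .nil)))))) (.g (nat_lit 1) (.e (nat_lit 24406) (nat_lit 0) .nil) .nil))) 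
(.lf (nat_lit 453214) (.g (nat_lit 2639) (.e (nat_lit 2628) (nat_lit 164) (.e (nat_lit 172065) (nat_lit 3) (.e (nat_lit 204869) (nat_lit 29) (.e (nat_lit 360475) (nat_lit 8) (.e (nat_lit 557089) (nat_lit 12) .nil))))) (.g (nat_lit 0) (.e (nat_lit 27537) (nat_lit 0) .nil) .nil)))) (.nd (nat_lit 9) 
(.lf (nat_lit 452958) (.g (nat_lit 1500) (.e (nat_lit 2619) (nat_lit 164) (.e (nat_lit 172126) (nat_lit 14) (.e (nat_lit 491547) (nat_lit 9) (.e (nat_lit 336432) (nat_lit 30) (.e (nat_lit 458496) (nat_lit 0) .nil))))) (.g (nat_lit 0) (.e (nat_lit 25723) (nat_lit 0) .nil) .nil))) 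
(.lf (nat_lit 453470) (.g (nat_lit 1734) (.e (nat_lit 2629) (nat_lit 164) (.e (nat_lit 172119) (nat_lit 12) (.e (nat_lit 475211) (nat_lit 41) (.e (nat_lit 712753) (nat_lit 30) (.e (nat_lit 450564) (nat_lit 0) .nil))))) (.g (nat_lit 0) (.e (nat_lit 29622) (nat_lit 0) .nil) .nil))))) (.nd (nat_lit 8) (.nd (nat_lit 9) 
(.lf (nat_lit 452830) (.g (nat_lit 2058) (.e (nat_lit 2619) (nat_lit 164) (.e (nat_lit 172119) (nat_lit 12) (.e (nat_lit 475210) (nat_lit 41) (.e (nat_lit 712755) (nat_lit 30) (.e (nat_lit 450566) (nat_lit 0) .nil))))) (.g (nat_lit 0) (.e (nat_lit 25265) (nat_lit 0) .nil) .nil))) 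
(.lf (nat_lit 453342) (.g (nat_lit 2211) (.e (nat_lit 2628) (nat_lit 164) (.e (nat_lit 172124) (nat_lit 14) (.e (nat_lit 491549) (nat_lit 9) (.e (nat_lit 336434) (nat_lit 30) (.e (nat_lit 450564) (nat_lit 0) (.e (nat_lit 5547) (nat_lit 306) .nil)))))) (.g (nat_lit 1) (.e (nat_lit 28374) (nat_lit 0) .nil) .nil)))) (.nd (nat_lit 9) 
(.lf (nat_lit 453086) (.g (nat_lit 2836) (.e (nat_lit 2622) (nat_lit 164) (.e (nat_lit 172066) (nat_lit 3) (.e (nat_lit 204869) (nat_lit 29) (.e (nat_lit 360475) (nat_lit 8) (.e (nat_lit 557091) (nat_lit 12) .nil))))) (.g (nat_lit 0) (.e (nat_lit 26281) (nat_lit 0) .nil) .nil))) 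
(.lf (nat_lit 453598) (.g (nat_lit 3143) (.e (nat_lit 2629) (nat_lit 164) (.e (nat_lit 172126) (nat_lit 14) (.e (nat_lit 491549) (nat_lit 9) (.e (nat_lit 336443) (nat_lit 32) (.e (nat_lit 466971) (nat_lit 21) (.e (nat_lit 164345) (nat_lit 240) .nil)))))) (.g (nat_lit 1) (.e (nat_lit 30270) (nat_lit 0) .nil) .nil))))))) (.nd (nat_lit 6) (.nd (nat_lit 7) (.nd (nat_lit 8) (.nd (nat_lit 9) 
(.lf (nat_lit 452670) (.g (nat_lit 2979) (.e (nat_lit 2617) (nat_lit 164) (.e (nat_lit 172126) (nat_lit 14) (.e (nat_lit 491549) (nat_lit 9) (.e (nat_lit 336443) (nat_lit 32) (.e (nat_lit 466971) (nat_lit 21) (.e (nat_lit 164345) (nat_lit 240) .nil)))))) (.g (nat_lit 1) (.e (nat_lit 23922) (nat_lit 0) .nil) .nil))) 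
(.lf (nat_lit 453182) (.g (nat_lit 4002) (.e (nat_lit 2626) (nat_lit 164) (.e (nat_lit 172126) (nat_lit 14) (.e (nat_lit 491540) (nat_lit 3) (.e (nat_lit 98373) (nat_lit 29) (.e (nat_lit 450568) (nat_lit 0) (.e (nat_lit 3966) (nat_lit 239) .nil)))))) (.g (nat_lit 1) (.e (nat_lit 27287) (nat_lit 0) .nil) .nil)))) (.nd (nat_lit 9) 
(.lf (nat_lit 452926) (.g (nat_lit 3460) (.e (nat_lit 2619) (nat_lit 164) (.e (nat_lit 172124) (nat_lit 14) (.e (nat_lit 491549) (nat_lit 9) (.e (nat_lit 336443) (nat_lit 32) (.e (nat_lit 466972) (nat_lit 21) (.e (nat_lit 164345) (nat_lit 240) .nil)))))) (.g (nat_lit 1) (.e (nat_lit 25436) (nat_lit 0) .nil) .nil))) 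
(.lf (nat_lit 453438) (.g (nat_lit 2398) (.e (nat_lit 2629) (nat_lit 164) (.e (nat_lit 172118) (nat_lit 12) (.e (nat_lit 475210) (nat_lit 41) (.e (nat_lit 712753) (nat_lit 30) (.e (nat_lit 450564) (nat_lit 0) (.e (nat_lit 5548) (nat_lit 306) .nil)))))) (.g (nat_lit 1) (.e (nat_lit 29580) (nat_lit 0) .nil) .nil))))) (.nd (nat_lit 8) (.nd (nat_lit 9) 
(.lf (nat_lit 452798) (.g (nat_lit 2678) (.e (nat_lit 2619) (nat_lit 164) (.e (nat_lit 172118) (nat_lit 12) (.e (nat_lit 475199) (nat_lit 40) (.e (nat_lit 704598) (nat_lit 6) (.e (nat_lit 188446) (nat_lit 21) (.e (nat_lit 164348) (nat_lit 240) .nil)))))) (.g (nat_lit 1) (.e (nat_lit 25217) (nat_lit 0) .nil) .nil))) 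
(.lf (nat_lit 453310) (.g (nat_lit 2232) (.e (nat_lit 2628) (nat_lit 164) (.e (nat_lit 172120) (nat_lit 12) (.e (nat_lit 475210) (nat_lit 41) (.e (nat_lit 712755) (nat_lit 30) (.e (nat_lit 458496) (nat_lit 0) (.e (nat_lit 5546) (nat_lit 306) .nil)))))) (.g (nat_lit 1) (.e (nat_lit 28269) (nat_lit 0) .nil) .nil)))) (.nd (nat_lit 9) 
(.lf (nat_lit 453054) (.g (nat_lit 2777) (.e (nat_lit 2621) (nat_lit 164) (.e (nat_lit 172067) (nat_lit 3) (.e (nat_lit 204869) (nat_lit 29) (.e (nat_lit 360475) (nat_lit 8) (.e (nat_lit 557091) (nat_lit 12) (.e (nat_lit 163847) (nat_lit 0) (.e (nat_lit 6255) (nat_lit 337) .nil))))))) (.g (nat_lit 1) (.e (nat_lit 26202) (nat_lit 0) .nil) .nil))) 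
(.lf (nat_lit 453566) (.g (nat_lit 3889) (.e (nat_lit 2629) (nat_lit 164) (.e (nat_lit 172126) (nat_lit 14) (.e (nat_lit 491540) (nat_lit 3) (.e (nat_lit 98373) (nat_lit 29) (.e (nat_lit 450560) (nat_lit 0) (.e (nat_lit 3991) (nat_lit 239) .nil)))))) (.g (nat_lit 1) (.e (nat_lit 30201) (nat_lit 0) .nil) .nil)))))) (.nd (nat_lit 7) (.nd (nat_lit 8) (.nd (nat_lit 9) 
(.lf (nat_lit 452734) (.g (nat_lit 2717) (.e (nat_lit 2618) (nat_lit 164) (.e (nat_lit 172124) (nat_lit 14) (.e (nat_lit 491550) (nat_lit 9) (.e (nat_lit 336434) (nat_lit 30) (.e (nat_lit 450564) (nat_lit 0) (.e (nat_lit 5546) (nat_lit 306) .nil)))))) (.g (nat_lit 1) (.e (nat_lit 24469) (nat_lit 0) .nil) .nil))) 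
(.lf (nat_lit 453246) (.g (nat_lit 2168) (.e (nat_lit 2628) (nat_lit 164) (.e (nat_lit 172118) (nat_lit 12) (.e (nat_lit 475198) (nat_lit 40) (.e (nat_lit 704598) (nat_lit 6) (.e (nat_lit 188444) (nat_lit 21) (.e (nat_lit 164345) (nat_lit 240) .nil)))))) (.g (nat_lit 1) (.e (nat_lit 28157) (nat_lit 0) .nil) .nil)))) (.nd (nat_lit 9) 
(.lf (nat_lit 452990) (.g (nat_lit 3047) (.e (nat_lit 2619) (nat_lit 164) (.e (nat_lit 172126) (nat_lit 14) (.e (nat_lit 491549) (nat_lit 9) (.e (nat_lit 336443) (nat_lit 32) (.e (nat_lit 466971) (nat_lit 21) (.e (nat_lit 164345) (nat_lit 240) .nil)))))) (.g (nat_lit 1) (.e (nat_lit 25775) (nat_lit 0) .nil) .nil))) 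
(.lf (nat_lit 453502) (.g (nat_lit 2981) (.e (nat_lit 2629) (nat_lit 164) (.e (nat_lit 172120) (nat_lit 12) (.e (nat_lit 475211) (nat_lit 41) (.e (nat_lit 712750) (nat_lit 29) (.e (nat_lit 442421) (nat_lit 21) (.e (nat_lit 164347) (nat_lit 240) .nil)))))) (.g (nat_lit 1) (.e (nat_lit 29678) (nat_lit 0) .nil) .nil))))) (.nd (nat_lit 8) (.nd (nat_lit 9) 
(.lf (nat_lit 452862) (.g (nat_lit 3807) (.e (nat_lit 2619) (nat_lit 164) (.e (nat_lit 172120) (nat_lit 12) (.e (nat_lit 475210) (nat_lit 41) (.e (nat_lit 712752) (nat_lit 29) (.e (nat_lit 442421) (nat_lit 21) (.e (nat_lit 164346) (nat_lit 240) .nil)))))) (.g (nat_lit 1) (.e (nat_lit 25319) (nat_lit 0) .nil) .nil))) 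
(.lf (nat_lit 453374) (.g (nat_lit 3332) (.e (nat_lit 2628) (nat_lit 164) (.e (nat_lit 172126) (nat_lit 14) (.e (nat_lit 491540) (nat_lit 3) (.e (nat_lit 98370) (nat_lit 28) (.e (nat_lit 442430) (nat_lit 24) (.e (nat_lit 229535) (nat_lit 134) .nil)))))) (.g (nat_lit 1) (.e (nat_lit 28653) (nat_lit 0) .nil) .nil)))) (.nd (nat_lit 9) 
(.lf (nat_lit 453118) (.g (nat_lit 1964) (.e (nat_lit 2625) (nat_lit 164) (.e (nat_lit 172119) (nat_lit 12) (.e (nat_lit 475211) (nat_lit 41) (.e (nat_lit 712755) (nat_lit 30) (.e (nat_lit 450563) (nat_lit 0) (.e (nat_lit 5537) (nat_lit 306) .nil)))))) (.g (nat_lit 1) (.e (nat_lit 26772) (nat_lit 0) .nil) .nil))) 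
(.lf (nat_lit 453630) (.g (nat_lit 4304) (.e (nat_lit 2630) (nat_lit 164) (.e (nat_lit 172062) (nat_lit 2) (.e (nat_lit 196666) (nat_lit 13) (.e (nat_lit 65610) (nat_lit 10) (.e (nat_lit 344129) (nat_lit 26) (.e (nat_lit 557089) (nat_lit 12) (.e (nat_lit 163844) (nat_lit 0) (.e (nat_lit 6252) (nat_lit 337) .nil)))))))) (.g (nat_lit 1) (.e (nat_lit 30543) (nat_lit 0) .nil) .nil)))))))))))) 
(.nd (nat_lit 1) (.nd (nat_lit 2) (.nd (nat_lit 3) (.nd (nat_lit 4) (.nd (nat_lit 5) 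
(.nd (nat_lit 6) (.nd (nat_lit 7) (.nd (nat_lit 8) (.nd (nat_lit 9) 
(.lf (nat_lit 452609) (.g (nat_lit 4316) (.e (nat_lit 2612) (nat_lit 163) (.e (nat_lit 164403) (nat_lit 256) (.e (nat_lit 57378) (nat_lit 3) (.e (nat_lit 98368) (nat_lit 27) (.e (nat_lit 434247) (nat_lit 28) (.e (nat_lit 573489) (nat_lit 14) (.e (nat_lit 73755) (nat_lit 8) (.e (nat_lit 557065) (nat_lit 9) .nil)))))))) (.g (nat_lit 1) (.e (nat_lit 23293) (nat_lit 0) .nil) .nil))) 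
(.lf (nat_lit 453121) (.g (nat_lit 2247) (.e (nat_lit 2625) (nat_lit 164) (.e (nat_lit 172120) (nat_lit 12) (.e (nat_lit 475185) (nat_lit 29) (.e (nat_lit 557109) (nat_lit 15) .nil)))) (.g (nat_lit 0) (.e (nat_lit 26775) (nat_lit 0) .nil) .nil)))) (.nd (nat_lit 9) 
(.lf (nat_lit 452865) (.g (nat_lit 3637) (.e (nat_lit 2619) (nat_lit 164) (.e (nat_lit 172120) (nat_lit 12) (.e (nat_lit 475210) (nat_lit 41) (.e (nat_lit 712753) (nat_lit 30) (.e (nat_lit 450561) (nat_lit 0) (.e (nat_lit 5537) (nat_lit 306) .nil)))))) (.g (nat_lit 1) (.e (nat_lit 25322) (nat_lit 0) .nil) .nil))) 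
(.lf (nat_lit 453377) (.g (nat_lit 3572) (.e (nat_lit 2628) (nat_lit 164) (.e (nat_lit 172126) (nat_lit 14) (.e (nat_lit 491540) (nat_lit 3) (.e (nat_lit 98373) (nat_lit 29) (.e (nat_lit 450560) (nat_lit 0) (.e (nat_lit 3991) (nat_lit 239) .nil)))))) (.g (nat_lit 1) (.e (nat_lit 28656) (nat_lit 0) .nil) .nil))))) (.nd (nat_lit 8) (.nd (nat_lit 9) 
(.lf (nat_lit 452737) (.g (nat_lit 3218) (.e (nat_lit 2618) (nat_lit 164) (.e (nat_lit 172124) (nat_lit 14) (.e (nat_lit 491550) (nat_lit 9) (.e (nat_lit 336443) (nat_lit 32) (.e (nat_lit 466972) (nat_lit 21) (.e (nat_lit 164345) (nat_lit 240) .nil)))))) (.g (nat_lit 1) (.e (nat_lit 24472) (nat_lit 0) .nil) .nil))) 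
(.lf (nat_lit 453249) (.g (nat_lit 1012) (.e (nat_lit 2628) (nat_lit 164) (.e (nat_lit 172118) (nat_lit 12) (.e (nat_lit 475198) (nat_lit 40) (.e (nat_lit 704599) (nat_lit 6) .nil)))) (.g (nat_lit 0) (.e (nat_lit 28160) (nat_lit 0) .nil) .nil)))) (.nd (nat_lit 9) 
(.lf (nat_lit 452993) (.g (nat_lit 2978) (.e (nat_lit 2619) (nat_lit 164) (.e (nat_lit 172126) (nat_lit 14) (.e (nat_lit 491549) (nat_lit 9) (.e (nat_lit 336443) (nat_lit 32) (.e (nat_lit 466972) (nat_lit 21) (.e (nat_lit 164345) (nat_lit 240) .nil)))))) (.g (nat_lit 1) (.e (nat_lit 25778) (nat_lit 0) .nil) .nil))) 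
(.lf (nat_lit 453505) (.g (nat_lit 3630) (.e (nat_lit 2629) (nat_lit 164) (.e (nat_lit 172120) (nat_lit 12) (.e (nat_lit 475211) (nat_lit 41) (.e (nat_lit 712753) (nat_lit 30) (.e (nat_lit 450561) (nat_lit 0) (.e (nat_lit 5537) (nat_lit 306) .nil)))))) (.g (nat_lit 1) (.e (nat_lit 29682) (nat_lit 0) .nil) .nil)))))) (.nd (nat_lit 7) (.nd (nat_lit 8) (.nd (nat_lit 9) 
(.lf (nat_lit 452673) (.g (nat_lit 2919) (.e (nat_lit 2617) (nat_lit 164) (.e (nat_lit 172126) (nat_lit 14) (.e (nat_lit 491549) (nat_lit 9) (.e (nat_lit 336443) (nat_lit 32) (.e (nat_lit 466972) (nat_lit 21) (.e (nat_lit 164345) (nat_lit 240) .nil)))))) (.g (nat_lit 1) (.e (nat_lit 23925) (nat_lit 0) .nil) .nil))) 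
(.lf (nat_lit 453185) (.g (nat_lit 1463) (.e (nat_lit 2628) (nat_lit 164) (.e (nat_lit 172062) (nat_lit 2) (.e (nat_lit 196666) (nat_lit 13) (.e (nat_lit 65617) (nat_lit 10) .nil)))) (.g (nat_lit 0) (.e (nat_lit 27484) (nat_lit 0) .nil) .nil)))) (.nd (nat_lit 9) 
(.lf (nat_lit 452929) (.g (nat_lit 3729) (.e (nat_lit 2619) (nat_lit 164) (.e (nat_lit 172124) (nat_lit 14) (.e (nat_lit 491550) (nat_lit 9) (.e (nat_lit 336430) (nat_lit 29) (.e (nat_lit 442421) (nat_lit 21) (.e (nat_lit 164348) (nat_lit 240) .nil)))))) (.g (nat_lit 1) (.e (nat_lit 25442) (nat_lit 0) .nil) .nil))) 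
(.lf (nat_lit 453441) (.g (nat_lit 3086) (.e (nat_lit 2629) (nat_lit 164) (.e (nat_lit 172118) (nat_lit 12) (.e (nat_lit 475210) (nat_lit 41) (.e (nat_lit 712755) (nat_lit 30) (.e (nat_lit 450563) (nat_lit 0) (.e (nat_lit 5537) (nat_lit 306) .nil)))))) (.g (nat_lit 1) (.e (nat_lit 29583) (nat_lit 0) .nil) .nil))))) (.nd (nat_lit 8) (.nd (nat_lit 9) 
(.lf (nat_lit 452801) (.g (nat_lit 3920) (.e (nat_lit 2619) (nat_lit 164) (.e (nat_lit 172118) (nat_lit 12) (.e (nat_lit 475210) (nat_lit 41) (.e (nat_lit 712752) (nat_lit 29) (.e (nat_lit 442421) (nat_lit 21) (.e (nat_lit 164347) (nat_lit 240) .nil)))))) (.g (nat_lit 1) (.e (nat_lit 25227) (nat_lit 0) .nil) .nil))) 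
(.lf (nat_lit 453313) (.g (nat_lit 3417) (.e (nat_lit 2628) (nat_lit 164) (.e (nat_lit 172120) (nat_lit 12) (.e (nat_lit 475211) (nat_lit 41) (.e (nat_lit 712750) (nat_lit 29) (.e (nat_lit 442421) (nat_lit 21) (.e (nat_lit 164347) (nat_lit 240) .nil)))))) (.g (nat_lit 1) (.e (nat_lit 28272) (nat_lit 0) .nil) .nil)))) (.nd (nat_lit 9) 
(.lf (nat_lit 453057) (.g (nat_lit 1619) (.e (nat_lit 2621) (nat_lit 164) (.e (nat_lit 172120) (nat_lit 12) (.e (nat_lit 475198) (nat_lit 40) (.e (nat_lit 704598) (nat_lit 6) .nil)))) (.g (nat_lit 0) (.e (nat_lit 26207) (nat_lit 0) .nil) .nil))) 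
(.lf (nat_lit 453569) (.g (nat_lit 2338) (.e (nat_lit 2629) (nat_lit 164) (.e (nat_lit 172126) (nat_lit 14) (.e (nat_lit 491547) (nat_lit 9) (.e (nat_lit 336432) (nat_lit 30) (.e (nat_lit 450565) (nat_lit 0) (.e (nat_lit 5548) (nat_lit 306) .nil)))))) (.g (nat_lit 1) (.e (nat_lit 30204) (nat_lit 0) .nil) .nil))))))) (.nd (nat_lit 6) (.nd (nat_lit 7) (.nd (nat_lit 8) (.nd (nat_lit 9) 
(.lf (nat_lit 452641) (.g (nat_lit 1843) (.e (nat_lit 2617) (nat_lit 164) (.e (nat_lit 172124) (nat_lit 14) (.e (nat_lit 491549) (nat_lit 9) (.e (nat_lit 336443) (nat_lit 32) .nil)))) (.g (nat_lit 0) (.e (nat_lit 23810) (nat_lit 0) .nil) .nil))) 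
(.lf (nat_lit 453153) (.g (nat_lit 5190) (.e (nat_lit 2625) (nat_lit 164) (.e (nat_lit 172126) (nat_lit 14) (.e (nat_lit 491540) (nat_lit 3) (.e (nat_lit 98373) (nat_lit 29) (.e (nat_lit 450563) (nat_lit 0) (.e (nat_lit 3948) (nat_lit 239) .nil)))))) (.g (nat_lit 1) (.e (nat_lit 26983) (nat_lit 0) .nil) .nil)))) (.nd (nat_lit 9) 
(.lf (nat_lit 452897) (.g (nat_lit 3637) (.e (nat_lit 2619) (nat_lit 164) (.e (nat_lit 172120) (nat_lit 12) (.e (nat_lit 475211) (nat_lit 41) (.e (nat_lit 712755) (nat_lit 30) (.e (nat_lit 450565) (nat_lit 0) (.e (nat_lit 5548) (nat_lit 306) .nil)))))) (.g (nat_lit 1) (.e (nat_lit 25356) (nat_lit 0) .nil) .nil))) 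
(.lf (nat_lit 453409) (.g (nat_lit 3409) (.e (nat_lit 2628) (nat_lit 164) (.e (nat_lit 172126) (nat_lit 14) (.e (nat_lit 491550) (nat_lit 9) (.e (nat_lit 336430) (nat_lit 29) (.e (nat_lit 442419) (nat_lit 21) (.e (nat_lit 164347) (nat_lit 240) .nil)))))) (.g (nat_lit 1) (.e (nat_lit 28721) (nat_lit 0) .nil) .nil))))) (.nd (nat_lit 8) (.nd (nat_lit 9) 
(.lf (nat_lit 452769) (.g (nat_lit 2424) (.e (nat_lit 2619) (nat_lit 164) (.e (nat_lit 172062) (nat_lit 2) (.e (nat_lit 196666) (nat_lit 13) (.e (nat_lit 65610) (nat_lit 10) (.e (nat_lit 344117) (nat_lit 21) (.e (nat_lit 516098) (nat_lit 0) (.e (nat_lit 2412) (nat_lit 157) (.e (nat_lit 4507) (nat_lit 263) .nil)))))))) (.g (nat_lit 1) (.e (nat_lit 24741) (nat_lit 0) .nil) .nil))) 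
(.lf (nat_lit 453281) (.g (nat_lit 2074) (.e (nat_lit 2628) (nat_lit 164) (.e (nat_lit 172118) (nat_lit 12) (.e (nat_lit 475211) (nat_lit 41) (.e (nat_lit 712755) (nat_lit 30) (.e (nat_lit 450564) (nat_lit 0) .nil))))) (.g (nat_lit 0) (.e (nat_lit 28209) (nat_lit 0) .nil) .nil)))) (.nd (nat_lit 9) 
(.lf (nat_lit 453025) (.g (nat_lit 3023) (.e (nat_lit 2620) (nat_lit 164) (.e (nat_lit 172066) (nat_lit 3) (.e (nat_lit 204869) (nat_lit 29) (.e (nat_lit 360475) (nat_lit 8) (.e (nat_lit 557089) (nat_lit 12) (.e (nat_lit 163844) (nat_lit 0) (.e (nat_lit 6250) (nat_lit 337) .nil))))))) (.g (nat_lit 1) (.e (nat_lit 25995) (nat_lit 0) .nil) .nil))) 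
(.lf (nat_lit 453537) (.g (nat_lit 3601) (.e (nat_lit 2629) (nat_lit 164) (.e (nat_lit 172124) (nat_lit 14) (.e (nat_lit 491549) (nat_lit 9) (.e (nat_lit 336434) (nat_lit 30) (.e (nat_lit 450564) (nat_lit 0) (.e (nat_lit 5546) (nat_lit 306) .nil)))))) (.g (nat_lit 1) (.e (nat_lit 29757) (nat_lit 0) .nil) .nil)))))) (.nd (nat_lit 7) (.nd (nat_lit 8) (.nd (nat_lit 9) 
(.lf (nat_lit 452705) (.g (nat_lit 2067) (.e (nat_lit 2618) (nat_lit 164) (.e (nat_lit 172120) (nat_lit 12) (.e (nat_lit 475198) (nat_lit 40) (.e (nat_lit 704598) (nat_lit 6) (.e (nat_lit 188444) (nat_lit 21) (.e (nat_lit 164346) (nat_lit 240) .nil)))))) (.g (nat_lit 1) (.e (nat_lit 24415) (nat_lit 0) .nil) .nil))) 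
(.lf (nat_lit 453217) (.g (nat_lit 3165) (.e (nat_lit 2628) (nat_lit 164) (.e (nat_lit 172065) (nat_lit 3) (.e (nat_lit 204869) (nat_lit 29) (.e (nat_lit 360475) (nat_lit 8) (.e (nat_lit 557091) (nat_lit 12) (.e (nat_lit 163840) (nat_lit 0) (.e (nat_lit 6374) (nat_lit 337) .nil))))))) (.g (nat_lit 1) (.e (nat_lit 27540) (nat_lit 0) .nil) .nil)))) (.nd (nat_lit 9) 
(.lf (nat_lit 452961) (.g (nat_lit 2693) (.e (nat_lit 2619) (nat_lit 164) (.e (nat_lit 172126) (nat_lit 14) (.e (nat_lit 491547) (nat_lit 9) (.e (nat_lit 336443) (nat_lit 32) (.e (nat_lit 466969) (nat_lit 21) (.e (nat_lit 164347) (nat_lit 240) .nil)))))) (.g (nat_lit 1) (.e (nat_lit 25726) (nat_lit 0) .nil) .nil))) 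
(.lf (nat_lit 453473) (.g (nat_lit 1563) (.e (nat_lit 2629) (nat_lit 164) (.e (nat_lit 172119) (nat_lit 12) (.e (nat_lit 475211) (nat_lit 41) (.e (nat_lit 712753) (nat_lit 30) (.e (nat_lit 458496) (nat_lit 0) .nil))))) (.g (nat_lit 0) (.e (nat_lit 29625) (nat_lit 0) .nil) .nil))))) (.nd (nat_lit 8) (.nd (nat_lit 9) 
(.lf (nat_lit 452833) (.g (nat_lit 2729) (.e (nat_lit 2619) (nat_lit 164) (.e (nat_lit 172119) (nat_lit 12) (.e (nat_lit 475211) (nat_lit 41) (.e (nat_lit 712753) (nat_lit 30) (.e (nat_lit 450561) (nat_lit 0) (.e (nat_lit 5537) (nat_lit 306) .nil)))))) (.g (nat_lit 1) (.e (nat_lit 25269) (nat_lit 0) .nil) .nil))) 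
(.lf (nat_lit 453345) (.g (nat_lit 3201) (.e (nat_lit 2628) (nat_lit 164) (.e (nat_lit 172124) (nat_lit 14) (.e (nat_lit 491549) (nat_lit 9) (.e (nat_lit 336443) (nat_lit 32) (.e (nat_lit 466969) (nat_lit 21) (.e (nat_lit 164345) (nat_lit 240) .nil)))))) (.g (nat_lit 1) (.e (nat_lit 28377) (nat_lit 0) .nil) .nil)))) (.nd (nat_lit 9) 
(.lf (nat_lit 453089) (.g (nat_lit 4318) (.e (nat_lit 2622) (nat_lit 164) (.e (nat_lit 172066) (nat_lit 3) (.e (nat_lit 204869) (nat_lit 29) (.e (nat_lit 360475) (nat_lit 8) (.e (nat_lit 557091) (nat_lit 12) (.e (nat_lit 163844) (nat_lit 0) (.e (nat_lit 6255) (nat_lit 337) .nil))))))) (.g (nat_lit 1) (.e (nat_lit 26284) (nat_lit 0) .nil) .nil))) 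
(.lf (nat_lit 453601) (.g (nat_lit 3088) (.e (nat_lit 2629) (nat_lit 164) (.e (nat_lit 172126) (nat_lit 14) (.e (nat_lit 491549) (nat_lit 9) (.e (nat_lit 336443) (nat_lit 32) (.e (nat_lit 466972) (nat_lit 21) (.e (nat_lit 164345) (nat_lit 240) .nil)))))) (.g (nat_lit 1) (.e (nat_lit 30273) (nat_lit 0) .nil) .nil)))))))) 
(.nd (nat_lit 5) (.nd (nat_lit 6) (.nd (nat_lit 7) (.nd (nat_lit 8) (.nd (nat_lit 9) 
(.lf (nat_lit 452625) (.g (nat_lit 2726) (.e (nat_lit 2616) (nat_lit 164) (.e (nat_lit 172126) (nat_lit 14) (.e (nat_lit 491540) (nat_lit 3) (.e (nat_lit 98372) (nat_lit 29) (.e (nat_lit 450564) (nat_lit 0) (.e (nat_lit 3944) (nat_lit 239) .nil)))))) (.g (nat_lit 1) (.e (nat_lit 23569) (nat_lit 0) .nil) .nil))) 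
(.lf (nat_lit 453137) (.g (nat_lit 2240) (.e (nat_lit 2625) (nat_lit 164) (.e (nat_lit 172120) (nat_lit 12) (.e (nat_lit 475211) (nat_lit 41) (.e (nat_lit 712755) (nat_lit 30) (.e (nat_lit 458496) (nat_lit 0) (.e (nat_lit 5543) (nat_lit 306) .nil)))))) (.g (nat_lit 1) (.e (nat_lit 26851) (nat_lit 0) .nil) .nil)))) (.nd (nat_lit 9) 
(.lf (nat_lit 452881) (.g (nat_lit 2989) (.e (nat_lit 2619) (nat_lit 164) (.e (nat_lit 172120) (nat_lit 12) (.e (nat_lit 475211) (nat_lit 41) (.e (nat_lit 712750) (nat_lit 29) (.e (nat_lit 442421) (nat_lit 21) (.e (nat_lit 164346) (nat_lit 240) .nil)))))) (.g (nat_lit 1) (.e (nat_lit 25340) (nat_lit 0) .nil) .nil))) 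
(.lf (nat_lit 453393) (.g (nat_lit 3272) (.e (nat_lit 2628) (nat_lit 164) (.e (nat_lit 172126) (nat_lit 14) (.e (nat_lit 491549) (nat_lit 9) (.e (nat_lit 336430) (nat_lit 29) (.e (nat_lit 442421) (nat_lit 21) (.e (nat_lit 164345) (nat_lit 240) .nil)))))) (.g (nat_lit 1) (.e (nat_lit 28703) (nat_lit 0) .nil) .nil))))) (.nd (nat_lit 8) (.nd (nat_lit 9) 
(.lf (nat_lit 452753) (.g (nat_lit 2955) (.e (nat_lit 2618) (nat_lit 164) (.e (nat_lit 172126) (nat_lit 14) (.e (nat_lit 491549) (nat_lit 9) (.e (nat_lit 336430) (nat_lit 29) (.e (nat_lit 442421) (nat_lit 21) (.e (nat_lit 164345) (nat_lit 240) .nil)))))) (.g (nat_lit 1) (.e (nat_lit 24645) (nat_lit 0) .nil) .nil))) 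
(.lf (nat_lit 453265) (.g (nat_lit 3272) (.e (nat_lit 2628) (nat_lit 164) (.e (nat_lit 172118) (nat_lit 12) (.e (nat_lit 475210) (nat_lit 41) (.e (nat_lit 712755) (nat_lit 30) (.e (nat_lit 450566) (nat_lit 0) (.e (nat_lit 5548) (nat_lit 306) .nil)))))) (.g (nat_lit 1) (.e (nat_lit 28190) (nat_lit 0) .nil) .nil)))) (.nd (nat_lit 9) 
(.lf (nat_lit 453009) (.g (nat_lit 1516) (.e (nat_lit 2619) (nat_lit 164) (.e (nat_lit 172126) (nat_lit 14) (.e (nat_lit 491568) (nat_lit 13) (.e (nat_lit 393275) (nat_lit 23) .nil)))) (.g (nat_lit 0) (.e (nat_lit 25798) (nat_lit 0) .nil) .nil))) 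
(.lf (nat_lit 453521) (.g (nat_lit 1455) (.e (nat_lit 2629) (nat_lit 164) (.e (nat_lit 172124) (nat_lit 14) (.e (nat_lit 491547) (nat_lit 9) (.e (nat_lit 336434) (nat_lit 30) .nil)))) (.g (nat_lit 0) (.e (nat_lit 29717) (nat_lit 0) .nil) .nil)))))) (.nd (nat_lit 7) (.nd (nat_lit 8) (.nd (nat_lit 9) 
(.lf (nat_lit 452689) (.g (nat_lit 1920) (.e (nat_lit 2618) (nat_lit 164) (.e (nat_lit 172118) (nat_lit 12) (.e (nat_lit 475198) (nat_lit 40) (.e (nat_lit 704599) (nat_lit 6) (.e (nat_lit 188446) (nat_lit 21) (.e (nat_lit 164345) (nat_lit 240) .nil)))))) (.g (nat_lit 1) (.e (nat_lit 24378) (nat_lit 0) .nil) .nil))) 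
(.lf (nat_lit 453201) (.g (nat_lit 2541) (.e (nat_lit 2628) (nat_lit 164) (.e (nat_lit 172062) (nat_lit 2) (.e (nat_lit 196666) (nat_lit 13) (.e (nat_lit 65617) (nat_lit 10) (.e (nat_lit 344133) (nat_lit 26) (.e (nat_lit 557091) (nat_lit 12) (.e (nat_lit 163847) (nat_lit 0) (.e (nat_lit 6374) (nat_lit 337) .nil)))))))) (.g (nat_lit 1) (.e (nat_lit 27500) (nat_lit 0) .nil) .nil)))) 
(.nd (nat_lit 9) 
(.lf (nat_lit 452945) (.g (nat_lit 2345) (.e (nat_lit 2619) (nat_lit 164) (.e (nat_lit 172124) (nat_lit 14) (.e (nat_lit 491568) (nat_lit 13) (.e (nat_lit 393283) (nat_lit 24) (.e (nat_lit 434209) (nat_lit 18) (.e (nat_lit 5546) (nat_lit 306) .nil)))))) (.g (nat_lit 1) (.e (nat_lit 25461) (nat_lit 0) .nil) .nil))) 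
(.lf (nat_lit 453457) (.g (nat_lit 2102) (.e (nat_lit 2629) (nat_lit 164) (.e (nat_lit 172118) (nat_lit 12) (.e (nat_lit 475211) (nat_lit 41) (.e (nat_lit 712755) (nat_lit 30) (.e (nat_lit 450565) (nat_lit 0) .nil))))) (.g (nat_lit 0) (.e (nat_lit 29599) (nat_lit 0) .nil) .nil))))) (.nd (nat_lit 8) (.nd (nat_lit 9) 
(.lf (nat_lit 452817) (.g (nat_lit 2046) (.e (nat_lit 2619) (nat_lit 164) (.e (nat_lit 172118) (nat_lit 12) (.e (nat_lit 475211) (nat_lit 41) (.e (nat_lit 712753) (nat_lit 30) (.e (nat_lit 458496) (nat_lit 0) (.e (nat_lit 5543) (nat_lit 306) .nil)))))) (.g (nat_lit 1) (.e (nat_lit 25247) (nat_lit 0) .nil) .nil))) 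
(.lf (nat_lit 453329) (.g (nat_lit 1855) (.e (nat_lit 2628) (nat_lit 164) (.e (nat_lit 172124) (nat_lit 14) (.e (nat_lit 491549) (nat_lit 9) (.e (nat_lit 336426) (nat_lit 29) (.e (nat_lit 442421) (nat_lit 21) .nil))))) (.g (nat_lit 0) (.e (nat_lit 28361) (nat_lit 0) .nil) .nil)))) (.nd (nat_lit 9) 
(.lf (nat_lit 453073) (.g (nat_lit 1760) (.e (nat_lit 2621) (nat_lit 164) (.e (nat_lit 172133) (nat_lit 15) (.e (nat_lit 2059) (nat_lit 142) (.e (nat_lit 704595) (nat_lit 5) .nil)))) (.g (nat_lit 0) (.e (nat_lit 26267) (nat_lit 0) .nil) .nil))) 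
(.lf (nat_lit 453585) (.g (nat_lit 3177) (.e (nat_lit 2629) (nat_lit 164) (.e (nat_lit 172126) (nat_lit 14) (.e (nat_lit 491549) (nat_lit 9) (.e (nat_lit 336430) (nat_lit 29) (.e (nat_lit 442421) (nat_lit 21) (.e (nat_lit 164346) (nat_lit 240) .nil)))))) (.g (nat_lit 1) (.e (nat_lit 30256) (nat_lit 0) .nil) .nil))))))) (.nd (nat_lit 6) (.nd (nat_lit 7) (.nd (nat_lit 8) (.nd (nat_lit 9) 
(.lf (nat_lit 452657) (.g (nat_lit 3238) (.e (nat_lit 2617) (nat_lit 164) (.e (nat_lit 172126) (nat_lit 14) (.e (nat_lit 491549) (nat_lit 9) (.e (nat_lit 336430) (nat_lit 29) (.e (nat_lit 442419) (nat_lit 21) (.e (nat_lit 164346) (nat_lit 240) .nil)))))) (.g (nat_lit 1) (.e (nat_lit 23909) (nat_lit 0) .nil) .nil))) 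
(.lf (nat_lit 453169) (.g (nat_lit 1454) (.e (nat_lit 2626) (nat_lit 164) (.e (nat_lit 172126) (nat_lit 14) (.e (nat_lit 491539) (nat_lit 3) (.e (nat_lit 98373) (nat_lit 29) .nil)))) (.g (nat_lit 0) (.e (nat_lit 27268) (nat_lit 0) .nil) .nil)))) (.nd (nat_lit 9) 
(.lf (nat_lit 452913) (.g (nat_lit 2326) (.e (nat_lit 2619) (nat_lit 164) (.e (nat_lit 172124) (nat_lit 14) (.e (nat_lit 491549) (nat_lit 9) (.e (nat_lit 336432) (nat_lit 30) (.e (nat_lit 450565) (nat_lit 0) (.e (nat_lit 5546) (nat_lit 306) .nil)))))) (.g (nat_lit 1) (.e (nat_lit 25423) (nat_lit 0) .nil) .nil))) 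
(.lf (nat_lit 453425) (.g (nat_lit 2637) (.e (nat_lit 2628) (nat_lit 164) (.e (nat_lit 172126) (nat_lit 14) (.e (nat_lit 491568) (nat_lit 13) (.e (nat_lit 393283) (nat_lit 24) (.e (nat_lit 434202) (nat_lit 18) (.e (nat_lit 5537) (nat_lit 306) .nil)))))) (.g (nat_lit 1) (.e (nat_lit 28747) (nat_lit 0) .nil) .nil))))) (.nd (nat_lit 8) (.nd (nat_lit 9) 
(.lf (nat_lit 452785) (.g (nat_lit 949) (.e (nat_lit 2619) (nat_lit 164) (.e (nat_lit 172097) (nat_lit 9) (.e (nat_lit 426025) (nat_lit 0) (.e (nat_lit 3397) (nat_lit 211) .nil)))) (.g (nat_lit 0) (.e (nat_lit 24883) (nat_lit 0) .nil) .nil))) 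
(.lf (nat_lit 453297) (.g (nat_lit 2402) (.e (nat_lit 2628) (nat_lit 164) (.e (nat_lit 172120) (nat_lit 12) (.e (nat_lit 475209) (nat_lit 41) (.e (nat_lit 712752) (nat_lit 29) (.e (nat_lit 442421) (nat_lit 21) (.e (nat_lit 164346) (nat_lit 240) .nil)))))) (.g (nat_lit 1) (.e (nat_lit 28250) (nat_lit 0) .nil) .nil)))) (.nd (nat_lit 9) 
(.lf (nat_lit 453041) (.g (nat_lit 1983) (.e (nat_lit 2620) (nat_lit 164) (.e (nat_lit 172120) (nat_lit 12) (.e (nat_lit 475199) (nat_lit 40) (.e (nat_lit 704598) (nat_lit 6) (.e (nat_lit 188455) (nat_lit 24) (.e (nat_lit 229664) (nat_lit 240) .nil)))))) (.g (nat_lit 1) (.e (nat_lit 26031) (nat_lit 0) .nil) .nil))) 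
(.lf (nat_lit 453553) (.g (nat_lit 2172) (.e (nat_lit 2629) (nat_lit 164) (.e (nat_lit 172124) (nat_lit 14) (.e (nat_lit 491550) (nat_lit 9) (.e (nat_lit 336434) (nat_lit 30) (.e (nat_lit 458496) (nat_lit 0) (.e (nat_lit 5546) (nat_lit 306) .nil)))))) (.g (nat_lit 1) (.e (nat_lit 29776) (nat_lit 0) .nil) .nil)))))) (.nd (nat_lit 7) (.nd (nat_lit 8) (.nd (nat_lit 9) 
(.lf (nat_lit 452721) (.g (nat_lit 1969) (.e (nat_lit 2618) (nat_lit 164) (.e (nat_lit 172124) (nat_lit 14) (.e (nat_lit 491549) (nat_lit 9) (.e (nat_lit 336426) (nat_lit 29) (.e (nat_lit 442421) (nat_lit 21) .nil))))) (.g (nat_lit 0) (.e (nat_lit 24455) (nat_lit 0) .nil) .nil))) 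
(.lf (nat_lit 453233) (.g (nat_lit 2938) (.e (nat_lit 2628) (nat_lit 164) (.e (nat_lit 172067) (nat_lit 3) (.e (nat_lit 204869) (nat_lit 29) (.e (nat_lit 360474) (nat_lit 8) (.e (nat_lit 557093) (nat_lit 12) (.e (nat_lit 163849) (nat_lit 0) (.e (nat_lit 6374) (nat_lit 337) .nil))))))) (.g (nat_lit 1) (.e (nat_lit 27584) (nat_lit 0) .nil) .nil)))) (.nd (nat_lit 9) 
(.lf (nat_lit 452977) (.g (nat_lit 3163) (.e (nat_lit 2619) (nat_lit 164) (.e (nat_lit 172126) (nat_lit 14) (.e (nat_lit 491549) (nat_lit 9) (.e (nat_lit 336430) (nat_lit 29) (.e (nat_lit 442421) (nat_lit 21) (.e (nat_lit 164347) (nat_lit 240) .nil)))))) (.g (nat_lit 1) (.e (nat_lit 25762) (nat_lit 0) .nil) .nil))) 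
(.lf (nat_lit 453489) (.g (nat_lit 3547) (.e (nat_lit 2629) (nat_lit 164) (.e (nat_lit 172120) (nat_lit 12) (.e (nat_lit 475210) (nat_lit 41) (.e (nat_lit 712752) (nat_lit 29) (.e (nat_lit 442421) (nat_lit 21) (.e (nat_lit 164347) (nat_lit 240) .nil)))))) (.g (nat_lit 1) (.e (nat_lit 29663) (nat_lit 0) .nil) .nil))))) (.nd (nat_lit 8) (.nd (nat_lit 9) 
(.lf (nat_lit 452849) (.g (nat_lit 2187) (.e (nat_lit 2619) (nat_lit 164) (.e (nat_lit 172120) (nat_lit 12) (.e (nat_lit 475198) (nat_lit 40) (.e (nat_lit 704599) (nat_lit 6) (.e (nat_lit 188444) (nat_lit 21) (.e (nat_lit 164347) (nat_lit 240) .nil)))))) (.g (nat_lit 1) (.e (nat_lit 25290) (nat_lit 0) .nil) .nil))) 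
(.lf (nat_lit 453361) (.g (nat_lit 1481) (.e (nat_lit 2628) (nat_lit 164) (.e (nat_lit 172124) (nat_lit 14) (.e (nat_lit 491550) (nat_lit 9) (.e (nat_lit 336434) (nat_lit 30) (.e (nat_lit 458496) (nat_lit 0) (.e (nat_lit 5547) (nat_lit 306) .nil)))))) (.g (nat_lit 1) (.e (nat_lit 28394) (nat_lit 0) .nil) .nil)))) (.nd (nat_lit 9) 
(.lf (nat_lit 453105) (.g (nat_lit 1788) (.e (nat_lit 2622) (nat_lit 164) (.e (nat_lit 172124) (nat_lit 14) (.e (nat_lit 491549) (nat_lit 9) (.e (nat_lit 336443) (nat_lit 32) .nil)))) (.g (nat_lit 0) (.e (nat_lit 26371) (nat_lit 0) .nil) .nil))) 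
(.lf (nat_lit 453617) (.g (nat_lit 3545) (.e (nat_lit 2629) (nat_lit 164) (.e (nat_lit 172126) (nat_lit 14) (.e (nat_lit 491550) (nat_lit 9) (.e (nat_lit 336443) (nat_lit 32) (.e (nat_lit 466969) (nat_lit 21) (.e (nat_lit 164348) (nat_lit 240) .nil)))))) (.g (nat_lit 1) (.e (nat_lit 30292) (nat_lit 0) .nil) .nil))))))))) 
(.nd (nat_lit 4) (.nd (nat_lit 5) (.nd (nat_lit 6) (.nd (nat_lit 7) (.nd (nat_lit 8) 
(.nd (nat_lit 9) 
(.lf (nat_lit 452617) (.g (nat_lit 1749) (.e (nat_lit 2615) (nat_lit 163) (.e (nat_lit 164327) (nat_lit 230) (.e (nat_lit 163903) (nat_lit 12) (.e (nat_lit 426566) (nat_lit 34) .nil)))) (.g (nat_lit 0) (.e (nat_lit 23428) (nat_lit 0) .nil) .nil))) 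
(.lf (nat_lit 453129) (.g (nat_lit 1941) (.e (nat_lit 2625) (nat_lit 164) (.e (nat_lit 172120) (nat_lit 12) (.e (nat_lit 475211) (nat_lit 41) (.e (nat_lit 712753) (nat_lit 30) (.e (nat_lit 458496) (nat_lit 0) (.e (nat_lit 5543) (nat_lit 306) .nil)))))) (.g (nat_lit 1) (.e (nat_lit 26840) (nat_lit 0) .nil) .nil)))) (.nd (nat_lit 9) 
(.lf (nat_lit 452873) (.g (nat_lit 3525) (.e (nat_lit 2619) (nat_lit 164) (.e (nat_lit 172120) (nat_lit 12) (.e (nat_lit 475210) (nat_lit 41) (.e (nat_lit 712755) (nat_lit 30) (.e (nat_lit 450564) (nat_lit 0) (.e (nat_lit 5546) (nat_lit 306) .nil)))))) (.g (nat_lit 1) (.e (nat_lit 25331) (nat_lit 0) .nil) .nil))) 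
(.lf (nat_lit 453385) (.g (nat_lit 3273) (.e (nat_lit 2628) (nat_lit 164) (.e (nat_lit 172126) (nat_lit 14) (.e (nat_lit 491547) (nat_lit 9) (.e (nat_lit 336443) (nat_lit 32) (.e (nat_lit 466971) (nat_lit 21) (.e (nat_lit 164345) (nat_lit 240) .nil)))))) (.g (nat_lit 1) (.e (nat_lit 28665) (nat_lit 0) .nil) .nil))))) (.nd (nat_lit 8) (.nd (nat_lit 9) 
(.lf (nat_lit 452745) (.g (nat_lit 1649) (.e (nat_lit 2618) (nat_lit 164) (.e (nat_lit 172126) (nat_lit 14) (.e (nat_lit 491547) (nat_lit 9) (.e (nat_lit 336434) (nat_lit 30) .nil)))) (.g (nat_lit 0) (.e (nat_lit 24633) (nat_lit 0) .nil) .nil))) 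
(.lf (nat_lit 453257) (.g (nat_lit 3419) (.e (nat_lit 2628) (nat_lit 164) (.e (nat_lit 172118) (nat_lit 12) (.e (nat_lit 475210) (nat_lit 41) (.e (nat_lit 712752) (nat_lit 29) (.e (nat_lit 442421) (nat_lit 21) (.e (nat_lit 164346) (nat_lit 240) .nil)))))) (.g (nat_lit 1) (.e (nat_lit 28182) (nat_lit 0) .nil) .nil)))) (.nd (nat_lit 9) 
(.lf (nat_lit 453001) (.g (nat_lit 1960) (.e (nat_lit 2619) (nat_lit 164) (.e (nat_lit 172126) (nat_lit 14) (.e (nat_lit 491550) (nat_lit 9) (.e (nat_lit 336434) (nat_lit 30) (.e (nat_lit 450564) (nat_lit 0) (.e (nat_lit 5547) (nat_lit 306) .nil)))))) (.g (nat_lit 1) (.e (nat_lit 25787) (nat_lit 0) .nil) .nil))) 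
(.lf (nat_lit 453513) (.g (nat_lit 2847) (.e (nat_lit 2629) (nat_lit 164) (.e (nat_lit 172120) (nat_lit 12) (.e (nat_lit 475211) (nat_lit 41) (.e (nat_lit 712755) (nat_lit 30) (.e (nat_lit 450566) (nat_lit 0) (.e (nat_lit 5548) (nat_lit 306) .nil)))))) (.g (nat_lit 1) (.e (nat_lit 29690) (nat_lit 0) .nil) .nil)))))) (.nd (nat_lit 7) (.nd (nat_lit 8) (.nd (nat_lit 9) 
(.lf (nat_lit 452681) (.g (nat_lit 3125) (.e (nat_lit 2617) (nat_lit 164) (.e (nat_lit 172126) (nat_lit 14) (.e (nat_lit 491550) (nat_lit 9) (.e (nat_lit 336443) (nat_lit 32) (.e (nat_lit 466972) (nat_lit 21) (.e (nat_lit 164345) (nat_lit 240) .nil)))))) (.g (nat_lit 1) (.e (nat_lit 23941) (nat_lit 0) .nil) .nil))) 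
(.lf (nat_lit 453193) (.g (nat_lit 2753) (.e (nat_lit 2628) (nat_lit 164) (.e (nat_lit 172062) (nat_lit 2) (.e (nat_lit 196666) (nat_lit 13) (.e (nat_lit 65617) (nat_lit 10) (.e (nat_lit 344130) (nat_lit 26) (.e (nat_lit 557090) (nat_lit 12) (.e (nat_lit 171776) (nat_lit 0) (.e (nat_lit 6374) (nat_lit 337) .nil)))))))) (.g (nat_lit 1) (.e (nat_lit 27492) (nat_lit 0) .nil) .nil)))) 
(.nd (nat_lit 9) 
(.lf (nat_lit 452937) (.g (nat_lit 3565) (.e (nat_lit 2619) (nat_lit 164) (.e (nat_lit 172124) (nat_lit 14) (.e (nat_lit 491550) (nat_lit 9) (.e (nat_lit 336443) (nat_lit 32) (.e (nat_lit 466971) (nat_lit 21) (.e (nat_lit 164345) (nat_lit 240) .nil)))))) (.g (nat_lit 1) (.e (nat_lit 25450) (nat_lit 0) .nil) .nil))) 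
(.lf (nat_lit 453449) (.g (nat_lit 2301) (.e (nat_lit 2629) (nat_lit 164) (.e (nat_lit 172118) (nat_lit 12) (.e (nat_lit 475211) (nat_lit 41) (.e (nat_lit 712752) (nat_lit 29) (.e (nat_lit 442421) (nat_lit 21) (.e (nat_lit 164346) (nat_lit 240) .nil)))))) (.g (nat_lit 1) (.e (nat_lit 29591) (nat_lit 0) .nil) .nil))))) (.nd (nat_lit 8) (.nd (nat_lit 9) 
(.lf (nat_lit 452809) (.g (nat_lit 2497) (.e (nat_lit 2619) (nat_lit 164) (.e (nat_lit 172118) (nat_lit 12) (.e (nat_lit 475210) (nat_lit 41) (.e (nat_lit 712755) (nat_lit 30) (.e (nat_lit 458496) (nat_lit 0) (.e (nat_lit 5547) (nat_lit 306) .nil)))))) (.g (nat_lit 1) (.e (nat_lit 25237) (nat_lit 0) .nil) .nil))) 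
(.lf (nat_lit 453321) (.g (nat_lit 3166) (.e (nat_lit 2628) (nat_lit 164) (.e (nat_lit 172120) (nat_lit 12) (.e (nat_lit 475211) (nat_lit 41) (.e (nat_lit 712755) (nat_lit 30) (.e (nat_lit 450565) (nat_lit 0) (.e (nat_lit 5548) (nat_lit 306) .nil)))))) (.g (nat_lit 1) (.e (nat_lit 28283) (nat_lit 0) .nil) .nil)))) (.nd (nat_lit 9) 
(.lf (nat_lit 453065) (.g (nat_lit 4484) (.e (nat_lit 2621) (nat_lit 164) (.e (nat_lit 172120) (nat_lit 12) (.e (nat_lit 475199) (nat_lit 40) (.e (nat_lit 704598) (nat_lit 6) (.e (nat_lit 188455) (nat_lit 24) (.e (nat_lit 229663) (nat_lit 240) .nil)))))) (.g (nat_lit 1) (.e (nat_lit 26215) (nat_lit 0) .nil) .nil))) 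
(.lf (nat_lit 453577) (.g (nat_lit 3149) (.e (nat_lit 2629) (nat_lit 164) (.e (nat_lit 172126) (nat_lit 14) (.e (nat_lit 491547) (nat_lit 9) (.e (nat_lit 336443) (nat_lit 32) (.e (nat_lit 466971) (nat_lit 21) (.e (nat_lit 164348) (nat_lit 240) .nil)))))) (.g (nat_lit 1) (.e (nat_lit 30212) (nat_lit 0) .nil) .nil))))))) (.nd (nat_lit 6) (.nd (nat_lit 7) (.nd (nat_lit 8) (.nd (nat_lit 9) 
(.lf (nat_lit 452649) (.g (nat_lit 3444) (.e (nat_lit 2617) (nat_lit 164) (.e (nat_lit 172126) (nat_lit 14) (.e (nat_lit 491547) (nat_lit 9) (.e (nat_lit 336443) (nat_lit 32) (.e (nat_lit 466969) (nat_lit 21) (.e (nat_lit 164348) (nat_lit 240) .nil)))))) (.g (nat_lit 1) (.e (nat_lit 23866) (nat_lit 0) .nil) .nil))) 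
(.lf (nat_lit 453161) (.g (nat_lit 2562) (.e (nat_lit 2626) (nat_lit 164) (.e (nat_lit 172120) (nat_lit 12) (.e (nat_lit 475185) (nat_lit 29) (.e (nat_lit 557109) (nat_lit 15) .nil)))) (.g (nat_lit 0) (.e (nat_lit 27207) (nat_lit 0) .nil) .nil)))) (.nd (nat_lit 9) 
(.lf (nat_lit 452905) (.g (nat_lit 3212) (.e (nat_lit 2619) (nat_lit 164) (.e (nat_lit 172124) (nat_lit 14) (.e (nat_lit 491548) (nat_lit 9) (.e (nat_lit 336443) (nat_lit 32) (.e (nat_lit 466971) (nat_lit 21) (.e (nat_lit 164348) (nat_lit 240) .nil)))))) (.g (nat_lit 1) (.e (nat_lit 25405) (nat_lit 0) .nil) .nil))) 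
(.lf (nat_lit 453417) (.g (nat_lit 3563) (.e (nat_lit 2628) (nat_lit 164) (.e (nat_lit 172126) (nat_lit 14) (.e (nat_lit 491550) (nat_lit 9) (.e (nat_lit 336443) (nat_lit 32) (.e (nat_lit 466969) (nat_lit 21) (.e (nat_lit 164347) (nat_lit 240) .nil)))))) (.g (nat_lit 1) (.e (nat_lit 28729) (nat_lit 0) .nil) .nil))))) (.nd (nat_lit 8) (.nd (nat_lit 9) 
(.lf (nat_lit 452777) (.g (nat_lit 3940) (.e (nat_lit 2619) (nat_lit 164) (.e (nat_lit 172064) (nat_lit 2) (.e (nat_lit 196666) (nat_lit 13) (.e (nat_lit 65610) (nat_lit 10) (.e (nat_lit 344117) (nat_lit 21) (.e (nat_lit 516097) (nat_lit 0) (.e (nat_lit 2407) (nat_lit 157) (.e (nat_lit 4506) (nat_lit 263) .nil)))))))) (.g (nat_lit 1) (.e (nat_lit 24756) (nat_lit 0) .nil) .nil))) 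
(.lf (nat_lit 453289) (.g (nat_lit 2992) (.e (nat_lit 2628) (nat_lit 164) (.e (nat_lit 172120) (nat_lit 12) (.e (nat_lit 475198) (nat_lit 40) (.e (nat_lit 704598) (nat_lit 6) (.e (nat_lit 188446) (nat_lit 21) (.e (nat_lit 164347) (nat_lit 240) .nil)))))) (.g (nat_lit 1) (.e (nat_lit 28228) (nat_lit 0) .nil) .nil)))) (.nd (nat_lit 9) 
(.lf (nat_lit 453033) (.g (nat_lit 2680) (.e (nat_lit 2620) (nat_lit 164) (.e (nat_lit 172067) (nat_lit 3) (.e (nat_lit 204869) (nat_lit 29) (.e (nat_lit 360475) (nat_lit 8) (.e (nat_lit 557091) (nat_lit 12) .nil))))) (.g (nat_lit 0) (.e (nat_lit 26014) (nat_lit 0) .nil) .nil))) 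
(.lf (nat_lit 453545) (.g (nat_lit 3094) (.e (nat_lit 2629) (nat_lit 164) (.e (nat_lit 172124) (nat_lit 14) (.e (nat_lit 491550) (nat_lit 9) (.e (nat_lit 336430) (nat_lit 29) (.e (nat_lit 442419) (nat_lit 21) (.e (nat_lit 164345) (nat_lit 240) .nil)))))) (.g (nat_lit 1) (.e (nat_lit 29767) (nat_lit 0) .nil) .nil)))))) (.nd (nat_lit 7) (.nd (nat_lit 8) (.nd (nat_lit 9) 
(.lf (nat_lit 452713) (.g (nat_lit 3348) (.e (nat_lit 2618) (nat_lit 164) (.e (nat_lit 172120) (nat_lit 12) (.e (nat_lit 475210) (nat_lit 41) (.e (nat_lit 712752) (nat_lit 29) (.e (nat_lit 442421) (nat_lit 21) (.e (nat_lit 164346) (nat_lit 240) .nil)))))) (.g (nat_lit 1) (.e (nat_lit 24433) (nat_lit 0) .nil) .nil))) 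
(.lf (nat_lit 453225) (.g (nat_lit 3138) (.e (nat_lit 2628) (nat_lit 164) (.e (nat_lit 172066) (nat_lit 3) (.e (nat_lit 204869) (nat_lit 29) (.e (nat_lit 360475) (nat_lit 8) (.e (nat_lit 557089) (nat_lit 12) (.e (nat_lit 171776) (nat_lit 0) (.e (nat_lit 6374) (nat_lit 337) .nil))))))) (.g (nat_lit 1) (.e (nat_lit 27548) (nat_lit 0) .nil) .nil)))) (.nd (nat_lit 9) 
(.lf (nat_lit 452969) (.g (nat_lit 3451) (.e (nat_lit 2619) (nat_lit 164) (.e (nat_lit 172126) (nat_lit 14) (.e (nat_lit 491548) (nat_lit 9) (.e (nat_lit 336443) (nat_lit 32) (.e (nat_lit 466971) (nat_lit 21) (.e (nat_lit 164348) (nat_lit 240) .nil)))))) (.g (nat_lit 1) (.e (nat_lit 25746) (nat_lit 0) .nil) .nil))) 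
(.lf (nat_lit 453481) (.g (nat_lit 2341) (.e (nat_lit 2629) (nat_lit 164) (.e (nat_lit 172120) (nat_lit 12) (.e (nat_lit 475198) (nat_lit 40) (.e (nat_lit 704599) (nat_lit 6) (.e (nat_lit 188445) (nat_lit 21) (.e (nat_lit 164345) (nat_lit 240) .nil)))))) (.g (nat_lit 1) (.e (nat_lit 29640) (nat_lit 0) .nil) .nil))))) (.nd (nat_lit 8) (.nd (nat_lit 9) 
(.lf (nat_lit 452841) (.g (nat_lit 2169) (.e (nat_lit 2619) (nat_lit 164) (.e (nat_lit 172119) (nat_lit 12) (.e (nat_lit 475211) (nat_lit 41) (.e (nat_lit 712755) (nat_lit 30) (.e (nat_lit 458496) (nat_lit 0) (.e (nat_lit 5547) (nat_lit 306) .nil)))))) (.g (nat_lit 1) (.e (nat_lit 25277) (nat_lit 0) .nil) .nil))) 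
(.lf (nat_lit 453353) (.g (nat_lit 2731) (.e (nat_lit 2628) (nat_lit 164) (.e (nat_lit 172124) (nat_lit 14) (.e (nat_lit 491550) (nat_lit 9) (.e (nat_lit 336430) (nat_lit 29) (.e (nat_lit 442419) (nat_lit 21) (.e (nat_lit 164347) (nat_lit 240) .nil)))))) (.g (nat_lit 1) (.e (nat_lit 28386) (nat_lit 0) .nil) .nil)))) (.nd (nat_lit 9) 
(.lf (nat_lit 453097) (.g (nat_lit 3206) (.e (nat_lit 2622) (nat_lit 164) (.e (nat_lit 172124) (nat_lit 14) (.e (nat_lit 491549) (nat_lit 9) (.e (nat_lit 336428) (nat_lit 29) (.e (nat_lit 442428) (nat_lit 24) .nil))))) (.g (nat_lit 0) (.e (nat_lit 26362) (nat_lit 0) .nil) .nil))) 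
(.lf (nat_lit 453609) (.g (nat_lit 3322) (.e (nat_lit 2629) (nat_lit 164) (.e (nat_lit 172126) (nat_lit 14) (.e (nat_lit 491550) (nat_lit 9) (.e (nat_lit 336430) (nat_lit 29) (.e (nat_lit 442421) (nat_lit 21) (.e (nat_lit 164348) (nat_lit 240) .nil)))))) (.g (nat_lit 1) (.e (nat_lit 30283) (nat_lit 0) .nil) .nil)))))))) 
(.nd (nat_lit 5) (.nd (nat_lit 6) (.nd (nat_lit 7) (.nd (nat_lit 8) (.nd (nat_lit 9) 
(.lf (nat_lit 452633) (.g (nat_lit 2183) (.e (nat_lit 2617) (nat_lit 164) (.e (nat_lit 172120) (nat_lit 12) (.e (nat_lit 475209) (nat_lit 41) (.e (nat_lit 712752) (nat_lit 29) (.e (nat_lit 442421) (nat_lit 21) (.e (nat_lit 164346) (nat_lit 240) .nil)))))) (.g (nat_lit 1) (.e (nat_lit 23771) (nat_lit 0) .nil) .nil))) 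
(.lf (nat_lit 453145) (.g (nat_lit 513) (.e (nat_lit 2625) (nat_lit 164) (.e (nat_lit 172126) (nat_lit 14) (.e (nat_lit 491540) (nat_lit 3) .nil))) (.g (nat_lit 0) (.e (nat_lit 26970) (nat_lit 0) .nil) .nil)))) (.nd (nat_lit 9) 
(.lf (nat_lit 452889) (.g (nat_lit 2725) (.e (nat_lit 2619) (nat_lit 164) (.e (nat_lit 172120) (nat_lit 12) (.e (nat_lit 475211) (nat_lit 41) (.e (nat_lit 712753) (nat_lit 30) (.e (nat_lit 450564) (nat_lit 0) (.e (nat_lit 5547) (nat_lit 306) .nil)))))) (.g (nat_lit 1) (.e (nat_lit 25348) (nat_lit 0) .nil) .nil))) 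
(.lf (nat_lit 453401) (.g (nat_lit 2075) (.e (nat_lit 2628) (nat_lit 164) (.e (nat_lit 172126) (nat_lit 14) (.e (nat_lit 491549) (nat_lit 9) (.e (nat_lit 336434) (nat_lit 30) (.e (nat_lit 458496) (nat_lit 0) (.e (nat_lit 5546) (nat_lit 306) .nil)))))) (.g (nat_lit 1) (.e (nat_lit 28711) (nat_lit 0) .nil) .nil))))) (.nd (nat_lit 8) (.nd (nat_lit 9) 
(.lf (nat_lit 452761) (.g (nat_lit 1861) (.e (nat_lit 2618) (nat_lit 164) (.e (nat_lit 172126) (nat_lit 14) (.e (nat_lit 491550) (nat_lit 9) (.e (nat_lit 336434) (nat_lit 30) (.e (nat_lit 458496) (nat_lit 0) .nil))))) (.g (nat_lit 0) (.e (nat_lit 24654) (nat_lit 0) .nil) .nil))) 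
(.lf (nat_lit 453273) (.g (nat_lit 3164) (.e (nat_lit 2628) (nat_lit 164) (.e (nat_lit 172118) (nat_lit 12) (.e (nat_lit 475211) (nat_lit 41) (.e (nat_lit 712752) (nat_lit 29) (.e (nat_lit 442421) (nat_lit 21) (.e (nat_lit 164346) (nat_lit 240) .nil)))))) (.g (nat_lit 1) (.e (nat_lit 28201) (nat_lit 0) .nil) .nil)))) (.nd (nat_lit 9) 
(.lf (nat_lit 453017) (.g (nat_lit 3010) (.e (nat_lit 2619) (nat_lit 164) (.e (nat_lit 172126) (nat_lit 14) (.e (nat_lit 491569) (nat_lit 13) (.e (nat_lit 393280) (nat_lit 23) (.e (nat_lit 426107) (nat_lit 1) (.e (nat_lit 164347) (nat_lit 240) .nil)))))) (.g (nat_lit 1) (.e (nat_lit 25814) (nat_lit 0) .nil) .nil))) 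
(.lf (nat_lit 453529) (.g (nat_lit 3244) (.e (nat_lit 2629) (nat_lit 164) (.e (nat_lit 172124) (nat_lit 14) (.e (nat_lit 491549) (nat_lit 9) (.e (nat_lit 336430) (nat_lit 29) (.e (nat_lit 442421) (nat_lit 21) (.e (nat_lit 164345) (nat_lit 240) .nil)))))) (.g (nat_lit 1) (.e (nat_lit 29748) (nat_lit 0) .nil) .nil)))))) (.nd (nat_lit 7) (.nd (nat_lit 8) (.nd (nat_lit 9) 
(.lf (nat_lit 452697) (.g (nat_lit 945) (.e (nat_lit 2618) (nat_lit 164) (.e (nat_lit 172119) (nat_lit 12) (.e (nat_lit 475198) (nat_lit 40) (.e (nat_lit 704599) (nat_lit 6) .nil)))) (.g (nat_lit 0) (.e (nat_lit 24393) (nat_lit 0) .nil) .nil))) 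
(.lf (nat_lit 453209) (.g (nat_lit 3941) (.e (nat_lit 2628) (nat_lit 164) (.e (nat_lit 172064) (nat_lit 2) (.e (nat_lit 196666) (nat_lit 13) (.e (nat_lit 65617) (nat_lit 10) (.e (nat_lit 344133) (nat_lit 26) (.e (nat_lit 557089) (nat_lit 12) (.e (nat_lit 163844) (nat_lit 0) (.e (nat_lit 6374) (nat_lit 337) .nil)))))))) (.g (nat_lit 1) (.e (nat_lit 27512) (nat_lit 0) .nil) .nil)))) 
(.nd (nat_lit 9) 
(.lf (nat_lit 452953) (.g (nat_lit 686) (.e (nat_lit 2619) (nat_lit 164) (.e (nat_lit 172126) (nat_lit 14) (.e (nat_lit 491537) (nat_lit 2) .nil))) (.g (nat_lit 0) (.e (nat_lit 25714) (nat_lit 0) .nil) .nil))) 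
(.lf (nat_lit 453465) (.g (nat_lit 1643) (.e (nat_lit 2629) (nat_lit 164) (.e (nat_lit 172119) (nat_lit 12) (.e (nat_lit 475210) (nat_lit 41) (.e (nat_lit 712753) (nat_lit 30) (.e (nat_lit 450565) (nat_lit 0) .nil))))) (.g (nat_lit 0) (.e (nat_lit 29617) (nat_lit 0) .nil) .nil))))) (.nd (nat_lit 8) (.nd (nat_lit 9) 
(.lf (nat_lit 452825) (.g (nat_lit 1965) (.e (nat_lit 2619) (nat_lit 164) (.e (nat_lit 172119) (nat_lit 12) (.e (nat_lit 475210) (nat_lit 41) (.e (nat_lit 712752) (nat_lit 29) (.e (nat_lit 442421) (nat_lit 21) .nil))))) (.g (nat_lit 0) (.e (nat_lit 25260) (nat_lit 0) .nil) .nil))) 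
(.lf (nat_lit 453337) (.g (nat_lit 2130) (.e (nat_lit 2628) (nat_lit 164) (.e (nat_lit 172124) (nat_lit 14) (.e (nat_lit 491549) (nat_lit 9) (.e (nat_lit 336432) (nat_lit 30) (.e (nat_lit 450561) (nat_lit 0) .nil))))) (.g (nat_lit 0) (.e (nat_lit 28369) (nat_lit 0) .nil) .nil)))) (.nd (nat_lit 9) 
(.lf (nat_lit 453081) (.g (nat_lit 1894) (.e (nat_lit 2622) (nat_lit 164) (.e (nat_lit 172066) (nat_lit 3) (.e (nat_lit 204869) (nat_lit 29) (.e (nat_lit 360474) (nat_lit 8) (.e (nat_lit 557094) (nat_lit 12) (.e (nat_lit 163847) (nat_lit 0) (.e (nat_lit 6255) (nat_lit 337) .nil))))))) (.g (nat_lit 1) (.e (nat_lit 26276) (nat_lit 0) .nil) .nil))) 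
(.lf (nat_lit 453593) (.g (nat_lit 3549) (.e (nat_lit 2629) (nat_lit 164) (.e (nat_lit 172126) (nat_lit 14) (.e (nat_lit 491549) (nat_lit 9) (.e (nat_lit 336434) (nat_lit 30) (.e (nat_lit 450564) (nat_lit 0) (.e (nat_lit 5548) (nat_lit 306) .nil)))))) (.g (nat_lit 1) (.e (nat_lit 30265) (nat_lit 0) .nil) .nil))))))) (.nd (nat_lit 6) (.nd (nat_lit 7) (.nd (nat_lit 8) (.nd (nat_lit 9) 
(.lf (nat_lit 452665) (.g (nat_lit 3261) (.e (nat_lit 2617) (nat_lit 164) (.e (nat_lit 172126) (nat_lit 14) (.e (nat_lit 491549) (nat_lit 9) (.e (nat_lit 336434) (nat_lit 30) (.e (nat_lit 450564) (nat_lit 0) (.e (nat_lit 5546) (nat_lit 306) .nil)))))) (.g (nat_lit 1) (.e (nat_lit 23917) (nat_lit 0) .nil) .nil))) 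
(.lf (nat_lit 453177) (.g (nat_lit 2382) (.e (nat_lit 2626) (nat_lit 164) (.e (nat_lit 172126) (nat_lit 14) (.e (nat_lit 491540) (nat_lit 3) (.e (nat_lit 98373) (nat_lit 29) (.e (nat_lit 450561) (nat_lit 0) .nil))))) (.g (nat_lit 0) (.e (nat_lit 27281) (nat_lit 0) .nil) .nil)))) (.nd (nat_lit 9) 
(.lf (nat_lit 452921) (.g (nat_lit 2736) (.e (nat_lit 2619) (nat_lit 164) (.e (nat_lit 172124) (nat_lit 14) (.e (nat_lit 491549) (nat_lit 9) (.e (nat_lit 336443) (nat_lit 32) (.e (nat_lit 466970) (nat_lit 21) .nil))))) (.g (nat_lit 0) (.e (nat_lit 25431) (nat_lit 0) .nil) .nil))) 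
(.lf (nat_lit 453433) (.g (nat_lit 1785) (.e (nat_lit 2629) (nat_lit 164) (.e (nat_lit 172118) (nat_lit 12) (.e (nat_lit 475198) (nat_lit 40) (.e (nat_lit 704598) (nat_lit 6) (.e (nat_lit 188446) (nat_lit 21) (.e (nat_lit 164347) (nat_lit 240) .nil)))))) (.g (nat_lit 1) (.e (nat_lit 29567) (nat_lit 0) .nil) .nil))))) (.nd (nat_lit 8) (.nd (nat_lit 9) 
(.lf (nat_lit 452793) (.g (nat_lit 1793) (.e (nat_lit 2619) (nat_lit 164) (.e (nat_lit 172118) (nat_lit 12) (.e (nat_lit 475198) (nat_lit 40) (.e (nat_lit 704599) (nat_lit 6) (.e (nat_lit 188444) (nat_lit 21) .nil))))) (.g (nat_lit 0) (.e (nat_lit 25209) (nat_lit 0) .nil) .nil))) 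
(.lf (nat_lit 453305) (.g (nat_lit 3112) (.e (nat_lit 2628) (nat_lit 164) (.e (nat_lit 172120) (nat_lit 12) (.e (nat_lit 475210) (nat_lit 41) (.e (nat_lit 712755) (nat_lit 30) (.e (nat_lit 450562) (nat_lit 0) (.e (nat_lit 5537) (nat_lit 306) .nil)))))) (.g (nat_lit 1) (.e (nat_lit 28263) (nat_lit 0) .nil) .nil)))) (.nd (nat_lit 9) 
(.lf (nat_lit 453049) (.g (nat_lit 2615) (.e (nat_lit 2621) (nat_lit 164) (.e (nat_lit 172067) (nat_lit 3) (.e (nat_lit 204869) (nat_lit 29) (.e (nat_lit 360474) (nat_lit 8) (.e (nat_lit 557094) (nat_lit 12) .nil))))) (.g (nat_lit 0) (.e (nat_lit 26197) (nat_lit 0) .nil) .nil))) 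
(.lf (nat_lit 453561) (.g (nat_lit 3435) (.e (nat_lit 2629) (nat_lit 164) (.e (nat_lit 172124) (nat_lit 14) (.e (nat_lit 491550) (nat_lit 9) (.e (nat_lit 336443) (nat_lit 32) (.e (nat_lit 466972) (nat_lit 21) (.e (nat_lit 164345) (nat_lit 240) .nil)))))) (.g (nat_lit 1) (.e (nat_lit 29784) (nat_lit 0) .nil) .nil)))))) (.nd (nat_lit 7) (.nd (nat_lit 8) (.nd (nat_lit 9) 
(.lf (nat_lit 452729) (.g (nat_lit 3257) (.e (nat_lit 2618) (nat_lit 164) (.e (nat_lit 172124) (nat_lit 14) (.e (nat_lit 491549) (nat_lit 9) (.e (nat_lit 336443) (nat_lit 32) (.e (nat_lit 466971) (nat_lit 21) (.e (nat_lit 164345) (nat_lit 240) .nil)))))) (.g (nat_lit 1) (.e (nat_lit 24463) (nat_lit 0) .nil) .nil))) 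
(.lf (nat_lit 453241) (.g (nat_lit 3030) (.e (nat_lit 2628) (nat_lit 164) (.e (nat_lit 172067) (nat_lit 3) (.e (nat_lit 204869) (nat_lit 29) (.e (nat_lit 360475) (nat_lit 8) (.e (nat_lit 557089) (nat_lit 12) (.e (nat_lit 163848) (nat_lit 0) (.e (nat_lit 6374) (nat_lit 337) .nil))))))) (.g (nat_lit 1) (.e (nat_lit 27592) (nat_lit 0) .nil) .nil)))) (.nd (nat_lit 9) 
(.lf (nat_lit 452985) (.g (nat_lit 2651) (.e (nat_lit 2619) (nat_lit 164) (.e (nat_lit 172126) (nat_lit 14) (.e (nat_lit 491549) (nat_lit 9) (.e (nat_lit 336434) (nat_lit 30) (.e (nat_lit 458496) (nat_lit 0) (.e (nat_lit 5546) (nat_lit 306) .nil)))))) (.g (nat_lit 1) (.e (nat_lit 25770) (nat_lit 0) .nil) .nil))) 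
(.lf (nat_lit 453497) (.g (nat_lit 2776) (.e (nat_lit 2629) (nat_lit 164) (.e (nat_lit 172120) (nat_lit 12) (.e (nat_lit 475210) (nat_lit 41) (.e (nat_lit 712755) (nat_lit 30) (.e (nat_lit 450565) (nat_lit 0) (.e (nat_lit 5548) (nat_lit 306) .nil)))))) (.g (nat_lit 1) (.e (nat_lit 29672) (nat_lit 0) .nil) .nil))))) (.nd (nat_lit 8) (.nd (nat_lit 9) 
(.lf (nat_lit 452857) (.g (nat_lit 3251) (.e (nat_lit 2619) (nat_lit 164) (.e (nat_lit 172120) (nat_lit 12) (.e (nat_lit 475199) (nat_lit 40) (.e (nat_lit 704598) (nat_lit 6) (.e (nat_lit 188446) (nat_lit 21) (.e (nat_lit 164347) (nat_lit 240) .nil)))))) (.g (nat_lit 1) (.e (nat_lit 25302) (nat_lit 0) .nil) .nil))) 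
(.lf (nat_lit 453369) (.g (nat_lit 1434) (.e (nat_lit 2628) (nat_lit 164) (.e (nat_lit 172126) (nat_lit 14) (.e (nat_lit 491537) (nat_lit 2) (.e (nat_lit 90170) (nat_lit 13) .nil)))) (.g (nat_lit 0) (.e (nat_lit 28644) (nat_lit 0) .nil) .nil)))) (.nd (nat_lit 9) 
(.lf (nat_lit 453113) (.g (nat_lit 2859) (.e (nat_lit 2623) (nat_lit 164) (.e (nat_lit 172126) (nat_lit 14) (.e (nat_lit 491537) (nat_lit 2) (.e (nat_lit 90170) (nat_lit 13) (.e (nat_lit 172106) (nat_lit 10) .nil))))) (.g (nat_lit 0) (.e (nat_lit 26584) (nat_lit 0) .nil) .nil))) 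
(.lf (nat_lit 453625) (.g (nat_lit 4025) (.e (nat_lit 2630) (nat_lit 164) (.e (nat_lit 172046) (nat_lit 0) (.e (nat_lit 3238) (nat_lit 197) (.e (nat_lit 532550) (nat_lit 12) (.e (nat_lit 360475) (nat_lit 8) (.e (nat_lit 557089) (nat_lit 12) (.e (nat_lit 163849) (nat_lit 0) (.e (nat_lit 6254) (nat_lit 337) .nil)))))))) (.g (nat_lit 1) (.e (nat_lit 30528) (nat_lit 0) .nil) .nil)))))))))) 
(.nd (nat_lit 3) (.nd (nat_lit 4) (.nd (nat_lit 5) (.nd (nat_lit 6) (.nd (nat_lit 7) 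
(.nd (nat_lit 8) (.nd (nat_lit 9) 
(.lf (nat_lit 452613) (.g (nat_lit 4826) (.e (nat_lit 2615) (nat_lit 163) (.e (nat_lit 163962) (nat_lit 25) (.e (nat_lit 532513) (nat_lit 3) (.e (nat_lit 114714) (nat_lit 22) (.e (nat_lit 90172) (nat_lit 14) (.e (nat_lit 180244) (nat_lit 5) (.e (nat_lit 532499) (nat_lit 1) (.e (nat_lit 57655) (nat_lit 152) .nil)))))))) (.g (nat_lit 1) (.e (nat_lit 23380) (nat_lit 0) .nil) .nil))) 
(.lf (nat_lit 453125) (.g (nat_lit 2197) (.e (nat_lit 2625) (nat_lit 164) (.e (nat_lit 172120) (nat_lit 12) (.e (nat_lit 475207) (nat_lit 41) (.e (nat_lit 712755) (nat_lit 30) (.e (nat_lit 450563) (nat_lit 0) (.e (nat_lit 5539) (nat_lit 306) .nil)))))) (.g (nat_lit 1) (.e (nat_lit 26806) (nat_lit 0) .nil) .nil)))) (.nd (nat_lit 9) 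
(.lf (nat_lit 452869) (.g (nat_lit 2199) (.e (nat_lit 2619) (nat_lit 164) (.e (nat_lit 172120) (nat_lit 12) (.e (nat_lit 475210) (nat_lit 41) (.e (nat_lit 712753) (nat_lit 30) (.e (nat_lit 450565) (nat_lit 0) (.e (nat_lit 5546) (nat_lit 306) .nil)))))) (.g (nat_lit 1) (.e (nat_lit 25326) (nat_lit 0) .nil) .nil))) 
(.lf (nat_lit 453381) (.g (nat_lit 2158) (.e (nat_lit 2628) (nat_lit 164) (.e (nat_lit 172126) (nat_lit 14) (.e (nat_lit 491547) (nat_lit 9) (.e (nat_lit 336434) (nat_lit 30) (.e (nat_lit 450564) (nat_lit 0) (.e (nat_lit 5548) (nat_lit 306) .nil)))))) (.g (nat_lit 1) (.e (nat_lit 28661) (nat_lit 0) .nil) .nil))))) (.nd (nat_lit 8) (.nd (nat_lit 9) 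
(.lf (nat_lit 452741) (.g (nat_lit 2865) (.e (nat_lit 2618) (nat_lit 164) (.e (nat_lit 172126) (nat_lit 14) (.e (nat_lit 491540) (nat_lit 3) (.e (nat_lit 98373) (nat_lit 29) (.e (nat_lit 450560) (nat_lit 0) (.e (nat_lit 3988) (nat_lit 239) .nil)))))) (.g (nat_lit 1) (.e (nat_lit 24627) (nat_lit 0) .nil) .nil))) 
(.lf (nat_lit 453253) (.g (nat_lit 1662) (.e (nat_lit 2628) (nat_lit 164) (.e (nat_lit 172118) (nat_lit 12) (.e (nat_lit 475198) (nat_lit 40) (.e (nat_lit 704599) (nat_lit 6) (.e (nat_lit 188446) (nat_lit 21) (.e (nat_lit 164345) (nat_lit 240) .nil)))))) (.g (nat_lit 1) (.e (nat_lit 28164) (nat_lit 0) .nil) .nil)))) (.nd (nat_lit 9) 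
(.lf (nat_lit 452997) (.g (nat_lit 2614) (.e (nat_lit 2619) (nat_lit 164) (.e (nat_lit 172126) (nat_lit 14) (.e (nat_lit 491550) (nat_lit 9) (.e (nat_lit 336430) (nat_lit 29) (.e (nat_lit 442421) (nat_lit 21) (.e (nat_lit 164346) (nat_lit 240) .nil)))))) (.g (nat_lit 1) (.e (nat_lit 25783) (nat_lit 0) .nil) .nil))) 
(.lf (nat_lit 453509) (.g (nat_lit 2086) (.e (nat_lit 2629) (nat_lit 164) (.e (nat_lit 172120) (nat_lit 12) (.e (nat_lit 475211) (nat_lit 41) (.e (nat_lit 712753) (nat_lit 30) (.e (nat_lit 458496) (nat_lit 0) (.e (nat_lit 5547) (nat_lit 306) .nil)))))) (.g (nat_lit 1) (.e (nat_lit 29686) (nat_lit 0) .nil) .nil)))))) (.nd (nat_lit 7) (.nd (nat_lit 8) (.nd (nat_lit 9) 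
(.lf (nat_lit 452677) (.g (nat_lit 3530) (.e (nat_lit 2617) (nat_lit 164) (.e (nat_lit 172126) (nat_lit 14) (.e (nat_lit 491550) (nat_lit 9) (.e (nat_lit 336443) (nat_lit 32) (.e (nat_lit 466969) (nat_lit 21) (.e (nat_lit 164348) (nat_lit 240) .nil)))))) (.g (nat_lit 1) (.e (nat_lit 23937) (nat_lit 0) .nil) .nil))) 
(.lf (nat_lit 453189) (.g (nat_lit 2559) (.e (nat_lit 2628) (nat_lit 164) (.e (nat_lit 172062) (nat_lit 2) (.e (nat_lit 196666) (nat_lit 13) (.e (nat_lit 65617) (nat_lit 10) (.e (nat_lit 344130) (nat_lit 26) (.e (nat_lit 557090) (nat_lit 12) (.e (nat_lit 163841) (nat_lit 0) (.e (nat_lit 6374) (nat_lit 337) .nil)))))))) (.g (nat_lit 1) (.e (nat_lit 27488) (nat_lit 0) .nil) .nil)))) 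
(.nd (nat_lit 9) 
(.lf (nat_lit 452933) (.g (nat_lit 2031) (.e (nat_lit 2619) (nat_lit 164) (.e (nat_lit 172124) (nat_lit 14) (.e (nat_lit 491550) (nat_lit 9) (.e (nat_lit 336434) (nat_lit 30) (.e (nat_lit 458496) (nat_lit 0) (.e (nat_lit 5543) (nat_lit 306) .nil)))))) (.g (nat_lit 1) (.e (nat_lit 25446) (nat_lit 0) .nil) .nil))) 
(.lf (nat_lit 453445) (.g (nat_lit 1915) (.e (nat_lit 2629) (nat_lit 164) (.e (nat_lit 172118) (nat_lit 12) (.e (nat_lit 475210) (nat_lit 41) (.e (nat_lit 712755) (nat_lit 30) (.e (nat_lit 458496) (nat_lit 0) .nil))))) (.g (nat_lit 0) (.e (nat_lit 29587) (nat_lit 0) .nil) .nil))))) (.nd (nat_lit 8) (.nd (nat_lit 9) 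
(.lf (nat_lit 452805) (.g (nat_lit 2419) (.e (nat_lit 2619) (nat_lit 164) (.e (nat_lit 172118) (nat_lit 12) (.e (nat_lit 475210) (nat_lit 41) (.e (nat_lit 712755) (nat_lit 30) (.e (nat_lit 450562) (nat_lit 0) (.e (nat_lit 5537) (nat_lit 306) .nil)))))) (.g (nat_lit 1) (.e (nat_lit 25232) (nat_lit 0) .nil) .nil))) 
(.lf (nat_lit 453317) (.g (nat_lit 2136) (.e (nat_lit 2628) (nat_lit 164) (.e (nat_lit 172120) (nat_lit 12) (.e (nat_lit 475211) (nat_lit 41) (.e (nat_lit 712753) (nat_lit 30) (.e (nat_lit 458496) (nat_lit 0) (.e (nat_lit 5546) (nat_lit 306) .nil)))))) (.g (nat_lit 1) (.e (nat_lit 28279) (nat_lit 0) .nil) .nil)))) (.nd (nat_lit 9) 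
(.lf (nat_lit 453061) (.g (nat_lit 1966) (.e (nat_lit 2621) (nat_lit 164) (.e (nat_lit 172120) (nat_lit 12) (.e (nat_lit 475198) (nat_lit 40) (.e (nat_lit 704599) (nat_lit 6) (.e (nat_lit 188455) (nat_lit 24) .nil))))) (.g (nat_lit 0) (.e (nat_lit 26211) (nat_lit 0) .nil) .nil))) 
(.lf (nat_lit 453573) (.g (nat_lit 2840) (.e (nat_lit 2629) (nat_lit 164) (.e (nat_lit 172126) (nat_lit 14) (.e (nat_lit 491547) (nat_lit 9) (.e (nat_lit 336443) (nat_lit 32) (.e (nat_lit 466969) (nat_lit 21) (.e (nat_lit 164345) (nat_lit 240) .nil)))))) (.g (nat_lit 1) (.e (nat_lit 30208) (nat_lit 0) .nil) .nil))))))) (.nd (nat_lit 6) (.nd (nat_lit 7) (.nd (nat_lit 8) (.nd (nat_lit 9) 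
(.lf (nat_lit 452645) (.g (nat_lit 1906) (.e (nat_lit 2617) (nat_lit 164) (.e (nat_lit 172126) (nat_lit 14) (.e (nat_lit 491540) (nat_lit 3) (.e (nat_lit 98372) (nat_lit 29) (.e (nat_lit 450568) (nat_lit 0) .nil))))) (.g (nat_lit 0) (.e (nat_lit 23856) (nat_lit 0) .nil) .nil))) 
(.lf (nat_lit 453157) (.g (nat_lit 3963) (.e (nat_lit 2625) (nat_lit 164) (.e (nat_lit 172126) (nat_lit 14) (.e (nat_lit 491540) (nat_lit 3) (.e (nat_lit 98373) (nat_lit 29) (.e (nat_lit 450568) (nat_lit 0) (.e (nat_lit 3966) (nat_lit 239) .nil)))))) (.g (nat_lit 1) (.e (nat_lit 26987) (nat_lit 0) .nil) .nil)))) (.nd (nat_lit 9) 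
(.lf (nat_lit 452901) (.g (nat_lit 1444) (.e (nat_lit 2619) (nat_lit 164) (.e (nat_lit 172124) (nat_lit 14) (.e (nat_lit 491547) (nat_lit 9) (.e (nat_lit 336434) (nat_lit 30) .nil)))) (.g (nat_lit 0) (.e (nat_lit 25395) (nat_lit 0) .nil) .nil))) 
(.lf (nat_lit 453413) (.g (nat_lit 3415) (.e (nat_lit 2628) (nat_lit 164) (.e (nat_lit 172126) (nat_lit 14) (.e (nat_lit 491550) (nat_lit 9) (.e (nat_lit 336432) (nat_lit 30) (.e (nat_lit 450565) (nat_lit 0) (.e (nat_lit 5548) (nat_lit 306) .nil)))))) (.g (nat_lit 1) (.e (nat_lit 28725) (nat_lit 0) .nil) .nil))))) (.nd (nat_lit 8) (.nd (nat_lit 9) 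
(.lf (nat_lit 452773) (.g (nat_lit 3331) (.e (nat_lit 2619) (nat_lit 164) (.e (nat_lit 172062) (nat_lit 2) (.e (nat_lit 196666) (nat_lit 13) (.e (nat_lit 65610) (nat_lit 10) (.e (nat_lit 344117) (nat_lit 21) (.e (nat_lit 516106) (nat_lit 0) (.e (nat_lit 7936) (nat_lit 157) (.e (nat_lit 4507) (nat_lit 263) .nil)))))))) (.g (nat_lit 1) (.e (nat_lit 24745) (nat_lit 0) .nil) .nil))) 
(.lf (nat_lit 453285) (.g (nat_lit 2337) (.e (nat_lit 2628) (nat_lit 164) (.e (nat_lit 172118) (nat_lit 12) (.e (nat_lit 475211) (nat_lit 41) (.e (nat_lit 712755) (nat_lit 30) (.e (nat_lit 458496) (nat_lit 0) (.e (nat_lit 5547) (nat_lit 306) .nil)))))) (.g (nat_lit 1) (.e (nat_lit 28213) (nat_lit 0) .nil) .nil)))) (.nd (nat_lit 9) 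
(.lf (nat_lit 453029) (.g (nat_lit 2590) (.e (nat_lit 2620) (nat_lit 164) (.e (nat_lit 172067) (nat_lit 3) (.e (nat_lit 204869) (nat_lit 29) (.e (nat_lit 360474) (nat_lit 8) (.e (nat_lit 557093) (nat_lit 12) .nil))))) (.g (nat_lit 0) (.e (nat_lit 26010) (nat_lit 0) .nil) .nil))) 
(.lf (nat_lit 453541) (.g (nat_lit 2659) (.e (nat_lit 2629) (nat_lit 164) (.e (nat_lit 172124) (nat_lit 14) (.e (nat_lit 491549) (nat_lit 9) (.e (nat_lit 336443) (nat_lit 32) (.e (nat_lit 466971) (nat_lit 21) (.e (nat_lit 164346) (nat_lit 240) .nil)))))) (.g (nat_lit 1) (.e (nat_lit 29761) (nat_lit 0) .nil) .nil)))))) (.nd (nat_lit 7) (.nd (nat_lit 8) (.nd (nat_lit 9) 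
(.lf (nat_lit 452709) (.g (nat_lit 2042) (.e (nat_lit 2618) (nat_lit 164) (.e (nat_lit 172120) (nat_lit 12) (.e (nat_lit 475198) (nat_lit 40) (.e (nat_lit 704599) (nat_lit 6) (.e (nat_lit 188446) (nat_lit 21) (.e (nat_lit 164345) (nat_lit 240) .nil)))))) (.g (nat_lit 1) (.e (nat_lit 24419) (nat_lit 0) .nil) .nil))) 
(.lf (nat_lit 453221) (.g (nat_lit 3065) (.e (nat_lit 2628) (nat_lit 164) (.e (nat_lit 172066) (nat_lit 3) (.e (nat_lit 204869) (nat_lit 29) (.e (nat_lit 360475) (nat_lit 8) (.e (nat_lit 557089) (nat_lit 12) (.e (nat_lit 163843) (nat_lit 0) (.e (nat_lit 6374) (nat_lit 337) .nil))))))) (.g (nat_lit 1) (.e (nat_lit 27544) (nat_lit 0) .nil) .nil)))) (.nd (nat_lit 9) 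
(.lf (nat_lit 452965) (.g (nat_lit 3280) (.e (nat_lit 2619) (nat_lit 164) (.e (nat_lit 172126) (nat_lit 14) (.e (nat_lit 491547) (nat_lit 9) (.e (nat_lit 336443) (nat_lit 32) (.e (nat_lit 466971) (nat_lit 21) (.e (nat_lit 164348) (nat_lit 240) .nil)))))) (.g (nat_lit 1) (.e (nat_lit 25730) (nat_lit 0) .nil) .nil))) 
(.lf (nat_lit 453477) (.g (nat_lit 1956) (.e (nat_lit 2629) (nat_lit 164) (.e (nat_lit 172119) (nat_lit 12) (.e (nat_lit 475211) (nat_lit 41) (.e (nat_lit 712755) (nat_lit 30) (.e (nat_lit 458496) (nat_lit 0) (.e (nat_lit 5543) (nat_lit 306) .nil)))))) (.g (nat_lit 1) (.e (nat_lit 29629) (nat_lit 0) .nil) .nil))))) (.nd (nat_lit 8) (.nd (nat_lit 9) 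
(.lf (nat_lit 452837) (.g (nat_lit 3394) (.e (nat_lit 2619) (nat_lit 164) (.e (nat_lit 172119) (nat_lit 12) (.e (nat_lit 475211) (nat_lit 41) (.e (nat_lit 712755) (nat_lit 30) (.e (nat_lit 450563) (nat_lit 0) (.e (nat_lit 5537) (nat_lit 306) .nil)))))) (.g (nat_lit 1) (.e (nat_lit 25273) (nat_lit 0) .nil) .nil))) 
(.lf (nat_lit 453349) (.g (nat_lit 2954) (.e (nat_lit 2628) (nat_lit 164) (.e (nat_lit 172124) (nat_lit 14) (.e (nat_lit 491549) (nat_lit 9) (.e (nat_lit 336443) (nat_lit 32) (.e (nat_lit 466971) (nat_lit 21) (.e (nat_lit 164347) (nat_lit 240) .nil)))))) (.g (nat_lit 1) (.e (nat_lit 28381) (nat_lit 0) .nil) .nil)))) (.nd (nat_lit 9) 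
(.lf (nat_lit 453093) (.g (nat_lit 552) (.e (nat_lit 2622) (nat_lit 164) (.e (nat_lit 172119) (nat_lit 12) (.e (nat_lit 475198) (nat_lit 40) .nil))) (.g (nat_lit 0) (.e (nat_lit 26304) (nat_lit 0) .nil) .nil))) 
(.lf (nat_lit 453605) (.g (nat_lit 3507) (.e (nat_lit 2629) (nat_lit 164) (.e (nat_lit 172126) (nat_lit 14) (.e (nat_lit 491550) (nat_lit 9) (.e (nat_lit 336430) (nat_lit 29) (.e (nat_lit 442419) (nat_lit 21) (.e (nat_lit 164348) (nat_lit 240) .nil)))))) (.g (nat_lit 1) (.e (nat_lit 30279) (nat_lit 0) .nil) .nil)))))))) 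
(.nd (nat_lit 5) (.nd (nat_lit 6) (.nd (nat_lit 7) (.nd (nat_lit 8) (.nd (nat_lit 9) 
(.lf (nat_lit 452629) (.g (nat_lit 5118) (.e (nat_lit 2616) (nat_lit 164) (.e (nat_lit 172126) (nat_lit 14) (.e (nat_lit 491540) (nat_lit 3) (.e (nat_lit 98373) (nat_lit 29) (.e (nat_lit 450563) (nat_lit 0) (.e (nat_lit 3948) (nat_lit 239) .nil)))))) (.g (nat_lit 1) (.e (nat_lit 23573) (nat_lit 0) .nil) .nil))) 
(.lf (nat_lit 453141) (.g (nat_lit 2721) (.e (nat_lit 2625) (nat_lit 164) (.e (nat_lit 172124) (nat_lit 14) (.e (nat_lit 491540) (nat_lit 3) (.e (nat_lit 98373) (nat_lit 29) (.e (nat_lit 450569) (nat_lit 0) (.e (nat_lit 3966) (nat_lit 239) .nil)))))) (.g (nat_lit 1) (.e (nat_lit 26890) (nat_lit 0) .nil) .nil)))) (.nd (nat_lit 9) 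
(.lf (nat_lit 452885) (.g (nat_lit 3802) (.e (nat_lit 2619) (nat_lit 164) (.e (nat_lit 172120) (nat_lit 12) (.e (nat_lit 475211) (nat_lit 41) (.e (nat_lit 712752) (nat_lit 29) (.e (nat_lit 442421) (nat_lit 21) (.e (nat_lit 164346) (nat_lit 240) .nil)))))) (.g (nat_lit 1) (.e (nat_lit 25344) (nat_lit 0) .nil) .nil))) 
(.lf (nat_lit 453397) (.g (nat_lit 3637) (.e (nat_lit 2628) (nat_lit 164) (.e (nat_lit 172126) (nat_lit 14) (.e (nat_lit 491549) (nat_lit 9) (.e (nat_lit 336432) (nat_lit 30) (.e (nat_lit 450565) (nat_lit 0) (.e (nat_lit 5548) (nat_lit 306) .nil)))))) (.g (nat_lit 1) (.e (nat_lit 28707) (nat_lit 0) .nil) .nil))))) (.nd (nat_lit 8) (.nd (nat_lit 9) 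
(.lf (nat_lit 452757) (.g (nat_lit 2557) (.e (nat_lit 2618) (nat_lit 164) (.e (nat_lit 172126) (nat_lit 14) (.e (nat_lit 491549) (nat_lit 9) (.e (nat_lit 336443) (nat_lit 32) (.e (nat_lit 466971) (nat_lit 21) .nil))))) (.g (nat_lit 0) (.e (nat_lit 24649) (nat_lit 0) .nil) .nil))) 
(.lf (nat_lit 453269) (.g (nat_lit 2305) (.e (nat_lit 2628) (nat_lit 164) (.e (nat_lit 172118) (nat_lit 12) (.e (nat_lit 475211) (nat_lit 41) (.e (nat_lit 712750) (nat_lit 29) (.e (nat_lit 442421) (nat_lit 21) (.e (nat_lit 164345) (nat_lit 240) .nil)))))) (.g (nat_lit 1) (.e (nat_lit 28195) (nat_lit 0) .nil) .nil)))) (.nd (nat_lit 9) 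
(.lf (nat_lit 453013) (.g (nat_lit 2715) (.e (nat_lit 2619) (nat_lit 164) (.e (nat_lit 172126) (nat_lit 14) (.e (nat_lit 491569) (nat_lit 13) (.e (nat_lit 393266) (nat_lit 23) (.e (nat_lit 426109) (nat_lit 1) (.e (nat_lit 164347) (nat_lit 240) .nil)))))) (.g (nat_lit 1) (.e (nat_lit 25808) (nat_lit 0) .nil) .nil))) 
(.lf (nat_lit 453525) (.g (nat_lit 3000) (.e (nat_lit 2629) (nat_lit 164) (.e (nat_lit 172124) (nat_lit 14) (.e (nat_lit 491549) (nat_lit 9) (.e (nat_lit 336426) (nat_lit 29) (.e (nat_lit 442421) (nat_lit 21) (.e (nat_lit 164347) (nat_lit 240) .nil)))))) (.g (nat_lit 1) (.e (nat_lit 29742) (nat_lit 0) .nil) .nil)))))) (.nd (nat_lit 7) (.nd (nat_lit 8) (.nd (nat_lit 9) 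
(.lf (nat_lit 452693) (.g (nat_lit 3186) (.e (nat_lit 2618) (nat_lit 164) (.e (nat_lit 172118) (nat_lit 12) (.e (nat_lit 475211) (nat_lit 41) (.e (nat_lit 712752) (nat_lit 29) (.e (nat_lit 442421) (nat_lit 21) (.e (nat_lit 164346) (nat_lit 240) .nil)))))) (.g (nat_lit 1) (.e (nat_lit 24389) (nat_lit 0) .nil) .nil))) 
(.lf (nat_lit 453205) (.g (nat_lit 2737) (.e (nat_lit 2628) (nat_lit 164) (.e (nat_lit 172064) (nat_lit 2) (.e (nat_lit 196666) (nat_lit 13) (.e (nat_lit 65617) (nat_lit 10) (.e (nat_lit 344130) (nat_lit 26) .nil))))) (.g (nat_lit 0) (.e (nat_lit 27508) (nat_lit 0) .nil) .nil)))) (.nd (nat_lit 9) 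
(.lf (nat_lit 452949) (.g (nat_lit 1289) (.e (nat_lit 2619) (nat_lit 164) (.e (nat_lit 172124) (nat_lit 14) (.e (nat_lit 491569) (nat_lit 13) (.e (nat_lit 393279) (nat_lit 23) .nil)))) (.g (nat_lit 0) (.e (nat_lit 25468) (nat_lit 0) .nil) .nil))) 
(.lf (nat_lit 453461) (.g (nat_lit 942) (.e (nat_lit 2629) (nat_lit 164) (.e (nat_lit 172119) (nat_lit 12) (.e (nat_lit 475198) (nat_lit 40) (.e (nat_lit 704599) (nat_lit 6) .nil)))) (.g (nat_lit 0) (.e (nat_lit 29603) (nat_lit 0) .nil) .nil))))) (.nd (nat_lit 8) (.nd (nat_lit 9) 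
(.lf (nat_lit 452821) (.g (nat_lit 1869) (.e (nat_lit 2619) (nat_lit 164) (.e (nat_lit 172118) (nat_lit 12) (.e (nat_lit 475211) (nat_lit 41) (.e (nat_lit 712755) (nat_lit 30) (.e (nat_lit 458496) (nat_lit 0) .nil))))) (.g (nat_lit 0) (.e (nat_lit 25251) (nat_lit 0) .nil) .nil))) 
(.lf (nat_lit 453333) (.g (nat_lit 2955) (.e (nat_lit 2628) (nat_lit 164) (.e (nat_lit 172124) (nat_lit 14) (.e (nat_lit 491549) (nat_lit 9) (.e (nat_lit 336430) (nat_lit 29) (.e (nat_lit 442419) (nat_lit 21) (.e (nat_lit 164347) (nat_lit 240) .nil)))))) (.g (nat_lit 1) (.e (nat_lit 28365) (nat_lit 0) .nil) .nil)))) (.nd (nat_lit 9) 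
(.lf (nat_lit 453077) (.g (nat_lit 2681) (.e (nat_lit 2622) (nat_lit 164) (.e (nat_lit 172065) (nat_lit 3) (.e (nat_lit 204869) (nat_lit 29) (.e (nat_lit 360475) (nat_lit 8) (.e (nat_lit 557089) (nat_lit 12) .nil))))) (.g (nat_lit 0) (.e (nat_lit 26272) (nat_lit 0) .nil) .nil))) 
(.lf (nat_lit 453589) (.g (nat_lit 2143) (.e (nat_lit 2629) (nat_lit 164) (.e (nat_lit 172126) (nat_lit 14) (.e (nat_lit 491549) (nat_lit 9) (.e (nat_lit 336432) (nat_lit 30) (.e (nat_lit 458496) (nat_lit 0) (.e (nat_lit 5546) (nat_lit 306) .nil)))))) (.g (nat_lit 1) (.e (nat_lit 30260) (nat_lit 0) .nil) .nil))))))) (.nd (nat_lit 6) (.nd (nat_lit 7) (.nd (nat_lit 8) (.nd (nat_lit 9) 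
(.lf (nat_lit 452661) (.g (nat_lit 3355) (.e (nat_lit 2617) (nat_lit 164) (.e (nat_lit 172126) (nat_lit 14) (.e (nat_lit 491549) (nat_lit 9) (.e (nat_lit 336432) (nat_lit 30) (.e (nat_lit 450565) (nat_lit 0) (.e (nat_lit 5548) (nat_lit 306) .nil)))))) (.g (nat_lit 1) (.e (nat_lit 23913) (nat_lit 0) .nil) .nil))) 
(.lf (nat_lit 453173) (.g (nat_lit 2217) (.e (nat_lit 2626) (nat_lit 164) (.e (nat_lit 172126) (nat_lit 14) (.e (nat_lit 491540) (nat_lit 3) (.e (nat_lit 98372) (nat_lit 29) (.e (nat_lit 450568) (nat_lit 0) .nil))))) (.g (nat_lit 0) (.e (nat_lit 27276) (nat_lit 0) .nil) .nil)))) (.nd (nat_lit 9) 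
(.lf (nat_lit 452917) (.g (nat_lit 2885) (.e (nat_lit 2619) (nat_lit 164) (.e (nat_lit 172124) (nat_lit 14) (.e (nat_lit 491549) (nat_lit 9) (.e (nat_lit 336434) (nat_lit 30) (.e (nat_lit 450564) (nat_lit 0) (.e (nat_lit 5547) (nat_lit 306) .nil)))))) (.g (nat_lit 1) (.e (nat_lit 25427) (nat_lit 0) .nil) .nil))) 
(.lf (nat_lit 453429) (.g (nat_lit 3644) (.e (nat_lit 2629) (nat_lit 164) (.e (nat_lit 172064) (nat_lit 2) (.e (nat_lit 196666) (nat_lit 13) (.e (nat_lit 65610) (nat_lit 10) (.e (nat_lit 344117) (nat_lit 21) (.e (nat_lit 516097) (nat_lit 0) (.e (nat_lit 2431) (nat_lit 157) (.e (nat_lit 4516) (nat_lit 263) .nil)))))))) (.g (nat_lit 1) (.e (nat_lit 29017) (nat_lit 0) .nil) .nil))))) 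
(.nd (nat_lit 8) (.nd (nat_lit 9) 
(.lf (nat_lit 452789) (.g (nat_lit 2777) (.e (nat_lit 2619) (nat_lit 164) (.e (nat_lit 172118) (nat_lit 12) (.e (nat_lit 475198) (nat_lit 40) (.e (nat_lit 704598) (nat_lit 6) (.e (nat_lit 188444) (nat_lit 21) (.e (nat_lit 164348) (nat_lit 240) .nil)))))) (.g (nat_lit 1) (.e (nat_lit 25205) (nat_lit 0) .nil) .nil))) 
(.lf (nat_lit 453301) (.g (nat_lit 3939) (.e (nat_lit 2628) (nat_lit 164) (.e (nat_lit 172120) (nat_lit 12) (.e (nat_lit 475210) (nat_lit 41) (.e (nat_lit 712752) (nat_lit 29) (.e (nat_lit 442421) (nat_lit 21) (.e (nat_lit 164347) (nat_lit 240) .nil)))))) (.g (nat_lit 1) (.e (nat_lit 28259) (nat_lit 0) .nil) .nil)))) (.nd (nat_lit 9) 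
(.lf (nat_lit 453045) (.g (nat_lit 2983) (.e (nat_lit 2621) (nat_lit 164) (.e (nat_lit 172066) (nat_lit 3) (.e (nat_lit 204869) (nat_lit 29) (.e (nat_lit 360475) (nat_lit 8) (.e (nat_lit 557091) (nat_lit 12) (.e (nat_lit 163843) (nat_lit 0) (.e (nat_lit 6250) (nat_lit 337) .nil))))))) (.g (nat_lit 1) (.e (nat_lit 26174) (nat_lit 0) .nil) .nil))) 
(.lf (nat_lit 453557) (.g (nat_lit 3473) (.e (nat_lit 2629) (nat_lit 164) (.e (nat_lit 172124) (nat_lit 14) (.e (nat_lit 491550) (nat_lit 9) (.e (nat_lit 336443) (nat_lit 32) (.e (nat_lit 466971) (nat_lit 21) (.e (nat_lit 164345) (nat_lit 240) .nil)))))) (.g (nat_lit 1) (.e (nat_lit 29780) (nat_lit 0) .nil) .nil)))))) (.nd (nat_lit 7) (.nd (nat_lit 8) (.nd (nat_lit 9) 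
(.lf (nat_lit 452725) (.g (nat_lit 2653) (.e (nat_lit 2618) (nat_lit 164) (.e (nat_lit 172124) (nat_lit 14) (.e (nat_lit 491549) (nat_lit 9) (.e (nat_lit 336432) (nat_lit 30) (.e (nat_lit 450565) (nat_lit 0) (.e (nat_lit 5548) (nat_lit 306) .nil)))))) (.g (nat_lit 1) (.e (nat_lit 24459) (nat_lit 0) .nil) .nil))) 
(.lf (nat_lit 453237) (.g (nat_lit 2813) (.e (nat_lit 2628) (nat_lit 164) (.e (nat_lit 172067) (nat_lit 3) (.e (nat_lit 204869) (nat_lit 29) (.e (nat_lit 360474) (nat_lit 8) (.e (nat_lit 557094) (nat_lit 12) (.e (nat_lit 163847) (nat_lit 0) (.e (nat_lit 6374) (nat_lit 337) .nil))))))) (.g (nat_lit 1) (.e (nat_lit 27588) (nat_lit 0) .nil) .nil)))) (.nd (nat_lit 9) 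
(.lf (nat_lit 452981) (.g (nat_lit 2355) (.e (nat_lit 2619) (nat_lit 164) (.e (nat_lit 172126) (nat_lit 14) (.e (nat_lit 491549) (nat_lit 9) (.e (nat_lit 336432) (nat_lit 30) (.e (nat_lit 458496) (nat_lit 0) (.e (nat_lit 5547) (nat_lit 306) .nil)))))) (.g (nat_lit 1) (.e (nat_lit 25766) (nat_lit 0) .nil) .nil))) 
(.lf (nat_lit 453493) (.g (nat_lit 2144) (.e (nat_lit 2629) (nat_lit 164) (.e (nat_lit 172120) (nat_lit 12) (.e (nat_lit 475210) (nat_lit 41) (.e (nat_lit 712753) (nat_lit 30) (.e (nat_lit 458496) (nat_lit 0) (.e (nat_lit 5547) (nat_lit 306) .nil)))))) (.g (nat_lit 1) (.e (nat_lit 29668) (nat_lit 0) .nil) .nil))))) (.nd (nat_lit 8) (.nd (nat_lit 9) 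
(.lf (nat_lit 452853) (.g (nat_lit 2321) (.e (nat_lit 2619) (nat_lit 164) (.e (nat_lit 172120) (nat_lit 12) (.e (nat_lit 475198) (nat_lit 40) (.e (nat_lit 704599) (nat_lit 6) (.e (nat_lit 188446) (nat_lit 21) (.e (nat_lit 164345) (nat_lit 240) .nil)))))) (.g (nat_lit 1) (.e (nat_lit 25294) (nat_lit 0) .nil) .nil))) 
(.lf (nat_lit 453365) (.g (nat_lit 3051) (.e (nat_lit 2628) (nat_lit 164) (.e (nat_lit 172124) (nat_lit 14) (.e (nat_lit 491550) (nat_lit 9) (.e (nat_lit 336443) (nat_lit 32) (.e (nat_lit 466971) (nat_lit 21) (.e (nat_lit 164345) (nat_lit 240) .nil)))))) (.g (nat_lit 1) (.e (nat_lit 28398) (nat_lit 0) .nil) .nil)))) (.nd (nat_lit 9) 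
(.lf (nat_lit 453109) (.g (nat_lit 2407) (.e (nat_lit 2622) (nat_lit 164) (.e (nat_lit 172150) (nat_lit 27) (.e (nat_lit 336387) (nat_lit 27) (.e (nat_lit 426200) (nat_lit 9) (.e (nat_lit 426436) (nat_lit 18) (.e (nat_lit 98334) (nat_lit 18) (.e (nat_lit 164305) (nat_lit 226) .nil))))))) (.g (nat_lit 1) (.e (nat_lit 26434) (nat_lit 0) .nil) .nil))) 
(.lf (nat_lit 453621) (.g (nat_lit 3601) (.e (nat_lit 2629) (nat_lit 164) (.e (nat_lit 172126) (nat_lit 14) (.e (nat_lit 491550) (nat_lit 9) (.e (nat_lit 336443) (nat_lit 32) (.e (nat_lit 466971) (nat_lit 21) (.e (nat_lit 164348) (nat_lit 240) .nil)))))) (.g (nat_lit 1) (.e (nat_lit 30296) (nat_lit 0) .nil) .nil))))))))) 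
(.nd (nat_lit 4) (.nd (nat_lit 5) (.nd (nat_lit 6) (.nd (nat_lit 7) (.nd (nat_lit 8) 
(.nd (nat_lit 9) 
(.lf (nat_lit 452621) (.g (nat_lit 2028) (.e (nat_lit 2616) (nat_lit 164) (.e (nat_lit 172126) (nat_lit 14) (.e (nat_lit 491537) (nat_lit 2) (.e (nat_lit 90170) (nat_lit 13) (.e (nat_lit 172113) (nat_lit 10) (.e (nat_lit 434203) (nat_lit 18) (.e (nat_lit 3948) (nat_lit 239) .nil))))))) (.g (nat_lit 1) (.e (nat_lit 23562) (nat_lit 0) .nil) .nil))) 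
(.lf (nat_lit 453133) (.g (nat_lit 3919) (.e (nat_lit 2625) (nat_lit 164) (.e (nat_lit 172120) (nat_lit 12) (.e (nat_lit 475211) (nat_lit 41) (.e (nat_lit 712755) (nat_lit 30) (.e (nat_lit 450563) (nat_lit 0) (.e (nat_lit 5539) (nat_lit 306) .nil)))))) (.g (nat_lit 1) (.e (nat_lit 26846) (nat_lit 0) .nil) .nil)))) (.nd (nat_lit 9) 
(.lf (nat_lit 452877) (.g (nat_lit 2065) (.e (nat_lit 2619) (nat_lit 164) (.e (nat_lit 172120) (nat_lit 12) (.e (nat_lit 475210) (nat_lit 41) (.e (nat_lit 712755) (nat_lit 30) (.e (nat_lit 450566) (nat_lit 0) .nil))))) (.g (nat_lit 0) (.e (nat_lit 25335) (nat_lit 0) .nil) .nil))) 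
(.lf (nat_lit 453389) (.g (nat_lit 1921) (.e (nat_lit 2628) (nat_lit 164) (.e (nat_lit 172126) (nat_lit 14) (.e (nat_lit 491549) (nat_lit 9) (.e (nat_lit 336426) (nat_lit 29) (.e (nat_lit 442421) (nat_lit 21) .nil))))) (.g (nat_lit 0) (.e (nat_lit 28699) (nat_lit 0) .nil) .nil))))) (.nd (nat_lit 8) (.nd (nat_lit 9) 
(.lf (nat_lit 452749) (.g (nat_lit 2430) (.e (nat_lit 2618) (nat_lit 164) (.e (nat_lit 172126) (nat_lit 14) (.e (nat_lit 491547) (nat_lit 9) (.e (nat_lit 336443) (nat_lit 32) (.e (nat_lit 466972) (nat_lit 21) .nil))))) (.g (nat_lit 0) (.e (nat_lit 24637) (nat_lit 0) .nil) .nil))) 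
(.lf (nat_lit 453261) (.g (nat_lit 1515) (.e (nat_lit 2628) (nat_lit 164) (.e (nat_lit 172118) (nat_lit 12) (.e (nat_lit 475210) (nat_lit 41) (.e (nat_lit 712753) (nat_lit 30) (.e (nat_lit 458496) (nat_lit 0) .nil))))) (.g (nat_lit 0) (.e (nat_lit 28186) (nat_lit 0) .nil) .nil)))) (.nd (nat_lit 9) 
(.lf (nat_lit 453005) (.g (nat_lit 3227) (.e (nat_lit 2619) (nat_lit 164) (.e (nat_lit 172126) (nat_lit 14) (.e (nat_lit 491550) (nat_lit 9) (.e (nat_lit 336443) (nat_lit 32) (.e (nat_lit 466971) (nat_lit 21) (.e (nat_lit 164345) (nat_lit 240) .nil)))))) (.g (nat_lit 1) (.e (nat_lit 25791) (nat_lit 0) .nil) .nil))) 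
(.lf (nat_lit 453517) (.g (nat_lit 2173) (.e (nat_lit 2629) (nat_lit 164) (.e (nat_lit 172124) (nat_lit 14) (.e (nat_lit 491540) (nat_lit 3) (.e (nat_lit 98373) (nat_lit 29) (.e (nat_lit 450560) (nat_lit 0) .nil))))) (.g (nat_lit 0) (.e (nat_lit 29711) (nat_lit 0) .nil) .nil)))))) (.nd (nat_lit 7) (.nd (nat_lit 8) (.nd (nat_lit 9) 
(.lf (nat_lit 452685) (.g (nat_lit 1938) (.e (nat_lit 2618) (nat_lit 164) (.e (nat_lit 172118) (nat_lit 12) (.e (nat_lit 475198) (nat_lit 40) (.e (nat_lit 704598) (nat_lit 6) (.e (nat_lit 188446) (nat_lit 21) (.e (nat_lit 164346) (nat_lit 240) .nil)))))) (.g (nat_lit 1) (.e (nat_lit 24374) (nat_lit 0) .nil) .nil))) 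
(.lf (nat_lit 453197) (.g (nat_lit 2336) (.e (nat_lit 2628) (nat_lit 164) (.e (nat_lit 172062) (nat_lit 2) (.e (nat_lit 196666) (nat_lit 13) (.e (nat_lit 65617) (nat_lit 10) (.e (nat_lit 344133) (nat_lit 26) (.e (nat_lit 557089) (nat_lit 12) (.e (nat_lit 163849) (nat_lit 0) (.e (nat_lit 6374) (nat_lit 337) .nil)))))))) (.g (nat_lit 1) (.e (nat_lit 27496) (nat_lit 0) .nil) .nil)))) 
(.nd (nat_lit 9) 
(.lf (nat_lit 452941) (.g (nat_lit 3508) (.e (nat_lit 2619) (nat_lit 164) (.e (nat_lit 172124) (nat_lit 14) (.e (nat_lit 491550) (nat_lit 9) (.e (nat_lit 336443) (nat_lit 32) (.e (nat_lit 466972) (nat_lit 21) (.e (nat_lit 164345) (nat_lit 240) .nil)))))) (.g (nat_lit 1) (.e (nat_lit 25454) (nat_lit 0) .nil) .nil))) 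
(.lf (nat_lit 453453) (.g (nat_lit 2025) (.e (nat_lit 2629) (nat_lit 164) (.e (nat_lit 172118) (nat_lit 12) (.e (nat_lit 475211) (nat_lit 41) (.e (nat_lit 712753) (nat_lit 30) (.e (nat_lit 450565) (nat_lit 0) (.e (nat_lit 5548) (nat_lit 306) .nil)))))) (.g (nat_lit 1) (.e (nat_lit 29595) (nat_lit 0) .nil) .nil))))) (.nd (nat_lit 8) (.nd (nat_lit 9) 
(.lf (nat_lit 452813) (.g (nat_lit 3114) (.e (nat_lit 2619) (nat_lit 164) (.e (nat_lit 172118) (nat_lit 12) (.e (nat_lit 475211) (nat_lit 41) (.e (nat_lit 712752) (nat_lit 29) (.e (nat_lit 442421) (nat_lit 21) (.e (nat_lit 164346) (nat_lit 240) .nil)))))) (.g (nat_lit 1) (.e (nat_lit 25243) (nat_lit 0) .nil) .nil))) 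
(.lf (nat_lit 453325) (.g (nat_lit 2447) (.e (nat_lit 2628) (nat_lit 164) (.e (nat_lit 172120) (nat_lit 12) (.e (nat_lit 475211) (nat_lit 41) (.e (nat_lit 712755) (nat_lit 30) (.e (nat_lit 458496) (nat_lit 0) (.e (nat_lit 5546) (nat_lit 306) .nil)))))) (.g (nat_lit 1) (.e (nat_lit 28287) (nat_lit 0) .nil) .nil)))) (.nd (nat_lit 9) 
(.lf (nat_lit 453069) (.g (nat_lit 2010) (.e (nat_lit 2621) (nat_lit 164) (.e (nat_lit 172126) (nat_lit 14) (.e (nat_lit 491549) (nat_lit 9) (.e (nat_lit 336432) (nat_lit 30) .nil)))) (.g (nat_lit 0) (.e (nat_lit 26249) (nat_lit 0) .nil) .nil))) 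
(.lf (nat_lit 453581) (.g (nat_lit 2991) (.e (nat_lit 2629) (nat_lit 164) (.e (nat_lit 172126) (nat_lit 14) (.e (nat_lit 491549) (nat_lit 9) (.e (nat_lit 336430) (nat_lit 29) (.e (nat_lit 442419) (nat_lit 21) (.e (nat_lit 164345) (nat_lit 240) .nil)))))) (.g (nat_lit 1) (.e (nat_lit 30252) (nat_lit 0) .nil) .nil))))))) (.nd (nat_lit 6) (.nd (nat_lit 7) (.nd (nat_lit 8) (.nd (nat_lit 9) 
(.lf (nat_lit 452653) (.g (nat_lit 3567) (.e (nat_lit 2617) (nat_lit 164) (.e (nat_lit 172126) (nat_lit 14) (.e (nat_lit 491547) (nat_lit 9) (.e (nat_lit 336443) (nat_lit 32) (.e (nat_lit 466971) (nat_lit 21) (.e (nat_lit 164348) (nat_lit 240) .nil)))))) (.g (nat_lit 1) (.e (nat_lit 23870) (nat_lit 0) .nil) .nil))) 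
(.lf (nat_lit 453165) (.g (nat_lit 2955) (.e (nat_lit 2626) (nat_lit 164) (.e (nat_lit 172126) (nat_lit 14) (.e (nat_lit 491537) (nat_lit 2) (.e (nat_lit 90170) (nat_lit 13) (.e (nat_lit 172113) (nat_lit 10) (.e (nat_lit 434203) (nat_lit 18) (.e (nat_lit 3966) (nat_lit 239) .nil))))))) (.g (nat_lit 1) (.e (nat_lit 27260) (nat_lit 0) .nil) .nil)))) (.nd (nat_lit 9) 
(.lf (nat_lit 452909) (.g (nat_lit 3354) (.e (nat_lit 2619) (nat_lit 164) (.e (nat_lit 172124) (nat_lit 14) (.e (nat_lit 491549) (nat_lit 9) (.e (nat_lit 336430) (nat_lit 29) (.e (nat_lit 442421) (nat_lit 21) (.e (nat_lit 164346) (nat_lit 240) .nil)))))) (.g (nat_lit 1) (.e (nat_lit 25419) (nat_lit 0) .nil) .nil))) 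
(.lf (nat_lit 453421) (.g (nat_lit 3702) (.e (nat_lit 2628) (nat_lit 164) (.e (nat_lit 172126) (nat_lit 14) (.e (nat_lit 491550) (nat_lit 9) (.e (nat_lit 336443) (nat_lit 32) (.e (nat_lit 466971) (nat_lit 21) (.e (nat_lit 164347) (nat_lit 240) .nil)))))) (.g (nat_lit 1) (.e (nat_lit 28733) (nat_lit 0) .nil) .nil))))) (.nd (nat_lit 8) (.nd (nat_lit 9) 
(.lf (nat_lit 452781) (.g (nat_lit 3112) (.e (nat_lit 2619) (nat_lit 164) (.e (nat_lit 172064) (nat_lit 2) (.e (nat_lit 196666) (nat_lit 13) (.e (nat_lit 65610) (nat_lit 10) (.e (nat_lit 344117) (nat_lit 21) (.e (nat_lit 516098) (nat_lit 0) (.e (nat_lit 2412) (nat_lit 157) (.e (nat_lit 4507) (nat_lit 263) .nil)))))))) (.g (nat_lit 1) (.e (nat_lit 24760) (nat_lit 0) .nil) .nil))) 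
(.lf (nat_lit 453293) (.g (nat_lit 2413) (.e (nat_lit 2628) (nat_lit 164) (.e (nat_lit 172120) (nat_lit 12) (.e (nat_lit 475198) (nat_lit 40) (.e (nat_lit 704599) (nat_lit 6) (.e (nat_lit 188445) (nat_lit 21) (.e (nat_lit 164345) (nat_lit 240) .nil)))))) (.g (nat_lit 1) (.e (nat_lit 28232) (nat_lit 0) .nil) .nil)))) (.nd (nat_lit 9) 
(.lf (nat_lit 453037) (.g (nat_lit 1671) (.e (nat_lit 2620) (nat_lit 164) (.e (nat_lit 172120) (nat_lit 12) (.e (nat_lit 475198) (nat_lit 40) (.e (nat_lit 704599) (nat_lit 6) .nil)))) (.g (nat_lit 0) (.e (nat_lit 26027) (nat_lit 0) .nil) .nil))) 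
(.lf (nat_lit 453549) (.g (nat_lit 3366) (.e (nat_lit 2629) (nat_lit 164) (.e (nat_lit 172124) (nat_lit 14) (.e (nat_lit 491550) (nat_lit 9) (.e (nat_lit 336430) (nat_lit 29) (.e (nat_lit 442421) (nat_lit 21) (.e (nat_lit 164346) (nat_lit 240) .nil)))))) (.g (nat_lit 1) (.e (nat_lit 29771) (nat_lit 0) .nil) .nil)))))) (.nd (nat_lit 7) (.nd (nat_lit 8) (.nd (nat_lit 9) 
(.lf (nat_lit 452717) (.g (nat_lit 1794) (.e (nat_lit 2618) (nat_lit 164) (.e (nat_lit 172120) (nat_lit 12) (.e (nat_lit 475211) (nat_lit 41) (.e (nat_lit 712753) (nat_lit 30) (.e (nat_lit 450565) (nat_lit 0) .nil))))) (.g (nat_lit 0) (.e (nat_lit 24443) (nat_lit 0) .nil) .nil))) 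
(.lf (nat_lit 453229) (.g (nat_lit 4625) (.e (nat_lit 2628) (nat_lit 164) (.e (nat_lit 172066) (nat_lit 3) (.e (nat_lit 204869) (nat_lit 29) (.e (nat_lit 360475) (nat_lit 8) (.e (nat_lit 557091) (nat_lit 12) (.e (nat_lit 163844) (nat_lit 0) (.e (nat_lit 6374) (nat_lit 337) .nil))))))) (.g (nat_lit 1) (.e (nat_lit 27552) (nat_lit 0) .nil) .nil)))) (.nd (nat_lit 9) 
(.lf (nat_lit 452973) (.g (nat_lit 3287) (.e (nat_lit 2619) (nat_lit 164) (.e (nat_lit 172126) (nat_lit 14) (.e (nat_lit 491549) (nat_lit 9) (.e (nat_lit 336430) (nat_lit 29) (.e (nat_lit 442419) (nat_lit 21) (.e (nat_lit 164346) (nat_lit 240) .nil)))))) (.g (nat_lit 1) (.e (nat_lit 25758) (nat_lit 0) .nil) .nil))) 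
(.lf (nat_lit 453485) (.g (nat_lit 2262) (.e (nat_lit 2629) (nat_lit 164) (.e (nat_lit 172120) (nat_lit 12) (.e (nat_lit 475198) (nat_lit 40) (.e (nat_lit 704599) (nat_lit 6) (.e (nat_lit 188446) (nat_lit 21) (.e (nat_lit 164348) (nat_lit 240) .nil)))))) (.g (nat_lit 1) (.e (nat_lit 29644) (nat_lit 0) .nil) .nil))))) (.nd (nat_lit 8) (.nd (nat_lit 9) 
(.lf (nat_lit 452845) (.g (nat_lit 2610) (.e (nat_lit 2619) (nat_lit 164) (.e (nat_lit 172120) (nat_lit 12) (.e (nat_lit 475198) (nat_lit 40) (.e (nat_lit 704598) (nat_lit 6) (.e (nat_lit 188444) (nat_lit 21) (.e (nat_lit 164345) (nat_lit 240) .nil)))))) (.g (nat_lit 1) (.e (nat_lit 25286) (nat_lit 0) .nil) .nil))) 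
(.lf (nat_lit 453357) (.g (nat_lit 983) (.e (nat_lit 2628) (nat_lit 164) (.e (nat_lit 172124) (nat_lit 14) (.e (nat_lit 491550) (nat_lit 9) (.e (nat_lit 336432) (nat_lit 30) .nil)))) (.g (nat_lit 0) (.e (nat_lit 28390) (nat_lit 0) .nil) .nil)))) (.nd (nat_lit 9) 
(.lf (nat_lit 453101) (.g (nat_lit 4408) (.e (nat_lit 2622) (nat_lit 164) (.e (nat_lit 172124) (nat_lit 14) (.e (nat_lit 491549) (nat_lit 9) (.e (nat_lit 336430) (nat_lit 29) (.e (nat_lit 442430) (nat_lit 24) (.e (nat_lit 229663) (nat_lit 240) .nil)))))) (.g (nat_lit 1) (.e (nat_lit 26366) (nat_lit 0) .nil) .nil))) 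
(.lf (nat_lit 453613) (.g (nat_lit 2002) (.e (nat_lit 2629) (nat_lit 164) (.e (nat_lit 172126) (nat_lit 14) (.e (nat_lit 491550) (nat_lit 9) (.e (nat_lit 336432) (nat_lit 30) (.e (nat_lit 458496) (nat_lit 0) (.e (nat_lit 5547) (nat_lit 306) .nil)))))) (.g (nat_lit 1) (.e (nat_lit 30287) (nat_lit 0) .nil) .nil)))))))) 
(.nd (nat_lit 5) (.nd (nat_lit 6) (.nd (nat_lit 7) (.nd (nat_lit 8) (.nd (nat_lit 9) 
(.lf (nat_lit 452637) (.g (nat_lit 2303) (.e (nat_lit 2617) (nat_lit 164) (.e (nat_lit 172120) (nat_lit 12) (.e (nat_lit 475211) (nat_lit 41) (.e (nat_lit 712750) (nat_lit 29) (.e (nat_lit 442421) (nat_lit 21) (.e (nat_lit 164346) (nat_lit 240) .nil)))))) (.g (nat_lit 1) (.e (nat_lit 23789) (nat_lit 0) .nil) .nil))) 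
(.lf (nat_lit 453149) (.g (nat_lit 2676) (.e (nat_lit 2625) (nat_lit 164) (.e (nat_lit 172126) (nat_lit 14) (.e (nat_lit 491540) (nat_lit 3) (.e (nat_lit 98373) (nat_lit 29) (.e (nat_lit 450560) (nat_lit 0) (.e (nat_lit 3967) (nat_lit 239) .nil)))))) (.g (nat_lit 1) (.e (nat_lit 26979) (nat_lit 0) .nil) .nil)))) (.nd (nat_lit 9) 
(.lf (nat_lit 452893) (.g (nat_lit 4400) (.e (nat_lit 2619) (nat_lit 164) (.e (nat_lit 172120) (nat_lit 12) (.e (nat_lit 475211) (nat_lit 41) (.e (nat_lit 712755) (nat_lit 30) (.e (nat_lit 450563) (nat_lit 0) (.e (nat_lit 5537) (nat_lit 306) .nil)))))) (.g (nat_lit 1) (.e (nat_lit 25352) (nat_lit 0) .nil) .nil))) 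
(.lf (nat_lit 453405) (.g (nat_lit 3581) (.e (nat_lit 2628) (nat_lit 164) (.e (nat_lit 172126) (nat_lit 14) (.e (nat_lit 491549) (nat_lit 9) (.e (nat_lit 336443) (nat_lit 32) (.e (nat_lit 466971) (nat_lit 21) (.e (nat_lit 164347) (nat_lit 240) .nil)))))) (.g (nat_lit 1) (.e (nat_lit 28715) (nat_lit 0) .nil) .nil))))) (.nd (nat_lit 8) (.nd (nat_lit 9) 
(.lf (nat_lit 452765) (.g (nat_lit 1760) (.e (nat_lit 2618) (nat_lit 164) (.e (nat_lit 172133) (nat_lit 15) (.e (nat_lit 2059) (nat_lit 142) (.e (nat_lit 704595) (nat_lit 5) .nil)))) (.g (nat_lit 0) (.e (nat_lit 24737) (nat_lit 0) .nil) .nil))) 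
(.lf (nat_lit 453277) (.g (nat_lit 1453) (.e (nat_lit 2628) (nat_lit 164) (.e (nat_lit 172118) (nat_lit 12) (.e (nat_lit 475211) (nat_lit 41) (.e (nat_lit 712753) (nat_lit 30) (.e (nat_lit 458496) (nat_lit 0) .nil))))) (.g (nat_lit 0) (.e (nat_lit 28205) (nat_lit 0) .nil) .nil)))) (.nd (nat_lit 9) 
(.lf (nat_lit 453021) (.g (nat_lit 2539) (.e (nat_lit 2619) (nat_lit 164) (.e (nat_lit 172144) (nat_lit 26) (.e (nat_lit 327718) (nat_lit 19) (.e (nat_lit 311315) (nat_lit 3) (.e (nat_lit 204809) (nat_lit 9) (.e (nat_lit 426107) (nat_lit 1) (.e (nat_lit 164347) (nat_lit 240) .nil))))))) (.g (nat_lit 1) (.e (nat_lit 25985) (nat_lit 0) .nil) .nil))) 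
(.lf (nat_lit 453533) (.g (nat_lit 2406) (.e (nat_lit 2629) (nat_lit 164) (.e (nat_lit 172124) (nat_lit 14) (.e (nat_lit 491549) (nat_lit 9) (.e (nat_lit 336432) (nat_lit 30) (.e (nat_lit 450561) (nat_lit 0) (.e (nat_lit 5537) (nat_lit 306) .nil)))))) (.g (nat_lit 1) (.e (nat_lit 29752) (nat_lit 0) .nil) .nil)))))) (.nd (nat_lit 7) (.nd (nat_lit 8) (.nd (nat_lit 9) 
(.lf (nat_lit 452701) (.g (nat_lit 1868) (.e (nat_lit 2618) (nat_lit 164) (.e (nat_lit 172119) (nat_lit 12) (.e (nat_lit 475211) (nat_lit 41) (.e (nat_lit 712753) (nat_lit 30) (.e (nat_lit 458496) (nat_lit 0) (.e (nat_lit 5546) (nat_lit 306) .nil)))))) (.g (nat_lit 1) (.e (nat_lit 24405) (nat_lit 0) .nil) .nil))) 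
(.lf (nat_lit 453213) (.g (nat_lit 2464) (.e (nat_lit 2628) (nat_lit 164) (.e (nat_lit 172065) (nat_lit 3) (.e (nat_lit 204869) (nat_lit 29) (.e (nat_lit 360474) (nat_lit 8) (.e (nat_lit 557094) (nat_lit 12) .nil))))) (.g (nat_lit 0) (.e (nat_lit 27536) (nat_lit 0) .nil) .nil)))) (.nd (nat_lit 9) 
(.lf (nat_lit 452957) (.g (nat_lit 4507) (.e (nat_lit 2619) (nat_lit 164) (.e (nat_lit 172126) (nat_lit 14) (.e (nat_lit 491540) (nat_lit 3) (.e (nat_lit 98373) (nat_lit 29) (.e (nat_lit 450568) (nat_lit 0) (.e (nat_lit 3978) (nat_lit 239) .nil)))))) (.g (nat_lit 1) (.e (nat_lit 25722) (nat_lit 0) .nil) .nil))) 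
(.lf (nat_lit 453469) (.g (nat_lit 2922) (.e (nat_lit 2629) (nat_lit 164) (.e (nat_lit 172119) (nat_lit 12) (.e (nat_lit 475211) (nat_lit 41) (.e (nat_lit 712753) (nat_lit 30) (.e (nat_lit 450561) (nat_lit 0) (.e (nat_lit 5537) (nat_lit 306) .nil)))))) (.g (nat_lit 1) (.e (nat_lit 29621) (nat_lit 0) .nil) .nil))))) (.nd (nat_lit 8) (.nd (nat_lit 9) 
(.lf (nat_lit 452829) (.g (nat_lit 2032) (.e (nat_lit 2619) (nat_lit 164) (.e (nat_lit 172119) (nat_lit 12) (.e (nat_lit 475210) (nat_lit 41) (.e (nat_lit 712755) (nat_lit 30) (.e (nat_lit 450563) (nat_lit 0) (.e (nat_lit 5537) (nat_lit 306) .nil)))))) (.g (nat_lit 1) (.e (nat_lit 25264) (nat_lit 0) .nil) .nil))) 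
(.lf (nat_lit 453341) (.g (nat_lit 2619) (.e (nat_lit 2628) (nat_lit 164) (.e (nat_lit 172124) (nat_lit 14) (.e (nat_lit 491549) (nat_lit 9) (.e (nat_lit 336434) (nat_lit 30) (.e (nat_lit 450564) (nat_lit 0) (.e (nat_lit 5546) (nat_lit 306) .nil)))))) (.g (nat_lit 1) (.e (nat_lit 28373) (nat_lit 0) .nil) .nil)))) (.nd (nat_lit 9) 
(.lf (nat_lit 453085) (.g (nat_lit 3535) (.e (nat_lit 2622) (nat_lit 164) (.e (nat_lit 172066) (nat_lit 3) (.e (nat_lit 204869) (nat_lit 29) (.e (nat_lit 360475) (nat_lit 8) (.e (nat_lit 557089) (nat_lit 12) (.e (nat_lit 163844) (nat_lit 0) (.e (nat_lit 6254) (nat_lit 337) .nil))))))) (.g (nat_lit 1) (.e (nat_lit 26280) (nat_lit 0) .nil) .nil))) 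
(.lf (nat_lit 453597) (.g (nat_lit 3193) (.e (nat_lit 2629) (nat_lit 164) (.e (nat_lit 172126) (nat_lit 14) (.e (nat_lit 491549) (nat_lit 9) (.e (nat_lit 336443) (nat_lit 32) (.e (nat_lit 466969) (nat_lit 21) (.e (nat_lit 164347) (nat_lit 240) .nil)))))) (.g (nat_lit 1) (.e (nat_lit 30269) (nat_lit 0) .nil) .nil))))))) (.nd (nat_lit 6) (.nd (nat_lit 7) (.nd (nat_lit 8) (.nd (nat_lit 9) 
(.lf (nat_lit 452669) (.g (nat_lit 3442) (.e (nat_lit 2617) (nat_lit 164) (.e (nat_lit 172126) (nat_lit 14) (.e (nat_lit 491549) (nat_lit 9) (.e (nat_lit 336443) (nat_lit 32) (.e (nat_lit 466969) (nat_lit 21) (.e (nat_lit 164348) (nat_lit 240) .nil)))))) (.g (nat_lit 1) (.e (nat_lit 23921) (nat_lit 0) .nil) .nil))) 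
(.lf (nat_lit 453181) (.g (nat_lit 3681) (.e (nat_lit 2626) (nat_lit 164) (.e (nat_lit 172126) (nat_lit 14) (.e (nat_lit 491540) (nat_lit 3) (.e (nat_lit 98373) (nat_lit 29) (.e (nat_lit 450567) (nat_lit 0) (.e (nat_lit 3966) (nat_lit 239) .nil)))))) (.g (nat_lit 1) (.e (nat_lit 27286) (nat_lit 0) .nil) .nil)))) (.nd (nat_lit 9) 
(.lf (nat_lit 452925) (.g (nat_lit 3740) (.e (nat_lit 2619) (nat_lit 164) (.e (nat_lit 172124) (nat_lit 14) (.e (nat_lit 491549) (nat_lit 9) (.e (nat_lit 336443) (nat_lit 32) (.e (nat_lit 466971) (nat_lit 21) (.e (nat_lit 164348) (nat_lit 240) .nil)))))) (.g (nat_lit 1) (.e (nat_lit 25435) (nat_lit 0) .nil) .nil))) 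
(.lf (nat_lit 453437) (.g (nat_lit 2966) (.e (nat_lit 2629) (nat_lit 164) (.e (nat_lit 172118) (nat_lit 12) (.e (nat_lit 475210) (nat_lit 41) (.e (nat_lit 712753) (nat_lit 30) (.e (nat_lit 450561) (nat_lit 0) (.e (nat_lit 5537) (nat_lit 306) .nil)))))) (.g (nat_lit 1) (.e (nat_lit 29579) (nat_lit 0) .nil) .nil))))) (.nd (nat_lit 8) (.nd (nat_lit 9) 
(.lf (nat_lit 452797) (.g (nat_lit 2656) (.e (nat_lit 2619) (nat_lit 164) (.e (nat_lit 172118) (nat_lit 12) (.e (nat_lit 475199) (nat_lit 40) (.e (nat_lit 704598) (nat_lit 6) (.e (nat_lit 188444) (nat_lit 21) (.e (nat_lit 164348) (nat_lit 240) .nil)))))) (.g (nat_lit 1) (.e (nat_lit 25214) (nat_lit 0) .nil) .nil))) 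
(.lf (nat_lit 453309) (.g (nat_lit 1910) (.e (nat_lit 2628) (nat_lit 164) (.e (nat_lit 172120) (nat_lit 12) (.e (nat_lit 475210) (nat_lit 41) (.e (nat_lit 712755) (nat_lit 30) (.e (nat_lit 458496) (nat_lit 0) .nil))))) (.g (nat_lit 0) (.e (nat_lit 28268) (nat_lit 0) .nil) .nil)))) (.nd (nat_lit 9) 
(.lf (nat_lit 453053) (.g (nat_lit 2783) (.e (nat_lit 2621) (nat_lit 164) (.e (nat_lit 172067) (nat_lit 3) (.e (nat_lit 204869) (nat_lit 29) (.e (nat_lit 360475) (nat_lit 8) (.e (nat_lit 557091) (nat_lit 12) (.e (nat_lit 163847) (nat_lit 0) (.e (nat_lit 6252) (nat_lit 337) .nil))))))) (.g (nat_lit 1) (.e (nat_lit 26201) (nat_lit 0) .nil) .nil))) 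
(.lf (nat_lit 453565) (.g (nat_lit 2669) (.e (nat_lit 2629) (nat_lit 164) (.e (nat_lit 172126) (nat_lit 14) (.e (nat_lit 491540) (nat_lit 3) (.e (nat_lit 98373) (nat_lit 29) (.e (nat_lit 450560) (nat_lit 0) (.e (nat_lit 3988) (nat_lit 239) .nil)))))) (.g (nat_lit 1) (.e (nat_lit 30200) (nat_lit 0) .nil) .nil)))))) (.nd (nat_lit 7) (.nd (nat_lit 8) (.nd (nat_lit 9) 
(.lf (nat_lit 452733) (.g (nat_lit 1776) (.e (nat_lit 2618) (nat_lit 164) (.e (nat_lit 172124) (nat_lit 14) (.e (nat_lit 491550) (nat_lit 9) (.e (nat_lit 336432) (nat_lit 30) (.e (nat_lit 458496) (nat_lit 0) (.e (nat_lit 5543) (nat_lit 306) .nil)))))) (.g (nat_lit 1) (.e (nat_lit 24468) (nat_lit 0) .nil) .nil))) 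
(.lf (nat_lit 453245) (.g (nat_lit 3217) (.e (nat_lit 2628) (nat_lit 164) (.e (nat_lit 172067) (nat_lit 3) (.e (nat_lit 204869) (nat_lit 29) (.e (nat_lit 360475) (nat_lit 8) (.e (nat_lit 557091) (nat_lit 12) (.e (nat_lit 163847) (nat_lit 0) (.e (nat_lit 6374) (nat_lit 337) .nil))))))) (.g (nat_lit 1) (.e (nat_lit 27596) (nat_lit 0) .nil) .nil)))) (.nd (nat_lit 9) 
(.lf (nat_lit 452989) (.g (nat_lit 3104) (.e (nat_lit 2619) (nat_lit 164) (.e (nat_lit 172126) (nat_lit 14) (.e (nat_lit 491549) (nat_lit 9) (.e (nat_lit 336443) (nat_lit 32) (.e (nat_lit 466969) (nat_lit 21) (.e (nat_lit 164347) (nat_lit 240) .nil)))))) (.g (nat_lit 1) (.e (nat_lit 25774) (nat_lit 0) .nil) .nil))) 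
(.lf (nat_lit 453501) (.g (nat_lit 2212) (.e (nat_lit 2629) (nat_lit 164) (.e (nat_lit 172120) (nat_lit 12) (.e (nat_lit 475211) (nat_lit 41) (.e (nat_lit 712750) (nat_lit 29) (.e (nat_lit 442421) (nat_lit 21) .nil))))) (.g (nat_lit 0) (.e (nat_lit 29677) (nat_lit 0) .nil) .nil))))) (.nd (nat_lit 8) (.nd (nat_lit 9) 
(.lf (nat_lit 452861) (.g (nat_lit 3663) (.e (nat_lit 2619) (nat_lit 164) (.e (nat_lit 172120) (nat_lit 12) (.e (nat_lit 475210) (nat_lit 41) (.e (nat_lit 712752) (nat_lit 29) (.e (nat_lit 442421) (nat_lit 21) (.e (nat_lit 164345) (nat_lit 240) .nil)))))) (.g (nat_lit 1) (.e (nat_lit 25318) (nat_lit 0) .nil) .nil))) 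
(.lf (nat_lit 453373) (.g (nat_lit 541) (.e (nat_lit 2628) (nat_lit 164) (.e (nat_lit 172126) (nat_lit 14) (.e (nat_lit 491540) (nat_lit 3) .nil))) (.g (nat_lit 0) (.e (nat_lit 28651) (nat_lit 0) .nil) .nil)))) (.nd (nat_lit 9) 
(.lf (nat_lit 453117) (.g (nat_lit 1640) (.e (nat_lit 2625) (nat_lit 164) (.e (nat_lit 172119) (nat_lit 12) (.e (nat_lit 475211) (nat_lit 41) (.e (nat_lit 712755) (nat_lit 30) (.e (nat_lit 450563) (nat_lit 0) .nil))))) (.g (nat_lit 0) (.e (nat_lit 26771) (nat_lit 0) .nil) .nil))) 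
(.lf (nat_lit 453629) (.g (nat_lit 4520) (.e (nat_lit 2630) (nat_lit 164) (.e (nat_lit 172062) (nat_lit 2) (.e (nat_lit 196666) (nat_lit 13) (.e (nat_lit 65610) (nat_lit 10) (.e (nat_lit 344129) (nat_lit 26) (.e (nat_lit 557089) (nat_lit 12) (.e (nat_lit 163843) (nat_lit 0) (.e (nat_lit 6255) (nat_lit 337) .nil)))))))) (.g (nat_lit 1) (.e (nat_lit 30542) (nat_lit 0) .nil) .nil))))))))))) 
(.nd (nat_lit 2) (.nd (nat_lit 3) (.nd (nat_lit 4) (.nd (nat_lit 5) (.nd (nat_lit 6) 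
(.nd (nat_lit 7) (.nd (nat_lit 8) (.nd (nat_lit 9) 
(.lf (nat_lit 452611) (.g (nat_lit 2603) (.e (nat_lit 2613) (nat_lit 163) (.e (nat_lit 164403) (nat_lit 256) (.e (nat_lit 57373) (nat_lit 2) (.e (nat_lit 90174) (nat_lit 14) (.e (nat_lit 180243) (nat_lit 5) .nil))))) (.g (nat_lit 0) (.e (nat_lit 23312) (nat_lit 0) .nil) .nil))) 
(.lf (nat_lit 453123) (.g (nat_lit 1076) (.e (nat_lit 2625) (nat_lit 164) (.e (nat_lit 172120) (nat_lit 12) (.e (nat_lit 475207) (nat_lit 41) (.e (nat_lit 712755) (nat_lit 30) .nil)))) (.g (nat_lit 0) (.e (nat_lit 26804) (nat_lit 0) .nil) .nil)))) (.nd (nat_lit 9) 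
(.lf (nat_lit 452867) (.g (nat_lit 2720) (.e (nat_lit 2619) (nat_lit 164) (.e (nat_lit 172120) (nat_lit 12) (.e (nat_lit 475210) (nat_lit 41) (.e (nat_lit 712753) (nat_lit 30) (.e (nat_lit 450564) (nat_lit 0) (.e (nat_lit 5547) (nat_lit 306) .nil)))))) (.g (nat_lit 1) (.e (nat_lit 25324) (nat_lit 0) .nil) .nil))) 
(.lf (nat_lit 453379) (.g (nat_lit 594) (.e (nat_lit 2628) (nat_lit 164) (.e (nat_lit 172126) (nat_lit 14) (.e (nat_lit 491547) (nat_lit 9) .nil))) (.g (nat_lit 0) (.e (nat_lit 28659) (nat_lit 0) .nil) .nil))))) (.nd (nat_lit 8) (.nd (nat_lit 9) 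
(.lf (nat_lit 452739) (.g (nat_lit 2204) (.e (nat_lit 2618) (nat_lit 164) (.e (nat_lit 172124) (nat_lit 14) (.e (nat_lit 491568) (nat_lit 13) (.e (nat_lit 393283) (nat_lit 24) (.e (nat_lit 434209) (nat_lit 18) (.e (nat_lit 5546) (nat_lit 306) .nil)))))) (.g (nat_lit 1) (.e (nat_lit 24476) (nat_lit 0) .nil) .nil))) 
(.lf (nat_lit 453251) (.g (nat_lit 2017) (.e (nat_lit 2628) (nat_lit 164) (.e (nat_lit 172118) (nat_lit 12) (.e (nat_lit 475198) (nat_lit 40) (.e (nat_lit 704599) (nat_lit 6) (.e (nat_lit 188445) (nat_lit 21) (.e (nat_lit 164345) (nat_lit 240) .nil)))))) (.g (nat_lit 1) (.e (nat_lit 28162) (nat_lit 0) .nil) .nil)))) (.nd (nat_lit 9) 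
(.lf (nat_lit 452995) (.g (nat_lit 3705) (.e (nat_lit 2619) (nat_lit 164) (.e (nat_lit 172126) (nat_lit 14) (.e (nat_lit 491550) (nat_lit 9) (.e (nat_lit 336430) (nat_lit 29) (.e (nat_lit 442419) (nat_lit 21) (.e (nat_lit 164348) (nat_lit 240) .nil)))))) (.g (nat_lit 1) (.e (nat_lit 25781) (nat_lit 0) .nil) .nil))) 
(.lf (nat_lit 453507) (.g (nat_lit 1914) (.e (nat_lit 2629) (nat_lit 164) (.e (nat_lit 172120) (nat_lit 12) (.e (nat_lit 475211) (nat_lit 41) (.e (nat_lit 712753) (nat_lit 30) (.e (nat_lit 458496) (nat_lit 0) .nil))))) (.g (nat_lit 0) (.e (nat_lit 29684) (nat_lit 0) .nil) .nil)))))) (.nd (nat_lit 7) (.nd (nat_lit 8) (.nd (nat_lit 9) 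
(.lf (nat_lit 452675) (.g (nat_lit 3400) (.e (nat_lit 2617) (nat_lit 164) (.e (nat_lit 172126) (nat_lit 14) (.e (nat_lit 491550) (nat_lit 9) (.e (nat_lit 336430) (nat_lit 29) (.e (nat_lit 442421) (nat_lit 21) (.e (nat_lit 164348) (nat_lit 240) .nil)))))) (.g (nat_lit 1) (.e (nat_lit 23930) (nat_lit 0) .nil) .nil))) 
(.lf (nat_lit 453187) (.g (nat_lit 3749) (.e (nat_lit 2628) (nat_lit 164) (.e (nat_lit 172062) (nat_lit 2) (.e (nat_lit 196666) (nat_lit 13) (.e (nat_lit 65617) (nat_lit 10) (.e (nat_lit 344130) (nat_lit 26) (.e (nat_lit 557089) (nat_lit 12) (.e (nat_lit 163844) (nat_lit 0) (.e (nat_lit 6374) (nat_lit 337) .nil)))))))) (.g (nat_lit 1) (.e (nat_lit 27486) (nat_lit 0) .nil) .nil)))) 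
(.nd (nat_lit 9) 
(.lf (nat_lit 452931) (.g (nat_lit 3458) (.e (nat_lit 2619) (nat_lit 164) (.e (nat_lit 172124) (nat_lit 14) (.e (nat_lit 491550) (nat_lit 9) (.e (nat_lit 336432) (nat_lit 30) (.e (nat_lit 450565) (nat_lit 0) (.e (nat_lit 5548) (nat_lit 306) .nil)))))) (.g (nat_lit 1) (.e (nat_lit 25444) (nat_lit 0) .nil) .nil))) 
(.lf (nat_lit 453443) (.g (nat_lit 2209) (.e (nat_lit 2629) (nat_lit 164) (.e (nat_lit 172118) (nat_lit 12) (.e (nat_lit 475210) (nat_lit 41) (.e (nat_lit 712755) (nat_lit 30) (.e (nat_lit 450565) (nat_lit 0) .nil))))) (.g (nat_lit 0) (.e (nat_lit 29585) (nat_lit 0) .nil) .nil))))) (.nd (nat_lit 8) (.nd (nat_lit 9) 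
(.lf (nat_lit 452803) (.g (nat_lit 2046) (.e (nat_lit 2619) (nat_lit 164) (.e (nat_lit 172118) (nat_lit 12) (.e (nat_lit 475210) (nat_lit 41) (.e (nat_lit 712753) (nat_lit 30) (.e (nat_lit 450564) (nat_lit 0) (.e (nat_lit 5547) (nat_lit 306) .nil)))))) (.g (nat_lit 1) (.e (nat_lit 25229) (nat_lit 0) .nil) .nil))) 
(.lf (nat_lit 453315) (.g (nat_lit 3439) (.e (nat_lit 2628) (nat_lit 164) (.e (nat_lit 172120) (nat_lit 12) (.e (nat_lit 475211) (nat_lit 41) (.e (nat_lit 712752) (nat_lit 29) (.e (nat_lit 442421) (nat_lit 21) (.e (nat_lit 164346) (nat_lit 240) .nil)))))) (.g (nat_lit 1) (.e (nat_lit 28277) (nat_lit 0) .nil) .nil)))) (.nd (nat_lit 9) 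
(.lf (nat_lit 453059) (.g (nat_lit 1732) (.e (nat_lit 2621) (nat_lit 164) (.e (nat_lit 172120) (nat_lit 12) (.e (nat_lit 475198) (nat_lit 40) (.e (nat_lit 704598) (nat_lit 6) (.e (nat_lit 188455) (nat_lit 24) .nil))))) (.g (nat_lit 0) (.e (nat_lit 26209) (nat_lit 0) .nil) .nil))) 
(.lf (nat_lit 453571) (.g (nat_lit 1227) (.e (nat_lit 2629) (nat_lit 164) (.e (nat_lit 172126) (nat_lit 14) (.e (nat_lit 491547) (nat_lit 9) (.e (nat_lit 336434) (nat_lit 30) .nil)))) (.g (nat_lit 0) (.e (nat_lit 30206) (nat_lit 0) .nil) .nil))))))) (.nd (nat_lit 6) (.nd (nat_lit 7) (.nd (nat_lit 8) (.nd (nat_lit 9) 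
(.lf (nat_lit 452643) (.g (nat_lit 675) (.e (nat_lit 2617) (nat_lit 164) (.e (nat_lit 172126) (nat_lit 14) (.e (nat_lit 491537) (nat_lit 2) .nil))) (.g (nat_lit 0) (.e (nat_lit 23845) (nat_lit 0) .nil) .nil))) 
(.lf (nat_lit 453155) (.g (nat_lit 3491) (.e (nat_lit 2625) (nat_lit 164) (.e (nat_lit 172126) (nat_lit 14) (.e (nat_lit 491540) (nat_lit 3) (.e (nat_lit 98373) (nat_lit 29) (.e (nat_lit 450567) (nat_lit 0) (.e (nat_lit 3978) (nat_lit 239) .nil)))))) (.g (nat_lit 1) (.e (nat_lit 26985) (nat_lit 0) .nil) .nil)))) (.nd (nat_lit 9) 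
(.lf (nat_lit 452899) (.g (nat_lit 3859) (.e (nat_lit 2619) (nat_lit 164) (.e (nat_lit 172120) (nat_lit 12) (.e (nat_lit 475211) (nat_lit 41) (.e (nat_lit 712755) (nat_lit 30) (.e (nat_lit 450566) (nat_lit 0) (.e (nat_lit 5548) (nat_lit 306) .nil)))))) (.g (nat_lit 1) (.e (nat_lit 25358) (nat_lit 0) .nil) .nil))) 
(.lf (nat_lit 453411) (.g (nat_lit 3063) (.e (nat_lit 2628) (nat_lit 164) (.e (nat_lit 172126) (nat_lit 14) (.e (nat_lit 491550) (nat_lit 9) (.e (nat_lit 336430) (nat_lit 29) (.e (nat_lit 442421) (nat_lit 21) (.e (nat_lit 164346) (nat_lit 240) .nil)))))) (.g (nat_lit 1) (.e (nat_lit 28723) (nat_lit 0) .nil) .nil))))) (.nd (nat_lit 8) (.nd (nat_lit 9) 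
(.lf (nat_lit 452771) (.g (nat_lit 3554) (.e (nat_lit 2619) (nat_lit 164) (.e (nat_lit 172062) (nat_lit 2) (.e (nat_lit 196666) (nat_lit 13) (.e (nat_lit 65610) (nat_lit 10) (.e (nat_lit 344117) (nat_lit 21) (.e (nat_lit 516106) (nat_lit 0) (.e (nat_lit 2425) (nat_lit 157) (.e (nat_lit 4516) (nat_lit 263) .nil)))))))) (.g (nat_lit 1) (.e (nat_lit 24743) (nat_lit 0) .nil) .nil))) 
(.lf (nat_lit 453283) (.g (nat_lit 1752) (.e (nat_lit 2628) (nat_lit 164) (.e (nat_lit 172118) (nat_lit 12) (.e (nat_lit 475211) (nat_lit 41) (.e (nat_lit 712755) (nat_lit 30) (.e (nat_lit 458496) (nat_lit 0) .nil))))) (.g (nat_lit 0) (.e (nat_lit 28211) (nat_lit 0) .nil) .nil)))) (.nd (nat_lit 9) 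
(.lf (nat_lit 453027) (.g (nat_lit 2920) (.e (nat_lit 2620) (nat_lit 164) (.e (nat_lit 172066) (nat_lit 3) (.e (nat_lit 204869) (nat_lit 29) (.e (nat_lit 360475) (nat_lit 8) (.e (nat_lit 557091) (nat_lit 12) .nil))))) (.g (nat_lit 0) (.e (nat_lit 25997) (nat_lit 0) .nil) .nil))) 
(.lf (nat_lit 453539) (.g (nat_lit 3588) (.e (nat_lit 2629) (nat_lit 164) (.e (nat_lit 172124) (nat_lit 14) (.e (nat_lit 491549) (nat_lit 9) (.e (nat_lit 336443) (nat_lit 32) (.e (nat_lit 466969) (nat_lit 21) (.e (nat_lit 164347) (nat_lit 240) .nil)))))) (.g (nat_lit 1) (.e (nat_lit 29759) (nat_lit 0) .nil) .nil)))))) (.nd (nat_lit 7) (.nd (nat_lit 8) (.nd (nat_lit 9) 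
(.lf (nat_lit 452707) (.g (nat_lit 2199) (.e (nat_lit 2618) (nat_lit 164) (.e (nat_lit 172120) (nat_lit 12) (.e (nat_lit 475198) (nat_lit 40) (.e (nat_lit 704598) (nat_lit 6) (.e (nat_lit 188446) (nat_lit 21) (.e (nat_lit 164346) (nat_lit 240) .nil)))))) (.g (nat_lit 1) (.e (nat_lit 24417) (nat_lit 0) .nil) .nil))) 
(.lf (nat_lit 453219) (.g (nat_lit 3959) (.e (nat_lit 2628) (nat_lit 164) (.e (nat_lit 172065) (nat_lit 3) (.e (nat_lit 204869) (nat_lit 29) (.e (nat_lit 360475) (nat_lit 8) (.e (nat_lit 557091) (nat_lit 12) (.e (nat_lit 163844) (nat_lit 0) (.e (nat_lit 6374) (nat_lit 337) .nil))))))) (.g (nat_lit 1) (.e (nat_lit 27542) (nat_lit 0) .nil) .nil)))) (.nd (nat_lit 9) 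
(.lf (nat_lit 452963) (.g (nat_lit 2728) (.e (nat_lit 2619) (nat_lit 164) (.e (nat_lit 172126) (nat_lit 14) (.e (nat_lit 491547) (nat_lit 9) (.e (nat_lit 336443) (nat_lit 32) (.e (nat_lit 466971) (nat_lit 21) (.e (nat_lit 164345) (nat_lit 240) .nil)))))) (.g (nat_lit 1) (.e (nat_lit 25728) (nat_lit 0) .nil) .nil))) 
(.lf (nat_lit 453475) (.g (nat_lit 2470) (.e (nat_lit 2629) (nat_lit 164) (.e (nat_lit 172119) (nat_lit 12) (.e (nat_lit 475211) (nat_lit 41) (.e (nat_lit 712755) (nat_lit 30) (.e (nat_lit 450566) (nat_lit 0) (.e (nat_lit 5548) (nat_lit 306) .nil)))))) (.g (nat_lit 1) (.e (nat_lit 29627) (nat_lit 0) .nil) .nil))))) (.nd (nat_lit 8) (.nd (nat_lit 9) 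
(.lf (nat_lit 452835) (.g (nat_lit 2055) (.e (nat_lit 2619) (nat_lit 164) (.e (nat_lit 172119) (nat_lit 12) (.e (nat_lit 475211) (nat_lit 41) (.e (nat_lit 712753) (nat_lit 30) (.e (nat_lit 458496) (nat_lit 0) (.e (nat_lit 5546) (nat_lit 306) .nil)))))) (.g (nat_lit 1) (.e (nat_lit 25271) (nat_lit 0) .nil) .nil))) 
(.lf (nat_lit 453347) (.g (nat_lit 1892) (.e (nat_lit 2628) (nat_lit 164) (.e (nat_lit 172124) (nat_lit 14) (.e (nat_lit 491549) (nat_lit 9) (.e (nat_lit 336443) (nat_lit 32) (.e (nat_lit 466971) (nat_lit 21) .nil))))) (.g (nat_lit 0) (.e (nat_lit 28379) (nat_lit 0) .nil) .nil)))) (.nd (nat_lit 9) 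
(.lf (nat_lit 453091) (.g (nat_lit 1264) (.e (nat_lit 2622) (nat_lit 164) (.e (nat_lit 172118) (nat_lit 12) (.e (nat_lit 475198) (nat_lit 40) (.e (nat_lit 704599) (nat_lit 6) .nil)))) (.g (nat_lit 0) (.e (nat_lit 26298) (nat_lit 0) .nil) .nil))) 
(.lf (nat_lit 453603) (.g (nat_lit 3241) (.e (nat_lit 2629) (nat_lit 164) (.e (nat_lit 172126) (nat_lit 14) (.e (nat_lit 491550) (nat_lit 9) (.e (nat_lit 336430) (nat_lit 29) (.e (nat_lit 442419) (nat_lit 21) (.e (nat_lit 164346) (nat_lit 240) .nil)))))) (.g (nat_lit 1) (.e (nat_lit 30277) (nat_lit 0) .nil) .nil)))))))) 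
(.nd (nat_lit 5) (.nd (nat_lit 6) (.nd (nat_lit 7) (.nd (nat_lit 8) (.nd (nat_lit 9) 
(.lf (nat_lit 452627) (.g (nat_lit 2289) (.e (nat_lit 2616) (nat_lit 164) (.e (nat_lit 172126) (nat_lit 14) (.e (nat_lit 491540) (nat_lit 3) (.e (nat_lit 98373) (nat_lit 29) (.e (nat_lit 450560) (nat_lit 0) .nil))))) (.g (nat_lit 0) (.e (nat_lit 23571) (nat_lit 0) .nil) .nil))) 
(.lf (nat_lit 453139) (.g (nat_lit 1927) (.e (nat_lit 2625) (nat_lit 164) (.e (nat_lit 172124) (nat_lit 14) (.e (nat_lit 491540) (nat_lit 3) (.e (nat_lit 98372) (nat_lit 29) (.e (nat_lit 450564) (nat_lit 0) .nil))))) (.g (nat_lit 0) (.e (nat_lit 26888) (nat_lit 0) .nil) .nil)))) (.nd (nat_lit 9) 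
(.lf (nat_lit 452883) (.g (nat_lit 2290) (.e (nat_lit 2619) (nat_lit 164) (.e (nat_lit 172120) (nat_lit 12) (.e (nat_lit 475211) (nat_lit 41) (.e (nat_lit 712752) (nat_lit 29) (.e (nat_lit 442420) (nat_lit 21) .nil))))) (.g (nat_lit 0) (.e (nat_lit 25342) (nat_lit 0) .nil) .nil))) 
(.lf (nat_lit 453395) (.g (nat_lit 3597) (.e (nat_lit 2628) (nat_lit 164) (.e (nat_lit 172126) (nat_lit 14) (.e (nat_lit 491549) (nat_lit 9) (.e (nat_lit 336430) (nat_lit 29) (.e (nat_lit 442421) (nat_lit 21) (.e (nat_lit 164347) (nat_lit 240) .nil)))))) (.g (nat_lit 1) (.e (nat_lit 28705) (nat_lit 0) .nil) .nil))))) (.nd (nat_lit 8) (.nd (nat_lit 9) 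
(.lf (nat_lit 452755) (.g (nat_lit 2668) (.e (nat_lit 2618) (nat_lit 164) (.e (nat_lit 172126) (nat_lit 14) (.e (nat_lit 491549) (nat_lit 9) (.e (nat_lit 336434) (nat_lit 30) (.e (nat_lit 458496) (nat_lit 0) .nil))))) (.g (nat_lit 0) (.e (nat_lit 24647) (nat_lit 0) .nil) .nil))) 
(.lf (nat_lit 453267) (.g (nat_lit 1972) (.e (nat_lit 2628) (nat_lit 164) (.e (nat_lit 172118) (nat_lit 12) (.e (nat_lit 475210) (nat_lit 41) (.e (nat_lit 712755) (nat_lit 30) (.e (nat_lit 458496) (nat_lit 0) (.e (nat_lit 5546) (nat_lit 306) .nil)))))) (.g (nat_lit 1) (.e (nat_lit 28192) (nat_lit 0) .nil) .nil)))) (.nd (nat_lit 9) 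
(.lf (nat_lit 453011) (.g (nat_lit 1881) (.e (nat_lit 2619) (nat_lit 164) (.e (nat_lit 172126) (nat_lit 14) (.e (nat_lit 491568) (nat_lit 13) (.e (nat_lit 393283) (nat_lit 24) (.e (nat_lit 434209) (nat_lit 18) (.e (nat_lit 5547) (nat_lit 306) .nil)))))) (.g (nat_lit 1) (.e (nat_lit 25800) (nat_lit 0) .nil) .nil))) 
(.lf (nat_lit 453523) (.g (nat_lit 2172) (.e (nat_lit 2629) (nat_lit 164) (.e (nat_lit 172124) (nat_lit 14) (.e (nat_lit 491547) (nat_lit 9) (.e (nat_lit 336443) (nat_lit 32) (.e (nat_lit 466971) (nat_lit 21) (.e (nat_lit 164348) (nat_lit 240) .nil)))))) (.g (nat_lit 1) (.e (nat_lit 29719) (nat_lit 0) .nil) .nil)))))) (.nd (nat_lit 7) (.nd (nat_lit 8) (.nd (nat_lit 9) 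
(.lf (nat_lit 452691) (.g (nat_lit 3426) (.e (nat_lit 2618) (nat_lit 164) (.e (nat_lit 172118) (nat_lit 12) (.e (nat_lit 475210) (nat_lit 41) (.e (nat_lit 712752) (nat_lit 29) (.e (nat_lit 442421) (nat_lit 21) (.e (nat_lit 164346) (nat_lit 240) .nil)))))) (.g (nat_lit 1) (.e (nat_lit 24386) (nat_lit 0) .nil) .nil))) 
(.lf (nat_lit 453203) (.g (nat_lit 3385) (.e (nat_lit 2628) (nat_lit 164) (.e (nat_lit 172064) (nat_lit 2) (.e (nat_lit 196666) (nat_lit 13) (.e (nat_lit 65610) (nat_lit 10) (.e (nat_lit 344129) (nat_lit 26) (.e (nat_lit 557089) (nat_lit 12) (.e (nat_lit 163844) (nat_lit 0) (.e (nat_lit 6374) (nat_lit 337) .nil)))))))) (.g (nat_lit 1) (.e (nat_lit 27506) (nat_lit 0) .nil) .nil)))) 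
(.nd (nat_lit 9) 
(.lf (nat_lit 452947) (.g (nat_lit 2537) (.e (nat_lit 2619) (nat_lit 164) (.e (nat_lit 172124) (nat_lit 14) (.e (nat_lit 491568) (nat_lit 13) (.e (nat_lit 393283) (nat_lit 24) (.e (nat_lit 434209) (nat_lit 18) (.e (nat_lit 5548) (nat_lit 306) .nil)))))) (.g (nat_lit 1) (.e (nat_lit 25463) (nat_lit 0) .nil) .nil))) 
(.lf (nat_lit 453459) (.g (nat_lit 1762) (.e (nat_lit 2629) (nat_lit 164) (.e (nat_lit 172118) (nat_lit 12) (.e (nat_lit 475211) (nat_lit 41) (.e (nat_lit 712755) (nat_lit 30) (.e (nat_lit 458496) (nat_lit 0) .nil))))) (.g (nat_lit 0) (.e (nat_lit 29601) (nat_lit 0) .nil) .nil))))) (.nd (nat_lit 8) (.nd (nat_lit 9) 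
(.lf (nat_lit 452819) (.g (nat_lit 3707) (.e (nat_lit 2619) (nat_lit 164) (.e (nat_lit 172118) (nat_lit 12) (.e (nat_lit 475211) (nat_lit 41) (.e (nat_lit 712755) (nat_lit 30) (.e (nat_lit 450563) (nat_lit 0) (.e (nat_lit 5537) (nat_lit 306) .nil)))))) (.g (nat_lit 1) (.e (nat_lit 25249) (nat_lit 0) .nil) .nil))) 
(.lf (nat_lit 453331) (.g (nat_lit 2903) (.e (nat_lit 2628) (nat_lit 164) (.e (nat_lit 172124) (nat_lit 14) (.e (nat_lit 491549) (nat_lit 9) (.e (nat_lit 336430) (nat_lit 29) (.e (nat_lit 442419) (nat_lit 21) (.e (nat_lit 164345) (nat_lit 240) .nil)))))) (.g (nat_lit 1) (.e (nat_lit 28363) (nat_lit 0) .nil) .nil)))) (.nd (nat_lit 9) 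
(.lf (nat_lit 453075) (.g (nat_lit 2338) (.e (nat_lit 2622) (nat_lit 164) (.e (nat_lit 172062) (nat_lit 2) (.e (nat_lit 196666) (nat_lit 13) (.e (nat_lit 65617) (nat_lit 10) (.e (nat_lit 344133) (nat_lit 26) (.e (nat_lit 557091) (nat_lit 12) (.e (nat_lit 163843) (nat_lit 0) (.e (nat_lit 6254) (nat_lit 337) .nil)))))))) (.g (nat_lit 1) (.e (nat_lit 26270) (nat_lit 0) .nil) .nil))) 
(.lf (nat_lit 453587) (.g (nat_lit 2203) (.e (nat_lit 2629) (nat_lit 164) (.e (nat_lit 172126) (nat_lit 14) (.e (nat_lit 491549) (nat_lit 9) (.e (nat_lit 336432) (nat_lit 30) (.e (nat_lit 450561) (nat_lit 0) .nil))))) (.g (nat_lit 0) (.e (nat_lit 30258) (nat_lit 0) .nil) .nil))))))) (.nd (nat_lit 6) (.nd (nat_lit 7) (.nd (nat_lit 8) (.nd (nat_lit 9) 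
(.lf (nat_lit 452659) (.g (nat_lit 3064) (.e (nat_lit 2617) (nat_lit 164) (.e (nat_lit 172126) (nat_lit 14) (.e (nat_lit 491549) (nat_lit 9) (.e (nat_lit 336430) (nat_lit 29) (.e (nat_lit 442421) (nat_lit 21) (.e (nat_lit 164346) (nat_lit 240) .nil)))))) (.g (nat_lit 1) (.e (nat_lit 23911) (nat_lit 0) .nil) .nil))) 
(.lf (nat_lit 453171) (.g (nat_lit 2604) (.e (nat_lit 2626) (nat_lit 164) (.e (nat_lit 172126) (nat_lit 14) (.e (nat_lit 491539) (nat_lit 3) (.e (nat_lit 98373) (nat_lit 29) (.e (nat_lit 450563) (nat_lit 0) .nil))))) (.g (nat_lit 0) (.e (nat_lit 27270) (nat_lit 0) .nil) .nil)))) (.nd (nat_lit 9) 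
(.lf (nat_lit 452915) (.g (nat_lit 2427) (.e (nat_lit 2619) (nat_lit 164) (.e (nat_lit 172124) (nat_lit 14) (.e (nat_lit 491549) (nat_lit 9) (.e (nat_lit 336432) (nat_lit 30) (.e (nat_lit 458496) (nat_lit 0) (.e (nat_lit 5543) (nat_lit 306) .nil)))))) (.g (nat_lit 1) (.e (nat_lit 25425) (nat_lit 0) .nil) .nil))) 
(.lf (nat_lit 453427) (.g (nat_lit 2458) (.e (nat_lit 2628) (nat_lit 164) (.e (nat_lit 172126) (nat_lit 14) (.e (nat_lit 491568) (nat_lit 13) (.e (nat_lit 393283) (nat_lit 24) (.e (nat_lit 434209) (nat_lit 18) (.e (nat_lit 5548) (nat_lit 306) .nil)))))) (.g (nat_lit 1) (.e (nat_lit 28749) (nat_lit 0) .nil) .nil))))) (.nd (nat_lit 8) (.nd (nat_lit 9) 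
(.lf (nat_lit 452787) (.g (nat_lit 969) (.e (nat_lit 2619) (nat_lit 164) (.e (nat_lit 172097) (nat_lit 9) (.e (nat_lit 426025) (nat_lit 0) (.e (nat_lit 3399) (nat_lit 211) .nil)))) (.g (nat_lit 0) (.e (nat_lit 24893) (nat_lit 0) .nil) .nil))) 
(.lf (nat_lit 453299) (.g (nat_lit 3510) (.e (nat_lit 2628) (nat_lit 164) (.e (nat_lit 172120) (nat_lit 12) (.e (nat_lit 475210) (nat_lit 41) (.e (nat_lit 712752) (nat_lit 29) (.e (nat_lit 442421) (nat_lit 21) (.e (nat_lit 164345) (nat_lit 240) .nil)))))) (.g (nat_lit 1) (.e (nat_lit 28257) (nat_lit 0) .nil) .nil)))) (.nd (nat_lit 9) 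
(.lf (nat_lit 453043) (.g (nat_lit 2909) (.e (nat_lit 2621) (nat_lit 164) (.e (nat_lit 172066) (nat_lit 3) (.e (nat_lit 204869) (nat_lit 29) (.e (nat_lit 360475) (nat_lit 8) (.e (nat_lit 557089) (nat_lit 12) .nil))))) (.g (nat_lit 0) (.e (nat_lit 26172) (nat_lit 0) .nil) .nil))) 
(.lf (nat_lit 453555) (.g (nat_lit 3529) (.e (nat_lit 2629) (nat_lit 164) (.e (nat_lit 172124) (nat_lit 14) (.e (nat_lit 491550) (nat_lit 9) (.e (nat_lit 336443) (nat_lit 32) (.e (nat_lit 466969) (nat_lit 21) (.e (nat_lit 164347) (nat_lit 240) .nil)))))) (.g (nat_lit 1) (.e (nat_lit 29778) (nat_lit 0) .nil) .nil)))))) (.nd (nat_lit 7) (.nd (nat_lit 8) (.nd (nat_lit 9) 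
(.lf (nat_lit 452723) (.g (nat_lit 1380) (.e (nat_lit 2618) (nat_lit 164) (.e (nat_lit 172124) (nat_lit 14) (.e (nat_lit 491549) (nat_lit 9) (.e (nat_lit 336432) (nat_lit 30) .nil)))) (.g (nat_lit 0) (.e (nat_lit 24457) (nat_lit 0) .nil) .nil))) 
(.lf (nat_lit 453235) (.g (nat_lit 2667) (.e (nat_lit 2628) (nat_lit 164) (.e (nat_lit 172067) (nat_lit 3) (.e (nat_lit 204869) (nat_lit 29) (.e (nat_lit 360474) (nat_lit 8) (.e (nat_lit 557094) (nat_lit 12) .nil))))) (.g (nat_lit 0) (.e (nat_lit 27586) (nat_lit 0) .nil) .nil)))) (.nd (nat_lit 9) 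
(.lf (nat_lit 452979) (.g (nat_lit 2718) (.e (nat_lit 2619) (nat_lit 164) (.e (nat_lit 172126) (nat_lit 14) (.e (nat_lit 491549) (nat_lit 9) (.e (nat_lit 336432) (nat_lit 30) (.e (nat_lit 450564) (nat_lit 0) (.e (nat_lit 5548) (nat_lit 306) .nil)))))) (.g (nat_lit 1) (.e (nat_lit 25764) (nat_lit 0) .nil) .nil))) 
(.lf (nat_lit 453491) (.g (nat_lit 2407) (.e (nat_lit 2629) (nat_lit 164) (.e (nat_lit 172120) (nat_lit 12) (.e (nat_lit 475210) (nat_lit 41) (.e (nat_lit 712753) (nat_lit 30) (.e (nat_lit 450564) (nat_lit 0) (.e (nat_lit 5546) (nat_lit 306) .nil)))))) (.g (nat_lit 1) (.e (nat_lit 29665) (nat_lit 0) .nil) .nil))))) (.nd (nat_lit 8) (.nd (nat_lit 9) 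
(.lf (nat_lit 452851) (.g (nat_lit 2731) (.e (nat_lit 2619) (nat_lit 164) (.e (nat_lit 172120) (nat_lit 12) (.e (nat_lit 475198) (nat_lit 40) (.e (nat_lit 704599) (nat_lit 6) (.e (nat_lit 188445) (nat_lit 21) (.e (nat_lit 164345) (nat_lit 240) .nil)))))) (.g (nat_lit 1) (.e (nat_lit 25292) (nat_lit 0) .nil) .nil))) 
(.lf (nat_lit 453363) (.g (nat_lit 2890) (.e (nat_lit 2628) (nat_lit 164) (.e (nat_lit 172124) (nat_lit 14) (.e (nat_lit 491550) (nat_lit 9) (.e (nat_lit 336443) (nat_lit 32) (.e (nat_lit 466969) (nat_lit 21) (.e (nat_lit 164347) (nat_lit 240) .nil)))))) (.g (nat_lit 1) (.e (nat_lit 28396) (nat_lit 0) .nil) .nil)))) (.nd (nat_lit 9) 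
(.lf (nat_lit 453107) (.g (nat_lit 3194) (.e (nat_lit 2622) (nat_lit 164) (.e (nat_lit 172124) (nat_lit 14) (.e (nat_lit 491550) (nat_lit 9) (.e (nat_lit 336430) (nat_lit 29) (.e (nat_lit 442430) (nat_lit 24) (.e (nat_lit 229666) (nat_lit 240) .nil)))))) (.g (nat_lit 1) (.e (nat_lit 26374) (nat_lit 0) .nil) .nil))) 
(.lf (nat_lit 453619) (.g (nat_lit 2378) (.e (nat_lit 2629) (nat_lit 164) (.e (nat_lit 172126) (nat_lit 14) (.e (nat_lit 491550) (nat_lit 9) (.e (nat_lit 336443) (nat_lit 32) (.e (nat_lit 466971) (nat_lit 21) (.e (nat_lit 164346) (nat_lit 240) .nil)))))) (.g (nat_lit 1) (.e (nat_lit 30294) (nat_lit 0) .nil) .nil))))))))) 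
(.nd (nat_lit 4) (.nd (nat_lit 5) (.nd (nat_lit 6) (.nd (nat_lit 7) (.nd (nat_lit 8) 
(.nd (nat_lit 9) 
(.lf (nat_lit 452619) (.g (nat_lit 1455) (.e (nat_lit 2616) (nat_lit 164) (.e (nat_lit 172115) (nat_lit 10) (.e (nat_lit 434212) (nat_lit 18) (.e (nat_lit 6425) (nat_lit 342) (.e (nat_lit 229415) (nat_lit 15) .nil))))) (.g (nat_lit 0) (.e (nat_lit 23526) (nat_lit 0) .nil) .nil))) 
(.lf (nat_lit 453131) (.g (nat_lit 2547) (.e (nat_lit 2625) (nat_lit 164) (.e (nat_lit 172120) (nat_lit 12) (.e (nat_lit 475211) (nat_lit 41) (.e (nat_lit 712755) (nat_lit 30) (.e (nat_lit 450560) (nat_lit 0) (.e (nat_lit 5497) (nat_lit 306) .nil)))))) (.g (nat_lit 1) (.e (nat_lit 26842) (nat_lit 0) .nil) .nil)))) (.nd (nat_lit 9) 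
(.lf (nat_lit 452875) (.g (nat_lit 3966) (.e (nat_lit 2619) (nat_lit 164) (.e (nat_lit 172120) (nat_lit 12) (.e (nat_lit 475210) (nat_lit 41) (.e (nat_lit 712755) (nat_lit 30) (.e (nat_lit 450564) (nat_lit 0) (.e (nat_lit 5548) (nat_lit 306) .nil)))))) (.g (nat_lit 1) (.e (nat_lit 25333) (nat_lit 0) .nil) .nil))) 
(.lf (nat_lit 453387) (.g (nat_lit 3542) (.e (nat_lit 2628) (nat_lit 164) (.e (nat_lit 172126) (nat_lit 14) (.e (nat_lit 491547) (nat_lit 9) (.e (nat_lit 336443) (nat_lit 32) (.e (nat_lit 466971) (nat_lit 21) (.e (nat_lit 164348) (nat_lit 240) .nil)))))) (.g (nat_lit 1) (.e (nat_lit 28667) (nat_lit 0) .nil) .nil))))) (.nd (nat_lit 8) (.nd (nat_lit 9) 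
(.lf (nat_lit 452747) (.g (nat_lit 2487) (.e (nat_lit 2618) (nat_lit 164) (.e (nat_lit 172126) (nat_lit 14) (.e (nat_lit 491547) (nat_lit 9) (.e (nat_lit 336443) (nat_lit 32) (.e (nat_lit 466969) (nat_lit 21) (.e (nat_lit 164345) (nat_lit 240) .nil)))))) (.g (nat_lit 1) (.e (nat_lit 24635) (nat_lit 0) .nil) .nil))) 
(.lf (nat_lit 453259) (.g (nat_lit 2320) (.e (nat_lit 2628) (nat_lit 164) (.e (nat_lit 172118) (nat_lit 12) (.e (nat_lit 475210) (nat_lit 41) (.e (nat_lit 712753) (nat_lit 30) (.e (nat_lit 450564) (nat_lit 0) (.e (nat_lit 5546) (nat_lit 306) .nil)))))) (.g (nat_lit 1) (.e (nat_lit 28184) (nat_lit 0) .nil) .nil)))) (.nd (nat_lit 9) 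
(.lf (nat_lit 453003) (.g (nat_lit 3195) (.e (nat_lit 2619) (nat_lit 164) (.e (nat_lit 172126) (nat_lit 14) (.e (nat_lit 491550) (nat_lit 9) (.e (nat_lit 336443) (nat_lit 32) (.e (nat_lit 466969) (nat_lit 21) (.e (nat_lit 164347) (nat_lit 240) .nil)))))) (.g (nat_lit 1) (.e (nat_lit 25789) (nat_lit 0) .nil) .nil))) 
(.lf (nat_lit 453515) (.g (nat_lit 2472) (.e (nat_lit 2629) (nat_lit 164) (.e (nat_lit 172120) (nat_lit 12) (.e (nat_lit 475211) (nat_lit 41) (.e (nat_lit 712755) (nat_lit 30) (.e (nat_lit 458496) (nat_lit 0) (.e (nat_lit 5543) (nat_lit 306) .nil)))))) (.g (nat_lit 1) (.e (nat_lit 29692) (nat_lit 0) .nil) .nil)))))) (.nd (nat_lit 7) (.nd (nat_lit 8) (.nd (nat_lit 9) 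
(.lf (nat_lit 452683) (.g (nat_lit 2181) (.e (nat_lit 2618) (nat_lit 164) (.e (nat_lit 172118) (nat_lit 12) (.e (nat_lit 475198) (nat_lit 40) (.e (nat_lit 704598) (nat_lit 6) (.e (nat_lit 188444) (nat_lit 21) (.e (nat_lit 164345) (nat_lit 240) .nil)))))) (.g (nat_lit 1) (.e (nat_lit 24372) (nat_lit 0) .nil) .nil))) 
(.lf (nat_lit 453195) (.g (nat_lit 2289) (.e (nat_lit 2628) (nat_lit 164) (.e (nat_lit 172062) (nat_lit 2) (.e (nat_lit 196666) (nat_lit 13) (.e (nat_lit 65617) (nat_lit 10) (.e (nat_lit 344133) (nat_lit 26) .nil))))) (.g (nat_lit 0) (.e (nat_lit 27494) (nat_lit 0) .nil) .nil)))) (.nd (nat_lit 9) 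
(.lf (nat_lit 452939) (.g (nat_lit 3707) (.e (nat_lit 2619) (nat_lit 164) (.e (nat_lit 172124) (nat_lit 14) (.e (nat_lit 491550) (nat_lit 9) (.e (nat_lit 336443) (nat_lit 32) (.e (nat_lit 466971) (nat_lit 21) (.e (nat_lit 164347) (nat_lit 240) .nil)))))) (.g (nat_lit 1) (.e (nat_lit 25452) (nat_lit 0) .nil) .nil))) 
(.lf (nat_lit 453451) (.g (nat_lit 2937) (.e (nat_lit 2629) (nat_lit 164) (.e (nat_lit 172118) (nat_lit 12) (.e (nat_lit 475211) (nat_lit 41) (.e (nat_lit 712753) (nat_lit 30) (.e (nat_lit 450561) (nat_lit 0) (.e (nat_lit 5537) (nat_lit 306) .nil)))))) (.g (nat_lit 1) (.e (nat_lit 29593) (nat_lit 0) .nil) .nil))))) (.nd (nat_lit 8) (.nd (nat_lit 9) 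
(.lf (nat_lit 452811) (.g (nat_lit 1967) (.e (nat_lit 2619) (nat_lit 164) (.e (nat_lit 172118) (nat_lit 12) (.e (nat_lit 475211) (nat_lit 41) (.e (nat_lit 712750) (nat_lit 29) (.e (nat_lit 442421) (nat_lit 21) (.e (nat_lit 164346) (nat_lit 240) .nil)))))) (.g (nat_lit 1) (.e (nat_lit 25240) (nat_lit 0) .nil) .nil))) 
(.lf (nat_lit 453323) (.g (nat_lit 3441) (.e (nat_lit 2628) (nat_lit 164) (.e (nat_lit 172120) (nat_lit 12) (.e (nat_lit 475211) (nat_lit 41) (.e (nat_lit 712755) (nat_lit 30) (.e (nat_lit 450566) (nat_lit 0) (.e (nat_lit 5548) (nat_lit 306) .nil)))))) (.g (nat_lit 1) (.e (nat_lit 28285) (nat_lit 0) .nil) .nil)))) (.nd (nat_lit 9) 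
(.lf (nat_lit 453067) (.g (nat_lit 2340) (.e (nat_lit 2621) (nat_lit 164) (.e (nat_lit 172120) (nat_lit 12) (.e (nat_lit 475211) (nat_lit 41) (.e (nat_lit 712753) (nat_lit 30) (.e (nat_lit 450567) (nat_lit 0) .nil))))) (.g (nat_lit 0) (.e (nat_lit 26232) (nat_lit 0) .nil) .nil))) 
(.lf (nat_lit 453579) (.g (nat_lit 2062) (.e (nat_lit 2629) (nat_lit 164) (.e (nat_lit 172126) (nat_lit 14) (.e (nat_lit 491549) (nat_lit 9) (.e (nat_lit 336426) (nat_lit 29) (.e (nat_lit 442421) (nat_lit 21) .nil))))) (.g (nat_lit 0) (.e (nat_lit 30249) (nat_lit 0) .nil) .nil))))))) (.nd (nat_lit 6) (.nd (nat_lit 7) (.nd (nat_lit 8) (.nd (nat_lit 9) 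
(.lf (nat_lit 452651) (.g (nat_lit 2287) (.e (nat_lit 2617) (nat_lit 164) (.e (nat_lit 172126) (nat_lit 14) (.e (nat_lit 491547) (nat_lit 9) (.e (nat_lit 336443) (nat_lit 32) (.e (nat_lit 466971) (nat_lit 21) (.e (nat_lit 164346) (nat_lit 240) .nil)))))) (.g (nat_lit 1) (.e (nat_lit 23868) (nat_lit 0) .nil) .nil))) 
(.lf (nat_lit 453163) (.g (nat_lit 2534) (.e (nat_lit 2626) (nat_lit 164) (.e (nat_lit 172124) (nat_lit 14) (.e (nat_lit 491540) (nat_lit 3) (.e (nat_lit 98373) (nat_lit 29) (.e (nat_lit 450569) (nat_lit 0) .nil))))) (.g (nat_lit 0) (.e (nat_lit 27226) (nat_lit 0) .nil) .nil)))) (.nd (nat_lit 9) 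
(.lf (nat_lit 452907) (.g (nat_lit 3063) (.e (nat_lit 2619) (nat_lit 164) (.e (nat_lit 172124) (nat_lit 14) (.e (nat_lit 491549) (nat_lit 9) (.e (nat_lit 336426) (nat_lit 29) (.e (nat_lit 442421) (nat_lit 21) (.e (nat_lit 164347) (nat_lit 240) .nil)))))) (.g (nat_lit 1) (.e (nat_lit 25415) (nat_lit 0) .nil) .nil))) 
(.lf (nat_lit 453419) (.g (nat_lit 3580) (.e (nat_lit 2628) (nat_lit 164) (.e (nat_lit 172126) (nat_lit 14) (.e (nat_lit 491550) (nat_lit 9) (.e (nat_lit 336443) (nat_lit 32) (.e (nat_lit 466971) (nat_lit 21) (.e (nat_lit 164345) (nat_lit 240) .nil)))))) (.g (nat_lit 1) (.e (nat_lit 28731) (nat_lit 0) .nil) .nil))))) (.nd (nat_lit 8) (.nd (nat_lit 9) 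
(.lf (nat_lit 452779) (.g (nat_lit 3902) (.e (nat_lit 2619) (nat_lit 164) (.e (nat_lit 172064) (nat_lit 2) (.e (nat_lit 196666) (nat_lit 13) (.e (nat_lit 65610) (nat_lit 10) (.e (nat_lit 344117) (nat_lit 21) (.e (nat_lit 516098) (nat_lit 0) (.e (nat_lit 2401) (nat_lit 157) (.e (nat_lit 4506) (nat_lit 263) .nil)))))))) (.g (nat_lit 1) (.e (nat_lit 24758) (nat_lit 0) .nil) .nil))) 
(.lf (nat_lit 453291) (.g (nat_lit 1719) (.e (nat_lit 2628) (nat_lit 164) (.e (nat_lit 172120) (nat_lit 12) (.e (nat_lit 475198) (nat_lit 40) (.e (nat_lit 704599) (nat_lit 6) (.e (nat_lit 188444) (nat_lit 21) (.e (nat_lit 164347) (nat_lit 240) .nil)))))) (.g (nat_lit 1) (.e (nat_lit 28230) (nat_lit 0) .nil) .nil)))) (.nd (nat_lit 9) 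
(.lf (nat_lit 453035) (.g (nat_lit 1397) (.e (nat_lit 2620) (nat_lit 164) (.e (nat_lit 172120) (nat_lit 12) (.e (nat_lit 475197) (nat_lit 40) (.e (nat_lit 704598) (nat_lit 6) (.e (nat_lit 188453) (nat_lit 24) .nil))))) (.g (nat_lit 0) (.e (nat_lit 26025) (nat_lit 0) .nil) .nil))) 
(.lf (nat_lit 453547) (.g (nat_lit 3414) (.e (nat_lit 2629) (nat_lit 164) (.e (nat_lit 172124) (nat_lit 14) (.e (nat_lit 491550) (nat_lit 9) (.e (nat_lit 336430) (nat_lit 29) (.e (nat_lit 442419) (nat_lit 21) (.e (nat_lit 164347) (nat_lit 240) .nil)))))) (.g (nat_lit 1) (.e (nat_lit 29769) (nat_lit 0) .nil) .nil)))))) (.nd (nat_lit 7) (.nd (nat_lit 8) (.nd (nat_lit 9) 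
(.lf (nat_lit 452715) (.g (nat_lit 3385) (.e (nat_lit 2618) (nat_lit 164) (.e (nat_lit 172120) (nat_lit 12) (.e (nat_lit 475211) (nat_lit 41) (.e (nat_lit 712752) (nat_lit 29) (.e (nat_lit 442421) (nat_lit 21) (.e (nat_lit 164346) (nat_lit 240) .nil)))))) (.g (nat_lit 1) (.e (nat_lit 24441) (nat_lit 0) .nil) .nil))) 
(.lf (nat_lit 453227) (.g (nat_lit 4379) (.e (nat_lit 2628) (nat_lit 164) (.e (nat_lit 172066) (nat_lit 3) (.e (nat_lit 204869) (nat_lit 29) (.e (nat_lit 360475) (nat_lit 8) (.e (nat_lit 557091) (nat_lit 12) (.e (nat_lit 163841) (nat_lit 0) (.e (nat_lit 6374) (nat_lit 337) .nil))))))) (.g (nat_lit 1) (.e (nat_lit 27550) (nat_lit 0) .nil) .nil)))) (.nd (nat_lit 9) 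
(.lf (nat_lit 452971) (.g (nat_lit 2916) (.e (nat_lit 2619) (nat_lit 164) (.e (nat_lit 172126) (nat_lit 14) (.e (nat_lit 491549) (nat_lit 9) (.e (nat_lit 336426) (nat_lit 29) (.e (nat_lit 442421) (nat_lit 21) (.e (nat_lit 164347) (nat_lit 240) .nil)))))) (.g (nat_lit 1) (.e (nat_lit 25755) (nat_lit 0) .nil) .nil))) 
(.lf (nat_lit 453483) (.g (nat_lit 2092) (.e (nat_lit 2629) (nat_lit 164) (.e (nat_lit 172120) (nat_lit 12) (.e (nat_lit 475198) (nat_lit 40) (.e (nat_lit 704599) (nat_lit 6) (.e (nat_lit 188446) (nat_lit 21) .nil))))) (.g (nat_lit 0) (.e (nat_lit 29642) (nat_lit 0) .nil) .nil))))) (.nd (nat_lit 8) (.nd (nat_lit 9) 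
(.lf (nat_lit 452843) (.g (nat_lit 2983) (.e (nat_lit 2619) (nat_lit 164) (.e (nat_lit 172120) (nat_lit 12) (.e (nat_lit 475197) (nat_lit 40) (.e (nat_lit 704598) (nat_lit 6) (.e (nat_lit 188444) (nat_lit 21) (.e (nat_lit 164348) (nat_lit 240) .nil)))))) (.g (nat_lit 1) (.e (nat_lit 25279) (nat_lit 0) .nil) .nil))) 
(.lf (nat_lit 453355) (.g (nat_lit 2479) (.e (nat_lit 2628) (nat_lit 164) (.e (nat_lit 172124) (nat_lit 14) (.e (nat_lit 491550) (nat_lit 9) (.e (nat_lit 336430) (nat_lit 29) (.e (nat_lit 442421) (nat_lit 21) (.e (nat_lit 164346) (nat_lit 240) .nil)))))) (.g (nat_lit 1) (.e (nat_lit 28388) (nat_lit 0) .nil) .nil)))) (.nd (nat_lit 9) 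
(.lf (nat_lit 453099) (.g (nat_lit 2859) (.e (nat_lit 2622) (nat_lit 164) (.e (nat_lit 172124) (nat_lit 14) (.e (nat_lit 491549) (nat_lit 9) (.e (nat_lit 336430) (nat_lit 29) (.e (nat_lit 442429) (nat_lit 24) .nil))))) (.g (nat_lit 0) (.e (nat_lit 26364) (nat_lit 0) .nil) .nil))) 
(.lf (nat_lit 453611) (.g (nat_lit 3126) (.e (nat_lit 2629) (nat_lit 164) (.e (nat_lit 172126) (nat_lit 14) (.e (nat_lit 491550) (nat_lit 9) (.e (nat_lit 336432) (nat_lit 30) (.e (nat_lit 450565) (nat_lit 0) (.e (nat_lit 5548) (nat_lit 306) .nil)))))) (.g (nat_lit 1) (.e (nat_lit 30285) (nat_lit 0) .nil) .nil)))))))) 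
(.nd (nat_lit 5) (.nd (nat_lit 6) (.nd (nat_lit 7) (.nd (nat_lit 8) (.nd (nat_lit 9) 
(.lf (nat_lit 452635) (.g (nat_lit 3342) (.e (nat_lit 2617) (nat_lit 164) (.e (nat_lit 172120) (nat_lit 12) (.e (nat_lit 475210) (nat_lit 41) (.e (nat_lit 712752) (nat_lit 29) (.e (nat_lit 442421) (nat_lit 21) (.e (nat_lit 164346) (nat_lit 240) .nil)))))) (.g (nat_lit 1) (.e (nat_lit 23775) (nat_lit 0) .nil) .nil))) 
(.lf (nat_lit 453147) (.g (nat_lit 2018) (.e (nat_lit 2625) (nat_lit 164) (.e (nat_lit 172126) (nat_lit 14) (.e (nat_lit 491540) (nat_lit 3) (.e (nat_lit 98372) (nat_lit 29) (.e (nat_lit 450568) (nat_lit 0) .nil))))) (.g (nat_lit 0) (.e (nat_lit 26977) (nat_lit 0) .nil) .nil)))) (.nd (nat_lit 9) 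
(.lf (nat_lit 452891) (.g (nat_lit 2021) (.e (nat_lit 2619) (nat_lit 164) (.e (nat_lit 172120) (nat_lit 12) (.e (nat_lit 475211) (nat_lit 41) (.e (nat_lit 712753) (nat_lit 30) (.e (nat_lit 458496) (nat_lit 0) (.e (nat_lit 5548) (nat_lit 306) .nil)))))) (.g (nat_lit 1) (.e (nat_lit 25350) (nat_lit 0) .nil) .nil))) 
(.lf (nat_lit 453403) (.g (nat_lit 3470) (.e (nat_lit 2628) (nat_lit 164) (.e (nat_lit 172126) (nat_lit 14) (.e (nat_lit 491549) (nat_lit 9) (.e (nat_lit 336443) (nat_lit 32) (.e (nat_lit 466971) (nat_lit 21) (.e (nat_lit 164345) (nat_lit 240) .nil)))))) (.g (nat_lit 1) (.e (nat_lit 28713) (nat_lit 0) .nil) .nil))))) (.nd (nat_lit 8) (.nd (nat_lit 9) 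
(.lf (nat_lit 452763) (.g (nat_lit 1962) (.e (nat_lit 2618) (nat_lit 164) (.e (nat_lit 172126) (nat_lit 14) (.e (nat_lit 491568) (nat_lit 13) (.e (nat_lit 393266) (nat_lit 23) .nil)))) (.g (nat_lit 0) (.e (nat_lit 24658) (nat_lit 0) .nil) .nil))) 
(.lf (nat_lit 453275) (.g (nat_lit 3760) (.e (nat_lit 2628) (nat_lit 164) (.e (nat_lit 172118) (nat_lit 12) (.e (nat_lit 475211) (nat_lit 41) (.e (nat_lit 712753) (nat_lit 30) (.e (nat_lit 450561) (nat_lit 0) (.e (nat_lit 5537) (nat_lit 306) .nil)))))) (.g (nat_lit 1) (.e (nat_lit 28203) (nat_lit 0) .nil) .nil)))) (.nd (nat_lit 9) 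
(.lf (nat_lit 453019) (.g (nat_lit 3011) (.e (nat_lit 2619) (nat_lit 164) (.e (nat_lit 172127) (nat_lit 15) (.e (nat_lit 6724) (nat_lit 362) (.e (nat_lit 180243) (nat_lit 5) (.e (nat_lit 532579) (nat_lit 26) (.e (nat_lit 426107) (nat_lit 1) (.e (nat_lit 164347) (nat_lit 240) .nil))))))) (.g (nat_lit 1) (.e (nat_lit 25982) (nat_lit 0) .nil) .nil))) 
(.lf (nat_lit 453531) (.g (nat_lit 3632) (.e (nat_lit 2629) (nat_lit 164) (.e (nat_lit 172124) (nat_lit 14) (.e (nat_lit 491549) (nat_lit 9) (.e (nat_lit 336430) (nat_lit 29) (.e (nat_lit 442421) (nat_lit 21) (.e (nat_lit 164347) (nat_lit 240) .nil)))))) (.g (nat_lit 1) (.e (nat_lit 29750) (nat_lit 0) .nil) .nil)))))) (.nd (nat_lit 7) (.nd (nat_lit 8) (.nd (nat_lit 9) 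
(.lf (nat_lit 452699) (.g (nat_lit 3073) (.e (nat_lit 2618) (nat_lit 164) (.e (nat_lit 172119) (nat_lit 12) (.e (nat_lit 475211) (nat_lit 41) (.e (nat_lit 712752) (nat_lit 29) (.e (nat_lit 442421) (nat_lit 21) (.e (nat_lit 164346) (nat_lit 240) .nil)))))) (.g (nat_lit 1) (.e (nat_lit 24403) (nat_lit 0) .nil) .nil))) 
(.lf (nat_lit 453211) (.g (nat_lit 4054) (.e (nat_lit 2628) (nat_lit 164) (.e (nat_lit 172064) (nat_lit 2) (.e (nat_lit 196666) (nat_lit 13) (.e (nat_lit 65617) (nat_lit 10) (.e (nat_lit 344133) (nat_lit 26) (.e (nat_lit 557091) (nat_lit 12) (.e (nat_lit 163844) (nat_lit 0) (.e (nat_lit 6374) (nat_lit 337) .nil)))))))) (.g (nat_lit 1) (.e (nat_lit 27514) (nat_lit 0) .nil) .nil)))) 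
(.nd (nat_lit 9) 
(.lf (nat_lit 452955) (.g (nat_lit 4208) (.e (nat_lit 2619) (nat_lit 164) (.e (nat_lit 172126) (nat_lit 14) (.e (nat_lit 491540) (nat_lit 3) (.e (nat_lit 98370) (nat_lit 28) (.e (nat_lit 442430) (nat_lit 24) (.e (nat_lit 229535) (nat_lit 134) .nil)))))) (.g (nat_lit 1) (.e (nat_lit 25720) (nat_lit 0) .nil) .nil))) 
(.lf (nat_lit 453467) (.g (nat_lit 1915) (.e (nat_lit 2629) (nat_lit 164) (.e (nat_lit 172119) (nat_lit 12) (.e (nat_lit 475210) (nat_lit 41) (.e (nat_lit 712755) (nat_lit 30) (.e (nat_lit 450566) (nat_lit 0) .nil))))) (.g (nat_lit 0) (.e (nat_lit 29619) (nat_lit 0) .nil) .nil))))) (.nd (nat_lit 8) (.nd (nat_lit 9) 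
(.lf (nat_lit 452827) (.g (nat_lit 1806) (.e (nat_lit 2619) (nat_lit 164) (.e (nat_lit 172119) (nat_lit 12) (.e (nat_lit 475210) (nat_lit 41) (.e (nat_lit 712753) (nat_lit 30) (.e (nat_lit 450561) (nat_lit 0) .nil))))) (.g (nat_lit 0) (.e (nat_lit 25262) (nat_lit 0) .nil) .nil))) 
(.lf (nat_lit 453339) (.g (nat_lit 2113) (.e (nat_lit 2628) (nat_lit 164) (.e (nat_lit 172124) (nat_lit 14) (.e (nat_lit 491549) (nat_lit 9) (.e (nat_lit 336432) (nat_lit 30) (.e (nat_lit 458496) (nat_lit 0) (.e (nat_lit 5547) (nat_lit 306) .nil)))))) (.g (nat_lit 1) (.e (nat_lit 28371) (nat_lit 0) .nil) .nil)))) (.nd (nat_lit 9) 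
(.lf (nat_lit 453083) (.g (nat_lit 2824) (.e (nat_lit 2622) (nat_lit 164) (.e (nat_lit 172066) (nat_lit 3) (.e (nat_lit 204869) (nat_lit 29) (.e (nat_lit 360475) (nat_lit 8) (.e (nat_lit 557089) (nat_lit 12) .nil))))) (.g (nat_lit 0) (.e (nat_lit 26278) (nat_lit 0) .nil) .nil))) 
(.lf (nat_lit 453595) (.g (nat_lit 2248) (.e (nat_lit 2629) (nat_lit 164) (.e (nat_lit 172126) (nat_lit 14) (.e (nat_lit 491549) (nat_lit 9) (.e (nat_lit 336434) (nat_lit 30) (.e (nat_lit 458496) (nat_lit 0) (.e (nat_lit 5547) (nat_lit 306) .nil)))))) (.g (nat_lit 1) (.e (nat_lit 30267) (nat_lit 0) .nil) .nil))))))) (.nd (nat_lit 6) (.nd (nat_lit 7) (.nd (nat_lit 8) (.nd (nat_lit 9) 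
(.lf (nat_lit 452667) (.g (nat_lit 2137) (.e (nat_lit 2617) (nat_lit 164) (.e (nat_lit 172126) (nat_lit 14) (.e (nat_lit 491549) (nat_lit 9) (.e (nat_lit 336434) (nat_lit 30) (.e (nat_lit 458496) (nat_lit 0) (.e (nat_lit 5547) (nat_lit 306) .nil)))))) (.g (nat_lit 1) (.e (nat_lit 23919) (nat_lit 0) .nil) .nil))) 
(.lf (nat_lit 453179) (.g (nat_lit 5200) (.e (nat_lit 2626) (nat_lit 164) (.e (nat_lit 172126) (nat_lit 14) (.e (nat_lit 491540) (nat_lit 3) (.e (nat_lit 98373) (nat_lit 29) (.e (nat_lit 450563) (nat_lit 0) (.e (nat_lit 3948) (nat_lit 239) .nil)))))) (.g (nat_lit 1) (.e (nat_lit 27283) (nat_lit 0) .nil) .nil)))) (.nd (nat_lit 9) 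
(.lf (nat_lit 452923) (.g (nat_lit 2469) (.e (nat_lit 2619) (nat_lit 164) (.e (nat_lit 172124) (nat_lit 14) (.e (nat_lit 491549) (nat_lit 9) (.e (nat_lit 336443) (nat_lit 32) (.e (nat_lit 466971) (nat_lit 21) (.e (nat_lit 164346) (nat_lit 240) .nil)))))) (.g (nat_lit 1) (.e (nat_lit 25433) (nat_lit 0) .nil) .nil))) 
(.lf (nat_lit 453435) (.g (nat_lit 1269) (.e (nat_lit 2629) (nat_lit 164) (.e (nat_lit 172118) (nat_lit 12) (.e (nat_lit 475198) (nat_lit 40) (.e (nat_lit 704599) (nat_lit 6) .nil)))) (.g (nat_lit 0) (.e (nat_lit 29569) (nat_lit 0) .nil) .nil))))) (.nd (nat_lit 8) (.nd (nat_lit 9) 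
(.lf (nat_lit 452795) (.g (nat_lit 2354) (.e (nat_lit 2619) (nat_lit 164) (.e (nat_lit 172118) (nat_lit 12) (.e (nat_lit 475198) (nat_lit 40) (.e (nat_lit 704599) (nat_lit 6) (.e (nat_lit 188446) (nat_lit 21) (.e (nat_lit 164347) (nat_lit 240) .nil)))))) (.g (nat_lit 1) (.e (nat_lit 25211) (nat_lit 0) .nil) .nil))) 
(.lf (nat_lit 453307) (.g (nat_lit 2356) (.e (nat_lit 2628) (nat_lit 164) (.e (nat_lit 172120) (nat_lit 12) (.e (nat_lit 475210) (nat_lit 41) (.e (nat_lit 712755) (nat_lit 30) (.e (nat_lit 450564) (nat_lit 0) (.e (nat_lit 5546) (nat_lit 306) .nil)))))) (.g (nat_lit 1) (.e (nat_lit 28265) (nat_lit 0) .nil) .nil)))) (.nd (nat_lit 9) 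
(.lf (nat_lit 453051) (.g (nat_lit 2753) (.e (nat_lit 2621) (nat_lit 164) (.e (nat_lit 172067) (nat_lit 3) (.e (nat_lit 204869) (nat_lit 29) (.e (nat_lit 360475) (nat_lit 8) (.e (nat_lit 557089) (nat_lit 12) (.e (nat_lit 163843) (nat_lit 0) (.e (nat_lit 6255) (nat_lit 337) .nil))))))) (.g (nat_lit 1) (.e (nat_lit 26199) (nat_lit 0) .nil) .nil))) 
(.lf (nat_lit 453563) (.g (nat_lit 3479) (.e (nat_lit 2629) (nat_lit 164) (.e (nat_lit 172126) (nat_lit 14) (.e (nat_lit 491540) (nat_lit 3) (.e (nat_lit 98370) (nat_lit 28) (.e (nat_lit 442430) (nat_lit 24) (.e (nat_lit 229535) (nat_lit 134) .nil)))))) (.g (nat_lit 1) (.e (nat_lit 30198) (nat_lit 0) .nil) .nil)))))) (.nd (nat_lit 7) (.nd (nat_lit 8) (.nd (nat_lit 9) 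
(.lf (nat_lit 452731) (.g (nat_lit 2952) (.e (nat_lit 2618) (nat_lit 164) (.e (nat_lit 172124) (nat_lit 14) (.e (nat_lit 491550) (nat_lit 9) (.e (nat_lit 336430) (nat_lit 29) (.e (nat_lit 442421) (nat_lit 21) (.e (nat_lit 164346) (nat_lit 240) .nil)))))) (.g (nat_lit 1) (.e (nat_lit 24466) (nat_lit 0) .nil) .nil))) 
(.lf (nat_lit 453243) (.g (nat_lit 3945) (.e (nat_lit 2628) (nat_lit 164) (.e (nat_lit 172067) (nat_lit 3) (.e (nat_lit 204869) (nat_lit 29) (.e (nat_lit 360475) (nat_lit 8) (.e (nat_lit 557091) (nat_lit 12) (.e (nat_lit 163840) (nat_lit 0) (.e (nat_lit 6374) (nat_lit 337) .nil))))))) (.g (nat_lit 1) (.e (nat_lit 27594) (nat_lit 0) .nil) .nil)))) (.nd (nat_lit 9) 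
(.lf (nat_lit 452987) (.g (nat_lit 2897) (.e (nat_lit 2619) (nat_lit 164) (.e (nat_lit 172126) (nat_lit 14) (.e (nat_lit 491549) (nat_lit 9) (.e (nat_lit 336443) (nat_lit 32) (.e (nat_lit 466968) (nat_lit 21) .nil))))) (.g (nat_lit 0) (.e (nat_lit 25772) (nat_lit 0) .nil) .nil))) 
(.lf (nat_lit 453499) (.g (nat_lit 2176) (.e (nat_lit 2629) (nat_lit 164) (.e (nat_lit 172120) (nat_lit 12) (.e (nat_lit 475210) (nat_lit 41) (.e (nat_lit 712755) (nat_lit 30) (.e (nat_lit 458496) (nat_lit 0) .nil))))) (.g (nat_lit 0) (.e (nat_lit 29674) (nat_lit 0) .nil) .nil))))) (.nd (nat_lit 8) (.nd (nat_lit 9) 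
(.lf (nat_lit 452859) (.g (nat_lit 2668) (.e (nat_lit 2619) (nat_lit 164) (.e (nat_lit 172120) (nat_lit 12) (.e (nat_lit 475209) (nat_lit 41) (.e (nat_lit 712752) (nat_lit 29) (.e (nat_lit 442421) (nat_lit 21) (.e (nat_lit 164345) (nat_lit 240) .nil)))))) (.g (nat_lit 1) (.e (nat_lit 25308) (nat_lit 0) .nil) .nil))) 
(.lf (nat_lit 453371) (.g (nat_lit 2173) (.e (nat_lit 2628) (nat_lit 164) (.e (nat_lit 172126) (nat_lit 14) (.e (nat_lit 491537) (nat_lit 2) (.e (nat_lit 90170) (nat_lit 13) (.e (nat_lit 172113) (nat_lit 10) (.e (nat_lit 434201) (nat_lit 18) (.e (nat_lit 3936) (nat_lit 239) .nil))))))) (.g (nat_lit 1) (.e (nat_lit 28646) (nat_lit 0) .nil) .nil)))) (.nd (nat_lit 9) 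
(.lf (nat_lit 453115) (.g (nat_lit 1621) (.e (nat_lit 2623) (nat_lit 164) (.e (nat_lit 172126) (nat_lit 14) (.e (nat_lit 491540) (nat_lit 3) (.e (nat_lit 98372) (nat_lit 29) .nil)))) (.g (nat_lit 0) (.e (nat_lit 26587) (nat_lit 0) .nil) .nil))) 
(.lf (nat_lit 453627) (.g (nat_lit 2486) (.e (nat_lit 2630) (nat_lit 164) (.e (nat_lit 172062) (nat_lit 2) (.e (nat_lit 196666) (nat_lit 13) (.e (nat_lit 65610) (nat_lit 10) (.e (nat_lit 344117) (nat_lit 21) (.e (nat_lit 516099) (nat_lit 0) (.e (nat_lit 2416) (nat_lit 157) (.e (nat_lit 4455) (nat_lit 263) .nil)))))))) (.g (nat_lit 1) (.e (nat_lit 30536) (nat_lit 0) .nil) .nil)))))))))) 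
(.nd (nat_lit 3) (.nd (nat_lit 4) (.nd (nat_lit 5) (.nd (nat_lit 6) (.nd (nat_lit 7) 
(.nd (nat_lit 8) (.nd (nat_lit 9) 
(.lf (nat_lit 452615) (.g (nat_lit 4790) (.e (nat_lit 2615) (nat_lit 163) (.e (nat_lit 163962) (nat_lit 25) (.e (nat_lit 532513) (nat_lit 3) (.e (nat_lit 114714) (nat_lit 22) (.e (nat_lit 90172) (nat_lit 14) (.e (nat_lit 180244) (nat_lit 5) (.e (nat_lit 532503) (nat_lit 1) (.e (nat_lit 57654) (nat_lit 152) .nil)))))))) (.g (nat_lit 1) (.e (nat_lit 23382) (nat_lit 0) .nil) .nil))) 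
(.lf (nat_lit 453127) (.g (nat_lit 3735) (.e (nat_lit 2625) (nat_lit 164) (.e (nat_lit 172120) (nat_lit 12) (.e (nat_lit 475211) (nat_lit 41) (.e (nat_lit 712753) (nat_lit 30) (.e (nat_lit 450561) (nat_lit 0) (.e (nat_lit 5537) (nat_lit 306) .nil)))))) (.g (nat_lit 1) (.e (nat_lit 26837) (nat_lit 0) .nil) .nil)))) (.nd (nat_lit 9) 
(.lf (nat_lit 452871) (.g (nat_lit 3038) (.e (nat_lit 2619) (nat_lit 164) (.e (nat_lit 172120) (nat_lit 12) (.e (nat_lit 475210) (nat_lit 41) (.e (nat_lit 712755) (nat_lit 30) (.e (nat_lit 450562) (nat_lit 0) (.e (nat_lit 5537) (nat_lit 306) .nil)))))) (.g (nat_lit 1) (.e (nat_lit 25329) (nat_lit 0) .nil) .nil))) 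
(.lf (nat_lit 453383) (.g (nat_lit 3241) (.e (nat_lit 2628) (nat_lit 164) (.e (nat_lit 172126) (nat_lit 14) (.e (nat_lit 491547) (nat_lit 9) (.e (nat_lit 336443) (nat_lit 32) (.e (nat_lit 466969) (nat_lit 21) (.e (nat_lit 164347) (nat_lit 240) .nil)))))) (.g (nat_lit 1) (.e (nat_lit 28663) (nat_lit 0) .nil) .nil))))) (.nd (nat_lit 8) (.nd (nat_lit 9) 
(.lf (nat_lit 452743) (.g (nat_lit 2826) (.e (nat_lit 2618) (nat_lit 164) (.e (nat_lit 172126) (nat_lit 14) (.e (nat_lit 491540) (nat_lit 3) (.e (nat_lit 98373) (nat_lit 29) (.e (nat_lit 450567) (nat_lit 0) (.e (nat_lit 3978) (nat_lit 239) .nil)))))) (.g (nat_lit 1) (.e (nat_lit 24629) (nat_lit 0) .nil) .nil))) 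
(.lf (nat_lit 453255) (.g (nat_lit 1529) (.e (nat_lit 2628) (nat_lit 164) (.e (nat_lit 172118) (nat_lit 12) (.e (nat_lit 475209) (nat_lit 41) (.e (nat_lit 712752) (nat_lit 29) (.e (nat_lit 442421) (nat_lit 21) (.e (nat_lit 164346) (nat_lit 240) .nil)))))) (.g (nat_lit 1) (.e (nat_lit 28175) (nat_lit 0) .nil) .nil)))) (.nd (nat_lit 9) 
(.lf (nat_lit 452999) (.g (nat_lit 2113) (.e (nat_lit 2619) (nat_lit 164) (.e (nat_lit 172126) (nat_lit 14) (.e (nat_lit 491550) (nat_lit 9) (.e (nat_lit 336432) (nat_lit 30) (.e (nat_lit 458496) (nat_lit 0) (.e (nat_lit 5546) (nat_lit 306) .nil)))))) (.g (nat_lit 1) (.e (nat_lit 25785) (nat_lit 0) .nil) .nil))) 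
(.lf (nat_lit 453511) (.g (nat_lit 2834) (.e (nat_lit 2629) (nat_lit 164) (.e (nat_lit 172120) (nat_lit 12) (.e (nat_lit 475211) (nat_lit 41) (.e (nat_lit 712755) (nat_lit 30) (.e (nat_lit 450564) (nat_lit 0) (.e (nat_lit 5548) (nat_lit 306) .nil)))))) (.g (nat_lit 1) (.e (nat_lit 29688) (nat_lit 0) .nil) .nil)))))) (.nd (nat_lit 7) (.nd (nat_lit 8) (.nd (nat_lit 9) 
(.lf (nat_lit 452679) (.g (nat_lit 3558) (.e (nat_lit 2617) (nat_lit 164) (.e (nat_lit 172126) (nat_lit 14) (.e (nat_lit 491550) (nat_lit 9) (.e (nat_lit 336443) (nat_lit 32) (.e (nat_lit 466971) (nat_lit 21) (.e (nat_lit 164347) (nat_lit 240) .nil)))))) (.g (nat_lit 1) (.e (nat_lit 23939) (nat_lit 0) .nil) .nil))) 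
(.lf (nat_lit 453191) (.g (nat_lit 4301) (.e (nat_lit 2628) (nat_lit 164) (.e (nat_lit 172062) (nat_lit 2) (.e (nat_lit 196666) (nat_lit 13) (.e (nat_lit 65617) (nat_lit 10) (.e (nat_lit 344130) (nat_lit 26) (.e (nat_lit 557090) (nat_lit 12) (.e (nat_lit 163844) (nat_lit 0) (.e (nat_lit 6374) (nat_lit 337) .nil)))))))) (.g (nat_lit 1) (.e (nat_lit 27490) (nat_lit 0) .nil) .nil)))) 
(.nd (nat_lit 9) 
(.lf (nat_lit 452935) (.g (nat_lit 3620) (.e (nat_lit 2619) (nat_lit 164) (.e (nat_lit 172124) (nat_lit 14) (.e (nat_lit 491550) (nat_lit 9) (.e (nat_lit 336443) (nat_lit 32) (.e (nat_lit 466969) (nat_lit 21) (.e (nat_lit 164347) (nat_lit 240) .nil)))))) (.g (nat_lit 1) (.e (nat_lit 25448) (nat_lit 0) .nil) .nil))) 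
(.lf (nat_lit 453447) (.g (nat_lit 1983) (.e (nat_lit 2629) (nat_lit 164) (.e (nat_lit 172118) (nat_lit 12) (.e (nat_lit 475211) (nat_lit 41) (.e (nat_lit 712750) (nat_lit 29) (.e (nat_lit 442421) (nat_lit 21) (.e (nat_lit 164347) (nat_lit 240) .nil)))))) (.g (nat_lit 1) (.e (nat_lit 29589) (nat_lit 0) .nil) .nil))))) (.nd (nat_lit 8) (.nd (nat_lit 9) 
(.lf (nat_lit 452807) (.g (nat_lit 3524) (.e (nat_lit 2619) (nat_lit 164) (.e (nat_lit 172118) (nat_lit 12) (.e (nat_lit 475210) (nat_lit 41) (.e (nat_lit 712755) (nat_lit 30) (.e (nat_lit 450566) (nat_lit 0) (.e (nat_lit 5548) (nat_lit 306) .nil)))))) (.g (nat_lit 1) (.e (nat_lit 25234) (nat_lit 0) .nil) .nil))) 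
(.lf (nat_lit 453319) (.g (nat_lit 3562) (.e (nat_lit 2628) (nat_lit 164) (.e (nat_lit 172120) (nat_lit 12) (.e (nat_lit 475211) (nat_lit 41) (.e (nat_lit 712755) (nat_lit 30) (.e (nat_lit 450562) (nat_lit 0) (.e (nat_lit 5537) (nat_lit 306) .nil)))))) (.g (nat_lit 1) (.e (nat_lit 28281) (nat_lit 0) .nil) .nil)))) (.nd (nat_lit 9) 
(.lf (nat_lit 453063) (.g (nat_lit 1966) (.e (nat_lit 2621) (nat_lit 164) (.e (nat_lit 172120) (nat_lit 12) (.e (nat_lit 475199) (nat_lit 40) (.e (nat_lit 704598) (nat_lit 6) (.e (nat_lit 188453) (nat_lit 24) .nil))))) (.g (nat_lit 0) (.e (nat_lit 26213) (nat_lit 0) .nil) .nil))) 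
(.lf (nat_lit 453575) (.g (nat_lit 2784) (.e (nat_lit 2629) (nat_lit 164) (.e (nat_lit 172126) (nat_lit 14) (.e (nat_lit 491547) (nat_lit 9) (.e (nat_lit 336443) (nat_lit 32) (.e (nat_lit 466971) (nat_lit 21) (.e (nat_lit 164345) (nat_lit 240) .nil)))))) (.g (nat_lit 1) (.e (nat_lit 30210) (nat_lit 0) .nil) .nil))))))) (.nd (nat_lit 6) (.nd (nat_lit 7) (.nd (nat_lit 8) (.nd (nat_lit 9) 
(.lf (nat_lit 452647) (.g (nat_lit 3859) (.e (nat_lit 2617) (nat_lit 164) (.e (nat_lit 172126) (nat_lit 14) (.e (nat_lit 491540) (nat_lit 3) (.e (nat_lit 98373) (nat_lit 29) (.e (nat_lit 450568) (nat_lit 0) (.e (nat_lit 3978) (nat_lit 239) .nil)))))) (.g (nat_lit 1) (.e (nat_lit 23858) (nat_lit 0) .nil) .nil))) 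
(.lf (nat_lit 453159) (.g (nat_lit 2438) (.e (nat_lit 2625) (nat_lit 164) (.e (nat_lit 172126) (nat_lit 14) (.e (nat_lit 491540) (nat_lit 3) (.e (nat_lit 98373) (nat_lit 29) (.e (nat_lit 458496) (nat_lit 0) .nil))))) (.g (nat_lit 0) (.e (nat_lit 26989) (nat_lit 0) .nil) .nil)))) (.nd (nat_lit 9) 
(.lf (nat_lit 452903) (.g (nat_lit 385) (.e (nat_lit 2619) (nat_lit 164) (.e (nat_lit 172124) (nat_lit 14) (.e (nat_lit 491548) (nat_lit 9) .nil))) (.g (nat_lit 0) (.e (nat_lit 25397) (nat_lit 0) .nil) .nil))) 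
(.lf (nat_lit 453415) (.g (nat_lit 3348) (.e (nat_lit 2628) (nat_lit 164) (.e (nat_lit 172126) (nat_lit 14) (.e (nat_lit 491550) (nat_lit 9) (.e (nat_lit 336434) (nat_lit 30) (.e (nat_lit 450564) (nat_lit 0) (.e (nat_lit 5548) (nat_lit 306) .nil)))))) (.g (nat_lit 1) (.e (nat_lit 28727) (nat_lit 0) .nil) .nil))))) (.nd (nat_lit 8) (.nd (nat_lit 9) 
(.lf (nat_lit 452775) (.g (nat_lit 3867) (.e (nat_lit 2619) (nat_lit 164) (.e (nat_lit 172064) (nat_lit 2) (.e (nat_lit 196666) (nat_lit 13) (.e (nat_lit 65610) (nat_lit 10) (.e (nat_lit 344117) (nat_lit 21) (.e (nat_lit 516097) (nat_lit 0) (.e (nat_lit 2401) (nat_lit 157) (.e (nat_lit 4506) (nat_lit 263) .nil)))))))) (.g (nat_lit 1) (.e (nat_lit 24754) (nat_lit 0) .nil) .nil))) 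
(.lf (nat_lit 453287) (.g (nat_lit 2814) (.e (nat_lit 2628) (nat_lit 164) (.e (nat_lit 172120) (nat_lit 12) (.e (nat_lit 475198) (nat_lit 40) (.e (nat_lit 704598) (nat_lit 6) (.e (nat_lit 188444) (nat_lit 21) (.e (nat_lit 164347) (nat_lit 240) .nil)))))) (.g (nat_lit 1) (.e (nat_lit 28226) (nat_lit 0) .nil) .nil)))) (.nd (nat_lit 9) 
(.lf (nat_lit 453031) (.g (nat_lit 2665) (.e (nat_lit 2620) (nat_lit 164) (.e (nat_lit 172067) (nat_lit 3) (.e (nat_lit 204869) (nat_lit 29) (.e (nat_lit 360475) (nat_lit 8) (.e (nat_lit 557089) (nat_lit 12) .nil))))) (.g (nat_lit 0) (.e (nat_lit 26012) (nat_lit 0) .nil) .nil))) 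
(.lf (nat_lit 453543) (.g (nat_lit 3749) (.e (nat_lit 2629) (nat_lit 164) (.e (nat_lit 172124) (nat_lit 14) (.e (nat_lit 491549) (nat_lit 9) (.e (nat_lit 336443) (nat_lit 32) (.e (nat_lit 466971) (nat_lit 21) (.e (nat_lit 164348) (nat_lit 240) .nil)))))) (.g (nat_lit 1) (.e (nat_lit 29763) (nat_lit 0) .nil) .nil)))))) (.nd (nat_lit 7) (.nd (nat_lit 8) (.nd (nat_lit 9) 
(.lf (nat_lit 452711) (.g (nat_lit 2465) (.e (nat_lit 2618) (nat_lit 164) (.e (nat_lit 172120) (nat_lit 12) (.e (nat_lit 475209) (nat_lit 41) (.e (nat_lit 712752) (nat_lit 29) (.e (nat_lit 442421) (nat_lit 21) (.e (nat_lit 164346) (nat_lit 240) .nil)))))) (.g (nat_lit 1) (.e (nat_lit 24428) (nat_lit 0) .nil) .nil))) 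
(.lf (nat_lit 453223) (.g (nat_lit 2917) (.e (nat_lit 2628) (nat_lit 164) (.e (nat_lit 172066) (nat_lit 3) (.e (nat_lit 204869) (nat_lit 29) (.e (nat_lit 360475) (nat_lit 8) (.e (nat_lit 557089) (nat_lit 12) (.e (nat_lit 163848) (nat_lit 0) (.e (nat_lit 6374) (nat_lit 337) .nil))))))) (.g (nat_lit 1) (.e (nat_lit 27546) (nat_lit 0) .nil) .nil)))) (.nd (nat_lit 9) 
(.lf (nat_lit 452967) (.g (nat_lit 3028) (.e (nat_lit 2619) (nat_lit 164) (.e (nat_lit 172126) (nat_lit 14) (.e (nat_lit 491548) (nat_lit 9) (.e (nat_lit 336443) (nat_lit 32) (.e (nat_lit 466969) (nat_lit 21) (.e (nat_lit 164347) (nat_lit 240) .nil)))))) (.g (nat_lit 1) (.e (nat_lit 25742) (nat_lit 0) .nil) .nil))) 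
(.lf (nat_lit 453479) (.g (nat_lit 1957) (.e (nat_lit 2629) (nat_lit 164) (.e (nat_lit 172120) (nat_lit 12) (.e (nat_lit 475198) (nat_lit 40) (.e (nat_lit 704598) (nat_lit 6) (.e (nat_lit 188446) (nat_lit 21) (.e (nat_lit 164346) (nat_lit 240) .nil)))))) (.g (nat_lit 1) (.e (nat_lit 29638) (nat_lit 0) .nil) .nil))))) (.nd (nat_lit 8) (.nd (nat_lit 9) 
(.lf (nat_lit 452839) (.g (nat_lit 2945) (.e (nat_lit 2619) (nat_lit 164) (.e (nat_lit 172119) (nat_lit 12) (.e (nat_lit 475211) (nat_lit 41) (.e (nat_lit 712755) (nat_lit 30) (.e (nat_lit 450565) (nat_lit 0) (.e (nat_lit 5548) (nat_lit 306) .nil)))))) (.g (nat_lit 1) (.e (nat_lit 25275) (nat_lit 0) .nil) .nil))) 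
(.lf (nat_lit 453351) (.g (nat_lit 2684) (.e (nat_lit 2628) (nat_lit 164) (.e (nat_lit 172124) (nat_lit 14) (.e (nat_lit 491550) (nat_lit 9) (.e (nat_lit 336430) (nat_lit 29) (.e (nat_lit 442419) (nat_lit 21) (.e (nat_lit 164345) (nat_lit 240) .nil)))))) (.g (nat_lit 1) (.e (nat_lit 28384) (nat_lit 0) .nil) .nil)))) (.nd (nat_lit 9) 
(.lf (nat_lit 453095) (.g (nat_lit 1297) (.e (nat_lit 2622) (nat_lit 164) (.e (nat_lit 172119) (nat_lit 12) (.e (nat_lit 475199) (nat_lit 40) (.e (nat_lit 704598) (nat_lit 6) (.e (nat_lit 188455) (nat_lit 24) (.e (nat_lit 229666) (nat_lit 240) .nil)))))) (.g (nat_lit 1) (.e (nat_lit 26306) (nat_lit 0) .nil) .nil))) 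
(.lf (nat_lit 453607) (.g (nat_lit 2972) (.e (nat_lit 2629) (nat_lit 164) (.e (nat_lit 172126) (nat_lit 14) (.e (nat_lit 491550) (nat_lit 9) (.e (nat_lit 336430) (nat_lit 29) (.e (nat_lit 442421) (nat_lit 21) (.e (nat_lit 164346) (nat_lit 240) .nil)))))) (.g (nat_lit 1) (.e (nat_lit 30281) (nat_lit 0) .nil) .nil)))))))) 
(.nd (nat_lit 5) (.nd (nat_lit 6) (.nd (nat_lit 7) (.nd (nat_lit 8) (.nd (nat_lit 9) 
(.lf (nat_lit 452631) (.g (nat_lit 937) (.e (nat_lit 2617) (nat_lit 164) (.e (nat_lit 172118) (nat_lit 12) (.e (nat_lit 475211) (nat_lit 41) (.e (nat_lit 712752) (nat_lit 29) .nil)))) (.g (nat_lit 0) (.e (nat_lit 23742) (nat_lit 0) .nil) .nil))) 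
(.lf (nat_lit 453143) (.g (nat_lit 2584) (.e (nat_lit 2625) (nat_lit 164) (.e (nat_lit 172126) (nat_lit 14) (.e (nat_lit 491537) (nat_lit 2) (.e (nat_lit 90170) (nat_lit 13) (.e (nat_lit 172113) (nat_lit 10) (.e (nat_lit 434203) (nat_lit 18) (.e (nat_lit 3966) (nat_lit 239) .nil))))))) (.g (nat_lit 1) (.e (nat_lit 26966) (nat_lit 0) .nil) .nil)))) (.nd (nat_lit 9) 
(.lf (nat_lit 452887) (.g (nat_lit 4012) (.e (nat_lit 2619) (nat_lit 164) (.e (nat_lit 172120) (nat_lit 12) (.e (nat_lit 475211) (nat_lit 41) (.e (nat_lit 712753) (nat_lit 30) (.e (nat_lit 450561) (nat_lit 0) (.e (nat_lit 5537) (nat_lit 306) .nil)))))) (.g (nat_lit 1) (.e (nat_lit 25346) (nat_lit 0) .nil) .nil))) 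
(.lf (nat_lit 453399) (.g (nat_lit 2468) (.e (nat_lit 2628) (nat_lit 164) (.e (nat_lit 172126) (nat_lit 14) (.e (nat_lit 491549) (nat_lit 9) (.e (nat_lit 336434) (nat_lit 30) (.e (nat_lit 450561) (nat_lit 0) (.e (nat_lit 5537) (nat_lit 306) .nil)))))) (.g (nat_lit 1) (.e (nat_lit 28709) (nat_lit 0) .nil) .nil))))) (.nd (nat_lit 8) (.nd (nat_lit 9) 
(.lf (nat_lit 452759) (.g (nat_lit 2716) (.e (nat_lit 2618) (nat_lit 164) (.e (nat_lit 172126) (nat_lit 14) (.e (nat_lit 491550) (nat_lit 9) (.e (nat_lit 336430) (nat_lit 29) (.e (nat_lit 442421) (nat_lit 21) (.e (nat_lit 164345) (nat_lit 240) .nil)))))) (.g (nat_lit 1) (.e (nat_lit 24652) (nat_lit 0) .nil) .nil))) 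
(.lf (nat_lit 453271) (.g (nat_lit 2644) (.e (nat_lit 2628) (nat_lit 164) (.e (nat_lit 172118) (nat_lit 12) (.e (nat_lit 475211) (nat_lit 41) (.e (nat_lit 712750) (nat_lit 29) (.e (nat_lit 442421) (nat_lit 21) (.e (nat_lit 164347) (nat_lit 240) .nil)))))) (.g (nat_lit 1) (.e (nat_lit 28197) (nat_lit 0) .nil) .nil)))) (.nd (nat_lit 9) 
(.lf (nat_lit 453015) (.g (nat_lit 1941) (.e (nat_lit 2619) (nat_lit 164) (.e (nat_lit 172126) (nat_lit 14) (.e (nat_lit 491569) (nat_lit 13) (.e (nat_lit 393275) (nat_lit 23) .nil)))) (.g (nat_lit 0) (.e (nat_lit 25811) (nat_lit 0) .nil) .nil))) 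
(.lf (nat_lit 453527) (.g (nat_lit 3840) (.e (nat_lit 2629) (nat_lit 164) (.e (nat_lit 172124) (nat_lit 14) (.e (nat_lit 491549) (nat_lit 9) (.e (nat_lit 336430) (nat_lit 29) (.e (nat_lit 442419) (nat_lit 21) (.e (nat_lit 164346) (nat_lit 240) .nil)))))) (.g (nat_lit 1) (.e (nat_lit 29746) (nat_lit 0) .nil) .nil)))))) (.nd (nat_lit 7) (.nd (nat_lit 8) (.nd (nat_lit 9) 
(.lf (nat_lit 452695) (.g (nat_lit 1450) (.e (nat_lit 2618) (nat_lit 164) (.e (nat_lit 172119) (nat_lit 12) (.e (nat_lit 475198) (nat_lit 40) (.e (nat_lit 704598) (nat_lit 6) (.e (nat_lit 188444) (nat_lit 21) (.e (nat_lit 164345) (nat_lit 240) .nil)))))) (.g (nat_lit 1) (.e (nat_lit 24391) (nat_lit 0) .nil) .nil))) 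
(.lf (nat_lit 453207) (.g (nat_lit 2798) (.e (nat_lit 2628) (nat_lit 164) (.e (nat_lit 172064) (nat_lit 2) (.e (nat_lit 196666) (nat_lit 13) (.e (nat_lit 65617) (nat_lit 10) (.e (nat_lit 344130) (nat_lit 26) (.e (nat_lit 557090) (nat_lit 12) (.e (nat_lit 171776) (nat_lit 0) (.e (nat_lit 6374) (nat_lit 337) .nil)))))))) (.g (nat_lit 1) (.e (nat_lit 27510) (nat_lit 0) .nil) .nil)))) 
(.nd (nat_lit 9) 
(.lf (nat_lit 452951) (.g (nat_lit 2051) (.e (nat_lit 2619) (nat_lit 164) (.e (nat_lit 172124) (nat_lit 14) (.e (nat_lit 491569) (nat_lit 13) (.e (nat_lit 393281) (nat_lit 23) (.e (nat_lit 426105) (nat_lit 1) .nil))))) (.g (nat_lit 0) (.e (nat_lit 25475) (nat_lit 0) .nil) .nil))) 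
(.lf (nat_lit 453463) (.g (nat_lit 2117) (.e (nat_lit 2629) (nat_lit 164) (.e (nat_lit 172119) (nat_lit 12) (.e (nat_lit 475210) (nat_lit 41) (.e (nat_lit 712753) (nat_lit 30) (.e (nat_lit 450561) (nat_lit 0) (.e (nat_lit 5537) (nat_lit 306) .nil)))))) (.g (nat_lit 1) (.e (nat_lit 29615) (nat_lit 0) .nil) .nil))))) (.nd (nat_lit 8) (.nd (nat_lit 9) 
(.lf (nat_lit 452823) (.g (nat_lit 1091) (.e (nat_lit 2619) (nat_lit 164) (.e (nat_lit 172119) (nat_lit 12) (.e (nat_lit 475198) (nat_lit 40) (.e (nat_lit 704599) (nat_lit 6) .nil)))) (.g (nat_lit 0) (.e (nat_lit 25253) (nat_lit 0) .nil) .nil))) 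
(.lf (nat_lit 453335) (.g (nat_lit 2650) (.e (nat_lit 2628) (nat_lit 164) (.e (nat_lit 172124) (nat_lit 14) (.e (nat_lit 491549) (nat_lit 9) (.e (nat_lit 336430) (nat_lit 29) (.e (nat_lit 442421) (nat_lit 21) (.e (nat_lit 164346) (nat_lit 240) .nil)))))) (.g (nat_lit 1) (.e (nat_lit 28367) (nat_lit 0) .nil) .nil)))) (.nd (nat_lit 9) 
(.lf (nat_lit 453079) (.g (nat_lit 1854) (.e (nat_lit 2622) (nat_lit 164) (.e (nat_lit 172066) (nat_lit 3) (.e (nat_lit 204869) (nat_lit 29) (.e (nat_lit 360474) (nat_lit 8) (.e (nat_lit 557093) (nat_lit 12) .nil))))) (.g (nat_lit 0) (.e (nat_lit 26274) (nat_lit 0) .nil) .nil))) 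
(.lf (nat_lit 453591) (.g (nat_lit 3208) (.e (nat_lit 2629) (nat_lit 164) (.e (nat_lit 172126) (nat_lit 14) (.e (nat_lit 491549) (nat_lit 9) (.e (nat_lit 336434) (nat_lit 30) (.e (nat_lit 450564) (nat_lit 0) (.e (nat_lit 5546) (nat_lit 306) .nil)))))) (.g (nat_lit 1) (.e (nat_lit 30263) (nat_lit 0) .nil) .nil))))))) (.nd (nat_lit 6) (.nd (nat_lit 7) (.nd (nat_lit 8) (.nd (nat_lit 9) 
(.lf (nat_lit 452663) (.g (nat_lit 2171) (.e (nat_lit 2617) (nat_lit 164) (.e (nat_lit 172126) (nat_lit 14) (.e (nat_lit 491549) (nat_lit 9) (.e (nat_lit 336432) (nat_lit 30) (.e (nat_lit 458496) (nat_lit 0) (.e (nat_lit 5546) (nat_lit 306) .nil)))))) (.g (nat_lit 1) (.e (nat_lit 23915) (nat_lit 0) .nil) .nil))) 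
(.lf (nat_lit 453175) (.g (nat_lit 2711) (.e (nat_lit 2626) (nat_lit 164) (.e (nat_lit 172126) (nat_lit 14) (.e (nat_lit 491540) (nat_lit 3) (.e (nat_lit 98373) (nat_lit 29) (.e (nat_lit 450560) (nat_lit 0) (.e (nat_lit 3955) (nat_lit 239) .nil)))))) (.g (nat_lit 1) (.e (nat_lit 27279) (nat_lit 0) .nil) .nil)))) (.nd (nat_lit 9) 
(.lf (nat_lit 452919) (.g (nat_lit 3691) (.e (nat_lit 2619) (nat_lit 164) (.e (nat_lit 172124) (nat_lit 14) (.e (nat_lit 491549) (nat_lit 9) (.e (nat_lit 336443) (nat_lit 32) (.e (nat_lit 466969) (nat_lit 21) (.e (nat_lit 164345) (nat_lit 240) .nil)))))) (.g (nat_lit 1) (.e (nat_lit 25429) (nat_lit 0) .nil) .nil))) 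
(.lf (nat_lit 453431) (.g (nat_lit 1121) (.e (nat_lit 2629) (nat_lit 164) (.e (nat_lit 172118) (nat_lit 12) (.e (nat_lit 475198) (nat_lit 40) (.e (nat_lit 704598) (nat_lit 6) .nil)))) (.g (nat_lit 0) (.e (nat_lit 29565) (nat_lit 0) .nil) .nil))))) (.nd (nat_lit 8) (.nd (nat_lit 9) 
(.lf (nat_lit 452791) (.g (nat_lit 1754) (.e (nat_lit 2619) (nat_lit 164) (.e (nat_lit 172118) (nat_lit 12) (.e (nat_lit 475198) (nat_lit 40) (.e (nat_lit 704598) (nat_lit 6) (.e (nat_lit 188446) (nat_lit 21) (.e (nat_lit 164346) (nat_lit 240) .nil)))))) (.g (nat_lit 1) (.e (nat_lit 25207) (nat_lit 0) .nil) .nil))) 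
(.lf (nat_lit 453303) (.g (nat_lit 2144) (.e (nat_lit 2628) (nat_lit 164) (.e (nat_lit 172120) (nat_lit 12) (.e (nat_lit 475210) (nat_lit 41) (.e (nat_lit 712753) (nat_lit 30) (.e (nat_lit 458496) (nat_lit 0) (.e (nat_lit 5546) (nat_lit 306) .nil)))))) (.g (nat_lit 1) (.e (nat_lit 28261) (nat_lit 0) .nil) .nil)))) (.nd (nat_lit 9) 
(.lf (nat_lit 453047) (.g (nat_lit 3702) (.e (nat_lit 2621) (nat_lit 164) (.e (nat_lit 172066) (nat_lit 3) (.e (nat_lit 204869) (nat_lit 29) (.e (nat_lit 360475) (nat_lit 8) (.e (nat_lit 557091) (nat_lit 12) (.e (nat_lit 163843) (nat_lit 0) (.e (nat_lit 6255) (nat_lit 337) .nil))))))) (.g (nat_lit 1) (.e (nat_lit 26176) (nat_lit 0) .nil) .nil))) 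
(.lf (nat_lit 453559) (.g (nat_lit 3668) (.e (nat_lit 2629) (nat_lit 164) (.e (nat_lit 172124) (nat_lit 14) (.e (nat_lit 491550) (nat_lit 9) (.e (nat_lit 336443) (nat_lit 32) (.e (nat_lit 466971) (nat_lit 21) (.e (nat_lit 164347) (nat_lit 240) .nil)))))) (.g (nat_lit 1) (.e (nat_lit 29782) (nat_lit 0) .nil) .nil)))))) (.nd (nat_lit 7) (.nd (nat_lit 8) (.nd (nat_lit 9) 
(.lf (nat_lit 452727) (.g (nat_lit 2358) (.e (nat_lit 2618) (nat_lit 164) (.e (nat_lit 172124) (nat_lit 14) (.e (nat_lit 491549) (nat_lit 9) (.e (nat_lit 336434) (nat_lit 30) (.e (nat_lit 450564) (nat_lit 0) (.e (nat_lit 5548) (nat_lit 306) .nil)))))) (.g (nat_lit 1) (.e (nat_lit 24461) (nat_lit 0) .nil) .nil))) 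
(.lf (nat_lit 453239) (.g (nat_lit 3032) (.e (nat_lit 2628) (nat_lit 164) (.e (nat_lit 172067) (nat_lit 3) (.e (nat_lit 204869) (nat_lit 29) (.e (nat_lit 360475) (nat_lit 8) (.e (nat_lit 557089) (nat_lit 12) (.e (nat_lit 163841) (nat_lit 0) (.e (nat_lit 6374) (nat_lit 337) .nil))))))) (.g (nat_lit 1) (.e (nat_lit 27590) (nat_lit 0) .nil) .nil)))) (.nd (nat_lit 9) 
(.lf (nat_lit 452983) (.g (nat_lit 2525) (.e (nat_lit 2619) (nat_lit 164) (.e (nat_lit 172126) (nat_lit 14) (.e (nat_lit 491549) (nat_lit 9) (.e (nat_lit 336434) (nat_lit 30) (.e (nat_lit 450564) (nat_lit 0) (.e (nat_lit 5547) (nat_lit 306) .nil)))))) (.g (nat_lit 1) (.e (nat_lit 25768) (nat_lit 0) .nil) .nil))) 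
(.lf (nat_lit 453495) (.g (nat_lit 3699) (.e (nat_lit 2629) (nat_lit 164) (.e (nat_lit 172120) (nat_lit 12) (.e (nat_lit 475210) (nat_lit 41) (.e (nat_lit 712755) (nat_lit 30) (.e (nat_lit 450563) (nat_lit 0) (.e (nat_lit 5537) (nat_lit 306) .nil)))))) (.g (nat_lit 1) (.e (nat_lit 29670) (nat_lit 0) .nil) .nil))))) (.nd (nat_lit 8) (.nd (nat_lit 9) 
(.lf (nat_lit 452855) (.g (nat_lit 2812) (.e (nat_lit 2619) (nat_lit 164) (.e (nat_lit 172120) (nat_lit 12) (.e (nat_lit 475198) (nat_lit 40) (.e (nat_lit 704599) (nat_lit 6) (.e (nat_lit 188446) (nat_lit 21) (.e (nat_lit 164348) (nat_lit 240) .nil)))))) (.g (nat_lit 1) (.e (nat_lit 25296) (nat_lit 0) .nil) .nil))) 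
(.lf (nat_lit 453367) (.g (nat_lit 3102) (.e (nat_lit 2628) (nat_lit 164) (.e (nat_lit 172124) (nat_lit 14) (.e (nat_lit 491550) (nat_lit 9) (.e (nat_lit 336443) (nat_lit 32) (.e (nat_lit 466972) (nat_lit 21) (.e (nat_lit 164345) (nat_lit 240) .nil)))))) (.g (nat_lit 1) (.e (nat_lit 28400) (nat_lit 0) .nil) .nil)))) (.nd (nat_lit 9) 
(.lf (nat_lit 453111) (.g (nat_lit 3888) (.e (nat_lit 2623) (nat_lit 164) (.e (nat_lit 172120) (nat_lit 12) (.e (nat_lit 475185) (nat_lit 29) (.e (nat_lit 557109) (nat_lit 15) (.e (nat_lit 188455) (nat_lit 24) .nil))))) (.g (nat_lit 0) (.e (nat_lit 26485) (nat_lit 0) .nil) .nil))) 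
(.lf (nat_lit 453623) (.g (nat_lit 4115) (.e (nat_lit 2630) (nat_lit 164) (.e (nat_lit 172046) (nat_lit 0) (.e (nat_lit 3238) (nat_lit 197) (.e (nat_lit 532550) (nat_lit 12) (.e (nat_lit 360475) (nat_lit 8) (.e (nat_lit 557089) (nat_lit 12) (.e (nat_lit 163844) (nat_lit 0) (.e (nat_lit 6254) (nat_lit 337) .nil)))))))) (.g (nat_lit 1) (.e (nat_lit 30526) (nat_lit 0) .nil) .nil))))))))) 
(.nd (nat_lit 4) (.nd (nat_lit 5) (.nd (nat_lit 6) (.nd (nat_lit 7) (.nd (nat_lit 8) 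
(.nd (nat_lit 9) 
(.lf (nat_lit 452623) (.g (nat_lit 1955) (.e (nat_lit 2616) (nat_lit 164) (.e (nat_lit 172126) (nat_lit 14) (.e (nat_lit 491537) (nat_lit 2) (.e (nat_lit 90170) (nat_lit 13) (.e (nat_lit 172113) (nat_lit 10) (.e (nat_lit 434208) (nat_lit 18) (.e (nat_lit 3955) (nat_lit 239) .nil))))))) (.g (nat_lit 1) (.e (nat_lit 23564) (nat_lit 0) .nil) .nil))) 
(.lf (nat_lit 453135) (.g (nat_lit 2251) (.e (nat_lit 2625) (nat_lit 164) (.e (nat_lit 172120) (nat_lit 12) (.e (nat_lit 475211) (nat_lit 41) (.e (nat_lit 712755) (nat_lit 30) (.e (nat_lit 450566) (nat_lit 0) .nil))))) (.g (nat_lit 0) (.e (nat_lit 26849) (nat_lit 0) .nil) .nil)))) (.nd (nat_lit 9) 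
(.lf (nat_lit 452879) (.g (nat_lit 2029) (.e (nat_lit 2619) (nat_lit 164) (.e (nat_lit 172120) (nat_lit 12) (.e (nat_lit 475210) (nat_lit 41) (.e (nat_lit 712755) (nat_lit 30) (.e (nat_lit 458496) (nat_lit 0) (.e (nat_lit 5548) (nat_lit 306) .nil)))))) (.g (nat_lit 1) (.e (nat_lit 25338) (nat_lit 0) .nil) .nil))) 
(.lf (nat_lit 453391) (.g (nat_lit 3634) (.e (nat_lit 2628) (nat_lit 164) (.e (nat_lit 172126) (nat_lit 14) (.e (nat_lit 491549) (nat_lit 9) (.e (nat_lit 336430) (nat_lit 29) (.e (nat_lit 442419) (nat_lit 21) (.e (nat_lit 164346) (nat_lit 240) .nil)))))) (.g (nat_lit 1) (.e (nat_lit 28701) (nat_lit 0) .nil) .nil))))) (.nd (nat_lit 8) (.nd (nat_lit 9) 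
(.lf (nat_lit 452751) (.g (nat_lit 3028) (.e (nat_lit 2618) (nat_lit 164) (.e (nat_lit 172126) (nat_lit 14) (.e (nat_lit 491549) (nat_lit 9) (.e (nat_lit 336430) (nat_lit 29) (.e (nat_lit 442419) (nat_lit 21) (.e (nat_lit 164345) (nat_lit 240) .nil)))))) (.g (nat_lit 1) (.e (nat_lit 24643) (nat_lit 0) .nil) .nil))) 
(.lf (nat_lit 453263) (.g (nat_lit 2912) (.e (nat_lit 2628) (nat_lit 164) (.e (nat_lit 172118) (nat_lit 12) (.e (nat_lit 475210) (nat_lit 41) (.e (nat_lit 712755) (nat_lit 30) (.e (nat_lit 450562) (nat_lit 0) (.e (nat_lit 5537) (nat_lit 306) .nil)))))) (.g (nat_lit 1) (.e (nat_lit 28188) (nat_lit 0) .nil) .nil)))) (.nd (nat_lit 9) 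
(.lf (nat_lit 453007) (.g (nat_lit 3769) (.e (nat_lit 2619) (nat_lit 164) (.e (nat_lit 172126) (nat_lit 14) (.e (nat_lit 491550) (nat_lit 9) (.e (nat_lit 336443) (nat_lit 32) (.e (nat_lit 466971) (nat_lit 21) (.e (nat_lit 164348) (nat_lit 240) .nil)))))) (.g (nat_lit 1) (.e (nat_lit 25793) (nat_lit 0) .nil) .nil))) 
(.lf (nat_lit 453519) (.g (nat_lit 3565) (.e (nat_lit 2629) (nat_lit 164) (.e (nat_lit 172124) (nat_lit 14) (.e (nat_lit 491540) (nat_lit 3) (.e (nat_lit 98373) (nat_lit 29) (.e (nat_lit 450560) (nat_lit 0) (.e (nat_lit 3991) (nat_lit 239) .nil)))))) (.g (nat_lit 1) (.e (nat_lit 29713) (nat_lit 0) .nil) .nil)))))) (.nd (nat_lit 7) (.nd (nat_lit 8) (.nd (nat_lit 9) 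
(.lf (nat_lit 452687) (.g (nat_lit 2246) (.e (nat_lit 2618) (nat_lit 164) (.e (nat_lit 172118) (nat_lit 12) (.e (nat_lit 475198) (nat_lit 40) (.e (nat_lit 704599) (nat_lit 6) (.e (nat_lit 188445) (nat_lit 21) (.e (nat_lit 164345) (nat_lit 240) .nil)))))) (.g (nat_lit 1) (.e (nat_lit 24376) (nat_lit 0) .nil) .nil))) 
(.lf (nat_lit 453199) (.g (nat_lit 4123) (.e (nat_lit 2628) (nat_lit 164) (.e (nat_lit 172062) (nat_lit 2) (.e (nat_lit 196666) (nat_lit 13) (.e (nat_lit 65617) (nat_lit 10) (.e (nat_lit 344133) (nat_lit 26) (.e (nat_lit 557091) (nat_lit 12) (.e (nat_lit 163843) (nat_lit 0) (.e (nat_lit 6374) (nat_lit 337) .nil)))))))) (.g (nat_lit 1) (.e (nat_lit 27498) (nat_lit 0) .nil) .nil)))) 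
(.nd (nat_lit 9) 
(.lf (nat_lit 452943) (.g (nat_lit 1875) (.e (nat_lit 2619) (nat_lit 164) (.e (nat_lit 172124) (nat_lit 14) (.e (nat_lit 491568) (nat_lit 13) (.e (nat_lit 393281) (nat_lit 23) .nil)))) (.g (nat_lit 0) (.e (nat_lit 25459) (nat_lit 0) .nil) .nil))) 
(.lf (nat_lit 453455) (.g (nat_lit 3020) (.e (nat_lit 2629) (nat_lit 164) (.e (nat_lit 172118) (nat_lit 12) (.e (nat_lit 475211) (nat_lit 41) (.e (nat_lit 712755) (nat_lit 30) (.e (nat_lit 450563) (nat_lit 0) (.e (nat_lit 5537) (nat_lit 306) .nil)))))) (.g (nat_lit 1) (.e (nat_lit 29597) (nat_lit 0) .nil) .nil))))) (.nd (nat_lit 8) (.nd (nat_lit 9) 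
(.lf (nat_lit 452815) (.g (nat_lit 2002) (.e (nat_lit 2619) (nat_lit 164) (.e (nat_lit 172118) (nat_lit 12) (.e (nat_lit 475211) (nat_lit 41) (.e (nat_lit 712753) (nat_lit 30) (.e (nat_lit 450564) (nat_lit 0) (.e (nat_lit 5547) (nat_lit 306) .nil)))))) (.g (nat_lit 1) (.e (nat_lit 25245) (nat_lit 0) .nil) .nil))) 
(.lf (nat_lit 453327) (.g (nat_lit 1519) (.e (nat_lit 2628) (nat_lit 164) (.e (nat_lit 172124) (nat_lit 14) (.e (nat_lit 491547) (nat_lit 9) (.e (nat_lit 336432) (nat_lit 30) .nil)))) (.g (nat_lit 0) (.e (nat_lit 28338) (nat_lit 0) .nil) .nil)))) (.nd (nat_lit 9) 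
(.lf (nat_lit 453071) (.g (nat_lit 2393) (.e (nat_lit 2621) (nat_lit 164) (.e (nat_lit 172126) (nat_lit 14) (.e (nat_lit 491550) (nat_lit 9) (.e (nat_lit 336430) (nat_lit 29) (.e (nat_lit 442428) (nat_lit 24) .nil))))) (.g (nat_lit 0) (.e (nat_lit 26251) (nat_lit 0) .nil) .nil))) 
(.lf (nat_lit 453583) (.g (nat_lit 3242) (.e (nat_lit 2629) (nat_lit 164) (.e (nat_lit 172126) (nat_lit 14) (.e (nat_lit 491549) (nat_lit 9) (.e (nat_lit 336430) (nat_lit 29) (.e (nat_lit 442419) (nat_lit 21) (.e (nat_lit 164347) (nat_lit 240) .nil)))))) (.g (nat_lit 1) (.e (nat_lit 30254) (nat_lit 0) .nil) .nil))))))) (.nd (nat_lit 6) (.nd (nat_lit 7) (.nd (nat_lit 8) (.nd (nat_lit 9) 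
(.lf (nat_lit 452655) (.g (nat_lit 434) (.e (nat_lit 2617) (nat_lit 164) (.e (nat_lit 172126) (nat_lit 14) (.e (nat_lit 491549) (nat_lit 9) .nil))) (.g (nat_lit 0) (.e (nat_lit 23898) (nat_lit 0) .nil) .nil))) 
(.lf (nat_lit 453167) (.g (nat_lit 2142) (.e (nat_lit 2626) (nat_lit 164) (.e (nat_lit 172126) (nat_lit 14) (.e (nat_lit 491537) (nat_lit 2) (.e (nat_lit 90170) (nat_lit 13) (.e (nat_lit 172113) (nat_lit 10) (.e (nat_lit 434203) (nat_lit 18) (.e (nat_lit 3968) (nat_lit 239) .nil))))))) (.g (nat_lit 1) (.e (nat_lit 27262) (nat_lit 0) .nil) .nil)))) (.nd (nat_lit 9) 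
(.lf (nat_lit 452911) (.g (nat_lit 2490) (.e (nat_lit 2619) (nat_lit 164) (.e (nat_lit 172124) (nat_lit 14) (.e (nat_lit 491549) (nat_lit 9) (.e (nat_lit 336432) (nat_lit 30) (.e (nat_lit 450564) (nat_lit 0) (.e (nat_lit 5546) (nat_lit 306) .nil)))))) (.g (nat_lit 1) (.e (nat_lit 25421) (nat_lit 0) .nil) .nil))) 
(.lf (nat_lit 453423) (.g (nat_lit 3597) (.e (nat_lit 2628) (nat_lit 164) (.e (nat_lit 172126) (nat_lit 14) (.e (nat_lit 491550) (nat_lit 9) (.e (nat_lit 336443) (nat_lit 32) (.e (nat_lit 466972) (nat_lit 21) (.e (nat_lit 164345) (nat_lit 240) .nil)))))) (.g (nat_lit 1) (.e (nat_lit 28735) (nat_lit 0) .nil) .nil))))) (.nd (nat_lit 8) (.nd (nat_lit 9) 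
(.lf (nat_lit 452783) (.g (nat_lit 3568) (.e (nat_lit 2619) (nat_lit 164) (.e (nat_lit 172064) (nat_lit 2) (.e (nat_lit 196666) (nat_lit 13) (.e (nat_lit 65610) (nat_lit 10) (.e (nat_lit 344117) (nat_lit 21) (.e (nat_lit 516099) (nat_lit 0) (.e (nat_lit 2519) (nat_lit 157) (.e (nat_lit 4506) (nat_lit 263) .nil)))))))) (.g (nat_lit 1) (.e (nat_lit 24762) (nat_lit 0) .nil) .nil))) 
(.lf (nat_lit 453295) (.g (nat_lit 2027) (.e (nat_lit 2628) (nat_lit 164) (.e (nat_lit 172120) (nat_lit 12) (.e (nat_lit 475198) (nat_lit 40) (.e (nat_lit 704599) (nat_lit 6) (.e (nat_lit 188446) (nat_lit 21) (.e (nat_lit 164345) (nat_lit 240) .nil)))))) (.g (nat_lit 1) (.e (nat_lit 28234) (nat_lit 0) .nil) .nil)))) (.nd (nat_lit 9) 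
(.lf (nat_lit 453039) (.g (nat_lit 1715) (.e (nat_lit 2620) (nat_lit 164) (.e (nat_lit 172120) (nat_lit 12) (.e (nat_lit 475199) (nat_lit 40) (.e (nat_lit 704598) (nat_lit 6) .nil)))) (.g (nat_lit 0) (.e (nat_lit 26029) (nat_lit 0) .nil) .nil))) 
(.lf (nat_lit 453551) (.g (nat_lit 2191) (.e (nat_lit 2629) (nat_lit 164) (.e (nat_lit 172124) (nat_lit 14) (.e (nat_lit 491550) (nat_lit 9) (.e (nat_lit 336432) (nat_lit 30) (.e (nat_lit 458496) (nat_lit 0) (.e (nat_lit 5546) (nat_lit 306) .nil)))))) (.g (nat_lit 1) (.e (nat_lit 29773) (nat_lit 0) .nil) .nil)))))) (.nd (nat_lit 7) (.nd (nat_lit 8) (.nd (nat_lit 9) 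
(.lf (nat_lit 452719) (.g (nat_lit 2615) (.e (nat_lit 2618) (nat_lit 164) (.e (nat_lit 172120) (nat_lit 12) (.e (nat_lit 475211) (nat_lit 41) (.e (nat_lit 712755) (nat_lit 30) (.e (nat_lit 450564) (nat_lit 0) (.e (nat_lit 5546) (nat_lit 306) .nil)))))) (.g (nat_lit 1) (.e (nat_lit 24445) (nat_lit 0) .nil) .nil))) 
(.lf (nat_lit 453231) (.g (nat_lit 3257) (.e (nat_lit 2628) (nat_lit 164) (.e (nat_lit 172066) (nat_lit 3) (.e (nat_lit 204869) (nat_lit 29) (.e (nat_lit 360475) (nat_lit 8) (.e (nat_lit 557091) (nat_lit 12) (.e (nat_lit 171776) (nat_lit 0) (.e (nat_lit 6374) (nat_lit 337) .nil))))))) (.g (nat_lit 1) (.e (nat_lit 27554) (nat_lit 0) .nil) .nil)))) (.nd (nat_lit 9) 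
(.lf (nat_lit 452975) (.g (nat_lit 2829) (.e (nat_lit 2619) (nat_lit 164) (.e (nat_lit 172126) (nat_lit 14) (.e (nat_lit 491549) (nat_lit 9) (.e (nat_lit 336430) (nat_lit 29) (.e (nat_lit 442421) (nat_lit 21) (.e (nat_lit 164345) (nat_lit 240) .nil)))))) (.g (nat_lit 1) (.e (nat_lit 25760) (nat_lit 0) .nil) .nil))) 
(.lf (nat_lit 453487) (.g (nat_lit 2439) (.e (nat_lit 2629) (nat_lit 164) (.e (nat_lit 172120) (nat_lit 12) (.e (nat_lit 475209) (nat_lit 41) (.e (nat_lit 712752) (nat_lit 29) (.e (nat_lit 442421) (nat_lit 21) (.e (nat_lit 164346) (nat_lit 240) .nil)))))) (.g (nat_lit 1) (.e (nat_lit 29657) (nat_lit 0) .nil) .nil))))) (.nd (nat_lit 8) (.nd (nat_lit 9) 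
(.lf (nat_lit 452847) (.g (nat_lit 2632) (.e (nat_lit 2619) (nat_lit 164) (.e (nat_lit 172120) (nat_lit 12) (.e (nat_lit 475198) (nat_lit 40) (.e (nat_lit 704598) (nat_lit 6) (.e (nat_lit 188446) (nat_lit 21) (.e (nat_lit 164346) (nat_lit 240) .nil)))))) (.g (nat_lit 1) (.e (nat_lit 25288) (nat_lit 0) .nil) .nil))) 
(.lf (nat_lit 453359) (.g (nat_lit 1758) (.e (nat_lit 2628) (nat_lit 164) (.e (nat_lit 172124) (nat_lit 14) (.e (nat_lit 491550) (nat_lit 9) (.e (nat_lit 336432) (nat_lit 30) (.e (nat_lit 458496) (nat_lit 0) (.e (nat_lit 5547) (nat_lit 306) .nil)))))) (.g (nat_lit 1) (.e (nat_lit 28392) (nat_lit 0) .nil) .nil)))) (.nd (nat_lit 9) 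
(.lf (nat_lit 453103) (.g (nat_lit 3244) (.e (nat_lit 2622) (nat_lit 164) (.e (nat_lit 172124) (nat_lit 14) (.e (nat_lit 491549) (nat_lit 9) (.e (nat_lit 336432) (nat_lit 30) (.e (nat_lit 450569) (nat_lit 0) (.e (nat_lit 5448) (nat_lit 306) .nil)))))) (.g (nat_lit 1) (.e (nat_lit 26368) (nat_lit 0) .nil) .nil))) 
(.lf (nat_lit 453615) (.g (nat_lit 3365) (.e (nat_lit 2629) (nat_lit 164) (.e (nat_lit 172126) (nat_lit 14) (.e (nat_lit 491550) (nat_lit 9) (.e (nat_lit 336443) (nat_lit 32) (.e (nat_lit 466969) (nat_lit 21) (.e (nat_lit 164345) (nat_lit 240) .nil)))))) (.g (nat_lit 1) (.e (nat_lit 30290) (nat_lit 0) .nil) .nil)))))))) 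
(.nd (nat_lit 5) (.nd (nat_lit 6) (.nd (nat_lit 7) (.nd (nat_lit 8) (.nd (nat_lit 9) 
(.lf (nat_lit 452639) (.g (nat_lit 3227) (.e (nat_lit 2617) (nat_lit 164) (.e (nat_lit 172120) (nat_lit 12) (.e (nat_lit 475211) (nat_lit 41) (.e (nat_lit 712752) (nat_lit 29) (.e (nat_lit 442421) (nat_lit 21) (.e (nat_lit 164346) (nat_lit 240) .nil)))))) (.g (nat_lit 1) (.e (nat_lit 23793) (nat_lit 0) .nil) .nil))) 
(.lf (nat_lit 453151) (.g (nat_lit 2293) (.e (nat_lit 2625) (nat_lit 164) (.e (nat_lit 172126) (nat_lit 14) (.e (nat_lit 491540) (nat_lit 3) (.e (nat_lit 98373) (nat_lit 29) (.e (nat_lit 450561) (nat_lit 0) .nil))))) (.g (nat_lit 0) (.e (nat_lit 26981) (nat_lit 0) .nil) .nil)))) (.nd (nat_lit 9) 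
(.lf (nat_lit 452895) (.g (nat_lit 2601) (.e (nat_lit 2619) (nat_lit 164) (.e (nat_lit 172120) (nat_lit 12) (.e (nat_lit 475211) (nat_lit 41) (.e (nat_lit 712755) (nat_lit 30) (.e (nat_lit 450564) (nat_lit 0) (.e (nat_lit 5547) (nat_lit 306) .nil)))))) (.g (nat_lit 1) (.e (nat_lit 25354) (nat_lit 0) .nil) .nil))) 
(.lf (nat_lit 453407) (.g (nat_lit 3179) (.e (nat_lit 2628) (nat_lit 164) (.e (nat_lit 172126) (nat_lit 14) (.e (nat_lit 491550) (nat_lit 9) (.e (nat_lit 336430) (nat_lit 29) (.e (nat_lit 442419) (nat_lit 21) (.e (nat_lit 164345) (nat_lit 240) .nil)))))) (.g (nat_lit 1) (.e (nat_lit 28719) (nat_lit 0) .nil) .nil))))) (.nd (nat_lit 8) (.nd (nat_lit 9) 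
(.lf (nat_lit 452767) (.g (nat_lit 2578) (.e (nat_lit 2619) (nat_lit 164) (.e (nat_lit 172062) (nat_lit 2) (.e (nat_lit 196666) (nat_lit 13) (.e (nat_lit 65610) (nat_lit 10) (.e (nat_lit 344117) (nat_lit 21) (.e (nat_lit 516098) (nat_lit 0) (.e (nat_lit 2401) (nat_lit 157) (.e (nat_lit 4506) (nat_lit 263) .nil)))))))) (.g (nat_lit 1) (.e (nat_lit 24739) (nat_lit 0) .nil) .nil))) 
(.lf (nat_lit 453279) (.g (nat_lit 3170) (.e (nat_lit 2628) (nat_lit 164) (.e (nat_lit 172118) (nat_lit 12) (.e (nat_lit 475211) (nat_lit 41) (.e (nat_lit 712755) (nat_lit 30) (.e (nat_lit 450562) (nat_lit 0) (.e (nat_lit 5537) (nat_lit 306) .nil)))))) (.g (nat_lit 1) (.e (nat_lit 28207) (nat_lit 0) .nil) .nil)))) (.nd (nat_lit 9) 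
(.lf (nat_lit 453023) (.g (nat_lit 2733) (.e (nat_lit 2620) (nat_lit 164) (.e (nat_lit 172065) (nat_lit 3) (.e (nat_lit 204869) (nat_lit 29) (.e (nat_lit 360475) (nat_lit 8) (.e (nat_lit 557091) (nat_lit 12) .nil))))) (.g (nat_lit 0) (.e (nat_lit 25993) (nat_lit 0) .nil) .nil))) 
(.lf (nat_lit 453535) (.g (nat_lit 2536) (.e (nat_lit 2629) (nat_lit 164) (.e (nat_lit 172124) (nat_lit 14) (.e (nat_lit 491549) (nat_lit 9) (.e (nat_lit 336432) (nat_lit 30) (.e (nat_lit 458496) (nat_lit 0) (.e (nat_lit 5546) (nat_lit 306) .nil)))))) (.g (nat_lit 1) (.e (nat_lit 29754) (nat_lit 0) .nil) .nil)))))) (.nd (nat_lit 7) (.nd (nat_lit 8) (.nd (nat_lit 9) 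
(.lf (nat_lit 452703) (.g (nat_lit 2120) (.e (nat_lit 2618) (nat_lit 164) (.e (nat_lit 172119) (nat_lit 12) (.e (nat_lit 475211) (nat_lit 41) (.e (nat_lit 712755) (nat_lit 30) (.e (nat_lit 458496) (nat_lit 0) (.e (nat_lit 5543) (nat_lit 306) .nil)))))) (.g (nat_lit 1) (.e (nat_lit 24407) (nat_lit 0) .nil) .nil))) 
(.lf (nat_lit 453215) (.g (nat_lit 4161) (.e (nat_lit 2628) (nat_lit 164) (.e (nat_lit 172065) (nat_lit 3) (.e (nat_lit 204869) (nat_lit 29) (.e (nat_lit 360475) (nat_lit 8) (.e (nat_lit 557089) (nat_lit 12) (.e (nat_lit 163844) (nat_lit 0) (.e (nat_lit 6374) (nat_lit 337) .nil))))))) (.g (nat_lit 1) (.e (nat_lit 27538) (nat_lit 0) .nil) .nil)))) (.nd (nat_lit 9) 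
(.lf (nat_lit 452959) (.g (nat_lit 1099) (.e (nat_lit 2619) (nat_lit 164) (.e (nat_lit 172126) (nat_lit 14) (.e (nat_lit 491547) (nat_lit 9) (.e (nat_lit 336434) (nat_lit 30) .nil)))) (.g (nat_lit 0) (.e (nat_lit 25724) (nat_lit 0) .nil) .nil))) 
(.lf (nat_lit 453471) (.g (nat_lit 2395) (.e (nat_lit 2629) (nat_lit 164) (.e (nat_lit 172119) (nat_lit 12) (.e (nat_lit 475211) (nat_lit 41) (.e (nat_lit 712753) (nat_lit 30) (.e (nat_lit 450564) (nat_lit 0) (.e (nat_lit 5548) (nat_lit 306) .nil)))))) (.g (nat_lit 1) (.e (nat_lit 29623) (nat_lit 0) .nil) .nil))))) (.nd (nat_lit 8) (.nd (nat_lit 9) 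
(.lf (nat_lit 452831) (.g (nat_lit 1960) (.e (nat_lit 2619) (nat_lit 164) (.e (nat_lit 172119) (nat_lit 12) (.e (nat_lit 475211) (nat_lit 41) (.e (nat_lit 712750) (nat_lit 29) (.e (nat_lit 442421) (nat_lit 21) (.e (nat_lit 164347) (nat_lit 240) .nil)))))) (.g (nat_lit 1) (.e (nat_lit 25266) (nat_lit 0) .nil) .nil))) 
(.lf (nat_lit 453343) (.g (nat_lit 2162) (.e (nat_lit 2628) (nat_lit 164) (.e (nat_lit 172124) (nat_lit 14) (.e (nat_lit 491549) (nat_lit 9) (.e (nat_lit 336434) (nat_lit 30) (.e (nat_lit 458496) (nat_lit 0) (.e (nat_lit 5543) (nat_lit 306) .nil)))))) (.g (nat_lit 1) (.e (nat_lit 28375) (nat_lit 0) .nil) .nil)))) (.nd (nat_lit 9) 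
(.lf (nat_lit 453087) (.g (nat_lit 5254) (.e (nat_lit 2622) (nat_lit 164) (.e (nat_lit 172066) (nat_lit 3) (.e (nat_lit 204869) (nat_lit 29) (.e (nat_lit 360475) (nat_lit 8) (.e (nat_lit 557091) (nat_lit 12) (.e (nat_lit 163843) (nat_lit 0) (.e (nat_lit 6255) (nat_lit 337) .nil))))))) (.g (nat_lit 1) (.e (nat_lit 26282) (nat_lit 0) .nil) .nil))) 
(.lf (nat_lit 453599) (.g (nat_lit 2298) (.e (nat_lit 2629) (nat_lit 164) (.e (nat_lit 172126) (nat_lit 14) (.e (nat_lit 491549) (nat_lit 9) (.e (nat_lit 336443) (nat_lit 32) (.e (nat_lit 466971) (nat_lit 21) (.e (nat_lit 164346) (nat_lit 240) .nil)))))) (.g (nat_lit 1) (.e (nat_lit 30271) (nat_lit 0) .nil) .nil))))))) (.nd (nat_lit 6) (.nd (nat_lit 7) (.nd (nat_lit 8) (.nd (nat_lit 9) 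
(.lf (nat_lit 452671) (.g (nat_lit 2233) (.e (nat_lit 2617) (nat_lit 164) (.e (nat_lit 172126) (nat_lit 14) (.e (nat_lit 491549) (nat_lit 9) (.e (nat_lit 336443) (nat_lit 32) (.e (nat_lit 466971) (nat_lit 21) (.e (nat_lit 164346) (nat_lit 240) .nil)))))) (.g (nat_lit 1) (.e (nat_lit 23923) (nat_lit 0) .nil) .nil))) 
(.lf (nat_lit 453183) (.g (nat_lit 3818) (.e (nat_lit 2626) (nat_lit 164) (.e (nat_lit 172126) (nat_lit 14) (.e (nat_lit 491540) (nat_lit 3) (.e (nat_lit 98373) (nat_lit 29) (.e (nat_lit 450569) (nat_lit 0) (.e (nat_lit 3966) (nat_lit 239) .nil)))))) (.g (nat_lit 1) (.e (nat_lit 27288) (nat_lit 0) .nil) .nil)))) (.nd (nat_lit 9) 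
(.lf (nat_lit 452927) (.g (nat_lit 3556) (.e (nat_lit 2619) (nat_lit 164) (.e (nat_lit 172124) (nat_lit 14) (.e (nat_lit 491550) (nat_lit 9) (.e (nat_lit 336430) (nat_lit 29) (.e (nat_lit 442419) (nat_lit 21) (.e (nat_lit 164346) (nat_lit 240) .nil)))))) (.g (nat_lit 1) (.e (nat_lit 25440) (nat_lit 0) .nil) .nil))) 
(.lf (nat_lit 453439) (.g (nat_lit 2171) (.e (nat_lit 2629) (nat_lit 164) (.e (nat_lit 172118) (nat_lit 12) (.e (nat_lit 475210) (nat_lit 41) (.e (nat_lit 712753) (nat_lit 30) (.e (nat_lit 450565) (nat_lit 0) (.e (nat_lit 5548) (nat_lit 306) .nil)))))) (.g (nat_lit 1) (.e (nat_lit 29581) (nat_lit 0) .nil) .nil))))) (.nd (nat_lit 8) (.nd (nat_lit 9) 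
(.lf (nat_lit 452799) (.g (nat_lit 3475) (.e (nat_lit 2619) (nat_lit 164) (.e (nat_lit 172118) (nat_lit 12) (.e (nat_lit 475210) (nat_lit 41) (.e (nat_lit 712752) (nat_lit 29) (.e (nat_lit 442421) (nat_lit 21) (.e (nat_lit 164345) (nat_lit 240) .nil)))))) (.g (nat_lit 1) (.e (nat_lit 25225) (nat_lit 0) .nil) .nil))) 
(.lf (nat_lit 453311) (.g (nat_lit 2884) (.e (nat_lit 2628) (nat_lit 164) (.e (nat_lit 172120) (nat_lit 12) (.e (nat_lit 475211) (nat_lit 41) (.e (nat_lit 712750) (nat_lit 29) (.e (nat_lit 442421) (nat_lit 21) (.e (nat_lit 164345) (nat_lit 240) .nil)))))) (.g (nat_lit 1) (.e (nat_lit 28270) (nat_lit 0) .nil) .nil)))) (.nd (nat_lit 9) 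
(.lf (nat_lit 453055) (.g (nat_lit 1314) (.e (nat_lit 2621) (nat_lit 164) (.e (nat_lit 172120) (nat_lit 12) (.e (nat_lit 475197) (nat_lit 40) (.e (nat_lit 704598) (nat_lit 6) .nil)))) (.g (nat_lit 0) (.e (nat_lit 26204) (nat_lit 0) .nil) .nil))) 
(.lf (nat_lit 453567) (.g (nat_lit 3828) (.e (nat_lit 2629) (nat_lit 164) (.e (nat_lit 172126) (nat_lit 14) (.e (nat_lit 491540) (nat_lit 3) (.e (nat_lit 98373) (nat_lit 29) (.e (nat_lit 450567) (nat_lit 0) (.e (nat_lit 3978) (nat_lit 239) .nil)))))) (.g (nat_lit 1) (.e (nat_lit 30202) (nat_lit 0) .nil) .nil)))))) (.nd (nat_lit 7) (.nd (nat_lit 8) (.nd (nat_lit 9) 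
(.lf (nat_lit 452735) (.g (nat_lit 1610) (.e (nat_lit 2618) (nat_lit 164) (.e (nat_lit 172124) (nat_lit 14) (.e (nat_lit 491550) (nat_lit 9) (.e (nat_lit 336434) (nat_lit 30) (.e (nat_lit 458496) (nat_lit 0) (.e (nat_lit 5543) (nat_lit 306) .nil)))))) (.g (nat_lit 1) (.e (nat_lit 24470) (nat_lit 0) .nil) .nil))) 
(.lf (nat_lit 453247) (.g (nat_lit 1624) (.e (nat_lit 2628) (nat_lit 164) (.e (nat_lit 172118) (nat_lit 12) (.e (nat_lit 475198) (nat_lit 40) (.e (nat_lit 704598) (nat_lit 6) (.e (nat_lit 188444) (nat_lit 21) (.e (nat_lit 164346) (nat_lit 240) .nil)))))) (.g (nat_lit 1) (.e (nat_lit 28158) (nat_lit 0) .nil) .nil)))) (.nd (nat_lit 9) 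
(.lf (nat_lit 452991) (.g (nat_lit 3143) (.e (nat_lit 2619) (nat_lit 164) (.e (nat_lit 172126) (nat_lit 14) (.e (nat_lit 491549) (nat_lit 9) (.e (nat_lit 336443) (nat_lit 32) (.e (nat_lit 466971) (nat_lit 21) (.e (nat_lit 164347) (nat_lit 240) .nil)))))) (.g (nat_lit 1) (.e (nat_lit 25776) (nat_lit 0) .nil) .nil))) 
(.lf (nat_lit 453503) (.g (nat_lit 2968) (.e (nat_lit 2629) (nat_lit 164) (.e (nat_lit 172120) (nat_lit 12) (.e (nat_lit 475211) (nat_lit 41) (.e (nat_lit 712752) (nat_lit 29) (.e (nat_lit 442421) (nat_lit 21) (.e (nat_lit 164346) (nat_lit 240) .nil)))))) (.g (nat_lit 1) (.e (nat_lit 29680) (nat_lit 0) .nil) .nil))))) (.nd (nat_lit 8) (.nd (nat_lit 9) 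
(.lf (nat_lit 452863) (.g (nat_lit 4080) (.e (nat_lit 2619) (nat_lit 164) (.e (nat_lit 172120) (nat_lit 12) (.e (nat_lit 475210) (nat_lit 41) (.e (nat_lit 712752) (nat_lit 29) (.e (nat_lit 442421) (nat_lit 21) (.e (nat_lit 164347) (nat_lit 240) .nil)))))) (.g (nat_lit 1) (.e (nat_lit 25320) (nat_lit 0) .nil) .nil))) 
(.lf (nat_lit 453375) (.g (nat_lit 2489) (.e (nat_lit 2628) (nat_lit 164) (.e (nat_lit 172126) (nat_lit 14) (.e (nat_lit 491540) (nat_lit 3) (.e (nat_lit 98372) (nat_lit 29) (.e (nat_lit 450568) (nat_lit 0) (.e (nat_lit 3978) (nat_lit 239) .nil)))))) (.g (nat_lit 1) (.e (nat_lit 28654) (nat_lit 0) .nil) .nil)))) (.nd (nat_lit 9) 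
(.lf (nat_lit 453119) (.g (nat_lit 1472) (.e (nat_lit 2625) (nat_lit 164) (.e (nat_lit 172120) (nat_lit 12) (.e (nat_lit 475185) (nat_lit 29) (.e (nat_lit 557100) (nat_lit 13) .nil)))) (.g (nat_lit 0) (.e (nat_lit 26773) (nat_lit 0) .nil) .nil))) 
(.lf (nat_lit 453631) (.g (nat_lit 4111) (.e (nat_lit 2630) (nat_lit 164) (.e (nat_lit 172062) (nat_lit 2) (.e (nat_lit 196666) (nat_lit 13) (.e (nat_lit 65610) (nat_lit 10) (.e (nat_lit 344129) (nat_lit 26) (.e (nat_lit 557089) (nat_lit 12) (.e (nat_lit 163849) (nat_lit 0) (.e (nat_lit 6252) (nat_lit 337) .nil)))))))) (.g (nat_lit 1) (.e (nat_lit 30544) (nat_lit 0) .nil) .nil)))))))))))))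

noncomputable def tv5503 : DT := (.nd (nat_lit 0) (.nd (nat_lit 1) (.nd (nat_lit 2) (.nd (nat_lit 3) (.nd (nat_lit 4) (.nd (nat_lit 5) (.nd (nat_lit 6) (.nd (nat_lit 7) (.nd (nat_lit 8) (.nd (nat_lit 9) 
(.lf (nat_lit 453632) (.g (nat_lit 3773) (.e (nat_lit 2630) (nat_lit 164) (.e (nat_lit 172062) (nat_lit 2) (.e (nat_lit 196666) (nat_lit 13) (.e (nat_lit 65610) (nat_lit 10) (.e (nat_lit 344129) (nat_lit 26) (.e (nat_lit 557090) (nat_lit 12) (.e (nat_lit 163840) (nat_lit 0) (.e (nat_lit 6252) (nat_lit 337) .nil)))))))) (.g (nat_lit 1) (.e (nat_lit 30545) (nat_lit 0) .nil) .nil))) 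
(.lf (nat_lit 454144) (.g (nat_lit 1691) (.e (nat_lit 2638) (nat_lit 165) (.e (nat_lit 180277) (nat_lit 32) (.e (nat_lit 1660) (nat_lit 115) (.e (nat_lit 393271) (nat_lit 23) (.e (nat_lit 426112) (nat_lit 1) (.e (nat_lit 164345) (nat_lit 240) .nil)))))) (.g (nat_lit 1) (.e (nat_lit 33847) (nat_lit 0) .nil) .nil)))) (.nd (nat_lit 9) 
(.lf (nat_lit 453888) (.g (nat_lit 4497) (.e (nat_lit 2630) (nat_lit 164) (.e (nat_lit 172067) (nat_lit 3) (.e (nat_lit 204869) (nat_lit 29) (.e (nat_lit 360475) (nat_lit 8) (.e (nat_lit 557091) (nat_lit 12) (.e (nat_lit 163847) (nat_lit 0) (.e (nat_lit 6254) (nat_lit 337) .nil))))))) (.g (nat_lit 1) (.e (nat_lit 30932) (nat_lit 0) .nil) .nil))) 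
(.lf (nat_lit 454400) (.g (nat_lit 1285) (.e (nat_lit 2640) (nat_lit 165) (.e (nat_lit 180278) (nat_lit 32) (.e (nat_lit 1428) (nat_lit 108) (.e (nat_lit 336434) (nat_lit 30) (.e (nat_lit 458496) (nat_lit 0) .nil))))) (.g (nat_lit 0) (.e (nat_lit 34568) (nat_lit 0) .nil) .nil))))) (.nd (nat_lit 8) (.nd (nat_lit 9) 
(.lf (nat_lit 453760) (.g (nat_lit 1575) (.e (nat_lit 2630) (nat_lit 164) (.e (nat_lit 172065) (nat_lit 3) (.e (nat_lit 204868) (nat_lit 29) (.e (nat_lit 360473) (nat_lit 8) (.e (nat_lit 557094) (nat_lit 12) .nil))))) (.g (nat_lit 0) (.e (nat_lit 30738) (nat_lit 0) .nil) .nil))) 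
(.lf (nat_lit 454272) (.g (nat_lit 1901) (.e (nat_lit 2639) (nat_lit 165) (.e (nat_lit 180278) (nat_lit 32) (.e (nat_lit 1425) (nat_lit 108) (.e (nat_lit 336430) (nat_lit 29) (.e (nat_lit 442421) (nat_lit 21) (.e (nat_lit 164345) (nat_lit 240) .nil)))))) (.g (nat_lit 1) (.e (nat_lit 34172) (nat_lit 0) .nil) .nil)))) (.nd (nat_lit 9) 
(.lf (nat_lit 454016) (.g (nat_lit 2295) (.e (nat_lit 2630) (nat_lit 164) (.e (nat_lit 172126) (nat_lit 14) (.e (nat_lit 491549) (nat_lit 9) (.e (nat_lit 336432) (nat_lit 30) (.e (nat_lit 450568) (nat_lit 0) (.e (nat_lit 5447) (nat_lit 306) .nil)))))) (.g (nat_lit 1) (.e (nat_lit 32731) (nat_lit 0) .nil) .nil))) 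
(.lf (nat_lit 454528) (.g (nat_lit 2243) (.e (nat_lit 2641) (nat_lit 165) (.e (nat_lit 180278) (nat_lit 32) (.e (nat_lit 1428) (nat_lit 108) (.e (nat_lit 336430) (nat_lit 29) (.e (nat_lit 442429) (nat_lit 24) (.e (nat_lit 229663) (nat_lit 240) .nil)))))) (.g (nat_lit 1) (.e (nat_lit 34837) (nat_lit 0) .nil) .nil)))))) (.nd (nat_lit 7) (.nd (nat_lit 8) (.nd (nat_lit 9) 
(.lf (nat_lit 453696) (.g (nat_lit 5031) (.e (nat_lit 2630) (nat_lit 164) (.e (nat_lit 172064) (nat_lit 2) (.e (nat_lit 196666) (nat_lit 13) (.e (nat_lit 65610) (nat_lit 10) (.e (nat_lit 344129) (nat_lit 26) (.e (nat_lit 557090) (nat_lit 12) (.e (nat_lit 163844) (nat_lit 0) (.e (nat_lit 6254) (nat_lit 337) .nil)))))))) (.g (nat_lit 1) (.e (nat_lit 30624) (nat_lit 0) .nil) .nil))) 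
(.lf (nat_lit 454208) (.g (nat_lit 2488) (.e (nat_lit 2638) (nat_lit 165) (.e (nat_lit 180278) (nat_lit 32) (.e (nat_lit 1660) (nat_lit 115) (.e (nat_lit 393280) (nat_lit 23) (.e (nat_lit 426107) (nat_lit 1) (.e (nat_lit 164347) (nat_lit 240) .nil)))))) (.g (nat_lit 1) (.e (nat_lit 33960) (nat_lit 0) .nil) .nil)))) (.nd (nat_lit 9) 
(.lf (nat_lit 453952) (.g (nat_lit 1802) (.e (nat_lit 2630) (nat_lit 164) (.e (nat_lit 172120) (nat_lit 12) (.e (nat_lit 475209) (nat_lit 41) (.e (nat_lit 712752) (nat_lit 29) (.e (nat_lit 442430) (nat_lit 24) .nil))))) (.g (nat_lit 0) (.e (nat_lit 32254) (nat_lit 0) .nil) .nil))) 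
(.lf (nat_lit 454464) (.g (nat_lit 2970) (.e (nat_lit 2641) (nat_lit 165) (.e (nat_lit 180244) (nat_lit 5) (.e (nat_lit 532550) (nat_lit 12) (.e (nat_lit 360474) (nat_lit 8) (.e (nat_lit 557094) (nat_lit 12) .nil))))) (.g (nat_lit 0) (.e (nat_lit 34678) (nat_lit 0) .nil) .nil))))) (.nd (nat_lit 8) (.nd (nat_lit 9) 
(.lf (nat_lit 453824) (.g (nat_lit 1318) (.e (nat_lit 2630) (nat_lit 164) (.e (nat_lit 172067) (nat_lit 3) (.e (nat_lit 204868) (nat_lit 29) (.e (nat_lit 360473) (nat_lit 8) .nil)))) (.g (nat_lit 0) (.e (nat_lit 30852) (nat_lit 0) .nil) .nil))) 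
(.lf (nat_lit 454336) (.g (nat_lit 2929) (.e (nat_lit 2640) (nat_lit 165) (.e (nat_lit 180277) (nat_lit 32) (.e (nat_lit 1427) (nat_lit 108) (.e (nat_lit 336443) (nat_lit 32) (.e (nat_lit 466971) (nat_lit 21) (.e (nat_lit 164345) (nat_lit 240) .nil)))))) (.g (nat_lit 1) (.e (nat_lit 34487) (nat_lit 0) .nil) .nil)))) (.nd (nat_lit 9) 
(.lf (nat_lit 454080) (.g (nat_lit 4699) (.e (nat_lit 2636) (nat_lit 165) (.e (nat_lit 180251) (nat_lit 10) (.e (nat_lit 573456) (nat_lit 9) (.e (nat_lit 1669) (nat_lit 116) (.e (nat_lit 401459) (nat_lit 13) (.e (nat_lit 483363) (nat_lit 18) (.e (nat_lit 57655) (nat_lit 152) .nil))))))) (.g (nat_lit 1) (.e (nat_lit 33306) (nat_lit 0) .nil) .nil))) 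
(.lf (nat_lit 454592) (.g (nat_lit 4065) (.e (nat_lit 2643) (nat_lit 165) (.e (nat_lit 180246) (nat_lit 6) (.e (nat_lit 540706) (nat_lit 12) (.e (nat_lit 360475) (nat_lit 8) (.e (nat_lit 557089) (nat_lit 12) (.e (nat_lit 163843) (nat_lit 0) (.e (nat_lit 6255) (nat_lit 337) .nil))))))) (.g (nat_lit 1) (.e (nat_lit 35104) (nat_lit 0) .nil) .nil))))))) 
(.nd (nat_lit 6) (.nd (nat_lit 7) (.nd (nat_lit 8) (.nd (nat_lit 9) 
(.lf (nat_lit 453664) (.g (nat_lit 4421) (.e (nat_lit 2630) (nat_lit 164) (.e (nat_lit 172062) (nat_lit 2) (.e (nat_lit 196666) (nat_lit 13) (.e (nat_lit 65617) (nat_lit 10) (.e (nat_lit 344133) (nat_lit 26) (.e (nat_lit 557091) (nat_lit 12) (.e (nat_lit 163843) (nat_lit 0) (.e (nat_lit 6252) (nat_lit 337) .nil)))))))) (.g (nat_lit 1) (.e (nat_lit 30577) (nat_lit 0) .nil) .nil))) 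
(.lf (nat_lit 454176) (.g (nat_lit 3195) (.e (nat_lit 2638) (nat_lit 165) (.e (nat_lit 180278) (nat_lit 32) (.e (nat_lit 1428) (nat_lit 108) (.e (nat_lit 336443) (nat_lit 32) (.e (nat_lit 466969) (nat_lit 21) (.e (nat_lit 164345) (nat_lit 240) .nil)))))) (.g (nat_lit 1) (.e (nat_lit 33923) (nat_lit 0) .nil) .nil)))) (.nd (nat_lit 9) 
(.lf (nat_lit 453920) (.g (nat_lit 2555) (.e (nat_lit 2630) (nat_lit 164) (.e (nat_lit 172118) (nat_lit 12) (.e (nat_lit 475198) (nat_lit 40) (.e (nat_lit 704599) (nat_lit 6) (.e (nat_lit 188455) (nat_lit 24) (.e (nat_lit 229665) (nat_lit 240) .nil)))))) (.g (nat_lit 1) (.e (nat_lit 32206) (nat_lit 0) .nil) .nil))) 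
(.lf (nat_lit 454432) (.g (nat_lit 2034) (.e (nat_lit 2640) (nat_lit 165) (.e (nat_lit 180278) (nat_lit 32) (.e (nat_lit 1661) (nat_lit 115) (.e (nat_lit 393266) (nat_lit 23) (.e (nat_lit 426109) (nat_lit 1) (.e (nat_lit 164347) (nat_lit 240) .nil)))))) (.g (nat_lit 1) (.e (nat_lit 34603) (nat_lit 0) .nil) .nil))))) (.nd (nat_lit 8) (.nd (nat_lit 9) 
(.lf (nat_lit 453792) (.g (nat_lit 2404) (.e (nat_lit 2630) (nat_lit 164) (.e (nat_lit 172066) (nat_lit 3) (.e (nat_lit 204868) (nat_lit 29) (.e (nat_lit 360473) (nat_lit 8) (.e (nat_lit 557089) (nat_lit 12) (.e (nat_lit 163844) (nat_lit 0) (.e (nat_lit 6255) (nat_lit 337) .nil))))))) (.g (nat_lit 1) (.e (nat_lit 30773) (nat_lit 0) .nil) .nil))) 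
(.lf (nat_lit 454304) (.g (nat_lit 2148) (.e (nat_lit 2639) (nat_lit 165) (.e (nat_lit 180278) (nat_lit 32) (.e (nat_lit 1660) (nat_lit 115) (.e (nat_lit 393266) (nat_lit 23) (.e (nat_lit 426109) (nat_lit 1) (.e (nat_lit 164346) (nat_lit 240) .nil)))))) (.g (nat_lit 1) (.e (nat_lit 34210) (nat_lit 0) .nil) .nil)))) (.nd (nat_lit 9) 
(.lf (nat_lit 454048) (.g (nat_lit 2270) (.e (nat_lit 2632) (nat_lit 164) (.e (nat_lit 172067) (nat_lit 3) (.e (nat_lit 204869) (nat_lit 29) (.e (nat_lit 360474) (nat_lit 8) (.e (nat_lit 557094) (nat_lit 12) .nil))))) (.g (nat_lit 0) (.e (nat_lit 33000) (nat_lit 0) .nil) .nil))) 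
(.lf (nat_lit 454560) (.g (nat_lit 3279) (.e (nat_lit 2643) (nat_lit 165) (.e (nat_lit 180243) (nat_lit 5) (.e (nat_lit 532549) (nat_lit 12) (.e (nat_lit 360475) (nat_lit 8) (.e (nat_lit 557089) (nat_lit 12) (.e (nat_lit 163849) (nat_lit 0) (.e (nat_lit 6250) (nat_lit 337) .nil))))))) (.g (nat_lit 1) (.e (nat_lit 35050) (nat_lit 0) .nil) .nil)))))) 
(.nd (nat_lit 7) (.nd (nat_lit 8) (.nd (nat_lit 9) 
(.lf (nat_lit 453728) (.g (nat_lit 4040) (.e (nat_lit 2630) (nat_lit 164) (.e (nat_lit 172064) (nat_lit 2) (.e (nat_lit 196666) (nat_lit 13) (.e (nat_lit 65617) (nat_lit 10) (.e (nat_lit 344133) (nat_lit 26) (.e (nat_lit 557089) (nat_lit 12) (.e (nat_lit 163843) (nat_lit 0) (.e (nat_lit 6254) (nat_lit 337) .nil)))))))) (.g (nat_lit 1) (.e (nat_lit 30656) (nat_lit 0) .nil) .nil))) 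
(.lf (nat_lit 454240) (.g (nat_lit 2117) (.e (nat_lit 2639) (nat_lit 165) (.e (nat_lit 180277) (nat_lit 32) (.e (nat_lit 1425) (nat_lit 108) (.e (nat_lit 336443) (nat_lit 32) (.e (nat_lit 466971) (nat_lit 21) (.e (nat_lit 164345) (nat_lit 240) .nil)))))) (.g (nat_lit 1) (.e (nat_lit 34102) (nat_lit 0) .nil) .nil)))) (.nd (nat_lit 9) 
(.lf (nat_lit 453984) (.g (nat_lit 2159) (.e (nat_lit 2630) (nat_lit 164) (.e (nat_lit 172124) (nat_lit 14) (.e (nat_lit 491549) (nat_lit 9) (.e (nat_lit 336432) (nat_lit 30) (.e (nat_lit 450567) (nat_lit 0) (.e (nat_lit 5443) (nat_lit 306) .nil)))))) (.g (nat_lit 1) (.e (nat_lit 32551) (nat_lit 0) .nil) .nil))) 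
(.lf (nat_lit 454496) (.g (nat_lit 2123) (.e (nat_lit 2641) (nat_lit 165) (.e (nat_lit 180277) (nat_lit 32) (.e (nat_lit 1427) (nat_lit 108) (.e (nat_lit 336426) (nat_lit 29) (.e (nat_lit 442430) (nat_lit 24) (.e (nat_lit 229665) (nat_lit 240) .nil)))))) (.g (nat_lit 1) (.e (nat_lit 34782) (nat_lit 0) .nil) .nil))))) (.nd (nat_lit 8) (.nd (nat_lit 9) 
(.lf (nat_lit 453856) (.g (nat_lit 5079) (.e (nat_lit 2630) (nat_lit 164) (.e (nat_lit 172067) (nat_lit 3) (.e (nat_lit 204868) (nat_lit 29) (.e (nat_lit 360475) (nat_lit 8) (.e (nat_lit 557091) (nat_lit 12) (.e (nat_lit 163847) (nat_lit 0) (.e (nat_lit 6255) (nat_lit 337) .nil))))))) (.g (nat_lit 1) (.e (nat_lit 30900) (nat_lit 0) .nil) .nil))) 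
(.lf (nat_lit 454368) (.g (nat_lit 2304) (.e (nat_lit 2640) (nat_lit 165) (.e (nat_lit 180277) (nat_lit 32) (.e (nat_lit 1660) (nat_lit 115) (.e (nat_lit 393281) (nat_lit 23) (.e (nat_lit 426107) (nat_lit 1) (.e (nat_lit 164345) (nat_lit 240) .nil)))))) (.g (nat_lit 1) (.e (nat_lit 34520) (nat_lit 0) .nil) .nil)))) (.nd (nat_lit 9) 
(.lf (nat_lit 454112) (.g (nat_lit 1882) (.e (nat_lit 2638) (nat_lit 165) (.e (nat_lit 180277) (nat_lit 32) (.e (nat_lit 1427) (nat_lit 108) (.e (nat_lit 336432) (nat_lit 30) (.e (nat_lit 458496) (nat_lit 0) (.e (nat_lit 5543) (nat_lit 306) .nil)))))) (.g (nat_lit 1) (.e (nat_lit 33810) (nat_lit 0) .nil) .nil))) 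
(.lf (nat_lit 454624) (.g (nat_lit 3498) (.e (nat_lit 2643) (nat_lit 165) (.e (nat_lit 180277) (nat_lit 32) (.e (nat_lit 1427) (nat_lit 108) (.e (nat_lit 336430) (nat_lit 29) (.e (nat_lit 442430) (nat_lit 24) (.e (nat_lit 229665) (nat_lit 240) .nil)))))) (.g (nat_lit 1) (.e (nat_lit 35324) (nat_lit 0) .nil) .nil)))))))) 
(.nd (nat_lit 5) (.nd (nat_lit 6) (.nd (nat_lit 7) (.nd (nat_lit 8) (.nd (nat_lit 9) 
(.lf (nat_lit 453648) (.g (nat_lit 2875) (.e (nat_lit 2630) (nat_lit 164) (.e (nat_lit 172062) (nat_lit 2) (.e (nat_lit 196666) (nat_lit 13) (.e (nat_lit 65617) (nat_lit 10) (.e (nat_lit 344130) (nat_lit 26) (.e (nat_lit 557089) (nat_lit 12) (.e (nat_lit 163848) (nat_lit 0) (.e (nat_lit 6255) (nat_lit 337) .nil)))))))) (.g (nat_lit 1) (.e (nat_lit 30561) (nat_lit 0) .nil) .nil))) 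
(.lf (nat_lit 454160) (.g (nat_lit 4455) (.e (nat_lit 2638) (nat_lit 165) (.e (nat_lit 180278) (nat_lit 32) (.e (nat_lit 1253) (nat_lit 92) (.e (nat_lit 98373) (nat_lit 29) (.e (nat_lit 450568) (nat_lit 0) (.e (nat_lit 3978) (nat_lit 239) .nil)))))) (.g (nat_lit 1) (.e (nat_lit 33894) (nat_lit 0) .nil) .nil)))) (.nd (nat_lit 9) 
(.lf (nat_lit 453904) (.g (nat_lit 3829) (.e (nat_lit 2630) (nat_lit 164) (.e (nat_lit 172106) (nat_lit 10) (.e (nat_lit 434272) (nat_lit 38) (.e (nat_lit 655380) (nat_lit 6) (.e (nat_lit 188453) (nat_lit 24) (.e (nat_lit 229665) (nat_lit 240) .nil)))))) (.g (nat_lit 1) (.e (nat_lit 31869) (nat_lit 0) .nil) .nil))) 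
(.lf (nat_lit 454416) (.g (nat_lit 2653) (.e (nat_lit 2640) (nat_lit 165) (.e (nat_lit 180278) (nat_lit 32) (.e (nat_lit 1659) (nat_lit 115) (.e (nat_lit 393281) (nat_lit 23) (.e (nat_lit 426107) (nat_lit 1) (.e (nat_lit 164347) (nat_lit 240) .nil)))))) (.g (nat_lit 1) (.e (nat_lit 34584) (nat_lit 0) .nil) .nil))))) (.nd (nat_lit 8) (.nd (nat_lit 9) 
(.lf (nat_lit 453776) (.g (nat_lit 3834) (.e (nat_lit 2630) (nat_lit 164) (.e (nat_lit 172065) (nat_lit 3) (.e (nat_lit 204869) (nat_lit 29) (.e (nat_lit 360475) (nat_lit 8) (.e (nat_lit 557089) (nat_lit 12) (.e (nat_lit 163843) (nat_lit 0) (.e (nat_lit 6254) (nat_lit 337) .nil))))))) (.g (nat_lit 1) (.e (nat_lit 30757) (nat_lit 0) .nil) .nil))) 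
(.lf (nat_lit 454288) (.g (nat_lit 2195) (.e (nat_lit 2639) (nat_lit 165) (.e (nat_lit 180278) (nat_lit 32) (.e (nat_lit 1428) (nat_lit 108) (.e (nat_lit 336443) (nat_lit 32) (.e (nat_lit 466972) (nat_lit 21) (.e (nat_lit 164345) (nat_lit 240) .nil)))))) (.g (nat_lit 1) (.e (nat_lit 34193) (nat_lit 0) .nil) .nil)))) (.nd (nat_lit 9) 
(.lf (nat_lit 454032) (.g (nat_lit 2290) (.e (nat_lit 2630) (nat_lit 164) (.e (nat_lit 172126) (nat_lit 14) (.e (nat_lit 491550) (nat_lit 9) (.e (nat_lit 336432) (nat_lit 30) (.e (nat_lit 450568) (nat_lit 0) (.e (nat_lit 5448) (nat_lit 306) .nil)))))) (.g (nat_lit 1) (.e (nat_lit 32749) (nat_lit 0) .nil) .nil))) 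
(.lf (nat_lit 454544) (.g (nat_lit 2269) (.e (nat_lit 2643) (nat_lit 165) (.e (nat_lit 180243) (nat_lit 5) (.e (nat_lit 532549) (nat_lit 12) (.e (nat_lit 360473) (nat_lit 8) (.e (nat_lit 557091) (nat_lit 12) .nil))))) (.g (nat_lit 0) (.e (nat_lit 35025) (nat_lit 0) .nil) .nil)))))) (.nd (nat_lit 7) (.nd (nat_lit 8) (.nd (nat_lit 9) 
(.lf (nat_lit 453712) (.g (nat_lit 3196) (.e (nat_lit 2630) (nat_lit 164) (.e (nat_lit 172064) (nat_lit 2) (.e (nat_lit 196666) (nat_lit 13) (.e (nat_lit 65617) (nat_lit 10) (.e (nat_lit 344130) (nat_lit 26) (.e (nat_lit 557089) (nat_lit 12) (.e (nat_lit 163848) (nat_lit 0) (.e (nat_lit 6255) (nat_lit 337) .nil)))))))) (.g (nat_lit 1) (.e (nat_lit 30640) (nat_lit 0) .nil) .nil))) 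
(.lf (nat_lit 454224) (.g (nat_lit 1862) (.e (nat_lit 2638) (nat_lit 165) (.e (nat_lit 180278) (nat_lit 32) (.e (nat_lit 1661) (nat_lit 115) (.e (nat_lit 393284) (nat_lit 24) (.e (nat_lit 434205) (nat_lit 18) (.e (nat_lit 5499) (nat_lit 306) .nil)))))) (.g (nat_lit 1) (.e (nat_lit 34002) (nat_lit 0) .nil) .nil)))) (.nd (nat_lit 9) 
(.lf (nat_lit 453968) (.g (nat_lit 3663) (.e (nat_lit 2630) (nat_lit 164) (.e (nat_lit 172120) (nat_lit 12) (.e (nat_lit 475211) (nat_lit 41) (.e (nat_lit 712752) (nat_lit 29) (.e (nat_lit 442430) (nat_lit 24) (.e (nat_lit 229665) (nat_lit 240) .nil)))))) (.g (nat_lit 1) (.e (nat_lit 32291) (nat_lit 0) .nil) .nil))) 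
(.lf (nat_lit 454480) (.g (nat_lit 5092) (.e (nat_lit 2641) (nat_lit 165) (.e (nat_lit 180244) (nat_lit 5) (.e (nat_lit 532550) (nat_lit 12) (.e (nat_lit 360475) (nat_lit 8) (.e (nat_lit 557091) (nat_lit 12) (.e (nat_lit 163843) (nat_lit 0) (.e (nat_lit 6252) (nat_lit 337) .nil))))))) (.g (nat_lit 1) (.e (nat_lit 34694) (nat_lit 0) .nil) .nil))))) (.nd (nat_lit 8) (.nd (nat_lit 9) 
(.lf (nat_lit 453840) (.g (nat_lit 2939) (.e (nat_lit 2630) (nat_lit 164) (.e (nat_lit 172067) (nat_lit 3) (.e (nat_lit 204868) (nat_lit 29) (.e (nat_lit 360473) (nat_lit 8) (.e (nat_lit 557093) (nat_lit 12) (.e (nat_lit 163847) (nat_lit 0) (.e (nat_lit 6255) (nat_lit 337) .nil))))))) (.g (nat_lit 1) (.e (nat_lit 30877) (nat_lit 0) .nil) .nil))) 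
(.lf (nat_lit 454352) (.g (nat_lit 1235) (.e (nat_lit 2640) (nat_lit 165) (.e (nat_lit 180277) (nat_lit 32) (.e (nat_lit 1659) (nat_lit 115) (.e (nat_lit 393277) (nat_lit 23) (.e (nat_lit 426109) (nat_lit 1) (.e (nat_lit 164347) (nat_lit 240) .nil)))))) (.g (nat_lit 1) (.e (nat_lit 34503) (nat_lit 0) .nil) .nil)))) (.nd (nat_lit 9) 
(.lf (nat_lit 454096) (.g (nat_lit 1956) (.e (nat_lit 2637) (nat_lit 165) (.e (nat_lit 180278) (nat_lit 32) (.e (nat_lit 1253) (nat_lit 92) (.e (nat_lit 98373) (nat_lit 29) (.e (nat_lit 458496) (nat_lit 0) .nil))))) (.g (nat_lit 0) (.e (nat_lit 33606) (nat_lit 0) .nil) .nil))) 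
(.lf (nat_lit 454608) (.g (nat_lit 1952) (.e (nat_lit 2643) (nat_lit 165) (.e (nat_lit 180277) (nat_lit 32) (.e (nat_lit 1425) (nat_lit 108) (.e (nat_lit 336430) (nat_lit 29) (.e (nat_lit 442428) (nat_lit 24) (.e (nat_lit 229666) (nat_lit 240) .nil)))))) (.g (nat_lit 1) (.e (nat_lit 35301) (nat_lit 0) .nil) .nil))))))) (.nd (nat_lit 6) (.nd (nat_lit 7) (.nd (nat_lit 8) (.nd (nat_lit 9) 
(.lf (nat_lit 453680) (.g (nat_lit 2836) (.e (nat_lit 2630) (nat_lit 164) (.e (nat_lit 172063) (nat_lit 2) (.e (nat_lit 196666) (nat_lit 13) (.e (nat_lit 65617) (nat_lit 10) (.e (nat_lit 344133) (nat_lit 26) (.e (nat_lit 557089) (nat_lit 12) (.e (nat_lit 163844) (nat_lit 0) (.e (nat_lit 6255) (nat_lit 337) .nil)))))))) (.g (nat_lit 1) (.e (nat_lit 30593) (nat_lit 0) .nil) .nil))) 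
(.lf (nat_lit 454192) (.g (nat_lit 2630) (.e (nat_lit 2638) (nat_lit 165) (.e (nat_lit 180278) (nat_lit 32) (.e (nat_lit 1659) (nat_lit 115) (.e (nat_lit 393271) (nat_lit 23) (.e (nat_lit 426112) (nat_lit 1) (.e (nat_lit 164348) (nat_lit 240) .nil)))))) (.g (nat_lit 1) (.e (nat_lit 33940) (nat_lit 0) .nil) .nil)))) (.nd (nat_lit 9) 
(.lf (nat_lit 453936) (.g (nat_lit 1883) (.e (nat_lit 2630) (nat_lit 164) (.e (nat_lit 172120) (nat_lit 12) (.e (nat_lit 475197) (nat_lit 40) (.e (nat_lit 704598) (nat_lit 6) (.e (nat_lit 188454) (nat_lit 24) (.e (nat_lit 229665) (nat_lit 240) .nil)))))) (.g (nat_lit 1) (.e (nat_lit 32232) (nat_lit 0) .nil) .nil))) 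
(.lf (nat_lit 454448) (.g (nat_lit 2695) (.e (nat_lit 2641) (nat_lit 165) (.e (nat_lit 180244) (nat_lit 5) (.e (nat_lit 532549) (nat_lit 12) (.e (nat_lit 360473) (nat_lit 8) (.e (nat_lit 557089) (nat_lit 12) (.e (nat_lit 163849) (nat_lit 0) (.e (nat_lit 6255) (nat_lit 337) .nil))))))) (.g (nat_lit 1) (.e (nat_lit 34659) (nat_lit 0) .nil) .nil))))) (.nd (nat_lit 8) (.nd (nat_lit 9) 
(.lf (nat_lit 453808) (.g (nat_lit 5394) (.e (nat_lit 2630) (nat_lit 164) (.e (nat_lit 172066) (nat_lit 3) (.e (nat_lit 204869) (nat_lit 29) (.e (nat_lit 360475) (nat_lit 8) (.e (nat_lit 557089) (nat_lit 12) (.e (nat_lit 163849) (nat_lit 0) (.e (nat_lit 6255) (nat_lit 337) .nil))))))) (.g (nat_lit 1) (.e (nat_lit 30789) (nat_lit 0) .nil) .nil))) 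
(.lf (nat_lit 454320) (.g (nat_lit 802) (.e (nat_lit 2640) (nat_lit 165) (.e (nat_lit 180277) (nat_lit 32) (.e (nat_lit 1425) (nat_lit 108) (.e (nat_lit 336432) (nat_lit 30) (.e (nat_lit 458496) (nat_lit 0) (.e (nat_lit 5547) (nat_lit 306) .nil)))))) (.g (nat_lit 1) (.e (nat_lit 34468) (nat_lit 0) .nil) .nil)))) (.nd (nat_lit 9) 
(.lf (nat_lit 454064) (.g (nat_lit 3090) (.e (nat_lit 2635) (nat_lit 165) (.e (nat_lit 180244) (nat_lit 5) (.e (nat_lit 532550) (nat_lit 12) (.e (nat_lit 360474) (nat_lit 8) (.e (nat_lit 557093) (nat_lit 12) .nil))))) (.g (nat_lit 0) (.e (nat_lit 33184) (nat_lit 0) .nil) .nil))) 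
(.lf (nat_lit 454576) (.g (nat_lit 4999) (.e (nat_lit 2643) (nat_lit 165) (.e (nat_lit 180243) (nat_lit 5) (.e (nat_lit 532550) (nat_lit 12) (.e (nat_lit 360475) (nat_lit 8) (.e (nat_lit 557089) (nat_lit 12) (.e (nat_lit 163843) (nat_lit 0) (.e (nat_lit 6255) (nat_lit 337) .nil))))))) (.g (nat_lit 1) (.e (nat_lit 35068) (nat_lit 0) .nil) .nil)))))) 
(.nd (nat_lit 7) (.nd (nat_lit 8) (.nd (nat_lit 9) 
(.lf (nat_lit 453744) (.g (nat_lit 3575) (.e (nat_lit 2630) (nat_lit 164) (.e (nat_lit 172065) (nat_lit 3) (.e (nat_lit 204852) (nat_lit 26) (.e (nat_lit 336310) (nat_lit 16) (.e (nat_lit 164179) (nat_lit 154) (.e (nat_lit 57379) (nat_lit 3) (.e (nat_lit 98334) (nat_lit 18) (.e (nat_lit 164305) (nat_lit 226) .nil)))))))) (.g (nat_lit 1) (.e (nat_lit 30672) (nat_lit 0) .nil) .nil))) 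
(.lf (nat_lit 454256) (.g (nat_lit 769) (.e (nat_lit 2639) (nat_lit 165) (.e (nat_lit 180277) (nat_lit 32) (.e (nat_lit 1658) (nat_lit 115) (.e (nat_lit 393275) (nat_lit 23) (.e (nat_lit 426109) (nat_lit 1) .nil))))) (.g (nat_lit 0) (.e (nat_lit 34125) (nat_lit 0) .nil) .nil)))) (.nd (nat_lit 9) 
(.lf (nat_lit 454000) (.g (nat_lit 3398) (.e (nat_lit 2630) (nat_lit 164) (.e (nat_lit 172126) (nat_lit 14) (.e (nat_lit 491540) (nat_lit 3) (.e (nat_lit 98373) (nat_lit 29) (.e (nat_lit 450560) (nat_lit 0) (.e (nat_lit 3931) (nat_lit 239) .nil)))))) (.g (nat_lit 1) (.e (nat_lit 32700) (nat_lit 0) .nil) .nil))) 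
(.lf (nat_lit 454512) (.g (nat_lit 2937) (.e (nat_lit 2641) (nat_lit 165) (.e (nat_lit 180278) (nat_lit 32) (.e (nat_lit 1253) (nat_lit 92) (.e (nat_lit 98370) (nat_lit 28) (.e (nat_lit 442430) (nat_lit 24) (.e (nat_lit 237312) (nat_lit 134) .nil)))))) (.g (nat_lit 1) (.e (nat_lit 34805) (nat_lit 0) .nil) .nil))))) (.nd (nat_lit 8) (.nd (nat_lit 9) 
(.lf (nat_lit 453872) (.g (nat_lit 4625) (.e (nat_lit 2630) (nat_lit 164) (.e (nat_lit 172067) (nat_lit 3) (.e (nat_lit 204869) (nat_lit 29) (.e (nat_lit 360475) (nat_lit 8) (.e (nat_lit 557089) (nat_lit 12) (.e (nat_lit 163843) (nat_lit 0) (.e (nat_lit 6255) (nat_lit 337) .nil))))))) (.g (nat_lit 1) (.e (nat_lit 30916) (nat_lit 0) .nil) .nil))) 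
(.lf (nat_lit 454384) (.g (nat_lit 445) (.e (nat_lit 2640) (nat_lit 165) (.e (nat_lit 180278) (nat_lit 32) (.e (nat_lit 1426) (nat_lit 108) .nil))) (.g (nat_lit 0) (.e (nat_lit 34549) (nat_lit 0) .nil) .nil)))) (.nd (nat_lit 9) 
(.lf (nat_lit 454128) (.g (nat_lit 3041) (.e (nat_lit 2638) (nat_lit 165) (.e (nat_lit 180277) (nat_lit 32) (.e (nat_lit 1428) (nat_lit 108) (.e (nat_lit 336443) (nat_lit 32) (.e (nat_lit 466971) (nat_lit 21) (.e (nat_lit 164348) (nat_lit 240) .nil)))))) (.g (nat_lit 1) (.e (nat_lit 33827) (nat_lit 0) .nil) .nil))) 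
(.lf (nat_lit 454640) (.g (nat_lit 3369) (.e (nat_lit 2645) (nat_lit 166) (.e (nat_lit 188434) (nat_lit 20) (.e (nat_lit 3468) (nat_lit 217) (.e (nat_lit 696344) (nat_lit 8) (.e (nat_lit 172106) (nat_lit 10) (.e (nat_lit 434209) (nat_lit 18) (.e (nat_lit 6272) (nat_lit 337) .nil))))))) (.g (nat_lit 1) (.e (nat_lit 35653) (nat_lit 0) .nil) .nil))))))))) 
(.nd (nat_lit 4) (.nd (nat_lit 5) (.nd (nat_lit 6) (.nd (nat_lit 7) (.nd (nat_lit 8) 
(.nd (nat_lit 9) 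
(.lf (nat_lit 453640) (.g (nat_lit 1598) (.e (nat_lit 2630) (nat_lit 164) (.e (nat_lit 172062) (nat_lit 2) (.e (nat_lit 196666) (nat_lit 13) (.e (nat_lit 65617) (nat_lit 10) (.e (nat_lit 344127) (nat_lit 26) (.e (nat_lit 557089) (nat_lit 12) (.e (nat_lit 163849) (nat_lit 0) (.e (nat_lit 6254) (nat_lit 337) .nil)))))))) (.g (nat_lit 1) (.e (nat_lit 30553) (nat_lit 0) .nil) .nil))) 
(.lf (nat_lit 454152) (.g (nat_lit 339) (.e (nat_lit 2638) (nat_lit 165) (.e (nat_lit 180277) (nat_lit 32) (.e (nat_lit 1661) (nat_lit 115) .nil))) (.g (nat_lit 0) (.e (nat_lit 33855) (nat_lit 0) .nil) .nil)))) (.nd (nat_lit 9) 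
(.lf (nat_lit 453896) (.g (nat_lit 2838) (.e (nat_lit 2630) (nat_lit 164) (.e (nat_lit 172106) (nat_lit 10) (.e (nat_lit 434241) (nat_lit 27) (.e (nat_lit 565267) (nat_lit 4) (.e (nat_lit 65617) (nat_lit 10) (.e (nat_lit 344091) (nat_lit 18) (.e (nat_lit 7607) (nat_lit 410) .nil))))))) (.g (nat_lit 1) (.e (nat_lit 31756) (nat_lit 0) .nil) .nil))) 
(.lf (nat_lit 454408) (.g (nat_lit 2970) (.e (nat_lit 2640) (nat_lit 165) (.e (nat_lit 180278) (nat_lit 32) (.e (nat_lit 1658) (nat_lit 115) (.e (nat_lit 393282) (nat_lit 24) (.e (nat_lit 434209) (nat_lit 18) (.e (nat_lit 5548) (nat_lit 306) .nil)))))) (.g (nat_lit 1) (.e (nat_lit 34576) (nat_lit 0) .nil) .nil))))) (.nd (nat_lit 8) (.nd (nat_lit 9) 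
(.lf (nat_lit 453768) (.g (nat_lit 3271) (.e (nat_lit 2630) (nat_lit 164) (.e (nat_lit 172065) (nat_lit 3) (.e (nat_lit 204869) (nat_lit 29) (.e (nat_lit 360474) (nat_lit 8) (.e (nat_lit 557093) (nat_lit 12) (.e (nat_lit 163847) (nat_lit 0) (.e (nat_lit 6255) (nat_lit 337) .nil))))))) (.g (nat_lit 1) (.e (nat_lit 30749) (nat_lit 0) .nil) .nil))) 
(.lf (nat_lit 454280) (.g (nat_lit 471) (.e (nat_lit 2639) (nat_lit 165) (.e (nat_lit 180278) (nat_lit 32) (.e (nat_lit 1427) (nat_lit 108) .nil))) (.g (nat_lit 0) (.e (nat_lit 34180) (nat_lit 0) .nil) .nil)))) (.nd (nat_lit 9) 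
(.lf (nat_lit 454024) (.g (nat_lit 3347) (.e (nat_lit 2630) (nat_lit 164) (.e (nat_lit 172126) (nat_lit 14) (.e (nat_lit 491550) (nat_lit 9) (.e (nat_lit 336430) (nat_lit 29) (.e (nat_lit 442428) (nat_lit 24) (.e (nat_lit 229664) (nat_lit 240) .nil)))))) (.g (nat_lit 1) (.e (nat_lit 32741) (nat_lit 0) .nil) .nil))) 
(.lf (nat_lit 454536) (.g (nat_lit 2750) (.e (nat_lit 2643) (nat_lit 165) (.e (nat_lit 180243) (nat_lit 5) (.e (nat_lit 532549) (nat_lit 12) (.e (nat_lit 360473) (nat_lit 8) (.e (nat_lit 557089) (nat_lit 12) (.e (nat_lit 163843) (nat_lit 0) (.e (nat_lit 6254) (nat_lit 337) .nil))))))) (.g (nat_lit 1) (.e (nat_lit 35015) (nat_lit 0) .nil) .nil)))))) 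
(.nd (nat_lit 7) (.nd (nat_lit 8) (.nd (nat_lit 9) 
(.lf (nat_lit 453704) (.g (nat_lit 5467) (.e (nat_lit 2630) (nat_lit 164) (.e (nat_lit 172064) (nat_lit 2) (.e (nat_lit 196666) (nat_lit 13) (.e (nat_lit 65617) (nat_lit 10) (.e (nat_lit 344127) (nat_lit 26) (.e (nat_lit 557090) (nat_lit 12) (.e (nat_lit 163843) (nat_lit 0) (.e (nat_lit 6255) (nat_lit 337) .nil)))))))) (.g (nat_lit 1) (.e (nat_lit 30632) (nat_lit 0) .nil) .nil))) 
(.lf (nat_lit 454216) (.g (nat_lit 976) (.e (nat_lit 2638) (nat_lit 165) (.e (nat_lit 180278) (nat_lit 32) (.e (nat_lit 1661) (nat_lit 115) (.e (nat_lit 393274) (nat_lit 23) .nil)))) (.g (nat_lit 0) (.e (nat_lit 33985) (nat_lit 0) .nil) .nil)))) (.nd (nat_lit 9) 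
(.lf (nat_lit 453960) (.g (nat_lit 3203) (.e (nat_lit 2630) (nat_lit 164) (.e (nat_lit 172120) (nat_lit 12) (.e (nat_lit 475210) (nat_lit 41) (.e (nat_lit 712755) (nat_lit 30) (.e (nat_lit 450569) (nat_lit 0) (.e (nat_lit 5448) (nat_lit 306) .nil)))))) (.g (nat_lit 1) (.e (nat_lit 32280) (nat_lit 0) .nil) .nil))) 
(.lf (nat_lit 454472) (.g (nat_lit 4747) (.e (nat_lit 2641) (nat_lit 165) (.e (nat_lit 180244) (nat_lit 5) (.e (nat_lit 532550) (nat_lit 12) (.e (nat_lit 360475) (nat_lit 8) (.e (nat_lit 557089) (nat_lit 12) (.e (nat_lit 163844) (nat_lit 0) (.e (nat_lit 6250) (nat_lit 337) .nil))))))) (.g (nat_lit 1) (.e (nat_lit 34686) (nat_lit 0) .nil) .nil))))) (.nd (nat_lit 8) (.nd (nat_lit 9) 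
(.lf (nat_lit 453832) (.g (nat_lit 2410) (.e (nat_lit 2630) (nat_lit 164) (.e (nat_lit 172067) (nat_lit 3) (.e (nat_lit 204868) (nat_lit 29) (.e (nat_lit 360473) (nat_lit 8) (.e (nat_lit 557091) (nat_lit 12) (.e (nat_lit 163841) (nat_lit 0) (.e (nat_lit 6255) (nat_lit 337) .nil))))))) (.g (nat_lit 1) (.e (nat_lit 30865) (nat_lit 0) .nil) .nil))) 
(.lf (nat_lit 454344) (.g (nat_lit 329) (.e (nat_lit 2640) (nat_lit 165) (.e (nat_lit 180277) (nat_lit 32) (.e (nat_lit 1658) (nat_lit 115) .nil))) (.g (nat_lit 0) (.e (nat_lit 34495) (nat_lit 0) .nil) .nil)))) (.nd (nat_lit 9) 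
(.lf (nat_lit 454088) (.g (nat_lit 2966) (.e (nat_lit 2637) (nat_lit 165) (.e (nat_lit 180251) (nat_lit 10) (.e (nat_lit 573456) (nat_lit 9) (.e (nat_lit 1669) (nat_lit 116) (.e (nat_lit 401459) (nat_lit 13) (.e (nat_lit 483364) (nat_lit 18) (.e (nat_lit 57663) (nat_lit 152) .nil))))))) (.g (nat_lit 1) (.e (nat_lit 33538) (nat_lit 0) .nil) .nil))) 
(.lf (nat_lit 454600) (.g (nat_lit 4293) (.e (nat_lit 2643) (nat_lit 165) (.e (nat_lit 180251) (nat_lit 10) (.e (nat_lit 573456) (nat_lit 9) (.e (nat_lit 1669) (nat_lit 116) (.e (nat_lit 401459) (nat_lit 13) (.e (nat_lit 483363) (nat_lit 18) (.e (nat_lit 57652) (nat_lit 152) .nil))))))) (.g (nat_lit 1) (.e (nat_lit 35177) (nat_lit 0) .nil) .nil))))))) 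
(.nd (nat_lit 6) (.nd (nat_lit 7) (.nd (nat_lit 8) (.nd (nat_lit 9) 
(.lf (nat_lit 453672) (.g (nat_lit 2919) (.e (nat_lit 2630) (nat_lit 164) (.e (nat_lit 172063) (nat_lit 2) (.e (nat_lit 196666) (nat_lit 13) (.e (nat_lit 65617) (nat_lit 10) (.e (nat_lit 344130) (nat_lit 26) (.e (nat_lit 557090) (nat_lit 12) (.e (nat_lit 163844) (nat_lit 0) (.e (nat_lit 6254) (nat_lit 337) .nil)))))))) (.g (nat_lit 1) (.e (nat_lit 30585) (nat_lit 0) .nil) .nil))) 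
(.lf (nat_lit 454184) (.g (nat_lit 1784) (.e (nat_lit 2638) (nat_lit 165) (.e (nat_lit 180278) (nat_lit 32) (.e (nat_lit 1428) (nat_lit 108) (.e (nat_lit 336444) (nat_lit 32) (.e (nat_lit 466971) (nat_lit 21) (.e (nat_lit 164347) (nat_lit 240) .nil)))))) (.g (nat_lit 1) (.e (nat_lit 33931) (nat_lit 0) .nil) .nil)))) (.nd (nat_lit 9) 
(.lf (nat_lit 453928) (.g (nat_lit 2684) (.e (nat_lit 2630) (nat_lit 164) (.e (nat_lit 172118) (nat_lit 12) (.e (nat_lit 475211) (nat_lit 41) (.e (nat_lit 712750) (nat_lit 29) (.e (nat_lit 442430) (nat_lit 24) (.e (nat_lit 229665) (nat_lit 240) .nil)))))) (.g (nat_lit 1) (.e (nat_lit 32222) (nat_lit 0) .nil) .nil))) 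
(.lf (nat_lit 454440) (.g (nat_lit 1836) (.e (nat_lit 2640) (nat_lit 165) (.e (nat_lit 180278) (nat_lit 32) (.e (nat_lit 1661) (nat_lit 115) (.e (nat_lit 393284) (nat_lit 24) (.e (nat_lit 434209) (nat_lit 18) (.e (nat_lit 5547) (nat_lit 306) .nil)))))) (.g (nat_lit 1) (.e (nat_lit 34613) (nat_lit 0) .nil) .nil))))) (.nd (nat_lit 8) (.nd (nat_lit 9) 
(.lf (nat_lit 453800) (.g (nat_lit 2845) (.e (nat_lit 2630) (nat_lit 164) (.e (nat_lit 172066) (nat_lit 3) (.e (nat_lit 204869) (nat_lit 29) (.e (nat_lit 360474) (nat_lit 8) (.e (nat_lit 557094) (nat_lit 12) (.e (nat_lit 163849) (nat_lit 0) (.e (nat_lit 6254) (nat_lit 337) .nil))))))) (.g (nat_lit 1) (.e (nat_lit 30781) (nat_lit 0) .nil) .nil))) 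
(.lf (nat_lit 454312) (.g (nat_lit 2864) (.e (nat_lit 2639) (nat_lit 165) (.e (nat_lit 180278) (nat_lit 32) (.e (nat_lit 1660) (nat_lit 115) (.e (nat_lit 393282) (nat_lit 24) (.e (nat_lit 434209) (nat_lit 18) (.e (nat_lit 5546) (nat_lit 306) .nil)))))) (.g (nat_lit 1) (.e (nat_lit 34219) (nat_lit 0) .nil) .nil)))) (.nd (nat_lit 9) 
(.lf (nat_lit 454056) (.g (nat_lit 2323) (.e (nat_lit 2633) (nat_lit 164) (.e (nat_lit 172133) (nat_lit 15) (.e (nat_lit 1800) (nat_lit 119) (.e (nat_lit 516149) (nat_lit 9) (.e (nat_lit 426323) (nat_lit 13) (.e (nat_lit 483365) (nat_lit 18) (.e (nat_lit 57654) (nat_lit 152) .nil))))))) (.g (nat_lit 1) (.e (nat_lit 33109) (nat_lit 0) .nil) .nil))) 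
(.lf (nat_lit 454568) (.g (nat_lit 4689) (.e (nat_lit 2643) (nat_lit 165) (.e (nat_lit 180243) (nat_lit 5) (.e (nat_lit 532550) (nat_lit 12) (.e (nat_lit 360474) (nat_lit 8) (.e (nat_lit 557093) (nat_lit 12) (.e (nat_lit 163847) (nat_lit 0) (.e (nat_lit 6255) (nat_lit 337) .nil))))))) (.g (nat_lit 1) (.e (nat_lit 35060) (nat_lit 0) .nil) .nil)))))) 
(.nd (nat_lit 7) (.nd (nat_lit 8) (.nd (nat_lit 9) 
(.lf (nat_lit 453736) (.g (nat_lit 3373) (.e (nat_lit 2630) (nat_lit 164) (.e (nat_lit 172064) (nat_lit 2) (.e (nat_lit 196666) (nat_lit 13) (.e (nat_lit 65617) (nat_lit 10) (.e (nat_lit 344133) (nat_lit 26) (.e (nat_lit 557091) (nat_lit 12) (.e (nat_lit 163840) (nat_lit 0) (.e (nat_lit 6255) (nat_lit 337) .nil)))))))) (.g (nat_lit 1) (.e (nat_lit 30664) (nat_lit 0) .nil) .nil))) 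
(.lf (nat_lit 454248) (.g (nat_lit 2880) (.e (nat_lit 2639) (nat_lit 165) (.e (nat_lit 180277) (nat_lit 32) (.e (nat_lit 1427) (nat_lit 108) (.e (nat_lit 336430) (nat_lit 29) (.e (nat_lit 442421) (nat_lit 21) (.e (nat_lit 164345) (nat_lit 240) .nil)))))) (.g (nat_lit 1) (.e (nat_lit 34113) (nat_lit 0) .nil) .nil)))) (.nd (nat_lit 9) 
(.lf (nat_lit 453992) (.g (nat_lit 2077) (.e (nat_lit 2630) (nat_lit 164) (.e (nat_lit 172124) (nat_lit 14) (.e (nat_lit 491550) (nat_lit 9) (.e (nat_lit 336430) (nat_lit 29) (.e (nat_lit 442429) (nat_lit 24) (.e (nat_lit 229665) (nat_lit 240) .nil)))))) (.g (nat_lit 1) (.e (nat_lit 32561) (nat_lit 0) .nil) .nil))) 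
(.lf (nat_lit 454504) (.g (nat_lit 1074) (.e (nat_lit 2641) (nat_lit 165) (.e (nat_lit 180277) (nat_lit 32) (.e (nat_lit 1428) (nat_lit 108) (.e (nat_lit 336430) (nat_lit 29) .nil)))) (.g (nat_lit 0) (.e (nat_lit 34793) (nat_lit 0) .nil) .nil))))) (.nd (nat_lit 8) (.nd (nat_lit 9) 
(.lf (nat_lit 453864) (.g (nat_lit 2278) (.e (nat_lit 2630) (nat_lit 164) (.e (nat_lit 172067) (nat_lit 3) (.e (nat_lit 204869) (nat_lit 29) (.e (nat_lit 360474) (nat_lit 8) (.e (nat_lit 557094) (nat_lit 12) .nil))))) (.g (nat_lit 0) (.e (nat_lit 30908) (nat_lit 0) .nil) .nil))) 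
(.lf (nat_lit 454376) (.g (nat_lit 1145) (.e (nat_lit 2640) (nat_lit 165) (.e (nat_lit 180277) (nat_lit 32) (.e (nat_lit 1661) (nat_lit 115) (.e (nat_lit 393269) (nat_lit 23) .nil)))) (.g (nat_lit 0) (.e (nat_lit 34535) (nat_lit 0) .nil) .nil)))) (.nd (nat_lit 9) 
(.lf (nat_lit 454120) (.g (nat_lit 2717) (.e (nat_lit 2638) (nat_lit 165) (.e (nat_lit 180277) (nat_lit 32) (.e (nat_lit 1428) (nat_lit 108) (.e (nat_lit 336430) (nat_lit 29) (.e (nat_lit 442419) (nat_lit 21) (.e (nat_lit 164345) (nat_lit 240) .nil)))))) (.g (nat_lit 1) (.e (nat_lit 33819) (nat_lit 0) .nil) .nil))) 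
(.lf (nat_lit 454632) (.g (nat_lit 2035) (.e (nat_lit 2645) (nat_lit 166) (.e (nat_lit 188418) (nat_lit 0) (.e (nat_lit 1856) (nat_lit 124) (.e (nat_lit 557109) (nat_lit 15) (.e (nat_lit 188455) (nat_lit 24) .nil))))) (.g (nat_lit 0) (.e (nat_lit 35606) (nat_lit 0) .nil) .nil)))))))) (.nd (nat_lit 5) (.nd (nat_lit 6) (.nd (nat_lit 7) (.nd (nat_lit 8) (.nd (nat_lit 9) 
(.lf (nat_lit 453656) (.g (nat_lit 3495) (.e (nat_lit 2630) (nat_lit 164) (.e (nat_lit 172062) (nat_lit 2) (.e (nat_lit 196666) (nat_lit 13) (.e (nat_lit 65617) (nat_lit 10) (.e (nat_lit 344132) (nat_lit 26) (.e (nat_lit 557093) (nat_lit 12) (.e (nat_lit 163847) (nat_lit 0) (.e (nat_lit 6255) (nat_lit 337) .nil)))))))) (.g (nat_lit 1) (.e (nat_lit 30569) (nat_lit 0) .nil) .nil))) 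
(.lf (nat_lit 454168) (.g (nat_lit 3210) (.e (nat_lit 2638) (nat_lit 165) (.e (nat_lit 180278) (nat_lit 32) (.e (nat_lit 1426) (nat_lit 108) (.e (nat_lit 336430) (nat_lit 29) (.e (nat_lit 442421) (nat_lit 21) (.e (nat_lit 164348) (nat_lit 240) .nil)))))) (.g (nat_lit 1) (.e (nat_lit 33902) (nat_lit 0) .nil) .nil)))) (.nd (nat_lit 9) 
(.lf (nat_lit 453912) (.g (nat_lit 1346) (.e (nat_lit 2630) (nat_lit 164) (.e (nat_lit 172113) (nat_lit 10) (.e (nat_lit 434270) (nat_lit 38) (.e (nat_lit 655380) (nat_lit 6) (.e (nat_lit 188453) (nat_lit 24) (.e (nat_lit 229666) (nat_lit 240) .nil)))))) (.g (nat_lit 1) (.e (nat_lit 32099) (nat_lit 0) .nil) .nil))) 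
(.lf (nat_lit 454424) (.g (nat_lit 1529) (.e (nat_lit 2640) (nat_lit 165) (.e (nat_lit 180278) (nat_lit 32) (.e (nat_lit 1660) (nat_lit 115) (.e (nat_lit 393275) (nat_lit 23) (.e (nat_lit 426109) (nat_lit 1) (.e (nat_lit 164347) (nat_lit 240) .nil)))))) (.g (nat_lit 1) (.e (nat_lit 34593) (nat_lit 0) .nil) .nil))))) (.nd (nat_lit 8) (.nd (nat_lit 9) 
(.lf (nat_lit 453784) (.g (nat_lit 2608) (.e (nat_lit 2630) (nat_lit 164) (.e (nat_lit 172065) (nat_lit 3) (.e (nat_lit 204869) (nat_lit 29) (.e (nat_lit 360475) (nat_lit 8) (.e (nat_lit 557091) (nat_lit 12) (.e (nat_lit 163841) (nat_lit 0) (.e (nat_lit 6255) (nat_lit 337) .nil))))))) (.g (nat_lit 1) (.e (nat_lit 30765) (nat_lit 0) .nil) .nil))) 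
(.lf (nat_lit 454296) (.g (nat_lit 1301) (.e (nat_lit 2639) (nat_lit 165) (.e (nat_lit 180278) (nat_lit 32) (.e (nat_lit 1659) (nat_lit 115) (.e (nat_lit 393278) (nat_lit 23) .nil)))) (.g (nat_lit 0) (.e (nat_lit 34201) (nat_lit 0) .nil) .nil)))) (.nd (nat_lit 9) 
(.lf (nat_lit 454040) (.g (nat_lit 2331) (.e (nat_lit 2632) (nat_lit 164) (.e (nat_lit 172064) (nat_lit 2) (.e (nat_lit 196666) (nat_lit 13) (.e (nat_lit 65617) (nat_lit 10) (.e (nat_lit 344130) (nat_lit 26) .nil))))) (.g (nat_lit 0) (.e (nat_lit 32984) (nat_lit 0) .nil) .nil))) 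
(.lf (nat_lit 454552) (.g (nat_lit 2589) (.e (nat_lit 2643) (nat_lit 165) (.e (nat_lit 180243) (nat_lit 5) (.e (nat_lit 532549) (nat_lit 12) (.e (nat_lit 360474) (nat_lit 8) (.e (nat_lit 557093) (nat_lit 12) (.e (nat_lit 163847) (nat_lit 0) (.e (nat_lit 6255) (nat_lit 337) .nil))))))) (.g (nat_lit 1) (.e (nat_lit 35038) (nat_lit 0) .nil) .nil)))))) 
(.nd (nat_lit 7) (.nd (nat_lit 8) (.nd (nat_lit 9) 
(.lf (nat_lit 453720) (.g (nat_lit 3298) (.e (nat_lit 2630) (nat_lit 164) (.e (nat_lit 172064) (nat_lit 2) (.e (nat_lit 196666) (nat_lit 13) (.e (nat_lit 65617) (nat_lit 10) (.e (nat_lit 344132) (nat_lit 26) (.e (nat_lit 557093) (nat_lit 12) (.e (nat_lit 163848) (nat_lit 0) (.e (nat_lit 6255) (nat_lit 337) .nil)))))))) (.g (nat_lit 1) (.e (nat_lit 30648) (nat_lit 0) .nil) .nil))) 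
(.lf (nat_lit 454232) (.g (nat_lit 2201) (.e (nat_lit 2639) (nat_lit 165) (.e (nat_lit 180252) (nat_lit 10) (.e (nat_lit 573451) (nat_lit 9) (.e (nat_lit 1667) (nat_lit 116) .nil)))) (.g (nat_lit 0) (.e (nat_lit 34062) (nat_lit 0) .nil) .nil)))) (.nd (nat_lit 9) 
(.lf (nat_lit 453976) (.g (nat_lit 2441) (.e (nat_lit 2630) (nat_lit 164) (.e (nat_lit 172124) (nat_lit 14) (.e (nat_lit 491549) (nat_lit 9) (.e (nat_lit 336430) (nat_lit 29) (.e (nat_lit 442428) (nat_lit 24) (.e (nat_lit 229664) (nat_lit 240) .nil)))))) (.g (nat_lit 1) (.e (nat_lit 32543) (nat_lit 0) .nil) .nil))) 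
(.lf (nat_lit 454488) (.g (nat_lit 4424) (.e (nat_lit 2641) (nat_lit 165) (.e (nat_lit 180244) (nat_lit 5) (.e (nat_lit 532550) (nat_lit 12) (.e (nat_lit 360475) (nat_lit 8) (.e (nat_lit 557091) (nat_lit 12) (.e (nat_lit 163849) (nat_lit 0) (.e (nat_lit 6255) (nat_lit 337) .nil))))))) (.g (nat_lit 1) (.e (nat_lit 34702) (nat_lit 0) .nil) .nil))))) (.nd (nat_lit 8) (.nd (nat_lit 9) 
(.lf (nat_lit 453848) (.g (nat_lit 4920) (.e (nat_lit 2630) (nat_lit 164) (.e (nat_lit 172067) (nat_lit 3) (.e (nat_lit 204868) (nat_lit 29) (.e (nat_lit 360475) (nat_lit 8) (.e (nat_lit 557089) (nat_lit 12) (.e (nat_lit 163844) (nat_lit 0) (.e (nat_lit 6254) (nat_lit 337) .nil))))))) (.g (nat_lit 1) (.e (nat_lit 30888) (nat_lit 0) .nil) .nil))) 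
(.lf (nat_lit 454360) (.g (nat_lit 325) (.e (nat_lit 2640) (nat_lit 165) (.e (nat_lit 180277) (nat_lit 32) (.e (nat_lit 1660) (nat_lit 115) .nil))) (.g (nat_lit 0) (.e (nat_lit 34512) (nat_lit 0) .nil) .nil)))) (.nd (nat_lit 9) 
(.lf (nat_lit 454104) (.g (nat_lit 2277) (.e (nat_lit 2638) (nat_lit 165) (.e (nat_lit 180277) (nat_lit 32) (.e (nat_lit 1253) (nat_lit 92) (.e (nat_lit 98373) (nat_lit 29) (.e (nat_lit 458496) (nat_lit 0) (.e (nat_lit 3991) (nat_lit 239) .nil)))))) (.g (nat_lit 1) (.e (nat_lit 33798) (nat_lit 0) .nil) .nil))) 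
(.lf (nat_lit 454616) (.g (nat_lit 2619) (.e (nat_lit 2643) (nat_lit 165) (.e (nat_lit 180277) (nat_lit 32) (.e (nat_lit 1426) (nat_lit 108) (.e (nat_lit 336430) (nat_lit 29) (.e (nat_lit 442430) (nat_lit 24) (.e (nat_lit 229665) (nat_lit 240) .nil)))))) (.g (nat_lit 1) (.e (nat_lit 35311) (nat_lit 0) .nil) .nil))))))) (.nd (nat_lit 6) (.nd (nat_lit 7) (.nd (nat_lit 8) (.nd (nat_lit 9) 
(.lf (nat_lit 453688) (.g (nat_lit 4938) (.e (nat_lit 2630) (nat_lit 164) (.e (nat_lit 172064) (nat_lit 2) (.e (nat_lit 196666) (nat_lit 13) (.e (nat_lit 65610) (nat_lit 10) (.e (nat_lit 344129) (nat_lit 26) (.e (nat_lit 557089) (nat_lit 12) (.e (nat_lit 163843) (nat_lit 0) (.e (nat_lit 6255) (nat_lit 337) .nil)))))))) (.g (nat_lit 1) (.e (nat_lit 30616) (nat_lit 0) .nil) .nil))) 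
(.lf (nat_lit 454200) (.g (nat_lit 1860) (.e (nat_lit 2638) (nat_lit 165) (.e (nat_lit 180278) (nat_lit 32) (.e (nat_lit 1660) (nat_lit 115) (.e (nat_lit 393271) (nat_lit 23) (.e (nat_lit 426111) (nat_lit 1) .nil))))) (.g (nat_lit 0) (.e (nat_lit 33952) (nat_lit 0) .nil) .nil)))) (.nd (nat_lit 9) 
(.lf (nat_lit 453944) (.g (nat_lit 3081) (.e (nat_lit 2630) (nat_lit 164) (.e (nat_lit 172120) (nat_lit 12) (.e (nat_lit 475198) (nat_lit 40) (.e (nat_lit 704599) (nat_lit 6) (.e (nat_lit 188453) (nat_lit 24) (.e (nat_lit 229666) (nat_lit 240) .nil)))))) (.g (nat_lit 1) (.e (nat_lit 32242) (nat_lit 0) .nil) .nil))) 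
(.lf (nat_lit 454456) (.g (nat_lit 4216) (.e (nat_lit 2641) (nat_lit 165) (.e (nat_lit 180244) (nat_lit 5) (.e (nat_lit 532550) (nat_lit 12) (.e (nat_lit 360474) (nat_lit 8) (.e (nat_lit 557093) (nat_lit 12) (.e (nat_lit 163847) (nat_lit 0) (.e (nat_lit 6252) (nat_lit 337) .nil))))))) (.g (nat_lit 1) (.e (nat_lit 34670) (nat_lit 0) .nil) .nil))))) (.nd (nat_lit 8) (.nd (nat_lit 9) 
(.lf (nat_lit 453816) (.g (nat_lit 4153) (.e (nat_lit 2630) (nat_lit 164) (.e (nat_lit 172066) (nat_lit 3) (.e (nat_lit 204869) (nat_lit 29) (.e (nat_lit 360475) (nat_lit 8) (.e (nat_lit 557091) (nat_lit 12) (.e (nat_lit 163844) (nat_lit 0) (.e (nat_lit 6252) (nat_lit 337) .nil))))))) (.g (nat_lit 1) (.e (nat_lit 30797) (nat_lit 0) .nil) .nil))) 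
(.lf (nat_lit 454328) (.g (nat_lit 301) (.e (nat_lit 2640) (nat_lit 165) (.e (nat_lit 180277) (nat_lit 32) (.e (nat_lit 1427) (nat_lit 108) .nil))) (.g (nat_lit 0) (.e (nat_lit 34476) (nat_lit 0) .nil) .nil)))) (.nd (nat_lit 9) 
(.lf (nat_lit 454072) (.g (nat_lit 3007) (.e (nat_lit 2636) (nat_lit 165) (.e (nat_lit 180243) (nat_lit 5) (.e (nat_lit 532550) (nat_lit 12) (.e (nat_lit 360472) (nat_lit 8) (.e (nat_lit 557090) (nat_lit 12) .nil))))) (.g (nat_lit 0) (.e (nat_lit 33253) (nat_lit 0) .nil) .nil))) 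
(.lf (nat_lit 454584) (.g (nat_lit 3676) (.e (nat_lit 2643) (nat_lit 165) (.e (nat_lit 180243) (nat_lit 5) (.e (nat_lit 532550) (nat_lit 12) (.e (nat_lit 360475) (nat_lit 8) (.e (nat_lit 557091) (nat_lit 12) (.e (nat_lit 163843) (nat_lit 0) (.e (nat_lit 6250) (nat_lit 337) .nil))))))) (.g (nat_lit 1) (.e (nat_lit 35076) (nat_lit 0) .nil) .nil)))))) 
(.nd (nat_lit 7) (.nd (nat_lit 8) (.nd (nat_lit 9) 
(.lf (nat_lit 453752) (.g (nat_lit 3941) (.e (nat_lit 2630) (nat_lit 164) (.e (nat_lit 172065) (nat_lit 3) (.e (nat_lit 204868) (nat_lit 29) (.e (nat_lit 360473) (nat_lit 8) (.e (nat_lit 557091) (nat_lit 12) (.e (nat_lit 163843) (nat_lit 0) (.e (nat_lit 6254) (nat_lit 337) .nil))))))) (.g (nat_lit 1) (.e (nat_lit 30728) (nat_lit 0) .nil) .nil))) 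
(.lf (nat_lit 454264) (.g (nat_lit 2601) (.e (nat_lit 2639) (nat_lit 165) (.e (nat_lit 180277) (nat_lit 32) (.e (nat_lit 1659) (nat_lit 115) (.e (nat_lit 393281) (nat_lit 23) (.e (nat_lit 426100) (nat_lit 1) (.e (nat_lit 164345) (nat_lit 240) .nil)))))) (.g (nat_lit 1) (.e (nat_lit 34133) (nat_lit 0) .nil) .nil)))) (.nd (nat_lit 9) 
(.lf (nat_lit 454008) (.g (nat_lit 2776) (.e (nat_lit 2630) (nat_lit 164) (.e (nat_lit 172126) (nat_lit 14) (.e (nat_lit 491549) (nat_lit 9) (.e (nat_lit 336428) (nat_lit 29) (.e (nat_lit 442428) (nat_lit 24) .nil))))) (.g (nat_lit 0) (.e (nat_lit 32723) (nat_lit 0) .nil) .nil))) 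
(.lf (nat_lit 454520) (.g (nat_lit 2122) (.e (nat_lit 2641) (nat_lit 165) (.e (nat_lit 180278) (nat_lit 32) (.e (nat_lit 1425) (nat_lit 108) (.e (nat_lit 336430) (nat_lit 29) (.e (nat_lit 442430) (nat_lit 24) (.e (nat_lit 229666) (nat_lit 240) .nil)))))) (.g (nat_lit 1) (.e (nat_lit 34813) (nat_lit 0) .nil) .nil))))) (.nd (nat_lit 8) (.nd (nat_lit 9) 
(.lf (nat_lit 453880) (.g (nat_lit 2953) (.e (nat_lit 2630) (nat_lit 164) (.e (nat_lit 172067) (nat_lit 3) (.e (nat_lit 204869) (nat_lit 29) (.e (nat_lit 360475) (nat_lit 8) (.e (nat_lit 557091) (nat_lit 12) (.e (nat_lit 163840) (nat_lit 0) (.e (nat_lit 6255) (nat_lit 337) .nil))))))) (.g (nat_lit 1) (.e (nat_lit 30924) (nat_lit 0) .nil) .nil))) 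
(.lf (nat_lit 454392) (.g (nat_lit 2624) (.e (nat_lit 2640) (nat_lit 165) (.e (nat_lit 180278) (nat_lit 32) (.e (nat_lit 1427) (nat_lit 108) (.e (nat_lit 336443) (nat_lit 32) (.e (nat_lit 466969) (nat_lit 21) (.e (nat_lit 164345) (nat_lit 240) .nil)))))) (.g (nat_lit 1) (.e (nat_lit 34559) (nat_lit 0) .nil) .nil)))) (.nd (nat_lit 9) 
(.lf (nat_lit 454136) (.g (nat_lit 2101) (.e (nat_lit 2638) (nat_lit 165) (.e (nat_lit 180277) (nat_lit 32) (.e (nat_lit 1659) (nat_lit 115) (.e (nat_lit 393271) (nat_lit 23) (.e (nat_lit 426112) (nat_lit 1) (.e (nat_lit 164347) (nat_lit 240) .nil)))))) (.g (nat_lit 1) (.e (nat_lit 33835) (nat_lit 0) .nil) .nil))) 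
(.lf (nat_lit 454648) (.g (nat_lit 1930) (.e (nat_lit 2646) (nat_lit 166) (.e (nat_lit 188418) (nat_lit 0) (.e (nat_lit 2175) (nat_lit 143) (.e (nat_lit 712755) (nat_lit 30) (.e (nat_lit 450563) (nat_lit 0) (.e (nat_lit 7936) (nat_lit 306) .nil)))))) (.g (nat_lit 1) (.e (nat_lit 35833) (nat_lit 0) .nil) .nil)))))))))) 
(.nd (nat_lit 3) (.nd (nat_lit 4) (.nd (nat_lit 5) (.nd (nat_lit 6) (.nd (nat_lit 7) 
(.nd (nat_lit 8) (.nd (nat_lit 9) 
(.lf (nat_lit 453636) (.g (nat_lit 4102) (.e (nat_lit 2630) (nat_lit 164) (.e (nat_lit 172062) (nat_lit 2) (.e (nat_lit 196666) (nat_lit 13) (.e (nat_lit 65610) (nat_lit 10) (.e (nat_lit 344129) (nat_lit 26) (.e (nat_lit 557090) (nat_lit 12) (.e (nat_lit 163848) (nat_lit 0) (.e (nat_lit 6252) (nat_lit 337) .nil)))))))) (.g (nat_lit 1) (.e (nat_lit 30549) (nat_lit 0) .nil) .nil))) 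
(.lf (nat_lit 454148) (.g (nat_lit 1724) (.e (nat_lit 2638) (nat_lit 165) (.e (nat_lit 180277) (nat_lit 32) (.e (nat_lit 1660) (nat_lit 115) (.e (nat_lit 393281) (nat_lit 23) (.e (nat_lit 426098) (nat_lit 1) (.e (nat_lit 164345) (nat_lit 240) .nil)))))) (.g (nat_lit 1) (.e (nat_lit 33851) (nat_lit 0) .nil) .nil)))) (.nd (nat_lit 9) 
(.lf (nat_lit 453892) (.g (nat_lit 2546) (.e (nat_lit 2630) (nat_lit 164) (.e (nat_lit 172082) (nat_lit 7) (.e (nat_lit 409617) (nat_lit 10) (.e (nat_lit 632) (nat_lit 50) (.e (nat_lit 573482) (nat_lit 13) (.e (nat_lit 65619) (nat_lit 10) (.e (nat_lit 344090) (nat_lit 18) (.e (nat_lit 7607) (nat_lit 410) .nil)))))))) (.g (nat_lit 1) (.e (nat_lit 31196) (nat_lit 0) .nil) .nil))) 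
(.lf (nat_lit 454404) (.g (nat_lit 2144) (.e (nat_lit 2640) (nat_lit 165) (.e (nat_lit 180278) (nat_lit 32) (.e (nat_lit 1428) (nat_lit 108) (.e (nat_lit 336443) (nat_lit 32) (.e (nat_lit 466971) (nat_lit 21) (.e (nat_lit 164347) (nat_lit 240) .nil)))))) (.g (nat_lit 1) (.e (nat_lit 34572) (nat_lit 0) .nil) .nil))))) (.nd (nat_lit 8) (.nd (nat_lit 9) 
(.lf (nat_lit 453764) (.g (nat_lit 4006) (.e (nat_lit 2630) (nat_lit 164) (.e (nat_lit 172065) (nat_lit 3) (.e (nat_lit 204868) (nat_lit 29) (.e (nat_lit 360475) (nat_lit 8) (.e (nat_lit 557091) (nat_lit 12) (.e (nat_lit 163847) (nat_lit 0) (.e (nat_lit 6255) (nat_lit 337) .nil))))))) (.g (nat_lit 1) (.e (nat_lit 30745) (nat_lit 0) .nil) .nil))) 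
(.lf (nat_lit 454276) (.g (nat_lit 2089) (.e (nat_lit 2639) (nat_lit 165) (.e (nat_lit 180278) (nat_lit 32) (.e (nat_lit 1426) (nat_lit 108) (.e (nat_lit 336430) (nat_lit 29) (.e (nat_lit 442421) (nat_lit 21) (.e (nat_lit 164345) (nat_lit 240) .nil)))))) (.g (nat_lit 1) (.e (nat_lit 34176) (nat_lit 0) .nil) .nil)))) (.nd (nat_lit 9) 
(.lf (nat_lit 454020) (.g (nat_lit 2229) (.e (nat_lit 2630) (nat_lit 164) (.e (nat_lit 172126) (nat_lit 14) (.e (nat_lit 491549) (nat_lit 9) (.e (nat_lit 336434) (nat_lit 30) (.e (nat_lit 450568) (nat_lit 0) (.e (nat_lit 5446) (nat_lit 306) .nil)))))) (.g (nat_lit 1) (.e (nat_lit 32735) (nat_lit 0) .nil) .nil))) 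
(.lf (nat_lit 454532) (.g (nat_lit 2526) (.e (nat_lit 2642) (nat_lit 165) (.e (nat_lit 180252) (nat_lit 10) (.e (nat_lit 573451) (nat_lit 9) (.e (nat_lit 1667) (nat_lit 116) .nil)))) (.g (nat_lit 0) (.e (nat_lit 34924) (nat_lit 0) .nil) .nil)))))) (.nd (nat_lit 7) (.nd (nat_lit 8) (.nd (nat_lit 9) 
(.lf (nat_lit 453700) (.g (nat_lit 2205) (.e (nat_lit 2630) (nat_lit 164) (.e (nat_lit 172064) (nat_lit 2) (.e (nat_lit 196666) (nat_lit 13) (.e (nat_lit 65617) (nat_lit 10) (.e (nat_lit 344127) (nat_lit 26) (.e (nat_lit 557089) (nat_lit 12) (.e (nat_lit 163844) (nat_lit 0) (.e (nat_lit 6255) (nat_lit 337) .nil)))))))) (.g (nat_lit 1) (.e (nat_lit 30628) (nat_lit 0) .nil) .nil))) 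
(.lf (nat_lit 454212) (.g (nat_lit 400) (.e (nat_lit 2638) (nat_lit 165) (.e (nat_lit 180278) (nat_lit 32) (.e (nat_lit 1661) (nat_lit 115) .nil))) (.g (nat_lit 0) (.e (nat_lit 33964) (nat_lit 0) .nil) .nil)))) (.nd (nat_lit 9) 
(.lf (nat_lit 453956) (.g (nat_lit 3542) (.e (nat_lit 2630) (nat_lit 164) (.e (nat_lit 172120) (nat_lit 12) (.e (nat_lit 475210) (nat_lit 41) (.e (nat_lit 712752) (nat_lit 29) (.e (nat_lit 442430) (nat_lit 24) (.e (nat_lit 229664) (nat_lit 240) .nil)))))) (.g (nat_lit 1) (.e (nat_lit 32265) (nat_lit 0) .nil) .nil))) 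
(.lf (nat_lit 454468) (.g (nat_lit 3859) (.e (nat_lit 2641) (nat_lit 165) (.e (nat_lit 180244) (nat_lit 5) (.e (nat_lit 532550) (nat_lit 12) (.e (nat_lit 360474) (nat_lit 8) (.e (nat_lit 557094) (nat_lit 12) (.e (nat_lit 163849) (nat_lit 0) (.e (nat_lit 6254) (nat_lit 337) .nil))))))) (.g (nat_lit 1) (.e (nat_lit 34682) (nat_lit 0) .nil) .nil))))) (.nd (nat_lit 8) (.nd (nat_lit 9) 
(.lf (nat_lit 453828) (.g (nat_lit 4189) (.e (nat_lit 2630) (nat_lit 164) (.e (nat_lit 172067) (nat_lit 3) (.e (nat_lit 204868) (nat_lit 29) (.e (nat_lit 360473) (nat_lit 8) (.e (nat_lit 557089) (nat_lit 12) (.e (nat_lit 163844) (nat_lit 0) (.e (nat_lit 6254) (nat_lit 337) .nil))))))) (.g (nat_lit 1) (.e (nat_lit 30858) (nat_lit 0) .nil) .nil))) 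
(.lf (nat_lit 454340) (.g (nat_lit 2477) (.e (nat_lit 2640) (nat_lit 165) (.e (nat_lit 180277) (nat_lit 32) (.e (nat_lit 1428) (nat_lit 108) (.e (nat_lit 336430) (nat_lit 29) (.e (nat_lit 442421) (nat_lit 21) (.e (nat_lit 164345) (nat_lit 240) .nil)))))) (.g (nat_lit 1) (.e (nat_lit 34491) (nat_lit 0) .nil) .nil)))) (.nd (nat_lit 9) 
(.lf (nat_lit 454084) (.g (nat_lit 1674) (.e (nat_lit 2636) (nat_lit 165) (.e (nat_lit 188160) (nat_lit 27) (.e (nat_lit 712753) (nat_lit 30) (.e (nat_lit 450579) (nat_lit 5) (.e (nat_lit 532501) (nat_lit 1) (.e (nat_lit 57651) (nat_lit 152) .nil)))))) (.g (nat_lit 1) (.e (nat_lit 33488) (nat_lit 0) .nil) .nil))) 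
(.lf (nat_lit 454596) (.g (nat_lit 4067) (.e (nat_lit 2643) (nat_lit 165) (.e (nat_lit 180246) (nat_lit 6) (.e (nat_lit 540706) (nat_lit 12) (.e (nat_lit 360475) (nat_lit 8) (.e (nat_lit 557091) (nat_lit 12) (.e (nat_lit 163844) (nat_lit 0) (.e (nat_lit 6255) (nat_lit 337) .nil))))))) (.g (nat_lit 1) (.e (nat_lit 35108) (nat_lit 0) .nil) .nil))))))) 
(.nd (nat_lit 6) (.nd (nat_lit 7) (.nd (nat_lit 8) (.nd (nat_lit 9) 
(.lf (nat_lit 453668) (.g (nat_lit 2574) (.e (nat_lit 2630) (nat_lit 164) (.e (nat_lit 172063) (nat_lit 2) (.e (nat_lit 196666) (nat_lit 13) (.e (nat_lit 65617) (nat_lit 10) (.e (nat_lit 344130) (nat_lit 26) (.e (nat_lit 557089) (nat_lit 12) (.e (nat_lit 163843) (nat_lit 0) (.e (nat_lit 6255) (nat_lit 337) .nil)))))))) (.g (nat_lit 1) (.e (nat_lit 30581) (nat_lit 0) .nil) .nil))) 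
(.lf (nat_lit 454180) (.g (nat_lit 2397) (.e (nat_lit 2638) (nat_lit 165) (.e (nat_lit 180278) (nat_lit 32) (.e (nat_lit 1428) (nat_lit 108) (.e (nat_lit 336443) (nat_lit 32) (.e (nat_lit 466971) (nat_lit 21) (.e (nat_lit 164346) (nat_lit 240) .nil)))))) (.g (nat_lit 1) (.e (nat_lit 33927) (nat_lit 0) .nil) .nil)))) (.nd (nat_lit 9) 
(.lf (nat_lit 453924) (.g (nat_lit 3261) (.e (nat_lit 2630) (nat_lit 164) (.e (nat_lit 172118) (nat_lit 12) (.e (nat_lit 475210) (nat_lit 41) (.e (nat_lit 712752) (nat_lit 29) (.e (nat_lit 442430) (nat_lit 24) (.e (nat_lit 229665) (nat_lit 240) .nil)))))) (.g (nat_lit 1) (.e (nat_lit 32216) (nat_lit 0) .nil) .nil))) 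
(.lf (nat_lit 454436) (.g (nat_lit 1325) (.e (nat_lit 2640) (nat_lit 165) (.e (nat_lit 180278) (nat_lit 32) (.e (nat_lit 1661) (nat_lit 115) (.e (nat_lit 393277) (nat_lit 23) .nil)))) (.g (nat_lit 0) (.e (nat_lit 34608) (nat_lit 0) .nil) .nil))))) (.nd (nat_lit 8) (.nd (nat_lit 9) 
(.lf (nat_lit 453796) (.g (nat_lit 2274) (.e (nat_lit 2630) (nat_lit 164) (.e (nat_lit 172066) (nat_lit 3) (.e (nat_lit 204869) (nat_lit 29) (.e (nat_lit 360474) (nat_lit 8) (.e (nat_lit 557093) (nat_lit 12) (.e (nat_lit 163847) (nat_lit 0) (.e (nat_lit 6254) (nat_lit 337) .nil))))))) (.g (nat_lit 1) (.e (nat_lit 30777) (nat_lit 0) .nil) .nil))) 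
(.lf (nat_lit 454308) (.g (nat_lit 2071) (.e (nat_lit 2639) (nat_lit 165) (.e (nat_lit 180278) (nat_lit 32) (.e (nat_lit 1660) (nat_lit 115) (.e (nat_lit 393281) (nat_lit 23) (.e (nat_lit 426099) (nat_lit 1) (.e (nat_lit 164345) (nat_lit 240) .nil)))))) (.g (nat_lit 1) (.e (nat_lit 34215) (nat_lit 0) .nil) .nil)))) (.nd (nat_lit 9) 
(.lf (nat_lit 454052) (.g (nat_lit 1852) (.e (nat_lit 2633) (nat_lit 164) (.e (nat_lit 172066) (nat_lit 3) (.e (nat_lit 204869) (nat_lit 29) (.e (nat_lit 360474) (nat_lit 8) (.e (nat_lit 557094) (nat_lit 12) .nil))))) (.g (nat_lit 0) (.e (nat_lit 33063) (nat_lit 0) .nil) .nil))) 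
(.lf (nat_lit 454564) (.g (nat_lit 4380) (.e (nat_lit 2643) (nat_lit 165) (.e (nat_lit 180243) (nat_lit 5) (.e (nat_lit 532549) (nat_lit 12) (.e (nat_lit 360475) (nat_lit 8) (.e (nat_lit 557091) (nat_lit 12) (.e (nat_lit 163843) (nat_lit 0) (.e (nat_lit 6254) (nat_lit 337) .nil))))))) (.g (nat_lit 1) (.e (nat_lit 35054) (nat_lit 0) .nil) .nil)))))) 
(.nd (nat_lit 7) (.nd (nat_lit 8) (.nd (nat_lit 9) 
(.lf (nat_lit 453732) (.g (nat_lit 2103) (.e (nat_lit 2630) (nat_lit 164) (.e (nat_lit 172064) (nat_lit 2) (.e (nat_lit 196666) (nat_lit 13) (.e (nat_lit 65617) (nat_lit 10) (.e (nat_lit 344133) (nat_lit 26) (.e (nat_lit 557089) (nat_lit 12) (.e (nat_lit 163848) (nat_lit 0) (.e (nat_lit 6254) (nat_lit 337) .nil)))))))) (.g (nat_lit 1) (.e (nat_lit 30660) (nat_lit 0) .nil) .nil))) 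
(.lf (nat_lit 454244) (.g (nat_lit 1926) (.e (nat_lit 2639) (nat_lit 165) (.e (nat_lit 180277) (nat_lit 32) (.e (nat_lit 1427) (nat_lit 108) (.e (nat_lit 336430) (nat_lit 29) (.e (nat_lit 442419) (nat_lit 21) .nil))))) (.g (nat_lit 0) (.e (nat_lit 34109) (nat_lit 0) .nil) .nil)))) (.nd (nat_lit 9) 
(.lf (nat_lit 453988) (.g (nat_lit 1239) (.e (nat_lit 2630) (nat_lit 164) (.e (nat_lit 172124) (nat_lit 14) (.e (nat_lit 491549) (nat_lit 9) (.e (nat_lit 336443) (nat_lit 32) .nil)))) (.g (nat_lit 0) (.e (nat_lit 32556) (nat_lit 0) .nil) .nil))) 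
(.lf (nat_lit 454500) (.g (nat_lit 2902) (.e (nat_lit 2641) (nat_lit 165) (.e (nat_lit 180277) (nat_lit 32) (.e (nat_lit 1427) (nat_lit 108) (.e (nat_lit 336430) (nat_lit 29) (.e (nat_lit 442429) (nat_lit 24) .nil))))) (.g (nat_lit 0) (.e (nat_lit 34786) (nat_lit 0) .nil) .nil))))) (.nd (nat_lit 8) (.nd (nat_lit 9) 
(.lf (nat_lit 453860) (.g (nat_lit 3575) (.e (nat_lit 2630) (nat_lit 164) (.e (nat_lit 172067) (nat_lit 3) (.e (nat_lit 204869) (nat_lit 29) (.e (nat_lit 360474) (nat_lit 8) (.e (nat_lit 557093) (nat_lit 12) (.e (nat_lit 163847) (nat_lit 0) (.e (nat_lit 6255) (nat_lit 337) .nil))))))) (.g (nat_lit 1) (.e (nat_lit 30904) (nat_lit 0) .nil) .nil))) 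
(.lf (nat_lit 454372) (.g (nat_lit 1785) (.e (nat_lit 2640) (nat_lit 165) (.e (nat_lit 180277) (nat_lit 32) (.e (nat_lit 1660) (nat_lit 115) (.e (nat_lit 393284) (nat_lit 24) (.e (nat_lit 434212) (nat_lit 18) (.e (nat_lit 5548) (nat_lit 306) .nil)))))) (.g (nat_lit 1) (.e (nat_lit 34524) (nat_lit 0) .nil) .nil)))) (.nd (nat_lit 9) 
(.lf (nat_lit 454116) (.g (nat_lit 3464) (.e (nat_lit 2638) (nat_lit 165) (.e (nat_lit 180277) (nat_lit 32) (.e (nat_lit 1427) (nat_lit 108) (.e (nat_lit 336443) (nat_lit 32) (.e (nat_lit 466969) (nat_lit 21) (.e (nat_lit 164347) (nat_lit 240) .nil)))))) (.g (nat_lit 1) (.e (nat_lit 33814) (nat_lit 0) .nil) .nil))) 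
(.lf (nat_lit 454628) (.g (nat_lit 1702) (.e (nat_lit 2643) (nat_lit 165) (.e (nat_lit 180277) (nat_lit 32) (.e (nat_lit 1428) (nat_lit 108) (.e (nat_lit 336430) (nat_lit 29) (.e (nat_lit 442429) (nat_lit 24) .nil))))) (.g (nat_lit 0) (.e (nat_lit 35332) (nat_lit 0) .nil) .nil)))))))) (.nd (nat_lit 5) (.nd (nat_lit 6) (.nd (nat_lit 7) (.nd (nat_lit 8) (.nd (nat_lit 9) 
(.lf (nat_lit 453652) (.g (nat_lit 4770) (.e (nat_lit 2630) (nat_lit 164) (.e (nat_lit 172062) (nat_lit 2) (.e (nat_lit 196666) (nat_lit 13) (.e (nat_lit 65617) (nat_lit 10) (.e (nat_lit 344130) (nat_lit 26) (.e (nat_lit 557090) (nat_lit 12) (.e (nat_lit 163844) (nat_lit 0) (.e (nat_lit 6254) (nat_lit 337) .nil)))))))) (.g (nat_lit 1) (.e (nat_lit 30565) (nat_lit 0) .nil) .nil))) 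
(.lf (nat_lit 454164) (.g (nat_lit 2291) (.e (nat_lit 2638) (nat_lit 165) (.e (nat_lit 180278) (nat_lit 32) (.e (nat_lit 1253) (nat_lit 92) (.e (nat_lit 98373) (nat_lit 29) (.e (nat_lit 458496) (nat_lit 0) (.e (nat_lit 3991) (nat_lit 239) .nil)))))) (.g (nat_lit 1) (.e (nat_lit 33898) (nat_lit 0) .nil) .nil)))) (.nd (nat_lit 9) 
(.lf (nat_lit 453908) (.g (nat_lit 3141) (.e (nat_lit 2630) (nat_lit 164) (.e (nat_lit 172106) (nat_lit 10) (.e (nat_lit 434272) (nat_lit 38) (.e (nat_lit 655380) (nat_lit 6) (.e (nat_lit 188455) (nat_lit 24) (.e (nat_lit 229664) (nat_lit 240) .nil)))))) (.g (nat_lit 1) (.e (nat_lit 31873) (nat_lit 0) .nil) .nil))) 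
(.lf (nat_lit 454420) (.g (nat_lit 421) (.e (nat_lit 2640) (nat_lit 165) (.e (nat_lit 180278) (nat_lit 32) (.e (nat_lit 1660) (nat_lit 115) .nil))) (.g (nat_lit 0) (.e (nat_lit 34589) (nat_lit 0) .nil) .nil))))) (.nd (nat_lit 8) (.nd (nat_lit 9) 
(.lf (nat_lit 453780) (.g (nat_lit 2373) (.e (nat_lit 2630) (nat_lit 164) (.e (nat_lit 172065) (nat_lit 3) (.e (nat_lit 204869) (nat_lit 29) (.e (nat_lit 360475) (nat_lit 8) (.e (nat_lit 557091) (nat_lit 12) .nil))))) (.g (nat_lit 0) (.e (nat_lit 30761) (nat_lit 0) .nil) .nil))) 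
(.lf (nat_lit 454292) (.g (nat_lit 1337) (.e (nat_lit 2639) (nat_lit 165) (.e (nat_lit 180278) (nat_lit 32) (.e (nat_lit 1658) (nat_lit 115) (.e (nat_lit 393281) (nat_lit 23) (.e (nat_lit 426099) (nat_lit 1) .nil))))) (.g (nat_lit 0) (.e (nat_lit 34197) (nat_lit 0) .nil) .nil)))) (.nd (nat_lit 9) 
(.lf (nat_lit 454036) (.g (nat_lit 2400) (.e (nat_lit 2630) (nat_lit 164) (.e (nat_lit 172138) (nat_lit 15) (.e (nat_lit 2059) (nat_lit 142) (.e (nat_lit 704595) (nat_lit 5) (.e (nat_lit 188160) (nat_lit 37) (.e (nat_lit 73729) (nat_lit 0) (.e (nat_lit 6850) (nat_lit 371) .nil))))))) (.g (nat_lit 1) (.e (nat_lit 32930) (nat_lit 0) .nil) .nil))) 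
(.lf (nat_lit 454548) (.g (nat_lit 3258) (.e (nat_lit 2643) (nat_lit 165) (.e (nat_lit 180243) (nat_lit 5) (.e (nat_lit 532549) (nat_lit 12) (.e (nat_lit 360473) (nat_lit 8) (.e (nat_lit 557093) (nat_lit 12) (.e (nat_lit 163847) (nat_lit 0) (.e (nat_lit 6255) (nat_lit 337) .nil))))))) (.g (nat_lit 1) (.e (nat_lit 35031) (nat_lit 0) .nil) .nil)))))) 
(.nd (nat_lit 7) (.nd (nat_lit 8) (.nd (nat_lit 9) 
(.lf (nat_lit 453716) (.g (nat_lit 5084) (.e (nat_lit 2630) (nat_lit 164) (.e (nat_lit 172064) (nat_lit 2) (.e (nat_lit 196666) (nat_lit 13) (.e (nat_lit 65617) (nat_lit 10) (.e (nat_lit 344130) (nat_lit 26) (.e (nat_lit 557090) (nat_lit 12) (.e (nat_lit 163844) (nat_lit 0) (.e (nat_lit 6254) (nat_lit 337) .nil)))))))) (.g (nat_lit 1) (.e (nat_lit 30644) (nat_lit 0) .nil) .nil))) 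
(.lf (nat_lit 454228) (.g (nat_lit 1371) (.e (nat_lit 2638) (nat_lit 165) (.e (nat_lit 188160) (nat_lit 32) (.e (nat_lit 1256) (nat_lit 92) (.e (nat_lit 98370) (nat_lit 28) (.e (nat_lit 442380) (nat_lit 6) (.e (nat_lit 123028) (nat_lit 128) .nil)))))) (.g (nat_lit 1) (.e (nat_lit 34008) (nat_lit 0) .nil) .nil)))) (.nd (nat_lit 9) 
(.lf (nat_lit 453972) (.g (nat_lit 2558) (.e (nat_lit 2630) (nat_lit 164) (.e (nat_lit 172120) (nat_lit 12) (.e (nat_lit 475211) (nat_lit 41) (.e (nat_lit 712755) (nat_lit 30) (.e (nat_lit 450567) (nat_lit 0) (.e (nat_lit 5443) (nat_lit 306) .nil)))))) (.g (nat_lit 1) (.e (nat_lit 32300) (nat_lit 0) .nil) .nil))) 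
(.lf (nat_lit 454484) (.g (nat_lit 4612) (.e (nat_lit 2641) (nat_lit 165) (.e (nat_lit 180244) (nat_lit 5) (.e (nat_lit 532550) (nat_lit 12) (.e (nat_lit 360475) (nat_lit 8) (.e (nat_lit 557091) (nat_lit 12) (.e (nat_lit 163844) (nat_lit 0) (.e (nat_lit 6252) (nat_lit 337) .nil))))))) (.g (nat_lit 1) (.e (nat_lit 34698) (nat_lit 0) .nil) .nil))))) (.nd (nat_lit 8) (.nd (nat_lit 9) 
(.lf (nat_lit 453844) (.g (nat_lit 1787) (.e (nat_lit 2630) (nat_lit 164) (.e (nat_lit 172067) (nat_lit 3) (.e (nat_lit 204868) (nat_lit 29) (.e (nat_lit 360474) (nat_lit 8) .nil)))) (.g (nat_lit 0) (.e (nat_lit 30884) (nat_lit 0) .nil) .nil))) 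
(.lf (nat_lit 454356) (.g (nat_lit 2453) (.e (nat_lit 2640) (nat_lit 165) (.e (nat_lit 180277) (nat_lit 32) (.e (nat_lit 1659) (nat_lit 115) (.e (nat_lit 393281) (nat_lit 23) (.e (nat_lit 426107) (nat_lit 1) (.e (nat_lit 164345) (nat_lit 240) .nil)))))) (.g (nat_lit 1) (.e (nat_lit 34507) (nat_lit 0) .nil) .nil)))) (.nd (nat_lit 9) 
(.lf (nat_lit 454100) (.g (nat_lit 4381) (.e (nat_lit 2638) (nat_lit 165) (.e (nat_lit 180277) (nat_lit 32) (.e (nat_lit 1253) (nat_lit 92) (.e (nat_lit 98373) (nat_lit 29) (.e (nat_lit 450568) (nat_lit 0) (.e (nat_lit 3978) (nat_lit 239) .nil)))))) (.g (nat_lit 1) (.e (nat_lit 33794) (nat_lit 0) .nil) .nil))) 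
(.lf (nat_lit 454612) (.g (nat_lit 1564) (.e (nat_lit 2643) (nat_lit 165) (.e (nat_lit 180277) (nat_lit 32) (.e (nat_lit 1426) (nat_lit 108) (.e (nat_lit 336430) (nat_lit 29) (.e (nat_lit 442428) (nat_lit 24) (.e (nat_lit 229664) (nat_lit 240) .nil)))))) (.g (nat_lit 1) (.e (nat_lit 35307) (nat_lit 0) .nil) .nil))))))) (.nd (nat_lit 6) (.nd (nat_lit 7) (.nd (nat_lit 8) (.nd (nat_lit 9) 
(.lf (nat_lit 453684) (.g (nat_lit 2488) (.e (nat_lit 2630) (nat_lit 164) (.e (nat_lit 172063) (nat_lit 2) (.e (nat_lit 196666) (nat_lit 13) (.e (nat_lit 65617) (nat_lit 10) (.e (nat_lit 344133) (nat_lit 26) (.e (nat_lit 557091) (nat_lit 12) (.e (nat_lit 163847) (nat_lit 0) (.e (nat_lit 6252) (nat_lit 337) .nil)))))))) (.g (nat_lit 1) (.e (nat_lit 30597) (nat_lit 0) .nil) .nil))) 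
(.lf (nat_lit 454196) (.g (nat_lit 2200) (.e (nat_lit 2638) (nat_lit 165) (.e (nat_lit 180278) (nat_lit 32) (.e (nat_lit 1659) (nat_lit 115) (.e (nat_lit 393281) (nat_lit 23) (.e (nat_lit 426098) (nat_lit 1) (.e (nat_lit 164345) (nat_lit 240) .nil)))))) (.g (nat_lit 1) (.e (nat_lit 33944) (nat_lit 0) .nil) .nil)))) (.nd (nat_lit 9) 
(.lf (nat_lit 453940) (.g (nat_lit 3539) (.e (nat_lit 2630) (nat_lit 164) (.e (nat_lit 172120) (nat_lit 12) (.e (nat_lit 475198) (nat_lit 40) (.e (nat_lit 704598) (nat_lit 6) (.e (nat_lit 188453) (nat_lit 24) (.e (nat_lit 229665) (nat_lit 240) .nil)))))) (.g (nat_lit 1) (.e (nat_lit 32238) (nat_lit 0) .nil) .nil))) 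
(.lf (nat_lit 454452) (.g (nat_lit 1293) (.e (nat_lit 2641) (nat_lit 165) (.e (nat_lit 180244) (nat_lit 5) (.e (nat_lit 532549) (nat_lit 12) (.e (nat_lit 360474) (nat_lit 8) .nil)))) (.g (nat_lit 0) (.e (nat_lit 34665) (nat_lit 0) .nil) .nil))))) (.nd (nat_lit 8) (.nd (nat_lit 9) 
(.lf (nat_lit 453812) (.g (nat_lit 3336) (.e (nat_lit 2630) (nat_lit 164) (.e (nat_lit 172066) (nat_lit 3) (.e (nat_lit 204869) (nat_lit 29) (.e (nat_lit 360475) (nat_lit 8) (.e (nat_lit 557091) (nat_lit 12) (.e (nat_lit 163841) (nat_lit 0) (.e (nat_lit 6252) (nat_lit 337) .nil))))))) (.g (nat_lit 1) (.e (nat_lit 30793) (nat_lit 0) .nil) .nil))) 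
(.lf (nat_lit 454324) (.g (nat_lit 2045) (.e (nat_lit 2640) (nat_lit 165) (.e (nat_lit 180277) (nat_lit 32) (.e (nat_lit 1426) (nat_lit 108) (.e (nat_lit 336434) (nat_lit 30) (.e (nat_lit 450564) (nat_lit 0) (.e (nat_lit 5546) (nat_lit 306) .nil)))))) (.g (nat_lit 1) (.e (nat_lit 34472) (nat_lit 0) .nil) .nil)))) (.nd (nat_lit 9) 
(.lf (nat_lit 454068) (.g (nat_lit 980) (.e (nat_lit 2635) (nat_lit 165) (.e (nat_lit 180278) (nat_lit 32) (.e (nat_lit 1179) (nat_lit 87) (.e (nat_lit 57686) (nat_lit 156) .nil)))) (.g (nat_lit 0) (.e (nat_lit 33222) (nat_lit 0) .nil) .nil))) 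
(.lf (nat_lit 454580) (.g (nat_lit 5126) (.e (nat_lit 2643) (nat_lit 165) (.e (nat_lit 180243) (nat_lit 5) (.e (nat_lit 532550) (nat_lit 12) (.e (nat_lit 360475) (nat_lit 8) (.e (nat_lit 557089) (nat_lit 12) (.e (nat_lit 163844) (nat_lit 0) (.e (nat_lit 6255) (nat_lit 337) .nil))))))) (.g (nat_lit 1) (.e (nat_lit 35072) (nat_lit 0) .nil) .nil)))))) 
(.nd (nat_lit 7) (.nd (nat_lit 8) (.nd (nat_lit 9) 
(.lf (nat_lit 453748) (.g (nat_lit 5019) (.e (nat_lit 2630) (nat_lit 164) (.e (nat_lit 172065) (nat_lit 3) (.e (nat_lit 204852) (nat_lit 26) (.e (nat_lit 336310) (nat_lit 16) (.e (nat_lit 164183) (nat_lit 154) (.e (nat_lit 57379) (nat_lit 3) (.e (nat_lit 98334) (nat_lit 18) (.e (nat_lit 164305) (nat_lit 226) .nil)))))))) (.g (nat_lit 1) (.e (nat_lit 30676) (nat_lit 0) .nil) .nil))) 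
(.lf (nat_lit 454260) (.g (nat_lit 2141) (.e (nat_lit 2639) (nat_lit 165) (.e (nat_lit 180277) (nat_lit 32) (.e (nat_lit 1659) (nat_lit 115) (.e (nat_lit 393266) (nat_lit 23) (.e (nat_lit 426109) (nat_lit 1) (.e (nat_lit 164346) (nat_lit 240) .nil)))))) (.g (nat_lit 1) (.e (nat_lit 34129) (nat_lit 0) .nil) .nil)))) (.nd (nat_lit 9) 
(.lf (nat_lit 454004) (.g (nat_lit 1404) (.e (nat_lit 2630) (nat_lit 164) (.e (nat_lit 172126) (nat_lit 14) (.e (nat_lit 491547) (nat_lit 9) (.e (nat_lit 336432) (nat_lit 30) .nil)))) (.g (nat_lit 0) (.e (nat_lit 32704) (nat_lit 0) .nil) .nil))) 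
(.lf (nat_lit 454516) (.g (nat_lit 2429) (.e (nat_lit 2641) (nat_lit 165) (.e (nat_lit 180278) (nat_lit 32) (.e (nat_lit 1425) (nat_lit 108) (.e (nat_lit 336430) (nat_lit 29) (.e (nat_lit 442428) (nat_lit 24) (.e (nat_lit 229665) (nat_lit 240) .nil)))))) (.g (nat_lit 1) (.e (nat_lit 34809) (nat_lit 0) .nil) .nil))))) (.nd (nat_lit 8) (.nd (nat_lit 9) 
(.lf (nat_lit 453876) (.g (nat_lit 3407) (.e (nat_lit 2630) (nat_lit 164) (.e (nat_lit 172067) (nat_lit 3) (.e (nat_lit 204869) (nat_lit 29) (.e (nat_lit 360475) (nat_lit 8) (.e (nat_lit 557089) (nat_lit 12) (.e (nat_lit 163848) (nat_lit 0) (.e (nat_lit 6255) (nat_lit 337) .nil))))))) (.g (nat_lit 1) (.e (nat_lit 30920) (nat_lit 0) .nil) .nil))) 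
(.lf (nat_lit 454388) (.g (nat_lit 392) (.e (nat_lit 2640) (nat_lit 165) (.e (nat_lit 180278) (nat_lit 32) (.e (nat_lit 1427) (nat_lit 108) .nil))) (.g (nat_lit 0) (.e (nat_lit 34553) (nat_lit 0) .nil) .nil)))) (.nd (nat_lit 9) 
(.lf (nat_lit 454132) (.g (nat_lit 1620) (.e (nat_lit 2638) (nat_lit 165) (.e (nat_lit 180277) (nat_lit 32) (.e (nat_lit 1658) (nat_lit 115) (.e (nat_lit 393281) (nat_lit 23) (.e (nat_lit 426100) (nat_lit 1) (.e (nat_lit 164345) (nat_lit 240) .nil)))))) (.g (nat_lit 1) (.e (nat_lit 33831) (nat_lit 0) .nil) .nil))) 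
(.lf (nat_lit 454644) (.g (nat_lit 3810) (.e (nat_lit 2645) (nat_lit 166) (.e (nat_lit 188434) (nat_lit 20) (.e (nat_lit 3469) (nat_lit 217) (.e (nat_lit 696344) (nat_lit 8) (.e (nat_lit 172106) (nat_lit 10) (.e (nat_lit 434209) (nat_lit 18) (.e (nat_lit 6273) (nat_lit 337) .nil))))))) (.g (nat_lit 1) (.e (nat_lit 35662) (nat_lit 0) .nil) .nil))))))))) 
(.nd (nat_lit 4) (.nd (nat_lit 5) (.nd (nat_lit 6) (.nd (nat_lit 7) (.nd (nat_lit 8) 
(.nd (nat_lit 9) 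
(.lf (nat_lit 453644) (.g (nat_lit 4564) (.e (nat_lit 2630) (nat_lit 164) (.e (nat_lit 172062) (nat_lit 2) (.e (nat_lit 196666) (nat_lit 13) (.e (nat_lit 65617) (nat_lit 10) (.e (nat_lit 344127) (nat_lit 26) (.e (nat_lit 557090) (nat_lit 12) (.e (nat_lit 163844) (nat_lit 0) (.e (nat_lit 6254) (nat_lit 337) .nil)))))))) (.g (nat_lit 1) (.e (nat_lit 30557) (nat_lit 0) .nil) .nil))) 
(.lf (nat_lit 454156) (.g (nat_lit 1956) (.e (nat_lit 2638) (nat_lit 165) (.e (nat_lit 180278) (nat_lit 32) (.e (nat_lit 1252) (nat_lit 92) (.e (nat_lit 98370) (nat_lit 28) (.e (nat_lit 442430) (nat_lit 24) (.e (nat_lit 229535) (nat_lit 134) .nil)))))) (.g (nat_lit 1) (.e (nat_lit 33888) (nat_lit 0) .nil) .nil)))) (.nd (nat_lit 9) 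
(.lf (nat_lit 453900) (.g (nat_lit 2117) (.e (nat_lit 2630) (nat_lit 164) (.e (nat_lit 172106) (nat_lit 10) (.e (nat_lit 434271) (nat_lit 38) (.e (nat_lit 655380) (nat_lit 6) (.e (nat_lit 188454) (nat_lit 24) (.e (nat_lit 229665) (nat_lit 240) .nil)))))) (.g (nat_lit 1) (.e (nat_lit 31805) (nat_lit 0) .nil) .nil))) 
(.lf (nat_lit 454412) (.g (nat_lit 1146) (.e (nat_lit 2640) (nat_lit 165) (.e (nat_lit 180278) (nat_lit 32) (.e (nat_lit 1659) (nat_lit 115) (.e (nat_lit 393278) (nat_lit 23) .nil)))) (.g (nat_lit 0) (.e (nat_lit 34580) (nat_lit 0) .nil) .nil))))) (.nd (nat_lit 8) (.nd (nat_lit 9) 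
(.lf (nat_lit 453772) (.g (nat_lit 3466) (.e (nat_lit 2630) (nat_lit 164) (.e (nat_lit 172065) (nat_lit 3) (.e (nat_lit 204869) (nat_lit 29) (.e (nat_lit 360474) (nat_lit 8) (.e (nat_lit 557094) (nat_lit 12) (.e (nat_lit 163848) (nat_lit 0) (.e (nat_lit 6252) (nat_lit 337) .nil))))))) (.g (nat_lit 1) (.e (nat_lit 30753) (nat_lit 0) .nil) .nil))) 
(.lf (nat_lit 454284) (.g (nat_lit 2549) (.e (nat_lit 2639) (nat_lit 165) (.e (nat_lit 180278) (nat_lit 32) (.e (nat_lit 1428) (nat_lit 108) (.e (nat_lit 336430) (nat_lit 29) (.e (nat_lit 442421) (nat_lit 21) (.e (nat_lit 164345) (nat_lit 240) .nil)))))) (.g (nat_lit 1) (.e (nat_lit 34189) (nat_lit 0) .nil) .nil)))) (.nd (nat_lit 9) 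
(.lf (nat_lit 454028) (.g (nat_lit 3421) (.e (nat_lit 2630) (nat_lit 164) (.e (nat_lit 172126) (nat_lit 14) (.e (nat_lit 491550) (nat_lit 9) (.e (nat_lit 336430) (nat_lit 29) (.e (nat_lit 442430) (nat_lit 24) (.e (nat_lit 229664) (nat_lit 240) .nil)))))) (.g (nat_lit 1) (.e (nat_lit 32745) (nat_lit 0) .nil) .nil))) 
(.lf (nat_lit 454540) (.g (nat_lit 2568) (.e (nat_lit 2643) (nat_lit 165) (.e (nat_lit 180243) (nat_lit 5) (.e (nat_lit 532549) (nat_lit 12) (.e (nat_lit 360473) (nat_lit 8) (.e (nat_lit 557089) (nat_lit 12) (.e (nat_lit 163848) (nat_lit 0) (.e (nat_lit 6255) (nat_lit 337) .nil))))))) (.g (nat_lit 1) (.e (nat_lit 35021) (nat_lit 0) .nil) .nil)))))) 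
(.nd (nat_lit 7) (.nd (nat_lit 8) (.nd (nat_lit 9) 
(.lf (nat_lit 453708) (.g (nat_lit 2101) (.e (nat_lit 2630) (nat_lit 164) (.e (nat_lit 172064) (nat_lit 2) (.e (nat_lit 196666) (nat_lit 13) (.e (nat_lit 65617) (nat_lit 10) (.e (nat_lit 344127) (nat_lit 26) (.e (nat_lit 557092) (nat_lit 12) (.e (nat_lit 163849) (nat_lit 0) (.e (nat_lit 6255) (nat_lit 337) .nil)))))))) (.g (nat_lit 1) (.e (nat_lit 30636) (nat_lit 0) .nil) .nil))) 
(.lf (nat_lit 454220) (.g (nat_lit 1295) (.e (nat_lit 2638) (nat_lit 165) (.e (nat_lit 180278) (nat_lit 32) (.e (nat_lit 1661) (nat_lit 115) (.e (nat_lit 393281) (nat_lit 23) .nil)))) (.g (nat_lit 0) (.e (nat_lit 33992) (nat_lit 0) .nil) .nil)))) (.nd (nat_lit 9) 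
(.lf (nat_lit 453964) (.g (nat_lit 3155) (.e (nat_lit 2630) (nat_lit 164) (.e (nat_lit 172120) (nat_lit 12) (.e (nat_lit 475211) (nat_lit 41) (.e (nat_lit 712750) (nat_lit 29) (.e (nat_lit 442430) (nat_lit 24) (.e (nat_lit 229666) (nat_lit 240) .nil)))))) (.g (nat_lit 1) (.e (nat_lit 32287) (nat_lit 0) .nil) .nil))) 
(.lf (nat_lit 454476) (.g (nat_lit 4065) (.e (nat_lit 2641) (nat_lit 165) (.e (nat_lit 180244) (nat_lit 5) (.e (nat_lit 532550) (nat_lit 12) (.e (nat_lit 360475) (nat_lit 8) (.e (nat_lit 557089) (nat_lit 12) (.e (nat_lit 163849) (nat_lit 0) (.e (nat_lit 6250) (nat_lit 337) .nil))))))) (.g (nat_lit 1) (.e (nat_lit 34690) (nat_lit 0) .nil) .nil))))) (.nd (nat_lit 8) (.nd (nat_lit 9) 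
(.lf (nat_lit 453836) (.g (nat_lit 4124) (.e (nat_lit 2630) (nat_lit 164) (.e (nat_lit 172067) (nat_lit 3) (.e (nat_lit 204868) (nat_lit 29) (.e (nat_lit 360473) (nat_lit 8) (.e (nat_lit 557091) (nat_lit 12) (.e (nat_lit 163844) (nat_lit 0) (.e (nat_lit 6255) (nat_lit 337) .nil))))))) (.g (nat_lit 1) (.e (nat_lit 30871) (nat_lit 0) .nil) .nil))) 
(.lf (nat_lit 454348) (.g (nat_lit 994) (.e (nat_lit 2640) (nat_lit 165) (.e (nat_lit 180277) (nat_lit 32) (.e (nat_lit 1659) (nat_lit 115) (.e (nat_lit 393266) (nat_lit 23) .nil)))) (.g (nat_lit 0) (.e (nat_lit 34499) (nat_lit 0) .nil) .nil)))) (.nd (nat_lit 9) 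
(.lf (nat_lit 454092) (.g (nat_lit 1896) (.e (nat_lit 2637) (nat_lit 165) (.e (nat_lit 180277) (nat_lit 32) (.e (nat_lit 1253) (nat_lit 92) (.e (nat_lit 98373) (nat_lit 29) (.e (nat_lit 458496) (nat_lit 0) .nil))))) (.g (nat_lit 0) (.e (nat_lit 33595) (nat_lit 0) .nil) .nil))) 
(.lf (nat_lit 454604) (.g (nat_lit 1821) (.e (nat_lit 2643) (nat_lit 165) (.e (nat_lit 188160) (nat_lit 27) (.e (nat_lit 712753) (nat_lit 30) (.e (nat_lit 450579) (nat_lit 5) (.e (nat_lit 532504) (nat_lit 1) (.e (nat_lit 57651) (nat_lit 152) .nil)))))) (.g (nat_lit 1) (.e (nat_lit 35294) (nat_lit 0) .nil) .nil))))))) (.nd (nat_lit 6) (.nd (nat_lit 7) (.nd (nat_lit 8) (.nd (nat_lit 9) 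
(.lf (nat_lit 453676) (.g (nat_lit 2918) (.e (nat_lit 2630) (nat_lit 164) (.e (nat_lit 172063) (nat_lit 2) (.e (nat_lit 196666) (nat_lit 13) (.e (nat_lit 65617) (nat_lit 10) (.e (nat_lit 344130) (nat_lit 26) (.e (nat_lit 557090) (nat_lit 12) (.e (nat_lit 163847) (nat_lit 0) (.e (nat_lit 6255) (nat_lit 337) .nil)))))))) (.g (nat_lit 1) (.e (nat_lit 30589) (nat_lit 0) .nil) .nil))) 
(.lf (nat_lit 454188) (.g (nat_lit 1442) (.e (nat_lit 2638) (nat_lit 165) (.e (nat_lit 180278) (nat_lit 32) (.e (nat_lit 1658) (nat_lit 115) (.e (nat_lit 393281) (nat_lit 23) (.e (nat_lit 426099) (nat_lit 1) (.e (nat_lit 164345) (nat_lit 240) .nil)))))) (.g (nat_lit 1) (.e (nat_lit 33935) (nat_lit 0) .nil) .nil)))) (.nd (nat_lit 9) 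
(.lf (nat_lit 453932) (.g (nat_lit 2643) (.e (nat_lit 2630) (nat_lit 164) (.e (nat_lit 172118) (nat_lit 12) (.e (nat_lit 475211) (nat_lit 41) (.e (nat_lit 712752) (nat_lit 29) (.e (nat_lit 442430) (nat_lit 24) (.e (nat_lit 229666) (nat_lit 240) .nil)))))) (.g (nat_lit 1) (.e (nat_lit 32227) (nat_lit 0) .nil) .nil))) 
(.lf (nat_lit 454444) (.g (nat_lit 4651) (.e (nat_lit 2641) (nat_lit 165) (.e (nat_lit 180242) (nat_lit 5) (.e (nat_lit 532550) (nat_lit 12) (.e (nat_lit 360475) (nat_lit 8) (.e (nat_lit 557089) (nat_lit 12) (.e (nat_lit 163844) (nat_lit 0) (.e (nat_lit 6255) (nat_lit 337) .nil))))))) (.g (nat_lit 1) (.e (nat_lit 34637) (nat_lit 0) .nil) .nil))))) (.nd (nat_lit 8) (.nd (nat_lit 9) 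
(.lf (nat_lit 453804) (.g (nat_lit 5138) (.e (nat_lit 2630) (nat_lit 164) (.e (nat_lit 172066) (nat_lit 3) (.e (nat_lit 204869) (nat_lit 29) (.e (nat_lit 360475) (nat_lit 8) (.e (nat_lit 557089) (nat_lit 12) (.e (nat_lit 163843) (nat_lit 0) (.e (nat_lit 6255) (nat_lit 337) .nil))))))) (.g (nat_lit 1) (.e (nat_lit 30785) (nat_lit 0) .nil) .nil))) 
(.lf (nat_lit 454316) (.g (nat_lit 2701) (.e (nat_lit 2640) (nat_lit 165) (.e (nat_lit 180252) (nat_lit 10) (.e (nat_lit 573451) (nat_lit 9) (.e (nat_lit 1667) (nat_lit 116) (.e (nat_lit 401459) (nat_lit 13) (.e (nat_lit 483364) (nat_lit 18) (.e (nat_lit 57651) (nat_lit 152) .nil))))))) (.g (nat_lit 1) (.e (nat_lit 34308) (nat_lit 0) .nil) .nil)))) (.nd (nat_lit 9) 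
(.lf (nat_lit 454060) (.g (nat_lit 584) (.e (nat_lit 7936) (nat_lit 164) (.e (nat_lit 172126) (nat_lit 14) (.e (nat_lit 491540) (nat_lit 3) .nil))) (.g (nat_lit 0) (.e (nat_lit 33142) (nat_lit 0) .nil) .nil))) 
(.lf (nat_lit 454572) (.g (nat_lit 3903) (.e (nat_lit 2643) (nat_lit 165) (.e (nat_lit 180243) (nat_lit 5) (.e (nat_lit 532550) (nat_lit 12) (.e (nat_lit 360474) (nat_lit 8) (.e (nat_lit 557094) (nat_lit 12) (.e (nat_lit 163847) (nat_lit 0) (.e (nat_lit 6252) (nat_lit 337) .nil))))))) (.g (nat_lit 1) (.e (nat_lit 35064) (nat_lit 0) .nil) .nil)))))) 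
(.nd (nat_lit 7) (.nd (nat_lit 8) (.nd (nat_lit 9) 
(.lf (nat_lit 453740) (.g (nat_lit 5091) (.e (nat_lit 2630) (nat_lit 164) (.e (nat_lit 172064) (nat_lit 2) (.e (nat_lit 196666) (nat_lit 13) (.e (nat_lit 65617) (nat_lit 10) (.e (nat_lit 344133) (nat_lit 26) (.e (nat_lit 557091) (nat_lit 12) (.e (nat_lit 163844) (nat_lit 0) (.e (nat_lit 6255) (nat_lit 337) .nil)))))))) (.g (nat_lit 1) (.e (nat_lit 30668) (nat_lit 0) .nil) .nil))) 
(.lf (nat_lit 454252) (.g (nat_lit 2597) (.e (nat_lit 2639) (nat_lit 165) (.e (nat_lit 180277) (nat_lit 32) (.e (nat_lit 1428) (nat_lit 108) (.e (nat_lit 336430) (nat_lit 29) (.e (nat_lit 442421) (nat_lit 21) (.e (nat_lit 164346) (nat_lit 240) .nil)))))) (.g (nat_lit 1) (.e (nat_lit 34121) (nat_lit 0) .nil) .nil)))) (.nd (nat_lit 9) 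
(.lf (nat_lit 453996) (.g (nat_lit 2639) (.e (nat_lit 2630) (nat_lit 164) (.e (nat_lit 172124) (nat_lit 14) (.e (nat_lit 491550) (nat_lit 9) (.e (nat_lit 336443) (nat_lit 32) (.e (nat_lit 466982) (nat_lit 24) .nil))))) (.g (nat_lit 0) (.e (nat_lit 32565) (nat_lit 0) .nil) .nil))) 
(.lf (nat_lit 454508) (.g (nat_lit 1894) (.e (nat_lit 2641) (nat_lit 165) (.e (nat_lit 180277) (nat_lit 32) (.e (nat_lit 1428) (nat_lit 108) (.e (nat_lit 336430) (nat_lit 29) (.e (nat_lit 442430) (nat_lit 24) (.e (nat_lit 229663) (nat_lit 240) .nil)))))) (.g (nat_lit 1) (.e (nat_lit 34797) (nat_lit 0) .nil) .nil))))) (.nd (nat_lit 8) (.nd (nat_lit 9) 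
(.lf (nat_lit 453868) (.g (nat_lit 2413) (.e (nat_lit 2630) (nat_lit 164) (.e (nat_lit 172067) (nat_lit 3) (.e (nat_lit 204869) (nat_lit 29) (.e (nat_lit 360474) (nat_lit 8) (.e (nat_lit 557094) (nat_lit 12) (.e (nat_lit 163848) (nat_lit 0) (.e (nat_lit 6255) (nat_lit 337) .nil))))))) (.g (nat_lit 1) (.e (nat_lit 30912) (nat_lit 0) .nil) .nil))) 
(.lf (nat_lit 454380) (.g (nat_lit 2760) (.e (nat_lit 2640) (nat_lit 165) (.e (nat_lit 180277) (nat_lit 32) (.e (nat_lit 1661) (nat_lit 115) (.e (nat_lit 393284) (nat_lit 24) (.e (nat_lit 434212) (nat_lit 18) (.e (nat_lit 5548) (nat_lit 306) .nil)))))) (.g (nat_lit 1) (.e (nat_lit 34545) (nat_lit 0) .nil) .nil)))) (.nd (nat_lit 9) 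
(.lf (nat_lit 454124) (.g (nat_lit 1660) (.e (nat_lit 2638) (nat_lit 165) (.e (nat_lit 180277) (nat_lit 32) (.e (nat_lit 1428) (nat_lit 108) (.e (nat_lit 336432) (nat_lit 30) (.e (nat_lit 458496) (nat_lit 0) (.e (nat_lit 5543) (nat_lit 306) .nil)))))) (.g (nat_lit 1) (.e (nat_lit 33823) (nat_lit 0) .nil) .nil))) 
(.lf (nat_lit 454636) (.g (nat_lit 2405) (.e (nat_lit 2645) (nat_lit 166) (.e (nat_lit 188434) (nat_lit 20) (.e (nat_lit 3467) (nat_lit 217) (.e (nat_lit 696344) (nat_lit 8) (.e (nat_lit 172115) (nat_lit 10) (.e (nat_lit 434209) (nat_lit 18) (.e (nat_lit 6273) (nat_lit 337) .nil))))))) (.g (nat_lit 1) (.e (nat_lit 35646) (nat_lit 0) .nil) .nil)))))))) 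
(.nd (nat_lit 5) (.nd (nat_lit 6) (.nd (nat_lit 7) (.nd (nat_lit 8) (.nd (nat_lit 9) 
(.lf (nat_lit 453660) (.g (nat_lit 3101) (.e (nat_lit 2630) (nat_lit 164) (.e (nat_lit 172062) (nat_lit 2) (.e (nat_lit 196666) (nat_lit 13) (.e (nat_lit 65617) (nat_lit 10) (.e (nat_lit 344132) (nat_lit 26) (.e (nat_lit 557094) (nat_lit 12) (.e (nat_lit 163849) (nat_lit 0) (.e (nat_lit 6252) (nat_lit 337) .nil)))))))) (.g (nat_lit 1) (.e (nat_lit 30573) (nat_lit 0) .nil) .nil))) 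
(.lf (nat_lit 454172) (.g (nat_lit 4080) (.e (nat_lit 2638) (nat_lit 165) (.e (nat_lit 180278) (nat_lit 32) (.e (nat_lit 1427) (nat_lit 108) (.e (nat_lit 336430) (nat_lit 29) (.e (nat_lit 442421) (nat_lit 21) (.e (nat_lit 164348) (nat_lit 240) .nil)))))) (.g (nat_lit 1) (.e (nat_lit 33917) (nat_lit 0) .nil) .nil)))) (.nd (nat_lit 9) 
(.lf (nat_lit 453916) (.g (nat_lit 1333) (.e (nat_lit 2630) (nat_lit 164) (.e (nat_lit 172118) (nat_lit 12) (.e (nat_lit 475198) (nat_lit 40) (.e (nat_lit 704598) (nat_lit 6) (.e (nat_lit 188454) (nat_lit 24) .nil))))) (.g (nat_lit 0) (.e (nat_lit 32202) (nat_lit 0) .nil) .nil))) 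
(.lf (nat_lit 454428) (.g (nat_lit 2370) (.e (nat_lit 2640) (nat_lit 165) (.e (nat_lit 180278) (nat_lit 32) (.e (nat_lit 1660) (nat_lit 115) (.e (nat_lit 393281) (nat_lit 23) (.e (nat_lit 426107) (nat_lit 1) (.e (nat_lit 164347) (nat_lit 240) .nil)))))) (.g (nat_lit 1) (.e (nat_lit 34597) (nat_lit 0) .nil) .nil))))) (.nd (nat_lit 8) (.nd (nat_lit 9) 
(.lf (nat_lit 453788) (.g (nat_lit 4732) (.e (nat_lit 2630) (nat_lit 164) (.e (nat_lit 172065) (nat_lit 3) (.e (nat_lit 204869) (nat_lit 29) (.e (nat_lit 360475) (nat_lit 8) (.e (nat_lit 557091) (nat_lit 12) (.e (nat_lit 163844) (nat_lit 0) (.e (nat_lit 6255) (nat_lit 337) .nil))))))) (.g (nat_lit 1) (.e (nat_lit 30769) (nat_lit 0) .nil) .nil))) 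
(.lf (nat_lit 454300) (.g (nat_lit 2096) (.e (nat_lit 2639) (nat_lit 165) (.e (nat_lit 180278) (nat_lit 32) (.e (nat_lit 1659) (nat_lit 115) (.e (nat_lit 393281) (nat_lit 23) (.e (nat_lit 426099) (nat_lit 1) (.e (nat_lit 164345) (nat_lit 240) .nil)))))) (.g (nat_lit 1) (.e (nat_lit 34205) (nat_lit 0) .nil) .nil)))) (.nd (nat_lit 9) 
(.lf (nat_lit 454044) (.g (nat_lit 4235) (.e (nat_lit 2632) (nat_lit 164) (.e (nat_lit 172066) (nat_lit 3) (.e (nat_lit 204869) (nat_lit 29) (.e (nat_lit 360475) (nat_lit 8) (.e (nat_lit 557089) (nat_lit 12) (.e (nat_lit 163850) (nat_lit 0) (.e (nat_lit 6273) (nat_lit 337) .nil))))))) (.g (nat_lit 1) (.e (nat_lit 32988) (nat_lit 0) .nil) .nil))) 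
(.lf (nat_lit 454556) (.g (nat_lit 2781) (.e (nat_lit 2643) (nat_lit 165) (.e (nat_lit 180243) (nat_lit 5) (.e (nat_lit 532549) (nat_lit 12) (.e (nat_lit 360475) (nat_lit 8) (.e (nat_lit 557089) (nat_lit 12) .nil))))) (.g (nat_lit 0) (.e (nat_lit 35044) (nat_lit 0) .nil) .nil)))))) (.nd (nat_lit 7) (.nd (nat_lit 8) (.nd (nat_lit 9) 
(.lf (nat_lit 453724) (.g (nat_lit 2339) (.e (nat_lit 2630) (nat_lit 164) (.e (nat_lit 172064) (nat_lit 2) (.e (nat_lit 196666) (nat_lit 13) (.e (nat_lit 65617) (nat_lit 10) (.e (nat_lit 344132) (nat_lit 26) (.e (nat_lit 557094) (nat_lit 12) (.e (nat_lit 163840) (nat_lit 0) (.e (nat_lit 6255) (nat_lit 337) .nil)))))))) (.g (nat_lit 1) (.e (nat_lit 30652) (nat_lit 0) .nil) .nil))) 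
(.lf (nat_lit 454236) (.g (nat_lit 2232) (.e (nat_lit 2639) (nat_lit 165) (.e (nat_lit 180277) (nat_lit 32) (.e (nat_lit 1425) (nat_lit 108) (.e (nat_lit 336430) (nat_lit 29) (.e (nat_lit 442419) (nat_lit 21) (.e (nat_lit 164346) (nat_lit 240) .nil)))))) (.g (nat_lit 1) (.e (nat_lit 34097) (nat_lit 0) .nil) .nil)))) (.nd (nat_lit 9) 
(.lf (nat_lit 453980) (.g (nat_lit 2716) (.e (nat_lit 2630) (nat_lit 164) (.e (nat_lit 172124) (nat_lit 14) (.e (nat_lit 491549) (nat_lit 9) (.e (nat_lit 336430) (nat_lit 29) (.e (nat_lit 442429) (nat_lit 24) (.e (nat_lit 229665) (nat_lit 240) .nil)))))) (.g (nat_lit 1) (.e (nat_lit 32547) (nat_lit 0) .nil) .nil))) 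
(.lf (nat_lit 454492) (.g (nat_lit 1476) (.e (nat_lit 2641) (nat_lit 165) (.e (nat_lit 180277) (nat_lit 32) (.e (nat_lit 1426) (nat_lit 108) (.e (nat_lit 336430) (nat_lit 29) (.e (nat_lit 442428) (nat_lit 24) (.e (nat_lit 229664) (nat_lit 240) .nil)))))) (.g (nat_lit 1) (.e (nat_lit 34778) (nat_lit 0) .nil) .nil))))) (.nd (nat_lit 8) (.nd (nat_lit 9) 
(.lf (nat_lit 453852) (.g (nat_lit 5095) (.e (nat_lit 2630) (nat_lit 164) (.e (nat_lit 172067) (nat_lit 3) (.e (nat_lit 204868) (nat_lit 29) (.e (nat_lit 360475) (nat_lit 8) (.e (nat_lit 557089) (nat_lit 12) (.e (nat_lit 163849) (nat_lit 0) (.e (nat_lit 6255) (nat_lit 337) .nil))))))) (.g (nat_lit 1) (.e (nat_lit 30893) (nat_lit 0) .nil) .nil))) 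
(.lf (nat_lit 454364) (.g (nat_lit 1513) (.e (nat_lit 2640) (nat_lit 165) (.e (nat_lit 180277) (nat_lit 32) (.e (nat_lit 1660) (nat_lit 115) (.e (nat_lit 393277) (nat_lit 23) (.e (nat_lit 426109) (nat_lit 1) (.e (nat_lit 164345) (nat_lit 240) .nil)))))) (.g (nat_lit 1) (.e (nat_lit 34516) (nat_lit 0) .nil) .nil)))) (.nd (nat_lit 9) 
(.lf (nat_lit 454108) (.g (nat_lit 3455) (.e (nat_lit 2638) (nat_lit 165) (.e (nat_lit 180277) (nat_lit 32) (.e (nat_lit 1427) (nat_lit 108) (.e (nat_lit 336430) (nat_lit 29) (.e (nat_lit 442419) (nat_lit 21) (.e (nat_lit 164346) (nat_lit 240) .nil)))))) (.g (nat_lit 1) (.e (nat_lit 33806) (nat_lit 0) .nil) .nil))) 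
(.lf (nat_lit 454620) (.g (nat_lit 2477) (.e (nat_lit 2643) (nat_lit 165) (.e (nat_lit 180277) (nat_lit 32) (.e (nat_lit 1427) (nat_lit 108) (.e (nat_lit 336430) (nat_lit 29) (.e (nat_lit 442428) (nat_lit 24) (.e (nat_lit 229664) (nat_lit 240) .nil)))))) (.g (nat_lit 1) (.e (nat_lit 35320) (nat_lit 0) .nil) .nil))))))) (.nd (nat_lit 6) (.nd (nat_lit 7) (.nd (nat_lit 8) (.nd (nat_lit 9) 
(.lf (nat_lit 453692) (.g (nat_lit 4474) (.e (nat_lit 2630) (nat_lit 164) (.e (nat_lit 172064) (nat_lit 2) (.e (nat_lit 196666) (nat_lit 13) (.e (nat_lit 65610) (nat_lit 10) (.e (nat_lit 344129) (nat_lit 26) (.e (nat_lit 557089) (nat_lit 12) (.e (nat_lit 163849) (nat_lit 0) (.e (nat_lit 6252) (nat_lit 337) .nil)))))))) (.g (nat_lit 1) (.e (nat_lit 30620) (nat_lit 0) .nil) .nil))) 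
(.lf (nat_lit 454204) (.g (nat_lit 2354) (.e (nat_lit 2638) (nat_lit 165) (.e (nat_lit 180278) (nat_lit 32) (.e (nat_lit 1660) (nat_lit 115) (.e (nat_lit 393275) (nat_lit 23) (.e (nat_lit 426109) (nat_lit 1) (.e (nat_lit 164346) (nat_lit 240) .nil)))))) (.g (nat_lit 1) (.e (nat_lit 33956) (nat_lit 0) .nil) .nil)))) (.nd (nat_lit 9) 
(.lf (nat_lit 453948) (.g (nat_lit 4685) (.e (nat_lit 2630) (nat_lit 164) (.e (nat_lit 172120) (nat_lit 12) (.e (nat_lit 475199) (nat_lit 40) (.e (nat_lit 704598) (nat_lit 6) (.e (nat_lit 188453) (nat_lit 24) (.e (nat_lit 229663) (nat_lit 240) .nil)))))) (.g (nat_lit 1) (.e (nat_lit 32247) (nat_lit 0) .nil) .nil))) 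
(.lf (nat_lit 454460) (.g (nat_lit 5052) (.e (nat_lit 2641) (nat_lit 165) (.e (nat_lit 180244) (nat_lit 5) (.e (nat_lit 532550) (nat_lit 12) (.e (nat_lit 360474) (nat_lit 8) (.e (nat_lit 557093) (nat_lit 12) (.e (nat_lit 163848) (nat_lit 0) (.e (nat_lit 6252) (nat_lit 337) .nil))))))) (.g (nat_lit 1) (.e (nat_lit 34674) (nat_lit 0) .nil) .nil))))) (.nd (nat_lit 8) (.nd (nat_lit 9) 
(.lf (nat_lit 453820) (.g (nat_lit 3708) (.e (nat_lit 2630) (nat_lit 164) (.e (nat_lit 172067) (nat_lit 3) (.e (nat_lit 204852) (nat_lit 26) (.e (nat_lit 336310) (nat_lit 16) (.e (nat_lit 164182) (nat_lit 154) (.e (nat_lit 57379) (nat_lit 3) (.e (nat_lit 98334) (nat_lit 18) (.e (nat_lit 164305) (nat_lit 226) .nil)))))))) (.g (nat_lit 1) (.e (nat_lit 30801) (nat_lit 0) .nil) .nil))) 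
(.lf (nat_lit 454332) (.g (nat_lit 2938) (.e (nat_lit 2640) (nat_lit 165) (.e (nat_lit 180277) (nat_lit 32) (.e (nat_lit 1427) (nat_lit 108) (.e (nat_lit 336430) (nat_lit 29) (.e (nat_lit 442421) (nat_lit 21) (.e (nat_lit 164345) (nat_lit 240) .nil)))))) (.g (nat_lit 1) (.e (nat_lit 34483) (nat_lit 0) .nil) .nil)))) (.nd (nat_lit 9) 
(.lf (nat_lit 454076) (.g (nat_lit 4869) (.e (nat_lit 2636) (nat_lit 165) (.e (nat_lit 180243) (nat_lit 5) (.e (nat_lit 532550) (nat_lit 12) (.e (nat_lit 360475) (nat_lit 8) (.e (nat_lit 557091) (nat_lit 12) (.e (nat_lit 163850) (nat_lit 0) (.e (nat_lit 6273) (nat_lit 337) .nil))))))) (.g (nat_lit 1) (.e (nat_lit 33257) (nat_lit 0) .nil) .nil))) 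
(.lf (nat_lit 454588) (.g (nat_lit 3704) (.e (nat_lit 2643) (nat_lit 165) (.e (nat_lit 180243) (nat_lit 5) (.e (nat_lit 532550) (nat_lit 12) (.e (nat_lit 360475) (nat_lit 8) (.e (nat_lit 557091) (nat_lit 12) (.e (nat_lit 163844) (nat_lit 0) (.e (nat_lit 6254) (nat_lit 337) .nil))))))) (.g (nat_lit 1) (.e (nat_lit 35080) (nat_lit 0) .nil) .nil)))))) 
(.nd (nat_lit 7) (.nd (nat_lit 8) (.nd (nat_lit 9) 
(.lf (nat_lit 453756) (.g (nat_lit 2893) (.e (nat_lit 2630) (nat_lit 164) (.e (nat_lit 172065) (nat_lit 3) (.e (nat_lit 204868) (nat_lit 29) (.e (nat_lit 360473) (nat_lit 8) (.e (nat_lit 557091) (nat_lit 12) (.e (nat_lit 163849) (nat_lit 0) (.e (nat_lit 6254) (nat_lit 337) .nil))))))) (.g (nat_lit 1) (.e (nat_lit 30733) (nat_lit 0) .nil) .nil))) 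
(.lf (nat_lit 454268) (.g (nat_lit 1408) (.e (nat_lit 2639) (nat_lit 165) (.e (nat_lit 180277) (nat_lit 32) (.e (nat_lit 1660) (nat_lit 115) (.e (nat_lit 393271) (nat_lit 23) (.e (nat_lit 426112) (nat_lit 1) (.e (nat_lit 164345) (nat_lit 240) .nil)))))) (.g (nat_lit 1) (.e (nat_lit 34141) (nat_lit 0) .nil) .nil)))) (.nd (nat_lit 9) 
(.lf (nat_lit 454012) (.g (nat_lit 2406) (.e (nat_lit 2630) (nat_lit 164) (.e (nat_lit 172126) (nat_lit 14) (.e (nat_lit 491549) (nat_lit 9) (.e (nat_lit 336430) (nat_lit 29) (.e (nat_lit 442429) (nat_lit 24) (.e (nat_lit 229666) (nat_lit 240) .nil)))))) (.g (nat_lit 1) (.e (nat_lit 32727) (nat_lit 0) .nil) .nil))) 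
(.lf (nat_lit 454524) (.g (nat_lit 2286) (.e (nat_lit 2641) (nat_lit 165) (.e (nat_lit 180278) (nat_lit 32) (.e (nat_lit 1426) (nat_lit 108) (.e (nat_lit 336430) (nat_lit 29) (.e (nat_lit 442430) (nat_lit 24) (.e (nat_lit 229666) (nat_lit 240) .nil)))))) (.g (nat_lit 1) (.e (nat_lit 34819) (nat_lit 0) .nil) .nil))))) (.nd (nat_lit 8) (.nd (nat_lit 9) 
(.lf (nat_lit 453884) (.g (nat_lit 5757) (.e (nat_lit 2630) (nat_lit 164) (.e (nat_lit 172067) (nat_lit 3) (.e (nat_lit 204869) (nat_lit 29) (.e (nat_lit 360475) (nat_lit 8) (.e (nat_lit 557091) (nat_lit 12) (.e (nat_lit 163843) (nat_lit 0) (.e (nat_lit 6255) (nat_lit 337) .nil))))))) (.g (nat_lit 1) (.e (nat_lit 30928) (nat_lit 0) .nil) .nil))) 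
(.lf (nat_lit 454396) (.g (nat_lit 2086) (.e (nat_lit 2640) (nat_lit 165) (.e (nat_lit 180278) (nat_lit 32) (.e (nat_lit 1428) (nat_lit 108) (.e (nat_lit 336430) (nat_lit 29) (.e (nat_lit 442421) (nat_lit 21) (.e (nat_lit 164345) (nat_lit 240) .nil)))))) (.g (nat_lit 1) (.e (nat_lit 34564) (nat_lit 0) .nil) .nil)))) (.nd (nat_lit 9) 
(.lf (nat_lit 454140) (.g (nat_lit 2933) (.e (nat_lit 2638) (nat_lit 165) (.e (nat_lit 180277) (nat_lit 32) (.e (nat_lit 1659) (nat_lit 115) (.e (nat_lit 393281) (nat_lit 23) (.e (nat_lit 426100) (nat_lit 1) (.e (nat_lit 164345) (nat_lit 240) .nil)))))) (.g (nat_lit 1) (.e (nat_lit 33839) (nat_lit 0) .nil) .nil))) 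
(.lf (nat_lit 454652) (.g (nat_lit 3479) (.e (nat_lit 2646) (nat_lit 166) (.e (nat_lit 188440) (nat_lit 20) (.e (nat_lit 3468) (nat_lit 217) (.e (nat_lit 696344) (nat_lit 8) (.e (nat_lit 172106) (nat_lit 10) (.e (nat_lit 434209) (nat_lit 18) (.e (nat_lit 6273) (nat_lit 337) .nil))))))) (.g (nat_lit 1) (.e (nat_lit 35917) (nat_lit 0) .nil) .nil))))))))))) 
(.nd (nat_lit 2) (.nd (nat_lit 3) (.nd (nat_lit 4) (.nd (nat_lit 5) (.nd (nat_lit 6) 
(.nd (nat_lit 7) (.nd (nat_lit 8) (.nd (nat_lit 9) 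
(.lf (nat_lit 453634) (.g (nat_lit 4591) (.e (nat_lit 2630) (nat_lit 164) (.e (nat_lit 172062) (nat_lit 2) (.e (nat_lit 196666) (nat_lit 13) (.e (nat_lit 65610) (nat_lit 10) (.e (nat_lit 344129) (nat_lit 26) (.e (nat_lit 557090) (nat_lit 12) (.e (nat_lit 163843) (nat_lit 0) (.e (nat_lit 6252) (nat_lit 337) .nil)))))))) (.g (nat_lit 1) (.e (nat_lit 30547) (nat_lit 0) .nil) .nil))) 
(.lf (nat_lit 454146) (.g (nat_lit 2270) (.e (nat_lit 2638) (nat_lit 165) (.e (nat_lit 180277) (nat_lit 32) (.e (nat_lit 1660) (nat_lit 115) (.e (nat_lit 393275) (nat_lit 23) (.e (nat_lit 426109) (nat_lit 1) (.e (nat_lit 164347) (nat_lit 240) .nil)))))) (.g (nat_lit 1) (.e (nat_lit 33849) (nat_lit 0) .nil) .nil)))) (.nd (nat_lit 9) 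
(.lf (nat_lit 453890) (.g (nat_lit 3933) (.e (nat_lit 2630) (nat_lit 164) (.e (nat_lit 172067) (nat_lit 3) (.e (nat_lit 204869) (nat_lit 29) (.e (nat_lit 360475) (nat_lit 8) (.e (nat_lit 557091) (nat_lit 12) (.e (nat_lit 163849) (nat_lit 0) (.e (nat_lit 6254) (nat_lit 337) .nil))))))) (.g (nat_lit 1) (.e (nat_lit 30934) (nat_lit 0) .nil) .nil))) 
(.lf (nat_lit 454402) (.g (nat_lit 2142) (.e (nat_lit 2640) (nat_lit 165) (.e (nat_lit 180278) (nat_lit 32) (.e (nat_lit 1428) (nat_lit 108) (.e (nat_lit 336443) (nat_lit 32) (.e (nat_lit 466969) (nat_lit 21) (.e (nat_lit 164347) (nat_lit 240) .nil)))))) (.g (nat_lit 1) (.e (nat_lit 34570) (nat_lit 0) .nil) .nil))))) (.nd (nat_lit 8) (.nd (nat_lit 9) 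
(.lf (nat_lit 453762) (.g (nat_lit 2679) (.e (nat_lit 2630) (nat_lit 164) (.e (nat_lit 172065) (nat_lit 3) (.e (nat_lit 204868) (nat_lit 29) (.e (nat_lit 360475) (nat_lit 8) (.e (nat_lit 557091) (nat_lit 12) .nil))))) (.g (nat_lit 0) (.e (nat_lit 30742) (nat_lit 0) .nil) .nil))) 
(.lf (nat_lit 454274) (.g (nat_lit 2154) (.e (nat_lit 2639) (nat_lit 165) (.e (nat_lit 180278) (nat_lit 32) (.e (nat_lit 1426) (nat_lit 108) (.e (nat_lit 336430) (nat_lit 29) (.e (nat_lit 442419) (nat_lit 21) (.e (nat_lit 164345) (nat_lit 240) .nil)))))) (.g (nat_lit 1) (.e (nat_lit 34174) (nat_lit 0) .nil) .nil)))) (.nd (nat_lit 9) 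
(.lf (nat_lit 454018) (.g (nat_lit 2185) (.e (nat_lit 2630) (nat_lit 164) (.e (nat_lit 172126) (nat_lit 14) (.e (nat_lit 491549) (nat_lit 9) (.e (nat_lit 336432) (nat_lit 30) (.e (nat_lit 450569) (nat_lit 0) (.e (nat_lit 5446) (nat_lit 306) .nil)))))) (.g (nat_lit 1) (.e (nat_lit 32733) (nat_lit 0) .nil) .nil))) 
(.lf (nat_lit 454530) (.g (nat_lit 2692) (.e (nat_lit 2641) (nat_lit 165) (.e (nat_lit 180278) (nat_lit 32) (.e (nat_lit 1428) (nat_lit 108) (.e (nat_lit 336430) (nat_lit 29) (.e (nat_lit 442430) (nat_lit 24) (.e (nat_lit 229666) (nat_lit 240) .nil)))))) (.g (nat_lit 1) (.e (nat_lit 34839) (nat_lit 0) .nil) .nil)))))) (.nd (nat_lit 7) (.nd (nat_lit 8) (.nd (nat_lit 9) 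
(.lf (nat_lit 453698) (.g (nat_lit 2042) (.e (nat_lit 2630) (nat_lit 164) (.e (nat_lit 172064) (nat_lit 2) (.e (nat_lit 196666) (nat_lit 13) (.e (nat_lit 65617) (nat_lit 10) (.e (nat_lit 344127) (nat_lit 26) (.e (nat_lit 557089) (nat_lit 12) (.e (nat_lit 163843) (nat_lit 0) (.e (nat_lit 6255) (nat_lit 337) .nil)))))))) (.g (nat_lit 1) (.e (nat_lit 30626) (nat_lit 0) .nil) .nil))) 
(.lf (nat_lit 454210) (.g (nat_lit 3147) (.e (nat_lit 2638) (nat_lit 165) (.e (nat_lit 180278) (nat_lit 32) (.e (nat_lit 1660) (nat_lit 115) (.e (nat_lit 393281) (nat_lit 23) (.e (nat_lit 426098) (nat_lit 1) (.e (nat_lit 164348) (nat_lit 240) .nil)))))) (.g (nat_lit 1) (.e (nat_lit 33962) (nat_lit 0) .nil) .nil)))) (.nd (nat_lit 9) 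
(.lf (nat_lit 453954) (.g (nat_lit 2467) (.e (nat_lit 2630) (nat_lit 164) (.e (nat_lit 172120) (nat_lit 12) (.e (nat_lit 475210) (nat_lit 41) (.e (nat_lit 712752) (nat_lit 29) (.e (nat_lit 442428) (nat_lit 24) (.e (nat_lit 229663) (nat_lit 240) .nil)))))) (.g (nat_lit 1) (.e (nat_lit 32263) (nat_lit 0) .nil) .nil))) 
(.lf (nat_lit 454466) (.g (nat_lit 3323) (.e (nat_lit 2641) (nat_lit 165) (.e (nat_lit 180244) (nat_lit 5) (.e (nat_lit 532550) (nat_lit 12) (.e (nat_lit 360474) (nat_lit 8) (.e (nat_lit 557094) (nat_lit 12) (.e (nat_lit 163847) (nat_lit 0) (.e (nat_lit 6250) (nat_lit 337) .nil))))))) (.g (nat_lit 1) (.e (nat_lit 34680) (nat_lit 0) .nil) .nil))))) (.nd (nat_lit 8) (.nd (nat_lit 9) 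
(.lf (nat_lit 453826) (.g (nat_lit 3526) (.e (nat_lit 2630) (nat_lit 164) (.e (nat_lit 172067) (nat_lit 3) (.e (nat_lit 204868) (nat_lit 29) (.e (nat_lit 360473) (nat_lit 8) (.e (nat_lit 557089) (nat_lit 12) (.e (nat_lit 163843) (nat_lit 0) (.e (nat_lit 6254) (nat_lit 337) .nil))))))) (.g (nat_lit 1) (.e (nat_lit 30855) (nat_lit 0) .nil) .nil))) 
(.lf (nat_lit 454338) (.g (nat_lit 2525) (.e (nat_lit 2640) (nat_lit 165) (.e (nat_lit 180277) (nat_lit 32) (.e (nat_lit 1428) (nat_lit 108) (.e (nat_lit 336430) (nat_lit 29) (.e (nat_lit 442419) (nat_lit 21) (.e (nat_lit 164345) (nat_lit 240) .nil)))))) (.g (nat_lit 1) (.e (nat_lit 34489) (nat_lit 0) .nil) .nil)))) (.nd (nat_lit 9) 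
(.lf (nat_lit 454082) (.g (nat_lit 2283) (.e (nat_lit 2636) (nat_lit 165) (.e (nat_lit 180252) (nat_lit 10) (.e (nat_lit 573449) (nat_lit 9) (.e (nat_lit 1669) (nat_lit 116) (.e (nat_lit 401459) (nat_lit 13) .nil))))) (.g (nat_lit 0) (.e (nat_lit 33431) (nat_lit 0) .nil) .nil))) 
(.lf (nat_lit 454594) (.g (nat_lit 3099) (.e (nat_lit 2643) (nat_lit 165) (.e (nat_lit 180246) (nat_lit 6) (.e (nat_lit 540706) (nat_lit 12) (.e (nat_lit 360475) (nat_lit 8) (.e (nat_lit 557089) (nat_lit 12) (.e (nat_lit 163848) (nat_lit 0) (.e (nat_lit 6252) (nat_lit 337) .nil))))))) (.g (nat_lit 1) (.e (nat_lit 35106) (nat_lit 0) .nil) .nil))))))) 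
(.nd (nat_lit 6) (.nd (nat_lit 7) (.nd (nat_lit 8) (.nd (nat_lit 9) 
(.lf (nat_lit 453666) (.g (nat_lit 3296) (.e (nat_lit 2630) (nat_lit 164) (.e (nat_lit 172062) (nat_lit 2) (.e (nat_lit 196666) (nat_lit 13) (.e (nat_lit 65617) (nat_lit 10) (.e (nat_lit 344133) (nat_lit 26) (.e (nat_lit 557091) (nat_lit 12) (.e (nat_lit 163849) (nat_lit 0) (.e (nat_lit 6252) (nat_lit 337) .nil)))))))) (.g (nat_lit 1) (.e (nat_lit 30579) (nat_lit 0) .nil) .nil))) 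
(.lf (nat_lit 454178) (.g (nat_lit 3409) (.e (nat_lit 2638) (nat_lit 165) (.e (nat_lit 180278) (nat_lit 32) (.e (nat_lit 1428) (nat_lit 108) (.e (nat_lit 336443) (nat_lit 32) (.e (nat_lit 466969) (nat_lit 21) (.e (nat_lit 164348) (nat_lit 240) .nil)))))) (.g (nat_lit 1) (.e (nat_lit 33925) (nat_lit 0) .nil) .nil)))) (.nd (nat_lit 9) 
(.lf (nat_lit 453922) (.g (nat_lit 2092) (.e (nat_lit 2630) (nat_lit 164) (.e (nat_lit 172118) (nat_lit 12) (.e (nat_lit 475210) (nat_lit 41) (.e (nat_lit 712752) (nat_lit 29) (.e (nat_lit 442428) (nat_lit 24) (.e (nat_lit 229666) (nat_lit 240) .nil)))))) (.g (nat_lit 1) (.e (nat_lit 32214) (nat_lit 0) .nil) .nil))) 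
(.lf (nat_lit 454434) (.g (nat_lit 1409) (.e (nat_lit 2640) (nat_lit 165) (.e (nat_lit 180278) (nat_lit 32) (.e (nat_lit 1661) (nat_lit 115) (.e (nat_lit 393274) (nat_lit 23) (.e (nat_lit 426097) (nat_lit 1) (.e (nat_lit 164347) (nat_lit 240) .nil)))))) (.g (nat_lit 1) (.e (nat_lit 34606) (nat_lit 0) .nil) .nil))))) (.nd (nat_lit 8) (.nd (nat_lit 9) 
(.lf (nat_lit 453794) (.g (nat_lit 2282) (.e (nat_lit 2630) (nat_lit 164) (.e (nat_lit 172066) (nat_lit 3) (.e (nat_lit 204868) (nat_lit 29) (.e (nat_lit 360473) (nat_lit 8) (.e (nat_lit 557091) (nat_lit 12) (.e (nat_lit 163847) (nat_lit 0) (.e (nat_lit 6255) (nat_lit 337) .nil))))))) (.g (nat_lit 1) (.e (nat_lit 30775) (nat_lit 0) .nil) .nil))) 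
(.lf (nat_lit 454306) (.g (nat_lit 1092) (.e (nat_lit 2639) (nat_lit 165) (.e (nat_lit 180278) (nat_lit 32) (.e (nat_lit 1660) (nat_lit 115) (.e (nat_lit 393277) (nat_lit 23) .nil)))) (.g (nat_lit 0) (.e (nat_lit 34213) (nat_lit 0) .nil) .nil)))) (.nd (nat_lit 9) 
(.lf (nat_lit 454050) (.g (nat_lit 3087) (.e (nat_lit 2633) (nat_lit 164) (.e (nat_lit 172062) (nat_lit 2) (.e (nat_lit 196666) (nat_lit 13) (.e (nat_lit 65617) (nat_lit 10) (.e (nat_lit 344133) (nat_lit 26) (.e (nat_lit 557091) (nat_lit 12) (.e (nat_lit 163850) (nat_lit 0) (.e (nat_lit 6273) (nat_lit 337) .nil)))))))) (.g (nat_lit 1) (.e (nat_lit 33060) (nat_lit 0) .nil) .nil))) 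
(.lf (nat_lit 454562) (.g (nat_lit 4137) (.e (nat_lit 2643) (nat_lit 165) (.e (nat_lit 180243) (nat_lit 5) (.e (nat_lit 532549) (nat_lit 12) (.e (nat_lit 360475) (nat_lit 8) (.e (nat_lit 557090) (nat_lit 12) .nil))))) (.g (nat_lit 0) (.e (nat_lit 35052) (nat_lit 0) .nil) .nil)))))) (.nd (nat_lit 7) (.nd (nat_lit 8) (.nd (nat_lit 9) 
(.lf (nat_lit 453730) (.g (nat_lit 4610) (.e (nat_lit 2630) (nat_lit 164) (.e (nat_lit 172064) (nat_lit 2) (.e (nat_lit 196666) (nat_lit 13) (.e (nat_lit 65617) (nat_lit 10) (.e (nat_lit 344133) (nat_lit 26) (.e (nat_lit 557089) (nat_lit 12) (.e (nat_lit 163844) (nat_lit 0) (.e (nat_lit 6254) (nat_lit 337) .nil)))))))) (.g (nat_lit 1) (.e (nat_lit 30658) (nat_lit 0) .nil) .nil))) 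
(.lf (nat_lit 454242) (.g (nat_lit 2309) (.e (nat_lit 2639) (nat_lit 165) (.e (nat_lit 180277) (nat_lit 32) (.e (nat_lit 1426) (nat_lit 108) (.e (nat_lit 336443) (nat_lit 32) (.e (nat_lit 466971) (nat_lit 21) (.e (nat_lit 164345) (nat_lit 240) .nil)))))) (.g (nat_lit 1) (.e (nat_lit 34104) (nat_lit 0) .nil) .nil)))) (.nd (nat_lit 9) 
(.lf (nat_lit 453986) (.g (nat_lit 1135) (.e (nat_lit 2630) (nat_lit 164) (.e (nat_lit 172124) (nat_lit 14) (.e (nat_lit 491549) (nat_lit 9) (.e (nat_lit 336434) (nat_lit 30) .nil)))) (.g (nat_lit 0) (.e (nat_lit 32553) (nat_lit 0) .nil) .nil))) 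
(.lf (nat_lit 454498) (.g (nat_lit 2580) (.e (nat_lit 2641) (nat_lit 165) (.e (nat_lit 180277) (nat_lit 32) (.e (nat_lit 1427) (nat_lit 108) (.e (nat_lit 336430) (nat_lit 29) (.e (nat_lit 442428) (nat_lit 24) (.e (nat_lit 229664) (nat_lit 240) .nil)))))) (.g (nat_lit 1) (.e (nat_lit 34784) (nat_lit 0) .nil) .nil))))) (.nd (nat_lit 8) (.nd (nat_lit 9) 
(.lf (nat_lit 453858) (.g (nat_lit 3480) (.e (nat_lit 2630) (nat_lit 164) (.e (nat_lit 172067) (nat_lit 3) (.e (nat_lit 204869) (nat_lit 29) (.e (nat_lit 360474) (nat_lit 8) (.e (nat_lit 557093) (nat_lit 12) (.e (nat_lit 163847) (nat_lit 0) (.e (nat_lit 6252) (nat_lit 337) .nil))))))) (.g (nat_lit 1) (.e (nat_lit 30902) (nat_lit 0) .nil) .nil))) 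
(.lf (nat_lit 454370) (.g (nat_lit 1056) (.e (nat_lit 2640) (nat_lit 165) (.e (nat_lit 180277) (nat_lit 32) (.e (nat_lit 1660) (nat_lit 115) (.e (nat_lit 401152) (nat_lit 23) .nil)))) (.g (nat_lit 0) (.e (nat_lit 34522) (nat_lit 0) .nil) .nil)))) (.nd (nat_lit 9) 
(.lf (nat_lit 454114) (.g (nat_lit 1903) (.e (nat_lit 2638) (nat_lit 165) (.e (nat_lit 180277) (nat_lit 32) (.e (nat_lit 1427) (nat_lit 108) (.e (nat_lit 336434) (nat_lit 30) (.e (nat_lit 458496) (nat_lit 0) (.e (nat_lit 5543) (nat_lit 306) .nil)))))) (.g (nat_lit 1) (.e (nat_lit 33812) (nat_lit 0) .nil) .nil))) 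
(.lf (nat_lit 454626) (.g (nat_lit 1350) (.e (nat_lit 2643) (nat_lit 165) (.e (nat_lit 180277) (nat_lit 32) (.e (nat_lit 1428) (nat_lit 108) (.e (nat_lit 336426) (nat_lit 29) (.e (nat_lit 442430) (nat_lit 24) .nil))))) (.g (nat_lit 0) (.e (nat_lit 35330) (nat_lit 0) .nil) .nil)))))))) (.nd (nat_lit 5) (.nd (nat_lit 6) (.nd (nat_lit 7) (.nd (nat_lit 8) (.nd (nat_lit 9) 
(.lf (nat_lit 453650) (.g (nat_lit 2250) (.e (nat_lit 2630) (nat_lit 164) (.e (nat_lit 172062) (nat_lit 2) (.e (nat_lit 196666) (nat_lit 13) (.e (nat_lit 65617) (nat_lit 10) (.e (nat_lit 344130) (nat_lit 26) (.e (nat_lit 557090) (nat_lit 12) (.e (nat_lit 163840) (nat_lit 0) (.e (nat_lit 6252) (nat_lit 337) .nil)))))))) (.g (nat_lit 1) (.e (nat_lit 30563) (nat_lit 0) .nil) .nil))) 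
(.lf (nat_lit 454162) (.g (nat_lit 2247) (.e (nat_lit 2638) (nat_lit 165) (.e (nat_lit 180278) (nat_lit 32) (.e (nat_lit 1253) (nat_lit 92) (.e (nat_lit 98373) (nat_lit 29) (.e (nat_lit 458496) (nat_lit 0) (.e (nat_lit 3987) (nat_lit 239) .nil)))))) (.g (nat_lit 1) (.e (nat_lit 33896) (nat_lit 0) .nil) .nil)))) (.nd (nat_lit 9) 
(.lf (nat_lit 453906) (.g (nat_lit 2251) (.e (nat_lit 2630) (nat_lit 164) (.e (nat_lit 172106) (nat_lit 10) (.e (nat_lit 434272) (nat_lit 38) (.e (nat_lit 655380) (nat_lit 6) (.e (nat_lit 188454) (nat_lit 24) (.e (nat_lit 229665) (nat_lit 240) .nil)))))) (.g (nat_lit 1) (.e (nat_lit 31871) (nat_lit 0) .nil) .nil))) 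
(.lf (nat_lit 454418) (.g (nat_lit 2757) (.e (nat_lit 2640) (nat_lit 165) (.e (nat_lit 180278) (nat_lit 32) (.e (nat_lit 1659) (nat_lit 115) (.e (nat_lit 393282) (nat_lit 24) (.e (nat_lit 434209) (nat_lit 18) (.e (nat_lit 5546) (nat_lit 306) .nil)))))) (.g (nat_lit 1) (.e (nat_lit 34586) (nat_lit 0) .nil) .nil))))) (.nd (nat_lit 8) (.nd (nat_lit 9) 
(.lf (nat_lit 453778) (.g (nat_lit 3213) (.e (nat_lit 2630) (nat_lit 164) (.e (nat_lit 172065) (nat_lit 3) (.e (nat_lit 204869) (nat_lit 29) (.e (nat_lit 360475) (nat_lit 8) (.e (nat_lit 557089) (nat_lit 12) (.e (nat_lit 163848) (nat_lit 0) (.e (nat_lit 6255) (nat_lit 337) .nil))))))) (.g (nat_lit 1) (.e (nat_lit 30759) (nat_lit 0) .nil) .nil))) 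
(.lf (nat_lit 454290) (.g (nat_lit 2056) (.e (nat_lit 2639) (nat_lit 165) (.e (nat_lit 180278) (nat_lit 32) (.e (nat_lit 1658) (nat_lit 115) (.e (nat_lit 393266) (nat_lit 23) (.e (nat_lit 426109) (nat_lit 1) (.e (nat_lit 164345) (nat_lit 240) .nil)))))) (.g (nat_lit 1) (.e (nat_lit 34195) (nat_lit 0) .nil) .nil)))) (.nd (nat_lit 9) 
(.lf (nat_lit 454034) (.g (nat_lit 2676) (.e (nat_lit 2630) (nat_lit 164) (.e (nat_lit 172126) (nat_lit 14) (.e (nat_lit 491550) (nat_lit 9) (.e (nat_lit 336443) (nat_lit 32) (.e (nat_lit 466982) (nat_lit 24) .nil))))) (.g (nat_lit 0) (.e (nat_lit 32754) (nat_lit 0) .nil) .nil))) 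
(.lf (nat_lit 454546) (.g (nat_lit 4028) (.e (nat_lit 2643) (nat_lit 165) (.e (nat_lit 180243) (nat_lit 5) (.e (nat_lit 532549) (nat_lit 12) (.e (nat_lit 360473) (nat_lit 8) (.e (nat_lit 557091) (nat_lit 12) (.e (nat_lit 163844) (nat_lit 0) (.e (nat_lit 6255) (nat_lit 337) .nil))))))) (.g (nat_lit 1) (.e (nat_lit 35027) (nat_lit 0) .nil) .nil)))))) 
(.nd (nat_lit 7) (.nd (nat_lit 8) (.nd (nat_lit 9) 
(.lf (nat_lit 453714) (.g (nat_lit 2484) (.e (nat_lit 2630) (nat_lit 164) (.e (nat_lit 172064) (nat_lit 2) (.e (nat_lit 196666) (nat_lit 13) (.e (nat_lit 65617) (nat_lit 10) (.e (nat_lit 344130) (nat_lit 26) (.e (nat_lit 557090) (nat_lit 12) (.e (nat_lit 163840) (nat_lit 0) (.e (nat_lit 6252) (nat_lit 337) .nil)))))))) (.g (nat_lit 1) (.e (nat_lit 30642) (nat_lit 0) .nil) .nil))) 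
(.lf (nat_lit 454226) (.g (nat_lit 2546) (.e (nat_lit 2638) (nat_lit 165) (.e (nat_lit 180278) (nat_lit 32) (.e (nat_lit 1661) (nat_lit 115) (.e (nat_lit 393284) (nat_lit 24) (.e (nat_lit 434209) (nat_lit 18) (.e (nat_lit 5546) (nat_lit 306) .nil)))))) (.g (nat_lit 1) (.e (nat_lit 34004) (nat_lit 0) .nil) .nil)))) (.nd (nat_lit 9) 
(.lf (nat_lit 453970) (.g (nat_lit 2300) (.e (nat_lit 2630) (nat_lit 164) (.e (nat_lit 172120) (nat_lit 12) (.e (nat_lit 475211) (nat_lit 41) (.e (nat_lit 712753) (nat_lit 30) (.e (nat_lit 458496) (nat_lit 0) (.e (nat_lit 5443) (nat_lit 306) .nil)))))) (.g (nat_lit 1) (.e (nat_lit 32297) (nat_lit 0) .nil) .nil))) 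
(.lf (nat_lit 454482) (.g (nat_lit 6063) (.e (nat_lit 2641) (nat_lit 165) (.e (nat_lit 180244) (nat_lit 5) (.e (nat_lit 532550) (nat_lit 12) (.e (nat_lit 360475) (nat_lit 8) (.e (nat_lit 557091) (nat_lit 12) (.e (nat_lit 163843) (nat_lit 0) (.e (nat_lit 6255) (nat_lit 337) .nil))))))) (.g (nat_lit 1) (.e (nat_lit 34696) (nat_lit 0) .nil) .nil))))) (.nd (nat_lit 8) (.nd (nat_lit 9) 
(.lf (nat_lit 453842) (.g (nat_lit 1918) (.e (nat_lit 2630) (nat_lit 164) (.e (nat_lit 172067) (nat_lit 3) (.e (nat_lit 204868) (nat_lit 29) (.e (nat_lit 360473) (nat_lit 8) (.e (nat_lit 557094) (nat_lit 12) .nil))))) (.g (nat_lit 0) (.e (nat_lit 30880) (nat_lit 0) .nil) .nil))) 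
(.lf (nat_lit 454354) (.g (nat_lit 2121) (.e (nat_lit 2640) (nat_lit 165) (.e (nat_lit 180277) (nat_lit 32) (.e (nat_lit 1659) (nat_lit 115) (.e (nat_lit 393281) (nat_lit 23) (.e (nat_lit 426099) (nat_lit 1) (.e (nat_lit 164345) (nat_lit 240) .nil)))))) (.g (nat_lit 1) (.e (nat_lit 34505) (nat_lit 0) .nil) .nil)))) (.nd (nat_lit 9) 
(.lf (nat_lit 454098) (.g (nat_lit 2480) (.e (nat_lit 2638) (nat_lit 165) (.e (nat_lit 180277) (nat_lit 32) (.e (nat_lit 1252) (nat_lit 92) (.e (nat_lit 98373) (nat_lit 29) (.e (nat_lit 450560) (nat_lit 0) (.e (nat_lit 3991) (nat_lit 239) .nil)))))) (.g (nat_lit 1) (.e (nat_lit 33791) (nat_lit 0) .nil) .nil))) 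
(.lf (nat_lit 454610) (.g (nat_lit 1997) (.e (nat_lit 2643) (nat_lit 165) (.e (nat_lit 180277) (nat_lit 32) (.e (nat_lit 1425) (nat_lit 108) (.e (nat_lit 336430) (nat_lit 29) (.e (nat_lit 442430) (nat_lit 24) (.e (nat_lit 229666) (nat_lit 240) .nil)))))) (.g (nat_lit 1) (.e (nat_lit 35303) (nat_lit 0) .nil) .nil))))))) (.nd (nat_lit 6) (.nd (nat_lit 7) (.nd (nat_lit 8) (.nd (nat_lit 9) 
(.lf (nat_lit 453682) (.g (nat_lit 3249) (.e (nat_lit 2630) (nat_lit 164) (.e (nat_lit 172063) (nat_lit 2) (.e (nat_lit 196666) (nat_lit 13) (.e (nat_lit 65617) (nat_lit 10) (.e (nat_lit 344133) (nat_lit 26) (.e (nat_lit 557091) (nat_lit 12) (.e (nat_lit 163843) (nat_lit 0) (.e (nat_lit 6254) (nat_lit 337) .nil)))))))) (.g (nat_lit 1) (.e (nat_lit 30595) (nat_lit 0) .nil) .nil))) 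
(.lf (nat_lit 454194) (.g (nat_lit 1743) (.e (nat_lit 2638) (nat_lit 165) (.e (nat_lit 180278) (nat_lit 32) (.e (nat_lit 1659) (nat_lit 115) (.e (nat_lit 393278) (nat_lit 23) (.e (nat_lit 426109) (nat_lit 1) (.e (nat_lit 164345) (nat_lit 240) .nil)))))) (.g (nat_lit 1) (.e (nat_lit 33942) (nat_lit 0) .nil) .nil)))) (.nd (nat_lit 9) 
(.lf (nat_lit 453938) (.g (nat_lit 4620) (.e (nat_lit 2630) (nat_lit 164) (.e (nat_lit 172120) (nat_lit 12) (.e (nat_lit 475198) (nat_lit 40) (.e (nat_lit 704598) (nat_lit 6) (.e (nat_lit 188453) (nat_lit 24) (.e (nat_lit 229663) (nat_lit 240) .nil)))))) (.g (nat_lit 1) (.e (nat_lit 32236) (nat_lit 0) .nil) .nil))) 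
(.lf (nat_lit 454450) (.g (nat_lit 2446) (.e (nat_lit 2641) (nat_lit 165) (.e (nat_lit 180244) (nat_lit 5) (.e (nat_lit 532549) (nat_lit 12) (.e (nat_lit 360473) (nat_lit 8) (.e (nat_lit 557093) (nat_lit 12) .nil))))) (.g (nat_lit 0) (.e (nat_lit 34662) (nat_lit 0) .nil) .nil))))) (.nd (nat_lit 8) (.nd (nat_lit 9) 
(.lf (nat_lit 453810) (.g (nat_lit 3356) (.e (nat_lit 2630) (nat_lit 164) (.e (nat_lit 172066) (nat_lit 3) (.e (nat_lit 204869) (nat_lit 29) (.e (nat_lit 360475) (nat_lit 8) (.e (nat_lit 557091) (nat_lit 12) (.e (nat_lit 163840) (nat_lit 0) (.e (nat_lit 6252) (nat_lit 337) .nil))))))) (.g (nat_lit 1) (.e (nat_lit 30791) (nat_lit 0) .nil) .nil))) 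
(.lf (nat_lit 454322) (.g (nat_lit 2205) (.e (nat_lit 2640) (nat_lit 165) (.e (nat_lit 180277) (nat_lit 32) (.e (nat_lit 1425) (nat_lit 108) (.e (nat_lit 336443) (nat_lit 32) (.e (nat_lit 466971) (nat_lit 21) (.e (nat_lit 164345) (nat_lit 240) .nil)))))) (.g (nat_lit 1) (.e (nat_lit 34470) (nat_lit 0) .nil) .nil)))) (.nd (nat_lit 9) 
(.lf (nat_lit 454066) (.g (nat_lit 5268) (.e (nat_lit 2635) (nat_lit 165) (.e (nat_lit 180244) (nat_lit 5) (.e (nat_lit 532550) (nat_lit 12) (.e (nat_lit 360475) (nat_lit 8) (.e (nat_lit 557091) (nat_lit 12) (.e (nat_lit 163850) (nat_lit 0) (.e (nat_lit 6273) (nat_lit 337) .nil))))))) (.g (nat_lit 1) (.e (nat_lit 33186) (nat_lit 0) .nil) .nil))) 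
(.lf (nat_lit 454578) (.g (nat_lit 3911) (.e (nat_lit 2643) (nat_lit 165) (.e (nat_lit 180243) (nat_lit 5) (.e (nat_lit 532550) (nat_lit 12) (.e (nat_lit 360475) (nat_lit 8) (.e (nat_lit 557089) (nat_lit 12) (.e (nat_lit 163844) (nat_lit 0) (.e (nat_lit 6252) (nat_lit 337) .nil))))))) (.g (nat_lit 1) (.e (nat_lit 35070) (nat_lit 0) .nil) .nil)))))) 
(.nd (nat_lit 7) (.nd (nat_lit 8) (.nd (nat_lit 9) 
(.lf (nat_lit 453746) (.g (nat_lit 4869) (.e (nat_lit 2630) (nat_lit 164) (.e (nat_lit 172065) (nat_lit 3) (.e (nat_lit 204852) (nat_lit 26) (.e (nat_lit 336310) (nat_lit 16) (.e (nat_lit 164183) (nat_lit 154) (.e (nat_lit 57378) (nat_lit 3) (.e (nat_lit 98334) (nat_lit 18) (.e (nat_lit 164305) (nat_lit 226) .nil)))))))) (.g (nat_lit 1) (.e (nat_lit 30674) (nat_lit 0) .nil) .nil))) 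
(.lf (nat_lit 454258) (.g (nat_lit 358) (.e (nat_lit 2639) (nat_lit 165) (.e (nat_lit 180277) (nat_lit 32) (.e (nat_lit 1659) (nat_lit 115) .nil))) (.g (nat_lit 0) (.e (nat_lit 34127) (nat_lit 0) .nil) .nil)))) (.nd (nat_lit 9) 
(.lf (nat_lit 454002) (.g (nat_lit 1834) (.e (nat_lit 2630) (nat_lit 164) (.e (nat_lit 172126) (nat_lit 14) (.e (nat_lit 491547) (nat_lit 9) (.e (nat_lit 336426) (nat_lit 29) .nil)))) (.g (nat_lit 0) (.e (nat_lit 32702) (nat_lit 0) .nil) .nil))) 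
(.lf (nat_lit 454514) (.g (nat_lit 2314) (.e (nat_lit 2641) (nat_lit 165) (.e (nat_lit 180278) (nat_lit 32) (.e (nat_lit 1253) (nat_lit 92) (.e (nat_lit 98373) (nat_lit 29) (.e (nat_lit 458496) (nat_lit 0) (.e (nat_lit 3914) (nat_lit 239) .nil)))))) (.g (nat_lit 1) (.e (nat_lit 34807) (nat_lit 0) .nil) .nil))))) (.nd (nat_lit 8) (.nd (nat_lit 9) 
(.lf (nat_lit 453874) (.g (nat_lit 4706) (.e (nat_lit 2630) (nat_lit 164) (.e (nat_lit 172067) (nat_lit 3) (.e (nat_lit 204869) (nat_lit 29) (.e (nat_lit 360475) (nat_lit 8) (.e (nat_lit 557089) (nat_lit 12) (.e (nat_lit 163844) (nat_lit 0) (.e (nat_lit 6254) (nat_lit 337) .nil))))))) (.g (nat_lit 1) (.e (nat_lit 30918) (nat_lit 0) .nil) .nil))) 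
(.lf (nat_lit 454386) (.g (nat_lit 1679) (.e (nat_lit 2640) (nat_lit 165) (.e (nat_lit 180278) (nat_lit 32) (.e (nat_lit 1426) (nat_lit 108) (.e (nat_lit 336430) (nat_lit 29) (.e (nat_lit 442421) (nat_lit 21) (.e (nat_lit 164345) (nat_lit 240) .nil)))))) (.g (nat_lit 1) (.e (nat_lit 34551) (nat_lit 0) .nil) .nil)))) (.nd (nat_lit 9) 
(.lf (nat_lit 454130) (.g (nat_lit 1923) (.e (nat_lit 2638) (nat_lit 165) (.e (nat_lit 180277) (nat_lit 32) (.e (nat_lit 1658) (nat_lit 115) (.e (nat_lit 393266) (nat_lit 23) (.e (nat_lit 426109) (nat_lit 1) (.e (nat_lit 164345) (nat_lit 240) .nil)))))) (.g (nat_lit 1) (.e (nat_lit 33829) (nat_lit 0) .nil) .nil))) 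
(.lf (nat_lit 454642) (.g (nat_lit 2897) (.e (nat_lit 2645) (nat_lit 166) (.e (nat_lit 188434) (nat_lit 20) (.e (nat_lit 3468) (nat_lit 217) (.e (nat_lit 696344) (nat_lit 8) (.e (nat_lit 172115) (nat_lit 10) (.e (nat_lit 434209) (nat_lit 18) (.e (nat_lit 6273) (nat_lit 337) .nil))))))) (.g (nat_lit 1) (.e (nat_lit 35655) (nat_lit 0) .nil) .nil))))))))) 
(.nd (nat_lit 4) (.nd (nat_lit 5) (.nd (nat_lit 6) (.nd (nat_lit 7) (.nd (nat_lit 8) 
(.nd (nat_lit 9) 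
(.lf (nat_lit 453642) (.g (nat_lit 4632) (.e (nat_lit 2630) (nat_lit 164) (.e (nat_lit 172062) (nat_lit 2) (.e (nat_lit 196666) (nat_lit 13) (.e (nat_lit 65617) (nat_lit 10) (.e (nat_lit 344127) (nat_lit 26) (.e (nat_lit 557090) (nat_lit 12) (.e (nat_lit 163843) (nat_lit 0) (.e (nat_lit 6254) (nat_lit 337) .nil)))))))) (.g (nat_lit 1) (.e (nat_lit 30555) (nat_lit 0) .nil) .nil))) 
(.lf (nat_lit 454154) (.g (nat_lit 1310) (.e (nat_lit 2638) (nat_lit 165) (.e (nat_lit 180277) (nat_lit 32) (.e (nat_lit 1661) (nat_lit 115) (.e (nat_lit 393274) (nat_lit 23) .nil)))) (.g (nat_lit 0) (.e (nat_lit 33876) (nat_lit 0) .nil) .nil)))) (.nd (nat_lit 9) 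
(.lf (nat_lit 453898) (.g (nat_lit 3041) (.e (nat_lit 2630) (nat_lit 164) (.e (nat_lit 172106) (nat_lit 10) (.e (nat_lit 434271) (nat_lit 38) (.e (nat_lit 655380) (nat_lit 6) (.e (nat_lit 188453) (nat_lit 24) (.e (nat_lit 229664) (nat_lit 240) .nil)))))) (.g (nat_lit 1) (.e (nat_lit 31803) (nat_lit 0) .nil) .nil))) 
(.lf (nat_lit 454410) (.g (nat_lit 1945) (.e (nat_lit 2640) (nat_lit 165) (.e (nat_lit 180278) (nat_lit 32) (.e (nat_lit 1659) (nat_lit 115) (.e (nat_lit 393266) (nat_lit 23) (.e (nat_lit 426109) (nat_lit 1) (.e (nat_lit 164347) (nat_lit 240) .nil)))))) (.g (nat_lit 1) (.e (nat_lit 34578) (nat_lit 0) .nil) .nil))))) (.nd (nat_lit 8) (.nd (nat_lit 9) 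
(.lf (nat_lit 453770) (.g (nat_lit 3012) (.e (nat_lit 2630) (nat_lit 164) (.e (nat_lit 172065) (nat_lit 3) (.e (nat_lit 204869) (nat_lit 29) (.e (nat_lit 360474) (nat_lit 8) (.e (nat_lit 557093) (nat_lit 12) (.e (nat_lit 163849) (nat_lit 0) (.e (nat_lit 6252) (nat_lit 337) .nil))))))) (.g (nat_lit 1) (.e (nat_lit 30751) (nat_lit 0) .nil) .nil))) 
(.lf (nat_lit 454282) (.g (nat_lit 2903) (.e (nat_lit 2639) (nat_lit 165) (.e (nat_lit 180278) (nat_lit 32) (.e (nat_lit 1428) (nat_lit 108) (.e (nat_lit 336430) (nat_lit 29) (.e (nat_lit 442419) (nat_lit 21) (.e (nat_lit 164346) (nat_lit 240) .nil)))))) (.g (nat_lit 1) (.e (nat_lit 34187) (nat_lit 0) .nil) .nil)))) (.nd (nat_lit 9) 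
(.lf (nat_lit 454026) (.g (nat_lit 3373) (.e (nat_lit 2630) (nat_lit 164) (.e (nat_lit 172126) (nat_lit 14) (.e (nat_lit 491550) (nat_lit 9) (.e (nat_lit 336430) (nat_lit 29) (.e (nat_lit 442428) (nat_lit 24) (.e (nat_lit 229666) (nat_lit 240) .nil)))))) (.g (nat_lit 1) (.e (nat_lit 32743) (nat_lit 0) .nil) .nil))) 
(.lf (nat_lit 454538) (.g (nat_lit 3415) (.e (nat_lit 2643) (nat_lit 165) (.e (nat_lit 180243) (nat_lit 5) (.e (nat_lit 532549) (nat_lit 12) (.e (nat_lit 360473) (nat_lit 8) (.e (nat_lit 557089) (nat_lit 12) (.e (nat_lit 163844) (nat_lit 0) (.e (nat_lit 6254) (nat_lit 337) .nil))))))) (.g (nat_lit 1) (.e (nat_lit 35018) (nat_lit 0) .nil) .nil)))))) 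
(.nd (nat_lit 7) (.nd (nat_lit 8) (.nd (nat_lit 9) 
(.lf (nat_lit 453706) (.g (nat_lit 4881) (.e (nat_lit 2630) (nat_lit 164) (.e (nat_lit 172064) (nat_lit 2) (.e (nat_lit 196666) (nat_lit 13) (.e (nat_lit 65617) (nat_lit 10) (.e (nat_lit 344127) (nat_lit 26) (.e (nat_lit 557090) (nat_lit 12) (.e (nat_lit 163844) (nat_lit 0) (.e (nat_lit 6254) (nat_lit 337) .nil)))))))) (.g (nat_lit 1) (.e (nat_lit 30634) (nat_lit 0) .nil) .nil))) 
(.lf (nat_lit 454218) (.g (nat_lit 1735) (.e (nat_lit 2638) (nat_lit 165) (.e (nat_lit 180278) (nat_lit 32) (.e (nat_lit 1661) (nat_lit 115) (.e (nat_lit 393277) (nat_lit 23) (.e (nat_lit 426103) (nat_lit 1) (.e (nat_lit 164347) (nat_lit 240) .nil)))))) (.g (nat_lit 1) (.e (nat_lit 33989) (nat_lit 0) .nil) .nil)))) (.nd (nat_lit 9) 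
(.lf (nat_lit 453962) (.g (nat_lit 2067) (.e (nat_lit 2630) (nat_lit 164) (.e (nat_lit 172120) (nat_lit 12) (.e (nat_lit 475211) (nat_lit 41) (.e (nat_lit 712750) (nat_lit 29) (.e (nat_lit 442429) (nat_lit 24) .nil))))) (.g (nat_lit 0) (.e (nat_lit 32285) (nat_lit 0) .nil) .nil))) 
(.lf (nat_lit 454474) (.g (nat_lit 3828) (.e (nat_lit 2641) (nat_lit 165) (.e (nat_lit 180244) (nat_lit 5) (.e (nat_lit 532550) (nat_lit 12) (.e (nat_lit 360475) (nat_lit 8) (.e (nat_lit 557089) (nat_lit 12) (.e (nat_lit 163848) (nat_lit 0) (.e (nat_lit 6250) (nat_lit 337) .nil))))))) (.g (nat_lit 1) (.e (nat_lit 34688) (nat_lit 0) .nil) .nil))))) (.nd (nat_lit 8) (.nd (nat_lit 9) 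
(.lf (nat_lit 453834) (.g (nat_lit 4967) (.e (nat_lit 2630) (nat_lit 164) (.e (nat_lit 172067) (nat_lit 3) (.e (nat_lit 204868) (nat_lit 29) (.e (nat_lit 360473) (nat_lit 8) (.e (nat_lit 557091) (nat_lit 12) (.e (nat_lit 163843) (nat_lit 0) (.e (nat_lit 6255) (nat_lit 337) .nil))))))) (.g (nat_lit 1) (.e (nat_lit 30868) (nat_lit 0) .nil) .nil))) 
(.lf (nat_lit 454346) (.g (nat_lit 2298) (.e (nat_lit 2640) (nat_lit 165) (.e (nat_lit 180277) (nat_lit 32) (.e (nat_lit 1658) (nat_lit 115) (.e (nat_lit 393282) (nat_lit 24) (.e (nat_lit 434209) (nat_lit 18) (.e (nat_lit 5547) (nat_lit 306) .nil)))))) (.g (nat_lit 1) (.e (nat_lit 34497) (nat_lit 0) .nil) .nil)))) (.nd (nat_lit 9) 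
(.lf (nat_lit 454090) (.g (nat_lit 2554) (.e (nat_lit 2637) (nat_lit 165) (.e (nat_lit 180252) (nat_lit 10) (.e (nat_lit 573451) (nat_lit 9) (.e (nat_lit 1667) (nat_lit 116) (.e (nat_lit 401459) (nat_lit 13) .nil))))) (.g (nat_lit 0) (.e (nat_lit 33556) (nat_lit 0) .nil) .nil))) 
(.lf (nat_lit 454602) (.g (nat_lit 4569) (.e (nat_lit 2643) (nat_lit 165) (.e (nat_lit 180251) (nat_lit 10) (.e (nat_lit 573456) (nat_lit 9) (.e (nat_lit 1669) (nat_lit 116) (.e (nat_lit 401459) (nat_lit 13) (.e (nat_lit 483363) (nat_lit 18) (.e (nat_lit 57657) (nat_lit 152) .nil))))))) (.g (nat_lit 1) (.e (nat_lit 35179) (nat_lit 0) .nil) .nil))))))) 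
(.nd (nat_lit 6) (.nd (nat_lit 7) (.nd (nat_lit 8) (.nd (nat_lit 9) 
(.lf (nat_lit 453674) (.g (nat_lit 2444) (.e (nat_lit 2630) (nat_lit 164) (.e (nat_lit 172063) (nat_lit 2) (.e (nat_lit 196666) (nat_lit 13) (.e (nat_lit 65617) (nat_lit 10) (.e (nat_lit 344130) (nat_lit 26) (.e (nat_lit 557090) (nat_lit 12) (.e (nat_lit 163847) (nat_lit 0) (.e (nat_lit 6252) (nat_lit 337) .nil)))))))) (.g (nat_lit 1) (.e (nat_lit 30587) (nat_lit 0) .nil) .nil))) 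
(.lf (nat_lit 454186) (.g (nat_lit 1887) (.e (nat_lit 2638) (nat_lit 165) (.e (nat_lit 180278) (nat_lit 32) (.e (nat_lit 1658) (nat_lit 115) (.e (nat_lit 393271) (nat_lit 23) (.e (nat_lit 426112) (nat_lit 1) (.e (nat_lit 164348) (nat_lit 240) .nil)))))) (.g (nat_lit 1) (.e (nat_lit 33933) (nat_lit 0) .nil) .nil)))) (.nd (nat_lit 9) 
(.lf (nat_lit 453930) (.g (nat_lit 1929) (.e (nat_lit 2630) (nat_lit 164) (.e (nat_lit 172118) (nat_lit 12) (.e (nat_lit 475211) (nat_lit 41) (.e (nat_lit 712752) (nat_lit 29) (.e (nat_lit 442428) (nat_lit 24) (.e (nat_lit 229666) (nat_lit 240) .nil)))))) (.g (nat_lit 1) (.e (nat_lit 32225) (nat_lit 0) .nil) .nil))) 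
(.lf (nat_lit 454442) (.g (nat_lit 1745) (.e (nat_lit 2640) (nat_lit 165) (.e (nat_lit 180278) (nat_lit 32) (.e (nat_lit 1661) (nat_lit 115) (.e (nat_lit 393284) (nat_lit 24) (.e (nat_lit 434212) (nat_lit 18) .nil))))) (.g (nat_lit 0) (.e (nat_lit 34615) (nat_lit 0) .nil) .nil))))) (.nd (nat_lit 8) (.nd (nat_lit 9) 
(.lf (nat_lit 453802) (.g (nat_lit 3060) (.e (nat_lit 2630) (nat_lit 164) (.e (nat_lit 172066) (nat_lit 3) (.e (nat_lit 204869) (nat_lit 29) (.e (nat_lit 360475) (nat_lit 8) (.e (nat_lit 557089) (nat_lit 12) (.e (nat_lit 163843) (nat_lit 0) (.e (nat_lit 6252) (nat_lit 337) .nil))))))) (.g (nat_lit 1) (.e (nat_lit 30783) (nat_lit 0) .nil) .nil))) 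
(.lf (nat_lit 454314) (.g (nat_lit 3086) (.e (nat_lit 2640) (nat_lit 165) (.e (nat_lit 180251) (nat_lit 10) (.e (nat_lit 573456) (nat_lit 9) (.e (nat_lit 1669) (nat_lit 116) (.e (nat_lit 401459) (nat_lit 13) (.e (nat_lit 483363) (nat_lit 18) (.e (nat_lit 57667) (nat_lit 152) .nil))))))) (.g (nat_lit 1) (.e (nat_lit 34269) (nat_lit 0) .nil) .nil)))) (.nd (nat_lit 9) 
(.lf (nat_lit 454058) (.g (nat_lit 2379) (.e (nat_lit 7936) (nat_lit 164) (.e (nat_lit 172120) (nat_lit 12) (.e (nat_lit 475211) (nat_lit 41) (.e (nat_lit 712755) (nat_lit 30) (.e (nat_lit 450563) (nat_lit 0) .nil))))) (.g (nat_lit 0) (.e (nat_lit 33129) (nat_lit 0) .nil) .nil))) 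
(.lf (nat_lit 454570) (.g (nat_lit 4328) (.e (nat_lit 2643) (nat_lit 165) (.e (nat_lit 180243) (nat_lit 5) (.e (nat_lit 532550) (nat_lit 12) (.e (nat_lit 360474) (nat_lit 8) (.e (nat_lit 557093) (nat_lit 12) (.e (nat_lit 163849) (nat_lit 0) (.e (nat_lit 6254) (nat_lit 337) .nil))))))) (.g (nat_lit 1) (.e (nat_lit 35062) (nat_lit 0) .nil) .nil)))))) 
(.nd (nat_lit 7) (.nd (nat_lit 8) (.nd (nat_lit 9) 
(.lf (nat_lit 453738) (.g (nat_lit 2403) (.e (nat_lit 2630) (nat_lit 164) (.e (nat_lit 172064) (nat_lit 2) (.e (nat_lit 196666) (nat_lit 13) (.e (nat_lit 65617) (nat_lit 10) (.e (nat_lit 344133) (nat_lit 26) (.e (nat_lit 557091) (nat_lit 12) (.e (nat_lit 163841) (nat_lit 0) (.e (nat_lit 6254) (nat_lit 337) .nil)))))))) (.g (nat_lit 1) (.e (nat_lit 30666) (nat_lit 0) .nil) .nil))) 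
(.lf (nat_lit 454250) (.g (nat_lit 2974) (.e (nat_lit 2639) (nat_lit 165) (.e (nat_lit 180277) (nat_lit 32) (.e (nat_lit 1427) (nat_lit 108) (.e (nat_lit 336443) (nat_lit 32) (.e (nat_lit 466972) (nat_lit 21) (.e (nat_lit 164345) (nat_lit 240) .nil)))))) (.g (nat_lit 1) (.e (nat_lit 34119) (nat_lit 0) .nil) .nil)))) (.nd (nat_lit 9) 
(.lf (nat_lit 453994) (.g (nat_lit 2741) (.e (nat_lit 2630) (nat_lit 164) (.e (nat_lit 172124) (nat_lit 14) (.e (nat_lit 491550) (nat_lit 9) (.e (nat_lit 336430) (nat_lit 29) (.e (nat_lit 442430) (nat_lit 24) (.e (nat_lit 229665) (nat_lit 240) .nil)))))) (.g (nat_lit 1) (.e (nat_lit 32563) (nat_lit 0) .nil) .nil))) 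
(.lf (nat_lit 454506) (.g (nat_lit 1716) (.e (nat_lit 2641) (nat_lit 165) (.e (nat_lit 180277) (nat_lit 32) (.e (nat_lit 1428) (nat_lit 108) (.e (nat_lit 336430) (nat_lit 29) (.e (nat_lit 442428) (nat_lit 24) (.e (nat_lit 229663) (nat_lit 240) .nil)))))) (.g (nat_lit 1) (.e (nat_lit 34795) (nat_lit 0) .nil) .nil))))) (.nd (nat_lit 8) (.nd (nat_lit 9) 
(.lf (nat_lit 453866) (.g (nat_lit 4164) (.e (nat_lit 2630) (nat_lit 164) (.e (nat_lit 172067) (nat_lit 3) (.e (nat_lit 204869) (nat_lit 29) (.e (nat_lit 360474) (nat_lit 8) (.e (nat_lit 557094) (nat_lit 12) (.e (nat_lit 163847) (nat_lit 0) (.e (nat_lit 6255) (nat_lit 337) .nil))))))) (.g (nat_lit 1) (.e (nat_lit 30910) (nat_lit 0) .nil) .nil))) 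
(.lf (nat_lit 454378) (.g (nat_lit 1074) (.e (nat_lit 2640) (nat_lit 165) (.e (nat_lit 180277) (nat_lit 32) (.e (nat_lit 1661) (nat_lit 115) (.e (nat_lit 393274) (nat_lit 23) .nil)))) (.g (nat_lit 0) (.e (nat_lit 34537) (nat_lit 0) .nil) .nil)))) (.nd (nat_lit 9) 
(.lf (nat_lit 454122) (.g (nat_lit 2682) (.e (nat_lit 2638) (nat_lit 165) (.e (nat_lit 180277) (nat_lit 32) (.e (nat_lit 1428) (nat_lit 108) (.e (nat_lit 336430) (nat_lit 29) (.e (nat_lit 442421) (nat_lit 21) (.e (nat_lit 164345) (nat_lit 240) .nil)))))) (.g (nat_lit 1) (.e (nat_lit 33821) (nat_lit 0) .nil) .nil))) 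
(.lf (nat_lit 454634) (.g (nat_lit 440) (.e (nat_lit 2645) (nat_lit 166) (.e (nat_lit 188434) (nat_lit 20) (.e (nat_lit 3391) (nat_lit 210) .nil))) (.g (nat_lit 0) (.e (nat_lit 35640) (nat_lit 0) .nil) .nil)))))))) (.nd (nat_lit 5) (.nd (nat_lit 6) (.nd (nat_lit 7) (.nd (nat_lit 8) (.nd (nat_lit 9) 
(.lf (nat_lit 453658) (.g (nat_lit 3473) (.e (nat_lit 2630) (nat_lit 164) (.e (nat_lit 172062) (nat_lit 2) (.e (nat_lit 196666) (nat_lit 13) (.e (nat_lit 65617) (nat_lit 10) (.e (nat_lit 344132) (nat_lit 26) (.e (nat_lit 557093) (nat_lit 12) (.e (nat_lit 163849) (nat_lit 0) (.e (nat_lit 6252) (nat_lit 337) .nil)))))))) (.g (nat_lit 1) (.e (nat_lit 30571) (nat_lit 0) .nil) .nil))) 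
(.lf (nat_lit 454170) (.g (nat_lit 1571) (.e (nat_lit 2638) (nat_lit 165) (.e (nat_lit 180278) (nat_lit 32) (.e (nat_lit 1426) (nat_lit 108) (.e (nat_lit 336432) (nat_lit 30) (.e (nat_lit 458496) (nat_lit 0) (.e (nat_lit 5547) (nat_lit 306) .nil)))))) (.g (nat_lit 1) (.e (nat_lit 33904) (nat_lit 0) .nil) .nil)))) (.nd (nat_lit 9) 
(.lf (nat_lit 453914) (.g (nat_lit 1954) (.e (nat_lit 2630) (nat_lit 164) (.e (nat_lit 172113) (nat_lit 10) (.e (nat_lit 434272) (nat_lit 38) (.e (nat_lit 655380) (nat_lit 6) (.e (nat_lit 188455) (nat_lit 24) (.e (nat_lit 229664) (nat_lit 240) .nil)))))) (.g (nat_lit 1) (.e (nat_lit 32127) (nat_lit 0) .nil) .nil))) 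
(.lf (nat_lit 454426) (.g (nat_lit 1536) (.e (nat_lit 2640) (nat_lit 165) (.e (nat_lit 180278) (nat_lit 32) (.e (nat_lit 1660) (nat_lit 115) (.e (nat_lit 393281) (nat_lit 23) (.e (nat_lit 426099) (nat_lit 1) (.e (nat_lit 164345) (nat_lit 240) .nil)))))) (.g (nat_lit 1) (.e (nat_lit 34595) (nat_lit 0) .nil) .nil))))) (.nd (nat_lit 8) (.nd (nat_lit 9) 
(.lf (nat_lit 453786) (.g (nat_lit 3805) (.e (nat_lit 2630) (nat_lit 164) (.e (nat_lit 172065) (nat_lit 3) (.e (nat_lit 204869) (nat_lit 29) (.e (nat_lit 360475) (nat_lit 8) (.e (nat_lit 557091) (nat_lit 12) (.e (nat_lit 163844) (nat_lit 0) (.e (nat_lit 6252) (nat_lit 337) .nil))))))) (.g (nat_lit 1) (.e (nat_lit 30767) (nat_lit 0) .nil) .nil))) 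
(.lf (nat_lit 454298) (.g (nat_lit 1682) (.e (nat_lit 2639) (nat_lit 165) (.e (nat_lit 180278) (nat_lit 32) (.e (nat_lit 1659) (nat_lit 115) (.e (nat_lit 393281) (nat_lit 23) (.e (nat_lit 426098) (nat_lit 1) .nil))))) (.g (nat_lit 0) (.e (nat_lit 34203) (nat_lit 0) .nil) .nil)))) (.nd (nat_lit 9) 
(.lf (nat_lit 454042) (.g (nat_lit 2817) (.e (nat_lit 2632) (nat_lit 164) (.e (nat_lit 172065) (nat_lit 3) (.e (nat_lit 204869) (nat_lit 29) (.e (nat_lit 360475) (nat_lit 8) (.e (nat_lit 557091) (nat_lit 12) (.e (nat_lit 163850) (nat_lit 0) (.e (nat_lit 6273) (nat_lit 337) .nil))))))) (.g (nat_lit 1) (.e (nat_lit 32986) (nat_lit 0) .nil) .nil))) 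
(.lf (nat_lit 454554) (.g (nat_lit 2154) (.e (nat_lit 2643) (nat_lit 165) (.e (nat_lit 180243) (nat_lit 5) (.e (nat_lit 532549) (nat_lit 12) (.e (nat_lit 360474) (nat_lit 8) (.e (nat_lit 557094) (nat_lit 12) .nil))))) (.g (nat_lit 0) (.e (nat_lit 35041) (nat_lit 0) .nil) .nil)))))) (.nd (nat_lit 7) (.nd (nat_lit 8) (.nd (nat_lit 9) 
(.lf (nat_lit 453722) (.g (nat_lit 4564) (.e (nat_lit 2630) (nat_lit 164) (.e (nat_lit 172064) (nat_lit 2) (.e (nat_lit 196666) (nat_lit 13) (.e (nat_lit 65617) (nat_lit 10) (.e (nat_lit 344132) (nat_lit 26) (.e (nat_lit 557093) (nat_lit 12) (.e (nat_lit 163849) (nat_lit 0) (.e (nat_lit 6254) (nat_lit 337) .nil)))))))) (.g (nat_lit 1) (.e (nat_lit 30650) (nat_lit 0) .nil) .nil))) 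
(.lf (nat_lit 454234) (.g (nat_lit 3311) (.e (nat_lit 2639) (nat_lit 165) (.e (nat_lit 180277) (nat_lit 32) (.e (nat_lit 1253) (nat_lit 92) (.e (nat_lit 98373) (nat_lit 29) (.e (nat_lit 450560) (nat_lit 0) (.e (nat_lit 3991) (nat_lit 239) .nil)))))) (.g (nat_lit 1) (.e (nat_lit 34095) (nat_lit 0) .nil) .nil)))) (.nd (nat_lit 9) 
(.lf (nat_lit 453978) (.g (nat_lit 2217) (.e (nat_lit 2630) (nat_lit 164) (.e (nat_lit 172124) (nat_lit 14) (.e (nat_lit 491549) (nat_lit 9) (.e (nat_lit 336430) (nat_lit 29) (.e (nat_lit 442429) (nat_lit 24) .nil))))) (.g (nat_lit 0) (.e (nat_lit 32545) (nat_lit 0) .nil) .nil))) 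
(.lf (nat_lit 454490) (.g (nat_lit 506) (.e (nat_lit 2641) (nat_lit 165) (.e (nat_lit 180277) (nat_lit 32) (.e (nat_lit 1426) (nat_lit 108) .nil))) (.g (nat_lit 0) (.e (nat_lit 34776) (nat_lit 0) .nil) .nil))))) (.nd (nat_lit 8) (.nd (nat_lit 9) 
(.lf (nat_lit 453850) (.g (nat_lit 3598) (.e (nat_lit 2630) (nat_lit 164) (.e (nat_lit 172067) (nat_lit 3) (.e (nat_lit 204868) (nat_lit 29) (.e (nat_lit 360475) (nat_lit 8) (.e (nat_lit 557089) (nat_lit 12) (.e (nat_lit 163848) (nat_lit 0) (.e (nat_lit 6255) (nat_lit 337) .nil))))))) (.g (nat_lit 1) (.e (nat_lit 30891) (nat_lit 0) .nil) .nil))) 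
(.lf (nat_lit 454362) (.g (nat_lit 1406) (.e (nat_lit 2640) (nat_lit 165) (.e (nat_lit 180277) (nat_lit 32) (.e (nat_lit 1660) (nat_lit 115) (.e (nat_lit 393271) (nat_lit 23) (.e (nat_lit 426112) (nat_lit 1) (.e (nat_lit 164345) (nat_lit 240) .nil)))))) (.g (nat_lit 1) (.e (nat_lit 34514) (nat_lit 0) .nil) .nil)))) (.nd (nat_lit 9) 
(.lf (nat_lit 454106) (.g (nat_lit 974) (.e (nat_lit 2638) (nat_lit 165) (.e (nat_lit 180277) (nat_lit 32) (.e (nat_lit 1427) (nat_lit 108) (.e (nat_lit 336430) (nat_lit 29) .nil)))) (.g (nat_lit 0) (.e (nat_lit 33803) (nat_lit 0) .nil) .nil))) 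
(.lf (nat_lit 454618) (.g (nat_lit 3259) (.e (nat_lit 2643) (nat_lit 165) (.e (nat_lit 180277) (nat_lit 32) (.e (nat_lit 1427) (nat_lit 108) (.e (nat_lit 336426) (nat_lit 29) (.e (nat_lit 442430) (nat_lit 24) (.e (nat_lit 229663) (nat_lit 240) .nil)))))) (.g (nat_lit 1) (.e (nat_lit 35318) (nat_lit 0) .nil) .nil))))))) (.nd (nat_lit 6) (.nd (nat_lit 7) (.nd (nat_lit 8) (.nd (nat_lit 9) 
(.lf (nat_lit 453690) (.g (nat_lit 5314) (.e (nat_lit 2630) (nat_lit 164) (.e (nat_lit 172064) (nat_lit 2) (.e (nat_lit 196666) (nat_lit 13) (.e (nat_lit 65610) (nat_lit 10) (.e (nat_lit 344129) (nat_lit 26) (.e (nat_lit 557089) (nat_lit 12) (.e (nat_lit 163844) (nat_lit 0) (.e (nat_lit 6254) (nat_lit 337) .nil)))))))) (.g (nat_lit 1) (.e (nat_lit 30618) (nat_lit 0) .nil) .nil))) 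
(.lf (nat_lit 454202) (.g (nat_lit 3265) (.e (nat_lit 2638) (nat_lit 165) (.e (nat_lit 180278) (nat_lit 32) (.e (nat_lit 1660) (nat_lit 115) (.e (nat_lit 393271) (nat_lit 23) (.e (nat_lit 426112) (nat_lit 1) (.e (nat_lit 164348) (nat_lit 240) .nil)))))) (.g (nat_lit 1) (.e (nat_lit 33954) (nat_lit 0) .nil) .nil)))) (.nd (nat_lit 9) 
(.lf (nat_lit 453946) (.g (nat_lit 1930) (.e (nat_lit 2630) (nat_lit 164) (.e (nat_lit 172120) (nat_lit 12) (.e (nat_lit 475198) (nat_lit 40) (.e (nat_lit 704599) (nat_lit 6) (.e (nat_lit 188454) (nat_lit 24) (.e (nat_lit 229665) (nat_lit 240) .nil)))))) (.g (nat_lit 1) (.e (nat_lit 32244) (nat_lit 0) .nil) .nil))) 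
(.lf (nat_lit 454458) (.g (nat_lit 4014) (.e (nat_lit 2641) (nat_lit 165) (.e (nat_lit 180244) (nat_lit 5) (.e (nat_lit 532550) (nat_lit 12) (.e (nat_lit 360474) (nat_lit 8) (.e (nat_lit 557093) (nat_lit 12) (.e (nat_lit 163847) (nat_lit 0) (.e (nat_lit 6255) (nat_lit 337) .nil))))))) (.g (nat_lit 1) (.e (nat_lit 34672) (nat_lit 0) .nil) .nil))))) (.nd (nat_lit 8) (.nd (nat_lit 9) 
(.lf (nat_lit 453818) (.g (nat_lit 4472) (.e (nat_lit 2630) (nat_lit 164) (.e (nat_lit 172066) (nat_lit 3) (.e (nat_lit 204869) (nat_lit 29) (.e (nat_lit 360475) (nat_lit 8) (.e (nat_lit 557091) (nat_lit 12) (.e (nat_lit 163849) (nat_lit 0) (.e (nat_lit 6254) (nat_lit 337) .nil))))))) (.g (nat_lit 1) (.e (nat_lit 30799) (nat_lit 0) .nil) .nil))) 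
(.lf (nat_lit 454330) (.g (nat_lit 2999) (.e (nat_lit 2640) (nat_lit 165) (.e (nat_lit 180277) (nat_lit 32) (.e (nat_lit 1427) (nat_lit 108) (.e (nat_lit 336430) (nat_lit 29) (.e (nat_lit 442419) (nat_lit 21) (.e (nat_lit 164345) (nat_lit 240) .nil)))))) (.g (nat_lit 1) (.e (nat_lit 34481) (nat_lit 0) .nil) .nil)))) (.nd (nat_lit 9) 
(.lf (nat_lit 454074) (.g (nat_lit 3596) (.e (nat_lit 2636) (nat_lit 165) (.e (nat_lit 180243) (nat_lit 5) (.e (nat_lit 532550) (nat_lit 12) (.e (nat_lit 360474) (nat_lit 8) (.e (nat_lit 557093) (nat_lit 12) (.e (nat_lit 163853) (nat_lit 0) (.e (nat_lit 6273) (nat_lit 337) .nil))))))) (.g (nat_lit 1) (.e (nat_lit 33255) (nat_lit 0) .nil) .nil))) 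
(.lf (nat_lit 454586) (.g (nat_lit 5903) (.e (nat_lit 2643) (nat_lit 165) (.e (nat_lit 180243) (nat_lit 5) (.e (nat_lit 532550) (nat_lit 12) (.e (nat_lit 360475) (nat_lit 8) (.e (nat_lit 557091) (nat_lit 12) (.e (nat_lit 163843) (nat_lit 0) (.e (nat_lit 6255) (nat_lit 337) .nil))))))) (.g (nat_lit 1) (.e (nat_lit 35078) (nat_lit 0) .nil) .nil)))))) 
(.nd (nat_lit 7) (.nd (nat_lit 8) (.nd (nat_lit 9) 
(.lf (nat_lit 453754) (.g (nat_lit 3295) (.e (nat_lit 2630) (nat_lit 164) (.e (nat_lit 172065) (nat_lit 3) (.e (nat_lit 204868) (nat_lit 29) (.e (nat_lit 360473) (nat_lit 8) (.e (nat_lit 557091) (nat_lit 12) (.e (nat_lit 163844) (nat_lit 0) (.e (nat_lit 6254) (nat_lit 337) .nil))))))) (.g (nat_lit 1) (.e (nat_lit 30731) (nat_lit 0) .nil) .nil))) 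
(.lf (nat_lit 454266) (.g (nat_lit 2868) (.e (nat_lit 2639) (nat_lit 165) (.e (nat_lit 180277) (nat_lit 32) (.e (nat_lit 1659) (nat_lit 115) (.e (nat_lit 393283) (nat_lit 24) (.e (nat_lit 434209) (nat_lit 18) (.e (nat_lit 5546) (nat_lit 306) .nil)))))) (.g (nat_lit 1) (.e (nat_lit 34135) (nat_lit 0) .nil) .nil)))) (.nd (nat_lit 9) 
(.lf (nat_lit 454010) (.g (nat_lit 3602) (.e (nat_lit 2630) (nat_lit 164) (.e (nat_lit 172126) (nat_lit 14) (.e (nat_lit 491549) (nat_lit 9) (.e (nat_lit 336430) (nat_lit 29) (.e (nat_lit 442428) (nat_lit 24) (.e (nat_lit 229665) (nat_lit 240) .nil)))))) (.g (nat_lit 1) (.e (nat_lit 32725) (nat_lit 0) .nil) .nil))) 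
(.lf (nat_lit 454522) (.g (nat_lit 1763) (.e (nat_lit 2641) (nat_lit 165) (.e (nat_lit 180278) (nat_lit 32) (.e (nat_lit 1426) (nat_lit 108) (.e (nat_lit 336430) (nat_lit 29) (.e (nat_lit 442429) (nat_lit 24) (.e (nat_lit 229663) (nat_lit 240) .nil)))))) (.g (nat_lit 1) (.e (nat_lit 34817) (nat_lit 0) .nil) .nil))))) (.nd (nat_lit 8) (.nd (nat_lit 9) 
(.lf (nat_lit 453882) (.g (nat_lit 2773) (.e (nat_lit 2630) (nat_lit 164) (.e (nat_lit 172067) (nat_lit 3) (.e (nat_lit 204869) (nat_lit 29) (.e (nat_lit 360475) (nat_lit 8) (.e (nat_lit 557091) (nat_lit 12) (.e (nat_lit 163841) (nat_lit 0) (.e (nat_lit 6255) (nat_lit 337) .nil))))))) (.g (nat_lit 1) (.e (nat_lit 30926) (nat_lit 0) .nil) .nil))) 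
(.lf (nat_lit 454394) (.g (nat_lit 2132) (.e (nat_lit 2640) (nat_lit 165) (.e (nat_lit 180278) (nat_lit 32) (.e (nat_lit 1428) (nat_lit 108) (.e (nat_lit 336430) (nat_lit 29) (.e (nat_lit 442419) (nat_lit 21) (.e (nat_lit 164345) (nat_lit 240) .nil)))))) (.g (nat_lit 1) (.e (nat_lit 34562) (nat_lit 0) .nil) .nil)))) (.nd (nat_lit 9) 
(.lf (nat_lit 454138) (.g (nat_lit 1879) (.e (nat_lit 2638) (nat_lit 165) (.e (nat_lit 180277) (nat_lit 32) (.e (nat_lit 1659) (nat_lit 115) (.e (nat_lit 393281) (nat_lit 23) (.e (nat_lit 426098) (nat_lit 1) (.e (nat_lit 164345) (nat_lit 240) .nil)))))) (.g (nat_lit 1) (.e (nat_lit 33837) (nat_lit 0) .nil) .nil))) 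
(.lf (nat_lit 454650) (.g (nat_lit 3055) (.e (nat_lit 2646) (nat_lit 166) (.e (nat_lit 188440) (nat_lit 20) (.e (nat_lit 3468) (nat_lit 217) (.e (nat_lit 696343) (nat_lit 8) (.e (nat_lit 172115) (nat_lit 10) (.e (nat_lit 434209) (nat_lit 18) (.e (nat_lit 6273) (nat_lit 337) .nil))))))) (.g (nat_lit 1) (.e (nat_lit 35914) (nat_lit 0) .nil) .nil)))))))))) 
(.nd (nat_lit 3) (.nd (nat_lit 4) (.nd (nat_lit 5) (.nd (nat_lit 6) (.nd (nat_lit 7) 
(.nd (nat_lit 8) (.nd (nat_lit 9) 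
(.lf (nat_lit 453638) (.g (nat_lit 1632) (.e (nat_lit 2630) (nat_lit 164) (.e (nat_lit 172062) (nat_lit 2) (.e (nat_lit 196666) (nat_lit 13) (.e (nat_lit 65617) (nat_lit 10) (.e (nat_lit 344127) (nat_lit 26) (.e (nat_lit 557089) (nat_lit 12) (.e (nat_lit 163844) (nat_lit 0) (.e (nat_lit 6254) (nat_lit 337) .nil)))))))) (.g (nat_lit 1) (.e (nat_lit 30551) (nat_lit 0) .nil) .nil))) 
(.lf (nat_lit 454150) (.g (nat_lit 2581) (.e (nat_lit 2638) (nat_lit 165) (.e (nat_lit 180277) (nat_lit 32) (.e (nat_lit 1660) (nat_lit 115) (.e (nat_lit 393281) (nat_lit 23) (.e (nat_lit 426107) (nat_lit 1) (.e (nat_lit 164345) (nat_lit 240) .nil)))))) (.g (nat_lit 1) (.e (nat_lit 33853) (nat_lit 0) .nil) .nil)))) (.nd (nat_lit 9) 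
(.lf (nat_lit 453894) (.g (nat_lit 3286) (.e (nat_lit 2630) (nat_lit 164) (.e (nat_lit 172106) (nat_lit 10) (.e (nat_lit 434209) (nat_lit 18) (.e (nat_lit 5212) (nat_lit 295) (.e (nat_lit 122916) (nat_lit 14) (.e (nat_lit 352309) (nat_lit 21) (.e (nat_lit 57822) (nat_lit 250) .nil))))))) (.g (nat_lit 1) (.e (nat_lit 31569) (nat_lit 0) .nil) .nil))) 
(.lf (nat_lit 454406) (.g (nat_lit 1614) (.e (nat_lit 2640) (nat_lit 165) (.e (nat_lit 180278) (nat_lit 32) (.e (nat_lit 1658) (nat_lit 115) (.e (nat_lit 393266) (nat_lit 23) (.e (nat_lit 426109) (nat_lit 1) (.e (nat_lit 164347) (nat_lit 240) .nil)))))) (.g (nat_lit 1) (.e (nat_lit 34574) (nat_lit 0) .nil) .nil))))) (.nd (nat_lit 8) (.nd (nat_lit 9) 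
(.lf (nat_lit 453766) (.g (nat_lit 3148) (.e (nat_lit 2630) (nat_lit 164) (.e (nat_lit 172065) (nat_lit 3) (.e (nat_lit 204869) (nat_lit 29) (.e (nat_lit 360474) (nat_lit 8) (.e (nat_lit 557093) (nat_lit 12) (.e (nat_lit 163847) (nat_lit 0) (.e (nat_lit 6252) (nat_lit 337) .nil))))))) (.g (nat_lit 1) (.e (nat_lit 30747) (nat_lit 0) .nil) .nil))) 
(.lf (nat_lit 454278) (.g (nat_lit 790) (.e (nat_lit 2639) (nat_lit 165) (.e (nat_lit 180278) (nat_lit 32) (.e (nat_lit 1426) (nat_lit 108) (.e (nat_lit 336434) (nat_lit 30) .nil)))) (.g (nat_lit 0) (.e (nat_lit 34178) (nat_lit 0) .nil) .nil)))) (.nd (nat_lit 9) 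
(.lf (nat_lit 454022) (.g (nat_lit 2531) (.e (nat_lit 2630) (nat_lit 164) (.e (nat_lit 172126) (nat_lit 14) (.e (nat_lit 491549) (nat_lit 9) (.e (nat_lit 336443) (nat_lit 32) (.e (nat_lit 466982) (nat_lit 24) (.e (nat_lit 229665) (nat_lit 240) .nil)))))) (.g (nat_lit 1) (.e (nat_lit 32738) (nat_lit 0) .nil) .nil))) 
(.lf (nat_lit 454534) (.g (nat_lit 1441) (.e (nat_lit 2643) (nat_lit 165) (.e (nat_lit 180243) (nat_lit 5) (.e (nat_lit 532549) (nat_lit 12) (.e (nat_lit 360472) (nat_lit 8) .nil)))) (.g (nat_lit 0) (.e (nat_lit 35013) (nat_lit 0) .nil) .nil)))))) (.nd (nat_lit 7) (.nd (nat_lit 8) (.nd (nat_lit 9) 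
(.lf (nat_lit 453702) (.g (nat_lit 4030) (.e (nat_lit 2630) (nat_lit 164) (.e (nat_lit 172064) (nat_lit 2) (.e (nat_lit 196666) (nat_lit 13) (.e (nat_lit 65617) (nat_lit 10) (.e (nat_lit 344127) (nat_lit 26) (.e (nat_lit 557090) (nat_lit 12) (.e (nat_lit 163843) (nat_lit 0) (.e (nat_lit 6252) (nat_lit 337) .nil)))))))) (.g (nat_lit 1) (.e (nat_lit 30630) (nat_lit 0) .nil) .nil))) 
(.lf (nat_lit 454214) (.g (nat_lit 2069) (.e (nat_lit 2638) (nat_lit 165) (.e (nat_lit 180278) (nat_lit 32) (.e (nat_lit 1661) (nat_lit 115) (.e (nat_lit 393271) (nat_lit 23) (.e (nat_lit 426112) (nat_lit 1) .nil))))) (.g (nat_lit 0) (.e (nat_lit 33983) (nat_lit 0) .nil) .nil)))) (.nd (nat_lit 9) 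
(.lf (nat_lit 453958) (.g (nat_lit 2933) (.e (nat_lit 2630) (nat_lit 164) (.e (nat_lit 172120) (nat_lit 12) (.e (nat_lit 475210) (nat_lit 41) (.e (nat_lit 712752) (nat_lit 29) (.e (nat_lit 442430) (nat_lit 24) (.e (nat_lit 229666) (nat_lit 240) .nil)))))) (.g (nat_lit 1) (.e (nat_lit 32267) (nat_lit 0) .nil) .nil))) 
(.lf (nat_lit 454470) (.g (nat_lit 3840) (.e (nat_lit 2641) (nat_lit 165) (.e (nat_lit 180244) (nat_lit 5) (.e (nat_lit 532550) (nat_lit 12) (.e (nat_lit 360475) (nat_lit 8) (.e (nat_lit 557089) (nat_lit 12) (.e (nat_lit 163843) (nat_lit 0) (.e (nat_lit 6252) (nat_lit 337) .nil))))))) (.g (nat_lit 1) (.e (nat_lit 34684) (nat_lit 0) .nil) .nil))))) (.nd (nat_lit 8) (.nd (nat_lit 9) 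
(.lf (nat_lit 453830) (.g (nat_lit 4101) (.e (nat_lit 2630) (nat_lit 164) (.e (nat_lit 172067) (nat_lit 3) (.e (nat_lit 204868) (nat_lit 29) (.e (nat_lit 360473) (nat_lit 8) (.e (nat_lit 557089) (nat_lit 12) (.e (nat_lit 163849) (nat_lit 0) (.e (nat_lit 6254) (nat_lit 337) .nil))))))) (.g (nat_lit 1) (.e (nat_lit 30861) (nat_lit 0) .nil) .nil))) 
(.lf (nat_lit 454342) (.g (nat_lit 1575) (.e (nat_lit 2640) (nat_lit 165) (.e (nat_lit 180277) (nat_lit 32) (.e (nat_lit 1428) (nat_lit 108) (.e (nat_lit 336432) (nat_lit 30) (.e (nat_lit 458496) (nat_lit 0) (.e (nat_lit 5546) (nat_lit 306) .nil)))))) (.g (nat_lit 1) (.e (nat_lit 34493) (nat_lit 0) .nil) .nil)))) (.nd (nat_lit 9) 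
(.lf (nat_lit 454086) (.g (nat_lit 4793) (.e (nat_lit 2636) (nat_lit 165) (.e (nat_lit 180277) (nat_lit 32) (.e (nat_lit 1253) (nat_lit 92) (.e (nat_lit 98373) (nat_lit 29) (.e (nat_lit 450563) (nat_lit 0) (.e (nat_lit 3919) (nat_lit 239) .nil)))))) (.g (nat_lit 1) (.e (nat_lit 33490) (nat_lit 0) .nil) .nil))) 
(.lf (nat_lit 454598) (.g (nat_lit 4239) (.e (nat_lit 2643) (nat_lit 165) (.e (nat_lit 180250) (nat_lit 10) (.e (nat_lit 573456) (nat_lit 9) (.e (nat_lit 1669) (nat_lit 116) (.e (nat_lit 401459) (nat_lit 13) (.e (nat_lit 483363) (nat_lit 18) (.e (nat_lit 57657) (nat_lit 152) .nil))))))) (.g (nat_lit 1) (.e (nat_lit 35110) (nat_lit 0) .nil) .nil))))))) 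
(.nd (nat_lit 6) (.nd (nat_lit 7) (.nd (nat_lit 8) (.nd (nat_lit 9) 
(.lf (nat_lit 453670) (.g (nat_lit 2630) (.e (nat_lit 2630) (nat_lit 164) (.e (nat_lit 172063) (nat_lit 2) (.e (nat_lit 196666) (nat_lit 13) (.e (nat_lit 65617) (nat_lit 10) (.e (nat_lit 344130) (nat_lit 26) (.e (nat_lit 557089) (nat_lit 12) (.e (nat_lit 163849) (nat_lit 0) (.e (nat_lit 6255) (nat_lit 337) .nil)))))))) (.g (nat_lit 1) (.e (nat_lit 30583) (nat_lit 0) .nil) .nil))) 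
(.lf (nat_lit 454182) (.g (nat_lit 3259) (.e (nat_lit 2638) (nat_lit 165) (.e (nat_lit 180278) (nat_lit 32) (.e (nat_lit 1428) (nat_lit 108) (.e (nat_lit 336443) (nat_lit 32) (.e (nat_lit 466971) (nat_lit 21) (.e (nat_lit 164348) (nat_lit 240) .nil)))))) (.g (nat_lit 1) (.e (nat_lit 33929) (nat_lit 0) .nil) .nil)))) (.nd (nat_lit 9) 
(.lf (nat_lit 453926) (.g (nat_lit 2935) (.e (nat_lit 2630) (nat_lit 164) (.e (nat_lit 172118) (nat_lit 12) (.e (nat_lit 475210) (nat_lit 41) (.e (nat_lit 712755) (nat_lit 30) (.e (nat_lit 450569) (nat_lit 0) (.e (nat_lit 5448) (nat_lit 306) .nil)))))) (.g (nat_lit 1) (.e (nat_lit 32220) (nat_lit 0) .nil) .nil))) 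
(.lf (nat_lit 454438) (.g (nat_lit 3436) (.e (nat_lit 2640) (nat_lit 165) (.e (nat_lit 180278) (nat_lit 32) (.e (nat_lit 1661) (nat_lit 115) (.e (nat_lit 393282) (nat_lit 24) (.e (nat_lit 434209) (nat_lit 18) (.e (nat_lit 5548) (nat_lit 306) .nil)))))) (.g (nat_lit 1) (.e (nat_lit 34611) (nat_lit 0) .nil) .nil))))) (.nd (nat_lit 8) (.nd (nat_lit 9) 
(.lf (nat_lit 453798) (.g (nat_lit 2912) (.e (nat_lit 2630) (nat_lit 164) (.e (nat_lit 172066) (nat_lit 3) (.e (nat_lit 204869) (nat_lit 29) (.e (nat_lit 360474) (nat_lit 8) (.e (nat_lit 557093) (nat_lit 12) (.e (nat_lit 163848) (nat_lit 0) (.e (nat_lit 6252) (nat_lit 337) .nil))))))) (.g (nat_lit 1) (.e (nat_lit 30779) (nat_lit 0) .nil) .nil))) 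
(.lf (nat_lit 454310) (.g (nat_lit 2845) (.e (nat_lit 2639) (nat_lit 165) (.e (nat_lit 180278) (nat_lit 32) (.e (nat_lit 1660) (nat_lit 115) (.e (nat_lit 393281) (nat_lit 23) (.e (nat_lit 426108) (nat_lit 1) (.e (nat_lit 164345) (nat_lit 240) .nil)))))) (.g (nat_lit 1) (.e (nat_lit 34217) (nat_lit 0) .nil) .nil)))) (.nd (nat_lit 9) 
(.lf (nat_lit 454054) (.g (nat_lit 2847) (.e (nat_lit 2633) (nat_lit 164) (.e (nat_lit 172066) (nat_lit 3) (.e (nat_lit 204869) (nat_lit 29) (.e (nat_lit 360475) (nat_lit 8) (.e (nat_lit 557091) (nat_lit 12) .nil))))) (.g (nat_lit 0) (.e (nat_lit 33065) (nat_lit 0) .nil) .nil))) 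
(.lf (nat_lit 454566) (.g (nat_lit 4953) (.e (nat_lit 2643) (nat_lit 165) (.e (nat_lit 180243) (nat_lit 5) (.e (nat_lit 532549) (nat_lit 12) (.e (nat_lit 360475) (nat_lit 8) (.e (nat_lit 557091) (nat_lit 12) (.e (nat_lit 163844) (nat_lit 0) (.e (nat_lit 6255) (nat_lit 337) .nil))))))) (.g (nat_lit 1) (.e (nat_lit 35056) (nat_lit 0) .nil) .nil)))))) 
(.nd (nat_lit 7) (.nd (nat_lit 8) (.nd (nat_lit 9) 
(.lf (nat_lit 453734) (.g (nat_lit 3756) (.e (nat_lit 2630) (nat_lit 164) (.e (nat_lit 172064) (nat_lit 2) (.e (nat_lit 196666) (nat_lit 13) (.e (nat_lit 65617) (nat_lit 10) (.e (nat_lit 344133) (nat_lit 26) (.e (nat_lit 557089) (nat_lit 12) (.e (nat_lit 163849) (nat_lit 0) (.e (nat_lit 6252) (nat_lit 337) .nil)))))))) (.g (nat_lit 1) (.e (nat_lit 30662) (nat_lit 0) .nil) .nil))) 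
(.lf (nat_lit 454246) (.g (nat_lit 3260) (.e (nat_lit 2639) (nat_lit 165) (.e (nat_lit 180277) (nat_lit 32) (.e (nat_lit 1427) (nat_lit 108) (.e (nat_lit 336430) (nat_lit 29) (.e (nat_lit 442419) (nat_lit 21) (.e (nat_lit 164346) (nat_lit 240) .nil)))))) (.g (nat_lit 1) (.e (nat_lit 34111) (nat_lit 0) .nil) .nil)))) (.nd (nat_lit 9) 
(.lf (nat_lit 453990) (.g (nat_lit 2566) (.e (nat_lit 2630) (nat_lit 164) (.e (nat_lit 172124) (nat_lit 14) (.e (nat_lit 491550) (nat_lit 9) (.e (nat_lit 336430) (nat_lit 29) (.e (nat_lit 442428) (nat_lit 24) (.e (nat_lit 229665) (nat_lit 240) .nil)))))) (.g (nat_lit 1) (.e (nat_lit 32559) (nat_lit 0) .nil) .nil))) 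
(.lf (nat_lit 454502) (.g (nat_lit 2772) (.e (nat_lit 2641) (nat_lit 165) (.e (nat_lit 180277) (nat_lit 32) (.e (nat_lit 1427) (nat_lit 108) (.e (nat_lit 336430) (nat_lit 29) (.e (nat_lit 442430) (nat_lit 24) (.e (nat_lit 229665) (nat_lit 240) .nil)))))) (.g (nat_lit 1) (.e (nat_lit 34788) (nat_lit 0) .nil) .nil))))) (.nd (nat_lit 8) (.nd (nat_lit 9) 
(.lf (nat_lit 453862) (.g (nat_lit 3322) (.e (nat_lit 2630) (nat_lit 164) (.e (nat_lit 172067) (nat_lit 3) (.e (nat_lit 204869) (nat_lit 29) (.e (nat_lit 360474) (nat_lit 8) (.e (nat_lit 557093) (nat_lit 12) (.e (nat_lit 163849) (nat_lit 0) (.e (nat_lit 6252) (nat_lit 337) .nil))))))) (.g (nat_lit 1) (.e (nat_lit 30906) (nat_lit 0) .nil) .nil))) 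
(.lf (nat_lit 454374) (.g (nat_lit 1648) (.e (nat_lit 2640) (nat_lit 165) (.e (nat_lit 180277) (nat_lit 32) (.e (nat_lit 1661) (nat_lit 115) (.e (nat_lit 393238) (nat_lit 17) (.e (nat_lit 7936) (nat_lit 391) .nil))))) (.g (nat_lit 0) (.e (nat_lit 34528) (nat_lit 0) .nil) .nil)))) (.nd (nat_lit 9) 
(.lf (nat_lit 454118) (.g (nat_lit 3552) (.e (nat_lit 2638) (nat_lit 165) (.e (nat_lit 180277) (nat_lit 32) (.e (nat_lit 1427) (nat_lit 108) (.e (nat_lit 336443) (nat_lit 32) (.e (nat_lit 466971) (nat_lit 21) (.e (nat_lit 164347) (nat_lit 240) .nil)))))) (.g (nat_lit 1) (.e (nat_lit 33816) (nat_lit 0) .nil) .nil))) 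
(.lf (nat_lit 454630) (.g (nat_lit 2712) (.e (nat_lit 2643) (nat_lit 165) (.e (nat_lit 180277) (nat_lit 32) (.e (nat_lit 1428) (nat_lit 108) (.e (nat_lit 336430) (nat_lit 29) (.e (nat_lit 442430) (nat_lit 24) (.e (nat_lit 229666) (nat_lit 240) .nil)))))) (.g (nat_lit 1) (.e (nat_lit 35334) (nat_lit 0) .nil) .nil)))))))) 
(.nd (nat_lit 5) (.nd (nat_lit 6) (.nd (nat_lit 7) (.nd (nat_lit 8) (.nd (nat_lit 9) 
(.lf (nat_lit 453654) (.g (nat_lit 3380) (.e (nat_lit 2630) (nat_lit 164) (.e (nat_lit 172062) (nat_lit 2) (.e (nat_lit 196666) (nat_lit 13) (.e (nat_lit 65617) (nat_lit 10) (.e (nat_lit 344132) (nat_lit 26) (.e (nat_lit 557093) (nat_lit 12) (.e (nat_lit 163847) (nat_lit 0) (.e (nat_lit 6252) (nat_lit 337) .nil)))))))) (.g (nat_lit 1) (.e (nat_lit 30567) (nat_lit 0) .nil) .nil))) 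
(.lf (nat_lit 454166) (.g (nat_lit 3049) (.e (nat_lit 2638) (nat_lit 165) (.e (nat_lit 180278) (nat_lit 32) (.e (nat_lit 1425) (nat_lit 108) (.e (nat_lit 336430) (nat_lit 29) (.e (nat_lit 442421) (nat_lit 21) (.e (nat_lit 164348) (nat_lit 240) .nil)))))) (.g (nat_lit 1) (.e (nat_lit 33900) (nat_lit 0) .nil) .nil)))) (.nd (nat_lit 9) 
(.lf (nat_lit 453910) (.g (nat_lit 698) (.e (nat_lit 2630) (nat_lit 164) (.e (nat_lit 172107) (nat_lit 10) (.e (nat_lit 434272) (nat_lit 38) (.e (nat_lit 655380) (nat_lit 6) .nil)))) (.g (nat_lit 0) (.e (nat_lit 31956) (nat_lit 0) .nil) .nil))) 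
(.lf (nat_lit 454422) (.g (nat_lit 1887) (.e (nat_lit 2640) (nat_lit 165) (.e (nat_lit 180278) (nat_lit 32) (.e (nat_lit 1660) (nat_lit 115) (.e (nat_lit 393266) (nat_lit 23) (.e (nat_lit 426109) (nat_lit 1) (.e (nat_lit 164347) (nat_lit 240) .nil)))))) (.g (nat_lit 1) (.e (nat_lit 34591) (nat_lit 0) .nil) .nil))))) (.nd (nat_lit 8) (.nd (nat_lit 9) 
(.lf (nat_lit 453782) (.g (nat_lit 2870) (.e (nat_lit 2630) (nat_lit 164) (.e (nat_lit 172065) (nat_lit 3) (.e (nat_lit 204869) (nat_lit 29) (.e (nat_lit 360475) (nat_lit 8) (.e (nat_lit 557091) (nat_lit 12) (.e (nat_lit 163840) (nat_lit 0) (.e (nat_lit 6255) (nat_lit 337) .nil))))))) (.g (nat_lit 1) (.e (nat_lit 30763) (nat_lit 0) .nil) .nil))) 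
(.lf (nat_lit 454294) (.g (nat_lit 1320) (.e (nat_lit 2639) (nat_lit 165) (.e (nat_lit 180278) (nat_lit 32) (.e (nat_lit 1659) (nat_lit 115) (.e (nat_lit 393275) (nat_lit 23) .nil)))) (.g (nat_lit 0) (.e (nat_lit 34199) (nat_lit 0) .nil) .nil)))) (.nd (nat_lit 9) 
(.lf (nat_lit 454038) (.g (nat_lit 2278) (.e (nat_lit 2631) (nat_lit 164) (.e (nat_lit 172126) (nat_lit 14) (.e (nat_lit 491537) (nat_lit 2) (.e (nat_lit 90170) (nat_lit 13) (.e (nat_lit 172113) (nat_lit 10) .nil))))) (.g (nat_lit 0) (.e (nat_lit 32966) (nat_lit 0) .nil) .nil))) 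
(.lf (nat_lit 454550) (.g (nat_lit 2598) (.e (nat_lit 2643) (nat_lit 165) (.e (nat_lit 180243) (nat_lit 5) (.e (nat_lit 532549) (nat_lit 12) (.e (nat_lit 360473) (nat_lit 8) (.e (nat_lit 557094) (nat_lit 12) .nil))))) (.g (nat_lit 0) (.e (nat_lit 35034) (nat_lit 0) .nil) .nil)))))) (.nd (nat_lit 7) (.nd (nat_lit 8) (.nd (nat_lit 9) 
(.lf (nat_lit 453718) (.g (nat_lit 3468) (.e (nat_lit 2630) (nat_lit 164) (.e (nat_lit 172064) (nat_lit 2) (.e (nat_lit 196666) (nat_lit 13) (.e (nat_lit 65617) (nat_lit 10) (.e (nat_lit 344132) (nat_lit 26) (.e (nat_lit 557093) (nat_lit 12) (.e (nat_lit 163847) (nat_lit 0) (.e (nat_lit 6254) (nat_lit 337) .nil)))))))) (.g (nat_lit 1) (.e (nat_lit 30646) (nat_lit 0) .nil) .nil))) 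
(.lf (nat_lit 454230) (.g (nat_lit 2319) (.e (nat_lit 2638) (nat_lit 165) (.e (nat_lit 188160) (nat_lit 32) (.e (nat_lit 1256) (nat_lit 92) (.e (nat_lit 98373) (nat_lit 29) (.e (nat_lit 450560) (nat_lit 0) (.e (nat_lit 3991) (nat_lit 239) .nil)))))) (.g (nat_lit 1) (.e (nat_lit 34010) (nat_lit 0) .nil) .nil)))) (.nd (nat_lit 9) 
(.lf (nat_lit 453974) (.g (nat_lit 2409) (.e (nat_lit 2630) (nat_lit 164) (.e (nat_lit 172124) (nat_lit 14) (.e (nat_lit 491549) (nat_lit 9) (.e (nat_lit 336426) (nat_lit 29) (.e (nat_lit 442430) (nat_lit 24) (.e (nat_lit 229666) (nat_lit 240) .nil)))))) (.g (nat_lit 1) (.e (nat_lit 32540) (nat_lit 0) .nil) .nil))) 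
(.lf (nat_lit 454486) (.g (nat_lit 3652) (.e (nat_lit 2641) (nat_lit 165) (.e (nat_lit 180244) (nat_lit 5) (.e (nat_lit 532550) (nat_lit 12) (.e (nat_lit 360475) (nat_lit 8) (.e (nat_lit 557091) (nat_lit 12) (.e (nat_lit 163847) (nat_lit 0) (.e (nat_lit 6250) (nat_lit 337) .nil))))))) (.g (nat_lit 1) (.e (nat_lit 34700) (nat_lit 0) .nil) .nil))))) (.nd (nat_lit 8) (.nd (nat_lit 9) 
(.lf (nat_lit 453846) (.g (nat_lit 3300) (.e (nat_lit 2630) (nat_lit 164) (.e (nat_lit 172067) (nat_lit 3) (.e (nat_lit 204868) (nat_lit 29) (.e (nat_lit 360475) (nat_lit 8) (.e (nat_lit 557089) (nat_lit 12) .nil))))) (.g (nat_lit 0) (.e (nat_lit 30886) (nat_lit 0) .nil) .nil))) 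
(.lf (nat_lit 454358) (.g (nat_lit 2799) (.e (nat_lit 2640) (nat_lit 165) (.e (nat_lit 180277) (nat_lit 32) (.e (nat_lit 1659) (nat_lit 115) (.e (nat_lit 393282) (nat_lit 24) (.e (nat_lit 434209) (nat_lit 18) (.e (nat_lit 5547) (nat_lit 306) .nil)))))) (.g (nat_lit 1) (.e (nat_lit 34509) (nat_lit 0) .nil) .nil)))) (.nd (nat_lit 9) 
(.lf (nat_lit 454102) (.g (nat_lit 2197) (.e (nat_lit 2638) (nat_lit 165) (.e (nat_lit 180277) (nat_lit 32) (.e (nat_lit 1253) (nat_lit 92) (.e (nat_lit 98373) (nat_lit 29) (.e (nat_lit 458496) (nat_lit 0) (.e (nat_lit 3987) (nat_lit 239) .nil)))))) (.g (nat_lit 1) (.e (nat_lit 33796) (nat_lit 0) .nil) .nil))) 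
(.lf (nat_lit 454614) (.g (nat_lit 2238) (.e (nat_lit 2643) (nat_lit 165) (.e (nat_lit 180277) (nat_lit 32) (.e (nat_lit 1426) (nat_lit 108) (.e (nat_lit 336430) (nat_lit 29) (.e (nat_lit 442428) (nat_lit 24) (.e (nat_lit 229666) (nat_lit 240) .nil)))))) (.g (nat_lit 1) (.e (nat_lit 35309) (nat_lit 0) .nil) .nil))))))) (.nd (nat_lit 6) (.nd (nat_lit 7) (.nd (nat_lit 8) (.nd (nat_lit 9) 
(.lf (nat_lit 453686) (.g (nat_lit 2652) (.e (nat_lit 2630) (nat_lit 164) (.e (nat_lit 172063) (nat_lit 2) (.e (nat_lit 196666) (nat_lit 13) (.e (nat_lit 65617) (nat_lit 10) (.e (nat_lit 344133) (nat_lit 26) (.e (nat_lit 557091) (nat_lit 12) (.e (nat_lit 163849) (nat_lit 0) (.e (nat_lit 6255) (nat_lit 337) .nil)))))))) (.g (nat_lit 1) (.e (nat_lit 30599) (nat_lit 0) .nil) .nil))) 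
(.lf (nat_lit 454198) (.g (nat_lit 1762) (.e (nat_lit 2638) (nat_lit 165) (.e (nat_lit 180278) (nat_lit 32) (.e (nat_lit 1659) (nat_lit 115) (.e (nat_lit 393281) (nat_lit 23) (.e (nat_lit 426106) (nat_lit 1) .nil))))) (.g (nat_lit 0) (.e (nat_lit 33946) (nat_lit 0) .nil) .nil)))) (.nd (nat_lit 9) 
(.lf (nat_lit 453942) (.g (nat_lit 3253) (.e (nat_lit 2630) (nat_lit 164) (.e (nat_lit 172120) (nat_lit 12) (.e (nat_lit 475198) (nat_lit 40) (.e (nat_lit 704598) (nat_lit 6) (.e (nat_lit 188455) (nat_lit 24) (.e (nat_lit 229665) (nat_lit 240) .nil)))))) (.g (nat_lit 1) (.e (nat_lit 32240) (nat_lit 0) .nil) .nil))) 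
(.lf (nat_lit 454454) (.g (nat_lit 4995) (.e (nat_lit 2641) (nat_lit 165) (.e (nat_lit 180244) (nat_lit 5) (.e (nat_lit 532550) (nat_lit 12) (.e (nat_lit 360474) (nat_lit 8) (.e (nat_lit 557089) (nat_lit 12) .nil))))) (.g (nat_lit 0) (.e (nat_lit 34668) (nat_lit 0) .nil) .nil))))) (.nd (nat_lit 8) (.nd (nat_lit 9) 
(.lf (nat_lit 453814) (.g (nat_lit 4764) (.e (nat_lit 2630) (nat_lit 164) (.e (nat_lit 172066) (nat_lit 3) (.e (nat_lit 204869) (nat_lit 29) (.e (nat_lit 360475) (nat_lit 8) (.e (nat_lit 557091) (nat_lit 12) (.e (nat_lit 163843) (nat_lit 0) (.e (nat_lit 6252) (nat_lit 337) .nil))))))) (.g (nat_lit 1) (.e (nat_lit 30795) (nat_lit 0) .nil) .nil))) 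
(.lf (nat_lit 454326) (.g (nat_lit 2514) (.e (nat_lit 2640) (nat_lit 165) (.e (nat_lit 180277) (nat_lit 32) (.e (nat_lit 1426) (nat_lit 108) (.e (nat_lit 336443) (nat_lit 32) (.e (nat_lit 466969) (nat_lit 21) (.e (nat_lit 164345) (nat_lit 240) .nil)))))) (.g (nat_lit 1) (.e (nat_lit 34474) (nat_lit 0) .nil) .nil)))) (.nd (nat_lit 9) 
(.lf (nat_lit 454070) (.g (nat_lit 1847) (.e (nat_lit 2635) (nat_lit 165) (.e (nat_lit 188160) (nat_lit 32) (.e (nat_lit 1256) (nat_lit 92) (.e (nat_lit 98370) (nat_lit 28) (.e (nat_lit 442430) (nat_lit 24) (.e (nat_lit 237312) (nat_lit 134) .nil)))))) (.g (nat_lit 1) (.e (nat_lit 33225) (nat_lit 0) .nil) .nil))) 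
(.lf (nat_lit 454582) (.g (nat_lit 3724) (.e (nat_lit 2643) (nat_lit 165) (.e (nat_lit 180243) (nat_lit 5) (.e (nat_lit 532550) (nat_lit 12) (.e (nat_lit 360475) (nat_lit 8) (.e (nat_lit 557089) (nat_lit 12) (.e (nat_lit 163849) (nat_lit 0) (.e (nat_lit 6252) (nat_lit 337) .nil))))))) (.g (nat_lit 1) (.e (nat_lit 35074) (nat_lit 0) .nil) .nil)))))) 
(.nd (nat_lit 7) (.nd (nat_lit 8) (.nd (nat_lit 9) 
(.lf (nat_lit 453750) (.g (nat_lit 2972) (.e (nat_lit 2630) (nat_lit 164) (.e (nat_lit 172065) (nat_lit 3) (.e (nat_lit 204868) (nat_lit 29) (.e (nat_lit 360473) (nat_lit 8) (.e (nat_lit 557089) (nat_lit 12) (.e (nat_lit 163843) (nat_lit 0) (.e (nat_lit 6254) (nat_lit 337) .nil))))))) (.g (nat_lit 1) (.e (nat_lit 30721) (nat_lit 0) .nil) .nil))) 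
(.lf (nat_lit 454262) (.g (nat_lit 1161) (.e (nat_lit 2639) (nat_lit 165) (.e (nat_lit 180277) (nat_lit 32) (.e (nat_lit 1659) (nat_lit 115) (.e (nat_lit 393278) (nat_lit 23) (.e (nat_lit 426109) (nat_lit 1) .nil))))) (.g (nat_lit 0) (.e (nat_lit 34131) (nat_lit 0) .nil) .nil)))) (.nd (nat_lit 9) 
(.lf (nat_lit 454006) (.g (nat_lit 3566) (.e (nat_lit 2630) (nat_lit 164) (.e (nat_lit 172126) (nat_lit 14) (.e (nat_lit 491549) (nat_lit 9) (.e (nat_lit 336426) (nat_lit 29) (.e (nat_lit 442430) (nat_lit 24) (.e (nat_lit 229665) (nat_lit 240) .nil)))))) (.g (nat_lit 1) (.e (nat_lit 32721) (nat_lit 0) .nil) .nil))) 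
(.lf (nat_lit 454518) (.g (nat_lit 1659) (.e (nat_lit 2641) (nat_lit 165) (.e (nat_lit 180278) (nat_lit 32) (.e (nat_lit 1425) (nat_lit 108) (.e (nat_lit 336430) (nat_lit 29) (.e (nat_lit 442429) (nat_lit 24) (.e (nat_lit 229663) (nat_lit 240) .nil)))))) (.g (nat_lit 1) (.e (nat_lit 34811) (nat_lit 0) .nil) .nil))))) (.nd (nat_lit 8) (.nd (nat_lit 9) 
(.lf (nat_lit 453878) (.g (nat_lit 4625) (.e (nat_lit 2630) (nat_lit 164) (.e (nat_lit 172067) (nat_lit 3) (.e (nat_lit 204869) (nat_lit 29) (.e (nat_lit 360475) (nat_lit 8) (.e (nat_lit 557089) (nat_lit 12) (.e (nat_lit 163849) (nat_lit 0) (.e (nat_lit 6254) (nat_lit 337) .nil))))))) (.g (nat_lit 1) (.e (nat_lit 30922) (nat_lit 0) .nil) .nil))) 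
(.lf (nat_lit 454390) (.g (nat_lit 2559) (.e (nat_lit 2640) (nat_lit 165) (.e (nat_lit 180278) (nat_lit 32) (.e (nat_lit 1427) (nat_lit 108) (.e (nat_lit 336430) (nat_lit 29) (.e (nat_lit 442419) (nat_lit 21) (.e (nat_lit 164345) (nat_lit 240) .nil)))))) (.g (nat_lit 1) (.e (nat_lit 34557) (nat_lit 0) .nil) .nil)))) (.nd (nat_lit 9) 
(.lf (nat_lit 454134) (.g (nat_lit 2426) (.e (nat_lit 2638) (nat_lit 165) (.e (nat_lit 180277) (nat_lit 32) (.e (nat_lit 1659) (nat_lit 115) (.e (nat_lit 393266) (nat_lit 23) (.e (nat_lit 426109) (nat_lit 1) (.e (nat_lit 164345) (nat_lit 240) .nil)))))) (.g (nat_lit 1) (.e (nat_lit 33833) (nat_lit 0) .nil) .nil))) 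
(.lf (nat_lit 454646) (.g (nat_lit 3397) (.e (nat_lit 2645) (nat_lit 166) (.e (nat_lit 188439) (nat_lit 20) (.e (nat_lit 3469) (nat_lit 217) (.e (nat_lit 696344) (nat_lit 8) (.e (nat_lit 172106) (nat_lit 10) (.e (nat_lit 434209) (nat_lit 18) (.e (nat_lit 6272) (nat_lit 337) .nil))))))) (.g (nat_lit 1) (.e (nat_lit 35670) (nat_lit 0) .nil) .nil))))))))) 
(.nd (nat_lit 4) (.nd (nat_lit 5) (.nd (nat_lit 6) (.nd (nat_lit 7) (.nd (nat_lit 8) 
(.nd (nat_lit 9) 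
(.lf (nat_lit 453646) (.g (nat_lit 1802) (.e (nat_lit 2630) (nat_lit 164) (.e (nat_lit 172062) (nat_lit 2) (.e (nat_lit 196666) (nat_lit 13) (.e (nat_lit 65617) (nat_lit 10) (.e (nat_lit 344127) (nat_lit 26) (.e (nat_lit 557092) (nat_lit 12) (.e (nat_lit 163849) (nat_lit 0) (.e (nat_lit 6255) (nat_lit 337) .nil)))))))) (.g (nat_lit 1) (.e (nat_lit 30559) (nat_lit 0) .nil) .nil))) 
(.lf (nat_lit 454158) (.g (nat_lit 2594) (.e (nat_lit 2638) (nat_lit 165) (.e (nat_lit 180278) (nat_lit 32) (.e (nat_lit 1252) (nat_lit 92) (.e (nat_lit 98373) (nat_lit 29) (.e (nat_lit 450560) (nat_lit 0) (.e (nat_lit 3991) (nat_lit 239) .nil)))))) (.g (nat_lit 1) (.e (nat_lit 33890) (nat_lit 0) .nil) .nil)))) (.nd (nat_lit 9) 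
(.lf (nat_lit 453902) (.g (nat_lit 4714) (.e (nat_lit 2630) (nat_lit 164) (.e (nat_lit 172106) (nat_lit 10) (.e (nat_lit 434272) (nat_lit 38) (.e (nat_lit 655380) (nat_lit 6) (.e (nat_lit 188453) (nat_lit 24) (.e (nat_lit 229663) (nat_lit 240) .nil)))))) (.g (nat_lit 1) (.e (nat_lit 31867) (nat_lit 0) .nil) .nil))) 
(.lf (nat_lit 454414) (.g (nat_lit 3003) (.e (nat_lit 2640) (nat_lit 165) (.e (nat_lit 180278) (nat_lit 32) (.e (nat_lit 1659) (nat_lit 115) (.e (nat_lit 393281) (nat_lit 23) (.e (nat_lit 426098) (nat_lit 1) (.e (nat_lit 164348) (nat_lit 240) .nil)))))) (.g (nat_lit 1) (.e (nat_lit 34582) (nat_lit 0) .nil) .nil))))) (.nd (nat_lit 8) (.nd (nat_lit 9) 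
(.lf (nat_lit 453774) (.g (nat_lit 2333) (.e (nat_lit 2630) (nat_lit 164) (.e (nat_lit 172065) (nat_lit 3) (.e (nat_lit 204869) (nat_lit 29) (.e (nat_lit 360475) (nat_lit 8) (.e (nat_lit 557089) (nat_lit 12) .nil))))) (.g (nat_lit 0) (.e (nat_lit 30755) (nat_lit 0) .nil) .nil))) 
(.lf (nat_lit 454286) (.g (nat_lit 1593) (.e (nat_lit 2639) (nat_lit 165) (.e (nat_lit 180278) (nat_lit 32) (.e (nat_lit 1428) (nat_lit 108) (.e (nat_lit 336432) (nat_lit 30) (.e (nat_lit 458496) (nat_lit 0) .nil))))) (.g (nat_lit 0) (.e (nat_lit 34191) (nat_lit 0) .nil) .nil)))) (.nd (nat_lit 9) 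
(.lf (nat_lit 454030) (.g (nat_lit 3335) (.e (nat_lit 2630) (nat_lit 164) (.e (nat_lit 172126) (nat_lit 14) (.e (nat_lit 491550) (nat_lit 9) (.e (nat_lit 336430) (nat_lit 29) (.e (nat_lit 442430) (nat_lit 24) (.e (nat_lit 229666) (nat_lit 240) .nil)))))) (.g (nat_lit 1) (.e (nat_lit 32747) (nat_lit 0) .nil) .nil))) 
(.lf (nat_lit 454542) (.g (nat_lit 3286) (.e (nat_lit 2643) (nat_lit 165) (.e (nat_lit 180243) (nat_lit 5) (.e (nat_lit 532549) (nat_lit 12) (.e (nat_lit 360473) (nat_lit 8) (.e (nat_lit 557089) (nat_lit 12) (.e (nat_lit 163849) (nat_lit 0) (.e (nat_lit 6254) (nat_lit 337) .nil))))))) (.g (nat_lit 1) (.e (nat_lit 35023) (nat_lit 0) .nil) .nil)))))) 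
(.nd (nat_lit 7) (.nd (nat_lit 8) (.nd (nat_lit 9) 
(.lf (nat_lit 453710) (.g (nat_lit 3975) (.e (nat_lit 2630) (nat_lit 164) (.e (nat_lit 172064) (nat_lit 2) (.e (nat_lit 196666) (nat_lit 13) (.e (nat_lit 65617) (nat_lit 10) (.e (nat_lit 344130) (nat_lit 26) (.e (nat_lit 557089) (nat_lit 12) (.e (nat_lit 163843) (nat_lit 0) (.e (nat_lit 6254) (nat_lit 337) .nil)))))))) (.g (nat_lit 1) (.e (nat_lit 30638) (nat_lit 0) .nil) .nil))) 
(.lf (nat_lit 454222) (.g (nat_lit 3563) (.e (nat_lit 2638) (nat_lit 165) (.e (nat_lit 180278) (nat_lit 32) (.e (nat_lit 1661) (nat_lit 115) (.e (nat_lit 393281) (nat_lit 23) (.e (nat_lit 426107) (nat_lit 1) (.e (nat_lit 164347) (nat_lit 240) .nil)))))) (.g (nat_lit 1) (.e (nat_lit 33999) (nat_lit 0) .nil) .nil)))) (.nd (nat_lit 9) 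
(.lf (nat_lit 453966) (.g (nat_lit 2372) (.e (nat_lit 2630) (nat_lit 164) (.e (nat_lit 172120) (nat_lit 12) (.e (nat_lit 475211) (nat_lit 41) (.e (nat_lit 712752) (nat_lit 29) (.e (nat_lit 442428) (nat_lit 24) (.e (nat_lit 229666) (nat_lit 240) .nil)))))) (.g (nat_lit 1) (.e (nat_lit 32289) (nat_lit 0) .nil) .nil))) 
(.lf (nat_lit 454478) (.g (nat_lit 3120) (.e (nat_lit 2641) (nat_lit 165) (.e (nat_lit 180244) (nat_lit 5) (.e (nat_lit 532550) (nat_lit 12) (.e (nat_lit 360475) (nat_lit 8) (.e (nat_lit 557091) (nat_lit 12) .nil))))) (.g (nat_lit 0) (.e (nat_lit 34692) (nat_lit 0) .nil) .nil))))) (.nd (nat_lit 8) (.nd (nat_lit 9) 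
(.lf (nat_lit 453838) (.g (nat_lit 3788) (.e (nat_lit 2630) (nat_lit 164) (.e (nat_lit 172067) (nat_lit 3) (.e (nat_lit 204868) (nat_lit 29) (.e (nat_lit 360473) (nat_lit 8) (.e (nat_lit 557091) (nat_lit 12) (.e (nat_lit 163849) (nat_lit 0) (.e (nat_lit 6255) (nat_lit 337) .nil))))))) (.g (nat_lit 1) (.e (nat_lit 30874) (nat_lit 0) .nil) .nil))) 
(.lf (nat_lit 454350) (.g (nat_lit 2219) (.e (nat_lit 2640) (nat_lit 165) (.e (nat_lit 180277) (nat_lit 32) (.e (nat_lit 1659) (nat_lit 115) (.e (nat_lit 393266) (nat_lit 23) (.e (nat_lit 426109) (nat_lit 1) (.e (nat_lit 164347) (nat_lit 240) .nil)))))) (.g (nat_lit 1) (.e (nat_lit 34501) (nat_lit 0) .nil) .nil)))) (.nd (nat_lit 9) 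
(.lf (nat_lit 454094) (.g (nat_lit 4859) (.e (nat_lit 2637) (nat_lit 165) (.e (nat_lit 180278) (nat_lit 32) (.e (nat_lit 1253) (nat_lit 92) (.e (nat_lit 98373) (nat_lit 29) (.e (nat_lit 450562) (nat_lit 0) (.e (nat_lit 3948) (nat_lit 239) .nil)))))) (.g (nat_lit 1) (.e (nat_lit 33604) (nat_lit 0) .nil) .nil))) 
(.lf (nat_lit 454606) (.g (nat_lit 1899) (.e (nat_lit 2643) (nat_lit 165) (.e (nat_lit 180277) (nat_lit 32) (.e (nat_lit 1253) (nat_lit 92) (.e (nat_lit 98373) (nat_lit 29) (.e (nat_lit 458496) (nat_lit 0) (.e (nat_lit 3914) (nat_lit 239) .nil)))))) (.g (nat_lit 1) (.e (nat_lit 35299) (nat_lit 0) .nil) .nil))))))) (.nd (nat_lit 6) (.nd (nat_lit 7) (.nd (nat_lit 8) (.nd (nat_lit 9) 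
(.lf (nat_lit 453678) (.g (nat_lit 2628) (.e (nat_lit 2630) (nat_lit 164) (.e (nat_lit 172063) (nat_lit 2) (.e (nat_lit 196666) (nat_lit 13) (.e (nat_lit 65617) (nat_lit 10) (.e (nat_lit 344133) (nat_lit 26) (.e (nat_lit 557089) (nat_lit 12) (.e (nat_lit 163843) (nat_lit 0) (.e (nat_lit 6255) (nat_lit 337) .nil)))))))) (.g (nat_lit 1) (.e (nat_lit 30591) (nat_lit 0) .nil) .nil))) 
(.lf (nat_lit 454190) (.g (nat_lit 1991) (.e (nat_lit 2638) (nat_lit 165) (.e (nat_lit 180278) (nat_lit 32) (.e (nat_lit 1659) (nat_lit 115) (.e (nat_lit 393271) (nat_lit 23) (.e (nat_lit 426112) (nat_lit 1) (.e (nat_lit 164346) (nat_lit 240) .nil)))))) (.g (nat_lit 1) (.e (nat_lit 33938) (nat_lit 0) .nil) .nil)))) (.nd (nat_lit 9) 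
(.lf (nat_lit 453934) (.g (nat_lit 1684) (.e (nat_lit 2630) (nat_lit 164) (.e (nat_lit 172118) (nat_lit 12) (.e (nat_lit 475211) (nat_lit 41) (.e (nat_lit 712755) (nat_lit 30) (.e (nat_lit 458496) (nat_lit 0) .nil))))) (.g (nat_lit 0) (.e (nat_lit 32230) (nat_lit 0) .nil) .nil))) 
(.lf (nat_lit 454446) (.g (nat_lit 2594) (.e (nat_lit 2641) (nat_lit 165) (.e (nat_lit 180244) (nat_lit 5) (.e (nat_lit 532549) (nat_lit 12) (.e (nat_lit 360473) (nat_lit 8) (.e (nat_lit 557089) (nat_lit 12) (.e (nat_lit 163843) (nat_lit 0) (.e (nat_lit 6255) (nat_lit 337) .nil))))))) (.g (nat_lit 1) (.e (nat_lit 34655) (nat_lit 0) .nil) .nil))))) (.nd (nat_lit 8) (.nd (nat_lit 9) 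
(.lf (nat_lit 453806) (.g (nat_lit 3670) (.e (nat_lit 2630) (nat_lit 164) (.e (nat_lit 172066) (nat_lit 3) (.e (nat_lit 204869) (nat_lit 29) (.e (nat_lit 360475) (nat_lit 8) (.e (nat_lit 557089) (nat_lit 12) (.e (nat_lit 163848) (nat_lit 0) (.e (nat_lit 6255) (nat_lit 337) .nil))))))) (.g (nat_lit 1) (.e (nat_lit 30787) (nat_lit 0) .nil) .nil))) 
(.lf (nat_lit 454318) (.g (nat_lit 1965) (.e (nat_lit 2640) (nat_lit 165) (.e (nat_lit 180277) (nat_lit 32) (.e (nat_lit 1425) (nat_lit 108) (.e (nat_lit 336430) (nat_lit 29) (.e (nat_lit 442419) (nat_lit 21) (.e (nat_lit 164345) (nat_lit 240) .nil)))))) (.g (nat_lit 1) (.e (nat_lit 34466) (nat_lit 0) .nil) .nil)))) (.nd (nat_lit 9) 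
(.lf (nat_lit 454062) (.g (nat_lit 1977) (.e (nat_lit 7936) (nat_lit 164) (.e (nat_lit 172126) (nat_lit 14) (.e (nat_lit 491540) (nat_lit 3) (.e (nat_lit 98373) (nat_lit 29) (.e (nat_lit 450563) (nat_lit 0) .nil))))) (.g (nat_lit 0) (.e (nat_lit 33144) (nat_lit 0) .nil) .nil))) 
(.lf (nat_lit 454574) (.g (nat_lit 3456) (.e (nat_lit 2643) (nat_lit 165) (.e (nat_lit 180243) (nat_lit 5) (.e (nat_lit 532550) (nat_lit 12) (.e (nat_lit 360474) (nat_lit 8) (.e (nat_lit 557094) (nat_lit 12) (.e (nat_lit 163848) (nat_lit 0) (.e (nat_lit 6252) (nat_lit 337) .nil))))))) (.g (nat_lit 1) (.e (nat_lit 35066) (nat_lit 0) .nil) .nil)))))) 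
(.nd (nat_lit 7) (.nd (nat_lit 8) (.nd (nat_lit 9) 
(.lf (nat_lit 453742) (.g (nat_lit 2273) (.e (nat_lit 2630) (nat_lit 164) (.e (nat_lit 172064) (nat_lit 2) (.e (nat_lit 196666) (nat_lit 13) (.e (nat_lit 65617) (nat_lit 10) (.e (nat_lit 344133) (nat_lit 26) (.e (nat_lit 557092) (nat_lit 12) (.e (nat_lit 163849) (nat_lit 0) (.e (nat_lit 6254) (nat_lit 337) .nil)))))))) (.g (nat_lit 1) (.e (nat_lit 30670) (nat_lit 0) .nil) .nil))) 
(.lf (nat_lit 454254) (.g (nat_lit 1179) (.e (nat_lit 2639) (nat_lit 165) (.e (nat_lit 180277) (nat_lit 32) (.e (nat_lit 1428) (nat_lit 108) (.e (nat_lit 336434) (nat_lit 30) (.e (nat_lit 458496) (nat_lit 0) (.e (nat_lit 5543) (nat_lit 306) .nil)))))) (.g (nat_lit 1) (.e (nat_lit 34123) (nat_lit 0) .nil) .nil)))) (.nd (nat_lit 9) 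
(.lf (nat_lit 453998) (.g (nat_lit 3237) (.e (nat_lit 2630) (nat_lit 164) (.e (nat_lit 172126) (nat_lit 14) (.e (nat_lit 491537) (nat_lit 2) (.e (nat_lit 90170) (nat_lit 13) (.e (nat_lit 172113) (nat_lit 10) (.e (nat_lit 434200) (nat_lit 18) (.e (nat_lit 3931) (nat_lit 239) .nil))))))) (.g (nat_lit 1) (.e (nat_lit 32697) (nat_lit 0) .nil) .nil))) 
(.lf (nat_lit 454510) (.g (nat_lit 1826) (.e (nat_lit 2641) (nat_lit 165) (.e (nat_lit 180277) (nat_lit 32) (.e (nat_lit 1428) (nat_lit 108) (.e (nat_lit 336430) (nat_lit 29) (.e (nat_lit 442430) (nat_lit 24) (.e (nat_lit 229665) (nat_lit 240) .nil)))))) (.g (nat_lit 1) (.e (nat_lit 34799) (nat_lit 0) .nil) .nil))))) (.nd (nat_lit 8) (.nd (nat_lit 9) 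
(.lf (nat_lit 453870) (.g (nat_lit 2306) (.e (nat_lit 2630) (nat_lit 164) (.e (nat_lit 172067) (nat_lit 3) (.e (nat_lit 204869) (nat_lit 29) (.e (nat_lit 360475) (nat_lit 8) (.e (nat_lit 557089) (nat_lit 12) .nil))))) (.g (nat_lit 0) (.e (nat_lit 30914) (nat_lit 0) .nil) .nil))) 
(.lf (nat_lit 454382) (.g (nat_lit 463) (.e (nat_lit 2640) (nat_lit 165) (.e (nat_lit 180278) (nat_lit 32) (.e (nat_lit 1425) (nat_lit 108) .nil))) (.g (nat_lit 0) (.e (nat_lit 34547) (nat_lit 0) .nil) .nil)))) (.nd (nat_lit 9) 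
(.lf (nat_lit 454126) (.g (nat_lit 3202) (.e (nat_lit 2638) (nat_lit 165) (.e (nat_lit 180277) (nat_lit 32) (.e (nat_lit 1428) (nat_lit 108) (.e (nat_lit 336443) (nat_lit 32) (.e (nat_lit 466969) (nat_lit 21) (.e (nat_lit 164348) (nat_lit 240) .nil)))))) (.g (nat_lit 1) (.e (nat_lit 33825) (nat_lit 0) .nil) .nil))) 
(.lf (nat_lit 454638) (.g (nat_lit 3377) (.e (nat_lit 2645) (nat_lit 166) (.e (nat_lit 188434) (nat_lit 20) (.e (nat_lit 3468) (nat_lit 217) (.e (nat_lit 696343) (nat_lit 8) (.e (nat_lit 172106) (nat_lit 10) (.e (nat_lit 434209) (nat_lit 18) (.e (nat_lit 6273) (nat_lit 337) .nil))))))) (.g (nat_lit 1) (.e (nat_lit 35651) (nat_lit 0) .nil) .nil)))))))) 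
(.nd (nat_lit 5) (.nd (nat_lit 6) (.nd (nat_lit 7) (.nd (nat_lit 8) (.nd (nat_lit 9) 
(.lf (nat_lit 453662) (.g (nat_lit 2992) (.e (nat_lit 2630) (nat_lit 164) (.e (nat_lit 172062) (nat_lit 2) (.e (nat_lit 196666) (nat_lit 13) (.e (nat_lit 65617) (nat_lit 10) (.e (nat_lit 344133) (nat_lit 26) (.e (nat_lit 557089) (nat_lit 12) (.e (nat_lit 163848) (nat_lit 0) (.e (nat_lit 6255) (nat_lit 337) .nil)))))))) (.g (nat_lit 1) (.e (nat_lit 30575) (nat_lit 0) .nil) .nil))) 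
(.lf (nat_lit 454174) (.g (nat_lit 2041) (.e (nat_lit 2638) (nat_lit 165) (.e (nat_lit 180278) (nat_lit 32) (.e (nat_lit 1428) (nat_lit 108) (.e (nat_lit 336369) (nat_lit 27) (.e (nat_lit 426268) (nat_lit 9) .nil))))) (.g (nat_lit 0) (.e (nat_lit 33920) (nat_lit 0) .nil) .nil)))) (.nd (nat_lit 9) 
(.lf (nat_lit 453918) (.g (nat_lit 2056) (.e (nat_lit 2630) (nat_lit 164) (.e (nat_lit 172118) (nat_lit 12) (.e (nat_lit 475198) (nat_lit 40) (.e (nat_lit 704599) (nat_lit 6) (.e (nat_lit 188453) (nat_lit 24) (.e (nat_lit 229664) (nat_lit 240) .nil)))))) (.g (nat_lit 1) (.e (nat_lit 32204) (nat_lit 0) .nil) .nil))) 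
(.lf (nat_lit 454430) (.g (nat_lit 1760) (.e (nat_lit 2640) (nat_lit 165) (.e (nat_lit 180278) (nat_lit 32) (.e (nat_lit 1660) (nat_lit 115) (.e (nat_lit 393284) (nat_lit 24) (.e (nat_lit 434212) (nat_lit 18) (.e (nat_lit 5548) (nat_lit 306) .nil)))))) (.g (nat_lit 1) (.e (nat_lit 34599) (nat_lit 0) .nil) .nil))))) (.nd (nat_lit 8) (.nd (nat_lit 9) 
(.lf (nat_lit 453790) (.g (nat_lit 3771) (.e (nat_lit 2630) (nat_lit 164) (.e (nat_lit 172065) (nat_lit 3) (.e (nat_lit 204869) (nat_lit 29) (.e (nat_lit 360475) (nat_lit 8) (.e (nat_lit 557091) (nat_lit 12) (.e (nat_lit 163849) (nat_lit 0) (.e (nat_lit 6254) (nat_lit 337) .nil))))))) (.g (nat_lit 1) (.e (nat_lit 30771) (nat_lit 0) .nil) .nil))) 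
(.lf (nat_lit 454302) (.g (nat_lit 1142) (.e (nat_lit 2639) (nat_lit 165) (.e (nat_lit 180278) (nat_lit 32) (.e (nat_lit 1659) (nat_lit 115) (.e (nat_lit 401152) (nat_lit 23) .nil)))) (.g (nat_lit 0) (.e (nat_lit 34207) (nat_lit 0) .nil) .nil)))) (.nd (nat_lit 9) 
(.lf (nat_lit 454046) (.g (nat_lit 3719) (.e (nat_lit 2632) (nat_lit 164) (.e (nat_lit 172066) (nat_lit 3) (.e (nat_lit 204869) (nat_lit 29) (.e (nat_lit 360475) (nat_lit 8) (.e (nat_lit 557091) (nat_lit 12) (.e (nat_lit 163852) (nat_lit 0) (.e (nat_lit 6273) (nat_lit 337) .nil))))))) (.g (nat_lit 1) (.e (nat_lit 32990) (nat_lit 0) .nil) .nil))) 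
(.lf (nat_lit 454558) (.g (nat_lit 4202) (.e (nat_lit 2643) (nat_lit 165) (.e (nat_lit 180243) (nat_lit 5) (.e (nat_lit 532549) (nat_lit 12) (.e (nat_lit 360475) (nat_lit 8) (.e (nat_lit 557089) (nat_lit 12) (.e (nat_lit 163844) (nat_lit 0) (.e (nat_lit 6254) (nat_lit 337) .nil))))))) (.g (nat_lit 1) (.e (nat_lit 35047) (nat_lit 0) .nil) .nil)))))) 
(.nd (nat_lit 7) (.nd (nat_lit 8) (.nd (nat_lit 9) 
(.lf (nat_lit 453726) (.g (nat_lit 3332) (.e (nat_lit 2630) (nat_lit 164) (.e (nat_lit 172064) (nat_lit 2) (.e (nat_lit 196666) (nat_lit 13) (.e (nat_lit 65617) (nat_lit 10) (.e (nat_lit 344132) (nat_lit 26) (.e (nat_lit 557094) (nat_lit 12) (.e (nat_lit 163849) (nat_lit 0) (.e (nat_lit 6252) (nat_lit 337) .nil)))))))) (.g (nat_lit 1) (.e (nat_lit 30654) (nat_lit 0) .nil) .nil))) 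
(.lf (nat_lit 454238) (.g (nat_lit 2031) (.e (nat_lit 2639) (nat_lit 165) (.e (nat_lit 180277) (nat_lit 32) (.e (nat_lit 1425) (nat_lit 108) (.e (nat_lit 336430) (nat_lit 29) (.e (nat_lit 442421) (nat_lit 21) (.e (nat_lit 164346) (nat_lit 240) .nil)))))) (.g (nat_lit 1) (.e (nat_lit 34099) (nat_lit 0) .nil) .nil)))) (.nd (nat_lit 9) 
(.lf (nat_lit 453982) (.g (nat_lit 2971) (.e (nat_lit 2630) (nat_lit 164) (.e (nat_lit 172124) (nat_lit 14) (.e (nat_lit 491549) (nat_lit 9) (.e (nat_lit 336430) (nat_lit 29) (.e (nat_lit 442430) (nat_lit 24) (.e (nat_lit 229665) (nat_lit 240) .nil)))))) (.g (nat_lit 1) (.e (nat_lit 32549) (nat_lit 0) .nil) .nil))) 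
(.lf (nat_lit 454494) (.g (nat_lit 1699) (.e (nat_lit 2641) (nat_lit 165) (.e (nat_lit 180277) (nat_lit 32) (.e (nat_lit 1426) (nat_lit 108) (.e (nat_lit 336430) (nat_lit 29) (.e (nat_lit 442430) (nat_lit 24) (.e (nat_lit 229665) (nat_lit 240) .nil)))))) (.g (nat_lit 1) (.e (nat_lit 34780) (nat_lit 0) .nil) .nil))))) (.nd (nat_lit 8) (.nd (nat_lit 9) 
(.lf (nat_lit 453854) (.g (nat_lit 5205) (.e (nat_lit 2630) (nat_lit 164) (.e (nat_lit 172067) (nat_lit 3) (.e (nat_lit 204868) (nat_lit 29) (.e (nat_lit 360475) (nat_lit 8) (.e (nat_lit 557091) (nat_lit 12) (.e (nat_lit 163844) (nat_lit 0) (.e (nat_lit 6255) (nat_lit 337) .nil))))))) (.g (nat_lit 1) (.e (nat_lit 30897) (nat_lit 0) .nil) .nil))) 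
(.lf (nat_lit 454366) (.g (nat_lit 2029) (.e (nat_lit 2640) (nat_lit 165) (.e (nat_lit 180277) (nat_lit 32) (.e (nat_lit 1660) (nat_lit 115) (.e (nat_lit 393281) (nat_lit 23) (.e (nat_lit 426099) (nat_lit 1) (.e (nat_lit 164345) (nat_lit 240) .nil)))))) (.g (nat_lit 1) (.e (nat_lit 34518) (nat_lit 0) .nil) .nil)))) (.nd (nat_lit 9) 
(.lf (nat_lit 454110) (.g (nat_lit 3352) (.e (nat_lit 2638) (nat_lit 165) (.e (nat_lit 180277) (nat_lit 32) (.e (nat_lit 1427) (nat_lit 108) (.e (nat_lit 336430) (nat_lit 29) (.e (nat_lit 442421) (nat_lit 21) (.e (nat_lit 164346) (nat_lit 240) .nil)))))) (.g (nat_lit 1) (.e (nat_lit 33808) (nat_lit 0) .nil) .nil))) 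
(.lf (nat_lit 454622) (.g (nat_lit 2383) (.e (nat_lit 2643) (nat_lit 165) (.e (nat_lit 180277) (nat_lit 32) (.e (nat_lit 1427) (nat_lit 108) (.e (nat_lit 336430) (nat_lit 29) (.e (nat_lit 442429) (nat_lit 24) (.e (nat_lit 229664) (nat_lit 240) .nil)))))) (.g (nat_lit 1) (.e (nat_lit 35322) (nat_lit 0) .nil) .nil))))))) (.nd (nat_lit 6) (.nd (nat_lit 7) (.nd (nat_lit 8) (.nd (nat_lit 9) 
(.lf (nat_lit 453694) (.g (nat_lit 4135) (.e (nat_lit 2630) (nat_lit 164) (.e (nat_lit 172064) (nat_lit 2) (.e (nat_lit 196666) (nat_lit 13) (.e (nat_lit 65610) (nat_lit 10) (.e (nat_lit 344129) (nat_lit 26) (.e (nat_lit 557090) (nat_lit 12) (.e (nat_lit 163840) (nat_lit 0) (.e (nat_lit 6252) (nat_lit 337) .nil)))))))) (.g (nat_lit 1) (.e (nat_lit 30622) (nat_lit 0) .nil) .nil))) 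
(.lf (nat_lit 454206) (.g (nat_lit 1960) (.e (nat_lit 2638) (nat_lit 165) (.e (nat_lit 180278) (nat_lit 32) (.e (nat_lit 1660) (nat_lit 115) (.e (nat_lit 393277) (nat_lit 23) (.e (nat_lit 426109) (nat_lit 1) (.e (nat_lit 164346) (nat_lit 240) .nil)))))) (.g (nat_lit 1) (.e (nat_lit 33958) (nat_lit 0) .nil) .nil)))) (.nd (nat_lit 9) 
(.lf (nat_lit 453950) (.g (nat_lit 3244) (.e (nat_lit 2630) (nat_lit 164) (.e (nat_lit 172120) (nat_lit 12) (.e (nat_lit 475199) (nat_lit 40) (.e (nat_lit 704598) (nat_lit 6) (.e (nat_lit 188455) (nat_lit 24) (.e (nat_lit 229664) (nat_lit 240) .nil)))))) (.g (nat_lit 1) (.e (nat_lit 32249) (nat_lit 0) .nil) .nil))) 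
(.lf (nat_lit 454462) (.g (nat_lit 4348) (.e (nat_lit 2641) (nat_lit 165) (.e (nat_lit 180244) (nat_lit 5) (.e (nat_lit 532550) (nat_lit 12) (.e (nat_lit 360474) (nat_lit 8) (.e (nat_lit 557093) (nat_lit 12) (.e (nat_lit 163849) (nat_lit 0) (.e (nat_lit 6252) (nat_lit 337) .nil))))))) (.g (nat_lit 1) (.e (nat_lit 34676) (nat_lit 0) .nil) .nil))))) (.nd (nat_lit 8) (.nd (nat_lit 9) 
(.lf (nat_lit 453822) (.g (nat_lit 3291) (.e (nat_lit 2630) (nat_lit 164) (.e (nat_lit 172067) (nat_lit 3) (.e (nat_lit 204852) (nat_lit 26) (.e (nat_lit 336310) (nat_lit 16) (.e (nat_lit 164183) (nat_lit 154) (.e (nat_lit 57378) (nat_lit 3) (.e (nat_lit 98335) (nat_lit 18) (.e (nat_lit 164305) (nat_lit 226) .nil)))))))) (.g (nat_lit 1) (.e (nat_lit 30803) (nat_lit 0) .nil) .nil))) 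
(.lf (nat_lit 454334) (.g (nat_lit 2750) (.e (nat_lit 2640) (nat_lit 165) (.e (nat_lit 180277) (nat_lit 32) (.e (nat_lit 1427) (nat_lit 108) (.e (nat_lit 336443) (nat_lit 32) (.e (nat_lit 466968) (nat_lit 21) .nil))))) (.g (nat_lit 0) (.e (nat_lit 34485) (nat_lit 0) .nil) .nil)))) (.nd (nat_lit 9) 
(.lf (nat_lit 454078) (.g (nat_lit 4725) (.e (nat_lit 2636) (nat_lit 165) (.e (nat_lit 180251) (nat_lit 10) (.e (nat_lit 573456) (nat_lit 9) (.e (nat_lit 1669) (nat_lit 116) (.e (nat_lit 401459) (nat_lit 13) (.e (nat_lit 483363) (nat_lit 18) (.e (nat_lit 57652) (nat_lit 152) .nil))))))) (.g (nat_lit 1) (.e (nat_lit 33304) (nat_lit 0) .nil) .nil))) 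
(.lf (nat_lit 454590) (.g (nat_lit 4169) (.e (nat_lit 2643) (nat_lit 165) (.e (nat_lit 180243) (nat_lit 5) (.e (nat_lit 532550) (nat_lit 12) (.e (nat_lit 360475) (nat_lit 8) (.e (nat_lit 557091) (nat_lit 12) (.e (nat_lit 163847) (nat_lit 0) (.e (nat_lit 6252) (nat_lit 337) .nil))))))) (.g (nat_lit 1) (.e (nat_lit 35082) (nat_lit 0) .nil) .nil)))))) 
(.nd (nat_lit 7) (.nd (nat_lit 8) (.nd (nat_lit 9) 
(.lf (nat_lit 453758) (.g (nat_lit 2119) (.e (nat_lit 2630) (nat_lit 164) (.e (nat_lit 172065) (nat_lit 3) (.e (nat_lit 204868) (nat_lit 29) (.e (nat_lit 360473) (nat_lit 8) (.e (nat_lit 557093) (nat_lit 12) (.e (nat_lit 163847) (nat_lit 0) (.e (nat_lit 6254) (nat_lit 337) .nil))))))) (.g (nat_lit 1) (.e (nat_lit 30736) (nat_lit 0) .nil) .nil))) 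
(.lf (nat_lit 454270) (.g (nat_lit 2264) (.e (nat_lit 2639) (nat_lit 165) (.e (nat_lit 180277) (nat_lit 32) (.e (nat_lit 1660) (nat_lit 115) (.e (nat_lit 393281) (nat_lit 23) (.e (nat_lit 426107) (nat_lit 1) (.e (nat_lit 164345) (nat_lit 240) .nil)))))) (.g (nat_lit 1) (.e (nat_lit 34143) (nat_lit 0) .nil) .nil)))) (.nd (nat_lit 9) 
(.lf (nat_lit 454014) (.g (nat_lit 3804) (.e (nat_lit 2630) (nat_lit 164) (.e (nat_lit 172126) (nat_lit 14) (.e (nat_lit 491549) (nat_lit 9) (.e (nat_lit 336430) (nat_lit 29) (.e (nat_lit 442430) (nat_lit 24) (.e (nat_lit 229665) (nat_lit 240) .nil)))))) (.g (nat_lit 1) (.e (nat_lit 32729) (nat_lit 0) .nil) .nil))) 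
(.lf (nat_lit 454526) (.g (nat_lit 3030) (.e (nat_lit 2641) (nat_lit 165) (.e (nat_lit 180278) (nat_lit 32) (.e (nat_lit 1428) (nat_lit 108) (.e (nat_lit 336430) (nat_lit 29) (.e (nat_lit 442428) (nat_lit 24) (.e (nat_lit 229665) (nat_lit 240) .nil)))))) (.g (nat_lit 1) (.e (nat_lit 34835) (nat_lit 0) .nil) .nil))))) (.nd (nat_lit 8) (.nd (nat_lit 9) 
(.lf (nat_lit 453886) (.g (nat_lit 4568) (.e (nat_lit 2630) (nat_lit 164) (.e (nat_lit 172067) (nat_lit 3) (.e (nat_lit 204869) (nat_lit 29) (.e (nat_lit 360475) (nat_lit 8) (.e (nat_lit 557091) (nat_lit 12) (.e (nat_lit 163844) (nat_lit 0) (.e (nat_lit 6254) (nat_lit 337) .nil))))))) (.g (nat_lit 1) (.e (nat_lit 30930) (nat_lit 0) .nil) .nil))) 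
(.lf (nat_lit 454398) (.g (nat_lit 2662) (.e (nat_lit 2640) (nat_lit 165) (.e (nat_lit 180278) (nat_lit 32) (.e (nat_lit 1428) (nat_lit 108) (.e (nat_lit 336434) (nat_lit 30) (.e (nat_lit 450564) (nat_lit 0) (.e (nat_lit 5546) (nat_lit 306) .nil)))))) (.g (nat_lit 1) (.e (nat_lit 34566) (nat_lit 0) .nil) .nil)))) (.nd (nat_lit 9) 
(.lf (nat_lit 454142) (.g (nat_lit 3231) (.e (nat_lit 2638) (nat_lit 165) (.e (nat_lit 180277) (nat_lit 32) (.e (nat_lit 1659) (nat_lit 115) (.e (nat_lit 393281) (nat_lit 23) (.e (nat_lit 426108) (nat_lit 1) (.e (nat_lit 164345) (nat_lit 240) .nil)))))) (.g (nat_lit 1) (.e (nat_lit 33841) (nat_lit 0) .nil) .nil))) 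
(.lf (nat_lit 454654) (.g (nat_lit 3581) (.e (nat_lit 2646) (nat_lit 166) (.e (nat_lit 188440) (nat_lit 20) (.e (nat_lit 3469) (nat_lit 217) (.e (nat_lit 696344) (nat_lit 8) (.e (nat_lit 172106) (nat_lit 10) (.e (nat_lit 434209) (nat_lit 18) (.e (nat_lit 6272) (nat_lit 337) .nil))))))) (.g (nat_lit 1) (.e (nat_lit 35924) (nat_lit 0) .nil) .nil)))))))))))) 
(.nd (nat_lit 1) (.nd (nat_lit 2) (.nd (nat_lit 3) (.nd (nat_lit 4) (.nd (nat_lit 5) 
(.nd (nat_lit 6) (.nd (nat_lit 7) (.nd (nat_lit 8) (.nd (nat_lit 9) 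
(.lf (nat_lit 453633) (.g (nat_lit 3657) (.e (nat_lit 2630) (nat_lit 164) (.e (nat_lit 172062) (nat_lit 2) (.e (nat_lit 196666) (nat_lit 13) (.e (nat_lit 65610) (nat_lit 10) (.e (nat_lit 344129) (nat_lit 26) (.e (nat_lit 557090) (nat_lit 12) (.e (nat_lit 163840) (nat_lit 0) (.e (nat_lit 6255) (nat_lit 337) .nil)))))))) (.g (nat_lit 1) (.e (nat_lit 30546) (nat_lit 0) .nil) .nil))) 
(.lf (nat_lit 454145) (.g (nat_lit 2402) (.e (nat_lit 2638) (nat_lit 165) (.e (nat_lit 180277) (nat_lit 32) (.e (nat_lit 1660) (nat_lit 115) (.e (nat_lit 393271) (nat_lit 23) (.e (nat_lit 426112) (nat_lit 1) (.e (nat_lit 164346) (nat_lit 240) .nil)))))) (.g (nat_lit 1) (.e (nat_lit 33848) (nat_lit 0) .nil) .nil)))) (.nd (nat_lit 9) 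
(.lf (nat_lit 453889) (.g (nat_lit 4750) (.e (nat_lit 2630) (nat_lit 164) (.e (nat_lit 172067) (nat_lit 3) (.e (nat_lit 204869) (nat_lit 29) (.e (nat_lit 360475) (nat_lit 8) (.e (nat_lit 557091) (nat_lit 12) (.e (nat_lit 163847) (nat_lit 0) (.e (nat_lit 6255) (nat_lit 337) .nil))))))) (.g (nat_lit 1) (.e (nat_lit 30933) (nat_lit 0) .nil) .nil))) 
(.lf (nat_lit 454401) (.g (nat_lit 2170) (.e (nat_lit 2640) (nat_lit 165) (.e (nat_lit 180278) (nat_lit 32) (.e (nat_lit 1428) (nat_lit 108) (.e (nat_lit 336443) (nat_lit 32) (.e (nat_lit 466969) (nat_lit 21) (.e (nat_lit 164345) (nat_lit 240) .nil)))))) (.g (nat_lit 1) (.e (nat_lit 34569) (nat_lit 0) .nil) .nil))))) (.nd (nat_lit 8) (.nd (nat_lit 9) 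
(.lf (nat_lit 453761) (.g (nat_lit 4096) (.e (nat_lit 2630) (nat_lit 164) (.e (nat_lit 172065) (nat_lit 3) (.e (nat_lit 204868) (nat_lit 29) (.e (nat_lit 360475) (nat_lit 8) (.e (nat_lit 557089) (nat_lit 12) (.e (nat_lit 163844) (nat_lit 0) (.e (nat_lit 6255) (nat_lit 337) .nil))))))) (.g (nat_lit 1) (.e (nat_lit 30741) (nat_lit 0) .nil) .nil))) 
(.lf (nat_lit 454273) (.g (nat_lit 525) (.e (nat_lit 2639) (nat_lit 165) (.e (nat_lit 180278) (nat_lit 32) (.e (nat_lit 1426) (nat_lit 108) .nil))) (.g (nat_lit 0) (.e (nat_lit 34173) (nat_lit 0) .nil) .nil)))) (.nd (nat_lit 9) 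
(.lf (nat_lit 454017) (.g (nat_lit 2954) (.e (nat_lit 2630) (nat_lit 164) (.e (nat_lit 172126) (nat_lit 14) (.e (nat_lit 491549) (nat_lit 9) (.e (nat_lit 336432) (nat_lit 30) (.e (nat_lit 450568) (nat_lit 0) (.e (nat_lit 5448) (nat_lit 306) .nil)))))) (.g (nat_lit 1) (.e (nat_lit 32732) (nat_lit 0) .nil) .nil))) 
(.lf (nat_lit 454529) (.g (nat_lit 3269) (.e (nat_lit 2641) (nat_lit 165) (.e (nat_lit 180278) (nat_lit 32) (.e (nat_lit 1428) (nat_lit 108) (.e (nat_lit 336430) (nat_lit 29) (.e (nat_lit 442430) (nat_lit 24) (.e (nat_lit 229665) (nat_lit 240) .nil)))))) (.g (nat_lit 1) (.e (nat_lit 34838) (nat_lit 0) .nil) .nil)))))) (.nd (nat_lit 7) (.nd (nat_lit 8) (.nd (nat_lit 9) 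
(.lf (nat_lit 453697) (.g (nat_lit 4459) (.e (nat_lit 2630) (nat_lit 164) (.e (nat_lit 172064) (nat_lit 2) (.e (nat_lit 196666) (nat_lit 13) (.e (nat_lit 65610) (nat_lit 10) (.e (nat_lit 344129) (nat_lit 26) (.e (nat_lit 557090) (nat_lit 12) (.e (nat_lit 163849) (nat_lit 0) (.e (nat_lit 6254) (nat_lit 337) .nil)))))))) (.g (nat_lit 1) (.e (nat_lit 30625) (nat_lit 0) .nil) .nil))) 
(.lf (nat_lit 454209) (.g (nat_lit 1990) (.e (nat_lit 2638) (nat_lit 165) (.e (nat_lit 180278) (nat_lit 32) (.e (nat_lit 1660) (nat_lit 115) (.e (nat_lit 393281) (nat_lit 23) (.e (nat_lit 426098) (nat_lit 1) (.e (nat_lit 164345) (nat_lit 240) .nil)))))) (.g (nat_lit 1) (.e (nat_lit 33961) (nat_lit 0) .nil) .nil)))) (.nd (nat_lit 9) 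
(.lf (nat_lit 453953) (.g (nat_lit 2244) (.e (nat_lit 2630) (nat_lit 164) (.e (nat_lit 172120) (nat_lit 12) (.e (nat_lit 475210) (nat_lit 41) (.e (nat_lit 712752) (nat_lit 29) (.e (nat_lit 442428) (nat_lit 24) .nil))))) (.g (nat_lit 0) (.e (nat_lit 32262) (nat_lit 0) .nil) .nil))) 
(.lf (nat_lit 454465) (.g (nat_lit 3096) (.e (nat_lit 2641) (nat_lit 165) (.e (nat_lit 180244) (nat_lit 5) (.e (nat_lit 532550) (nat_lit 12) (.e (nat_lit 360474) (nat_lit 8) (.e (nat_lit 557094) (nat_lit 12) (.e (nat_lit 163840) (nat_lit 0) (.e (nat_lit 6252) (nat_lit 337) .nil))))))) (.g (nat_lit 1) (.e (nat_lit 34679) (nat_lit 0) .nil) .nil))))) (.nd (nat_lit 8) (.nd (nat_lit 9) 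
(.lf (nat_lit 453825) (.g (nat_lit 1809) (.e (nat_lit 2630) (nat_lit 164) (.e (nat_lit 172067) (nat_lit 3) (.e (nat_lit 204868) (nat_lit 29) (.e (nat_lit 360473) (nat_lit 8) (.e (nat_lit 557089) (nat_lit 12) .nil))))) (.g (nat_lit 0) (.e (nat_lit 30853) (nat_lit 0) .nil) .nil))) 
(.lf (nat_lit 454337) (.g (nat_lit 3010) (.e (nat_lit 2640) (nat_lit 165) (.e (nat_lit 180277) (nat_lit 32) (.e (nat_lit 1427) (nat_lit 108) (.e (nat_lit 336443) (nat_lit 32) (.e (nat_lit 466972) (nat_lit 21) (.e (nat_lit 164345) (nat_lit 240) .nil)))))) (.g (nat_lit 1) (.e (nat_lit 34488) (nat_lit 0) .nil) .nil)))) (.nd (nat_lit 9) 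
(.lf (nat_lit 454081) (.g (nat_lit 3694) (.e (nat_lit 2636) (nat_lit 165) (.e (nat_lit 180251) (nat_lit 10) (.e (nat_lit 573456) (nat_lit 9) (.e (nat_lit 1669) (nat_lit 116) (.e (nat_lit 401459) (nat_lit 13) (.e (nat_lit 483365) (nat_lit 18) (.e (nat_lit 57654) (nat_lit 152) .nil))))))) (.g (nat_lit 1) (.e (nat_lit 33307) (nat_lit 0) .nil) .nil))) 
(.lf (nat_lit 454593) (.g (nat_lit 3947) (.e (nat_lit 2643) (nat_lit 165) (.e (nat_lit 180246) (nat_lit 6) (.e (nat_lit 540706) (nat_lit 12) (.e (nat_lit 360475) (nat_lit 8) (.e (nat_lit 557089) (nat_lit 12) (.e (nat_lit 163844) (nat_lit 0) (.e (nat_lit 6255) (nat_lit 337) .nil))))))) (.g (nat_lit 1) (.e (nat_lit 35105) (nat_lit 0) .nil) .nil))))))) 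
(.nd (nat_lit 6) (.nd (nat_lit 7) (.nd (nat_lit 8) (.nd (nat_lit 9) 
(.lf (nat_lit 453665) (.g (nat_lit 4478) (.e (nat_lit 2630) (nat_lit 164) (.e (nat_lit 172062) (nat_lit 2) (.e (nat_lit 196666) (nat_lit 13) (.e (nat_lit 65617) (nat_lit 10) (.e (nat_lit 344133) (nat_lit 26) (.e (nat_lit 557091) (nat_lit 12) (.e (nat_lit 163844) (nat_lit 0) (.e (nat_lit 6254) (nat_lit 337) .nil)))))))) (.g (nat_lit 1) (.e (nat_lit 30578) (nat_lit 0) .nil) .nil))) 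
(.lf (nat_lit 454177) (.g (nat_lit 3295) (.e (nat_lit 2638) (nat_lit 165) (.e (nat_lit 180278) (nat_lit 32) (.e (nat_lit 1428) (nat_lit 108) (.e (nat_lit 336443) (nat_lit 32) (.e (nat_lit 466969) (nat_lit 21) (.e (nat_lit 164347) (nat_lit 240) .nil)))))) (.g (nat_lit 1) (.e (nat_lit 33924) (nat_lit 0) .nil) .nil)))) (.nd (nat_lit 9) 
(.lf (nat_lit 453921) (.g (nat_lit 1372) (.e (nat_lit 2630) (nat_lit 164) (.e (nat_lit 172118) (nat_lit 12) (.e (nat_lit 475199) (nat_lit 40) (.e (nat_lit 704598) (nat_lit 6) (.e (nat_lit 188454) (nat_lit 24) .nil))))) (.g (nat_lit 0) (.e (nat_lit 32207) (nat_lit 0) .nil) .nil))) 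
(.lf (nat_lit 454433) (.g (nat_lit 1118) (.e (nat_lit 2640) (nat_lit 165) (.e (nat_lit 180278) (nat_lit 32) (.e (nat_lit 1661) (nat_lit 115) (.e (nat_lit 393274) (nat_lit 23) .nil)))) (.g (nat_lit 0) (.e (nat_lit 34605) (nat_lit 0) .nil) .nil))))) (.nd (nat_lit 8) (.nd (nat_lit 9) 
(.lf (nat_lit 453793) (.g (nat_lit 2310) (.e (nat_lit 2630) (nat_lit 164) (.e (nat_lit 172066) (nat_lit 3) (.e (nat_lit 204868) (nat_lit 29) (.e (nat_lit 360473) (nat_lit 8) (.e (nat_lit 557089) (nat_lit 12) (.e (nat_lit 163849) (nat_lit 0) (.e (nat_lit 6255) (nat_lit 337) .nil))))))) (.g (nat_lit 1) (.e (nat_lit 30774) (nat_lit 0) .nil) .nil))) 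
(.lf (nat_lit 454305) (.g (nat_lit 2128) (.e (nat_lit 2639) (nat_lit 165) (.e (nat_lit 180278) (nat_lit 32) (.e (nat_lit 1660) (nat_lit 115) (.e (nat_lit 393271) (nat_lit 23) (.e (nat_lit 426112) (nat_lit 1) (.e (nat_lit 164346) (nat_lit 240) .nil)))))) (.g (nat_lit 1) (.e (nat_lit 34212) (nat_lit 0) .nil) .nil)))) (.nd (nat_lit 9) 
(.lf (nat_lit 454049) (.g (nat_lit 2202) (.e (nat_lit 2633) (nat_lit 164) (.e (nat_lit 172062) (nat_lit 2) (.e (nat_lit 196666) (nat_lit 13) (.e (nat_lit 65617) (nat_lit 10) (.e (nat_lit 344133) (nat_lit 26) .nil))))) (.g (nat_lit 0) (.e (nat_lit 33059) (nat_lit 0) .nil) .nil))) 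
(.lf (nat_lit 454561) (.g (nat_lit 4096) (.e (nat_lit 2643) (nat_lit 165) (.e (nat_lit 180243) (nat_lit 5) (.e (nat_lit 532549) (nat_lit 12) (.e (nat_lit 360475) (nat_lit 8) (.e (nat_lit 557089) (nat_lit 12) (.e (nat_lit 163849) (nat_lit 0) (.e (nat_lit 6254) (nat_lit 337) .nil))))))) (.g (nat_lit 1) (.e (nat_lit 35051) (nat_lit 0) .nil) .nil)))))) 
(.nd (nat_lit 7) (.nd (nat_lit 8) (.nd (nat_lit 9) 
(.lf (nat_lit 453729) (.g (nat_lit 4655) (.e (nat_lit 2630) (nat_lit 164) (.e (nat_lit 172064) (nat_lit 2) (.e (nat_lit 196666) (nat_lit 13) (.e (nat_lit 65617) (nat_lit 10) (.e (nat_lit 344133) (nat_lit 26) (.e (nat_lit 557089) (nat_lit 12) (.e (nat_lit 163843) (nat_lit 0) (.e (nat_lit 6255) (nat_lit 337) .nil)))))))) (.g (nat_lit 1) (.e (nat_lit 30657) (nat_lit 0) .nil) .nil))) 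
(.lf (nat_lit 454241) (.g (nat_lit 906) (.e (nat_lit 2639) (nat_lit 165) (.e (nat_lit 180277) (nat_lit 32) (.e (nat_lit 1426) (nat_lit 108) (.e (nat_lit 336432) (nat_lit 30) (.e (nat_lit 458496) (nat_lit 0) .nil))))) (.g (nat_lit 0) (.e (nat_lit 34103) (nat_lit 0) .nil) .nil)))) (.nd (nat_lit 9) 
(.lf (nat_lit 453985) (.g (nat_lit 2488) (.e (nat_lit 2630) (nat_lit 164) (.e (nat_lit 172124) (nat_lit 14) (.e (nat_lit 491549) (nat_lit 9) (.e (nat_lit 336432) (nat_lit 30) (.e (nat_lit 450568) (nat_lit 0) (.e (nat_lit 5448) (nat_lit 306) .nil)))))) (.g (nat_lit 1) (.e (nat_lit 32552) (nat_lit 0) .nil) .nil))) 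
(.lf (nat_lit 454497) (.g (nat_lit 2680) (.e (nat_lit 2641) (nat_lit 165) (.e (nat_lit 180277) (nat_lit 32) (.e (nat_lit 1427) (nat_lit 108) (.e (nat_lit 336430) (nat_lit 29) (.e (nat_lit 442428) (nat_lit 24) (.e (nat_lit 229663) (nat_lit 240) .nil)))))) (.g (nat_lit 1) (.e (nat_lit 34783) (nat_lit 0) .nil) .nil))))) (.nd (nat_lit 8) (.nd (nat_lit 9) 
(.lf (nat_lit 453857) (.g (nat_lit 1509) (.e (nat_lit 2630) (nat_lit 164) (.e (nat_lit 172067) (nat_lit 3) (.e (nat_lit 204869) (nat_lit 29) (.e (nat_lit 360473) (nat_lit 8) .nil)))) (.g (nat_lit 0) (.e (nat_lit 30901) (nat_lit 0) .nil) .nil))) 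
(.lf (nat_lit 454369) (.g (nat_lit 2861) (.e (nat_lit 2640) (nat_lit 165) (.e (nat_lit 180277) (nat_lit 32) (.e (nat_lit 1660) (nat_lit 115) (.e (nat_lit 393281) (nat_lit 23) (.e (nat_lit 426108) (nat_lit 1) (.e (nat_lit 164345) (nat_lit 240) .nil)))))) (.g (nat_lit 1) (.e (nat_lit 34521) (nat_lit 0) .nil) .nil)))) (.nd (nat_lit 9) 
(.lf (nat_lit 454113) (.g (nat_lit 1143) (.e (nat_lit 2638) (nat_lit 165) (.e (nat_lit 180277) (nat_lit 32) (.e (nat_lit 1427) (nat_lit 108) (.e (nat_lit 336434) (nat_lit 30) .nil)))) (.g (nat_lit 0) (.e (nat_lit 33811) (nat_lit 0) .nil) .nil))) 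
(.lf (nat_lit 454625) (.g (nat_lit 3212) (.e (nat_lit 2643) (nat_lit 165) (.e (nat_lit 180277) (nat_lit 32) (.e (nat_lit 1427) (nat_lit 108) (.e (nat_lit 336430) (nat_lit 29) (.e (nat_lit 442430) (nat_lit 24) (.e (nat_lit 229666) (nat_lit 240) .nil)))))) (.g (nat_lit 1) (.e (nat_lit 35325) (nat_lit 0) .nil) .nil)))))))) 
(.nd (nat_lit 5) (.nd (nat_lit 6) (.nd (nat_lit 7) (.nd (nat_lit 8) (.nd (nat_lit 9) 
(.lf (nat_lit 453649) (.g (nat_lit 3401) (.e (nat_lit 2630) (nat_lit 164) (.e (nat_lit 172062) (nat_lit 2) (.e (nat_lit 196666) (nat_lit 13) (.e (nat_lit 65617) (nat_lit 10) (.e (nat_lit 344130) (nat_lit 26) (.e (nat_lit 557089) (nat_lit 12) (.e (nat_lit 163849) (nat_lit 0) (.e (nat_lit 6252) (nat_lit 337) .nil)))))))) (.g (nat_lit 1) (.e (nat_lit 30562) (nat_lit 0) .nil) .nil))) 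
(.lf (nat_lit 454161) (.g (nat_lit 2262) (.e (nat_lit 2638) (nat_lit 165) (.e (nat_lit 180278) (nat_lit 32) (.e (nat_lit 1253) (nat_lit 92) (.e (nat_lit 98373) (nat_lit 29) (.e (nat_lit 458496) (nat_lit 0) (.e (nat_lit 3978) (nat_lit 239) .nil)))))) (.g (nat_lit 1) (.e (nat_lit 33895) (nat_lit 0) .nil) .nil)))) (.nd (nat_lit 9) 
(.lf (nat_lit 453905) (.g (nat_lit 2109) (.e (nat_lit 2630) (nat_lit 164) (.e (nat_lit 172106) (nat_lit 10) (.e (nat_lit 434272) (nat_lit 38) (.e (nat_lit 655380) (nat_lit 6) (.e (nat_lit 188454) (nat_lit 24) (.e (nat_lit 229664) (nat_lit 240) .nil)))))) (.g (nat_lit 1) (.e (nat_lit 31870) (nat_lit 0) .nil) .nil))) 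
(.lf (nat_lit 454417) (.g (nat_lit 2550) (.e (nat_lit 2640) (nat_lit 165) (.e (nat_lit 180278) (nat_lit 32) (.e (nat_lit 1659) (nat_lit 115) (.e (nat_lit 393281) (nat_lit 23) (.e (nat_lit 426108) (nat_lit 1) (.e (nat_lit 164345) (nat_lit 240) .nil)))))) (.g (nat_lit 1) (.e (nat_lit 34585) (nat_lit 0) .nil) .nil))))) (.nd (nat_lit 8) (.nd (nat_lit 9) 
(.lf (nat_lit 453777) (.g (nat_lit 3991) (.e (nat_lit 2630) (nat_lit 164) (.e (nat_lit 172065) (nat_lit 3) (.e (nat_lit 204869) (nat_lit 29) (.e (nat_lit 360475) (nat_lit 8) (.e (nat_lit 557089) (nat_lit 12) (.e (nat_lit 163844) (nat_lit 0) (.e (nat_lit 6252) (nat_lit 337) .nil))))))) (.g (nat_lit 1) (.e (nat_lit 30758) (nat_lit 0) .nil) .nil))) 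
(.lf (nat_lit 454289) (.g (nat_lit 633) (.e (nat_lit 2639) (nat_lit 165) (.e (nat_lit 180278) (nat_lit 32) (.e (nat_lit 1658) (nat_lit 115) .nil))) (.g (nat_lit 0) (.e (nat_lit 34194) (nat_lit 0) .nil) .nil)))) (.nd (nat_lit 9) 
(.lf (nat_lit 454033) (.g (nat_lit 2314) (.e (nat_lit 2630) (nat_lit 164) (.e (nat_lit 172126) (nat_lit 14) (.e (nat_lit 491550) (nat_lit 9) (.e (nat_lit 336434) (nat_lit 30) (.e (nat_lit 450567) (nat_lit 0) (.e (nat_lit 5443) (nat_lit 306) .nil)))))) (.g (nat_lit 1) (.e (nat_lit 32751) (nat_lit 0) .nil) .nil))) 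
(.lf (nat_lit 454545) (.g (nat_lit 2735) (.e (nat_lit 2643) (nat_lit 165) (.e (nat_lit 180243) (nat_lit 5) (.e (nat_lit 532549) (nat_lit 12) (.e (nat_lit 360473) (nat_lit 8) (.e (nat_lit 557091) (nat_lit 12) (.e (nat_lit 163843) (nat_lit 0) (.e (nat_lit 6250) (nat_lit 337) .nil))))))) (.g (nat_lit 1) (.e (nat_lit 35026) (nat_lit 0) .nil) .nil)))))) 
(.nd (nat_lit 7) (.nd (nat_lit 8) (.nd (nat_lit 9) 
(.lf (nat_lit 453713) (.g (nat_lit 3636) (.e (nat_lit 2630) (nat_lit 164) (.e (nat_lit 172064) (nat_lit 2) (.e (nat_lit 196666) (nat_lit 13) (.e (nat_lit 65617) (nat_lit 10) (.e (nat_lit 344130) (nat_lit 26) (.e (nat_lit 557089) (nat_lit 12) (.e (nat_lit 163849) (nat_lit 0) (.e (nat_lit 6252) (nat_lit 337) .nil)))))))) (.g (nat_lit 1) (.e (nat_lit 30641) (nat_lit 0) .nil) .nil))) 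
(.lf (nat_lit 454225) (.g (nat_lit 2523) (.e (nat_lit 2638) (nat_lit 165) (.e (nat_lit 180278) (nat_lit 32) (.e (nat_lit 1661) (nat_lit 115) (.e (nat_lit 393284) (nat_lit 24) (.e (nat_lit 434205) (nat_lit 18) (.e (nat_lit 5545) (nat_lit 306) .nil)))))) (.g (nat_lit 1) (.e (nat_lit 34003) (nat_lit 0) .nil) .nil)))) (.nd (nat_lit 9) 
(.lf (nat_lit 453969) (.g (nat_lit 3041) (.e (nat_lit 2630) (nat_lit 164) (.e (nat_lit 172120) (nat_lit 12) (.e (nat_lit 475211) (nat_lit 41) (.e (nat_lit 712752) (nat_lit 29) (.e (nat_lit 442430) (nat_lit 24) (.e (nat_lit 229666) (nat_lit 240) .nil)))))) (.g (nat_lit 1) (.e (nat_lit 32292) (nat_lit 0) .nil) .nil))) 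
(.lf (nat_lit 454481) (.g (nat_lit 5237) (.e (nat_lit 2641) (nat_lit 165) (.e (nat_lit 180244) (nat_lit 5) (.e (nat_lit 532550) (nat_lit 12) (.e (nat_lit 360475) (nat_lit 8) (.e (nat_lit 557091) (nat_lit 12) (.e (nat_lit 163843) (nat_lit 0) (.e (nat_lit 6254) (nat_lit 337) .nil))))))) (.g (nat_lit 1) (.e (nat_lit 34695) (nat_lit 0) .nil) .nil))))) (.nd (nat_lit 8) (.nd (nat_lit 9) 
(.lf (nat_lit 453841) (.g (nat_lit 2451) (.e (nat_lit 2630) (nat_lit 164) (.e (nat_lit 172067) (nat_lit 3) (.e (nat_lit 204868) (nat_lit 29) (.e (nat_lit 360473) (nat_lit 8) (.e (nat_lit 557093) (nat_lit 12) (.e (nat_lit 163848) (nat_lit 0) (.e (nat_lit 6255) (nat_lit 337) .nil))))))) (.g (nat_lit 1) (.e (nat_lit 30878) (nat_lit 0) .nil) .nil))) 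
(.lf (nat_lit 454353) (.g (nat_lit 1071) (.e (nat_lit 2640) (nat_lit 165) (.e (nat_lit 180277) (nat_lit 32) (.e (nat_lit 1659) (nat_lit 115) (.e (nat_lit 393278) (nat_lit 23) .nil)))) (.g (nat_lit 0) (.e (nat_lit 34504) (nat_lit 0) .nil) .nil)))) (.nd (nat_lit 9) 
(.lf (nat_lit 454097) (.g (nat_lit 2270) (.e (nat_lit 2638) (nat_lit 165) (.e (nat_lit 180277) (nat_lit 32) (.e (nat_lit 1252) (nat_lit 92) (.e (nat_lit 98373) (nat_lit 29) (.e (nat_lit 450560) (nat_lit 0) (.e (nat_lit 3988) (nat_lit 239) .nil)))))) (.g (nat_lit 1) (.e (nat_lit 33790) (nat_lit 0) .nil) .nil))) 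
(.lf (nat_lit 454609) (.g (nat_lit 1525) (.e (nat_lit 2643) (nat_lit 165) (.e (nat_lit 180277) (nat_lit 32) (.e (nat_lit 1425) (nat_lit 108) (.e (nat_lit 336430) (nat_lit 29) (.e (nat_lit 442429) (nat_lit 24) (.e (nat_lit 229665) (nat_lit 240) .nil)))))) (.g (nat_lit 1) (.e (nat_lit 35302) (nat_lit 0) .nil) .nil))))))) (.nd (nat_lit 6) (.nd (nat_lit 7) (.nd (nat_lit 8) (.nd (nat_lit 9) 
(.lf (nat_lit 453681) (.g (nat_lit 2738) (.e (nat_lit 2630) (nat_lit 164) (.e (nat_lit 172063) (nat_lit 2) (.e (nat_lit 196666) (nat_lit 13) (.e (nat_lit 65617) (nat_lit 10) (.e (nat_lit 344133) (nat_lit 26) (.e (nat_lit 557089) (nat_lit 12) (.e (nat_lit 163849) (nat_lit 0) (.e (nat_lit 6255) (nat_lit 337) .nil)))))))) (.g (nat_lit 1) (.e (nat_lit 30594) (nat_lit 0) .nil) .nil))) 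
(.lf (nat_lit 454193) (.g (nat_lit 1351) (.e (nat_lit 2638) (nat_lit 165) (.e (nat_lit 180278) (nat_lit 32) (.e (nat_lit 1659) (nat_lit 115) (.e (nat_lit 393275) (nat_lit 23) (.e (nat_lit 426109) (nat_lit 1) .nil))))) (.g (nat_lit 0) (.e (nat_lit 33941) (nat_lit 0) .nil) .nil)))) (.nd (nat_lit 9) 
(.lf (nat_lit 453937) (.g (nat_lit 3048) (.e (nat_lit 2630) (nat_lit 164) (.e (nat_lit 172120) (nat_lit 12) (.e (nat_lit 475197) (nat_lit 40) (.e (nat_lit 704598) (nat_lit 6) (.e (nat_lit 188455) (nat_lit 24) (.e (nat_lit 229664) (nat_lit 240) .nil)))))) (.g (nat_lit 1) (.e (nat_lit 32233) (nat_lit 0) .nil) .nil))) 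
(.lf (nat_lit 454449) (.g (nat_lit 2655) (.e (nat_lit 2641) (nat_lit 165) (.e (nat_lit 180244) (nat_lit 5) (.e (nat_lit 532549) (nat_lit 12) (.e (nat_lit 360473) (nat_lit 8) (.e (nat_lit 557091) (nat_lit 12) (.e (nat_lit 163847) (nat_lit 0) (.e (nat_lit 6255) (nat_lit 337) .nil))))))) (.g (nat_lit 1) (.e (nat_lit 34661) (nat_lit 0) .nil) .nil))))) (.nd (nat_lit 8) (.nd (nat_lit 9) 
(.lf (nat_lit 453809) (.g (nat_lit 2819) (.e (nat_lit 2630) (nat_lit 164) (.e (nat_lit 172066) (nat_lit 3) (.e (nat_lit 204869) (nat_lit 29) (.e (nat_lit 360475) (nat_lit 8) (.e (nat_lit 557091) (nat_lit 12) .nil))))) (.g (nat_lit 0) (.e (nat_lit 30790) (nat_lit 0) .nil) .nil))) 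
(.lf (nat_lit 454321) (.g (nat_lit 2311) (.e (nat_lit 2640) (nat_lit 165) (.e (nat_lit 180277) (nat_lit 32) (.e (nat_lit 1425) (nat_lit 108) (.e (nat_lit 336443) (nat_lit 32) (.e (nat_lit 466969) (nat_lit 21) (.e (nat_lit 164345) (nat_lit 240) .nil)))))) (.g (nat_lit 1) (.e (nat_lit 34469) (nat_lit 0) .nil) .nil)))) (.nd (nat_lit 9) 
(.lf (nat_lit 454065) (.g (nat_lit 3029) (.e (nat_lit 2635) (nat_lit 165) (.e (nat_lit 180244) (nat_lit 5) (.e (nat_lit 532550) (nat_lit 12) (.e (nat_lit 360474) (nat_lit 8) (.e (nat_lit 557094) (nat_lit 12) .nil))))) (.g (nat_lit 0) (.e (nat_lit 33185) (nat_lit 0) .nil) .nil))) 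
(.lf (nat_lit 454577) (.g (nat_lit 3730) (.e (nat_lit 2643) (nat_lit 165) (.e (nat_lit 180243) (nat_lit 5) (.e (nat_lit 532550) (nat_lit 12) (.e (nat_lit 360475) (nat_lit 8) (.e (nat_lit 557089) (nat_lit 12) (.e (nat_lit 163844) (nat_lit 0) (.e (nat_lit 6250) (nat_lit 337) .nil))))))) (.g (nat_lit 1) (.e (nat_lit 35069) (nat_lit 0) .nil) .nil)))))) 
(.nd (nat_lit 7) (.nd (nat_lit 8) (.nd (nat_lit 9) 
(.lf (nat_lit 453745) (.g (nat_lit 4433) (.e (nat_lit 2630) (nat_lit 164) (.e (nat_lit 172065) (nat_lit 3) (.e (nat_lit 204852) (nat_lit 26) (.e (nat_lit 336310) (nat_lit 16) (.e (nat_lit 164182) (nat_lit 154) (.e (nat_lit 57379) (nat_lit 3) (.e (nat_lit 98334) (nat_lit 18) (.e (nat_lit 164305) (nat_lit 226) .nil)))))))) (.g (nat_lit 1) (.e (nat_lit 30673) (nat_lit 0) .nil) .nil))) 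
(.lf (nat_lit 454257) (.g (nat_lit 625) (.e (nat_lit 2639) (nat_lit 165) (.e (nat_lit 180277) (nat_lit 32) (.e (nat_lit 1658) (nat_lit 115) (.e (nat_lit 393277) (nat_lit 23) (.e (nat_lit 426109) (nat_lit 1) .nil))))) (.g (nat_lit 0) (.e (nat_lit 34126) (nat_lit 0) .nil) .nil)))) (.nd (nat_lit 9) 
(.lf (nat_lit 454001) (.g (nat_lit 3107) (.e (nat_lit 2630) (nat_lit 164) (.e (nat_lit 172126) (nat_lit 14) (.e (nat_lit 491540) (nat_lit 3) (.e (nat_lit 98373) (nat_lit 29) (.e (nat_lit 458496) (nat_lit 0) (.e (nat_lit 3914) (nat_lit 239) .nil)))))) (.g (nat_lit 1) (.e (nat_lit 32701) (nat_lit 0) .nil) .nil))) 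
(.lf (nat_lit 454513) (.g (nat_lit 2171) (.e (nat_lit 2641) (nat_lit 165) (.e (nat_lit 180278) (nat_lit 32) (.e (nat_lit 1253) (nat_lit 92) (.e (nat_lit 98373) (nat_lit 29) (.e (nat_lit 458496) (nat_lit 0) (.e (nat_lit 3913) (nat_lit 239) .nil)))))) (.g (nat_lit 1) (.e (nat_lit 34806) (nat_lit 0) .nil) .nil))))) (.nd (nat_lit 8) (.nd (nat_lit 9) 
(.lf (nat_lit 453873) (.g (nat_lit 4139) (.e (nat_lit 2630) (nat_lit 164) (.e (nat_lit 172067) (nat_lit 3) (.e (nat_lit 204869) (nat_lit 29) (.e (nat_lit 360475) (nat_lit 8) (.e (nat_lit 557089) (nat_lit 12) (.e (nat_lit 163844) (nat_lit 0) (.e (nat_lit 6252) (nat_lit 337) .nil))))))) (.g (nat_lit 1) (.e (nat_lit 30917) (nat_lit 0) .nil) .nil))) 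
(.lf (nat_lit 454385) (.g (nat_lit 1744) (.e (nat_lit 2640) (nat_lit 165) (.e (nat_lit 180278) (nat_lit 32) (.e (nat_lit 1426) (nat_lit 108) (.e (nat_lit 336430) (nat_lit 29) (.e (nat_lit 442419) (nat_lit 21) (.e (nat_lit 164345) (nat_lit 240) .nil)))))) (.g (nat_lit 1) (.e (nat_lit 34550) (nat_lit 0) .nil) .nil)))) (.nd (nat_lit 9) 
(.lf (nat_lit 454129) (.g (nat_lit 2403) (.e (nat_lit 2638) (nat_lit 165) (.e (nat_lit 180277) (nat_lit 32) (.e (nat_lit 1428) (nat_lit 108) (.e (nat_lit 336443) (nat_lit 32) (.e (nat_lit 466972) (nat_lit 21) (.e (nat_lit 164345) (nat_lit 240) .nil)))))) (.g (nat_lit 1) (.e (nat_lit 33828) (nat_lit 0) .nil) .nil))) 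
(.lf (nat_lit 454641) (.g (nat_lit 3538) (.e (nat_lit 2645) (nat_lit 166) (.e (nat_lit 188434) (nat_lit 20) (.e (nat_lit 3468) (nat_lit 217) (.e (nat_lit 696344) (nat_lit 8) (.e (nat_lit 172106) (nat_lit 10) (.e (nat_lit 434209) (nat_lit 18) (.e (nat_lit 6273) (nat_lit 337) .nil))))))) (.g (nat_lit 1) (.e (nat_lit 35654) (nat_lit 0) .nil) .nil))))))))) 
(.nd (nat_lit 4) (.nd (nat_lit 5) (.nd (nat_lit 6) (.nd (nat_lit 7) (.nd (nat_lit 8) 
(.nd (nat_lit 9) 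
(.lf (nat_lit 453641) (.g (nat_lit 1879) (.e (nat_lit 2630) (nat_lit 164) (.e (nat_lit 172062) (nat_lit 2) (.e (nat_lit 196666) (nat_lit 13) (.e (nat_lit 65617) (nat_lit 10) (.e (nat_lit 344127) (nat_lit 26) (.e (nat_lit 557089) (nat_lit 12) (.e (nat_lit 163849) (nat_lit 0) (.e (nat_lit 6255) (nat_lit 337) .nil)))))))) (.g (nat_lit 1) (.e (nat_lit 30554) (nat_lit 0) .nil) .nil))) 
(.lf (nat_lit 454153) (.g (nat_lit 2098) (.e (nat_lit 2638) (nat_lit 165) (.e (nat_lit 180277) (nat_lit 32) (.e (nat_lit 1661) (nat_lit 115) (.e (nat_lit 393271) (nat_lit 23) (.e (nat_lit 426112) (nat_lit 1) .nil))))) (.g (nat_lit 0) (.e (nat_lit 33875) (nat_lit 0) .nil) .nil)))) (.nd (nat_lit 9) 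
(.lf (nat_lit 453897) (.g (nat_lit 3559) (.e (nat_lit 2630) (nat_lit 164) (.e (nat_lit 172106) (nat_lit 10) (.e (nat_lit 434241) (nat_lit 27) (.e (nat_lit 565267) (nat_lit 4) (.e (nat_lit 65619) (nat_lit 10) (.e (nat_lit 344090) (nat_lit 18) (.e (nat_lit 7607) (nat_lit 410) .nil))))))) (.g (nat_lit 1) (.e (nat_lit 31757) (nat_lit 0) .nil) .nil))) 
(.lf (nat_lit 454409) (.g (nat_lit 442) (.e (nat_lit 2640) (nat_lit 165) (.e (nat_lit 180278) (nat_lit 32) (.e (nat_lit 1659) (nat_lit 115) .nil))) (.g (nat_lit 0) (.e (nat_lit 34577) (nat_lit 0) .nil) .nil))))) (.nd (nat_lit 8) (.nd (nat_lit 9) 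
(.lf (nat_lit 453769) (.g (nat_lit 2511) (.e (nat_lit 2630) (nat_lit 164) (.e (nat_lit 172065) (nat_lit 3) (.e (nat_lit 204869) (nat_lit 29) (.e (nat_lit 360474) (nat_lit 8) (.e (nat_lit 557093) (nat_lit 12) (.e (nat_lit 163848) (nat_lit 0) (.e (nat_lit 6255) (nat_lit 337) .nil))))))) (.g (nat_lit 1) (.e (nat_lit 30750) (nat_lit 0) .nil) .nil))) 
(.lf (nat_lit 454281) (.g (nat_lit 2595) (.e (nat_lit 2639) (nat_lit 165) (.e (nat_lit 180278) (nat_lit 32) (.e (nat_lit 1428) (nat_lit 108) (.e (nat_lit 336430) (nat_lit 29) (.e (nat_lit 442419) (nat_lit 21) (.e (nat_lit 164345) (nat_lit 240) .nil)))))) (.g (nat_lit 1) (.e (nat_lit 34186) (nat_lit 0) .nil) .nil)))) (.nd (nat_lit 9) 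
(.lf (nat_lit 454025) (.g (nat_lit 3398) (.e (nat_lit 2630) (nat_lit 164) (.e (nat_lit 172126) (nat_lit 14) (.e (nat_lit 491550) (nat_lit 9) (.e (nat_lit 336430) (nat_lit 29) (.e (nat_lit 442428) (nat_lit 24) (.e (nat_lit 229665) (nat_lit 240) .nil)))))) (.g (nat_lit 1) (.e (nat_lit 32742) (nat_lit 0) .nil) .nil))) 
(.lf (nat_lit 454537) (.g (nat_lit 4399) (.e (nat_lit 2643) (nat_lit 165) (.e (nat_lit 180243) (nat_lit 5) (.e (nat_lit 532549) (nat_lit 12) (.e (nat_lit 360473) (nat_lit 8) (.e (nat_lit 557089) (nat_lit 12) (.e (nat_lit 163843) (nat_lit 0) (.e (nat_lit 6255) (nat_lit 337) .nil))))))) (.g (nat_lit 1) (.e (nat_lit 35016) (nat_lit 0) .nil) .nil)))))) 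
(.nd (nat_lit 7) (.nd (nat_lit 8) (.nd (nat_lit 9) 
(.lf (nat_lit 453705) (.g (nat_lit 4190) (.e (nat_lit 2630) (nat_lit 164) (.e (nat_lit 172064) (nat_lit 2) (.e (nat_lit 196666) (nat_lit 13) (.e (nat_lit 65617) (nat_lit 10) (.e (nat_lit 344127) (nat_lit 26) (.e (nat_lit 557090) (nat_lit 12) (.e (nat_lit 163844) (nat_lit 0) (.e (nat_lit 6252) (nat_lit 337) .nil)))))))) (.g (nat_lit 1) (.e (nat_lit 30633) (nat_lit 0) .nil) .nil))) 
(.lf (nat_lit 454217) (.g (nat_lit 1530) (.e (nat_lit 2638) (nat_lit 165) (.e (nat_lit 180278) (nat_lit 32) (.e (nat_lit 1661) (nat_lit 115) (.e (nat_lit 393274) (nat_lit 23) (.e (nat_lit 426104) (nat_lit 1) (.e (nat_lit 164347) (nat_lit 240) .nil)))))) (.g (nat_lit 1) (.e (nat_lit 33988) (nat_lit 0) .nil) .nil)))) (.nd (nat_lit 9) 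
(.lf (nat_lit 453961) (.g (nat_lit 1193) (.e (nat_lit 2630) (nat_lit 164) (.e (nat_lit 172120) (nat_lit 12) (.e (nat_lit 475211) (nat_lit 41) (.e (nat_lit 712750) (nat_lit 29) .nil)))) (.g (nat_lit 0) (.e (nat_lit 32284) (nat_lit 0) .nil) .nil))) 
(.lf (nat_lit 454473) (.g (nat_lit 5593) (.e (nat_lit 2641) (nat_lit 165) (.e (nat_lit 180244) (nat_lit 5) (.e (nat_lit 532550) (nat_lit 12) (.e (nat_lit 360475) (nat_lit 8) (.e (nat_lit 557089) (nat_lit 12) (.e (nat_lit 163844) (nat_lit 0) (.e (nat_lit 6255) (nat_lit 337) .nil))))))) (.g (nat_lit 1) (.e (nat_lit 34687) (nat_lit 0) .nil) .nil))))) (.nd (nat_lit 8) (.nd (nat_lit 9) 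
(.lf (nat_lit 453833) (.g (nat_lit 4495) (.e (nat_lit 2630) (nat_lit 164) (.e (nat_lit 172067) (nat_lit 3) (.e (nat_lit 204868) (nat_lit 29) (.e (nat_lit 360473) (nat_lit 8) (.e (nat_lit 557091) (nat_lit 12) (.e (nat_lit 163843) (nat_lit 0) (.e (nat_lit 6254) (nat_lit 337) .nil))))))) (.g (nat_lit 1) (.e (nat_lit 30867) (nat_lit 0) .nil) .nil))) 
(.lf (nat_lit 454345) (.g (nat_lit 1766) (.e (nat_lit 2640) (nat_lit 165) (.e (nat_lit 180277) (nat_lit 32) (.e (nat_lit 1658) (nat_lit 115) (.e (nat_lit 393266) (nat_lit 23) (.e (nat_lit 426109) (nat_lit 1) (.e (nat_lit 164345) (nat_lit 240) .nil)))))) (.g (nat_lit 1) (.e (nat_lit 34496) (nat_lit 0) .nil) .nil)))) (.nd (nat_lit 9) 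
(.lf (nat_lit 454089) (.g (nat_lit 2173) (.e (nat_lit 2637) (nat_lit 165) (.e (nat_lit 180252) (nat_lit 10) (.e (nat_lit 573449) (nat_lit 9) (.e (nat_lit 1669) (nat_lit 116) (.e (nat_lit 401459) (nat_lit 13) .nil))))) (.g (nat_lit 0) (.e (nat_lit 33555) (nat_lit 0) .nil) .nil))) 
(.lf (nat_lit 454601) (.g (nat_lit 2654) (.e (nat_lit 2643) (nat_lit 165) (.e (nat_lit 180251) (nat_lit 10) (.e (nat_lit 573456) (nat_lit 9) (.e (nat_lit 1669) (nat_lit 116) (.e (nat_lit 401459) (nat_lit 13) (.e (nat_lit 483363) (nat_lit 18) (.e (nat_lit 57656) (nat_lit 152) .nil))))))) (.g (nat_lit 1) (.e (nat_lit 35178) (nat_lit 0) .nil) .nil))))))) 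
(.nd (nat_lit 6) (.nd (nat_lit 7) (.nd (nat_lit 8) (.nd (nat_lit 9) 
(.lf (nat_lit 453673) (.g (nat_lit 3463) (.e (nat_lit 2630) (nat_lit 164) (.e (nat_lit 172063) (nat_lit 2) (.e (nat_lit 196666) (nat_lit 13) (.e (nat_lit 65617) (nat_lit 10) (.e (nat_lit 344130) (nat_lit 26) (.e (nat_lit 557090) (nat_lit 12) (.e (nat_lit 163844) (nat_lit 0) (.e (nat_lit 6255) (nat_lit 337) .nil)))))))) (.g (nat_lit 1) (.e (nat_lit 30586) (nat_lit 0) .nil) .nil))) 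
(.lf (nat_lit 454185) (.g (nat_lit 404) (.e (nat_lit 2638) (nat_lit 165) (.e (nat_lit 180278) (nat_lit 32) (.e (nat_lit 1658) (nat_lit 115) .nil))) (.g (nat_lit 0) (.e (nat_lit 33932) (nat_lit 0) .nil) .nil)))) (.nd (nat_lit 9) 
(.lf (nat_lit 453929) (.g (nat_lit 2356) (.e (nat_lit 2630) (nat_lit 164) (.e (nat_lit 172118) (nat_lit 12) (.e (nat_lit 475211) (nat_lit 41) (.e (nat_lit 712750) (nat_lit 29) (.e (nat_lit 442430) (nat_lit 24) (.e (nat_lit 229666) (nat_lit 240) .nil)))))) (.g (nat_lit 1) (.e (nat_lit 32223) (nat_lit 0) .nil) .nil))) 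
(.lf (nat_lit 454441) (.g (nat_lit 2582) (.e (nat_lit 2640) (nat_lit 165) (.e (nat_lit 180278) (nat_lit 32) (.e (nat_lit 1661) (nat_lit 115) (.e (nat_lit 393284) (nat_lit 24) (.e (nat_lit 434209) (nat_lit 18) (.e (nat_lit 5548) (nat_lit 306) .nil)))))) (.g (nat_lit 1) (.e (nat_lit 34614) (nat_lit 0) .nil) .nil))))) (.nd (nat_lit 8) (.nd (nat_lit 9) 
(.lf (nat_lit 453801) (.g (nat_lit 2808) (.e (nat_lit 2630) (nat_lit 164) (.e (nat_lit 172066) (nat_lit 3) (.e (nat_lit 204869) (nat_lit 29) (.e (nat_lit 360475) (nat_lit 8) (.e (nat_lit 557089) (nat_lit 12) .nil))))) (.g (nat_lit 0) (.e (nat_lit 30782) (nat_lit 0) .nil) .nil))) 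
(.lf (nat_lit 454313) (.g (nat_lit 2638) (.e (nat_lit 2639) (nat_lit 165) (.e (nat_lit 180278) (nat_lit 32) (.e (nat_lit 1660) (nat_lit 115) (.e (nat_lit 393283) (nat_lit 24) (.e (nat_lit 434209) (nat_lit 18) (.e (nat_lit 5546) (nat_lit 306) .nil)))))) (.g (nat_lit 1) (.e (nat_lit 34220) (nat_lit 0) .nil) .nil)))) (.nd (nat_lit 9) 
(.lf (nat_lit 454057) (.g (nat_lit 2464) (.e (nat_lit 7936) (nat_lit 164) (.e (nat_lit 172120) (nat_lit 12) (.e (nat_lit 475211) (nat_lit 41) (.e (nat_lit 712755) (nat_lit 30) (.e (nat_lit 450562) (nat_lit 0) .nil))))) (.g (nat_lit 0) (.e (nat_lit 33128) (nat_lit 0) .nil) .nil))) 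
(.lf (nat_lit 454569) (.g (nat_lit 4112) (.e (nat_lit 2643) (nat_lit 165) (.e (nat_lit 180243) (nat_lit 5) (.e (nat_lit 532550) (nat_lit 12) (.e (nat_lit 360474) (nat_lit 8) (.e (nat_lit 557093) (nat_lit 12) (.e (nat_lit 163849) (nat_lit 0) (.e (nat_lit 6252) (nat_lit 337) .nil))))))) (.g (nat_lit 1) (.e (nat_lit 35061) (nat_lit 0) .nil) .nil)))))) 
(.nd (nat_lit 7) (.nd (nat_lit 8) (.nd (nat_lit 9) 
(.lf (nat_lit 453737) (.g (nat_lit 3231) (.e (nat_lit 2630) (nat_lit 164) (.e (nat_lit 172064) (nat_lit 2) (.e (nat_lit 196666) (nat_lit 13) (.e (nat_lit 65617) (nat_lit 10) (.e (nat_lit 344133) (nat_lit 26) (.e (nat_lit 557091) (nat_lit 12) (.e (nat_lit 163841) (nat_lit 0) (.e (nat_lit 6252) (nat_lit 337) .nil)))))))) (.g (nat_lit 1) (.e (nat_lit 30665) (nat_lit 0) .nil) .nil))) 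
(.lf (nat_lit 454249) (.g (nat_lit 3067) (.e (nat_lit 2639) (nat_lit 165) (.e (nat_lit 180277) (nat_lit 32) (.e (nat_lit 1427) (nat_lit 108) (.e (nat_lit 336430) (nat_lit 29) (.e (nat_lit 442421) (nat_lit 21) (.e (nat_lit 164346) (nat_lit 240) .nil)))))) (.g (nat_lit 1) (.e (nat_lit 34114) (nat_lit 0) .nil) .nil)))) (.nd (nat_lit 9) 
(.lf (nat_lit 453993) (.g (nat_lit 2324) (.e (nat_lit 2630) (nat_lit 164) (.e (nat_lit 172124) (nat_lit 14) (.e (nat_lit 491550) (nat_lit 9) (.e (nat_lit 336430) (nat_lit 29) (.e (nat_lit 442430) (nat_lit 24) (.e (nat_lit 229664) (nat_lit 240) .nil)))))) (.g (nat_lit 1) (.e (nat_lit 32562) (nat_lit 0) .nil) .nil))) 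
(.lf (nat_lit 454505) (.g (nat_lit 1636) (.e (nat_lit 2641) (nat_lit 165) (.e (nat_lit 180277) (nat_lit 32) (.e (nat_lit 1428) (nat_lit 108) (.e (nat_lit 336430) (nat_lit 29) (.e (nat_lit 442428) (nat_lit 24) .nil))))) (.g (nat_lit 0) (.e (nat_lit 34794) (nat_lit 0) .nil) .nil))))) (.nd (nat_lit 8) (.nd (nat_lit 9) 
(.lf (nat_lit 453865) (.g (nat_lit 3920) (.e (nat_lit 2630) (nat_lit 164) (.e (nat_lit 172067) (nat_lit 3) (.e (nat_lit 204869) (nat_lit 29) (.e (nat_lit 360474) (nat_lit 8) (.e (nat_lit 557094) (nat_lit 12) (.e (nat_lit 163847) (nat_lit 0) (.e (nat_lit 6254) (nat_lit 337) .nil))))))) (.g (nat_lit 1) (.e (nat_lit 30909) (nat_lit 0) .nil) .nil))) 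
(.lf (nat_lit 454377) (.g (nat_lit 2064) (.e (nat_lit 2640) (nat_lit 165) (.e (nat_lit 180277) (nat_lit 32) (.e (nat_lit 1661) (nat_lit 115) (.e (nat_lit 393271) (nat_lit 23) (.e (nat_lit 426112) (nat_lit 1) (.e (nat_lit 164348) (nat_lit 240) .nil)))))) (.g (nat_lit 1) (.e (nat_lit 34536) (nat_lit 0) .nil) .nil)))) (.nd (nat_lit 9) 
(.lf (nat_lit 454121) (.g (nat_lit 2917) (.e (nat_lit 2638) (nat_lit 165) (.e (nat_lit 180277) (nat_lit 32) (.e (nat_lit 1428) (nat_lit 108) (.e (nat_lit 336430) (nat_lit 29) (.e (nat_lit 442419) (nat_lit 21) (.e (nat_lit 164346) (nat_lit 240) .nil)))))) (.g (nat_lit 1) (.e (nat_lit 33820) (nat_lit 0) .nil) .nil))) 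
(.lf (nat_lit 454633) (.g (nat_lit 1844) (.e (nat_lit 2645) (nat_lit 166) (.e (nat_lit 188420) (nat_lit 0) (.e (nat_lit 2175) (nat_lit 143) (.e (nat_lit 712755) (nat_lit 30) (.e (nat_lit 450563) (nat_lit 0) (.e (nat_lit 7936) (nat_lit 306) .nil)))))) (.g (nat_lit 1) (.e (nat_lit 35607) (nat_lit 0) .nil) .nil)))))))) 
(.nd (nat_lit 5) (.nd (nat_lit 6) (.nd (nat_lit 7) (.nd (nat_lit 8) (.nd (nat_lit 9) 
(.lf (nat_lit 453657) (.g (nat_lit 2981) (.e (nat_lit 2630) (nat_lit 164) (.e (nat_lit 172062) (nat_lit 2) (.e (nat_lit 196666) (nat_lit 13) (.e (nat_lit 65617) (nat_lit 10) (.e (nat_lit 344132) (nat_lit 26) (.e (nat_lit 557093) (nat_lit 12) (.e (nat_lit 163848) (nat_lit 0) (.e (nat_lit 6255) (nat_lit 337) .nil)))))))) (.g (nat_lit 1) (.e (nat_lit 30570) (nat_lit 0) .nil) .nil))) 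
(.lf (nat_lit 454169) (.g (nat_lit 1335) (.e (nat_lit 2638) (nat_lit 165) (.e (nat_lit 180278) (nat_lit 32) (.e (nat_lit 1426) (nat_lit 108) (.e (nat_lit 336432) (nat_lit 30) (.e (nat_lit 458496) (nat_lit 0) (.e (nat_lit 5543) (nat_lit 306) .nil)))))) (.g (nat_lit 1) (.e (nat_lit 33903) (nat_lit 0) .nil) .nil)))) (.nd (nat_lit 9) 
(.lf (nat_lit 453913) (.g (nat_lit 2052) (.e (nat_lit 2630) (nat_lit 164) (.e (nat_lit 172113) (nat_lit 10) (.e (nat_lit 434272) (nat_lit 38) (.e (nat_lit 655380) (nat_lit 6) (.e (nat_lit 188453) (nat_lit 24) (.e (nat_lit 229664) (nat_lit 240) .nil)))))) (.g (nat_lit 1) (.e (nat_lit 32126) (nat_lit 0) .nil) .nil))) 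
(.lf (nat_lit 454425) (.g (nat_lit 1382) (.e (nat_lit 2640) (nat_lit 165) (.e (nat_lit 180278) (nat_lit 32) (.e (nat_lit 1660) (nat_lit 115) (.e (nat_lit 393281) (nat_lit 23) (.e (nat_lit 426098) (nat_lit 1) (.e (nat_lit 164347) (nat_lit 240) .nil)))))) (.g (nat_lit 1) (.e (nat_lit 34594) (nat_lit 0) .nil) .nil))))) (.nd (nat_lit 8) (.nd (nat_lit 9) 
(.lf (nat_lit 453785) (.g (nat_lit 4416) (.e (nat_lit 2630) (nat_lit 164) (.e (nat_lit 172065) (nat_lit 3) (.e (nat_lit 204869) (nat_lit 29) (.e (nat_lit 360475) (nat_lit 8) (.e (nat_lit 557091) (nat_lit 12) (.e (nat_lit 163843) (nat_lit 0) (.e (nat_lit 6252) (nat_lit 337) .nil))))))) (.g (nat_lit 1) (.e (nat_lit 30766) (nat_lit 0) .nil) .nil))) 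
(.lf (nat_lit 454297) (.g (nat_lit 1232) (.e (nat_lit 2639) (nat_lit 165) (.e (nat_lit 180278) (nat_lit 32) (.e (nat_lit 1659) (nat_lit 115) (.e (nat_lit 393281) (nat_lit 23) .nil)))) (.g (nat_lit 0) (.e (nat_lit 34202) (nat_lit 0) .nil) .nil)))) (.nd (nat_lit 9) 
(.lf (nat_lit 454041) (.g (nat_lit 2313) (.e (nat_lit 2632) (nat_lit 164) (.e (nat_lit 172064) (nat_lit 2) (.e (nat_lit 196666) (nat_lit 13) (.e (nat_lit 65617) (nat_lit 10) (.e (nat_lit 344133) (nat_lit 26) .nil))))) (.g (nat_lit 0) (.e (nat_lit 32985) (nat_lit 0) .nil) .nil))) 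
(.lf (nat_lit 454553) (.g (nat_lit 2230) (.e (nat_lit 2643) (nat_lit 165) (.e (nat_lit 180243) (nat_lit 5) (.e (nat_lit 532549) (nat_lit 12) (.e (nat_lit 360474) (nat_lit 8) (.e (nat_lit 557093) (nat_lit 12) (.e (nat_lit 163849) (nat_lit 0) (.e (nat_lit 6254) (nat_lit 337) .nil))))))) (.g (nat_lit 1) (.e (nat_lit 35040) (nat_lit 0) .nil) .nil)))))) 
(.nd (nat_lit 7) (.nd (nat_lit 8) (.nd (nat_lit 9) 
(.lf (nat_lit 453721) (.g (nat_lit 3704) (.e (nat_lit 2630) (nat_lit 164) (.e (nat_lit 172064) (nat_lit 2) (.e (nat_lit 196666) (nat_lit 13) (.e (nat_lit 65617) (nat_lit 10) (.e (nat_lit 344132) (nat_lit 26) (.e (nat_lit 557093) (nat_lit 12) (.e (nat_lit 163849) (nat_lit 0) (.e (nat_lit 6252) (nat_lit 337) .nil)))))))) (.g (nat_lit 1) (.e (nat_lit 30649) (nat_lit 0) .nil) .nil))) 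
(.lf (nat_lit 454233) (.g (nat_lit 357) (.e (nat_lit 2639) (nat_lit 165) (.e (nat_lit 180277) (nat_lit 32) (.e (nat_lit 1252) (nat_lit 92) .nil))) (.g (nat_lit 0) (.e (nat_lit 34094) (nat_lit 0) .nil) .nil)))) (.nd (nat_lit 9) 
(.lf (nat_lit 453977) (.g (nat_lit 2761) (.e (nat_lit 2630) (nat_lit 164) (.e (nat_lit 172124) (nat_lit 14) (.e (nat_lit 491549) (nat_lit 9) (.e (nat_lit 336430) (nat_lit 29) (.e (nat_lit 442428) (nat_lit 24) (.e (nat_lit 229665) (nat_lit 240) .nil)))))) (.g (nat_lit 1) (.e (nat_lit 32544) (nat_lit 0) .nil) .nil))) 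
(.lf (nat_lit 454489) (.g (nat_lit 3503) (.e (nat_lit 2641) (nat_lit 165) (.e (nat_lit 180250) (nat_lit 10) (.e (nat_lit 573456) (nat_lit 9) (.e (nat_lit 1669) (nat_lit 116) (.e (nat_lit 401459) (nat_lit 13) (.e (nat_lit 483363) (nat_lit 18) (.e (nat_lit 57652) (nat_lit 152) .nil))))))) (.g (nat_lit 1) (.e (nat_lit 34706) (nat_lit 0) .nil) .nil))))) (.nd (nat_lit 8) (.nd (nat_lit 9) 
(.lf (nat_lit 453849) (.g (nat_lit 5172) (.e (nat_lit 2630) (nat_lit 164) (.e (nat_lit 172067) (nat_lit 3) (.e (nat_lit 204868) (nat_lit 29) (.e (nat_lit 360475) (nat_lit 8) (.e (nat_lit 557089) (nat_lit 12) (.e (nat_lit 163844) (nat_lit 0) (.e (nat_lit 6255) (nat_lit 337) .nil))))))) (.g (nat_lit 1) (.e (nat_lit 30889) (nat_lit 0) .nil) .nil))) 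
(.lf (nat_lit 454361) (.g (nat_lit 2105) (.e (nat_lit 2640) (nat_lit 165) (.e (nat_lit 180277) (nat_lit 32) (.e (nat_lit 1660) (nat_lit 115) (.e (nat_lit 393266) (nat_lit 23) (.e (nat_lit 426109) (nat_lit 1) (.e (nat_lit 164345) (nat_lit 240) .nil)))))) (.g (nat_lit 1) (.e (nat_lit 34513) (nat_lit 0) .nil) .nil)))) (.nd (nat_lit 9) 
(.lf (nat_lit 454105) (.g (nat_lit 2274) (.e (nat_lit 2638) (nat_lit 165) (.e (nat_lit 180277) (nat_lit 32) (.e (nat_lit 1425) (nat_lit 108) (.e (nat_lit 336443) (nat_lit 32) (.e (nat_lit 466971) (nat_lit 21) (.e (nat_lit 164345) (nat_lit 240) .nil)))))) (.g (nat_lit 1) (.e (nat_lit 33799) (nat_lit 0) .nil) .nil))) 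
(.lf (nat_lit 454617) (.g (nat_lit 2310) (.e (nat_lit 2643) (nat_lit 165) (.e (nat_lit 180277) (nat_lit 32) (.e (nat_lit 1426) (nat_lit 108) (.e (nat_lit 336430) (nat_lit 29) (.e (nat_lit 442430) (nat_lit 24) (.e (nat_lit 229666) (nat_lit 240) .nil)))))) (.g (nat_lit 1) (.e (nat_lit 35312) (nat_lit 0) .nil) .nil))))))) (.nd (nat_lit 6) (.nd (nat_lit 7) (.nd (nat_lit 8) (.nd (nat_lit 9) 
(.lf (nat_lit 453689) (.g (nat_lit 4667) (.e (nat_lit 2630) (nat_lit 164) (.e (nat_lit 172064) (nat_lit 2) (.e (nat_lit 196666) (nat_lit 13) (.e (nat_lit 65610) (nat_lit 10) (.e (nat_lit 344129) (nat_lit 26) (.e (nat_lit 557089) (nat_lit 12) (.e (nat_lit 163844) (nat_lit 0) (.e (nat_lit 6252) (nat_lit 337) .nil)))))))) (.g (nat_lit 1) (.e (nat_lit 30617) (nat_lit 0) .nil) .nil))) 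
(.lf (nat_lit 454201) (.g (nat_lit 2740) (.e (nat_lit 2638) (nat_lit 165) (.e (nat_lit 180278) (nat_lit 32) (.e (nat_lit 1660) (nat_lit 115) (.e (nat_lit 393271) (nat_lit 23) (.e (nat_lit 426112) (nat_lit 1) (.e (nat_lit 164346) (nat_lit 240) .nil)))))) (.g (nat_lit 1) (.e (nat_lit 33953) (nat_lit 0) .nil) .nil)))) (.nd (nat_lit 9) 
(.lf (nat_lit 453945) (.g (nat_lit 2107) (.e (nat_lit 2630) (nat_lit 164) (.e (nat_lit 172120) (nat_lit 12) (.e (nat_lit 475198) (nat_lit 40) (.e (nat_lit 704599) (nat_lit 6) (.e (nat_lit 188454) (nat_lit 24) (.e (nat_lit 229664) (nat_lit 240) .nil)))))) (.g (nat_lit 1) (.e (nat_lit 32243) (nat_lit 0) .nil) .nil))) 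
(.lf (nat_lit 454457) (.g (nat_lit 3403) (.e (nat_lit 2641) (nat_lit 165) (.e (nat_lit 180244) (nat_lit 5) (.e (nat_lit 532550) (nat_lit 12) (.e (nat_lit 360474) (nat_lit 8) (.e (nat_lit 557093) (nat_lit 12) (.e (nat_lit 163847) (nat_lit 0) (.e (nat_lit 6254) (nat_lit 337) .nil))))))) (.g (nat_lit 1) (.e (nat_lit 34671) (nat_lit 0) .nil) .nil))))) (.nd (nat_lit 8) (.nd (nat_lit 9) 
(.lf (nat_lit 453817) (.g (nat_lit 3403) (.e (nat_lit 2630) (nat_lit 164) (.e (nat_lit 172066) (nat_lit 3) (.e (nat_lit 204869) (nat_lit 29) (.e (nat_lit 360475) (nat_lit 8) (.e (nat_lit 557091) (nat_lit 12) (.e (nat_lit 163849) (nat_lit 0) (.e (nat_lit 6252) (nat_lit 337) .nil))))))) (.g (nat_lit 1) (.e (nat_lit 30798) (nat_lit 0) .nil) .nil))) 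
(.lf (nat_lit 454329) (.g (nat_lit 1786) (.e (nat_lit 2640) (nat_lit 165) (.e (nat_lit 180277) (nat_lit 32) (.e (nat_lit 1427) (nat_lit 108) (.e (nat_lit 336421) (nat_lit 28) (.e (nat_lit 442112) (nat_lit 11) .nil))))) (.g (nat_lit 0) (.e (nat_lit 34480) (nat_lit 0) .nil) .nil)))) (.nd (nat_lit 9) 
(.lf (nat_lit 454073) (.g (nat_lit 4942) (.e (nat_lit 2636) (nat_lit 165) (.e (nat_lit 180243) (nat_lit 5) (.e (nat_lit 532550) (nat_lit 12) (.e (nat_lit 360474) (nat_lit 8) (.e (nat_lit 557089) (nat_lit 12) .nil))))) (.g (nat_lit 0) (.e (nat_lit 33254) (nat_lit 0) .nil) .nil))) 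
(.lf (nat_lit 454585) (.g (nat_lit 4403) (.e (nat_lit 2643) (nat_lit 165) (.e (nat_lit 180243) (nat_lit 5) (.e (nat_lit 532550) (nat_lit 12) (.e (nat_lit 360475) (nat_lit 8) (.e (nat_lit 557091) (nat_lit 12) (.e (nat_lit 163843) (nat_lit 0) (.e (nat_lit 6254) (nat_lit 337) .nil))))))) (.g (nat_lit 1) (.e (nat_lit 35077) (nat_lit 0) .nil) .nil)))))) 
(.nd (nat_lit 7) (.nd (nat_lit 8) (.nd (nat_lit 9) 
(.lf (nat_lit 453753) (.g (nat_lit 4459) (.e (nat_lit 2630) (nat_lit 164) (.e (nat_lit 172065) (nat_lit 3) (.e (nat_lit 204868) (nat_lit 29) (.e (nat_lit 360473) (nat_lit 8) (.e (nat_lit 557091) (nat_lit 12) (.e (nat_lit 163843) (nat_lit 0) (.e (nat_lit 6255) (nat_lit 337) .nil))))))) (.g (nat_lit 1) (.e (nat_lit 30729) (nat_lit 0) .nil) .nil))) 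
(.lf (nat_lit 454265) (.g (nat_lit 2880) (.e (nat_lit 2639) (nat_lit 165) (.e (nat_lit 180277) (nat_lit 32) (.e (nat_lit 1659) (nat_lit 115) (.e (nat_lit 393281) (nat_lit 23) (.e (nat_lit 426108) (nat_lit 1) (.e (nat_lit 164345) (nat_lit 240) .nil)))))) (.g (nat_lit 1) (.e (nat_lit 34134) (nat_lit 0) .nil) .nil)))) (.nd (nat_lit 9) 
(.lf (nat_lit 454009) (.g (nat_lit 3547) (.e (nat_lit 2630) (nat_lit 164) (.e (nat_lit 172126) (nat_lit 14) (.e (nat_lit 491549) (nat_lit 9) (.e (nat_lit 336430) (nat_lit 29) (.e (nat_lit 442428) (nat_lit 24) (.e (nat_lit 229664) (nat_lit 240) .nil)))))) (.g (nat_lit 1) (.e (nat_lit 32724) (nat_lit 0) .nil) .nil))) 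
(.lf (nat_lit 454521) (.g (nat_lit 2224) (.e (nat_lit 2641) (nat_lit 165) (.e (nat_lit 180278) (nat_lit 32) (.e (nat_lit 1426) (nat_lit 108) (.e (nat_lit 336430) (nat_lit 29) (.e (nat_lit 442428) (nat_lit 24) (.e (nat_lit 229666) (nat_lit 240) .nil)))))) (.g (nat_lit 1) (.e (nat_lit 34816) (nat_lit 0) .nil) .nil))))) (.nd (nat_lit 8) (.nd (nat_lit 9) 
(.lf (nat_lit 453881) (.g (nat_lit 3132) (.e (nat_lit 2630) (nat_lit 164) (.e (nat_lit 172067) (nat_lit 3) (.e (nat_lit 204869) (nat_lit 29) (.e (nat_lit 360475) (nat_lit 8) (.e (nat_lit 557091) (nat_lit 12) (.e (nat_lit 163841) (nat_lit 0) (.e (nat_lit 6252) (nat_lit 337) .nil))))))) (.g (nat_lit 1) (.e (nat_lit 30925) (nat_lit 0) .nil) .nil))) 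
(.lf (nat_lit 454393) (.g (nat_lit 2486) (.e (nat_lit 2640) (nat_lit 165) (.e (nat_lit 180278) (nat_lit 32) (.e (nat_lit 1427) (nat_lit 108) (.e (nat_lit 336443) (nat_lit 32) (.e (nat_lit 466971) (nat_lit 21) (.e (nat_lit 164345) (nat_lit 240) .nil)))))) (.g (nat_lit 1) (.e (nat_lit 34560) (nat_lit 0) .nil) .nil)))) (.nd (nat_lit 9) 
(.lf (nat_lit 454137) (.g (nat_lit 2538) (.e (nat_lit 2638) (nat_lit 165) (.e (nat_lit 180277) (nat_lit 32) (.e (nat_lit 1659) (nat_lit 115) (.e (nat_lit 393271) (nat_lit 23) (.e (nat_lit 426112) (nat_lit 1) (.e (nat_lit 164348) (nat_lit 240) .nil)))))) (.g (nat_lit 1) (.e (nat_lit 33836) (nat_lit 0) .nil) .nil))) 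
(.lf (nat_lit 454649) (.g (nat_lit 3342) (.e (nat_lit 2646) (nat_lit 166) (.e (nat_lit 188440) (nat_lit 20) (.e (nat_lit 3468) (nat_lit 217) (.e (nat_lit 696343) (nat_lit 8) (.e (nat_lit 172106) (nat_lit 10) (.e (nat_lit 434209) (nat_lit 18) (.e (nat_lit 6273) (nat_lit 337) .nil))))))) (.g (nat_lit 1) (.e (nat_lit 35913) (nat_lit 0) .nil) .nil)))))))))) 
(.nd (nat_lit 3) (.nd (nat_lit 4) (.nd (nat_lit 5) (.nd (nat_lit 6) (.nd (nat_lit 7) 
(.nd (nat_lit 8) (.nd (nat_lit 9) 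
(.lf (nat_lit 453637) (.g (nat_lit 4019) (.e (nat_lit 2630) (nat_lit 164) (.e (nat_lit 172062) (nat_lit 2) (.e (nat_lit 196666) (nat_lit 13) (.e (nat_lit 65610) (nat_lit 10) (.e (nat_lit 344129) (nat_lit 26) (.e (nat_lit 557090) (nat_lit 12) (.e (nat_lit 163849) (nat_lit 0) (.e (nat_lit 6254) (nat_lit 337) .nil)))))))) (.g (nat_lit 1) (.e (nat_lit 30550) (nat_lit 0) .nil) .nil))) 
(.lf (nat_lit 454149) (.g (nat_lit 2846) (.e (nat_lit 2638) (nat_lit 165) (.e (nat_lit 180277) (nat_lit 32) (.e (nat_lit 1660) (nat_lit 115) (.e (nat_lit 393281) (nat_lit 23) (.e (nat_lit 426100) (nat_lit 1) (.e (nat_lit 164345) (nat_lit 240) .nil)))))) (.g (nat_lit 1) (.e (nat_lit 33852) (nat_lit 0) .nil) .nil)))) (.nd (nat_lit 9) 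
(.lf (nat_lit 453893) (.g (nat_lit 3286) (.e (nat_lit 2630) (nat_lit 164) (.e (nat_lit 172106) (nat_lit 10) (.e (nat_lit 434209) (nat_lit 18) (.e (nat_lit 5190) (nat_lit 294) (.e (nat_lit 57424) (nat_lit 14) (.e (nat_lit 352318) (nat_lit 24) (.e (nat_lit 123147) (nat_lit 250) .nil))))))) (.g (nat_lit 1) (.e (nat_lit 31568) (nat_lit 0) .nil) .nil))) 
(.lf (nat_lit 454405) (.g (nat_lit 436) (.e (nat_lit 2640) (nat_lit 165) (.e (nat_lit 180278) (nat_lit 32) (.e (nat_lit 1658) (nat_lit 115) .nil))) (.g (nat_lit 0) (.e (nat_lit 34573) (nat_lit 0) .nil) .nil))))) (.nd (nat_lit 8) (.nd (nat_lit 9) 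
(.lf (nat_lit 453765) (.g (nat_lit 1271) (.e (nat_lit 2630) (nat_lit 164) (.e (nat_lit 172065) (nat_lit 3) (.e (nat_lit 204869) (nat_lit 29) (.e (nat_lit 360473) (nat_lit 8) .nil)))) (.g (nat_lit 0) (.e (nat_lit 30746) (nat_lit 0) .nil) .nil))) 
(.lf (nat_lit 454277) (.g (nat_lit 2264) (.e (nat_lit 2639) (nat_lit 165) (.e (nat_lit 180278) (nat_lit 32) (.e (nat_lit 1426) (nat_lit 108) (.e (nat_lit 336430) (nat_lit 29) (.e (nat_lit 442421) (nat_lit 21) (.e (nat_lit 164346) (nat_lit 240) .nil)))))) (.g (nat_lit 1) (.e (nat_lit 34177) (nat_lit 0) .nil) .nil)))) (.nd (nat_lit 9) 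
(.lf (nat_lit 454021) (.g (nat_lit 2543) (.e (nat_lit 2630) (nat_lit 164) (.e (nat_lit 172126) (nat_lit 14) (.e (nat_lit 491549) (nat_lit 9) (.e (nat_lit 336434) (nat_lit 30) (.e (nat_lit 450568) (nat_lit 0) (.e (nat_lit 5447) (nat_lit 306) .nil)))))) (.g (nat_lit 1) (.e (nat_lit 32736) (nat_lit 0) .nil) .nil))) 
(.lf (nat_lit 454533) (.g (nat_lit 3715) (.e (nat_lit 2643) (nat_lit 165) (.e (nat_lit 180242) (nat_lit 5) (.e (nat_lit 532550) (nat_lit 12) (.e (nat_lit 360475) (nat_lit 8) (.e (nat_lit 557089) (nat_lit 12) .nil))))) (.g (nat_lit 0) (.e (nat_lit 34976) (nat_lit 0) .nil) .nil)))))) (.nd (nat_lit 7) (.nd (nat_lit 8) (.nd (nat_lit 9) 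
(.lf (nat_lit 453701) (.g (nat_lit 2178) (.e (nat_lit 2630) (nat_lit 164) (.e (nat_lit 172064) (nat_lit 2) (.e (nat_lit 196666) (nat_lit 13) (.e (nat_lit 65617) (nat_lit 10) (.e (nat_lit 344127) (nat_lit 26) (.e (nat_lit 557089) (nat_lit 12) (.e (nat_lit 163849) (nat_lit 0) (.e (nat_lit 6255) (nat_lit 337) .nil)))))))) (.g (nat_lit 1) (.e (nat_lit 30629) (nat_lit 0) .nil) .nil))) 
(.lf (nat_lit 454213) (.g (nat_lit 2199) (.e (nat_lit 2638) (nat_lit 165) (.e (nat_lit 180278) (nat_lit 32) (.e (nat_lit 1661) (nat_lit 115) (.e (nat_lit 393268) (nat_lit 23) (.e (nat_lit 426112) (nat_lit 1) .nil))))) (.g (nat_lit 0) (.e (nat_lit 33981) (nat_lit 0) .nil) .nil)))) (.nd (nat_lit 9) 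
(.lf (nat_lit 453957) (.g (nat_lit 3804) (.e (nat_lit 2630) (nat_lit 164) (.e (nat_lit 172120) (nat_lit 12) (.e (nat_lit 475210) (nat_lit 41) (.e (nat_lit 712752) (nat_lit 29) (.e (nat_lit 442430) (nat_lit 24) (.e (nat_lit 229665) (nat_lit 240) .nil)))))) (.g (nat_lit 1) (.e (nat_lit 32266) (nat_lit 0) .nil) .nil))) 
(.lf (nat_lit 454469) (.g (nat_lit 3288) (.e (nat_lit 2641) (nat_lit 165) (.e (nat_lit 180244) (nat_lit 5) (.e (nat_lit 532550) (nat_lit 12) (.e (nat_lit 360475) (nat_lit 8) (.e (nat_lit 557089) (nat_lit 12) .nil))))) (.g (nat_lit 0) (.e (nat_lit 34683) (nat_lit 0) .nil) .nil))))) (.nd (nat_lit 8) (.nd (nat_lit 9) 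
(.lf (nat_lit 453829) (.g (nat_lit 2848) (.e (nat_lit 2630) (nat_lit 164) (.e (nat_lit 172067) (nat_lit 3) (.e (nat_lit 204868) (nat_lit 29) (.e (nat_lit 360473) (nat_lit 8) (.e (nat_lit 557089) (nat_lit 12) (.e (nat_lit 163848) (nat_lit 0) (.e (nat_lit 6255) (nat_lit 337) .nil))))))) (.g (nat_lit 1) (.e (nat_lit 30859) (nat_lit 0) .nil) .nil))) 
(.lf (nat_lit 454341) (.g (nat_lit 2771) (.e (nat_lit 2640) (nat_lit 165) (.e (nat_lit 180277) (nat_lit 32) (.e (nat_lit 1428) (nat_lit 108) (.e (nat_lit 336430) (nat_lit 29) (.e (nat_lit 442421) (nat_lit 21) (.e (nat_lit 164347) (nat_lit 240) .nil)))))) (.g (nat_lit 1) (.e (nat_lit 34492) (nat_lit 0) .nil) .nil)))) (.nd (nat_lit 9) 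
(.lf (nat_lit 454085) (.g (nat_lit 1931) (.e (nat_lit 2636) (nat_lit 165) (.e (nat_lit 180277) (nat_lit 32) (.e (nat_lit 1235) (nat_lit 91) (.e (nat_lit 90170) (nat_lit 13) (.e (nat_lit 172113) (nat_lit 10) (.e (nat_lit 434208) (nat_lit 18) (.e (nat_lit 3919) (nat_lit 239) .nil))))))) (.g (nat_lit 1) (.e (nat_lit 33489) (nat_lit 0) .nil) .nil))) 
(.lf (nat_lit 454597) (.g (nat_lit 3825) (.e (nat_lit 2643) (nat_lit 165) (.e (nat_lit 180246) (nat_lit 6) (.e (nat_lit 540706) (nat_lit 12) (.e (nat_lit 360475) (nat_lit 8) (.e (nat_lit 557091) (nat_lit 12) (.e (nat_lit 163847) (nat_lit 0) (.e (nat_lit 6255) (nat_lit 337) .nil))))))) (.g (nat_lit 1) (.e (nat_lit 35109) (nat_lit 0) .nil) .nil))))))) 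
(.nd (nat_lit 6) (.nd (nat_lit 7) (.nd (nat_lit 8) (.nd (nat_lit 9) 
(.lf (nat_lit 453669) (.g (nat_lit 2698) (.e (nat_lit 2630) (nat_lit 164) (.e (nat_lit 172063) (nat_lit 2) (.e (nat_lit 196666) (nat_lit 13) (.e (nat_lit 65617) (nat_lit 10) (.e (nat_lit 344130) (nat_lit 26) (.e (nat_lit 557089) (nat_lit 12) (.e (nat_lit 163844) (nat_lit 0) (.e (nat_lit 6255) (nat_lit 337) .nil)))))))) (.g (nat_lit 1) (.e (nat_lit 30582) (nat_lit 0) .nil) .nil))) 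
(.lf (nat_lit 454181) (.g (nat_lit 3315) (.e (nat_lit 2638) (nat_lit 165) (.e (nat_lit 180278) (nat_lit 32) (.e (nat_lit 1428) (nat_lit 108) (.e (nat_lit 336443) (nat_lit 32) (.e (nat_lit 466971) (nat_lit 21) (.e (nat_lit 164347) (nat_lit 240) .nil)))))) (.g (nat_lit 1) (.e (nat_lit 33928) (nat_lit 0) .nil) .nil)))) (.nd (nat_lit 9) 
(.lf (nat_lit 453925) (.g (nat_lit 2912) (.e (nat_lit 2630) (nat_lit 164) (.e (nat_lit 172118) (nat_lit 12) (.e (nat_lit 475210) (nat_lit 41) (.e (nat_lit 712752) (nat_lit 29) (.e (nat_lit 442430) (nat_lit 24) (.e (nat_lit 229666) (nat_lit 240) .nil)))))) (.g (nat_lit 1) (.e (nat_lit 32217) (nat_lit 0) .nil) .nil))) 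
(.lf (nat_lit 454437) (.g (nat_lit 2932) (.e (nat_lit 2640) (nat_lit 165) (.e (nat_lit 180278) (nat_lit 32) (.e (nat_lit 1661) (nat_lit 115) (.e (nat_lit 393281) (nat_lit 23) (.e (nat_lit 426098) (nat_lit 1) (.e (nat_lit 164348) (nat_lit 240) .nil)))))) (.g (nat_lit 1) (.e (nat_lit 34609) (nat_lit 0) .nil) .nil))))) (.nd (nat_lit 8) (.nd (nat_lit 9) 
(.lf (nat_lit 453797) (.g (nat_lit 2546) (.e (nat_lit 2630) (nat_lit 164) (.e (nat_lit 172066) (nat_lit 3) (.e (nat_lit 204869) (nat_lit 29) (.e (nat_lit 360474) (nat_lit 8) (.e (nat_lit 557093) (nat_lit 12) (.e (nat_lit 163847) (nat_lit 0) (.e (nat_lit 6255) (nat_lit 337) .nil))))))) (.g (nat_lit 1) (.e (nat_lit 30778) (nat_lit 0) .nil) .nil))) 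
(.lf (nat_lit 454309) (.g (nat_lit 2552) (.e (nat_lit 2639) (nat_lit 165) (.e (nat_lit 180278) (nat_lit 32) (.e (nat_lit 1660) (nat_lit 115) (.e (nat_lit 393281) (nat_lit 23) (.e (nat_lit 426100) (nat_lit 1) (.e (nat_lit 164345) (nat_lit 240) .nil)))))) (.g (nat_lit 1) (.e (nat_lit 34216) (nat_lit 0) .nil) .nil)))) (.nd (nat_lit 9) 
(.lf (nat_lit 454053) (.g (nat_lit 4359) (.e (nat_lit 2633) (nat_lit 164) (.e (nat_lit 172066) (nat_lit 3) (.e (nat_lit 204869) (nat_lit 29) (.e (nat_lit 360475) (nat_lit 8) (.e (nat_lit 557089) (nat_lit 12) (.e (nat_lit 163850) (nat_lit 0) (.e (nat_lit 6273) (nat_lit 337) .nil))))))) (.g (nat_lit 1) (.e (nat_lit 33064) (nat_lit 0) .nil) .nil))) 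
(.lf (nat_lit 454565) (.g (nat_lit 5890) (.e (nat_lit 2643) (nat_lit 165) (.e (nat_lit 180243) (nat_lit 5) (.e (nat_lit 532549) (nat_lit 12) (.e (nat_lit 360475) (nat_lit 8) (.e (nat_lit 557091) (nat_lit 12) (.e (nat_lit 163843) (nat_lit 0) (.e (nat_lit 6255) (nat_lit 337) .nil))))))) (.g (nat_lit 1) (.e (nat_lit 35055) (nat_lit 0) .nil) .nil)))))) 
(.nd (nat_lit 7) (.nd (nat_lit 8) (.nd (nat_lit 9) 
(.lf (nat_lit 453733) (.g (nat_lit 3312) (.e (nat_lit 2630) (nat_lit 164) (.e (nat_lit 172064) (nat_lit 2) (.e (nat_lit 196666) (nat_lit 13) (.e (nat_lit 65617) (nat_lit 10) (.e (nat_lit 344133) (nat_lit 26) (.e (nat_lit 557089) (nat_lit 12) (.e (nat_lit 163848) (nat_lit 0) (.e (nat_lit 6255) (nat_lit 337) .nil)))))))) (.g (nat_lit 1) (.e (nat_lit 30661) (nat_lit 0) .nil) .nil))) 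
(.lf (nat_lit 454245) (.g (nat_lit 2944) (.e (nat_lit 2639) (nat_lit 165) (.e (nat_lit 180277) (nat_lit 32) (.e (nat_lit 1427) (nat_lit 108) (.e (nat_lit 336430) (nat_lit 29) (.e (nat_lit 442419) (nat_lit 21) (.e (nat_lit 164345) (nat_lit 240) .nil)))))) (.g (nat_lit 1) (.e (nat_lit 34110) (nat_lit 0) .nil) .nil)))) (.nd (nat_lit 9) 
(.lf (nat_lit 453989) (.g (nat_lit 2230) (.e (nat_lit 2630) (nat_lit 164) (.e (nat_lit 172124) (nat_lit 14) (.e (nat_lit 491550) (nat_lit 9) (.e (nat_lit 336430) (nat_lit 29) (.e (nat_lit 442428) (nat_lit 24) (.e (nat_lit 229664) (nat_lit 240) .nil)))))) (.g (nat_lit 1) (.e (nat_lit 32558) (nat_lit 0) .nil) .nil))) 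
(.lf (nat_lit 454501) (.g (nat_lit 2855) (.e (nat_lit 2641) (nat_lit 165) (.e (nat_lit 180277) (nat_lit 32) (.e (nat_lit 1427) (nat_lit 108) (.e (nat_lit 336430) (nat_lit 29) (.e (nat_lit 442430) (nat_lit 24) (.e (nat_lit 229663) (nat_lit 240) .nil)))))) (.g (nat_lit 1) (.e (nat_lit 34787) (nat_lit 0) .nil) .nil))))) (.nd (nat_lit 8) (.nd (nat_lit 9) 
(.lf (nat_lit 453861) (.g (nat_lit 2862) (.e (nat_lit 2630) (nat_lit 164) (.e (nat_lit 172067) (nat_lit 3) (.e (nat_lit 204869) (nat_lit 29) (.e (nat_lit 360474) (nat_lit 8) (.e (nat_lit 557093) (nat_lit 12) (.e (nat_lit 163848) (nat_lit 0) (.e (nat_lit 6255) (nat_lit 337) .nil))))))) (.g (nat_lit 1) (.e (nat_lit 30905) (nat_lit 0) .nil) .nil))) 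
(.lf (nat_lit 454373) (.g (nat_lit 313) (.e (nat_lit 2640) (nat_lit 165) (.e (nat_lit 180277) (nat_lit 32) (.e (nat_lit 1661) (nat_lit 115) .nil))) (.g (nat_lit 0) (.e (nat_lit 34525) (nat_lit 0) .nil) .nil)))) (.nd (nat_lit 9) 
(.lf (nat_lit 454117) (.g (nat_lit 3220) (.e (nat_lit 2638) (nat_lit 165) (.e (nat_lit 180277) (nat_lit 32) (.e (nat_lit 1427) (nat_lit 108) (.e (nat_lit 336443) (nat_lit 32) (.e (nat_lit 466971) (nat_lit 21) (.e (nat_lit 164345) (nat_lit 240) .nil)))))) (.g (nat_lit 1) (.e (nat_lit 33815) (nat_lit 0) .nil) .nil))) 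
(.lf (nat_lit 454629) (.g (nat_lit 2995) (.e (nat_lit 2643) (nat_lit 165) (.e (nat_lit 180277) (nat_lit 32) (.e (nat_lit 1428) (nat_lit 108) (.e (nat_lit 336430) (nat_lit 29) (.e (nat_lit 442430) (nat_lit 24) (.e (nat_lit 229665) (nat_lit 240) .nil)))))) (.g (nat_lit 1) (.e (nat_lit 35333) (nat_lit 0) .nil) .nil)))))))) 
(.nd (nat_lit 5) (.nd (nat_lit 6) (.nd (nat_lit 7) (.nd (nat_lit 8) (.nd (nat_lit 9) 
(.lf (nat_lit 453653) (.g (nat_lit 3990) (.e (nat_lit 2630) (nat_lit 164) (.e (nat_lit 172062) (nat_lit 2) (.e (nat_lit 196666) (nat_lit 13) (.e (nat_lit 65617) (nat_lit 10) (.e (nat_lit 344130) (nat_lit 26) (.e (nat_lit 557090) (nat_lit 12) (.e (nat_lit 163849) (nat_lit 0) (.e (nat_lit 6255) (nat_lit 337) .nil)))))))) (.g (nat_lit 1) (.e (nat_lit 30566) (nat_lit 0) .nil) .nil))) 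
(.lf (nat_lit 454165) (.g (nat_lit 717) (.e (nat_lit 2638) (nat_lit 165) (.e (nat_lit 180278) (nat_lit 32) (.e (nat_lit 1413) (nat_lit 108) (.e (nat_lit 336444) (nat_lit 32) .nil)))) (.g (nat_lit 0) (.e (nat_lit 33899) (nat_lit 0) .nil) .nil)))) (.nd (nat_lit 9) 
(.lf (nat_lit 453909) (.g (nat_lit 3457) (.e (nat_lit 2630) (nat_lit 164) (.e (nat_lit 172106) (nat_lit 10) (.e (nat_lit 434272) (nat_lit 38) (.e (nat_lit 655380) (nat_lit 6) (.e (nat_lit 188455) (nat_lit 24) (.e (nat_lit 229665) (nat_lit 240) .nil)))))) (.g (nat_lit 1) (.e (nat_lit 31874) (nat_lit 0) .nil) .nil))) 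
(.lf (nat_lit 454421) (.g (nat_lit 1713) (.e (nat_lit 2640) (nat_lit 165) (.e (nat_lit 180278) (nat_lit 32) (.e (nat_lit 1660) (nat_lit 115) (.e (nat_lit 393266) (nat_lit 23) (.e (nat_lit 426109) (nat_lit 1) (.e (nat_lit 164345) (nat_lit 240) .nil)))))) (.g (nat_lit 1) (.e (nat_lit 34590) (nat_lit 0) .nil) .nil))))) (.nd (nat_lit 8) (.nd (nat_lit 9) 
(.lf (nat_lit 453781) (.g (nat_lit 2998) (.e (nat_lit 2630) (nat_lit 164) (.e (nat_lit 172065) (nat_lit 3) (.e (nat_lit 204869) (nat_lit 29) (.e (nat_lit 360475) (nat_lit 8) (.e (nat_lit 557091) (nat_lit 12) (.e (nat_lit 163840) (nat_lit 0) (.e (nat_lit 6252) (nat_lit 337) .nil))))))) (.g (nat_lit 1) (.e (nat_lit 30762) (nat_lit 0) .nil) .nil))) 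
(.lf (nat_lit 454293) (.g (nat_lit 2132) (.e (nat_lit 2639) (nat_lit 165) (.e (nat_lit 180278) (nat_lit 32) (.e (nat_lit 1659) (nat_lit 115) (.e (nat_lit 393266) (nat_lit 23) (.e (nat_lit 426109) (nat_lit 1) (.e (nat_lit 164346) (nat_lit 240) .nil)))))) (.g (nat_lit 1) (.e (nat_lit 34198) (nat_lit 0) .nil) .nil)))) (.nd (nat_lit 9) 
(.lf (nat_lit 454037) (.g (nat_lit 1947) (.e (nat_lit 2630) (nat_lit 164) (.e (nat_lit 172138) (nat_lit 15) (.e (nat_lit 2059) (nat_lit 142) (.e (nat_lit 704595) (nat_lit 5) (.e (nat_lit 188160) (nat_lit 37) (.e (nat_lit 73730) (nat_lit 0) (.e (nat_lit 6850) (nat_lit 371) .nil))))))) (.g (nat_lit 1) (.e (nat_lit 32931) (nat_lit 0) .nil) .nil))) 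
(.lf (nat_lit 454549) (.g (nat_lit 2996) (.e (nat_lit 2643) (nat_lit 165) (.e (nat_lit 180243) (nat_lit 5) (.e (nat_lit 532549) (nat_lit 12) (.e (nat_lit 360473) (nat_lit 8) (.e (nat_lit 557093) (nat_lit 12) (.e (nat_lit 163849) (nat_lit 0) (.e (nat_lit 6254) (nat_lit 337) .nil))))))) (.g (nat_lit 1) (.e (nat_lit 35033) (nat_lit 0) .nil) .nil)))))) 
(.nd (nat_lit 7) (.nd (nat_lit 8) (.nd (nat_lit 9) 
(.lf (nat_lit 453717) (.g (nat_lit 4286) (.e (nat_lit 2630) (nat_lit 164) (.e (nat_lit 172064) (nat_lit 2) (.e (nat_lit 196666) (nat_lit 13) (.e (nat_lit 65617) (nat_lit 10) (.e (nat_lit 344130) (nat_lit 26) (.e (nat_lit 557090) (nat_lit 12) (.e (nat_lit 163849) (nat_lit 0) (.e (nat_lit 6255) (nat_lit 337) .nil)))))))) (.g (nat_lit 1) (.e (nat_lit 30645) (nat_lit 0) .nil) .nil))) 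
(.lf (nat_lit 454229) (.g (nat_lit 2109) (.e (nat_lit 2638) (nat_lit 165) (.e (nat_lit 188160) (nat_lit 32) (.e (nat_lit 1256) (nat_lit 92) (.e (nat_lit 98373) (nat_lit 29) (.e (nat_lit 450560) (nat_lit 0) (.e (nat_lit 3988) (nat_lit 239) .nil)))))) (.g (nat_lit 1) (.e (nat_lit 34009) (nat_lit 0) .nil) .nil)))) (.nd (nat_lit 9) 
(.lf (nat_lit 453973) (.g (nat_lit 2509) (.e (nat_lit 2630) (nat_lit 164) (.e (nat_lit 172120) (nat_lit 12) (.e (nat_lit 475211) (nat_lit 41) (.e (nat_lit 712755) (nat_lit 30) (.e (nat_lit 458496) (nat_lit 0) (.e (nat_lit 5443) (nat_lit 306) .nil)))))) (.g (nat_lit 1) (.e (nat_lit 32307) (nat_lit 0) .nil) .nil))) 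
(.lf (nat_lit 454485) (.g (nat_lit 4538) (.e (nat_lit 2641) (nat_lit 165) (.e (nat_lit 180244) (nat_lit 5) (.e (nat_lit 532550) (nat_lit 12) (.e (nat_lit 360475) (nat_lit 8) (.e (nat_lit 557091) (nat_lit 12) (.e (nat_lit 163844) (nat_lit 0) (.e (nat_lit 6254) (nat_lit 337) .nil))))))) (.g (nat_lit 1) (.e (nat_lit 34699) (nat_lit 0) .nil) .nil))))) (.nd (nat_lit 8) (.nd (nat_lit 9) 
(.lf (nat_lit 453845) (.g (nat_lit 2382) (.e (nat_lit 2630) (nat_lit 164) (.e (nat_lit 172067) (nat_lit 3) (.e (nat_lit 204868) (nat_lit 29) (.e (nat_lit 360474) (nat_lit 8) (.e (nat_lit 557093) (nat_lit 12) .nil))))) (.g (nat_lit 0) (.e (nat_lit 30885) (nat_lit 0) .nil) .nil))) 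
(.lf (nat_lit 454357) (.g (nat_lit 2957) (.e (nat_lit 2640) (nat_lit 165) (.e (nat_lit 180277) (nat_lit 32) (.e (nat_lit 1659) (nat_lit 115) (.e (nat_lit 393281) (nat_lit 23) (.e (nat_lit 426108) (nat_lit 1) (.e (nat_lit 164345) (nat_lit 240) .nil)))))) (.g (nat_lit 1) (.e (nat_lit 34508) (nat_lit 0) .nil) .nil)))) (.nd (nat_lit 9) 
(.lf (nat_lit 454101) (.g (nat_lit 2212) (.e (nat_lit 2638) (nat_lit 165) (.e (nat_lit 180277) (nat_lit 32) (.e (nat_lit 1253) (nat_lit 92) (.e (nat_lit 98373) (nat_lit 29) (.e (nat_lit 458496) (nat_lit 0) (.e (nat_lit 3978) (nat_lit 239) .nil)))))) (.g (nat_lit 1) (.e (nat_lit 33795) (nat_lit 0) .nil) .nil))) 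
(.lf (nat_lit 454613) (.g (nat_lit 2296) (.e (nat_lit 2643) (nat_lit 165) (.e (nat_lit 180277) (nat_lit 32) (.e (nat_lit 1426) (nat_lit 108) (.e (nat_lit 336430) (nat_lit 29) (.e (nat_lit 442428) (nat_lit 24) (.e (nat_lit 229665) (nat_lit 240) .nil)))))) (.g (nat_lit 1) (.e (nat_lit 35308) (nat_lit 0) .nil) .nil))))))) (.nd (nat_lit 6) (.nd (nat_lit 7) (.nd (nat_lit 8) (.nd (nat_lit 9) 
(.lf (nat_lit 453685) (.g (nat_lit 2599) (.e (nat_lit 2630) (nat_lit 164) (.e (nat_lit 172063) (nat_lit 2) (.e (nat_lit 196666) (nat_lit 13) (.e (nat_lit 65617) (nat_lit 10) (.e (nat_lit 344133) (nat_lit 26) (.e (nat_lit 557091) (nat_lit 12) (.e (nat_lit 163847) (nat_lit 0) (.e (nat_lit 6254) (nat_lit 337) .nil)))))))) (.g (nat_lit 1) (.e (nat_lit 30598) (nat_lit 0) .nil) .nil))) 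
(.lf (nat_lit 454197) (.g (nat_lit 2650) (.e (nat_lit 2638) (nat_lit 165) (.e (nat_lit 180278) (nat_lit 32) (.e (nat_lit 1659) (nat_lit 115) (.e (nat_lit 393281) (nat_lit 23) (.e (nat_lit 426098) (nat_lit 1) (.e (nat_lit 164347) (nat_lit 240) .nil)))))) (.g (nat_lit 1) (.e (nat_lit 33945) (nat_lit 0) .nil) .nil)))) (.nd (nat_lit 9) 
(.lf (nat_lit 453941) (.g (nat_lit 3270) (.e (nat_lit 2630) (nat_lit 164) (.e (nat_lit 172120) (nat_lit 12) (.e (nat_lit 475198) (nat_lit 40) (.e (nat_lit 704598) (nat_lit 6) (.e (nat_lit 188455) (nat_lit 24) (.e (nat_lit 229664) (nat_lit 240) .nil)))))) (.g (nat_lit 1) (.e (nat_lit 32239) (nat_lit 0) .nil) .nil))) 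
(.lf (nat_lit 454453) (.g (nat_lit 3074) (.e (nat_lit 2641) (nat_lit 165) (.e (nat_lit 180244) (nat_lit 5) (.e (nat_lit 532550) (nat_lit 12) (.e (nat_lit 360472) (nat_lit 8) (.e (nat_lit 557090) (nat_lit 12) .nil))))) (.g (nat_lit 0) (.e (nat_lit 34667) (nat_lit 0) .nil) .nil))))) (.nd (nat_lit 8) (.nd (nat_lit 9) 
(.lf (nat_lit 453813) (.g (nat_lit 3018) (.e (nat_lit 2630) (nat_lit 164) (.e (nat_lit 172066) (nat_lit 3) (.e (nat_lit 204869) (nat_lit 29) (.e (nat_lit 360475) (nat_lit 8) (.e (nat_lit 557091) (nat_lit 12) (.e (nat_lit 163841) (nat_lit 0) (.e (nat_lit 6255) (nat_lit 337) .nil))))))) (.g (nat_lit 1) (.e (nat_lit 30794) (nat_lit 0) .nil) .nil))) 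
(.lf (nat_lit 454325) (.g (nat_lit 804) (.e (nat_lit 2640) (nat_lit 165) (.e (nat_lit 180277) (nat_lit 32) (.e (nat_lit 1426) (nat_lit 108) (.e (nat_lit 336434) (nat_lit 30) (.e (nat_lit 458496) (nat_lit 0) (.e (nat_lit 5547) (nat_lit 306) .nil)))))) (.g (nat_lit 1) (.e (nat_lit 34473) (nat_lit 0) .nil) .nil)))) (.nd (nat_lit 9) 
(.lf (nat_lit 454069) (.g (nat_lit 4718) (.e (nat_lit 2635) (nat_lit 165) (.e (nat_lit 180278) (nat_lit 32) (.e (nat_lit 1253) (nat_lit 92) (.e (nat_lit 98373) (nat_lit 29) (.e (nat_lit 450563) (nat_lit 0) (.e (nat_lit 3919) (nat_lit 239) .nil)))))) (.g (nat_lit 1) (.e (nat_lit 33223) (nat_lit 0) .nil) .nil))) 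
(.lf (nat_lit 454581) (.g (nat_lit 4283) (.e (nat_lit 2643) (nat_lit 165) (.e (nat_lit 180243) (nat_lit 5) (.e (nat_lit 532550) (nat_lit 12) (.e (nat_lit 360475) (nat_lit 8) (.e (nat_lit 557089) (nat_lit 12) (.e (nat_lit 163848) (nat_lit 0) (.e (nat_lit 6252) (nat_lit 337) .nil))))))) (.g (nat_lit 1) (.e (nat_lit 35073) (nat_lit 0) .nil) .nil)))))) 
(.nd (nat_lit 7) (.nd (nat_lit 8) (.nd (nat_lit 9) 
(.lf (nat_lit 453749) (.g (nat_lit 953) (.e (nat_lit 2630) (nat_lit 164) (.e (nat_lit 172065) (nat_lit 3) (.e (nat_lit 204868) (nat_lit 29) (.e (nat_lit 360473) (nat_lit 8) .nil)))) (.g (nat_lit 0) (.e (nat_lit 30720) (nat_lit 0) .nil) .nil))) 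
(.lf (nat_lit 454261) (.g (nat_lit 1075) (.e (nat_lit 2639) (nat_lit 165) (.e (nat_lit 180277) (nat_lit 32) (.e (nat_lit 1659) (nat_lit 115) (.e (nat_lit 393277) (nat_lit 23) .nil)))) (.g (nat_lit 0) (.e (nat_lit 34130) (nat_lit 0) .nil) .nil)))) (.nd (nat_lit 9) 
(.lf (nat_lit 454005) (.g (nat_lit 1501) (.e (nat_lit 2630) (nat_lit 164) (.e (nat_lit 172126) (nat_lit 14) (.e (nat_lit 491547) (nat_lit 9) (.e (nat_lit 336434) (nat_lit 30) .nil)))) (.g (nat_lit 0) (.e (nat_lit 32705) (nat_lit 0) .nil) .nil))) 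
(.lf (nat_lit 454517) (.g (nat_lit 2067) (.e (nat_lit 2641) (nat_lit 165) (.e (nat_lit 180278) (nat_lit 32) (.e (nat_lit 1425) (nat_lit 108) (.e (nat_lit 336430) (nat_lit 29) (.e (nat_lit 442428) (nat_lit 24) (.e (nat_lit 229666) (nat_lit 240) .nil)))))) (.g (nat_lit 1) (.e (nat_lit 34810) (nat_lit 0) .nil) .nil))))) (.nd (nat_lit 8) (.nd (nat_lit 9) 
(.lf (nat_lit 453877) (.g (nat_lit 3922) (.e (nat_lit 2630) (nat_lit 164) (.e (nat_lit 172067) (nat_lit 3) (.e (nat_lit 204869) (nat_lit 29) (.e (nat_lit 360475) (nat_lit 8) (.e (nat_lit 557089) (nat_lit 12) (.e (nat_lit 163849) (nat_lit 0) (.e (nat_lit 6252) (nat_lit 337) .nil))))))) (.g (nat_lit 1) (.e (nat_lit 30921) (nat_lit 0) .nil) .nil))) 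
(.lf (nat_lit 454389) (.g (nat_lit 1185) (.e (nat_lit 2640) (nat_lit 165) (.e (nat_lit 180278) (nat_lit 32) (.e (nat_lit 1427) (nat_lit 108) (.e (nat_lit 336421) (nat_lit 28) .nil)))) (.g (nat_lit 0) (.e (nat_lit 34556) (nat_lit 0) .nil) .nil)))) (.nd (nat_lit 9) 
(.lf (nat_lit 454133) (.g (nat_lit 326) (.e (nat_lit 2638) (nat_lit 165) (.e (nat_lit 180277) (nat_lit 32) (.e (nat_lit 1659) (nat_lit 115) .nil))) (.g (nat_lit 0) (.e (nat_lit 33832) (nat_lit 0) .nil) .nil))) 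
(.lf (nat_lit 454645) (.g (nat_lit 3242) (.e (nat_lit 2645) (nat_lit 166) (.e (nat_lit 188434) (nat_lit 20) (.e (nat_lit 3469) (nat_lit 217) (.e (nat_lit 696344) (nat_lit 8) (.e (nat_lit 172115) (nat_lit 10) (.e (nat_lit 434209) (nat_lit 18) (.e (nat_lit 6273) (nat_lit 337) .nil))))))) (.g (nat_lit 1) (.e (nat_lit 35663) (nat_lit 0) .nil) .nil))))))))) 
(.nd (nat_lit 4) (.nd (nat_lit 5) (.nd (nat_lit 6) (.nd (nat_lit 7) (.nd (nat_lit 8) 
(.nd (nat_lit 9) 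
(.lf (nat_lit 453645) (.g (nat_lit 5012) (.e (nat_lit 2630) (nat_lit 164) (.e (nat_lit 172062) (nat_lit 2) (.e (nat_lit 196666) (nat_lit 13) (.e (nat_lit 65617) (nat_lit 10) (.e (nat_lit 344127) (nat_lit 26) (.e (nat_lit 557090) (nat_lit 12) (.e (nat_lit 163844) (nat_lit 0) (.e (nat_lit 6255) (nat_lit 337) .nil)))))))) (.g (nat_lit 1) (.e (nat_lit 30558) (nat_lit 0) .nil) .nil))) 
(.lf (nat_lit 454157) (.g (nat_lit 2418) (.e (nat_lit 2638) (nat_lit 165) (.e (nat_lit 180278) (nat_lit 32) (.e (nat_lit 1252) (nat_lit 92) (.e (nat_lit 98373) (nat_lit 29) (.e (nat_lit 450560) (nat_lit 0) (.e (nat_lit 3988) (nat_lit 239) .nil)))))) (.g (nat_lit 1) (.e (nat_lit 33889) (nat_lit 0) .nil) .nil)))) (.nd (nat_lit 9) 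
(.lf (nat_lit 453901) (.g (nat_lit 3411) (.e (nat_lit 2630) (nat_lit 164) (.e (nat_lit 172106) (nat_lit 10) (.e (nat_lit 434271) (nat_lit 38) (.e (nat_lit 655380) (nat_lit 6) (.e (nat_lit 188455) (nat_lit 24) (.e (nat_lit 229665) (nat_lit 240) .nil)))))) (.g (nat_lit 1) (.e (nat_lit 31806) (nat_lit 0) .nil) .nil))) 
(.lf (nat_lit 454413) (.g (nat_lit 1623) (.e (nat_lit 2640) (nat_lit 165) (.e (nat_lit 180278) (nat_lit 32) (.e (nat_lit 1659) (nat_lit 115) (.e (nat_lit 393281) (nat_lit 23) (.e (nat_lit 426098) (nat_lit 1) (.e (nat_lit 164347) (nat_lit 240) .nil)))))) (.g (nat_lit 1) (.e (nat_lit 34581) (nat_lit 0) .nil) .nil))))) (.nd (nat_lit 8) (.nd (nat_lit 9) 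
(.lf (nat_lit 453773) (.g (nat_lit 2767) (.e (nat_lit 2630) (nat_lit 164) (.e (nat_lit 172065) (nat_lit 3) (.e (nat_lit 204869) (nat_lit 29) (.e (nat_lit 360474) (nat_lit 8) (.e (nat_lit 557094) (nat_lit 12) (.e (nat_lit 163849) (nat_lit 0) (.e (nat_lit 6252) (nat_lit 337) .nil))))))) (.g (nat_lit 1) (.e (nat_lit 30754) (nat_lit 0) .nil) .nil))) 
(.lf (nat_lit 454285) (.g (nat_lit 2722) (.e (nat_lit 2639) (nat_lit 165) (.e (nat_lit 180278) (nat_lit 32) (.e (nat_lit 1428) (nat_lit 108) (.e (nat_lit 336430) (nat_lit 29) (.e (nat_lit 442421) (nat_lit 21) (.e (nat_lit 164346) (nat_lit 240) .nil)))))) (.g (nat_lit 1) (.e (nat_lit 34190) (nat_lit 0) .nil) .nil)))) (.nd (nat_lit 9) 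
(.lf (nat_lit 454029) (.g (nat_lit 3550) (.e (nat_lit 2630) (nat_lit 164) (.e (nat_lit 172126) (nat_lit 14) (.e (nat_lit 491550) (nat_lit 9) (.e (nat_lit 336430) (nat_lit 29) (.e (nat_lit 442430) (nat_lit 24) (.e (nat_lit 229665) (nat_lit 240) .nil)))))) (.g (nat_lit 1) (.e (nat_lit 32746) (nat_lit 0) .nil) .nil))) 
(.lf (nat_lit 454541) (.g (nat_lit 2471) (.e (nat_lit 2643) (nat_lit 165) (.e (nat_lit 180243) (nat_lit 5) (.e (nat_lit 532549) (nat_lit 12) (.e (nat_lit 360473) (nat_lit 8) (.e (nat_lit 557089) (nat_lit 12) (.e (nat_lit 163849) (nat_lit 0) (.e (nat_lit 6250) (nat_lit 337) .nil))))))) (.g (nat_lit 1) (.e (nat_lit 35022) (nat_lit 0) .nil) .nil)))))) 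
(.nd (nat_lit 7) (.nd (nat_lit 8) (.nd (nat_lit 9) 
(.lf (nat_lit 453709) (.g (nat_lit 2099) (.e (nat_lit 2630) (nat_lit 164) (.e (nat_lit 172064) (nat_lit 2) (.e (nat_lit 196666) (nat_lit 13) (.e (nat_lit 65617) (nat_lit 10) (.e (nat_lit 344130) (nat_lit 26) .nil))))) (.g (nat_lit 0) (.e (nat_lit 30637) (nat_lit 0) .nil) .nil))) 
(.lf (nat_lit 454221) (.g (nat_lit 2534) (.e (nat_lit 2638) (nat_lit 165) (.e (nat_lit 180278) (nat_lit 32) (.e (nat_lit 1661) (nat_lit 115) (.e (nat_lit 393281) (nat_lit 23) (.e (nat_lit 426098) (nat_lit 1) (.e (nat_lit 164347) (nat_lit 240) .nil)))))) (.g (nat_lit 1) (.e (nat_lit 33995) (nat_lit 0) .nil) .nil)))) (.nd (nat_lit 9) 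
(.lf (nat_lit 453965) (.g (nat_lit 1941) (.e (nat_lit 2630) (nat_lit 164) (.e (nat_lit 172120) (nat_lit 12) (.e (nat_lit 475211) (nat_lit 41) (.e (nat_lit 712752) (nat_lit 29) (.e (nat_lit 442428) (nat_lit 24) .nil))))) (.g (nat_lit 0) (.e (nat_lit 32288) (nat_lit 0) .nil) .nil))) 
(.lf (nat_lit 454477) (.g (nat_lit 5429) (.e (nat_lit 2641) (nat_lit 165) (.e (nat_lit 180244) (nat_lit 5) (.e (nat_lit 532550) (nat_lit 12) (.e (nat_lit 360475) (nat_lit 8) (.e (nat_lit 557089) (nat_lit 12) (.e (nat_lit 163849) (nat_lit 0) (.e (nat_lit 6255) (nat_lit 337) .nil))))))) (.g (nat_lit 1) (.e (nat_lit 34691) (nat_lit 0) .nil) .nil))))) (.nd (nat_lit 8) (.nd (nat_lit 9) 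
(.lf (nat_lit 453837) (.g (nat_lit 3441) (.e (nat_lit 2630) (nat_lit 164) (.e (nat_lit 172067) (nat_lit 3) (.e (nat_lit 204868) (nat_lit 29) (.e (nat_lit 360473) (nat_lit 8) (.e (nat_lit 557091) (nat_lit 12) (.e (nat_lit 163849) (nat_lit 0) (.e (nat_lit 6254) (nat_lit 337) .nil))))))) (.g (nat_lit 1) (.e (nat_lit 30873) (nat_lit 0) .nil) .nil))) 
(.lf (nat_lit 454349) (.g (nat_lit 2184) (.e (nat_lit 2640) (nat_lit 165) (.e (nat_lit 180277) (nat_lit 32) (.e (nat_lit 1659) (nat_lit 115) (.e (nat_lit 393266) (nat_lit 23) (.e (nat_lit 426109) (nat_lit 1) (.e (nat_lit 164345) (nat_lit 240) .nil)))))) (.g (nat_lit 1) (.e (nat_lit 34500) (nat_lit 0) .nil) .nil)))) (.nd (nat_lit 9) 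
(.lf (nat_lit 454093) (.g (nat_lit 532) (.e (nat_lit 2637) (nat_lit 165) (.e (nat_lit 180278) (nat_lit 32) (.e (nat_lit 1234) (nat_lit 91) .nil))) (.g (nat_lit 0) (.e (nat_lit 33603) (nat_lit 0) .nil) .nil))) 
(.lf (nat_lit 454605) (.g (nat_lit 1790) (.e (nat_lit 2643) (nat_lit 165) (.e (nat_lit 180277) (nat_lit 32) (.e (nat_lit 1253) (nat_lit 92) (.e (nat_lit 98373) (nat_lit 29) (.e (nat_lit 458496) (nat_lit 0) .nil))))) (.g (nat_lit 0) (.e (nat_lit 35298) (nat_lit 0) .nil) .nil))))))) (.nd (nat_lit 6) (.nd (nat_lit 7) (.nd (nat_lit 8) (.nd (nat_lit 9) 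
(.lf (nat_lit 453677) (.g (nat_lit 2811) (.e (nat_lit 2630) (nat_lit 164) (.e (nat_lit 172063) (nat_lit 2) (.e (nat_lit 196666) (nat_lit 13) (.e (nat_lit 65617) (nat_lit 10) (.e (nat_lit 344132) (nat_lit 26) (.e (nat_lit 557093) (nat_lit 12) (.e (nat_lit 163849) (nat_lit 0) (.e (nat_lit 6255) (nat_lit 337) .nil)))))))) (.g (nat_lit 1) (.e (nat_lit 30590) (nat_lit 0) .nil) .nil))) 
(.lf (nat_lit 454189) (.g (nat_lit 434) (.e (nat_lit 2638) (nat_lit 165) (.e (nat_lit 180278) (nat_lit 32) (.e (nat_lit 1659) (nat_lit 115) .nil))) (.g (nat_lit 0) (.e (nat_lit 33936) (nat_lit 0) .nil) .nil)))) (.nd (nat_lit 9) 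
(.lf (nat_lit 453933) (.g (nat_lit 2194) (.e (nat_lit 2630) (nat_lit 164) (.e (nat_lit 172118) (nat_lit 12) (.e (nat_lit 475211) (nat_lit 41) (.e (nat_lit 712753) (nat_lit 30) (.e (nat_lit 450567) (nat_lit 0) (.e (nat_lit 5443) (nat_lit 306) .nil)))))) (.g (nat_lit 1) (.e (nat_lit 32228) (nat_lit 0) .nil) .nil))) 
(.lf (nat_lit 454445) (.g (nat_lit 4473) (.e (nat_lit 2641) (nat_lit 165) (.e (nat_lit 180242) (nat_lit 5) (.e (nat_lit 532550) (nat_lit 12) (.e (nat_lit 360475) (nat_lit 8) (.e (nat_lit 557089) (nat_lit 12) (.e (nat_lit 163848) (nat_lit 0) (.e (nat_lit 6252) (nat_lit 337) .nil))))))) (.g (nat_lit 1) (.e (nat_lit 34638) (nat_lit 0) .nil) .nil))))) (.nd (nat_lit 8) (.nd (nat_lit 9) 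
(.lf (nat_lit 453805) (.g (nat_lit 2951) (.e (nat_lit 2630) (nat_lit 164) (.e (nat_lit 172066) (nat_lit 3) (.e (nat_lit 204869) (nat_lit 29) (.e (nat_lit 360475) (nat_lit 8) (.e (nat_lit 557089) (nat_lit 12) (.e (nat_lit 163847) (nat_lit 0) (.e (nat_lit 6255) (nat_lit 337) .nil))))))) (.g (nat_lit 1) (.e (nat_lit 30786) (nat_lit 0) .nil) .nil))) 
(.lf (nat_lit 454317) (.g (nat_lit 3024) (.e (nat_lit 2640) (nat_lit 165) (.e (nat_lit 180252) (nat_lit 10) (.e (nat_lit 573503) (nat_lit 18) (.e (nat_lit 1349) (nat_lit 102) (.e (nat_lit 286748) (nat_lit 9) (.e (nat_lit 336389) (nat_lit 27) (.e (nat_lit 426098) (nat_lit 1) (.e (nat_lit 171776) (nat_lit 146) .nil)))))))) (.g (nat_lit 1) (.e (nat_lit 34450) (nat_lit 0) .nil) .nil)))) 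
(.nd (nat_lit 9) 
(.lf (nat_lit 454061) (.g (nat_lit 1198) (.e (nat_lit 7936) (nat_lit 164) (.e (nat_lit 172126) (nat_lit 14) (.e (nat_lit 491540) (nat_lit 3) (.e (nat_lit 98372) (nat_lit 29) .nil)))) (.g (nat_lit 0) (.e (nat_lit 33143) (nat_lit 0) .nil) .nil))) 
(.lf (nat_lit 454573) (.g (nat_lit 3346) (.e (nat_lit 2643) (nat_lit 165) (.e (nat_lit 180243) (nat_lit 5) (.e (nat_lit 532550) (nat_lit 12) (.e (nat_lit 360474) (nat_lit 8) (.e (nat_lit 557094) (nat_lit 12) (.e (nat_lit 163847) (nat_lit 0) (.e (nat_lit 6254) (nat_lit 337) .nil))))))) (.g (nat_lit 1) (.e (nat_lit 35065) (nat_lit 0) .nil) .nil)))))) 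
(.nd (nat_lit 7) (.nd (nat_lit 8) (.nd (nat_lit 9) 
(.lf (nat_lit 453741) (.g (nat_lit 4769) (.e (nat_lit 2630) (nat_lit 164) (.e (nat_lit 172064) (nat_lit 2) (.e (nat_lit 196666) (nat_lit 13) (.e (nat_lit 65617) (nat_lit 10) (.e (nat_lit 344133) (nat_lit 26) (.e (nat_lit 557091) (nat_lit 12) (.e (nat_lit 163847) (nat_lit 0) (.e (nat_lit 6254) (nat_lit 337) .nil)))))))) (.g (nat_lit 1) (.e (nat_lit 30669) (nat_lit 0) .nil) .nil))) 
(.lf (nat_lit 454253) (.g (nat_lit 1296) (.e (nat_lit 2639) (nat_lit 165) (.e (nat_lit 180277) (nat_lit 32) (.e (nat_lit 1428) (nat_lit 108) (.e (nat_lit 336432) (nat_lit 30) (.e (nat_lit 458496) (nat_lit 0) .nil))))) (.g (nat_lit 0) (.e (nat_lit 34122) (nat_lit 0) .nil) .nil)))) (.nd (nat_lit 9) 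
(.lf (nat_lit 453997) (.g (nat_lit 3486) (.e (nat_lit 2630) (nat_lit 164) (.e (nat_lit 172126) (nat_lit 14) (.e (nat_lit 491537) (nat_lit 2) (.e (nat_lit 90170) (nat_lit 13) (.e (nat_lit 172113) (nat_lit 10) (.e (nat_lit 434199) (nat_lit 18) (.e (nat_lit 3914) (nat_lit 239) .nil))))))) (.g (nat_lit 1) (.e (nat_lit 32696) (nat_lit 0) .nil) .nil))) 
(.lf (nat_lit 454509) (.g (nat_lit 1792) (.e (nat_lit 2641) (nat_lit 165) (.e (nat_lit 180277) (nat_lit 32) (.e (nat_lit 1428) (nat_lit 108) (.e (nat_lit 336430) (nat_lit 29) (.e (nat_lit 442430) (nat_lit 24) (.e (nat_lit 229664) (nat_lit 240) .nil)))))) (.g (nat_lit 1) (.e (nat_lit 34798) (nat_lit 0) .nil) .nil))))) (.nd (nat_lit 8) (.nd (nat_lit 9) 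
(.lf (nat_lit 453869) (.g (nat_lit 3078) (.e (nat_lit 2630) (nat_lit 164) (.e (nat_lit 172067) (nat_lit 3) (.e (nat_lit 204869) (nat_lit 29) (.e (nat_lit 360474) (nat_lit 8) (.e (nat_lit 557094) (nat_lit 12) (.e (nat_lit 163849) (nat_lit 0) (.e (nat_lit 6252) (nat_lit 337) .nil))))))) (.g (nat_lit 1) (.e (nat_lit 30913) (nat_lit 0) .nil) .nil))) 
(.lf (nat_lit 454381) (.g (nat_lit 1223) (.e (nat_lit 2640) (nat_lit 165) (.e (nat_lit 180277) (nat_lit 32) (.e (nat_lit 1661) (nat_lit 115) (.e (nat_lit 393287) (nat_lit 25) .nil)))) (.g (nat_lit 0) (.e (nat_lit 34546) (nat_lit 0) .nil) .nil)))) (.nd (nat_lit 9) 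
(.lf (nat_lit 454125) (.g (nat_lit 1648) (.e (nat_lit 2638) (nat_lit 165) (.e (nat_lit 180277) (nat_lit 32) (.e (nat_lit 1428) (nat_lit 108) (.e (nat_lit 336434) (nat_lit 30) (.e (nat_lit 458496) (nat_lit 0) (.e (nat_lit 5543) (nat_lit 306) .nil)))))) (.g (nat_lit 1) (.e (nat_lit 33824) (nat_lit 0) .nil) .nil))) 
(.lf (nat_lit 454637) (.g (nat_lit 3156) (.e (nat_lit 2645) (nat_lit 166) (.e (nat_lit 188434) (nat_lit 20) (.e (nat_lit 3468) (nat_lit 217) (.e (nat_lit 696343) (nat_lit 8) (.e (nat_lit 172106) (nat_lit 10) (.e (nat_lit 434209) (nat_lit 18) (.e (nat_lit 6272) (nat_lit 337) .nil))))))) (.g (nat_lit 1) (.e (nat_lit 35650) (nat_lit 0) .nil) .nil)))))))) 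
(.nd (nat_lit 5) (.nd (nat_lit 6) (.nd (nat_lit 7) (.nd (nat_lit 8) (.nd (nat_lit 9) 
(.lf (nat_lit 453661) (.g (nat_lit 4366) (.e (nat_lit 2630) (nat_lit 164) (.e (nat_lit 172062) (nat_lit 2) (.e (nat_lit 196666) (nat_lit 13) (.e (nat_lit 65617) (nat_lit 10) (.e (nat_lit 344133) (nat_lit 26) (.e (nat_lit 557089) (nat_lit 12) (.e (nat_lit 163843) (nat_lit 0) (.e (nat_lit 6255) (nat_lit 337) .nil)))))))) (.g (nat_lit 1) (.e (nat_lit 30574) (nat_lit 0) .nil) .nil))) 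
(.lf (nat_lit 454173) (.g (nat_lit 1178) (.e (nat_lit 2638) (nat_lit 165) (.e (nat_lit 180278) (nat_lit 32) (.e (nat_lit 1427) (nat_lit 108) (.e (nat_lit 336434) (nat_lit 30) .nil)))) (.g (nat_lit 0) (.e (nat_lit 33918) (nat_lit 0) .nil) .nil)))) (.nd (nat_lit 9) 
(.lf (nat_lit 453917) (.g (nat_lit 1004) (.e (nat_lit 2630) (nat_lit 164) (.e (nat_lit 172118) (nat_lit 12) (.e (nat_lit 475198) (nat_lit 40) (.e (nat_lit 704599) (nat_lit 6) .nil)))) (.g (nat_lit 0) (.e (nat_lit 32203) (nat_lit 0) .nil) .nil))) 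
(.lf (nat_lit 454429) (.g (nat_lit 2365) (.e (nat_lit 2640) (nat_lit 165) (.e (nat_lit 180278) (nat_lit 32) (.e (nat_lit 1660) (nat_lit 115) (.e (nat_lit 393281) (nat_lit 23) (.e (nat_lit 426108) (nat_lit 1) (.e (nat_lit 164345) (nat_lit 240) .nil)))))) (.g (nat_lit 1) (.e (nat_lit 34598) (nat_lit 0) .nil) .nil))))) (.nd (nat_lit 8) (.nd (nat_lit 9) 
(.lf (nat_lit 453789) (.g (nat_lit 3050) (.e (nat_lit 2630) (nat_lit 164) (.e (nat_lit 172065) (nat_lit 3) (.e (nat_lit 204869) (nat_lit 29) (.e (nat_lit 360475) (nat_lit 8) (.e (nat_lit 557091) (nat_lit 12) (.e (nat_lit 163849) (nat_lit 0) (.e (nat_lit 6252) (nat_lit 337) .nil))))))) (.g (nat_lit 1) (.e (nat_lit 30770) (nat_lit 0) .nil) .nil))) 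
(.lf (nat_lit 454301) (.g (nat_lit 2602) (.e (nat_lit 2639) (nat_lit 165) (.e (nat_lit 180278) (nat_lit 32) (.e (nat_lit 1659) (nat_lit 115) (.e (nat_lit 393281) (nat_lit 23) (.e (nat_lit 426100) (nat_lit 1) (.e (nat_lit 164345) (nat_lit 240) .nil)))))) (.g (nat_lit 1) (.e (nat_lit 34206) (nat_lit 0) .nil) .nil)))) (.nd (nat_lit 9) 
(.lf (nat_lit 454045) (.g (nat_lit 4972) (.e (nat_lit 2632) (nat_lit 164) (.e (nat_lit 172066) (nat_lit 3) (.e (nat_lit 204869) (nat_lit 29) (.e (nat_lit 360475) (nat_lit 8) (.e (nat_lit 557091) (nat_lit 12) (.e (nat_lit 163850) (nat_lit 0) (.e (nat_lit 6273) (nat_lit 337) .nil))))))) (.g (nat_lit 1) (.e (nat_lit 32989) (nat_lit 0) .nil) .nil))) 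
(.lf (nat_lit 454557) (.g (nat_lit 5221) (.e (nat_lit 2643) (nat_lit 165) (.e (nat_lit 180243) (nat_lit 5) (.e (nat_lit 532549) (nat_lit 12) (.e (nat_lit 360475) (nat_lit 8) (.e (nat_lit 557089) (nat_lit 12) (.e (nat_lit 163843) (nat_lit 0) (.e (nat_lit 6255) (nat_lit 337) .nil))))))) (.g (nat_lit 1) (.e (nat_lit 35045) (nat_lit 0) .nil) .nil)))))) 
(.nd (nat_lit 7) (.nd (nat_lit 8) (.nd (nat_lit 9) 
(.lf (nat_lit 453725) (.g (nat_lit 4003) (.e (nat_lit 2630) (nat_lit 164) (.e (nat_lit 172064) (nat_lit 2) (.e (nat_lit 196666) (nat_lit 13) (.e (nat_lit 65617) (nat_lit 10) (.e (nat_lit 344132) (nat_lit 26) (.e (nat_lit 557094) (nat_lit 12) (.e (nat_lit 163848) (nat_lit 0) (.e (nat_lit 6252) (nat_lit 337) .nil)))))))) (.g (nat_lit 1) (.e (nat_lit 30653) (nat_lit 0) .nil) .nil))) 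
(.lf (nat_lit 454237) (.g (nat_lit 1847) (.e (nat_lit 2639) (nat_lit 165) (.e (nat_lit 180277) (nat_lit 32) (.e (nat_lit 1425) (nat_lit 108) (.e (nat_lit 336430) (nat_lit 29) (.e (nat_lit 442421) (nat_lit 21) (.e (nat_lit 164345) (nat_lit 240) .nil)))))) (.g (nat_lit 1) (.e (nat_lit 34098) (nat_lit 0) .nil) .nil)))) (.nd (nat_lit 9) 
(.lf (nat_lit 453981) (.g (nat_lit 2570) (.e (nat_lit 2630) (nat_lit 164) (.e (nat_lit 172124) (nat_lit 14) (.e (nat_lit 491549) (nat_lit 9) (.e (nat_lit 336430) (nat_lit 29) (.e (nat_lit 442430) (nat_lit 24) (.e (nat_lit 229664) (nat_lit 240) .nil)))))) (.g (nat_lit 1) (.e (nat_lit 32548) (nat_lit 0) .nil) .nil))) 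
(.lf (nat_lit 454493) (.g (nat_lit 1660) (.e (nat_lit 2641) (nat_lit 165) (.e (nat_lit 180277) (nat_lit 32) (.e (nat_lit 1426) (nat_lit 108) (.e (nat_lit 336430) (nat_lit 29) (.e (nat_lit 442430) (nat_lit 24) (.e (nat_lit 229664) (nat_lit 240) .nil)))))) (.g (nat_lit 1) (.e (nat_lit 34779) (nat_lit 0) .nil) .nil))))) (.nd (nat_lit 8) (.nd (nat_lit 9) 
(.lf (nat_lit 453853) (.g (nat_lit 5951) (.e (nat_lit 2630) (nat_lit 164) (.e (nat_lit 172067) (nat_lit 3) (.e (nat_lit 204868) (nat_lit 29) (.e (nat_lit 360475) (nat_lit 8) (.e (nat_lit 557091) (nat_lit 12) (.e (nat_lit 163843) (nat_lit 0) (.e (nat_lit 6255) (nat_lit 337) .nil))))))) (.g (nat_lit 1) (.e (nat_lit 30896) (nat_lit 0) .nil) .nil))) 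
(.lf (nat_lit 454365) (.g (nat_lit 895) (.e (nat_lit 2640) (nat_lit 165) (.e (nat_lit 180277) (nat_lit 32) (.e (nat_lit 1660) (nat_lit 115) (.e (nat_lit 393281) (nat_lit 23) .nil)))) (.g (nat_lit 0) (.e (nat_lit 34517) (nat_lit 0) .nil) .nil)))) (.nd (nat_lit 9) 
(.lf (nat_lit 454109) (.g (nat_lit 3204) (.e (nat_lit 2638) (nat_lit 165) (.e (nat_lit 180277) (nat_lit 32) (.e (nat_lit 1427) (nat_lit 108) (.e (nat_lit 336430) (nat_lit 29) (.e (nat_lit 442421) (nat_lit 21) (.e (nat_lit 164345) (nat_lit 240) .nil)))))) (.g (nat_lit 1) (.e (nat_lit 33807) (nat_lit 0) .nil) .nil))) 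
(.lf (nat_lit 454621) (.g (nat_lit 2313) (.e (nat_lit 2643) (nat_lit 165) (.e (nat_lit 180277) (nat_lit 32) (.e (nat_lit 1427) (nat_lit 108) (.e (nat_lit 336430) (nat_lit 29) (.e (nat_lit 442429) (nat_lit 24) .nil))))) (.g (nat_lit 0) (.e (nat_lit 35321) (nat_lit 0) .nil) .nil))))))) (.nd (nat_lit 6) (.nd (nat_lit 7) (.nd (nat_lit 8) (.nd (nat_lit 9) 
(.lf (nat_lit 453693) (.g (nat_lit 5244) (.e (nat_lit 2630) (nat_lit 164) (.e (nat_lit 172064) (nat_lit 2) (.e (nat_lit 196666) (nat_lit 13) (.e (nat_lit 65610) (nat_lit 10) (.e (nat_lit 344129) (nat_lit 26) (.e (nat_lit 557089) (nat_lit 12) (.e (nat_lit 163849) (nat_lit 0) (.e (nat_lit 6254) (nat_lit 337) .nil)))))))) (.g (nat_lit 1) (.e (nat_lit 30621) (nat_lit 0) .nil) .nil))) 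
(.lf (nat_lit 454205) (.g (nat_lit 2322) (.e (nat_lit 2638) (nat_lit 165) (.e (nat_lit 180278) (nat_lit 32) (.e (nat_lit 1660) (nat_lit 115) (.e (nat_lit 393277) (nat_lit 23) (.e (nat_lit 426103) (nat_lit 1) (.e (nat_lit 164348) (nat_lit 240) .nil)))))) (.g (nat_lit 1) (.e (nat_lit 33957) (nat_lit 0) .nil) .nil)))) (.nd (nat_lit 9) 
(.lf (nat_lit 453949) (.g (nat_lit 3255) (.e (nat_lit 2630) (nat_lit 164) (.e (nat_lit 172120) (nat_lit 12) (.e (nat_lit 475199) (nat_lit 40) (.e (nat_lit 704598) (nat_lit 6) (.e (nat_lit 188453) (nat_lit 24) (.e (nat_lit 229664) (nat_lit 240) .nil)))))) (.g (nat_lit 1) (.e (nat_lit 32248) (nat_lit 0) .nil) .nil))) 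
(.lf (nat_lit 454461) (.g (nat_lit 3434) (.e (nat_lit 2641) (nat_lit 165) (.e (nat_lit 180244) (nat_lit 5) (.e (nat_lit 532550) (nat_lit 12) (.e (nat_lit 360474) (nat_lit 8) (.e (nat_lit 557093) (nat_lit 12) (.e (nat_lit 163849) (nat_lit 0) (.e (nat_lit 6250) (nat_lit 337) .nil))))))) (.g (nat_lit 1) (.e (nat_lit 34675) (nat_lit 0) .nil) .nil))))) (.nd (nat_lit 8) (.nd (nat_lit 9) 
(.lf (nat_lit 453821) (.g (nat_lit 4144) (.e (nat_lit 2630) (nat_lit 164) (.e (nat_lit 172067) (nat_lit 3) (.e (nat_lit 204852) (nat_lit 26) (.e (nat_lit 336310) (nat_lit 16) (.e (nat_lit 164183) (nat_lit 154) (.e (nat_lit 57378) (nat_lit 3) (.e (nat_lit 98334) (nat_lit 18) (.e (nat_lit 164305) (nat_lit 226) .nil)))))))) (.g (nat_lit 1) (.e (nat_lit 30802) (nat_lit 0) .nil) .nil))) 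
(.lf (nat_lit 454333) (.g (nat_lit 1715) (.e (nat_lit 2640) (nat_lit 165) (.e (nat_lit 180277) (nat_lit 32) (.e (nat_lit 1427) (nat_lit 108) (.e (nat_lit 336434) (nat_lit 30) (.e (nat_lit 450564) (nat_lit 0) (.e (nat_lit 5547) (nat_lit 306) .nil)))))) (.g (nat_lit 1) (.e (nat_lit 34484) (nat_lit 0) .nil) .nil)))) (.nd (nat_lit 9) 
(.lf (nat_lit 454077) (.g (nat_lit 2956) (.e (nat_lit 2636) (nat_lit 165) (.e (nat_lit 180251) (nat_lit 10) (.e (nat_lit 573456) (nat_lit 9) (.e (nat_lit 1669) (nat_lit 116) (.e (nat_lit 401458) (nat_lit 13) (.e (nat_lit 483365) (nat_lit 18) (.e (nat_lit 57654) (nat_lit 152) .nil))))))) (.g (nat_lit 1) (.e (nat_lit 33303) (nat_lit 0) .nil) .nil))) 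
(.lf (nat_lit 454589) (.g (nat_lit 4894) (.e (nat_lit 2643) (nat_lit 165) (.e (nat_lit 180243) (nat_lit 5) (.e (nat_lit 532550) (nat_lit 12) (.e (nat_lit 360475) (nat_lit 8) (.e (nat_lit 557091) (nat_lit 12) (.e (nat_lit 163844) (nat_lit 0) (.e (nat_lit 6255) (nat_lit 337) .nil))))))) (.g (nat_lit 1) (.e (nat_lit 35081) (nat_lit 0) .nil) .nil)))))) 
(.nd (nat_lit 7) (.nd (nat_lit 8) (.nd (nat_lit 9) 
(.lf (nat_lit 453757) (.g (nat_lit 3273) (.e (nat_lit 2630) (nat_lit 164) (.e (nat_lit 172065) (nat_lit 3) (.e (nat_lit 204868) (nat_lit 29) (.e (nat_lit 360473) (nat_lit 8) (.e (nat_lit 557091) (nat_lit 12) (.e (nat_lit 163849) (nat_lit 0) (.e (nat_lit 6255) (nat_lit 337) .nil))))))) (.g (nat_lit 1) (.e (nat_lit 30734) (nat_lit 0) .nil) .nil))) 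
(.lf (nat_lit 454269) (.g (nat_lit 1526) (.e (nat_lit 2639) (nat_lit 165) (.e (nat_lit 180277) (nat_lit 32) (.e (nat_lit 1660) (nat_lit 115) (.e (nat_lit 393277) (nat_lit 23) (.e (nat_lit 426109) (nat_lit 1) (.e (nat_lit 164345) (nat_lit 240) .nil)))))) (.g (nat_lit 1) (.e (nat_lit 34142) (nat_lit 0) .nil) .nil)))) (.nd (nat_lit 9) 
(.lf (nat_lit 454013) (.g (nat_lit 3671) (.e (nat_lit 2630) (nat_lit 164) (.e (nat_lit 172126) (nat_lit 14) (.e (nat_lit 491549) (nat_lit 9) (.e (nat_lit 336430) (nat_lit 29) (.e (nat_lit 442430) (nat_lit 24) (.e (nat_lit 229664) (nat_lit 240) .nil)))))) (.g (nat_lit 1) (.e (nat_lit 32728) (nat_lit 0) .nil) .nil))) 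
(.lf (nat_lit 454525) (.g (nat_lit 2371) (.e (nat_lit 2641) (nat_lit 165) (.e (nat_lit 180278) (nat_lit 32) (.e (nat_lit 1428) (nat_lit 108) (.e (nat_lit 336426) (nat_lit 29) (.e (nat_lit 442430) (nat_lit 24) (.e (nat_lit 229664) (nat_lit 240) .nil)))))) (.g (nat_lit 1) (.e (nat_lit 34834) (nat_lit 0) .nil) .nil))))) (.nd (nat_lit 8) (.nd (nat_lit 9) 
(.lf (nat_lit 453885) (.g (nat_lit 3949) (.e (nat_lit 2630) (nat_lit 164) (.e (nat_lit 172067) (nat_lit 3) (.e (nat_lit 204869) (nat_lit 29) (.e (nat_lit 360475) (nat_lit 8) (.e (nat_lit 557091) (nat_lit 12) (.e (nat_lit 163844) (nat_lit 0) (.e (nat_lit 6252) (nat_lit 337) .nil))))))) (.g (nat_lit 1) (.e (nat_lit 30929) (nat_lit 0) .nil) .nil))) 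
(.lf (nat_lit 454397) (.g (nat_lit 1603) (.e (nat_lit 2640) (nat_lit 165) (.e (nat_lit 180278) (nat_lit 32) (.e (nat_lit 1428) (nat_lit 108) (.e (nat_lit 336432) (nat_lit 30) (.e (nat_lit 458496) (nat_lit 0) (.e (nat_lit 5546) (nat_lit 306) .nil)))))) (.g (nat_lit 1) (.e (nat_lit 34565) (nat_lit 0) .nil) .nil)))) (.nd (nat_lit 9) 
(.lf (nat_lit 454141) (.g (nat_lit 2715) (.e (nat_lit 2638) (nat_lit 165) (.e (nat_lit 180277) (nat_lit 32) (.e (nat_lit 1659) (nat_lit 115) (.e (nat_lit 393281) (nat_lit 23) (.e (nat_lit 426107) (nat_lit 1) (.e (nat_lit 164345) (nat_lit 240) .nil)))))) (.g (nat_lit 1) (.e (nat_lit 33840) (nat_lit 0) .nil) .nil))) 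
(.lf (nat_lit 454653) (.g (nat_lit 2836) (.e (nat_lit 2646) (nat_lit 166) (.e (nat_lit 188440) (nat_lit 20) (.e (nat_lit 3468) (nat_lit 217) (.e (nat_lit 696344) (nat_lit 8) (.e (nat_lit 172115) (nat_lit 10) (.e (nat_lit 434209) (nat_lit 18) (.e (nat_lit 6273) (nat_lit 337) .nil))))))) (.g (nat_lit 1) (.e (nat_lit 35918) (nat_lit 0) .nil) .nil))))))))))) 
(.nd (nat_lit 2) (.nd (nat_lit 3) (.nd (nat_lit 4) (.nd (nat_lit 5) (.nd (nat_lit 6) 
(.nd (nat_lit 7) (.nd (nat_lit 8) (.nd (nat_lit 9) 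
(.lf (nat_lit 453635) (.g (nat_lit 4589) (.e (nat_lit 2630) (nat_lit 164) (.e (nat_lit 172062) (nat_lit 2) (.e (nat_lit 196666) (nat_lit 13) (.e (nat_lit 65610) (nat_lit 10) (.e (nat_lit 344129) (nat_lit 26) (.e (nat_lit 557090) (nat_lit 12) (.e (nat_lit 163844) (nat_lit 0) (.e (nat_lit 6254) (nat_lit 337) .nil)))))))) (.g (nat_lit 1) (.e (nat_lit 30548) (nat_lit 0) .nil) .nil))) 
(.lf (nat_lit 454147) (.g (nat_lit 924) (.e (nat_lit 2638) (nat_lit 165) (.e (nat_lit 180277) (nat_lit 32) (.e (nat_lit 1660) (nat_lit 115) (.e (nat_lit 393281) (nat_lit 23) .nil)))) (.g (nat_lit 0) (.e (nat_lit 33850) (nat_lit 0) .nil) .nil)))) (.nd (nat_lit 9) 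
(.lf (nat_lit 453891) (.g (nat_lit 4310) (.e (nat_lit 2630) (nat_lit 164) (.e (nat_lit 172067) (nat_lit 3) (.e (nat_lit 204869) (nat_lit 29) (.e (nat_lit 360475) (nat_lit 8) (.e (nat_lit 557091) (nat_lit 12) (.e (nat_lit 163849) (nat_lit 0) (.e (nat_lit 6255) (nat_lit 337) .nil))))))) (.g (nat_lit 1) (.e (nat_lit 30935) (nat_lit 0) .nil) .nil))) 
(.lf (nat_lit 454403) (.g (nat_lit 2065) (.e (nat_lit 2640) (nat_lit 165) (.e (nat_lit 180278) (nat_lit 32) (.e (nat_lit 1428) (nat_lit 108) (.e (nat_lit 336443) (nat_lit 32) (.e (nat_lit 466971) (nat_lit 21) (.e (nat_lit 164345) (nat_lit 240) .nil)))))) (.g (nat_lit 1) (.e (nat_lit 34571) (nat_lit 0) .nil) .nil))))) (.nd (nat_lit 8) (.nd (nat_lit 9) 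
(.lf (nat_lit 453763) (.g (nat_lit 4357) (.e (nat_lit 2630) (nat_lit 164) (.e (nat_lit 172065) (nat_lit 3) (.e (nat_lit 204868) (nat_lit 29) (.e (nat_lit 360475) (nat_lit 8) (.e (nat_lit 557091) (nat_lit 12) (.e (nat_lit 163843) (nat_lit 0) (.e (nat_lit 6254) (nat_lit 337) .nil))))))) (.g (nat_lit 1) (.e (nat_lit 30743) (nat_lit 0) .nil) .nil))) 
(.lf (nat_lit 454275) (.g (nat_lit 2465) (.e (nat_lit 2639) (nat_lit 165) (.e (nat_lit 180278) (nat_lit 32) (.e (nat_lit 1426) (nat_lit 108) (.e (nat_lit 336430) (nat_lit 29) (.e (nat_lit 442419) (nat_lit 21) (.e (nat_lit 164346) (nat_lit 240) .nil)))))) (.g (nat_lit 1) (.e (nat_lit 34175) (nat_lit 0) .nil) .nil)))) (.nd (nat_lit 9) 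
(.lf (nat_lit 454019) (.g (nat_lit 2408) (.e (nat_lit 2630) (nat_lit 164) (.e (nat_lit 172126) (nat_lit 14) (.e (nat_lit 491549) (nat_lit 9) (.e (nat_lit 336432) (nat_lit 30) (.e (nat_lit 450569) (nat_lit 0) (.e (nat_lit 5447) (nat_lit 306) .nil)))))) (.g (nat_lit 1) (.e (nat_lit 32734) (nat_lit 0) .nil) .nil))) 
(.lf (nat_lit 454531) (.g (nat_lit 1851) (.e (nat_lit 2641) (nat_lit 165) (.e (nat_lit 188160) (nat_lit 32) (.e (nat_lit 1256) (nat_lit 92) (.e (nat_lit 98370) (nat_lit 28) (.e (nat_lit 442430) (nat_lit 24) (.e (nat_lit 237312) (nat_lit 134) .nil)))))) (.g (nat_lit 1) (.e (nat_lit 34878) (nat_lit 0) .nil) .nil)))))) (.nd (nat_lit 7) (.nd (nat_lit 8) (.nd (nat_lit 9) 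
(.lf (nat_lit 453699) (.g (nat_lit 1949) (.e (nat_lit 2630) (nat_lit 164) (.e (nat_lit 172064) (nat_lit 2) (.e (nat_lit 196666) (nat_lit 13) (.e (nat_lit 65617) (nat_lit 10) (.e (nat_lit 344127) (nat_lit 26) (.e (nat_lit 557089) (nat_lit 12) (.e (nat_lit 163844) (nat_lit 0) (.e (nat_lit 6254) (nat_lit 337) .nil)))))))) (.g (nat_lit 1) (.e (nat_lit 30627) (nat_lit 0) .nil) .nil))) 
(.lf (nat_lit 454211) (.g (nat_lit 1501) (.e (nat_lit 2638) (nat_lit 165) (.e (nat_lit 180278) (nat_lit 32) (.e (nat_lit 1660) (nat_lit 115) (.e (nat_lit 393281) (nat_lit 23) (.e (nat_lit 426106) (nat_lit 1) .nil))))) (.g (nat_lit 0) (.e (nat_lit 33963) (nat_lit 0) .nil) .nil)))) (.nd (nat_lit 9) 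
(.lf (nat_lit 453955) (.g (nat_lit 2283) (.e (nat_lit 2630) (nat_lit 164) (.e (nat_lit 172120) (nat_lit 12) (.e (nat_lit 475210) (nat_lit 41) (.e (nat_lit 712752) (nat_lit 29) (.e (nat_lit 442428) (nat_lit 24) (.e (nat_lit 229666) (nat_lit 240) .nil)))))) (.g (nat_lit 1) (.e (nat_lit 32264) (nat_lit 0) .nil) .nil))) 
(.lf (nat_lit 454467) (.g (nat_lit 3853) (.e (nat_lit 2641) (nat_lit 165) (.e (nat_lit 180244) (nat_lit 5) (.e (nat_lit 532550) (nat_lit 12) (.e (nat_lit 360474) (nat_lit 8) (.e (nat_lit 557094) (nat_lit 12) (.e (nat_lit 163849) (nat_lit 0) (.e (nat_lit 6252) (nat_lit 337) .nil))))))) (.g (nat_lit 1) (.e (nat_lit 34681) (nat_lit 0) .nil) .nil))))) (.nd (nat_lit 8) (.nd (nat_lit 9) 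
(.lf (nat_lit 453827) (.g (nat_lit 4115) (.e (nat_lit 2630) (nat_lit 164) (.e (nat_lit 172067) (nat_lit 3) (.e (nat_lit 204868) (nat_lit 29) (.e (nat_lit 360473) (nat_lit 8) (.e (nat_lit 557089) (nat_lit 12) (.e (nat_lit 163843) (nat_lit 0) (.e (nat_lit 6255) (nat_lit 337) .nil))))))) (.g (nat_lit 1) (.e (nat_lit 30856) (nat_lit 0) .nil) .nil))) 
(.lf (nat_lit 454339) (.g (nat_lit 1507) (.e (nat_lit 2640) (nat_lit 165) (.e (nat_lit 180277) (nat_lit 32) (.e (nat_lit 1428) (nat_lit 108) (.e (nat_lit 336430) (nat_lit 29) (.e (nat_lit 442421) (nat_lit 21) .nil))))) (.g (nat_lit 0) (.e (nat_lit 34490) (nat_lit 0) .nil) .nil)))) (.nd (nat_lit 9) 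
(.lf (nat_lit 454083) (.g (nat_lit 2417) (.e (nat_lit 2636) (nat_lit 165) (.e (nat_lit 180252) (nat_lit 10) (.e (nat_lit 573451) (nat_lit 9) (.e (nat_lit 1667) (nat_lit 116) .nil)))) (.g (nat_lit 0) (.e (nat_lit 33435) (nat_lit 0) .nil) .nil))) 
(.lf (nat_lit 454595) (.g (nat_lit 3866) (.e (nat_lit 2643) (nat_lit 165) (.e (nat_lit 180246) (nat_lit 6) (.e (nat_lit 540706) (nat_lit 12) (.e (nat_lit 360475) (nat_lit 8) (.e (nat_lit 557089) (nat_lit 12) (.e (nat_lit 163849) (nat_lit 0) (.e (nat_lit 6255) (nat_lit 337) .nil))))))) (.g (nat_lit 1) (.e (nat_lit 35107) (nat_lit 0) .nil) .nil))))))) 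
(.nd (nat_lit 6) (.nd (nat_lit 7) (.nd (nat_lit 8) (.nd (nat_lit 9) 
(.lf (nat_lit 453667) (.g (nat_lit 2752) (.e (nat_lit 2630) (nat_lit 164) (.e (nat_lit 172063) (nat_lit 2) (.e (nat_lit 196666) (nat_lit 13) (.e (nat_lit 65617) (nat_lit 10) (.e (nat_lit 344127) (nat_lit 26) (.e (nat_lit 557090) (nat_lit 12) (.e (nat_lit 163843) (nat_lit 0) (.e (nat_lit 6254) (nat_lit 337) .nil)))))))) (.g (nat_lit 1) (.e (nat_lit 30580) (nat_lit 0) .nil) .nil))) 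
(.lf (nat_lit 454179) (.g (nat_lit 3076) (.e (nat_lit 2638) (nat_lit 165) (.e (nat_lit 180278) (nat_lit 32) (.e (nat_lit 1428) (nat_lit 108) (.e (nat_lit 336443) (nat_lit 32) (.e (nat_lit 466971) (nat_lit 21) (.e (nat_lit 164345) (nat_lit 240) .nil)))))) (.g (nat_lit 1) (.e (nat_lit 33926) (nat_lit 0) .nil) .nil)))) (.nd (nat_lit 9) 
(.lf (nat_lit 453923) (.g (nat_lit 2762) (.e (nat_lit 2630) (nat_lit 164) (.e (nat_lit 172118) (nat_lit 12) (.e (nat_lit 475210) (nat_lit 41) (.e (nat_lit 712752) (nat_lit 29) (.e (nat_lit 442430) (nat_lit 24) (.e (nat_lit 229664) (nat_lit 240) .nil)))))) (.g (nat_lit 1) (.e (nat_lit 32215) (nat_lit 0) .nil) .nil))) 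
(.lf (nat_lit 454435) (.g (nat_lit 1959) (.e (nat_lit 2640) (nat_lit 165) (.e (nat_lit 180278) (nat_lit 32) (.e (nat_lit 1661) (nat_lit 115) (.e (nat_lit 393275) (nat_lit 23) (.e (nat_lit 426109) (nat_lit 1) (.e (nat_lit 164347) (nat_lit 240) .nil)))))) (.g (nat_lit 1) (.e (nat_lit 34607) (nat_lit 0) .nil) .nil))))) (.nd (nat_lit 8) (.nd (nat_lit 9) 
(.lf (nat_lit 453795) (.g (nat_lit 2154) (.e (nat_lit 2630) (nat_lit 164) (.e (nat_lit 172066) (nat_lit 3) (.e (nat_lit 204869) (nat_lit 29) (.e (nat_lit 360474) (nat_lit 8) (.e (nat_lit 557093) (nat_lit 12) (.e (nat_lit 163847) (nat_lit 0) (.e (nat_lit 6252) (nat_lit 337) .nil))))))) (.g (nat_lit 1) (.e (nat_lit 30776) (nat_lit 0) .nil) .nil))) 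
(.lf (nat_lit 454307) (.g (nat_lit 1569) (.e (nat_lit 2639) (nat_lit 165) (.e (nat_lit 180278) (nat_lit 32) (.e (nat_lit 1660) (nat_lit 115) (.e (nat_lit 393281) (nat_lit 23) (.e (nat_lit 426098) (nat_lit 1) (.e (nat_lit 164345) (nat_lit 240) .nil)))))) (.g (nat_lit 1) (.e (nat_lit 34214) (nat_lit 0) .nil) .nil)))) (.nd (nat_lit 9) 
(.lf (nat_lit 454051) (.g (nat_lit 2785) (.e (nat_lit 2633) (nat_lit 164) (.e (nat_lit 172065) (nat_lit 3) (.e (nat_lit 204869) (nat_lit 29) (.e (nat_lit 360475) (nat_lit 8) (.e (nat_lit 557091) (nat_lit 12) (.e (nat_lit 163850) (nat_lit 0) (.e (nat_lit 6273) (nat_lit 337) .nil))))))) (.g (nat_lit 1) (.e (nat_lit 33061) (nat_lit 0) .nil) .nil))) 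
(.lf (nat_lit 454563) (.g (nat_lit 2630) (.e (nat_lit 2643) (nat_lit 165) (.e (nat_lit 180243) (nat_lit 5) (.e (nat_lit 532549) (nat_lit 12) (.e (nat_lit 360475) (nat_lit 8) (.e (nat_lit 557091) (nat_lit 12) .nil))))) (.g (nat_lit 0) (.e (nat_lit 35053) (nat_lit 0) .nil) .nil)))))) (.nd (nat_lit 7) (.nd (nat_lit 8) (.nd (nat_lit 9) 
(.lf (nat_lit 453731) (.g (nat_lit 4882) (.e (nat_lit 2630) (nat_lit 164) (.e (nat_lit 172064) (nat_lit 2) (.e (nat_lit 196666) (nat_lit 13) (.e (nat_lit 65617) (nat_lit 10) (.e (nat_lit 344133) (nat_lit 26) (.e (nat_lit 557089) (nat_lit 12) (.e (nat_lit 163844) (nat_lit 0) (.e (nat_lit 6255) (nat_lit 337) .nil)))))))) (.g (nat_lit 1) (.e (nat_lit 30659) (nat_lit 0) .nil) .nil))) 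
(.lf (nat_lit 454243) (.g (nat_lit 288) (.e (nat_lit 2639) (nat_lit 165) (.e (nat_lit 180277) (nat_lit 32) (.e (nat_lit 1427) (nat_lit 108) .nil))) (.g (nat_lit 0) (.e (nat_lit 34105) (nat_lit 0) .nil) .nil)))) (.nd (nat_lit 9) 
(.lf (nat_lit 453987) (.g (nat_lit 2419) (.e (nat_lit 2630) (nat_lit 164) (.e (nat_lit 172124) (nat_lit 14) (.e (nat_lit 491549) (nat_lit 9) (.e (nat_lit 336434) (nat_lit 30) (.e (nat_lit 450567) (nat_lit 0) (.e (nat_lit 5443) (nat_lit 306) .nil)))))) (.g (nat_lit 1) (.e (nat_lit 32554) (nat_lit 0) .nil) .nil))) 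
(.lf (nat_lit 454499) (.g (nat_lit 2526) (.e (nat_lit 2641) (nat_lit 165) (.e (nat_lit 180277) (nat_lit 32) (.e (nat_lit 1427) (nat_lit 108) (.e (nat_lit 336430) (nat_lit 29) (.e (nat_lit 442428) (nat_lit 24) (.e (nat_lit 229665) (nat_lit 240) .nil)))))) (.g (nat_lit 1) (.e (nat_lit 34785) (nat_lit 0) .nil) .nil))))) (.nd (nat_lit 8) (.nd (nat_lit 9) 
(.lf (nat_lit 453859) (.g (nat_lit 3264) (.e (nat_lit 2630) (nat_lit 164) (.e (nat_lit 172067) (nat_lit 3) (.e (nat_lit 204869) (nat_lit 29) (.e (nat_lit 360474) (nat_lit 8) (.e (nat_lit 557093) (nat_lit 12) (.e (nat_lit 163847) (nat_lit 0) (.e (nat_lit 6254) (nat_lit 337) .nil))))))) (.g (nat_lit 1) (.e (nat_lit 30903) (nat_lit 0) .nil) .nil))) 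
(.lf (nat_lit 454371) (.g (nat_lit 2621) (.e (nat_lit 2640) (nat_lit 165) (.e (nat_lit 180277) (nat_lit 32) (.e (nat_lit 1660) (nat_lit 115) (.e (nat_lit 393282) (nat_lit 24) (.e (nat_lit 434209) (nat_lit 18) (.e (nat_lit 5547) (nat_lit 306) .nil)))))) (.g (nat_lit 1) (.e (nat_lit 34523) (nat_lit 0) .nil) .nil)))) (.nd (nat_lit 9) 
(.lf (nat_lit 454115) (.g (nat_lit 3362) (.e (nat_lit 2638) (nat_lit 165) (.e (nat_lit 180277) (nat_lit 32) (.e (nat_lit 1427) (nat_lit 108) (.e (nat_lit 336443) (nat_lit 32) (.e (nat_lit 466969) (nat_lit 21) (.e (nat_lit 164345) (nat_lit 240) .nil)))))) (.g (nat_lit 1) (.e (nat_lit 33813) (nat_lit 0) .nil) .nil))) 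
(.lf (nat_lit 454627) (.g (nat_lit 1952) (.e (nat_lit 2643) (nat_lit 165) (.e (nat_lit 180277) (nat_lit 32) (.e (nat_lit 1428) (nat_lit 108) (.e (nat_lit 336430) (nat_lit 29) (.e (nat_lit 442428) (nat_lit 24) (.e (nat_lit 229664) (nat_lit 240) .nil)))))) (.g (nat_lit 1) (.e (nat_lit 35331) (nat_lit 0) .nil) .nil)))))))) 
(.nd (nat_lit 5) (.nd (nat_lit 6) (.nd (nat_lit 7) (.nd (nat_lit 8) (.nd (nat_lit 9) 
(.lf (nat_lit 453651) (.g (nat_lit 2134) (.e (nat_lit 2630) (nat_lit 164) (.e (nat_lit 172062) (nat_lit 2) (.e (nat_lit 196666) (nat_lit 13) (.e (nat_lit 65617) (nat_lit 10) (.e (nat_lit 344130) (nat_lit 26) (.e (nat_lit 557090) (nat_lit 12) (.e (nat_lit 163840) (nat_lit 0) (.e (nat_lit 6255) (nat_lit 337) .nil)))))))) (.g (nat_lit 1) (.e (nat_lit 30564) (nat_lit 0) .nil) .nil))) 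
(.lf (nat_lit 454163) (.g (nat_lit 2515) (.e (nat_lit 2638) (nat_lit 165) (.e (nat_lit 180278) (nat_lit 32) (.e (nat_lit 1253) (nat_lit 92) (.e (nat_lit 98373) (nat_lit 29) (.e (nat_lit 458496) (nat_lit 0) (.e (nat_lit 3988) (nat_lit 239) .nil)))))) (.g (nat_lit 1) (.e (nat_lit 33897) (nat_lit 0) .nil) .nil)))) (.nd (nat_lit 9) 
(.lf (nat_lit 453907) (.g (nat_lit 4401) (.e (nat_lit 2630) (nat_lit 164) (.e (nat_lit 172106) (nat_lit 10) (.e (nat_lit 434272) (nat_lit 38) (.e (nat_lit 655380) (nat_lit 6) (.e (nat_lit 188455) (nat_lit 24) (.e (nat_lit 229663) (nat_lit 240) .nil)))))) (.g (nat_lit 1) (.e (nat_lit 31872) (nat_lit 0) .nil) .nil))) 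
(.lf (nat_lit 454419) (.g (nat_lit 2647) (.e (nat_lit 2640) (nat_lit 165) (.e (nat_lit 180278) (nat_lit 32) (.e (nat_lit 1659) (nat_lit 115) (.e (nat_lit 393282) (nat_lit 24) (.e (nat_lit 434209) (nat_lit 18) (.e (nat_lit 5547) (nat_lit 306) .nil)))))) (.g (nat_lit 1) (.e (nat_lit 34587) (nat_lit 0) .nil) .nil))))) (.nd (nat_lit 8) (.nd (nat_lit 9) 
(.lf (nat_lit 453779) (.g (nat_lit 3769) (.e (nat_lit 2630) (nat_lit 164) (.e (nat_lit 172065) (nat_lit 3) (.e (nat_lit 204869) (nat_lit 29) (.e (nat_lit 360475) (nat_lit 8) (.e (nat_lit 557089) (nat_lit 12) (.e (nat_lit 163849) (nat_lit 0) (.e (nat_lit 6252) (nat_lit 337) .nil))))))) (.g (nat_lit 1) (.e (nat_lit 30760) (nat_lit 0) .nil) .nil))) 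
(.lf (nat_lit 454291) (.g (nat_lit 1051) (.e (nat_lit 2639) (nat_lit 165) (.e (nat_lit 180278) (nat_lit 32) (.e (nat_lit 1658) (nat_lit 115) (.e (nat_lit 393275) (nat_lit 23) (.e (nat_lit 426109) (nat_lit 1) .nil))))) (.g (nat_lit 0) (.e (nat_lit 34196) (nat_lit 0) .nil) .nil)))) (.nd (nat_lit 9) 
(.lf (nat_lit 454035) (.g (nat_lit 2427) (.e (nat_lit 2630) (nat_lit 164) (.e (nat_lit 172138) (nat_lit 15) (.e (nat_lit 1800) (nat_lit 119) (.e (nat_lit 516149) (nat_lit 9) (.e (nat_lit 426323) (nat_lit 13) (.e (nat_lit 483364) (nat_lit 18) (.e (nat_lit 57663) (nat_lit 152) .nil))))))) (.g (nat_lit 1) (.e (nat_lit 32929) (nat_lit 0) .nil) .nil))) 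
(.lf (nat_lit 454547) (.g (nat_lit 2455) (.e (nat_lit 2643) (nat_lit 165) (.e (nat_lit 180243) (nat_lit 5) (.e (nat_lit 532549) (nat_lit 12) (.e (nat_lit 360473) (nat_lit 8) (.e (nat_lit 557093) (nat_lit 12) .nil))))) (.g (nat_lit 0) (.e (nat_lit 35029) (nat_lit 0) .nil) .nil)))))) (.nd (nat_lit 7) (.nd (nat_lit 8) (.nd (nat_lit 9) 
(.lf (nat_lit 453715) (.g (nat_lit 2454) (.e (nat_lit 2630) (nat_lit 164) (.e (nat_lit 172064) (nat_lit 2) (.e (nat_lit 196666) (nat_lit 13) (.e (nat_lit 65617) (nat_lit 10) (.e (nat_lit 344130) (nat_lit 26) (.e (nat_lit 557090) (nat_lit 12) (.e (nat_lit 163840) (nat_lit 0) (.e (nat_lit 6255) (nat_lit 337) .nil)))))))) (.g (nat_lit 1) (.e (nat_lit 30643) (nat_lit 0) .nil) .nil))) 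
(.lf (nat_lit 454227) (.g (nat_lit 2632) (.e (nat_lit 2638) (nat_lit 165) (.e (nat_lit 180278) (nat_lit 32) (.e (nat_lit 1661) (nat_lit 115) (.e (nat_lit 393284) (nat_lit 24) (.e (nat_lit 434209) (nat_lit 18) (.e (nat_lit 5547) (nat_lit 306) .nil)))))) (.g (nat_lit 1) (.e (nat_lit 34005) (nat_lit 0) .nil) .nil)))) (.nd (nat_lit 9) 
(.lf (nat_lit 453971) (.g (nat_lit 2267) (.e (nat_lit 2630) (nat_lit 164) (.e (nat_lit 172120) (nat_lit 12) (.e (nat_lit 475211) (nat_lit 41) (.e (nat_lit 712755) (nat_lit 30) (.e (nat_lit 450563) (nat_lit 0) (.e (nat_lit 7936) (nat_lit 306) .nil)))))) (.g (nat_lit 1) (.e (nat_lit 32299) (nat_lit 0) .nil) .nil))) 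
(.lf (nat_lit 454483) (.g (nat_lit 4188) (.e (nat_lit 2641) (nat_lit 165) (.e (nat_lit 180244) (nat_lit 5) (.e (nat_lit 532550) (nat_lit 12) (.e (nat_lit 360475) (nat_lit 8) (.e (nat_lit 557091) (nat_lit 12) (.e (nat_lit 163844) (nat_lit 0) (.e (nat_lit 6250) (nat_lit 337) .nil))))))) (.g (nat_lit 1) (.e (nat_lit 34697) (nat_lit 0) .nil) .nil))))) (.nd (nat_lit 8) (.nd (nat_lit 9) 
(.lf (nat_lit 453843) (.g (nat_lit 1998) (.e (nat_lit 2630) (nat_lit 164) (.e (nat_lit 172067) (nat_lit 3) (.e (nat_lit 204868) (nat_lit 29) (.e (nat_lit 360473) (nat_lit 8) (.e (nat_lit 557094) (nat_lit 12) (.e (nat_lit 163848) (nat_lit 0) (.e (nat_lit 6255) (nat_lit 337) .nil))))))) (.g (nat_lit 1) (.e (nat_lit 30882) (nat_lit 0) .nil) .nil))) 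
(.lf (nat_lit 454355) (.g (nat_lit 2673) (.e (nat_lit 2640) (nat_lit 165) (.e (nat_lit 180277) (nat_lit 32) (.e (nat_lit 1659) (nat_lit 115) (.e (nat_lit 393281) (nat_lit 23) (.e (nat_lit 426100) (nat_lit 1) (.e (nat_lit 164345) (nat_lit 240) .nil)))))) (.g (nat_lit 1) (.e (nat_lit 34506) (nat_lit 0) .nil) .nil)))) (.nd (nat_lit 9) 
(.lf (nat_lit 454099) (.g (nat_lit 4027) (.e (nat_lit 2638) (nat_lit 165) (.e (nat_lit 180277) (nat_lit 32) (.e (nat_lit 1253) (nat_lit 92) (.e (nat_lit 98373) (nat_lit 29) (.e (nat_lit 450560) (nat_lit 0) (.e (nat_lit 3988) (nat_lit 239) .nil)))))) (.g (nat_lit 1) (.e (nat_lit 33793) (nat_lit 0) .nil) .nil))) 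
(.lf (nat_lit 454611) (.g (nat_lit 593) (.e (nat_lit 2643) (nat_lit 165) (.e (nat_lit 180277) (nat_lit 32) (.e (nat_lit 1426) (nat_lit 108) (.e (nat_lit 336426) (nat_lit 29) .nil)))) (.g (nat_lit 0) (.e (nat_lit 35306) (nat_lit 0) .nil) .nil))))))) (.nd (nat_lit 6) (.nd (nat_lit 7) (.nd (nat_lit 8) (.nd (nat_lit 9) 
(.lf (nat_lit 453683) (.g (nat_lit 2615) (.e (nat_lit 2630) (nat_lit 164) (.e (nat_lit 172063) (nat_lit 2) (.e (nat_lit 196666) (nat_lit 13) (.e (nat_lit 65617) (nat_lit 10) (.e (nat_lit 344133) (nat_lit 26) (.e (nat_lit 557091) (nat_lit 12) (.e (nat_lit 163844) (nat_lit 0) (.e (nat_lit 6254) (nat_lit 337) .nil)))))))) (.g (nat_lit 1) (.e (nat_lit 30596) (nat_lit 0) .nil) .nil))) 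
(.lf (nat_lit 454195) (.g (nat_lit 1834) (.e (nat_lit 2638) (nat_lit 165) (.e (nat_lit 180278) (nat_lit 32) (.e (nat_lit 1659) (nat_lit 115) (.e (nat_lit 393280) (nat_lit 23) (.e (nat_lit 426107) (nat_lit 1) (.e (nat_lit 164347) (nat_lit 240) .nil)))))) (.g (nat_lit 1) (.e (nat_lit 33943) (nat_lit 0) .nil) .nil)))) (.nd (nat_lit 9) 
(.lf (nat_lit 453939) (.g (nat_lit 3239) (.e (nat_lit 2630) (nat_lit 164) (.e (nat_lit 172120) (nat_lit 12) (.e (nat_lit 475198) (nat_lit 40) (.e (nat_lit 704598) (nat_lit 6) (.e (nat_lit 188453) (nat_lit 24) (.e (nat_lit 229664) (nat_lit 240) .nil)))))) (.g (nat_lit 1) (.e (nat_lit 32237) (nat_lit 0) .nil) .nil))) 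
(.lf (nat_lit 454451) (.g (nat_lit 2427) (.e (nat_lit 2641) (nat_lit 165) (.e (nat_lit 180244) (nat_lit 5) (.e (nat_lit 532549) (nat_lit 12) (.e (nat_lit 360473) (nat_lit 8) (.e (nat_lit 557094) (nat_lit 12) .nil))))) (.g (nat_lit 0) (.e (nat_lit 34664) (nat_lit 0) .nil) .nil))))) (.nd (nat_lit 8) (.nd (nat_lit 9) 
(.lf (nat_lit 453811) (.g (nat_lit 3294) (.e (nat_lit 2630) (nat_lit 164) (.e (nat_lit 172066) (nat_lit 3) (.e (nat_lit 204869) (nat_lit 29) (.e (nat_lit 360475) (nat_lit 8) (.e (nat_lit 557091) (nat_lit 12) (.e (nat_lit 163840) (nat_lit 0) (.e (nat_lit 6255) (nat_lit 337) .nil))))))) (.g (nat_lit 1) (.e (nat_lit 30792) (nat_lit 0) .nil) .nil))) 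
(.lf (nat_lit 454323) (.g (nat_lit 906) (.e (nat_lit 2640) (nat_lit 165) (.e (nat_lit 180277) (nat_lit 32) (.e (nat_lit 1426) (nat_lit 108) (.e (nat_lit 336432) (nat_lit 30) (.e (nat_lit 458496) (nat_lit 0) .nil))))) (.g (nat_lit 0) (.e (nat_lit 34471) (nat_lit 0) .nil) .nil)))) (.nd (nat_lit 9) 
(.lf (nat_lit 454067) (.g (nat_lit 4337) (.e (nat_lit 2635) (nat_lit 165) (.e (nat_lit 180277) (nat_lit 32) (.e (nat_lit 1253) (nat_lit 92) (.e (nat_lit 98373) (nat_lit 29) (.e (nat_lit 450563) (nat_lit 0) (.e (nat_lit 3919) (nat_lit 239) .nil)))))) (.g (nat_lit 1) (.e (nat_lit 33221) (nat_lit 0) .nil) .nil))) 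
(.lf (nat_lit 454579) (.g (nat_lit 3995) (.e (nat_lit 2643) (nat_lit 165) (.e (nat_lit 180243) (nat_lit 5) (.e (nat_lit 532550) (nat_lit 12) (.e (nat_lit 360475) (nat_lit 8) (.e (nat_lit 557089) (nat_lit 12) (.e (nat_lit 163844) (nat_lit 0) (.e (nat_lit 6254) (nat_lit 337) .nil))))))) (.g (nat_lit 1) (.e (nat_lit 35071) (nat_lit 0) .nil) .nil)))))) 
(.nd (nat_lit 7) (.nd (nat_lit 8) (.nd (nat_lit 9) 
(.lf (nat_lit 453747) (.g (nat_lit 4016) (.e (nat_lit 2630) (nat_lit 164) (.e (nat_lit 172065) (nat_lit 3) (.e (nat_lit 204852) (nat_lit 26) (.e (nat_lit 336310) (nat_lit 16) (.e (nat_lit 164183) (nat_lit 154) (.e (nat_lit 57378) (nat_lit 3) (.e (nat_lit 98335) (nat_lit 18) (.e (nat_lit 164305) (nat_lit 226) .nil)))))))) (.g (nat_lit 1) (.e (nat_lit 30675) (nat_lit 0) .nil) .nil))) 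
(.lf (nat_lit 454259) (.g (nat_lit 2147) (.e (nat_lit 2639) (nat_lit 165) (.e (nat_lit 180277) (nat_lit 32) (.e (nat_lit 1659) (nat_lit 115) (.e (nat_lit 393266) (nat_lit 23) (.e (nat_lit 426109) (nat_lit 1) (.e (nat_lit 164345) (nat_lit 240) .nil)))))) (.g (nat_lit 1) (.e (nat_lit 34128) (nat_lit 0) .nil) .nil)))) (.nd (nat_lit 9) 
(.lf (nat_lit 454003) (.g (nat_lit 1627) (.e (nat_lit 2630) (nat_lit 164) (.e (nat_lit 172126) (nat_lit 14) (.e (nat_lit 491547) (nat_lit 9) (.e (nat_lit 336430) (nat_lit 29) .nil)))) (.g (nat_lit 0) (.e (nat_lit 32703) (nat_lit 0) .nil) .nil))) 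
(.lf (nat_lit 454515) (.g (nat_lit 617) (.e (nat_lit 2641) (nat_lit 165) (.e (nat_lit 180278) (nat_lit 32) (.e (nat_lit 1413) (nat_lit 108) .nil))) (.g (nat_lit 0) (.e (nat_lit 34808) (nat_lit 0) .nil) .nil))))) (.nd (nat_lit 8) (.nd (nat_lit 9) 
(.lf (nat_lit 453875) (.g (nat_lit 4988) (.e (nat_lit 2630) (nat_lit 164) (.e (nat_lit 172067) (nat_lit 3) (.e (nat_lit 204869) (nat_lit 29) (.e (nat_lit 360475) (nat_lit 8) (.e (nat_lit 557089) (nat_lit 12) (.e (nat_lit 163844) (nat_lit 0) (.e (nat_lit 6255) (nat_lit 337) .nil))))))) (.g (nat_lit 1) (.e (nat_lit 30919) (nat_lit 0) .nil) .nil))) 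
(.lf (nat_lit 454387) (.g (nat_lit 896) (.e (nat_lit 2640) (nat_lit 165) (.e (nat_lit 180278) (nat_lit 32) (.e (nat_lit 1426) (nat_lit 108) (.e (nat_lit 336434) (nat_lit 30) (.e (nat_lit 458496) (nat_lit 0) .nil))))) (.g (nat_lit 0) (.e (nat_lit 34552) (nat_lit 0) .nil) .nil)))) (.nd (nat_lit 9) 
(.lf (nat_lit 454131) (.g (nat_lit 1916) (.e (nat_lit 2638) (nat_lit 165) (.e (nat_lit 180277) (nat_lit 32) (.e (nat_lit 1658) (nat_lit 115) (.e (nat_lit 393266) (nat_lit 23) (.e (nat_lit 426109) (nat_lit 1) (.e (nat_lit 164346) (nat_lit 240) .nil)))))) (.g (nat_lit 1) (.e (nat_lit 33830) (nat_lit 0) .nil) .nil))) 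
(.lf (nat_lit 454643) (.g (nat_lit 3681) (.e (nat_lit 2645) (nat_lit 166) (.e (nat_lit 188434) (nat_lit 20) (.e (nat_lit 3469) (nat_lit 217) (.e (nat_lit 696344) (nat_lit 8) (.e (nat_lit 172106) (nat_lit 10) (.e (nat_lit 434209) (nat_lit 18) (.e (nat_lit 6272) (nat_lit 337) .nil))))))) (.g (nat_lit 1) (.e (nat_lit 35661) (nat_lit 0) .nil) .nil))))))))) 
(.nd (nat_lit 4) (.nd (nat_lit 5) (.nd (nat_lit 6) (.nd (nat_lit 7) (.nd (nat_lit 8) 
(.nd (nat_lit 9) 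
(.lf (nat_lit 453643) (.g (nat_lit 5174) (.e (nat_lit 2630) (nat_lit 164) (.e (nat_lit 172062) (nat_lit 2) (.e (nat_lit 196666) (nat_lit 13) (.e (nat_lit 65617) (nat_lit 10) (.e (nat_lit 344127) (nat_lit 26) (.e (nat_lit 557090) (nat_lit 12) (.e (nat_lit 163843) (nat_lit 0) (.e (nat_lit 6255) (nat_lit 337) .nil)))))))) (.g (nat_lit 1) (.e (nat_lit 30556) (nat_lit 0) .nil) .nil))) 
(.lf (nat_lit 454155) (.g (nat_lit 1168) (.e (nat_lit 2638) (nat_lit 165) (.e (nat_lit 180277) (nat_lit 32) (.e (nat_lit 1661) (nat_lit 115) (.e (nat_lit 393284) (nat_lit 24) .nil)))) (.g (nat_lit 0) (.e (nat_lit 33885) (nat_lit 0) .nil) .nil)))) (.nd (nat_lit 9) 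
(.lf (nat_lit 453899) (.g (nat_lit 3673) (.e (nat_lit 2630) (nat_lit 164) (.e (nat_lit 172106) (nat_lit 10) (.e (nat_lit 434271) (nat_lit 38) (.e (nat_lit 655380) (nat_lit 6) (.e (nat_lit 188453) (nat_lit 24) (.e (nat_lit 229665) (nat_lit 240) .nil)))))) (.g (nat_lit 1) (.e (nat_lit 31804) (nat_lit 0) .nil) .nil))) 
(.lf (nat_lit 454411) (.g (nat_lit 1170) (.e (nat_lit 2640) (nat_lit 165) (.e (nat_lit 180278) (nat_lit 32) (.e (nat_lit 1659) (nat_lit 115) (.e (nat_lit 393277) (nat_lit 23) .nil)))) (.g (nat_lit 0) (.e (nat_lit 34579) (nat_lit 0) .nil) .nil))))) (.nd (nat_lit 8) (.nd (nat_lit 9) 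
(.lf (nat_lit 453771) (.g (nat_lit 2129) (.e (nat_lit 2630) (nat_lit 164) (.e (nat_lit 172065) (nat_lit 3) (.e (nat_lit 204869) (nat_lit 29) (.e (nat_lit 360474) (nat_lit 8) (.e (nat_lit 557094) (nat_lit 12) .nil))))) (.g (nat_lit 0) (.e (nat_lit 30752) (nat_lit 0) .nil) .nil))) 
(.lf (nat_lit 454283) (.g (nat_lit 1749) (.e (nat_lit 2639) (nat_lit 165) (.e (nat_lit 180278) (nat_lit 32) (.e (nat_lit 1428) (nat_lit 108) (.e (nat_lit 336430) (nat_lit 29) (.e (nat_lit 442421) (nat_lit 21) .nil))))) (.g (nat_lit 0) (.e (nat_lit 34188) (nat_lit 0) .nil) .nil)))) (.nd (nat_lit 9) 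
(.lf (nat_lit 454027) (.g (nat_lit 1797) (.e (nat_lit 2630) (nat_lit 164) (.e (nat_lit 172126) (nat_lit 14) (.e (nat_lit 491550) (nat_lit 9) (.e (nat_lit 336430) (nat_lit 29) (.e (nat_lit 442429) (nat_lit 24) (.e (nat_lit 229666) (nat_lit 240) .nil)))))) (.g (nat_lit 1) (.e (nat_lit 32744) (nat_lit 0) .nil) .nil))) 
(.lf (nat_lit 454539) (.g (nat_lit 4557) (.e (nat_lit 2643) (nat_lit 165) (.e (nat_lit 180243) (nat_lit 5) (.e (nat_lit 532549) (nat_lit 12) (.e (nat_lit 360473) (nat_lit 8) (.e (nat_lit 557089) (nat_lit 12) (.e (nat_lit 163844) (nat_lit 0) (.e (nat_lit 6255) (nat_lit 337) .nil))))))) (.g (nat_lit 1) (.e (nat_lit 35019) (nat_lit 0) .nil) .nil)))))) 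
(.nd (nat_lit 7) (.nd (nat_lit 8) (.nd (nat_lit 9) 
(.lf (nat_lit 453707) (.g (nat_lit 5295) (.e (nat_lit 2630) (nat_lit 164) (.e (nat_lit 172064) (nat_lit 2) (.e (nat_lit 196666) (nat_lit 13) (.e (nat_lit 65617) (nat_lit 10) (.e (nat_lit 344127) (nat_lit 26) (.e (nat_lit 557090) (nat_lit 12) (.e (nat_lit 163844) (nat_lit 0) (.e (nat_lit 6255) (nat_lit 337) .nil)))))))) (.g (nat_lit 1) (.e (nat_lit 30635) (nat_lit 0) .nil) .nil))) 
(.lf (nat_lit 454219) (.g (nat_lit 2700) (.e (nat_lit 2638) (nat_lit 165) (.e (nat_lit 180278) (nat_lit 32) (.e (nat_lit 1661) (nat_lit 115) (.e (nat_lit 393280) (nat_lit 23) (.e (nat_lit 426107) (nat_lit 1) (.e (nat_lit 164347) (nat_lit 240) .nil)))))) (.g (nat_lit 1) (.e (nat_lit 33991) (nat_lit 0) .nil) .nil)))) (.nd (nat_lit 9) 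
(.lf (nat_lit 453963) (.g (nat_lit 3477) (.e (nat_lit 2630) (nat_lit 164) (.e (nat_lit 172120) (nat_lit 12) (.e (nat_lit 475211) (nat_lit 41) (.e (nat_lit 712750) (nat_lit 29) (.e (nat_lit 442430) (nat_lit 24) (.e (nat_lit 229664) (nat_lit 240) .nil)))))) (.g (nat_lit 1) (.e (nat_lit 32286) (nat_lit 0) .nil) .nil))) 
(.lf (nat_lit 454475) (.g (nat_lit 3543) (.e (nat_lit 2641) (nat_lit 165) (.e (nat_lit 180244) (nat_lit 5) (.e (nat_lit 532550) (nat_lit 12) (.e (nat_lit 360475) (nat_lit 8) (.e (nat_lit 557089) (nat_lit 12) (.e (nat_lit 163848) (nat_lit 0) (.e (nat_lit 6255) (nat_lit 337) .nil))))))) (.g (nat_lit 1) (.e (nat_lit 34689) (nat_lit 0) .nil) .nil))))) (.nd (nat_lit 8) (.nd (nat_lit 9) 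
(.lf (nat_lit 453835) (.g (nat_lit 3845) (.e (nat_lit 2630) (nat_lit 164) (.e (nat_lit 172067) (nat_lit 3) (.e (nat_lit 204868) (nat_lit 29) (.e (nat_lit 360473) (nat_lit 8) (.e (nat_lit 557091) (nat_lit 12) (.e (nat_lit 163844) (nat_lit 0) (.e (nat_lit 6254) (nat_lit 337) .nil))))))) (.g (nat_lit 1) (.e (nat_lit 30870) (nat_lit 0) .nil) .nil))) 
(.lf (nat_lit 454347) (.g (nat_lit 368) (.e (nat_lit 2640) (nat_lit 165) (.e (nat_lit 180277) (nat_lit 32) (.e (nat_lit 1659) (nat_lit 115) .nil))) (.g (nat_lit 0) (.e (nat_lit 34498) (nat_lit 0) .nil) .nil)))) (.nd (nat_lit 9) 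
(.lf (nat_lit 454091) (.g (nat_lit 1360) (.e (nat_lit 2637) (nat_lit 165) (.e (nat_lit 180252) (nat_lit 10) (.e (nat_lit 573452) (nat_lit 9) (.e (nat_lit 1667) (nat_lit 116) .nil)))) (.g (nat_lit 0) (.e (nat_lit 33557) (nat_lit 0) .nil) .nil))) 
(.lf (nat_lit 454603) (.g (nat_lit 1724) (.e (nat_lit 2643) (nat_lit 165) (.e (nat_lit 188160) (nat_lit 27) (.e (nat_lit 712753) (nat_lit 30) (.e (nat_lit 450579) (nat_lit 5) (.e (nat_lit 532501) (nat_lit 1) (.e (nat_lit 57651) (nat_lit 152) .nil)))))) (.g (nat_lit 1) (.e (nat_lit 35293) (nat_lit 0) .nil) .nil))))))) (.nd (nat_lit 6) (.nd (nat_lit 7) (.nd (nat_lit 8) (.nd (nat_lit 9) 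
(.lf (nat_lit 453675) (.g (nat_lit 2546) (.e (nat_lit 2630) (nat_lit 164) (.e (nat_lit 172063) (nat_lit 2) (.e (nat_lit 196666) (nat_lit 13) (.e (nat_lit 65617) (nat_lit 10) (.e (nat_lit 344130) (nat_lit 26) (.e (nat_lit 557090) (nat_lit 12) (.e (nat_lit 163847) (nat_lit 0) (.e (nat_lit 6254) (nat_lit 337) .nil)))))))) (.g (nat_lit 1) (.e (nat_lit 30588) (nat_lit 0) .nil) .nil))) 
(.lf (nat_lit 454187) (.g (nat_lit 1322) (.e (nat_lit 2638) (nat_lit 165) (.e (nat_lit 180278) (nat_lit 32) (.e (nat_lit 1658) (nat_lit 115) (.e (nat_lit 393275) (nat_lit 23) (.e (nat_lit 426109) (nat_lit 1) (.e (nat_lit 164346) (nat_lit 240) .nil)))))) (.g (nat_lit 1) (.e (nat_lit 33934) (nat_lit 0) .nil) .nil)))) (.nd (nat_lit 9) 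
(.lf (nat_lit 453931) (.g (nat_lit 2440) (.e (nat_lit 2630) (nat_lit 164) (.e (nat_lit 172118) (nat_lit 12) (.e (nat_lit 475211) (nat_lit 41) (.e (nat_lit 712752) (nat_lit 29) (.e (nat_lit 442430) (nat_lit 24) (.e (nat_lit 229664) (nat_lit 240) .nil)))))) (.g (nat_lit 1) (.e (nat_lit 32226) (nat_lit 0) .nil) .nil))) 
(.lf (nat_lit 454443) (.g (nat_lit 1407) (.e (nat_lit 2640) (nat_lit 165) (.e (nat_lit 180278) (nat_lit 32) (.e (nat_lit 1661) (nat_lit 115) (.e (nat_lit 393285) (nat_lit 25) .nil)))) (.g (nat_lit 0) (.e (nat_lit 34616) (nat_lit 0) .nil) .nil))))) (.nd (nat_lit 8) (.nd (nat_lit 9) 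
(.lf (nat_lit 453803) (.g (nat_lit 4546) (.e (nat_lit 2630) (nat_lit 164) (.e (nat_lit 172066) (nat_lit 3) (.e (nat_lit 204869) (nat_lit 29) (.e (nat_lit 360475) (nat_lit 8) (.e (nat_lit 557089) (nat_lit 12) (.e (nat_lit 163843) (nat_lit 0) (.e (nat_lit 6254) (nat_lit 337) .nil))))))) (.g (nat_lit 1) (.e (nat_lit 30784) (nat_lit 0) .nil) .nil))) 
(.lf (nat_lit 454315) (.g (nat_lit 1984) (.e (nat_lit 2640) (nat_lit 165) (.e (nat_lit 180252) (nat_lit 10) (.e (nat_lit 573451) (nat_lit 9) (.e (nat_lit 1667) (nat_lit 116) .nil)))) (.g (nat_lit 0) (.e (nat_lit 34307) (nat_lit 0) .nil) .nil)))) (.nd (nat_lit 9) 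
(.lf (nat_lit 454059) (.g (nat_lit 1675) (.e (nat_lit 7936) (nat_lit 164) (.e (nat_lit 172126) (nat_lit 14) (.e (nat_lit 491537) (nat_lit 2) (.e (nat_lit 90170) (nat_lit 13) (.e (nat_lit 172113) (nat_lit 10) .nil))))) (.g (nat_lit 0) (.e (nat_lit 33141) (nat_lit 0) .nil) .nil))) 
(.lf (nat_lit 454571) (.g (nat_lit 5536) (.e (nat_lit 2643) (nat_lit 165) (.e (nat_lit 180243) (nat_lit 5) (.e (nat_lit 532550) (nat_lit 12) (.e (nat_lit 360474) (nat_lit 8) (.e (nat_lit 557093) (nat_lit 12) (.e (nat_lit 163849) (nat_lit 0) (.e (nat_lit 6255) (nat_lit 337) .nil))))))) (.g (nat_lit 1) (.e (nat_lit 35063) (nat_lit 0) .nil) .nil)))))) 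
(.nd (nat_lit 7) (.nd (nat_lit 8) (.nd (nat_lit 9) 
(.lf (nat_lit 453739) (.g (nat_lit 4791) (.e (nat_lit 2630) (nat_lit 164) (.e (nat_lit 172064) (nat_lit 2) (.e (nat_lit 196666) (nat_lit 13) (.e (nat_lit 65617) (nat_lit 10) (.e (nat_lit 344133) (nat_lit 26) (.e (nat_lit 557091) (nat_lit 12) (.e (nat_lit 163844) (nat_lit 0) (.e (nat_lit 6254) (nat_lit 337) .nil)))))))) (.g (nat_lit 1) (.e (nat_lit 30667) (nat_lit 0) .nil) .nil))) 
(.lf (nat_lit 454251) (.g (nat_lit 2774) (.e (nat_lit 2639) (nat_lit 165) (.e (nat_lit 180277) (nat_lit 32) (.e (nat_lit 1428) (nat_lit 108) (.e (nat_lit 336430) (nat_lit 29) (.e (nat_lit 442419) (nat_lit 21) (.e (nat_lit 164346) (nat_lit 240) .nil)))))) (.g (nat_lit 1) (.e (nat_lit 34120) (nat_lit 0) .nil) .nil)))) (.nd (nat_lit 9) 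
(.lf (nat_lit 453995) (.g (nat_lit 1737) (.e (nat_lit 2630) (nat_lit 164) (.e (nat_lit 172124) (nat_lit 14) (.e (nat_lit 491550) (nat_lit 9) (.e (nat_lit 336432) (nat_lit 30) (.e (nat_lit 450568) (nat_lit 0) (.e (nat_lit 5448) (nat_lit 306) .nil)))))) (.g (nat_lit 1) (.e (nat_lit 32564) (nat_lit 0) .nil) .nil))) 
(.lf (nat_lit 454507) (.g (nat_lit 1908) (.e (nat_lit 2641) (nat_lit 165) (.e (nat_lit 180277) (nat_lit 32) (.e (nat_lit 1428) (nat_lit 108) (.e (nat_lit 336430) (nat_lit 29) (.e (nat_lit 442429) (nat_lit 24) .nil))))) (.g (nat_lit 0) (.e (nat_lit 34796) (nat_lit 0) .nil) .nil))))) (.nd (nat_lit 8) (.nd (nat_lit 9) 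
(.lf (nat_lit 453867) (.g (nat_lit 3791) (.e (nat_lit 2630) (nat_lit 164) (.e (nat_lit 172067) (nat_lit 3) (.e (nat_lit 204869) (nat_lit 29) (.e (nat_lit 360474) (nat_lit 8) (.e (nat_lit 557094) (nat_lit 12) (.e (nat_lit 163848) (nat_lit 0) (.e (nat_lit 6252) (nat_lit 337) .nil))))))) (.g (nat_lit 1) (.e (nat_lit 30911) (nat_lit 0) .nil) .nil))) 
(.lf (nat_lit 454379) (.g (nat_lit 1907) (.e (nat_lit 2640) (nat_lit 165) (.e (nat_lit 180277) (nat_lit 32) (.e (nat_lit 1661) (nat_lit 115) (.e (nat_lit 393282) (nat_lit 24) (.e (nat_lit 434212) (nat_lit 18) (.e (nat_lit 5548) (nat_lit 306) .nil)))))) (.g (nat_lit 1) (.e (nat_lit 34544) (nat_lit 0) .nil) .nil)))) (.nd (nat_lit 9) 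
(.lf (nat_lit 454123) (.g (nat_lit 2830) (.e (nat_lit 2638) (nat_lit 165) (.e (nat_lit 180277) (nat_lit 32) (.e (nat_lit 1428) (nat_lit 108) (.e (nat_lit 336430) (nat_lit 29) (.e (nat_lit 442421) (nat_lit 21) (.e (nat_lit 164346) (nat_lit 240) .nil)))))) (.g (nat_lit 1) (.e (nat_lit 33822) (nat_lit 0) .nil) .nil))) 
(.lf (nat_lit 454635) (.g (nat_lit 2763) (.e (nat_lit 2645) (nat_lit 166) (.e (nat_lit 188434) (nat_lit 20) (.e (nat_lit 3467) (nat_lit 217) (.e (nat_lit 696344) (nat_lit 8) (.e (nat_lit 172106) (nat_lit 10) (.e (nat_lit 434209) (nat_lit 18) (.e (nat_lit 6273) (nat_lit 337) .nil))))))) (.g (nat_lit 1) (.e (nat_lit 35645) (nat_lit 0) .nil) .nil)))))))) 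
(.nd (nat_lit 5) (.nd (nat_lit 6) (.nd (nat_lit 7) (.nd (nat_lit 8) (.nd (nat_lit 9) 
(.lf (nat_lit 453659) (.g (nat_lit 3763) (.e (nat_lit 2630) (nat_lit 164) (.e (nat_lit 172062) (nat_lit 2) (.e (nat_lit 196666) (nat_lit 13) (.e (nat_lit 65617) (nat_lit 10) (.e (nat_lit 344132) (nat_lit 26) (.e (nat_lit 557094) (nat_lit 12) (.e (nat_lit 163848) (nat_lit 0) (.e (nat_lit 6252) (nat_lit 337) .nil)))))))) (.g (nat_lit 1) (.e (nat_lit 30572) (nat_lit 0) .nil) .nil))) 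
(.lf (nat_lit 454171) (.g (nat_lit 1003) (.e (nat_lit 2638) (nat_lit 165) (.e (nat_lit 180278) (nat_lit 32) (.e (nat_lit 1427) (nat_lit 108) (.e (nat_lit 336430) (nat_lit 29) .nil)))) (.g (nat_lit 0) (.e (nat_lit 33915) (nat_lit 0) .nil) .nil)))) (.nd (nat_lit 9) 
(.lf (nat_lit 453915) (.g (nat_lit 2124) (.e (nat_lit 2630) (nat_lit 164) (.e (nat_lit 172115) (nat_lit 10) (.e (nat_lit 434212) (nat_lit 18) (.e (nat_lit 6425) (nat_lit 342) (.e (nat_lit 229415) (nat_lit 15) (.e (nat_lit 450563) (nat_lit 0) (.e (nat_lit 6254) (nat_lit 337) .nil))))))) (.g (nat_lit 1) (.e (nat_lit 32200) (nat_lit 0) .nil) .nil))) 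
(.lf (nat_lit 454427) (.g (nat_lit 2068) (.e (nat_lit 2640) (nat_lit 165) (.e (nat_lit 180278) (nat_lit 32) (.e (nat_lit 1660) (nat_lit 115) (.e (nat_lit 393281) (nat_lit 23) (.e (nat_lit 426100) (nat_lit 1) (.e (nat_lit 164345) (nat_lit 240) .nil)))))) (.g (nat_lit 1) (.e (nat_lit 34596) (nat_lit 0) .nil) .nil))))) (.nd (nat_lit 8) (.nd (nat_lit 9) 
(.lf (nat_lit 453787) (.g (nat_lit 4404) (.e (nat_lit 2630) (nat_lit 164) (.e (nat_lit 172065) (nat_lit 3) (.e (nat_lit 204869) (nat_lit 29) (.e (nat_lit 360475) (nat_lit 8) (.e (nat_lit 557091) (nat_lit 12) (.e (nat_lit 163844) (nat_lit 0) (.e (nat_lit 6254) (nat_lit 337) .nil))))))) (.g (nat_lit 1) (.e (nat_lit 30768) (nat_lit 0) .nil) .nil))) 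
(.lf (nat_lit 454299) (.g (nat_lit 2350) (.e (nat_lit 2639) (nat_lit 165) (.e (nat_lit 180278) (nat_lit 32) (.e (nat_lit 1659) (nat_lit 115) (.e (nat_lit 393281) (nat_lit 23) (.e (nat_lit 426098) (nat_lit 1) (.e (nat_lit 164346) (nat_lit 240) .nil)))))) (.g (nat_lit 1) (.e (nat_lit 34204) (nat_lit 0) .nil) .nil)))) (.nd (nat_lit 9) 
(.lf (nat_lit 454043) (.g (nat_lit 1835) (.e (nat_lit 2632) (nat_lit 164) (.e (nat_lit 172066) (nat_lit 3) (.e (nat_lit 204869) (nat_lit 29) (.e (nat_lit 360474) (nat_lit 8) (.e (nat_lit 557094) (nat_lit 12) .nil))))) (.g (nat_lit 0) (.e (nat_lit 32987) (nat_lit 0) .nil) .nil))) 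
(.lf (nat_lit 454555) (.g (nat_lit 3030) (.e (nat_lit 2643) (nat_lit 165) (.e (nat_lit 180243) (nat_lit 5) (.e (nat_lit 532549) (nat_lit 12) (.e (nat_lit 360474) (nat_lit 8) (.e (nat_lit 557094) (nat_lit 12) (.e (nat_lit 163849) (nat_lit 0) (.e (nat_lit 6255) (nat_lit 337) .nil))))))) (.g (nat_lit 1) (.e (nat_lit 35043) (nat_lit 0) .nil) .nil)))))) 
(.nd (nat_lit 7) (.nd (nat_lit 8) (.nd (nat_lit 9) 
(.lf (nat_lit 453723) (.g (nat_lit 2354) (.e (nat_lit 2630) (nat_lit 164) (.e (nat_lit 172064) (nat_lit 2) (.e (nat_lit 196666) (nat_lit 13) (.e (nat_lit 65617) (nat_lit 10) (.e (nat_lit 344132) (nat_lit 26) (.e (nat_lit 557094) (nat_lit 12) (.e (nat_lit 163840) (nat_lit 0) (.e (nat_lit 6252) (nat_lit 337) .nil)))))))) (.g (nat_lit 1) (.e (nat_lit 30651) (nat_lit 0) .nil) .nil))) 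
(.lf (nat_lit 454235) (.g (nat_lit 1920) (.e (nat_lit 2639) (nat_lit 165) (.e (nat_lit 180277) (nat_lit 32) (.e (nat_lit 1425) (nat_lit 108) (.e (nat_lit 336430) (nat_lit 29) (.e (nat_lit 442419) (nat_lit 21) (.e (nat_lit 164345) (nat_lit 240) .nil)))))) (.g (nat_lit 1) (.e (nat_lit 34096) (nat_lit 0) .nil) .nil)))) (.nd (nat_lit 9) 
(.lf (nat_lit 453979) (.g (nat_lit 2224) (.e (nat_lit 2630) (nat_lit 164) (.e (nat_lit 172124) (nat_lit 14) (.e (nat_lit 491549) (nat_lit 9) (.e (nat_lit 336430) (nat_lit 29) (.e (nat_lit 442429) (nat_lit 24) (.e (nat_lit 229664) (nat_lit 240) .nil)))))) (.g (nat_lit 1) (.e (nat_lit 32546) (nat_lit 0) .nil) .nil))) 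
(.lf (nat_lit 454491) (.g (nat_lit 1575) (.e (nat_lit 2641) (nat_lit 165) (.e (nat_lit 180277) (nat_lit 32) (.e (nat_lit 1426) (nat_lit 108) (.e (nat_lit 336430) (nat_lit 29) (.e (nat_lit 442428) (nat_lit 24) (.e (nat_lit 229663) (nat_lit 240) .nil)))))) (.g (nat_lit 1) (.e (nat_lit 34777) (nat_lit 0) .nil) .nil))))) (.nd (nat_lit 8) (.nd (nat_lit 9) 
(.lf (nat_lit 453851) (.g (nat_lit 4864) (.e (nat_lit 2630) (nat_lit 164) (.e (nat_lit 172067) (nat_lit 3) (.e (nat_lit 204868) (nat_lit 29) (.e (nat_lit 360475) (nat_lit 8) (.e (nat_lit 557089) (nat_lit 12) (.e (nat_lit 163849) (nat_lit 0) (.e (nat_lit 6254) (nat_lit 337) .nil))))))) (.g (nat_lit 1) (.e (nat_lit 30892) (nat_lit 0) .nil) .nil))) 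
(.lf (nat_lit 454363) (.g (nat_lit 1813) (.e (nat_lit 2640) (nat_lit 165) (.e (nat_lit 180277) (nat_lit 32) (.e (nat_lit 1660) (nat_lit 115) (.e (nat_lit 393275) (nat_lit 23) (.e (nat_lit 426109) (nat_lit 1) (.e (nat_lit 164347) (nat_lit 240) .nil)))))) (.g (nat_lit 1) (.e (nat_lit 34515) (nat_lit 0) .nil) .nil)))) (.nd (nat_lit 9) 
(.lf (nat_lit 454107) (.g (nat_lit 3252) (.e (nat_lit 2638) (nat_lit 165) (.e (nat_lit 180277) (nat_lit 32) (.e (nat_lit 1427) (nat_lit 108) (.e (nat_lit 336430) (nat_lit 29) (.e (nat_lit 442419) (nat_lit 21) (.e (nat_lit 164345) (nat_lit 240) .nil)))))) (.g (nat_lit 1) (.e (nat_lit 33805) (nat_lit 0) .nil) .nil))) 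
(.lf (nat_lit 454619) (.g (nat_lit 2259) (.e (nat_lit 2643) (nat_lit 165) (.e (nat_lit 180277) (nat_lit 32) (.e (nat_lit 1427) (nat_lit 108) (.e (nat_lit 336426) (nat_lit 29) (.e (nat_lit 442430) (nat_lit 24) (.e (nat_lit 229664) (nat_lit 240) .nil)))))) (.g (nat_lit 1) (.e (nat_lit 35319) (nat_lit 0) .nil) .nil))))))) (.nd (nat_lit 6) (.nd (nat_lit 7) (.nd (nat_lit 8) (.nd (nat_lit 9) 
(.lf (nat_lit 453691) (.g (nat_lit 5571) (.e (nat_lit 2630) (nat_lit 164) (.e (nat_lit 172064) (nat_lit 2) (.e (nat_lit 196666) (nat_lit 13) (.e (nat_lit 65610) (nat_lit 10) (.e (nat_lit 344129) (nat_lit 26) (.e (nat_lit 557089) (nat_lit 12) (.e (nat_lit 163844) (nat_lit 0) (.e (nat_lit 6255) (nat_lit 337) .nil)))))))) (.g (nat_lit 1) (.e (nat_lit 30619) (nat_lit 0) .nil) .nil))) 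
(.lf (nat_lit 454203) (.g (nat_lit 2288) (.e (nat_lit 2638) (nat_lit 165) (.e (nat_lit 180278) (nat_lit 32) (.e (nat_lit 1660) (nat_lit 115) (.e (nat_lit 393275) (nat_lit 23) (.e (nat_lit 426109) (nat_lit 1) (.e (nat_lit 164345) (nat_lit 240) .nil)))))) (.g (nat_lit 1) (.e (nat_lit 33955) (nat_lit 0) .nil) .nil)))) (.nd (nat_lit 9) 
(.lf (nat_lit 453947) (.g (nat_lit 3397) (.e (nat_lit 2630) (nat_lit 164) (.e (nat_lit 172120) (nat_lit 12) (.e (nat_lit 475198) (nat_lit 40) (.e (nat_lit 704599) (nat_lit 6) (.e (nat_lit 188455) (nat_lit 24) (.e (nat_lit 229665) (nat_lit 240) .nil)))))) (.g (nat_lit 1) (.e (nat_lit 32245) (nat_lit 0) .nil) .nil))) 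
(.lf (nat_lit 454459) (.g (nat_lit 3250) (.e (nat_lit 2641) (nat_lit 165) (.e (nat_lit 180244) (nat_lit 5) (.e (nat_lit 532550) (nat_lit 12) (.e (nat_lit 360474) (nat_lit 8) (.e (nat_lit 557093) (nat_lit 12) (.e (nat_lit 163848) (nat_lit 0) (.e (nat_lit 6250) (nat_lit 337) .nil))))))) (.g (nat_lit 1) (.e (nat_lit 34673) (nat_lit 0) .nil) .nil))))) (.nd (nat_lit 8) (.nd (nat_lit 9) 
(.lf (nat_lit 453819) (.g (nat_lit 4817) (.e (nat_lit 2630) (nat_lit 164) (.e (nat_lit 172066) (nat_lit 3) (.e (nat_lit 204869) (nat_lit 29) (.e (nat_lit 360475) (nat_lit 8) (.e (nat_lit 557091) (nat_lit 12) (.e (nat_lit 163849) (nat_lit 0) (.e (nat_lit 6255) (nat_lit 337) .nil))))))) (.g (nat_lit 1) (.e (nat_lit 30800) (nat_lit 0) .nil) .nil))) 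
(.lf (nat_lit 454331) (.g (nat_lit 1971) (.e (nat_lit 2640) (nat_lit 165) (.e (nat_lit 180277) (nat_lit 32) (.e (nat_lit 1427) (nat_lit 108) (.e (nat_lit 336430) (nat_lit 29) (.e (nat_lit 442421) (nat_lit 21) .nil))))) (.g (nat_lit 0) (.e (nat_lit 34482) (nat_lit 0) .nil) .nil)))) (.nd (nat_lit 9) 
(.lf (nat_lit 454075) (.g (nat_lit 3353) (.e (nat_lit 2636) (nat_lit 165) (.e (nat_lit 180243) (nat_lit 5) (.e (nat_lit 532550) (nat_lit 12) (.e (nat_lit 360474) (nat_lit 8) (.e (nat_lit 557094) (nat_lit 12) (.e (nat_lit 163852) (nat_lit 0) (.e (nat_lit 6273) (nat_lit 337) .nil))))))) (.g (nat_lit 1) (.e (nat_lit 33256) (nat_lit 0) .nil) .nil))) 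
(.lf (nat_lit 454587) (.g (nat_lit 3558) (.e (nat_lit 2643) (nat_lit 165) (.e (nat_lit 180243) (nat_lit 5) (.e (nat_lit 532550) (nat_lit 12) (.e (nat_lit 360475) (nat_lit 8) (.e (nat_lit 557091) (nat_lit 12) (.e (nat_lit 163844) (nat_lit 0) (.e (nat_lit 6252) (nat_lit 337) .nil))))))) (.g (nat_lit 1) (.e (nat_lit 35079) (nat_lit 0) .nil) .nil)))))) 
(.nd (nat_lit 7) (.nd (nat_lit 8) (.nd (nat_lit 9) 
(.lf (nat_lit 453755) (.g (nat_lit 3620) (.e (nat_lit 2630) (nat_lit 164) (.e (nat_lit 172065) (nat_lit 3) (.e (nat_lit 204868) (nat_lit 29) (.e (nat_lit 360473) (nat_lit 8) (.e (nat_lit 557091) (nat_lit 12) (.e (nat_lit 163844) (nat_lit 0) (.e (nat_lit 6255) (nat_lit 337) .nil))))))) (.g (nat_lit 1) (.e (nat_lit 30732) (nat_lit 0) .nil) .nil))) 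
(.lf (nat_lit 454267) (.g (nat_lit 321) (.e (nat_lit 2639) (nat_lit 165) (.e (nat_lit 180277) (nat_lit 32) (.e (nat_lit 1660) (nat_lit 115) .nil))) (.g (nat_lit 0) (.e (nat_lit 34139) (nat_lit 0) .nil) .nil)))) (.nd (nat_lit 9) 
(.lf (nat_lit 454011) (.g (nat_lit 3560) (.e (nat_lit 2630) (nat_lit 164) (.e (nat_lit 172126) (nat_lit 14) (.e (nat_lit 491549) (nat_lit 9) (.e (nat_lit 336430) (nat_lit 29) (.e (nat_lit 442428) (nat_lit 24) (.e (nat_lit 229666) (nat_lit 240) .nil)))))) (.g (nat_lit 1) (.e (nat_lit 32726) (nat_lit 0) .nil) .nil))) 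
(.lf (nat_lit 454523) (.g (nat_lit 2865) (.e (nat_lit 2641) (nat_lit 165) (.e (nat_lit 180278) (nat_lit 32) (.e (nat_lit 1426) (nat_lit 108) (.e (nat_lit 336430) (nat_lit 29) (.e (nat_lit 442430) (nat_lit 24) (.e (nat_lit 229665) (nat_lit 240) .nil)))))) (.g (nat_lit 1) (.e (nat_lit 34818) (nat_lit 0) .nil) .nil))))) (.nd (nat_lit 8) (.nd (nat_lit 9) 
(.lf (nat_lit 453883) (.g (nat_lit 4560) (.e (nat_lit 2630) (nat_lit 164) (.e (nat_lit 172067) (nat_lit 3) (.e (nat_lit 204869) (nat_lit 29) (.e (nat_lit 360475) (nat_lit 8) (.e (nat_lit 557091) (nat_lit 12) (.e (nat_lit 163843) (nat_lit 0) (.e (nat_lit 6252) (nat_lit 337) .nil))))))) (.g (nat_lit 1) (.e (nat_lit 30927) (nat_lit 0) .nil) .nil))) 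
(.lf (nat_lit 454395) (.g (nat_lit 1732) (.e (nat_lit 2640) (nat_lit 165) (.e (nat_lit 180278) (nat_lit 32) (.e (nat_lit 1428) (nat_lit 108) (.e (nat_lit 336430) (nat_lit 29) (.e (nat_lit 442419) (nat_lit 21) (.e (nat_lit 164346) (nat_lit 240) .nil)))))) (.g (nat_lit 1) (.e (nat_lit 34563) (nat_lit 0) .nil) .nil)))) (.nd (nat_lit 9) 
(.lf (nat_lit 454139) (.g (nat_lit 2362) (.e (nat_lit 2638) (nat_lit 165) (.e (nat_lit 180277) (nat_lit 32) (.e (nat_lit 1659) (nat_lit 115) (.e (nat_lit 393281) (nat_lit 23) (.e (nat_lit 426098) (nat_lit 1) (.e (nat_lit 164347) (nat_lit 240) .nil)))))) (.g (nat_lit 1) (.e (nat_lit 33838) (nat_lit 0) .nil) .nil))) 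
(.lf (nat_lit 454651) (.g (nat_lit 3040) (.e (nat_lit 2646) (nat_lit 166) (.e (nat_lit 188440) (nat_lit 20) (.e (nat_lit 3468) (nat_lit 217) (.e (nat_lit 696344) (nat_lit 8) (.e (nat_lit 172106) (nat_lit 10) (.e (nat_lit 434209) (nat_lit 18) (.e (nat_lit 6272) (nat_lit 337) .nil))))))) (.g (nat_lit 1) (.e (nat_lit 35916) (nat_lit 0) .nil) .nil)))))))))) 
(.nd (nat_lit 3) (.nd (nat_lit 4) (.nd (nat_lit 5) (.nd (nat_lit 6) (.nd (nat_lit 7) 
(.nd (nat_lit 8) (.nd (nat_lit 9) 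
(.lf (nat_lit 453639) (.g (nat_lit 1922) (.e (nat_lit 2630) (nat_lit 164) (.e (nat_lit 172062) (nat_lit 2) (.e (nat_lit 196666) (nat_lit 13) (.e (nat_lit 65617) (nat_lit 10) (.e (nat_lit 344127) (nat_lit 26) (.e (nat_lit 557089) (nat_lit 12) (.e (nat_lit 163844) (nat_lit 0) (.e (nat_lit 6255) (nat_lit 337) .nil)))))))) (.g (nat_lit 1) (.e (nat_lit 30552) (nat_lit 0) .nil) .nil))) 
(.lf (nat_lit 454151) (.g (nat_lit 3232) (.e (nat_lit 2638) (nat_lit 165) (.e (nat_lit 180277) (nat_lit 32) (.e (nat_lit 1660) (nat_lit 115) (.e (nat_lit 393281) (nat_lit 23) (.e (nat_lit 426107) (nat_lit 1) (.e (nat_lit 164347) (nat_lit 240) .nil)))))) (.g (nat_lit 1) (.e (nat_lit 33854) (nat_lit 0) .nil) .nil)))) (.nd (nat_lit 9) 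
(.lf (nat_lit 453895) (.g (nat_lit 2373) (.e (nat_lit 2630) (nat_lit 164) (.e (nat_lit 172106) (nat_lit 10) (.e (nat_lit 434241) (nat_lit 27) (.e (nat_lit 565252) (nat_lit 0) (.e (nat_lit 1589) (nat_lit 111) (.e (nat_lit 360451) (nat_lit 0) (.e (nat_lit 7607) (nat_lit 410) .nil))))))) (.g (nat_lit 1) (.e (nat_lit 31755) (nat_lit 0) .nil) .nil))) 
(.lf (nat_lit 454407) (.g (nat_lit 2199) (.e (nat_lit 2640) (nat_lit 165) (.e (nat_lit 180278) (nat_lit 32) (.e (nat_lit 1658) (nat_lit 115) (.e (nat_lit 393282) (nat_lit 24) (.e (nat_lit 434209) (nat_lit 18) (.e (nat_lit 5547) (nat_lit 306) .nil)))))) (.g (nat_lit 1) (.e (nat_lit 34575) (nat_lit 0) .nil) .nil))))) (.nd (nat_lit 8) (.nd (nat_lit 9) 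
(.lf (nat_lit 453767) (.g (nat_lit 2948) (.e (nat_lit 2630) (nat_lit 164) (.e (nat_lit 172065) (nat_lit 3) (.e (nat_lit 204869) (nat_lit 29) (.e (nat_lit 360474) (nat_lit 8) (.e (nat_lit 557093) (nat_lit 12) (.e (nat_lit 163847) (nat_lit 0) (.e (nat_lit 6254) (nat_lit 337) .nil))))))) (.g (nat_lit 1) (.e (nat_lit 30748) (nat_lit 0) .nil) .nil))) 
(.lf (nat_lit 454279) (.g (nat_lit 2367) (.e (nat_lit 2639) (nat_lit 165) (.e (nat_lit 180278) (nat_lit 32) (.e (nat_lit 1426) (nat_lit 108) (.e (nat_lit 336443) (nat_lit 32) (.e (nat_lit 466972) (nat_lit 21) (.e (nat_lit 164345) (nat_lit 240) .nil)))))) (.g (nat_lit 1) (.e (nat_lit 34179) (nat_lit 0) .nil) .nil)))) (.nd (nat_lit 9) 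
(.lf (nat_lit 454023) (.g (nat_lit 2322) (.e (nat_lit 2630) (nat_lit 164) (.e (nat_lit 172126) (nat_lit 14) (.e (nat_lit 491549) (nat_lit 9) (.e (nat_lit 336443) (nat_lit 32) (.e (nat_lit 466982) (nat_lit 24) (.e (nat_lit 229666) (nat_lit 240) .nil)))))) (.g (nat_lit 1) (.e (nat_lit 32739) (nat_lit 0) .nil) .nil))) 
(.lf (nat_lit 454535) (.g (nat_lit 2435) (.e (nat_lit 2643) (nat_lit 165) (.e (nat_lit 180243) (nat_lit 5) (.e (nat_lit 532549) (nat_lit 12) (.e (nat_lit 360473) (nat_lit 8) (.e (nat_lit 557089) (nat_lit 12) .nil))))) (.g (nat_lit 0) (.e (nat_lit 35014) (nat_lit 0) .nil) .nil)))))) (.nd (nat_lit 7) (.nd (nat_lit 8) (.nd (nat_lit 9) 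
(.lf (nat_lit 453703) (.g (nat_lit 4941) (.e (nat_lit 2630) (nat_lit 164) (.e (nat_lit 172064) (nat_lit 2) (.e (nat_lit 196666) (nat_lit 13) (.e (nat_lit 65617) (nat_lit 10) (.e (nat_lit 344127) (nat_lit 26) (.e (nat_lit 557090) (nat_lit 12) (.e (nat_lit 163843) (nat_lit 0) (.e (nat_lit 6254) (nat_lit 337) .nil)))))))) (.g (nat_lit 1) (.e (nat_lit 30631) (nat_lit 0) .nil) .nil))) 
(.lf (nat_lit 454215) (.g (nat_lit 2238) (.e (nat_lit 2638) (nat_lit 165) (.e (nat_lit 180278) (nat_lit 32) (.e (nat_lit 1661) (nat_lit 115) (.e (nat_lit 393271) (nat_lit 23) (.e (nat_lit 426112) (nat_lit 1) (.e (nat_lit 164348) (nat_lit 240) .nil)))))) (.g (nat_lit 1) (.e (nat_lit 33984) (nat_lit 0) .nil) .nil)))) (.nd (nat_lit 9) 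
(.lf (nat_lit 453959) (.g (nat_lit 3014) (.e (nat_lit 2630) (nat_lit 164) (.e (nat_lit 172120) (nat_lit 12) (.e (nat_lit 475210) (nat_lit 41) (.e (nat_lit 712755) (nat_lit 30) (.e (nat_lit 450568) (nat_lit 0) (.e (nat_lit 5448) (nat_lit 306) .nil)))))) (.g (nat_lit 1) (.e (nat_lit 32276) (nat_lit 0) .nil) .nil))) 
(.lf (nat_lit 454471) (.g (nat_lit 4398) (.e (nat_lit 2641) (nat_lit 165) (.e (nat_lit 180244) (nat_lit 5) (.e (nat_lit 532550) (nat_lit 12) (.e (nat_lit 360475) (nat_lit 8) (.e (nat_lit 557089) (nat_lit 12) (.e (nat_lit 163843) (nat_lit 0) (.e (nat_lit 6254) (nat_lit 337) .nil))))))) (.g (nat_lit 1) (.e (nat_lit 34685) (nat_lit 0) .nil) .nil))))) (.nd (nat_lit 8) (.nd (nat_lit 9) 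
(.lf (nat_lit 453831) (.g (nat_lit 2422) (.e (nat_lit 2630) (nat_lit 164) (.e (nat_lit 172067) (nat_lit 3) (.e (nat_lit 204868) (nat_lit 29) (.e (nat_lit 360473) (nat_lit 8) (.e (nat_lit 557091) (nat_lit 12) (.e (nat_lit 163840) (nat_lit 0) (.e (nat_lit 6255) (nat_lit 337) .nil))))))) (.g (nat_lit 1) (.e (nat_lit 30863) (nat_lit 0) .nil) .nil))) 
(.lf (nat_lit 454343) (.g (nat_lit 1493) (.e (nat_lit 2640) (nat_lit 165) (.e (nat_lit 180277) (nat_lit 32) (.e (nat_lit 1428) (nat_lit 108) (.e (nat_lit 336434) (nat_lit 30) (.e (nat_lit 450564) (nat_lit 0) (.e (nat_lit 5547) (nat_lit 306) .nil)))))) (.g (nat_lit 1) (.e (nat_lit 34494) (nat_lit 0) .nil) .nil)))) (.nd (nat_lit 9) 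
(.lf (nat_lit 454087) (.g (nat_lit 1975) (.e (nat_lit 2636) (nat_lit 165) (.e (nat_lit 188160) (nat_lit 32) (.e (nat_lit 1256) (nat_lit 92) (.e (nat_lit 98370) (nat_lit 28) (.e (nat_lit 442430) (nat_lit 24) (.e (nat_lit 237312) (nat_lit 134) .nil)))))) (.g (nat_lit 1) (.e (nat_lit 33492) (nat_lit 0) .nil) .nil))) 
(.lf (nat_lit 454599) (.g (nat_lit 3556) (.e (nat_lit 2643) (nat_lit 165) (.e (nat_lit 180250) (nat_lit 10) (.e (nat_lit 573456) (nat_lit 9) (.e (nat_lit 1669) (nat_lit 116) (.e (nat_lit 401459) (nat_lit 13) (.e (nat_lit 483363) (nat_lit 18) (.e (nat_lit 57659) (nat_lit 152) .nil))))))) (.g (nat_lit 1) (.e (nat_lit 35111) (nat_lit 0) .nil) .nil))))))) 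
(.nd (nat_lit 6) (.nd (nat_lit 7) (.nd (nat_lit 8) (.nd (nat_lit 9) 
(.lf (nat_lit 453671) (.g (nat_lit 3144) (.e (nat_lit 2630) (nat_lit 164) (.e (nat_lit 172063) (nat_lit 2) (.e (nat_lit 196666) (nat_lit 13) (.e (nat_lit 65617) (nat_lit 10) (.e (nat_lit 344130) (nat_lit 26) (.e (nat_lit 557090) (nat_lit 12) (.e (nat_lit 163843) (nat_lit 0) (.e (nat_lit 6254) (nat_lit 337) .nil)))))))) (.g (nat_lit 1) (.e (nat_lit 30584) (nat_lit 0) .nil) .nil))) 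
(.lf (nat_lit 454183) (.g (nat_lit 2825) (.e (nat_lit 2638) (nat_lit 165) (.e (nat_lit 180278) (nat_lit 32) (.e (nat_lit 1428) (nat_lit 108) (.e (nat_lit 336443) (nat_lit 32) (.e (nat_lit 466972) (nat_lit 21) (.e (nat_lit 164345) (nat_lit 240) .nil)))))) (.g (nat_lit 1) (.e (nat_lit 33930) (nat_lit 0) .nil) .nil)))) (.nd (nat_lit 9) 
(.lf (nat_lit 453927) (.g (nat_lit 2126) (.e (nat_lit 2630) (nat_lit 164) (.e (nat_lit 172118) (nat_lit 12) (.e (nat_lit 475211) (nat_lit 41) (.e (nat_lit 712750) (nat_lit 29) (.e (nat_lit 442430) (nat_lit 24) (.e (nat_lit 229664) (nat_lit 240) .nil)))))) (.g (nat_lit 1) (.e (nat_lit 32221) (nat_lit 0) .nil) .nil))) 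
(.lf (nat_lit 454439) (.g (nat_lit 1849) (.e (nat_lit 2640) (nat_lit 165) (.e (nat_lit 180278) (nat_lit 32) (.e (nat_lit 1661) (nat_lit 115) (.e (nat_lit 393282) (nat_lit 24) (.e (nat_lit 434212) (nat_lit 18) (.e (nat_lit 5548) (nat_lit 306) .nil)))))) (.g (nat_lit 1) (.e (nat_lit 34612) (nat_lit 0) .nil) .nil))))) (.nd (nat_lit 8) (.nd (nat_lit 9) 
(.lf (nat_lit 453799) (.g (nat_lit 2516) (.e (nat_lit 2630) (nat_lit 164) (.e (nat_lit 172066) (nat_lit 3) (.e (nat_lit 204869) (nat_lit 29) (.e (nat_lit 360474) (nat_lit 8) (.e (nat_lit 557094) (nat_lit 12) (.e (nat_lit 163848) (nat_lit 0) (.e (nat_lit 6252) (nat_lit 337) .nil))))))) (.g (nat_lit 1) (.e (nat_lit 30780) (nat_lit 0) .nil) .nil))) 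
(.lf (nat_lit 454311) (.g (nat_lit 1235) (.e (nat_lit 2639) (nat_lit 165) (.e (nat_lit 180278) (nat_lit 32) (.e (nat_lit 1660) (nat_lit 115) (.e (nat_lit 401152) (nat_lit 23) .nil)))) (.g (nat_lit 0) (.e (nat_lit 34218) (nat_lit 0) .nil) .nil)))) (.nd (nat_lit 9) 
(.lf (nat_lit 454055) (.g (nat_lit 5095) (.e (nat_lit 2633) (nat_lit 164) (.e (nat_lit 172066) (nat_lit 3) (.e (nat_lit 204869) (nat_lit 29) (.e (nat_lit 360475) (nat_lit 8) (.e (nat_lit 557091) (nat_lit 12) (.e (nat_lit 163850) (nat_lit 0) (.e (nat_lit 6273) (nat_lit 337) .nil))))))) (.g (nat_lit 1) (.e (nat_lit 33066) (nat_lit 0) .nil) .nil))) 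
(.lf (nat_lit 454567) (.g (nat_lit 3980) (.e (nat_lit 2643) (nat_lit 165) (.e (nat_lit 180243) (nat_lit 5) (.e (nat_lit 532550) (nat_lit 12) (.e (nat_lit 360474) (nat_lit 8) (.e (nat_lit 557093) (nat_lit 12) (.e (nat_lit 163847) (nat_lit 0) (.e (nat_lit 6252) (nat_lit 337) .nil))))))) (.g (nat_lit 1) (.e (nat_lit 35059) (nat_lit 0) .nil) .nil)))))) 
(.nd (nat_lit 7) (.nd (nat_lit 8) (.nd (nat_lit 9) 
(.lf (nat_lit 453735) (.g (nat_lit 4528) (.e (nat_lit 2630) (nat_lit 164) (.e (nat_lit 172064) (nat_lit 2) (.e (nat_lit 196666) (nat_lit 13) (.e (nat_lit 65617) (nat_lit 10) (.e (nat_lit 344133) (nat_lit 26) (.e (nat_lit 557089) (nat_lit 12) (.e (nat_lit 163849) (nat_lit 0) (.e (nat_lit 6254) (nat_lit 337) .nil)))))))) (.g (nat_lit 1) (.e (nat_lit 30663) (nat_lit 0) .nil) .nil))) 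
(.lf (nat_lit 454247) (.g (nat_lit 1975) (.e (nat_lit 2639) (nat_lit 165) (.e (nat_lit 180277) (nat_lit 32) (.e (nat_lit 1427) (nat_lit 108) (.e (nat_lit 336430) (nat_lit 29) (.e (nat_lit 442421) (nat_lit 21) .nil))))) (.g (nat_lit 0) (.e (nat_lit 34112) (nat_lit 0) .nil) .nil)))) (.nd (nat_lit 9) 
(.lf (nat_lit 453991) (.g (nat_lit 1775) (.e (nat_lit 2630) (nat_lit 164) (.e (nat_lit 172124) (nat_lit 14) (.e (nat_lit 491550) (nat_lit 9) (.e (nat_lit 336430) (nat_lit 29) (.e (nat_lit 442429) (nat_lit 24) .nil))))) (.g (nat_lit 0) (.e (nat_lit 32560) (nat_lit 0) .nil) .nil))) 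
(.lf (nat_lit 454503) (.g (nat_lit 1251) (.e (nat_lit 2641) (nat_lit 165) (.e (nat_lit 180277) (nat_lit 32) (.e (nat_lit 1428) (nat_lit 108) (.e (nat_lit 336426) (nat_lit 29) .nil)))) (.g (nat_lit 0) (.e (nat_lit 34792) (nat_lit 0) .nil) .nil))))) (.nd (nat_lit 8) (.nd (nat_lit 9) 
(.lf (nat_lit 453863) (.g (nat_lit 4107) (.e (nat_lit 2630) (nat_lit 164) (.e (nat_lit 172067) (nat_lit 3) (.e (nat_lit 204869) (nat_lit 29) (.e (nat_lit 360474) (nat_lit 8) (.e (nat_lit 557093) (nat_lit 12) (.e (nat_lit 163849) (nat_lit 0) (.e (nat_lit 6254) (nat_lit 337) .nil))))))) (.g (nat_lit 1) (.e (nat_lit 30907) (nat_lit 0) .nil) .nil))) 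
(.lf (nat_lit 454375) (.g (nat_lit 1087) (.e (nat_lit 2640) (nat_lit 165) (.e (nat_lit 180277) (nat_lit 32) (.e (nat_lit 1661) (nat_lit 115) (.e (nat_lit 393268) (nat_lit 23) .nil)))) (.g (nat_lit 0) (.e (nat_lit 34534) (nat_lit 0) .nil) .nil)))) (.nd (nat_lit 9) 
(.lf (nat_lit 454119) (.g (nat_lit 3265) (.e (nat_lit 2638) (nat_lit 165) (.e (nat_lit 180277) (nat_lit 32) (.e (nat_lit 1427) (nat_lit 108) (.e (nat_lit 336443) (nat_lit 32) (.e (nat_lit 466972) (nat_lit 21) (.e (nat_lit 164345) (nat_lit 240) .nil)))))) (.g (nat_lit 1) (.e (nat_lit 33817) (nat_lit 0) .nil) .nil))) 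
(.lf (nat_lit 454631) (.g (nat_lit 1651) (.e (nat_lit 7936) (nat_lit 165) (.e (nat_lit 180277) (nat_lit 32) (.e (nat_lit 1253) (nat_lit 92) (.e (nat_lit 98373) (nat_lit 29) (.e (nat_lit 450562) (nat_lit 0) .nil))))) (.g (nat_lit 0) (.e (nat_lit 35448) (nat_lit 0) .nil) .nil)))))))) (.nd (nat_lit 5) (.nd (nat_lit 6) (.nd (nat_lit 7) (.nd (nat_lit 8) (.nd (nat_lit 9) 
(.lf (nat_lit 453655) (.g (nat_lit 3164) (.e (nat_lit 2630) (nat_lit 164) (.e (nat_lit 172062) (nat_lit 2) (.e (nat_lit 196666) (nat_lit 13) (.e (nat_lit 65617) (nat_lit 10) (.e (nat_lit 344132) (nat_lit 26) (.e (nat_lit 557093) (nat_lit 12) (.e (nat_lit 163847) (nat_lit 0) (.e (nat_lit 6254) (nat_lit 337) .nil)))))))) (.g (nat_lit 1) (.e (nat_lit 30568) (nat_lit 0) .nil) .nil))) 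
(.lf (nat_lit 454167) (.g (nat_lit 1350) (.e (nat_lit 2638) (nat_lit 165) (.e (nat_lit 180278) (nat_lit 32) (.e (nat_lit 1425) (nat_lit 108) (.e (nat_lit 336432) (nat_lit 30) (.e (nat_lit 458496) (nat_lit 0) (.e (nat_lit 5543) (nat_lit 306) .nil)))))) (.g (nat_lit 1) (.e (nat_lit 33901) (nat_lit 0) .nil) .nil)))) (.nd (nat_lit 9) 
(.lf (nat_lit 453911) (.g (nat_lit 496) (.e (nat_lit 2630) (nat_lit 164) (.e (nat_lit 172113) (nat_lit 10) (.e (nat_lit 434270) (nat_lit 38) .nil))) (.g (nat_lit 0) (.e (nat_lit 32097) (nat_lit 0) .nil) .nil))) 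
(.lf (nat_lit 454423) (.g (nat_lit 2037) (.e (nat_lit 2640) (nat_lit 165) (.e (nat_lit 180278) (nat_lit 32) (.e (nat_lit 1660) (nat_lit 115) (.e (nat_lit 393271) (nat_lit 23) (.e (nat_lit 426112) (nat_lit 1) (.e (nat_lit 164347) (nat_lit 240) .nil)))))) (.g (nat_lit 1) (.e (nat_lit 34592) (nat_lit 0) .nil) .nil))))) (.nd (nat_lit 8) (.nd (nat_lit 9) 
(.lf (nat_lit 453783) (.g (nat_lit 2988) (.e (nat_lit 2630) (nat_lit 164) (.e (nat_lit 172065) (nat_lit 3) (.e (nat_lit 204869) (nat_lit 29) (.e (nat_lit 360475) (nat_lit 8) (.e (nat_lit 557091) (nat_lit 12) (.e (nat_lit 163841) (nat_lit 0) (.e (nat_lit 6252) (nat_lit 337) .nil))))))) (.g (nat_lit 1) (.e (nat_lit 30764) (nat_lit 0) .nil) .nil))) 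
(.lf (nat_lit 454295) (.g (nat_lit 1325) (.e (nat_lit 2639) (nat_lit 165) (.e (nat_lit 180278) (nat_lit 32) (.e (nat_lit 1659) (nat_lit 115) (.e (nat_lit 393277) (nat_lit 23) .nil)))) (.g (nat_lit 0) (.e (nat_lit 34200) (nat_lit 0) .nil) .nil)))) (.nd (nat_lit 9) 
(.lf (nat_lit 454039) (.g (nat_lit 3065) (.e (nat_lit 2632) (nat_lit 164) (.e (nat_lit 172063) (nat_lit 2) (.e (nat_lit 196666) (nat_lit 13) (.e (nat_lit 65617) (nat_lit 10) (.e (nat_lit 344130) (nat_lit 26) (.e (nat_lit 557090) (nat_lit 12) (.e (nat_lit 163850) (nat_lit 0) (.e (nat_lit 6273) (nat_lit 337) .nil)))))))) (.g (nat_lit 1) (.e (nat_lit 32982) (nat_lit 0) .nil) .nil))) 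
(.lf (nat_lit 454551) (.g (nat_lit 2166) (.e (nat_lit 2643) (nat_lit 165) (.e (nat_lit 180243) (nat_lit 5) (.e (nat_lit 532549) (nat_lit 12) (.e (nat_lit 360474) (nat_lit 8) (.e (nat_lit 557093) (nat_lit 12) .nil))))) (.g (nat_lit 0) (.e (nat_lit 35037) (nat_lit 0) .nil) .nil)))))) (.nd (nat_lit 7) (.nd (nat_lit 8) (.nd (nat_lit 9) 
(.lf (nat_lit 453719) (.g (nat_lit 3770) (.e (nat_lit 2630) (nat_lit 164) (.e (nat_lit 172064) (nat_lit 2) (.e (nat_lit 196666) (nat_lit 13) (.e (nat_lit 65617) (nat_lit 10) (.e (nat_lit 344132) (nat_lit 26) (.e (nat_lit 557093) (nat_lit 12) (.e (nat_lit 163847) (nat_lit 0) (.e (nat_lit 6255) (nat_lit 337) .nil)))))))) (.g (nat_lit 1) (.e (nat_lit 30647) (nat_lit 0) .nil) .nil))) 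
(.lf (nat_lit 454231) (.g (nat_lit 1206) (.e (nat_lit 2638) (nat_lit 165) (.e (nat_lit 188160) (nat_lit 32) (.e (nat_lit 1656) (nat_lit 115) (.e (nat_lit 393289) (nat_lit 25) (.e (nat_lit 466688) (nat_lit 18) (.e (nat_lit 5547) (nat_lit 306) .nil)))))) (.g (nat_lit 1) (.e (nat_lit 34011) (nat_lit 0) .nil) .nil)))) (.nd (nat_lit 9) 
(.lf (nat_lit 453975) (.g (nat_lit 2794) (.e (nat_lit 2630) (nat_lit 164) (.e (nat_lit 172124) (nat_lit 14) (.e (nat_lit 491549) (nat_lit 9) (.e (nat_lit 336428) (nat_lit 29) (.e (nat_lit 442428) (nat_lit 24) .nil))))) (.g (nat_lit 0) (.e (nat_lit 32542) (nat_lit 0) .nil) .nil))) 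
(.lf (nat_lit 454487) (.g (nat_lit 4419) (.e (nat_lit 2641) (nat_lit 165) (.e (nat_lit 180244) (nat_lit 5) (.e (nat_lit 532550) (nat_lit 12) (.e (nat_lit 360475) (nat_lit 8) (.e (nat_lit 557091) (nat_lit 12) (.e (nat_lit 163847) (nat_lit 0) (.e (nat_lit 6254) (nat_lit 337) .nil))))))) (.g (nat_lit 1) (.e (nat_lit 34701) (nat_lit 0) .nil) .nil))))) (.nd (nat_lit 8) (.nd (nat_lit 9) 
(.lf (nat_lit 453847) (.g (nat_lit 4940) (.e (nat_lit 2630) (nat_lit 164) (.e (nat_lit 172067) (nat_lit 3) (.e (nat_lit 204868) (nat_lit 29) (.e (nat_lit 360475) (nat_lit 8) (.e (nat_lit 557089) (nat_lit 12) (.e (nat_lit 163843) (nat_lit 0) (.e (nat_lit 6255) (nat_lit 337) .nil))))))) (.g (nat_lit 1) (.e (nat_lit 30887) (nat_lit 0) .nil) .nil))) 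
(.lf (nat_lit 454359) (.g (nat_lit 2779) (.e (nat_lit 2640) (nat_lit 165) (.e (nat_lit 180277) (nat_lit 32) (.e (nat_lit 1659) (nat_lit 115) (.e (nat_lit 393283) (nat_lit 24) (.e (nat_lit 434209) (nat_lit 18) (.e (nat_lit 5547) (nat_lit 306) .nil)))))) (.g (nat_lit 1) (.e (nat_lit 34510) (nat_lit 0) .nil) .nil)))) (.nd (nat_lit 9) 
(.lf (nat_lit 454103) (.g (nat_lit 2472) (.e (nat_lit 2638) (nat_lit 165) (.e (nat_lit 180277) (nat_lit 32) (.e (nat_lit 1253) (nat_lit 92) (.e (nat_lit 98373) (nat_lit 29) (.e (nat_lit 458496) (nat_lit 0) (.e (nat_lit 3988) (nat_lit 239) .nil)))))) (.g (nat_lit 1) (.e (nat_lit 33797) (nat_lit 0) .nil) .nil))) 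
(.lf (nat_lit 454615) (.g (nat_lit 1740) (.e (nat_lit 2643) (nat_lit 165) (.e (nat_lit 180277) (nat_lit 32) (.e (nat_lit 1426) (nat_lit 108) (.e (nat_lit 336430) (nat_lit 29) (.e (nat_lit 442429) (nat_lit 24) (.e (nat_lit 229665) (nat_lit 240) .nil)))))) (.g (nat_lit 1) (.e (nat_lit 35310) (nat_lit 0) .nil) .nil))))))) (.nd (nat_lit 6) (.nd (nat_lit 7) (.nd (nat_lit 8) (.nd (nat_lit 9) 
(.lf (nat_lit 453687) (.g (nat_lit 4324) (.e (nat_lit 2630) (nat_lit 164) (.e (nat_lit 172064) (nat_lit 2) (.e (nat_lit 196666) (nat_lit 13) (.e (nat_lit 65610) (nat_lit 10) (.e (nat_lit 344129) (nat_lit 26) (.e (nat_lit 557089) (nat_lit 12) (.e (nat_lit 163843) (nat_lit 0) (.e (nat_lit 6254) (nat_lit 337) .nil)))))))) (.g (nat_lit 1) (.e (nat_lit 30615) (nat_lit 0) .nil) .nil))) 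
(.lf (nat_lit 454199) (.g (nat_lit 406) (.e (nat_lit 2638) (nat_lit 165) (.e (nat_lit 180278) (nat_lit 32) (.e (nat_lit 1660) (nat_lit 115) .nil))) (.g (nat_lit 0) (.e (nat_lit 33951) (nat_lit 0) .nil) .nil)))) (.nd (nat_lit 9) 
(.lf (nat_lit 453943) (.g (nat_lit 3213) (.e (nat_lit 2630) (nat_lit 164) (.e (nat_lit 172120) (nat_lit 12) (.e (nat_lit 475198) (nat_lit 40) (.e (nat_lit 704599) (nat_lit 6) (.e (nat_lit 188453) (nat_lit 24) (.e (nat_lit 229664) (nat_lit 240) .nil)))))) (.g (nat_lit 1) (.e (nat_lit 32241) (nat_lit 0) .nil) .nil))) 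
(.lf (nat_lit 454455) (.g (nat_lit 3032) (.e (nat_lit 2641) (nat_lit 165) (.e (nat_lit 180244) (nat_lit 5) (.e (nat_lit 532550) (nat_lit 12) (.e (nat_lit 360474) (nat_lit 8) (.e (nat_lit 557093) (nat_lit 12) .nil))))) (.g (nat_lit 0) (.e (nat_lit 34669) (nat_lit 0) .nil) .nil))))) (.nd (nat_lit 8) (.nd (nat_lit 9) 
(.lf (nat_lit 453815) (.g (nat_lit 6269) (.e (nat_lit 2630) (nat_lit 164) (.e (nat_lit 172066) (nat_lit 3) (.e (nat_lit 204869) (nat_lit 29) (.e (nat_lit 360475) (nat_lit 8) (.e (nat_lit 557091) (nat_lit 12) (.e (nat_lit 163843) (nat_lit 0) (.e (nat_lit 6255) (nat_lit 337) .nil))))))) (.g (nat_lit 1) (.e (nat_lit 30796) (nat_lit 0) .nil) .nil))) 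
(.lf (nat_lit 454327) (.g (nat_lit 2419) (.e (nat_lit 2640) (nat_lit 165) (.e (nat_lit 180277) (nat_lit 32) (.e (nat_lit 1426) (nat_lit 108) (.e (nat_lit 336443) (nat_lit 32) (.e (nat_lit 466971) (nat_lit 21) (.e (nat_lit 164345) (nat_lit 240) .nil)))))) (.g (nat_lit 1) (.e (nat_lit 34475) (nat_lit 0) .nil) .nil)))) (.nd (nat_lit 9) 
(.lf (nat_lit 454071) (.g (nat_lit 1338) (.e (nat_lit 2636) (nat_lit 165) (.e (nat_lit 180243) (nat_lit 5) (.e (nat_lit 532501) (nat_lit 1) (.e (nat_lit 57730) (nat_lit 181) .nil)))) (.g (nat_lit 0) (.e (nat_lit 33227) (nat_lit 0) .nil) .nil))) 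
(.lf (nat_lit 454583) (.g (nat_lit 3189) (.e (nat_lit 2643) (nat_lit 165) (.e (nat_lit 180243) (nat_lit 5) (.e (nat_lit 532550) (nat_lit 12) (.e (nat_lit 360475) (nat_lit 8) (.e (nat_lit 557091) (nat_lit 12) .nil))))) (.g (nat_lit 0) (.e (nat_lit 35075) (nat_lit 0) .nil) .nil)))))) (.nd (nat_lit 7) (.nd (nat_lit 8) (.nd (nat_lit 9) 
(.lf (nat_lit 453751) (.g (nat_lit 3607) (.e (nat_lit 2630) (nat_lit 164) (.e (nat_lit 172065) (nat_lit 3) (.e (nat_lit 204868) (nat_lit 29) (.e (nat_lit 360473) (nat_lit 8) (.e (nat_lit 557089) (nat_lit 12) (.e (nat_lit 163843) (nat_lit 0) (.e (nat_lit 6255) (nat_lit 337) .nil))))))) (.g (nat_lit 1) (.e (nat_lit 30722) (nat_lit 0) .nil) .nil))) 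
(.lf (nat_lit 454263) (.g (nat_lit 2375) (.e (nat_lit 2639) (nat_lit 165) (.e (nat_lit 180277) (nat_lit 32) (.e (nat_lit 1659) (nat_lit 115) (.e (nat_lit 393281) (nat_lit 23) (.e (nat_lit 426098) (nat_lit 1) (.e (nat_lit 164346) (nat_lit 240) .nil)))))) (.g (nat_lit 1) (.e (nat_lit 34132) (nat_lit 0) .nil) .nil)))) (.nd (nat_lit 9) 
(.lf (nat_lit 454007) (.g (nat_lit 2581) (.e (nat_lit 2630) (nat_lit 164) (.e (nat_lit 172126) (nat_lit 14) (.e (nat_lit 491549) (nat_lit 9) (.e (nat_lit 336426) (nat_lit 29) (.e (nat_lit 442430) (nat_lit 24) (.e (nat_lit 229666) (nat_lit 240) .nil)))))) (.g (nat_lit 1) (.e (nat_lit 32722) (nat_lit 0) .nil) .nil))) 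
(.lf (nat_lit 454519) (.g (nat_lit 2702) (.e (nat_lit 2641) (nat_lit 165) (.e (nat_lit 180278) (nat_lit 32) (.e (nat_lit 1425) (nat_lit 108) (.e (nat_lit 336430) (nat_lit 29) (.e (nat_lit 442430) (nat_lit 24) (.e (nat_lit 229665) (nat_lit 240) .nil)))))) (.g (nat_lit 1) (.e (nat_lit 34812) (nat_lit 0) .nil) .nil))))) (.nd (nat_lit 8) (.nd (nat_lit 9) 
(.lf (nat_lit 453879) (.g (nat_lit 2286) (.e (nat_lit 2630) (nat_lit 164) (.e (nat_lit 172067) (nat_lit 3) (.e (nat_lit 204869) (nat_lit 29) (.e (nat_lit 360475) (nat_lit 8) (.e (nat_lit 557091) (nat_lit 12) .nil))))) (.g (nat_lit 0) (.e (nat_lit 30923) (nat_lit 0) .nil) .nil))) 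
(.lf (nat_lit 454391) (.g (nat_lit 2489) (.e (nat_lit 2640) (nat_lit 165) (.e (nat_lit 180278) (nat_lit 32) (.e (nat_lit 1427) (nat_lit 108) (.e (nat_lit 336430) (nat_lit 29) (.e (nat_lit 442421) (nat_lit 21) (.e (nat_lit 164345) (nat_lit 240) .nil)))))) (.g (nat_lit 1) (.e (nat_lit 34558) (nat_lit 0) .nil) .nil)))) (.nd (nat_lit 9) 
(.lf (nat_lit 454135) (.g (nat_lit 2388) (.e (nat_lit 2638) (nat_lit 165) (.e (nat_lit 180277) (nat_lit 32) (.e (nat_lit 1659) (nat_lit 115) (.e (nat_lit 393266) (nat_lit 23) (.e (nat_lit 426109) (nat_lit 1) (.e (nat_lit 164346) (nat_lit 240) .nil)))))) (.g (nat_lit 1) (.e (nat_lit 33834) (nat_lit 0) .nil) .nil))) 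
(.lf (nat_lit 454647) (.g (nat_lit 2060) (.e (nat_lit 2646) (nat_lit 166) (.e (nat_lit 188418) (nat_lit 0) (.e (nat_lit 2174) (nat_lit 143) (.e (nat_lit 712755) (nat_lit 30) (.e (nat_lit 450563) (nat_lit 0) (.e (nat_lit 7936) (nat_lit 306) .nil)))))) (.g (nat_lit 1) (.e (nat_lit 35832) (nat_lit 0) .nil) .nil))))))))) 
(.nd (nat_lit 4) (.nd (nat_lit 5) (.nd (nat_lit 6) (.nd (nat_lit 7) (.nd (nat_lit 8) 
(.nd (nat_lit 9) 
(.lf (nat_lit 453647) (.g (nat_lit 4300) (.e (nat_lit 2630) (nat_lit 164) (.e (nat_lit 172062) (nat_lit 2) (.e (nat_lit 196666) (nat_lit 13) (.e (nat_lit 65617) (nat_lit 10) (.e (nat_lit 344130) (nat_lit 26) (.e (nat_lit 557089) (nat_lit 12) (.e (nat_lit 163843) (nat_lit 0) (.e (nat_lit 6255) (nat_lit 337) .nil)))))))) (.g (nat_lit 1) (.e (nat_lit 30560) (nat_lit 0) .nil) .nil))) 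
(.lf (nat_lit 454159) (.g (nat_lit 4065) (.e (nat_lit 2638) (nat_lit 165) (.e (nat_lit 180278) (nat_lit 32) (.e (nat_lit 1253) (nat_lit 92) (.e (nat_lit 98373) (nat_lit 29) (.e (nat_lit 450560) (nat_lit 0) (.e (nat_lit 3988) (nat_lit 239) .nil)))))) (.g (nat_lit 1) (.e (nat_lit 33893) (nat_lit 0) .nil) .nil)))) (.nd (nat_lit 9) 
(.lf (nat_lit 453903) (.g (nat_lit 3232) (.e (nat_lit 2630) (nat_lit 164) (.e (nat_lit 172106) (nat_lit 10) (.e (nat_lit 434272) (nat_lit 38) (.e (nat_lit 655380) (nat_lit 6) (.e (nat_lit 188453) (nat_lit 24) (.e (nat_lit 229664) (nat_lit 240) .nil)))))) (.g (nat_lit 1) (.e (nat_lit 31868) (nat_lit 0) .nil) .nil))) 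
(.lf (nat_lit 454415) (.g (nat_lit 1703) (.e (nat_lit 2640) (nat_lit 165) (.e (nat_lit 180278) (nat_lit 32) (.e (nat_lit 1659) (nat_lit 115) (.e (nat_lit 393281) (nat_lit 23) (.e (nat_lit 426099) (nat_lit 1) (.e (nat_lit 164345) (nat_lit 240) .nil)))))) (.g (nat_lit 1) (.e (nat_lit 34583) (nat_lit 0) .nil) .nil))))) (.nd (nat_lit 8) (.nd (nat_lit 9) 
(.lf (nat_lit 453775) (.g (nat_lit 2707) (.e (nat_lit 2630) (nat_lit 164) (.e (nat_lit 172065) (nat_lit 3) (.e (nat_lit 204869) (nat_lit 29) (.e (nat_lit 360475) (nat_lit 8) (.e (nat_lit 557089) (nat_lit 12) (.e (nat_lit 163843) (nat_lit 0) (.e (nat_lit 6252) (nat_lit 337) .nil))))))) (.g (nat_lit 1) (.e (nat_lit 30756) (nat_lit 0) .nil) .nil))) 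
(.lf (nat_lit 454287) (.g (nat_lit 1231) (.e (nat_lit 2639) (nat_lit 165) (.e (nat_lit 180278) (nat_lit 32) (.e (nat_lit 1428) (nat_lit 108) (.e (nat_lit 336434) (nat_lit 30) .nil)))) (.g (nat_lit 0) (.e (nat_lit 34192) (nat_lit 0) .nil) .nil)))) (.nd (nat_lit 9) 
(.lf (nat_lit 454031) (.g (nat_lit 2222) (.e (nat_lit 2630) (nat_lit 164) (.e (nat_lit 172126) (nat_lit 14) (.e (nat_lit 491550) (nat_lit 9) (.e (nat_lit 336432) (nat_lit 30) (.e (nat_lit 450567) (nat_lit 0) (.e (nat_lit 5443) (nat_lit 306) .nil)))))) (.g (nat_lit 1) (.e (nat_lit 32748) (nat_lit 0) .nil) .nil))) 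
(.lf (nat_lit 454543) (.g (nat_lit 4474) (.e (nat_lit 2643) (nat_lit 165) (.e (nat_lit 180243) (nat_lit 5) (.e (nat_lit 532549) (nat_lit 12) (.e (nat_lit 360473) (nat_lit 8) (.e (nat_lit 557089) (nat_lit 12) (.e (nat_lit 163849) (nat_lit 0) (.e (nat_lit 6255) (nat_lit 337) .nil))))))) (.g (nat_lit 1) (.e (nat_lit 35024) (nat_lit 0) .nil) .nil)))))) 
(.nd (nat_lit 7) (.nd (nat_lit 8) (.nd (nat_lit 9) 
(.lf (nat_lit 453711) (.g (nat_lit 4590) (.e (nat_lit 2630) (nat_lit 164) (.e (nat_lit 172064) (nat_lit 2) (.e (nat_lit 196666) (nat_lit 13) (.e (nat_lit 65617) (nat_lit 10) (.e (nat_lit 344130) (nat_lit 26) (.e (nat_lit 557089) (nat_lit 12) (.e (nat_lit 163843) (nat_lit 0) (.e (nat_lit 6255) (nat_lit 337) .nil)))))))) (.g (nat_lit 1) (.e (nat_lit 30639) (nat_lit 0) .nil) .nil))) 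
(.lf (nat_lit 454223) (.g (nat_lit 1027) (.e (nat_lit 2638) (nat_lit 165) (.e (nat_lit 180278) (nat_lit 32) (.e (nat_lit 1661) (nat_lit 115) (.e (nat_lit 393283) (nat_lit 24) .nil)))) (.g (nat_lit 0) (.e (nat_lit 34001) (nat_lit 0) .nil) .nil)))) (.nd (nat_lit 9) 
(.lf (nat_lit 453967) (.g (nat_lit 3390) (.e (nat_lit 2630) (nat_lit 164) (.e (nat_lit 172120) (nat_lit 12) (.e (nat_lit 475211) (nat_lit 41) (.e (nat_lit 712752) (nat_lit 29) (.e (nat_lit 442430) (nat_lit 24) (.e (nat_lit 229664) (nat_lit 240) .nil)))))) (.g (nat_lit 1) (.e (nat_lit 32290) (nat_lit 0) .nil) .nil))) 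
(.lf (nat_lit 454479) (.g (nat_lit 3666) (.e (nat_lit 2641) (nat_lit 165) (.e (nat_lit 180244) (nat_lit 5) (.e (nat_lit 532550) (nat_lit 12) (.e (nat_lit 360475) (nat_lit 8) (.e (nat_lit 557091) (nat_lit 12) (.e (nat_lit 163841) (nat_lit 0) (.e (nat_lit 6252) (nat_lit 337) .nil))))))) (.g (nat_lit 1) (.e (nat_lit 34693) (nat_lit 0) .nil) .nil))))) (.nd (nat_lit 8) (.nd (nat_lit 9) 
(.lf (nat_lit 453839) (.g (nat_lit 2658) (.e (nat_lit 2630) (nat_lit 164) (.e (nat_lit 172067) (nat_lit 3) (.e (nat_lit 204868) (nat_lit 29) (.e (nat_lit 360473) (nat_lit 8) (.e (nat_lit 557093) (nat_lit 12) (.e (nat_lit 163847) (nat_lit 0) (.e (nat_lit 6254) (nat_lit 337) .nil))))))) (.g (nat_lit 1) (.e (nat_lit 30876) (nat_lit 0) .nil) .nil))) 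
(.lf (nat_lit 454351) (.g (nat_lit 1079) (.e (nat_lit 2640) (nat_lit 165) (.e (nat_lit 180277) (nat_lit 32) (.e (nat_lit 1659) (nat_lit 115) (.e (nat_lit 393277) (nat_lit 23) .nil)))) (.g (nat_lit 0) (.e (nat_lit 34502) (nat_lit 0) .nil) .nil)))) (.nd (nat_lit 9) 
(.lf (nat_lit 454095) (.g (nat_lit 4867) (.e (nat_lit 2637) (nat_lit 165) (.e (nat_lit 180278) (nat_lit 32) (.e (nat_lit 1253) (nat_lit 92) (.e (nat_lit 98373) (nat_lit 29) (.e (nat_lit 450563) (nat_lit 0) (.e (nat_lit 3948) (nat_lit 239) .nil)))))) (.g (nat_lit 1) (.e (nat_lit 33605) (nat_lit 0) .nil) .nil))) 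
(.lf (nat_lit 454607) (.g (nat_lit 1964) (.e (nat_lit 2643) (nat_lit 165) (.e (nat_lit 180277) (nat_lit 32) (.e (nat_lit 1253) (nat_lit 92) (.e (nat_lit 98373) (nat_lit 29) (.e (nat_lit 458496) (nat_lit 0) (.e (nat_lit 3928) (nat_lit 239) .nil)))))) (.g (nat_lit 1) (.e (nat_lit 35300) (nat_lit 0) .nil) .nil))))))) (.nd (nat_lit 6) (.nd (nat_lit 7) (.nd (nat_lit 8) (.nd (nat_lit 9) 
(.lf (nat_lit 453679) (.g (nat_lit 2434) (.e (nat_lit 2630) (nat_lit 164) (.e (nat_lit 172063) (nat_lit 2) (.e (nat_lit 196666) (nat_lit 13) (.e (nat_lit 65617) (nat_lit 10) (.e (nat_lit 344133) (nat_lit 26) (.e (nat_lit 557089) (nat_lit 12) (.e (nat_lit 163844) (nat_lit 0) (.e (nat_lit 6254) (nat_lit 337) .nil)))))))) (.g (nat_lit 1) (.e (nat_lit 30592) (nat_lit 0) .nil) .nil))) 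
(.lf (nat_lit 454191) (.g (nat_lit 2411) (.e (nat_lit 2638) (nat_lit 165) (.e (nat_lit 180278) (nat_lit 32) (.e (nat_lit 1659) (nat_lit 115) (.e (nat_lit 393271) (nat_lit 23) (.e (nat_lit 426112) (nat_lit 1) (.e (nat_lit 164347) (nat_lit 240) .nil)))))) (.g (nat_lit 1) (.e (nat_lit 33939) (nat_lit 0) .nil) .nil)))) (.nd (nat_lit 9) 
(.lf (nat_lit 453935) (.g (nat_lit 1205) (.e (nat_lit 2630) (nat_lit 164) (.e (nat_lit 172119) (nat_lit 12) (.e (nat_lit 475199) (nat_lit 40) (.e (nat_lit 704598) (nat_lit 6) .nil)))) (.g (nat_lit 0) (.e (nat_lit 32231) (nat_lit 0) .nil) .nil))) 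
(.lf (nat_lit 454447) (.g (nat_lit 2839) (.e (nat_lit 2641) (nat_lit 165) (.e (nat_lit 180244) (nat_lit 5) (.e (nat_lit 532549) (nat_lit 12) (.e (nat_lit 360473) (nat_lit 8) (.e (nat_lit 557089) (nat_lit 12) (.e (nat_lit 163844) (nat_lit 0) (.e (nat_lit 6255) (nat_lit 337) .nil))))))) (.g (nat_lit 1) (.e (nat_lit 34657) (nat_lit 0) .nil) .nil))))) (.nd (nat_lit 8) (.nd (nat_lit 9) 
(.lf (nat_lit 453807) (.g (nat_lit 4127) (.e (nat_lit 2630) (nat_lit 164) (.e (nat_lit 172066) (nat_lit 3) (.e (nat_lit 204869) (nat_lit 29) (.e (nat_lit 360475) (nat_lit 8) (.e (nat_lit 557089) (nat_lit 12) (.e (nat_lit 163849) (nat_lit 0) (.e (nat_lit 6252) (nat_lit 337) .nil))))))) (.g (nat_lit 1) (.e (nat_lit 30788) (nat_lit 0) .nil) .nil))) 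
(.lf (nat_lit 454319) (.g (nat_lit 1895) (.e (nat_lit 2640) (nat_lit 165) (.e (nat_lit 180277) (nat_lit 32) (.e (nat_lit 1425) (nat_lit 108) (.e (nat_lit 336430) (nat_lit 29) (.e (nat_lit 442421) (nat_lit 21) (.e (nat_lit 164345) (nat_lit 240) .nil)))))) (.g (nat_lit 1) (.e (nat_lit 34467) (nat_lit 0) .nil) .nil)))) (.nd (nat_lit 9) 
(.lf (nat_lit 454063) (.g (nat_lit 5065) (.e (nat_lit 2635) (nat_lit 165) (.e (nat_lit 180244) (nat_lit 5) (.e (nat_lit 532550) (nat_lit 12) (.e (nat_lit 360474) (nat_lit 8) (.e (nat_lit 557091) (nat_lit 12) .nil))))) (.g (nat_lit 0) (.e (nat_lit 33183) (nat_lit 0) .nil) .nil))) 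
(.lf (nat_lit 454575) (.g (nat_lit 3360) (.e (nat_lit 2643) (nat_lit 165) (.e (nat_lit 180243) (nat_lit 5) (.e (nat_lit 532550) (nat_lit 12) (.e (nat_lit 360475) (nat_lit 8) (.e (nat_lit 557089) (nat_lit 12) (.e (nat_lit 163843) (nat_lit 0) (.e (nat_lit 6254) (nat_lit 337) .nil))))))) (.g (nat_lit 1) (.e (nat_lit 35067) (nat_lit 0) .nil) .nil)))))) 
(.nd (nat_lit 7) (.nd (nat_lit 8) (.nd (nat_lit 9) 
(.lf (nat_lit 453743) (.g (nat_lit 2583) (.e (nat_lit 2630) (nat_lit 164) (.e (nat_lit 172065) (nat_lit 3) (.e (nat_lit 204852) (nat_lit 26) (.e (nat_lit 336310) (nat_lit 16) (.e (nat_lit 164178) (nat_lit 154) (.e (nat_lit 57379) (nat_lit 3) (.e (nat_lit 98334) (nat_lit 18) (.e (nat_lit 164305) (nat_lit 226) .nil)))))))) (.g (nat_lit 1) (.e (nat_lit 30671) (nat_lit 0) .nil) .nil))) 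
(.lf (nat_lit 454255) (.g (nat_lit 339) (.e (nat_lit 2639) (nat_lit 165) (.e (nat_lit 180277) (nat_lit 32) (.e (nat_lit 1658) (nat_lit 115) .nil))) (.g (nat_lit 0) (.e (nat_lit 34124) (nat_lit 0) .nil) .nil)))) (.nd (nat_lit 9) 
(.lf (nat_lit 453999) (.g (nat_lit 4340) (.e (nat_lit 2630) (nat_lit 164) (.e (nat_lit 172126) (nat_lit 14) (.e (nat_lit 491540) (nat_lit 3) (.e (nat_lit 98373) (nat_lit 29) (.e (nat_lit 450560) (nat_lit 0) (.e (nat_lit 3914) (nat_lit 239) .nil)))))) (.g (nat_lit 1) (.e (nat_lit 32699) (nat_lit 0) .nil) .nil))) 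
(.lf (nat_lit 454511) (.g (nat_lit 2700) (.e (nat_lit 2641) (nat_lit 165) (.e (nat_lit 180278) (nat_lit 32) (.e (nat_lit 1252) (nat_lit 92) (.e (nat_lit 98370) (nat_lit 28) (.e (nat_lit 442430) (nat_lit 24) (.e (nat_lit 237312) (nat_lit 134) .nil)))))) (.g (nat_lit 1) (.e (nat_lit 34804) (nat_lit 0) .nil) .nil))))) (.nd (nat_lit 8) (.nd (nat_lit 9) 
(.lf (nat_lit 453871) (.g (nat_lit 2855) (.e (nat_lit 2630) (nat_lit 164) (.e (nat_lit 172067) (nat_lit 3) (.e (nat_lit 204869) (nat_lit 29) (.e (nat_lit 360475) (nat_lit 8) (.e (nat_lit 557089) (nat_lit 12) (.e (nat_lit 163843) (nat_lit 0) (.e (nat_lit 6252) (nat_lit 337) .nil))))))) (.g (nat_lit 1) (.e (nat_lit 30915) (nat_lit 0) .nil) .nil))) 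
(.lf (nat_lit 454383) (.g (nat_lit 1599) (.e (nat_lit 2640) (nat_lit 165) (.e (nat_lit 180278) (nat_lit 32) (.e (nat_lit 1425) (nat_lit 108) (.e (nat_lit 336430) (nat_lit 29) (.e (nat_lit 442419) (nat_lit 21) (.e (nat_lit 164345) (nat_lit 240) .nil)))))) (.g (nat_lit 1) (.e (nat_lit 34548) (nat_lit 0) .nil) .nil)))) (.nd (nat_lit 9) 
(.lf (nat_lit 454127) (.g (nat_lit 2633) (.e (nat_lit 2638) (nat_lit 165) (.e (nat_lit 180277) (nat_lit 32) (.e (nat_lit 1428) (nat_lit 108) (.e (nat_lit 336443) (nat_lit 32) (.e (nat_lit 466971) (nat_lit 21) (.e (nat_lit 164345) (nat_lit 240) .nil)))))) (.g (nat_lit 1) (.e (nat_lit 33826) (nat_lit 0) .nil) .nil))) 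
(.lf (nat_lit 454639) (.g (nat_lit 3093) (.e (nat_lit 2645) (nat_lit 166) (.e (nat_lit 188434) (nat_lit 20) (.e (nat_lit 3468) (nat_lit 217) (.e (nat_lit 696343) (nat_lit 8) (.e (nat_lit 172115) (nat_lit 10) (.e (nat_lit 434209) (nat_lit 18) (.e (nat_lit 6273) (nat_lit 337) .nil))))))) (.g (nat_lit 1) (.e (nat_lit 35652) (nat_lit 0) .nil) .nil)))))))) 
(.nd (nat_lit 5) (.nd (nat_lit 6) (.nd (nat_lit 7) (.nd (nat_lit 8) (.nd (nat_lit 9) 
(.lf (nat_lit 453663) (.g (nat_lit 3522) (.e (nat_lit 2630) (nat_lit 164) (.e (nat_lit 172062) (nat_lit 2) (.e (nat_lit 196666) (nat_lit 13) (.e (nat_lit 65617) (nat_lit 10) (.e (nat_lit 344133) (nat_lit 26) (.e (nat_lit 557089) (nat_lit 12) (.e (nat_lit 163849) (nat_lit 0) (.e (nat_lit 6252) (nat_lit 337) .nil)))))))) (.g (nat_lit 1) (.e (nat_lit 30576) (nat_lit 0) .nil) .nil))) 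
(.lf (nat_lit 454175) (.g (nat_lit 3650) (.e (nat_lit 2638) (nat_lit 165) (.e (nat_lit 180278) (nat_lit 32) (.e (nat_lit 1428) (nat_lit 108) (.e (nat_lit 336430) (nat_lit 29) (.e (nat_lit 442421) (nat_lit 21) (.e (nat_lit 164348) (nat_lit 240) .nil)))))) (.g (nat_lit 1) (.e (nat_lit 33922) (nat_lit 0) .nil) .nil)))) (.nd (nat_lit 9) 
(.lf (nat_lit 453919) (.g (nat_lit 2153) (.e (nat_lit 2630) (nat_lit 164) (.e (nat_lit 172118) (nat_lit 12) (.e (nat_lit 475198) (nat_lit 40) (.e (nat_lit 704599) (nat_lit 6) (.e (nat_lit 188455) (nat_lit 24) (.e (nat_lit 229664) (nat_lit 240) .nil)))))) (.g (nat_lit 1) (.e (nat_lit 32205) (nat_lit 0) .nil) .nil))) 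
(.lf (nat_lit 454431) (.g (nat_lit 434) (.e (nat_lit 2640) (nat_lit 165) (.e (nat_lit 180278) (nat_lit 32) (.e (nat_lit 1661) (nat_lit 115) .nil))) (.g (nat_lit 0) (.e (nat_lit 34600) (nat_lit 0) .nil) .nil))))) (.nd (nat_lit 8) (.nd (nat_lit 9) 
(.lf (nat_lit 453791) (.g (nat_lit 4153) (.e (nat_lit 2630) (nat_lit 164) (.e (nat_lit 172065) (nat_lit 3) (.e (nat_lit 204869) (nat_lit 29) (.e (nat_lit 360475) (nat_lit 8) (.e (nat_lit 557091) (nat_lit 12) (.e (nat_lit 163849) (nat_lit 0) (.e (nat_lit 6255) (nat_lit 337) .nil))))))) (.g (nat_lit 1) (.e (nat_lit 30772) (nat_lit 0) .nil) .nil))) 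
(.lf (nat_lit 454303) (.g (nat_lit 484) (.e (nat_lit 2639) (nat_lit 165) (.e (nat_lit 180278) (nat_lit 32) (.e (nat_lit 1660) (nat_lit 115) .nil))) (.g (nat_lit 0) (.e (nat_lit 34209) (nat_lit 0) .nil) .nil)))) (.nd (nat_lit 9) 
(.lf (nat_lit 454047) (.g (nat_lit 2315) (.e (nat_lit 2632) (nat_lit 164) (.e (nat_lit 172067) (nat_lit 3) (.e (nat_lit 204869) (nat_lit 29) (.e (nat_lit 360474) (nat_lit 8) (.e (nat_lit 557093) (nat_lit 12) .nil))))) (.g (nat_lit 0) (.e (nat_lit 32999) (nat_lit 0) .nil) .nil))) 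
(.lf (nat_lit 454559) (.g (nat_lit 5343) (.e (nat_lit 2643) (nat_lit 165) (.e (nat_lit 180243) (nat_lit 5) (.e (nat_lit 532549) (nat_lit 12) (.e (nat_lit 360475) (nat_lit 8) (.e (nat_lit 557089) (nat_lit 12) (.e (nat_lit 163844) (nat_lit 0) (.e (nat_lit 6255) (nat_lit 337) .nil))))))) (.g (nat_lit 1) (.e (nat_lit 35048) (nat_lit 0) .nil) .nil)))))) 
(.nd (nat_lit 7) (.nd (nat_lit 8) (.nd (nat_lit 9) 
(.lf (nat_lit 453727) (.g (nat_lit 2082) (.e (nat_lit 2630) (nat_lit 164) (.e (nat_lit 172064) (nat_lit 2) (.e (nat_lit 196666) (nat_lit 13) (.e (nat_lit 65617) (nat_lit 10) (.e (nat_lit 344133) (nat_lit 26) .nil))))) (.g (nat_lit 0) (.e (nat_lit 30655) (nat_lit 0) .nil) .nil))) 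
(.lf (nat_lit 454239) (.g (nat_lit 2289) (.e (nat_lit 2639) (nat_lit 165) (.e (nat_lit 180277) (nat_lit 32) (.e (nat_lit 1425) (nat_lit 108) (.e (nat_lit 336443) (nat_lit 32) (.e (nat_lit 466969) (nat_lit 21) (.e (nat_lit 164345) (nat_lit 240) .nil)))))) (.g (nat_lit 1) (.e (nat_lit 34101) (nat_lit 0) .nil) .nil)))) (.nd (nat_lit 9) 
(.lf (nat_lit 453983) (.g (nat_lit 1063) (.e (nat_lit 2630) (nat_lit 164) (.e (nat_lit 172124) (nat_lit 14) (.e (nat_lit 491549) (nat_lit 9) (.e (nat_lit 336432) (nat_lit 30) .nil)))) (.g (nat_lit 0) (.e (nat_lit 32550) (nat_lit 0) .nil) .nil))) 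
(.lf (nat_lit 454495) (.g (nat_lit 2027) (.e (nat_lit 2641) (nat_lit 165) (.e (nat_lit 180277) (nat_lit 32) (.e (nat_lit 1427) (nat_lit 108) (.e (nat_lit 336426) (nat_lit 29) (.e (nat_lit 442430) (nat_lit 24) (.e (nat_lit 229664) (nat_lit 240) .nil)))))) (.g (nat_lit 1) (.e (nat_lit 34781) (nat_lit 0) .nil) .nil))))) (.nd (nat_lit 8) (.nd (nat_lit 9) 
(.lf (nat_lit 453855) (.g (nat_lit 4856) (.e (nat_lit 2630) (nat_lit 164) (.e (nat_lit 172067) (nat_lit 3) (.e (nat_lit 204868) (nat_lit 29) (.e (nat_lit 360475) (nat_lit 8) (.e (nat_lit 557091) (nat_lit 12) (.e (nat_lit 163847) (nat_lit 0) (.e (nat_lit 6254) (nat_lit 337) .nil))))))) (.g (nat_lit 1) (.e (nat_lit 30899) (nat_lit 0) .nil) .nil))) 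
(.lf (nat_lit 454367) (.g (nat_lit 2571) (.e (nat_lit 2640) (nat_lit 165) (.e (nat_lit 180277) (nat_lit 32) (.e (nat_lit 1660) (nat_lit 115) (.e (nat_lit 393281) (nat_lit 23) (.e (nat_lit 426100) (nat_lit 1) (.e (nat_lit 164345) (nat_lit 240) .nil)))))) (.g (nat_lit 1) (.e (nat_lit 34519) (nat_lit 0) .nil) .nil)))) (.nd (nat_lit 9) 
(.lf (nat_lit 454111) (.g (nat_lit 1101) (.e (nat_lit 2638) (nat_lit 165) (.e (nat_lit 180277) (nat_lit 32) (.e (nat_lit 1427) (nat_lit 108) (.e (nat_lit 336432) (nat_lit 30) .nil)))) (.g (nat_lit 0) (.e (nat_lit 33809) (nat_lit 0) .nil) .nil))) 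
(.lf (nat_lit 454623) (.g (nat_lit 2590) (.e (nat_lit 2643) (nat_lit 165) (.e (nat_lit 180277) (nat_lit 32) (.e (nat_lit 1427) (nat_lit 108) (.e (nat_lit 336430) (nat_lit 29) (.e (nat_lit 442430) (nat_lit 24) (.e (nat_lit 229664) (nat_lit 240) .nil)))))) (.g (nat_lit 1) (.e (nat_lit 35323) (nat_lit 0) .nil) .nil))))))) (.nd (nat_lit 6) (.nd (nat_lit 7) (.nd (nat_lit 8) (.nd (nat_lit 9) 
(.lf (nat_lit 453695) (.g (nat_lit 4105) (.e (nat_lit 2630) (nat_lit 164) (.e (nat_lit 172064) (nat_lit 2) (.e (nat_lit 196666) (nat_lit 13) (.e (nat_lit 65610) (nat_lit 10) (.e (nat_lit 344129) (nat_lit 26) (.e (nat_lit 557090) (nat_lit 12) (.e (nat_lit 163840) (nat_lit 0) (.e (nat_lit 6255) (nat_lit 337) .nil)))))))) (.g (nat_lit 1) (.e (nat_lit 30623) (nat_lit 0) .nil) .nil))) 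
(.lf (nat_lit 454207) (.g (nat_lit 3065) (.e (nat_lit 2638) (nat_lit 165) (.e (nat_lit 180278) (nat_lit 32) (.e (nat_lit 1660) (nat_lit 115) (.e (nat_lit 393279) (nat_lit 23) (.e (nat_lit 426110) (nat_lit 1) (.e (nat_lit 164348) (nat_lit 240) .nil)))))) (.g (nat_lit 1) (.e (nat_lit 33959) (nat_lit 0) .nil) .nil)))) (.nd (nat_lit 9) 
(.lf (nat_lit 453951) (.g (nat_lit 3342) (.e (nat_lit 2630) (nat_lit 164) (.e (nat_lit 172120) (nat_lit 12) (.e (nat_lit 475199) (nat_lit 40) (.e (nat_lit 704598) (nat_lit 6) (.e (nat_lit 188455) (nat_lit 24) (.e (nat_lit 229665) (nat_lit 240) .nil)))))) (.g (nat_lit 1) (.e (nat_lit 32250) (nat_lit 0) .nil) .nil))) 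
(.lf (nat_lit 454463) (.g (nat_lit 4920) (.e (nat_lit 2641) (nat_lit 165) (.e (nat_lit 180244) (nat_lit 5) (.e (nat_lit 532550) (nat_lit 12) (.e (nat_lit 360474) (nat_lit 8) (.e (nat_lit 557093) (nat_lit 12) (.e (nat_lit 163849) (nat_lit 0) (.e (nat_lit 6255) (nat_lit 337) .nil))))))) (.g (nat_lit 1) (.e (nat_lit 34677) (nat_lit 0) .nil) .nil))))) (.nd (nat_lit 8) (.nd (nat_lit 9) 
(.lf (nat_lit 453823) (.g (nat_lit 4294) (.e (nat_lit 2630) (nat_lit 164) (.e (nat_lit 172067) (nat_lit 3) (.e (nat_lit 204852) (nat_lit 26) (.e (nat_lit 336310) (nat_lit 16) (.e (nat_lit 164183) (nat_lit 154) (.e (nat_lit 57379) (nat_lit 3) (.e (nat_lit 98334) (nat_lit 18) (.e (nat_lit 164305) (nat_lit 226) .nil)))))))) (.g (nat_lit 1) (.e (nat_lit 30804) (nat_lit 0) .nil) .nil))) 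
(.lf (nat_lit 454335) (.g (nat_lit 3063) (.e (nat_lit 2640) (nat_lit 165) (.e (nat_lit 180277) (nat_lit 32) (.e (nat_lit 1427) (nat_lit 108) (.e (nat_lit 336443) (nat_lit 32) (.e (nat_lit 466969) (nat_lit 21) (.e (nat_lit 164345) (nat_lit 240) .nil)))))) (.g (nat_lit 1) (.e (nat_lit 34486) (nat_lit 0) .nil) .nil)))) (.nd (nat_lit 9) 
(.lf (nat_lit 454079) (.g (nat_lit 4467) (.e (nat_lit 2636) (nat_lit 165) (.e (nat_lit 180251) (nat_lit 10) (.e (nat_lit 573456) (nat_lit 9) (.e (nat_lit 1669) (nat_lit 116) (.e (nat_lit 401459) (nat_lit 13) (.e (nat_lit 483363) (nat_lit 18) (.e (nat_lit 57654) (nat_lit 152) .nil))))))) (.g (nat_lit 1) (.e (nat_lit 33305) (nat_lit 0) .nil) .nil))) 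
(.lf (nat_lit 454591) (.g (nat_lit 3585) (.e (nat_lit 2643) (nat_lit 165) (.e (nat_lit 180243) (nat_lit 5) (.e (nat_lit 532550) (nat_lit 12) (.e (nat_lit 360475) (nat_lit 8) (.e (nat_lit 557091) (nat_lit 12) (.e (nat_lit 163847) (nat_lit 0) (.e (nat_lit 6254) (nat_lit 337) .nil))))))) (.g (nat_lit 1) (.e (nat_lit 35083) (nat_lit 0) .nil) .nil)))))) 
(.nd (nat_lit 7) (.nd (nat_lit 8) (.nd (nat_lit 9) 
(.lf (nat_lit 453759) (.g (nat_lit 2440) (.e (nat_lit 2630) (nat_lit 164) (.e (nat_lit 172065) (nat_lit 3) (.e (nat_lit 204868) (nat_lit 29) (.e (nat_lit 360473) (nat_lit 8) (.e (nat_lit 557093) (nat_lit 12) (.e (nat_lit 163847) (nat_lit 0) (.e (nat_lit 6255) (nat_lit 337) .nil))))))) (.g (nat_lit 1) (.e (nat_lit 30737) (nat_lit 0) .nil) .nil))) 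
(.lf (nat_lit 454271) (.g (nat_lit 1053) (.e (nat_lit 2639) (nat_lit 165) (.e (nat_lit 180277) (nat_lit 32) (.e (nat_lit 1660) (nat_lit 115) (.e (nat_lit 401152) (nat_lit 23) .nil)))) (.g (nat_lit 0) (.e (nat_lit 34144) (nat_lit 0) .nil) .nil)))) (.nd (nat_lit 9) 
(.lf (nat_lit 454015) (.g (nat_lit 3578) (.e (nat_lit 2630) (nat_lit 164) (.e (nat_lit 172126) (nat_lit 14) (.e (nat_lit 491549) (nat_lit 9) (.e (nat_lit 336430) (nat_lit 29) (.e (nat_lit 442430) (nat_lit 24) (.e (nat_lit 229666) (nat_lit 240) .nil)))))) (.g (nat_lit 1) (.e (nat_lit 32730) (nat_lit 0) .nil) .nil))) 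
(.lf (nat_lit 454527) (.g (nat_lit 2667) (.e (nat_lit 2641) (nat_lit 165) (.e (nat_lit 180278) (nat_lit 32) (.e (nat_lit 1428) (nat_lit 108) (.e (nat_lit 336430) (nat_lit 29) (.e (nat_lit 442428) (nat_lit 24) (.e (nat_lit 229666) (nat_lit 240) .nil)))))) (.g (nat_lit 1) (.e (nat_lit 34836) (nat_lit 0) .nil) .nil))))) (.nd (nat_lit 8) (.nd (nat_lit 9) 
(.lf (nat_lit 453887) (.g (nat_lit 4878) (.e (nat_lit 2630) (nat_lit 164) (.e (nat_lit 172067) (nat_lit 3) (.e (nat_lit 204869) (nat_lit 29) (.e (nat_lit 360475) (nat_lit 8) (.e (nat_lit 557091) (nat_lit 12) (.e (nat_lit 163844) (nat_lit 0) (.e (nat_lit 6255) (nat_lit 337) .nil))))))) (.g (nat_lit 1) (.e (nat_lit 30931) (nat_lit 0) .nil) .nil))) 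
(.lf (nat_lit 454399) (.g (nat_lit 1387) (.e (nat_lit 2640) (nat_lit 165) (.e (nat_lit 180278) (nat_lit 32) (.e (nat_lit 1428) (nat_lit 108) (.e (nat_lit 336434) (nat_lit 30) (.e (nat_lit 450564) (nat_lit 0) (.e (nat_lit 5547) (nat_lit 306) .nil)))))) (.g (nat_lit 1) (.e (nat_lit 34567) (nat_lit 0) .nil) .nil)))) (.nd (nat_lit 9) 
(.lf (nat_lit 454143) (.g (nat_lit 333) (.e (nat_lit 2638) (nat_lit 165) (.e (nat_lit 180277) (nat_lit 32) (.e (nat_lit 1660) (nat_lit 115) .nil))) (.g (nat_lit 0) (.e (nat_lit 33846) (nat_lit 0) .nil) .nil))) 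
(.lf (nat_lit 454655) (.g (nat_lit 1568) (.e (nat_lit 2646) (nat_lit 166) (.e (nat_lit 188441) (nat_lit 20) (.e (nat_lit 3468) (nat_lit 217) (.e (nat_lit 696343) (nat_lit 8) (.e (nat_lit 172106) (nat_lit 10) .nil))))) (.g (nat_lit 0) (.e (nat_lit 35934) (nat_lit 0) .nil) .nil)))))))))))))

noncomputable def tv5504 : DT := (.nd (nat_lit 0) (.nd (nat_lit 1) (.nd (nat_lit 2) (.nd (nat_lit 3) (.nd (nat_lit 4) (.nd (nat_lit 5) (.nd (nat_lit 6) (.nd (nat_lit 7) (.nd (nat_lit 8) (.nd (nat_lit 9) 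
(.lf (nat_lit 454656) (.g (nat_lit 2229) (.e (nat_lit 2646) (nat_lit 166) (.e (nat_lit 188441) (nat_lit 20) (.e (nat_lit 3469) (nat_lit 217) (.e (nat_lit 696344) (nat_lit 8) (.e (nat_lit 172106) (nat_lit 10) (.e (nat_lit 434209) (nat_lit 18) (.e (nat_lit 6271) (nat_lit 337) .nil))))))) (.g (nat_lit 1) (.e (nat_lit 35938) (nat_lit 0) .nil) .nil))) 
(.lf (nat_lit 455168) (.g (nat_lit 3718) (.e (nat_lit 2663) (nat_lit 167) (.e (nat_lit 196666) (nat_lit 13) (.e (nat_lit 65610) (nat_lit 10) (.e (nat_lit 344117) (nat_lit 21) (.e (nat_lit 516139) (nat_lit 7) (.e (nat_lit 409616) (nat_lit 10) (.e (nat_lit 7936) (nat_lit 312) .nil))))))) (.g (nat_lit 1) (.e (nat_lit 40473) (nat_lit 0) .nil) .nil)))) (.nd (nat_lit 9) 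
(.lf (nat_lit 454912) (.g (nat_lit 2581) (.e (nat_lit 2653) (nat_lit 166) (.e (nat_lit 188441) (nat_lit 20) (.e (nat_lit 3409) (nat_lit 212) (.e (nat_lit 655380) (nat_lit 6) (.e (nat_lit 188453) (nat_lit 24) (.e (nat_lit 229666) (nat_lit 240) .nil)))))) (.g (nat_lit 1) (.e (nat_lit 39345) (nat_lit 0) .nil) .nil))) 
(.lf (nat_lit 455424) (.g (nat_lit 2314) (.e (nat_lit 2663) (nat_lit 167) (.e (nat_lit 196666) (nat_lit 13) (.e (nat_lit 65617) (nat_lit 10) (.e (nat_lit 344133) (nat_lit 26) (.e (nat_lit 557086) (nat_lit 11) (.e (nat_lit 24577) (nat_lit 0) (.e (nat_lit 6691) (nat_lit 357) .nil))))))) (.g (nat_lit 1) (.e (nat_lit 40817) (nat_lit 0) .nil) .nil))))) (.nd (nat_lit 8) (.nd (nat_lit 9) 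
(.lf (nat_lit 454784) (.g (nat_lit 2941) (.e (nat_lit 2650) (nat_lit 166) (.e (nat_lit 188455) (nat_lit 24) (.e (nat_lit 229678) (nat_lit 244) (.e (nat_lit 163896) (nat_lit 10) (.e (nat_lit 409602) (nat_lit 0) (.e (nat_lit 5761) (nat_lit 315) (.e (nat_lit 163850) (nat_lit 0) (.e (nat_lit 5547) (nat_lit 306) .nil)))))))) (.g (nat_lit 1) (.e (nat_lit 38176) (nat_lit 0) .nil) .nil))) 
(.lf (nat_lit 455296) (.g (nat_lit 4425) (.e (nat_lit 2663) (nat_lit 167) (.e (nat_lit 196666) (nat_lit 13) (.e (nat_lit 65610) (nat_lit 10) (.e (nat_lit 344117) (nat_lit 21) (.e (nat_lit 516151) (nat_lit 9) (.e (nat_lit 426042) (nat_lit 0) (.e (nat_lit 3370) (nat_lit 208) (.e (nat_lit 622627) (nat_lit 13) .nil)))))))) (.g (nat_lit 1) (.e (nat_lit 40601) (nat_lit 0) .nil) .nil)))) 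
(.nd (nat_lit 9) 
(.lf (nat_lit 455040) (.g (nat_lit 4494) (.e (nat_lit 2661) (nat_lit 167) (.e (nat_lit 196666) (nat_lit 13) (.e (nat_lit 65610) (nat_lit 10) (.e (nat_lit 344129) (nat_lit 26) (.e (nat_lit 557067) (nat_lit 9) (.e (nat_lit 22) (nat_lit 0) (.e (nat_lit 6232) (nat_lit 335) (.e (nat_lit 164359) (nat_lit 246) .nil)))))))) (.g (nat_lit 1) (.e (nat_lit 40178) (nat_lit 0) .nil) .nil))) 
(.lf (nat_lit 455552) (.g (nat_lit 2527) (.e (nat_lit 2663) (nat_lit 167) (.e (nat_lit 196670) (nat_lit 14) (.e (nat_lit 73754) (nat_lit 8) (.e (nat_lit 557105) (nat_lit 14) (.e (nat_lit 180252) (nat_lit 10) (.e (nat_lit 573475) (nat_lit 12) (.e (nat_lit 57511) (nat_lit 39) (.e (nat_lit 647171) (nat_lit 0) .nil)))))))) (.g (nat_lit 1) (.e (nat_lit 40974) (nat_lit 0) .nil) .nil)))))) 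
(.nd (nat_lit 7) (.nd (nat_lit 8) (.nd (nat_lit 9) 
(.lf (nat_lit 454720) (.g (nat_lit 3175) (.e (nat_lit 2648) (nat_lit 166) (.e (nat_lit 188431) (nat_lit 20) (.e (nat_lit 3399) (nat_lit 211) (.e (nat_lit 647183) (nat_lit 4) (.e (nat_lit 172106) (nat_lit 10) (.e (nat_lit 434209) (nat_lit 18) (.e (nat_lit 5548) (nat_lit 306) .nil))))))) (.g (nat_lit 1) (.e (nat_lit 36504) (nat_lit 0) .nil) .nil))) 
(.lf (nat_lit 455232) (.g (nat_lit 2658) (.e (nat_lit 2663) (nat_lit 167) (.e (nat_lit 196666) (nat_lit 13) (.e (nat_lit 65610) (nat_lit 10) (.e (nat_lit 344117) (nat_lit 21) (.e (nat_lit 516151) (nat_lit 9) .nil))))) (.g (nat_lit 0) (.e (nat_lit 40537) (nat_lit 0) .nil) .nil)))) (.nd (nat_lit 9) 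
(.lf (nat_lit 454976) (.g (nat_lit 2753) (.e (nat_lit 2657) (nat_lit 167) (.e (nat_lit 196668) (nat_lit 14) (.e (nat_lit 73753) (nat_lit 8) (.e (nat_lit 557105) (nat_lit 14) (.e (nat_lit 180252) (nat_lit 10) .nil))))) (.g (nat_lit 0) (.e (nat_lit 39958) (nat_lit 0) .nil) .nil))) 
(.lf (nat_lit 455488) (.g (nat_lit 2823) (.e (nat_lit 2663) (nat_lit 167) (.e (nat_lit 196670) (nat_lit 14) (.e (nat_lit 73753) (nat_lit 8) (.e (nat_lit 557103) (nat_lit 14) (.e (nat_lit 180244) (nat_lit 5) (.e (nat_lit 532503) (nat_lit 1) (.e (nat_lit 57704) (nat_lit 164) (.e (nat_lit 2515) (nat_lit 157) .nil)))))))) (.g (nat_lit 1) (.e (nat_lit 40910) (nat_lit 0) .nil) .nil))))) 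
(.nd (nat_lit 8) (.nd (nat_lit 9) 
(.lf (nat_lit 454848) (.g (nat_lit 2806) (.e (nat_lit 2651) (nat_lit 166) (.e (nat_lit 188439) (nat_lit 20) (.e (nat_lit 3409) (nat_lit 212) (.e (nat_lit 655380) (nat_lit 6) (.e (nat_lit 188453) (nat_lit 24) (.e (nat_lit 229666) (nat_lit 240) .nil)))))) (.g (nat_lit 1) (.e (nat_lit 38792) (nat_lit 0) .nil) .nil))) 
(.lf (nat_lit 455360) (.g (nat_lit 3378) (.e (nat_lit 2663) (nat_lit 167) (.e (nat_lit 196666) (nat_lit 13) (.e (nat_lit 65610) (nat_lit 10) (.e (nat_lit 344129) (nat_lit 26) (.e (nat_lit 557087) (nat_lit 11) (.e (nat_lit 24588) (nat_lit 0) (.e (nat_lit 6676) (nat_lit 357) .nil))))))) (.g (nat_lit 1) (.e (nat_lit 40698) (nat_lit 0) .nil) .nil)))) (.nd (nat_lit 9) 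
(.lf (nat_lit 455104) (.g (nat_lit 3443) (.e (nat_lit 2663) (nat_lit 167) (.e (nat_lit 196654) (nat_lit 11) (.e (nat_lit 16436) (nat_lit 9) (.e (nat_lit 426131) (nat_lit 3) (.e (nat_lit 204880) (nat_lit 32) (.e (nat_lit 385096) (nat_lit 49) (.e (nat_lit 778386) (nat_lit 9) .nil))))))) (.g (nat_lit 1) (.e (nat_lit 40301) (nat_lit 0) .nil) .nil))) 
(.lf (nat_lit 455616) (.g (nat_lit 1619) (.e (nat_lit 2664) (nat_lit 167) (.e (nat_lit 196666) (nat_lit 13) (.e (nat_lit 65610) (nat_lit 10) (.e (nat_lit 344117) (nat_lit 21) .nil)))) (.g (nat_lit 0) (.e (nat_lit 41196) (nat_lit 0) .nil) .nil))))))) (.nd (nat_lit 6) (.nd (nat_lit 7) (.nd (nat_lit 8) (.nd (nat_lit 9) 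
(.lf (nat_lit 454688) (.g (nat_lit 1887) (.e (nat_lit 2648) (nat_lit 166) (.e (nat_lit 188420) (nat_lit 0) (.e (nat_lit 2058) (nat_lit 142) (.e (nat_lit 704598) (nat_lit 6) (.e (nat_lit 188444) (nat_lit 21) (.e (nat_lit 164345) (nat_lit 240) .nil)))))) (.g (nat_lit 1) (.e (nat_lit 36435) (nat_lit 0) .nil) .nil))) 
(.lf (nat_lit 455200) (.g (nat_lit 4157) (.e (nat_lit 2663) (nat_lit 167) (.e (nat_lit 196666) (nat_lit 13) (.e (nat_lit 65610) (nat_lit 10) (.e (nat_lit 344117) (nat_lit 21) (.e (nat_lit 516145) (nat_lit 9) (.e (nat_lit 426354) (nat_lit 15) (.e (nat_lit 2017) (nat_lit 139) (.e (nat_lit 679967) (nat_lit 13) .nil)))))))) (.g (nat_lit 1) (.e (nat_lit 40505) (nat_lit 0) .nil) .nil)))) 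
(.nd (nat_lit 9) 
(.lf (nat_lit 454944) (.g (nat_lit 3126) (.e (nat_lit 2654) (nat_lit 167) (.e (nat_lit 196672) (nat_lit 15) (.e (nat_lit 81954) (nat_lit 23) (.e (nat_lit 98323) (nat_lit 17) (.e (nat_lit 7107) (nat_lit 380) (.e (nat_lit 164362) (nat_lit 246) .nil)))))) (.g (nat_lit 1) (.e (nat_lit 39821) (nat_lit 0) .nil) .nil))) 
(.lf (nat_lit 455456) (.g (nat_lit 4495) (.e (nat_lit 2663) (nat_lit 167) (.e (nat_lit 196666) (nat_lit 13) (.e (nat_lit 65630) (nat_lit 14) (.e (nat_lit 401425) (nat_lit 2) (.e (nat_lit 196668) (nat_lit 14) (.e (nat_lit 73782) (nat_lit 32) .nil)))))) (.g (nat_lit 1) (.e (nat_lit 40865) (nat_lit 0) .nil) .nil))))) (.nd (nat_lit 8) (.nd (nat_lit 9) 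
(.lf (nat_lit 454816) (.g (nat_lit 2202) (.e (nat_lit 2651) (nat_lit 166) (.e (nat_lit 188420) (nat_lit 0) (.e (nat_lit 2175) (nat_lit 143) (.e (nat_lit 712753) (nat_lit 30) (.e (nat_lit 450568) (nat_lit 0) (.e (nat_lit 5448) (nat_lit 306) .nil)))))) (.g (nat_lit 1) (.e (nat_lit 38605) (nat_lit 0) .nil) .nil))) 
(.lf (nat_lit 455328) (.g (nat_lit 3867) (.e (nat_lit 2663) (nat_lit 167) (.e (nat_lit 196666) (nat_lit 13) (.e (nat_lit 65610) (nat_lit 10) (.e (nat_lit 344117) (nat_lit 21) (.e (nat_lit 516160) (nat_lit 10) (.e (nat_lit 434208) (nat_lit 18) (.e (nat_lit 4751) (nat_lit 281) (.e (nat_lit 2517) (nat_lit 157) .nil)))))))) (.g (nat_lit 1) (.e (nat_lit 40633) (nat_lit 0) .nil) .nil)))) 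
(.nd (nat_lit 9) 
(.lf (nat_lit 455072) (.g (nat_lit 1982) (.e (nat_lit 2661) (nat_lit 167) (.e (nat_lit 196673) (nat_lit 15) (.e (nat_lit 81962) (nat_lit 25) (.e (nat_lit 139289) (nat_lit 9) (.e (nat_lit 2829) (nat_lit 182) (.e (nat_lit 409623) (nat_lit 10) (.e (nat_lit 5664) (nat_lit 312) .nil))))))) (.g (nat_lit 1) (.e (nat_lit 40226) (nat_lit 0) .nil) .nil))) 
(.lf (nat_lit 455584) (.g (nat_lit 2356) (.e (nat_lit 2663) (nat_lit 167) (.e (nat_lit 196674) (nat_lit 15) (.e (nat_lit 81922) (nat_lit 0) (.e (nat_lit 3305) (nat_lit 202) (.e (nat_lit 573487) (nat_lit 14) (.e (nat_lit 81664) (nat_lit 32) .nil)))))) (.g (nat_lit 1) (.e (nat_lit 41037) (nat_lit 0) .nil) .nil)))))) (.nd (nat_lit 7) (.nd (nat_lit 8) (.nd (nat_lit 9) 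
(.lf (nat_lit 454752) (.g (nat_lit 1030) (.e (nat_lit 2649) (nat_lit 166) (.e (nat_lit 188449) (nat_lit 22) (.e (nat_lit 196616) (nat_lit 0) .nil))) (.g (nat_lit 0) (.e (nat_lit 37176) (nat_lit 0) .nil) .nil))) 
(.lf (nat_lit 455264) (.g (nat_lit 3339) (.e (nat_lit 2663) (nat_lit 167) (.e (nat_lit 196666) (nat_lit 13) (.e (nat_lit 65610) (nat_lit 10) (.e (nat_lit 344117) (nat_lit 21) (.e (nat_lit 516151) (nat_lit 9) (.e (nat_lit 426026) (nat_lit 0) (.e (nat_lit 3366) (nat_lit 208) (.e (nat_lit 622627) (nat_lit 13) .nil)))))))) (.g (nat_lit 1) (.e (nat_lit 40569) (nat_lit 0) .nil) .nil)))) 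
(.nd (nat_lit 9) 
(.lf (nat_lit 455008) (.g (nat_lit 2385) (.e (nat_lit 2661) (nat_lit 167) (.e (nat_lit 196666) (nat_lit 13) (.e (nat_lit 65610) (nat_lit 10) (.e (nat_lit 344117) (nat_lit 21) (.e (nat_lit 516096) (nat_lit 0) (.e (nat_lit 7100) (nat_lit 380) (.e (nat_lit 164359) (nat_lit 246) .nil))))))) (.g (nat_lit 1) (.e (nat_lit 40143) (nat_lit 0) .nil) .nil))) 
(.lf (nat_lit 455520) (.g (nat_lit 4269) (.e (nat_lit 2663) (nat_lit 167) (.e (nat_lit 196670) (nat_lit 14) (.e (nat_lit 73753) (nat_lit 8) (.e (nat_lit 557105) (nat_lit 14) (.e (nat_lit 180252) (nat_lit 10) (.e (nat_lit 573475) (nat_lit 12) (.e (nat_lit 57508) (nat_lit 39) (.e (nat_lit 647176) (nat_lit 0) .nil)))))))) (.g (nat_lit 1) (.e (nat_lit 40942) (nat_lit 0) .nil) .nil))))) 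
(.nd (nat_lit 8) (.nd (nat_lit 9) 
(.lf (nat_lit 454880) (.g (nat_lit 1237) (.e (nat_lit 2653) (nat_lit 166) (.e (nat_lit 188418) (nat_lit 0) (.e (nat_lit 2058) (nat_lit 142) (.e (nat_lit 704598) (nat_lit 6) (.e (nat_lit 188454) (nat_lit 24) (.e (nat_lit 229665) (nat_lit 240) .nil)))))) (.g (nat_lit 1) (.e (nat_lit 39195) (nat_lit 0) .nil) .nil))) 
(.lf (nat_lit 455392) (.g (nat_lit 2575) (.e (nat_lit 2663) (nat_lit 167) (.e (nat_lit 196666) (nat_lit 13) (.e (nat_lit 65617) (nat_lit 10) (.e (nat_lit 344130) (nat_lit 26) (.e (nat_lit 557087) (nat_lit 11) (.e (nat_lit 24578) (nat_lit 0) (.e (nat_lit 6643) (nat_lit 357) .nil))))))) (.g (nat_lit 1) (.e (nat_lit 40781) (nat_lit 0) .nil) .nil)))) (.nd (nat_lit 9) 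
(.lf (nat_lit 455136) (.g (nat_lit 6035) (.e (nat_lit 2663) (nat_lit 167) (.e (nat_lit 196666) (nat_lit 13) (.e (nat_lit 65610) (nat_lit 10) (.e (nat_lit 344117) (nat_lit 21) (.e (nat_lit 516097) (nat_lit 0) (.e (nat_lit 7583) (nat_lit 405) (.e (nat_lit 57751) (nat_lit 201) .nil))))))) (.g (nat_lit 1) (.e (nat_lit 40441) (nat_lit 0) .nil) .nil))) 
(.lf (nat_lit 455648) (.g (nat_lit 2754) (.e (nat_lit 2664) (nat_lit 167) (.e (nat_lit 196666) (nat_lit 13) (.e (nat_lit 65610) (nat_lit 10) (.e (nat_lit 344117) (nat_lit 21) (.e (nat_lit 516106) (nat_lit 0) (.e (nat_lit 7008) (nat_lit 377) (.e (nat_lit 2416) (nat_lit 157) (.e (nat_lit 5710) (nat_lit 312) .nil)))))))) (.g (nat_lit 1) (.e (nat_lit 41228) (nat_lit 0) .nil) .nil)))))))) 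
(.nd (nat_lit 5) (.nd (nat_lit 6) (.nd (nat_lit 7) (.nd (nat_lit 8) (.nd (nat_lit 9) 
(.lf (nat_lit 454672) (.g (nat_lit 1567) (.e (nat_lit 2648) (nat_lit 166) (.e (nat_lit 188418) (nat_lit 0) (.e (nat_lit 2059) (nat_lit 142) (.e (nat_lit 704598) (nat_lit 6) (.e (nat_lit 188446) (nat_lit 21) (.e (nat_lit 164346) (nat_lit 240) .nil)))))) (.g (nat_lit 1) (.e (nat_lit 36417) (nat_lit 0) .nil) .nil))) 
(.lf (nat_lit 455184) (.g (nat_lit 3566) (.e (nat_lit 2663) (nat_lit 167) (.e (nat_lit 196666) (nat_lit 13) (.e (nat_lit 65610) (nat_lit 10) (.e (nat_lit 344117) (nat_lit 21) (.e (nat_lit 516143) (nat_lit 9) (.e (nat_lit 426143) (nat_lit 4) (.e (nat_lit 229610) (nat_lit 215) (.e (nat_lit 2477) (nat_lit 157) .nil)))))))) (.g (nat_lit 1) (.e (nat_lit 40489) (nat_lit 0) .nil) .nil)))) 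
(.nd (nat_lit 9) 
(.lf (nat_lit 454928) (.g (nat_lit 2745) (.e (nat_lit 2654) (nat_lit 167) (.e (nat_lit 196666) (nat_lit 13) (.e (nat_lit 65610) (nat_lit 10) (.e (nat_lit 344117) (nat_lit 21) (.e (nat_lit 516102) (nat_lit 0) (.e (nat_lit 7114) (nat_lit 381) (.e (nat_lit 229687) (nat_lit 246) .nil))))))) (.g (nat_lit 1) (.e (nat_lit 39798) (nat_lit 0) .nil) .nil))) 
(.lf (nat_lit 455440) (.g (nat_lit 4373) (.e (nat_lit 2663) (nat_lit 167) (.e (nat_lit 196666) (nat_lit 13) (.e (nat_lit 65624) (nat_lit 12) (.e (nat_lit 385074) (nat_lit 31) (.e (nat_lit 573487) (nat_lit 14) (.e (nat_lit 73782) (nat_lit 32) .nil)))))) (.g (nat_lit 1) (.e (nat_lit 40841) (nat_lit 0) .nil) .nil))))) (.nd (nat_lit 8) (.nd (nat_lit 9) 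
(.lf (nat_lit 454800) (.g (nat_lit 2326) (.e (nat_lit 2651) (nat_lit 166) (.e (nat_lit 188420) (nat_lit 0) (.e (nat_lit 2059) (nat_lit 142) (.e (nat_lit 704598) (nat_lit 6) (.e (nat_lit 188454) (nat_lit 24) (.e (nat_lit 229664) (nat_lit 240) .nil)))))) (.g (nat_lit 1) (.e (nat_lit 38586) (nat_lit 0) .nil) .nil))) 
(.lf (nat_lit 455312) (.g (nat_lit 5271) (.e (nat_lit 2663) (nat_lit 167) (.e (nat_lit 196666) (nat_lit 13) (.e (nat_lit 65610) (nat_lit 10) (.e (nat_lit 344117) (nat_lit 21) (.e (nat_lit 516151) (nat_lit 9) (.e (nat_lit 426047) (nat_lit 0) (.e (nat_lit 3366) (nat_lit 208) (.e (nat_lit 622626) (nat_lit 13) .nil)))))))) (.g (nat_lit 1) (.e (nat_lit 40617) (nat_lit 0) .nil) .nil)))) 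
(.nd (nat_lit 9) 
(.lf (nat_lit 455056) (.g (nat_lit 2663) (.e (nat_lit 2661) (nat_lit 167) (.e (nat_lit 196668) (nat_lit 14) (.e (nat_lit 73782) (nat_lit 32) (.e (nat_lit 2682) (nat_lit 168) (.e (nat_lit 204846) (nat_lit 24) (.e (nat_lit 319491) (nat_lit 0) (.e (nat_lit 5664) (nat_lit 312) .nil))))))) (.g (nat_lit 1) (.e (nat_lit 40199) (nat_lit 0) .nil) .nil))) 
(.lf (nat_lit 455568) (.g (nat_lit 3317) (.e (nat_lit 2663) (nat_lit 167) (.e (nat_lit 196672) (nat_lit 15) (.e (nat_lit 81954) (nat_lit 23) (.e (nat_lit 98350) (nat_lit 24) (.e (nat_lit 409610) (nat_lit 10) (.e (nat_lit 5738) (nat_lit 312) .nil)))))) (.g (nat_lit 1) (.e (nat_lit 41013) (nat_lit 0) .nil) .nil)))))) (.nd (nat_lit 7) (.nd (nat_lit 8) (.nd (nat_lit 9) 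
(.lf (nat_lit 454736) (.g (nat_lit 894) (.e (nat_lit 2649) (nat_lit 166) (.e (nat_lit 188420) (nat_lit 0) (.e (nat_lit 2059) (nat_lit 142) (.e (nat_lit 704598) (nat_lit 6) .nil)))) (.g (nat_lit 0) (.e (nat_lit 36971) (nat_lit 0) .nil) .nil))) 
(.lf (nat_lit 455248) (.g (nat_lit 5342) (.e (nat_lit 2663) (nat_lit 167) (.e (nat_lit 196666) (nat_lit 13) (.e (nat_lit 65610) (nat_lit 10) (.e (nat_lit 344117) (nat_lit 21) (.e (nat_lit 516151) (nat_lit 9) (.e (nat_lit 426019) (nat_lit 0) (.e (nat_lit 3366) (nat_lit 208) (.e (nat_lit 622627) (nat_lit 13) .nil)))))))) (.g (nat_lit 1) (.e (nat_lit 40553) (nat_lit 0) .nil) .nil)))) 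
(.nd (nat_lit 9) 
(.lf (nat_lit 454992) (.g (nat_lit 2697) (.e (nat_lit 2657) (nat_lit 167) (.e (nat_lit 196672) (nat_lit 15) (.e (nat_lit 81954) (nat_lit 23) (.e (nat_lit 98350) (nat_lit 24) (.e (nat_lit 409614) (nat_lit 10) (.e (nat_lit 7936) (nat_lit 312) .nil)))))) (.g (nat_lit 1) (.e (nat_lit 40056) (nat_lit 0) .nil) .nil))) 
(.lf (nat_lit 455504) (.g (nat_lit 2836) (.e (nat_lit 2663) (nat_lit 167) (.e (nat_lit 196670) (nat_lit 14) (.e (nat_lit 73753) (nat_lit 8) (.e (nat_lit 557105) (nat_lit 14) (.e (nat_lit 180251) (nat_lit 10) (.e (nat_lit 573477) (nat_lit 12) (.e (nat_lit 57511) (nat_lit 39) (.e (nat_lit 647171) (nat_lit 0) .nil)))))))) (.g (nat_lit 1) (.e (nat_lit 40926) (nat_lit 0) .nil) .nil))))) 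
(.nd (nat_lit 8) (.nd (nat_lit 9) 
(.lf (nat_lit 454864) (.g (nat_lit 2220) (.e (nat_lit 2651) (nat_lit 166) (.e (nat_lit 188441) (nat_lit 20) (.e (nat_lit 3469) (nat_lit 217) (.e (nat_lit 696344) (nat_lit 8) (.e (nat_lit 172115) (nat_lit 10) (.e (nat_lit 434202) (nat_lit 18) (.e (nat_lit 6255) (nat_lit 337) .nil))))))) (.g (nat_lit 1) (.e (nat_lit 38846) (nat_lit 0) .nil) .nil))) 
(.lf (nat_lit 455376) (.g (nat_lit 952) (.e (nat_lit 2663) (nat_lit 167) (.e (nat_lit 196666) (nat_lit 13) (.e (nat_lit 65617) (nat_lit 10) (.e (nat_lit 344130) (nat_lit 26) .nil)))) (.g (nat_lit 0) (.e (nat_lit 40763) (nat_lit 0) .nil) .nil)))) (.nd (nat_lit 9) 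
(.lf (nat_lit 455120) (.g (nat_lit 3022) (.e (nat_lit 2663) (nat_lit 167) (.e (nat_lit 196663) (nat_lit 13) (.e (nat_lit 65630) (nat_lit 14) (.e (nat_lit 401428) (nat_lit 3) (.e (nat_lit 204863) (nat_lit 27) (.e (nat_lit 344068) (nat_lit 0) .nil)))))) (.g (nat_lit 1) (.e (nat_lit 40376) (nat_lit 0) .nil) .nil))) 
(.lf (nat_lit 455632) (.g (nat_lit 3974) (.e (nat_lit 2664) (nat_lit 167) (.e (nat_lit 196666) (nat_lit 13) (.e (nat_lit 65610) (nat_lit 10) (.e (nat_lit 344117) (nat_lit 21) (.e (nat_lit 516098) (nat_lit 0) (.e (nat_lit 7581) (nat_lit 405) (.e (nat_lit 57751) (nat_lit 201) .nil))))))) (.g (nat_lit 1) (.e (nat_lit 41212) (nat_lit 0) .nil) .nil))))))) 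
(.nd (nat_lit 6) (.nd (nat_lit 7) (.nd (nat_lit 8) (.nd (nat_lit 9) 
(.lf (nat_lit 454704) (.g (nat_lit 2803) (.e (nat_lit 2648) (nat_lit 166) (.e (nat_lit 188420) (nat_lit 0) (.e (nat_lit 2174) (nat_lit 143) (.e (nat_lit 712755) (nat_lit 30) (.e (nat_lit 450566) (nat_lit 0) (.e (nat_lit 5548) (nat_lit 306) .nil)))))) (.g (nat_lit 1) (.e (nat_lit 36451) (nat_lit 0) .nil) .nil))) 
(.lf (nat_lit 455216) (.g (nat_lit 3731) (.e (nat_lit 2663) (nat_lit 167) (.e (nat_lit 196666) (nat_lit 13) (.e (nat_lit 65610) (nat_lit 10) (.e (nat_lit 344117) (nat_lit 21) (.e (nat_lit 516145) (nat_lit 9) (.e (nat_lit 426360) (nat_lit 15) (.e (nat_lit 2019) (nat_lit 139) (.e (nat_lit 679967) (nat_lit 13) .nil)))))))) (.g (nat_lit 1) (.e (nat_lit 40521) (nat_lit 0) .nil) .nil)))) 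
(.nd (nat_lit 9) 
(.lf (nat_lit 454960) (.g (nat_lit 4556) (.e (nat_lit 2654) (nat_lit 167) (.e (nat_lit 196674) (nat_lit 15) (.e (nat_lit 81956) (nat_lit 23) (.e (nat_lit 98350) (nat_lit 24) (.e (nat_lit 409616) (nat_lit 10) .nil))))) (.g (nat_lit 0) (.e (nat_lit 39838) (nat_lit 0) .nil) .nil))) 
(.lf (nat_lit 455472) (.g (nat_lit 3683) (.e (nat_lit 2663) (nat_lit 167) (.e (nat_lit 196668) (nat_lit 14) (.e (nat_lit 73782) (nat_lit 32) (.e (nat_lit 2664) (nat_lit 167) (.e (nat_lit 196670) (nat_lit 14) (.e (nat_lit 73781) (nat_lit 32) .nil)))))) (.g (nat_lit 1) (.e (nat_lit 40893) (nat_lit 0) .nil) .nil))))) (.nd (nat_lit 8) (.nd (nat_lit 9) 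
(.lf (nat_lit 454832) (.g (nat_lit 2802) (.e (nat_lit 2651) (nat_lit 166) (.e (nat_lit 188434) (nat_lit 20) (.e (nat_lit 3469) (nat_lit 217) (.e (nat_lit 696344) (nat_lit 8) (.e (nat_lit 172113) (nat_lit 10) (.e (nat_lit 434203) (nat_lit 18) (.e (nat_lit 6255) (nat_lit 337) .nil))))))) (.g (nat_lit 1) (.e (nat_lit 38717) (nat_lit 0) .nil) .nil))) 
(.lf (nat_lit 455344) (.g (nat_lit 4449) (.e (nat_lit 2663) (nat_lit 167) (.e (nat_lit 196666) (nat_lit 13) (.e (nat_lit 65610) (nat_lit 10) (.e (nat_lit 344117) (nat_lit 21) (.e (nat_lit 516185) (nat_lit 16) (.e (nat_lit 491521) (nat_lit 0) (.e (nat_lit 6691) (nat_lit 357) .nil))))))) (.g (nat_lit 1) (.e (nat_lit 40670) (nat_lit 0) .nil) .nil)))) (.nd (nat_lit 9) 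
(.lf (nat_lit 455088) (.g (nat_lit 2808) (.e (nat_lit 2662) (nat_lit 167) (.e (nat_lit 196673) (nat_lit 15) (.e (nat_lit 81956) (nat_lit 23) (.e (nat_lit 98350) (nat_lit 24) .nil)))) (.g (nat_lit 0) (.e (nat_lit 40243) (nat_lit 0) .nil) .nil))) 
(.lf (nat_lit 455600) (.g (nat_lit 2402) (.e (nat_lit 2664) (nat_lit 167) (.e (nat_lit 196666) (nat_lit 13) (.e (nat_lit 65582) (nat_lit 7) (.e (nat_lit 319517) (nat_lit 12) (.e (nat_lit 32788) (nat_lit 10) (.e (nat_lit 73782) (nat_lit 32) .nil)))))) (.g (nat_lit 1) (.e (nat_lit 41164) (nat_lit 0) .nil) .nil)))))) (.nd (nat_lit 7) (.nd (nat_lit 8) (.nd (nat_lit 9) 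
(.lf (nat_lit 454768) (.g (nat_lit 2128) (.e (nat_lit 2650) (nat_lit 166) (.e (nat_lit 188434) (nat_lit 20) (.e (nat_lit 3469) (nat_lit 217) (.e (nat_lit 696344) (nat_lit 8) (.e (nat_lit 172113) (nat_lit 10) (.e (nat_lit 434203) (nat_lit 18) (.e (nat_lit 6374) (nat_lit 337) .nil))))))) (.g (nat_lit 1) (.e (nat_lit 37657) (nat_lit 0) .nil) .nil))) 
(.lf (nat_lit 455280) (.g (nat_lit 5314) (.e (nat_lit 2663) (nat_lit 167) (.e (nat_lit 196666) (nat_lit 13) (.e (nat_lit 65610) (nat_lit 10) (.e (nat_lit 344117) (nat_lit 21) (.e (nat_lit 516151) (nat_lit 9) (.e (nat_lit 426040) (nat_lit 0) (.e (nat_lit 3366) (nat_lit 208) (.e (nat_lit 622620) (nat_lit 13) .nil)))))))) (.g (nat_lit 1) (.e (nat_lit 40585) (nat_lit 0) .nil) .nil)))) 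
(.nd (nat_lit 9) 
(.lf (nat_lit 455024) (.g (nat_lit 3601) (.e (nat_lit 2661) (nat_lit 167) (.e (nat_lit 196666) (nat_lit 13) (.e (nat_lit 65610) (nat_lit 10) (.e (nat_lit 344117) (nat_lit 21) (.e (nat_lit 516106) (nat_lit 0) (.e (nat_lit 7112) (nat_lit 381) (.e (nat_lit 229686) (nat_lit 246) .nil))))))) (.g (nat_lit 1) (.e (nat_lit 40159) (nat_lit 0) .nil) .nil))) 
(.lf (nat_lit 455536) (.g (nat_lit 2581) (.e (nat_lit 2663) (nat_lit 167) (.e (nat_lit 196670) (nat_lit 14) (.e (nat_lit 73754) (nat_lit 8) (.e (nat_lit 557105) (nat_lit 14) (.e (nat_lit 180252) (nat_lit 10) (.e (nat_lit 573473) (nat_lit 12) (.e (nat_lit 57511) (nat_lit 39) (.e (nat_lit 647168) (nat_lit 0) .nil)))))))) (.g (nat_lit 1) (.e (nat_lit 40958) (nat_lit 0) .nil) .nil))))) 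
(.nd (nat_lit 8) (.nd (nat_lit 9) 
(.lf (nat_lit 454896) (.g (nat_lit 2078) (.e (nat_lit 2653) (nat_lit 166) (.e (nat_lit 188418) (nat_lit 0) (.e (nat_lit 2175) (nat_lit 143) (.e (nat_lit 712753) (nat_lit 30) (.e (nat_lit 450569) (nat_lit 0) (.e (nat_lit 5448) (nat_lit 306) .nil)))))) (.g (nat_lit 1) (.e (nat_lit 39212) (nat_lit 0) .nil) .nil))) 
(.lf (nat_lit 455408) (.g (nat_lit 2505) (.e (nat_lit 2663) (nat_lit 167) (.e (nat_lit 196666) (nat_lit 13) (.e (nat_lit 65617) (nat_lit 10) (.e (nat_lit 344130) (nat_lit 26) (.e (nat_lit 557090) (nat_lit 12) (.e (nat_lit 163843) (nat_lit 0) (.e (nat_lit 6416) (nat_lit 341) (.e (nat_lit 163843) (nat_lit 0) (.e (nat_lit 7366) (nat_lit 388) .nil))))))))) (.g (nat_lit 1) (.e (nat_lit 40798) (nat_lit 0) .nil) .nil)))) 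
(.nd (nat_lit 9) 
(.lf (nat_lit 455152) (.g (nat_lit 3953) (.e (nat_lit 2663) (nat_lit 167) (.e (nat_lit 196666) (nat_lit 13) (.e (nat_lit 65610) (nat_lit 10) (.e (nat_lit 344117) (nat_lit 21) (.e (nat_lit 516106) (nat_lit 0) (.e (nat_lit 7008) (nat_lit 377) (.e (nat_lit 2422) (nat_lit 157) (.e (nat_lit 5738) (nat_lit 312) .nil)))))))) (.g (nat_lit 1) (.e (nat_lit 40457) (nat_lit 0) .nil) .nil))) 
(.lf (nat_lit 455664) (.g (nat_lit 5172) (.e (nat_lit 2664) (nat_lit 167) (.e (nat_lit 196666) (nat_lit 13) (.e (nat_lit 65610) (nat_lit 10) (.e (nat_lit 344117) (nat_lit 21) (.e (nat_lit 516139) (nat_lit 7) (.e (nat_lit 409618) (nat_lit 10) (.e (nat_lit 5728) (nat_lit 312) .nil))))))) (.g (nat_lit 1) (.e (nat_lit 41244) (nat_lit 0) .nil) .nil))))))))) 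
(.nd (nat_lit 4) (.nd (nat_lit 5) (.nd (nat_lit 6) (.nd (nat_lit 7) (.nd (nat_lit 8) 
(.nd (nat_lit 9) 
(.lf (nat_lit 454664) (.g (nat_lit 1715) (.e (nat_lit 2648) (nat_lit 166) (.e (nat_lit 188417) (nat_lit 0) (.e (nat_lit 2148) (nat_lit 142) (.e (nat_lit 704597) (nat_lit 6) (.e (nat_lit 188444) (nat_lit 21) (.e (nat_lit 164348) (nat_lit 240) .nil)))))) (.g (nat_lit 1) (.e (nat_lit 36409) (nat_lit 0) .nil) .nil))) 
(.lf (nat_lit 455176) (.g (nat_lit 4437) (.e (nat_lit 2663) (nat_lit 167) (.e (nat_lit 196666) (nat_lit 13) (.e (nat_lit 65610) (nat_lit 10) (.e (nat_lit 344117) (nat_lit 21) (.e (nat_lit 516141) (nat_lit 8) (.e (nat_lit 417817) (nat_lit 10) (.e (nat_lit 5728) (nat_lit 312) .nil))))))) (.g (nat_lit 1) (.e (nat_lit 40481) (nat_lit 0) .nil) .nil)))) (.nd (nat_lit 9) 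
(.lf (nat_lit 454920) (.g (nat_lit 468) (.e (nat_lit 7936) (nat_lit 166) (.e (nat_lit 188434) (nat_lit 20) (.e (nat_lit 3390) (nat_lit 210) .nil))) (.g (nat_lit 0) (.e (nat_lit 39565) (nat_lit 0) .nil) .nil))) 
(.lf (nat_lit 455432) (.g (nat_lit 3874) (.e (nat_lit 2663) (nat_lit 167) (.e (nat_lit 196666) (nat_lit 13) (.e (nat_lit 65617) (nat_lit 10) (.e (nat_lit 344133) (nat_lit 26) (.e (nat_lit 557091) (nat_lit 12) (.e (nat_lit 163849) (nat_lit 0) (.e (nat_lit 6420) (nat_lit 341) (.e (nat_lit 163843) (nat_lit 0) (.e (nat_lit 7366) (nat_lit 388) .nil))))))))) (.g (nat_lit 1) (.e (nat_lit 40825) (nat_lit 0) .nil) .nil))))) 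
(.nd (nat_lit 8) (.nd (nat_lit 9) 
(.lf (nat_lit 454792) (.g (nat_lit 2402) (.e (nat_lit 2651) (nat_lit 166) (.e (nat_lit 188420) (nat_lit 0) (.e (nat_lit 2057) (nat_lit 142) (.e (nat_lit 704598) (nat_lit 6) (.e (nat_lit 188455) (nat_lit 24) (.e (nat_lit 229664) (nat_lit 240) .nil)))))) (.g (nat_lit 1) (.e (nat_lit 38578) (nat_lit 0) .nil) .nil))) 
(.lf (nat_lit 455304) (.g (nat_lit 3289) (.e (nat_lit 2663) (nat_lit 167) (.e (nat_lit 196666) (nat_lit 13) (.e (nat_lit 65610) (nat_lit 10) (.e (nat_lit 344117) (nat_lit 21) (.e (nat_lit 516151) (nat_lit 9) (.e (nat_lit 426049) (nat_lit 0) (.e (nat_lit 7936) (nat_lit 208) (.e (nat_lit 622627) (nat_lit 13) .nil)))))))) (.g (nat_lit 1) (.e (nat_lit 40609) (nat_lit 0) .nil) .nil)))) 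
(.nd (nat_lit 9) 
(.lf (nat_lit 455048) (.g (nat_lit 2200) (.e (nat_lit 2661) (nat_lit 167) (.e (nat_lit 196666) (nat_lit 13) (.e (nat_lit 65617) (nat_lit 10) (.e (nat_lit 344130) (nat_lit 26) (.e (nat_lit 557084) (nat_lit 10) (.e (nat_lit 16128) (nat_lit 228) (.e (nat_lit 164359) (nat_lit 246) .nil))))))) (.g (nat_lit 1) (.e (nat_lit 40187) (nat_lit 0) .nil) .nil))) 
(.lf (nat_lit 455560) (.g (nat_lit 2949) (.e (nat_lit 2663) (nat_lit 167) (.e (nat_lit 196671) (nat_lit 15) (.e (nat_lit 81956) (nat_lit 23) (.e (nat_lit 98350) (nat_lit 24) (.e (nat_lit 409617) (nat_lit 10) (.e (nat_lit 5710) (nat_lit 312) .nil)))))) (.g (nat_lit 1) (.e (nat_lit 40984) (nat_lit 0) .nil) .nil)))))) (.nd (nat_lit 7) (.nd (nat_lit 8) (.nd (nat_lit 9) 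
(.lf (nat_lit 454728) (.g (nat_lit 3628) (.e (nat_lit 2648) (nat_lit 166) (.e (nat_lit 188439) (nat_lit 20) (.e (nat_lit 3409) (nat_lit 212) (.e (nat_lit 655378) (nat_lit 4) (.e (nat_lit 172115) (nat_lit 10) (.e (nat_lit 434209) (nat_lit 18) (.e (nat_lit 5548) (nat_lit 306) .nil))))))) (.g (nat_lit 1) (.e (nat_lit 36611) (nat_lit 0) .nil) .nil))) 
(.lf (nat_lit 455240) (.g (nat_lit 3671) (.e (nat_lit 2663) (nat_lit 167) (.e (nat_lit 196666) (nat_lit 13) (.e (nat_lit 65610) (nat_lit 10) (.e (nat_lit 344117) (nat_lit 21) (.e (nat_lit 516151) (nat_lit 9) (.e (nat_lit 426017) (nat_lit 0) (.e (nat_lit 2436) (nat_lit 157) (.e (nat_lit 4817) (nat_lit 281) (.e (nat_lit 2477) (nat_lit 157) .nil))))))))) (.g (nat_lit 1) (.e (nat_lit 40545) (nat_lit 0) .nil) .nil)))) 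
(.nd (nat_lit 9) 
(.lf (nat_lit 454984) (.g (nat_lit 3280) (.e (nat_lit 2657) (nat_lit 167) (.e (nat_lit 196670) (nat_lit 14) (.e (nat_lit 73753) (nat_lit 8) (.e (nat_lit 557105) (nat_lit 14) (.e (nat_lit 180252) (nat_lit 10) (.e (nat_lit 573474) (nat_lit 12) (.e (nat_lit 57508) (nat_lit 39) (.e (nat_lit 647175) (nat_lit 0) .nil)))))))) (.g (nat_lit 1) (.e (nat_lit 40001) (nat_lit 0) .nil) .nil))) 
(.lf (nat_lit 455496) (.g (nat_lit 3544) (.e (nat_lit 2663) (nat_lit 167) (.e (nat_lit 196670) (nat_lit 14) (.e (nat_lit 73753) (nat_lit 8) (.e (nat_lit 557103) (nat_lit 14) (.e (nat_lit 180250) (nat_lit 10) (.e (nat_lit 573475) (nat_lit 12) (.e (nat_lit 57506) (nat_lit 39) (.e (nat_lit 647176) (nat_lit 0) .nil)))))))) (.g (nat_lit 1) (.e (nat_lit 40918) (nat_lit 0) .nil) .nil))))) 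
(.nd (nat_lit 8) (.nd (nat_lit 9) 
(.lf (nat_lit 454856) (.g (nat_lit 492) (.e (nat_lit 2651) (nat_lit 166) (.e (nat_lit 188440) (nat_lit 20) (.e (nat_lit 3408) (nat_lit 212) .nil))) (.g (nat_lit 0) (.e (nat_lit 38833) (nat_lit 0) .nil) .nil))) 
(.lf (nat_lit 455368) (.g (nat_lit 1740) (.e (nat_lit 2663) (nat_lit 167) (.e (nat_lit 196666) (nat_lit 13) (.e (nat_lit 65617) (nat_lit 10) (.e (nat_lit 344096) (nat_lit 18) (.e (nat_lit 3957) (nat_lit 239) .nil))))) (.g (nat_lit 0) (.e (nat_lit 40726) (nat_lit 0) .nil) .nil)))) (.nd (nat_lit 9) 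
(.lf (nat_lit 455112) (.g (nat_lit 3370) (.e (nat_lit 2663) (nat_lit 167) (.e (nat_lit 196654) (nat_lit 11) (.e (nat_lit 16436) (nat_lit 9) (.e (nat_lit 426131) (nat_lit 3) (.e (nat_lit 204880) (nat_lit 32) (.e (nat_lit 385096) (nat_lit 49) (.e (nat_lit 778395) (nat_lit 9) .nil))))))) (.g (nat_lit 1) (.e (nat_lit 40309) (nat_lit 0) .nil) .nil))) 
(.lf (nat_lit 455624) (.g (nat_lit 3871) (.e (nat_lit 2664) (nat_lit 167) (.e (nat_lit 196666) (nat_lit 13) (.e (nat_lit 65610) (nat_lit 10) (.e (nat_lit 344117) (nat_lit 21) (.e (nat_lit 516097) (nat_lit 0) (.e (nat_lit 7583) (nat_lit 405) (.e (nat_lit 57747) (nat_lit 201) .nil))))))) (.g (nat_lit 1) (.e (nat_lit 41204) (nat_lit 0) .nil) .nil))))))) 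
(.nd (nat_lit 6) (.nd (nat_lit 7) (.nd (nat_lit 8) (.nd (nat_lit 9) 
(.lf (nat_lit 454696) (.g (nat_lit 2091) (.e (nat_lit 2648) (nat_lit 166) (.e (nat_lit 188420) (nat_lit 0) (.e (nat_lit 2059) (nat_lit 142) (.e (nat_lit 704598) (nat_lit 6) (.e (nat_lit 188446) (nat_lit 21) (.e (nat_lit 164346) (nat_lit 240) .nil)))))) (.g (nat_lit 1) (.e (nat_lit 36443) (nat_lit 0) .nil) .nil))) 
(.lf (nat_lit 455208) (.g (nat_lit 3537) (.e (nat_lit 2663) (nat_lit 167) (.e (nat_lit 196666) (nat_lit 13) (.e (nat_lit 65610) (nat_lit 10) (.e (nat_lit 344117) (nat_lit 21) (.e (nat_lit 516145) (nat_lit 9) (.e (nat_lit 426360) (nat_lit 15) (.e (nat_lit 2012) (nat_lit 139) (.e (nat_lit 679965) (nat_lit 13) .nil)))))))) (.g (nat_lit 1) (.e (nat_lit 40513) (nat_lit 0) .nil) .nil)))) 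
(.nd (nat_lit 9) 
(.lf (nat_lit 454952) (.g (nat_lit 3356) (.e (nat_lit 2654) (nat_lit 167) (.e (nat_lit 196672) (nat_lit 15) (.e (nat_lit 81954) (nat_lit 23) (.e (nat_lit 98350) (nat_lit 24) (.e (nat_lit 409623) (nat_lit 10) (.e (nat_lit 5664) (nat_lit 312) .nil)))))) (.g (nat_lit 1) (.e (nat_lit 39829) (nat_lit 0) .nil) .nil))) 
(.lf (nat_lit 455464) (.g (nat_lit 4500) (.e (nat_lit 2663) (nat_lit 167) (.e (nat_lit 196666) (nat_lit 13) (.e (nat_lit 65630) (nat_lit 14) (.e (nat_lit 401428) (nat_lit 3) (.e (nat_lit 204863) (nat_lit 27) (.e (nat_lit 344068) (nat_lit 0) .nil)))))) (.g (nat_lit 1) (.e (nat_lit 40877) (nat_lit 0) .nil) .nil))))) (.nd (nat_lit 8) (.nd (nat_lit 9) 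
(.lf (nat_lit 454824) (.g (nat_lit 2217) (.e (nat_lit 2651) (nat_lit 166) (.e (nat_lit 188431) (nat_lit 20) (.e (nat_lit 3397) (nat_lit 211) (.e (nat_lit 647185) (nat_lit 6) (.e (nat_lit 188453) (nat_lit 24) (.e (nat_lit 229666) (nat_lit 240) .nil)))))) (.g (nat_lit 1) (.e (nat_lit 38687) (nat_lit 0) .nil) .nil))) 
(.lf (nat_lit 455336) (.g (nat_lit 3857) (.e (nat_lit 2663) (nat_lit 167) (.e (nat_lit 196666) (nat_lit 13) (.e (nat_lit 65610) (nat_lit 10) (.e (nat_lit 344117) (nat_lit 21) (.e (nat_lit 516160) (nat_lit 10) (.e (nat_lit 434214) (nat_lit 18) (.e (nat_lit 4823) (nat_lit 281) (.e (nat_lit 2477) (nat_lit 157) .nil)))))))) (.g (nat_lit 1) (.e (nat_lit 40641) (nat_lit 0) .nil) .nil)))) 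
(.nd (nat_lit 9) 
(.lf (nat_lit 455080) (.g (nat_lit 4231) (.e (nat_lit 2661) (nat_lit 167) (.e (nat_lit 196674) (nat_lit 15) (.e (nat_lit 81956) (nat_lit 23) (.e (nat_lit 98350) (nat_lit 24) (.e (nat_lit 409616) (nat_lit 10) .nil))))) (.g (nat_lit 0) (.e (nat_lit 40234) (nat_lit 0) .nil) .nil))) 
(.lf (nat_lit 455592) (.g (nat_lit 2881) (.e (nat_lit 2664) (nat_lit 167) (.e (nat_lit 196630) (nat_lit 9) (.e (nat_lit 1499) (nat_lit 108) (.e (nat_lit 336204) (nat_lit 12) (.e (nat_lit 385074) (nat_lit 31) (.e (nat_lit 573487) (nat_lit 14) (.e (nat_lit 73782) (nat_lit 32) .nil))))))) (.g (nat_lit 1) (.e (nat_lit 41152) (nat_lit 0) .nil) .nil)))))) 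
(.nd (nat_lit 7) (.nd (nat_lit 8) (.nd (nat_lit 9) 
(.lf (nat_lit 454760) (.g (nat_lit 1921) (.e (nat_lit 2650) (nat_lit 166) (.e (nat_lit 188434) (nat_lit 20) (.e (nat_lit 3288) (nat_lit 201) (.e (nat_lit 565252) (nat_lit 0) (.e (nat_lit 1589) (nat_lit 111) (.e (nat_lit 368384) (nat_lit 0) (.e (nat_lit 7685) (nat_lit 410) .nil))))))) (.g (nat_lit 1) (.e (nat_lit 37573) (nat_lit 0) .nil) .nil))) 
(.lf (nat_lit 455272) (.g (nat_lit 5288) (.e (nat_lit 2663) (nat_lit 167) (.e (nat_lit 196666) (nat_lit 13) (.e (nat_lit 65610) (nat_lit 10) (.e (nat_lit 344117) (nat_lit 21) (.e (nat_lit 516151) (nat_lit 9) (.e (nat_lit 426038) (nat_lit 0) (.e (nat_lit 2423) (nat_lit 157) (.e (nat_lit 4821) (nat_lit 281) (.e (nat_lit 2477) (nat_lit 157) .nil))))))))) (.g (nat_lit 1) (.e (nat_lit 40577) (nat_lit 0) .nil) .nil)))) 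
(.nd (nat_lit 9) 
(.lf (nat_lit 455016) (.g (nat_lit 2741) (.e (nat_lit 2661) (nat_lit 167) (.e (nat_lit 196666) (nat_lit 13) (.e (nat_lit 65610) (nat_lit 10) (.e (nat_lit 344117) (nat_lit 21) (.e (nat_lit 516102) (nat_lit 0) (.e (nat_lit 7114) (nat_lit 381) (.e (nat_lit 229685) (nat_lit 246) .nil))))))) (.g (nat_lit 1) (.e (nat_lit 40151) (nat_lit 0) .nil) .nil))) 
(.lf (nat_lit 455528) (.g (nat_lit 5460) (.e (nat_lit 2663) (nat_lit 167) (.e (nat_lit 196670) (nat_lit 14) (.e (nat_lit 73754) (nat_lit 8) (.e (nat_lit 557105) (nat_lit 14) (.e (nat_lit 180252) (nat_lit 10) (.e (nat_lit 573473) (nat_lit 12) (.e (nat_lit 57507) (nat_lit 39) (.e (nat_lit 647176) (nat_lit 0) .nil)))))))) (.g (nat_lit 1) (.e (nat_lit 40950) (nat_lit 0) .nil) .nil))))) 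
(.nd (nat_lit 8) (.nd (nat_lit 9) 
(.lf (nat_lit 454888) (.g (nat_lit 2084) (.e (nat_lit 2653) (nat_lit 166) (.e (nat_lit 188418) (nat_lit 0) (.e (nat_lit 2059) (nat_lit 142) (.e (nat_lit 704598) (nat_lit 6) (.e (nat_lit 188455) (nat_lit 24) (.e (nat_lit 229666) (nat_lit 240) .nil)))))) (.g (nat_lit 1) (.e (nat_lit 39203) (nat_lit 0) .nil) .nil))) 
(.lf (nat_lit 455400) (.g (nat_lit 4372) (.e (nat_lit 2663) (nat_lit 167) (.e (nat_lit 196666) (nat_lit 13) (.e (nat_lit 65617) (nat_lit 10) (.e (nat_lit 344130) (nat_lit 26) (.e (nat_lit 557087) (nat_lit 11) (.e (nat_lit 24584) (nat_lit 0) (.e (nat_lit 7936) (nat_lit 357) .nil))))))) (.g (nat_lit 1) (.e (nat_lit 40790) (nat_lit 0) .nil) .nil)))) (.nd (nat_lit 9) 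
(.lf (nat_lit 455144) (.g (nat_lit 4884) (.e (nat_lit 2663) (nat_lit 167) (.e (nat_lit 196666) (nat_lit 13) (.e (nat_lit 65610) (nat_lit 10) (.e (nat_lit 344117) (nat_lit 21) (.e (nat_lit 516098) (nat_lit 0) (.e (nat_lit 7583) (nat_lit 405) (.e (nat_lit 57750) (nat_lit 201) .nil))))))) (.g (nat_lit 1) (.e (nat_lit 40449) (nat_lit 0) .nil) .nil))) 
(.lf (nat_lit 455656) (.g (nat_lit 3700) (.e (nat_lit 2664) (nat_lit 167) (.e (nat_lit 196666) (nat_lit 13) (.e (nat_lit 65610) (nat_lit 10) (.e (nat_lit 344117) (nat_lit 21) (.e (nat_lit 516106) (nat_lit 0) (.e (nat_lit 7936) (nat_lit 405) (.e (nat_lit 57751) (nat_lit 201) .nil))))))) (.g (nat_lit 1) (.e (nat_lit 41236) (nat_lit 0) .nil) .nil)))))))) 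
(.nd (nat_lit 5) (.nd (nat_lit 6) (.nd (nat_lit 7) (.nd (nat_lit 8) (.nd (nat_lit 9) 
(.lf (nat_lit 454680) (.g (nat_lit 1747) (.e (nat_lit 2648) (nat_lit 166) (.e (nat_lit 188418) (nat_lit 0) (.e (nat_lit 2174) (nat_lit 143) (.e (nat_lit 712755) (nat_lit 30) (.e (nat_lit 458496) (nat_lit 0) (.e (nat_lit 5547) (nat_lit 306) .nil)))))) (.g (nat_lit 1) (.e (nat_lit 36425) (nat_lit 0) .nil) .nil))) 
(.lf (nat_lit 455192) (.g (nat_lit 3654) (.e (nat_lit 2663) (nat_lit 167) (.e (nat_lit 196666) (nat_lit 13) (.e (nat_lit 65610) (nat_lit 10) (.e (nat_lit 344117) (nat_lit 21) (.e (nat_lit 516145) (nat_lit 9) (.e (nat_lit 425994) (nat_lit 0) (.e (nat_lit 3366) (nat_lit 208) (.e (nat_lit 622627) (nat_lit 13) .nil)))))))) (.g (nat_lit 1) (.e (nat_lit 40497) (nat_lit 0) .nil) .nil)))) 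
(.nd (nat_lit 9) 
(.lf (nat_lit 454936) (.g (nat_lit 2951) (.e (nat_lit 2654) (nat_lit 167) (.e (nat_lit 196666) (nat_lit 13) (.e (nat_lit 65610) (nat_lit 10) (.e (nat_lit 344129) (nat_lit 26) (.e (nat_lit 557087) (nat_lit 11) (.e (nat_lit 24584) (nat_lit 0) (.e (nat_lit 6651) (nat_lit 357) .nil))))))) (.g (nat_lit 1) (.e (nat_lit 39807) (nat_lit 0) .nil) .nil))) 
(.lf (nat_lit 455448) (.g (nat_lit 2561) (.e (nat_lit 2663) (nat_lit 167) (.e (nat_lit 196666) (nat_lit 13) (.e (nat_lit 65628) (nat_lit 14) (.e (nat_lit 401428) (nat_lit 3) (.e (nat_lit 204862) (nat_lit 27) (.e (nat_lit 344068) (nat_lit 0) .nil)))))) (.g (nat_lit 1) (.e (nat_lit 40854) (nat_lit 0) .nil) .nil))))) (.nd (nat_lit 8) (.nd (nat_lit 9) 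
(.lf (nat_lit 454808) (.g (nat_lit 2487) (.e (nat_lit 2651) (nat_lit 166) (.e (nat_lit 188420) (nat_lit 0) (.e (nat_lit 2174) (nat_lit 143) (.e (nat_lit 712752) (nat_lit 29) (.e (nat_lit 442430) (nat_lit 24) (.e (nat_lit 229666) (nat_lit 240) .nil)))))) (.g (nat_lit 1) (.e (nat_lit 38597) (nat_lit 0) .nil) .nil))) 
(.lf (nat_lit 455320) (.g (nat_lit 4715) (.e (nat_lit 2663) (nat_lit 167) (.e (nat_lit 196666) (nat_lit 13) (.e (nat_lit 65610) (nat_lit 10) (.e (nat_lit 344117) (nat_lit 21) (.e (nat_lit 516151) (nat_lit 9) (.e (nat_lit 426412) (nat_lit 15) (.e (nat_lit 2015) (nat_lit 139) (.e (nat_lit 679968) (nat_lit 13) .nil)))))))) (.g (nat_lit 1) (.e (nat_lit 40625) (nat_lit 0) .nil) .nil)))) 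
(.nd (nat_lit 9) 
(.lf (nat_lit 455064) (.g (nat_lit 2394) (.e (nat_lit 2661) (nat_lit 167) (.e (nat_lit 196673) (nat_lit 15) (.e (nat_lit 81953) (nat_lit 22) (.e (nat_lit 90130) (nat_lit 9) (.e (nat_lit 2830) (nat_lit 182) (.e (nat_lit 409623) (nat_lit 10) (.e (nat_lit 5664) (nat_lit 312) .nil))))))) (.g (nat_lit 1) (.e (nat_lit 40217) (nat_lit 0) .nil) .nil))) 
(.lf (nat_lit 455576) (.g (nat_lit 4019) (.e (nat_lit 2663) (nat_lit 167) (.e (nat_lit 196672) (nat_lit 15) (.e (nat_lit 81956) (nat_lit 23) (.e (nat_lit 98350) (nat_lit 24) (.e (nat_lit 409616) (nat_lit 10) (.e (nat_lit 7936) (nat_lit 312) .nil)))))) (.g (nat_lit 1) (.e (nat_lit 41027) (nat_lit 0) .nil) .nil)))))) (.nd (nat_lit 7) (.nd (nat_lit 8) (.nd (nat_lit 9) 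
(.lf (nat_lit 454744) (.g (nat_lit 1893) (.e (nat_lit 2649) (nat_lit 166) (.e (nat_lit 188434) (nat_lit 20) (.e (nat_lit 3391) (nat_lit 210) (.e (nat_lit 639008) (nat_lit 13) (.e (nat_lit 1595) (nat_lit 111) (.e (nat_lit 368384) (nat_lit 0) (.e (nat_lit 5170) (nat_lit 292) .nil))))))) (.g (nat_lit 1) (.e (nat_lit 37034) (nat_lit 0) .nil) .nil))) 
(.lf (nat_lit 455256) (.g (nat_lit 3706) (.e (nat_lit 2663) (nat_lit 167) (.e (nat_lit 196666) (nat_lit 13) (.e (nat_lit 65610) (nat_lit 10) (.e (nat_lit 344117) (nat_lit 21) (.e (nat_lit 516151) (nat_lit 9) (.e (nat_lit 426022) (nat_lit 0) (.e (nat_lit 2403) (nat_lit 157) (.e (nat_lit 4825) (nat_lit 281) (.e (nat_lit 2515) (nat_lit 157) .nil))))))))) (.g (nat_lit 1) (.e (nat_lit 40561) (nat_lit 0) .nil) .nil)))) 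
(.nd (nat_lit 9) 
(.lf (nat_lit 455000) (.g (nat_lit 2170) (.e (nat_lit 2659) (nat_lit 167) (.e (nat_lit 196656) (nat_lit 11) (.e (nat_lit 16436) (nat_lit 9) (.e (nat_lit 426131) (nat_lit 3) (.e (nat_lit 204880) (nat_lit 32) .nil))))) (.g (nat_lit 0) (.e (nat_lit 40088) (nat_lit 0) .nil) .nil))) 
(.lf (nat_lit 455512) (.g (nat_lit 4985) (.e (nat_lit 2663) (nat_lit 167) (.e (nat_lit 196670) (nat_lit 14) (.e (nat_lit 73753) (nat_lit 8) (.e (nat_lit 557105) (nat_lit 14) (.e (nat_lit 180252) (nat_lit 10) (.e (nat_lit 573474) (nat_lit 12) (.e (nat_lit 57506) (nat_lit 39) (.e (nat_lit 647176) (nat_lit 0) .nil)))))))) (.g (nat_lit 1) (.e (nat_lit 40934) (nat_lit 0) .nil) .nil))))) 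
(.nd (nat_lit 8) (.nd (nat_lit 9) 
(.lf (nat_lit 454872) (.g (nat_lit 883) (.e (nat_lit 2652) (nat_lit 166) (.e (nat_lit 188435) (nat_lit 20) (.e (nat_lit 3391) (nat_lit 210) (.e (nat_lit 639008) (nat_lit 13) (.e (nat_lit 1595) (nat_lit 111) (.e (nat_lit 368384) (nat_lit 0) (.e (nat_lit 5048) (nat_lit 292) .nil))))))) (.g (nat_lit 1) (.e (nat_lit 39075) (nat_lit 0) .nil) .nil))) 
(.lf (nat_lit 455384) (.g (nat_lit 1416) (.e (nat_lit 2663) (nat_lit 167) (.e (nat_lit 196666) (nat_lit 13) (.e (nat_lit 65617) (nat_lit 10) (.e (nat_lit 344130) (nat_lit 26) (.e (nat_lit 557087) (nat_lit 11) .nil))))) (.g (nat_lit 0) (.e (nat_lit 40773) (nat_lit 0) .nil) .nil)))) (.nd (nat_lit 9) 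
(.lf (nat_lit 455128) (.g (nat_lit 4264) (.e (nat_lit 2663) (nat_lit 167) (.e (nat_lit 196666) (nat_lit 13) (.e (nat_lit 65610) (nat_lit 10) (.e (nat_lit 344117) (nat_lit 21) (.e (nat_lit 516097) (nat_lit 0) (.e (nat_lit 7578) (nat_lit 405) (.e (nat_lit 57751) (nat_lit 201) .nil))))))) (.g (nat_lit 1) (.e (nat_lit 40433) (nat_lit 0) .nil) .nil))) 
(.lf (nat_lit 455640) (.g (nat_lit 2684) (.e (nat_lit 2664) (nat_lit 167) (.e (nat_lit 196666) (nat_lit 13) (.e (nat_lit 65610) (nat_lit 10) (.e (nat_lit 344117) (nat_lit 21) (.e (nat_lit 516106) (nat_lit 0) (.e (nat_lit 6966) (nat_lit 377) (.e (nat_lit 2421) (nat_lit 157) (.e (nat_lit 5729) (nat_lit 312) .nil)))))))) (.g (nat_lit 1) (.e (nat_lit 41220) (nat_lit 0) .nil) .nil))))))) 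
(.nd (nat_lit 6) (.nd (nat_lit 7) (.nd (nat_lit 8) (.nd (nat_lit 9) 
(.lf (nat_lit 454712) (.g (nat_lit 443) (.e (nat_lit 2648) (nat_lit 166) (.e (nat_lit 188431) (nat_lit 20) (.e (nat_lit 3282) (nat_lit 200) .nil))) (.g (nat_lit 0) (.e (nat_lit 36487) (nat_lit 0) .nil) .nil))) 
(.lf (nat_lit 455224) (.g (nat_lit 4596) (.e (nat_lit 2663) (nat_lit 167) (.e (nat_lit 196666) (nat_lit 13) (.e (nat_lit 65610) (nat_lit 10) (.e (nat_lit 344117) (nat_lit 21) (.e (nat_lit 516145) (nat_lit 9) (.e (nat_lit 426362) (nat_lit 15) (.e (nat_lit 2015) (nat_lit 139) (.e (nat_lit 679968) (nat_lit 13) .nil)))))))) (.g (nat_lit 1) (.e (nat_lit 40529) (nat_lit 0) .nil) .nil)))) 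
(.nd (nat_lit 9) 
(.lf (nat_lit 454968) (.g (nat_lit 3392) (.e (nat_lit 2656) (nat_lit 167) (.e (nat_lit 196672) (nat_lit 15) (.e (nat_lit 81954) (nat_lit 23) (.e (nat_lit 98350) (nat_lit 24) (.e (nat_lit 409612) (nat_lit 10) .nil))))) (.g (nat_lit 0) (.e (nat_lit 39922) (nat_lit 0) .nil) .nil))) 
(.lf (nat_lit 455480) (.g (nat_lit 2261) (.e (nat_lit 2663) (nat_lit 167) (.e (nat_lit 196669) (nat_lit 14) (.e (nat_lit 73755) (nat_lit 8) (.e (nat_lit 557105) (nat_lit 14) (.e (nat_lit 180252) (nat_lit 10) (.e (nat_lit 573474) (nat_lit 12) (.e (nat_lit 57508) (nat_lit 39) (.e (nat_lit 647175) (nat_lit 0) .nil)))))))) (.g (nat_lit 1) (.e (nat_lit 40902) (nat_lit 0) .nil) .nil))))) 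
(.nd (nat_lit 8) (.nd (nat_lit 9) 
(.lf (nat_lit 454840) (.g (nat_lit 2609) (.e (nat_lit 2651) (nat_lit 166) (.e (nat_lit 188439) (nat_lit 20) (.e (nat_lit 3407) (nat_lit 212) (.e (nat_lit 655380) (nat_lit 6) (.e (nat_lit 188455) (nat_lit 24) (.e (nat_lit 229664) (nat_lit 240) .nil)))))) (.g (nat_lit 1) (.e (nat_lit 38765) (nat_lit 0) .nil) .nil))) 
(.lf (nat_lit 455352) (.g (nat_lit 3508) (.e (nat_lit 2663) (nat_lit 167) (.e (nat_lit 196666) (nat_lit 13) (.e (nat_lit 65610) (nat_lit 10) (.e (nat_lit 344126) (nat_lit 25) (.e (nat_lit 548890) (nat_lit 10) (.e (nat_lit 73781) (nat_lit 32) .nil)))))) (.g (nat_lit 1) (.e (nat_lit 40690) (nat_lit 0) .nil) .nil)))) (.nd (nat_lit 9) 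
(.lf (nat_lit 455096) (.g (nat_lit 1976) (.e (nat_lit 2663) (nat_lit 167) (.e (nat_lit 196654) (nat_lit 11) (.e (nat_lit 16436) (nat_lit 9) (.e (nat_lit 426131) (nat_lit 3) (.e (nat_lit 204854) (nat_lit 26) .nil))))) (.g (nat_lit 0) (.e (nat_lit 40293) (nat_lit 0) .nil) .nil))) 
(.lf (nat_lit 455608) (.g (nat_lit 2066) (.e (nat_lit 2664) (nat_lit 167) (.e (nat_lit 196666) (nat_lit 13) (.e (nat_lit 65586) (nat_lit 7) (.e (nat_lit 319518) (nat_lit 12) (.e (nat_lit 32788) (nat_lit 10) (.e (nat_lit 73781) (nat_lit 32) .nil)))))) (.g (nat_lit 1) (.e (nat_lit 41172) (nat_lit 0) .nil) .nil)))))) (.nd (nat_lit 7) (.nd (nat_lit 8) (.nd (nat_lit 9) 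
(.lf (nat_lit 454776) (.g (nat_lit 2124) (.e (nat_lit 2650) (nat_lit 166) (.e (nat_lit 188441) (nat_lit 20) (.e (nat_lit 3409) (nat_lit 212) (.e (nat_lit 655378) (nat_lit 4) (.e (nat_lit 172115) (nat_lit 10) (.e (nat_lit 434209) (nat_lit 18) (.e (nat_lit 5546) (nat_lit 306) .nil))))))) (.g (nat_lit 1) (.e (nat_lit 37704) (nat_lit 0) .nil) .nil))) 
(.lf (nat_lit 455288) (.g (nat_lit 3716) (.e (nat_lit 2663) (nat_lit 167) (.e (nat_lit 196666) (nat_lit 13) (.e (nat_lit 65610) (nat_lit 10) (.e (nat_lit 344117) (nat_lit 21) (.e (nat_lit 516151) (nat_lit 9) (.e (nat_lit 426042) (nat_lit 0) (.e (nat_lit 2427) (nat_lit 157) (.e (nat_lit 4751) (nat_lit 281) (.e (nat_lit 2518) (nat_lit 157) .nil))))))))) (.g (nat_lit 1) (.e (nat_lit 40593) (nat_lit 0) .nil) .nil)))) 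
(.nd (nat_lit 9) 
(.lf (nat_lit 455032) (.g (nat_lit 3151) (.e (nat_lit 2661) (nat_lit 167) (.e (nat_lit 196666) (nat_lit 13) (.e (nat_lit 65610) (nat_lit 10) (.e (nat_lit 344117) (nat_lit 21) (.e (nat_lit 516141) (nat_lit 8) (.e (nat_lit 417817) (nat_lit 10) (.e (nat_lit 5647) (nat_lit 312) .nil))))))) (.g (nat_lit 1) (.e (nat_lit 40167) (nat_lit 0) .nil) .nil))) 
(.lf (nat_lit 455544) (.g (nat_lit 3009) (.e (nat_lit 2663) (nat_lit 167) (.e (nat_lit 196670) (nat_lit 14) (.e (nat_lit 73754) (nat_lit 8) (.e (nat_lit 557105) (nat_lit 14) (.e (nat_lit 180252) (nat_lit 10) (.e (nat_lit 573475) (nat_lit 12) (.e (nat_lit 57506) (nat_lit 39) (.e (nat_lit 647175) (nat_lit 0) .nil)))))))) (.g (nat_lit 1) (.e (nat_lit 40966) (nat_lit 0) .nil) .nil))))) 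
(.nd (nat_lit 8) (.nd (nat_lit 9) 
(.lf (nat_lit 454904) (.g (nat_lit 1997) (.e (nat_lit 2653) (nat_lit 166) (.e (nat_lit 188440) (nat_lit 20) (.e (nat_lit 3469) (nat_lit 217) (.e (nat_lit 696344) (nat_lit 8) (.e (nat_lit 172112) (nat_lit 10) (.e (nat_lit 434208) (nat_lit 18) (.e (nat_lit 6255) (nat_lit 337) .nil))))))) (.g (nat_lit 1) (.e (nat_lit 39310) (nat_lit 0) .nil) .nil))) 
(.lf (nat_lit 455416) (.g (nat_lit 2943) (.e (nat_lit 2663) (nat_lit 167) (.e (nat_lit 196666) (nat_lit 13) (.e (nat_lit 65617) (nat_lit 10) (.e (nat_lit 344132) (nat_lit 26) (.e (nat_lit 557085) (nat_lit 11) (.e (nat_lit 24580) (nat_lit 0) (.e (nat_lit 6696) (nat_lit 357) .nil))))))) (.g (nat_lit 1) (.e (nat_lit 40808) (nat_lit 0) .nil) .nil)))) (.nd (nat_lit 9) 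
(.lf (nat_lit 455160) (.g (nat_lit 4639) (.e (nat_lit 2663) (nat_lit 167) (.e (nat_lit 196666) (nat_lit 13) (.e (nat_lit 65610) (nat_lit 10) (.e (nat_lit 344117) (nat_lit 21) (.e (nat_lit 516138) (nat_lit 7) (.e (nat_lit 409612) (nat_lit 10) (.e (nat_lit 5710) (nat_lit 312) .nil))))))) (.g (nat_lit 1) (.e (nat_lit 40465) (nat_lit 0) .nil) .nil))) 
(.lf (nat_lit 455672) (.g (nat_lit 4696) (.e (nat_lit 2664) (nat_lit 167) (.e (nat_lit 196666) (nat_lit 13) (.e (nat_lit 65610) (nat_lit 10) (.e (nat_lit 344117) (nat_lit 21) (.e (nat_lit 516142) (nat_lit 8) (.e (nat_lit 417817) (nat_lit 10) (.e (nat_lit 5728) (nat_lit 312) .nil))))))) (.g (nat_lit 1) (.e (nat_lit 41252) (nat_lit 0) .nil) .nil)))))))))) 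
(.nd (nat_lit 3) (.nd (nat_lit 4) (.nd (nat_lit 5) (.nd (nat_lit 6) (.nd (nat_lit 7) 
(.nd (nat_lit 8) (.nd (nat_lit 9) 
(.lf (nat_lit 454660) (.g (nat_lit 1946) (.e (nat_lit 2648) (nat_lit 166) (.e (nat_lit 188417) (nat_lit 0) (.e (nat_lit 2147) (nat_lit 142) (.e (nat_lit 704597) (nat_lit 6) (.e (nat_lit 188444) (nat_lit 21) (.e (nat_lit 164348) (nat_lit 240) .nil)))))) (.g (nat_lit 1) (.e (nat_lit 36405) (nat_lit 0) .nil) .nil))) 
(.lf (nat_lit 455172) (.g (nat_lit 3667) (.e (nat_lit 2663) (nat_lit 167) (.e (nat_lit 196666) (nat_lit 13) (.e (nat_lit 65610) (nat_lit 10) (.e (nat_lit 344117) (nat_lit 21) (.e (nat_lit 516139) (nat_lit 7) (.e (nat_lit 417536) (nat_lit 10) (.e (nat_lit 5738) (nat_lit 312) .nil))))))) (.g (nat_lit 1) (.e (nat_lit 40477) (nat_lit 0) .nil) .nil)))) (.nd (nat_lit 9) 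
(.lf (nat_lit 454916) (.g (nat_lit 2435) (.e (nat_lit 2653) (nat_lit 166) (.e (nat_lit 188441) (nat_lit 20) (.e (nat_lit 3469) (nat_lit 217) (.e (nat_lit 696344) (nat_lit 8) (.e (nat_lit 172113) (nat_lit 10) (.e (nat_lit 434207) (nat_lit 18) (.e (nat_lit 6255) (nat_lit 337) .nil))))))) (.g (nat_lit 1) (.e (nat_lit 39362) (nat_lit 0) .nil) .nil))) 
(.lf (nat_lit 455428) (.g (nat_lit 2686) (.e (nat_lit 2663) (nat_lit 167) (.e (nat_lit 196666) (nat_lit 13) (.e (nat_lit 65617) (nat_lit 10) (.e (nat_lit 344133) (nat_lit 26) (.e (nat_lit 557091) (nat_lit 12) (.e (nat_lit 163843) (nat_lit 0) (.e (nat_lit 6416) (nat_lit 341) (.e (nat_lit 163843) (nat_lit 0) (.e (nat_lit 7366) (nat_lit 388) .nil))))))))) (.g (nat_lit 1) (.e (nat_lit 40821) (nat_lit 0) .nil) .nil))))) 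
(.nd (nat_lit 8) (.nd (nat_lit 9) 
(.lf (nat_lit 454788) (.g (nat_lit 2202) (.e (nat_lit 2651) (nat_lit 166) (.e (nat_lit 188420) (nat_lit 0) (.e (nat_lit 2056) (nat_lit 142) (.e (nat_lit 704598) (nat_lit 6) (.e (nat_lit 188453) (nat_lit 24) (.e (nat_lit 229664) (nat_lit 240) .nil)))))) (.g (nat_lit 1) (.e (nat_lit 38574) (nat_lit 0) .nil) .nil))) 
(.lf (nat_lit 455300) (.g (nat_lit 3862) (.e (nat_lit 2663) (nat_lit 167) (.e (nat_lit 196666) (nat_lit 13) (.e (nat_lit 65610) (nat_lit 10) (.e (nat_lit 344117) (nat_lit 21) (.e (nat_lit 516151) (nat_lit 9) (.e (nat_lit 426043) (nat_lit 0) (.e (nat_lit 3369) (nat_lit 208) (.e (nat_lit 622627) (nat_lit 13) .nil)))))))) (.g (nat_lit 1) (.e (nat_lit 40605) (nat_lit 0) .nil) .nil)))) 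
(.nd (nat_lit 9) 
(.lf (nat_lit 455044) (.g (nat_lit 3791) (.e (nat_lit 2661) (nat_lit 167) (.e (nat_lit 196666) (nat_lit 13) (.e (nat_lit 65610) (nat_lit 10) (.e (nat_lit 344129) (nat_lit 26) (.e (nat_lit 557087) (nat_lit 11) (.e (nat_lit 24584) (nat_lit 0) (.e (nat_lit 6664) (nat_lit 357) .nil))))))) (.g (nat_lit 1) (.e (nat_lit 40182) (nat_lit 0) .nil) .nil))) 
(.lf (nat_lit 455556) (.g (nat_lit 3939) (.e (nat_lit 2663) (nat_lit 167) (.e (nat_lit 196670) (nat_lit 14) (.e (nat_lit 73755) (nat_lit 8) (.e (nat_lit 557105) (nat_lit 14) (.e (nat_lit 180252) (nat_lit 10) (.e (nat_lit 573474) (nat_lit 12) (.e (nat_lit 57508) (nat_lit 39) (.e (nat_lit 647176) (nat_lit 0) .nil)))))))) (.g (nat_lit 1) (.e (nat_lit 40978) (nat_lit 0) .nil) .nil)))))) 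
(.nd (nat_lit 7) (.nd (nat_lit 8) (.nd (nat_lit 9) 
(.lf (nat_lit 454724) (.g (nat_lit 3322) (.e (nat_lit 2648) (nat_lit 166) (.e (nat_lit 188431) (nat_lit 20) (.e (nat_lit 3402) (nat_lit 211) (.e (nat_lit 647183) (nat_lit 4) (.e (nat_lit 172115) (nat_lit 10) (.e (nat_lit 434209) (nat_lit 18) (.e (nat_lit 5548) (nat_lit 306) .nil))))))) (.g (nat_lit 1) (.e (nat_lit 36529) (nat_lit 0) .nil) .nil))) 
(.lf (nat_lit 455236) (.g (nat_lit 3359) (.e (nat_lit 2663) (nat_lit 167) (.e (nat_lit 196666) (nat_lit 13) (.e (nat_lit 65610) (nat_lit 10) (.e (nat_lit 344117) (nat_lit 21) (.e (nat_lit 516151) (nat_lit 9) (.e (nat_lit 426003) (nat_lit 0) (.e (nat_lit 3372) (nat_lit 208) (.e (nat_lit 622626) (nat_lit 13) .nil)))))))) (.g (nat_lit 1) (.e (nat_lit 40541) (nat_lit 0) .nil) .nil)))) 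
(.nd (nat_lit 9) 
(.lf (nat_lit 454980) (.g (nat_lit 1909) (.e (nat_lit 2657) (nat_lit 167) (.e (nat_lit 196670) (nat_lit 14) (.e (nat_lit 73746) (nat_lit 3) (.e (nat_lit 516129) (nat_lit 3) (.e (nat_lit 221210) (nat_lit 22) (.e (nat_lit 196658) (nat_lit 12) (.e (nat_lit 57508) (nat_lit 39) (.e (nat_lit 647175) (nat_lit 0) .nil)))))))) (.g (nat_lit 1) (.e (nat_lit 39997) (nat_lit 0) .nil) .nil))) 
(.lf (nat_lit 455492) (.g (nat_lit 2832) (.e (nat_lit 2663) (nat_lit 167) (.e (nat_lit 196670) (nat_lit 14) (.e (nat_lit 73753) (nat_lit 8) (.e (nat_lit 557103) (nat_lit 14) (.e (nat_lit 180250) (nat_lit 10) (.e (nat_lit 573473) (nat_lit 12) (.e (nat_lit 57508) (nat_lit 39) (.e (nat_lit 647175) (nat_lit 0) .nil)))))))) (.g (nat_lit 1) (.e (nat_lit 40914) (nat_lit 0) .nil) .nil))))) 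
(.nd (nat_lit 8) (.nd (nat_lit 9) 
(.lf (nat_lit 454852) (.g (nat_lit 2660) (.e (nat_lit 2651) (nat_lit 166) (.e (nat_lit 188439) (nat_lit 20) (.e (nat_lit 3409) (nat_lit 212) (.e (nat_lit 655380) (nat_lit 6) (.e (nat_lit 188455) (nat_lit 24) (.e (nat_lit 229666) (nat_lit 240) .nil)))))) (.g (nat_lit 1) (.e (nat_lit 38796) (nat_lit 0) .nil) .nil))) 
(.lf (nat_lit 455364) (.g (nat_lit 1822) (.e (nat_lit 2663) (nat_lit 167) (.e (nat_lit 196666) (nat_lit 13) (.e (nat_lit 65617) (nat_lit 10) (.e (nat_lit 344091) (nat_lit 18) (.e (nat_lit 3957) (nat_lit 239) .nil))))) (.g (nat_lit 0) (.e (nat_lit 40704) (nat_lit 0) .nil) .nil)))) (.nd (nat_lit 9) 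
(.lf (nat_lit 455108) (.g (nat_lit 3463) (.e (nat_lit 2663) (nat_lit 167) (.e (nat_lit 196654) (nat_lit 11) (.e (nat_lit 16436) (nat_lit 9) (.e (nat_lit 426131) (nat_lit 3) (.e (nat_lit 204880) (nat_lit 32) (.e (nat_lit 385096) (nat_lit 49) (.e (nat_lit 778390) (nat_lit 9) .nil))))))) (.g (nat_lit 1) (.e (nat_lit 40305) (nat_lit 0) .nil) .nil))) 
(.lf (nat_lit 455620) (.g (nat_lit 3626) (.e (nat_lit 2664) (nat_lit 167) (.e (nat_lit 196666) (nat_lit 13) (.e (nat_lit 65610) (nat_lit 10) (.e (nat_lit 344117) (nat_lit 21) (.e (nat_lit 516097) (nat_lit 0) (.e (nat_lit 7578) (nat_lit 405) (.e (nat_lit 57751) (nat_lit 201) .nil))))))) (.g (nat_lit 1) (.e (nat_lit 41200) (nat_lit 0) .nil) .nil))))))) 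
(.nd (nat_lit 6) (.nd (nat_lit 7) (.nd (nat_lit 8) (.nd (nat_lit 9) 
(.lf (nat_lit 454692) (.g (nat_lit 1201) (.e (nat_lit 2648) (nat_lit 166) (.e (nat_lit 188420) (nat_lit 0) (.e (nat_lit 2058) (nat_lit 142) (.e (nat_lit 704599) (nat_lit 6) (.e (nat_lit 188446) (nat_lit 21) (.e (nat_lit 164346) (nat_lit 240) .nil)))))) (.g (nat_lit 1) (.e (nat_lit 36439) (nat_lit 0) .nil) .nil))) 
(.lf (nat_lit 455204) (.g (nat_lit 4803) (.e (nat_lit 2663) (nat_lit 167) (.e (nat_lit 196666) (nat_lit 13) (.e (nat_lit 65610) (nat_lit 10) (.e (nat_lit 344117) (nat_lit 21) (.e (nat_lit 516145) (nat_lit 9) (.e (nat_lit 426355) (nat_lit 15) (.e (nat_lit 2015) (nat_lit 139) (.e (nat_lit 679968) (nat_lit 13) .nil)))))))) (.g (nat_lit 1) (.e (nat_lit 40509) (nat_lit 0) .nil) .nil)))) 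
(.nd (nat_lit 9) 
(.lf (nat_lit 454948) (.g (nat_lit 1460) (.e (nat_lit 2654) (nat_lit 167) (.e (nat_lit 196672) (nat_lit 15) (.e (nat_lit 81954) (nat_lit 23) (.e (nat_lit 98350) (nat_lit 24) .nil)))) (.g (nat_lit 0) (.e (nat_lit 39825) (nat_lit 0) .nil) .nil))) 
(.lf (nat_lit 455460) (.g (nat_lit 1469) (.e (nat_lit 2663) (nat_lit 167) (.e (nat_lit 196666) (nat_lit 13) (.e (nat_lit 65630) (nat_lit 14) (.e (nat_lit 401428) (nat_lit 3) .nil)))) (.g (nat_lit 0) (.e (nat_lit 40873) (nat_lit 0) .nil) .nil))))) (.nd (nat_lit 8) (.nd (nat_lit 9) 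
(.lf (nat_lit 454820) (.g (nat_lit 3042) (.e (nat_lit 2651) (nat_lit 166) (.e (nat_lit 188420) (nat_lit 0) (.e (nat_lit 2175) (nat_lit 143) (.e (nat_lit 712755) (nat_lit 30) (.e (nat_lit 450569) (nat_lit 0) (.e (nat_lit 5448) (nat_lit 306) .nil)))))) (.g (nat_lit 1) (.e (nat_lit 38609) (nat_lit 0) .nil) .nil))) 
(.lf (nat_lit 455332) (.g (nat_lit 4828) (.e (nat_lit 2663) (nat_lit 167) (.e (nat_lit 196666) (nat_lit 13) (.e (nat_lit 65610) (nat_lit 10) (.e (nat_lit 344117) (nat_lit 21) (.e (nat_lit 516160) (nat_lit 10) (.e (nat_lit 434208) (nat_lit 18) (.e (nat_lit 4754) (nat_lit 281) (.e (nat_lit 2517) (nat_lit 157) .nil)))))))) (.g (nat_lit 1) (.e (nat_lit 40637) (nat_lit 0) .nil) .nil)))) 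
(.nd (nat_lit 9) 
(.lf (nat_lit 455076) (.g (nat_lit 1575) (.e (nat_lit 2661) (nat_lit 167) (.e (nat_lit 196674) (nat_lit 15) (.e (nat_lit 81953) (nat_lit 22) (.e (nat_lit 98048) (nat_lit 19) .nil)))) (.g (nat_lit 0) (.e (nat_lit 40230) (nat_lit 0) .nil) .nil))) 
(.lf (nat_lit 455588) (.g (nat_lit 4491) (.e (nat_lit 2663) (nat_lit 167) (.e (nat_lit 196674) (nat_lit 15) (.e (nat_lit 81956) (nat_lit 23) (.e (nat_lit 98350) (nat_lit 24) (.e (nat_lit 409616) (nat_lit 10) .nil))))) (.g (nat_lit 0) (.e (nat_lit 41048) (nat_lit 0) .nil) .nil)))))) (.nd (nat_lit 7) (.nd (nat_lit 8) (.nd (nat_lit 9) 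
(.lf (nat_lit 454756) (.g (nat_lit 3729) (.e (nat_lit 2650) (nat_lit 166) (.e (nat_lit 188427) (nat_lit 20) (.e (nat_lit 3397) (nat_lit 211) (.e (nat_lit 647183) (nat_lit 4) (.e (nat_lit 172115) (nat_lit 10) (.e (nat_lit 434209) (nat_lit 18) (.e (nat_lit 5548) (nat_lit 306) .nil))))))) (.g (nat_lit 1) (.e (nat_lit 37561) (nat_lit 0) .nil) .nil))) 
(.lf (nat_lit 455268) (.g (nat_lit 3710) (.e (nat_lit 2663) (nat_lit 167) (.e (nat_lit 196666) (nat_lit 13) (.e (nat_lit 65610) (nat_lit 10) (.e (nat_lit 344117) (nat_lit 21) (.e (nat_lit 516151) (nat_lit 9) (.e (nat_lit 426037) (nat_lit 0) (.e (nat_lit 2426) (nat_lit 157) (.e (nat_lit 4778) (nat_lit 281) (.e (nat_lit 2454) (nat_lit 157) .nil))))))))) (.g (nat_lit 1) (.e (nat_lit 40573) (nat_lit 0) .nil) .nil)))) 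
(.nd (nat_lit 9) 
(.lf (nat_lit 455012) (.g (nat_lit 3472) (.e (nat_lit 2661) (nat_lit 167) (.e (nat_lit 196666) (nat_lit 13) (.e (nat_lit 65610) (nat_lit 10) (.e (nat_lit 344117) (nat_lit 21) (.e (nat_lit 516098) (nat_lit 0) (.e (nat_lit 7111) (nat_lit 381) (.e (nat_lit 229686) (nat_lit 246) .nil))))))) (.g (nat_lit 1) (.e (nat_lit 40147) (nat_lit 0) .nil) .nil))) 
(.lf (nat_lit 455524) (.g (nat_lit 2869) (.e (nat_lit 2663) (nat_lit 167) (.e (nat_lit 196670) (nat_lit 14) (.e (nat_lit 73754) (nat_lit 8) (.e (nat_lit 557105) (nat_lit 14) (.e (nat_lit 180251) (nat_lit 10) (.e (nat_lit 573477) (nat_lit 12) (.e (nat_lit 57510) (nat_lit 39) (.e (nat_lit 647173) (nat_lit 0) .nil)))))))) (.g (nat_lit 1) (.e (nat_lit 40946) (nat_lit 0) .nil) .nil))))) 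
(.nd (nat_lit 8) (.nd (nat_lit 9) 
(.lf (nat_lit 454884) (.g (nat_lit 2091) (.e (nat_lit 2653) (nat_lit 166) (.e (nat_lit 188418) (nat_lit 0) (.e (nat_lit 2058) (nat_lit 142) (.e (nat_lit 704599) (nat_lit 6) (.e (nat_lit 188453) (nat_lit 24) (.e (nat_lit 229666) (nat_lit 240) .nil)))))) (.g (nat_lit 1) (.e (nat_lit 39199) (nat_lit 0) .nil) .nil))) 
(.lf (nat_lit 455396) (.g (nat_lit 4592) (.e (nat_lit 2663) (nat_lit 167) (.e (nat_lit 196666) (nat_lit 13) (.e (nat_lit 65617) (nat_lit 10) (.e (nat_lit 344130) (nat_lit 26) (.e (nat_lit 557087) (nat_lit 11) (.e (nat_lit 24584) (nat_lit 0) (.e (nat_lit 6666) (nat_lit 357) .nil))))))) (.g (nat_lit 1) (.e (nat_lit 40786) (nat_lit 0) .nil) .nil)))) (.nd (nat_lit 9) 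
(.lf (nat_lit 455140) (.g (nat_lit 3580) (.e (nat_lit 2663) (nat_lit 167) (.e (nat_lit 196666) (nat_lit 13) (.e (nat_lit 65610) (nat_lit 10) (.e (nat_lit 344117) (nat_lit 21) (.e (nat_lit 516098) (nat_lit 0) (.e (nat_lit 7581) (nat_lit 405) (.e (nat_lit 57746) (nat_lit 201) .nil))))))) (.g (nat_lit 1) (.e (nat_lit 40445) (nat_lit 0) .nil) .nil))) 
(.lf (nat_lit 455652) (.g (nat_lit 2648) (.e (nat_lit 2664) (nat_lit 167) (.e (nat_lit 196666) (nat_lit 13) (.e (nat_lit 65610) (nat_lit 10) (.e (nat_lit 344117) (nat_lit 21) (.e (nat_lit 516106) (nat_lit 0) (.e (nat_lit 7016) (nat_lit 377) (.e (nat_lit 2448) (nat_lit 157) (.e (nat_lit 5710) (nat_lit 312) .nil)))))))) (.g (nat_lit 1) (.e (nat_lit 41232) (nat_lit 0) .nil) .nil)))))))) 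
(.nd (nat_lit 5) (.nd (nat_lit 6) (.nd (nat_lit 7) (.nd (nat_lit 8) (.nd (nat_lit 9) 
(.lf (nat_lit 454676) (.g (nat_lit 1478) (.e (nat_lit 2648) (nat_lit 166) (.e (nat_lit 188418) (nat_lit 0) (.e (nat_lit 2174) (nat_lit 143) (.e (nat_lit 712753) (nat_lit 30) (.e (nat_lit 458496) (nat_lit 0) (.e (nat_lit 5543) (nat_lit 306) .nil)))))) (.g (nat_lit 1) (.e (nat_lit 36421) (nat_lit 0) .nil) .nil))) 
(.lf (nat_lit 455188) (.g (nat_lit 3304) (.e (nat_lit 2663) (nat_lit 167) (.e (nat_lit 196666) (nat_lit 13) (.e (nat_lit 65610) (nat_lit 10) (.e (nat_lit 344117) (nat_lit 21) (.e (nat_lit 516145) (nat_lit 9) (.e (nat_lit 425988) (nat_lit 0) (.e (nat_lit 7936) (nat_lit 208) (.e (nat_lit 622627) (nat_lit 13) .nil)))))))) (.g (nat_lit 1) (.e (nat_lit 40493) (nat_lit 0) .nil) .nil)))) 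
(.nd (nat_lit 9) 
(.lf (nat_lit 454932) (.g (nat_lit 1930) (.e (nat_lit 2654) (nat_lit 167) (.e (nat_lit 196666) (nat_lit 13) (.e (nat_lit 65610) (nat_lit 10) (.e (nat_lit 344117) (nat_lit 21) (.e (nat_lit 516151) (nat_lit 9) (.e (nat_lit 426042) (nat_lit 0) (.e (nat_lit 3370) (nat_lit 208) (.e (nat_lit 622622) (nat_lit 13) .nil)))))))) (.g (nat_lit 1) (.e (nat_lit 39802) (nat_lit 0) .nil) .nil))) 
(.lf (nat_lit 455444) (.g (nat_lit 4208) (.e (nat_lit 2663) (nat_lit 167) (.e (nat_lit 196666) (nat_lit 13) (.e (nat_lit 65624) (nat_lit 12) (.e (nat_lit 385074) (nat_lit 31) (.e (nat_lit 573489) (nat_lit 14) (.e (nat_lit 73782) (nat_lit 32) .nil)))))) (.g (nat_lit 1) (.e (nat_lit 40845) (nat_lit 0) .nil) .nil))))) (.nd (nat_lit 8) (.nd (nat_lit 9) 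
(.lf (nat_lit 454804) (.g (nat_lit 2076) (.e (nat_lit 2651) (nat_lit 166) (.e (nat_lit 188420) (nat_lit 0) (.e (nat_lit 2059) (nat_lit 142) (.e (nat_lit 704599) (nat_lit 6) (.e (nat_lit 188454) (nat_lit 24) (.e (nat_lit 229664) (nat_lit 240) .nil)))))) (.g (nat_lit 1) (.e (nat_lit 38590) (nat_lit 0) .nil) .nil))) 
(.lf (nat_lit 455316) (.g (nat_lit 5362) (.e (nat_lit 2663) (nat_lit 167) (.e (nat_lit 196666) (nat_lit 13) (.e (nat_lit 65610) (nat_lit 10) (.e (nat_lit 344117) (nat_lit 21) (.e (nat_lit 516151) (nat_lit 9) (.e (nat_lit 426047) (nat_lit 0) (.e (nat_lit 3370) (nat_lit 208) (.e (nat_lit 622626) (nat_lit 13) .nil)))))))) (.g (nat_lit 1) (.e (nat_lit 40621) (nat_lit 0) .nil) .nil)))) 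
(.nd (nat_lit 9) 
(.lf (nat_lit 455060) (.g (nat_lit 1947) (.e (nat_lit 2661) (nat_lit 167) (.e (nat_lit 196672) (nat_lit 15) (.e (nat_lit 81954) (nat_lit 23) (.e (nat_lit 98320) (nat_lit 17) (.e (nat_lit 7109) (nat_lit 380) (.e (nat_lit 164359) (nat_lit 246) .nil)))))) (.g (nat_lit 1) (.e (nat_lit 40212) (nat_lit 0) .nil) .nil))) 
(.lf (nat_lit 455572) (.g (nat_lit 3663) (.e (nat_lit 2663) (nat_lit 167) (.e (nat_lit 196672) (nat_lit 15) (.e (nat_lit 81954) (nat_lit 23) (.e (nat_lit 98350) (nat_lit 24) (.e (nat_lit 409618) (nat_lit 10) (.e (nat_lit 5728) (nat_lit 312) .nil)))))) (.g (nat_lit 1) (.e (nat_lit 41017) (nat_lit 0) .nil) .nil)))))) (.nd (nat_lit 7) (.nd (nat_lit 8) (.nd (nat_lit 9) 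
(.lf (nat_lit 454740) (.g (nat_lit 1913) (.e (nat_lit 2649) (nat_lit 166) (.e (nat_lit 188434) (nat_lit 20) (.e (nat_lit 3390) (nat_lit 210) (.e (nat_lit 639007) (nat_lit 13) (.e (nat_lit 1595) (nat_lit 111) (.e (nat_lit 368384) (nat_lit 0) (.e (nat_lit 5170) (nat_lit 292) .nil))))))) (.g (nat_lit 1) (.e (nat_lit 37013) (nat_lit 0) .nil) .nil))) 
(.lf (nat_lit 455252) (.g (nat_lit 5330) (.e (nat_lit 2663) (nat_lit 167) (.e (nat_lit 196666) (nat_lit 13) (.e (nat_lit 65610) (nat_lit 10) (.e (nat_lit 344117) (nat_lit 21) (.e (nat_lit 516151) (nat_lit 9) (.e (nat_lit 426020) (nat_lit 0) (.e (nat_lit 7936) (nat_lit 208) (.e (nat_lit 622627) (nat_lit 13) .nil)))))))) (.g (nat_lit 1) (.e (nat_lit 40557) (nat_lit 0) .nil) .nil)))) 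
(.nd (nat_lit 9) 
(.lf (nat_lit 454996) (.g (nat_lit 4470) (.e (nat_lit 2657) (nat_lit 167) (.e (nat_lit 196672) (nat_lit 15) (.e (nat_lit 81956) (nat_lit 23) (.e (nat_lit 98350) (nat_lit 24) (.e (nat_lit 409616) (nat_lit 10) (.e (nat_lit 7936) (nat_lit 312) .nil)))))) (.g (nat_lit 1) (.e (nat_lit 40074) (nat_lit 0) .nil) .nil))) 
(.lf (nat_lit 455508) (.g (nat_lit 4613) (.e (nat_lit 2663) (nat_lit 167) (.e (nat_lit 196670) (nat_lit 14) (.e (nat_lit 73753) (nat_lit 8) (.e (nat_lit 557105) (nat_lit 14) (.e (nat_lit 180252) (nat_lit 10) (.e (nat_lit 573473) (nat_lit 12) (.e (nat_lit 57508) (nat_lit 39) (.e (nat_lit 647176) (nat_lit 0) .nil)))))))) (.g (nat_lit 1) (.e (nat_lit 40930) (nat_lit 0) .nil) .nil))))) 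
(.nd (nat_lit 8) (.nd (nat_lit 9) 
(.lf (nat_lit 454868) (.g (nat_lit 1814) (.e (nat_lit 2652) (nat_lit 166) (.e (nat_lit 188434) (nat_lit 20) (.e (nat_lit 3469) (nat_lit 217) (.e (nat_lit 696344) (nat_lit 8) (.e (nat_lit 172115) (nat_lit 10) (.e (nat_lit 434202) (nat_lit 18) (.e (nat_lit 6255) (nat_lit 337) .nil))))))) (.g (nat_lit 1) (.e (nat_lit 39071) (nat_lit 0) .nil) .nil))) 
(.lf (nat_lit 455380) (.g (nat_lit 2616) (.e (nat_lit 2663) (nat_lit 167) (.e (nat_lit 196666) (nat_lit 13) (.e (nat_lit 65617) (nat_lit 10) (.e (nat_lit 344130) (nat_lit 26) (.e (nat_lit 557085) (nat_lit 11) (.e (nat_lit 24580) (nat_lit 0) (.e (nat_lit 6696) (nat_lit 357) .nil))))))) (.g (nat_lit 1) (.e (nat_lit 40769) (nat_lit 0) .nil) .nil)))) (.nd (nat_lit 9) 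
(.lf (nat_lit 455124) (.g (nat_lit 2516) (.e (nat_lit 2663) (nat_lit 167) (.e (nat_lit 196666) (nat_lit 13) (.e (nat_lit 65610) (nat_lit 10) (.e (nat_lit 344097) (nat_lit 18) .nil)))) (.g (nat_lit 0) (.e (nat_lit 40422) (nat_lit 0) .nil) .nil))) 
(.lf (nat_lit 455636) (.g (nat_lit 2694) (.e (nat_lit 2664) (nat_lit 167) (.e (nat_lit 196666) (nat_lit 13) (.e (nat_lit 65610) (nat_lit 10) (.e (nat_lit 344117) (nat_lit 21) (.e (nat_lit 516102) (nat_lit 0) (.e (nat_lit 7101) (nat_lit 380) (.e (nat_lit 164366) (nat_lit 246) .nil))))))) (.g (nat_lit 1) (.e (nat_lit 41216) (nat_lit 0) .nil) .nil))))))) 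
(.nd (nat_lit 6) (.nd (nat_lit 7) (.nd (nat_lit 8) (.nd (nat_lit 9) 
(.lf (nat_lit 454708) (.g (nat_lit 2439) (.e (nat_lit 2648) (nat_lit 166) (.e (nat_lit 188420) (nat_lit 0) (.e (nat_lit 2175) (nat_lit 143) (.e (nat_lit 712753) (nat_lit 30) (.e (nat_lit 450564) (nat_lit 0) (.e (nat_lit 5546) (nat_lit 306) .nil)))))) (.g (nat_lit 1) (.e (nat_lit 36455) (nat_lit 0) .nil) .nil))) 
(.lf (nat_lit 455220) (.g (nat_lit 4956) (.e (nat_lit 2663) (nat_lit 167) (.e (nat_lit 196666) (nat_lit 13) (.e (nat_lit 65610) (nat_lit 10) (.e (nat_lit 344117) (nat_lit 21) (.e (nat_lit 516145) (nat_lit 9) (.e (nat_lit 426361) (nat_lit 15) (.e (nat_lit 2015) (nat_lit 139) (.e (nat_lit 679968) (nat_lit 13) .nil)))))))) (.g (nat_lit 1) (.e (nat_lit 40525) (nat_lit 0) .nil) .nil)))) 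
(.nd (nat_lit 9) 
(.lf (nat_lit 454964) (.g (nat_lit 3232) (.e (nat_lit 2655) (nat_lit 167) (.e (nat_lit 196673) (nat_lit 15) (.e (nat_lit 81956) (nat_lit 23) (.e (nat_lit 98350) (nat_lit 24) (.e (nat_lit 409616) (nat_lit 10) .nil))))) (.g (nat_lit 0) (.e (nat_lit 39848) (nat_lit 0) .nil) .nil))) 
(.lf (nat_lit 455476) (.g (nat_lit 2322) (.e (nat_lit 2663) (nat_lit 167) (.e (nat_lit 196669) (nat_lit 14) (.e (nat_lit 73755) (nat_lit 8) (.e (nat_lit 557105) (nat_lit 14) (.e (nat_lit 180252) (nat_lit 10) (.e (nat_lit 573473) (nat_lit 12) (.e (nat_lit 57507) (nat_lit 39) (.e (nat_lit 647176) (nat_lit 0) .nil)))))))) (.g (nat_lit 1) (.e (nat_lit 40898) (nat_lit 0) .nil) .nil))))) 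
(.nd (nat_lit 8) (.nd (nat_lit 9) 
(.lf (nat_lit 454836) (.g (nat_lit 3263) (.e (nat_lit 2651) (nat_lit 166) (.e (nat_lit 188439) (nat_lit 20) (.e (nat_lit 3406) (nat_lit 212) (.e (nat_lit 655380) (nat_lit 6) (.e (nat_lit 188453) (nat_lit 24) (.e (nat_lit 229665) (nat_lit 240) .nil)))))) (.g (nat_lit 1) (.e (nat_lit 38753) (nat_lit 0) .nil) .nil))) 
(.lf (nat_lit 455348) (.g (nat_lit 5266) (.e (nat_lit 2663) (nat_lit 167) (.e (nat_lit 196666) (nat_lit 13) (.e (nat_lit 65610) (nat_lit 10) (.e (nat_lit 344117) (nat_lit 21) (.e (nat_lit 516185) (nat_lit 16) (.e (nat_lit 491528) (nat_lit 0) (.e (nat_lit 6680) (nat_lit 357) .nil))))))) (.g (nat_lit 1) (.e (nat_lit 40674) (nat_lit 0) .nil) .nil)))) (.nd (nat_lit 9) 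
(.lf (nat_lit 455092) (.g (nat_lit 3371) (.e (nat_lit 2663) (nat_lit 167) (.e (nat_lit 196654) (nat_lit 11) (.e (nat_lit 16436) (nat_lit 9) (.e (nat_lit 426131) (nat_lit 3) (.e (nat_lit 204852) (nat_lit 26) (.e (nat_lit 336328) (nat_lit 19) (.e (nat_lit 213010) (nat_lit 9) .nil))))))) (.g (nat_lit 1) (.e (nat_lit 40286) (nat_lit 0) .nil) .nil))) 
(.lf (nat_lit 455604) (.g (nat_lit 2968) (.e (nat_lit 2664) (nat_lit 167) (.e (nat_lit 196666) (nat_lit 13) (.e (nat_lit 65583) (nat_lit 7) (.e (nat_lit 319519) (nat_lit 12) (.e (nat_lit 32788) (nat_lit 10) (.e (nat_lit 73782) (nat_lit 32) .nil)))))) (.g (nat_lit 1) (.e (nat_lit 41168) (nat_lit 0) .nil) .nil)))))) (.nd (nat_lit 7) (.nd (nat_lit 8) (.nd (nat_lit 9) 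
(.lf (nat_lit 454772) (.g (nat_lit 608) (.e (nat_lit 2650) (nat_lit 166) (.e (nat_lit 188441) (nat_lit 20) (.e (nat_lit 3288) (nat_lit 201) .nil))) (.g (nat_lit 0) (.e (nat_lit 37663) (nat_lit 0) .nil) .nil))) 
(.lf (nat_lit 455284) (.g (nat_lit 3617) (.e (nat_lit 2663) (nat_lit 167) (.e (nat_lit 196666) (nat_lit 13) (.e (nat_lit 65610) (nat_lit 10) (.e (nat_lit 344117) (nat_lit 21) (.e (nat_lit 516151) (nat_lit 9) (.e (nat_lit 426041) (nat_lit 0) (.e (nat_lit 3369) (nat_lit 208) (.e (nat_lit 622625) (nat_lit 13) .nil)))))))) (.g (nat_lit 1) (.e (nat_lit 40589) (nat_lit 0) .nil) .nil)))) 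
(.nd (nat_lit 9) 
(.lf (nat_lit 455028) (.g (nat_lit 2243) (.e (nat_lit 2661) (nat_lit 167) (.e (nat_lit 196666) (nat_lit 13) (.e (nat_lit 65610) (nat_lit 10) (.e (nat_lit 344117) (nat_lit 21) (.e (nat_lit 516138) (nat_lit 7) (.e (nat_lit 409612) (nat_lit 10) (.e (nat_lit 5653) (nat_lit 312) .nil))))))) (.g (nat_lit 1) (.e (nat_lit 40163) (nat_lit 0) .nil) .nil))) 
(.lf (nat_lit 455540) (.g (nat_lit 5216) (.e (nat_lit 2663) (nat_lit 167) (.e (nat_lit 196670) (nat_lit 14) (.e (nat_lit 73754) (nat_lit 8) (.e (nat_lit 557105) (nat_lit 14) (.e (nat_lit 180252) (nat_lit 10) (.e (nat_lit 573474) (nat_lit 12) (.e (nat_lit 57508) (nat_lit 39) (.e (nat_lit 647176) (nat_lit 0) .nil)))))))) (.g (nat_lit 1) (.e (nat_lit 40962) (nat_lit 0) .nil) .nil))))) 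
(.nd (nat_lit 8) (.nd (nat_lit 9) 
(.lf (nat_lit 454900) (.g (nat_lit 598) (.e (nat_lit 2653) (nat_lit 166) (.e (nat_lit 188440) (nat_lit 20) (.e (nat_lit 3407) (nat_lit 212) (.e (nat_lit 655380) (nat_lit 6) .nil)))) (.g (nat_lit 0) (.e (nat_lit 39276) (nat_lit 0) .nil) .nil))) 
(.lf (nat_lit 455412) (.g (nat_lit 4219) (.e (nat_lit 2663) (nat_lit 167) (.e (nat_lit 196666) (nat_lit 13) (.e (nat_lit 65617) (nat_lit 10) (.e (nat_lit 344130) (nat_lit 26) (.e (nat_lit 557090) (nat_lit 12) (.e (nat_lit 163847) (nat_lit 0) (.e (nat_lit 6420) (nat_lit 341) (.e (nat_lit 163843) (nat_lit 0) (.e (nat_lit 7366) (nat_lit 388) .nil))))))))) (.g (nat_lit 1) (.e (nat_lit 40802) (nat_lit 0) .nil) .nil)))) 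
(.nd (nat_lit 9) 
(.lf (nat_lit 455156) (.g (nat_lit 3397) (.e (nat_lit 2663) (nat_lit 167) (.e (nat_lit 196666) (nat_lit 13) (.e (nat_lit 65610) (nat_lit 10) (.e (nat_lit 344117) (nat_lit 21) (.e (nat_lit 516106) (nat_lit 0) (.e (nat_lit 7112) (nat_lit 381) (.e (nat_lit 229690) (nat_lit 246) .nil))))))) (.g (nat_lit 1) (.e (nat_lit 40461) (nat_lit 0) .nil) .nil))) 
(.lf (nat_lit 455668) (.g (nat_lit 4137) (.e (nat_lit 2664) (nat_lit 167) (.e (nat_lit 196666) (nat_lit 13) (.e (nat_lit 65610) (nat_lit 10) (.e (nat_lit 344117) (nat_lit 21) (.e (nat_lit 516142) (nat_lit 8) (.e (nat_lit 417814) (nat_lit 10) (.e (nat_lit 5710) (nat_lit 312) .nil))))))) (.g (nat_lit 1) (.e (nat_lit 41248) (nat_lit 0) .nil) .nil))))))))) 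
(.nd (nat_lit 4) (.nd (nat_lit 5) (.nd (nat_lit 6) (.nd (nat_lit 7) (.nd (nat_lit 8) 
(.nd (nat_lit 9) 
(.lf (nat_lit 454668) (.g (nat_lit 1560) (.e (nat_lit 2648) (nat_lit 166) (.e (nat_lit 188418) (nat_lit 0) (.e (nat_lit 2058) (nat_lit 142) (.e (nat_lit 704598) (nat_lit 6) (.e (nat_lit 188446) (nat_lit 21) (.e (nat_lit 164346) (nat_lit 240) .nil)))))) (.g (nat_lit 1) (.e (nat_lit 36413) (nat_lit 0) .nil) .nil))) 
(.lf (nat_lit 455180) (.g (nat_lit 4542) (.e (nat_lit 2663) (nat_lit 167) (.e (nat_lit 196666) (nat_lit 13) (.e (nat_lit 65610) (nat_lit 10) (.e (nat_lit 344117) (nat_lit 21) (.e (nat_lit 516142) (nat_lit 8) (.e (nat_lit 417815) (nat_lit 10) (.e (nat_lit 5710) (nat_lit 312) .nil))))))) (.g (nat_lit 1) (.e (nat_lit 40485) (nat_lit 0) .nil) .nil)))) (.nd (nat_lit 9) 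
(.lf (nat_lit 454924) (.g (nat_lit 1520) (.e (nat_lit 2654) (nat_lit 167) (.e (nat_lit 196666) (nat_lit 13) (.e (nat_lit 65610) (nat_lit 10) (.e (nat_lit 344117) (nat_lit 21) .nil)))) (.g (nat_lit 0) (.e (nat_lit 39794) (nat_lit 0) .nil) .nil))) 
(.lf (nat_lit 455436) (.g (nat_lit 3873) (.e (nat_lit 2663) (nat_lit 167) (.e (nat_lit 196666) (nat_lit 13) (.e (nat_lit 65622) (nat_lit 12) (.e (nat_lit 385074) (nat_lit 31) (.e (nat_lit 573488) (nat_lit 14) (.e (nat_lit 73782) (nat_lit 32) .nil)))))) (.g (nat_lit 1) (.e (nat_lit 40830) (nat_lit 0) .nil) .nil))))) (.nd (nat_lit 8) (.nd (nat_lit 9) 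
(.lf (nat_lit 454796) (.g (nat_lit 2771) (.e (nat_lit 2651) (nat_lit 166) (.e (nat_lit 188420) (nat_lit 0) (.e (nat_lit 2058) (nat_lit 142) (.e (nat_lit 704598) (nat_lit 6) (.e (nat_lit 188455) (nat_lit 24) (.e (nat_lit 229664) (nat_lit 240) .nil)))))) (.g (nat_lit 1) (.e (nat_lit 38582) (nat_lit 0) .nil) .nil))) 
(.lf (nat_lit 455308) (.g (nat_lit 3311) (.e (nat_lit 2663) (nat_lit 167) (.e (nat_lit 196666) (nat_lit 13) (.e (nat_lit 65610) (nat_lit 10) (.e (nat_lit 344117) (nat_lit 21) (.e (nat_lit 516151) (nat_lit 9) (.e (nat_lit 426050) (nat_lit 0) (.e (nat_lit 7936) (nat_lit 208) (.e (nat_lit 622620) (nat_lit 13) .nil)))))))) (.g (nat_lit 1) (.e (nat_lit 40613) (nat_lit 0) .nil) .nil)))) 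
(.nd (nat_lit 9) 
(.lf (nat_lit 455052) (.g (nat_lit 2587) (.e (nat_lit 2661) (nat_lit 167) (.e (nat_lit 196666) (nat_lit 13) (.e (nat_lit 65624) (nat_lit 12) (.e (nat_lit 385074) (nat_lit 31) (.e (nat_lit 573487) (nat_lit 14) (.e (nat_lit 81664) (nat_lit 32) .nil)))))) (.g (nat_lit 1) (.e (nat_lit 40192) (nat_lit 0) .nil) .nil))) 
(.lf (nat_lit 455564) (.g (nat_lit 3104) (.e (nat_lit 2663) (nat_lit 167) (.e (nat_lit 196672) (nat_lit 15) (.e (nat_lit 81924) (nat_lit 0) (.e (nat_lit 3305) (nat_lit 202) (.e (nat_lit 573489) (nat_lit 14) (.e (nat_lit 73781) (nat_lit 32) .nil)))))) (.g (nat_lit 1) (.e (nat_lit 40991) (nat_lit 0) .nil) .nil)))))) (.nd (nat_lit 7) (.nd (nat_lit 8) (.nd (nat_lit 9) 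
(.lf (nat_lit 454732) (.g (nat_lit 2960) (.e (nat_lit 2648) (nat_lit 166) (.e (nat_lit 188440) (nat_lit 20) (.e (nat_lit 3409) (nat_lit 212) (.e (nat_lit 655378) (nat_lit 4) (.e (nat_lit 172115) (nat_lit 10) (.e (nat_lit 434209) (nat_lit 18) (.e (nat_lit 5547) (nat_lit 306) .nil))))))) (.g (nat_lit 1) (.e (nat_lit 36657) (nat_lit 0) .nil) .nil))) 
(.lf (nat_lit 455244) (.g (nat_lit 5628) (.e (nat_lit 2663) (nat_lit 167) (.e (nat_lit 196666) (nat_lit 13) (.e (nat_lit 65610) (nat_lit 10) (.e (nat_lit 344117) (nat_lit 21) (.e (nat_lit 516151) (nat_lit 9) (.e (nat_lit 426017) (nat_lit 0) (.e (nat_lit 3372) (nat_lit 208) (.e (nat_lit 622626) (nat_lit 13) .nil)))))))) (.g (nat_lit 1) (.e (nat_lit 40549) (nat_lit 0) .nil) .nil)))) 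
(.nd (nat_lit 9) 
(.lf (nat_lit 454988) (.g (nat_lit 2395) (.e (nat_lit 2657) (nat_lit 167) (.e (nat_lit 196672) (nat_lit 15) (.e (nat_lit 81954) (nat_lit 23) (.e (nat_lit 98349) (nat_lit 24) (.e (nat_lit 409610) (nat_lit 10) .nil))))) (.g (nat_lit 0) (.e (nat_lit 40052) (nat_lit 0) .nil) .nil))) 
(.lf (nat_lit 455500) (.g (nat_lit 2785) (.e (nat_lit 2663) (nat_lit 167) (.e (nat_lit 196670) (nat_lit 14) (.e (nat_lit 73753) (nat_lit 8) (.e (nat_lit 557103) (nat_lit 14) (.e (nat_lit 180250) (nat_lit 10) (.e (nat_lit 573477) (nat_lit 12) (.e (nat_lit 57511) (nat_lit 39) (.e (nat_lit 647171) (nat_lit 0) .nil)))))))) (.g (nat_lit 1) (.e (nat_lit 40922) (nat_lit 0) .nil) .nil))))) 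
(.nd (nat_lit 8) (.nd (nat_lit 9) 
(.lf (nat_lit 454860) (.g (nat_lit 892) (.e (nat_lit 2651) (nat_lit 166) (.e (nat_lit 188441) (nat_lit 20) (.e (nat_lit 3408) (nat_lit 212) (.e (nat_lit 655380) (nat_lit 6) .nil)))) (.g (nat_lit 0) (.e (nat_lit 38840) (nat_lit 0) .nil) .nil))) 
(.lf (nat_lit 455372) (.g (nat_lit 2863) (.e (nat_lit 2663) (nat_lit 167) (.e (nat_lit 196666) (nat_lit 13) (.e (nat_lit 65617) (nat_lit 10) (.e (nat_lit 344126) (nat_lit 25) (.e (nat_lit 548890) (nat_lit 10) (.e (nat_lit 73782) (nat_lit 32) .nil)))))) (.g (nat_lit 1) (.e (nat_lit 40759) (nat_lit 0) .nil) .nil)))) (.nd (nat_lit 9) 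
(.lf (nat_lit 455116) (.g (nat_lit 3428) (.e (nat_lit 2663) (nat_lit 167) (.e (nat_lit 196654) (nat_lit 11) (.e (nat_lit 16436) (nat_lit 9) (.e (nat_lit 426131) (nat_lit 3) (.e (nat_lit 204880) (nat_lit 32) (.e (nat_lit 385096) (nat_lit 49) (.e (nat_lit 778396) (nat_lit 9) .nil))))))) (.g (nat_lit 1) (.e (nat_lit 40313) (nat_lit 0) .nil) .nil))) 
(.lf (nat_lit 455628) (.g (nat_lit 3163) (.e (nat_lit 2664) (nat_lit 167) (.e (nat_lit 196666) (nat_lit 13) (.e (nat_lit 65610) (nat_lit 10) (.e (nat_lit 344117) (nat_lit 21) (.e (nat_lit 516098) (nat_lit 0) (.e (nat_lit 7579) (nat_lit 405) (.e (nat_lit 57750) (nat_lit 201) .nil))))))) (.g (nat_lit 1) (.e (nat_lit 41208) (nat_lit 0) .nil) .nil))))))) 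
(.nd (nat_lit 6) (.nd (nat_lit 7) (.nd (nat_lit 8) (.nd (nat_lit 9) 
(.lf (nat_lit 454700) (.g (nat_lit 3615) (.e (nat_lit 2648) (nat_lit 166) (.e (nat_lit 188420) (nat_lit 0) (.e (nat_lit 2174) (nat_lit 143) (.e (nat_lit 712752) (nat_lit 29) (.e (nat_lit 442421) (nat_lit 21) (.e (nat_lit 164347) (nat_lit 240) .nil)))))) (.g (nat_lit 1) (.e (nat_lit 36447) (nat_lit 0) .nil) .nil))) 
(.lf (nat_lit 455212) (.g (nat_lit 3955) (.e (nat_lit 2663) (nat_lit 167) (.e (nat_lit 196666) (nat_lit 13) (.e (nat_lit 65610) (nat_lit 10) (.e (nat_lit 344117) (nat_lit 21) (.e (nat_lit 516145) (nat_lit 9) (.e (nat_lit 426360) (nat_lit 15) (.e (nat_lit 2017) (nat_lit 139) (.e (nat_lit 679967) (nat_lit 13) .nil)))))))) (.g (nat_lit 1) (.e (nat_lit 40517) (nat_lit 0) .nil) .nil)))) 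
(.nd (nat_lit 9) 
(.lf (nat_lit 454956) (.g (nat_lit 2397) (.e (nat_lit 2654) (nat_lit 167) (.e (nat_lit 196672) (nat_lit 15) (.e (nat_lit 81954) (nat_lit 23) (.e (nat_lit 98353) (nat_lit 25) (.e (nat_lit 417817) (nat_lit 10) (.e (nat_lit 5657) (nat_lit 312) .nil)))))) (.g (nat_lit 1) (.e (nat_lit 39833) (nat_lit 0) .nil) .nil))) 
(.lf (nat_lit 455468) (.g (nat_lit 3187) (.e (nat_lit 2663) (nat_lit 167) (.e (nat_lit 196668) (nat_lit 14) (.e (nat_lit 73753) (nat_lit 8) (.e (nat_lit 557103) (nat_lit 14) (.e (nat_lit 180250) (nat_lit 10) (.e (nat_lit 573473) (nat_lit 12) (.e (nat_lit 57508) (nat_lit 39) (.e (nat_lit 647176) (nat_lit 0) .nil)))))))) (.g (nat_lit 1) (.e (nat_lit 40887) (nat_lit 0) .nil) .nil))))) 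
(.nd (nat_lit 8) (.nd (nat_lit 9) 
(.lf (nat_lit 454828) (.g (nat_lit 1227) (.e (nat_lit 2651) (nat_lit 166) (.e (nat_lit 188431) (nat_lit 20) (.e (nat_lit 3399) (nat_lit 211) (.e (nat_lit 647183) (nat_lit 4) (.e (nat_lit 172091) (nat_lit 9) (.e (nat_lit 426144) (nat_lit 4) (.e (nat_lit 229664) (nat_lit 240) .nil))))))) (.g (nat_lit 1) (.e (nat_lit 38691) (nat_lit 0) .nil) .nil))) 
(.lf (nat_lit 455340) (.g (nat_lit 4207) (.e (nat_lit 2663) (nat_lit 167) (.e (nat_lit 196666) (nat_lit 13) (.e (nat_lit 65610) (nat_lit 10) (.e (nat_lit 344117) (nat_lit 21) (.e (nat_lit 516160) (nat_lit 10) (.e (nat_lit 434264) (nat_lit 34) (.e (nat_lit 622620) (nat_lit 13) .nil))))))) (.g (nat_lit 1) (.e (nat_lit 40645) (nat_lit 0) .nil) .nil)))) (.nd (nat_lit 9) 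
(.lf (nat_lit 455084) (.g (nat_lit 3415) (.e (nat_lit 2662) (nat_lit 167) (.e (nat_lit 196666) (nat_lit 13) (.e (nat_lit 65610) (nat_lit 10) (.e (nat_lit 344117) (nat_lit 21) (.e (nat_lit 516170) (nat_lit 13) .nil))))) (.g (nat_lit 0) (.e (nat_lit 40238) (nat_lit 0) .nil) .nil))) 
(.lf (nat_lit 455596) (.g (nat_lit 2699) (.e (nat_lit 2664) (nat_lit 167) (.e (nat_lit 196663) (nat_lit 13) (.e (nat_lit 65630) (nat_lit 14) (.e (nat_lit 401428) (nat_lit 3) (.e (nat_lit 204863) (nat_lit 27) (.e (nat_lit 344068) (nat_lit 0) .nil)))))) (.g (nat_lit 1) (.e (nat_lit 41159) (nat_lit 0) .nil) .nil)))))) (.nd (nat_lit 7) (.nd (nat_lit 8) (.nd (nat_lit 9) 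
(.lf (nat_lit 454764) (.g (nat_lit 3719) (.e (nat_lit 2650) (nat_lit 166) (.e (nat_lit 188434) (nat_lit 20) (.e (nat_lit 3409) (nat_lit 212) (.e (nat_lit 655378) (nat_lit 4) (.e (nat_lit 172097) (nat_lit 9) (.e (nat_lit 426109) (nat_lit 1) (.e (nat_lit 164347) (nat_lit 240) .nil))))))) (.g (nat_lit 1) (.e (nat_lit 37647) (nat_lit 0) .nil) .nil))) 
(.lf (nat_lit 455276) (.g (nat_lit 6058) (.e (nat_lit 2663) (nat_lit 167) (.e (nat_lit 196666) (nat_lit 13) (.e (nat_lit 65610) (nat_lit 10) (.e (nat_lit 344117) (nat_lit 21) (.e (nat_lit 516151) (nat_lit 9) (.e (nat_lit 426038) (nat_lit 0) (.e (nat_lit 3370) (nat_lit 208) (.e (nat_lit 622625) (nat_lit 13) .nil)))))))) (.g (nat_lit 1) (.e (nat_lit 40581) (nat_lit 0) .nil) .nil)))) 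
(.nd (nat_lit 9) 
(.lf (nat_lit 455020) (.g (nat_lit 3574) (.e (nat_lit 2661) (nat_lit 167) (.e (nat_lit 196666) (nat_lit 13) (.e (nat_lit 65610) (nat_lit 10) (.e (nat_lit 344117) (nat_lit 21) (.e (nat_lit 516106) (nat_lit 0) (.e (nat_lit 6986) (nat_lit 377) (.e (nat_lit 2512) (nat_lit 157) (.e (nat_lit 5664) (nat_lit 312) .nil)))))))) (.g (nat_lit 1) (.e (nat_lit 40155) (nat_lit 0) .nil) .nil))) 
(.lf (nat_lit 455532) (.g (nat_lit 3876) (.e (nat_lit 2663) (nat_lit 167) (.e (nat_lit 196670) (nat_lit 14) (.e (nat_lit 73754) (nat_lit 8) (.e (nat_lit 557105) (nat_lit 14) (.e (nat_lit 180252) (nat_lit 10) (.e (nat_lit 573473) (nat_lit 12) (.e (nat_lit 57508) (nat_lit 39) (.e (nat_lit 647175) (nat_lit 0) .nil)))))))) (.g (nat_lit 1) (.e (nat_lit 40954) (nat_lit 0) .nil) .nil))))) 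
(.nd (nat_lit 8) (.nd (nat_lit 9) 
(.lf (nat_lit 454892) (.g (nat_lit 2265) (.e (nat_lit 2653) (nat_lit 166) (.e (nat_lit 188418) (nat_lit 0) (.e (nat_lit 2174) (nat_lit 143) (.e (nat_lit 712755) (nat_lit 30) (.e (nat_lit 450568) (nat_lit 0) (.e (nat_lit 5448) (nat_lit 306) .nil)))))) (.g (nat_lit 1) (.e (nat_lit 39208) (nat_lit 0) .nil) .nil))) 
(.lf (nat_lit 455404) (.g (nat_lit 3283) (.e (nat_lit 2663) (nat_lit 167) (.e (nat_lit 196666) (nat_lit 13) (.e (nat_lit 65617) (nat_lit 10) (.e (nat_lit 344130) (nat_lit 26) (.e (nat_lit 557087) (nat_lit 11) (.e (nat_lit 24589) (nat_lit 0) (.e (nat_lit 6648) (nat_lit 357) .nil))))))) (.g (nat_lit 1) (.e (nat_lit 40794) (nat_lit 0) .nil) .nil)))) (.nd (nat_lit 9) 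
(.lf (nat_lit 455148) (.g (nat_lit 3526) (.e (nat_lit 2663) (nat_lit 167) (.e (nat_lit 196666) (nat_lit 13) (.e (nat_lit 65610) (nat_lit 10) (.e (nat_lit 344117) (nat_lit 21) (.e (nat_lit 516102) (nat_lit 0) (.e (nat_lit 7114) (nat_lit 381) (.e (nat_lit 229688) (nat_lit 246) .nil))))))) (.g (nat_lit 1) (.e (nat_lit 40453) (nat_lit 0) .nil) .nil))) 
(.lf (nat_lit 455660) (.g (nat_lit 2747) (.e (nat_lit 2664) (nat_lit 167) (.e (nat_lit 196666) (nat_lit 13) (.e (nat_lit 65610) (nat_lit 10) (.e (nat_lit 344117) (nat_lit 21) (.e (nat_lit 516139) (nat_lit 7) (.e (nat_lit 409609) (nat_lit 10) (.e (nat_lit 5710) (nat_lit 312) .nil))))))) (.g (nat_lit 1) (.e (nat_lit 41240) (nat_lit 0) .nil) .nil)))))))) 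
(.nd (nat_lit 5) (.nd (nat_lit 6) (.nd (nat_lit 7) (.nd (nat_lit 8) (.nd (nat_lit 9) 
(.lf (nat_lit 454684) (.g (nat_lit 1420) (.e (nat_lit 2648) (nat_lit 166) (.e (nat_lit 188420) (nat_lit 0) (.e (nat_lit 2056) (nat_lit 142) (.e (nat_lit 704598) (nat_lit 6) (.e (nat_lit 188444) (nat_lit 21) (.e (nat_lit 164345) (nat_lit 240) .nil)))))) (.g (nat_lit 1) (.e (nat_lit 36429) (nat_lit 0) .nil) .nil))) 
(.lf (nat_lit 455196) (.g (nat_lit 3591) (.e (nat_lit 2663) (nat_lit 167) (.e (nat_lit 196666) (nat_lit 13) (.e (nat_lit 65610) (nat_lit 10) (.e (nat_lit 344117) (nat_lit 21) (.e (nat_lit 516145) (nat_lit 9) (.e (nat_lit 426085) (nat_lit 0) (.e (nat_lit 3366) (nat_lit 208) (.e (nat_lit 622620) (nat_lit 13) .nil)))))))) (.g (nat_lit 1) (.e (nat_lit 40501) (nat_lit 0) .nil) .nil)))) 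
(.nd (nat_lit 9) 
(.lf (nat_lit 454940) (.g (nat_lit 2007) (.e (nat_lit 2654) (nat_lit 167) (.e (nat_lit 196669) (nat_lit 14) (.e (nat_lit 73755) (nat_lit 8) (.e (nat_lit 557105) (nat_lit 14) (.e (nat_lit 180252) (nat_lit 10) (.e (nat_lit 573474) (nat_lit 12) (.e (nat_lit 57507) (nat_lit 39) (.e (nat_lit 647170) (nat_lit 0) .nil)))))))) (.g (nat_lit 1) (.e (nat_lit 39811) (nat_lit 0) .nil) .nil))) 
(.lf (nat_lit 455452) (.g (nat_lit 2493) (.e (nat_lit 2663) (nat_lit 167) (.e (nat_lit 196666) (nat_lit 13) (.e (nat_lit 65628) (nat_lit 14) (.e (nat_lit 401428) (nat_lit 3) (.e (nat_lit 204864) (nat_lit 27) (.e (nat_lit 344069) (nat_lit 0) .nil)))))) (.g (nat_lit 1) (.e (nat_lit 40858) (nat_lit 0) .nil) .nil))))) (.nd (nat_lit 8) (.nd (nat_lit 9) 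
(.lf (nat_lit 454812) (.g (nat_lit 2393) (.e (nat_lit 2651) (nat_lit 166) (.e (nat_lit 188420) (nat_lit 0) (.e (nat_lit 2175) (nat_lit 143) (.e (nat_lit 712750) (nat_lit 29) (.e (nat_lit 442430) (nat_lit 24) (.e (nat_lit 229664) (nat_lit 240) .nil)))))) (.g (nat_lit 1) (.e (nat_lit 38601) (nat_lit 0) .nil) .nil))) 
(.lf (nat_lit 455324) (.g (nat_lit 3982) (.e (nat_lit 2663) (nat_lit 167) (.e (nat_lit 196666) (nat_lit 13) (.e (nat_lit 65610) (nat_lit 10) (.e (nat_lit 344117) (nat_lit 21) (.e (nat_lit 516159) (nat_lit 10) (.e (nat_lit 434208) (nat_lit 18) (.e (nat_lit 4754) (nat_lit 281) (.e (nat_lit 2489) (nat_lit 157) .nil)))))))) (.g (nat_lit 1) (.e (nat_lit 40629) (nat_lit 0) .nil) .nil)))) 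
(.nd (nat_lit 9) 
(.lf (nat_lit 455068) (.g (nat_lit 1959) (.e (nat_lit 2661) (nat_lit 167) (.e (nat_lit 196673) (nat_lit 15) (.e (nat_lit 81956) (nat_lit 23) (.e (nat_lit 98350) (nat_lit 24) (.e (nat_lit 409616) (nat_lit 10) (.e (nat_lit 7936) (nat_lit 312) .nil)))))) (.g (nat_lit 1) (.e (nat_lit 40221) (nat_lit 0) .nil) .nil))) 
(.lf (nat_lit 455580) (.g (nat_lit 3224) (.e (nat_lit 2663) (nat_lit 167) (.e (nat_lit 196673) (nat_lit 15) (.e (nat_lit 81956) (nat_lit 23) (.e (nat_lit 98350) (nat_lit 24) (.e (nat_lit 409616) (nat_lit 10) .nil))))) (.g (nat_lit 0) (.e (nat_lit 41031) (nat_lit 0) .nil) .nil)))))) (.nd (nat_lit 7) (.nd (nat_lit 8) (.nd (nat_lit 9) 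
(.lf (nat_lit 454748) (.g (nat_lit 3670) (.e (nat_lit 2649) (nat_lit 166) (.e (nat_lit 188434) (nat_lit 20) (.e (nat_lit 3409) (nat_lit 212) (.e (nat_lit 655378) (nat_lit 4) (.e (nat_lit 172115) (nat_lit 10) (.e (nat_lit 434209) (nat_lit 18) (.e (nat_lit 5546) (nat_lit 306) .nil))))))) (.g (nat_lit 1) (.e (nat_lit 37078) (nat_lit 0) .nil) .nil))) 
(.lf (nat_lit 455260) (.g (nat_lit 5028) (.e (nat_lit 2663) (nat_lit 167) (.e (nat_lit 196666) (nat_lit 13) (.e (nat_lit 65610) (nat_lit 10) (.e (nat_lit 344117) (nat_lit 21) (.e (nat_lit 516151) (nat_lit 9) (.e (nat_lit 426022) (nat_lit 0) (.e (nat_lit 3363) (nat_lit 208) (.e (nat_lit 622626) (nat_lit 13) .nil)))))))) (.g (nat_lit 1) (.e (nat_lit 40565) (nat_lit 0) .nil) .nil)))) 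
(.nd (nat_lit 9) 
(.lf (nat_lit 455004) (.g (nat_lit 2877) (.e (nat_lit 2660) (nat_lit 167) (.e (nat_lit 196671) (nat_lit 15) (.e (nat_lit 81956) (nat_lit 23) (.e (nat_lit 98350) (nat_lit 24) (.e (nat_lit 409616) (nat_lit 10) .nil))))) (.g (nat_lit 0) (.e (nat_lit 40093) (nat_lit 0) .nil) .nil))) 
(.lf (nat_lit 455516) (.g (nat_lit 3601) (.e (nat_lit 2663) (nat_lit 167) (.e (nat_lit 196670) (nat_lit 14) (.e (nat_lit 73753) (nat_lit 8) (.e (nat_lit 557105) (nat_lit 14) (.e (nat_lit 180252) (nat_lit 10) (.e (nat_lit 573474) (nat_lit 12) (.e (nat_lit 57509) (nat_lit 39) (.e (nat_lit 647172) (nat_lit 0) .nil)))))))) (.g (nat_lit 1) (.e (nat_lit 40938) (nat_lit 0) .nil) .nil))))) 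
(.nd (nat_lit 8) (.nd (nat_lit 9) 
(.lf (nat_lit 454876) (.g (nat_lit 1713) (.e (nat_lit 2653) (nat_lit 166) (.e (nat_lit 188418) (nat_lit 0) (.e (nat_lit 2057) (nat_lit 142) (.e (nat_lit 704598) (nat_lit 6) (.e (nat_lit 188453) (nat_lit 24) (.e (nat_lit 229666) (nat_lit 240) .nil)))))) (.g (nat_lit 1) (.e (nat_lit 39190) (nat_lit 0) .nil) .nil))) 
(.lf (nat_lit 455388) (.g (nat_lit 2717) (.e (nat_lit 2663) (nat_lit 167) (.e (nat_lit 196666) (nat_lit 13) (.e (nat_lit 65617) (nat_lit 10) (.e (nat_lit 344130) (nat_lit 26) (.e (nat_lit 557087) (nat_lit 11) (.e (nat_lit 24576) (nat_lit 0) (.e (nat_lit 6670) (nat_lit 357) .nil))))))) (.g (nat_lit 1) (.e (nat_lit 40777) (nat_lit 0) .nil) .nil)))) (.nd (nat_lit 9) 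
(.lf (nat_lit 455132) (.g (nat_lit 7391) (.e (nat_lit 2663) (nat_lit 167) (.e (nat_lit 196666) (nat_lit 13) (.e (nat_lit 65610) (nat_lit 10) (.e (nat_lit 344117) (nat_lit 21) (.e (nat_lit 516097) (nat_lit 0) (.e (nat_lit 7581) (nat_lit 405) (.e (nat_lit 57750) (nat_lit 201) .nil))))))) (.g (nat_lit 1) (.e (nat_lit 40437) (nat_lit 0) .nil) .nil))) 
(.lf (nat_lit 455644) (.g (nat_lit 4088) (.e (nat_lit 2664) (nat_lit 167) (.e (nat_lit 196666) (nat_lit 13) (.e (nat_lit 65610) (nat_lit 10) (.e (nat_lit 344117) (nat_lit 21) (.e (nat_lit 516106) (nat_lit 0) (.e (nat_lit 6986) (nat_lit 377) (.e (nat_lit 2513) (nat_lit 157) (.e (nat_lit 5688) (nat_lit 312) .nil)))))))) (.g (nat_lit 1) (.e (nat_lit 41224) (nat_lit 0) .nil) .nil))))))) 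
(.nd (nat_lit 6) (.nd (nat_lit 7) (.nd (nat_lit 8) (.nd (nat_lit 9) 
(.lf (nat_lit 454716) (.g (nat_lit 2863) (.e (nat_lit 2648) (nat_lit 166) (.e (nat_lit 188431) (nat_lit 20) (.e (nat_lit 3397) (nat_lit 211) (.e (nat_lit 647183) (nat_lit 4) (.e (nat_lit 172115) (nat_lit 10) (.e (nat_lit 434209) (nat_lit 18) (.e (nat_lit 5547) (nat_lit 306) .nil))))))) (.g (nat_lit 1) (.e (nat_lit 36495) (nat_lit 0) .nil) .nil))) 
(.lf (nat_lit 455228) (.g (nat_lit 5451) (.e (nat_lit 2663) (nat_lit 167) (.e (nat_lit 196666) (nat_lit 13) (.e (nat_lit 65610) (nat_lit 10) (.e (nat_lit 344117) (nat_lit 21) (.e (nat_lit 516145) (nat_lit 9) (.e (nat_lit 426363) (nat_lit 15) (.e (nat_lit 2015) (nat_lit 139) (.e (nat_lit 679968) (nat_lit 13) .nil)))))))) (.g (nat_lit 1) (.e (nat_lit 40533) (nat_lit 0) .nil) .nil)))) 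
(.nd (nat_lit 9) 
(.lf (nat_lit 454972) (.g (nat_lit 4470) (.e (nat_lit 2656) (nat_lit 167) (.e (nat_lit 196672) (nat_lit 15) (.e (nat_lit 81956) (nat_lit 23) (.e (nat_lit 98350) (nat_lit 24) (.e (nat_lit 409616) (nat_lit 10) (.e (nat_lit 7936) (nat_lit 312) .nil)))))) (.g (nat_lit 1) (.e (nat_lit 39938) (nat_lit 0) .nil) .nil))) 
(.lf (nat_lit 455484) (.g (nat_lit 2388) (.e (nat_lit 2663) (nat_lit 167) (.e (nat_lit 196670) (nat_lit 14) (.e (nat_lit 73746) (nat_lit 3) (.e (nat_lit 516131) (nat_lit 3) (.e (nat_lit 221212) (nat_lit 22) (.e (nat_lit 196658) (nat_lit 12) (.e (nat_lit 57508) (nat_lit 39) (.e (nat_lit 647176) (nat_lit 0) .nil)))))))) (.g (nat_lit 1) (.e (nat_lit 40906) (nat_lit 0) .nil) .nil))))) 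
(.nd (nat_lit 8) (.nd (nat_lit 9) 
(.lf (nat_lit 454844) (.g (nat_lit 2607) (.e (nat_lit 2651) (nat_lit 166) (.e (nat_lit 188439) (nat_lit 20) (.e (nat_lit 3408) (nat_lit 212) (.e (nat_lit 655380) (nat_lit 6) (.e (nat_lit 188455) (nat_lit 24) (.e (nat_lit 229664) (nat_lit 240) .nil)))))) (.g (nat_lit 1) (.e (nat_lit 38778) (nat_lit 0) .nil) .nil))) 
(.lf (nat_lit 455356) (.g (nat_lit 3386) (.e (nat_lit 2663) (nat_lit 167) (.e (nat_lit 196666) (nat_lit 13) (.e (nat_lit 65610) (nat_lit 10) (.e (nat_lit 344129) (nat_lit 26) (.e (nat_lit 557087) (nat_lit 11) (.e (nat_lit 24584) (nat_lit 0) (.e (nat_lit 6676) (nat_lit 357) .nil))))))) (.g (nat_lit 1) (.e (nat_lit 40694) (nat_lit 0) .nil) .nil)))) (.nd (nat_lit 9) 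
(.lf (nat_lit 455100) (.g (nat_lit 2417) (.e (nat_lit 2663) (nat_lit 167) (.e (nat_lit 196654) (nat_lit 11) (.e (nat_lit 16436) (nat_lit 9) (.e (nat_lit 426131) (nat_lit 3) (.e (nat_lit 204880) (nat_lit 32) (.e (nat_lit 385090) (nat_lit 49) (.e (nat_lit 778400) (nat_lit 9) .nil))))))) (.g (nat_lit 1) (.e (nat_lit 40297) (nat_lit 0) .nil) .nil))) 
(.lf (nat_lit 455612) (.g (nat_lit 322) (.e (nat_lit 2664) (nat_lit 167) (.e (nat_lit 196666) (nat_lit 13) (.e (nat_lit 65610) (nat_lit 10) .nil))) (.g (nat_lit 0) (.e (nat_lit 41179) (nat_lit 0) .nil) .nil)))))) (.nd (nat_lit 7) (.nd (nat_lit 8) (.nd (nat_lit 9) 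
(.lf (nat_lit 454780) (.g (nat_lit 3628) (.e (nat_lit 2650) (nat_lit 166) (.e (nat_lit 188455) (nat_lit 24) (.e (nat_lit 229519) (nat_lit 125) (.e (nat_lit 122919) (nat_lit 15) (.e (nat_lit 360451) (nat_lit 0) (.e (nat_lit 7684) (nat_lit 410) .nil)))))) (.g (nat_lit 1) (.e (nat_lit 38058) (nat_lit 0) .nil) .nil))) 
(.lf (nat_lit 455292) (.g (nat_lit 4240) (.e (nat_lit 2663) (nat_lit 167) (.e (nat_lit 196666) (nat_lit 13) (.e (nat_lit 65610) (nat_lit 10) (.e (nat_lit 344117) (nat_lit 21) (.e (nat_lit 516151) (nat_lit 9) (.e (nat_lit 426042) (nat_lit 0) (.e (nat_lit 3366) (nat_lit 208) (.e (nat_lit 622620) (nat_lit 13) .nil)))))))) (.g (nat_lit 1) (.e (nat_lit 40597) (nat_lit 0) .nil) .nil)))) 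
(.nd (nat_lit 9) 
(.lf (nat_lit 455036) (.g (nat_lit 2232) (.e (nat_lit 2661) (nat_lit 167) (.e (nat_lit 196666) (nat_lit 13) (.e (nat_lit 65610) (nat_lit 10) (.e (nat_lit 344117) (nat_lit 21) (.e (nat_lit 516142) (nat_lit 8) (.e (nat_lit 417818) (nat_lit 10) (.e (nat_lit 5667) (nat_lit 312) .nil))))))) (.g (nat_lit 1) (.e (nat_lit 40171) (nat_lit 0) .nil) .nil))) 
(.lf (nat_lit 455548) (.g (nat_lit 2469) (.e (nat_lit 2663) (nat_lit 167) (.e (nat_lit 196670) (nat_lit 14) (.e (nat_lit 73754) (nat_lit 8) (.e (nat_lit 557105) (nat_lit 14) (.e (nat_lit 180252) (nat_lit 10) (.e (nat_lit 573475) (nat_lit 12) (.e (nat_lit 57508) (nat_lit 39) (.e (nat_lit 647171) (nat_lit 0) .nil)))))))) (.g (nat_lit 1) (.e (nat_lit 40970) (nat_lit 0) .nil) .nil))))) 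
(.nd (nat_lit 8) (.nd (nat_lit 9) 
(.lf (nat_lit 454908) (.g (nat_lit 2680) (.e (nat_lit 2653) (nat_lit 166) (.e (nat_lit 188440) (nat_lit 20) (.e (nat_lit 3469) (nat_lit 217) (.e (nat_lit 696344) (nat_lit 8) (.e (nat_lit 172113) (nat_lit 10) (.e (nat_lit 434208) (nat_lit 18) (.e (nat_lit 6252) (nat_lit 337) .nil))))))) (.g (nat_lit 1) (.e (nat_lit 39314) (nat_lit 0) .nil) .nil))) 
(.lf (nat_lit 455420) (.g (nat_lit 1842) (.e (nat_lit 2663) (nat_lit 167) (.e (nat_lit 196666) (nat_lit 13) (.e (nat_lit 65617) (nat_lit 10) (.e (nat_lit 344133) (nat_lit 26) (.e (nat_lit 557066) (nat_lit 9) .nil))))) (.g (nat_lit 0) (.e (nat_lit 40812) (nat_lit 0) .nil) .nil)))) (.nd (nat_lit 9) 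
(.lf (nat_lit 455164) (.g (nat_lit 4167) (.e (nat_lit 2663) (nat_lit 167) (.e (nat_lit 196666) (nat_lit 13) (.e (nat_lit 65610) (nat_lit 10) (.e (nat_lit 344117) (nat_lit 21) (.e (nat_lit 516139) (nat_lit 7) (.e (nat_lit 409608) (nat_lit 10) (.e (nat_lit 5710) (nat_lit 312) .nil))))))) (.g (nat_lit 1) (.e (nat_lit 40469) (nat_lit 0) .nil) .nil))) 
(.lf (nat_lit 455676) (.g (nat_lit 2669) (.e (nat_lit 2664) (nat_lit 167) (.e (nat_lit 196666) (nat_lit 13) (.e (nat_lit 65610) (nat_lit 10) (.e (nat_lit 344117) (nat_lit 21) (.e (nat_lit 516151) (nat_lit 9) (.e (nat_lit 426042) (nat_lit 0) (.e (nat_lit 2427) (nat_lit 157) (.e (nat_lit 4760) (nat_lit 281) (.e (nat_lit 2517) (nat_lit 157) .nil))))))))) (.g (nat_lit 1) (.e (nat_lit 41257) (nat_lit 0) .nil) .nil))))))))))) 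
(.nd (nat_lit 2) (.nd (nat_lit 3) (.nd (nat_lit 4) (.nd (nat_lit 5) (.nd (nat_lit 6) 
(.nd (nat_lit 7) (.nd (nat_lit 8) (.nd (nat_lit 9) 
(.lf (nat_lit 454658) (.g (nat_lit 2366) (.e (nat_lit 2648) (nat_lit 166) (.e (nat_lit 188416) (nat_lit 0) (.e (nat_lit 2147) (nat_lit 142) (.e (nat_lit 704597) (nat_lit 6) (.e (nat_lit 188446) (nat_lit 21) (.e (nat_lit 164348) (nat_lit 240) .nil)))))) (.g (nat_lit 1) (.e (nat_lit 36398) (nat_lit 0) .nil) .nil))) 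
(.lf (nat_lit 455170) (.g (nat_lit 4556) (.e (nat_lit 2663) (nat_lit 167) (.e (nat_lit 196666) (nat_lit 13) (.e (nat_lit 65610) (nat_lit 10) (.e (nat_lit 344117) (nat_lit 21) (.e (nat_lit 516139) (nat_lit 7) (.e (nat_lit 409618) (nat_lit 10) (.e (nat_lit 5726) (nat_lit 312) .nil))))))) (.g (nat_lit 1) (.e (nat_lit 40475) (nat_lit 0) .nil) .nil)))) (.nd (nat_lit 9) 
(.lf (nat_lit 454914) (.g (nat_lit 2002) (.e (nat_lit 2653) (nat_lit 166) (.e (nat_lit 188441) (nat_lit 20) (.e (nat_lit 3469) (nat_lit 217) (.e (nat_lit 696344) (nat_lit 8) (.e (nat_lit 172106) (nat_lit 10) (.e (nat_lit 434202) (nat_lit 18) (.e (nat_lit 6252) (nat_lit 337) .nil))))))) (.g (nat_lit 1) (.e (nat_lit 39360) (nat_lit 0) .nil) .nil))) 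
(.lf (nat_lit 455426) (.g (nat_lit 2801) (.e (nat_lit 2663) (nat_lit 167) (.e (nat_lit 196666) (nat_lit 13) (.e (nat_lit 65617) (nat_lit 10) (.e (nat_lit 344133) (nat_lit 26) (.e (nat_lit 557086) (nat_lit 11) (.e (nat_lit 24580) (nat_lit 0) (.e (nat_lit 6696) (nat_lit 357) .nil))))))) (.g (nat_lit 1) (.e (nat_lit 40819) (nat_lit 0) .nil) .nil))))) (.nd (nat_lit 8) (.nd (nat_lit 9) 
(.lf (nat_lit 454786) (.g (nat_lit 1899) (.e (nat_lit 2651) (nat_lit 166) (.e (nat_lit 188417) (nat_lit 0) (.e (nat_lit 2148) (nat_lit 142) (.e (nat_lit 704597) (nat_lit 6) (.e (nat_lit 188453) (nat_lit 24) (.e (nat_lit 229666) (nat_lit 240) .nil)))))) (.g (nat_lit 1) (.e (nat_lit 38572) (nat_lit 0) .nil) .nil))) 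
(.lf (nat_lit 455298) (.g (nat_lit 5947) (.e (nat_lit 2663) (nat_lit 167) (.e (nat_lit 196666) (nat_lit 13) (.e (nat_lit 65610) (nat_lit 10) (.e (nat_lit 344117) (nat_lit 21) (.e (nat_lit 516151) (nat_lit 9) (.e (nat_lit 426045) (nat_lit 0) (.e (nat_lit 3366) (nat_lit 208) (.e (nat_lit 622627) (nat_lit 13) .nil)))))))) (.g (nat_lit 1) (.e (nat_lit 40603) (nat_lit 0) .nil) .nil)))) 
(.nd (nat_lit 9) 
(.lf (nat_lit 455042) (.g (nat_lit 2231) (.e (nat_lit 2661) (nat_lit 167) (.e (nat_lit 196666) (nat_lit 13) (.e (nat_lit 65610) (nat_lit 10) (.e (nat_lit 344129) (nat_lit 26) (.e (nat_lit 557084) (nat_lit 10) .nil))))) (.g (nat_lit 0) (.e (nat_lit 40180) (nat_lit 0) .nil) .nil))) 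
(.lf (nat_lit 455554) (.g (nat_lit 3595) (.e (nat_lit 2663) (nat_lit 167) (.e (nat_lit 196670) (nat_lit 14) (.e (nat_lit 73755) (nat_lit 8) (.e (nat_lit 557105) (nat_lit 14) (.e (nat_lit 180252) (nat_lit 10) (.e (nat_lit 573474) (nat_lit 12) (.e (nat_lit 57506) (nat_lit 39) (.e (nat_lit 647176) (nat_lit 0) .nil)))))))) (.g (nat_lit 1) (.e (nat_lit 40976) (nat_lit 0) .nil) .nil)))))) 
(.nd (nat_lit 7) (.nd (nat_lit 8) (.nd (nat_lit 9) 
(.lf (nat_lit 454722) (.g (nat_lit 3121) (.e (nat_lit 2648) (nat_lit 166) (.e (nat_lit 188431) (nat_lit 20) (.e (nat_lit 3402) (nat_lit 211) (.e (nat_lit 647183) (nat_lit 4) (.e (nat_lit 172106) (nat_lit 10) (.e (nat_lit 434209) (nat_lit 18) (.e (nat_lit 5546) (nat_lit 306) .nil))))))) (.g (nat_lit 1) (.e (nat_lit 36527) (nat_lit 0) .nil) .nil))) 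
(.lf (nat_lit 455234) (.g (nat_lit 4243) (.e (nat_lit 2663) (nat_lit 167) (.e (nat_lit 196666) (nat_lit 13) (.e (nat_lit 65610) (nat_lit 10) (.e (nat_lit 344117) (nat_lit 21) (.e (nat_lit 516151) (nat_lit 9) (.e (nat_lit 426003) (nat_lit 0) (.e (nat_lit 3366) (nat_lit 208) (.e (nat_lit 622627) (nat_lit 13) .nil)))))))) (.g (nat_lit 1) (.e (nat_lit 40539) (nat_lit 0) .nil) .nil)))) 
(.nd (nat_lit 9) 
(.lf (nat_lit 454978) (.g (nat_lit 3442) (.e (nat_lit 2657) (nat_lit 167) (.e (nat_lit 196669) (nat_lit 14) (.e (nat_lit 73755) (nat_lit 8) (.e (nat_lit 557105) (nat_lit 14) (.e (nat_lit 180252) (nat_lit 10) (.e (nat_lit 573474) (nat_lit 12) (.e (nat_lit 57507) (nat_lit 39) (.e (nat_lit 655104) (nat_lit 0) .nil)))))))) (.g (nat_lit 1) (.e (nat_lit 39995) (nat_lit 0) .nil) .nil))) 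
(.lf (nat_lit 455490) (.g (nat_lit 4128) (.e (nat_lit 2663) (nat_lit 167) (.e (nat_lit 196670) (nat_lit 14) (.e (nat_lit 73753) (nat_lit 8) (.e (nat_lit 557103) (nat_lit 14) (.e (nat_lit 180250) (nat_lit 10) (.e (nat_lit 573473) (nat_lit 12) (.e (nat_lit 57507) (nat_lit 39) (.e (nat_lit 647176) (nat_lit 0) .nil)))))))) (.g (nat_lit 1) (.e (nat_lit 40912) (nat_lit 0) .nil) .nil))))) 
(.nd (nat_lit 8) (.nd (nat_lit 9) 
(.lf (nat_lit 454850) (.g (nat_lit 3486) (.e (nat_lit 2651) (nat_lit 166) (.e (nat_lit 188439) (nat_lit 20) (.e (nat_lit 3409) (nat_lit 212) (.e (nat_lit 655380) (nat_lit 6) (.e (nat_lit 188455) (nat_lit 24) (.e (nat_lit 229663) (nat_lit 240) .nil)))))) (.g (nat_lit 1) (.e (nat_lit 38794) (nat_lit 0) .nil) .nil))) 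
(.lf (nat_lit 455362) (.g (nat_lit 1350) (.e (nat_lit 2663) (nat_lit 167) (.e (nat_lit 196666) (nat_lit 13) (.e (nat_lit 65617) (nat_lit 10) (.e (nat_lit 344088) (nat_lit 18) .nil)))) (.g (nat_lit 0) (.e (nat_lit 40701) (nat_lit 0) .nil) .nil)))) (.nd (nat_lit 9) 
(.lf (nat_lit 455106) (.g (nat_lit 3595) (.e (nat_lit 2663) (nat_lit 167) (.e (nat_lit 196654) (nat_lit 11) (.e (nat_lit 16436) (nat_lit 9) (.e (nat_lit 426131) (nat_lit 3) (.e (nat_lit 204880) (nat_lit 32) (.e (nat_lit 385096) (nat_lit 49) (.e (nat_lit 778387) (nat_lit 9) .nil))))))) (.g (nat_lit 1) (.e (nat_lit 40303) (nat_lit 0) .nil) .nil))) 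
(.lf (nat_lit 455618) (.g (nat_lit 3631) (.e (nat_lit 2664) (nat_lit 167) (.e (nat_lit 196666) (nat_lit 13) (.e (nat_lit 65610) (nat_lit 10) (.e (nat_lit 344117) (nat_lit 21) (.e (nat_lit 516097) (nat_lit 0) (.e (nat_lit 7073) (nat_lit 377) (.e (nat_lit 2416) (nat_lit 157) (.e (nat_lit 5710) (nat_lit 312) .nil)))))))) (.g (nat_lit 1) (.e (nat_lit 41198) (nat_lit 0) .nil) .nil))))))) 
(.nd (nat_lit 6) (.nd (nat_lit 7) (.nd (nat_lit 8) (.nd (nat_lit 9) 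
(.lf (nat_lit 454690) (.g (nat_lit 2668) (.e (nat_lit 2648) (nat_lit 166) (.e (nat_lit 188420) (nat_lit 0) (.e (nat_lit 2058) (nat_lit 142) (.e (nat_lit 704598) (nat_lit 6) (.e (nat_lit 188444) (nat_lit 21) (.e (nat_lit 164347) (nat_lit 240) .nil)))))) (.g (nat_lit 1) (.e (nat_lit 36437) (nat_lit 0) .nil) .nil))) 
(.lf (nat_lit 455202) (.g (nat_lit 3446) (.e (nat_lit 2663) (nat_lit 167) (.e (nat_lit 196666) (nat_lit 13) (.e (nat_lit 65610) (nat_lit 10) (.e (nat_lit 344117) (nat_lit 21) (.e (nat_lit 516145) (nat_lit 9) (.e (nat_lit 426354) (nat_lit 15) (.e (nat_lit 2022) (nat_lit 139) (.e (nat_lit 679967) (nat_lit 13) .nil)))))))) (.g (nat_lit 1) (.e (nat_lit 40507) (nat_lit 0) .nil) .nil)))) 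
(.nd (nat_lit 9) 
(.lf (nat_lit 454946) (.g (nat_lit 2076) (.e (nat_lit 2654) (nat_lit 167) (.e (nat_lit 196672) (nat_lit 15) (.e (nat_lit 81954) (nat_lit 23) (.e (nat_lit 98323) (nat_lit 17) (.e (nat_lit 7114) (nat_lit 381) (.e (nat_lit 229687) (nat_lit 246) .nil)))))) (.g (nat_lit 1) (.e (nat_lit 39823) (nat_lit 0) .nil) .nil))) 
(.lf (nat_lit 455458) (.g (nat_lit 3492) (.e (nat_lit 2663) (nat_lit 167) (.e (nat_lit 196666) (nat_lit 13) (.e (nat_lit 65630) (nat_lit 14) (.e (nat_lit 401425) (nat_lit 2) (.e (nat_lit 196669) (nat_lit 14) (.e (nat_lit 73781) (nat_lit 32) .nil)))))) (.g (nat_lit 1) (.e (nat_lit 40867) (nat_lit 0) .nil) .nil))))) (.nd (nat_lit 8) (.nd (nat_lit 9) 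
(.lf (nat_lit 454818) (.g (nat_lit 2206) (.e (nat_lit 2651) (nat_lit 166) (.e (nat_lit 188420) (nat_lit 0) (.e (nat_lit 2175) (nat_lit 143) (.e (nat_lit 712755) (nat_lit 30) (.e (nat_lit 450563) (nat_lit 0) (.e (nat_lit 7936) (nat_lit 306) .nil)))))) (.g (nat_lit 1) (.e (nat_lit 38607) (nat_lit 0) .nil) .nil))) 
(.lf (nat_lit 455330) (.g (nat_lit 4670) (.e (nat_lit 2663) (nat_lit 167) (.e (nat_lit 196666) (nat_lit 13) (.e (nat_lit 65610) (nat_lit 10) (.e (nat_lit 344117) (nat_lit 21) (.e (nat_lit 516160) (nat_lit 10) (.e (nat_lit 434208) (nat_lit 18) (.e (nat_lit 4754) (nat_lit 281) (.e (nat_lit 2489) (nat_lit 157) .nil)))))))) (.g (nat_lit 1) (.e (nat_lit 40635) (nat_lit 0) .nil) .nil)))) 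
(.nd (nat_lit 9) 
(.lf (nat_lit 455074) (.g (nat_lit 1740) (.e (nat_lit 2661) (nat_lit 167) (.e (nat_lit 196674) (nat_lit 15) (.e (nat_lit 81951) (nat_lit 22) (.e (nat_lit 90165) (nat_lit 12) (.e (nat_lit 164218) (nat_lit 179) .nil))))) (.g (nat_lit 0) (.e (nat_lit 40228) (nat_lit 0) .nil) .nil))) 
(.lf (nat_lit 455586) (.g (nat_lit 695) (.e (nat_lit 2663) (nat_lit 167) (.e (nat_lit 196674) (nat_lit 15) (.e (nat_lit 81923) (nat_lit 0) .nil))) (.g (nat_lit 0) (.e (nat_lit 41039) (nat_lit 0) .nil) .nil)))))) (.nd (nat_lit 7) (.nd (nat_lit 8) (.nd (nat_lit 9) 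
(.lf (nat_lit 454754) (.g (nat_lit 2039) (.e (nat_lit 2650) (nat_lit 166) (.e (nat_lit 188418) (nat_lit 0) (.e (nat_lit 2175) (nat_lit 143) (.e (nat_lit 712755) (nat_lit 30) (.e (nat_lit 450566) (nat_lit 0) (.e (nat_lit 5548) (nat_lit 306) .nil)))))) (.g (nat_lit 1) (.e (nat_lit 37543) (nat_lit 0) .nil) .nil))) 
(.lf (nat_lit 455266) (.g (nat_lit 6145) (.e (nat_lit 2663) (nat_lit 167) (.e (nat_lit 196666) (nat_lit 13) (.e (nat_lit 65610) (nat_lit 10) (.e (nat_lit 344117) (nat_lit 21) (.e (nat_lit 516151) (nat_lit 9) (.e (nat_lit 426034) (nat_lit 0) (.e (nat_lit 3366) (nat_lit 208) (.e (nat_lit 622627) (nat_lit 13) .nil)))))))) (.g (nat_lit 1) (.e (nat_lit 40571) (nat_lit 0) .nil) .nil)))) 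
(.nd (nat_lit 9) 
(.lf (nat_lit 455010) (.g (nat_lit 5042) (.e (nat_lit 2661) (nat_lit 167) (.e (nat_lit 196666) (nat_lit 13) (.e (nat_lit 65610) (nat_lit 10) (.e (nat_lit 344117) (nat_lit 21) (.e (nat_lit 516098) (nat_lit 0) (.e (nat_lit 7110) (nat_lit 380) (.e (nat_lit 164359) (nat_lit 246) .nil))))))) (.g (nat_lit 1) (.e (nat_lit 40145) (nat_lit 0) .nil) .nil))) 
(.lf (nat_lit 455522) (.g (nat_lit 670) (.e (nat_lit 2663) (nat_lit 167) (.e (nat_lit 196670) (nat_lit 14) (.e (nat_lit 73754) (nat_lit 8) .nil))) (.g (nat_lit 0) (.e (nat_lit 40944) (nat_lit 0) .nil) .nil))))) (.nd (nat_lit 8) (.nd (nat_lit 9) 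
(.lf (nat_lit 454882) (.g (nat_lit 2070) (.e (nat_lit 2653) (nat_lit 166) (.e (nat_lit 188418) (nat_lit 0) (.e (nat_lit 2058) (nat_lit 142) (.e (nat_lit 704598) (nat_lit 6) (.e (nat_lit 188455) (nat_lit 24) (.e (nat_lit 229666) (nat_lit 240) .nil)))))) (.g (nat_lit 1) (.e (nat_lit 39197) (nat_lit 0) .nil) .nil))) 
(.lf (nat_lit 455394) (.g (nat_lit 2925) (.e (nat_lit 2663) (nat_lit 167) (.e (nat_lit 196666) (nat_lit 13) (.e (nat_lit 65617) (nat_lit 10) (.e (nat_lit 344130) (nat_lit 26) (.e (nat_lit 557087) (nat_lit 11) (.e (nat_lit 24581) (nat_lit 0) (.e (nat_lit 6650) (nat_lit 357) .nil))))))) (.g (nat_lit 1) (.e (nat_lit 40783) (nat_lit 0) .nil) .nil)))) (.nd (nat_lit 9) 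
(.lf (nat_lit 455138) (.g (nat_lit 4073) (.e (nat_lit 2663) (nat_lit 167) (.e (nat_lit 196666) (nat_lit 13) (.e (nat_lit 65610) (nat_lit 10) (.e (nat_lit 344117) (nat_lit 21) (.e (nat_lit 516098) (nat_lit 0) (.e (nat_lit 7579) (nat_lit 405) (.e (nat_lit 57750) (nat_lit 201) .nil))))))) (.g (nat_lit 1) (.e (nat_lit 40443) (nat_lit 0) .nil) .nil))) 
(.lf (nat_lit 455650) (.g (nat_lit 2435) (.e (nat_lit 2664) (nat_lit 167) (.e (nat_lit 196666) (nat_lit 13) (.e (nat_lit 65610) (nat_lit 10) (.e (nat_lit 344117) (nat_lit 21) (.e (nat_lit 516106) (nat_lit 0) (.e (nat_lit 7008) (nat_lit 377) (.e (nat_lit 2423) (nat_lit 157) (.e (nat_lit 5717) (nat_lit 312) .nil)))))))) (.g (nat_lit 1) (.e (nat_lit 41230) (nat_lit 0) .nil) .nil)))))))) 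
(.nd (nat_lit 5) (.nd (nat_lit 6) (.nd (nat_lit 7) (.nd (nat_lit 8) (.nd (nat_lit 9) 
(.lf (nat_lit 454674) (.g (nat_lit 2432) (.e (nat_lit 2648) (nat_lit 166) (.e (nat_lit 188418) (nat_lit 0) (.e (nat_lit 2174) (nat_lit 143) (.e (nat_lit 712752) (nat_lit 29) (.e (nat_lit 442421) (nat_lit 21) (.e (nat_lit 164345) (nat_lit 240) .nil)))))) (.g (nat_lit 1) (.e (nat_lit 36419) (nat_lit 0) .nil) .nil))) 
(.lf (nat_lit 455186) (.g (nat_lit 4197) (.e (nat_lit 2663) (nat_lit 167) (.e (nat_lit 196666) (nat_lit 13) (.e (nat_lit 65610) (nat_lit 10) (.e (nat_lit 344117) (nat_lit 21) (.e (nat_lit 516144) (nat_lit 9) (.e (nat_lit 426364) (nat_lit 15) (.e (nat_lit 2015) (nat_lit 139) (.e (nat_lit 679968) (nat_lit 13) .nil)))))))) (.g (nat_lit 1) (.e (nat_lit 40491) (nat_lit 0) .nil) .nil)))) 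
(.nd (nat_lit 9) 
(.lf (nat_lit 454930) (.g (nat_lit 2272) (.e (nat_lit 2654) (nat_lit 167) (.e (nat_lit 196666) (nat_lit 13) (.e (nat_lit 65610) (nat_lit 10) (.e (nat_lit 344117) (nat_lit 21) (.e (nat_lit 516106) (nat_lit 0) (.e (nat_lit 7095) (nat_lit 380) (.e (nat_lit 164361) (nat_lit 246) .nil))))))) (.g (nat_lit 1) (.e (nat_lit 39800) (nat_lit 0) .nil) .nil))) 
(.lf (nat_lit 455442) (.g (nat_lit 4761) (.e (nat_lit 2663) (nat_lit 167) (.e (nat_lit 196666) (nat_lit 13) (.e (nat_lit 65624) (nat_lit 12) (.e (nat_lit 385074) (nat_lit 31) (.e (nat_lit 573488) (nat_lit 14) (.e (nat_lit 73782) (nat_lit 32) .nil)))))) (.g (nat_lit 1) (.e (nat_lit 40843) (nat_lit 0) .nil) .nil))))) (.nd (nat_lit 8) (.nd (nat_lit 9) 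
(.lf (nat_lit 454802) (.g (nat_lit 2544) (.e (nat_lit 2651) (nat_lit 166) (.e (nat_lit 188420) (nat_lit 0) (.e (nat_lit 2059) (nat_lit 142) (.e (nat_lit 704598) (nat_lit 6) (.e (nat_lit 188455) (nat_lit 24) (.e (nat_lit 229666) (nat_lit 240) .nil)))))) (.g (nat_lit 1) (.e (nat_lit 38588) (nat_lit 0) .nil) .nil))) 
(.lf (nat_lit 455314) (.g (nat_lit 5396) (.e (nat_lit 2663) (nat_lit 167) (.e (nat_lit 196666) (nat_lit 13) (.e (nat_lit 65610) (nat_lit 10) (.e (nat_lit 344117) (nat_lit 21) (.e (nat_lit 516151) (nat_lit 9) (.e (nat_lit 426047) (nat_lit 0) (.e (nat_lit 3369) (nat_lit 208) (.e (nat_lit 622626) (nat_lit 13) .nil)))))))) (.g (nat_lit 1) (.e (nat_lit 40619) (nat_lit 0) .nil) .nil)))) 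
(.nd (nat_lit 9) 
(.lf (nat_lit 455058) (.g (nat_lit 1381) (.e (nat_lit 2661) (nat_lit 167) (.e (nat_lit 196672) (nat_lit 15) (.e (nat_lit 81951) (nat_lit 22) (.e (nat_lit 90165) (nat_lit 12) .nil)))) (.g (nat_lit 0) (.e (nat_lit 40210) (nat_lit 0) .nil) .nil))) 
(.lf (nat_lit 455570) (.g (nat_lit 4005) (.e (nat_lit 2663) (nat_lit 167) (.e (nat_lit 196672) (nat_lit 15) (.e (nat_lit 81954) (nat_lit 23) (.e (nat_lit 98350) (nat_lit 24) (.e (nat_lit 409616) (nat_lit 10) (.e (nat_lit 7936) (nat_lit 312) .nil)))))) (.g (nat_lit 1) (.e (nat_lit 41015) (nat_lit 0) .nil) .nil)))))) (.nd (nat_lit 7) (.nd (nat_lit 8) (.nd (nat_lit 9) 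
(.lf (nat_lit 454738) (.g (nat_lit 1970) (.e (nat_lit 2649) (nat_lit 166) (.e (nat_lit 188434) (nat_lit 20) (.e (nat_lit 3390) (nat_lit 210) (.e (nat_lit 639007) (nat_lit 13) (.e (nat_lit 1586) (nat_lit 111) (.e (nat_lit 368384) (nat_lit 0) (.e (nat_lit 5170) (nat_lit 292) .nil))))))) (.g (nat_lit 1) (.e (nat_lit 37011) (nat_lit 0) .nil) .nil))) 
(.lf (nat_lit 455250) (.g (nat_lit 5391) (.e (nat_lit 2663) (nat_lit 167) (.e (nat_lit 196666) (nat_lit 13) (.e (nat_lit 65610) (nat_lit 10) (.e (nat_lit 344117) (nat_lit 21) (.e (nat_lit 516151) (nat_lit 9) (.e (nat_lit 426020) (nat_lit 0) (.e (nat_lit 3367) (nat_lit 208) (.e (nat_lit 622626) (nat_lit 13) .nil)))))))) (.g (nat_lit 1) (.e (nat_lit 40555) (nat_lit 0) .nil) .nil)))) 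
(.nd (nat_lit 9) 
(.lf (nat_lit 454994) (.g (nat_lit 2299) (.e (nat_lit 2657) (nat_lit 167) (.e (nat_lit 196672) (nat_lit 15) (.e (nat_lit 81954) (nat_lit 23) (.e (nat_lit 98350) (nat_lit 24) (.e (nat_lit 409618) (nat_lit 10) (.e (nat_lit 7936) (nat_lit 312) .nil)))))) (.g (nat_lit 1) (.e (nat_lit 40058) (nat_lit 0) .nil) .nil))) 
(.lf (nat_lit 455506) (.g (nat_lit 4960) (.e (nat_lit 2663) (nat_lit 167) (.e (nat_lit 196670) (nat_lit 14) (.e (nat_lit 73753) (nat_lit 8) (.e (nat_lit 557105) (nat_lit 14) (.e (nat_lit 180252) (nat_lit 10) (.e (nat_lit 573473) (nat_lit 12) (.e (nat_lit 57507) (nat_lit 39) (.e (nat_lit 647176) (nat_lit 0) .nil)))))))) (.g (nat_lit 1) (.e (nat_lit 40928) (nat_lit 0) .nil) .nil))))) 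
(.nd (nat_lit 8) (.nd (nat_lit 9) 
(.lf (nat_lit 454866) (.g (nat_lit 1982) (.e (nat_lit 2652) (nat_lit 166) (.e (nat_lit 188434) (nat_lit 20) (.e (nat_lit 3469) (nat_lit 217) (.e (nat_lit 696344) (nat_lit 8) (.e (nat_lit 172113) (nat_lit 10) (.e (nat_lit 434203) (nat_lit 18) (.e (nat_lit 6255) (nat_lit 337) .nil))))))) (.g (nat_lit 1) (.e (nat_lit 39069) (nat_lit 0) .nil) .nil))) 
(.lf (nat_lit 455378) (.g (nat_lit 1633) (.e (nat_lit 2663) (nat_lit 167) (.e (nat_lit 196666) (nat_lit 13) (.e (nat_lit 65617) (nat_lit 10) (.e (nat_lit 344130) (nat_lit 26) (.e (nat_lit 557066) (nat_lit 9) .nil))))) (.g (nat_lit 0) (.e (nat_lit 40765) (nat_lit 0) .nil) .nil)))) (.nd (nat_lit 9) 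
(.lf (nat_lit 455122) (.g (nat_lit 532) (.e (nat_lit 2663) (nat_lit 167) (.e (nat_lit 196666) (nat_lit 13) (.e (nat_lit 65610) (nat_lit 10) .nil))) (.g (nat_lit 0) (.e (nat_lit 40420) (nat_lit 0) .nil) .nil))) 
(.lf (nat_lit 455634) (.g (nat_lit 3974) (.e (nat_lit 2664) (nat_lit 167) (.e (nat_lit 196666) (nat_lit 13) (.e (nat_lit 65610) (nat_lit 10) (.e (nat_lit 344117) (nat_lit 21) (.e (nat_lit 516098) (nat_lit 0) (.e (nat_lit 7583) (nat_lit 405) (.e (nat_lit 57750) (nat_lit 201) .nil))))))) (.g (nat_lit 1) (.e (nat_lit 41214) (nat_lit 0) .nil) .nil))))))) 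
(.nd (nat_lit 6) (.nd (nat_lit 7) (.nd (nat_lit 8) (.nd (nat_lit 9) 
(.lf (nat_lit 454706) (.g (nat_lit 2676) (.e (nat_lit 2648) (nat_lit 166) (.e (nat_lit 188420) (nat_lit 0) (.e (nat_lit 2175) (nat_lit 143) (.e (nat_lit 712752) (nat_lit 29) (.e (nat_lit 442421) (nat_lit 21) (.e (nat_lit 164345) (nat_lit 240) .nil)))))) (.g (nat_lit 1) (.e (nat_lit 36453) (nat_lit 0) .nil) .nil))) 
(.lf (nat_lit 455218) (.g (nat_lit 3495) (.e (nat_lit 2663) (nat_lit 167) (.e (nat_lit 196666) (nat_lit 13) (.e (nat_lit 65610) (nat_lit 10) (.e (nat_lit 344117) (nat_lit 21) (.e (nat_lit 516145) (nat_lit 9) (.e (nat_lit 426360) (nat_lit 15) (.e (nat_lit 2022) (nat_lit 139) (.e (nat_lit 679967) (nat_lit 13) .nil)))))))) (.g (nat_lit 1) (.e (nat_lit 40523) (nat_lit 0) .nil) .nil)))) 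
(.nd (nat_lit 9) 
(.lf (nat_lit 454962) (.g (nat_lit 3161) (.e (nat_lit 2655) (nat_lit 167) (.e (nat_lit 196672) (nat_lit 15) (.e (nat_lit 81954) (nat_lit 23) (.e (nat_lit 98350) (nat_lit 24) (.e (nat_lit 409616) (nat_lit 10) .nil))))) (.g (nat_lit 0) (.e (nat_lit 39846) (nat_lit 0) .nil) .nil))) 
(.lf (nat_lit 455474) (.g (nat_lit 4022) (.e (nat_lit 2663) (nat_lit 167) (.e (nat_lit 196668) (nat_lit 14) (.e (nat_lit 73782) (nat_lit 32) (.e (nat_lit 2682) (nat_lit 168) (.e (nat_lit 204863) (nat_lit 27) (.e (nat_lit 344068) (nat_lit 0) .nil)))))) (.g (nat_lit 1) (.e (nat_lit 40895) (nat_lit 0) .nil) .nil))))) (.nd (nat_lit 8) (.nd (nat_lit 9) 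
(.lf (nat_lit 454834) (.g (nat_lit 3502) (.e (nat_lit 2651) (nat_lit 166) (.e (nat_lit 188439) (nat_lit 20) (.e (nat_lit 3406) (nat_lit 212) (.e (nat_lit 655380) (nat_lit 6) (.e (nat_lit 188453) (nat_lit 24) (.e (nat_lit 229663) (nat_lit 240) .nil)))))) (.g (nat_lit 1) (.e (nat_lit 38751) (nat_lit 0) .nil) .nil))) 
(.lf (nat_lit 455346) (.g (nat_lit 4226) (.e (nat_lit 2663) (nat_lit 167) (.e (nat_lit 196666) (nat_lit 13) (.e (nat_lit 65610) (nat_lit 10) (.e (nat_lit 344117) (nat_lit 21) (.e (nat_lit 516185) (nat_lit 16) (.e (nat_lit 491526) (nat_lit 0) (.e (nat_lit 6676) (nat_lit 357) .nil))))))) (.g (nat_lit 1) (.e (nat_lit 40672) (nat_lit 0) .nil) .nil)))) (.nd (nat_lit 9) 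
(.lf (nat_lit 455090) (.g (nat_lit 1936) (.e (nat_lit 2663) (nat_lit 167) (.e (nat_lit 196654) (nat_lit 11) (.e (nat_lit 16436) (nat_lit 9) (.e (nat_lit 426131) (nat_lit 3) (.e (nat_lit 204852) (nat_lit 26) .nil))))) (.g (nat_lit 0) (.e (nat_lit 40284) (nat_lit 0) .nil) .nil))) 
(.lf (nat_lit 455602) (.g (nat_lit 1264) (.e (nat_lit 2664) (nat_lit 167) (.e (nat_lit 196666) (nat_lit 13) (.e (nat_lit 65583) (nat_lit 7) (.e (nat_lit 319517) (nat_lit 12) .nil)))) (.g (nat_lit 0) (.e (nat_lit 41166) (nat_lit 0) .nil) .nil)))))) (.nd (nat_lit 7) (.nd (nat_lit 8) (.nd (nat_lit 9) 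
(.lf (nat_lit 454770) (.g (nat_lit 1795) (.e (nat_lit 2650) (nat_lit 166) (.e (nat_lit 188434) (nat_lit 20) (.e (nat_lit 3469) (nat_lit 217) (.e (nat_lit 696344) (nat_lit 8) (.e (nat_lit 172115) (nat_lit 10) (.e (nat_lit 434202) (nat_lit 18) (.e (nat_lit 6374) (nat_lit 337) .nil))))))) (.g (nat_lit 1) (.e (nat_lit 37659) (nat_lit 0) .nil) .nil))) 
(.lf (nat_lit 455282) (.g (nat_lit 5494) (.e (nat_lit 2663) (nat_lit 167) (.e (nat_lit 196666) (nat_lit 13) (.e (nat_lit 65610) (nat_lit 10) (.e (nat_lit 344117) (nat_lit 21) (.e (nat_lit 516151) (nat_lit 9) (.e (nat_lit 426040) (nat_lit 0) (.e (nat_lit 3370) (nat_lit 208) (.e (nat_lit 622626) (nat_lit 13) .nil)))))))) (.g (nat_lit 1) (.e (nat_lit 40587) (nat_lit 0) .nil) .nil)))) 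
(.nd (nat_lit 9) 
(.lf (nat_lit 455026) (.g (nat_lit 2749) (.e (nat_lit 2661) (nat_lit 167) (.e (nat_lit 196666) (nat_lit 13) (.e (nat_lit 65610) (nat_lit 10) (.e (nat_lit 344117) (nat_lit 21) (.e (nat_lit 524032) (nat_lit 0) (.e (nat_lit 7108) (nat_lit 380) (.e (nat_lit 164359) (nat_lit 246) .nil))))))) (.g (nat_lit 1) (.e (nat_lit 40161) (nat_lit 0) .nil) .nil))) 
(.lf (nat_lit 455538) (.g (nat_lit 4872) (.e (nat_lit 2663) (nat_lit 167) (.e (nat_lit 196670) (nat_lit 14) (.e (nat_lit 73754) (nat_lit 8) (.e (nat_lit 557105) (nat_lit 14) (.e (nat_lit 180252) (nat_lit 10) (.e (nat_lit 573474) (nat_lit 12) (.e (nat_lit 57506) (nat_lit 39) (.e (nat_lit 647176) (nat_lit 0) .nil)))))))) (.g (nat_lit 1) (.e (nat_lit 40960) (nat_lit 0) .nil) .nil))))) 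
(.nd (nat_lit 8) (.nd (nat_lit 9) 
(.lf (nat_lit 454898) (.g (nat_lit 1893) (.e (nat_lit 2653) (nat_lit 166) (.e (nat_lit 188440) (nat_lit 20) (.e (nat_lit 3406) (nat_lit 212) (.e (nat_lit 655380) (nat_lit 6) (.e (nat_lit 188453) (nat_lit 24) (.e (nat_lit 229666) (nat_lit 240) .nil)))))) (.g (nat_lit 1) (.e (nat_lit 39274) (nat_lit 0) .nil) .nil))) 
(.lf (nat_lit 455410) (.g (nat_lit 2267) (.e (nat_lit 2663) (nat_lit 167) (.e (nat_lit 196666) (nat_lit 13) (.e (nat_lit 65617) (nat_lit 10) (.e (nat_lit 344130) (nat_lit 26) (.e (nat_lit 557090) (nat_lit 12) (.e (nat_lit 163844) (nat_lit 0) (.e (nat_lit 6416) (nat_lit 341) (.e (nat_lit 163843) (nat_lit 0) (.e (nat_lit 7366) (nat_lit 388) .nil))))))))) (.g (nat_lit 1) (.e (nat_lit 40800) (nat_lit 0) .nil) .nil)))) 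
(.nd (nat_lit 9) 
(.lf (nat_lit 455154) (.g (nat_lit 3920) (.e (nat_lit 2663) (nat_lit 167) (.e (nat_lit 196666) (nat_lit 13) (.e (nat_lit 65610) (nat_lit 10) (.e (nat_lit 344117) (nat_lit 21) (.e (nat_lit 516106) (nat_lit 0) (.e (nat_lit 7095) (nat_lit 380) (.e (nat_lit 164366) (nat_lit 246) .nil))))))) (.g (nat_lit 1) (.e (nat_lit 40459) (nat_lit 0) .nil) .nil))) 
(.lf (nat_lit 455666) (.g (nat_lit 3795) (.e (nat_lit 2664) (nat_lit 167) (.e (nat_lit 196666) (nat_lit 13) (.e (nat_lit 65610) (nat_lit 10) (.e (nat_lit 344117) (nat_lit 21) (.e (nat_lit 516141) (nat_lit 8) (.e (nat_lit 417817) (nat_lit 10) (.e (nat_lit 5728) (nat_lit 312) .nil))))))) (.g (nat_lit 1) (.e (nat_lit 41246) (nat_lit 0) .nil) .nil))))))))) 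
(.nd (nat_lit 4) (.nd (nat_lit 5) (.nd (nat_lit 6) (.nd (nat_lit 7) (.nd (nat_lit 8) 
(.nd (nat_lit 9) 
(.lf (nat_lit 454666) (.g (nat_lit 1370) (.e (nat_lit 2648) (nat_lit 166) (.e (nat_lit 188418) (nat_lit 0) (.e (nat_lit 2058) (nat_lit 142) (.e (nat_lit 704598) (nat_lit 6) (.e (nat_lit 188444) (nat_lit 21) (.e (nat_lit 164346) (nat_lit 240) .nil)))))) (.g (nat_lit 1) (.e (nat_lit 36411) (nat_lit 0) .nil) .nil))) 
(.lf (nat_lit 455178) (.g (nat_lit 4413) (.e (nat_lit 2663) (nat_lit 167) (.e (nat_lit 196666) (nat_lit 13) (.e (nat_lit 65610) (nat_lit 10) (.e (nat_lit 344117) (nat_lit 21) (.e (nat_lit 516142) (nat_lit 8) (.e (nat_lit 417814) (nat_lit 10) (.e (nat_lit 5738) (nat_lit 312) .nil))))))) (.g (nat_lit 1) (.e (nat_lit 40483) (nat_lit 0) .nil) .nil)))) (.nd (nat_lit 9) 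
(.lf (nat_lit 454922) (.g (nat_lit 427) (.e (nat_lit 7936) (nat_lit 166) (.e (nat_lit 188440) (nat_lit 20) (.e (nat_lit 3390) (nat_lit 210) .nil))) (.g (nat_lit 0) (.e (nat_lit 39589) (nat_lit 0) .nil) .nil))) 
(.lf (nat_lit 455434) (.g (nat_lit 3252) (.e (nat_lit 2663) (nat_lit 167) (.e (nat_lit 196666) (nat_lit 13) (.e (nat_lit 65622) (nat_lit 12) (.e (nat_lit 385074) (nat_lit 31) (.e (nat_lit 573487) (nat_lit 14) (.e (nat_lit 73781) (nat_lit 32) .nil)))))) (.g (nat_lit 1) (.e (nat_lit 40828) (nat_lit 0) .nil) .nil))))) (.nd (nat_lit 8) (.nd (nat_lit 9) 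
(.lf (nat_lit 454794) (.g (nat_lit 2582) (.e (nat_lit 2651) (nat_lit 166) (.e (nat_lit 188420) (nat_lit 0) (.e (nat_lit 2058) (nat_lit 142) (.e (nat_lit 704598) (nat_lit 6) (.e (nat_lit 188453) (nat_lit 24) (.e (nat_lit 229666) (nat_lit 240) .nil)))))) (.g (nat_lit 1) (.e (nat_lit 38580) (nat_lit 0) .nil) .nil))) 
(.lf (nat_lit 455306) (.g (nat_lit 3560) (.e (nat_lit 2663) (nat_lit 167) (.e (nat_lit 196666) (nat_lit 13) (.e (nat_lit 65610) (nat_lit 10) (.e (nat_lit 344117) (nat_lit 21) (.e (nat_lit 516151) (nat_lit 9) (.e (nat_lit 426050) (nat_lit 0) (.e (nat_lit 2515) (nat_lit 157) (.e (nat_lit 4823) (nat_lit 281) (.e (nat_lit 2477) (nat_lit 157) .nil))))))))) (.g (nat_lit 1) (.e (nat_lit 40611) (nat_lit 0) .nil) .nil)))) 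
(.nd (nat_lit 9) 
(.lf (nat_lit 455050) (.g (nat_lit 2698) (.e (nat_lit 2661) (nat_lit 167) (.e (nat_lit 196666) (nat_lit 13) (.e (nat_lit 65617) (nat_lit 10) (.e (nat_lit 344133) (nat_lit 26) (.e (nat_lit 557068) (nat_lit 9) (.e (nat_lit 22) (nat_lit 0) (.e (nat_lit 6234) (nat_lit 335) (.e (nat_lit 164359) (nat_lit 246) .nil)))))))) (.g (nat_lit 1) (.e (nat_lit 40189) (nat_lit 0) .nil) .nil))) 
(.lf (nat_lit 455562) (.g (nat_lit 2922) (.e (nat_lit 2663) (nat_lit 167) (.e (nat_lit 196672) (nat_lit 15) (.e (nat_lit 81924) (nat_lit 0) (.e (nat_lit 3305) (nat_lit 202) (.e (nat_lit 573487) (nat_lit 14) (.e (nat_lit 73781) (nat_lit 32) .nil)))))) (.g (nat_lit 1) (.e (nat_lit 40989) (nat_lit 0) .nil) .nil)))))) (.nd (nat_lit 7) (.nd (nat_lit 8) (.nd (nat_lit 9) 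
(.lf (nat_lit 454730) (.g (nat_lit 3367) (.e (nat_lit 2648) (nat_lit 166) (.e (nat_lit 188440) (nat_lit 20) (.e (nat_lit 3409) (nat_lit 212) (.e (nat_lit 655378) (nat_lit 4) (.e (nat_lit 172106) (nat_lit 10) (.e (nat_lit 434209) (nat_lit 18) (.e (nat_lit 5546) (nat_lit 306) .nil))))))) (.g (nat_lit 1) (.e (nat_lit 36655) (nat_lit 0) .nil) .nil))) 
(.lf (nat_lit 455242) (.g (nat_lit 5705) (.e (nat_lit 2663) (nat_lit 167) (.e (nat_lit 196666) (nat_lit 13) (.e (nat_lit 65610) (nat_lit 10) (.e (nat_lit 344117) (nat_lit 21) (.e (nat_lit 516151) (nat_lit 9) (.e (nat_lit 426017) (nat_lit 0) (.e (nat_lit 3367) (nat_lit 208) (.e (nat_lit 622626) (nat_lit 13) .nil)))))))) (.g (nat_lit 1) (.e (nat_lit 40547) (nat_lit 0) .nil) .nil)))) 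
(.nd (nat_lit 9) 
(.lf (nat_lit 454986) (.g (nat_lit 4203) (.e (nat_lit 2657) (nat_lit 167) (.e (nat_lit 196670) (nat_lit 14) (.e (nat_lit 73754) (nat_lit 8) (.e (nat_lit 557105) (nat_lit 14) (.e (nat_lit 180252) (nat_lit 10) (.e (nat_lit 573475) (nat_lit 12) (.e (nat_lit 57507) (nat_lit 39) (.e (nat_lit 655104) (nat_lit 0) .nil)))))))) (.g (nat_lit 1) (.e (nat_lit 40003) (nat_lit 0) .nil) .nil))) 
(.lf (nat_lit 455498) (.g (nat_lit 3488) (.e (nat_lit 2663) (nat_lit 167) (.e (nat_lit 196670) (nat_lit 14) (.e (nat_lit 73753) (nat_lit 8) (.e (nat_lit 557103) (nat_lit 14) (.e (nat_lit 180250) (nat_lit 10) (.e (nat_lit 573475) (nat_lit 12) (.e (nat_lit 57508) (nat_lit 39) (.e (nat_lit 647176) (nat_lit 0) .nil)))))))) (.g (nat_lit 1) (.e (nat_lit 40920) (nat_lit 0) .nil) .nil))))) 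
(.nd (nat_lit 8) (.nd (nat_lit 9) 
(.lf (nat_lit 454858) (.g (nat_lit 2461) (.e (nat_lit 2651) (nat_lit 166) (.e (nat_lit 188440) (nat_lit 20) (.e (nat_lit 3469) (nat_lit 217) (.e (nat_lit 696344) (nat_lit 8) (.e (nat_lit 172113) (nat_lit 10) (.e (nat_lit 434203) (nat_lit 18) (.e (nat_lit 6255) (nat_lit 337) .nil))))))) (.g (nat_lit 1) (.e (nat_lit 38836) (nat_lit 0) .nil) .nil))) 
(.lf (nat_lit 455370) (.g (nat_lit 3687) (.e (nat_lit 2663) (nat_lit 167) (.e (nat_lit 196666) (nat_lit 13) (.e (nat_lit 65617) (nat_lit 10) (.e (nat_lit 344117) (nat_lit 21) (.e (nat_lit 516139) (nat_lit 7) (.e (nat_lit 409616) (nat_lit 10) (.e (nat_lit 5710) (nat_lit 312) .nil))))))) (.g (nat_lit 1) (.e (nat_lit 40747) (nat_lit 0) .nil) .nil)))) (.nd (nat_lit 9) 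
(.lf (nat_lit 455114) (.g (nat_lit 3528) (.e (nat_lit 2663) (nat_lit 167) (.e (nat_lit 196654) (nat_lit 11) (.e (nat_lit 16436) (nat_lit 9) (.e (nat_lit 426131) (nat_lit 3) (.e (nat_lit 204880) (nat_lit 32) (.e (nat_lit 385096) (nat_lit 49) (.e (nat_lit 778399) (nat_lit 9) .nil))))))) (.g (nat_lit 1) (.e (nat_lit 40311) (nat_lit 0) .nil) .nil))) 
(.lf (nat_lit 455626) (.g (nat_lit 3220) (.e (nat_lit 2664) (nat_lit 167) (.e (nat_lit 196666) (nat_lit 13) (.e (nat_lit 65610) (nat_lit 10) (.e (nat_lit 344117) (nat_lit 21) (.e (nat_lit 516098) (nat_lit 0) (.e (nat_lit 7073) (nat_lit 377) (.e (nat_lit 2416) (nat_lit 157) (.e (nat_lit 5710) (nat_lit 312) .nil)))))))) (.g (nat_lit 1) (.e (nat_lit 41206) (nat_lit 0) .nil) .nil))))))) 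
(.nd (nat_lit 6) (.nd (nat_lit 7) (.nd (nat_lit 8) (.nd (nat_lit 9) 
(.lf (nat_lit 454698) (.g (nat_lit 1439) (.e (nat_lit 2648) (nat_lit 166) (.e (nat_lit 188420) (nat_lit 0) (.e (nat_lit 2059) (nat_lit 142) (.e (nat_lit 704599) (nat_lit 6) (.e (nat_lit 188446) (nat_lit 21) (.e (nat_lit 164346) (nat_lit 240) .nil)))))) (.g (nat_lit 1) (.e (nat_lit 36445) (nat_lit 0) .nil) .nil))) 
(.lf (nat_lit 455210) (.g (nat_lit 3348) (.e (nat_lit 2663) (nat_lit 167) (.e (nat_lit 196666) (nat_lit 13) (.e (nat_lit 65610) (nat_lit 10) (.e (nat_lit 344117) (nat_lit 21) (.e (nat_lit 516145) (nat_lit 9) (.e (nat_lit 426360) (nat_lit 15) (.e (nat_lit 2012) (nat_lit 139) (.e (nat_lit 679968) (nat_lit 13) .nil)))))))) (.g (nat_lit 1) (.e (nat_lit 40515) (nat_lit 0) .nil) .nil)))) 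
(.nd (nat_lit 9) 
(.lf (nat_lit 454954) (.g (nat_lit 1518) (.e (nat_lit 2654) (nat_lit 167) (.e (nat_lit 196672) (nat_lit 15) (.e (nat_lit 81954) (nat_lit 23) (.e (nat_lit 98352) (nat_lit 25) (.e (nat_lit 417817) (nat_lit 10) (.e (nat_lit 5666) (nat_lit 312) .nil)))))) (.g (nat_lit 1) (.e (nat_lit 39831) (nat_lit 0) .nil) .nil))) 
(.lf (nat_lit 455466) (.g (nat_lit 2793) (.e (nat_lit 2663) (nat_lit 167) (.e (nat_lit 196667) (nat_lit 14) (.e (nat_lit 73755) (nat_lit 8) (.e (nat_lit 557105) (nat_lit 14) (.e (nat_lit 180252) (nat_lit 10) (.e (nat_lit 573474) (nat_lit 12) (.e (nat_lit 57508) (nat_lit 39) (.e (nat_lit 647176) (nat_lit 0) .nil)))))))) (.g (nat_lit 1) (.e (nat_lit 40881) (nat_lit 0) .nil) .nil))))) 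
(.nd (nat_lit 8) (.nd (nat_lit 9) 
(.lf (nat_lit 454826) (.g (nat_lit 1642) (.e (nat_lit 2651) (nat_lit 166) (.e (nat_lit 188431) (nat_lit 20) (.e (nat_lit 3397) (nat_lit 211) (.e (nat_lit 647185) (nat_lit 6) (.e (nat_lit 188454) (nat_lit 24) (.e (nat_lit 229665) (nat_lit 240) .nil)))))) (.g (nat_lit 1) (.e (nat_lit 38689) (nat_lit 0) .nil) .nil))) 
(.lf (nat_lit 455338) (.g (nat_lit 3438) (.e (nat_lit 2663) (nat_lit 167) (.e (nat_lit 196666) (nat_lit 13) (.e (nat_lit 65610) (nat_lit 10) (.e (nat_lit 344117) (nat_lit 21) (.e (nat_lit 516160) (nat_lit 10) (.e (nat_lit 434262) (nat_lit 34) (.e (nat_lit 622627) (nat_lit 13) .nil))))))) (.g (nat_lit 1) (.e (nat_lit 40643) (nat_lit 0) .nil) .nil)))) (.nd (nat_lit 9) 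
(.lf (nat_lit 455082) (.g (nat_lit 1922) (.e (nat_lit 2661) (nat_lit 167) (.e (nat_lit 196674) (nat_lit 15) (.e (nat_lit 81956) (nat_lit 23) (.e (nat_lit 98353) (nat_lit 25) .nil)))) (.g (nat_lit 0) (.e (nat_lit 40236) (nat_lit 0) .nil) .nil))) 
(.lf (nat_lit 455594) (.g (nat_lit 2599) (.e (nat_lit 2664) (nat_lit 167) (.e (nat_lit 196630) (nat_lit 9) (.e (nat_lit 1499) (nat_lit 108) (.e (nat_lit 336204) (nat_lit 12) (.e (nat_lit 385074) (nat_lit 31) (.e (nat_lit 573489) (nat_lit 14) (.e (nat_lit 73782) (nat_lit 32) .nil))))))) (.g (nat_lit 1) (.e (nat_lit 41154) (nat_lit 0) .nil) .nil)))))) 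
(.nd (nat_lit 7) (.nd (nat_lit 8) (.nd (nat_lit 9) 
(.lf (nat_lit 454762) (.g (nat_lit 1815) (.e (nat_lit 2650) (nat_lit 166) (.e (nat_lit 188434) (nat_lit 20) (.e (nat_lit 3289) (nat_lit 201) (.e (nat_lit 565269) (nat_lit 6) (.e (nat_lit 81959) (nat_lit 24) (.e (nat_lit 130816) (nat_lit 164) .nil)))))) (.g (nat_lit 1) (.e (nat_lit 37576) (nat_lit 0) .nil) .nil))) 
(.lf (nat_lit 455274) (.g (nat_lit 5440) (.e (nat_lit 2663) (nat_lit 167) (.e (nat_lit 196666) (nat_lit 13) (.e (nat_lit 65610) (nat_lit 10) (.e (nat_lit 344117) (nat_lit 21) (.e (nat_lit 516151) (nat_lit 9) (.e (nat_lit 426038) (nat_lit 0) (.e (nat_lit 3366) (nat_lit 208) (.e (nat_lit 622620) (nat_lit 13) .nil)))))))) (.g (nat_lit 1) (.e (nat_lit 40579) (nat_lit 0) .nil) .nil)))) 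
(.nd (nat_lit 9) 
(.lf (nat_lit 455018) (.g (nat_lit 2500) (.e (nat_lit 2661) (nat_lit 167) (.e (nat_lit 196666) (nat_lit 13) (.e (nat_lit 65610) (nat_lit 10) (.e (nat_lit 344117) (nat_lit 21) (.e (nat_lit 516102) (nat_lit 0) (.e (nat_lit 7116) (nat_lit 381) (.e (nat_lit 229686) (nat_lit 246) .nil))))))) (.g (nat_lit 1) (.e (nat_lit 40153) (nat_lit 0) .nil) .nil))) 
(.lf (nat_lit 455530) (.g (nat_lit 2819) (.e (nat_lit 2663) (nat_lit 167) (.e (nat_lit 196670) (nat_lit 14) (.e (nat_lit 73754) (nat_lit 8) (.e (nat_lit 557105) (nat_lit 14) (.e (nat_lit 180252) (nat_lit 10) (.e (nat_lit 573473) (nat_lit 12) (.e (nat_lit 57508) (nat_lit 39) (.e (nat_lit 647168) (nat_lit 0) .nil)))))))) (.g (nat_lit 1) (.e (nat_lit 40952) (nat_lit 0) .nil) .nil))))) 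
(.nd (nat_lit 8) (.nd (nat_lit 9) 
(.lf (nat_lit 454890) (.g (nat_lit 2720) (.e (nat_lit 2653) (nat_lit 166) (.e (nat_lit 188418) (nat_lit 0) (.e (nat_lit 2174) (nat_lit 143) (.e (nat_lit 712752) (nat_lit 29) (.e (nat_lit 442430) (nat_lit 24) (.e (nat_lit 229665) (nat_lit 240) .nil)))))) (.g (nat_lit 1) (.e (nat_lit 39206) (nat_lit 0) .nil) .nil))) 
(.lf (nat_lit 455402) (.g (nat_lit 3094) (.e (nat_lit 2663) (nat_lit 167) (.e (nat_lit 196666) (nat_lit 13) (.e (nat_lit 65617) (nat_lit 10) (.e (nat_lit 344130) (nat_lit 26) (.e (nat_lit 557087) (nat_lit 11) (.e (nat_lit 24588) (nat_lit 0) (.e (nat_lit 6648) (nat_lit 357) .nil))))))) (.g (nat_lit 1) (.e (nat_lit 40792) (nat_lit 0) .nil) .nil)))) (.nd (nat_lit 9) 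
(.lf (nat_lit 455146) (.g (nat_lit 3930) (.e (nat_lit 2663) (nat_lit 167) (.e (nat_lit 196666) (nat_lit 13) (.e (nat_lit 65610) (nat_lit 10) (.e (nat_lit 344117) (nat_lit 21) (.e (nat_lit 516099) (nat_lit 0) .nil))))) (.g (nat_lit 0) (.e (nat_lit 40451) (nat_lit 0) .nil) .nil))) 
(.lf (nat_lit 455658) (.g (nat_lit 4103) (.e (nat_lit 2664) (nat_lit 167) (.e (nat_lit 196666) (nat_lit 13) (.e (nat_lit 65610) (nat_lit 10) (.e (nat_lit 344117) (nat_lit 21) (.e (nat_lit 516138) (nat_lit 7) (.e (nat_lit 409617) (nat_lit 10) (.e (nat_lit 5710) (nat_lit 312) .nil))))))) (.g (nat_lit 1) (.e (nat_lit 41238) (nat_lit 0) .nil) .nil)))))))) 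
(.nd (nat_lit 5) (.nd (nat_lit 6) (.nd (nat_lit 7) (.nd (nat_lit 8) (.nd (nat_lit 9) 
(.lf (nat_lit 454682) (.g (nat_lit 1350) (.e (nat_lit 2648) (nat_lit 166) (.e (nat_lit 188418) (nat_lit 0) (.e (nat_lit 2175) (nat_lit 143) (.e (nat_lit 712755) (nat_lit 30) (.e (nat_lit 458496) (nat_lit 0) .nil))))) (.g (nat_lit 0) (.e (nat_lit 36427) (nat_lit 0) .nil) .nil))) 
(.lf (nat_lit 455194) (.g (nat_lit 3467) (.e (nat_lit 2663) (nat_lit 167) (.e (nat_lit 196666) (nat_lit 13) (.e (nat_lit 65610) (nat_lit 10) (.e (nat_lit 344117) (nat_lit 21) (.e (nat_lit 516145) (nat_lit 9) (.e (nat_lit 426093) (nat_lit 0) (.e (nat_lit 3369) (nat_lit 208) (.e (nat_lit 622625) (nat_lit 13) .nil)))))))) (.g (nat_lit 1) (.e (nat_lit 40499) (nat_lit 0) .nil) .nil)))) 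
(.nd (nat_lit 9) 
(.lf (nat_lit 454938) (.g (nat_lit 2458) (.e (nat_lit 2654) (nat_lit 167) (.e (nat_lit 196666) (nat_lit 13) (.e (nat_lit 65617) (nat_lit 10) (.e (nat_lit 344132) (nat_lit 26) (.e (nat_lit 557085) (nat_lit 11) .nil))))) (.g (nat_lit 0) (.e (nat_lit 39809) (nat_lit 0) .nil) .nil))) 
(.lf (nat_lit 455450) (.g (nat_lit 3734) (.e (nat_lit 2663) (nat_lit 167) (.e (nat_lit 196666) (nat_lit 13) (.e (nat_lit 65628) (nat_lit 14) (.e (nat_lit 401428) (nat_lit 3) (.e (nat_lit 204863) (nat_lit 27) (.e (nat_lit 344065) (nat_lit 0) .nil)))))) (.g (nat_lit 1) (.e (nat_lit 40856) (nat_lit 0) .nil) .nil))))) (.nd (nat_lit 8) (.nd (nat_lit 9) 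
(.lf (nat_lit 454810) (.g (nat_lit 2528) (.e (nat_lit 2651) (nat_lit 166) (.e (nat_lit 188420) (nat_lit 0) (.e (nat_lit 2174) (nat_lit 143) (.e (nat_lit 712755) (nat_lit 30) (.e (nat_lit 450563) (nat_lit 0) (.e (nat_lit 7936) (nat_lit 306) .nil)))))) (.g (nat_lit 1) (.e (nat_lit 38599) (nat_lit 0) .nil) .nil))) 
(.lf (nat_lit 455322) (.g (nat_lit 3751) (.e (nat_lit 2663) (nat_lit 167) (.e (nat_lit 196666) (nat_lit 13) (.e (nat_lit 65610) (nat_lit 10) (.e (nat_lit 344117) (nat_lit 21) (.e (nat_lit 516159) (nat_lit 10) (.e (nat_lit 434202) (nat_lit 18) (.e (nat_lit 4751) (nat_lit 281) (.e (nat_lit 2518) (nat_lit 157) .nil)))))))) (.g (nat_lit 1) (.e (nat_lit 40627) (nat_lit 0) .nil) .nil)))) 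
(.nd (nat_lit 9) 
(.lf (nat_lit 455066) (.g (nat_lit 1883) (.e (nat_lit 2661) (nat_lit 167) (.e (nat_lit 196673) (nat_lit 15) (.e (nat_lit 81956) (nat_lit 23) (.e (nat_lit 98320) (nat_lit 17) .nil)))) (.g (nat_lit 0) (.e (nat_lit 40219) (nat_lit 0) .nil) .nil))) 
(.lf (nat_lit 455578) (.g (nat_lit 2430) (.e (nat_lit 2663) (nat_lit 167) (.e (nat_lit 196672) (nat_lit 15) (.e (nat_lit 81956) (nat_lit 23) (.e (nat_lit 98389) (nat_lit 33) .nil)))) (.g (nat_lit 0) (.e (nat_lit 41029) (nat_lit 0) .nil) .nil)))))) (.nd (nat_lit 7) (.nd (nat_lit 8) (.nd (nat_lit 9) 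
(.lf (nat_lit 454746) (.g (nat_lit 386) (.e (nat_lit 2649) (nat_lit 166) (.e (nat_lit 188434) (nat_lit 20) (.e (nat_lit 3409) (nat_lit 212) .nil))) (.g (nat_lit 0) (.e (nat_lit 37071) (nat_lit 0) .nil) .nil))) 
(.lf (nat_lit 455258) (.g (nat_lit 4035) (.e (nat_lit 2663) (nat_lit 167) (.e (nat_lit 196666) (nat_lit 13) (.e (nat_lit 65610) (nat_lit 10) (.e (nat_lit 344117) (nat_lit 21) (.e (nat_lit 516151) (nat_lit 9) (.e (nat_lit 426022) (nat_lit 0) (.e (nat_lit 3363) (nat_lit 208) (.e (nat_lit 622620) (nat_lit 13) .nil)))))))) (.g (nat_lit 1) (.e (nat_lit 40563) (nat_lit 0) .nil) .nil)))) 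
(.nd (nat_lit 9) 
(.lf (nat_lit 455002) (.g (nat_lit 2373) (.e (nat_lit 2659) (nat_lit 167) (.e (nat_lit 196670) (nat_lit 14) (.e (nat_lit 73753) (nat_lit 8) (.e (nat_lit 557098) (nat_lit 13) (.e (nat_lit 172133) (nat_lit 15) .nil))))) (.g (nat_lit 0) (.e (nat_lit 40091) (nat_lit 0) .nil) .nil))) 
(.lf (nat_lit 455514) (.g (nat_lit 2880) (.e (nat_lit 2663) (nat_lit 167) (.e (nat_lit 196670) (nat_lit 14) (.e (nat_lit 73753) (nat_lit 8) (.e (nat_lit 557105) (nat_lit 14) (.e (nat_lit 180252) (nat_lit 10) (.e (nat_lit 573474) (nat_lit 12) (.e (nat_lit 57508) (nat_lit 39) (.e (nat_lit 647171) (nat_lit 0) .nil)))))))) (.g (nat_lit 1) (.e (nat_lit 40936) (nat_lit 0) .nil) .nil))))) 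
(.nd (nat_lit 8) (.nd (nat_lit 9) 
(.lf (nat_lit 454874) (.g (nat_lit 2850) (.e (nat_lit 2653) (nat_lit 166) (.e (nat_lit 188416) (nat_lit 0) (.e (nat_lit 2147) (nat_lit 142) (.e (nat_lit 704597) (nat_lit 6) (.e (nat_lit 188453) (nat_lit 24) (.e (nat_lit 229663) (nat_lit 240) .nil)))))) (.g (nat_lit 1) (.e (nat_lit 39188) (nat_lit 0) .nil) .nil))) 
(.lf (nat_lit 455386) (.g (nat_lit 3944) (.e (nat_lit 2663) (nat_lit 167) (.e (nat_lit 196666) (nat_lit 13) (.e (nat_lit 65617) (nat_lit 10) (.e (nat_lit 344130) (nat_lit 26) (.e (nat_lit 557087) (nat_lit 11) (.e (nat_lit 24576) (nat_lit 0) (.e (nat_lit 6691) (nat_lit 357) .nil))))))) (.g (nat_lit 1) (.e (nat_lit 40775) (nat_lit 0) .nil) .nil)))) (.nd (nat_lit 9) 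
(.lf (nat_lit 455130) (.g (nat_lit 4490) (.e (nat_lit 2663) (nat_lit 167) (.e (nat_lit 196666) (nat_lit 13) (.e (nat_lit 65610) (nat_lit 10) (.e (nat_lit 344117) (nat_lit 21) (.e (nat_lit 516097) (nat_lit 0) (.e (nat_lit 7581) (nat_lit 405) (.e (nat_lit 57746) (nat_lit 201) .nil))))))) (.g (nat_lit 1) (.e (nat_lit 40435) (nat_lit 0) .nil) .nil))) 
(.lf (nat_lit 455642) (.g (nat_lit 3609) (.e (nat_lit 2664) (nat_lit 167) (.e (nat_lit 196666) (nat_lit 13) (.e (nat_lit 65610) (nat_lit 10) (.e (nat_lit 344117) (nat_lit 21) (.e (nat_lit 516106) (nat_lit 0) (.e (nat_lit 6986) (nat_lit 377) (.e (nat_lit 2403) (nat_lit 157) (.e (nat_lit 5688) (nat_lit 312) .nil)))))))) (.g (nat_lit 1) (.e (nat_lit 41222) (nat_lit 0) .nil) .nil))))))) 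
(.nd (nat_lit 6) (.nd (nat_lit 7) (.nd (nat_lit 8) (.nd (nat_lit 9) 
(.lf (nat_lit 454714) (.g (nat_lit 3158) (.e (nat_lit 2648) (nat_lit 166) (.e (nat_lit 188431) (nat_lit 20) (.e (nat_lit 3397) (nat_lit 211) (.e (nat_lit 647183) (nat_lit 4) (.e (nat_lit 172106) (nat_lit 10) (.e (nat_lit 434209) (nat_lit 18) (.e (nat_lit 5547) (nat_lit 306) .nil))))))) (.g (nat_lit 1) (.e (nat_lit 36493) (nat_lit 0) .nil) .nil))) 
(.lf (nat_lit 455226) (.g (nat_lit 4901) (.e (nat_lit 2663) (nat_lit 167) (.e (nat_lit 196666) (nat_lit 13) (.e (nat_lit 65610) (nat_lit 10) (.e (nat_lit 344117) (nat_lit 21) (.e (nat_lit 516145) (nat_lit 9) (.e (nat_lit 426364) (nat_lit 15) (.e (nat_lit 2015) (nat_lit 139) (.e (nat_lit 679968) (nat_lit 13) .nil)))))))) (.g (nat_lit 1) (.e (nat_lit 40531) (nat_lit 0) .nil) .nil)))) 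
(.nd (nat_lit 9) 
(.lf (nat_lit 454970) (.g (nat_lit 3412) (.e (nat_lit 2656) (nat_lit 167) (.e (nat_lit 196672) (nat_lit 15) (.e (nat_lit 81954) (nat_lit 23) (.e (nat_lit 98350) (nat_lit 24) (.e (nat_lit 409617) (nat_lit 10) (.e (nat_lit 7936) (nat_lit 312) .nil)))))) (.g (nat_lit 1) (.e (nat_lit 39924) (nat_lit 0) .nil) .nil))) 
(.lf (nat_lit 455482) (.g (nat_lit 2522) (.e (nat_lit 2663) (nat_lit 167) (.e (nat_lit 196670) (nat_lit 14) (.e (nat_lit 73746) (nat_lit 3) (.e (nat_lit 516129) (nat_lit 3) (.e (nat_lit 221210) (nat_lit 22) (.e (nat_lit 196658) (nat_lit 12) (.e (nat_lit 57508) (nat_lit 39) (.e (nat_lit 647175) (nat_lit 0) .nil)))))))) (.g (nat_lit 1) (.e (nat_lit 40904) (nat_lit 0) .nil) .nil))))) 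
(.nd (nat_lit 8) (.nd (nat_lit 9) 
(.lf (nat_lit 454842) (.g (nat_lit 2630) (.e (nat_lit 2651) (nat_lit 166) (.e (nat_lit 188439) (nat_lit 20) (.e (nat_lit 3408) (nat_lit 212) (.e (nat_lit 655380) (nat_lit 6) (.e (nat_lit 188453) (nat_lit 24) (.e (nat_lit 229664) (nat_lit 240) .nil)))))) (.g (nat_lit 1) (.e (nat_lit 38776) (nat_lit 0) .nil) .nil))) 
(.lf (nat_lit 455354) (.g (nat_lit 2292) (.e (nat_lit 2663) (nat_lit 167) (.e (nat_lit 196666) (nat_lit 13) (.e (nat_lit 65610) (nat_lit 10) (.e (nat_lit 344129) (nat_lit 26) (.e (nat_lit 557074) (nat_lit 9) .nil))))) (.g (nat_lit 0) (.e (nat_lit 40692) (nat_lit 0) .nil) .nil)))) (.nd (nat_lit 9) 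
(.lf (nat_lit 455098) (.g (nat_lit 1939) (.e (nat_lit 2663) (nat_lit 167) (.e (nat_lit 196654) (nat_lit 11) (.e (nat_lit 16436) (nat_lit 9) (.e (nat_lit 426131) (nat_lit 3) (.e (nat_lit 204880) (nat_lit 32) .nil))))) (.g (nat_lit 0) (.e (nat_lit 40295) (nat_lit 0) .nil) .nil))) 
(.lf (nat_lit 455610) (.g (nat_lit 985) (.e (nat_lit 2664) (nat_lit 167) (.e (nat_lit 196666) (nat_lit 13) (.e (nat_lit 65587) (nat_lit 8) (.e (nat_lit 327711) (nat_lit 12) .nil)))) (.g (nat_lit 0) (.e (nat_lit 41174) (nat_lit 0) .nil) .nil)))))) (.nd (nat_lit 7) (.nd (nat_lit 8) (.nd (nat_lit 9) 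
(.lf (nat_lit 454778) (.g (nat_lit 2042) (.e (nat_lit 2650) (nat_lit 166) (.e (nat_lit 188441) (nat_lit 20) (.e (nat_lit 3409) (nat_lit 212) (.e (nat_lit 655380) (nat_lit 6) (.e (nat_lit 188445) (nat_lit 21) (.e (nat_lit 164347) (nat_lit 240) .nil)))))) (.g (nat_lit 1) (.e (nat_lit 37707) (nat_lit 0) .nil) .nil))) 
(.lf (nat_lit 455290) (.g (nat_lit 4371) (.e (nat_lit 2663) (nat_lit 167) (.e (nat_lit 196666) (nat_lit 13) (.e (nat_lit 65610) (nat_lit 10) (.e (nat_lit 344117) (nat_lit 21) (.e (nat_lit 516151) (nat_lit 9) (.e (nat_lit 426042) (nat_lit 0) (.e (nat_lit 2427) (nat_lit 157) (.e (nat_lit 4778) (nat_lit 281) (.e (nat_lit 2477) (nat_lit 157) .nil))))))))) (.g (nat_lit 1) (.e (nat_lit 40595) (nat_lit 0) .nil) .nil)))) 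
(.nd (nat_lit 9) 
(.lf (nat_lit 455034) (.g (nat_lit 3450) (.e (nat_lit 2661) (nat_lit 167) (.e (nat_lit 196666) (nat_lit 13) (.e (nat_lit 65610) (nat_lit 10) (.e (nat_lit 344117) (nat_lit 21) (.e (nat_lit 516142) (nat_lit 8) (.e (nat_lit 417817) (nat_lit 10) (.e (nat_lit 5657) (nat_lit 312) .nil))))))) (.g (nat_lit 1) (.e (nat_lit 40169) (nat_lit 0) .nil) .nil))) 
(.lf (nat_lit 455546) (.g (nat_lit 2388) (.e (nat_lit 2663) (nat_lit 167) (.e (nat_lit 196670) (nat_lit 14) (.e (nat_lit 73754) (nat_lit 8) (.e (nat_lit 557105) (nat_lit 14) (.e (nat_lit 180252) (nat_lit 10) (.e (nat_lit 573475) (nat_lit 12) (.e (nat_lit 57507) (nat_lit 39) (.e (nat_lit 655104) (nat_lit 0) .nil)))))))) (.g (nat_lit 1) (.e (nat_lit 40968) (nat_lit 0) .nil) .nil))))) 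
(.nd (nat_lit 8) (.nd (nat_lit 9) 
(.lf (nat_lit 454906) (.g (nat_lit 1931) (.e (nat_lit 2653) (nat_lit 166) (.e (nat_lit 188440) (nat_lit 20) (.e (nat_lit 3469) (nat_lit 217) (.e (nat_lit 696344) (nat_lit 8) (.e (nat_lit 172113) (nat_lit 10) (.e (nat_lit 434207) (nat_lit 18) (.e (nat_lit 6252) (nat_lit 337) .nil))))))) (.g (nat_lit 1) (.e (nat_lit 39312) (nat_lit 0) .nil) .nil))) 
(.lf (nat_lit 455418) (.g (nat_lit 3626) (.e (nat_lit 2663) (nat_lit 167) (.e (nat_lit 196666) (nat_lit 13) (.e (nat_lit 65617) (nat_lit 10) (.e (nat_lit 344132) (nat_lit 26) (.e (nat_lit 557094) (nat_lit 12) (.e (nat_lit 163849) (nat_lit 0) (.e (nat_lit 6420) (nat_lit 341) (.e (nat_lit 163843) (nat_lit 0) (.e (nat_lit 7366) (nat_lit 388) .nil))))))))) (.g (nat_lit 1) (.e (nat_lit 40810) (nat_lit 0) .nil) .nil)))) 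
(.nd (nat_lit 9) 
(.lf (nat_lit 455162) (.g (nat_lit 4514) (.e (nat_lit 2663) (nat_lit 167) (.e (nat_lit 196666) (nat_lit 13) (.e (nat_lit 65610) (nat_lit 10) (.e (nat_lit 344117) (nat_lit 21) (.e (nat_lit 516138) (nat_lit 7) (.e (nat_lit 409617) (nat_lit 10) (.e (nat_lit 5710) (nat_lit 312) .nil))))))) (.g (nat_lit 1) (.e (nat_lit 40467) (nat_lit 0) .nil) .nil))) 
(.lf (nat_lit 455674) (.g (nat_lit 3240) (.e (nat_lit 2664) (nat_lit 167) (.e (nat_lit 196666) (nat_lit 13) (.e (nat_lit 65610) (nat_lit 10) (.e (nat_lit 344117) (nat_lit 21) (.e (nat_lit 516142) (nat_lit 8) (.e (nat_lit 417821) (nat_lit 10) (.e (nat_lit 5688) (nat_lit 312) .nil))))))) (.g (nat_lit 1) (.e (nat_lit 41254) (nat_lit 0) .nil) .nil)))))))))) 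
(.nd (nat_lit 3) (.nd (nat_lit 4) (.nd (nat_lit 5) (.nd (nat_lit 6) (.nd (nat_lit 7) 
(.nd (nat_lit 8) (.nd (nat_lit 9) 
(.lf (nat_lit 454662) (.g (nat_lit 1247) (.e (nat_lit 2648) (nat_lit 166) (.e (nat_lit 188417) (nat_lit 0) (.e (nat_lit 2148) (nat_lit 142) (.e (nat_lit 704597) (nat_lit 6) (.e (nat_lit 188444) (nat_lit 21) (.e (nat_lit 164345) (nat_lit 240) .nil)))))) (.g (nat_lit 1) (.e (nat_lit 36407) (nat_lit 0) .nil) .nil))) 
(.lf (nat_lit 455174) (.g (nat_lit 3877) (.e (nat_lit 2663) (nat_lit 167) (.e (nat_lit 196666) (nat_lit 13) (.e (nat_lit 65610) (nat_lit 10) (.e (nat_lit 344117) (nat_lit 21) (.e (nat_lit 516141) (nat_lit 8) (.e (nat_lit 417814) (nat_lit 10) (.e (nat_lit 5738) (nat_lit 312) .nil))))))) (.g (nat_lit 1) (.e (nat_lit 40479) (nat_lit 0) .nil) .nil)))) (.nd (nat_lit 9) 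
(.lf (nat_lit 454918) (.g (nat_lit 438) (.e (nat_lit 7936) (nat_lit 166) (.e (nat_lit 188420) (nat_lit 0) (.e (nat_lit 2175) (nat_lit 143) (.e (nat_lit 712753) (nat_lit 30) .nil)))) (.g (nat_lit 0) (.e (nat_lit 39521) (nat_lit 0) .nil) .nil))) 
(.lf (nat_lit 455430) (.g (nat_lit 4397) (.e (nat_lit 2663) (nat_lit 167) (.e (nat_lit 196666) (nat_lit 13) (.e (nat_lit 65617) (nat_lit 10) (.e (nat_lit 344133) (nat_lit 26) (.e (nat_lit 557091) (nat_lit 12) (.e (nat_lit 163844) (nat_lit 0) (.e (nat_lit 6420) (nat_lit 341) (.e (nat_lit 163843) (nat_lit 0) (.e (nat_lit 7366) (nat_lit 388) .nil))))))))) (.g (nat_lit 1) (.e (nat_lit 40823) (nat_lit 0) .nil) .nil))))) 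
(.nd (nat_lit 8) (.nd (nat_lit 9) 
(.lf (nat_lit 454790) (.g (nat_lit 2184) (.e (nat_lit 2651) (nat_lit 166) (.e (nat_lit 188420) (nat_lit 0) (.e (nat_lit 2056) (nat_lit 142) (.e (nat_lit 704599) (nat_lit 6) (.e (nat_lit 188453) (nat_lit 24) (.e (nat_lit 229664) (nat_lit 240) .nil)))))) (.g (nat_lit 1) (.e (nat_lit 38576) (nat_lit 0) .nil) .nil))) 
(.lf (nat_lit 455302) (.g (nat_lit 6015) (.e (nat_lit 2663) (nat_lit 167) (.e (nat_lit 196666) (nat_lit 13) (.e (nat_lit 65610) (nat_lit 10) (.e (nat_lit 344117) (nat_lit 21) (.e (nat_lit 516151) (nat_lit 9) (.e (nat_lit 426049) (nat_lit 0) (.e (nat_lit 3366) (nat_lit 208) (.e (nat_lit 622627) (nat_lit 13) .nil)))))))) (.g (nat_lit 1) (.e (nat_lit 40607) (nat_lit 0) .nil) .nil)))) 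
(.nd (nat_lit 9) 
(.lf (nat_lit 455046) (.g (nat_lit 1454) (.e (nat_lit 2661) (nat_lit 167) (.e (nat_lit 196666) (nat_lit 13) (.e (nat_lit 65617) (nat_lit 10) (.e (nat_lit 344117) (nat_lit 21) .nil)))) (.g (nat_lit 0) (.e (nat_lit 40184) (nat_lit 0) .nil) .nil))) 
(.lf (nat_lit 455558) (.g (nat_lit 3396) (.e (nat_lit 2663) (nat_lit 167) (.e (nat_lit 196671) (nat_lit 15) (.e (nat_lit 81956) (nat_lit 23) (.e (nat_lit 98350) (nat_lit 24) (.e (nat_lit 409616) (nat_lit 10) (.e (nat_lit 5710) (nat_lit 312) .nil)))))) (.g (nat_lit 1) (.e (nat_lit 40982) (nat_lit 0) .nil) .nil)))))) (.nd (nat_lit 7) (.nd (nat_lit 8) (.nd (nat_lit 9) 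
(.lf (nat_lit 454726) (.g (nat_lit 3742) (.e (nat_lit 2648) (nat_lit 166) (.e (nat_lit 188439) (nat_lit 20) (.e (nat_lit 3409) (nat_lit 212) (.e (nat_lit 655378) (nat_lit 4) (.e (nat_lit 172106) (nat_lit 10) (.e (nat_lit 434209) (nat_lit 18) (.e (nat_lit 5548) (nat_lit 306) .nil))))))) (.g (nat_lit 1) (.e (nat_lit 36609) (nat_lit 0) .nil) .nil))) 
(.lf (nat_lit 455238) (.g (nat_lit 3303) (.e (nat_lit 2663) (nat_lit 167) (.e (nat_lit 196666) (nat_lit 13) (.e (nat_lit 65610) (nat_lit 10) (.e (nat_lit 344117) (nat_lit 21) (.e (nat_lit 516151) (nat_lit 9) (.e (nat_lit 426003) (nat_lit 0) (.e (nat_lit 7936) (nat_lit 208) (.e (nat_lit 622627) (nat_lit 13) .nil)))))))) (.g (nat_lit 1) (.e (nat_lit 40543) (nat_lit 0) .nil) .nil)))) 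
(.nd (nat_lit 9) 
(.lf (nat_lit 454982) (.g (nat_lit 2177) (.e (nat_lit 2657) (nat_lit 167) (.e (nat_lit 196670) (nat_lit 14) (.e (nat_lit 73753) (nat_lit 8) (.e (nat_lit 557103) (nat_lit 14) (.e (nat_lit 180250) (nat_lit 10) (.e (nat_lit 573473) (nat_lit 12) (.e (nat_lit 57508) (nat_lit 39) (.e (nat_lit 647175) (nat_lit 0) .nil)))))))) (.g (nat_lit 1) (.e (nat_lit 39999) (nat_lit 0) .nil) .nil))) 
(.lf (nat_lit 455494) (.g (nat_lit 2853) (.e (nat_lit 2663) (nat_lit 167) (.e (nat_lit 196670) (nat_lit 14) (.e (nat_lit 73753) (nat_lit 8) (.e (nat_lit 557103) (nat_lit 14) (.e (nat_lit 180250) (nat_lit 10) (.e (nat_lit 573474) (nat_lit 12) (.e (nat_lit 57506) (nat_lit 39) (.e (nat_lit 647176) (nat_lit 0) .nil)))))))) (.g (nat_lit 1) (.e (nat_lit 40916) (nat_lit 0) .nil) .nil))))) 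
(.nd (nat_lit 8) (.nd (nat_lit 9) 
(.lf (nat_lit 454854) (.g (nat_lit 4440) (.e (nat_lit 2651) (nat_lit 166) (.e (nat_lit 188439) (nat_lit 20) (.e (nat_lit 3469) (nat_lit 217) (.e (nat_lit 696344) (nat_lit 8) (.e (nat_lit 172113) (nat_lit 10) (.e (nat_lit 434208) (nat_lit 18) (.e (nat_lit 6252) (nat_lit 337) .nil))))))) (.g (nat_lit 1) (.e (nat_lit 38830) (nat_lit 0) .nil) .nil))) 
(.lf (nat_lit 455366) (.g (nat_lit 1133) (.e (nat_lit 2663) (nat_lit 167) (.e (nat_lit 196666) (nat_lit 13) (.e (nat_lit 65617) (nat_lit 10) (.e (nat_lit 344095) (nat_lit 18) .nil)))) (.g (nat_lit 0) (.e (nat_lit 40716) (nat_lit 0) .nil) .nil)))) (.nd (nat_lit 9) 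
(.lf (nat_lit 455110) (.g (nat_lit 4329) (.e (nat_lit 2663) (nat_lit 167) (.e (nat_lit 196654) (nat_lit 11) (.e (nat_lit 16436) (nat_lit 9) (.e (nat_lit 426131) (nat_lit 3) (.e (nat_lit 204880) (nat_lit 32) (.e (nat_lit 385096) (nat_lit 49) (.e (nat_lit 778391) (nat_lit 9) .nil))))))) (.g (nat_lit 1) (.e (nat_lit 40307) (nat_lit 0) .nil) .nil))) 
(.lf (nat_lit 455622) (.g (nat_lit 6256) (.e (nat_lit 2664) (nat_lit 167) (.e (nat_lit 196666) (nat_lit 13) (.e (nat_lit 65610) (nat_lit 10) (.e (nat_lit 344117) (nat_lit 21) (.e (nat_lit 516097) (nat_lit 0) (.e (nat_lit 7581) (nat_lit 405) (.e (nat_lit 57750) (nat_lit 201) .nil))))))) (.g (nat_lit 1) (.e (nat_lit 41202) (nat_lit 0) .nil) .nil))))))) 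
(.nd (nat_lit 6) (.nd (nat_lit 7) (.nd (nat_lit 8) (.nd (nat_lit 9) 
(.lf (nat_lit 454694) (.g (nat_lit 1956) (.e (nat_lit 2648) (nat_lit 166) (.e (nat_lit 188420) (nat_lit 0) (.e (nat_lit 2059) (nat_lit 142) (.e (nat_lit 704598) (nat_lit 6) (.e (nat_lit 188444) (nat_lit 21) (.e (nat_lit 164346) (nat_lit 240) .nil)))))) (.g (nat_lit 1) (.e (nat_lit 36441) (nat_lit 0) .nil) .nil))) 
(.lf (nat_lit 455206) (.g (nat_lit 3617) (.e (nat_lit 2663) (nat_lit 167) (.e (nat_lit 196666) (nat_lit 13) (.e (nat_lit 65610) (nat_lit 10) (.e (nat_lit 344117) (nat_lit 21) (.e (nat_lit 516145) (nat_lit 9) (.e (nat_lit 426357) (nat_lit 15) (.e (nat_lit 2015) (nat_lit 139) (.e (nat_lit 679965) (nat_lit 13) .nil)))))))) (.g (nat_lit 1) (.e (nat_lit 40511) (nat_lit 0) .nil) .nil)))) 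
(.nd (nat_lit 9) 
(.lf (nat_lit 454950) (.g (nat_lit 2631) (.e (nat_lit 2654) (nat_lit 167) (.e (nat_lit 196672) (nat_lit 15) (.e (nat_lit 81954) (nat_lit 23) (.e (nat_lit 98350) (nat_lit 24) (.e (nat_lit 409617) (nat_lit 10) .nil))))) (.g (nat_lit 0) (.e (nat_lit 39827) (nat_lit 0) .nil) .nil))) 
(.lf (nat_lit 455462) (.g (nat_lit 2915) (.e (nat_lit 2663) (nat_lit 167) (.e (nat_lit 196666) (nat_lit 13) (.e (nat_lit 65630) (nat_lit 14) (.e (nat_lit 401428) (nat_lit 3) (.e (nat_lit 204862) (nat_lit 27) (.e (nat_lit 344069) (nat_lit 0) .nil)))))) (.g (nat_lit 1) (.e (nat_lit 40875) (nat_lit 0) .nil) .nil))))) (.nd (nat_lit 8) (.nd (nat_lit 9) 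
(.lf (nat_lit 454822) (.g (nat_lit 2321) (.e (nat_lit 2651) (nat_lit 166) (.e (nat_lit 188431) (nat_lit 20) (.e (nat_lit 3397) (nat_lit 211) (.e (nat_lit 647185) (nat_lit 6) (.e (nat_lit 188453) (nat_lit 24) (.e (nat_lit 229664) (nat_lit 240) .nil)))))) (.g (nat_lit 1) (.e (nat_lit 38685) (nat_lit 0) .nil) .nil))) 
(.lf (nat_lit 455334) (.g (nat_lit 4442) (.e (nat_lit 2663) (nat_lit 167) (.e (nat_lit 196666) (nat_lit 13) (.e (nat_lit 65610) (nat_lit 10) (.e (nat_lit 344117) (nat_lit 21) (.e (nat_lit 516160) (nat_lit 10) (.e (nat_lit 434208) (nat_lit 18) (.e (nat_lit 4778) (nat_lit 281) (.e (nat_lit 2477) (nat_lit 157) .nil)))))))) (.g (nat_lit 1) (.e (nat_lit 40639) (nat_lit 0) .nil) .nil)))) 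
(.nd (nat_lit 9) 
(.lf (nat_lit 455078) (.g (nat_lit 523) (.e (nat_lit 2661) (nat_lit 167) (.e (nat_lit 196674) (nat_lit 15) (.e (nat_lit 81956) (nat_lit 23) .nil))) (.g (nat_lit 0) (.e (nat_lit 40232) (nat_lit 0) .nil) .nil))) 
(.lf (nat_lit 455590) (.g (nat_lit 1462) (.e (nat_lit 2664) (nat_lit 167) (.e (nat_lit 196630) (nat_lit 9) (.e (nat_lit 202) (nat_lit 17) (.e (nat_lit 253992) (nat_lit 11) (.e (nat_lit 16411) (nat_lit 2) .nil))))) (.g (nat_lit 0) (.e (nat_lit 41150) (nat_lit 0) .nil) .nil)))))) (.nd (nat_lit 7) (.nd (nat_lit 8) (.nd (nat_lit 9) 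
(.lf (nat_lit 454758) (.g (nat_lit 289) (.e (nat_lit 2650) (nat_lit 166) (.e (nat_lit 188433) (nat_lit 20) (.e (nat_lit 3223) (nat_lit 196) .nil))) (.g (nat_lit 0) (.e (nat_lit 37567) (nat_lit 0) .nil) .nil))) 
(.lf (nat_lit 455270) (.g (nat_lit 5370) (.e (nat_lit 2663) (nat_lit 167) (.e (nat_lit 196666) (nat_lit 13) (.e (nat_lit 65610) (nat_lit 10) (.e (nat_lit 344117) (nat_lit 21) (.e (nat_lit 516151) (nat_lit 9) (.e (nat_lit 426037) (nat_lit 0) (.e (nat_lit 3370) (nat_lit 208) (.e (nat_lit 622625) (nat_lit 13) .nil)))))))) (.g (nat_lit 1) (.e (nat_lit 40575) (nat_lit 0) .nil) .nil)))) 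
(.nd (nat_lit 9) 
(.lf (nat_lit 455014) (.g (nat_lit 2216) (.e (nat_lit 2661) (nat_lit 167) (.e (nat_lit 196666) (nat_lit 13) (.e (nat_lit 65610) (nat_lit 10) (.e (nat_lit 344117) (nat_lit 21) (.e (nat_lit 516102) (nat_lit 0) (.e (nat_lit 7107) (nat_lit 380) (.e (nat_lit 164363) (nat_lit 246) .nil))))))) (.g (nat_lit 1) (.e (nat_lit 40149) (nat_lit 0) .nil) .nil))) 
(.lf (nat_lit 455526) (.g (nat_lit 4018) (.e (nat_lit 2663) (nat_lit 167) (.e (nat_lit 196670) (nat_lit 14) (.e (nat_lit 73754) (nat_lit 8) (.e (nat_lit 557105) (nat_lit 14) (.e (nat_lit 180252) (nat_lit 10) (.e (nat_lit 573473) (nat_lit 12) (.e (nat_lit 57506) (nat_lit 39) (.e (nat_lit 647176) (nat_lit 0) .nil)))))))) (.g (nat_lit 1) (.e (nat_lit 40948) (nat_lit 0) .nil) .nil))))) 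
(.nd (nat_lit 8) (.nd (nat_lit 9) 
(.lf (nat_lit 454886) (.g (nat_lit 3251) (.e (nat_lit 2653) (nat_lit 166) (.e (nat_lit 188418) (nat_lit 0) (.e (nat_lit 2059) (nat_lit 142) (.e (nat_lit 704598) (nat_lit 6) (.e (nat_lit 188453) (nat_lit 24) (.e (nat_lit 229663) (nat_lit 240) .nil)))))) (.g (nat_lit 1) (.e (nat_lit 39201) (nat_lit 0) .nil) .nil))) 
(.lf (nat_lit 455398) (.g (nat_lit 4134) (.e (nat_lit 2663) (nat_lit 167) (.e (nat_lit 196666) (nat_lit 13) (.e (nat_lit 65617) (nat_lit 10) (.e (nat_lit 344130) (nat_lit 26) (.e (nat_lit 557087) (nat_lit 11) (.e (nat_lit 24584) (nat_lit 0) (.e (nat_lit 6677) (nat_lit 357) .nil))))))) (.g (nat_lit 1) (.e (nat_lit 40788) (nat_lit 0) .nil) .nil)))) (.nd (nat_lit 9) 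
(.lf (nat_lit 455142) (.g (nat_lit 4612) (.e (nat_lit 2663) (nat_lit 167) (.e (nat_lit 196666) (nat_lit 13) (.e (nat_lit 65610) (nat_lit 10) (.e (nat_lit 344117) (nat_lit 21) (.e (nat_lit 516098) (nat_lit 0) (.e (nat_lit 7581) (nat_lit 405) (.e (nat_lit 57751) (nat_lit 201) .nil))))))) (.g (nat_lit 1) (.e (nat_lit 40447) (nat_lit 0) .nil) .nil))) 
(.lf (nat_lit 455654) (.g (nat_lit 2677) (.e (nat_lit 2664) (nat_lit 167) (.e (nat_lit 196666) (nat_lit 13) (.e (nat_lit 65610) (nat_lit 10) (.e (nat_lit 344117) (nat_lit 21) (.e (nat_lit 516106) (nat_lit 0) (.e (nat_lit 7095) (nat_lit 380) (.e (nat_lit 171776) (nat_lit 246) .nil))))))) (.g (nat_lit 1) (.e (nat_lit 41234) (nat_lit 0) .nil) .nil)))))))) 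
(.nd (nat_lit 5) (.nd (nat_lit 6) (.nd (nat_lit 7) (.nd (nat_lit 8) (.nd (nat_lit 9) 
(.lf (nat_lit 454678) (.g (nat_lit 1501) (.e (nat_lit 2648) (nat_lit 166) (.e (nat_lit 188418) (nat_lit 0) (.e (nat_lit 2174) (nat_lit 143) (.e (nat_lit 712755) (nat_lit 30) (.e (nat_lit 458496) (nat_lit 0) .nil))))) (.g (nat_lit 0) (.e (nat_lit 36423) (nat_lit 0) .nil) .nil))) 
(.lf (nat_lit 455190) (.g (nat_lit 3571) (.e (nat_lit 2663) (nat_lit 167) (.e (nat_lit 196666) (nat_lit 13) (.e (nat_lit 65610) (nat_lit 10) (.e (nat_lit 344117) (nat_lit 21) (.e (nat_lit 516145) (nat_lit 9) (.e (nat_lit 425992) (nat_lit 0) (.e (nat_lit 3366) (nat_lit 208) (.e (nat_lit 622627) (nat_lit 13) .nil)))))))) (.g (nat_lit 1) (.e (nat_lit 40495) (nat_lit 0) .nil) .nil)))) 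
(.nd (nat_lit 9) 
(.lf (nat_lit 454934) (.g (nat_lit 1713) (.e (nat_lit 2654) (nat_lit 167) (.e (nat_lit 196666) (nat_lit 13) (.e (nat_lit 65610) (nat_lit 10) (.e (nat_lit 344117) (nat_lit 21) (.e (nat_lit 516160) (nat_lit 10) (.e (nat_lit 434264) (nat_lit 34) (.e (nat_lit 622622) (nat_lit 13) .nil))))))) (.g (nat_lit 1) (.e (nat_lit 39804) (nat_lit 0) .nil) .nil))) 
(.lf (nat_lit 455446) (.g (nat_lit 3800) (.e (nat_lit 2663) (nat_lit 167) (.e (nat_lit 196666) (nat_lit 13) (.e (nat_lit 65628) (nat_lit 14) (.e (nat_lit 401425) (nat_lit 2) (.e (nat_lit 196670) (nat_lit 14) (.e (nat_lit 73781) (nat_lit 32) .nil)))))) (.g (nat_lit 1) (.e (nat_lit 40851) (nat_lit 0) .nil) .nil))))) (.nd (nat_lit 8) (.nd (nat_lit 9) 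
(.lf (nat_lit 454806) (.g (nat_lit 2578) (.e (nat_lit 2651) (nat_lit 166) (.e (nat_lit 188420) (nat_lit 0) (.e (nat_lit 2059) (nat_lit 142) (.e (nat_lit 704599) (nat_lit 6) (.e (nat_lit 188455) (nat_lit 24) (.e (nat_lit 229666) (nat_lit 240) .nil)))))) (.g (nat_lit 1) (.e (nat_lit 38592) (nat_lit 0) .nil) .nil))) 
(.lf (nat_lit 455318) (.g (nat_lit 3605) (.e (nat_lit 2663) (nat_lit 167) (.e (nat_lit 196666) (nat_lit 13) (.e (nat_lit 65610) (nat_lit 10) (.e (nat_lit 344117) (nat_lit 21) (.e (nat_lit 516151) (nat_lit 9) (.e (nat_lit 426104) (nat_lit 1) (.e (nat_lit 164254) (nat_lit 215) (.e (nat_lit 2454) (nat_lit 157) .nil)))))))) (.g (nat_lit 1) (.e (nat_lit 40623) (nat_lit 0) .nil) .nil)))) 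
(.nd (nat_lit 9) 
(.lf (nat_lit 455062) (.g (nat_lit 687) (.e (nat_lit 2661) (nat_lit 167) (.e (nat_lit 196672) (nat_lit 15) (.e (nat_lit 81955) (nat_lit 23) .nil))) (.g (nat_lit 0) (.e (nat_lit 40214) (nat_lit 0) .nil) .nil))) 
(.lf (nat_lit 455574) (.g (nat_lit 2053) (.e (nat_lit 2663) (nat_lit 167) (.e (nat_lit 196672) (nat_lit 15) (.e (nat_lit 81954) (nat_lit 23) (.e (nat_lit 98389) (nat_lit 33) (.e (nat_lit 491528) (nat_lit 0) (.e (nat_lit 6680) (nat_lit 357) .nil)))))) (.g (nat_lit 1) (.e (nat_lit 41024) (nat_lit 0) .nil) .nil)))))) (.nd (nat_lit 7) (.nd (nat_lit 8) (.nd (nat_lit 9) 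
(.lf (nat_lit 454742) (.g (nat_lit 1950) (.e (nat_lit 2649) (nat_lit 166) (.e (nat_lit 188434) (nat_lit 20) (.e (nat_lit 3391) (nat_lit 210) (.e (nat_lit 639008) (nat_lit 13) (.e (nat_lit 1586) (nat_lit 111) (.e (nat_lit 368384) (nat_lit 0) (.e (nat_lit 5170) (nat_lit 292) .nil))))))) (.g (nat_lit 1) (.e (nat_lit 37032) (nat_lit 0) .nil) .nil))) 
(.lf (nat_lit 455254) (.g (nat_lit 5433) (.e (nat_lit 2663) (nat_lit 167) (.e (nat_lit 196666) (nat_lit 13) (.e (nat_lit 65610) (nat_lit 10) (.e (nat_lit 344117) (nat_lit 21) (.e (nat_lit 516151) (nat_lit 9) (.e (nat_lit 426021) (nat_lit 0) (.e (nat_lit 3367) (nat_lit 208) (.e (nat_lit 622626) (nat_lit 13) .nil)))))))) (.g (nat_lit 1) (.e (nat_lit 40559) (nat_lit 0) .nil) .nil)))) 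
(.nd (nat_lit 9) 
(.lf (nat_lit 454998) (.g (nat_lit 2808) (.e (nat_lit 2657) (nat_lit 167) (.e (nat_lit 196673) (nat_lit 15) (.e (nat_lit 81956) (nat_lit 23) (.e (nat_lit 98350) (nat_lit 24) .nil)))) (.g (nat_lit 0) (.e (nat_lit 40077) (nat_lit 0) .nil) .nil))) 
(.lf (nat_lit 455510) (.g (nat_lit 2786) (.e (nat_lit 2663) (nat_lit 167) (.e (nat_lit 196670) (nat_lit 14) (.e (nat_lit 73753) (nat_lit 8) (.e (nat_lit 557105) (nat_lit 14) (.e (nat_lit 180252) (nat_lit 10) (.e (nat_lit 573473) (nat_lit 12) (.e (nat_lit 57510) (nat_lit 39) (.e (nat_lit 647173) (nat_lit 0) .nil)))))))) (.g (nat_lit 1) (.e (nat_lit 40932) (nat_lit 0) .nil) .nil))))) 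
(.nd (nat_lit 8) (.nd (nat_lit 9) 
(.lf (nat_lit 454870) (.g (nat_lit 801) (.e (nat_lit 2652) (nat_lit 166) (.e (nat_lit 188435) (nat_lit 20) (.e (nat_lit 3390) (nat_lit 210) (.e (nat_lit 639007) (nat_lit 13) (.e (nat_lit 1595) (nat_lit 111) (.e (nat_lit 368384) (nat_lit 0) (.e (nat_lit 5048) (nat_lit 292) .nil))))))) (.g (nat_lit 1) (.e (nat_lit 39073) (nat_lit 0) .nil) .nil))) 
(.lf (nat_lit 455382) (.g (nat_lit 3564) (.e (nat_lit 2663) (nat_lit 167) (.e (nat_lit 196666) (nat_lit 13) (.e (nat_lit 65617) (nat_lit 10) (.e (nat_lit 344130) (nat_lit 26) (.e (nat_lit 557086) (nat_lit 11) (.e (nat_lit 24577) (nat_lit 0) (.e (nat_lit 6692) (nat_lit 357) .nil))))))) (.g (nat_lit 1) (.e (nat_lit 40771) (nat_lit 0) .nil) .nil)))) (.nd (nat_lit 9) 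
(.lf (nat_lit 455126) (.g (nat_lit 4168) (.e (nat_lit 2663) (nat_lit 167) (.e (nat_lit 196666) (nat_lit 13) (.e (nat_lit 65610) (nat_lit 10) (.e (nat_lit 344117) (nat_lit 21) (.e (nat_lit 516097) (nat_lit 0) .nil))))) (.g (nat_lit 0) (.e (nat_lit 40431) (nat_lit 0) .nil) .nil))) 
(.lf (nat_lit 455638) (.g (nat_lit 3472) (.e (nat_lit 2664) (nat_lit 167) (.e (nat_lit 196666) (nat_lit 13) (.e (nat_lit 65610) (nat_lit 10) (.e (nat_lit 344117) (nat_lit 21) (.e (nat_lit 516102) (nat_lit 0) (.e (nat_lit 7114) (nat_lit 381) (.e (nat_lit 229688) (nat_lit 246) .nil))))))) (.g (nat_lit 1) (.e (nat_lit 41218) (nat_lit 0) .nil) .nil))))))) 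
(.nd (nat_lit 6) (.nd (nat_lit 7) (.nd (nat_lit 8) (.nd (nat_lit 9) 
(.lf (nat_lit 454710) (.g (nat_lit 1372) (.e (nat_lit 2648) (nat_lit 166) (.e (nat_lit 188420) (nat_lit 0) (.e (nat_lit 2175) (nat_lit 143) (.e (nat_lit 712755) (nat_lit 30) (.e (nat_lit 458496) (nat_lit 0) .nil))))) (.g (nat_lit 0) (.e (nat_lit 36457) (nat_lit 0) .nil) .nil))) 
(.lf (nat_lit 455222) (.g (nat_lit 3918) (.e (nat_lit 2663) (nat_lit 167) (.e (nat_lit 196666) (nat_lit 13) (.e (nat_lit 65610) (nat_lit 10) (.e (nat_lit 344117) (nat_lit 21) (.e (nat_lit 516145) (nat_lit 9) (.e (nat_lit 426361) (nat_lit 15) (.e (nat_lit 2017) (nat_lit 139) (.e (nat_lit 679967) (nat_lit 13) .nil)))))))) (.g (nat_lit 1) (.e (nat_lit 40527) (nat_lit 0) .nil) .nil)))) 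
(.nd (nat_lit 9) 
(.lf (nat_lit 454966) (.g (nat_lit 2472) (.e (nat_lit 2656) (nat_lit 167) (.e (nat_lit 196672) (nat_lit 15) (.e (nat_lit 81954) (nat_lit 23) (.e (nat_lit 98349) (nat_lit 24) (.e (nat_lit 409612) (nat_lit 10) .nil))))) (.g (nat_lit 0) (.e (nat_lit 39920) (nat_lit 0) .nil) .nil))) 
(.lf (nat_lit 455478) (.g (nat_lit 4426) (.e (nat_lit 2663) (nat_lit 167) (.e (nat_lit 196669) (nat_lit 14) (.e (nat_lit 73755) (nat_lit 8) (.e (nat_lit 557105) (nat_lit 14) (.e (nat_lit 180252) (nat_lit 10) (.e (nat_lit 573474) (nat_lit 12) (.e (nat_lit 57507) (nat_lit 39) (.e (nat_lit 647176) (nat_lit 0) .nil)))))))) (.g (nat_lit 1) (.e (nat_lit 40900) (nat_lit 0) .nil) .nil))))) 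
(.nd (nat_lit 8) (.nd (nat_lit 9) 
(.lf (nat_lit 454838) (.g (nat_lit 2563) (.e (nat_lit 2651) (nat_lit 166) (.e (nat_lit 188439) (nat_lit 20) (.e (nat_lit 3407) (nat_lit 212) (.e (nat_lit 655380) (nat_lit 6) (.e (nat_lit 188453) (nat_lit 24) (.e (nat_lit 229664) (nat_lit 240) .nil)))))) (.g (nat_lit 1) (.e (nat_lit 38763) (nat_lit 0) .nil) .nil))) 
(.lf (nat_lit 455350) (.g (nat_lit 2560) (.e (nat_lit 2663) (nat_lit 167) (.e (nat_lit 196666) (nat_lit 13) (.e (nat_lit 65610) (nat_lit 10) (.e (nat_lit 344125) (nat_lit 25) .nil)))) (.g (nat_lit 0) (.e (nat_lit 40676) (nat_lit 0) .nil) .nil)))) (.nd (nat_lit 9) 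
(.lf (nat_lit 455094) (.g (nat_lit 2812) (.e (nat_lit 2663) (nat_lit 167) (.e (nat_lit 196654) (nat_lit 11) (.e (nat_lit 16436) (nat_lit 9) (.e (nat_lit 426131) (nat_lit 3) (.e (nat_lit 204852) (nat_lit 26) (.e (nat_lit 336328) (nat_lit 19) (.e (nat_lit 213019) (nat_lit 9) .nil))))))) (.g (nat_lit 1) (.e (nat_lit 40290) (nat_lit 0) .nil) .nil))) 
(.lf (nat_lit 455606) (.g (nat_lit 1856) (.e (nat_lit 2664) (nat_lit 167) (.e (nat_lit 196666) (nat_lit 13) (.e (nat_lit 65584) (nat_lit 7) (.e (nat_lit 319519) (nat_lit 12) (.e (nat_lit 32788) (nat_lit 10) (.e (nat_lit 73782) (nat_lit 32) .nil)))))) (.g (nat_lit 1) (.e (nat_lit 41170) (nat_lit 0) .nil) .nil)))))) (.nd (nat_lit 7) (.nd (nat_lit 8) (.nd (nat_lit 9) 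
(.lf (nat_lit 454774) (.g (nat_lit 3676) (.e (nat_lit 2650) (nat_lit 166) (.e (nat_lit 188441) (nat_lit 20) (.e (nat_lit 3409) (nat_lit 212) (.e (nat_lit 655378) (nat_lit 4) (.e (nat_lit 172097) (nat_lit 9) (.e (nat_lit 426109) (nat_lit 1) (.e (nat_lit 164347) (nat_lit 240) .nil))))))) (.g (nat_lit 1) (.e (nat_lit 37702) (nat_lit 0) .nil) .nil))) 
(.lf (nat_lit 455286) (.g (nat_lit 3623) (.e (nat_lit 2663) (nat_lit 167) (.e (nat_lit 196666) (nat_lit 13) (.e (nat_lit 65610) (nat_lit 10) (.e (nat_lit 344117) (nat_lit 21) (.e (nat_lit 516151) (nat_lit 9) (.e (nat_lit 426041) (nat_lit 0) (.e (nat_lit 3370) (nat_lit 208) (.e (nat_lit 622625) (nat_lit 13) .nil)))))))) (.g (nat_lit 1) (.e (nat_lit 40591) (nat_lit 0) .nil) .nil)))) 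
(.nd (nat_lit 9) 
(.lf (nat_lit 455030) (.g (nat_lit 2816) (.e (nat_lit 2661) (nat_lit 167) (.e (nat_lit 196666) (nat_lit 13) (.e (nat_lit 65610) (nat_lit 10) (.e (nat_lit 344117) (nat_lit 21) (.e (nat_lit 516138) (nat_lit 7) (.e (nat_lit 417536) (nat_lit 10) (.e (nat_lit 5642) (nat_lit 312) .nil))))))) (.g (nat_lit 1) (.e (nat_lit 40165) (nat_lit 0) .nil) .nil))) 
(.lf (nat_lit 455542) (.g (nat_lit 2823) (.e (nat_lit 2663) (nat_lit 167) (.e (nat_lit 196670) (nat_lit 14) (.e (nat_lit 73754) (nat_lit 8) (.e (nat_lit 557105) (nat_lit 14) (.e (nat_lit 180252) (nat_lit 10) (.e (nat_lit 573475) (nat_lit 12) (.e (nat_lit 57506) (nat_lit 39) (.e (nat_lit 647173) (nat_lit 0) .nil)))))))) (.g (nat_lit 1) (.e (nat_lit 40964) (nat_lit 0) .nil) .nil))))) 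
(.nd (nat_lit 8) (.nd (nat_lit 9) 
(.lf (nat_lit 454902) (.g (nat_lit 386) (.e (nat_lit 2653) (nat_lit 166) (.e (nat_lit 188440) (nat_lit 20) (.e (nat_lit 3409) (nat_lit 212) .nil))) (.g (nat_lit 0) (.e (nat_lit 39290) (nat_lit 0) .nil) .nil))) 
(.lf (nat_lit 455414) (.g (nat_lit 2006) (.e (nat_lit 2663) (nat_lit 167) (.e (nat_lit 196666) (nat_lit 13) (.e (nat_lit 65617) (nat_lit 10) (.e (nat_lit 344132) (nat_lit 26) (.e (nat_lit 557072) (nat_lit 9) .nil))))) (.g (nat_lit 0) (.e (nat_lit 40804) (nat_lit 0) .nil) .nil)))) (.nd (nat_lit 9) 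
(.lf (nat_lit 455158) (.g (nat_lit 4338) (.e (nat_lit 2663) (nat_lit 167) (.e (nat_lit 196666) (nat_lit 13) (.e (nat_lit 65610) (nat_lit 10) (.e (nat_lit 344117) (nat_lit 21) (.e (nat_lit 516106) (nat_lit 0) (.e (nat_lit 7936) (nat_lit 405) (.e (nat_lit 57751) (nat_lit 201) .nil))))))) (.g (nat_lit 1) (.e (nat_lit 40463) (nat_lit 0) .nil) .nil))) 
(.lf (nat_lit 455670) (.g (nat_lit 3672) (.e (nat_lit 2664) (nat_lit 167) (.e (nat_lit 196666) (nat_lit 13) (.e (nat_lit 65610) (nat_lit 10) (.e (nat_lit 344117) (nat_lit 21) (.e (nat_lit 516142) (nat_lit 8) (.e (nat_lit 417814) (nat_lit 10) (.e (nat_lit 5729) (nat_lit 312) .nil))))))) (.g (nat_lit 1) (.e (nat_lit 41250) (nat_lit 0) .nil) .nil))))))))) 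
(.nd (nat_lit 4) (.nd (nat_lit 5) (.nd (nat_lit 6) (.nd (nat_lit 7) (.nd (nat_lit 8) 
(.nd (nat_lit 9) 
(.lf (nat_lit 454670) (.g (nat_lit 1435) (.e (nat_lit 2648) (nat_lit 166) (.e (nat_lit 188418) (nat_lit 0) (.e (nat_lit 2059) (nat_lit 142) (.e (nat_lit 704598) (nat_lit 6) (.e (nat_lit 188444) (nat_lit 21) (.e (nat_lit 164346) (nat_lit 240) .nil)))))) (.g (nat_lit 1) (.e (nat_lit 36415) (nat_lit 0) .nil) .nil))) 
(.lf (nat_lit 455182) (.g (nat_lit 5357) (.e (nat_lit 2663) (nat_lit 167) (.e (nat_lit 196666) (nat_lit 13) (.e (nat_lit 65610) (nat_lit 10) (.e (nat_lit 344117) (nat_lit 21) (.e (nat_lit 516142) (nat_lit 8) (.e (nat_lit 417817) (nat_lit 10) (.e (nat_lit 5728) (nat_lit 312) .nil))))))) (.g (nat_lit 1) (.e (nat_lit 40487) (nat_lit 0) .nil) .nil)))) (.nd (nat_lit 9) 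
(.lf (nat_lit 454926) (.g (nat_lit 2385) (.e (nat_lit 2654) (nat_lit 167) (.e (nat_lit 196666) (nat_lit 13) (.e (nat_lit 65610) (nat_lit 10) (.e (nat_lit 344117) (nat_lit 21) (.e (nat_lit 516102) (nat_lit 0) (.e (nat_lit 7107) (nat_lit 380) (.e (nat_lit 164363) (nat_lit 246) .nil))))))) (.g (nat_lit 1) (.e (nat_lit 39796) (nat_lit 0) .nil) .nil))) 
(.lf (nat_lit 455438) (.g (nat_lit 3371) (.e (nat_lit 2663) (nat_lit 167) (.e (nat_lit 196666) (nat_lit 13) (.e (nat_lit 65624) (nat_lit 12) (.e (nat_lit 385074) (nat_lit 31) (.e (nat_lit 573486) (nat_lit 14) .nil))))) (.g (nat_lit 0) (.e (nat_lit 40839) (nat_lit 0) .nil) .nil))))) (.nd (nat_lit 8) (.nd (nat_lit 9) 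
(.lf (nat_lit 454798) (.g (nat_lit 2875) (.e (nat_lit 2651) (nat_lit 166) (.e (nat_lit 188420) (nat_lit 0) (.e (nat_lit 2058) (nat_lit 142) (.e (nat_lit 704599) (nat_lit 6) (.e (nat_lit 188455) (nat_lit 24) (.e (nat_lit 229664) (nat_lit 240) .nil)))))) (.g (nat_lit 1) (.e (nat_lit 38584) (nat_lit 0) .nil) .nil))) 
(.lf (nat_lit 455310) (.g (nat_lit 3644) (.e (nat_lit 2663) (nat_lit 167) (.e (nat_lit 196666) (nat_lit 13) (.e (nat_lit 65610) (nat_lit 10) (.e (nat_lit 344117) (nat_lit 21) (.e (nat_lit 516151) (nat_lit 9) (.e (nat_lit 426047) (nat_lit 0) (.e (nat_lit 2426) (nat_lit 157) (.e (nat_lit 4778) (nat_lit 281) (.e (nat_lit 2477) (nat_lit 157) .nil))))))))) (.g (nat_lit 1) (.e (nat_lit 40615) (nat_lit 0) .nil) .nil)))) 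
(.nd (nat_lit 9) 
(.lf (nat_lit 455054) (.g (nat_lit 3122) (.e (nat_lit 2661) (nat_lit 167) (.e (nat_lit 196666) (nat_lit 13) (.e (nat_lit 65630) (nat_lit 14) (.e (nat_lit 401428) (nat_lit 3) (.e (nat_lit 204846) (nat_lit 24) (.e (nat_lit 319491) (nat_lit 0) (.e (nat_lit 5664) (nat_lit 312) .nil))))))) (.g (nat_lit 1) (.e (nat_lit 40195) (nat_lit 0) .nil) .nil))) 
(.lf (nat_lit 455566) (.g (nat_lit 2489) (.e (nat_lit 2663) (nat_lit 167) (.e (nat_lit 196672) (nat_lit 15) (.e (nat_lit 81954) (nat_lit 23) (.e (nat_lit 98349) (nat_lit 24) (.e (nat_lit 409617) (nat_lit 10) (.e (nat_lit 5710) (nat_lit 312) .nil)))))) (.g (nat_lit 1) (.e (nat_lit 41011) (nat_lit 0) .nil) .nil)))))) (.nd (nat_lit 7) (.nd (nat_lit 8) (.nd (nat_lit 9) 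
(.lf (nat_lit 454734) (.g (nat_lit 3646) (.e (nat_lit 2648) (nat_lit 166) (.e (nat_lit 188441) (nat_lit 20) (.e (nat_lit 3409) (nat_lit 212) (.e (nat_lit 655378) (nat_lit 4) (.e (nat_lit 172115) (nat_lit 10) (.e (nat_lit 434209) (nat_lit 18) (.e (nat_lit 5546) (nat_lit 306) .nil))))))) (.g (nat_lit 1) (.e (nat_lit 36717) (nat_lit 0) .nil) .nil))) 
(.lf (nat_lit 455246) (.g (nat_lit 6235) (.e (nat_lit 2663) (nat_lit 167) (.e (nat_lit 196666) (nat_lit 13) (.e (nat_lit 65610) (nat_lit 10) (.e (nat_lit 344117) (nat_lit 21) (.e (nat_lit 516151) (nat_lit 9) (.e (nat_lit 426017) (nat_lit 0) (.e (nat_lit 7936) (nat_lit 208) (.e (nat_lit 622627) (nat_lit 13) .nil)))))))) (.g (nat_lit 1) (.e (nat_lit 40551) (nat_lit 0) .nil) .nil)))) 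
(.nd (nat_lit 9) 
(.lf (nat_lit 454990) (.g (nat_lit 2446) (.e (nat_lit 2657) (nat_lit 167) (.e (nat_lit 196672) (nat_lit 15) (.e (nat_lit 81954) (nat_lit 23) (.e (nat_lit 98349) (nat_lit 24) (.e (nat_lit 409617) (nat_lit 10) .nil))))) (.g (nat_lit 0) (.e (nat_lit 40054) (nat_lit 0) .nil) .nil))) 
(.lf (nat_lit 455502) (.g (nat_lit 3065) (.e (nat_lit 2663) (nat_lit 167) (.e (nat_lit 196670) (nat_lit 14) (.e (nat_lit 73753) (nat_lit 8) (.e (nat_lit 557105) (nat_lit 14) (.e (nat_lit 180251) (nat_lit 10) (.e (nat_lit 573475) (nat_lit 12) (.e (nat_lit 57507) (nat_lit 39) (.e (nat_lit 647176) (nat_lit 0) .nil)))))))) (.g (nat_lit 1) (.e (nat_lit 40924) (nat_lit 0) .nil) .nil))))) 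
(.nd (nat_lit 8) (.nd (nat_lit 9) 
(.lf (nat_lit 454862) (.g (nat_lit 2312) (.e (nat_lit 2651) (nat_lit 166) (.e (nat_lit 188441) (nat_lit 20) (.e (nat_lit 3469) (nat_lit 217) (.e (nat_lit 696344) (nat_lit 8) (.e (nat_lit 172113) (nat_lit 10) (.e (nat_lit 434203) (nat_lit 18) (.e (nat_lit 6255) (nat_lit 337) .nil))))))) (.g (nat_lit 1) (.e (nat_lit 38844) (nat_lit 0) .nil) .nil))) 
(.lf (nat_lit 455374) (.g (nat_lit 4531) (.e (nat_lit 2663) (nat_lit 167) (.e (nat_lit 196666) (nat_lit 13) (.e (nat_lit 65617) (nat_lit 10) (.e (nat_lit 344127) (nat_lit 26) (.e (nat_lit 557090) (nat_lit 12) (.e (nat_lit 163843) (nat_lit 0) (.e (nat_lit 6420) (nat_lit 341) (.e (nat_lit 163843) (nat_lit 0) (.e (nat_lit 7366) (nat_lit 388) .nil))))))))) (.g (nat_lit 1) (.e (nat_lit 40761) (nat_lit 0) .nil) .nil)))) 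
(.nd (nat_lit 9) 
(.lf (nat_lit 455118) (.g (nat_lit 1581) (.e (nat_lit 2663) (nat_lit 167) (.e (nat_lit 196656) (nat_lit 11) (.e (nat_lit 16436) (nat_lit 9) (.e (nat_lit 426131) (nat_lit 3) .nil)))) (.g (nat_lit 0) (.e (nat_lit 40370) (nat_lit 0) .nil) .nil))) 
(.lf (nat_lit 455630) (.g (nat_lit 3163) (.e (nat_lit 2664) (nat_lit 167) (.e (nat_lit 196666) (nat_lit 13) (.e (nat_lit 65610) (nat_lit 10) (.e (nat_lit 344117) (nat_lit 21) (.e (nat_lit 516098) (nat_lit 0) (.e (nat_lit 7581) (nat_lit 405) (.e (nat_lit 57747) (nat_lit 201) .nil))))))) (.g (nat_lit 1) (.e (nat_lit 41210) (nat_lit 0) .nil) .nil))))))) 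
(.nd (nat_lit 6) (.nd (nat_lit 7) (.nd (nat_lit 8) (.nd (nat_lit 9) 
(.lf (nat_lit 454702) (.g (nat_lit 2949) (.e (nat_lit 2648) (nat_lit 166) (.e (nat_lit 188420) (nat_lit 0) (.e (nat_lit 2174) (nat_lit 143) (.e (nat_lit 712753) (nat_lit 30) (.e (nat_lit 450564) (nat_lit 0) (.e (nat_lit 5548) (nat_lit 306) .nil)))))) (.g (nat_lit 1) (.e (nat_lit 36449) (nat_lit 0) .nil) .nil))) 
(.lf (nat_lit 455214) (.g (nat_lit 4331) (.e (nat_lit 2663) (nat_lit 167) (.e (nat_lit 196666) (nat_lit 13) (.e (nat_lit 65610) (nat_lit 10) (.e (nat_lit 344117) (nat_lit 21) (.e (nat_lit 516145) (nat_lit 9) (.e (nat_lit 426360) (nat_lit 15) (.e (nat_lit 2018) (nat_lit 139) (.e (nat_lit 679968) (nat_lit 13) .nil)))))))) (.g (nat_lit 1) (.e (nat_lit 40519) (nat_lit 0) .nil) .nil)))) 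
(.nd (nat_lit 9) 
(.lf (nat_lit 454958) (.g (nat_lit 602) (.e (nat_lit 2654) (nat_lit 167) (.e (nat_lit 196672) (nat_lit 15) (.e (nat_lit 81956) (nat_lit 23) .nil))) (.g (nat_lit 0) (.e (nat_lit 39836) (nat_lit 0) .nil) .nil))) 
(.lf (nat_lit 455470) (.g (nat_lit 3513) (.e (nat_lit 2663) (nat_lit 167) (.e (nat_lit 196668) (nat_lit 14) (.e (nat_lit 73753) (nat_lit 8) (.e (nat_lit 557103) (nat_lit 14) (.e (nat_lit 180250) (nat_lit 10) (.e (nat_lit 573475) (nat_lit 12) (.e (nat_lit 57507) (nat_lit 39) (.e (nat_lit 647176) (nat_lit 0) .nil)))))))) (.g (nat_lit 1) (.e (nat_lit 40889) (nat_lit 0) .nil) .nil))))) 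
(.nd (nat_lit 8) (.nd (nat_lit 9) 
(.lf (nat_lit 454830) (.g (nat_lit 1654) (.e (nat_lit 2651) (nat_lit 166) (.e (nat_lit 188431) (nat_lit 20) (.e (nat_lit 3399) (nat_lit 211) (.e (nat_lit 647185) (nat_lit 6) (.e (nat_lit 188454) (nat_lit 24) (.e (nat_lit 229664) (nat_lit 240) .nil)))))) (.g (nat_lit 1) (.e (nat_lit 38693) (nat_lit 0) .nil) .nil))) 
(.lf (nat_lit 455342) (.g (nat_lit 4122) (.e (nat_lit 2663) (nat_lit 167) (.e (nat_lit 196666) (nat_lit 13) (.e (nat_lit 65610) (nat_lit 10) (.e (nat_lit 344117) (nat_lit 21) (.e (nat_lit 516185) (nat_lit 16) (.e (nat_lit 491520) (nat_lit 0) (.e (nat_lit 6691) (nat_lit 357) .nil))))))) (.g (nat_lit 1) (.e (nat_lit 40668) (nat_lit 0) .nil) .nil)))) (.nd (nat_lit 9) 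
(.lf (nat_lit 455086) (.g (nat_lit 2373) (.e (nat_lit 2662) (nat_lit 167) (.e (nat_lit 196670) (nat_lit 14) (.e (nat_lit 73753) (nat_lit 8) (.e (nat_lit 557098) (nat_lit 13) (.e (nat_lit 172133) (nat_lit 15) .nil))))) (.g (nat_lit 0) (.e (nat_lit 40241) (nat_lit 0) .nil) .nil))) 
(.lf (nat_lit 455598) (.g (nat_lit 1686) (.e (nat_lit 2664) (nat_lit 167) (.e (nat_lit 196666) (nat_lit 13) (.e (nat_lit 65581) (nat_lit 7) (.e (nat_lit 319519) (nat_lit 12) (.e (nat_lit 32788) (nat_lit 10) (.e (nat_lit 73782) (nat_lit 32) .nil)))))) (.g (nat_lit 1) (.e (nat_lit 41162) (nat_lit 0) .nil) .nil)))))) (.nd (nat_lit 7) (.nd (nat_lit 8) (.nd (nat_lit 9) 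
(.lf (nat_lit 454766) (.g (nat_lit 3639) (.e (nat_lit 2650) (nat_lit 166) (.e (nat_lit 188434) (nat_lit 20) (.e (nat_lit 3409) (nat_lit 212) (.e (nat_lit 655378) (nat_lit 4) (.e (nat_lit 172115) (nat_lit 10) (.e (nat_lit 434209) (nat_lit 18) (.e (nat_lit 5547) (nat_lit 306) .nil))))))) (.g (nat_lit 1) (.e (nat_lit 37649) (nat_lit 0) .nil) .nil))) 
(.lf (nat_lit 455278) (.g (nat_lit 5298) (.e (nat_lit 2663) (nat_lit 167) (.e (nat_lit 196666) (nat_lit 13) (.e (nat_lit 65610) (nat_lit 10) (.e (nat_lit 344117) (nat_lit 21) (.e (nat_lit 516151) (nat_lit 9) (.e (nat_lit 426038) (nat_lit 0) (.e (nat_lit 3370) (nat_lit 208) (.e (nat_lit 622627) (nat_lit 13) .nil)))))))) (.g (nat_lit 1) (.e (nat_lit 40583) (nat_lit 0) .nil) .nil)))) 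
(.nd (nat_lit 9) 
(.lf (nat_lit 455022) (.g (nat_lit 4141) (.e (nat_lit 2661) (nat_lit 167) (.e (nat_lit 196666) (nat_lit 13) (.e (nat_lit 65610) (nat_lit 10) (.e (nat_lit 344117) (nat_lit 21) (.e (nat_lit 516106) (nat_lit 0) (.e (nat_lit 7095) (nat_lit 380) (.e (nat_lit 164359) (nat_lit 246) .nil))))))) (.g (nat_lit 1) (.e (nat_lit 40157) (nat_lit 0) .nil) .nil))) 
(.lf (nat_lit 455534) (.g (nat_lit 2551) (.e (nat_lit 2663) (nat_lit 167) (.e (nat_lit 196670) (nat_lit 14) (.e (nat_lit 73754) (nat_lit 8) (.e (nat_lit 557105) (nat_lit 14) (.e (nat_lit 180252) (nat_lit 10) (.e (nat_lit 573473) (nat_lit 12) (.e (nat_lit 57510) (nat_lit 39) (.e (nat_lit 647172) (nat_lit 0) .nil)))))))) (.g (nat_lit 1) (.e (nat_lit 40956) (nat_lit 0) .nil) .nil))))) 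
(.nd (nat_lit 8) (.nd (nat_lit 9) 
(.lf (nat_lit 454894) (.g (nat_lit 1333) (.e (nat_lit 2653) (nat_lit 166) (.e (nat_lit 188418) (nat_lit 0) (.e (nat_lit 2175) (nat_lit 143) (.e (nat_lit 712750) (nat_lit 29) (.e (nat_lit 442430) (nat_lit 24) (.e (nat_lit 229666) (nat_lit 240) .nil)))))) (.g (nat_lit 1) (.e (nat_lit 39210) (nat_lit 0) .nil) .nil))) 
(.lf (nat_lit 455406) (.g (nat_lit 2484) (.e (nat_lit 2663) (nat_lit 167) (.e (nat_lit 196666) (nat_lit 13) (.e (nat_lit 65617) (nat_lit 10) (.e (nat_lit 344130) (nat_lit 26) (.e (nat_lit 557087) (nat_lit 11) (.e (nat_lit 32512) (nat_lit 0) (.e (nat_lit 6692) (nat_lit 357) .nil))))))) (.g (nat_lit 1) (.e (nat_lit 40796) (nat_lit 0) .nil) .nil)))) (.nd (nat_lit 9) 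
(.lf (nat_lit 455150) (.g (nat_lit 3001) (.e (nat_lit 2663) (nat_lit 167) (.e (nat_lit 196666) (nat_lit 13) (.e (nat_lit 65610) (nat_lit 10) (.e (nat_lit 344117) (nat_lit 21) (.e (nat_lit 516106) (nat_lit 0) .nil))))) (.g (nat_lit 0) (.e (nat_lit 40455) (nat_lit 0) .nil) .nil))) 
(.lf (nat_lit 455662) (.g (nat_lit 5150) (.e (nat_lit 2664) (nat_lit 167) (.e (nat_lit 196666) (nat_lit 13) (.e (nat_lit 65610) (nat_lit 10) (.e (nat_lit 344117) (nat_lit 21) (.e (nat_lit 516139) (nat_lit 7) (.e (nat_lit 409617) (nat_lit 10) (.e (nat_lit 5710) (nat_lit 312) .nil))))))) (.g (nat_lit 1) (.e (nat_lit 41242) (nat_lit 0) .nil) .nil)))))))) 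
(.nd (nat_lit 5) (.nd (nat_lit 6) (.nd (nat_lit 7) (.nd (nat_lit 8) (.nd (nat_lit 9) 
(.lf (nat_lit 454686) (.g (nat_lit 2199) (.e (nat_lit 2648) (nat_lit 166) (.e (nat_lit 188420) (nat_lit 0) (.e (nat_lit 2056) (nat_lit 142) (.e (nat_lit 704598) (nat_lit 6) (.e (nat_lit 188444) (nat_lit 21) (.e (nat_lit 164347) (nat_lit 240) .nil)))))) (.g (nat_lit 1) (.e (nat_lit 36431) (nat_lit 0) .nil) .nil))) 
(.lf (nat_lit 455198) (.g (nat_lit 4508) (.e (nat_lit 2663) (nat_lit 167) (.e (nat_lit 196666) (nat_lit 13) (.e (nat_lit 65610) (nat_lit 10) (.e (nat_lit 344117) (nat_lit 21) (.e (nat_lit 516145) (nat_lit 9) (.e (nat_lit 426085) (nat_lit 0) (.e (nat_lit 3366) (nat_lit 208) (.e (nat_lit 622627) (nat_lit 13) .nil)))))))) (.g (nat_lit 1) (.e (nat_lit 40503) (nat_lit 0) .nil) .nil)))) 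
(.nd (nat_lit 9) 
(.lf (nat_lit 454942) (.g (nat_lit 2215) (.e (nat_lit 2654) (nat_lit 167) (.e (nat_lit 196672) (nat_lit 15) (.e (nat_lit 81954) (nat_lit 23) (.e (nat_lit 98320) (nat_lit 17) (.e (nat_lit 7110) (nat_lit 380) (.e (nat_lit 164359) (nat_lit 246) .nil)))))) (.g (nat_lit 1) (.e (nat_lit 39819) (nat_lit 0) .nil) .nil))) 
(.lf (nat_lit 455454) (.g (nat_lit 1983) (.e (nat_lit 2663) (nat_lit 167) (.e (nat_lit 196666) (nat_lit 13) (.e (nat_lit 65630) (nat_lit 14) (.e (nat_lit 401425) (nat_lit 2) (.e (nat_lit 196666) (nat_lit 13) .nil))))) (.g (nat_lit 0) (.e (nat_lit 40863) (nat_lit 0) .nil) .nil))))) (.nd (nat_lit 8) (.nd (nat_lit 9) 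
(.lf (nat_lit 454814) (.g (nat_lit 3311) (.e (nat_lit 2651) (nat_lit 166) (.e (nat_lit 188420) (nat_lit 0) (.e (nat_lit 2175) (nat_lit 143) (.e (nat_lit 712752) (nat_lit 29) (.e (nat_lit 442430) (nat_lit 24) (.e (nat_lit 229665) (nat_lit 240) .nil)))))) (.g (nat_lit 1) (.e (nat_lit 38603) (nat_lit 0) .nil) .nil))) 
(.lf (nat_lit 455326) (.g (nat_lit 3831) (.e (nat_lit 2663) (nat_lit 167) (.e (nat_lit 196666) (nat_lit 13) (.e (nat_lit 65610) (nat_lit 10) (.e (nat_lit 344117) (nat_lit 21) (.e (nat_lit 516160) (nat_lit 10) (.e (nat_lit 434203) (nat_lit 18) (.e (nat_lit 4778) (nat_lit 281) (.e (nat_lit 2454) (nat_lit 157) .nil)))))))) (.g (nat_lit 1) (.e (nat_lit 40631) (nat_lit 0) .nil) .nil)))) 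
(.nd (nat_lit 9) 
(.lf (nat_lit 455070) (.g (nat_lit 1691) (.e (nat_lit 2661) (nat_lit 167) (.e (nat_lit 196673) (nat_lit 15) (.e (nat_lit 81956) (nat_lit 23) (.e (nat_lit 98352) (nat_lit 25) .nil)))) (.g (nat_lit 0) (.e (nat_lit 40223) (nat_lit 0) .nil) .nil))) 
(.lf (nat_lit 455582) (.g (nat_lit 3136) (.e (nat_lit 2663) (nat_lit 167) (.e (nat_lit 196674) (nat_lit 15) (.e (nat_lit 81922) (nat_lit 0) (.e (nat_lit 3305) (nat_lit 202) (.e (nat_lit 573487) (nat_lit 14) (.e (nat_lit 73781) (nat_lit 32) .nil)))))) (.g (nat_lit 1) (.e (nat_lit 41035) (nat_lit 0) .nil) .nil)))))) (.nd (nat_lit 7) (.nd (nat_lit 8) (.nd (nat_lit 9) 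
(.lf (nat_lit 454750) (.g (nat_lit 1244) (.e (nat_lit 2649) (nat_lit 166) (.e (nat_lit 188449) (nat_lit 22) (.e (nat_lit 196609) (nat_lit 0) .nil))) (.g (nat_lit 0) (.e (nat_lit 37172) (nat_lit 0) .nil) .nil))) 
(.lf (nat_lit 455262) (.g (nat_lit 5348) (.e (nat_lit 2663) (nat_lit 167) (.e (nat_lit 196666) (nat_lit 13) (.e (nat_lit 65610) (nat_lit 10) (.e (nat_lit 344117) (nat_lit 21) (.e (nat_lit 516151) (nat_lit 9) (.e (nat_lit 426022) (nat_lit 0) (.e (nat_lit 7936) (nat_lit 208) (.e (nat_lit 622627) (nat_lit 13) .nil)))))))) (.g (nat_lit 1) (.e (nat_lit 40567) (nat_lit 0) .nil) .nil)))) 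
(.nd (nat_lit 9) 
(.lf (nat_lit 455006) (.g (nat_lit 868) (.e (nat_lit 2661) (nat_lit 167) (.e (nat_lit 196666) (nat_lit 13) (.e (nat_lit 65592) (nat_lit 9) .nil))) (.g (nat_lit 0) (.e (nat_lit 40136) (nat_lit 0) .nil) .nil))) 
(.lf (nat_lit 455518) (.g (nat_lit 4011) (.e (nat_lit 2663) (nat_lit 167) (.e (nat_lit 196670) (nat_lit 14) (.e (nat_lit 73753) (nat_lit 8) (.e (nat_lit 557105) (nat_lit 14) (.e (nat_lit 180252) (nat_lit 10) (.e (nat_lit 573475) (nat_lit 12) (.e (nat_lit 57506) (nat_lit 39) (.e (nat_lit 647176) (nat_lit 0) .nil)))))))) (.g (nat_lit 1) (.e (nat_lit 40940) (nat_lit 0) .nil) .nil))))) 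
(.nd (nat_lit 8) (.nd (nat_lit 9) 
(.lf (nat_lit 454878) (.g (nat_lit 3148) (.e (nat_lit 2653) (nat_lit 166) (.e (nat_lit 188418) (nat_lit 0) (.e (nat_lit 2058) (nat_lit 142) (.e (nat_lit 704598) (nat_lit 6) (.e (nat_lit 188453) (nat_lit 24) (.e (nat_lit 229663) (nat_lit 240) .nil)))))) (.g (nat_lit 1) (.e (nat_lit 39193) (nat_lit 0) .nil) .nil))) 
(.lf (nat_lit 455390) (.g (nat_lit 2848) (.e (nat_lit 2663) (nat_lit 167) (.e (nat_lit 196666) (nat_lit 13) (.e (nat_lit 65617) (nat_lit 10) (.e (nat_lit 344130) (nat_lit 26) (.e (nat_lit 557087) (nat_lit 11) (.e (nat_lit 24577) (nat_lit 0) (.e (nat_lit 6691) (nat_lit 357) .nil))))))) (.g (nat_lit 1) (.e (nat_lit 40779) (nat_lit 0) .nil) .nil)))) (.nd (nat_lit 9) 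
(.lf (nat_lit 455134) (.g (nat_lit 4264) (.e (nat_lit 2663) (nat_lit 167) (.e (nat_lit 196666) (nat_lit 13) (.e (nat_lit 65610) (nat_lit 10) (.e (nat_lit 344117) (nat_lit 21) (.e (nat_lit 516097) (nat_lit 0) (.e (nat_lit 7583) (nat_lit 405) (.e (nat_lit 57746) (nat_lit 201) .nil))))))) (.g (nat_lit 1) (.e (nat_lit 40439) (nat_lit 0) .nil) .nil))) 
(.lf (nat_lit 455646) (.g (nat_lit 2681) (.e (nat_lit 2664) (nat_lit 167) (.e (nat_lit 196666) (nat_lit 13) (.e (nat_lit 65610) (nat_lit 10) (.e (nat_lit 344117) (nat_lit 21) (.e (nat_lit 516106) (nat_lit 0) (.e (nat_lit 6986) (nat_lit 377) (.e (nat_lit 2527) (nat_lit 157) (.e (nat_lit 5688) (nat_lit 312) .nil)))))))) (.g (nat_lit 1) (.e (nat_lit 41226) (nat_lit 0) .nil) .nil))))))) 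
(.nd (nat_lit 6) (.nd (nat_lit 7) (.nd (nat_lit 8) (.nd (nat_lit 9) 
(.lf (nat_lit 454718) (.g (nat_lit 336) (.e (nat_lit 2648) (nat_lit 166) (.e (nat_lit 188431) (nat_lit 20) (.e (nat_lit 3399) (nat_lit 211) .nil))) (.g (nat_lit 0) (.e (nat_lit 36498) (nat_lit 0) .nil) .nil))) 
(.lf (nat_lit 455230) (.g (nat_lit 3468) (.e (nat_lit 2663) (nat_lit 167) (.e (nat_lit 196666) (nat_lit 13) (.e (nat_lit 65610) (nat_lit 10) (.e (nat_lit 344117) (nat_lit 21) (.e (nat_lit 516145) (nat_lit 9) (.e (nat_lit 426399) (nat_lit 15) (.e (nat_lit 2018) (nat_lit 139) (.e (nat_lit 679968) (nat_lit 13) .nil)))))))) (.g (nat_lit 1) (.e (nat_lit 40535) (nat_lit 0) .nil) .nil)))) 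
(.nd (nat_lit 9) 
(.lf (nat_lit 454974) (.g (nat_lit 2808) (.e (nat_lit 2656) (nat_lit 167) (.e (nat_lit 196673) (nat_lit 15) (.e (nat_lit 81956) (nat_lit 23) (.e (nat_lit 98350) (nat_lit 24) .nil)))) (.g (nat_lit 0) (.e (nat_lit 39941) (nat_lit 0) .nil) .nil))) 
(.lf (nat_lit 455486) (.g (nat_lit 3202) (.e (nat_lit 2663) (nat_lit 167) (.e (nat_lit 196670) (nat_lit 14) (.e (nat_lit 73753) (nat_lit 8) (.e (nat_lit 557103) (nat_lit 14) (.e (nat_lit 180243) (nat_lit 5) (.e (nat_lit 532504) (nat_lit 1) (.e (nat_lit 57703) (nat_lit 164) (.e (nat_lit 2477) (nat_lit 157) .nil)))))))) (.g (nat_lit 1) (.e (nat_lit 40908) (nat_lit 0) .nil) .nil))))) 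
(.nd (nat_lit 8) (.nd (nat_lit 9) 
(.lf (nat_lit 454846) (.g (nat_lit 2951) (.e (nat_lit 2651) (nat_lit 166) (.e (nat_lit 188439) (nat_lit 20) (.e (nat_lit 3409) (nat_lit 212) (.e (nat_lit 655380) (nat_lit 6) (.e (nat_lit 188453) (nat_lit 24) (.e (nat_lit 229664) (nat_lit 240) .nil)))))) (.g (nat_lit 1) (.e (nat_lit 38790) (nat_lit 0) .nil) .nil))) 
(.lf (nat_lit 455358) (.g (nat_lit 3556) (.e (nat_lit 2663) (nat_lit 167) (.e (nat_lit 196666) (nat_lit 13) (.e (nat_lit 65610) (nat_lit 10) (.e (nat_lit 344129) (nat_lit 26) (.e (nat_lit 557087) (nat_lit 11) (.e (nat_lit 24584) (nat_lit 0) (.e (nat_lit 6679) (nat_lit 357) .nil))))))) (.g (nat_lit 1) (.e (nat_lit 40696) (nat_lit 0) .nil) .nil)))) (.nd (nat_lit 9) 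
(.lf (nat_lit 455102) (.g (nat_lit 3641) (.e (nat_lit 2663) (nat_lit 167) (.e (nat_lit 196654) (nat_lit 11) (.e (nat_lit 16436) (nat_lit 9) (.e (nat_lit 426131) (nat_lit 3) (.e (nat_lit 204880) (nat_lit 32) (.e (nat_lit 385094) (nat_lit 49) (.e (nat_lit 778445) (nat_lit 9) .nil))))))) (.g (nat_lit 1) (.e (nat_lit 40299) (nat_lit 0) .nil) .nil))) 
(.lf (nat_lit 455614) (.g (nat_lit 1878) (.e (nat_lit 2664) (nat_lit 167) (.e (nat_lit 196666) (nat_lit 13) (.e (nat_lit 65610) (nat_lit 10) (.e (nat_lit 344090) (nat_lit 18) .nil)))) (.g (nat_lit 0) (.e (nat_lit 41181) (nat_lit 0) .nil) .nil)))))) (.nd (nat_lit 7) (.nd (nat_lit 8) (.nd (nat_lit 9) 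
(.lf (nat_lit 454782) (.g (nat_lit 2066) (.e (nat_lit 2650) (nat_lit 166) (.e (nat_lit 188455) (nat_lit 24) (.e (nat_lit 229632) (nat_lit 226) (.e (nat_lit 1221) (nat_lit 90) (.e (nat_lit 81959) (nat_lit 24) (.e (nat_lit 130816) (nat_lit 250) .nil)))))) (.g (nat_lit 1) (.e (nat_lit 38070) (nat_lit 0) .nil) .nil))) 
(.lf (nat_lit 455294) (.g (nat_lit 5112) (.e (nat_lit 2663) (nat_lit 167) (.e (nat_lit 196666) (nat_lit 13) (.e (nat_lit 65610) (nat_lit 10) (.e (nat_lit 344117) (nat_lit 21) (.e (nat_lit 516151) (nat_lit 9) (.e (nat_lit 426042) (nat_lit 0) (.e (nat_lit 3366) (nat_lit 208) (.e (nat_lit 622627) (nat_lit 13) .nil)))))))) (.g (nat_lit 1) (.e (nat_lit 40599) (nat_lit 0) .nil) .nil)))) 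
(.nd (nat_lit 9) 
(.lf (nat_lit 455038) (.g (nat_lit 1915) (.e (nat_lit 2661) (nat_lit 167) (.e (nat_lit 196666) (nat_lit 13) (.e (nat_lit 65610) (nat_lit 10) (.e (nat_lit 344118) (nat_lit 21) .nil)))) (.g (nat_lit 0) (.e (nat_lit 40173) (nat_lit 0) .nil) .nil))) 
(.lf (nat_lit 455550) (.g (nat_lit 3623) (.e (nat_lit 2663) (nat_lit 167) (.e (nat_lit 196670) (nat_lit 14) (.e (nat_lit 73754) (nat_lit 8) (.e (nat_lit 557105) (nat_lit 14) (.e (nat_lit 180252) (nat_lit 10) (.e (nat_lit 573475) (nat_lit 12) (.e (nat_lit 57508) (nat_lit 39) (.e (nat_lit 647175) (nat_lit 0) .nil)))))))) (.g (nat_lit 1) (.e (nat_lit 40972) (nat_lit 0) .nil) .nil))))) 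
(.nd (nat_lit 8) (.nd (nat_lit 9) 
(.lf (nat_lit 454910) (.g (nat_lit 504) (.e (nat_lit 2653) (nat_lit 166) (.e (nat_lit 188441) (nat_lit 20) (.e (nat_lit 3406) (nat_lit 212) .nil))) (.g (nat_lit 0) (.e (nat_lit 39325) (nat_lit 0) .nil) .nil))) 
(.lf (nat_lit 455422) (.g (nat_lit 2088) (.e (nat_lit 2663) (nat_lit 167) (.e (nat_lit 196666) (nat_lit 13) (.e (nat_lit 65617) (nat_lit 10) (.e (nat_lit 344133) (nat_lit 26) (.e (nat_lit 557073) (nat_lit 9) .nil))))) (.g (nat_lit 0) (.e (nat_lit 40815) (nat_lit 0) .nil) .nil)))) (.nd (nat_lit 9) 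
(.lf (nat_lit 455166) (.g (nat_lit 4940) (.e (nat_lit 2663) (nat_lit 167) (.e (nat_lit 196666) (nat_lit 13) (.e (nat_lit 65610) (nat_lit 10) (.e (nat_lit 344117) (nat_lit 21) (.e (nat_lit 516139) (nat_lit 7) (.e (nat_lit 409610) (nat_lit 10) (.e (nat_lit 5738) (nat_lit 312) .nil))))))) (.g (nat_lit 1) (.e (nat_lit 40471) (nat_lit 0) .nil) .nil))) 
(.lf (nat_lit 455678) (.g (nat_lit 2808) (.e (nat_lit 2664) (nat_lit 167) (.e (nat_lit 196666) (nat_lit 13) (.e (nat_lit 65610) (nat_lit 10) (.e (nat_lit 344117) (nat_lit 21) (.e (nat_lit 516159) (nat_lit 10) (.e (nat_lit 434202) (nat_lit 18) (.e (nat_lit 4758) (nat_lit 281) (.e (nat_lit 2517) (nat_lit 157) .nil)))))))) (.g (nat_lit 1) (.e (nat_lit 41259) (nat_lit 0) .nil) .nil)))))))))))) 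
(.nd (nat_lit 1) (.nd (nat_lit 2) (.nd (nat_lit 3) (.nd (nat_lit 4) (.nd (nat_lit 5) 
(.nd (nat_lit 6) (.nd (nat_lit 7) (.nd (nat_lit 8) (.nd (nat_lit 9) 
(.lf (nat_lit 454657) (.g (nat_lit 3423) (.e (nat_lit 2646) (nat_lit 166) (.e (nat_lit 188441) (nat_lit 20) (.e (nat_lit 3469) (nat_lit 217) (.e (nat_lit 696344) (nat_lit 8) (.e (nat_lit 172106) (nat_lit 10) (.e (nat_lit 434209) (nat_lit 18) (.e (nat_lit 6273) (nat_lit 337) .nil))))))) (.g (nat_lit 1) (.e (nat_lit 35939) (nat_lit 0) .nil) .nil))) 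
(.lf (nat_lit 455169) (.g (nat_lit 5561) (.e (nat_lit 2663) (nat_lit 167) (.e (nat_lit 196666) (nat_lit 13) (.e (nat_lit 65610) (nat_lit 10) (.e (nat_lit 344117) (nat_lit 21) (.e (nat_lit 516139) (nat_lit 7) (.e (nat_lit 409617) (nat_lit 10) (.e (nat_lit 5710) (nat_lit 312) .nil))))))) (.g (nat_lit 1) (.e (nat_lit 40474) (nat_lit 0) .nil) .nil)))) (.nd (nat_lit 9) 
(.lf (nat_lit 454913) (.g (nat_lit 2410) (.e (nat_lit 2653) (nat_lit 166) (.e (nat_lit 188441) (nat_lit 20) (.e (nat_lit 3409) (nat_lit 212) (.e (nat_lit 655380) (nat_lit 6) (.e (nat_lit 188455) (nat_lit 24) (.e (nat_lit 229666) (nat_lit 240) .nil)))))) (.g (nat_lit 1) (.e (nat_lit 39346) (nat_lit 0) .nil) .nil))) 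
(.lf (nat_lit 455425) (.g (nat_lit 3813) (.e (nat_lit 2663) (nat_lit 167) (.e (nat_lit 196666) (nat_lit 13) (.e (nat_lit 65617) (nat_lit 10) (.e (nat_lit 344133) (nat_lit 26) (.e (nat_lit 557086) (nat_lit 11) (.e (nat_lit 24577) (nat_lit 0) (.e (nat_lit 6692) (nat_lit 357) .nil))))))) (.g (nat_lit 1) (.e (nat_lit 40818) (nat_lit 0) .nil) .nil))))) (.nd (nat_lit 8) (.nd (nat_lit 9) 
(.lf (nat_lit 454785) (.g (nat_lit 2110) (.e (nat_lit 2651) (nat_lit 166) (.e (nat_lit 188417) (nat_lit 0) (.e (nat_lit 2147) (nat_lit 142) (.e (nat_lit 704597) (nat_lit 6) (.e (nat_lit 188453) (nat_lit 24) (.e (nat_lit 229666) (nat_lit 240) .nil)))))) (.g (nat_lit 1) (.e (nat_lit 38571) (nat_lit 0) .nil) .nil))) 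
(.lf (nat_lit 455297) (.g (nat_lit 3749) (.e (nat_lit 2663) (nat_lit 167) (.e (nat_lit 196666) (nat_lit 13) (.e (nat_lit 65610) (nat_lit 10) (.e (nat_lit 344117) (nat_lit 21) (.e (nat_lit 516151) (nat_lit 9) (.e (nat_lit 426042) (nat_lit 0) (.e (nat_lit 3371) (nat_lit 208) (.e (nat_lit 622627) (nat_lit 13) .nil)))))))) (.g (nat_lit 1) (.e (nat_lit 40602) (nat_lit 0) .nil) .nil)))) 
(.nd (nat_lit 9) 
(.lf (nat_lit 455041) (.g (nat_lit 4649) (.e (nat_lit 2661) (nat_lit 167) (.e (nat_lit 196666) (nat_lit 13) (.e (nat_lit 65610) (nat_lit 10) (.e (nat_lit 344129) (nat_lit 26) (.e (nat_lit 557067) (nat_lit 9) (.e (nat_lit 22) (nat_lit 0) (.e (nat_lit 6236) (nat_lit 335) (.e (nat_lit 164359) (nat_lit 246) .nil)))))))) (.g (nat_lit 1) (.e (nat_lit 40179) (nat_lit 0) .nil) .nil))) 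
(.lf (nat_lit 455553) (.g (nat_lit 2711) (.e (nat_lit 2663) (nat_lit 167) (.e (nat_lit 196670) (nat_lit 14) (.e (nat_lit 73755) (nat_lit 8) (.e (nat_lit 557105) (nat_lit 14) (.e (nat_lit 180252) (nat_lit 10) .nil))))) (.g (nat_lit 0) (.e (nat_lit 40975) (nat_lit 0) .nil) .nil)))))) (.nd (nat_lit 7) (.nd (nat_lit 8) (.nd (nat_lit 9) 
(.lf (nat_lit 454721) (.g (nat_lit 2372) (.e (nat_lit 2648) (nat_lit 166) (.e (nat_lit 188431) (nat_lit 20) (.e (nat_lit 3399) (nat_lit 211) (.e (nat_lit 647185) (nat_lit 6) (.e (nat_lit 188444) (nat_lit 21) (.e (nat_lit 164348) (nat_lit 240) .nil)))))) (.g (nat_lit 1) (.e (nat_lit 36506) (nat_lit 0) .nil) .nil))) 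
(.lf (nat_lit 455233) (.g (nat_lit 3326) (.e (nat_lit 2663) (nat_lit 167) (.e (nat_lit 196666) (nat_lit 13) (.e (nat_lit 65610) (nat_lit 10) (.e (nat_lit 344117) (nat_lit 21) (.e (nat_lit 516151) (nat_lit 9) (.e (nat_lit 426003) (nat_lit 0) (.e (nat_lit 3366) (nat_lit 208) (.e (nat_lit 622620) (nat_lit 13) .nil)))))))) (.g (nat_lit 1) (.e (nat_lit 40538) (nat_lit 0) .nil) .nil)))) 
(.nd (nat_lit 9) 
(.lf (nat_lit 454977) (.g (nat_lit 2909) (.e (nat_lit 2657) (nat_lit 167) (.e (nat_lit 196668) (nat_lit 14) (.e (nat_lit 73753) (nat_lit 8) (.e (nat_lit 557105) (nat_lit 14) (.e (nat_lit 180252) (nat_lit 10) (.e (nat_lit 573473) (nat_lit 12) (.e (nat_lit 57507) (nat_lit 39) (.e (nat_lit 655104) (nat_lit 0) .nil)))))))) (.g (nat_lit 1) (.e (nat_lit 39959) (nat_lit 0) .nil) .nil))) 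
(.lf (nat_lit 455489) (.g (nat_lit 2444) (.e (nat_lit 2663) (nat_lit 167) (.e (nat_lit 196670) (nat_lit 14) (.e (nat_lit 73753) (nat_lit 8) (.e (nat_lit 557103) (nat_lit 14) (.e (nat_lit 180250) (nat_lit 10) (.e (nat_lit 573473) (nat_lit 12) (.e (nat_lit 57506) (nat_lit 39) (.e (nat_lit 647176) (nat_lit 0) .nil)))))))) (.g (nat_lit 1) (.e (nat_lit 40911) (nat_lit 0) .nil) .nil))))) 
(.nd (nat_lit 8) (.nd (nat_lit 9) 
(.lf (nat_lit 454849) (.g (nat_lit 1708) (.e (nat_lit 2651) (nat_lit 166) (.e (nat_lit 188439) (nat_lit 20) (.e (nat_lit 3409) (nat_lit 212) (.e (nat_lit 655380) (nat_lit 6) (.e (nat_lit 188454) (nat_lit 24) (.e (nat_lit 229664) (nat_lit 240) .nil)))))) (.g (nat_lit 1) (.e (nat_lit 38793) (nat_lit 0) .nil) .nil))) 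
(.lf (nat_lit 455361) (.g (nat_lit 3417) (.e (nat_lit 2663) (nat_lit 167) (.e (nat_lit 196666) (nat_lit 13) (.e (nat_lit 65610) (nat_lit 10) (.e (nat_lit 344129) (nat_lit 26) (.e (nat_lit 557087) (nat_lit 11) (.e (nat_lit 24588) (nat_lit 0) (.e (nat_lit 6680) (nat_lit 357) .nil))))))) (.g (nat_lit 1) (.e (nat_lit 40699) (nat_lit 0) .nil) .nil)))) (.nd (nat_lit 9) 
(.lf (nat_lit 455105) (.g (nat_lit 3372) (.e (nat_lit 2663) (nat_lit 167) (.e (nat_lit 196654) (nat_lit 11) (.e (nat_lit 16436) (nat_lit 9) (.e (nat_lit 426131) (nat_lit 3) (.e (nat_lit 204880) (nat_lit 32) (.e (nat_lit 385096) (nat_lit 49) (.e (nat_lit 778384) (nat_lit 9) .nil))))))) (.g (nat_lit 1) (.e (nat_lit 40302) (nat_lit 0) .nil) .nil))) 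
(.lf (nat_lit 455617) (.g (nat_lit 2943) (.e (nat_lit 2664) (nat_lit 167) (.e (nat_lit 196666) (nat_lit 13) (.e (nat_lit 65610) (nat_lit 10) (.e (nat_lit 344117) (nat_lit 21) (.e (nat_lit 516096) (nat_lit 0) (.e (nat_lit 7107) (nat_lit 380) (.e (nat_lit 164366) (nat_lit 246) .nil))))))) (.g (nat_lit 1) (.e (nat_lit 41197) (nat_lit 0) .nil) .nil))))))) 
(.nd (nat_lit 6) (.nd (nat_lit 7) (.nd (nat_lit 8) (.nd (nat_lit 9) 
(.lf (nat_lit 454689) (.g (nat_lit 1820) (.e (nat_lit 2648) (nat_lit 166) (.e (nat_lit 188420) (nat_lit 0) (.e (nat_lit 2058) (nat_lit 142) (.e (nat_lit 704598) (nat_lit 6) (.e (nat_lit 188444) (nat_lit 21) (.e (nat_lit 164346) (nat_lit 240) .nil)))))) (.g (nat_lit 1) (.e (nat_lit 36436) (nat_lit 0) .nil) .nil))) 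
(.lf (nat_lit 455201) (.g (nat_lit 3770) (.e (nat_lit 2663) (nat_lit 167) (.e (nat_lit 196666) (nat_lit 13) (.e (nat_lit 65610) (nat_lit 10) (.e (nat_lit 344117) (nat_lit 21) (.e (nat_lit 516145) (nat_lit 9) (.e (nat_lit 426354) (nat_lit 15) (.e (nat_lit 2017) (nat_lit 139) (.e (nat_lit 679968) (nat_lit 13) .nil)))))))) (.g (nat_lit 1) (.e (nat_lit 40506) (nat_lit 0) .nil) .nil)))) 
(.nd (nat_lit 9) 
(.lf (nat_lit 454945) (.g (nat_lit 2302) (.e (nat_lit 2654) (nat_lit 167) (.e (nat_lit 196672) (nat_lit 15) (.e (nat_lit 81954) (nat_lit 23) (.e (nat_lit 98323) (nat_lit 17) (.e (nat_lit 7114) (nat_lit 381) (.e (nat_lit 229685) (nat_lit 246) .nil)))))) (.g (nat_lit 1) (.e (nat_lit 39822) (nat_lit 0) .nil) .nil))) 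
(.lf (nat_lit 455457) (.g (nat_lit 3199) (.e (nat_lit 2663) (nat_lit 167) (.e (nat_lit 196666) (nat_lit 13) (.e (nat_lit 65630) (nat_lit 14) (.e (nat_lit 401425) (nat_lit 2) (.e (nat_lit 196669) (nat_lit 14) .nil))))) (.g (nat_lit 0) (.e (nat_lit 40866) (nat_lit 0) .nil) .nil))))) (.nd (nat_lit 8) (.nd (nat_lit 9) 
(.lf (nat_lit 454817) (.g (nat_lit 2506) (.e (nat_lit 2651) (nat_lit 166) (.e (nat_lit 188420) (nat_lit 0) (.e (nat_lit 2175) (nat_lit 143) (.e (nat_lit 712753) (nat_lit 30) (.e (nat_lit 450569) (nat_lit 0) (.e (nat_lit 5448) (nat_lit 306) .nil)))))) (.g (nat_lit 1) (.e (nat_lit 38606) (nat_lit 0) .nil) .nil))) 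
(.lf (nat_lit 455329) (.g (nat_lit 3940) (.e (nat_lit 2663) (nat_lit 167) (.e (nat_lit 196666) (nat_lit 13) (.e (nat_lit 65610) (nat_lit 10) (.e (nat_lit 344117) (nat_lit 21) (.e (nat_lit 516160) (nat_lit 10) (.e (nat_lit 434208) (nat_lit 18) (.e (nat_lit 4751) (nat_lit 281) (.e (nat_lit 2516) (nat_lit 157) .nil)))))))) (.g (nat_lit 1) (.e (nat_lit 40634) (nat_lit 0) .nil) .nil)))) 
(.nd (nat_lit 9) 
(.lf (nat_lit 455073) (.g (nat_lit 1759) (.e (nat_lit 2661) (nat_lit 167) (.e (nat_lit 196674) (nat_lit 15) (.e (nat_lit 81922) (nat_lit 0) (.e (nat_lit 3305) (nat_lit 202) (.e (nat_lit 573489) (nat_lit 14) (.e (nat_lit 81664) (nat_lit 32) .nil)))))) (.g (nat_lit 1) (.e (nat_lit 40227) (nat_lit 0) .nil) .nil))) 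
(.lf (nat_lit 455585) (.g (nat_lit 3091) (.e (nat_lit 2663) (nat_lit 167) (.e (nat_lit 196674) (nat_lit 15) (.e (nat_lit 81922) (nat_lit 0) (.e (nat_lit 3305) (nat_lit 202) (.e (nat_lit 573488) (nat_lit 14) (.e (nat_lit 73782) (nat_lit 32) .nil)))))) (.g (nat_lit 1) (.e (nat_lit 41038) (nat_lit 0) .nil) .nil)))))) (.nd (nat_lit 7) (.nd (nat_lit 8) (.nd (nat_lit 9) 
(.lf (nat_lit 454753) (.g (nat_lit 777) (.e (nat_lit 2649) (nat_lit 166) (.e (nat_lit 188455) (nat_lit 24) (.e (nat_lit 229519) (nat_lit 125) .nil))) (.g (nat_lit 0) (.e (nat_lit 37397) (nat_lit 0) .nil) .nil))) 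
(.lf (nat_lit 455265) (.g (nat_lit 3286) (.e (nat_lit 2663) (nat_lit 167) (.e (nat_lit 196666) (nat_lit 13) (.e (nat_lit 65610) (nat_lit 10) (.e (nat_lit 344117) (nat_lit 21) (.e (nat_lit 516151) (nat_lit 9) (.e (nat_lit 426026) (nat_lit 0) (.e (nat_lit 3367) (nat_lit 208) (.e (nat_lit 622626) (nat_lit 13) .nil)))))))) (.g (nat_lit 1) (.e (nat_lit 40570) (nat_lit 0) .nil) .nil)))) 
(.nd (nat_lit 9) 
(.lf (nat_lit 455009) (.g (nat_lit 4596) (.e (nat_lit 2661) (nat_lit 167) (.e (nat_lit 196666) (nat_lit 13) (.e (nat_lit 65610) (nat_lit 10) (.e (nat_lit 344117) (nat_lit 21) (.e (nat_lit 516098) (nat_lit 0) (.e (nat_lit 7109) (nat_lit 380) (.e (nat_lit 164359) (nat_lit 246) .nil))))))) (.g (nat_lit 1) (.e (nat_lit 40144) (nat_lit 0) .nil) .nil))) 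
(.lf (nat_lit 455521) (.g (nat_lit 2346) (.e (nat_lit 2663) (nat_lit 167) (.e (nat_lit 196670) (nat_lit 14) (.e (nat_lit 73753) (nat_lit 8) (.e (nat_lit 557105) (nat_lit 14) (.e (nat_lit 180252) (nat_lit 10) (.e (nat_lit 573475) (nat_lit 12) (.e (nat_lit 57509) (nat_lit 39) (.e (nat_lit 647172) (nat_lit 0) .nil)))))))) (.g (nat_lit 1) (.e (nat_lit 40943) (nat_lit 0) .nil) .nil))))) 
(.nd (nat_lit 8) (.nd (nat_lit 9) 
(.lf (nat_lit 454881) (.g (nat_lit 2317) (.e (nat_lit 2653) (nat_lit 166) (.e (nat_lit 188418) (nat_lit 0) (.e (nat_lit 2058) (nat_lit 142) (.e (nat_lit 704598) (nat_lit 6) (.e (nat_lit 188455) (nat_lit 24) (.e (nat_lit 229665) (nat_lit 240) .nil)))))) (.g (nat_lit 1) (.e (nat_lit 39196) (nat_lit 0) .nil) .nil))) 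
(.lf (nat_lit 455393) (.g (nat_lit 4201) (.e (nat_lit 2663) (nat_lit 167) (.e (nat_lit 196666) (nat_lit 13) (.e (nat_lit 65617) (nat_lit 10) (.e (nat_lit 344130) (nat_lit 26) (.e (nat_lit 557087) (nat_lit 11) (.e (nat_lit 24580) (nat_lit 0) (.e (nat_lit 6696) (nat_lit 357) .nil))))))) (.g (nat_lit 1) (.e (nat_lit 40782) (nat_lit 0) .nil) .nil)))) (.nd (nat_lit 9) 
(.lf (nat_lit 455137) (.g (nat_lit 3553) (.e (nat_lit 2663) (nat_lit 167) (.e (nat_lit 196666) (nat_lit 13) (.e (nat_lit 65610) (nat_lit 10) (.e (nat_lit 344117) (nat_lit 21) (.e (nat_lit 516098) (nat_lit 0) .nil))))) (.g (nat_lit 0) (.e (nat_lit 40442) (nat_lit 0) .nil) .nil))) 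
(.lf (nat_lit 455649) (.g (nat_lit 2498) (.e (nat_lit 2664) (nat_lit 167) (.e (nat_lit 196666) (nat_lit 13) (.e (nat_lit 65610) (nat_lit 10) (.e (nat_lit 344117) (nat_lit 21) (.e (nat_lit 516106) (nat_lit 0) (.e (nat_lit 7008) (nat_lit 377) (.e (nat_lit 2423) (nat_lit 157) (.e (nat_lit 5687) (nat_lit 312) .nil)))))))) (.g (nat_lit 1) (.e (nat_lit 41229) (nat_lit 0) .nil) .nil)))))))) 
(.nd (nat_lit 5) (.nd (nat_lit 6) (.nd (nat_lit 7) (.nd (nat_lit 8) (.nd (nat_lit 9) 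
(.lf (nat_lit 454673) (.g (nat_lit 1526) (.e (nat_lit 2648) (nat_lit 166) (.e (nat_lit 188418) (nat_lit 0) (.e (nat_lit 2160) (nat_lit 143) (.e (nat_lit 712755) (nat_lit 30) (.e (nat_lit 450566) (nat_lit 0) (.e (nat_lit 5548) (nat_lit 306) .nil)))))) (.g (nat_lit 1) (.e (nat_lit 36418) (nat_lit 0) .nil) .nil))) 
(.lf (nat_lit 455185) (.g (nat_lit 3729) (.e (nat_lit 2663) (nat_lit 167) (.e (nat_lit 196666) (nat_lit 13) (.e (nat_lit 65610) (nat_lit 10) (.e (nat_lit 344117) (nat_lit 21) (.e (nat_lit 516144) (nat_lit 9) .nil))))) (.g (nat_lit 0) (.e (nat_lit 40490) (nat_lit 0) .nil) .nil)))) (.nd (nat_lit 9) 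
(.lf (nat_lit 454929) (.g (nat_lit 2226) (.e (nat_lit 2654) (nat_lit 167) (.e (nat_lit 196666) (nat_lit 13) (.e (nat_lit 65610) (nat_lit 10) (.e (nat_lit 344117) (nat_lit 21) (.e (nat_lit 516106) (nat_lit 0) (.e (nat_lit 7095) (nat_lit 380) (.e (nat_lit 164359) (nat_lit 246) .nil))))))) (.g (nat_lit 1) (.e (nat_lit 39799) (nat_lit 0) .nil) .nil))) 
(.lf (nat_lit 455441) (.g (nat_lit 3133) (.e (nat_lit 2663) (nat_lit 167) (.e (nat_lit 196666) (nat_lit 13) (.e (nat_lit 65624) (nat_lit 12) (.e (nat_lit 385074) (nat_lit 31) (.e (nat_lit 573488) (nat_lit 14) (.e (nat_lit 73781) (nat_lit 32) .nil)))))) (.g (nat_lit 1) (.e (nat_lit 40842) (nat_lit 0) .nil) .nil))))) (.nd (nat_lit 8) (.nd (nat_lit 9) 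
(.lf (nat_lit 454801) (.g (nat_lit 2850) (.e (nat_lit 2651) (nat_lit 166) (.e (nat_lit 188420) (nat_lit 0) (.e (nat_lit 2059) (nat_lit 142) (.e (nat_lit 704598) (nat_lit 6) (.e (nat_lit 188455) (nat_lit 24) (.e (nat_lit 229664) (nat_lit 240) .nil)))))) (.g (nat_lit 1) (.e (nat_lit 38587) (nat_lit 0) .nil) .nil))) 
(.lf (nat_lit 455313) (.g (nat_lit 5265) (.e (nat_lit 2663) (nat_lit 167) (.e (nat_lit 196666) (nat_lit 13) (.e (nat_lit 65610) (nat_lit 10) (.e (nat_lit 344117) (nat_lit 21) (.e (nat_lit 516151) (nat_lit 9) (.e (nat_lit 426047) (nat_lit 0) (.e (nat_lit 3369) (nat_lit 208) (.e (nat_lit 622625) (nat_lit 13) .nil)))))))) (.g (nat_lit 1) (.e (nat_lit 40618) (nat_lit 0) .nil) .nil)))) 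
(.nd (nat_lit 9) 
(.lf (nat_lit 455057) (.g (nat_lit 751) (.e (nat_lit 2661) (nat_lit 167) (.e (nat_lit 196668) (nat_lit 14) (.e (nat_lit 81664) (nat_lit 40) .nil))) (.g (nat_lit 0) (.e (nat_lit 40201) (nat_lit 0) .nil) .nil))) 
(.lf (nat_lit 455569) (.g (nat_lit 4474) (.e (nat_lit 2663) (nat_lit 167) (.e (nat_lit 196672) (nat_lit 15) (.e (nat_lit 81954) (nat_lit 23) (.e (nat_lit 98350) (nat_lit 24) (.e (nat_lit 409616) (nat_lit 10) (.e (nat_lit 5710) (nat_lit 312) .nil)))))) (.g (nat_lit 1) (.e (nat_lit 41014) (nat_lit 0) .nil) .nil)))))) (.nd (nat_lit 7) (.nd (nat_lit 8) (.nd (nat_lit 9) 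
(.lf (nat_lit 454737) (.g (nat_lit 2222) (.e (nat_lit 2649) (nat_lit 166) (.e (nat_lit 188434) (nat_lit 20) (.e (nat_lit 3390) (nat_lit 210) (.e (nat_lit 639007) (nat_lit 13) (.e (nat_lit 1586) (nat_lit 111) (.e (nat_lit 368384) (nat_lit 0) (.e (nat_lit 5122) (nat_lit 292) .nil))))))) (.g (nat_lit 1) (.e (nat_lit 37010) (nat_lit 0) .nil) .nil))) 
(.lf (nat_lit 455249) (.g (nat_lit 5658) (.e (nat_lit 2663) (nat_lit 167) (.e (nat_lit 196666) (nat_lit 13) (.e (nat_lit 65610) (nat_lit 10) (.e (nat_lit 344117) (nat_lit 21) (.e (nat_lit 516151) (nat_lit 9) (.e (nat_lit 426020) (nat_lit 0) (.e (nat_lit 3366) (nat_lit 208) (.e (nat_lit 622627) (nat_lit 13) .nil)))))))) (.g (nat_lit 1) (.e (nat_lit 40554) (nat_lit 0) .nil) .nil)))) 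
(.nd (nat_lit 9) 
(.lf (nat_lit 454993) (.g (nat_lit 4068) (.e (nat_lit 2657) (nat_lit 167) (.e (nat_lit 196672) (nat_lit 15) (.e (nat_lit 81954) (nat_lit 23) (.e (nat_lit 98350) (nat_lit 24) (.e (nat_lit 409616) (nat_lit 10) (.e (nat_lit 7936) (nat_lit 312) .nil)))))) (.g (nat_lit 1) (.e (nat_lit 40057) (nat_lit 0) .nil) .nil))) 
(.lf (nat_lit 455505) (.g (nat_lit 3518) (.e (nat_lit 2663) (nat_lit 167) (.e (nat_lit 196670) (nat_lit 14) (.e (nat_lit 73753) (nat_lit 8) (.e (nat_lit 557105) (nat_lit 14) (.e (nat_lit 180252) (nat_lit 10) (.e (nat_lit 573473) (nat_lit 12) (.e (nat_lit 57506) (nat_lit 39) (.e (nat_lit 647176) (nat_lit 0) .nil)))))))) (.g (nat_lit 1) (.e (nat_lit 40927) (nat_lit 0) .nil) .nil))))) 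
(.nd (nat_lit 8) (.nd (nat_lit 9) 
(.lf (nat_lit 454865) (.g (nat_lit 1935) (.e (nat_lit 2652) (nat_lit 166) (.e (nat_lit 188434) (nat_lit 20) (.e (nat_lit 3469) (nat_lit 217) (.e (nat_lit 696344) (nat_lit 8) (.e (nat_lit 172106) (nat_lit 10) (.e (nat_lit 434202) (nat_lit 18) (.e (nat_lit 6255) (nat_lit 337) .nil))))))) (.g (nat_lit 1) (.e (nat_lit 39068) (nat_lit 0) .nil) .nil))) 
(.lf (nat_lit 455377) (.g (nat_lit 1533) (.e (nat_lit 2663) (nat_lit 167) (.e (nat_lit 196666) (nat_lit 13) (.e (nat_lit 65617) (nat_lit 10) (.e (nat_lit 344130) (nat_lit 26) (.e (nat_lit 557065) (nat_lit 9) .nil))))) (.g (nat_lit 0) (.e (nat_lit 40764) (nat_lit 0) .nil) .nil)))) (.nd (nat_lit 9) 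
(.lf (nat_lit 455121) (.g (nat_lit 535) (.e (nat_lit 2663) (nat_lit 167) (.e (nat_lit 196666) (nat_lit 13) (.e (nat_lit 65583) (nat_lit 7) .nil))) (.g (nat_lit 0) (.e (nat_lit 40405) (nat_lit 0) .nil) .nil))) 
(.lf (nat_lit 455633) (.g (nat_lit 3233) (.e (nat_lit 2664) (nat_lit 167) (.e (nat_lit 196666) (nat_lit 13) (.e (nat_lit 65610) (nat_lit 10) (.e (nat_lit 344117) (nat_lit 21) (.e (nat_lit 516098) (nat_lit 0) (.e (nat_lit 7583) (nat_lit 405) (.e (nat_lit 57747) (nat_lit 201) .nil))))))) (.g (nat_lit 1) (.e (nat_lit 41213) (nat_lit 0) .nil) .nil))))))) 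
(.nd (nat_lit 6) (.nd (nat_lit 7) (.nd (nat_lit 8) (.nd (nat_lit 9) 
(.lf (nat_lit 454705) (.g (nat_lit 1449) (.e (nat_lit 2648) (nat_lit 166) (.e (nat_lit 188420) (nat_lit 0) (.e (nat_lit 2174) (nat_lit 143) (.e (nat_lit 712755) (nat_lit 30) (.e (nat_lit 458496) (nat_lit 0) .nil))))) (.g (nat_lit 0) (.e (nat_lit 36452) (nat_lit 0) .nil) .nil))) 
(.lf (nat_lit 455217) (.g (nat_lit 3423) (.e (nat_lit 2663) (nat_lit 167) (.e (nat_lit 196666) (nat_lit 13) (.e (nat_lit 65610) (nat_lit 10) (.e (nat_lit 344117) (nat_lit 21) (.e (nat_lit 516145) (nat_lit 9) (.e (nat_lit 426360) (nat_lit 15) (.e (nat_lit 2019) (nat_lit 139) (.e (nat_lit 679969) (nat_lit 13) .nil)))))))) (.g (nat_lit 1) (.e (nat_lit 40522) (nat_lit 0) .nil) .nil)))) 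
(.nd (nat_lit 9) 
(.lf (nat_lit 454961) (.g (nat_lit 2735) (.e (nat_lit 2655) (nat_lit 167) (.e (nat_lit 196666) (nat_lit 13) (.e (nat_lit 65610) (nat_lit 10) (.e (nat_lit 344117) (nat_lit 21) .nil)))) (.g (nat_lit 0) (.e (nat_lit 39842) (nat_lit 0) .nil) .nil))) 
(.lf (nat_lit 455473) (.g (nat_lit 3504) (.e (nat_lit 2663) (nat_lit 167) (.e (nat_lit 196668) (nat_lit 14) (.e (nat_lit 73782) (nat_lit 32) (.e (nat_lit 2682) (nat_lit 168) (.e (nat_lit 204863) (nat_lit 27) (.e (nat_lit 344065) (nat_lit 0) .nil)))))) (.g (nat_lit 1) (.e (nat_lit 40894) (nat_lit 0) .nil) .nil))))) (.nd (nat_lit 8) (.nd (nat_lit 9) 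
(.lf (nat_lit 454833) (.g (nat_lit 2559) (.e (nat_lit 2651) (nat_lit 166) (.e (nat_lit 188434) (nat_lit 20) (.e (nat_lit 3469) (nat_lit 217) (.e (nat_lit 696344) (nat_lit 8) (.e (nat_lit 172113) (nat_lit 10) (.e (nat_lit 434208) (nat_lit 18) (.e (nat_lit 6252) (nat_lit 337) .nil))))))) (.g (nat_lit 1) (.e (nat_lit 38718) (nat_lit 0) .nil) .nil))) 
(.lf (nat_lit 455345) (.g (nat_lit 4733) (.e (nat_lit 2663) (nat_lit 167) (.e (nat_lit 196666) (nat_lit 13) (.e (nat_lit 65610) (nat_lit 10) (.e (nat_lit 344117) (nat_lit 21) (.e (nat_lit 516185) (nat_lit 16) (.e (nat_lit 491526) (nat_lit 0) (.e (nat_lit 6648) (nat_lit 357) .nil))))))) (.g (nat_lit 1) (.e (nat_lit 40671) (nat_lit 0) .nil) .nil)))) (.nd (nat_lit 9) 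
(.lf (nat_lit 455089) (.g (nat_lit 1300) (.e (nat_lit 2663) (nat_lit 167) (.e (nat_lit 196654) (nat_lit 11) (.e (nat_lit 16436) (nat_lit 9) (.e (nat_lit 426131) (nat_lit 3) .nil)))) (.g (nat_lit 0) (.e (nat_lit 40283) (nat_lit 0) .nil) .nil))) 
(.lf (nat_lit 455601) (.g (nat_lit 463) (.e (nat_lit 2664) (nat_lit 167) (.e (nat_lit 196666) (nat_lit 13) (.e (nat_lit 65583) (nat_lit 7) .nil))) (.g (nat_lit 0) (.e (nat_lit 41165) (nat_lit 0) .nil) .nil)))))) (.nd (nat_lit 7) (.nd (nat_lit 8) (.nd (nat_lit 9) 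
(.lf (nat_lit 454769) (.g (nat_lit 1782) (.e (nat_lit 2650) (nat_lit 166) (.e (nat_lit 188434) (nat_lit 20) (.e (nat_lit 3469) (nat_lit 217) (.e (nat_lit 696344) (nat_lit 8) (.e (nat_lit 172113) (nat_lit 10) (.e (nat_lit 434208) (nat_lit 18) (.e (nat_lit 6374) (nat_lit 337) .nil))))))) (.g (nat_lit 1) (.e (nat_lit 37658) (nat_lit 0) .nil) .nil))) 
(.lf (nat_lit 455281) (.g (nat_lit 5430) (.e (nat_lit 2663) (nat_lit 167) (.e (nat_lit 196666) (nat_lit 13) (.e (nat_lit 65610) (nat_lit 10) (.e (nat_lit 344117) (nat_lit 21) (.e (nat_lit 516151) (nat_lit 9) (.e (nat_lit 426040) (nat_lit 0) (.e (nat_lit 3370) (nat_lit 208) (.e (nat_lit 622625) (nat_lit 13) .nil)))))))) (.g (nat_lit 1) (.e (nat_lit 40586) (nat_lit 0) .nil) .nil)))) 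
(.nd (nat_lit 9) 
(.lf (nat_lit 455025) (.g (nat_lit 2928) (.e (nat_lit 2661) (nat_lit 167) (.e (nat_lit 196666) (nat_lit 13) (.e (nat_lit 65610) (nat_lit 10) (.e (nat_lit 344117) (nat_lit 21) (.e (nat_lit 516106) (nat_lit 0) (.e (nat_lit 7112) (nat_lit 381) (.e (nat_lit 229687) (nat_lit 246) .nil))))))) (.g (nat_lit 1) (.e (nat_lit 40160) (nat_lit 0) .nil) .nil))) 
(.lf (nat_lit 455537) (.g (nat_lit 4557) (.e (nat_lit 2663) (nat_lit 167) (.e (nat_lit 196670) (nat_lit 14) (.e (nat_lit 73754) (nat_lit 8) (.e (nat_lit 557105) (nat_lit 14) (.e (nat_lit 180252) (nat_lit 10) (.e (nat_lit 573473) (nat_lit 12) (.e (nat_lit 57511) (nat_lit 39) (.e (nat_lit 647171) (nat_lit 0) .nil)))))))) (.g (nat_lit 1) (.e (nat_lit 40959) (nat_lit 0) .nil) .nil))))) 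
(.nd (nat_lit 8) (.nd (nat_lit 9) 
(.lf (nat_lit 454897) (.g (nat_lit 1751) (.e (nat_lit 2653) (nat_lit 166) (.e (nat_lit 188418) (nat_lit 0) (.e (nat_lit 2175) (nat_lit 143) (.e (nat_lit 712755) (nat_lit 30) (.e (nat_lit 450563) (nat_lit 0) (.e (nat_lit 7936) (nat_lit 306) .nil)))))) (.g (nat_lit 1) (.e (nat_lit 39213) (nat_lit 0) .nil) .nil))) 
(.lf (nat_lit 455409) (.g (nat_lit 4845) (.e (nat_lit 2663) (nat_lit 167) (.e (nat_lit 196666) (nat_lit 13) (.e (nat_lit 65617) (nat_lit 10) (.e (nat_lit 344130) (nat_lit 26) (.e (nat_lit 557090) (nat_lit 12) (.e (nat_lit 163843) (nat_lit 0) (.e (nat_lit 6420) (nat_lit 341) (.e (nat_lit 163843) (nat_lit 0) (.e (nat_lit 7366) (nat_lit 388) .nil))))))))) (.g (nat_lit 1) (.e (nat_lit 40799) (nat_lit 0) .nil) .nil)))) 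
(.nd (nat_lit 9) 
(.lf (nat_lit 455153) (.g (nat_lit 4834) (.e (nat_lit 2663) (nat_lit 167) (.e (nat_lit 196666) (nat_lit 13) (.e (nat_lit 65610) (nat_lit 10) (.e (nat_lit 344117) (nat_lit 21) (.e (nat_lit 516106) (nat_lit 0) (.e (nat_lit 7008) (nat_lit 377) (.e (nat_lit 2422) (nat_lit 157) (.e (nat_lit 5710) (nat_lit 312) .nil)))))))) (.g (nat_lit 1) (.e (nat_lit 40458) (nat_lit 0) .nil) .nil))) 
(.lf (nat_lit 455665) (.g (nat_lit 3136) (.e (nat_lit 2664) (nat_lit 167) (.e (nat_lit 196666) (nat_lit 13) (.e (nat_lit 65610) (nat_lit 10) (.e (nat_lit 344117) (nat_lit 21) (.e (nat_lit 516141) (nat_lit 8) (.e (nat_lit 417814) (nat_lit 10) (.e (nat_lit 5729) (nat_lit 312) .nil))))))) (.g (nat_lit 1) (.e (nat_lit 41245) (nat_lit 0) .nil) .nil))))))))) 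
(.nd (nat_lit 4) (.nd (nat_lit 5) (.nd (nat_lit 6) (.nd (nat_lit 7) (.nd (nat_lit 8) 
(.nd (nat_lit 9) 
(.lf (nat_lit 454665) (.g (nat_lit 1456) (.e (nat_lit 2648) (nat_lit 166) (.e (nat_lit 188418) (nat_lit 0) (.e (nat_lit 2058) (nat_lit 142) (.e (nat_lit 704598) (nat_lit 6) (.e (nat_lit 188444) (nat_lit 21) (.e (nat_lit 164345) (nat_lit 240) .nil)))))) (.g (nat_lit 1) (.e (nat_lit 36410) (nat_lit 0) .nil) .nil))) 
(.lf (nat_lit 455177) (.g (nat_lit 3295) (.e (nat_lit 2663) (nat_lit 167) (.e (nat_lit 196666) (nat_lit 13) (.e (nat_lit 65610) (nat_lit 10) (.e (nat_lit 344117) (nat_lit 21) (.e (nat_lit 516142) (nat_lit 8) .nil))))) (.g (nat_lit 0) (.e (nat_lit 40482) (nat_lit 0) .nil) .nil)))) (.nd (nat_lit 9) 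
(.lf (nat_lit 454921) (.g (nat_lit 1594) (.e (nat_lit 7936) (nat_lit 166) (.e (nat_lit 188434) (nat_lit 20) (.e (nat_lit 3579) (nat_lit 223) (.e (nat_lit 745476) (nat_lit 0) (.e (nat_lit 1586) (nat_lit 111) .nil))))) (.g (nat_lit 0) (.e (nat_lit 39582) (nat_lit 0) .nil) .nil))) 
(.lf (nat_lit 455433) (.g (nat_lit 3002) (.e (nat_lit 2663) (nat_lit 167) (.e (nat_lit 196666) (nat_lit 13) (.e (nat_lit 65619) (nat_lit 10) (.e (nat_lit 344117) (nat_lit 21) (.e (nat_lit 516097) (nat_lit 0) (.e (nat_lit 7581) (nat_lit 405) (.e (nat_lit 57750) (nat_lit 201) .nil))))))) (.g (nat_lit 1) (.e (nat_lit 40826) (nat_lit 0) .nil) .nil))))) (.nd (nat_lit 8) (.nd (nat_lit 9) 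
(.lf (nat_lit 454793) (.g (nat_lit 2665) (.e (nat_lit 2651) (nat_lit 166) (.e (nat_lit 188420) (nat_lit 0) (.e (nat_lit 2058) (nat_lit 142) (.e (nat_lit 704598) (nat_lit 6) (.e (nat_lit 188453) (nat_lit 24) (.e (nat_lit 229664) (nat_lit 240) .nil)))))) (.g (nat_lit 1) (.e (nat_lit 38579) (nat_lit 0) .nil) .nil))) 
(.lf (nat_lit 455305) (.g (nat_lit 3607) (.e (nat_lit 2663) (nat_lit 167) (.e (nat_lit 196666) (nat_lit 13) (.e (nat_lit 65610) (nat_lit 10) (.e (nat_lit 344117) (nat_lit 21) (.e (nat_lit 516151) (nat_lit 9) (.e (nat_lit 426050) (nat_lit 0) (.e (nat_lit 2449) (nat_lit 157) (.e (nat_lit 4778) (nat_lit 281) (.e (nat_lit 2477) (nat_lit 157) .nil))))))))) (.g (nat_lit 1) (.e (nat_lit 40610) (nat_lit 0) .nil) .nil)))) 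
(.nd (nat_lit 9) 
(.lf (nat_lit 455049) (.g (nat_lit 2693) (.e (nat_lit 2661) (nat_lit 167) (.e (nat_lit 196666) (nat_lit 13) (.e (nat_lit 65617) (nat_lit 10) (.e (nat_lit 344133) (nat_lit 26) (.e (nat_lit 557068) (nat_lit 9) (.e (nat_lit 22) (nat_lit 0) (.e (nat_lit 6232) (nat_lit 335) (.e (nat_lit 164359) (nat_lit 246) .nil)))))))) (.g (nat_lit 1) (.e (nat_lit 40188) (nat_lit 0) .nil) .nil))) 
(.lf (nat_lit 455561) (.g (nat_lit 1929) (.e (nat_lit 2663) (nat_lit 167) (.e (nat_lit 196672) (nat_lit 15) (.e (nat_lit 81922) (nat_lit 0) (.e (nat_lit 3305) (nat_lit 202) (.e (nat_lit 573489) (nat_lit 14) (.e (nat_lit 73781) (nat_lit 32) .nil)))))) (.g (nat_lit 1) (.e (nat_lit 40985) (nat_lit 0) .nil) .nil)))))) (.nd (nat_lit 7) (.nd (nat_lit 8) (.nd (nat_lit 9) 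
(.lf (nat_lit 454729) (.g (nat_lit 3258) (.e (nat_lit 2648) (nat_lit 166) (.e (nat_lit 188440) (nat_lit 20) (.e (nat_lit 3409) (nat_lit 212) (.e (nat_lit 655378) (nat_lit 4) (.e (nat_lit 172094) (nat_lit 9) (.e (nat_lit 426109) (nat_lit 1) (.e (nat_lit 164347) (nat_lit 240) .nil))))))) (.g (nat_lit 1) (.e (nat_lit 36652) (nat_lit 0) .nil) .nil))) 
(.lf (nat_lit 455241) (.g (nat_lit 5948) (.e (nat_lit 2663) (nat_lit 167) (.e (nat_lit 196666) (nat_lit 13) (.e (nat_lit 65610) (nat_lit 10) (.e (nat_lit 344117) (nat_lit 21) (.e (nat_lit 516151) (nat_lit 9) (.e (nat_lit 426017) (nat_lit 0) (.e (nat_lit 3366) (nat_lit 208) (.e (nat_lit 622627) (nat_lit 13) .nil)))))))) (.g (nat_lit 1) (.e (nat_lit 40546) (nat_lit 0) .nil) .nil)))) 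
(.nd (nat_lit 9) 
(.lf (nat_lit 454985) (.g (nat_lit 4123) (.e (nat_lit 2657) (nat_lit 167) (.e (nat_lit 196670) (nat_lit 14) (.e (nat_lit 73754) (nat_lit 8) (.e (nat_lit 557105) (nat_lit 14) (.e (nat_lit 180252) (nat_lit 10) (.e (nat_lit 573474) (nat_lit 12) (.e (nat_lit 57507) (nat_lit 39) (.e (nat_lit 655104) (nat_lit 0) .nil)))))))) (.g (nat_lit 1) (.e (nat_lit 40002) (nat_lit 0) .nil) .nil))) 
(.lf (nat_lit 455497) (.g (nat_lit 4425) (.e (nat_lit 2663) (nat_lit 167) (.e (nat_lit 196670) (nat_lit 14) (.e (nat_lit 73753) (nat_lit 8) (.e (nat_lit 557103) (nat_lit 14) (.e (nat_lit 180250) (nat_lit 10) (.e (nat_lit 573475) (nat_lit 12) (.e (nat_lit 57507) (nat_lit 39) (.e (nat_lit 647176) (nat_lit 0) .nil)))))))) (.g (nat_lit 1) (.e (nat_lit 40919) (nat_lit 0) .nil) .nil))))) 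
(.nd (nat_lit 8) (.nd (nat_lit 9) 
(.lf (nat_lit 454857) (.g (nat_lit 2459) (.e (nat_lit 2651) (nat_lit 166) (.e (nat_lit 188440) (nat_lit 20) (.e (nat_lit 3469) (nat_lit 217) (.e (nat_lit 696344) (nat_lit 8) (.e (nat_lit 172106) (nat_lit 10) (.e (nat_lit 434202) (nat_lit 18) (.e (nat_lit 6255) (nat_lit 337) .nil))))))) (.g (nat_lit 1) (.e (nat_lit 38835) (nat_lit 0) .nil) .nil))) 
(.lf (nat_lit 455369) (.g (nat_lit 1742) (.e (nat_lit 2663) (nat_lit 167) (.e (nat_lit 196666) (nat_lit 13) (.e (nat_lit 65617) (nat_lit 10) (.e (nat_lit 344096) (nat_lit 18) (.e (nat_lit 3959) (nat_lit 239) .nil))))) (.g (nat_lit 0) (.e (nat_lit 40727) (nat_lit 0) .nil) .nil)))) (.nd (nat_lit 9) 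
(.lf (nat_lit 455113) (.g (nat_lit 3256) (.e (nat_lit 2663) (nat_lit 167) (.e (nat_lit 196654) (nat_lit 11) (.e (nat_lit 16436) (nat_lit 9) (.e (nat_lit 426131) (nat_lit 3) (.e (nat_lit 204880) (nat_lit 32) (.e (nat_lit 385096) (nat_lit 49) (.e (nat_lit 778393) (nat_lit 9) .nil))))))) (.g (nat_lit 1) (.e (nat_lit 40310) (nat_lit 0) .nil) .nil))) 
(.lf (nat_lit 455625) (.g (nat_lit 5274) (.e (nat_lit 2664) (nat_lit 167) (.e (nat_lit 196666) (nat_lit 13) (.e (nat_lit 65610) (nat_lit 10) (.e (nat_lit 344117) (nat_lit 21) (.e (nat_lit 516097) (nat_lit 0) (.e (nat_lit 7583) (nat_lit 405) (.e (nat_lit 57751) (nat_lit 201) .nil))))))) (.g (nat_lit 1) (.e (nat_lit 41205) (nat_lit 0) .nil) .nil))))))) 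
(.nd (nat_lit 6) (.nd (nat_lit 7) (.nd (nat_lit 8) (.nd (nat_lit 9) 
(.lf (nat_lit 454697) (.g (nat_lit 1540) (.e (nat_lit 2648) (nat_lit 166) (.e (nat_lit 188420) (nat_lit 0) (.e (nat_lit 2059) (nat_lit 142) (.e (nat_lit 704599) (nat_lit 6) (.e (nat_lit 188446) (nat_lit 21) (.e (nat_lit 164345) (nat_lit 240) .nil)))))) (.g (nat_lit 1) (.e (nat_lit 36444) (nat_lit 0) .nil) .nil))) 
(.lf (nat_lit 455209) (.g (nat_lit 4019) (.e (nat_lit 2663) (nat_lit 167) (.e (nat_lit 196666) (nat_lit 13) (.e (nat_lit 65610) (nat_lit 10) (.e (nat_lit 344117) (nat_lit 21) (.e (nat_lit 516145) (nat_lit 9) (.e (nat_lit 426360) (nat_lit 15) (.e (nat_lit 2012) (nat_lit 139) (.e (nat_lit 679967) (nat_lit 13) .nil)))))))) (.g (nat_lit 1) (.e (nat_lit 40514) (nat_lit 0) .nil) .nil)))) 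
(.nd (nat_lit 9) 
(.lf (nat_lit 454953) (.g (nat_lit 2030) (.e (nat_lit 2654) (nat_lit 167) (.e (nat_lit 196672) (nat_lit 15) (.e (nat_lit 81954) (nat_lit 23) (.e (nat_lit 98352) (nat_lit 25) (.e (nat_lit 417816) (nat_lit 10) (.e (nat_lit 5647) (nat_lit 312) .nil)))))) (.g (nat_lit 1) (.e (nat_lit 39830) (nat_lit 0) .nil) .nil))) 
(.lf (nat_lit 455465) (.g (nat_lit 2449) (.e (nat_lit 2663) (nat_lit 167) (.e (nat_lit 196667) (nat_lit 14) (.e (nat_lit 73755) (nat_lit 8) (.e (nat_lit 557105) (nat_lit 14) (.e (nat_lit 180252) (nat_lit 10) (.e (nat_lit 573474) (nat_lit 12) (.e (nat_lit 57506) (nat_lit 39) (.e (nat_lit 647176) (nat_lit 0) .nil)))))))) (.g (nat_lit 1) (.e (nat_lit 40880) (nat_lit 0) .nil) .nil))))) 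
(.nd (nat_lit 8) (.nd (nat_lit 9) 
(.lf (nat_lit 454825) (.g (nat_lit 1767) (.e (nat_lit 2651) (nat_lit 166) (.e (nat_lit 188431) (nat_lit 20) (.e (nat_lit 3397) (nat_lit 211) (.e (nat_lit 647185) (nat_lit 6) (.e (nat_lit 188454) (nat_lit 24) (.e (nat_lit 229664) (nat_lit 240) .nil)))))) (.g (nat_lit 1) (.e (nat_lit 38688) (nat_lit 0) .nil) .nil))) 
(.lf (nat_lit 455337) (.g (nat_lit 3286) (.e (nat_lit 2663) (nat_lit 167) (.e (nat_lit 196666) (nat_lit 13) (.e (nat_lit 65610) (nat_lit 10) (.e (nat_lit 344117) (nat_lit 21) (.e (nat_lit 516160) (nat_lit 10) (.e (nat_lit 434262) (nat_lit 34) (.e (nat_lit 622620) (nat_lit 13) .nil))))))) (.g (nat_lit 1) (.e (nat_lit 40642) (nat_lit 0) .nil) .nil)))) (.nd (nat_lit 9) 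
(.lf (nat_lit 455081) (.g (nat_lit 4938) (.e (nat_lit 2661) (nat_lit 167) (.e (nat_lit 196674) (nat_lit 15) (.e (nat_lit 81956) (nat_lit 23) (.e (nat_lit 98350) (nat_lit 24) (.e (nat_lit 409623) (nat_lit 10) .nil))))) (.g (nat_lit 0) (.e (nat_lit 40235) (nat_lit 0) .nil) .nil))) 
(.lf (nat_lit 455593) (.g (nat_lit 2685) (.e (nat_lit 2664) (nat_lit 167) (.e (nat_lit 196630) (nat_lit 9) (.e (nat_lit 1499) (nat_lit 108) (.e (nat_lit 336204) (nat_lit 12) (.e (nat_lit 385074) (nat_lit 31) (.e (nat_lit 573489) (nat_lit 14) (.e (nat_lit 73781) (nat_lit 32) .nil))))))) (.g (nat_lit 1) (.e (nat_lit 41153) (nat_lit 0) .nil) .nil)))))) 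
(.nd (nat_lit 7) (.nd (nat_lit 8) (.nd (nat_lit 9) 
(.lf (nat_lit 454761) (.g (nat_lit 2104) (.e (nat_lit 2650) (nat_lit 166) (.e (nat_lit 188434) (nat_lit 20) (.e (nat_lit 3289) (nat_lit 201) (.e (nat_lit 565252) (nat_lit 0) (.e (nat_lit 1595) (nat_lit 111) (.e (nat_lit 368384) (nat_lit 0) (.e (nat_lit 7685) (nat_lit 410) .nil))))))) (.g (nat_lit 1) (.e (nat_lit 37575) (nat_lit 0) .nil) .nil))) 
(.lf (nat_lit 455273) (.g (nat_lit 3669) (.e (nat_lit 2663) (nat_lit 167) (.e (nat_lit 196666) (nat_lit 13) (.e (nat_lit 65610) (nat_lit 10) (.e (nat_lit 344117) (nat_lit 21) (.e (nat_lit 516151) (nat_lit 9) (.e (nat_lit 426038) (nat_lit 0) (.e (nat_lit 2427) (nat_lit 157) (.e (nat_lit 4778) (nat_lit 281) (.e (nat_lit 2454) (nat_lit 157) .nil))))))))) (.g (nat_lit 1) (.e (nat_lit 40578) (nat_lit 0) .nil) .nil)))) 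
(.nd (nat_lit 9) 
(.lf (nat_lit 455017) (.g (nat_lit 2500) (.e (nat_lit 2661) (nat_lit 167) (.e (nat_lit 196666) (nat_lit 13) (.e (nat_lit 65610) (nat_lit 10) (.e (nat_lit 344117) (nat_lit 21) (.e (nat_lit 516102) (nat_lit 0) (.e (nat_lit 7114) (nat_lit 381) (.e (nat_lit 229687) (nat_lit 246) .nil))))))) (.g (nat_lit 1) (.e (nat_lit 40152) (nat_lit 0) .nil) .nil))) 
(.lf (nat_lit 455529) (.g (nat_lit 2483) (.e (nat_lit 2663) (nat_lit 167) (.e (nat_lit 196670) (nat_lit 14) (.e (nat_lit 73754) (nat_lit 8) (.e (nat_lit 557105) (nat_lit 14) (.e (nat_lit 180252) (nat_lit 10) (.e (nat_lit 573473) (nat_lit 12) (.e (nat_lit 57507) (nat_lit 39) (.e (nat_lit 655104) (nat_lit 0) .nil)))))))) (.g (nat_lit 1) (.e (nat_lit 40951) (nat_lit 0) .nil) .nil))))) 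
(.nd (nat_lit 8) (.nd (nat_lit 9) 
(.lf (nat_lit 454889) (.g (nat_lit 2116) (.e (nat_lit 2653) (nat_lit 166) (.e (nat_lit 188418) (nat_lit 0) (.e (nat_lit 2059) (nat_lit 142) (.e (nat_lit 704599) (nat_lit 6) (.e (nat_lit 188455) (nat_lit 24) (.e (nat_lit 229666) (nat_lit 240) .nil)))))) (.g (nat_lit 1) (.e (nat_lit 39204) (nat_lit 0) .nil) .nil))) 
(.lf (nat_lit 455401) (.g (nat_lit 3804) (.e (nat_lit 2663) (nat_lit 167) (.e (nat_lit 196666) (nat_lit 13) (.e (nat_lit 65617) (nat_lit 10) (.e (nat_lit 344130) (nat_lit 26) (.e (nat_lit 557087) (nat_lit 11) (.e (nat_lit 24586) (nat_lit 0) (.e (nat_lit 6691) (nat_lit 357) .nil))))))) (.g (nat_lit 1) (.e (nat_lit 40791) (nat_lit 0) .nil) .nil)))) (.nd (nat_lit 9) 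
(.lf (nat_lit 455145) (.g (nat_lit 5274) (.e (nat_lit 2663) (nat_lit 167) (.e (nat_lit 196666) (nat_lit 13) (.e (nat_lit 65610) (nat_lit 10) (.e (nat_lit 344117) (nat_lit 21) (.e (nat_lit 516098) (nat_lit 0) (.e (nat_lit 7583) (nat_lit 405) (.e (nat_lit 57751) (nat_lit 201) .nil))))))) (.g (nat_lit 1) (.e (nat_lit 40450) (nat_lit 0) .nil) .nil))) 
(.lf (nat_lit 455657) (.g (nat_lit 3360) (.e (nat_lit 2664) (nat_lit 167) (.e (nat_lit 196666) (nat_lit 13) (.e (nat_lit 65610) (nat_lit 10) (.e (nat_lit 344117) (nat_lit 21) (.e (nat_lit 516138) (nat_lit 7) (.e (nat_lit 409616) (nat_lit 10) (.e (nat_lit 5710) (nat_lit 312) .nil))))))) (.g (nat_lit 1) (.e (nat_lit 41237) (nat_lit 0) .nil) .nil)))))))) 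
(.nd (nat_lit 5) (.nd (nat_lit 6) (.nd (nat_lit 7) (.nd (nat_lit 8) (.nd (nat_lit 9) 
(.lf (nat_lit 454681) (.g (nat_lit 1270) (.e (nat_lit 2648) (nat_lit 166) (.e (nat_lit 188418) (nat_lit 0) (.e (nat_lit 2175) (nat_lit 143) (.e (nat_lit 712753) (nat_lit 30) (.e (nat_lit 458496) (nat_lit 0) (.e (nat_lit 5543) (nat_lit 306) .nil)))))) (.g (nat_lit 1) (.e (nat_lit 36426) (nat_lit 0) .nil) .nil))) 
(.lf (nat_lit 455193) (.g (nat_lit 3693) (.e (nat_lit 2663) (nat_lit 167) (.e (nat_lit 196666) (nat_lit 13) (.e (nat_lit 65610) (nat_lit 10) (.e (nat_lit 344117) (nat_lit 21) (.e (nat_lit 516145) (nat_lit 9) (.e (nat_lit 426062) (nat_lit 0) (.e (nat_lit 3366) (nat_lit 208) (.e (nat_lit 622627) (nat_lit 13) .nil)))))))) (.g (nat_lit 1) (.e (nat_lit 40498) (nat_lit 0) .nil) .nil)))) 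
(.nd (nat_lit 9) 
(.lf (nat_lit 454937) (.g (nat_lit 3406) (.e (nat_lit 2654) (nat_lit 167) (.e (nat_lit 196666) (nat_lit 13) (.e (nat_lit 65617) (nat_lit 10) (.e (nat_lit 344130) (nat_lit 26) (.e (nat_lit 557087) (nat_lit 11) (.e (nat_lit 24580) (nat_lit 0) (.e (nat_lit 6624) (nat_lit 357) .nil))))))) (.g (nat_lit 1) (.e (nat_lit 39808) (nat_lit 0) .nil) .nil))) 
(.lf (nat_lit 455449) (.g (nat_lit 2836) (.e (nat_lit 2663) (nat_lit 167) (.e (nat_lit 196666) (nat_lit 13) (.e (nat_lit 65628) (nat_lit 14) (.e (nat_lit 401428) (nat_lit 3) (.e (nat_lit 204862) (nat_lit 27) (.e (nat_lit 344069) (nat_lit 0) .nil)))))) (.g (nat_lit 1) (.e (nat_lit 40855) (nat_lit 0) .nil) .nil))))) (.nd (nat_lit 8) (.nd (nat_lit 9) 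
(.lf (nat_lit 454809) (.g (nat_lit 2489) (.e (nat_lit 2651) (nat_lit 166) (.e (nat_lit 188420) (nat_lit 0) (.e (nat_lit 2174) (nat_lit 143) (.e (nat_lit 712753) (nat_lit 30) (.e (nat_lit 450568) (nat_lit 0) (.e (nat_lit 5448) (nat_lit 306) .nil)))))) (.g (nat_lit 1) (.e (nat_lit 38598) (nat_lit 0) .nil) .nil))) 
(.lf (nat_lit 455321) (.g (nat_lit 5292) (.e (nat_lit 2663) (nat_lit 167) (.e (nat_lit 196666) (nat_lit 13) (.e (nat_lit 65610) (nat_lit 10) (.e (nat_lit 344117) (nat_lit 21) (.e (nat_lit 516151) (nat_lit 9) (.e (nat_lit 426412) (nat_lit 15) (.e (nat_lit 7936) (nat_lit 139) (.e (nat_lit 679968) (nat_lit 13) .nil)))))))) (.g (nat_lit 1) (.e (nat_lit 40626) (nat_lit 0) .nil) .nil)))) 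
(.nd (nat_lit 9) 
(.lf (nat_lit 455065) (.g (nat_lit 2218) (.e (nat_lit 2661) (nat_lit 167) (.e (nat_lit 196673) (nat_lit 15) (.e (nat_lit 81954) (nat_lit 23) (.e (nat_lit 98350) (nat_lit 24) (.e (nat_lit 409623) (nat_lit 10) (.e (nat_lit 5664) (nat_lit 312) .nil)))))) (.g (nat_lit 1) (.e (nat_lit 40218) (nat_lit 0) .nil) .nil))) 
(.lf (nat_lit 455577) (.g (nat_lit 3739) (.e (nat_lit 2663) (nat_lit 167) (.e (nat_lit 196672) (nat_lit 15) (.e (nat_lit 81956) (nat_lit 23) (.e (nat_lit 98350) (nat_lit 24) (.e (nat_lit 409617) (nat_lit 10) .nil))))) (.g (nat_lit 0) (.e (nat_lit 41028) (nat_lit 0) .nil) .nil)))))) (.nd (nat_lit 7) (.nd (nat_lit 8) (.nd (nat_lit 9) 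
(.lf (nat_lit 454745) (.g (nat_lit 1839) (.e (nat_lit 2649) (nat_lit 166) (.e (nat_lit 188434) (nat_lit 20) (.e (nat_lit 3391) (nat_lit 210) (.e (nat_lit 639008) (nat_lit 13) (.e (nat_lit 1598) (nat_lit 111) (.e (nat_lit 368384) (nat_lit 0) (.e (nat_lit 5170) (nat_lit 292) .nil))))))) (.g (nat_lit 1) (.e (nat_lit 37035) (nat_lit 0) .nil) .nil))) 
(.lf (nat_lit 455257) (.g (nat_lit 3948) (.e (nat_lit 2663) (nat_lit 167) (.e (nat_lit 196666) (nat_lit 13) (.e (nat_lit 65610) (nat_lit 10) (.e (nat_lit 344117) (nat_lit 21) (.e (nat_lit 516151) (nat_lit 9) (.e (nat_lit 426022) (nat_lit 0) (.e (nat_lit 2403) (nat_lit 157) (.e (nat_lit 4830) (nat_lit 281) (.e (nat_lit 2477) (nat_lit 157) .nil))))))))) (.g (nat_lit 1) (.e (nat_lit 40562) (nat_lit 0) .nil) .nil)))) 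
(.nd (nat_lit 9) 
(.lf (nat_lit 455001) (.g (nat_lit 2730) (.e (nat_lit 2659) (nat_lit 167) (.e (nat_lit 196666) (nat_lit 13) (.e (nat_lit 65610) (nat_lit 10) (.e (nat_lit 344117) (nat_lit 21) .nil)))) (.g (nat_lit 0) (.e (nat_lit 40090) (nat_lit 0) .nil) .nil))) 
(.lf (nat_lit 455513) (.g (nat_lit 3417) (.e (nat_lit 2663) (nat_lit 167) (.e (nat_lit 196670) (nat_lit 14) (.e (nat_lit 73753) (nat_lit 8) (.e (nat_lit 557105) (nat_lit 14) (.e (nat_lit 180252) (nat_lit 10) (.e (nat_lit 573474) (nat_lit 12) (.e (nat_lit 57506) (nat_lit 39) (.e (nat_lit 647175) (nat_lit 0) .nil)))))))) (.g (nat_lit 1) (.e (nat_lit 40935) (nat_lit 0) .nil) .nil))))) 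
(.nd (nat_lit 8) (.nd (nat_lit 9) 
(.lf (nat_lit 454873) (.g (nat_lit 2672) (.e (nat_lit 2652) (nat_lit 166) (.e (nat_lit 188446) (nat_lit 21) (.e (nat_lit 164319) (nat_lit 228) (.e (nat_lit 57424) (nat_lit 14) (.e (nat_lit 352318) (nat_lit 24) (.e (nat_lit 123147) (nat_lit 250) .nil)))))) (.g (nat_lit 1) (.e (nat_lit 39082) (nat_lit 0) .nil) .nil))) 
(.lf (nat_lit 455385) (.g (nat_lit 3146) (.e (nat_lit 2663) (nat_lit 167) (.e (nat_lit 196666) (nat_lit 13) (.e (nat_lit 65617) (nat_lit 10) (.e (nat_lit 344130) (nat_lit 26) (.e (nat_lit 557087) (nat_lit 11) (.e (nat_lit 24576) (nat_lit 0) (.e (nat_lit 6650) (nat_lit 357) .nil))))))) (.g (nat_lit 1) (.e (nat_lit 40774) (nat_lit 0) .nil) .nil)))) (.nd (nat_lit 9) 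
(.lf (nat_lit 455129) (.g (nat_lit 4331) (.e (nat_lit 2663) (nat_lit 167) (.e (nat_lit 196666) (nat_lit 13) (.e (nat_lit 65610) (nat_lit 10) (.e (nat_lit 344117) (nat_lit 21) (.e (nat_lit 516097) (nat_lit 0) (.e (nat_lit 7579) (nat_lit 405) (.e (nat_lit 57750) (nat_lit 201) .nil))))))) (.g (nat_lit 1) (.e (nat_lit 40434) (nat_lit 0) .nil) .nil))) 
(.lf (nat_lit 455641) (.g (nat_lit 3330) (.e (nat_lit 2664) (nat_lit 167) (.e (nat_lit 196666) (nat_lit 13) (.e (nat_lit 65610) (nat_lit 10) (.e (nat_lit 344117) (nat_lit 21) (.e (nat_lit 516106) (nat_lit 0) (.e (nat_lit 6986) (nat_lit 377) (.e (nat_lit 2402) (nat_lit 157) (.e (nat_lit 5692) (nat_lit 312) .nil)))))))) (.g (nat_lit 1) (.e (nat_lit 41221) (nat_lit 0) .nil) .nil))))))) 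
(.nd (nat_lit 6) (.nd (nat_lit 7) (.nd (nat_lit 8) (.nd (nat_lit 9) 
(.lf (nat_lit 454713) (.g (nat_lit 3194) (.e (nat_lit 2648) (nat_lit 166) (.e (nat_lit 188431) (nat_lit 20) (.e (nat_lit 3397) (nat_lit 211) (.e (nat_lit 647183) (nat_lit 4) (.e (nat_lit 172106) (nat_lit 10) (.e (nat_lit 434209) (nat_lit 18) (.e (nat_lit 5546) (nat_lit 306) .nil))))))) (.g (nat_lit 1) (.e (nat_lit 36492) (nat_lit 0) .nil) .nil))) 
(.lf (nat_lit 455225) (.g (nat_lit 3481) (.e (nat_lit 2663) (nat_lit 167) (.e (nat_lit 196666) (nat_lit 13) (.e (nat_lit 65610) (nat_lit 10) (.e (nat_lit 344117) (nat_lit 21) (.e (nat_lit 516145) (nat_lit 9) (.e (nat_lit 426362) (nat_lit 15) (.e (nat_lit 2018) (nat_lit 139) (.e (nat_lit 679968) (nat_lit 13) .nil)))))))) (.g (nat_lit 1) (.e (nat_lit 40530) (nat_lit 0) .nil) .nil)))) 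
(.nd (nat_lit 9) 
(.lf (nat_lit 454969) (.g (nat_lit 3887) (.e (nat_lit 2656) (nat_lit 167) (.e (nat_lit 196672) (nat_lit 15) (.e (nat_lit 81954) (nat_lit 23) (.e (nat_lit 98350) (nat_lit 24) (.e (nat_lit 409616) (nat_lit 10) (.e (nat_lit 7936) (nat_lit 312) .nil)))))) (.g (nat_lit 1) (.e (nat_lit 39923) (nat_lit 0) .nil) .nil))) 
(.lf (nat_lit 455481) (.g (nat_lit 3918) (.e (nat_lit 2663) (nat_lit 167) (.e (nat_lit 196670) (nat_lit 14) (.e (nat_lit 73746) (nat_lit 3) (.e (nat_lit 516129) (nat_lit 3) (.e (nat_lit 221210) (nat_lit 22) (.e (nat_lit 196658) (nat_lit 12) (.e (nat_lit 57508) (nat_lit 39) (.e (nat_lit 647176) (nat_lit 0) .nil)))))))) (.g (nat_lit 1) (.e (nat_lit 40903) (nat_lit 0) .nil) .nil))))) 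
(.nd (nat_lit 8) (.nd (nat_lit 9) 
(.lf (nat_lit 454841) (.g (nat_lit 3537) (.e (nat_lit 2651) (nat_lit 166) (.e (nat_lit 188439) (nat_lit 20) (.e (nat_lit 3408) (nat_lit 212) (.e (nat_lit 655380) (nat_lit 6) (.e (nat_lit 188453) (nat_lit 24) (.e (nat_lit 229663) (nat_lit 240) .nil)))))) (.g (nat_lit 1) (.e (nat_lit 38775) (nat_lit 0) .nil) .nil))) 
(.lf (nat_lit 455353) (.g (nat_lit 1753) (.e (nat_lit 2663) (nat_lit 167) (.e (nat_lit 196666) (nat_lit 13) (.e (nat_lit 65610) (nat_lit 10) (.e (nat_lit 344129) (nat_lit 26) .nil)))) (.g (nat_lit 0) (.e (nat_lit 40691) (nat_lit 0) .nil) .nil)))) (.nd (nat_lit 9) 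
(.lf (nat_lit 455097) (.g (nat_lit 2816) (.e (nat_lit 2663) (nat_lit 167) (.e (nat_lit 196654) (nat_lit 11) (.e (nat_lit 16436) (nat_lit 9) (.e (nat_lit 426131) (nat_lit 3) (.e (nat_lit 204854) (nat_lit 26) (.e (nat_lit 336332) (nat_lit 19) (.e (nat_lit 213000) (nat_lit 9) .nil))))))) (.g (nat_lit 1) (.e (nat_lit 40294) (nat_lit 0) .nil) .nil))) 
(.lf (nat_lit 455609) (.g (nat_lit 2390) (.e (nat_lit 2664) (nat_lit 167) (.e (nat_lit 196666) (nat_lit 13) (.e (nat_lit 65586) (nat_lit 7) (.e (nat_lit 319519) (nat_lit 12) (.e (nat_lit 32788) (nat_lit 10) (.e (nat_lit 73782) (nat_lit 32) .nil)))))) (.g (nat_lit 1) (.e (nat_lit 41173) (nat_lit 0) .nil) .nil)))))) (.nd (nat_lit 7) (.nd (nat_lit 8) (.nd (nat_lit 9) 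
(.lf (nat_lit 454777) (.g (nat_lit 3627) (.e (nat_lit 2650) (nat_lit 166) (.e (nat_lit 188441) (nat_lit 20) (.e (nat_lit 3409) (nat_lit 212) (.e (nat_lit 655378) (nat_lit 4) (.e (nat_lit 172115) (nat_lit 10) (.e (nat_lit 434209) (nat_lit 18) (.e (nat_lit 5547) (nat_lit 306) .nil))))))) (.g (nat_lit 1) (.e (nat_lit 37705) (nat_lit 0) .nil) .nil))) 
(.lf (nat_lit 455289) (.g (nat_lit 4230) (.e (nat_lit 2663) (nat_lit 167) (.e (nat_lit 196666) (nat_lit 13) (.e (nat_lit 65610) (nat_lit 10) (.e (nat_lit 344117) (nat_lit 21) (.e (nat_lit 516151) (nat_lit 9) (.e (nat_lit 426042) (nat_lit 0) (.e (nat_lit 2427) (nat_lit 157) (.e (nat_lit 4778) (nat_lit 281) (.e (nat_lit 2454) (nat_lit 157) .nil))))))))) (.g (nat_lit 1) (.e (nat_lit 40594) (nat_lit 0) .nil) .nil)))) 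
(.nd (nat_lit 9) 
(.lf (nat_lit 455033) (.g (nat_lit 3894) (.e (nat_lit 2661) (nat_lit 167) (.e (nat_lit 196666) (nat_lit 13) (.e (nat_lit 65610) (nat_lit 10) (.e (nat_lit 344117) (nat_lit 21) (.e (nat_lit 516142) (nat_lit 8) (.e (nat_lit 417817) (nat_lit 10) (.e (nat_lit 5647) (nat_lit 312) .nil))))))) (.g (nat_lit 1) (.e (nat_lit 40168) (nat_lit 0) .nil) .nil))) 
(.lf (nat_lit 455545) (.g (nat_lit 5459) (.e (nat_lit 2663) (nat_lit 167) (.e (nat_lit 196670) (nat_lit 14) (.e (nat_lit 73754) (nat_lit 8) (.e (nat_lit 557105) (nat_lit 14) (.e (nat_lit 180252) (nat_lit 10) (.e (nat_lit 573475) (nat_lit 12) (.e (nat_lit 57507) (nat_lit 39) (.e (nat_lit 647176) (nat_lit 0) .nil)))))))) (.g (nat_lit 1) (.e (nat_lit 40967) (nat_lit 0) .nil) .nil))))) 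
(.nd (nat_lit 8) (.nd (nat_lit 9) 
(.lf (nat_lit 454905) (.g (nat_lit 2160) (.e (nat_lit 2653) (nat_lit 166) (.e (nat_lit 188440) (nat_lit 20) (.e (nat_lit 3469) (nat_lit 217) (.e (nat_lit 696344) (nat_lit 8) (.e (nat_lit 172113) (nat_lit 10) (.e (nat_lit 434203) (nat_lit 18) (.e (nat_lit 6252) (nat_lit 337) .nil))))))) (.g (nat_lit 1) (.e (nat_lit 39311) (nat_lit 0) .nil) .nil))) 
(.lf (nat_lit 455417) (.g (nat_lit 2994) (.e (nat_lit 2663) (nat_lit 167) (.e (nat_lit 196666) (nat_lit 13) (.e (nat_lit 65617) (nat_lit 10) (.e (nat_lit 344132) (nat_lit 26) (.e (nat_lit 557093) (nat_lit 12) (.e (nat_lit 163847) (nat_lit 0) (.e (nat_lit 6420) (nat_lit 341) (.e (nat_lit 163843) (nat_lit 0) (.e (nat_lit 7366) (nat_lit 388) .nil))))))))) (.g (nat_lit 1) (.e (nat_lit 40809) (nat_lit 0) .nil) .nil)))) 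
(.nd (nat_lit 9) 
(.lf (nat_lit 455161) (.g (nat_lit 3769) (.e (nat_lit 2663) (nat_lit 167) (.e (nat_lit 196666) (nat_lit 13) (.e (nat_lit 65610) (nat_lit 10) (.e (nat_lit 344117) (nat_lit 21) (.e (nat_lit 516138) (nat_lit 7) (.e (nat_lit 409616) (nat_lit 10) (.e (nat_lit 5710) (nat_lit 312) .nil))))))) (.g (nat_lit 1) (.e (nat_lit 40466) (nat_lit 0) .nil) .nil))) 
(.lf (nat_lit 455673) (.g (nat_lit 3465) (.e (nat_lit 2664) (nat_lit 167) (.e (nat_lit 196666) (nat_lit 13) (.e (nat_lit 65610) (nat_lit 10) (.e (nat_lit 344117) (nat_lit 21) (.e (nat_lit 516142) (nat_lit 8) (.e (nat_lit 417818) (nat_lit 10) (.e (nat_lit 5726) (nat_lit 312) .nil))))))) (.g (nat_lit 1) (.e (nat_lit 41253) (nat_lit 0) .nil) .nil)))))))))) 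
(.nd (nat_lit 3) (.nd (nat_lit 4) (.nd (nat_lit 5) (.nd (nat_lit 6) (.nd (nat_lit 7) 
(.nd (nat_lit 8) (.nd (nat_lit 9) 
(.lf (nat_lit 454661) (.g (nat_lit 2536) (.e (nat_lit 2648) (nat_lit 166) (.e (nat_lit 188417) (nat_lit 0) (.e (nat_lit 2147) (nat_lit 142) (.e (nat_lit 704597) (nat_lit 6) (.e (nat_lit 188446) (nat_lit 21) (.e (nat_lit 164347) (nat_lit 240) .nil)))))) (.g (nat_lit 1) (.e (nat_lit 36406) (nat_lit 0) .nil) .nil))) 
(.lf (nat_lit 455173) (.g (nat_lit 3602) (.e (nat_lit 2663) (nat_lit 167) (.e (nat_lit 196666) (nat_lit 13) (.e (nat_lit 65610) (nat_lit 10) (.e (nat_lit 344117) (nat_lit 21) (.e (nat_lit 516141) (nat_lit 8) .nil))))) (.g (nat_lit 0) (.e (nat_lit 40478) (nat_lit 0) .nil) .nil)))) (.nd (nat_lit 9) 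
(.lf (nat_lit 454917) (.g (nat_lit 574) (.e (nat_lit 7936) (nat_lit 166) (.e (nat_lit 188418) (nat_lit 0) (.e (nat_lit 2175) (nat_lit 143) (.e (nat_lit 712753) (nat_lit 30) .nil)))) (.g (nat_lit 0) (.e (nat_lit 39520) (nat_lit 0) .nil) .nil))) 
(.lf (nat_lit 455429) (.g (nat_lit 5026) (.e (nat_lit 2663) (nat_lit 167) (.e (nat_lit 196666) (nat_lit 13) (.e (nat_lit 65617) (nat_lit 10) (.e (nat_lit 344133) (nat_lit 26) (.e (nat_lit 557091) (nat_lit 12) (.e (nat_lit 163843) (nat_lit 0) (.e (nat_lit 6420) (nat_lit 341) (.e (nat_lit 163843) (nat_lit 0) (.e (nat_lit 7366) (nat_lit 388) .nil))))))))) (.g (nat_lit 1) (.e (nat_lit 40822) (nat_lit 0) .nil) .nil))))) 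
(.nd (nat_lit 8) (.nd (nat_lit 9) 
(.lf (nat_lit 454789) (.g (nat_lit 2313) (.e (nat_lit 2651) (nat_lit 166) (.e (nat_lit 188420) (nat_lit 0) (.e (nat_lit 2056) (nat_lit 142) (.e (nat_lit 704598) (nat_lit 6) (.e (nat_lit 188455) (nat_lit 24) (.e (nat_lit 229664) (nat_lit 240) .nil)))))) (.g (nat_lit 1) (.e (nat_lit 38575) (nat_lit 0) .nil) .nil))) 
(.lf (nat_lit 455301) (.g (nat_lit 3401) (.e (nat_lit 2663) (nat_lit 167) (.e (nat_lit 196666) (nat_lit 13) (.e (nat_lit 65610) (nat_lit 10) (.e (nat_lit 344117) (nat_lit 21) (.e (nat_lit 516151) (nat_lit 9) (.e (nat_lit 426043) (nat_lit 0) (.e (nat_lit 3370) (nat_lit 208) (.e (nat_lit 622626) (nat_lit 13) .nil)))))))) (.g (nat_lit 1) (.e (nat_lit 40606) (nat_lit 0) .nil) .nil)))) 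
(.nd (nat_lit 9) 
(.lf (nat_lit 455045) (.g (nat_lit 3179) (.e (nat_lit 2661) (nat_lit 167) (.e (nat_lit 196666) (nat_lit 13) (.e (nat_lit 65610) (nat_lit 10) (.e (nat_lit 344129) (nat_lit 26) (.e (nat_lit 557087) (nat_lit 11) (.e (nat_lit 24584) (nat_lit 0) (.e (nat_lit 7936) (nat_lit 357) .nil))))))) (.g (nat_lit 1) (.e (nat_lit 40183) (nat_lit 0) .nil) .nil))) 
(.lf (nat_lit 455557) (.g (nat_lit 3001) (.e (nat_lit 2663) (nat_lit 167) (.e (nat_lit 196670) (nat_lit 14) (.e (nat_lit 73755) (nat_lit 8) (.e (nat_lit 557105) (nat_lit 14) (.e (nat_lit 180252) (nat_lit 10) (.e (nat_lit 573474) (nat_lit 12) (.e (nat_lit 57510) (nat_lit 39) (.e (nat_lit 647173) (nat_lit 0) .nil)))))))) (.g (nat_lit 1) (.e (nat_lit 40979) (nat_lit 0) .nil) .nil)))))) 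
(.nd (nat_lit 7) (.nd (nat_lit 8) (.nd (nat_lit 9) 
(.lf (nat_lit 454725) (.g (nat_lit 3385) (.e (nat_lit 2648) (nat_lit 166) (.e (nat_lit 188439) (nat_lit 20) (.e (nat_lit 3409) (nat_lit 212) (.e (nat_lit 655378) (nat_lit 4) (.e (nat_lit 172106) (nat_lit 10) (.e (nat_lit 434209) (nat_lit 18) (.e (nat_lit 5546) (nat_lit 306) .nil))))))) (.g (nat_lit 1) (.e (nat_lit 36608) (nat_lit 0) .nil) .nil))) 
(.lf (nat_lit 455237) (.g (nat_lit 3323) (.e (nat_lit 2663) (nat_lit 167) (.e (nat_lit 196666) (nat_lit 13) (.e (nat_lit 65610) (nat_lit 10) (.e (nat_lit 344117) (nat_lit 21) (.e (nat_lit 516151) (nat_lit 9) (.e (nat_lit 426003) (nat_lit 0) (.e (nat_lit 7936) (nat_lit 208) (.e (nat_lit 622620) (nat_lit 13) .nil)))))))) (.g (nat_lit 1) (.e (nat_lit 40542) (nat_lit 0) .nil) .nil)))) 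
(.nd (nat_lit 9) 
(.lf (nat_lit 454981) (.g (nat_lit 2121) (.e (nat_lit 2657) (nat_lit 167) (.e (nat_lit 196670) (nat_lit 14) (.e (nat_lit 73753) (nat_lit 8) (.e (nat_lit 557103) (nat_lit 14) (.e (nat_lit 180250) (nat_lit 10) .nil))))) (.g (nat_lit 0) (.e (nat_lit 39998) (nat_lit 0) .nil) .nil))) 
(.lf (nat_lit 455493) (.g (nat_lit 3152) (.e (nat_lit 2663) (nat_lit 167) (.e (nat_lit 196670) (nat_lit 14) (.e (nat_lit 73753) (nat_lit 8) (.e (nat_lit 557103) (nat_lit 14) (.e (nat_lit 180250) (nat_lit 10) (.e (nat_lit 573473) (nat_lit 12) (.e (nat_lit 57511) (nat_lit 39) (.e (nat_lit 647171) (nat_lit 0) .nil)))))))) (.g (nat_lit 1) (.e (nat_lit 40915) (nat_lit 0) .nil) .nil))))) 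
(.nd (nat_lit 8) (.nd (nat_lit 9) 
(.lf (nat_lit 454853) (.g (nat_lit 3677) (.e (nat_lit 2651) (nat_lit 166) (.e (nat_lit 188439) (nat_lit 20) (.e (nat_lit 3469) (nat_lit 217) (.e (nat_lit 696344) (nat_lit 8) (.e (nat_lit 172106) (nat_lit 10) (.e (nat_lit 434202) (nat_lit 18) (.e (nat_lit 6252) (nat_lit 337) .nil))))))) (.g (nat_lit 1) (.e (nat_lit 38829) (nat_lit 0) .nil) .nil))) 
(.lf (nat_lit 455365) (.g (nat_lit 1827) (.e (nat_lit 2663) (nat_lit 167) (.e (nat_lit 196666) (nat_lit 13) (.e (nat_lit 65617) (nat_lit 10) (.e (nat_lit 344091) (nat_lit 18) (.e (nat_lit 3985) (nat_lit 239) .nil))))) (.g (nat_lit 0) (.e (nat_lit 40705) (nat_lit 0) .nil) .nil)))) (.nd (nat_lit 9) 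
(.lf (nat_lit 455109) (.g (nat_lit 3477) (.e (nat_lit 2663) (nat_lit 167) (.e (nat_lit 196654) (nat_lit 11) (.e (nat_lit 16436) (nat_lit 9) (.e (nat_lit 426131) (nat_lit 3) (.e (nat_lit 204880) (nat_lit 32) (.e (nat_lit 385096) (nat_lit 49) (.e (nat_lit 778389) (nat_lit 9) .nil))))))) (.g (nat_lit 1) (.e (nat_lit 40306) (nat_lit 0) .nil) .nil))) 
(.lf (nat_lit 455621) (.g (nat_lit 4073) (.e (nat_lit 2664) (nat_lit 167) (.e (nat_lit 196666) (nat_lit 13) (.e (nat_lit 65610) (nat_lit 10) (.e (nat_lit 344117) (nat_lit 21) (.e (nat_lit 516097) (nat_lit 0) (.e (nat_lit 7581) (nat_lit 405) (.e (nat_lit 57747) (nat_lit 201) .nil))))))) (.g (nat_lit 1) (.e (nat_lit 41201) (nat_lit 0) .nil) .nil))))))) 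
(.nd (nat_lit 6) (.nd (nat_lit 7) (.nd (nat_lit 8) (.nd (nat_lit 9) 
(.lf (nat_lit 454693) (.g (nat_lit 2018) (.e (nat_lit 2648) (nat_lit 166) (.e (nat_lit 188420) (nat_lit 0) (.e (nat_lit 2059) (nat_lit 142) (.e (nat_lit 704598) (nat_lit 6) (.e (nat_lit 188444) (nat_lit 21) (.e (nat_lit 164345) (nat_lit 240) .nil)))))) (.g (nat_lit 1) (.e (nat_lit 36440) (nat_lit 0) .nil) .nil))) 
(.lf (nat_lit 455205) (.g (nat_lit 4177) (.e (nat_lit 2663) (nat_lit 167) (.e (nat_lit 196666) (nat_lit 13) (.e (nat_lit 65610) (nat_lit 10) (.e (nat_lit 344117) (nat_lit 21) (.e (nat_lit 516145) (nat_lit 9) (.e (nat_lit 426359) (nat_lit 15) (.e (nat_lit 2015) (nat_lit 139) (.e (nat_lit 679968) (nat_lit 13) .nil)))))))) (.g (nat_lit 1) (.e (nat_lit 40510) (nat_lit 0) .nil) .nil)))) 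
(.nd (nat_lit 9) 
(.lf (nat_lit 454949) (.g (nat_lit 2567) (.e (nat_lit 2654) (nat_lit 167) (.e (nat_lit 196672) (nat_lit 15) (.e (nat_lit 81954) (nat_lit 23) (.e (nat_lit 98350) (nat_lit 24) (.e (nat_lit 409616) (nat_lit 10) .nil))))) (.g (nat_lit 0) (.e (nat_lit 39826) (nat_lit 0) .nil) .nil))) 
(.lf (nat_lit 455461) (.g (nat_lit 2640) (.e (nat_lit 2663) (nat_lit 167) (.e (nat_lit 196666) (nat_lit 13) (.e (nat_lit 65630) (nat_lit 14) (.e (nat_lit 401428) (nat_lit 3) (.e (nat_lit 204862) (nat_lit 27) (.e (nat_lit 344068) (nat_lit 0) .nil)))))) (.g (nat_lit 1) (.e (nat_lit 40874) (nat_lit 0) .nil) .nil))))) (.nd (nat_lit 8) (.nd (nat_lit 9) 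
(.lf (nat_lit 454821) (.g (nat_lit 1819) (.e (nat_lit 2651) (nat_lit 166) (.e (nat_lit 196352) (nat_lit 0) (.e (nat_lit 2031) (nat_lit 140) (.e (nat_lit 688186) (nat_lit 18) (.e (nat_lit 81959) (nat_lit 24) (.e (nat_lit 123147) (nat_lit 250) .nil)))))) (.g (nat_lit 1) (.e (nat_lit 38610) (nat_lit 0) .nil) .nil))) 
(.lf (nat_lit 455333) (.g (nat_lit 4301) (.e (nat_lit 2663) (nat_lit 167) (.e (nat_lit 196666) (nat_lit 13) (.e (nat_lit 65610) (nat_lit 10) (.e (nat_lit 344117) (nat_lit 21) (.e (nat_lit 516160) (nat_lit 10) (.e (nat_lit 434208) (nat_lit 18) (.e (nat_lit 4778) (nat_lit 281) (.e (nat_lit 2454) (nat_lit 157) .nil)))))))) (.g (nat_lit 1) (.e (nat_lit 40638) (nat_lit 0) .nil) .nil)))) 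
(.nd (nat_lit 9) 
(.lf (nat_lit 455077) (.g (nat_lit 2586) (.e (nat_lit 2661) (nat_lit 167) (.e (nat_lit 196674) (nat_lit 15) (.e (nat_lit 81954) (nat_lit 23) (.e (nat_lit 98350) (nat_lit 24) (.e (nat_lit 409623) (nat_lit 10) (.e (nat_lit 5664) (nat_lit 312) .nil)))))) (.g (nat_lit 1) (.e (nat_lit 40231) (nat_lit 0) .nil) .nil))) 
(.lf (nat_lit 455589) (.g (nat_lit 4269) (.e (nat_lit 2663) (nat_lit 167) (.e (nat_lit 196674) (nat_lit 15) (.e (nat_lit 81956) (nat_lit 23) (.e (nat_lit 98350) (nat_lit 24) (.e (nat_lit 409617) (nat_lit 10) .nil))))) (.g (nat_lit 0) (.e (nat_lit 41049) (nat_lit 0) .nil) .nil)))))) (.nd (nat_lit 7) (.nd (nat_lit 8) (.nd (nat_lit 9) 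
(.lf (nat_lit 454757) (.g (nat_lit 3618) (.e (nat_lit 2650) (nat_lit 166) (.e (nat_lit 188427) (nat_lit 20) (.e (nat_lit 3402) (nat_lit 211) (.e (nat_lit 647183) (nat_lit 4) (.e (nat_lit 172115) (nat_lit 10) (.e (nat_lit 434209) (nat_lit 18) (.e (nat_lit 5548) (nat_lit 306) .nil))))))) (.g (nat_lit 1) (.e (nat_lit 37566) (nat_lit 0) .nil) .nil))) 
(.lf (nat_lit 455269) (.g (nat_lit 6149) (.e (nat_lit 2663) (nat_lit 167) (.e (nat_lit 196666) (nat_lit 13) (.e (nat_lit 65610) (nat_lit 10) (.e (nat_lit 344117) (nat_lit 21) (.e (nat_lit 516151) (nat_lit 9) (.e (nat_lit 426037) (nat_lit 0) (.e (nat_lit 3366) (nat_lit 208) (.e (nat_lit 622627) (nat_lit 13) .nil)))))))) (.g (nat_lit 1) (.e (nat_lit 40574) (nat_lit 0) .nil) .nil)))) 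
(.nd (nat_lit 9) 
(.lf (nat_lit 455013) (.g (nat_lit 3298) (.e (nat_lit 2661) (nat_lit 167) (.e (nat_lit 196666) (nat_lit 13) (.e (nat_lit 65610) (nat_lit 10) (.e (nat_lit 344117) (nat_lit 21) (.e (nat_lit 516102) (nat_lit 0) (.e (nat_lit 7107) (nat_lit 380) (.e (nat_lit 164361) (nat_lit 246) .nil))))))) (.g (nat_lit 1) (.e (nat_lit 40148) (nat_lit 0) .nil) .nil))) 
(.lf (nat_lit 455525) (.g (nat_lit 2942) (.e (nat_lit 2663) (nat_lit 167) (.e (nat_lit 196670) (nat_lit 14) (.e (nat_lit 73754) (nat_lit 8) (.e (nat_lit 557105) (nat_lit 14) (.e (nat_lit 180251) (nat_lit 10) (.e (nat_lit 573477) (nat_lit 12) (.e (nat_lit 57511) (nat_lit 39) (.e (nat_lit 647171) (nat_lit 0) .nil)))))))) (.g (nat_lit 1) (.e (nat_lit 40947) (nat_lit 0) .nil) .nil))))) 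
(.nd (nat_lit 8) (.nd (nat_lit 9) 
(.lf (nat_lit 454885) (.g (nat_lit 2130) (.e (nat_lit 2653) (nat_lit 166) (.e (nat_lit 188418) (nat_lit 0) (.e (nat_lit 2058) (nat_lit 142) (.e (nat_lit 704599) (nat_lit 6) (.e (nat_lit 188455) (nat_lit 24) (.e (nat_lit 229666) (nat_lit 240) .nil)))))) (.g (nat_lit 1) (.e (nat_lit 39200) (nat_lit 0) .nil) .nil))) 
(.lf (nat_lit 455397) (.g (nat_lit 4291) (.e (nat_lit 2663) (nat_lit 167) (.e (nat_lit 196666) (nat_lit 13) (.e (nat_lit 65617) (nat_lit 10) (.e (nat_lit 344130) (nat_lit 26) (.e (nat_lit 557087) (nat_lit 11) (.e (nat_lit 24584) (nat_lit 0) (.e (nat_lit 6676) (nat_lit 357) .nil))))))) (.g (nat_lit 1) (.e (nat_lit 40787) (nat_lit 0) .nil) .nil)))) (.nd (nat_lit 9) 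
(.lf (nat_lit 455141) (.g (nat_lit 6256) (.e (nat_lit 2663) (nat_lit 167) (.e (nat_lit 196666) (nat_lit 13) (.e (nat_lit 65610) (nat_lit 10) (.e (nat_lit 344117) (nat_lit 21) (.e (nat_lit 516098) (nat_lit 0) (.e (nat_lit 7581) (nat_lit 405) (.e (nat_lit 57750) (nat_lit 201) .nil))))))) (.g (nat_lit 1) (.e (nat_lit 40446) (nat_lit 0) .nil) .nil))) 
(.lf (nat_lit 455653) (.g (nat_lit 2463) (.e (nat_lit 2664) (nat_lit 167) (.e (nat_lit 196666) (nat_lit 13) (.e (nat_lit 65610) (nat_lit 10) (.e (nat_lit 344117) (nat_lit 21) (.e (nat_lit 516106) (nat_lit 0) (.e (nat_lit 7016) (nat_lit 377) (.e (nat_lit 2449) (nat_lit 157) (.e (nat_lit 5710) (nat_lit 312) .nil)))))))) (.g (nat_lit 1) (.e (nat_lit 41233) (nat_lit 0) .nil) .nil)))))))) 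
(.nd (nat_lit 5) (.nd (nat_lit 6) (.nd (nat_lit 7) (.nd (nat_lit 8) (.nd (nat_lit 9) 
(.lf (nat_lit 454677) (.g (nat_lit 1512) (.e (nat_lit 2648) (nat_lit 166) (.e (nat_lit 188418) (nat_lit 0) (.e (nat_lit 2174) (nat_lit 143) (.e (nat_lit 712753) (nat_lit 30) (.e (nat_lit 458496) (nat_lit 0) (.e (nat_lit 5547) (nat_lit 306) .nil)))))) (.g (nat_lit 1) (.e (nat_lit 36422) (nat_lit 0) .nil) .nil))) 
(.lf (nat_lit 455189) (.g (nat_lit 3380) (.e (nat_lit 2663) (nat_lit 167) (.e (nat_lit 196666) (nat_lit 13) (.e (nat_lit 65610) (nat_lit 10) (.e (nat_lit 344117) (nat_lit 21) (.e (nat_lit 516145) (nat_lit 9) (.e (nat_lit 425986) (nat_lit 0) (.e (nat_lit 3373) (nat_lit 208) (.e (nat_lit 622626) (nat_lit 13) .nil)))))))) (.g (nat_lit 1) (.e (nat_lit 40494) (nat_lit 0) .nil) .nil)))) 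
(.nd (nat_lit 9) 
(.lf (nat_lit 454933) (.g (nat_lit 3303) (.e (nat_lit 2654) (nat_lit 167) (.e (nat_lit 196666) (nat_lit 13) (.e (nat_lit 65610) (nat_lit 10) (.e (nat_lit 344117) (nat_lit 21) (.e (nat_lit 516159) (nat_lit 10) (.e (nat_lit 434208) (nat_lit 18) (.e (nat_lit 4754) (nat_lit 281) (.e (nat_lit 2510) (nat_lit 157) .nil)))))))) (.g (nat_lit 1) (.e (nat_lit 39803) (nat_lit 0) .nil) .nil))) 
(.lf (nat_lit 455445) (.g (nat_lit 2948) (.e (nat_lit 2663) (nat_lit 167) (.e (nat_lit 196666) (nat_lit 13) (.e (nat_lit 65628) (nat_lit 14) (.e (nat_lit 401425) (nat_lit 2) (.e (nat_lit 196669) (nat_lit 14) .nil))))) (.g (nat_lit 0) (.e (nat_lit 40850) (nat_lit 0) .nil) .nil))))) (.nd (nat_lit 8) (.nd (nat_lit 9) 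
(.lf (nat_lit 454805) (.g (nat_lit 2900) (.e (nat_lit 2651) (nat_lit 166) (.e (nat_lit 188420) (nat_lit 0) (.e (nat_lit 2059) (nat_lit 142) (.e (nat_lit 704599) (nat_lit 6) (.e (nat_lit 188455) (nat_lit 24) (.e (nat_lit 229664) (nat_lit 240) .nil)))))) (.g (nat_lit 1) (.e (nat_lit 38591) (nat_lit 0) .nil) .nil))) 
(.lf (nat_lit 455317) (.g (nat_lit 3580) (.e (nat_lit 2663) (nat_lit 167) (.e (nat_lit 196666) (nat_lit 13) (.e (nat_lit 65610) (nat_lit 10) (.e (nat_lit 344117) (nat_lit 21) (.e (nat_lit 516151) (nat_lit 9) (.e (nat_lit 426097) (nat_lit 1) (.e (nat_lit 164254) (nat_lit 215) (.e (nat_lit 2479) (nat_lit 157) .nil)))))))) (.g (nat_lit 1) (.e (nat_lit 40622) (nat_lit 0) .nil) .nil)))) 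
(.nd (nat_lit 9) 
(.lf (nat_lit 455061) (.g (nat_lit 2327) (.e (nat_lit 2661) (nat_lit 167) (.e (nat_lit 196672) (nat_lit 15) (.e (nat_lit 81954) (nat_lit 23) (.e (nat_lit 98323) (nat_lit 17) (.e (nat_lit 7101) (nat_lit 380) (.e (nat_lit 164359) (nat_lit 246) .nil)))))) (.g (nat_lit 1) (.e (nat_lit 40213) (nat_lit 0) .nil) .nil))) 
(.lf (nat_lit 455573) (.g (nat_lit 3124) (.e (nat_lit 2663) (nat_lit 167) (.e (nat_lit 196672) (nat_lit 15) (.e (nat_lit 81954) (nat_lit 23) (.e (nat_lit 98389) (nat_lit 33) (.e (nat_lit 491526) (nat_lit 0) (.e (nat_lit 6680) (nat_lit 357) .nil)))))) (.g (nat_lit 1) (.e (nat_lit 41023) (nat_lit 0) .nil) .nil)))))) (.nd (nat_lit 7) (.nd (nat_lit 8) (.nd (nat_lit 9) 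
(.lf (nat_lit 454741) (.g (nat_lit 1910) (.e (nat_lit 2649) (nat_lit 166) (.e (nat_lit 188434) (nat_lit 20) (.e (nat_lit 3390) (nat_lit 210) (.e (nat_lit 639007) (nat_lit 13) (.e (nat_lit 1598) (nat_lit 111) (.e (nat_lit 368384) (nat_lit 0) (.e (nat_lit 5170) (nat_lit 292) .nil))))))) (.g (nat_lit 1) (.e (nat_lit 37014) (nat_lit 0) .nil) .nil))) 
(.lf (nat_lit 455253) (.g (nat_lit 5651) (.e (nat_lit 2663) (nat_lit 167) (.e (nat_lit 196666) (nat_lit 13) (.e (nat_lit 65610) (nat_lit 10) (.e (nat_lit 344117) (nat_lit 21) (.e (nat_lit 516151) (nat_lit 9) (.e (nat_lit 426021) (nat_lit 0) (.e (nat_lit 3366) (nat_lit 208) (.e (nat_lit 622627) (nat_lit 13) .nil)))))))) (.g (nat_lit 1) (.e (nat_lit 40558) (nat_lit 0) .nil) .nil)))) 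
(.nd (nat_lit 9) 
(.lf (nat_lit 454997) (.g (nat_lit 4003) (.e (nat_lit 2657) (nat_lit 167) (.e (nat_lit 196672) (nat_lit 15) (.e (nat_lit 81956) (nat_lit 23) (.e (nat_lit 98350) (nat_lit 24) (.e (nat_lit 409617) (nat_lit 10) .nil))))) (.g (nat_lit 0) (.e (nat_lit 40075) (nat_lit 0) .nil) .nil))) 
(.lf (nat_lit 455509) (.g (nat_lit 3341) (.e (nat_lit 2663) (nat_lit 167) (.e (nat_lit 196670) (nat_lit 14) (.e (nat_lit 73753) (nat_lit 8) (.e (nat_lit 557105) (nat_lit 14) (.e (nat_lit 180252) (nat_lit 10) (.e (nat_lit 573473) (nat_lit 12) (.e (nat_lit 57508) (nat_lit 39) (.e (nat_lit 647175) (nat_lit 0) .nil)))))))) (.g (nat_lit 1) (.e (nat_lit 40931) (nat_lit 0) .nil) .nil))))) 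
(.nd (nat_lit 8) (.nd (nat_lit 9) 
(.lf (nat_lit 454869) (.g (nat_lit 872) (.e (nat_lit 2652) (nat_lit 166) (.e (nat_lit 188435) (nat_lit 20) (.e (nat_lit 3390) (nat_lit 210) (.e (nat_lit 639007) (nat_lit 13) (.e (nat_lit 1586) (nat_lit 111) (.e (nat_lit 368384) (nat_lit 0) (.e (nat_lit 5048) (nat_lit 292) .nil))))))) (.g (nat_lit 1) (.e (nat_lit 39072) (nat_lit 0) .nil) .nil))) 
(.lf (nat_lit 455381) (.g (nat_lit 2065) (.e (nat_lit 2663) (nat_lit 167) (.e (nat_lit 196666) (nat_lit 13) (.e (nat_lit 65617) (nat_lit 10) (.e (nat_lit 344130) (nat_lit 26) (.e (nat_lit 557086) (nat_lit 11) (.e (nat_lit 24577) (nat_lit 0) (.e (nat_lit 6691) (nat_lit 357) .nil))))))) (.g (nat_lit 1) (.e (nat_lit 40770) (nat_lit 0) .nil) .nil)))) (.nd (nat_lit 9) 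
(.lf (nat_lit 455125) (.g (nat_lit 2225) (.e (nat_lit 2663) (nat_lit 167) (.e (nat_lit 196666) (nat_lit 13) (.e (nat_lit 65610) (nat_lit 10) (.e (nat_lit 344117) (nat_lit 21) .nil)))) (.g (nat_lit 0) (.e (nat_lit 40430) (nat_lit 0) .nil) .nil))) 
(.lf (nat_lit 455637) (.g (nat_lit 2515) (.e (nat_lit 2664) (nat_lit 167) (.e (nat_lit 196666) (nat_lit 13) (.e (nat_lit 65610) (nat_lit 10) (.e (nat_lit 344117) (nat_lit 21) (.e (nat_lit 516102) (nat_lit 0) (.e (nat_lit 7107) (nat_lit 380) (.e (nat_lit 171776) (nat_lit 246) .nil))))))) (.g (nat_lit 1) (.e (nat_lit 41217) (nat_lit 0) .nil) .nil))))))) 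
(.nd (nat_lit 6) (.nd (nat_lit 7) (.nd (nat_lit 8) (.nd (nat_lit 9) 
(.lf (nat_lit 454709) (.g (nat_lit 2689) (.e (nat_lit 2648) (nat_lit 166) (.e (nat_lit 188420) (nat_lit 0) (.e (nat_lit 2175) (nat_lit 143) (.e (nat_lit 712753) (nat_lit 30) (.e (nat_lit 450564) (nat_lit 0) (.e (nat_lit 5548) (nat_lit 306) .nil)))))) (.g (nat_lit 1) (.e (nat_lit 36456) (nat_lit 0) .nil) .nil))) 
(.lf (nat_lit 455221) (.g (nat_lit 3596) (.e (nat_lit 2663) (nat_lit 167) (.e (nat_lit 196666) (nat_lit 13) (.e (nat_lit 65610) (nat_lit 10) (.e (nat_lit 344117) (nat_lit 21) (.e (nat_lit 516145) (nat_lit 9) (.e (nat_lit 426361) (nat_lit 15) (.e (nat_lit 2016) (nat_lit 139) (.e (nat_lit 679967) (nat_lit 13) .nil)))))))) (.g (nat_lit 1) (.e (nat_lit 40526) (nat_lit 0) .nil) .nil)))) 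
(.nd (nat_lit 9) 
(.lf (nat_lit 454965) (.g (nat_lit 2842) (.e (nat_lit 2656) (nat_lit 167) (.e (nat_lit 196666) (nat_lit 13) (.e (nat_lit 65610) (nat_lit 10) (.e (nat_lit 344129) (nat_lit 26) .nil)))) (.g (nat_lit 0) (.e (nat_lit 39855) (nat_lit 0) .nil) .nil))) 
(.lf (nat_lit 455477) (.g (nat_lit 3703) (.e (nat_lit 2663) (nat_lit 167) (.e (nat_lit 196669) (nat_lit 14) (.e (nat_lit 73755) (nat_lit 8) (.e (nat_lit 557105) (nat_lit 14) (.e (nat_lit 180252) (nat_lit 10) (.e (nat_lit 573474) (nat_lit 12) (.e (nat_lit 57506) (nat_lit 39) (.e (nat_lit 647176) (nat_lit 0) .nil)))))))) (.g (nat_lit 1) (.e (nat_lit 40899) (nat_lit 0) .nil) .nil))))) 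
(.nd (nat_lit 8) (.nd (nat_lit 9) 
(.lf (nat_lit 454837) (.g (nat_lit 2653) (.e (nat_lit 2651) (nat_lit 166) (.e (nat_lit 188439) (nat_lit 20) (.e (nat_lit 3406) (nat_lit 212) (.e (nat_lit 655380) (nat_lit 6) (.e (nat_lit 188455) (nat_lit 24) (.e (nat_lit 229664) (nat_lit 240) .nil)))))) (.g (nat_lit 1) (.e (nat_lit 38754) (nat_lit 0) .nil) .nil))) 
(.lf (nat_lit 455349) (.g (nat_lit 4269) (.e (nat_lit 2663) (nat_lit 167) (.e (nat_lit 196666) (nat_lit 13) (.e (nat_lit 65610) (nat_lit 10) (.e (nat_lit 344117) (nat_lit 21) (.e (nat_lit 516185) (nat_lit 16) (.e (nat_lit 491530) (nat_lit 0) (.e (nat_lit 6659) (nat_lit 357) .nil))))))) (.g (nat_lit 1) (.e (nat_lit 40675) (nat_lit 0) .nil) .nil)))) (.nd (nat_lit 9) 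
(.lf (nat_lit 455093) (.g (nat_lit 3059) (.e (nat_lit 2663) (nat_lit 167) (.e (nat_lit 196654) (nat_lit 11) (.e (nat_lit 16436) (nat_lit 9) (.e (nat_lit 426131) (nat_lit 3) (.e (nat_lit 204852) (nat_lit 26) (.e (nat_lit 336328) (nat_lit 19) (.e (nat_lit 213016) (nat_lit 9) .nil))))))) (.g (nat_lit 1) (.e (nat_lit 40288) (nat_lit 0) .nil) .nil))) 
(.lf (nat_lit 455605) (.g (nat_lit 1838) (.e (nat_lit 2664) (nat_lit 167) (.e (nat_lit 196666) (nat_lit 13) (.e (nat_lit 65584) (nat_lit 7) (.e (nat_lit 319519) (nat_lit 12) (.e (nat_lit 32788) (nat_lit 10) (.e (nat_lit 73781) (nat_lit 32) .nil)))))) (.g (nat_lit 1) (.e (nat_lit 41169) (nat_lit 0) .nil) .nil)))))) (.nd (nat_lit 7) (.nd (nat_lit 8) (.nd (nat_lit 9) 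
(.lf (nat_lit 454773) (.g (nat_lit 3579) (.e (nat_lit 2650) (nat_lit 166) (.e (nat_lit 188441) (nat_lit 20) (.e (nat_lit 3409) (nat_lit 212) (.e (nat_lit 655378) (nat_lit 4) (.e (nat_lit 172094) (nat_lit 9) (.e (nat_lit 426109) (nat_lit 1) (.e (nat_lit 164347) (nat_lit 240) .nil))))))) (.g (nat_lit 1) (.e (nat_lit 37700) (nat_lit 0) .nil) .nil))) 
(.lf (nat_lit 455285) (.g (nat_lit 3418) (.e (nat_lit 2663) (nat_lit 167) (.e (nat_lit 196666) (nat_lit 13) (.e (nat_lit 65610) (nat_lit 10) (.e (nat_lit 344117) (nat_lit 21) (.e (nat_lit 516151) (nat_lit 9) (.e (nat_lit 426041) (nat_lit 0) (.e (nat_lit 3370) (nat_lit 208) (.e (nat_lit 622620) (nat_lit 13) .nil)))))))) (.g (nat_lit 1) (.e (nat_lit 40590) (nat_lit 0) .nil) .nil)))) 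
(.nd (nat_lit 9) 
(.lf (nat_lit 455029) (.g (nat_lit 2040) (.e (nat_lit 2661) (nat_lit 167) (.e (nat_lit 196666) (nat_lit 13) (.e (nat_lit 65610) (nat_lit 10) (.e (nat_lit 344117) (nat_lit 21) (.e (nat_lit 516138) (nat_lit 7) (.e (nat_lit 409612) (nat_lit 10) (.e (nat_lit 5658) (nat_lit 312) .nil))))))) (.g (nat_lit 1) (.e (nat_lit 40164) (nat_lit 0) .nil) .nil))) 
(.lf (nat_lit 455541) (.g (nat_lit 4248) (.e (nat_lit 2663) (nat_lit 167) (.e (nat_lit 196670) (nat_lit 14) (.e (nat_lit 73754) (nat_lit 8) (.e (nat_lit 557105) (nat_lit 14) (.e (nat_lit 180252) (nat_lit 10) (.e (nat_lit 573474) (nat_lit 12) (.e (nat_lit 57511) (nat_lit 39) (.e (nat_lit 647171) (nat_lit 0) .nil)))))))) (.g (nat_lit 1) (.e (nat_lit 40963) (nat_lit 0) .nil) .nil))))) 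
(.nd (nat_lit 8) (.nd (nat_lit 9) 
(.lf (nat_lit 454901) (.g (nat_lit 454) (.e (nat_lit 2653) (nat_lit 166) (.e (nat_lit 188440) (nat_lit 20) (.e (nat_lit 3408) (nat_lit 212) .nil))) (.g (nat_lit 0) (.e (nat_lit 39277) (nat_lit 0) .nil) .nil))) 
(.lf (nat_lit 455413) (.g (nat_lit 3372) (.e (nat_lit 2663) (nat_lit 167) (.e (nat_lit 196666) (nat_lit 13) (.e (nat_lit 65617) (nat_lit 10) (.e (nat_lit 344130) (nat_lit 26) (.e (nat_lit 557090) (nat_lit 12) (.e (nat_lit 163849) (nat_lit 0) (.e (nat_lit 6420) (nat_lit 341) (.e (nat_lit 163843) (nat_lit 0) (.e (nat_lit 7366) (nat_lit 388) .nil))))))))) (.g (nat_lit 1) (.e (nat_lit 40803) (nat_lit 0) .nil) .nil)))) 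
(.nd (nat_lit 9) 
(.lf (nat_lit 455157) (.g (nat_lit 5054) (.e (nat_lit 2663) (nat_lit 167) (.e (nat_lit 196666) (nat_lit 13) (.e (nat_lit 65610) (nat_lit 10) (.e (nat_lit 344117) (nat_lit 21) (.e (nat_lit 516106) (nat_lit 0) (.e (nat_lit 7936) (nat_lit 405) (.e (nat_lit 57750) (nat_lit 201) .nil))))))) (.g (nat_lit 1) (.e (nat_lit 40462) (nat_lit 0) .nil) .nil))) 
(.lf (nat_lit 455669) (.g (nat_lit 3139) (.e (nat_lit 2664) (nat_lit 167) (.e (nat_lit 196666) (nat_lit 13) (.e (nat_lit 65610) (nat_lit 10) (.e (nat_lit 344117) (nat_lit 21) (.e (nat_lit 516142) (nat_lit 8) (.e (nat_lit 417814) (nat_lit 10) (.e (nat_lit 5726) (nat_lit 312) .nil))))))) (.g (nat_lit 1) (.e (nat_lit 41249) (nat_lit 0) .nil) .nil))))))))) 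
(.nd (nat_lit 4) (.nd (nat_lit 5) (.nd (nat_lit 6) (.nd (nat_lit 7) (.nd (nat_lit 8) 
(.nd (nat_lit 9) 
(.lf (nat_lit 454669) (.g (nat_lit 1518) (.e (nat_lit 2648) (nat_lit 166) (.e (nat_lit 188418) (nat_lit 0) (.e (nat_lit 2059) (nat_lit 142) (.e (nat_lit 704598) (nat_lit 6) (.e (nat_lit 188444) (nat_lit 21) (.e (nat_lit 164345) (nat_lit 240) .nil)))))) (.g (nat_lit 1) (.e (nat_lit 36414) (nat_lit 0) .nil) .nil))) 
(.lf (nat_lit 455181) (.g (nat_lit 3741) (.e (nat_lit 2663) (nat_lit 167) (.e (nat_lit 196666) (nat_lit 13) (.e (nat_lit 65610) (nat_lit 10) (.e (nat_lit 344117) (nat_lit 21) (.e (nat_lit 516142) (nat_lit 8) (.e (nat_lit 417817) (nat_lit 10) (.e (nat_lit 5726) (nat_lit 312) .nil))))))) (.g (nat_lit 1) (.e (nat_lit 40486) (nat_lit 0) .nil) .nil)))) (.nd (nat_lit 9) 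
(.lf (nat_lit 454925) (.g (nat_lit 2943) (.e (nat_lit 2654) (nat_lit 167) (.e (nat_lit 196666) (nat_lit 13) (.e (nat_lit 65610) (nat_lit 10) (.e (nat_lit 344117) (nat_lit 21) (.e (nat_lit 516098) (nat_lit 0) (.e (nat_lit 7110) (nat_lit 380) (.e (nat_lit 164359) (nat_lit 246) .nil))))))) (.g (nat_lit 1) (.e (nat_lit 39795) (nat_lit 0) .nil) .nil))) 
(.lf (nat_lit 455437) (.g (nat_lit 3446) (.e (nat_lit 2663) (nat_lit 167) (.e (nat_lit 196666) (nat_lit 13) (.e (nat_lit 65622) (nat_lit 12) (.e (nat_lit 385074) (nat_lit 31) (.e (nat_lit 573489) (nat_lit 14) (.e (nat_lit 73782) (nat_lit 32) .nil)))))) (.g (nat_lit 1) (.e (nat_lit 40831) (nat_lit 0) .nil) .nil))))) (.nd (nat_lit 8) (.nd (nat_lit 9) 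
(.lf (nat_lit 454797) (.g (nat_lit 2629) (.e (nat_lit 2651) (nat_lit 166) (.e (nat_lit 188420) (nat_lit 0) (.e (nat_lit 2058) (nat_lit 142) (.e (nat_lit 704599) (nat_lit 6) (.e (nat_lit 188453) (nat_lit 24) (.e (nat_lit 229664) (nat_lit 240) .nil)))))) (.g (nat_lit 1) (.e (nat_lit 38583) (nat_lit 0) .nil) .nil))) 
(.lf (nat_lit 455309) (.g (nat_lit 3291) (.e (nat_lit 2663) (nat_lit 167) (.e (nat_lit 196666) (nat_lit 13) (.e (nat_lit 65610) (nat_lit 10) (.e (nat_lit 344117) (nat_lit 21) (.e (nat_lit 516151) (nat_lit 9) (.e (nat_lit 426050) (nat_lit 0) (.e (nat_lit 7936) (nat_lit 208) (.e (nat_lit 622627) (nat_lit 13) .nil)))))))) (.g (nat_lit 1) (.e (nat_lit 40614) (nat_lit 0) .nil) .nil)))) 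
(.nd (nat_lit 9) 
(.lf (nat_lit 455053) (.g (nat_lit 2256) (.e (nat_lit 2661) (nat_lit 167) (.e (nat_lit 196666) (nat_lit 13) (.e (nat_lit 65628) (nat_lit 14) (.e (nat_lit 401428) (nat_lit 3) (.e (nat_lit 204846) (nat_lit 24) (.e (nat_lit 319491) (nat_lit 0) (.e (nat_lit 5664) (nat_lit 312) .nil))))))) (.g (nat_lit 1) (.e (nat_lit 40193) (nat_lit 0) .nil) .nil))) 
(.lf (nat_lit 455565) (.g (nat_lit 2734) (.e (nat_lit 2663) (nat_lit 167) (.e (nat_lit 196672) (nat_lit 15) (.e (nat_lit 81954) (nat_lit 23) (.e (nat_lit 98349) (nat_lit 24) (.e (nat_lit 409610) (nat_lit 10) (.e (nat_lit 5738) (nat_lit 312) .nil)))))) (.g (nat_lit 1) (.e (nat_lit 41010) (nat_lit 0) .nil) .nil)))))) (.nd (nat_lit 7) (.nd (nat_lit 8) (.nd (nat_lit 9) 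
(.lf (nat_lit 454733) (.g (nat_lit 3693) (.e (nat_lit 2648) (nat_lit 166) (.e (nat_lit 188441) (nat_lit 20) (.e (nat_lit 3409) (nat_lit 212) (.e (nat_lit 655378) (nat_lit 4) (.e (nat_lit 172106) (nat_lit 10) (.e (nat_lit 434209) (nat_lit 18) (.e (nat_lit 5546) (nat_lit 306) .nil))))))) (.g (nat_lit 1) (.e (nat_lit 36716) (nat_lit 0) .nil) .nil))) 
(.lf (nat_lit 455245) (.g (nat_lit 3302) (.e (nat_lit 2663) (nat_lit 167) (.e (nat_lit 196666) (nat_lit 13) (.e (nat_lit 65610) (nat_lit 10) (.e (nat_lit 344117) (nat_lit 21) (.e (nat_lit 516151) (nat_lit 9) (.e (nat_lit 426017) (nat_lit 0) (.e (nat_lit 7936) (nat_lit 208) (.e (nat_lit 622626) (nat_lit 13) .nil)))))))) (.g (nat_lit 1) (.e (nat_lit 40550) (nat_lit 0) .nil) .nil)))) 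
(.nd (nat_lit 9) 
(.lf (nat_lit 454989) (.g (nat_lit 2586) (.e (nat_lit 2657) (nat_lit 167) (.e (nat_lit 196672) (nat_lit 15) (.e (nat_lit 81954) (nat_lit 23) (.e (nat_lit 98349) (nat_lit 24) (.e (nat_lit 409612) (nat_lit 10) .nil))))) (.g (nat_lit 0) (.e (nat_lit 40053) (nat_lit 0) .nil) .nil))) 
(.lf (nat_lit 455501) (.g (nat_lit 3000) (.e (nat_lit 2663) (nat_lit 167) (.e (nat_lit 196670) (nat_lit 14) (.e (nat_lit 73753) (nat_lit 8) (.e (nat_lit 557104) (nat_lit 14) (.e (nat_lit 180252) (nat_lit 10) (.e (nat_lit 573474) (nat_lit 12) (.e (nat_lit 57507) (nat_lit 39) (.e (nat_lit 647176) (nat_lit 0) .nil)))))))) (.g (nat_lit 1) (.e (nat_lit 40923) (nat_lit 0) .nil) .nil))))) 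
(.nd (nat_lit 8) (.nd (nat_lit 9) 
(.lf (nat_lit 454861) (.g (nat_lit 2347) (.e (nat_lit 2651) (nat_lit 166) (.e (nat_lit 188441) (nat_lit 20) (.e (nat_lit 3469) (nat_lit 217) (.e (nat_lit 696344) (nat_lit 8) (.e (nat_lit 172106) (nat_lit 10) (.e (nat_lit 434202) (nat_lit 18) (.e (nat_lit 6255) (nat_lit 337) .nil))))))) (.g (nat_lit 1) (.e (nat_lit 38843) (nat_lit 0) .nil) .nil))) 
(.lf (nat_lit 455373) (.g (nat_lit 811) (.e (nat_lit 2663) (nat_lit 167) (.e (nat_lit 196666) (nat_lit 13) (.e (nat_lit 65617) (nat_lit 10) (.e (nat_lit 344127) (nat_lit 26) .nil)))) (.g (nat_lit 0) (.e (nat_lit 40760) (nat_lit 0) .nil) .nil)))) (.nd (nat_lit 9) 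
(.lf (nat_lit 455117) (.g (nat_lit 3262) (.e (nat_lit 2663) (nat_lit 167) (.e (nat_lit 196654) (nat_lit 11) (.e (nat_lit 16436) (nat_lit 9) (.e (nat_lit 426131) (nat_lit 3) (.e (nat_lit 204880) (nat_lit 32) (.e (nat_lit 385096) (nat_lit 49) (.e (nat_lit 778397) (nat_lit 9) .nil))))))) (.g (nat_lit 1) (.e (nat_lit 40314) (nat_lit 0) .nil) .nil))) 
(.lf (nat_lit 455629) (.g (nat_lit 3233) (.e (nat_lit 2664) (nat_lit 167) (.e (nat_lit 196666) (nat_lit 13) (.e (nat_lit 65610) (nat_lit 10) (.e (nat_lit 344117) (nat_lit 21) (.e (nat_lit 516098) (nat_lit 0) (.e (nat_lit 7579) (nat_lit 405) (.e (nat_lit 57751) (nat_lit 201) .nil))))))) (.g (nat_lit 1) (.e (nat_lit 41209) (nat_lit 0) .nil) .nil))))))) 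
(.nd (nat_lit 6) (.nd (nat_lit 7) (.nd (nat_lit 8) (.nd (nat_lit 9) 
(.lf (nat_lit 454701) (.g (nat_lit 2708) (.e (nat_lit 2648) (nat_lit 166) (.e (nat_lit 188420) (nat_lit 0) (.e (nat_lit 2174) (nat_lit 143) (.e (nat_lit 712753) (nat_lit 30) (.e (nat_lit 450564) (nat_lit 0) (.e (nat_lit 5546) (nat_lit 306) .nil)))))) (.g (nat_lit 1) (.e (nat_lit 36448) (nat_lit 0) .nil) .nil))) 
(.lf (nat_lit 455213) (.g (nat_lit 3568) (.e (nat_lit 2663) (nat_lit 167) (.e (nat_lit 196666) (nat_lit 13) (.e (nat_lit 65610) (nat_lit 10) (.e (nat_lit 344117) (nat_lit 21) (.e (nat_lit 516145) (nat_lit 9) (.e (nat_lit 426360) (nat_lit 15) (.e (nat_lit 2017) (nat_lit 139) (.e (nat_lit 679968) (nat_lit 13) .nil)))))))) (.g (nat_lit 1) (.e (nat_lit 40518) (nat_lit 0) .nil) .nil)))) 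
(.nd (nat_lit 9) 
(.lf (nat_lit 454957) (.g (nat_lit 2431) (.e (nat_lit 2654) (nat_lit 167) (.e (nat_lit 196672) (nat_lit 15) (.e (nat_lit 81954) (nat_lit 23) (.e (nat_lit 98353) (nat_lit 25) (.e (nat_lit 417817) (nat_lit 10) (.e (nat_lit 5666) (nat_lit 312) .nil)))))) (.g (nat_lit 1) (.e (nat_lit 39834) (nat_lit 0) .nil) .nil))) 
(.lf (nat_lit 455469) (.g (nat_lit 3803) (.e (nat_lit 2663) (nat_lit 167) (.e (nat_lit 196668) (nat_lit 14) (.e (nat_lit 73753) (nat_lit 8) (.e (nat_lit 557103) (nat_lit 14) (.e (nat_lit 180250) (nat_lit 10) (.e (nat_lit 573474) (nat_lit 12) (.e (nat_lit 57507) (nat_lit 39) (.e (nat_lit 647176) (nat_lit 0) .nil)))))))) (.g (nat_lit 1) (.e (nat_lit 40888) (nat_lit 0) .nil) .nil))))) 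
(.nd (nat_lit 8) (.nd (nat_lit 9) 
(.lf (nat_lit 454829) (.g (nat_lit 2214) (.e (nat_lit 2651) (nat_lit 166) (.e (nat_lit 188431) (nat_lit 20) (.e (nat_lit 3399) (nat_lit 211) (.e (nat_lit 647185) (nat_lit 6) (.e (nat_lit 188453) (nat_lit 24) (.e (nat_lit 229664) (nat_lit 240) .nil)))))) (.g (nat_lit 1) (.e (nat_lit 38692) (nat_lit 0) .nil) .nil))) 
(.lf (nat_lit 455341) (.g (nat_lit 3393) (.e (nat_lit 2663) (nat_lit 167) (.e (nat_lit 196666) (nat_lit 13) (.e (nat_lit 65610) (nat_lit 10) (.e (nat_lit 344117) (nat_lit 21) (.e (nat_lit 516185) (nat_lit 16) (.e (nat_lit 491520) (nat_lit 0) (.e (nat_lit 6654) (nat_lit 357) .nil))))))) (.g (nat_lit 1) (.e (nat_lit 40667) (nat_lit 0) .nil) .nil)))) (.nd (nat_lit 9) 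
(.lf (nat_lit 455085) (.g (nat_lit 1973) (.e (nat_lit 2662) (nat_lit 167) (.e (nat_lit 196669) (nat_lit 14) (.e (nat_lit 73755) (nat_lit 8) (.e (nat_lit 557105) (nat_lit 14) (.e (nat_lit 180252) (nat_lit 10) (.e (nat_lit 573474) (nat_lit 12) (.e (nat_lit 57508) (nat_lit 39) (.e (nat_lit 647168) (nat_lit 0) .nil)))))))) (.g (nat_lit 1) (.e (nat_lit 40239) (nat_lit 0) .nil) .nil))) 
(.lf (nat_lit 455597) (.g (nat_lit 1628) (.e (nat_lit 2664) (nat_lit 167) (.e (nat_lit 196666) (nat_lit 13) (.e (nat_lit 65581) (nat_lit 7) (.e (nat_lit 319519) (nat_lit 12) (.e (nat_lit 32788) (nat_lit 10) (.e (nat_lit 73781) (nat_lit 32) .nil)))))) (.g (nat_lit 1) (.e (nat_lit 41161) (nat_lit 0) .nil) .nil)))))) (.nd (nat_lit 7) (.nd (nat_lit 8) (.nd (nat_lit 9) 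
(.lf (nat_lit 454765) (.g (nat_lit 3760) (.e (nat_lit 2650) (nat_lit 166) (.e (nat_lit 188434) (nat_lit 20) (.e (nat_lit 3409) (nat_lit 212) (.e (nat_lit 655378) (nat_lit 4) (.e (nat_lit 172106) (nat_lit 10) (.e (nat_lit 434209) (nat_lit 18) (.e (nat_lit 5547) (nat_lit 306) .nil))))))) (.g (nat_lit 1) (.e (nat_lit 37648) (nat_lit 0) .nil) .nil))) 
(.lf (nat_lit 455277) (.g (nat_lit 6116) (.e (nat_lit 2663) (nat_lit 167) (.e (nat_lit 196666) (nat_lit 13) (.e (nat_lit 65610) (nat_lit 10) (.e (nat_lit 344117) (nat_lit 21) (.e (nat_lit 516151) (nat_lit 9) (.e (nat_lit 426038) (nat_lit 0) (.e (nat_lit 3370) (nat_lit 208) (.e (nat_lit 622626) (nat_lit 13) .nil)))))))) (.g (nat_lit 1) (.e (nat_lit 40582) (nat_lit 0) .nil) .nil)))) 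
(.nd (nat_lit 9) 
(.lf (nat_lit 455021) (.g (nat_lit 2754) (.e (nat_lit 2661) (nat_lit 167) (.e (nat_lit 196666) (nat_lit 13) (.e (nat_lit 65610) (nat_lit 10) (.e (nat_lit 344117) (nat_lit 21) (.e (nat_lit 516106) (nat_lit 0) (.e (nat_lit 6986) (nat_lit 377) (.e (nat_lit 7936) (nat_lit 157) (.e (nat_lit 5642) (nat_lit 312) .nil)))))))) (.g (nat_lit 1) (.e (nat_lit 40156) (nat_lit 0) .nil) .nil))) 
(.lf (nat_lit 455533) (.g (nat_lit 2201) (.e (nat_lit 2663) (nat_lit 167) (.e (nat_lit 196670) (nat_lit 14) (.e (nat_lit 73754) (nat_lit 8) (.e (nat_lit 557105) (nat_lit 14) (.e (nat_lit 180252) (nat_lit 10) (.e (nat_lit 573473) (nat_lit 12) (.e (nat_lit 57508) (nat_lit 39) (.e (nat_lit 655104) (nat_lit 0) .nil)))))))) (.g (nat_lit 1) (.e (nat_lit 40955) (nat_lit 0) .nil) .nil))))) 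
(.nd (nat_lit 8) (.nd (nat_lit 9) 
(.lf (nat_lit 454893) (.g (nat_lit 2735) (.e (nat_lit 2653) (nat_lit 166) (.e (nat_lit 188418) (nat_lit 0) (.e (nat_lit 2174) (nat_lit 143) (.e (nat_lit 712755) (nat_lit 30) (.e (nat_lit 450569) (nat_lit 0) (.e (nat_lit 5448) (nat_lit 306) .nil)))))) (.g (nat_lit 1) (.e (nat_lit 39209) (nat_lit 0) .nil) .nil))) 
(.lf (nat_lit 455405) (.g (nat_lit 2617) (.e (nat_lit 2663) (nat_lit 167) (.e (nat_lit 196666) (nat_lit 13) (.e (nat_lit 65617) (nat_lit 10) (.e (nat_lit 344130) (nat_lit 26) (.e (nat_lit 557087) (nat_lit 11) (.e (nat_lit 24589) (nat_lit 0) (.e (nat_lit 6676) (nat_lit 357) .nil))))))) (.g (nat_lit 1) (.e (nat_lit 40795) (nat_lit 0) .nil) .nil)))) (.nd (nat_lit 9) 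
(.lf (nat_lit 455149) (.g (nat_lit 3477) (.e (nat_lit 2663) (nat_lit 167) (.e (nat_lit 196666) (nat_lit 13) (.e (nat_lit 65610) (nat_lit 10) (.e (nat_lit 344117) (nat_lit 21) (.e (nat_lit 516102) (nat_lit 0) (.e (nat_lit 7114) (nat_lit 381) (.e (nat_lit 229690) (nat_lit 246) .nil))))))) (.g (nat_lit 1) (.e (nat_lit 40454) (nat_lit 0) .nil) .nil))) 
(.lf (nat_lit 455661) (.g (nat_lit 4187) (.e (nat_lit 2664) (nat_lit 167) (.e (nat_lit 196666) (nat_lit 13) (.e (nat_lit 65610) (nat_lit 10) (.e (nat_lit 344117) (nat_lit 21) (.e (nat_lit 516139) (nat_lit 7) (.e (nat_lit 409616) (nat_lit 10) (.e (nat_lit 5710) (nat_lit 312) .nil))))))) (.g (nat_lit 1) (.e (nat_lit 41241) (nat_lit 0) .nil) .nil)))))))) 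
(.nd (nat_lit 5) (.nd (nat_lit 6) (.nd (nat_lit 7) (.nd (nat_lit 8) (.nd (nat_lit 9) 
(.lf (nat_lit 454685) (.g (nat_lit 1358) (.e (nat_lit 2648) (nat_lit 166) (.e (nat_lit 188420) (nat_lit 0) (.e (nat_lit 2056) (nat_lit 142) (.e (nat_lit 704598) (nat_lit 6) (.e (nat_lit 188444) (nat_lit 21) (.e (nat_lit 164346) (nat_lit 240) .nil)))))) (.g (nat_lit 1) (.e (nat_lit 36430) (nat_lit 0) .nil) .nil))) 
(.lf (nat_lit 455197) (.g (nat_lit 3324) (.e (nat_lit 2663) (nat_lit 167) (.e (nat_lit 196666) (nat_lit 13) (.e (nat_lit 65610) (nat_lit 10) (.e (nat_lit 344117) (nat_lit 21) (.e (nat_lit 516145) (nat_lit 9) (.e (nat_lit 426085) (nat_lit 0) (.e (nat_lit 3366) (nat_lit 208) (.e (nat_lit 622626) (nat_lit 13) .nil)))))))) (.g (nat_lit 1) (.e (nat_lit 40502) (nat_lit 0) .nil) .nil)))) 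
(.nd (nat_lit 9) 
(.lf (nat_lit 454941) (.g (nat_lit 2877) (.e (nat_lit 2654) (nat_lit 167) (.e (nat_lit 196671) (nat_lit 15) (.e (nat_lit 81956) (nat_lit 23) (.e (nat_lit 98350) (nat_lit 24) (.e (nat_lit 409616) (nat_lit 10) .nil))))) (.g (nat_lit 0) (.e (nat_lit 39814) (nat_lit 0) .nil) .nil))) 
(.lf (nat_lit 455453) (.g (nat_lit 1687) (.e (nat_lit 2663) (nat_lit 167) (.e (nat_lit 196666) (nat_lit 13) (.e (nat_lit 65630) (nat_lit 14) (.e (nat_lit 401412) (nat_lit 0) .nil)))) (.g (nat_lit 0) (.e (nat_lit 40860) (nat_lit 0) .nil) .nil))))) (.nd (nat_lit 8) (.nd (nat_lit 9) 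
(.lf (nat_lit 454813) (.g (nat_lit 2911) (.e (nat_lit 2651) (nat_lit 166) (.e (nat_lit 188420) (nat_lit 0) (.e (nat_lit 2175) (nat_lit 143) (.e (nat_lit 712752) (nat_lit 29) (.e (nat_lit 442430) (nat_lit 24) (.e (nat_lit 229664) (nat_lit 240) .nil)))))) (.g (nat_lit 1) (.e (nat_lit 38602) (nat_lit 0) .nil) .nil))) 
(.lf (nat_lit 455325) (.g (nat_lit 4045) (.e (nat_lit 2663) (nat_lit 167) (.e (nat_lit 196666) (nat_lit 13) (.e (nat_lit 65610) (nat_lit 10) (.e (nat_lit 344117) (nat_lit 21) (.e (nat_lit 516160) (nat_lit 10) (.e (nat_lit 434200) (nat_lit 18) (.e (nat_lit 4818) (nat_lit 281) (.e (nat_lit 2477) (nat_lit 157) .nil)))))))) (.g (nat_lit 1) (.e (nat_lit 40630) (nat_lit 0) .nil) .nil)))) 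
(.nd (nat_lit 9) 
(.lf (nat_lit 455069) (.g (nat_lit 2800) (.e (nat_lit 2661) (nat_lit 167) (.e (nat_lit 196673) (nat_lit 15) (.e (nat_lit 81956) (nat_lit 23) (.e (nat_lit 98350) (nat_lit 24) (.e (nat_lit 409623) (nat_lit 10) (.e (nat_lit 5664) (nat_lit 312) .nil)))))) (.g (nat_lit 1) (.e (nat_lit 40222) (nat_lit 0) .nil) .nil))) 
(.lf (nat_lit 455581) (.g (nat_lit 2237) (.e (nat_lit 2663) (nat_lit 167) (.e (nat_lit 196673) (nat_lit 15) (.e (nat_lit 81956) (nat_lit 23) (.e (nat_lit 98389) (nat_lit 33) .nil)))) (.g (nat_lit 0) (.e (nat_lit 41032) (nat_lit 0) .nil) .nil)))))) (.nd (nat_lit 7) (.nd (nat_lit 8) (.nd (nat_lit 9) 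
(.lf (nat_lit 454749) (.g (nat_lit 2172) (.e (nat_lit 2649) (nat_lit 166) (.e (nat_lit 188434) (nat_lit 20) (.e (nat_lit 3409) (nat_lit 212) (.e (nat_lit 655378) (nat_lit 4) (.e (nat_lit 172115) (nat_lit 10) (.e (nat_lit 434209) (nat_lit 18) (.e (nat_lit 5547) (nat_lit 306) .nil))))))) (.g (nat_lit 1) (.e (nat_lit 37079) (nat_lit 0) .nil) .nil))) 
(.lf (nat_lit 455261) (.g (nat_lit 4077) (.e (nat_lit 2663) (nat_lit 167) (.e (nat_lit 196666) (nat_lit 13) (.e (nat_lit 65610) (nat_lit 10) (.e (nat_lit 344117) (nat_lit 21) (.e (nat_lit 516151) (nat_lit 9) (.e (nat_lit 426022) (nat_lit 0) (.e (nat_lit 3363) (nat_lit 208) (.e (nat_lit 622627) (nat_lit 13) .nil)))))))) (.g (nat_lit 1) (.e (nat_lit 40566) (nat_lit 0) .nil) .nil)))) 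
(.nd (nat_lit 9) 
(.lf (nat_lit 455005) (.g (nat_lit 2553) (.e (nat_lit 2660) (nat_lit 167) (.e (nat_lit 196673) (nat_lit 15) (.e (nat_lit 81956) (nat_lit 23) (.e (nat_lit 98350) (nat_lit 24) .nil)))) (.g (nat_lit 0) (.e (nat_lit 40094) (nat_lit 0) .nil) .nil))) 
(.lf (nat_lit 455517) (.g (nat_lit 4326) (.e (nat_lit 2663) (nat_lit 167) (.e (nat_lit 196670) (nat_lit 14) (.e (nat_lit 73753) (nat_lit 8) (.e (nat_lit 557105) (nat_lit 14) (.e (nat_lit 180252) (nat_lit 10) (.e (nat_lit 573474) (nat_lit 12) (.e (nat_lit 57511) (nat_lit 39) (.e (nat_lit 647171) (nat_lit 0) .nil)))))))) (.g (nat_lit 1) (.e (nat_lit 40939) (nat_lit 0) .nil) .nil))))) 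
(.nd (nat_lit 8) (.nd (nat_lit 9) 
(.lf (nat_lit 454877) (.g (nat_lit 1602) (.e (nat_lit 2653) (nat_lit 166) (.e (nat_lit 188418) (nat_lit 0) (.e (nat_lit 2057) (nat_lit 142) (.e (nat_lit 704598) (nat_lit 6) (.e (nat_lit 188455) (nat_lit 24) (.e (nat_lit 229666) (nat_lit 240) .nil)))))) (.g (nat_lit 1) (.e (nat_lit 39191) (nat_lit 0) .nil) .nil))) 
(.lf (nat_lit 455389) (.g (nat_lit 2295) (.e (nat_lit 2663) (nat_lit 167) (.e (nat_lit 196666) (nat_lit 13) (.e (nat_lit 65617) (nat_lit 10) (.e (nat_lit 344130) (nat_lit 26) (.e (nat_lit 557087) (nat_lit 11) (.e (nat_lit 24577) (nat_lit 0) (.e (nat_lit 6638) (nat_lit 357) .nil))))))) (.g (nat_lit 1) (.e (nat_lit 40778) (nat_lit 0) .nil) .nil)))) (.nd (nat_lit 9) 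
(.lf (nat_lit 455133) (.g (nat_lit 5522) (.e (nat_lit 2663) (nat_lit 167) (.e (nat_lit 196666) (nat_lit 13) (.e (nat_lit 65610) (nat_lit 10) (.e (nat_lit 344117) (nat_lit 21) (.e (nat_lit 516097) (nat_lit 0) (.e (nat_lit 7581) (nat_lit 405) (.e (nat_lit 57751) (nat_lit 201) .nil))))))) (.g (nat_lit 1) (.e (nat_lit 40438) (nat_lit 0) .nil) .nil))) 
(.lf (nat_lit 455645) (.g (nat_lit 2573) (.e (nat_lit 2664) (nat_lit 167) (.e (nat_lit 196666) (nat_lit 13) (.e (nat_lit 65610) (nat_lit 10) (.e (nat_lit 344117) (nat_lit 21) (.e (nat_lit 516106) (nat_lit 0) (.e (nat_lit 6986) (nat_lit 377) (.e (nat_lit 2518) (nat_lit 157) (.e (nat_lit 5688) (nat_lit 312) .nil)))))))) (.g (nat_lit 1) (.e (nat_lit 41225) (nat_lit 0) .nil) .nil))))))) 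
(.nd (nat_lit 6) (.nd (nat_lit 7) (.nd (nat_lit 8) (.nd (nat_lit 9) 
(.lf (nat_lit 454717) (.g (nat_lit 2479) (.e (nat_lit 2648) (nat_lit 166) (.e (nat_lit 188431) (nat_lit 20) (.e (nat_lit 3397) (nat_lit 211) (.e (nat_lit 647185) (nat_lit 6) (.e (nat_lit 188444) (nat_lit 21) (.e (nat_lit 164348) (nat_lit 240) .nil)))))) (.g (nat_lit 1) (.e (nat_lit 36497) (nat_lit 0) .nil) .nil))) 
(.lf (nat_lit 455229) (.g (nat_lit 4881) (.e (nat_lit 2663) (nat_lit 167) (.e (nat_lit 196666) (nat_lit 13) (.e (nat_lit 65610) (nat_lit 10) (.e (nat_lit 344117) (nat_lit 21) (.e (nat_lit 516145) (nat_lit 9) (.e (nat_lit 426416) (nat_lit 15) (.e (nat_lit 2015) (nat_lit 139) (.e (nat_lit 679968) (nat_lit 13) .nil)))))))) (.g (nat_lit 1) (.e (nat_lit 40534) (nat_lit 0) .nil) .nil)))) 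
(.nd (nat_lit 9) 
(.lf (nat_lit 454973) (.g (nat_lit 4049) (.e (nat_lit 2656) (nat_lit 167) (.e (nat_lit 196672) (nat_lit 15) (.e (nat_lit 81956) (nat_lit 23) (.e (nat_lit 98350) (nat_lit 24) (.e (nat_lit 409617) (nat_lit 10) .nil))))) (.g (nat_lit 0) (.e (nat_lit 39939) (nat_lit 0) .nil) .nil))) 
(.lf (nat_lit 455485) (.g (nat_lit 2974) (.e (nat_lit 2663) (nat_lit 167) (.e (nat_lit 196670) (nat_lit 14) (.e (nat_lit 73753) (nat_lit 8) (.e (nat_lit 557103) (nat_lit 14) (.e (nat_lit 180243) (nat_lit 5) (.e (nat_lit 532501) (nat_lit 1) (.e (nat_lit 57703) (nat_lit 164) (.e (nat_lit 2515) (nat_lit 157) .nil)))))))) (.g (nat_lit 1) (.e (nat_lit 40907) (nat_lit 0) .nil) .nil))))) 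
(.nd (nat_lit 8) (.nd (nat_lit 9) 
(.lf (nat_lit 454845) (.g (nat_lit 3835) (.e (nat_lit 2651) (nat_lit 166) (.e (nat_lit 188439) (nat_lit 20) (.e (nat_lit 3409) (nat_lit 212) (.e (nat_lit 655380) (nat_lit 6) (.e (nat_lit 188453) (nat_lit 24) (.e (nat_lit 229663) (nat_lit 240) .nil)))))) (.g (nat_lit 1) (.e (nat_lit 38789) (nat_lit 0) .nil) .nil))) 
(.lf (nat_lit 455357) (.g (nat_lit 3637) (.e (nat_lit 2663) (nat_lit 167) (.e (nat_lit 196666) (nat_lit 13) (.e (nat_lit 65610) (nat_lit 10) (.e (nat_lit 344129) (nat_lit 26) (.e (nat_lit 557087) (nat_lit 11) (.e (nat_lit 24584) (nat_lit 0) (.e (nat_lit 6677) (nat_lit 357) .nil))))))) (.g (nat_lit 1) (.e (nat_lit 40695) (nat_lit 0) .nil) .nil)))) (.nd (nat_lit 9) 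
(.lf (nat_lit 455101) (.g (nat_lit 2684) (.e (nat_lit 2663) (nat_lit 167) (.e (nat_lit 196654) (nat_lit 11) (.e (nat_lit 16436) (nat_lit 9) (.e (nat_lit 426131) (nat_lit 3) (.e (nat_lit 204880) (nat_lit 32) (.e (nat_lit 385093) (nat_lit 49) (.e (nat_lit 778445) (nat_lit 9) .nil))))))) (.g (nat_lit 1) (.e (nat_lit 40298) (nat_lit 0) .nil) .nil))) 
(.lf (nat_lit 455613) (.g (nat_lit 2170) (.e (nat_lit 2664) (nat_lit 167) (.e (nat_lit 196666) (nat_lit 13) (.e (nat_lit 65610) (nat_lit 10) (.e (nat_lit 344089) (nat_lit 18) .nil)))) (.g (nat_lit 0) (.e (nat_lit 41180) (nat_lit 0) .nil) .nil)))))) (.nd (nat_lit 7) (.nd (nat_lit 8) (.nd (nat_lit 9) 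
(.lf (nat_lit 454781) (.g (nat_lit 660) (.e (nat_lit 2650) (nat_lit 166) (.e (nat_lit 188455) (nat_lit 24) (.e (nat_lit 229629) (nat_lit 226) .nil))) (.g (nat_lit 0) (.e (nat_lit 38067) (nat_lit 0) .nil) .nil))) 
(.lf (nat_lit 455293) (.g (nat_lit 3973) (.e (nat_lit 2663) (nat_lit 167) (.e (nat_lit 196666) (nat_lit 13) (.e (nat_lit 65610) (nat_lit 10) (.e (nat_lit 344117) (nat_lit 21) (.e (nat_lit 516151) (nat_lit 9) (.e (nat_lit 426042) (nat_lit 0) (.e (nat_lit 3366) (nat_lit 208) (.e (nat_lit 622626) (nat_lit 13) .nil)))))))) (.g (nat_lit 1) (.e (nat_lit 40598) (nat_lit 0) .nil) .nil)))) 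
(.nd (nat_lit 9) 
(.lf (nat_lit 455037) (.g (nat_lit 4699) (.e (nat_lit 2661) (nat_lit 167) (.e (nat_lit 196666) (nat_lit 13) (.e (nat_lit 65610) (nat_lit 10) (.e (nat_lit 344117) (nat_lit 21) (.e (nat_lit 516142) (nat_lit 8) (.e (nat_lit 417820) (nat_lit 10) (.e (nat_lit 5664) (nat_lit 312) .nil))))))) (.g (nat_lit 1) (.e (nat_lit 40172) (nat_lit 0) .nil) .nil))) 
(.lf (nat_lit 455549) (.g (nat_lit 4891) (.e (nat_lit 2663) (nat_lit 167) (.e (nat_lit 196670) (nat_lit 14) (.e (nat_lit 73754) (nat_lit 8) (.e (nat_lit 557105) (nat_lit 14) (.e (nat_lit 180252) (nat_lit 10) (.e (nat_lit 573475) (nat_lit 12) (.e (nat_lit 57508) (nat_lit 39) (.e (nat_lit 647176) (nat_lit 0) .nil)))))))) (.g (nat_lit 1) (.e (nat_lit 40971) (nat_lit 0) .nil) .nil))))) 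
(.nd (nat_lit 8) (.nd (nat_lit 9) 
(.lf (nat_lit 454909) (.g (nat_lit 3993) (.e (nat_lit 2653) (nat_lit 166) (.e (nat_lit 188440) (nat_lit 20) (.e (nat_lit 3469) (nat_lit 217) (.e (nat_lit 696344) (nat_lit 8) (.e (nat_lit 172115) (nat_lit 10) (.e (nat_lit 434202) (nat_lit 18) (.e (nat_lit 6255) (nat_lit 337) .nil))))))) (.g (nat_lit 1) (.e (nat_lit 39315) (nat_lit 0) .nil) .nil))) 
(.lf (nat_lit 455421) (.g (nat_lit 1917) (.e (nat_lit 2663) (nat_lit 167) (.e (nat_lit 196666) (nat_lit 13) (.e (nat_lit 65617) (nat_lit 10) (.e (nat_lit 344133) (nat_lit 26) (.e (nat_lit 557068) (nat_lit 9) .nil))))) (.g (nat_lit 0) (.e (nat_lit 40813) (nat_lit 0) .nil) .nil)))) (.nd (nat_lit 9) 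
(.lf (nat_lit 455165) (.g (nat_lit 4147) (.e (nat_lit 2663) (nat_lit 167) (.e (nat_lit 196666) (nat_lit 13) (.e (nat_lit 65610) (nat_lit 10) (.e (nat_lit 344117) (nat_lit 21) (.e (nat_lit 516139) (nat_lit 7) (.e (nat_lit 409609) (nat_lit 10) (.e (nat_lit 5738) (nat_lit 312) .nil))))))) (.g (nat_lit 1) (.e (nat_lit 40470) (nat_lit 0) .nil) .nil))) 
(.lf (nat_lit 455677) (.g (nat_lit 2693) (.e (nat_lit 2664) (nat_lit 167) (.e (nat_lit 196666) (nat_lit 13) (.e (nat_lit 65610) (nat_lit 10) (.e (nat_lit 344117) (nat_lit 21) (.e (nat_lit 516159) (nat_lit 10) (.e (nat_lit 434202) (nat_lit 18) (.e (nat_lit 4751) (nat_lit 281) (.e (nat_lit 2518) (nat_lit 157) .nil)))))))) (.g (nat_lit 1) (.e (nat_lit 41258) (nat_lit 0) .nil) .nil))))))))))) 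
(.nd (nat_lit 2) (.nd (nat_lit 3) (.nd (nat_lit 4) (.nd (nat_lit 5) (.nd (nat_lit 6) 
(.nd (nat_lit 7) (.nd (nat_lit 8) (.nd (nat_lit 9) 
(.lf (nat_lit 454659) (.g (nat_lit 1401) (.e (nat_lit 2648) (nat_lit 166) (.e (nat_lit 188417) (nat_lit 0) (.e (nat_lit 2147) (nat_lit 142) (.e (nat_lit 704597) (nat_lit 6) (.e (nat_lit 188444) (nat_lit 21) (.e (nat_lit 164346) (nat_lit 240) .nil)))))) (.g (nat_lit 1) (.e (nat_lit 36404) (nat_lit 0) .nil) .nil))) 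
(.lf (nat_lit 455171) (.g (nat_lit 5841) (.e (nat_lit 2663) (nat_lit 167) (.e (nat_lit 196666) (nat_lit 13) (.e (nat_lit 65610) (nat_lit 10) (.e (nat_lit 344117) (nat_lit 21) (.e (nat_lit 516139) (nat_lit 7) (.e (nat_lit 409618) (nat_lit 10) (.e (nat_lit 5728) (nat_lit 312) .nil))))))) (.g (nat_lit 1) (.e (nat_lit 40476) (nat_lit 0) .nil) .nil)))) (.nd (nat_lit 9) 
(.lf (nat_lit 454915) (.g (nat_lit 1998) (.e (nat_lit 2653) (nat_lit 166) (.e (nat_lit 188441) (nat_lit 20) (.e (nat_lit 3469) (nat_lit 217) (.e (nat_lit 696344) (nat_lit 8) (.e (nat_lit 172112) (nat_lit 10) (.e (nat_lit 434208) (nat_lit 18) (.e (nat_lit 6255) (nat_lit 337) .nil))))))) (.g (nat_lit 1) (.e (nat_lit 39361) (nat_lit 0) .nil) .nil))) 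
(.lf (nat_lit 455427) (.g (nat_lit 3507) (.e (nat_lit 2663) (nat_lit 167) (.e (nat_lit 196666) (nat_lit 13) (.e (nat_lit 65617) (nat_lit 10) (.e (nat_lit 344133) (nat_lit 26) (.e (nat_lit 557089) (nat_lit 12) (.e (nat_lit 163843) (nat_lit 0) (.e (nat_lit 6420) (nat_lit 341) (.e (nat_lit 163843) (nat_lit 0) (.e (nat_lit 7366) (nat_lit 388) .nil))))))))) (.g (nat_lit 1) (.e (nat_lit 40820) (nat_lit 0) .nil) .nil))))) 
(.nd (nat_lit 8) (.nd (nat_lit 9) 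
(.lf (nat_lit 454787) (.g (nat_lit 3252) (.e (nat_lit 2651) (nat_lit 166) (.e (nat_lit 188420) (nat_lit 0) (.e (nat_lit 1856) (nat_lit 124) (.e (nat_lit 557109) (nat_lit 15) (.e (nat_lit 188455) (nat_lit 24) (.e (nat_lit 237312) (nat_lit 134) .nil)))))) (.g (nat_lit 1) (.e (nat_lit 38573) (nat_lit 0) .nil) .nil))) 
(.lf (nat_lit 455299) (.g (nat_lit 3842) (.e (nat_lit 2663) (nat_lit 167) (.e (nat_lit 196666) (nat_lit 13) (.e (nat_lit 65610) (nat_lit 10) (.e (nat_lit 344117) (nat_lit 21) (.e (nat_lit 516151) (nat_lit 9) (.e (nat_lit 426043) (nat_lit 0) (.e (nat_lit 3369) (nat_lit 208) (.e (nat_lit 622620) (nat_lit 13) .nil)))))))) (.g (nat_lit 1) (.e (nat_lit 40604) (nat_lit 0) .nil) .nil)))) 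
(.nd (nat_lit 9) 
(.lf (nat_lit 455043) (.g (nat_lit 1940) (.e (nat_lit 2661) (nat_lit 167) (.e (nat_lit 196666) (nat_lit 13) (.e (nat_lit 65610) (nat_lit 10) (.e (nat_lit 344129) (nat_lit 26) (.e (nat_lit 557087) (nat_lit 11) .nil))))) (.g (nat_lit 0) (.e (nat_lit 40181) (nat_lit 0) .nil) .nil))) 
(.lf (nat_lit 455555) (.g (nat_lit 4317) (.e (nat_lit 2663) (nat_lit 167) (.e (nat_lit 196670) (nat_lit 14) (.e (nat_lit 73755) (nat_lit 8) (.e (nat_lit 557105) (nat_lit 14) (.e (nat_lit 180252) (nat_lit 10) (.e (nat_lit 573474) (nat_lit 12) (.e (nat_lit 57507) (nat_lit 39) (.e (nat_lit 647176) (nat_lit 0) .nil)))))))) (.g (nat_lit 1) (.e (nat_lit 40977) (nat_lit 0) .nil) .nil)))))) 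
(.nd (nat_lit 7) (.nd (nat_lit 8) (.nd (nat_lit 9) 
(.lf (nat_lit 454723) (.g (nat_lit 3368) (.e (nat_lit 2648) (nat_lit 166) (.e (nat_lit 188431) (nat_lit 20) (.e (nat_lit 3402) (nat_lit 211) (.e (nat_lit 647183) (nat_lit 4) (.e (nat_lit 172106) (nat_lit 10) (.e (nat_lit 434209) (nat_lit 18) (.e (nat_lit 5548) (nat_lit 306) .nil))))))) (.g (nat_lit 1) (.e (nat_lit 36528) (nat_lit 0) .nil) .nil))) 
(.lf (nat_lit 455235) (.g (nat_lit 3461) (.e (nat_lit 2663) (nat_lit 167) (.e (nat_lit 196666) (nat_lit 13) (.e (nat_lit 65610) (nat_lit 10) (.e (nat_lit 344117) (nat_lit 21) (.e (nat_lit 516151) (nat_lit 9) (.e (nat_lit 426003) (nat_lit 0) (.e (nat_lit 3372) (nat_lit 208) (.e (nat_lit 622620) (nat_lit 13) .nil)))))))) (.g (nat_lit 1) (.e (nat_lit 40540) (nat_lit 0) .nil) .nil)))) 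
(.nd (nat_lit 9) 
(.lf (nat_lit 454979) (.g (nat_lit 2489) (.e (nat_lit 2657) (nat_lit 167) (.e (nat_lit 196669) (nat_lit 14) (.e (nat_lit 73755) (nat_lit 8) (.e (nat_lit 557105) (nat_lit 14) (.e (nat_lit 180252) (nat_lit 10) (.e (nat_lit 573474) (nat_lit 12) (.e (nat_lit 57508) (nat_lit 39) (.e (nat_lit 655104) (nat_lit 0) .nil)))))))) (.g (nat_lit 1) (.e (nat_lit 39996) (nat_lit 0) .nil) .nil))) 
(.lf (nat_lit 455491) (.g (nat_lit 4100) (.e (nat_lit 2663) (nat_lit 167) (.e (nat_lit 196670) (nat_lit 14) (.e (nat_lit 73753) (nat_lit 8) (.e (nat_lit 557103) (nat_lit 14) (.e (nat_lit 180250) (nat_lit 10) (.e (nat_lit 573473) (nat_lit 12) (.e (nat_lit 57508) (nat_lit 39) (.e (nat_lit 647176) (nat_lit 0) .nil)))))))) (.g (nat_lit 1) (.e (nat_lit 40913) (nat_lit 0) .nil) .nil))))) 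
(.nd (nat_lit 8) (.nd (nat_lit 9) 
(.lf (nat_lit 454851) (.g (nat_lit 2925) (.e (nat_lit 2651) (nat_lit 166) (.e (nat_lit 188439) (nat_lit 20) (.e (nat_lit 3409) (nat_lit 212) (.e (nat_lit 655380) (nat_lit 6) (.e (nat_lit 188455) (nat_lit 24) (.e (nat_lit 229664) (nat_lit 240) .nil)))))) (.g (nat_lit 1) (.e (nat_lit 38795) (nat_lit 0) .nil) .nil))) 
(.lf (nat_lit 455363) (.g (nat_lit 1388) (.e (nat_lit 2663) (nat_lit 167) (.e (nat_lit 196666) (nat_lit 13) (.e (nat_lit 65617) (nat_lit 10) (.e (nat_lit 344089) (nat_lit 18) .nil)))) (.g (nat_lit 0) (.e (nat_lit 40702) (nat_lit 0) .nil) .nil)))) (.nd (nat_lit 9) 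
(.lf (nat_lit 455107) (.g (nat_lit 2958) (.e (nat_lit 2663) (nat_lit 167) (.e (nat_lit 196654) (nat_lit 11) (.e (nat_lit 16436) (nat_lit 9) (.e (nat_lit 426131) (nat_lit 3) (.e (nat_lit 204880) (nat_lit 32) (.e (nat_lit 385096) (nat_lit 49) (.e (nat_lit 778388) (nat_lit 9) .nil))))))) (.g (nat_lit 1) (.e (nat_lit 40304) (nat_lit 0) .nil) .nil))) 
(.lf (nat_lit 455619) (.g (nat_lit 3580) (.e (nat_lit 2664) (nat_lit 167) (.e (nat_lit 196666) (nat_lit 13) (.e (nat_lit 65610) (nat_lit 10) (.e (nat_lit 344117) (nat_lit 21) (.e (nat_lit 516097) (nat_lit 0) (.e (nat_lit 7578) (nat_lit 405) (.e (nat_lit 57750) (nat_lit 201) .nil))))))) (.g (nat_lit 1) (.e (nat_lit 41199) (nat_lit 0) .nil) .nil))))))) 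
(.nd (nat_lit 6) (.nd (nat_lit 7) (.nd (nat_lit 8) (.nd (nat_lit 9) 
(.lf (nat_lit 454691) (.g (nat_lit 2008) (.e (nat_lit 2648) (nat_lit 166) (.e (nat_lit 188420) (nat_lit 0) (.e (nat_lit 2058) (nat_lit 142) (.e (nat_lit 704598) (nat_lit 6) (.e (nat_lit 188446) (nat_lit 21) (.e (nat_lit 164346) (nat_lit 240) .nil)))))) (.g (nat_lit 1) (.e (nat_lit 36438) (nat_lit 0) .nil) .nil))) 
(.lf (nat_lit 455203) (.g (nat_lit 3513) (.e (nat_lit 2663) (nat_lit 167) (.e (nat_lit 196666) (nat_lit 13) (.e (nat_lit 65610) (nat_lit 10) (.e (nat_lit 344117) (nat_lit 21) (.e (nat_lit 516145) (nat_lit 9) (.e (nat_lit 426352) (nat_lit 15) (.e (nat_lit 7936) (nat_lit 139) (.e (nat_lit 679968) (nat_lit 13) .nil)))))))) (.g (nat_lit 1) (.e (nat_lit 40508) (nat_lit 0) .nil) .nil)))) 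
(.nd (nat_lit 9) 
(.lf (nat_lit 454947) (.g (nat_lit 1317) (.e (nat_lit 2654) (nat_lit 167) (.e (nat_lit 196672) (nat_lit 15) (.e (nat_lit 81954) (nat_lit 23) (.e (nat_lit 98325) (nat_lit 17) .nil)))) (.g (nat_lit 0) (.e (nat_lit 39824) (nat_lit 0) .nil) .nil))) 
(.lf (nat_lit 455459) (.g (nat_lit 4277) (.e (nat_lit 2663) (nat_lit 167) (.e (nat_lit 196666) (nat_lit 13) (.e (nat_lit 65630) (nat_lit 14) (.e (nat_lit 401425) (nat_lit 2) (.e (nat_lit 196670) (nat_lit 14) (.e (nat_lit 73781) (nat_lit 32) .nil)))))) (.g (nat_lit 1) (.e (nat_lit 40868) (nat_lit 0) .nil) .nil))))) (.nd (nat_lit 8) (.nd (nat_lit 9) 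
(.lf (nat_lit 454819) (.g (nat_lit 2599) (.e (nat_lit 2651) (nat_lit 166) (.e (nat_lit 188420) (nat_lit 0) (.e (nat_lit 2175) (nat_lit 143) (.e (nat_lit 712755) (nat_lit 30) (.e (nat_lit 450568) (nat_lit 0) (.e (nat_lit 5448) (nat_lit 306) .nil)))))) (.g (nat_lit 1) (.e (nat_lit 38608) (nat_lit 0) .nil) .nil))) 
(.lf (nat_lit 455331) (.g (nat_lit 3946) (.e (nat_lit 2663) (nat_lit 167) (.e (nat_lit 196666) (nat_lit 13) (.e (nat_lit 65610) (nat_lit 10) (.e (nat_lit 344117) (nat_lit 21) (.e (nat_lit 516160) (nat_lit 10) (.e (nat_lit 434208) (nat_lit 18) (.e (nat_lit 4754) (nat_lit 281) (.e (nat_lit 2513) (nat_lit 157) .nil)))))))) (.g (nat_lit 1) (.e (nat_lit 40636) (nat_lit 0) .nil) .nil)))) 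
(.nd (nat_lit 9) 
(.lf (nat_lit 455075) (.g (nat_lit 1483) (.e (nat_lit 2661) (nat_lit 167) (.e (nat_lit 196674) (nat_lit 15) (.e (nat_lit 81953) (nat_lit 22) (.e (nat_lit 90165) (nat_lit 12) .nil)))) (.g (nat_lit 0) (.e (nat_lit 40229) (nat_lit 0) .nil) .nil))) 
(.lf (nat_lit 455587) (.g (nat_lit 3111) (.e (nat_lit 2663) (nat_lit 167) (.e (nat_lit 196674) (nat_lit 15) (.e (nat_lit 81955) (nat_lit 23) (.e (nat_lit 98350) (nat_lit 24) (.e (nat_lit 409616) (nat_lit 10) (.e (nat_lit 7936) (nat_lit 312) .nil)))))) (.g (nat_lit 1) (.e (nat_lit 41047) (nat_lit 0) .nil) .nil)))))) (.nd (nat_lit 7) (.nd (nat_lit 8) (.nd (nat_lit 9) 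
(.lf (nat_lit 454755) (.g (nat_lit 3171) (.e (nat_lit 2650) (nat_lit 166) (.e (nat_lit 188427) (nat_lit 20) (.e (nat_lit 3397) (nat_lit 211) (.e (nat_lit 647183) (nat_lit 4) (.e (nat_lit 172106) (nat_lit 10) (.e (nat_lit 434209) (nat_lit 18) (.e (nat_lit 5547) (nat_lit 306) .nil))))))) (.g (nat_lit 1) (.e (nat_lit 37560) (nat_lit 0) .nil) .nil))) 
(.lf (nat_lit 455267) (.g (nat_lit 5276) (.e (nat_lit 2663) (nat_lit 167) (.e (nat_lit 196666) (nat_lit 13) (.e (nat_lit 65610) (nat_lit 10) (.e (nat_lit 344117) (nat_lit 21) (.e (nat_lit 516151) (nat_lit 9) (.e (nat_lit 426034) (nat_lit 0) (.e (nat_lit 3370) (nat_lit 208) (.e (nat_lit 622626) (nat_lit 13) .nil)))))))) (.g (nat_lit 1) (.e (nat_lit 40572) (nat_lit 0) .nil) .nil)))) 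
(.nd (nat_lit 9) 
(.lf (nat_lit 455011) (.g (nat_lit 2515) (.e (nat_lit 2661) (nat_lit 167) (.e (nat_lit 196666) (nat_lit 13) (.e (nat_lit 65610) (nat_lit 10) (.e (nat_lit 344117) (nat_lit 21) (.e (nat_lit 516098) (nat_lit 0) (.e (nat_lit 7936) (nat_lit 380) (.e (nat_lit 164359) (nat_lit 246) .nil))))))) (.g (nat_lit 1) (.e (nat_lit 40146) (nat_lit 0) .nil) .nil))) 
(.lf (nat_lit 455523) (.g (nat_lit 2633) (.e (nat_lit 2663) (nat_lit 167) (.e (nat_lit 196670) (nat_lit 14) (.e (nat_lit 73754) (nat_lit 8) (.e (nat_lit 557103) (nat_lit 14) (.e (nat_lit 180250) (nat_lit 10) (.e (nat_lit 573474) (nat_lit 12) (.e (nat_lit 57507) (nat_lit 39) (.e (nat_lit 647176) (nat_lit 0) .nil)))))))) (.g (nat_lit 1) (.e (nat_lit 40945) (nat_lit 0) .nil) .nil))))) 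
(.nd (nat_lit 8) (.nd (nat_lit 9) 
(.lf (nat_lit 454883) (.g (nat_lit 2593) (.e (nat_lit 2653) (nat_lit 166) (.e (nat_lit 188418) (nat_lit 0) (.e (nat_lit 2058) (nat_lit 142) (.e (nat_lit 704599) (nat_lit 6) (.e (nat_lit 188453) (nat_lit 24) (.e (nat_lit 229665) (nat_lit 240) .nil)))))) (.g (nat_lit 1) (.e (nat_lit 39198) (nat_lit 0) .nil) .nil))) 
(.lf (nat_lit 455395) (.g (nat_lit 2278) (.e (nat_lit 2663) (nat_lit 167) (.e (nat_lit 196666) (nat_lit 13) (.e (nat_lit 65617) (nat_lit 10) (.e (nat_lit 344130) (nat_lit 26) (.e (nat_lit 557087) (nat_lit 11) (.e (nat_lit 24582) (nat_lit 0) (.e (nat_lit 6650) (nat_lit 357) .nil))))))) (.g (nat_lit 1) (.e (nat_lit 40784) (nat_lit 0) .nil) .nil)))) (.nd (nat_lit 9) 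
(.lf (nat_lit 455139) (.g (nat_lit 3871) (.e (nat_lit 2663) (nat_lit 167) (.e (nat_lit 196666) (nat_lit 13) (.e (nat_lit 65610) (nat_lit 10) (.e (nat_lit 344117) (nat_lit 21) (.e (nat_lit 516098) (nat_lit 0) (.e (nat_lit 7579) (nat_lit 405) (.e (nat_lit 57751) (nat_lit 201) .nil))))))) (.g (nat_lit 1) (.e (nat_lit 40444) (nat_lit 0) .nil) .nil))) 
(.lf (nat_lit 455651) (.g (nat_lit 2574) (.e (nat_lit 2664) (nat_lit 167) (.e (nat_lit 196666) (nat_lit 13) (.e (nat_lit 65610) (nat_lit 10) (.e (nat_lit 344117) (nat_lit 21) (.e (nat_lit 516106) (nat_lit 0) (.e (nat_lit 7016) (nat_lit 377) (.e (nat_lit 2446) (nat_lit 157) (.e (nat_lit 5710) (nat_lit 312) .nil)))))))) (.g (nat_lit 1) (.e (nat_lit 41231) (nat_lit 0) .nil) .nil)))))))) 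
(.nd (nat_lit 5) (.nd (nat_lit 6) (.nd (nat_lit 7) (.nd (nat_lit 8) (.nd (nat_lit 9) 
(.lf (nat_lit 454675) (.g (nat_lit 2618) (.e (nat_lit 2648) (nat_lit 166) (.e (nat_lit 188418) (nat_lit 0) (.e (nat_lit 2174) (nat_lit 143) (.e (nat_lit 712752) (nat_lit 29) (.e (nat_lit 442421) (nat_lit 21) (.e (nat_lit 164346) (nat_lit 240) .nil)))))) (.g (nat_lit 1) (.e (nat_lit 36420) (nat_lit 0) .nil) .nil))) 
(.lf (nat_lit 455187) (.g (nat_lit 3324) (.e (nat_lit 2663) (nat_lit 167) (.e (nat_lit 196666) (nat_lit 13) (.e (nat_lit 65610) (nat_lit 10) (.e (nat_lit 344117) (nat_lit 21) (.e (nat_lit 516145) (nat_lit 9) (.e (nat_lit 425988) (nat_lit 0) (.e (nat_lit 7936) (nat_lit 208) (.e (nat_lit 622620) (nat_lit 13) .nil)))))))) (.g (nat_lit 1) (.e (nat_lit 40492) (nat_lit 0) .nil) .nil)))) 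
(.nd (nat_lit 9) 
(.lf (nat_lit 454931) (.g (nat_lit 1867) (.e (nat_lit 2654) (nat_lit 167) (.e (nat_lit 196666) (nat_lit 13) (.e (nat_lit 65610) (nat_lit 10) (.e (nat_lit 344117) (nat_lit 21) (.e (nat_lit 516151) (nat_lit 9) .nil))))) (.g (nat_lit 0) (.e (nat_lit 39801) (nat_lit 0) .nil) .nil))) 
(.lf (nat_lit 455443) (.g (nat_lit 4102) (.e (nat_lit 2663) (nat_lit 167) (.e (nat_lit 196666) (nat_lit 13) (.e (nat_lit 65624) (nat_lit 12) (.e (nat_lit 385074) (nat_lit 31) (.e (nat_lit 573489) (nat_lit 14) (.e (nat_lit 73781) (nat_lit 32) .nil)))))) (.g (nat_lit 1) (.e (nat_lit 40844) (nat_lit 0) .nil) .nil))))) (.nd (nat_lit 8) (.nd (nat_lit 9) 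
(.lf (nat_lit 454803) (.g (nat_lit 2617) (.e (nat_lit 2651) (nat_lit 166) (.e (nat_lit 188420) (nat_lit 0) (.e (nat_lit 2059) (nat_lit 142) (.e (nat_lit 704599) (nat_lit 6) (.e (nat_lit 188453) (nat_lit 24) (.e (nat_lit 229664) (nat_lit 240) .nil)))))) (.g (nat_lit 1) (.e (nat_lit 38589) (nat_lit 0) .nil) .nil))) 
(.lf (nat_lit 455315) (.g (nat_lit 5298) (.e (nat_lit 2663) (nat_lit 167) (.e (nat_lit 196666) (nat_lit 13) (.e (nat_lit 65610) (nat_lit 10) (.e (nat_lit 344117) (nat_lit 21) (.e (nat_lit 516151) (nat_lit 9) (.e (nat_lit 426047) (nat_lit 0) (.e (nat_lit 3370) (nat_lit 208) (.e (nat_lit 622625) (nat_lit 13) .nil)))))))) (.g (nat_lit 1) (.e (nat_lit 40620) (nat_lit 0) .nil) .nil)))) 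
(.nd (nat_lit 9) 
(.lf (nat_lit 455059) (.g (nat_lit 761) (.e (nat_lit 2661) (nat_lit 167) (.e (nat_lit 196672) (nat_lit 15) (.e (nat_lit 81953) (nat_lit 22) .nil))) (.g (nat_lit 0) (.e (nat_lit 40211) (nat_lit 0) .nil) .nil))) 
(.lf (nat_lit 455571) (.g (nat_lit 4071) (.e (nat_lit 2663) (nat_lit 167) (.e (nat_lit 196672) (nat_lit 15) (.e (nat_lit 81954) (nat_lit 23) (.e (nat_lit 98350) (nat_lit 24) (.e (nat_lit 409617) (nat_lit 10) (.e (nat_lit 5710) (nat_lit 312) .nil)))))) (.g (nat_lit 1) (.e (nat_lit 41016) (nat_lit 0) .nil) .nil)))))) (.nd (nat_lit 7) (.nd (nat_lit 8) (.nd (nat_lit 9) 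
(.lf (nat_lit 454739) (.g (nat_lit 2165) (.e (nat_lit 2649) (nat_lit 166) (.e (nat_lit 188434) (nat_lit 20) (.e (nat_lit 3390) (nat_lit 210) (.e (nat_lit 639007) (nat_lit 13) (.e (nat_lit 1595) (nat_lit 111) (.e (nat_lit 368384) (nat_lit 0) (.e (nat_lit 5122) (nat_lit 292) .nil))))))) (.g (nat_lit 1) (.e (nat_lit 37012) (nat_lit 0) .nil) .nil))) 
(.lf (nat_lit 455251) (.g (nat_lit 5384) (.e (nat_lit 2663) (nat_lit 167) (.e (nat_lit 196666) (nat_lit 13) (.e (nat_lit 65610) (nat_lit 10) (.e (nat_lit 344117) (nat_lit 21) (.e (nat_lit 516151) (nat_lit 9) (.e (nat_lit 426020) (nat_lit 0) (.e (nat_lit 7936) (nat_lit 208) (.e (nat_lit 622620) (nat_lit 13) .nil)))))))) (.g (nat_lit 1) (.e (nat_lit 40556) (nat_lit 0) .nil) .nil)))) 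
(.nd (nat_lit 9) 
(.lf (nat_lit 454995) (.g (nat_lit 2036) (.e (nat_lit 2657) (nat_lit 167) (.e (nat_lit 196672) (nat_lit 15) (.e (nat_lit 81954) (nat_lit 23) (.e (nat_lit 98350) (nat_lit 24) (.e (nat_lit 417536) (nat_lit 10) .nil))))) (.g (nat_lit 0) (.e (nat_lit 40059) (nat_lit 0) .nil) .nil))) 
(.lf (nat_lit 455507) (.g (nat_lit 2284) (.e (nat_lit 2663) (nat_lit 167) (.e (nat_lit 196670) (nat_lit 14) (.e (nat_lit 73753) (nat_lit 8) (.e (nat_lit 557105) (nat_lit 14) (.e (nat_lit 180252) (nat_lit 10) (.e (nat_lit 573473) (nat_lit 12) (.e (nat_lit 57508) (nat_lit 39) (.e (nat_lit 647168) (nat_lit 0) .nil)))))))) (.g (nat_lit 1) (.e (nat_lit 40929) (nat_lit 0) .nil) .nil))))) 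
(.nd (nat_lit 8) (.nd (nat_lit 9) 
(.lf (nat_lit 454867) (.g (nat_lit 2023) (.e (nat_lit 2652) (nat_lit 166) (.e (nat_lit 188434) (nat_lit 20) (.e (nat_lit 3469) (nat_lit 217) (.e (nat_lit 696344) (nat_lit 8) (.e (nat_lit 172113) (nat_lit 10) (.e (nat_lit 434208) (nat_lit 18) (.e (nat_lit 6255) (nat_lit 337) .nil))))))) (.g (nat_lit 1) (.e (nat_lit 39070) (nat_lit 0) .nil) .nil))) 
(.lf (nat_lit 455379) (.g (nat_lit 1719) (.e (nat_lit 2663) (nat_lit 167) (.e (nat_lit 196666) (nat_lit 13) (.e (nat_lit 65617) (nat_lit 10) (.e (nat_lit 344130) (nat_lit 26) (.e (nat_lit 557074) (nat_lit 9) .nil))))) (.g (nat_lit 0) (.e (nat_lit 40766) (nat_lit 0) .nil) .nil)))) (.nd (nat_lit 9) 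
(.lf (nat_lit 455123) (.g (nat_lit 2289) (.e (nat_lit 2663) (nat_lit 167) (.e (nat_lit 196666) (nat_lit 13) (.e (nat_lit 65610) (nat_lit 10) (.e (nat_lit 344090) (nat_lit 18) .nil)))) (.g (nat_lit 0) (.e (nat_lit 40421) (nat_lit 0) .nil) .nil))) 
(.lf (nat_lit 455635) (.g (nat_lit 4513) (.e (nat_lit 2664) (nat_lit 167) (.e (nat_lit 196666) (nat_lit 13) (.e (nat_lit 65610) (nat_lit 10) (.e (nat_lit 344117) (nat_lit 21) (.e (nat_lit 516098) (nat_lit 0) (.e (nat_lit 7583) (nat_lit 405) (.e (nat_lit 57751) (nat_lit 201) .nil))))))) (.g (nat_lit 1) (.e (nat_lit 41215) (nat_lit 0) .nil) .nil))))))) 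
(.nd (nat_lit 6) (.nd (nat_lit 7) (.nd (nat_lit 8) (.nd (nat_lit 9) 
(.lf (nat_lit 454707) (.g (nat_lit 2838) (.e (nat_lit 2648) (nat_lit 166) (.e (nat_lit 188420) (nat_lit 0) (.e (nat_lit 2175) (nat_lit 143) (.e (nat_lit 712752) (nat_lit 29) (.e (nat_lit 442421) (nat_lit 21) (.e (nat_lit 164346) (nat_lit 240) .nil)))))) (.g (nat_lit 1) (.e (nat_lit 36454) (nat_lit 0) .nil) .nil))) 
(.lf (nat_lit 455219) (.g (nat_lit 3291) (.e (nat_lit 2663) (nat_lit 167) (.e (nat_lit 196666) (nat_lit 13) (.e (nat_lit 65610) (nat_lit 10) (.e (nat_lit 344117) (nat_lit 21) (.e (nat_lit 516145) (nat_lit 9) (.e (nat_lit 426360) (nat_lit 15) (.e (nat_lit 7936) (nat_lit 139) (.e (nat_lit 679968) (nat_lit 13) .nil)))))))) (.g (nat_lit 1) (.e (nat_lit 40524) (nat_lit 0) .nil) .nil)))) 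
(.nd (nat_lit 9) 
(.lf (nat_lit 454963) (.g (nat_lit 4594) (.e (nat_lit 2655) (nat_lit 167) (.e (nat_lit 196672) (nat_lit 15) (.e (nat_lit 81956) (nat_lit 23) (.e (nat_lit 98350) (nat_lit 24) (.e (nat_lit 409616) (nat_lit 10) .nil))))) (.g (nat_lit 0) (.e (nat_lit 39847) (nat_lit 0) .nil) .nil))) 
(.lf (nat_lit 455475) (.g (nat_lit 651) (.e (nat_lit 2663) (nat_lit 167) (.e (nat_lit 196668) (nat_lit 14) (.e (nat_lit 73788) (nat_lit 45) .nil))) (.g (nat_lit 0) (.e (nat_lit 40897) (nat_lit 0) .nil) .nil))))) (.nd (nat_lit 8) (.nd (nat_lit 9) 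
(.lf (nat_lit 454835) (.g (nat_lit 2614) (.e (nat_lit 2651) (nat_lit 166) (.e (nat_lit 188439) (nat_lit 20) (.e (nat_lit 3406) (nat_lit 212) (.e (nat_lit 655380) (nat_lit 6) (.e (nat_lit 188453) (nat_lit 24) (.e (nat_lit 229664) (nat_lit 240) .nil)))))) (.g (nat_lit 1) (.e (nat_lit 38752) (nat_lit 0) .nil) .nil))) 
(.lf (nat_lit 455347) (.g (nat_lit 5708) (.e (nat_lit 2663) (nat_lit 167) (.e (nat_lit 196666) (nat_lit 13) (.e (nat_lit 65610) (nat_lit 10) (.e (nat_lit 344117) (nat_lit 21) (.e (nat_lit 516185) (nat_lit 16) (.e (nat_lit 491526) (nat_lit 0) (.e (nat_lit 6680) (nat_lit 357) .nil))))))) (.g (nat_lit 1) (.e (nat_lit 40673) (nat_lit 0) .nil) .nil)))) (.nd (nat_lit 9) 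
(.lf (nat_lit 455091) (.g (nat_lit 2757) (.e (nat_lit 2663) (nat_lit 167) (.e (nat_lit 196654) (nat_lit 11) (.e (nat_lit 16436) (nat_lit 9) (.e (nat_lit 426131) (nat_lit 3) (.e (nat_lit 204852) (nat_lit 26) (.e (nat_lit 336328) (nat_lit 19) (.e (nat_lit 213000) (nat_lit 9) .nil))))))) (.g (nat_lit 1) (.e (nat_lit 40285) (nat_lit 0) .nil) .nil))) 
(.lf (nat_lit 455603) (.g (nat_lit 2059) (.e (nat_lit 2664) (nat_lit 167) (.e (nat_lit 196666) (nat_lit 13) (.e (nat_lit 65583) (nat_lit 7) (.e (nat_lit 319518) (nat_lit 12) (.e (nat_lit 32788) (nat_lit 10) (.e (nat_lit 73782) (nat_lit 32) .nil)))))) (.g (nat_lit 1) (.e (nat_lit 41167) (nat_lit 0) .nil) .nil)))))) (.nd (nat_lit 7) (.nd (nat_lit 8) (.nd (nat_lit 9) 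
(.lf (nat_lit 454771) (.g (nat_lit 403) (.e (nat_lit 2650) (nat_lit 166) (.e (nat_lit 188441) (nat_lit 20) (.e (nat_lit 3224) (nat_lit 196) .nil))) (.g (nat_lit 0) (.e (nat_lit 37662) (nat_lit 0) .nil) .nil))) 
(.lf (nat_lit 455283) (.g (nat_lit 3532) (.e (nat_lit 2663) (nat_lit 167) (.e (nat_lit 196666) (nat_lit 13) (.e (nat_lit 65610) (nat_lit 10) (.e (nat_lit 344117) (nat_lit 21) (.e (nat_lit 516151) (nat_lit 9) (.e (nat_lit 426041) (nat_lit 0) (.e (nat_lit 3366) (nat_lit 208) (.e (nat_lit 622620) (nat_lit 13) .nil)))))))) (.g (nat_lit 1) (.e (nat_lit 40588) (nat_lit 0) .nil) .nil)))) 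
(.nd (nat_lit 9) 
(.lf (nat_lit 455027) (.g (nat_lit 2685) (.e (nat_lit 2661) (nat_lit 167) (.e (nat_lit 196666) (nat_lit 13) (.e (nat_lit 65610) (nat_lit 10) (.e (nat_lit 344117) (nat_lit 21) (.e (nat_lit 516138) (nat_lit 7) (.e (nat_lit 409612) (nat_lit 10) (.e (nat_lit 5652) (nat_lit 312) .nil))))))) (.g (nat_lit 1) (.e (nat_lit 40162) (nat_lit 0) .nil) .nil))) 
(.lf (nat_lit 455539) (.g (nat_lit 5594) (.e (nat_lit 2663) (nat_lit 167) (.e (nat_lit 196670) (nat_lit 14) (.e (nat_lit 73754) (nat_lit 8) (.e (nat_lit 557105) (nat_lit 14) (.e (nat_lit 180252) (nat_lit 10) (.e (nat_lit 573474) (nat_lit 12) (.e (nat_lit 57507) (nat_lit 39) (.e (nat_lit 647176) (nat_lit 0) .nil)))))))) (.g (nat_lit 1) (.e (nat_lit 40961) (nat_lit 0) .nil) .nil))))) 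
(.nd (nat_lit 8) (.nd (nat_lit 9) 
(.lf (nat_lit 454899) (.g (nat_lit 1786) (.e (nat_lit 2653) (nat_lit 166) (.e (nat_lit 188440) (nat_lit 20) (.e (nat_lit 3406) (nat_lit 212) (.e (nat_lit 655380) (nat_lit 6) (.e (nat_lit 188455) (nat_lit 24) (.e (nat_lit 229666) (nat_lit 240) .nil)))))) (.g (nat_lit 1) (.e (nat_lit 39275) (nat_lit 0) .nil) .nil))) 
(.lf (nat_lit 455411) (.g (nat_lit 4620) (.e (nat_lit 2663) (nat_lit 167) (.e (nat_lit 196666) (nat_lit 13) (.e (nat_lit 65617) (nat_lit 10) (.e (nat_lit 344130) (nat_lit 26) (.e (nat_lit 557090) (nat_lit 12) (.e (nat_lit 163844) (nat_lit 0) (.e (nat_lit 6420) (nat_lit 341) (.e (nat_lit 163843) (nat_lit 0) (.e (nat_lit 7366) (nat_lit 388) .nil))))))))) (.g (nat_lit 1) (.e (nat_lit 40801) (nat_lit 0) .nil) .nil)))) 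
(.nd (nat_lit 9) 
(.lf (nat_lit 455155) (.g (nat_lit 3678) (.e (nat_lit 2663) (nat_lit 167) (.e (nat_lit 196666) (nat_lit 13) (.e (nat_lit 65610) (nat_lit 10) (.e (nat_lit 344117) (nat_lit 21) (.e (nat_lit 516106) (nat_lit 0) (.e (nat_lit 7112) (nat_lit 381) (.e (nat_lit 229688) (nat_lit 246) .nil))))))) (.g (nat_lit 1) (.e (nat_lit 40460) (nat_lit 0) .nil) .nil))) 
(.lf (nat_lit 455667) (.g (nat_lit 3302) (.e (nat_lit 2664) (nat_lit 167) (.e (nat_lit 196666) (nat_lit 13) (.e (nat_lit 65610) (nat_lit 10) (.e (nat_lit 344117) (nat_lit 21) (.e (nat_lit 516142) (nat_lit 8) (.e (nat_lit 417814) (nat_lit 10) (.e (nat_lit 5693) (nat_lit 312) .nil))))))) (.g (nat_lit 1) (.e (nat_lit 41247) (nat_lit 0) .nil) .nil))))))))) 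
(.nd (nat_lit 4) (.nd (nat_lit 5) (.nd (nat_lit 6) (.nd (nat_lit 7) (.nd (nat_lit 8) 
(.nd (nat_lit 9) 
(.lf (nat_lit 454667) (.g (nat_lit 1592) (.e (nat_lit 2648) (nat_lit 166) (.e (nat_lit 188418) (nat_lit 0) (.e (nat_lit 2058) (nat_lit 142) (.e (nat_lit 704598) (nat_lit 6) (.e (nat_lit 188446) (nat_lit 21) (.e (nat_lit 164345) (nat_lit 240) .nil)))))) (.g (nat_lit 1) (.e (nat_lit 36412) (nat_lit 0) .nil) .nil))) 
(.lf (nat_lit 455179) (.g (nat_lit 4548) (.e (nat_lit 2663) (nat_lit 167) (.e (nat_lit 196666) (nat_lit 13) (.e (nat_lit 65610) (nat_lit 10) (.e (nat_lit 344117) (nat_lit 21) (.e (nat_lit 516142) (nat_lit 8) (.e (nat_lit 417814) (nat_lit 10) (.e (nat_lit 5710) (nat_lit 312) .nil))))))) (.g (nat_lit 1) (.e (nat_lit 40484) (nat_lit 0) .nil) .nil)))) (.nd (nat_lit 9) 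
(.lf (nat_lit 454923) (.g (nat_lit 402) (.e (nat_lit 7936) (nat_lit 166) (.e (nat_lit 188441) (nat_lit 20) (.e (nat_lit 3289) (nat_lit 201) .nil))) (.g (nat_lit 0) (.e (nat_lit 39606) (nat_lit 0) .nil) .nil))) 
(.lf (nat_lit 455435) (.g (nat_lit 3635) (.e (nat_lit 2663) (nat_lit 167) (.e (nat_lit 196666) (nat_lit 13) (.e (nat_lit 65622) (nat_lit 12) (.e (nat_lit 385074) (nat_lit 31) (.e (nat_lit 573487) (nat_lit 14) (.e (nat_lit 73782) (nat_lit 32) .nil)))))) (.g (nat_lit 1) (.e (nat_lit 40829) (nat_lit 0) .nil) .nil))))) (.nd (nat_lit 8) (.nd (nat_lit 9) 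
(.lf (nat_lit 454795) (.g (nat_lit 2118) (.e (nat_lit 2651) (nat_lit 166) (.e (nat_lit 188420) (nat_lit 0) (.e (nat_lit 2058) (nat_lit 142) (.e (nat_lit 704598) (nat_lit 6) (.e (nat_lit 188454) (nat_lit 24) (.e (nat_lit 229664) (nat_lit 240) .nil)))))) (.g (nat_lit 1) (.e (nat_lit 38581) (nat_lit 0) .nil) .nil))) 
(.lf (nat_lit 455307) (.g (nat_lit 5908) (.e (nat_lit 2663) (nat_lit 167) (.e (nat_lit 196666) (nat_lit 13) (.e (nat_lit 65610) (nat_lit 10) (.e (nat_lit 344117) (nat_lit 21) (.e (nat_lit 516151) (nat_lit 9) (.e (nat_lit 426050) (nat_lit 0) (.e (nat_lit 3366) (nat_lit 208) (.e (nat_lit 622627) (nat_lit 13) .nil)))))))) (.g (nat_lit 1) (.e (nat_lit 40612) (nat_lit 0) .nil) .nil)))) 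
(.nd (nat_lit 9) 
(.lf (nat_lit 455051) (.g (nat_lit 1148) (.e (nat_lit 2661) (nat_lit 167) (.e (nat_lit 196666) (nat_lit 13) (.e (nat_lit 65619) (nat_lit 10) (.e (nat_lit 344117) (nat_lit 21) .nil)))) (.g (nat_lit 0) (.e (nat_lit 40190) (nat_lit 0) .nil) .nil))) 
(.lf (nat_lit 455563) (.g (nat_lit 1981) (.e (nat_lit 2663) (nat_lit 167) (.e (nat_lit 196672) (nat_lit 15) (.e (nat_lit 81924) (nat_lit 0) (.e (nat_lit 3305) (nat_lit 202) (.e (nat_lit 573487) (nat_lit 14) (.e (nat_lit 81664) (nat_lit 32) .nil)))))) (.g (nat_lit 1) (.e (nat_lit 40990) (nat_lit 0) .nil) .nil)))))) (.nd (nat_lit 7) (.nd (nat_lit 8) (.nd (nat_lit 9) 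
(.lf (nat_lit 454731) (.g (nat_lit 3132) (.e (nat_lit 2648) (nat_lit 166) (.e (nat_lit 188440) (nat_lit 20) (.e (nat_lit 3409) (nat_lit 212) (.e (nat_lit 655378) (nat_lit 4) (.e (nat_lit 172106) (nat_lit 10) (.e (nat_lit 434209) (nat_lit 18) (.e (nat_lit 5547) (nat_lit 306) .nil))))))) (.g (nat_lit 1) (.e (nat_lit 36656) (nat_lit 0) .nil) .nil))) 
(.lf (nat_lit 455243) (.g (nat_lit 5726) (.e (nat_lit 2663) (nat_lit 167) (.e (nat_lit 196666) (nat_lit 13) (.e (nat_lit 65610) (nat_lit 10) (.e (nat_lit 344117) (nat_lit 21) (.e (nat_lit 516151) (nat_lit 9) (.e (nat_lit 426017) (nat_lit 0) (.e (nat_lit 3372) (nat_lit 208) (.e (nat_lit 622620) (nat_lit 13) .nil)))))))) (.g (nat_lit 1) (.e (nat_lit 40548) (nat_lit 0) .nil) .nil)))) 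
(.nd (nat_lit 9) 
(.lf (nat_lit 454987) (.g (nat_lit 2815) (.e (nat_lit 2657) (nat_lit 167) (.e (nat_lit 196670) (nat_lit 14) (.e (nat_lit 73755) (nat_lit 8) (.e (nat_lit 557105) (nat_lit 14) (.e (nat_lit 180252) (nat_lit 10) (.e (nat_lit 573474) (nat_lit 12) (.e (nat_lit 57507) (nat_lit 39) (.e (nat_lit 655104) (nat_lit 0) .nil)))))))) (.g (nat_lit 1) (.e (nat_lit 40004) (nat_lit 0) .nil) .nil))) 
(.lf (nat_lit 455499) (.g (nat_lit 2712) (.e (nat_lit 2663) (nat_lit 167) (.e (nat_lit 196670) (nat_lit 14) (.e (nat_lit 73753) (nat_lit 8) (.e (nat_lit 557103) (nat_lit 14) (.e (nat_lit 180250) (nat_lit 10) (.e (nat_lit 573477) (nat_lit 12) (.e (nat_lit 57510) (nat_lit 39) (.e (nat_lit 647173) (nat_lit 0) .nil)))))))) (.g (nat_lit 1) (.e (nat_lit 40921) (nat_lit 0) .nil) .nil))))) 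
(.nd (nat_lit 8) (.nd (nat_lit 9) 
(.lf (nat_lit 454859) (.g (nat_lit 2358) (.e (nat_lit 2651) (nat_lit 166) (.e (nat_lit 188440) (nat_lit 20) (.e (nat_lit 3469) (nat_lit 217) (.e (nat_lit 696344) (nat_lit 8) (.e (nat_lit 172115) (nat_lit 10) (.e (nat_lit 434202) (nat_lit 18) (.e (nat_lit 6255) (nat_lit 337) .nil))))))) (.g (nat_lit 1) (.e (nat_lit 38837) (nat_lit 0) .nil) .nil))) 
(.lf (nat_lit 455371) (.g (nat_lit 2386) (.e (nat_lit 2663) (nat_lit 167) (.e (nat_lit 196666) (nat_lit 13) (.e (nat_lit 65617) (nat_lit 10) (.e (nat_lit 344124) (nat_lit 25) (.e (nat_lit 548890) (nat_lit 10) (.e (nat_lit 73781) (nat_lit 32) .nil)))))) (.g (nat_lit 1) (.e (nat_lit 40748) (nat_lit 0) .nil) .nil)))) (.nd (nat_lit 9) 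
(.lf (nat_lit 455115) (.g (nat_lit 3980) (.e (nat_lit 2663) (nat_lit 167) (.e (nat_lit 196654) (nat_lit 11) (.e (nat_lit 16436) (nat_lit 9) (.e (nat_lit 426131) (nat_lit 3) (.e (nat_lit 204880) (nat_lit 32) (.e (nat_lit 385096) (nat_lit 49) (.e (nat_lit 778400) (nat_lit 9) .nil))))))) (.g (nat_lit 1) (.e (nat_lit 40312) (nat_lit 0) .nil) .nil))) 
(.lf (nat_lit 455627) (.g (nat_lit 3912) (.e (nat_lit 2664) (nat_lit 167) (.e (nat_lit 196666) (nat_lit 13) (.e (nat_lit 65610) (nat_lit 10) (.e (nat_lit 344117) (nat_lit 21) (.e (nat_lit 516098) (nat_lit 0) (.e (nat_lit 7110) (nat_lit 380) (.e (nat_lit 164366) (nat_lit 246) .nil))))))) (.g (nat_lit 1) (.e (nat_lit 41207) (nat_lit 0) .nil) .nil))))))) 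
(.nd (nat_lit 6) (.nd (nat_lit 7) (.nd (nat_lit 8) (.nd (nat_lit 9) 
(.lf (nat_lit 454699) (.g (nat_lit 2993) (.e (nat_lit 2648) (nat_lit 166) (.e (nat_lit 188420) (nat_lit 0) (.e (nat_lit 2174) (nat_lit 143) (.e (nat_lit 712752) (nat_lit 29) (.e (nat_lit 442421) (nat_lit 21) (.e (nat_lit 164346) (nat_lit 240) .nil)))))) (.g (nat_lit 1) (.e (nat_lit 36446) (nat_lit 0) .nil) .nil))) 
(.lf (nat_lit 455211) (.g (nat_lit 3421) (.e (nat_lit 2663) (nat_lit 167) (.e (nat_lit 196666) (nat_lit 13) (.e (nat_lit 65610) (nat_lit 10) (.e (nat_lit 344117) (nat_lit 21) (.e (nat_lit 516145) (nat_lit 9) (.e (nat_lit 426360) (nat_lit 15) (.e (nat_lit 2012) (nat_lit 139) (.e (nat_lit 679969) (nat_lit 13) .nil)))))))) (.g (nat_lit 1) (.e (nat_lit 40516) (nat_lit 0) .nil) .nil)))) 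
(.nd (nat_lit 9) 
(.lf (nat_lit 454955) (.g (nat_lit 2625) (.e (nat_lit 2654) (nat_lit 167) (.e (nat_lit 196672) (nat_lit 15) (.e (nat_lit 81954) (nat_lit 23) (.e (nat_lit 98353) (nat_lit 25) (.e (nat_lit 417817) (nat_lit 10) (.e (nat_lit 5647) (nat_lit 312) .nil)))))) (.g (nat_lit 1) (.e (nat_lit 39832) (nat_lit 0) .nil) .nil))) 
(.lf (nat_lit 455467) (.g (nat_lit 3216) (.e (nat_lit 2663) (nat_lit 167) (.e (nat_lit 196668) (nat_lit 14) (.e (nat_lit 73753) (nat_lit 8) (.e (nat_lit 557103) (nat_lit 14) (.e (nat_lit 180250) (nat_lit 10) (.e (nat_lit 573473) (nat_lit 12) (.e (nat_lit 57507) (nat_lit 39) (.e (nat_lit 647176) (nat_lit 0) .nil)))))))) (.g (nat_lit 1) (.e (nat_lit 40886) (nat_lit 0) .nil) .nil))))) 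
(.nd (nat_lit 8) (.nd (nat_lit 9) 
(.lf (nat_lit 454827) (.g (nat_lit 2548) (.e (nat_lit 2651) (nat_lit 166) (.e (nat_lit 188431) (nat_lit 20) (.e (nat_lit 3397) (nat_lit 211) (.e (nat_lit 647185) (nat_lit 6) (.e (nat_lit 188455) (nat_lit 24) (.e (nat_lit 229664) (nat_lit 240) .nil)))))) (.g (nat_lit 1) (.e (nat_lit 38690) (nat_lit 0) .nil) .nil))) 
(.lf (nat_lit 455339) (.g (nat_lit 4263) (.e (nat_lit 2663) (nat_lit 167) (.e (nat_lit 196666) (nat_lit 13) (.e (nat_lit 65610) (nat_lit 10) (.e (nat_lit 344117) (nat_lit 21) (.e (nat_lit 516160) (nat_lit 10) (.e (nat_lit 434263) (nat_lit 34) (.e (nat_lit 622625) (nat_lit 13) .nil))))))) (.g (nat_lit 1) (.e (nat_lit 40644) (nat_lit 0) .nil) .nil)))) (.nd (nat_lit 9) 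
(.lf (nat_lit 455083) (.g (nat_lit 3483) (.e (nat_lit 2661) (nat_lit 167) (.e (nat_lit 196681) (nat_lit 17) (.e (nat_lit 131109) (nat_lit 9) (.e (nat_lit 336019) (nat_lit 3) (.e (nat_lit 98350) (nat_lit 24) (.e (nat_lit 409623) (nat_lit 10) (.e (nat_lit 5664) (nat_lit 312) .nil))))))) (.g (nat_lit 1) (.e (nat_lit 40237) (nat_lit 0) .nil) .nil))) 
(.lf (nat_lit 455595) (.g (nat_lit 3587) (.e (nat_lit 2664) (nat_lit 167) (.e (nat_lit 196663) (nat_lit 13) (.e (nat_lit 65630) (nat_lit 14) (.e (nat_lit 401425) (nat_lit 2) (.e (nat_lit 196670) (nat_lit 14) (.e (nat_lit 73781) (nat_lit 32) .nil)))))) (.g (nat_lit 1) (.e (nat_lit 41158) (nat_lit 0) .nil) .nil)))))) (.nd (nat_lit 7) (.nd (nat_lit 8) (.nd (nat_lit 9) 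
(.lf (nat_lit 454763) (.g (nat_lit 445) (.e (nat_lit 2650) (nat_lit 166) (.e (nat_lit 188434) (nat_lit 20) (.e (nat_lit 3409) (nat_lit 212) .nil))) (.g (nat_lit 0) (.e (nat_lit 37633) (nat_lit 0) .nil) .nil))) 
(.lf (nat_lit 455275) (.g (nat_lit 5854) (.e (nat_lit 2663) (nat_lit 167) (.e (nat_lit 196666) (nat_lit 13) (.e (nat_lit 65610) (nat_lit 10) (.e (nat_lit 344117) (nat_lit 21) (.e (nat_lit 516151) (nat_lit 9) (.e (nat_lit 426038) (nat_lit 0) (.e (nat_lit 3370) (nat_lit 208) (.e (nat_lit 622620) (nat_lit 13) .nil)))))))) (.g (nat_lit 1) (.e (nat_lit 40580) (nat_lit 0) .nil) .nil)))) 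
(.nd (nat_lit 9) 
(.lf (nat_lit 455019) (.g (nat_lit 3751) (.e (nat_lit 2661) (nat_lit 167) (.e (nat_lit 196666) (nat_lit 13) (.e (nat_lit 65610) (nat_lit 10) (.e (nat_lit 344117) (nat_lit 21) (.e (nat_lit 516106) (nat_lit 0) (.e (nat_lit 6986) (nat_lit 377) (.e (nat_lit 2505) (nat_lit 157) (.e (nat_lit 5664) (nat_lit 312) .nil)))))))) (.g (nat_lit 1) (.e (nat_lit 40154) (nat_lit 0) .nil) .nil))) 
(.lf (nat_lit 455531) (.g (nat_lit 2811) (.e (nat_lit 2663) (nat_lit 167) (.e (nat_lit 196670) (nat_lit 14) (.e (nat_lit 73754) (nat_lit 8) (.e (nat_lit 557105) (nat_lit 14) (.e (nat_lit 180252) (nat_lit 10) (.e (nat_lit 573473) (nat_lit 12) (.e (nat_lit 57508) (nat_lit 39) (.e (nat_lit 647171) (nat_lit 0) .nil)))))))) (.g (nat_lit 1) (.e (nat_lit 40953) (nat_lit 0) .nil) .nil))))) 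
(.nd (nat_lit 8) (.nd (nat_lit 9) 
(.lf (nat_lit 454891) (.g (nat_lit 2276) (.e (nat_lit 2653) (nat_lit 166) (.e (nat_lit 188418) (nat_lit 0) (.e (nat_lit 2174) (nat_lit 143) (.e (nat_lit 712753) (nat_lit 30) (.e (nat_lit 450569) (nat_lit 0) (.e (nat_lit 5448) (nat_lit 306) .nil)))))) (.g (nat_lit 1) (.e (nat_lit 39207) (nat_lit 0) .nil) .nil))) 
(.lf (nat_lit 455403) (.g (nat_lit 3520) (.e (nat_lit 2663) (nat_lit 167) (.e (nat_lit 196666) (nat_lit 13) (.e (nat_lit 65617) (nat_lit 10) (.e (nat_lit 344130) (nat_lit 26) (.e (nat_lit 557087) (nat_lit 11) (.e (nat_lit 24588) (nat_lit 0) (.e (nat_lit 6676) (nat_lit 357) .nil))))))) (.g (nat_lit 1) (.e (nat_lit 40793) (nat_lit 0) .nil) .nil)))) (.nd (nat_lit 9) 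
(.lf (nat_lit 455147) (.g (nat_lit 3805) (.e (nat_lit 2663) (nat_lit 167) (.e (nat_lit 196666) (nat_lit 13) (.e (nat_lit 65610) (nat_lit 10) (.e (nat_lit 344117) (nat_lit 21) (.e (nat_lit 516102) (nat_lit 0) (.e (nat_lit 7107) (nat_lit 380) (.e (nat_lit 164366) (nat_lit 246) .nil))))))) (.g (nat_lit 1) (.e (nat_lit 40452) (nat_lit 0) .nil) .nil))) 
(.lf (nat_lit 455659) (.g (nat_lit 3756) (.e (nat_lit 2664) (nat_lit 167) (.e (nat_lit 196666) (nat_lit 13) (.e (nat_lit 65610) (nat_lit 10) (.e (nat_lit 344117) (nat_lit 21) (.e (nat_lit 516139) (nat_lit 7) (.e (nat_lit 409608) (nat_lit 10) (.e (nat_lit 5710) (nat_lit 312) .nil))))))) (.g (nat_lit 1) (.e (nat_lit 41239) (nat_lit 0) .nil) .nil)))))))) 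
(.nd (nat_lit 5) (.nd (nat_lit 6) (.nd (nat_lit 7) (.nd (nat_lit 8) (.nd (nat_lit 9) 
(.lf (nat_lit 454683) (.g (nat_lit 1792) (.e (nat_lit 2648) (nat_lit 166) (.e (nat_lit 188418) (nat_lit 0) (.e (nat_lit 2175) (nat_lit 143) (.e (nat_lit 712755) (nat_lit 30) (.e (nat_lit 458496) (nat_lit 0) (.e (nat_lit 5543) (nat_lit 306) .nil)))))) (.g (nat_lit 1) (.e (nat_lit 36428) (nat_lit 0) .nil) .nil))) 
(.lf (nat_lit 455195) (.g (nat_lit 3598) (.e (nat_lit 2663) (nat_lit 167) (.e (nat_lit 196666) (nat_lit 13) (.e (nat_lit 65610) (nat_lit 10) (.e (nat_lit 344117) (nat_lit 21) (.e (nat_lit 516145) (nat_lit 9) (.e (nat_lit 426093) (nat_lit 0) (.e (nat_lit 3369) (nat_lit 208) (.e (nat_lit 622626) (nat_lit 13) .nil)))))))) (.g (nat_lit 1) (.e (nat_lit 40500) (nat_lit 0) .nil) .nil)))) 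
(.nd (nat_lit 9) 
(.lf (nat_lit 454939) (.g (nat_lit 2204) (.e (nat_lit 2654) (nat_lit 167) (.e (nat_lit 196666) (nat_lit 13) (.e (nat_lit 65630) (nat_lit 14) (.e (nat_lit 401428) (nat_lit 3) (.e (nat_lit 204846) (nat_lit 24) .nil))))) (.g (nat_lit 0) (.e (nat_lit 39810) (nat_lit 0) .nil) .nil))) 
(.lf (nat_lit 455451) (.g (nat_lit 4397) (.e (nat_lit 2663) (nat_lit 167) (.e (nat_lit 196666) (nat_lit 13) (.e (nat_lit 65628) (nat_lit 14) (.e (nat_lit 401428) (nat_lit 3) (.e (nat_lit 204863) (nat_lit 27) (.e (nat_lit 344068) (nat_lit 0) .nil)))))) (.g (nat_lit 1) (.e (nat_lit 40857) (nat_lit 0) .nil) .nil))))) (.nd (nat_lit 8) (.nd (nat_lit 9) 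
(.lf (nat_lit 454811) (.g (nat_lit 2781) (.e (nat_lit 2651) (nat_lit 166) (.e (nat_lit 188420) (nat_lit 0) (.e (nat_lit 2174) (nat_lit 143) (.e (nat_lit 712755) (nat_lit 30) (.e (nat_lit 450568) (nat_lit 0) (.e (nat_lit 5448) (nat_lit 306) .nil)))))) (.g (nat_lit 1) (.e (nat_lit 38600) (nat_lit 0) .nil) .nil))) 
(.lf (nat_lit 455323) (.g (nat_lit 3912) (.e (nat_lit 2663) (nat_lit 167) (.e (nat_lit 196666) (nat_lit 13) (.e (nat_lit 65610) (nat_lit 10) (.e (nat_lit 344117) (nat_lit 21) (.e (nat_lit 516159) (nat_lit 10) (.e (nat_lit 434208) (nat_lit 18) (.e (nat_lit 4751) (nat_lit 281) (.e (nat_lit 2518) (nat_lit 157) .nil)))))))) (.g (nat_lit 1) (.e (nat_lit 40628) (nat_lit 0) .nil) .nil)))) 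
(.nd (nat_lit 9) 
(.lf (nat_lit 455067) (.g (nat_lit 2705) (.e (nat_lit 2661) (nat_lit 167) (.e (nat_lit 196673) (nat_lit 15) (.e (nat_lit 81956) (nat_lit 23) (.e (nat_lit 98320) (nat_lit 17) (.e (nat_lit 7111) (nat_lit 381) .nil))))) (.g (nat_lit 0) (.e (nat_lit 40220) (nat_lit 0) .nil) .nil))) 
(.lf (nat_lit 455579) (.g (nat_lit 2809) (.e (nat_lit 2663) (nat_lit 167) (.e (nat_lit 196673) (nat_lit 15) (.e (nat_lit 81956) (nat_lit 23) (.e (nat_lit 98350) (nat_lit 24) .nil)))) (.g (nat_lit 0) (.e (nat_lit 41030) (nat_lit 0) .nil) .nil)))))) (.nd (nat_lit 7) (.nd (nat_lit 8) (.nd (nat_lit 9) 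
(.lf (nat_lit 454747) (.g (nat_lit 3756) (.e (nat_lit 2649) (nat_lit 166) (.e (nat_lit 188434) (nat_lit 20) (.e (nat_lit 3409) (nat_lit 212) (.e (nat_lit 655378) (nat_lit 4) (.e (nat_lit 172106) (nat_lit 10) (.e (nat_lit 434209) (nat_lit 18) (.e (nat_lit 5546) (nat_lit 306) .nil))))))) (.g (nat_lit 1) (.e (nat_lit 37077) (nat_lit 0) .nil) .nil))) 
(.lf (nat_lit 455259) (.g (nat_lit 4366) (.e (nat_lit 2663) (nat_lit 167) (.e (nat_lit 196666) (nat_lit 13) (.e (nat_lit 65610) (nat_lit 10) (.e (nat_lit 344117) (nat_lit 21) (.e (nat_lit 516151) (nat_lit 9) (.e (nat_lit 426022) (nat_lit 0) (.e (nat_lit 3363) (nat_lit 208) (.e (nat_lit 622625) (nat_lit 13) .nil)))))))) (.g (nat_lit 1) (.e (nat_lit 40564) (nat_lit 0) .nil) .nil)))) 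
(.nd (nat_lit 9) 
(.lf (nat_lit 455003) (.g (nat_lit 2808) (.e (nat_lit 2659) (nat_lit 167) (.e (nat_lit 196673) (nat_lit 15) (.e (nat_lit 81956) (nat_lit 23) (.e (nat_lit 98350) (nat_lit 24) .nil)))) (.g (nat_lit 0) (.e (nat_lit 40092) (nat_lit 0) .nil) .nil))) 
(.lf (nat_lit 455515) (.g (nat_lit 3883) (.e (nat_lit 2663) (nat_lit 167) (.e (nat_lit 196670) (nat_lit 14) (.e (nat_lit 73753) (nat_lit 8) (.e (nat_lit 557105) (nat_lit 14) (.e (nat_lit 180252) (nat_lit 10) (.e (nat_lit 573474) (nat_lit 12) (.e (nat_lit 57508) (nat_lit 39) (.e (nat_lit 647175) (nat_lit 0) .nil)))))))) (.g (nat_lit 1) (.e (nat_lit 40937) (nat_lit 0) .nil) .nil))))) 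
(.nd (nat_lit 8) (.nd (nat_lit 9) 
(.lf (nat_lit 454875) (.g (nat_lit 1829) (.e (nat_lit 2653) (nat_lit 166) (.e (nat_lit 188416) (nat_lit 0) (.e (nat_lit 2147) (nat_lit 142) (.e (nat_lit 704597) (nat_lit 6) (.e (nat_lit 188453) (nat_lit 24) (.e (nat_lit 229666) (nat_lit 240) .nil)))))) (.g (nat_lit 1) (.e (nat_lit 39189) (nat_lit 0) .nil) .nil))) 
(.lf (nat_lit 455387) (.g (nat_lit 4481) (.e (nat_lit 2663) (nat_lit 167) (.e (nat_lit 196666) (nat_lit 13) (.e (nat_lit 65617) (nat_lit 10) (.e (nat_lit 344130) (nat_lit 26) (.e (nat_lit 557087) (nat_lit 11) (.e (nat_lit 24576) (nat_lit 0) (.e (nat_lit 6692) (nat_lit 357) .nil))))))) (.g (nat_lit 1) (.e (nat_lit 40776) (nat_lit 0) .nil) .nil)))) (.nd (nat_lit 9) 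
(.lf (nat_lit 455131) (.g (nat_lit 4331) (.e (nat_lit 2663) (nat_lit 167) (.e (nat_lit 196666) (nat_lit 13) (.e (nat_lit 65610) (nat_lit 10) (.e (nat_lit 344117) (nat_lit 21) (.e (nat_lit 516097) (nat_lit 0) (.e (nat_lit 7581) (nat_lit 405) (.e (nat_lit 57747) (nat_lit 201) .nil))))))) (.g (nat_lit 1) (.e (nat_lit 40436) (nat_lit 0) .nil) .nil))) 
(.lf (nat_lit 455643) (.g (nat_lit 3222) (.e (nat_lit 2664) (nat_lit 167) (.e (nat_lit 196666) (nat_lit 13) (.e (nat_lit 65610) (nat_lit 10) (.e (nat_lit 344117) (nat_lit 21) (.e (nat_lit 516106) (nat_lit 0) (.e (nat_lit 6986) (nat_lit 377) (.e (nat_lit 2403) (nat_lit 157) (.e (nat_lit 5691) (nat_lit 312) .nil)))))))) (.g (nat_lit 1) (.e (nat_lit 41223) (nat_lit 0) .nil) .nil))))))) 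
(.nd (nat_lit 6) (.nd (nat_lit 7) (.nd (nat_lit 8) (.nd (nat_lit 9) 
(.lf (nat_lit 454715) (.g (nat_lit 3053) (.e (nat_lit 2648) (nat_lit 166) (.e (nat_lit 188431) (nat_lit 20) (.e (nat_lit 3397) (nat_lit 211) (.e (nat_lit 647183) (nat_lit 4) (.e (nat_lit 172115) (nat_lit 10) (.e (nat_lit 434209) (nat_lit 18) (.e (nat_lit 5546) (nat_lit 306) .nil))))))) (.g (nat_lit 1) (.e (nat_lit 36494) (nat_lit 0) .nil) .nil))) 
(.lf (nat_lit 455227) (.g (nat_lit 3729) (.e (nat_lit 2663) (nat_lit 167) (.e (nat_lit 196666) (nat_lit 13) (.e (nat_lit 65610) (nat_lit 10) (.e (nat_lit 344117) (nat_lit 21) (.e (nat_lit 516145) (nat_lit 9) (.e (nat_lit 426363) (nat_lit 15) (.e (nat_lit 2015) (nat_lit 139) (.e (nat_lit 679965) (nat_lit 13) .nil)))))))) (.g (nat_lit 1) (.e (nat_lit 40532) (nat_lit 0) .nil) .nil)))) 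
(.nd (nat_lit 9) 
(.lf (nat_lit 454971) (.g (nat_lit 2175) (.e (nat_lit 2656) (nat_lit 167) (.e (nat_lit 196672) (nat_lit 15) (.e (nat_lit 81954) (nat_lit 23) (.e (nat_lit 98350) (nat_lit 24) (.e (nat_lit 409618) (nat_lit 10) (.e (nat_lit 7936) (nat_lit 312) .nil)))))) (.g (nat_lit 1) (.e (nat_lit 39925) (nat_lit 0) .nil) .nil))) 
(.lf (nat_lit 455483) (.g (nat_lit 2951) (.e (nat_lit 2663) (nat_lit 167) (.e (nat_lit 196670) (nat_lit 14) (.e (nat_lit 73746) (nat_lit 3) (.e (nat_lit 516129) (nat_lit 3) (.e (nat_lit 221210) (nat_lit 22) (.e (nat_lit 196660) (nat_lit 12) (.e (nat_lit 57507) (nat_lit 39) (.e (nat_lit 647176) (nat_lit 0) .nil)))))))) (.g (nat_lit 1) (.e (nat_lit 40905) (nat_lit 0) .nil) .nil))))) 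
(.nd (nat_lit 8) (.nd (nat_lit 9) 
(.lf (nat_lit 454843) (.g (nat_lit 1729) (.e (nat_lit 2651) (nat_lit 166) (.e (nat_lit 188439) (nat_lit 20) (.e (nat_lit 3408) (nat_lit 212) (.e (nat_lit 655380) (nat_lit 6) (.e (nat_lit 188454) (nat_lit 24) (.e (nat_lit 229664) (nat_lit 240) .nil)))))) (.g (nat_lit 1) (.e (nat_lit 38777) (nat_lit 0) .nil) .nil))) 
(.lf (nat_lit 455355) (.g (nat_lit 2180) (.e (nat_lit 2663) (nat_lit 167) (.e (nat_lit 196666) (nat_lit 13) (.e (nat_lit 65610) (nat_lit 10) (.e (nat_lit 344129) (nat_lit 26) (.e (nat_lit 557087) (nat_lit 11) .nil))))) (.g (nat_lit 0) (.e (nat_lit 40693) (nat_lit 0) .nil) .nil)))) (.nd (nat_lit 9) 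
(.lf (nat_lit 455099) (.g (nat_lit 2405) (.e (nat_lit 2663) (nat_lit 167) (.e (nat_lit 196654) (nat_lit 11) (.e (nat_lit 16436) (nat_lit 9) (.e (nat_lit 426131) (nat_lit 3) (.e (nat_lit 204880) (nat_lit 32) (.e (nat_lit 385090) (nat_lit 49) (.e (nat_lit 778395) (nat_lit 9) .nil))))))) (.g (nat_lit 1) (.e (nat_lit 40296) (nat_lit 0) .nil) .nil))) 
(.lf (nat_lit 455611) (.g (nat_lit 677) (.e (nat_lit 2664) (nat_lit 167) (.e (nat_lit 196666) (nat_lit 13) (.e (nat_lit 65588) (nat_lit 8) .nil))) (.g (nat_lit 0) (.e (nat_lit 41175) (nat_lit 0) .nil) .nil)))))) (.nd (nat_lit 7) (.nd (nat_lit 8) (.nd (nat_lit 9) 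
(.lf (nat_lit 454779) (.g (nat_lit 3172) (.e (nat_lit 2650) (nat_lit 166) (.e (nat_lit 188446) (nat_lit 21) (.e (nat_lit 164319) (nat_lit 228) (.e (nat_lit 57424) (nat_lit 14) (.e (nat_lit 352318) (nat_lit 24) (.e (nat_lit 123153) (nat_lit 250) .nil)))))) (.g (nat_lit 1) (.e (nat_lit 37746) (nat_lit 0) .nil) .nil))) 
(.lf (nat_lit 455291) (.g (nat_lit 4043) (.e (nat_lit 2663) (nat_lit 167) (.e (nat_lit 196666) (nat_lit 13) (.e (nat_lit 65610) (nat_lit 10) (.e (nat_lit 344117) (nat_lit 21) (.e (nat_lit 516151) (nat_lit 9) (.e (nat_lit 426042) (nat_lit 0) (.e (nat_lit 2427) (nat_lit 157) (.e (nat_lit 4778) (nat_lit 281) (.e (nat_lit 2479) (nat_lit 157) .nil))))))))) (.g (nat_lit 1) (.e (nat_lit 40596) (nat_lit 0) .nil) .nil)))) 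
(.nd (nat_lit 9) 
(.lf (nat_lit 455035) (.g (nat_lit 3464) (.e (nat_lit 2661) (nat_lit 167) (.e (nat_lit 196666) (nat_lit 13) (.e (nat_lit 65610) (nat_lit 10) (.e (nat_lit 344117) (nat_lit 21) (.e (nat_lit 516142) (nat_lit 8) (.e (nat_lit 417817) (nat_lit 10) (.e (nat_lit 5666) (nat_lit 312) .nil))))))) (.g (nat_lit 1) (.e (nat_lit 40170) (nat_lit 0) .nil) .nil))) 
(.lf (nat_lit 455547) (.g (nat_lit 2557) (.e (nat_lit 2663) (nat_lit 167) (.e (nat_lit 196670) (nat_lit 14) (.e (nat_lit 73754) (nat_lit 8) (.e (nat_lit 557105) (nat_lit 14) (.e (nat_lit 180252) (nat_lit 10) (.e (nat_lit 573475) (nat_lit 12) (.e (nat_lit 57508) (nat_lit 39) (.e (nat_lit 647168) (nat_lit 0) .nil)))))))) (.g (nat_lit 1) (.e (nat_lit 40969) (nat_lit 0) .nil) .nil))))) 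
(.nd (nat_lit 8) (.nd (nat_lit 9) 
(.lf (nat_lit 454907) (.g (nat_lit 2469) (.e (nat_lit 2653) (nat_lit 166) (.e (nat_lit 188440) (nat_lit 20) (.e (nat_lit 3469) (nat_lit 217) (.e (nat_lit 696344) (nat_lit 8) (.e (nat_lit 172113) (nat_lit 10) (.e (nat_lit 434207) (nat_lit 18) (.e (nat_lit 6255) (nat_lit 337) .nil))))))) (.g (nat_lit 1) (.e (nat_lit 39313) (nat_lit 0) .nil) .nil))) 
(.lf (nat_lit 455419) (.g (nat_lit 1005) (.e (nat_lit 2663) (nat_lit 167) (.e (nat_lit 196666) (nat_lit 13) (.e (nat_lit 65617) (nat_lit 10) (.e (nat_lit 344133) (nat_lit 26) .nil)))) (.g (nat_lit 0) (.e (nat_lit 40811) (nat_lit 0) .nil) .nil)))) (.nd (nat_lit 9) 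
(.lf (nat_lit 455163) (.g (nat_lit 3079) (.e (nat_lit 2663) (nat_lit 167) (.e (nat_lit 196666) (nat_lit 13) (.e (nat_lit 65610) (nat_lit 10) (.e (nat_lit 344117) (nat_lit 21) (.e (nat_lit 516139) (nat_lit 7) .nil))))) (.g (nat_lit 0) (.e (nat_lit 40468) (nat_lit 0) .nil) .nil))) 
(.lf (nat_lit 455675) (.g (nat_lit 3403) (.e (nat_lit 2664) (nat_lit 167) (.e (nat_lit 196666) (nat_lit 13) (.e (nat_lit 65610) (nat_lit 10) (.e (nat_lit 344117) (nat_lit 21) (.e (nat_lit 516151) (nat_lit 9) (.e (nat_lit 426042) (nat_lit 0) (.e (nat_lit 2427) (nat_lit 157) (.e (nat_lit 4758) (nat_lit 281) (.e (nat_lit 2517) (nat_lit 157) .nil))))))))) (.g (nat_lit 1) (.e (nat_lit 41256) (nat_lit 0) .nil) .nil)))))))))) 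
(.nd (nat_lit 3) (.nd (nat_lit 4) (.nd (nat_lit 5) (.nd (nat_lit 6) (.nd (nat_lit 7) 
(.nd (nat_lit 8) (.nd (nat_lit 9) 
(.lf (nat_lit 454663) (.g (nat_lit 1176) (.e (nat_lit 2648) (nat_lit 166) (.e (nat_lit 188417) (nat_lit 0) (.e (nat_lit 2148) (nat_lit 142) (.e (nat_lit 704597) (nat_lit 6) (.e (nat_lit 188444) (nat_lit 21) (.e (nat_lit 164346) (nat_lit 240) .nil)))))) (.g (nat_lit 1) (.e (nat_lit 36408) (nat_lit 0) .nil) .nil))) 
(.lf (nat_lit 455175) (.g (nat_lit 4012) (.e (nat_lit 2663) (nat_lit 167) (.e (nat_lit 196666) (nat_lit 13) (.e (nat_lit 65610) (nat_lit 10) (.e (nat_lit 344117) (nat_lit 21) (.e (nat_lit 516141) (nat_lit 8) (.e (nat_lit 417814) (nat_lit 10) (.e (nat_lit 5710) (nat_lit 312) .nil))))))) (.g (nat_lit 1) (.e (nat_lit 40480) (nat_lit 0) .nil) .nil)))) (.nd (nat_lit 9) 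
(.lf (nat_lit 454919) (.g (nat_lit 446) (.e (nat_lit 7936) (nat_lit 166) (.e (nat_lit 188434) (nat_lit 20) (.e (nat_lit 3289) (nat_lit 201) .nil))) (.g (nat_lit 0) (.e (nat_lit 39564) (nat_lit 0) .nil) .nil))) 
(.lf (nat_lit 455431) (.g (nat_lit 4344) (.e (nat_lit 2663) (nat_lit 167) (.e (nat_lit 196666) (nat_lit 13) (.e (nat_lit 65617) (nat_lit 10) (.e (nat_lit 344133) (nat_lit 26) (.e (nat_lit 557091) (nat_lit 12) (.e (nat_lit 163847) (nat_lit 0) (.e (nat_lit 6420) (nat_lit 341) (.e (nat_lit 163843) (nat_lit 0) (.e (nat_lit 7366) (nat_lit 388) .nil))))))))) (.g (nat_lit 1) (.e (nat_lit 40824) (nat_lit 0) .nil) .nil))))) 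
(.nd (nat_lit 8) (.nd (nat_lit 9) 
(.lf (nat_lit 454791) (.g (nat_lit 2234) (.e (nat_lit 2651) (nat_lit 166) (.e (nat_lit 188420) (nat_lit 0) (.e (nat_lit 2057) (nat_lit 142) (.e (nat_lit 704598) (nat_lit 6) (.e (nat_lit 188453) (nat_lit 24) (.e (nat_lit 229664) (nat_lit 240) .nil)))))) (.g (nat_lit 1) (.e (nat_lit 38577) (nat_lit 0) .nil) .nil))) 
(.lf (nat_lit 455303) (.g (nat_lit 3309) (.e (nat_lit 2663) (nat_lit 167) (.e (nat_lit 196666) (nat_lit 13) (.e (nat_lit 65610) (nat_lit 10) (.e (nat_lit 344117) (nat_lit 21) (.e (nat_lit 516151) (nat_lit 9) (.e (nat_lit 426049) (nat_lit 0) (.e (nat_lit 7936) (nat_lit 208) (.e (nat_lit 622620) (nat_lit 13) .nil)))))))) (.g (nat_lit 1) (.e (nat_lit 40608) (nat_lit 0) .nil) .nil)))) 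
(.nd (nat_lit 9) 
(.lf (nat_lit 455047) (.g (nat_lit 2669) (.e (nat_lit 2661) (nat_lit 167) (.e (nat_lit 196666) (nat_lit 13) (.e (nat_lit 65617) (nat_lit 10) (.e (nat_lit 344130) (nat_lit 26) (.e (nat_lit 557067) (nat_lit 9) (.e (nat_lit 20) (nat_lit 0) (.e (nat_lit 6234) (nat_lit 335) (.e (nat_lit 164359) (nat_lit 246) .nil)))))))) (.g (nat_lit 1) (.e (nat_lit 40186) (nat_lit 0) .nil) .nil))) 
(.lf (nat_lit 455559) (.g (nat_lit 3388) (.e (nat_lit 2663) (nat_lit 167) (.e (nat_lit 196671) (nat_lit 15) (.e (nat_lit 81956) (nat_lit 23) (.e (nat_lit 98350) (nat_lit 24) (.e (nat_lit 409616) (nat_lit 10) (.e (nat_lit 7936) (nat_lit 312) .nil)))))) (.g (nat_lit 1) (.e (nat_lit 40983) (nat_lit 0) .nil) .nil)))))) (.nd (nat_lit 7) (.nd (nat_lit 8) (.nd (nat_lit 9) 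
(.lf (nat_lit 454727) (.g (nat_lit 3282) (.e (nat_lit 2648) (nat_lit 166) (.e (nat_lit 188439) (nat_lit 20) (.e (nat_lit 3409) (nat_lit 212) (.e (nat_lit 655378) (nat_lit 4) (.e (nat_lit 172115) (nat_lit 10) (.e (nat_lit 434209) (nat_lit 18) (.e (nat_lit 5546) (nat_lit 306) .nil))))))) (.g (nat_lit 1) (.e (nat_lit 36610) (nat_lit 0) .nil) .nil))) 
(.lf (nat_lit 455239) (.g (nat_lit 3606) (.e (nat_lit 2663) (nat_lit 167) (.e (nat_lit 196666) (nat_lit 13) (.e (nat_lit 65610) (nat_lit 10) (.e (nat_lit 344117) (nat_lit 21) (.e (nat_lit 516151) (nat_lit 9) (.e (nat_lit 426017) (nat_lit 0) (.e (nat_lit 2421) (nat_lit 157) (.e (nat_lit 4775) (nat_lit 281) (.e (nat_lit 2479) (nat_lit 157) .nil))))))))) (.g (nat_lit 1) (.e (nat_lit 40544) (nat_lit 0) .nil) .nil)))) 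
(.nd (nat_lit 9) 
(.lf (nat_lit 454983) (.g (nat_lit 2203) (.e (nat_lit 2657) (nat_lit 167) (.e (nat_lit 196670) (nat_lit 14) (.e (nat_lit 73753) (nat_lit 8) (.e (nat_lit 557103) (nat_lit 14) (.e (nat_lit 180250) (nat_lit 10) (.e (nat_lit 573473) (nat_lit 12) (.e (nat_lit 57508) (nat_lit 39) (.e (nat_lit 655104) (nat_lit 0) .nil)))))))) (.g (nat_lit 1) (.e (nat_lit 40000) (nat_lit 0) .nil) .nil))) 
(.lf (nat_lit 455495) (.g (nat_lit 4715) (.e (nat_lit 2663) (nat_lit 167) (.e (nat_lit 196670) (nat_lit 14) (.e (nat_lit 73753) (nat_lit 8) (.e (nat_lit 557103) (nat_lit 14) (.e (nat_lit 180250) (nat_lit 10) (.e (nat_lit 573474) (nat_lit 12) (.e (nat_lit 57507) (nat_lit 39) (.e (nat_lit 647176) (nat_lit 0) .nil)))))))) (.g (nat_lit 1) (.e (nat_lit 40917) (nat_lit 0) .nil) .nil))))) 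
(.nd (nat_lit 8) (.nd (nat_lit 9) 
(.lf (nat_lit 454855) (.g (nat_lit 3163) (.e (nat_lit 2651) (nat_lit 166) (.e (nat_lit 188439) (nat_lit 20) (.e (nat_lit 3469) (nat_lit 217) (.e (nat_lit 696344) (nat_lit 8) (.e (nat_lit 172115) (nat_lit 10) (.e (nat_lit 434202) (nat_lit 18) (.e (nat_lit 6252) (nat_lit 337) .nil))))))) (.g (nat_lit 1) (.e (nat_lit 38831) (nat_lit 0) .nil) .nil))) 
(.lf (nat_lit 455367) (.g (nat_lit 1575) (.e (nat_lit 2663) (nat_lit 167) (.e (nat_lit 196666) (nat_lit 13) (.e (nat_lit 65617) (nat_lit 10) (.e (nat_lit 344096) (nat_lit 18) (.e (nat_lit 3928) (nat_lit 239) .nil))))) (.g (nat_lit 0) (.e (nat_lit 40725) (nat_lit 0) .nil) .nil)))) (.nd (nat_lit 9) 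
(.lf (nat_lit 455111) (.g (nat_lit 3633) (.e (nat_lit 2663) (nat_lit 167) (.e (nat_lit 196654) (nat_lit 11) (.e (nat_lit 16436) (nat_lit 9) (.e (nat_lit 426131) (nat_lit 3) (.e (nat_lit 204880) (nat_lit 32) (.e (nat_lit 385096) (nat_lit 49) (.e (nat_lit 778392) (nat_lit 9) .nil))))))) (.g (nat_lit 1) (.e (nat_lit 40308) (nat_lit 0) .nil) .nil))) 
(.lf (nat_lit 455623) (.g (nat_lit 4884) (.e (nat_lit 2664) (nat_lit 167) (.e (nat_lit 196666) (nat_lit 13) (.e (nat_lit 65610) (nat_lit 10) (.e (nat_lit 344117) (nat_lit 21) (.e (nat_lit 516097) (nat_lit 0) (.e (nat_lit 7581) (nat_lit 405) (.e (nat_lit 57751) (nat_lit 201) .nil))))))) (.g (nat_lit 1) (.e (nat_lit 41203) (nat_lit 0) .nil) .nil))))))) 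
(.nd (nat_lit 6) (.nd (nat_lit 7) (.nd (nat_lit 8) (.nd (nat_lit 9) 
(.lf (nat_lit 454695) (.g (nat_lit 2799) (.e (nat_lit 2648) (nat_lit 166) (.e (nat_lit 188420) (nat_lit 0) (.e (nat_lit 2059) (nat_lit 142) (.e (nat_lit 704598) (nat_lit 6) (.e (nat_lit 188444) (nat_lit 21) (.e (nat_lit 164347) (nat_lit 240) .nil)))))) (.g (nat_lit 1) (.e (nat_lit 36442) (nat_lit 0) .nil) .nil))) 
(.lf (nat_lit 455207) (.g (nat_lit 5332) (.e (nat_lit 2663) (nat_lit 167) (.e (nat_lit 196666) (nat_lit 13) (.e (nat_lit 65610) (nat_lit 10) (.e (nat_lit 344117) (nat_lit 21) (.e (nat_lit 516145) (nat_lit 9) (.e (nat_lit 426357) (nat_lit 15) (.e (nat_lit 2015) (nat_lit 139) (.e (nat_lit 679968) (nat_lit 13) .nil)))))))) (.g (nat_lit 1) (.e (nat_lit 40512) (nat_lit 0) .nil) .nil)))) 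
(.nd (nat_lit 9) 
(.lf (nat_lit 454951) (.g (nat_lit 3501) (.e (nat_lit 2654) (nat_lit 167) (.e (nat_lit 196672) (nat_lit 15) (.e (nat_lit 81954) (nat_lit 23) (.e (nat_lit 98350) (nat_lit 24) (.e (nat_lit 409618) (nat_lit 10) (.e (nat_lit 5667) (nat_lit 312) .nil)))))) (.g (nat_lit 1) (.e (nat_lit 39828) (nat_lit 0) .nil) .nil))) 
(.lf (nat_lit 455463) (.g (nat_lit 3740) (.e (nat_lit 2663) (nat_lit 167) (.e (nat_lit 196666) (nat_lit 13) (.e (nat_lit 65630) (nat_lit 14) (.e (nat_lit 401428) (nat_lit 3) (.e (nat_lit 204863) (nat_lit 27) (.e (nat_lit 344065) (nat_lit 0) .nil)))))) (.g (nat_lit 1) (.e (nat_lit 40876) (nat_lit 0) .nil) .nil))))) (.nd (nat_lit 8) (.nd (nat_lit 9) 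
(.lf (nat_lit 454823) (.g (nat_lit 2968) (.e (nat_lit 2651) (nat_lit 166) (.e (nat_lit 188431) (nat_lit 20) (.e (nat_lit 3397) (nat_lit 211) (.e (nat_lit 647185) (nat_lit 6) (.e (nat_lit 188453) (nat_lit 24) (.e (nat_lit 229665) (nat_lit 240) .nil)))))) (.g (nat_lit 1) (.e (nat_lit 38686) (nat_lit 0) .nil) .nil))) 
(.lf (nat_lit 455335) (.g (nat_lit 4114) (.e (nat_lit 2663) (nat_lit 167) (.e (nat_lit 196666) (nat_lit 13) (.e (nat_lit 65610) (nat_lit 10) (.e (nat_lit 344117) (nat_lit 21) (.e (nat_lit 516160) (nat_lit 10) (.e (nat_lit 434208) (nat_lit 18) (.e (nat_lit 4778) (nat_lit 281) (.e (nat_lit 2479) (nat_lit 157) .nil)))))))) (.g (nat_lit 1) (.e (nat_lit 40640) (nat_lit 0) .nil) .nil)))) 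
(.nd (nat_lit 9) 
(.lf (nat_lit 455079) (.g (nat_lit 2836) (.e (nat_lit 2661) (nat_lit 167) (.e (nat_lit 196674) (nat_lit 15) (.e (nat_lit 81956) (nat_lit 23) (.e (nat_lit 98320) (nat_lit 17) .nil)))) (.g (nat_lit 0) (.e (nat_lit 40233) (nat_lit 0) .nil) .nil))) 
(.lf (nat_lit 455591) (.g (nat_lit 2857) (.e (nat_lit 2664) (nat_lit 167) (.e (nat_lit 196630) (nat_lit 9) (.e (nat_lit 1499) (nat_lit 108) (.e (nat_lit 336204) (nat_lit 12) (.e (nat_lit 385074) (nat_lit 31) (.e (nat_lit 573487) (nat_lit 14) (.e (nat_lit 73781) (nat_lit 32) .nil))))))) (.g (nat_lit 1) (.e (nat_lit 41151) (nat_lit 0) .nil) .nil)))))) 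
(.nd (nat_lit 7) (.nd (nat_lit 8) (.nd (nat_lit 9) 
(.lf (nat_lit 454759) (.g (nat_lit 2052) (.e (nat_lit 2650) (nat_lit 166) (.e (nat_lit 188434) (nat_lit 20) (.e (nat_lit 3288) (nat_lit 201) (.e (nat_lit 565252) (nat_lit 0) (.e (nat_lit 1586) (nat_lit 111) (.e (nat_lit 368384) (nat_lit 0) (.e (nat_lit 7685) (nat_lit 410) .nil))))))) (.g (nat_lit 1) (.e (nat_lit 37572) (nat_lit 0) .nil) .nil))) 
(.lf (nat_lit 455271) (.g (nat_lit 5434) (.e (nat_lit 2663) (nat_lit 167) (.e (nat_lit 196666) (nat_lit 13) (.e (nat_lit 65610) (nat_lit 10) (.e (nat_lit 344117) (nat_lit 21) (.e (nat_lit 516151) (nat_lit 9) (.e (nat_lit 426037) (nat_lit 0) (.e (nat_lit 3370) (nat_lit 208) (.e (nat_lit 622626) (nat_lit 13) .nil)))))))) (.g (nat_lit 1) (.e (nat_lit 40576) (nat_lit 0) .nil) .nil)))) 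
(.nd (nat_lit 9) 
(.lf (nat_lit 455015) (.g (nat_lit 2741) (.e (nat_lit 2661) (nat_lit 167) (.e (nat_lit 196666) (nat_lit 13) (.e (nat_lit 65610) (nat_lit 10) (.e (nat_lit 344117) (nat_lit 21) (.e (nat_lit 516102) (nat_lit 0) (.e (nat_lit 7113) (nat_lit 381) (.e (nat_lit 229686) (nat_lit 246) .nil))))))) (.g (nat_lit 1) (.e (nat_lit 40150) (nat_lit 0) .nil) .nil))) 
(.lf (nat_lit 455527) (.g (nat_lit 2457) (.e (nat_lit 2663) (nat_lit 167) (.e (nat_lit 196670) (nat_lit 14) (.e (nat_lit 73754) (nat_lit 8) (.e (nat_lit 557105) (nat_lit 14) (.e (nat_lit 180252) (nat_lit 10) (.e (nat_lit 573473) (nat_lit 12) (.e (nat_lit 57506) (nat_lit 39) (.e (nat_lit 647175) (nat_lit 0) .nil)))))))) (.g (nat_lit 1) (.e (nat_lit 40949) (nat_lit 0) .nil) .nil))))) 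
(.nd (nat_lit 8) (.nd (nat_lit 9) 
(.lf (nat_lit 454887) (.g (nat_lit 1383) (.e (nat_lit 2653) (nat_lit 166) (.e (nat_lit 188418) (nat_lit 0) (.e (nat_lit 2059) (nat_lit 142) (.e (nat_lit 704598) (nat_lit 6) (.e (nat_lit 188454) (nat_lit 24) (.e (nat_lit 229665) (nat_lit 240) .nil)))))) (.g (nat_lit 1) (.e (nat_lit 39202) (nat_lit 0) .nil) .nil))) 
(.lf (nat_lit 455399) (.g (nat_lit 4406) (.e (nat_lit 2663) (nat_lit 167) (.e (nat_lit 196666) (nat_lit 13) (.e (nat_lit 65617) (nat_lit 10) (.e (nat_lit 344130) (nat_lit 26) (.e (nat_lit 557087) (nat_lit 11) (.e (nat_lit 24584) (nat_lit 0) (.e (nat_lit 6679) (nat_lit 357) .nil))))))) (.g (nat_lit 1) (.e (nat_lit 40789) (nat_lit 0) .nil) .nil)))) (.nd (nat_lit 9) 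
(.lf (nat_lit 455143) (.g (nat_lit 3626) (.e (nat_lit 2663) (nat_lit 167) (.e (nat_lit 196666) (nat_lit 13) (.e (nat_lit 65610) (nat_lit 10) (.e (nat_lit 344117) (nat_lit 21) (.e (nat_lit 516098) (nat_lit 0) (.e (nat_lit 7583) (nat_lit 405) (.e (nat_lit 57746) (nat_lit 201) .nil))))))) (.g (nat_lit 1) (.e (nat_lit 40448) (nat_lit 0) .nil) .nil))) 
(.lf (nat_lit 455655) (.g (nat_lit 3624) (.e (nat_lit 2664) (nat_lit 167) (.e (nat_lit 196666) (nat_lit 13) (.e (nat_lit 65610) (nat_lit 10) (.e (nat_lit 344117) (nat_lit 21) (.e (nat_lit 516106) (nat_lit 0) (.e (nat_lit 7112) (nat_lit 381) (.e (nat_lit 229688) (nat_lit 246) .nil))))))) (.g (nat_lit 1) (.e (nat_lit 41235) (nat_lit 0) .nil) .nil)))))))) 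
(.nd (nat_lit 5) (.nd (nat_lit 6) (.nd (nat_lit 7) (.nd (nat_lit 8) (.nd (nat_lit 9) 
(.lf (nat_lit 454679) (.g (nat_lit 1846) (.e (nat_lit 2648) (nat_lit 166) (.e (nat_lit 188418) (nat_lit 0) (.e (nat_lit 2174) (nat_lit 143) (.e (nat_lit 712755) (nat_lit 30) (.e (nat_lit 458496) (nat_lit 0) (.e (nat_lit 5543) (nat_lit 306) .nil)))))) (.g (nat_lit 1) (.e (nat_lit 36424) (nat_lit 0) .nil) .nil))) 
(.lf (nat_lit 455191) (.g (nat_lit 3629) (.e (nat_lit 2663) (nat_lit 167) (.e (nat_lit 196666) (nat_lit 13) (.e (nat_lit 65610) (nat_lit 10) (.e (nat_lit 344117) (nat_lit 21) (.e (nat_lit 516145) (nat_lit 9) (.e (nat_lit 425996) (nat_lit 0) (.e (nat_lit 3366) (nat_lit 208) (.e (nat_lit 622627) (nat_lit 13) .nil)))))))) (.g (nat_lit 1) (.e (nat_lit 40496) (nat_lit 0) .nil) .nil)))) 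
(.nd (nat_lit 9) 
(.lf (nat_lit 454935) (.g (nat_lit 1514) (.e (nat_lit 2654) (nat_lit 167) (.e (nat_lit 196666) (nat_lit 13) (.e (nat_lit 65610) (nat_lit 10) (.e (nat_lit 344129) (nat_lit 26) .nil)))) (.g (nat_lit 0) (.e (nat_lit 39806) (nat_lit 0) .nil) .nil))) 
(.lf (nat_lit 455447) (.g (nat_lit 1111) (.e (nat_lit 2663) (nat_lit 167) (.e (nat_lit 196666) (nat_lit 13) (.e (nat_lit 65628) (nat_lit 14) (.e (nat_lit 401428) (nat_lit 3) .nil)))) (.g (nat_lit 0) (.e (nat_lit 40853) (nat_lit 0) .nil) .nil))))) (.nd (nat_lit 8) (.nd (nat_lit 9) 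
(.lf (nat_lit 454807) (.g (nat_lit 3016) (.e (nat_lit 2651) (nat_lit 166) (.e (nat_lit 188420) (nat_lit 0) (.e (nat_lit 2174) (nat_lit 143) (.e (nat_lit 712752) (nat_lit 29) (.e (nat_lit 442430) (nat_lit 24) (.e (nat_lit 229664) (nat_lit 240) .nil)))))) (.g (nat_lit 1) (.e (nat_lit 38596) (nat_lit 0) .nil) .nil))) 
(.lf (nat_lit 455319) (.g (nat_lit 3579) (.e (nat_lit 2663) (nat_lit 167) (.e (nat_lit 196666) (nat_lit 13) (.e (nat_lit 65610) (nat_lit 10) (.e (nat_lit 344117) (nat_lit 21) (.e (nat_lit 516151) (nat_lit 9) (.e (nat_lit 426104) (nat_lit 1) (.e (nat_lit 164255) (nat_lit 215) (.e (nat_lit 2479) (nat_lit 157) .nil)))))))) (.g (nat_lit 1) (.e (nat_lit 40624) (nat_lit 0) .nil) .nil)))) 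
(.nd (nat_lit 9) 
(.lf (nat_lit 455063) (.g (nat_lit 2896) (.e (nat_lit 2661) (nat_lit 167) (.e (nat_lit 196672) (nat_lit 15) (.e (nat_lit 81956) (nat_lit 23) (.e (nat_lit 98320) (nat_lit 17) .nil)))) (.g (nat_lit 0) (.e (nat_lit 40215) (nat_lit 0) .nil) .nil))) 
(.lf (nat_lit 455575) (.g (nat_lit 3927) (.e (nat_lit 2663) (nat_lit 167) (.e (nat_lit 196672) (nat_lit 15) (.e (nat_lit 81956) (nat_lit 23) (.e (nat_lit 98350) (nat_lit 24) (.e (nat_lit 409616) (nat_lit 10) (.e (nat_lit 5710) (nat_lit 312) .nil)))))) (.g (nat_lit 1) (.e (nat_lit 41026) (nat_lit 0) .nil) .nil)))))) (.nd (nat_lit 7) (.nd (nat_lit 8) (.nd (nat_lit 9) 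
(.lf (nat_lit 454743) (.g (nat_lit 1580) (.e (nat_lit 2649) (nat_lit 166) (.e (nat_lit 188434) (nat_lit 20) (.e (nat_lit 3391) (nat_lit 210) (.e (nat_lit 639008) (nat_lit 13) (.e (nat_lit 1589) (nat_lit 111) (.e (nat_lit 368384) (nat_lit 0) (.e (nat_lit 5122) (nat_lit 292) .nil))))))) (.g (nat_lit 1) (.e (nat_lit 37033) (nat_lit 0) .nil) .nil))) 
(.lf (nat_lit 455255) (.g (nat_lit 3675) (.e (nat_lit 2663) (nat_lit 167) (.e (nat_lit 196666) (nat_lit 13) (.e (nat_lit 65610) (nat_lit 10) (.e (nat_lit 344117) (nat_lit 21) (.e (nat_lit 516151) (nat_lit 9) (.e (nat_lit 426022) (nat_lit 0) (.e (nat_lit 2400) (nat_lit 157) (.e (nat_lit 4830) (nat_lit 281) (.e (nat_lit 2477) (nat_lit 157) .nil))))))))) (.g (nat_lit 1) (.e (nat_lit 40560) (nat_lit 0) .nil) .nil)))) 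
(.nd (nat_lit 9) 
(.lf (nat_lit 454999) (.g (nat_lit 2712) (.e (nat_lit 2658) (nat_lit 167) (.e (nat_lit 196666) (nat_lit 13) (.e (nat_lit 65610) (nat_lit 10) (.e (nat_lit 344129) (nat_lit 26) .nil)))) (.g (nat_lit 0) (.e (nat_lit 40085) (nat_lit 0) .nil) .nil))) 
(.lf (nat_lit 455511) (.g (nat_lit 4022) (.e (nat_lit 2663) (nat_lit 167) (.e (nat_lit 196670) (nat_lit 14) (.e (nat_lit 73753) (nat_lit 8) (.e (nat_lit 557105) (nat_lit 14) (.e (nat_lit 180252) (nat_lit 10) (.e (nat_lit 573473) (nat_lit 12) (.e (nat_lit 57511) (nat_lit 39) (.e (nat_lit 647171) (nat_lit 0) .nil)))))))) (.g (nat_lit 1) (.e (nat_lit 40933) (nat_lit 0) .nil) .nil))))) 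
(.nd (nat_lit 8) (.nd (nat_lit 9) 
(.lf (nat_lit 454871) (.g (nat_lit 957) (.e (nat_lit 2652) (nat_lit 166) (.e (nat_lit 188435) (nat_lit 20) (.e (nat_lit 3391) (nat_lit 210) (.e (nat_lit 639008) (nat_lit 13) (.e (nat_lit 1586) (nat_lit 111) (.e (nat_lit 368384) (nat_lit 0) (.e (nat_lit 5048) (nat_lit 292) .nil))))))) (.g (nat_lit 1) (.e (nat_lit 39074) (nat_lit 0) .nil) .nil))) 
(.lf (nat_lit 455383) (.g (nat_lit 2553) (.e (nat_lit 2663) (nat_lit 167) (.e (nat_lit 196666) (nat_lit 13) (.e (nat_lit 65617) (nat_lit 10) (.e (nat_lit 344130) (nat_lit 26) (.e (nat_lit 557086) (nat_lit 11) (.e (nat_lit 24580) (nat_lit 0) (.e (nat_lit 6696) (nat_lit 357) .nil))))))) (.g (nat_lit 1) (.e (nat_lit 40772) (nat_lit 0) .nil) .nil)))) (.nd (nat_lit 9) 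
(.lf (nat_lit 455127) (.g (nat_lit 4490) (.e (nat_lit 2663) (nat_lit 167) (.e (nat_lit 196666) (nat_lit 13) (.e (nat_lit 65610) (nat_lit 10) (.e (nat_lit 344117) (nat_lit 21) (.e (nat_lit 516097) (nat_lit 0) (.e (nat_lit 7578) (nat_lit 405) (.e (nat_lit 57750) (nat_lit 201) .nil))))))) (.g (nat_lit 1) (.e (nat_lit 40432) (nat_lit 0) .nil) .nil))) 
(.lf (nat_lit 455639) (.g (nat_lit 3234) (.e (nat_lit 2664) (nat_lit 167) (.e (nat_lit 196666) (nat_lit 13) (.e (nat_lit 65610) (nat_lit 10) (.e (nat_lit 344117) (nat_lit 21) (.e (nat_lit 516102) (nat_lit 0) (.e (nat_lit 7114) (nat_lit 381) (.e (nat_lit 229690) (nat_lit 246) .nil))))))) (.g (nat_lit 1) (.e (nat_lit 41219) (nat_lit 0) .nil) .nil))))))) 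
(.nd (nat_lit 6) (.nd (nat_lit 7) (.nd (nat_lit 8) (.nd (nat_lit 9) 
(.lf (nat_lit 454711) (.g (nat_lit 445) (.e (nat_lit 2648) (nat_lit 166) (.e (nat_lit 188431) (nat_lit 20) (.e (nat_lit 3281) (nat_lit 200) .nil))) (.g (nat_lit 0) (.e (nat_lit 36486) (nat_lit 0) .nil) .nil))) 
(.lf (nat_lit 455223) (.g (nat_lit 3531) (.e (nat_lit 2663) (nat_lit 167) (.e (nat_lit 196666) (nat_lit 13) (.e (nat_lit 65610) (nat_lit 10) (.e (nat_lit 344117) (nat_lit 21) (.e (nat_lit 516145) (nat_lit 9) (.e (nat_lit 426361) (nat_lit 15) (.e (nat_lit 2017) (nat_lit 139) (.e (nat_lit 679968) (nat_lit 13) .nil)))))))) (.g (nat_lit 1) (.e (nat_lit 40528) (nat_lit 0) .nil) .nil)))) 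
(.nd (nat_lit 9) 
(.lf (nat_lit 454967) (.g (nat_lit 2332) (.e (nat_lit 2656) (nat_lit 167) (.e (nat_lit 196672) (nat_lit 15) (.e (nat_lit 81954) (nat_lit 23) (.e (nat_lit 98349) (nat_lit 24) (.e (nat_lit 409617) (nat_lit 10) .nil))))) (.g (nat_lit 0) (.e (nat_lit 39921) (nat_lit 0) .nil) .nil))) 
(.lf (nat_lit 455479) (.g (nat_lit 4047) (.e (nat_lit 2663) (nat_lit 167) (.e (nat_lit 196669) (nat_lit 14) (.e (nat_lit 73755) (nat_lit 8) (.e (nat_lit 557105) (nat_lit 14) (.e (nat_lit 180252) (nat_lit 10) (.e (nat_lit 573474) (nat_lit 12) (.e (nat_lit 57508) (nat_lit 39) (.e (nat_lit 647176) (nat_lit 0) .nil)))))))) (.g (nat_lit 1) (.e (nat_lit 40901) (nat_lit 0) .nil) .nil))))) 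
(.nd (nat_lit 8) (.nd (nat_lit 9) 
(.lf (nat_lit 454839) (.g (nat_lit 1624) (.e (nat_lit 2651) (nat_lit 166) (.e (nat_lit 188439) (nat_lit 20) (.e (nat_lit 3407) (nat_lit 212) (.e (nat_lit 655380) (nat_lit 6) (.e (nat_lit 188454) (nat_lit 24) (.e (nat_lit 229664) (nat_lit 240) .nil)))))) (.g (nat_lit 1) (.e (nat_lit 38764) (nat_lit 0) .nil) .nil))) 
(.lf (nat_lit 455351) (.g (nat_lit 2297) (.e (nat_lit 2663) (nat_lit 167) (.e (nat_lit 196666) (nat_lit 13) (.e (nat_lit 65610) (nat_lit 10) (.e (nat_lit 344126) (nat_lit 25) .nil)))) (.g (nat_lit 0) (.e (nat_lit 40677) (nat_lit 0) .nil) .nil)))) (.nd (nat_lit 9) 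
(.lf (nat_lit 455095) (.g (nat_lit 3157) (.e (nat_lit 2663) (nat_lit 167) (.e (nat_lit 196654) (nat_lit 11) (.e (nat_lit 16436) (nat_lit 9) (.e (nat_lit 426131) (nat_lit 3) (.e (nat_lit 204852) (nat_lit 26) (.e (nat_lit 336332) (nat_lit 19) (.e (nat_lit 213000) (nat_lit 9) .nil))))))) (.g (nat_lit 1) (.e (nat_lit 40291) (nat_lit 0) .nil) .nil))) 
(.lf (nat_lit 455607) (.g (nat_lit 2185) (.e (nat_lit 2664) (nat_lit 167) (.e (nat_lit 196666) (nat_lit 13) (.e (nat_lit 65586) (nat_lit 7) (.e (nat_lit 319517) (nat_lit 12) (.e (nat_lit 32788) (nat_lit 10) (.e (nat_lit 73781) (nat_lit 32) .nil)))))) (.g (nat_lit 1) (.e (nat_lit 41171) (nat_lit 0) .nil) .nil)))))) (.nd (nat_lit 7) (.nd (nat_lit 8) (.nd (nat_lit 9) 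
(.lf (nat_lit 454775) (.g (nat_lit 3704) (.e (nat_lit 2650) (nat_lit 166) (.e (nat_lit 188441) (nat_lit 20) (.e (nat_lit 3409) (nat_lit 212) (.e (nat_lit 655378) (nat_lit 4) (.e (nat_lit 172106) (nat_lit 10) (.e (nat_lit 434209) (nat_lit 18) (.e (nat_lit 5547) (nat_lit 306) .nil))))))) (.g (nat_lit 1) (.e (nat_lit 37703) (nat_lit 0) .nil) .nil))) 
(.lf (nat_lit 455287) (.g (nat_lit 4469) (.e (nat_lit 2663) (nat_lit 167) (.e (nat_lit 196666) (nat_lit 13) (.e (nat_lit 65610) (nat_lit 10) (.e (nat_lit 344117) (nat_lit 21) (.e (nat_lit 516151) (nat_lit 9) (.e (nat_lit 426042) (nat_lit 0) (.e (nat_lit 2425) (nat_lit 157) (.e (nat_lit 4818) (nat_lit 281) (.e (nat_lit 2477) (nat_lit 157) .nil))))))))) (.g (nat_lit 1) (.e (nat_lit 40592) (nat_lit 0) .nil) .nil)))) 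
(.nd (nat_lit 9) 
(.lf (nat_lit 455031) (.g (nat_lit 2750) (.e (nat_lit 2661) (nat_lit 167) (.e (nat_lit 196666) (nat_lit 13) (.e (nat_lit 65610) (nat_lit 10) (.e (nat_lit 344117) (nat_lit 21) (.e (nat_lit 516141) (nat_lit 8) (.e (nat_lit 417816) (nat_lit 10) (.e (nat_lit 5647) (nat_lit 312) .nil))))))) (.g (nat_lit 1) (.e (nat_lit 40166) (nat_lit 0) .nil) .nil))) 
(.lf (nat_lit 455543) (.g (nat_lit 4633) (.e (nat_lit 2663) (nat_lit 167) (.e (nat_lit 196670) (nat_lit 14) (.e (nat_lit 73754) (nat_lit 8) (.e (nat_lit 557105) (nat_lit 14) (.e (nat_lit 180252) (nat_lit 10) (.e (nat_lit 573475) (nat_lit 12) (.e (nat_lit 57506) (nat_lit 39) (.e (nat_lit 647176) (nat_lit 0) .nil)))))))) (.g (nat_lit 1) (.e (nat_lit 40965) (nat_lit 0) .nil) .nil))))) 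
(.nd (nat_lit 8) (.nd (nat_lit 9) 
(.lf (nat_lit 454903) (.g (nat_lit 2698) (.e (nat_lit 2653) (nat_lit 166) (.e (nat_lit 188440) (nat_lit 20) (.e (nat_lit 3409) (nat_lit 212) (.e (nat_lit 655380) (nat_lit 6) (.e (nat_lit 188453) (nat_lit 24) (.e (nat_lit 229665) (nat_lit 240) .nil)))))) (.g (nat_lit 1) (.e (nat_lit 39297) (nat_lit 0) .nil) .nil))) 
(.lf (nat_lit 455415) (.g (nat_lit 1886) (.e (nat_lit 2663) (nat_lit 167) (.e (nat_lit 196666) (nat_lit 13) (.e (nat_lit 65617) (nat_lit 10) (.e (nat_lit 344132) (nat_lit 26) (.e (nat_lit 557073) (nat_lit 9) .nil))))) (.g (nat_lit 0) (.e (nat_lit 40806) (nat_lit 0) .nil) .nil)))) (.nd (nat_lit 9) 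
(.lf (nat_lit 455159) (.g (nat_lit 3723) (.e (nat_lit 2663) (nat_lit 167) (.e (nat_lit 196666) (nat_lit 13) (.e (nat_lit 65610) (nat_lit 10) (.e (nat_lit 344117) (nat_lit 21) (.e (nat_lit 516138) (nat_lit 7) (.e (nat_lit 409610) (nat_lit 10) (.e (nat_lit 5738) (nat_lit 312) .nil))))))) (.g (nat_lit 1) (.e (nat_lit 40464) (nat_lit 0) .nil) .nil))) 
(.lf (nat_lit 455671) (.g (nat_lit 3621) (.e (nat_lit 2664) (nat_lit 167) (.e (nat_lit 196666) (nat_lit 13) (.e (nat_lit 65610) (nat_lit 10) (.e (nat_lit 344117) (nat_lit 21) (.e (nat_lit 516142) (nat_lit 8) (.e (nat_lit 417817) (nat_lit 10) (.e (nat_lit 5726) (nat_lit 312) .nil))))))) (.g (nat_lit 1) (.e (nat_lit 41251) (nat_lit 0) .nil) .nil))))))))) 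
(.nd (nat_lit 4) (.nd (nat_lit 5) (.nd (nat_lit 6) (.nd (nat_lit 7) (.nd (nat_lit 8) 
(.nd (nat_lit 9) 
(.lf (nat_lit 454671) (.g (nat_lit 1619) (.e (nat_lit 2648) (nat_lit 166) (.e (nat_lit 188418) (nat_lit 0) (.e (nat_lit 2059) (nat_lit 142) (.e (nat_lit 704598) (nat_lit 6) (.e (nat_lit 188446) (nat_lit 21) (.e (nat_lit 164345) (nat_lit 240) .nil)))))) (.g (nat_lit 1) (.e (nat_lit 36416) (nat_lit 0) .nil) .nil))) 
(.lf (nat_lit 455183) (.g (nat_lit 3585) (.e (nat_lit 2663) (nat_lit 167) (.e (nat_lit 196666) (nat_lit 13) (.e (nat_lit 65610) (nat_lit 10) (.e (nat_lit 344117) (nat_lit 21) (.e (nat_lit 516142) (nat_lit 8) (.e (nat_lit 417818) (nat_lit 10) (.e (nat_lit 5726) (nat_lit 312) .nil))))))) (.g (nat_lit 1) (.e (nat_lit 40488) (nat_lit 0) .nil) .nil)))) (.nd (nat_lit 9) 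
(.lf (nat_lit 454927) (.g (nat_lit 2920) (.e (nat_lit 2654) (nat_lit 167) (.e (nat_lit 196666) (nat_lit 13) (.e (nat_lit 65610) (nat_lit 10) (.e (nat_lit 344117) (nat_lit 21) (.e (nat_lit 516102) (nat_lit 0) (.e (nat_lit 7114) (nat_lit 381) (.e (nat_lit 229685) (nat_lit 246) .nil))))))) (.g (nat_lit 1) (.e (nat_lit 39797) (nat_lit 0) .nil) .nil))) 
(.lf (nat_lit 455439) (.g (nat_lit 3932) (.e (nat_lit 2663) (nat_lit 167) (.e (nat_lit 196666) (nat_lit 13) (.e (nat_lit 65624) (nat_lit 12) (.e (nat_lit 385074) (nat_lit 31) (.e (nat_lit 573487) (nat_lit 14) (.e (nat_lit 73781) (nat_lit 32) .nil)))))) (.g (nat_lit 1) (.e (nat_lit 40840) (nat_lit 0) .nil) .nil))))) (.nd (nat_lit 8) (.nd (nat_lit 9) 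
(.lf (nat_lit 454799) (.g (nat_lit 2809) (.e (nat_lit 2651) (nat_lit 166) (.e (nat_lit 188420) (nat_lit 0) (.e (nat_lit 2059) (nat_lit 142) (.e (nat_lit 704598) (nat_lit 6) (.e (nat_lit 188453) (nat_lit 24) (.e (nat_lit 229664) (nat_lit 240) .nil)))))) (.g (nat_lit 1) (.e (nat_lit 38585) (nat_lit 0) .nil) .nil))) 
(.lf (nat_lit 455311) (.g (nat_lit 5541) (.e (nat_lit 2663) (nat_lit 167) (.e (nat_lit 196666) (nat_lit 13) (.e (nat_lit 65610) (nat_lit 10) (.e (nat_lit 344117) (nat_lit 21) (.e (nat_lit 516151) (nat_lit 9) (.e (nat_lit 426047) (nat_lit 0) (.e (nat_lit 3366) (nat_lit 208) (.e (nat_lit 622620) (nat_lit 13) .nil)))))))) (.g (nat_lit 1) (.e (nat_lit 40616) (nat_lit 0) .nil) .nil)))) 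
(.nd (nat_lit 9) 
(.lf (nat_lit 455055) (.g (nat_lit 570) (.e (nat_lit 2661) (nat_lit 167) (.e (nat_lit 196668) (nat_lit 14) (.e (nat_lit 73782) (nat_lit 32) .nil))) (.g (nat_lit 0) (.e (nat_lit 40197) (nat_lit 0) .nil) .nil))) 
(.lf (nat_lit 455567) (.g (nat_lit 3128) (.e (nat_lit 2663) (nat_lit 167) (.e (nat_lit 196672) (nat_lit 15) (.e (nat_lit 81954) (nat_lit 23) (.e (nat_lit 98350) (nat_lit 24) (.e (nat_lit 409608) (nat_lit 10) (.e (nat_lit 5710) (nat_lit 312) .nil)))))) (.g (nat_lit 1) (.e (nat_lit 41012) (nat_lit 0) .nil) .nil)))))) (.nd (nat_lit 7) (.nd (nat_lit 8) (.nd (nat_lit 9) 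
(.lf (nat_lit 454735) (.g (nat_lit 974) (.e (nat_lit 2649) (nat_lit 166) (.e (nat_lit 188420) (nat_lit 0) (.e (nat_lit 2058) (nat_lit 142) (.e (nat_lit 704598) (nat_lit 6) .nil)))) (.g (nat_lit 0) (.e (nat_lit 36970) (nat_lit 0) .nil) .nil))) 
(.lf (nat_lit 455247) (.g (nat_lit 3389) (.e (nat_lit 2663) (nat_lit 167) (.e (nat_lit 196666) (nat_lit 13) (.e (nat_lit 65610) (nat_lit 10) (.e (nat_lit 344117) (nat_lit 21) (.e (nat_lit 516151) (nat_lit 9) (.e (nat_lit 426019) (nat_lit 0) (.e (nat_lit 3366) (nat_lit 208) (.e (nat_lit 622625) (nat_lit 13) .nil)))))))) (.g (nat_lit 1) (.e (nat_lit 40552) (nat_lit 0) .nil) .nil)))) 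
(.nd (nat_lit 9) 
(.lf (nat_lit 454991) (.g (nat_lit 3444) (.e (nat_lit 2657) (nat_lit 167) (.e (nat_lit 196672) (nat_lit 15) (.e (nat_lit 81954) (nat_lit 23) (.e (nat_lit 98350) (nat_lit 24) (.e (nat_lit 409612) (nat_lit 10) .nil))))) (.g (nat_lit 0) (.e (nat_lit 40055) (nat_lit 0) .nil) .nil))) 
(.lf (nat_lit 455503) (.g (nat_lit 2763) (.e (nat_lit 2663) (nat_lit 167) (.e (nat_lit 196670) (nat_lit 14) (.e (nat_lit 73753) (nat_lit 8) (.e (nat_lit 557105) (nat_lit 14) (.e (nat_lit 180251) (nat_lit 10) (.e (nat_lit 573477) (nat_lit 12) (.e (nat_lit 57510) (nat_lit 39) (.e (nat_lit 647173) (nat_lit 0) .nil)))))))) (.g (nat_lit 1) (.e (nat_lit 40925) (nat_lit 0) .nil) .nil))))) 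
(.nd (nat_lit 8) (.nd (nat_lit 9) 
(.lf (nat_lit 454863) (.g (nat_lit 2384) (.e (nat_lit 2651) (nat_lit 166) (.e (nat_lit 188441) (nat_lit 20) (.e (nat_lit 3469) (nat_lit 217) (.e (nat_lit 696344) (nat_lit 8) (.e (nat_lit 172113) (nat_lit 10) (.e (nat_lit 434208) (nat_lit 18) (.e (nat_lit 6255) (nat_lit 337) .nil))))))) (.g (nat_lit 1) (.e (nat_lit 38845) (nat_lit 0) .nil) .nil))) 
(.lf (nat_lit 455375) (.g (nat_lit 4458) (.e (nat_lit 2663) (nat_lit 167) (.e (nat_lit 196666) (nat_lit 13) (.e (nat_lit 65617) (nat_lit 10) (.e (nat_lit 344127) (nat_lit 26) (.e (nat_lit 557090) (nat_lit 12) (.e (nat_lit 163844) (nat_lit 0) (.e (nat_lit 6420) (nat_lit 341) (.e (nat_lit 163843) (nat_lit 0) (.e (nat_lit 7366) (nat_lit 388) .nil))))))))) (.g (nat_lit 1) (.e (nat_lit 40762) (nat_lit 0) .nil) .nil)))) 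
(.nd (nat_lit 9) 
(.lf (nat_lit 455119) (.g (nat_lit 2718) (.e (nat_lit 2663) (nat_lit 167) (.e (nat_lit 196656) (nat_lit 11) (.e (nat_lit 16436) (nat_lit 9) (.e (nat_lit 426131) (nat_lit 3) (.e (nat_lit 204880) (nat_lit 32) (.e (nat_lit 385096) (nat_lit 49) (.e (nat_lit 778353) (nat_lit 9) .nil))))))) (.g (nat_lit 1) (.e (nat_lit 40371) (nat_lit 0) .nil) .nil))) 
(.lf (nat_lit 455631) (.g (nat_lit 5068) (.e (nat_lit 2664) (nat_lit 167) (.e (nat_lit 196666) (nat_lit 13) (.e (nat_lit 65610) (nat_lit 10) (.e (nat_lit 344117) (nat_lit 21) (.e (nat_lit 516098) (nat_lit 0) (.e (nat_lit 7581) (nat_lit 405) (.e (nat_lit 57750) (nat_lit 201) .nil))))))) (.g (nat_lit 1) (.e (nat_lit 41211) (nat_lit 0) .nil) .nil))))))) 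
(.nd (nat_lit 6) (.nd (nat_lit 7) (.nd (nat_lit 8) (.nd (nat_lit 9) 
(.lf (nat_lit 454703) (.g (nat_lit 1414) (.e (nat_lit 2648) (nat_lit 166) (.e (nat_lit 188420) (nat_lit 0) (.e (nat_lit 2174) (nat_lit 143) (.e (nat_lit 712755) (nat_lit 30) (.e (nat_lit 450566) (nat_lit 0) .nil))))) (.g (nat_lit 0) (.e (nat_lit 36450) (nat_lit 0) .nil) .nil))) 
(.lf (nat_lit 455215) (.g (nat_lit 3524) (.e (nat_lit 2663) (nat_lit 167) (.e (nat_lit 196666) (nat_lit 13) (.e (nat_lit 65610) (nat_lit 10) (.e (nat_lit 344117) (nat_lit 21) (.e (nat_lit 516145) (nat_lit 9) (.e (nat_lit 426360) (nat_lit 15) (.e (nat_lit 2019) (nat_lit 139) (.e (nat_lit 679965) (nat_lit 13) .nil)))))))) (.g (nat_lit 1) (.e (nat_lit 40520) (nat_lit 0) .nil) .nil)))) 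
(.nd (nat_lit 9) 
(.lf (nat_lit 454959) (.g (nat_lit 4245) (.e (nat_lit 2654) (nat_lit 167) (.e (nat_lit 196672) (nat_lit 15) (.e (nat_lit 81956) (nat_lit 23) (.e (nat_lit 98350) (nat_lit 24) (.e (nat_lit 409617) (nat_lit 10) .nil))))) (.g (nat_lit 0) (.e (nat_lit 39837) (nat_lit 0) .nil) .nil))) 
(.lf (nat_lit 455471) (.g (nat_lit 3479) (.e (nat_lit 2663) (nat_lit 167) (.e (nat_lit 196668) (nat_lit 14) (.e (nat_lit 73782) (nat_lit 32) (.e (nat_lit 2664) (nat_lit 167) (.e (nat_lit 196668) (nat_lit 14) (.e (nat_lit 73782) (nat_lit 32) .nil)))))) (.g (nat_lit 1) (.e (nat_lit 40892) (nat_lit 0) .nil) .nil))))) (.nd (nat_lit 8) (.nd (nat_lit 9) 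
(.lf (nat_lit 454831) (.g (nat_lit 2813) (.e (nat_lit 2651) (nat_lit 166) (.e (nat_lit 188434) (nat_lit 20) (.e (nat_lit 3469) (nat_lit 217) (.e (nat_lit 696344) (nat_lit 8) (.e (nat_lit 172106) (nat_lit 10) (.e (nat_lit 434202) (nat_lit 18) (.e (nat_lit 6255) (nat_lit 337) .nil))))))) (.g (nat_lit 1) (.e (nat_lit 38716) (nat_lit 0) .nil) .nil))) 
(.lf (nat_lit 455343) (.g (nat_lit 5530) (.e (nat_lit 2663) (nat_lit 167) (.e (nat_lit 196666) (nat_lit 13) (.e (nat_lit 65610) (nat_lit 10) (.e (nat_lit 344117) (nat_lit 21) (.e (nat_lit 516185) (nat_lit 16) (.e (nat_lit 491520) (nat_lit 0) (.e (nat_lit 6692) (nat_lit 357) .nil))))))) (.g (nat_lit 1) (.e (nat_lit 40669) (nat_lit 0) .nil) .nil)))) (.nd (nat_lit 9) 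
(.lf (nat_lit 455087) (.g (nat_lit 2153) (.e (nat_lit 2662) (nat_lit 167) (.e (nat_lit 196670) (nat_lit 14) (.e (nat_lit 73753) (nat_lit 8) (.e (nat_lit 557103) (nat_lit 14) (.e (nat_lit 180250) (nat_lit 10) .nil))))) (.g (nat_lit 0) (.e (nat_lit 40242) (nat_lit 0) .nil) .nil))) 
(.lf (nat_lit 455599) (.g (nat_lit 2253) (.e (nat_lit 2664) (nat_lit 167) (.e (nat_lit 196666) (nat_lit 13) (.e (nat_lit 65582) (nat_lit 7) (.e (nat_lit 319517) (nat_lit 12) (.e (nat_lit 32788) (nat_lit 10) (.e (nat_lit 73781) (nat_lit 32) .nil)))))) (.g (nat_lit 1) (.e (nat_lit 41163) (nat_lit 0) .nil) .nil)))))) (.nd (nat_lit 7) (.nd (nat_lit 8) (.nd (nat_lit 9) 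
(.lf (nat_lit 454767) (.g (nat_lit 2333) (.e (nat_lit 2650) (nat_lit 166) (.e (nat_lit 188434) (nat_lit 20) (.e (nat_lit 3469) (nat_lit 217) (.e (nat_lit 696344) (nat_lit 8) (.e (nat_lit 172106) (nat_lit 10) (.e (nat_lit 434202) (nat_lit 18) (.e (nat_lit 6374) (nat_lit 337) .nil))))))) (.g (nat_lit 1) (.e (nat_lit 37656) (nat_lit 0) .nil) .nil))) 
(.lf (nat_lit 455279) (.g (nat_lit 3629) (.e (nat_lit 2663) (nat_lit 167) (.e (nat_lit 196666) (nat_lit 13) (.e (nat_lit 65610) (nat_lit 10) (.e (nat_lit 344117) (nat_lit 21) (.e (nat_lit 516151) (nat_lit 9) (.e (nat_lit 426040) (nat_lit 0) (.e (nat_lit 2426) (nat_lit 157) (.e (nat_lit 4778) (nat_lit 281) (.e (nat_lit 2454) (nat_lit 157) .nil))))))))) (.g (nat_lit 1) (.e (nat_lit 40584) (nat_lit 0) .nil) .nil)))) 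
(.nd (nat_lit 9) 
(.lf (nat_lit 455023) (.g (nat_lit 3283) (.e (nat_lit 2661) (nat_lit 167) (.e (nat_lit 196666) (nat_lit 13) (.e (nat_lit 65610) (nat_lit 10) (.e (nat_lit 344117) (nat_lit 21) (.e (nat_lit 516106) (nat_lit 0) (.e (nat_lit 7095) (nat_lit 380) (.e (nat_lit 164361) (nat_lit 246) .nil))))))) (.g (nat_lit 1) (.e (nat_lit 40158) (nat_lit 0) .nil) .nil))) 
(.lf (nat_lit 455535) (.g (nat_lit 3321) (.e (nat_lit 2663) (nat_lit 167) (.e (nat_lit 196670) (nat_lit 14) (.e (nat_lit 73754) (nat_lit 8) (.e (nat_lit 557105) (nat_lit 14) (.e (nat_lit 180252) (nat_lit 10) (.e (nat_lit 573473) (nat_lit 12) (.e (nat_lit 57510) (nat_lit 39) (.e (nat_lit 647173) (nat_lit 0) .nil)))))))) (.g (nat_lit 1) (.e (nat_lit 40957) (nat_lit 0) .nil) .nil))))) 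
(.nd (nat_lit 8) (.nd (nat_lit 9) 
(.lf (nat_lit 454895) (.g (nat_lit 2650) (.e (nat_lit 2653) (nat_lit 166) (.e (nat_lit 188418) (nat_lit 0) (.e (nat_lit 2175) (nat_lit 143) (.e (nat_lit 712752) (nat_lit 29) (.e (nat_lit 442430) (nat_lit 24) (.e (nat_lit 229665) (nat_lit 240) .nil)))))) (.g (nat_lit 1) (.e (nat_lit 39211) (nat_lit 0) .nil) .nil))) 
(.lf (nat_lit 455407) (.g (nat_lit 3371) (.e (nat_lit 2663) (nat_lit 167) (.e (nat_lit 196666) (nat_lit 13) (.e (nat_lit 65617) (nat_lit 10) (.e (nat_lit 344130) (nat_lit 26) (.e (nat_lit 557089) (nat_lit 12) (.e (nat_lit 163843) (nat_lit 0) (.e (nat_lit 6420) (nat_lit 341) (.e (nat_lit 163843) (nat_lit 0) (.e (nat_lit 7366) (nat_lit 388) .nil))))))))) (.g (nat_lit 1) (.e (nat_lit 40797) (nat_lit 0) .nil) .nil)))) 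
(.nd (nat_lit 9) 
(.lf (nat_lit 455151) (.g (nat_lit 3494) (.e (nat_lit 2663) (nat_lit 167) (.e (nat_lit 196666) (nat_lit 13) (.e (nat_lit 65610) (nat_lit 10) (.e (nat_lit 344117) (nat_lit 21) (.e (nat_lit 516106) (nat_lit 0) (.e (nat_lit 6986) (nat_lit 377) (.e (nat_lit 2403) (nat_lit 157) (.e (nat_lit 5691) (nat_lit 312) .nil)))))))) (.g (nat_lit 1) (.e (nat_lit 40456) (nat_lit 0) .nil) .nil))) 
(.lf (nat_lit 455663) (.g (nat_lit 4436) (.e (nat_lit 2664) (nat_lit 167) (.e (nat_lit 196666) (nat_lit 13) (.e (nat_lit 65610) (nat_lit 10) (.e (nat_lit 344117) (nat_lit 21) (.e (nat_lit 516139) (nat_lit 7) (.e (nat_lit 409618) (nat_lit 10) (.e (nat_lit 5726) (nat_lit 312) .nil))))))) (.g (nat_lit 1) (.e (nat_lit 41243) (nat_lit 0) .nil) .nil)))))))) 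
(.nd (nat_lit 5) (.nd (nat_lit 6) (.nd (nat_lit 7) (.nd (nat_lit 8) (.nd (nat_lit 9) 
(.lf (nat_lit 454687) (.g (nat_lit 1503) (.e (nat_lit 2648) (nat_lit 166) (.e (nat_lit 188420) (nat_lit 0) (.e (nat_lit 2056) (nat_lit 142) (.e (nat_lit 704598) (nat_lit 6) (.e (nat_lit 188446) (nat_lit 21) (.e (nat_lit 164346) (nat_lit 240) .nil)))))) (.g (nat_lit 1) (.e (nat_lit 36432) (nat_lit 0) .nil) .nil))) 
(.lf (nat_lit 455199) (.g (nat_lit 3641) (.e (nat_lit 2663) (nat_lit 167) (.e (nat_lit 196666) (nat_lit 13) (.e (nat_lit 65610) (nat_lit 10) (.e (nat_lit 344117) (nat_lit 21) (.e (nat_lit 516145) (nat_lit 9) (.e (nat_lit 433920) (nat_lit 4) (.e (nat_lit 229610) (nat_lit 215) (.e (nat_lit 2477) (nat_lit 157) .nil)))))))) (.g (nat_lit 1) (.e (nat_lit 40504) (nat_lit 0) .nil) .nil)))) 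
(.nd (nat_lit 9) 
(.lf (nat_lit 454943) (.g (nat_lit 2980) (.e (nat_lit 2654) (nat_lit 167) (.e (nat_lit 196672) (nat_lit 15) (.e (nat_lit 81954) (nat_lit 23) (.e (nat_lit 98323) (nat_lit 17) (.e (nat_lit 7101) (nat_lit 380) (.e (nat_lit 164359) (nat_lit 246) .nil)))))) (.g (nat_lit 1) (.e (nat_lit 39820) (nat_lit 0) .nil) .nil))) 
(.lf (nat_lit 455455) (.g (nat_lit 2495) (.e (nat_lit 2663) (nat_lit 167) (.e (nat_lit 196666) (nat_lit 13) (.e (nat_lit 65630) (nat_lit 14) (.e (nat_lit 401425) (nat_lit 2) (.e (nat_lit 196668) (nat_lit 14) .nil))))) (.g (nat_lit 0) (.e (nat_lit 40864) (nat_lit 0) .nil) .nil))))) (.nd (nat_lit 8) (.nd (nat_lit 9) 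
(.lf (nat_lit 454815) (.g (nat_lit 2436) (.e (nat_lit 2651) (nat_lit 166) (.e (nat_lit 188420) (nat_lit 0) (.e (nat_lit 2175) (nat_lit 143) (.e (nat_lit 712752) (nat_lit 29) (.e (nat_lit 442430) (nat_lit 24) (.e (nat_lit 229666) (nat_lit 240) .nil)))))) (.g (nat_lit 1) (.e (nat_lit 38604) (nat_lit 0) .nil) .nil))) 
(.lf (nat_lit 455327) (.g (nat_lit 3972) (.e (nat_lit 2663) (nat_lit 167) (.e (nat_lit 196666) (nat_lit 13) (.e (nat_lit 65610) (nat_lit 10) (.e (nat_lit 344117) (nat_lit 21) (.e (nat_lit 516160) (nat_lit 10) (.e (nat_lit 434203) (nat_lit 18) (.e (nat_lit 4778) (nat_lit 281) (.e (nat_lit 2477) (nat_lit 157) .nil)))))))) (.g (nat_lit 1) (.e (nat_lit 40632) (nat_lit 0) .nil) .nil)))) 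
(.nd (nat_lit 9) 
(.lf (nat_lit 455071) (.g (nat_lit 2323) (.e (nat_lit 2661) (nat_lit 167) (.e (nat_lit 196673) (nat_lit 15) (.e (nat_lit 81956) (nat_lit 23) (.e (nat_lit 98353) (nat_lit 25) (.e (nat_lit 425728) (nat_lit 10) .nil))))) (.g (nat_lit 0) (.e (nat_lit 40224) (nat_lit 0) .nil) .nil))) 
(.lf (nat_lit 455583) (.g (nat_lit 3637) (.e (nat_lit 2663) (nat_lit 167) (.e (nat_lit 196674) (nat_lit 15) (.e (nat_lit 81922) (nat_lit 0) (.e (nat_lit 3305) (nat_lit 202) (.e (nat_lit 573487) (nat_lit 14) (.e (nat_lit 73782) (nat_lit 32) .nil)))))) (.g (nat_lit 1) (.e (nat_lit 41036) (nat_lit 0) .nil) .nil)))))) (.nd (nat_lit 7) (.nd (nat_lit 8) (.nd (nat_lit 9) 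
(.lf (nat_lit 454751) (.g (nat_lit 778) (.e (nat_lit 2649) (nat_lit 166) (.e (nat_lit 188449) (nat_lit 22) (.e (nat_lit 196615) (nat_lit 0) .nil))) (.g (nat_lit 0) (.e (nat_lit 37175) (nat_lit 0) .nil) .nil))) 
(.lf (nat_lit 455263) (.g (nat_lit 3961) (.e (nat_lit 2663) (nat_lit 167) (.e (nat_lit 196666) (nat_lit 13) (.e (nat_lit 65610) (nat_lit 10) (.e (nat_lit 344117) (nat_lit 21) (.e (nat_lit 516151) (nat_lit 9) (.e (nat_lit 426023) (nat_lit 0) (.e (nat_lit 3363) (nat_lit 208) (.e (nat_lit 622626) (nat_lit 13) .nil)))))))) (.g (nat_lit 1) (.e (nat_lit 40568) (nat_lit 0) .nil) .nil)))) 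
(.nd (nat_lit 9) 
(.lf (nat_lit 455007) (.g (nat_lit 1078) (.e (nat_lit 2661) (nat_lit 167) (.e (nat_lit 196666) (nat_lit 13) (.e (nat_lit 65610) (nat_lit 10) (.e (nat_lit 344117) (nat_lit 21) .nil)))) (.g (nat_lit 0) (.e (nat_lit 40142) (nat_lit 0) .nil) .nil))) 
(.lf (nat_lit 455519) (.g (nat_lit 4837) (.e (nat_lit 2663) (nat_lit 167) (.e (nat_lit 196670) (nat_lit 14) (.e (nat_lit 73753) (nat_lit 8) (.e (nat_lit 557105) (nat_lit 14) (.e (nat_lit 180252) (nat_lit 10) (.e (nat_lit 573475) (nat_lit 12) (.e (nat_lit 57507) (nat_lit 39) (.e (nat_lit 647176) (nat_lit 0) .nil)))))))) (.g (nat_lit 1) (.e (nat_lit 40941) (nat_lit 0) .nil) .nil))))) 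
(.nd (nat_lit 8) (.nd (nat_lit 9) 
(.lf (nat_lit 454879) (.g (nat_lit 2608) (.e (nat_lit 2653) (nat_lit 166) (.e (nat_lit 188418) (nat_lit 0) (.e (nat_lit 2058) (nat_lit 142) (.e (nat_lit 704598) (nat_lit 6) (.e (nat_lit 188453) (nat_lit 24) (.e (nat_lit 229665) (nat_lit 240) .nil)))))) (.g (nat_lit 1) (.e (nat_lit 39194) (nat_lit 0) .nil) .nil))) 
(.lf (nat_lit 455391) (.g (nat_lit 4330) (.e (nat_lit 2663) (nat_lit 167) (.e (nat_lit 196666) (nat_lit 13) (.e (nat_lit 65617) (nat_lit 10) (.e (nat_lit 344130) (nat_lit 26) (.e (nat_lit 557087) (nat_lit 11) (.e (nat_lit 24577) (nat_lit 0) (.e (nat_lit 6692) (nat_lit 357) .nil))))))) (.g (nat_lit 1) (.e (nat_lit 40780) (nat_lit 0) .nil) .nil)))) (.nd (nat_lit 9) 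
(.lf (nat_lit 455135) (.g (nat_lit 5522) (.e (nat_lit 2663) (nat_lit 167) (.e (nat_lit 196666) (nat_lit 13) (.e (nat_lit 65610) (nat_lit 10) (.e (nat_lit 344117) (nat_lit 21) (.e (nat_lit 516097) (nat_lit 0) (.e (nat_lit 7583) (nat_lit 405) (.e (nat_lit 57750) (nat_lit 201) .nil))))))) (.g (nat_lit 1) (.e (nat_lit 40440) (nat_lit 0) .nil) .nil))) 
(.lf (nat_lit 455647) (.g (nat_lit 2893) (.e (nat_lit 2664) (nat_lit 167) (.e (nat_lit 196666) (nat_lit 13) (.e (nat_lit 65610) (nat_lit 10) (.e (nat_lit 344117) (nat_lit 21) (.e (nat_lit 516106) (nat_lit 0) (.e (nat_lit 6986) (nat_lit 377) (.e (nat_lit 2529) (nat_lit 157) (.e (nat_lit 5688) (nat_lit 312) .nil)))))))) (.g (nat_lit 1) (.e (nat_lit 41227) (nat_lit 0) .nil) .nil))))))) 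
(.nd (nat_lit 6) (.nd (nat_lit 7) (.nd (nat_lit 8) (.nd (nat_lit 9) 
(.lf (nat_lit 454719) (.g (nat_lit 2897) (.e (nat_lit 2648) (nat_lit 166) (.e (nat_lit 188431) (nat_lit 20) (.e (nat_lit 3399) (nat_lit 211) (.e (nat_lit 647183) (nat_lit 4) (.e (nat_lit 172106) (nat_lit 10) (.e (nat_lit 434209) (nat_lit 18) (.e (nat_lit 5547) (nat_lit 306) .nil))))))) (.g (nat_lit 1) (.e (nat_lit 36503) (nat_lit 0) .nil) .nil))) 
(.lf (nat_lit 455231) (.g (nat_lit 3348) (.e (nat_lit 2663) (nat_lit 167) (.e (nat_lit 196666) (nat_lit 13) (.e (nat_lit 65610) (nat_lit 10) (.e (nat_lit 344117) (nat_lit 21) (.e (nat_lit 516145) (nat_lit 9) (.e (nat_lit 426402) (nat_lit 15) (.e (nat_lit 2018) (nat_lit 139) (.e (nat_lit 679968) (nat_lit 13) .nil)))))))) (.g (nat_lit 1) (.e (nat_lit 40536) (nat_lit 0) .nil) .nil)))) 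
(.nd (nat_lit 9) 
(.lf (nat_lit 454975) (.g (nat_lit 3987) (.e (nat_lit 2657) (nat_lit 167) (.e (nat_lit 196663) (nat_lit 13) (.e (nat_lit 65630) (nat_lit 14) (.e (nat_lit 401425) (nat_lit 2) (.e (nat_lit 196681) (nat_lit 17) (.e (nat_lit 131073) (nat_lit 0) (.e (nat_lit 6691) (nat_lit 357) .nil))))))) (.g (nat_lit 1) (.e (nat_lit 39955) (nat_lit 0) .nil) .nil))) 
(.lf (nat_lit 455487) (.g (nat_lit 2592) (.e (nat_lit 2663) (nat_lit 167) (.e (nat_lit 196670) (nat_lit 14) (.e (nat_lit 73753) (nat_lit 8) (.e (nat_lit 557103) (nat_lit 14) (.e (nat_lit 180243) (nat_lit 5) (.e (nat_lit 532504) (nat_lit 1) (.e (nat_lit 57703) (nat_lit 164) (.e (nat_lit 2515) (nat_lit 157) .nil)))))))) (.g (nat_lit 1) (.e (nat_lit 40909) (nat_lit 0) .nil) .nil))))) 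
(.nd (nat_lit 8) (.nd (nat_lit 9) 
(.lf (nat_lit 454847) (.g (nat_lit 3567) (.e (nat_lit 2651) (nat_lit 166) (.e (nat_lit 188439) (nat_lit 20) (.e (nat_lit 3409) (nat_lit 212) (.e (nat_lit 655380) (nat_lit 6) (.e (nat_lit 188453) (nat_lit 24) (.e (nat_lit 229665) (nat_lit 240) .nil)))))) (.g (nat_lit 1) (.e (nat_lit 38791) (nat_lit 0) .nil) .nil))) 
(.lf (nat_lit 455359) (.g (nat_lit 4045) (.e (nat_lit 2663) (nat_lit 167) (.e (nat_lit 196666) (nat_lit 13) (.e (nat_lit 65610) (nat_lit 10) (.e (nat_lit 344129) (nat_lit 26) (.e (nat_lit 557087) (nat_lit 11) (.e (nat_lit 24584) (nat_lit 0) (.e (nat_lit 7936) (nat_lit 357) .nil))))))) (.g (nat_lit 1) (.e (nat_lit 40697) (nat_lit 0) .nil) .nil)))) (.nd (nat_lit 9) 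
(.lf (nat_lit 455103) (.g (nat_lit 4564) (.e (nat_lit 2663) (nat_lit 167) (.e (nat_lit 196654) (nat_lit 11) (.e (nat_lit 16436) (nat_lit 9) (.e (nat_lit 426131) (nat_lit 3) (.e (nat_lit 204880) (nat_lit 32) (.e (nat_lit 385096) (nat_lit 49) (.e (nat_lit 778353) (nat_lit 9) .nil))))))) (.g (nat_lit 1) (.e (nat_lit 40300) (nat_lit 0) .nil) .nil))) 
(.lf (nat_lit 455615) (.g (nat_lit 3403) (.e (nat_lit 2664) (nat_lit 167) (.e (nat_lit 196666) (nat_lit 13) (.e (nat_lit 65610) (nat_lit 10) (.e (nat_lit 344097) (nat_lit 18) (.e (nat_lit 3946) (nat_lit 239) .nil))))) (.g (nat_lit 0) (.e (nat_lit 41182) (nat_lit 0) .nil) .nil)))))) (.nd (nat_lit 7) (.nd (nat_lit 8) (.nd (nat_lit 9) 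
(.lf (nat_lit 454783) (.g (nat_lit 2999) (.e (nat_lit 2650) (nat_lit 166) (.e (nat_lit 188455) (nat_lit 24) (.e (nat_lit 229678) (nat_lit 244) (.e (nat_lit 163896) (nat_lit 10) (.e (nat_lit 409602) (nat_lit 0) (.e (nat_lit 5756) (nat_lit 315) (.e (nat_lit 163850) (nat_lit 0) (.e (nat_lit 5547) (nat_lit 306) .nil)))))))) (.g (nat_lit 1) (.e (nat_lit 38175) (nat_lit 0) .nil) .nil))) 
(.lf (nat_lit 455295) (.g (nat_lit 3293) (.e (nat_lit 2663) (nat_lit 167) (.e (nat_lit 196666) (nat_lit 13) (.e (nat_lit 65610) (nat_lit 10) (.e (nat_lit 344117) (nat_lit 21) (.e (nat_lit 516151) (nat_lit 9) (.e (nat_lit 426042) (nat_lit 0) (.e (nat_lit 3369) (nat_lit 208) (.e (nat_lit 622626) (nat_lit 13) .nil)))))))) (.g (nat_lit 1) (.e (nat_lit 40600) (nat_lit 0) .nil) .nil)))) 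
(.nd (nat_lit 9) 
(.lf (nat_lit 455039) (.g (nat_lit 2180) (.e (nat_lit 2661) (nat_lit 167) (.e (nat_lit 196666) (nat_lit 13) (.e (nat_lit 65610) (nat_lit 10) (.e (nat_lit 344129) (nat_lit 26) (.e (nat_lit 557067) (nat_lit 9) .nil))))) (.g (nat_lit 0) (.e (nat_lit 40177) (nat_lit 0) .nil) .nil))) 
(.lf (nat_lit 455551) (.g (nat_lit 3003) (.e (nat_lit 2663) (nat_lit 167) (.e (nat_lit 196670) (nat_lit 14) (.e (nat_lit 73754) (nat_lit 8) (.e (nat_lit 557105) (nat_lit 14) (.e (nat_lit 180252) (nat_lit 10) (.e (nat_lit 573475) (nat_lit 12) (.e (nat_lit 57509) (nat_lit 39) (.e (nat_lit 647172) (nat_lit 0) .nil)))))))) (.g (nat_lit 1) (.e (nat_lit 40973) (nat_lit 0) .nil) .nil))))) 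
(.nd (nat_lit 8) (.nd (nat_lit 9) 
(.lf (nat_lit 454911) (.g (nat_lit 1583) (.e (nat_lit 2653) (nat_lit 166) (.e (nat_lit 188441) (nat_lit 20) (.e (nat_lit 3406) (nat_lit 212) (.e (nat_lit 655380) (nat_lit 6) (.e (nat_lit 188455) (nat_lit 24) (.e (nat_lit 229666) (nat_lit 240) .nil)))))) (.g (nat_lit 1) (.e (nat_lit 39330) (nat_lit 0) .nil) .nil))) 
(.lf (nat_lit 455423) (.g (nat_lit 2554) (.e (nat_lit 2663) (nat_lit 167) (.e (nat_lit 196666) (nat_lit 13) (.e (nat_lit 65617) (nat_lit 10) (.e (nat_lit 344133) (nat_lit 26) (.e (nat_lit 557085) (nat_lit 11) (.e (nat_lit 24580) (nat_lit 0) (.e (nat_lit 6696) (nat_lit 357) .nil))))))) (.g (nat_lit 1) (.e (nat_lit 40816) (nat_lit 0) .nil) .nil)))) (.nd (nat_lit 9) 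
(.lf (nat_lit 455167) (.g (nat_lit 4596) (.e (nat_lit 2663) (nat_lit 167) (.e (nat_lit 196666) (nat_lit 13) (.e (nat_lit 65610) (nat_lit 10) (.e (nat_lit 344117) (nat_lit 21) (.e (nat_lit 516139) (nat_lit 7) (.e (nat_lit 409616) (nat_lit 10) (.e (nat_lit 5710) (nat_lit 312) .nil))))))) (.g (nat_lit 1) (.e (nat_lit 40472) (nat_lit 0) .nil) .nil))) 
(.lf (nat_lit 455679) (.g (nat_lit 2854) (.e (nat_lit 2664) (nat_lit 167) (.e (nat_lit 196666) (nat_lit 13) (.e (nat_lit 65610) (nat_lit 10) (.e (nat_lit 344117) (nat_lit 21) (.e (nat_lit 516159) (nat_lit 10) (.e (nat_lit 434208) (nat_lit 18) (.e (nat_lit 4751) (nat_lit 281) (.e (nat_lit 2518) (nat_lit 157) .nil)))))))) (.g (nat_lit 1) (.e (nat_lit 41260) (nat_lit 0) .nil) .nil)))))))))))))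


end

end Pool.Agent.Lib.MP_5854e1_co.Cz
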