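import Pool.Agent.Lib.MP_5854e1_co.DtD

/-!
# Windows and cells of the rings
-/

set_option autoImplicit false
set_option maxRecDepth 100000
set_option deprecated.oldSectionVars true

namespace Pool.Agent.Lib.MP_5854e1_co.Cz

open Pool.Agent.Lib.MP_5854e1_co

noncomputable section

noncomputable def tv5505 : DT := (.nd (nat_lit 0) (.nd (nat_lit 1) (.nd (nat_lit 2) (.nd (nat_lit 3) (.nd (nat_lit 4) (.nd (nat_lit 5) (.nd (nat_lit 6) (.nd (nat_lit 7) (.nd (nat_lit 8) (.nd (nat_lit 9) 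
(.lf (nat_lit 455680) (.g (nat_lit 2424) (.e (nat_lit 2664) (nat_lit 167) (.e (nat_lit 196666) (nat_lit 13) (.e (nat_lit 65610) (nat_lit 10) (.e (nat_lit 344117) (nat_lit 21) (.e (nat_lit 516159) (nat_lit 10) (.e (nat_lit 434208) (nat_lit 18) (.e (nat_lit 4754) (nat_lit 281) (.e (nat_lit 2489) (nat_lit 157) .nil)))))))) (.g (nat_lit 1) (.e (nat_lit 41261) (nat_lit 0) .nil) .nil))) 
(.lf (nat_lit 456192) (.g (nat_lit 3029) (.e (nat_lit 2668) (nat_lit 167) (.e (nat_lit 196666) (nat_lit 13) (.e (nat_lit 65583) (nat_lit 7) (.e (nat_lit 319499) (nat_lit 10) (.e (nat_lit 511) (nat_lit 41) (.e (nat_lit 500069) (nat_lit 19) (.e (nat_lit 81664) (nat_lit 32) .nil))))))) (.g (nat_lit 1) (.e (nat_lit 42486) (nat_lit 0) .nil) .nil)))) (.nd (nat_lit 9) 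
(.lf (nat_lit 455936) (.g (nat_lit 4020) (.e (nat_lit 2666) (nat_lit 167) (.e (nat_lit 196666) (nat_lit 13) (.e (nat_lit 65610) (nat_lit 10) (.e (nat_lit 344117) (nat_lit 21) (.e (nat_lit 516151) (nat_lit 9) (.e (nat_lit 426042) (nat_lit 0) (.e (nat_lit 2425) (nat_lit 157) (.e (nat_lit 4762) (nat_lit 281) (.e (nat_lit 2463) (nat_lit 157) .nil))))))))) (.g (nat_lit 1) (.e (nat_lit 41701) (nat_lit 0) .nil) .nil))) 
(.lf (nat_lit 456448) (.g (nat_lit 4008) (.e (nat_lit 2668) (nat_lit 167) (.e (nat_lit 196666) (nat_lit 13) (.e (nat_lit 65610) (nat_lit 10) (.e (nat_lit 344117) (nat_lit 21) (.e (nat_lit 516151) (nat_lit 9) (.e (nat_lit 426021) (nat_lit 0) (.e (nat_lit 3368) (nat_lit 208) (.e (nat_lit 622620) (nat_lit 13) .nil)))))))) (.g (nat_lit 1) (.e (nat_lit 42797) (nat_lit 0) .nil) .nil))))) 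
(.nd (nat_lit 8) (.nd (nat_lit 9) 
(.lf (nat_lit 455808) (.g (nat_lit 2718) (.e (nat_lit 2664) (nat_lit 167) (.e (nat_lit 196672) (nat_lit 15) (.e (nat_lit 81956) (nat_lit 23) (.e (nat_lit 98320) (nat_lit 17) .nil)))) (.g (nat_lit 0) (.e (nat_lit 41429) (nat_lit 0) .nil) .nil))) 
(.lf (nat_lit 456320) (.g (nat_lit 4082) (.e (nat_lit 2668) (nat_lit 167) (.e (nat_lit 196666) (nat_lit 13) (.e (nat_lit 65610) (nat_lit 10) (.e (nat_lit 344117) (nat_lit 21) (.e (nat_lit 516138) (nat_lit 7) (.e (nat_lit 409612) (nat_lit 10) (.e (nat_lit 5627) (nat_lit 312) .nil))))))) (.g (nat_lit 1) (.e (nat_lit 42631) (nat_lit 0) .nil) .nil)))) (.nd (nat_lit 9) 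
(.lf (nat_lit 456064) (.g (nat_lit 2233) (.e (nat_lit 2667) (nat_lit 167) (.e (nat_lit 196668) (nat_lit 14) (.e (nat_lit 73755) (nat_lit 8) (.e (nat_lit 557105) (nat_lit 14) (.e (nat_lit 180252) (nat_lit 10) .nil))))) (.g (nat_lit 0) (.e (nat_lit 41968) (nat_lit 0) .nil) .nil))) 
(.lf (nat_lit 456576) (.g (nat_lit 2803) (.e (nat_lit 2668) (nat_lit 167) (.e (nat_lit 196666) (nat_lit 13) (.e (nat_lit 65610) (nat_lit 10) (.e (nat_lit 344117) (nat_lit 21) (.e (nat_lit 516159) (nat_lit 10) (.e (nat_lit 434263) (nat_lit 34) (.e (nat_lit 622624) (nat_lit 13) .nil))))))) (.g (nat_lit 1) (.e (nat_lit 42927) (nat_lit 0) .nil) .nil)))))) 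
(.nd (nat_lit 7) (.nd (nat_lit 8) (.nd (nat_lit 9) 
(.lf (nat_lit 455744) (.g (nat_lit 1835) (.e (nat_lit 2664) (nat_lit 167) (.e (nat_lit 196666) (nat_lit 13) (.e (nat_lit 65619) (nat_lit 10) (.e (nat_lit 344117) (nat_lit 21) (.e (nat_lit 516141) (nat_lit 8) .nil))))) (.g (nat_lit 0) (.e (nat_lit 41346) (nat_lit 0) .nil) .nil))) 
(.lf (nat_lit 456256) (.g (nat_lit 2203) (.e (nat_lit 2668) (nat_lit 167) (.e (nat_lit 196666) (nat_lit 13) (.e (nat_lit 65610) (nat_lit 10) (.e (nat_lit 344117) (nat_lit 21) (.e (nat_lit 516102) (nat_lit 0) (.e (nat_lit 7113) (nat_lit 381) (.e (nat_lit 229683) (nat_lit 246) .nil))))))) (.g (nat_lit 1) (.e (nat_lit 42567) (nat_lit 0) .nil) .nil)))) (.nd (nat_lit 9) 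
(.lf (nat_lit 456000) (.g (nat_lit 3832) (.e (nat_lit 2666) (nat_lit 167) (.e (nat_lit 196666) (nat_lit 13) (.e (nat_lit 65630) (nat_lit 14) (.e (nat_lit 401428) (nat_lit 3) (.e (nat_lit 204863) (nat_lit 27) (.e (nat_lit 352000) (nat_lit 0) .nil)))))) (.g (nat_lit 1) (.e (nat_lit 41844) (nat_lit 0) .nil) .nil))) 
(.lf (nat_lit 456512) (.g (nat_lit 3426) (.e (nat_lit 2668) (nat_lit 167) (.e (nat_lit 196666) (nat_lit 13) (.e (nat_lit 65610) (nat_lit 10) (.e (nat_lit 344117) (nat_lit 21) (.e (nat_lit 516151) (nat_lit 9) (.e (nat_lit 426042) (nat_lit 0) (.e (nat_lit 2449) (nat_lit 157) (.e (nat_lit 4778) (nat_lit 281) (.e (nat_lit 2445) (nat_lit 157) .nil))))))))) (.g (nat_lit 1) (.e (nat_lit 42861) (nat_lit 0) .nil) .nil))))) 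
(.nd (nat_lit 8) (.nd (nat_lit 9) 
(.lf (nat_lit 455872) (.g (nat_lit 3342) (.e (nat_lit 2666) (nat_lit 167) (.e (nat_lit 196666) (nat_lit 13) (.e (nat_lit 65571) (nat_lit 3) (.e (nat_lit 98333) (nat_lit 18) (.e (nat_lit 164179) (nat_lit 154) (.e (nat_lit 57378) (nat_lit 3) (.e (nat_lit 98338) (nat_lit 19) (.e (nat_lit 213013) (nat_lit 9) .nil)))))))) (.g (nat_lit 1) (.e (nat_lit 41568) (nat_lit 0) .nil) .nil))) 
(.lf (nat_lit 456384) (.g (nat_lit 2672) (.e (nat_lit 2668) (nat_lit 167) (.e (nat_lit 196666) (nat_lit 13) (.e (nat_lit 65610) (nat_lit 10) (.e (nat_lit 344117) (nat_lit 21) (.e (nat_lit 516141) (nat_lit 8) (.e (nat_lit 417816) (nat_lit 10) (.e (nat_lit 7936) (nat_lit 312) .nil))))))) (.g (nat_lit 1) (.e (nat_lit 42695) (nat_lit 0) .nil) .nil)))) (.nd (nat_lit 9) 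
(.lf (nat_lit 456128) (.g (nat_lit 2024) (.e (nat_lit 2667) (nat_lit 167) (.e (nat_lit 196670) (nat_lit 14) (.e (nat_lit 73754) (nat_lit 8) (.e (nat_lit 557105) (nat_lit 14) (.e (nat_lit 180251) (nat_lit 10) (.e (nat_lit 573478) (nat_lit 12) (.e (nat_lit 57511) (nat_lit 39) (.e (nat_lit 655104) (nat_lit 0) .nil)))))))) (.g (nat_lit 1) (.e (nat_lit 42076) (nat_lit 0) .nil) .nil))) 
(.lf (nat_lit 456640) (.g (nat_lit 953) (.e (nat_lit 2668) (nat_lit 167) (.e (nat_lit 196666) (nat_lit 13) (.e (nat_lit 65617) (nat_lit 10) (.e (nat_lit 344127) (nat_lit 26) .nil)))) (.g (nat_lit 0) (.e (nat_lit 43057) (nat_lit 0) .nil) .nil))))))) (.nd (nat_lit 6) (.nd (nat_lit 7) (.nd (nat_lit 8) (.nd (nat_lit 9) 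
(.lf (nat_lit 455712) (.g (nat_lit 2083) (.e (nat_lit 2664) (nat_lit 167) (.e (nat_lit 196666) (nat_lit 13) (.e (nat_lit 65610) (nat_lit 10) (.e (nat_lit 344129) (nat_lit 26) (.e (nat_lit 557087) (nat_lit 11) (.e (nat_lit 24588) (nat_lit 0) (.e (nat_lit 7936) (nat_lit 357) .nil))))))) (.g (nat_lit 1) (.e (nat_lit 41298) (nat_lit 0) .nil) .nil))) 
(.lf (nat_lit 456224) (.g (nat_lit 2558) (.e (nat_lit 2668) (nat_lit 167) (.e (nat_lit 196666) (nat_lit 13) (.e (nat_lit 65610) (nat_lit 10) (.e (nat_lit 344117) (nat_lit 21) (.e (nat_lit 516098) (nat_lit 0) (.e (nat_lit 6963) (nat_lit 377) (.e (nat_lit 2509) (nat_lit 157) (.e (nat_lit 5626) (nat_lit 312) .nil)))))))) (.g (nat_lit 1) (.e (nat_lit 42535) (nat_lit 0) .nil) .nil)))) (.nd (nat_lit 9) 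
(.lf (nat_lit 455968) (.g (nat_lit 4662) (.e (nat_lit 2666) (nat_lit 167) (.e (nat_lit 196666) (nat_lit 13) (.e (nat_lit 65610) (nat_lit 10) (.e (nat_lit 344117) (nat_lit 21) (.e (nat_lit 516185) (nat_lit 16) (.e (nat_lit 491526) (nat_lit 0) (.e (nat_lit 7936) (nat_lit 357) .nil))))))) (.g (nat_lit 1) (.e (nat_lit 41757) (nat_lit 0) .nil) .nil))) 
(.lf (nat_lit 456480) (.g (nat_lit 4214) (.e (nat_lit 2668) (nat_lit 167) (.e (nat_lit 196666) (nat_lit 13) (.e (nat_lit 65610) (nat_lit 10) (.e (nat_lit 344117) (nat_lit 21) (.e (nat_lit 516151) (nat_lit 9) (.e (nat_lit 426037) (nat_lit 0) (.e (nat_lit 3370) (nat_lit 208) (.e (nat_lit 622620) (nat_lit 13) .nil)))))))) (.g (nat_lit 1) (.e (nat_lit 42829) (nat_lit 0) .nil) .nil))))) 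
(.nd (nat_lit 8) (.nd (nat_lit 9) 
(.lf (nat_lit 455840) (.g (nat_lit 2669) (.e (nat_lit 2665) (nat_lit 167) (.e (nat_lit 196666) (nat_lit 13) (.e (nat_lit 65610) (nat_lit 10) (.e (nat_lit 344117) (nat_lit 21) (.e (nat_lit 516145) (nat_lit 9) (.e (nat_lit 426085) (nat_lit 0) (.e (nat_lit 3366) (nat_lit 208) (.e (nat_lit 622627) (nat_lit 13) .nil)))))))) (.g (nat_lit 1) (.e (nat_lit 41501) (nat_lit 0) .nil) .nil))) 
(.lf (nat_lit 456352) (.g (nat_lit 3228) (.e (nat_lit 2668) (nat_lit 167) (.e (nat_lit 196666) (nat_lit 13) (.e (nat_lit 65610) (nat_lit 10) (.e (nat_lit 344117) (nat_lit 21) (.e (nat_lit 516139) (nat_lit 7) (.e (nat_lit 409611) (nat_lit 10) (.e (nat_lit 5627) (nat_lit 312) .nil))))))) (.g (nat_lit 1) (.e (nat_lit 42663) (nat_lit 0) .nil) .nil)))) (.nd (nat_lit 9) 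
(.lf (nat_lit 456096) (.g (nat_lit 3955) (.e (nat_lit 2667) (nat_lit 167) (.e (nat_lit 196670) (nat_lit 14) (.e (nat_lit 73753) (nat_lit 8) (.e (nat_lit 557103) (nat_lit 14) (.e (nat_lit 180250) (nat_lit 10) (.e (nat_lit 573475) (nat_lit 12) (.e (nat_lit 57507) (nat_lit 39) (.e (nat_lit 655104) (nat_lit 0) .nil)))))))) (.g (nat_lit 1) (.e (nat_lit 42044) (nat_lit 0) .nil) .nil))) 
(.lf (nat_lit 456608) (.g (nat_lit 3912) (.e (nat_lit 2668) (nat_lit 167) (.e (nat_lit 196666) (nat_lit 13) (.e (nat_lit 65610) (nat_lit 10) (.e (nat_lit 344129) (nat_lit 26) (.e (nat_lit 557086) (nat_lit 11) (.e (nat_lit 24580) (nat_lit 0) (.e (nat_lit 6619) (nat_lit 357) .nil))))))) (.g (nat_lit 1) (.e (nat_lit 43007) (nat_lit 0) .nil) .nil)))))) 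
(.nd (nat_lit 7) (.nd (nat_lit 8) (.nd (nat_lit 9) 
(.lf (nat_lit 455776) (.g (nat_lit 2881) (.e (nat_lit 2664) (nat_lit 167) (.e (nat_lit 196672) (nat_lit 15) (.e (nat_lit 81924) (nat_lit 0) (.e (nat_lit 3305) (nat_lit 202) (.e (nat_lit 573489) (nat_lit 14) (.e (nat_lit 73781) (nat_lit 32) .nil)))))) (.g (nat_lit 1) (.e (nat_lit 41391) (nat_lit 0) .nil) .nil))) 
(.lf (nat_lit 456288) (.g (nat_lit 2446) (.e (nat_lit 2668) (nat_lit 167) (.e (nat_lit 196666) (nat_lit 13) (.e (nat_lit 65610) (nat_lit 10) (.e (nat_lit 344117) (nat_lit 21) (.e (nat_lit 516106) (nat_lit 0) (.e (nat_lit 7008) (nat_lit 377) (.e (nat_lit 2428) (nat_lit 157) (.e (nat_lit 5627) (nat_lit 312) .nil)))))))) (.g (nat_lit 1) (.e (nat_lit 42599) (nat_lit 0) .nil) .nil)))) (.nd (nat_lit 9) 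
(.lf (nat_lit 456032) (.g (nat_lit 2996) (.e (nat_lit 2667) (nat_lit 167) (.e (nat_lit 196668) (nat_lit 14) (.e (nat_lit 73753) (nat_lit 8) (.e (nat_lit 557103) (nat_lit 14) (.e (nat_lit 180250) (nat_lit 10) (.e (nat_lit 573474) (nat_lit 12) (.e (nat_lit 57505) (nat_lit 39) (.e (nat_lit 655104) (nat_lit 0) .nil)))))))) (.g (nat_lit 1) (.e (nat_lit 41936) (nat_lit 0) .nil) .nil))) 
(.lf (nat_lit 456544) (.g (nat_lit 4140) (.e (nat_lit 2668) (nat_lit 167) (.e (nat_lit 196666) (nat_lit 13) (.e (nat_lit 65610) (nat_lit 10) (.e (nat_lit 344117) (nat_lit 21) (.e (nat_lit 516151) (nat_lit 9) (.e (nat_lit 426047) (nat_lit 0) (.e (nat_lit 3366) (nat_lit 208) (.e (nat_lit 622622) (nat_lit 13) .nil)))))))) (.g (nat_lit 1) (.e (nat_lit 42893) (nat_lit 0) .nil) .nil))))) 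
(.nd (nat_lit 8) (.nd (nat_lit 9) 
(.lf (nat_lit 455904) (.g (nat_lit 3234) (.e (nat_lit 2666) (nat_lit 167) (.e (nat_lit 196666) (nat_lit 13) (.e (nat_lit 65610) (nat_lit 10) (.e (nat_lit 344117) (nat_lit 21) (.e (nat_lit 516151) (nat_lit 9) (.e (nat_lit 426003) (nat_lit 0) (.e (nat_lit 3366) (nat_lit 208) (.e (nat_lit 622627) (nat_lit 13) .nil)))))))) (.g (nat_lit 1) (.e (nat_lit 41669) (nat_lit 0) .nil) .nil))) 
(.lf (nat_lit 456416) (.g (nat_lit 2511) (.e (nat_lit 2668) (nat_lit 167) (.e (nat_lit 196666) (nat_lit 13) (.e (nat_lit 65610) (nat_lit 10) (.e (nat_lit 344117) (nat_lit 21) (.e (nat_lit 516145) (nat_lit 9) (.e (nat_lit 426085) (nat_lit 0) (.e (nat_lit 3366) (nat_lit 208) (.e (nat_lit 622624) (nat_lit 13) .nil)))))))) (.g (nat_lit 1) (.e (nat_lit 42728) (nat_lit 0) .nil) .nil)))) 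
(.nd (nat_lit 9) 
(.lf (nat_lit 456160) (.g (nat_lit 3399) (.e (nat_lit 2667) (nat_lit 167) (.e (nat_lit 196670) (nat_lit 14) (.e (nat_lit 73755) (nat_lit 8) (.e (nat_lit 557105) (nat_lit 14) (.e (nat_lit 180252) (nat_lit 10) (.e (nat_lit 573474) (nat_lit 12) (.e (nat_lit 57511) (nat_lit 39) (.e (nat_lit 655104) (nat_lit 0) .nil)))))))) (.g (nat_lit 1) (.e (nat_lit 42108) (nat_lit 0) .nil) .nil))) 
(.lf (nat_lit 456672) (.g (nat_lit 2018) (.e (nat_lit 2668) (nat_lit 167) (.e (nat_lit 196666) (nat_lit 13) (.e (nat_lit 65617) (nat_lit 10) (.e (nat_lit 344130) (nat_lit 26) (.e (nat_lit 557090) (nat_lit 12) (.e (nat_lit 163843) (nat_lit 0) (.e (nat_lit 6420) (nat_lit 341) (.e (nat_lit 163850) (nat_lit 0) (.e (nat_lit 7936) (nat_lit 388) .nil))))))))) (.g (nat_lit 1) (.e (nat_lit 43110) (nat_lit 0) .nil) .nil)))))))) 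
(.nd (nat_lit 5) (.nd (nat_lit 6) (.nd (nat_lit 7) (.nd (nat_lit 8) (.nd (nat_lit 9) 
(.lf (nat_lit 455696) (.g (nat_lit 2149) (.e (nat_lit 2664) (nat_lit 167) (.e (nat_lit 196666) (nat_lit 13) (.e (nat_lit 65610) (nat_lit 10) (.e (nat_lit 344125) (nat_lit 25) .nil)))) (.g (nat_lit 0) (.e (nat_lit 41278) (nat_lit 0) .nil) .nil))) 
(.lf (nat_lit 456208) (.g (nat_lit 2382) (.e (nat_lit 2668) (nat_lit 167) (.e (nat_lit 196666) (nat_lit 13) (.e (nat_lit 65610) (nat_lit 10) (.e (nat_lit 344117) (nat_lit 21) (.e (nat_lit 516096) (nat_lit 0) (.e (nat_lit 7113) (nat_lit 381) (.e (nat_lit 229683) (nat_lit 246) .nil))))))) (.g (nat_lit 1) (.e (nat_lit 42519) (nat_lit 0) .nil) .nil)))) (.nd (nat_lit 9) 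
(.lf (nat_lit 455952) (.g (nat_lit 3118) (.e (nat_lit 2666) (nat_lit 167) (.e (nat_lit 196666) (nat_lit 13) (.e (nat_lit 65610) (nat_lit 10) (.e (nat_lit 344117) (nat_lit 21) (.e (nat_lit 516151) (nat_lit 9) (.e (nat_lit 426097) (nat_lit 1) (.e (nat_lit 164254) (nat_lit 215) (.e (nat_lit 2416) (nat_lit 157) .nil)))))))) (.g (nat_lit 1) (.e (nat_lit 41717) (nat_lit 0) .nil) .nil))) 
(.lf (nat_lit 456464) (.g (nat_lit 3425) (.e (nat_lit 2668) (nat_lit 167) (.e (nat_lit 196666) (nat_lit 13) (.e (nat_lit 65610) (nat_lit 10) (.e (nat_lit 344117) (nat_lit 21) (.e (nat_lit 516151) (nat_lit 9) (.e (nat_lit 426023) (nat_lit 0) (.e (nat_lit 7936) (nat_lit 208) (.e (nat_lit 622620) (nat_lit 13) .nil)))))))) (.g (nat_lit 1) (.e (nat_lit 42813) (nat_lit 0) .nil) .nil))))) 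
(.nd (nat_lit 8) (.nd (nat_lit 9) 
(.lf (nat_lit 455824) (.g (nat_lit 2790) (.e (nat_lit 2664) (nat_lit 167) (.e (nat_lit 196674) (nat_lit 15) (.e (nat_lit 81946) (nat_lit 20) (.e (nat_lit 1841) (nat_lit 123) (.e (nat_lit 548889) (nat_lit 9) (.e (nat_lit 65545) (nat_lit 0) (.e (nat_lit 6684) (nat_lit 357) .nil))))))) (.g (nat_lit 1) (.e (nat_lit 41447) (nat_lit 0) .nil) .nil))) 
(.lf (nat_lit 456336) (.g (nat_lit 2607) (.e (nat_lit 2668) (nat_lit 167) (.e (nat_lit 196666) (nat_lit 13) (.e (nat_lit 65610) (nat_lit 10) (.e (nat_lit 344117) (nat_lit 21) (.e (nat_lit 516138) (nat_lit 7) (.e (nat_lit 409620) (nat_lit 10) (.e (nat_lit 5612) (nat_lit 312) .nil))))))) (.g (nat_lit 1) (.e (nat_lit 42647) (nat_lit 0) .nil) .nil)))) (.nd (nat_lit 9) 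
(.lf (nat_lit 456080) (.g (nat_lit 2542) (.e (nat_lit 2667) (nat_lit 167) (.e (nat_lit 196670) (nat_lit 14) (.e (nat_lit 73746) (nat_lit 3) (.e (nat_lit 516129) (nat_lit 3) (.e (nat_lit 221210) (nat_lit 22) (.e (nat_lit 196658) (nat_lit 12) (.e (nat_lit 57508) (nat_lit 39) (.e (nat_lit 647176) (nat_lit 0) .nil)))))))) (.g (nat_lit 1) (.e (nat_lit 42027) (nat_lit 0) .nil) .nil))) 
(.lf (nat_lit 456592) (.g (nat_lit 3212) (.e (nat_lit 2668) (nat_lit 167) (.e (nat_lit 196666) (nat_lit 13) (.e (nat_lit 65610) (nat_lit 10) (.e (nat_lit 344117) (nat_lit 21) (.e (nat_lit 516160) (nat_lit 10) (.e (nat_lit 434264) (nat_lit 34) (.e (nat_lit 622622) (nat_lit 13) .nil))))))) (.g (nat_lit 1) (.e (nat_lit 42943) (nat_lit 0) .nil) .nil)))))) 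
(.nd (nat_lit 7) (.nd (nat_lit 8) (.nd (nat_lit 9) 
(.lf (nat_lit 455760) (.g (nat_lit 2932) (.e (nat_lit 2664) (nat_lit 167) (.e (nat_lit 196666) (nat_lit 13) (.e (nat_lit 65630) (nat_lit 14) (.e (nat_lit 401423) (nat_lit 2) (.e (nat_lit 196668) (nat_lit 14) (.e (nat_lit 73782) (nat_lit 32) .nil)))))) (.g (nat_lit 1) (.e (nat_lit 41368) (nat_lit 0) .nil) .nil))) 
(.lf (nat_lit 456272) (.g (nat_lit 2327) (.e (nat_lit 2668) (nat_lit 167) (.e (nat_lit 196666) (nat_lit 13) (.e (nat_lit 65610) (nat_lit 10) (.e (nat_lit 344117) (nat_lit 21) (.e (nat_lit 516106) (nat_lit 0) (.e (nat_lit 6986) (nat_lit 377) (.e (nat_lit 2505) (nat_lit 157) (.e (nat_lit 5612) (nat_lit 312) .nil)))))))) (.g (nat_lit 1) (.e (nat_lit 42583) (nat_lit 0) .nil) .nil)))) (.nd (nat_lit 9) 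
(.lf (nat_lit 456016) (.g (nat_lit 3010) (.e (nat_lit 2667) (nat_lit 167) (.e (nat_lit 196656) (nat_lit 11) (.e (nat_lit 16448) (nat_lit 10) (.e (nat_lit 434231) (nat_lit 23) (.e (nat_lit 532529) (nat_lit 9) .nil))))) (.g (nat_lit 0) (.e (nat_lit 41884) (nat_lit 0) .nil) .nil))) 
(.lf (nat_lit 456528) (.g (nat_lit 3868) (.e (nat_lit 2668) (nat_lit 167) (.e (nat_lit 196666) (nat_lit 13) (.e (nat_lit 65610) (nat_lit 10) (.e (nat_lit 344117) (nat_lit 21) (.e (nat_lit 516151) (nat_lit 9) (.e (nat_lit 426045) (nat_lit 0) (.e (nat_lit 3370) (nat_lit 208) (.e (nat_lit 622621) (nat_lit 13) .nil)))))))) (.g (nat_lit 1) (.e (nat_lit 42877) (nat_lit 0) .nil) .nil))))) 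
(.nd (nat_lit 8) (.nd (nat_lit 9) 
(.lf (nat_lit 455888) (.g (nat_lit 3834) (.e (nat_lit 2666) (nat_lit 167) (.e (nat_lit 196666) (nat_lit 13) (.e (nat_lit 65610) (nat_lit 10) (.e (nat_lit 344117) (nat_lit 21) (.e (nat_lit 516106) (nat_lit 0) (.e (nat_lit 7008) (nat_lit 377) (.e (nat_lit 2423) (nat_lit 157) (.e (nat_lit 5735) (nat_lit 312) .nil)))))))) (.g (nat_lit 1) (.e (nat_lit 41651) (nat_lit 0) .nil) .nil))) 
(.lf (nat_lit 456400) (.g (nat_lit 4462) (.e (nat_lit 2668) (nat_lit 167) (.e (nat_lit 196666) (nat_lit 13) (.e (nat_lit 65610) (nat_lit 10) (.e (nat_lit 344117) (nat_lit 21) (.e (nat_lit 516142) (nat_lit 8) (.e (nat_lit 417815) (nat_lit 10) (.e (nat_lit 5628) (nat_lit 312) .nil))))))) (.g (nat_lit 1) (.e (nat_lit 42711) (nat_lit 0) .nil) .nil)))) (.nd (nat_lit 9) 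
(.lf (nat_lit 456144) (.g (nat_lit 4202) (.e (nat_lit 2667) (nat_lit 167) (.e (nat_lit 196670) (nat_lit 14) (.e (nat_lit 73754) (nat_lit 8) (.e (nat_lit 557105) (nat_lit 14) (.e (nat_lit 180252) (nat_lit 10) (.e (nat_lit 573475) (nat_lit 12) (.e (nat_lit 57506) (nat_lit 39) (.e (nat_lit 655104) (nat_lit 0) .nil)))))))) (.g (nat_lit 1) (.e (nat_lit 42092) (nat_lit 0) .nil) .nil))) 
(.lf (nat_lit 456656) (.g (nat_lit 2485) (.e (nat_lit 2668) (nat_lit 167) (.e (nat_lit 196666) (nat_lit 13) (.e (nat_lit 65617) (nat_lit 10) (.e (nat_lit 344130) (nat_lit 26) (.e (nat_lit 557087) (nat_lit 11) (.e (nat_lit 24578) (nat_lit 0) (.e (nat_lit 7936) (nat_lit 357) .nil))))))) (.g (nat_lit 1) (.e (nat_lit 43094) (nat_lit 0) .nil) .nil))))))) 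
(.nd (nat_lit 6) (.nd (nat_lit 7) (.nd (nat_lit 8) (.nd (nat_lit 9) 
(.lf (nat_lit 455728) (.g (nat_lit 1521) (.e (nat_lit 2664) (nat_lit 167) (.e (nat_lit 196666) (nat_lit 13) (.e (nat_lit 65617) (nat_lit 10) (.e (nat_lit 344130) (nat_lit 26) (.e (nat_lit 557066) (nat_lit 9) .nil))))) (.g (nat_lit 0) (.e (nat_lit 41330) (nat_lit 0) .nil) .nil))) 
(.lf (nat_lit 456240) (.g (nat_lit 3154) (.e (nat_lit 2668) (nat_lit 167) (.e (nat_lit 196666) (nat_lit 13) (.e (nat_lit 65610) (nat_lit 10) (.e (nat_lit 344117) (nat_lit 21) (.e (nat_lit 516098) (nat_lit 0) (.e (nat_lit 7118) (nat_lit 381) (.e (nat_lit 229683) (nat_lit 246) .nil))))))) (.g (nat_lit 1) (.e (nat_lit 42551) (nat_lit 0) .nil) .nil)))) (.nd (nat_lit 9) 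
(.lf (nat_lit 455984) (.g (nat_lit 904) (.e (nat_lit 2666) (nat_lit 167) (.e (nat_lit 196666) (nat_lit 13) (.e (nat_lit 65614) (nat_lit 10) .nil))) (.g (nat_lit 0) (.e (nat_lit 41793) (nat_lit 0) .nil) .nil))) 
(.lf (nat_lit 456496) (.g (nat_lit 4649) (.e (nat_lit 2668) (nat_lit 167) (.e (nat_lit 196666) (nat_lit 13) (.e (nat_lit 65610) (nat_lit 10) (.e (nat_lit 344117) (nat_lit 21) (.e (nat_lit 516151) (nat_lit 9) (.e (nat_lit 426038) (nat_lit 0) (.e (nat_lit 3370) (nat_lit 208) (.e (nat_lit 622623) (nat_lit 13) .nil)))))))) (.g (nat_lit 1) (.e (nat_lit 42845) (nat_lit 0) .nil) .nil))))) 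
(.nd (nat_lit 8) (.nd (nat_lit 9) 
(.lf (nat_lit 455856) (.g (nat_lit 2335) (.e (nat_lit 2666) (nat_lit 167) (.e (nat_lit 196666) (nat_lit 13) (.e (nat_lit 65550) (nat_lit 0) (.e (nat_lit 1788) (nat_lit 119) .nil)))) (.g (nat_lit 0) (.e (nat_lit 41533) (nat_lit 0) .nil) .nil))) 
(.lf (nat_lit 456368) (.g (nat_lit 5140) (.e (nat_lit 2668) (nat_lit 167) (.e (nat_lit 196666) (nat_lit 13) (.e (nat_lit 65610) (nat_lit 10) (.e (nat_lit 344117) (nat_lit 21) (.e (nat_lit 516139) (nat_lit 7) (.e (nat_lit 409617) (nat_lit 10) (.e (nat_lit 5627) (nat_lit 312) .nil))))))) (.g (nat_lit 1) (.e (nat_lit 42679) (nat_lit 0) .nil) .nil)))) (.nd (nat_lit 9) 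
(.lf (nat_lit 456112) (.g (nat_lit 3181) (.e (nat_lit 2667) (nat_lit 167) (.e (nat_lit 196670) (nat_lit 14) (.e (nat_lit 73753) (nat_lit 8) (.e (nat_lit 557105) (nat_lit 14) (.e (nat_lit 180252) (nat_lit 10) (.e (nat_lit 573474) (nat_lit 12) (.e (nat_lit 57348) (nat_lit 0) (.e (nat_lit 5437) (nat_lit 306) (.e (nat_lit 2461) (nat_lit 157) .nil))))))))) (.g (nat_lit 1) (.e (nat_lit 42060) (nat_lit 0) .nil) .nil))) 
(.lf (nat_lit 456624) (.g (nat_lit 1264) (.e (nat_lit 2668) (nat_lit 167) (.e (nat_lit 196666) (nat_lit 13) (.e (nat_lit 65617) (nat_lit 10) (.e (nat_lit 344091) (nat_lit 18) .nil)))) (.g (nat_lit 0) (.e (nat_lit 43024) (nat_lit 0) .nil) .nil)))))) (.nd (nat_lit 7) (.nd (nat_lit 8) (.nd (nat_lit 9) 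
(.lf (nat_lit 455792) (.g (nat_lit 2481) (.e (nat_lit 2664) (nat_lit 167) (.e (nat_lit 196672) (nat_lit 15) (.e (nat_lit 81951) (nat_lit 22) (.e (nat_lit 90165) (nat_lit 12) (.e (nat_lit 164218) (nat_lit 179) (.e (nat_lit 164365) (nat_lit 246) .nil)))))) (.g (nat_lit 1) (.e (nat_lit 41410) (nat_lit 0) .nil) .nil))) 
(.lf (nat_lit 456304) (.g (nat_lit 3660) (.e (nat_lit 2668) (nat_lit 167) (.e (nat_lit 196666) (nat_lit 13) (.e (nat_lit 65610) (nat_lit 10) (.e (nat_lit 344117) (nat_lit 21) (.e (nat_lit 516106) (nat_lit 0) (.e (nat_lit 7095) (nat_lit 380) (.e (nat_lit 171776) (nat_lit 246) .nil))))))) (.g (nat_lit 1) (.e (nat_lit 42615) (nat_lit 0) .nil) .nil)))) (.nd (nat_lit 9) 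
(.lf (nat_lit 456048) (.g (nat_lit 3580) (.e (nat_lit 2667) (nat_lit 167) (.e (nat_lit 196668) (nat_lit 14) (.e (nat_lit 73753) (nat_lit 8) (.e (nat_lit 557103) (nat_lit 14) (.e (nat_lit 180250) (nat_lit 10) (.e (nat_lit 573477) (nat_lit 12) (.e (nat_lit 57509) (nat_lit 39) (.e (nat_lit 655104) (nat_lit 0) .nil)))))))) (.g (nat_lit 1) (.e (nat_lit 41952) (nat_lit 0) .nil) .nil))) 
(.lf (nat_lit 456560) (.g (nat_lit 3877) (.e (nat_lit 2668) (nat_lit 167) (.e (nat_lit 196666) (nat_lit 13) (.e (nat_lit 65610) (nat_lit 10) (.e (nat_lit 344117) (nat_lit 21) (.e (nat_lit 516151) (nat_lit 9) (.e (nat_lit 426365) (nat_lit 15) (.e (nat_lit 1050) (nat_lit 81) (.e (nat_lit 5979) (nat_lit 326) (.e (nat_lit 2433) (nat_lit 157) .nil))))))))) (.g (nat_lit 1) (.e (nat_lit 42909) (nat_lit 0) .nil) .nil))))) 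
(.nd (nat_lit 8) (.nd (nat_lit 9) 
(.lf (nat_lit 455920) (.g (nat_lit 2701) (.e (nat_lit 2666) (nat_lit 167) (.e (nat_lit 196666) (nat_lit 13) (.e (nat_lit 65610) (nat_lit 10) (.e (nat_lit 344117) (nat_lit 21) (.e (nat_lit 516151) (nat_lit 9) (.e (nat_lit 426022) (nat_lit 0) (.e (nat_lit 2400) (nat_lit 157) (.e (nat_lit 4830) (nat_lit 281) (.e (nat_lit 2416) (nat_lit 157) .nil))))))))) (.g (nat_lit 1) (.e (nat_lit 41685) (nat_lit 0) .nil) .nil))) 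
(.lf (nat_lit 456432) (.g (nat_lit 5315) (.e (nat_lit 2668) (nat_lit 167) (.e (nat_lit 196666) (nat_lit 13) (.e (nat_lit 65610) (nat_lit 10) (.e (nat_lit 344117) (nat_lit 21) (.e (nat_lit 516151) (nat_lit 9) (.e (nat_lit 426017) (nat_lit 0) (.e (nat_lit 7936) (nat_lit 208) (.e (nat_lit 622620) (nat_lit 13) .nil)))))))) (.g (nat_lit 1) (.e (nat_lit 42781) (nat_lit 0) .nil) .nil)))) 
(.nd (nat_lit 9) 
(.lf (nat_lit 456176) (.g (nat_lit 2428) (.e (nat_lit 2668) (nat_lit 167) (.e (nat_lit 196616) (nat_lit 0) (.e (nat_lit 2856) (nat_lit 184) (.e (nat_lit 426436) (nat_lit 18) (.e (nat_lit 98376) (nat_lit 30) (.e (nat_lit 458789) (nat_lit 23) (.e (nat_lit 532508) (nat_lit 2) (.e (nat_lit 114432) (nat_lit 0) .nil)))))))) (.g (nat_lit 1) (.e (nat_lit 42354) (nat_lit 0) .nil) .nil))) 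
(.lf (nat_lit 456688) (.g (nat_lit 2710) (.e (nat_lit 2668) (nat_lit 167) (.e (nat_lit 196666) (nat_lit 13) (.e (nat_lit 65617) (nat_lit 10) (.e (nat_lit 344133) (nat_lit 26) (.e (nat_lit 557085) (nat_lit 11) (.e (nat_lit 24580) (nat_lit 0) (.e (nat_lit 6617) (nat_lit 357) .nil))))))) (.g (nat_lit 1) (.e (nat_lit 43151) (nat_lit 0) .nil) .nil))))))))) 
(.nd (nat_lit 4) (.nd (nat_lit 5) (.nd (nat_lit 6) (.nd (nat_lit 7) (.nd (nat_lit 8) 
(.nd (nat_lit 9) 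
(.lf (nat_lit 455688) (.g (nat_lit 3633) (.e (nat_lit 2664) (nat_lit 167) (.e (nat_lit 196666) (nat_lit 13) (.e (nat_lit 65610) (nat_lit 10) (.e (nat_lit 344117) (nat_lit 21) (.e (nat_lit 516160) (nat_lit 10) (.e (nat_lit 434208) (nat_lit 18) (.e (nat_lit 4754) (nat_lit 281) (.e (nat_lit 2513) (nat_lit 157) .nil)))))))) (.g (nat_lit 1) (.e (nat_lit 41269) (nat_lit 0) .nil) .nil))) 
(.lf (nat_lit 456200) (.g (nat_lit 3188) (.e (nat_lit 2668) (nat_lit 167) (.e (nat_lit 196666) (nat_lit 13) (.e (nat_lit 65604) (nat_lit 9) (.e (nat_lit 336028) (nat_lit 3) (.e (nat_lit 98350) (nat_lit 24) (.e (nat_lit 409616) (nat_lit 10) (.e (nat_lit 7936) (nat_lit 312) .nil))))))) (.g (nat_lit 1) (.e (nat_lit 42501) (nat_lit 0) .nil) .nil)))) (.nd (nat_lit 9) 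
(.lf (nat_lit 455944) (.g (nat_lit 2878) (.e (nat_lit 2666) (nat_lit 167) (.e (nat_lit 196666) (nat_lit 13) (.e (nat_lit 65610) (nat_lit 10) (.e (nat_lit 344117) (nat_lit 21) (.e (nat_lit 516151) (nat_lit 9) (.e (nat_lit 426043) (nat_lit 0) (.e (nat_lit 3366) (nat_lit 208) (.e (nat_lit 622627) (nat_lit 13) .nil)))))))) (.g (nat_lit 1) (.e (nat_lit 41709) (nat_lit 0) .nil) .nil))) 
(.lf (nat_lit 456456) (.g (nat_lit 2757) (.e (nat_lit 2668) (nat_lit 167) (.e (nat_lit 196666) (nat_lit 13) (.e (nat_lit 65610) (nat_lit 10) (.e (nat_lit 344117) (nat_lit 21) (.e (nat_lit 516151) (nat_lit 9) (.e (nat_lit 426022) (nat_lit 0) (.e (nat_lit 2403) (nat_lit 157) (.e (nat_lit 4825) (nat_lit 281) (.e (nat_lit 2442) (nat_lit 157) .nil))))))))) (.g (nat_lit 1) (.e (nat_lit 42805) (nat_lit 0) .nil) .nil))))) 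
(.nd (nat_lit 8) (.nd (nat_lit 9) 
(.lf (nat_lit 455816) (.g (nat_lit 4264) (.e (nat_lit 2664) (nat_lit 167) (.e (nat_lit 196673) (nat_lit 15) (.e (nat_lit 81956) (nat_lit 23) (.e (nat_lit 98350) (nat_lit 24) (.e (nat_lit 409616) (nat_lit 10) (.e (nat_lit 5710) (nat_lit 312) .nil)))))) (.g (nat_lit 1) (.e (nat_lit 41437) (nat_lit 0) .nil) .nil))) 
(.lf (nat_lit 456328) (.g (nat_lit 3128) (.e (nat_lit 2668) (nat_lit 167) (.e (nat_lit 196666) (nat_lit 13) (.e (nat_lit 65610) (nat_lit 10) (.e (nat_lit 344117) (nat_lit 21) (.e (nat_lit 516138) (nat_lit 7) (.e (nat_lit 409616) (nat_lit 10) (.e (nat_lit 5615) (nat_lit 312) .nil))))))) (.g (nat_lit 1) (.e (nat_lit 42639) (nat_lit 0) .nil) .nil)))) (.nd (nat_lit 9) 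
(.lf (nat_lit 456072) (.g (nat_lit 3703) (.e (nat_lit 2667) (nat_lit 167) (.e (nat_lit 196669) (nat_lit 14) (.e (nat_lit 73755) (nat_lit 8) (.e (nat_lit 557105) (nat_lit 14) (.e (nat_lit 180252) (nat_lit 10) (.e (nat_lit 573474) (nat_lit 12) (.e (nat_lit 57506) (nat_lit 39) (.e (nat_lit 655104) (nat_lit 0) .nil)))))))) (.g (nat_lit 1) (.e (nat_lit 42019) (nat_lit 0) .nil) .nil))) 
(.lf (nat_lit 456584) (.g (nat_lit 3675) (.e (nat_lit 2668) (nat_lit 167) (.e (nat_lit 196666) (nat_lit 13) (.e (nat_lit 65610) (nat_lit 10) (.e (nat_lit 344117) (nat_lit 21) (.e (nat_lit 516160) (nat_lit 10) (.e (nat_lit 434208) (nat_lit 18) (.e (nat_lit 4751) (nat_lit 281) (.e (nat_lit 2397) (nat_lit 157) .nil)))))))) (.g (nat_lit 1) (.e (nat_lit 42935) (nat_lit 0) .nil) .nil)))))) 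
(.nd (nat_lit 7) (.nd (nat_lit 8) (.nd (nat_lit 9) 
(.lf (nat_lit 455752) (.g (nat_lit 1011) (.e (nat_lit 2664) (nat_lit 167) (.e (nat_lit 196666) (nat_lit 13) (.e (nat_lit 65628) (nat_lit 14) (.e (nat_lit 401428) (nat_lit 3) .nil)))) (.g (nat_lit 0) (.e (nat_lit 41360) (nat_lit 0) .nil) .nil))) 
(.lf (nat_lit 456264) (.g (nat_lit 3149) (.e (nat_lit 2668) (nat_lit 167) (.e (nat_lit 196666) (nat_lit 13) (.e (nat_lit 65610) (nat_lit 10) (.e (nat_lit 344117) (nat_lit 21) (.e (nat_lit 516106) (nat_lit 0) (.e (nat_lit 6986) (nat_lit 377) (.e (nat_lit 2397) (nat_lit 157) (.e (nat_lit 5683) (nat_lit 312) .nil)))))))) (.g (nat_lit 1) (.e (nat_lit 42575) (nat_lit 0) .nil) .nil)))) (.nd (nat_lit 9) 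
(.lf (nat_lit 456008) (.g (nat_lit 3147) (.e (nat_lit 2667) (nat_lit 167) (.e (nat_lit 196654) (nat_lit 11) (.e (nat_lit 16436) (nat_lit 9) (.e (nat_lit 426131) (nat_lit 3) (.e (nat_lit 204880) (nat_lit 32) (.e (nat_lit 385096) (nat_lit 49) (.e (nat_lit 778353) (nat_lit 9) .nil))))))) (.g (nat_lit 1) (.e (nat_lit 41865) (nat_lit 0) .nil) .nil))) 
(.lf (nat_lit 456520) (.g (nat_lit 3490) (.e (nat_lit 2668) (nat_lit 167) (.e (nat_lit 196666) (nat_lit 13) (.e (nat_lit 65610) (nat_lit 10) (.e (nat_lit 344117) (nat_lit 21) (.e (nat_lit 516151) (nat_lit 9) (.e (nat_lit 426042) (nat_lit 0) (.e (nat_lit 3370) (nat_lit 208) (.e (nat_lit 622624) (nat_lit 13) .nil)))))))) (.g (nat_lit 1) (.e (nat_lit 42869) (nat_lit 0) .nil) .nil))))) 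
(.nd (nat_lit 8) (.nd (nat_lit 9) 
(.lf (nat_lit 455880) (.g (nat_lit 4103) (.e (nat_lit 2666) (nat_lit 167) (.e (nat_lit 196666) (nat_lit 13) (.e (nat_lit 65571) (nat_lit 3) (.e (nat_lit 98335) (nat_lit 18) (.e (nat_lit 164183) (nat_lit 154) (.e (nat_lit 57378) (nat_lit 3) (.e (nat_lit 98338) (nat_lit 19) (.e (nat_lit 213013) (nat_lit 9) .nil)))))))) (.g (nat_lit 1) (.e (nat_lit 41576) (nat_lit 0) .nil) .nil))) 
(.lf (nat_lit 456392) (.g (nat_lit 3185) (.e (nat_lit 2668) (nat_lit 167) (.e (nat_lit 196666) (nat_lit 13) (.e (nat_lit 65610) (nat_lit 10) (.e (nat_lit 344117) (nat_lit 21) (.e (nat_lit 516142) (nat_lit 8) (.e (nat_lit 417814) (nat_lit 10) (.e (nat_lit 5627) (nat_lit 312) .nil))))))) (.g (nat_lit 1) (.e (nat_lit 42703) (nat_lit 0) .nil) .nil)))) (.nd (nat_lit 9) 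
(.lf (nat_lit 456136) (.g (nat_lit 4254) (.e (nat_lit 2667) (nat_lit 167) (.e (nat_lit 196670) (nat_lit 14) (.e (nat_lit 73754) (nat_lit 8) (.e (nat_lit 557105) (nat_lit 14) (.e (nat_lit 180252) (nat_lit 10) (.e (nat_lit 573473) (nat_lit 12) (.e (nat_lit 57511) (nat_lit 39) (.e (nat_lit 655104) (nat_lit 0) .nil)))))))) (.g (nat_lit 1) (.e (nat_lit 42084) (nat_lit 0) .nil) .nil))) 
(.lf (nat_lit 456648) (.g (nat_lit 1908) (.e (nat_lit 2668) (nat_lit 167) (.e (nat_lit 196666) (nat_lit 13) (.e (nat_lit 65617) (nat_lit 10) (.e (nat_lit 344130) (nat_lit 26) (.e (nat_lit 557067) (nat_lit 9) .nil))))) (.g (nat_lit 0) (.e (nat_lit 43068) (nat_lit 0) .nil) .nil))))))) (.nd (nat_lit 6) (.nd (nat_lit 7) (.nd (nat_lit 8) (.nd (nat_lit 9) 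
(.lf (nat_lit 455720) (.g (nat_lit 2275) (.e (nat_lit 2664) (nat_lit 167) (.e (nat_lit 196666) (nat_lit 13) (.e (nat_lit 65617) (nat_lit 10) (.e (nat_lit 344126) (nat_lit 25) (.e (nat_lit 548887) (nat_lit 9) (.e (nat_lit 65540) (nat_lit 0) (.e (nat_lit 6681) (nat_lit 357) .nil))))))) (.g (nat_lit 1) (.e (nat_lit 41322) (nat_lit 0) .nil) .nil))) 
(.lf (nat_lit 456232) (.g (nat_lit 2945) (.e (nat_lit 2668) (nat_lit 167) (.e (nat_lit 196666) (nat_lit 13) (.e (nat_lit 65610) (nat_lit 10) (.e (nat_lit 344117) (nat_lit 21) (.e (nat_lit 516098) (nat_lit 0) (.e (nat_lit 7073) (nat_lit 377) (.e (nat_lit 2448) (nat_lit 157) (.e (nat_lit 5627) (nat_lit 312) .nil)))))))) (.g (nat_lit 1) (.e (nat_lit 42543) (nat_lit 0) .nil) .nil)))) (.nd (nat_lit 9) 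
(.lf (nat_lit 455976) (.g (nat_lit 3217) (.e (nat_lit 2666) (nat_lit 167) (.e (nat_lit 196666) (nat_lit 13) (.e (nat_lit 65610) (nat_lit 10) (.e (nat_lit 344129) (nat_lit 26) (.e (nat_lit 557087) (nat_lit 11) (.e (nat_lit 24579) (nat_lit 0) (.e (nat_lit 6696) (nat_lit 357) .nil))))))) (.g (nat_lit 1) (.e (nat_lit 41781) (nat_lit 0) .nil) .nil))) 
(.lf (nat_lit 456488) (.g (nat_lit 4487) (.e (nat_lit 2668) (nat_lit 167) (.e (nat_lit 196666) (nat_lit 13) (.e (nat_lit 65610) (nat_lit 10) (.e (nat_lit 344117) (nat_lit 21) (.e (nat_lit 516151) (nat_lit 9) (.e (nat_lit 426038) (nat_lit 0) (.e (nat_lit 3366) (nat_lit 208) (.e (nat_lit 622620) (nat_lit 13) .nil)))))))) (.g (nat_lit 1) (.e (nat_lit 42837) (nat_lit 0) .nil) .nil))))) 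
(.nd (nat_lit 8) (.nd (nat_lit 9) 
(.lf (nat_lit 455848) (.g (nat_lit 3900) (.e (nat_lit 2665) (nat_lit 167) (.e (nat_lit 196670) (nat_lit 14) (.e (nat_lit 73754) (nat_lit 8) (.e (nat_lit 557105) (nat_lit 14) (.e (nat_lit 180252) (nat_lit 10) (.e (nat_lit 573473) (nat_lit 12) (.e (nat_lit 57511) (nat_lit 39) (.e (nat_lit 647171) (nat_lit 0) .nil)))))))) (.g (nat_lit 1) (.e (nat_lit 41512) (nat_lit 0) .nil) .nil))) 
(.lf (nat_lit 456360) (.g (nat_lit 5129) (.e (nat_lit 2668) (nat_lit 167) (.e (nat_lit 196666) (nat_lit 13) (.e (nat_lit 65610) (nat_lit 10) (.e (nat_lit 344117) (nat_lit 21) (.e (nat_lit 516139) (nat_lit 7) (.e (nat_lit 409616) (nat_lit 10) (.e (nat_lit 5613) (nat_lit 312) .nil))))))) (.g (nat_lit 1) (.e (nat_lit 42671) (nat_lit 0) .nil) .nil)))) (.nd (nat_lit 9) 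
(.lf (nat_lit 456104) (.g (nat_lit 2235) (.e (nat_lit 2667) (nat_lit 167) (.e (nat_lit 196670) (nat_lit 14) (.e (nat_lit 73753) (nat_lit 8) (.e (nat_lit 557105) (nat_lit 14) (.e (nat_lit 180251) (nat_lit 10) (.e (nat_lit 573478) (nat_lit 12) (.e (nat_lit 57511) (nat_lit 39) (.e (nat_lit 655104) (nat_lit 0) .nil)))))))) (.g (nat_lit 1) (.e (nat_lit 42052) (nat_lit 0) .nil) .nil))) 
(.lf (nat_lit 456616) (.g (nat_lit 2854) (.e (nat_lit 2668) (nat_lit 167) (.e (nat_lit 196666) (nat_lit 13) (.e (nat_lit 65610) (nat_lit 10) (.e (nat_lit 344129) (nat_lit 26) (.e (nat_lit 557087) (nat_lit 11) (.e (nat_lit 24587) (nat_lit 0) (.e (nat_lit 7936) (nat_lit 357) .nil))))))) (.g (nat_lit 1) (.e (nat_lit 43015) (nat_lit 0) .nil) .nil)))))) 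
(.nd (nat_lit 7) (.nd (nat_lit 8) (.nd (nat_lit 9) 
(.lf (nat_lit 455784) (.g (nat_lit 1984) (.e (nat_lit 2664) (nat_lit 167) (.e (nat_lit 196672) (nat_lit 15) (.e (nat_lit 81943) (nat_lit 20) (.e (nat_lit 1840) (nat_lit 123) (.e (nat_lit 548890) (nat_lit 10) (.e (nat_lit 73782) (nat_lit 32) .nil)))))) (.g (nat_lit 1) (.e (nat_lit 41400) (nat_lit 0) .nil) .nil))) 
(.lf (nat_lit 456296) (.g (nat_lit 2310) (.e (nat_lit 2668) (nat_lit 167) (.e (nat_lit 196666) (nat_lit 13) (.e (nat_lit 65610) (nat_lit 10) (.e (nat_lit 344117) (nat_lit 21) (.e (nat_lit 516106) (nat_lit 0) (.e (nat_lit 7008) (nat_lit 377) (.e (nat_lit 2468) (nat_lit 157) (.e (nat_lit 5612) (nat_lit 312) .nil)))))))) (.g (nat_lit 1) (.e (nat_lit 42607) (nat_lit 0) .nil) .nil)))) (.nd (nat_lit 9) 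
(.lf (nat_lit 456040) (.g (nat_lit 2864) (.e (nat_lit 2667) (nat_lit 167) (.e (nat_lit 196668) (nat_lit 14) (.e (nat_lit 73753) (nat_lit 8) (.e (nat_lit 557103) (nat_lit 14) (.e (nat_lit 180250) (nat_lit 10) (.e (nat_lit 573475) (nat_lit 12) (.e (nat_lit 57506) (nat_lit 39) (.e (nat_lit 647176) (nat_lit 0) .nil)))))))) (.g (nat_lit 1) (.e (nat_lit 41944) (nat_lit 0) .nil) .nil))) 
(.lf (nat_lit 456552) (.g (nat_lit 3888) (.e (nat_lit 2668) (nat_lit 167) (.e (nat_lit 196666) (nat_lit 13) (.e (nat_lit 65610) (nat_lit 10) (.e (nat_lit 344117) (nat_lit 21) (.e (nat_lit 516151) (nat_lit 9) (.e (nat_lit 426047) (nat_lit 0) (.e (nat_lit 3370) (nat_lit 208) (.e (nat_lit 622623) (nat_lit 13) .nil)))))))) (.g (nat_lit 1) (.e (nat_lit 42901) (nat_lit 0) .nil) .nil))))) 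
(.nd (nat_lit 8) (.nd (nat_lit 9) 
(.lf (nat_lit 455912) (.g (nat_lit 2627) (.e (nat_lit 2666) (nat_lit 167) (.e (nat_lit 196666) (nat_lit 13) (.e (nat_lit 65610) (nat_lit 10) (.e (nat_lit 344117) (nat_lit 21) (.e (nat_lit 516151) (nat_lit 9) (.e (nat_lit 426018) (nat_lit 0) (.e (nat_lit 2401) (nat_lit 157) (.e (nat_lit 4824) (nat_lit 281) (.e (nat_lit 2416) (nat_lit 157) .nil))))))))) (.g (nat_lit 1) (.e (nat_lit 41677) (nat_lit 0) .nil) .nil))) 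
(.lf (nat_lit 456424) (.g (nat_lit 4230) (.e (nat_lit 2668) (nat_lit 167) (.e (nat_lit 196666) (nat_lit 13) (.e (nat_lit 65610) (nat_lit 10) (.e (nat_lit 344117) (nat_lit 21) (.e (nat_lit 516151) (nat_lit 9) (.e (nat_lit 426017) (nat_lit 0) (.e (nat_lit 3367) (nat_lit 208) (.e (nat_lit 622620) (nat_lit 13) .nil)))))))) (.g (nat_lit 1) (.e (nat_lit 42773) (nat_lit 0) .nil) .nil)))) 
(.nd (nat_lit 9) 
(.lf (nat_lit 456168) (.g (nat_lit 3455) (.e (nat_lit 2667) (nat_lit 167) (.e (nat_lit 196672) (nat_lit 15) (.e (nat_lit 81954) (nat_lit 23) (.e (nat_lit 98350) (nat_lit 24) (.e (nat_lit 409612) (nat_lit 10) .nil))))) (.g (nat_lit 0) (.e (nat_lit 42236) (nat_lit 0) .nil) .nil))) 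
(.lf (nat_lit 456680) (.g (nat_lit 1942) (.e (nat_lit 2668) (nat_lit 167) (.e (nat_lit 196666) (nat_lit 13) (.e (nat_lit 65617) (nat_lit 10) (.e (nat_lit 344132) (nat_lit 26) (.e (nat_lit 557094) (nat_lit 12) .nil))))) (.g (nat_lit 0) (.e (nat_lit 43126) (nat_lit 0) .nil) .nil)))))))) (.nd (nat_lit 5) (.nd (nat_lit 6) (.nd (nat_lit 7) (.nd (nat_lit 8) (.nd (nat_lit 9) 
(.lf (nat_lit 455704) (.g (nat_lit 3138) (.e (nat_lit 2664) (nat_lit 167) (.e (nat_lit 196666) (nat_lit 13) (.e (nat_lit 65610) (nat_lit 10) (.e (nat_lit 344126) (nat_lit 25) (.e (nat_lit 548890) (nat_lit 10) (.e (nat_lit 73782) (nat_lit 32) .nil)))))) (.g (nat_lit 1) (.e (nat_lit 41289) (nat_lit 0) .nil) .nil))) 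
(.lf (nat_lit 456216) (.g (nat_lit 4834) (.e (nat_lit 2668) (nat_lit 167) (.e (nat_lit 196666) (nat_lit 13) (.e (nat_lit 65610) (nat_lit 10) (.e (nat_lit 344117) (nat_lit 21) (.e (nat_lit 516097) (nat_lit 0) (.e (nat_lit 7073) (nat_lit 377) (.e (nat_lit 2442) (nat_lit 157) (.e (nat_lit 5627) (nat_lit 312) .nil)))))))) (.g (nat_lit 1) (.e (nat_lit 42527) (nat_lit 0) .nil) .nil)))) (.nd (nat_lit 9) 
(.lf (nat_lit 455960) (.g (nat_lit 2431) (.e (nat_lit 2666) (nat_lit 167) (.e (nat_lit 196666) (nat_lit 13) (.e (nat_lit 65610) (nat_lit 10) (.e (nat_lit 344117) (nat_lit 21) (.e (nat_lit 516151) (nat_lit 9) (.e (nat_lit 426142) (nat_lit 4) (.e (nat_lit 229610) (nat_lit 215) (.e (nat_lit 2468) (nat_lit 157) .nil)))))))) (.g (nat_lit 1) (.e (nat_lit 41725) (nat_lit 0) .nil) .nil))) 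
(.lf (nat_lit 456472) (.g (nat_lit 4152) (.e (nat_lit 2668) (nat_lit 167) (.e (nat_lit 196666) (nat_lit 13) (.e (nat_lit 65610) (nat_lit 10) (.e (nat_lit 344117) (nat_lit 21) (.e (nat_lit 516151) (nat_lit 9) (.e (nat_lit 426034) (nat_lit 0) (.e (nat_lit 3366) (nat_lit 208) (.e (nat_lit 622624) (nat_lit 13) .nil)))))))) (.g (nat_lit 1) (.e (nat_lit 42821) (nat_lit 0) .nil) .nil))))) 
(.nd (nat_lit 8) (.nd (nat_lit 9) 
(.lf (nat_lit 455832) (.g (nat_lit 2317) (.e (nat_lit 2664) (nat_lit 167) (.e (nat_lit 196674) (nat_lit 15) (.e (nat_lit 81947) (nat_lit 20) (.e (nat_lit 1841) (nat_lit 123) (.e (nat_lit 548889) (nat_lit 9) (.e (nat_lit 65545) (nat_lit 0) (.e (nat_lit 6684) (nat_lit 357) .nil))))))) (.g (nat_lit 1) (.e (nat_lit 41455) (nat_lit 0) .nil) .nil))) 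
(.lf (nat_lit 456344) (.g (nat_lit 3035) (.e (nat_lit 2668) (nat_lit 167) (.e (nat_lit 196666) (nat_lit 13) (.e (nat_lit 65610) (nat_lit 10) (.e (nat_lit 344117) (nat_lit 21) (.e (nat_lit 516139) (nat_lit 7) (.e (nat_lit 409609) (nat_lit 10) (.e (nat_lit 5612) (nat_lit 312) .nil))))))) (.g (nat_lit 1) (.e (nat_lit 42655) (nat_lit 0) .nil) .nil)))) (.nd (nat_lit 9) 
(.lf (nat_lit 456088) (.g (nat_lit 2339) (.e (nat_lit 2667) (nat_lit 167) (.e (nat_lit 196670) (nat_lit 14) (.e (nat_lit 73753) (nat_lit 8) (.e (nat_lit 557103) (nat_lit 14) (.e (nat_lit 180250) (nat_lit 10) (.e (nat_lit 573473) (nat_lit 12) (.e (nat_lit 57506) (nat_lit 39) (.e (nat_lit 655104) (nat_lit 0) .nil)))))))) (.g (nat_lit 1) (.e (nat_lit 42036) (nat_lit 0) .nil) .nil))) 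
(.lf (nat_lit 456600) (.g (nat_lit 3500) (.e (nat_lit 2668) (nat_lit 167) (.e (nat_lit 196666) (nat_lit 13) (.e (nat_lit 65610) (nat_lit 10) (.e (nat_lit 344126) (nat_lit 25) (.e (nat_lit 548890) (nat_lit 10) (.e (nat_lit 81664) (nat_lit 32) .nil)))))) (.g (nat_lit 1) (.e (nat_lit 42980) (nat_lit 0) .nil) .nil)))))) (.nd (nat_lit 7) (.nd (nat_lit 8) (.nd (nat_lit 9) 
(.lf (nat_lit 455768) (.g (nat_lit 4026) (.e (nat_lit 2664) (nat_lit 167) (.e (nat_lit 196666) (nat_lit 13) (.e (nat_lit 65630) (nat_lit 14) (.e (nat_lit 401428) (nat_lit 3) (.e (nat_lit 204863) (nat_lit 27) (.e (nat_lit 344068) (nat_lit 0) .nil)))))) (.g (nat_lit 1) (.e (nat_lit 41379) (nat_lit 0) .nil) .nil))) 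
(.lf (nat_lit 456280) (.g (nat_lit 3353) (.e (nat_lit 2668) (nat_lit 167) (.e (nat_lit 196666) (nat_lit 13) (.e (nat_lit 65610) (nat_lit 10) (.e (nat_lit 344117) (nat_lit 21) (.e (nat_lit 516106) (nat_lit 0) (.e (nat_lit 7008) (nat_lit 377) (.e (nat_lit 2422) (nat_lit 157) (.e (nat_lit 5627) (nat_lit 312) .nil)))))))) (.g (nat_lit 1) (.e (nat_lit 42591) (nat_lit 0) .nil) .nil)))) (.nd (nat_lit 9) 
(.lf (nat_lit 456024) (.g (nat_lit 2498) (.e (nat_lit 2667) (nat_lit 167) (.e (nat_lit 196668) (nat_lit 14) (.e (nat_lit 73753) (nat_lit 8) (.e (nat_lit 557103) (nat_lit 14) (.e (nat_lit 180250) (nat_lit 10) .nil))))) (.g (nat_lit 0) (.e (nat_lit 41928) (nat_lit 0) .nil) .nil))) 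
(.lf (nat_lit 456536) (.g (nat_lit 2334) (.e (nat_lit 2668) (nat_lit 167) (.e (nat_lit 196666) (nat_lit 13) (.e (nat_lit 65610) (nat_lit 10) (.e (nat_lit 344117) (nat_lit 21) (.e (nat_lit 516151) (nat_lit 9) (.e (nat_lit 426043) (nat_lit 0) (.e (nat_lit 7936) (nat_lit 208) (.e (nat_lit 622622) (nat_lit 13) .nil)))))))) (.g (nat_lit 1) (.e (nat_lit 42885) (nat_lit 0) .nil) .nil))))) 
(.nd (nat_lit 8) (.nd (nat_lit 9) 
(.lf (nat_lit 455896) (.g (nat_lit 3364) (.e (nat_lit 2666) (nat_lit 167) (.e (nat_lit 196666) (nat_lit 13) (.e (nat_lit 65610) (nat_lit 10) (.e (nat_lit 344117) (nat_lit 21) (.e (nat_lit 516141) (nat_lit 8) .nil))))) (.g (nat_lit 0) (.e (nat_lit 41659) (nat_lit 0) .nil) .nil))) 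
(.lf (nat_lit 456408) (.g (nat_lit 4646) (.e (nat_lit 2668) (nat_lit 167) (.e (nat_lit 196666) (nat_lit 13) (.e (nat_lit 65610) (nat_lit 10) (.e (nat_lit 344117) (nat_lit 21) (.e (nat_lit 516142) (nat_lit 8) (.e (nat_lit 417820) (nat_lit 10) (.e (nat_lit 5612) (nat_lit 312) .nil))))))) (.g (nat_lit 1) (.e (nat_lit 42719) (nat_lit 0) .nil) .nil)))) (.nd (nat_lit 9) 
(.lf (nat_lit 456152) (.g (nat_lit 2224) (.e (nat_lit 2667) (nat_lit 167) (.e (nat_lit 196670) (nat_lit 14) (.e (nat_lit 73754) (nat_lit 8) (.e (nat_lit 557105) (nat_lit 14) (.e (nat_lit 180252) (nat_lit 10) (.e (nat_lit 573475) (nat_lit 12) (.e (nat_lit 57511) (nat_lit 39) (.e (nat_lit 655104) (nat_lit 0) .nil)))))))) (.g (nat_lit 1) (.e (nat_lit 42100) (nat_lit 0) .nil) .nil))) 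
(.lf (nat_lit 456664) (.g (nat_lit 3098) (.e (nat_lit 2668) (nat_lit 167) (.e (nat_lit 196666) (nat_lit 13) (.e (nat_lit 65617) (nat_lit 10) (.e (nat_lit 344130) (nat_lit 26) (.e (nat_lit 557087) (nat_lit 11) (.e (nat_lit 24589) (nat_lit 0) (.e (nat_lit 7936) (nat_lit 357) .nil))))))) (.g (nat_lit 1) (.e (nat_lit 43102) (nat_lit 0) .nil) .nil))))))) 
(.nd (nat_lit 6) (.nd (nat_lit 7) (.nd (nat_lit 8) (.nd (nat_lit 9) 
(.lf (nat_lit 455736) (.g (nat_lit 3925) (.e (nat_lit 2664) (nat_lit 167) (.e (nat_lit 196666) (nat_lit 13) (.e (nat_lit 65617) (nat_lit 10) (.e (nat_lit 344130) (nat_lit 26) (.e (nat_lit 557087) (nat_lit 11) (.e (nat_lit 24584) (nat_lit 0) (.e (nat_lit 6676) (nat_lit 357) .nil))))))) (.g (nat_lit 1) (.e (nat_lit 41338) (nat_lit 0) .nil) .nil))) 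
(.lf (nat_lit 456248) (.g (nat_lit 3157) (.e (nat_lit 2668) (nat_lit 167) (.e (nat_lit 196666) (nat_lit 13) (.e (nat_lit 65610) (nat_lit 10) (.e (nat_lit 344117) (nat_lit 21) (.e (nat_lit 516099) (nat_lit 0) (.e (nat_lit 7936) (nat_lit 380) (.e (nat_lit 164351) (nat_lit 246) .nil))))))) (.g (nat_lit 1) (.e (nat_lit 42559) (nat_lit 0) .nil) .nil)))) (.nd (nat_lit 9) 
(.lf (nat_lit 455992) (.g (nat_lit 3394) (.e (nat_lit 2666) (nat_lit 167) (.e (nat_lit 196666) (nat_lit 13) (.e (nat_lit 65617) (nat_lit 10) (.e (nat_lit 344133) (nat_lit 26) (.e (nat_lit 557091) (nat_lit 12) .nil))))) (.g (nat_lit 0) (.e (nat_lit 41805) (nat_lit 0) .nil) .nil))) 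
(.lf (nat_lit 456504) (.g (nat_lit 4274) (.e (nat_lit 2668) (nat_lit 167) (.e (nat_lit 196666) (nat_lit 13) (.e (nat_lit 65610) (nat_lit 10) (.e (nat_lit 344117) (nat_lit 21) (.e (nat_lit 516151) (nat_lit 9) (.e (nat_lit 426040) (nat_lit 0) (.e (nat_lit 3370) (nat_lit 208) (.e (nat_lit 622620) (nat_lit 13) .nil)))))))) (.g (nat_lit 1) (.e (nat_lit 42853) (nat_lit 0) .nil) .nil))))) 
(.nd (nat_lit 8) (.nd (nat_lit 9) 
(.lf (nat_lit 455864) (.g (nat_lit 3300) (.e (nat_lit 2666) (nat_lit 167) (.e (nat_lit 196666) (nat_lit 13) (.e (nat_lit 65569) (nat_lit 3) (.e (nat_lit 98334) (nat_lit 18) (.e (nat_lit 164180) (nat_lit 154) (.e (nat_lit 57379) (nat_lit 3) (.e (nat_lit 98338) (nat_lit 19) (.e (nat_lit 213013) (nat_lit 9) .nil)))))))) (.g (nat_lit 1) (.e (nat_lit 41544) (nat_lit 0) .nil) .nil))) 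
(.lf (nat_lit 456376) (.g (nat_lit 2548) (.e (nat_lit 2668) (nat_lit 167) (.e (nat_lit 196666) (nat_lit 13) (.e (nat_lit 65610) (nat_lit 10) (.e (nat_lit 344117) (nat_lit 21) (.e (nat_lit 516141) (nat_lit 8) (.e (nat_lit 417814) (nat_lit 10) (.e (nat_lit 5612) (nat_lit 312) .nil))))))) (.g (nat_lit 1) (.e (nat_lit 42687) (nat_lit 0) .nil) .nil)))) (.nd (nat_lit 9) 
(.lf (nat_lit 456120) (.g (nat_lit 4867) (.e (nat_lit 2667) (nat_lit 167) (.e (nat_lit 196670) (nat_lit 14) (.e (nat_lit 73753) (nat_lit 8) (.e (nat_lit 557105) (nat_lit 14) (.e (nat_lit 180252) (nat_lit 10) (.e (nat_lit 573474) (nat_lit 12) (.e (nat_lit 57509) (nat_lit 39) (.e (nat_lit 655104) (nat_lit 0) .nil)))))))) (.g (nat_lit 1) (.e (nat_lit 42068) (nat_lit 0) .nil) .nil))) 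
(.lf (nat_lit 456632) (.g (nat_lit 4652) (.e (nat_lit 2668) (nat_lit 167) (.e (nat_lit 196666) (nat_lit 13) (.e (nat_lit 65617) (nat_lit 10) (.e (nat_lit 344117) (nat_lit 21) (.e (nat_lit 516139) (nat_lit 7) (.e (nat_lit 409623) (nat_lit 10) (.e (nat_lit 5626) (nat_lit 312) .nil))))))) (.g (nat_lit 1) (.e (nat_lit 43040) (nat_lit 0) .nil) .nil)))))) 
(.nd (nat_lit 7) (.nd (nat_lit 8) (.nd (nat_lit 9) 
(.lf (nat_lit 455800) (.g (nat_lit 2700) (.e (nat_lit 2664) (nat_lit 167) (.e (nat_lit 196672) (nat_lit 15) (.e (nat_lit 81954) (nat_lit 23) (.e (nat_lit 98325) (nat_lit 17) (.e (nat_lit 7095) (nat_lit 380) (.e (nat_lit 164366) (nat_lit 246) .nil)))))) (.g (nat_lit 1) (.e (nat_lit 41421) (nat_lit 0) .nil) .nil))) 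
(.lf (nat_lit 456312) (.g (nat_lit 2900) (.e (nat_lit 2668) (nat_lit 167) (.e (nat_lit 196666) (nat_lit 13) (.e (nat_lit 65610) (nat_lit 10) (.e (nat_lit 344117) (nat_lit 21) (.e (nat_lit 516138) (nat_lit 7) (.e (nat_lit 409609) (nat_lit 10) (.e (nat_lit 5616) (nat_lit 312) .nil))))))) (.g (nat_lit 1) (.e (nat_lit 42623) (nat_lit 0) .nil) .nil)))) (.nd (nat_lit 9) 
(.lf (nat_lit 456056) (.g (nat_lit 2740) (.e (nat_lit 2667) (nat_lit 167) (.e (nat_lit 196668) (nat_lit 14) (.e (nat_lit 73753) (nat_lit 8) (.e (nat_lit 557105) (nat_lit 14) (.e (nat_lit 180252) (nat_lit 10) (.e (nat_lit 573473) (nat_lit 12) (.e (nat_lit 57507) (nat_lit 39) (.e (nat_lit 647176) (nat_lit 0) .nil)))))))) (.g (nat_lit 1) (.e (nat_lit 41960) (nat_lit 0) .nil) .nil))) 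
(.lf (nat_lit 456568) (.g (nat_lit 3638) (.e (nat_lit 2668) (nat_lit 167) (.e (nat_lit 196666) (nat_lit 13) (.e (nat_lit 65610) (nat_lit 10) (.e (nat_lit 344117) (nat_lit 21) (.e (nat_lit 516159) (nat_lit 10) (.e (nat_lit 434203) (nat_lit 18) (.e (nat_lit 4778) (nat_lit 281) (.e (nat_lit 2445) (nat_lit 157) .nil)))))))) (.g (nat_lit 1) (.e (nat_lit 42919) (nat_lit 0) .nil) .nil))))) 
(.nd (nat_lit 8) (.nd (nat_lit 9) 
(.lf (nat_lit 455928) (.g (nat_lit 3104) (.e (nat_lit 2666) (nat_lit 167) (.e (nat_lit 196666) (nat_lit 13) (.e (nat_lit 65610) (nat_lit 10) (.e (nat_lit 344117) (nat_lit 21) (.e (nat_lit 516151) (nat_lit 9) (.e (nat_lit 426023) (nat_lit 0) (.e (nat_lit 2397) (nat_lit 157) (.e (nat_lit 4761) (nat_lit 281) (.e (nat_lit 2461) (nat_lit 157) .nil))))))))) (.g (nat_lit 1) (.e (nat_lit 41693) (nat_lit 0) .nil) .nil))) 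
(.lf (nat_lit 456440) (.g (nat_lit 4257) (.e (nat_lit 2668) (nat_lit 167) (.e (nat_lit 196666) (nat_lit 13) (.e (nat_lit 65610) (nat_lit 10) (.e (nat_lit 344117) (nat_lit 21) (.e (nat_lit 516151) (nat_lit 9) (.e (nat_lit 426020) (nat_lit 0) (.e (nat_lit 3368) (nat_lit 208) (.e (nat_lit 622623) (nat_lit 13) .nil)))))))) (.g (nat_lit 1) (.e (nat_lit 42789) (nat_lit 0) .nil) .nil)))) 
(.nd (nat_lit 9) 
(.lf (nat_lit 456184) (.g (nat_lit 2808) (.e (nat_lit 2668) (nat_lit 167) (.e (nat_lit 196663) (nat_lit 13) (.e (nat_lit 65630) (nat_lit 14) (.e (nat_lit 401425) (nat_lit 2) (.e (nat_lit 196628) (nat_lit 9) (.e (nat_lit 1512) (nat_lit 108) (.e (nat_lit 335872) (nat_lit 0) (.e (nat_lit 6618) (nat_lit 357) .nil)))))))) (.g (nat_lit 1) (.e (nat_lit 42447) (nat_lit 0) .nil) .nil))) 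
(.lf (nat_lit 456696) (.g (nat_lit 2097) (.e (nat_lit 2668) (nat_lit 167) (.e (nat_lit 196666) (nat_lit 13) (.e (nat_lit 65617) (nat_lit 10) (.e (nat_lit 344133) (nat_lit 26) (.e (nat_lit 557091) (nat_lit 12) (.e (nat_lit 163849) (nat_lit 0) (.e (nat_lit 6420) (nat_lit 341) (.e (nat_lit 163843) (nat_lit 0) (.e (nat_lit 7936) (nat_lit 388) .nil))))))))) (.g (nat_lit 1) (.e (nat_lit 43159) (nat_lit 0) .nil) .nil)))))))))) 
(.nd (nat_lit 3) (.nd (nat_lit 4) (.nd (nat_lit 5) (.nd (nat_lit 6) (.nd (nat_lit 7) 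
(.nd (nat_lit 8) (.nd (nat_lit 9) 
(.lf (nat_lit 455684) (.g (nat_lit 3902) (.e (nat_lit 2664) (nat_lit 167) (.e (nat_lit 196666) (nat_lit 13) (.e (nat_lit 65610) (nat_lit 10) (.e (nat_lit 344117) (nat_lit 21) (.e (nat_lit 516160) (nat_lit 10) (.e (nat_lit 434208) (nat_lit 18) (.e (nat_lit 4751) (nat_lit 281) (.e (nat_lit 2517) (nat_lit 157) .nil)))))))) (.g (nat_lit 1) (.e (nat_lit 41265) (nat_lit 0) .nil) .nil))) 
(.lf (nat_lit 456196) (.g (nat_lit 2759) (.e (nat_lit 2668) (nat_lit 167) (.e (nat_lit 196666) (nat_lit 13) (.e (nat_lit 65592) (nat_lit 9) (.e (nat_lit 336023) (nat_lit 3) (.e (nat_lit 98350) (nat_lit 24) (.e (nat_lit 409616) (nat_lit 10) (.e (nat_lit 7936) (nat_lit 312) .nil))))))) (.g (nat_lit 1) (.e (nat_lit 42492) (nat_lit 0) .nil) .nil)))) (.nd (nat_lit 9) 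
(.lf (nat_lit 455940) (.g (nat_lit 2449) (.e (nat_lit 2666) (nat_lit 167) (.e (nat_lit 196666) (nat_lit 13) (.e (nat_lit 65610) (nat_lit 10) (.e (nat_lit 344117) (nat_lit 21) (.e (nat_lit 516151) (nat_lit 9) (.e (nat_lit 426042) (nat_lit 0) (.e (nat_lit 3366) (nat_lit 208) (.e (nat_lit 622620) (nat_lit 13) .nil)))))))) (.g (nat_lit 1) (.e (nat_lit 41705) (nat_lit 0) .nil) .nil))) 
(.lf (nat_lit 456452) (.g (nat_lit 4229) (.e (nat_lit 2668) (nat_lit 167) (.e (nat_lit 196666) (nat_lit 13) (.e (nat_lit 65610) (nat_lit 10) (.e (nat_lit 344117) (nat_lit 21) (.e (nat_lit 516151) (nat_lit 9) (.e (nat_lit 426021) (nat_lit 0) (.e (nat_lit 3372) (nat_lit 208) (.e (nat_lit 622623) (nat_lit 13) .nil)))))))) (.g (nat_lit 1) (.e (nat_lit 42801) (nat_lit 0) .nil) .nil))))) 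
(.nd (nat_lit 8) (.nd (nat_lit 9) 
(.lf (nat_lit 455812) (.g (nat_lit 1435) (.e (nat_lit 2664) (nat_lit 167) (.e (nat_lit 196673) (nat_lit 15) (.e (nat_lit 81938) (nat_lit 20) (.e (nat_lit 1841) (nat_lit 123) (.e (nat_lit 548890) (nat_lit 10) (.e (nat_lit 73782) (nat_lit 32) .nil)))))) (.g (nat_lit 1) (.e (nat_lit 41433) (nat_lit 0) .nil) .nil))) 
(.lf (nat_lit 456324) (.g (nat_lit 2089) (.e (nat_lit 2668) (nat_lit 167) (.e (nat_lit 196666) (nat_lit 13) (.e (nat_lit 65610) (nat_lit 10) (.e (nat_lit 344117) (nat_lit 21) (.e (nat_lit 516138) (nat_lit 7) (.e (nat_lit 409615) (nat_lit 10) (.e (nat_lit 5616) (nat_lit 312) .nil))))))) (.g (nat_lit 1) (.e (nat_lit 42635) (nat_lit 0) .nil) .nil)))) (.nd (nat_lit 9) 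
(.lf (nat_lit 456068) (.g (nat_lit 2581) (.e (nat_lit 2667) (nat_lit 167) (.e (nat_lit 196668) (nat_lit 14) (.e (nat_lit 73755) (nat_lit 8) (.e (nat_lit 557105) (nat_lit 14) (.e (nat_lit 180252) (nat_lit 10) (.e (nat_lit 573474) (nat_lit 12) (.e (nat_lit 57509) (nat_lit 39) (.e (nat_lit 655104) (nat_lit 0) .nil)))))))) (.g (nat_lit 1) (.e (nat_lit 41972) (nat_lit 0) .nil) .nil))) 
(.lf (nat_lit 456580) (.g (nat_lit 2706) (.e (nat_lit 2668) (nat_lit 167) (.e (nat_lit 196666) (nat_lit 13) (.e (nat_lit 65610) (nat_lit 10) (.e (nat_lit 344117) (nat_lit 21) (.e (nat_lit 516160) (nat_lit 10) (.e (nat_lit 434203) (nat_lit 18) (.e (nat_lit 4751) (nat_lit 281) (.e (nat_lit 2399) (nat_lit 157) .nil)))))))) (.g (nat_lit 1) (.e (nat_lit 42931) (nat_lit 0) .nil) .nil)))))) 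
(.nd (nat_lit 7) (.nd (nat_lit 8) (.nd (nat_lit 9) 
(.lf (nat_lit 455748) (.g (nat_lit 2949) (.e (nat_lit 2664) (nat_lit 167) (.e (nat_lit 196666) (nat_lit 13) (.e (nat_lit 65624) (nat_lit 12) (.e (nat_lit 385074) (nat_lit 31) (.e (nat_lit 573488) (nat_lit 14) (.e (nat_lit 73781) (nat_lit 32) .nil)))))) (.g (nat_lit 1) (.e (nat_lit 41356) (nat_lit 0) .nil) .nil))) 
(.lf (nat_lit 456260) (.g (nat_lit 2894) (.e (nat_lit 2668) (nat_lit 167) (.e (nat_lit 196666) (nat_lit 13) (.e (nat_lit 65610) (nat_lit 10) (.e (nat_lit 344117) (nat_lit 21) (.e (nat_lit 516106) (nat_lit 0) (.e (nat_lit 6966) (nat_lit 377) (.e (nat_lit 2442) (nat_lit 157) (.e (nat_lit 5627) (nat_lit 312) .nil)))))))) (.g (nat_lit 1) (.e (nat_lit 42571) (nat_lit 0) .nil) .nil)))) (.nd (nat_lit 9) 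
(.lf (nat_lit 456004) (.g (nat_lit 3539) (.e (nat_lit 2666) (nat_lit 167) (.e (nat_lit 196671) (nat_lit 15) (.e (nat_lit 81956) (nat_lit 23) (.e (nat_lit 98350) (nat_lit 24) (.e (nat_lit 409616) (nat_lit 10) (.e (nat_lit 7936) (nat_lit 312) .nil)))))) (.g (nat_lit 1) (.e (nat_lit 41856) (nat_lit 0) .nil) .nil))) 
(.lf (nat_lit 456516) (.g (nat_lit 3160) (.e (nat_lit 2668) (nat_lit 167) (.e (nat_lit 196666) (nat_lit 13) (.e (nat_lit 65610) (nat_lit 10) (.e (nat_lit 344117) (nat_lit 21) (.e (nat_lit 516151) (nat_lit 9) (.e (nat_lit 426042) (nat_lit 0) (.e (nat_lit 3366) (nat_lit 208) (.e (nat_lit 622624) (nat_lit 13) .nil)))))))) (.g (nat_lit 1) (.e (nat_lit 42865) (nat_lit 0) .nil) .nil))))) 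
(.nd (nat_lit 8) (.nd (nat_lit 9) 
(.lf (nat_lit 455876) (.g (nat_lit 3030) (.e (nat_lit 2666) (nat_lit 167) (.e (nat_lit 196666) (nat_lit 13) (.e (nat_lit 65571) (nat_lit 3) (.e (nat_lit 98334) (nat_lit 18) (.e (nat_lit 164182) (nat_lit 154) .nil))))) (.g (nat_lit 0) (.e (nat_lit 41572) (nat_lit 0) .nil) .nil))) 
(.lf (nat_lit 456388) (.g (nat_lit 5428) (.e (nat_lit 2668) (nat_lit 167) (.e (nat_lit 196666) (nat_lit 13) (.e (nat_lit 65610) (nat_lit 10) (.e (nat_lit 344117) (nat_lit 21) (.e (nat_lit 516141) (nat_lit 8) (.e (nat_lit 417820) (nat_lit 10) (.e (nat_lit 5626) (nat_lit 312) .nil))))))) (.g (nat_lit 1) (.e (nat_lit 42699) (nat_lit 0) .nil) .nil)))) (.nd (nat_lit 9) 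
(.lf (nat_lit 456132) (.g (nat_lit 2227) (.e (nat_lit 2667) (nat_lit 167) (.e (nat_lit 196670) (nat_lit 14) (.e (nat_lit 73754) (nat_lit 8) (.e (nat_lit 557105) (nat_lit 14) (.e (nat_lit 180252) (nat_lit 10) (.e (nat_lit 573473) (nat_lit 12) (.e (nat_lit 57508) (nat_lit 39) (.e (nat_lit 647168) (nat_lit 0) .nil)))))))) (.g (nat_lit 1) (.e (nat_lit 42080) (nat_lit 0) .nil) .nil))) 
(.lf (nat_lit 456644) (.g (nat_lit 3978) (.e (nat_lit 2668) (nat_lit 167) (.e (nat_lit 196666) (nat_lit 13) (.e (nat_lit 65617) (nat_lit 10) (.e (nat_lit 344127) (nat_lit 26) (.e (nat_lit 557087) (nat_lit 11) (.e (nat_lit 24580) (nat_lit 0) (.e (nat_lit 6619) (nat_lit 357) .nil))))))) (.g (nat_lit 1) (.e (nat_lit 43064) (nat_lit 0) .nil) .nil))))))) 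
(.nd (nat_lit 6) (.nd (nat_lit 7) (.nd (nat_lit 8) (.nd (nat_lit 9) 
(.lf (nat_lit 455716) (.g (nat_lit 1047) (.e (nat_lit 2664) (nat_lit 167) (.e (nat_lit 196666) (nat_lit 13) (.e (nat_lit 65617) (nat_lit 10) (.e (nat_lit 344095) (nat_lit 18) .nil)))) (.g (nat_lit 0) (.e (nat_lit 41305) (nat_lit 0) .nil) .nil))) 
(.lf (nat_lit 456228) (.g (nat_lit 2754) (.e (nat_lit 2668) (nat_lit 167) (.e (nat_lit 196666) (nat_lit 13) (.e (nat_lit 65610) (nat_lit 10) (.e (nat_lit 344117) (nat_lit 21) (.e (nat_lit 516098) (nat_lit 0) (.e (nat_lit 7073) (nat_lit 377) (.e (nat_lit 2416) (nat_lit 157) (.e (nat_lit 5627) (nat_lit 312) .nil)))))))) (.g (nat_lit 1) (.e (nat_lit 42539) (nat_lit 0) .nil) .nil)))) (.nd (nat_lit 9) 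
(.lf (nat_lit 455972) (.g (nat_lit 1799) (.e (nat_lit 2666) (nat_lit 167) (.e (nat_lit 196666) (nat_lit 13) (.e (nat_lit 65610) (nat_lit 10) (.e (nat_lit 344129) (nat_lit 26) (.e (nat_lit 557085) (nat_lit 11) .nil))))) (.g (nat_lit 0) (.e (nat_lit 41777) (nat_lit 0) .nil) .nil))) 
(.lf (nat_lit 456484) (.g (nat_lit 4472) (.e (nat_lit 2668) (nat_lit 167) (.e (nat_lit 196666) (nat_lit 13) (.e (nat_lit 65610) (nat_lit 10) (.e (nat_lit 344117) (nat_lit 21) (.e (nat_lit 516151) (nat_lit 9) (.e (nat_lit 426038) (nat_lit 0) (.e (nat_lit 2422) (nat_lit 157) (.e (nat_lit 4778) (nat_lit 281) (.e (nat_lit 2445) (nat_lit 157) .nil))))))))) (.g (nat_lit 1) (.e (nat_lit 42833) (nat_lit 0) .nil) .nil))))) 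
(.nd (nat_lit 8) (.nd (nat_lit 9) 
(.lf (nat_lit 455844) (.g (nat_lit 2424) (.e (nat_lit 2665) (nat_lit 167) (.e (nat_lit 196666) (nat_lit 13) (.e (nat_lit 65610) (nat_lit 10) (.e (nat_lit 344129) (nat_lit 26) .nil)))) (.g (nat_lit 0) (.e (nat_lit 41508) (nat_lit 0) .nil) .nil))) 
(.lf (nat_lit 456356) (.g (nat_lit 4240) (.e (nat_lit 2668) (nat_lit 167) (.e (nat_lit 196666) (nat_lit 13) (.e (nat_lit 65610) (nat_lit 10) (.e (nat_lit 344117) (nat_lit 21) (.e (nat_lit 516139) (nat_lit 7) (.e (nat_lit 409613) (nat_lit 10) (.e (nat_lit 5616) (nat_lit 312) .nil))))))) (.g (nat_lit 1) (.e (nat_lit 42667) (nat_lit 0) .nil) .nil)))) (.nd (nat_lit 9) 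
(.lf (nat_lit 456100) (.g (nat_lit 3443) (.e (nat_lit 2667) (nat_lit 167) (.e (nat_lit 196670) (nat_lit 14) (.e (nat_lit 73753) (nat_lit 8) (.e (nat_lit 557103) (nat_lit 14) (.e (nat_lit 180250) (nat_lit 10) (.e (nat_lit 573478) (nat_lit 12) (.e (nat_lit 57509) (nat_lit 39) (.e (nat_lit 655104) (nat_lit 0) .nil)))))))) (.g (nat_lit 1) (.e (nat_lit 42048) (nat_lit 0) .nil) .nil))) 
(.lf (nat_lit 456612) (.g (nat_lit 5006) (.e (nat_lit 2668) (nat_lit 167) (.e (nat_lit 196666) (nat_lit 13) (.e (nat_lit 65610) (nat_lit 10) (.e (nat_lit 344129) (nat_lit 26) (.e (nat_lit 557087) (nat_lit 11) (.e (nat_lit 24580) (nat_lit 0) (.e (nat_lit 6619) (nat_lit 357) .nil))))))) (.g (nat_lit 1) (.e (nat_lit 43011) (nat_lit 0) .nil) .nil)))))) 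
(.nd (nat_lit 7) (.nd (nat_lit 8) (.nd (nat_lit 9) 
(.lf (nat_lit 455780) (.g (nat_lit 2092) (.e (nat_lit 2664) (nat_lit 167) (.e (nat_lit 196672) (nat_lit 15) (.e (nat_lit 81943) (nat_lit 20) (.e (nat_lit 1840) (nat_lit 123) (.e (nat_lit 548889) (nat_lit 9) (.e (nat_lit 65540) (nat_lit 0) (.e (nat_lit 6681) (nat_lit 357) .nil))))))) (.g (nat_lit 1) (.e (nat_lit 41396) (nat_lit 0) .nil) .nil))) 
(.lf (nat_lit 456292) (.g (nat_lit 3353) (.e (nat_lit 2668) (nat_lit 167) (.e (nat_lit 196666) (nat_lit 13) (.e (nat_lit 65610) (nat_lit 10) (.e (nat_lit 344117) (nat_lit 21) (.e (nat_lit 516106) (nat_lit 0) (.e (nat_lit 7008) (nat_lit 377) (.e (nat_lit 2442) (nat_lit 157) (.e (nat_lit 5627) (nat_lit 312) .nil)))))))) (.g (nat_lit 1) (.e (nat_lit 42603) (nat_lit 0) .nil) .nil)))) (.nd (nat_lit 9) 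
(.lf (nat_lit 456036) (.g (nat_lit 5200) (.e (nat_lit 2667) (nat_lit 167) (.e (nat_lit 196668) (nat_lit 14) (.e (nat_lit 73753) (nat_lit 8) (.e (nat_lit 557103) (nat_lit 14) (.e (nat_lit 180250) (nat_lit 10) (.e (nat_lit 573474) (nat_lit 12) (.e (nat_lit 57507) (nat_lit 39) (.e (nat_lit 655104) (nat_lit 0) .nil)))))))) (.g (nat_lit 1) (.e (nat_lit 41940) (nat_lit 0) .nil) .nil))) 
(.lf (nat_lit 456548) (.g (nat_lit 4110) (.e (nat_lit 2668) (nat_lit 167) (.e (nat_lit 196666) (nat_lit 13) (.e (nat_lit 65610) (nat_lit 10) (.e (nat_lit 344117) (nat_lit 21) (.e (nat_lit 516151) (nat_lit 9) (.e (nat_lit 426047) (nat_lit 0) (.e (nat_lit 3369) (nat_lit 208) (.e (nat_lit 622623) (nat_lit 13) .nil)))))))) (.g (nat_lit 1) (.e (nat_lit 42897) (nat_lit 0) .nil) .nil))))) 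
(.nd (nat_lit 8) (.nd (nat_lit 9) 
(.lf (nat_lit 455908) (.g (nat_lit 3540) (.e (nat_lit 2666) (nat_lit 167) (.e (nat_lit 196666) (nat_lit 13) (.e (nat_lit 65610) (nat_lit 10) (.e (nat_lit 344117) (nat_lit 21) (.e (nat_lit 516151) (nat_lit 9) (.e (nat_lit 426018) (nat_lit 0) (.e (nat_lit 2398) (nat_lit 157) (.e (nat_lit 4761) (nat_lit 281) (.e (nat_lit 2461) (nat_lit 157) .nil))))))))) (.g (nat_lit 1) (.e (nat_lit 41673) (nat_lit 0) .nil) .nil))) 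
(.lf (nat_lit 456420) (.g (nat_lit 2510) (.e (nat_lit 2668) (nat_lit 167) (.e (nat_lit 196666) (nat_lit 13) (.e (nat_lit 65610) (nat_lit 10) (.e (nat_lit 344117) (nat_lit 21) (.e (nat_lit 516151) (nat_lit 9) (.e (nat_lit 426003) (nat_lit 0) (.e (nat_lit 3372) (nat_lit 208) (.e (nat_lit 622620) (nat_lit 13) .nil)))))))) (.g (nat_lit 1) (.e (nat_lit 42769) (nat_lit 0) .nil) .nil)))) 
(.nd (nat_lit 9) 
(.lf (nat_lit 456164) (.g (nat_lit 2181) (.e (nat_lit 2667) (nat_lit 167) (.e (nat_lit 196672) (nat_lit 15) (.e (nat_lit 81954) (nat_lit 23) (.e (nat_lit 98349) (nat_lit 24) (.e (nat_lit 417536) (nat_lit 10) .nil))))) (.g (nat_lit 0) (.e (nat_lit 42232) (nat_lit 0) .nil) .nil))) 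
(.lf (nat_lit 456676) (.g (nat_lit 3327) (.e (nat_lit 2668) (nat_lit 167) (.e (nat_lit 196666) (nat_lit 13) (.e (nat_lit 65617) (nat_lit 10) (.e (nat_lit 344132) (nat_lit 26) (.e (nat_lit 557085) (nat_lit 11) (.e (nat_lit 24579) (nat_lit 0) (.e (nat_lit 6619) (nat_lit 357) .nil))))))) (.g (nat_lit 1) (.e (nat_lit 43122) (nat_lit 0) .nil) .nil)))))))) 
(.nd (nat_lit 5) (.nd (nat_lit 6) (.nd (nat_lit 7) (.nd (nat_lit 8) (.nd (nat_lit 9) 
(.lf (nat_lit 455700) (.g (nat_lit 3540) (.e (nat_lit 2664) (nat_lit 167) (.e (nat_lit 196666) (nat_lit 13) (.e (nat_lit 65610) (nat_lit 10) (.e (nat_lit 344126) (nat_lit 25) (.e (nat_lit 548889) (nat_lit 9) (.e (nat_lit 65537) (nat_lit 0) (.e (nat_lit 6681) (nat_lit 357) .nil))))))) (.g (nat_lit 1) (.e (nat_lit 41285) (nat_lit 0) .nil) .nil))) 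
(.lf (nat_lit 456212) (.g (nat_lit 3494) (.e (nat_lit 2668) (nat_lit 167) (.e (nat_lit 196666) (nat_lit 13) (.e (nat_lit 65610) (nat_lit 10) (.e (nat_lit 344117) (nat_lit 21) (.e (nat_lit 516097) (nat_lit 0) (.e (nat_lit 6964) (nat_lit 377) (.e (nat_lit 2510) (nat_lit 157) (.e (nat_lit 5626) (nat_lit 312) .nil)))))))) (.g (nat_lit 1) (.e (nat_lit 42523) (nat_lit 0) .nil) .nil)))) (.nd (nat_lit 9) 
(.lf (nat_lit 455956) (.g (nat_lit 2412) (.e (nat_lit 2666) (nat_lit 167) (.e (nat_lit 196666) (nat_lit 13) (.e (nat_lit 65610) (nat_lit 10) (.e (nat_lit 344117) (nat_lit 21) (.e (nat_lit 516151) (nat_lit 9) (.e (nat_lit 426104) (nat_lit 1) (.e (nat_lit 164254) (nat_lit 215) (.e (nat_lit 7936) (nat_lit 157) .nil)))))))) (.g (nat_lit 1) (.e (nat_lit 41721) (nat_lit 0) .nil) .nil))) 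
(.lf (nat_lit 456468) (.g (nat_lit 2709) (.e (nat_lit 2668) (nat_lit 167) (.e (nat_lit 196666) (nat_lit 13) (.e (nat_lit 65610) (nat_lit 10) (.e (nat_lit 344117) (nat_lit 21) (.e (nat_lit 516151) (nat_lit 9) (.e (nat_lit 426026) (nat_lit 0) (.e (nat_lit 7936) (nat_lit 208) (.e (nat_lit 622620) (nat_lit 13) .nil)))))))) (.g (nat_lit 1) (.e (nat_lit 42817) (nat_lit 0) .nil) .nil))))) 
(.nd (nat_lit 8) (.nd (nat_lit 9) 
(.lf (nat_lit 455828) (.g (nat_lit 3166) (.e (nat_lit 2664) (nat_lit 167) (.e (nat_lit 196674) (nat_lit 15) (.e (nat_lit 81946) (nat_lit 20) (.e (nat_lit 1842) (nat_lit 123) (.e (nat_lit 548889) (nat_lit 9) (.e (nat_lit 65545) (nat_lit 0) (.e (nat_lit 6684) (nat_lit 357) .nil))))))) (.g (nat_lit 1) (.e (nat_lit 41451) (nat_lit 0) .nil) .nil))) 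
(.lf (nat_lit 456340) (.g (nat_lit 3720) (.e (nat_lit 2668) (nat_lit 167) (.e (nat_lit 196666) (nat_lit 13) (.e (nat_lit 65610) (nat_lit 10) (.e (nat_lit 344117) (nat_lit 21) (.e (nat_lit 516139) (nat_lit 7) (.e (nat_lit 409608) (nat_lit 10) (.e (nat_lit 5613) (nat_lit 312) .nil))))))) (.g (nat_lit 1) (.e (nat_lit 42651) (nat_lit 0) .nil) .nil)))) (.nd (nat_lit 9) 
(.lf (nat_lit 456084) (.g (nat_lit 2884) (.e (nat_lit 2667) (nat_lit 167) (.e (nat_lit 196670) (nat_lit 14) (.e (nat_lit 73746) (nat_lit 3) (.e (nat_lit 516129) (nat_lit 3) (.e (nat_lit 221210) (nat_lit 22) (.e (nat_lit 196660) (nat_lit 12) (.e (nat_lit 57507) (nat_lit 39) (.e (nat_lit 655104) (nat_lit 0) .nil)))))))) (.g (nat_lit 1) (.e (nat_lit 42031) (nat_lit 0) .nil) .nil))) 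
(.lf (nat_lit 456596) (.g (nat_lit 4673) (.e (nat_lit 2668) (nat_lit 167) (.e (nat_lit 196666) (nat_lit 13) (.e (nat_lit 65610) (nat_lit 10) (.e (nat_lit 344117) (nat_lit 21) (.e (nat_lit 516185) (nat_lit 16) (.e (nat_lit 491526) (nat_lit 0) (.e (nat_lit 7936) (nat_lit 357) .nil))))))) (.g (nat_lit 1) (.e (nat_lit 42966) (nat_lit 0) .nil) .nil)))))) 
(.nd (nat_lit 7) (.nd (nat_lit 8) (.nd (nat_lit 9) 
(.lf (nat_lit 455764) (.g (nat_lit 4068) (.e (nat_lit 2664) (nat_lit 167) (.e (nat_lit 196666) (nat_lit 13) (.e (nat_lit 65630) (nat_lit 14) (.e (nat_lit 401425) (nat_lit 2) (.e (nat_lit 196681) (nat_lit 17) (.e (nat_lit 131077) (nat_lit 0) (.e (nat_lit 6684) (nat_lit 357) .nil))))))) (.g (nat_lit 1) (.e (nat_lit 41373) (nat_lit 0) .nil) .nil))) 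
(.lf (nat_lit 456276) (.g (nat_lit 2933) (.e (nat_lit 2668) (nat_lit 167) (.e (nat_lit 196666) (nat_lit 13) (.e (nat_lit 65610) (nat_lit 10) (.e (nat_lit 344117) (nat_lit 21) (.e (nat_lit 516106) (nat_lit 0) (.e (nat_lit 6986) (nat_lit 377) (.e (nat_lit 2529) (nat_lit 157) (.e (nat_lit 5612) (nat_lit 312) .nil)))))))) (.g (nat_lit 1) (.e (nat_lit 42587) (nat_lit 0) .nil) .nil)))) (.nd (nat_lit 9) 
(.lf (nat_lit 456020) (.g (nat_lit 2596) (.e (nat_lit 2667) (nat_lit 167) (.e (nat_lit 196666) (nat_lit 13) (.e (nat_lit 65610) (nat_lit 10) (.e (nat_lit 344129) (nat_lit 26) (.e (nat_lit 557066) (nat_lit 9) .nil))))) (.g (nat_lit 0) (.e (nat_lit 41897) (nat_lit 0) .nil) .nil))) 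
(.lf (nat_lit 456532) (.g (nat_lit 2954) (.e (nat_lit 2668) (nat_lit 167) (.e (nat_lit 196666) (nat_lit 13) (.e (nat_lit 65610) (nat_lit 10) (.e (nat_lit 344117) (nat_lit 21) (.e (nat_lit 516151) (nat_lit 9) (.e (nat_lit 426043) (nat_lit 0) (.e (nat_lit 3371) (nat_lit 208) (.e (nat_lit 622621) (nat_lit 13) .nil)))))))) (.g (nat_lit 1) (.e (nat_lit 42881) (nat_lit 0) .nil) .nil))))) 
(.nd (nat_lit 8) (.nd (nat_lit 9) 
(.lf (nat_lit 455892) (.g (nat_lit 4156) (.e (nat_lit 2666) (nat_lit 167) (.e (nat_lit 196666) (nat_lit 13) (.e (nat_lit 65610) (nat_lit 10) (.e (nat_lit 344117) (nat_lit 21) (.e (nat_lit 516138) (nat_lit 7) (.e (nat_lit 409617) (nat_lit 10) (.e (nat_lit 7936) (nat_lit 312) .nil))))))) (.g (nat_lit 1) (.e (nat_lit 41655) (nat_lit 0) .nil) .nil))) 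
(.lf (nat_lit 456404) (.g (nat_lit 3125) (.e (nat_lit 2668) (nat_lit 167) (.e (nat_lit 196666) (nat_lit 13) (.e (nat_lit 65610) (nat_lit 10) (.e (nat_lit 344117) (nat_lit 21) (.e (nat_lit 516142) (nat_lit 8) (.e (nat_lit 417818) (nat_lit 10) (.e (nat_lit 5612) (nat_lit 312) .nil))))))) (.g (nat_lit 1) (.e (nat_lit 42715) (nat_lit 0) .nil) .nil)))) (.nd (nat_lit 9) 
(.lf (nat_lit 456148) (.g (nat_lit 3062) (.e (nat_lit 2667) (nat_lit 167) (.e (nat_lit 196670) (nat_lit 14) (.e (nat_lit 73754) (nat_lit 8) (.e (nat_lit 557105) (nat_lit 14) (.e (nat_lit 180252) (nat_lit 10) (.e (nat_lit 573475) (nat_lit 12) (.e (nat_lit 57508) (nat_lit 39) (.e (nat_lit 647176) (nat_lit 0) .nil)))))))) (.g (nat_lit 1) (.e (nat_lit 42096) (nat_lit 0) .nil) .nil))) 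
(.lf (nat_lit 456660) (.g (nat_lit 3563) (.e (nat_lit 2668) (nat_lit 167) (.e (nat_lit 196666) (nat_lit 13) (.e (nat_lit 65617) (nat_lit 10) (.e (nat_lit 344130) (nat_lit 26) (.e (nat_lit 557087) (nat_lit 11) (.e (nat_lit 24582) (nat_lit 0) (.e (nat_lit 7936) (nat_lit 357) .nil))))))) (.g (nat_lit 1) (.e (nat_lit 43098) (nat_lit 0) .nil) .nil))))))) 
(.nd (nat_lit 6) (.nd (nat_lit 7) (.nd (nat_lit 8) (.nd (nat_lit 9) 
(.lf (nat_lit 455732) (.g (nat_lit 2047) (.e (nat_lit 2664) (nat_lit 167) (.e (nat_lit 196666) (nat_lit 13) (.e (nat_lit 65617) (nat_lit 10) (.e (nat_lit 344130) (nat_lit 26) (.e (nat_lit 557087) (nat_lit 11) (.e (nat_lit 24578) (nat_lit 0) (.e (nat_lit 6643) (nat_lit 357) .nil))))))) (.g (nat_lit 1) (.e (nat_lit 41334) (nat_lit 0) .nil) .nil))) 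
(.lf (nat_lit 456244) (.g (nat_lit 3149) (.e (nat_lit 2668) (nat_lit 167) (.e (nat_lit 196666) (nat_lit 13) (.e (nat_lit 65610) (nat_lit 10) (.e (nat_lit 344117) (nat_lit 21) (.e (nat_lit 516099) (nat_lit 0) (.e (nat_lit 7060) (nat_lit 377) (.e (nat_lit 2508) (nat_lit 157) (.e (nat_lit 5626) (nat_lit 312) .nil)))))))) (.g (nat_lit 1) (.e (nat_lit 42555) (nat_lit 0) .nil) .nil)))) (.nd (nat_lit 9) 
(.lf (nat_lit 455988) (.g (nat_lit 4492) (.e (nat_lit 2666) (nat_lit 167) (.e (nat_lit 196666) (nat_lit 13) (.e (nat_lit 65617) (nat_lit 10) (.e (nat_lit 344130) (nat_lit 26) (.e (nat_lit 557087) (nat_lit 11) (.e (nat_lit 24580) (nat_lit 0) (.e (nat_lit 6696) (nat_lit 357) .nil))))))) (.g (nat_lit 1) (.e (nat_lit 41801) (nat_lit 0) .nil) .nil))) 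
(.lf (nat_lit 456500) (.g (nat_lit 4361) (.e (nat_lit 2668) (nat_lit 167) (.e (nat_lit 196666) (nat_lit 13) (.e (nat_lit 65610) (nat_lit 10) (.e (nat_lit 344117) (nat_lit 21) (.e (nat_lit 516151) (nat_lit 9) (.e (nat_lit 426040) (nat_lit 0) (.e (nat_lit 3366) (nat_lit 208) (.e (nat_lit 622620) (nat_lit 13) .nil)))))))) (.g (nat_lit 1) (.e (nat_lit 42849) (nat_lit 0) .nil) .nil))))) 
(.nd (nat_lit 8) (.nd (nat_lit 9) 
(.lf (nat_lit 455860) (.g (nat_lit 3425) (.e (nat_lit 2666) (nat_lit 167) (.e (nat_lit 196666) (nat_lit 13) (.e (nat_lit 65569) (nat_lit 3) (.e (nat_lit 98333) (nat_lit 18) (.e (nat_lit 164179) (nat_lit 154) .nil))))) (.g (nat_lit 0) (.e (nat_lit 41540) (nat_lit 0) .nil) .nil))) 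
(.lf (nat_lit 456372) (.g (nat_lit 4090) (.e (nat_lit 2668) (nat_lit 167) (.e (nat_lit 196666) (nat_lit 13) (.e (nat_lit 65610) (nat_lit 10) (.e (nat_lit 344117) (nat_lit 21) (.e (nat_lit 516139) (nat_lit 7) (.e (nat_lit 409623) (nat_lit 10) (.e (nat_lit 5626) (nat_lit 312) .nil))))))) (.g (nat_lit 1) (.e (nat_lit 42683) (nat_lit 0) .nil) .nil)))) (.nd (nat_lit 9) 
(.lf (nat_lit 456116) (.g (nat_lit 4888) (.e (nat_lit 2667) (nat_lit 167) (.e (nat_lit 196670) (nat_lit 14) (.e (nat_lit 73753) (nat_lit 8) (.e (nat_lit 557105) (nat_lit 14) (.e (nat_lit 180252) (nat_lit 10) (.e (nat_lit 573474) (nat_lit 12) (.e (nat_lit 57507) (nat_lit 39) (.e (nat_lit 655104) (nat_lit 0) .nil)))))))) (.g (nat_lit 1) (.e (nat_lit 42064) (nat_lit 0) .nil) .nil))) 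
(.lf (nat_lit 456628) (.g (nat_lit 4584) (.e (nat_lit 2668) (nat_lit 167) (.e (nat_lit 196666) (nat_lit 13) (.e (nat_lit 65617) (nat_lit 10) (.e (nat_lit 344117) (nat_lit 21) (.e (nat_lit 516139) (nat_lit 7) (.e (nat_lit 409616) (nat_lit 10) (.e (nat_lit 5628) (nat_lit 312) .nil))))))) (.g (nat_lit 1) (.e (nat_lit 43036) (nat_lit 0) .nil) .nil)))))) 
(.nd (nat_lit 7) (.nd (nat_lit 8) (.nd (nat_lit 9) 
(.lf (nat_lit 455796) (.g (nat_lit 3024) (.e (nat_lit 2664) (nat_lit 167) (.e (nat_lit 196672) (nat_lit 15) (.e (nat_lit 81954) (nat_lit 23) (.e (nat_lit 98323) (nat_lit 17) (.e (nat_lit 7107) (nat_lit 380) (.e (nat_lit 164365) (nat_lit 246) .nil)))))) (.g (nat_lit 1) (.e (nat_lit 41417) (nat_lit 0) .nil) .nil))) 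
(.lf (nat_lit 456308) (.g (nat_lit 2822) (.e (nat_lit 2668) (nat_lit 167) (.e (nat_lit 196666) (nat_lit 13) (.e (nat_lit 65610) (nat_lit 10) (.e (nat_lit 344117) (nat_lit 21) (.e (nat_lit 516106) (nat_lit 0) (.e (nat_lit 7936) (nat_lit 405) (.e (nat_lit 65280) (nat_lit 201) .nil))))))) (.g (nat_lit 1) (.e (nat_lit 42619) (nat_lit 0) .nil) .nil)))) (.nd (nat_lit 9) 
(.lf (nat_lit 456052) (.g (nat_lit 2961) (.e (nat_lit 2667) (nat_lit 167) (.e (nat_lit 196668) (nat_lit 14) (.e (nat_lit 73753) (nat_lit 8) (.e (nat_lit 557104) (nat_lit 14) (.e (nat_lit 180252) (nat_lit 10) (.e (nat_lit 573474) (nat_lit 12) (.e (nat_lit 57508) (nat_lit 39) (.e (nat_lit 647175) (nat_lit 0) .nil)))))))) (.g (nat_lit 1) (.e (nat_lit 41956) (nat_lit 0) .nil) .nil))) 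
(.lf (nat_lit 456564) (.g (nat_lit 2951) (.e (nat_lit 2668) (nat_lit 167) (.e (nat_lit 196666) (nat_lit 13) (.e (nat_lit 65610) (nat_lit 10) (.e (nat_lit 344117) (nat_lit 21) (.e (nat_lit 516159) (nat_lit 10) (.e (nat_lit 434202) (nat_lit 18) (.e (nat_lit 4751) (nat_lit 281) (.e (nat_lit 2399) (nat_lit 157) .nil)))))))) (.g (nat_lit 1) (.e (nat_lit 42915) (nat_lit 0) .nil) .nil))))) 
(.nd (nat_lit 8) (.nd (nat_lit 9) 
(.lf (nat_lit 455924) (.g (nat_lit 4748) (.e (nat_lit 2666) (nat_lit 167) (.e (nat_lit 196666) (nat_lit 13) (.e (nat_lit 65610) (nat_lit 10) (.e (nat_lit 344117) (nat_lit 21) (.e (nat_lit 516151) (nat_lit 9) (.e (nat_lit 426022) (nat_lit 0) (.e (nat_lit 2403) (nat_lit 157) (.e (nat_lit 4825) (nat_lit 281) (.e (nat_lit 2416) (nat_lit 157) .nil))))))))) (.g (nat_lit 1) (.e (nat_lit 41689) (nat_lit 0) .nil) .nil))) 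
(.lf (nat_lit 456436) (.g (nat_lit 4126) (.e (nat_lit 2668) (nat_lit 167) (.e (nat_lit 196666) (nat_lit 13) (.e (nat_lit 65610) (nat_lit 10) (.e (nat_lit 344117) (nat_lit 21) (.e (nat_lit 516151) (nat_lit 9) (.e (nat_lit 426019) (nat_lit 0) (.e (nat_lit 7936) (nat_lit 208) (.e (nat_lit 622620) (nat_lit 13) .nil)))))))) (.g (nat_lit 1) (.e (nat_lit 42785) (nat_lit 0) .nil) .nil)))) 
(.nd (nat_lit 9) 
(.lf (nat_lit 456180) (.g (nat_lit 3094) (.e (nat_lit 2668) (nat_lit 167) (.e (nat_lit 196656) (nat_lit 11) (.e (nat_lit 16436) (nat_lit 9) (.e (nat_lit 426131) (nat_lit 3) (.e (nat_lit 204880) (nat_lit 32) (.e (nat_lit 385094) (nat_lit 49) (.e (nat_lit 778336) (nat_lit 9) .nil))))))) (.g (nat_lit 1) (.e (nat_lit 42435) (nat_lit 0) .nil) .nil))) 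
(.lf (nat_lit 456692) (.g (nat_lit 2435) (.e (nat_lit 2668) (nat_lit 167) (.e (nat_lit 196666) (nat_lit 13) (.e (nat_lit 65617) (nat_lit 10) (.e (nat_lit 344133) (nat_lit 26) (.e (nat_lit 557089) (nat_lit 12) (.e (nat_lit 163844) (nat_lit 0) (.e (nat_lit 6420) (nat_lit 341) (.e (nat_lit 163843) (nat_lit 0) (.e (nat_lit 7936) (nat_lit 388) .nil))))))))) (.g (nat_lit 1) (.e (nat_lit 43155) (nat_lit 0) .nil) .nil))))))))) 
(.nd (nat_lit 4) (.nd (nat_lit 5) (.nd (nat_lit 6) (.nd (nat_lit 7) (.nd (nat_lit 8) 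
(.nd (nat_lit 9) 
(.lf (nat_lit 455692) (.g (nat_lit 4094) (.e (nat_lit 2664) (nat_lit 167) (.e (nat_lit 196666) (nat_lit 13) (.e (nat_lit 65610) (nat_lit 10) (.e (nat_lit 344117) (nat_lit 21) (.e (nat_lit 516185) (nat_lit 16) (.e (nat_lit 491526) (nat_lit 0) (.e (nat_lit 6676) (nat_lit 357) .nil))))))) (.g (nat_lit 1) (.e (nat_lit 41274) (nat_lit 0) .nil) .nil))) 
(.lf (nat_lit 456204) (.g (nat_lit 2272) (.e (nat_lit 2668) (nat_lit 167) (.e (nat_lit 196666) (nat_lit 13) (.e (nat_lit 65610) (nat_lit 10) (.e (nat_lit 344117) (nat_lit 21) (.e (nat_lit 516096) (nat_lit 0) (.e (nat_lit 7099) (nat_lit 380) (.e (nat_lit 164351) (nat_lit 246) .nil))))))) (.g (nat_lit 1) (.e (nat_lit 42515) (nat_lit 0) .nil) .nil)))) (.nd (nat_lit 9) 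
(.lf (nat_lit 455948) (.g (nat_lit 2411) (.e (nat_lit 2666) (nat_lit 167) (.e (nat_lit 196666) (nat_lit 13) (.e (nat_lit 65610) (nat_lit 10) (.e (nat_lit 344117) (nat_lit 21) (.e (nat_lit 516151) (nat_lit 9) (.e (nat_lit 426043) (nat_lit 0) (.e (nat_lit 3371) (nat_lit 208) (.e (nat_lit 622620) (nat_lit 13) .nil)))))))) (.g (nat_lit 1) (.e (nat_lit 41713) (nat_lit 0) .nil) .nil))) 
(.lf (nat_lit 456460) (.g (nat_lit 4422) (.e (nat_lit 2668) (nat_lit 167) (.e (nat_lit 196666) (nat_lit 13) (.e (nat_lit 65610) (nat_lit 10) (.e (nat_lit 344117) (nat_lit 21) (.e (nat_lit 516151) (nat_lit 9) (.e (nat_lit 426022) (nat_lit 0) (.e (nat_lit 7936) (nat_lit 208) (.e (nat_lit 622620) (nat_lit 13) .nil)))))))) (.g (nat_lit 1) (.e (nat_lit 42809) (nat_lit 0) .nil) .nil))))) 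
(.nd (nat_lit 8) (.nd (nat_lit 9) 
(.lf (nat_lit 455820) (.g (nat_lit 3110) (.e (nat_lit 2664) (nat_lit 167) (.e (nat_lit 196674) (nat_lit 15) (.e (nat_lit 81922) (nat_lit 0) (.e (nat_lit 3305) (nat_lit 202) (.e (nat_lit 573489) (nat_lit 14) (.e (nat_lit 73782) (nat_lit 32) .nil)))))) (.g (nat_lit 1) (.e (nat_lit 41441) (nat_lit 0) .nil) .nil))) 
(.lf (nat_lit 456332) (.g (nat_lit 3207) (.e (nat_lit 2668) (nat_lit 167) (.e (nat_lit 196666) (nat_lit 13) (.e (nat_lit 65610) (nat_lit 10) (.e (nat_lit 344117) (nat_lit 21) (.e (nat_lit 516138) (nat_lit 7) (.e (nat_lit 409617) (nat_lit 10) (.e (nat_lit 5612) (nat_lit 312) .nil))))))) (.g (nat_lit 1) (.e (nat_lit 42643) (nat_lit 0) .nil) .nil)))) (.nd (nat_lit 9) 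
(.lf (nat_lit 456076) (.g (nat_lit 3378) (.e (nat_lit 2667) (nat_lit 167) (.e (nat_lit 196669) (nat_lit 14) (.e (nat_lit 73755) (nat_lit 8) (.e (nat_lit 557105) (nat_lit 14) (.e (nat_lit 180252) (nat_lit 10) (.e (nat_lit 573474) (nat_lit 12) (.e (nat_lit 57508) (nat_lit 39) (.e (nat_lit 647175) (nat_lit 0) .nil)))))))) (.g (nat_lit 1) (.e (nat_lit 42023) (nat_lit 0) .nil) .nil))) 
(.lf (nat_lit 456588) (.g (nat_lit 2774) (.e (nat_lit 2668) (nat_lit 167) (.e (nat_lit 196666) (nat_lit 13) (.e (nat_lit 65610) (nat_lit 10) (.e (nat_lit 344117) (nat_lit 21) (.e (nat_lit 516160) (nat_lit 10) (.e (nat_lit 434263) (nat_lit 34) (.e (nat_lit 622621) (nat_lit 13) .nil))))))) (.g (nat_lit 1) (.e (nat_lit 42939) (nat_lit 0) .nil) .nil)))))) 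
(.nd (nat_lit 7) (.nd (nat_lit 8) (.nd (nat_lit 9) 
(.lf (nat_lit 455756) (.g (nat_lit 4105) (.e (nat_lit 2664) (nat_lit 167) (.e (nat_lit 196666) (nat_lit 13) (.e (nat_lit 65628) (nat_lit 14) (.e (nat_lit 401428) (nat_lit 3) (.e (nat_lit 204863) (nat_lit 27) (.e (nat_lit 344068) (nat_lit 0) .nil)))))) (.g (nat_lit 1) (.e (nat_lit 41364) (nat_lit 0) .nil) .nil))) 
(.lf (nat_lit 456268) (.g (nat_lit 4427) (.e (nat_lit 2668) (nat_lit 167) (.e (nat_lit 196666) (nat_lit 13) (.e (nat_lit 65610) (nat_lit 10) (.e (nat_lit 344117) (nat_lit 21) (.e (nat_lit 516106) (nat_lit 0) (.e (nat_lit 6986) (nat_lit 377) (.e (nat_lit 2403) (nat_lit 157) (.e (nat_lit 7936) (nat_lit 312) .nil)))))))) (.g (nat_lit 1) (.e (nat_lit 42579) (nat_lit 0) .nil) .nil)))) (.nd (nat_lit 9) 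
(.lf (nat_lit 456012) (.g (nat_lit 2007) (.e (nat_lit 2667) (nat_lit 167) (.e (nat_lit 196656) (nat_lit 11) (.e (nat_lit 16436) (nat_lit 9) (.e (nat_lit 426131) (nat_lit 3) (.e (nat_lit 204880) (nat_lit 32) (.e (nat_lit 385094) (nat_lit 49) (.e (nat_lit 778445) (nat_lit 9) .nil))))))) (.g (nat_lit 1) (.e (nat_lit 41875) (nat_lit 0) .nil) .nil))) 
(.lf (nat_lit 456524) (.g (nat_lit 3813) (.e (nat_lit 2668) (nat_lit 167) (.e (nat_lit 196666) (nat_lit 13) (.e (nat_lit 65610) (nat_lit 10) (.e (nat_lit 344117) (nat_lit 21) (.e (nat_lit 516151) (nat_lit 9) (.e (nat_lit 426042) (nat_lit 0) (.e (nat_lit 3371) (nat_lit 208) (.e (nat_lit 622623) (nat_lit 13) .nil)))))))) (.g (nat_lit 1) (.e (nat_lit 42873) (nat_lit 0) .nil) .nil))))) 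
(.nd (nat_lit 8) (.nd (nat_lit 9) 
(.lf (nat_lit 455884) (.g (nat_lit 2995) (.e (nat_lit 2666) (nat_lit 167) (.e (nat_lit 196666) (nat_lit 13) (.e (nat_lit 65610) (nat_lit 10) (.e (nat_lit 344117) (nat_lit 21) (.e (nat_lit 516102) (nat_lit 0) (.e (nat_lit 7107) (nat_lit 380) (.e (nat_lit 171776) (nat_lit 246) .nil))))))) (.g (nat_lit 1) (.e (nat_lit 41647) (nat_lit 0) .nil) .nil))) 
(.lf (nat_lit 456396) (.g (nat_lit 3846) (.e (nat_lit 2668) (nat_lit 167) (.e (nat_lit 196666) (nat_lit 13) (.e (nat_lit 65610) (nat_lit 10) (.e (nat_lit 344117) (nat_lit 21) (.e (nat_lit 516142) (nat_lit 8) (.e (nat_lit 417815) (nat_lit 10) (.e (nat_lit 5612) (nat_lit 312) .nil))))))) (.g (nat_lit 1) (.e (nat_lit 42707) (nat_lit 0) .nil) .nil)))) (.nd (nat_lit 9) 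
(.lf (nat_lit 456140) (.g (nat_lit 4010) (.e (nat_lit 2667) (nat_lit 167) (.e (nat_lit 196670) (nat_lit 14) (.e (nat_lit 73754) (nat_lit 8) (.e (nat_lit 557105) (nat_lit 14) (.e (nat_lit 180252) (nat_lit 10) (.e (nat_lit 573474) (nat_lit 12) (.e (nat_lit 57508) (nat_lit 39) (.e (nat_lit 647175) (nat_lit 0) .nil)))))))) (.g (nat_lit 1) (.e (nat_lit 42088) (nat_lit 0) .nil) .nil))) 
(.lf (nat_lit 456652) (.g (nat_lit 4481) (.e (nat_lit 2668) (nat_lit 167) (.e (nat_lit 196666) (nat_lit 13) (.e (nat_lit 65617) (nat_lit 10) (.e (nat_lit 344130) (nat_lit 26) (.e (nat_lit 557085) (nat_lit 11) (.e (nat_lit 24580) (nat_lit 0) (.e (nat_lit 6619) (nat_lit 357) .nil))))))) (.g (nat_lit 1) (.e (nat_lit 43090) (nat_lit 0) .nil) .nil))))))) 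
(.nd (nat_lit 6) (.nd (nat_lit 7) (.nd (nat_lit 8) (.nd (nat_lit 9) 
(.lf (nat_lit 455724) (.g (nat_lit 3168) (.e (nat_lit 2664) (nat_lit 167) (.e (nat_lit 196666) (nat_lit 13) (.e (nat_lit 65617) (nat_lit 10) (.e (nat_lit 344126) (nat_lit 25) (.e (nat_lit 548889) (nat_lit 9) (.e (nat_lit 65543) (nat_lit 0) (.e (nat_lit 6676) (nat_lit 357) .nil))))))) (.g (nat_lit 1) (.e (nat_lit 41326) (nat_lit 0) .nil) .nil))) 
(.lf (nat_lit 456236) (.g (nat_lit 4617) (.e (nat_lit 2668) (nat_lit 167) (.e (nat_lit 196666) (nat_lit 13) (.e (nat_lit 65610) (nat_lit 10) (.e (nat_lit 344117) (nat_lit 21) (.e (nat_lit 516098) (nat_lit 0) (.e (nat_lit 7109) (nat_lit 380) (.e (nat_lit 164351) (nat_lit 246) .nil))))))) (.g (nat_lit 1) (.e (nat_lit 42547) (nat_lit 0) .nil) .nil)))) (.nd (nat_lit 9) 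
(.lf (nat_lit 455980) (.g (nat_lit 3349) (.e (nat_lit 2666) (nat_lit 167) (.e (nat_lit 196666) (nat_lit 13) (.e (nat_lit 65610) (nat_lit 10) (.e (nat_lit 344129) (nat_lit 26) (.e (nat_lit 557087) (nat_lit 11) (.e (nat_lit 24584) (nat_lit 0) (.e (nat_lit 7936) (nat_lit 357) .nil))))))) (.g (nat_lit 1) (.e (nat_lit 41787) (nat_lit 0) .nil) .nil))) 
(.lf (nat_lit 456492) (.g (nat_lit 3829) (.e (nat_lit 2668) (nat_lit 167) (.e (nat_lit 196666) (nat_lit 13) (.e (nat_lit 65610) (nat_lit 10) (.e (nat_lit 344117) (nat_lit 21) (.e (nat_lit 516151) (nat_lit 9) (.e (nat_lit 426038) (nat_lit 0) (.e (nat_lit 3369) (nat_lit 208) (.e (nat_lit 622623) (nat_lit 13) .nil)))))))) (.g (nat_lit 1) (.e (nat_lit 42841) (nat_lit 0) .nil) .nil))))) 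
(.nd (nat_lit 8) (.nd (nat_lit 9) 
(.lf (nat_lit 455852) (.g (nat_lit 4556) (.e (nat_lit 2665) (nat_lit 167) (.e (nat_lit 196674) (nat_lit 15) (.e (nat_lit 81956) (nat_lit 23) (.e (nat_lit 98350) (nat_lit 24) (.e (nat_lit 409616) (nat_lit 10) .nil))))) (.g (nat_lit 0) (.e (nat_lit 41519) (nat_lit 0) .nil) .nil))) 
(.lf (nat_lit 456364) (.g (nat_lit 5051) (.e (nat_lit 2668) (nat_lit 167) (.e (nat_lit 196666) (nat_lit 13) (.e (nat_lit 65610) (nat_lit 10) (.e (nat_lit 344117) (nat_lit 21) (.e (nat_lit 516139) (nat_lit 7) (.e (nat_lit 409616) (nat_lit 10) (.e (nat_lit 7936) (nat_lit 312) .nil))))))) (.g (nat_lit 1) (.e (nat_lit 42675) (nat_lit 0) .nil) .nil)))) (.nd (nat_lit 9) 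
(.lf (nat_lit 456108) (.g (nat_lit 2978) (.e (nat_lit 2667) (nat_lit 167) (.e (nat_lit 196670) (nat_lit 14) (.e (nat_lit 73753) (nat_lit 8) (.e (nat_lit 557105) (nat_lit 14) (.e (nat_lit 180252) (nat_lit 10) (.e (nat_lit 573473) (nat_lit 12) (.e (nat_lit 57508) (nat_lit 39) (.e (nat_lit 647176) (nat_lit 0) .nil)))))))) (.g (nat_lit 1) (.e (nat_lit 42056) (nat_lit 0) .nil) .nil))) 
(.lf (nat_lit 456620) (.g (nat_lit 2366) (.e (nat_lit 2668) (nat_lit 167) (.e (nat_lit 196666) (nat_lit 13) (.e (nat_lit 65610) (nat_lit 10) (.e (nat_lit 344129) (nat_lit 26) (.e (nat_lit 557087) (nat_lit 11) (.e (nat_lit 32512) (nat_lit 0) (.e (nat_lit 6619) (nat_lit 357) .nil))))))) (.g (nat_lit 1) (.e (nat_lit 43019) (nat_lit 0) .nil) .nil)))))) 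
(.nd (nat_lit 7) (.nd (nat_lit 8) (.nd (nat_lit 9) 
(.lf (nat_lit 455788) (.g (nat_lit 2014) (.e (nat_lit 2664) (nat_lit 167) (.e (nat_lit 196672) (nat_lit 15) (.e (nat_lit 81943) (nat_lit 20) (.e (nat_lit 1842) (nat_lit 123) (.e (nat_lit 548887) (nat_lit 9) (.e (nat_lit 65540) (nat_lit 0) (.e (nat_lit 6681) (nat_lit 357) .nil))))))) (.g (nat_lit 1) (.e (nat_lit 41404) (nat_lit 0) .nil) .nil))) 
(.lf (nat_lit 456300) (.g (nat_lit 2819) (.e (nat_lit 2668) (nat_lit 167) (.e (nat_lit 196666) (nat_lit 13) (.e (nat_lit 65610) (nat_lit 10) (.e (nat_lit 344117) (nat_lit 21) (.e (nat_lit 516106) (nat_lit 0) (.e (nat_lit 7016) (nat_lit 377) (.e (nat_lit 2448) (nat_lit 157) (.e (nat_lit 5627) (nat_lit 312) .nil)))))))) (.g (nat_lit 1) (.e (nat_lit 42611) (nat_lit 0) .nil) .nil)))) (.nd (nat_lit 9) 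
(.lf (nat_lit 456044) (.g (nat_lit 5102) (.e (nat_lit 2667) (nat_lit 167) (.e (nat_lit 196668) (nat_lit 14) (.e (nat_lit 73753) (nat_lit 8) (.e (nat_lit 557103) (nat_lit 14) (.e (nat_lit 180250) (nat_lit 10) (.e (nat_lit 573475) (nat_lit 12) (.e (nat_lit 57507) (nat_lit 39) (.e (nat_lit 655104) (nat_lit 0) .nil)))))))) (.g (nat_lit 1) (.e (nat_lit 41948) (nat_lit 0) .nil) .nil))) 
(.lf (nat_lit 456556) (.g (nat_lit 2470) (.e (nat_lit 2668) (nat_lit 167) (.e (nat_lit 196666) (nat_lit 13) (.e (nat_lit 65610) (nat_lit 10) (.e (nat_lit 344117) (nat_lit 21) (.e (nat_lit 516151) (nat_lit 9) (.e (nat_lit 426104) (nat_lit 1) (.e (nat_lit 164254) (nat_lit 215) (.e (nat_lit 7936) (nat_lit 157) .nil)))))))) (.g (nat_lit 1) (.e (nat_lit 42905) (nat_lit 0) .nil) .nil))))) 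
(.nd (nat_lit 8) (.nd (nat_lit 9) 
(.lf (nat_lit 455916) (.g (nat_lit 5227) (.e (nat_lit 2666) (nat_lit 167) (.e (nat_lit 196666) (nat_lit 13) (.e (nat_lit 65610) (nat_lit 10) (.e (nat_lit 344117) (nat_lit 21) (.e (nat_lit 516151) (nat_lit 9) (.e (nat_lit 426020) (nat_lit 0) (.e (nat_lit 3368) (nat_lit 208) (.e (nat_lit 630528) (nat_lit 13) .nil)))))))) (.g (nat_lit 1) (.e (nat_lit 41681) (nat_lit 0) .nil) .nil))) 
(.lf (nat_lit 456428) (.g (nat_lit 4776) (.e (nat_lit 2668) (nat_lit 167) (.e (nat_lit 196666) (nat_lit 13) (.e (nat_lit 65610) (nat_lit 10) (.e (nat_lit 344117) (nat_lit 21) (.e (nat_lit 516151) (nat_lit 9) (.e (nat_lit 426017) (nat_lit 0) (.e (nat_lit 3372) (nat_lit 208) (.e (nat_lit 622620) (nat_lit 13) .nil)))))))) (.g (nat_lit 1) (.e (nat_lit 42777) (nat_lit 0) .nil) .nil)))) 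
(.nd (nat_lit 9) 
(.lf (nat_lit 456172) (.g (nat_lit 2047) (.e (nat_lit 2667) (nat_lit 167) (.e (nat_lit 196672) (nat_lit 15) (.e (nat_lit 81954) (nat_lit 23) (.e (nat_lit 98350) (nat_lit 24) (.e (nat_lit 417536) (nat_lit 10) .nil))))) (.g (nat_lit 0) (.e (nat_lit 42240) (nat_lit 0) .nil) .nil))) 
(.lf (nat_lit 456684) (.g (nat_lit 2027) (.e (nat_lit 2668) (nat_lit 167) (.e (nat_lit 196666) (nat_lit 13) (.e (nat_lit 65617) (nat_lit 10) (.e (nat_lit 344133) (nat_lit 26) (.e (nat_lit 557068) (nat_lit 9) .nil))))) (.g (nat_lit 0) (.e (nat_lit 43130) (nat_lit 0) .nil) .nil)))))))) (.nd (nat_lit 5) (.nd (nat_lit 6) (.nd (nat_lit 7) (.nd (nat_lit 8) (.nd (nat_lit 9) 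
(.lf (nat_lit 455708) (.g (nat_lit 3760) (.e (nat_lit 2664) (nat_lit 167) (.e (nat_lit 196666) (nat_lit 13) (.e (nat_lit 65610) (nat_lit 10) (.e (nat_lit 344129) (nat_lit 26) (.e (nat_lit 557087) (nat_lit 11) (.e (nat_lit 24584) (nat_lit 0) (.e (nat_lit 6651) (nat_lit 357) .nil))))))) (.g (nat_lit 1) (.e (nat_lit 41294) (nat_lit 0) .nil) .nil))) 
(.lf (nat_lit 456220) (.g (nat_lit 5054) (.e (nat_lit 2668) (nat_lit 167) (.e (nat_lit 196666) (nat_lit 13) (.e (nat_lit 65610) (nat_lit 10) (.e (nat_lit 344117) (nat_lit 21) (.e (nat_lit 516097) (nat_lit 0) (.e (nat_lit 7581) (nat_lit 405) (.e (nat_lit 65280) (nat_lit 201) .nil))))))) (.g (nat_lit 1) (.e (nat_lit 42531) (nat_lit 0) .nil) .nil)))) (.nd (nat_lit 9) 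
(.lf (nat_lit 455964) (.g (nat_lit 3449) (.e (nat_lit 2666) (nat_lit 167) (.e (nat_lit 196666) (nat_lit 13) (.e (nat_lit 65610) (nat_lit 10) (.e (nat_lit 344117) (nat_lit 21) (.e (nat_lit 516160) (nat_lit 10) (.e (nat_lit 434208) (nat_lit 18) (.e (nat_lit 4751) (nat_lit 281) (.e (nat_lit 2534) (nat_lit 157) .nil)))))))) (.g (nat_lit 1) (.e (nat_lit 41744) (nat_lit 0) .nil) .nil))) 
(.lf (nat_lit 456476) (.g (nat_lit 4287) (.e (nat_lit 2668) (nat_lit 167) (.e (nat_lit 196666) (nat_lit 13) (.e (nat_lit 65610) (nat_lit 10) (.e (nat_lit 344117) (nat_lit 21) (.e (nat_lit 516151) (nat_lit 9) (.e (nat_lit 426037) (nat_lit 0) (.e (nat_lit 2426) (nat_lit 157) (.e (nat_lit 4778) (nat_lit 281) (.e (nat_lit 2445) (nat_lit 157) .nil))))))))) (.g (nat_lit 1) (.e (nat_lit 42825) (nat_lit 0) .nil) .nil))))) 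
(.nd (nat_lit 8) (.nd (nat_lit 9) 
(.lf (nat_lit 455836) (.g (nat_lit 3257) (.e (nat_lit 2664) (nat_lit 167) (.e (nat_lit 196674) (nat_lit 15) (.e (nat_lit 81955) (nat_lit 23) (.e (nat_lit 98350) (nat_lit 24) (.e (nat_lit 409616) (nat_lit 10) (.e (nat_lit 5710) (nat_lit 312) .nil)))))) (.g (nat_lit 1) (.e (nat_lit 41460) (nat_lit 0) .nil) .nil))) 
(.lf (nat_lit 456348) (.g (nat_lit 2093) (.e (nat_lit 2668) (nat_lit 167) (.e (nat_lit 196666) (nat_lit 13) (.e (nat_lit 65610) (nat_lit 10) (.e (nat_lit 344117) (nat_lit 21) (.e (nat_lit 516139) (nat_lit 7) (.e (nat_lit 409609) (nat_lit 10) (.e (nat_lit 7936) (nat_lit 312) .nil))))))) (.g (nat_lit 1) (.e (nat_lit 42659) (nat_lit 0) .nil) .nil)))) (.nd (nat_lit 9) 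
(.lf (nat_lit 456092) (.g (nat_lit 3210) (.e (nat_lit 2667) (nat_lit 167) (.e (nat_lit 196670) (nat_lit 14) (.e (nat_lit 73753) (nat_lit 8) (.e (nat_lit 557103) (nat_lit 14) (.e (nat_lit 180250) (nat_lit 10) (.e (nat_lit 573473) (nat_lit 12) (.e (nat_lit 57511) (nat_lit 39) (.e (nat_lit 655104) (nat_lit 0) .nil)))))))) (.g (nat_lit 1) (.e (nat_lit 42040) (nat_lit 0) .nil) .nil))) 
(.lf (nat_lit 456604) (.g (nat_lit 1940) (.e (nat_lit 2668) (nat_lit 167) (.e (nat_lit 196666) (nat_lit 13) (.e (nat_lit 65610) (nat_lit 10) (.e (nat_lit 344129) (nat_lit 26) (.e (nat_lit 557074) (nat_lit 9) .nil))))) (.g (nat_lit 0) (.e (nat_lit 42996) (nat_lit 0) .nil) .nil)))))) (.nd (nat_lit 7) (.nd (nat_lit 8) (.nd (nat_lit 9) 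
(.lf (nat_lit 455772) (.g (nat_lit 2293) (.e (nat_lit 2664) (nat_lit 167) (.e (nat_lit 196672) (nat_lit 15) (.e (nat_lit 81922) (nat_lit 0) (.e (nat_lit 3305) (nat_lit 202) (.e (nat_lit 573487) (nat_lit 14) (.e (nat_lit 73781) (nat_lit 32) .nil)))))) (.g (nat_lit 1) (.e (nat_lit 41384) (nat_lit 0) .nil) .nil))) 
(.lf (nat_lit 456284) (.g (nat_lit 3427) (.e (nat_lit 2668) (nat_lit 167) (.e (nat_lit 196666) (nat_lit 13) (.e (nat_lit 65610) (nat_lit 10) (.e (nat_lit 344117) (nat_lit 21) (.e (nat_lit 516106) (nat_lit 0) (.e (nat_lit 7008) (nat_lit 377) (.e (nat_lit 2424) (nat_lit 157) (.e (nat_lit 5683) (nat_lit 312) .nil)))))))) (.g (nat_lit 1) (.e (nat_lit 42595) (nat_lit 0) .nil) .nil)))) (.nd (nat_lit 9) 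
(.lf (nat_lit 456028) (.g (nat_lit 4872) (.e (nat_lit 2667) (nat_lit 167) (.e (nat_lit 196668) (nat_lit 14) (.e (nat_lit 73753) (nat_lit 8) (.e (nat_lit 557103) (nat_lit 14) (.e (nat_lit 180250) (nat_lit 10) (.e (nat_lit 573473) (nat_lit 12) (.e (nat_lit 57507) (nat_lit 39) (.e (nat_lit 655104) (nat_lit 0) .nil)))))))) (.g (nat_lit 1) (.e (nat_lit 41932) (nat_lit 0) .nil) .nil))) 
(.lf (nat_lit 456540) (.g (nat_lit 4045) (.e (nat_lit 2668) (nat_lit 167) (.e (nat_lit 196666) (nat_lit 13) (.e (nat_lit 65610) (nat_lit 10) (.e (nat_lit 344117) (nat_lit 21) (.e (nat_lit 516151) (nat_lit 9) (.e (nat_lit 426050) (nat_lit 0) (.e (nat_lit 3366) (nat_lit 208) (.e (nat_lit 622620) (nat_lit 13) .nil)))))))) (.g (nat_lit 1) (.e (nat_lit 42889) (nat_lit 0) .nil) .nil))))) 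
(.nd (nat_lit 8) (.nd (nat_lit 9) 
(.lf (nat_lit 455900) (.g (nat_lit 2844) (.e (nat_lit 2666) (nat_lit 167) (.e (nat_lit 196666) (nat_lit 13) (.e (nat_lit 65610) (nat_lit 10) (.e (nat_lit 344117) (nat_lit 21) (.e (nat_lit 516143) (nat_lit 9) .nil))))) (.g (nat_lit 0) (.e (nat_lit 41664) (nat_lit 0) .nil) .nil))) 
(.lf (nat_lit 456412) (.g (nat_lit 2114) (.e (nat_lit 2668) (nat_lit 167) (.e (nat_lit 196666) (nat_lit 13) (.e (nat_lit 65610) (nat_lit 10) (.e (nat_lit 344117) (nat_lit 21) (.e (nat_lit 516142) (nat_lit 8) (.e (nat_lit 425728) (nat_lit 10) (.e (nat_lit 5627) (nat_lit 312) .nil))))))) (.g (nat_lit 1) (.e (nat_lit 42723) (nat_lit 0) .nil) .nil)))) (.nd (nat_lit 9) 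
(.lf (nat_lit 456156) (.g (nat_lit 2723) (.e (nat_lit 2667) (nat_lit 167) (.e (nat_lit 196670) (nat_lit 14) (.e (nat_lit 73755) (nat_lit 8) (.e (nat_lit 557105) (nat_lit 14) (.e (nat_lit 180252) (nat_lit 10) (.e (nat_lit 573474) (nat_lit 12) (.e (nat_lit 57508) (nat_lit 39) (.e (nat_lit 647176) (nat_lit 0) .nil)))))))) (.g (nat_lit 1) (.e (nat_lit 42104) (nat_lit 0) .nil) .nil))) 
(.lf (nat_lit 456668) (.g (nat_lit 3903) (.e (nat_lit 2668) (nat_lit 167) (.e (nat_lit 196666) (nat_lit 13) (.e (nat_lit 65617) (nat_lit 10) (.e (nat_lit 344130) (nat_lit 26) (.e (nat_lit 557087) (nat_lit 11) (.e (nat_lit 24594) (nat_lit 0) (.e (nat_lit 7936) (nat_lit 357) .nil))))))) (.g (nat_lit 1) (.e (nat_lit 43106) (nat_lit 0) .nil) .nil))))))) 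
(.nd (nat_lit 6) (.nd (nat_lit 7) (.nd (nat_lit 8) (.nd (nat_lit 9) 
(.lf (nat_lit 455740) (.g (nat_lit 1776) (.e (nat_lit 2664) (nat_lit 167) (.e (nat_lit 196666) (nat_lit 13) (.e (nat_lit 65617) (nat_lit 10) (.e (nat_lit 344132) (nat_lit 26) (.e (nat_lit 557073) (nat_lit 9) .nil))))) (.g (nat_lit 0) (.e (nat_lit 41342) (nat_lit 0) .nil) .nil))) 
(.lf (nat_lit 456252) (.g (nat_lit 2144) (.e (nat_lit 2668) (nat_lit 167) (.e (nat_lit 196666) (nat_lit 13) (.e (nat_lit 65610) (nat_lit 10) (.e (nat_lit 344117) (nat_lit 21) (.e (nat_lit 516102) (nat_lit 0) (.e (nat_lit 6989) (nat_lit 377) (.e (nat_lit 2397) (nat_lit 157) (.e (nat_lit 5627) (nat_lit 312) .nil)))))))) (.g (nat_lit 1) (.e (nat_lit 42563) (nat_lit 0) .nil) .nil)))) (.nd (nat_lit 9) 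
(.lf (nat_lit 455996) (.g (nat_lit 2276) (.e (nat_lit 2666) (nat_lit 167) (.e (nat_lit 196666) (nat_lit 13) (.e (nat_lit 65630) (nat_lit 14) (.e (nat_lit 401425) (nat_lit 2) .nil)))) (.g (nat_lit 0) (.e (nat_lit 41834) (nat_lit 0) .nil) .nil))) 
(.lf (nat_lit 456508) (.g (nat_lit 3385) (.e (nat_lit 2668) (nat_lit 167) (.e (nat_lit 196666) (nat_lit 13) (.e (nat_lit 65610) (nat_lit 10) (.e (nat_lit 344117) (nat_lit 21) (.e (nat_lit 516151) (nat_lit 9) (.e (nat_lit 426042) (nat_lit 0) (.e (nat_lit 2426) (nat_lit 157) (.e (nat_lit 4778) (nat_lit 281) (.e (nat_lit 2445) (nat_lit 157) .nil))))))))) (.g (nat_lit 1) (.e (nat_lit 42857) (nat_lit 0) .nil) .nil))))) 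
(.nd (nat_lit 8) (.nd (nat_lit 9) 
(.lf (nat_lit 455868) (.g (nat_lit 994) (.e (nat_lit 2666) (nat_lit 167) (.e (nat_lit 196666) (nat_lit 13) (.e (nat_lit 65570) (nat_lit 3) .nil))) (.g (nat_lit 0) (.e (nat_lit 41562) (nat_lit 0) .nil) .nil))) 
(.lf (nat_lit 456380) (.g (nat_lit 2559) (.e (nat_lit 2668) (nat_lit 167) (.e (nat_lit 196666) (nat_lit 13) (.e (nat_lit 65610) (nat_lit 10) (.e (nat_lit 344117) (nat_lit 21) (.e (nat_lit 516141) (nat_lit 8) (.e (nat_lit 417814) (nat_lit 10) (.e (nat_lit 5628) (nat_lit 312) .nil))))))) (.g (nat_lit 1) (.e (nat_lit 42691) (nat_lit 0) .nil) .nil)))) (.nd (nat_lit 9) 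
(.lf (nat_lit 456124) (.g (nat_lit 3914) (.e (nat_lit 2667) (nat_lit 167) (.e (nat_lit 196670) (nat_lit 14) (.e (nat_lit 73753) (nat_lit 8) (.e (nat_lit 557105) (nat_lit 14) (.e (nat_lit 180252) (nat_lit 10) (.e (nat_lit 573475) (nat_lit 12) (.e (nat_lit 57509) (nat_lit 39) (.e (nat_lit 655104) (nat_lit 0) .nil)))))))) (.g (nat_lit 1) (.e (nat_lit 42072) (nat_lit 0) .nil) .nil))) 
(.lf (nat_lit 456636) (.g (nat_lit 2694) (.e (nat_lit 2668) (nat_lit 167) (.e (nat_lit 196666) (nat_lit 13) (.e (nat_lit 65617) (nat_lit 10) (.e (nat_lit 344120) (nat_lit 21) (.e (nat_lit 516139) (nat_lit 7) (.e (nat_lit 409616) (nat_lit 10) (.e (nat_lit 7936) (nat_lit 312) .nil))))))) (.g (nat_lit 1) (.e (nat_lit 43044) (nat_lit 0) .nil) .nil)))))) 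
(.nd (nat_lit 7) (.nd (nat_lit 8) (.nd (nat_lit 9) 
(.lf (nat_lit 455804) (.g (nat_lit 1793) (.e (nat_lit 2664) (nat_lit 167) (.e (nat_lit 196672) (nat_lit 15) (.e (nat_lit 81954) (nat_lit 23) (.e (nat_lit 98352) (nat_lit 25) (.e (nat_lit 417817) (nat_lit 10) (.e (nat_lit 5728) (nat_lit 312) .nil)))))) (.g (nat_lit 1) (.e (nat_lit 41425) (nat_lit 0) .nil) .nil))) 
(.lf (nat_lit 456316) (.g (nat_lit 3497) (.e (nat_lit 2668) (nat_lit 167) (.e (nat_lit 196666) (nat_lit 13) (.e (nat_lit 65610) (nat_lit 10) (.e (nat_lit 344117) (nat_lit 21) (.e (nat_lit 516138) (nat_lit 7) (.e (nat_lit 409611) (nat_lit 10) (.e (nat_lit 5616) (nat_lit 312) .nil))))))) (.g (nat_lit 1) (.e (nat_lit 42627) (nat_lit 0) .nil) .nil)))) (.nd (nat_lit 9) 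
(.lf (nat_lit 456060) (.g (nat_lit 2887) (.e (nat_lit 2667) (nat_lit 167) (.e (nat_lit 196668) (nat_lit 14) (.e (nat_lit 73753) (nat_lit 8) (.e (nat_lit 557105) (nat_lit 14) (.e (nat_lit 180252) (nat_lit 10) (.e (nat_lit 573475) (nat_lit 12) (.e (nat_lit 57508) (nat_lit 39) (.e (nat_lit 647175) (nat_lit 0) .nil)))))))) (.g (nat_lit 1) (.e (nat_lit 41964) (nat_lit 0) .nil) .nil))) 
(.lf (nat_lit 456572) (.g (nat_lit 3331) (.e (nat_lit 2668) (nat_lit 167) (.e (nat_lit 196666) (nat_lit 13) (.e (nat_lit 65610) (nat_lit 10) (.e (nat_lit 344117) (nat_lit 21) (.e (nat_lit 516159) (nat_lit 10) (.e (nat_lit 434208) (nat_lit 18) (.e (nat_lit 4754) (nat_lit 281) (.e (nat_lit 7936) (nat_lit 157) .nil)))))))) (.g (nat_lit 1) (.e (nat_lit 42923) (nat_lit 0) .nil) .nil))))) 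
(.nd (nat_lit 8) (.nd (nat_lit 9) 
(.lf (nat_lit 455932) (.g (nat_lit 2587) (.e (nat_lit 2666) (nat_lit 167) (.e (nat_lit 196666) (nat_lit 13) (.e (nat_lit 65610) (nat_lit 10) (.e (nat_lit 344117) (nat_lit 21) (.e (nat_lit 516151) (nat_lit 9) (.e (nat_lit 426023) (nat_lit 0) (.e (nat_lit 7936) (nat_lit 208) (.e (nat_lit 622620) (nat_lit 13) .nil)))))))) (.g (nat_lit 1) (.e (nat_lit 41697) (nat_lit 0) .nil) .nil))) 
(.lf (nat_lit 456444) (.g (nat_lit 4443) (.e (nat_lit 2668) (nat_lit 167) (.e (nat_lit 196666) (nat_lit 13) (.e (nat_lit 65610) (nat_lit 10) (.e (nat_lit 344117) (nat_lit 21) (.e (nat_lit 516151) (nat_lit 9) (.e (nat_lit 426020) (nat_lit 0) (.e (nat_lit 7936) (nat_lit 208) (.e (nat_lit 622620) (nat_lit 13) .nil)))))))) (.g (nat_lit 1) (.e (nat_lit 42793) (nat_lit 0) .nil) .nil)))) 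
(.nd (nat_lit 9) 
(.lf (nat_lit 456188) (.g (nat_lit 3286) (.e (nat_lit 2668) (nat_lit 167) (.e (nat_lit 196663) (nat_lit 13) (.e (nat_lit 65630) (nat_lit 14) (.e (nat_lit 401425) (nat_lit 2) (.e (nat_lit 196670) (nat_lit 14) (.e (nat_lit 81664) (nat_lit 32) .nil)))))) (.g (nat_lit 1) (.e (nat_lit 42451) (nat_lit 0) .nil) .nil))) 
(.lf (nat_lit 456700) (.g (nat_lit 3080) (.e (nat_lit 2668) (nat_lit 167) (.e (nat_lit 196666) (nat_lit 13) (.e (nat_lit 65619) (nat_lit 10) (.e (nat_lit 344117) (nat_lit 21) (.e (nat_lit 516141) (nat_lit 8) (.e (nat_lit 417816) (nat_lit 10) (.e (nat_lit 5612) (nat_lit 312) .nil))))))) (.g (nat_lit 1) (.e (nat_lit 43163) (nat_lit 0) .nil) .nil))))))))))) 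
(.nd (nat_lit 2) (.nd (nat_lit 3) (.nd (nat_lit 4) (.nd (nat_lit 5) (.nd (nat_lit 6) 
(.nd (nat_lit 7) (.nd (nat_lit 8) (.nd (nat_lit 9) 
(.lf (nat_lit 455682) (.g (nat_lit 2793) (.e (nat_lit 2664) (nat_lit 167) (.e (nat_lit 196666) (nat_lit 13) (.e (nat_lit 65610) (nat_lit 10) (.e (nat_lit 344117) (nat_lit 21) (.e (nat_lit 516160) (nat_lit 10) (.e (nat_lit 434203) (nat_lit 18) (.e (nat_lit 4758) (nat_lit 281) (.e (nat_lit 2517) (nat_lit 157) .nil)))))))) (.g (nat_lit 1) (.e (nat_lit 41263) (nat_lit 0) .nil) .nil))) 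
(.lf (nat_lit 456194) (.g (nat_lit 805) (.e (nat_lit 2668) (nat_lit 167) (.e (nat_lit 196666) (nat_lit 13) (.e (nat_lit 65592) (nat_lit 9) .nil))) (.g (nat_lit 0) (.e (nat_lit 42489) (nat_lit 0) .nil) .nil)))) (.nd (nat_lit 9) 
(.lf (nat_lit 455938) (.g (nat_lit 2572) (.e (nat_lit 2666) (nat_lit 167) (.e (nat_lit 196666) (nat_lit 13) (.e (nat_lit 65610) (nat_lit 10) (.e (nat_lit 344117) (nat_lit 21) (.e (nat_lit 516151) (nat_lit 9) (.e (nat_lit 426042) (nat_lit 0) (.e (nat_lit 2425) (nat_lit 157) (.e (nat_lit 4821) (nat_lit 281) (.e (nat_lit 2416) (nat_lit 157) .nil))))))))) (.g (nat_lit 1) (.e (nat_lit 41703) (nat_lit 0) .nil) .nil))) 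
(.lf (nat_lit 456450) (.g (nat_lit 4043) (.e (nat_lit 2668) (nat_lit 167) (.e (nat_lit 196666) (nat_lit 13) (.e (nat_lit 65610) (nat_lit 10) (.e (nat_lit 344117) (nat_lit 21) (.e (nat_lit 516151) (nat_lit 9) (.e (nat_lit 426021) (nat_lit 0) (.e (nat_lit 3368) (nat_lit 208) (.e (nat_lit 622624) (nat_lit 13) .nil)))))))) (.g (nat_lit 1) (.e (nat_lit 42799) (nat_lit 0) .nil) .nil))))) 
(.nd (nat_lit 8) (.nd (nat_lit 9) 
(.lf (nat_lit 455810) (.g (nat_lit 4395) (.e (nat_lit 2664) (nat_lit 167) (.e (nat_lit 196672) (nat_lit 15) (.e (nat_lit 81956) (nat_lit 23) (.e (nat_lit 98350) (nat_lit 24) (.e (nat_lit 409617) (nat_lit 10) (.e (nat_lit 5710) (nat_lit 312) .nil)))))) (.g (nat_lit 1) (.e (nat_lit 41431) (nat_lit 0) .nil) .nil))) 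
(.lf (nat_lit 456322) (.g (nat_lit 2801) (.e (nat_lit 2668) (nat_lit 167) (.e (nat_lit 196666) (nat_lit 13) (.e (nat_lit 65610) (nat_lit 10) (.e (nat_lit 344117) (nat_lit 21) (.e (nat_lit 516138) (nat_lit 7) (.e (nat_lit 409613) (nat_lit 10) (.e (nat_lit 5616) (nat_lit 312) .nil))))))) (.g (nat_lit 1) (.e (nat_lit 42633) (nat_lit 0) .nil) .nil)))) (.nd (nat_lit 9) 
(.lf (nat_lit 456066) (.g (nat_lit 2372) (.e (nat_lit 2667) (nat_lit 167) (.e (nat_lit 196668) (nat_lit 14) (.e (nat_lit 73755) (nat_lit 8) (.e (nat_lit 557105) (nat_lit 14) (.e (nat_lit 180252) (nat_lit 10) (.e (nat_lit 573474) (nat_lit 12) (.e (nat_lit 57506) (nat_lit 39) (.e (nat_lit 655104) (nat_lit 0) .nil)))))))) (.g (nat_lit 1) (.e (nat_lit 41970) (nat_lit 0) .nil) .nil))) 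
(.lf (nat_lit 456578) (.g (nat_lit 2468) (.e (nat_lit 2668) (nat_lit 167) (.e (nat_lit 196666) (nat_lit 13) (.e (nat_lit 65610) (nat_lit 10) (.e (nat_lit 344117) (nat_lit 21) (.e (nat_lit 516160) (nat_lit 10) (.e (nat_lit 434202) (nat_lit 18) (.e (nat_lit 4751) (nat_lit 281) (.e (nat_lit 2399) (nat_lit 157) .nil)))))))) (.g (nat_lit 1) (.e (nat_lit 42929) (nat_lit 0) .nil) .nil)))))) 
(.nd (nat_lit 7) (.nd (nat_lit 8) (.nd (nat_lit 9) 
(.lf (nat_lit 455746) (.g (nat_lit 3161) (.e (nat_lit 2664) (nat_lit 167) (.e (nat_lit 196666) (nat_lit 13) (.e (nat_lit 65622) (nat_lit 12) (.e (nat_lit 385074) (nat_lit 31) (.e (nat_lit 573489) (nat_lit 14) (.e (nat_lit 73781) (nat_lit 32) .nil)))))) (.g (nat_lit 1) (.e (nat_lit 41348) (nat_lit 0) .nil) .nil))) 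
(.lf (nat_lit 456258) (.g (nat_lit 2928) (.e (nat_lit 2668) (nat_lit 167) (.e (nat_lit 196666) (nat_lit 13) (.e (nat_lit 65610) (nat_lit 10) (.e (nat_lit 344117) (nat_lit 21) (.e (nat_lit 516102) (nat_lit 0) (.e (nat_lit 7116) (nat_lit 381) (.e (nat_lit 229683) (nat_lit 246) .nil))))))) (.g (nat_lit 1) (.e (nat_lit 42569) (nat_lit 0) .nil) .nil)))) (.nd (nat_lit 9) 
(.lf (nat_lit 456002) (.g (nat_lit 2644) (.e (nat_lit 2666) (nat_lit 167) (.e (nat_lit 196670) (nat_lit 14) (.e (nat_lit 73754) (nat_lit 8) (.e (nat_lit 557105) (nat_lit 14) (.e (nat_lit 180252) (nat_lit 10) (.e (nat_lit 573475) (nat_lit 12) (.e (nat_lit 57507) (nat_lit 39) (.e (nat_lit 655104) (nat_lit 0) .nil)))))))) (.g (nat_lit 1) (.e (nat_lit 41854) (nat_lit 0) .nil) .nil))) 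
(.lf (nat_lit 456514) (.g (nat_lit 2839) (.e (nat_lit 2668) (nat_lit 167) (.e (nat_lit 196666) (nat_lit 13) (.e (nat_lit 65610) (nat_lit 10) (.e (nat_lit 344117) (nat_lit 21) (.e (nat_lit 516151) (nat_lit 9) (.e (nat_lit 426042) (nat_lit 0) (.e (nat_lit 3366) (nat_lit 208) (.e (nat_lit 622622) (nat_lit 13) .nil)))))))) (.g (nat_lit 1) (.e (nat_lit 42863) (nat_lit 0) .nil) .nil))))) 
(.nd (nat_lit 8) (.nd (nat_lit 9) 
(.lf (nat_lit 455874) (.g (nat_lit 2443) (.e (nat_lit 2666) (nat_lit 167) (.e (nat_lit 196666) (nat_lit 13) (.e (nat_lit 65571) (nat_lit 3) (.e (nat_lit 98334) (nat_lit 18) .nil)))) (.g (nat_lit 0) (.e (nat_lit 41570) (nat_lit 0) .nil) .nil))) 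
(.lf (nat_lit 456386) (.g (nat_lit 3003) (.e (nat_lit 2668) (nat_lit 167) (.e (nat_lit 196666) (nat_lit 13) (.e (nat_lit 65610) (nat_lit 10) (.e (nat_lit 344117) (nat_lit 21) (.e (nat_lit 516141) (nat_lit 8) (.e (nat_lit 417817) (nat_lit 10) (.e (nat_lit 7936) (nat_lit 312) .nil))))))) (.g (nat_lit 1) (.e (nat_lit 42697) (nat_lit 0) .nil) .nil)))) (.nd (nat_lit 9) 
(.lf (nat_lit 456130) (.g (nat_lit 2172) (.e (nat_lit 2667) (nat_lit 167) (.e (nat_lit 196670) (nat_lit 14) (.e (nat_lit 73754) (nat_lit 8) (.e (nat_lit 557105) (nat_lit 14) (.e (nat_lit 180252) (nat_lit 10) (.e (nat_lit 573473) (nat_lit 12) (.e (nat_lit 57507) (nat_lit 39) (.e (nat_lit 647175) (nat_lit 0) .nil)))))))) (.g (nat_lit 1) (.e (nat_lit 42078) (nat_lit 0) .nil) .nil))) 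
(.lf (nat_lit 456642) (.g (nat_lit 2637) (.e (nat_lit 2668) (nat_lit 167) (.e (nat_lit 196666) (nat_lit 13) (.e (nat_lit 65617) (nat_lit 10) (.e (nat_lit 344127) (nat_lit 26) (.e (nat_lit 557086) (nat_lit 11) (.e (nat_lit 24580) (nat_lit 0) (.e (nat_lit 6619) (nat_lit 357) .nil))))))) (.g (nat_lit 1) (.e (nat_lit 43062) (nat_lit 0) .nil) .nil))))))) 
(.nd (nat_lit 6) (.nd (nat_lit 7) (.nd (nat_lit 8) (.nd (nat_lit 9) 
(.lf (nat_lit 455714) (.g (nat_lit 1350) (.e (nat_lit 2664) (nat_lit 167) (.e (nat_lit 196666) (nat_lit 13) (.e (nat_lit 65617) (nat_lit 10) (.e (nat_lit 344089) (nat_lit 18) .nil)))) (.g (nat_lit 0) (.e (nat_lit 41301) (nat_lit 0) .nil) .nil))) 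
(.lf (nat_lit 456226) (.g (nat_lit 2498) (.e (nat_lit 2668) (nat_lit 167) (.e (nat_lit 196666) (nat_lit 13) (.e (nat_lit 65610) (nat_lit 10) (.e (nat_lit 344117) (nat_lit 21) (.e (nat_lit 516098) (nat_lit 0) (.e (nat_lit 7030) (nat_lit 377) (.e (nat_lit 2443) (nat_lit 157) (.e (nat_lit 5627) (nat_lit 312) .nil)))))))) (.g (nat_lit 1) (.e (nat_lit 42537) (nat_lit 0) .nil) .nil)))) (.nd (nat_lit 9) 
(.lf (nat_lit 455970) (.g (nat_lit 2033) (.e (nat_lit 2666) (nat_lit 167) (.e (nat_lit 196666) (nat_lit 13) (.e (nat_lit 65610) (nat_lit 10) (.e (nat_lit 344129) (nat_lit 26) (.e (nat_lit 557067) (nat_lit 9) .nil))))) (.g (nat_lit 0) (.e (nat_lit 41772) (nat_lit 0) .nil) .nil))) 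
(.lf (nat_lit 456482) (.g (nat_lit 3960) (.e (nat_lit 2668) (nat_lit 167) (.e (nat_lit 196666) (nat_lit 13) (.e (nat_lit 65610) (nat_lit 10) (.e (nat_lit 344117) (nat_lit 21) (.e (nat_lit 516151) (nat_lit 9) (.e (nat_lit 426037) (nat_lit 0) (.e (nat_lit 3370) (nat_lit 208) (.e (nat_lit 622623) (nat_lit 13) .nil)))))))) (.g (nat_lit 1) (.e (nat_lit 42831) (nat_lit 0) .nil) .nil))))) 
(.nd (nat_lit 8) (.nd (nat_lit 9) 
(.lf (nat_lit 455842) (.g (nat_lit 3499) (.e (nat_lit 2665) (nat_lit 167) (.e (nat_lit 196666) (nat_lit 13) (.e (nat_lit 65610) (nat_lit 10) (.e (nat_lit 344117) (nat_lit 21) (.e (nat_lit 516151) (nat_lit 9) (.e (nat_lit 426022) (nat_lit 0) (.e (nat_lit 7936) (nat_lit 208) (.e (nat_lit 622627) (nat_lit 13) .nil)))))))) (.g (nat_lit 1) (.e (nat_lit 41503) (nat_lit 0) .nil) .nil))) 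
(.lf (nat_lit 456354) (.g (nat_lit 3466) (.e (nat_lit 2668) (nat_lit 167) (.e (nat_lit 196666) (nat_lit 13) (.e (nat_lit 65610) (nat_lit 10) (.e (nat_lit 344117) (nat_lit 21) (.e (nat_lit 516139) (nat_lit 7) (.e (nat_lit 409612) (nat_lit 10) (.e (nat_lit 5615) (nat_lit 312) .nil))))))) (.g (nat_lit 1) (.e (nat_lit 42665) (nat_lit 0) .nil) .nil)))) (.nd (nat_lit 9) 
(.lf (nat_lit 456098) (.g (nat_lit 2433) (.e (nat_lit 2667) (nat_lit 167) (.e (nat_lit 196670) (nat_lit 14) (.e (nat_lit 73753) (nat_lit 8) (.e (nat_lit 557103) (nat_lit 14) (.e (nat_lit 180250) (nat_lit 10) (.e (nat_lit 573477) (nat_lit 12) (.e (nat_lit 57509) (nat_lit 39) (.e (nat_lit 655104) (nat_lit 0) .nil)))))))) (.g (nat_lit 1) (.e (nat_lit 42046) (nat_lit 0) .nil) .nil))) 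
(.lf (nat_lit 456610) (.g (nat_lit 4453) (.e (nat_lit 2668) (nat_lit 167) (.e (nat_lit 196666) (nat_lit 13) (.e (nat_lit 65610) (nat_lit 10) (.e (nat_lit 344129) (nat_lit 26) (.e (nat_lit 557087) (nat_lit 11) (.e (nat_lit 24577) (nat_lit 0) (.e (nat_lit 6619) (nat_lit 357) .nil))))))) (.g (nat_lit 1) (.e (nat_lit 43009) (nat_lit 0) .nil) .nil)))))) 
(.nd (nat_lit 7) (.nd (nat_lit 8) (.nd (nat_lit 9) 
(.lf (nat_lit 455778) (.g (nat_lit 734) (.e (nat_lit 2664) (nat_lit 167) (.e (nat_lit 196672) (nat_lit 15) (.e (nat_lit 81938) (nat_lit 20) .nil))) (.g (nat_lit 0) (.e (nat_lit 41394) (nat_lit 0) .nil) .nil))) 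
(.lf (nat_lit 456290) (.g (nat_lit 2097) (.e (nat_lit 2668) (nat_lit 167) (.e (nat_lit 196666) (nat_lit 13) (.e (nat_lit 65610) (nat_lit 10) (.e (nat_lit 344117) (nat_lit 21) (.e (nat_lit 516106) (nat_lit 0) (.e (nat_lit 7008) (nat_lit 377) (.e (nat_lit 2429) (nat_lit 157) (.e (nat_lit 5628) (nat_lit 312) .nil)))))))) (.g (nat_lit 1) (.e (nat_lit 42601) (nat_lit 0) .nil) .nil)))) (.nd (nat_lit 9) 
(.lf (nat_lit 456034) (.g (nat_lit 4133) (.e (nat_lit 2667) (nat_lit 167) (.e (nat_lit 196668) (nat_lit 14) (.e (nat_lit 73753) (nat_lit 8) (.e (nat_lit 557103) (nat_lit 14) (.e (nat_lit 180250) (nat_lit 10) (.e (nat_lit 573474) (nat_lit 12) (.e (nat_lit 57507) (nat_lit 39) (.e (nat_lit 647176) (nat_lit 0) .nil)))))))) (.g (nat_lit 1) (.e (nat_lit 41938) (nat_lit 0) .nil) .nil))) 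
(.lf (nat_lit 456546) (.g (nat_lit 4461) (.e (nat_lit 2668) (nat_lit 167) (.e (nat_lit 196666) (nat_lit 13) (.e (nat_lit 65610) (nat_lit 10) (.e (nat_lit 344117) (nat_lit 21) (.e (nat_lit 516151) (nat_lit 9) (.e (nat_lit 426047) (nat_lit 0) (.e (nat_lit 3366) (nat_lit 208) (.e (nat_lit 622624) (nat_lit 13) .nil)))))))) (.g (nat_lit 1) (.e (nat_lit 42895) (nat_lit 0) .nil) .nil))))) 
(.nd (nat_lit 8) (.nd (nat_lit 9) 
(.lf (nat_lit 455906) (.g (nat_lit 5112) (.e (nat_lit 2666) (nat_lit 167) (.e (nat_lit 196666) (nat_lit 13) (.e (nat_lit 65610) (nat_lit 10) (.e (nat_lit 344117) (nat_lit 21) (.e (nat_lit 516151) (nat_lit 9) (.e (nat_lit 426017) (nat_lit 0) (.e (nat_lit 3368) (nat_lit 208) (.e (nat_lit 630528) (nat_lit 13) .nil)))))))) (.g (nat_lit 1) (.e (nat_lit 41671) (nat_lit 0) .nil) .nil))) 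
(.lf (nat_lit 456418) (.g (nat_lit 2246) (.e (nat_lit 2668) (nat_lit 167) (.e (nat_lit 196666) (nat_lit 13) (.e (nat_lit 65610) (nat_lit 10) (.e (nat_lit 344117) (nat_lit 21) (.e (nat_lit 516151) (nat_lit 9) (.e (nat_lit 426003) (nat_lit 0) (.e (nat_lit 3366) (nat_lit 208) (.e (nat_lit 622624) (nat_lit 13) .nil)))))))) (.g (nat_lit 1) (.e (nat_lit 42767) (nat_lit 0) .nil) .nil)))) 
(.nd (nat_lit 9) 
(.lf (nat_lit 456162) (.g (nat_lit 2528) (.e (nat_lit 2667) (nat_lit 167) (.e (nat_lit 196672) (nat_lit 15) (.e (nat_lit 81954) (nat_lit 23) (.e (nat_lit 98349) (nat_lit 24) (.e (nat_lit 409612) (nat_lit 10) .nil))))) (.g (nat_lit 0) (.e (nat_lit 42230) (nat_lit 0) .nil) .nil))) 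
(.lf (nat_lit 456674) (.g (nat_lit 2159) (.e (nat_lit 2668) (nat_lit 167) (.e (nat_lit 196666) (nat_lit 13) (.e (nat_lit 65617) (nat_lit 10) (.e (nat_lit 344132) (nat_lit 26) (.e (nat_lit 557072) (nat_lit 9) .nil))))) (.g (nat_lit 0) (.e (nat_lit 43112) (nat_lit 0) .nil) .nil)))))))) (.nd (nat_lit 5) (.nd (nat_lit 6) (.nd (nat_lit 7) (.nd (nat_lit 8) (.nd (nat_lit 9) 
(.lf (nat_lit 455698) (.g (nat_lit 2396) (.e (nat_lit 2664) (nat_lit 167) (.e (nat_lit 196666) (nat_lit 13) (.e (nat_lit 65610) (nat_lit 10) (.e (nat_lit 344126) (nat_lit 25) (.e (nat_lit 548889) (nat_lit 9) (.e (nat_lit 65537) (nat_lit 0) (.e (nat_lit 6654) (nat_lit 357) .nil))))))) (.g (nat_lit 1) (.e (nat_lit 41283) (nat_lit 0) .nil) .nil))) 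
(.lf (nat_lit 456210) (.g (nat_lit 3173) (.e (nat_lit 2668) (nat_lit 167) (.e (nat_lit 196666) (nat_lit 13) (.e (nat_lit 65610) (nat_lit 10) (.e (nat_lit 344117) (nat_lit 21) (.e (nat_lit 516096) (nat_lit 0) (.e (nat_lit 7116) (nat_lit 381) (.e (nat_lit 229683) (nat_lit 246) .nil))))))) (.g (nat_lit 1) (.e (nat_lit 42521) (nat_lit 0) .nil) .nil)))) (.nd (nat_lit 9) 
(.lf (nat_lit 455954) (.g (nat_lit 3184) (.e (nat_lit 2666) (nat_lit 167) (.e (nat_lit 196666) (nat_lit 13) (.e (nat_lit 65610) (nat_lit 10) (.e (nat_lit 344117) (nat_lit 21) (.e (nat_lit 516151) (nat_lit 9) (.e (nat_lit 426097) (nat_lit 1) (.e (nat_lit 164260) (nat_lit 215) (.e (nat_lit 2416) (nat_lit 157) .nil)))))))) (.g (nat_lit 1) (.e (nat_lit 41719) (nat_lit 0) .nil) .nil))) 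
(.lf (nat_lit 456466) (.g (nat_lit 2859) (.e (nat_lit 2668) (nat_lit 167) (.e (nat_lit 196666) (nat_lit 13) (.e (nat_lit 65610) (nat_lit 10) (.e (nat_lit 344117) (nat_lit 21) (.e (nat_lit 516151) (nat_lit 9) (.e (nat_lit 426026) (nat_lit 0) (.e (nat_lit 3367) (nat_lit 208) (.e (nat_lit 622624) (nat_lit 13) .nil)))))))) (.g (nat_lit 1) (.e (nat_lit 42815) (nat_lit 0) .nil) .nil))))) 
(.nd (nat_lit 8) (.nd (nat_lit 9) 
(.lf (nat_lit 455826) (.g (nat_lit 3129) (.e (nat_lit 2664) (nat_lit 167) (.e (nat_lit 196674) (nat_lit 15) (.e (nat_lit 81946) (nat_lit 20) (.e (nat_lit 1842) (nat_lit 123) (.e (nat_lit 548889) (nat_lit 9) (.e (nat_lit 65540) (nat_lit 0) (.e (nat_lit 6681) (nat_lit 357) .nil))))))) (.g (nat_lit 1) (.e (nat_lit 41449) (nat_lit 0) .nil) .nil))) 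
(.lf (nat_lit 456338) (.g (nat_lit 1989) (.e (nat_lit 2668) (nat_lit 167) (.e (nat_lit 196666) (nat_lit 13) (.e (nat_lit 65610) (nat_lit 10) (.e (nat_lit 344117) (nat_lit 21) (.e (nat_lit 516139) (nat_lit 7) .nil))))) (.g (nat_lit 0) (.e (nat_lit 42649) (nat_lit 0) .nil) .nil)))) (.nd (nat_lit 9) 
(.lf (nat_lit 456082) (.g (nat_lit 3449) (.e (nat_lit 2667) (nat_lit 167) (.e (nat_lit 196670) (nat_lit 14) (.e (nat_lit 73746) (nat_lit 3) (.e (nat_lit 516129) (nat_lit 3) (.e (nat_lit 221210) (nat_lit 22) (.e (nat_lit 196658) (nat_lit 12) (.e (nat_lit 57508) (nat_lit 39) (.e (nat_lit 655104) (nat_lit 0) .nil)))))))) (.g (nat_lit 1) (.e (nat_lit 42029) (nat_lit 0) .nil) .nil))) 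
(.lf (nat_lit 456594) (.g (nat_lit 3101) (.e (nat_lit 2668) (nat_lit 167) (.e (nat_lit 196666) (nat_lit 13) (.e (nat_lit 65610) (nat_lit 10) (.e (nat_lit 344117) (nat_lit 21) (.e (nat_lit 516160) (nat_lit 10) (.e (nat_lit 434264) (nat_lit 34) (.e (nat_lit 622624) (nat_lit 13) .nil))))))) (.g (nat_lit 1) (.e (nat_lit 42945) (nat_lit 0) .nil) .nil)))))) 
(.nd (nat_lit 7) (.nd (nat_lit 8) (.nd (nat_lit 9) 
(.lf (nat_lit 455762) (.g (nat_lit 3173) (.e (nat_lit 2664) (nat_lit 167) (.e (nat_lit 196666) (nat_lit 13) (.e (nat_lit 65630) (nat_lit 14) (.e (nat_lit 401425) (nat_lit 2) (.e (nat_lit 196669) (nat_lit 14) (.e (nat_lit 73781) (nat_lit 32) .nil)))))) (.g (nat_lit 1) (.e (nat_lit 41371) (nat_lit 0) .nil) .nil))) 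
(.lf (nat_lit 456274) (.g (nat_lit 3186) (.e (nat_lit 2668) (nat_lit 167) (.e (nat_lit 196666) (nat_lit 13) (.e (nat_lit 65610) (nat_lit 10) (.e (nat_lit 344117) (nat_lit 21) (.e (nat_lit 516106) (nat_lit 0) (.e (nat_lit 6986) (nat_lit 377) (.e (nat_lit 2513) (nat_lit 157) (.e (nat_lit 7936) (nat_lit 312) .nil)))))))) (.g (nat_lit 1) (.e (nat_lit 42585) (nat_lit 0) .nil) .nil)))) (.nd (nat_lit 9) 
(.lf (nat_lit 456018) (.g (nat_lit 4297) (.e (nat_lit 2667) (nat_lit 167) (.e (nat_lit 196663) (nat_lit 13) (.e (nat_lit 65630) (nat_lit 14) (.e (nat_lit 401425) (nat_lit 2) (.e (nat_lit 196681) (nat_lit 17) (.e (nat_lit 131073) (nat_lit 0) (.e (nat_lit 6691) (nat_lit 357) .nil))))))) (.g (nat_lit 1) (.e (nat_lit 41893) (nat_lit 0) .nil) .nil))) 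
(.lf (nat_lit 456530) (.g (nat_lit 3111) (.e (nat_lit 2668) (nat_lit 167) (.e (nat_lit 196666) (nat_lit 13) (.e (nat_lit 65610) (nat_lit 10) (.e (nat_lit 344117) (nat_lit 21) (.e (nat_lit 516151) (nat_lit 9) (.e (nat_lit 426043) (nat_lit 0) (.e (nat_lit 3369) (nat_lit 208) (.e (nat_lit 622621) (nat_lit 13) .nil)))))))) (.g (nat_lit 1) (.e (nat_lit 42879) (nat_lit 0) .nil) .nil))))) 
(.nd (nat_lit 8) (.nd (nat_lit 9) 
(.lf (nat_lit 455890) (.g (nat_lit 2850) (.e (nat_lit 2666) (nat_lit 167) (.e (nat_lit 196666) (nat_lit 13) (.e (nat_lit 65610) (nat_lit 10) (.e (nat_lit 344117) (nat_lit 21) (.e (nat_lit 516138) (nat_lit 7) (.e (nat_lit 409614) (nat_lit 10) (.e (nat_lit 7936) (nat_lit 312) .nil))))))) (.g (nat_lit 1) (.e (nat_lit 41653) (nat_lit 0) .nil) .nil))) 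
(.lf (nat_lit 456402) (.g (nat_lit 3567) (.e (nat_lit 2668) (nat_lit 167) (.e (nat_lit 196666) (nat_lit 13) (.e (nat_lit 65610) (nat_lit 10) (.e (nat_lit 344117) (nat_lit 21) (.e (nat_lit 516142) (nat_lit 8) (.e (nat_lit 417816) (nat_lit 10) (.e (nat_lit 5612) (nat_lit 312) .nil))))))) (.g (nat_lit 1) (.e (nat_lit 42713) (nat_lit 0) .nil) .nil)))) (.nd (nat_lit 9) 
(.lf (nat_lit 456146) (.g (nat_lit 2154) (.e (nat_lit 2667) (nat_lit 167) (.e (nat_lit 196670) (nat_lit 14) (.e (nat_lit 73754) (nat_lit 8) (.e (nat_lit 557105) (nat_lit 14) (.e (nat_lit 180252) (nat_lit 10) (.e (nat_lit 573475) (nat_lit 12) (.e (nat_lit 57507) (nat_lit 39) (.e (nat_lit 647175) (nat_lit 0) .nil)))))))) (.g (nat_lit 1) (.e (nat_lit 42094) (nat_lit 0) .nil) .nil))) 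
(.lf (nat_lit 456658) (.g (nat_lit 4241) (.e (nat_lit 2668) (nat_lit 167) (.e (nat_lit 196666) (nat_lit 13) (.e (nat_lit 65617) (nat_lit 10) (.e (nat_lit 344130) (nat_lit 26) (.e (nat_lit 557087) (nat_lit 11) (.e (nat_lit 24579) (nat_lit 0) (.e (nat_lit 6619) (nat_lit 357) .nil))))))) (.g (nat_lit 1) (.e (nat_lit 43096) (nat_lit 0) .nil) .nil))))))) 
(.nd (nat_lit 6) (.nd (nat_lit 7) (.nd (nat_lit 8) (.nd (nat_lit 9) 
(.lf (nat_lit 455730) (.g (nat_lit 1304) (.e (nat_lit 2664) (nat_lit 167) (.e (nat_lit 196666) (nat_lit 13) (.e (nat_lit 65617) (nat_lit 10) (.e (nat_lit 344130) (nat_lit 26) (.e (nat_lit 557087) (nat_lit 11) .nil))))) (.g (nat_lit 0) (.e (nat_lit 41332) (nat_lit 0) .nil) .nil))) 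
(.lf (nat_lit 456242) (.g (nat_lit 3700) (.e (nat_lit 2668) (nat_lit 167) (.e (nat_lit 196666) (nat_lit 13) (.e (nat_lit 65610) (nat_lit 10) (.e (nat_lit 344117) (nat_lit 21) (.e (nat_lit 516098) (nat_lit 0) (.e (nat_lit 7583) (nat_lit 405) (.e (nat_lit 65280) (nat_lit 201) .nil))))))) (.g (nat_lit 1) (.e (nat_lit 42553) (nat_lit 0) .nil) .nil)))) (.nd (nat_lit 9) 
(.lf (nat_lit 455986) (.g (nat_lit 2394) (.e (nat_lit 2666) (nat_lit 167) (.e (nat_lit 196666) (nat_lit 13) (.e (nat_lit 65617) (nat_lit 10) (.e (nat_lit 344127) (nat_lit 26) .nil)))) (.g (nat_lit 0) (.e (nat_lit 41799) (nat_lit 0) .nil) .nil))) 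
(.lf (nat_lit 456498) (.g (nat_lit 3884) (.e (nat_lit 2668) (nat_lit 167) (.e (nat_lit 196666) (nat_lit 13) (.e (nat_lit 65610) (nat_lit 10) (.e (nat_lit 344117) (nat_lit 21) (.e (nat_lit 516151) (nat_lit 9) (.e (nat_lit 426040) (nat_lit 0) (.e (nat_lit 2422) (nat_lit 157) (.e (nat_lit 4778) (nat_lit 281) (.e (nat_lit 2445) (nat_lit 157) .nil))))))))) (.g (nat_lit 1) (.e (nat_lit 42847) (nat_lit 0) .nil) .nil))))) 
(.nd (nat_lit 8) (.nd (nat_lit 9) 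
(.lf (nat_lit 455858) (.g (nat_lit 2468) (.e (nat_lit 2666) (nat_lit 167) (.e (nat_lit 196666) (nat_lit 13) (.e (nat_lit 65569) (nat_lit 3) (.e (nat_lit 98333) (nat_lit 18) .nil)))) (.g (nat_lit 0) (.e (nat_lit 41538) (nat_lit 0) .nil) .nil))) 
(.lf (nat_lit 456370) (.g (nat_lit 5007) (.e (nat_lit 2668) (nat_lit 167) (.e (nat_lit 196666) (nat_lit 13) (.e (nat_lit 65610) (nat_lit 10) (.e (nat_lit 344117) (nat_lit 21) (.e (nat_lit 516139) (nat_lit 7) (.e (nat_lit 409618) (nat_lit 10) (.e (nat_lit 5612) (nat_lit 312) .nil))))))) (.g (nat_lit 1) (.e (nat_lit 42681) (nat_lit 0) .nil) .nil)))) (.nd (nat_lit 9) 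
(.lf (nat_lit 456114) (.g (nat_lit 4658) (.e (nat_lit 2667) (nat_lit 167) (.e (nat_lit 196670) (nat_lit 14) (.e (nat_lit 73753) (nat_lit 8) (.e (nat_lit 557105) (nat_lit 14) (.e (nat_lit 180252) (nat_lit 10) (.e (nat_lit 573474) (nat_lit 12) (.e (nat_lit 57506) (nat_lit 39) (.e (nat_lit 655104) (nat_lit 0) .nil)))))))) (.g (nat_lit 1) (.e (nat_lit 42062) (nat_lit 0) .nil) .nil))) 
(.lf (nat_lit 456626) (.g (nat_lit 4300) (.e (nat_lit 2668) (nat_lit 167) (.e (nat_lit 196666) (nat_lit 13) (.e (nat_lit 65617) (nat_lit 10) (.e (nat_lit 344117) (nat_lit 21) (.e (nat_lit 516139) (nat_lit 7) (.e (nat_lit 409616) (nat_lit 10) (.e (nat_lit 5613) (nat_lit 312) .nil))))))) (.g (nat_lit 1) (.e (nat_lit 43034) (nat_lit 0) .nil) .nil)))))) 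
(.nd (nat_lit 7) (.nd (nat_lit 8) (.nd (nat_lit 9) 
(.lf (nat_lit 455794) (.g (nat_lit 1161) (.e (nat_lit 2664) (nat_lit 167) (.e (nat_lit 196672) (nat_lit 15) (.e (nat_lit 81954) (nat_lit 23) (.e (nat_lit 98320) (nat_lit 17) .nil)))) (.g (nat_lit 0) (.e (nat_lit 41414) (nat_lit 0) .nil) .nil))) 
(.lf (nat_lit 456306) (.g (nat_lit 3809) (.e (nat_lit 2668) (nat_lit 167) (.e (nat_lit 196666) (nat_lit 13) (.e (nat_lit 65610) (nat_lit 10) (.e (nat_lit 344117) (nat_lit 21) (.e (nat_lit 516106) (nat_lit 0) (.e (nat_lit 7112) (nat_lit 381) (.e (nat_lit 237312) (nat_lit 246) .nil))))))) (.g (nat_lit 1) (.e (nat_lit 42617) (nat_lit 0) .nil) .nil)))) (.nd (nat_lit 9) 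
(.lf (nat_lit 456050) (.g (nat_lit 3990) (.e (nat_lit 2667) (nat_lit 167) (.e (nat_lit 196668) (nat_lit 14) (.e (nat_lit 73753) (nat_lit 8) (.e (nat_lit 557103) (nat_lit 14) (.e (nat_lit 180250) (nat_lit 10) (.e (nat_lit 573477) (nat_lit 12) (.e (nat_lit 57511) (nat_lit 39) (.e (nat_lit 655104) (nat_lit 0) .nil)))))))) (.g (nat_lit 1) (.e (nat_lit 41954) (nat_lit 0) .nil) .nil))) 
(.lf (nat_lit 456562) (.g (nat_lit 2923) (.e (nat_lit 2668) (nat_lit 167) (.e (nat_lit 196666) (nat_lit 13) (.e (nat_lit 65610) (nat_lit 10) (.e (nat_lit 344117) (nat_lit 21) (.e (nat_lit 516151) (nat_lit 9) (.e (nat_lit 426412) (nat_lit 15) (.e (nat_lit 1009) (nat_lit 81) (.e (nat_lit 6045) (nat_lit 326) (.e (nat_lit 2443) (nat_lit 157) .nil))))))))) (.g (nat_lit 1) (.e (nat_lit 42911) (nat_lit 0) .nil) .nil))))) 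
(.nd (nat_lit 8) (.nd (nat_lit 9) 
(.lf (nat_lit 455922) (.g (nat_lit 4359) (.e (nat_lit 2666) (nat_lit 167) (.e (nat_lit 196666) (nat_lit 13) (.e (nat_lit 65610) (nat_lit 10) (.e (nat_lit 344117) (nat_lit 21) (.e (nat_lit 516151) (nat_lit 9) (.e (nat_lit 426022) (nat_lit 0) (.e (nat_lit 2403) (nat_lit 157) (.e (nat_lit 4761) (nat_lit 281) (.e (nat_lit 2461) (nat_lit 157) .nil))))))))) (.g (nat_lit 1) (.e (nat_lit 41687) (nat_lit 0) .nil) .nil))) 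
(.lf (nat_lit 456434) (.g (nat_lit 4015) (.e (nat_lit 2668) (nat_lit 167) (.e (nat_lit 196666) (nat_lit 13) (.e (nat_lit 65610) (nat_lit 10) (.e (nat_lit 344117) (nat_lit 21) (.e (nat_lit 516151) (nat_lit 9) (.e (nat_lit 426019) (nat_lit 0) (.e (nat_lit 3372) (nat_lit 208) (.e (nat_lit 622620) (nat_lit 13) .nil)))))))) (.g (nat_lit 1) (.e (nat_lit 42783) (nat_lit 0) .nil) .nil)))) 
(.nd (nat_lit 9) 
(.lf (nat_lit 456178) (.g (nat_lit 1581) (.e (nat_lit 2668) (nat_lit 167) (.e (nat_lit 196656) (nat_lit 11) (.e (nat_lit 16436) (nat_lit 9) (.e (nat_lit 426131) (nat_lit 3) .nil)))) (.g (nat_lit 0) (.e (nat_lit 42433) (nat_lit 0) .nil) .nil))) 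
(.lf (nat_lit 456690) (.g (nat_lit 2690) (.e (nat_lit 2668) (nat_lit 167) (.e (nat_lit 196666) (nat_lit 13) (.e (nat_lit 65617) (nat_lit 10) (.e (nat_lit 344133) (nat_lit 26) (.e (nat_lit 557086) (nat_lit 11) (.e (nat_lit 24580) (nat_lit 0) (.e (nat_lit 6617) (nat_lit 357) .nil))))))) (.g (nat_lit 1) (.e (nat_lit 43153) (nat_lit 0) .nil) .nil))))))))) 
(.nd (nat_lit 4) (.nd (nat_lit 5) (.nd (nat_lit 6) (.nd (nat_lit 7) (.nd (nat_lit 8) 
(.nd (nat_lit 9) 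
(.lf (nat_lit 455690) (.g (nat_lit 3416) (.e (nat_lit 2664) (nat_lit 167) (.e (nat_lit 196666) (nat_lit 13) (.e (nat_lit 65610) (nat_lit 10) (.e (nat_lit 344117) (nat_lit 21) (.e (nat_lit 516185) (nat_lit 16) (.e (nat_lit 491520) (nat_lit 0) (.e (nat_lit 6684) (nat_lit 357) .nil))))))) (.g (nat_lit 1) (.e (nat_lit 41272) (nat_lit 0) .nil) .nil))) 
(.lf (nat_lit 456202) (.g (nat_lit 1783) (.e (nat_lit 2668) (nat_lit 167) (.e (nat_lit 196666) (nat_lit 13) (.e (nat_lit 65610) (nat_lit 10) (.e (nat_lit 344090) (nat_lit 18) .nil)))) (.g (nat_lit 0) (.e (nat_lit 42503) (nat_lit 0) .nil) .nil)))) (.nd (nat_lit 9) 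
(.lf (nat_lit 455946) (.g (nat_lit 2910) (.e (nat_lit 2666) (nat_lit 167) (.e (nat_lit 196666) (nat_lit 13) (.e (nat_lit 65610) (nat_lit 10) (.e (nat_lit 344117) (nat_lit 21) (.e (nat_lit 516151) (nat_lit 9) (.e (nat_lit 426043) (nat_lit 0) (.e (nat_lit 3369) (nat_lit 208) (.e (nat_lit 622627) (nat_lit 13) .nil)))))))) (.g (nat_lit 1) (.e (nat_lit 41711) (nat_lit 0) .nil) .nil))) 
(.lf (nat_lit 456458) (.g (nat_lit 2689) (.e (nat_lit 2668) (nat_lit 167) (.e (nat_lit 196666) (nat_lit 13) (.e (nat_lit 65610) (nat_lit 10) (.e (nat_lit 344117) (nat_lit 21) (.e (nat_lit 516151) (nat_lit 9) (.e (nat_lit 426022) (nat_lit 0) (.e (nat_lit 3363) (nat_lit 208) (.e (nat_lit 622621) (nat_lit 13) .nil)))))))) (.g (nat_lit 1) (.e (nat_lit 42807) (nat_lit 0) .nil) .nil))))) 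
(.nd (nat_lit 8) (.nd (nat_lit 9) 
(.lf (nat_lit 455818) (.g (nat_lit 2156) (.e (nat_lit 2664) (nat_lit 167) (.e (nat_lit 196673) (nat_lit 15) (.e (nat_lit 81956) (nat_lit 23) (.e (nat_lit 98389) (nat_lit 33) .nil)))) (.g (nat_lit 0) (.e (nat_lit 41439) (nat_lit 0) .nil) .nil))) 
(.lf (nat_lit 456330) (.g (nat_lit 4544) (.e (nat_lit 2668) (nat_lit 167) (.e (nat_lit 196666) (nat_lit 13) (.e (nat_lit 65610) (nat_lit 10) (.e (nat_lit 344117) (nat_lit 21) (.e (nat_lit 516138) (nat_lit 7) (.e (nat_lit 409616) (nat_lit 10) (.e (nat_lit 5628) (nat_lit 312) .nil))))))) (.g (nat_lit 1) (.e (nat_lit 42641) (nat_lit 0) .nil) .nil)))) (.nd (nat_lit 9) 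
(.lf (nat_lit 456074) (.g (nat_lit 3933) (.e (nat_lit 2667) (nat_lit 167) (.e (nat_lit 196669) (nat_lit 14) (.e (nat_lit 73755) (nat_lit 8) (.e (nat_lit 557105) (nat_lit 14) (.e (nat_lit 180252) (nat_lit 10) (.e (nat_lit 573474) (nat_lit 12) (.e (nat_lit 57507) (nat_lit 39) (.e (nat_lit 655104) (nat_lit 0) .nil)))))))) (.g (nat_lit 1) (.e (nat_lit 42021) (nat_lit 0) .nil) .nil))) 
(.lf (nat_lit 456586) (.g (nat_lit 3026) (.e (nat_lit 2668) (nat_lit 167) (.e (nat_lit 196666) (nat_lit 13) (.e (nat_lit 65610) (nat_lit 10) (.e (nat_lit 344117) (nat_lit 21) (.e (nat_lit 516160) (nat_lit 10) (.e (nat_lit 434208) (nat_lit 18) (.e (nat_lit 4778) (nat_lit 281) (.e (nat_lit 2443) (nat_lit 157) .nil)))))))) (.g (nat_lit 1) (.e (nat_lit 42937) (nat_lit 0) .nil) .nil)))))) 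
(.nd (nat_lit 7) (.nd (nat_lit 8) (.nd (nat_lit 9) 
(.lf (nat_lit 455754) (.g (nat_lit 2693) (.e (nat_lit 2664) (nat_lit 167) (.e (nat_lit 196666) (nat_lit 13) (.e (nat_lit 65628) (nat_lit 14) (.e (nat_lit 401428) (nat_lit 3) (.e (nat_lit 204862) (nat_lit 27) (.e (nat_lit 344069) (nat_lit 0) .nil)))))) (.g (nat_lit 1) (.e (nat_lit 41362) (nat_lit 0) .nil) .nil))) 
(.lf (nat_lit 456266) (.g (nat_lit 4330) (.e (nat_lit 2668) (nat_lit 167) (.e (nat_lit 196666) (nat_lit 13) (.e (nat_lit 65610) (nat_lit 10) (.e (nat_lit 344117) (nat_lit 21) (.e (nat_lit 516106) (nat_lit 0) (.e (nat_lit 6986) (nat_lit 377) (.e (nat_lit 2400) (nat_lit 157) (.e (nat_lit 7936) (nat_lit 312) .nil)))))))) (.g (nat_lit 1) (.e (nat_lit 42577) (nat_lit 0) .nil) .nil)))) (.nd (nat_lit 9) 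
(.lf (nat_lit 456010) (.g (nat_lit 555) (.e (nat_lit 2667) (nat_lit 167) (.e (nat_lit 196656) (nat_lit 11) (.e (nat_lit 16436) (nat_lit 9) .nil))) (.g (nat_lit 0) (.e (nat_lit 41869) (nat_lit 0) .nil) .nil))) 
(.lf (nat_lit 456522) (.g (nat_lit 3947) (.e (nat_lit 2668) (nat_lit 167) (.e (nat_lit 196666) (nat_lit 13) (.e (nat_lit 65610) (nat_lit 10) (.e (nat_lit 344117) (nat_lit 21) (.e (nat_lit 516151) (nat_lit 9) (.e (nat_lit 426042) (nat_lit 0) (.e (nat_lit 3371) (nat_lit 208) (.e (nat_lit 622621) (nat_lit 13) .nil)))))))) (.g (nat_lit 1) (.e (nat_lit 42871) (nat_lit 0) .nil) .nil))))) 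
(.nd (nat_lit 8) (.nd (nat_lit 9) 
(.lf (nat_lit 455882) (.g (nat_lit 3008) (.e (nat_lit 2666) (nat_lit 167) (.e (nat_lit 196666) (nat_lit 13) (.e (nat_lit 65610) (nat_lit 10) (.e (nat_lit 344116) (nat_lit 21) .nil)))) (.g (nat_lit 0) (.e (nat_lit 41643) (nat_lit 0) .nil) .nil))) 
(.lf (nat_lit 456394) (.g (nat_lit 2669) (.e (nat_lit 2668) (nat_lit 167) (.e (nat_lit 196666) (nat_lit 13) (.e (nat_lit 65610) (nat_lit 10) (.e (nat_lit 344117) (nat_lit 21) (.e (nat_lit 516142) (nat_lit 8) (.e (nat_lit 417814) (nat_lit 10) (.e (nat_lit 5683) (nat_lit 312) .nil))))))) (.g (nat_lit 1) (.e (nat_lit 42705) (nat_lit 0) .nil) .nil)))) (.nd (nat_lit 9) 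
(.lf (nat_lit 456138) (.g (nat_lit 4302) (.e (nat_lit 2667) (nat_lit 167) (.e (nat_lit 196670) (nat_lit 14) (.e (nat_lit 73754) (nat_lit 8) (.e (nat_lit 557105) (nat_lit 14) (.e (nat_lit 180252) (nat_lit 10) (.e (nat_lit 573474) (nat_lit 12) (.e (nat_lit 57506) (nat_lit 39) (.e (nat_lit 655104) (nat_lit 0) .nil)))))))) (.g (nat_lit 1) (.e (nat_lit 42086) (nat_lit 0) .nil) .nil))) 
(.lf (nat_lit 456650) (.g (nat_lit 2949) (.e (nat_lit 2668) (nat_lit 167) (.e (nat_lit 196666) (nat_lit 13) (.e (nat_lit 65617) (nat_lit 10) (.e (nat_lit 344130) (nat_lit 26) (.e (nat_lit 557085) (nat_lit 11) (.e (nat_lit 24579) (nat_lit 0) (.e (nat_lit 6619) (nat_lit 357) .nil))))))) (.g (nat_lit 1) (.e (nat_lit 43088) (nat_lit 0) .nil) .nil))))))) 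
(.nd (nat_lit 6) (.nd (nat_lit 7) (.nd (nat_lit 8) (.nd (nat_lit 9) 
(.lf (nat_lit 455722) (.g (nat_lit 3208) (.e (nat_lit 2664) (nat_lit 167) (.e (nat_lit 196666) (nat_lit 13) (.e (nat_lit 65617) (nat_lit 10) (.e (nat_lit 344126) (nat_lit 25) (.e (nat_lit 548889) (nat_lit 9) (.e (nat_lit 65537) (nat_lit 0) (.e (nat_lit 6681) (nat_lit 357) .nil))))))) (.g (nat_lit 1) (.e (nat_lit 41324) (nat_lit 0) .nil) .nil))) 
(.lf (nat_lit 456234) (.g (nat_lit 2916) (.e (nat_lit 2668) (nat_lit 167) (.e (nat_lit 196666) (nat_lit 13) (.e (nat_lit 65610) (nat_lit 10) (.e (nat_lit 344117) (nat_lit 21) (.e (nat_lit 516098) (nat_lit 0) (.e (nat_lit 7065) (nat_lit 377) (.e (nat_lit 2509) (nat_lit 157) (.e (nat_lit 5626) (nat_lit 312) .nil)))))))) (.g (nat_lit 1) (.e (nat_lit 42545) (nat_lit 0) .nil) .nil)))) (.nd (nat_lit 9) 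
(.lf (nat_lit 455978) (.g (nat_lit 3716) (.e (nat_lit 2666) (nat_lit 167) (.e (nat_lit 196666) (nat_lit 13) (.e (nat_lit 65610) (nat_lit 10) (.e (nat_lit 344129) (nat_lit 26) (.e (nat_lit 557087) (nat_lit 11) (.e (nat_lit 24581) (nat_lit 0) (.e (nat_lit 7936) (nat_lit 357) .nil))))))) (.g (nat_lit 1) (.e (nat_lit 41783) (nat_lit 0) .nil) .nil))) 
(.lf (nat_lit 456490) (.g (nat_lit 4104) (.e (nat_lit 2668) (nat_lit 167) (.e (nat_lit 196666) (nat_lit 13) (.e (nat_lit 65610) (nat_lit 10) (.e (nat_lit 344117) (nat_lit 21) (.e (nat_lit 516151) (nat_lit 9) (.e (nat_lit 426038) (nat_lit 0) (.e (nat_lit 3366) (nat_lit 208) (.e (nat_lit 622623) (nat_lit 13) .nil)))))))) (.g (nat_lit 1) (.e (nat_lit 42839) (nat_lit 0) .nil) .nil))))) 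
(.nd (nat_lit 8) (.nd (nat_lit 9) 
(.lf (nat_lit 455850) (.g (nat_lit 4561) (.e (nat_lit 2665) (nat_lit 167) (.e (nat_lit 196672) (nat_lit 15) (.e (nat_lit 81956) (nat_lit 23) (.e (nat_lit 98350) (nat_lit 24) (.e (nat_lit 409616) (nat_lit 10) .nil))))) (.g (nat_lit 0) (.e (nat_lit 41516) (nat_lit 0) .nil) .nil))) 
(.lf (nat_lit 456362) (.g (nat_lit 3864) (.e (nat_lit 2668) (nat_lit 167) (.e (nat_lit 196666) (nat_lit 13) (.e (nat_lit 65610) (nat_lit 10) (.e (nat_lit 344117) (nat_lit 21) (.e (nat_lit 516139) (nat_lit 7) (.e (nat_lit 409616) (nat_lit 10) (.e (nat_lit 5627) (nat_lit 312) .nil))))))) (.g (nat_lit 1) (.e (nat_lit 42673) (nat_lit 0) .nil) .nil)))) (.nd (nat_lit 9) 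
(.lf (nat_lit 456106) (.g (nat_lit 3353) (.e (nat_lit 2667) (nat_lit 167) (.e (nat_lit 196670) (nat_lit 14) (.e (nat_lit 73753) (nat_lit 8) (.e (nat_lit 557105) (nat_lit 14) (.e (nat_lit 180252) (nat_lit 10) (.e (nat_lit 573473) (nat_lit 12) (.e (nat_lit 57507) (nat_lit 39) (.e (nat_lit 647176) (nat_lit 0) .nil)))))))) (.g (nat_lit 1) (.e (nat_lit 42054) (nat_lit 0) .nil) .nil))) 
(.lf (nat_lit 456618) (.g (nat_lit 3431) (.e (nat_lit 2668) (nat_lit 167) (.e (nat_lit 196666) (nat_lit 13) (.e (nat_lit 65610) (nat_lit 10) (.e (nat_lit 344129) (nat_lit 26) (.e (nat_lit 557087) (nat_lit 11) (.e (nat_lit 24589) (nat_lit 0) (.e (nat_lit 7936) (nat_lit 357) .nil))))))) (.g (nat_lit 1) (.e (nat_lit 43017) (nat_lit 0) .nil) .nil)))))) 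
(.nd (nat_lit 7) (.nd (nat_lit 8) (.nd (nat_lit 9) 
(.lf (nat_lit 455786) (.g (nat_lit 1956) (.e (nat_lit 2664) (nat_lit 167) (.e (nat_lit 196672) (nat_lit 15) (.e (nat_lit 81943) (nat_lit 20) (.e (nat_lit 1841) (nat_lit 123) (.e (nat_lit 548889) (nat_lit 9) (.e (nat_lit 65543) (nat_lit 0) (.e (nat_lit 6676) (nat_lit 357) .nil))))))) (.g (nat_lit 1) (.e (nat_lit 41402) (nat_lit 0) .nil) .nil))) 
(.lf (nat_lit 456298) (.g (nat_lit 3406) (.e (nat_lit 2668) (nat_lit 167) (.e (nat_lit 196666) (nat_lit 13) (.e (nat_lit 65610) (nat_lit 10) (.e (nat_lit 344117) (nat_lit 21) (.e (nat_lit 516106) (nat_lit 0) (.e (nat_lit 7014) (nat_lit 377) (.e (nat_lit 2447) (nat_lit 157) (.e (nat_lit 5627) (nat_lit 312) .nil)))))))) (.g (nat_lit 1) (.e (nat_lit 42609) (nat_lit 0) .nil) .nil)))) (.nd (nat_lit 9) 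
(.lf (nat_lit 456042) (.g (nat_lit 4586) (.e (nat_lit 2667) (nat_lit 167) (.e (nat_lit 196668) (nat_lit 14) (.e (nat_lit 73753) (nat_lit 8) (.e (nat_lit 557103) (nat_lit 14) (.e (nat_lit 180250) (nat_lit 10) (.e (nat_lit 573475) (nat_lit 12) (.e (nat_lit 57506) (nat_lit 39) (.e (nat_lit 655104) (nat_lit 0) .nil)))))))) (.g (nat_lit 1) (.e (nat_lit 41946) (nat_lit 0) .nil) .nil))) 
(.lf (nat_lit 456554) (.g (nat_lit 3211) (.e (nat_lit 2668) (nat_lit 167) (.e (nat_lit 196666) (nat_lit 13) (.e (nat_lit 65610) (nat_lit 10) (.e (nat_lit 344117) (nat_lit 21) (.e (nat_lit 516151) (nat_lit 9) (.e (nat_lit 426101) (nat_lit 1) (.e (nat_lit 164258) (nat_lit 215) (.e (nat_lit 7936) (nat_lit 157) .nil)))))))) (.g (nat_lit 1) (.e (nat_lit 42903) (nat_lit 0) .nil) .nil))))) 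
(.nd (nat_lit 8) (.nd (nat_lit 9) 
(.lf (nat_lit 455914) (.g (nat_lit 2621) (.e (nat_lit 2666) (nat_lit 167) (.e (nat_lit 196666) (nat_lit 13) (.e (nat_lit 65610) (nat_lit 10) (.e (nat_lit 344117) (nat_lit 21) (.e (nat_lit 516151) (nat_lit 9) (.e (nat_lit 426018) (nat_lit 0) (.e (nat_lit 2412) (nat_lit 157) (.e (nat_lit 4824) (nat_lit 281) (.e (nat_lit 2416) (nat_lit 157) .nil))))))))) (.g (nat_lit 1) (.e (nat_lit 41679) (nat_lit 0) .nil) .nil))) 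
(.lf (nat_lit 456426) (.g (nat_lit 4170) (.e (nat_lit 2668) (nat_lit 167) (.e (nat_lit 196666) (nat_lit 13) (.e (nat_lit 65610) (nat_lit 10) (.e (nat_lit 344117) (nat_lit 21) (.e (nat_lit 516151) (nat_lit 9) (.e (nat_lit 426017) (nat_lit 0) (.e (nat_lit 3368) (nat_lit 208) (.e (nat_lit 622623) (nat_lit 13) .nil)))))))) (.g (nat_lit 1) (.e (nat_lit 42775) (nat_lit 0) .nil) .nil)))) 
(.nd (nat_lit 9) 
(.lf (nat_lit 456170) (.g (nat_lit 4092) (.e (nat_lit 2667) (nat_lit 167) (.e (nat_lit 196672) (nat_lit 15) (.e (nat_lit 81954) (nat_lit 23) (.e (nat_lit 98350) (nat_lit 24) (.e (nat_lit 409616) (nat_lit 10) (.e (nat_lit 7936) (nat_lit 312) .nil)))))) (.g (nat_lit 1) (.e (nat_lit 42238) (nat_lit 0) .nil) .nil))) 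
(.lf (nat_lit 456682) (.g (nat_lit 1100) (.e (nat_lit 2668) (nat_lit 167) (.e (nat_lit 196666) (nat_lit 13) (.e (nat_lit 65617) (nat_lit 10) (.e (nat_lit 344133) (nat_lit 26) .nil)))) (.g (nat_lit 0) (.e (nat_lit 43128) (nat_lit 0) .nil) .nil)))))))) (.nd (nat_lit 5) (.nd (nat_lit 6) (.nd (nat_lit 7) (.nd (nat_lit 8) (.nd (nat_lit 9) 
(.lf (nat_lit 455706) (.g (nat_lit 2258) (.e (nat_lit 2664) (nat_lit 167) (.e (nat_lit 196666) (nat_lit 13) (.e (nat_lit 65610) (nat_lit 10) (.e (nat_lit 344129) (nat_lit 26) (.e (nat_lit 557067) (nat_lit 9) .nil))))) (.g (nat_lit 0) (.e (nat_lit 41291) (nat_lit 0) .nil) .nil))) 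
(.lf (nat_lit 456218) (.g (nat_lit 3678) (.e (nat_lit 2668) (nat_lit 167) (.e (nat_lit 196666) (nat_lit 13) (.e (nat_lit 65610) (nat_lit 10) (.e (nat_lit 344117) (nat_lit 21) (.e (nat_lit 516097) (nat_lit 0) (.e (nat_lit 7111) (nat_lit 381) (.e (nat_lit 229683) (nat_lit 246) .nil))))))) (.g (nat_lit 1) (.e (nat_lit 42529) (nat_lit 0) .nil) .nil)))) (.nd (nat_lit 9) 
(.lf (nat_lit 455962) (.g (nat_lit 2844) (.e (nat_lit 2666) (nat_lit 167) (.e (nat_lit 196666) (nat_lit 13) (.e (nat_lit 65610) (nat_lit 10) (.e (nat_lit 344117) (nat_lit 21) (.e (nat_lit 516159) (nat_lit 10) (.e (nat_lit 434202) (nat_lit 18) (.e (nat_lit 4815) (nat_lit 281) (.e (nat_lit 2416) (nat_lit 157) .nil)))))))) (.g (nat_lit 1) (.e (nat_lit 41740) (nat_lit 0) .nil) .nil))) 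
(.lf (nat_lit 456474) (.g (nat_lit 4230) (.e (nat_lit 2668) (nat_lit 167) (.e (nat_lit 196666) (nat_lit 13) (.e (nat_lit 65610) (nat_lit 10) (.e (nat_lit 344117) (nat_lit 21) (.e (nat_lit 516151) (nat_lit 9) (.e (nat_lit 426034) (nat_lit 0) (.e (nat_lit 3370) (nat_lit 208) (.e (nat_lit 622621) (nat_lit 13) .nil)))))))) (.g (nat_lit 1) (.e (nat_lit 42823) (nat_lit 0) .nil) .nil))))) 
(.nd (nat_lit 8) (.nd (nat_lit 9) 
(.lf (nat_lit 455834) (.g (nat_lit 2958) (.e (nat_lit 2664) (nat_lit 167) (.e (nat_lit 196674) (nat_lit 15) (.e (nat_lit 81947) (nat_lit 20) (.e (nat_lit 1842) (nat_lit 123) (.e (nat_lit 548889) (nat_lit 9) (.e (nat_lit 65540) (nat_lit 0) (.e (nat_lit 6681) (nat_lit 357) .nil))))))) (.g (nat_lit 1) (.e (nat_lit 41457) (nat_lit 0) .nil) .nil))) 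
(.lf (nat_lit 456346) (.g (nat_lit 3284) (.e (nat_lit 2668) (nat_lit 167) (.e (nat_lit 196666) (nat_lit 13) (.e (nat_lit 65610) (nat_lit 10) (.e (nat_lit 344117) (nat_lit 21) (.e (nat_lit 516139) (nat_lit 7) (.e (nat_lit 409609) (nat_lit 10) (.e (nat_lit 5627) (nat_lit 312) .nil))))))) (.g (nat_lit 1) (.e (nat_lit 42657) (nat_lit 0) .nil) .nil)))) (.nd (nat_lit 9) 
(.lf (nat_lit 456090) (.g (nat_lit 2548) (.e (nat_lit 2667) (nat_lit 167) (.e (nat_lit 196670) (nat_lit 14) (.e (nat_lit 73753) (nat_lit 8) (.e (nat_lit 557103) (nat_lit 14) (.e (nat_lit 180250) (nat_lit 10) (.e (nat_lit 573473) (nat_lit 12) (.e (nat_lit 57508) (nat_lit 39) (.e (nat_lit 647176) (nat_lit 0) .nil)))))))) (.g (nat_lit 1) (.e (nat_lit 42038) (nat_lit 0) .nil) .nil))) 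
(.lf (nat_lit 456602) (.g (nat_lit 1947) (.e (nat_lit 2668) (nat_lit 167) (.e (nat_lit 196666) (nat_lit 13) (.e (nat_lit 65610) (nat_lit 10) (.e (nat_lit 344129) (nat_lit 26) (.e (nat_lit 557066) (nat_lit 9) .nil))))) (.g (nat_lit 0) (.e (nat_lit 42983) (nat_lit 0) .nil) .nil)))))) (.nd (nat_lit 7) (.nd (nat_lit 8) (.nd (nat_lit 9) 
(.lf (nat_lit 455770) (.g (nat_lit 3376) (.e (nat_lit 2664) (nat_lit 167) (.e (nat_lit 196671) (nat_lit 15) (.e (nat_lit 81956) (nat_lit 23) (.e (nat_lit 98350) (nat_lit 24) (.e (nat_lit 409616) (nat_lit 10) (.e (nat_lit 5710) (nat_lit 312) .nil)))))) (.g (nat_lit 1) (.e (nat_lit 41382) (nat_lit 0) .nil) .nil))) 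
(.lf (nat_lit 456282) (.g (nat_lit 2380) (.e (nat_lit 2668) (nat_lit 167) (.e (nat_lit 196666) (nat_lit 13) (.e (nat_lit 65610) (nat_lit 10) (.e (nat_lit 344117) (nat_lit 21) (.e (nat_lit 516106) (nat_lit 0) (.e (nat_lit 7008) (nat_lit 377) (.e (nat_lit 2422) (nat_lit 157) (.e (nat_lit 7936) (nat_lit 312) .nil)))))))) (.g (nat_lit 1) (.e (nat_lit 42593) (nat_lit 0) .nil) .nil)))) (.nd (nat_lit 9) 
(.lf (nat_lit 456026) (.g (nat_lit 3486) (.e (nat_lit 2667) (nat_lit 167) (.e (nat_lit 196668) (nat_lit 14) (.e (nat_lit 73753) (nat_lit 8) (.e (nat_lit 557103) (nat_lit 14) (.e (nat_lit 180250) (nat_lit 10) (.e (nat_lit 573473) (nat_lit 12) (.e (nat_lit 57506) (nat_lit 39) (.e (nat_lit 655104) (nat_lit 0) .nil)))))))) (.g (nat_lit 1) (.e (nat_lit 41930) (nat_lit 0) .nil) .nil))) 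
(.lf (nat_lit 456538) (.g (nat_lit 4022) (.e (nat_lit 2668) (nat_lit 167) (.e (nat_lit 196666) (nat_lit 13) (.e (nat_lit 65610) (nat_lit 10) (.e (nat_lit 344117) (nat_lit 21) (.e (nat_lit 516151) (nat_lit 9) (.e (nat_lit 426049) (nat_lit 0) (.e (nat_lit 3366) (nat_lit 208) (.e (nat_lit 622624) (nat_lit 13) .nil)))))))) (.g (nat_lit 1) (.e (nat_lit 42887) (nat_lit 0) .nil) .nil))))) 
(.nd (nat_lit 8) (.nd (nat_lit 9) 
(.lf (nat_lit 455898) (.g (nat_lit 3152) (.e (nat_lit 2666) (nat_lit 167) (.e (nat_lit 196666) (nat_lit 13) (.e (nat_lit 65610) (nat_lit 10) (.e (nat_lit 344117) (nat_lit 21) (.e (nat_lit 516142) (nat_lit 8) (.e (nat_lit 417814) (nat_lit 10) (.e (nat_lit 7936) (nat_lit 312) .nil))))))) (.g (nat_lit 1) (.e (nat_lit 41662) (nat_lit 0) .nil) .nil))) 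
(.lf (nat_lit 456410) (.g (nat_lit 3237) (.e (nat_lit 2668) (nat_lit 167) (.e (nat_lit 196666) (nat_lit 13) (.e (nat_lit 65610) (nat_lit 10) (.e (nat_lit 344117) (nat_lit 21) (.e (nat_lit 516142) (nat_lit 8) (.e (nat_lit 417821) (nat_lit 10) (.e (nat_lit 5612) (nat_lit 312) .nil))))))) (.g (nat_lit 1) (.e (nat_lit 42721) (nat_lit 0) .nil) .nil)))) (.nd (nat_lit 9) 
(.lf (nat_lit 456154) (.g (nat_lit 3129) (.e (nat_lit 2667) (nat_lit 167) (.e (nat_lit 196670) (nat_lit 14) (.e (nat_lit 73755) (nat_lit 8) (.e (nat_lit 557105) (nat_lit 14) (.e (nat_lit 180252) (nat_lit 10) (.e (nat_lit 573474) (nat_lit 12) (.e (nat_lit 57507) (nat_lit 39) (.e (nat_lit 647176) (nat_lit 0) .nil)))))))) (.g (nat_lit 1) (.e (nat_lit 42102) (nat_lit 0) .nil) .nil))) 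
(.lf (nat_lit 456666) (.g (nat_lit 3797) (.e (nat_lit 2668) (nat_lit 167) (.e (nat_lit 196666) (nat_lit 13) (.e (nat_lit 65617) (nat_lit 10) (.e (nat_lit 344130) (nat_lit 26) (.e (nat_lit 557087) (nat_lit 11) (.e (nat_lit 24591) (nat_lit 0) (.e (nat_lit 7936) (nat_lit 357) .nil))))))) (.g (nat_lit 1) (.e (nat_lit 43104) (nat_lit 0) .nil) .nil))))))) 
(.nd (nat_lit 6) (.nd (nat_lit 7) (.nd (nat_lit 8) (.nd (nat_lit 9) 
(.lf (nat_lit 455738) (.g (nat_lit 3198) (.e (nat_lit 2664) (nat_lit 167) (.e (nat_lit 196666) (nat_lit 13) (.e (nat_lit 65617) (nat_lit 10) (.e (nat_lit 344130) (nat_lit 26) (.e (nat_lit 557087) (nat_lit 11) (.e (nat_lit 24584) (nat_lit 0) (.e (nat_lit 7936) (nat_lit 357) .nil))))))) (.g (nat_lit 1) (.e (nat_lit 41340) (nat_lit 0) .nil) .nil))) 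
(.lf (nat_lit 456250) (.g (nat_lit 2241) (.e (nat_lit 2668) (nat_lit 167) (.e (nat_lit 196666) (nat_lit 13) (.e (nat_lit 65610) (nat_lit 10) (.e (nat_lit 344117) (nat_lit 21) (.e (nat_lit 516102) (nat_lit 0) (.e (nat_lit 6983) (nat_lit 377) (.e (nat_lit 2450) (nat_lit 157) (.e (nat_lit 5627) (nat_lit 312) .nil)))))))) (.g (nat_lit 1) (.e (nat_lit 42561) (nat_lit 0) .nil) .nil)))) (.nd (nat_lit 9) 
(.lf (nat_lit 455994) (.g (nat_lit 3525) (.e (nat_lit 2666) (nat_lit 167) (.e (nat_lit 196666) (nat_lit 13) (.e (nat_lit 65624) (nat_lit 12) (.e (nat_lit 385074) (nat_lit 31) (.e (nat_lit 573489) (nat_lit 14) (.e (nat_lit 81664) (nat_lit 32) .nil)))))) (.g (nat_lit 1) (.e (nat_lit 41811) (nat_lit 0) .nil) .nil))) 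
(.lf (nat_lit 456506) (.g (nat_lit 4020) (.e (nat_lit 2668) (nat_lit 167) (.e (nat_lit 196666) (nat_lit 13) (.e (nat_lit 65610) (nat_lit 10) (.e (nat_lit 344117) (nat_lit 21) (.e (nat_lit 516151) (nat_lit 9) (.e (nat_lit 426040) (nat_lit 0) (.e (nat_lit 3370) (nat_lit 208) (.e (nat_lit 622623) (nat_lit 13) .nil)))))))) (.g (nat_lit 1) (.e (nat_lit 42855) (nat_lit 0) .nil) .nil))))) 
(.nd (nat_lit 8) (.nd (nat_lit 9) 
(.lf (nat_lit 455866) (.g (nat_lit 3411) (.e (nat_lit 2666) (nat_lit 167) (.e (nat_lit 196666) (nat_lit 13) (.e (nat_lit 65569) (nat_lit 3) (.e (nat_lit 98334) (nat_lit 18) (.e (nat_lit 164183) (nat_lit 154) (.e (nat_lit 57379) (nat_lit 3) (.e (nat_lit 98338) (nat_lit 19) (.e (nat_lit 213013) (nat_lit 9) .nil)))))))) (.g (nat_lit 1) (.e (nat_lit 41546) (nat_lit 0) .nil) .nil))) 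
(.lf (nat_lit 456378) (.g (nat_lit 3652) (.e (nat_lit 2668) (nat_lit 167) (.e (nat_lit 196666) (nat_lit 13) (.e (nat_lit 65610) (nat_lit 10) (.e (nat_lit 344117) (nat_lit 21) (.e (nat_lit 516141) (nat_lit 8) (.e (nat_lit 417814) (nat_lit 10) (.e (nat_lit 5616) (nat_lit 312) .nil))))))) (.g (nat_lit 1) (.e (nat_lit 42689) (nat_lit 0) .nil) .nil)))) (.nd (nat_lit 9) 
(.lf (nat_lit 456122) (.g (nat_lit 3228) (.e (nat_lit 2667) (nat_lit 167) (.e (nat_lit 196670) (nat_lit 14) (.e (nat_lit 73753) (nat_lit 8) (.e (nat_lit 557105) (nat_lit 14) (.e (nat_lit 180252) (nat_lit 10) (.e (nat_lit 573475) (nat_lit 12) (.e (nat_lit 57507) (nat_lit 39) (.e (nat_lit 647176) (nat_lit 0) .nil)))))))) (.g (nat_lit 1) (.e (nat_lit 42070) (nat_lit 0) .nil) .nil))) 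
(.lf (nat_lit 456634) (.g (nat_lit 3282) (.e (nat_lit 2668) (nat_lit 167) (.e (nat_lit 196666) (nat_lit 13) (.e (nat_lit 65617) (nat_lit 10) (.e (nat_lit 344117) (nat_lit 21) (.e (nat_lit 516141) (nat_lit 8) (.e (nat_lit 417820) (nat_lit 10) (.e (nat_lit 5626) (nat_lit 312) .nil))))))) (.g (nat_lit 1) (.e (nat_lit 43042) (nat_lit 0) .nil) .nil)))))) 
(.nd (nat_lit 7) (.nd (nat_lit 8) (.nd (nat_lit 9) 
(.lf (nat_lit 455802) (.g (nat_lit 2966) (.e (nat_lit 2664) (nat_lit 167) (.e (nat_lit 196672) (nat_lit 15) (.e (nat_lit 81954) (nat_lit 23) (.e (nat_lit 98350) (nat_lit 24) (.e (nat_lit 409608) (nat_lit 10) .nil))))) (.g (nat_lit 0) (.e (nat_lit 41423) (nat_lit 0) .nil) .nil))) 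
(.lf (nat_lit 456314) (.g (nat_lit 2621) (.e (nat_lit 2668) (nat_lit 167) (.e (nat_lit 196666) (nat_lit 13) (.e (nat_lit 65610) (nat_lit 10) (.e (nat_lit 344117) (nat_lit 21) (.e (nat_lit 516138) (nat_lit 7) (.e (nat_lit 409611) (nat_lit 10) (.e (nat_lit 5612) (nat_lit 312) .nil))))))) (.g (nat_lit 1) (.e (nat_lit 42625) (nat_lit 0) .nil) .nil)))) (.nd (nat_lit 9) 
(.lf (nat_lit 456058) (.g (nat_lit 3587) (.e (nat_lit 2667) (nat_lit 167) (.e (nat_lit 196668) (nat_lit 14) (.e (nat_lit 73753) (nat_lit 8) (.e (nat_lit 557105) (nat_lit 14) (.e (nat_lit 180252) (nat_lit 10) (.e (nat_lit 573473) (nat_lit 12) (.e (nat_lit 57511) (nat_lit 39) (.e (nat_lit 655104) (nat_lit 0) .nil)))))))) (.g (nat_lit 1) (.e (nat_lit 41962) (nat_lit 0) .nil) .nil))) 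
(.lf (nat_lit 456570) (.g (nat_lit 3013) (.e (nat_lit 2668) (nat_lit 167) (.e (nat_lit 196666) (nat_lit 13) (.e (nat_lit 65610) (nat_lit 10) (.e (nat_lit 344117) (nat_lit 21) (.e (nat_lit 516159) (nat_lit 10) (.e (nat_lit 434207) (nat_lit 18) (.e (nat_lit 4778) (nat_lit 281) (.e (nat_lit 2445) (nat_lit 157) .nil)))))))) (.g (nat_lit 1) (.e (nat_lit 42921) (nat_lit 0) .nil) .nil))))) 
(.nd (nat_lit 8) (.nd (nat_lit 9) 
(.lf (nat_lit 455930) (.g (nat_lit 2672) (.e (nat_lit 2666) (nat_lit 167) (.e (nat_lit 196666) (nat_lit 13) (.e (nat_lit 65610) (nat_lit 10) (.e (nat_lit 344117) (nat_lit 21) (.e (nat_lit 516151) (nat_lit 9) (.e (nat_lit 426023) (nat_lit 0) (.e (nat_lit 2403) (nat_lit 157) (.e (nat_lit 4825) (nat_lit 281) (.e (nat_lit 2477) (nat_lit 157) .nil))))))))) (.g (nat_lit 1) (.e (nat_lit 41695) (nat_lit 0) .nil) .nil))) 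
(.lf (nat_lit 456442) (.g (nat_lit 4170) (.e (nat_lit 2668) (nat_lit 167) (.e (nat_lit 196666) (nat_lit 13) (.e (nat_lit 65610) (nat_lit 10) (.e (nat_lit 344117) (nat_lit 21) (.e (nat_lit 516151) (nat_lit 9) (.e (nat_lit 426020) (nat_lit 0) (.e (nat_lit 3372) (nat_lit 208) (.e (nat_lit 622620) (nat_lit 13) .nil)))))))) (.g (nat_lit 1) (.e (nat_lit 42791) (nat_lit 0) .nil) .nil)))) 
(.nd (nat_lit 9) 
(.lf (nat_lit 456186) (.g (nat_lit 2429) (.e (nat_lit 2668) (nat_lit 167) (.e (nat_lit 196663) (nat_lit 13) (.e (nat_lit 65630) (nat_lit 14) (.e (nat_lit 401425) (nat_lit 2) (.e (nat_lit 196628) (nat_lit 9) (.e (nat_lit 1600) (nat_lit 112) (.e (nat_lit 376576) (nat_lit 0) .nil))))))) (.g (nat_lit 1) (.e (nat_lit 42449) (nat_lit 0) .nil) .nil))) 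
(.lf (nat_lit 456698) (.g (nat_lit 3257) (.e (nat_lit 2668) (nat_lit 167) (.e (nat_lit 196666) (nat_lit 13) (.e (nat_lit 65619) (nat_lit 10) (.e (nat_lit 344117) (nat_lit 21) (.e (nat_lit 516139) (nat_lit 7) (.e (nat_lit 409616) (nat_lit 10) (.e (nat_lit 7936) (nat_lit 312) .nil))))))) (.g (nat_lit 1) (.e (nat_lit 43161) (nat_lit 0) .nil) .nil)))))))))) 
(.nd (nat_lit 3) (.nd (nat_lit 4) (.nd (nat_lit 5) (.nd (nat_lit 6) (.nd (nat_lit 7) 
(.nd (nat_lit 8) (.nd (nat_lit 9) 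
(.lf (nat_lit 455686) (.g (nat_lit 2811) (.e (nat_lit 2664) (nat_lit 167) (.e (nat_lit 196666) (nat_lit 13) (.e (nat_lit 65610) (nat_lit 10) (.e (nat_lit 344117) (nat_lit 21) (.e (nat_lit 516160) (nat_lit 10) (.e (nat_lit 434208) (nat_lit 18) (.e (nat_lit 4754) (nat_lit 281) (.e (nat_lit 2487) (nat_lit 157) .nil)))))))) (.g (nat_lit 1) (.e (nat_lit 41267) (nat_lit 0) .nil) .nil))) 
(.lf (nat_lit 456198) (.g (nat_lit 4236) (.e (nat_lit 2668) (nat_lit 167) (.e (nat_lit 196666) (nat_lit 13) (.e (nat_lit 65598) (nat_lit 9) (.e (nat_lit 336028) (nat_lit 3) (.e (nat_lit 98350) (nat_lit 24) (.e (nat_lit 409616) (nat_lit 10) (.e (nat_lit 7936) (nat_lit 312) .nil))))))) (.g (nat_lit 1) (.e (nat_lit 42496) (nat_lit 0) .nil) .nil)))) (.nd (nat_lit 9) 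
(.lf (nat_lit 455942) (.g (nat_lit 3410) (.e (nat_lit 2666) (nat_lit 167) (.e (nat_lit 196666) (nat_lit 13) (.e (nat_lit 65610) (nat_lit 10) (.e (nat_lit 344117) (nat_lit 21) (.e (nat_lit 516151) (nat_lit 9) (.e (nat_lit 426042) (nat_lit 0) (.e (nat_lit 3371) (nat_lit 208) (.e (nat_lit 622620) (nat_lit 13) .nil)))))))) (.g (nat_lit 1) (.e (nat_lit 41707) (nat_lit 0) .nil) .nil))) 
(.lf (nat_lit 456454) (.g (nat_lit 2451) (.e (nat_lit 2668) (nat_lit 167) (.e (nat_lit 196666) (nat_lit 13) (.e (nat_lit 65610) (nat_lit 10) (.e (nat_lit 344117) (nat_lit 21) (.e (nat_lit 516151) (nat_lit 9) (.e (nat_lit 426022) (nat_lit 0) (.e (nat_lit 2402) (nat_lit 157) (.e (nat_lit 4761) (nat_lit 281) (.e (nat_lit 2433) (nat_lit 157) .nil))))))))) (.g (nat_lit 1) (.e (nat_lit 42803) (nat_lit 0) .nil) .nil))))) 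
(.nd (nat_lit 8) (.nd (nat_lit 9) 
(.lf (nat_lit 455814) (.g (nat_lit 1973) (.e (nat_lit 2664) (nat_lit 167) (.e (nat_lit 196673) (nat_lit 15) (.e (nat_lit 81938) (nat_lit 20) (.e (nat_lit 1842) (nat_lit 123) (.e (nat_lit 548890) (nat_lit 10) (.e (nat_lit 73782) (nat_lit 32) .nil)))))) (.g (nat_lit 1) (.e (nat_lit 41435) (nat_lit 0) .nil) .nil))) 
(.lf (nat_lit 456326) (.g (nat_lit 1985) (.e (nat_lit 2668) (nat_lit 167) (.e (nat_lit 196666) (nat_lit 13) (.e (nat_lit 65610) (nat_lit 10) (.e (nat_lit 344117) (nat_lit 21) (.e (nat_lit 516138) (nat_lit 7) (.e (nat_lit 409615) (nat_lit 10) (.e (nat_lit 5628) (nat_lit 312) .nil))))))) (.g (nat_lit 1) (.e (nat_lit 42637) (nat_lit 0) .nil) .nil)))) (.nd (nat_lit 9) 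
(.lf (nat_lit 456070) (.g (nat_lit 3698) (.e (nat_lit 2667) (nat_lit 167) (.e (nat_lit 196669) (nat_lit 14) (.e (nat_lit 73755) (nat_lit 8) (.e (nat_lit 557105) (nat_lit 14) (.e (nat_lit 180252) (nat_lit 10) (.e (nat_lit 573474) (nat_lit 12) (.e (nat_lit 57505) (nat_lit 39) (.e (nat_lit 655104) (nat_lit 0) .nil)))))))) (.g (nat_lit 1) (.e (nat_lit 42017) (nat_lit 0) .nil) .nil))) 
(.lf (nat_lit 456582) (.g (nat_lit 2941) (.e (nat_lit 2668) (nat_lit 167) (.e (nat_lit 196666) (nat_lit 13) (.e (nat_lit 65610) (nat_lit 10) (.e (nat_lit 344117) (nat_lit 21) (.e (nat_lit 516160) (nat_lit 10) (.e (nat_lit 434206) (nat_lit 18) (.e (nat_lit 4778) (nat_lit 281) (.e (nat_lit 2444) (nat_lit 157) .nil)))))))) (.g (nat_lit 1) (.e (nat_lit 42933) (nat_lit 0) .nil) .nil)))))) 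
(.nd (nat_lit 7) (.nd (nat_lit 8) (.nd (nat_lit 9) 
(.lf (nat_lit 455750) (.g (nat_lit 3922) (.e (nat_lit 2664) (nat_lit 167) (.e (nat_lit 196666) (nat_lit 13) (.e (nat_lit 65624) (nat_lit 12) (.e (nat_lit 385074) (nat_lit 31) (.e (nat_lit 573489) (nat_lit 14) (.e (nat_lit 73781) (nat_lit 32) .nil)))))) (.g (nat_lit 1) (.e (nat_lit 41358) (nat_lit 0) .nil) .nil))) 
(.lf (nat_lit 456262) (.g (nat_lit 3555) (.e (nat_lit 2668) (nat_lit 167) (.e (nat_lit 196666) (nat_lit 13) (.e (nat_lit 65610) (nat_lit 10) (.e (nat_lit 344117) (nat_lit 21) (.e (nat_lit 516106) (nat_lit 0) (.e (nat_lit 6986) (nat_lit 377) (.e (nat_lit 2397) (nat_lit 157) (.e (nat_lit 5616) (nat_lit 312) .nil)))))))) (.g (nat_lit 1) (.e (nat_lit 42573) (nat_lit 0) .nil) .nil)))) (.nd (nat_lit 9) 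
(.lf (nat_lit 456006) (.g (nat_lit 4594) (.e (nat_lit 2666) (nat_lit 167) (.e (nat_lit 196672) (nat_lit 15) (.e (nat_lit 81956) (nat_lit 23) (.e (nat_lit 98350) (nat_lit 24) (.e (nat_lit 409616) (nat_lit 10) .nil))))) (.g (nat_lit 0) (.e (nat_lit 41859) (nat_lit 0) .nil) .nil))) 
(.lf (nat_lit 456518) (.g (nat_lit 3429) (.e (nat_lit 2668) (nat_lit 167) (.e (nat_lit 196666) (nat_lit 13) (.e (nat_lit 65610) (nat_lit 10) (.e (nat_lit 344117) (nat_lit 21) (.e (nat_lit 516151) (nat_lit 9) (.e (nat_lit 426042) (nat_lit 0) (.e (nat_lit 3370) (nat_lit 208) (.e (nat_lit 622622) (nat_lit 13) .nil)))))))) (.g (nat_lit 1) (.e (nat_lit 42867) (nat_lit 0) .nil) .nil))))) 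
(.nd (nat_lit 8) (.nd (nat_lit 9) 
(.lf (nat_lit 455878) (.g (nat_lit 3165) (.e (nat_lit 2666) (nat_lit 167) (.e (nat_lit 196666) (nat_lit 13) (.e (nat_lit 65571) (nat_lit 3) (.e (nat_lit 98334) (nat_lit 18) (.e (nat_lit 164183) (nat_lit 154) (.e (nat_lit 57379) (nat_lit 3) (.e (nat_lit 98338) (nat_lit 19) (.e (nat_lit 213013) (nat_lit 9) .nil)))))))) (.g (nat_lit 1) (.e (nat_lit 41574) (nat_lit 0) .nil) .nil))) 
(.lf (nat_lit 456390) (.g (nat_lit 3083) (.e (nat_lit 2668) (nat_lit 167) (.e (nat_lit 196666) (nat_lit 13) (.e (nat_lit 65610) (nat_lit 10) (.e (nat_lit 344117) (nat_lit 21) (.e (nat_lit 516142) (nat_lit 8) (.e (nat_lit 417814) (nat_lit 10) (.e (nat_lit 5612) (nat_lit 312) .nil))))))) (.g (nat_lit 1) (.e (nat_lit 42701) (nat_lit 0) .nil) .nil)))) (.nd (nat_lit 9) 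
(.lf (nat_lit 456134) (.g (nat_lit 4061) (.e (nat_lit 2667) (nat_lit 167) (.e (nat_lit 196670) (nat_lit 14) (.e (nat_lit 73754) (nat_lit 8) (.e (nat_lit 557105) (nat_lit 14) (.e (nat_lit 180252) (nat_lit 10) (.e (nat_lit 573473) (nat_lit 12) (.e (nat_lit 57508) (nat_lit 39) (.e (nat_lit 647175) (nat_lit 0) .nil)))))))) (.g (nat_lit 1) (.e (nat_lit 42082) (nat_lit 0) .nil) .nil))) 
(.lf (nat_lit 456646) (.g (nat_lit 1688) (.e (nat_lit 2668) (nat_lit 167) (.e (nat_lit 196666) (nat_lit 13) (.e (nat_lit 65617) (nat_lit 10) (.e (nat_lit 344130) (nat_lit 26) (.e (nat_lit 557065) (nat_lit 9) .nil))))) (.g (nat_lit 0) (.e (nat_lit 43066) (nat_lit 0) .nil) .nil))))))) (.nd (nat_lit 6) (.nd (nat_lit 7) (.nd (nat_lit 8) (.nd (nat_lit 9) 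
(.lf (nat_lit 455718) (.g (nat_lit 2393) (.e (nat_lit 2664) (nat_lit 167) (.e (nat_lit 196666) (nat_lit 13) (.e (nat_lit 65617) (nat_lit 10) (.e (nat_lit 344124) (nat_lit 25) (.e (nat_lit 548890) (nat_lit 10) (.e (nat_lit 73781) (nat_lit 32) .nil)))))) (.g (nat_lit 1) (.e (nat_lit 41319) (nat_lit 0) .nil) .nil))) 
(.lf (nat_lit 456230) (.g (nat_lit 2463) (.e (nat_lit 2668) (nat_lit 167) (.e (nat_lit 196666) (nat_lit 13) (.e (nat_lit 65610) (nat_lit 10) (.e (nat_lit 344117) (nat_lit 21) (.e (nat_lit 516098) (nat_lit 0) (.e (nat_lit 7073) (nat_lit 377) (.e (nat_lit 2427) (nat_lit 157) (.e (nat_lit 5616) (nat_lit 312) .nil)))))))) (.g (nat_lit 1) (.e (nat_lit 42541) (nat_lit 0) .nil) .nil)))) (.nd (nat_lit 9) 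
(.lf (nat_lit 455974) (.g (nat_lit 1793) (.e (nat_lit 2666) (nat_lit 167) (.e (nat_lit 196666) (nat_lit 13) (.e (nat_lit 65610) (nat_lit 10) (.e (nat_lit 344129) (nat_lit 26) (.e (nat_lit 557087) (nat_lit 11) .nil))))) (.g (nat_lit 0) (.e (nat_lit 41779) (nat_lit 0) .nil) .nil))) 
(.lf (nat_lit 456486) (.g (nat_lit 4797) (.e (nat_lit 2668) (nat_lit 167) (.e (nat_lit 196666) (nat_lit 13) (.e (nat_lit 65610) (nat_lit 10) (.e (nat_lit 344117) (nat_lit 21) (.e (nat_lit 516151) (nat_lit 9) (.e (nat_lit 426038) (nat_lit 0) (.e (nat_lit 2426) (nat_lit 157) (.e (nat_lit 4778) (nat_lit 281) (.e (nat_lit 2445) (nat_lit 157) .nil))))))))) (.g (nat_lit 1) (.e (nat_lit 42835) (nat_lit 0) .nil) .nil))))) 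
(.nd (nat_lit 8) (.nd (nat_lit 9) 
(.lf (nat_lit 455846) (.g (nat_lit 1971) (.e (nat_lit 2665) (nat_lit 167) (.e (nat_lit 196669) (nat_lit 14) (.e (nat_lit 73755) (nat_lit 8) (.e (nat_lit 557105) (nat_lit 14) (.e (nat_lit 180252) (nat_lit 10) .nil))))) (.g (nat_lit 0) (.e (nat_lit 41510) (nat_lit 0) .nil) .nil))) 
(.lf (nat_lit 456358) (.g (nat_lit 2647) (.e (nat_lit 2668) (nat_lit 167) (.e (nat_lit 196666) (nat_lit 13) (.e (nat_lit 65610) (nat_lit 10) (.e (nat_lit 344117) (nat_lit 21) (.e (nat_lit 516139) (nat_lit 7) (.e (nat_lit 409615) (nat_lit 10) (.e (nat_lit 5616) (nat_lit 312) .nil))))))) (.g (nat_lit 1) (.e (nat_lit 42669) (nat_lit 0) .nil) .nil)))) (.nd (nat_lit 9) 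
(.lf (nat_lit 456102) (.g (nat_lit 2401) (.e (nat_lit 2667) (nat_lit 167) (.e (nat_lit 196670) (nat_lit 14) (.e (nat_lit 73753) (nat_lit 8) (.e (nat_lit 557105) (nat_lit 14) (.e (nat_lit 180251) (nat_lit 10) (.e (nat_lit 573477) (nat_lit 12) (.e (nat_lit 57509) (nat_lit 39) (.e (nat_lit 655104) (nat_lit 0) .nil)))))))) (.g (nat_lit 1) (.e (nat_lit 42050) (nat_lit 0) .nil) .nil))) 
(.lf (nat_lit 456614) (.g (nat_lit 2749) (.e (nat_lit 2668) (nat_lit 167) (.e (nat_lit 196666) (nat_lit 13) (.e (nat_lit 65610) (nat_lit 10) (.e (nat_lit 344129) (nat_lit 26) (.e (nat_lit 557087) (nat_lit 11) (.e (nat_lit 24583) (nat_lit 0) (.e (nat_lit 7936) (nat_lit 357) .nil))))))) (.g (nat_lit 1) (.e (nat_lit 43013) (nat_lit 0) .nil) .nil)))))) 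
(.nd (nat_lit 7) (.nd (nat_lit 8) (.nd (nat_lit 9) 
(.lf (nat_lit 455782) (.g (nat_lit 2506) (.e (nat_lit 2664) (nat_lit 167) (.e (nat_lit 196672) (nat_lit 15) (.e (nat_lit 81943) (nat_lit 20) (.e (nat_lit 1840) (nat_lit 123) (.e (nat_lit 548889) (nat_lit 9) (.e (nat_lit 65545) (nat_lit 0) (.e (nat_lit 6684) (nat_lit 357) .nil))))))) (.g (nat_lit 1) (.e (nat_lit 41398) (nat_lit 0) .nil) .nil))) 
(.lf (nat_lit 456294) (.g (nat_lit 2175) (.e (nat_lit 2668) (nat_lit 167) (.e (nat_lit 196666) (nat_lit 13) (.e (nat_lit 65610) (nat_lit 10) (.e (nat_lit 344117) (nat_lit 21) (.e (nat_lit 516106) (nat_lit 0) (.e (nat_lit 7008) (nat_lit 377) (.e (nat_lit 2448) (nat_lit 157) (.e (nat_lit 5627) (nat_lit 312) .nil)))))))) (.g (nat_lit 1) (.e (nat_lit 42605) (nat_lit 0) .nil) .nil)))) (.nd (nat_lit 9) 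
(.lf (nat_lit 456038) (.g (nat_lit 2887) (.e (nat_lit 2667) (nat_lit 167) (.e (nat_lit 196668) (nat_lit 14) (.e (nat_lit 73753) (nat_lit 8) (.e (nat_lit 557103) (nat_lit 14) (.e (nat_lit 180250) (nat_lit 10) (.e (nat_lit 573474) (nat_lit 12) (.e (nat_lit 57511) (nat_lit 39) (.e (nat_lit 655104) (nat_lit 0) .nil)))))))) (.g (nat_lit 1) (.e (nat_lit 41942) (nat_lit 0) .nil) .nil))) 
(.lf (nat_lit 456550) (.g (nat_lit 4142) (.e (nat_lit 2668) (nat_lit 167) (.e (nat_lit 196666) (nat_lit 13) (.e (nat_lit 65610) (nat_lit 10) (.e (nat_lit 344117) (nat_lit 21) (.e (nat_lit 516151) (nat_lit 9) (.e (nat_lit 426047) (nat_lit 0) (.e (nat_lit 3370) (nat_lit 208) (.e (nat_lit 622620) (nat_lit 13) .nil)))))))) (.g (nat_lit 1) (.e (nat_lit 42899) (nat_lit 0) .nil) .nil))))) 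
(.nd (nat_lit 8) (.nd (nat_lit 9) 
(.lf (nat_lit 455910) (.g (nat_lit 2647) (.e (nat_lit 2666) (nat_lit 167) (.e (nat_lit 196666) (nat_lit 13) (.e (nat_lit 65610) (nat_lit 10) (.e (nat_lit 344117) (nat_lit 21) (.e (nat_lit 516151) (nat_lit 9) (.e (nat_lit 426018) (nat_lit 0) (.e (nat_lit 2398) (nat_lit 157) (.e (nat_lit 4829) (nat_lit 281) (.e (nat_lit 2416) (nat_lit 157) .nil))))))))) (.g (nat_lit 1) (.e (nat_lit 41675) (nat_lit 0) .nil) .nil))) 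
(.lf (nat_lit 456422) (.g (nat_lit 4087) (.e (nat_lit 2668) (nat_lit 167) (.e (nat_lit 196666) (nat_lit 13) (.e (nat_lit 65610) (nat_lit 10) (.e (nat_lit 344117) (nat_lit 21) (.e (nat_lit 516151) (nat_lit 9) (.e (nat_lit 426017) (nat_lit 0) (.e (nat_lit 3366) (nat_lit 208) (.e (nat_lit 622620) (nat_lit 13) .nil)))))))) (.g (nat_lit 1) (.e (nat_lit 42771) (nat_lit 0) .nil) .nil)))) 
(.nd (nat_lit 9) 
(.lf (nat_lit 456166) (.g (nat_lit 3254) (.e (nat_lit 2667) (nat_lit 167) (.e (nat_lit 196672) (nat_lit 15) (.e (nat_lit 81954) (nat_lit 23) (.e (nat_lit 98350) (nat_lit 24) (.e (nat_lit 409609) (nat_lit 10) (.e (nat_lit 5735) (nat_lit 312) .nil)))))) (.g (nat_lit 1) (.e (nat_lit 42234) (nat_lit 0) .nil) .nil))) 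
(.lf (nat_lit 456678) (.g (nat_lit 2673) (.e (nat_lit 2668) (nat_lit 167) (.e (nat_lit 196666) (nat_lit 13) (.e (nat_lit 65617) (nat_lit 10) (.e (nat_lit 344132) (nat_lit 26) (.e (nat_lit 557087) (nat_lit 11) (.e (nat_lit 24580) (nat_lit 0) (.e (nat_lit 6619) (nat_lit 357) .nil))))))) (.g (nat_lit 1) (.e (nat_lit 43124) (nat_lit 0) .nil) .nil)))))))) 
(.nd (nat_lit 5) (.nd (nat_lit 6) (.nd (nat_lit 7) (.nd (nat_lit 8) (.nd (nat_lit 9) 
(.lf (nat_lit 455702) (.g (nat_lit 3976) (.e (nat_lit 2664) (nat_lit 167) (.e (nat_lit 196666) (nat_lit 13) (.e (nat_lit 65610) (nat_lit 10) (.e (nat_lit 344126) (nat_lit 25) (.e (nat_lit 548889) (nat_lit 9) (.e (nat_lit 65543) (nat_lit 0) (.e (nat_lit 6676) (nat_lit 357) .nil))))))) (.g (nat_lit 1) (.e (nat_lit 41287) (nat_lit 0) .nil) .nil))) 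
(.lf (nat_lit 456214) (.g (nat_lit 3396) (.e (nat_lit 2668) (nat_lit 167) (.e (nat_lit 196666) (nat_lit 13) (.e (nat_lit 65610) (nat_lit 10) (.e (nat_lit 344117) (nat_lit 21) (.e (nat_lit 516097) (nat_lit 0) (.e (nat_lit 7030) (nat_lit 377) (.e (nat_lit 2443) (nat_lit 157) (.e (nat_lit 5627) (nat_lit 312) .nil)))))))) (.g (nat_lit 1) (.e (nat_lit 42525) (nat_lit 0) .nil) .nil)))) (.nd (nat_lit 9) 
(.lf (nat_lit 455958) (.g (nat_lit 2533) (.e (nat_lit 2666) (nat_lit 167) (.e (nat_lit 196666) (nat_lit 13) (.e (nat_lit 65610) (nat_lit 10) (.e (nat_lit 344117) (nat_lit 21) (.e (nat_lit 516151) (nat_lit 9) (.e (nat_lit 426104) (nat_lit 1) (.e (nat_lit 164259) (nat_lit 215) (.e (nat_lit 2416) (nat_lit 157) .nil)))))))) (.g (nat_lit 1) (.e (nat_lit 41723) (nat_lit 0) .nil) .nil))) 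
(.lf (nat_lit 456470) (.g (nat_lit 4279) (.e (nat_lit 2668) (nat_lit 167) (.e (nat_lit 196666) (nat_lit 13) (.e (nat_lit 65610) (nat_lit 10) (.e (nat_lit 344117) (nat_lit 21) (.e (nat_lit 516151) (nat_lit 9) (.e (nat_lit 426034) (nat_lit 0) (.e (nat_lit 3366) (nat_lit 208) (.e (nat_lit 622620) (nat_lit 13) .nil)))))))) (.g (nat_lit 1) (.e (nat_lit 42819) (nat_lit 0) .nil) .nil))))) 
(.nd (nat_lit 8) (.nd (nat_lit 9) 
(.lf (nat_lit 455830) (.g (nat_lit 2083) (.e (nat_lit 2664) (nat_lit 167) (.e (nat_lit 196674) (nat_lit 15) (.e (nat_lit 81947) (nat_lit 20) (.e (nat_lit 1841) (nat_lit 123) (.e (nat_lit 548889) (nat_lit 9) (.e (nat_lit 65540) (nat_lit 0) (.e (nat_lit 6681) (nat_lit 357) .nil))))))) (.g (nat_lit 1) (.e (nat_lit 41453) (nat_lit 0) .nil) .nil))) 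
(.lf (nat_lit 456342) (.g (nat_lit 3684) (.e (nat_lit 2668) (nat_lit 167) (.e (nat_lit 196666) (nat_lit 13) (.e (nat_lit 65610) (nat_lit 10) (.e (nat_lit 344117) (nat_lit 21) (.e (nat_lit 516139) (nat_lit 7) (.e (nat_lit 409608) (nat_lit 10) (.e (nat_lit 5627) (nat_lit 312) .nil))))))) (.g (nat_lit 1) (.e (nat_lit 42653) (nat_lit 0) .nil) .nil)))) (.nd (nat_lit 9) 
(.lf (nat_lit 456086) (.g (nat_lit 1973) (.e (nat_lit 2667) (nat_lit 167) (.e (nat_lit 196670) (nat_lit 14) (.e (nat_lit 73746) (nat_lit 3) (.e (nat_lit 516131) (nat_lit 3) (.e (nat_lit 221212) (nat_lit 22) (.e (nat_lit 196658) (nat_lit 12) (.e (nat_lit 57508) (nat_lit 39) (.e (nat_lit 655104) (nat_lit 0) .nil)))))))) (.g (nat_lit 1) (.e (nat_lit 42033) (nat_lit 0) .nil) .nil))) 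
(.lf (nat_lit 456598) (.g (nat_lit 2016) (.e (nat_lit 2668) (nat_lit 167) (.e (nat_lit 196666) (nat_lit 13) (.e (nat_lit 65610) (nat_lit 10) (.e (nat_lit 344124) (nat_lit 25) .nil)))) (.g (nat_lit 0) (.e (nat_lit 42968) (nat_lit 0) .nil) .nil)))))) (.nd (nat_lit 7) (.nd (nat_lit 8) (.nd (nat_lit 9) 
(.lf (nat_lit 455766) (.g (nat_lit 2239) (.e (nat_lit 2664) (nat_lit 167) (.e (nat_lit 196666) (nat_lit 13) (.e (nat_lit 65630) (nat_lit 14) (.e (nat_lit 401428) (nat_lit 3) (.e (nat_lit 204862) (nat_lit 27) (.e (nat_lit 344068) (nat_lit 0) .nil)))))) (.g (nat_lit 1) (.e (nat_lit 41377) (nat_lit 0) .nil) .nil))) 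
(.lf (nat_lit 456278) (.g (nat_lit 2288) (.e (nat_lit 2668) (nat_lit 167) (.e (nat_lit 196666) (nat_lit 13) (.e (nat_lit 65610) (nat_lit 10) (.e (nat_lit 344117) (nat_lit 21) (.e (nat_lit 516106) (nat_lit 0) (.e (nat_lit 7008) (nat_lit 377) (.e (nat_lit 2416) (nat_lit 157) (.e (nat_lit 5627) (nat_lit 312) .nil)))))))) (.g (nat_lit 1) (.e (nat_lit 42589) (nat_lit 0) .nil) .nil)))) (.nd (nat_lit 9) 
(.lf (nat_lit 456022) (.g (nat_lit 2696) (.e (nat_lit 2667) (nat_lit 167) (.e (nat_lit 196666) (nat_lit 13) (.e (nat_lit 65617) (nat_lit 10) (.e (nat_lit 344130) (nat_lit 26) (.e (nat_lit 557087) (nat_lit 11) (.e (nat_lit 24580) (nat_lit 0) (.e (nat_lit 6696) (nat_lit 357) .nil))))))) (.g (nat_lit 1) (.e (nat_lit 41899) (nat_lit 0) .nil) .nil))) 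
(.lf (nat_lit 456534) (.g (nat_lit 2820) (.e (nat_lit 2668) (nat_lit 167) (.e (nat_lit 196666) (nat_lit 13) (.e (nat_lit 65610) (nat_lit 10) (.e (nat_lit 344117) (nat_lit 21) (.e (nat_lit 516151) (nat_lit 9) (.e (nat_lit 426043) (nat_lit 0) (.e (nat_lit 3371) (nat_lit 208) (.e (nat_lit 622623) (nat_lit 13) .nil)))))))) (.g (nat_lit 1) (.e (nat_lit 42883) (nat_lit 0) .nil) .nil))))) 
(.nd (nat_lit 8) (.nd (nat_lit 9) 
(.lf (nat_lit 455894) (.g (nat_lit 3190) (.e (nat_lit 2666) (nat_lit 167) (.e (nat_lit 196666) (nat_lit 13) (.e (nat_lit 65610) (nat_lit 10) (.e (nat_lit 344117) (nat_lit 21) (.e (nat_lit 516139) (nat_lit 7) (.e (nat_lit 409610) (nat_lit 10) (.e (nat_lit 5735) (nat_lit 312) .nil))))))) (.g (nat_lit 1) (.e (nat_lit 41657) (nat_lit 0) .nil) .nil))) 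
(.lf (nat_lit 456406) (.g (nat_lit 3686) (.e (nat_lit 2668) (nat_lit 167) (.e (nat_lit 196666) (nat_lit 13) (.e (nat_lit 65610) (nat_lit 10) (.e (nat_lit 344117) (nat_lit 21) (.e (nat_lit 516142) (nat_lit 8) (.e (nat_lit 417819) (nat_lit 10) (.e (nat_lit 5612) (nat_lit 312) .nil))))))) (.g (nat_lit 1) (.e (nat_lit 42717) (nat_lit 0) .nil) .nil)))) (.nd (nat_lit 9) 
(.lf (nat_lit 456150) (.g (nat_lit 4014) (.e (nat_lit 2667) (nat_lit 167) (.e (nat_lit 196670) (nat_lit 14) (.e (nat_lit 73754) (nat_lit 8) (.e (nat_lit 557105) (nat_lit 14) (.e (nat_lit 180252) (nat_lit 10) (.e (nat_lit 573475) (nat_lit 12) (.e (nat_lit 57508) (nat_lit 39) (.e (nat_lit 655104) (nat_lit 0) .nil)))))))) (.g (nat_lit 1) (.e (nat_lit 42098) (nat_lit 0) .nil) .nil))) 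
(.lf (nat_lit 456662) (.g (nat_lit 3649) (.e (nat_lit 2668) (nat_lit 167) (.e (nat_lit 196666) (nat_lit 13) (.e (nat_lit 65617) (nat_lit 10) (.e (nat_lit 344130) (nat_lit 26) (.e (nat_lit 557087) (nat_lit 11) (.e (nat_lit 24584) (nat_lit 0) (.e (nat_lit 7936) (nat_lit 357) .nil))))))) (.g (nat_lit 1) (.e (nat_lit 43100) (nat_lit 0) .nil) .nil))))))) 
(.nd (nat_lit 6) (.nd (nat_lit 7) (.nd (nat_lit 8) (.nd (nat_lit 9) 
(.lf (nat_lit 455734) (.g (nat_lit 3532) (.e (nat_lit 2664) (nat_lit 167) (.e (nat_lit 196666) (nat_lit 13) (.e (nat_lit 65617) (nat_lit 10) (.e (nat_lit 344130) (nat_lit 26) (.e (nat_lit 557087) (nat_lit 11) (.e (nat_lit 24581) (nat_lit 0) (.e (nat_lit 6684) (nat_lit 357) .nil))))))) (.g (nat_lit 1) (.e (nat_lit 41336) (nat_lit 0) .nil) .nil))) 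
(.lf (nat_lit 456246) (.g (nat_lit 3248) (.e (nat_lit 2668) (nat_lit 167) (.e (nat_lit 196666) (nat_lit 13) (.e (nat_lit 65610) (nat_lit 10) (.e (nat_lit 344117) (nat_lit 21) (.e (nat_lit 516099) (nat_lit 0) (.e (nat_lit 7062) (nat_lit 377) (.e (nat_lit 2445) (nat_lit 157) (.e (nat_lit 5627) (nat_lit 312) .nil)))))))) (.g (nat_lit 1) (.e (nat_lit 42557) (nat_lit 0) .nil) .nil)))) (.nd (nat_lit 9) 
(.lf (nat_lit 455990) (.g (nat_lit 2609) (.e (nat_lit 2666) (nat_lit 167) (.e (nat_lit 196666) (nat_lit 13) (.e (nat_lit 65617) (nat_lit 10) (.e (nat_lit 344132) (nat_lit 26) .nil)))) (.g (nat_lit 0) (.e (nat_lit 41803) (nat_lit 0) .nil) .nil))) 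
(.lf (nat_lit 456502) (.g (nat_lit 3978) (.e (nat_lit 2668) (nat_lit 167) (.e (nat_lit 196666) (nat_lit 13) (.e (nat_lit 65610) (nat_lit 10) (.e (nat_lit 344117) (nat_lit 21) (.e (nat_lit 516151) (nat_lit 9) (.e (nat_lit 426040) (nat_lit 0) (.e (nat_lit 3366) (nat_lit 208) (.e (nat_lit 622623) (nat_lit 13) .nil)))))))) (.g (nat_lit 1) (.e (nat_lit 42851) (nat_lit 0) .nil) .nil))))) 
(.nd (nat_lit 8) (.nd (nat_lit 9) 
(.lf (nat_lit 455862) (.g (nat_lit 3225) (.e (nat_lit 2666) (nat_lit 167) (.e (nat_lit 196666) (nat_lit 13) (.e (nat_lit 65569) (nat_lit 3) (.e (nat_lit 98333) (nat_lit 18) (.e (nat_lit 164183) (nat_lit 154) .nil))))) (.g (nat_lit 0) (.e (nat_lit 41542) (nat_lit 0) .nil) .nil))) 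
(.lf (nat_lit 456374) (.g (nat_lit 2179) (.e (nat_lit 2668) (nat_lit 167) (.e (nat_lit 196666) (nat_lit 13) (.e (nat_lit 65610) (nat_lit 10) (.e (nat_lit 344117) (nat_lit 21) (.e (nat_lit 516140) (nat_lit 8) .nil))))) (.g (nat_lit 0) (.e (nat_lit 42685) (nat_lit 0) .nil) .nil)))) (.nd (nat_lit 9) 
(.lf (nat_lit 456118) (.g (nat_lit 4294) (.e (nat_lit 2667) (nat_lit 167) (.e (nat_lit 196670) (nat_lit 14) (.e (nat_lit 73753) (nat_lit 8) (.e (nat_lit 557105) (nat_lit 14) (.e (nat_lit 180252) (nat_lit 10) (.e (nat_lit 573474) (nat_lit 12) (.e (nat_lit 57508) (nat_lit 39) (.e (nat_lit 647175) (nat_lit 0) .nil)))))))) (.g (nat_lit 1) (.e (nat_lit 42066) (nat_lit 0) .nil) .nil))) 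
(.lf (nat_lit 456630) (.g (nat_lit 4882) (.e (nat_lit 2668) (nat_lit 167) (.e (nat_lit 196666) (nat_lit 13) (.e (nat_lit 65617) (nat_lit 10) (.e (nat_lit 344117) (nat_lit 21) (.e (nat_lit 516139) (nat_lit 7) (.e (nat_lit 409617) (nat_lit 10) (.e (nat_lit 5616) (nat_lit 312) .nil))))))) (.g (nat_lit 1) (.e (nat_lit 43038) (nat_lit 0) .nil) .nil)))))) 
(.nd (nat_lit 7) (.nd (nat_lit 8) (.nd (nat_lit 9) 
(.lf (nat_lit 455798) (.g (nat_lit 1102) (.e (nat_lit 2664) (nat_lit 167) (.e (nat_lit 196672) (nat_lit 15) (.e (nat_lit 81954) (nat_lit 23) (.e (nat_lit 98325) (nat_lit 17) .nil)))) (.g (nat_lit 0) (.e (nat_lit 41419) (nat_lit 0) .nil) .nil))) 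
(.lf (nat_lit 456310) (.g (nat_lit 3589) (.e (nat_lit 2668) (nat_lit 167) (.e (nat_lit 196666) (nat_lit 13) (.e (nat_lit 65610) (nat_lit 10) (.e (nat_lit 344117) (nat_lit 21) (.e (nat_lit 524032) (nat_lit 0) (.e (nat_lit 7098) (nat_lit 380) (.e (nat_lit 164351) (nat_lit 246) .nil))))))) (.g (nat_lit 1) (.e (nat_lit 42621) (nat_lit 0) .nil) .nil)))) (.nd (nat_lit 9) 
(.lf (nat_lit 456054) (.g (nat_lit 2728) (.e (nat_lit 2667) (nat_lit 167) (.e (nat_lit 196668) (nat_lit 14) (.e (nat_lit 73753) (nat_lit 8) (.e (nat_lit 557105) (nat_lit 14) (.e (nat_lit 180252) (nat_lit 10) .nil))))) (.g (nat_lit 0) (.e (nat_lit 41958) (nat_lit 0) .nil) .nil))) 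
(.lf (nat_lit 456566) (.g (nat_lit 3559) (.e (nat_lit 2668) (nat_lit 167) (.e (nat_lit 196666) (nat_lit 13) (.e (nat_lit 65610) (nat_lit 10) (.e (nat_lit 344117) (nat_lit 21) (.e (nat_lit 516159) (nat_lit 10) (.e (nat_lit 434202) (nat_lit 18) (.e (nat_lit 4778) (nat_lit 281) (.e (nat_lit 2445) (nat_lit 157) .nil)))))))) (.g (nat_lit 1) (.e (nat_lit 42917) (nat_lit 0) .nil) .nil))))) 
(.nd (nat_lit 8) (.nd (nat_lit 9) 
(.lf (nat_lit 455926) (.g (nat_lit 4573) (.e (nat_lit 2666) (nat_lit 167) (.e (nat_lit 196666) (nat_lit 13) (.e (nat_lit 65610) (nat_lit 10) (.e (nat_lit 344117) (nat_lit 21) (.e (nat_lit 516151) (nat_lit 9) (.e (nat_lit 426022) (nat_lit 0) (.e (nat_lit 3363) (nat_lit 208) (.e (nat_lit 630528) (nat_lit 13) .nil)))))))) (.g (nat_lit 1) (.e (nat_lit 41691) (nat_lit 0) .nil) .nil))) 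
(.lf (nat_lit 456438) (.g (nat_lit 4964) (.e (nat_lit 2668) (nat_lit 167) (.e (nat_lit 196666) (nat_lit 13) (.e (nat_lit 65610) (nat_lit 10) (.e (nat_lit 344117) (nat_lit 21) (.e (nat_lit 516151) (nat_lit 9) (.e (nat_lit 426020) (nat_lit 0) (.e (nat_lit 3367) (nat_lit 208) (.e (nat_lit 622624) (nat_lit 13) .nil)))))))) (.g (nat_lit 1) (.e (nat_lit 42787) (nat_lit 0) .nil) .nil)))) 
(.nd (nat_lit 9) 
(.lf (nat_lit 456182) (.g (nat_lit 2459) (.e (nat_lit 2668) (nat_lit 167) (.e (nat_lit 196656) (nat_lit 11) (.e (nat_lit 16465) (nat_lit 13) (.e (nat_lit 483341) (nat_lit 9) (.e (nat_lit 426108) (nat_lit 1) .nil))))) (.g (nat_lit 0) (.e (nat_lit 42443) (nat_lit 0) .nil) .nil))) 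
(.lf (nat_lit 456694) (.g (nat_lit 2140) (.e (nat_lit 2668) (nat_lit 167) (.e (nat_lit 196666) (nat_lit 13) (.e (nat_lit 65617) (nat_lit 10) (.e (nat_lit 344133) (nat_lit 26) (.e (nat_lit 557091) (nat_lit 12) (.e (nat_lit 163843) (nat_lit 0) (.e (nat_lit 6420) (nat_lit 341) (.e (nat_lit 163850) (nat_lit 0) (.e (nat_lit 7936) (nat_lit 388) .nil))))))))) (.g (nat_lit 1) (.e (nat_lit 43157) (nat_lit 0) .nil) .nil))))))))) 
(.nd (nat_lit 4) (.nd (nat_lit 5) (.nd (nat_lit 6) (.nd (nat_lit 7) (.nd (nat_lit 8) 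
(.nd (nat_lit 9) 
(.lf (nat_lit 455694) (.g (nat_lit 3087) (.e (nat_lit 2664) (nat_lit 167) (.e (nat_lit 196666) (nat_lit 13) (.e (nat_lit 65610) (nat_lit 10) (.e (nat_lit 344117) (nat_lit 21) (.e (nat_lit 516185) (nat_lit 16) (.e (nat_lit 491526) (nat_lit 0) (.e (nat_lit 7936) (nat_lit 357) .nil))))))) (.g (nat_lit 1) (.e (nat_lit 41276) (nat_lit 0) .nil) .nil))) 
(.lf (nat_lit 456206) (.g (nat_lit 2356) (.e (nat_lit 2668) (nat_lit 167) (.e (nat_lit 196666) (nat_lit 13) (.e (nat_lit 65610) (nat_lit 10) (.e (nat_lit 344117) (nat_lit 21) (.e (nat_lit 516096) (nat_lit 0) (.e (nat_lit 7102) (nat_lit 380) (.e (nat_lit 164351) (nat_lit 246) .nil))))))) (.g (nat_lit 1) (.e (nat_lit 42517) (nat_lit 0) .nil) .nil)))) (.nd (nat_lit 9) 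
(.lf (nat_lit 455950) (.g (nat_lit 5001) (.e (nat_lit 2666) (nat_lit 167) (.e (nat_lit 196666) (nat_lit 13) (.e (nat_lit 65610) (nat_lit 10) (.e (nat_lit 344117) (nat_lit 21) (.e (nat_lit 516151) (nat_lit 9) (.e (nat_lit 426049) (nat_lit 0) (.e (nat_lit 3366) (nat_lit 208) (.e (nat_lit 622627) (nat_lit 13) .nil)))))))) (.g (nat_lit 1) (.e (nat_lit 41715) (nat_lit 0) .nil) .nil))) 
(.lf (nat_lit 456462) (.g (nat_lit 2598) (.e (nat_lit 2668) (nat_lit 167) (.e (nat_lit 196666) (nat_lit 13) (.e (nat_lit 65610) (nat_lit 10) (.e (nat_lit 344117) (nat_lit 21) (.e (nat_lit 516151) (nat_lit 9) (.e (nat_lit 426022) (nat_lit 0) (.e (nat_lit 7936) (nat_lit 208) (.e (nat_lit 622624) (nat_lit 13) .nil)))))))) (.g (nat_lit 1) (.e (nat_lit 42811) (nat_lit 0) .nil) .nil))))) 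
(.nd (nat_lit 8) (.nd (nat_lit 9) 
(.lf (nat_lit 455822) (.g (nat_lit 2592) (.e (nat_lit 2664) (nat_lit 167) (.e (nat_lit 196674) (nat_lit 15) (.e (nat_lit 81946) (nat_lit 20) (.e (nat_lit 1841) (nat_lit 123) (.e (nat_lit 548889) (nat_lit 9) (.e (nat_lit 65540) (nat_lit 0) (.e (nat_lit 6681) (nat_lit 357) .nil))))))) (.g (nat_lit 1) (.e (nat_lit 41445) (nat_lit 0) .nil) .nil))) 
(.lf (nat_lit 456334) (.g (nat_lit 4252) (.e (nat_lit 2668) (nat_lit 167) (.e (nat_lit 196666) (nat_lit 13) (.e (nat_lit 65610) (nat_lit 10) (.e (nat_lit 344117) (nat_lit 21) (.e (nat_lit 516138) (nat_lit 7) (.e (nat_lit 409617) (nat_lit 10) (.e (nat_lit 5627) (nat_lit 312) .nil))))))) (.g (nat_lit 1) (.e (nat_lit 42645) (nat_lit 0) .nil) .nil)))) (.nd (nat_lit 9) 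
(.lf (nat_lit 456078) (.g (nat_lit 3912) (.e (nat_lit 2667) (nat_lit 167) (.e (nat_lit 196669) (nat_lit 14) (.e (nat_lit 73755) (nat_lit 8) (.e (nat_lit 557105) (nat_lit 14) (.e (nat_lit 180252) (nat_lit 10) (.e (nat_lit 573474) (nat_lit 12) (.e (nat_lit 57509) (nat_lit 39) (.e (nat_lit 655104) (nat_lit 0) .nil)))))))) (.g (nat_lit 1) (.e (nat_lit 42025) (nat_lit 0) .nil) .nil))) 
(.lf (nat_lit 456590) (.g (nat_lit 2676) (.e (nat_lit 2668) (nat_lit 167) (.e (nat_lit 196666) (nat_lit 13) (.e (nat_lit 65610) (nat_lit 10) (.e (nat_lit 344117) (nat_lit 21) (.e (nat_lit 516160) (nat_lit 10) (.e (nat_lit 434263) (nat_lit 34) (.e (nat_lit 622624) (nat_lit 13) .nil))))))) (.g (nat_lit 1) (.e (nat_lit 42941) (nat_lit 0) .nil) .nil)))))) 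
(.nd (nat_lit 7) (.nd (nat_lit 8) (.nd (nat_lit 9) 
(.lf (nat_lit 455758) (.g (nat_lit 683) (.e (nat_lit 2664) (nat_lit 167) (.e (nat_lit 196666) (nat_lit 13) (.e (nat_lit 65629) (nat_lit 14) .nil))) (.g (nat_lit 0) (.e (nat_lit 41366) (nat_lit 0) .nil) .nil))) 
(.lf (nat_lit 456270) (.g (nat_lit 2521) (.e (nat_lit 2668) (nat_lit 167) (.e (nat_lit 196666) (nat_lit 13) (.e (nat_lit 65610) (nat_lit 10) (.e (nat_lit 344117) (nat_lit 21) (.e (nat_lit 516106) (nat_lit 0) (.e (nat_lit 6986) (nat_lit 377) (.e (nat_lit 2408) (nat_lit 157) (.e (nat_lit 5612) (nat_lit 312) .nil)))))))) (.g (nat_lit 1) (.e (nat_lit 42581) (nat_lit 0) .nil) .nil)))) (.nd (nat_lit 9) 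
(.lf (nat_lit 456014) (.g (nat_lit 3089) (.e (nat_lit 2667) (nat_lit 167) (.e (nat_lit 196656) (nat_lit 11) (.e (nat_lit 16436) (nat_lit 9) (.e (nat_lit 426131) (nat_lit 3) (.e (nat_lit 204880) (nat_lit 32) (.e (nat_lit 385096) (nat_lit 49) (.e (nat_lit 778388) (nat_lit 9) .nil))))))) (.g (nat_lit 1) (.e (nat_lit 41877) (nat_lit 0) .nil) .nil))) 
(.lf (nat_lit 456526) (.g (nat_lit 4088) (.e (nat_lit 2668) (nat_lit 167) (.e (nat_lit 196666) (nat_lit 13) (.e (nat_lit 65610) (nat_lit 10) (.e (nat_lit 344117) (nat_lit 21) (.e (nat_lit 516151) (nat_lit 9) (.e (nat_lit 426045) (nat_lit 0) (.e (nat_lit 3366) (nat_lit 208) (.e (nat_lit 622620) (nat_lit 13) .nil)))))))) (.g (nat_lit 1) (.e (nat_lit 42875) (nat_lit 0) .nil) .nil))))) 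
(.nd (nat_lit 8) (.nd (nat_lit 9) 
(.lf (nat_lit 455886) (.g (nat_lit 4400) (.e (nat_lit 2666) (nat_lit 167) (.e (nat_lit 196666) (nat_lit 13) (.e (nat_lit 65610) (nat_lit 10) (.e (nat_lit 344117) (nat_lit 21) (.e (nat_lit 516106) (nat_lit 0) (.e (nat_lit 6986) (nat_lit 377) (.e (nat_lit 2403) (nat_lit 157) (.e (nat_lit 5734) (nat_lit 312) .nil)))))))) (.g (nat_lit 1) (.e (nat_lit 41649) (nat_lit 0) .nil) .nil))) 
(.lf (nat_lit 456398) (.g (nat_lit 3388) (.e (nat_lit 2668) (nat_lit 167) (.e (nat_lit 196666) (nat_lit 13) (.e (nat_lit 65610) (nat_lit 10) (.e (nat_lit 344117) (nat_lit 21) (.e (nat_lit 516142) (nat_lit 8) (.e (nat_lit 417815) (nat_lit 10) (.e (nat_lit 5615) (nat_lit 312) .nil))))))) (.g (nat_lit 1) (.e (nat_lit 42709) (nat_lit 0) .nil) .nil)))) (.nd (nat_lit 9) 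
(.lf (nat_lit 456142) (.g (nat_lit 4511) (.e (nat_lit 2667) (nat_lit 167) (.e (nat_lit 196670) (nat_lit 14) (.e (nat_lit 73754) (nat_lit 8) (.e (nat_lit 557105) (nat_lit 14) (.e (nat_lit 180252) (nat_lit 10) (.e (nat_lit 573474) (nat_lit 12) (.e (nat_lit 57509) (nat_lit 39) (.e (nat_lit 655104) (nat_lit 0) .nil)))))))) (.g (nat_lit 1) (.e (nat_lit 42090) (nat_lit 0) .nil) .nil))) 
(.lf (nat_lit 456654) (.g (nat_lit 3579) (.e (nat_lit 2668) (nat_lit 167) (.e (nat_lit 196666) (nat_lit 13) (.e (nat_lit 65617) (nat_lit 10) (.e (nat_lit 344130) (nat_lit 26) (.e (nat_lit 557086) (nat_lit 11) (.e (nat_lit 24579) (nat_lit 0) (.e (nat_lit 6619) (nat_lit 357) .nil))))))) (.g (nat_lit 1) (.e (nat_lit 43092) (nat_lit 0) .nil) .nil))))))) 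
(.nd (nat_lit 6) (.nd (nat_lit 7) (.nd (nat_lit 8) (.nd (nat_lit 9) 
(.lf (nat_lit 455726) (.g (nat_lit 2666) (.e (nat_lit 2664) (nat_lit 167) (.e (nat_lit 196666) (nat_lit 13) (.e (nat_lit 65617) (nat_lit 10) (.e (nat_lit 344126) (nat_lit 25) (.e (nat_lit 548890) (nat_lit 10) (.e (nat_lit 73782) (nat_lit 32) .nil)))))) (.g (nat_lit 1) (.e (nat_lit 41328) (nat_lit 0) .nil) .nil))) 
(.lf (nat_lit 456238) (.g (nat_lit 2677) (.e (nat_lit 2668) (nat_lit 167) (.e (nat_lit 196666) (nat_lit 13) (.e (nat_lit 65610) (nat_lit 10) (.e (nat_lit 344117) (nat_lit 21) (.e (nat_lit 516098) (nat_lit 0) (.e (nat_lit 7936) (nat_lit 380) (.e (nat_lit 164351) (nat_lit 246) .nil))))))) (.g (nat_lit 1) (.e (nat_lit 42549) (nat_lit 0) .nil) .nil)))) (.nd (nat_lit 9) 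
(.lf (nat_lit 455982) (.g (nat_lit 2157) (.e (nat_lit 2666) (nat_lit 167) (.e (nat_lit 196666) (nat_lit 13) (.e (nat_lit 65610) (nat_lit 10) (.e (nat_lit 344129) (nat_lit 26) (.e (nat_lit 557087) (nat_lit 11) (.e (nat_lit 24595) (nat_lit 0) (.e (nat_lit 7936) (nat_lit 357) .nil))))))) (.g (nat_lit 1) (.e (nat_lit 41789) (nat_lit 0) .nil) .nil))) 
(.lf (nat_lit 456494) (.g (nat_lit 5077) (.e (nat_lit 2668) (nat_lit 167) (.e (nat_lit 196666) (nat_lit 13) (.e (nat_lit 65610) (nat_lit 10) (.e (nat_lit 344117) (nat_lit 21) (.e (nat_lit 516151) (nat_lit 9) (.e (nat_lit 426038) (nat_lit 0) (.e (nat_lit 3370) (nat_lit 208) (.e (nat_lit 622621) (nat_lit 13) .nil)))))))) (.g (nat_lit 1) (.e (nat_lit 42843) (nat_lit 0) .nil) .nil))))) 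
(.nd (nat_lit 8) (.nd (nat_lit 9) 
(.lf (nat_lit 455854) (.g (nat_lit 2165) (.e (nat_lit 2666) (nat_lit 167) (.e (nat_lit 196656) (nat_lit 11) (.e (nat_lit 16436) (nat_lit 9) (.e (nat_lit 426131) (nat_lit 3) (.e (nat_lit 204880) (nat_lit 32) .nil))))) (.g (nat_lit 0) (.e (nat_lit 41525) (nat_lit 0) .nil) .nil))) 
(.lf (nat_lit 456366) (.g (nat_lit 3061) (.e (nat_lit 2668) (nat_lit 167) (.e (nat_lit 196666) (nat_lit 13) (.e (nat_lit 65610) (nat_lit 10) (.e (nat_lit 344117) (nat_lit 21) (.e (nat_lit 516139) (nat_lit 7) (.e (nat_lit 409617) (nat_lit 10) (.e (nat_lit 5613) (nat_lit 312) .nil))))))) (.g (nat_lit 1) (.e (nat_lit 42677) (nat_lit 0) .nil) .nil)))) (.nd (nat_lit 9) 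
(.lf (nat_lit 456110) (.g (nat_lit 4082) (.e (nat_lit 2667) (nat_lit 167) (.e (nat_lit 196670) (nat_lit 14) (.e (nat_lit 73753) (nat_lit 8) (.e (nat_lit 557105) (nat_lit 14) (.e (nat_lit 180252) (nat_lit 10) (.e (nat_lit 573473) (nat_lit 12) (.e (nat_lit 57508) (nat_lit 39) (.e (nat_lit 655104) (nat_lit 0) .nil)))))))) (.g (nat_lit 1) (.e (nat_lit 42058) (nat_lit 0) .nil) .nil))) 
(.lf (nat_lit 456622) (.g (nat_lit 1500) (.e (nat_lit 2668) (nat_lit 167) (.e (nat_lit 196666) (nat_lit 13) (.e (nat_lit 65617) (nat_lit 10) (.e (nat_lit 344088) (nat_lit 18) .nil)))) (.g (nat_lit 0) (.e (nat_lit 43022) (nat_lit 0) .nil) .nil)))))) (.nd (nat_lit 7) (.nd (nat_lit 8) (.nd (nat_lit 9) 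
(.lf (nat_lit 455790) (.g (nat_lit 2849) (.e (nat_lit 2664) (nat_lit 167) (.e (nat_lit 196672) (nat_lit 15) (.e (nat_lit 81943) (nat_lit 20) (.e (nat_lit 1842) (nat_lit 123) (.e (nat_lit 548889) (nat_lit 9) (.e (nat_lit 65543) (nat_lit 0) (.e (nat_lit 6676) (nat_lit 357) .nil))))))) (.g (nat_lit 1) (.e (nat_lit 41406) (nat_lit 0) .nil) .nil))) 
(.lf (nat_lit 456302) (.g (nat_lit 2292) (.e (nat_lit 2668) (nat_lit 167) (.e (nat_lit 196666) (nat_lit 13) (.e (nat_lit 65610) (nat_lit 10) (.e (nat_lit 344117) (nat_lit 21) (.e (nat_lit 516106) (nat_lit 0) (.e (nat_lit 7936) (nat_lit 377) (.e (nat_lit 2440) (nat_lit 157) (.e (nat_lit 5616) (nat_lit 312) .nil)))))))) (.g (nat_lit 1) (.e (nat_lit 42613) (nat_lit 0) .nil) .nil)))) (.nd (nat_lit 9) 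
(.lf (nat_lit 456046) (.g (nat_lit 3746) (.e (nat_lit 2667) (nat_lit 167) (.e (nat_lit 196668) (nat_lit 14) (.e (nat_lit 73753) (nat_lit 8) (.e (nat_lit 557103) (nat_lit 14) (.e (nat_lit 180250) (nat_lit 10) (.e (nat_lit 573475) (nat_lit 12) (.e (nat_lit 57508) (nat_lit 39) (.e (nat_lit 647175) (nat_lit 0) .nil)))))))) (.g (nat_lit 1) (.e (nat_lit 41950) (nat_lit 0) .nil) .nil))) 
(.lf (nat_lit 456558) (.g (nat_lit 3009) (.e (nat_lit 2668) (nat_lit 167) (.e (nat_lit 196666) (nat_lit 13) (.e (nat_lit 65610) (nat_lit 10) (.e (nat_lit 344117) (nat_lit 21) (.e (nat_lit 516151) (nat_lit 9) (.e (nat_lit 426142) (nat_lit 4) (.e (nat_lit 237312) (nat_lit 215) (.e (nat_lit 2399) (nat_lit 157) .nil)))))))) (.g (nat_lit 1) (.e (nat_lit 42907) (nat_lit 0) .nil) .nil))))) 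
(.nd (nat_lit 8) (.nd (nat_lit 9) 
(.lf (nat_lit 455918) (.g (nat_lit 5243) (.e (nat_lit 2666) (nat_lit 167) (.e (nat_lit 196666) (nat_lit 13) (.e (nat_lit 65610) (nat_lit 10) (.e (nat_lit 344117) (nat_lit 21) (.e (nat_lit 516151) (nat_lit 9) (.e (nat_lit 426021) (nat_lit 0) (.e (nat_lit 3368) (nat_lit 208) (.e (nat_lit 630528) (nat_lit 13) .nil)))))))) (.g (nat_lit 1) (.e (nat_lit 41683) (nat_lit 0) .nil) .nil))) 
(.lf (nat_lit 456430) (.g (nat_lit 4797) (.e (nat_lit 2668) (nat_lit 167) (.e (nat_lit 196666) (nat_lit 13) (.e (nat_lit 65610) (nat_lit 10) (.e (nat_lit 344117) (nat_lit 21) (.e (nat_lit 516151) (nat_lit 9) (.e (nat_lit 426017) (nat_lit 0) (.e (nat_lit 3372) (nat_lit 208) (.e (nat_lit 622623) (nat_lit 13) .nil)))))))) (.g (nat_lit 1) (.e (nat_lit 42779) (nat_lit 0) .nil) .nil)))) 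
(.nd (nat_lit 9) 
(.lf (nat_lit 456174) (.g (nat_lit 2993) (.e (nat_lit 2667) (nat_lit 167) (.e (nat_lit 196672) (nat_lit 15) (.e (nat_lit 81956) (nat_lit 23) (.e (nat_lit 98350) (nat_lit 24) (.e (nat_lit 409616) (nat_lit 10) .nil))))) (.g (nat_lit 0) (.e (nat_lit 42296) (nat_lit 0) .nil) .nil))) 
(.lf (nat_lit 456686) (.g (nat_lit 2183) (.e (nat_lit 2668) (nat_lit 167) (.e (nat_lit 196666) (nat_lit 13) (.e (nat_lit 65617) (nat_lit 10) (.e (nat_lit 344133) (nat_lit 26) (.e (nat_lit 557073) (nat_lit 9) .nil))))) (.g (nat_lit 0) (.e (nat_lit 43139) (nat_lit 0) .nil) .nil)))))))) (.nd (nat_lit 5) (.nd (nat_lit 6) (.nd (nat_lit 7) (.nd (nat_lit 8) (.nd (nat_lit 9) 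
(.lf (nat_lit 455710) (.g (nat_lit 2898) (.e (nat_lit 2664) (nat_lit 167) (.e (nat_lit 196666) (nat_lit 13) (.e (nat_lit 65610) (nat_lit 10) (.e (nat_lit 344129) (nat_lit 26) (.e (nat_lit 557087) (nat_lit 11) (.e (nat_lit 24584) (nat_lit 0) (.e (nat_lit 6679) (nat_lit 357) .nil))))))) (.g (nat_lit 1) (.e (nat_lit 41296) (nat_lit 0) .nil) .nil))) 
(.lf (nat_lit 456222) (.g (nat_lit 2684) (.e (nat_lit 2668) (nat_lit 167) (.e (nat_lit 196666) (nat_lit 13) (.e (nat_lit 65610) (nat_lit 10) (.e (nat_lit 344117) (nat_lit 21) (.e (nat_lit 516098) (nat_lit 0) (.e (nat_lit 6957) (nat_lit 377) (.e (nat_lit 2455) (nat_lit 157) (.e (nat_lit 5612) (nat_lit 312) .nil)))))))) (.g (nat_lit 1) (.e (nat_lit 42533) (nat_lit 0) .nil) .nil)))) (.nd (nat_lit 9) 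
(.lf (nat_lit 455966) (.g (nat_lit 3977) (.e (nat_lit 2666) (nat_lit 167) (.e (nat_lit 196666) (nat_lit 13) (.e (nat_lit 65610) (nat_lit 10) (.e (nat_lit 344117) (nat_lit 21) (.e (nat_lit 516160) (nat_lit 10) (.e (nat_lit 434208) (nat_lit 18) (.e (nat_lit 4754) (nat_lit 281) (.e (nat_lit 7936) (nat_lit 157) .nil)))))))) (.g (nat_lit 1) (.e (nat_lit 41746) (nat_lit 0) .nil) .nil))) 
(.lf (nat_lit 456478) (.g (nat_lit 3901) (.e (nat_lit 2668) (nat_lit 167) (.e (nat_lit 196666) (nat_lit 13) (.e (nat_lit 65610) (nat_lit 10) (.e (nat_lit 344117) (nat_lit 21) (.e (nat_lit 516151) (nat_lit 9) (.e (nat_lit 426037) (nat_lit 0) (.e (nat_lit 3366) (nat_lit 208) (.e (nat_lit 622623) (nat_lit 13) .nil)))))))) (.g (nat_lit 1) (.e (nat_lit 42827) (nat_lit 0) .nil) .nil))))) 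
(.nd (nat_lit 8) (.nd (nat_lit 9) 
(.lf (nat_lit 455838) (.g (nat_lit 4091) (.e (nat_lit 2664) (nat_lit 167) (.e (nat_lit 196674) (nat_lit 15) (.e (nat_lit 81956) (nat_lit 23) (.e (nat_lit 98350) (nat_lit 24) (.e (nat_lit 409617) (nat_lit 10) .nil))))) (.g (nat_lit 0) (.e (nat_lit 41462) (nat_lit 0) .nil) .nil))) 
(.lf (nat_lit 456350) (.g (nat_lit 2997) (.e (nat_lit 2668) (nat_lit 167) (.e (nat_lit 196666) (nat_lit 13) (.e (nat_lit 65610) (nat_lit 10) (.e (nat_lit 344117) (nat_lit 21) (.e (nat_lit 516139) (nat_lit 7) (.e (nat_lit 409611) (nat_lit 10) (.e (nat_lit 5613) (nat_lit 312) .nil))))))) (.g (nat_lit 1) (.e (nat_lit 42661) (nat_lit 0) .nil) .nil)))) (.nd (nat_lit 9) 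
(.lf (nat_lit 456094) (.g (nat_lit 2511) (.e (nat_lit 2667) (nat_lit 167) (.e (nat_lit 196670) (nat_lit 14) (.e (nat_lit 73753) (nat_lit 8) (.e (nat_lit 557103) (nat_lit 14) (.e (nat_lit 180250) (nat_lit 10) (.e (nat_lit 573474) (nat_lit 12) (.e (nat_lit 57509) (nat_lit 39) (.e (nat_lit 655104) (nat_lit 0) .nil)))))))) (.g (nat_lit 1) (.e (nat_lit 42042) (nat_lit 0) .nil) .nil))) 
(.lf (nat_lit 456606) (.g (nat_lit 3207) (.e (nat_lit 2668) (nat_lit 167) (.e (nat_lit 196666) (nat_lit 13) (.e (nat_lit 65610) (nat_lit 10) (.e (nat_lit 344129) (nat_lit 26) (.e (nat_lit 557086) (nat_lit 11) (.e (nat_lit 24577) (nat_lit 0) (.e (nat_lit 6619) (nat_lit 357) .nil))))))) (.g (nat_lit 1) (.e (nat_lit 43005) (nat_lit 0) .nil) .nil)))))) 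
(.nd (nat_lit 7) (.nd (nat_lit 8) (.nd (nat_lit 9) 
(.lf (nat_lit 455774) (.g (nat_lit 2363) (.e (nat_lit 2664) (nat_lit 167) (.e (nat_lit 196672) (nat_lit 15) (.e (nat_lit 81922) (nat_lit 0) (.e (nat_lit 3305) (nat_lit 202) (.e (nat_lit 573489) (nat_lit 14) (.e (nat_lit 73781) (nat_lit 32) .nil)))))) (.g (nat_lit 1) (.e (nat_lit 41386) (nat_lit 0) .nil) .nil))) 
(.lf (nat_lit 456286) (.g (nat_lit 2175) (.e (nat_lit 2668) (nat_lit 167) (.e (nat_lit 196666) (nat_lit 13) (.e (nat_lit 65610) (nat_lit 10) (.e (nat_lit 344117) (nat_lit 21) (.e (nat_lit 516106) (nat_lit 0) (.e (nat_lit 7008) (nat_lit 377) (.e (nat_lit 2426) (nat_lit 157) (.e (nat_lit 5627) (nat_lit 312) .nil)))))))) (.g (nat_lit 1) (.e (nat_lit 42597) (nat_lit 0) .nil) .nil)))) (.nd (nat_lit 9) 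
(.lf (nat_lit 456030) (.g (nat_lit 4373) (.e (nat_lit 2667) (nat_lit 167) (.e (nat_lit 196668) (nat_lit 14) (.e (nat_lit 73753) (nat_lit 8) (.e (nat_lit 557103) (nat_lit 14) (.e (nat_lit 180250) (nat_lit 10) (.e (nat_lit 573473) (nat_lit 12) (.e (nat_lit 57508) (nat_lit 39) (.e (nat_lit 647175) (nat_lit 0) .nil)))))))) (.g (nat_lit 1) (.e (nat_lit 41934) (nat_lit 0) .nil) .nil))) 
(.lf (nat_lit 456542) (.g (nat_lit 4080) (.e (nat_lit 2668) (nat_lit 167) (.e (nat_lit 196666) (nat_lit 13) (.e (nat_lit 65610) (nat_lit 10) (.e (nat_lit 344117) (nat_lit 21) (.e (nat_lit 516151) (nat_lit 9) (.e (nat_lit 426047) (nat_lit 0) (.e (nat_lit 2426) (nat_lit 157) (.e (nat_lit 4778) (nat_lit 281) (.e (nat_lit 2445) (nat_lit 157) .nil))))))))) (.g (nat_lit 1) (.e (nat_lit 42891) (nat_lit 0) .nil) .nil))))) 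
(.nd (nat_lit 8) (.nd (nat_lit 9) 
(.lf (nat_lit 455902) (.g (nat_lit 2367) (.e (nat_lit 2666) (nat_lit 167) (.e (nat_lit 196666) (nat_lit 13) (.e (nat_lit 65610) (nat_lit 10) (.e (nat_lit 344117) (nat_lit 21) (.e (nat_lit 516151) (nat_lit 9) .nil))))) (.g (nat_lit 0) (.e (nat_lit 41667) (nat_lit 0) .nil) .nil))) 
(.lf (nat_lit 456414) (.g (nat_lit 2190) (.e (nat_lit 2668) (nat_lit 167) (.e (nat_lit 196666) (nat_lit 13) (.e (nat_lit 65610) (nat_lit 10) (.e (nat_lit 344117) (nat_lit 21) (.e (nat_lit 516145) (nat_lit 9) (.e (nat_lit 426085) (nat_lit 0) (.e (nat_lit 3366) (nat_lit 208) (.e (nat_lit 622622) (nat_lit 13) .nil)))))))) (.g (nat_lit 1) (.e (nat_lit 42726) (nat_lit 0) .nil) .nil)))) 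
(.nd (nat_lit 9) 
(.lf (nat_lit 456158) (.g (nat_lit 3596) (.e (nat_lit 2667) (nat_lit 167) (.e (nat_lit 196670) (nat_lit 14) (.e (nat_lit 73755) (nat_lit 8) (.e (nat_lit 557105) (nat_lit 14) (.e (nat_lit 180252) (nat_lit 10) (.e (nat_lit 573474) (nat_lit 12) (.e (nat_lit 57508) (nat_lit 39) (.e (nat_lit 655104) (nat_lit 0) .nil)))))))) (.g (nat_lit 1) (.e (nat_lit 42106) (nat_lit 0) .nil) .nil))) 
(.lf (nat_lit 456670) (.g (nat_lit 2286) (.e (nat_lit 2668) (nat_lit 167) (.e (nat_lit 196666) (nat_lit 13) (.e (nat_lit 65617) (nat_lit 10) (.e (nat_lit 344130) (nat_lit 26) (.e (nat_lit 557089) (nat_lit 12) (.e (nat_lit 163844) (nat_lit 0) (.e (nat_lit 6420) (nat_lit 341) (.e (nat_lit 163843) (nat_lit 0) (.e (nat_lit 7936) (nat_lit 388) .nil))))))))) (.g (nat_lit 1) (.e (nat_lit 43108) (nat_lit 0) .nil) .nil))))))) 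
(.nd (nat_lit 6) (.nd (nat_lit 7) (.nd (nat_lit 8) (.nd (nat_lit 9) 
(.lf (nat_lit 455742) (.g (nat_lit 1854) (.e (nat_lit 2664) (nat_lit 167) (.e (nat_lit 196666) (nat_lit 13) (.e (nat_lit 65617) (nat_lit 10) (.e (nat_lit 344133) (nat_lit 26) (.e (nat_lit 557068) (nat_lit 9) .nil))))) (.g (nat_lit 0) (.e (nat_lit 41344) (nat_lit 0) .nil) .nil))) 
(.lf (nat_lit 456254) (.g (nat_lit 2383) (.e (nat_lit 2668) (nat_lit 167) (.e (nat_lit 196666) (nat_lit 13) (.e (nat_lit 65610) (nat_lit 10) (.e (nat_lit 344117) (nat_lit 21) (.e (nat_lit 516102) (nat_lit 0) (.e (nat_lit 7100) (nat_lit 380) (.e (nat_lit 164351) (nat_lit 246) .nil))))))) (.g (nat_lit 1) (.e (nat_lit 42565) (nat_lit 0) .nil) .nil)))) (.nd (nat_lit 9) 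
(.lf (nat_lit 455998) (.g (nat_lit 3224) (.e (nat_lit 2666) (nat_lit 167) (.e (nat_lit 196666) (nat_lit 13) (.e (nat_lit 65630) (nat_lit 14) (.e (nat_lit 401425) (nat_lit 2) (.e (nat_lit 196670) (nat_lit 14) .nil))))) (.g (nat_lit 0) (.e (nat_lit 41837) (nat_lit 0) .nil) .nil))) 
(.lf (nat_lit 456510) (.g (nat_lit 4208) (.e (nat_lit 2668) (nat_lit 167) (.e (nat_lit 196666) (nat_lit 13) (.e (nat_lit 65610) (nat_lit 10) (.e (nat_lit 344117) (nat_lit 21) (.e (nat_lit 516151) (nat_lit 9) (.e (nat_lit 426042) (nat_lit 0) (.e (nat_lit 2427) (nat_lit 157) (.e (nat_lit 4778) (nat_lit 281) (.e (nat_lit 2444) (nat_lit 157) .nil))))))))) (.g (nat_lit 1) (.e (nat_lit 42859) (nat_lit 0) .nil) .nil))))) 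
(.nd (nat_lit 8) (.nd (nat_lit 9) 
(.lf (nat_lit 455870) (.g (nat_lit 2949) (.e (nat_lit 2666) (nat_lit 167) (.e (nat_lit 196666) (nat_lit 13) (.e (nat_lit 65571) (nat_lit 3) (.e (nat_lit 98332) (nat_lit 18) .nil)))) (.g (nat_lit 0) (.e (nat_lit 41566) (nat_lit 0) .nil) .nil))) 
(.lf (nat_lit 456382) (.g (nat_lit 3004) (.e (nat_lit 2668) (nat_lit 167) (.e (nat_lit 196666) (nat_lit 13) (.e (nat_lit 65610) (nat_lit 10) (.e (nat_lit 344117) (nat_lit 21) (.e (nat_lit 516141) (nat_lit 8) (.e (nat_lit 417815) (nat_lit 10) (.e (nat_lit 5616) (nat_lit 312) .nil))))))) (.g (nat_lit 1) (.e (nat_lit 42693) (nat_lit 0) .nil) .nil)))) (.nd (nat_lit 9) 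
(.lf (nat_lit 456126) (.g (nat_lit 2639) (.e (nat_lit 2667) (nat_lit 167) (.e (nat_lit 196670) (nat_lit 14) (.e (nat_lit 73754) (nat_lit 8) (.e (nat_lit 557105) (nat_lit 14) (.e (nat_lit 180251) (nat_lit 10) (.e (nat_lit 573477) (nat_lit 12) (.e (nat_lit 57511) (nat_lit 39) (.e (nat_lit 655104) (nat_lit 0) .nil)))))))) (.g (nat_lit 1) (.e (nat_lit 42074) (nat_lit 0) .nil) .nil))) 
(.lf (nat_lit 456638) (.g (nat_lit 1549) (.e (nat_lit 2668) (nat_lit 167) (.e (nat_lit 196666) (nat_lit 13) (.e (nat_lit 65617) (nat_lit 10) (.e (nat_lit 344125) (nat_lit 25) .nil)))) (.g (nat_lit 0) (.e (nat_lit 43046) (nat_lit 0) .nil) .nil)))))) (.nd (nat_lit 7) (.nd (nat_lit 8) (.nd (nat_lit 9) 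
(.lf (nat_lit 455806) (.g (nat_lit 2711) (.e (nat_lit 2664) (nat_lit 167) (.e (nat_lit 196672) (nat_lit 15) (.e (nat_lit 81954) (nat_lit 23) (.e (nat_lit 98353) (nat_lit 25) (.e (nat_lit 417817) (nat_lit 10) (.e (nat_lit 5728) (nat_lit 312) .nil)))))) (.g (nat_lit 1) (.e (nat_lit 41427) (nat_lit 0) .nil) .nil))) 
(.lf (nat_lit 456318) (.g (nat_lit 3859) (.e (nat_lit 2668) (nat_lit 167) (.e (nat_lit 196666) (nat_lit 13) (.e (nat_lit 65610) (nat_lit 10) (.e (nat_lit 344117) (nat_lit 21) (.e (nat_lit 516138) (nat_lit 7) (.e (nat_lit 409612) (nat_lit 10) (.e (nat_lit 5615) (nat_lit 312) .nil))))))) (.g (nat_lit 1) (.e (nat_lit 42629) (nat_lit 0) .nil) .nil)))) (.nd (nat_lit 9) 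
(.lf (nat_lit 456062) (.g (nat_lit 2305) (.e (nat_lit 2667) (nat_lit 167) (.e (nat_lit 196668) (nat_lit 14) (.e (nat_lit 73754) (nat_lit 8) (.e (nat_lit 557105) (nat_lit 14) (.e (nat_lit 180252) (nat_lit 10) (.e (nat_lit 573473) (nat_lit 12) (.e (nat_lit 57508) (nat_lit 39) (.e (nat_lit 647175) (nat_lit 0) .nil)))))))) (.g (nat_lit 1) (.e (nat_lit 41966) (nat_lit 0) .nil) .nil))) 
(.lf (nat_lit 456574) (.g (nat_lit 3554) (.e (nat_lit 2668) (nat_lit 167) (.e (nat_lit 196666) (nat_lit 13) (.e (nat_lit 65610) (nat_lit 10) (.e (nat_lit 344117) (nat_lit 21) (.e (nat_lit 516159) (nat_lit 10) (.e (nat_lit 434208) (nat_lit 18) (.e (nat_lit 4778) (nat_lit 281) (.e (nat_lit 2445) (nat_lit 157) .nil)))))))) (.g (nat_lit 1) (.e (nat_lit 42925) (nat_lit 0) .nil) .nil))))) 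
(.nd (nat_lit 8) (.nd (nat_lit 9) 
(.lf (nat_lit 455934) (.g (nat_lit 5135) (.e (nat_lit 2666) (nat_lit 167) (.e (nat_lit 196666) (nat_lit 13) (.e (nat_lit 65610) (nat_lit 10) (.e (nat_lit 344117) (nat_lit 21) (.e (nat_lit 516151) (nat_lit 9) (.e (nat_lit 426037) (nat_lit 0) (.e (nat_lit 3366) (nat_lit 208) (.e (nat_lit 622627) (nat_lit 13) .nil)))))))) (.g (nat_lit 1) (.e (nat_lit 41699) (nat_lit 0) .nil) .nil))) 
(.lf (nat_lit 456446) (.g (nat_lit 3953) (.e (nat_lit 2668) (nat_lit 167) (.e (nat_lit 196666) (nat_lit 13) (.e (nat_lit 65610) (nat_lit 10) (.e (nat_lit 344117) (nat_lit 21) (.e (nat_lit 516151) (nat_lit 9) (.e (nat_lit 426021) (nat_lit 0) (.e (nat_lit 3367) (nat_lit 208) (.e (nat_lit 622620) (nat_lit 13) .nil)))))))) (.g (nat_lit 1) (.e (nat_lit 42795) (nat_lit 0) .nil) .nil)))) 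
(.nd (nat_lit 9) 
(.lf (nat_lit 456190) (.g (nat_lit 901) (.e (nat_lit 2668) (nat_lit 167) (.e (nat_lit 196664) (nat_lit 13) (.e (nat_lit 65630) (nat_lit 14) (.e (nat_lit 401428) (nat_lit 3) .nil)))) (.g (nat_lit 0) (.e (nat_lit 42453) (nat_lit 0) .nil) .nil))) 
(.lf (nat_lit 456702) (.g (nat_lit 4445) (.e (nat_lit 2668) (nat_lit 167) (.e (nat_lit 196666) (nat_lit 13) (.e (nat_lit 65619) (nat_lit 10) (.e (nat_lit 344117) (nat_lit 21) (.e (nat_lit 516141) (nat_lit 8) (.e (nat_lit 417820) (nat_lit 10) (.e (nat_lit 5626) (nat_lit 312) .nil))))))) (.g (nat_lit 1) (.e (nat_lit 43165) (nat_lit 0) .nil) .nil)))))))))))) 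
(.nd (nat_lit 1) (.nd (nat_lit 2) (.nd (nat_lit 3) (.nd (nat_lit 4) (.nd (nat_lit 5) 
(.nd (nat_lit 6) (.nd (nat_lit 7) (.nd (nat_lit 8) (.nd (nat_lit 9) 
(.lf (nat_lit 455681) (.g (nat_lit 2945) (.e (nat_lit 2664) (nat_lit 167) (.e (nat_lit 196666) (nat_lit 13) (.e (nat_lit 65610) (nat_lit 10) (.e (nat_lit 344117) (nat_lit 21) (.e (nat_lit 516159) (nat_lit 10) (.e (nat_lit 434208) (nat_lit 18) (.e (nat_lit 4754) (nat_lit 281) (.e (nat_lit 2513) (nat_lit 157) .nil)))))))) (.g (nat_lit 1) (.e (nat_lit 41262) (nat_lit 0) .nil) .nil))) 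
(.lf (nat_lit 456193) (.g (nat_lit 3430) (.e (nat_lit 2668) (nat_lit 167) (.e (nat_lit 196666) (nat_lit 13) (.e (nat_lit 65589) (nat_lit 9) (.e (nat_lit 336028) (nat_lit 3) (.e (nat_lit 98350) (nat_lit 24) (.e (nat_lit 409616) (nat_lit 10) (.e (nat_lit 7936) (nat_lit 312) .nil))))))) (.g (nat_lit 1) (.e (nat_lit 42488) (nat_lit 0) .nil) .nil)))) (.nd (nat_lit 9) 
(.lf (nat_lit 455937) (.g (nat_lit 2458) (.e (nat_lit 2666) (nat_lit 167) (.e (nat_lit 196666) (nat_lit 13) (.e (nat_lit 65610) (nat_lit 10) (.e (nat_lit 344117) (nat_lit 21) (.e (nat_lit 516151) (nat_lit 9) (.e (nat_lit 426042) (nat_lit 0) (.e (nat_lit 2425) (nat_lit 157) (.e (nat_lit 4818) (nat_lit 281) (.e (nat_lit 2477) (nat_lit 157) .nil))))))))) (.g (nat_lit 1) (.e (nat_lit 41702) (nat_lit 0) .nil) .nil))) 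
(.lf (nat_lit 456449) (.g (nat_lit 4282) (.e (nat_lit 2668) (nat_lit 167) (.e (nat_lit 196666) (nat_lit 13) (.e (nat_lit 65610) (nat_lit 10) (.e (nat_lit 344117) (nat_lit 21) (.e (nat_lit 516151) (nat_lit 9) (.e (nat_lit 426021) (nat_lit 0) (.e (nat_lit 3368) (nat_lit 208) (.e (nat_lit 622623) (nat_lit 13) .nil)))))))) (.g (nat_lit 1) (.e (nat_lit 42798) (nat_lit 0) .nil) .nil))))) 
(.nd (nat_lit 8) (.nd (nat_lit 9) 
(.lf (nat_lit 455809) (.g (nat_lit 4623) (.e (nat_lit 2664) (nat_lit 167) (.e (nat_lit 196672) (nat_lit 15) (.e (nat_lit 81956) (nat_lit 23) (.e (nat_lit 98350) (nat_lit 24) (.e (nat_lit 409616) (nat_lit 10) (.e (nat_lit 5710) (nat_lit 312) .nil)))))) (.g (nat_lit 1) (.e (nat_lit 41430) (nat_lit 0) .nil) .nil))) 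
(.lf (nat_lit 456321) (.g (nat_lit 3862) (.e (nat_lit 2668) (nat_lit 167) (.e (nat_lit 196666) (nat_lit 13) (.e (nat_lit 65610) (nat_lit 10) (.e (nat_lit 344117) (nat_lit 21) (.e (nat_lit 516138) (nat_lit 7) (.e (nat_lit 409612) (nat_lit 10) (.e (nat_lit 7936) (nat_lit 312) .nil))))))) (.g (nat_lit 1) (.e (nat_lit 42632) (nat_lit 0) .nil) .nil)))) (.nd (nat_lit 9) 
(.lf (nat_lit 456065) (.g (nat_lit 2367) (.e (nat_lit 2667) (nat_lit 167) (.e (nat_lit 196668) (nat_lit 14) (.e (nat_lit 73755) (nat_lit 8) (.e (nat_lit 557105) (nat_lit 14) (.e (nat_lit 180252) (nat_lit 10) (.e (nat_lit 573474) (nat_lit 12) (.e (nat_lit 57505) (nat_lit 39) (.e (nat_lit 655104) (nat_lit 0) .nil)))))))) (.g (nat_lit 1) (.e (nat_lit 41969) (nat_lit 0) .nil) .nil))) 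
(.lf (nat_lit 456577) (.g (nat_lit 2686) (.e (nat_lit 2668) (nat_lit 167) (.e (nat_lit 196666) (nat_lit 13) (.e (nat_lit 65610) (nat_lit 10) (.e (nat_lit 344117) (nat_lit 21) (.e (nat_lit 516160) (nat_lit 10) (.e (nat_lit 434200) (nat_lit 18) (.e (nat_lit 4762) (nat_lit 281) (.e (nat_lit 2433) (nat_lit 157) .nil)))))))) (.g (nat_lit 1) (.e (nat_lit 42928) (nat_lit 0) .nil) .nil)))))) 
(.nd (nat_lit 7) (.nd (nat_lit 8) (.nd (nat_lit 9) 
(.lf (nat_lit 455745) (.g (nat_lit 3510) (.e (nat_lit 2664) (nat_lit 167) (.e (nat_lit 196666) (nat_lit 13) (.e (nat_lit 65622) (nat_lit 12) (.e (nat_lit 385074) (nat_lit 31) (.e (nat_lit 573488) (nat_lit 14) (.e (nat_lit 73782) (nat_lit 32) .nil)))))) (.g (nat_lit 1) (.e (nat_lit 41347) (nat_lit 0) .nil) .nil))) 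
(.lf (nat_lit 456257) (.g (nat_lit 2748) (.e (nat_lit 2668) (nat_lit 167) (.e (nat_lit 196666) (nat_lit 13) (.e (nat_lit 65610) (nat_lit 10) (.e (nat_lit 344117) (nat_lit 21) (.e (nat_lit 516102) (nat_lit 0) (.e (nat_lit 7114) (nat_lit 381) (.e (nat_lit 237312) (nat_lit 246) .nil))))))) (.g (nat_lit 1) (.e (nat_lit 42568) (nat_lit 0) .nil) .nil)))) (.nd (nat_lit 9) 
(.lf (nat_lit 456001) (.g (nat_lit 2948) (.e (nat_lit 2666) (nat_lit 167) (.e (nat_lit 196666) (nat_lit 13) (.e (nat_lit 65630) (nat_lit 14) (.e (nat_lit 401428) (nat_lit 3) (.e (nat_lit 204864) (nat_lit 27) (.e (nat_lit 352000) (nat_lit 0) .nil)))))) (.g (nat_lit 1) (.e (nat_lit 41845) (nat_lit 0) .nil) .nil))) 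
(.lf (nat_lit 456513) (.g (nat_lit 3287) (.e (nat_lit 2668) (nat_lit 167) (.e (nat_lit 196666) (nat_lit 13) (.e (nat_lit 65610) (nat_lit 10) (.e (nat_lit 344117) (nat_lit 21) (.e (nat_lit 516151) (nat_lit 9) (.e (nat_lit 426042) (nat_lit 0) (.e (nat_lit 3366) (nat_lit 208) (.e (nat_lit 622620) (nat_lit 13) .nil)))))))) (.g (nat_lit 1) (.e (nat_lit 42862) (nat_lit 0) .nil) .nil))))) 
(.nd (nat_lit 8) (.nd (nat_lit 9) 
(.lf (nat_lit 455873) (.g (nat_lit 3139) (.e (nat_lit 2666) (nat_lit 167) (.e (nat_lit 196666) (nat_lit 13) (.e (nat_lit 65571) (nat_lit 3) (.e (nat_lit 98333) (nat_lit 18) (.e (nat_lit 164183) (nat_lit 154) .nil))))) (.g (nat_lit 0) (.e (nat_lit 41569) (nat_lit 0) .nil) .nil))) 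
(.lf (nat_lit 456385) (.g (nat_lit 3862) (.e (nat_lit 2668) (nat_lit 167) (.e (nat_lit 196666) (nat_lit 13) (.e (nat_lit 65610) (nat_lit 10) (.e (nat_lit 344117) (nat_lit 21) (.e (nat_lit 516141) (nat_lit 8) (.e (nat_lit 417817) (nat_lit 10) (.e (nat_lit 5612) (nat_lit 312) .nil))))))) (.g (nat_lit 1) (.e (nat_lit 42696) (nat_lit 0) .nil) .nil)))) (.nd (nat_lit 9) 
(.lf (nat_lit 456129) (.g (nat_lit 3661) (.e (nat_lit 2667) (nat_lit 167) (.e (nat_lit 196670) (nat_lit 14) (.e (nat_lit 73754) (nat_lit 8) (.e (nat_lit 557105) (nat_lit 14) (.e (nat_lit 180252) (nat_lit 10) (.e (nat_lit 573473) (nat_lit 12) (.e (nat_lit 57507) (nat_lit 39) (.e (nat_lit 647176) (nat_lit 0) .nil)))))))) (.g (nat_lit 1) (.e (nat_lit 42077) (nat_lit 0) .nil) .nil))) 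
(.lf (nat_lit 456641) (.g (nat_lit 2718) (.e (nat_lit 2668) (nat_lit 167) (.e (nat_lit 196666) (nat_lit 13) (.e (nat_lit 65617) (nat_lit 10) (.e (nat_lit 344127) (nat_lit 26) (.e (nat_lit 557085) (nat_lit 11) (.e (nat_lit 24580) (nat_lit 0) (.e (nat_lit 6619) (nat_lit 357) .nil))))))) (.g (nat_lit 1) (.e (nat_lit 43061) (nat_lit 0) .nil) .nil))))))) 
(.nd (nat_lit 6) (.nd (nat_lit 7) (.nd (nat_lit 8) (.nd (nat_lit 9) 
(.lf (nat_lit 455713) (.g (nat_lit 2092) (.e (nat_lit 2664) (nat_lit 167) (.e (nat_lit 196666) (nat_lit 13) (.e (nat_lit 65610) (nat_lit 10) (.e (nat_lit 344129) (nat_lit 26) (.e (nat_lit 557087) (nat_lit 11) (.e (nat_lit 24589) (nat_lit 0) (.e (nat_lit 6676) (nat_lit 357) .nil))))))) (.g (nat_lit 1) (.e (nat_lit 41299) (nat_lit 0) .nil) .nil))) 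
(.lf (nat_lit 456225) (.g (nat_lit 2435) (.e (nat_lit 2668) (nat_lit 167) (.e (nat_lit 196666) (nat_lit 13) (.e (nat_lit 65610) (nat_lit 10) (.e (nat_lit 344117) (nat_lit 21) (.e (nat_lit 516098) (nat_lit 0) (.e (nat_lit 7029) (nat_lit 377) (.e (nat_lit 2443) (nat_lit 157) (.e (nat_lit 5627) (nat_lit 312) .nil)))))))) (.g (nat_lit 1) (.e (nat_lit 42536) (nat_lit 0) .nil) .nil)))) (.nd (nat_lit 9) 
(.lf (nat_lit 455969) (.g (nat_lit 1016) (.e (nat_lit 2666) (nat_lit 167) (.e (nat_lit 196666) (nat_lit 13) (.e (nat_lit 65610) (nat_lit 10) (.e (nat_lit 344129) (nat_lit 26) .nil)))) (.g (nat_lit 0) (.e (nat_lit 41771) (nat_lit 0) .nil) .nil))) 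
(.lf (nat_lit 456481) (.g (nat_lit 4388) (.e (nat_lit 2668) (nat_lit 167) (.e (nat_lit 196666) (nat_lit 13) (.e (nat_lit 65610) (nat_lit 10) (.e (nat_lit 344117) (nat_lit 21) (.e (nat_lit 516151) (nat_lit 9) (.e (nat_lit 426037) (nat_lit 0) (.e (nat_lit 3370) (nat_lit 208) (.e (nat_lit 622621) (nat_lit 13) .nil)))))))) (.g (nat_lit 1) (.e (nat_lit 42830) (nat_lit 0) .nil) .nil))))) 
(.nd (nat_lit 8) (.nd (nat_lit 9) 
(.lf (nat_lit 455841) (.g (nat_lit 2303) (.e (nat_lit 2665) (nat_lit 167) (.e (nat_lit 196666) (nat_lit 13) (.e (nat_lit 65610) (nat_lit 10) (.e (nat_lit 344117) (nat_lit 21) (.e (nat_lit 516151) (nat_lit 9) .nil))))) (.g (nat_lit 0) (.e (nat_lit 41502) (nat_lit 0) .nil) .nil))) 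
(.lf (nat_lit 456353) (.g (nat_lit 4170) (.e (nat_lit 2668) (nat_lit 167) (.e (nat_lit 196666) (nat_lit 13) (.e (nat_lit 65610) (nat_lit 10) (.e (nat_lit 344117) (nat_lit 21) (.e (nat_lit 516139) (nat_lit 7) (.e (nat_lit 409612) (nat_lit 10) (.e (nat_lit 5613) (nat_lit 312) .nil))))))) (.g (nat_lit 1) (.e (nat_lit 42664) (nat_lit 0) .nil) .nil)))) (.nd (nat_lit 9) 
(.lf (nat_lit 456097) (.g (nat_lit 3036) (.e (nat_lit 2667) (nat_lit 167) (.e (nat_lit 196670) (nat_lit 14) (.e (nat_lit 73753) (nat_lit 8) (.e (nat_lit 557103) (nat_lit 14) (.e (nat_lit 180250) (nat_lit 10) (.e (nat_lit 573475) (nat_lit 12) (.e (nat_lit 57509) (nat_lit 39) (.e (nat_lit 655104) (nat_lit 0) .nil)))))))) (.g (nat_lit 1) (.e (nat_lit 42045) (nat_lit 0) .nil) .nil))) 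
(.lf (nat_lit 456609) (.g (nat_lit 1828) (.e (nat_lit 2668) (nat_lit 167) (.e (nat_lit 196666) (nat_lit 13) (.e (nat_lit 65610) (nat_lit 10) (.e (nat_lit 344129) (nat_lit 26) (.e (nat_lit 557087) (nat_lit 11) .nil))))) (.g (nat_lit 0) (.e (nat_lit 43008) (nat_lit 0) .nil) .nil)))))) (.nd (nat_lit 7) (.nd (nat_lit 8) (.nd (nat_lit 9) 
(.lf (nat_lit 455777) (.g (nat_lit 2885) (.e (nat_lit 2664) (nat_lit 167) (.e (nat_lit 196672) (nat_lit 15) (.e (nat_lit 81924) (nat_lit 0) (.e (nat_lit 3305) (nat_lit 202) (.e (nat_lit 573489) (nat_lit 14) (.e (nat_lit 73782) (nat_lit 32) .nil)))))) (.g (nat_lit 1) (.e (nat_lit 41392) (nat_lit 0) .nil) .nil))) 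
(.lf (nat_lit 456289) (.g (nat_lit 3406) (.e (nat_lit 2668) (nat_lit 167) (.e (nat_lit 196666) (nat_lit 13) (.e (nat_lit 65610) (nat_lit 10) (.e (nat_lit 344117) (nat_lit 21) (.e (nat_lit 516106) (nat_lit 0) (.e (nat_lit 7008) (nat_lit 377) (.e (nat_lit 2429) (nat_lit 157) (.e (nat_lit 5613) (nat_lit 312) .nil)))))))) (.g (nat_lit 1) (.e (nat_lit 42600) (nat_lit 0) .nil) .nil)))) (.nd (nat_lit 9) 
(.lf (nat_lit 456033) (.g (nat_lit 2893) (.e (nat_lit 2667) (nat_lit 167) (.e (nat_lit 196668) (nat_lit 14) (.e (nat_lit 73753) (nat_lit 8) (.e (nat_lit 557103) (nat_lit 14) (.e (nat_lit 180250) (nat_lit 10) (.e (nat_lit 573474) (nat_lit 12) (.e (nat_lit 57506) (nat_lit 39) (.e (nat_lit 647175) (nat_lit 0) .nil)))))))) (.g (nat_lit 1) (.e (nat_lit 41937) (nat_lit 0) .nil) .nil))) 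
(.lf (nat_lit 456545) (.g (nat_lit 4205) (.e (nat_lit 2668) (nat_lit 167) (.e (nat_lit 196666) (nat_lit 13) (.e (nat_lit 65610) (nat_lit 10) (.e (nat_lit 344117) (nat_lit 21) (.e (nat_lit 516151) (nat_lit 9) (.e (nat_lit 426047) (nat_lit 0) (.e (nat_lit 3366) (nat_lit 208) (.e (nat_lit 622623) (nat_lit 13) .nil)))))))) (.g (nat_lit 1) (.e (nat_lit 42894) (nat_lit 0) .nil) .nil))))) 
(.nd (nat_lit 8) (.nd (nat_lit 9) 
(.lf (nat_lit 455905) (.g (nat_lit 5414) (.e (nat_lit 2666) (nat_lit 167) (.e (nat_lit 196666) (nat_lit 13) (.e (nat_lit 65610) (nat_lit 10) (.e (nat_lit 344117) (nat_lit 21) (.e (nat_lit 516151) (nat_lit 9) (.e (nat_lit 426017) (nat_lit 0) (.e (nat_lit 3367) (nat_lit 208) (.e (nat_lit 630528) (nat_lit 13) .nil)))))))) (.g (nat_lit 1) (.e (nat_lit 41670) (nat_lit 0) .nil) .nil))) 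
(.lf (nat_lit 456417) (.g (nat_lit 2838) (.e (nat_lit 2668) (nat_lit 167) (.e (nat_lit 196666) (nat_lit 13) (.e (nat_lit 65610) (nat_lit 10) (.e (nat_lit 344117) (nat_lit 21) (.e (nat_lit 516145) (nat_lit 9) (.e (nat_lit 426111) (nat_lit 1) (.e (nat_lit 164258) (nat_lit 215) (.e (nat_lit 7936) (nat_lit 157) .nil)))))))) (.g (nat_lit 1) (.e (nat_lit 42729) (nat_lit 0) .nil) .nil)))) 
(.nd (nat_lit 9) 
(.lf (nat_lit 456161) (.g (nat_lit 2653) (.e (nat_lit 2667) (nat_lit 167) (.e (nat_lit 196672) (nat_lit 15) (.e (nat_lit 81954) (nat_lit 23) (.e (nat_lit 98349) (nat_lit 24) (.e (nat_lit 409610) (nat_lit 10) (.e (nat_lit 5738) (nat_lit 312) .nil)))))) (.g (nat_lit 1) (.e (nat_lit 42229) (nat_lit 0) .nil) .nil))) 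
(.lf (nat_lit 456673) (.g (nat_lit 1183) (.e (nat_lit 2668) (nat_lit 167) (.e (nat_lit 196666) (nat_lit 13) (.e (nat_lit 65617) (nat_lit 10) (.e (nat_lit 344132) (nat_lit 26) .nil)))) (.g (nat_lit 0) (.e (nat_lit 43111) (nat_lit 0) .nil) .nil)))))))) (.nd (nat_lit 5) (.nd (nat_lit 6) (.nd (nat_lit 7) (.nd (nat_lit 8) (.nd (nat_lit 9) 
(.lf (nat_lit 455697) (.g (nat_lit 2534) (.e (nat_lit 2664) (nat_lit 167) (.e (nat_lit 196666) (nat_lit 13) (.e (nat_lit 65610) (nat_lit 10) (.e (nat_lit 344126) (nat_lit 25) (.e (nat_lit 548887) (nat_lit 9) (.e (nat_lit 65540) (nat_lit 0) (.e (nat_lit 6681) (nat_lit 357) .nil))))))) (.g (nat_lit 1) (.e (nat_lit 41282) (nat_lit 0) .nil) .nil))) 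
(.lf (nat_lit 456209) (.g (nat_lit 2466) (.e (nat_lit 2668) (nat_lit 167) (.e (nat_lit 196666) (nat_lit 13) (.e (nat_lit 65610) (nat_lit 10) (.e (nat_lit 344117) (nat_lit 21) (.e (nat_lit 516096) (nat_lit 0) (.e (nat_lit 7114) (nat_lit 381) (.e (nat_lit 229683) (nat_lit 246) .nil))))))) (.g (nat_lit 1) (.e (nat_lit 42520) (nat_lit 0) .nil) .nil)))) (.nd (nat_lit 9) 
(.lf (nat_lit 455953) (.g (nat_lit 2948) (.e (nat_lit 2666) (nat_lit 167) (.e (nat_lit 196666) (nat_lit 13) (.e (nat_lit 65610) (nat_lit 10) (.e (nat_lit 344117) (nat_lit 21) (.e (nat_lit 516151) (nat_lit 9) (.e (nat_lit 426097) (nat_lit 1) (.e (nat_lit 164255) (nat_lit 215) (.e (nat_lit 2416) (nat_lit 157) .nil)))))))) (.g (nat_lit 1) (.e (nat_lit 41718) (nat_lit 0) .nil) .nil))) 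
(.lf (nat_lit 456465) (.g (nat_lit 3018) (.e (nat_lit 2668) (nat_lit 167) (.e (nat_lit 196666) (nat_lit 13) (.e (nat_lit 65610) (nat_lit 10) (.e (nat_lit 344117) (nat_lit 21) (.e (nat_lit 516151) (nat_lit 9) (.e (nat_lit 426023) (nat_lit 0) (.e (nat_lit 7936) (nat_lit 208) (.e (nat_lit 622622) (nat_lit 13) .nil)))))))) (.g (nat_lit 1) (.e (nat_lit 42814) (nat_lit 0) .nil) .nil))))) 
(.nd (nat_lit 8) (.nd (nat_lit 9) 
(.lf (nat_lit 455825) (.g (nat_lit 2137) (.e (nat_lit 2664) (nat_lit 167) (.e (nat_lit 196674) (nat_lit 15) (.e (nat_lit 81946) (nat_lit 20) (.e (nat_lit 1842) (nat_lit 123) (.e (nat_lit 548887) (nat_lit 9) (.e (nat_lit 65540) (nat_lit 0) (.e (nat_lit 6681) (nat_lit 357) .nil))))))) (.g (nat_lit 1) (.e (nat_lit 41448) (nat_lit 0) .nil) .nil))) 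
(.lf (nat_lit 456337) (.g (nat_lit 3092) (.e (nat_lit 2668) (nat_lit 167) (.e (nat_lit 196666) (nat_lit 13) (.e (nat_lit 65610) (nat_lit 10) (.e (nat_lit 344117) (nat_lit 21) (.e (nat_lit 516138) (nat_lit 7) (.e (nat_lit 417536) (nat_lit 10) (.e (nat_lit 5627) (nat_lit 312) .nil))))))) (.g (nat_lit 1) (.e (nat_lit 42648) (nat_lit 0) .nil) .nil)))) (.nd (nat_lit 9) 
(.lf (nat_lit 456081) (.g (nat_lit 3266) (.e (nat_lit 2667) (nat_lit 167) (.e (nat_lit 196670) (nat_lit 14) (.e (nat_lit 73746) (nat_lit 3) (.e (nat_lit 516129) (nat_lit 3) (.e (nat_lit 221210) (nat_lit 22) (.e (nat_lit 196658) (nat_lit 12) (.e (nat_lit 57508) (nat_lit 39) (.e (nat_lit 647175) (nat_lit 0) .nil)))))))) (.g (nat_lit 1) (.e (nat_lit 42028) (nat_lit 0) .nil) .nil))) 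
(.lf (nat_lit 456593) (.g (nat_lit 2543) (.e (nat_lit 2668) (nat_lit 167) (.e (nat_lit 196666) (nat_lit 13) (.e (nat_lit 65610) (nat_lit 10) (.e (nat_lit 344117) (nat_lit 21) (.e (nat_lit 516160) (nat_lit 10) (.e (nat_lit 434264) (nat_lit 34) (.e (nat_lit 622623) (nat_lit 13) .nil))))))) (.g (nat_lit 1) (.e (nat_lit 42944) (nat_lit 0) .nil) .nil)))))) 
(.nd (nat_lit 7) (.nd (nat_lit 8) (.nd (nat_lit 9) 
(.lf (nat_lit 455761) (.g (nat_lit 2249) (.e (nat_lit 2664) (nat_lit 167) (.e (nat_lit 196666) (nat_lit 13) (.e (nat_lit 65630) (nat_lit 14) (.e (nat_lit 401425) (nat_lit 2) (.e (nat_lit 196668) (nat_lit 14) (.e (nat_lit 73781) (nat_lit 32) .nil)))))) (.g (nat_lit 1) (.e (nat_lit 41370) (nat_lit 0) .nil) .nil))) 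
(.lf (nat_lit 456273) (.g (nat_lit 3920) (.e (nat_lit 2668) (nat_lit 167) (.e (nat_lit 196666) (nat_lit 13) (.e (nat_lit 65610) (nat_lit 10) (.e (nat_lit 344117) (nat_lit 21) (.e (nat_lit 516106) (nat_lit 0) (.e (nat_lit 6986) (nat_lit 377) (.e (nat_lit 2507) (nat_lit 157) (.e (nat_lit 7936) (nat_lit 312) .nil)))))))) (.g (nat_lit 1) (.e (nat_lit 42584) (nat_lit 0) .nil) .nil)))) (.nd (nat_lit 9) 
(.lf (nat_lit 456017) (.g (nat_lit 2607) (.e (nat_lit 2667) (nat_lit 167) (.e (nat_lit 196663) (nat_lit 13) (.e (nat_lit 65630) (nat_lit 14) (.e (nat_lit 401425) (nat_lit 2) (.e (nat_lit 196628) (nat_lit 9) (.e (nat_lit 1512) (nat_lit 108) (.e (nat_lit 335872) (nat_lit 0) (.e (nat_lit 6696) (nat_lit 357) .nil)))))))) (.g (nat_lit 1) (.e (nat_lit 41892) (nat_lit 0) .nil) .nil))) 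
(.lf (nat_lit 456529) (.g (nat_lit 2889) (.e (nat_lit 2668) (nat_lit 167) (.e (nat_lit 196666) (nat_lit 13) (.e (nat_lit 65610) (nat_lit 10) (.e (nat_lit 344117) (nat_lit 21) (.e (nat_lit 516151) (nat_lit 9) (.e (nat_lit 426043) (nat_lit 0) (.e (nat_lit 3369) (nat_lit 208) (.e (nat_lit 622620) (nat_lit 13) .nil)))))))) (.g (nat_lit 1) (.e (nat_lit 42878) (nat_lit 0) .nil) .nil))))) 
(.nd (nat_lit 8) (.nd (nat_lit 9) 
(.lf (nat_lit 455889) (.g (nat_lit 3490) (.e (nat_lit 2666) (nat_lit 167) (.e (nat_lit 196666) (nat_lit 13) (.e (nat_lit 65610) (nat_lit 10) (.e (nat_lit 344117) (nat_lit 21) (.e (nat_lit 516138) (nat_lit 7) (.e (nat_lit 409612) (nat_lit 10) (.e (nat_lit 7936) (nat_lit 312) .nil))))))) (.g (nat_lit 1) (.e (nat_lit 41652) (nat_lit 0) .nil) .nil))) 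
(.lf (nat_lit 456401) (.g (nat_lit 4035) (.e (nat_lit 2668) (nat_lit 167) (.e (nat_lit 196666) (nat_lit 13) (.e (nat_lit 65610) (nat_lit 10) (.e (nat_lit 344117) (nat_lit 21) (.e (nat_lit 516142) (nat_lit 8) (.e (nat_lit 417815) (nat_lit 10) (.e (nat_lit 7936) (nat_lit 312) .nil))))))) (.g (nat_lit 1) (.e (nat_lit 42712) (nat_lit 0) .nil) .nil)))) (.nd (nat_lit 9) 
(.lf (nat_lit 456145) (.g (nat_lit 3658) (.e (nat_lit 2667) (nat_lit 167) (.e (nat_lit 196670) (nat_lit 14) (.e (nat_lit 73754) (nat_lit 8) (.e (nat_lit 557105) (nat_lit 14) (.e (nat_lit 180252) (nat_lit 10) (.e (nat_lit 573475) (nat_lit 12) (.e (nat_lit 57507) (nat_lit 39) (.e (nat_lit 647176) (nat_lit 0) .nil)))))))) (.g (nat_lit 1) (.e (nat_lit 42093) (nat_lit 0) .nil) .nil))) 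
(.lf (nat_lit 456657) (.g (nat_lit 2797) (.e (nat_lit 2668) (nat_lit 167) (.e (nat_lit 196666) (nat_lit 13) (.e (nat_lit 65617) (nat_lit 10) (.e (nat_lit 344130) (nat_lit 26) (.e (nat_lit 557087) (nat_lit 11) (.e (nat_lit 24579) (nat_lit 0) (.e (nat_lit 6617) (nat_lit 357) .nil))))))) (.g (nat_lit 1) (.e (nat_lit 43095) (nat_lit 0) .nil) .nil))))))) 
(.nd (nat_lit 6) (.nd (nat_lit 7) (.nd (nat_lit 8) (.nd (nat_lit 9) 
(.lf (nat_lit 455729) (.g (nat_lit 1607) (.e (nat_lit 2664) (nat_lit 167) (.e (nat_lit 196666) (nat_lit 13) (.e (nat_lit 65617) (nat_lit 10) (.e (nat_lit 344130) (nat_lit 26) (.e (nat_lit 557074) (nat_lit 9) .nil))))) (.g (nat_lit 0) (.e (nat_lit 41331) (nat_lit 0) .nil) .nil))) 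
(.lf (nat_lit 456241) (.g (nat_lit 4144) (.e (nat_lit 2668) (nat_lit 167) (.e (nat_lit 196666) (nat_lit 13) (.e (nat_lit 65610) (nat_lit 10) (.e (nat_lit 344117) (nat_lit 21) (.e (nat_lit 516098) (nat_lit 0) (.e (nat_lit 7581) (nat_lit 405) (.e (nat_lit 65280) (nat_lit 201) .nil))))))) (.g (nat_lit 1) (.e (nat_lit 42552) (nat_lit 0) .nil) .nil)))) (.nd (nat_lit 9) 
(.lf (nat_lit 455985) (.g (nat_lit 2532) (.e (nat_lit 2666) (nat_lit 167) (.e (nat_lit 196666) (nat_lit 13) (.e (nat_lit 65614) (nat_lit 10) (.e (nat_lit 344133) (nat_lit 26) .nil)))) (.g (nat_lit 0) (.e (nat_lit 41794) (nat_lit 0) .nil) .nil))) 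
(.lf (nat_lit 456497) (.g (nat_lit 4363) (.e (nat_lit 2668) (nat_lit 167) (.e (nat_lit 196666) (nat_lit 13) (.e (nat_lit 65610) (nat_lit 10) (.e (nat_lit 344117) (nat_lit 21) (.e (nat_lit 516151) (nat_lit 9) (.e (nat_lit 426038) (nat_lit 0) (.e (nat_lit 3370) (nat_lit 208) (.e (nat_lit 622624) (nat_lit 13) .nil)))))))) (.g (nat_lit 1) (.e (nat_lit 42846) (nat_lit 0) .nil) .nil))))) 
(.nd (nat_lit 8) (.nd (nat_lit 9) 
(.lf (nat_lit 455857) (.g (nat_lit 493) (.e (nat_lit 2666) (nat_lit 167) (.e (nat_lit 196666) (nat_lit 13) (.e (nat_lit 65569) (nat_lit 3) .nil))) (.g (nat_lit 0) (.e (nat_lit 41536) (nat_lit 0) .nil) .nil))) 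
(.lf (nat_lit 456369) (.g (nat_lit 4713) (.e (nat_lit 2668) (nat_lit 167) (.e (nat_lit 196666) (nat_lit 13) (.e (nat_lit 65610) (nat_lit 10) (.e (nat_lit 344117) (nat_lit 21) (.e (nat_lit 516139) (nat_lit 7) (.e (nat_lit 409617) (nat_lit 10) (.e (nat_lit 7936) (nat_lit 312) .nil))))))) (.g (nat_lit 1) (.e (nat_lit 42680) (nat_lit 0) .nil) .nil)))) (.nd (nat_lit 9) 
(.lf (nat_lit 456113) (.g (nat_lit 4653) (.e (nat_lit 2667) (nat_lit 167) (.e (nat_lit 196670) (nat_lit 14) (.e (nat_lit 73753) (nat_lit 8) (.e (nat_lit 557105) (nat_lit 14) (.e (nat_lit 180252) (nat_lit 10) (.e (nat_lit 573474) (nat_lit 12) (.e (nat_lit 57505) (nat_lit 39) (.e (nat_lit 655104) (nat_lit 0) .nil)))))))) (.g (nat_lit 1) (.e (nat_lit 42061) (nat_lit 0) .nil) .nil))) 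
(.lf (nat_lit 456625) (.g (nat_lit 2052) (.e (nat_lit 2668) (nat_lit 167) (.e (nat_lit 196666) (nat_lit 13) (.e (nat_lit 65617) (nat_lit 10) (.e (nat_lit 344091) (nat_lit 18) (.e (nat_lit 3957) (nat_lit 239) .nil))))) (.g (nat_lit 0) (.e (nat_lit 43025) (nat_lit 0) .nil) .nil)))))) (.nd (nat_lit 7) (.nd (nat_lit 8) (.nd (nat_lit 9) 
(.lf (nat_lit 455793) (.g (nat_lit 3736) (.e (nat_lit 2664) (nat_lit 167) (.e (nat_lit 196672) (nat_lit 15) (.e (nat_lit 81953) (nat_lit 22) (.e (nat_lit 90181) (nat_lit 16) .nil)))) (.g (nat_lit 0) (.e (nat_lit 41411) (nat_lit 0) .nil) .nil))) 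
(.lf (nat_lit 456305) (.g (nat_lit 4280) (.e (nat_lit 2668) (nat_lit 167) (.e (nat_lit 196666) (nat_lit 13) (.e (nat_lit 65610) (nat_lit 10) (.e (nat_lit 344117) (nat_lit 21) (.e (nat_lit 516106) (nat_lit 0) (.e (nat_lit 7112) (nat_lit 381) (.e (nat_lit 229683) (nat_lit 246) .nil))))))) (.g (nat_lit 1) (.e (nat_lit 42616) (nat_lit 0) .nil) .nil)))) (.nd (nat_lit 9) 
(.lf (nat_lit 456049) (.g (nat_lit 2876) (.e (nat_lit 2667) (nat_lit 167) (.e (nat_lit 196668) (nat_lit 14) (.e (nat_lit 73753) (nat_lit 8) (.e (nat_lit 557103) (nat_lit 14) (.e (nat_lit 180250) (nat_lit 10) (.e (nat_lit 573477) (nat_lit 12) (.e (nat_lit 57510) (nat_lit 39) (.e (nat_lit 655104) (nat_lit 0) .nil)))))))) (.g (nat_lit 1) (.e (nat_lit 41953) (nat_lit 0) .nil) .nil))) 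
(.lf (nat_lit 456561) (.g (nat_lit 3435) (.e (nat_lit 2668) (nat_lit 167) (.e (nat_lit 196666) (nat_lit 13) (.e (nat_lit 65610) (nat_lit 10) (.e (nat_lit 344117) (nat_lit 21) (.e (nat_lit 516151) (nat_lit 9) (.e (nat_lit 426412) (nat_lit 15) (.e (nat_lit 1009) (nat_lit 81) (.e (nat_lit 5998) (nat_lit 326) (.e (nat_lit 2443) (nat_lit 157) .nil))))))))) (.g (nat_lit 1) (.e (nat_lit 42910) (nat_lit 0) .nil) .nil))))) 
(.nd (nat_lit 8) (.nd (nat_lit 9) 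
(.lf (nat_lit 455921) (.g (nat_lit 3788) (.e (nat_lit 2666) (nat_lit 167) (.e (nat_lit 196666) (nat_lit 13) (.e (nat_lit 65610) (nat_lit 10) (.e (nat_lit 344117) (nat_lit 21) (.e (nat_lit 516151) (nat_lit 9) (.e (nat_lit 426022) (nat_lit 0) (.e (nat_lit 2402) (nat_lit 157) (.e (nat_lit 4761) (nat_lit 281) (.e (nat_lit 2461) (nat_lit 157) .nil))))))))) (.g (nat_lit 1) (.e (nat_lit 41686) (nat_lit 0) .nil) .nil))) 
(.lf (nat_lit 456433) (.g (nat_lit 4910) (.e (nat_lit 2668) (nat_lit 167) (.e (nat_lit 196666) (nat_lit 13) (.e (nat_lit 65610) (nat_lit 10) (.e (nat_lit 344117) (nat_lit 21) (.e (nat_lit 516151) (nat_lit 9) (.e (nat_lit 426017) (nat_lit 0) (.e (nat_lit 7936) (nat_lit 208) (.e (nat_lit 622622) (nat_lit 13) .nil)))))))) (.g (nat_lit 1) (.e (nat_lit 42782) (nat_lit 0) .nil) .nil)))) 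
(.nd (nat_lit 9) 
(.lf (nat_lit 456177) (.g (nat_lit 3286) (.e (nat_lit 2668) (nat_lit 167) (.e (nat_lit 196655) (nat_lit 11) (.e (nat_lit 16465) (nat_lit 13) (.e (nat_lit 483341) (nat_lit 9) (.e (nat_lit 426108) (nat_lit 1) (.e (nat_lit 164305) (nat_lit 226) (.e (nat_lit 2433) (nat_lit 157) .nil))))))) (.g (nat_lit 1) (.e (nat_lit 42432) (nat_lit 0) .nil) .nil))) 
(.lf (nat_lit 456689) (.g (nat_lit 2743) (.e (nat_lit 2668) (nat_lit 167) (.e (nat_lit 196666) (nat_lit 13) (.e (nat_lit 65617) (nat_lit 10) (.e (nat_lit 344133) (nat_lit 26) (.e (nat_lit 557086) (nat_lit 11) (.e (nat_lit 24578) (nat_lit 0) (.e (nat_lit 6619) (nat_lit 357) .nil))))))) (.g (nat_lit 1) (.e (nat_lit 43152) (nat_lit 0) .nil) .nil))))))))) 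
(.nd (nat_lit 4) (.nd (nat_lit 5) (.nd (nat_lit 6) (.nd (nat_lit 7) (.nd (nat_lit 8) 
(.nd (nat_lit 9) 
(.lf (nat_lit 455689) (.g (nat_lit 2806) (.e (nat_lit 2664) (nat_lit 167) (.e (nat_lit 196666) (nat_lit 13) (.e (nat_lit 65610) (nat_lit 10) (.e (nat_lit 344117) (nat_lit 21) (.e (nat_lit 516160) (nat_lit 10) (.e (nat_lit 434264) (nat_lit 34) (.e (nat_lit 622630) (nat_lit 13) .nil))))))) (.g (nat_lit 1) (.e (nat_lit 41270) (nat_lit 0) .nil) .nil))) 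
(.lf (nat_lit 456201) (.g (nat_lit 2075) (.e (nat_lit 2668) (nat_lit 167) (.e (nat_lit 196666) (nat_lit 13) (.e (nat_lit 65610) (nat_lit 10) (.e (nat_lit 344089) (nat_lit 18) .nil)))) (.g (nat_lit 0) (.e (nat_lit 42502) (nat_lit 0) .nil) .nil)))) (.nd (nat_lit 9) 
(.lf (nat_lit 455945) (.g (nat_lit 2434) (.e (nat_lit 2666) (nat_lit 167) (.e (nat_lit 196666) (nat_lit 13) (.e (nat_lit 65610) (nat_lit 10) (.e (nat_lit 344117) (nat_lit 21) (.e (nat_lit 516151) (nat_lit 9) (.e (nat_lit 426043) (nat_lit 0) (.e (nat_lit 3369) (nat_lit 208) (.e (nat_lit 622626) (nat_lit 13) .nil)))))))) (.g (nat_lit 1) (.e (nat_lit 41710) (nat_lit 0) .nil) .nil))) 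
(.lf (nat_lit 456457) (.g (nat_lit 3082) (.e (nat_lit 2668) (nat_lit 167) (.e (nat_lit 196666) (nat_lit 13) (.e (nat_lit 65610) (nat_lit 10) (.e (nat_lit 344117) (nat_lit 21) (.e (nat_lit 516151) (nat_lit 9) (.e (nat_lit 426022) (nat_lit 0) (.e (nat_lit 3363) (nat_lit 208) (.e (nat_lit 622620) (nat_lit 13) .nil)))))))) (.g (nat_lit 1) (.e (nat_lit 42806) (nat_lit 0) .nil) .nil))))) 
(.nd (nat_lit 8) (.nd (nat_lit 9) 
(.lf (nat_lit 455817) (.g (nat_lit 3784) (.e (nat_lit 2664) (nat_lit 167) (.e (nat_lit 196673) (nat_lit 15) (.e (nat_lit 81956) (nat_lit 23) (.e (nat_lit 98350) (nat_lit 24) (.e (nat_lit 409617) (nat_lit 10) .nil))))) (.g (nat_lit 0) (.e (nat_lit 41438) (nat_lit 0) .nil) .nil))) 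
(.lf (nat_lit 456329) (.g (nat_lit 2429) (.e (nat_lit 2668) (nat_lit 167) (.e (nat_lit 196666) (nat_lit 13) (.e (nat_lit 65610) (nat_lit 10) (.e (nat_lit 344117) (nat_lit 21) (.e (nat_lit 516138) (nat_lit 7) (.e (nat_lit 409616) (nat_lit 10) (.e (nat_lit 5616) (nat_lit 312) .nil))))))) (.g (nat_lit 1) (.e (nat_lit 42640) (nat_lit 0) .nil) .nil)))) (.nd (nat_lit 9) 
(.lf (nat_lit 456073) (.g (nat_lit 2205) (.e (nat_lit 2667) (nat_lit 167) (.e (nat_lit 196669) (nat_lit 14) (.e (nat_lit 73755) (nat_lit 8) (.e (nat_lit 557105) (nat_lit 14) (.e (nat_lit 180252) (nat_lit 10) (.e (nat_lit 573474) (nat_lit 12) (.e (nat_lit 57507) (nat_lit 39) (.e (nat_lit 647175) (nat_lit 0) .nil)))))))) (.g (nat_lit 1) (.e (nat_lit 42020) (nat_lit 0) .nil) .nil))) 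
(.lf (nat_lit 456585) (.g (nat_lit 4019) (.e (nat_lit 2668) (nat_lit 167) (.e (nat_lit 196666) (nat_lit 13) (.e (nat_lit 65610) (nat_lit 10) (.e (nat_lit 344117) (nat_lit 21) (.e (nat_lit 516160) (nat_lit 10) (.e (nat_lit 434208) (nat_lit 18) (.e (nat_lit 4754) (nat_lit 281) (.e (nat_lit 7936) (nat_lit 157) .nil)))))))) (.g (nat_lit 1) (.e (nat_lit 42936) (nat_lit 0) .nil) .nil)))))) 
(.nd (nat_lit 7) (.nd (nat_lit 8) (.nd (nat_lit 9) 
(.lf (nat_lit 455753) (.g (nat_lit 2342) (.e (nat_lit 2664) (nat_lit 167) (.e (nat_lit 196666) (nat_lit 13) (.e (nat_lit 65628) (nat_lit 14) (.e (nat_lit 401428) (nat_lit 3) (.e (nat_lit 204862) (nat_lit 27) (.e (nat_lit 344068) (nat_lit 0) .nil)))))) (.g (nat_lit 1) (.e (nat_lit 41361) (nat_lit 0) .nil) .nil))) 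
(.lf (nat_lit 456265) (.g (nat_lit 2847) (.e (nat_lit 2668) (nat_lit 167) (.e (nat_lit 196666) (nat_lit 13) (.e (nat_lit 65610) (nat_lit 10) (.e (nat_lit 344117) (nat_lit 21) (.e (nat_lit 516106) (nat_lit 0) (.e (nat_lit 6986) (nat_lit 377) (.e (nat_lit 2397) (nat_lit 157) (.e (nat_lit 7936) (nat_lit 312) .nil)))))))) (.g (nat_lit 1) (.e (nat_lit 42576) (nat_lit 0) .nil) .nil)))) (.nd (nat_lit 9) 
(.lf (nat_lit 456009) (.g (nat_lit 2135) (.e (nat_lit 2667) (nat_lit 167) (.e (nat_lit 196654) (nat_lit 11) (.e (nat_lit 16436) (nat_lit 9) (.e (nat_lit 426131) (nat_lit 3) (.e (nat_lit 204880) (nat_lit 32) (.e (nat_lit 385096) (nat_lit 49) (.e (nat_lit 778388) (nat_lit 9) .nil))))))) (.g (nat_lit 1) (.e (nat_lit 41866) (nat_lit 0) .nil) .nil))) 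
(.lf (nat_lit 456521) (.g (nat_lit 4248) (.e (nat_lit 2668) (nat_lit 167) (.e (nat_lit 196666) (nat_lit 13) (.e (nat_lit 65610) (nat_lit 10) (.e (nat_lit 344117) (nat_lit 21) (.e (nat_lit 516151) (nat_lit 9) (.e (nat_lit 426042) (nat_lit 0) (.e (nat_lit 3371) (nat_lit 208) (.e (nat_lit 622620) (nat_lit 13) .nil)))))))) (.g (nat_lit 1) (.e (nat_lit 42870) (nat_lit 0) .nil) .nil))))) 
(.nd (nat_lit 8) (.nd (nat_lit 9) 
(.lf (nat_lit 455881) (.g (nat_lit 424) (.e (nat_lit 2666) (nat_lit 167) (.e (nat_lit 196666) (nat_lit 13) (.e (nat_lit 65610) (nat_lit 10) .nil))) (.g (nat_lit 0) (.e (nat_lit 41619) (nat_lit 0) .nil) .nil))) 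
(.lf (nat_lit 456393) (.g (nat_lit 3095) (.e (nat_lit 2668) (nat_lit 167) (.e (nat_lit 196666) (nat_lit 13) (.e (nat_lit 65610) (nat_lit 10) (.e (nat_lit 344117) (nat_lit 21) (.e (nat_lit 516142) (nat_lit 8) (.e (nat_lit 417814) (nat_lit 10) (.e (nat_lit 5628) (nat_lit 312) .nil))))))) (.g (nat_lit 1) (.e (nat_lit 42704) (nat_lit 0) .nil) .nil)))) (.nd (nat_lit 9) 
(.lf (nat_lit 456137) (.g (nat_lit 4297) (.e (nat_lit 2667) (nat_lit 167) (.e (nat_lit 196670) (nat_lit 14) (.e (nat_lit 73754) (nat_lit 8) (.e (nat_lit 557105) (nat_lit 14) (.e (nat_lit 180252) (nat_lit 10) (.e (nat_lit 573474) (nat_lit 12) (.e (nat_lit 57505) (nat_lit 39) (.e (nat_lit 655104) (nat_lit 0) .nil)))))))) (.g (nat_lit 1) (.e (nat_lit 42085) (nat_lit 0) .nil) .nil))) 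
(.lf (nat_lit 456649) (.g (nat_lit 1873) (.e (nat_lit 2668) (nat_lit 167) (.e (nat_lit 196666) (nat_lit 13) (.e (nat_lit 65617) (nat_lit 10) (.e (nat_lit 344130) (nat_lit 26) (.e (nat_lit 557074) (nat_lit 9) .nil))))) (.g (nat_lit 0) (.e (nat_lit 43082) (nat_lit 0) .nil) .nil))))))) (.nd (nat_lit 6) (.nd (nat_lit 7) (.nd (nat_lit 8) (.nd (nat_lit 9) 
(.lf (nat_lit 455721) (.g (nat_lit 1665) (.e (nat_lit 2664) (nat_lit 167) (.e (nat_lit 196666) (nat_lit 13) (.e (nat_lit 65617) (nat_lit 10) (.e (nat_lit 344126) (nat_lit 25) (.e (nat_lit 548889) (nat_lit 9) (.e (nat_lit 65537) (nat_lit 0) (.e (nat_lit 6677) (nat_lit 357) .nil))))))) (.g (nat_lit 1) (.e (nat_lit 41323) (nat_lit 0) .nil) .nil))) 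
(.lf (nat_lit 456233) (.g (nat_lit 2813) (.e (nat_lit 2668) (nat_lit 167) (.e (nat_lit 196666) (nat_lit 13) (.e (nat_lit 65610) (nat_lit 10) (.e (nat_lit 344117) (nat_lit 21) (.e (nat_lit 516098) (nat_lit 0) (.e (nat_lit 7073) (nat_lit 377) (.e (nat_lit 2449) (nat_lit 157) (.e (nat_lit 5627) (nat_lit 312) .nil)))))))) (.g (nat_lit 1) (.e (nat_lit 42544) (nat_lit 0) .nil) .nil)))) (.nd (nat_lit 9) 
(.lf (nat_lit 455977) (.g (nat_lit 4675) (.e (nat_lit 2666) (nat_lit 167) (.e (nat_lit 196666) (nat_lit 13) (.e (nat_lit 65610) (nat_lit 10) (.e (nat_lit 344129) (nat_lit 26) (.e (nat_lit 557087) (nat_lit 11) (.e (nat_lit 24580) (nat_lit 0) (.e (nat_lit 6696) (nat_lit 357) .nil))))))) (.g (nat_lit 1) (.e (nat_lit 41782) (nat_lit 0) .nil) .nil))) 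
(.lf (nat_lit 456489) (.g (nat_lit 4039) (.e (nat_lit 2668) (nat_lit 167) (.e (nat_lit 196666) (nat_lit 13) (.e (nat_lit 65610) (nat_lit 10) (.e (nat_lit 344117) (nat_lit 21) (.e (nat_lit 516151) (nat_lit 9) (.e (nat_lit 426038) (nat_lit 0) (.e (nat_lit 3366) (nat_lit 208) (.e (nat_lit 622622) (nat_lit 13) .nil)))))))) (.g (nat_lit 1) (.e (nat_lit 42838) (nat_lit 0) .nil) .nil))))) 
(.nd (nat_lit 8) (.nd (nat_lit 9) 
(.lf (nat_lit 455849) (.g (nat_lit 647) (.e (nat_lit 2665) (nat_lit 167) (.e (nat_lit 196672) (nat_lit 15) (.e (nat_lit 81954) (nat_lit 23) .nil))) (.g (nat_lit 0) (.e (nat_lit 41515) (nat_lit 0) .nil) .nil))) 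
(.lf (nat_lit 456361) (.g (nat_lit 4529) (.e (nat_lit 2668) (nat_lit 167) (.e (nat_lit 196666) (nat_lit 13) (.e (nat_lit 65610) (nat_lit 10) (.e (nat_lit 344117) (nat_lit 21) (.e (nat_lit 516139) (nat_lit 7) (.e (nat_lit 409616) (nat_lit 10) (.e (nat_lit 5615) (nat_lit 312) .nil))))))) (.g (nat_lit 1) (.e (nat_lit 42672) (nat_lit 0) .nil) .nil)))) (.nd (nat_lit 9) 
(.lf (nat_lit 456105) (.g (nat_lit 3330) (.e (nat_lit 2667) (nat_lit 167) (.e (nat_lit 196670) (nat_lit 14) (.e (nat_lit 73753) (nat_lit 8) (.e (nat_lit 557105) (nat_lit 14) (.e (nat_lit 180252) (nat_lit 10) (.e (nat_lit 573473) (nat_lit 12) (.e (nat_lit 57506) (nat_lit 39) (.e (nat_lit 655104) (nat_lit 0) .nil)))))))) (.g (nat_lit 1) (.e (nat_lit 42053) (nat_lit 0) .nil) .nil))) 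
(.lf (nat_lit 456617) (.g (nat_lit 4133) (.e (nat_lit 2668) (nat_lit 167) (.e (nat_lit 196666) (nat_lit 13) (.e (nat_lit 65610) (nat_lit 10) (.e (nat_lit 344129) (nat_lit 26) (.e (nat_lit 557087) (nat_lit 11) (.e (nat_lit 24588) (nat_lit 0) (.e (nat_lit 7936) (nat_lit 357) .nil))))))) (.g (nat_lit 1) (.e (nat_lit 43016) (nat_lit 0) .nil) .nil)))))) 
(.nd (nat_lit 7) (.nd (nat_lit 8) (.nd (nat_lit 9) 
(.lf (nat_lit 455785) (.g (nat_lit 2068) (.e (nat_lit 2664) (nat_lit 167) (.e (nat_lit 196672) (nat_lit 15) (.e (nat_lit 81943) (nat_lit 20) (.e (nat_lit 1841) (nat_lit 123) (.e (nat_lit 548889) (nat_lit 9) (.e (nat_lit 65540) (nat_lit 0) (.e (nat_lit 6681) (nat_lit 357) .nil))))))) (.g (nat_lit 1) (.e (nat_lit 41401) (nat_lit 0) .nil) .nil))) 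
(.lf (nat_lit 456297) (.g (nat_lit 3843) (.e (nat_lit 2668) (nat_lit 167) (.e (nat_lit 196666) (nat_lit 13) (.e (nat_lit 65610) (nat_lit 10) (.e (nat_lit 344117) (nat_lit 21) (.e (nat_lit 516106) (nat_lit 0) (.e (nat_lit 7014) (nat_lit 377) (.e (nat_lit 2442) (nat_lit 157) (.e (nat_lit 5627) (nat_lit 312) .nil)))))))) (.g (nat_lit 1) (.e (nat_lit 42608) (nat_lit 0) .nil) .nil)))) (.nd (nat_lit 9) 
(.lf (nat_lit 456041) (.g (nat_lit 3591) (.e (nat_lit 2667) (nat_lit 167) (.e (nat_lit 196668) (nat_lit 14) (.e (nat_lit 73753) (nat_lit 8) (.e (nat_lit 557103) (nat_lit 14) (.e (nat_lit 180250) (nat_lit 10) (.e (nat_lit 573475) (nat_lit 12) (.e (nat_lit 57506) (nat_lit 39) (.e (nat_lit 647175) (nat_lit 0) .nil)))))))) (.g (nat_lit 1) (.e (nat_lit 41945) (nat_lit 0) .nil) .nil))) 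
(.lf (nat_lit 456553) (.g (nat_lit 2235) (.e (nat_lit 2668) (nat_lit 167) (.e (nat_lit 196666) (nat_lit 13) (.e (nat_lit 65610) (nat_lit 10) (.e (nat_lit 344117) (nat_lit 21) (.e (nat_lit 516151) (nat_lit 9) (.e (nat_lit 426097) (nat_lit 1) (.e (nat_lit 164254) (nat_lit 215) (.e (nat_lit 7936) (nat_lit 157) .nil)))))))) (.g (nat_lit 1) (.e (nat_lit 42902) (nat_lit 0) .nil) .nil))))) 
(.nd (nat_lit 8) (.nd (nat_lit 9) 
(.lf (nat_lit 455913) (.g (nat_lit 2558) (.e (nat_lit 2666) (nat_lit 167) (.e (nat_lit 196666) (nat_lit 13) (.e (nat_lit 65610) (nat_lit 10) (.e (nat_lit 344117) (nat_lit 21) (.e (nat_lit 516151) (nat_lit 9) (.e (nat_lit 426018) (nat_lit 0) (.e (nat_lit 2411) (nat_lit 157) (.e (nat_lit 4761) (nat_lit 281) (.e (nat_lit 2463) (nat_lit 157) .nil))))))))) (.g (nat_lit 1) (.e (nat_lit 41678) (nat_lit 0) .nil) .nil))) 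
(.lf (nat_lit 456425) (.g (nat_lit 4141) (.e (nat_lit 2668) (nat_lit 167) (.e (nat_lit 196666) (nat_lit 13) (.e (nat_lit 65610) (nat_lit 10) (.e (nat_lit 344117) (nat_lit 21) (.e (nat_lit 516151) (nat_lit 9) (.e (nat_lit 426017) (nat_lit 0) (.e (nat_lit 3367) (nat_lit 208) (.e (nat_lit 622621) (nat_lit 13) .nil)))))))) (.g (nat_lit 1) (.e (nat_lit 42774) (nat_lit 0) .nil) .nil)))) 
(.nd (nat_lit 9) 
(.lf (nat_lit 456169) (.g (nat_lit 2790) (.e (nat_lit 2667) (nat_lit 167) (.e (nat_lit 196672) (nat_lit 15) (.e (nat_lit 81954) (nat_lit 23) (.e (nat_lit 98350) (nat_lit 24) (.e (nat_lit 409614) (nat_lit 10) (.e (nat_lit 7936) (nat_lit 312) .nil)))))) (.g (nat_lit 1) (.e (nat_lit 42237) (nat_lit 0) .nil) .nil))) 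
(.lf (nat_lit 456681) (.g (nat_lit 1962) (.e (nat_lit 2668) (nat_lit 167) (.e (nat_lit 196666) (nat_lit 13) (.e (nat_lit 65617) (nat_lit 10) (.e (nat_lit 344132) (nat_lit 26) (.e (nat_lit 557094) (nat_lit 12) (.e (nat_lit 163847) (nat_lit 0) (.e (nat_lit 6420) (nat_lit 341) (.e (nat_lit 163843) (nat_lit 0) (.e (nat_lit 7936) (nat_lit 388) .nil))))))))) (.g (nat_lit 1) (.e (nat_lit 43127) (nat_lit 0) .nil) .nil)))))))) 
(.nd (nat_lit 5) (.nd (nat_lit 6) (.nd (nat_lit 7) (.nd (nat_lit 8) (.nd (nat_lit 9) 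
(.lf (nat_lit 455705) (.g (nat_lit 1031) (.e (nat_lit 2664) (nat_lit 167) (.e (nat_lit 196666) (nat_lit 13) (.e (nat_lit 65610) (nat_lit 10) (.e (nat_lit 344129) (nat_lit 26) .nil)))) (.g (nat_lit 0) (.e (nat_lit 41290) (nat_lit 0) .nil) .nil))) 
(.lf (nat_lit 456217) (.g (nat_lit 3356) (.e (nat_lit 2668) (nat_lit 167) (.e (nat_lit 196666) (nat_lit 13) (.e (nat_lit 65610) (nat_lit 10) (.e (nat_lit 344117) (nat_lit 21) (.e (nat_lit 516097) (nat_lit 0) (.e (nat_lit 7073) (nat_lit 377) (.e (nat_lit 2448) (nat_lit 157) (.e (nat_lit 5627) (nat_lit 312) .nil)))))))) (.g (nat_lit 1) (.e (nat_lit 42528) (nat_lit 0) .nil) .nil)))) (.nd (nat_lit 9) 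
(.lf (nat_lit 455961) (.g (nat_lit 2102) (.e (nat_lit 2666) (nat_lit 167) (.e (nat_lit 196666) (nat_lit 13) (.e (nat_lit 65610) (nat_lit 10) (.e (nat_lit 344117) (nat_lit 21) (.e (nat_lit 516159) (nat_lit 10) .nil))))) (.g (nat_lit 0) (.e (nat_lit 41739) (nat_lit 0) .nil) .nil))) 
(.lf (nat_lit 456473) (.g (nat_lit 4056) (.e (nat_lit 2668) (nat_lit 167) (.e (nat_lit 196666) (nat_lit 13) (.e (nat_lit 65610) (nat_lit 10) (.e (nat_lit 344117) (nat_lit 21) (.e (nat_lit 516151) (nat_lit 9) (.e (nat_lit 426034) (nat_lit 0) (.e (nat_lit 3370) (nat_lit 208) (.e (nat_lit 622620) (nat_lit 13) .nil)))))))) (.g (nat_lit 1) (.e (nat_lit 42822) (nat_lit 0) .nil) .nil))))) 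
(.nd (nat_lit 8) (.nd (nat_lit 9) 
(.lf (nat_lit 455833) (.g (nat_lit 2205) (.e (nat_lit 2664) (nat_lit 167) (.e (nat_lit 196674) (nat_lit 15) (.e (nat_lit 81947) (nat_lit 20) (.e (nat_lit 1842) (nat_lit 123) (.e (nat_lit 548887) (nat_lit 9) (.e (nat_lit 65540) (nat_lit 0) (.e (nat_lit 6681) (nat_lit 357) .nil))))))) (.g (nat_lit 1) (.e (nat_lit 41456) (nat_lit 0) .nil) .nil))) 
(.lf (nat_lit 456345) (.g (nat_lit 3432) (.e (nat_lit 2668) (nat_lit 167) (.e (nat_lit 196666) (nat_lit 13) (.e (nat_lit 65610) (nat_lit 10) (.e (nat_lit 344117) (nat_lit 21) (.e (nat_lit 516139) (nat_lit 7) (.e (nat_lit 409609) (nat_lit 10) (.e (nat_lit 5613) (nat_lit 312) .nil))))))) (.g (nat_lit 1) (.e (nat_lit 42656) (nat_lit 0) .nil) .nil)))) (.nd (nat_lit 9) 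
(.lf (nat_lit 456089) (.g (nat_lit 3725) (.e (nat_lit 2667) (nat_lit 167) (.e (nat_lit 196670) (nat_lit 14) (.e (nat_lit 73753) (nat_lit 8) (.e (nat_lit 557103) (nat_lit 14) (.e (nat_lit 180250) (nat_lit 10) (.e (nat_lit 573473) (nat_lit 12) (.e (nat_lit 57507) (nat_lit 39) (.e (nat_lit 655104) (nat_lit 0) .nil)))))))) (.g (nat_lit 1) (.e (nat_lit 42037) (nat_lit 0) .nil) .nil))) 
(.lf (nat_lit 456601) (.g (nat_lit 935) (.e (nat_lit 2668) (nat_lit 167) (.e (nat_lit 196666) (nat_lit 13) (.e (nat_lit 65610) (nat_lit 10) (.e (nat_lit 344129) (nat_lit 26) .nil)))) (.g (nat_lit 0) (.e (nat_lit 42982) (nat_lit 0) .nil) .nil)))))) (.nd (nat_lit 7) (.nd (nat_lit 8) (.nd (nat_lit 9) 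
(.lf (nat_lit 455769) (.g (nat_lit 2164) (.e (nat_lit 2664) (nat_lit 167) (.e (nat_lit 196666) (nat_lit 13) (.e (nat_lit 65630) (nat_lit 14) (.e (nat_lit 401428) (nat_lit 3) (.e (nat_lit 204864) (nat_lit 27) (.e (nat_lit 344069) (nat_lit 0) .nil)))))) (.g (nat_lit 1) (.e (nat_lit 41380) (nat_lit 0) .nil) .nil))) 
(.lf (nat_lit 456281) (.g (nat_lit 3528) (.e (nat_lit 2668) (nat_lit 167) (.e (nat_lit 196666) (nat_lit 13) (.e (nat_lit 65610) (nat_lit 10) (.e (nat_lit 344117) (nat_lit 21) (.e (nat_lit 516106) (nat_lit 0) (.e (nat_lit 7008) (nat_lit 377) (.e (nat_lit 2422) (nat_lit 157) (.e (nat_lit 5628) (nat_lit 312) .nil)))))))) (.g (nat_lit 1) (.e (nat_lit 42592) (nat_lit 0) .nil) .nil)))) (.nd (nat_lit 9) 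
(.lf (nat_lit 456025) (.g (nat_lit 2511) (.e (nat_lit 2667) (nat_lit 167) (.e (nat_lit 196668) (nat_lit 14) (.e (nat_lit 73753) (nat_lit 8) (.e (nat_lit 557103) (nat_lit 14) (.e (nat_lit 180250) (nat_lit 10) (.e (nat_lit 573473) (nat_lit 12) (.e (nat_lit 57506) (nat_lit 39) (.e (nat_lit 647175) (nat_lit 0) .nil)))))))) (.g (nat_lit 1) (.e (nat_lit 41929) (nat_lit 0) .nil) .nil))) 
(.lf (nat_lit 456537) (.g (nat_lit 4149) (.e (nat_lit 2668) (nat_lit 167) (.e (nat_lit 196666) (nat_lit 13) (.e (nat_lit 65610) (nat_lit 10) (.e (nat_lit 344117) (nat_lit 21) (.e (nat_lit 516151) (nat_lit 9) (.e (nat_lit 426049) (nat_lit 0) (.e (nat_lit 3366) (nat_lit 208) (.e (nat_lit 622620) (nat_lit 13) .nil)))))))) (.g (nat_lit 1) (.e (nat_lit 42886) (nat_lit 0) .nil) .nil))))) 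
(.nd (nat_lit 8) (.nd (nat_lit 9) 
(.lf (nat_lit 455897) (.g (nat_lit 3853) (.e (nat_lit 2666) (nat_lit 167) (.e (nat_lit 196666) (nat_lit 13) (.e (nat_lit 65610) (nat_lit 10) (.e (nat_lit 344117) (nat_lit 21) (.e (nat_lit 516142) (nat_lit 8) (.e (nat_lit 417814) (nat_lit 10) (.e (nat_lit 5735) (nat_lit 312) .nil))))))) (.g (nat_lit 1) (.e (nat_lit 41661) (nat_lit 0) .nil) .nil))) 
(.lf (nat_lit 456409) (.g (nat_lit 5901) (.e (nat_lit 2668) (nat_lit 167) (.e (nat_lit 196666) (nat_lit 13) (.e (nat_lit 65610) (nat_lit 10) (.e (nat_lit 344117) (nat_lit 21) (.e (nat_lit 516142) (nat_lit 8) (.e (nat_lit 417820) (nat_lit 10) (.e (nat_lit 5626) (nat_lit 312) .nil))))))) (.g (nat_lit 1) (.e (nat_lit 42720) (nat_lit 0) .nil) .nil)))) (.nd (nat_lit 9) 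
(.lf (nat_lit 456153) (.g (nat_lit 2333) (.e (nat_lit 2667) (nat_lit 167) (.e (nat_lit 196670) (nat_lit 14) (.e (nat_lit 73755) (nat_lit 8) (.e (nat_lit 557105) (nat_lit 14) (.e (nat_lit 180252) (nat_lit 10) .nil))))) (.g (nat_lit 0) (.e (nat_lit 42101) (nat_lit 0) .nil) .nil))) 
(.lf (nat_lit 456665) (.g (nat_lit 3675) (.e (nat_lit 2668) (nat_lit 167) (.e (nat_lit 196666) (nat_lit 13) (.e (nat_lit 65617) (nat_lit 10) (.e (nat_lit 344130) (nat_lit 26) (.e (nat_lit 557087) (nat_lit 11) (.e (nat_lit 24590) (nat_lit 0) (.e (nat_lit 7936) (nat_lit 357) .nil))))))) (.g (nat_lit 1) (.e (nat_lit 43103) (nat_lit 0) .nil) .nil))))))) 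
(.nd (nat_lit 6) (.nd (nat_lit 7) (.nd (nat_lit 8) (.nd (nat_lit 9) 
(.lf (nat_lit 455737) (.g (nat_lit 3026) (.e (nat_lit 2664) (nat_lit 167) (.e (nat_lit 196666) (nat_lit 13) (.e (nat_lit 65617) (nat_lit 10) (.e (nat_lit 344130) (nat_lit 26) (.e (nat_lit 557087) (nat_lit 11) (.e (nat_lit 24584) (nat_lit 0) (.e (nat_lit 6679) (nat_lit 357) .nil))))))) (.g (nat_lit 1) (.e (nat_lit 41339) (nat_lit 0) .nil) .nil))) 
(.lf (nat_lit 456249) (.g (nat_lit 3718) (.e (nat_lit 2668) (nat_lit 167) (.e (nat_lit 196666) (nat_lit 13) (.e (nat_lit 65610) (nat_lit 10) (.e (nat_lit 344117) (nat_lit 21) (.e (nat_lit 516099) (nat_lit 0) (.e (nat_lit 7936) (nat_lit 381) (.e (nat_lit 229683) (nat_lit 246) .nil))))))) (.g (nat_lit 1) (.e (nat_lit 42560) (nat_lit 0) .nil) .nil)))) (.nd (nat_lit 9) 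
(.lf (nat_lit 455993) (.g (nat_lit 3481) (.e (nat_lit 2666) (nat_lit 167) (.e (nat_lit 196666) (nat_lit 13) (.e (nat_lit 65624) (nat_lit 12) (.e (nat_lit 385074) (nat_lit 31) (.e (nat_lit 573487) (nat_lit 14) (.e (nat_lit 81664) (nat_lit 32) .nil)))))) (.g (nat_lit 1) (.e (nat_lit 41810) (nat_lit 0) .nil) .nil))) 
(.lf (nat_lit 456505) (.g (nat_lit 4448) (.e (nat_lit 2668) (nat_lit 167) (.e (nat_lit 196666) (nat_lit 13) (.e (nat_lit 65610) (nat_lit 10) (.e (nat_lit 344117) (nat_lit 21) (.e (nat_lit 516151) (nat_lit 9) (.e (nat_lit 426040) (nat_lit 0) (.e (nat_lit 3370) (nat_lit 208) (.e (nat_lit 622621) (nat_lit 13) .nil)))))))) (.g (nat_lit 1) (.e (nat_lit 42854) (nat_lit 0) .nil) .nil))))) 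
(.nd (nat_lit 8) (.nd (nat_lit 9) 
(.lf (nat_lit 455865) (.g (nat_lit 5723) (.e (nat_lit 2666) (nat_lit 167) (.e (nat_lit 196666) (nat_lit 13) (.e (nat_lit 65569) (nat_lit 3) (.e (nat_lit 98334) (nat_lit 18) (.e (nat_lit 164182) (nat_lit 154) (.e (nat_lit 57379) (nat_lit 3) (.e (nat_lit 98338) (nat_lit 19) (.e (nat_lit 213013) (nat_lit 9) .nil)))))))) (.g (nat_lit 1) (.e (nat_lit 41545) (nat_lit 0) .nil) .nil))) 
(.lf (nat_lit 456377) (.g (nat_lit 3186) (.e (nat_lit 2668) (nat_lit 167) (.e (nat_lit 196666) (nat_lit 13) (.e (nat_lit 65610) (nat_lit 10) (.e (nat_lit 344117) (nat_lit 21) (.e (nat_lit 516141) (nat_lit 8) (.e (nat_lit 417814) (nat_lit 10) (.e (nat_lit 5613) (nat_lit 312) .nil))))))) (.g (nat_lit 1) (.e (nat_lit 42688) (nat_lit 0) .nil) .nil)))) (.nd (nat_lit 9) 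
(.lf (nat_lit 456121) (.g (nat_lit 4304) (.e (nat_lit 2667) (nat_lit 167) (.e (nat_lit 196670) (nat_lit 14) (.e (nat_lit 73753) (nat_lit 8) (.e (nat_lit 557105) (nat_lit 14) (.e (nat_lit 180252) (nat_lit 10) (.e (nat_lit 573474) (nat_lit 12) (.e (nat_lit 57511) (nat_lit 39) (.e (nat_lit 655104) (nat_lit 0) .nil)))))))) (.g (nat_lit 1) (.e (nat_lit 42069) (nat_lit 0) .nil) .nil))) 
(.lf (nat_lit 456633) (.g (nat_lit 2038) (.e (nat_lit 2668) (nat_lit 167) (.e (nat_lit 196666) (nat_lit 13) (.e (nat_lit 65617) (nat_lit 10) (.e (nat_lit 344117) (nat_lit 21) (.e (nat_lit 516141) (nat_lit 8) (.e (nat_lit 417816) (nat_lit 10) (.e (nat_lit 5612) (nat_lit 312) .nil))))))) (.g (nat_lit 1) (.e (nat_lit 43041) (nat_lit 0) .nil) .nil)))))) 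
(.nd (nat_lit 7) (.nd (nat_lit 8) (.nd (nat_lit 9) 
(.lf (nat_lit 455801) (.g (nat_lit 2426) (.e (nat_lit 2664) (nat_lit 167) (.e (nat_lit 196672) (nat_lit 15) (.e (nat_lit 81954) (nat_lit 23) (.e (nat_lit 98349) (nat_lit 24) (.e (nat_lit 409617) (nat_lit 10) .nil))))) (.g (nat_lit 0) (.e (nat_lit 41422) (nat_lit 0) .nil) .nil))) 
(.lf (nat_lit 456313) (.g (nat_lit 2187) (.e (nat_lit 2668) (nat_lit 167) (.e (nat_lit 196666) (nat_lit 13) (.e (nat_lit 65610) (nat_lit 10) (.e (nat_lit 344117) (nat_lit 21) (.e (nat_lit 516138) (nat_lit 7) (.e (nat_lit 409609) (nat_lit 10) (.e (nat_lit 5627) (nat_lit 312) .nil))))))) (.g (nat_lit 1) (.e (nat_lit 42624) (nat_lit 0) .nil) .nil)))) (.nd (nat_lit 9) 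
(.lf (nat_lit 456057) (.g (nat_lit 3672) (.e (nat_lit 2667) (nat_lit 167) (.e (nat_lit 196668) (nat_lit 14) (.e (nat_lit 73753) (nat_lit 8) (.e (nat_lit 557105) (nat_lit 14) (.e (nat_lit 180252) (nat_lit 10) (.e (nat_lit 573473) (nat_lit 12) (.e (nat_lit 57508) (nat_lit 39) (.e (nat_lit 655104) (nat_lit 0) .nil)))))))) (.g (nat_lit 1) (.e (nat_lit 41961) (nat_lit 0) .nil) .nil))) 
(.lf (nat_lit 456569) (.g (nat_lit 2947) (.e (nat_lit 2668) (nat_lit 167) (.e (nat_lit 196666) (nat_lit 13) (.e (nat_lit 65610) (nat_lit 10) (.e (nat_lit 344117) (nat_lit 21) (.e (nat_lit 516159) (nat_lit 10) (.e (nat_lit 434206) (nat_lit 18) (.e (nat_lit 4778) (nat_lit 281) (.e (nat_lit 2445) (nat_lit 157) .nil)))))))) (.g (nat_lit 1) (.e (nat_lit 42920) (nat_lit 0) .nil) .nil))))) 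
(.nd (nat_lit 8) (.nd (nat_lit 9) 
(.lf (nat_lit 455929) (.g (nat_lit 2404) (.e (nat_lit 2666) (nat_lit 167) (.e (nat_lit 196666) (nat_lit 13) (.e (nat_lit 65610) (nat_lit 10) (.e (nat_lit 344117) (nat_lit 21) (.e (nat_lit 516151) (nat_lit 9) (.e (nat_lit 426023) (nat_lit 0) (.e (nat_lit 2397) (nat_lit 157) (.e (nat_lit 4761) (nat_lit 281) (.e (nat_lit 2463) (nat_lit 157) .nil))))))))) (.g (nat_lit 1) (.e (nat_lit 41694) (nat_lit 0) .nil) .nil))) 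
(.lf (nat_lit 456441) (.g (nat_lit 4018) (.e (nat_lit 2668) (nat_lit 167) (.e (nat_lit 196666) (nat_lit 13) (.e (nat_lit 65610) (nat_lit 10) (.e (nat_lit 344117) (nat_lit 21) (.e (nat_lit 516151) (nat_lit 9) (.e (nat_lit 426020) (nat_lit 0) (.e (nat_lit 3368) (nat_lit 208) (.e (nat_lit 622624) (nat_lit 13) .nil)))))))) (.g (nat_lit 1) (.e (nat_lit 42790) (nat_lit 0) .nil) .nil)))) 
(.nd (nat_lit 9) 
(.lf (nat_lit 456185) (.g (nat_lit 2817) (.e (nat_lit 2668) (nat_lit 167) (.e (nat_lit 196663) (nat_lit 13) (.e (nat_lit 65630) (nat_lit 14) (.e (nat_lit 401425) (nat_lit 2) (.e (nat_lit 196628) (nat_lit 9) (.e (nat_lit 1512) (nat_lit 108) (.e (nat_lit 335874) (nat_lit 0) (.e (nat_lit 6618) (nat_lit 357) .nil)))))))) (.g (nat_lit 1) (.e (nat_lit 42448) (nat_lit 0) .nil) .nil))) 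
(.lf (nat_lit 456697) (.g (nat_lit 2092) (.e (nat_lit 2668) (nat_lit 167) (.e (nat_lit 196666) (nat_lit 13) (.e (nat_lit 65619) (nat_lit 10) (.e (nat_lit 344117) (nat_lit 21) (.e (nat_lit 516106) (nat_lit 0) .nil))))) (.g (nat_lit 0) (.e (nat_lit 43160) (nat_lit 0) .nil) .nil)))))))))) 
(.nd (nat_lit 3) (.nd (nat_lit 4) (.nd (nat_lit 5) (.nd (nat_lit 6) (.nd (nat_lit 7) 
(.nd (nat_lit 8) (.nd (nat_lit 9) 
(.lf (nat_lit 455685) (.g (nat_lit 3651) (.e (nat_lit 2664) (nat_lit 167) (.e (nat_lit 196666) (nat_lit 13) (.e (nat_lit 65610) (nat_lit 10) (.e (nat_lit 344117) (nat_lit 21) (.e (nat_lit 516160) (nat_lit 10) (.e (nat_lit 434208) (nat_lit 18) (.e (nat_lit 4751) (nat_lit 281) (.e (nat_lit 2516) (nat_lit 157) .nil)))))))) (.g (nat_lit 1) (.e (nat_lit 41266) (nat_lit 0) .nil) .nil))) 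
(.lf (nat_lit 456197) (.g (nat_lit 501) (.e (nat_lit 2668) (nat_lit 167) (.e (nat_lit 196666) (nat_lit 13) (.e (nat_lit 65596) (nat_lit 9) .nil))) (.g (nat_lit 0) (.e (nat_lit 42493) (nat_lit 0) .nil) .nil)))) (.nd (nat_lit 9) 
(.lf (nat_lit 455941) (.g (nat_lit 3473) (.e (nat_lit 2666) (nat_lit 167) (.e (nat_lit 196666) (nat_lit 13) (.e (nat_lit 65610) (nat_lit 10) (.e (nat_lit 344117) (nat_lit 21) (.e (nat_lit 516151) (nat_lit 9) (.e (nat_lit 426042) (nat_lit 0) (.e (nat_lit 3370) (nat_lit 208) (.e (nat_lit 622627) (nat_lit 13) .nil)))))))) (.g (nat_lit 1) (.e (nat_lit 41706) (nat_lit 0) .nil) .nil))) 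
(.lf (nat_lit 456453) (.g (nat_lit 2579) (.e (nat_lit 2668) (nat_lit 167) (.e (nat_lit 196666) (nat_lit 13) (.e (nat_lit 65610) (nat_lit 10) (.e (nat_lit 344117) (nat_lit 21) (.e (nat_lit 516151) (nat_lit 9) (.e (nat_lit 426022) (nat_lit 0) (.e (nat_lit 2397) (nat_lit 157) (.e (nat_lit 4761) (nat_lit 281) (.e (nat_lit 2433) (nat_lit 157) .nil))))))))) (.g (nat_lit 1) (.e (nat_lit 42802) (nat_lit 0) .nil) .nil))))) 
(.nd (nat_lit 8) (.nd (nat_lit 9) 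
(.lf (nat_lit 455813) (.g (nat_lit 1850) (.e (nat_lit 2664) (nat_lit 167) (.e (nat_lit 196673) (nat_lit 15) (.e (nat_lit 81938) (nat_lit 20) (.e (nat_lit 1842) (nat_lit 123) (.e (nat_lit 548890) (nat_lit 10) (.e (nat_lit 73781) (nat_lit 32) .nil)))))) (.g (nat_lit 1) (.e (nat_lit 41434) (nat_lit 0) .nil) .nil))) 
(.lf (nat_lit 456325) (.g (nat_lit 3858) (.e (nat_lit 2668) (nat_lit 167) (.e (nat_lit 196666) (nat_lit 13) (.e (nat_lit 65610) (nat_lit 10) (.e (nat_lit 344117) (nat_lit 21) (.e (nat_lit 516138) (nat_lit 7) (.e (nat_lit 409615) (nat_lit 10) (.e (nat_lit 5627) (nat_lit 312) .nil))))))) (.g (nat_lit 1) (.e (nat_lit 42636) (nat_lit 0) .nil) .nil)))) (.nd (nat_lit 9) 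
(.lf (nat_lit 456069) (.g (nat_lit 2087) (.e (nat_lit 2667) (nat_lit 167) (.e (nat_lit 196669) (nat_lit 14) (.e (nat_lit 73755) (nat_lit 8) (.e (nat_lit 557105) (nat_lit 14) (.e (nat_lit 180252) (nat_lit 10) (.e (nat_lit 573474) (nat_lit 12) (.e (nat_lit 57348) (nat_lit 0) (.e (nat_lit 5437) (nat_lit 306) (.e (nat_lit 2461) (nat_lit 157) .nil))))))))) (.g (nat_lit 1) (.e (nat_lit 42016) (nat_lit 0) .nil) .nil))) 
(.lf (nat_lit 456581) (.g (nat_lit 3809) (.e (nat_lit 2668) (nat_lit 167) (.e (nat_lit 196666) (nat_lit 13) (.e (nat_lit 65610) (nat_lit 10) (.e (nat_lit 344117) (nat_lit 21) (.e (nat_lit 516160) (nat_lit 10) (.e (nat_lit 434203) (nat_lit 18) (.e (nat_lit 4778) (nat_lit 281) (.e (nat_lit 2444) (nat_lit 157) .nil)))))))) (.g (nat_lit 1) (.e (nat_lit 42932) (nat_lit 0) .nil) .nil)))))) 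
(.nd (nat_lit 7) (.nd (nat_lit 8) (.nd (nat_lit 9) 
(.lf (nat_lit 455749) (.g (nat_lit 4395) (.e (nat_lit 2664) (nat_lit 167) (.e (nat_lit 196666) (nat_lit 13) (.e (nat_lit 65624) (nat_lit 12) (.e (nat_lit 385074) (nat_lit 31) (.e (nat_lit 573488) (nat_lit 14) (.e (nat_lit 73782) (nat_lit 32) .nil)))))) (.g (nat_lit 1) (.e (nat_lit 41357) (nat_lit 0) .nil) .nil))) 
(.lf (nat_lit 456261) (.g (nat_lit 2751) (.e (nat_lit 2668) (nat_lit 167) (.e (nat_lit 196666) (nat_lit 13) (.e (nat_lit 65610) (nat_lit 10) (.e (nat_lit 344117) (nat_lit 21) (.e (nat_lit 516106) (nat_lit 0) (.e (nat_lit 6986) (nat_lit 377) (.e (nat_lit 2397) (nat_lit 157) (.e (nat_lit 5613) (nat_lit 312) .nil)))))))) (.g (nat_lit 1) (.e (nat_lit 42572) (nat_lit 0) .nil) .nil)))) (.nd (nat_lit 9) 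
(.lf (nat_lit 456005) (.g (nat_lit 3228) (.e (nat_lit 2666) (nat_lit 167) (.e (nat_lit 196672) (nat_lit 15) (.e (nat_lit 81954) (nat_lit 23) (.e (nat_lit 98350) (nat_lit 24) (.e (nat_lit 409616) (nat_lit 10) (.e (nat_lit 7936) (nat_lit 312) .nil)))))) (.g (nat_lit 1) (.e (nat_lit 41858) (nat_lit 0) .nil) .nil))) 
(.lf (nat_lit 456517) (.g (nat_lit 4030) (.e (nat_lit 2668) (nat_lit 167) (.e (nat_lit 196666) (nat_lit 13) (.e (nat_lit 65610) (nat_lit 10) (.e (nat_lit 344117) (nat_lit 21) (.e (nat_lit 516151) (nat_lit 9) (.e (nat_lit 426042) (nat_lit 0) (.e (nat_lit 3370) (nat_lit 208) (.e (nat_lit 622620) (nat_lit 13) .nil)))))))) (.g (nat_lit 1) (.e (nat_lit 42866) (nat_lit 0) .nil) .nil))))) 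
(.nd (nat_lit 8) (.nd (nat_lit 9) 
(.lf (nat_lit 455877) (.g (nat_lit 5480) (.e (nat_lit 2666) (nat_lit 167) (.e (nat_lit 196666) (nat_lit 13) (.e (nat_lit 65571) (nat_lit 3) (.e (nat_lit 98334) (nat_lit 18) (.e (nat_lit 164182) (nat_lit 154) (.e (nat_lit 57379) (nat_lit 3) (.e (nat_lit 98338) (nat_lit 19) (.e (nat_lit 213013) (nat_lit 9) .nil)))))))) (.g (nat_lit 1) (.e (nat_lit 41573) (nat_lit 0) .nil) .nil))) 
(.lf (nat_lit 456389) (.g (nat_lit 3147) (.e (nat_lit 2668) (nat_lit 167) (.e (nat_lit 196666) (nat_lit 13) (.e (nat_lit 65610) (nat_lit 10) (.e (nat_lit 344117) (nat_lit 21) (.e (nat_lit 516141) (nat_lit 8) (.e (nat_lit 425728) (nat_lit 10) (.e (nat_lit 5626) (nat_lit 312) .nil))))))) (.g (nat_lit 1) (.e (nat_lit 42700) (nat_lit 0) .nil) .nil)))) (.nd (nat_lit 9) 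
(.lf (nat_lit 456133) (.g (nat_lit 3286) (.e (nat_lit 2667) (nat_lit 167) (.e (nat_lit 196670) (nat_lit 14) (.e (nat_lit 73754) (nat_lit 8) (.e (nat_lit 557105) (nat_lit 14) (.e (nat_lit 180252) (nat_lit 10) (.e (nat_lit 573473) (nat_lit 12) (.e (nat_lit 57508) (nat_lit 39) (.e (nat_lit 647176) (nat_lit 0) .nil)))))))) (.g (nat_lit 1) (.e (nat_lit 42081) (nat_lit 0) .nil) .nil))) 
(.lf (nat_lit 456645) (.g (nat_lit 1106) (.e (nat_lit 2668) (nat_lit 167) (.e (nat_lit 196666) (nat_lit 13) (.e (nat_lit 65617) (nat_lit 10) (.e (nat_lit 344130) (nat_lit 26) .nil)))) (.g (nat_lit 0) (.e (nat_lit 43065) (nat_lit 0) .nil) .nil))))))) (.nd (nat_lit 6) (.nd (nat_lit 7) (.nd (nat_lit 8) (.nd (nat_lit 9) 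
(.lf (nat_lit 455717) (.g (nat_lit 1199) (.e (nat_lit 2664) (nat_lit 167) (.e (nat_lit 196666) (nat_lit 13) (.e (nat_lit 65617) (nat_lit 10) (.e (nat_lit 344124) (nat_lit 25) .nil)))) (.g (nat_lit 0) (.e (nat_lit 41318) (nat_lit 0) .nil) .nil))) 
(.lf (nat_lit 456229) (.g (nat_lit 2648) (.e (nat_lit 2668) (nat_lit 167) (.e (nat_lit 196666) (nat_lit 13) (.e (nat_lit 65610) (nat_lit 10) (.e (nat_lit 344117) (nat_lit 21) (.e (nat_lit 516098) (nat_lit 0) (.e (nat_lit 7073) (nat_lit 377) (.e (nat_lit 2426) (nat_lit 157) (.e (nat_lit 5616) (nat_lit 312) .nil)))))))) (.g (nat_lit 1) (.e (nat_lit 42540) (nat_lit 0) .nil) .nil)))) (.nd (nat_lit 9) 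
(.lf (nat_lit 455973) (.g (nat_lit 3380) (.e (nat_lit 2666) (nat_lit 167) (.e (nat_lit 196666) (nat_lit 13) (.e (nat_lit 65610) (nat_lit 10) (.e (nat_lit 344129) (nat_lit 26) (.e (nat_lit 557086) (nat_lit 11) (.e (nat_lit 24580) (nat_lit 0) (.e (nat_lit 6696) (nat_lit 357) .nil))))))) (.g (nat_lit 1) (.e (nat_lit 41778) (nat_lit 0) .nil) .nil))) 
(.lf (nat_lit 456485) (.g (nat_lit 4198) (.e (nat_lit 2668) (nat_lit 167) (.e (nat_lit 196666) (nat_lit 13) (.e (nat_lit 65610) (nat_lit 10) (.e (nat_lit 344117) (nat_lit 21) (.e (nat_lit 516151) (nat_lit 9) (.e (nat_lit 426038) (nat_lit 0) (.e (nat_lit 2426) (nat_lit 157) (.e (nat_lit 4778) (nat_lit 281) (.e (nat_lit 2444) (nat_lit 157) .nil))))))))) (.g (nat_lit 1) (.e (nat_lit 42834) (nat_lit 0) .nil) .nil))))) 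
(.nd (nat_lit 8) (.nd (nat_lit 9) 
(.lf (nat_lit 455845) (.g (nat_lit 2142) (.e (nat_lit 2665) (nat_lit 167) (.e (nat_lit 196666) (nat_lit 13) (.e (nat_lit 65624) (nat_lit 12) (.e (nat_lit 385074) (nat_lit 31) .nil)))) (.g (nat_lit 0) (.e (nat_lit 41509) (nat_lit 0) .nil) .nil))) 
(.lf (nat_lit 456357) (.g (nat_lit 4264) (.e (nat_lit 2668) (nat_lit 167) (.e (nat_lit 196666) (nat_lit 13) (.e (nat_lit 65610) (nat_lit 10) (.e (nat_lit 344117) (nat_lit 21) (.e (nat_lit 516139) (nat_lit 7) (.e (nat_lit 409614) (nat_lit 10) (.e (nat_lit 7936) (nat_lit 312) .nil))))))) (.g (nat_lit 1) (.e (nat_lit 42668) (nat_lit 0) .nil) .nil)))) (.nd (nat_lit 9) 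
(.lf (nat_lit 456101) (.g (nat_lit 2300) (.e (nat_lit 2667) (nat_lit 167) (.e (nat_lit 196670) (nat_lit 14) (.e (nat_lit 73753) (nat_lit 8) (.e (nat_lit 557103) (nat_lit 14) (.e (nat_lit 180250) (nat_lit 10) (.e (nat_lit 573478) (nat_lit 12) (.e (nat_lit 57511) (nat_lit 39) (.e (nat_lit 655104) (nat_lit 0) .nil)))))))) (.g (nat_lit 1) (.e (nat_lit 42049) (nat_lit 0) .nil) .nil))) 
(.lf (nat_lit 456613) (.g (nat_lit 2895) (.e (nat_lit 2668) (nat_lit 167) (.e (nat_lit 196666) (nat_lit 13) (.e (nat_lit 65610) (nat_lit 10) (.e (nat_lit 344129) (nat_lit 26) (.e (nat_lit 557087) (nat_lit 11) (.e (nat_lit 24582) (nat_lit 0) (.e (nat_lit 7936) (nat_lit 357) .nil))))))) (.g (nat_lit 1) (.e (nat_lit 43012) (nat_lit 0) .nil) .nil)))))) 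
(.nd (nat_lit 7) (.nd (nat_lit 8) (.nd (nat_lit 9) 
(.lf (nat_lit 455781) (.g (nat_lit 1980) (.e (nat_lit 2664) (nat_lit 167) (.e (nat_lit 196672) (nat_lit 15) (.e (nat_lit 81943) (nat_lit 20) (.e (nat_lit 1840) (nat_lit 123) (.e (nat_lit 548889) (nat_lit 9) (.e (nat_lit 65543) (nat_lit 0) (.e (nat_lit 6676) (nat_lit 357) .nil))))))) (.g (nat_lit 1) (.e (nat_lit 41397) (nat_lit 0) .nil) .nil))) 
(.lf (nat_lit 456293) (.g (nat_lit 2446) (.e (nat_lit 2668) (nat_lit 167) (.e (nat_lit 196666) (nat_lit 13) (.e (nat_lit 65610) (nat_lit 10) (.e (nat_lit 344117) (nat_lit 21) (.e (nat_lit 516106) (nat_lit 0) (.e (nat_lit 7008) (nat_lit 377) (.e (nat_lit 2446) (nat_lit 157) (.e (nat_lit 5627) (nat_lit 312) .nil)))))))) (.g (nat_lit 1) (.e (nat_lit 42604) (nat_lit 0) .nil) .nil)))) (.nd (nat_lit 9) 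
(.lf (nat_lit 456037) (.g (nat_lit 2752) (.e (nat_lit 2667) (nat_lit 167) (.e (nat_lit 196668) (nat_lit 14) (.e (nat_lit 73753) (nat_lit 8) (.e (nat_lit 557103) (nat_lit 14) (.e (nat_lit 180250) (nat_lit 10) (.e (nat_lit 573474) (nat_lit 12) (.e (nat_lit 57508) (nat_lit 39) (.e (nat_lit 647176) (nat_lit 0) .nil)))))))) (.g (nat_lit 1) (.e (nat_lit 41941) (nat_lit 0) .nil) .nil))) 
(.lf (nat_lit 456549) (.g (nat_lit 4031) (.e (nat_lit 2668) (nat_lit 167) (.e (nat_lit 196666) (nat_lit 13) (.e (nat_lit 65610) (nat_lit 10) (.e (nat_lit 344117) (nat_lit 21) (.e (nat_lit 516151) (nat_lit 9) (.e (nat_lit 426047) (nat_lit 0) (.e (nat_lit 3369) (nat_lit 208) (.e (nat_lit 622624) (nat_lit 13) .nil)))))))) (.g (nat_lit 1) (.e (nat_lit 42898) (nat_lit 0) .nil) .nil))))) 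
(.nd (nat_lit 8) (.nd (nat_lit 9) 
(.lf (nat_lit 455909) (.g (nat_lit 2540) (.e (nat_lit 2666) (nat_lit 167) (.e (nat_lit 196666) (nat_lit 13) (.e (nat_lit 65610) (nat_lit 10) (.e (nat_lit 344117) (nat_lit 21) (.e (nat_lit 516151) (nat_lit 9) (.e (nat_lit 426018) (nat_lit 0) (.e (nat_lit 2398) (nat_lit 157) (.e (nat_lit 4824) (nat_lit 281) (.e (nat_lit 2416) (nat_lit 157) .nil))))))))) (.g (nat_lit 1) (.e (nat_lit 41674) (nat_lit 0) .nil) .nil))) 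
(.lf (nat_lit 456421) (.g (nat_lit 2528) (.e (nat_lit 2668) (nat_lit 167) (.e (nat_lit 196666) (nat_lit 13) (.e (nat_lit 65610) (nat_lit 10) (.e (nat_lit 344117) (nat_lit 21) (.e (nat_lit 516151) (nat_lit 9) (.e (nat_lit 426003) (nat_lit 0) (.e (nat_lit 3372) (nat_lit 208) (.e (nat_lit 622623) (nat_lit 13) .nil)))))))) (.g (nat_lit 1) (.e (nat_lit 42770) (nat_lit 0) .nil) .nil)))) 
(.nd (nat_lit 9) 
(.lf (nat_lit 456165) (.g (nat_lit 2785) (.e (nat_lit 2667) (nat_lit 167) (.e (nat_lit 196672) (nat_lit 15) (.e (nat_lit 81954) (nat_lit 23) (.e (nat_lit 98350) (nat_lit 24) (.e (nat_lit 409608) (nat_lit 10) (.e (nat_lit 5686) (nat_lit 312) .nil)))))) (.g (nat_lit 1) (.e (nat_lit 42233) (nat_lit 0) .nil) .nil))) 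
(.lf (nat_lit 456677) (.g (nat_lit 3142) (.e (nat_lit 2668) (nat_lit 167) (.e (nat_lit 196666) (nat_lit 13) (.e (nat_lit 65617) (nat_lit 10) (.e (nat_lit 344132) (nat_lit 26) (.e (nat_lit 557085) (nat_lit 11) (.e (nat_lit 24580) (nat_lit 0) (.e (nat_lit 6617) (nat_lit 357) .nil))))))) (.g (nat_lit 1) (.e (nat_lit 43123) (nat_lit 0) .nil) .nil)))))))) 
(.nd (nat_lit 5) (.nd (nat_lit 6) (.nd (nat_lit 7) (.nd (nat_lit 8) (.nd (nat_lit 9) 
(.lf (nat_lit 455701) (.g (nat_lit 4436) (.e (nat_lit 2664) (nat_lit 167) (.e (nat_lit 196666) (nat_lit 13) (.e (nat_lit 65610) (nat_lit 10) (.e (nat_lit 344126) (nat_lit 25) (.e (nat_lit 548889) (nat_lit 9) (.e (nat_lit 65540) (nat_lit 0) (.e (nat_lit 6681) (nat_lit 357) .nil))))))) (.g (nat_lit 1) (.e (nat_lit 41286) (nat_lit 0) .nil) .nil))) 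
(.lf (nat_lit 456213) (.g (nat_lit 4195) (.e (nat_lit 2668) (nat_lit 167) (.e (nat_lit 196666) (nat_lit 13) (.e (nat_lit 65610) (nat_lit 10) (.e (nat_lit 344117) (nat_lit 21) (.e (nat_lit 516097) (nat_lit 0) (.e (nat_lit 7026) (nat_lit 377) (.e (nat_lit 2445) (nat_lit 157) (.e (nat_lit 5627) (nat_lit 312) .nil)))))))) (.g (nat_lit 1) (.e (nat_lit 42524) (nat_lit 0) .nil) .nil)))) (.nd (nat_lit 9) 
(.lf (nat_lit 455957) (.g (nat_lit 3476) (.e (nat_lit 2666) (nat_lit 167) (.e (nat_lit 196666) (nat_lit 13) (.e (nat_lit 65610) (nat_lit 10) (.e (nat_lit 344117) (nat_lit 21) (.e (nat_lit 516151) (nat_lit 9) (.e (nat_lit 426104) (nat_lit 1) (.e (nat_lit 164255) (nat_lit 215) (.e (nat_lit 2416) (nat_lit 157) .nil)))))))) (.g (nat_lit 1) (.e (nat_lit 41722) (nat_lit 0) .nil) .nil))) 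
(.lf (nat_lit 456469) (.g (nat_lit 2302) (.e (nat_lit 2668) (nat_lit 167) (.e (nat_lit 196666) (nat_lit 13) (.e (nat_lit 65610) (nat_lit 10) (.e (nat_lit 344117) (nat_lit 21) (.e (nat_lit 516151) (nat_lit 9) (.e (nat_lit 426026) (nat_lit 0) (.e (nat_lit 7936) (nat_lit 208) (.e (nat_lit 622622) (nat_lit 13) .nil)))))))) (.g (nat_lit 1) (.e (nat_lit 42818) (nat_lit 0) .nil) .nil))))) 
(.nd (nat_lit 8) (.nd (nat_lit 9) 
(.lf (nat_lit 455829) (.g (nat_lit 1103) (.e (nat_lit 2664) (nat_lit 167) (.e (nat_lit 196674) (nat_lit 15) (.e (nat_lit 81947) (nat_lit 20) (.e (nat_lit 1841) (nat_lit 123) .nil)))) (.g (nat_lit 0) (.e (nat_lit 41452) (nat_lit 0) .nil) .nil))) 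
(.lf (nat_lit 456341) (.g (nat_lit 4240) (.e (nat_lit 2668) (nat_lit 167) (.e (nat_lit 196666) (nat_lit 13) (.e (nat_lit 65610) (nat_lit 10) (.e (nat_lit 344117) (nat_lit 21) (.e (nat_lit 516139) (nat_lit 7) (.e (nat_lit 409608) (nat_lit 10) (.e (nat_lit 5616) (nat_lit 312) .nil))))))) (.g (nat_lit 1) (.e (nat_lit 42652) (nat_lit 0) .nil) .nil)))) (.nd (nat_lit 9) 
(.lf (nat_lit 456085) (.g (nat_lit 1797) (.e (nat_lit 2667) (nat_lit 167) (.e (nat_lit 196670) (nat_lit 14) (.e (nat_lit 73746) (nat_lit 3) (.e (nat_lit 516131) (nat_lit 3) (.e (nat_lit 221212) (nat_lit 22) (.e (nat_lit 196658) (nat_lit 12) (.e (nat_lit 57508) (nat_lit 39) (.e (nat_lit 647175) (nat_lit 0) .nil)))))))) (.g (nat_lit 1) (.e (nat_lit 42032) (nat_lit 0) .nil) .nil))) 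
(.lf (nat_lit 456597) (.g (nat_lit 2225) (.e (nat_lit 2668) (nat_lit 167) (.e (nat_lit 196666) (nat_lit 13) (.e (nat_lit 65610) (nat_lit 10) (.e (nat_lit 344118) (nat_lit 21) (.e (nat_lit 516139) (nat_lit 7) .nil))))) (.g (nat_lit 0) (.e (nat_lit 42967) (nat_lit 0) .nil) .nil)))))) (.nd (nat_lit 7) (.nd (nat_lit 8) (.nd (nat_lit 9) 
(.lf (nat_lit 455765) (.g (nat_lit 1280) (.e (nat_lit 2664) (nat_lit 167) (.e (nat_lit 196666) (nat_lit 13) (.e (nat_lit 65630) (nat_lit 14) (.e (nat_lit 401428) (nat_lit 3) .nil)))) (.g (nat_lit 0) (.e (nat_lit 41376) (nat_lit 0) .nil) .nil))) 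
(.lf (nat_lit 456277) (.g (nat_lit 3030) (.e (nat_lit 2668) (nat_lit 167) (.e (nat_lit 196666) (nat_lit 13) (.e (nat_lit 65610) (nat_lit 10) (.e (nat_lit 344117) (nat_lit 21) (.e (nat_lit 516106) (nat_lit 0) (.e (nat_lit 6986) (nat_lit 377) (.e (nat_lit 7936) (nat_lit 157) (.e (nat_lit 5627) (nat_lit 312) .nil)))))))) (.g (nat_lit 1) (.e (nat_lit 42588) (nat_lit 0) .nil) .nil)))) (.nd (nat_lit 9) 
(.lf (nat_lit 456021) (.g (nat_lit 2509) (.e (nat_lit 2667) (nat_lit 167) (.e (nat_lit 196666) (nat_lit 13) (.e (nat_lit 65617) (nat_lit 10) (.e (nat_lit 344130) (nat_lit 26) (.e (nat_lit 557067) (nat_lit 9) .nil))))) (.g (nat_lit 0) (.e (nat_lit 41898) (nat_lit 0) .nil) .nil))) 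
(.lf (nat_lit 456533) (.g (nat_lit 2615) (.e (nat_lit 2668) (nat_lit 167) (.e (nat_lit 196666) (nat_lit 13) (.e (nat_lit 65610) (nat_lit 10) (.e (nat_lit 344117) (nat_lit 21) (.e (nat_lit 516151) (nat_lit 9) (.e (nat_lit 426043) (nat_lit 0) (.e (nat_lit 3371) (nat_lit 208) (.e (nat_lit 622622) (nat_lit 13) .nil)))))))) (.g (nat_lit 1) (.e (nat_lit 42882) (nat_lit 0) .nil) .nil))))) 
(.nd (nat_lit 8) (.nd (nat_lit 9) 
(.lf (nat_lit 455893) (.g (nat_lit 2970) (.e (nat_lit 2666) (nat_lit 167) (.e (nat_lit 196666) (nat_lit 13) (.e (nat_lit 65610) (nat_lit 10) (.e (nat_lit 344117) (nat_lit 21) (.e (nat_lit 516139) (nat_lit 7) .nil))))) (.g (nat_lit 0) (.e (nat_lit 41656) (nat_lit 0) .nil) .nil))) 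
(.lf (nat_lit 456405) (.g (nat_lit 3218) (.e (nat_lit 2668) (nat_lit 167) (.e (nat_lit 196666) (nat_lit 13) (.e (nat_lit 65610) (nat_lit 10) (.e (nat_lit 344117) (nat_lit 21) (.e (nat_lit 516142) (nat_lit 8) (.e (nat_lit 417818) (nat_lit 10) (.e (nat_lit 7936) (nat_lit 312) .nil))))))) (.g (nat_lit 1) (.e (nat_lit 42716) (nat_lit 0) .nil) .nil)))) (.nd (nat_lit 9) 
(.lf (nat_lit 456149) (.g (nat_lit 3828) (.e (nat_lit 2667) (nat_lit 167) (.e (nat_lit 196670) (nat_lit 14) (.e (nat_lit 73754) (nat_lit 8) (.e (nat_lit 557105) (nat_lit 14) (.e (nat_lit 180252) (nat_lit 10) (.e (nat_lit 573475) (nat_lit 12) (.e (nat_lit 57508) (nat_lit 39) (.e (nat_lit 647175) (nat_lit 0) .nil)))))))) (.g (nat_lit 1) (.e (nat_lit 42097) (nat_lit 0) .nil) .nil))) 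
(.lf (nat_lit 456661) (.g (nat_lit 3939) (.e (nat_lit 2668) (nat_lit 167) (.e (nat_lit 196666) (nat_lit 13) (.e (nat_lit 65617) (nat_lit 10) (.e (nat_lit 344130) (nat_lit 26) (.e (nat_lit 557087) (nat_lit 11) (.e (nat_lit 24583) (nat_lit 0) (.e (nat_lit 7936) (nat_lit 357) .nil))))))) (.g (nat_lit 1) (.e (nat_lit 43099) (nat_lit 0) .nil) .nil))))))) 
(.nd (nat_lit 6) (.nd (nat_lit 7) (.nd (nat_lit 8) (.nd (nat_lit 9) 
(.lf (nat_lit 455733) (.g (nat_lit 1683) (.e (nat_lit 2664) (nat_lit 167) (.e (nat_lit 196666) (nat_lit 13) (.e (nat_lit 65617) (nat_lit 10) (.e (nat_lit 344130) (nat_lit 26) (.e (nat_lit 557087) (nat_lit 11) (.e (nat_lit 24578) (nat_lit 0) (.e (nat_lit 6670) (nat_lit 357) .nil))))))) (.g (nat_lit 1) (.e (nat_lit 41335) (nat_lit 0) .nil) .nil))) 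
(.lf (nat_lit 456245) (.g (nat_lit 3646) (.e (nat_lit 2668) (nat_lit 167) (.e (nat_lit 196666) (nat_lit 13) (.e (nat_lit 65610) (nat_lit 10) (.e (nat_lit 344117) (nat_lit 21) (.e (nat_lit 516099) (nat_lit 0) (.e (nat_lit 7062) (nat_lit 377) (.e (nat_lit 2444) (nat_lit 157) (.e (nat_lit 5627) (nat_lit 312) .nil)))))))) (.g (nat_lit 1) (.e (nat_lit 42556) (nat_lit 0) .nil) .nil)))) (.nd (nat_lit 9) 
(.lf (nat_lit 455989) (.g (nat_lit 3309) (.e (nat_lit 2666) (nat_lit 167) (.e (nat_lit 196666) (nat_lit 13) (.e (nat_lit 65617) (nat_lit 10) (.e (nat_lit 344130) (nat_lit 26) (.e (nat_lit 557090) (nat_lit 12) .nil))))) (.g (nat_lit 0) (.e (nat_lit 41802) (nat_lit 0) .nil) .nil))) 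
(.lf (nat_lit 456501) (.g (nat_lit 3913) (.e (nat_lit 2668) (nat_lit 167) (.e (nat_lit 196666) (nat_lit 13) (.e (nat_lit 65610) (nat_lit 10) (.e (nat_lit 344117) (nat_lit 21) (.e (nat_lit 516151) (nat_lit 9) (.e (nat_lit 426040) (nat_lit 0) (.e (nat_lit 3366) (nat_lit 208) (.e (nat_lit 622622) (nat_lit 13) .nil)))))))) (.g (nat_lit 1) (.e (nat_lit 42850) (nat_lit 0) .nil) .nil))))) 
(.nd (nat_lit 8) (.nd (nat_lit 9) 
(.lf (nat_lit 455861) (.g (nat_lit 4064) (.e (nat_lit 2666) (nat_lit 167) (.e (nat_lit 196666) (nat_lit 13) (.e (nat_lit 65569) (nat_lit 3) (.e (nat_lit 98333) (nat_lit 18) (.e (nat_lit 164179) (nat_lit 154) (.e (nat_lit 57377) (nat_lit 3) (.e (nat_lit 98338) (nat_lit 19) (.e (nat_lit 213013) (nat_lit 9) .nil)))))))) (.g (nat_lit 1) (.e (nat_lit 41541) (nat_lit 0) .nil) .nil))) 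
(.lf (nat_lit 456373) (.g (nat_lit 4002) (.e (nat_lit 2668) (nat_lit 167) (.e (nat_lit 196666) (nat_lit 13) (.e (nat_lit 65610) (nat_lit 10) (.e (nat_lit 344117) (nat_lit 21) (.e (nat_lit 516139) (nat_lit 7) (.e (nat_lit 409624) (nat_lit 10) (.e (nat_lit 5612) (nat_lit 312) .nil))))))) (.g (nat_lit 1) (.e (nat_lit 42684) (nat_lit 0) .nil) .nil)))) (.nd (nat_lit 9) 
(.lf (nat_lit 456117) (.g (nat_lit 3692) (.e (nat_lit 2667) (nat_lit 167) (.e (nat_lit 196670) (nat_lit 14) (.e (nat_lit 73753) (nat_lit 8) (.e (nat_lit 557105) (nat_lit 14) (.e (nat_lit 180252) (nat_lit 10) (.e (nat_lit 573474) (nat_lit 12) (.e (nat_lit 57508) (nat_lit 39) (.e (nat_lit 647176) (nat_lit 0) .nil)))))))) (.g (nat_lit 1) (.e (nat_lit 42065) (nat_lit 0) .nil) .nil))) 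
(.lf (nat_lit 456629) (.g (nat_lit 3913) (.e (nat_lit 2668) (nat_lit 167) (.e (nat_lit 196666) (nat_lit 13) (.e (nat_lit 65617) (nat_lit 10) (.e (nat_lit 344117) (nat_lit 21) (.e (nat_lit 516139) (nat_lit 7) (.e (nat_lit 409616) (nat_lit 10) (.e (nat_lit 7936) (nat_lit 312) .nil))))))) (.g (nat_lit 1) (.e (nat_lit 43037) (nat_lit 0) .nil) .nil)))))) 
(.nd (nat_lit 7) (.nd (nat_lit 8) (.nd (nat_lit 9) 
(.lf (nat_lit 455797) (.g (nat_lit 3454) (.e (nat_lit 2664) (nat_lit 167) (.e (nat_lit 196672) (nat_lit 15) (.e (nat_lit 81954) (nat_lit 23) (.e (nat_lit 98323) (nat_lit 17) (.e (nat_lit 7107) (nat_lit 380) (.e (nat_lit 164366) (nat_lit 246) .nil)))))) (.g (nat_lit 1) (.e (nat_lit 41418) (nat_lit 0) .nil) .nil))) 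
(.lf (nat_lit 456309) (.g (nat_lit 2843) (.e (nat_lit 2668) (nat_lit 167) (.e (nat_lit 196666) (nat_lit 13) (.e (nat_lit 65610) (nat_lit 10) (.e (nat_lit 344117) (nat_lit 21) (.e (nat_lit 524032) (nat_lit 0) (.e (nat_lit 7096) (nat_lit 380) (.e (nat_lit 164351) (nat_lit 246) .nil))))))) (.g (nat_lit 1) (.e (nat_lit 42620) (nat_lit 0) .nil) .nil)))) (.nd (nat_lit 9) 
(.lf (nat_lit 456053) (.g (nat_lit 3312) (.e (nat_lit 2667) (nat_lit 167) (.e (nat_lit 196668) (nat_lit 14) (.e (nat_lit 73753) (nat_lit 8) (.e (nat_lit 557105) (nat_lit 14) (.e (nat_lit 180251) (nat_lit 10) (.e (nat_lit 573478) (nat_lit 12) (.e (nat_lit 57509) (nat_lit 39) (.e (nat_lit 655104) (nat_lit 0) .nil)))))))) (.g (nat_lit 1) (.e (nat_lit 41957) (nat_lit 0) .nil) .nil))) 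
(.lf (nat_lit 456565) (.g (nat_lit 2960) (.e (nat_lit 2668) (nat_lit 167) (.e (nat_lit 196666) (nat_lit 13) (.e (nat_lit 65610) (nat_lit 10) (.e (nat_lit 344117) (nat_lit 21) (.e (nat_lit 516159) (nat_lit 10) (.e (nat_lit 434202) (nat_lit 18) (.e (nat_lit 4778) (nat_lit 281) (.e (nat_lit 2444) (nat_lit 157) .nil)))))))) (.g (nat_lit 1) (.e (nat_lit 42916) (nat_lit 0) .nil) .nil))))) 
(.nd (nat_lit 8) (.nd (nat_lit 9) 
(.lf (nat_lit 455925) (.g (nat_lit 3574) (.e (nat_lit 2666) (nat_lit 167) (.e (nat_lit 196666) (nat_lit 13) (.e (nat_lit 65610) (nat_lit 10) (.e (nat_lit 344117) (nat_lit 21) (.e (nat_lit 516151) (nat_lit 9) (.e (nat_lit 426022) (nat_lit 0) (.e (nat_lit 2403) (nat_lit 157) (.e (nat_lit 4825) (nat_lit 281) (.e (nat_lit 2477) (nat_lit 157) .nil))))))))) (.g (nat_lit 1) (.e (nat_lit 41690) (nat_lit 0) .nil) .nil))) 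
(.lf (nat_lit 456437) (.g (nat_lit 3911) (.e (nat_lit 2668) (nat_lit 167) (.e (nat_lit 196666) (nat_lit 13) (.e (nat_lit 65610) (nat_lit 10) (.e (nat_lit 344117) (nat_lit 21) (.e (nat_lit 516151) (nat_lit 9) (.e (nat_lit 426020) (nat_lit 0) (.e (nat_lit 3367) (nat_lit 208) (.e (nat_lit 622620) (nat_lit 13) .nil)))))))) (.g (nat_lit 1) (.e (nat_lit 42786) (nat_lit 0) .nil) .nil)))) 
(.nd (nat_lit 9) 
(.lf (nat_lit 456181) (.g (nat_lit 2717) (.e (nat_lit 2668) (nat_lit 167) (.e (nat_lit 196656) (nat_lit 11) (.e (nat_lit 16436) (nat_lit 9) (.e (nat_lit 426131) (nat_lit 3) (.e (nat_lit 204880) (nat_lit 32) (.e (nat_lit 385096) (nat_lit 49) (.e (nat_lit 778370) (nat_lit 9) .nil))))))) (.g (nat_lit 1) (.e (nat_lit 42436) (nat_lit 0) .nil) .nil))) 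
(.lf (nat_lit 456693) (.g (nat_lit 2335) (.e (nat_lit 2668) (nat_lit 167) (.e (nat_lit 196666) (nat_lit 13) (.e (nat_lit 65617) (nat_lit 10) (.e (nat_lit 344133) (nat_lit 26) (.e (nat_lit 557089) (nat_lit 12) (.e (nat_lit 163849) (nat_lit 0) (.e (nat_lit 6420) (nat_lit 341) (.e (nat_lit 163843) (nat_lit 0) (.e (nat_lit 7936) (nat_lit 388) .nil))))))))) (.g (nat_lit 1) (.e (nat_lit 43156) (nat_lit 0) .nil) .nil))))))))) 
(.nd (nat_lit 4) (.nd (nat_lit 5) (.nd (nat_lit 6) (.nd (nat_lit 7) (.nd (nat_lit 8) 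
(.nd (nat_lit 9) 
(.lf (nat_lit 455693) (.g (nat_lit 5533) (.e (nat_lit 2664) (nat_lit 167) (.e (nat_lit 196666) (nat_lit 13) (.e (nat_lit 65610) (nat_lit 10) (.e (nat_lit 344117) (nat_lit 21) (.e (nat_lit 516185) (nat_lit 16) (.e (nat_lit 491526) (nat_lit 0) (.e (nat_lit 6680) (nat_lit 357) .nil))))))) (.g (nat_lit 1) (.e (nat_lit 41275) (nat_lit 0) .nil) .nil))) 
(.lf (nat_lit 456205) (.g (nat_lit 2552) (.e (nat_lit 2668) (nat_lit 167) (.e (nat_lit 196666) (nat_lit 13) (.e (nat_lit 65610) (nat_lit 10) (.e (nat_lit 344117) (nat_lit 21) (.e (nat_lit 516096) (nat_lit 0) (.e (nat_lit 7100) (nat_lit 380) (.e (nat_lit 164351) (nat_lit 246) .nil))))))) (.g (nat_lit 1) (.e (nat_lit 42516) (nat_lit 0) .nil) .nil)))) (.nd (nat_lit 9) 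
(.lf (nat_lit 455949) (.g (nat_lit 2697) (.e (nat_lit 2666) (nat_lit 167) (.e (nat_lit 196666) (nat_lit 13) (.e (nat_lit 65610) (nat_lit 10) (.e (nat_lit 344117) (nat_lit 21) (.e (nat_lit 516151) (nat_lit 9) (.e (nat_lit 426043) (nat_lit 0) (.e (nat_lit 7936) (nat_lit 208) (.e (nat_lit 622627) (nat_lit 13) .nil)))))))) (.g (nat_lit 1) (.e (nat_lit 41714) (nat_lit 0) .nil) .nil))) 
(.lf (nat_lit 456461) (.g (nat_lit 4024) (.e (nat_lit 2668) (nat_lit 167) (.e (nat_lit 196666) (nat_lit 13) (.e (nat_lit 65610) (nat_lit 10) (.e (nat_lit 344117) (nat_lit 21) (.e (nat_lit 516151) (nat_lit 9) (.e (nat_lit 426022) (nat_lit 0) (.e (nat_lit 7936) (nat_lit 208) (.e (nat_lit 622622) (nat_lit 13) .nil)))))))) (.g (nat_lit 1) (.e (nat_lit 42810) (nat_lit 0) .nil) .nil))))) 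
(.nd (nat_lit 8) (.nd (nat_lit 9) 
(.lf (nat_lit 455821) (.g (nat_lit 630) (.e (nat_lit 2664) (nat_lit 167) (.e (nat_lit 196674) (nat_lit 15) (.e (nat_lit 81923) (nat_lit 0) .nil))) (.g (nat_lit 0) (.e (nat_lit 41442) (nat_lit 0) .nil) .nil))) 
(.lf (nat_lit 456333) (.g (nat_lit 3479) (.e (nat_lit 2668) (nat_lit 167) (.e (nat_lit 196666) (nat_lit 13) (.e (nat_lit 65610) (nat_lit 10) (.e (nat_lit 344117) (nat_lit 21) (.e (nat_lit 516138) (nat_lit 7) (.e (nat_lit 409617) (nat_lit 10) (.e (nat_lit 5616) (nat_lit 312) .nil))))))) (.g (nat_lit 1) (.e (nat_lit 42644) (nat_lit 0) .nil) .nil)))) (.nd (nat_lit 9) 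
(.lf (nat_lit 456077) (.g (nat_lit 3546) (.e (nat_lit 2667) (nat_lit 167) (.e (nat_lit 196669) (nat_lit 14) (.e (nat_lit 73755) (nat_lit 8) (.e (nat_lit 557105) (nat_lit 14) (.e (nat_lit 180252) (nat_lit 10) (.e (nat_lit 573474) (nat_lit 12) (.e (nat_lit 57508) (nat_lit 39) (.e (nat_lit 655104) (nat_lit 0) .nil)))))))) (.g (nat_lit 1) (.e (nat_lit 42024) (nat_lit 0) .nil) .nil))) 
(.lf (nat_lit 456589) (.g (nat_lit 2929) (.e (nat_lit 2668) (nat_lit 167) (.e (nat_lit 196666) (nat_lit 13) (.e (nat_lit 65610) (nat_lit 10) (.e (nat_lit 344117) (nat_lit 21) (.e (nat_lit 516160) (nat_lit 10) (.e (nat_lit 434263) (nat_lit 34) (.e (nat_lit 622623) (nat_lit 13) .nil))))))) (.g (nat_lit 1) (.e (nat_lit 42940) (nat_lit 0) .nil) .nil)))))) 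
(.nd (nat_lit 7) (.nd (nat_lit 8) (.nd (nat_lit 9) 
(.lf (nat_lit 455757) (.g (nat_lit 2350) (.e (nat_lit 2664) (nat_lit 167) (.e (nat_lit 196666) (nat_lit 13) (.e (nat_lit 65628) (nat_lit 14) (.e (nat_lit 401428) (nat_lit 3) (.e (nat_lit 204864) (nat_lit 27) (.e (nat_lit 344069) (nat_lit 0) .nil)))))) (.g (nat_lit 1) (.e (nat_lit 41365) (nat_lit 0) .nil) .nil))) 
(.lf (nat_lit 456269) (.g (nat_lit 2286) (.e (nat_lit 2668) (nat_lit 167) (.e (nat_lit 196666) (nat_lit 13) (.e (nat_lit 65610) (nat_lit 10) (.e (nat_lit 344117) (nat_lit 21) (.e (nat_lit 516106) (nat_lit 0) (.e (nat_lit 6986) (nat_lit 377) (.e (nat_lit 2406) (nat_lit 157) (.e (nat_lit 7936) (nat_lit 312) .nil)))))))) (.g (nat_lit 1) (.e (nat_lit 42580) (nat_lit 0) .nil) .nil)))) (.nd (nat_lit 9) 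
(.lf (nat_lit 456013) (.g (nat_lit 3962) (.e (nat_lit 2667) (nat_lit 167) (.e (nat_lit 196656) (nat_lit 11) (.e (nat_lit 16436) (nat_lit 9) (.e (nat_lit 426131) (nat_lit 3) (.e (nat_lit 204880) (nat_lit 32) (.e (nat_lit 385096) (nat_lit 49) (.e (nat_lit 778353) (nat_lit 9) .nil))))))) (.g (nat_lit 1) (.e (nat_lit 41876) (nat_lit 0) .nil) .nil))) 
(.lf (nat_lit 456525) (.g (nat_lit 4223) (.e (nat_lit 2668) (nat_lit 167) (.e (nat_lit 196666) (nat_lit 13) (.e (nat_lit 65610) (nat_lit 10) (.e (nat_lit 344117) (nat_lit 21) (.e (nat_lit 516151) (nat_lit 9) (.e (nat_lit 426042) (nat_lit 0) (.e (nat_lit 3371) (nat_lit 208) (.e (nat_lit 622624) (nat_lit 13) .nil)))))))) (.g (nat_lit 1) (.e (nat_lit 42874) (nat_lit 0) .nil) .nil))))) 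
(.nd (nat_lit 8) (.nd (nat_lit 9) 
(.lf (nat_lit 455885) (.g (nat_lit 2710) (.e (nat_lit 2666) (nat_lit 167) (.e (nat_lit 196666) (nat_lit 13) (.e (nat_lit 65610) (nat_lit 10) (.e (nat_lit 344117) (nat_lit 21) (.e (nat_lit 516106) (nat_lit 0) .nil))))) (.g (nat_lit 0) (.e (nat_lit 41648) (nat_lit 0) .nil) .nil))) 
(.lf (nat_lit 456397) (.g (nat_lit 3297) (.e (nat_lit 2668) (nat_lit 167) (.e (nat_lit 196666) (nat_lit 13) (.e (nat_lit 65610) (nat_lit 10) (.e (nat_lit 344117) (nat_lit 21) (.e (nat_lit 516142) (nat_lit 8) (.e (nat_lit 417815) (nat_lit 10) (.e (nat_lit 5613) (nat_lit 312) .nil))))))) (.g (nat_lit 1) (.e (nat_lit 42708) (nat_lit 0) .nil) .nil)))) (.nd (nat_lit 9) 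
(.lf (nat_lit 456141) (.g (nat_lit 4145) (.e (nat_lit 2667) (nat_lit 167) (.e (nat_lit 196670) (nat_lit 14) (.e (nat_lit 73754) (nat_lit 8) (.e (nat_lit 557105) (nat_lit 14) (.e (nat_lit 180252) (nat_lit 10) (.e (nat_lit 573474) (nat_lit 12) (.e (nat_lit 57508) (nat_lit 39) (.e (nat_lit 655104) (nat_lit 0) .nil)))))))) (.g (nat_lit 1) (.e (nat_lit 42089) (nat_lit 0) .nil) .nil))) 
(.lf (nat_lit 456653) (.g (nat_lit 2545) (.e (nat_lit 2668) (nat_lit 167) (.e (nat_lit 196666) (nat_lit 13) (.e (nat_lit 65617) (nat_lit 10) (.e (nat_lit 344130) (nat_lit 26) (.e (nat_lit 557086) (nat_lit 11) (.e (nat_lit 24578) (nat_lit 0) (.e (nat_lit 6619) (nat_lit 357) .nil))))))) (.g (nat_lit 1) (.e (nat_lit 43091) (nat_lit 0) .nil) .nil))))))) 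
(.nd (nat_lit 6) (.nd (nat_lit 7) (.nd (nat_lit 8) (.nd (nat_lit 9) 
(.lf (nat_lit 455725) (.g (nat_lit 3621) (.e (nat_lit 2664) (nat_lit 167) (.e (nat_lit 196666) (nat_lit 13) (.e (nat_lit 65617) (nat_lit 10) (.e (nat_lit 344126) (nat_lit 25) (.e (nat_lit 548889) (nat_lit 9) (.e (nat_lit 65545) (nat_lit 0) (.e (nat_lit 6684) (nat_lit 357) .nil))))))) (.g (nat_lit 1) (.e (nat_lit 41327) (nat_lit 0) .nil) .nil))) 
(.lf (nat_lit 456237) (.g (nat_lit 5131) (.e (nat_lit 2668) (nat_lit 167) (.e (nat_lit 196666) (nat_lit 13) (.e (nat_lit 65610) (nat_lit 10) (.e (nat_lit 344117) (nat_lit 21) (.e (nat_lit 516098) (nat_lit 0) (.e (nat_lit 7110) (nat_lit 380) (.e (nat_lit 164351) (nat_lit 246) .nil))))))) (.g (nat_lit 1) (.e (nat_lit 42548) (nat_lit 0) .nil) .nil)))) (.nd (nat_lit 9) 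
(.lf (nat_lit 455981) (.g (nat_lit 2976) (.e (nat_lit 2666) (nat_lit 167) (.e (nat_lit 196666) (nat_lit 13) (.e (nat_lit 65610) (nat_lit 10) (.e (nat_lit 344129) (nat_lit 26) (.e (nat_lit 557087) (nat_lit 11) (.e (nat_lit 24588) (nat_lit 0) (.e (nat_lit 7936) (nat_lit 357) .nil))))))) (.g (nat_lit 1) (.e (nat_lit 41788) (nat_lit 0) .nil) .nil))) 
(.lf (nat_lit 456493) (.g (nat_lit 4903) (.e (nat_lit 2668) (nat_lit 167) (.e (nat_lit 196666) (nat_lit 13) (.e (nat_lit 65610) (nat_lit 10) (.e (nat_lit 344117) (nat_lit 21) (.e (nat_lit 516151) (nat_lit 9) (.e (nat_lit 426038) (nat_lit 0) (.e (nat_lit 3370) (nat_lit 208) (.e (nat_lit 622620) (nat_lit 13) .nil)))))))) (.g (nat_lit 1) (.e (nat_lit 42842) (nat_lit 0) .nil) .nil))))) 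
(.nd (nat_lit 8) (.nd (nat_lit 9) 
(.lf (nat_lit 455853) (.g (nat_lit 2771) (.e (nat_lit 2666) (nat_lit 167) (.e (nat_lit 196614) (nat_lit 0) (.e (nat_lit 3067) (nat_lit 190) (.e (nat_lit 483072) (nat_lit 26) (.e (nat_lit 532544) (nat_lit 10) (.e (nat_lit 344117) (nat_lit 21) (.e (nat_lit 516123) (nat_lit 2) (.e (nat_lit 213013) (nat_lit 9) .nil)))))))) (.g (nat_lit 1) (.e (nat_lit 41523) (nat_lit 0) .nil) .nil))) 
(.lf (nat_lit 456365) (.g (nat_lit 4435) (.e (nat_lit 2668) (nat_lit 167) (.e (nat_lit 196666) (nat_lit 13) (.e (nat_lit 65610) (nat_lit 10) (.e (nat_lit 344117) (nat_lit 21) (.e (nat_lit 516139) (nat_lit 7) (.e (nat_lit 409617) (nat_lit 10) (.e (nat_lit 5612) (nat_lit 312) .nil))))))) (.g (nat_lit 1) (.e (nat_lit 42676) (nat_lit 0) .nil) .nil)))) (.nd (nat_lit 9) 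
(.lf (nat_lit 456109) (.g (nat_lit 3732) (.e (nat_lit 2667) (nat_lit 167) (.e (nat_lit 196670) (nat_lit 14) (.e (nat_lit 73753) (nat_lit 8) (.e (nat_lit 557105) (nat_lit 14) (.e (nat_lit 180252) (nat_lit 10) (.e (nat_lit 573473) (nat_lit 12) (.e (nat_lit 57508) (nat_lit 39) (.e (nat_lit 647175) (nat_lit 0) .nil)))))))) (.g (nat_lit 1) (.e (nat_lit 42057) (nat_lit 0) .nil) .nil))) 
(.lf (nat_lit 456621) (.g (nat_lit 359) (.e (nat_lit 2668) (nat_lit 167) (.e (nat_lit 196666) (nat_lit 13) (.e (nat_lit 65617) (nat_lit 10) .nil))) (.g (nat_lit 0) (.e (nat_lit 43021) (nat_lit 0) .nil) .nil)))))) (.nd (nat_lit 7) (.nd (nat_lit 8) (.nd (nat_lit 9) 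
(.lf (nat_lit 455789) (.g (nat_lit 3083) (.e (nat_lit 2664) (nat_lit 167) (.e (nat_lit 196672) (nat_lit 15) (.e (nat_lit 81943) (nat_lit 20) (.e (nat_lit 1842) (nat_lit 123) (.e (nat_lit 548889) (nat_lit 9) (.e (nat_lit 65540) (nat_lit 0) (.e (nat_lit 6681) (nat_lit 357) .nil))))))) (.g (nat_lit 1) (.e (nat_lit 41405) (nat_lit 0) .nil) .nil))) 
(.lf (nat_lit 456301) (.g (nat_lit 3427) (.e (nat_lit 2668) (nat_lit 167) (.e (nat_lit 196666) (nat_lit 13) (.e (nat_lit 65610) (nat_lit 10) (.e (nat_lit 344117) (nat_lit 21) (.e (nat_lit 516106) (nat_lit 0) (.e (nat_lit 7038) (nat_lit 377) (.e (nat_lit 2444) (nat_lit 157) (.e (nat_lit 5627) (nat_lit 312) .nil)))))))) (.g (nat_lit 1) (.e (nat_lit 42612) (nat_lit 0) .nil) .nil)))) (.nd (nat_lit 9) 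
(.lf (nat_lit 456045) (.g (nat_lit 2881) (.e (nat_lit 2667) (nat_lit 167) (.e (nat_lit 196668) (nat_lit 14) (.e (nat_lit 73753) (nat_lit 8) (.e (nat_lit 557103) (nat_lit 14) (.e (nat_lit 180250) (nat_lit 10) (.e (nat_lit 573475) (nat_lit 12) (.e (nat_lit 57508) (nat_lit 39) (.e (nat_lit 647176) (nat_lit 0) .nil)))))))) (.g (nat_lit 1) (.e (nat_lit 41949) (nat_lit 0) .nil) .nil))) 
(.lf (nat_lit 456557) (.g (nat_lit 2880) (.e (nat_lit 2668) (nat_lit 167) (.e (nat_lit 196666) (nat_lit 13) (.e (nat_lit 65610) (nat_lit 10) (.e (nat_lit 344117) (nat_lit 21) (.e (nat_lit 516151) (nat_lit 9) (.e (nat_lit 426142) (nat_lit 4) (.e (nat_lit 229610) (nat_lit 215) (.e (nat_lit 2422) (nat_lit 157) .nil)))))))) (.g (nat_lit 1) (.e (nat_lit 42906) (nat_lit 0) .nil) .nil))))) 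
(.nd (nat_lit 8) (.nd (nat_lit 9) 
(.lf (nat_lit 455917) (.g (nat_lit 5148) (.e (nat_lit 2666) (nat_lit 167) (.e (nat_lit 196666) (nat_lit 13) (.e (nat_lit 65610) (nat_lit 10) (.e (nat_lit 344117) (nat_lit 21) (.e (nat_lit 516151) (nat_lit 9) (.e (nat_lit 426021) (nat_lit 0) (.e (nat_lit 3367) (nat_lit 208) (.e (nat_lit 630528) (nat_lit 13) .nil)))))))) (.g (nat_lit 1) (.e (nat_lit 41682) (nat_lit 0) .nil) .nil))) 
(.lf (nat_lit 456429) (.g (nat_lit 4118) (.e (nat_lit 2668) (nat_lit 167) (.e (nat_lit 196666) (nat_lit 13) (.e (nat_lit 65610) (nat_lit 10) (.e (nat_lit 344117) (nat_lit 21) (.e (nat_lit 516151) (nat_lit 9) (.e (nat_lit 426017) (nat_lit 0) (.e (nat_lit 3372) (nat_lit 208) (.e (nat_lit 622621) (nat_lit 13) .nil)))))))) (.g (nat_lit 1) (.e (nat_lit 42778) (nat_lit 0) .nil) .nil)))) 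
(.nd (nat_lit 9) 
(.lf (nat_lit 456173) (.g (nat_lit 2197) (.e (nat_lit 2667) (nat_lit 167) (.e (nat_lit 196672) (nat_lit 15) (.e (nat_lit 81954) (nat_lit 23) (.e (nat_lit 98350) (nat_lit 24) (.e (nat_lit 417536) (nat_lit 10) (.e (nat_lit 5686) (nat_lit 312) .nil)))))) (.g (nat_lit 1) (.e (nat_lit 42241) (nat_lit 0) .nil) .nil))) 
(.lf (nat_lit 456685) (.g (nat_lit 1616) (.e (nat_lit 2668) (nat_lit 167) (.e (nat_lit 196666) (nat_lit 13) (.e (nat_lit 65617) (nat_lit 10) (.e (nat_lit 344133) (nat_lit 26) (.e (nat_lit 557071) (nat_lit 9) .nil))))) (.g (nat_lit 0) (.e (nat_lit 43138) (nat_lit 0) .nil) .nil)))))))) (.nd (nat_lit 5) (.nd (nat_lit 6) (.nd (nat_lit 7) (.nd (nat_lit 8) (.nd (nat_lit 9) 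
(.lf (nat_lit 455709) (.g (nat_lit 3900) (.e (nat_lit 2664) (nat_lit 167) (.e (nat_lit 196666) (nat_lit 13) (.e (nat_lit 65610) (nat_lit 10) (.e (nat_lit 344129) (nat_lit 26) (.e (nat_lit 557087) (nat_lit 11) (.e (nat_lit 24584) (nat_lit 0) (.e (nat_lit 6676) (nat_lit 357) .nil))))))) (.g (nat_lit 1) (.e (nat_lit 41295) (nat_lit 0) .nil) .nil))) 
(.lf (nat_lit 456221) (.g (nat_lit 4338) (.e (nat_lit 2668) (nat_lit 167) (.e (nat_lit 196666) (nat_lit 13) (.e (nat_lit 65610) (nat_lit 10) (.e (nat_lit 344117) (nat_lit 21) (.e (nat_lit 516097) (nat_lit 0) (.e (nat_lit 7583) (nat_lit 405) (.e (nat_lit 65280) (nat_lit 201) .nil))))))) (.g (nat_lit 1) (.e (nat_lit 42532) (nat_lit 0) .nil) .nil)))) (.nd (nat_lit 9) 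
(.lf (nat_lit 455965) (.g (nat_lit 3939) (.e (nat_lit 2666) (nat_lit 167) (.e (nat_lit 196666) (nat_lit 13) (.e (nat_lit 65610) (nat_lit 10) (.e (nat_lit 344117) (nat_lit 21) (.e (nat_lit 516160) (nat_lit 10) (.e (nat_lit 434208) (nat_lit 18) (.e (nat_lit 4751) (nat_lit 281) (.e (nat_lit 2536) (nat_lit 157) .nil)))))))) (.g (nat_lit 1) (.e (nat_lit 41745) (nat_lit 0) .nil) .nil))) 
(.lf (nat_lit 456477) (.g (nat_lit 4284) (.e (nat_lit 2668) (nat_lit 167) (.e (nat_lit 196666) (nat_lit 13) (.e (nat_lit 65610) (nat_lit 10) (.e (nat_lit 344117) (nat_lit 21) (.e (nat_lit 516151) (nat_lit 9) (.e (nat_lit 426037) (nat_lit 0) (.e (nat_lit 3366) (nat_lit 208) (.e (nat_lit 622620) (nat_lit 13) .nil)))))))) (.g (nat_lit 1) (.e (nat_lit 42826) (nat_lit 0) .nil) .nil))))) 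
(.nd (nat_lit 8) (.nd (nat_lit 9) 
(.lf (nat_lit 455837) (.g (nat_lit 4313) (.e (nat_lit 2664) (nat_lit 167) (.e (nat_lit 196674) (nat_lit 15) (.e (nat_lit 81956) (nat_lit 23) (.e (nat_lit 98350) (nat_lit 24) (.e (nat_lit 409616) (nat_lit 10) .nil))))) (.g (nat_lit 0) (.e (nat_lit 41461) (nat_lit 0) .nil) .nil))) 
(.lf (nat_lit 456349) (.g (nat_lit 2732) (.e (nat_lit 2668) (nat_lit 167) (.e (nat_lit 196666) (nat_lit 13) (.e (nat_lit 65610) (nat_lit 10) (.e (nat_lit 344117) (nat_lit 21) (.e (nat_lit 516139) (nat_lit 7) (.e (nat_lit 409611) (nat_lit 10) (.e (nat_lit 5612) (nat_lit 312) .nil))))))) (.g (nat_lit 1) (.e (nat_lit 42660) (nat_lit 0) .nil) .nil)))) (.nd (nat_lit 9) 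
(.lf (nat_lit 456093) (.g (nat_lit 2550) (.e (nat_lit 2667) (nat_lit 167) (.e (nat_lit 196670) (nat_lit 14) (.e (nat_lit 73753) (nat_lit 8) (.e (nat_lit 557103) (nat_lit 14) (.e (nat_lit 180250) (nat_lit 10) (.e (nat_lit 573474) (nat_lit 12) (.e (nat_lit 57508) (nat_lit 39) (.e (nat_lit 647175) (nat_lit 0) .nil)))))))) (.g (nat_lit 1) (.e (nat_lit 42041) (nat_lit 0) .nil) .nil))) 
(.lf (nat_lit 456605) (.g (nat_lit 2293) (.e (nat_lit 2668) (nat_lit 167) (.e (nat_lit 196666) (nat_lit 13) (.e (nat_lit 65610) (nat_lit 10) (.e (nat_lit 344129) (nat_lit 26) (.e (nat_lit 557086) (nat_lit 11) .nil))))) (.g (nat_lit 0) (.e (nat_lit 43004) (nat_lit 0) .nil) .nil)))))) (.nd (nat_lit 7) (.nd (nat_lit 8) (.nd (nat_lit 9) 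
(.lf (nat_lit 455773) (.g (nat_lit 2401) (.e (nat_lit 2664) (nat_lit 167) (.e (nat_lit 196672) (nat_lit 15) (.e (nat_lit 81922) (nat_lit 0) (.e (nat_lit 3305) (nat_lit 202) (.e (nat_lit 573487) (nat_lit 14) (.e (nat_lit 73782) (nat_lit 32) .nil)))))) (.g (nat_lit 1) (.e (nat_lit 41385) (nat_lit 0) .nil) .nil))) 
(.lf (nat_lit 456285) (.g (nat_lit 2819) (.e (nat_lit 2668) (nat_lit 167) (.e (nat_lit 196666) (nat_lit 13) (.e (nat_lit 65610) (nat_lit 10) (.e (nat_lit 344117) (nat_lit 21) (.e (nat_lit 516106) (nat_lit 0) (.e (nat_lit 7008) (nat_lit 377) (.e (nat_lit 2426) (nat_lit 157) (.e (nat_lit 5616) (nat_lit 312) .nil)))))))) (.g (nat_lit 1) (.e (nat_lit 42596) (nat_lit 0) .nil) .nil)))) (.nd (nat_lit 9) 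
(.lf (nat_lit 456029) (.g (nat_lit 3495) (.e (nat_lit 2667) (nat_lit 167) (.e (nat_lit 196668) (nat_lit 14) (.e (nat_lit 73753) (nat_lit 8) (.e (nat_lit 557103) (nat_lit 14) (.e (nat_lit 180250) (nat_lit 10) (.e (nat_lit 573473) (nat_lit 12) (.e (nat_lit 57508) (nat_lit 39) (.e (nat_lit 647176) (nat_lit 0) .nil)))))))) (.g (nat_lit 1) (.e (nat_lit 41933) (nat_lit 0) .nil) .nil))) 
(.lf (nat_lit 456541) (.g (nat_lit 3918) (.e (nat_lit 2668) (nat_lit 167) (.e (nat_lit 196666) (nat_lit 13) (.e (nat_lit 65610) (nat_lit 10) (.e (nat_lit 344117) (nat_lit 21) (.e (nat_lit 516151) (nat_lit 9) (.e (nat_lit 426050) (nat_lit 0) (.e (nat_lit 3366) (nat_lit 208) (.e (nat_lit 622624) (nat_lit 13) .nil)))))))) (.g (nat_lit 1) (.e (nat_lit 42890) (nat_lit 0) .nil) .nil))))) 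
(.nd (nat_lit 8) (.nd (nat_lit 9) 
(.lf (nat_lit 455901) (.g (nat_lit 3038) (.e (nat_lit 2666) (nat_lit 167) (.e (nat_lit 196666) (nat_lit 13) (.e (nat_lit 65610) (nat_lit 10) (.e (nat_lit 344117) (nat_lit 21) (.e (nat_lit 516145) (nat_lit 9) .nil))))) (.g (nat_lit 0) (.e (nat_lit 41665) (nat_lit 0) .nil) .nil))) 
(.lf (nat_lit 456413) (.g (nat_lit 2638) (.e (nat_lit 2668) (nat_lit 167) (.e (nat_lit 196666) (nat_lit 13) (.e (nat_lit 65610) (nat_lit 10) (.e (nat_lit 344117) (nat_lit 21) (.e (nat_lit 516145) (nat_lit 9) (.e (nat_lit 426085) (nat_lit 0) (.e (nat_lit 3366) (nat_lit 208) (.e (nat_lit 622620) (nat_lit 13) .nil)))))))) (.g (nat_lit 1) (.e (nat_lit 42725) (nat_lit 0) .nil) .nil)))) 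
(.nd (nat_lit 9) 
(.lf (nat_lit 456157) (.g (nat_lit 3353) (.e (nat_lit 2667) (nat_lit 167) (.e (nat_lit 196670) (nat_lit 14) (.e (nat_lit 73755) (nat_lit 8) (.e (nat_lit 557105) (nat_lit 14) (.e (nat_lit 180252) (nat_lit 10) (.e (nat_lit 573474) (nat_lit 12) (.e (nat_lit 57508) (nat_lit 39) (.e (nat_lit 647175) (nat_lit 0) .nil)))))))) (.g (nat_lit 1) (.e (nat_lit 42105) (nat_lit 0) .nil) .nil))) 
(.lf (nat_lit 456669) (.g (nat_lit 3744) (.e (nat_lit 2668) (nat_lit 167) (.e (nat_lit 196666) (nat_lit 13) (.e (nat_lit 65617) (nat_lit 10) (.e (nat_lit 344130) (nat_lit 26) (.e (nat_lit 557087) (nat_lit 11) (.e (nat_lit 24595) (nat_lit 0) (.e (nat_lit 7936) (nat_lit 357) .nil))))))) (.g (nat_lit 1) (.e (nat_lit 43107) (nat_lit 0) .nil) .nil))))))) 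
(.nd (nat_lit 6) (.nd (nat_lit 7) (.nd (nat_lit 8) (.nd (nat_lit 9) 
(.lf (nat_lit 455741) (.g (nat_lit 933) (.e (nat_lit 2664) (nat_lit 167) (.e (nat_lit 196666) (nat_lit 13) (.e (nat_lit 65617) (nat_lit 10) (.e (nat_lit 344133) (nat_lit 26) .nil)))) (.g (nat_lit 0) (.e (nat_lit 41343) (nat_lit 0) .nil) .nil))) 
(.lf (nat_lit 456253) (.g (nat_lit 3283) (.e (nat_lit 2668) (nat_lit 167) (.e (nat_lit 196666) (nat_lit 13) (.e (nat_lit 65610) (nat_lit 10) (.e (nat_lit 344117) (nat_lit 21) (.e (nat_lit 516102) (nat_lit 0) (.e (nat_lit 7099) (nat_lit 380) (.e (nat_lit 164351) (nat_lit 246) .nil))))))) (.g (nat_lit 1) (.e (nat_lit 42564) (nat_lit 0) .nil) .nil)))) (.nd (nat_lit 9) 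
(.lf (nat_lit 455997) (.g (nat_lit 3232) (.e (nat_lit 2666) (nat_lit 167) (.e (nat_lit 196666) (nat_lit 13) (.e (nat_lit 65630) (nat_lit 14) (.e (nat_lit 401425) (nat_lit 2) (.e (nat_lit 196668) (nat_lit 14) .nil))))) (.g (nat_lit 0) (.e (nat_lit 41836) (nat_lit 0) .nil) .nil))) 
(.lf (nat_lit 456509) (.g (nat_lit 2916) (.e (nat_lit 2668) (nat_lit 167) (.e (nat_lit 196666) (nat_lit 13) (.e (nat_lit 65610) (nat_lit 10) (.e (nat_lit 344117) (nat_lit 21) (.e (nat_lit 516151) (nat_lit 9) (.e (nat_lit 426042) (nat_lit 0) (.e (nat_lit 2427) (nat_lit 157) (.e (nat_lit 4751) (nat_lit 281) (.e (nat_lit 2399) (nat_lit 157) .nil))))))))) (.g (nat_lit 1) (.e (nat_lit 42858) (nat_lit 0) .nil) .nil))))) 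
(.nd (nat_lit 8) (.nd (nat_lit 9) 
(.lf (nat_lit 455869) (.g (nat_lit 447) (.e (nat_lit 2666) (nat_lit 167) (.e (nat_lit 196666) (nat_lit 13) (.e (nat_lit 65571) (nat_lit 3) .nil))) (.g (nat_lit 0) (.e (nat_lit 41563) (nat_lit 0) .nil) .nil))) 
(.lf (nat_lit 456381) (.g (nat_lit 3065) (.e (nat_lit 2668) (nat_lit 167) (.e (nat_lit 196666) (nat_lit 13) (.e (nat_lit 65610) (nat_lit 10) (.e (nat_lit 344117) (nat_lit 21) (.e (nat_lit 516141) (nat_lit 8) (.e (nat_lit 417814) (nat_lit 10) (.e (nat_lit 7936) (nat_lit 312) .nil))))))) (.g (nat_lit 1) (.e (nat_lit 42692) (nat_lit 0) .nil) .nil)))) (.nd (nat_lit 9) 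
(.lf (nat_lit 456125) (.g (nat_lit 2229) (.e (nat_lit 2667) (nat_lit 167) (.e (nat_lit 196670) (nat_lit 14) (.e (nat_lit 73754) (nat_lit 8) (.e (nat_lit 557105) (nat_lit 14) (.e (nat_lit 180251) (nat_lit 10) (.e (nat_lit 573477) (nat_lit 12) (.e (nat_lit 57509) (nat_lit 39) (.e (nat_lit 655104) (nat_lit 0) .nil)))))))) (.g (nat_lit 1) (.e (nat_lit 42073) (nat_lit 0) .nil) .nil))) 
(.lf (nat_lit 456637) (.g (nat_lit 2139) (.e (nat_lit 2668) (nat_lit 167) (.e (nat_lit 196666) (nat_lit 13) (.e (nat_lit 65617) (nat_lit 10) (.e (nat_lit 344124) (nat_lit 25) (.e (nat_lit 548890) (nat_lit 10) (.e (nat_lit 81664) (nat_lit 32) .nil)))))) (.g (nat_lit 1) (.e (nat_lit 43045) (nat_lit 0) .nil) .nil)))))) (.nd (nat_lit 7) (.nd (nat_lit 8) (.nd (nat_lit 9) 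
(.lf (nat_lit 455805) (.g (nat_lit 1640) (.e (nat_lit 2664) (nat_lit 167) (.e (nat_lit 196672) (nat_lit 15) (.e (nat_lit 81954) (nat_lit 23) (.e (nat_lit 98353) (nat_lit 25) (.e (nat_lit 417817) (nat_lit 10) .nil))))) (.g (nat_lit 0) (.e (nat_lit 41426) (nat_lit 0) .nil) .nil))) 
(.lf (nat_lit 456317) (.g (nat_lit 3117) (.e (nat_lit 2668) (nat_lit 167) (.e (nat_lit 196666) (nat_lit 13) (.e (nat_lit 65610) (nat_lit 10) (.e (nat_lit 344117) (nat_lit 21) (.e (nat_lit 516138) (nat_lit 7) (.e (nat_lit 409611) (nat_lit 10) (.e (nat_lit 5627) (nat_lit 312) .nil))))))) (.g (nat_lit 1) (.e (nat_lit 42628) (nat_lit 0) .nil) .nil)))) (.nd (nat_lit 9) 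
(.lf (nat_lit 456061) (.g (nat_lit 3103) (.e (nat_lit 2667) (nat_lit 167) (.e (nat_lit 196668) (nat_lit 14) (.e (nat_lit 73754) (nat_lit 8) (.e (nat_lit 557105) (nat_lit 14) (.e (nat_lit 180252) (nat_lit 10) (.e (nat_lit 573473) (nat_lit 12) (.e (nat_lit 57507) (nat_lit 39) (.e (nat_lit 655104) (nat_lit 0) .nil)))))))) (.g (nat_lit 1) (.e (nat_lit 41965) (nat_lit 0) .nil) .nil))) 
(.lf (nat_lit 456573) (.g (nat_lit 2955) (.e (nat_lit 2668) (nat_lit 167) (.e (nat_lit 196666) (nat_lit 13) (.e (nat_lit 65610) (nat_lit 10) (.e (nat_lit 344117) (nat_lit 21) (.e (nat_lit 516159) (nat_lit 10) (.e (nat_lit 434208) (nat_lit 18) (.e (nat_lit 4778) (nat_lit 281) (.e (nat_lit 2444) (nat_lit 157) .nil)))))))) (.g (nat_lit 1) (.e (nat_lit 42924) (nat_lit 0) .nil) .nil))))) 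
(.nd (nat_lit 8) (.nd (nat_lit 9) 
(.lf (nat_lit 455933) (.g (nat_lit 5131) (.e (nat_lit 2666) (nat_lit 167) (.e (nat_lit 196666) (nat_lit 13) (.e (nat_lit 65610) (nat_lit 10) (.e (nat_lit 344117) (nat_lit 21) (.e (nat_lit 516151) (nat_lit 9) (.e (nat_lit 426034) (nat_lit 0) (.e (nat_lit 3366) (nat_lit 208) (.e (nat_lit 622627) (nat_lit 13) .nil)))))))) (.g (nat_lit 1) (.e (nat_lit 41698) (nat_lit 0) .nil) .nil))) 
(.lf (nat_lit 456445) (.g (nat_lit 4036) (.e (nat_lit 2668) (nat_lit 167) (.e (nat_lit 196666) (nat_lit 13) (.e (nat_lit 65610) (nat_lit 10) (.e (nat_lit 344117) (nat_lit 21) (.e (nat_lit 516151) (nat_lit 9) (.e (nat_lit 426020) (nat_lit 0) (.e (nat_lit 7936) (nat_lit 208) (.e (nat_lit 622622) (nat_lit 13) .nil)))))))) (.g (nat_lit 1) (.e (nat_lit 42794) (nat_lit 0) .nil) .nil)))) 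
(.nd (nat_lit 9) 
(.lf (nat_lit 456189) (.g (nat_lit 2513) (.e (nat_lit 2668) (nat_lit 167) (.e (nat_lit 196663) (nat_lit 13) (.e (nat_lit 65630) (nat_lit 14) (.e (nat_lit 401428) (nat_lit 3) (.e (nat_lit 204863) (nat_lit 27) (.e (nat_lit 352000) (nat_lit 0) .nil)))))) (.g (nat_lit 1) (.e (nat_lit 42452) (nat_lit 0) .nil) .nil))) 
(.lf (nat_lit 456701) (.g (nat_lit 2841) (.e (nat_lit 2668) (nat_lit 167) (.e (nat_lit 196666) (nat_lit 13) (.e (nat_lit 65619) (nat_lit 10) (.e (nat_lit 344117) (nat_lit 21) (.e (nat_lit 516141) (nat_lit 8) (.e (nat_lit 417817) (nat_lit 10) (.e (nat_lit 5612) (nat_lit 312) .nil))))))) (.g (nat_lit 1) (.e (nat_lit 43164) (nat_lit 0) .nil) .nil))))))))))) 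
(.nd (nat_lit 2) (.nd (nat_lit 3) (.nd (nat_lit 4) (.nd (nat_lit 5) (.nd (nat_lit 6) 
(.nd (nat_lit 7) (.nd (nat_lit 8) (.nd (nat_lit 9) 
(.lf (nat_lit 455683) (.g (nat_lit 2692) (.e (nat_lit 2664) (nat_lit 167) (.e (nat_lit 196666) (nat_lit 13) (.e (nat_lit 65610) (nat_lit 10) (.e (nat_lit 344117) (nat_lit 21) (.e (nat_lit 516160) (nat_lit 10) (.e (nat_lit 434203) (nat_lit 18) (.e (nat_lit 4760) (nat_lit 281) (.e (nat_lit 2517) (nat_lit 157) .nil)))))))) (.g (nat_lit 1) (.e (nat_lit 41264) (nat_lit 0) .nil) .nil))) 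
(.lf (nat_lit 456195) (.g (nat_lit 2855) (.e (nat_lit 2668) (nat_lit 167) (.e (nat_lit 196666) (nat_lit 13) (.e (nat_lit 65592) (nat_lit 9) (.e (nat_lit 336020) (nat_lit 3) (.e (nat_lit 98350) (nat_lit 24) (.e (nat_lit 409616) (nat_lit 10) (.e (nat_lit 7936) (nat_lit 312) .nil))))))) (.g (nat_lit 1) (.e (nat_lit 42491) (nat_lit 0) .nil) .nil)))) (.nd (nat_lit 9) 
(.lf (nat_lit 455939) (.g (nat_lit 2696) (.e (nat_lit 2666) (nat_lit 167) (.e (nat_lit 196666) (nat_lit 13) (.e (nat_lit 65610) (nat_lit 10) (.e (nat_lit 344117) (nat_lit 21) (.e (nat_lit 516151) (nat_lit 9) (.e (nat_lit 426042) (nat_lit 0) (.e (nat_lit 2425) (nat_lit 157) (.e (nat_lit 4821) (nat_lit 281) (.e (nat_lit 2478) (nat_lit 157) .nil))))))))) (.g (nat_lit 1) (.e (nat_lit 41704) (nat_lit 0) .nil) .nil))) 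
(.lf (nat_lit 456451) (.g (nat_lit 4211) (.e (nat_lit 2668) (nat_lit 167) (.e (nat_lit 196666) (nat_lit 13) (.e (nat_lit 65610) (nat_lit 10) (.e (nat_lit 344117) (nat_lit 21) (.e (nat_lit 516151) (nat_lit 9) (.e (nat_lit 426021) (nat_lit 0) (.e (nat_lit 3372) (nat_lit 208) (.e (nat_lit 622620) (nat_lit 13) .nil)))))))) (.g (nat_lit 1) (.e (nat_lit 42800) (nat_lit 0) .nil) .nil))))) 
(.nd (nat_lit 8) (.nd (nat_lit 9) 
(.lf (nat_lit 455811) (.g (nat_lit 867) (.e (nat_lit 2664) (nat_lit 167) (.e (nat_lit 196673) (nat_lit 15) (.e (nat_lit 81938) (nat_lit 20) (.e (nat_lit 1841) (nat_lit 123) .nil)))) (.g (nat_lit 0) (.e (nat_lit 41432) (nat_lit 0) .nil) .nil))) 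
(.lf (nat_lit 456323) (.g (nat_lit 3469) (.e (nat_lit 2668) (nat_lit 167) (.e (nat_lit 196666) (nat_lit 13) (.e (nat_lit 65610) (nat_lit 10) (.e (nat_lit 344117) (nat_lit 21) (.e (nat_lit 516138) (nat_lit 7) (.e (nat_lit 409614) (nat_lit 10) (.e (nat_lit 7936) (nat_lit 312) .nil))))))) (.g (nat_lit 1) (.e (nat_lit 42634) (nat_lit 0) .nil) .nil)))) (.nd (nat_lit 9) 
(.lf (nat_lit 456067) (.g (nat_lit 2602) (.e (nat_lit 2667) (nat_lit 167) (.e (nat_lit 196668) (nat_lit 14) (.e (nat_lit 73755) (nat_lit 8) (.e (nat_lit 557105) (nat_lit 14) (.e (nat_lit 180252) (nat_lit 10) (.e (nat_lit 573474) (nat_lit 12) (.e (nat_lit 57507) (nat_lit 39) (.e (nat_lit 655104) (nat_lit 0) .nil)))))))) (.g (nat_lit 1) (.e (nat_lit 41971) (nat_lit 0) .nil) .nil))) 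
(.lf (nat_lit 456579) (.g (nat_lit 3076) (.e (nat_lit 2668) (nat_lit 167) (.e (nat_lit 196666) (nat_lit 13) (.e (nat_lit 65610) (nat_lit 10) (.e (nat_lit 344117) (nat_lit 21) (.e (nat_lit 516160) (nat_lit 10) (.e (nat_lit 434202) (nat_lit 18) (.e (nat_lit 4778) (nat_lit 281) (.e (nat_lit 2445) (nat_lit 157) .nil)))))))) (.g (nat_lit 1) (.e (nat_lit 42930) (nat_lit 0) .nil) .nil)))))) 
(.nd (nat_lit 7) (.nd (nat_lit 8) (.nd (nat_lit 9) 
(.lf (nat_lit 455747) (.g (nat_lit 478) (.e (nat_lit 2664) (nat_lit 167) (.e (nat_lit 196666) (nat_lit 13) (.e (nat_lit 65624) (nat_lit 12) .nil))) (.g (nat_lit 0) (.e (nat_lit 41350) (nat_lit 0) .nil) .nil))) 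
(.lf (nat_lit 456259) (.g (nat_lit 2310) (.e (nat_lit 2668) (nat_lit 167) (.e (nat_lit 196666) (nat_lit 13) (.e (nat_lit 65610) (nat_lit 10) (.e (nat_lit 344117) (nat_lit 21) (.e (nat_lit 516106) (nat_lit 0) (.e (nat_lit 6966) (nat_lit 377) (.e (nat_lit 2441) (nat_lit 157) (.e (nat_lit 5627) (nat_lit 312) .nil)))))))) (.g (nat_lit 1) (.e (nat_lit 42570) (nat_lit 0) .nil) .nil)))) (.nd (nat_lit 9) 
(.lf (nat_lit 456003) (.g (nat_lit 2085) (.e (nat_lit 2666) (nat_lit 167) (.e (nat_lit 196670) (nat_lit 14) (.e (nat_lit 73754) (nat_lit 8) (.e (nat_lit 557105) (nat_lit 14) (.e (nat_lit 180252) (nat_lit 10) (.e (nat_lit 573475) (nat_lit 12) (.e (nat_lit 57508) (nat_lit 39) (.e (nat_lit 655104) (nat_lit 0) .nil)))))))) (.g (nat_lit 1) (.e (nat_lit 41855) (nat_lit 0) .nil) .nil))) 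
(.lf (nat_lit 456515) (.g (nat_lit 2904) (.e (nat_lit 2668) (nat_lit 167) (.e (nat_lit 196666) (nat_lit 13) (.e (nat_lit 65610) (nat_lit 10) (.e (nat_lit 344117) (nat_lit 21) (.e (nat_lit 516151) (nat_lit 9) (.e (nat_lit 426042) (nat_lit 0) (.e (nat_lit 3366) (nat_lit 208) (.e (nat_lit 622623) (nat_lit 13) .nil)))))))) (.g (nat_lit 1) (.e (nat_lit 42864) (nat_lit 0) .nil) .nil))))) 
(.nd (nat_lit 8) (.nd (nat_lit 9) 
(.lf (nat_lit 455875) (.g (nat_lit 3121) (.e (nat_lit 2666) (nat_lit 167) (.e (nat_lit 196666) (nat_lit 13) (.e (nat_lit 65571) (nat_lit 3) (.e (nat_lit 98334) (nat_lit 18) (.e (nat_lit 164180) (nat_lit 154) .nil))))) (.g (nat_lit 0) (.e (nat_lit 41571) (nat_lit 0) .nil) .nil))) 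
(.lf (nat_lit 456387) (.g (nat_lit 3040) (.e (nat_lit 2668) (nat_lit 167) (.e (nat_lit 196666) (nat_lit 13) (.e (nat_lit 65610) (nat_lit 10) (.e (nat_lit 344117) (nat_lit 21) (.e (nat_lit 516141) (nat_lit 8) (.e (nat_lit 417819) (nat_lit 10) (.e (nat_lit 5612) (nat_lit 312) .nil))))))) (.g (nat_lit 1) (.e (nat_lit 42698) (nat_lit 0) .nil) .nil)))) (.nd (nat_lit 9) 
(.lf (nat_lit 456131) (.g (nat_lit 4707) (.e (nat_lit 2667) (nat_lit 167) (.e (nat_lit 196670) (nat_lit 14) (.e (nat_lit 73754) (nat_lit 8) (.e (nat_lit 557105) (nat_lit 14) (.e (nat_lit 180252) (nat_lit 10) (.e (nat_lit 573473) (nat_lit 12) (.e (nat_lit 57507) (nat_lit 39) (.e (nat_lit 655104) (nat_lit 0) .nil)))))))) (.g (nat_lit 1) (.e (nat_lit 42079) (nat_lit 0) .nil) .nil))) 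
(.lf (nat_lit 456643) (.g (nat_lit 2046) (.e (nat_lit 2668) (nat_lit 167) (.e (nat_lit 196666) (nat_lit 13) (.e (nat_lit 65617) (nat_lit 10) (.e (nat_lit 344127) (nat_lit 26) (.e (nat_lit 557087) (nat_lit 11) (.e (nat_lit 24579) (nat_lit 0) (.e (nat_lit 6619) (nat_lit 357) .nil))))))) (.g (nat_lit 1) (.e (nat_lit 43063) (nat_lit 0) .nil) .nil))))))) 
(.nd (nat_lit 6) (.nd (nat_lit 7) (.nd (nat_lit 8) (.nd (nat_lit 9) 
(.lf (nat_lit 455715) (.g (nat_lit 1791) (.e (nat_lit 2664) (nat_lit 167) (.e (nat_lit 196666) (nat_lit 13) (.e (nat_lit 65617) (nat_lit 10) (.e (nat_lit 344091) (nat_lit 18) (.e (nat_lit 3959) (nat_lit 239) .nil))))) (.g (nat_lit 0) (.e (nat_lit 41302) (nat_lit 0) .nil) .nil))) 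
(.lf (nat_lit 456227) (.g (nat_lit 2366) (.e (nat_lit 2668) (nat_lit 167) (.e (nat_lit 196666) (nat_lit 13) (.e (nat_lit 65610) (nat_lit 10) (.e (nat_lit 344117) (nat_lit 21) (.e (nat_lit 516098) (nat_lit 0) (.e (nat_lit 7073) (nat_lit 377) (.e (nat_lit 2416) (nat_lit 157) (.e (nat_lit 5616) (nat_lit 312) .nil)))))))) (.g (nat_lit 1) (.e (nat_lit 42538) (nat_lit 0) .nil) .nil)))) (.nd (nat_lit 9) 
(.lf (nat_lit 455971) (.g (nat_lit 1905) (.e (nat_lit 2666) (nat_lit 167) (.e (nat_lit 196666) (nat_lit 13) (.e (nat_lit 65610) (nat_lit 10) (.e (nat_lit 344129) (nat_lit 26) (.e (nat_lit 557074) (nat_lit 9) .nil))))) (.g (nat_lit 0) (.e (nat_lit 41773) (nat_lit 0) .nil) .nil))) 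
(.lf (nat_lit 456483) (.g (nat_lit 3889) (.e (nat_lit 2668) (nat_lit 167) (.e (nat_lit 196666) (nat_lit 13) (.e (nat_lit 65610) (nat_lit 10) (.e (nat_lit 344117) (nat_lit 21) (.e (nat_lit 516151) (nat_lit 9) (.e (nat_lit 426038) (nat_lit 0) (.e (nat_lit 2422) (nat_lit 157) (.e (nat_lit 4778) (nat_lit 281) (.e (nat_lit 2444) (nat_lit 157) .nil))))))))) (.g (nat_lit 1) (.e (nat_lit 42832) (nat_lit 0) .nil) .nil))))) 
(.nd (nat_lit 8) (.nd (nat_lit 9) 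
(.lf (nat_lit 455843) (.g (nat_lit 2045) (.e (nat_lit 2665) (nat_lit 167) (.e (nat_lit 196666) (nat_lit 13) (.e (nat_lit 65610) (nat_lit 10) (.e (nat_lit 344117) (nat_lit 21) (.e (nat_lit 516159) (nat_lit 10) (.e (nat_lit 434263) (nat_lit 34) (.e (nat_lit 622625) (nat_lit 13) .nil))))))) (.g (nat_lit 1) (.e (nat_lit 41504) (nat_lit 0) .nil) .nil))) 
(.lf (nat_lit 456355) (.g (nat_lit 4038) (.e (nat_lit 2668) (nat_lit 167) (.e (nat_lit 196666) (nat_lit 13) (.e (nat_lit 65610) (nat_lit 10) (.e (nat_lit 344117) (nat_lit 21) (.e (nat_lit 516139) (nat_lit 7) (.e (nat_lit 409612) (nat_lit 10) (.e (nat_lit 5627) (nat_lit 312) .nil))))))) (.g (nat_lit 1) (.e (nat_lit 42666) (nat_lit 0) .nil) .nil)))) (.nd (nat_lit 9) 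
(.lf (nat_lit 456099) (.g (nat_lit 2843) (.e (nat_lit 2667) (nat_lit 167) (.e (nat_lit 196670) (nat_lit 14) (.e (nat_lit 73753) (nat_lit 8) (.e (nat_lit 557103) (nat_lit 14) (.e (nat_lit 180250) (nat_lit 10) (.e (nat_lit 573477) (nat_lit 12) (.e (nat_lit 57511) (nat_lit 39) (.e (nat_lit 655104) (nat_lit 0) .nil)))))))) (.g (nat_lit 1) (.e (nat_lit 42047) (nat_lit 0) .nil) .nil))) 
(.lf (nat_lit 456611) (.g (nat_lit 4247) (.e (nat_lit 2668) (nat_lit 167) (.e (nat_lit 196666) (nat_lit 13) (.e (nat_lit 65610) (nat_lit 10) (.e (nat_lit 344129) (nat_lit 26) (.e (nat_lit 557087) (nat_lit 11) (.e (nat_lit 24579) (nat_lit 0) (.e (nat_lit 6619) (nat_lit 357) .nil))))))) (.g (nat_lit 1) (.e (nat_lit 43010) (nat_lit 0) .nil) .nil)))))) 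
(.nd (nat_lit 7) (.nd (nat_lit 8) (.nd (nat_lit 9) 
(.lf (nat_lit 455779) (.g (nat_lit 346) (.e (nat_lit 2664) (nat_lit 167) (.e (nat_lit 196672) (nat_lit 15) (.e (nat_lit 81943) (nat_lit 20) .nil))) (.g (nat_lit 0) (.e (nat_lit 41395) (nat_lit 0) .nil) .nil))) 
(.lf (nat_lit 456291) (.g (nat_lit 2708) (.e (nat_lit 2668) (nat_lit 167) (.e (nat_lit 196666) (nat_lit 13) (.e (nat_lit 65610) (nat_lit 10) (.e (nat_lit 344117) (nat_lit 21) (.e (nat_lit 516106) (nat_lit 0) (.e (nat_lit 7008) (nat_lit 377) (.e (nat_lit 2438) (nat_lit 157) (.e (nat_lit 7936) (nat_lit 312) .nil)))))))) (.g (nat_lit 1) (.e (nat_lit 42602) (nat_lit 0) .nil) .nil)))) (.nd (nat_lit 9) 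
(.lf (nat_lit 456035) (.g (nat_lit 2914) (.e (nat_lit 2667) (nat_lit 167) (.e (nat_lit 196668) (nat_lit 14) (.e (nat_lit 73753) (nat_lit 8) (.e (nat_lit 557103) (nat_lit 14) (.e (nat_lit 180250) (nat_lit 10) (.e (nat_lit 573474) (nat_lit 12) (.e (nat_lit 57507) (nat_lit 39) (.e (nat_lit 647175) (nat_lit 0) .nil)))))))) (.g (nat_lit 1) (.e (nat_lit 41939) (nat_lit 0) .nil) .nil))) 
(.lf (nat_lit 456547) (.g (nat_lit 3968) (.e (nat_lit 2668) (nat_lit 167) (.e (nat_lit 196666) (nat_lit 13) (.e (nat_lit 65610) (nat_lit 10) (.e (nat_lit 344117) (nat_lit 21) (.e (nat_lit 516151) (nat_lit 9) (.e (nat_lit 426047) (nat_lit 0) (.e (nat_lit 3369) (nat_lit 208) (.e (nat_lit 622621) (nat_lit 13) .nil)))))))) (.g (nat_lit 1) (.e (nat_lit 42896) (nat_lit 0) .nil) .nil))))) 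
(.nd (nat_lit 8) (.nd (nat_lit 9) 
(.lf (nat_lit 455907) (.g (nat_lit 5273) (.e (nat_lit 2666) (nat_lit 167) (.e (nat_lit 196666) (nat_lit 13) (.e (nat_lit 65610) (nat_lit 10) (.e (nat_lit 344117) (nat_lit 21) (.e (nat_lit 516151) (nat_lit 9) (.e (nat_lit 426017) (nat_lit 0) (.e (nat_lit 3372) (nat_lit 208) (.e (nat_lit 630528) (nat_lit 13) .nil)))))))) (.g (nat_lit 1) (.e (nat_lit 41672) (nat_lit 0) .nil) .nil))) 
(.lf (nat_lit 456419) (.g (nat_lit 2693) (.e (nat_lit 2668) (nat_lit 167) (.e (nat_lit 196666) (nat_lit 13) (.e (nat_lit 65610) (nat_lit 10) (.e (nat_lit 344117) (nat_lit 21) (.e (nat_lit 516151) (nat_lit 9) (.e (nat_lit 426003) (nat_lit 0) (.e (nat_lit 3367) (nat_lit 208) (.e (nat_lit 622624) (nat_lit 13) .nil)))))))) (.g (nat_lit 1) (.e (nat_lit 42768) (nat_lit 0) .nil) .nil)))) 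
(.nd (nat_lit 9) 
(.lf (nat_lit 456163) (.g (nat_lit 2388) (.e (nat_lit 2667) (nat_lit 167) (.e (nat_lit 196672) (nat_lit 15) (.e (nat_lit 81954) (nat_lit 23) (.e (nat_lit 98349) (nat_lit 24) (.e (nat_lit 409617) (nat_lit 10) .nil))))) (.g (nat_lit 0) (.e (nat_lit 42231) (nat_lit 0) .nil) .nil))) 
(.lf (nat_lit 456675) (.g (nat_lit 2039) (.e (nat_lit 2668) (nat_lit 167) (.e (nat_lit 196666) (nat_lit 13) (.e (nat_lit 65617) (nat_lit 10) (.e (nat_lit 344132) (nat_lit 26) (.e (nat_lit 557073) (nat_lit 9) .nil))))) (.g (nat_lit 0) (.e (nat_lit 43114) (nat_lit 0) .nil) .nil)))))))) (.nd (nat_lit 5) (.nd (nat_lit 6) (.nd (nat_lit 7) (.nd (nat_lit 8) (.nd (nat_lit 9) 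
(.lf (nat_lit 455699) (.g (nat_lit 2591) (.e (nat_lit 2664) (nat_lit 167) (.e (nat_lit 196666) (nat_lit 13) (.e (nat_lit 65610) (nat_lit 10) (.e (nat_lit 344126) (nat_lit 25) (.e (nat_lit 548889) (nat_lit 9) (.e (nat_lit 65537) (nat_lit 0) (.e (nat_lit 6677) (nat_lit 357) .nil))))))) (.g (nat_lit 1) (.e (nat_lit 41284) (nat_lit 0) .nil) .nil))) 
(.lf (nat_lit 456211) (.g (nat_lit 3001) (.e (nat_lit 2668) (nat_lit 167) (.e (nat_lit 196666) (nat_lit 13) (.e (nat_lit 65610) (nat_lit 10) (.e (nat_lit 344117) (nat_lit 21) (.e (nat_lit 516097) (nat_lit 0) .nil))))) (.g (nat_lit 0) (.e (nat_lit 42522) (nat_lit 0) .nil) .nil)))) (.nd (nat_lit 9) 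
(.lf (nat_lit 455955) (.g (nat_lit 3353) (.e (nat_lit 2666) (nat_lit 167) (.e (nat_lit 196666) (nat_lit 13) (.e (nat_lit 65610) (nat_lit 10) (.e (nat_lit 344117) (nat_lit 21) (.e (nat_lit 516151) (nat_lit 9) (.e (nat_lit 426104) (nat_lit 1) (.e (nat_lit 164254) (nat_lit 215) (.e (nat_lit 2416) (nat_lit 157) .nil)))))))) (.g (nat_lit 1) (.e (nat_lit 41720) (nat_lit 0) .nil) .nil))) 
(.lf (nat_lit 456467) (.g (nat_lit 2321) (.e (nat_lit 2668) (nat_lit 167) (.e (nat_lit 196666) (nat_lit 13) (.e (nat_lit 65610) (nat_lit 10) (.e (nat_lit 344117) (nat_lit 21) (.e (nat_lit 516151) (nat_lit 9) (.e (nat_lit 426026) (nat_lit 0) (.e (nat_lit 3368) (nat_lit 208) (.e (nat_lit 622623) (nat_lit 13) .nil)))))))) (.g (nat_lit 1) (.e (nat_lit 42816) (nat_lit 0) .nil) .nil))))) 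
(.nd (nat_lit 8) (.nd (nat_lit 9) 
(.lf (nat_lit 455827) (.g (nat_lit 2729) (.e (nat_lit 2664) (nat_lit 167) (.e (nat_lit 196674) (nat_lit 15) (.e (nat_lit 81946) (nat_lit 20) (.e (nat_lit 1842) (nat_lit 123) (.e (nat_lit 548889) (nat_lit 9) (.e (nat_lit 65543) (nat_lit 0) (.e (nat_lit 6676) (nat_lit 357) .nil))))))) (.g (nat_lit 1) (.e (nat_lit 41450) (nat_lit 0) .nil) .nil))) 
(.lf (nat_lit 456339) (.g (nat_lit 3316) (.e (nat_lit 2668) (nat_lit 167) (.e (nat_lit 196666) (nat_lit 13) (.e (nat_lit 65610) (nat_lit 10) (.e (nat_lit 344117) (nat_lit 21) (.e (nat_lit 516139) (nat_lit 7) (.e (nat_lit 409608) (nat_lit 10) (.e (nat_lit 5612) (nat_lit 312) .nil))))))) (.g (nat_lit 1) (.e (nat_lit 42650) (nat_lit 0) .nil) .nil)))) (.nd (nat_lit 9) 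
(.lf (nat_lit 456083) (.g (nat_lit 2565) (.e (nat_lit 2667) (nat_lit 167) (.e (nat_lit 196670) (nat_lit 14) (.e (nat_lit 73746) (nat_lit 3) (.e (nat_lit 516129) (nat_lit 3) (.e (nat_lit 221210) (nat_lit 22) (.e (nat_lit 196658) (nat_lit 12) (.e (nat_lit 57511) (nat_lit 39) (.e (nat_lit 655104) (nat_lit 0) .nil)))))))) (.g (nat_lit 1) (.e (nat_lit 42030) (nat_lit 0) .nil) .nil))) 
(.lf (nat_lit 456595) (.g (nat_lit 4900) (.e (nat_lit 2668) (nat_lit 167) (.e (nat_lit 196666) (nat_lit 13) (.e (nat_lit 65610) (nat_lit 10) (.e (nat_lit 344117) (nat_lit 21) (.e (nat_lit 516185) (nat_lit 16) (.e (nat_lit 491520) (nat_lit 0) (.e (nat_lit 6619) (nat_lit 357) .nil))))))) (.g (nat_lit 1) (.e (nat_lit 42965) (nat_lit 0) .nil) .nil)))))) 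
(.nd (nat_lit 7) (.nd (nat_lit 8) (.nd (nat_lit 9) 
(.lf (nat_lit 455763) (.g (nat_lit 3785) (.e (nat_lit 2664) (nat_lit 167) (.e (nat_lit 196666) (nat_lit 13) (.e (nat_lit 65630) (nat_lit 14) (.e (nat_lit 401425) (nat_lit 2) (.e (nat_lit 196681) (nat_lit 17) (.e (nat_lit 131076) (nat_lit 0) (.e (nat_lit 6684) (nat_lit 357) .nil))))))) (.g (nat_lit 1) (.e (nat_lit 41372) (nat_lit 0) .nil) .nil))) 
(.lf (nat_lit 456275) (.g (nat_lit 2810) (.e (nat_lit 2668) (nat_lit 167) (.e (nat_lit 196666) (nat_lit 13) (.e (nat_lit 65610) (nat_lit 10) (.e (nat_lit 344117) (nat_lit 21) (.e (nat_lit 516106) (nat_lit 0) (.e (nat_lit 6986) (nat_lit 377) (.e (nat_lit 2527) (nat_lit 157) (.e (nat_lit 7936) (nat_lit 312) .nil)))))))) (.g (nat_lit 1) (.e (nat_lit 42586) (nat_lit 0) .nil) .nil)))) (.nd (nat_lit 9) 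
(.lf (nat_lit 456019) (.g (nat_lit 2524) (.e (nat_lit 2667) (nat_lit 167) (.e (nat_lit 196666) (nat_lit 13) (.e (nat_lit 65610) (nat_lit 10) (.e (nat_lit 344117) (nat_lit 21) .nil)))) (.g (nat_lit 0) (.e (nat_lit 41896) (nat_lit 0) .nil) .nil))) 
(.lf (nat_lit 456531) (.g (nat_lit 3249) (.e (nat_lit 2668) (nat_lit 167) (.e (nat_lit 196666) (nat_lit 13) (.e (nat_lit 65610) (nat_lit 10) (.e (nat_lit 344117) (nat_lit 21) (.e (nat_lit 516151) (nat_lit 9) (.e (nat_lit 426043) (nat_lit 0) (.e (nat_lit 3371) (nat_lit 208) (.e (nat_lit 622620) (nat_lit 13) .nil)))))))) (.g (nat_lit 1) (.e (nat_lit 42880) (nat_lit 0) .nil) .nil))))) 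
(.nd (nat_lit 8) (.nd (nat_lit 9) 
(.lf (nat_lit 455891) (.g (nat_lit 4628) (.e (nat_lit 2666) (nat_lit 167) (.e (nat_lit 196666) (nat_lit 13) (.e (nat_lit 65610) (nat_lit 10) (.e (nat_lit 344117) (nat_lit 21) (.e (nat_lit 516138) (nat_lit 7) (.e (nat_lit 409616) (nat_lit 10) (.e (nat_lit 7936) (nat_lit 312) .nil))))))) (.g (nat_lit 1) (.e (nat_lit 41654) (nat_lit 0) .nil) .nil))) 
(.lf (nat_lit 456403) (.g (nat_lit 4113) (.e (nat_lit 2668) (nat_lit 167) (.e (nat_lit 196666) (nat_lit 13) (.e (nat_lit 65610) (nat_lit 10) (.e (nat_lit 344117) (nat_lit 21) (.e (nat_lit 516142) (nat_lit 8) (.e (nat_lit 417817) (nat_lit 10) (.e (nat_lit 7936) (nat_lit 312) .nil))))))) (.g (nat_lit 1) (.e (nat_lit 42714) (nat_lit 0) .nil) .nil)))) (.nd (nat_lit 9) 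
(.lf (nat_lit 456147) (.g (nat_lit 4612) (.e (nat_lit 2667) (nat_lit 167) (.e (nat_lit 196670) (nat_lit 14) (.e (nat_lit 73754) (nat_lit 8) (.e (nat_lit 557105) (nat_lit 14) (.e (nat_lit 180252) (nat_lit 10) (.e (nat_lit 573475) (nat_lit 12) (.e (nat_lit 57507) (nat_lit 39) (.e (nat_lit 655104) (nat_lit 0) .nil)))))))) (.g (nat_lit 1) (.e (nat_lit 42095) (nat_lit 0) .nil) .nil))) 
(.lf (nat_lit 456659) (.g (nat_lit 3449) (.e (nat_lit 2668) (nat_lit 167) (.e (nat_lit 196666) (nat_lit 13) (.e (nat_lit 65617) (nat_lit 10) (.e (nat_lit 344130) (nat_lit 26) (.e (nat_lit 557087) (nat_lit 11) (.e (nat_lit 24580) (nat_lit 0) (.e (nat_lit 6617) (nat_lit 357) .nil))))))) (.g (nat_lit 1) (.e (nat_lit 43097) (nat_lit 0) .nil) .nil))))))) 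
(.nd (nat_lit 6) (.nd (nat_lit 7) (.nd (nat_lit 8) (.nd (nat_lit 9) 
(.lf (nat_lit 455731) (.g (nat_lit 2659) (.e (nat_lit 2664) (nat_lit 167) (.e (nat_lit 196666) (nat_lit 13) (.e (nat_lit 65617) (nat_lit 10) (.e (nat_lit 344130) (nat_lit 26) (.e (nat_lit 557087) (nat_lit 11) (.e (nat_lit 24576) (nat_lit 0) (.e (nat_lit 6684) (nat_lit 357) .nil))))))) (.g (nat_lit 1) (.e (nat_lit 41333) (nat_lit 0) .nil) .nil))) 
(.lf (nat_lit 456243) (.g (nat_lit 2710) (.e (nat_lit 2668) (nat_lit 167) (.e (nat_lit 196666) (nat_lit 13) (.e (nat_lit 65610) (nat_lit 10) (.e (nat_lit 344117) (nat_lit 21) (.e (nat_lit 516099) (nat_lit 0) .nil))))) (.g (nat_lit 0) (.e (nat_lit 42554) (nat_lit 0) .nil) .nil)))) (.nd (nat_lit 9) 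
(.lf (nat_lit 455987) (.g (nat_lit 2660) (.e (nat_lit 2666) (nat_lit 167) (.e (nat_lit 196666) (nat_lit 13) (.e (nat_lit 65617) (nat_lit 10) (.e (nat_lit 344130) (nat_lit 26) .nil)))) (.g (nat_lit 0) (.e (nat_lit 41800) (nat_lit 0) .nil) .nil))) 
(.lf (nat_lit 456499) (.g (nat_lit 4206) (.e (nat_lit 2668) (nat_lit 167) (.e (nat_lit 196666) (nat_lit 13) (.e (nat_lit 65610) (nat_lit 10) (.e (nat_lit 344117) (nat_lit 21) (.e (nat_lit 516151) (nat_lit 9) (.e (nat_lit 426040) (nat_lit 0) (.e (nat_lit 2426) (nat_lit 157) (.e (nat_lit 4778) (nat_lit 281) (.e (nat_lit 2445) (nat_lit 157) .nil))))))))) (.g (nat_lit 1) (.e (nat_lit 42848) (nat_lit 0) .nil) .nil))))) 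
(.nd (nat_lit 8) (.nd (nat_lit 9) 
(.lf (nat_lit 455859) (.g (nat_lit 3490) (.e (nat_lit 2666) (nat_lit 167) (.e (nat_lit 196666) (nat_lit 13) (.e (nat_lit 65569) (nat_lit 3) (.e (nat_lit 98333) (nat_lit 18) (.e (nat_lit 164177) (nat_lit 154) .nil))))) (.g (nat_lit 0) (.e (nat_lit 41539) (nat_lit 0) .nil) .nil))) 
(.lf (nat_lit 456371) (.g (nat_lit 4033) (.e (nat_lit 2668) (nat_lit 167) (.e (nat_lit 196666) (nat_lit 13) (.e (nat_lit 65610) (nat_lit 10) (.e (nat_lit 344117) (nat_lit 21) (.e (nat_lit 516139) (nat_lit 7) (.e (nat_lit 409618) (nat_lit 10) (.e (nat_lit 7936) (nat_lit 312) .nil))))))) (.g (nat_lit 1) (.e (nat_lit 42682) (nat_lit 0) .nil) .nil)))) (.nd (nat_lit 9) 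
(.lf (nat_lit 456115) (.g (nat_lit 4098) (.e (nat_lit 2667) (nat_lit 167) (.e (nat_lit 196670) (nat_lit 14) (.e (nat_lit 73753) (nat_lit 8) (.e (nat_lit 557105) (nat_lit 14) (.e (nat_lit 180252) (nat_lit 10) (.e (nat_lit 573474) (nat_lit 12) (.e (nat_lit 57507) (nat_lit 39) (.e (nat_lit 647176) (nat_lit 0) .nil)))))))) (.g (nat_lit 1) (.e (nat_lit 42063) (nat_lit 0) .nil) .nil))) 
(.lf (nat_lit 456627) (.g (nat_lit 4069) (.e (nat_lit 2668) (nat_lit 167) (.e (nat_lit 196666) (nat_lit 13) (.e (nat_lit 65617) (nat_lit 10) (.e (nat_lit 344117) (nat_lit 21) (.e (nat_lit 516139) (nat_lit 7) (.e (nat_lit 409616) (nat_lit 10) (.e (nat_lit 5616) (nat_lit 312) .nil))))))) (.g (nat_lit 1) (.e (nat_lit 43035) (nat_lit 0) .nil) .nil)))))) 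
(.nd (nat_lit 7) (.nd (nat_lit 8) (.nd (nat_lit 9) 
(.lf (nat_lit 455795) (.g (nat_lit 1207) (.e (nat_lit 2664) (nat_lit 167) (.e (nat_lit 196672) (nat_lit 15) (.e (nat_lit 81954) (nat_lit 23) (.e (nat_lit 98323) (nat_lit 17) .nil)))) (.g (nat_lit 0) (.e (nat_lit 41416) (nat_lit 0) .nil) .nil))) 
(.lf (nat_lit 456307) (.g (nat_lit 3809) (.e (nat_lit 2668) (nat_lit 167) (.e (nat_lit 196666) (nat_lit 13) (.e (nat_lit 65610) (nat_lit 10) (.e (nat_lit 344117) (nat_lit 21) (.e (nat_lit 516106) (nat_lit 0) (.e (nat_lit 7936) (nat_lit 381) (.e (nat_lit 229683) (nat_lit 246) .nil))))))) (.g (nat_lit 1) (.e (nat_lit 42618) (nat_lit 0) .nil) .nil)))) (.nd (nat_lit 9) 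
(.lf (nat_lit 456051) (.g (nat_lit 4590) (.e (nat_lit 2667) (nat_lit 167) (.e (nat_lit 196668) (nat_lit 14) (.e (nat_lit 73753) (nat_lit 8) (.e (nat_lit 557103) (nat_lit 14) (.e (nat_lit 180250) (nat_lit 10) (.e (nat_lit 573478) (nat_lit 12) (.e (nat_lit 57509) (nat_lit 39) (.e (nat_lit 655104) (nat_lit 0) .nil)))))))) (.g (nat_lit 1) (.e (nat_lit 41955) (nat_lit 0) .nil) .nil))) 
(.lf (nat_lit 456563) (.g (nat_lit 2779) (.e (nat_lit 2668) (nat_lit 167) (.e (nat_lit 196666) (nat_lit 13) (.e (nat_lit 65610) (nat_lit 10) (.e (nat_lit 344117) (nat_lit 21) (.e (nat_lit 516151) (nat_lit 9) (.e (nat_lit 426412) (nat_lit 15) (.e (nat_lit 1010) (nat_lit 81) (.e (nat_lit 6017) (nat_lit 326) (.e (nat_lit 2443) (nat_lit 157) .nil))))))))) (.g (nat_lit 1) (.e (nat_lit 42912) (nat_lit 0) .nil) .nil))))) 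
(.nd (nat_lit 8) (.nd (nat_lit 9) 
(.lf (nat_lit 455923) (.g (nat_lit 3659) (.e (nat_lit 2666) (nat_lit 167) (.e (nat_lit 196666) (nat_lit 13) (.e (nat_lit 65610) (nat_lit 10) (.e (nat_lit 344117) (nat_lit 21) (.e (nat_lit 516151) (nat_lit 9) (.e (nat_lit 426022) (nat_lit 0) (.e (nat_lit 2403) (nat_lit 157) (.e (nat_lit 4761) (nat_lit 281) (.e (nat_lit 2463) (nat_lit 157) .nil))))))))) (.g (nat_lit 1) (.e (nat_lit 41688) (nat_lit 0) .nil) .nil))) 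
(.lf (nat_lit 456435) (.g (nat_lit 4033) (.e (nat_lit 2668) (nat_lit 167) (.e (nat_lit 196666) (nat_lit 13) (.e (nat_lit 65610) (nat_lit 10) (.e (nat_lit 344117) (nat_lit 21) (.e (nat_lit 516151) (nat_lit 9) (.e (nat_lit 426019) (nat_lit 0) (.e (nat_lit 3372) (nat_lit 208) (.e (nat_lit 622623) (nat_lit 13) .nil)))))))) (.g (nat_lit 1) (.e (nat_lit 42784) (nat_lit 0) .nil) .nil)))) 
(.nd (nat_lit 9) 
(.lf (nat_lit 456179) (.g (nat_lit 2862) (.e (nat_lit 2668) (nat_lit 167) (.e (nat_lit 196656) (nat_lit 11) (.e (nat_lit 16436) (nat_lit 9) (.e (nat_lit 426131) (nat_lit 3) (.e (nat_lit 204880) (nat_lit 32) (.e (nat_lit 385090) (nat_lit 49) (.e (nat_lit 778370) (nat_lit 9) .nil))))))) (.g (nat_lit 1) (.e (nat_lit 42434) (nat_lit 0) .nil) .nil))) 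
(.lf (nat_lit 456691) (.g (nat_lit 3114) (.e (nat_lit 2668) (nat_lit 167) (.e (nat_lit 196666) (nat_lit 13) (.e (nat_lit 65617) (nat_lit 10) (.e (nat_lit 344133) (nat_lit 26) (.e (nat_lit 557087) (nat_lit 11) (.e (nat_lit 24579) (nat_lit 0) (.e (nat_lit 6619) (nat_lit 357) .nil))))))) (.g (nat_lit 1) (.e (nat_lit 43154) (nat_lit 0) .nil) .nil))))))))) 
(.nd (nat_lit 4) (.nd (nat_lit 5) (.nd (nat_lit 6) (.nd (nat_lit 7) (.nd (nat_lit 8) 
(.nd (nat_lit 9) 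
(.lf (nat_lit 455691) (.g (nat_lit 4700) (.e (nat_lit 2664) (nat_lit 167) (.e (nat_lit 196666) (nat_lit 13) (.e (nat_lit 65610) (nat_lit 10) (.e (nat_lit 344117) (nat_lit 21) (.e (nat_lit 516185) (nat_lit 16) (.e (nat_lit 491521) (nat_lit 0) (.e (nat_lit 6684) (nat_lit 357) .nil))))))) (.g (nat_lit 1) (.e (nat_lit 41273) (nat_lit 0) .nil) .nil))) 
(.lf (nat_lit 456203) (.g (nat_lit 928) (.e (nat_lit 2668) (nat_lit 167) (.e (nat_lit 196666) (nat_lit 13) (.e (nat_lit 65610) (nat_lit 10) (.e (nat_lit 344117) (nat_lit 21) .nil)))) (.g (nat_lit 0) (.e (nat_lit 42514) (nat_lit 0) .nil) .nil)))) (.nd (nat_lit 9) 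
(.lf (nat_lit 455947) (.g (nat_lit 2761) (.e (nat_lit 2666) (nat_lit 167) (.e (nat_lit 196666) (nat_lit 13) (.e (nat_lit 65610) (nat_lit 10) (.e (nat_lit 344117) (nat_lit 21) (.e (nat_lit 516151) (nat_lit 9) (.e (nat_lit 426043) (nat_lit 0) (.e (nat_lit 3369) (nat_lit 208) (.e (nat_lit 630528) (nat_lit 13) .nil)))))))) (.g (nat_lit 1) (.e (nat_lit 41712) (nat_lit 0) .nil) .nil))) 
(.lf (nat_lit 456459) (.g (nat_lit 2648) (.e (nat_lit 2668) (nat_lit 167) (.e (nat_lit 196666) (nat_lit 13) (.e (nat_lit 65610) (nat_lit 10) (.e (nat_lit 344117) (nat_lit 21) (.e (nat_lit 516151) (nat_lit 9) (.e (nat_lit 426022) (nat_lit 0) (.e (nat_lit 3363) (nat_lit 208) (.e (nat_lit 622624) (nat_lit 13) .nil)))))))) (.g (nat_lit 1) (.e (nat_lit 42808) (nat_lit 0) .nil) .nil))))) 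
(.nd (nat_lit 8) (.nd (nat_lit 9) 
(.lf (nat_lit 455819) (.g (nat_lit 3014) (.e (nat_lit 2664) (nat_lit 167) (.e (nat_lit 196673) (nat_lit 15) (.e (nat_lit 81956) (nat_lit 23) (.e (nat_lit 98389) (nat_lit 33) (.e (nat_lit 491526) (nat_lit 0) .nil))))) (.g (nat_lit 0) (.e (nat_lit 41440) (nat_lit 0) .nil) .nil))) 
(.lf (nat_lit 456331) (.g (nat_lit 4053) (.e (nat_lit 2668) (nat_lit 167) (.e (nat_lit 196666) (nat_lit 13) (.e (nat_lit 65610) (nat_lit 10) (.e (nat_lit 344117) (nat_lit 21) (.e (nat_lit 516138) (nat_lit 7) (.e (nat_lit 409616) (nat_lit 10) (.e (nat_lit 7936) (nat_lit 312) .nil))))))) (.g (nat_lit 1) (.e (nat_lit 42642) (nat_lit 0) .nil) .nil)))) (.nd (nat_lit 9) 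
(.lf (nat_lit 456075) (.g (nat_lit 2654) (.e (nat_lit 2667) (nat_lit 167) (.e (nat_lit 196669) (nat_lit 14) (.e (nat_lit 73755) (nat_lit 8) (.e (nat_lit 557105) (nat_lit 14) (.e (nat_lit 180252) (nat_lit 10) (.e (nat_lit 573474) (nat_lit 12) (.e (nat_lit 57508) (nat_lit 39) (.e (nat_lit 647176) (nat_lit 0) .nil)))))))) (.g (nat_lit 1) (.e (nat_lit 42022) (nat_lit 0) .nil) .nil))) 
(.lf (nat_lit 456587) (.g (nat_lit 4279) (.e (nat_lit 2668) (nat_lit 167) (.e (nat_lit 196666) (nat_lit 13) (.e (nat_lit 65610) (nat_lit 10) (.e (nat_lit 344117) (nat_lit 21) (.e (nat_lit 516160) (nat_lit 10) (.e (nat_lit 434208) (nat_lit 18) (.e (nat_lit 4778) (nat_lit 281) (.e (nat_lit 2444) (nat_lit 157) .nil)))))))) (.g (nat_lit 1) (.e (nat_lit 42938) (nat_lit 0) .nil) .nil)))))) 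
(.nd (nat_lit 7) (.nd (nat_lit 8) (.nd (nat_lit 9) 
(.lf (nat_lit 455755) (.g (nat_lit 2926) (.e (nat_lit 2664) (nat_lit 167) (.e (nat_lit 196666) (nat_lit 13) (.e (nat_lit 65628) (nat_lit 14) (.e (nat_lit 401428) (nat_lit 3) (.e (nat_lit 204863) (nat_lit 27) (.e (nat_lit 344065) (nat_lit 0) .nil)))))) (.g (nat_lit 1) (.e (nat_lit 41363) (nat_lit 0) .nil) .nil))) 
(.lf (nat_lit 456267) (.g (nat_lit 4260) (.e (nat_lit 2668) (nat_lit 167) (.e (nat_lit 196666) (nat_lit 13) (.e (nat_lit 65610) (nat_lit 10) (.e (nat_lit 344117) (nat_lit 21) (.e (nat_lit 516106) (nat_lit 0) (.e (nat_lit 6986) (nat_lit 377) (.e (nat_lit 2402) (nat_lit 157) (.e (nat_lit 7936) (nat_lit 312) .nil)))))))) (.g (nat_lit 1) (.e (nat_lit 42578) (nat_lit 0) .nil) .nil)))) (.nd (nat_lit 9) 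
(.lf (nat_lit 456011) (.g (nat_lit 1749) (.e (nat_lit 2667) (nat_lit 167) (.e (nat_lit 196656) (nat_lit 11) (.e (nat_lit 16436) (nat_lit 9) (.e (nat_lit 426131) (nat_lit 3) (.e (nat_lit 204880) (nat_lit 32) .nil))))) (.g (nat_lit 0) (.e (nat_lit 41874) (nat_lit 0) .nil) .nil))) 
(.lf (nat_lit 456523) (.g (nat_lit 3608) (.e (nat_lit 2668) (nat_lit 167) (.e (nat_lit 196666) (nat_lit 13) (.e (nat_lit 65610) (nat_lit 10) (.e (nat_lit 344117) (nat_lit 21) (.e (nat_lit 516151) (nat_lit 9) (.e (nat_lit 426042) (nat_lit 0) (.e (nat_lit 3371) (nat_lit 208) (.e (nat_lit 622622) (nat_lit 13) .nil)))))))) (.g (nat_lit 1) (.e (nat_lit 42872) (nat_lit 0) .nil) .nil))))) 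
(.nd (nat_lit 8) (.nd (nat_lit 9) 
(.lf (nat_lit 455883) (.g (nat_lit 2020) (.e (nat_lit 2666) (nat_lit 167) (.e (nat_lit 196666) (nat_lit 13) (.e (nat_lit 65610) (nat_lit 10) (.e (nat_lit 344117) (nat_lit 21) .nil)))) (.g (nat_lit 0) (.e (nat_lit 41644) (nat_lit 0) .nil) .nil))) 
(.lf (nat_lit 456395) (.g (nat_lit 3601) (.e (nat_lit 2668) (nat_lit 167) (.e (nat_lit 196666) (nat_lit 13) (.e (nat_lit 65610) (nat_lit 10) (.e (nat_lit 344117) (nat_lit 21) (.e (nat_lit 516142) (nat_lit 8) (.e (nat_lit 417814) (nat_lit 10) (.e (nat_lit 7936) (nat_lit 312) .nil))))))) (.g (nat_lit 1) (.e (nat_lit 42706) (nat_lit 0) .nil) .nil)))) (.nd (nat_lit 9) 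
(.lf (nat_lit 456139) (.g (nat_lit 4532) (.e (nat_lit 2667) (nat_lit 167) (.e (nat_lit 196670) (nat_lit 14) (.e (nat_lit 73754) (nat_lit 8) (.e (nat_lit 557105) (nat_lit 14) (.e (nat_lit 180252) (nat_lit 10) (.e (nat_lit 573474) (nat_lit 12) (.e (nat_lit 57507) (nat_lit 39) (.e (nat_lit 655104) (nat_lit 0) .nil)))))))) (.g (nat_lit 1) (.e (nat_lit 42087) (nat_lit 0) .nil) .nil))) 
(.lf (nat_lit 456651) (.g (nat_lit 2831) (.e (nat_lit 2668) (nat_lit 167) (.e (nat_lit 196666) (nat_lit 13) (.e (nat_lit 65617) (nat_lit 10) (.e (nat_lit 344130) (nat_lit 26) (.e (nat_lit 557085) (nat_lit 11) (.e (nat_lit 24580) (nat_lit 0) (.e (nat_lit 6617) (nat_lit 357) .nil))))))) (.g (nat_lit 1) (.e (nat_lit 43089) (nat_lit 0) .nil) .nil))))))) 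
(.nd (nat_lit 6) (.nd (nat_lit 7) (.nd (nat_lit 8) (.nd (nat_lit 9) 
(.lf (nat_lit 455723) (.g (nat_lit 4146) (.e (nat_lit 2664) (nat_lit 167) (.e (nat_lit 196666) (nat_lit 13) (.e (nat_lit 65617) (nat_lit 10) (.e (nat_lit 344126) (nat_lit 25) (.e (nat_lit 548889) (nat_lit 9) (.e (nat_lit 65540) (nat_lit 0) (.e (nat_lit 6681) (nat_lit 357) .nil))))))) (.g (nat_lit 1) (.e (nat_lit 41325) (nat_lit 0) .nil) .nil))) 
(.lf (nat_lit 456235) (.g (nat_lit 3050) (.e (nat_lit 2668) (nat_lit 167) (.e (nat_lit 196666) (nat_lit 13) (.e (nat_lit 65610) (nat_lit 10) (.e (nat_lit 344117) (nat_lit 21) (.e (nat_lit 516098) (nat_lit 0) (.e (nat_lit 7065) (nat_lit 377) (.e (nat_lit 2510) (nat_lit 157) (.e (nat_lit 5626) (nat_lit 312) .nil)))))))) (.g (nat_lit 1) (.e (nat_lit 42546) (nat_lit 0) .nil) .nil)))) (.nd (nat_lit 9) 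
(.lf (nat_lit 455979) (.g (nat_lit 2090) (.e (nat_lit 2666) (nat_lit 167) (.e (nat_lit 196666) (nat_lit 13) (.e (nat_lit 65610) (nat_lit 10) (.e (nat_lit 344129) (nat_lit 26) (.e (nat_lit 557087) (nat_lit 11) (.e (nat_lit 24582) (nat_lit 0) (.e (nat_lit 7936) (nat_lit 357) .nil))))))) (.g (nat_lit 1) (.e (nat_lit 41784) (nat_lit 0) .nil) .nil))) 
(.lf (nat_lit 456491) (.g (nat_lit 4360) (.e (nat_lit 2668) (nat_lit 167) (.e (nat_lit 196666) (nat_lit 13) (.e (nat_lit 65610) (nat_lit 10) (.e (nat_lit 344117) (nat_lit 21) (.e (nat_lit 516151) (nat_lit 9) (.e (nat_lit 426038) (nat_lit 0) (.e (nat_lit 3366) (nat_lit 208) (.e (nat_lit 622624) (nat_lit 13) .nil)))))))) (.g (nat_lit 1) (.e (nat_lit 42840) (nat_lit 0) .nil) .nil))))) 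
(.nd (nat_lit 8) (.nd (nat_lit 9) 
(.lf (nat_lit 455851) (.g (nat_lit 2808) (.e (nat_lit 2665) (nat_lit 167) (.e (nat_lit 196673) (nat_lit 15) (.e (nat_lit 81956) (nat_lit 23) (.e (nat_lit 98350) (nat_lit 24) .nil)))) (.g (nat_lit 0) (.e (nat_lit 41517) (nat_lit 0) .nil) .nil))) 
(.lf (nat_lit 456363) (.g (nat_lit 5043) (.e (nat_lit 2668) (nat_lit 167) (.e (nat_lit 196666) (nat_lit 13) (.e (nat_lit 65610) (nat_lit 10) (.e (nat_lit 344117) (nat_lit 21) (.e (nat_lit 516139) (nat_lit 7) (.e (nat_lit 409616) (nat_lit 10) (.e (nat_lit 5628) (nat_lit 312) .nil))))))) (.g (nat_lit 1) (.e (nat_lit 42674) (nat_lit 0) .nil) .nil)))) (.nd (nat_lit 9) 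
(.lf (nat_lit 456107) (.g (nat_lit 4450) (.e (nat_lit 2667) (nat_lit 167) (.e (nat_lit 196670) (nat_lit 14) (.e (nat_lit 73753) (nat_lit 8) (.e (nat_lit 557105) (nat_lit 14) (.e (nat_lit 180252) (nat_lit 10) (.e (nat_lit 573473) (nat_lit 12) (.e (nat_lit 57507) (nat_lit 39) (.e (nat_lit 655104) (nat_lit 0) .nil)))))))) (.g (nat_lit 1) (.e (nat_lit 42055) (nat_lit 0) .nil) .nil))) 
(.lf (nat_lit 456619) (.g (nat_lit 2394) (.e (nat_lit 2668) (nat_lit 167) (.e (nat_lit 196666) (nat_lit 13) (.e (nat_lit 65610) (nat_lit 10) (.e (nat_lit 344129) (nat_lit 26) (.e (nat_lit 557087) (nat_lit 11) (.e (nat_lit 24590) (nat_lit 0) (.e (nat_lit 7936) (nat_lit 357) .nil))))))) (.g (nat_lit 1) (.e (nat_lit 43018) (nat_lit 0) .nil) .nil)))))) 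
(.nd (nat_lit 7) (.nd (nat_lit 8) (.nd (nat_lit 9) 
(.lf (nat_lit 455787) (.g (nat_lit 2469) (.e (nat_lit 2664) (nat_lit 167) (.e (nat_lit 196672) (nat_lit 15) (.e (nat_lit 81943) (nat_lit 20) (.e (nat_lit 1841) (nat_lit 123) (.e (nat_lit 548889) (nat_lit 9) (.e (nat_lit 65545) (nat_lit 0) (.e (nat_lit 6684) (nat_lit 357) .nil))))))) (.g (nat_lit 1) (.e (nat_lit 41403) (nat_lit 0) .nil) .nil))) 
(.lf (nat_lit 456299) (.g (nat_lit 2292) (.e (nat_lit 2668) (nat_lit 167) (.e (nat_lit 196666) (nat_lit 13) (.e (nat_lit 65610) (nat_lit 10) (.e (nat_lit 344117) (nat_lit 21) (.e (nat_lit 516106) (nat_lit 0) (.e (nat_lit 7016) (nat_lit 377) (.e (nat_lit 2438) (nat_lit 157) (.e (nat_lit 7936) (nat_lit 312) .nil)))))))) (.g (nat_lit 1) (.e (nat_lit 42610) (nat_lit 0) .nil) .nil)))) (.nd (nat_lit 9) 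
(.lf (nat_lit 456043) (.g (nat_lit 3843) (.e (nat_lit 2667) (nat_lit 167) (.e (nat_lit 196668) (nat_lit 14) (.e (nat_lit 73753) (nat_lit 8) (.e (nat_lit 557103) (nat_lit 14) (.e (nat_lit 180250) (nat_lit 10) (.e (nat_lit 573475) (nat_lit 12) (.e (nat_lit 57507) (nat_lit 39) (.e (nat_lit 647176) (nat_lit 0) .nil)))))))) (.g (nat_lit 1) (.e (nat_lit 41947) (nat_lit 0) .nil) .nil))) 
(.lf (nat_lit 456555) (.g (nat_lit 2319) (.e (nat_lit 2668) (nat_lit 167) (.e (nat_lit 196666) (nat_lit 13) (.e (nat_lit 65610) (nat_lit 10) (.e (nat_lit 344117) (nat_lit 21) (.e (nat_lit 516151) (nat_lit 9) (.e (nat_lit 426103) (nat_lit 1) (.e (nat_lit 164258) (nat_lit 215) (.e (nat_lit 7936) (nat_lit 157) .nil)))))))) (.g (nat_lit 1) (.e (nat_lit 42904) (nat_lit 0) .nil) .nil))))) 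
(.nd (nat_lit 8) (.nd (nat_lit 9) 
(.lf (nat_lit 455915) (.g (nat_lit 5106) (.e (nat_lit 2666) (nat_lit 167) (.e (nat_lit 196666) (nat_lit 13) (.e (nat_lit 65610) (nat_lit 10) (.e (nat_lit 344117) (nat_lit 21) (.e (nat_lit 516151) (nat_lit 9) (.e (nat_lit 426020) (nat_lit 0) (.e (nat_lit 3367) (nat_lit 208) (.e (nat_lit 630528) (nat_lit 13) .nil)))))))) (.g (nat_lit 1) (.e (nat_lit 41680) (nat_lit 0) .nil) .nil))) 
(.lf (nat_lit 456427) (.g (nat_lit 3931) (.e (nat_lit 2668) (nat_lit 167) (.e (nat_lit 196666) (nat_lit 13) (.e (nat_lit 65610) (nat_lit 10) (.e (nat_lit 344117) (nat_lit 21) (.e (nat_lit 516151) (nat_lit 9) (.e (nat_lit 426017) (nat_lit 0) (.e (nat_lit 3368) (nat_lit 208) (.e (nat_lit 622624) (nat_lit 13) .nil)))))))) (.g (nat_lit 1) (.e (nat_lit 42776) (nat_lit 0) .nil) .nil)))) 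
(.nd (nat_lit 9) 
(.lf (nat_lit 456171) (.g (nat_lit 2380) (.e (nat_lit 2667) (nat_lit 167) (.e (nat_lit 196672) (nat_lit 15) (.e (nat_lit 81954) (nat_lit 23) (.e (nat_lit 98350) (nat_lit 24) (.e (nat_lit 409618) (nat_lit 10) (.e (nat_lit 7936) (nat_lit 312) .nil)))))) (.g (nat_lit 1) (.e (nat_lit 42239) (nat_lit 0) .nil) .nil))) 
(.lf (nat_lit 456683) (.g (nat_lit 2698) (.e (nat_lit 2668) (nat_lit 167) (.e (nat_lit 196666) (nat_lit 13) (.e (nat_lit 65617) (nat_lit 10) (.e (nat_lit 344133) (nat_lit 26) (.e (nat_lit 557067) (nat_lit 9) .nil))))) (.g (nat_lit 0) (.e (nat_lit 43129) (nat_lit 0) .nil) .nil)))))))) (.nd (nat_lit 5) (.nd (nat_lit 6) (.nd (nat_lit 7) (.nd (nat_lit 8) (.nd (nat_lit 9) 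
(.lf (nat_lit 455707) (.g (nat_lit 2120) (.e (nat_lit 2664) (nat_lit 167) (.e (nat_lit 196666) (nat_lit 13) (.e (nat_lit 65610) (nat_lit 10) (.e (nat_lit 344129) (nat_lit 26) (.e (nat_lit 557074) (nat_lit 9) .nil))))) (.g (nat_lit 0) (.e (nat_lit 41293) (nat_lit 0) .nil) .nil))) 
(.lf (nat_lit 456219) (.g (nat_lit 3397) (.e (nat_lit 2668) (nat_lit 167) (.e (nat_lit 196666) (nat_lit 13) (.e (nat_lit 65610) (nat_lit 10) (.e (nat_lit 344117) (nat_lit 21) (.e (nat_lit 516097) (nat_lit 0) (.e (nat_lit 7118) (nat_lit 381) (.e (nat_lit 229683) (nat_lit 246) .nil))))))) (.g (nat_lit 1) (.e (nat_lit 42530) (nat_lit 0) .nil) .nil)))) (.nd (nat_lit 9) 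
(.lf (nat_lit 455963) (.g (nat_lit 2130) (.e (nat_lit 2666) (nat_lit 167) (.e (nat_lit 196666) (nat_lit 13) (.e (nat_lit 65610) (nat_lit 10) (.e (nat_lit 344117) (nat_lit 21) (.e (nat_lit 516160) (nat_lit 10) .nil))))) (.g (nat_lit 0) (.e (nat_lit 41742) (nat_lit 0) .nil) .nil))) 
(.lf (nat_lit 456475) (.g (nat_lit 3968) (.e (nat_lit 2668) (nat_lit 167) (.e (nat_lit 196666) (nat_lit 13) (.e (nat_lit 65610) (nat_lit 10) (.e (nat_lit 344117) (nat_lit 21) (.e (nat_lit 516151) (nat_lit 9) (.e (nat_lit 426037) (nat_lit 0) (.e (nat_lit 2422) (nat_lit 157) (.e (nat_lit 4778) (nat_lit 281) (.e (nat_lit 2445) (nat_lit 157) .nil))))))))) (.g (nat_lit 1) (.e (nat_lit 42824) (nat_lit 0) .nil) .nil))))) 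
(.nd (nat_lit 8) (.nd (nat_lit 9) 
(.lf (nat_lit 455835) (.g (nat_lit 3032) (.e (nat_lit 2664) (nat_lit 167) (.e (nat_lit 196674) (nat_lit 15) (.e (nat_lit 81947) (nat_lit 20) (.e (nat_lit 1842) (nat_lit 123) (.e (nat_lit 548889) (nat_lit 9) (.e (nat_lit 65545) (nat_lit 0) (.e (nat_lit 6684) (nat_lit 357) .nil))))))) (.g (nat_lit 1) (.e (nat_lit 41458) (nat_lit 0) .nil) .nil))) 
(.lf (nat_lit 456347) (.g (nat_lit 2890) (.e (nat_lit 2668) (nat_lit 167) (.e (nat_lit 196666) (nat_lit 13) (.e (nat_lit 65610) (nat_lit 10) (.e (nat_lit 344117) (nat_lit 21) (.e (nat_lit 516139) (nat_lit 7) (.e (nat_lit 409609) (nat_lit 10) (.e (nat_lit 5628) (nat_lit 312) .nil))))))) (.g (nat_lit 1) (.e (nat_lit 42658) (nat_lit 0) .nil) .nil)))) (.nd (nat_lit 9) 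
(.lf (nat_lit 456091) (.g (nat_lit 3306) (.e (nat_lit 2667) (nat_lit 167) (.e (nat_lit 196670) (nat_lit 14) (.e (nat_lit 73753) (nat_lit 8) (.e (nat_lit 557103) (nat_lit 14) (.e (nat_lit 180250) (nat_lit 10) (.e (nat_lit 573473) (nat_lit 12) (.e (nat_lit 57508) (nat_lit 39) (.e (nat_lit 647175) (nat_lit 0) .nil)))))))) (.g (nat_lit 1) (.e (nat_lit 42039) (nat_lit 0) .nil) .nil))) 
(.lf (nat_lit 456603) (.g (nat_lit 2068) (.e (nat_lit 2668) (nat_lit 167) (.e (nat_lit 196666) (nat_lit 13) (.e (nat_lit 65610) (nat_lit 10) (.e (nat_lit 344129) (nat_lit 26) (.e (nat_lit 557067) (nat_lit 9) .nil))))) (.g (nat_lit 0) (.e (nat_lit 42984) (nat_lit 0) .nil) .nil)))))) (.nd (nat_lit 7) (.nd (nat_lit 8) (.nd (nat_lit 9) 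
(.lf (nat_lit 455771) (.g (nat_lit 2927) (.e (nat_lit 2664) (nat_lit 167) (.e (nat_lit 196671) (nat_lit 15) (.e (nat_lit 81956) (nat_lit 23) (.e (nat_lit 98350) (nat_lit 24) (.e (nat_lit 409617) (nat_lit 10) (.e (nat_lit 5710) (nat_lit 312) .nil)))))) (.g (nat_lit 1) (.e (nat_lit 41383) (nat_lit 0) .nil) .nil))) 
(.lf (nat_lit 456283) (.g (nat_lit 4374) (.e (nat_lit 2668) (nat_lit 167) (.e (nat_lit 196666) (nat_lit 13) (.e (nat_lit 65610) (nat_lit 10) (.e (nat_lit 344117) (nat_lit 21) (.e (nat_lit 516106) (nat_lit 0) (.e (nat_lit 7008) (nat_lit 377) (.e (nat_lit 2423) (nat_lit 157) (.e (nat_lit 5683) (nat_lit 312) .nil)))))))) (.g (nat_lit 1) (.e (nat_lit 42594) (nat_lit 0) .nil) .nil)))) (.nd (nat_lit 9) 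
(.lf (nat_lit 456027) (.g (nat_lit 3548) (.e (nat_lit 2667) (nat_lit 167) (.e (nat_lit 196668) (nat_lit 14) (.e (nat_lit 73753) (nat_lit 8) (.e (nat_lit 557103) (nat_lit 14) (.e (nat_lit 180250) (nat_lit 10) (.e (nat_lit 573473) (nat_lit 12) (.e (nat_lit 57507) (nat_lit 39) (.e (nat_lit 647176) (nat_lit 0) .nil)))))))) (.g (nat_lit 1) (.e (nat_lit 41931) (nat_lit 0) .nil) .nil))) 
(.lf (nat_lit 456539) (.g (nat_lit 4043) (.e (nat_lit 2668) (nat_lit 167) (.e (nat_lit 196666) (nat_lit 13) (.e (nat_lit 65610) (nat_lit 10) (.e (nat_lit 344117) (nat_lit 21) (.e (nat_lit 516151) (nat_lit 9) (.e (nat_lit 426050) (nat_lit 0) (.e (nat_lit 2449) (nat_lit 157) (.e (nat_lit 4778) (nat_lit 281) (.e (nat_lit 2445) (nat_lit 157) .nil))))))))) (.g (nat_lit 1) (.e (nat_lit 42888) (nat_lit 0) .nil) .nil))))) 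
(.nd (nat_lit 8) (.nd (nat_lit 9) 
(.lf (nat_lit 455899) (.g (nat_lit 3332) (.e (nat_lit 2666) (nat_lit 167) (.e (nat_lit 196666) (nat_lit 13) (.e (nat_lit 65610) (nat_lit 10) (.e (nat_lit 344117) (nat_lit 21) (.e (nat_lit 516142) (nat_lit 8) (.e (nat_lit 417817) (nat_lit 10) (.e (nat_lit 7936) (nat_lit 312) .nil))))))) (.g (nat_lit 1) (.e (nat_lit 41663) (nat_lit 0) .nil) .nil))) 
(.lf (nat_lit 456411) (.g (nat_lit 3268) (.e (nat_lit 2668) (nat_lit 167) (.e (nat_lit 196666) (nat_lit 13) (.e (nat_lit 65610) (nat_lit 10) (.e (nat_lit 344117) (nat_lit 21) (.e (nat_lit 516142) (nat_lit 8) (.e (nat_lit 417821) (nat_lit 10) (.e (nat_lit 7936) (nat_lit 312) .nil))))))) (.g (nat_lit 1) (.e (nat_lit 42722) (nat_lit 0) .nil) .nil)))) (.nd (nat_lit 9) 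
(.lf (nat_lit 456155) (.g (nat_lit 3983) (.e (nat_lit 2667) (nat_lit 167) (.e (nat_lit 196670) (nat_lit 14) (.e (nat_lit 73755) (nat_lit 8) (.e (nat_lit 557105) (nat_lit 14) (.e (nat_lit 180252) (nat_lit 10) (.e (nat_lit 573474) (nat_lit 12) (.e (nat_lit 57507) (nat_lit 39) (.e (nat_lit 655104) (nat_lit 0) .nil)))))))) (.g (nat_lit 1) (.e (nat_lit 42103) (nat_lit 0) .nil) .nil))) 
(.lf (nat_lit 456667) (.g (nat_lit 4017) (.e (nat_lit 2668) (nat_lit 167) (.e (nat_lit 196666) (nat_lit 13) (.e (nat_lit 65617) (nat_lit 10) (.e (nat_lit 344130) (nat_lit 26) (.e (nat_lit 557087) (nat_lit 11) (.e (nat_lit 24593) (nat_lit 0) (.e (nat_lit 7936) (nat_lit 357) .nil))))))) (.g (nat_lit 1) (.e (nat_lit 43105) (nat_lit 0) .nil) .nil))))))) 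
(.nd (nat_lit 6) (.nd (nat_lit 7) (.nd (nat_lit 8) (.nd (nat_lit 9) 
(.lf (nat_lit 455739) (.g (nat_lit 3365) (.e (nat_lit 2664) (nat_lit 167) (.e (nat_lit 196666) (nat_lit 13) (.e (nat_lit 65617) (nat_lit 10) (.e (nat_lit 344130) (nat_lit 26) (.e (nat_lit 557087) (nat_lit 11) (.e (nat_lit 24585) (nat_lit 0) (.e (nat_lit 6684) (nat_lit 357) .nil))))))) (.g (nat_lit 1) (.e (nat_lit 41341) (nat_lit 0) .nil) .nil))) 
(.lf (nat_lit 456251) (.g (nat_lit 2102) (.e (nat_lit 2668) (nat_lit 167) (.e (nat_lit 196666) (nat_lit 13) (.e (nat_lit 65610) (nat_lit 10) (.e (nat_lit 344117) (nat_lit 21) (.e (nat_lit 516102) (nat_lit 0) (.e (nat_lit 6989) (nat_lit 377) (.e (nat_lit 2397) (nat_lit 157) (.e (nat_lit 5616) (nat_lit 312) .nil)))))))) (.g (nat_lit 1) (.e (nat_lit 42562) (nat_lit 0) .nil) .nil)))) (.nd (nat_lit 9) 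
(.lf (nat_lit 455995) (.g (nat_lit 2812) (.e (nat_lit 2666) (nat_lit 167) (.e (nat_lit 196666) (nat_lit 13) (.e (nat_lit 65628) (nat_lit 14) (.e (nat_lit 401425) (nat_lit 2) .nil)))) (.g (nat_lit 0) (.e (nat_lit 41830) (nat_lit 0) .nil) .nil))) 
(.lf (nat_lit 456507) (.g (nat_lit 2637) (.e (nat_lit 2668) (nat_lit 167) (.e (nat_lit 196666) (nat_lit 13) (.e (nat_lit 65610) (nat_lit 10) (.e (nat_lit 344117) (nat_lit 21) (.e (nat_lit 516151) (nat_lit 9) (.e (nat_lit 426042) (nat_lit 0) (.e (nat_lit 2423) (nat_lit 157) (.e (nat_lit 4762) (nat_lit 281) (.e (nat_lit 2433) (nat_lit 157) .nil))))))))) (.g (nat_lit 1) (.e (nat_lit 42856) (nat_lit 0) .nil) .nil))))) 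
(.nd (nat_lit 8) (.nd (nat_lit 9) 
(.lf (nat_lit 455867) (.g (nat_lit 4148) (.e (nat_lit 2666) (nat_lit 167) (.e (nat_lit 196666) (nat_lit 13) (.e (nat_lit 65569) (nat_lit 3) (.e (nat_lit 98335) (nat_lit 18) (.e (nat_lit 164183) (nat_lit 154) (.e (nat_lit 57378) (nat_lit 3) (.e (nat_lit 98338) (nat_lit 19) (.e (nat_lit 213013) (nat_lit 9) .nil)))))))) (.g (nat_lit 1) (.e (nat_lit 41547) (nat_lit 0) .nil) .nil))) 
(.lf (nat_lit 456379) (.g (nat_lit 2707) (.e (nat_lit 2668) (nat_lit 167) (.e (nat_lit 196666) (nat_lit 13) (.e (nat_lit 65610) (nat_lit 10) (.e (nat_lit 344117) (nat_lit 21) (.e (nat_lit 516141) (nat_lit 8) (.e (nat_lit 417814) (nat_lit 10) (.e (nat_lit 5627) (nat_lit 312) .nil))))))) (.g (nat_lit 1) (.e (nat_lit 42690) (nat_lit 0) .nil) .nil)))) (.nd (nat_lit 9) 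
(.lf (nat_lit 456123) (.g (nat_lit 4233) (.e (nat_lit 2667) (nat_lit 167) (.e (nat_lit 196670) (nat_lit 14) (.e (nat_lit 73753) (nat_lit 8) (.e (nat_lit 557105) (nat_lit 14) (.e (nat_lit 180252) (nat_lit 10) (.e (nat_lit 573475) (nat_lit 12) (.e (nat_lit 57507) (nat_lit 39) (.e (nat_lit 655104) (nat_lit 0) .nil)))))))) (.g (nat_lit 1) (.e (nat_lit 42071) (nat_lit 0) .nil) .nil))) 
(.lf (nat_lit 456635) (.g (nat_lit 2193) (.e (nat_lit 2668) (nat_lit 167) (.e (nat_lit 196666) (nat_lit 13) (.e (nat_lit 65617) (nat_lit 10) (.e (nat_lit 344119) (nat_lit 21) (.e (nat_lit 516139) (nat_lit 7) (.e (nat_lit 409616) (nat_lit 10) (.e (nat_lit 7936) (nat_lit 312) .nil))))))) (.g (nat_lit 1) (.e (nat_lit 43043) (nat_lit 0) .nil) .nil)))))) 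
(.nd (nat_lit 7) (.nd (nat_lit 8) (.nd (nat_lit 9) 
(.lf (nat_lit 455803) (.g (nat_lit 3339) (.e (nat_lit 2664) (nat_lit 167) (.e (nat_lit 196672) (nat_lit 15) (.e (nat_lit 81954) (nat_lit 23) (.e (nat_lit 98350) (nat_lit 24) (.e (nat_lit 409618) (nat_lit 10) (.e (nat_lit 5728) (nat_lit 312) .nil)))))) (.g (nat_lit 1) (.e (nat_lit 41424) (nat_lit 0) .nil) .nil))) 
(.lf (nat_lit 456315) (.g (nat_lit 2886) (.e (nat_lit 2668) (nat_lit 167) (.e (nat_lit 196666) (nat_lit 13) (.e (nat_lit 65610) (nat_lit 10) (.e (nat_lit 344117) (nat_lit 21) (.e (nat_lit 516138) (nat_lit 7) (.e (nat_lit 409611) (nat_lit 10) (.e (nat_lit 5613) (nat_lit 312) .nil))))))) (.g (nat_lit 1) (.e (nat_lit 42626) (nat_lit 0) .nil) .nil)))) (.nd (nat_lit 9) 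
(.lf (nat_lit 456059) (.g (nat_lit 3823) (.e (nat_lit 2667) (nat_lit 167) (.e (nat_lit 196668) (nat_lit 14) (.e (nat_lit 73753) (nat_lit 8) (.e (nat_lit 557105) (nat_lit 14) (.e (nat_lit 180252) (nat_lit 10) (.e (nat_lit 573475) (nat_lit 12) (.e (nat_lit 57507) (nat_lit 39) (.e (nat_lit 655104) (nat_lit 0) .nil)))))))) (.g (nat_lit 1) (.e (nat_lit 41963) (nat_lit 0) .nil) .nil))) 
(.lf (nat_lit 456571) (.g (nat_lit 3112) (.e (nat_lit 2668) (nat_lit 167) (.e (nat_lit 196666) (nat_lit 13) (.e (nat_lit 65610) (nat_lit 10) (.e (nat_lit 344117) (nat_lit 21) (.e (nat_lit 516159) (nat_lit 10) (.e (nat_lit 434208) (nat_lit 18) (.e (nat_lit 4751) (nat_lit 281) (.e (nat_lit 2399) (nat_lit 157) .nil)))))))) (.g (nat_lit 1) (.e (nat_lit 42922) (nat_lit 0) .nil) .nil))))) 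
(.nd (nat_lit 8) (.nd (nat_lit 9) 
(.lf (nat_lit 455931) (.g (nat_lit 3506) (.e (nat_lit 2666) (nat_lit 167) (.e (nat_lit 196666) (nat_lit 13) (.e (nat_lit 65610) (nat_lit 10) (.e (nat_lit 344117) (nat_lit 21) (.e (nat_lit 516151) (nat_lit 9) (.e (nat_lit 426023) (nat_lit 0) (.e (nat_lit 3363) (nat_lit 208) (.e (nat_lit 630528) (nat_lit 13) .nil)))))))) (.g (nat_lit 1) (.e (nat_lit 41696) (nat_lit 0) .nil) .nil))) 
(.lf (nat_lit 456443) (.g (nat_lit 4188) (.e (nat_lit 2668) (nat_lit 167) (.e (nat_lit 196666) (nat_lit 13) (.e (nat_lit 65610) (nat_lit 10) (.e (nat_lit 344117) (nat_lit 21) (.e (nat_lit 516151) (nat_lit 9) (.e (nat_lit 426020) (nat_lit 0) (.e (nat_lit 3372) (nat_lit 208) (.e (nat_lit 622623) (nat_lit 13) .nil)))))))) (.g (nat_lit 1) (.e (nat_lit 42792) (nat_lit 0) .nil) .nil)))) 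
(.nd (nat_lit 9) 
(.lf (nat_lit 456187) (.g (nat_lit 3202) (.e (nat_lit 2668) (nat_lit 167) (.e (nat_lit 196663) (nat_lit 13) (.e (nat_lit 65630) (nat_lit 14) (.e (nat_lit 401425) (nat_lit 2) (.e (nat_lit 196668) (nat_lit 14) (.e (nat_lit 81664) (nat_lit 32) .nil)))))) (.g (nat_lit 1) (.e (nat_lit 42450) (nat_lit 0) .nil) .nil))) 
(.lf (nat_lit 456699) (.g (nat_lit 2492) (.e (nat_lit 2668) (nat_lit 167) (.e (nat_lit 196666) (nat_lit 13) (.e (nat_lit 65619) (nat_lit 10) (.e (nat_lit 344117) (nat_lit 21) (.e (nat_lit 516141) (nat_lit 8) (.e (nat_lit 417815) (nat_lit 10) (.e (nat_lit 5627) (nat_lit 312) .nil))))))) (.g (nat_lit 1) (.e (nat_lit 43162) (nat_lit 0) .nil) .nil)))))))))) 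
(.nd (nat_lit 3) (.nd (nat_lit 4) (.nd (nat_lit 5) (.nd (nat_lit 6) (.nd (nat_lit 7) 
(.nd (nat_lit 8) (.nd (nat_lit 9) 
(.lf (nat_lit 455687) (.g (nat_lit 3112) (.e (nat_lit 2664) (nat_lit 167) (.e (nat_lit 196666) (nat_lit 13) (.e (nat_lit 65610) (nat_lit 10) (.e (nat_lit 344117) (nat_lit 21) (.e (nat_lit 516160) (nat_lit 10) (.e (nat_lit 434208) (nat_lit 18) (.e (nat_lit 4754) (nat_lit 281) (.e (nat_lit 2489) (nat_lit 157) .nil)))))))) (.g (nat_lit 1) (.e (nat_lit 41268) (nat_lit 0) .nil) .nil))) 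
(.lf (nat_lit 456199) (.g (nat_lit 3827) (.e (nat_lit 2668) (nat_lit 167) (.e (nat_lit 196666) (nat_lit 13) (.e (nat_lit 65599) (nat_lit 9) (.e (nat_lit 336028) (nat_lit 3) (.e (nat_lit 98350) (nat_lit 24) (.e (nat_lit 409616) (nat_lit 10) (.e (nat_lit 7936) (nat_lit 312) .nil))))))) (.g (nat_lit 1) (.e (nat_lit 42497) (nat_lit 0) .nil) .nil)))) (.nd (nat_lit 9) 
(.lf (nat_lit 455943) (.g (nat_lit 4937) (.e (nat_lit 2666) (nat_lit 167) (.e (nat_lit 196666) (nat_lit 13) (.e (nat_lit 65610) (nat_lit 10) (.e (nat_lit 344117) (nat_lit 21) (.e (nat_lit 516151) (nat_lit 9) (.e (nat_lit 426045) (nat_lit 0) (.e (nat_lit 3366) (nat_lit 208) (.e (nat_lit 622627) (nat_lit 13) .nil)))))))) (.g (nat_lit 1) (.e (nat_lit 41708) (nat_lit 0) .nil) .nil))) 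
(.lf (nat_lit 456455) (.g (nat_lit 3022) (.e (nat_lit 2668) (nat_lit 167) (.e (nat_lit 196666) (nat_lit 13) (.e (nat_lit 65610) (nat_lit 10) (.e (nat_lit 344117) (nat_lit 21) (.e (nat_lit 516151) (nat_lit 9) (.e (nat_lit 426022) (nat_lit 0) (.e (nat_lit 2403) (nat_lit 157) (.e (nat_lit 4761) (nat_lit 281) (.e (nat_lit 2433) (nat_lit 157) .nil))))))))) (.g (nat_lit 1) (.e (nat_lit 42804) (nat_lit 0) .nil) .nil))))) 
(.nd (nat_lit 8) (.nd (nat_lit 9) 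
(.lf (nat_lit 455815) (.g (nat_lit 2306) (.e (nat_lit 2664) (nat_lit 167) (.e (nat_lit 196673) (nat_lit 15) (.e (nat_lit 81956) (nat_lit 23) (.e (nat_lit 98320) (nat_lit 17) .nil)))) (.g (nat_lit 0) (.e (nat_lit 41436) (nat_lit 0) .nil) .nil))) 
(.lf (nat_lit 456327) (.g (nat_lit 3728) (.e (nat_lit 2668) (nat_lit 167) (.e (nat_lit 196666) (nat_lit 13) (.e (nat_lit 65610) (nat_lit 10) (.e (nat_lit 344117) (nat_lit 21) (.e (nat_lit 516138) (nat_lit 7) (.e (nat_lit 409616) (nat_lit 10) (.e (nat_lit 5613) (nat_lit 312) .nil))))))) (.g (nat_lit 1) (.e (nat_lit 42638) (nat_lit 0) .nil) .nil)))) (.nd (nat_lit 9) 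
(.lf (nat_lit 456071) (.g (nat_lit 2237) (.e (nat_lit 2667) (nat_lit 167) (.e (nat_lit 196669) (nat_lit 14) (.e (nat_lit 73755) (nat_lit 8) (.e (nat_lit 557105) (nat_lit 14) (.e (nat_lit 180252) (nat_lit 10) (.e (nat_lit 573474) (nat_lit 12) (.e (nat_lit 57506) (nat_lit 39) (.e (nat_lit 647176) (nat_lit 0) .nil)))))))) (.g (nat_lit 1) (.e (nat_lit 42018) (nat_lit 0) .nil) .nil))) 
(.lf (nat_lit 456583) (.g (nat_lit 3235) (.e (nat_lit 2668) (nat_lit 167) (.e (nat_lit 196666) (nat_lit 13) (.e (nat_lit 65610) (nat_lit 10) (.e (nat_lit 344117) (nat_lit 21) (.e (nat_lit 516160) (nat_lit 10) (.e (nat_lit 434207) (nat_lit 18) (.e (nat_lit 4778) (nat_lit 281) (.e (nat_lit 2445) (nat_lit 157) .nil)))))))) (.g (nat_lit 1) (.e (nat_lit 42934) (nat_lit 0) .nil) .nil)))))) 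
(.nd (nat_lit 7) (.nd (nat_lit 8) (.nd (nat_lit 9) 
(.lf (nat_lit 455751) (.g (nat_lit 3343) (.e (nat_lit 2664) (nat_lit 167) (.e (nat_lit 196666) (nat_lit 13) (.e (nat_lit 65628) (nat_lit 14) (.e (nat_lit 401425) (nat_lit 2) (.e (nat_lit 196681) (nat_lit 17) (.e (nat_lit 131077) (nat_lit 0) (.e (nat_lit 6684) (nat_lit 357) .nil))))))) (.g (nat_lit 1) (.e (nat_lit 41359) (nat_lit 0) .nil) .nil))) 
(.lf (nat_lit 456263) (.g (nat_lit 3597) (.e (nat_lit 2668) (nat_lit 167) (.e (nat_lit 196666) (nat_lit 13) (.e (nat_lit 65610) (nat_lit 10) (.e (nat_lit 344117) (nat_lit 21) (.e (nat_lit 516106) (nat_lit 0) (.e (nat_lit 6986) (nat_lit 377) (.e (nat_lit 2397) (nat_lit 157) (.e (nat_lit 5627) (nat_lit 312) .nil)))))))) (.g (nat_lit 1) (.e (nat_lit 42574) (nat_lit 0) .nil) .nil)))) (.nd (nat_lit 9) 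
(.lf (nat_lit 456007) (.g (nat_lit 3063) (.e (nat_lit 2666) (nat_lit 167) (.e (nat_lit 196673) (nat_lit 15) (.e (nat_lit 81956) (nat_lit 23) (.e (nat_lit 98350) (nat_lit 24) .nil)))) (.g (nat_lit 0) (.e (nat_lit 41860) (nat_lit 0) .nil) .nil))) 
(.lf (nat_lit 456519) (.g (nat_lit 3776) (.e (nat_lit 2668) (nat_lit 167) (.e (nat_lit 196666) (nat_lit 13) (.e (nat_lit 65610) (nat_lit 10) (.e (nat_lit 344117) (nat_lit 21) (.e (nat_lit 516151) (nat_lit 9) (.e (nat_lit 426042) (nat_lit 0) (.e (nat_lit 3370) (nat_lit 208) (.e (nat_lit 622623) (nat_lit 13) .nil)))))))) (.g (nat_lit 1) (.e (nat_lit 42868) (nat_lit 0) .nil) .nil))))) 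
(.nd (nat_lit 8) (.nd (nat_lit 9) 
(.lf (nat_lit 455879) (.g (nat_lit 2886) (.e (nat_lit 2666) (nat_lit 167) (.e (nat_lit 196666) (nat_lit 13) (.e (nat_lit 65571) (nat_lit 3) (.e (nat_lit 98335) (nat_lit 18) .nil)))) (.g (nat_lit 0) (.e (nat_lit 41575) (nat_lit 0) .nil) .nil))) 
(.lf (nat_lit 456391) (.g (nat_lit 3722) (.e (nat_lit 2668) (nat_lit 167) (.e (nat_lit 196666) (nat_lit 13) (.e (nat_lit 65610) (nat_lit 10) (.e (nat_lit 344117) (nat_lit 21) (.e (nat_lit 516142) (nat_lit 8) (.e (nat_lit 417814) (nat_lit 10) (.e (nat_lit 5613) (nat_lit 312) .nil))))))) (.g (nat_lit 1) (.e (nat_lit 42702) (nat_lit 0) .nil) .nil)))) (.nd (nat_lit 9) 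
(.lf (nat_lit 456135) (.g (nat_lit 4339) (.e (nat_lit 2667) (nat_lit 167) (.e (nat_lit 196670) (nat_lit 14) (.e (nat_lit 73754) (nat_lit 8) (.e (nat_lit 557105) (nat_lit 14) (.e (nat_lit 180252) (nat_lit 10) (.e (nat_lit 573473) (nat_lit 12) (.e (nat_lit 57508) (nat_lit 39) (.e (nat_lit 655104) (nat_lit 0) .nil)))))))) (.g (nat_lit 1) (.e (nat_lit 42083) (nat_lit 0) .nil) .nil))) 
(.lf (nat_lit 456647) (.g (nat_lit 1787) (.e (nat_lit 2668) (nat_lit 167) (.e (nat_lit 196666) (nat_lit 13) (.e (nat_lit 65617) (nat_lit 10) (.e (nat_lit 344130) (nat_lit 26) (.e (nat_lit 557066) (nat_lit 9) .nil))))) (.g (nat_lit 0) (.e (nat_lit 43067) (nat_lit 0) .nil) .nil))))))) (.nd (nat_lit 6) (.nd (nat_lit 7) (.nd (nat_lit 8) (.nd (nat_lit 9) 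
(.lf (nat_lit 455719) (.g (nat_lit 1551) (.e (nat_lit 2664) (nat_lit 167) (.e (nat_lit 196666) (nat_lit 13) (.e (nat_lit 65617) (nat_lit 10) (.e (nat_lit 344125) (nat_lit 25) (.e (nat_lit 548890) (nat_lit 10) (.e (nat_lit 73782) (nat_lit 32) .nil)))))) (.g (nat_lit 1) (.e (nat_lit 41320) (nat_lit 0) .nil) .nil))) 
(.lf (nat_lit 456231) (.g (nat_lit 2574) (.e (nat_lit 2668) (nat_lit 167) (.e (nat_lit 196666) (nat_lit 13) (.e (nat_lit 65610) (nat_lit 10) (.e (nat_lit 344117) (nat_lit 21) (.e (nat_lit 516098) (nat_lit 0) (.e (nat_lit 7073) (nat_lit 377) (.e (nat_lit 2428) (nat_lit 157) (.e (nat_lit 5616) (nat_lit 312) .nil)))))))) (.g (nat_lit 1) (.e (nat_lit 42542) (nat_lit 0) .nil) .nil)))) (.nd (nat_lit 9) 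
(.lf (nat_lit 455975) (.g (nat_lit 2099) (.e (nat_lit 2666) (nat_lit 167) (.e (nat_lit 196666) (nat_lit 13) (.e (nat_lit 65610) (nat_lit 10) (.e (nat_lit 344129) (nat_lit 26) (.e (nat_lit 557087) (nat_lit 11) (.e (nat_lit 24576) (nat_lit 0) (.e (nat_lit 7936) (nat_lit 357) .nil))))))) (.g (nat_lit 1) (.e (nat_lit 41780) (nat_lit 0) .nil) .nil))) 
(.lf (nat_lit 456487) (.g (nat_lit 4246) (.e (nat_lit 2668) (nat_lit 167) (.e (nat_lit 196666) (nat_lit 13) (.e (nat_lit 65610) (nat_lit 10) (.e (nat_lit 344117) (nat_lit 21) (.e (nat_lit 516151) (nat_lit 9) (.e (nat_lit 426038) (nat_lit 0) (.e (nat_lit 2427) (nat_lit 157) (.e (nat_lit 4778) (nat_lit 281) (.e (nat_lit 2445) (nat_lit 157) .nil))))))))) (.g (nat_lit 1) (.e (nat_lit 42836) (nat_lit 0) .nil) .nil))))) 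
(.nd (nat_lit 8) (.nd (nat_lit 9) 
(.lf (nat_lit 455847) (.g (nat_lit 1969) (.e (nat_lit 2665) (nat_lit 167) (.e (nat_lit 196670) (nat_lit 14) (.e (nat_lit 73754) (nat_lit 8) (.e (nat_lit 557105) (nat_lit 14) (.e (nat_lit 180252) (nat_lit 10) .nil))))) (.g (nat_lit 0) (.e (nat_lit 41511) (nat_lit 0) .nil) .nil))) 
(.lf (nat_lit 456359) (.g (nat_lit 4496) (.e (nat_lit 2668) (nat_lit 167) (.e (nat_lit 196666) (nat_lit 13) (.e (nat_lit 65610) (nat_lit 10) (.e (nat_lit 344117) (nat_lit 21) (.e (nat_lit 516139) (nat_lit 7) (.e (nat_lit 409615) (nat_lit 10) (.e (nat_lit 5627) (nat_lit 312) .nil))))))) (.g (nat_lit 1) (.e (nat_lit 42670) (nat_lit 0) .nil) .nil)))) (.nd (nat_lit 9) 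
(.lf (nat_lit 456103) (.g (nat_lit 3378) (.e (nat_lit 2667) (nat_lit 167) (.e (nat_lit 196670) (nat_lit 14) (.e (nat_lit 73753) (nat_lit 8) (.e (nat_lit 557105) (nat_lit 14) (.e (nat_lit 180251) (nat_lit 10) (.e (nat_lit 573478) (nat_lit 12) (.e (nat_lit 57509) (nat_lit 39) (.e (nat_lit 655104) (nat_lit 0) .nil)))))))) (.g (nat_lit 1) (.e (nat_lit 42051) (nat_lit 0) .nil) .nil))) 
(.lf (nat_lit 456615) (.g (nat_lit 4075) (.e (nat_lit 2668) (nat_lit 167) (.e (nat_lit 196666) (nat_lit 13) (.e (nat_lit 65610) (nat_lit 10) (.e (nat_lit 344129) (nat_lit 26) (.e (nat_lit 557087) (nat_lit 11) (.e (nat_lit 24584) (nat_lit 0) (.e (nat_lit 7936) (nat_lit 357) .nil))))))) (.g (nat_lit 1) (.e (nat_lit 43014) (nat_lit 0) .nil) .nil)))))) 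
(.nd (nat_lit 7) (.nd (nat_lit 8) (.nd (nat_lit 9) 
(.lf (nat_lit 455783) (.g (nat_lit 2008) (.e (nat_lit 2664) (nat_lit 167) (.e (nat_lit 196672) (nat_lit 15) (.e (nat_lit 81943) (nat_lit 20) (.e (nat_lit 1840) (nat_lit 123) (.e (nat_lit 548890) (nat_lit 10) (.e (nat_lit 73781) (nat_lit 32) .nil)))))) (.g (nat_lit 1) (.e (nat_lit 41399) (nat_lit 0) .nil) .nil))) 
(.lf (nat_lit 456295) (.g (nat_lit 2411) (.e (nat_lit 2668) (nat_lit 167) (.e (nat_lit 196666) (nat_lit 13) (.e (nat_lit 65610) (nat_lit 10) (.e (nat_lit 344117) (nat_lit 21) (.e (nat_lit 516106) (nat_lit 0) (.e (nat_lit 7008) (nat_lit 377) (.e (nat_lit 2449) (nat_lit 157) (.e (nat_lit 5627) (nat_lit 312) .nil)))))))) (.g (nat_lit 1) (.e (nat_lit 42606) (nat_lit 0) .nil) .nil)))) (.nd (nat_lit 9) 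
(.lf (nat_lit 456039) (.g (nat_lit 2901) (.e (nat_lit 2667) (nat_lit 167) (.e (nat_lit 196668) (nat_lit 14) (.e (nat_lit 73753) (nat_lit 8) (.e (nat_lit 557103) (nat_lit 14) (.e (nat_lit 180250) (nat_lit 10) (.e (nat_lit 573475) (nat_lit 12) (.e (nat_lit 57505) (nat_lit 39) (.e (nat_lit 655104) (nat_lit 0) .nil)))))))) (.g (nat_lit 1) (.e (nat_lit 41943) (nat_lit 0) .nil) .nil))) 
(.lf (nat_lit 456551) (.g (nat_lit 4316) (.e (nat_lit 2668) (nat_lit 167) (.e (nat_lit 196666) (nat_lit 13) (.e (nat_lit 65610) (nat_lit 10) (.e (nat_lit 344117) (nat_lit 21) (.e (nat_lit 516151) (nat_lit 9) (.e (nat_lit 426047) (nat_lit 0) (.e (nat_lit 3370) (nat_lit 208) (.e (nat_lit 622621) (nat_lit 13) .nil)))))))) (.g (nat_lit 1) (.e (nat_lit 42900) (nat_lit 0) .nil) .nil))))) 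
(.nd (nat_lit 8) (.nd (nat_lit 9) 
(.lf (nat_lit 455911) (.g (nat_lit 2457) (.e (nat_lit 2666) (nat_lit 167) (.e (nat_lit 196666) (nat_lit 13) (.e (nat_lit 65610) (nat_lit 10) (.e (nat_lit 344117) (nat_lit 21) (.e (nat_lit 516151) (nat_lit 9) (.e (nat_lit 426018) (nat_lit 0) (.e (nat_lit 2401) (nat_lit 157) (.e (nat_lit 4761) (nat_lit 281) (.e (nat_lit 2463) (nat_lit 157) .nil))))))))) (.g (nat_lit 1) (.e (nat_lit 41676) (nat_lit 0) .nil) .nil))) 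
(.lf (nat_lit 456423) (.g (nat_lit 3960) (.e (nat_lit 2668) (nat_lit 167) (.e (nat_lit 196666) (nat_lit 13) (.e (nat_lit 65610) (nat_lit 10) (.e (nat_lit 344117) (nat_lit 21) (.e (nat_lit 516151) (nat_lit 9) (.e (nat_lit 426017) (nat_lit 0) (.e (nat_lit 3366) (nat_lit 208) (.e (nat_lit 622624) (nat_lit 13) .nil)))))))) (.g (nat_lit 1) (.e (nat_lit 42772) (nat_lit 0) .nil) .nil)))) 
(.nd (nat_lit 9) 
(.lf (nat_lit 456167) (.g (nat_lit 2997) (.e (nat_lit 2667) (nat_lit 167) (.e (nat_lit 196672) (nat_lit 15) (.e (nat_lit 81954) (nat_lit 23) (.e (nat_lit 98350) (nat_lit 24) (.e (nat_lit 409610) (nat_lit 10) (.e (nat_lit 5738) (nat_lit 312) .nil)))))) (.g (nat_lit 1) (.e (nat_lit 42235) (nat_lit 0) .nil) .nil))) 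
(.lf (nat_lit 456679) (.g (nat_lit 2293) (.e (nat_lit 2668) (nat_lit 167) (.e (nat_lit 196666) (nat_lit 13) (.e (nat_lit 65617) (nat_lit 10) (.e (nat_lit 344132) (nat_lit 26) (.e (nat_lit 557093) (nat_lit 12) (.e (nat_lit 163849) (nat_lit 0) (.e (nat_lit 6420) (nat_lit 341) (.e (nat_lit 163843) (nat_lit 0) (.e (nat_lit 7936) (nat_lit 388) .nil))))))))) (.g (nat_lit 1) (.e (nat_lit 43125) (nat_lit 0) .nil) .nil)))))))) 
(.nd (nat_lit 5) (.nd (nat_lit 6) (.nd (nat_lit 7) (.nd (nat_lit 8) (.nd (nat_lit 9) 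
(.lf (nat_lit 455703) (.g (nat_lit 4552) (.e (nat_lit 2664) (nat_lit 167) (.e (nat_lit 196666) (nat_lit 13) (.e (nat_lit 65610) (nat_lit 10) (.e (nat_lit 344126) (nat_lit 25) (.e (nat_lit 548889) (nat_lit 9) (.e (nat_lit 65545) (nat_lit 0) (.e (nat_lit 6684) (nat_lit 357) .nil))))))) (.g (nat_lit 1) (.e (nat_lit 41288) (nat_lit 0) .nil) .nil))) 
(.lf (nat_lit 456215) (.g (nat_lit 3544) (.e (nat_lit 2668) (nat_lit 167) (.e (nat_lit 196666) (nat_lit 13) (.e (nat_lit 65610) (nat_lit 10) (.e (nat_lit 344117) (nat_lit 21) (.e (nat_lit 516097) (nat_lit 0) (.e (nat_lit 7071) (nat_lit 377) (.e (nat_lit 2442) (nat_lit 157) (.e (nat_lit 5627) (nat_lit 312) .nil)))))))) (.g (nat_lit 1) (.e (nat_lit 42526) (nat_lit 0) .nil) .nil)))) (.nd (nat_lit 9) 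
(.lf (nat_lit 455959) (.g (nat_lit 2550) (.e (nat_lit 2666) (nat_lit 167) (.e (nat_lit 196666) (nat_lit 13) (.e (nat_lit 65610) (nat_lit 10) (.e (nat_lit 344117) (nat_lit 21) (.e (nat_lit 516151) (nat_lit 9) (.e (nat_lit 426142) (nat_lit 4) (.e (nat_lit 229610) (nat_lit 215) (.e (nat_lit 2416) (nat_lit 157) .nil)))))))) (.g (nat_lit 1) (.e (nat_lit 41724) (nat_lit 0) .nil) .nil))) 
(.lf (nat_lit 456471) (.g (nat_lit 3896) (.e (nat_lit 2668) (nat_lit 167) (.e (nat_lit 196666) (nat_lit 13) (.e (nat_lit 65610) (nat_lit 10) (.e (nat_lit 344117) (nat_lit 21) (.e (nat_lit 516151) (nat_lit 9) (.e (nat_lit 426034) (nat_lit 0) (.e (nat_lit 3366) (nat_lit 208) (.e (nat_lit 622623) (nat_lit 13) .nil)))))))) (.g (nat_lit 1) (.e (nat_lit 42820) (nat_lit 0) .nil) .nil))))) 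
(.nd (nat_lit 8) (.nd (nat_lit 9) 
(.lf (nat_lit 455831) (.g (nat_lit 1773) (.e (nat_lit 2664) (nat_lit 167) (.e (nat_lit 196674) (nat_lit 15) (.e (nat_lit 81947) (nat_lit 20) (.e (nat_lit 1841) (nat_lit 123) (.e (nat_lit 548889) (nat_lit 9) (.e (nat_lit 65543) (nat_lit 0) (.e (nat_lit 6676) (nat_lit 357) .nil))))))) (.g (nat_lit 1) (.e (nat_lit 41454) (nat_lit 0) .nil) .nil))) 
(.lf (nat_lit 456343) (.g (nat_lit 2819) (.e (nat_lit 2668) (nat_lit 167) (.e (nat_lit 196666) (nat_lit 13) (.e (nat_lit 65610) (nat_lit 10) (.e (nat_lit 344117) (nat_lit 21) (.e (nat_lit 516139) (nat_lit 7) (.e (nat_lit 409608) (nat_lit 10) (.e (nat_lit 5628) (nat_lit 312) .nil))))))) (.g (nat_lit 1) (.e (nat_lit 42654) (nat_lit 0) .nil) .nil)))) (.nd (nat_lit 9) 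
(.lf (nat_lit 456087) (.g (nat_lit 1992) (.e (nat_lit 2667) (nat_lit 167) (.e (nat_lit 196670) (nat_lit 14) (.e (nat_lit 73753) (nat_lit 8) (.e (nat_lit 557103) (nat_lit 14) (.e (nat_lit 180250) (nat_lit 10) .nil))))) (.g (nat_lit 0) (.e (nat_lit 42035) (nat_lit 0) .nil) .nil))) 
(.lf (nat_lit 456599) (.g (nat_lit 2054) (.e (nat_lit 2668) (nat_lit 167) (.e (nat_lit 196666) (nat_lit 13) (.e (nat_lit 65610) (nat_lit 10) (.e (nat_lit 344125) (nat_lit 25) .nil)))) (.g (nat_lit 0) (.e (nat_lit 42969) (nat_lit 0) .nil) .nil)))))) (.nd (nat_lit 7) (.nd (nat_lit 8) (.nd (nat_lit 9) 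
(.lf (nat_lit 455767) (.g (nat_lit 2658) (.e (nat_lit 2664) (nat_lit 167) (.e (nat_lit 196666) (nat_lit 13) (.e (nat_lit 65630) (nat_lit 14) (.e (nat_lit 401428) (nat_lit 3) (.e (nat_lit 204862) (nat_lit 27) (.e (nat_lit 344069) (nat_lit 0) .nil)))))) (.g (nat_lit 1) (.e (nat_lit 41378) (nat_lit 0) .nil) .nil))) 
(.lf (nat_lit 456279) (.g (nat_lit 3843) (.e (nat_lit 2668) (nat_lit 167) (.e (nat_lit 196666) (nat_lit 13) (.e (nat_lit 65610) (nat_lit 10) (.e (nat_lit 344117) (nat_lit 21) (.e (nat_lit 516106) (nat_lit 0) (.e (nat_lit 7008) (nat_lit 377) (.e (nat_lit 2422) (nat_lit 157) (.e (nat_lit 5613) (nat_lit 312) .nil)))))))) (.g (nat_lit 1) (.e (nat_lit 42590) (nat_lit 0) .nil) .nil)))) (.nd (nat_lit 9) 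
(.lf (nat_lit 456023) (.g (nat_lit 2091) (.e (nat_lit 2667) (nat_lit 167) (.e (nat_lit 196667) (nat_lit 14) (.e (nat_lit 73755) (nat_lit 8) (.e (nat_lit 557105) (nat_lit 14) (.e (nat_lit 180252) (nat_lit 10) (.e (nat_lit 573474) (nat_lit 12) (.e (nat_lit 57508) (nat_lit 39) (.e (nat_lit 655104) (nat_lit 0) .nil)))))))) (.g (nat_lit 1) (.e (nat_lit 41900) (nat_lit 0) .nil) .nil))) 
(.lf (nat_lit 456535) (.g (nat_lit 2741) (.e (nat_lit 2668) (nat_lit 167) (.e (nat_lit 196666) (nat_lit 13) (.e (nat_lit 65610) (nat_lit 10) (.e (nat_lit 344117) (nat_lit 21) (.e (nat_lit 516151) (nat_lit 9) (.e (nat_lit 426043) (nat_lit 0) (.e (nat_lit 7936) (nat_lit 208) (.e (nat_lit 622620) (nat_lit 13) .nil)))))))) (.g (nat_lit 1) (.e (nat_lit 42884) (nat_lit 0) .nil) .nil))))) 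
(.nd (nat_lit 8) (.nd (nat_lit 9) 
(.lf (nat_lit 455895) (.g (nat_lit 5626) (.e (nat_lit 2666) (nat_lit 167) (.e (nat_lit 196666) (nat_lit 13) (.e (nat_lit 65610) (nat_lit 10) (.e (nat_lit 344117) (nat_lit 21) (.e (nat_lit 516139) (nat_lit 7) (.e (nat_lit 409616) (nat_lit 10) (.e (nat_lit 7936) (nat_lit 312) .nil))))))) (.g (nat_lit 1) (.e (nat_lit 41658) (nat_lit 0) .nil) .nil))) 
(.lf (nat_lit 456407) (.g (nat_lit 2304) (.e (nat_lit 2668) (nat_lit 167) (.e (nat_lit 196666) (nat_lit 13) (.e (nat_lit 65610) (nat_lit 10) (.e (nat_lit 344117) (nat_lit 21) (.e (nat_lit 516142) (nat_lit 8) (.e (nat_lit 417819) (nat_lit 10) (.e (nat_lit 7936) (nat_lit 312) .nil))))))) (.g (nat_lit 1) (.e (nat_lit 42718) (nat_lit 0) .nil) .nil)))) (.nd (nat_lit 9) 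
(.lf (nat_lit 456151) (.g (nat_lit 4293) (.e (nat_lit 2667) (nat_lit 167) (.e (nat_lit 196670) (nat_lit 14) (.e (nat_lit 73754) (nat_lit 8) (.e (nat_lit 557105) (nat_lit 14) (.e (nat_lit 180252) (nat_lit 10) (.e (nat_lit 573475) (nat_lit 12) (.e (nat_lit 57509) (nat_lit 39) (.e (nat_lit 655104) (nat_lit 0) .nil)))))))) (.g (nat_lit 1) (.e (nat_lit 42099) (nat_lit 0) .nil) .nil))) 
(.lf (nat_lit 456663) (.g (nat_lit 3426) (.e (nat_lit 2668) (nat_lit 167) (.e (nat_lit 196666) (nat_lit 13) (.e (nat_lit 65617) (nat_lit 10) (.e (nat_lit 344130) (nat_lit 26) (.e (nat_lit 557087) (nat_lit 11) (.e (nat_lit 24588) (nat_lit 0) (.e (nat_lit 7936) (nat_lit 357) .nil))))))) (.g (nat_lit 1) (.e (nat_lit 43101) (nat_lit 0) .nil) .nil))))))) 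
(.nd (nat_lit 6) (.nd (nat_lit 7) (.nd (nat_lit 8) (.nd (nat_lit 9) 
(.lf (nat_lit 455735) (.g (nat_lit 4072) (.e (nat_lit 2664) (nat_lit 167) (.e (nat_lit 196666) (nat_lit 13) (.e (nat_lit 65617) (nat_lit 10) (.e (nat_lit 344130) (nat_lit 26) (.e (nat_lit 557087) (nat_lit 11) (.e (nat_lit 24584) (nat_lit 0) (.e (nat_lit 6666) (nat_lit 357) .nil))))))) (.g (nat_lit 1) (.e (nat_lit 41337) (nat_lit 0) .nil) .nil))) 
(.lf (nat_lit 456247) (.g (nat_lit 3333) (.e (nat_lit 2668) (nat_lit 167) (.e (nat_lit 196666) (nat_lit 13) (.e (nat_lit 65610) (nat_lit 10) (.e (nat_lit 344117) (nat_lit 21) (.e (nat_lit 516099) (nat_lit 0) (.e (nat_lit 7936) (nat_lit 377) (.e (nat_lit 2509) (nat_lit 157) (.e (nat_lit 5626) (nat_lit 312) .nil)))))))) (.g (nat_lit 1) (.e (nat_lit 42558) (nat_lit 0) .nil) .nil)))) (.nd (nat_lit 9) 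
(.lf (nat_lit 455991) (.g (nat_lit 2533) (.e (nat_lit 2666) (nat_lit 167) (.e (nat_lit 196666) (nat_lit 13) (.e (nat_lit 65617) (nat_lit 10) (.e (nat_lit 344133) (nat_lit 26) .nil)))) (.g (nat_lit 0) (.e (nat_lit 41804) (nat_lit 0) .nil) .nil))) 
(.lf (nat_lit 456503) (.g (nat_lit 4234) (.e (nat_lit 2668) (nat_lit 167) (.e (nat_lit 196666) (nat_lit 13) (.e (nat_lit 65610) (nat_lit 10) (.e (nat_lit 344117) (nat_lit 21) (.e (nat_lit 516151) (nat_lit 9) (.e (nat_lit 426040) (nat_lit 0) (.e (nat_lit 3366) (nat_lit 208) (.e (nat_lit 622624) (nat_lit 13) .nil)))))))) (.g (nat_lit 1) (.e (nat_lit 42852) (nat_lit 0) .nil) .nil))))) 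
(.nd (nat_lit 8) (.nd (nat_lit 9) 
(.lf (nat_lit 455863) (.g (nat_lit 3302) (.e (nat_lit 2666) (nat_lit 167) (.e (nat_lit 196666) (nat_lit 13) (.e (nat_lit 65569) (nat_lit 3) (.e (nat_lit 98333) (nat_lit 18) (.e (nat_lit 164183) (nat_lit 154) (.e (nat_lit 57379) (nat_lit 3) (.e (nat_lit 98338) (nat_lit 19) (.e (nat_lit 213013) (nat_lit 9) .nil)))))))) (.g (nat_lit 1) (.e (nat_lit 41543) (nat_lit 0) .nil) .nil))) 
(.lf (nat_lit 456375) (.g (nat_lit 4897) (.e (nat_lit 2668) (nat_lit 167) (.e (nat_lit 196666) (nat_lit 13) (.e (nat_lit 65610) (nat_lit 10) (.e (nat_lit 344117) (nat_lit 21) (.e (nat_lit 516140) (nat_lit 8) (.e (nat_lit 417820) (nat_lit 10) (.e (nat_lit 5626) (nat_lit 312) .nil))))))) (.g (nat_lit 1) (.e (nat_lit 42686) (nat_lit 0) .nil) .nil)))) (.nd (nat_lit 9) 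
(.lf (nat_lit 456119) (.g (nat_lit 4501) (.e (nat_lit 2667) (nat_lit 167) (.e (nat_lit 196670) (nat_lit 14) (.e (nat_lit 73753) (nat_lit 8) (.e (nat_lit 557105) (nat_lit 14) (.e (nat_lit 180252) (nat_lit 10) (.e (nat_lit 573474) (nat_lit 12) (.e (nat_lit 57508) (nat_lit 39) (.e (nat_lit 655104) (nat_lit 0) .nil)))))))) (.g (nat_lit 1) (.e (nat_lit 42067) (nat_lit 0) .nil) .nil))) 
(.lf (nat_lit 456631) (.g (nat_lit 4794) (.e (nat_lit 2668) (nat_lit 167) (.e (nat_lit 196666) (nat_lit 13) (.e (nat_lit 65617) (nat_lit 10) (.e (nat_lit 344117) (nat_lit 21) (.e (nat_lit 516139) (nat_lit 7) (.e (nat_lit 409617) (nat_lit 10) (.e (nat_lit 5627) (nat_lit 312) .nil))))))) (.g (nat_lit 1) (.e (nat_lit 43039) (nat_lit 0) .nil) .nil)))))) 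
(.nd (nat_lit 7) (.nd (nat_lit 8) (.nd (nat_lit 9) 
(.lf (nat_lit 455799) (.g (nat_lit 2344) (.e (nat_lit 2664) (nat_lit 167) (.e (nat_lit 196672) (nat_lit 15) (.e (nat_lit 81954) (nat_lit 23) (.e (nat_lit 98325) (nat_lit 17) (.e (nat_lit 7095) (nat_lit 380) (.e (nat_lit 164365) (nat_lit 246) .nil)))))) (.g (nat_lit 1) (.e (nat_lit 41420) (nat_lit 0) .nil) .nil))) 
(.lf (nat_lit 456311) (.g (nat_lit 1938) (.e (nat_lit 2668) (nat_lit 167) (.e (nat_lit 196666) (nat_lit 13) (.e (nat_lit 65610) (nat_lit 10) (.e (nat_lit 344117) (nat_lit 21) (.e (nat_lit 516138) (nat_lit 7) (.e (nat_lit 409609) (nat_lit 10) (.e (nat_lit 5612) (nat_lit 312) .nil))))))) (.g (nat_lit 1) (.e (nat_lit 42622) (nat_lit 0) .nil) .nil)))) (.nd (nat_lit 9) 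
(.lf (nat_lit 456055) (.g (nat_lit 2920) (.e (nat_lit 2667) (nat_lit 167) (.e (nat_lit 196668) (nat_lit 14) (.e (nat_lit 73753) (nat_lit 8) (.e (nat_lit 557105) (nat_lit 14) (.e (nat_lit 180252) (nat_lit 10) (.e (nat_lit 573473) (nat_lit 12) (.e (nat_lit 57506) (nat_lit 39) (.e (nat_lit 655104) (nat_lit 0) .nil)))))))) (.g (nat_lit 1) (.e (nat_lit 41959) (nat_lit 0) .nil) .nil))) 
(.lf (nat_lit 456567) (.g (nat_lit 3039) (.e (nat_lit 2668) (nat_lit 167) (.e (nat_lit 196666) (nat_lit 13) (.e (nat_lit 65610) (nat_lit 10) (.e (nat_lit 344117) (nat_lit 21) (.e (nat_lit 516159) (nat_lit 10) (.e (nat_lit 434203) (nat_lit 18) (.e (nat_lit 4778) (nat_lit 281) (.e (nat_lit 2444) (nat_lit 157) .nil)))))))) (.g (nat_lit 1) (.e (nat_lit 42918) (nat_lit 0) .nil) .nil))))) 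
(.nd (nat_lit 8) (.nd (nat_lit 9) 
(.lf (nat_lit 455927) (.g (nat_lit 3584) (.e (nat_lit 2666) (nat_lit 167) (.e (nat_lit 196666) (nat_lit 13) (.e (nat_lit 65610) (nat_lit 10) (.e (nat_lit 344117) (nat_lit 21) (.e (nat_lit 516151) (nat_lit 9) (.e (nat_lit 426022) (nat_lit 0) (.e (nat_lit 7936) (nat_lit 208) (.e (nat_lit 622620) (nat_lit 13) .nil)))))))) (.g (nat_lit 1) (.e (nat_lit 41692) (nat_lit 0) .nil) .nil))) 
(.lf (nat_lit 456439) (.g (nat_lit 3983) (.e (nat_lit 2668) (nat_lit 167) (.e (nat_lit 196666) (nat_lit 13) (.e (nat_lit 65610) (nat_lit 10) (.e (nat_lit 344117) (nat_lit 21) (.e (nat_lit 516151) (nat_lit 9) (.e (nat_lit 426020) (nat_lit 0) (.e (nat_lit 3368) (nat_lit 208) (.e (nat_lit 622620) (nat_lit 13) .nil)))))))) (.g (nat_lit 1) (.e (nat_lit 42788) (nat_lit 0) .nil) .nil)))) 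
(.nd (nat_lit 9) 
(.lf (nat_lit 456183) (.g (nat_lit 4021) (.e (nat_lit 2668) (nat_lit 167) (.e (nat_lit 196656) (nat_lit 11) (.e (nat_lit 16465) (nat_lit 13) (.e (nat_lit 483341) (nat_lit 9) (.e (nat_lit 426108) (nat_lit 1) (.e (nat_lit 164305) (nat_lit 226) (.e (nat_lit 2433) (nat_lit 157) .nil))))))) (.g (nat_lit 1) (.e (nat_lit 42444) (nat_lit 0) .nil) .nil))) 
(.lf (nat_lit 456695) (.g (nat_lit 2620) (.e (nat_lit 2668) (nat_lit 167) (.e (nat_lit 196666) (nat_lit 13) (.e (nat_lit 65617) (nat_lit 10) (.e (nat_lit 344133) (nat_lit 26) (.e (nat_lit 557091) (nat_lit 12) (.e (nat_lit 163844) (nat_lit 0) (.e (nat_lit 6420) (nat_lit 341) (.e (nat_lit 163843) (nat_lit 0) (.e (nat_lit 7936) (nat_lit 388) .nil))))))))) (.g (nat_lit 1) (.e (nat_lit 43158) (nat_lit 0) .nil) .nil))))))))) 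
(.nd (nat_lit 4) (.nd (nat_lit 5) (.nd (nat_lit 6) (.nd (nat_lit 7) (.nd (nat_lit 8) 
(.nd (nat_lit 9) 
(.lf (nat_lit 455695) (.g (nat_lit 2110) (.e (nat_lit 2664) (nat_lit 167) (.e (nat_lit 196666) (nat_lit 13) (.e (nat_lit 65610) (nat_lit 10) (.e (nat_lit 344124) (nat_lit 25) .nil)))) (.g (nat_lit 0) (.e (nat_lit 41277) (nat_lit 0) .nil) .nil))) 
(.lf (nat_lit 456207) (.g (nat_lit 2226) (.e (nat_lit 2668) (nat_lit 167) (.e (nat_lit 196666) (nat_lit 13) (.e (nat_lit 65610) (nat_lit 10) (.e (nat_lit 344117) (nat_lit 21) (.e (nat_lit 516096) (nat_lit 0) (.e (nat_lit 7107) (nat_lit 380) (.e (nat_lit 164351) (nat_lit 246) .nil))))))) (.g (nat_lit 1) (.e (nat_lit 42518) (nat_lit 0) .nil) .nil)))) (.nd (nat_lit 9) 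
(.lf (nat_lit 455951) (.g (nat_lit 2443) (.e (nat_lit 2666) (nat_lit 167) (.e (nat_lit 196666) (nat_lit 13) (.e (nat_lit 65610) (nat_lit 10) (.e (nat_lit 344117) (nat_lit 21) (.e (nat_lit 516151) (nat_lit 9) (.e (nat_lit 433920) (nat_lit 0) (.e (nat_lit 3368) (nat_lit 208) (.e (nat_lit 630528) (nat_lit 13) .nil)))))))) (.g (nat_lit 1) (.e (nat_lit 41716) (nat_lit 0) .nil) .nil))) 
(.lf (nat_lit 456463) (.g (nat_lit 2147) (.e (nat_lit 2668) (nat_lit 167) (.e (nat_lit 196666) (nat_lit 13) (.e (nat_lit 65610) (nat_lit 10) (.e (nat_lit 344117) (nat_lit 21) (.e (nat_lit 516151) (nat_lit 9) (.e (nat_lit 426023) (nat_lit 0) (.e (nat_lit 2403) (nat_lit 157) (.e (nat_lit 4761) (nat_lit 281) (.e (nat_lit 2433) (nat_lit 157) .nil))))))))) (.g (nat_lit 1) (.e (nat_lit 42812) (nat_lit 0) .nil) .nil))))) 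
(.nd (nat_lit 8) (.nd (nat_lit 9) 
(.lf (nat_lit 455823) (.g (nat_lit 2282) (.e (nat_lit 2664) (nat_lit 167) (.e (nat_lit 196674) (nat_lit 15) (.e (nat_lit 81946) (nat_lit 20) (.e (nat_lit 1841) (nat_lit 123) (.e (nat_lit 548889) (nat_lit 9) (.e (nat_lit 65543) (nat_lit 0) (.e (nat_lit 6676) (nat_lit 357) .nil))))))) (.g (nat_lit 1) (.e (nat_lit 41446) (nat_lit 0) .nil) .nil))) 
(.lf (nat_lit 456335) (.g (nat_lit 3992) (.e (nat_lit 2668) (nat_lit 167) (.e (nat_lit 196666) (nat_lit 13) (.e (nat_lit 65610) (nat_lit 10) (.e (nat_lit 344117) (nat_lit 21) (.e (nat_lit 516138) (nat_lit 7) (.e (nat_lit 409617) (nat_lit 10) (.e (nat_lit 7936) (nat_lit 312) .nil))))))) (.g (nat_lit 1) (.e (nat_lit 42646) (nat_lit 0) .nil) .nil)))) (.nd (nat_lit 9) 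
(.lf (nat_lit 456079) (.g (nat_lit 1967) (.e (nat_lit 2667) (nat_lit 167) (.e (nat_lit 196670) (nat_lit 14) (.e (nat_lit 73746) (nat_lit 3) (.e (nat_lit 516129) (nat_lit 3) (.e (nat_lit 221210) (nat_lit 22) (.e (nat_lit 196658) (nat_lit 12) (.e (nat_lit 57507) (nat_lit 39) (.e (nat_lit 655104) (nat_lit 0) .nil)))))))) (.g (nat_lit 1) (.e (nat_lit 42026) (nat_lit 0) .nil) .nil))) 
(.lf (nat_lit 456591) (.g (nat_lit 3254) (.e (nat_lit 2668) (nat_lit 167) (.e (nat_lit 196666) (nat_lit 13) (.e (nat_lit 65610) (nat_lit 10) (.e (nat_lit 344117) (nat_lit 21) (.e (nat_lit 516160) (nat_lit 10) (.e (nat_lit 434264) (nat_lit 34) (.e (nat_lit 622620) (nat_lit 13) .nil))))))) (.g (nat_lit 1) (.e (nat_lit 42942) (nat_lit 0) .nil) .nil)))))) 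
(.nd (nat_lit 7) (.nd (nat_lit 8) (.nd (nat_lit 9) 
(.lf (nat_lit 455759) (.g (nat_lit 1573) (.e (nat_lit 2664) (nat_lit 167) (.e (nat_lit 196666) (nat_lit 13) (.e (nat_lit 65630) (nat_lit 14) (.e (nat_lit 401412) (nat_lit 0) .nil)))) (.g (nat_lit 0) (.e (nat_lit 41367) (nat_lit 0) .nil) .nil))) 
(.lf (nat_lit 456271) (.g (nat_lit 3246) (.e (nat_lit 2668) (nat_lit 167) (.e (nat_lit 196666) (nat_lit 13) (.e (nat_lit 65610) (nat_lit 10) (.e (nat_lit 344117) (nat_lit 21) (.e (nat_lit 516106) (nat_lit 0) (.e (nat_lit 6986) (nat_lit 377) (.e (nat_lit 2484) (nat_lit 157) (.e (nat_lit 5612) (nat_lit 312) .nil)))))))) (.g (nat_lit 1) (.e (nat_lit 42582) (nat_lit 0) .nil) .nil)))) (.nd (nat_lit 9) 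
(.lf (nat_lit 456015) (.g (nat_lit 995) (.e (nat_lit 2667) (nat_lit 167) (.e (nat_lit 196656) (nat_lit 11) (.e (nat_lit 16448) (nat_lit 10) .nil))) (.g (nat_lit 0) (.e (nat_lit 41883) (nat_lit 0) .nil) .nil))) 
(.lf (nat_lit 456527) (.g (nat_lit 3961) (.e (nat_lit 2668) (nat_lit 167) (.e (nat_lit 196666) (nat_lit 13) (.e (nat_lit 65610) (nat_lit 10) (.e (nat_lit 344117) (nat_lit 21) (.e (nat_lit 516151) (nat_lit 9) (.e (nat_lit 426045) (nat_lit 0) (.e (nat_lit 3366) (nat_lit 208) (.e (nat_lit 622624) (nat_lit 13) .nil)))))))) (.g (nat_lit 1) (.e (nat_lit 42876) (nat_lit 0) .nil) .nil))))) 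
(.nd (nat_lit 8) (.nd (nat_lit 9) 
(.lf (nat_lit 455887) (.g (nat_lit 3894) (.e (nat_lit 2666) (nat_lit 167) (.e (nat_lit 196666) (nat_lit 13) (.e (nat_lit 65610) (nat_lit 10) (.e (nat_lit 344117) (nat_lit 21) (.e (nat_lit 516106) (nat_lit 0) (.e (nat_lit 7008) (nat_lit 377) (.e (nat_lit 2422) (nat_lit 157) (.e (nat_lit 5735) (nat_lit 312) .nil)))))))) (.g (nat_lit 1) (.e (nat_lit 41650) (nat_lit 0) .nil) .nil))) 
(.lf (nat_lit 456399) (.g (nat_lit 4752) (.e (nat_lit 2668) (nat_lit 167) (.e (nat_lit 196666) (nat_lit 13) (.e (nat_lit 65610) (nat_lit 10) (.e (nat_lit 344117) (nat_lit 21) (.e (nat_lit 516142) (nat_lit 8) (.e (nat_lit 417815) (nat_lit 10) (.e (nat_lit 5627) (nat_lit 312) .nil))))))) (.g (nat_lit 1) (.e (nat_lit 42710) (nat_lit 0) .nil) .nil)))) (.nd (nat_lit 9) 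
(.lf (nat_lit 456143) (.g (nat_lit 2734) (.e (nat_lit 2667) (nat_lit 167) (.e (nat_lit 196670) (nat_lit 14) (.e (nat_lit 73754) (nat_lit 8) (.e (nat_lit 557105) (nat_lit 14) (.e (nat_lit 180252) (nat_lit 10) (.e (nat_lit 573475) (nat_lit 12) (.e (nat_lit 57506) (nat_lit 39) (.e (nat_lit 647176) (nat_lit 0) .nil)))))))) (.g (nat_lit 1) (.e (nat_lit 42091) (nat_lit 0) .nil) .nil))) 
(.lf (nat_lit 456655) (.g (nat_lit 1570) (.e (nat_lit 2668) (nat_lit 167) (.e (nat_lit 196666) (nat_lit 13) (.e (nat_lit 65617) (nat_lit 10) (.e (nat_lit 344130) (nat_lit 26) (.e (nat_lit 557087) (nat_lit 11) .nil))))) (.g (nat_lit 0) (.e (nat_lit 43093) (nat_lit 0) .nil) .nil))))))) (.nd (nat_lit 6) (.nd (nat_lit 7) (.nd (nat_lit 8) (.nd (nat_lit 9) 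
(.lf (nat_lit 455727) (.g (nat_lit 743) (.e (nat_lit 2664) (nat_lit 167) (.e (nat_lit 196666) (nat_lit 13) (.e (nat_lit 65617) (nat_lit 10) (.e (nat_lit 344127) (nat_lit 26) .nil)))) (.g (nat_lit 0) (.e (nat_lit 41329) (nat_lit 0) .nil) .nil))) 
(.lf (nat_lit 456239) (.g (nat_lit 3624) (.e (nat_lit 2668) (nat_lit 167) (.e (nat_lit 196666) (nat_lit 13) (.e (nat_lit 65610) (nat_lit 10) (.e (nat_lit 344117) (nat_lit 21) (.e (nat_lit 516098) (nat_lit 0) (.e (nat_lit 7111) (nat_lit 381) (.e (nat_lit 229683) (nat_lit 246) .nil))))))) (.g (nat_lit 1) (.e (nat_lit 42550) (nat_lit 0) .nil) .nil)))) (.nd (nat_lit 9) 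
(.lf (nat_lit 455983) (.g (nat_lit 4508) (.e (nat_lit 2666) (nat_lit 167) (.e (nat_lit 196666) (nat_lit 13) (.e (nat_lit 65610) (nat_lit 10) (.e (nat_lit 344133) (nat_lit 26) (.e (nat_lit 557087) (nat_lit 11) .nil))))) (.g (nat_lit 0) (.e (nat_lit 41790) (nat_lit 0) .nil) .nil))) 
(.lf (nat_lit 456495) (.g (nat_lit 4302) (.e (nat_lit 2668) (nat_lit 167) (.e (nat_lit 196666) (nat_lit 13) (.e (nat_lit 65610) (nat_lit 10) (.e (nat_lit 344117) (nat_lit 21) (.e (nat_lit 516151) (nat_lit 9) (.e (nat_lit 426038) (nat_lit 0) (.e (nat_lit 3370) (nat_lit 208) (.e (nat_lit 622622) (nat_lit 13) .nil)))))))) (.g (nat_lit 1) (.e (nat_lit 42844) (nat_lit 0) .nil) .nil))))) 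
(.nd (nat_lit 8) (.nd (nat_lit 9) 
(.lf (nat_lit 455855) (.g (nat_lit 3095) (.e (nat_lit 2666) (nat_lit 167) (.e (nat_lit 196656) (nat_lit 11) (.e (nat_lit 16436) (nat_lit 9) (.e (nat_lit 426131) (nat_lit 3) (.e (nat_lit 204880) (nat_lit 32) (.e (nat_lit 385096) (nat_lit 49) (.e (nat_lit 778353) (nat_lit 9) .nil))))))) (.g (nat_lit 1) (.e (nat_lit 41526) (nat_lit 0) .nil) .nil))) 
(.lf (nat_lit 456367) (.g (nat_lit 4804) (.e (nat_lit 2668) (nat_lit 167) (.e (nat_lit 196666) (nat_lit 13) (.e (nat_lit 65610) (nat_lit 10) (.e (nat_lit 344117) (nat_lit 21) (.e (nat_lit 516139) (nat_lit 7) (.e (nat_lit 409617) (nat_lit 10) (.e (nat_lit 5616) (nat_lit 312) .nil))))))) (.g (nat_lit 1) (.e (nat_lit 42678) (nat_lit 0) .nil) .nil)))) (.nd (nat_lit 9) 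
(.lf (nat_lit 456111) (.g (nat_lit 3997) (.e (nat_lit 2667) (nat_lit 167) (.e (nat_lit 196670) (nat_lit 14) (.e (nat_lit 73753) (nat_lit 8) (.e (nat_lit 557105) (nat_lit 14) (.e (nat_lit 180252) (nat_lit 10) (.e (nat_lit 573473) (nat_lit 12) (.e (nat_lit 57511) (nat_lit 39) (.e (nat_lit 655104) (nat_lit 0) .nil)))))))) (.g (nat_lit 1) (.e (nat_lit 42059) (nat_lit 0) .nil) .nil))) 
(.lf (nat_lit 456623) (.g (nat_lit 1569) (.e (nat_lit 2668) (nat_lit 167) (.e (nat_lit 196666) (nat_lit 13) (.e (nat_lit 65617) (nat_lit 10) (.e (nat_lit 344089) (nat_lit 18) .nil)))) (.g (nat_lit 0) (.e (nat_lit 43023) (nat_lit 0) .nil) .nil)))))) (.nd (nat_lit 7) (.nd (nat_lit 8) (.nd (nat_lit 9) 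
(.lf (nat_lit 455791) (.g (nat_lit 731) (.e (nat_lit 2664) (nat_lit 167) (.e (nat_lit 196672) (nat_lit 15) (.e (nat_lit 81946) (nat_lit 20) .nil))) (.g (nat_lit 0) (.e (nat_lit 41407) (nat_lit 0) .nil) .nil))) 
(.lf (nat_lit 456303) (.g (nat_lit 2380) (.e (nat_lit 2668) (nat_lit 167) (.e (nat_lit 196666) (nat_lit 13) (.e (nat_lit 65610) (nat_lit 10) (.e (nat_lit 344117) (nat_lit 21) (.e (nat_lit 516106) (nat_lit 0) (.e (nat_lit 7936) (nat_lit 377) (.e (nat_lit 2442) (nat_lit 157) (.e (nat_lit 5627) (nat_lit 312) .nil)))))))) (.g (nat_lit 1) (.e (nat_lit 42614) (nat_lit 0) .nil) .nil)))) (.nd (nat_lit 9) 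
(.lf (nat_lit 456047) (.g (nat_lit 2956) (.e (nat_lit 2667) (nat_lit 167) (.e (nat_lit 196668) (nat_lit 14) (.e (nat_lit 73753) (nat_lit 8) (.e (nat_lit 557103) (nat_lit 14) (.e (nat_lit 180250) (nat_lit 10) (.e (nat_lit 573476) (nat_lit 12) (.e (nat_lit 57511) (nat_lit 39) (.e (nat_lit 655104) (nat_lit 0) .nil)))))))) (.g (nat_lit 1) (.e (nat_lit 41951) (nat_lit 0) .nil) .nil))) 
(.lf (nat_lit 456559) (.g (nat_lit 2489) (.e (nat_lit 2668) (nat_lit 167) (.e (nat_lit 196666) (nat_lit 13) (.e (nat_lit 65610) (nat_lit 10) (.e (nat_lit 344117) (nat_lit 21) (.e (nat_lit 516151) (nat_lit 9) (.e (nat_lit 426142) (nat_lit 4) (.e (nat_lit 237312) (nat_lit 215) (.e (nat_lit 2433) (nat_lit 157) .nil)))))))) (.g (nat_lit 1) (.e (nat_lit 42908) (nat_lit 0) .nil) .nil))))) 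
(.nd (nat_lit 8) (.nd (nat_lit 9) 
(.lf (nat_lit 455919) (.g (nat_lit 2557) (.e (nat_lit 2666) (nat_lit 167) (.e (nat_lit 196666) (nat_lit 13) (.e (nat_lit 65610) (nat_lit 10) (.e (nat_lit 344117) (nat_lit 21) (.e (nat_lit 516151) (nat_lit 9) (.e (nat_lit 426022) (nat_lit 0) (.e (nat_lit 2400) (nat_lit 157) (.e (nat_lit 4761) (nat_lit 281) (.e (nat_lit 2463) (nat_lit 157) .nil))))))))) (.g (nat_lit 1) (.e (nat_lit 41684) (nat_lit 0) .nil) .nil))) 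
(.lf (nat_lit 456431) (.g (nat_lit 4437) (.e (nat_lit 2668) (nat_lit 167) (.e (nat_lit 196666) (nat_lit 13) (.e (nat_lit 65610) (nat_lit 10) (.e (nat_lit 344117) (nat_lit 21) (.e (nat_lit 516151) (nat_lit 9) (.e (nat_lit 426017) (nat_lit 0) (.e (nat_lit 3372) (nat_lit 208) (.e (nat_lit 622624) (nat_lit 13) .nil)))))))) (.g (nat_lit 1) (.e (nat_lit 42780) (nat_lit 0) .nil) .nil)))) 
(.nd (nat_lit 9) 
(.lf (nat_lit 456175) (.g (nat_lit 2431) (.e (nat_lit 2667) (nat_lit 167) (.e (nat_lit 196673) (nat_lit 15) (.e (nat_lit 81956) (nat_lit 23) (.e (nat_lit 98350) (nat_lit 24) .nil)))) (.g (nat_lit 0) (.e (nat_lit 42308) (nat_lit 0) .nil) .nil))) 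
(.lf (nat_lit 456687) (.g (nat_lit 2938) (.e (nat_lit 2668) (nat_lit 167) (.e (nat_lit 196666) (nat_lit 13) (.e (nat_lit 65617) (nat_lit 10) (.e (nat_lit 344133) (nat_lit 26) (.e (nat_lit 557085) (nat_lit 11) (.e (nat_lit 24579) (nat_lit 0) (.e (nat_lit 6619) (nat_lit 357) .nil))))))) (.g (nat_lit 1) (.e (nat_lit 43150) (nat_lit 0) .nil) .nil)))))))) 
(.nd (nat_lit 5) (.nd (nat_lit 6) (.nd (nat_lit 7) (.nd (nat_lit 8) (.nd (nat_lit 9) 
(.lf (nat_lit 455711) (.g (nat_lit 3417) (.e (nat_lit 2664) (nat_lit 167) (.e (nat_lit 196666) (nat_lit 13) (.e (nat_lit 65610) (nat_lit 10) (.e (nat_lit 344129) (nat_lit 26) (.e (nat_lit 557087) (nat_lit 11) (.e (nat_lit 24584) (nat_lit 0) (.e (nat_lit 7936) (nat_lit 357) .nil))))))) (.g (nat_lit 1) (.e (nat_lit 41297) (nat_lit 0) .nil) .nil))) 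
(.lf (nat_lit 456223) (.g (nat_lit 2893) (.e (nat_lit 2668) (nat_lit 167) (.e (nat_lit 196666) (nat_lit 13) (.e (nat_lit 65610) (nat_lit 10) (.e (nat_lit 344117) (nat_lit 21) (.e (nat_lit 516098) (nat_lit 0) (.e (nat_lit 6961) (nat_lit 377) (.e (nat_lit 2500) (nat_lit 157) (.e (nat_lit 5626) (nat_lit 312) .nil)))))))) (.g (nat_lit 1) (.e (nat_lit 42534) (nat_lit 0) .nil) .nil)))) (.nd (nat_lit 9) 
(.lf (nat_lit 455967) (.g (nat_lit 3256) (.e (nat_lit 2666) (nat_lit 167) (.e (nat_lit 196666) (nat_lit 13) (.e (nat_lit 65610) (nat_lit 10) (.e (nat_lit 344117) (nat_lit 21) (.e (nat_lit 516185) (nat_lit 16) .nil))))) (.g (nat_lit 0) (.e (nat_lit 41756) (nat_lit 0) .nil) .nil))) 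
(.lf (nat_lit 456479) (.g (nat_lit 4157) (.e (nat_lit 2668) (nat_lit 167) (.e (nat_lit 196666) (nat_lit 13) (.e (nat_lit 65610) (nat_lit 10) (.e (nat_lit 344117) (nat_lit 21) (.e (nat_lit 516151) (nat_lit 9) (.e (nat_lit 426037) (nat_lit 0) (.e (nat_lit 3366) (nat_lit 208) (.e (nat_lit 622624) (nat_lit 13) .nil)))))))) (.g (nat_lit 1) (.e (nat_lit 42828) (nat_lit 0) .nil) .nil))))) 
(.nd (nat_lit 8) (.nd (nat_lit 9) 
(.lf (nat_lit 455839) (.g (nat_lit 1936) (.e (nat_lit 2665) (nat_lit 167) (.e (nat_lit 196666) (nat_lit 13) (.e (nat_lit 65610) (nat_lit 10) (.e (nat_lit 344117) (nat_lit 21) .nil)))) (.g (nat_lit 0) (.e (nat_lit 41500) (nat_lit 0) .nil) .nil))) 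
(.lf (nat_lit 456351) (.g (nat_lit 3608) (.e (nat_lit 2668) (nat_lit 167) (.e (nat_lit 196666) (nat_lit 13) (.e (nat_lit 65610) (nat_lit 10) (.e (nat_lit 344117) (nat_lit 21) (.e (nat_lit 516139) (nat_lit 7) (.e (nat_lit 409611) (nat_lit 10) (.e (nat_lit 5616) (nat_lit 312) .nil))))))) (.g (nat_lit 1) (.e (nat_lit 42662) (nat_lit 0) .nil) .nil)))) (.nd (nat_lit 9) 
(.lf (nat_lit 456095) (.g (nat_lit 2533) (.e (nat_lit 2667) (nat_lit 167) (.e (nat_lit 196670) (nat_lit 14) (.e (nat_lit 73753) (nat_lit 8) (.e (nat_lit 557103) (nat_lit 14) (.e (nat_lit 180250) (nat_lit 10) (.e (nat_lit 573475) (nat_lit 12) (.e (nat_lit 57506) (nat_lit 39) (.e (nat_lit 647175) (nat_lit 0) .nil)))))))) (.g (nat_lit 1) (.e (nat_lit 42043) (nat_lit 0) .nil) .nil))) 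
(.lf (nat_lit 456607) (.g (nat_lit 3144) (.e (nat_lit 2668) (nat_lit 167) (.e (nat_lit 196666) (nat_lit 13) (.e (nat_lit 65610) (nat_lit 10) (.e (nat_lit 344129) (nat_lit 26) (.e (nat_lit 557086) (nat_lit 11) (.e (nat_lit 24579) (nat_lit 0) (.e (nat_lit 6619) (nat_lit 357) .nil))))))) (.g (nat_lit 1) (.e (nat_lit 43006) (nat_lit 0) .nil) .nil)))))) 
(.nd (nat_lit 7) (.nd (nat_lit 8) (.nd (nat_lit 9) 
(.lf (nat_lit 455775) (.g (nat_lit 2377) (.e (nat_lit 2664) (nat_lit 167) (.e (nat_lit 196672) (nat_lit 15) (.e (nat_lit 81922) (nat_lit 0) (.e (nat_lit 3305) (nat_lit 202) (.e (nat_lit 573489) (nat_lit 14) (.e (nat_lit 73782) (nat_lit 32) .nil)))))) (.g (nat_lit 1) (.e (nat_lit 41387) (nat_lit 0) .nil) .nil))) 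
(.lf (nat_lit 456287) (.g (nat_lit 2411) (.e (nat_lit 2668) (nat_lit 167) (.e (nat_lit 196666) (nat_lit 13) (.e (nat_lit 65610) (nat_lit 10) (.e (nat_lit 344117) (nat_lit 21) (.e (nat_lit 516106) (nat_lit 0) (.e (nat_lit 7008) (nat_lit 377) (.e (nat_lit 2427) (nat_lit 157) (.e (nat_lit 5627) (nat_lit 312) .nil)))))))) (.g (nat_lit 1) (.e (nat_lit 42598) (nat_lit 0) .nil) .nil)))) (.nd (nat_lit 9) 
(.lf (nat_lit 456031) (.g (nat_lit 4804) (.e (nat_lit 2667) (nat_lit 167) (.e (nat_lit 196668) (nat_lit 14) (.e (nat_lit 73753) (nat_lit 8) (.e (nat_lit 557103) (nat_lit 14) (.e (nat_lit 180250) (nat_lit 10) (.e (nat_lit 573473) (nat_lit 12) (.e (nat_lit 57508) (nat_lit 39) (.e (nat_lit 655104) (nat_lit 0) .nil)))))))) (.g (nat_lit 1) (.e (nat_lit 41935) (nat_lit 0) .nil) .nil))) 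
(.lf (nat_lit 456543) (.g (nat_lit 4588) (.e (nat_lit 2668) (nat_lit 167) (.e (nat_lit 196666) (nat_lit 13) (.e (nat_lit 65610) (nat_lit 10) (.e (nat_lit 344117) (nat_lit 21) (.e (nat_lit 516151) (nat_lit 9) (.e (nat_lit 426047) (nat_lit 0) (.e (nat_lit 3366) (nat_lit 208) (.e (nat_lit 622620) (nat_lit 13) .nil)))))))) (.g (nat_lit 1) (.e (nat_lit 42892) (nat_lit 0) .nil) .nil))))) 
(.nd (nat_lit 8) (.nd (nat_lit 9) 
(.lf (nat_lit 455903) (.g (nat_lit 3172) (.e (nat_lit 2666) (nat_lit 167) (.e (nat_lit 196666) (nat_lit 13) (.e (nat_lit 65610) (nat_lit 10) (.e (nat_lit 344117) (nat_lit 21) (.e (nat_lit 516151) (nat_lit 9) (.e (nat_lit 426003) (nat_lit 0) (.e (nat_lit 3363) (nat_lit 208) (.e (nat_lit 630528) (nat_lit 13) .nil)))))))) (.g (nat_lit 1) (.e (nat_lit 41668) (nat_lit 0) .nil) .nil))) 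
(.lf (nat_lit 456415) (.g (nat_lit 2255) (.e (nat_lit 2668) (nat_lit 167) (.e (nat_lit 196666) (nat_lit 13) (.e (nat_lit 65610) (nat_lit 10) (.e (nat_lit 344117) (nat_lit 21) (.e (nat_lit 516145) (nat_lit 9) (.e (nat_lit 426085) (nat_lit 0) (.e (nat_lit 3366) (nat_lit 208) (.e (nat_lit 622623) (nat_lit 13) .nil)))))))) (.g (nat_lit 1) (.e (nat_lit 42727) (nat_lit 0) .nil) .nil)))) 
(.nd (nat_lit 9) 
(.lf (nat_lit 456159) (.g (nat_lit 2479) (.e (nat_lit 2667) (nat_lit 167) (.e (nat_lit 196670) (nat_lit 14) (.e (nat_lit 73755) (nat_lit 8) (.e (nat_lit 557105) (nat_lit 14) (.e (nat_lit 180252) (nat_lit 10) (.e (nat_lit 573474) (nat_lit 12) (.e (nat_lit 57510) (nat_lit 39) (.e (nat_lit 655104) (nat_lit 0) .nil)))))))) (.g (nat_lit 1) (.e (nat_lit 42107) (nat_lit 0) .nil) .nil))) 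
(.lf (nat_lit 456671) (.g (nat_lit 2200) (.e (nat_lit 2668) (nat_lit 167) (.e (nat_lit 196666) (nat_lit 13) (.e (nat_lit 65617) (nat_lit 10) (.e (nat_lit 344130) (nat_lit 26) (.e (nat_lit 557089) (nat_lit 12) (.e (nat_lit 163849) (nat_lit 0) (.e (nat_lit 6420) (nat_lit 341) (.e (nat_lit 163843) (nat_lit 0) (.e (nat_lit 7936) (nat_lit 388) .nil))))))))) (.g (nat_lit 1) (.e (nat_lit 43109) (nat_lit 0) .nil) .nil))))))) 
(.nd (nat_lit 6) (.nd (nat_lit 7) (.nd (nat_lit 8) (.nd (nat_lit 9) 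
(.lf (nat_lit 455743) (.g (nat_lit 2806) (.e (nat_lit 2664) (nat_lit 167) (.e (nat_lit 196666) (nat_lit 13) (.e (nat_lit 65617) (nat_lit 10) (.e (nat_lit 344133) (nat_lit 26) (.e (nat_lit 557087) (nat_lit 11) (.e (nat_lit 24581) (nat_lit 0) (.e (nat_lit 6684) (nat_lit 357) .nil))))))) (.g (nat_lit 1) (.e (nat_lit 41345) (nat_lit 0) .nil) .nil))) 
(.lf (nat_lit 456255) (.g (nat_lit 3867) (.e (nat_lit 2668) (nat_lit 167) (.e (nat_lit 196666) (nat_lit 13) (.e (nat_lit 65610) (nat_lit 10) (.e (nat_lit 344117) (nat_lit 21) (.e (nat_lit 516102) (nat_lit 0) (.e (nat_lit 7107) (nat_lit 380) (.e (nat_lit 171776) (nat_lit 246) .nil))))))) (.g (nat_lit 1) (.e (nat_lit 42566) (nat_lit 0) .nil) .nil)))) (.nd (nat_lit 9) 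
(.lf (nat_lit 455999) (.g (nat_lit 2596) (.e (nat_lit 2666) (nat_lit 167) (.e (nat_lit 196666) (nat_lit 13) (.e (nat_lit 65630) (nat_lit 14) (.e (nat_lit 401428) (nat_lit 3) (.e (nat_lit 204862) (nat_lit 27) .nil))))) (.g (nat_lit 0) (.e (nat_lit 41843) (nat_lit 0) .nil) .nil))) 
(.lf (nat_lit 456511) (.g (nat_lit 2827) (.e (nat_lit 2668) (nat_lit 167) (.e (nat_lit 196666) (nat_lit 13) (.e (nat_lit 65610) (nat_lit 10) (.e (nat_lit 344117) (nat_lit 21) (.e (nat_lit 516151) (nat_lit 9) (.e (nat_lit 426042) (nat_lit 0) (.e (nat_lit 2449) (nat_lit 157) (.e (nat_lit 4778) (nat_lit 281) (.e (nat_lit 2444) (nat_lit 157) .nil))))))))) (.g (nat_lit 1) (.e (nat_lit 42860) (nat_lit 0) .nil) .nil))))) 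
(.nd (nat_lit 8) (.nd (nat_lit 9) 
(.lf (nat_lit 455871) (.g (nat_lit 3355) (.e (nat_lit 2666) (nat_lit 167) (.e (nat_lit 196666) (nat_lit 13) (.e (nat_lit 65571) (nat_lit 3) (.e (nat_lit 98333) (nat_lit 18) (.e (nat_lit 164177) (nat_lit 154) (.e (nat_lit 57379) (nat_lit 3) (.e (nat_lit 98338) (nat_lit 19) (.e (nat_lit 213013) (nat_lit 9) .nil)))))))) (.g (nat_lit 1) (.e (nat_lit 41567) (nat_lit 0) .nil) .nil))) 
(.lf (nat_lit 456383) (.g (nat_lit 3835) (.e (nat_lit 2668) (nat_lit 167) (.e (nat_lit 196666) (nat_lit 13) (.e (nat_lit 65610) (nat_lit 10) (.e (nat_lit 344117) (nat_lit 21) (.e (nat_lit 516141) (nat_lit 8) (.e (nat_lit 417815) (nat_lit 10) (.e (nat_lit 5627) (nat_lit 312) .nil))))))) (.g (nat_lit 1) (.e (nat_lit 42694) (nat_lit 0) .nil) .nil)))) (.nd (nat_lit 9) 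
(.lf (nat_lit 456127) (.g (nat_lit 3167) (.e (nat_lit 2667) (nat_lit 167) (.e (nat_lit 196670) (nat_lit 14) (.e (nat_lit 73754) (nat_lit 8) (.e (nat_lit 557105) (nat_lit 14) (.e (nat_lit 180251) (nat_lit 10) (.e (nat_lit 573478) (nat_lit 12) (.e (nat_lit 57509) (nat_lit 39) (.e (nat_lit 655104) (nat_lit 0) .nil)))))))) (.g (nat_lit 1) (.e (nat_lit 42075) (nat_lit 0) .nil) .nil))) 
(.lf (nat_lit 456639) (.g (nat_lit 2680) (.e (nat_lit 2668) (nat_lit 167) (.e (nat_lit 196666) (nat_lit 13) (.e (nat_lit 65617) (nat_lit 10) (.e (nat_lit 344126) (nat_lit 25) (.e (nat_lit 548890) (nat_lit 10) (.e (nat_lit 81664) (nat_lit 32) .nil)))))) (.g (nat_lit 1) (.e (nat_lit 43056) (nat_lit 0) .nil) .nil)))))) (.nd (nat_lit 7) (.nd (nat_lit 8) (.nd (nat_lit 9) 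
(.lf (nat_lit 455807) (.g (nat_lit 1727) (.e (nat_lit 2664) (nat_lit 167) (.e (nat_lit 196672) (nat_lit 15) (.e (nat_lit 81954) (nat_lit 23) (.e (nat_lit 98389) (nat_lit 33) (.e (nat_lit 491528) (nat_lit 0) (.e (nat_lit 6680) (nat_lit 357) .nil)))))) (.g (nat_lit 1) (.e (nat_lit 41428) (nat_lit 0) .nil) .nil))) 
(.lf (nat_lit 456319) (.g (nat_lit 3979) (.e (nat_lit 2668) (nat_lit 167) (.e (nat_lit 196666) (nat_lit 13) (.e (nat_lit 65610) (nat_lit 10) (.e (nat_lit 344117) (nat_lit 21) (.e (nat_lit 516138) (nat_lit 7) (.e (nat_lit 409612) (nat_lit 10) (.e (nat_lit 5616) (nat_lit 312) .nil))))))) (.g (nat_lit 1) (.e (nat_lit 42630) (nat_lit 0) .nil) .nil)))) (.nd (nat_lit 9) 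
(.lf (nat_lit 456063) (.g (nat_lit 2072) (.e (nat_lit 2667) (nat_lit 167) (.e (nat_lit 196668) (nat_lit 14) (.e (nat_lit 73754) (nat_lit 8) (.e (nat_lit 557105) (nat_lit 14) (.e (nat_lit 180252) (nat_lit 10) (.e (nat_lit 573475) (nat_lit 12) (.e (nat_lit 57508) (nat_lit 39) (.e (nat_lit 647175) (nat_lit 0) .nil)))))))) (.g (nat_lit 1) (.e (nat_lit 41967) (nat_lit 0) .nil) .nil))) 
(.lf (nat_lit 456575) (.g (nat_lit 2901) (.e (nat_lit 2668) (nat_lit 167) (.e (nat_lit 196666) (nat_lit 13) (.e (nat_lit 65610) (nat_lit 10) (.e (nat_lit 344117) (nat_lit 21) (.e (nat_lit 516159) (nat_lit 10) (.e (nat_lit 434263) (nat_lit 34) (.e (nat_lit 622621) (nat_lit 13) .nil))))))) (.g (nat_lit 1) (.e (nat_lit 42926) (nat_lit 0) .nil) .nil))))) (.nd (nat_lit 8) (.nd (nat_lit 9) 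
(.lf (nat_lit 455935) (.g (nat_lit 2668) (.e (nat_lit 2666) (nat_lit 167) (.e (nat_lit 196666) (nat_lit 13) (.e (nat_lit 65610) (nat_lit 10) (.e (nat_lit 344117) (nat_lit 21) (.e (nat_lit 516151) (nat_lit 9) (.e (nat_lit 426042) (nat_lit 0) (.e (nat_lit 2423) (nat_lit 157) (.e (nat_lit 4821) (nat_lit 281) (.e (nat_lit 2416) (nat_lit 157) .nil))))))))) (.g (nat_lit 1) (.e (nat_lit 41700) (nat_lit 0) .nil) .nil))) 
(.lf (nat_lit 456447) (.g (nat_lit 5006) (.e (nat_lit 2668) (nat_lit 167) (.e (nat_lit 196666) (nat_lit 13) (.e (nat_lit 65610) (nat_lit 10) (.e (nat_lit 344117) (nat_lit 21) (.e (nat_lit 516151) (nat_lit 9) (.e (nat_lit 426021) (nat_lit 0) (.e (nat_lit 3367) (nat_lit 208) (.e (nat_lit 622624) (nat_lit 13) .nil)))))))) (.g (nat_lit 1) (.e (nat_lit 42796) (nat_lit 0) .nil) .nil)))) 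
(.nd (nat_lit 9) 
(.lf (nat_lit 456191) (.g (nat_lit 2891) (.e (nat_lit 2668) (nat_lit 167) (.e (nat_lit 196666) (nat_lit 13) (.e (nat_lit 65583) (nat_lit 7) (.e (nat_lit 319499) (nat_lit 10) (.e (nat_lit 511) (nat_lit 41) (.e (nat_lit 500068) (nat_lit 19) (.e (nat_lit 81664) (nat_lit 32) .nil))))))) (.g (nat_lit 1) (.e (nat_lit 42485) (nat_lit 0) .nil) .nil))) 
(.lf (nat_lit 456703) (.g (nat_lit 3544) (.e (nat_lit 2668) (nat_lit 167) (.e (nat_lit 196666) (nat_lit 13) (.e (nat_lit 65619) (nat_lit 10) (.e (nat_lit 344117) (nat_lit 21) (.e (nat_lit 516142) (nat_lit 8) (.e (nat_lit 417820) (nat_lit 10) (.e (nat_lit 5626) (nat_lit 312) .nil))))))) (.g (nat_lit 1) (.e (nat_lit 43166) (nat_lit 0) .nil) .nil)))))))))))))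

noncomputable def tv5506 : DT := (.nd (nat_lit 0) (.nd (nat_lit 1) (.nd (nat_lit 2) (.nd (nat_lit 3) (.nd (nat_lit 4) (.nd (nat_lit 5) (.nd (nat_lit 6) (.nd (nat_lit 7) (.nd (nat_lit 8) (.nd (nat_lit 9) 
(.lf (nat_lit 456704) (.g (nat_lit 1346) (.e (nat_lit 2668) (nat_lit 167) (.e (nat_lit 196666) (nat_lit 13) (.e (nat_lit 65619) (nat_lit 10) (.e (nat_lit 344129) (nat_lit 26) .nil)))) (.g (nat_lit 0) (.e (nat_lit 43167) (nat_lit 0) .nil) .nil))) 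
(.lf (nat_lit 457216) (.g (nat_lit 2623) (.e (nat_lit 2681) (nat_lit 168) (.e (nat_lit 204863) (nat_lit 27) (.e (nat_lit 344129) (nat_lit 26) (.e (nat_lit 557103) (nat_lit 14) (.e (nat_lit 180250) (nat_lit 10) .nil))))) (.g (nat_lit 0) (.e (nat_lit 44189) (nat_lit 0) .nil) .nil)))) (.nd (nat_lit 9) 
(.lf (nat_lit 456960) (.g (nat_lit 3290) (.e (nat_lit 2679) (nat_lit 168) (.e (nat_lit 204862) (nat_lit 27) (.e (nat_lit 344129) (nat_lit 26) (.e (nat_lit 557067) (nat_lit 9) (.e (nat_lit 2878) (nat_lit 184) .nil))))) (.g (nat_lit 0) (.e (nat_lit 43730) (nat_lit 0) .nil) .nil))) 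
(.lf (nat_lit 457472) (.g (nat_lit 2569) (.e (nat_lit 2682) (nat_lit 168) (.e (nat_lit 204869) (nat_lit 29) (.e (nat_lit 360457) (nat_lit 0) (.e (nat_lit 3962) (nat_lit 239) .nil)))) (.g (nat_lit 0) (.e (nat_lit 44824) (nat_lit 0) .nil) .nil))))) (.nd (nat_lit 8) (.nd (nat_lit 9) 
(.lf (nat_lit 456832) (.g (nat_lit 4507) (.e (nat_lit 2673) (nat_lit 168) (.e (nat_lit 204869) (nat_lit 29) (.e (nat_lit 360475) (nat_lit 8) (.e (nat_lit 557068) (nat_lit 9) .nil)))) (.g (nat_lit 0) (.e (nat_lit 43366) (nat_lit 0) .nil) .nil))) 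
(.lf (nat_lit 457344) (.g (nat_lit 2683) (.e (nat_lit 2682) (nat_lit 168) (.e (nat_lit 204846) (nat_lit 24) (.e (nat_lit 319534) (nat_lit 16) (.e (nat_lit 286735) (nat_lit 3) (.e (nat_lit 98378) (nat_lit 30) .nil))))) (.g (nat_lit 0) (.e (nat_lit 44547) (nat_lit 0) .nil) .nil)))) (.nd (nat_lit 9) 
(.lf (nat_lit 457088) (.g (nat_lit 2205) (.e (nat_lit 2681) (nat_lit 168) (.e (nat_lit 204829) (nat_lit 18) (.e (nat_lit 57927) (nat_lit 282) (.e (nat_lit 163869) (nat_lit 2) (.e (nat_lit 196670) (nat_lit 14) (.e (nat_lit 73746) (nat_lit 3) (.e (nat_lit 516124) (nat_lit 2) (.e (nat_lit 213000) (nat_lit 9) .nil)))))))) (.g (nat_lit 1) (.e (nat_lit 43974) (nat_lit 0) .nil) .nil))) 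
(.lf (nat_lit 457600) (.g (nat_lit 2134) (.e (nat_lit 2683) (nat_lit 168) (.e (nat_lit 204863) (nat_lit 27) (.e (nat_lit 344132) (nat_lit 26) (.e (nat_lit 557105) (nat_lit 14) (.e (nat_lit 180252) (nat_lit 10) .nil))))) (.g (nat_lit 0) (.e (nat_lit 45311) (nat_lit 0) .nil) .nil)))))) (.nd (nat_lit 7) (.nd (nat_lit 8) (.nd (nat_lit 9) 
(.lf (nat_lit 456768) (.g (nat_lit 2952) (.e (nat_lit 2668) (nat_lit 167) (.e (nat_lit 196670) (nat_lit 14) (.e (nat_lit 73753) (nat_lit 8) (.e (nat_lit 557105) (nat_lit 14) (.e (nat_lit 180252) (nat_lit 10) (.e (nat_lit 573474) (nat_lit 12) (.e (nat_lit 57347) (nat_lit 0) (.e (nat_lit 5436) (nat_lit 306) (.e (nat_lit 2433) (nat_lit 157) .nil))))))))) (.g (nat_lit 1) (.e (nat_lit 43262) (nat_lit 0) .nil) .nil))) 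
(.lf (nat_lit 457280) (.g (nat_lit 4399) (.e (nat_lit 2681) (nat_lit 168) (.e (nat_lit 204863) (nat_lit 27) (.e (nat_lit 344133) (nat_lit 26) (.e (nat_lit 557105) (nat_lit 14) (.e (nat_lit 180252) (nat_lit 10) (.e (nat_lit 573475) (nat_lit 12) (.e (nat_lit 57508) (nat_lit 39) (.e (nat_lit 647176) (nat_lit 0) .nil)))))))) (.g (nat_lit 1) (.e (nat_lit 44253) (nat_lit 0) .nil) .nil)))) 
(.nd (nat_lit 9) 
(.lf (nat_lit 457024) (.g (nat_lit 3966) (.e (nat_lit 2679) (nat_lit 168) (.e (nat_lit 204869) (nat_lit 29) (.e (nat_lit 360475) (nat_lit 8) (.e (nat_lit 557067) (nat_lit 9) (.e (nat_lit 20) (nat_lit 0) .nil))))) (.g (nat_lit 0) (.e (nat_lit 43841) (nat_lit 0) .nil) .nil))) 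
(.lf (nat_lit 457536) (.g (nat_lit 3403) (.e (nat_lit 2682) (nat_lit 168) (.e (nat_lit 204869) (nat_lit 29) (.e (nat_lit 360475) (nat_lit 8) (.e (nat_lit 557087) (nat_lit 11) (.e (nat_lit 24576) (nat_lit 0) .nil))))) (.g (nat_lit 0) (.e (nat_lit 45127) (nat_lit 0) .nil) .nil))))) (.nd (nat_lit 8) (.nd (nat_lit 9) 
(.lf (nat_lit 456896) (.g (nat_lit 2329) (.e (nat_lit 2678) (nat_lit 168) (.e (nat_lit 204864) (nat_lit 27) (.e (nat_lit 344133) (nat_lit 26) (.e (nat_lit 557098) (nat_lit 13) (.e (nat_lit 172136) (nat_lit 15) .nil))))) (.g (nat_lit 0) (.e (nat_lit 43510) (nat_lit 0) .nil) .nil))) 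
(.lf (nat_lit 457408) (.g (nat_lit 2978) (.e (nat_lit 2682) (nat_lit 168) (.e (nat_lit 204863) (nat_lit 27) (.e (nat_lit 344133) (nat_lit 26) (.e (nat_lit 557105) (nat_lit 14) (.e (nat_lit 180251) (nat_lit 10) .nil))))) (.g (nat_lit 0) (.e (nat_lit 44667) (nat_lit 0) .nil) .nil)))) (.nd (nat_lit 9) 
(.lf (nat_lit 457152) (.g (nat_lit 1929) (.e (nat_lit 2681) (nat_lit 168) (.e (nat_lit 204830) (nat_lit 18) (.e (nat_lit 57926) (nat_lit 282) (.e (nat_lit 163875) (nat_lit 3) .nil)))) (.g (nat_lit 0) (.e (nat_lit 44048) (nat_lit 0) .nil) .nil))) 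
(.lf (nat_lit 457664) (.g (nat_lit 3929) (.e (nat_lit 2684) (nat_lit 168) (.e (nat_lit 204830) (nat_lit 18) (.e (nat_lit 57927) (nat_lit 282) (.e (nat_lit 163868) (nat_lit 2) (.e (nat_lit 196670) (nat_lit 14) (.e (nat_lit 73746) (nat_lit 3) (.e (nat_lit 516124) (nat_lit 2) (.e (nat_lit 213013) (nat_lit 9) .nil)))))))) (.g (nat_lit 1) (.e (nat_lit 45453) (nat_lit 0) .nil) .nil))))))) 
(.nd (nat_lit 6) (.nd (nat_lit 7) (.nd (nat_lit 8) (.nd (nat_lit 9) 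
(.lf (nat_lit 456736) (.g (nat_lit 3167) (.e (nat_lit 2668) (nat_lit 167) (.e (nat_lit 196666) (nat_lit 13) (.e (nat_lit 65630) (nat_lit 14) (.e (nat_lit 401412) (nat_lit 0) (.e (nat_lit 3114) (nat_lit 193) (.e (nat_lit 500069) (nat_lit 19) (.e (nat_lit 81664) (nat_lit 32) .nil))))))) (.g (nat_lit 1) (.e (nat_lit 43215) (nat_lit 0) .nil) .nil))) 
(.lf (nat_lit 457248) (.g (nat_lit 2262) (.e (nat_lit 2681) (nat_lit 168) (.e (nat_lit 204863) (nat_lit 27) (.e (nat_lit 344132) (nat_lit 26) (.e (nat_lit 557105) (nat_lit 14) (.e (nat_lit 180252) (nat_lit 10) (.e (nat_lit 573473) (nat_lit 12) (.e (nat_lit 57508) (nat_lit 39) (.e (nat_lit 647175) (nat_lit 0) .nil)))))))) (.g (nat_lit 1) (.e (nat_lit 44221) (nat_lit 0) .nil) .nil)))) 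
(.nd (nat_lit 9) 
(.lf (nat_lit 456992) (.g (nat_lit 2896) (.e (nat_lit 2679) (nat_lit 168) (.e (nat_lit 204868) (nat_lit 29) (.e (nat_lit 360466) (nat_lit 3) (.e (nat_lit 516139) (nat_lit 7) (.e (nat_lit 409616) (nat_lit 10) (.e (nat_lit 7936) (nat_lit 312) .nil)))))) (.g (nat_lit 1) (.e (nat_lit 43772) (nat_lit 0) .nil) .nil))) 
(.lf (nat_lit 457504) (.g (nat_lit 4145) (.e (nat_lit 2682) (nat_lit 168) (.e (nat_lit 204869) (nat_lit 29) (.e (nat_lit 360474) (nat_lit 8) (.e (nat_lit 557077) (nat_lit 9) .nil)))) (.g (nat_lit 0) (.e (nat_lit 44944) (nat_lit 0) .nil) .nil))))) (.nd (nat_lit 8) (.nd (nat_lit 9) 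
(.lf (nat_lit 456864) (.g (nat_lit 3016) (.e (nat_lit 2675) (nat_lit 168) (.e (nat_lit 204869) (nat_lit 29) (.e (nat_lit 360475) (nat_lit 8) (.e (nat_lit 557065) (nat_lit 9) .nil)))) (.g (nat_lit 0) (.e (nat_lit 43455) (nat_lit 0) .nil) .nil))) 
(.lf (nat_lit 457376) (.g (nat_lit 2887) (.e (nat_lit 2682) (nat_lit 168) (.e (nat_lit 204861) (nat_lit 26) (.e (nat_lit 336231) (nat_lit 14) (.e (nat_lit 401423) (nat_lit 2) (.e (nat_lit 196668) (nat_lit 14) (.e (nat_lit 73782) (nat_lit 32) .nil)))))) (.g (nat_lit 1) (.e (nat_lit 44632) (nat_lit 0) .nil) .nil)))) (.nd (nat_lit 9) 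
(.lf (nat_lit 457120) (.g (nat_lit 3122) (.e (nat_lit 2681) (nat_lit 168) (.e (nat_lit 204829) (nat_lit 18) (.e (nat_lit 57931) (nat_lit 282) (.e (nat_lit 163869) (nat_lit 2) (.e (nat_lit 196670) (nat_lit 14) (.e (nat_lit 73746) (nat_lit 3) (.e (nat_lit 516127) (nat_lit 2) (.e (nat_lit 213022) (nat_lit 9) .nil)))))))) (.g (nat_lit 1) (.e (nat_lit 44012) (nat_lit 0) .nil) .nil))) 
(.lf (nat_lit 457632) (.g (nat_lit 5083) (.e (nat_lit 2684) (nat_lit 168) (.e (nat_lit 204829) (nat_lit 18) (.e (nat_lit 57931) (nat_lit 282) (.e (nat_lit 163869) (nat_lit 2) (.e (nat_lit 196670) (nat_lit 14) (.e (nat_lit 73746) (nat_lit 3) (.e (nat_lit 516124) (nat_lit 2) (.e (nat_lit 213013) (nat_lit 9) .nil)))))))) (.g (nat_lit 1) (.e (nat_lit 45412) (nat_lit 0) .nil) .nil)))))) 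
(.nd (nat_lit 7) (.nd (nat_lit 8) (.nd (nat_lit 9) 
(.lf (nat_lit 456800) (.g (nat_lit 2406) (.e (nat_lit 2668) (nat_lit 167) (.e (nat_lit 196674) (nat_lit 15) (.e (nat_lit 81946) (nat_lit 20) (.e (nat_lit 1842) (nat_lit 123) (.e (nat_lit 548890) (nat_lit 10) (.e (nat_lit 81664) (nat_lit 32) .nil)))))) (.g (nat_lit 1) (.e (nat_lit 43303) (nat_lit 0) .nil) .nil))) 
(.lf (nat_lit 457312) (.g (nat_lit 1680) (.e (nat_lit 2681) (nat_lit 168) (.e (nat_lit 204869) (nat_lit 29) (.e (nat_lit 360475) (nat_lit 8) (.e (nat_lit 557087) (nat_lit 11) .nil)))) (.g (nat_lit 0) (.e (nat_lit 44402) (nat_lit 0) .nil) .nil)))) (.nd (nat_lit 9) 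
(.lf (nat_lit 457056) (.g (nat_lit 1849) (.e (nat_lit 2680) (nat_lit 168) (.e (nat_lit 204864) (nat_lit 27) (.e (nat_lit 344130) (nat_lit 26) (.e (nat_lit 557097) (nat_lit 13) (.e (nat_lit 179968) (nat_lit 18) (.e (nat_lit 98325) (nat_lit 17) (.e (nat_lit 3409) (nat_lit 212) (.e (nat_lit 655364) (nat_lit 0) .nil)))))))) (.g (nat_lit 1) (.e (nat_lit 43904) (nat_lit 0) .nil) .nil))) 
(.lf (nat_lit 457568) (.g (nat_lit 2339) (.e (nat_lit 2683) (nat_lit 168) (.e (nat_lit 204829) (nat_lit 18) (.e (nat_lit 57927) (nat_lit 282) (.e (nat_lit 163875) (nat_lit 3) (.e (nat_lit 204862) (nat_lit 27) (.e (nat_lit 344117) (nat_lit 21) (.e (nat_lit 516123) (nat_lit 2) (.e (nat_lit 213000) (nat_lit 9) .nil)))))))) (.g (nat_lit 1) (.e (nat_lit 45263) (nat_lit 0) .nil) .nil))))) 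
(.nd (nat_lit 8) (.nd (nat_lit 9) 
(.lf (nat_lit 456928) (.g (nat_lit 2782) (.e (nat_lit 2679) (nat_lit 168) (.e (nat_lit 204846) (nat_lit 24) (.e (nat_lit 319533) (nat_lit 16) (.e (nat_lit 286732) (nat_lit 2) (.e (nat_lit 90172) (nat_lit 14) .nil))))) (.g (nat_lit 0) (.e (nat_lit 43669) (nat_lit 0) .nil) .nil))) 
(.lf (nat_lit 457440) (.g (nat_lit 2120) (.e (nat_lit 2682) (nat_lit 168) (.e (nat_lit 204869) (nat_lit 29) (.e (nat_lit 360448) (nat_lit 0) (.e (nat_lit 7936) (nat_lit 239) .nil)))) (.g (nat_lit 0) (.e (nat_lit 44761) (nat_lit 0) .nil) .nil)))) (.nd (nat_lit 9) 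
(.lf (nat_lit 457184) (.g (nat_lit 2456) (.e (nat_lit 2681) (nat_lit 168) (.e (nat_lit 204850) (nat_lit 26) (.e (nat_lit 336205) (nat_lit 12) (.e (nat_lit 385074) (nat_lit 31) (.e (nat_lit 573489) (nat_lit 14) (.e (nat_lit 73782) (nat_lit 32) .nil)))))) (.g (nat_lit 1) (.e (nat_lit 44110) (nat_lit 0) .nil) .nil))) 
(.lf (nat_lit 457696) (.g (nat_lit 3075) (.e (nat_lit 2684) (nat_lit 168) (.e (nat_lit 204846) (nat_lit 24) (.e (nat_lit 319531) (nat_lit 16) (.e (nat_lit 286733) (nat_lit 2) (.e (nat_lit 90172) (nat_lit 14) .nil))))) (.g (nat_lit 0) (.e (nat_lit 45522) (nat_lit 0) .nil) .nil)))))))) (.nd (nat_lit 5) (.nd (nat_lit 6) (.nd (nat_lit 7) (.nd (nat_lit 8) (.nd (nat_lit 9) 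
(.lf (nat_lit 456720) (.g (nat_lit 1066) (.e (nat_lit 2668) (nat_lit 167) (.e (nat_lit 196666) (nat_lit 13) (.e (nat_lit 65628) (nat_lit 14) (.e (nat_lit 401428) (nat_lit 3) .nil)))) (.g (nat_lit 0) (.e (nat_lit 43198) (nat_lit 0) .nil) .nil))) 
(.lf (nat_lit 457232) (.g (nat_lit 2585) (.e (nat_lit 2681) (nat_lit 168) (.e (nat_lit 204863) (nat_lit 27) (.e (nat_lit 344131) (nat_lit 26) (.e (nat_lit 557103) (nat_lit 14) (.e (nat_lit 180250) (nat_lit 10) (.e (nat_lit 573473) (nat_lit 12) (.e (nat_lit 57507) (nat_lit 39) (.e (nat_lit 647176) (nat_lit 0) .nil)))))))) (.g (nat_lit 1) (.e (nat_lit 44205) (nat_lit 0) .nil) .nil)))) 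
(.nd (nat_lit 9) 
(.lf (nat_lit 456976) (.g (nat_lit 2418) (.e (nat_lit 2679) (nat_lit 168) (.e (nat_lit 204864) (nat_lit 27) (.e (nat_lit 344133) (nat_lit 26) (.e (nat_lit 557103) (nat_lit 14) (.e (nat_lit 188160) (nat_lit 3) (.e (nat_lit 516135) (nat_lit 5) (.e (nat_lit 253955) (nat_lit 0) .nil))))))) (.g (nat_lit 1) (.e (nat_lit 43746) (nat_lit 0) .nil) .nil))) 
(.lf (nat_lit 457488) (.g (nat_lit 2255) (.e (nat_lit 2682) (nat_lit 168) (.e (nat_lit 204869) (nat_lit 29) (.e (nat_lit 360473) (nat_lit 8) (.e (nat_lit 557087) (nat_lit 11) .nil)))) (.g (nat_lit 0) (.e (nat_lit 44925) (nat_lit 0) .nil) .nil))))) (.nd (nat_lit 8) (.nd (nat_lit 9) 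
(.lf (nat_lit 456848) (.g (nat_lit 2127) (.e (nat_lit 2675) (nat_lit 168) (.e (nat_lit 204863) (nat_lit 27) (.e (nat_lit 344117) (nat_lit 21) (.e (nat_lit 516129) (nat_lit 3) .nil)))) (.g (nat_lit 0) (.e (nat_lit 43427) (nat_lit 0) .nil) .nil))) 
(.lf (nat_lit 457360) (.g (nat_lit 693) (.e (nat_lit 2682) (nat_lit 168) (.e (nat_lit 204855) (nat_lit 26) (.e (nat_lit 336226) (nat_lit 14) .nil))) (.g (nat_lit 0) (.e (nat_lit 44586) (nat_lit 0) .nil) .nil)))) (.nd (nat_lit 9) 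
(.lf (nat_lit 457104) (.g (nat_lit 2050) (.e (nat_lit 2681) (nat_lit 168) (.e (nat_lit 204829) (nat_lit 18) (.e (nat_lit 57927) (nat_lit 282) (.e (nat_lit 163871) (nat_lit 2) (.e (nat_lit 196670) (nat_lit 14) (.e (nat_lit 73746) (nat_lit 3) (.e (nat_lit 516124) (nat_lit 2) (.e (nat_lit 213020) (nat_lit 9) .nil)))))))) (.g (nat_lit 1) (.e (nat_lit 43990) (nat_lit 0) .nil) .nil))) 
(.lf (nat_lit 457616) (.g (nat_lit 2387) (.e (nat_lit 2684) (nat_lit 168) (.e (nat_lit 204829) (nat_lit 18) (.e (nat_lit 57926) (nat_lit 282) (.e (nat_lit 163874) (nat_lit 3) (.e (nat_lit 204863) (nat_lit 27) (.e (nat_lit 344117) (nat_lit 21) (.e (nat_lit 516123) (nat_lit 2) (.e (nat_lit 213013) (nat_lit 9) .nil)))))))) (.g (nat_lit 1) (.e (nat_lit 45384) (nat_lit 0) .nil) .nil)))))) 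
(.nd (nat_lit 7) (.nd (nat_lit 8) (.nd (nat_lit 9) 
(.lf (nat_lit 456784) (.g (nat_lit 2054) (.e (nat_lit 2668) (nat_lit 167) (.e (nat_lit 196670) (nat_lit 14) (.e (nat_lit 81664) (nat_lit 35) (.e (nat_lit 163950) (nat_lit 21) (.e (nat_lit 500072) (nat_lit 19) (.e (nat_lit 81664) (nat_lit 32) .nil)))))) (.g (nat_lit 1) (.e (nat_lit 43285) (nat_lit 0) .nil) .nil))) 
(.lf (nat_lit 457296) (.g (nat_lit 2559) (.e (nat_lit 2681) (nat_lit 168) (.e (nat_lit 204869) (nat_lit 29) (.e (nat_lit 360474) (nat_lit 8) (.e (nat_lit 557066) (nat_lit 9) .nil)))) (.g (nat_lit 0) (.e (nat_lit 44380) (nat_lit 0) .nil) .nil)))) (.nd (nat_lit 9) 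
(.lf (nat_lit 457040) (.g (nat_lit 1202) (.e (nat_lit 2680) (nat_lit 168) (.e (nat_lit 204829) (nat_lit 18) (.e (nat_lit 57847) (nat_lit 252) .nil))) (.g (nat_lit 0) (.e (nat_lit 43878) (nat_lit 0) .nil) .nil))) 
(.lf (nat_lit 457552) (.g (nat_lit 3282) (.e (nat_lit 2682) (nat_lit 168) (.e (nat_lit 204885) (nat_lit 33) (.e (nat_lit 401448) (nat_lit 10) (.e (nat_lit 434232) (nat_lit 23) (.e (nat_lit 532523) (nat_lit 7) (.e (nat_lit 319504) (nat_lit 10) (.e (nat_lit 5714) (nat_lit 312) .nil))))))) (.g (nat_lit 1) (.e (nat_lit 45242) (nat_lit 0) .nil) .nil))))) (.nd (nat_lit 8) (.nd (nat_lit 9) 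
(.lf (nat_lit 456912) (.g (nat_lit 3436) (.e (nat_lit 2679) (nat_lit 168) (.e (nat_lit 204846) (nat_lit 24) (.e (nat_lit 319528) (nat_lit 16) (.e (nat_lit 286735) (nat_lit 3) (.e (nat_lit 98367) (nat_lit 27) (.e (nat_lit 442112) (nat_lit 8) .nil)))))) (.g (nat_lit 1) (.e (nat_lit 43644) (nat_lit 0) .nil) .nil))) 
(.lf (nat_lit 457424) (.g (nat_lit 1163) (.e (nat_lit 2682) (nat_lit 168) (.e (nat_lit 204868) (nat_lit 29) (.e (nat_lit 360466) (nat_lit 3) (.e (nat_lit 516184) (nat_lit 16) .nil)))) (.g (nat_lit 0) (.e (nat_lit 44739) (nat_lit 0) .nil) .nil)))) (.nd (nat_lit 9) 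
(.lf (nat_lit 457168) (.g (nat_lit 4746) (.e (nat_lit 2681) (nat_lit 168) (.e (nat_lit 204831) (nat_lit 18) (.e (nat_lit 57931) (nat_lit 282) (.e (nat_lit 163867) (nat_lit 2) (.e (nat_lit 196670) (nat_lit 14) (.e (nat_lit 73746) (nat_lit 3) (.e (nat_lit 516124) (nat_lit 2) (.e (nat_lit 213019) (nat_lit 9) .nil)))))))) (.g (nat_lit 1) (.e (nat_lit 44072) (nat_lit 0) .nil) .nil))) 
(.lf (nat_lit 457680) (.g (nat_lit 2743) (.e (nat_lit 2684) (nat_lit 168) (.e (nat_lit 204830) (nat_lit 18) (.e (nat_lit 57929) (nat_lit 282) (.e (nat_lit 163869) (nat_lit 2) (.e (nat_lit 196670) (nat_lit 14) (.e (nat_lit 73746) (nat_lit 3) (.e (nat_lit 516124) (nat_lit 2) (.e (nat_lit 213019) (nat_lit 9) .nil)))))))) (.g (nat_lit 1) (.e (nat_lit 45475) (nat_lit 0) .nil) .nil))))))) 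
(.nd (nat_lit 6) (.nd (nat_lit 7) (.nd (nat_lit 8) (.nd (nat_lit 9) 
(.lf (nat_lit 456752) (.g (nat_lit 4267) (.e (nat_lit 2668) (nat_lit 167) (.e (nat_lit 196666) (nat_lit 13) (.e (nat_lit 65630) (nat_lit 14) (.e (nat_lit 401428) (nat_lit 3) (.e (nat_lit 204846) (nat_lit 24) (.e (nat_lit 319492) (nat_lit 0) (.e (nat_lit 5626) (nat_lit 312) .nil))))))) (.g (nat_lit 1) (.e (nat_lit 43240) (nat_lit 0) .nil) .nil))) 
(.lf (nat_lit 457264) (.g (nat_lit 2901) (.e (nat_lit 2681) (nat_lit 168) (.e (nat_lit 204863) (nat_lit 27) (.e (nat_lit 344133) (nat_lit 26) (.e (nat_lit 557103) (nat_lit 14) (.e (nat_lit 180244) (nat_lit 5) (.e (nat_lit 532503) (nat_lit 1) (.e (nat_lit 57703) (nat_lit 164) (.e (nat_lit 2515) (nat_lit 157) .nil)))))))) (.g (nat_lit 1) (.e (nat_lit 44237) (nat_lit 0) .nil) .nil)))) 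
(.nd (nat_lit 9) 
(.lf (nat_lit 457008) (.g (nat_lit 4138) (.e (nat_lit 2679) (nat_lit 168) (.e (nat_lit 204868) (nat_lit 29) (.e (nat_lit 360473) (nat_lit 8) (.e (nat_lit 557087) (nat_lit 11) (.e (nat_lit 24584) (nat_lit 0) (.e (nat_lit 6664) (nat_lit 357) .nil)))))) (.g (nat_lit 1) (.e (nat_lit 43814) (nat_lit 0) .nil) .nil))) 
(.lf (nat_lit 457520) (.g (nat_lit 1953) (.e (nat_lit 2682) (nat_lit 168) (.e (nat_lit 204869) (nat_lit 29) (.e (nat_lit 360475) (nat_lit 8) (.e (nat_lit 557067) (nat_lit 9) .nil)))) (.g (nat_lit 0) (.e (nat_lit 45106) (nat_lit 0) .nil) .nil))))) (.nd (nat_lit 8) (.nd (nat_lit 9) 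
(.lf (nat_lit 456880) (.g (nat_lit 880) (.e (nat_lit 2676) (nat_lit 168) (.e (nat_lit 204869) (nat_lit 29) (.e (nat_lit 360475) (nat_lit 8) .nil))) (.g (nat_lit 0) (.e (nat_lit 43485) (nat_lit 0) .nil) .nil))) 
(.lf (nat_lit 457392) (.g (nat_lit 2808) (.e (nat_lit 2682) (nat_lit 168) (.e (nat_lit 204863) (nat_lit 27) (.e (nat_lit 344131) (nat_lit 26) (.e (nat_lit 557105) (nat_lit 14) (.e (nat_lit 180252) (nat_lit 10) (.e (nat_lit 573473) (nat_lit 12) (.e (nat_lit 57511) (nat_lit 39) (.e (nat_lit 647177) (nat_lit 0) .nil)))))))) (.g (nat_lit 1) (.e (nat_lit 44651) (nat_lit 0) .nil) .nil)))) 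
(.nd (nat_lit 9) 
(.lf (nat_lit 457136) (.g (nat_lit 4444) (.e (nat_lit 2681) (nat_lit 168) (.e (nat_lit 204830) (nat_lit 18) (.e (nat_lit 57926) (nat_lit 282) (.e (nat_lit 163869) (nat_lit 2) (.e (nat_lit 196670) (nat_lit 14) (.e (nat_lit 73746) (nat_lit 3) (.e (nat_lit 516124) (nat_lit 2) (.e (nat_lit 213013) (nat_lit 9) .nil)))))))) (.g (nat_lit 1) (.e (nat_lit 44031) (nat_lit 0) .nil) .nil))) 
(.lf (nat_lit 457648) (.g (nat_lit 3410) (.e (nat_lit 2684) (nat_lit 168) (.e (nat_lit 204830) (nat_lit 18) (.e (nat_lit 57926) (nat_lit 282) (.e (nat_lit 163871) (nat_lit 2) (.e (nat_lit 196668) (nat_lit 14) (.e (nat_lit 73747) (nat_lit 3) (.e (nat_lit 516124) (nat_lit 2) (.e (nat_lit 213013) (nat_lit 9) .nil)))))))) (.g (nat_lit 1) (.e (nat_lit 45436) (nat_lit 0) .nil) .nil)))))) 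
(.nd (nat_lit 7) (.nd (nat_lit 8) (.nd (nat_lit 9) 
(.lf (nat_lit 456816) (.g (nat_lit 4556) (.e (nat_lit 2671) (nat_lit 167) (.e (nat_lit 196674) (nat_lit 15) (.e (nat_lit 81956) (nat_lit 23) (.e (nat_lit 98350) (nat_lit 24) (.e (nat_lit 409616) (nat_lit 10) .nil))))) (.g (nat_lit 0) (.e (nat_lit 43326) (nat_lit 0) .nil) .nil))) 
(.lf (nat_lit 457328) (.g (nat_lit 2423) (.e (nat_lit 2682) (nat_lit 168) (.e (nat_lit 204831) (nat_lit 18) (.e (nat_lit 57931) (nat_lit 282) (.e (nat_lit 163867) (nat_lit 2) (.e (nat_lit 196670) (nat_lit 14) (.e (nat_lit 73746) (nat_lit 3) (.e (nat_lit 516124) (nat_lit 2) (.e (nat_lit 213025) (nat_lit 9) .nil)))))))) (.g (nat_lit 1) (.e (nat_lit 44511) (nat_lit 0) .nil) .nil)))) (.nd (nat_lit 9) 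
(.lf (nat_lit 457072) (.g (nat_lit 2266) (.e (nat_lit 2681) (nat_lit 168) (.e (nat_lit 204829) (nat_lit 18) (.e (nat_lit 57926) (nat_lit 282) (.e (nat_lit 163869) (nat_lit 2) (.e (nat_lit 196670) (nat_lit 14) (.e (nat_lit 73746) (nat_lit 3) (.e (nat_lit 516124) (nat_lit 2) (.e (nat_lit 213022) (nat_lit 9) .nil)))))))) (.g (nat_lit 1) (.e (nat_lit 43951) (nat_lit 0) .nil) .nil))) 
(.lf (nat_lit 457584) (.g (nat_lit 2534) (.e (nat_lit 2683) (nat_lit 168) (.e (nat_lit 204830) (nat_lit 18) (.e (nat_lit 57926) (nat_lit 282) (.e (nat_lit 163869) (nat_lit 2) (.e (nat_lit 196670) (nat_lit 14) (.e (nat_lit 73746) (nat_lit 3) (.e (nat_lit 516127) (nat_lit 2) (.e (nat_lit 213016) (nat_lit 9) .nil)))))))) (.g (nat_lit 1) (.e (nat_lit 45286) (nat_lit 0) .nil) .nil))))) 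
(.nd (nat_lit 8) (.nd (nat_lit 9) 
(.lf (nat_lit 456944) (.g (nat_lit 3708) (.e (nat_lit 2679) (nat_lit 168) (.e (nat_lit 204846) (nat_lit 24) (.e (nat_lit 319534) (nat_lit 16) (.e (nat_lit 286735) (nat_lit 3) (.e (nat_lit 98323) (nat_lit 17) (.e (nat_lit 6989) (nat_lit 377) (.e (nat_lit 1076) (nat_lit 81) (.e (nat_lit 5664) (nat_lit 312) .nil)))))))) (.g (nat_lit 1) (.e (nat_lit 43687) (nat_lit 0) .nil) .nil))) 
(.lf (nat_lit 457456) (.g (nat_lit 3405) (.e (nat_lit 2682) (nat_lit 168) (.e (nat_lit 204869) (nat_lit 29) (.e (nat_lit 360451) (nat_lit 0) (.e (nat_lit 3959) (nat_lit 239) .nil)))) (.g (nat_lit 0) (.e (nat_lit 44793) (nat_lit 0) .nil) .nil)))) (.nd (nat_lit 9) 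
(.lf (nat_lit 457200) (.g (nat_lit 2842) (.e (nat_lit 2681) (nat_lit 168) (.e (nat_lit 204862) (nat_lit 27) (.e (nat_lit 344129) (nat_lit 26) (.e (nat_lit 557103) (nat_lit 14) (.e (nat_lit 180250) (nat_lit 10) (.e (nat_lit 573473) (nat_lit 12) (.e (nat_lit 57507) (nat_lit 39) (.e (nat_lit 647176) (nat_lit 0) .nil)))))))) (.g (nat_lit 1) (.e (nat_lit 44172) (nat_lit 0) .nil) .nil))) 
(.lf (nat_lit 457712) (.g (nat_lit 2703) (.e (nat_lit 2684) (nat_lit 168) (.e (nat_lit 204852) (nat_lit 26) (.e (nat_lit 336326) (nat_lit 18) (.e (nat_lit 204829) (nat_lit 18) (.e (nat_lit 57847) (nat_lit 252) (.e (nat_lit 57379) (nat_lit 3) (.e (nat_lit 98338) (nat_lit 19) (.e (nat_lit 213013) (nat_lit 9) .nil)))))))) (.g (nat_lit 1) (.e (nat_lit 45541) (nat_lit 0) .nil) .nil))))))))) 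
(.nd (nat_lit 4) (.nd (nat_lit 5) (.nd (nat_lit 6) (.nd (nat_lit 7) (.nd (nat_lit 8) 
(.nd (nat_lit 9) 
(.lf (nat_lit 456712) (.g (nat_lit 2592) (.e (nat_lit 2668) (nat_lit 167) (.e (nat_lit 196666) (nat_lit 13) (.e (nat_lit 65628) (nat_lit 14) (.e (nat_lit 401425) (nat_lit 2) (.e (nat_lit 196628) (nat_lit 9) .nil))))) (.g (nat_lit 0) (.e (nat_lit 43190) (nat_lit 0) .nil) .nil))) 
(.lf (nat_lit 457224) (.g (nat_lit 2833) (.e (nat_lit 2681) (nat_lit 168) (.e (nat_lit 204863) (nat_lit 27) (.e (nat_lit 344130) (nat_lit 26) (.e (nat_lit 557103) (nat_lit 14) (.e (nat_lit 180250) (nat_lit 10) (.e (nat_lit 573473) (nat_lit 12) (.e (nat_lit 57507) (nat_lit 39) (.e (nat_lit 647176) (nat_lit 0) .nil)))))))) (.g (nat_lit 1) (.e (nat_lit 44197) (nat_lit 0) .nil) .nil)))) 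
(.nd (nat_lit 9) 
(.lf (nat_lit 456968) (.g (nat_lit 2893) (.e (nat_lit 2679) (nat_lit 168) (.e (nat_lit 204863) (nat_lit 27) (.e (nat_lit 344133) (nat_lit 26) (.e (nat_lit 557103) (nat_lit 14) (.e (nat_lit 188160) (nat_lit 3) .nil))))) (.g (nat_lit 0) (.e (nat_lit 43738) (nat_lit 0) .nil) .nil))) 
(.lf (nat_lit 457480) (.g (nat_lit 3830) (.e (nat_lit 2682) (nat_lit 168) (.e (nat_lit 204869) (nat_lit 29) (.e (nat_lit 360472) (nat_lit 8) (.e (nat_lit 557087) (nat_lit 11) (.e (nat_lit 24584) (nat_lit 0) .nil))))) (.g (nat_lit 0) (.e (nat_lit 44917) (nat_lit 0) .nil) .nil))))) (.nd (nat_lit 8) (.nd (nat_lit 9) 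
(.lf (nat_lit 456840) (.g (nat_lit 3198) (.e (nat_lit 2675) (nat_lit 168) (.e (nat_lit 204830) (nat_lit 18) (.e (nat_lit 57926) (nat_lit 282) (.e (nat_lit 163867) (nat_lit 2) (.e (nat_lit 196670) (nat_lit 14) (.e (nat_lit 73746) (nat_lit 3) (.e (nat_lit 516124) (nat_lit 2) (.e (nat_lit 213019) (nat_lit 9) .nil)))))))) (.g (nat_lit 1) (.e (nat_lit 43406) (nat_lit 0) .nil) .nil))) 
(.lf (nat_lit 457352) (.g (nat_lit 2608) (.e (nat_lit 2682) (nat_lit 168) (.e (nat_lit 204850) (nat_lit 26) (.e (nat_lit 336205) (nat_lit 12) (.e (nat_lit 385074) (nat_lit 31) (.e (nat_lit 573487) (nat_lit 14) (.e (nat_lit 73781) (nat_lit 32) .nil)))))) (.g (nat_lit 1) (.e (nat_lit 44555) (nat_lit 0) .nil) .nil)))) (.nd (nat_lit 9) 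
(.lf (nat_lit 457096) (.g (nat_lit 2498) (.e (nat_lit 2681) (nat_lit 168) (.e (nat_lit 204829) (nat_lit 18) (.e (nat_lit 57927) (nat_lit 282) (.e (nat_lit 163869) (nat_lit 2) (.e (nat_lit 196670) (nat_lit 14) (.e (nat_lit 73746) (nat_lit 3) (.e (nat_lit 516126) (nat_lit 2) (.e (nat_lit 213010) (nat_lit 9) .nil)))))))) (.g (nat_lit 1) (.e (nat_lit 43982) (nat_lit 0) .nil) .nil))) 
(.lf (nat_lit 457608) (.g (nat_lit 2489) (.e (nat_lit 2684) (nat_lit 168) (.e (nat_lit 204829) (nat_lit 18) (.e (nat_lit 57925) (nat_lit 282) (.e (nat_lit 163871) (nat_lit 2) (.e (nat_lit 196670) (nat_lit 14) (.e (nat_lit 73746) (nat_lit 3) (.e (nat_lit 516124) (nat_lit 2) (.e (nat_lit 213013) (nat_lit 9) .nil)))))))) (.g (nat_lit 1) (.e (nat_lit 45375) (nat_lit 0) .nil) .nil)))))) 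
(.nd (nat_lit 7) (.nd (nat_lit 8) (.nd (nat_lit 9) 
(.lf (nat_lit 456776) (.g (nat_lit 2755) (.e (nat_lit 2668) (nat_lit 167) (.e (nat_lit 196670) (nat_lit 14) (.e (nat_lit 73754) (nat_lit 8) (.e (nat_lit 557105) (nat_lit 14) (.e (nat_lit 180252) (nat_lit 10) (.e (nat_lit 573473) (nat_lit 12) (.e (nat_lit 57511) (nat_lit 39) (.e (nat_lit 647168) (nat_lit 0) .nil)))))))) (.g (nat_lit 1) (.e (nat_lit 43270) (nat_lit 0) .nil) .nil))) 
(.lf (nat_lit 457288) (.g (nat_lit 773) (.e (nat_lit 2681) (nat_lit 168) (.e (nat_lit 204869) (nat_lit 29) (.e (nat_lit 360451) (nat_lit 0) .nil))) (.g (nat_lit 0) (.e (nat_lit 44348) (nat_lit 0) .nil) .nil)))) (.nd (nat_lit 9) 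
(.lf (nat_lit 457032) (.g (nat_lit 4807) (.e (nat_lit 2679) (nat_lit 168) (.e (nat_lit 204869) (nat_lit 29) (.e (nat_lit 360475) (nat_lit 8) (.e (nat_lit 557087) (nat_lit 11) (.e (nat_lit 24584) (nat_lit 0) (.e (nat_lit 6664) (nat_lit 357) .nil)))))) (.g (nat_lit 1) (.e (nat_lit 43850) (nat_lit 0) .nil) .nil))) 
(.lf (nat_lit 457544) (.g (nat_lit 4204) (.e (nat_lit 2682) (nat_lit 168) (.e (nat_lit 204869) (nat_lit 29) (.e (nat_lit 360475) (nat_lit 8) (.e (nat_lit 557087) (nat_lit 11) (.e (nat_lit 24588) (nat_lit 0) (.e (nat_lit 6676) (nat_lit 357) .nil)))))) (.g (nat_lit 1) (.e (nat_lit 45135) (nat_lit 0) .nil) .nil))))) (.nd (nat_lit 8) (.nd (nat_lit 9) 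
(.lf (nat_lit 456904) (.g (nat_lit 1959) (.e (nat_lit 2679) (nat_lit 168) (.e (nat_lit 204830) (nat_lit 18) (.e (nat_lit 57926) (nat_lit 282) (.e (nat_lit 163871) (nat_lit 2) .nil)))) (.g (nat_lit 0) (.e (nat_lit 43570) (nat_lit 0) .nil) .nil))) 
(.lf (nat_lit 457416) (.g (nat_lit 1404) (.e (nat_lit 2682) (nat_lit 168) (.e (nat_lit 204868) (nat_lit 29) (.e (nat_lit 360452) (nat_lit 0) (.e (nat_lit 3946) (nat_lit 239) (.e (nat_lit 1208) (nat_lit 89) .nil))))) (.g (nat_lit 0) (.e (nat_lit 44693) (nat_lit 0) .nil) .nil)))) (.nd (nat_lit 9) 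
(.lf (nat_lit 457160) (.g (nat_lit 2312) (.e (nat_lit 2681) (nat_lit 168) (.e (nat_lit 204830) (nat_lit 18) (.e (nat_lit 57929) (nat_lit 282) (.e (nat_lit 163869) (nat_lit 2) (.e (nat_lit 196670) (nat_lit 14) (.e (nat_lit 73746) (nat_lit 3) (.e (nat_lit 516124) (nat_lit 2) (.e (nat_lit 213013) (nat_lit 9) .nil)))))))) (.g (nat_lit 1) (.e (nat_lit 44057) (nat_lit 0) .nil) .nil))) 
(.lf (nat_lit 457672) (.g (nat_lit 3378) (.e (nat_lit 2684) (nat_lit 168) (.e (nat_lit 204830) (nat_lit 18) (.e (nat_lit 57927) (nat_lit 282) (.e (nat_lit 163874) (nat_lit 3) (.e (nat_lit 204863) (nat_lit 27) (.e (nat_lit 344117) (nat_lit 21) (.e (nat_lit 516123) (nat_lit 2) (.e (nat_lit 213013) (nat_lit 9) .nil)))))))) (.g (nat_lit 1) (.e (nat_lit 45465) (nat_lit 0) .nil) .nil))))))) 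
(.nd (nat_lit 6) (.nd (nat_lit 7) (.nd (nat_lit 8) (.nd (nat_lit 9) 
(.lf (nat_lit 456744) (.g (nat_lit 3475) (.e (nat_lit 2668) (nat_lit 167) (.e (nat_lit 196666) (nat_lit 13) (.e (nat_lit 65630) (nat_lit 14) (.e (nat_lit 401425) (nat_lit 2) (.e (nat_lit 196668) (nat_lit 14) (.e (nat_lit 81664) (nat_lit 32) .nil)))))) (.g (nat_lit 1) (.e (nat_lit 43227) (nat_lit 0) .nil) .nil))) 
(.lf (nat_lit 457256) (.g (nat_lit 2083) (.e (nat_lit 2681) (nat_lit 168) (.e (nat_lit 204863) (nat_lit 27) (.e (nat_lit 344133) (nat_lit 26) (.e (nat_lit 557096) (nat_lit 13) .nil)))) (.g (nat_lit 0) (.e (nat_lit 44229) (nat_lit 0) .nil) .nil)))) (.nd (nat_lit 9) 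
(.lf (nat_lit 457000) (.g (nat_lit 2863) (.e (nat_lit 2679) (nat_lit 168) (.e (nat_lit 204868) (nat_lit 29) (.e (nat_lit 360466) (nat_lit 3) (.e (nat_lit 516142) (nat_lit 8) (.e (nat_lit 417817) (nat_lit 10) (.e (nat_lit 5657) (nat_lit 312) .nil)))))) (.g (nat_lit 1) (.e (nat_lit 43780) (nat_lit 0) .nil) .nil))) 
(.lf (nat_lit 457512) (.g (nat_lit 4328) (.e (nat_lit 2682) (nat_lit 168) (.e (nat_lit 204869) (nat_lit 29) (.e (nat_lit 360474) (nat_lit 8) (.e (nat_lit 557087) (nat_lit 11) (.e (nat_lit 24584) (nat_lit 0) .nil))))) (.g (nat_lit 0) (.e (nat_lit 44953) (nat_lit 0) .nil) .nil))))) (.nd (nat_lit 8) (.nd (nat_lit 9) 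
(.lf (nat_lit 456872) (.g (nat_lit 4033) (.e (nat_lit 2675) (nat_lit 168) (.e (nat_lit 204869) (nat_lit 29) (.e (nat_lit 360475) (nat_lit 8) (.e (nat_lit 557087) (nat_lit 11) (.e (nat_lit 24580) (nat_lit 0) (.e (nat_lit 6624) (nat_lit 357) .nil)))))) (.g (nat_lit 1) (.e (nat_lit 43463) (nat_lit 0) .nil) .nil))) 
(.lf (nat_lit 457384) (.g (nat_lit 2738) (.e (nat_lit 2682) (nat_lit 168) (.e (nat_lit 204863) (nat_lit 27) (.e (nat_lit 344129) (nat_lit 26) (.e (nat_lit 557103) (nat_lit 14) (.e (nat_lit 180250) (nat_lit 10) (.e (nat_lit 573474) (nat_lit 12) (.e (nat_lit 57507) (nat_lit 39) (.e (nat_lit 647177) (nat_lit 0) .nil)))))))) (.g (nat_lit 1) (.e (nat_lit 44643) (nat_lit 0) .nil) .nil)))) 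
(.nd (nat_lit 9) 
(.lf (nat_lit 457128) (.g (nat_lit 3145) (.e (nat_lit 2681) (nat_lit 168) (.e (nat_lit 204830) (nat_lit 18) (.e (nat_lit 57926) (nat_lit 282) (.e (nat_lit 163868) (nat_lit 2) (.e (nat_lit 196668) (nat_lit 14) (.e (nat_lit 73746) (nat_lit 3) (.e (nat_lit 516127) (nat_lit 2) (.e (nat_lit 213019) (nat_lit 9) .nil)))))))) (.g (nat_lit 1) (.e (nat_lit 44021) (nat_lit 0) .nil) .nil))) 
(.lf (nat_lit 457640) (.g (nat_lit 2748) (.e (nat_lit 2684) (nat_lit 168) (.e (nat_lit 204830) (nat_lit 18) (.e (nat_lit 57925) (nat_lit 282) (.e (nat_lit 163868) (nat_lit 2) (.e (nat_lit 196668) (nat_lit 14) (.e (nat_lit 73747) (nat_lit 3) (.e (nat_lit 516124) (nat_lit 2) (.e (nat_lit 213013) (nat_lit 9) .nil)))))))) (.g (nat_lit 1) (.e (nat_lit 45423) (nat_lit 0) .nil) .nil)))))) 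
(.nd (nat_lit 7) (.nd (nat_lit 8) (.nd (nat_lit 9) 
(.lf (nat_lit 456808) (.g (nat_lit 2765) (.e (nat_lit 2668) (nat_lit 167) (.e (nat_lit 196683) (nat_lit 18) (.e (nat_lit 1374) (nat_lit 104) (.e (nat_lit 303145) (nat_lit 13) (.e (nat_lit 483337) (nat_lit 9) (.e (nat_lit 426107) (nat_lit 1) (.e (nat_lit 164347) (nat_lit 240) (.e (nat_lit 2416) (nat_lit 157) .nil)))))))) (.g (nat_lit 1) (.e (nat_lit 43316) (nat_lit 0) .nil) .nil))) 
(.lf (nat_lit 457320) (.g (nat_lit 1197) (.e (nat_lit 2682) (nat_lit 168) (.e (nat_lit 204829) (nat_lit 18) (.e (nat_lit 57686) (nat_lit 156) .nil))) (.g (nat_lit 0) (.e (nat_lit 44500) (nat_lit 0) .nil) .nil)))) (.nd (nat_lit 9) 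
(.lf (nat_lit 457064) (.g (nat_lit 1755) (.e (nat_lit 2681) (nat_lit 168) (.e (nat_lit 204819) (nat_lit 17) (.e (nat_lit 6113) (nat_lit 332) (.e (nat_lit 2810) (nat_lit 180) (.e (nat_lit 303117) (nat_lit 2) .nil))))) (.g (nat_lit 0) (.e (nat_lit 43942) (nat_lit 0) .nil) .nil))) 
(.lf (nat_lit 457576) (.g (nat_lit 3832) (.e (nat_lit 2683) (nat_lit 168) (.e (nat_lit 204830) (nat_lit 18) (.e (nat_lit 57926) (nat_lit 282) (.e (nat_lit 163868) (nat_lit 2) (.e (nat_lit 196668) (nat_lit 14) (.e (nat_lit 73747) (nat_lit 3) (.e (nat_lit 516124) (nat_lit 2) (.e (nat_lit 213019) (nat_lit 9) .nil)))))))) (.g (nat_lit 1) (.e (nat_lit 45277) (nat_lit 0) .nil) .nil))))) 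
(.nd (nat_lit 8) (.nd (nat_lit 9) 
(.lf (nat_lit 456936) (.g (nat_lit 2568) (.e (nat_lit 2679) (nat_lit 168) (.e (nat_lit 204846) (nat_lit 24) (.e (nat_lit 319534) (nat_lit 16) (.e (nat_lit 286732) (nat_lit 2) (.e (nat_lit 90172) (nat_lit 14) .nil))))) (.g (nat_lit 0) (.e (nat_lit 43679) (nat_lit 0) .nil) .nil))) 
(.lf (nat_lit 457448) (.g (nat_lit 3555) (.e (nat_lit 2682) (nat_lit 168) (.e (nat_lit 204869) (nat_lit 29) (.e (nat_lit 360450) (nat_lit 0) (.e (nat_lit 3986) (nat_lit 239) .nil)))) (.g (nat_lit 0) (.e (nat_lit 44774) (nat_lit 0) .nil) .nil)))) (.nd (nat_lit 9) 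
(.lf (nat_lit 457192) (.g (nat_lit 3238) (.e (nat_lit 2681) (nat_lit 168) (.e (nat_lit 204861) (nat_lit 26) (.e (nat_lit 336230) (nat_lit 14) (.e (nat_lit 401423) (nat_lit 2) (.e (nat_lit 196668) (nat_lit 14) (.e (nat_lit 73782) (nat_lit 32) .nil)))))) (.g (nat_lit 1) (.e (nat_lit 44164) (nat_lit 0) .nil) .nil))) 
(.lf (nat_lit 457704) (.g (nat_lit 1902) (.e (nat_lit 2684) (nat_lit 168) (.e (nat_lit 204846) (nat_lit 24) (.e (nat_lit 319534) (nat_lit 16) (.e (nat_lit 286733) (nat_lit 2) .nil)))) (.g (nat_lit 0) (.e (nat_lit 45530) (nat_lit 0) .nil) .nil)))))))) (.nd (nat_lit 5) (.nd (nat_lit 6) (.nd (nat_lit 7) (.nd (nat_lit 8) (.nd (nat_lit 9) 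
(.lf (nat_lit 456728) (.g (nat_lit 2454) (.e (nat_lit 2668) (nat_lit 167) (.e (nat_lit 196666) (nat_lit 13) (.e (nat_lit 65628) (nat_lit 14) (.e (nat_lit 401428) (nat_lit 3) (.e (nat_lit 204859) (nat_lit 26) (.e (nat_lit 335872) (nat_lit 0) (.e (nat_lit 6618) (nat_lit 357) .nil))))))) (.g (nat_lit 1) (.e (nat_lit 43207) (nat_lit 0) .nil) .nil))) 
(.lf (nat_lit 457240) (.g (nat_lit 2647) (.e (nat_lit 2681) (nat_lit 168) (.e (nat_lit 204863) (nat_lit 27) (.e (nat_lit 344132) (nat_lit 26) (.e (nat_lit 557103) (nat_lit 14) (.e (nat_lit 180243) (nat_lit 5) (.e (nat_lit 532501) (nat_lit 1) (.e (nat_lit 57703) (nat_lit 164) (.e (nat_lit 2515) (nat_lit 157) .nil)))))))) (.g (nat_lit 1) (.e (nat_lit 44213) (nat_lit 0) .nil) .nil)))) 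
(.nd (nat_lit 9) 
(.lf (nat_lit 456984) (.g (nat_lit 1325) (.e (nat_lit 2679) (nat_lit 168) (.e (nat_lit 204868) (nat_lit 29) (.e (nat_lit 360466) (nat_lit 3) (.e (nat_lit 516096) (nat_lit 0) .nil)))) (.g (nat_lit 0) (.e (nat_lit 43763) (nat_lit 0) .nil) .nil))) 
(.lf (nat_lit 457496) (.g (nat_lit 2733) (.e (nat_lit 2682) (nat_lit 168) (.e (nat_lit 204869) (nat_lit 29) (.e (nat_lit 360474) (nat_lit 8) (.e (nat_lit 557066) (nat_lit 9) .nil)))) (.g (nat_lit 0) (.e (nat_lit 44934) (nat_lit 0) .nil) .nil))))) (.nd (nat_lit 8) (.nd (nat_lit 9) 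
(.lf (nat_lit 456856) (.g (nat_lit 1232) (.e (nat_lit 2675) (nat_lit 168) (.e (nat_lit 204868) (nat_lit 29) (.e (nat_lit 360467) (nat_lit 3) (.e (nat_lit 516139) (nat_lit 7) .nil)))) (.g (nat_lit 0) (.e (nat_lit 43442) (nat_lit 0) .nil) .nil))) 
(.lf (nat_lit 457368) (.g (nat_lit 1336) (.e (nat_lit 2682) (nat_lit 168) (.e (nat_lit 204861) (nat_lit 26) (.e (nat_lit 336076) (nat_lit 9) (.e (nat_lit 336314) (nat_lit 16) .nil)))) (.g (nat_lit 0) (.e (nat_lit 44602) (nat_lit 0) .nil) .nil)))) (.nd (nat_lit 9) 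
(.lf (nat_lit 457112) (.g (nat_lit 2208) (.e (nat_lit 2681) (nat_lit 168) (.e (nat_lit 204829) (nat_lit 18) (.e (nat_lit 57928) (nat_lit 282) (.e (nat_lit 163868) (nat_lit 2) (.e (nat_lit 196668) (nat_lit 14) (.e (nat_lit 73747) (nat_lit 3) (.e (nat_lit 516124) (nat_lit 2) (.e (nat_lit 213019) (nat_lit 9) .nil)))))))) (.g (nat_lit 1) (.e (nat_lit 43998) (nat_lit 0) .nil) .nil))) 
(.lf (nat_lit 457624) (.g (nat_lit 3259) (.e (nat_lit 2684) (nat_lit 168) (.e (nat_lit 204829) (nat_lit 18) (.e (nat_lit 57927) (nat_lit 282) (.e (nat_lit 163871) (nat_lit 2) (.e (nat_lit 196670) (nat_lit 14) (.e (nat_lit 73746) (nat_lit 3) (.e (nat_lit 516124) (nat_lit 2) (.e (nat_lit 213013) (nat_lit 9) .nil)))))))) (.g (nat_lit 1) (.e (nat_lit 45397) (nat_lit 0) .nil) .nil)))))) 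
(.nd (nat_lit 7) (.nd (nat_lit 8) (.nd (nat_lit 9) 
(.lf (nat_lit 456792) (.g (nat_lit 731) (.e (nat_lit 2668) (nat_lit 167) (.e (nat_lit 196672) (nat_lit 15) (.e (nat_lit 81943) (nat_lit 20) .nil))) (.g (nat_lit 0) (.e (nat_lit 43294) (nat_lit 0) .nil) .nil))) 
(.lf (nat_lit 457304) (.g (nat_lit 4210) (.e (nat_lit 2681) (nat_lit 168) (.e (nat_lit 204869) (nat_lit 29) (.e (nat_lit 360475) (nat_lit 8) (.e (nat_lit 557065) (nat_lit 9) (.e (nat_lit 297) (nat_lit 22) .nil))))) (.g (nat_lit 0) (.e (nat_lit 44392) (nat_lit 0) .nil) .nil)))) (.nd (nat_lit 9) 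
(.lf (nat_lit 457048) (.g (nat_lit 2285) (.e (nat_lit 2680) (nat_lit 168) (.e (nat_lit 204829) (nat_lit 18) (.e (nat_lit 57927) (nat_lit 282) (.e (nat_lit 163875) (nat_lit 3) (.e (nat_lit 204862) (nat_lit 27) .nil))))) (.g (nat_lit 0) (.e (nat_lit 43888) (nat_lit 0) .nil) .nil))) 
(.lf (nat_lit 457560) (.g (nat_lit 3206) (.e (nat_lit 2683) (nat_lit 168) (.e (nat_lit 204829) (nat_lit 18) (.e (nat_lit 57927) (nat_lit 282) (.e (nat_lit 163869) (nat_lit 2) (.e (nat_lit 196670) (nat_lit 14) (.e (nat_lit 73746) (nat_lit 3) (.e (nat_lit 516124) (nat_lit 2) (.e (nat_lit 213020) (nat_lit 9) .nil)))))))) (.g (nat_lit 1) (.e (nat_lit 45255) (nat_lit 0) .nil) .nil))))) 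
(.nd (nat_lit 8) (.nd (nat_lit 9) 
(.lf (nat_lit 456920) (.g (nat_lit 2379) (.e (nat_lit 2679) (nat_lit 168) (.e (nat_lit 204846) (nat_lit 24) (.e (nat_lit 319531) (nat_lit 16) (.e (nat_lit 286735) (nat_lit 3) (.e (nat_lit 98325) (nat_lit 17) .nil))))) (.g (nat_lit 0) (.e (nat_lit 43655) (nat_lit 0) .nil) .nil))) 
(.lf (nat_lit 457432) (.g (nat_lit 2120) (.e (nat_lit 2682) (nat_lit 168) (.e (nat_lit 204869) (nat_lit 29) (.e (nat_lit 360448) (nat_lit 0) (.e (nat_lit 3923) (nat_lit 239) .nil)))) (.g (nat_lit 0) (.e (nat_lit 44753) (nat_lit 0) .nil) .nil)))) (.nd (nat_lit 9) 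
(.lf (nat_lit 457176) (.g (nat_lit 4314) (.e (nat_lit 2681) (nat_lit 168) (.e (nat_lit 204831) (nat_lit 18) (.e (nat_lit 57931) (nat_lit 282) (.e (nat_lit 163869) (nat_lit 2) (.e (nat_lit 196670) (nat_lit 14) (.e (nat_lit 73746) (nat_lit 3) (.e (nat_lit 516127) (nat_lit 2) (.e (nat_lit 213019) (nat_lit 9) .nil)))))))) (.g (nat_lit 1) (.e (nat_lit 44083) (nat_lit 0) .nil) .nil))) 
(.lf (nat_lit 457688) (.g (nat_lit 4817) (.e (nat_lit 2684) (nat_lit 168) (.e (nat_lit 204831) (nat_lit 18) (.e (nat_lit 57931) (nat_lit 282) (.e (nat_lit 163869) (nat_lit 2) (.e (nat_lit 196670) (nat_lit 14) (.e (nat_lit 73746) (nat_lit 3) (.e (nat_lit 516124) (nat_lit 2) (.e (nat_lit 213013) (nat_lit 9) .nil)))))))) (.g (nat_lit 1) (.e (nat_lit 45495) (nat_lit 0) .nil) .nil))))))) 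
(.nd (nat_lit 6) (.nd (nat_lit 7) (.nd (nat_lit 8) (.nd (nat_lit 9) 
(.lf (nat_lit 456760) (.g (nat_lit 2502) (.e (nat_lit 2668) (nat_lit 167) (.e (nat_lit 196668) (nat_lit 14) (.e (nat_lit 73782) (nat_lit 32) (.e (nat_lit 2664) (nat_lit 167) (.e (nat_lit 196668) (nat_lit 14) (.e (nat_lit 81664) (nat_lit 32) .nil)))))) (.g (nat_lit 1) (.e (nat_lit 43251) (nat_lit 0) .nil) .nil))) 
(.lf (nat_lit 457272) (.g (nat_lit 1718) (.e (nat_lit 2681) (nat_lit 168) (.e (nat_lit 204863) (nat_lit 27) (.e (nat_lit 344133) (nat_lit 26) (.e (nat_lit 557105) (nat_lit 14) .nil)))) (.g (nat_lit 0) (.e (nat_lit 44245) (nat_lit 0) .nil) .nil)))) (.nd (nat_lit 9) 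
(.lf (nat_lit 457016) (.g (nat_lit 2528) (.e (nat_lit 2679) (nat_lit 168) (.e (nat_lit 204869) (nat_lit 29) (.e (nat_lit 360474) (nat_lit 8) (.e (nat_lit 557064) (nat_lit 9) .nil)))) (.g (nat_lit 0) (.e (nat_lit 43828) (nat_lit 0) .nil) .nil))) 
(.lf (nat_lit 457528) (.g (nat_lit 5804) (.e (nat_lit 2682) (nat_lit 168) (.e (nat_lit 204869) (nat_lit 29) (.e (nat_lit 360475) (nat_lit 8) (.e (nat_lit 557080) (nat_lit 9) .nil)))) (.g (nat_lit 0) (.e (nat_lit 45118) (nat_lit 0) .nil) .nil))))) (.nd (nat_lit 8) (.nd (nat_lit 9) 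
(.lf (nat_lit 456888) (.g (nat_lit 2899) (.e (nat_lit 2678) (nat_lit 168) (.e (nat_lit 204829) (nat_lit 18) (.e (nat_lit 57927) (nat_lit 282) (.e (nat_lit 163874) (nat_lit 3) (.e (nat_lit 204862) (nat_lit 27) .nil))))) (.g (nat_lit 0) (.e (nat_lit 43500) (nat_lit 0) .nil) .nil))) 
(.lf (nat_lit 457400) (.g (nat_lit 2034) (.e (nat_lit 2682) (nat_lit 168) (.e (nat_lit 204863) (nat_lit 27) (.e (nat_lit 344133) (nat_lit 26) (.e (nat_lit 557096) (nat_lit 13) .nil)))) (.g (nat_lit 0) (.e (nat_lit 44659) (nat_lit 0) .nil) .nil)))) (.nd (nat_lit 9) 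
(.lf (nat_lit 457144) (.g (nat_lit 3326) (.e (nat_lit 2681) (nat_lit 168) (.e (nat_lit 204830) (nat_lit 18) (.e (nat_lit 57926) (nat_lit 282) (.e (nat_lit 163869) (nat_lit 2) (.e (nat_lit 196670) (nat_lit 14) (.e (nat_lit 73746) (nat_lit 3) (.e (nat_lit 516127) (nat_lit 2) (.e (nat_lit 213022) (nat_lit 9) .nil)))))))) (.g (nat_lit 1) (.e (nat_lit 44039) (nat_lit 0) .nil) .nil))) 
(.lf (nat_lit 457656) (.g (nat_lit 3425) (.e (nat_lit 2684) (nat_lit 168) (.e (nat_lit 204830) (nat_lit 18) (.e (nat_lit 57926) (nat_lit 282) (.e (nat_lit 163875) (nat_lit 3) (.e (nat_lit 204863) (nat_lit 27) (.e (nat_lit 344117) (nat_lit 21) (.e (nat_lit 516123) (nat_lit 2) (.e (nat_lit 213013) (nat_lit 9) .nil)))))))) (.g (nat_lit 1) (.e (nat_lit 45444) (nat_lit 0) .nil) .nil)))))) 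
(.nd (nat_lit 7) (.nd (nat_lit 8) (.nd (nat_lit 9) 
(.lf (nat_lit 456824) (.g (nat_lit 2778) (.e (nat_lit 2672) (nat_lit 168) (.e (nat_lit 204830) (nat_lit 18) (.e (nat_lit 57926) (nat_lit 282) (.e (nat_lit 163875) (nat_lit 3) (.e (nat_lit 204862) (nat_lit 27) .nil))))) (.g (nat_lit 0) (.e (nat_lit 43337) (nat_lit 0) .nil) .nil))) 
(.lf (nat_lit 457336) (.g (nat_lit 2557) (.e (nat_lit 2682) (nat_lit 168) (.e (nat_lit 204846) (nat_lit 24) (.e (nat_lit 327424) (nat_lit 8) (.e (nat_lit 303117) (nat_lit 2) (.e (nat_lit 196668) (nat_lit 14) (.e (nat_lit 73782) (nat_lit 32) .nil)))))) (.g (nat_lit 1) (.e (nat_lit 44529) (nat_lit 0) .nil) .nil)))) (.nd (nat_lit 9) 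
(.lf (nat_lit 457080) (.g (nat_lit 2178) (.e (nat_lit 2681) (nat_lit 168) (.e (nat_lit 204829) (nat_lit 18) (.e (nat_lit 57927) (nat_lit 282) (.e (nat_lit 163868) (nat_lit 2) (.e (nat_lit 196668) (nat_lit 14) (.e (nat_lit 73746) (nat_lit 3) (.e (nat_lit 516124) (nat_lit 2) (.e (nat_lit 213022) (nat_lit 9) .nil)))))))) (.g (nat_lit 1) (.e (nat_lit 43962) (nat_lit 0) .nil) .nil))) 
(.lf (nat_lit 457592) (.g (nat_lit 2837) (.e (nat_lit 2683) (nat_lit 168) (.e (nat_lit 204830) (nat_lit 18) (.e (nat_lit 57926) (nat_lit 282) (.e (nat_lit 163875) (nat_lit 3) (.e (nat_lit 204862) (nat_lit 27) (.e (nat_lit 344117) (nat_lit 21) (.e (nat_lit 516122) (nat_lit 2) (.e (nat_lit 213022) (nat_lit 9) .nil)))))))) (.g (nat_lit 1) (.e (nat_lit 45294) (nat_lit 0) .nil) .nil))))) 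
(.nd (nat_lit 8) (.nd (nat_lit 9) 
(.lf (nat_lit 456952) (.g (nat_lit 2024) (.e (nat_lit 2679) (nat_lit 168) (.e (nat_lit 204850) (nat_lit 26) (.e (nat_lit 336205) (nat_lit 12) (.e (nat_lit 385074) (nat_lit 31) (.e (nat_lit 573487) (nat_lit 14) (.e (nat_lit 81664) (nat_lit 32) .nil)))))) (.g (nat_lit 1) (.e (nat_lit 43702) (nat_lit 0) .nil) .nil))) 
(.lf (nat_lit 457464) (.g (nat_lit 918) (.e (nat_lit 2682) (nat_lit 168) (.e (nat_lit 204869) (nat_lit 29) (.e (nat_lit 360453) (nat_lit 0) .nil))) (.g (nat_lit 0) (.e (nat_lit 44814) (nat_lit 0) .nil) .nil)))) (.nd (nat_lit 9) 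
(.lf (nat_lit 457208) (.g (nat_lit 2413) (.e (nat_lit 2681) (nat_lit 168) (.e (nat_lit 204863) (nat_lit 27) (.e (nat_lit 344117) (nat_lit 21) (.e (nat_lit 516129) (nat_lit 3) (.e (nat_lit 221210) (nat_lit 22) .nil))))) (.g (nat_lit 0) (.e (nat_lit 44181) (nat_lit 0) .nil) .nil))) 
(.lf (nat_lit 457720) (.g (nat_lit 1902) (.e (nat_lit 2684) (nat_lit 168) (.e (nat_lit 204861) (nat_lit 26) (.e (nat_lit 336204) (nat_lit 12) (.e (nat_lit 385074) (nat_lit 31) (.e (nat_lit 573487) (nat_lit 14) .nil))))) (.g (nat_lit 0) (.e (nat_lit 45572) (nat_lit 0) .nil) .nil)))))))))) 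
(.nd (nat_lit 3) (.nd (nat_lit 4) (.nd (nat_lit 5) (.nd (nat_lit 6) (.nd (nat_lit 7) 
(.nd (nat_lit 8) (.nd (nat_lit 9) 
(.lf (nat_lit 456708) (.g (nat_lit 4110) (.e (nat_lit 2668) (nat_lit 167) (.e (nat_lit 196666) (nat_lit 13) (.e (nat_lit 65624) (nat_lit 12) (.e (nat_lit 385074) (nat_lit 31) (.e (nat_lit 573487) (nat_lit 14) (.e (nat_lit 81664) (nat_lit 32) .nil)))))) (.g (nat_lit 1) (.e (nat_lit 43176) (nat_lit 0) .nil) .nil))) 
(.lf (nat_lit 457220) (.g (nat_lit 2381) (.e (nat_lit 2681) (nat_lit 168) (.e (nat_lit 204863) (nat_lit 27) (.e (nat_lit 344130) (nat_lit 26) (.e (nat_lit 557097) (nat_lit 13) (.e (nat_lit 172066) (nat_lit 3) .nil))))) (.g (nat_lit 0) (.e (nat_lit 44193) (nat_lit 0) .nil) .nil)))) (.nd (nat_lit 9) 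
(.lf (nat_lit 456964) (.g (nat_lit 3009) (.e (nat_lit 2679) (nat_lit 168) (.e (nat_lit 204863) (nat_lit 27) (.e (nat_lit 344117) (nat_lit 21) (.e (nat_lit 516129) (nat_lit 3) (.e (nat_lit 229120) (nat_lit 3) .nil))))) (.g (nat_lit 0) (.e (nat_lit 43734) (nat_lit 0) .nil) .nil))) 
(.lf (nat_lit 457476) (.g (nat_lit 3443) (.e (nat_lit 2682) (nat_lit 168) (.e (nat_lit 204869) (nat_lit 29) (.e (nat_lit 360472) (nat_lit 8) (.e (nat_lit 557066) (nat_lit 9) (.e (nat_lit 297) (nat_lit 22) .nil))))) (.g (nat_lit 0) (.e (nat_lit 44913) (nat_lit 0) .nil) .nil))))) (.nd (nat_lit 8) (.nd (nat_lit 9) 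
(.lf (nat_lit 456836) (.g (nat_lit 4507) (.e (nat_lit 2674) (nat_lit 168) (.e (nat_lit 204869) (nat_lit 29) (.e (nat_lit 360475) (nat_lit 8) (.e (nat_lit 557068) (nat_lit 9) .nil)))) (.g (nat_lit 0) (.e (nat_lit 43394) (nat_lit 0) .nil) .nil))) 
(.lf (nat_lit 457348) (.g (nat_lit 2394) (.e (nat_lit 2682) (nat_lit 168) (.e (nat_lit 204849) (nat_lit 25) (.e (nat_lit 327699) (nat_lit 8) (.e (nat_lit 303116) (nat_lit 2) (.e (nat_lit 196670) (nat_lit 14) (.e (nat_lit 73781) (nat_lit 32) .nil)))))) (.g (nat_lit 1) (.e (nat_lit 44551) (nat_lit 0) .nil) .nil)))) (.nd (nat_lit 9) 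
(.lf (nat_lit 457092) (.g (nat_lit 2205) (.e (nat_lit 2681) (nat_lit 168) (.e (nat_lit 204829) (nat_lit 18) (.e (nat_lit 57927) (nat_lit 282) (.e (nat_lit 163869) (nat_lit 2) (.e (nat_lit 196670) (nat_lit 14) (.e (nat_lit 73746) (nat_lit 3) (.e (nat_lit 516124) (nat_lit 2) (.e (nat_lit 213016) (nat_lit 9) .nil)))))))) (.g (nat_lit 1) (.e (nat_lit 43978) (nat_lit 0) .nil) .nil))) 
(.lf (nat_lit 457604) (.g (nat_lit 3705) (.e (nat_lit 2684) (nat_lit 168) (.e (nat_lit 204819) (nat_lit 17) (.e (nat_lit 6113) (nat_lit 332) (.e (nat_lit 1374) (nat_lit 104) (.e (nat_lit 303119) (nat_lit 3) (.e (nat_lit 204846) (nat_lit 24) (.e (nat_lit 319504) (nat_lit 10) (.e (nat_lit 5734) (nat_lit 312) .nil)))))))) (.g (nat_lit 1) (.e (nat_lit 45370) (nat_lit 0) .nil) .nil)))))) 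
(.nd (nat_lit 7) (.nd (nat_lit 8) (.nd (nat_lit 9) 
(.lf (nat_lit 456772) (.g (nat_lit 2471) (.e (nat_lit 2668) (nat_lit 167) (.e (nat_lit 196670) (nat_lit 14) (.e (nat_lit 73754) (nat_lit 8) (.e (nat_lit 557105) (nat_lit 14) (.e (nat_lit 180252) (nat_lit 10) (.e (nat_lit 573473) (nat_lit 12) (.e (nat_lit 57507) (nat_lit 39) (.e (nat_lit 655104) (nat_lit 0) .nil)))))))) (.g (nat_lit 1) (.e (nat_lit 43266) (nat_lit 0) .nil) .nil))) 
(.lf (nat_lit 457284) (.g (nat_lit 2761) (.e (nat_lit 2681) (nat_lit 168) (.e (nat_lit 204868) (nat_lit 29) (.e (nat_lit 360466) (nat_lit 3) (.e (nat_lit 516139) (nat_lit 7) (.e (nat_lit 409616) (nat_lit 10) (.e (nat_lit 5710) (nat_lit 312) .nil)))))) (.g (nat_lit 1) (.e (nat_lit 44291) (nat_lit 0) .nil) .nil)))) (.nd (nat_lit 9) 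
(.lf (nat_lit 457028) (.g (nat_lit 2551) (.e (nat_lit 2679) (nat_lit 168) (.e (nat_lit 204869) (nat_lit 29) (.e (nat_lit 360475) (nat_lit 8) (.e (nat_lit 557086) (nat_lit 11) .nil)))) (.g (nat_lit 0) (.e (nat_lit 43846) (nat_lit 0) .nil) .nil))) 
(.lf (nat_lit 457540) (.g (nat_lit 5825) (.e (nat_lit 2682) (nat_lit 168) (.e (nat_lit 204869) (nat_lit 29) (.e (nat_lit 360475) (nat_lit 8) (.e (nat_lit 557087) (nat_lit 11) (.e (nat_lit 24584) (nat_lit 0) (.e (nat_lit 6666) (nat_lit 357) .nil)))))) (.g (nat_lit 1) (.e (nat_lit 45131) (nat_lit 0) .nil) .nil))))) (.nd (nat_lit 8) (.nd (nat_lit 9) 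
(.lf (nat_lit 456900) (.g (nat_lit 2461) (.e (nat_lit 2679) (nat_lit 168) (.e (nat_lit 204829) (nat_lit 18) (.e (nat_lit 57927) (nat_lit 282) (.e (nat_lit 163868) (nat_lit 2) (.e (nat_lit 196670) (nat_lit 14) .nil))))) (.g (nat_lit 0) (.e (nat_lit 43565) (nat_lit 0) .nil) .nil))) 
(.lf (nat_lit 457412) (.g (nat_lit 3417) (.e (nat_lit 2682) (nat_lit 168) (.e (nat_lit 204863) (nat_lit 27) (.e (nat_lit 344133) (nat_lit 26) (.e (nat_lit 557105) (nat_lit 14) (.e (nat_lit 180252) (nat_lit 10) (.e (nat_lit 573474) (nat_lit 12) (.e (nat_lit 57513) (nat_lit 40) (.e (nat_lit 655368) (nat_lit 0) .nil)))))))) (.g (nat_lit 1) (.e (nat_lit 44671) (nat_lit 0) .nil) .nil)))) 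
(.nd (nat_lit 9) 
(.lf (nat_lit 457156) (.g (nat_lit 2482) (.e (nat_lit 2681) (nat_lit 168) (.e (nat_lit 204830) (nat_lit 18) (.e (nat_lit 57927) (nat_lit 282) (.e (nat_lit 163868) (nat_lit 2) (.e (nat_lit 196670) (nat_lit 14) (.e (nat_lit 73746) (nat_lit 3) (.e (nat_lit 516124) (nat_lit 2) (.e (nat_lit 213019) (nat_lit 9) .nil)))))))) (.g (nat_lit 1) (.e (nat_lit 44052) (nat_lit 0) .nil) .nil))) 
(.lf (nat_lit 457668) (.g (nat_lit 2633) (.e (nat_lit 2684) (nat_lit 168) (.e (nat_lit 204830) (nat_lit 18) (.e (nat_lit 57927) (nat_lit 282) (.e (nat_lit 163869) (nat_lit 2) (.e (nat_lit 196670) (nat_lit 14) (.e (nat_lit 73746) (nat_lit 3) (.e (nat_lit 516127) (nat_lit 2) (.e (nat_lit 213013) (nat_lit 9) .nil)))))))) (.g (nat_lit 1) (.e (nat_lit 45459) (nat_lit 0) .nil) .nil))))))) 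
(.nd (nat_lit 6) (.nd (nat_lit 7) (.nd (nat_lit 8) (.nd (nat_lit 9) 
(.lf (nat_lit 456740) (.g (nat_lit 4444) (.e (nat_lit 2668) (nat_lit 167) (.e (nat_lit 196666) (nat_lit 13) (.e (nat_lit 65630) (nat_lit 14) (.e (nat_lit 401425) (nat_lit 2) (.e (nat_lit 196628) (nat_lit 9) (.e (nat_lit 1512) (nat_lit 108) (.e (nat_lit 335874) (nat_lit 0) (.e (nat_lit 6618) (nat_lit 357) .nil)))))))) (.g (nat_lit 1) (.e (nat_lit 43222) (nat_lit 0) .nil) .nil))) 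
(.lf (nat_lit 457252) (.g (nat_lit 4688) (.e (nat_lit 2681) (nat_lit 168) (.e (nat_lit 204863) (nat_lit 27) (.e (nat_lit 344132) (nat_lit 26) (.e (nat_lit 557105) (nat_lit 14) (.e (nat_lit 180252) (nat_lit 10) (.e (nat_lit 573475) (nat_lit 12) (.e (nat_lit 57507) (nat_lit 39) (.e (nat_lit 647176) (nat_lit 0) .nil)))))))) (.g (nat_lit 1) (.e (nat_lit 44225) (nat_lit 0) .nil) .nil)))) 
(.nd (nat_lit 9) 
(.lf (nat_lit 456996) (.g (nat_lit 2309) (.e (nat_lit 2679) (nat_lit 168) (.e (nat_lit 204868) (nat_lit 29) (.e (nat_lit 360466) (nat_lit 3) (.e (nat_lit 516141) (nat_lit 8) (.e (nat_lit 425728) (nat_lit 10) (.e (nat_lit 5664) (nat_lit 312) .nil)))))) (.g (nat_lit 1) (.e (nat_lit 43776) (nat_lit 0) .nil) .nil))) 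
(.lf (nat_lit 457508) (.g (nat_lit 2988) (.e (nat_lit 2682) (nat_lit 168) (.e (nat_lit 204869) (nat_lit 29) (.e (nat_lit 360474) (nat_lit 8) (.e (nat_lit 564992) (nat_lit 9) .nil)))) (.g (nat_lit 0) (.e (nat_lit 44949) (nat_lit 0) .nil) .nil))))) (.nd (nat_lit 8) (.nd (nat_lit 9) 
(.lf (nat_lit 456868) (.g (nat_lit 3037) (.e (nat_lit 2675) (nat_lit 168) (.e (nat_lit 204869) (nat_lit 29) (.e (nat_lit 360475) (nat_lit 8) (.e (nat_lit 557073) (nat_lit 9) .nil)))) (.g (nat_lit 0) (.e (nat_lit 43459) (nat_lit 0) .nil) .nil))) 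
(.lf (nat_lit 457380) (.g (nat_lit 2870) (.e (nat_lit 2682) (nat_lit 168) (.e (nat_lit 204863) (nat_lit 27) (.e (nat_lit 344117) (nat_lit 21) (.e (nat_lit 516129) (nat_lit 3) (.e (nat_lit 221210) (nat_lit 22) (.e (nat_lit 196658) (nat_lit 12) (.e (nat_lit 57508) (nat_lit 39) (.e (nat_lit 647177) (nat_lit 0) .nil)))))))) (.g (nat_lit 1) (.e (nat_lit 44638) (nat_lit 0) .nil) .nil)))) 
(.nd (nat_lit 9) 
(.lf (nat_lit 457124) (.g (nat_lit 890) (.e (nat_lit 2681) (nat_lit 168) (.e (nat_lit 204830) (nat_lit 18) (.e (nat_lit 57926) (nat_lit 282) .nil))) (.g (nat_lit 0) (.e (nat_lit 44016) (nat_lit 0) .nil) .nil))) 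
(.lf (nat_lit 457636) (.g (nat_lit 4124) (.e (nat_lit 2684) (nat_lit 168) (.e (nat_lit 204830) (nat_lit 18) (.e (nat_lit 57924) (nat_lit 282) (.e (nat_lit 163867) (nat_lit 2) (.e (nat_lit 196670) (nat_lit 14) (.e (nat_lit 73746) (nat_lit 3) (.e (nat_lit 516124) (nat_lit 2) (.e (nat_lit 213013) (nat_lit 9) .nil)))))))) (.g (nat_lit 1) (.e (nat_lit 45418) (nat_lit 0) .nil) .nil)))))) 
(.nd (nat_lit 7) (.nd (nat_lit 8) (.nd (nat_lit 9) 
(.lf (nat_lit 456804) (.g (nat_lit 4491) (.e (nat_lit 2668) (nat_lit 167) (.e (nat_lit 196674) (nat_lit 15) (.e (nat_lit 81956) (nat_lit 23) (.e (nat_lit 98350) (nat_lit 24) (.e (nat_lit 409616) (nat_lit 10) .nil))))) (.g (nat_lit 0) (.e (nat_lit 43307) (nat_lit 0) .nil) .nil))) 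
(.lf (nat_lit 457316) (.g (nat_lit 3493) (.e (nat_lit 2682) (nat_lit 168) (.e (nat_lit 204816) (nat_lit 17) (.e (nat_lit 6203) (nat_lit 332) (.e (nat_lit 2798) (nat_lit 180) (.e (nat_lit 303117) (nat_lit 2) (.e (nat_lit 196670) (nat_lit 14) (.e (nat_lit 73781) (nat_lit 32) .nil))))))) (.g (nat_lit 1) (.e (nat_lit 44495) (nat_lit 0) .nil) .nil)))) (.nd (nat_lit 9) 
(.lf (nat_lit 457060) (.g (nat_lit 2245) (.e (nat_lit 2680) (nat_lit 168) (.e (nat_lit 204864) (nat_lit 27) (.e (nat_lit 344133) (nat_lit 26) (.e (nat_lit 557098) (nat_lit 13) (.e (nat_lit 179968) (nat_lit 18) (.e (nat_lit 98325) (nat_lit 17) (.e (nat_lit 3409) (nat_lit 212) (.e (nat_lit 655364) (nat_lit 0) .nil)))))))) (.g (nat_lit 1) (.e (nat_lit 43908) (nat_lit 0) .nil) .nil))) 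
(.lf (nat_lit 457572) (.g (nat_lit 2926) (.e (nat_lit 2683) (nat_lit 168) (.e (nat_lit 204829) (nat_lit 18) (.e (nat_lit 57931) (nat_lit 282) (.e (nat_lit 163867) (nat_lit 2) (.e (nat_lit 196670) (nat_lit 14) (.e (nat_lit 73746) (nat_lit 3) (.e (nat_lit 516127) (nat_lit 2) (.e (nat_lit 213019) (nat_lit 9) .nil)))))))) (.g (nat_lit 1) (.e (nat_lit 45269) (nat_lit 0) .nil) .nil))))) 
(.nd (nat_lit 8) (.nd (nat_lit 9) 
(.lf (nat_lit 456932) (.g (nat_lit 3424) (.e (nat_lit 2679) (nat_lit 168) (.e (nat_lit 204846) (nat_lit 24) (.e (nat_lit 319533) (nat_lit 16) (.e (nat_lit 286734) (nat_lit 3) (.e (nat_lit 98367) (nat_lit 27) (.e (nat_lit 442112) (nat_lit 8) .nil)))))) (.g (nat_lit 1) (.e (nat_lit 43673) (nat_lit 0) .nil) .nil))) 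
(.lf (nat_lit 457444) (.g (nat_lit 3540) (.e (nat_lit 2682) (nat_lit 168) (.e (nat_lit 204869) (nat_lit 29) (.e (nat_lit 360450) (nat_lit 0) (.e (nat_lit 3928) (nat_lit 239) .nil)))) (.g (nat_lit 0) (.e (nat_lit 44770) (nat_lit 0) .nil) .nil)))) (.nd (nat_lit 9) 
(.lf (nat_lit 457188) (.g (nat_lit 2882) (.e (nat_lit 2681) (nat_lit 168) (.e (nat_lit 204861) (nat_lit 26) (.e (nat_lit 336204) (nat_lit 12) (.e (nat_lit 385074) (nat_lit 31) (.e (nat_lit 573487) (nat_lit 14) (.e (nat_lit 73781) (nat_lit 32) .nil)))))) (.g (nat_lit 1) (.e (nat_lit 44157) (nat_lit 0) .nil) .nil))) 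
(.lf (nat_lit 457700) (.g (nat_lit 1555) (.e (nat_lit 2684) (nat_lit 168) (.e (nat_lit 204846) (nat_lit 24) (.e (nat_lit 319532) (nat_lit 16) (.e (nat_lit 286734) (nat_lit 3) .nil)))) (.g (nat_lit 0) (.e (nat_lit 45526) (nat_lit 0) .nil) .nil)))))))) (.nd (nat_lit 5) (.nd (nat_lit 6) (.nd (nat_lit 7) (.nd (nat_lit 8) (.nd (nat_lit 9) 
(.lf (nat_lit 456724) (.g (nat_lit 2529) (.e (nat_lit 2668) (nat_lit 167) (.e (nat_lit 196666) (nat_lit 13) (.e (nat_lit 65628) (nat_lit 14) (.e (nat_lit 401428) (nat_lit 3) (.e (nat_lit 204846) (nat_lit 24) (.e (nat_lit 319490) (nat_lit 0) (.e (nat_lit 5612) (nat_lit 312) .nil))))))) (.g (nat_lit 1) (.e (nat_lit 43203) (nat_lit 0) .nil) .nil))) 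
(.lf (nat_lit 457236) (.g (nat_lit 3431) (.e (nat_lit 2681) (nat_lit 168) (.e (nat_lit 204863) (nat_lit 27) (.e (nat_lit 344131) (nat_lit 26) (.e (nat_lit 557105) (nat_lit 14) (.e (nat_lit 180252) (nat_lit 10) (.e (nat_lit 573474) (nat_lit 12) (.e (nat_lit 57508) (nat_lit 39) (.e (nat_lit 647176) (nat_lit 0) .nil)))))))) (.g (nat_lit 1) (.e (nat_lit 44209) (nat_lit 0) .nil) .nil)))) 
(.nd (nat_lit 9) 
(.lf (nat_lit 456980) (.g (nat_lit 3333) (.e (nat_lit 2679) (nat_lit 168) (.e (nat_lit 204866) (nat_lit 28) (.e (nat_lit 352313) (nat_lit 23) (.e (nat_lit 98350) (nat_lit 24) (.e (nat_lit 409623) (nat_lit 10) (.e (nat_lit 5664) (nat_lit 312) .nil)))))) (.g (nat_lit 1) (.e (nat_lit 43756) (nat_lit 0) .nil) .nil))) 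
(.lf (nat_lit 457492) (.g (nat_lit 3645) (.e (nat_lit 2682) (nat_lit 168) (.e (nat_lit 204869) (nat_lit 29) (.e (nat_lit 360473) (nat_lit 8) (.e (nat_lit 557087) (nat_lit 11) (.e (nat_lit 24588) (nat_lit 0) (.e (nat_lit 6676) (nat_lit 357) .nil)))))) (.g (nat_lit 1) (.e (nat_lit 44929) (nat_lit 0) .nil) .nil))))) (.nd (nat_lit 8) (.nd (nat_lit 9) 
(.lf (nat_lit 456852) (.g (nat_lit 3980) (.e (nat_lit 2675) (nat_lit 168) (.e (nat_lit 204863) (nat_lit 27) (.e (nat_lit 344132) (nat_lit 26) (.e (nat_lit 557105) (nat_lit 14) (.e (nat_lit 180252) (nat_lit 10) (.e (nat_lit 573473) (nat_lit 12) (.e (nat_lit 57508) (nat_lit 39) (.e (nat_lit 647170) (nat_lit 0) .nil)))))))) (.g (nat_lit 1) (.e (nat_lit 43431) (nat_lit 0) .nil) .nil))) 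
(.lf (nat_lit 457364) (.g (nat_lit 2241) (.e (nat_lit 2682) (nat_lit 168) (.e (nat_lit 204857) (nat_lit 26) (.e (nat_lit 336228) (nat_lit 14) (.e (nat_lit 401425) (nat_lit 2) (.e (nat_lit 196670) (nat_lit 14) (.e (nat_lit 73781) (nat_lit 32) .nil)))))) (.g (nat_lit 1) (.e (nat_lit 44591) (nat_lit 0) .nil) .nil)))) (.nd (nat_lit 9) 
(.lf (nat_lit 457108) (.g (nat_lit 1522) (.e (nat_lit 2681) (nat_lit 168) (.e (nat_lit 204829) (nat_lit 18) (.e (nat_lit 57927) (nat_lit 282) (.e (nat_lit 163875) (nat_lit 3) .nil)))) (.g (nat_lit 0) (.e (nat_lit 43994) (nat_lit 0) .nil) .nil))) 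
(.lf (nat_lit 457620) (.g (nat_lit 2418) (.e (nat_lit 2684) (nat_lit 168) (.e (nat_lit 204829) (nat_lit 18) (.e (nat_lit 57927) (nat_lit 282) (.e (nat_lit 163868) (nat_lit 2) (.e (nat_lit 196668) (nat_lit 14) (.e (nat_lit 73747) (nat_lit 3) (.e (nat_lit 516124) (nat_lit 2) (.e (nat_lit 213019) (nat_lit 9) .nil)))))))) (.g (nat_lit 1) (.e (nat_lit 45390) (nat_lit 0) .nil) .nil)))))) 
(.nd (nat_lit 7) (.nd (nat_lit 8) (.nd (nat_lit 9) 
(.lf (nat_lit 456788) (.g (nat_lit 3713) (.e (nat_lit 2668) (nat_lit 167) (.e (nat_lit 196671) (nat_lit 15) (.e (nat_lit 81956) (nat_lit 23) (.e (nat_lit 98350) (nat_lit 24) (.e (nat_lit 409616) (nat_lit 10) (.e (nat_lit 7936) (nat_lit 312) .nil)))))) (.g (nat_lit 1) (.e (nat_lit 43290) (nat_lit 0) .nil) .nil))) 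
(.lf (nat_lit 457300) (.g (nat_lit 2806) (.e (nat_lit 2681) (nat_lit 168) (.e (nat_lit 204869) (nat_lit 29) (.e (nat_lit 360474) (nat_lit 8) (.e (nat_lit 557081) (nat_lit 9) .nil)))) (.g (nat_lit 0) (.e (nat_lit 44384) (nat_lit 0) .nil) .nil)))) (.nd (nat_lit 9) 
(.lf (nat_lit 457044) (.g (nat_lit 765) (.e (nat_lit 2680) (nat_lit 168) (.e (nat_lit 204829) (nat_lit 18) (.e (nat_lit 57927) (nat_lit 282) .nil))) (.g (nat_lit 0) (.e (nat_lit 43882) (nat_lit 0) .nil) .nil))) 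
(.lf (nat_lit 457556) (.g (nat_lit 740) (.e (nat_lit 2683) (nat_lit 168) (.e (nat_lit 204829) (nat_lit 18) (.e (nat_lit 57927) (nat_lit 282) .nil))) (.g (nat_lit 0) (.e (nat_lit 45247) (nat_lit 0) .nil) .nil))))) (.nd (nat_lit 8) (.nd (nat_lit 9) 
(.lf (nat_lit 456916) (.g (nat_lit 2161) (.e (nat_lit 2679) (nat_lit 168) (.e (nat_lit 204846) (nat_lit 24) (.e (nat_lit 319530) (nat_lit 16) (.e (nat_lit 286735) (nat_lit 3) (.e (nat_lit 98325) (nat_lit 17) .nil))))) (.g (nat_lit 0) (.e (nat_lit 43651) (nat_lit 0) .nil) .nil))) 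
(.lf (nat_lit 457428) (.g (nat_lit 1819) (.e (nat_lit 2682) (nat_lit 168) (.e (nat_lit 204868) (nat_lit 29) (.e (nat_lit 360475) (nat_lit 8) (.e (nat_lit 557087) (nat_lit 11) .nil)))) (.g (nat_lit 0) (.e (nat_lit 44748) (nat_lit 0) .nil) .nil)))) (.nd (nat_lit 9) 
(.lf (nat_lit 457172) (.g (nat_lit 3608) (.e (nat_lit 2681) (nat_lit 168) (.e (nat_lit 204831) (nat_lit 18) (.e (nat_lit 57931) (nat_lit 282) (.e (nat_lit 163869) (nat_lit 2) (.e (nat_lit 196670) (nat_lit 14) (.e (nat_lit 73746) (nat_lit 3) (.e (nat_lit 516124) (nat_lit 2) (.e (nat_lit 213022) (nat_lit 9) .nil)))))))) (.g (nat_lit 1) (.e (nat_lit 44079) (nat_lit 0) .nil) .nil))) 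
(.lf (nat_lit 457684) (.g (nat_lit 2486) (.e (nat_lit 2684) (nat_lit 168) (.e (nat_lit 204831) (nat_lit 18) (.e (nat_lit 57924) (nat_lit 282) (.e (nat_lit 163867) (nat_lit 2) (.e (nat_lit 196670) (nat_lit 14) (.e (nat_lit 73746) (nat_lit 3) (.e (nat_lit 516124) (nat_lit 2) (.e (nat_lit 213019) (nat_lit 9) .nil)))))))) (.g (nat_lit 1) (.e (nat_lit 45483) (nat_lit 0) .nil) .nil))))))) 
(.nd (nat_lit 6) (.nd (nat_lit 7) (.nd (nat_lit 8) (.nd (nat_lit 9) 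
(.lf (nat_lit 456756) (.g (nat_lit 2876) (.e (nat_lit 2668) (nat_lit 167) (.e (nat_lit 196666) (nat_lit 13) (.e (nat_lit 65630) (nat_lit 14) (.e (nat_lit 401428) (nat_lit 3) (.e (nat_lit 204864) (nat_lit 27) (.e (nat_lit 352000) (nat_lit 0) .nil)))))) (.g (nat_lit 1) (.e (nat_lit 43244) (nat_lit 0) .nil) .nil))) 
(.lf (nat_lit 457268) (.g (nat_lit 3768) (.e (nat_lit 2681) (nat_lit 168) (.e (nat_lit 204863) (nat_lit 27) (.e (nat_lit 344133) (nat_lit 26) (.e (nat_lit 557103) (nat_lit 14) (.e (nat_lit 180250) (nat_lit 10) (.e (nat_lit 573473) (nat_lit 12) (.e (nat_lit 57508) (nat_lit 39) (.e (nat_lit 647176) (nat_lit 0) .nil)))))))) (.g (nat_lit 1) (.e (nat_lit 44241) (nat_lit 0) .nil) .nil)))) 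
(.nd (nat_lit 9) 
(.lf (nat_lit 457012) (.g (nat_lit 3744) (.e (nat_lit 2679) (nat_lit 168) (.e (nat_lit 204868) (nat_lit 29) (.e (nat_lit 360475) (nat_lit 8) (.e (nat_lit 557087) (nat_lit 11) (.e (nat_lit 24584) (nat_lit 0) (.e (nat_lit 6664) (nat_lit 357) .nil)))))) (.g (nat_lit 1) (.e (nat_lit 43822) (nat_lit 0) .nil) .nil))) 
(.lf (nat_lit 457524) (.g (nat_lit 5806) (.e (nat_lit 2682) (nat_lit 168) (.e (nat_lit 204869) (nat_lit 29) (.e (nat_lit 360475) (nat_lit 8) (.e (nat_lit 557072) (nat_lit 9) .nil)))) (.g (nat_lit 0) (.e (nat_lit 45113) (nat_lit 0) .nil) .nil))))) (.nd (nat_lit 8) (.nd (nat_lit 9) 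
(.lf (nat_lit 456884) (.g (nat_lit 3809) (.e (nat_lit 2677) (nat_lit 168) (.e (nat_lit 204869) (nat_lit 29) (.e (nat_lit 360474) (nat_lit 8) (.e (nat_lit 557085) (nat_lit 11) .nil)))) (.g (nat_lit 0) (.e (nat_lit 43496) (nat_lit 0) .nil) .nil))) 
(.lf (nat_lit 457396) (.g (nat_lit 3691) (.e (nat_lit 2682) (nat_lit 168) (.e (nat_lit 204863) (nat_lit 27) (.e (nat_lit 344132) (nat_lit 26) (.e (nat_lit 557105) (nat_lit 14) (.e (nat_lit 180252) (nat_lit 10) (.e (nat_lit 573473) (nat_lit 12) (.e (nat_lit 57508) (nat_lit 39) (.e (nat_lit 647177) (nat_lit 0) .nil)))))))) (.g (nat_lit 1) (.e (nat_lit 44655) (nat_lit 0) .nil) .nil)))) 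
(.nd (nat_lit 9) 
(.lf (nat_lit 457140) (.g (nat_lit 5208) (.e (nat_lit 2681) (nat_lit 168) (.e (nat_lit 204830) (nat_lit 18) (.e (nat_lit 57926) (nat_lit 282) (.e (nat_lit 163869) (nat_lit 2) (.e (nat_lit 196670) (nat_lit 14) (.e (nat_lit 73746) (nat_lit 3) (.e (nat_lit 516124) (nat_lit 2) (.e (nat_lit 213019) (nat_lit 9) .nil)))))))) (.g (nat_lit 1) (.e (nat_lit 44035) (nat_lit 0) .nil) .nil))) 
(.lf (nat_lit 457652) (.g (nat_lit 3228) (.e (nat_lit 2684) (nat_lit 168) (.e (nat_lit 204830) (nat_lit 18) (.e (nat_lit 57926) (nat_lit 282) (.e (nat_lit 163874) (nat_lit 3) (.e (nat_lit 204862) (nat_lit 27) (.e (nat_lit 344117) (nat_lit 21) (.e (nat_lit 516123) (nat_lit 2) (.e (nat_lit 213013) (nat_lit 9) .nil)))))))) (.g (nat_lit 1) (.e (nat_lit 45440) (nat_lit 0) .nil) .nil)))))) 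
(.nd (nat_lit 7) (.nd (nat_lit 8) (.nd (nat_lit 9) 
(.lf (nat_lit 456820) (.g (nat_lit 964) (.e (nat_lit 7936) (nat_lit 167) (.e (nat_lit 196672) (nat_lit 15) (.e (nat_lit 81954) (nat_lit 23) (.e (nat_lit 98325) (nat_lit 17) .nil)))) (.g (nat_lit 0) (.e (nat_lit 43330) (nat_lit 0) .nil) .nil))) 
(.lf (nat_lit 457332) (.g (nat_lit 4617) (.e (nat_lit 2682) (nat_lit 168) (.e (nat_lit 204845) (nat_lit 24) (.e (nat_lit 319530) (nat_lit 16) (.e (nat_lit 286735) (nat_lit 3) (.e (nat_lit 98367) (nat_lit 27) (.e (nat_lit 434184) (nat_lit 8) .nil)))))) (.g (nat_lit 1) (.e (nat_lit 44525) (nat_lit 0) .nil) .nil)))) (.nd (nat_lit 9) 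
(.lf (nat_lit 457076) (.g (nat_lit 2492) (.e (nat_lit 2681) (nat_lit 168) (.e (nat_lit 204829) (nat_lit 18) (.e (nat_lit 57926) (nat_lit 282) (.e (nat_lit 163875) (nat_lit 3) (.e (nat_lit 204862) (nat_lit 27) .nil))))) (.g (nat_lit 0) (.e (nat_lit 43955) (nat_lit 0) .nil) .nil))) 
(.lf (nat_lit 457588) (.g (nat_lit 2586) (.e (nat_lit 2683) (nat_lit 168) (.e (nat_lit 204830) (nat_lit 18) (.e (nat_lit 57926) (nat_lit 282) (.e (nat_lit 163871) (nat_lit 2) (.e (nat_lit 196670) (nat_lit 14) (.e (nat_lit 73746) (nat_lit 3) (.e (nat_lit 516127) (nat_lit 2) (.e (nat_lit 213022) (nat_lit 9) .nil)))))))) (.g (nat_lit 1) (.e (nat_lit 45290) (nat_lit 0) .nil) .nil))))) 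
(.nd (nat_lit 8) (.nd (nat_lit 9) 
(.lf (nat_lit 456948) (.g (nat_lit 2958) (.e (nat_lit 2679) (nat_lit 168) (.e (nat_lit 204846) (nat_lit 24) (.e (nat_lit 327424) (nat_lit 16) (.e (nat_lit 286735) (nat_lit 3) (.e (nat_lit 98367) (nat_lit 27) (.e (nat_lit 442112) (nat_lit 8) .nil)))))) (.g (nat_lit 1) (.e (nat_lit 43693) (nat_lit 0) .nil) .nil))) 
(.lf (nat_lit 457460) (.g (nat_lit 3355) (.e (nat_lit 2682) (nat_lit 168) (.e (nat_lit 204869) (nat_lit 29) (.e (nat_lit 360451) (nat_lit 0) (.e (nat_lit 7936) (nat_lit 239) .nil)))) (.g (nat_lit 0) (.e (nat_lit 44797) (nat_lit 0) .nil) .nil)))) (.nd (nat_lit 9) 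
(.lf (nat_lit 457204) (.g (nat_lit 2086) (.e (nat_lit 2681) (nat_lit 168) (.e (nat_lit 204863) (nat_lit 27) (.e (nat_lit 344068) (nat_lit 0) (.e (nat_lit 2664) (nat_lit 167) (.e (nat_lit 196670) (nat_lit 14) .nil))))) (.g (nat_lit 0) (.e (nat_lit 44177) (nat_lit 0) .nil) .nil))) 
(.lf (nat_lit 457716) (.g (nat_lit 3295) (.e (nat_lit 2684) (nat_lit 168) (.e (nat_lit 204852) (nat_lit 26) (.e (nat_lit 336326) (nat_lit 18) (.e (nat_lit 204831) (nat_lit 18) (.e (nat_lit 57852) (nat_lit 252) (.e (nat_lit 57377) (nat_lit 3) (.e (nat_lit 98338) (nat_lit 19) (.e (nat_lit 213013) (nat_lit 9) .nil)))))))) (.g (nat_lit 1) (.e (nat_lit 45545) (nat_lit 0) .nil) .nil))))))))) 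
(.nd (nat_lit 4) (.nd (nat_lit 5) (.nd (nat_lit 6) (.nd (nat_lit 7) (.nd (nat_lit 8) 
(.nd (nat_lit 9) 
(.lf (nat_lit 456716) (.g (nat_lit 3227) (.e (nat_lit 2668) (nat_lit 167) (.e (nat_lit 196666) (nat_lit 13) (.e (nat_lit 65628) (nat_lit 14) (.e (nat_lit 401425) (nat_lit 2) (.e (nat_lit 196628) (nat_lit 9) (.e (nat_lit 1600) (nat_lit 112) (.e (nat_lit 376576) (nat_lit 0) .nil))))))) (.g (nat_lit 1) (.e (nat_lit 43194) (nat_lit 0) .nil) .nil))) 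
(.lf (nat_lit 457228) (.g (nat_lit 2598) (.e (nat_lit 2681) (nat_lit 168) (.e (nat_lit 204863) (nat_lit 27) (.e (nat_lit 344130) (nat_lit 26) (.e (nat_lit 557104) (nat_lit 14) (.e (nat_lit 180252) (nat_lit 10) (.e (nat_lit 573474) (nat_lit 12) (.e (nat_lit 57508) (nat_lit 39) (.e (nat_lit 647176) (nat_lit 0) .nil)))))))) (.g (nat_lit 1) (.e (nat_lit 44201) (nat_lit 0) .nil) .nil)))) 
(.nd (nat_lit 9) 
(.lf (nat_lit 456972) (.g (nat_lit 2134) (.e (nat_lit 2679) (nat_lit 168) (.e (nat_lit 204864) (nat_lit 27) (.e (nat_lit 344130) (nat_lit 26) (.e (nat_lit 557103) (nat_lit 14) (.e (nat_lit 188160) (nat_lit 3) (.e (nat_lit 516135) (nat_lit 5) (.e (nat_lit 253955) (nat_lit 0) .nil))))))) (.g (nat_lit 1) (.e (nat_lit 43742) (nat_lit 0) .nil) .nil))) 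
(.lf (nat_lit 457484) (.g (nat_lit 2331) (.e (nat_lit 2682) (nat_lit 168) (.e (nat_lit 204869) (nat_lit 29) (.e (nat_lit 360473) (nat_lit 8) (.e (nat_lit 557066) (nat_lit 9) .nil)))) (.g (nat_lit 0) (.e (nat_lit 44921) (nat_lit 0) .nil) .nil))))) (.nd (nat_lit 8) (.nd (nat_lit 9) 
(.lf (nat_lit 456844) (.g (nat_lit 2442) (.e (nat_lit 2675) (nat_lit 168) (.e (nat_lit 204830) (nat_lit 18) (.e (nat_lit 57926) (nat_lit 282) (.e (nat_lit 163871) (nat_lit 2) (.e (nat_lit 196670) (nat_lit 14) .nil))))) (.g (nat_lit 0) (.e (nat_lit 43412) (nat_lit 0) .nil) .nil))) 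
(.lf (nat_lit 457356) (.g (nat_lit 2154) (.e (nat_lit 2682) (nat_lit 168) (.e (nat_lit 204855) (nat_lit 26) (.e (nat_lit 336061) (nat_lit 7) (.e (nat_lit 319517) (nat_lit 12) (.e (nat_lit 32788) (nat_lit 10) (.e (nat_lit 73781) (nat_lit 32) .nil)))))) (.g (nat_lit 1) (.e (nat_lit 44580) (nat_lit 0) .nil) .nil)))) (.nd (nat_lit 9) 
(.lf (nat_lit 457100) (.g (nat_lit 2506) (.e (nat_lit 2681) (nat_lit 168) (.e (nat_lit 204829) (nat_lit 18) (.e (nat_lit 57927) (nat_lit 282) (.e (nat_lit 163870) (nat_lit 2) (.e (nat_lit 196670) (nat_lit 14) (.e (nat_lit 73746) (nat_lit 3) (.e (nat_lit 516124) (nat_lit 2) (.e (nat_lit 213019) (nat_lit 9) .nil)))))))) (.g (nat_lit 1) (.e (nat_lit 43986) (nat_lit 0) .nil) .nil))) 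
(.lf (nat_lit 457612) (.g (nat_lit 2210) (.e (nat_lit 2684) (nat_lit 168) (.e (nat_lit 204829) (nat_lit 18) (.e (nat_lit 57926) (nat_lit 282) (.e (nat_lit 163869) (nat_lit 2) (.e (nat_lit 196670) (nat_lit 14) (.e (nat_lit 73746) (nat_lit 3) (.e (nat_lit 516127) (nat_lit 2) (.e (nat_lit 213019) (nat_lit 9) .nil)))))))) (.g (nat_lit 1) (.e (nat_lit 45380) (nat_lit 0) .nil) .nil)))))) 
(.nd (nat_lit 7) (.nd (nat_lit 8) (.nd (nat_lit 9) 
(.lf (nat_lit 456780) (.g (nat_lit 1241) (.e (nat_lit 2668) (nat_lit 167) (.e (nat_lit 196670) (nat_lit 14) (.e (nat_lit 73781) (nat_lit 32) (.e (nat_lit 2682) (nat_lit 168) .nil)))) (.g (nat_lit 0) (.e (nat_lit 43279) (nat_lit 0) .nil) .nil))) 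
(.lf (nat_lit 457292) (.g (nat_lit 2081) (.e (nat_lit 2681) (nat_lit 168) (.e (nat_lit 204869) (nat_lit 29) (.e (nat_lit 360473) (nat_lit 8) (.e (nat_lit 557066) (nat_lit 9) (.e (nat_lit 297) (nat_lit 22) .nil))))) (.g (nat_lit 0) (.e (nat_lit 44376) (nat_lit 0) .nil) .nil)))) (.nd (nat_lit 9) 
(.lf (nat_lit 457036) (.g (nat_lit 2341) (.e (nat_lit 2679) (nat_lit 168) (.e (nat_lit 204877) (nat_lit 31) (.e (nat_lit 376869) (nat_lit 23) (.e (nat_lit 98350) (nat_lit 24) (.e (nat_lit 409623) (nat_lit 10) .nil))))) (.g (nat_lit 0) (.e (nat_lit 43863) (nat_lit 0) .nil) .nil))) 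
(.lf (nat_lit 457548) (.g (nat_lit 3004) (.e (nat_lit 2682) (nat_lit 168) (.e (nat_lit 204877) (nat_lit 31) (.e (nat_lit 376865) (nat_lit 22) (.e (nat_lit 90181) (nat_lit 16) (.e (nat_lit 229577) (nat_lit 179) (.e (nat_lit 164366) (nat_lit 246) .nil)))))) (.g (nat_lit 1) (.e (nat_lit 45228) (nat_lit 0) .nil) .nil))))) (.nd (nat_lit 8) (.nd (nat_lit 9) 
(.lf (nat_lit 456908) (.g (nat_lit 2736) (.e (nat_lit 2679) (nat_lit 168) (.e (nat_lit 204845) (nat_lit 24) (.e (nat_lit 319531) (nat_lit 16) (.e (nat_lit 286735) (nat_lit 3) (.e (nat_lit 98368) (nat_lit 27) .nil))))) (.g (nat_lit 0) (.e (nat_lit 43628) (nat_lit 0) .nil) .nil))) 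
(.lf (nat_lit 457420) (.g (nat_lit 2785) (.e (nat_lit 2682) (nat_lit 168) (.e (nat_lit 204868) (nat_lit 29) (.e (nat_lit 360466) (nat_lit 3) (.e (nat_lit 516139) (nat_lit 7) (.e (nat_lit 409616) (nat_lit 10) (.e (nat_lit 5710) (nat_lit 312) .nil)))))) (.g (nat_lit 1) (.e (nat_lit 44716) (nat_lit 0) .nil) .nil)))) (.nd (nat_lit 9) 
(.lf (nat_lit 457164) (.g (nat_lit 1479) (.e (nat_lit 2681) (nat_lit 168) (.e (nat_lit 204831) (nat_lit 18) (.e (nat_lit 57931) (nat_lit 282) (.e (nat_lit 163866) (nat_lit 2) .nil)))) (.g (nat_lit 0) (.e (nat_lit 44062) (nat_lit 0) .nil) .nil))) 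
(.lf (nat_lit 457676) (.g (nat_lit 3064) (.e (nat_lit 2684) (nat_lit 168) (.e (nat_lit 204830) (nat_lit 18) (.e (nat_lit 57928) (nat_lit 282) (.e (nat_lit 163871) (nat_lit 2) (.e (nat_lit 196670) (nat_lit 14) (.e (nat_lit 73746) (nat_lit 3) (.e (nat_lit 516124) (nat_lit 2) (.e (nat_lit 213013) (nat_lit 9) .nil)))))))) (.g (nat_lit 1) (.e (nat_lit 45469) (nat_lit 0) .nil) .nil))))))) 
(.nd (nat_lit 6) (.nd (nat_lit 7) (.nd (nat_lit 8) (.nd (nat_lit 9) 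
(.lf (nat_lit 456748) (.g (nat_lit 3730) (.e (nat_lit 2668) (nat_lit 167) (.e (nat_lit 196666) (nat_lit 13) (.e (nat_lit 65630) (nat_lit 14) (.e (nat_lit 401428) (nat_lit 3) (.e (nat_lit 204845) (nat_lit 24) (.e (nat_lit 319493) (nat_lit 0) (.e (nat_lit 5626) (nat_lit 312) .nil))))))) (.g (nat_lit 1) (.e (nat_lit 43236) (nat_lit 0) .nil) .nil))) 
(.lf (nat_lit 457260) (.g (nat_lit 2661) (.e (nat_lit 2681) (nat_lit 168) (.e (nat_lit 204863) (nat_lit 27) (.e (nat_lit 344133) (nat_lit 26) (.e (nat_lit 557098) (nat_lit 13) (.e (nat_lit 179968) (nat_lit 15) .nil))))) (.g (nat_lit 0) (.e (nat_lit 44233) (nat_lit 0) .nil) .nil)))) (.nd (nat_lit 9) 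
(.lf (nat_lit 457004) (.g (nat_lit 2570) (.e (nat_lit 2679) (nat_lit 168) (.e (nat_lit 204868) (nat_lit 29) (.e (nat_lit 360466) (nat_lit 3) (.e (nat_lit 516142) (nat_lit 8) (.e (nat_lit 417819) (nat_lit 10) (.e (nat_lit 5643) (nat_lit 312) .nil)))))) (.g (nat_lit 1) (.e (nat_lit 43784) (nat_lit 0) .nil) .nil))) 
(.lf (nat_lit 457516) (.g (nat_lit 4236) (.e (nat_lit 2682) (nat_lit 168) (.e (nat_lit 204869) (nat_lit 29) (.e (nat_lit 360474) (nat_lit 8) (.e (nat_lit 557087) (nat_lit 11) (.e (nat_lit 24588) (nat_lit 0) (.e (nat_lit 6680) (nat_lit 357) .nil)))))) (.g (nat_lit 1) (.e (nat_lit 44957) (nat_lit 0) .nil) .nil))))) (.nd (nat_lit 8) (.nd (nat_lit 9) 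
(.lf (nat_lit 456876) (.g (nat_lit 4132) (.e (nat_lit 2676) (nat_lit 168) (.e (nat_lit 204829) (nat_lit 18) (.e (nat_lit 57927) (nat_lit 282) (.e (nat_lit 163869) (nat_lit 2) (.e (nat_lit 196670) (nat_lit 14) (.e (nat_lit 73746) (nat_lit 3) (.e (nat_lit 516124) (nat_lit 2) (.e (nat_lit 213019) (nat_lit 9) .nil)))))))) (.g (nat_lit 1) (.e (nat_lit 43476) (nat_lit 0) .nil) .nil))) 
(.lf (nat_lit 457388) (.g (nat_lit 1102) (.e (nat_lit 2682) (nat_lit 168) (.e (nat_lit 204863) (nat_lit 27) (.e (nat_lit 344130) (nat_lit 26) .nil))) (.g (nat_lit 0) (.e (nat_lit 44647) (nat_lit 0) .nil) .nil)))) (.nd (nat_lit 9) 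
(.lf (nat_lit 457132) (.g (nat_lit 3514) (.e (nat_lit 2681) (nat_lit 168) (.e (nat_lit 204830) (nat_lit 18) (.e (nat_lit 57926) (nat_lit 282) (.e (nat_lit 163868) (nat_lit 2) (.e (nat_lit 196670) (nat_lit 14) (.e (nat_lit 73746) (nat_lit 3) (.e (nat_lit 516124) (nat_lit 2) (.e (nat_lit 213013) (nat_lit 9) .nil)))))))) (.g (nat_lit 1) (.e (nat_lit 44025) (nat_lit 0) .nil) .nil))) 
(.lf (nat_lit 457644) (.g (nat_lit 2692) (.e (nat_lit 2684) (nat_lit 168) (.e (nat_lit 204830) (nat_lit 18) (.e (nat_lit 57926) (nat_lit 282) (.e (nat_lit 163868) (nat_lit 2) (.e (nat_lit 196663) (nat_lit 13) .nil))))) (.g (nat_lit 0) (.e (nat_lit 45428) (nat_lit 0) .nil) .nil)))))) (.nd (nat_lit 7) (.nd (nat_lit 8) (.nd (nat_lit 9) 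
(.lf (nat_lit 456812) (.g (nat_lit 2808) (.e (nat_lit 2669) (nat_lit 167) (.e (nat_lit 196673) (nat_lit 15) (.e (nat_lit 81956) (nat_lit 23) (.e (nat_lit 98350) (nat_lit 24) .nil)))) (.g (nat_lit 0) (.e (nat_lit 43321) (nat_lit 0) .nil) .nil))) 
(.lf (nat_lit 457324) (.g (nat_lit 3189) (.e (nat_lit 2682) (nat_lit 168) (.e (nat_lit 204829) (nat_lit 18) (.e (nat_lit 57847) (nat_lit 252) (.e (nat_lit 57377) (nat_lit 3) .nil)))) (.g (nat_lit 0) (.e (nat_lit 44504) (nat_lit 0) .nil) .nil)))) (.nd (nat_lit 9) 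
(.lf (nat_lit 457068) (.g (nat_lit 2783) (.e (nat_lit 2681) (nat_lit 168) (.e (nat_lit 204829) (nat_lit 18) (.e (nat_lit 57926) (nat_lit 282) (.e (nat_lit 163868) (nat_lit 2) (.e (nat_lit 196668) (nat_lit 14) (.e (nat_lit 73746) (nat_lit 3) (.e (nat_lit 516124) (nat_lit 2) (.e (nat_lit 213019) (nat_lit 9) .nil)))))))) (.g (nat_lit 1) (.e (nat_lit 43946) (nat_lit 0) .nil) .nil))) 
(.lf (nat_lit 457580) (.g (nat_lit 4976) (.e (nat_lit 2683) (nat_lit 168) (.e (nat_lit 204830) (nat_lit 18) (.e (nat_lit 57926) (nat_lit 282) (.e (nat_lit 163869) (nat_lit 2) (.e (nat_lit 196670) (nat_lit 14) (.e (nat_lit 73746) (nat_lit 3) (.e (nat_lit 516124) (nat_lit 2) (.e (nat_lit 213019) (nat_lit 9) .nil)))))))) (.g (nat_lit 1) (.e (nat_lit 45282) (nat_lit 0) .nil) .nil))))) 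
(.nd (nat_lit 8) (.nd (nat_lit 9) 
(.lf (nat_lit 456940) (.g (nat_lit 2477) (.e (nat_lit 2679) (nat_lit 168) (.e (nat_lit 204846) (nat_lit 24) (.e (nat_lit 319534) (nat_lit 16) (.e (nat_lit 286734) (nat_lit 3) (.e (nat_lit 98366) (nat_lit 27) (.e (nat_lit 442112) (nat_lit 8) .nil)))))) (.g (nat_lit 1) (.e (nat_lit 43683) (nat_lit 0) .nil) .nil))) 
(.lf (nat_lit 457452) (.g (nat_lit 3433) (.e (nat_lit 2682) (nat_lit 168) (.e (nat_lit 204869) (nat_lit 29) (.e (nat_lit 360451) (nat_lit 0) (.e (nat_lit 3928) (nat_lit 239) (.e (nat_lit 7936) (nat_lit 89) .nil))))) (.g (nat_lit 0) (.e (nat_lit 44789) (nat_lit 0) .nil) .nil)))) (.nd (nat_lit 9) 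
(.lf (nat_lit 457196) (.g (nat_lit 3425) (.e (nat_lit 2681) (nat_lit 168) (.e (nat_lit 204862) (nat_lit 27) (.e (nat_lit 344129) (nat_lit 26) (.e (nat_lit 557103) (nat_lit 14) (.e (nat_lit 180243) (nat_lit 5) (.e (nat_lit 532501) (nat_lit 1) (.e (nat_lit 57703) (nat_lit 164) (.e (nat_lit 2515) (nat_lit 157) .nil)))))))) (.g (nat_lit 1) (.e (nat_lit 44168) (nat_lit 0) .nil) .nil))) 
(.lf (nat_lit 457708) (.g (nat_lit 3164) (.e (nat_lit 2684) (nat_lit 168) (.e (nat_lit 204846) (nat_lit 24) (.e (nat_lit 319534) (nat_lit 16) (.e (nat_lit 286735) (nat_lit 3) (.e (nat_lit 98367) (nat_lit 27) (.e (nat_lit 442112) (nat_lit 8) .nil)))))) (.g (nat_lit 1) (.e (nat_lit 45534) (nat_lit 0) .nil) .nil)))))))) 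
(.nd (nat_lit 5) (.nd (nat_lit 6) (.nd (nat_lit 7) (.nd (nat_lit 8) (.nd (nat_lit 9) 
(.lf (nat_lit 456732) (.g (nat_lit 2642) (.e (nat_lit 2668) (nat_lit 167) (.e (nat_lit 196666) (nat_lit 13) (.e (nat_lit 65628) (nat_lit 14) (.e (nat_lit 401428) (nat_lit 3) (.e (nat_lit 204864) (nat_lit 27) (.e (nat_lit 352000) (nat_lit 0) .nil)))))) (.g (nat_lit 1) (.e (nat_lit 43211) (nat_lit 0) .nil) .nil))) 
(.lf (nat_lit 457244) (.g (nat_lit 2023) (.e (nat_lit 2681) (nat_lit 168) (.e (nat_lit 204863) (nat_lit 27) (.e (nat_lit 344132) (nat_lit 26) (.e (nat_lit 557105) (nat_lit 14) (.e (nat_lit 180252) (nat_lit 10) .nil))))) (.g (nat_lit 0) (.e (nat_lit 44217) (nat_lit 0) .nil) .nil)))) (.nd (nat_lit 9) 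
(.lf (nat_lit 456988) (.g (nat_lit 3454) (.e (nat_lit 2679) (nat_lit 168) (.e (nat_lit 204868) (nat_lit 29) (.e (nat_lit 360466) (nat_lit 3) (.e (nat_lit 516098) (nat_lit 0) (.e (nat_lit 7110) (nat_lit 380) (.e (nat_lit 164359) (nat_lit 246) .nil)))))) (.g (nat_lit 1) (.e (nat_lit 43768) (nat_lit 0) .nil) .nil))) 
(.lf (nat_lit 457500) (.g (nat_lit 3572) (.e (nat_lit 2682) (nat_lit 168) (.e (nat_lit 204869) (nat_lit 29) (.e (nat_lit 360474) (nat_lit 8) (.e (nat_lit 557071) (nat_lit 9) .nil)))) (.g (nat_lit 0) (.e (nat_lit 44939) (nat_lit 0) .nil) .nil))))) (.nd (nat_lit 8) (.nd (nat_lit 9) 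
(.lf (nat_lit 456860) (.g (nat_lit 472) (.e (nat_lit 2675) (nat_lit 168) (.e (nat_lit 204869) (nat_lit 29) (.e (nat_lit 360474) (nat_lit 8) .nil))) (.g (nat_lit 0) (.e (nat_lit 43451) (nat_lit 0) .nil) .nil))) 
(.lf (nat_lit 457372) (.g (nat_lit 3075) (.e (nat_lit 2682) (nat_lit 168) (.e (nat_lit 204861) (nat_lit 26) (.e (nat_lit 336204) (nat_lit 12) (.e (nat_lit 385074) (nat_lit 31) (.e (nat_lit 573489) (nat_lit 14) (.e (nat_lit 73781) (nat_lit 32) .nil)))))) (.g (nat_lit 1) (.e (nat_lit 44628) (nat_lit 0) .nil) .nil)))) (.nd (nat_lit 9) 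
(.lf (nat_lit 457116) (.g (nat_lit 4240) (.e (nat_lit 2681) (nat_lit 168) (.e (nat_lit 204829) (nat_lit 18) (.e (nat_lit 57931) (nat_lit 282) (.e (nat_lit 163869) (nat_lit 2) (.e (nat_lit 196670) (nat_lit 14) (.e (nat_lit 73746) (nat_lit 3) (.e (nat_lit 516124) (nat_lit 2) (.e (nat_lit 213013) (nat_lit 9) .nil)))))))) (.g (nat_lit 1) (.e (nat_lit 44008) (nat_lit 0) .nil) .nil))) 
(.lf (nat_lit 457628) (.g (nat_lit 2106) (.e (nat_lit 2684) (nat_lit 168) (.e (nat_lit 204829) (nat_lit 18) (.e (nat_lit 57928) (nat_lit 282) (.e (nat_lit 163871) (nat_lit 2) (.e (nat_lit 196668) (nat_lit 14) (.e (nat_lit 73746) (nat_lit 3) (.e (nat_lit 516124) (nat_lit 2) (.e (nat_lit 213013) (nat_lit 9) .nil)))))))) (.g (nat_lit 1) (.e (nat_lit 45401) (nat_lit 0) .nil) .nil)))))) 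
(.nd (nat_lit 7) (.nd (nat_lit 8) (.nd (nat_lit 9) 
(.lf (nat_lit 456796) (.g (nat_lit 2604) (.e (nat_lit 2668) (nat_lit 167) (.e (nat_lit 196673) (nat_lit 15) (.e (nat_lit 81956) (nat_lit 23) (.e (nat_lit 98350) (nat_lit 24) .nil)))) (.g (nat_lit 0) (.e (nat_lit 43298) (nat_lit 0) .nil) .nil))) 
(.lf (nat_lit 457308) (.g (nat_lit 4496) (.e (nat_lit 2681) (nat_lit 168) (.e (nat_lit 204869) (nat_lit 29) (.e (nat_lit 360475) (nat_lit 8) (.e (nat_lit 557071) (nat_lit 9) .nil)))) (.g (nat_lit 0) (.e (nat_lit 44397) (nat_lit 0) .nil) .nil)))) (.nd (nat_lit 9) 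
(.lf (nat_lit 457052) (.g (nat_lit 2442) (.e (nat_lit 2680) (nat_lit 168) (.e (nat_lit 204830) (nat_lit 18) (.e (nat_lit 57926) (nat_lit 282) (.e (nat_lit 163871) (nat_lit 2) (.e (nat_lit 196670) (nat_lit 14) .nil))))) (.g (nat_lit 0) (.e (nat_lit 43893) (nat_lit 0) .nil) .nil))) 
(.lf (nat_lit 457564) (.g (nat_lit 2707) (.e (nat_lit 2683) (nat_lit 168) (.e (nat_lit 204829) (nat_lit 18) (.e (nat_lit 57927) (nat_lit 282) (.e (nat_lit 163874) (nat_lit 3) (.e (nat_lit 204862) (nat_lit 27) .nil))))) (.g (nat_lit 0) (.e (nat_lit 45259) (nat_lit 0) .nil) .nil))))) (.nd (nat_lit 8) (.nd (nat_lit 9) 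
(.lf (nat_lit 456924) (.g (nat_lit 2642) (.e (nat_lit 2679) (nat_lit 168) (.e (nat_lit 204846) (nat_lit 24) (.e (nat_lit 319532) (nat_lit 16) (.e (nat_lit 286733) (nat_lit 2) (.e (nat_lit 90173) (nat_lit 14) (.e (nat_lit 188160) (nat_lit 40) .nil)))))) (.g (nat_lit 1) (.e (nat_lit 43659) (nat_lit 0) .nil) .nil))) 
(.lf (nat_lit 457436) (.g (nat_lit 2120) (.e (nat_lit 2682) (nat_lit 168) (.e (nat_lit 204869) (nat_lit 29) (.e (nat_lit 360448) (nat_lit 0) (.e (nat_lit 3954) (nat_lit 239) .nil)))) (.g (nat_lit 0) (.e (nat_lit 44757) (nat_lit 0) .nil) .nil)))) (.nd (nat_lit 9) 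
(.lf (nat_lit 457180) (.g (nat_lit 3415) (.e (nat_lit 2681) (nat_lit 168) (.e (nat_lit 204846) (nat_lit 24) (.e (nat_lit 319538) (nat_lit 19) (.e (nat_lit 311315) (nat_lit 3) (.e (nat_lit 204846) (nat_lit 24) (.e (nat_lit 319505) (nat_lit 10) (.e (nat_lit 5714) (nat_lit 312) .nil))))))) (.g (nat_lit 1) (.e (nat_lit 44106) (nat_lit 0) .nil) .nil))) 
(.lf (nat_lit 457692) (.g (nat_lit 1760) (.e (nat_lit 2684) (nat_lit 168) (.e (nat_lit 204845) (nat_lit 24) (.e (nat_lit 319531) (nat_lit 16) (.e (nat_lit 286733) (nat_lit 2) .nil)))) (.g (nat_lit 0) (.e (nat_lit 45518) (nat_lit 0) .nil) .nil))))))) (.nd (nat_lit 6) (.nd (nat_lit 7) (.nd (nat_lit 8) (.nd (nat_lit 9) 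
(.lf (nat_lit 456764) (.g (nat_lit 2425) (.e (nat_lit 2668) (nat_lit 167) (.e (nat_lit 196669) (nat_lit 14) (.e (nat_lit 73755) (nat_lit 8) (.e (nat_lit 557105) (nat_lit 14) (.e (nat_lit 180252) (nat_lit 10) (.e (nat_lit 573474) (nat_lit 12) (.e (nat_lit 57508) (nat_lit 39) (.e (nat_lit 647168) (nat_lit 0) .nil)))))))) (.g (nat_lit 1) (.e (nat_lit 43256) (nat_lit 0) .nil) .nil))) 
(.lf (nat_lit 457276) (.g (nat_lit 5275) (.e (nat_lit 2681) (nat_lit 168) (.e (nat_lit 204863) (nat_lit 27) (.e (nat_lit 344133) (nat_lit 26) (.e (nat_lit 557105) (nat_lit 14) (.e (nat_lit 180252) (nat_lit 10) (.e (nat_lit 573474) (nat_lit 12) (.e (nat_lit 57507) (nat_lit 39) (.e (nat_lit 647176) (nat_lit 0) .nil)))))))) (.g (nat_lit 1) (.e (nat_lit 44249) (nat_lit 0) .nil) .nil)))) 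
(.nd (nat_lit 9) 
(.lf (nat_lit 457020) (.g (nat_lit 2195) (.e (nat_lit 2679) (nat_lit 168) (.e (nat_lit 204869) (nat_lit 29) (.e (nat_lit 360474) (nat_lit 8) (.e (nat_lit 557085) (nat_lit 11) .nil)))) (.g (nat_lit 0) (.e (nat_lit 43834) (nat_lit 0) .nil) .nil))) 
(.lf (nat_lit 457532) (.g (nat_lit 3982) (.e (nat_lit 2682) (nat_lit 168) (.e (nat_lit 204869) (nat_lit 29) (.e (nat_lit 360475) (nat_lit 8) (.e (nat_lit 557086) (nat_lit 11) (.e (nat_lit 24577) (nat_lit 0) .nil))))) (.g (nat_lit 0) (.e (nat_lit 45123) (nat_lit 0) .nil) .nil))))) (.nd (nat_lit 8) (.nd (nat_lit 9) 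
(.lf (nat_lit 456892) (.g (nat_lit 2770) (.e (nat_lit 2678) (nat_lit 168) (.e (nat_lit 204863) (nat_lit 27) (.e (nat_lit 344133) (nat_lit 26) (.e (nat_lit 557096) (nat_lit 13) (.e (nat_lit 172133) (nat_lit 15) .nil))))) (.g (nat_lit 0) (.e (nat_lit 43506) (nat_lit 0) .nil) .nil))) 
(.lf (nat_lit 457404) (.g (nat_lit 2677) (.e (nat_lit 2682) (nat_lit 168) (.e (nat_lit 204863) (nat_lit 27) (.e (nat_lit 344133) (nat_lit 26) (.e (nat_lit 557103) (nat_lit 14) (.e (nat_lit 180243) (nat_lit 5) .nil))))) (.g (nat_lit 0) (.e (nat_lit 44663) (nat_lit 0) .nil) .nil)))) (.nd (nat_lit 9) 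
(.lf (nat_lit 457148) (.g (nat_lit 3117) (.e (nat_lit 2681) (nat_lit 168) (.e (nat_lit 204830) (nat_lit 18) (.e (nat_lit 57926) (nat_lit 282) (.e (nat_lit 163871) (nat_lit 2) (.e (nat_lit 196670) (nat_lit 14) (.e (nat_lit 73746) (nat_lit 3) (.e (nat_lit 516127) (nat_lit 2) (.e (nat_lit 213019) (nat_lit 9) .nil)))))))) (.g (nat_lit 1) (.e (nat_lit 44044) (nat_lit 0) .nil) .nil))) 
(.lf (nat_lit 457660) (.g (nat_lit 2936) (.e (nat_lit 2684) (nat_lit 168) (.e (nat_lit 204830) (nat_lit 18) (.e (nat_lit 57927) (nat_lit 282) (.e (nat_lit 163868) (nat_lit 2) (.e (nat_lit 196663) (nat_lit 13) (.e (nat_lit 65571) (nat_lit 3) (.e (nat_lit 98338) (nat_lit 19) (.e (nat_lit 213013) (nat_lit 9) .nil)))))))) (.g (nat_lit 1) (.e (nat_lit 45449) (nat_lit 0) .nil) .nil)))))) 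
(.nd (nat_lit 7) (.nd (nat_lit 8) (.nd (nat_lit 9) 
(.lf (nat_lit 456828) (.g (nat_lit 791) (.e (nat_lit 2672) (nat_lit 168) (.e (nat_lit 204869) (nat_lit 29) (.e (nat_lit 360474) (nat_lit 8) .nil))) (.g (nat_lit 0) (.e (nat_lit 43352) (nat_lit 0) .nil) .nil))) 
(.lf (nat_lit 457340) (.g (nat_lit 696) (.e (nat_lit 2682) (nat_lit 168) (.e (nat_lit 204846) (nat_lit 24) (.e (nat_lit 319529) (nat_lit 16) .nil))) (.g (nat_lit 0) (.e (nat_lit 44542) (nat_lit 0) .nil) .nil)))) (.nd (nat_lit 9) 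
(.lf (nat_lit 457084) (.g (nat_lit 2407) (.e (nat_lit 2681) (nat_lit 168) (.e (nat_lit 204829) (nat_lit 18) (.e (nat_lit 57927) (nat_lit 282) (.e (nat_lit 163868) (nat_lit 2) (.e (nat_lit 196670) (nat_lit 14) (.e (nat_lit 73746) (nat_lit 3) (.e (nat_lit 516124) (nat_lit 2) (.e (nat_lit 213022) (nat_lit 9) .nil)))))))) (.g (nat_lit 1) (.e (nat_lit 43966) (nat_lit 0) .nil) .nil))) 
(.lf (nat_lit 457596) (.g (nat_lit 2560) (.e (nat_lit 2683) (nat_lit 168) (.e (nat_lit 204831) (nat_lit 18) (.e (nat_lit 57931) (nat_lit 282) (.e (nat_lit 163869) (nat_lit 2) (.e (nat_lit 196670) (nat_lit 14) .nil))))) (.g (nat_lit 0) (.e (nat_lit 45299) (nat_lit 0) .nil) .nil))))) (.nd (nat_lit 8) (.nd (nat_lit 9) 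
(.lf (nat_lit 456956) (.g (nat_lit 2531) (.e (nat_lit 2679) (nat_lit 168) (.e (nat_lit 204862) (nat_lit 27) (.e (nat_lit 344117) (nat_lit 21) (.e (nat_lit 516129) (nat_lit 3) (.e (nat_lit 229120) (nat_lit 3) (.e (nat_lit 98346) (nat_lit 22) (.e (nat_lit 253956) (nat_lit 0) .nil))))))) (.g (nat_lit 1) (.e (nat_lit 43726) (nat_lit 0) .nil) .nil))) 
(.lf (nat_lit 457468) (.g (nat_lit 2391) (.e (nat_lit 2682) (nat_lit 168) (.e (nat_lit 204869) (nat_lit 29) (.e (nat_lit 360456) (nat_lit 0) (.e (nat_lit 7936) (nat_lit 239) .nil)))) (.g (nat_lit 0) (.e (nat_lit 44820) (nat_lit 0) .nil) .nil)))) (.nd (nat_lit 9) 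
(.lf (nat_lit 457212) (.g (nat_lit 2221) (.e (nat_lit 2681) (nat_lit 168) (.e (nat_lit 204863) (nat_lit 27) (.e (nat_lit 344129) (nat_lit 26) (.e (nat_lit 557097) (nat_lit 13) (.e (nat_lit 172065) (nat_lit 3) (.e (nat_lit 204830) (nat_lit 18) (.e (nat_lit 57703) (nat_lit 164) (.e (nat_lit 2515) (nat_lit 157) .nil)))))))) (.g (nat_lit 1) (.e (nat_lit 44185) (nat_lit 0) .nil) .nil))) 
(.lf (nat_lit 457724) (.g (nat_lit 1687) (.e (nat_lit 2684) (nat_lit 168) (.e (nat_lit 204861) (nat_lit 26) (.e (nat_lit 336213) (nat_lit 13) (.e (nat_lit 401152) (nat_lit 10) (.e (nat_lit 344164) (nat_lit 37) (.e (nat_lit 655104) (nat_lit 0) .nil)))))) (.g (nat_lit 1) (.e (nat_lit 45577) (nat_lit 0) .nil) .nil))))))))))) 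
(.nd (nat_lit 2) (.nd (nat_lit 3) (.nd (nat_lit 4) (.nd (nat_lit 5) (.nd (nat_lit 6) 
(.nd (nat_lit 7) (.nd (nat_lit 8) (.nd (nat_lit 9) 
(.lf (nat_lit 456706) (.g (nat_lit 3224) (.e (nat_lit 2668) (nat_lit 167) (.e (nat_lit 196666) (nat_lit 13) (.e (nat_lit 65622) (nat_lit 12) (.e (nat_lit 385074) (nat_lit 31) (.e (nat_lit 573489) (nat_lit 14) (.e (nat_lit 81664) (nat_lit 32) .nil)))))) (.g (nat_lit 1) (.e (nat_lit 43170) (nat_lit 0) .nil) .nil))) 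
(.lf (nat_lit 457218) (.g (nat_lit 3630) (.e (nat_lit 2681) (nat_lit 168) (.e (nat_lit 204863) (nat_lit 27) (.e (nat_lit 344129) (nat_lit 26) (.e (nat_lit 557104) (nat_lit 14) (.e (nat_lit 180252) (nat_lit 10) (.e (nat_lit 573474) (nat_lit 12) (.e (nat_lit 57507) (nat_lit 39) (.e (nat_lit 647176) (nat_lit 0) .nil)))))))) (.g (nat_lit 1) (.e (nat_lit 44191) (nat_lit 0) .nil) .nil)))) 
(.nd (nat_lit 9) 
(.lf (nat_lit 456962) (.g (nat_lit 1772) (.e (nat_lit 2679) (nat_lit 168) (.e (nat_lit 204862) (nat_lit 27) (.e (nat_lit 344133) (nat_lit 26) (.e (nat_lit 557103) (nat_lit 14) (.e (nat_lit 188160) (nat_lit 3) .nil))))) (.g (nat_lit 0) (.e (nat_lit 43732) (nat_lit 0) .nil) .nil))) 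
(.lf (nat_lit 457474) (.g (nat_lit 2885) (.e (nat_lit 2682) (nat_lit 168) (.e (nat_lit 204869) (nat_lit 29) (.e (nat_lit 360471) (nat_lit 7) (.e (nat_lit 548890) (nat_lit 10) (.e (nat_lit 73781) (nat_lit 32) .nil))))) (.g (nat_lit 1) (.e (nat_lit 44910) (nat_lit 0) .nil) .nil))))) (.nd (nat_lit 8) (.nd (nat_lit 9) 
(.lf (nat_lit 456834) (.g (nat_lit 2107) (.e (nat_lit 2674) (nat_lit 168) (.e (nat_lit 204868) (nat_lit 29) (.e (nat_lit 360466) (nat_lit 3) (.e (nat_lit 516139) (nat_lit 7) .nil)))) (.g (nat_lit 0) (.e (nat_lit 43391) (nat_lit 0) .nil) .nil))) 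
(.lf (nat_lit 457346) (.g (nat_lit 1811) (.e (nat_lit 2682) (nat_lit 168) (.e (nat_lit 204849) (nat_lit 25) (.e (nat_lit 327698) (nat_lit 8) (.e (nat_lit 303117) (nat_lit 2) (.e (nat_lit 196669) (nat_lit 14) (.e (nat_lit 73782) (nat_lit 32) .nil)))))) (.g (nat_lit 1) (.e (nat_lit 44549) (nat_lit 0) .nil) .nil)))) (.nd (nat_lit 9) 
(.lf (nat_lit 457090) (.g (nat_lit 4296) (.e (nat_lit 2681) (nat_lit 168) (.e (nat_lit 204829) (nat_lit 18) (.e (nat_lit 57927) (nat_lit 282) (.e (nat_lit 163869) (nat_lit 2) (.e (nat_lit 196670) (nat_lit 14) (.e (nat_lit 73746) (nat_lit 3) (.e (nat_lit 516124) (nat_lit 2) (.e (nat_lit 213013) (nat_lit 9) .nil)))))))) (.g (nat_lit 1) (.e (nat_lit 43976) (nat_lit 0) .nil) .nil))) 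
(.lf (nat_lit 457602) (.g (nat_lit 2927) (.e (nat_lit 2683) (nat_lit 168) (.e (nat_lit 204863) (nat_lit 27) (.e (nat_lit 344133) (nat_lit 26) (.e (nat_lit 557105) (nat_lit 14) (.e (nat_lit 180252) (nat_lit 10) (.e (nat_lit 573474) (nat_lit 12) (.e (nat_lit 57509) (nat_lit 39) (.e (nat_lit 647172) (nat_lit 0) .nil)))))))) (.g (nat_lit 1) (.e (nat_lit 45313) (nat_lit 0) .nil) .nil)))))) 
(.nd (nat_lit 7) (.nd (nat_lit 8) (.nd (nat_lit 9) 
(.lf (nat_lit 456770) (.g (nat_lit 3009) (.e (nat_lit 2668) (nat_lit 167) (.e (nat_lit 196670) (nat_lit 14) (.e (nat_lit 73753) (nat_lit 8) (.e (nat_lit 557105) (nat_lit 14) (.e (nat_lit 180252) (nat_lit 10) (.e (nat_lit 573474) (nat_lit 12) (.e (nat_lit 57508) (nat_lit 39) (.e (nat_lit 647168) (nat_lit 0) .nil)))))))) (.g (nat_lit 1) (.e (nat_lit 43264) (nat_lit 0) .nil) .nil))) 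
(.lf (nat_lit 457282) (.g (nat_lit 1888) (.e (nat_lit 2681) (nat_lit 168) (.e (nat_lit 204866) (nat_lit 28) (.e (nat_lit 352318) (nat_lit 24) (.e (nat_lit 123040) (nat_lit 140) (.e (nat_lit 1209) (nat_lit 89) .nil))))) (.g (nat_lit 0) (.e (nat_lit 44278) (nat_lit 0) .nil) .nil)))) (.nd (nat_lit 9) 
(.lf (nat_lit 457026) (.g (nat_lit 2138) (.e (nat_lit 2679) (nat_lit 168) (.e (nat_lit 204869) (nat_lit 29) (.e (nat_lit 360475) (nat_lit 8) (.e (nat_lit 557068) (nat_lit 9) (.e (nat_lit 7936) (nat_lit 19) .nil))))) (.g (nat_lit 0) (.e (nat_lit 43843) (nat_lit 0) .nil) .nil))) 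
(.lf (nat_lit 457538) (.g (nat_lit 2929) (.e (nat_lit 2682) (nat_lit 168) (.e (nat_lit 204869) (nat_lit 29) (.e (nat_lit 360475) (nat_lit 8) (.e (nat_lit 557087) (nat_lit 11) (.e (nat_lit 24581) (nat_lit 0) .nil))))) (.g (nat_lit 0) (.e (nat_lit 45129) (nat_lit 0) .nil) .nil))))) (.nd (nat_lit 8) (.nd (nat_lit 9) 
(.lf (nat_lit 456898) (.g (nat_lit 3178) (.e (nat_lit 2679) (nat_lit 168) (.e (nat_lit 204819) (nat_lit 17) (.e (nat_lit 6113) (nat_lit 332) (.e (nat_lit 2777) (nat_lit 178) (.e (nat_lit 286735) (nat_lit 3) (.e (nat_lit 98350) (nat_lit 24) (.e (nat_lit 409623) (nat_lit 10) (.e (nat_lit 5664) (nat_lit 312) .nil)))))))) (.g (nat_lit 1) (.e (nat_lit 43560) (nat_lit 0) .nil) .nil))) 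
(.lf (nat_lit 457410) (.g (nat_lit 3148) (.e (nat_lit 2682) (nat_lit 168) (.e (nat_lit 204863) (nat_lit 27) (.e (nat_lit 344133) (nat_lit 26) (.e (nat_lit 557105) (nat_lit 14) (.e (nat_lit 180252) (nat_lit 10) (.e (nat_lit 573473) (nat_lit 12) (.e (nat_lit 57511) (nat_lit 39) (.e (nat_lit 647177) (nat_lit 0) .nil)))))))) (.g (nat_lit 1) (.e (nat_lit 44669) (nat_lit 0) .nil) .nil)))) 
(.nd (nat_lit 9) 
(.lf (nat_lit 457154) (.g (nat_lit 3010) (.e (nat_lit 2681) (nat_lit 168) (.e (nat_lit 204830) (nat_lit 18) (.e (nat_lit 57926) (nat_lit 282) (.e (nat_lit 163875) (nat_lit 3) (.e (nat_lit 204863) (nat_lit 27) (.e (nat_lit 344117) (nat_lit 21) (.e (nat_lit 516123) (nat_lit 2) (.e (nat_lit 213013) (nat_lit 9) .nil)))))))) (.g (nat_lit 1) (.e (nat_lit 44050) (nat_lit 0) .nil) .nil))) 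
(.lf (nat_lit 457666) (.g (nat_lit 4719) (.e (nat_lit 2684) (nat_lit 168) (.e (nat_lit 204830) (nat_lit 18) (.e (nat_lit 57927) (nat_lit 282) (.e (nat_lit 163869) (nat_lit 2) (.e (nat_lit 196670) (nat_lit 14) (.e (nat_lit 73746) (nat_lit 3) (.e (nat_lit 516124) (nat_lit 2) (.e (nat_lit 213013) (nat_lit 9) .nil)))))))) (.g (nat_lit 1) (.e (nat_lit 45457) (nat_lit 0) .nil) .nil))))))) 
(.nd (nat_lit 6) (.nd (nat_lit 7) (.nd (nat_lit 8) (.nd (nat_lit 9) 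
(.lf (nat_lit 456738) (.g (nat_lit 3389) (.e (nat_lit 2668) (nat_lit 167) (.e (nat_lit 196666) (nat_lit 13) (.e (nat_lit 65630) (nat_lit 14) (.e (nat_lit 401425) (nat_lit 2) (.e (nat_lit 196622) (nat_lit 9) (.e (nat_lit 1512) (nat_lit 108) (.e (nat_lit 335874) (nat_lit 0) (.e (nat_lit 6618) (nat_lit 357) .nil)))))))) (.g (nat_lit 1) (.e (nat_lit 43219) (nat_lit 0) .nil) .nil))) 
(.lf (nat_lit 457250) (.g (nat_lit 3970) (.e (nat_lit 2681) (nat_lit 168) (.e (nat_lit 204863) (nat_lit 27) (.e (nat_lit 344132) (nat_lit 26) (.e (nat_lit 557105) (nat_lit 14) (.e (nat_lit 180252) (nat_lit 10) (.e (nat_lit 573474) (nat_lit 12) (.e (nat_lit 57506) (nat_lit 39) (.e (nat_lit 647176) (nat_lit 0) .nil)))))))) (.g (nat_lit 1) (.e (nat_lit 44223) (nat_lit 0) .nil) .nil)))) 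
(.nd (nat_lit 9) 
(.lf (nat_lit 456994) (.g (nat_lit 1927) (.e (nat_lit 2679) (nat_lit 168) (.e (nat_lit 204868) (nat_lit 29) (.e (nat_lit 360466) (nat_lit 3) (.e (nat_lit 516139) (nat_lit 7) (.e (nat_lit 417536) (nat_lit 10) .nil))))) (.g (nat_lit 0) (.e (nat_lit 43774) (nat_lit 0) .nil) .nil))) 
(.lf (nat_lit 457506) (.g (nat_lit 4747) (.e (nat_lit 2682) (nat_lit 168) (.e (nat_lit 204869) (nat_lit 29) (.e (nat_lit 360474) (nat_lit 8) (.e (nat_lit 557079) (nat_lit 9) .nil)))) (.g (nat_lit 0) (.e (nat_lit 44946) (nat_lit 0) .nil) .nil))))) (.nd (nat_lit 8) (.nd (nat_lit 9) 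
(.lf (nat_lit 456866) (.g (nat_lit 2877) (.e (nat_lit 2675) (nat_lit 168) (.e (nat_lit 204869) (nat_lit 29) (.e (nat_lit 360475) (nat_lit 8) (.e (nat_lit 557068) (nat_lit 9) .nil)))) (.g (nat_lit 0) (.e (nat_lit 43457) (nat_lit 0) .nil) .nil))) 
(.lf (nat_lit 457378) (.g (nat_lit 479) (.e (nat_lit 2682) (nat_lit 168) (.e (nat_lit 204862) (nat_lit 27) (.e (nat_lit 344080) (nat_lit 13) .nil))) (.g (nat_lit 0) (.e (nat_lit 44634) (nat_lit 0) .nil) .nil)))) (.nd (nat_lit 9) 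
(.lf (nat_lit 457122) (.g (nat_lit 2117) (.e (nat_lit 2681) (nat_lit 168) (.e (nat_lit 204830) (nat_lit 18) (.e (nat_lit 57924) (nat_lit 282) (.e (nat_lit 163867) (nat_lit 2) (.e (nat_lit 196670) (nat_lit 14) (.e (nat_lit 73746) (nat_lit 3) (.e (nat_lit 516124) (nat_lit 2) (.e (nat_lit 213013) (nat_lit 9) .nil)))))))) (.g (nat_lit 1) (.e (nat_lit 44014) (nat_lit 0) .nil) .nil))) 
(.lf (nat_lit 457634) (.g (nat_lit 3007) (.e (nat_lit 2684) (nat_lit 168) (.e (nat_lit 204829) (nat_lit 18) (.e (nat_lit 57931) (nat_lit 282) (.e (nat_lit 163869) (nat_lit 2) (.e (nat_lit 196670) (nat_lit 14) (.e (nat_lit 73746) (nat_lit 3) (.e (nat_lit 516127) (nat_lit 2) (.e (nat_lit 213013) (nat_lit 9) .nil)))))))) (.g (nat_lit 1) (.e (nat_lit 45414) (nat_lit 0) .nil) .nil)))))) 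
(.nd (nat_lit 7) (.nd (nat_lit 8) (.nd (nat_lit 9) 
(.lf (nat_lit 456802) (.g (nat_lit 2413) (.e (nat_lit 2668) (nat_lit 167) (.e (nat_lit 196674) (nat_lit 15) (.e (nat_lit 81947) (nat_lit 20) (.e (nat_lit 1842) (nat_lit 123) (.e (nat_lit 548890) (nat_lit 10) (.e (nat_lit 81664) (nat_lit 32) .nil)))))) (.g (nat_lit 1) (.e (nat_lit 43305) (nat_lit 0) .nil) .nil))) 
(.lf (nat_lit 457314) (.g (nat_lit 2665) (.e (nat_lit 2681) (nat_lit 168) (.e (nat_lit 204869) (nat_lit 29) (.e (nat_lit 360475) (nat_lit 8) (.e (nat_lit 557087) (nat_lit 11) (.e (nat_lit 24588) (nat_lit 0) (.e (nat_lit 6676) (nat_lit 357) .nil)))))) (.g (nat_lit 1) (.e (nat_lit 44404) (nat_lit 0) .nil) .nil)))) (.nd (nat_lit 9) 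
(.lf (nat_lit 457058) (.g (nat_lit 2199) (.e (nat_lit 2680) (nat_lit 168) (.e (nat_lit 204864) (nat_lit 27) (.e (nat_lit 344133) (nat_lit 26) (.e (nat_lit 557098) (nat_lit 13) (.e (nat_lit 179968) (nat_lit 15) .nil))))) (.g (nat_lit 0) (.e (nat_lit 43906) (nat_lit 0) .nil) .nil))) 
(.lf (nat_lit 457570) (.g (nat_lit 2838) (.e (nat_lit 2683) (nat_lit 168) (.e (nat_lit 204829) (nat_lit 18) (.e (nat_lit 57931) (nat_lit 282) (.e (nat_lit 163867) (nat_lit 2) (.e (nat_lit 196670) (nat_lit 14) (.e (nat_lit 73746) (nat_lit 3) (.e (nat_lit 516124) (nat_lit 2) (.e (nat_lit 213022) (nat_lit 9) .nil)))))))) (.g (nat_lit 1) (.e (nat_lit 45267) (nat_lit 0) .nil) .nil))))) 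
(.nd (nat_lit 8) (.nd (nat_lit 9) 
(.lf (nat_lit 456930) (.g (nat_lit 2849) (.e (nat_lit 2679) (nat_lit 168) (.e (nat_lit 204846) (nat_lit 24) (.e (nat_lit 319533) (nat_lit 16) (.e (nat_lit 286733) (nat_lit 2) (.e (nat_lit 90165) (nat_lit 12) .nil))))) (.g (nat_lit 0) (.e (nat_lit 43671) (nat_lit 0) .nil) .nil))) 
(.lf (nat_lit 457442) (.g (nat_lit 3077) (.e (nat_lit 2682) (nat_lit 168) (.e (nat_lit 204869) (nat_lit 29) (.e (nat_lit 360449) (nat_lit 0) (.e (nat_lit 3957) (nat_lit 239) (.e (nat_lit 1208) (nat_lit 89) .nil))))) (.g (nat_lit 0) (.e (nat_lit 44763) (nat_lit 0) .nil) .nil)))) (.nd (nat_lit 9) 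
(.lf (nat_lit 457186) (.g (nat_lit 2669) (.e (nat_lit 2681) (nat_lit 168) (.e (nat_lit 204859) (nat_lit 26) (.e (nat_lit 336206) (nat_lit 12) (.e (nat_lit 385074) (nat_lit 31) (.e (nat_lit 573489) (nat_lit 14) (.e (nat_lit 73781) (nat_lit 32) .nil)))))) (.g (nat_lit 1) (.e (nat_lit 44140) (nat_lit 0) .nil) .nil))) 
(.lf (nat_lit 457698) (.g (nat_lit 3898) (.e (nat_lit 2684) (nat_lit 168) (.e (nat_lit 204846) (nat_lit 24) (.e (nat_lit 319531) (nat_lit 16) (.e (nat_lit 286735) (nat_lit 3) (.e (nat_lit 98367) (nat_lit 27) (.e (nat_lit 442112) (nat_lit 8) .nil)))))) (.g (nat_lit 1) (.e (nat_lit 45524) (nat_lit 0) .nil) .nil)))))))) 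
(.nd (nat_lit 5) (.nd (nat_lit 6) (.nd (nat_lit 7) (.nd (nat_lit 8) (.nd (nat_lit 9) 
(.lf (nat_lit 456722) (.g (nat_lit 3052) (.e (nat_lit 2668) (nat_lit 167) (.e (nat_lit 196666) (nat_lit 13) (.e (nat_lit 65628) (nat_lit 14) (.e (nat_lit 401428) (nat_lit 3) (.e (nat_lit 204845) (nat_lit 24) (.e (nat_lit 319492) (nat_lit 0) (.e (nat_lit 5626) (nat_lit 312) .nil))))))) (.g (nat_lit 1) (.e (nat_lit 43201) (nat_lit 0) .nil) .nil))) 
(.lf (nat_lit 457234) (.g (nat_lit 3423) (.e (nat_lit 2681) (nat_lit 168) (.e (nat_lit 204863) (nat_lit 27) (.e (nat_lit 344131) (nat_lit 26) (.e (nat_lit 557105) (nat_lit 14) (.e (nat_lit 180252) (nat_lit 10) (.e (nat_lit 573473) (nat_lit 12) (.e (nat_lit 57507) (nat_lit 39) (.e (nat_lit 647176) (nat_lit 0) .nil)))))))) (.g (nat_lit 1) (.e (nat_lit 44207) (nat_lit 0) .nil) .nil)))) 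
(.nd (nat_lit 9) 
(.lf (nat_lit 456978) (.g (nat_lit 918) (.e (nat_lit 2679) (nat_lit 168) (.e (nat_lit 204865) (nat_lit 28) (.e (nat_lit 352312) (nat_lit 22) (.e (nat_lit 98048) (nat_lit 19) .nil)))) (.g (nat_lit 0) (.e (nat_lit 43751) (nat_lit 0) .nil) .nil))) 
(.lf (nat_lit 457490) (.g (nat_lit 5041) (.e (nat_lit 2682) (nat_lit 168) (.e (nat_lit 204869) (nat_lit 29) (.e (nat_lit 360473) (nat_lit 8) (.e (nat_lit 557087) (nat_lit 11) (.e (nat_lit 24584) (nat_lit 0) (.e (nat_lit 6666) (nat_lit 357) .nil)))))) (.g (nat_lit 1) (.e (nat_lit 44927) (nat_lit 0) .nil) .nil))))) (.nd (nat_lit 8) (.nd (nat_lit 9) 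
(.lf (nat_lit 456850) (.g (nat_lit 2696) (.e (nat_lit 2675) (nat_lit 168) (.e (nat_lit 204863) (nat_lit 27) (.e (nat_lit 344129) (nat_lit 26) (.e (nat_lit 557104) (nat_lit 14) (.e (nat_lit 180252) (nat_lit 10) .nil))))) (.g (nat_lit 0) (.e (nat_lit 43429) (nat_lit 0) .nil) .nil))) 
(.lf (nat_lit 457362) (.g (nat_lit 2458) (.e (nat_lit 2682) (nat_lit 168) (.e (nat_lit 204855) (nat_lit 26) (.e (nat_lit 336226) (nat_lit 14) (.e (nat_lit 401425) (nat_lit 2) (.e (nat_lit 196668) (nat_lit 14) (.e (nat_lit 73782) (nat_lit 32) .nil)))))) (.g (nat_lit 1) (.e (nat_lit 44589) (nat_lit 0) .nil) .nil)))) (.nd (nat_lit 9) 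
(.lf (nat_lit 457106) (.g (nat_lit 2669) (.e (nat_lit 2681) (nat_lit 168) (.e (nat_lit 204829) (nat_lit 18) (.e (nat_lit 57927) (nat_lit 282) (.e (nat_lit 163874) (nat_lit 3) (.e (nat_lit 204862) (nat_lit 27) .nil))))) (.g (nat_lit 0) (.e (nat_lit 43992) (nat_lit 0) .nil) .nil))) 
(.lf (nat_lit 457618) (.g (nat_lit 2131) (.e (nat_lit 2684) (nat_lit 168) (.e (nat_lit 204829) (nat_lit 18) (.e (nat_lit 57927) (nat_lit 282) (.e (nat_lit 163866) (nat_lit 2) (.e (nat_lit 196670) (nat_lit 14) (.e (nat_lit 73746) (nat_lit 3) (.e (nat_lit 516124) (nat_lit 2) (.e (nat_lit 213019) (nat_lit 9) .nil)))))))) (.g (nat_lit 1) (.e (nat_lit 45388) (nat_lit 0) .nil) .nil)))))) 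
(.nd (nat_lit 7) (.nd (nat_lit 8) (.nd (nat_lit 9) 
(.lf (nat_lit 456786) (.g (nat_lit 1923) (.e (nat_lit 2668) (nat_lit 167) (.e (nat_lit 196670) (nat_lit 14) (.e (nat_lit 81664) (nat_lit 35) (.e (nat_lit 163950) (nat_lit 21) (.e (nat_lit 507648) (nat_lit 19) (.e (nat_lit 81664) (nat_lit 32) .nil)))))) (.g (nat_lit 1) (.e (nat_lit 43287) (nat_lit 0) .nil) .nil))) 
(.lf (nat_lit 457298) (.g (nat_lit 3435) (.e (nat_lit 2681) (nat_lit 168) (.e (nat_lit 204869) (nat_lit 29) (.e (nat_lit 360474) (nat_lit 8) (.e (nat_lit 557071) (nat_lit 9) .nil)))) (.g (nat_lit 0) (.e (nat_lit 44382) (nat_lit 0) .nil) .nil)))) (.nd (nat_lit 9) 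
(.lf (nat_lit 457042) (.g (nat_lit 2400) (.e (nat_lit 2680) (nat_lit 168) (.e (nat_lit 204829) (nat_lit 18) (.e (nat_lit 57849) (nat_lit 252) (.e (nat_lit 57377) (nat_lit 3) (.e (nat_lit 98313) (nat_lit 9) .nil))))) (.g (nat_lit 0) (.e (nat_lit 43880) (nat_lit 0) .nil) .nil))) 
(.lf (nat_lit 457554) (.g (nat_lit 2671) (.e (nat_lit 2683) (nat_lit 168) (.e (nat_lit 204829) (nat_lit 18) (.e (nat_lit 57926) (nat_lit 282) (.e (nat_lit 163868) (nat_lit 2) (.e (nat_lit 196668) (nat_lit 14) .nil))))) (.g (nat_lit 0) (.e (nat_lit 45244) (nat_lit 0) .nil) .nil))))) (.nd (nat_lit 8) (.nd (nat_lit 9) 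
(.lf (nat_lit 456914) (.g (nat_lit 2452) (.e (nat_lit 2679) (nat_lit 168) (.e (nat_lit 204846) (nat_lit 24) (.e (nat_lit 319529) (nat_lit 16) (.e (nat_lit 286733) (nat_lit 2) (.e (nat_lit 90174) (nat_lit 14) (.e (nat_lit 188160) (nat_lit 40) .nil)))))) (.g (nat_lit 1) (.e (nat_lit 43646) (nat_lit 0) .nil) .nil))) 
(.lf (nat_lit 457426) (.g (nat_lit 3438) (.e (nat_lit 2682) (nat_lit 168) (.e (nat_lit 204868) (nat_lit 29) (.e (nat_lit 360473) (nat_lit 8) (.e (nat_lit 557087) (nat_lit 11) (.e (nat_lit 24584) (nat_lit 0) (.e (nat_lit 6677) (nat_lit 357) .nil)))))) (.g (nat_lit 1) (.e (nat_lit 44744) (nat_lit 0) .nil) .nil)))) (.nd (nat_lit 9) 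
(.lf (nat_lit 457170) (.g (nat_lit 2257) (.e (nat_lit 2681) (nat_lit 168) (.e (nat_lit 204831) (nat_lit 18) (.e (nat_lit 57931) (nat_lit 282) (.e (nat_lit 163867) (nat_lit 2) (.e (nat_lit 196670) (nat_lit 14) (.e (nat_lit 73746) (nat_lit 3) (.e (nat_lit 516126) (nat_lit 2) (.e (nat_lit 213010) (nat_lit 9) .nil)))))))) (.g (nat_lit 1) (.e (nat_lit 44074) (nat_lit 0) .nil) .nil))) 
(.lf (nat_lit 457682) (.g (nat_lit 2837) (.e (nat_lit 2684) (nat_lit 168) (.e (nat_lit 204830) (nat_lit 18) (.e (nat_lit 57931) (nat_lit 282) (.e (nat_lit 163869) (nat_lit 2) (.e (nat_lit 196670) (nat_lit 14) (.e (nat_lit 73746) (nat_lit 3) (.e (nat_lit 516124) (nat_lit 2) (.e (nat_lit 213019) (nat_lit 9) .nil)))))))) (.g (nat_lit 1) (.e (nat_lit 45480) (nat_lit 0) .nil) .nil))))))) 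
(.nd (nat_lit 6) (.nd (nat_lit 7) (.nd (nat_lit 8) (.nd (nat_lit 9) 
(.lf (nat_lit 456754) (.g (nat_lit 3092) (.e (nat_lit 2668) (nat_lit 167) (.e (nat_lit 196666) (nat_lit 13) (.e (nat_lit 65630) (nat_lit 14) (.e (nat_lit 401428) (nat_lit 3) (.e (nat_lit 204859) (nat_lit 26) (.e (nat_lit 335874) (nat_lit 0) (.e (nat_lit 6618) (nat_lit 357) .nil))))))) (.g (nat_lit 1) (.e (nat_lit 43242) (nat_lit 0) .nil) .nil))) 
(.lf (nat_lit 457266) (.g (nat_lit 2836) (.e (nat_lit 2681) (nat_lit 168) (.e (nat_lit 204863) (nat_lit 27) (.e (nat_lit 344133) (nat_lit 26) (.e (nat_lit 557103) (nat_lit 14) (.e (nat_lit 180250) (nat_lit 10) .nil))))) (.g (nat_lit 0) (.e (nat_lit 44239) (nat_lit 0) .nil) .nil)))) (.nd (nat_lit 9) 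
(.lf (nat_lit 457010) (.g (nat_lit 1916) (.e (nat_lit 2679) (nat_lit 168) (.e (nat_lit 204868) (nat_lit 29) (.e (nat_lit 360475) (nat_lit 8) (.e (nat_lit 557086) (nat_lit 11) .nil)))) (.g (nat_lit 0) (.e (nat_lit 43820) (nat_lit 0) .nil) .nil))) 
(.lf (nat_lit 457522) (.g (nat_lit 3911) (.e (nat_lit 2682) (nat_lit 168) (.e (nat_lit 204869) (nat_lit 29) (.e (nat_lit 360475) (nat_lit 8) (.e (nat_lit 557070) (nat_lit 9) .nil)))) (.g (nat_lit 0) (.e (nat_lit 45111) (nat_lit 0) .nil) .nil))))) (.nd (nat_lit 8) (.nd (nat_lit 9) 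
(.lf (nat_lit 456882) (.g (nat_lit 3660) (.e (nat_lit 2677) (nat_lit 168) (.e (nat_lit 204869) (nat_lit 29) (.e (nat_lit 360474) (nat_lit 8) (.e (nat_lit 557072) (nat_lit 9) .nil)))) (.g (nat_lit 0) (.e (nat_lit 43494) (nat_lit 0) .nil) .nil))) 
(.lf (nat_lit 457394) (.g (nat_lit 3060) (.e (nat_lit 2682) (nat_lit 168) (.e (nat_lit 204863) (nat_lit 27) (.e (nat_lit 344131) (nat_lit 26) (.e (nat_lit 557105) (nat_lit 14) (.e (nat_lit 180252) (nat_lit 10) (.e (nat_lit 573474) (nat_lit 12) (.e (nat_lit 57508) (nat_lit 39) (.e (nat_lit 647177) (nat_lit 0) .nil)))))))) (.g (nat_lit 1) (.e (nat_lit 44653) (nat_lit 0) .nil) .nil)))) 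
(.nd (nat_lit 9) 
(.lf (nat_lit 457138) (.g (nat_lit 3545) (.e (nat_lit 2681) (nat_lit 168) (.e (nat_lit 204830) (nat_lit 18) (.e (nat_lit 57926) (nat_lit 282) (.e (nat_lit 163869) (nat_lit 2) (.e (nat_lit 196670) (nat_lit 14) (.e (nat_lit 73746) (nat_lit 3) (.e (nat_lit 516124) (nat_lit 2) (.e (nat_lit 213022) (nat_lit 9) .nil)))))))) (.g (nat_lit 1) (.e (nat_lit 44033) (nat_lit 0) .nil) .nil))) 
(.lf (nat_lit 457650) (.g (nat_lit 3621) (.e (nat_lit 2684) (nat_lit 168) (.e (nat_lit 204830) (nat_lit 18) (.e (nat_lit 57926) (nat_lit 282) (.e (nat_lit 163871) (nat_lit 2) (.e (nat_lit 196670) (nat_lit 14) (.e (nat_lit 73746) (nat_lit 3) (.e (nat_lit 516124) (nat_lit 2) (.e (nat_lit 213013) (nat_lit 9) .nil)))))))) (.g (nat_lit 1) (.e (nat_lit 45438) (nat_lit 0) .nil) .nil)))))) 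
(.nd (nat_lit 7) (.nd (nat_lit 8) (.nd (nat_lit 9) 
(.lf (nat_lit 456818) (.g (nat_lit 2942) (.e (nat_lit 7936) (nat_lit 167) (.e (nat_lit 196666) (nat_lit 13) (.e (nat_lit 65610) (nat_lit 10) (.e (nat_lit 344117) (nat_lit 21) (.e (nat_lit 516142) (nat_lit 8) .nil))))) (.g (nat_lit 0) (.e (nat_lit 43328) (nat_lit 0) .nil) .nil))) 
(.lf (nat_lit 457330) (.g (nat_lit 5070) (.e (nat_lit 2682) (nat_lit 168) (.e (nat_lit 204845) (nat_lit 24) (.e (nat_lit 319538) (nat_lit 19) (.e (nat_lit 311315) (nat_lit 3) (.e (nat_lit 204846) (nat_lit 24) (.e (nat_lit 319504) (nat_lit 10) (.e (nat_lit 5714) (nat_lit 312) .nil))))))) (.g (nat_lit 1) (.e (nat_lit 44523) (nat_lit 0) .nil) .nil)))) (.nd (nat_lit 9) 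
(.lf (nat_lit 457074) (.g (nat_lit 2283) (.e (nat_lit 2681) (nat_lit 168) (.e (nat_lit 204829) (nat_lit 18) (.e (nat_lit 57926) (nat_lit 282) (.e (nat_lit 163869) (nat_lit 2) (.e (nat_lit 196670) (nat_lit 14) (.e (nat_lit 73746) (nat_lit 3) (.e (nat_lit 516124) (nat_lit 2) (.e (nat_lit 213020) (nat_lit 9) .nil)))))))) (.g (nat_lit 1) (.e (nat_lit 43953) (nat_lit 0) .nil) .nil))) 
(.lf (nat_lit 457586) (.g (nat_lit 3453) (.e (nat_lit 2683) (nat_lit 168) (.e (nat_lit 204830) (nat_lit 18) (.e (nat_lit 57926) (nat_lit 282) (.e (nat_lit 163871) (nat_lit 2) (.e (nat_lit 196668) (nat_lit 14) (.e (nat_lit 73747) (nat_lit 3) (.e (nat_lit 516124) (nat_lit 2) (.e (nat_lit 213019) (nat_lit 9) .nil)))))))) (.g (nat_lit 1) (.e (nat_lit 45288) (nat_lit 0) .nil) .nil))))) 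
(.nd (nat_lit 8) (.nd (nat_lit 9) 
(.lf (nat_lit 456946) (.g (nat_lit 3738) (.e (nat_lit 2679) (nat_lit 168) (.e (nat_lit 204846) (nat_lit 24) (.e (nat_lit 319534) (nat_lit 16) (.e (nat_lit 286735) (nat_lit 3) (.e (nat_lit 98367) (nat_lit 27) (.e (nat_lit 442112) (nat_lit 8) .nil)))))) (.g (nat_lit 1) (.e (nat_lit 43689) (nat_lit 0) .nil) .nil))) 
(.lf (nat_lit 457458) (.g (nat_lit 3425) (.e (nat_lit 2682) (nat_lit 168) (.e (nat_lit 204869) (nat_lit 29) (.e (nat_lit 360451) (nat_lit 0) (.e (nat_lit 3982) (nat_lit 239) .nil)))) (.g (nat_lit 0) (.e (nat_lit 44795) (nat_lit 0) .nil) .nil)))) (.nd (nat_lit 9) 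
(.lf (nat_lit 457202) (.g (nat_lit 2927) (.e (nat_lit 2681) (nat_lit 168) (.e (nat_lit 204862) (nat_lit 27) (.e (nat_lit 344129) (nat_lit 26) (.e (nat_lit 557104) (nat_lit 14) (.e (nat_lit 180252) (nat_lit 10) (.e (nat_lit 573474) (nat_lit 12) (.e (nat_lit 57507) (nat_lit 39) (.e (nat_lit 647176) (nat_lit 0) .nil)))))))) (.g (nat_lit 1) (.e (nat_lit 44174) (nat_lit 0) .nil) .nil))) 
(.lf (nat_lit 457714) (.g (nat_lit 3177) (.e (nat_lit 2684) (nat_lit 168) (.e (nat_lit 204852) (nat_lit 26) (.e (nat_lit 336326) (nat_lit 18) (.e (nat_lit 204830) (nat_lit 18) (.e (nat_lit 57852) (nat_lit 252) (.e (nat_lit 57377) (nat_lit 3) (.e (nat_lit 98338) (nat_lit 19) (.e (nat_lit 213013) (nat_lit 9) .nil)))))))) (.g (nat_lit 1) (.e (nat_lit 45543) (nat_lit 0) .nil) .nil))))))))) 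
(.nd (nat_lit 4) (.nd (nat_lit 5) (.nd (nat_lit 6) (.nd (nat_lit 7) (.nd (nat_lit 8) 
(.nd (nat_lit 9) 
(.lf (nat_lit 456714) (.g (nat_lit 4268) (.e (nat_lit 2668) (nat_lit 167) (.e (nat_lit 196666) (nat_lit 13) (.e (nat_lit 65628) (nat_lit 14) (.e (nat_lit 401425) (nat_lit 2) (.e (nat_lit 196628) (nat_lit 9) (.e (nat_lit 1512) (nat_lit 108) (.e (nat_lit 335874) (nat_lit 0) (.e (nat_lit 6618) (nat_lit 357) .nil)))))))) (.g (nat_lit 1) (.e (nat_lit 43192) (nat_lit 0) .nil) .nil))) 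
(.lf (nat_lit 457226) (.g (nat_lit 2185) (.e (nat_lit 2681) (nat_lit 168) (.e (nat_lit 204863) (nat_lit 27) (.e (nat_lit 344130) (nat_lit 26) (.e (nat_lit 557104) (nat_lit 14) (.e (nat_lit 180252) (nat_lit 10) .nil))))) (.g (nat_lit 0) (.e (nat_lit 44199) (nat_lit 0) .nil) .nil)))) (.nd (nat_lit 9) 
(.lf (nat_lit 456970) (.g (nat_lit 1792) (.e (nat_lit 2679) (nat_lit 168) (.e (nat_lit 204864) (nat_lit 27) (.e (nat_lit 344130) (nat_lit 26) (.e (nat_lit 557103) (nat_lit 14) (.e (nat_lit 188160) (nat_lit 3) .nil))))) (.g (nat_lit 0) (.e (nat_lit 43740) (nat_lit 0) .nil) .nil))) 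
(.lf (nat_lit 457482) (.g (nat_lit 421) (.e (nat_lit 2682) (nat_lit 168) (.e (nat_lit 204869) (nat_lit 29) (.e (nat_lit 360473) (nat_lit 8) .nil))) (.g (nat_lit 0) (.e (nat_lit 44919) (nat_lit 0) .nil) .nil))))) (.nd (nat_lit 8) (.nd (nat_lit 9) 
(.lf (nat_lit 456842) (.g (nat_lit 3265) (.e (nat_lit 2675) (nat_lit 168) (.e (nat_lit 204830) (nat_lit 18) (.e (nat_lit 57926) (nat_lit 282) (.e (nat_lit 163869) (nat_lit 2) (.e (nat_lit 196670) (nat_lit 14) (.e (nat_lit 73746) (nat_lit 3) (.e (nat_lit 516124) (nat_lit 2) (.e (nat_lit 213013) (nat_lit 9) .nil)))))))) (.g (nat_lit 1) (.e (nat_lit 43410) (nat_lit 0) .nil) .nil))) 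
(.lf (nat_lit 457354) (.g (nat_lit 2031) (.e (nat_lit 2682) (nat_lit 168) (.e (nat_lit 204854) (nat_lit 26) (.e (nat_lit 336182) (nat_lit 11) (.e (nat_lit 368680) (nat_lit 25) (.e (nat_lit 548890) (nat_lit 10) (.e (nat_lit 73782) (nat_lit 32) .nil)))))) (.g (nat_lit 1) (.e (nat_lit 44561) (nat_lit 0) .nil) .nil)))) (.nd (nat_lit 9) 
(.lf (nat_lit 457098) (.g (nat_lit 3178) (.e (nat_lit 2681) (nat_lit 168) (.e (nat_lit 204829) (nat_lit 18) (.e (nat_lit 57927) (nat_lit 282) (.e (nat_lit 163869) (nat_lit 2) (.e (nat_lit 196670) (nat_lit 14) (.e (nat_lit 73746) (nat_lit 3) (.e (nat_lit 516127) (nat_lit 2) (.e (nat_lit 213022) (nat_lit 9) .nil)))))))) (.g (nat_lit 1) (.e (nat_lit 43984) (nat_lit 0) .nil) .nil))) 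
(.lf (nat_lit 457610) (.g (nat_lit 3111) (.e (nat_lit 2684) (nat_lit 168) (.e (nat_lit 204829) (nat_lit 18) (.e (nat_lit 57926) (nat_lit 282) (.e (nat_lit 163869) (nat_lit 2) (.e (nat_lit 196670) (nat_lit 14) (.e (nat_lit 73746) (nat_lit 3) (.e (nat_lit 516124) (nat_lit 2) (.e (nat_lit 213019) (nat_lit 9) .nil)))))))) (.g (nat_lit 1) (.e (nat_lit 45378) (nat_lit 0) .nil) .nil)))))) 
(.nd (nat_lit 7) (.nd (nat_lit 8) (.nd (nat_lit 9) 
(.lf (nat_lit 456778) (.g (nat_lit 2376) (.e (nat_lit 2668) (nat_lit 167) (.e (nat_lit 196670) (nat_lit 14) (.e (nat_lit 73754) (nat_lit 8) (.e (nat_lit 557105) (nat_lit 14) (.e (nat_lit 180252) (nat_lit 10) (.e (nat_lit 573475) (nat_lit 12) (.e (nat_lit 57507) (nat_lit 39) (.e (nat_lit 655104) (nat_lit 0) .nil)))))))) (.g (nat_lit 1) (.e (nat_lit 43272) (nat_lit 0) .nil) .nil))) 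
(.lf (nat_lit 457290) (.g (nat_lit 2494) (.e (nat_lit 2681) (nat_lit 168) (.e (nat_lit 204869) (nat_lit 29) (.e (nat_lit 360451) (nat_lit 0) (.e (nat_lit 3957) (nat_lit 239) .nil)))) (.g (nat_lit 0) (.e (nat_lit 44350) (nat_lit 0) .nil) .nil)))) (.nd (nat_lit 9) 
(.lf (nat_lit 457034) (.g (nat_lit 3021) (.e (nat_lit 2679) (nat_lit 168) (.e (nat_lit 204876) (nat_lit 31) (.e (nat_lit 376867) (nat_lit 23) (.e (nat_lit 98350) (nat_lit 24) (.e (nat_lit 409623) (nat_lit 10) (.e (nat_lit 5664) (nat_lit 312) .nil)))))) (.g (nat_lit 1) (.e (nat_lit 43861) (nat_lit 0) .nil) .nil))) 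
(.lf (nat_lit 457546) (.g (nat_lit 1787) (.e (nat_lit 2682) (nat_lit 168) (.e (nat_lit 204870) (nat_lit 29) (.e (nat_lit 360471) (nat_lit 7) (.e (nat_lit 548890) (nat_lit 10) (.e (nat_lit 73781) (nat_lit 32) .nil))))) (.g (nat_lit 1) (.e (nat_lit 45213) (nat_lit 0) .nil) .nil))))) (.nd (nat_lit 8) (.nd (nat_lit 9) 
(.lf (nat_lit 456906) (.g (nat_lit 2421) (.e (nat_lit 2679) (nat_lit 168) (.e (nat_lit 204845) (nat_lit 24) (.e (nat_lit 319530) (nat_lit 16) (.e (nat_lit 286735) (nat_lit 3) (.e (nat_lit 98325) (nat_lit 17) .nil))))) (.g (nat_lit 0) (.e (nat_lit 43626) (nat_lit 0) .nil) .nil))) 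
(.lf (nat_lit 457418) (.g (nat_lit 313) (.e (nat_lit 2682) (nat_lit 168) (.e (nat_lit 204868) (nat_lit 29) (.e (nat_lit 360466) (nat_lit 3) .nil))) (.g (nat_lit 0) (.e (nat_lit 44697) (nat_lit 0) .nil) .nil)))) (.nd (nat_lit 9) 
(.lf (nat_lit 457162) (.g (nat_lit 2175) (.e (nat_lit 2681) (nat_lit 168) (.e (nat_lit 204830) (nat_lit 18) (.e (nat_lit 57929) (nat_lit 282) (.e (nat_lit 163869) (nat_lit 2) (.e (nat_lit 196670) (nat_lit 14) (.e (nat_lit 73746) (nat_lit 3) (.e (nat_lit 516127) (nat_lit 2) (.e (nat_lit 213019) (nat_lit 9) .nil)))))))) (.g (nat_lit 1) (.e (nat_lit 44059) (nat_lit 0) .nil) .nil))) 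
(.lf (nat_lit 457674) (.g (nat_lit 2913) (.e (nat_lit 2684) (nat_lit 168) (.e (nat_lit 204830) (nat_lit 18) (.e (nat_lit 57928) (nat_lit 282) (.e (nat_lit 163868) (nat_lit 2) (.e (nat_lit 196668) (nat_lit 14) (.e (nat_lit 73747) (nat_lit 3) (.e (nat_lit 516124) (nat_lit 2) (.e (nat_lit 213013) (nat_lit 9) .nil)))))))) (.g (nat_lit 1) (.e (nat_lit 45467) (nat_lit 0) .nil) .nil))))))) 
(.nd (nat_lit 6) (.nd (nat_lit 7) (.nd (nat_lit 8) (.nd (nat_lit 9) 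
(.lf (nat_lit 456746) (.g (nat_lit 1182) (.e (nat_lit 2668) (nat_lit 167) (.e (nat_lit 196666) (nat_lit 13) (.e (nat_lit 65630) (nat_lit 14) (.e (nat_lit 401428) (nat_lit 3) .nil)))) (.g (nat_lit 0) (.e (nat_lit 43234) (nat_lit 0) .nil) .nil))) 
(.lf (nat_lit 457258) (.g (nat_lit 3089) (.e (nat_lit 2681) (nat_lit 168) (.e (nat_lit 204863) (nat_lit 27) (.e (nat_lit 344133) (nat_lit 26) (.e (nat_lit 557098) (nat_lit 13) (.e (nat_lit 172066) (nat_lit 3) (.e (nat_lit 204829) (nat_lit 18) (.e (nat_lit 57704) (nat_lit 164) (.e (nat_lit 2515) (nat_lit 157) .nil)))))))) (.g (nat_lit 1) (.e (nat_lit 44231) (nat_lit 0) .nil) .nil)))) 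
(.nd (nat_lit 9) 
(.lf (nat_lit 457002) (.g (nat_lit 3389) (.e (nat_lit 2679) (nat_lit 168) (.e (nat_lit 204868) (nat_lit 29) (.e (nat_lit 360466) (nat_lit 3) (.e (nat_lit 516142) (nat_lit 8) (.e (nat_lit 417817) (nat_lit 10) (.e (nat_lit 5667) (nat_lit 312) .nil)))))) (.g (nat_lit 1) (.e (nat_lit 43782) (nat_lit 0) .nil) .nil))) 
(.lf (nat_lit 457514) (.g (nat_lit 5376) (.e (nat_lit 2682) (nat_lit 168) (.e (nat_lit 204869) (nat_lit 29) (.e (nat_lit 360474) (nat_lit 8) (.e (nat_lit 557087) (nat_lit 11) (.e (nat_lit 24584) (nat_lit 0) (.e (nat_lit 6677) (nat_lit 357) .nil)))))) (.g (nat_lit 1) (.e (nat_lit 44955) (nat_lit 0) .nil) .nil))))) (.nd (nat_lit 8) (.nd (nat_lit 9) 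
(.lf (nat_lit 456874) (.g (nat_lit 1961) (.e (nat_lit 2675) (nat_lit 168) (.e (nat_lit 204877) (nat_lit 31) (.e (nat_lit 376865) (nat_lit 22) (.e (nat_lit 90181) (nat_lit 16) (.e (nat_lit 229577) (nat_lit 179) (.e (nat_lit 164361) (nat_lit 246) .nil)))))) (.g (nat_lit 1) (.e (nat_lit 43468) (nat_lit 0) .nil) .nil))) 
(.lf (nat_lit 457386) (.g (nat_lit 2869) (.e (nat_lit 2682) (nat_lit 168) (.e (nat_lit 204863) (nat_lit 27) (.e (nat_lit 344129) (nat_lit 26) (.e (nat_lit 557104) (nat_lit 14) (.e (nat_lit 180252) (nat_lit 10) (.e (nat_lit 573474) (nat_lit 12) (.e (nat_lit 57507) (nat_lit 39) (.e (nat_lit 647177) (nat_lit 0) .nil)))))))) (.g (nat_lit 1) (.e (nat_lit 44645) (nat_lit 0) .nil) .nil)))) 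
(.nd (nat_lit 9) 
(.lf (nat_lit 457130) (.g (nat_lit 4064) (.e (nat_lit 2681) (nat_lit 168) (.e (nat_lit 204830) (nat_lit 18) (.e (nat_lit 57926) (nat_lit 282) (.e (nat_lit 163868) (nat_lit 2) (.e (nat_lit 196668) (nat_lit 14) (.e (nat_lit 73747) (nat_lit 3) (.e (nat_lit 516124) (nat_lit 2) (.e (nat_lit 213019) (nat_lit 9) .nil)))))))) (.g (nat_lit 1) (.e (nat_lit 44023) (nat_lit 0) .nil) .nil))) 
(.lf (nat_lit 457642) (.g (nat_lit 3229) (.e (nat_lit 2684) (nat_lit 168) (.e (nat_lit 204830) (nat_lit 18) (.e (nat_lit 57925) (nat_lit 282) (.e (nat_lit 163871) (nat_lit 2) (.e (nat_lit 196670) (nat_lit 14) (.e (nat_lit 73746) (nat_lit 3) (.e (nat_lit 516124) (nat_lit 2) (.e (nat_lit 213013) (nat_lit 9) .nil)))))))) (.g (nat_lit 1) (.e (nat_lit 45425) (nat_lit 0) .nil) .nil)))))) 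
(.nd (nat_lit 7) (.nd (nat_lit 8) (.nd (nat_lit 9) 
(.lf (nat_lit 456810) (.g (nat_lit 2340) (.e (nat_lit 2668) (nat_lit 167) (.e (nat_lit 196686) (nat_lit 18) (.e (nat_lit 1385) (nat_lit 105) (.e (nat_lit 311324) (nat_lit 9) (.e (nat_lit 426568) (nat_lit 34) (.e (nat_lit 393238) (nat_lit 17) (.e (nat_lit 3399) (nat_lit 211) (.e (nat_lit 647170) (nat_lit 0) .nil)))))))) (.g (nat_lit 1) (.e (nat_lit 43319) (nat_lit 0) .nil) .nil))) 
(.lf (nat_lit 457322) (.g (nat_lit 1130) (.e (nat_lit 2682) (nat_lit 168) (.e (nat_lit 204829) (nat_lit 18) (.e (nat_lit 57691) (nat_lit 156) .nil))) (.g (nat_lit 0) (.e (nat_lit 44502) (nat_lit 0) .nil) .nil)))) (.nd (nat_lit 9) 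
(.lf (nat_lit 457066) (.g (nat_lit 2132) (.e (nat_lit 2681) (nat_lit 168) (.e (nat_lit 204829) (nat_lit 18) (.e (nat_lit 57924) (nat_lit 282) (.e (nat_lit 163867) (nat_lit 2) (.e (nat_lit 196670) (nat_lit 14) (.e (nat_lit 73746) (nat_lit 3) (.e (nat_lit 516124) (nat_lit 2) (.e (nat_lit 213019) (nat_lit 9) .nil)))))))) (.g (nat_lit 1) (.e (nat_lit 43944) (nat_lit 0) .nil) .nil))) 
(.lf (nat_lit 457578) (.g (nat_lit 2520) (.e (nat_lit 2683) (nat_lit 168) (.e (nat_lit 204830) (nat_lit 18) (.e (nat_lit 57926) (nat_lit 282) (.e (nat_lit 163869) (nat_lit 2) (.e (nat_lit 196670) (nat_lit 14) (.e (nat_lit 73746) (nat_lit 3) (.e (nat_lit 516122) (nat_lit 2) (.e (nat_lit 213016) (nat_lit 9) .nil)))))))) (.g (nat_lit 1) (.e (nat_lit 45280) (nat_lit 0) .nil) .nil))))) 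
(.nd (nat_lit 8) (.nd (nat_lit 9) 
(.lf (nat_lit 456938) (.g (nat_lit 2807) (.e (nat_lit 2679) (nat_lit 168) (.e (nat_lit 204846) (nat_lit 24) (.e (nat_lit 319534) (nat_lit 16) (.e (nat_lit 286733) (nat_lit 2) (.e (nat_lit 90171) (nat_lit 14) .nil))))) (.g (nat_lit 0) (.e (nat_lit 43681) (nat_lit 0) .nil) .nil))) 
(.lf (nat_lit 457450) (.g (nat_lit 2911) (.e (nat_lit 2682) (nat_lit 168) (.e (nat_lit 204869) (nat_lit 29) (.e (nat_lit 360450) (nat_lit 0) (.e (nat_lit 7936) (nat_lit 242) .nil)))) (.g (nat_lit 0) (.e (nat_lit 44776) (nat_lit 0) .nil) .nil)))) (.nd (nat_lit 9) 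
(.lf (nat_lit 457194) (.g (nat_lit 2777) (.e (nat_lit 2681) (nat_lit 168) (.e (nat_lit 204862) (nat_lit 27) (.e (nat_lit 344129) (nat_lit 26) (.e (nat_lit 557097) (nat_lit 13) (.e (nat_lit 172066) (nat_lit 3) (.e (nat_lit 204829) (nat_lit 18) (.e (nat_lit 57704) (nat_lit 164) (.e (nat_lit 2515) (nat_lit 157) .nil)))))))) (.g (nat_lit 1) (.e (nat_lit 44166) (nat_lit 0) .nil) .nil))) 
(.lf (nat_lit 457706) (.g (nat_lit 3062) (.e (nat_lit 2684) (nat_lit 168) (.e (nat_lit 204846) (nat_lit 24) (.e (nat_lit 319534) (nat_lit 16) (.e (nat_lit 286734) (nat_lit 3) (.e (nat_lit 98367) (nat_lit 27) .nil))))) (.g (nat_lit 0) (.e (nat_lit 45532) (nat_lit 0) .nil) .nil)))))))) (.nd (nat_lit 5) (.nd (nat_lit 6) (.nd (nat_lit 7) (.nd (nat_lit 8) (.nd (nat_lit 9) 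
(.lf (nat_lit 456730) (.g (nat_lit 2022) (.e (nat_lit 2668) (nat_lit 167) (.e (nat_lit 196666) (nat_lit 13) (.e (nat_lit 65628) (nat_lit 14) (.e (nat_lit 401428) (nat_lit 3) (.e (nat_lit 204862) (nat_lit 27) (.e (nat_lit 352000) (nat_lit 0) .nil)))))) (.g (nat_lit 1) (.e (nat_lit 43209) (nat_lit 0) .nil) .nil))) 
(.lf (nat_lit 457242) (.g (nat_lit 1571) (.e (nat_lit 2681) (nat_lit 168) (.e (nat_lit 204863) (nat_lit 27) (.e (nat_lit 344132) (nat_lit 26) (.e (nat_lit 557105) (nat_lit 14) .nil)))) (.g (nat_lit 0) (.e (nat_lit 44215) (nat_lit 0) .nil) .nil)))) (.nd (nat_lit 9) 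
(.lf (nat_lit 456986) (.g (nat_lit 1207) (.e (nat_lit 2679) (nat_lit 168) (.e (nat_lit 204868) (nat_lit 29) (.e (nat_lit 360466) (nat_lit 3) (.e (nat_lit 516098) (nat_lit 0) .nil)))) (.g (nat_lit 0) (.e (nat_lit 43766) (nat_lit 0) .nil) .nil))) 
(.lf (nat_lit 457498) (.g (nat_lit 1861) (.e (nat_lit 2682) (nat_lit 168) (.e (nat_lit 204869) (nat_lit 29) (.e (nat_lit 360474) (nat_lit 8) (.e (nat_lit 557068) (nat_lit 9) .nil)))) (.g (nat_lit 0) (.e (nat_lit 44937) (nat_lit 0) .nil) .nil))))) (.nd (nat_lit 8) (.nd (nat_lit 9) 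
(.lf (nat_lit 456858) (.g (nat_lit 2366) (.e (nat_lit 2675) (nat_lit 168) (.e (nat_lit 204868) (nat_lit 29) (.e (nat_lit 360475) (nat_lit 8) (.e (nat_lit 557068) (nat_lit 9) .nil)))) (.g (nat_lit 0) (.e (nat_lit 43444) (nat_lit 0) .nil) .nil))) 
(.lf (nat_lit 457370) (.g (nat_lit 3160) (.e (nat_lit 2682) (nat_lit 168) (.e (nat_lit 204861) (nat_lit 26) (.e (nat_lit 336204) (nat_lit 12) (.e (nat_lit 385074) (nat_lit 31) (.e (nat_lit 573487) (nat_lit 14) (.e (nat_lit 73781) (nat_lit 32) .nil)))))) (.g (nat_lit 1) (.e (nat_lit 44626) (nat_lit 0) .nil) .nil)))) (.nd (nat_lit 9) 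
(.lf (nat_lit 457114) (.g (nat_lit 1000) (.e (nat_lit 2681) (nat_lit 168) (.e (nat_lit 204829) (nat_lit 18) (.e (nat_lit 57931) (nat_lit 282) .nil))) (.g (nat_lit 0) (.e (nat_lit 44000) (nat_lit 0) .nil) .nil))) 
(.lf (nat_lit 457626) (.g (nat_lit 3426) (.e (nat_lit 2684) (nat_lit 168) (.e (nat_lit 204829) (nat_lit 18) (.e (nat_lit 57927) (nat_lit 282) (.e (nat_lit 163875) (nat_lit 3) (.e (nat_lit 204862) (nat_lit 27) (.e (nat_lit 344117) (nat_lit 21) (.e (nat_lit 516123) (nat_lit 2) (.e (nat_lit 213013) (nat_lit 9) .nil)))))))) (.g (nat_lit 1) (.e (nat_lit 45399) (nat_lit 0) .nil) .nil)))))) 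
(.nd (nat_lit 7) (.nd (nat_lit 8) (.nd (nat_lit 9) 
(.lf (nat_lit 456794) (.g (nat_lit 3150) (.e (nat_lit 2668) (nat_lit 167) (.e (nat_lit 196672) (nat_lit 15) (.e (nat_lit 81954) (nat_lit 23) (.e (nat_lit 98350) (nat_lit 24) (.e (nat_lit 409616) (nat_lit 10) .nil))))) (.g (nat_lit 0) (.e (nat_lit 43296) (nat_lit 0) .nil) .nil))) 
(.lf (nat_lit 457306) (.g (nat_lit 3139) (.e (nat_lit 2681) (nat_lit 168) (.e (nat_lit 204869) (nat_lit 29) (.e (nat_lit 360475) (nat_lit 8) (.e (nat_lit 557070) (nat_lit 9) .nil)))) (.g (nat_lit 0) (.e (nat_lit 44395) (nat_lit 0) .nil) .nil)))) (.nd (nat_lit 9) 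
(.lf (nat_lit 457050) (.g (nat_lit 3241) (.e (nat_lit 2680) (nat_lit 168) (.e (nat_lit 204830) (nat_lit 18) (.e (nat_lit 57926) (nat_lit 282) (.e (nat_lit 163869) (nat_lit 2) (.e (nat_lit 196670) (nat_lit 14) (.e (nat_lit 73746) (nat_lit 3) (.e (nat_lit 516124) (nat_lit 2) (.e (nat_lit 213008) (nat_lit 9) .nil)))))))) (.g (nat_lit 1) (.e (nat_lit 43891) (nat_lit 0) .nil) .nil))) 
(.lf (nat_lit 457562) (.g (nat_lit 2135) (.e (nat_lit 2683) (nat_lit 168) (.e (nat_lit 204829) (nat_lit 18) (.e (nat_lit 57927) (nat_lit 282) (.e (nat_lit 163871) (nat_lit 2) (.e (nat_lit 196670) (nat_lit 14) (.e (nat_lit 73746) (nat_lit 3) (.e (nat_lit 516124) (nat_lit 2) (.e (nat_lit 213016) (nat_lit 9) .nil)))))))) (.g (nat_lit 1) (.e (nat_lit 45257) (nat_lit 0) .nil) .nil))))) 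
(.nd (nat_lit 8) (.nd (nat_lit 9) 
(.lf (nat_lit 456922) (.g (nat_lit 2488) (.e (nat_lit 2679) (nat_lit 168) (.e (nat_lit 204846) (nat_lit 24) (.e (nat_lit 319531) (nat_lit 16) (.e (nat_lit 286735) (nat_lit 3) (.e (nat_lit 98368) (nat_lit 27) (.e (nat_lit 442112) (nat_lit 8) .nil)))))) (.g (nat_lit 1) (.e (nat_lit 43657) (nat_lit 0) .nil) .nil))) 
(.lf (nat_lit 457434) (.g (nat_lit 2196) (.e (nat_lit 2682) (nat_lit 168) (.e (nat_lit 204869) (nat_lit 29) (.e (nat_lit 360448) (nat_lit 0) (.e (nat_lit 3925) (nat_lit 239) (.e (nat_lit 1208) (nat_lit 89) .nil))))) (.g (nat_lit 0) (.e (nat_lit 44755) (nat_lit 0) .nil) .nil)))) (.nd (nat_lit 9) 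
(.lf (nat_lit 457178) (.g (nat_lit 2883) (.e (nat_lit 2681) (nat_lit 168) (.e (nat_lit 204831) (nat_lit 18) (.e (nat_lit 57931) (nat_lit 282) (.e (nat_lit 163874) (nat_lit 3) (.e (nat_lit 204862) (nat_lit 27) .nil))))) (.g (nat_lit 0) (.e (nat_lit 44085) (nat_lit 0) .nil) .nil))) 
(.lf (nat_lit 457690) (.g (nat_lit 3029) (.e (nat_lit 2684) (nat_lit 168) (.e (nat_lit 204831) (nat_lit 18) (.e (nat_lit 57931) (nat_lit 282) (.e (nat_lit 163874) (nat_lit 3) (.e (nat_lit 204864) (nat_lit 27) .nil))))) (.g (nat_lit 0) (.e (nat_lit 45497) (nat_lit 0) .nil) .nil))))))) (.nd (nat_lit 6) (.nd (nat_lit 7) (.nd (nat_lit 8) (.nd (nat_lit 9) 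
(.lf (nat_lit 456762) (.g (nat_lit 2305) (.e (nat_lit 2668) (nat_lit 167) (.e (nat_lit 196669) (nat_lit 14) (.e (nat_lit 73755) (nat_lit 8) (.e (nat_lit 557105) (nat_lit 14) (.e (nat_lit 180252) (nat_lit 10) (.e (nat_lit 573474) (nat_lit 12) (.e (nat_lit 57507) (nat_lit 39) (.e (nat_lit 647170) (nat_lit 0) .nil)))))))) (.g (nat_lit 1) (.e (nat_lit 43254) (nat_lit 0) .nil) .nil))) 
(.lf (nat_lit 457274) (.g (nat_lit 2864) (.e (nat_lit 2681) (nat_lit 168) (.e (nat_lit 204863) (nat_lit 27) (.e (nat_lit 344133) (nat_lit 26) (.e (nat_lit 557105) (nat_lit 14) (.e (nat_lit 180252) (nat_lit 10) .nil))))) (.g (nat_lit 0) (.e (nat_lit 44247) (nat_lit 0) .nil) .nil)))) (.nd (nat_lit 9) 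
(.lf (nat_lit 457018) (.g (nat_lit 1707) (.e (nat_lit 2679) (nat_lit 168) (.e (nat_lit 204869) (nat_lit 29) (.e (nat_lit 360474) (nat_lit 8) (.e (nat_lit 557072) (nat_lit 9) .nil)))) (.g (nat_lit 0) (.e (nat_lit 43832) (nat_lit 0) .nil) .nil))) 
(.lf (nat_lit 457530) (.g (nat_lit 4472) (.e (nat_lit 2682) (nat_lit 168) (.e (nat_lit 204869) (nat_lit 29) (.e (nat_lit 360475) (nat_lit 8) (.e (nat_lit 557085) (nat_lit 11) .nil)))) (.g (nat_lit 0) (.e (nat_lit 45121) (nat_lit 0) .nil) .nil))))) (.nd (nat_lit 8) (.nd (nat_lit 9) 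
(.lf (nat_lit 456890) (.g (nat_lit 2619) (.e (nat_lit 2678) (nat_lit 168) (.e (nat_lit 204862) (nat_lit 27) (.e (nat_lit 344129) (nat_lit 26) (.e (nat_lit 557097) (nat_lit 13) (.e (nat_lit 172133) (nat_lit 15) .nil))))) (.g (nat_lit 0) (.e (nat_lit 43504) (nat_lit 0) .nil) .nil))) 
(.lf (nat_lit 457402) (.g (nat_lit 2636) (.e (nat_lit 2682) (nat_lit 168) (.e (nat_lit 204863) (nat_lit 27) (.e (nat_lit 344133) (nat_lit 26) (.e (nat_lit 557098) (nat_lit 13) (.e (nat_lit 172133) (nat_lit 15) .nil))))) (.g (nat_lit 0) (.e (nat_lit 44661) (nat_lit 0) .nil) .nil)))) (.nd (nat_lit 9) 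
(.lf (nat_lit 457146) (.g (nat_lit 3685) (.e (nat_lit 2681) (nat_lit 168) (.e (nat_lit 204830) (nat_lit 18) (.e (nat_lit 57926) (nat_lit 282) (.e (nat_lit 163871) (nat_lit 2) (.e (nat_lit 196668) (nat_lit 14) (.e (nat_lit 73747) (nat_lit 3) (.e (nat_lit 516124) (nat_lit 2) (.e (nat_lit 213019) (nat_lit 9) .nil)))))))) (.g (nat_lit 1) (.e (nat_lit 44042) (nat_lit 0) .nil) .nil))) 
(.lf (nat_lit 457658) (.g (nat_lit 2862) (.e (nat_lit 2684) (nat_lit 168) (.e (nat_lit 204830) (nat_lit 18) (.e (nat_lit 57927) (nat_lit 282) (.e (nat_lit 163867) (nat_lit 2) (.e (nat_lit 196670) (nat_lit 14) (.e (nat_lit 73746) (nat_lit 3) (.e (nat_lit 516124) (nat_lit 2) (.e (nat_lit 213013) (nat_lit 9) .nil)))))))) (.g (nat_lit 1) (.e (nat_lit 45447) (nat_lit 0) .nil) .nil)))))) 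
(.nd (nat_lit 7) (.nd (nat_lit 8) (.nd (nat_lit 9) 
(.lf (nat_lit 456826) (.g (nat_lit 684) (.e (nat_lit 2672) (nat_lit 168) (.e (nat_lit 204868) (nat_lit 29) (.e (nat_lit 360473) (nat_lit 8) .nil))) (.g (nat_lit 0) (.e (nat_lit 43350) (nat_lit 0) .nil) .nil))) 
(.lf (nat_lit 457338) (.g (nat_lit 5817) (.e (nat_lit 2682) (nat_lit 168) (.e (nat_lit 204846) (nat_lit 24) (.e (nat_lit 319538) (nat_lit 19) (.e (nat_lit 311315) (nat_lit 3) (.e (nat_lit 204846) (nat_lit 24) (.e (nat_lit 319504) (nat_lit 10) (.e (nat_lit 5714) (nat_lit 312) .nil))))))) (.g (nat_lit 1) (.e (nat_lit 44539) (nat_lit 0) .nil) .nil)))) (.nd (nat_lit 9) 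
(.lf (nat_lit 457082) (.g (nat_lit 2195) (.e (nat_lit 2681) (nat_lit 168) (.e (nat_lit 204829) (nat_lit 18) (.e (nat_lit 57927) (nat_lit 282) (.e (nat_lit 163868) (nat_lit 2) (.e (nat_lit 196668) (nat_lit 14) (.e (nat_lit 73746) (nat_lit 3) (.e (nat_lit 516124) (nat_lit 2) (.e (nat_lit 213020) (nat_lit 9) .nil)))))))) (.g (nat_lit 1) (.e (nat_lit 43964) (nat_lit 0) .nil) .nil))) 
(.lf (nat_lit 457594) (.g (nat_lit 2844) (.e (nat_lit 2683) (nat_lit 168) (.e (nat_lit 204830) (nat_lit 18) (.e (nat_lit 57929) (nat_lit 282) (.e (nat_lit 163869) (nat_lit 2) (.e (nat_lit 196670) (nat_lit 14) (.e (nat_lit 73746) (nat_lit 3) (.e (nat_lit 516124) (nat_lit 2) (.e (nat_lit 213019) (nat_lit 9) .nil)))))))) (.g (nat_lit 1) (.e (nat_lit 45296) (nat_lit 0) .nil) .nil))))) 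
(.nd (nat_lit 8) (.nd (nat_lit 9) 
(.lf (nat_lit 456954) (.g (nat_lit 3224) (.e (nat_lit 2679) (nat_lit 168) (.e (nat_lit 204852) (nat_lit 26) (.e (nat_lit 336142) (nat_lit 9) (.e (nat_lit 336027) (nat_lit 3) (.e (nat_lit 98350) (nat_lit 24) (.e (nat_lit 409623) (nat_lit 10) (.e (nat_lit 5664) (nat_lit 312) .nil))))))) (.g (nat_lit 1) (.e (nat_lit 43710) (nat_lit 0) .nil) .nil))) 
(.lf (nat_lit 457466) (.g (nat_lit 2475) (.e (nat_lit 2682) (nat_lit 168) (.e (nat_lit 204869) (nat_lit 29) (.e (nat_lit 360454) (nat_lit 0) (.e (nat_lit 3946) (nat_lit 239) .nil)))) (.g (nat_lit 0) (.e (nat_lit 44816) (nat_lit 0) .nil) .nil)))) (.nd (nat_lit 9) 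
(.lf (nat_lit 457210) (.g (nat_lit 560) (.e (nat_lit 2681) (nat_lit 168) (.e (nat_lit 204863) (nat_lit 27) (.e (nat_lit 344129) (nat_lit 26) .nil))) (.g (nat_lit 0) (.e (nat_lit 44183) (nat_lit 0) .nil) .nil))) 
(.lf (nat_lit 457722) (.g (nat_lit 1902) (.e (nat_lit 2684) (nat_lit 168) (.e (nat_lit 204861) (nat_lit 26) (.e (nat_lit 336213) (nat_lit 13) (.e (nat_lit 401152) (nat_lit 10) (.e (nat_lit 344160) (nat_lit 37) (.e (nat_lit 655104) (nat_lit 0) .nil)))))) (.g (nat_lit 1) (.e (nat_lit 45575) (nat_lit 0) .nil) .nil)))))))))) 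
(.nd (nat_lit 3) (.nd (nat_lit 4) (.nd (nat_lit 5) (.nd (nat_lit 6) (.nd (nat_lit 7) 
(.nd (nat_lit 8) (.nd (nat_lit 9) 
(.lf (nat_lit 456710) (.g (nat_lit 4112) (.e (nat_lit 2668) (nat_lit 167) (.e (nat_lit 196666) (nat_lit 13) (.e (nat_lit 65624) (nat_lit 12) (.e (nat_lit 385074) (nat_lit 31) (.e (nat_lit 573489) (nat_lit 14) (.e (nat_lit 81664) (nat_lit 32) .nil)))))) (.g (nat_lit 1) (.e (nat_lit 43178) (nat_lit 0) .nil) .nil))) 
(.lf (nat_lit 457222) (.g (nat_lit 2278) (.e (nat_lit 2681) (nat_lit 168) (.e (nat_lit 204863) (nat_lit 27) (.e (nat_lit 344130) (nat_lit 26) (.e (nat_lit 557103) (nat_lit 14) (.e (nat_lit 180243) (nat_lit 5) .nil))))) (.g (nat_lit 0) (.e (nat_lit 44195) (nat_lit 0) .nil) .nil)))) (.nd (nat_lit 9) 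
(.lf (nat_lit 456966) (.g (nat_lit 2233) (.e (nat_lit 2679) (nat_lit 168) (.e (nat_lit 204863) (nat_lit 27) (.e (nat_lit 344132) (nat_lit 26) (.e (nat_lit 557105) (nat_lit 14) (.e (nat_lit 180252) (nat_lit 10) (.e (nat_lit 573473) (nat_lit 12) (.e (nat_lit 57508) (nat_lit 39) (.e (nat_lit 655104) (nat_lit 0) .nil)))))))) (.g (nat_lit 1) (.e (nat_lit 43736) (nat_lit 0) .nil) .nil))) 
(.lf (nat_lit 457478) (.g (nat_lit 2704) (.e (nat_lit 2682) (nat_lit 168) (.e (nat_lit 204869) (nat_lit 29) (.e (nat_lit 360472) (nat_lit 8) (.e (nat_lit 557072) (nat_lit 9) .nil)))) (.g (nat_lit 0) (.e (nat_lit 44915) (nat_lit 0) .nil) .nil))))) (.nd (nat_lit 8) (.nd (nat_lit 9) 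
(.lf (nat_lit 456838) (.g (nat_lit 2260) (.e (nat_lit 2675) (nat_lit 168) (.e (nat_lit 204829) (nat_lit 18) (.e (nat_lit 57927) (nat_lit 282) (.e (nat_lit 163871) (nat_lit 2) (.e (nat_lit 196670) (nat_lit 14) .nil))))) (.g (nat_lit 0) (.e (nat_lit 43404) (nat_lit 0) .nil) .nil))) 
(.lf (nat_lit 457350) (.g (nat_lit 2831) (.e (nat_lit 2682) (nat_lit 168) (.e (nat_lit 204849) (nat_lit 25) (.e (nat_lit 327699) (nat_lit 8) (.e (nat_lit 303117) (nat_lit 2) (.e (nat_lit 196669) (nat_lit 14) (.e (nat_lit 73782) (nat_lit 32) .nil)))))) (.g (nat_lit 1) (.e (nat_lit 44553) (nat_lit 0) .nil) .nil)))) (.nd (nat_lit 9) 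
(.lf (nat_lit 457094) (.g (nat_lit 2349) (.e (nat_lit 2681) (nat_lit 168) (.e (nat_lit 204829) (nat_lit 18) (.e (nat_lit 57927) (nat_lit 282) (.e (nat_lit 163869) (nat_lit 2) (.e (nat_lit 196670) (nat_lit 14) (.e (nat_lit 73746) (nat_lit 3) (.e (nat_lit 516124) (nat_lit 2) (.e (nat_lit 213023) (nat_lit 9) .nil)))))))) (.g (nat_lit 1) (.e (nat_lit 43980) (nat_lit 0) .nil) .nil))) 
(.lf (nat_lit 457606) (.g (nat_lit 2454) (.e (nat_lit 2684) (nat_lit 168) (.e (nat_lit 204829) (nat_lit 18) (.e (nat_lit 57847) (nat_lit 252) (.e (nat_lit 57373) (nat_lit 2) .nil)))) (.g (nat_lit 0) (.e (nat_lit 45372) (nat_lit 0) .nil) .nil)))))) (.nd (nat_lit 7) (.nd (nat_lit 8) (.nd (nat_lit 9) 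
(.lf (nat_lit 456774) (.g (nat_lit 2695) (.e (nat_lit 2668) (nat_lit 167) (.e (nat_lit 196670) (nat_lit 14) (.e (nat_lit 73754) (nat_lit 8) (.e (nat_lit 557105) (nat_lit 14) (.e (nat_lit 180252) (nat_lit 10) (.e (nat_lit 573473) (nat_lit 12) (.e (nat_lit 57508) (nat_lit 39) (.e (nat_lit 647170) (nat_lit 0) .nil)))))))) (.g (nat_lit 1) (.e (nat_lit 43268) (nat_lit 0) .nil) .nil))) 
(.lf (nat_lit 457286) (.g (nat_lit 2370) (.e (nat_lit 2681) (nat_lit 168) (.e (nat_lit 204869) (nat_lit 29) (.e (nat_lit 360450) (nat_lit 0) (.e (nat_lit 3950) (nat_lit 239) (.e (nat_lit 1208) (nat_lit 89) .nil))))) (.g (nat_lit 0) (.e (nat_lit 44342) (nat_lit 0) .nil) .nil)))) (.nd (nat_lit 9) 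
(.lf (nat_lit 457030) (.g (nat_lit 3091) (.e (nat_lit 2679) (nat_lit 168) (.e (nat_lit 204869) (nat_lit 29) (.e (nat_lit 360475) (nat_lit 8) (.e (nat_lit 557087) (nat_lit 11) (.e (nat_lit 24581) (nat_lit 0) (.e (nat_lit 7936) (nat_lit 357) .nil)))))) (.g (nat_lit 1) (.e (nat_lit 43848) (nat_lit 0) .nil) .nil))) 
(.lf (nat_lit 457542) (.g (nat_lit 3233) (.e (nat_lit 2682) (nat_lit 168) (.e (nat_lit 204869) (nat_lit 29) (.e (nat_lit 360475) (nat_lit 8) (.e (nat_lit 557087) (nat_lit 11) (.e (nat_lit 24584) (nat_lit 0) (.e (nat_lit 6679) (nat_lit 357) .nil)))))) (.g (nat_lit 1) (.e (nat_lit 45133) (nat_lit 0) .nil) .nil))))) (.nd (nat_lit 8) (.nd (nat_lit 9) 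
(.lf (nat_lit 456902) (.g (nat_lit 1763) (.e (nat_lit 2679) (nat_lit 168) (.e (nat_lit 204829) (nat_lit 18) (.e (nat_lit 57927) (nat_lit 282) (.e (nat_lit 163871) (nat_lit 2) .nil)))) (.g (nat_lit 0) (.e (nat_lit 43568) (nat_lit 0) .nil) .nil))) 
(.lf (nat_lit 457414) (.g (nat_lit 670) (.e (nat_lit 2682) (nat_lit 168) (.e (nat_lit 204866) (nat_lit 28) (.e (nat_lit 352303) (nat_lit 20) .nil))) (.g (nat_lit 0) (.e (nat_lit 44686) (nat_lit 0) .nil) .nil)))) (.nd (nat_lit 9) 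
(.lf (nat_lit 457158) (.g (nat_lit 3272) (.e (nat_lit 2681) (nat_lit 168) (.e (nat_lit 204830) (nat_lit 18) (.e (nat_lit 57927) (nat_lit 282) (.e (nat_lit 163869) (nat_lit 2) (.e (nat_lit 196670) (nat_lit 14) (.e (nat_lit 73746) (nat_lit 3) (.e (nat_lit 516124) (nat_lit 2) (.e (nat_lit 213019) (nat_lit 9) .nil)))))))) (.g (nat_lit 1) (.e (nat_lit 44055) (nat_lit 0) .nil) .nil))) 
(.lf (nat_lit 457670) (.g (nat_lit 3304) (.e (nat_lit 2684) (nat_lit 168) (.e (nat_lit 204830) (nat_lit 18) (.e (nat_lit 57927) (nat_lit 282) (.e (nat_lit 163871) (nat_lit 2) (.e (nat_lit 196668) (nat_lit 14) (.e (nat_lit 73747) (nat_lit 3) (.e (nat_lit 516124) (nat_lit 2) (.e (nat_lit 213013) (nat_lit 9) .nil)))))))) (.g (nat_lit 1) (.e (nat_lit 45463) (nat_lit 0) .nil) .nil))))))) 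
(.nd (nat_lit 6) (.nd (nat_lit 7) (.nd (nat_lit 8) (.nd (nat_lit 9) 
(.lf (nat_lit 456742) (.g (nat_lit 3335) (.e (nat_lit 2668) (nat_lit 167) (.e (nat_lit 196666) (nat_lit 13) (.e (nat_lit 65630) (nat_lit 14) (.e (nat_lit 401425) (nat_lit 2) (.e (nat_lit 196628) (nat_lit 9) (.e (nat_lit 1600) (nat_lit 112) (.e (nat_lit 376576) (nat_lit 0) .nil))))))) (.g (nat_lit 1) (.e (nat_lit 43224) (nat_lit 0) .nil) .nil))) 
(.lf (nat_lit 457254) (.g (nat_lit 4111) (.e (nat_lit 2681) (nat_lit 168) (.e (nat_lit 204863) (nat_lit 27) (.e (nat_lit 344132) (nat_lit 26) (.e (nat_lit 557105) (nat_lit 14) (.e (nat_lit 180252) (nat_lit 10) (.e (nat_lit 573475) (nat_lit 12) (.e (nat_lit 57508) (nat_lit 39) (.e (nat_lit 647176) (nat_lit 0) .nil)))))))) (.g (nat_lit 1) (.e (nat_lit 44227) (nat_lit 0) .nil) .nil)))) 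
(.nd (nat_lit 9) 
(.lf (nat_lit 456998) (.g (nat_lit 2677) (.e (nat_lit 2679) (nat_lit 168) (.e (nat_lit 204868) (nat_lit 29) (.e (nat_lit 360466) (nat_lit 3) (.e (nat_lit 516142) (nat_lit 8) (.e (nat_lit 417814) (nat_lit 10) (.e (nat_lit 5667) (nat_lit 312) .nil)))))) (.g (nat_lit 1) (.e (nat_lit 43778) (nat_lit 0) .nil) .nil))) 
(.lf (nat_lit 457510) (.g (nat_lit 3570) (.e (nat_lit 2682) (nat_lit 168) (.e (nat_lit 204869) (nat_lit 29) (.e (nat_lit 360474) (nat_lit 8) (.e (nat_lit 557086) (nat_lit 11) .nil)))) (.g (nat_lit 0) (.e (nat_lit 44951) (nat_lit 0) .nil) .nil))))) (.nd (nat_lit 8) (.nd (nat_lit 9) 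
(.lf (nat_lit 456870) (.g (nat_lit 2469) (.e (nat_lit 2675) (nat_lit 168) (.e (nat_lit 204869) (nat_lit 29) (.e (nat_lit 360475) (nat_lit 8) (.e (nat_lit 557087) (nat_lit 11) (.e (nat_lit 24578) (nat_lit 0) .nil))))) (.g (nat_lit 0) (.e (nat_lit 43461) (nat_lit 0) .nil) .nil))) 
(.lf (nat_lit 457382) (.g (nat_lit 2292) (.e (nat_lit 2682) (nat_lit 168) (.e (nat_lit 204863) (nat_lit 27) (.e (nat_lit 344129) (nat_lit 26) (.e (nat_lit 557103) (nat_lit 14) (.e (nat_lit 180243) (nat_lit 5) .nil))))) (.g (nat_lit 0) (.e (nat_lit 44641) (nat_lit 0) .nil) .nil)))) (.nd (nat_lit 9) 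
(.lf (nat_lit 457126) (.g (nat_lit 3412) (.e (nat_lit 2681) (nat_lit 168) (.e (nat_lit 204830) (nat_lit 18) (.e (nat_lit 57926) (nat_lit 282) (.e (nat_lit 163868) (nat_lit 2) (.e (nat_lit 196668) (nat_lit 14) (.e (nat_lit 73746) (nat_lit 3) (.e (nat_lit 516124) (nat_lit 2) (.e (nat_lit 213013) (nat_lit 9) .nil)))))))) (.g (nat_lit 1) (.e (nat_lit 44019) (nat_lit 0) .nil) .nil))) 
(.lf (nat_lit 457638) (.g (nat_lit 2457) (.e (nat_lit 2684) (nat_lit 168) (.e (nat_lit 204830) (nat_lit 18) (.e (nat_lit 57924) (nat_lit 282) (.e (nat_lit 163871) (nat_lit 2) (.e (nat_lit 196670) (nat_lit 14) (.e (nat_lit 73746) (nat_lit 3) (.e (nat_lit 516124) (nat_lit 2) (.e (nat_lit 213013) (nat_lit 9) .nil)))))))) (.g (nat_lit 1) (.e (nat_lit 45420) (nat_lit 0) .nil) .nil)))))) 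
(.nd (nat_lit 7) (.nd (nat_lit 8) (.nd (nat_lit 9) 
(.lf (nat_lit 456806) (.g (nat_lit 875) (.e (nat_lit 2668) (nat_lit 167) (.e (nat_lit 196681) (nat_lit 17) (.e (nat_lit 131105) (nat_lit 9) .nil))) (.g (nat_lit 0) (.e (nat_lit 43309) (nat_lit 0) .nil) .nil))) 
(.lf (nat_lit 457318) (.g (nat_lit 5481) (.e (nat_lit 2682) (nat_lit 168) (.e (nat_lit 204819) (nat_lit 17) (.e (nat_lit 6113) (nat_lit 332) (.e (nat_lit 1374) (nat_lit 104) (.e (nat_lit 303119) (nat_lit 3) (.e (nat_lit 204846) (nat_lit 24) (.e (nat_lit 319504) (nat_lit 10) (.e (nat_lit 5714) (nat_lit 312) .nil)))))))) (.g (nat_lit 1) (.e (nat_lit 44498) (nat_lit 0) .nil) .nil)))) 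
(.nd (nat_lit 9) 
(.lf (nat_lit 457062) (.g (nat_lit 4160) (.e (nat_lit 2680) (nat_lit 168) (.e (nat_lit 204869) (nat_lit 29) (.e (nat_lit 360475) (nat_lit 8) (.e (nat_lit 557086) (nat_lit 11) .nil)))) (.g (nat_lit 0) (.e (nat_lit 43911) (nat_lit 0) .nil) .nil))) 
(.lf (nat_lit 457574) (.g (nat_lit 3083) (.e (nat_lit 2683) (nat_lit 168) (.e (nat_lit 204829) (nat_lit 18) (.e (nat_lit 57931) (nat_lit 282) (.e (nat_lit 163869) (nat_lit 2) (.e (nat_lit 196670) (nat_lit 14) (.e (nat_lit 73746) (nat_lit 3) (.e (nat_lit 516124) (nat_lit 2) (.e (nat_lit 213020) (nat_lit 9) .nil)))))))) (.g (nat_lit 1) (.e (nat_lit 45274) (nat_lit 0) .nil) .nil))))) 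
(.nd (nat_lit 8) (.nd (nat_lit 9) 
(.lf (nat_lit 456934) (.g (nat_lit 4393) (.e (nat_lit 2679) (nat_lit 168) (.e (nat_lit 204846) (nat_lit 24) (.e (nat_lit 319533) (nat_lit 16) (.e (nat_lit 286735) (nat_lit 3) (.e (nat_lit 98367) (nat_lit 27) (.e (nat_lit 442112) (nat_lit 8) .nil)))))) (.g (nat_lit 1) (.e (nat_lit 43675) (nat_lit 0) .nil) .nil))) 
(.lf (nat_lit 457446) (.g (nat_lit 3529) (.e (nat_lit 2682) (nat_lit 168) (.e (nat_lit 204869) (nat_lit 29) (.e (nat_lit 360450) (nat_lit 0) (.e (nat_lit 3959) (nat_lit 239) .nil)))) (.g (nat_lit 0) (.e (nat_lit 44772) (nat_lit 0) .nil) .nil)))) (.nd (nat_lit 9) 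
(.lf (nat_lit 457190) (.g (nat_lit 2947) (.e (nat_lit 2681) (nat_lit 168) (.e (nat_lit 204861) (nat_lit 26) (.e (nat_lit 336204) (nat_lit 12) (.e (nat_lit 385074) (nat_lit 31) (.e (nat_lit 573489) (nat_lit 14) (.e (nat_lit 73781) (nat_lit 32) .nil)))))) (.g (nat_lit 1) (.e (nat_lit 44159) (nat_lit 0) .nil) .nil))) 
(.lf (nat_lit 457702) (.g (nat_lit 1912) (.e (nat_lit 2684) (nat_lit 168) (.e (nat_lit 204846) (nat_lit 24) (.e (nat_lit 319533) (nat_lit 16) (.e (nat_lit 286734) (nat_lit 3) .nil)))) (.g (nat_lit 0) (.e (nat_lit 45528) (nat_lit 0) .nil) .nil)))))))) (.nd (nat_lit 5) (.nd (nat_lit 6) (.nd (nat_lit 7) (.nd (nat_lit 8) (.nd (nat_lit 9) 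
(.lf (nat_lit 456726) (.g (nat_lit 3857) (.e (nat_lit 2668) (nat_lit 167) (.e (nat_lit 196666) (nat_lit 13) (.e (nat_lit 65628) (nat_lit 14) (.e (nat_lit 401428) (nat_lit 3) (.e (nat_lit 204846) (nat_lit 24) (.e (nat_lit 319491) (nat_lit 0) (.e (nat_lit 5626) (nat_lit 312) .nil))))))) (.g (nat_lit 1) (.e (nat_lit 43205) (nat_lit 0) .nil) .nil))) 
(.lf (nat_lit 457238) (.g (nat_lit 2665) (.e (nat_lit 2681) (nat_lit 168) (.e (nat_lit 204863) (nat_lit 27) (.e (nat_lit 344132) (nat_lit 26) (.e (nat_lit 557101) (nat_lit 13) (.e (nat_lit 172066) (nat_lit 3) (.e (nat_lit 204829) (nat_lit 18) (.e (nat_lit 57704) (nat_lit 164) (.e (nat_lit 2515) (nat_lit 157) .nil)))))))) (.g (nat_lit 1) (.e (nat_lit 44211) (nat_lit 0) .nil) .nil)))) 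
(.nd (nat_lit 9) 
(.lf (nat_lit 456982) (.g (nat_lit 4389) (.e (nat_lit 2679) (nat_lit 168) (.e (nat_lit 204866) (nat_lit 28) (.e (nat_lit 352315) (nat_lit 23) (.e (nat_lit 98350) (nat_lit 24) (.e (nat_lit 409623) (nat_lit 10) (.e (nat_lit 5664) (nat_lit 312) .nil)))))) (.g (nat_lit 1) (.e (nat_lit 43759) (nat_lit 0) .nil) .nil))) 
(.lf (nat_lit 457494) (.g (nat_lit 3213) (.e (nat_lit 2682) (nat_lit 168) (.e (nat_lit 204869) (nat_lit 29) (.e (nat_lit 360474) (nat_lit 8) (.e (nat_lit 557064) (nat_lit 9) .nil)))) (.g (nat_lit 0) (.e (nat_lit 44931) (nat_lit 0) .nil) .nil))))) (.nd (nat_lit 8) (.nd (nat_lit 9) 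
(.lf (nat_lit 456854) (.g (nat_lit 2816) (.e (nat_lit 2675) (nat_lit 168) (.e (nat_lit 204863) (nat_lit 27) (.e (nat_lit 344133) (nat_lit 26) (.e (nat_lit 557105) (nat_lit 14) (.e (nat_lit 180252) (nat_lit 10) .nil))))) (.g (nat_lit 0) (.e (nat_lit 43433) (nat_lit 0) .nil) .nil))) 
(.lf (nat_lit 457366) (.g (nat_lit 2723) (.e (nat_lit 2682) (nat_lit 168) (.e (nat_lit 204859) (nat_lit 26) (.e (nat_lit 336206) (nat_lit 12) (.e (nat_lit 385074) (nat_lit 31) (.e (nat_lit 573489) (nat_lit 14) (.e (nat_lit 73782) (nat_lit 32) .nil)))))) (.g (nat_lit 1) (.e (nat_lit 44594) (nat_lit 0) .nil) .nil)))) (.nd (nat_lit 9) 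
(.lf (nat_lit 457110) (.g (nat_lit 3129) (.e (nat_lit 2681) (nat_lit 168) (.e (nat_lit 204829) (nat_lit 18) (.e (nat_lit 57927) (nat_lit 282) (.e (nat_lit 163875) (nat_lit 3) (.e (nat_lit 204862) (nat_lit 27) (.e (nat_lit 344117) (nat_lit 21) (.e (nat_lit 516123) (nat_lit 2) (.e (nat_lit 213013) (nat_lit 9) .nil)))))))) (.g (nat_lit 1) (.e (nat_lit 43996) (nat_lit 0) .nil) .nil))) 
(.lf (nat_lit 457622) (.g (nat_lit 4427) (.e (nat_lit 2684) (nat_lit 168) (.e (nat_lit 204829) (nat_lit 18) (.e (nat_lit 57927) (nat_lit 282) (.e (nat_lit 163869) (nat_lit 2) (.e (nat_lit 196670) (nat_lit 14) (.e (nat_lit 73746) (nat_lit 3) (.e (nat_lit 516124) (nat_lit 2) (.e (nat_lit 213013) (nat_lit 9) .nil)))))))) (.g (nat_lit 1) (.e (nat_lit 45394) (nat_lit 0) .nil) .nil)))))) 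
(.nd (nat_lit 7) (.nd (nat_lit 8) (.nd (nat_lit 9) 
(.lf (nat_lit 456790) (.g (nat_lit 1692) (.e (nat_lit 2668) (nat_lit 167) (.e (nat_lit 196672) (nat_lit 15) (.e (nat_lit 81924) (nat_lit 0) (.e (nat_lit 3305) (nat_lit 202) (.e (nat_lit 573487) (nat_lit 14) (.e (nat_lit 81664) (nat_lit 32) .nil)))))) (.g (nat_lit 1) (.e (nat_lit 43292) (nat_lit 0) .nil) .nil))) 
(.lf (nat_lit 457302) (.g (nat_lit 3413) (.e (nat_lit 2681) (nat_lit 168) (.e (nat_lit 204869) (nat_lit 29) (.e (nat_lit 360474) (nat_lit 8) (.e (nat_lit 557085) (nat_lit 11) .nil)))) (.g (nat_lit 0) (.e (nat_lit 44386) (nat_lit 0) .nil) .nil)))) (.nd (nat_lit 9) 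
(.lf (nat_lit 457046) (.g (nat_lit 2901) (.e (nat_lit 2680) (nat_lit 168) (.e (nat_lit 204829) (nat_lit 18) (.e (nat_lit 57927) (nat_lit 282) (.e (nat_lit 163868) (nat_lit 2) (.e (nat_lit 196670) (nat_lit 14) (.e (nat_lit 73746) (nat_lit 3) (.e (nat_lit 516124) (nat_lit 2) (.e (nat_lit 213008) (nat_lit 9) .nil)))))))) (.g (nat_lit 1) (.e (nat_lit 43884) (nat_lit 0) .nil) .nil))) 
(.lf (nat_lit 457558) (.g (nat_lit 2714) (.e (nat_lit 2683) (nat_lit 168) (.e (nat_lit 204829) (nat_lit 18) (.e (nat_lit 57927) (nat_lit 282) (.e (nat_lit 163868) (nat_lit 2) (.e (nat_lit 196670) (nat_lit 14) (.e (nat_lit 73746) (nat_lit 3) (.e (nat_lit 516127) (nat_lit 2) (.e (nat_lit 213022) (nat_lit 9) .nil)))))))) (.g (nat_lit 1) (.e (nat_lit 45250) (nat_lit 0) .nil) .nil))))) 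
(.nd (nat_lit 8) (.nd (nat_lit 9) 
(.lf (nat_lit 456918) (.g (nat_lit 2796) (.e (nat_lit 2679) (nat_lit 168) (.e (nat_lit 204846) (nat_lit 24) (.e (nat_lit 319530) (nat_lit 16) (.e (nat_lit 286735) (nat_lit 3) (.e (nat_lit 98368) (nat_lit 27) (.e (nat_lit 442112) (nat_lit 8) .nil)))))) (.g (nat_lit 1) (.e (nat_lit 43653) (nat_lit 0) .nil) .nil))) 
(.lf (nat_lit 457430) (.g (nat_lit 2120) (.e (nat_lit 2682) (nat_lit 168) (.e (nat_lit 204869) (nat_lit 29) (.e (nat_lit 360448) (nat_lit 0) (.e (nat_lit 3913) (nat_lit 239) .nil)))) (.g (nat_lit 0) (.e (nat_lit 44751) (nat_lit 0) .nil) .nil)))) (.nd (nat_lit 9) 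
(.lf (nat_lit 457174) (.g (nat_lit 3625) (.e (nat_lit 2681) (nat_lit 168) (.e (nat_lit 204831) (nat_lit 18) (.e (nat_lit 57931) (nat_lit 282) (.e (nat_lit 163869) (nat_lit 2) (.e (nat_lit 196670) (nat_lit 14) (.e (nat_lit 73746) (nat_lit 3) (.e (nat_lit 516124) (nat_lit 2) (.e (nat_lit 213020) (nat_lit 9) .nil)))))))) (.g (nat_lit 1) (.e (nat_lit 44081) (nat_lit 0) .nil) .nil))) 
(.lf (nat_lit 457686) (.g (nat_lit 2926) (.e (nat_lit 2684) (nat_lit 168) (.e (nat_lit 204831) (nat_lit 18) (.e (nat_lit 57929) (nat_lit 282) (.e (nat_lit 163869) (nat_lit 2) (.e (nat_lit 196670) (nat_lit 14) (.e (nat_lit 73746) (nat_lit 3) (.e (nat_lit 516124) (nat_lit 2) (.e (nat_lit 213013) (nat_lit 9) .nil)))))))) (.g (nat_lit 1) (.e (nat_lit 45485) (nat_lit 0) .nil) .nil))))))) 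
(.nd (nat_lit 6) (.nd (nat_lit 7) (.nd (nat_lit 8) (.nd (nat_lit 9) 
(.lf (nat_lit 456758) (.g (nat_lit 1253) (.e (nat_lit 2668) (nat_lit 167) (.e (nat_lit 196667) (nat_lit 14) (.e (nat_lit 81664) (nat_lit 35) (.e (nat_lit 163950) (nat_lit 21) (.e (nat_lit 500072) (nat_lit 19) (.e (nat_lit 81664) (nat_lit 32) .nil)))))) (.g (nat_lit 1) (.e (nat_lit 43247) (nat_lit 0) .nil) .nil))) 
(.lf (nat_lit 457270) (.g (nat_lit 3101) (.e (nat_lit 2681) (nat_lit 168) (.e (nat_lit 204863) (nat_lit 27) (.e (nat_lit 344133) (nat_lit 26) (.e (nat_lit 557103) (nat_lit 14) (.e (nat_lit 180250) (nat_lit 10) (.e (nat_lit 573474) (nat_lit 12) (.e (nat_lit 57508) (nat_lit 39) (.e (nat_lit 647176) (nat_lit 0) .nil)))))))) (.g (nat_lit 1) (.e (nat_lit 44243) (nat_lit 0) .nil) .nil)))) 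
(.nd (nat_lit 9) 
(.lf (nat_lit 457014) (.g (nat_lit 2641) (.e (nat_lit 2679) (nat_lit 168) (.e (nat_lit 204869) (nat_lit 29) (.e (nat_lit 360466) (nat_lit 3) (.e (nat_lit 516139) (nat_lit 7) (.e (nat_lit 409623) (nat_lit 10) (.e (nat_lit 5664) (nat_lit 312) .nil)))))) (.g (nat_lit 1) (.e (nat_lit 43825) (nat_lit 0) .nil) .nil))) 
(.lf (nat_lit 457526) (.g (nat_lit 3574) (.e (nat_lit 2682) (nat_lit 168) (.e (nat_lit 204869) (nat_lit 29) (.e (nat_lit 360475) (nat_lit 8) (.e (nat_lit 557074) (nat_lit 9) .nil)))) (.g (nat_lit 0) (.e (nat_lit 45115) (nat_lit 0) .nil) .nil))))) (.nd (nat_lit 8) (.nd (nat_lit 9) 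
(.lf (nat_lit 456886) (.g (nat_lit 4322) (.e (nat_lit 2677) (nat_lit 168) (.e (nat_lit 204869) (nat_lit 29) (.e (nat_lit 360475) (nat_lit 8) (.e (nat_lit 557086) (nat_lit 11) .nil)))) (.g (nat_lit 0) (.e (nat_lit 43498) (nat_lit 0) .nil) .nil))) 
(.lf (nat_lit 457398) (.g (nat_lit 2520) (.e (nat_lit 2682) (nat_lit 168) (.e (nat_lit 204863) (nat_lit 27) (.e (nat_lit 344132) (nat_lit 26) (.e (nat_lit 557105) (nat_lit 14) (.e (nat_lit 180252) (nat_lit 10) (.e (nat_lit 573475) (nat_lit 12) (.e (nat_lit 57506) (nat_lit 39) (.e (nat_lit 647177) (nat_lit 0) .nil)))))))) (.g (nat_lit 1) (.e (nat_lit 44657) (nat_lit 0) .nil) .nil)))) 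
(.nd (nat_lit 9) 
(.lf (nat_lit 457142) (.g (nat_lit 2646) (.e (nat_lit 2681) (nat_lit 168) (.e (nat_lit 204830) (nat_lit 18) (.e (nat_lit 57926) (nat_lit 282) (.e (nat_lit 163869) (nat_lit 2) (.e (nat_lit 196670) (nat_lit 14) (.e (nat_lit 73746) (nat_lit 3) (.e (nat_lit 516126) (nat_lit 2) (.e (nat_lit 213010) (nat_lit 9) .nil)))))))) (.g (nat_lit 1) (.e (nat_lit 44037) (nat_lit 0) .nil) .nil))) 
(.lf (nat_lit 457654) (.g (nat_lit 1584) (.e (nat_lit 2684) (nat_lit 168) (.e (nat_lit 204830) (nat_lit 18) (.e (nat_lit 57926) (nat_lit 282) (.e (nat_lit 163875) (nat_lit 3) .nil)))) (.g (nat_lit 0) (.e (nat_lit 45442) (nat_lit 0) .nil) .nil)))))) (.nd (nat_lit 7) (.nd (nat_lit 8) (.nd (nat_lit 9) 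
(.lf (nat_lit 456822) (.g (nat_lit 2452) (.e (nat_lit 2672) (nat_lit 168) (.e (nat_lit 204829) (nat_lit 18) (.e (nat_lit 57927) (nat_lit 282) (.e (nat_lit 163875) (nat_lit 3) (.e (nat_lit 204862) (nat_lit 27) .nil))))) (.g (nat_lit 0) (.e (nat_lit 43335) (nat_lit 0) .nil) .nil))) 
(.lf (nat_lit 457334) (.g (nat_lit 2032) (.e (nat_lit 2682) (nat_lit 168) (.e (nat_lit 204846) (nat_lit 24) (.e (nat_lit 319490) (nat_lit 0) (.e (nat_lit 5664) (nat_lit 312) (.e (nat_lit 2661) (nat_lit 167) .nil))))) (.g (nat_lit 0) (.e (nat_lit 44527) (nat_lit 0) .nil) .nil)))) (.nd (nat_lit 9) 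
(.lf (nat_lit 457078) (.g (nat_lit 2302) (.e (nat_lit 2681) (nat_lit 168) (.e (nat_lit 204829) (nat_lit 18) (.e (nat_lit 57927) (nat_lit 282) (.e (nat_lit 163868) (nat_lit 2) (.e (nat_lit 196663) (nat_lit 13) (.e (nat_lit 65571) (nat_lit 3) (.e (nat_lit 98338) (nat_lit 19) (.e (nat_lit 213013) (nat_lit 9) .nil)))))))) (.g (nat_lit 1) (.e (nat_lit 43960) (nat_lit 0) .nil) .nil))) 
(.lf (nat_lit 457590) (.g (nat_lit 1983) (.e (nat_lit 2683) (nat_lit 168) (.e (nat_lit 204830) (nat_lit 18) (.e (nat_lit 57926) (nat_lit 282) (.e (nat_lit 163874) (nat_lit 3) .nil)))) (.g (nat_lit 0) (.e (nat_lit 45292) (nat_lit 0) .nil) .nil))))) (.nd (nat_lit 8) (.nd (nat_lit 9) 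
(.lf (nat_lit 456950) (.g (nat_lit 1924) (.e (nat_lit 2679) (nat_lit 168) (.e (nat_lit 204846) (nat_lit 24) (.e (nat_lit 319535) (nat_lit 17) (.e (nat_lit 294931) (nat_lit 3) (.e (nat_lit 98368) (nat_lit 27) .nil))))) (.g (nat_lit 0) (.e (nat_lit 43696) (nat_lit 0) .nil) .nil))) 
(.lf (nat_lit 457462) (.g (nat_lit 915) (.e (nat_lit 2682) (nat_lit 168) (.e (nat_lit 204869) (nat_lit 29) (.e (nat_lit 360452) (nat_lit 0) .nil))) (.g (nat_lit 0) (.e (nat_lit 44812) (nat_lit 0) .nil) .nil)))) (.nd (nat_lit 9) 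
(.lf (nat_lit 457206) (.g (nat_lit 968) (.e (nat_lit 2681) (nat_lit 168) (.e (nat_lit 204863) (nat_lit 27) (.e (nat_lit 344080) (nat_lit 13) .nil))) (.g (nat_lit 0) (.e (nat_lit 44179) (nat_lit 0) .nil) .nil))) 
(.lf (nat_lit 457718) (.g (nat_lit 4166) (.e (nat_lit 2684) (nat_lit 168) (.e (nat_lit 204852) (nat_lit 26) (.e (nat_lit 336326) (nat_lit 18) (.e (nat_lit 204831) (nat_lit 18) (.e (nat_lit 57854) (nat_lit 252) (.e (nat_lit 57378) (nat_lit 3) (.e (nat_lit 98338) (nat_lit 19) (.e (nat_lit 213013) (nat_lit 9) .nil)))))))) (.g (nat_lit 1) (.e (nat_lit 45547) (nat_lit 0) .nil) .nil))))))))) 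
(.nd (nat_lit 4) (.nd (nat_lit 5) (.nd (nat_lit 6) (.nd (nat_lit 7) (.nd (nat_lit 8) 
(.nd (nat_lit 9) 
(.lf (nat_lit 456718) (.g (nat_lit 2812) (.e (nat_lit 2668) (nat_lit 167) (.e (nat_lit 196666) (nat_lit 13) (.e (nat_lit 65628) (nat_lit 14) (.e (nat_lit 401425) (nat_lit 2) (.e (nat_lit 196668) (nat_lit 14) (.e (nat_lit 81664) (nat_lit 32) .nil)))))) (.g (nat_lit 1) (.e (nat_lit 43196) (nat_lit 0) .nil) .nil))) 
(.lf (nat_lit 457230) (.g (nat_lit 2240) (.e (nat_lit 2681) (nat_lit 168) (.e (nat_lit 204863) (nat_lit 27) (.e (nat_lit 344131) (nat_lit 26) (.e (nat_lit 557103) (nat_lit 14) (.e (nat_lit 180244) (nat_lit 5) .nil))))) (.g (nat_lit 0) (.e (nat_lit 44203) (nat_lit 0) .nil) .nil)))) (.nd (nat_lit 9) 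
(.lf (nat_lit 456974) (.g (nat_lit 1877) (.e (nat_lit 2679) (nat_lit 168) (.e (nat_lit 204864) (nat_lit 27) (.e (nat_lit 344130) (nat_lit 26) (.e (nat_lit 557104) (nat_lit 14) (.e (nat_lit 188160) (nat_lit 3) (.e (nat_lit 516135) (nat_lit 5) (.e (nat_lit 253955) (nat_lit 0) .nil))))))) (.g (nat_lit 1) (.e (nat_lit 43744) (nat_lit 0) .nil) .nil))) 
(.lf (nat_lit 457486) (.g (nat_lit 2171) (.e (nat_lit 2682) (nat_lit 168) (.e (nat_lit 204869) (nat_lit 29) (.e (nat_lit 360473) (nat_lit 8) (.e (nat_lit 557068) (nat_lit 9) .nil)))) (.g (nat_lit 0) (.e (nat_lit 44923) (nat_lit 0) .nil) .nil))))) (.nd (nat_lit 8) (.nd (nat_lit 9) 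
(.lf (nat_lit 456846) (.g (nat_lit 1801) (.e (nat_lit 2675) (nat_lit 168) (.e (nat_lit 204846) (nat_lit 24) (.e (nat_lit 319538) (nat_lit 19) (.e (nat_lit 311315) (nat_lit 3) .nil)))) (.g (nat_lit 0) (.e (nat_lit 43423) (nat_lit 0) .nil) .nil))) 
(.lf (nat_lit 457358) (.g (nat_lit 1365) (.e (nat_lit 2682) (nat_lit 168) (.e (nat_lit 204855) (nat_lit 26) (.e (nat_lit 336061) (nat_lit 7) (.e (nat_lit 319518) (nat_lit 12) .nil)))) (.g (nat_lit 0) (.e (nat_lit 44582) (nat_lit 0) .nil) .nil)))) (.nd (nat_lit 9) 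
(.lf (nat_lit 457102) (.g (nat_lit 2033) (.e (nat_lit 2681) (nat_lit 168) (.e (nat_lit 204829) (nat_lit 18) (.e (nat_lit 57927) (nat_lit 282) (.e (nat_lit 163871) (nat_lit 2) (.e (nat_lit 196670) (nat_lit 14) (.e (nat_lit 73746) (nat_lit 3) (.e (nat_lit 516124) (nat_lit 2) (.e (nat_lit 213022) (nat_lit 9) .nil)))))))) (.g (nat_lit 1) (.e (nat_lit 43988) (nat_lit 0) .nil) .nil))) 
(.lf (nat_lit 457614) (.g (nat_lit 2799) (.e (nat_lit 2684) (nat_lit 168) (.e (nat_lit 204829) (nat_lit 18) (.e (nat_lit 57926) (nat_lit 282) (.e (nat_lit 163871) (nat_lit 2) (.e (nat_lit 196670) (nat_lit 14) (.e (nat_lit 73746) (nat_lit 3) (.e (nat_lit 516124) (nat_lit 2) (.e (nat_lit 213013) (nat_lit 9) .nil)))))))) (.g (nat_lit 1) (.e (nat_lit 45382) (nat_lit 0) .nil) .nil)))))) 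
(.nd (nat_lit 7) (.nd (nat_lit 8) (.nd (nat_lit 9) 
(.lf (nat_lit 456782) (.g (nat_lit 1832) (.e (nat_lit 2668) (nat_lit 167) (.e (nat_lit 196670) (nat_lit 14) (.e (nat_lit 81664) (nat_lit 35) (.e (nat_lit 163950) (nat_lit 21) (.e (nat_lit 500070) (nat_lit 19) (.e (nat_lit 81664) (nat_lit 32) .nil)))))) (.g (nat_lit 1) (.e (nat_lit 43283) (nat_lit 0) .nil) .nil))) 
(.lf (nat_lit 457294) (.g (nat_lit 3650) (.e (nat_lit 2681) (nat_lit 168) (.e (nat_lit 204869) (nat_lit 29) (.e (nat_lit 360474) (nat_lit 8) (.e (nat_lit 557064) (nat_lit 9) (.e (nat_lit 297) (nat_lit 22) .nil))))) (.g (nat_lit 0) (.e (nat_lit 44378) (nat_lit 0) .nil) .nil)))) (.nd (nat_lit 9) 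
(.lf (nat_lit 457038) (.g (nat_lit 2305) (.e (nat_lit 2679) (nat_lit 168) (.e (nat_lit 204878) (nat_lit 31) (.e (nat_lit 376862) (nat_lit 22) (.e (nat_lit 90181) (nat_lit 16) (.e (nat_lit 229577) (nat_lit 179) (.e (nat_lit 164362) (nat_lit 246) .nil)))))) (.g (nat_lit 1) (.e (nat_lit 43865) (nat_lit 0) .nil) .nil))) 
(.lf (nat_lit 457550) (.g (nat_lit 4984) (.e (nat_lit 2682) (nat_lit 168) (.e (nat_lit 204885) (nat_lit 33) (.e (nat_lit 401434) (nat_lit 9) (.e (nat_lit 426140) (nat_lit 3) (.e (nat_lit 204846) (nat_lit 24) (.e (nat_lit 319505) (nat_lit 10) (.e (nat_lit 5714) (nat_lit 312) .nil))))))) (.g (nat_lit 1) (.e (nat_lit 45239) (nat_lit 0) .nil) .nil))))) (.nd (nat_lit 8) (.nd (nat_lit 9) 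
(.lf (nat_lit 456910) (.g (nat_lit 2359) (.e (nat_lit 2679) (nat_lit 168) (.e (nat_lit 204846) (nat_lit 24) (.e (nat_lit 319491) (nat_lit 0) (.e (nat_lit 5270) (nat_lit 298) (.e (nat_lit 1256) (nat_lit 92) (.e (nat_lit 98350) (nat_lit 24) (.e (nat_lit 409623) (nat_lit 10) (.e (nat_lit 5664) (nat_lit 312) .nil)))))))) (.g (nat_lit 1) (.e (nat_lit 43632) (nat_lit 0) .nil) .nil))) 
(.lf (nat_lit 457422) (.g (nat_lit 3203) (.e (nat_lit 2682) (nat_lit 168) (.e (nat_lit 204868) (nat_lit 29) (.e (nat_lit 360466) (nat_lit 3) (.e (nat_lit 516139) (nat_lit 7) (.e (nat_lit 409618) (nat_lit 10) .nil))))) (.g (nat_lit 0) (.e (nat_lit 44718) (nat_lit 0) .nil) .nil)))) (.nd (nat_lit 9) 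
(.lf (nat_lit 457166) (.g (nat_lit 4027) (.e (nat_lit 2681) (nat_lit 168) (.e (nat_lit 204831) (nat_lit 18) (.e (nat_lit 57931) (nat_lit 282) (.e (nat_lit 163867) (nat_lit 2) (.e (nat_lit 196670) (nat_lit 14) (.e (nat_lit 73746) (nat_lit 3) (.e (nat_lit 516124) (nat_lit 2) (.e (nat_lit 213013) (nat_lit 9) .nil)))))))) (.g (nat_lit 1) (.e (nat_lit 44070) (nat_lit 0) .nil) .nil))) 
(.lf (nat_lit 457678) (.g (nat_lit 2346) (.e (nat_lit 2684) (nat_lit 168) (.e (nat_lit 204830) (nat_lit 18) (.e (nat_lit 57929) (nat_lit 282) (.e (nat_lit 163867) (nat_lit 2) (.e (nat_lit 196670) (nat_lit 14) (.e (nat_lit 73746) (nat_lit 3) (.e (nat_lit 516124) (nat_lit 2) (.e (nat_lit 213013) (nat_lit 9) .nil)))))))) (.g (nat_lit 1) (.e (nat_lit 45471) (nat_lit 0) .nil) .nil))))))) 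
(.nd (nat_lit 6) (.nd (nat_lit 7) (.nd (nat_lit 8) (.nd (nat_lit 9) 
(.lf (nat_lit 456750) (.g (nat_lit 4751) (.e (nat_lit 2668) (nat_lit 167) (.e (nat_lit 196666) (nat_lit 13) (.e (nat_lit 65630) (nat_lit 14) (.e (nat_lit 401428) (nat_lit 3) (.e (nat_lit 204846) (nat_lit 24) (.e (nat_lit 319490) (nat_lit 0) (.e (nat_lit 5626) (nat_lit 312) .nil))))))) (.g (nat_lit 1) (.e (nat_lit 43238) (nat_lit 0) .nil) .nil))) 
(.lf (nat_lit 457262) (.g (nat_lit 2729) (.e (nat_lit 2681) (nat_lit 168) (.e (nat_lit 204863) (nat_lit 27) (.e (nat_lit 344133) (nat_lit 26) (.e (nat_lit 557103) (nat_lit 14) (.e (nat_lit 180243) (nat_lit 5) .nil))))) (.g (nat_lit 0) (.e (nat_lit 44235) (nat_lit 0) .nil) .nil)))) (.nd (nat_lit 9) 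
(.lf (nat_lit 457006) (.g (nat_lit 1810) (.e (nat_lit 2679) (nat_lit 168) (.e (nat_lit 204868) (nat_lit 29) (.e (nat_lit 360467) (nat_lit 3) (.e (nat_lit 516139) (nat_lit 7) (.e (nat_lit 409616) (nat_lit 10) .nil))))) (.g (nat_lit 0) (.e (nat_lit 43798) (nat_lit 0) .nil) .nil))) 
(.lf (nat_lit 457518) (.g (nat_lit 2849) (.e (nat_lit 2682) (nat_lit 168) (.e (nat_lit 204869) (nat_lit 29) (.e (nat_lit 360475) (nat_lit 8) (.e (nat_lit 557065) (nat_lit 9) .nil)))) (.g (nat_lit 0) (.e (nat_lit 45103) (nat_lit 0) .nil) .nil))))) (.nd (nat_lit 8) (.nd (nat_lit 9) 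
(.lf (nat_lit 456878) (.g (nat_lit 1357) (.e (nat_lit 2676) (nat_lit 168) (.e (nat_lit 204861) (nat_lit 26) (.e (nat_lit 336204) (nat_lit 12) (.e (nat_lit 385074) (nat_lit 31) .nil)))) (.g (nat_lit 0) (.e (nat_lit 43479) (nat_lit 0) .nil) .nil))) 
(.lf (nat_lit 457390) (.g (nat_lit 1102) (.e (nat_lit 2682) (nat_lit 168) (.e (nat_lit 204863) (nat_lit 27) (.e (nat_lit 344131) (nat_lit 26) .nil))) (.g (nat_lit 0) (.e (nat_lit 44649) (nat_lit 0) .nil) .nil)))) (.nd (nat_lit 9) 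
(.lf (nat_lit 457134) (.g (nat_lit 2455) (.e (nat_lit 2681) (nat_lit 168) (.e (nat_lit 204830) (nat_lit 18) (.e (nat_lit 57926) (nat_lit 282) (.e (nat_lit 163869) (nat_lit 2) (.e (nat_lit 196670) (nat_lit 14) (.e (nat_lit 73746) (nat_lit 3) (.e (nat_lit 516122) (nat_lit 2) (.e (nat_lit 213022) (nat_lit 9) .nil)))))))) (.g (nat_lit 1) (.e (nat_lit 44029) (nat_lit 0) .nil) .nil))) 
(.lf (nat_lit 457646) (.g (nat_lit 2731) (.e (nat_lit 2684) (nat_lit 168) (.e (nat_lit 204830) (nat_lit 18) (.e (nat_lit 57926) (nat_lit 282) (.e (nat_lit 163868) (nat_lit 2) (.e (nat_lit 196670) (nat_lit 14) (.e (nat_lit 73746) (nat_lit 3) (.e (nat_lit 516124) (nat_lit 2) (.e (nat_lit 213019) (nat_lit 9) .nil)))))))) (.g (nat_lit 1) (.e (nat_lit 45430) (nat_lit 0) .nil) .nil)))))) 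
(.nd (nat_lit 7) (.nd (nat_lit 8) (.nd (nat_lit 9) 
(.lf (nat_lit 456814) (.g (nat_lit 3828) (.e (nat_lit 2670) (nat_lit 167) (.e (nat_lit 196666) (nat_lit 13) (.e (nat_lit 65610) (nat_lit 10) (.e (nat_lit 344117) (nat_lit 21) (.e (nat_lit 516142) (nat_lit 8) .nil))))) (.g (nat_lit 0) (.e (nat_lit 43323) (nat_lit 0) .nil) .nil))) 
(.lf (nat_lit 457326) (.g (nat_lit 2899) (.e (nat_lit 2682) (nat_lit 168) (.e (nat_lit 204829) (nat_lit 18) (.e (nat_lit 57927) (nat_lit 282) (.e (nat_lit 163874) (nat_lit 3) (.e (nat_lit 204862) (nat_lit 27) .nil))))) (.g (nat_lit 0) (.e (nat_lit 44509) (nat_lit 0) .nil) .nil)))) (.nd (nat_lit 9) 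
(.lf (nat_lit 457070) (.g (nat_lit 2897) (.e (nat_lit 2681) (nat_lit 168) (.e (nat_lit 204829) (nat_lit 18) (.e (nat_lit 57926) (nat_lit 282) (.e (nat_lit 163868) (nat_lit 2) (.e (nat_lit 196670) (nat_lit 14) (.e (nat_lit 73746) (nat_lit 3) (.e (nat_lit 516124) (nat_lit 2) (.e (nat_lit 213019) (nat_lit 9) .nil)))))))) (.g (nat_lit 1) (.e (nat_lit 43948) (nat_lit 0) .nil) .nil))) 
(.lf (nat_lit 457582) (.g (nat_lit 2528) (.e (nat_lit 2683) (nat_lit 168) (.e (nat_lit 204830) (nat_lit 18) (.e (nat_lit 57926) (nat_lit 282) (.e (nat_lit 163869) (nat_lit 2) (.e (nat_lit 196670) (nat_lit 14) (.e (nat_lit 73746) (nat_lit 3) (.e (nat_lit 516126) (nat_lit 2) (.e (nat_lit 213017) (nat_lit 9) .nil)))))))) (.g (nat_lit 1) (.e (nat_lit 45284) (nat_lit 0) .nil) .nil))))) 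
(.nd (nat_lit 8) (.nd (nat_lit 9) 
(.lf (nat_lit 456942) (.g (nat_lit 2601) (.e (nat_lit 2679) (nat_lit 168) (.e (nat_lit 204846) (nat_lit 24) (.e (nat_lit 319534) (nat_lit 16) (.e (nat_lit 286734) (nat_lit 3) (.e (nat_lit 98368) (nat_lit 27) (.e (nat_lit 442112) (nat_lit 8) .nil)))))) (.g (nat_lit 1) (.e (nat_lit 43685) (nat_lit 0) .nil) .nil))) 
(.lf (nat_lit 457454) (.g (nat_lit 3464) (.e (nat_lit 2682) (nat_lit 168) (.e (nat_lit 204869) (nat_lit 29) (.e (nat_lit 360451) (nat_lit 0) (.e (nat_lit 3935) (nat_lit 239) .nil)))) (.g (nat_lit 0) (.e (nat_lit 44791) (nat_lit 0) .nil) .nil)))) (.nd (nat_lit 9) 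
(.lf (nat_lit 457198) (.g (nat_lit 3088) (.e (nat_lit 2681) (nat_lit 168) (.e (nat_lit 204862) (nat_lit 27) (.e (nat_lit 344129) (nat_lit 26) (.e (nat_lit 557103) (nat_lit 14) (.e (nat_lit 180244) (nat_lit 5) (.e (nat_lit 532503) (nat_lit 1) (.e (nat_lit 57704) (nat_lit 164) (.e (nat_lit 2515) (nat_lit 157) .nil)))))))) (.g (nat_lit 1) (.e (nat_lit 44170) (nat_lit 0) .nil) .nil))) 
(.lf (nat_lit 457710) (.g (nat_lit 649) (.e (nat_lit 2684) (nat_lit 168) (.e (nat_lit 204852) (nat_lit 26) (.e (nat_lit 336324) (nat_lit 18) .nil))) (.g (nat_lit 0) (.e (nat_lit 45539) (nat_lit 0) .nil) .nil)))))))) (.nd (nat_lit 5) (.nd (nat_lit 6) (.nd (nat_lit 7) (.nd (nat_lit 8) (.nd (nat_lit 9) 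
(.lf (nat_lit 456734) (.g (nat_lit 1537) (.e (nat_lit 2668) (nat_lit 167) (.e (nat_lit 196666) (nat_lit 13) (.e (nat_lit 65630) (nat_lit 14) (.e (nat_lit 401411) (nat_lit 0) .nil)))) (.g (nat_lit 0) (.e (nat_lit 43213) (nat_lit 0) .nil) .nil))) 
(.lf (nat_lit 457246) (.g (nat_lit 2290) (.e (nat_lit 2681) (nat_lit 168) (.e (nat_lit 204863) (nat_lit 27) (.e (nat_lit 344132) (nat_lit 26) (.e (nat_lit 557105) (nat_lit 14) (.e (nat_lit 180252) (nat_lit 10) (.e (nat_lit 573473) (nat_lit 12) (.e (nat_lit 57507) (nat_lit 39) (.e (nat_lit 655104) (nat_lit 0) .nil)))))))) (.g (nat_lit 1) (.e (nat_lit 44219) (nat_lit 0) .nil) .nil)))) 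
(.nd (nat_lit 9) 
(.lf (nat_lit 456990) (.g (nat_lit 1719) (.e (nat_lit 2679) (nat_lit 168) (.e (nat_lit 204868) (nat_lit 29) (.e (nat_lit 360466) (nat_lit 3) (.e (nat_lit 516138) (nat_lit 7) (.e (nat_lit 409612) (nat_lit 10) (.e (nat_lit 5652) (nat_lit 312) .nil)))))) (.g (nat_lit 1) (.e (nat_lit 43770) (nat_lit 0) .nil) .nil))) 
(.lf (nat_lit 457502) (.g (nat_lit 2010) (.e (nat_lit 2682) (nat_lit 168) (.e (nat_lit 204869) (nat_lit 29) (.e (nat_lit 360474) (nat_lit 8) (.e (nat_lit 557073) (nat_lit 9) .nil)))) (.g (nat_lit 0) (.e (nat_lit 44941) (nat_lit 0) .nil) .nil))))) (.nd (nat_lit 8) (.nd (nat_lit 9) 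
(.lf (nat_lit 456862) (.g (nat_lit 2541) (.e (nat_lit 2675) (nat_lit 168) (.e (nat_lit 204869) (nat_lit 29) (.e (nat_lit 360474) (nat_lit 8) (.e (nat_lit 557073) (nat_lit 9) .nil)))) (.g (nat_lit 0) (.e (nat_lit 43453) (nat_lit 0) .nil) .nil))) 
(.lf (nat_lit 457374) (.g (nat_lit 1283) (.e (nat_lit 2682) (nat_lit 168) (.e (nat_lit 204861) (nat_lit 26) (.e (nat_lit 336229) (nat_lit 14) (.e (nat_lit 401425) (nat_lit 2) .nil)))) (.g (nat_lit 0) (.e (nat_lit 44630) (nat_lit 0) .nil) .nil)))) (.nd (nat_lit 9) 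
(.lf (nat_lit 457118) (.g (nat_lit 5004) (.e (nat_lit 2681) (nat_lit 168) (.e (nat_lit 204829) (nat_lit 18) (.e (nat_lit 57931) (nat_lit 282) (.e (nat_lit 163869) (nat_lit 2) (.e (nat_lit 196670) (nat_lit 14) (.e (nat_lit 73746) (nat_lit 3) (.e (nat_lit 516124) (nat_lit 2) (.e (nat_lit 213019) (nat_lit 9) .nil)))))))) (.g (nat_lit 1) (.e (nat_lit 44010) (nat_lit 0) .nil) .nil))) 
(.lf (nat_lit 457630) (.g (nat_lit 2387) (.e (nat_lit 2684) (nat_lit 168) (.e (nat_lit 204829) (nat_lit 18) (.e (nat_lit 57930) (nat_lit 282) (.e (nat_lit 163869) (nat_lit 2) (.e (nat_lit 196670) (nat_lit 14) .nil))))) (.g (nat_lit 0) (.e (nat_lit 45404) (nat_lit 0) .nil) .nil)))))) (.nd (nat_lit 7) (.nd (nat_lit 8) (.nd (nat_lit 9) 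
(.lf (nat_lit 456798) (.g (nat_lit 2916) (.e (nat_lit 2668) (nat_lit 167) (.e (nat_lit 196674) (nat_lit 15) (.e (nat_lit 81922) (nat_lit 0) (.e (nat_lit 3305) (nat_lit 202) (.e (nat_lit 573487) (nat_lit 14) (.e (nat_lit 81664) (nat_lit 32) .nil)))))) (.g (nat_lit 1) (.e (nat_lit 43300) (nat_lit 0) .nil) .nil))) 
(.lf (nat_lit 457310) (.g (nat_lit 3905) (.e (nat_lit 2681) (nat_lit 168) (.e (nat_lit 204869) (nat_lit 29) (.e (nat_lit 360475) (nat_lit 8) (.e (nat_lit 564992) (nat_lit 9) .nil)))) (.g (nat_lit 0) (.e (nat_lit 44400) (nat_lit 0) .nil) .nil)))) (.nd (nat_lit 9) 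
(.lf (nat_lit 457054) (.g (nat_lit 3078) (.e (nat_lit 2680) (nat_lit 168) (.e (nat_lit 204830) (nat_lit 18) (.e (nat_lit 57926) (nat_lit 282) (.e (nat_lit 163874) (nat_lit 3) (.e (nat_lit 204862) (nat_lit 27) (.e (nat_lit 344117) (nat_lit 21) (.e (nat_lit 516123) (nat_lit 2) (.e (nat_lit 213000) (nat_lit 9) .nil)))))))) (.g (nat_lit 1) (.e (nat_lit 43895) (nat_lit 0) .nil) .nil))) 
(.lf (nat_lit 457566) (.g (nat_lit 2557) (.e (nat_lit 2683) (nat_lit 168) (.e (nat_lit 204829) (nat_lit 18) (.e (nat_lit 57927) (nat_lit 282) (.e (nat_lit 163874) (nat_lit 3) (.e (nat_lit 204863) (nat_lit 27) (.e (nat_lit 344117) (nat_lit 21) (.e (nat_lit 516123) (nat_lit 2) (.e (nat_lit 213022) (nat_lit 9) .nil)))))))) (.g (nat_lit 1) (.e (nat_lit 45261) (nat_lit 0) .nil) .nil))))) 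
(.nd (nat_lit 8) (.nd (nat_lit 9) 
(.lf (nat_lit 456926) (.g (nat_lit 2592) (.e (nat_lit 2679) (nat_lit 168) (.e (nat_lit 204846) (nat_lit 24) (.e (nat_lit 319532) (nat_lit 16) (.e (nat_lit 286734) (nat_lit 3) (.e (nat_lit 98367) (nat_lit 27) (.e (nat_lit 442112) (nat_lit 8) .nil)))))) (.g (nat_lit 1) (.e (nat_lit 43662) (nat_lit 0) .nil) .nil))) 
(.lf (nat_lit 457438) (.g (nat_lit 2114) (.e (nat_lit 2682) (nat_lit 168) (.e (nat_lit 204869) (nat_lit 29) (.e (nat_lit 360448) (nat_lit 0) (.e (nat_lit 3986) (nat_lit 239) .nil)))) (.g (nat_lit 0) (.e (nat_lit 44759) (nat_lit 0) .nil) .nil)))) (.nd (nat_lit 9) 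
(.lf (nat_lit 457182) (.g (nat_lit 2564) (.e (nat_lit 2681) (nat_lit 168) (.e (nat_lit 204850) (nat_lit 26) (.e (nat_lit 336205) (nat_lit 12) (.e (nat_lit 385074) (nat_lit 31) (.e (nat_lit 573487) (nat_lit 14) (.e (nat_lit 73782) (nat_lit 32) .nil)))))) (.g (nat_lit 1) (.e (nat_lit 44108) (nat_lit 0) .nil) .nil))) 
(.lf (nat_lit 457694) (.g (nat_lit 3295) (.e (nat_lit 2684) (nat_lit 168) (.e (nat_lit 204846) (nat_lit 24) (.e (nat_lit 319538) (nat_lit 19) (.e (nat_lit 311315) (nat_lit 3) (.e (nat_lit 204846) (nat_lit 24) (.e (nat_lit 319504) (nat_lit 10) (.e (nat_lit 5734) (nat_lit 312) .nil))))))) (.g (nat_lit 1) (.e (nat_lit 45520) (nat_lit 0) .nil) .nil))))))) 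
(.nd (nat_lit 6) (.nd (nat_lit 7) (.nd (nat_lit 8) (.nd (nat_lit 9) 
(.lf (nat_lit 456766) (.g (nat_lit 2852) (.e (nat_lit 2668) (nat_lit 167) (.e (nat_lit 196670) (nat_lit 14) (.e (nat_lit 73753) (nat_lit 8) (.e (nat_lit 557098) (nat_lit 13) (.e (nat_lit 172067) (nat_lit 3) (.e (nat_lit 204821) (nat_lit 17) (.e (nat_lit 2391) (nat_lit 156) (.e (nat_lit 819204) (nat_lit 0) .nil)))))))) (.g (nat_lit 1) (.e (nat_lit 43260) (nat_lit 0) .nil) .nil))) 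
(.lf (nat_lit 457278) (.g (nat_lit 2883) (.e (nat_lit 2681) (nat_lit 168) (.e (nat_lit 204863) (nat_lit 27) (.e (nat_lit 344133) (nat_lit 26) (.e (nat_lit 557105) (nat_lit 14) (.e (nat_lit 180252) (nat_lit 10) (.e (nat_lit 573474) (nat_lit 12) (.e (nat_lit 57509) (nat_lit 39) (.e (nat_lit 647171) (nat_lit 0) .nil)))))))) (.g (nat_lit 1) (.e (nat_lit 44251) (nat_lit 0) .nil) .nil)))) 
(.nd (nat_lit 9) 
(.lf (nat_lit 457022) (.g (nat_lit 2413) (.e (nat_lit 2679) (nat_lit 168) (.e (nat_lit 204869) (nat_lit 29) (.e (nat_lit 360475) (nat_lit 8) (.e (nat_lit 557066) (nat_lit 9) (.e (nat_lit 297) (nat_lit 22) .nil))))) (.g (nat_lit 0) (.e (nat_lit 43839) (nat_lit 0) .nil) .nil))) 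
(.lf (nat_lit 457534) (.g (nat_lit 4358) (.e (nat_lit 2682) (nat_lit 168) (.e (nat_lit 204869) (nat_lit 29) (.e (nat_lit 360475) (nat_lit 8) (.e (nat_lit 557086) (nat_lit 11) (.e (nat_lit 24577) (nat_lit 0) (.e (nat_lit 6670) (nat_lit 357) .nil)))))) (.g (nat_lit 1) (.e (nat_lit 45125) (nat_lit 0) .nil) .nil))))) (.nd (nat_lit 8) (.nd (nat_lit 9) 
(.lf (nat_lit 456894) (.g (nat_lit 1817) (.e (nat_lit 2678) (nat_lit 168) (.e (nat_lit 204864) (nat_lit 27) (.e (nat_lit 344130) (nat_lit 26) (.e (nat_lit 557097) (nat_lit 13) (.e (nat_lit 179968) (nat_lit 18) (.e (nat_lit 98335) (nat_lit 18) (.e (nat_lit 164345) (nat_lit 240) (.e (nat_lit 2426) (nat_lit 157) .nil)))))))) (.g (nat_lit 1) (.e (nat_lit 43508) (nat_lit 0) .nil) .nil))) 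
(.lf (nat_lit 457406) (.g (nat_lit 3041) (.e (nat_lit 2682) (nat_lit 168) (.e (nat_lit 204863) (nat_lit 27) (.e (nat_lit 344133) (nat_lit 26) (.e (nat_lit 557103) (nat_lit 14) (.e (nat_lit 180250) (nat_lit 10) (.e (nat_lit 573473) (nat_lit 12) (.e (nat_lit 57508) (nat_lit 39) (.e (nat_lit 647177) (nat_lit 0) .nil)))))))) (.g (nat_lit 1) (.e (nat_lit 44665) (nat_lit 0) .nil) .nil)))) 
(.nd (nat_lit 9) 
(.lf (nat_lit 457150) (.g (nat_lit 3103) (.e (nat_lit 2681) (nat_lit 168) (.e (nat_lit 204830) (nat_lit 18) (.e (nat_lit 57926) (nat_lit 282) (.e (nat_lit 163874) (nat_lit 3) (.e (nat_lit 204862) (nat_lit 27) (.e (nat_lit 344117) (nat_lit 21) (.e (nat_lit 516123) (nat_lit 2) (.e (nat_lit 213013) (nat_lit 9) .nil)))))))) (.g (nat_lit 1) (.e (nat_lit 44046) (nat_lit 0) .nil) .nil))) 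
(.lf (nat_lit 457662) (.g (nat_lit 2511) (.e (nat_lit 2684) (nat_lit 168) (.e (nat_lit 204830) (nat_lit 18) (.e (nat_lit 57927) (nat_lit 282) (.e (nat_lit 163868) (nat_lit 2) (.e (nat_lit 196668) (nat_lit 14) (.e (nat_lit 73746) (nat_lit 3) (.e (nat_lit 516124) (nat_lit 2) (.e (nat_lit 213019) (nat_lit 9) .nil)))))))) (.g (nat_lit 1) (.e (nat_lit 45451) (nat_lit 0) .nil) .nil)))))) 
(.nd (nat_lit 7) (.nd (nat_lit 8) (.nd (nat_lit 9) 
(.lf (nat_lit 456830) (.g (nat_lit 3106) (.e (nat_lit 2672) (nat_lit 168) (.e (nat_lit 204869) (nat_lit 29) (.e (nat_lit 360475) (nat_lit 8) (.e (nat_lit 557087) (nat_lit 11) .nil)))) (.g (nat_lit 0) (.e (nat_lit 43356) (nat_lit 0) .nil) .nil))) 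
(.lf (nat_lit 457342) (.g (nat_lit 4532) (.e (nat_lit 2682) (nat_lit 168) (.e (nat_lit 204846) (nat_lit 24) (.e (nat_lit 319531) (nat_lit 16) (.e (nat_lit 286735) (nat_lit 3) (.e (nat_lit 98367) (nat_lit 27) (.e (nat_lit 434184) (nat_lit 8) .nil)))))) (.g (nat_lit 1) (.e (nat_lit 44544) (nat_lit 0) .nil) .nil)))) (.nd (nat_lit 9) 
(.lf (nat_lit 457086) (.g (nat_lit 2197) (.e (nat_lit 2681) (nat_lit 168) (.e (nat_lit 204829) (nat_lit 18) (.e (nat_lit 57927) (nat_lit 282) (.e (nat_lit 163868) (nat_lit 2) (.e (nat_lit 196670) (nat_lit 14) (.e (nat_lit 73746) (nat_lit 3) (.e (nat_lit 516127) (nat_lit 2) (.e (nat_lit 213022) (nat_lit 9) .nil)))))))) (.g (nat_lit 1) (.e (nat_lit 43968) (nat_lit 0) .nil) .nil))) 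
(.lf (nat_lit 457598) (.g (nat_lit 2567) (.e (nat_lit 2683) (nat_lit 168) (.e (nat_lit 204831) (nat_lit 18) (.e (nat_lit 57931) (nat_lit 282) (.e (nat_lit 163869) (nat_lit 2) (.e (nat_lit 196670) (nat_lit 14) (.e (nat_lit 73746) (nat_lit 3) (.e (nat_lit 516124) (nat_lit 2) (.e (nat_lit 213020) (nat_lit 9) .nil)))))))) (.g (nat_lit 1) (.e (nat_lit 45301) (nat_lit 0) .nil) .nil))))) 
(.nd (nat_lit 8) (.nd (nat_lit 9) 
(.lf (nat_lit 456958) (.g (nat_lit 2150) (.e (nat_lit 2679) (nat_lit 168) (.e (nat_lit 204862) (nat_lit 27) (.e (nat_lit 344117) (nat_lit 21) (.e (nat_lit 516130) (nat_lit 3) (.e (nat_lit 229120) (nat_lit 3) (.e (nat_lit 98346) (nat_lit 22) (.e (nat_lit 253954) (nat_lit 0) .nil))))))) (.g (nat_lit 1) (.e (nat_lit 43728) (nat_lit 0) .nil) .nil))) 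
(.lf (nat_lit 457470) (.g (nat_lit 2569) (.e (nat_lit 2682) (nat_lit 168) (.e (nat_lit 204869) (nat_lit 29) (.e (nat_lit 360457) (nat_lit 0) (.e (nat_lit 3978) (nat_lit 239) .nil)))) (.g (nat_lit 0) (.e (nat_lit 44822) (nat_lit 0) .nil) .nil)))) (.nd (nat_lit 9) 
(.lf (nat_lit 457214) (.g (nat_lit 2894) (.e (nat_lit 2681) (nat_lit 168) (.e (nat_lit 204863) (nat_lit 27) (.e (nat_lit 344129) (nat_lit 26) (.e (nat_lit 557097) (nat_lit 13) (.e (nat_lit 172133) (nat_lit 15) (.e (nat_lit 1800) (nat_lit 119) (.e (nat_lit 516119) (nat_lit 1) (.e (nat_lit 164345) (nat_lit 240) (.e (nat_lit 2515) (nat_lit 157) .nil))))))))) (.g (nat_lit 1) (.e (nat_lit 44187) (nat_lit 0) .nil) .nil))) 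
(.lf (nat_lit 457726) (.g (nat_lit 1501) (.e (nat_lit 2684) (nat_lit 168) (.e (nat_lit 204861) (nat_lit 26) (.e (nat_lit 336214) (nat_lit 13) (.e (nat_lit 401152) (nat_lit 10) (.e (nat_lit 344160) (nat_lit 37) (.e (nat_lit 655104) (nat_lit 0) .nil)))))) (.g (nat_lit 1) (.e (nat_lit 45582) (nat_lit 0) .nil) .nil)))))))))))) 
(.nd (nat_lit 1) (.nd (nat_lit 2) (.nd (nat_lit 3) (.nd (nat_lit 4) (.nd (nat_lit 5) 
(.nd (nat_lit 6) (.nd (nat_lit 7) (.nd (nat_lit 8) (.nd (nat_lit 9) 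
(.lf (nat_lit 456705) (.g (nat_lit 3243) (.e (nat_lit 2668) (nat_lit 167) (.e (nat_lit 196666) (nat_lit 13) (.e (nat_lit 65622) (nat_lit 12) (.e (nat_lit 385074) (nat_lit 31) (.e (nat_lit 573487) (nat_lit 14) (.e (nat_lit 81664) (nat_lit 32) .nil)))))) (.g (nat_lit 1) (.e (nat_lit 43169) (nat_lit 0) .nil) .nil))) 
(.lf (nat_lit 457217) (.g (nat_lit 2700) (.e (nat_lit 2681) (nat_lit 168) (.e (nat_lit 204863) (nat_lit 27) (.e (nat_lit 344129) (nat_lit 26) (.e (nat_lit 557104) (nat_lit 14) (.e (nat_lit 180252) (nat_lit 10) (.e (nat_lit 573473) (nat_lit 12) (.e (nat_lit 57508) (nat_lit 39) (.e (nat_lit 647176) (nat_lit 0) .nil)))))))) (.g (nat_lit 1) (.e (nat_lit 44190) (nat_lit 0) .nil) .nil)))) 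
(.nd (nat_lit 9) 
(.lf (nat_lit 456961) (.g (nat_lit 2718) (.e (nat_lit 2679) (nat_lit 168) (.e (nat_lit 204862) (nat_lit 27) (.e (nat_lit 344129) (nat_lit 26) (.e (nat_lit 557103) (nat_lit 14) (.e (nat_lit 188160) (nat_lit 3) .nil))))) (.g (nat_lit 0) (.e (nat_lit 43731) (nat_lit 0) .nil) .nil))) 
(.lf (nat_lit 457473) (.g (nat_lit 2556) (.e (nat_lit 2682) (nat_lit 168) (.e (nat_lit 204869) (nat_lit 29) (.e (nat_lit 360457) (nat_lit 0) (.e (nat_lit 7936) (nat_lit 239) .nil)))) (.g (nat_lit 0) (.e (nat_lit 44825) (nat_lit 0) .nil) .nil))))) (.nd (nat_lit 8) (.nd (nat_lit 9) 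
(.lf (nat_lit 456833) (.g (nat_lit 1114) (.e (nat_lit 2674) (nat_lit 168) (.e (nat_lit 204809) (nat_lit 9) (.e (nat_lit 426316) (nat_lit 12) (.e (nat_lit 475185) (nat_lit 29) .nil)))) (.g (nat_lit 0) (.e (nat_lit 43367) (nat_lit 0) .nil) .nil))) 
(.lf (nat_lit 457345) (.g (nat_lit 2392) (.e (nat_lit 2682) (nat_lit 168) (.e (nat_lit 204849) (nat_lit 25) (.e (nat_lit 327698) (nat_lit 8) (.e (nat_lit 303117) (nat_lit 2) (.e (nat_lit 196669) (nat_lit 14) (.e (nat_lit 73781) (nat_lit 32) .nil)))))) (.g (nat_lit 1) (.e (nat_lit 44548) (nat_lit 0) .nil) .nil)))) (.nd (nat_lit 9) 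
(.lf (nat_lit 457089) (.g (nat_lit 2304) (.e (nat_lit 2681) (nat_lit 168) (.e (nat_lit 204829) (nat_lit 18) (.e (nat_lit 57927) (nat_lit 282) (.e (nat_lit 163869) (nat_lit 2) (.e (nat_lit 196670) (nat_lit 14) (.e (nat_lit 73746) (nat_lit 3) (.e (nat_lit 516124) (nat_lit 2) (.e (nat_lit 213012) (nat_lit 9) .nil)))))))) (.g (nat_lit 1) (.e (nat_lit 43975) (nat_lit 0) .nil) .nil))) 
(.lf (nat_lit 457601) (.g (nat_lit 2876) (.e (nat_lit 2683) (nat_lit 168) (.e (nat_lit 204863) (nat_lit 27) (.e (nat_lit 344133) (nat_lit 26) (.e (nat_lit 557105) (nat_lit 14) (.e (nat_lit 180252) (nat_lit 10) .nil))))) (.g (nat_lit 0) (.e (nat_lit 45312) (nat_lit 0) .nil) .nil)))))) (.nd (nat_lit 7) (.nd (nat_lit 8) (.nd (nat_lit 9) 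
(.lf (nat_lit 456769) (.g (nat_lit 2889) (.e (nat_lit 2668) (nat_lit 167) (.e (nat_lit 196670) (nat_lit 14) (.e (nat_lit 73753) (nat_lit 8) (.e (nat_lit 557105) (nat_lit 14) (.e (nat_lit 180252) (nat_lit 10) (.e (nat_lit 573474) (nat_lit 12) (.e (nat_lit 57507) (nat_lit 39) (.e (nat_lit 647170) (nat_lit 0) .nil)))))))) (.g (nat_lit 1) (.e (nat_lit 43263) (nat_lit 0) .nil) .nil))) 
(.lf (nat_lit 457281) (.g (nat_lit 1625) (.e (nat_lit 2681) (nat_lit 168) (.e (nat_lit 204866) (nat_lit 28) (.e (nat_lit 352318) (nat_lit 24) (.e (nat_lit 123040) (nat_lit 140) .nil)))) (.g (nat_lit 0) (.e (nat_lit 44277) (nat_lit 0) .nil) .nil)))) (.nd (nat_lit 9) 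
(.lf (nat_lit 457025) (.g (nat_lit 1900) (.e (nat_lit 2679) (nat_lit 168) (.e (nat_lit 204869) (nat_lit 29) (.e (nat_lit 360475) (nat_lit 8) (.e (nat_lit 557068) (nat_lit 9) .nil)))) (.g (nat_lit 0) (.e (nat_lit 43842) (nat_lit 0) .nil) .nil))) 
(.lf (nat_lit 457537) (.g (nat_lit 2706) (.e (nat_lit 2682) (nat_lit 168) (.e (nat_lit 204869) (nat_lit 29) (.e (nat_lit 360475) (nat_lit 8) (.e (nat_lit 557087) (nat_lit 11) (.e (nat_lit 24580) (nat_lit 0) .nil))))) (.g (nat_lit 0) (.e (nat_lit 45128) (nat_lit 0) .nil) .nil))))) (.nd (nat_lit 8) (.nd (nat_lit 9) 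
(.lf (nat_lit 456897) (.g (nat_lit 2211) (.e (nat_lit 2678) (nat_lit 168) (.e (nat_lit 204864) (nat_lit 27) (.e (nat_lit 344133) (nat_lit 26) (.e (nat_lit 557098) (nat_lit 13) (.e (nat_lit 179968) (nat_lit 18) (.e (nat_lit 98335) (nat_lit 18) (.e (nat_lit 164345) (nat_lit 240) (.e (nat_lit 2426) (nat_lit 157) .nil)))))))) (.g (nat_lit 1) (.e (nat_lit 43511) (nat_lit 0) .nil) .nil))) 
(.lf (nat_lit 457409) (.g (nat_lit 3329) (.e (nat_lit 2682) (nat_lit 168) (.e (nat_lit 204863) (nat_lit 27) (.e (nat_lit 344133) (nat_lit 26) (.e (nat_lit 557105) (nat_lit 14) (.e (nat_lit 180252) (nat_lit 10) (.e (nat_lit 573473) (nat_lit 12) (.e (nat_lit 57508) (nat_lit 39) (.e (nat_lit 647177) (nat_lit 0) .nil)))))))) (.g (nat_lit 1) (.e (nat_lit 44668) (nat_lit 0) .nil) .nil)))) 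
(.nd (nat_lit 9) 
(.lf (nat_lit 457153) (.g (nat_lit 3718) (.e (nat_lit 2681) (nat_lit 168) (.e (nat_lit 204830) (nat_lit 18) (.e (nat_lit 57926) (nat_lit 282) (.e (nat_lit 163875) (nat_lit 3) (.e (nat_lit 204862) (nat_lit 27) (.e (nat_lit 344117) (nat_lit 21) (.e (nat_lit 516123) (nat_lit 2) (.e (nat_lit 213013) (nat_lit 9) .nil)))))))) (.g (nat_lit 1) (.e (nat_lit 44049) (nat_lit 0) .nil) .nil))) 
(.lf (nat_lit 457665) (.g (nat_lit 2650) (.e (nat_lit 2684) (nat_lit 168) (.e (nat_lit 204830) (nat_lit 18) (.e (nat_lit 57927) (nat_lit 282) (.e (nat_lit 163868) (nat_lit 2) (.e (nat_lit 196670) (nat_lit 14) (.e (nat_lit 73746) (nat_lit 3) (.e (nat_lit 516124) (nat_lit 2) (.e (nat_lit 213019) (nat_lit 9) .nil)))))))) (.g (nat_lit 1) (.e (nat_lit 45454) (nat_lit 0) .nil) .nil))))))) 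
(.nd (nat_lit 6) (.nd (nat_lit 7) (.nd (nat_lit 8) (.nd (nat_lit 9) 
(.lf (nat_lit 456737) (.g (nat_lit 3360) (.e (nat_lit 2668) (nat_lit 167) (.e (nat_lit 196666) (nat_lit 13) (.e (nat_lit 65630) (nat_lit 14) (.e (nat_lit 401425) (nat_lit 2) (.e (nat_lit 196622) (nat_lit 9) (.e (nat_lit 1512) (nat_lit 108) (.e (nat_lit 335872) (nat_lit 0) (.e (nat_lit 6618) (nat_lit 357) .nil)))))))) (.g (nat_lit 1) (.e (nat_lit 43218) (nat_lit 0) .nil) .nil))) 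
(.lf (nat_lit 457249) (.g (nat_lit 4067) (.e (nat_lit 2681) (nat_lit 168) (.e (nat_lit 204863) (nat_lit 27) (.e (nat_lit 344132) (nat_lit 26) (.e (nat_lit 557105) (nat_lit 14) (.e (nat_lit 180252) (nat_lit 10) (.e (nat_lit 573473) (nat_lit 12) (.e (nat_lit 57511) (nat_lit 39) (.e (nat_lit 647171) (nat_lit 0) .nil)))))))) (.g (nat_lit 1) (.e (nat_lit 44222) (nat_lit 0) .nil) .nil)))) 
(.nd (nat_lit 9) 
(.lf (nat_lit 456993) (.g (nat_lit 2380) (.e (nat_lit 2679) (nat_lit 168) (.e (nat_lit 204868) (nat_lit 29) (.e (nat_lit 360466) (nat_lit 3) (.e (nat_lit 516139) (nat_lit 7) (.e (nat_lit 409617) (nat_lit 10) .nil))))) (.g (nat_lit 0) (.e (nat_lit 43773) (nat_lit 0) .nil) .nil))) 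
(.lf (nat_lit 457505) (.g (nat_lit 4946) (.e (nat_lit 2682) (nat_lit 168) (.e (nat_lit 204869) (nat_lit 29) (.e (nat_lit 360474) (nat_lit 8) (.e (nat_lit 557078) (nat_lit 9) .nil)))) (.g (nat_lit 0) (.e (nat_lit 44945) (nat_lit 0) .nil) .nil))))) (.nd (nat_lit 8) (.nd (nat_lit 9) 
(.lf (nat_lit 456865) (.g (nat_lit 3310) (.e (nat_lit 2675) (nat_lit 168) (.e (nat_lit 204869) (nat_lit 29) (.e (nat_lit 360475) (nat_lit 8) (.e (nat_lit 557067) (nat_lit 9) .nil)))) (.g (nat_lit 0) (.e (nat_lit 43456) (nat_lit 0) .nil) .nil))) 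
(.lf (nat_lit 457377) (.g (nat_lit 479) (.e (nat_lit 2682) (nat_lit 168) (.e (nat_lit 204862) (nat_lit 27) (.e (nat_lit 344076) (nat_lit 13) .nil))) (.g (nat_lit 0) (.e (nat_lit 44633) (nat_lit 0) .nil) .nil)))) (.nd (nat_lit 9) 
(.lf (nat_lit 457121) (.g (nat_lit 4103) (.e (nat_lit 2681) (nat_lit 168) (.e (nat_lit 204829) (nat_lit 18) (.e (nat_lit 57931) (nat_lit 282) (.e (nat_lit 163869) (nat_lit 2) (.e (nat_lit 196670) (nat_lit 14) (.e (nat_lit 73746) (nat_lit 3) (.e (nat_lit 516127) (nat_lit 2) (.e (nat_lit 213019) (nat_lit 9) .nil)))))))) (.g (nat_lit 1) (.e (nat_lit 44013) (nat_lit 0) .nil) .nil))) 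
(.lf (nat_lit 457633) (.g (nat_lit 4044) (.e (nat_lit 2684) (nat_lit 168) (.e (nat_lit 204829) (nat_lit 18) (.e (nat_lit 57931) (nat_lit 282) (.e (nat_lit 163869) (nat_lit 2) (.e (nat_lit 196670) (nat_lit 14) (.e (nat_lit 73746) (nat_lit 3) (.e (nat_lit 516124) (nat_lit 2) (.e (nat_lit 213019) (nat_lit 9) .nil)))))))) (.g (nat_lit 1) (.e (nat_lit 45413) (nat_lit 0) .nil) .nil)))))) 
(.nd (nat_lit 7) (.nd (nat_lit 8) (.nd (nat_lit 9) 
(.lf (nat_lit 456801) (.g (nat_lit 1827) (.e (nat_lit 2668) (nat_lit 167) (.e (nat_lit 196674) (nat_lit 15) (.e (nat_lit 81947) (nat_lit 20) (.e (nat_lit 1841) (nat_lit 123) (.e (nat_lit 548890) (nat_lit 10) (.e (nat_lit 81664) (nat_lit 32) .nil)))))) (.g (nat_lit 1) (.e (nat_lit 43304) (nat_lit 0) .nil) .nil))) 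
(.lf (nat_lit 457313) (.g (nat_lit 2953) (.e (nat_lit 2681) (nat_lit 168) (.e (nat_lit 204869) (nat_lit 29) (.e (nat_lit 360475) (nat_lit 8) (.e (nat_lit 557087) (nat_lit 11) (.e (nat_lit 24584) (nat_lit 0) (.e (nat_lit 6651) (nat_lit 357) .nil)))))) (.g (nat_lit 1) (.e (nat_lit 44403) (nat_lit 0) .nil) .nil)))) (.nd (nat_lit 9) 
(.lf (nat_lit 457057) (.g (nat_lit 3162) (.e (nat_lit 2680) (nat_lit 168) (.e (nat_lit 204864) (nat_lit 27) (.e (nat_lit 344133) (nat_lit 26) (.e (nat_lit 557098) (nat_lit 13) (.e (nat_lit 172133) (nat_lit 15) (.e (nat_lit 1800) (nat_lit 119) (.e (nat_lit 516119) (nat_lit 1) (.e (nat_lit 164345) (nat_lit 240) (.e (nat_lit 2427) (nat_lit 157) .nil))))))))) (.g (nat_lit 1) (.e (nat_lit 43905) (nat_lit 0) .nil) .nil))) 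
(.lf (nat_lit 457569) (.g (nat_lit 1878) (.e (nat_lit 2683) (nat_lit 168) (.e (nat_lit 204829) (nat_lit 18) (.e (nat_lit 57931) (nat_lit 282) (.e (nat_lit 163866) (nat_lit 2) .nil)))) (.g (nat_lit 0) (.e (nat_lit 45264) (nat_lit 0) .nil) .nil))))) (.nd (nat_lit 8) (.nd (nat_lit 9) 
(.lf (nat_lit 456929) (.g (nat_lit 2530) (.e (nat_lit 2679) (nat_lit 168) (.e (nat_lit 204846) (nat_lit 24) (.e (nat_lit 319533) (nat_lit 16) (.e (nat_lit 286732) (nat_lit 2) (.e (nat_lit 90173) (nat_lit 14) .nil))))) (.g (nat_lit 0) (.e (nat_lit 43670) (nat_lit 0) .nil) .nil))) 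
(.lf (nat_lit 457441) (.g (nat_lit 935) (.e (nat_lit 2682) (nat_lit 168) (.e (nat_lit 204869) (nat_lit 29) (.e (nat_lit 360449) (nat_lit 0) .nil))) (.g (nat_lit 0) (.e (nat_lit 44762) (nat_lit 0) .nil) .nil)))) (.nd (nat_lit 9) 
(.lf (nat_lit 457185) (.g (nat_lit 2871) (.e (nat_lit 2681) (nat_lit 168) (.e (nat_lit 204859) (nat_lit 26) (.e (nat_lit 336206) (nat_lit 12) (.e (nat_lit 385074) (nat_lit 31) (.e (nat_lit 573487) (nat_lit 14) (.e (nat_lit 73782) (nat_lit 32) .nil)))))) (.g (nat_lit 1) (.e (nat_lit 44139) (nat_lit 0) .nil) .nil))) 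
(.lf (nat_lit 457697) (.g (nat_lit 3065) (.e (nat_lit 2684) (nat_lit 168) (.e (nat_lit 204846) (nat_lit 24) (.e (nat_lit 319531) (nat_lit 16) (.e (nat_lit 286733) (nat_lit 2) (.e (nat_lit 90173) (nat_lit 14) .nil))))) (.g (nat_lit 0) (.e (nat_lit 45523) (nat_lit 0) .nil) .nil)))))))) (.nd (nat_lit 5) (.nd (nat_lit 6) (.nd (nat_lit 7) (.nd (nat_lit 8) (.nd (nat_lit 9) 
(.lf (nat_lit 456721) (.g (nat_lit 2429) (.e (nat_lit 2668) (nat_lit 167) (.e (nat_lit 196666) (nat_lit 13) (.e (nat_lit 65628) (nat_lit 14) (.e (nat_lit 401428) (nat_lit 3) (.e (nat_lit 204845) (nat_lit 24) (.e (nat_lit 319491) (nat_lit 0) (.e (nat_lit 5626) (nat_lit 312) .nil))))))) (.g (nat_lit 1) (.e (nat_lit 43200) (nat_lit 0) .nil) .nil))) 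
(.lf (nat_lit 457233) (.g (nat_lit 2556) (.e (nat_lit 2681) (nat_lit 168) (.e (nat_lit 204863) (nat_lit 27) (.e (nat_lit 344131) (nat_lit 26) (.e (nat_lit 557103) (nat_lit 14) (.e (nat_lit 180250) (nat_lit 10) (.e (nat_lit 573473) (nat_lit 12) (.e (nat_lit 57508) (nat_lit 39) (.e (nat_lit 647176) (nat_lit 0) .nil)))))))) (.g (nat_lit 1) (.e (nat_lit 44206) (nat_lit 0) .nil) .nil)))) 
(.nd (nat_lit 9) 
(.lf (nat_lit 456977) (.g (nat_lit 2036) (.e (nat_lit 2679) (nat_lit 168) (.e (nat_lit 204864) (nat_lit 27) (.e (nat_lit 344133) (nat_lit 26) (.e (nat_lit 557105) (nat_lit 14) (.e (nat_lit 188160) (nat_lit 3) .nil))))) (.g (nat_lit 0) (.e (nat_lit 43747) (nat_lit 0) .nil) .nil))) 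
(.lf (nat_lit 457489) (.g (nat_lit 3554) (.e (nat_lit 2682) (nat_lit 168) (.e (nat_lit 204869) (nat_lit 29) (.e (nat_lit 360473) (nat_lit 8) (.e (nat_lit 557087) (nat_lit 11) (.e (nat_lit 24584) (nat_lit 0) .nil))))) (.g (nat_lit 0) (.e (nat_lit 44926) (nat_lit 0) .nil) .nil))))) (.nd (nat_lit 8) (.nd (nat_lit 9) 
(.lf (nat_lit 456849) (.g (nat_lit 1950) (.e (nat_lit 2675) (nat_lit 168) (.e (nat_lit 204863) (nat_lit 27) (.e (nat_lit 344117) (nat_lit 21) (.e (nat_lit 516130) (nat_lit 3) .nil)))) (.g (nat_lit 0) (.e (nat_lit 43428) (nat_lit 0) .nil) .nil))) 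
(.lf (nat_lit 457361) (.g (nat_lit 2577) (.e (nat_lit 2682) (nat_lit 168) (.e (nat_lit 204855) (nat_lit 26) (.e (nat_lit 336226) (nat_lit 14) (.e (nat_lit 401423) (nat_lit 2) (.e (nat_lit 196668) (nat_lit 14) (.e (nat_lit 73782) (nat_lit 32) .nil)))))) (.g (nat_lit 1) (.e (nat_lit 44587) (nat_lit 0) .nil) .nil)))) (.nd (nat_lit 9) 
(.lf (nat_lit 457105) (.g (nat_lit 2628) (.e (nat_lit 2681) (nat_lit 168) (.e (nat_lit 204829) (nat_lit 18) (.e (nat_lit 57927) (nat_lit 282) (.e (nat_lit 163871) (nat_lit 2) (.e (nat_lit 196670) (nat_lit 14) (.e (nat_lit 73746) (nat_lit 3) (.e (nat_lit 516127) (nat_lit 2) (.e (nat_lit 213019) (nat_lit 9) .nil)))))))) (.g (nat_lit 1) (.e (nat_lit 43991) (nat_lit 0) .nil) .nil))) 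
(.lf (nat_lit 457617) (.g (nat_lit 2686) (.e (nat_lit 2684) (nat_lit 168) (.e (nat_lit 204829) (nat_lit 18) (.e (nat_lit 57926) (nat_lit 282) (.e (nat_lit 163875) (nat_lit 3) (.e (nat_lit 204863) (nat_lit 27) (.e (nat_lit 344117) (nat_lit 21) (.e (nat_lit 516123) (nat_lit 2) (.e (nat_lit 213013) (nat_lit 9) .nil)))))))) (.g (nat_lit 1) (.e (nat_lit 45385) (nat_lit 0) .nil) .nil)))))) 
(.nd (nat_lit 7) (.nd (nat_lit 8) (.nd (nat_lit 9) 
(.lf (nat_lit 456785) (.g (nat_lit 2081) (.e (nat_lit 2668) (nat_lit 167) (.e (nat_lit 196670) (nat_lit 14) (.e (nat_lit 81664) (nat_lit 35) (.e (nat_lit 163950) (nat_lit 21) (.e (nat_lit 500073) (nat_lit 19) (.e (nat_lit 81664) (nat_lit 32) .nil)))))) (.g (nat_lit 1) (.e (nat_lit 43286) (nat_lit 0) .nil) .nil))) 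
(.lf (nat_lit 457297) (.g (nat_lit 2199) (.e (nat_lit 2681) (nat_lit 168) (.e (nat_lit 204869) (nat_lit 29) (.e (nat_lit 360474) (nat_lit 8) (.e (nat_lit 557068) (nat_lit 9) .nil)))) (.g (nat_lit 0) (.e (nat_lit 44381) (nat_lit 0) .nil) .nil)))) (.nd (nat_lit 9) 
(.lf (nat_lit 457041) (.g (nat_lit 3174) (.e (nat_lit 2680) (nat_lit 168) (.e (nat_lit 204829) (nat_lit 18) (.e (nat_lit 57847) (nat_lit 252) (.e (nat_lit 57377) (nat_lit 3) .nil)))) (.g (nat_lit 0) (.e (nat_lit 43879) (nat_lit 0) .nil) .nil))) 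
(.lf (nat_lit 457553) (.g (nat_lit 2872) (.e (nat_lit 2682) (nat_lit 168) (.e (nat_lit 204885) (nat_lit 33) (.e (nat_lit 401448) (nat_lit 10) (.e (nat_lit 434234) (nat_lit 23) (.e (nat_lit 532523) (nat_lit 7) (.e (nat_lit 319505) (nat_lit 10) (.e (nat_lit 5714) (nat_lit 312) .nil))))))) (.g (nat_lit 1) (.e (nat_lit 45243) (nat_lit 0) .nil) .nil))))) (.nd (nat_lit 8) (.nd (nat_lit 9) 
(.lf (nat_lit 456913) (.g (nat_lit 2600) (.e (nat_lit 2679) (nat_lit 168) (.e (nat_lit 204846) (nat_lit 24) (.e (nat_lit 319528) (nat_lit 16) (.e (nat_lit 286735) (nat_lit 3) (.e (nat_lit 98368) (nat_lit 27) (.e (nat_lit 442112) (nat_lit 8) .nil)))))) (.g (nat_lit 1) (.e (nat_lit 43645) (nat_lit 0) .nil) .nil))) 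
(.lf (nat_lit 457425) (.g (nat_lit 3917) (.e (nat_lit 2682) (nat_lit 168) (.e (nat_lit 204868) (nat_lit 29) (.e (nat_lit 360473) (nat_lit 8) (.e (nat_lit 557087) (nat_lit 11) (.e (nat_lit 24584) (nat_lit 0) (.e (nat_lit 6666) (nat_lit 357) .nil)))))) (.g (nat_lit 1) (.e (nat_lit 44743) (nat_lit 0) .nil) .nil)))) (.nd (nat_lit 9) 
(.lf (nat_lit 457169) (.g (nat_lit 3156) (.e (nat_lit 2681) (nat_lit 168) (.e (nat_lit 204831) (nat_lit 18) (.e (nat_lit 57931) (nat_lit 282) (.e (nat_lit 163867) (nat_lit 2) (.e (nat_lit 196670) (nat_lit 14) (.e (nat_lit 73746) (nat_lit 3) (.e (nat_lit 516124) (nat_lit 2) (.e (nat_lit 213020) (nat_lit 9) .nil)))))))) (.g (nat_lit 1) (.e (nat_lit 44073) (nat_lit 0) .nil) .nil))) 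
(.lf (nat_lit 457681) (.g (nat_lit 2954) (.e (nat_lit 2684) (nat_lit 168) (.e (nat_lit 204830) (nat_lit 18) (.e (nat_lit 57931) (nat_lit 282) (.e (nat_lit 163867) (nat_lit 2) (.e (nat_lit 196670) (nat_lit 14) (.e (nat_lit 73746) (nat_lit 3) (.e (nat_lit 516124) (nat_lit 2) (.e (nat_lit 213013) (nat_lit 9) .nil)))))))) (.g (nat_lit 1) (.e (nat_lit 45477) (nat_lit 0) .nil) .nil))))))) 
(.nd (nat_lit 6) (.nd (nat_lit 7) (.nd (nat_lit 8) (.nd (nat_lit 9) 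
(.lf (nat_lit 456753) (.g (nat_lit 3127) (.e (nat_lit 2668) (nat_lit 167) (.e (nat_lit 196666) (nat_lit 13) (.e (nat_lit 65630) (nat_lit 14) (.e (nat_lit 401428) (nat_lit 3) (.e (nat_lit 204859) (nat_lit 26) (.e (nat_lit 335872) (nat_lit 0) (.e (nat_lit 6618) (nat_lit 357) .nil))))))) (.g (nat_lit 1) (.e (nat_lit 43241) (nat_lit 0) .nil) .nil))) 
(.lf (nat_lit 457265) (.g (nat_lit 3829) (.e (nat_lit 2681) (nat_lit 168) (.e (nat_lit 204863) (nat_lit 27) (.e (nat_lit 344133) (nat_lit 26) (.e (nat_lit 557103) (nat_lit 14) (.e (nat_lit 180244) (nat_lit 5) (.e (nat_lit 532503) (nat_lit 1) (.e (nat_lit 57704) (nat_lit 164) (.e (nat_lit 2515) (nat_lit 157) .nil)))))))) (.g (nat_lit 1) (.e (nat_lit 44238) (nat_lit 0) .nil) .nil)))) 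
(.nd (nat_lit 9) 
(.lf (nat_lit 457009) (.g (nat_lit 1721) (.e (nat_lit 2679) (nat_lit 168) (.e (nat_lit 204868) (nat_lit 29) (.e (nat_lit 360473) (nat_lit 8) (.e (nat_lit 557087) (nat_lit 11) (.e (nat_lit 24588) (nat_lit 0) .nil))))) (.g (nat_lit 0) (.e (nat_lit 43815) (nat_lit 0) .nil) .nil))) 
(.lf (nat_lit 457521) (.g (nat_lit 2135) (.e (nat_lit 2682) (nat_lit 168) (.e (nat_lit 204869) (nat_lit 29) (.e (nat_lit 360475) (nat_lit 8) (.e (nat_lit 557068) (nat_lit 9) .nil)))) (.g (nat_lit 0) (.e (nat_lit 45110) (nat_lit 0) .nil) .nil))))) (.nd (nat_lit 8) (.nd (nat_lit 9) 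
(.lf (nat_lit 456881) (.g (nat_lit 4417) (.e (nat_lit 2676) (nat_lit 168) (.e (nat_lit 204869) (nat_lit 29) (.e (nat_lit 360475) (nat_lit 8) (.e (nat_lit 557086) (nat_lit 11) .nil)))) (.g (nat_lit 0) (.e (nat_lit 43487) (nat_lit 0) .nil) .nil))) 
(.lf (nat_lit 457393) (.g (nat_lit 3065) (.e (nat_lit 2682) (nat_lit 168) (.e (nat_lit 204863) (nat_lit 27) (.e (nat_lit 344131) (nat_lit 26) (.e (nat_lit 557105) (nat_lit 14) (.e (nat_lit 180252) (nat_lit 10) (.e (nat_lit 573474) (nat_lit 12) (.e (nat_lit 57507) (nat_lit 39) (.e (nat_lit 647177) (nat_lit 0) .nil)))))))) (.g (nat_lit 1) (.e (nat_lit 44652) (nat_lit 0) .nil) .nil)))) 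
(.nd (nat_lit 9) 
(.lf (nat_lit 457137) (.g (nat_lit 2486) (.e (nat_lit 2681) (nat_lit 168) (.e (nat_lit 204830) (nat_lit 18) (.e (nat_lit 57926) (nat_lit 282) (.e (nat_lit 163869) (nat_lit 2) (.e (nat_lit 196670) (nat_lit 14) (.e (nat_lit 73746) (nat_lit 3) (.e (nat_lit 516124) (nat_lit 2) (.e (nat_lit 213015) (nat_lit 9) .nil)))))))) (.g (nat_lit 1) (.e (nat_lit 44032) (nat_lit 0) .nil) .nil))) 
(.lf (nat_lit 457649) (.g (nat_lit 2103) (.e (nat_lit 2684) (nat_lit 168) (.e (nat_lit 204830) (nat_lit 18) (.e (nat_lit 57926) (nat_lit 282) (.e (nat_lit 163871) (nat_lit 2) (.e (nat_lit 196670) (nat_lit 14) .nil))))) (.g (nat_lit 0) (.e (nat_lit 45437) (nat_lit 0) .nil) .nil)))))) (.nd (nat_lit 7) (.nd (nat_lit 8) (.nd (nat_lit 9) 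
(.lf (nat_lit 456817) (.g (nat_lit 2646) (.e (nat_lit 7936) (nat_lit 167) (.e (nat_lit 196666) (nat_lit 13) (.e (nat_lit 65610) (nat_lit 10) (.e (nat_lit 344117) (nat_lit 21) (.e (nat_lit 516139) (nat_lit 7) .nil))))) (.g (nat_lit 0) (.e (nat_lit 43327) (nat_lit 0) .nil) .nil))) 
(.lf (nat_lit 457329) (.g (nat_lit 2892) (.e (nat_lit 2682) (nat_lit 168) (.e (nat_lit 204831) (nat_lit 18) (.e (nat_lit 57931) (nat_lit 282) (.e (nat_lit 163869) (nat_lit 2) (.e (nat_lit 196670) (nat_lit 14) (.e (nat_lit 73746) (nat_lit 3) (.e (nat_lit 516124) (nat_lit 2) (.e (nat_lit 213025) (nat_lit 9) .nil)))))))) (.g (nat_lit 1) (.e (nat_lit 44512) (nat_lit 0) .nil) .nil)))) (.nd (nat_lit 9) 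
(.lf (nat_lit 457073) (.g (nat_lit 3929) (.e (nat_lit 2681) (nat_lit 168) (.e (nat_lit 204829) (nat_lit 18) (.e (nat_lit 57926) (nat_lit 282) (.e (nat_lit 163869) (nat_lit 2) (.e (nat_lit 196670) (nat_lit 14) (.e (nat_lit 73746) (nat_lit 3) (.e (nat_lit 516124) (nat_lit 2) (.e (nat_lit 213019) (nat_lit 9) .nil)))))))) (.g (nat_lit 1) (.e (nat_lit 43952) (nat_lit 0) .nil) .nil))) 
(.lf (nat_lit 457585) (.g (nat_lit 4075) (.e (nat_lit 2683) (nat_lit 168) (.e (nat_lit 204830) (nat_lit 18) (.e (nat_lit 57926) (nat_lit 282) (.e (nat_lit 163869) (nat_lit 2) (.e (nat_lit 196670) (nat_lit 14) (.e (nat_lit 73746) (nat_lit 3) (.e (nat_lit 516127) (nat_lit 2) (.e (nat_lit 213019) (nat_lit 9) .nil)))))))) (.g (nat_lit 1) (.e (nat_lit 45287) (nat_lit 0) .nil) .nil))))) 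
(.nd (nat_lit 8) (.nd (nat_lit 9) 
(.lf (nat_lit 456945) (.g (nat_lit 2308) (.e (nat_lit 2679) (nat_lit 168) (.e (nat_lit 204846) (nat_lit 24) (.e (nat_lit 319534) (nat_lit 16) (.e (nat_lit 286735) (nat_lit 3) (.e (nat_lit 98366) (nat_lit 27) (.e (nat_lit 442112) (nat_lit 8) .nil)))))) (.g (nat_lit 1) (.e (nat_lit 43688) (nat_lit 0) .nil) .nil))) 
(.lf (nat_lit 457457) (.g (nat_lit 3464) (.e (nat_lit 2682) (nat_lit 168) (.e (nat_lit 204869) (nat_lit 29) (.e (nat_lit 360451) (nat_lit 0) (.e (nat_lit 3981) (nat_lit 239) .nil)))) (.g (nat_lit 0) (.e (nat_lit 44794) (nat_lit 0) .nil) .nil)))) (.nd (nat_lit 9) 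
(.lf (nat_lit 457201) (.g (nat_lit 2813) (.e (nat_lit 2681) (nat_lit 168) (.e (nat_lit 204862) (nat_lit 27) (.e (nat_lit 344129) (nat_lit 26) (.e (nat_lit 557103) (nat_lit 14) (.e (nat_lit 180250) (nat_lit 10) (.e (nat_lit 573473) (nat_lit 12) (.e (nat_lit 57508) (nat_lit 39) (.e (nat_lit 647176) (nat_lit 0) .nil)))))))) (.g (nat_lit 1) (.e (nat_lit 44173) (nat_lit 0) .nil) .nil))) 
(.lf (nat_lit 457713) (.g (nat_lit 2042) (.e (nat_lit 2684) (nat_lit 168) (.e (nat_lit 204852) (nat_lit 26) (.e (nat_lit 336326) (nat_lit 18) (.e (nat_lit 204830) (nat_lit 18) (.e (nat_lit 57852) (nat_lit 252) .nil))))) (.g (nat_lit 0) (.e (nat_lit 45542) (nat_lit 0) .nil) .nil))))))))) (.nd (nat_lit 4) (.nd (nat_lit 5) (.nd (nat_lit 6) (.nd (nat_lit 7) (.nd (nat_lit 8) (.nd (nat_lit 9) 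
(.lf (nat_lit 456713) (.g (nat_lit 4260) (.e (nat_lit 2668) (nat_lit 167) (.e (nat_lit 196666) (nat_lit 13) (.e (nat_lit 65628) (nat_lit 14) (.e (nat_lit 401425) (nat_lit 2) (.e (nat_lit 196628) (nat_lit 9) (.e (nat_lit 1512) (nat_lit 108) (.e (nat_lit 335872) (nat_lit 0) (.e (nat_lit 6618) (nat_lit 357) .nil)))))))) (.g (nat_lit 1) (.e (nat_lit 43191) (nat_lit 0) .nil) .nil))) 
(.lf (nat_lit 457225) (.g (nat_lit 2804) (.e (nat_lit 2681) (nat_lit 168) (.e (nat_lit 204863) (nat_lit 27) (.e (nat_lit 344130) (nat_lit 26) (.e (nat_lit 557103) (nat_lit 14) (.e (nat_lit 180250) (nat_lit 10) (.e (nat_lit 573473) (nat_lit 12) (.e (nat_lit 57508) (nat_lit 39) (.e (nat_lit 647176) (nat_lit 0) .nil)))))))) (.g (nat_lit 1) (.e (nat_lit 44198) (nat_lit 0) .nil) .nil)))) 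
(.nd (nat_lit 9) 
(.lf (nat_lit 456969) (.g (nat_lit 1729) (.e (nat_lit 2679) (nat_lit 168) (.e (nat_lit 204863) (nat_lit 27) (.e (nat_lit 344133) (nat_lit 26) (.e (nat_lit 557105) (nat_lit 14) .nil)))) (.g (nat_lit 0) (.e (nat_lit 43739) (nat_lit 0) .nil) .nil))) 
(.lf (nat_lit 457481) (.g (nat_lit 4352) (.e (nat_lit 2682) (nat_lit 168) (.e (nat_lit 204869) (nat_lit 29) (.e (nat_lit 360472) (nat_lit 8) (.e (nat_lit 557087) (nat_lit 11) (.e (nat_lit 24584) (nat_lit 0) (.e (nat_lit 6666) (nat_lit 357) .nil)))))) (.g (nat_lit 1) (.e (nat_lit 44918) (nat_lit 0) .nil) .nil))))) (.nd (nat_lit 8) (.nd (nat_lit 9) 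
(.lf (nat_lit 456841) (.g (nat_lit 3751) (.e (nat_lit 2675) (nat_lit 168) (.e (nat_lit 204830) (nat_lit 18) (.e (nat_lit 57926) (nat_lit 282) (.e (nat_lit 163868) (nat_lit 2) (.e (nat_lit 196670) (nat_lit 14) (.e (nat_lit 73746) (nat_lit 3) (.e (nat_lit 516124) (nat_lit 2) (.e (nat_lit 213019) (nat_lit 9) .nil)))))))) (.g (nat_lit 1) (.e (nat_lit 43407) (nat_lit 0) .nil) .nil))) 
(.lf (nat_lit 457353) (.g (nat_lit 2609) (.e (nat_lit 2682) (nat_lit 168) (.e (nat_lit 204850) (nat_lit 26) (.e (nat_lit 336205) (nat_lit 12) (.e (nat_lit 385074) (nat_lit 31) (.e (nat_lit 573489) (nat_lit 14) (.e (nat_lit 73782) (nat_lit 32) .nil)))))) (.g (nat_lit 1) (.e (nat_lit 44556) (nat_lit 0) .nil) .nil)))) (.nd (nat_lit 9) 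
(.lf (nat_lit 457097) (.g (nat_lit 2255) (.e (nat_lit 2681) (nat_lit 168) (.e (nat_lit 204829) (nat_lit 18) (.e (nat_lit 57927) (nat_lit 282) (.e (nat_lit 163869) (nat_lit 2) (.e (nat_lit 196670) (nat_lit 14) (.e (nat_lit 73746) (nat_lit 3) (.e (nat_lit 516126) (nat_lit 2) (.e (nat_lit 213020) (nat_lit 9) .nil)))))))) (.g (nat_lit 1) (.e (nat_lit 43983) (nat_lit 0) .nil) .nil))) 
(.lf (nat_lit 457609) (.g (nat_lit 4136) (.e (nat_lit 2684) (nat_lit 168) (.e (nat_lit 204829) (nat_lit 18) (.e (nat_lit 57926) (nat_lit 282) (.e (nat_lit 163869) (nat_lit 2) (.e (nat_lit 196670) (nat_lit 14) (.e (nat_lit 73746) (nat_lit 3) (.e (nat_lit 516124) (nat_lit 2) (.e (nat_lit 213013) (nat_lit 9) .nil)))))))) (.g (nat_lit 1) (.e (nat_lit 45377) (nat_lit 0) .nil) .nil)))))) 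
(.nd (nat_lit 7) (.nd (nat_lit 8) (.nd (nat_lit 9) 
(.lf (nat_lit 456777) (.g (nat_lit 3064) (.e (nat_lit 2668) (nat_lit 167) (.e (nat_lit 196670) (nat_lit 14) (.e (nat_lit 73754) (nat_lit 8) (.e (nat_lit 557105) (nat_lit 14) (.e (nat_lit 180252) (nat_lit 10) (.e (nat_lit 573474) (nat_lit 12) (.e (nat_lit 57508) (nat_lit 39) (.e (nat_lit 647168) (nat_lit 0) .nil)))))))) (.g (nat_lit 1) (.e (nat_lit 43271) (nat_lit 0) .nil) .nil))) 
(.lf (nat_lit 457289) (.g (nat_lit 2401) (.e (nat_lit 2681) (nat_lit 168) (.e (nat_lit 204869) (nat_lit 29) (.e (nat_lit 360451) (nat_lit 0) (.e (nat_lit 3928) (nat_lit 239) .nil)))) (.g (nat_lit 0) (.e (nat_lit 44349) (nat_lit 0) .nil) .nil)))) (.nd (nat_lit 9) 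
(.lf (nat_lit 457033) (.g (nat_lit 2650) (.e (nat_lit 2679) (nat_lit 168) (.e (nat_lit 204869) (nat_lit 29) (.e (nat_lit 360475) (nat_lit 8) (.e (nat_lit 557087) (nat_lit 11) (.e (nat_lit 24588) (nat_lit 0) (.e (nat_lit 7936) (nat_lit 357) .nil)))))) (.g (nat_lit 1) (.e (nat_lit 43851) (nat_lit 0) .nil) .nil))) 
(.lf (nat_lit 457545) (.g (nat_lit 3386) (.e (nat_lit 2682) (nat_lit 168) (.e (nat_lit 204869) (nat_lit 29) (.e (nat_lit 360475) (nat_lit 8) (.e (nat_lit 557087) (nat_lit 11) (.e (nat_lit 24589) (nat_lit 0) .nil))))) (.g (nat_lit 0) (.e (nat_lit 45136) (nat_lit 0) .nil) .nil))))) (.nd (nat_lit 8) (.nd (nat_lit 9) 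
(.lf (nat_lit 456905) (.g (nat_lit 2552) (.e (nat_lit 2679) (nat_lit 168) (.e (nat_lit 204845) (nat_lit 24) (.e (nat_lit 319538) (nat_lit 19) (.e (nat_lit 311315) (nat_lit 3) (.e (nat_lit 204846) (nat_lit 24) (.e (nat_lit 319511) (nat_lit 10) (.e (nat_lit 5664) (nat_lit 312) .nil))))))) (.g (nat_lit 1) (.e (nat_lit 43625) (nat_lit 0) .nil) .nil))) 
(.lf (nat_lit 457417) (.g (nat_lit 1104) (.e (nat_lit 2682) (nat_lit 168) (.e (nat_lit 204868) (nat_lit 29) (.e (nat_lit 360456) (nat_lit 0) (.e (nat_lit 3962) (nat_lit 239) .nil)))) (.g (nat_lit 0) (.e (nat_lit 44694) (nat_lit 0) .nil) .nil)))) (.nd (nat_lit 9) 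
(.lf (nat_lit 457161) (.g (nat_lit 3076) (.e (nat_lit 2681) (nat_lit 168) (.e (nat_lit 204830) (nat_lit 18) (.e (nat_lit 57929) (nat_lit 282) (.e (nat_lit 163869) (nat_lit 2) (.e (nat_lit 196670) (nat_lit 14) (.e (nat_lit 73746) (nat_lit 3) (.e (nat_lit 516124) (nat_lit 2) (.e (nat_lit 213019) (nat_lit 9) .nil)))))))) (.g (nat_lit 1) (.e (nat_lit 44058) (nat_lit 0) .nil) .nil))) 
(.lf (nat_lit 457673) (.g (nat_lit 3681) (.e (nat_lit 2684) (nat_lit 168) (.e (nat_lit 204830) (nat_lit 18) (.e (nat_lit 57927) (nat_lit 282) (.e (nat_lit 163875) (nat_lit 3) (.e (nat_lit 204862) (nat_lit 27) (.e (nat_lit 344117) (nat_lit 21) (.e (nat_lit 516123) (nat_lit 2) (.e (nat_lit 213013) (nat_lit 9) .nil)))))))) (.g (nat_lit 1) (.e (nat_lit 45466) (nat_lit 0) .nil) .nil))))))) 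
(.nd (nat_lit 6) (.nd (nat_lit 7) (.nd (nat_lit 8) (.nd (nat_lit 9) 
(.lf (nat_lit 456745) (.g (nat_lit 3608) (.e (nat_lit 2668) (nat_lit 167) (.e (nat_lit 196666) (nat_lit 13) (.e (nat_lit 65630) (nat_lit 14) (.e (nat_lit 401425) (nat_lit 2) (.e (nat_lit 196670) (nat_lit 14) (.e (nat_lit 81664) (nat_lit 32) .nil)))))) (.g (nat_lit 1) (.e (nat_lit 43228) (nat_lit 0) .nil) .nil))) 
(.lf (nat_lit 457257) (.g (nat_lit 2762) (.e (nat_lit 2681) (nat_lit 168) (.e (nat_lit 204863) (nat_lit 27) (.e (nat_lit 344133) (nat_lit 26) (.e (nat_lit 557096) (nat_lit 13) (.e (nat_lit 172133) (nat_lit 15) .nil))))) (.g (nat_lit 0) (.e (nat_lit 44230) (nat_lit 0) .nil) .nil)))) (.nd (nat_lit 9) 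
(.lf (nat_lit 457001) (.g (nat_lit 2952) (.e (nat_lit 2679) (nat_lit 168) (.e (nat_lit 204868) (nat_lit 29) (.e (nat_lit 360466) (nat_lit 3) (.e (nat_lit 516142) (nat_lit 8) (.e (nat_lit 417817) (nat_lit 10) (.e (nat_lit 5666) (nat_lit 312) .nil)))))) (.g (nat_lit 1) (.e (nat_lit 43781) (nat_lit 0) .nil) .nil))) 
(.lf (nat_lit 457513) (.g (nat_lit 6073) (.e (nat_lit 2682) (nat_lit 168) (.e (nat_lit 204869) (nat_lit 29) (.e (nat_lit 360474) (nat_lit 8) (.e (nat_lit 557087) (nat_lit 11) (.e (nat_lit 24584) (nat_lit 0) (.e (nat_lit 6666) (nat_lit 357) .nil)))))) (.g (nat_lit 1) (.e (nat_lit 44954) (nat_lit 0) .nil) .nil))))) (.nd (nat_lit 8) (.nd (nat_lit 9) 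
(.lf (nat_lit 456873) (.g (nat_lit 1661) (.e (nat_lit 2675) (nat_lit 168) (.e (nat_lit 204877) (nat_lit 31) (.e (nat_lit 376865) (nat_lit 22) (.e (nat_lit 90181) (nat_lit 16) (.e (nat_lit 229577) (nat_lit 179) .nil))))) (.g (nat_lit 0) (.e (nat_lit 43467) (nat_lit 0) .nil) .nil))) 
(.lf (nat_lit 457385) (.g (nat_lit 2606) (.e (nat_lit 2682) (nat_lit 168) (.e (nat_lit 204863) (nat_lit 27) (.e (nat_lit 344129) (nat_lit 26) (.e (nat_lit 557104) (nat_lit 14) (.e (nat_lit 180252) (nat_lit 10) (.e (nat_lit 573473) (nat_lit 12) (.e (nat_lit 57508) (nat_lit 39) (.e (nat_lit 647177) (nat_lit 0) .nil)))))))) (.g (nat_lit 1) (.e (nat_lit 44644) (nat_lit 0) .nil) .nil)))) 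
(.nd (nat_lit 9) 
(.lf (nat_lit 457129) (.g (nat_lit 3421) (.e (nat_lit 2681) (nat_lit 168) (.e (nat_lit 204830) (nat_lit 18) (.e (nat_lit 57926) (nat_lit 282) (.e (nat_lit 163868) (nat_lit 2) (.e (nat_lit 196668) (nat_lit 14) (.e (nat_lit 73747) (nat_lit 3) (.e (nat_lit 516124) (nat_lit 2) (.e (nat_lit 213013) (nat_lit 9) .nil)))))))) (.g (nat_lit 1) (.e (nat_lit 44022) (nat_lit 0) .nil) .nil))) 
(.lf (nat_lit 457641) (.g (nat_lit 2787) (.e (nat_lit 2684) (nat_lit 168) (.e (nat_lit 204830) (nat_lit 18) (.e (nat_lit 57925) (nat_lit 282) (.e (nat_lit 163871) (nat_lit 2) (.e (nat_lit 196668) (nat_lit 14) (.e (nat_lit 73746) (nat_lit 3) (.e (nat_lit 516124) (nat_lit 2) (.e (nat_lit 213013) (nat_lit 9) .nil)))))))) (.g (nat_lit 1) (.e (nat_lit 45424) (nat_lit 0) .nil) .nil)))))) 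
(.nd (nat_lit 7) (.nd (nat_lit 8) (.nd (nat_lit 9) 
(.lf (nat_lit 456809) (.g (nat_lit 2490) (.e (nat_lit 2668) (nat_lit 167) (.e (nat_lit 196683) (nat_lit 18) (.e (nat_lit 1374) (nat_lit 104) (.e (nat_lit 303145) (nat_lit 13) (.e (nat_lit 483337) (nat_lit 9) (.e (nat_lit 426107) (nat_lit 1) (.e (nat_lit 164347) (nat_lit 240) (.e (nat_lit 2428) (nat_lit 157) .nil)))))))) (.g (nat_lit 1) (.e (nat_lit 43317) (nat_lit 0) .nil) .nil))) 
(.lf (nat_lit 457321) (.g (nat_lit 1260) (.e (nat_lit 2682) (nat_lit 168) (.e (nat_lit 204829) (nat_lit 18) (.e (nat_lit 57688) (nat_lit 156) .nil))) (.g (nat_lit 0) (.e (nat_lit 44501) (nat_lit 0) .nil) .nil)))) (.nd (nat_lit 9) 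
(.lf (nat_lit 457065) (.g (nat_lit 3855) (.e (nat_lit 2681) (nat_lit 168) (.e (nat_lit 204819) (nat_lit 17) (.e (nat_lit 6113) (nat_lit 332) (.e (nat_lit 1374) (nat_lit 104) (.e (nat_lit 303119) (nat_lit 3) (.e (nat_lit 204846) (nat_lit 24) (.e (nat_lit 319505) (nat_lit 10) (.e (nat_lit 5714) (nat_lit 312) .nil)))))))) (.g (nat_lit 1) (.e (nat_lit 43943) (nat_lit 0) .nil) .nil))) 
(.lf (nat_lit 457577) (.g (nat_lit 3154) (.e (nat_lit 2683) (nat_lit 168) (.e (nat_lit 204830) (nat_lit 18) (.e (nat_lit 57926) (nat_lit 282) (.e (nat_lit 163868) (nat_lit 2) (.e (nat_lit 196670) (nat_lit 14) (.e (nat_lit 73746) (nat_lit 3) (.e (nat_lit 516127) (nat_lit 2) (.e (nat_lit 213019) (nat_lit 9) .nil)))))))) (.g (nat_lit 1) (.e (nat_lit 45278) (nat_lit 0) .nil) .nil))))) 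
(.nd (nat_lit 8) (.nd (nat_lit 9) 
(.lf (nat_lit 456937) (.g (nat_lit 2513) (.e (nat_lit 2679) (nat_lit 168) (.e (nat_lit 204846) (nat_lit 24) (.e (nat_lit 319534) (nat_lit 16) (.e (nat_lit 286733) (nat_lit 2) (.e (nat_lit 90165) (nat_lit 12) .nil))))) (.g (nat_lit 0) (.e (nat_lit 43680) (nat_lit 0) .nil) .nil))) 
(.lf (nat_lit 457449) (.g (nat_lit 2911) (.e (nat_lit 2682) (nat_lit 168) (.e (nat_lit 204869) (nat_lit 29) (.e (nat_lit 360450) (nat_lit 0) (.e (nat_lit 7936) (nat_lit 239) .nil)))) (.g (nat_lit 0) (.e (nat_lit 44775) (nat_lit 0) .nil) .nil)))) (.nd (nat_lit 9) 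
(.lf (nat_lit 457193) (.g (nat_lit 2447) (.e (nat_lit 2681) (nat_lit 168) (.e (nat_lit 204862) (nat_lit 27) (.e (nat_lit 344129) (nat_lit 26) (.e (nat_lit 557097) (nat_lit 13) (.e (nat_lit 172065) (nat_lit 3) .nil))))) (.g (nat_lit 0) (.e (nat_lit 44165) (nat_lit 0) .nil) .nil))) 
(.lf (nat_lit 457705) (.g (nat_lit 1923) (.e (nat_lit 2684) (nat_lit 168) (.e (nat_lit 204846) (nat_lit 24) (.e (nat_lit 319534) (nat_lit 16) (.e (nat_lit 286734) (nat_lit 3) .nil)))) (.g (nat_lit 0) (.e (nat_lit 45531) (nat_lit 0) .nil) .nil)))))))) (.nd (nat_lit 5) (.nd (nat_lit 6) (.nd (nat_lit 7) (.nd (nat_lit 8) (.nd (nat_lit 9) 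
(.lf (nat_lit 456729) (.g (nat_lit 2417) (.e (nat_lit 2668) (nat_lit 167) (.e (nat_lit 196666) (nat_lit 13) (.e (nat_lit 65628) (nat_lit 14) (.e (nat_lit 401428) (nat_lit 3) (.e (nat_lit 204859) (nat_lit 26) (.e (nat_lit 335874) (nat_lit 0) (.e (nat_lit 6618) (nat_lit 357) .nil))))))) (.g (nat_lit 1) (.e (nat_lit 43208) (nat_lit 0) .nil) .nil))) 
(.lf (nat_lit 457241) (.g (nat_lit 2348) (.e (nat_lit 2681) (nat_lit 168) (.e (nat_lit 204863) (nat_lit 27) (.e (nat_lit 344132) (nat_lit 26) (.e (nat_lit 557103) (nat_lit 14) (.e (nat_lit 180250) (nat_lit 10) (.e (nat_lit 573475) (nat_lit 12) (.e (nat_lit 57507) (nat_lit 39) (.e (nat_lit 647176) (nat_lit 0) .nil)))))))) (.g (nat_lit 1) (.e (nat_lit 44214) (nat_lit 0) .nil) .nil)))) 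
(.nd (nat_lit 9) 
(.lf (nat_lit 456985) (.g (nat_lit 3126) (.e (nat_lit 2679) (nat_lit 168) (.e (nat_lit 204868) (nat_lit 29) (.e (nat_lit 360466) (nat_lit 3) (.e (nat_lit 516096) (nat_lit 0) (.e (nat_lit 7101) (nat_lit 380) (.e (nat_lit 164359) (nat_lit 246) .nil)))))) (.g (nat_lit 1) (.e (nat_lit 43764) (nat_lit 0) .nil) .nil))) 
(.lf (nat_lit 457497) (.g (nat_lit 5054) (.e (nat_lit 2682) (nat_lit 168) (.e (nat_lit 204869) (nat_lit 29) (.e (nat_lit 360474) (nat_lit 8) (.e (nat_lit 557067) (nat_lit 9) .nil)))) (.g (nat_lit 0) (.e (nat_lit 44936) (nat_lit 0) .nil) .nil))))) (.nd (nat_lit 8) (.nd (nat_lit 9) 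
(.lf (nat_lit 456857) (.g (nat_lit 1180) (.e (nat_lit 2675) (nat_lit 168) (.e (nat_lit 204868) (nat_lit 29) (.e (nat_lit 360473) (nat_lit 8) (.e (nat_lit 557086) (nat_lit 11) .nil)))) (.g (nat_lit 0) (.e (nat_lit 43443) (nat_lit 0) .nil) .nil))) 
(.lf (nat_lit 457369) (.g (nat_lit 390) (.e (nat_lit 2682) (nat_lit 168) (.e (nat_lit 204861) (nat_lit 26) (.e (nat_lit 336186) (nat_lit 11) .nil))) (.g (nat_lit 0) (.e (nat_lit 44610) (nat_lit 0) .nil) .nil)))) (.nd (nat_lit 9) 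
(.lf (nat_lit 457113) (.g (nat_lit 2488) (.e (nat_lit 2681) (nat_lit 168) (.e (nat_lit 204829) (nat_lit 18) (.e (nat_lit 57928) (nat_lit 282) (.e (nat_lit 163871) (nat_lit 2) (.e (nat_lit 196670) (nat_lit 14) (.e (nat_lit 73746) (nat_lit 3) (.e (nat_lit 516124) (nat_lit 2) (.e (nat_lit 213019) (nat_lit 9) .nil)))))))) (.g (nat_lit 1) (.e (nat_lit 43999) (nat_lit 0) .nil) .nil))) 
(.lf (nat_lit 457625) (.g (nat_lit 2289) (.e (nat_lit 2684) (nat_lit 168) (.e (nat_lit 204829) (nat_lit 18) (.e (nat_lit 57927) (nat_lit 282) (.e (nat_lit 163871) (nat_lit 2) (.e (nat_lit 196670) (nat_lit 14) (.e (nat_lit 73746) (nat_lit 3) (.e (nat_lit 516124) (nat_lit 2) (.e (nat_lit 213019) (nat_lit 9) .nil)))))))) (.g (nat_lit 1) (.e (nat_lit 45398) (nat_lit 0) .nil) .nil)))))) 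
(.nd (nat_lit 7) (.nd (nat_lit 8) (.nd (nat_lit 9) 
(.lf (nat_lit 456793) (.g (nat_lit 1123) (.e (nat_lit 2668) (nat_lit 167) (.e (nat_lit 196672) (nat_lit 15) (.e (nat_lit 81943) (nat_lit 20) (.e (nat_lit 1841) (nat_lit 123) .nil)))) (.g (nat_lit 0) (.e (nat_lit 43295) (nat_lit 0) .nil) .nil))) 
(.lf (nat_lit 457305) (.g (nat_lit 3722) (.e (nat_lit 2681) (nat_lit 168) (.e (nat_lit 204869) (nat_lit 29) (.e (nat_lit 360475) (nat_lit 8) (.e (nat_lit 557067) (nat_lit 9) .nil)))) (.g (nat_lit 0) (.e (nat_lit 44393) (nat_lit 0) .nil) .nil)))) (.nd (nat_lit 9) 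
(.lf (nat_lit 457049) (.g (nat_lit 3136) (.e (nat_lit 2680) (nat_lit 168) (.e (nat_lit 204829) (nat_lit 18) (.e (nat_lit 57931) (nat_lit 282) (.e (nat_lit 163869) (nat_lit 2) (.e (nat_lit 196670) (nat_lit 14) (.e (nat_lit 73746) (nat_lit 3) (.e (nat_lit 516124) (nat_lit 2) (.e (nat_lit 213008) (nat_lit 9) .nil)))))))) (.g (nat_lit 1) (.e (nat_lit 43889) (nat_lit 0) .nil) .nil))) 
(.lf (nat_lit 457561) (.g (nat_lit 2320) (.e (nat_lit 2683) (nat_lit 168) (.e (nat_lit 204829) (nat_lit 18) (.e (nat_lit 57927) (nat_lit 282) (.e (nat_lit 163871) (nat_lit 2) (.e (nat_lit 196668) (nat_lit 14) (.e (nat_lit 73747) (nat_lit 3) (.e (nat_lit 516124) (nat_lit 2) (.e (nat_lit 213022) (nat_lit 9) .nil)))))))) (.g (nat_lit 1) (.e (nat_lit 45256) (nat_lit 0) .nil) .nil))))) 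
(.nd (nat_lit 8) (.nd (nat_lit 9) 
(.lf (nat_lit 456921) (.g (nat_lit 3492) (.e (nat_lit 2679) (nat_lit 168) (.e (nat_lit 204846) (nat_lit 24) (.e (nat_lit 319531) (nat_lit 16) (.e (nat_lit 286735) (nat_lit 3) (.e (nat_lit 98367) (nat_lit 27) (.e (nat_lit 442112) (nat_lit 8) .nil)))))) (.g (nat_lit 1) (.e (nat_lit 43656) (nat_lit 0) .nil) .nil))) 
(.lf (nat_lit 457433) (.g (nat_lit 2120) (.e (nat_lit 2682) (nat_lit 168) (.e (nat_lit 204869) (nat_lit 29) (.e (nat_lit 360448) (nat_lit 0) (.e (nat_lit 3927) (nat_lit 239) .nil)))) (.g (nat_lit 0) (.e (nat_lit 44754) (nat_lit 0) .nil) .nil)))) (.nd (nat_lit 9) 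
(.lf (nat_lit 457177) (.g (nat_lit 1444) (.e (nat_lit 2681) (nat_lit 168) (.e (nat_lit 204831) (nat_lit 18) (.e (nat_lit 57931) (nat_lit 282) (.e (nat_lit 163874) (nat_lit 3) .nil)))) (.g (nat_lit 0) (.e (nat_lit 44084) (nat_lit 0) .nil) .nil))) 
(.lf (nat_lit 457689) (.g (nat_lit 2786) (.e (nat_lit 2684) (nat_lit 168) (.e (nat_lit 204831) (nat_lit 18) (.e (nat_lit 57931) (nat_lit 282) (.e (nat_lit 163869) (nat_lit 2) (.e (nat_lit 196670) (nat_lit 14) (.e (nat_lit 73746) (nat_lit 3) (.e (nat_lit 516127) (nat_lit 2) (.e (nat_lit 213019) (nat_lit 9) .nil)))))))) (.g (nat_lit 1) (.e (nat_lit 45496) (nat_lit 0) .nil) .nil))))))) 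
(.nd (nat_lit 6) (.nd (nat_lit 7) (.nd (nat_lit 8) (.nd (nat_lit 9) 
(.lf (nat_lit 456761) (.g (nat_lit 2299) (.e (nat_lit 2668) (nat_lit 167) (.e (nat_lit 196668) (nat_lit 14) (.e (nat_lit 73782) (nat_lit 32) (.e (nat_lit 2664) (nat_lit 167) (.e (nat_lit 196670) (nat_lit 14) (.e (nat_lit 81664) (nat_lit 32) .nil)))))) (.g (nat_lit 1) (.e (nat_lit 43252) (nat_lit 0) .nil) .nil))) 
(.lf (nat_lit 457273) (.g (nat_lit 3030) (.e (nat_lit 2681) (nat_lit 168) (.e (nat_lit 204863) (nat_lit 27) (.e (nat_lit 344133) (nat_lit 26) (.e (nat_lit 557105) (nat_lit 14) (.e (nat_lit 180251) (nat_lit 10) .nil))))) (.g (nat_lit 0) (.e (nat_lit 44246) (nat_lit 0) .nil) .nil)))) (.nd (nat_lit 9) 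
(.lf (nat_lit 457017) (.g (nat_lit 2495) (.e (nat_lit 2679) (nat_lit 168) (.e (nat_lit 204869) (nat_lit 29) (.e (nat_lit 360474) (nat_lit 8) (.e (nat_lit 557070) (nat_lit 9) (.e (nat_lit 7936) (nat_lit 22) .nil))))) (.g (nat_lit 0) (.e (nat_lit 43831) (nat_lit 0) .nil) .nil))) 
(.lf (nat_lit 457529) (.g (nat_lit 4098) (.e (nat_lit 2682) (nat_lit 168) (.e (nat_lit 204869) (nat_lit 29) (.e (nat_lit 360475) (nat_lit 8) (.e (nat_lit 564992) (nat_lit 9) .nil)))) (.g (nat_lit 0) (.e (nat_lit 45119) (nat_lit 0) .nil) .nil))))) (.nd (nat_lit 8) (.nd (nat_lit 9) 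
(.lf (nat_lit 456889) (.g (nat_lit 2452) (.e (nat_lit 2678) (nat_lit 168) (.e (nat_lit 204829) (nat_lit 18) (.e (nat_lit 57927) (nat_lit 282) (.e (nat_lit 163875) (nat_lit 3) (.e (nat_lit 204862) (nat_lit 27) .nil))))) (.g (nat_lit 0) (.e (nat_lit 43501) (nat_lit 0) .nil) .nil))) 
(.lf (nat_lit 457401) (.g (nat_lit 1686) (.e (nat_lit 2682) (nat_lit 168) (.e (nat_lit 204863) (nat_lit 27) (.e (nat_lit 344133) (nat_lit 26) (.e (nat_lit 557098) (nat_lit 13) .nil)))) (.g (nat_lit 0) (.e (nat_lit 44660) (nat_lit 0) .nil) .nil)))) (.nd (nat_lit 9) 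
(.lf (nat_lit 457145) (.g (nat_lit 4307) (.e (nat_lit 2681) (nat_lit 168) (.e (nat_lit 204830) (nat_lit 18) (.e (nat_lit 57926) (nat_lit 282) (.e (nat_lit 163869) (nat_lit 2) (.e (nat_lit 196670) (nat_lit 14) (.e (nat_lit 73746) (nat_lit 3) (.e (nat_lit 516127) (nat_lit 2) (.e (nat_lit 213019) (nat_lit 9) .nil)))))))) (.g (nat_lit 1) (.e (nat_lit 44040) (nat_lit 0) .nil) .nil))) 
(.lf (nat_lit 457657) (.g (nat_lit 3043) (.e (nat_lit 2684) (nat_lit 168) (.e (nat_lit 204830) (nat_lit 18) (.e (nat_lit 57927) (nat_lit 282) (.e (nat_lit 163866) (nat_lit 2) (.e (nat_lit 196670) (nat_lit 14) (.e (nat_lit 73746) (nat_lit 3) (.e (nat_lit 516124) (nat_lit 2) (.e (nat_lit 213013) (nat_lit 9) .nil)))))))) (.g (nat_lit 1) (.e (nat_lit 45446) (nat_lit 0) .nil) .nil)))))) 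
(.nd (nat_lit 7) (.nd (nat_lit 8) (.nd (nat_lit 9) 
(.lf (nat_lit 456825) (.g (nat_lit 2107) (.e (nat_lit 2672) (nat_lit 168) (.e (nat_lit 204868) (nat_lit 29) (.e (nat_lit 360466) (nat_lit 3) (.e (nat_lit 516139) (nat_lit 7) .nil)))) (.g (nat_lit 0) (.e (nat_lit 43349) (nat_lit 0) .nil) .nil))) 
(.lf (nat_lit 457337) (.g (nat_lit 1643) (.e (nat_lit 2682) (nat_lit 168) (.e (nat_lit 204846) (nat_lit 24) (.e (nat_lit 319504) (nat_lit 10) (.e (nat_lit 5714) (nat_lit 312) .nil)))) (.g (nat_lit 0) (.e (nat_lit 44531) (nat_lit 0) .nil) .nil)))) (.nd (nat_lit 9) 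
(.lf (nat_lit 457081) (.g (nat_lit 3709) (.e (nat_lit 2681) (nat_lit 168) (.e (nat_lit 204829) (nat_lit 18) (.e (nat_lit 57927) (nat_lit 282) (.e (nat_lit 163868) (nat_lit 2) (.e (nat_lit 196668) (nat_lit 14) (.e (nat_lit 73746) (nat_lit 3) (.e (nat_lit 516124) (nat_lit 2) (.e (nat_lit 213019) (nat_lit 9) .nil)))))))) (.g (nat_lit 1) (.e (nat_lit 43963) (nat_lit 0) .nil) .nil))) 
(.lf (nat_lit 457593) (.g (nat_lit 2880) (.e (nat_lit 2683) (nat_lit 168) (.e (nat_lit 204830) (nat_lit 18) (.e (nat_lit 57926) (nat_lit 282) (.e (nat_lit 163875) (nat_lit 3) (.e (nat_lit 204862) (nat_lit 27) (.e (nat_lit 344117) (nat_lit 21) (.e (nat_lit 516123) (nat_lit 2) (.e (nat_lit 213000) (nat_lit 9) .nil)))))))) (.g (nat_lit 1) (.e (nat_lit 45295) (nat_lit 0) .nil) .nil))))) 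
(.nd (nat_lit 8) (.nd (nat_lit 9) 
(.lf (nat_lit 456953) (.g (nat_lit 2141) (.e (nat_lit 2679) (nat_lit 168) (.e (nat_lit 204850) (nat_lit 26) (.e (nat_lit 336205) (nat_lit 12) (.e (nat_lit 385074) (nat_lit 31) (.e (nat_lit 573489) (nat_lit 14) (.e (nat_lit 81664) (nat_lit 32) .nil)))))) (.g (nat_lit 1) (.e (nat_lit 43703) (nat_lit 0) .nil) .nil))) 
(.lf (nat_lit 457465) (.g (nat_lit 2656) (.e (nat_lit 2682) (nat_lit 168) (.e (nat_lit 204869) (nat_lit 29) (.e (nat_lit 360453) (nat_lit 0) (.e (nat_lit 3946) (nat_lit 239) .nil)))) (.g (nat_lit 0) (.e (nat_lit 44815) (nat_lit 0) .nil) .nil)))) (.nd (nat_lit 9) 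
(.lf (nat_lit 457209) (.g (nat_lit 1444) (.e (nat_lit 2681) (nat_lit 168) (.e (nat_lit 204863) (nat_lit 27) (.e (nat_lit 344117) (nat_lit 21) (.e (nat_lit 516130) (nat_lit 3) .nil)))) (.g (nat_lit 0) (.e (nat_lit 44182) (nat_lit 0) .nil) .nil))) 
(.lf (nat_lit 457721) (.g (nat_lit 1837) (.e (nat_lit 2684) (nat_lit 168) (.e (nat_lit 204861) (nat_lit 26) (.e (nat_lit 336204) (nat_lit 12) (.e (nat_lit 385074) (nat_lit 31) (.e (nat_lit 573489) (nat_lit 14) .nil))))) (.g (nat_lit 0) (.e (nat_lit 45573) (nat_lit 0) .nil) .nil)))))))))) 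
(.nd (nat_lit 3) (.nd (nat_lit 4) (.nd (nat_lit 5) (.nd (nat_lit 6) (.nd (nat_lit 7) 
(.nd (nat_lit 8) (.nd (nat_lit 9) 
(.lf (nat_lit 456709) (.g (nat_lit 3348) (.e (nat_lit 2668) (nat_lit 167) (.e (nat_lit 196666) (nat_lit 13) (.e (nat_lit 65624) (nat_lit 12) (.e (nat_lit 385074) (nat_lit 31) (.e (nat_lit 573488) (nat_lit 14) (.e (nat_lit 81664) (nat_lit 32) .nil)))))) (.g (nat_lit 1) (.e (nat_lit 43177) (nat_lit 0) .nil) .nil))) 
(.lf (nat_lit 457221) (.g (nat_lit 2433) (.e (nat_lit 2681) (nat_lit 168) (.e (nat_lit 204863) (nat_lit 27) (.e (nat_lit 344130) (nat_lit 26) (.e (nat_lit 557097) (nat_lit 13) (.e (nat_lit 172133) (nat_lit 15) .nil))))) (.g (nat_lit 0) (.e (nat_lit 44194) (nat_lit 0) .nil) .nil)))) (.nd (nat_lit 9) 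
(.lf (nat_lit 456965) (.g (nat_lit 1950) (.e (nat_lit 2679) (nat_lit 168) (.e (nat_lit 204863) (nat_lit 27) (.e (nat_lit 344117) (nat_lit 21) (.e (nat_lit 516130) (nat_lit 3) .nil)))) (.g (nat_lit 0) (.e (nat_lit 43735) (nat_lit 0) .nil) .nil))) 
(.lf (nat_lit 457477) (.g (nat_lit 2691) (.e (nat_lit 2682) (nat_lit 168) (.e (nat_lit 204869) (nat_lit 29) (.e (nat_lit 360472) (nat_lit 8) (.e (nat_lit 557067) (nat_lit 9) .nil)))) (.g (nat_lit 0) (.e (nat_lit 44914) (nat_lit 0) .nil) .nil))))) (.nd (nat_lit 8) (.nd (nat_lit 9) 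
(.lf (nat_lit 456837) (.g (nat_lit 2461) (.e (nat_lit 2675) (nat_lit 168) (.e (nat_lit 204829) (nat_lit 18) (.e (nat_lit 57927) (nat_lit 282) (.e (nat_lit 163868) (nat_lit 2) (.e (nat_lit 196670) (nat_lit 14) .nil))))) (.g (nat_lit 0) (.e (nat_lit 43402) (nat_lit 0) .nil) .nil))) 
(.lf (nat_lit 457349) (.g (nat_lit 3412) (.e (nat_lit 2682) (nat_lit 168) (.e (nat_lit 204849) (nat_lit 25) (.e (nat_lit 327699) (nat_lit 8) (.e (nat_lit 303117) (nat_lit 2) (.e (nat_lit 196669) (nat_lit 14) (.e (nat_lit 73781) (nat_lit 32) .nil)))))) (.g (nat_lit 1) (.e (nat_lit 44552) (nat_lit 0) .nil) .nil)))) (.nd (nat_lit 9) 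
(.lf (nat_lit 457093) (.g (nat_lit 3397) (.e (nat_lit 2681) (nat_lit 168) (.e (nat_lit 204829) (nat_lit 18) (.e (nat_lit 57927) (nat_lit 282) (.e (nat_lit 163869) (nat_lit 2) (.e (nat_lit 196670) (nat_lit 14) (.e (nat_lit 73746) (nat_lit 3) (.e (nat_lit 516124) (nat_lit 2) (.e (nat_lit 213022) (nat_lit 9) .nil)))))))) (.g (nat_lit 1) (.e (nat_lit 43979) (nat_lit 0) .nil) .nil))) 
(.lf (nat_lit 457605) (.g (nat_lit 3090) (.e (nat_lit 2684) (nat_lit 168) (.e (nat_lit 204829) (nat_lit 18) (.e (nat_lit 57847) (nat_lit 252) (.e (nat_lit 57372) (nat_lit 2) (.e (nat_lit 90160) (nat_lit 11) (.e (nat_lit 24608) (nat_lit 3) (.e (nat_lit 98338) (nat_lit 19) (.e (nat_lit 213013) (nat_lit 9) .nil)))))))) (.g (nat_lit 1) (.e (nat_lit 45371) (nat_lit 0) .nil) .nil)))))) 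
(.nd (nat_lit 7) (.nd (nat_lit 8) (.nd (nat_lit 9) 
(.lf (nat_lit 456773) (.g (nat_lit 2993) (.e (nat_lit 2668) (nat_lit 167) (.e (nat_lit 196670) (nat_lit 14) (.e (nat_lit 73754) (nat_lit 8) (.e (nat_lit 557105) (nat_lit 14) (.e (nat_lit 180252) (nat_lit 10) (.e (nat_lit 573473) (nat_lit 12) (.e (nat_lit 57508) (nat_lit 39) (.e (nat_lit 647168) (nat_lit 0) .nil)))))))) (.g (nat_lit 1) (.e (nat_lit 43267) (nat_lit 0) .nil) .nil))) 
(.lf (nat_lit 457285) (.g (nat_lit 1920) (.e (nat_lit 2681) (nat_lit 168) (.e (nat_lit 204868) (nat_lit 29) (.e (nat_lit 360466) (nat_lit 3) (.e (nat_lit 516139) (nat_lit 7) (.e (nat_lit 409616) (nat_lit 10) (.e (nat_lit 7936) (nat_lit 312) .nil)))))) (.g (nat_lit 1) (.e (nat_lit 44292) (nat_lit 0) .nil) .nil)))) (.nd (nat_lit 9) 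
(.lf (nat_lit 457029) (.g (nat_lit 4637) (.e (nat_lit 2679) (nat_lit 168) (.e (nat_lit 204869) (nat_lit 29) (.e (nat_lit 360475) (nat_lit 8) (.e (nat_lit 557086) (nat_lit 11) (.e (nat_lit 24580) (nat_lit 0) (.e (nat_lit 6665) (nat_lit 357) .nil)))))) (.g (nat_lit 1) (.e (nat_lit 43847) (nat_lit 0) .nil) .nil))) 
(.lf (nat_lit 457541) (.g (nat_lit 5219) (.e (nat_lit 2682) (nat_lit 168) (.e (nat_lit 204869) (nat_lit 29) (.e (nat_lit 360475) (nat_lit 8) (.e (nat_lit 557087) (nat_lit 11) (.e (nat_lit 24584) (nat_lit 0) (.e (nat_lit 6677) (nat_lit 357) .nil)))))) (.g (nat_lit 1) (.e (nat_lit 45132) (nat_lit 0) .nil) .nil))))) (.nd (nat_lit 8) (.nd (nat_lit 9) 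
(.lf (nat_lit 456901) (.g (nat_lit 2690) (.e (nat_lit 2679) (nat_lit 168) (.e (nat_lit 204829) (nat_lit 18) (.e (nat_lit 57927) (nat_lit 282) (.e (nat_lit 163869) (nat_lit 2) (.e (nat_lit 196670) (nat_lit 14) (.e (nat_lit 73746) (nat_lit 3) (.e (nat_lit 516127) (nat_lit 2) (.e (nat_lit 220928) (nat_lit 9) .nil)))))))) (.g (nat_lit 1) (.e (nat_lit 43567) (nat_lit 0) .nil) .nil))) 
(.lf (nat_lit 457413) (.g (nat_lit 3261) (.e (nat_lit 2682) (nat_lit 168) (.e (nat_lit 204863) (nat_lit 27) (.e (nat_lit 344133) (nat_lit 26) (.e (nat_lit 557105) (nat_lit 14) (.e (nat_lit 180252) (nat_lit 10) (.e (nat_lit 573475) (nat_lit 12) (.e (nat_lit 57507) (nat_lit 39) (.e (nat_lit 647177) (nat_lit 0) .nil)))))))) (.g (nat_lit 1) (.e (nat_lit 44672) (nat_lit 0) .nil) .nil)))) 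
(.nd (nat_lit 9) 
(.lf (nat_lit 457157) (.g (nat_lit 2508) (.e (nat_lit 2681) (nat_lit 168) (.e (nat_lit 204830) (nat_lit 18) (.e (nat_lit 57927) (nat_lit 282) (.e (nat_lit 163869) (nat_lit 2) (.e (nat_lit 196670) (nat_lit 14) (.e (nat_lit 73746) (nat_lit 3) (.e (nat_lit 516124) (nat_lit 2) (.e (nat_lit 213013) (nat_lit 9) .nil)))))))) (.g (nat_lit 1) (.e (nat_lit 44054) (nat_lit 0) .nil) .nil))) 
(.lf (nat_lit 457669) (.g (nat_lit 2539) (.e (nat_lit 2684) (nat_lit 168) (.e (nat_lit 204830) (nat_lit 18) (.e (nat_lit 57927) (nat_lit 282) (.e (nat_lit 163869) (nat_lit 2) (.e (nat_lit 196670) (nat_lit 14) (.e (nat_lit 73746) (nat_lit 3) (.e (nat_lit 516127) (nat_lit 2) (.e (nat_lit 213019) (nat_lit 9) .nil)))))))) (.g (nat_lit 1) (.e (nat_lit 45460) (nat_lit 0) .nil) .nil))))))) 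
(.nd (nat_lit 6) (.nd (nat_lit 7) (.nd (nat_lit 8) (.nd (nat_lit 9) 
(.lf (nat_lit 456741) (.g (nat_lit 3082) (.e (nat_lit 2668) (nat_lit 167) (.e (nat_lit 196666) (nat_lit 13) (.e (nat_lit 65630) (nat_lit 14) (.e (nat_lit 401425) (nat_lit 2) (.e (nat_lit 196628) (nat_lit 9) (.e (nat_lit 1518) (nat_lit 108) (.e (nat_lit 335874) (nat_lit 0) (.e (nat_lit 6618) (nat_lit 357) .nil)))))))) (.g (nat_lit 1) (.e (nat_lit 43223) (nat_lit 0) .nil) .nil))) 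
(.lf (nat_lit 457253) (.g (nat_lit 2208) (.e (nat_lit 2681) (nat_lit 168) (.e (nat_lit 204863) (nat_lit 27) (.e (nat_lit 344132) (nat_lit 26) (.e (nat_lit 557105) (nat_lit 14) (.e (nat_lit 180252) (nat_lit 10) (.e (nat_lit 573475) (nat_lit 12) (.e (nat_lit 57507) (nat_lit 39) (.e (nat_lit 655104) (nat_lit 0) .nil)))))))) (.g (nat_lit 1) (.e (nat_lit 44226) (nat_lit 0) .nil) .nil)))) 
(.nd (nat_lit 9) 
(.lf (nat_lit 456997) (.g (nat_lit 2029) (.e (nat_lit 2679) (nat_lit 168) (.e (nat_lit 204868) (nat_lit 29) (.e (nat_lit 360466) (nat_lit 3) (.e (nat_lit 516142) (nat_lit 8) (.e (nat_lit 417814) (nat_lit 10) (.e (nat_lit 5652) (nat_lit 312) .nil)))))) (.g (nat_lit 1) (.e (nat_lit 43777) (nat_lit 0) .nil) .nil))) 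
(.lf (nat_lit 457509) (.g (nat_lit 4466) (.e (nat_lit 2682) (nat_lit 168) (.e (nat_lit 204869) (nat_lit 29) (.e (nat_lit 360474) (nat_lit 8) (.e (nat_lit 557085) (nat_lit 11) .nil)))) (.g (nat_lit 0) (.e (nat_lit 44950) (nat_lit 0) .nil) .nil))))) (.nd (nat_lit 8) (.nd (nat_lit 9) 
(.lf (nat_lit 456869) (.g (nat_lit 4460) (.e (nat_lit 2675) (nat_lit 168) (.e (nat_lit 204869) (nat_lit 29) (.e (nat_lit 360475) (nat_lit 8) (.e (nat_lit 557086) (nat_lit 11) (.e (nat_lit 24580) (nat_lit 0) (.e (nat_lit 6624) (nat_lit 357) .nil)))))) (.g (nat_lit 1) (.e (nat_lit 43460) (nat_lit 0) .nil) .nil))) 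
(.lf (nat_lit 457381) (.g (nat_lit 2842) (.e (nat_lit 2682) (nat_lit 168) (.e (nat_lit 204863) (nat_lit 27) (.e (nat_lit 344129) (nat_lit 26) (.e (nat_lit 557067) (nat_lit 9) (.e (nat_lit 2878) (nat_lit 184) .nil))))) (.g (nat_lit 0) (.e (nat_lit 44640) (nat_lit 0) .nil) .nil)))) (.nd (nat_lit 9) 
(.lf (nat_lit 457125) (.g (nat_lit 2095) (.e (nat_lit 2681) (nat_lit 168) (.e (nat_lit 204830) (nat_lit 18) (.e (nat_lit 57926) (nat_lit 282) (.e (nat_lit 163866) (nat_lit 2) .nil)))) (.g (nat_lit 0) (.e (nat_lit 44017) (nat_lit 0) .nil) .nil))) 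
(.lf (nat_lit 457637) (.g (nat_lit 2928) (.e (nat_lit 2684) (nat_lit 168) (.e (nat_lit 204830) (nat_lit 18) (.e (nat_lit 57924) (nat_lit 282) (.e (nat_lit 163867) (nat_lit 2) (.e (nat_lit 196670) (nat_lit 14) (.e (nat_lit 73746) (nat_lit 3) (.e (nat_lit 516124) (nat_lit 2) (.e (nat_lit 213019) (nat_lit 9) .nil)))))))) (.g (nat_lit 1) (.e (nat_lit 45419) (nat_lit 0) .nil) .nil)))))) 
(.nd (nat_lit 7) (.nd (nat_lit 8) (.nd (nat_lit 9) 
(.lf (nat_lit 456805) (.g (nat_lit 3607) (.e (nat_lit 2668) (nat_lit 167) (.e (nat_lit 196674) (nat_lit 15) (.e (nat_lit 81956) (nat_lit 23) (.e (nat_lit 98353) (nat_lit 25) (.e (nat_lit 417820) (nat_lit 10) (.e (nat_lit 5626) (nat_lit 312) .nil)))))) (.g (nat_lit 1) (.e (nat_lit 43308) (nat_lit 0) .nil) .nil))) 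
(.lf (nat_lit 457317) (.g (nat_lit 3493) (.e (nat_lit 2682) (nat_lit 168) (.e (nat_lit 204816) (nat_lit 17) (.e (nat_lit 6722) (nat_lit 362) (.e (nat_lit 180244) (nat_lit 5) (.e (nat_lit 532523) (nat_lit 7) (.e (nat_lit 319505) (nat_lit 10) (.e (nat_lit 5714) (nat_lit 312) .nil))))))) (.g (nat_lit 1) (.e (nat_lit 44496) (nat_lit 0) .nil) .nil)))) (.nd (nat_lit 9) 
(.lf (nat_lit 457061) (.g (nat_lit 763) (.e (nat_lit 2680) (nat_lit 168) (.e (nat_lit 204869) (nat_lit 29) (.e (nat_lit 360474) (nat_lit 8) .nil))) (.g (nat_lit 0) (.e (nat_lit 43909) (nat_lit 0) .nil) .nil))) 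
(.lf (nat_lit 457573) (.g (nat_lit 4753) (.e (nat_lit 2683) (nat_lit 168) (.e (nat_lit 204829) (nat_lit 18) (.e (nat_lit 57931) (nat_lit 282) (.e (nat_lit 163869) (nat_lit 2) (.e (nat_lit 196670) (nat_lit 14) (.e (nat_lit 73746) (nat_lit 3) (.e (nat_lit 516124) (nat_lit 2) (.e (nat_lit 213019) (nat_lit 9) .nil)))))))) (.g (nat_lit 1) (.e (nat_lit 45273) (nat_lit 0) .nil) .nil))))) 
(.nd (nat_lit 8) (.nd (nat_lit 9) 
(.lf (nat_lit 456933) (.g (nat_lit 3303) (.e (nat_lit 2679) (nat_lit 168) (.e (nat_lit 204846) (nat_lit 24) (.e (nat_lit 319533) (nat_lit 16) (.e (nat_lit 286734) (nat_lit 3) (.e (nat_lit 98368) (nat_lit 27) (.e (nat_lit 442112) (nat_lit 8) .nil)))))) (.g (nat_lit 1) (.e (nat_lit 43674) (nat_lit 0) .nil) .nil))) 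
(.lf (nat_lit 457445) (.g (nat_lit 3538) (.e (nat_lit 2682) (nat_lit 168) (.e (nat_lit 204869) (nat_lit 29) (.e (nat_lit 360450) (nat_lit 0) (.e (nat_lit 3950) (nat_lit 239) (.e (nat_lit 7936) (nat_lit 89) .nil))))) (.g (nat_lit 0) (.e (nat_lit 44771) (nat_lit 0) .nil) .nil)))) (.nd (nat_lit 9) 
(.lf (nat_lit 457189) (.g (nat_lit 3228) (.e (nat_lit 2681) (nat_lit 168) (.e (nat_lit 204861) (nat_lit 26) (.e (nat_lit 336204) (nat_lit 12) (.e (nat_lit 385074) (nat_lit 31) (.e (nat_lit 573487) (nat_lit 14) (.e (nat_lit 73782) (nat_lit 32) .nil)))))) (.g (nat_lit 1) (.e (nat_lit 44158) (nat_lit 0) .nil) .nil))) 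
(.lf (nat_lit 457701) (.g (nat_lit 2466) (.e (nat_lit 2684) (nat_lit 168) (.e (nat_lit 204846) (nat_lit 24) (.e (nat_lit 319532) (nat_lit 16) (.e (nat_lit 286735) (nat_lit 3) (.e (nat_lit 98367) (nat_lit 27) .nil))))) (.g (nat_lit 0) (.e (nat_lit 45527) (nat_lit 0) .nil) .nil)))))))) (.nd (nat_lit 5) (.nd (nat_lit 6) (.nd (nat_lit 7) (.nd (nat_lit 8) (.nd (nat_lit 9) 
(.lf (nat_lit 456725) (.g (nat_lit 4344) (.e (nat_lit 2668) (nat_lit 167) (.e (nat_lit 196666) (nat_lit 13) (.e (nat_lit 65628) (nat_lit 14) (.e (nat_lit 401428) (nat_lit 3) (.e (nat_lit 204846) (nat_lit 24) (.e (nat_lit 319490) (nat_lit 0) (.e (nat_lit 5626) (nat_lit 312) .nil))))))) (.g (nat_lit 1) (.e (nat_lit 43204) (nat_lit 0) .nil) .nil))) 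
(.lf (nat_lit 457237) (.g (nat_lit 3544) (.e (nat_lit 2681) (nat_lit 168) (.e (nat_lit 204863) (nat_lit 27) (.e (nat_lit 344131) (nat_lit 26) (.e (nat_lit 557105) (nat_lit 14) (.e (nat_lit 180252) (nat_lit 10) (.e (nat_lit 573475) (nat_lit 12) (.e (nat_lit 57507) (nat_lit 39) (.e (nat_lit 647176) (nat_lit 0) .nil)))))))) (.g (nat_lit 1) (.e (nat_lit 44210) (nat_lit 0) .nil) .nil)))) 
(.nd (nat_lit 9) 
(.lf (nat_lit 456981) (.g (nat_lit 2127) (.e (nat_lit 2679) (nat_lit 168) (.e (nat_lit 204866) (nat_lit 28) (.e (nat_lit 352315) (nat_lit 23) (.e (nat_lit 98349) (nat_lit 24) .nil)))) (.g (nat_lit 0) (.e (nat_lit 43758) (nat_lit 0) .nil) .nil))) 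
(.lf (nat_lit 457493) (.g (nat_lit 3745) (.e (nat_lit 2682) (nat_lit 168) (.e (nat_lit 204869) (nat_lit 29) (.e (nat_lit 360473) (nat_lit 8) (.e (nat_lit 557087) (nat_lit 11) (.e (nat_lit 24588) (nat_lit 0) (.e (nat_lit 6680) (nat_lit 357) .nil)))))) (.g (nat_lit 1) (.e (nat_lit 44930) (nat_lit 0) .nil) .nil))))) (.nd (nat_lit 8) (.nd (nat_lit 9) 
(.lf (nat_lit 456853) (.g (nat_lit 2785) (.e (nat_lit 2675) (nat_lit 168) (.e (nat_lit 204863) (nat_lit 27) (.e (nat_lit 344133) (nat_lit 26) (.e (nat_lit 557103) (nat_lit 14) (.e (nat_lit 180250) (nat_lit 10) .nil))))) (.g (nat_lit 0) (.e (nat_lit 43432) (nat_lit 0) .nil) .nil))) 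
(.lf (nat_lit 457365) (.g (nat_lit 2880) (.e (nat_lit 2682) (nat_lit 168) (.e (nat_lit 204859) (nat_lit 26) (.e (nat_lit 336206) (nat_lit 12) (.e (nat_lit 385074) (nat_lit 31) (.e (nat_lit 573487) (nat_lit 14) (.e (nat_lit 73782) (nat_lit 32) .nil)))))) (.g (nat_lit 1) (.e (nat_lit 44593) (nat_lit 0) .nil) .nil)))) (.nd (nat_lit 9) 
(.lf (nat_lit 457109) (.g (nat_lit 2222) (.e (nat_lit 2681) (nat_lit 168) (.e (nat_lit 204829) (nat_lit 18) (.e (nat_lit 57927) (nat_lit 282) (.e (nat_lit 163875) (nat_lit 3) (.e (nat_lit 204862) (nat_lit 27) .nil))))) (.g (nat_lit 0) (.e (nat_lit 43995) (nat_lit 0) .nil) .nil))) 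
(.lf (nat_lit 457621) (.g (nat_lit 2779) (.e (nat_lit 2684) (nat_lit 168) (.e (nat_lit 204829) (nat_lit 18) (.e (nat_lit 57927) (nat_lit 282) (.e (nat_lit 163868) (nat_lit 2) (.e (nat_lit 196670) (nat_lit 14) (.e (nat_lit 73746) (nat_lit 3) (.e (nat_lit 516124) (nat_lit 2) (.e (nat_lit 213019) (nat_lit 9) .nil)))))))) (.g (nat_lit 1) (.e (nat_lit 45391) (nat_lit 0) .nil) .nil)))))) 
(.nd (nat_lit 7) (.nd (nat_lit 8) (.nd (nat_lit 9) 
(.lf (nat_lit 456789) (.g (nat_lit 2724) (.e (nat_lit 2668) (nat_lit 167) (.e (nat_lit 196671) (nat_lit 15) (.e (nat_lit 81956) (nat_lit 23) (.e (nat_lit 98350) (nat_lit 24) (.e (nat_lit 409617) (nat_lit 10) .nil))))) (.g (nat_lit 0) (.e (nat_lit 43291) (nat_lit 0) .nil) .nil))) 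
(.lf (nat_lit 457301) (.g (nat_lit 3137) (.e (nat_lit 2681) (nat_lit 168) (.e (nat_lit 204869) (nat_lit 29) (.e (nat_lit 360474) (nat_lit 8) (.e (nat_lit 564992) (nat_lit 9) .nil)))) (.g (nat_lit 0) (.e (nat_lit 44385) (nat_lit 0) .nil) .nil)))) (.nd (nat_lit 9) 
(.lf (nat_lit 457045) (.g (nat_lit 2294) (.e (nat_lit 2680) (nat_lit 168) (.e (nat_lit 204829) (nat_lit 18) (.e (nat_lit 57927) (nat_lit 282) (.e (nat_lit 163868) (nat_lit 2) (.e (nat_lit 196670) (nat_lit 14) .nil))))) (.g (nat_lit 0) (.e (nat_lit 43883) (nat_lit 0) .nil) .nil))) 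
(.lf (nat_lit 457557) (.g (nat_lit 2235) (.e (nat_lit 2683) (nat_lit 168) (.e (nat_lit 204829) (nat_lit 18) (.e (nat_lit 57927) (nat_lit 282) (.e (nat_lit 163868) (nat_lit 2) (.e (nat_lit 196670) (nat_lit 14) (.e (nat_lit 73746) (nat_lit 3) (.e (nat_lit 516124) (nat_lit 2) (.e (nat_lit 213020) (nat_lit 9) .nil)))))))) (.g (nat_lit 1) (.e (nat_lit 45249) (nat_lit 0) .nil) .nil))))) 
(.nd (nat_lit 8) (.nd (nat_lit 9) 
(.lf (nat_lit 456917) (.g (nat_lit 3978) (.e (nat_lit 2679) (nat_lit 168) (.e (nat_lit 204846) (nat_lit 24) (.e (nat_lit 319530) (nat_lit 16) (.e (nat_lit 286735) (nat_lit 3) (.e (nat_lit 98367) (nat_lit 27) (.e (nat_lit 442112) (nat_lit 8) .nil)))))) (.g (nat_lit 1) (.e (nat_lit 43652) (nat_lit 0) .nil) .nil))) 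
(.lf (nat_lit 457429) (.g (nat_lit 4156) (.e (nat_lit 2682) (nat_lit 168) (.e (nat_lit 204868) (nat_lit 29) (.e (nat_lit 360475) (nat_lit 8) (.e (nat_lit 557087) (nat_lit 11) (.e (nat_lit 24584) (nat_lit 0) (.e (nat_lit 6666) (nat_lit 357) .nil)))))) (.g (nat_lit 1) (.e (nat_lit 44749) (nat_lit 0) .nil) .nil)))) (.nd (nat_lit 9) 
(.lf (nat_lit 457173) (.g (nat_lit 2560) (.e (nat_lit 2681) (nat_lit 168) (.e (nat_lit 204831) (nat_lit 18) (.e (nat_lit 57931) (nat_lit 282) (.e (nat_lit 163869) (nat_lit 2) (.e (nat_lit 196670) (nat_lit 14) (.e (nat_lit 73746) (nat_lit 3) (.e (nat_lit 516124) (nat_lit 2) (.e (nat_lit 213023) (nat_lit 9) .nil)))))))) (.g (nat_lit 1) (.e (nat_lit 44080) (nat_lit 0) .nil) .nil))) 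
(.lf (nat_lit 457685) (.g (nat_lit 2441) (.e (nat_lit 2684) (nat_lit 168) (.e (nat_lit 204831) (nat_lit 18) (.e (nat_lit 57924) (nat_lit 282) (.e (nat_lit 163875) (nat_lit 3) (.e (nat_lit 204862) (nat_lit 27) (.e (nat_lit 344117) (nat_lit 21) (.e (nat_lit 516123) (nat_lit 2) (.e (nat_lit 213013) (nat_lit 9) .nil)))))))) (.g (nat_lit 1) (.e (nat_lit 45484) (nat_lit 0) .nil) .nil))))))) 
(.nd (nat_lit 6) (.nd (nat_lit 7) (.nd (nat_lit 8) (.nd (nat_lit 9) 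
(.lf (nat_lit 456757) (.g (nat_lit 1031) (.e (nat_lit 2668) (nat_lit 167) (.e (nat_lit 196667) (nat_lit 14) (.e (nat_lit 81664) (nat_lit 35) (.e (nat_lit 163950) (nat_lit 21) (.e (nat_lit 500070) (nat_lit 19) (.e (nat_lit 81664) (nat_lit 32) .nil)))))) (.g (nat_lit 1) (.e (nat_lit 43246) (nat_lit 0) .nil) .nil))) 
(.lf (nat_lit 457269) (.g (nat_lit 4466) (.e (nat_lit 2681) (nat_lit 168) (.e (nat_lit 204863) (nat_lit 27) (.e (nat_lit 344133) (nat_lit 26) (.e (nat_lit 557103) (nat_lit 14) (.e (nat_lit 180250) (nat_lit 10) (.e (nat_lit 573474) (nat_lit 12) (.e (nat_lit 57507) (nat_lit 39) (.e (nat_lit 647176) (nat_lit 0) .nil)))))))) (.g (nat_lit 1) (.e (nat_lit 44242) (nat_lit 0) .nil) .nil)))) 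
(.nd (nat_lit 9) 
(.lf (nat_lit 457013) (.g (nat_lit 1424) (.e (nat_lit 2679) (nat_lit 168) (.e (nat_lit 204869) (nat_lit 29) (.e (nat_lit 360466) (nat_lit 3) (.e (nat_lit 516139) (nat_lit 7) .nil)))) (.g (nat_lit 0) (.e (nat_lit 43824) (nat_lit 0) .nil) .nil))) 
(.lf (nat_lit 457525) (.g (nat_lit 3251) (.e (nat_lit 2682) (nat_lit 168) (.e (nat_lit 204869) (nat_lit 29) (.e (nat_lit 360475) (nat_lit 8) (.e (nat_lit 557073) (nat_lit 9) .nil)))) (.g (nat_lit 0) (.e (nat_lit 45114) (nat_lit 0) .nil) .nil))))) (.nd (nat_lit 8) (.nd (nat_lit 9) 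
(.lf (nat_lit 456885) (.g (nat_lit 4300) (.e (nat_lit 2677) (nat_lit 168) (.e (nat_lit 204869) (nat_lit 29) (.e (nat_lit 360475) (nat_lit 8) (.e (nat_lit 557068) (nat_lit 9) .nil)))) (.g (nat_lit 0) (.e (nat_lit 43497) (nat_lit 0) .nil) .nil))) 
(.lf (nat_lit 457397) (.g (nat_lit 3510) (.e (nat_lit 2682) (nat_lit 168) (.e (nat_lit 204863) (nat_lit 27) (.e (nat_lit 344132) (nat_lit 26) (.e (nat_lit 557105) (nat_lit 14) (.e (nat_lit 180252) (nat_lit 10) (.e (nat_lit 573473) (nat_lit 12) (.e (nat_lit 57511) (nat_lit 39) (.e (nat_lit 647177) (nat_lit 0) .nil)))))))) (.g (nat_lit 1) (.e (nat_lit 44656) (nat_lit 0) .nil) .nil)))) 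
(.nd (nat_lit 9) 
(.lf (nat_lit 457141) (.g (nat_lit 3562) (.e (nat_lit 2681) (nat_lit 168) (.e (nat_lit 204830) (nat_lit 18) (.e (nat_lit 57926) (nat_lit 282) (.e (nat_lit 163869) (nat_lit 2) (.e (nat_lit 196670) (nat_lit 14) (.e (nat_lit 73746) (nat_lit 3) (.e (nat_lit 516124) (nat_lit 2) (.e (nat_lit 213020) (nat_lit 9) .nil)))))))) (.g (nat_lit 1) (.e (nat_lit 44036) (nat_lit 0) .nil) .nil))) 
(.lf (nat_lit 457653) (.g (nat_lit 2872) (.e (nat_lit 2684) (nat_lit 168) (.e (nat_lit 204830) (nat_lit 18) (.e (nat_lit 57926) (nat_lit 282) (.e (nat_lit 163874) (nat_lit 3) (.e (nat_lit 204863) (nat_lit 27) (.e (nat_lit 344117) (nat_lit 21) (.e (nat_lit 516123) (nat_lit 2) (.e (nat_lit 213013) (nat_lit 9) .nil)))))))) (.g (nat_lit 1) (.e (nat_lit 45441) (nat_lit 0) .nil) .nil)))))) 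
(.nd (nat_lit 7) (.nd (nat_lit 8) (.nd (nat_lit 9) 
(.lf (nat_lit 456821) (.g (nat_lit 1147) (.e (nat_lit 7936) (nat_lit 167) (.e (nat_lit 196672) (nat_lit 15) (.e (nat_lit 81954) (nat_lit 23) (.e (nat_lit 98350) (nat_lit 24) .nil)))) (.g (nat_lit 0) (.e (nat_lit 43331) (nat_lit 0) .nil) .nil))) 
(.lf (nat_lit 457333) (.g (nat_lit 4206) (.e (nat_lit 2682) (nat_lit 168) (.e (nat_lit 204845) (nat_lit 24) (.e (nat_lit 319531) (nat_lit 16) (.e (nat_lit 286735) (nat_lit 3) (.e (nat_lit 98367) (nat_lit 27) (.e (nat_lit 434184) (nat_lit 8) .nil)))))) (.g (nat_lit 1) (.e (nat_lit 44526) (nat_lit 0) .nil) .nil)))) (.nd (nat_lit 9) 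
(.lf (nat_lit 457077) (.g (nat_lit 2634) (.e (nat_lit 2681) (nat_lit 168) (.e (nat_lit 204829) (nat_lit 18) (.e (nat_lit 57927) (nat_lit 282) (.e (nat_lit 163866) (nat_lit 2) (.e (nat_lit 196670) (nat_lit 14) (.e (nat_lit 73746) (nat_lit 3) (.e (nat_lit 516124) (nat_lit 2) (.e (nat_lit 213013) (nat_lit 9) .nil)))))))) (.g (nat_lit 1) (.e (nat_lit 43959) (nat_lit 0) .nil) .nil))) 
(.lf (nat_lit 457589) (.g (nat_lit 2885) (.e (nat_lit 2683) (nat_lit 168) (.e (nat_lit 204830) (nat_lit 18) (.e (nat_lit 57926) (nat_lit 282) (.e (nat_lit 163871) (nat_lit 2) (.e (nat_lit 196670) (nat_lit 14) (.e (nat_lit 73746) (nat_lit 3) (.e (nat_lit 516127) (nat_lit 2) (.e (nat_lit 213019) (nat_lit 9) .nil)))))))) (.g (nat_lit 1) (.e (nat_lit 45291) (nat_lit 0) .nil) .nil))))) 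
(.nd (nat_lit 8) (.nd (nat_lit 9) 
(.lf (nat_lit 456949) (.g (nat_lit 2748) (.e (nat_lit 2679) (nat_lit 168) (.e (nat_lit 204846) (nat_lit 24) (.e (nat_lit 319535) (nat_lit 17) (.e (nat_lit 294931) (nat_lit 3) (.e (nat_lit 98367) (nat_lit 27) (.e (nat_lit 442112) (nat_lit 8) .nil)))))) (.g (nat_lit 1) (.e (nat_lit 43695) (nat_lit 0) .nil) .nil))) 
(.lf (nat_lit 457461) (.g (nat_lit 3464) (.e (nat_lit 2682) (nat_lit 168) (.e (nat_lit 204869) (nat_lit 29) (.e (nat_lit 360451) (nat_lit 0) (.e (nat_lit 4004) (nat_lit 242) .nil)))) (.g (nat_lit 0) (.e (nat_lit 44798) (nat_lit 0) .nil) .nil)))) (.nd (nat_lit 9) 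
(.lf (nat_lit 457205) (.g (nat_lit 914) (.e (nat_lit 2681) (nat_lit 168) (.e (nat_lit 204863) (nat_lit 27) (.e (nat_lit 352000) (nat_lit 0) .nil))) (.g (nat_lit 0) (.e (nat_lit 44178) (nat_lit 0) .nil) .nil))) 
(.lf (nat_lit 457717) (.g (nat_lit 4315) (.e (nat_lit 2684) (nat_lit 168) (.e (nat_lit 204852) (nat_lit 26) (.e (nat_lit 336326) (nat_lit 18) (.e (nat_lit 204831) (nat_lit 18) (.e (nat_lit 57852) (nat_lit 252) (.e (nat_lit 57378) (nat_lit 3) (.e (nat_lit 98338) (nat_lit 19) (.e (nat_lit 213013) (nat_lit 9) .nil)))))))) (.g (nat_lit 1) (.e (nat_lit 45546) (nat_lit 0) .nil) .nil))))))))) 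
(.nd (nat_lit 4) (.nd (nat_lit 5) (.nd (nat_lit 6) (.nd (nat_lit 7) (.nd (nat_lit 8) 
(.nd (nat_lit 9) 
(.lf (nat_lit 456717) (.g (nat_lit 3074) (.e (nat_lit 2668) (nat_lit 167) (.e (nat_lit 196666) (nat_lit 13) (.e (nat_lit 65628) (nat_lit 14) (.e (nat_lit 401425) (nat_lit 2) (.e (nat_lit 196667) (nat_lit 14) .nil))))) (.g (nat_lit 0) (.e (nat_lit 43195) (nat_lit 0) .nil) .nil))) 
(.lf (nat_lit 457229) (.g (nat_lit 2368) (.e (nat_lit 2681) (nat_lit 168) (.e (nat_lit 204863) (nat_lit 27) (.e (nat_lit 344131) (nat_lit 26) (.e (nat_lit 557098) (nat_lit 13) (.e (nat_lit 172133) (nat_lit 15) .nil))))) (.g (nat_lit 0) (.e (nat_lit 44202) (nat_lit 0) .nil) .nil)))) (.nd (nat_lit 9) 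
(.lf (nat_lit 456973) (.g (nat_lit 2045) (.e (nat_lit 2679) (nat_lit 168) (.e (nat_lit 204864) (nat_lit 27) (.e (nat_lit 344130) (nat_lit 26) (.e (nat_lit 557104) (nat_lit 14) (.e (nat_lit 188160) (nat_lit 3) (.e (nat_lit 516135) (nat_lit 5) (.e (nat_lit 253954) (nat_lit 0) .nil))))))) (.g (nat_lit 1) (.e (nat_lit 43743) (nat_lit 0) .nil) .nil))) 
(.lf (nat_lit 457485) (.g (nat_lit 2527) (.e (nat_lit 2682) (nat_lit 168) (.e (nat_lit 204869) (nat_lit 29) (.e (nat_lit 360473) (nat_lit 8) (.e (nat_lit 557067) (nat_lit 9) .nil)))) (.g (nat_lit 0) (.e (nat_lit 44922) (nat_lit 0) .nil) .nil))))) (.nd (nat_lit 8) (.nd (nat_lit 9) 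
(.lf (nat_lit 456845) (.g (nat_lit 2778) (.e (nat_lit 2675) (nat_lit 168) (.e (nat_lit 204830) (nat_lit 18) (.e (nat_lit 57926) (nat_lit 282) (.e (nat_lit 163875) (nat_lit 3) (.e (nat_lit 204862) (nat_lit 27) .nil))))) (.g (nat_lit 0) (.e (nat_lit 43413) (nat_lit 0) .nil) .nil))) 
(.lf (nat_lit 457357) (.g (nat_lit 2375) (.e (nat_lit 2682) (nat_lit 168) (.e (nat_lit 204855) (nat_lit 26) (.e (nat_lit 336061) (nat_lit 7) (.e (nat_lit 319517) (nat_lit 12) (.e (nat_lit 32788) (nat_lit 10) (.e (nat_lit 73782) (nat_lit 32) .nil)))))) (.g (nat_lit 1) (.e (nat_lit 44581) (nat_lit 0) .nil) .nil)))) (.nd (nat_lit 9) 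
(.lf (nat_lit 457101) (.g (nat_lit 2476) (.e (nat_lit 2681) (nat_lit 168) (.e (nat_lit 204829) (nat_lit 18) (.e (nat_lit 57927) (nat_lit 282) (.e (nat_lit 163871) (nat_lit 2) (.e (nat_lit 196668) (nat_lit 14) (.e (nat_lit 73746) (nat_lit 3) (.e (nat_lit 516124) (nat_lit 2) (.e (nat_lit 213013) (nat_lit 9) .nil)))))))) (.g (nat_lit 1) (.e (nat_lit 43987) (nat_lit 0) .nil) .nil))) 
(.lf (nat_lit 457613) (.g (nat_lit 2588) (.e (nat_lit 2684) (nat_lit 168) (.e (nat_lit 204829) (nat_lit 18) (.e (nat_lit 57926) (nat_lit 282) (.e (nat_lit 163871) (nat_lit 2) (.e (nat_lit 196668) (nat_lit 14) (.e (nat_lit 73747) (nat_lit 3) (.e (nat_lit 516124) (nat_lit 2) (.e (nat_lit 213013) (nat_lit 9) .nil)))))))) (.g (nat_lit 1) (.e (nat_lit 45381) (nat_lit 0) .nil) .nil)))))) 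
(.nd (nat_lit 7) (.nd (nat_lit 8) (.nd (nat_lit 9) 
(.lf (nat_lit 456781) (.g (nat_lit 2693) (.e (nat_lit 2668) (nat_lit 167) (.e (nat_lit 196670) (nat_lit 14) (.e (nat_lit 73781) (nat_lit 32) (.e (nat_lit 2682) (nat_lit 168) (.e (nat_lit 204863) (nat_lit 27) (.e (nat_lit 352000) (nat_lit 0) .nil)))))) (.g (nat_lit 1) (.e (nat_lit 43280) (nat_lit 0) .nil) .nil))) 
(.lf (nat_lit 457293) (.g (nat_lit 1212) (.e (nat_lit 2681) (nat_lit 168) (.e (nat_lit 204869) (nat_lit 29) (.e (nat_lit 360473) (nat_lit 8) (.e (nat_lit 557068) (nat_lit 9) .nil)))) (.g (nat_lit 0) (.e (nat_lit 44377) (nat_lit 0) .nil) .nil)))) (.nd (nat_lit 9) 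
(.lf (nat_lit 457037) (.g (nat_lit 2800) (.e (nat_lit 2679) (nat_lit 168) (.e (nat_lit 204878) (nat_lit 31) (.e (nat_lit 376855) (nat_lit 20) (.e (nat_lit 1800) (nat_lit 119) (.e (nat_lit 516139) (nat_lit 7) (.e (nat_lit 409623) (nat_lit 10) (.e (nat_lit 5664) (nat_lit 312) .nil))))))) (.g (nat_lit 1) (.e (nat_lit 43864) (nat_lit 0) .nil) .nil))) 
(.lf (nat_lit 457549) (.g (nat_lit 4207) (.e (nat_lit 2682) (nat_lit 168) (.e (nat_lit 204885) (nat_lit 33) (.e (nat_lit 401434) (nat_lit 9) (.e (nat_lit 426140) (nat_lit 3) (.e (nat_lit 204846) (nat_lit 24) (.e (nat_lit 319504) (nat_lit 10) (.e (nat_lit 5714) (nat_lit 312) .nil))))))) (.g (nat_lit 1) (.e (nat_lit 45238) (nat_lit 0) .nil) .nil))))) (.nd (nat_lit 8) (.nd (nat_lit 9) 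
(.lf (nat_lit 456909) (.g (nat_lit 3950) (.e (nat_lit 2679) (nat_lit 168) (.e (nat_lit 204846) (nat_lit 24) (.e (nat_lit 319490) (nat_lit 0) (.e (nat_lit 5293) (nat_lit 298) (.e (nat_lit 1250) (nat_lit 92) (.e (nat_lit 98350) (nat_lit 24) (.e (nat_lit 409623) (nat_lit 10) (.e (nat_lit 5664) (nat_lit 312) .nil)))))))) (.g (nat_lit 1) (.e (nat_lit 43630) (nat_lit 0) .nil) .nil))) 
(.lf (nat_lit 457421) (.g (nat_lit 2537) (.e (nat_lit 2682) (nat_lit 168) (.e (nat_lit 204868) (nat_lit 29) (.e (nat_lit 360466) (nat_lit 3) (.e (nat_lit 516139) (nat_lit 7) (.e (nat_lit 409617) (nat_lit 10) (.e (nat_lit 5710) (nat_lit 312) .nil)))))) (.g (nat_lit 1) (.e (nat_lit 44717) (nat_lit 0) .nil) .nil)))) (.nd (nat_lit 9) 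
(.lf (nat_lit 457165) (.g (nat_lit 2102) (.e (nat_lit 2681) (nat_lit 168) (.e (nat_lit 204831) (nat_lit 18) (.e (nat_lit 57931) (nat_lit 282) (.e (nat_lit 163866) (nat_lit 2) (.e (nat_lit 196670) (nat_lit 14) (.e (nat_lit 73746) (nat_lit 3) (.e (nat_lit 516127) (nat_lit 2) (.e (nat_lit 213019) (nat_lit 9) .nil)))))))) (.g (nat_lit 1) (.e (nat_lit 44065) (nat_lit 0) .nil) .nil))) 
(.lf (nat_lit 457677) (.g (nat_lit 2844) (.e (nat_lit 2684) (nat_lit 168) (.e (nat_lit 204830) (nat_lit 18) (.e (nat_lit 57928) (nat_lit 282) (.e (nat_lit 163875) (nat_lit 3) (.e (nat_lit 204862) (nat_lit 27) (.e (nat_lit 344117) (nat_lit 21) (.e (nat_lit 516123) (nat_lit 2) (.e (nat_lit 213013) (nat_lit 9) .nil)))))))) (.g (nat_lit 1) (.e (nat_lit 45470) (nat_lit 0) .nil) .nil))))))) 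
(.nd (nat_lit 6) (.nd (nat_lit 7) (.nd (nat_lit 8) (.nd (nat_lit 9) 
(.lf (nat_lit 456749) (.g (nat_lit 2936) (.e (nat_lit 2668) (nat_lit 167) (.e (nat_lit 196666) (nat_lit 13) (.e (nat_lit 65630) (nat_lit 14) (.e (nat_lit 401428) (nat_lit 3) (.e (nat_lit 204846) (nat_lit 24) (.e (nat_lit 319490) (nat_lit 0) (.e (nat_lit 5612) (nat_lit 312) .nil))))))) (.g (nat_lit 1) (.e (nat_lit 43237) (nat_lit 0) .nil) .nil))) 
(.lf (nat_lit 457261) (.g (nat_lit 1838) (.e (nat_lit 2681) (nat_lit 168) (.e (nat_lit 204863) (nat_lit 27) (.e (nat_lit 344133) (nat_lit 26) (.e (nat_lit 557103) (nat_lit 14) .nil)))) (.g (nat_lit 0) (.e (nat_lit 44234) (nat_lit 0) .nil) .nil)))) (.nd (nat_lit 9) 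
(.lf (nat_lit 457005) (.g (nat_lit 2242) (.e (nat_lit 2679) (nat_lit 168) (.e (nat_lit 204868) (nat_lit 29) (.e (nat_lit 360466) (nat_lit 3) (.e (nat_lit 516142) (nat_lit 8) (.e (nat_lit 417821) (nat_lit 10) (.e (nat_lit 5640) (nat_lit 312) .nil)))))) (.g (nat_lit 1) (.e (nat_lit 43785) (nat_lit 0) .nil) .nil))) 
(.lf (nat_lit 457517) (.g (nat_lit 4361) (.e (nat_lit 2682) (nat_lit 168) (.e (nat_lit 204869) (nat_lit 29) (.e (nat_lit 360475) (nat_lit 8) (.e (nat_lit 557064) (nat_lit 9) .nil)))) (.g (nat_lit 0) (.e (nat_lit 45102) (nat_lit 0) .nil) .nil))))) (.nd (nat_lit 8) (.nd (nat_lit 9) 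
(.lf (nat_lit 456877) (.g (nat_lit 2260) (.e (nat_lit 2676) (nat_lit 168) (.e (nat_lit 204829) (nat_lit 18) (.e (nat_lit 57927) (nat_lit 282) (.e (nat_lit 163871) (nat_lit 2) (.e (nat_lit 196670) (nat_lit 14) .nil))))) (.g (nat_lit 0) (.e (nat_lit 43477) (nat_lit 0) .nil) .nil))) 
(.lf (nat_lit 457389) (.g (nat_lit 2756) (.e (nat_lit 2682) (nat_lit 168) (.e (nat_lit 204863) (nat_lit 27) (.e (nat_lit 344130) (nat_lit 26) (.e (nat_lit 557103) (nat_lit 14) (.e (nat_lit 180250) (nat_lit 10) (.e (nat_lit 573473) (nat_lit 12) (.e (nat_lit 57508) (nat_lit 39) (.e (nat_lit 647177) (nat_lit 0) .nil)))))))) (.g (nat_lit 1) (.e (nat_lit 44648) (nat_lit 0) .nil) .nil)))) 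
(.nd (nat_lit 9) 
(.lf (nat_lit 457133) (.g (nat_lit 3386) (.e (nat_lit 2681) (nat_lit 168) (.e (nat_lit 204830) (nat_lit 18) (.e (nat_lit 57926) (nat_lit 282) (.e (nat_lit 163868) (nat_lit 2) (.e (nat_lit 196670) (nat_lit 14) (.e (nat_lit 73746) (nat_lit 3) (.e (nat_lit 516127) (nat_lit 2) (.e (nat_lit 213019) (nat_lit 9) .nil)))))))) (.g (nat_lit 1) (.e (nat_lit 44026) (nat_lit 0) .nil) .nil))) 
(.lf (nat_lit 457645) (.g (nat_lit 3659) (.e (nat_lit 2684) (nat_lit 168) (.e (nat_lit 204830) (nat_lit 18) (.e (nat_lit 57926) (nat_lit 282) (.e (nat_lit 163868) (nat_lit 2) (.e (nat_lit 196668) (nat_lit 14) (.e (nat_lit 73747) (nat_lit 3) (.e (nat_lit 516124) (nat_lit 2) (.e (nat_lit 213013) (nat_lit 9) .nil)))))))) (.g (nat_lit 1) (.e (nat_lit 45429) (nat_lit 0) .nil) .nil)))))) 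
(.nd (nat_lit 7) (.nd (nat_lit 8) (.nd (nat_lit 9) 
(.lf (nat_lit 456813) (.g (nat_lit 4086) (.e (nat_lit 2670) (nat_lit 167) (.e (nat_lit 196666) (nat_lit 13) (.e (nat_lit 65610) (nat_lit 10) (.e (nat_lit 344117) (nat_lit 21) (.e (nat_lit 516098) (nat_lit 0) .nil))))) (.g (nat_lit 0) (.e (nat_lit 43322) (nat_lit 0) .nil) .nil))) 
(.lf (nat_lit 457325) (.g (nat_lit 2461) (.e (nat_lit 2682) (nat_lit 168) (.e (nat_lit 204829) (nat_lit 18) (.e (nat_lit 57927) (nat_lit 282) (.e (nat_lit 163868) (nat_lit 2) (.e (nat_lit 196670) (nat_lit 14) .nil))))) (.g (nat_lit 0) (.e (nat_lit 44507) (nat_lit 0) .nil) .nil)))) (.nd (nat_lit 9) 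
(.lf (nat_lit 457069) (.g (nat_lit 2710) (.e (nat_lit 2681) (nat_lit 168) (.e (nat_lit 204829) (nat_lit 18) (.e (nat_lit 57926) (nat_lit 282) (.e (nat_lit 163868) (nat_lit 2) (.e (nat_lit 196668) (nat_lit 14) (.e (nat_lit 73747) (nat_lit 3) (.e (nat_lit 516124) (nat_lit 2) (.e (nat_lit 213019) (nat_lit 9) .nil)))))))) (.g (nat_lit 1) (.e (nat_lit 43947) (nat_lit 0) .nil) .nil))) 
(.lf (nat_lit 457581) (.g (nat_lit 3306) (.e (nat_lit 2683) (nat_lit 168) (.e (nat_lit 204830) (nat_lit 18) (.e (nat_lit 57926) (nat_lit 282) (.e (nat_lit 163869) (nat_lit 2) (.e (nat_lit 196670) (nat_lit 14) (.e (nat_lit 73746) (nat_lit 3) (.e (nat_lit 516124) (nat_lit 2) (.e (nat_lit 213020) (nat_lit 9) .nil)))))))) (.g (nat_lit 1) (.e (nat_lit 45283) (nat_lit 0) .nil) .nil))))) 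
(.nd (nat_lit 8) (.nd (nat_lit 9) 
(.lf (nat_lit 456941) (.g (nat_lit 3073) (.e (nat_lit 2679) (nat_lit 168) (.e (nat_lit 204846) (nat_lit 24) (.e (nat_lit 319534) (nat_lit 16) (.e (nat_lit 286734) (nat_lit 3) (.e (nat_lit 98367) (nat_lit 27) (.e (nat_lit 442112) (nat_lit 8) .nil)))))) (.g (nat_lit 1) (.e (nat_lit 43684) (nat_lit 0) .nil) .nil))) 
(.lf (nat_lit 457453) (.g (nat_lit 3464) (.e (nat_lit 2682) (nat_lit 168) (.e (nat_lit 204869) (nat_lit 29) (.e (nat_lit 360451) (nat_lit 0) (.e (nat_lit 3930) (nat_lit 239) .nil)))) (.g (nat_lit 0) (.e (nat_lit 44790) (nat_lit 0) .nil) .nil)))) (.nd (nat_lit 9) 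
(.lf (nat_lit 457197) (.g (nat_lit 3073) (.e (nat_lit 2681) (nat_lit 168) (.e (nat_lit 204862) (nat_lit 27) (.e (nat_lit 344129) (nat_lit 26) (.e (nat_lit 557103) (nat_lit 14) (.e (nat_lit 180244) (nat_lit 5) (.e (nat_lit 532499) (nat_lit 1) (.e (nat_lit 57704) (nat_lit 164) (.e (nat_lit 2515) (nat_lit 157) .nil)))))))) (.g (nat_lit 1) (.e (nat_lit 44169) (nat_lit 0) .nil) .nil))) 
(.lf (nat_lit 457709) (.g (nat_lit 1756) (.e (nat_lit 2684) (nat_lit 168) (.e (nat_lit 204852) (nat_lit 26) (.e (nat_lit 336316) (nat_lit 17) (.e (nat_lit 204544) (nat_lit 5) .nil)))) (.g (nat_lit 0) (.e (nat_lit 45536) (nat_lit 0) .nil) .nil)))))))) (.nd (nat_lit 5) (.nd (nat_lit 6) (.nd (nat_lit 7) (.nd (nat_lit 8) (.nd (nat_lit 9) 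
(.lf (nat_lit 456733) (.g (nat_lit 718) (.e (nat_lit 2668) (nat_lit 167) (.e (nat_lit 196666) (nat_lit 13) (.e (nat_lit 65629) (nat_lit 14) .nil))) (.g (nat_lit 0) (.e (nat_lit 43212) (nat_lit 0) .nil) .nil))) 
(.lf (nat_lit 457245) (.g (nat_lit 4677) (.e (nat_lit 2681) (nat_lit 168) (.e (nat_lit 204863) (nat_lit 27) (.e (nat_lit 344132) (nat_lit 26) (.e (nat_lit 557105) (nat_lit 14) (.e (nat_lit 180252) (nat_lit 10) (.e (nat_lit 573473) (nat_lit 12) (.e (nat_lit 57507) (nat_lit 39) (.e (nat_lit 647176) (nat_lit 0) .nil)))))))) (.g (nat_lit 1) (.e (nat_lit 44218) (nat_lit 0) .nil) .nil)))) 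
(.nd (nat_lit 9) 
(.lf (nat_lit 456989) (.g (nat_lit 2327) (.e (nat_lit 2679) (nat_lit 168) (.e (nat_lit 204868) (nat_lit 29) (.e (nat_lit 360466) (nat_lit 3) (.e (nat_lit 516102) (nat_lit 0) (.e (nat_lit 7107) (nat_lit 380) (.e (nat_lit 164362) (nat_lit 246) .nil)))))) (.g (nat_lit 1) (.e (nat_lit 43769) (nat_lit 0) .nil) .nil))) 
(.lf (nat_lit 457501) (.g (nat_lit 1973) (.e (nat_lit 2682) (nat_lit 168) (.e (nat_lit 204869) (nat_lit 29) (.e (nat_lit 360474) (nat_lit 8) (.e (nat_lit 557072) (nat_lit 9) .nil)))) (.g (nat_lit 0) (.e (nat_lit 44940) (nat_lit 0) .nil) .nil))))) (.nd (nat_lit 8) (.nd (nat_lit 9) 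
(.lf (nat_lit 456861) (.g (nat_lit 2585) (.e (nat_lit 2675) (nat_lit 168) (.e (nat_lit 204869) (nat_lit 29) (.e (nat_lit 360474) (nat_lit 8) (.e (nat_lit 557072) (nat_lit 9) .nil)))) (.g (nat_lit 0) (.e (nat_lit 43452) (nat_lit 0) .nil) .nil))) 
(.lf (nat_lit 457373) (.g (nat_lit 3050) (.e (nat_lit 2682) (nat_lit 168) (.e (nat_lit 204861) (nat_lit 26) (.e (nat_lit 336204) (nat_lit 12) (.e (nat_lit 385074) (nat_lit 31) (.e (nat_lit 573489) (nat_lit 14) (.e (nat_lit 73782) (nat_lit 32) .nil)))))) (.g (nat_lit 1) (.e (nat_lit 44629) (nat_lit 0) .nil) .nil)))) (.nd (nat_lit 9) 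
(.lf (nat_lit 457117) (.g (nat_lit 3341) (.e (nat_lit 2681) (nat_lit 168) (.e (nat_lit 204829) (nat_lit 18) (.e (nat_lit 57931) (nat_lit 282) (.e (nat_lit 163869) (nat_lit 2) (.e (nat_lit 196670) (nat_lit 14) (.e (nat_lit 73746) (nat_lit 3) (.e (nat_lit 516124) (nat_lit 2) (.e (nat_lit 213022) (nat_lit 9) .nil)))))))) (.g (nat_lit 1) (.e (nat_lit 44009) (nat_lit 0) .nil) .nil))) 
(.lf (nat_lit 457629) (.g (nat_lit 2645) (.e (nat_lit 2684) (nat_lit 168) (.e (nat_lit 204829) (nat_lit 18) (.e (nat_lit 57930) (nat_lit 282) (.e (nat_lit 163867) (nat_lit 2) (.e (nat_lit 196670) (nat_lit 14) (.e (nat_lit 73746) (nat_lit 3) (.e (nat_lit 516124) (nat_lit 2) (.e (nat_lit 213013) (nat_lit 9) .nil)))))))) (.g (nat_lit 1) (.e (nat_lit 45403) (nat_lit 0) .nil) .nil)))))) 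
(.nd (nat_lit 7) (.nd (nat_lit 8) (.nd (nat_lit 9) 
(.lf (nat_lit 456797) (.g (nat_lit 3994) (.e (nat_lit 2668) (nat_lit 167) (.e (nat_lit 196673) (nat_lit 15) (.e (nat_lit 81956) (nat_lit 23) (.e (nat_lit 98350) (nat_lit 24) (.e (nat_lit 409616) (nat_lit 10) (.e (nat_lit 7936) (nat_lit 312) .nil)))))) (.g (nat_lit 1) (.e (nat_lit 43299) (nat_lit 0) .nil) .nil))) 
(.lf (nat_lit 457309) (.g (nat_lit 3887) (.e (nat_lit 2681) (nat_lit 168) (.e (nat_lit 204869) (nat_lit 29) (.e (nat_lit 360475) (nat_lit 8) (.e (nat_lit 557074) (nat_lit 9) .nil)))) (.g (nat_lit 0) (.e (nat_lit 44399) (nat_lit 0) .nil) .nil)))) (.nd (nat_lit 9) 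
(.lf (nat_lit 457053) (.g (nat_lit 2516) (.e (nat_lit 2680) (nat_lit 168) (.e (nat_lit 204830) (nat_lit 18) (.e (nat_lit 57926) (nat_lit 282) (.e (nat_lit 163871) (nat_lit 2) (.e (nat_lit 196670) (nat_lit 14) (.e (nat_lit 73746) (nat_lit 3) (.e (nat_lit 516124) (nat_lit 2) (.e (nat_lit 213000) (nat_lit 9) .nil)))))))) (.g (nat_lit 1) (.e (nat_lit 43894) (nat_lit 0) .nil) .nil))) 
(.lf (nat_lit 457565) (.g (nat_lit 2766) (.e (nat_lit 2683) (nat_lit 168) (.e (nat_lit 204829) (nat_lit 18) (.e (nat_lit 57927) (nat_lit 282) (.e (nat_lit 163874) (nat_lit 3) (.e (nat_lit 204862) (nat_lit 27) (.e (nat_lit 344117) (nat_lit 21) (.e (nat_lit 516123) (nat_lit 2) (.e (nat_lit 213022) (nat_lit 9) .nil)))))))) (.g (nat_lit 1) (.e (nat_lit 45260) (nat_lit 0) .nil) .nil))))) 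
(.nd (nat_lit 8) (.nd (nat_lit 9) 
(.lf (nat_lit 456925) (.g (nat_lit 3698) (.e (nat_lit 2679) (nat_lit 168) (.e (nat_lit 204846) (nat_lit 24) (.e (nat_lit 319532) (nat_lit 16) (.e (nat_lit 286733) (nat_lit 2) (.e (nat_lit 90174) (nat_lit 14) (.e (nat_lit 188160) (nat_lit 40) .nil)))))) (.g (nat_lit 1) (.e (nat_lit 43660) (nat_lit 0) .nil) .nil))) 
(.lf (nat_lit 457437) (.g (nat_lit 2120) (.e (nat_lit 2682) (nat_lit 168) (.e (nat_lit 204869) (nat_lit 29) (.e (nat_lit 360448) (nat_lit 0) (.e (nat_lit 3956) (nat_lit 239) .nil)))) (.g (nat_lit 0) (.e (nat_lit 44758) (nat_lit 0) .nil) .nil)))) (.nd (nat_lit 9) 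
(.lf (nat_lit 457181) (.g (nat_lit 3035) (.e (nat_lit 2681) (nat_lit 168) (.e (nat_lit 204846) (nat_lit 24) (.e (nat_lit 319531) (nat_lit 16) (.e (nat_lit 286735) (nat_lit 3) (.e (nat_lit 98367) (nat_lit 27) .nil))))) (.g (nat_lit 0) (.e (nat_lit 44107) (nat_lit 0) .nil) .nil))) 
(.lf (nat_lit 457693) (.g (nat_lit 3015) (.e (nat_lit 2684) (nat_lit 168) (.e (nat_lit 204845) (nat_lit 24) (.e (nat_lit 319531) (nat_lit 16) (.e (nat_lit 286733) (nat_lit 2) (.e (nat_lit 90174) (nat_lit 14) .nil))))) (.g (nat_lit 0) (.e (nat_lit 45519) (nat_lit 0) .nil) .nil))))))) (.nd (nat_lit 6) (.nd (nat_lit 7) (.nd (nat_lit 8) (.nd (nat_lit 9) 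
(.lf (nat_lit 456765) (.g (nat_lit 2652) (.e (nat_lit 2668) (nat_lit 167) (.e (nat_lit 196670) (nat_lit 14) (.e (nat_lit 73753) (nat_lit 8) (.e (nat_lit 557098) (nat_lit 13) (.e (nat_lit 172065) (nat_lit 3) (.e (nat_lit 204821) (nat_lit 17) (.e (nat_lit 2391) (nat_lit 156) (.e (nat_lit 819204) (nat_lit 0) .nil)))))))) (.g (nat_lit 1) (.e (nat_lit 43259) (nat_lit 0) .nil) .nil))) 
(.lf (nat_lit 457277) (.g (nat_lit 4888) (.e (nat_lit 2681) (nat_lit 168) (.e (nat_lit 204863) (nat_lit 27) (.e (nat_lit 344133) (nat_lit 26) (.e (nat_lit 557105) (nat_lit 14) (.e (nat_lit 180252) (nat_lit 10) (.e (nat_lit 573474) (nat_lit 12) (.e (nat_lit 57508) (nat_lit 39) (.e (nat_lit 647176) (nat_lit 0) .nil)))))))) (.g (nat_lit 1) (.e (nat_lit 44250) (nat_lit 0) .nil) .nil)))) 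
(.nd (nat_lit 9) 
(.lf (nat_lit 457021) (.g (nat_lit 2537) (.e (nat_lit 2679) (nat_lit 168) (.e (nat_lit 204869) (nat_lit 29) (.e (nat_lit 360475) (nat_lit 8) (.e (nat_lit 557065) (nat_lit 9) .nil)))) (.g (nat_lit 0) (.e (nat_lit 43837) (nat_lit 0) .nil) .nil))) 
(.lf (nat_lit 457533) (.g (nat_lit 4157) (.e (nat_lit 2682) (nat_lit 168) (.e (nat_lit 204869) (nat_lit 29) (.e (nat_lit 360475) (nat_lit 8) (.e (nat_lit 557086) (nat_lit 11) (.e (nat_lit 24577) (nat_lit 0) (.e (nat_lit 6654) (nat_lit 357) .nil)))))) (.g (nat_lit 1) (.e (nat_lit 45124) (nat_lit 0) .nil) .nil))))) (.nd (nat_lit 8) (.nd (nat_lit 9) 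
(.lf (nat_lit 456893) (.g (nat_lit 2693) (.e (nat_lit 2678) (nat_lit 168) (.e (nat_lit 204863) (nat_lit 27) (.e (nat_lit 344133) (nat_lit 26) (.e (nat_lit 557098) (nat_lit 13) (.e (nat_lit 172133) (nat_lit 15) .nil))))) (.g (nat_lit 0) (.e (nat_lit 43507) (nat_lit 0) .nil) .nil))) 
(.lf (nat_lit 457405) (.g (nat_lit 2820) (.e (nat_lit 2682) (nat_lit 168) (.e (nat_lit 204863) (nat_lit 27) (.e (nat_lit 344133) (nat_lit 26) (.e (nat_lit 557103) (nat_lit 14) (.e (nat_lit 180243) (nat_lit 5) (.e (nat_lit 532501) (nat_lit 1) (.e (nat_lit 57703) (nat_lit 164) (.e (nat_lit 2515) (nat_lit 157) .nil)))))))) (.g (nat_lit 1) (.e (nat_lit 44664) (nat_lit 0) .nil) .nil)))) 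
(.nd (nat_lit 9) 
(.lf (nat_lit 457149) (.g (nat_lit 1983) (.e (nat_lit 2681) (nat_lit 168) (.e (nat_lit 204830) (nat_lit 18) (.e (nat_lit 57926) (nat_lit 282) (.e (nat_lit 163874) (nat_lit 3) .nil)))) (.g (nat_lit 0) (.e (nat_lit 44045) (nat_lit 0) .nil) .nil))) 
(.lf (nat_lit 457661) (.g (nat_lit 3829) (.e (nat_lit 2684) (nat_lit 168) (.e (nat_lit 204830) (nat_lit 18) (.e (nat_lit 57927) (nat_lit 282) (.e (nat_lit 163868) (nat_lit 2) (.e (nat_lit 196668) (nat_lit 14) (.e (nat_lit 73746) (nat_lit 3) (.e (nat_lit 516124) (nat_lit 2) (.e (nat_lit 213013) (nat_lit 9) .nil)))))))) (.g (nat_lit 1) (.e (nat_lit 45450) (nat_lit 0) .nil) .nil)))))) 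
(.nd (nat_lit 7) (.nd (nat_lit 8) (.nd (nat_lit 9) 
(.lf (nat_lit 456829) (.g (nat_lit 4409) (.e (nat_lit 2672) (nat_lit 168) (.e (nat_lit 204869) (nat_lit 29) (.e (nat_lit 360475) (nat_lit 8) (.e (nat_lit 557086) (nat_lit 11) .nil)))) (.g (nat_lit 0) (.e (nat_lit 43355) (nat_lit 0) .nil) .nil))) 
(.lf (nat_lit 457341) (.g (nat_lit 4523) (.e (nat_lit 2682) (nat_lit 168) (.e (nat_lit 204846) (nat_lit 24) (.e (nat_lit 319530) (nat_lit 16) (.e (nat_lit 286735) (nat_lit 3) (.e (nat_lit 98367) (nat_lit 27) (.e (nat_lit 434184) (nat_lit 8) .nil)))))) (.g (nat_lit 1) (.e (nat_lit 44543) (nat_lit 0) .nil) .nil)))) (.nd (nat_lit 9) 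
(.lf (nat_lit 457085) (.g (nat_lit 3909) (.e (nat_lit 2681) (nat_lit 168) (.e (nat_lit 204829) (nat_lit 18) (.e (nat_lit 57927) (nat_lit 282) (.e (nat_lit 163868) (nat_lit 2) (.e (nat_lit 196670) (nat_lit 14) (.e (nat_lit 73746) (nat_lit 3) (.e (nat_lit 516124) (nat_lit 2) (.e (nat_lit 213019) (nat_lit 9) .nil)))))))) (.g (nat_lit 1) (.e (nat_lit 43967) (nat_lit 0) .nil) .nil))) 
(.lf (nat_lit 457597) (.g (nat_lit 4237) (.e (nat_lit 2683) (nat_lit 168) (.e (nat_lit 204831) (nat_lit 18) (.e (nat_lit 57931) (nat_lit 282) (.e (nat_lit 163869) (nat_lit 2) (.e (nat_lit 196670) (nat_lit 14) (.e (nat_lit 73746) (nat_lit 3) (.e (nat_lit 516124) (nat_lit 2) (.e (nat_lit 213019) (nat_lit 9) .nil)))))))) (.g (nat_lit 1) (.e (nat_lit 45300) (nat_lit 0) .nil) .nil))))) 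
(.nd (nat_lit 8) (.nd (nat_lit 9) 
(.lf (nat_lit 456957) (.g (nat_lit 2130) (.e (nat_lit 2679) (nat_lit 168) (.e (nat_lit 204862) (nat_lit 27) (.e (nat_lit 344117) (nat_lit 21) (.e (nat_lit 516130) (nat_lit 3) (.e (nat_lit 229120) (nat_lit 3) .nil))))) (.g (nat_lit 0) (.e (nat_lit 43727) (nat_lit 0) .nil) .nil))) 
(.lf (nat_lit 457469) (.g (nat_lit 2391) (.e (nat_lit 2682) (nat_lit 168) (.e (nat_lit 204869) (nat_lit 29) (.e (nat_lit 360456) (nat_lit 0) (.e (nat_lit 7936) (nat_lit 242) .nil)))) (.g (nat_lit 0) (.e (nat_lit 44821) (nat_lit 0) .nil) .nil)))) (.nd (nat_lit 9) 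
(.lf (nat_lit 457213) (.g (nat_lit 2518) (.e (nat_lit 2681) (nat_lit 168) (.e (nat_lit 204863) (nat_lit 27) (.e (nat_lit 344129) (nat_lit 26) (.e (nat_lit 557097) (nat_lit 13) (.e (nat_lit 172133) (nat_lit 15) .nil))))) (.g (nat_lit 0) (.e (nat_lit 44186) (nat_lit 0) .nil) .nil))) 
(.lf (nat_lit 457725) (.g (nat_lit 914) (.e (nat_lit 2684) (nat_lit 168) (.e (nat_lit 204861) (nat_lit 26) (.e (nat_lit 336214) (nat_lit 13) (.e (nat_lit 401152) (nat_lit 10) .nil)))) (.g (nat_lit 0) (.e (nat_lit 45581) (nat_lit 0) .nil) .nil))))))))))) (.nd (nat_lit 2) (.nd (nat_lit 3) (.nd (nat_lit 4) (.nd (nat_lit 5) (.nd (nat_lit 6) (.nd (nat_lit 7) (.nd (nat_lit 8) (.nd (nat_lit 9) 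
(.lf (nat_lit 456707) (.g (nat_lit 523) (.e (nat_lit 2668) (nat_lit 167) (.e (nat_lit 196666) (nat_lit 13) (.e (nat_lit 65624) (nat_lit 12) .nil))) (.g (nat_lit 0) (.e (nat_lit 43173) (nat_lit 0) .nil) .nil))) 
(.lf (nat_lit 457219) (.g (nat_lit 989) (.e (nat_lit 2681) (nat_lit 168) (.e (nat_lit 204863) (nat_lit 27) (.e (nat_lit 344130) (nat_lit 26) .nil))) (.g (nat_lit 0) (.e (nat_lit 44192) (nat_lit 0) .nil) .nil)))) (.nd (nat_lit 9) 
(.lf (nat_lit 456963) (.g (nat_lit 1896) (.e (nat_lit 2679) (nat_lit 168) (.e (nat_lit 204862) (nat_lit 27) (.e (nat_lit 344133) (nat_lit 26) (.e (nat_lit 557103) (nat_lit 14) (.e (nat_lit 188160) (nat_lit 3) (.e (nat_lit 516135) (nat_lit 5) (.e (nat_lit 253954) (nat_lit 0) .nil))))))) (.g (nat_lit 1) (.e (nat_lit 43733) (nat_lit 0) .nil) .nil))) 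
(.lf (nat_lit 457475) (.g (nat_lit 2926) (.e (nat_lit 2682) (nat_lit 168) (.e (nat_lit 204869) (nat_lit 29) (.e (nat_lit 360471) (nat_lit 7) (.e (nat_lit 548890) (nat_lit 10) (.e (nat_lit 73782) (nat_lit 32) .nil))))) (.g (nat_lit 1) (.e (nat_lit 44911) (nat_lit 0) .nil) .nil))))) (.nd (nat_lit 8) (.nd (nat_lit 9) 
(.lf (nat_lit 456835) (.g (nat_lit 880) (.e (nat_lit 2674) (nat_lit 168) (.e (nat_lit 204869) (nat_lit 29) (.e (nat_lit 360475) (nat_lit 8) .nil))) (.g (nat_lit 0) (.e (nat_lit 43393) (nat_lit 0) .nil) .nil))) 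
(.lf (nat_lit 457347) (.g (nat_lit 3199) (.e (nat_lit 2682) (nat_lit 168) (.e (nat_lit 204849) (nat_lit 25) (.e (nat_lit 327698) (nat_lit 8) (.e (nat_lit 303117) (nat_lit 2) (.e (nat_lit 196670) (nat_lit 14) (.e (nat_lit 73781) (nat_lit 32) .nil)))))) (.g (nat_lit 1) (.e (nat_lit 44550) (nat_lit 0) .nil) .nil)))) (.nd (nat_lit 9) 
(.lf (nat_lit 457091) (.g (nat_lit 2338) (.e (nat_lit 2681) (nat_lit 168) (.e (nat_lit 204829) (nat_lit 18) (.e (nat_lit 57927) (nat_lit 282) (.e (nat_lit 163869) (nat_lit 2) (.e (nat_lit 196670) (nat_lit 14) (.e (nat_lit 73746) (nat_lit 3) (.e (nat_lit 516124) (nat_lit 2) (.e (nat_lit 213015) (nat_lit 9) .nil)))))))) (.g (nat_lit 1) (.e (nat_lit 43977) (nat_lit 0) .nil) .nil))) 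
(.lf (nat_lit 457603) (.g (nat_lit 579) (.e (nat_lit 2683) (nat_lit 168) (.e (nat_lit 204868) (nat_lit 29) (.e (nat_lit 360466) (nat_lit 3) .nil))) (.g (nat_lit 0) (.e (nat_lit 45314) (nat_lit 0) .nil) .nil)))))) (.nd (nat_lit 7) (.nd (nat_lit 8) (.nd (nat_lit 9) 
(.lf (nat_lit 456771) (.g (nat_lit 2647) (.e (nat_lit 2668) (nat_lit 167) (.e (nat_lit 196670) (nat_lit 14) (.e (nat_lit 73753) (nat_lit 8) (.e (nat_lit 557105) (nat_lit 14) (.e (nat_lit 180252) (nat_lit 10) (.e (nat_lit 573474) (nat_lit 12) (.e (nat_lit 57508) (nat_lit 39) (.e (nat_lit 647170) (nat_lit 0) .nil)))))))) (.g (nat_lit 1) (.e (nat_lit 43265) (nat_lit 0) .nil) .nil))) 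
(.lf (nat_lit 457283) (.g (nat_lit 1114) (.e (nat_lit 2681) (nat_lit 168) (.e (nat_lit 204868) (nat_lit 29) (.e (nat_lit 360452) (nat_lit 0) (.e (nat_lit 3946) (nat_lit 239) .nil)))) (.g (nat_lit 0) (.e (nat_lit 44280) (nat_lit 0) .nil) .nil)))) (.nd (nat_lit 9) 
(.lf (nat_lit 457027) (.g (nat_lit 2963) (.e (nat_lit 2679) (nat_lit 168) (.e (nat_lit 204869) (nat_lit 29) (.e (nat_lit 360475) (nat_lit 8) (.e (nat_lit 557073) (nat_lit 9) .nil)))) (.g (nat_lit 0) (.e (nat_lit 43844) (nat_lit 0) .nil) .nil))) 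
(.lf (nat_lit 457539) (.g (nat_lit 2975) (.e (nat_lit 2682) (nat_lit 168) (.e (nat_lit 204869) (nat_lit 29) (.e (nat_lit 360475) (nat_lit 8) (.e (nat_lit 557087) (nat_lit 11) (.e (nat_lit 24581) (nat_lit 0) (.e (nat_lit 6684) (nat_lit 357) .nil)))))) (.g (nat_lit 1) (.e (nat_lit 45130) (nat_lit 0) .nil) .nil))))) (.nd (nat_lit 8) (.nd (nat_lit 9) 
(.lf (nat_lit 456899) (.g (nat_lit 3895) (.e (nat_lit 2679) (nat_lit 168) (.e (nat_lit 204819) (nat_lit 17) (.e (nat_lit 6113) (nat_lit 332) (.e (nat_lit 1374) (nat_lit 104) (.e (nat_lit 303119) (nat_lit 3) (.e (nat_lit 204846) (nat_lit 24) (.e (nat_lit 319511) (nat_lit 10) (.e (nat_lit 5664) (nat_lit 312) .nil)))))))) (.g (nat_lit 1) (.e (nat_lit 43561) (nat_lit 0) .nil) .nil))) 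
(.lf (nat_lit 457411) (.g (nat_lit 3236) (.e (nat_lit 2682) (nat_lit 168) (.e (nat_lit 204863) (nat_lit 27) (.e (nat_lit 344133) (nat_lit 26) (.e (nat_lit 557105) (nat_lit 14) (.e (nat_lit 180252) (nat_lit 10) (.e (nat_lit 573474) (nat_lit 12) (.e (nat_lit 57506) (nat_lit 39) (.e (nat_lit 647177) (nat_lit 0) .nil)))))))) (.g (nat_lit 1) (.e (nat_lit 44670) (nat_lit 0) .nil) .nil)))) 
(.nd (nat_lit 9) 
(.lf (nat_lit 457155) (.g (nat_lit 2343) (.e (nat_lit 2681) (nat_lit 168) (.e (nat_lit 204830) (nat_lit 18) (.e (nat_lit 57927) (nat_lit 282) (.e (nat_lit 163868) (nat_lit 2) (.e (nat_lit 196668) (nat_lit 14) (.e (nat_lit 73746) (nat_lit 3) (.e (nat_lit 516124) (nat_lit 2) (.e (nat_lit 213019) (nat_lit 9) .nil)))))))) (.g (nat_lit 1) (.e (nat_lit 44051) (nat_lit 0) .nil) .nil))) 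
(.lf (nat_lit 457667) (.g (nat_lit 3440) (.e (nat_lit 2684) (nat_lit 168) (.e (nat_lit 204830) (nat_lit 18) (.e (nat_lit 57927) (nat_lit 282) (.e (nat_lit 163869) (nat_lit 2) (.e (nat_lit 196670) (nat_lit 14) (.e (nat_lit 73746) (nat_lit 3) (.e (nat_lit 516124) (nat_lit 2) (.e (nat_lit 213019) (nat_lit 9) .nil)))))))) (.g (nat_lit 1) (.e (nat_lit 45458) (nat_lit 0) .nil) .nil))))))) 
(.nd (nat_lit 6) (.nd (nat_lit 7) (.nd (nat_lit 8) (.nd (nat_lit 9) 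
(.lf (nat_lit 456739) (.g (nat_lit 4436) (.e (nat_lit 2668) (nat_lit 167) (.e (nat_lit 196666) (nat_lit 13) (.e (nat_lit 65630) (nat_lit 14) (.e (nat_lit 401425) (nat_lit 2) (.e (nat_lit 196628) (nat_lit 9) (.e (nat_lit 1512) (nat_lit 108) (.e (nat_lit 335872) (nat_lit 0) (.e (nat_lit 6618) (nat_lit 357) .nil)))))))) (.g (nat_lit 1) (.e (nat_lit 43221) (nat_lit 0) .nil) .nil))) 
(.lf (nat_lit 457251) (.g (nat_lit 3790) (.e (nat_lit 2681) (nat_lit 168) (.e (nat_lit 204863) (nat_lit 27) (.e (nat_lit 344132) (nat_lit 26) (.e (nat_lit 557105) (nat_lit 14) (.e (nat_lit 180252) (nat_lit 10) (.e (nat_lit 573475) (nat_lit 12) (.e (nat_lit 57506) (nat_lit 39) (.e (nat_lit 647176) (nat_lit 0) .nil)))))))) (.g (nat_lit 1) (.e (nat_lit 44224) (nat_lit 0) .nil) .nil)))) 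
(.nd (nat_lit 9) 
(.lf (nat_lit 456995) (.g (nat_lit 1826) (.e (nat_lit 2679) (nat_lit 168) (.e (nat_lit 204868) (nat_lit 29) (.e (nat_lit 360466) (nat_lit 3) (.e (nat_lit 516141) (nat_lit 8) (.e (nat_lit 417817) (nat_lit 10) .nil))))) (.g (nat_lit 0) (.e (nat_lit 43775) (nat_lit 0) .nil) .nil))) 
(.lf (nat_lit 457507) (.g (nat_lit 4870) (.e (nat_lit 2682) (nat_lit 168) (.e (nat_lit 204869) (nat_lit 29) (.e (nat_lit 360474) (nat_lit 8) (.e (nat_lit 557080) (nat_lit 9) .nil)))) (.g (nat_lit 0) (.e (nat_lit 44947) (nat_lit 0) .nil) .nil))))) (.nd (nat_lit 8) (.nd (nat_lit 9) 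
(.lf (nat_lit 456867) (.g (nat_lit 3487) (.e (nat_lit 2675) (nat_lit 168) (.e (nat_lit 204869) (nat_lit 29) (.e (nat_lit 360475) (nat_lit 8) (.e (nat_lit 557068) (nat_lit 9) (.e (nat_lit 214) (nat_lit 19) .nil))))) (.g (nat_lit 0) (.e (nat_lit 43458) (nat_lit 0) .nil) .nil))) 
(.lf (nat_lit 457379) (.g (nat_lit 2012) (.e (nat_lit 2682) (nat_lit 168) (.e (nat_lit 204863) (nat_lit 27) (.e (nat_lit 344068) (nat_lit 0) (.e (nat_lit 2664) (nat_lit 167) (.e (nat_lit 196670) (nat_lit 14) (.e (nat_lit 73781) (nat_lit 32) .nil)))))) (.g (nat_lit 1) (.e (nat_lit 44635) (nat_lit 0) .nil) .nil)))) (.nd (nat_lit 9) 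
(.lf (nat_lit 457123) (.g (nat_lit 2881) (.e (nat_lit 2681) (nat_lit 168) (.e (nat_lit 204830) (nat_lit 18) (.e (nat_lit 57924) (nat_lit 282) (.e (nat_lit 163867) (nat_lit 2) (.e (nat_lit 196670) (nat_lit 14) (.e (nat_lit 73746) (nat_lit 3) (.e (nat_lit 516124) (nat_lit 2) (.e (nat_lit 213019) (nat_lit 9) .nil)))))))) (.g (nat_lit 1) (.e (nat_lit 44015) (nat_lit 0) .nil) .nil))) 
(.lf (nat_lit 457635) (.g (nat_lit 3143) (.e (nat_lit 2684) (nat_lit 168) (.e (nat_lit 204829) (nat_lit 18) (.e (nat_lit 57931) (nat_lit 282) (.e (nat_lit 163869) (nat_lit 2) (.e (nat_lit 196670) (nat_lit 14) (.e (nat_lit 73746) (nat_lit 3) (.e (nat_lit 516127) (nat_lit 2) (.e (nat_lit 213019) (nat_lit 9) .nil)))))))) (.g (nat_lit 1) (.e (nat_lit 45415) (nat_lit 0) .nil) .nil)))))) 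
(.nd (nat_lit 7) (.nd (nat_lit 8) (.nd (nat_lit 9) 
(.lf (nat_lit 456803) (.g (nat_lit 2314) (.e (nat_lit 2668) (nat_lit 167) (.e (nat_lit 196674) (nat_lit 15) (.e (nat_lit 81956) (nat_lit 23) (.e (nat_lit 98350) (nat_lit 24) .nil)))) (.g (nat_lit 0) (.e (nat_lit 43306) (nat_lit 0) .nil) .nil))) 
(.lf (nat_lit 457315) (.g (nat_lit 3801) (.e (nat_lit 2681) (nat_lit 168) (.e (nat_lit 204869) (nat_lit 29) (.e (nat_lit 360475) (nat_lit 8) (.e (nat_lit 557087) (nat_lit 11) (.e (nat_lit 24588) (nat_lit 0) (.e (nat_lit 6680) (nat_lit 357) .nil)))))) (.g (nat_lit 1) (.e (nat_lit 44405) (nat_lit 0) .nil) .nil)))) (.nd (nat_lit 9) 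
(.lf (nat_lit 457059) (.g (nat_lit 2199) (.e (nat_lit 2680) (nat_lit 168) (.e (nat_lit 204864) (nat_lit 27) (.e (nat_lit 344133) (nat_lit 26) (.e (nat_lit 557098) (nat_lit 13) (.e (nat_lit 179968) (nat_lit 18) .nil))))) (.g (nat_lit 0) (.e (nat_lit 43907) (nat_lit 0) .nil) .nil))) 
(.lf (nat_lit 457571) (.g (nat_lit 3819) (.e (nat_lit 2683) (nat_lit 168) (.e (nat_lit 204829) (nat_lit 18) (.e (nat_lit 57931) (nat_lit 282) (.e (nat_lit 163867) (nat_lit 2) (.e (nat_lit 196670) (nat_lit 14) (.e (nat_lit 73746) (nat_lit 3) (.e (nat_lit 516124) (nat_lit 2) (.e (nat_lit 213019) (nat_lit 9) .nil)))))))) (.g (nat_lit 1) (.e (nat_lit 45268) (nat_lit 0) .nil) .nil))))) 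
(.nd (nat_lit 8) (.nd (nat_lit 9) 
(.lf (nat_lit 456931) (.g (nat_lit 2665) (.e (nat_lit 2679) (nat_lit 168) (.e (nat_lit 204846) (nat_lit 24) (.e (nat_lit 319533) (nat_lit 16) (.e (nat_lit 286734) (nat_lit 3) (.e (nat_lit 98366) (nat_lit 27) (.e (nat_lit 442112) (nat_lit 8) .nil)))))) (.g (nat_lit 1) (.e (nat_lit 43672) (nat_lit 0) .nil) .nil))) 
(.lf (nat_lit 457443) (.g (nat_lit 2724) (.e (nat_lit 2682) (nat_lit 168) (.e (nat_lit 204869) (nat_lit 29) (.e (nat_lit 360449) (nat_lit 0) (.e (nat_lit 3959) (nat_lit 239) .nil)))) (.g (nat_lit 0) (.e (nat_lit 44764) (nat_lit 0) .nil) .nil)))) (.nd (nat_lit 9) 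
(.lf (nat_lit 457187) (.g (nat_lit 2708) (.e (nat_lit 2681) (nat_lit 168) (.e (nat_lit 204859) (nat_lit 26) (.e (nat_lit 336206) (nat_lit 12) (.e (nat_lit 385074) (nat_lit 31) (.e (nat_lit 573489) (nat_lit 14) (.e (nat_lit 73782) (nat_lit 32) .nil)))))) (.g (nat_lit 1) (.e (nat_lit 44141) (nat_lit 0) .nil) .nil))) 
(.lf (nat_lit 457699) (.g (nat_lit 2551) (.e (nat_lit 2684) (nat_lit 168) (.e (nat_lit 204846) (nat_lit 24) (.e (nat_lit 319531) (nat_lit 16) (.e (nat_lit 286735) (nat_lit 3) (.e (nat_lit 98368) (nat_lit 27) .nil))))) (.g (nat_lit 0) (.e (nat_lit 45525) (nat_lit 0) .nil) .nil)))))))) (.nd (nat_lit 5) (.nd (nat_lit 6) (.nd (nat_lit 7) (.nd (nat_lit 8) (.nd (nat_lit 9) 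
(.lf (nat_lit 456723) (.g (nat_lit 3547) (.e (nat_lit 2668) (nat_lit 167) (.e (nat_lit 196666) (nat_lit 13) (.e (nat_lit 65628) (nat_lit 14) (.e (nat_lit 401428) (nat_lit 3) (.e (nat_lit 204845) (nat_lit 24) (.e (nat_lit 319493) (nat_lit 0) (.e (nat_lit 5626) (nat_lit 312) .nil))))))) (.g (nat_lit 1) (.e (nat_lit 43202) (nat_lit 0) .nil) .nil))) 
(.lf (nat_lit 457235) (.g (nat_lit 3075) (.e (nat_lit 2681) (nat_lit 168) (.e (nat_lit 204863) (nat_lit 27) (.e (nat_lit 344131) (nat_lit 26) (.e (nat_lit 557105) (nat_lit 14) (.e (nat_lit 180252) (nat_lit 10) (.e (nat_lit 573473) (nat_lit 12) (.e (nat_lit 57508) (nat_lit 39) (.e (nat_lit 647176) (nat_lit 0) .nil)))))))) (.g (nat_lit 1) (.e (nat_lit 44208) (nat_lit 0) .nil) .nil)))) 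
(.nd (nat_lit 9) 
(.lf (nat_lit 456979) (.g (nat_lit 3022) (.e (nat_lit 2679) (nat_lit 168) (.e (nat_lit 204865) (nat_lit 28) (.e (nat_lit 352313) (nat_lit 23) (.e (nat_lit 98350) (nat_lit 24) (.e (nat_lit 409623) (nat_lit 10) (.e (nat_lit 5664) (nat_lit 312) .nil)))))) (.g (nat_lit 1) (.e (nat_lit 43752) (nat_lit 0) .nil) .nil))) 
(.lf (nat_lit 457491) (.g (nat_lit 4515) (.e (nat_lit 2682) (nat_lit 168) (.e (nat_lit 204869) (nat_lit 29) (.e (nat_lit 360473) (nat_lit 8) (.e (nat_lit 557087) (nat_lit 11) (.e (nat_lit 24584) (nat_lit 0) (.e (nat_lit 6677) (nat_lit 357) .nil)))))) (.g (nat_lit 1) (.e (nat_lit 44928) (nat_lit 0) .nil) .nil))))) (.nd (nat_lit 8) (.nd (nat_lit 9) 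
(.lf (nat_lit 456851) (.g (nat_lit 2223) (.e (nat_lit 2675) (nat_lit 168) (.e (nat_lit 204863) (nat_lit 27) (.e (nat_lit 344131) (nat_lit 26) (.e (nat_lit 557105) (nat_lit 14) (.e (nat_lit 180252) (nat_lit 10) (.e (nat_lit 573473) (nat_lit 12) (.e (nat_lit 57508) (nat_lit 39) (.e (nat_lit 647170) (nat_lit 0) .nil)))))))) (.g (nat_lit 1) (.e (nat_lit 43430) (nat_lit 0) .nil) .nil))) 
(.lf (nat_lit 457363) (.g (nat_lit 2481) (.e (nat_lit 2682) (nat_lit 168) (.e (nat_lit 204855) (nat_lit 26) (.e (nat_lit 336226) (nat_lit 14) (.e (nat_lit 401425) (nat_lit 2) (.e (nat_lit 196670) (nat_lit 14) (.e (nat_lit 73781) (nat_lit 32) .nil)))))) (.g (nat_lit 1) (.e (nat_lit 44590) (nat_lit 0) .nil) .nil)))) (.nd (nat_lit 9) 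
(.lf (nat_lit 457107) (.g (nat_lit 3070) (.e (nat_lit 2681) (nat_lit 168) (.e (nat_lit 204829) (nat_lit 18) (.e (nat_lit 57927) (nat_lit 282) (.e (nat_lit 163874) (nat_lit 3) (.e (nat_lit 204863) (nat_lit 27) (.e (nat_lit 344117) (nat_lit 21) (.e (nat_lit 516123) (nat_lit 2) (.e (nat_lit 213013) (nat_lit 9) .nil)))))))) (.g (nat_lit 1) (.e (nat_lit 43993) (nat_lit 0) .nil) .nil))) 
(.lf (nat_lit 457619) (.g (nat_lit 3588) (.e (nat_lit 2684) (nat_lit 168) (.e (nat_lit 204829) (nat_lit 18) (.e (nat_lit 57927) (nat_lit 282) (.e (nat_lit 163868) (nat_lit 2) (.e (nat_lit 196668) (nat_lit 14) (.e (nat_lit 73746) (nat_lit 3) (.e (nat_lit 516124) (nat_lit 2) (.e (nat_lit 213013) (nat_lit 9) .nil)))))))) (.g (nat_lit 1) (.e (nat_lit 45389) (nat_lit 0) .nil) .nil)))))) 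
(.nd (nat_lit 7) (.nd (nat_lit 8) (.nd (nat_lit 9) 
(.lf (nat_lit 456787) (.g (nat_lit 2693) (.e (nat_lit 2668) (nat_lit 167) (.e (nat_lit 196671) (nat_lit 15) (.e (nat_lit 81956) (nat_lit 23) (.e (nat_lit 98350) (nat_lit 24) (.e (nat_lit 409616) (nat_lit 10) .nil))))) (.g (nat_lit 0) (.e (nat_lit 43289) (nat_lit 0) .nil) .nil))) 
(.lf (nat_lit 457299) (.g (nat_lit 3225) (.e (nat_lit 2681) (nat_lit 168) (.e (nat_lit 204869) (nat_lit 29) (.e (nat_lit 360474) (nat_lit 8) (.e (nat_lit 557077) (nat_lit 9) .nil)))) (.g (nat_lit 0) (.e (nat_lit 44383) (nat_lit 0) .nil) .nil)))) (.nd (nat_lit 9) 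
(.lf (nat_lit 457043) (.g (nat_lit 2488) (.e (nat_lit 2680) (nat_lit 168) (.e (nat_lit 204829) (nat_lit 18) (.e (nat_lit 57926) (nat_lit 282) (.e (nat_lit 163875) (nat_lit 3) (.e (nat_lit 204862) (nat_lit 27) .nil))))) (.g (nat_lit 0) (.e (nat_lit 43881) (nat_lit 0) .nil) .nil))) 
(.lf (nat_lit 457555) (.g (nat_lit 2328) (.e (nat_lit 2683) (nat_lit 168) (.e (nat_lit 204829) (nat_lit 18) (.e (nat_lit 57926) (nat_lit 282) (.e (nat_lit 163871) (nat_lit 2) (.e (nat_lit 196670) (nat_lit 14) (.e (nat_lit 73746) (nat_lit 3) (.e (nat_lit 516124) (nat_lit 2) (.e (nat_lit 213019) (nat_lit 9) .nil)))))))) (.g (nat_lit 1) (.e (nat_lit 45246) (nat_lit 0) .nil) .nil))))) 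
(.nd (nat_lit 8) (.nd (nat_lit 9) 
(.lf (nat_lit 456915) (.g (nat_lit 3593) (.e (nat_lit 2679) (nat_lit 168) (.e (nat_lit 204846) (nat_lit 24) (.e (nat_lit 319529) (nat_lit 16) (.e (nat_lit 286735) (nat_lit 3) (.e (nat_lit 98367) (nat_lit 27) (.e (nat_lit 442112) (nat_lit 8) .nil)))))) (.g (nat_lit 1) (.e (nat_lit 43648) (nat_lit 0) .nil) .nil))) 
(.lf (nat_lit 457427) (.g (nat_lit 2636) (.e (nat_lit 2682) (nat_lit 168) (.e (nat_lit 204868) (nat_lit 29) (.e (nat_lit 360473) (nat_lit 8) (.e (nat_lit 557087) (nat_lit 11) (.e (nat_lit 24588) (nat_lit 0) (.e (nat_lit 6676) (nat_lit 357) .nil)))))) (.g (nat_lit 1) (.e (nat_lit 44745) (nat_lit 0) .nil) .nil)))) (.nd (nat_lit 9) 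
(.lf (nat_lit 457171) (.g (nat_lit 2555) (.e (nat_lit 2681) (nat_lit 168) (.e (nat_lit 204831) (nat_lit 18) (.e (nat_lit 57931) (nat_lit 282) (.e (nat_lit 163869) (nat_lit 2) (.e (nat_lit 196670) (nat_lit 14) .nil))))) (.g (nat_lit 0) (.e (nat_lit 44078) (nat_lit 0) .nil) .nil))) 
(.lf (nat_lit 457683) (.g (nat_lit 3786) (.e (nat_lit 2684) (nat_lit 168) (.e (nat_lit 204831) (nat_lit 18) (.e (nat_lit 57924) (nat_lit 282) (.e (nat_lit 163867) (nat_lit 2) (.e (nat_lit 196670) (nat_lit 14) (.e (nat_lit 73746) (nat_lit 3) (.e (nat_lit 516124) (nat_lit 2) (.e (nat_lit 213013) (nat_lit 9) .nil)))))))) (.g (nat_lit 1) (.e (nat_lit 45482) (nat_lit 0) .nil) .nil))))))) 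
(.nd (nat_lit 6) (.nd (nat_lit 7) (.nd (nat_lit 8) (.nd (nat_lit 9) 
(.lf (nat_lit 456755) (.g (nat_lit 3878) (.e (nat_lit 2668) (nat_lit 167) (.e (nat_lit 196666) (nat_lit 13) (.e (nat_lit 65630) (nat_lit 14) (.e (nat_lit 401428) (nat_lit 3) (.e (nat_lit 204863) (nat_lit 27) (.e (nat_lit 352000) (nat_lit 0) .nil)))))) (.g (nat_lit 1) (.e (nat_lit 43243) (nat_lit 0) .nil) .nil))) 
(.lf (nat_lit 457267) (.g (nat_lit 3797) (.e (nat_lit 2681) (nat_lit 168) (.e (nat_lit 204863) (nat_lit 27) (.e (nat_lit 344133) (nat_lit 26) (.e (nat_lit 557103) (nat_lit 14) (.e (nat_lit 180250) (nat_lit 10) (.e (nat_lit 573473) (nat_lit 12) (.e (nat_lit 57507) (nat_lit 39) (.e (nat_lit 647176) (nat_lit 0) .nil)))))))) (.g (nat_lit 1) (.e (nat_lit 44240) (nat_lit 0) .nil) .nil)))) 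
(.nd (nat_lit 9) 
(.lf (nat_lit 457011) (.g (nat_lit 2367) (.e (nat_lit 2679) (nat_lit 168) (.e (nat_lit 204868) (nat_lit 29) (.e (nat_lit 360475) (nat_lit 8) (.e (nat_lit 557087) (nat_lit 11) (.e (nat_lit 24580) (nat_lit 0) (.e (nat_lit 6665) (nat_lit 357) .nil)))))) (.g (nat_lit 1) (.e (nat_lit 43821) (nat_lit 0) .nil) .nil))) 
(.lf (nat_lit 457523) (.g (nat_lit 5630) (.e (nat_lit 2682) (nat_lit 168) (.e (nat_lit 204869) (nat_lit 29) (.e (nat_lit 360475) (nat_lit 8) (.e (nat_lit 557071) (nat_lit 9) .nil)))) (.g (nat_lit 0) (.e (nat_lit 45112) (nat_lit 0) .nil) .nil))))) (.nd (nat_lit 8) (.nd (nat_lit 9) 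
(.lf (nat_lit 456883) (.g (nat_lit 3608) (.e (nat_lit 2677) (nat_lit 168) (.e (nat_lit 204869) (nat_lit 29) (.e (nat_lit 360474) (nat_lit 8) (.e (nat_lit 557073) (nat_lit 9) .nil)))) (.g (nat_lit 0) (.e (nat_lit 43495) (nat_lit 0) .nil) .nil))) 
(.lf (nat_lit 457395) (.g (nat_lit 3055) (.e (nat_lit 2682) (nat_lit 168) (.e (nat_lit 204863) (nat_lit 27) (.e (nat_lit 344132) (nat_lit 26) (.e (nat_lit 557105) (nat_lit 14) (.e (nat_lit 180252) (nat_lit 10) (.e (nat_lit 573473) (nat_lit 12) (.e (nat_lit 57507) (nat_lit 39) (.e (nat_lit 647177) (nat_lit 0) .nil)))))))) (.g (nat_lit 1) (.e (nat_lit 44654) (nat_lit 0) .nil) .nil)))) 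
(.nd (nat_lit 9) 
(.lf (nat_lit 457139) (.g (nat_lit 2497) (.e (nat_lit 2681) (nat_lit 168) (.e (nat_lit 204830) (nat_lit 18) (.e (nat_lit 57926) (nat_lit 282) (.e (nat_lit 163869) (nat_lit 2) (.e (nat_lit 196670) (nat_lit 14) (.e (nat_lit 73746) (nat_lit 3) (.e (nat_lit 516124) (nat_lit 2) (.e (nat_lit 213023) (nat_lit 9) .nil)))))))) (.g (nat_lit 1) (.e (nat_lit 44034) (nat_lit 0) .nil) .nil))) 
(.lf (nat_lit 457651) (.g (nat_lit 2607) (.e (nat_lit 2684) (nat_lit 168) (.e (nat_lit 204830) (nat_lit 18) (.e (nat_lit 57926) (nat_lit 282) (.e (nat_lit 163871) (nat_lit 2) (.e (nat_lit 196670) (nat_lit 14) (.e (nat_lit 73746) (nat_lit 3) (.e (nat_lit 516124) (nat_lit 2) (.e (nat_lit 213019) (nat_lit 9) .nil)))))))) (.g (nat_lit 1) (.e (nat_lit 45439) (nat_lit 0) .nil) .nil)))))) 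
(.nd (nat_lit 7) (.nd (nat_lit 8) (.nd (nat_lit 9) 
(.lf (nat_lit 456819) (.g (nat_lit 932) (.e (nat_lit 7936) (nat_lit 167) (.e (nat_lit 196672) (nat_lit 15) (.e (nat_lit 81954) (nat_lit 23) (.e (nat_lit 98320) (nat_lit 17) .nil)))) (.g (nat_lit 0) (.e (nat_lit 43329) (nat_lit 0) .nil) .nil))) 
(.lf (nat_lit 457331) (.g (nat_lit 4693) (.e (nat_lit 2682) (nat_lit 168) (.e (nat_lit 204845) (nat_lit 24) (.e (nat_lit 319538) (nat_lit 19) (.e (nat_lit 311315) (nat_lit 3) (.e (nat_lit 204846) (nat_lit 24) (.e (nat_lit 319505) (nat_lit 10) (.e (nat_lit 5714) (nat_lit 312) .nil))))))) (.g (nat_lit 1) (.e (nat_lit 44524) (nat_lit 0) .nil) .nil)))) (.nd (nat_lit 9) 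
(.lf (nat_lit 457075) (.g (nat_lit 3028) (.e (nat_lit 2681) (nat_lit 168) (.e (nat_lit 204829) (nat_lit 18) (.e (nat_lit 57926) (nat_lit 282) (.e (nat_lit 163869) (nat_lit 2) (.e (nat_lit 196670) (nat_lit 14) (.e (nat_lit 73746) (nat_lit 3) (.e (nat_lit 516127) (nat_lit 2) (.e (nat_lit 213019) (nat_lit 9) .nil)))))))) (.g (nat_lit 1) (.e (nat_lit 43954) (nat_lit 0) .nil) .nil))) 
(.lf (nat_lit 457587) (.g (nat_lit 3792) (.e (nat_lit 2683) (nat_lit 168) (.e (nat_lit 204830) (nat_lit 18) (.e (nat_lit 57926) (nat_lit 282) (.e (nat_lit 163871) (nat_lit 2) (.e (nat_lit 196670) (nat_lit 14) (.e (nat_lit 73746) (nat_lit 3) (.e (nat_lit 516124) (nat_lit 2) (.e (nat_lit 213019) (nat_lit 9) .nil)))))))) (.g (nat_lit 1) (.e (nat_lit 45289) (nat_lit 0) .nil) .nil))))) 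
(.nd (nat_lit 8) (.nd (nat_lit 9) 
(.lf (nat_lit 456947) (.g (nat_lit 3035) (.e (nat_lit 2679) (nat_lit 168) (.e (nat_lit 204846) (nat_lit 24) (.e (nat_lit 319534) (nat_lit 16) (.e (nat_lit 286735) (nat_lit 3) (.e (nat_lit 98368) (nat_lit 27) (.e (nat_lit 442112) (nat_lit 8) .nil)))))) (.g (nat_lit 1) (.e (nat_lit 43690) (nat_lit 0) .nil) .nil))) 
(.lf (nat_lit 457459) (.g (nat_lit 3408) (.e (nat_lit 2682) (nat_lit 168) (.e (nat_lit 204869) (nat_lit 29) (.e (nat_lit 360451) (nat_lit 0) (.e (nat_lit 3986) (nat_lit 239) .nil)))) (.g (nat_lit 0) (.e (nat_lit 44796) (nat_lit 0) .nil) .nil)))) (.nd (nat_lit 9) 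
(.lf (nat_lit 457203) (.g (nat_lit 859) (.e (nat_lit 2681) (nat_lit 168) (.e (nat_lit 204863) (nat_lit 27) (.e (nat_lit 344065) (nat_lit 0) .nil))) (.g (nat_lit 0) (.e (nat_lit 44175) (nat_lit 0) .nil) .nil))) 
(.lf (nat_lit 457715) (.g (nat_lit 4454) (.e (nat_lit 2684) (nat_lit 168) (.e (nat_lit 204852) (nat_lit 26) (.e (nat_lit 336326) (nat_lit 18) (.e (nat_lit 204830) (nat_lit 18) (.e (nat_lit 57852) (nat_lit 252) (.e (nat_lit 57378) (nat_lit 3) (.e (nat_lit 98338) (nat_lit 19) (.e (nat_lit 213013) (nat_lit 9) .nil)))))))) (.g (nat_lit 1) (.e (nat_lit 45544) (nat_lit 0) .nil) .nil))))))))) 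
(.nd (nat_lit 4) (.nd (nat_lit 5) (.nd (nat_lit 6) (.nd (nat_lit 7) (.nd (nat_lit 8) 
(.nd (nat_lit 9) 
(.lf (nat_lit 456715) (.g (nat_lit 2905) (.e (nat_lit 2668) (nat_lit 167) (.e (nat_lit 196666) (nat_lit 13) (.e (nat_lit 65628) (nat_lit 14) (.e (nat_lit 401425) (nat_lit 2) (.e (nat_lit 196628) (nat_lit 9) (.e (nat_lit 1518) (nat_lit 108) (.e (nat_lit 335874) (nat_lit 0) (.e (nat_lit 6618) (nat_lit 357) .nil)))))))) (.g (nat_lit 1) (.e (nat_lit 43193) (nat_lit 0) .nil) .nil))) 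
(.lf (nat_lit 457227) (.g (nat_lit 2448) (.e (nat_lit 2681) (nat_lit 168) (.e (nat_lit 204863) (nat_lit 27) (.e (nat_lit 344130) (nat_lit 26) (.e (nat_lit 557104) (nat_lit 14) (.e (nat_lit 180252) (nat_lit 10) (.e (nat_lit 573473) (nat_lit 12) (.e (nat_lit 57507) (nat_lit 39) (.e (nat_lit 647176) (nat_lit 0) .nil)))))))) (.g (nat_lit 1) (.e (nat_lit 44200) (nat_lit 0) .nil) .nil)))) 
(.nd (nat_lit 9) 
(.lf (nat_lit 456971) (.g (nat_lit 2302) (.e (nat_lit 2679) (nat_lit 168) (.e (nat_lit 204864) (nat_lit 27) (.e (nat_lit 344130) (nat_lit 26) (.e (nat_lit 557103) (nat_lit 14) (.e (nat_lit 188160) (nat_lit 3) (.e (nat_lit 516135) (nat_lit 5) (.e (nat_lit 253954) (nat_lit 0) .nil))))))) (.g (nat_lit 1) (.e (nat_lit 43741) (nat_lit 0) .nil) .nil))) 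
(.lf (nat_lit 457483) (.g (nat_lit 2488) (.e (nat_lit 2682) (nat_lit 168) (.e (nat_lit 204869) (nat_lit 29) (.e (nat_lit 360473) (nat_lit 8) (.e (nat_lit 557065) (nat_lit 9) .nil)))) (.g (nat_lit 0) (.e (nat_lit 44920) (nat_lit 0) .nil) .nil))))) (.nd (nat_lit 8) (.nd (nat_lit 9) 
(.lf (nat_lit 456843) (.g (nat_lit 2716) (.e (nat_lit 2675) (nat_lit 168) (.e (nat_lit 204830) (nat_lit 18) (.e (nat_lit 57926) (nat_lit 282) (.e (nat_lit 163871) (nat_lit 2) (.e (nat_lit 196668) (nat_lit 14) (.e (nat_lit 73746) (nat_lit 3) (.e (nat_lit 516124) (nat_lit 2) (.e (nat_lit 213019) (nat_lit 9) .nil)))))))) (.g (nat_lit 1) (.e (nat_lit 43411) (nat_lit 0) .nil) .nil))) 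
(.lf (nat_lit 457355) (.g (nat_lit 1370) (.e (nat_lit 2682) (nat_lit 168) (.e (nat_lit 204855) (nat_lit 26) (.e (nat_lit 336058) (nat_lit 7) (.e (nat_lit 319519) (nat_lit 12) (.e (nat_lit 32788) (nat_lit 10) .nil))))) (.g (nat_lit 0) (.e (nat_lit 44579) (nat_lit 0) .nil) .nil)))) (.nd (nat_lit 9) 
(.lf (nat_lit 457099) (.g (nat_lit 3998) (.e (nat_lit 2681) (nat_lit 168) (.e (nat_lit 204829) (nat_lit 18) (.e (nat_lit 57927) (nat_lit 282) (.e (nat_lit 163869) (nat_lit 2) (.e (nat_lit 196670) (nat_lit 14) (.e (nat_lit 73746) (nat_lit 3) (.e (nat_lit 516127) (nat_lit 2) (.e (nat_lit 213019) (nat_lit 9) .nil)))))))) (.g (nat_lit 1) (.e (nat_lit 43985) (nat_lit 0) .nil) .nil))) 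
(.lf (nat_lit 457611) (.g (nat_lit 2060) (.e (nat_lit 2684) (nat_lit 168) (.e (nat_lit 204829) (nat_lit 18) (.e (nat_lit 57926) (nat_lit 282) (.e (nat_lit 163869) (nat_lit 2) (.e (nat_lit 196670) (nat_lit 14) (.e (nat_lit 73746) (nat_lit 3) (.e (nat_lit 516127) (nat_lit 2) (.e (nat_lit 213013) (nat_lit 9) .nil)))))))) (.g (nat_lit 1) (.e (nat_lit 45379) (nat_lit 0) .nil) .nil)))))) 
(.nd (nat_lit 7) (.nd (nat_lit 8) (.nd (nat_lit 9) 
(.lf (nat_lit 456779) (.g (nat_lit 2731) (.e (nat_lit 2668) (nat_lit 167) (.e (nat_lit 196670) (nat_lit 14) (.e (nat_lit 73754) (nat_lit 8) (.e (nat_lit 557105) (nat_lit 14) (.e (nat_lit 180252) (nat_lit 10) (.e (nat_lit 573475) (nat_lit 12) (.e (nat_lit 57508) (nat_lit 39) (.e (nat_lit 647168) (nat_lit 0) .nil)))))))) (.g (nat_lit 1) (.e (nat_lit 43273) (nat_lit 0) .nil) .nil))) 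
(.lf (nat_lit 457291) (.g (nat_lit 2490) (.e (nat_lit 2681) (nat_lit 168) (.e (nat_lit 204869) (nat_lit 29) (.e (nat_lit 360451) (nat_lit 0) (.e (nat_lit 3959) (nat_lit 239) .nil)))) (.g (nat_lit 0) (.e (nat_lit 44351) (nat_lit 0) .nil) .nil)))) (.nd (nat_lit 9) 
(.lf (nat_lit 457035) (.g (nat_lit 1862) (.e (nat_lit 2679) (nat_lit 168) (.e (nat_lit 204877) (nat_lit 31) (.e (nat_lit 376865) (nat_lit 22) (.e (nat_lit 90181) (nat_lit 16) (.e (nat_lit 229577) (nat_lit 179) (.e (nat_lit 164361) (nat_lit 246) .nil)))))) (.g (nat_lit 1) (.e (nat_lit 43862) (nat_lit 0) .nil) .nil))) 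
(.lf (nat_lit 457547) (.g (nat_lit 1808) (.e (nat_lit 2682) (nat_lit 168) (.e (nat_lit 204870) (nat_lit 29) (.e (nat_lit 360471) (nat_lit 7) (.e (nat_lit 548890) (nat_lit 10) (.e (nat_lit 73782) (nat_lit 32) .nil))))) (.g (nat_lit 1) (.e (nat_lit 45214) (nat_lit 0) .nil) .nil))))) (.nd (nat_lit 8) (.nd (nat_lit 9) 
(.lf (nat_lit 456907) (.g (nat_lit 2549) (.e (nat_lit 2679) (nat_lit 168) (.e (nat_lit 204845) (nat_lit 24) (.e (nat_lit 319530) (nat_lit 16) (.e (nat_lit 286735) (nat_lit 3) (.e (nat_lit 98325) (nat_lit 17) (.e (nat_lit 6986) (nat_lit 377) (.e (nat_lit 1076) (nat_lit 81) (.e (nat_lit 5664) (nat_lit 312) .nil)))))))) (.g (nat_lit 1) (.e (nat_lit 43627) (nat_lit 0) .nil) .nil))) 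
(.lf (nat_lit 457419) (.g (nat_lit 1096) (.e (nat_lit 2682) (nat_lit 168) (.e (nat_lit 204868) (nat_lit 29) (.e (nat_lit 360466) (nat_lit 3) (.e (nat_lit 516138) (nat_lit 7) .nil)))) (.g (nat_lit 0) (.e (nat_lit 44715) (nat_lit 0) .nil) .nil)))) (.nd (nat_lit 9) 
(.lf (nat_lit 457163) (.g (nat_lit 2669) (.e (nat_lit 2681) (nat_lit 168) (.e (nat_lit 204830) (nat_lit 18) (.e (nat_lit 57931) (nat_lit 282) (.e (nat_lit 163869) (nat_lit 2) (.e (nat_lit 196670) (nat_lit 14) (.e (nat_lit 73746) (nat_lit 3) (.e (nat_lit 516124) (nat_lit 2) (.e (nat_lit 213019) (nat_lit 9) .nil)))))))) (.g (nat_lit 1) (.e (nat_lit 44060) (nat_lit 0) .nil) .nil))) 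
(.lf (nat_lit 457675) (.g (nat_lit 2819) (.e (nat_lit 2684) (nat_lit 168) (.e (nat_lit 204830) (nat_lit 18) (.e (nat_lit 57928) (nat_lit 282) (.e (nat_lit 163871) (nat_lit 2) (.e (nat_lit 196668) (nat_lit 14) (.e (nat_lit 73747) (nat_lit 3) (.e (nat_lit 516124) (nat_lit 2) (.e (nat_lit 213013) (nat_lit 9) .nil)))))))) (.g (nat_lit 1) (.e (nat_lit 45468) (nat_lit 0) .nil) .nil))))))) 
(.nd (nat_lit 6) (.nd (nat_lit 7) (.nd (nat_lit 8) (.nd (nat_lit 9) 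
(.lf (nat_lit 456747) (.g (nat_lit 3235) (.e (nat_lit 2668) (nat_lit 167) (.e (nat_lit 196666) (nat_lit 13) (.e (nat_lit 65630) (nat_lit 14) (.e (nat_lit 401428) (nat_lit 3) (.e (nat_lit 204845) (nat_lit 24) (.e (nat_lit 319492) (nat_lit 0) (.e (nat_lit 5626) (nat_lit 312) .nil))))))) (.g (nat_lit 1) (.e (nat_lit 43235) (nat_lit 0) .nil) .nil))) 
(.lf (nat_lit 457259) (.g (nat_lit 2994) (.e (nat_lit 2681) (nat_lit 168) (.e (nat_lit 204863) (nat_lit 27) (.e (nat_lit 344133) (nat_lit 26) (.e (nat_lit 557098) (nat_lit 13) (.e (nat_lit 172067) (nat_lit 3) (.e (nat_lit 204829) (nat_lit 18) (.e (nat_lit 57704) (nat_lit 164) (.e (nat_lit 2515) (nat_lit 157) .nil)))))))) (.g (nat_lit 1) (.e (nat_lit 44232) (nat_lit 0) .nil) .nil)))) 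
(.nd (nat_lit 9) 
(.lf (nat_lit 457003) (.g (nat_lit 2773) (.e (nat_lit 2679) (nat_lit 168) (.e (nat_lit 204868) (nat_lit 29) (.e (nat_lit 360466) (nat_lit 3) (.e (nat_lit 516142) (nat_lit 8) (.e (nat_lit 417818) (nat_lit 10) (.e (nat_lit 5667) (nat_lit 312) .nil)))))) (.g (nat_lit 1) (.e (nat_lit 43783) (nat_lit 0) .nil) .nil))) 
(.lf (nat_lit 457515) (.g (nat_lit 4081) (.e (nat_lit 2682) (nat_lit 168) (.e (nat_lit 204869) (nat_lit 29) (.e (nat_lit 360474) (nat_lit 8) (.e (nat_lit 557087) (nat_lit 11) (.e (nat_lit 24588) (nat_lit 0) (.e (nat_lit 6676) (nat_lit 357) .nil)))))) (.g (nat_lit 1) (.e (nat_lit 44956) (nat_lit 0) .nil) .nil))))) (.nd (nat_lit 8) (.nd (nat_lit 9) 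
(.lf (nat_lit 456875) (.g (nat_lit 1835) (.e (nat_lit 2675) (nat_lit 168) (.e (nat_lit 204877) (nat_lit 31) (.e (nat_lit 376865) (nat_lit 22) (.e (nat_lit 90181) (nat_lit 16) (.e (nat_lit 229577) (nat_lit 179) (.e (nat_lit 164362) (nat_lit 246) .nil)))))) (.g (nat_lit 1) (.e (nat_lit 43469) (nat_lit 0) .nil) .nil))) 
(.lf (nat_lit 457387) (.g (nat_lit 2866) (.e (nat_lit 2682) (nat_lit 168) (.e (nat_lit 204863) (nat_lit 27) (.e (nat_lit 344129) (nat_lit 26) (.e (nat_lit 557104) (nat_lit 14) (.e (nat_lit 180252) (nat_lit 10) (.e (nat_lit 573474) (nat_lit 12) (.e (nat_lit 57508) (nat_lit 39) (.e (nat_lit 647177) (nat_lit 0) .nil)))))))) (.g (nat_lit 1) (.e (nat_lit 44646) (nat_lit 0) .nil) .nil)))) 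
(.nd (nat_lit 9) 
(.lf (nat_lit 457131) (.g (nat_lit 3095) (.e (nat_lit 2681) (nat_lit 168) (.e (nat_lit 204830) (nat_lit 18) (.e (nat_lit 57926) (nat_lit 282) (.e (nat_lit 163868) (nat_lit 2) (.e (nat_lit 196670) (nat_lit 14) .nil))))) (.g (nat_lit 0) (.e (nat_lit 44024) (nat_lit 0) .nil) .nil))) 
(.lf (nat_lit 457643) (.g (nat_lit 3570) (.e (nat_lit 2684) (nat_lit 168) (.e (nat_lit 204830) (nat_lit 18) (.e (nat_lit 57925) (nat_lit 282) (.e (nat_lit 163875) (nat_lit 3) (.e (nat_lit 204862) (nat_lit 27) (.e (nat_lit 344117) (nat_lit 21) (.e (nat_lit 516123) (nat_lit 2) (.e (nat_lit 213013) (nat_lit 9) .nil)))))))) (.g (nat_lit 1) (.e (nat_lit 45426) (nat_lit 0) .nil) .nil)))))) 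
(.nd (nat_lit 7) (.nd (nat_lit 8) (.nd (nat_lit 9) 
(.lf (nat_lit 456811) (.g (nat_lit 2709) (.e (nat_lit 2669) (nat_lit 167) (.e (nat_lit 196666) (nat_lit 13) (.e (nat_lit 65610) (nat_lit 10) (.e (nat_lit 344129) (nat_lit 26) .nil)))) (.g (nat_lit 0) (.e (nat_lit 43320) (nat_lit 0) .nil) .nil))) 
(.lf (nat_lit 457323) (.g (nat_lit 1225) (.e (nat_lit 2682) (nat_lit 168) (.e (nat_lit 204829) (nat_lit 18) (.e (nat_lit 57692) (nat_lit 156) .nil))) (.g (nat_lit 0) (.e (nat_lit 44503) (nat_lit 0) .nil) .nil)))) (.nd (nat_lit 9) 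
(.lf (nat_lit 457067) (.g (nat_lit 2474) (.e (nat_lit 2681) (nat_lit 168) (.e (nat_lit 204829) (nat_lit 18) (.e (nat_lit 57925) (nat_lit 282) (.e (nat_lit 163867) (nat_lit 2) (.e (nat_lit 196670) (nat_lit 14) (.e (nat_lit 73746) (nat_lit 3) (.e (nat_lit 516124) (nat_lit 2) (.e (nat_lit 213019) (nat_lit 9) .nil)))))))) (.g (nat_lit 1) (.e (nat_lit 43945) (nat_lit 0) .nil) .nil))) 
(.lf (nat_lit 457579) (.g (nat_lit 2565) (.e (nat_lit 2683) (nat_lit 168) (.e (nat_lit 204830) (nat_lit 18) (.e (nat_lit 57926) (nat_lit 282) (.e (nat_lit 163869) (nat_lit 2) (.e (nat_lit 196670) (nat_lit 14) (.e (nat_lit 73746) (nat_lit 3) (.e (nat_lit 516124) (nat_lit 2) (.e (nat_lit 213015) (nat_lit 9) .nil)))))))) (.g (nat_lit 1) (.e (nat_lit 45281) (nat_lit 0) .nil) .nil))))) 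
(.nd (nat_lit 8) (.nd (nat_lit 9) 
(.lf (nat_lit 456939) (.g (nat_lit 2224) (.e (nat_lit 2679) (nat_lit 168) (.e (nat_lit 204846) (nat_lit 24) (.e (nat_lit 319534) (nat_lit 16) (.e (nat_lit 286734) (nat_lit 3) (.e (nat_lit 98350) (nat_lit 24) .nil))))) (.g (nat_lit 0) (.e (nat_lit 43682) (nat_lit 0) .nil) .nil))) 
(.lf (nat_lit 457451) (.g (nat_lit 462) (.e (nat_lit 2682) (nat_lit 168) (.e (nat_lit 204869) (nat_lit 29) (.e (nat_lit 360451) (nat_lit 0) .nil))) (.g (nat_lit 0) (.e (nat_lit 44788) (nat_lit 0) .nil) .nil)))) (.nd (nat_lit 9) 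
(.lf (nat_lit 457195) (.g (nat_lit 2549) (.e (nat_lit 2681) (nat_lit 168) (.e (nat_lit 204862) (nat_lit 27) (.e (nat_lit 344129) (nat_lit 26) (.e (nat_lit 557097) (nat_lit 13) (.e (nat_lit 172133) (nat_lit 15) .nil))))) (.g (nat_lit 0) (.e (nat_lit 44167) (nat_lit 0) .nil) .nil))) 
(.lf (nat_lit 457707) (.g (nat_lit 1911) (.e (nat_lit 2684) (nat_lit 168) (.e (nat_lit 204846) (nat_lit 24) (.e (nat_lit 319534) (nat_lit 16) (.e (nat_lit 286735) (nat_lit 3) .nil)))) (.g (nat_lit 0) (.e (nat_lit 45533) (nat_lit 0) .nil) .nil)))))))) (.nd (nat_lit 5) (.nd (nat_lit 6) (.nd (nat_lit 7) (.nd (nat_lit 8) (.nd (nat_lit 9) 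
(.lf (nat_lit 456731) (.g (nat_lit 3525) (.e (nat_lit 2668) (nat_lit 167) (.e (nat_lit 196666) (nat_lit 13) (.e (nat_lit 65628) (nat_lit 14) (.e (nat_lit 401428) (nat_lit 3) (.e (nat_lit 204863) (nat_lit 27) (.e (nat_lit 352000) (nat_lit 0) .nil)))))) (.g (nat_lit 1) (.e (nat_lit 43210) (nat_lit 0) .nil) .nil))) 
(.lf (nat_lit 457243) (.g (nat_lit 2106) (.e (nat_lit 2681) (nat_lit 168) (.e (nat_lit 204863) (nat_lit 27) (.e (nat_lit 344132) (nat_lit 26) (.e (nat_lit 557105) (nat_lit 14) (.e (nat_lit 180251) (nat_lit 10) .nil))))) (.g (nat_lit 0) (.e (nat_lit 44216) (nat_lit 0) .nil) .nil)))) (.nd (nat_lit 9) 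
(.lf (nat_lit 456987) (.g (nat_lit 3024) (.e (nat_lit 2679) (nat_lit 168) (.e (nat_lit 204868) (nat_lit 29) (.e (nat_lit 360466) (nat_lit 3) (.e (nat_lit 516098) (nat_lit 0) (.e (nat_lit 7109) (nat_lit 380) (.e (nat_lit 164359) (nat_lit 246) .nil)))))) (.g (nat_lit 1) (.e (nat_lit 43767) (nat_lit 0) .nil) .nil))) 
(.lf (nat_lit 457499) (.g (nat_lit 1958) (.e (nat_lit 2682) (nat_lit 168) (.e (nat_lit 204869) (nat_lit 29) (.e (nat_lit 360474) (nat_lit 8) (.e (nat_lit 557070) (nat_lit 9) .nil)))) (.g (nat_lit 0) (.e (nat_lit 44938) (nat_lit 0) .nil) .nil))))) (.nd (nat_lit 8) (.nd (nat_lit 9) 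
(.lf (nat_lit 456859) (.g (nat_lit 2221) (.e (nat_lit 2675) (nat_lit 168) (.e (nat_lit 204868) (nat_lit 29) (.e (nat_lit 360475) (nat_lit 8) (.e (nat_lit 557086) (nat_lit 11) .nil)))) (.g (nat_lit 0) (.e (nat_lit 43445) (nat_lit 0) .nil) .nil))) 
(.lf (nat_lit 457371) (.g (nat_lit 3302) (.e (nat_lit 2682) (nat_lit 168) (.e (nat_lit 204861) (nat_lit 26) (.e (nat_lit 336204) (nat_lit 12) (.e (nat_lit 385074) (nat_lit 31) (.e (nat_lit 573487) (nat_lit 14) (.e (nat_lit 73782) (nat_lit 32) .nil)))))) (.g (nat_lit 1) (.e (nat_lit 44627) (nat_lit 0) .nil) .nil)))) (.nd (nat_lit 9) 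
(.lf (nat_lit 457115) (.g (nat_lit 3177) (.e (nat_lit 2681) (nat_lit 168) (.e (nat_lit 204829) (nat_lit 18) (.e (nat_lit 57931) (nat_lit 282) (.e (nat_lit 163867) (nat_lit 2) (.e (nat_lit 196670) (nat_lit 14) (.e (nat_lit 73746) (nat_lit 3) (.e (nat_lit 516127) (nat_lit 2) (.e (nat_lit 213019) (nat_lit 9) .nil)))))))) (.g (nat_lit 1) (.e (nat_lit 44003) (nat_lit 0) .nil) .nil))) 
(.lf (nat_lit 457627) (.g (nat_lit 2309) (.e (nat_lit 2684) (nat_lit 168) (.e (nat_lit 204829) (nat_lit 18) (.e (nat_lit 57928) (nat_lit 282) (.e (nat_lit 163868) (nat_lit 2) (.e (nat_lit 196668) (nat_lit 14) (.e (nat_lit 73746) (nat_lit 3) (.e (nat_lit 516124) (nat_lit 2) (.e (nat_lit 213013) (nat_lit 9) .nil)))))))) (.g (nat_lit 1) (.e (nat_lit 45400) (nat_lit 0) .nil) .nil)))))) 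
(.nd (nat_lit 7) (.nd (nat_lit 8) (.nd (nat_lit 9) 
(.lf (nat_lit 456795) (.g (nat_lit 1641) (.e (nat_lit 2668) (nat_lit 167) (.e (nat_lit 196672) (nat_lit 15) (.e (nat_lit 81954) (nat_lit 23) (.e (nat_lit 98353) (nat_lit 25) .nil)))) (.g (nat_lit 0) (.e (nat_lit 43297) (nat_lit 0) .nil) .nil))) 
(.lf (nat_lit 457307) (.g (nat_lit 3899) (.e (nat_lit 2681) (nat_lit 168) (.e (nat_lit 204869) (nat_lit 29) (.e (nat_lit 360475) (nat_lit 8) (.e (nat_lit 557070) (nat_lit 9) (.e (nat_lit 296) (nat_lit 22) .nil))))) (.g (nat_lit 0) (.e (nat_lit 44396) (nat_lit 0) .nil) .nil)))) (.nd (nat_lit 9) 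
(.lf (nat_lit 457051) (.g (nat_lit 2455) (.e (nat_lit 2680) (nat_lit 168) (.e (nat_lit 204830) (nat_lit 18) (.e (nat_lit 57926) (nat_lit 282) (.e (nat_lit 163869) (nat_lit 2) (.e (nat_lit 196670) (nat_lit 14) (.e (nat_lit 73746) (nat_lit 3) (.e (nat_lit 516124) (nat_lit 2) (.e (nat_lit 213009) (nat_lit 9) .nil)))))))) (.g (nat_lit 1) (.e (nat_lit 43892) (nat_lit 0) .nil) .nil))) 
(.lf (nat_lit 457563) (.g (nat_lit 3340) (.e (nat_lit 2683) (nat_lit 168) (.e (nat_lit 204829) (nat_lit 18) (.e (nat_lit 57927) (nat_lit 282) (.e (nat_lit 163871) (nat_lit 2) (.e (nat_lit 196670) (nat_lit 14) (.e (nat_lit 73746) (nat_lit 3) (.e (nat_lit 516124) (nat_lit 2) (.e (nat_lit 213019) (nat_lit 9) .nil)))))))) (.g (nat_lit 1) (.e (nat_lit 45258) (nat_lit 0) .nil) .nil))))) 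
(.nd (nat_lit 8) (.nd (nat_lit 9) 
(.lf (nat_lit 456923) (.g (nat_lit 3307) (.e (nat_lit 2679) (nat_lit 168) (.e (nat_lit 204846) (nat_lit 24) (.e (nat_lit 319532) (nat_lit 16) (.e (nat_lit 286733) (nat_lit 2) (.e (nat_lit 90172) (nat_lit 14) (.e (nat_lit 188160) (nat_lit 40) .nil)))))) (.g (nat_lit 1) (.e (nat_lit 43658) (nat_lit 0) .nil) .nil))) 
(.lf (nat_lit 457435) (.g (nat_lit 2148) (.e (nat_lit 2682) (nat_lit 168) (.e (nat_lit 204869) (nat_lit 29) (.e (nat_lit 360448) (nat_lit 0) (.e (nat_lit 3952) (nat_lit 239) (.e (nat_lit 1208) (nat_lit 89) .nil))))) (.g (nat_lit 0) (.e (nat_lit 44756) (nat_lit 0) .nil) .nil)))) (.nd (nat_lit 9) 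
(.lf (nat_lit 457179) (.g (nat_lit 2720) (.e (nat_lit 2681) (nat_lit 168) (.e (nat_lit 204846) (nat_lit 24) (.e (nat_lit 319490) (nat_lit 0) (.e (nat_lit 5664) (nat_lit 312) (.e (nat_lit 2661) (nat_lit 167) (.e (nat_lit 196670) (nat_lit 14) (.e (nat_lit 73781) (nat_lit 32) .nil))))))) (.g (nat_lit 1) (.e (nat_lit 44099) (nat_lit 0) .nil) .nil))) 
(.lf (nat_lit 457691) (.g (nat_lit 2396) (.e (nat_lit 2684) (nat_lit 168) (.e (nat_lit 204845) (nat_lit 24) (.e (nat_lit 319530) (nat_lit 16) (.e (nat_lit 286733) (nat_lit 2) (.e (nat_lit 90174) (nat_lit 14) .nil))))) (.g (nat_lit 0) (.e (nat_lit 45517) (nat_lit 0) .nil) .nil))))))) (.nd (nat_lit 6) (.nd (nat_lit 7) (.nd (nat_lit 8) (.nd (nat_lit 9) 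
(.lf (nat_lit 456763) (.g (nat_lit 2023) (.e (nat_lit 2668) (nat_lit 167) (.e (nat_lit 196669) (nat_lit 14) (.e (nat_lit 73755) (nat_lit 8) (.e (nat_lit 557105) (nat_lit 14) (.e (nat_lit 180252) (nat_lit 10) (.e (nat_lit 573474) (nat_lit 12) (.e (nat_lit 57507) (nat_lit 39) (.e (nat_lit 655104) (nat_lit 0) .nil)))))))) (.g (nat_lit 1) (.e (nat_lit 43255) (nat_lit 0) .nil) .nil))) 
(.lf (nat_lit 457275) (.g (nat_lit 4392) (.e (nat_lit 2681) (nat_lit 168) (.e (nat_lit 204863) (nat_lit 27) (.e (nat_lit 344133) (nat_lit 26) (.e (nat_lit 557105) (nat_lit 14) (.e (nat_lit 180252) (nat_lit 10) (.e (nat_lit 573473) (nat_lit 12) (.e (nat_lit 57507) (nat_lit 39) (.e (nat_lit 647176) (nat_lit 0) .nil)))))))) (.g (nat_lit 1) (.e (nat_lit 44248) (nat_lit 0) .nil) .nil)))) 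
(.nd (nat_lit 9) 
(.lf (nat_lit 457019) (.g (nat_lit 1497) (.e (nat_lit 2679) (nat_lit 168) (.e (nat_lit 204869) (nat_lit 29) (.e (nat_lit 360474) (nat_lit 8) (.e (nat_lit 557073) (nat_lit 9) .nil)))) (.g (nat_lit 0) (.e (nat_lit 43833) (nat_lit 0) .nil) .nil))) 
(.lf (nat_lit 457531) (.g (nat_lit 3456) (.e (nat_lit 2682) (nat_lit 168) (.e (nat_lit 204869) (nat_lit 29) (.e (nat_lit 360475) (nat_lit 8) (.e (nat_lit 557086) (nat_lit 11) .nil)))) (.g (nat_lit 0) (.e (nat_lit 45122) (nat_lit 0) .nil) .nil))))) (.nd (nat_lit 8) (.nd (nat_lit 9) 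
(.lf (nat_lit 456891) (.g (nat_lit 2766) (.e (nat_lit 2678) (nat_lit 168) (.e (nat_lit 204863) (nat_lit 27) (.e (nat_lit 344129) (nat_lit 26) (.e (nat_lit 557097) (nat_lit 13) (.e (nat_lit 172133) (nat_lit 15) .nil))))) (.g (nat_lit 0) (.e (nat_lit 43505) (nat_lit 0) .nil) .nil))) 
(.lf (nat_lit 457403) (.g (nat_lit 1786) (.e (nat_lit 2682) (nat_lit 168) (.e (nat_lit 204863) (nat_lit 27) (.e (nat_lit 344133) (nat_lit 26) (.e (nat_lit 557103) (nat_lit 14) .nil)))) (.g (nat_lit 0) (.e (nat_lit 44662) (nat_lit 0) .nil) .nil)))) (.nd (nat_lit 9) 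
(.lf (nat_lit 457147) (.g (nat_lit 4024) (.e (nat_lit 2681) (nat_lit 168) (.e (nat_lit 204830) (nat_lit 18) (.e (nat_lit 57926) (nat_lit 282) (.e (nat_lit 163871) (nat_lit 2) (.e (nat_lit 196670) (nat_lit 14) (.e (nat_lit 73746) (nat_lit 3) (.e (nat_lit 516124) (nat_lit 2) (.e (nat_lit 213019) (nat_lit 9) .nil)))))))) (.g (nat_lit 1) (.e (nat_lit 44043) (nat_lit 0) .nil) .nil))) 
(.lf (nat_lit 457659) (.g (nat_lit 2439) (.e (nat_lit 2684) (nat_lit 168) (.e (nat_lit 204830) (nat_lit 18) (.e (nat_lit 57927) (nat_lit 282) (.e (nat_lit 163868) (nat_lit 2) (.e (nat_lit 196663) (nat_lit 13) (.e (nat_lit 65569) (nat_lit 3) (.e (nat_lit 98338) (nat_lit 19) (.e (nat_lit 213013) (nat_lit 9) .nil)))))))) (.g (nat_lit 1) (.e (nat_lit 45448) (nat_lit 0) .nil) .nil)))))) 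
(.nd (nat_lit 7) (.nd (nat_lit 8) (.nd (nat_lit 9) 
(.lf (nat_lit 456827) (.g (nat_lit 564) (.e (nat_lit 2672) (nat_lit 168) (.e (nat_lit 204868) (nat_lit 29) (.e (nat_lit 360475) (nat_lit 8) .nil))) (.g (nat_lit 0) (.e (nat_lit 43351) (nat_lit 0) .nil) .nil))) 
(.lf (nat_lit 457339) (.g (nat_lit 5426) (.e (nat_lit 2682) (nat_lit 168) (.e (nat_lit 204846) (nat_lit 24) (.e (nat_lit 319538) (nat_lit 19) (.e (nat_lit 311315) (nat_lit 3) (.e (nat_lit 204846) (nat_lit 24) (.e (nat_lit 319505) (nat_lit 10) (.e (nat_lit 5714) (nat_lit 312) .nil))))))) (.g (nat_lit 1) (.e (nat_lit 44540) (nat_lit 0) .nil) .nil)))) (.nd (nat_lit 9) 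
(.lf (nat_lit 457083) (.g (nat_lit 3066) (.e (nat_lit 2681) (nat_lit 168) (.e (nat_lit 204829) (nat_lit 18) (.e (nat_lit 57927) (nat_lit 282) (.e (nat_lit 163868) (nat_lit 2) (.e (nat_lit 196668) (nat_lit 14) (.e (nat_lit 73747) (nat_lit 3) (.e (nat_lit 516124) (nat_lit 2) (.e (nat_lit 213013) (nat_lit 9) .nil)))))))) (.g (nat_lit 1) (.e (nat_lit 43965) (nat_lit 0) .nil) .nil))) 
(.lf (nat_lit 457595) (.g (nat_lit 2031) (.e (nat_lit 2683) (nat_lit 168) (.e (nat_lit 204831) (nat_lit 18) (.e (nat_lit 57931) (nat_lit 282) (.e (nat_lit 163866) (nat_lit 2) (.e (nat_lit 196670) (nat_lit 14) (.e (nat_lit 73746) (nat_lit 3) (.e (nat_lit 516124) (nat_lit 2) (.e (nat_lit 213019) (nat_lit 9) .nil)))))))) (.g (nat_lit 1) (.e (nat_lit 45297) (nat_lit 0) .nil) .nil))))) 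
(.nd (nat_lit 8) (.nd (nat_lit 9) 
(.lf (nat_lit 456955) (.g (nat_lit 2603) (.e (nat_lit 2679) (nat_lit 168) (.e (nat_lit 204862) (nat_lit 27) (.e (nat_lit 344117) (nat_lit 21) (.e (nat_lit 516129) (nat_lit 3) (.e (nat_lit 229120) (nat_lit 3) (.e (nat_lit 98346) (nat_lit 22) (.e (nat_lit 253954) (nat_lit 0) .nil))))))) (.g (nat_lit 1) (.e (nat_lit 43725) (nat_lit 0) .nil) .nil))) 
(.lf (nat_lit 457467) (.g (nat_lit 951) (.e (nat_lit 2682) (nat_lit 168) (.e (nat_lit 204869) (nat_lit 29) (.e (nat_lit 360455) (nat_lit 0) .nil))) (.g (nat_lit 0) (.e (nat_lit 44817) (nat_lit 0) .nil) .nil)))) (.nd (nat_lit 9) 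
(.lf (nat_lit 457211) (.g (nat_lit 1448) (.e (nat_lit 2681) (nat_lit 168) (.e (nat_lit 204863) (nat_lit 27) (.e (nat_lit 344129) (nat_lit 26) (.e (nat_lit 557097) (nat_lit 13) .nil)))) (.g (nat_lit 0) (.e (nat_lit 44184) (nat_lit 0) .nil) .nil))) 
(.lf (nat_lit 457723) (.g (nat_lit 1825) (.e (nat_lit 2684) (nat_lit 168) (.e (nat_lit 204861) (nat_lit 26) (.e (nat_lit 336213) (nat_lit 13) (.e (nat_lit 401152) (nat_lit 10) (.e (nat_lit 344161) (nat_lit 37) (.e (nat_lit 655104) (nat_lit 0) .nil)))))) (.g (nat_lit 1) (.e (nat_lit 45576) (nat_lit 0) .nil) .nil)))))))))) 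
(.nd (nat_lit 3) (.nd (nat_lit 4) (.nd (nat_lit 5) (.nd (nat_lit 6) (.nd (nat_lit 7) 
(.nd (nat_lit 8) (.nd (nat_lit 9) 
(.lf (nat_lit 456711) (.g (nat_lit 3073) (.e (nat_lit 2668) (nat_lit 167) (.e (nat_lit 196666) (nat_lit 13) (.e (nat_lit 65628) (nat_lit 14) (.e (nat_lit 401425) (nat_lit 2) (.e (nat_lit 196622) (nat_lit 9) .nil))))) (.g (nat_lit 0) (.e (nat_lit 43189) (nat_lit 0) .nil) .nil))) 
(.lf (nat_lit 457223) (.g (nat_lit 2505) (.e (nat_lit 2681) (nat_lit 168) (.e (nat_lit 204863) (nat_lit 27) (.e (nat_lit 344130) (nat_lit 26) (.e (nat_lit 557103) (nat_lit 14) (.e (nat_lit 180244) (nat_lit 5) .nil))))) (.g (nat_lit 0) (.e (nat_lit 44196) (nat_lit 0) .nil) .nil)))) (.nd (nat_lit 9) 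
(.lf (nat_lit 456967) (.g (nat_lit 868) (.e (nat_lit 2679) (nat_lit 168) (.e (nat_lit 204863) (nat_lit 27) (.e (nat_lit 344133) (nat_lit 26) .nil))) (.g (nat_lit 0) (.e (nat_lit 43737) (nat_lit 0) .nil) .nil))) 
(.lf (nat_lit 457479) (.g (nat_lit 2597) (.e (nat_lit 2682) (nat_lit 168) (.e (nat_lit 204869) (nat_lit 29) (.e (nat_lit 360472) (nat_lit 8) (.e (nat_lit 557087) (nat_lit 11) .nil)))) (.g (nat_lit 0) (.e (nat_lit 44916) (nat_lit 0) .nil) .nil))))) (.nd (nat_lit 8) (.nd (nat_lit 9) 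
(.lf (nat_lit 456839) (.g (nat_lit 891) (.e (nat_lit 2675) (nat_lit 168) (.e (nat_lit 204830) (nat_lit 18) (.e (nat_lit 57926) (nat_lit 282) .nil))) (.g (nat_lit 0) (.e (nat_lit 43405) (nat_lit 0) .nil) .nil))) 
(.lf (nat_lit 457351) (.g (nat_lit 4111) (.e (nat_lit 2682) (nat_lit 168) (.e (nat_lit 204849) (nat_lit 25) (.e (nat_lit 327699) (nat_lit 8) (.e (nat_lit 303117) (nat_lit 2) (.e (nat_lit 196670) (nat_lit 14) (.e (nat_lit 73781) (nat_lit 32) .nil)))))) (.g (nat_lit 1) (.e (nat_lit 44554) (nat_lit 0) .nil) .nil)))) (.nd (nat_lit 9) 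
(.lf (nat_lit 457095) (.g (nat_lit 3414) (.e (nat_lit 2681) (nat_lit 168) (.e (nat_lit 204829) (nat_lit 18) (.e (nat_lit 57927) (nat_lit 282) (.e (nat_lit 163869) (nat_lit 2) (.e (nat_lit 196670) (nat_lit 14) (.e (nat_lit 73746) (nat_lit 3) (.e (nat_lit 516124) (nat_lit 2) (.e (nat_lit 213020) (nat_lit 9) .nil)))))))) (.g (nat_lit 1) (.e (nat_lit 43981) (nat_lit 0) .nil) .nil))) 
(.lf (nat_lit 457607) (.g (nat_lit 2875) (.e (nat_lit 2684) (nat_lit 168) (.e (nat_lit 204829) (nat_lit 18) (.e (nat_lit 57924) (nat_lit 282) (.e (nat_lit 163867) (nat_lit 2) (.e (nat_lit 196670) (nat_lit 14) (.e (nat_lit 73746) (nat_lit 3) (.e (nat_lit 516124) (nat_lit 2) (.e (nat_lit 213013) (nat_lit 9) .nil)))))))) (.g (nat_lit 1) (.e (nat_lit 45373) (nat_lit 0) .nil) .nil)))))) 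
(.nd (nat_lit 7) (.nd (nat_lit 8) (.nd (nat_lit 9) 
(.lf (nat_lit 456775) (.g (nat_lit 2189) (.e (nat_lit 2668) (nat_lit 167) (.e (nat_lit 196670) (nat_lit 14) (.e (nat_lit 73754) (nat_lit 8) (.e (nat_lit 557105) (nat_lit 14) (.e (nat_lit 180252) (nat_lit 10) (.e (nat_lit 573473) (nat_lit 12) (.e (nat_lit 57508) (nat_lit 39) (.e (nat_lit 655104) (nat_lit 0) .nil)))))))) (.g (nat_lit 1) (.e (nat_lit 43269) (nat_lit 0) .nil) .nil))) 
(.lf (nat_lit 457287) (.g (nat_lit 2372) (.e (nat_lit 2681) (nat_lit 168) (.e (nat_lit 204869) (nat_lit 29) (.e (nat_lit 360450) (nat_lit 0) (.e (nat_lit 3957) (nat_lit 239) .nil)))) (.g (nat_lit 0) (.e (nat_lit 44343) (nat_lit 0) .nil) .nil)))) (.nd (nat_lit 9) 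
(.lf (nat_lit 457031) (.g (nat_lit 2326) (.e (nat_lit 2679) (nat_lit 168) (.e (nat_lit 204869) (nat_lit 29) (.e (nat_lit 360475) (nat_lit 8) (.e (nat_lit 557087) (nat_lit 11) (.e (nat_lit 24584) (nat_lit 0) .nil))))) (.g (nat_lit 0) (.e (nat_lit 43849) (nat_lit 0) .nil) .nil))) 
(.lf (nat_lit 457543) (.g (nat_lit 2823) (.e (nat_lit 2682) (nat_lit 168) (.e (nat_lit 204869) (nat_lit 29) (.e (nat_lit 360475) (nat_lit 8) (.e (nat_lit 557087) (nat_lit 11) (.e (nat_lit 24588) (nat_lit 0) .nil))))) (.g (nat_lit 0) (.e (nat_lit 45134) (nat_lit 0) .nil) .nil))))) (.nd (nat_lit 8) (.nd (nat_lit 9) 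
(.lf (nat_lit 456903) (.g (nat_lit 2483) (.e (nat_lit 2679) (nat_lit 168) (.e (nat_lit 204830) (nat_lit 18) (.e (nat_lit 57926) (nat_lit 282) (.e (nat_lit 163869) (nat_lit 2) (.e (nat_lit 196670) (nat_lit 14) (.e (nat_lit 73746) (nat_lit 3) (.e (nat_lit 516127) (nat_lit 2) (.e (nat_lit 220928) (nat_lit 9) .nil)))))))) (.g (nat_lit 1) (.e (nat_lit 43569) (nat_lit 0) .nil) .nil))) 
(.lf (nat_lit 457415) (.g (nat_lit 1030) (.e (nat_lit 2682) (nat_lit 168) (.e (nat_lit 204866) (nat_lit 28) (.e (nat_lit 352303) (nat_lit 20) (.e (nat_lit 1842) (nat_lit 123) .nil)))) (.g (nat_lit 0) (.e (nat_lit 44687) (nat_lit 0) .nil) .nil)))) (.nd (nat_lit 9) 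
(.lf (nat_lit 457159) (.g (nat_lit 2371) (.e (nat_lit 2681) (nat_lit 168) (.e (nat_lit 204830) (nat_lit 18) (.e (nat_lit 57927) (nat_lit 282) (.e (nat_lit 163869) (nat_lit 2) (.e (nat_lit 196670) (nat_lit 14) (.e (nat_lit 73746) (nat_lit 3) (.e (nat_lit 516127) (nat_lit 2) (.e (nat_lit 213019) (nat_lit 9) .nil)))))))) (.g (nat_lit 1) (.e (nat_lit 44056) (nat_lit 0) .nil) .nil))) 
(.lf (nat_lit 457671) (.g (nat_lit 3572) (.e (nat_lit 2684) (nat_lit 168) (.e (nat_lit 204830) (nat_lit 18) (.e (nat_lit 57927) (nat_lit 282) (.e (nat_lit 163874) (nat_lit 3) (.e (nat_lit 204862) (nat_lit 27) (.e (nat_lit 344117) (nat_lit 21) (.e (nat_lit 516123) (nat_lit 2) (.e (nat_lit 213013) (nat_lit 9) .nil)))))))) (.g (nat_lit 1) (.e (nat_lit 45464) (nat_lit 0) .nil) .nil))))))) 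
(.nd (nat_lit 6) (.nd (nat_lit 7) (.nd (nat_lit 8) (.nd (nat_lit 9) 
(.lf (nat_lit 456743) (.g (nat_lit 3042) (.e (nat_lit 2668) (nat_lit 167) (.e (nat_lit 196666) (nat_lit 13) (.e (nat_lit 65630) (nat_lit 14) (.e (nat_lit 401425) (nat_lit 2) (.e (nat_lit 196667) (nat_lit 14) (.e (nat_lit 81664) (nat_lit 32) .nil)))))) (.g (nat_lit 1) (.e (nat_lit 43226) (nat_lit 0) .nil) .nil))) 
(.lf (nat_lit 457255) (.g (nat_lit 2259) (.e (nat_lit 2681) (nat_lit 168) (.e (nat_lit 204863) (nat_lit 27) (.e (nat_lit 344132) (nat_lit 26) (.e (nat_lit 557105) (nat_lit 14) (.e (nat_lit 180252) (nat_lit 10) (.e (nat_lit 573475) (nat_lit 12) (.e (nat_lit 57509) (nat_lit 39) (.e (nat_lit 647172) (nat_lit 0) .nil)))))))) (.g (nat_lit 1) (.e (nat_lit 44228) (nat_lit 0) .nil) .nil)))) 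
(.nd (nat_lit 9) 
(.lf (nat_lit 456999) (.g (nat_lit 1754) (.e (nat_lit 2679) (nat_lit 168) (.e (nat_lit 204868) (nat_lit 29) (.e (nat_lit 360466) (nat_lit 3) (.e (nat_lit 516142) (nat_lit 8) (.e (nat_lit 417816) (nat_lit 10) .nil))))) (.g (nat_lit 0) (.e (nat_lit 43779) (nat_lit 0) .nil) .nil))) 
(.lf (nat_lit 457511) (.g (nat_lit 2779) (.e (nat_lit 2682) (nat_lit 168) (.e (nat_lit 204869) (nat_lit 29) (.e (nat_lit 360474) (nat_lit 8) (.e (nat_lit 557087) (nat_lit 11) .nil)))) (.g (nat_lit 0) (.e (nat_lit 44952) (nat_lit 0) .nil) .nil))))) (.nd (nat_lit 8) (.nd (nat_lit 9) 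
(.lf (nat_lit 456871) (.g (nat_lit 2557) (.e (nat_lit 2675) (nat_lit 168) (.e (nat_lit 204869) (nat_lit 29) (.e (nat_lit 360475) (nat_lit 8) (.e (nat_lit 557087) (nat_lit 11) (.e (nat_lit 24580) (nat_lit 0) .nil))))) (.g (nat_lit 0) (.e (nat_lit 43462) (nat_lit 0) .nil) .nil))) 
(.lf (nat_lit 457383) (.g (nat_lit 2930) (.e (nat_lit 2682) (nat_lit 168) (.e (nat_lit 204863) (nat_lit 27) (.e (nat_lit 344129) (nat_lit 26) (.e (nat_lit 557103) (nat_lit 14) (.e (nat_lit 180250) (nat_lit 10) (.e (nat_lit 573473) (nat_lit 12) (.e (nat_lit 57508) (nat_lit 39) (.e (nat_lit 647177) (nat_lit 0) .nil)))))))) (.g (nat_lit 1) (.e (nat_lit 44642) (nat_lit 0) .nil) .nil)))) 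
(.nd (nat_lit 9) 
(.lf (nat_lit 457127) (.g (nat_lit 4137) (.e (nat_lit 2681) (nat_lit 168) (.e (nat_lit 204830) (nat_lit 18) (.e (nat_lit 57926) (nat_lit 282) (.e (nat_lit 163868) (nat_lit 2) (.e (nat_lit 196668) (nat_lit 14) (.e (nat_lit 73746) (nat_lit 3) (.e (nat_lit 516124) (nat_lit 2) (.e (nat_lit 213019) (nat_lit 9) .nil)))))))) (.g (nat_lit 1) (.e (nat_lit 44020) (nat_lit 0) .nil) .nil))) 
(.lf (nat_lit 457639) (.g (nat_lit 2356) (.e (nat_lit 2684) (nat_lit 168) (.e (nat_lit 204830) (nat_lit 18) (.e (nat_lit 57925) (nat_lit 282) (.e (nat_lit 163867) (nat_lit 2) (.e (nat_lit 196670) (nat_lit 14) (.e (nat_lit 73746) (nat_lit 3) (.e (nat_lit 516124) (nat_lit 2) (.e (nat_lit 213019) (nat_lit 9) .nil)))))))) (.g (nat_lit 1) (.e (nat_lit 45422) (nat_lit 0) .nil) .nil)))))) 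
(.nd (nat_lit 7) (.nd (nat_lit 8) (.nd (nat_lit 9) 
(.lf (nat_lit 456807) (.g (nat_lit 3533) (.e (nat_lit 2668) (nat_lit 167) (.e (nat_lit 196683) (nat_lit 18) (.e (nat_lit 1374) (nat_lit 104) (.e (nat_lit 303127) (nat_lit 9) (.e (nat_lit 426568) (nat_lit 34) (.e (nat_lit 393238) (nat_lit 17) (.e (nat_lit 3399) (nat_lit 211) (.e (nat_lit 647170) (nat_lit 0) .nil)))))))) (.g (nat_lit 1) (.e (nat_lit 43315) (nat_lit 0) .nil) .nil))) 
(.lf (nat_lit 457319) (.g (nat_lit 5411) (.e (nat_lit 2682) (nat_lit 168) (.e (nat_lit 204819) (nat_lit 17) (.e (nat_lit 6113) (nat_lit 332) (.e (nat_lit 1374) (nat_lit 104) (.e (nat_lit 303119) (nat_lit 3) (.e (nat_lit 204846) (nat_lit 24) (.e (nat_lit 319505) (nat_lit 10) (.e (nat_lit 5714) (nat_lit 312) .nil)))))))) (.g (nat_lit 1) (.e (nat_lit 44499) (nat_lit 0) .nil) .nil)))) 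
(.nd (nat_lit 9) 
(.lf (nat_lit 457063) (.g (nat_lit 3933) (.e (nat_lit 2681) (nat_lit 168) (.e (nat_lit 204815) (nat_lit 17) (.e (nat_lit 6203) (nat_lit 332) (.e (nat_lit 2798) (nat_lit 180) (.e (nat_lit 303117) (nat_lit 2) (.e (nat_lit 196670) (nat_lit 14) (.e (nat_lit 73781) (nat_lit 32) .nil))))))) (.g (nat_lit 1) (.e (nat_lit 43935) (nat_lit 0) .nil) .nil))) 
(.lf (nat_lit 457575) (.g (nat_lit 3120) (.e (nat_lit 2683) (nat_lit 168) (.e (nat_lit 204829) (nat_lit 18) (.e (nat_lit 57931) (nat_lit 282) (.e (nat_lit 163869) (nat_lit 2) (.e (nat_lit 196670) (nat_lit 14) (.e (nat_lit 73746) (nat_lit 3) (.e (nat_lit 516126) (nat_lit 2) (.e (nat_lit 213022) (nat_lit 9) .nil)))))))) (.g (nat_lit 1) (.e (nat_lit 45275) (nat_lit 0) .nil) .nil))))) 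
(.nd (nat_lit 8) (.nd (nat_lit 9) 
(.lf (nat_lit 456935) (.g (nat_lit 3398) (.e (nat_lit 2679) (nat_lit 168) (.e (nat_lit 204846) (nat_lit 24) (.e (nat_lit 319533) (nat_lit 16) (.e (nat_lit 286735) (nat_lit 3) (.e (nat_lit 98368) (nat_lit 27) (.e (nat_lit 442112) (nat_lit 8) .nil)))))) (.g (nat_lit 1) (.e (nat_lit 43676) (nat_lit 0) .nil) .nil))) 
(.lf (nat_lit 457447) (.g (nat_lit 3555) (.e (nat_lit 2682) (nat_lit 168) (.e (nat_lit 204869) (nat_lit 29) (.e (nat_lit 360450) (nat_lit 0) (.e (nat_lit 3981) (nat_lit 239) .nil)))) (.g (nat_lit 0) (.e (nat_lit 44773) (nat_lit 0) .nil) .nil)))) (.nd (nat_lit 9) 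
(.lf (nat_lit 457191) (.g (nat_lit 2994) (.e (nat_lit 2681) (nat_lit 168) (.e (nat_lit 204861) (nat_lit 26) (.e (nat_lit 336204) (nat_lit 12) (.e (nat_lit 385074) (nat_lit 31) (.e (nat_lit 573489) (nat_lit 14) (.e (nat_lit 73782) (nat_lit 32) .nil)))))) (.g (nat_lit 1) (.e (nat_lit 44160) (nat_lit 0) .nil) .nil))) 
(.lf (nat_lit 457703) (.g (nat_lit 3079) (.e (nat_lit 2684) (nat_lit 168) (.e (nat_lit 204846) (nat_lit 24) (.e (nat_lit 319533) (nat_lit 16) (.e (nat_lit 286734) (nat_lit 3) (.e (nat_lit 98367) (nat_lit 27) .nil))))) (.g (nat_lit 0) (.e (nat_lit 45529) (nat_lit 0) .nil) .nil)))))))) (.nd (nat_lit 5) (.nd (nat_lit 6) (.nd (nat_lit 7) (.nd (nat_lit 8) (.nd (nat_lit 9) 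
(.lf (nat_lit 456727) (.g (nat_lit 3813) (.e (nat_lit 2668) (nat_lit 167) (.e (nat_lit 196666) (nat_lit 13) (.e (nat_lit 65628) (nat_lit 14) (.e (nat_lit 401428) (nat_lit 3) (.e (nat_lit 204846) (nat_lit 24) (.e (nat_lit 319492) (nat_lit 0) (.e (nat_lit 5626) (nat_lit 312) .nil))))))) (.g (nat_lit 1) (.e (nat_lit 43206) (nat_lit 0) .nil) .nil))) 
(.lf (nat_lit 457239) (.g (nat_lit 2400) (.e (nat_lit 2681) (nat_lit 168) (.e (nat_lit 204863) (nat_lit 27) (.e (nat_lit 344132) (nat_lit 26) (.e (nat_lit 557103) (nat_lit 14) (.e (nat_lit 180243) (nat_lit 5) .nil))))) (.g (nat_lit 0) (.e (nat_lit 44212) (nat_lit 0) .nil) .nil)))) (.nd (nat_lit 9) 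
(.lf (nat_lit 456983) (.g (nat_lit 358) (.e (nat_lit 2679) (nat_lit 168) (.e (nat_lit 204868) (nat_lit 29) (.e (nat_lit 360466) (nat_lit 3) .nil))) (.g (nat_lit 0) (.e (nat_lit 43762) (nat_lit 0) .nil) .nil))) 
(.lf (nat_lit 457495) (.g (nat_lit 2733) (.e (nat_lit 2682) (nat_lit 168) (.e (nat_lit 204869) (nat_lit 29) (.e (nat_lit 360474) (nat_lit 8) (.e (nat_lit 557065) (nat_lit 9) .nil)))) (.g (nat_lit 0) (.e (nat_lit 44932) (nat_lit 0) .nil) .nil))))) (.nd (nat_lit 8) (.nd (nat_lit 9) 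
(.lf (nat_lit 456855) (.g (nat_lit 2593) (.e (nat_lit 2675) (nat_lit 168) (.e (nat_lit 204868) (nat_lit 29) (.e (nat_lit 360466) (nat_lit 3) (.e (nat_lit 516139) (nat_lit 7) (.e (nat_lit 409616) (nat_lit 10) .nil))))) (.g (nat_lit 0) (.e (nat_lit 43439) (nat_lit 0) .nil) .nil))) 
(.lf (nat_lit 457367) (.g (nat_lit 1322) (.e (nat_lit 2682) (nat_lit 168) (.e (nat_lit 204860) (nat_lit 26) (.e (nat_lit 336204) (nat_lit 12) (.e (nat_lit 385074) (nat_lit 31) (.e (nat_lit 573489) (nat_lit 14) .nil))))) (.g (nat_lit 0) (.e (nat_lit 44595) (nat_lit 0) .nil) .nil)))) (.nd (nat_lit 9) 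
(.lf (nat_lit 457111) (.g (nat_lit 2420) (.e (nat_lit 2681) (nat_lit 168) (.e (nat_lit 204829) (nat_lit 18) (.e (nat_lit 57927) (nat_lit 282) (.e (nat_lit 163875) (nat_lit 3) (.e (nat_lit 204863) (nat_lit 27) (.e (nat_lit 344117) (nat_lit 21) (.e (nat_lit 516123) (nat_lit 2) (.e (nat_lit 213013) (nat_lit 9) .nil)))))))) (.g (nat_lit 1) (.e (nat_lit 43997) (nat_lit 0) .nil) .nil))) 
(.lf (nat_lit 457623) (.g (nat_lit 2162) (.e (nat_lit 2684) (nat_lit 168) (.e (nat_lit 204829) (nat_lit 18) (.e (nat_lit 57927) (nat_lit 282) (.e (nat_lit 163871) (nat_lit 2) (.e (nat_lit 196668) (nat_lit 14) (.e (nat_lit 73747) (nat_lit 3) (.e (nat_lit 516124) (nat_lit 2) (.e (nat_lit 213019) (nat_lit 9) .nil)))))))) (.g (nat_lit 1) (.e (nat_lit 45396) (nat_lit 0) .nil) .nil)))))) 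
(.nd (nat_lit 7) (.nd (nat_lit 8) (.nd (nat_lit 9) 
(.lf (nat_lit 456791) (.g (nat_lit 1669) (.e (nat_lit 2668) (nat_lit 167) (.e (nat_lit 196672) (nat_lit 15) (.e (nat_lit 81924) (nat_lit 0) (.e (nat_lit 3305) (nat_lit 202) (.e (nat_lit 573489) (nat_lit 14) .nil))))) (.g (nat_lit 0) (.e (nat_lit 43293) (nat_lit 0) .nil) .nil))) 
(.lf (nat_lit 457303) (.g (nat_lit 3384) (.e (nat_lit 2681) (nat_lit 168) (.e (nat_lit 204869) (nat_lit 29) (.e (nat_lit 360475) (nat_lit 8) (.e (nat_lit 557065) (nat_lit 9) .nil)))) (.g (nat_lit 0) (.e (nat_lit 44391) (nat_lit 0) .nil) .nil)))) (.nd (nat_lit 9) 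
(.lf (nat_lit 457047) (.g (nat_lit 2732) (.e (nat_lit 2680) (nat_lit 168) (.e (nat_lit 204829) (nat_lit 18) (.e (nat_lit 57927) (nat_lit 282) (.e (nat_lit 163874) (nat_lit 3) (.e (nat_lit 204862) (nat_lit 27) .nil))))) (.g (nat_lit 0) (.e (nat_lit 43887) (nat_lit 0) .nil) .nil))) 
(.lf (nat_lit 457559) (.g (nat_lit 2263) (.e (nat_lit 2683) (nat_lit 168) (.e (nat_lit 204829) (nat_lit 18) (.e (nat_lit 57927) (nat_lit 282) (.e (nat_lit 163869) (nat_lit 2) (.e (nat_lit 196670) (nat_lit 14) (.e (nat_lit 73746) (nat_lit 3) (.e (nat_lit 516124) (nat_lit 2) (.e (nat_lit 213018) (nat_lit 9) .nil)))))))) (.g (nat_lit 1) (.e (nat_lit 45254) (nat_lit 0) .nil) .nil))))) 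
(.nd (nat_lit 8) (.nd (nat_lit 9) 
(.lf (nat_lit 456919) (.g (nat_lit 447) (.e (nat_lit 2679) (nat_lit 168) (.e (nat_lit 204846) (nat_lit 24) (.e (nat_lit 319531) (nat_lit 16) .nil))) (.g (nat_lit 0) (.e (nat_lit 43654) (nat_lit 0) .nil) .nil))) 
(.lf (nat_lit 457431) (.g (nat_lit 2149) (.e (nat_lit 2682) (nat_lit 168) (.e (nat_lit 204869) (nat_lit 29) (.e (nat_lit 360448) (nat_lit 0) (.e (nat_lit 3916) (nat_lit 239) (.e (nat_lit 1208) (nat_lit 89) .nil))))) (.g (nat_lit 0) (.e (nat_lit 44752) (nat_lit 0) .nil) .nil)))) (.nd (nat_lit 9) 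
(.lf (nat_lit 457175) (.g (nat_lit 2709) (.e (nat_lit 2681) (nat_lit 168) (.e (nat_lit 204831) (nat_lit 18) (.e (nat_lit 57931) (nat_lit 282) (.e (nat_lit 163869) (nat_lit 2) (.e (nat_lit 196670) (nat_lit 14) (.e (nat_lit 73746) (nat_lit 3) (.e (nat_lit 516126) (nat_lit 2) (.e (nat_lit 213010) (nat_lit 9) .nil)))))))) (.g (nat_lit 1) (.e (nat_lit 44082) (nat_lit 0) .nil) .nil))) 
(.lf (nat_lit 457687) (.g (nat_lit 4627) (.e (nat_lit 2684) (nat_lit 168) (.e (nat_lit 204831) (nat_lit 18) (.e (nat_lit 57931) (nat_lit 282) (.e (nat_lit 163867) (nat_lit 2) (.e (nat_lit 196670) (nat_lit 14) (.e (nat_lit 73746) (nat_lit 3) (.e (nat_lit 516124) (nat_lit 2) (.e (nat_lit 213013) (nat_lit 9) .nil)))))))) (.g (nat_lit 1) (.e (nat_lit 45491) (nat_lit 0) .nil) .nil))))))) 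
(.nd (nat_lit 6) (.nd (nat_lit 7) (.nd (nat_lit 8) (.nd (nat_lit 9) 
(.lf (nat_lit 456759) (.g (nat_lit 1122) (.e (nat_lit 2668) (nat_lit 167) (.e (nat_lit 196667) (nat_lit 14) (.e (nat_lit 81664) (nat_lit 35) (.e (nat_lit 163950) (nat_lit 21) (.e (nat_lit 507648) (nat_lit 19) (.e (nat_lit 81664) (nat_lit 32) .nil)))))) (.g (nat_lit 1) (.e (nat_lit 43248) (nat_lit 0) .nil) .nil))) 
(.lf (nat_lit 457271) (.g (nat_lit 2865) (.e (nat_lit 2681) (nat_lit 168) (.e (nat_lit 204863) (nat_lit 27) (.e (nat_lit 344133) (nat_lit 26) (.e (nat_lit 557103) (nat_lit 14) (.e (nat_lit 180250) (nat_lit 10) (.e (nat_lit 573477) (nat_lit 12) (.e (nat_lit 57511) (nat_lit 39) (.e (nat_lit 647171) (nat_lit 0) .nil)))))))) (.g (nat_lit 1) (.e (nat_lit 44244) (nat_lit 0) .nil) .nil)))) 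
(.nd (nat_lit 9) 
(.lf (nat_lit 457015) (.g (nat_lit 3823) (.e (nat_lit 2679) (nat_lit 168) (.e (nat_lit 204869) (nat_lit 29) (.e (nat_lit 360467) (nat_lit 3) (.e (nat_lit 516139) (nat_lit 7) (.e (nat_lit 409623) (nat_lit 10) (.e (nat_lit 5664) (nat_lit 312) .nil)))))) (.g (nat_lit 1) (.e (nat_lit 43826) (nat_lit 0) .nil) .nil))) 
(.lf (nat_lit 457527) (.g (nat_lit 5815) (.e (nat_lit 2682) (nat_lit 168) (.e (nat_lit 204869) (nat_lit 29) (.e (nat_lit 360475) (nat_lit 8) (.e (nat_lit 557076) (nat_lit 9) .nil)))) (.g (nat_lit 0) (.e (nat_lit 45116) (nat_lit 0) .nil) .nil))))) (.nd (nat_lit 8) (.nd (nat_lit 9) 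
(.lf (nat_lit 456887) (.g (nat_lit 2461) (.e (nat_lit 2678) (nat_lit 168) (.e (nat_lit 204829) (nat_lit 18) (.e (nat_lit 57927) (nat_lit 282) (.e (nat_lit 163868) (nat_lit 2) (.e (nat_lit 196670) (nat_lit 14) .nil))))) (.g (nat_lit 0) (.e (nat_lit 43499) (nat_lit 0) .nil) .nil))) 
(.lf (nat_lit 457399) (.g (nat_lit 3050) (.e (nat_lit 2682) (nat_lit 168) (.e (nat_lit 204863) (nat_lit 27) (.e (nat_lit 344132) (nat_lit 26) (.e (nat_lit 557105) (nat_lit 14) (.e (nat_lit 180252) (nat_lit 10) (.e (nat_lit 573475) (nat_lit 12) (.e (nat_lit 57507) (nat_lit 39) (.e (nat_lit 647177) (nat_lit 0) .nil)))))))) (.g (nat_lit 1) (.e (nat_lit 44658) (nat_lit 0) .nil) .nil)))) 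
(.nd (nat_lit 9) 
(.lf (nat_lit 457143) (.g (nat_lit 2403) (.e (nat_lit 2681) (nat_lit 168) (.e (nat_lit 204830) (nat_lit 18) (.e (nat_lit 57926) (nat_lit 282) (.e (nat_lit 163869) (nat_lit 2) (.e (nat_lit 196670) (nat_lit 14) (.e (nat_lit 73746) (nat_lit 3) (.e (nat_lit 516126) (nat_lit 2) (.e (nat_lit 213020) (nat_lit 9) .nil)))))))) (.g (nat_lit 1) (.e (nat_lit 44038) (nat_lit 0) .nil) .nil))) 
(.lf (nat_lit 457655) (.g (nat_lit 4133) (.e (nat_lit 2684) (nat_lit 168) (.e (nat_lit 204830) (nat_lit 18) (.e (nat_lit 57926) (nat_lit 282) (.e (nat_lit 163875) (nat_lit 3) (.e (nat_lit 204862) (nat_lit 27) (.e (nat_lit 344117) (nat_lit 21) (.e (nat_lit 516123) (nat_lit 2) (.e (nat_lit 213013) (nat_lit 9) .nil)))))))) (.g (nat_lit 1) (.e (nat_lit 45443) (nat_lit 0) .nil) .nil)))))) 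
(.nd (nat_lit 7) (.nd (nat_lit 8) (.nd (nat_lit 9) 
(.lf (nat_lit 456823) (.g (nat_lit 2417) (.e (nat_lit 2672) (nat_lit 168) (.e (nat_lit 204830) (nat_lit 18) (.e (nat_lit 57926) (nat_lit 282) (.e (nat_lit 163869) (nat_lit 2) (.e (nat_lit 196670) (nat_lit 14) (.e (nat_lit 73746) (nat_lit 3) (.e (nat_lit 516126) (nat_lit 2) (.e (nat_lit 213007) (nat_lit 9) .nil)))))))) (.g (nat_lit 1) (.e (nat_lit 43336) (nat_lit 0) .nil) .nil))) 
(.lf (nat_lit 457335) (.g (nat_lit 3852) (.e (nat_lit 2682) (nat_lit 168) (.e (nat_lit 204846) (nat_lit 24) (.e (nat_lit 319490) (nat_lit 0) (.e (nat_lit 5664) (nat_lit 312) (.e (nat_lit 2661) (nat_lit 167) (.e (nat_lit 196670) (nat_lit 14) (.e (nat_lit 73781) (nat_lit 32) .nil))))))) (.g (nat_lit 1) (.e (nat_lit 44528) (nat_lit 0) .nil) .nil)))) (.nd (nat_lit 9) 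
(.lf (nat_lit 457079) (.g (nat_lit 3145) (.e (nat_lit 2681) (nat_lit 168) (.e (nat_lit 204829) (nat_lit 18) (.e (nat_lit 57927) (nat_lit 282) (.e (nat_lit 163868) (nat_lit 2) (.e (nat_lit 196668) (nat_lit 14) (.e (nat_lit 73746) (nat_lit 3) (.e (nat_lit 516124) (nat_lit 2) (.e (nat_lit 213013) (nat_lit 9) .nil)))))))) (.g (nat_lit 1) (.e (nat_lit 43961) (nat_lit 0) .nil) .nil))) 
(.lf (nat_lit 457591) (.g (nat_lit 1929) (.e (nat_lit 2683) (nat_lit 168) (.e (nat_lit 204830) (nat_lit 18) (.e (nat_lit 57926) (nat_lit 282) (.e (nat_lit 163875) (nat_lit 3) .nil)))) (.g (nat_lit 0) (.e (nat_lit 45293) (nat_lit 0) .nil) .nil))))) (.nd (nat_lit 8) (.nd (nat_lit 9) 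
(.lf (nat_lit 456951) (.g (nat_lit 4259) (.e (nat_lit 2679) (nat_lit 168) (.e (nat_lit 204849) (nat_lit 25) (.e (nat_lit 327698) (nat_lit 8) (.e (nat_lit 303119) (nat_lit 3) (.e (nat_lit 204846) (nat_lit 24) (.e (nat_lit 319490) (nat_lit 0) (.e (nat_lit 5664) (nat_lit 312) .nil))))))) (.g (nat_lit 1) (.e (nat_lit 43698) (nat_lit 0) .nil) .nil))) 
(.lf (nat_lit 457463) (.g (nat_lit 2808) (.e (nat_lit 2682) (nat_lit 168) (.e (nat_lit 204869) (nat_lit 29) (.e (nat_lit 360452) (nat_lit 0) (.e (nat_lit 3946) (nat_lit 239) .nil)))) (.g (nat_lit 0) (.e (nat_lit 44813) (nat_lit 0) .nil) .nil)))) (.nd (nat_lit 9) 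
(.lf (nat_lit 457207) (.g (nat_lit 1351) (.e (nat_lit 2681) (nat_lit 168) (.e (nat_lit 204863) (nat_lit 27) (.e (nat_lit 344080) (nat_lit 13) (.e (nat_lit 1141) (nat_lit 84) .nil)))) (.g (nat_lit 0) (.e (nat_lit 44180) (nat_lit 0) .nil) .nil))) 
(.lf (nat_lit 457719) (.g (nat_lit 415) (.e (nat_lit 2684) (nat_lit 168) (.e (nat_lit 204861) (nat_lit 26) (.e (nat_lit 336076) (nat_lit 9) .nil))) (.g (nat_lit 0) (.e (nat_lit 45551) (nat_lit 0) .nil) .nil))))))))) (.nd (nat_lit 4) (.nd (nat_lit 5) (.nd (nat_lit 6) (.nd (nat_lit 7) (.nd (nat_lit 8) (.nd (nat_lit 9) 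
(.lf (nat_lit 456719) (.g (nat_lit 2957) (.e (nat_lit 2668) (nat_lit 167) (.e (nat_lit 196666) (nat_lit 13) (.e (nat_lit 65628) (nat_lit 14) (.e (nat_lit 401425) (nat_lit 2) (.e (nat_lit 196670) (nat_lit 14) (.e (nat_lit 81664) (nat_lit 32) .nil)))))) (.g (nat_lit 1) (.e (nat_lit 43197) (nat_lit 0) .nil) .nil))) 
(.lf (nat_lit 457231) (.g (nat_lit 2375) (.e (nat_lit 2681) (nat_lit 168) (.e (nat_lit 204863) (nat_lit 27) (.e (nat_lit 344131) (nat_lit 26) (.e (nat_lit 557103) (nat_lit 14) (.e (nat_lit 180250) (nat_lit 10) .nil))))) (.g (nat_lit 0) (.e (nat_lit 44204) (nat_lit 0) .nil) .nil)))) (.nd (nat_lit 9) 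
(.lf (nat_lit 456975) (.g (nat_lit 2004) (.e (nat_lit 2679) (nat_lit 168) (.e (nat_lit 204864) (nat_lit 27) (.e (nat_lit 344133) (nat_lit 26) (.e (nat_lit 557103) (nat_lit 14) (.e (nat_lit 188160) (nat_lit 3) .nil))))) (.g (nat_lit 0) (.e (nat_lit 43745) (nat_lit 0) .nil) .nil))) 
(.lf (nat_lit 457487) (.g (nat_lit 2420) (.e (nat_lit 2682) (nat_lit 168) (.e (nat_lit 204869) (nat_lit 29) (.e (nat_lit 360473) (nat_lit 8) (.e (nat_lit 557073) (nat_lit 9) .nil)))) (.g (nat_lit 0) (.e (nat_lit 44924) (nat_lit 0) .nil) .nil))))) (.nd (nat_lit 8) (.nd (nat_lit 9) 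
(.lf (nat_lit 456847) (.g (nat_lit 2690) (.e (nat_lit 2675) (nat_lit 168) (.e (nat_lit 204846) (nat_lit 24) (.e (nat_lit 319531) (nat_lit 16) (.e (nat_lit 286735) (nat_lit 3) (.e (nat_lit 98350) (nat_lit 24) .nil))))) (.g (nat_lit 0) (.e (nat_lit 43424) (nat_lit 0) .nil) .nil))) 
(.lf (nat_lit 457359) (.g (nat_lit 1947) (.e (nat_lit 2682) (nat_lit 168) (.e (nat_lit 204855) (nat_lit 26) (.e (nat_lit 336061) (nat_lit 7) (.e (nat_lit 319519) (nat_lit 12) (.e (nat_lit 32788) (nat_lit 10) .nil))))) (.g (nat_lit 0) (.e (nat_lit 44583) (nat_lit 0) .nil) .nil)))) (.nd (nat_lit 9) 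
(.lf (nat_lit 457103) (.g (nat_lit 3535) (.e (nat_lit 2681) (nat_lit 168) (.e (nat_lit 204829) (nat_lit 18) (.e (nat_lit 57927) (nat_lit 282) (.e (nat_lit 163871) (nat_lit 2) (.e (nat_lit 196670) (nat_lit 14) (.e (nat_lit 73746) (nat_lit 3) (.e (nat_lit 516124) (nat_lit 2) (.e (nat_lit 213019) (nat_lit 9) .nil)))))))) (.g (nat_lit 1) (.e (nat_lit 43989) (nat_lit 0) .nil) .nil))) 
(.lf (nat_lit 457615) (.g (nat_lit 2742) (.e (nat_lit 2684) (nat_lit 168) (.e (nat_lit 204829) (nat_lit 18) (.e (nat_lit 57926) (nat_lit 282) (.e (nat_lit 163874) (nat_lit 3) (.e (nat_lit 204862) (nat_lit 27) (.e (nat_lit 344117) (nat_lit 21) (.e (nat_lit 516123) (nat_lit 2) (.e (nat_lit 213013) (nat_lit 9) .nil)))))))) (.g (nat_lit 1) (.e (nat_lit 45383) (nat_lit 0) .nil) .nil)))))) 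
(.nd (nat_lit 7) (.nd (nat_lit 8) (.nd (nat_lit 9) 
(.lf (nat_lit 456783) (.g (nat_lit 2114) (.e (nat_lit 2668) (nat_lit 167) (.e (nat_lit 196670) (nat_lit 14) (.e (nat_lit 81664) (nat_lit 35) (.e (nat_lit 163950) (nat_lit 21) (.e (nat_lit 500071) (nat_lit 19) (.e (nat_lit 81664) (nat_lit 32) .nil)))))) (.g (nat_lit 1) (.e (nat_lit 43284) (nat_lit 0) .nil) .nil))) 
(.lf (nat_lit 457295) (.g (nat_lit 2103) (.e (nat_lit 2681) (nat_lit 168) (.e (nat_lit 204869) (nat_lit 29) (.e (nat_lit 360474) (nat_lit 8) (.e (nat_lit 557065) (nat_lit 9) .nil)))) (.g (nat_lit 0) (.e (nat_lit 44379) (nat_lit 0) .nil) .nil)))) (.nd (nat_lit 9) 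
(.lf (nat_lit 457039) (.g (nat_lit 1780) (.e (nat_lit 2679) (nat_lit 168) (.e (nat_lit 204885) (nat_lit 33) (.e (nat_lit 401451) (nat_lit 12) (.e (nat_lit 475185) (nat_lit 29) .nil)))) (.g (nat_lit 0) (.e (nat_lit 43877) (nat_lit 0) .nil) .nil))) 
(.lf (nat_lit 457551) (.g (nat_lit 3904) (.e (nat_lit 2682) (nat_lit 168) (.e (nat_lit 204885) (nat_lit 33) (.e (nat_lit 401446) (nat_lit 10) (.e (nat_lit 434233) (nat_lit 23) (.e (nat_lit 532523) (nat_lit 7) (.e (nat_lit 319504) (nat_lit 10) (.e (nat_lit 5714) (nat_lit 312) .nil))))))) (.g (nat_lit 1) (.e (nat_lit 45241) (nat_lit 0) .nil) .nil))))) (.nd (nat_lit 8) (.nd (nat_lit 9) 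
(.lf (nat_lit 456911) (.g (nat_lit 3123) (.e (nat_lit 2679) (nat_lit 168) (.e (nat_lit 204846) (nat_lit 24) (.e (nat_lit 319511) (nat_lit 10) (.e (nat_lit 5293) (nat_lit 298) (.e (nat_lit 1250) (nat_lit 92) (.e (nat_lit 98368) (nat_lit 27) (.e (nat_lit 442112) (nat_lit 8) .nil))))))) (.g (nat_lit 1) (.e (nat_lit 43639) (nat_lit 0) .nil) .nil))) 
(.lf (nat_lit 457423) (.g (nat_lit 2076) (.e (nat_lit 2682) (nat_lit 168) (.e (nat_lit 204868) (nat_lit 29) (.e (nat_lit 360466) (nat_lit 3) (.e (nat_lit 516183) (nat_lit 16) (.e (nat_lit 491528) (nat_lit 0) (.e (nat_lit 6680) (nat_lit 357) .nil)))))) (.g (nat_lit 1) (.e (nat_lit 44738) (nat_lit 0) .nil) .nil)))) (.nd (nat_lit 9) 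
(.lf (nat_lit 457167) (.g (nat_lit 3139) (.e (nat_lit 2681) (nat_lit 168) (.e (nat_lit 204831) (nat_lit 18) (.e (nat_lit 57931) (nat_lit 282) (.e (nat_lit 163867) (nat_lit 2) (.e (nat_lit 196670) (nat_lit 14) (.e (nat_lit 73746) (nat_lit 3) (.e (nat_lit 516124) (nat_lit 2) (.e (nat_lit 213022) (nat_lit 9) .nil)))))))) (.g (nat_lit 1) (.e (nat_lit 44071) (nat_lit 0) .nil) .nil))) 
(.lf (nat_lit 457679) (.g (nat_lit 3895) (.e (nat_lit 2684) (nat_lit 168) (.e (nat_lit 204830) (nat_lit 18) (.e (nat_lit 57929) (nat_lit 282) (.e (nat_lit 163869) (nat_lit 2) (.e (nat_lit 196670) (nat_lit 14) (.e (nat_lit 73746) (nat_lit 3) (.e (nat_lit 516124) (nat_lit 2) (.e (nat_lit 213013) (nat_lit 9) .nil)))))))) (.g (nat_lit 1) (.e (nat_lit 45474) (nat_lit 0) .nil) .nil))))))) 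
(.nd (nat_lit 6) (.nd (nat_lit 7) (.nd (nat_lit 8) (.nd (nat_lit 9) 
(.lf (nat_lit 456751) (.g (nat_lit 4311) (.e (nat_lit 2668) (nat_lit 167) (.e (nat_lit 196666) (nat_lit 13) (.e (nat_lit 65630) (nat_lit 14) (.e (nat_lit 401428) (nat_lit 3) (.e (nat_lit 204846) (nat_lit 24) (.e (nat_lit 319491) (nat_lit 0) (.e (nat_lit 5626) (nat_lit 312) .nil))))))) (.g (nat_lit 1) (.e (nat_lit 43239) (nat_lit 0) .nil) .nil))) 
(.lf (nat_lit 457263) (.g (nat_lit 2848) (.e (nat_lit 2681) (nat_lit 168) (.e (nat_lit 204863) (nat_lit 27) (.e (nat_lit 344133) (nat_lit 26) (.e (nat_lit 557103) (nat_lit 14) (.e (nat_lit 180243) (nat_lit 5) (.e (nat_lit 532499) (nat_lit 1) (.e (nat_lit 57704) (nat_lit 164) (.e (nat_lit 2515) (nat_lit 157) .nil)))))))) (.g (nat_lit 1) (.e (nat_lit 44236) (nat_lit 0) .nil) .nil)))) 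
(.nd (nat_lit 9) 
(.lf (nat_lit 457007) (.g (nat_lit 3700) (.e (nat_lit 2679) (nat_lit 168) (.e (nat_lit 204868) (nat_lit 29) (.e (nat_lit 360473) (nat_lit 8) (.e (nat_lit 557087) (nat_lit 11) (.e (nat_lit 24580) (nat_lit 0) (.e (nat_lit 6665) (nat_lit 357) .nil)))))) (.g (nat_lit 1) (.e (nat_lit 43813) (nat_lit 0) .nil) .nil))) 
(.lf (nat_lit 457519) (.g (nat_lit 2048) (.e (nat_lit 2682) (nat_lit 168) (.e (nat_lit 204869) (nat_lit 29) (.e (nat_lit 360475) (nat_lit 8) (.e (nat_lit 557066) (nat_lit 9) .nil)))) (.g (nat_lit 0) (.e (nat_lit 45104) (nat_lit 0) .nil) .nil))))) (.nd (nat_lit 8) (.nd (nat_lit 9) 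
(.lf (nat_lit 456879) (.g (nat_lit 863) (.e (nat_lit 2676) (nat_lit 168) (.e (nat_lit 204869) (nat_lit 29) (.e (nat_lit 360474) (nat_lit 8) .nil))) (.g (nat_lit 0) (.e (nat_lit 43483) (nat_lit 0) .nil) .nil))) 
(.lf (nat_lit 457391) (.g (nat_lit 2989) (.e (nat_lit 2682) (nat_lit 168) (.e (nat_lit 204863) (nat_lit 27) (.e (nat_lit 344131) (nat_lit 26) (.e (nat_lit 557105) (nat_lit 14) (.e (nat_lit 180252) (nat_lit 10) (.e (nat_lit 573473) (nat_lit 12) (.e (nat_lit 57508) (nat_lit 39) (.e (nat_lit 647177) (nat_lit 0) .nil)))))))) (.g (nat_lit 1) (.e (nat_lit 44650) (nat_lit 0) .nil) .nil)))) 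
(.nd (nat_lit 9) 
(.lf (nat_lit 457135) (.g (nat_lit 2452) (.e (nat_lit 2681) (nat_lit 168) (.e (nat_lit 204830) (nat_lit 18) (.e (nat_lit 57926) (nat_lit 282) (.e (nat_lit 163869) (nat_lit 2) (.e (nat_lit 196670) (nat_lit 14) (.e (nat_lit 73746) (nat_lit 3) (.e (nat_lit 516124) (nat_lit 2) (.e (nat_lit 213012) (nat_lit 9) .nil)))))))) (.g (nat_lit 1) (.e (nat_lit 44030) (nat_lit 0) .nil) .nil))) 
(.lf (nat_lit 457647) (.g (nat_lit 4495) (.e (nat_lit 2684) (nat_lit 168) (.e (nat_lit 204830) (nat_lit 18) (.e (nat_lit 57926) (nat_lit 282) (.e (nat_lit 163869) (nat_lit 2) (.e (nat_lit 196670) (nat_lit 14) (.e (nat_lit 73746) (nat_lit 3) (.e (nat_lit 516124) (nat_lit 2) (.e (nat_lit 213013) (nat_lit 9) .nil)))))))) (.g (nat_lit 1) (.e (nat_lit 45434) (nat_lit 0) .nil) .nil)))))) 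
(.nd (nat_lit 7) (.nd (nat_lit 8) (.nd (nat_lit 9) 
(.lf (nat_lit 456815) (.g (nat_lit 2781) (.e (nat_lit 2670) (nat_lit 167) (.e (nat_lit 196666) (nat_lit 13) (.e (nat_lit 65610) (nat_lit 10) (.e (nat_lit 344129) (nat_lit 26) .nil)))) (.g (nat_lit 0) (.e (nat_lit 43324) (nat_lit 0) .nil) .nil))) 
(.lf (nat_lit 457327) (.g (nat_lit 2452) (.e (nat_lit 2682) (nat_lit 168) (.e (nat_lit 204829) (nat_lit 18) (.e (nat_lit 57927) (nat_lit 282) (.e (nat_lit 163875) (nat_lit 3) (.e (nat_lit 204862) (nat_lit 27) .nil))))) (.g (nat_lit 0) (.e (nat_lit 44510) (nat_lit 0) .nil) .nil)))) (.nd (nat_lit 9) 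
(.lf (nat_lit 457071) (.g (nat_lit 3165) (.e (nat_lit 2681) (nat_lit 168) (.e (nat_lit 204829) (nat_lit 18) (.e (nat_lit 57926) (nat_lit 282) (.e (nat_lit 163869) (nat_lit 2) (.e (nat_lit 196670) (nat_lit 14) (.e (nat_lit 73746) (nat_lit 3) (.e (nat_lit 516124) (nat_lit 2) (.e (nat_lit 213013) (nat_lit 9) .nil)))))))) (.g (nat_lit 1) (.e (nat_lit 43950) (nat_lit 0) .nil) .nil))) 
(.lf (nat_lit 457583) (.g (nat_lit 3343) (.e (nat_lit 2683) (nat_lit 168) (.e (nat_lit 204830) (nat_lit 18) (.e (nat_lit 57926) (nat_lit 282) (.e (nat_lit 163869) (nat_lit 2) (.e (nat_lit 196670) (nat_lit 14) (.e (nat_lit 73746) (nat_lit 3) (.e (nat_lit 516126) (nat_lit 2) (.e (nat_lit 213022) (nat_lit 9) .nil)))))))) (.g (nat_lit 1) (.e (nat_lit 45285) (nat_lit 0) .nil) .nil))))) 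
(.nd (nat_lit 8) (.nd (nat_lit 9) 
(.lf (nat_lit 456943) (.g (nat_lit 1229) (.e (nat_lit 2679) (nat_lit 168) (.e (nat_lit 204846) (nat_lit 24) (.e (nat_lit 319534) (nat_lit 16) (.e (nat_lit 286735) (nat_lit 3) .nil)))) (.g (nat_lit 0) (.e (nat_lit 43686) (nat_lit 0) .nil) .nil))) 
(.lf (nat_lit 457455) (.g (nat_lit 3628) (.e (nat_lit 2682) (nat_lit 168) (.e (nat_lit 204869) (nat_lit 29) (.e (nat_lit 360451) (nat_lit 0) (.e (nat_lit 3950) (nat_lit 239) (.e (nat_lit 7936) (nat_lit 89) .nil))))) (.g (nat_lit 0) (.e (nat_lit 44792) (nat_lit 0) .nil) .nil)))) (.nd (nat_lit 9) 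
(.lf (nat_lit 457199) (.g (nat_lit 2671) (.e (nat_lit 2681) (nat_lit 168) (.e (nat_lit 204862) (nat_lit 27) (.e (nat_lit 344129) (nat_lit 26) (.e (nat_lit 557103) (nat_lit 14) (.e (nat_lit 180250) (nat_lit 10) .nil))))) (.g (nat_lit 0) (.e (nat_lit 44171) (nat_lit 0) .nil) .nil))) 
(.lf (nat_lit 457711) (.g (nat_lit 644) (.e (nat_lit 2684) (nat_lit 168) (.e (nat_lit 204852) (nat_lit 26) (.e (nat_lit 336326) (nat_lit 18) .nil))) (.g (nat_lit 0) (.e (nat_lit 45540) (nat_lit 0) .nil) .nil)))))))) (.nd (nat_lit 5) (.nd (nat_lit 6) (.nd (nat_lit 7) (.nd (nat_lit 8) (.nd (nat_lit 9) 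
(.lf (nat_lit 456735) (.g (nat_lit 1512) (.e (nat_lit 2668) (nat_lit 167) (.e (nat_lit 196666) (nat_lit 13) (.e (nat_lit 65630) (nat_lit 14) (.e (nat_lit 401412) (nat_lit 0) .nil)))) (.g (nat_lit 0) (.e (nat_lit 43214) (nat_lit 0) .nil) .nil))) 
(.lf (nat_lit 457247) (.g (nat_lit 4329) (.e (nat_lit 2681) (nat_lit 168) (.e (nat_lit 204863) (nat_lit 27) (.e (nat_lit 344132) (nat_lit 26) (.e (nat_lit 557105) (nat_lit 14) (.e (nat_lit 180252) (nat_lit 10) (.e (nat_lit 573473) (nat_lit 12) (.e (nat_lit 57508) (nat_lit 39) (.e (nat_lit 647176) (nat_lit 0) .nil)))))))) (.g (nat_lit 1) (.e (nat_lit 44220) (nat_lit 0) .nil) .nil)))) 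
(.nd (nat_lit 9) 
(.lf (nat_lit 456991) (.g (nat_lit 1963) (.e (nat_lit 2679) (nat_lit 168) (.e (nat_lit 204868) (nat_lit 29) (.e (nat_lit 360466) (nat_lit 3) (.e (nat_lit 516139) (nat_lit 7) (.e (nat_lit 409616) (nat_lit 10) .nil))))) (.g (nat_lit 0) (.e (nat_lit 43771) (nat_lit 0) .nil) .nil))) 
(.lf (nat_lit 457503) (.g (nat_lit 4910) (.e (nat_lit 2682) (nat_lit 168) (.e (nat_lit 204869) (nat_lit 29) (.e (nat_lit 360474) (nat_lit 8) (.e (nat_lit 557076) (nat_lit 9) .nil)))) (.g (nat_lit 0) (.e (nat_lit 44943) (nat_lit 0) .nil) .nil))))) (.nd (nat_lit 8) (.nd (nat_lit 9) 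
(.lf (nat_lit 456863) (.g (nat_lit 420) (.e (nat_lit 2675) (nat_lit 168) (.e (nat_lit 204869) (nat_lit 29) (.e (nat_lit 360475) (nat_lit 8) .nil))) (.g (nat_lit 0) (.e (nat_lit 43454) (nat_lit 0) .nil) .nil))) 
(.lf (nat_lit 457375) (.g (nat_lit 3344) (.e (nat_lit 2682) (nat_lit 168) (.e (nat_lit 204861) (nat_lit 26) (.e (nat_lit 336230) (nat_lit 14) (.e (nat_lit 401423) (nat_lit 2) (.e (nat_lit 196668) (nat_lit 14) (.e (nat_lit 73782) (nat_lit 32) .nil)))))) (.g (nat_lit 1) (.e (nat_lit 44631) (nat_lit 0) .nil) .nil)))) (.nd (nat_lit 9) 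
(.lf (nat_lit 457119) (.g (nat_lit 3358) (.e (nat_lit 2681) (nat_lit 168) (.e (nat_lit 204829) (nat_lit 18) (.e (nat_lit 57931) (nat_lit 282) (.e (nat_lit 163869) (nat_lit 2) (.e (nat_lit 196670) (nat_lit 14) (.e (nat_lit 73746) (nat_lit 3) (.e (nat_lit 516124) (nat_lit 2) (.e (nat_lit 213020) (nat_lit 9) .nil)))))))) (.g (nat_lit 1) (.e (nat_lit 44011) (nat_lit 0) .nil) .nil))) 
(.lf (nat_lit 457631) (.g (nat_lit 3223) (.e (nat_lit 2684) (nat_lit 168) (.e (nat_lit 204829) (nat_lit 18) (.e (nat_lit 57931) (nat_lit 282) (.e (nat_lit 163867) (nat_lit 2) (.e (nat_lit 196670) (nat_lit 14) (.e (nat_lit 73746) (nat_lit 3) (.e (nat_lit 516124) (nat_lit 2) (.e (nat_lit 213019) (nat_lit 9) .nil)))))))) (.g (nat_lit 1) (.e (nat_lit 45406) (nat_lit 0) .nil) .nil)))))) 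
(.nd (nat_lit 7) (.nd (nat_lit 8) (.nd (nat_lit 9) 
(.lf (nat_lit 456799) (.g (nat_lit 2703) (.e (nat_lit 2668) (nat_lit 167) (.e (nat_lit 196674) (nat_lit 15) (.e (nat_lit 81922) (nat_lit 0) (.e (nat_lit 3305) (nat_lit 202) (.e (nat_lit 573489) (nat_lit 14) (.e (nat_lit 81664) (nat_lit 32) .nil)))))) (.g (nat_lit 1) (.e (nat_lit 43301) (nat_lit 0) .nil) .nil))) 
(.lf (nat_lit 457311) (.g (nat_lit 3652) (.e (nat_lit 2681) (nat_lit 168) (.e (nat_lit 204869) (nat_lit 29) (.e (nat_lit 360475) (nat_lit 8) (.e (nat_lit 557086) (nat_lit 11) .nil)))) (.g (nat_lit 0) (.e (nat_lit 44401) (nat_lit 0) .nil) .nil)))) (.nd (nat_lit 9) 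
(.lf (nat_lit 457055) (.g (nat_lit 2778) (.e (nat_lit 2680) (nat_lit 168) (.e (nat_lit 204830) (nat_lit 18) (.e (nat_lit 57926) (nat_lit 282) (.e (nat_lit 163875) (nat_lit 3) (.e (nat_lit 204862) (nat_lit 27) .nil))))) (.g (nat_lit 0) (.e (nat_lit 43896) (nat_lit 0) .nil) .nil))) 
(.lf (nat_lit 457567) (.g (nat_lit 2296) (.e (nat_lit 2683) (nat_lit 168) (.e (nat_lit 204829) (nat_lit 18) (.e (nat_lit 57927) (nat_lit 282) (.e (nat_lit 163875) (nat_lit 3) (.e (nat_lit 204862) (nat_lit 27) (.e (nat_lit 344117) (nat_lit 21) (.e (nat_lit 516122) (nat_lit 2) (.e (nat_lit 213022) (nat_lit 9) .nil)))))))) (.g (nat_lit 1) (.e (nat_lit 45262) (nat_lit 0) .nil) .nil))))) 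
(.nd (nat_lit 8) (.nd (nat_lit 9) 
(.lf (nat_lit 456927) (.g (nat_lit 3664) (.e (nat_lit 2679) (nat_lit 168) (.e (nat_lit 204846) (nat_lit 24) (.e (nat_lit 319532) (nat_lit 16) (.e (nat_lit 286735) (nat_lit 3) (.e (nat_lit 98367) (nat_lit 27) (.e (nat_lit 442112) (nat_lit 8) .nil)))))) (.g (nat_lit 1) (.e (nat_lit 43665) (nat_lit 0) .nil) .nil))) 
(.lf (nat_lit 457439) (.g (nat_lit 2120) (.e (nat_lit 2682) (nat_lit 168) (.e (nat_lit 204869) (nat_lit 29) (.e (nat_lit 360448) (nat_lit 0) (.e (nat_lit 3971) (nat_lit 239) .nil)))) (.g (nat_lit 0) (.e (nat_lit 44760) (nat_lit 0) .nil) .nil)))) (.nd (nat_lit 9) 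
(.lf (nat_lit 457183) (.g (nat_lit 2406) (.e (nat_lit 2681) (nat_lit 168) (.e (nat_lit 204850) (nat_lit 26) (.e (nat_lit 336205) (nat_lit 12) (.e (nat_lit 385074) (nat_lit 31) (.e (nat_lit 573489) (nat_lit 14) (.e (nat_lit 73781) (nat_lit 32) .nil)))))) (.g (nat_lit 1) (.e (nat_lit 44109) (nat_lit 0) .nil) .nil))) 
(.lf (nat_lit 457695) (.g (nat_lit 4480) (.e (nat_lit 2684) (nat_lit 168) (.e (nat_lit 204846) (nat_lit 24) (.e (nat_lit 319530) (nat_lit 16) (.e (nat_lit 286735) (nat_lit 3) (.e (nat_lit 98367) (nat_lit 27) (.e (nat_lit 442112) (nat_lit 8) .nil)))))) (.g (nat_lit 1) (.e (nat_lit 45521) (nat_lit 0) .nil) .nil))))))) (.nd (nat_lit 6) (.nd (nat_lit 7) (.nd (nat_lit 8) (.nd (nat_lit 9) 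
(.lf (nat_lit 456767) (.g (nat_lit 3209) (.e (nat_lit 2668) (nat_lit 167) (.e (nat_lit 196670) (nat_lit 14) (.e (nat_lit 73753) (nat_lit 8) (.e (nat_lit 557100) (nat_lit 13) (.e (nat_lit 172065) (nat_lit 3) (.e (nat_lit 204821) (nat_lit 17) (.e (nat_lit 2391) (nat_lit 156) (.e (nat_lit 819204) (nat_lit 0) .nil)))))))) (.g (nat_lit 1) (.e (nat_lit 43261) (nat_lit 0) .nil) .nil))) 
(.lf (nat_lit 457279) (.g (nat_lit 4223) (.e (nat_lit 2681) (nat_lit 168) (.e (nat_lit 204863) (nat_lit 27) (.e (nat_lit 344133) (nat_lit 26) (.e (nat_lit 557105) (nat_lit 14) (.e (nat_lit 180252) (nat_lit 10) (.e (nat_lit 573474) (nat_lit 12) (.e (nat_lit 57511) (nat_lit 39) (.e (nat_lit 647171) (nat_lit 0) .nil)))))))) (.g (nat_lit 1) (.e (nat_lit 44252) (nat_lit 0) .nil) .nil)))) 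
(.nd (nat_lit 9) 
(.lf (nat_lit 457023) (.g (nat_lit 2829) (.e (nat_lit 2679) (nat_lit 168) (.e (nat_lit 204869) (nat_lit 29) (.e (nat_lit 360475) (nat_lit 8) (.e (nat_lit 557067) (nat_lit 9) .nil)))) (.g (nat_lit 0) (.e (nat_lit 43840) (nat_lit 0) .nil) .nil))) 
(.lf (nat_lit 457535) (.g (nat_lit 1912) (.e (nat_lit 2682) (nat_lit 168) (.e (nat_lit 204869) (nat_lit 29) (.e (nat_lit 360475) (nat_lit 8) (.e (nat_lit 557087) (nat_lit 11) .nil)))) (.g (nat_lit 0) (.e (nat_lit 45126) (nat_lit 0) .nil) .nil))))) (.nd (nat_lit 8) (.nd (nat_lit 9) 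
(.lf (nat_lit 456895) (.g (nat_lit 2266) (.e (nat_lit 2678) (nat_lit 168) (.e (nat_lit 204864) (nat_lit 27) (.e (nat_lit 344132) (nat_lit 26) (.e (nat_lit 557100) (nat_lit 13) (.e (nat_lit 179968) (nat_lit 15) .nil))))) (.g (nat_lit 0) (.e (nat_lit 43509) (nat_lit 0) .nil) .nil))) 
(.lf (nat_lit 457407) (.g (nat_lit 2885) (.e (nat_lit 2682) (nat_lit 168) (.e (nat_lit 204863) (nat_lit 27) (.e (nat_lit 344133) (nat_lit 26) (.e (nat_lit 557103) (nat_lit 14) (.e (nat_lit 180250) (nat_lit 10) (.e (nat_lit 573474) (nat_lit 12) (.e (nat_lit 57507) (nat_lit 39) (.e (nat_lit 647177) (nat_lit 0) .nil)))))))) (.g (nat_lit 1) (.e (nat_lit 44666) (nat_lit 0) .nil) .nil)))) 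
(.nd (nat_lit 9) 
(.lf (nat_lit 457151) (.g (nat_lit 2747) (.e (nat_lit 2681) (nat_lit 168) (.e (nat_lit 204830) (nat_lit 18) (.e (nat_lit 57926) (nat_lit 282) (.e (nat_lit 163874) (nat_lit 3) (.e (nat_lit 204863) (nat_lit 27) (.e (nat_lit 344117) (nat_lit 21) (.e (nat_lit 516123) (nat_lit 2) (.e (nat_lit 213013) (nat_lit 9) .nil)))))))) (.g (nat_lit 1) (.e (nat_lit 44047) (nat_lit 0) .nil) .nil))) 
(.lf (nat_lit 457663) (.g (nat_lit 2350) (.e (nat_lit 2684) (nat_lit 168) (.e (nat_lit 204830) (nat_lit 18) (.e (nat_lit 57927) (nat_lit 282) (.e (nat_lit 163868) (nat_lit 2) (.e (nat_lit 196668) (nat_lit 14) (.e (nat_lit 73747) (nat_lit 3) (.e (nat_lit 516124) (nat_lit 2) (.e (nat_lit 213019) (nat_lit 9) .nil)))))))) (.g (nat_lit 1) (.e (nat_lit 45452) (nat_lit 0) .nil) .nil)))))) 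
(.nd (nat_lit 7) (.nd (nat_lit 8) (.nd (nat_lit 9) 
(.lf (nat_lit 456831) (.g (nat_lit 661) (.e (nat_lit 2673) (nat_lit 168) (.e (nat_lit 204868) (nat_lit 29) (.e (nat_lit 360466) (nat_lit 3) .nil))) (.g (nat_lit 0) (.e (nat_lit 43364) (nat_lit 0) .nil) .nil))) 
(.lf (nat_lit 457343) (.g (nat_lit 1270) (.e (nat_lit 2682) (nat_lit 168) (.e (nat_lit 204846) (nat_lit 24) (.e (nat_lit 319534) (nat_lit 16) (.e (nat_lit 286728) (nat_lit 0) .nil)))) (.g (nat_lit 0) (.e (nat_lit 44546) (nat_lit 0) .nil) .nil)))) (.nd (nat_lit 9) 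
(.lf (nat_lit 457087) (.g (nat_lit 2307) (.e (nat_lit 2681) (nat_lit 168) (.e (nat_lit 204829) (nat_lit 18) (.e (nat_lit 57927) (nat_lit 282) (.e (nat_lit 163869) (nat_lit 2) (.e (nat_lit 196670) (nat_lit 14) (.e (nat_lit 73746) (nat_lit 3) (.e (nat_lit 516122) (nat_lit 2) (.e (nat_lit 213022) (nat_lit 9) .nil)))))))) (.g (nat_lit 1) (.e (nat_lit 43973) (nat_lit 0) .nil) .nil))) 
(.lf (nat_lit 457599) (.g (nat_lit 1682) (.e (nat_lit 2683) (nat_lit 168) (.e (nat_lit 204863) (nat_lit 27) (.e (nat_lit 344132) (nat_lit 26) (.e (nat_lit 557105) (nat_lit 14) .nil)))) (.g (nat_lit 0) (.e (nat_lit 45310) (nat_lit 0) .nil) .nil))))) (.nd (nat_lit 8) (.nd (nat_lit 9) 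
(.lf (nat_lit 456959) (.g (nat_lit 2639) (.e (nat_lit 2679) (nat_lit 168) (.e (nat_lit 204862) (nat_lit 27) (.e (nat_lit 344117) (nat_lit 21) (.e (nat_lit 516130) (nat_lit 3) (.e (nat_lit 229120) (nat_lit 3) (.e (nat_lit 98346) (nat_lit 22) (.e (nat_lit 253955) (nat_lit 0) .nil))))))) (.g (nat_lit 1) (.e (nat_lit 43729) (nat_lit 0) .nil) .nil))) 
(.lf (nat_lit 457471) (.g (nat_lit 2522) (.e (nat_lit 2682) (nat_lit 168) (.e (nat_lit 204869) (nat_lit 29) (.e (nat_lit 360457) (nat_lit 0) (.e (nat_lit 3982) (nat_lit 239) .nil)))) (.g (nat_lit 0) (.e (nat_lit 44823) (nat_lit 0) .nil) .nil)))) (.nd (nat_lit 9) 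
(.lf (nat_lit 457215) (.g (nat_lit 2559) (.e (nat_lit 2681) (nat_lit 168) (.e (nat_lit 204863) (nat_lit 27) (.e (nat_lit 344129) (nat_lit 26) (.e (nat_lit 557103) (nat_lit 14) (.e (nat_lit 180244) (nat_lit 5) .nil))))) (.g (nat_lit 0) (.e (nat_lit 44188) (nat_lit 0) .nil) .nil))) 
(.lf (nat_lit 457727) (.g (nat_lit 1657) (.e (nat_lit 2684) (nat_lit 168) (.e (nat_lit 204861) (nat_lit 26) (.e (nat_lit 336214) (nat_lit 13) (.e (nat_lit 401152) (nat_lit 10) (.e (nat_lit 344161) (nat_lit 37) (.e (nat_lit 655104) (nat_lit 0) .nil)))))) (.g (nat_lit 1) (.e (nat_lit 45583) (nat_lit 0) .nil) .nil)))))))))))))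

noncomputable def tv5507 : DT := (.nd (nat_lit 0) (.nd (nat_lit 1) (.nd (nat_lit 2) (.nd (nat_lit 3) (.nd (nat_lit 4) (.nd (nat_lit 5) (.nd (nat_lit 6) (.nd (nat_lit 7) (.nd (nat_lit 8) (.nd (nat_lit 9) 
(.lf (nat_lit 457728) (.g (nat_lit 1136) (.e (nat_lit 2684) (nat_lit 168) (.e (nat_lit 204861) (nat_lit 26) (.e (nat_lit 336215) (nat_lit 13) (.e (nat_lit 401152) (nat_lit 10) .nil)))) (.g (nat_lit 0) (.e (nat_lit 45584) (nat_lit 0) .nil) .nil))) 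
(.lf (nat_lit 458240) (.g (nat_lit 3520) (.e (nat_lit 2685) (nat_lit 168) (.e (nat_lit 204863) (nat_lit 27) (.e (nat_lit 344117) (nat_lit 21) (.e (nat_lit 516123) (nat_lit 2) (.e (nat_lit 213033) (nat_lit 12) (.e (nat_lit 163975) (nat_lit 30) (.e (nat_lit 573474) (nat_lit 12) (.e (nat_lit 57528) (nat_lit 46) (.e (nat_lit 704514) (nat_lit 0) .nil))))))))) (.g (nat_lit 1) (.e (nat_lit 46877) (nat_lit 0) .nil) .nil)))) 
(.nd (nat_lit 9) 
(.lf (nat_lit 457984) (.g (nat_lit 2992) (.e (nat_lit 2684) (nat_lit 168) (.e (nat_lit 204869) (nat_lit 29) (.e (nat_lit 360475) (nat_lit 8) (.e (nat_lit 557087) (nat_lit 11) (.e (nat_lit 24595) (nat_lit 0) .nil))))) (.g (nat_lit 0) (.e (nat_lit 46166) (nat_lit 0) .nil) .nil))) 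
(.lf (nat_lit 458496) (.g (nat_lit 3346) (.e (nat_lit 2685) (nat_lit 168) (.e (nat_lit 204869) (nat_lit 29) (.e (nat_lit 360475) (nat_lit 8) (.e (nat_lit 557071) (nat_lit 9) .nil)))) (.g (nat_lit 0) (.e (nat_lit 47569) (nat_lit 0) .nil) .nil))))) (.nd (nat_lit 8) (.nd (nat_lit 9) 
(.lf (nat_lit 457856) (.g (nat_lit 3220) (.e (nat_lit 2684) (nat_lit 168) (.e (nat_lit 204863) (nat_lit 27) (.e (nat_lit 344131) (nat_lit 26) (.e (nat_lit 557103) (nat_lit 14) (.e (nat_lit 180250) (nat_lit 10) (.e (nat_lit 573473) (nat_lit 12) (.e (nat_lit 57508) (nat_lit 39) (.e (nat_lit 647175) (nat_lit 0) .nil)))))))) (.g (nat_lit 1) (.e (nat_lit 45712) (nat_lit 0) .nil) .nil))) 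
(.lf (nat_lit 458368) (.g (nat_lit 2019) (.e (nat_lit 2685) (nat_lit 168) (.e (nat_lit 204864) (nat_lit 27) (.e (nat_lit 344133) (nat_lit 26) (.e (nat_lit 557103) (nat_lit 14) (.e (nat_lit 188160) (nat_lit 3) (.e (nat_lit 516106) (nat_lit 0) (.e (nat_lit 7936) (nat_lit 218) (.e (nat_lit 704512) (nat_lit 0) .nil)))))))) (.g (nat_lit 1) (.e (nat_lit 47006) (nat_lit 0) .nil) .nil)))) 
(.nd (nat_lit 9) 
(.lf (nat_lit 458112) (.g (nat_lit 2630) (.e (nat_lit 2685) (nat_lit 168) (.e (nat_lit 204846) (nat_lit 24) (.e (nat_lit 319534) (nat_lit 16) (.e (nat_lit 286733) (nat_lit 2) (.e (nat_lit 90169) (nat_lit 13) (.e (nat_lit 172057) (nat_lit 0) (.e (nat_lit 7936) (nat_lit 388) .nil))))))) (.g (nat_lit 1) (.e (nat_lit 46465) (nat_lit 0) .nil) .nil))) 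
(.lf (nat_lit 458624) (.g (nat_lit 1668) (.e (nat_lit 2695) (nat_lit 169) (.e (nat_lit 213032) (nat_lit 11) (.e (nat_lit 24609) (nat_lit 3) (.e (nat_lit 98374) (nat_lit 29) (.e (nat_lit 450584) (nat_lit 9) .nil))))) (.g (nat_lit 0) (.e (nat_lit 47797) (nat_lit 0) .nil) .nil)))))) (.nd (nat_lit 7) (.nd (nat_lit 8) (.nd (nat_lit 9) 
(.lf (nat_lit 457792) (.g (nat_lit 4320) (.e (nat_lit 2684) (nat_lit 168) (.e (nat_lit 204862) (nat_lit 27) (.e (nat_lit 344132) (nat_lit 26) (.e (nat_lit 557105) (nat_lit 14) (.e (nat_lit 180252) (nat_lit 10) (.e (nat_lit 573475) (nat_lit 12) (.e (nat_lit 57507) (nat_lit 39) (.e (nat_lit 655104) (nat_lit 0) .nil)))))))) (.g (nat_lit 1) (.e (nat_lit 45648) (nat_lit 0) .nil) .nil))) 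
(.lf (nat_lit 458304) (.g (nat_lit 3811) (.e (nat_lit 2685) (nat_lit 168) (.e (nat_lit 204863) (nat_lit 27) (.e (nat_lit 344132) (nat_lit 26) (.e (nat_lit 557105) (nat_lit 14) (.e (nat_lit 180252) (nat_lit 10) (.e (nat_lit 573474) (nat_lit 12) (.e (nat_lit 57506) (nat_lit 39) (.e (nat_lit 647170) (nat_lit 0) .nil)))))))) (.g (nat_lit 1) (.e (nat_lit 46942) (nat_lit 0) .nil) .nil)))) 
(.nd (nat_lit 9) 
(.lf (nat_lit 458048) (.g (nat_lit 2310) (.e (nat_lit 2685) (nat_lit 168) (.e (nat_lit 204837) (nat_lit 20) (.e (nat_lit 114714) (nat_lit 22) (.e (nat_lit 90174) (nat_lit 14) (.e (nat_lit 180243) (nat_lit 5) (.e (nat_lit 532503) (nat_lit 1) (.e (nat_lit 57652) (nat_lit 152) (.e (nat_lit 2399) (nat_lit 157) .nil)))))))) (.g (nat_lit 1) (.e (nat_lit 46289) (nat_lit 0) .nil) .nil))) 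
(.lf (nat_lit 458560) (.g (nat_lit 3012) (.e (nat_lit 7936) (nat_lit 168) (.e (nat_lit 204869) (nat_lit 29) (.e (nat_lit 360475) (nat_lit 8) (.e (nat_lit 557087) (nat_lit 11) (.e (nat_lit 24578) (nat_lit 0) .nil))))) (.g (nat_lit 0) (.e (nat_lit 47703) (nat_lit 0) .nil) .nil))))) (.nd (nat_lit 8) (.nd (nat_lit 9) 
(.lf (nat_lit 457920) (.g (nat_lit 3706) (.e (nat_lit 2684) (nat_lit 168) (.e (nat_lit 204868) (nat_lit 29) (.e (nat_lit 360475) (nat_lit 8) (.e (nat_lit 557087) (nat_lit 11) (.e (nat_lit 24584) (nat_lit 0) .nil))))) (.g (nat_lit 0) (.e (nat_lit 45975) (nat_lit 0) .nil) .nil))) 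
(.lf (nat_lit 458432) (.g (nat_lit 2506) (.e (nat_lit 2685) (nat_lit 168) (.e (nat_lit 204868) (nat_lit 29) (.e (nat_lit 360473) (nat_lit 8) (.e (nat_lit 557087) (nat_lit 11) (.e (nat_lit 24578) (nat_lit 0) (.e (nat_lit 6617) (nat_lit 357) .nil)))))) (.g (nat_lit 1) (.e (nat_lit 47368) (nat_lit 0) .nil) .nil)))) (.nd (nat_lit 9) 
(.lf (nat_lit 458176) (.g (nat_lit 2809) (.e (nat_lit 2685) (nat_lit 168) (.e (nat_lit 204862) (nat_lit 27) (.e (nat_lit 344129) (nat_lit 26) (.e (nat_lit 557103) (nat_lit 14) (.e (nat_lit 180250) (nat_lit 10) (.e (nat_lit 573474) (nat_lit 12) (.e (nat_lit 57508) (nat_lit 39) (.e (nat_lit 647168) (nat_lit 0) .nil)))))))) (.g (nat_lit 1) (.e (nat_lit 46813) (nat_lit 0) .nil) .nil))) 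
(.lf (nat_lit 458688) (.g (nat_lit 3281) (.e (nat_lit 2706) (nat_lit 170) (.e (nat_lit 221214) (nat_lit 23) (.e (nat_lit 204863) (nat_lit 27) (.e (nat_lit 344118) (nat_lit 21) (.e (nat_lit 516120) (nat_lit 1) (.e (nat_lit 164181) (nat_lit 154) (.e (nat_lit 57375) (nat_lit 2) (.e (nat_lit 90128) (nat_lit 9) .nil)))))))) (.g (nat_lit 1) (.e (nat_lit 48028) (nat_lit 0) .nil) .nil))))))) 
(.nd (nat_lit 6) (.nd (nat_lit 7) (.nd (nat_lit 8) (.nd (nat_lit 9) 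
(.lf (nat_lit 457760) (.g (nat_lit 2742) (.e (nat_lit 2684) (nat_lit 168) (.e (nat_lit 204862) (nat_lit 27) (.e (nat_lit 344129) (nat_lit 26) (.e (nat_lit 557104) (nat_lit 14) (.e (nat_lit 180252) (nat_lit 10) (.e (nat_lit 573474) (nat_lit 12) (.e (nat_lit 57507) (nat_lit 39) (.e (nat_lit 647176) (nat_lit 0) .nil)))))))) (.g (nat_lit 1) (.e (nat_lit 45616) (nat_lit 0) .nil) .nil))) 
(.lf (nat_lit 458272) (.g (nat_lit 2722) (.e (nat_lit 2685) (nat_lit 168) (.e (nat_lit 204863) (nat_lit 27) (.e (nat_lit 344130) (nat_lit 26) (.e (nat_lit 557104) (nat_lit 14) (.e (nat_lit 180252) (nat_lit 10) (.e (nat_lit 573474) (nat_lit 12) (.e (nat_lit 57508) (nat_lit 39) (.e (nat_lit 647170) (nat_lit 0) .nil)))))))) (.g (nat_lit 1) (.e (nat_lit 46910) (nat_lit 0) .nil) .nil)))) 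
(.nd (nat_lit 9) 
(.lf (nat_lit 458016) (.g (nat_lit 2938) (.e (nat_lit 2684) (nat_lit 168) (.e (nat_lit 204880) (nat_lit 32) (.e (nat_lit 385066) (nat_lit 26) (.e (nat_lit 532501) (nat_lit 1) (.e (nat_lit 57854) (nat_lit 252) .nil))))) (.g (nat_lit 0) (.e (nat_lit 46229) (nat_lit 0) .nil) .nil))) 
(.lf (nat_lit 458528) (.g (nat_lit 3662) (.e (nat_lit 2685) (nat_lit 168) (.e (nat_lit 204869) (nat_lit 29) (.e (nat_lit 360475) (nat_lit 8) (.e (nat_lit 557089) (nat_lit 12) (.e (nat_lit 163843) (nat_lit 0) .nil))))) (.g (nat_lit 0) (.e (nat_lit 47608) (nat_lit 0) .nil) .nil))))) (.nd (nat_lit 8) (.nd (nat_lit 9) 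
(.lf (nat_lit 457888) (.g (nat_lit 3751) (.e (nat_lit 2684) (nat_lit 168) (.e (nat_lit 204863) (nat_lit 27) (.e (nat_lit 344132) (nat_lit 26) (.e (nat_lit 557105) (nat_lit 14) (.e (nat_lit 180252) (nat_lit 10) (.e (nat_lit 573475) (nat_lit 12) (.e (nat_lit 57509) (nat_lit 39) (.e (nat_lit 655104) (nat_lit 0) .nil)))))))) (.g (nat_lit 1) (.e (nat_lit 45744) (nat_lit 0) .nil) .nil))) 
(.lf (nat_lit 458400) (.g (nat_lit 1686) (.e (nat_lit 2685) (nat_lit 168) (.e (nat_lit 204868) (nat_lit 29) (.e (nat_lit 360466) (nat_lit 3) (.e (nat_lit 516142) (nat_lit 8) (.e (nat_lit 417814) (nat_lit 10) (.e (nat_lit 7936) (nat_lit 312) .nil)))))) (.g (nat_lit 1) (.e (nat_lit 47213) (nat_lit 0) .nil) .nil)))) (.nd (nat_lit 9) 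
(.lf (nat_lit 458144) (.g (nat_lit 2625) (.e (nat_lit 2685) (nat_lit 168) (.e (nat_lit 204862) (nat_lit 27) (.e (nat_lit 344117) (nat_lit 21) (.e (nat_lit 516129) (nat_lit 3) (.e (nat_lit 229120) (nat_lit 3) (.e (nat_lit 98346) (nat_lit 22) (.e (nat_lit 261888) (nat_lit 0) .nil))))))) (.g (nat_lit 1) (.e (nat_lit 46779) (nat_lit 0) .nil) .nil))) 
(.lf (nat_lit 458656) (.g (nat_lit 1563) (.e (nat_lit 2700) (nat_lit 169) (.e (nat_lit 213030) (nat_lit 11) (.e (nat_lit 24617) (nat_lit 7) (.e (nat_lit 319534) (nat_lit 16) .nil)))) (.g (nat_lit 0) (.e (nat_lit 47890) (nat_lit 0) .nil) .nil)))))) (.nd (nat_lit 7) (.nd (nat_lit 8) (.nd (nat_lit 9) 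
(.lf (nat_lit 457824) (.g (nat_lit 2099) (.e (nat_lit 2684) (nat_lit 168) (.e (nat_lit 204863) (nat_lit 27) (.e (nat_lit 344117) (nat_lit 21) (.e (nat_lit 516130) (nat_lit 3) (.e (nat_lit 221211) (nat_lit 22) .nil))))) (.g (nat_lit 0) (.e (nat_lit 45680) (nat_lit 0) .nil) .nil))) 
(.lf (nat_lit 458336) (.g (nat_lit 2787) (.e (nat_lit 2685) (nat_lit 168) (.e (nat_lit 204863) (nat_lit 27) (.e (nat_lit 344133) (nat_lit 26) (.e (nat_lit 557103) (nat_lit 14) (.e (nat_lit 180250) (nat_lit 10) (.e (nat_lit 573475) (nat_lit 12) (.e (nat_lit 57508) (nat_lit 39) (.e (nat_lit 647168) (nat_lit 0) .nil)))))))) (.g (nat_lit 1) (.e (nat_lit 46974) (nat_lit 0) .nil) .nil)))) 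
(.nd (nat_lit 9) 
(.lf (nat_lit 458080) (.g (nat_lit 3103) (.e (nat_lit 2685) (nat_lit 168) (.e (nat_lit 204846) (nat_lit 24) (.e (nat_lit 319530) (nat_lit 16) (.e (nat_lit 286735) (nat_lit 3) (.e (nat_lit 98368) (nat_lit 27) (.e (nat_lit 442112) (nat_lit 8) .nil)))))) (.g (nat_lit 1) (.e (nat_lit 46424) (nat_lit 0) .nil) .nil))) 
(.lf (nat_lit 458592) (.g (nat_lit 3332) (.e (nat_lit 2691) (nat_lit 169) (.e (nat_lit 213032) (nat_lit 11) (.e (nat_lit 24604) (nat_lit 2) (.e (nat_lit 90178) (nat_lit 15) (.e (nat_lit 188441) (nat_lit 20) .nil))))) (.g (nat_lit 0) (.e (nat_lit 47750) (nat_lit 0) .nil) .nil))))) (.nd (nat_lit 8) (.nd (nat_lit 9) 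
(.lf (nat_lit 457952) (.g (nat_lit 4866) (.e (nat_lit 2684) (nat_lit 168) (.e (nat_lit 204869) (nat_lit 29) (.e (nat_lit 360474) (nat_lit 8) (.e (nat_lit 557093) (nat_lit 12) (.e (nat_lit 163849) (nat_lit 0) (.e (nat_lit 6420) (nat_lit 341) (.e (nat_lit 163850) (nat_lit 0) (.e (nat_lit 7936) (nat_lit 388) .nil)))))))) (.g (nat_lit 1) (.e (nat_lit 46106) (nat_lit 0) .nil) .nil))) 
(.lf (nat_lit 458464) (.g (nat_lit 1577) (.e (nat_lit 2685) (nat_lit 168) (.e (nat_lit 204869) (nat_lit 29) (.e (nat_lit 360473) (nat_lit 8) (.e (nat_lit 557067) (nat_lit 9) .nil)))) (.g (nat_lit 0) (.e (nat_lit 47482) (nat_lit 0) .nil) .nil)))) (.nd (nat_lit 9) 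
(.lf (nat_lit 458208) (.g (nat_lit 3576) (.e (nat_lit 2685) (nat_lit 168) (.e (nat_lit 204862) (nat_lit 27) (.e (nat_lit 344132) (nat_lit 26) (.e (nat_lit 557100) (nat_lit 13) (.e (nat_lit 172067) (nat_lit 3) (.e (nat_lit 204821) (nat_lit 17) (.e (nat_lit 2391) (nat_lit 156) (.e (nat_lit 819204) (nat_lit 0) .nil)))))))) (.g (nat_lit 1) (.e (nat_lit 46845) (nat_lit 0) .nil) .nil))) 
(.lf (nat_lit 458720) (.g (nat_lit 2501) (.e (nat_lit 2725) (nat_lit 172) (.e (nat_lit 237586) (nat_lit 2) (.e (nat_lit 196666) (nat_lit 13) (.e (nat_lit 65617) (nat_lit 10) (.e (nat_lit 344130) (nat_lit 26) (.e (nat_lit 557090) (nat_lit 12) (.e (nat_lit 163847) (nat_lit 0) (.e (nat_lit 6255) (nat_lit 337) .nil)))))))) (.g (nat_lit 1) (.e (nat_lit 48328) (nat_lit 0) .nil) .nil)))))))) 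
(.nd (nat_lit 5) (.nd (nat_lit 6) (.nd (nat_lit 7) (.nd (nat_lit 8) (.nd (nat_lit 9) 
(.lf (nat_lit 457744) (.g (nat_lit 4631) (.e (nat_lit 2684) (nat_lit 168) (.e (nat_lit 204862) (nat_lit 27) (.e (nat_lit 344129) (nat_lit 26) (.e (nat_lit 557103) (nat_lit 14) (.e (nat_lit 180250) (nat_lit 10) (.e (nat_lit 573473) (nat_lit 12) (.e (nat_lit 57508) (nat_lit 39) (.e (nat_lit 655104) (nat_lit 0) .nil)))))))) (.g (nat_lit 1) (.e (nat_lit 45600) (nat_lit 0) .nil) .nil))) 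
(.lf (nat_lit 458256) (.g (nat_lit 3042) (.e (nat_lit 2685) (nat_lit 168) (.e (nat_lit 204863) (nat_lit 27) (.e (nat_lit 344129) (nat_lit 26) (.e (nat_lit 557103) (nat_lit 14) (.e (nat_lit 180250) (nat_lit 10) (.e (nat_lit 573473) (nat_lit 12) (.e (nat_lit 57508) (nat_lit 39) (.e (nat_lit 647170) (nat_lit 0) .nil)))))))) (.g (nat_lit 1) (.e (nat_lit 46894) (nat_lit 0) .nil) .nil)))) 
(.nd (nat_lit 9) 
(.lf (nat_lit 458000) (.g (nat_lit 3937) (.e (nat_lit 2684) (nat_lit 168) (.e (nat_lit 204869) (nat_lit 29) (.e (nat_lit 360475) (nat_lit 8) (.e (nat_lit 557091) (nat_lit 12) (.e (nat_lit 163840) (nat_lit 0) .nil))))) (.g (nat_lit 0) (.e (nat_lit 46189) (nat_lit 0) .nil) .nil))) 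
(.lf (nat_lit 458512) (.g (nat_lit 3819) (.e (nat_lit 2685) (nat_lit 168) (.e (nat_lit 204869) (nat_lit 29) (.e (nat_lit 360475) (nat_lit 8) (.e (nat_lit 557087) (nat_lit 11) (.e (nat_lit 24580) (nat_lit 0) (.e (nat_lit 6617) (nat_lit 357) .nil)))))) (.g (nat_lit 1) (.e (nat_lit 47592) (nat_lit 0) .nil) .nil))))) (.nd (nat_lit 8) (.nd (nat_lit 9) 
(.lf (nat_lit 457872) (.g (nat_lit 2929) (.e (nat_lit 2684) (nat_lit 168) (.e (nat_lit 204863) (nat_lit 27) (.e (nat_lit 344132) (nat_lit 26) (.e (nat_lit 557105) (nat_lit 14) (.e (nat_lit 180252) (nat_lit 10) (.e (nat_lit 573473) (nat_lit 12) (.e (nat_lit 57506) (nat_lit 39) (.e (nat_lit 647175) (nat_lit 0) .nil)))))))) (.g (nat_lit 1) (.e (nat_lit 45728) (nat_lit 0) .nil) .nil))) 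
(.lf (nat_lit 458384) (.g (nat_lit 1822) (.e (nat_lit 2685) (nat_lit 168) (.e (nat_lit 204868) (nat_lit 29) (.e (nat_lit 360466) (nat_lit 3) (.e (nat_lit 516138) (nat_lit 7) (.e (nat_lit 417536) (nat_lit 10) .nil))))) (.g (nat_lit 0) (.e (nat_lit 47195) (nat_lit 0) .nil) .nil)))) (.nd (nat_lit 9) 
(.lf (nat_lit 458128) (.g (nat_lit 2086) (.e (nat_lit 2685) (nat_lit 168) (.e (nat_lit 204850) (nat_lit 26) (.e (nat_lit 336205) (nat_lit 12) (.e (nat_lit 385074) (nat_lit 31) (.e (nat_lit 573489) (nat_lit 14) (.e (nat_lit 81664) (nat_lit 32) .nil)))))) (.g (nat_lit 1) (.e (nat_lit 46484) (nat_lit 0) .nil) .nil))) 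
(.lf (nat_lit 458640) (.g (nat_lit 3134) (.e (nat_lit 2698) (nat_lit 169) (.e (nat_lit 213032) (nat_lit 11) (.e (nat_lit 24604) (nat_lit 2) (.e (nat_lit 90185) (nat_lit 17) .nil)))) (.g (nat_lit 0) (.e (nat_lit 47847) (nat_lit 0) .nil) .nil)))))) (.nd (nat_lit 7) (.nd (nat_lit 8) (.nd (nat_lit 9) 
(.lf (nat_lit 457808) (.g (nat_lit 2263) (.e (nat_lit 2684) (nat_lit 168) (.e (nat_lit 204862) (nat_lit 27) (.e (nat_lit 344133) (nat_lit 26) (.e (nat_lit 557103) (nat_lit 14) (.e (nat_lit 180250) (nat_lit 10) (.e (nat_lit 573477) (nat_lit 12) (.e (nat_lit 57510) (nat_lit 39) (.e (nat_lit 655104) (nat_lit 0) .nil)))))))) (.g (nat_lit 1) (.e (nat_lit 45664) (nat_lit 0) .nil) .nil))) 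
(.lf (nat_lit 458320) (.g (nat_lit 3757) (.e (nat_lit 2685) (nat_lit 168) (.e (nat_lit 204863) (nat_lit 27) (.e (nat_lit 344133) (nat_lit 26) (.e (nat_lit 557098) (nat_lit 13) (.e (nat_lit 172066) (nat_lit 3) (.e (nat_lit 204821) (nat_lit 17) (.e (nat_lit 2391) (nat_lit 156) (.e (nat_lit 819204) (nat_lit 0) .nil)))))))) (.g (nat_lit 1) (.e (nat_lit 46958) (nat_lit 0) .nil) .nil)))) 
(.nd (nat_lit 9) 
(.lf (nat_lit 458064) (.g (nat_lit 2626) (.e (nat_lit 2685) (nat_lit 168) (.e (nat_lit 204846) (nat_lit 24) (.e (nat_lit 319490) (nat_lit 0) (.e (nat_lit 5664) (nat_lit 312) (.e (nat_lit 2661) (nat_lit 167) .nil))))) (.g (nat_lit 0) (.e (nat_lit 46389) (nat_lit 0) .nil) .nil))) 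
(.lf (nat_lit 458576) (.g (nat_lit 3175) (.e (nat_lit 2687) (nat_lit 169) (.e (nat_lit 213032) (nat_lit 11) (.e (nat_lit 24608) (nat_lit 3) (.e (nat_lit 98373) (nat_lit 29) (.e (nat_lit 450584) (nat_lit 9) .nil))))) (.g (nat_lit 0) (.e (nat_lit 47725) (nat_lit 0) .nil) .nil))))) (.nd (nat_lit 8) (.nd (nat_lit 9) 
(.lf (nat_lit 457936) (.g (nat_lit 3992) (.e (nat_lit 2684) (nat_lit 168) (.e (nat_lit 204869) (nat_lit 29) (.e (nat_lit 360474) (nat_lit 8) (.e (nat_lit 557091) (nat_lit 12) (.e (nat_lit 163840) (nat_lit 0) .nil))))) (.g (nat_lit 0) (.e (nat_lit 46085) (nat_lit 0) .nil) .nil))) 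
(.lf (nat_lit 458448) (.g (nat_lit 2876) (.e (nat_lit 2685) (nat_lit 168) (.e (nat_lit 204868) (nat_lit 29) (.e (nat_lit 360475) (nat_lit 8) (.e (nat_lit 557087) (nat_lit 11) (.e (nat_lit 24579) (nat_lit 0) (.e (nat_lit 6617) (nat_lit 357) .nil)))))) (.g (nat_lit 1) (.e (nat_lit 47416) (nat_lit 0) .nil) .nil)))) (.nd (nat_lit 9) 
(.lf (nat_lit 458192) (.g (nat_lit 3745) (.e (nat_lit 2685) (nat_lit 168) (.e (nat_lit 204862) (nat_lit 27) (.e (nat_lit 344130) (nat_lit 26) (.e (nat_lit 557097) (nat_lit 13) (.e (nat_lit 172067) (nat_lit 3) (.e (nat_lit 204821) (nat_lit 17) (.e (nat_lit 2391) (nat_lit 156) (.e (nat_lit 819204) (nat_lit 0) .nil)))))))) (.g (nat_lit 1) (.e (nat_lit 46829) (nat_lit 0) .nil) .nil))) 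
(.lf (nat_lit 458704) (.g (nat_lit 1938) (.e (nat_lit 2706) (nat_lit 170) (.e (nat_lit 221215) (nat_lit 23) (.e (nat_lit 204863) (nat_lit 27) (.e (nat_lit 344120) (nat_lit 21) (.e (nat_lit 516115) (nat_lit 1) (.e (nat_lit 164177) (nat_lit 154) (.e (nat_lit 57372) (nat_lit 2) (.e (nat_lit 90128) (nat_lit 9) .nil)))))))) (.g (nat_lit 1) (.e (nat_lit 48064) (nat_lit 0) .nil) .nil))))))) 
(.nd (nat_lit 6) (.nd (nat_lit 7) (.nd (nat_lit 8) (.nd (nat_lit 9) 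
(.lf (nat_lit 457776) (.g (nat_lit 3350) (.e (nat_lit 2684) (nat_lit 168) (.e (nat_lit 204862) (nat_lit 27) (.e (nat_lit 344130) (nat_lit 26) (.e (nat_lit 557104) (nat_lit 14) (.e (nat_lit 180252) (nat_lit 10) (.e (nat_lit 573474) (nat_lit 12) (.e (nat_lit 57508) (nat_lit 39) (.e (nat_lit 655104) (nat_lit 0) .nil)))))))) (.g (nat_lit 1) (.e (nat_lit 45632) (nat_lit 0) .nil) .nil))) 
(.lf (nat_lit 458288) (.g (nat_lit 2596) (.e (nat_lit 2685) (nat_lit 168) (.e (nat_lit 204863) (nat_lit 27) (.e (nat_lit 344132) (nat_lit 26) (.e (nat_lit 557100) (nat_lit 13) (.e (nat_lit 172067) (nat_lit 3) .nil))))) (.g (nat_lit 0) (.e (nat_lit 46926) (nat_lit 0) .nil) .nil)))) (.nd (nat_lit 9) 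
(.lf (nat_lit 458032) (.g (nat_lit 2858) (.e (nat_lit 2685) (nat_lit 168) (.e (nat_lit 204830) (nat_lit 18) (.e (nat_lit 57926) (nat_lit 282) (.e (nat_lit 163875) (nat_lit 3) (.e (nat_lit 204862) (nat_lit 27) (.e (nat_lit 344117) (nat_lit 21) (.e (nat_lit 516123) (nat_lit 2) (.e (nat_lit 213000) (nat_lit 9) .nil)))))))) (.g (nat_lit 1) (.e (nat_lit 46270) (nat_lit 0) .nil) .nil))) 
(.lf (nat_lit 458544) (.g (nat_lit 4218) (.e (nat_lit 2685) (nat_lit 168) (.e (nat_lit 204869) (nat_lit 29) (.e (nat_lit 360475) (nat_lit 8) (.e (nat_lit 557091) (nat_lit 12) (.e (nat_lit 163844) (nat_lit 0) (.e (nat_lit 6420) (nat_lit 341) (.e (nat_lit 163850) (nat_lit 0) (.e (nat_lit 7936) (nat_lit 388) .nil)))))))) (.g (nat_lit 1) (.e (nat_lit 47626) (nat_lit 0) .nil) .nil))))) 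
(.nd (nat_lit 8) (.nd (nat_lit 9) 
(.lf (nat_lit 457904) (.g (nat_lit 2751) (.e (nat_lit 2684) (nat_lit 168) (.e (nat_lit 204863) (nat_lit 27) (.e (nat_lit 344133) (nat_lit 26) (.e (nat_lit 557105) (nat_lit 14) (.e (nat_lit 180252) (nat_lit 10) (.e (nat_lit 573474) (nat_lit 12) (.e (nat_lit 57508) (nat_lit 39) (.e (nat_lit 647176) (nat_lit 0) .nil)))))))) (.g (nat_lit 1) (.e (nat_lit 45760) (nat_lit 0) .nil) .nil))) 
(.lf (nat_lit 458416) (.g (nat_lit 1877) (.e (nat_lit 2685) (nat_lit 168) (.e (nat_lit 204868) (nat_lit 29) (.e (nat_lit 360468) (nat_lit 3) (.e (nat_lit 516139) (nat_lit 7) (.e (nat_lit 409616) (nat_lit 10) .nil))))) (.g (nat_lit 0) (.e (nat_lit 47295) (nat_lit 0) .nil) .nil)))) (.nd (nat_lit 9) 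
(.lf (nat_lit 458160) (.g (nat_lit 2674) (.e (nat_lit 2685) (nat_lit 168) (.e (nat_lit 204862) (nat_lit 27) (.e (nat_lit 344129) (nat_lit 26) (.e (nat_lit 557097) (nat_lit 13) (.e (nat_lit 172066) (nat_lit 3) .nil))))) (.g (nat_lit 0) (.e (nat_lit 46796) (nat_lit 0) .nil) .nil))) 
(.lf (nat_lit 458672) (.g (nat_lit 2159) (.e (nat_lit 2702) (nat_lit 169) (.e (nat_lit 213032) (nat_lit 11) (.e (nat_lit 24608) (nat_lit 3) (.e (nat_lit 98372) (nat_lit 29) .nil)))) (.g (nat_lit 0) (.e (nat_lit 47917) (nat_lit 0) .nil) .nil)))))) (.nd (nat_lit 7) (.nd (nat_lit 8) (.nd (nat_lit 9) 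
(.lf (nat_lit 457840) (.g (nat_lit 3005) (.e (nat_lit 2684) (nat_lit 168) (.e (nat_lit 204863) (nat_lit 27) (.e (nat_lit 344129) (nat_lit 26) (.e (nat_lit 557103) (nat_lit 14) (.e (nat_lit 180250) (nat_lit 10) (.e (nat_lit 573475) (nat_lit 12) (.e (nat_lit 57506) (nat_lit 39) (.e (nat_lit 647175) (nat_lit 0) .nil)))))))) (.g (nat_lit 1) (.e (nat_lit 45696) (nat_lit 0) .nil) .nil))) 
(.lf (nat_lit 458352) (.g (nat_lit 1788) (.e (nat_lit 2685) (nat_lit 168) (.e (nat_lit 204864) (nat_lit 27) (.e (nat_lit 344130) (nat_lit 26) (.e (nat_lit 557103) (nat_lit 14) (.e (nat_lit 188160) (nat_lit 3) .nil))))) (.g (nat_lit 0) (.e (nat_lit 46990) (nat_lit 0) .nil) .nil)))) (.nd (nat_lit 9) 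
(.lf (nat_lit 458096) (.g (nat_lit 2504) (.e (nat_lit 2685) (nat_lit 168) (.e (nat_lit 204846) (nat_lit 24) (.e (nat_lit 319532) (nat_lit 16) (.e (nat_lit 286735) (nat_lit 3) (.e (nat_lit 98367) (nat_lit 27) (.e (nat_lit 442112) (nat_lit 8) .nil)))))) (.g (nat_lit 1) (.e (nat_lit 46444) (nat_lit 0) .nil) .nil))) 
(.lf (nat_lit 458608) (.g (nat_lit 2822) (.e (nat_lit 2694) (nat_lit 169) (.e (nat_lit 213032) (nat_lit 11) (.e (nat_lit 24604) (nat_lit 2) (.e (nat_lit 90176) (nat_lit 15) (.e (nat_lit 188439) (nat_lit 20) .nil))))) (.g (nat_lit 0) (.e (nat_lit 47776) (nat_lit 0) .nil) .nil))))) (.nd (nat_lit 8) (.nd (nat_lit 9) 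
(.lf (nat_lit 457968) (.g (nat_lit 1414) (.e (nat_lit 2684) (nat_lit 168) (.e (nat_lit 204869) (nat_lit 29) (.e (nat_lit 360475) (nat_lit 8) (.e (nat_lit 557087) (nat_lit 11) .nil)))) (.g (nat_lit 0) (.e (nat_lit 46150) (nat_lit 0) .nil) .nil))) 
(.lf (nat_lit 458480) (.g (nat_lit 4124) (.e (nat_lit 2685) (nat_lit 168) (.e (nat_lit 204869) (nat_lit 29) (.e (nat_lit 360474) (nat_lit 8) (.e (nat_lit 557091) (nat_lit 12) .nil)))) (.g (nat_lit 0) (.e (nat_lit 47525) (nat_lit 0) .nil) .nil)))) (.nd (nat_lit 9) 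
(.lf (nat_lit 458224) (.g (nat_lit 1113) (.e (nat_lit 2685) (nat_lit 168) (.e (nat_lit 204862) (nat_lit 27) (.e (nat_lit 344133) (nat_lit 26) (.e (nat_lit 557103) (nat_lit 14) .nil)))) (.g (nat_lit 0) (.e (nat_lit 46861) (nat_lit 0) .nil) .nil))) 
(.lf (nat_lit 458736) (.g (nat_lit 2529) (.e (nat_lit 2725) (nat_lit 172) (.e (nat_lit 237587) (nat_lit 2) (.e (nat_lit 196666) (nat_lit 13) (.e (nat_lit 65617) (nat_lit 10) (.e (nat_lit 344130) (nat_lit 26) (.e (nat_lit 557090) (nat_lit 12) (.e (nat_lit 163843) (nat_lit 0) (.e (nat_lit 6252) (nat_lit 337) .nil)))))))) (.g (nat_lit 1) (.e (nat_lit 48348) (nat_lit 0) .nil) .nil))))))))) 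
(.nd (nat_lit 4) (.nd (nat_lit 5) (.nd (nat_lit 6) (.nd (nat_lit 7) (.nd (nat_lit 8) 
(.nd (nat_lit 9) 
(.lf (nat_lit 457736) (.g (nat_lit 2371) (.e (nat_lit 2684) (nat_lit 168) (.e (nat_lit 204862) (nat_lit 27) (.e (nat_lit 344117) (nat_lit 21) (.e (nat_lit 516130) (nat_lit 3) (.e (nat_lit 221212) (nat_lit 22) (.e (nat_lit 196660) (nat_lit 12) (.e (nat_lit 57507) (nat_lit 39) (.e (nat_lit 655104) (nat_lit 0) .nil)))))))) (.g (nat_lit 1) (.e (nat_lit 45592) (nat_lit 0) .nil) .nil))) 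
(.lf (nat_lit 458248) (.g (nat_lit 2332) (.e (nat_lit 2685) (nat_lit 168) (.e (nat_lit 204863) (nat_lit 27) (.e (nat_lit 344129) (nat_lit 26) (.e (nat_lit 557097) (nat_lit 13) (.e (nat_lit 172066) (nat_lit 3) .nil))))) (.g (nat_lit 0) (.e (nat_lit 46886) (nat_lit 0) .nil) .nil)))) (.nd (nat_lit 9) 
(.lf (nat_lit 457992) (.g (nat_lit 4766) (.e (nat_lit 2684) (nat_lit 168) (.e (nat_lit 204869) (nat_lit 29) (.e (nat_lit 360475) (nat_lit 8) (.e (nat_lit 557089) (nat_lit 12) (.e (nat_lit 163848) (nat_lit 0) (.e (nat_lit 6418) (nat_lit 341) (.e (nat_lit 163850) (nat_lit 0) (.e (nat_lit 7936) (nat_lit 388) .nil)))))))) (.g (nat_lit 1) (.e (nat_lit 46176) (nat_lit 0) .nil) .nil))) 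
(.lf (nat_lit 458504) (.g (nat_lit 3786) (.e (nat_lit 2685) (nat_lit 168) (.e (nat_lit 204869) (nat_lit 29) (.e (nat_lit 360475) (nat_lit 8) (.e (nat_lit 557086) (nat_lit 11) (.e (nat_lit 24580) (nat_lit 0) (.e (nat_lit 6617) (nat_lit 357) .nil)))))) (.g (nat_lit 1) (.e (nat_lit 47584) (nat_lit 0) .nil) .nil))))) (.nd (nat_lit 8) (.nd (nat_lit 9) 
(.lf (nat_lit 457864) (.g (nat_lit 3824) (.e (nat_lit 2684) (nat_lit 168) (.e (nat_lit 204863) (nat_lit 27) (.e (nat_lit 344131) (nat_lit 26) (.e (nat_lit 557105) (nat_lit 14) (.e (nat_lit 180252) (nat_lit 10) (.e (nat_lit 573474) (nat_lit 12) (.e (nat_lit 57506) (nat_lit 39) (.e (nat_lit 655104) (nat_lit 0) .nil)))))))) (.g (nat_lit 1) (.e (nat_lit 45720) (nat_lit 0) .nil) .nil))) 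
(.lf (nat_lit 458376) (.g (nat_lit 534) (.e (nat_lit 2685) (nat_lit 168) (.e (nat_lit 204868) (nat_lit 29) (.e (nat_lit 368384) (nat_lit 0) .nil))) (.g (nat_lit 0) (.e (nat_lit 47168) (nat_lit 0) .nil) .nil)))) (.nd (nat_lit 9) 
(.lf (nat_lit 458120) (.g (nat_lit 5413) (.e (nat_lit 2685) (nat_lit 168) (.e (nat_lit 204846) (nat_lit 24) (.e (nat_lit 319534) (nat_lit 16) (.e (nat_lit 286735) (nat_lit 3) (.e (nat_lit 98325) (nat_lit 17) (.e (nat_lit 7083) (nat_lit 379) (.e (nat_lit 123162) (nat_lit 256) .nil))))))) (.g (nat_lit 1) (.e (nat_lit 46473) (nat_lit 0) .nil) .nil))) 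
(.lf (nat_lit 458632) (.g (nat_lit 2318) (.e (nat_lit 2697) (nat_lit 169) (.e (nat_lit 213032) (nat_lit 11) (.e (nat_lit 24604) (nat_lit 2) (.e (nat_lit 90176) (nat_lit 15) .nil)))) (.g (nat_lit 0) (.e (nat_lit 47829) (nat_lit 0) .nil) .nil)))))) (.nd (nat_lit 7) (.nd (nat_lit 8) (.nd (nat_lit 9) 
(.lf (nat_lit 457800) (.g (nat_lit 4331) (.e (nat_lit 2684) (nat_lit 168) (.e (nat_lit 204862) (nat_lit 27) (.e (nat_lit 344133) (nat_lit 26) (.e (nat_lit 557103) (nat_lit 14) (.e (nat_lit 180250) (nat_lit 10) (.e (nat_lit 573473) (nat_lit 12) (.e (nat_lit 57507) (nat_lit 39) (.e (nat_lit 655104) (nat_lit 0) .nil)))))))) (.g (nat_lit 1) (.e (nat_lit 45656) (nat_lit 0) .nil) .nil))) 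
(.lf (nat_lit 458312) (.g (nat_lit 1751) (.e (nat_lit 2685) (nat_lit 168) (.e (nat_lit 204863) (nat_lit 27) (.e (nat_lit 344133) (nat_lit 26) (.e (nat_lit 557096) (nat_lit 13) .nil)))) (.g (nat_lit 0) (.e (nat_lit 46950) (nat_lit 0) .nil) .nil)))) (.nd (nat_lit 9) 
(.lf (nat_lit 458056) (.g (nat_lit 3456) (.e (nat_lit 2685) (nat_lit 168) (.e (nat_lit 204837) (nat_lit 20) (.e (nat_lit 114718) (nat_lit 23) (.e (nat_lit 98356) (nat_lit 26) (.e (nat_lit 426438) (nat_lit 18) (.e (nat_lit 98334) (nat_lit 18) (.e (nat_lit 164305) (nat_lit 226) (.e (nat_lit 2433) (nat_lit 157) .nil)))))))) (.g (nat_lit 1) (.e (nat_lit 46299) (nat_lit 0) .nil) .nil))) 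
(.lf (nat_lit 458568) (.g (nat_lit 3001) (.e (nat_lit 2686) (nat_lit 169) (.e (nat_lit 213032) (nat_lit 11) (.e (nat_lit 24608) (nat_lit 3) (.e (nat_lit 98365) (nat_lit 26) .nil)))) (.g (nat_lit 0) (.e (nat_lit 47711) (nat_lit 0) .nil) .nil))))) (.nd (nat_lit 8) (.nd (nat_lit 9) 
(.lf (nat_lit 457928) (.g (nat_lit 3067) (.e (nat_lit 2684) (nat_lit 168) (.e (nat_lit 204869) (nat_lit 29) (.e (nat_lit 360474) (nat_lit 8) (.e (nat_lit 557089) (nat_lit 12) (.e (nat_lit 163844) (nat_lit 0) (.e (nat_lit 6418) (nat_lit 341) (.e (nat_lit 163850) (nat_lit 0) (.e (nat_lit 7936) (nat_lit 388) .nil)))))))) (.g (nat_lit 1) (.e (nat_lit 46075) (nat_lit 0) .nil) .nil))) 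
(.lf (nat_lit 458440) (.g (nat_lit 3820) (.e (nat_lit 2685) (nat_lit 168) (.e (nat_lit 204868) (nat_lit 29) (.e (nat_lit 360475) (nat_lit 8) (.e (nat_lit 557085) (nat_lit 11) (.e (nat_lit 24580) (nat_lit 0) .nil))))) (.g (nat_lit 0) (.e (nat_lit 47408) (nat_lit 0) .nil) .nil)))) (.nd (nat_lit 9) 
(.lf (nat_lit 458184) (.g (nat_lit 2997) (.e (nat_lit 2685) (nat_lit 168) (.e (nat_lit 204862) (nat_lit 27) (.e (nat_lit 344129) (nat_lit 26) (.e (nat_lit 557104) (nat_lit 14) (.e (nat_lit 180252) (nat_lit 10) (.e (nat_lit 573474) (nat_lit 12) (.e (nat_lit 57506) (nat_lit 39) (.e (nat_lit 647170) (nat_lit 0) .nil)))))))) (.g (nat_lit 1) (.e (nat_lit 46821) (nat_lit 0) .nil) .nil))) 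
(.lf (nat_lit 458696) (.g (nat_lit 3313) (.e (nat_lit 2706) (nat_lit 170) (.e (nat_lit 221215) (nat_lit 23) (.e (nat_lit 204862) (nat_lit 27) (.e (nat_lit 344118) (nat_lit 21) (.e (nat_lit 516120) (nat_lit 1) (.e (nat_lit 164183) (nat_lit 154) (.e (nat_lit 57373) (nat_lit 2) (.e (nat_lit 90128) (nat_lit 9) .nil)))))))) (.g (nat_lit 1) (.e (nat_lit 48055) (nat_lit 0) .nil) .nil))))))) 
(.nd (nat_lit 6) (.nd (nat_lit 7) (.nd (nat_lit 8) (.nd (nat_lit 9) 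
(.lf (nat_lit 457768) (.g (nat_lit 4369) (.e (nat_lit 2684) (nat_lit 168) (.e (nat_lit 204862) (nat_lit 27) (.e (nat_lit 344130) (nat_lit 26) (.e (nat_lit 557103) (nat_lit 14) (.e (nat_lit 180250) (nat_lit 10) (.e (nat_lit 573475) (nat_lit 12) (.e (nat_lit 57507) (nat_lit 39) (.e (nat_lit 655104) (nat_lit 0) .nil)))))))) (.g (nat_lit 1) (.e (nat_lit 45624) (nat_lit 0) .nil) .nil))) 
(.lf (nat_lit 458280) (.g (nat_lit 2761) (.e (nat_lit 2685) (nat_lit 168) (.e (nat_lit 204863) (nat_lit 27) (.e (nat_lit 344131) (nat_lit 26) (.e (nat_lit 557105) (nat_lit 14) (.e (nat_lit 180252) (nat_lit 10) (.e (nat_lit 573473) (nat_lit 12) (.e (nat_lit 57508) (nat_lit 39) (.e (nat_lit 647168) (nat_lit 0) .nil)))))))) (.g (nat_lit 1) (.e (nat_lit 46918) (nat_lit 0) .nil) .nil)))) 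
(.nd (nat_lit 9) 
(.lf (nat_lit 458024) (.g (nat_lit 3120) (.e (nat_lit 2685) (nat_lit 168) (.e (nat_lit 204829) (nat_lit 18) (.e (nat_lit 57847) (nat_lit 252) (.e (nat_lit 57377) (nat_lit 3) .nil)))) (.g (nat_lit 0) (.e (nat_lit 46260) (nat_lit 0) .nil) .nil))) 
(.lf (nat_lit 458536) (.g (nat_lit 5254) (.e (nat_lit 2685) (nat_lit 168) (.e (nat_lit 204869) (nat_lit 29) (.e (nat_lit 360475) (nat_lit 8) (.e (nat_lit 557089) (nat_lit 12) (.e (nat_lit 163849) (nat_lit 0) (.e (nat_lit 6420) (nat_lit 341) (.e (nat_lit 163843) (nat_lit 0) (.e (nat_lit 7936) (nat_lit 388) .nil)))))))) (.g (nat_lit 1) (.e (nat_lit 47616) (nat_lit 0) .nil) .nil))))) 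
(.nd (nat_lit 8) (.nd (nat_lit 9) 
(.lf (nat_lit 457896) (.g (nat_lit 3690) (.e (nat_lit 2684) (nat_lit 168) (.e (nat_lit 204863) (nat_lit 27) (.e (nat_lit 344133) (nat_lit 26) (.e (nat_lit 557105) (nat_lit 14) (.e (nat_lit 180251) (nat_lit 10) (.e (nat_lit 573477) (nat_lit 12) (.e (nat_lit 57511) (nat_lit 39) (.e (nat_lit 655104) (nat_lit 0) .nil)))))))) (.g (nat_lit 1) (.e (nat_lit 45752) (nat_lit 0) .nil) .nil))) 
(.lf (nat_lit 458408) (.g (nat_lit 2232) (.e (nat_lit 2685) (nat_lit 168) (.e (nat_lit 204868) (nat_lit 29) (.e (nat_lit 360466) (nat_lit 3) (.e (nat_lit 516142) (nat_lit 8) (.e (nat_lit 417821) (nat_lit 10) (.e (nat_lit 5612) (nat_lit 312) .nil)))))) (.g (nat_lit 1) (.e (nat_lit 47221) (nat_lit 0) .nil) .nil)))) (.nd (nat_lit 9) 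
(.lf (nat_lit 458152) (.g (nat_lit 3703) (.e (nat_lit 2685) (nat_lit 168) (.e (nat_lit 204862) (nat_lit 27) (.e (nat_lit 344129) (nat_lit 26) (.e (nat_lit 557067) (nat_lit 9) (.e (nat_lit 2878) (nat_lit 184) (.e (nat_lit 426125) (nat_lit 2) (.e (nat_lit 196661) (nat_lit 12) (.e (nat_lit 57576) (nat_lit 60) (.e (nat_lit 819204) (nat_lit 0) .nil))))))))) (.g (nat_lit 1) (.e (nat_lit 46788) (nat_lit 0) .nil) .nil))) 
(.lf (nat_lit 458664) (.g (nat_lit 2508) (.e (nat_lit 2700) (nat_lit 169) (.e (nat_lit 213032) (nat_lit 11) (.e (nat_lit 24608) (nat_lit 3) (.e (nat_lit 98365) (nat_lit 26) .nil)))) (.g (nat_lit 0) (.e (nat_lit 47900) (nat_lit 0) .nil) .nil)))))) (.nd (nat_lit 7) (.nd (nat_lit 8) (.nd (nat_lit 9) 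
(.lf (nat_lit 457832) (.g (nat_lit 831) (.e (nat_lit 2684) (nat_lit 168) (.e (nat_lit 204863) (nat_lit 27) (.e (nat_lit 344128) (nat_lit 26) .nil))) (.g (nat_lit 0) (.e (nat_lit 45688) (nat_lit 0) .nil) .nil))) 
(.lf (nat_lit 458344) (.g (nat_lit 3745) (.e (nat_lit 2685) (nat_lit 168) (.e (nat_lit 204863) (nat_lit 27) (.e (nat_lit 344133) (nat_lit 26) (.e (nat_lit 557105) (nat_lit 14) (.e (nat_lit 180252) (nat_lit 10) (.e (nat_lit 573474) (nat_lit 12) (.e (nat_lit 57507) (nat_lit 39) (.e (nat_lit 655104) (nat_lit 0) .nil)))))))) (.g (nat_lit 1) (.e (nat_lit 46982) (nat_lit 0) .nil) .nil)))) 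
(.nd (nat_lit 9) 
(.lf (nat_lit 458088) (.g (nat_lit 4089) (.e (nat_lit 2685) (nat_lit 168) (.e (nat_lit 204846) (nat_lit 24) (.e (nat_lit 319531) (nat_lit 16) (.e (nat_lit 286735) (nat_lit 3) (.e (nat_lit 98367) (nat_lit 27) (.e (nat_lit 442112) (nat_lit 8) .nil)))))) (.g (nat_lit 1) (.e (nat_lit 46433) (nat_lit 0) .nil) .nil))) 
(.lf (nat_lit 458600) (.g (nat_lit 2004) (.e (nat_lit 2692) (nat_lit 169) (.e (nat_lit 213030) (nat_lit 11) (.e (nat_lit 24617) (nat_lit 7) (.e (nat_lit 319531) (nat_lit 16) (.e (nat_lit 286759) (nat_lit 12) .nil))))) (.g (nat_lit 0) (.e (nat_lit 47763) (nat_lit 0) .nil) .nil))))) (.nd (nat_lit 8) (.nd (nat_lit 9) 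
(.lf (nat_lit 457960) (.g (nat_lit 3749) (.e (nat_lit 2684) (nat_lit 168) (.e (nat_lit 204869) (nat_lit 29) (.e (nat_lit 360474) (nat_lit 8) (.e (nat_lit 557094) (nat_lit 12) (.e (nat_lit 163849) (nat_lit 0) (.e (nat_lit 6420) (nat_lit 341) (.e (nat_lit 163843) (nat_lit 0) (.e (nat_lit 7936) (nat_lit 388) .nil)))))))) (.g (nat_lit 1) (.e (nat_lit 46116) (nat_lit 0) .nil) .nil))) 
(.lf (nat_lit 458472) (.g (nat_lit 1401) (.e (nat_lit 2685) (nat_lit 168) (.e (nat_lit 204869) (nat_lit 29) (.e (nat_lit 360474) (nat_lit 8) (.e (nat_lit 557072) (nat_lit 9) .nil)))) (.g (nat_lit 0) (.e (nat_lit 47501) (nat_lit 0) .nil) .nil)))) (.nd (nat_lit 9) 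
(.lf (nat_lit 458216) (.g (nat_lit 2201) (.e (nat_lit 2685) (nat_lit 168) (.e (nat_lit 204862) (nat_lit 27) (.e (nat_lit 344133) (nat_lit 26) (.e (nat_lit 557096) (nat_lit 13) (.e (nat_lit 172067) (nat_lit 3) (.e (nat_lit 204821) (nat_lit 17) (.e (nat_lit 2391) (nat_lit 156) (.e (nat_lit 819204) (nat_lit 0) .nil)))))))) (.g (nat_lit 1) (.e (nat_lit 46853) (nat_lit 0) .nil) .nil))) 
(.lf (nat_lit 458728) (.g (nat_lit 4024) (.e (nat_lit 2725) (nat_lit 172) (.e (nat_lit 237587) (nat_lit 2) (.e (nat_lit 196666) (nat_lit 13) (.e (nat_lit 65617) (nat_lit 10) (.e (nat_lit 344127) (nat_lit 26) (.e (nat_lit 557090) (nat_lit 12) (.e (nat_lit 163843) (nat_lit 0) (.e (nat_lit 6254) (nat_lit 337) .nil)))))))) (.g (nat_lit 1) (.e (nat_lit 48340) (nat_lit 0) .nil) .nil)))))))) 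
(.nd (nat_lit 5) (.nd (nat_lit 6) (.nd (nat_lit 7) (.nd (nat_lit 8) (.nd (nat_lit 9) 
(.lf (nat_lit 457752) (.g (nat_lit 2846) (.e (nat_lit 2684) (nat_lit 168) (.e (nat_lit 204862) (nat_lit 27) (.e (nat_lit 344129) (nat_lit 26) (.e (nat_lit 557103) (nat_lit 14) (.e (nat_lit 180252) (nat_lit 10) .nil))))) (.g (nat_lit 0) (.e (nat_lit 45608) (nat_lit 0) .nil) .nil))) 
(.lf (nat_lit 458264) (.g (nat_lit 3521) (.e (nat_lit 2685) (nat_lit 168) (.e (nat_lit 204863) (nat_lit 27) (.e (nat_lit 344130) (nat_lit 26) (.e (nat_lit 557097) (nat_lit 13) (.e (nat_lit 172067) (nat_lit 3) (.e (nat_lit 204821) (nat_lit 17) (.e (nat_lit 2391) (nat_lit 156) (.e (nat_lit 819204) (nat_lit 0) .nil)))))))) (.g (nat_lit 1) (.e (nat_lit 46902) (nat_lit 0) .nil) .nil)))) 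
(.nd (nat_lit 9) 
(.lf (nat_lit 458008) (.g (nat_lit 4846) (.e (nat_lit 2684) (nat_lit 168) (.e (nat_lit 204869) (nat_lit 29) (.e (nat_lit 360475) (nat_lit 8) (.e (nat_lit 557091) (nat_lit 12) (.e (nat_lit 163847) (nat_lit 0) (.e (nat_lit 6418) (nat_lit 341) (.e (nat_lit 163850) (nat_lit 0) (.e (nat_lit 7936) (nat_lit 388) .nil)))))))) (.g (nat_lit 1) (.e (nat_lit 46200) (nat_lit 0) .nil) .nil))) 
(.lf (nat_lit 458520) (.g (nat_lit 2998) (.e (nat_lit 2685) (nat_lit 168) (.e (nat_lit 204869) (nat_lit 29) (.e (nat_lit 360475) (nat_lit 8) (.e (nat_lit 557087) (nat_lit 11) (.e (nat_lit 24589) (nat_lit 0) .nil))))) (.g (nat_lit 0) (.e (nat_lit 47600) (nat_lit 0) .nil) .nil))))) (.nd (nat_lit 8) (.nd (nat_lit 9) 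
(.lf (nat_lit 457880) (.g (nat_lit 4015) (.e (nat_lit 2684) (nat_lit 168) (.e (nat_lit 204863) (nat_lit 27) (.e (nat_lit 344132) (nat_lit 26) (.e (nat_lit 557105) (nat_lit 14) (.e (nat_lit 180252) (nat_lit 10) (.e (nat_lit 573474) (nat_lit 12) (.e (nat_lit 57506) (nat_lit 39) (.e (nat_lit 655104) (nat_lit 0) .nil)))))))) (.g (nat_lit 1) (.e (nat_lit 45736) (nat_lit 0) .nil) .nil))) 
(.lf (nat_lit 458392) (.g (nat_lit 3414) (.e (nat_lit 2685) (nat_lit 168) (.e (nat_lit 204868) (nat_lit 29) (.e (nat_lit 360466) (nat_lit 3) (.e (nat_lit 516139) (nat_lit 7) (.e (nat_lit 409616) (nat_lit 10) (.e (nat_lit 7936) (nat_lit 312) .nil)))))) (.g (nat_lit 1) (.e (nat_lit 47203) (nat_lit 0) .nil) .nil)))) (.nd (nat_lit 9) 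
(.lf (nat_lit 458136) (.g (nat_lit 1449) (.e (nat_lit 2685) (nat_lit 168) (.e (nat_lit 204855) (nat_lit 26) (.e (nat_lit 336226) (nat_lit 14) (.e (nat_lit 401410) (nat_lit 0) .nil)))) (.g (nat_lit 0) (.e (nat_lit 46727) (nat_lit 0) .nil) .nil))) 
(.lf (nat_lit 458648) (.g (nat_lit 1097) (.e (nat_lit 2700) (nat_lit 169) (.e (nat_lit 213030) (nat_lit 11) (.e (nat_lit 24604) (nat_lit 2) (.e (nat_lit 90176) (nat_lit 15) .nil)))) (.g (nat_lit 0) (.e (nat_lit 47882) (nat_lit 0) .nil) .nil)))))) (.nd (nat_lit 7) (.nd (nat_lit 8) (.nd (nat_lit 9) 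
(.lf (nat_lit 457816) (.g (nat_lit 4134) (.e (nat_lit 2684) (nat_lit 168) (.e (nat_lit 204862) (nat_lit 27) (.e (nat_lit 344133) (nat_lit 26) (.e (nat_lit 557105) (nat_lit 14) (.e (nat_lit 180252) (nat_lit 10) (.e (nat_lit 573473) (nat_lit 12) (.e (nat_lit 57508) (nat_lit 39) (.e (nat_lit 647175) (nat_lit 0) .nil)))))))) (.g (nat_lit 1) (.e (nat_lit 45672) (nat_lit 0) .nil) .nil))) 
(.lf (nat_lit 458328) (.g (nat_lit 2504) (.e (nat_lit 2685) (nat_lit 168) (.e (nat_lit 204863) (nat_lit 27) (.e (nat_lit 344133) (nat_lit 26) (.e (nat_lit 557103) (nat_lit 14) (.e (nat_lit 180250) (nat_lit 10) .nil))))) (.g (nat_lit 0) (.e (nat_lit 46966) (nat_lit 0) .nil) .nil)))) (.nd (nat_lit 9) 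
(.lf (nat_lit 458072) (.g (nat_lit 3979) (.e (nat_lit 2685) (nat_lit 168) (.e (nat_lit 204846) (nat_lit 24) (.e (nat_lit 319529) (nat_lit 16) (.e (nat_lit 286735) (nat_lit 3) (.e (nat_lit 98350) (nat_lit 24) (.e (nat_lit 409603) (nat_lit 0) (.e (nat_lit 5626) (nat_lit 312) .nil))))))) (.g (nat_lit 1) (.e (nat_lit 46414) (nat_lit 0) .nil) .nil))) 
(.lf (nat_lit 458584) (.g (nat_lit 2294) (.e (nat_lit 2690) (nat_lit 169) (.e (nat_lit 213032) (nat_lit 11) (.e (nat_lit 24604) (nat_lit 2) (.e (nat_lit 90178) (nat_lit 15) .nil)))) (.g (nat_lit 0) (.e (nat_lit 47740) (nat_lit 0) .nil) .nil))))) (.nd (nat_lit 8) (.nd (nat_lit 9) 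
(.lf (nat_lit 457944) (.g (nat_lit 3780) (.e (nat_lit 2684) (nat_lit 168) (.e (nat_lit 204869) (nat_lit 29) (.e (nat_lit 360474) (nat_lit 8) (.e (nat_lit 557091) (nat_lit 12) (.e (nat_lit 163849) (nat_lit 0) .nil))))) (.g (nat_lit 0) (.e (nat_lit 46093) (nat_lit 0) .nil) .nil))) 
(.lf (nat_lit 458456) (.g (nat_lit 2087) (.e (nat_lit 2685) (nat_lit 168) (.e (nat_lit 204869) (nat_lit 29) (.e (nat_lit 360450) (nat_lit 0) (.e (nat_lit 3957) (nat_lit 239) .nil)))) (.g (nat_lit 0) (.e (nat_lit 47426) (nat_lit 0) .nil) .nil)))) (.nd (nat_lit 9) 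
(.lf (nat_lit 458200) (.g (nat_lit 2460) (.e (nat_lit 2685) (nat_lit 168) (.e (nat_lit 204862) (nat_lit 27) (.e (nat_lit 344130) (nat_lit 26) (.e (nat_lit 557103) (nat_lit 14) (.e (nat_lit 180250) (nat_lit 10) (.e (nat_lit 573474) (nat_lit 12) (.e (nat_lit 57508) (nat_lit 39) (.e (nat_lit 647170) (nat_lit 0) .nil)))))))) (.g (nat_lit 1) (.e (nat_lit 46837) (nat_lit 0) .nil) .nil))) 
(.lf (nat_lit 458712) (.g (nat_lit 1842) (.e (nat_lit 2710) (nat_lit 170) (.e (nat_lit 221207) (nat_lit 21) (.e (nat_lit 164347) (nat_lit 240) (.e (nat_lit 2638) (nat_lit 165) (.e (nat_lit 188160) (nat_lit 35) (.e (nat_lit 57464) (nat_lit 23) (.e (nat_lit 516123) (nat_lit 2) (.e (nat_lit 213013) (nat_lit 9) .nil)))))))) (.g (nat_lit 1) (.e (nat_lit 48133) (nat_lit 0) .nil) .nil))))))) 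
(.nd (nat_lit 6) (.nd (nat_lit 7) (.nd (nat_lit 8) (.nd (nat_lit 9) 
(.lf (nat_lit 457784) (.g (nat_lit 4402) (.e (nat_lit 2684) (nat_lit 168) (.e (nat_lit 204862) (nat_lit 27) (.e (nat_lit 344132) (nat_lit 26) (.e (nat_lit 557105) (nat_lit 14) (.e (nat_lit 180252) (nat_lit 10) (.e (nat_lit 573473) (nat_lit 12) (.e (nat_lit 57507) (nat_lit 39) (.e (nat_lit 655104) (nat_lit 0) .nil)))))))) (.g (nat_lit 1) (.e (nat_lit 45640) (nat_lit 0) .nil) .nil))) 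
(.lf (nat_lit 458296) (.g (nat_lit 1343) (.e (nat_lit 2685) (nat_lit 168) (.e (nat_lit 204863) (nat_lit 27) (.e (nat_lit 344132) (nat_lit 26) (.e (nat_lit 557105) (nat_lit 14) .nil)))) (.g (nat_lit 0) (.e (nat_lit 46934) (nat_lit 0) .nil) .nil)))) (.nd (nat_lit 9) 
(.lf (nat_lit 458040) (.g (nat_lit 2197) (.e (nat_lit 2685) (nat_lit 168) (.e (nat_lit 204837) (nat_lit 20) (.e (nat_lit 114714) (nat_lit 22) (.e (nat_lit 90172) (nat_lit 14) (.e (nat_lit 180244) (nat_lit 5) (.e (nat_lit 532504) (nat_lit 1) (.e (nat_lit 57663) (nat_lit 152) (.e (nat_lit 2450) (nat_lit 157) .nil)))))))) (.g (nat_lit 1) (.e (nat_lit 46280) (nat_lit 0) .nil) .nil))) 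
(.lf (nat_lit 458552) (.g (nat_lit 2267) (.e (nat_lit 2685) (nat_lit 168) (.e (nat_lit 204870) (nat_lit 29) (.e (nat_lit 360467) (nat_lit 3) (.e (nat_lit 516139) (nat_lit 7) (.e (nat_lit 409617) (nat_lit 10) (.e (nat_lit 7936) (nat_lit 312) .nil)))))) (.g (nat_lit 1) (.e (nat_lit 47639) (nat_lit 0) .nil) .nil))))) (.nd (nat_lit 8) (.nd (nat_lit 9) 
(.lf (nat_lit 457912) (.g (nat_lit 3756) (.e (nat_lit 2684) (nat_lit 168) (.e (nat_lit 204868) (nat_lit 29) (.e (nat_lit 360473) (nat_lit 8) (.e (nat_lit 557087) (nat_lit 11) (.e (nat_lit 24580) (nat_lit 0) (.e (nat_lit 6696) (nat_lit 357) .nil)))))) (.g (nat_lit 1) (.e (nat_lit 45957) (nat_lit 0) .nil) .nil))) 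
(.lf (nat_lit 458424) (.g (nat_lit 1938) (.e (nat_lit 2685) (nat_lit 168) (.e (nat_lit 204868) (nat_lit 29) (.e (nat_lit 360473) (nat_lit 8) (.e (nat_lit 557085) (nat_lit 11) (.e (nat_lit 24579) (nat_lit 0) .nil))))) (.g (nat_lit 0) (.e (nat_lit 47360) (nat_lit 0) .nil) .nil)))) (.nd (nat_lit 9) 
(.lf (nat_lit 458168) (.g (nat_lit 2935) (.e (nat_lit 2685) (nat_lit 168) (.e (nat_lit 204862) (nat_lit 27) (.e (nat_lit 344129) (nat_lit 26) (.e (nat_lit 557103) (nat_lit 14) (.e (nat_lit 180244) (nat_lit 5) .nil))))) (.g (nat_lit 0) (.e (nat_lit 46805) (nat_lit 0) .nil) .nil))) 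
(.lf (nat_lit 458680) (.g (nat_lit 4826) (.e (nat_lit 2706) (nat_lit 170) (.e (nat_lit 221214) (nat_lit 23) (.e (nat_lit 204863) (nat_lit 27) (.e (nat_lit 344117) (nat_lit 21) (.e (nat_lit 516115) (nat_lit 1) (.e (nat_lit 164183) (nat_lit 154) (.e (nat_lit 57375) (nat_lit 2) (.e (nat_lit 90128) (nat_lit 9) .nil)))))))) (.g (nat_lit 1) (.e (nat_lit 48019) (nat_lit 0) .nil) .nil)))))) 
(.nd (nat_lit 7) (.nd (nat_lit 8) (.nd (nat_lit 9) 
(.lf (nat_lit 457848) (.g (nat_lit 2053) (.e (nat_lit 2684) (nat_lit 168) (.e (nat_lit 204863) (nat_lit 27) (.e (nat_lit 344130) (nat_lit 26) (.e (nat_lit 557103) (nat_lit 14) (.e (nat_lit 180250) (nat_lit 10) .nil))))) (.g (nat_lit 0) (.e (nat_lit 45704) (nat_lit 0) .nil) .nil))) 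
(.lf (nat_lit 458360) (.g (nat_lit 3482) (.e (nat_lit 2685) (nat_lit 168) (.e (nat_lit 204864) (nat_lit 27) (.e (nat_lit 344132) (nat_lit 26) (.e (nat_lit 557105) (nat_lit 14) (.e (nat_lit 180252) (nat_lit 10) (.e (nat_lit 573473) (nat_lit 12) (.e (nat_lit 57507) (nat_lit 39) (.e (nat_lit 647170) (nat_lit 0) .nil)))))))) (.g (nat_lit 1) (.e (nat_lit 46998) (nat_lit 0) .nil) .nil)))) 
(.nd (nat_lit 9) 
(.lf (nat_lit 458104) (.g (nat_lit 2854) (.e (nat_lit 2685) (nat_lit 168) (.e (nat_lit 204846) (nat_lit 24) (.e (nat_lit 319533) (nat_lit 16) (.e (nat_lit 286734) (nat_lit 3) (.e (nat_lit 98325) (nat_lit 17) .nil))))) (.g (nat_lit 0) (.e (nat_lit 46454) (nat_lit 0) .nil) .nil))) 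
(.lf (nat_lit 458616) (.g (nat_lit 1153) (.e (nat_lit 2695) (nat_lit 169) (.e (nat_lit 213032) (nat_lit 11) (.e (nat_lit 24604) (nat_lit 2) .nil))) (.g (nat_lit 0) (.e (nat_lit 47787) (nat_lit 0) .nil) .nil))))) (.nd (nat_lit 8) (.nd (nat_lit 9) 
(.lf (nat_lit 457976) (.g (nat_lit 3364) (.e (nat_lit 2684) (nat_lit 168) (.e (nat_lit 204869) (nat_lit 29) (.e (nat_lit 360475) (nat_lit 8) (.e (nat_lit 557087) (nat_lit 11) (.e (nat_lit 24584) (nat_lit 0) (.e (nat_lit 7936) (nat_lit 357) .nil)))))) (.g (nat_lit 1) (.e (nat_lit 46158) (nat_lit 0) .nil) .nil))) 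
(.lf (nat_lit 458488) (.g (nat_lit 2831) (.e (nat_lit 2685) (nat_lit 168) (.e (nat_lit 204869) (nat_lit 29) (.e (nat_lit 360475) (nat_lit 8) (.e (nat_lit 557065) (nat_lit 9) (.e (nat_lit 305) (nat_lit 22) .nil))))) (.g (nat_lit 0) (.e (nat_lit 47535) (nat_lit 0) .nil) .nil)))) (.nd (nat_lit 9) 
(.lf (nat_lit 458232) (.g (nat_lit 3672) (.e (nat_lit 2685) (nat_lit 168) (.e (nat_lit 204862) (nat_lit 27) (.e (nat_lit 344133) (nat_lit 26) (.e (nat_lit 557103) (nat_lit 14) (.e (nat_lit 180250) (nat_lit 10) (.e (nat_lit 573473) (nat_lit 12) (.e (nat_lit 57508) (nat_lit 39) (.e (nat_lit 647170) (nat_lit 0) .nil)))))))) (.g (nat_lit 1) (.e (nat_lit 46869) (nat_lit 0) .nil) .nil))) 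
(.lf (nat_lit 458744) (.g (nat_lit 2577) (.e (nat_lit 2725) (nat_lit 172) (.e (nat_lit 237587) (nat_lit 2) (.e (nat_lit 196666) (nat_lit 13) (.e (nat_lit 65617) (nat_lit 10) (.e (nat_lit 344132) (nat_lit 26) (.e (nat_lit 557093) (nat_lit 12) (.e (nat_lit 163848) (nat_lit 0) (.e (nat_lit 6252) (nat_lit 337) .nil)))))))) (.g (nat_lit 1) (.e (nat_lit 48356) (nat_lit 0) .nil) .nil)))))))))) 
(.nd (nat_lit 3) (.nd (nat_lit 4) (.nd (nat_lit 5) (.nd (nat_lit 6) (.nd (nat_lit 7) 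
(.nd (nat_lit 8) (.nd (nat_lit 9) 
(.lf (nat_lit 457732) (.g (nat_lit 3046) (.e (nat_lit 2684) (nat_lit 168) (.e (nat_lit 204862) (nat_lit 27) (.e (nat_lit 344117) (nat_lit 21) (.e (nat_lit 516129) (nat_lit 3) (.e (nat_lit 221210) (nat_lit 22) (.e (nat_lit 196660) (nat_lit 12) (.e (nat_lit 57507) (nat_lit 39) (.e (nat_lit 655104) (nat_lit 0) .nil)))))))) (.g (nat_lit 1) (.e (nat_lit 45588) (nat_lit 0) .nil) .nil))) 
(.lf (nat_lit 458244) (.g (nat_lit 1801) (.e (nat_lit 2685) (nat_lit 168) (.e (nat_lit 204863) (nat_lit 27) (.e (nat_lit 344117) (nat_lit 21) (.e (nat_lit 516130) (nat_lit 3) .nil)))) (.g (nat_lit 0) (.e (nat_lit 46881) (nat_lit 0) .nil) .nil)))) (.nd (nat_lit 9) 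
(.lf (nat_lit 457988) (.g (nat_lit 3804) (.e (nat_lit 2684) (nat_lit 168) (.e (nat_lit 204869) (nat_lit 29) (.e (nat_lit 360475) (nat_lit 8) (.e (nat_lit 557089) (nat_lit 12) (.e (nat_lit 163844) (nat_lit 0) (.e (nat_lit 6420) (nat_lit 341) (.e (nat_lit 163843) (nat_lit 0) (.e (nat_lit 7366) (nat_lit 388) .nil)))))))) (.g (nat_lit 1) (.e (nat_lit 46172) (nat_lit 0) .nil) .nil))) 
(.lf (nat_lit 458500) (.g (nat_lit 4446) (.e (nat_lit 2685) (nat_lit 168) (.e (nat_lit 204869) (nat_lit 29) (.e (nat_lit 360475) (nat_lit 8) (.e (nat_lit 557085) (nat_lit 11) (.e (nat_lit 24580) (nat_lit 0) (.e (nat_lit 6619) (nat_lit 357) .nil)))))) (.g (nat_lit 1) (.e (nat_lit 47580) (nat_lit 0) .nil) .nil))))) (.nd (nat_lit 8) (.nd (nat_lit 9) 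
(.lf (nat_lit 457860) (.g (nat_lit 4050) (.e (nat_lit 2684) (nat_lit 168) (.e (nat_lit 204863) (nat_lit 27) (.e (nat_lit 344131) (nat_lit 26) (.e (nat_lit 557105) (nat_lit 14) (.e (nat_lit 180252) (nat_lit 10) (.e (nat_lit 573473) (nat_lit 12) (.e (nat_lit 57507) (nat_lit 39) (.e (nat_lit 655104) (nat_lit 0) .nil)))))))) (.g (nat_lit 1) (.e (nat_lit 45716) (nat_lit 0) .nil) .nil))) 
(.lf (nat_lit 458372) (.g (nat_lit 1399) (.e (nat_lit 2685) (nat_lit 168) (.e (nat_lit 204866) (nat_lit 28) (.e (nat_lit 352318) (nat_lit 24) (.e (nat_lit 130816) (nat_lit 140) .nil)))) (.g (nat_lit 0) (.e (nat_lit 47159) (nat_lit 0) .nil) .nil)))) (.nd (nat_lit 9) 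
(.lf (nat_lit 458116) (.g (nat_lit 2885) (.e (nat_lit 2685) (nat_lit 168) (.e (nat_lit 204846) (nat_lit 24) (.e (nat_lit 319534) (nat_lit 16) (.e (nat_lit 286734) (nat_lit 3) (.e (nat_lit 98367) (nat_lit 27) (.e (nat_lit 442112) (nat_lit 8) .nil)))))) (.g (nat_lit 1) (.e (nat_lit 46469) (nat_lit 0) .nil) .nil))) 
(.lf (nat_lit 458628) (.g (nat_lit 2273) (.e (nat_lit 2696) (nat_lit 169) (.e (nat_lit 213032) (nat_lit 11) (.e (nat_lit 24604) (nat_lit 2) (.e (nat_lit 90176) (nat_lit 15) (.e (nat_lit 188439) (nat_lit 20) .nil))))) (.g (nat_lit 0) (.e (nat_lit 47809) (nat_lit 0) .nil) .nil)))))) (.nd (nat_lit 7) (.nd (nat_lit 8) (.nd (nat_lit 9) 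
(.lf (nat_lit 457796) (.g (nat_lit 1906) (.e (nat_lit 2684) (nat_lit 168) (.e (nat_lit 204862) (nat_lit 27) (.e (nat_lit 344133) (nat_lit 26) (.e (nat_lit 557103) (nat_lit 14) (.e (nat_lit 188160) (nat_lit 3) .nil))))) (.g (nat_lit 0) (.e (nat_lit 45652) (nat_lit 0) .nil) .nil))) 
(.lf (nat_lit 458308) (.g (nat_lit 4154) (.e (nat_lit 2685) (nat_lit 168) (.e (nat_lit 204863) (nat_lit 27) (.e (nat_lit 344132) (nat_lit 26) (.e (nat_lit 557105) (nat_lit 14) (.e (nat_lit 180252) (nat_lit 10) (.e (nat_lit 573475) (nat_lit 12) (.e (nat_lit 57507) (nat_lit 39) (.e (nat_lit 647170) (nat_lit 0) .nil)))))))) (.g (nat_lit 1) (.e (nat_lit 46946) (nat_lit 0) .nil) .nil)))) 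
(.nd (nat_lit 9) 
(.lf (nat_lit 458052) (.g (nat_lit 2048) (.e (nat_lit 2685) (nat_lit 168) (.e (nat_lit 204837) (nat_lit 20) (.e (nat_lit 114716) (nat_lit 22) (.e (nat_lit 90172) (nat_lit 14) (.e (nat_lit 180243) (nat_lit 5) .nil))))) (.g (nat_lit 0) (.e (nat_lit 46294) (nat_lit 0) .nil) .nil))) 
(.lf (nat_lit 458564) (.g (nat_lit 2421) (.e (nat_lit 2686) (nat_lit 169) (.e (nat_lit 213032) (nat_lit 11) (.e (nat_lit 24604) (nat_lit 2) (.e (nat_lit 90176) (nat_lit 15) .nil)))) (.g (nat_lit 0) (.e (nat_lit 47707) (nat_lit 0) .nil) .nil))))) (.nd (nat_lit 8) (.nd (nat_lit 9) 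
(.lf (nat_lit 457924) (.g (nat_lit 3663) (.e (nat_lit 2684) (nat_lit 168) (.e (nat_lit 204869) (nat_lit 29) (.e (nat_lit 360474) (nat_lit 8) (.e (nat_lit 557088) (nat_lit 12) .nil)))) (.g (nat_lit 0) (.e (nat_lit 46068) (nat_lit 0) .nil) .nil))) 
(.lf (nat_lit 458436) (.g (nat_lit 2387) (.e (nat_lit 2685) (nat_lit 168) (.e (nat_lit 204868) (nat_lit 29) (.e (nat_lit 360473) (nat_lit 8) (.e (nat_lit 557087) (nat_lit 11) (.e (nat_lit 24588) (nat_lit 0) (.e (nat_lit 7936) (nat_lit 357) .nil)))))) (.g (nat_lit 1) (.e (nat_lit 47372) (nat_lit 0) .nil) .nil)))) (.nd (nat_lit 9) 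
(.lf (nat_lit 458180) (.g (nat_lit 3216) (.e (nat_lit 2685) (nat_lit 168) (.e (nat_lit 204862) (nat_lit 27) (.e (nat_lit 344129) (nat_lit 26) (.e (nat_lit 557104) (nat_lit 14) (.e (nat_lit 180240) (nat_lit 2) .nil))))) (.g (nat_lit 0) (.e (nat_lit 46817) (nat_lit 0) .nil) .nil))) 
(.lf (nat_lit 458692) (.g (nat_lit 3865) (.e (nat_lit 2706) (nat_lit 170) (.e (nat_lit 221215) (nat_lit 23) (.e (nat_lit 204862) (nat_lit 27) (.e (nat_lit 344117) (nat_lit 21) (.e (nat_lit 516115) (nat_lit 1) (.e (nat_lit 164179) (nat_lit 154) (.e (nat_lit 57373) (nat_lit 2) (.e (nat_lit 90128) (nat_lit 9) .nil)))))))) (.g (nat_lit 1) (.e (nat_lit 48050) (nat_lit 0) .nil) .nil))))))) 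
(.nd (nat_lit 6) (.nd (nat_lit 7) (.nd (nat_lit 8) (.nd (nat_lit 9) 
(.lf (nat_lit 457764) (.g (nat_lit 4120) (.e (nat_lit 2684) (nat_lit 168) (.e (nat_lit 204862) (nat_lit 27) (.e (nat_lit 344130) (nat_lit 26) (.e (nat_lit 557103) (nat_lit 14) (.e (nat_lit 180250) (nat_lit 10) (.e (nat_lit 573473) (nat_lit 12) (.e (nat_lit 57507) (nat_lit 39) (.e (nat_lit 655104) (nat_lit 0) .nil)))))))) (.g (nat_lit 1) (.e (nat_lit 45620) (nat_lit 0) .nil) .nil))) 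
(.lf (nat_lit 458276) (.g (nat_lit 3576) (.e (nat_lit 2685) (nat_lit 168) (.e (nat_lit 204863) (nat_lit 27) (.e (nat_lit 344131) (nat_lit 26) (.e (nat_lit 557100) (nat_lit 13) (.e (nat_lit 172065) (nat_lit 3) (.e (nat_lit 204821) (nat_lit 17) (.e (nat_lit 2391) (nat_lit 156) (.e (nat_lit 819204) (nat_lit 0) .nil)))))))) (.g (nat_lit 1) (.e (nat_lit 46914) (nat_lit 0) .nil) .nil)))) 
(.nd (nat_lit 9) 
(.lf (nat_lit 458020) (.g (nat_lit 3472) (.e (nat_lit 2684) (nat_lit 168) (.e (nat_lit 204880) (nat_lit 32) (.e (nat_lit 385068) (nat_lit 26) (.e (nat_lit 532504) (nat_lit 1) (.e (nat_lit 57854) (nat_lit 252) (.e (nat_lit 57378) (nat_lit 3) (.e (nat_lit 98338) (nat_lit 19) (.e (nat_lit 213013) (nat_lit 9) .nil)))))))) (.g (nat_lit 1) (.e (nat_lit 46237) (nat_lit 0) .nil) .nil))) 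
(.lf (nat_lit 458532) (.g (nat_lit 4247) (.e (nat_lit 2685) (nat_lit 168) (.e (nat_lit 204869) (nat_lit 29) (.e (nat_lit 360475) (nat_lit 8) (.e (nat_lit 557089) (nat_lit 12) (.e (nat_lit 163844) (nat_lit 0) (.e (nat_lit 6420) (nat_lit 341) (.e (nat_lit 163850) (nat_lit 0) (.e (nat_lit 7936) (nat_lit 388) .nil)))))))) (.g (nat_lit 1) (.e (nat_lit 47612) (nat_lit 0) .nil) .nil))))) 
(.nd (nat_lit 8) (.nd (nat_lit 9) 
(.lf (nat_lit 457892) (.g (nat_lit 2442) (.e (nat_lit 2684) (nat_lit 168) (.e (nat_lit 204863) (nat_lit 27) (.e (nat_lit 344133) (nat_lit 26) (.e (nat_lit 557103) (nat_lit 14) (.e (nat_lit 180250) (nat_lit 10) (.e (nat_lit 573474) (nat_lit 12) (.e (nat_lit 57506) (nat_lit 39) (.e (nat_lit 647175) (nat_lit 0) .nil)))))))) (.g (nat_lit 1) (.e (nat_lit 45748) (nat_lit 0) .nil) .nil))) 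
(.lf (nat_lit 458404) (.g (nat_lit 3002) (.e (nat_lit 2685) (nat_lit 168) (.e (nat_lit 204868) (nat_lit 29) (.e (nat_lit 360466) (nat_lit 3) (.e (nat_lit 516142) (nat_lit 8) (.e (nat_lit 417817) (nat_lit 10) (.e (nat_lit 5612) (nat_lit 312) .nil)))))) (.g (nat_lit 1) (.e (nat_lit 47217) (nat_lit 0) .nil) .nil)))) (.nd (nat_lit 9) 
(.lf (nat_lit 458148) (.g (nat_lit 2178) (.e (nat_lit 2685) (nat_lit 168) (.e (nat_lit 204862) (nat_lit 27) (.e (nat_lit 344117) (nat_lit 21) (.e (nat_lit 516130) (nat_lit 3) (.e (nat_lit 221214) (nat_lit 23) .nil))))) (.g (nat_lit 0) (.e (nat_lit 46783) (nat_lit 0) .nil) .nil))) 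
(.lf (nat_lit 458660) (.g (nat_lit 2978) (.e (nat_lit 2700) (nat_lit 169) (.e (nat_lit 213032) (nat_lit 11) (.e (nat_lit 24604) (nat_lit 2) (.e (nat_lit 90178) (nat_lit 15) (.e (nat_lit 188441) (nat_lit 20) .nil))))) (.g (nat_lit 0) (.e (nat_lit 47896) (nat_lit 0) .nil) .nil)))))) (.nd (nat_lit 7) (.nd (nat_lit 8) (.nd (nat_lit 9) 
(.lf (nat_lit 457828) (.g (nat_lit 2095) (.e (nat_lit 2684) (nat_lit 168) (.e (nat_lit 204863) (nat_lit 27) (.e (nat_lit 344117) (nat_lit 21) (.e (nat_lit 516130) (nat_lit 3) (.e (nat_lit 221212) (nat_lit 22) (.e (nat_lit 196677) (nat_lit 16) (.e (nat_lit 122952) (nat_lit 39) (.e (nat_lit 647175) (nat_lit 0) .nil)))))))) (.g (nat_lit 1) (.e (nat_lit 45684) (nat_lit 0) .nil) .nil))) 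
(.lf (nat_lit 458340) (.g (nat_lit 4192) (.e (nat_lit 2685) (nat_lit 168) (.e (nat_lit 204863) (nat_lit 27) (.e (nat_lit 344133) (nat_lit 26) (.e (nat_lit 557105) (nat_lit 14) (.e (nat_lit 180252) (nat_lit 10) (.e (nat_lit 573473) (nat_lit 12) (.e (nat_lit 57508) (nat_lit 39) (.e (nat_lit 647170) (nat_lit 0) .nil)))))))) (.g (nat_lit 1) (.e (nat_lit 46978) (nat_lit 0) .nil) .nil)))) 
(.nd (nat_lit 9) 
(.lf (nat_lit 458084) (.g (nat_lit 5413) (.e (nat_lit 2685) (nat_lit 168) (.e (nat_lit 204846) (nat_lit 24) (.e (nat_lit 319531) (nat_lit 16) (.e (nat_lit 286735) (nat_lit 3) (.e (nat_lit 98325) (nat_lit 17) (.e (nat_lit 7083) (nat_lit 379) (.e (nat_lit 123162) (nat_lit 256) .nil))))))) (.g (nat_lit 1) (.e (nat_lit 46429) (nat_lit 0) .nil) .nil))) 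
(.lf (nat_lit 458596) (.g (nat_lit 1895) (.e (nat_lit 2692) (nat_lit 169) (.e (nat_lit 213030) (nat_lit 11) (.e (nat_lit 24608) (nat_lit 3) (.e (nat_lit 98372) (nat_lit 29) (.e (nat_lit 458496) (nat_lit 8) .nil))))) (.g (nat_lit 0) (.e (nat_lit 47758) (nat_lit 0) .nil) .nil))))) (.nd (nat_lit 8) (.nd (nat_lit 9) 
(.lf (nat_lit 457956) (.g (nat_lit 3896) (.e (nat_lit 2684) (nat_lit 168) (.e (nat_lit 204869) (nat_lit 29) (.e (nat_lit 360474) (nat_lit 8) (.e (nat_lit 557094) (nat_lit 12) (.e (nat_lit 163847) (nat_lit 0) (.e (nat_lit 6420) (nat_lit 341) (.e (nat_lit 163843) (nat_lit 0) (.e (nat_lit 7936) (nat_lit 388) .nil)))))))) (.g (nat_lit 1) (.e (nat_lit 46112) (nat_lit 0) .nil) .nil))) 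
(.lf (nat_lit 458468) (.g (nat_lit 3969) (.e (nat_lit 2685) (nat_lit 168) (.e (nat_lit 204869) (nat_lit 29) (.e (nat_lit 360474) (nat_lit 8) (.e (nat_lit 557065) (nat_lit 9) .nil)))) (.g (nat_lit 0) (.e (nat_lit 47488) (nat_lit 0) .nil) .nil)))) (.nd (nat_lit 9) 
(.lf (nat_lit 458212) (.g (nat_lit 3075) (.e (nat_lit 2685) (nat_lit 168) (.e (nat_lit 204862) (nat_lit 27) (.e (nat_lit 344132) (nat_lit 26) (.e (nat_lit 557101) (nat_lit 13) (.e (nat_lit 172067) (nat_lit 3) (.e (nat_lit 204821) (nat_lit 17) (.e (nat_lit 2391) (nat_lit 156) (.e (nat_lit 819204) (nat_lit 0) .nil)))))))) (.g (nat_lit 1) (.e (nat_lit 46849) (nat_lit 0) .nil) .nil))) 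
(.lf (nat_lit 458724) (.g (nat_lit 2593) (.e (nat_lit 2725) (nat_lit 172) (.e (nat_lit 237586) (nat_lit 2) (.e (nat_lit 196666) (nat_lit 13) (.e (nat_lit 65617) (nat_lit 10) (.e (nat_lit 344133) (nat_lit 26) (.e (nat_lit 557091) (nat_lit 12) (.e (nat_lit 163844) (nat_lit 0) (.e (nat_lit 6255) (nat_lit 337) .nil)))))))) (.g (nat_lit 1) (.e (nat_lit 48332) (nat_lit 0) .nil) .nil)))))))) 
(.nd (nat_lit 5) (.nd (nat_lit 6) (.nd (nat_lit 7) (.nd (nat_lit 8) (.nd (nat_lit 9) 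
(.lf (nat_lit 457748) (.g (nat_lit 5131) (.e (nat_lit 2684) (nat_lit 168) (.e (nat_lit 204862) (nat_lit 27) (.e (nat_lit 344129) (nat_lit 26) (.e (nat_lit 557103) (nat_lit 14) (.e (nat_lit 180250) (nat_lit 10) (.e (nat_lit 573475) (nat_lit 12) (.e (nat_lit 57507) (nat_lit 39) (.e (nat_lit 655104) (nat_lit 0) .nil)))))))) (.g (nat_lit 1) (.e (nat_lit 45604) (nat_lit 0) .nil) .nil))) 
(.lf (nat_lit 458260) (.g (nat_lit 2626) (.e (nat_lit 2685) (nat_lit 168) (.e (nat_lit 204863) (nat_lit 27) (.e (nat_lit 344129) (nat_lit 26) (.e (nat_lit 557104) (nat_lit 14) (.e (nat_lit 180252) (nat_lit 10) (.e (nat_lit 573475) (nat_lit 12) (.e (nat_lit 57507) (nat_lit 39) (.e (nat_lit 647170) (nat_lit 0) .nil)))))))) (.g (nat_lit 1) (.e (nat_lit 46898) (nat_lit 0) .nil) .nil)))) 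
(.nd (nat_lit 9) 
(.lf (nat_lit 458004) (.g (nat_lit 5895) (.e (nat_lit 2684) (nat_lit 168) (.e (nat_lit 204869) (nat_lit 29) (.e (nat_lit 360475) (nat_lit 8) (.e (nat_lit 557091) (nat_lit 12) (.e (nat_lit 163843) (nat_lit 0) (.e (nat_lit 6420) (nat_lit 341) (.e (nat_lit 163850) (nat_lit 0) (.e (nat_lit 7936) (nat_lit 388) .nil)))))))) (.g (nat_lit 1) (.e (nat_lit 46195) (nat_lit 0) .nil) .nil))) 
(.lf (nat_lit 458516) (.g (nat_lit 3201) (.e (nat_lit 2685) (nat_lit 168) (.e (nat_lit 204869) (nat_lit 29) (.e (nat_lit 360475) (nat_lit 8) (.e (nat_lit 557087) (nat_lit 11) (.e (nat_lit 24583) (nat_lit 0) (.e (nat_lit 7936) (nat_lit 357) .nil)))))) (.g (nat_lit 1) (.e (nat_lit 47596) (nat_lit 0) .nil) .nil))))) (.nd (nat_lit 8) (.nd (nat_lit 9) 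
(.lf (nat_lit 457876) (.g (nat_lit 2046) (.e (nat_lit 2684) (nat_lit 168) (.e (nat_lit 204863) (nat_lit 27) (.e (nat_lit 344132) (nat_lit 26) (.e (nat_lit 557105) (nat_lit 14) (.e (nat_lit 180252) (nat_lit 10) (.e (nat_lit 573473) (nat_lit 12) (.e (nat_lit 57508) (nat_lit 39) (.e (nat_lit 647176) (nat_lit 0) .nil)))))))) (.g (nat_lit 1) (.e (nat_lit 45732) (nat_lit 0) .nil) .nil))) 
(.lf (nat_lit 458388) (.g (nat_lit 2617) (.e (nat_lit 2685) (nat_lit 168) (.e (nat_lit 204868) (nat_lit 29) (.e (nat_lit 360466) (nat_lit 3) (.e (nat_lit 516139) (nat_lit 7) (.e (nat_lit 409616) (nat_lit 10) (.e (nat_lit 5613) (nat_lit 312) .nil)))))) (.g (nat_lit 1) (.e (nat_lit 47199) (nat_lit 0) .nil) .nil)))) (.nd (nat_lit 9) 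
(.lf (nat_lit 458132) (.g (nat_lit 1286) (.e (nat_lit 2685) (nat_lit 168) (.e (nat_lit 204855) (nat_lit 26) (.e (nat_lit 336163) (nat_lit 10) (.e (nat_lit 344119) (nat_lit 21) (.e (nat_lit 516139) (nat_lit 7) .nil))))) (.g (nat_lit 0) (.e (nat_lit 46533) (nat_lit 0) .nil) .nil))) 
(.lf (nat_lit 458644) (.g (nat_lit 1954) (.e (nat_lit 2699) (nat_lit 169) (.e (nat_lit 213030) (nat_lit 11) (.e (nat_lit 24617) (nat_lit 7) (.e (nat_lit 319533) (nat_lit 16) (.e (nat_lit 286753) (nat_lit 10) .nil))))) (.g (nat_lit 0) (.e (nat_lit 47857) (nat_lit 0) .nil) .nil)))))) (.nd (nat_lit 7) (.nd (nat_lit 8) (.nd (nat_lit 9) 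
(.lf (nat_lit 457812) (.g (nat_lit 2401) (.e (nat_lit 2684) (nat_lit 168) (.e (nat_lit 204862) (nat_lit 27) (.e (nat_lit 344133) (nat_lit 26) (.e (nat_lit 557103) (nat_lit 14) (.e (nat_lit 180252) (nat_lit 10) .nil))))) (.g (nat_lit 0) (.e (nat_lit 45668) (nat_lit 0) .nil) .nil))) 
(.lf (nat_lit 458324) (.g (nat_lit 2673) (.e (nat_lit 2685) (nat_lit 168) (.e (nat_lit 204863) (nat_lit 27) (.e (nat_lit 344133) (nat_lit 26) (.e (nat_lit 557103) (nat_lit 14) (.e (nat_lit 180243) (nat_lit 5) (.e (nat_lit 532501) (nat_lit 1) (.e (nat_lit 57703) (nat_lit 164) (.e (nat_lit 2416) (nat_lit 157) .nil)))))))) (.g (nat_lit 1) (.e (nat_lit 46962) (nat_lit 0) .nil) .nil)))) 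
(.nd (nat_lit 9) 
(.lf (nat_lit 458068) (.g (nat_lit 3438) (.e (nat_lit 2685) (nat_lit 168) (.e (nat_lit 204846) (nat_lit 24) (.e (nat_lit 319528) (nat_lit 16) (.e (nat_lit 286735) (nat_lit 3) (.e (nat_lit 98350) (nat_lit 24) (.e (nat_lit 409603) (nat_lit 0) (.e (nat_lit 5626) (nat_lit 312) .nil))))))) (.g (nat_lit 1) (.e (nat_lit 46409) (nat_lit 0) .nil) .nil))) 
(.lf (nat_lit 458580) (.g (nat_lit 1873) (.e (nat_lit 2688) (nat_lit 169) (.e (nat_lit 213032) (nat_lit 11) (.e (nat_lit 24608) (nat_lit 3) (.e (nat_lit 98369) (nat_lit 28) .nil)))) (.g (nat_lit 0) (.e (nat_lit 47732) (nat_lit 0) .nil) .nil))))) (.nd (nat_lit 8) (.nd (nat_lit 9) 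
(.lf (nat_lit 457940) (.g (nat_lit 3592) (.e (nat_lit 2684) (nat_lit 168) (.e (nat_lit 204869) (nat_lit 29) (.e (nat_lit 360474) (nat_lit 8) (.e (nat_lit 557091) (nat_lit 12) (.e (nat_lit 163844) (nat_lit 0) .nil))))) (.g (nat_lit 0) (.e (nat_lit 46089) (nat_lit 0) .nil) .nil))) 
(.lf (nat_lit 458452) (.g (nat_lit 3210) (.e (nat_lit 2685) (nat_lit 168) (.e (nat_lit 204868) (nat_lit 29) (.e (nat_lit 360475) (nat_lit 8) (.e (nat_lit 557087) (nat_lit 11) (.e (nat_lit 24588) (nat_lit 0) .nil))))) (.g (nat_lit 0) (.e (nat_lit 47420) (nat_lit 0) .nil) .nil)))) (.nd (nat_lit 9) 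
(.lf (nat_lit 458196) (.g (nat_lit 2481) (.e (nat_lit 2685) (nat_lit 168) (.e (nat_lit 204862) (nat_lit 27) (.e (nat_lit 344130) (nat_lit 26) (.e (nat_lit 557103) (nat_lit 14) (.e (nat_lit 180250) (nat_lit 10) (.e (nat_lit 573473) (nat_lit 12) (.e (nat_lit 57507) (nat_lit 39) (.e (nat_lit 647170) (nat_lit 0) .nil)))))))) (.g (nat_lit 1) (.e (nat_lit 46833) (nat_lit 0) .nil) .nil))) 
(.lf (nat_lit 458708) (.g (nat_lit 1770) (.e (nat_lit 2710) (nat_lit 170) (.e (nat_lit 221207) (nat_lit 21) (.e (nat_lit 164345) (nat_lit 240) (.e (nat_lit 2638) (nat_lit 165) (.e (nat_lit 188160) (nat_lit 35) .nil))))) (.g (nat_lit 0) (.e (nat_lit 48127) (nat_lit 0) .nil) .nil))))))) (.nd (nat_lit 6) (.nd (nat_lit 7) (.nd (nat_lit 8) (.nd (nat_lit 9) 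
(.lf (nat_lit 457780) (.g (nat_lit 1932) (.e (nat_lit 2684) (nat_lit 168) (.e (nat_lit 204862) (nat_lit 27) (.e (nat_lit 344132) (nat_lit 26) (.e (nat_lit 557105) (nat_lit 14) (.e (nat_lit 180251) (nat_lit 10) .nil))))) (.g (nat_lit 0) (.e (nat_lit 45636) (nat_lit 0) .nil) .nil))) 
(.lf (nat_lit 458292) (.g (nat_lit 3422) (.e (nat_lit 2685) (nat_lit 168) (.e (nat_lit 204863) (nat_lit 27) (.e (nat_lit 344132) (nat_lit 26) (.e (nat_lit 557101) (nat_lit 13) (.e (nat_lit 172066) (nat_lit 3) (.e (nat_lit 204821) (nat_lit 17) (.e (nat_lit 2391) (nat_lit 156) (.e (nat_lit 819204) (nat_lit 0) .nil)))))))) (.g (nat_lit 1) (.e (nat_lit 46930) (nat_lit 0) .nil) .nil)))) 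
(.nd (nat_lit 9) 
(.lf (nat_lit 458036) (.g (nat_lit 4329) (.e (nat_lit 2685) (nat_lit 168) (.e (nat_lit 204837) (nat_lit 20) (.e (nat_lit 114714) (nat_lit 22) (.e (nat_lit 90172) (nat_lit 14) (.e (nat_lit 180244) (nat_lit 5) (.e (nat_lit 532499) (nat_lit 1) (.e (nat_lit 57654) (nat_lit 152) (.e (nat_lit 2399) (nat_lit 157) .nil)))))))) (.g (nat_lit 1) (.e (nat_lit 46275) (nat_lit 0) .nil) .nil))) 
(.lf (nat_lit 458548) (.g (nat_lit 4093) (.e (nat_lit 2685) (nat_lit 168) (.e (nat_lit 204869) (nat_lit 29) (.e (nat_lit 360475) (nat_lit 8) (.e (nat_lit 557091) (nat_lit 12) (.e (nat_lit 163847) (nat_lit 0) (.e (nat_lit 6420) (nat_lit 341) (.e (nat_lit 163850) (nat_lit 0) (.e (nat_lit 7936) (nat_lit 388) .nil)))))))) (.g (nat_lit 1) (.e (nat_lit 47630) (nat_lit 0) .nil) .nil))))) 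
(.nd (nat_lit 8) (.nd (nat_lit 9) 
(.lf (nat_lit 457908) (.g (nat_lit 370) (.e (nat_lit 2684) (nat_lit 168) (.e (nat_lit 204868) (nat_lit 29) (.e (nat_lit 360473) (nat_lit 8) .nil))) (.g (nat_lit 0) (.e (nat_lit 45937) (nat_lit 0) .nil) .nil))) 
(.lf (nat_lit 458420) (.g (nat_lit 2169) (.e (nat_lit 2685) (nat_lit 168) (.e (nat_lit 204868) (nat_lit 29) (.e (nat_lit 360473) (nat_lit 8) (.e (nat_lit 557065) (nat_lit 9) (.e (nat_lit 214) (nat_lit 19) .nil))))) (.g (nat_lit 0) (.e (nat_lit 47301) (nat_lit 0) .nil) .nil)))) (.nd (nat_lit 9) 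
(.lf (nat_lit 458164) (.g (nat_lit 2612) (.e (nat_lit 2685) (nat_lit 168) (.e (nat_lit 204862) (nat_lit 27) (.e (nat_lit 344129) (nat_lit 26) (.e (nat_lit 557097) (nat_lit 13) (.e (nat_lit 172067) (nat_lit 3) .nil))))) (.g (nat_lit 0) (.e (nat_lit 46800) (nat_lit 0) .nil) .nil))) 
(.lf (nat_lit 458676) (.g (nat_lit 3775) (.e (nat_lit 2706) (nat_lit 170) (.e (nat_lit 221214) (nat_lit 23) (.e (nat_lit 204862) (nat_lit 27) (.e (nat_lit 344117) (nat_lit 21) (.e (nat_lit 516116) (nat_lit 1) (.e (nat_lit 164181) (nat_lit 154) (.e (nat_lit 57375) (nat_lit 2) (.e (nat_lit 90128) (nat_lit 9) .nil)))))))) (.g (nat_lit 1) (.e (nat_lit 48015) (nat_lit 0) .nil) .nil)))))) 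
(.nd (nat_lit 7) (.nd (nat_lit 8) (.nd (nat_lit 9) 
(.lf (nat_lit 457844) (.g (nat_lit 2301) (.e (nat_lit 2684) (nat_lit 168) (.e (nat_lit 204863) (nat_lit 27) (.e (nat_lit 344129) (nat_lit 26) (.e (nat_lit 557104) (nat_lit 14) (.e (nat_lit 180251) (nat_lit 10) .nil))))) (.g (nat_lit 0) (.e (nat_lit 45700) (nat_lit 0) .nil) .nil))) 
(.lf (nat_lit 458356) (.g (nat_lit 1728) (.e (nat_lit 2685) (nat_lit 168) (.e (nat_lit 204864) (nat_lit 27) (.e (nat_lit 344132) (nat_lit 26) (.e (nat_lit 557100) (nat_lit 13) (.e (nat_lit 172064) (nat_lit 2) .nil))))) (.g (nat_lit 0) (.e (nat_lit 46994) (nat_lit 0) .nil) .nil)))) (.nd (nat_lit 9) 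
(.lf (nat_lit 458100) (.g (nat_lit 1322) (.e (nat_lit 2685) (nat_lit 168) (.e (nat_lit 204846) (nat_lit 24) (.e (nat_lit 319533) (nat_lit 16) (.e (nat_lit 286733) (nat_lit 2) .nil)))) (.g (nat_lit 0) (.e (nat_lit 46450) (nat_lit 0) .nil) .nil))) 
(.lf (nat_lit 458612) (.g (nat_lit 3093) (.e (nat_lit 2694) (nat_lit 169) (.e (nat_lit 213032) (nat_lit 11) (.e (nat_lit 24608) (nat_lit 3) (.e (nat_lit 98372) (nat_lit 29) (.e (nat_lit 458496) (nat_lit 8) .nil))))) (.g (nat_lit 0) (.e (nat_lit 47780) (nat_lit 0) .nil) .nil))))) (.nd (nat_lit 8) (.nd (nat_lit 9) 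
(.lf (nat_lit 457972) (.g (nat_lit 3056) (.e (nat_lit 2684) (nat_lit 168) (.e (nat_lit 204869) (nat_lit 29) (.e (nat_lit 360475) (nat_lit 8) (.e (nat_lit 557087) (nat_lit 11) (.e (nat_lit 24580) (nat_lit 0) (.e (nat_lit 7936) (nat_lit 357) .nil)))))) (.g (nat_lit 1) (.e (nat_lit 46154) (nat_lit 0) .nil) .nil))) 
(.lf (nat_lit 458484) (.g (nat_lit 2644) (.e (nat_lit 2685) (nat_lit 168) (.e (nat_lit 204869) (nat_lit 29) (.e (nat_lit 360475) (nat_lit 8) (.e (nat_lit 557064) (nat_lit 9) .nil)))) (.g (nat_lit 0) (.e (nat_lit 47531) (nat_lit 0) .nil) .nil)))) (.nd (nat_lit 9) 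
(.lf (nat_lit 458228) (.g (nat_lit 2025) (.e (nat_lit 2685) (nat_lit 168) (.e (nat_lit 204862) (nat_lit 27) (.e (nat_lit 344133) (nat_lit 26) (.e (nat_lit 557103) (nat_lit 14) (.e (nat_lit 188160) (nat_lit 3) (.e (nat_lit 516098) (nat_lit 0) (.e (nat_lit 3479) (nat_lit 218) (.e (nat_lit 704514) (nat_lit 0) .nil)))))))) (.g (nat_lit 1) (.e (nat_lit 46865) (nat_lit 0) .nil) .nil))) 
(.lf (nat_lit 458740) (.g (nat_lit 4277) (.e (nat_lit 2725) (nat_lit 172) (.e (nat_lit 237587) (nat_lit 2) (.e (nat_lit 196666) (nat_lit 13) (.e (nat_lit 65617) (nat_lit 10) (.e (nat_lit 344130) (nat_lit 26) (.e (nat_lit 557090) (nat_lit 12) (.e (nat_lit 163844) (nat_lit 0) (.e (nat_lit 6255) (nat_lit 337) .nil)))))))) (.g (nat_lit 1) (.e (nat_lit 48352) (nat_lit 0) .nil) .nil))))))))) 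
(.nd (nat_lit 4) (.nd (nat_lit 5) (.nd (nat_lit 6) (.nd (nat_lit 7) (.nd (nat_lit 8) 
(.nd (nat_lit 9) 
(.lf (nat_lit 457740) (.g (nat_lit 2855) (.e (nat_lit 2684) (nat_lit 168) (.e (nat_lit 204862) (nat_lit 27) (.e (nat_lit 344129) (nat_lit 26) (.e (nat_lit 557103) (nat_lit 14) (.e (nat_lit 180250) (nat_lit 10) (.e (nat_lit 573473) (nat_lit 12) (.e (nat_lit 57506) (nat_lit 39) (.e (nat_lit 647175) (nat_lit 0) .nil)))))))) (.g (nat_lit 1) (.e (nat_lit 45596) (nat_lit 0) .nil) .nil))) 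
(.lf (nat_lit 458252) (.g (nat_lit 2554) (.e (nat_lit 2685) (nat_lit 168) (.e (nat_lit 204863) (nat_lit 27) (.e (nat_lit 344129) (nat_lit 26) (.e (nat_lit 557097) (nat_lit 13) (.e (nat_lit 172133) (nat_lit 15) .nil))))) (.g (nat_lit 0) (.e (nat_lit 46890) (nat_lit 0) .nil) .nil)))) (.nd (nat_lit 9) 
(.lf (nat_lit 457996) (.g (nat_lit 4293) (.e (nat_lit 2684) (nat_lit 168) (.e (nat_lit 204869) (nat_lit 29) (.e (nat_lit 360475) (nat_lit 8) (.e (nat_lit 557089) (nat_lit 12) (.e (nat_lit 163849) (nat_lit 0) (.e (nat_lit 6420) (nat_lit 341) (.e (nat_lit 163843) (nat_lit 0) (.e (nat_lit 7936) (nat_lit 388) .nil)))))))) (.g (nat_lit 1) (.e (nat_lit 46181) (nat_lit 0) .nil) .nil))) 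
(.lf (nat_lit 458508) (.g (nat_lit 3015) (.e (nat_lit 2685) (nat_lit 168) (.e (nat_lit 204869) (nat_lit 29) (.e (nat_lit 360475) (nat_lit 8) (.e (nat_lit 557087) (nat_lit 11) (.e (nat_lit 24576) (nat_lit 0) .nil))))) (.g (nat_lit 0) (.e (nat_lit 47588) (nat_lit 0) .nil) .nil))))) (.nd (nat_lit 8) (.nd (nat_lit 9) 
(.lf (nat_lit 457868) (.g (nat_lit 4078) (.e (nat_lit 2684) (nat_lit 168) (.e (nat_lit 204863) (nat_lit 27) (.e (nat_lit 344131) (nat_lit 26) (.e (nat_lit 557105) (nat_lit 14) (.e (nat_lit 180252) (nat_lit 10) (.e (nat_lit 573475) (nat_lit 12) (.e (nat_lit 57507) (nat_lit 39) (.e (nat_lit 655104) (nat_lit 0) .nil)))))))) (.g (nat_lit 1) (.e (nat_lit 45724) (nat_lit 0) .nil) .nil))) 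
(.lf (nat_lit 458380) (.g (nat_lit 2245) (.e (nat_lit 2685) (nat_lit 168) (.e (nat_lit 204868) (nat_lit 29) (.e (nat_lit 360466) (nat_lit 3) (.e (nat_lit 516138) (nat_lit 7) (.e (nat_lit 409612) (nat_lit 10) (.e (nat_lit 5627) (nat_lit 312) .nil)))))) (.g (nat_lit 1) (.e (nat_lit 47191) (nat_lit 0) .nil) .nil)))) (.nd (nat_lit 9) 
(.lf (nat_lit 458124) (.g (nat_lit 3357) (.e (nat_lit 2685) (nat_lit 168) (.e (nat_lit 204846) (nat_lit 24) (.e (nat_lit 319534) (nat_lit 16) (.e (nat_lit 286735) (nat_lit 3) (.e (nat_lit 98368) (nat_lit 27) (.e (nat_lit 442112) (nat_lit 8) .nil)))))) (.g (nat_lit 1) (.e (nat_lit 46477) (nat_lit 0) .nil) .nil))) 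
(.lf (nat_lit 458636) (.g (nat_lit 2994) (.e (nat_lit 2697) (nat_lit 169) (.e (nat_lit 213032) (nat_lit 11) (.e (nat_lit 24608) (nat_lit 3) (.e (nat_lit 98373) (nat_lit 29) (.e (nat_lit 458496) (nat_lit 8) .nil))))) (.g (nat_lit 0) (.e (nat_lit 47833) (nat_lit 0) .nil) .nil)))))) (.nd (nat_lit 7) (.nd (nat_lit 8) (.nd (nat_lit 9) 
(.lf (nat_lit 457804) (.g (nat_lit 3923) (.e (nat_lit 2684) (nat_lit 168) (.e (nat_lit 204862) (nat_lit 27) (.e (nat_lit 344133) (nat_lit 26) (.e (nat_lit 557103) (nat_lit 14) (.e (nat_lit 180250) (nat_lit 10) (.e (nat_lit 573473) (nat_lit 12) (.e (nat_lit 57511) (nat_lit 39) (.e (nat_lit 655104) (nat_lit 0) .nil)))))))) (.g (nat_lit 1) (.e (nat_lit 45660) (nat_lit 0) .nil) .nil))) 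
(.lf (nat_lit 458316) (.g (nat_lit 2519) (.e (nat_lit 2685) (nat_lit 168) (.e (nat_lit 204863) (nat_lit 27) (.e (nat_lit 344133) (nat_lit 26) (.e (nat_lit 557098) (nat_lit 13) (.e (nat_lit 172064) (nat_lit 2) .nil))))) (.g (nat_lit 0) (.e (nat_lit 46954) (nat_lit 0) .nil) .nil)))) (.nd (nat_lit 9) 
(.lf (nat_lit 458060) (.g (nat_lit 1733) (.e (nat_lit 2685) (nat_lit 168) (.e (nat_lit 204845) (nat_lit 24) (.e (nat_lit 319530) (nat_lit 16) (.e (nat_lit 286735) (nat_lit 3) .nil)))) (.g (nat_lit 0) (.e (nat_lit 46384) (nat_lit 0) .nil) .nil))) 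
(.lf (nat_lit 458572) (.g (nat_lit 2897) (.e (nat_lit 2687) (nat_lit 169) (.e (nat_lit 213032) (nat_lit 11) (.e (nat_lit 24604) (nat_lit 2) (.e (nat_lit 90176) (nat_lit 15) (.e (nat_lit 196352) (nat_lit 7) .nil))))) (.g (nat_lit 0) (.e (nat_lit 47721) (nat_lit 0) .nil) .nil))))) (.nd (nat_lit 8) (.nd (nat_lit 9) 
(.lf (nat_lit 457932) (.g (nat_lit 4026) (.e (nat_lit 2684) (nat_lit 168) (.e (nat_lit 204869) (nat_lit 29) (.e (nat_lit 360474) (nat_lit 8) (.e (nat_lit 557089) (nat_lit 12) (.e (nat_lit 163848) (nat_lit 0) (.e (nat_lit 6418) (nat_lit 341) (.e (nat_lit 163850) (nat_lit 0) (.e (nat_lit 7936) (nat_lit 388) .nil)))))))) (.g (nat_lit 1) (.e (nat_lit 46080) (nat_lit 0) .nil) .nil))) 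
(.lf (nat_lit 458444) (.g (nat_lit 3583) (.e (nat_lit 2685) (nat_lit 168) (.e (nat_lit 204868) (nat_lit 29) (.e (nat_lit 360475) (nat_lit 8) (.e (nat_lit 557086) (nat_lit 11) (.e (nat_lit 24580) (nat_lit 0) (.e (nat_lit 6619) (nat_lit 357) .nil)))))) (.g (nat_lit 1) (.e (nat_lit 47412) (nat_lit 0) .nil) .nil)))) (.nd (nat_lit 9) 
(.lf (nat_lit 458188) (.g (nat_lit 2052) (.e (nat_lit 2685) (nat_lit 168) (.e (nat_lit 204862) (nat_lit 27) (.e (nat_lit 344130) (nat_lit 26) (.e (nat_lit 557097) (nat_lit 13) (.e (nat_lit 172064) (nat_lit 2) .nil))))) (.g (nat_lit 0) (.e (nat_lit 46825) (nat_lit 0) .nil) .nil))) 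
(.lf (nat_lit 458700) (.g (nat_lit 2843) (.e (nat_lit 2706) (nat_lit 170) (.e (nat_lit 221215) (nat_lit 23) (.e (nat_lit 204863) (nat_lit 27) (.e (nat_lit 344117) (nat_lit 21) (.e (nat_lit 516118) (nat_lit 1) (.e (nat_lit 164183) (nat_lit 154) (.e (nat_lit 57375) (nat_lit 2) (.e (nat_lit 90128) (nat_lit 9) .nil)))))))) (.g (nat_lit 1) (.e (nat_lit 48059) (nat_lit 0) .nil) .nil))))))) 
(.nd (nat_lit 6) (.nd (nat_lit 7) (.nd (nat_lit 8) (.nd (nat_lit 9) 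
(.lf (nat_lit 457772) (.g (nat_lit 3663) (.e (nat_lit 2684) (nat_lit 168) (.e (nat_lit 204862) (nat_lit 27) (.e (nat_lit 344130) (nat_lit 26) (.e (nat_lit 557104) (nat_lit 14) (.e (nat_lit 180252) (nat_lit 10) (.e (nat_lit 573473) (nat_lit 12) (.e (nat_lit 57507) (nat_lit 39) (.e (nat_lit 655104) (nat_lit 0) .nil)))))))) (.g (nat_lit 1) (.e (nat_lit 45628) (nat_lit 0) .nil) .nil))) 
(.lf (nat_lit 458284) (.g (nat_lit 3592) (.e (nat_lit 2685) (nat_lit 168) (.e (nat_lit 204863) (nat_lit 27) (.e (nat_lit 344131) (nat_lit 26) (.e (nat_lit 557105) (nat_lit 14) (.e (nat_lit 180252) (nat_lit 10) (.e (nat_lit 573474) (nat_lit 12) (.e (nat_lit 57508) (nat_lit 39) (.e (nat_lit 647170) (nat_lit 0) .nil)))))))) (.g (nat_lit 1) (.e (nat_lit 46922) (nat_lit 0) .nil) .nil)))) 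
(.nd (nat_lit 9) 
(.lf (nat_lit 458028) (.g (nat_lit 2471) (.e (nat_lit 2685) (nat_lit 168) (.e (nat_lit 204829) (nat_lit 18) (.e (nat_lit 57927) (nat_lit 282) (.e (nat_lit 163871) (nat_lit 2) (.e (nat_lit 196670) (nat_lit 14) (.e (nat_lit 73746) (nat_lit 3) (.e (nat_lit 516124) (nat_lit 2) (.e (nat_lit 220928) (nat_lit 9) .nil)))))))) (.g (nat_lit 1) (.e (nat_lit 46265) (nat_lit 0) .nil) .nil))) 
(.lf (nat_lit 458540) (.g (nat_lit 4234) (.e (nat_lit 2685) (nat_lit 168) (.e (nat_lit 204869) (nat_lit 29) (.e (nat_lit 360475) (nat_lit 8) (.e (nat_lit 557091) (nat_lit 12) (.e (nat_lit 163843) (nat_lit 0) (.e (nat_lit 6418) (nat_lit 341) (.e (nat_lit 163850) (nat_lit 0) (.e (nat_lit 7936) (nat_lit 388) .nil)))))))) (.g (nat_lit 1) (.e (nat_lit 47622) (nat_lit 0) .nil) .nil))))) 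
(.nd (nat_lit 8) (.nd (nat_lit 9) 
(.lf (nat_lit 457900) (.g (nat_lit 2672) (.e (nat_lit 2684) (nat_lit 168) (.e (nat_lit 204863) (nat_lit 27) (.e (nat_lit 344133) (nat_lit 26) (.e (nat_lit 557105) (nat_lit 14) (.e (nat_lit 180252) (nat_lit 10) (.e (nat_lit 573474) (nat_lit 12) (.e (nat_lit 57347) (nat_lit 0) (.e (nat_lit 5437) (nat_lit 306) (.e (nat_lit 2461) (nat_lit 157) .nil))))))))) (.g (nat_lit 1) (.e (nat_lit 45756) (nat_lit 0) .nil) .nil))) 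
(.lf (nat_lit 458412) (.g (nat_lit 2626) (.e (nat_lit 2685) (nat_lit 168) (.e (nat_lit 204868) (nat_lit 29) (.e (nat_lit 360467) (nat_lit 3) (.e (nat_lit 516139) (nat_lit 7) (.e (nat_lit 409617) (nat_lit 10) (.e (nat_lit 5627) (nat_lit 312) .nil)))))) (.g (nat_lit 1) (.e (nat_lit 47291) (nat_lit 0) .nil) .nil)))) (.nd (nat_lit 9) 
(.lf (nat_lit 458156) (.g (nat_lit 2737) (.e (nat_lit 2685) (nat_lit 168) (.e (nat_lit 204862) (nat_lit 27) (.e (nat_lit 344129) (nat_lit 26) (.e (nat_lit 557097) (nat_lit 13) (.e (nat_lit 172062) (nat_lit 2) .nil))))) (.g (nat_lit 0) (.e (nat_lit 46792) (nat_lit 0) .nil) .nil))) 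
(.lf (nat_lit 458668) (.g (nat_lit 2581) (.e (nat_lit 2701) (nat_lit 169) (.e (nat_lit 213032) (nat_lit 11) (.e (nat_lit 24604) (nat_lit 2) (.e (nat_lit 90185) (nat_lit 17) .nil)))) (.g (nat_lit 0) (.e (nat_lit 47909) (nat_lit 0) .nil) .nil)))))) (.nd (nat_lit 7) (.nd (nat_lit 8) (.nd (nat_lit 9) 
(.lf (nat_lit 457836) (.g (nat_lit 3537) (.e (nat_lit 2684) (nat_lit 168) (.e (nat_lit 204863) (nat_lit 27) (.e (nat_lit 344129) (nat_lit 26) (.e (nat_lit 557103) (nat_lit 14) (.e (nat_lit 180250) (nat_lit 10) (.e (nat_lit 573473) (nat_lit 12) (.e (nat_lit 57508) (nat_lit 39) (.e (nat_lit 655104) (nat_lit 0) .nil)))))))) (.g (nat_lit 1) (.e (nat_lit 45692) (nat_lit 0) .nil) .nil))) 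
(.lf (nat_lit 458348) (.g (nat_lit 2976) (.e (nat_lit 2685) (nat_lit 168) (.e (nat_lit 204864) (nat_lit 27) (.e (nat_lit 344130) (nat_lit 26) (.e (nat_lit 557097) (nat_lit 13) (.e (nat_lit 172065) (nat_lit 3) (.e (nat_lit 204821) (nat_lit 17) (.e (nat_lit 2391) (nat_lit 156) (.e (nat_lit 819204) (nat_lit 0) .nil)))))))) (.g (nat_lit 1) (.e (nat_lit 46986) (nat_lit 0) .nil) .nil)))) 
(.nd (nat_lit 9) 
(.lf (nat_lit 458092) (.g (nat_lit 2554) (.e (nat_lit 2685) (nat_lit 168) (.e (nat_lit 204846) (nat_lit 24) (.e (nat_lit 319532) (nat_lit 16) (.e (nat_lit 286733) (nat_lit 2) (.e (nat_lit 90173) (nat_lit 14) .nil))))) (.g (nat_lit 0) (.e (nat_lit 46438) (nat_lit 0) .nil) .nil))) 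
(.lf (nat_lit 458604) (.g (nat_lit 2128) (.e (nat_lit 2692) (nat_lit 169) (.e (nat_lit 213030) (nat_lit 11) (.e (nat_lit 24617) (nat_lit 7) (.e (nat_lit 319534) (nat_lit 16) (.e (nat_lit 286759) (nat_lit 12) .nil))))) (.g (nat_lit 0) (.e (nat_lit 47767) (nat_lit 0) .nil) .nil))))) (.nd (nat_lit 8) (.nd (nat_lit 9) 
(.lf (nat_lit 457964) (.g (nat_lit 3151) (.e (nat_lit 2684) (nat_lit 168) (.e (nat_lit 204869) (nat_lit 29) (.e (nat_lit 360475) (nat_lit 8) (.e (nat_lit 557086) (nat_lit 11) (.e (nat_lit 24580) (nat_lit 0) (.e (nat_lit 6696) (nat_lit 357) .nil)))))) (.g (nat_lit 1) (.e (nat_lit 46146) (nat_lit 0) .nil) .nil))) 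
(.lf (nat_lit 458476) (.g (nat_lit 3035) (.e (nat_lit 2685) (nat_lit 168) (.e (nat_lit 204869) (nat_lit 29) (.e (nat_lit 360474) (nat_lit 8) (.e (nat_lit 557085) (nat_lit 11) (.e (nat_lit 24579) (nat_lit 0) .nil))))) (.g (nat_lit 0) (.e (nat_lit 47521) (nat_lit 0) .nil) .nil)))) (.nd (nat_lit 9) 
(.lf (nat_lit 458220) (.g (nat_lit 2586) (.e (nat_lit 2685) (nat_lit 168) (.e (nat_lit 204862) (nat_lit 27) (.e (nat_lit 344133) (nat_lit 26) (.e (nat_lit 557098) (nat_lit 13) (.e (nat_lit 172067) (nat_lit 3) (.e (nat_lit 204821) (nat_lit 17) (.e (nat_lit 2390) (nat_lit 156) (.e (nat_lit 819204) (nat_lit 0) .nil)))))))) (.g (nat_lit 1) (.e (nat_lit 46857) (nat_lit 0) .nil) .nil))) 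
(.lf (nat_lit 458732) (.g (nat_lit 2336) (.e (nat_lit 2725) (nat_lit 172) (.e (nat_lit 237587) (nat_lit 2) (.e (nat_lit 196666) (nat_lit 13) (.e (nat_lit 65617) (nat_lit 10) (.e (nat_lit 344130) (nat_lit 26) (.e (nat_lit 557089) (nat_lit 12) (.e (nat_lit 163848) (nat_lit 0) (.e (nat_lit 6252) (nat_lit 337) .nil)))))))) (.g (nat_lit 1) (.e (nat_lit 48344) (nat_lit 0) .nil) .nil)))))))) 
(.nd (nat_lit 5) (.nd (nat_lit 6) (.nd (nat_lit 7) (.nd (nat_lit 8) (.nd (nat_lit 9) 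
(.lf (nat_lit 457756) (.g (nat_lit 2507) (.e (nat_lit 2684) (nat_lit 168) (.e (nat_lit 204862) (nat_lit 27) (.e (nat_lit 344129) (nat_lit 26) (.e (nat_lit 557104) (nat_lit 14) (.e (nat_lit 180251) (nat_lit 10) (.e (nat_lit 573478) (nat_lit 12) (.e (nat_lit 57509) (nat_lit 39) (.e (nat_lit 655104) (nat_lit 0) .nil)))))))) (.g (nat_lit 1) (.e (nat_lit 45612) (nat_lit 0) .nil) .nil))) 
(.lf (nat_lit 458268) (.g (nat_lit 2510) (.e (nat_lit 2685) (nat_lit 168) (.e (nat_lit 204863) (nat_lit 27) (.e (nat_lit 344130) (nat_lit 26) (.e (nat_lit 557103) (nat_lit 14) (.e (nat_lit 180250) (nat_lit 10) (.e (nat_lit 573475) (nat_lit 12) (.e (nat_lit 57507) (nat_lit 39) (.e (nat_lit 647170) (nat_lit 0) .nil)))))))) (.g (nat_lit 1) (.e (nat_lit 46906) (nat_lit 0) .nil) .nil)))) 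
(.nd (nat_lit 9) 
(.lf (nat_lit 458012) (.g (nat_lit 4482) (.e (nat_lit 2684) (nat_lit 168) (.e (nat_lit 204869) (nat_lit 29) (.e (nat_lit 360475) (nat_lit 8) (.e (nat_lit 557091) (nat_lit 12) (.e (nat_lit 163849) (nat_lit 0) (.e (nat_lit 6420) (nat_lit 341) (.e (nat_lit 163850) (nat_lit 0) (.e (nat_lit 7936) (nat_lit 388) .nil)))))))) (.g (nat_lit 1) (.e (nat_lit 46204) (nat_lit 0) .nil) .nil))) 
(.lf (nat_lit 458524) (.g (nat_lit 3498) (.e (nat_lit 2685) (nat_lit 168) (.e (nat_lit 204869) (nat_lit 29) (.e (nat_lit 360475) (nat_lit 8) (.e (nat_lit 557087) (nat_lit 11) (.e (nat_lit 24593) (nat_lit 0) (.e (nat_lit 7936) (nat_lit 357) .nil)))))) (.g (nat_lit 1) (.e (nat_lit 47604) (nat_lit 0) .nil) .nil))))) (.nd (nat_lit 8) (.nd (nat_lit 9) 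
(.lf (nat_lit 457884) (.g (nat_lit 2327) (.e (nat_lit 2684) (nat_lit 168) (.e (nat_lit 204863) (nat_lit 27) (.e (nat_lit 344132) (nat_lit 26) (.e (nat_lit 557105) (nat_lit 14) (.e (nat_lit 180252) (nat_lit 10) (.e (nat_lit 573475) (nat_lit 12) (.e (nat_lit 57507) (nat_lit 39) (.e (nat_lit 647175) (nat_lit 0) .nil)))))))) (.g (nat_lit 1) (.e (nat_lit 45740) (nat_lit 0) .nil) .nil))) 
(.lf (nat_lit 458396) (.g (nat_lit 1816) (.e (nat_lit 2685) (nat_lit 168) (.e (nat_lit 204868) (nat_lit 29) (.e (nat_lit 360466) (nat_lit 3) (.e (nat_lit 516141) (nat_lit 8) (.e (nat_lit 417817) (nat_lit 10) (.e (nat_lit 5612) (nat_lit 312) .nil)))))) (.g (nat_lit 1) (.e (nat_lit 47208) (nat_lit 0) .nil) .nil)))) (.nd (nat_lit 9) 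
(.lf (nat_lit 458140) (.g (nat_lit 2668) (.e (nat_lit 2685) (nat_lit 168) (.e (nat_lit 204862) (nat_lit 27) (.e (nat_lit 344117) (nat_lit 21) (.e (nat_lit 516106) (nat_lit 0) (.e (nat_lit 3721) (nat_lit 227) .nil))))) (.g (nat_lit 0) (.e (nat_lit 46775) (nat_lit 0) .nil) .nil))) 
(.lf (nat_lit 458652) (.g (nat_lit 1998) (.e (nat_lit 2700) (nat_lit 169) (.e (nat_lit 213030) (nat_lit 11) (.e (nat_lit 24617) (nat_lit 7) (.e (nat_lit 319532) (nat_lit 16) (.e (nat_lit 286759) (nat_lit 12) .nil))))) (.g (nat_lit 0) (.e (nat_lit 47886) (nat_lit 0) .nil) .nil)))))) (.nd (nat_lit 7) (.nd (nat_lit 8) (.nd (nat_lit 9) 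
(.lf (nat_lit 457820) (.g (nat_lit 4584) (.e (nat_lit 2684) (nat_lit 168) (.e (nat_lit 204862) (nat_lit 27) (.e (nat_lit 344133) (nat_lit 26) (.e (nat_lit 557105) (nat_lit 14) (.e (nat_lit 180252) (nat_lit 10) (.e (nat_lit 573474) (nat_lit 12) (.e (nat_lit 57508) (nat_lit 39) (.e (nat_lit 655104) (nat_lit 0) .nil)))))))) (.g (nat_lit 1) (.e (nat_lit 45676) (nat_lit 0) .nil) .nil))) 
(.lf (nat_lit 458332) (.g (nat_lit 2798) (.e (nat_lit 2685) (nat_lit 168) (.e (nat_lit 204863) (nat_lit 27) (.e (nat_lit 344133) (nat_lit 26) (.e (nat_lit 557103) (nat_lit 14) (.e (nat_lit 180250) (nat_lit 10) (.e (nat_lit 573473) (nat_lit 12) (.e (nat_lit 57511) (nat_lit 39) (.e (nat_lit 647168) (nat_lit 0) .nil)))))))) (.g (nat_lit 1) (.e (nat_lit 46970) (nat_lit 0) .nil) .nil)))) 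
(.nd (nat_lit 9) 
(.lf (nat_lit 458076) (.g (nat_lit 5036) (.e (nat_lit 2685) (nat_lit 168) (.e (nat_lit 204846) (nat_lit 24) (.e (nat_lit 319530) (nat_lit 16) (.e (nat_lit 286735) (nat_lit 3) (.e (nat_lit 98325) (nat_lit 17) (.e (nat_lit 7083) (nat_lit 379) (.e (nat_lit 123162) (nat_lit 256) .nil))))))) (.g (nat_lit 1) (.e (nat_lit 46420) (nat_lit 0) .nil) .nil))) 
(.lf (nat_lit 458588) (.g (nat_lit 3116) (.e (nat_lit 2690) (nat_lit 169) (.e (nat_lit 213032) (nat_lit 11) (.e (nat_lit 24608) (nat_lit 3) (.e (nat_lit 98381) (nat_lit 31) (.e (nat_lit 466967) (nat_lit 20) .nil))))) (.g (nat_lit 0) (.e (nat_lit 47744) (nat_lit 0) .nil) .nil))))) (.nd (nat_lit 8) (.nd (nat_lit 9) 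
(.lf (nat_lit 457948) (.g (nat_lit 4612) (.e (nat_lit 2684) (nat_lit 168) (.e (nat_lit 204869) (nat_lit 29) (.e (nat_lit 360474) (nat_lit 8) (.e (nat_lit 557093) (nat_lit 12) (.e (nat_lit 163848) (nat_lit 0) (.e (nat_lit 6418) (nat_lit 341) (.e (nat_lit 163850) (nat_lit 0) (.e (nat_lit 7936) (nat_lit 388) .nil)))))))) (.g (nat_lit 1) (.e (nat_lit 46101) (nat_lit 0) .nil) .nil))) 
(.lf (nat_lit 458460) (.g (nat_lit 2110) (.e (nat_lit 2685) (nat_lit 168) (.e (nat_lit 204869) (nat_lit 29) (.e (nat_lit 360472) (nat_lit 8) (.e (nat_lit 557067) (nat_lit 9) .nil)))) (.g (nat_lit 0) (.e (nat_lit 47478) (nat_lit 0) .nil) .nil)))) (.nd (nat_lit 9) 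
(.lf (nat_lit 458204) (.g (nat_lit 2048) (.e (nat_lit 2685) (nat_lit 168) (.e (nat_lit 204862) (nat_lit 27) (.e (nat_lit 344130) (nat_lit 26) (.e (nat_lit 557104) (nat_lit 14) (.e (nat_lit 180252) (nat_lit 10) (.e (nat_lit 573473) (nat_lit 12) (.e (nat_lit 57507) (nat_lit 39) (.e (nat_lit 647170) (nat_lit 0) .nil)))))))) (.g (nat_lit 1) (.e (nat_lit 46841) (nat_lit 0) .nil) .nil))) 
(.lf (nat_lit 458716) (.g (nat_lit 2844) (.e (nat_lit 2725) (nat_lit 172) (.e (nat_lit 237586) (nat_lit 2) (.e (nat_lit 196666) (nat_lit 13) (.e (nat_lit 65617) (nat_lit 10) (.e (nat_lit 344130) (nat_lit 26) (.e (nat_lit 557090) (nat_lit 12) (.e (nat_lit 163843) (nat_lit 0) (.e (nat_lit 6254) (nat_lit 337) .nil)))))))) (.g (nat_lit 1) (.e (nat_lit 48324) (nat_lit 0) .nil) .nil))))))) 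
(.nd (nat_lit 6) (.nd (nat_lit 7) (.nd (nat_lit 8) (.nd (nat_lit 9) 
(.lf (nat_lit 457788) (.g (nat_lit 3857) (.e (nat_lit 2684) (nat_lit 168) (.e (nat_lit 204862) (nat_lit 27) (.e (nat_lit 344132) (nat_lit 26) (.e (nat_lit 557105) (nat_lit 14) (.e (nat_lit 180252) (nat_lit 10) (.e (nat_lit 573474) (nat_lit 12) (.e (nat_lit 57508) (nat_lit 39) (.e (nat_lit 647175) (nat_lit 0) .nil)))))))) (.g (nat_lit 1) (.e (nat_lit 45644) (nat_lit 0) .nil) .nil))) 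
(.lf (nat_lit 458300) (.g (nat_lit 3624) (.e (nat_lit 2685) (nat_lit 168) (.e (nat_lit 204863) (nat_lit 27) (.e (nat_lit 344132) (nat_lit 26) (.e (nat_lit 557105) (nat_lit 14) (.e (nat_lit 180252) (nat_lit 10) (.e (nat_lit 573473) (nat_lit 12) (.e (nat_lit 57507) (nat_lit 39) (.e (nat_lit 655104) (nat_lit 0) .nil)))))))) (.g (nat_lit 1) (.e (nat_lit 46938) (nat_lit 0) .nil) .nil)))) 
(.nd (nat_lit 9) 
(.lf (nat_lit 458044) (.g (nat_lit 3666) (.e (nat_lit 2685) (nat_lit 168) (.e (nat_lit 204837) (nat_lit 20) (.e (nat_lit 114714) (nat_lit 22) (.e (nat_lit 90174) (nat_lit 14) (.e (nat_lit 180243) (nat_lit 5) (.e (nat_lit 532501) (nat_lit 1) (.e (nat_lit 57651) (nat_lit 152) (.e (nat_lit 2399) (nat_lit 157) .nil)))))))) (.g (nat_lit 1) (.e (nat_lit 46285) (nat_lit 0) .nil) .nil))) 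
(.lf (nat_lit 458556) (.g (nat_lit 1791) (.e (nat_lit 2685) (nat_lit 168) (.e (nat_lit 204877) (nat_lit 31) (.e (nat_lit 376865) (nat_lit 22) (.e (nat_lit 90181) (nat_lit 16) (.e (nat_lit 229577) (nat_lit 179) (.e (nat_lit 171776) (nat_lit 246) .nil)))))) (.g (nat_lit 1) (.e (nat_lit 47647) (nat_lit 0) .nil) .nil))))) (.nd (nat_lit 8) (.nd (nat_lit 9) 
(.lf (nat_lit 457916) (.g (nat_lit 2268) (.e (nat_lit 2684) (nat_lit 168) (.e (nat_lit 204868) (nat_lit 29) (.e (nat_lit 360473) (nat_lit 8) (.e (nat_lit 557087) (nat_lit 11) (.e (nat_lit 24591) (nat_lit 0) .nil))))) (.g (nat_lit 0) (.e (nat_lit 45961) (nat_lit 0) .nil) .nil))) 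
(.lf (nat_lit 458428) (.g (nat_lit 2763) (.e (nat_lit 2685) (nat_lit 168) (.e (nat_lit 204868) (nat_lit 29) (.e (nat_lit 360473) (nat_lit 8) (.e (nat_lit 557086) (nat_lit 11) (.e (nat_lit 24580) (nat_lit 0) (.e (nat_lit 6617) (nat_lit 357) .nil)))))) (.g (nat_lit 1) (.e (nat_lit 47364) (nat_lit 0) .nil) .nil)))) (.nd (nat_lit 9) 
(.lf (nat_lit 458172) (.g (nat_lit 2912) (.e (nat_lit 2685) (nat_lit 168) (.e (nat_lit 204862) (nat_lit 27) (.e (nat_lit 344129) (nat_lit 26) (.e (nat_lit 557103) (nat_lit 14) (.e (nat_lit 180250) (nat_lit 10) (.e (nat_lit 573473) (nat_lit 12) (.e (nat_lit 57507) (nat_lit 39) (.e (nat_lit 655104) (nat_lit 0) .nil)))))))) (.g (nat_lit 1) (.e (nat_lit 46809) (nat_lit 0) .nil) .nil))) 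
(.lf (nat_lit 458684) (.g (nat_lit 2134) (.e (nat_lit 2706) (nat_lit 170) (.e (nat_lit 221214) (nat_lit 23) (.e (nat_lit 204863) (nat_lit 27) (.e (nat_lit 344118) (nat_lit 21) (.e (nat_lit 516118) (nat_lit 1) (.e (nat_lit 164183) (nat_lit 154) (.e (nat_lit 57373) (nat_lit 2) (.e (nat_lit 90128) (nat_lit 9) .nil)))))))) (.g (nat_lit 1) (.e (nat_lit 48024) (nat_lit 0) .nil) .nil)))))) 
(.nd (nat_lit 7) (.nd (nat_lit 8) (.nd (nat_lit 9) 
(.lf (nat_lit 457852) (.g (nat_lit 2990) (.e (nat_lit 2684) (nat_lit 168) (.e (nat_lit 204863) (nat_lit 27) (.e (nat_lit 344130) (nat_lit 26) (.e (nat_lit 557104) (nat_lit 14) (.e (nat_lit 180252) (nat_lit 10) (.e (nat_lit 573473) (nat_lit 12) (.e (nat_lit 57507) (nat_lit 39) (.e (nat_lit 655104) (nat_lit 0) .nil)))))))) (.g (nat_lit 1) (.e (nat_lit 45708) (nat_lit 0) .nil) .nil))) 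
(.lf (nat_lit 458364) (.g (nat_lit 3757) (.e (nat_lit 2685) (nat_lit 168) (.e (nat_lit 204864) (nat_lit 27) (.e (nat_lit 344133) (nat_lit 26) (.e (nat_lit 557098) (nat_lit 13) (.e (nat_lit 172067) (nat_lit 3) (.e (nat_lit 204821) (nat_lit 17) (.e (nat_lit 2391) (nat_lit 156) (.e (nat_lit 819204) (nat_lit 0) .nil)))))))) (.g (nat_lit 1) (.e (nat_lit 47002) (nat_lit 0) .nil) .nil)))) 
(.nd (nat_lit 9) 
(.lf (nat_lit 458108) (.g (nat_lit 5036) (.e (nat_lit 2685) (nat_lit 168) (.e (nat_lit 204846) (nat_lit 24) (.e (nat_lit 319533) (nat_lit 16) (.e (nat_lit 286735) (nat_lit 3) (.e (nat_lit 98325) (nat_lit 17) (.e (nat_lit 7083) (nat_lit 379) (.e (nat_lit 123162) (nat_lit 256) .nil))))))) (.g (nat_lit 1) (.e (nat_lit 46458) (nat_lit 0) .nil) .nil))) 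
(.lf (nat_lit 458620) (.g (nat_lit 3033) (.e (nat_lit 2695) (nat_lit 169) (.e (nat_lit 213032) (nat_lit 11) (.e (nat_lit 24604) (nat_lit 2) (.e (nat_lit 90178) (nat_lit 15) (.e (nat_lit 188441) (nat_lit 20) .nil))))) (.g (nat_lit 0) (.e (nat_lit 47791) (nat_lit 0) .nil) .nil))))) (.nd (nat_lit 8) (.nd (nat_lit 9) 
(.lf (nat_lit 457980) (.g (nat_lit 3059) (.e (nat_lit 2684) (nat_lit 168) (.e (nat_lit 204869) (nat_lit 29) (.e (nat_lit 360475) (nat_lit 8) (.e (nat_lit 557087) (nat_lit 11) (.e (nat_lit 24590) (nat_lit 0) .nil))))) (.g (nat_lit 0) (.e (nat_lit 46162) (nat_lit 0) .nil) .nil))) 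
(.lf (nat_lit 458492) (.g (nat_lit 2773) (.e (nat_lit 2685) (nat_lit 168) (.e (nat_lit 204869) (nat_lit 29) (.e (nat_lit 360475) (nat_lit 8) (.e (nat_lit 557067) (nat_lit 9) .nil)))) (.g (nat_lit 0) (.e (nat_lit 47544) (nat_lit 0) .nil) .nil)))) (.nd (nat_lit 9) 
(.lf (nat_lit 458236) (.g (nat_lit 735) (.e (nat_lit 2685) (nat_lit 168) (.e (nat_lit 204863) (nat_lit 27) (.e (nat_lit 344117) (nat_lit 21) .nil))) (.g (nat_lit 0) (.e (nat_lit 46873) (nat_lit 0) .nil) .nil))) 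
(.lf (nat_lit 458748) (.g (nat_lit 3099) (.e (nat_lit 2725) (nat_lit 172) (.e (nat_lit 237587) (nat_lit 2) (.e (nat_lit 196666) (nat_lit 13) (.e (nat_lit 65617) (nat_lit 10) (.e (nat_lit 344132) (nat_lit 26) (.e (nat_lit 557094) (nat_lit 12) (.e (nat_lit 163847) (nat_lit 0) (.e (nat_lit 6254) (nat_lit 337) .nil)))))))) (.g (nat_lit 1) (.e (nat_lit 48360) (nat_lit 0) .nil) .nil))))))))))) 
(.nd (nat_lit 2) (.nd (nat_lit 3) (.nd (nat_lit 4) (.nd (nat_lit 5) (.nd (nat_lit 6) 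
(.nd (nat_lit 7) (.nd (nat_lit 8) (.nd (nat_lit 9) 
(.lf (nat_lit 457730) (.g (nat_lit 3752) (.e (nat_lit 2684) (nat_lit 168) (.e (nat_lit 204862) (nat_lit 27) (.e (nat_lit 344117) (nat_lit 21) (.e (nat_lit 516129) (nat_lit 3) (.e (nat_lit 221210) (nat_lit 22) (.e (nat_lit 196658) (nat_lit 12) (.e (nat_lit 57508) (nat_lit 39) (.e (nat_lit 647175) (nat_lit 0) .nil)))))))) (.g (nat_lit 1) (.e (nat_lit 45586) (nat_lit 0) .nil) .nil))) 
(.lf (nat_lit 458242) (.g (nat_lit 2771) (.e (nat_lit 2685) (nat_lit 168) (.e (nat_lit 204863) (nat_lit 27) (.e (nat_lit 344117) (nat_lit 21) (.e (nat_lit 516129) (nat_lit 3) (.e (nat_lit 221210) (nat_lit 22) .nil))))) (.g (nat_lit 0) (.e (nat_lit 46879) (nat_lit 0) .nil) .nil)))) (.nd (nat_lit 9) 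
(.lf (nat_lit 457986) (.g (nat_lit 3659) (.e (nat_lit 2684) (nat_lit 168) (.e (nat_lit 204869) (nat_lit 29) (.e (nat_lit 360475) (nat_lit 8) (.e (nat_lit 557089) (nat_lit 12) (.e (nat_lit 163843) (nat_lit 0) .nil))))) (.g (nat_lit 0) (.e (nat_lit 46168) (nat_lit 0) .nil) .nil))) 
(.lf (nat_lit 458498) (.g (nat_lit 3040) (.e (nat_lit 2685) (nat_lit 168) (.e (nat_lit 204869) (nat_lit 29) (.e (nat_lit 360475) (nat_lit 8) (.e (nat_lit 557085) (nat_lit 11) (.e (nat_lit 24579) (nat_lit 0) .nil))))) (.g (nat_lit 0) (.e (nat_lit 47578) (nat_lit 0) .nil) .nil))))) (.nd (nat_lit 8) (.nd (nat_lit 9) 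
(.lf (nat_lit 457858) (.g (nat_lit 1644) (.e (nat_lit 2684) (nat_lit 168) (.e (nat_lit 204863) (nat_lit 27) (.e (nat_lit 344131) (nat_lit 26) (.e (nat_lit 557105) (nat_lit 14) (.e (nat_lit 180251) (nat_lit 10) .nil))))) (.g (nat_lit 0) (.e (nat_lit 45714) (nat_lit 0) .nil) .nil))) 
(.lf (nat_lit 458370) (.g (nat_lit 4265) (.e (nat_lit 2685) (nat_lit 168) (.e (nat_lit 204864) (nat_lit 27) (.e (nat_lit 344133) (nat_lit 26) (.e (nat_lit 557105) (nat_lit 14) (.e (nat_lit 180252) (nat_lit 10) (.e (nat_lit 573474) (nat_lit 12) (.e (nat_lit 57507) (nat_lit 39) (.e (nat_lit 647170) (nat_lit 0) .nil)))))))) (.g (nat_lit 1) (.e (nat_lit 47008) (nat_lit 0) .nil) .nil)))) 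
(.nd (nat_lit 9) 
(.lf (nat_lit 458114) (.g (nat_lit 2566) (.e (nat_lit 2685) (nat_lit 168) (.e (nat_lit 204846) (nat_lit 24) (.e (nat_lit 319534) (nat_lit 16) (.e (nat_lit 286734) (nat_lit 3) (.e (nat_lit 98323) (nat_lit 17) (.e (nat_lit 6989) (nat_lit 377) (.e (nat_lit 977) (nat_lit 81) (.e (nat_lit 5626) (nat_lit 312) .nil)))))))) (.g (nat_lit 1) (.e (nat_lit 46467) (nat_lit 0) .nil) .nil))) 
(.lf (nat_lit 458626) (.g (nat_lit 2612) (.e (nat_lit 2696) (nat_lit 169) (.e (nat_lit 213032) (nat_lit 11) (.e (nat_lit 24604) (nat_lit 2) (.e (nat_lit 90176) (nat_lit 15) (.e (nat_lit 188428) (nat_lit 20) .nil))))) (.g (nat_lit 0) (.e (nat_lit 47807) (nat_lit 0) .nil) .nil)))))) (.nd (nat_lit 7) (.nd (nat_lit 8) (.nd (nat_lit 9) 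
(.lf (nat_lit 457794) (.g (nat_lit 3604) (.e (nat_lit 2684) (nat_lit 168) (.e (nat_lit 204862) (nat_lit 27) (.e (nat_lit 344132) (nat_lit 26) (.e (nat_lit 557105) (nat_lit 14) (.e (nat_lit 180252) (nat_lit 10) (.e (nat_lit 573475) (nat_lit 12) (.e (nat_lit 57509) (nat_lit 39) (.e (nat_lit 655104) (nat_lit 0) .nil)))))))) (.g (nat_lit 1) (.e (nat_lit 45650) (nat_lit 0) .nil) .nil))) 
(.lf (nat_lit 458306) (.g (nat_lit 4605) (.e (nat_lit 2685) (nat_lit 168) (.e (nat_lit 204863) (nat_lit 27) (.e (nat_lit 344132) (nat_lit 26) (.e (nat_lit 557105) (nat_lit 14) (.e (nat_lit 180252) (nat_lit 10) (.e (nat_lit 573474) (nat_lit 12) (.e (nat_lit 57508) (nat_lit 39) (.e (nat_lit 647170) (nat_lit 0) .nil)))))))) (.g (nat_lit 1) (.e (nat_lit 46944) (nat_lit 0) .nil) .nil)))) 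
(.nd (nat_lit 9) 
(.lf (nat_lit 458050) (.g (nat_lit 2338) (.e (nat_lit 2685) (nat_lit 168) (.e (nat_lit 204837) (nat_lit 20) (.e (nat_lit 114714) (nat_lit 22) (.e (nat_lit 90174) (nat_lit 14) (.e (nat_lit 180243) (nat_lit 5) (.e (nat_lit 532504) (nat_lit 1) (.e (nat_lit 57662) (nat_lit 152) (.e (nat_lit 2450) (nat_lit 157) .nil)))))))) (.g (nat_lit 1) (.e (nat_lit 46291) (nat_lit 0) .nil) .nil))) 
(.lf (nat_lit 458562) (.g (nat_lit 3218) (.e (nat_lit 7936) (nat_lit 168) (.e (nat_lit 204869) (nat_lit 29) (.e (nat_lit 360475) (nat_lit 8) (.e (nat_lit 557087) (nat_lit 11) (.e (nat_lit 24584) (nat_lit 0) .nil))))) (.g (nat_lit 0) (.e (nat_lit 47705) (nat_lit 0) .nil) .nil))))) (.nd (nat_lit 8) (.nd (nat_lit 9) 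
(.lf (nat_lit 457922) (.g (nat_lit 3035) (.e (nat_lit 2684) (nat_lit 168) (.e (nat_lit 204869) (nat_lit 29) (.e (nat_lit 360474) (nat_lit 8) (.e (nat_lit 557085) (nat_lit 11) (.e (nat_lit 24580) (nat_lit 0) .nil))))) (.g (nat_lit 0) (.e (nat_lit 46066) (nat_lit 0) .nil) .nil))) 
(.lf (nat_lit 458434) (.g (nat_lit 2870) (.e (nat_lit 2685) (nat_lit 168) (.e (nat_lit 204868) (nat_lit 29) (.e (nat_lit 360473) (nat_lit 8) (.e (nat_lit 557087) (nat_lit 11) (.e (nat_lit 24580) (nat_lit 0) (.e (nat_lit 6617) (nat_lit 357) .nil)))))) (.g (nat_lit 1) (.e (nat_lit 47370) (nat_lit 0) .nil) .nil)))) (.nd (nat_lit 9) 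
(.lf (nat_lit 458178) (.g (nat_lit 2938) (.e (nat_lit 2685) (nat_lit 168) (.e (nat_lit 204862) (nat_lit 27) (.e (nat_lit 344129) (nat_lit 26) (.e (nat_lit 557103) (nat_lit 14) (.e (nat_lit 180250) (nat_lit 10) (.e (nat_lit 573475) (nat_lit 12) (.e (nat_lit 57508) (nat_lit 39) (.e (nat_lit 647168) (nat_lit 0) .nil)))))))) (.g (nat_lit 1) (.e (nat_lit 46815) (nat_lit 0) .nil) .nil))) 
(.lf (nat_lit 458690) (.g (nat_lit 1994) (.e (nat_lit 2706) (nat_lit 170) (.e (nat_lit 221214) (nat_lit 23) (.e (nat_lit 204863) (nat_lit 27) (.e (nat_lit 344120) (nat_lit 21) (.e (nat_lit 516115) (nat_lit 1) (.e (nat_lit 164177) (nat_lit 154) (.e (nat_lit 57371) (nat_lit 2) (.e (nat_lit 90128) (nat_lit 9) .nil)))))))) (.g (nat_lit 1) (.e (nat_lit 48030) (nat_lit 0) .nil) .nil))))))) 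
(.nd (nat_lit 6) (.nd (nat_lit 7) (.nd (nat_lit 8) (.nd (nat_lit 9) 
(.lf (nat_lit 457762) (.g (nat_lit 3854) (.e (nat_lit 2684) (nat_lit 168) (.e (nat_lit 204862) (nat_lit 27) (.e (nat_lit 344129) (nat_lit 26) (.e (nat_lit 557104) (nat_lit 14) (.e (nat_lit 180252) (nat_lit 10) (.e (nat_lit 573475) (nat_lit 12) (.e (nat_lit 57509) (nat_lit 39) (.e (nat_lit 655104) (nat_lit 0) .nil)))))))) (.g (nat_lit 1) (.e (nat_lit 45618) (nat_lit 0) .nil) .nil))) 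
(.lf (nat_lit 458274) (.g (nat_lit 2201) (.e (nat_lit 2685) (nat_lit 168) (.e (nat_lit 204863) (nat_lit 27) (.e (nat_lit 344131) (nat_lit 26) (.e (nat_lit 557098) (nat_lit 13) (.e (nat_lit 172065) (nat_lit 3) (.e (nat_lit 204821) (nat_lit 17) (.e (nat_lit 2391) (nat_lit 156) (.e (nat_lit 819204) (nat_lit 0) .nil)))))))) (.g (nat_lit 1) (.e (nat_lit 46912) (nat_lit 0) .nil) .nil)))) 
(.nd (nat_lit 9) 
(.lf (nat_lit 458018) (.g (nat_lit 3530) (.e (nat_lit 2684) (nat_lit 168) (.e (nat_lit 204880) (nat_lit 32) (.e (nat_lit 385068) (nat_lit 26) (.e (nat_lit 532501) (nat_lit 1) (.e (nat_lit 57852) (nat_lit 252) (.e (nat_lit 57377) (nat_lit 3) (.e (nat_lit 98338) (nat_lit 19) (.e (nat_lit 213013) (nat_lit 9) .nil)))))))) (.g (nat_lit 1) (.e (nat_lit 46235) (nat_lit 0) .nil) .nil))) 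
(.lf (nat_lit 458530) (.g (nat_lit 3745) (.e (nat_lit 2685) (nat_lit 168) (.e (nat_lit 204869) (nat_lit 29) (.e (nat_lit 360475) (nat_lit 8) (.e (nat_lit 557089) (nat_lit 12) (.e (nat_lit 163844) (nat_lit 0) (.e (nat_lit 6418) (nat_lit 341) (.e (nat_lit 163850) (nat_lit 0) (.e (nat_lit 7936) (nat_lit 388) .nil)))))))) (.g (nat_lit 1) (.e (nat_lit 47610) (nat_lit 0) .nil) .nil))))) 
(.nd (nat_lit 8) (.nd (nat_lit 9) 
(.lf (nat_lit 457890) (.g (nat_lit 2383) (.e (nat_lit 2684) (nat_lit 168) (.e (nat_lit 204863) (nat_lit 27) (.e (nat_lit 344133) (nat_lit 26) (.e (nat_lit 557103) (nat_lit 14) (.e (nat_lit 180250) (nat_lit 10) (.e (nat_lit 573473) (nat_lit 12) (.e (nat_lit 57506) (nat_lit 39) (.e (nat_lit 655104) (nat_lit 0) .nil)))))))) (.g (nat_lit 1) (.e (nat_lit 45746) (nat_lit 0) .nil) .nil))) 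
(.lf (nat_lit 458402) (.g (nat_lit 2331) (.e (nat_lit 2685) (nat_lit 168) (.e (nat_lit 204868) (nat_lit 29) (.e (nat_lit 360466) (nat_lit 3) (.e (nat_lit 516142) (nat_lit 8) (.e (nat_lit 417815) (nat_lit 10) (.e (nat_lit 5628) (nat_lit 312) .nil)))))) (.g (nat_lit 1) (.e (nat_lit 47215) (nat_lit 0) .nil) .nil)))) (.nd (nat_lit 9) 
(.lf (nat_lit 458146) (.g (nat_lit 2172) (.e (nat_lit 2685) (nat_lit 168) (.e (nat_lit 204862) (nat_lit 27) (.e (nat_lit 344117) (nat_lit 21) (.e (nat_lit 516130) (nat_lit 3) (.e (nat_lit 229120) (nat_lit 3) (.e (nat_lit 98346) (nat_lit 22) (.e (nat_lit 261888) (nat_lit 0) .nil))))))) (.g (nat_lit 1) (.e (nat_lit 46781) (nat_lit 0) .nil) .nil))) 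
(.lf (nat_lit 458658) (.g (nat_lit 2086) (.e (nat_lit 2700) (nat_lit 169) (.e (nat_lit 213032) (nat_lit 11) (.e (nat_lit 24604) (nat_lit 2) (.e (nat_lit 90176) (nat_lit 15) .nil)))) (.g (nat_lit 0) (.e (nat_lit 47894) (nat_lit 0) .nil) .nil)))))) (.nd (nat_lit 7) (.nd (nat_lit 8) (.nd (nat_lit 9) 
(.lf (nat_lit 457826) (.g (nat_lit 2284) (.e (nat_lit 2684) (nat_lit 168) (.e (nat_lit 204863) (nat_lit 27) (.e (nat_lit 344117) (nat_lit 21) (.e (nat_lit 516130) (nat_lit 3) (.e (nat_lit 221212) (nat_lit 22) (.e (nat_lit 196658) (nat_lit 12) (.e (nat_lit 57508) (nat_lit 39) (.e (nat_lit 647175) (nat_lit 0) .nil)))))))) (.g (nat_lit 1) (.e (nat_lit 45682) (nat_lit 0) .nil) .nil))) 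
(.lf (nat_lit 458338) (.g (nat_lit 2551) (.e (nat_lit 2685) (nat_lit 168) (.e (nat_lit 204863) (nat_lit 27) (.e (nat_lit 344133) (nat_lit 26) (.e (nat_lit 557105) (nat_lit 14) (.e (nat_lit 188160) (nat_lit 3) .nil))))) (.g (nat_lit 0) (.e (nat_lit 46976) (nat_lit 0) .nil) .nil)))) (.nd (nat_lit 9) 
(.lf (nat_lit 458082) (.g (nat_lit 1573) (.e (nat_lit 2685) (nat_lit 168) (.e (nat_lit 204846) (nat_lit 24) (.e (nat_lit 319531) (nat_lit 16) (.e (nat_lit 286735) (nat_lit 3) .nil)))) (.g (nat_lit 0) (.e (nat_lit 46427) (nat_lit 0) .nil) .nil))) 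
(.lf (nat_lit 458594) (.g (nat_lit 3045) (.e (nat_lit 2691) (nat_lit 169) (.e (nat_lit 213032) (nat_lit 11) (.e (nat_lit 24608) (nat_lit 3) (.e (nat_lit 98372) (nat_lit 29) (.e (nat_lit 458496) (nat_lit 8) .nil))))) (.g (nat_lit 0) (.e (nat_lit 47752) (nat_lit 0) .nil) .nil))))) (.nd (nat_lit 8) (.nd (nat_lit 9) 
(.lf (nat_lit 457954) (.g (nat_lit 3252) (.e (nat_lit 2684) (nat_lit 168) (.e (nat_lit 204869) (nat_lit 29) (.e (nat_lit 360474) (nat_lit 8) (.e (nat_lit 557094) (nat_lit 12) (.e (nat_lit 163847) (nat_lit 0) .nil))))) (.g (nat_lit 0) (.e (nat_lit 46110) (nat_lit 0) .nil) .nil))) 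
(.lf (nat_lit 458466) (.g (nat_lit 2147) (.e (nat_lit 2685) (nat_lit 168) (.e (nat_lit 204869) (nat_lit 29) (.e (nat_lit 360473) (nat_lit 8) (.e (nat_lit 557087) (nat_lit 11) (.e (nat_lit 24580) (nat_lit 0) .nil))))) (.g (nat_lit 0) (.e (nat_lit 47485) (nat_lit 0) .nil) .nil)))) (.nd (nat_lit 9) 
(.lf (nat_lit 458210) (.g (nat_lit 2976) (.e (nat_lit 2685) (nat_lit 168) (.e (nat_lit 204862) (nat_lit 27) (.e (nat_lit 344132) (nat_lit 26) (.e (nat_lit 557101) (nat_lit 13) (.e (nat_lit 172066) (nat_lit 3) (.e (nat_lit 204821) (nat_lit 17) (.e (nat_lit 2391) (nat_lit 156) (.e (nat_lit 819204) (nat_lit 0) .nil)))))))) (.g (nat_lit 1) (.e (nat_lit 46847) (nat_lit 0) .nil) .nil))) 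
(.lf (nat_lit 458722) (.g (nat_lit 2939) (.e (nat_lit 2725) (nat_lit 172) (.e (nat_lit 237586) (nat_lit 2) (.e (nat_lit 196666) (nat_lit 13) (.e (nat_lit 65617) (nat_lit 10) (.e (nat_lit 344133) (nat_lit 26) (.e (nat_lit 557091) (nat_lit 12) (.e (nat_lit 163843) (nat_lit 0) (.e (nat_lit 6254) (nat_lit 337) .nil)))))))) (.g (nat_lit 1) (.e (nat_lit 48330) (nat_lit 0) .nil) .nil)))))))) 
(.nd (nat_lit 5) (.nd (nat_lit 6) (.nd (nat_lit 7) (.nd (nat_lit 8) (.nd (nat_lit 9) 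
(.lf (nat_lit 457746) (.g (nat_lit 2775) (.e (nat_lit 2684) (nat_lit 168) (.e (nat_lit 204862) (nat_lit 27) (.e (nat_lit 344129) (nat_lit 26) (.e (nat_lit 557103) (nat_lit 14) (.e (nat_lit 180250) (nat_lit 10) (.e (nat_lit 573475) (nat_lit 12) (.e (nat_lit 57505) (nat_lit 39) (.e (nat_lit 655104) (nat_lit 0) .nil)))))))) (.g (nat_lit 1) (.e (nat_lit 45602) (nat_lit 0) .nil) .nil))) 
(.lf (nat_lit 458258) (.g (nat_lit 2738) (.e (nat_lit 2685) (nat_lit 168) (.e (nat_lit 204863) (nat_lit 27) (.e (nat_lit 344129) (nat_lit 26) (.e (nat_lit 557104) (nat_lit 14) (.e (nat_lit 180252) (nat_lit 10) (.e (nat_lit 573473) (nat_lit 12) (.e (nat_lit 57508) (nat_lit 39) (.e (nat_lit 647170) (nat_lit 0) .nil)))))))) (.g (nat_lit 1) (.e (nat_lit 46896) (nat_lit 0) .nil) .nil)))) 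
(.nd (nat_lit 9) 
(.lf (nat_lit 458002) (.g (nat_lit 5219) (.e (nat_lit 2684) (nat_lit 168) (.e (nat_lit 204869) (nat_lit 29) (.e (nat_lit 360475) (nat_lit 8) (.e (nat_lit 557091) (nat_lit 12) (.e (nat_lit 163843) (nat_lit 0) (.e (nat_lit 6418) (nat_lit 341) (.e (nat_lit 163850) (nat_lit 0) (.e (nat_lit 7936) (nat_lit 388) .nil)))))))) (.g (nat_lit 1) (.e (nat_lit 46193) (nat_lit 0) .nil) .nil))) 
(.lf (nat_lit 458514) (.g (nat_lit 2822) (.e (nat_lit 2685) (nat_lit 168) (.e (nat_lit 204869) (nat_lit 29) (.e (nat_lit 360475) (nat_lit 8) (.e (nat_lit 557087) (nat_lit 11) (.e (nat_lit 24581) (nat_lit 0) (.e (nat_lit 7936) (nat_lit 357) .nil)))))) (.g (nat_lit 1) (.e (nat_lit 47594) (nat_lit 0) .nil) .nil))))) (.nd (nat_lit 8) (.nd (nat_lit 9) 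
(.lf (nat_lit 457874) (.g (nat_lit 2332) (.e (nat_lit 2684) (nat_lit 168) (.e (nat_lit 204863) (nat_lit 27) (.e (nat_lit 344132) (nat_lit 26) (.e (nat_lit 557105) (nat_lit 14) (.e (nat_lit 180252) (nat_lit 10) (.e (nat_lit 573473) (nat_lit 12) (.e (nat_lit 57507) (nat_lit 39) (.e (nat_lit 647175) (nat_lit 0) .nil)))))))) (.g (nat_lit 1) (.e (nat_lit 45730) (nat_lit 0) .nil) .nil))) 
(.lf (nat_lit 458386) (.g (nat_lit 2955) (.e (nat_lit 2685) (nat_lit 168) (.e (nat_lit 204868) (nat_lit 29) (.e (nat_lit 360466) (nat_lit 3) (.e (nat_lit 516139) (nat_lit 7) (.e (nat_lit 409614) (nat_lit 10) .nil))))) (.g (nat_lit 0) (.e (nat_lit 47197) (nat_lit 0) .nil) .nil)))) (.nd (nat_lit 9) 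
(.lf (nat_lit 458130) (.g (nat_lit 390) (.e (nat_lit 2685) (nat_lit 168) (.e (nat_lit 204855) (nat_lit 26) (.e (nat_lit 336061) (nat_lit 7) .nil))) (.g (nat_lit 0) (.e (nat_lit 46501) (nat_lit 0) .nil) .nil))) 
(.lf (nat_lit 458642) (.g (nat_lit 2623) (.e (nat_lit 2698) (nat_lit 169) (.e (nat_lit 213032) (nat_lit 11) (.e (nat_lit 24608) (nat_lit 3) (.e (nat_lit 98365) (nat_lit 26) .nil)))) (.g (nat_lit 0) (.e (nat_lit 47849) (nat_lit 0) .nil) .nil)))))) (.nd (nat_lit 7) (.nd (nat_lit 8) (.nd (nat_lit 9) 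
(.lf (nat_lit 457810) (.g (nat_lit 3735) (.e (nat_lit 2684) (nat_lit 168) (.e (nat_lit 204862) (nat_lit 27) (.e (nat_lit 344133) (nat_lit 26) (.e (nat_lit 557103) (nat_lit 14) (.e (nat_lit 180250) (nat_lit 10) (.e (nat_lit 573478) (nat_lit 12) (.e (nat_lit 57509) (nat_lit 39) (.e (nat_lit 655104) (nat_lit 0) .nil)))))))) (.g (nat_lit 1) (.e (nat_lit 45666) (nat_lit 0) .nil) .nil))) 
(.lf (nat_lit 458322) (.g (nat_lit 1506) (.e (nat_lit 2685) (nat_lit 168) (.e (nat_lit 204863) (nat_lit 27) (.e (nat_lit 344133) (nat_lit 26) (.e (nat_lit 557103) (nat_lit 14) .nil)))) (.g (nat_lit 0) (.e (nat_lit 46960) (nat_lit 0) .nil) .nil)))) (.nd (nat_lit 9) 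
(.lf (nat_lit 458066) (.g (nat_lit 1763) (.e (nat_lit 2685) (nat_lit 168) (.e (nat_lit 204846) (nat_lit 24) (.e (nat_lit 319511) (nat_lit 10) (.e (nat_lit 5293) (nat_lit 298) (.e (nat_lit 1250) (nat_lit 92) .nil))))) (.g (nat_lit 0) (.e (nat_lit 46400) (nat_lit 0) .nil) .nil))) 
(.lf (nat_lit 458578) (.g (nat_lit 2139) (.e (nat_lit 2688) (nat_lit 169) (.e (nat_lit 213032) (nat_lit 11) (.e (nat_lit 24604) (nat_lit 2) (.e (nat_lit 90178) (nat_lit 15) (.e (nat_lit 196352) (nat_lit 7) .nil))))) (.g (nat_lit 0) (.e (nat_lit 47730) (nat_lit 0) .nil) .nil))))) (.nd (nat_lit 8) (.nd (nat_lit 9) 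
(.lf (nat_lit 457938) (.g (nat_lit 3619) (.e (nat_lit 2684) (nat_lit 168) (.e (nat_lit 204869) (nat_lit 29) (.e (nat_lit 360474) (nat_lit 8) (.e (nat_lit 557091) (nat_lit 12) (.e (nat_lit 163841) (nat_lit 0) (.e (nat_lit 6418) (nat_lit 341) (.e (nat_lit 163850) (nat_lit 0) (.e (nat_lit 7936) (nat_lit 388) .nil)))))))) (.g (nat_lit 1) (.e (nat_lit 46087) (nat_lit 0) .nil) .nil))) 
(.lf (nat_lit 458450) (.g (nat_lit 3296) (.e (nat_lit 2685) (nat_lit 168) (.e (nat_lit 204868) (nat_lit 29) (.e (nat_lit 360475) (nat_lit 8) (.e (nat_lit 557087) (nat_lit 11) (.e (nat_lit 24580) (nat_lit 0) (.e (nat_lit 6617) (nat_lit 357) .nil)))))) (.g (nat_lit 1) (.e (nat_lit 47418) (nat_lit 0) .nil) .nil)))) (.nd (nat_lit 9) 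
(.lf (nat_lit 458194) (.g (nat_lit 1102) (.e (nat_lit 2685) (nat_lit 168) (.e (nat_lit 204862) (nat_lit 27) (.e (nat_lit 344130) (nat_lit 26) (.e (nat_lit 557103) (nat_lit 14) .nil)))) (.g (nat_lit 0) (.e (nat_lit 46831) (nat_lit 0) .nil) .nil))) 
(.lf (nat_lit 458706) (.g (nat_lit 3033) (.e (nat_lit 2707) (nat_lit 170) (.e (nat_lit 221194) (nat_lit 11) (.e (nat_lit 336088) (nat_lit 9) (.e (nat_lit 336443) (nat_lit 32) .nil)))) (.g (nat_lit 0) (.e (nat_lit 48074) (nat_lit 0) .nil) .nil))))))) (.nd (nat_lit 6) (.nd (nat_lit 7) (.nd (nat_lit 8) (.nd (nat_lit 9) 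
(.lf (nat_lit 457778) (.g (nat_lit 2096) (.e (nat_lit 2684) (nat_lit 168) (.e (nat_lit 204862) (nat_lit 27) (.e (nat_lit 344132) (nat_lit 26) (.e (nat_lit 557103) (nat_lit 14) (.e (nat_lit 180250) (nat_lit 10) (.e (nat_lit 573473) (nat_lit 12) (.e (nat_lit 57507) (nat_lit 39) (.e (nat_lit 655104) (nat_lit 0) .nil)))))))) (.g (nat_lit 1) (.e (nat_lit 45634) (nat_lit 0) .nil) .nil))) 
(.lf (nat_lit 458290) (.g (nat_lit 1634) (.e (nat_lit 2685) (nat_lit 168) (.e (nat_lit 204863) (nat_lit 27) (.e (nat_lit 344132) (nat_lit 26) (.e (nat_lit 557101) (nat_lit 13) .nil)))) (.g (nat_lit 0) (.e (nat_lit 46928) (nat_lit 0) .nil) .nil)))) (.nd (nat_lit 9) 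
(.lf (nat_lit 458034) (.g (nat_lit 2521) (.e (nat_lit 2685) (nat_lit 168) (.e (nat_lit 204837) (nat_lit 20) (.e (nat_lit 114714) (nat_lit 22) (.e (nat_lit 90172) (nat_lit 14) (.e (nat_lit 180243) (nat_lit 5) (.e (nat_lit 532503) (nat_lit 1) (.e (nat_lit 57651) (nat_lit 152) (.e (nat_lit 2399) (nat_lit 157) .nil)))))))) (.g (nat_lit 1) (.e (nat_lit 46273) (nat_lit 0) .nil) .nil))) 
(.lf (nat_lit 458546) (.g (nat_lit 3861) (.e (nat_lit 2685) (nat_lit 168) (.e (nat_lit 204869) (nat_lit 29) (.e (nat_lit 360475) (nat_lit 8) (.e (nat_lit 557091) (nat_lit 12) (.e (nat_lit 163847) (nat_lit 0) (.e (nat_lit 6418) (nat_lit 341) (.e (nat_lit 163850) (nat_lit 0) (.e (nat_lit 7936) (nat_lit 388) .nil)))))))) (.g (nat_lit 1) (.e (nat_lit 47628) (nat_lit 0) .nil) .nil))))) 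
(.nd (nat_lit 8) (.nd (nat_lit 9) 
(.lf (nat_lit 457906) (.g (nat_lit 2107) (.e (nat_lit 2684) (nat_lit 168) (.e (nat_lit 204868) (nat_lit 29) (.e (nat_lit 360466) (nat_lit 3) (.e (nat_lit 516138) (nat_lit 7) (.e (nat_lit 409617) (nat_lit 10) .nil))))) (.g (nat_lit 0) (.e (nat_lit 45824) (nat_lit 0) .nil) .nil))) 
(.lf (nat_lit 458418) (.g (nat_lit 894) (.e (nat_lit 2685) (nat_lit 168) (.e (nat_lit 204868) (nat_lit 29) (.e (nat_lit 368384) (nat_lit 3) (.e (nat_lit 516139) (nat_lit 7) (.e (nat_lit 409616) (nat_lit 10) .nil))))) (.g (nat_lit 0) (.e (nat_lit 47297) (nat_lit 0) .nil) .nil)))) (.nd (nat_lit 9) 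
(.lf (nat_lit 458162) (.g (nat_lit 2905) (.e (nat_lit 2685) (nat_lit 168) (.e (nat_lit 204862) (nat_lit 27) (.e (nat_lit 344129) (nat_lit 26) (.e (nat_lit 557097) (nat_lit 13) (.e (nat_lit 172066) (nat_lit 3) (.e (nat_lit 204821) (nat_lit 17) (.e (nat_lit 2391) (nat_lit 156) (.e (nat_lit 819203) (nat_lit 0) .nil)))))))) (.g (nat_lit 1) (.e (nat_lit 46798) (nat_lit 0) .nil) .nil))) 
(.lf (nat_lit 458674) (.g (nat_lit 2045) (.e (nat_lit 7936) (nat_lit 169) (.e (nat_lit 213030) (nat_lit 11) (.e (nat_lit 24617) (nat_lit 7) (.e (nat_lit 319533) (nat_lit 16) (.e (nat_lit 286753) (nat_lit 10) .nil))))) (.g (nat_lit 0) (.e (nat_lit 47919) (nat_lit 0) .nil) .nil)))))) (.nd (nat_lit 7) (.nd (nat_lit 8) (.nd (nat_lit 9) 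
(.lf (nat_lit 457842) (.g (nat_lit 2721) (.e (nat_lit 2684) (nat_lit 168) (.e (nat_lit 204863) (nat_lit 27) (.e (nat_lit 344129) (nat_lit 26) (.e (nat_lit 557103) (nat_lit 14) (.e (nat_lit 180250) (nat_lit 10) (.e (nat_lit 573475) (nat_lit 12) (.e (nat_lit 57509) (nat_lit 39) (.e (nat_lit 655104) (nat_lit 0) .nil)))))))) (.g (nat_lit 1) (.e (nat_lit 45698) (nat_lit 0) .nil) .nil))) 
(.lf (nat_lit 458354) (.g (nat_lit 2731) (.e (nat_lit 2685) (nat_lit 168) (.e (nat_lit 204864) (nat_lit 27) (.e (nat_lit 344130) (nat_lit 26) (.e (nat_lit 557104) (nat_lit 14) (.e (nat_lit 180252) (nat_lit 10) (.e (nat_lit 573473) (nat_lit 12) (.e (nat_lit 57508) (nat_lit 39) (.e (nat_lit 647170) (nat_lit 0) .nil)))))))) (.g (nat_lit 1) (.e (nat_lit 46992) (nat_lit 0) .nil) .nil)))) 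
(.nd (nat_lit 9) 
(.lf (nat_lit 458098) (.g (nat_lit 2650) (.e (nat_lit 2685) (nat_lit 168) (.e (nat_lit 204846) (nat_lit 24) (.e (nat_lit 319533) (nat_lit 16) (.e (nat_lit 286732) (nat_lit 2) (.e (nat_lit 90172) (nat_lit 14) (.e (nat_lit 188160) (nat_lit 40) .nil)))))) (.g (nat_lit 1) (.e (nat_lit 46448) (nat_lit 0) .nil) .nil))) 
(.lf (nat_lit 458610) (.g (nat_lit 3195) (.e (nat_lit 2694) (nat_lit 169) (.e (nat_lit 213032) (nat_lit 11) (.e (nat_lit 24604) (nat_lit 2) (.e (nat_lit 90185) (nat_lit 17) .nil)))) (.g (nat_lit 0) (.e (nat_lit 47778) (nat_lit 0) .nil) .nil))))) (.nd (nat_lit 8) (.nd (nat_lit 9) 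
(.lf (nat_lit 457970) (.g (nat_lit 2164) (.e (nat_lit 2684) (nat_lit 168) (.e (nat_lit 204869) (nat_lit 29) (.e (nat_lit 360475) (nat_lit 8) (.e (nat_lit 557087) (nat_lit 11) (.e (nat_lit 24577) (nat_lit 0) .nil))))) (.g (nat_lit 0) (.e (nat_lit 46152) (nat_lit 0) .nil) .nil))) 
(.lf (nat_lit 458482) (.g (nat_lit 2983) (.e (nat_lit 2685) (nat_lit 168) (.e (nat_lit 204869) (nat_lit 29) (.e (nat_lit 360474) (nat_lit 8) (.e (nat_lit 557093) (nat_lit 12) (.e (nat_lit 163849) (nat_lit 0) (.e (nat_lit 6420) (nat_lit 341) (.e (nat_lit 163843) (nat_lit 0) (.e (nat_lit 7936) (nat_lit 388) .nil)))))))) (.g (nat_lit 1) (.e (nat_lit 47528) (nat_lit 0) .nil) .nil)))) (.nd (nat_lit 9) 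
(.lf (nat_lit 458226) (.g (nat_lit 2433) (.e (nat_lit 2685) (nat_lit 168) (.e (nat_lit 204862) (nat_lit 27) (.e (nat_lit 344133) (nat_lit 26) (.e (nat_lit 557103) (nat_lit 14) (.e (nat_lit 180240) (nat_lit 2) .nil))))) (.g (nat_lit 0) (.e (nat_lit 46863) (nat_lit 0) .nil) .nil))) 
(.lf (nat_lit 458738) (.g (nat_lit 2345) (.e (nat_lit 2725) (nat_lit 172) (.e (nat_lit 237587) (nat_lit 2) (.e (nat_lit 196666) (nat_lit 13) (.e (nat_lit 65617) (nat_lit 10) (.e (nat_lit 344130) (nat_lit 26) (.e (nat_lit 557090) (nat_lit 12) (.e (nat_lit 163844) (nat_lit 0) (.e (nat_lit 6250) (nat_lit 337) .nil)))))))) (.g (nat_lit 1) (.e (nat_lit 48350) (nat_lit 0) .nil) .nil))))))))) 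
(.nd (nat_lit 4) (.nd (nat_lit 5) (.nd (nat_lit 6) (.nd (nat_lit 7) (.nd (nat_lit 8) 
(.nd (nat_lit 9) 
(.lf (nat_lit 457738) (.g (nat_lit 2506) (.e (nat_lit 2684) (nat_lit 168) (.e (nat_lit 204862) (nat_lit 27) (.e (nat_lit 344129) (nat_lit 26) (.e (nat_lit 557103) (nat_lit 14) (.e (nat_lit 188160) (nat_lit 3) .nil))))) (.g (nat_lit 0) (.e (nat_lit 45594) (nat_lit 0) .nil) .nil))) 
(.lf (nat_lit 458250) (.g (nat_lit 2572) (.e (nat_lit 2685) (nat_lit 168) (.e (nat_lit 204863) (nat_lit 27) (.e (nat_lit 344129) (nat_lit 26) (.e (nat_lit 557097) (nat_lit 13) (.e (nat_lit 172067) (nat_lit 3) .nil))))) (.g (nat_lit 0) (.e (nat_lit 46888) (nat_lit 0) .nil) .nil)))) (.nd (nat_lit 9) 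
(.lf (nat_lit 457994) (.g (nat_lit 3781) (.e (nat_lit 2684) (nat_lit 168) (.e (nat_lit 204869) (nat_lit 29) (.e (nat_lit 360475) (nat_lit 8) (.e (nat_lit 557089) (nat_lit 12) (.e (nat_lit 163849) (nat_lit 0) (.e (nat_lit 6418) (nat_lit 341) (.e (nat_lit 163850) (nat_lit 0) (.e (nat_lit 7936) (nat_lit 388) .nil)))))))) (.g (nat_lit 1) (.e (nat_lit 46179) (nat_lit 0) .nil) .nil))) 
(.lf (nat_lit 458506) (.g (nat_lit 2786) (.e (nat_lit 2685) (nat_lit 168) (.e (nat_lit 204869) (nat_lit 29) (.e (nat_lit 360475) (nat_lit 8) (.e (nat_lit 557086) (nat_lit 11) (.e (nat_lit 24583) (nat_lit 0) .nil))))) (.g (nat_lit 0) (.e (nat_lit 47586) (nat_lit 0) .nil) .nil))))) (.nd (nat_lit 8) (.nd (nat_lit 9) 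
(.lf (nat_lit 457866) (.g (nat_lit 3945) (.e (nat_lit 2684) (nat_lit 168) (.e (nat_lit 204863) (nat_lit 27) (.e (nat_lit 344131) (nat_lit 26) (.e (nat_lit 557105) (nat_lit 14) (.e (nat_lit 180252) (nat_lit 10) (.e (nat_lit 573474) (nat_lit 12) (.e (nat_lit 57508) (nat_lit 39) (.e (nat_lit 647175) (nat_lit 0) .nil)))))))) (.g (nat_lit 1) (.e (nat_lit 45722) (nat_lit 0) .nil) .nil))) 
(.lf (nat_lit 458378) (.g (nat_lit 964) (.e (nat_lit 2685) (nat_lit 168) (.e (nat_lit 204868) (nat_lit 29) (.e (nat_lit 360466) (nat_lit 3) (.e (nat_lit 516138) (nat_lit 7) .nil)))) (.g (nat_lit 0) (.e (nat_lit 47189) (nat_lit 0) .nil) .nil)))) (.nd (nat_lit 9) 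
(.lf (nat_lit 458122) (.g (nat_lit 2612) (.e (nat_lit 2685) (nat_lit 168) (.e (nat_lit 204846) (nat_lit 24) (.e (nat_lit 319534) (nat_lit 16) (.e (nat_lit 286735) (nat_lit 3) (.e (nat_lit 98365) (nat_lit 26) .nil))))) (.g (nat_lit 0) (.e (nat_lit 46475) (nat_lit 0) .nil) .nil))) 
(.lf (nat_lit 458634) (.g (nat_lit 3238) (.e (nat_lit 2697) (nat_lit 169) (.e (nat_lit 213032) (nat_lit 11) (.e (nat_lit 24604) (nat_lit 2) (.e (nat_lit 90178) (nat_lit 15) (.e (nat_lit 188441) (nat_lit 20) .nil))))) (.g (nat_lit 0) (.e (nat_lit 47831) (nat_lit 0) .nil) .nil)))))) (.nd (nat_lit 7) (.nd (nat_lit 8) (.nd (nat_lit 9) 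
(.lf (nat_lit 457802) (.g (nat_lit 4213) (.e (nat_lit 2684) (nat_lit 168) (.e (nat_lit 204862) (nat_lit 27) (.e (nat_lit 344133) (nat_lit 26) (.e (nat_lit 557103) (nat_lit 14) (.e (nat_lit 180250) (nat_lit 10) (.e (nat_lit 573473) (nat_lit 12) (.e (nat_lit 57508) (nat_lit 39) (.e (nat_lit 647175) (nat_lit 0) .nil)))))))) (.g (nat_lit 1) (.e (nat_lit 45658) (nat_lit 0) .nil) .nil))) 
(.lf (nat_lit 458314) (.g (nat_lit 2335) (.e (nat_lit 2685) (nat_lit 168) (.e (nat_lit 204863) (nat_lit 27) (.e (nat_lit 344133) (nat_lit 26) (.e (nat_lit 557098) (nat_lit 13) (.e (nat_lit 172032) (nat_lit 0) .nil))))) (.g (nat_lit 0) (.e (nat_lit 46952) (nat_lit 0) .nil) .nil)))) (.nd (nat_lit 9) 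
(.lf (nat_lit 458058) (.g (nat_lit 2237) (.e (nat_lit 2685) (nat_lit 168) (.e (nat_lit 204837) (nat_lit 20) (.e (nat_lit 114718) (nat_lit 23) (.e (nat_lit 98356) (nat_lit 26) (.e (nat_lit 426438) (nat_lit 18) (.e (nat_lit 98335) (nat_lit 18) (.e (nat_lit 164305) (nat_lit 226) (.e (nat_lit 2450) (nat_lit 157) .nil)))))))) (.g (nat_lit 1) (.e (nat_lit 46301) (nat_lit 0) .nil) .nil))) 
(.lf (nat_lit 458570) (.g (nat_lit 3188) (.e (nat_lit 2686) (nat_lit 169) (.e (nat_lit 213032) (nat_lit 11) (.e (nat_lit 24608) (nat_lit 3) (.e (nat_lit 98373) (nat_lit 29) (.e (nat_lit 458496) (nat_lit 8) .nil))))) (.g (nat_lit 0) (.e (nat_lit 47713) (nat_lit 0) .nil) .nil))))) (.nd (nat_lit 8) (.nd (nat_lit 9) 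
(.lf (nat_lit 457930) (.g (nat_lit 2520) (.e (nat_lit 2684) (nat_lit 168) (.e (nat_lit 204869) (nat_lit 29) (.e (nat_lit 360474) (nat_lit 8) (.e (nat_lit 557089) (nat_lit 12) (.e (nat_lit 163848) (nat_lit 0) .nil))))) (.g (nat_lit 0) (.e (nat_lit 46077) (nat_lit 0) .nil) .nil))) 
(.lf (nat_lit 458442) (.g (nat_lit 3310) (.e (nat_lit 2685) (nat_lit 168) (.e (nat_lit 204868) (nat_lit 29) (.e (nat_lit 360475) (nat_lit 8) (.e (nat_lit 557086) (nat_lit 11) (.e (nat_lit 24578) (nat_lit 0) .nil))))) (.g (nat_lit 0) (.e (nat_lit 47410) (nat_lit 0) .nil) .nil)))) (.nd (nat_lit 9) 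
(.lf (nat_lit 458186) (.g (nat_lit 3116) (.e (nat_lit 2685) (nat_lit 168) (.e (nat_lit 204862) (nat_lit 27) (.e (nat_lit 344129) (nat_lit 26) (.e (nat_lit 557104) (nat_lit 14) (.e (nat_lit 180252) (nat_lit 10) (.e (nat_lit 573475) (nat_lit 12) (.e (nat_lit 57507) (nat_lit 39) (.e (nat_lit 647170) (nat_lit 0) .nil)))))))) (.g (nat_lit 1) (.e (nat_lit 46823) (nat_lit 0) .nil) .nil))) 
(.lf (nat_lit 458698) (.g (nat_lit 3319) (.e (nat_lit 2706) (nat_lit 170) (.e (nat_lit 221215) (nat_lit 23) (.e (nat_lit 204863) (nat_lit 27) (.e (nat_lit 344117) (nat_lit 21) (.e (nat_lit 516115) (nat_lit 1) (.e (nat_lit 164182) (nat_lit 154) (.e (nat_lit 57373) (nat_lit 2) (.e (nat_lit 90128) (nat_lit 9) .nil)))))))) (.g (nat_lit 1) (.e (nat_lit 48057) (nat_lit 0) .nil) .nil))))))) 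
(.nd (nat_lit 6) (.nd (nat_lit 7) (.nd (nat_lit 8) (.nd (nat_lit 9) 
(.lf (nat_lit 457770) (.g (nat_lit 2821) (.e (nat_lit 2684) (nat_lit 168) (.e (nat_lit 204862) (nat_lit 27) (.e (nat_lit 344130) (nat_lit 26) (.e (nat_lit 557103) (nat_lit 14) (.e (nat_lit 180250) (nat_lit 10) (.e (nat_lit 573478) (nat_lit 12) (.e (nat_lit 57511) (nat_lit 39) (.e (nat_lit 655104) (nat_lit 0) .nil)))))))) (.g (nat_lit 1) (.e (nat_lit 45626) (nat_lit 0) .nil) .nil))) 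
(.lf (nat_lit 458282) (.g (nat_lit 2124) (.e (nat_lit 2685) (nat_lit 168) (.e (nat_lit 204863) (nat_lit 27) (.e (nat_lit 344131) (nat_lit 26) (.e (nat_lit 557105) (nat_lit 14) (.e (nat_lit 180252) (nat_lit 10) (.e (nat_lit 573474) (nat_lit 12) (.e (nat_lit 57348) (nat_lit 0) (.e (nat_lit 5438) (nat_lit 306) (.e (nat_lit 2433) (nat_lit 157) .nil))))))))) (.g (nat_lit 1) (.e (nat_lit 46920) (nat_lit 0) .nil) .nil)))) 
(.nd (nat_lit 9) 
(.lf (nat_lit 458026) (.g (nat_lit 2546) (.e (nat_lit 2685) (nat_lit 168) (.e (nat_lit 204829) (nat_lit 18) (.e (nat_lit 57927) (nat_lit 282) (.e (nat_lit 163869) (nat_lit 2) (.e (nat_lit 196670) (nat_lit 14) (.e (nat_lit 73746) (nat_lit 3) (.e (nat_lit 516127) (nat_lit 2) (.e (nat_lit 213008) (nat_lit 9) .nil)))))))) (.g (nat_lit 1) (.e (nat_lit 46263) (nat_lit 0) .nil) .nil))) 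
(.lf (nat_lit 458538) (.g (nat_lit 5313) (.e (nat_lit 2685) (nat_lit 168) (.e (nat_lit 204869) (nat_lit 29) (.e (nat_lit 360475) (nat_lit 8) (.e (nat_lit 557090) (nat_lit 12) .nil)))) (.g (nat_lit 0) (.e (nat_lit 47618) (nat_lit 0) .nil) .nil))))) (.nd (nat_lit 8) (.nd (nat_lit 9) 
(.lf (nat_lit 457898) (.g (nat_lit 4095) (.e (nat_lit 2684) (nat_lit 168) (.e (nat_lit 204863) (nat_lit 27) (.e (nat_lit 344133) (nat_lit 26) (.e (nat_lit 557105) (nat_lit 14) (.e (nat_lit 180252) (nat_lit 10) (.e (nat_lit 573473) (nat_lit 12) (.e (nat_lit 57508) (nat_lit 39) (.e (nat_lit 647175) (nat_lit 0) .nil)))))))) (.g (nat_lit 1) (.e (nat_lit 45754) (nat_lit 0) .nil) .nil))) 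
(.lf (nat_lit 458410) (.g (nat_lit 2882) (.e (nat_lit 2685) (nat_lit 168) (.e (nat_lit 204868) (nat_lit 29) (.e (nat_lit 360467) (nat_lit 3) (.e (nat_lit 516139) (nat_lit 7) (.e (nat_lit 409616) (nat_lit 10) (.e (nat_lit 7936) (nat_lit 312) .nil)))))) (.g (nat_lit 1) (.e (nat_lit 47289) (nat_lit 0) .nil) .nil)))) (.nd (nat_lit 9) 
(.lf (nat_lit 458154) (.g (nat_lit 2607) (.e (nat_lit 2685) (nat_lit 168) (.e (nat_lit 204862) (nat_lit 27) (.e (nat_lit 344129) (nat_lit 26) (.e (nat_lit 557096) (nat_lit 13) (.e (nat_lit 172133) (nat_lit 15) .nil))))) (.g (nat_lit 0) (.e (nat_lit 46790) (nat_lit 0) .nil) .nil))) 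
(.lf (nat_lit 458666) (.g (nat_lit 2387) (.e (nat_lit 2700) (nat_lit 169) (.e (nat_lit 213032) (nat_lit 11) (.e (nat_lit 24608) (nat_lit 3) (.e (nat_lit 98380) (nat_lit 31) .nil)))) (.g (nat_lit 0) (.e (nat_lit 47902) (nat_lit 0) .nil) .nil)))))) (.nd (nat_lit 7) (.nd (nat_lit 8) (.nd (nat_lit 9) 
(.lf (nat_lit 457834) (.g (nat_lit 3760) (.e (nat_lit 2684) (nat_lit 168) (.e (nat_lit 204863) (nat_lit 27) (.e (nat_lit 344129) (nat_lit 26) (.e (nat_lit 557103) (nat_lit 14) (.e (nat_lit 180250) (nat_lit 10) (.e (nat_lit 573473) (nat_lit 12) (.e (nat_lit 57507) (nat_lit 39) (.e (nat_lit 655104) (nat_lit 0) .nil)))))))) (.g (nat_lit 1) (.e (nat_lit 45690) (nat_lit 0) .nil) .nil))) 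
(.lf (nat_lit 458346) (.g (nat_lit 3900) (.e (nat_lit 2685) (nat_lit 168) (.e (nat_lit 204863) (nat_lit 27) (.e (nat_lit 344133) (nat_lit 26) (.e (nat_lit 557105) (nat_lit 14) (.e (nat_lit 180252) (nat_lit 10) (.e (nat_lit 573474) (nat_lit 12) (.e (nat_lit 57511) (nat_lit 39) (.e (nat_lit 647168) (nat_lit 0) .nil)))))))) (.g (nat_lit 1) (.e (nat_lit 46984) (nat_lit 0) .nil) .nil)))) 
(.nd (nat_lit 9) 
(.lf (nat_lit 458090) (.g (nat_lit 3637) (.e (nat_lit 2685) (nat_lit 168) (.e (nat_lit 204846) (nat_lit 24) (.e (nat_lit 319532) (nat_lit 16) (.e (nat_lit 286733) (nat_lit 2) (.e (nat_lit 90165) (nat_lit 12) (.e (nat_lit 164217) (nat_lit 178) (.e (nat_lit 123162) (nat_lit 256) .nil))))))) (.g (nat_lit 1) (.e (nat_lit 46436) (nat_lit 0) .nil) .nil))) 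
(.lf (nat_lit 458602) (.g (nat_lit 2394) (.e (nat_lit 2692) (nat_lit 169) (.e (nat_lit 213030) (nat_lit 11) (.e (nat_lit 24617) (nat_lit 7) (.e (nat_lit 319533) (nat_lit 16) (.e (nat_lit 286753) (nat_lit 10) .nil))))) (.g (nat_lit 0) (.e (nat_lit 47765) (nat_lit 0) .nil) .nil))))) (.nd (nat_lit 8) (.nd (nat_lit 9) 
(.lf (nat_lit 457962) (.g (nat_lit 2405) (.e (nat_lit 2684) (nat_lit 168) (.e (nat_lit 204869) (nat_lit 29) (.e (nat_lit 360475) (nat_lit 8) (.e (nat_lit 557086) (nat_lit 11) .nil)))) (.g (nat_lit 0) (.e (nat_lit 46144) (nat_lit 0) .nil) .nil))) 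
(.lf (nat_lit 458474) (.g (nat_lit 1358) (.e (nat_lit 2685) (nat_lit 168) (.e (nat_lit 204869) (nat_lit 29) (.e (nat_lit 360474) (nat_lit 8) (.e (nat_lit 557073) (nat_lit 9) .nil)))) (.g (nat_lit 0) (.e (nat_lit 47511) (nat_lit 0) .nil) .nil)))) (.nd (nat_lit 9) 
(.lf (nat_lit 458218) (.g (nat_lit 2593) (.e (nat_lit 2685) (nat_lit 168) (.e (nat_lit 204862) (nat_lit 27) (.e (nat_lit 344133) (nat_lit 26) (.e (nat_lit 557098) (nat_lit 13) (.e (nat_lit 172065) (nat_lit 3) .nil))))) (.g (nat_lit 0) (.e (nat_lit 46855) (nat_lit 0) .nil) .nil))) 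
(.lf (nat_lit 458730) (.g (nat_lit 3321) (.e (nat_lit 2725) (nat_lit 172) (.e (nat_lit 237587) (nat_lit 2) (.e (nat_lit 196666) (nat_lit 13) (.e (nat_lit 65617) (nat_lit 10) (.e (nat_lit 344130) (nat_lit 26) (.e (nat_lit 557089) (nat_lit 12) (.e (nat_lit 163844) (nat_lit 0) (.e (nat_lit 6254) (nat_lit 337) .nil)))))))) (.g (nat_lit 1) (.e (nat_lit 48342) (nat_lit 0) .nil) .nil)))))))) 
(.nd (nat_lit 5) (.nd (nat_lit 6) (.nd (nat_lit 7) (.nd (nat_lit 8) (.nd (nat_lit 9) 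
(.lf (nat_lit 457754) (.g (nat_lit 2960) (.e (nat_lit 2684) (nat_lit 168) (.e (nat_lit 204862) (nat_lit 27) (.e (nat_lit 344129) (nat_lit 26) (.e (nat_lit 557104) (nat_lit 14) (.e (nat_lit 180250) (nat_lit 10) .nil))))) (.g (nat_lit 0) (.e (nat_lit 45610) (nat_lit 0) .nil) .nil))) 
(.lf (nat_lit 458266) (.g (nat_lit 2265) (.e (nat_lit 2685) (nat_lit 168) (.e (nat_lit 204863) (nat_lit 27) (.e (nat_lit 344130) (nat_lit 26) (.e (nat_lit 557103) (nat_lit 14) (.e (nat_lit 180250) (nat_lit 10) .nil))))) (.g (nat_lit 0) (.e (nat_lit 46904) (nat_lit 0) .nil) .nil)))) (.nd (nat_lit 9) 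
(.lf (nat_lit 458010) (.g (nat_lit 5078) (.e (nat_lit 2684) (nat_lit 168) (.e (nat_lit 204869) (nat_lit 29) (.e (nat_lit 360475) (nat_lit 8) (.e (nat_lit 557091) (nat_lit 12) (.e (nat_lit 163847) (nat_lit 0) (.e (nat_lit 6420) (nat_lit 341) (.e (nat_lit 163850) (nat_lit 0) (.e (nat_lit 7936) (nat_lit 388) .nil)))))))) (.g (nat_lit 1) (.e (nat_lit 46202) (nat_lit 0) .nil) .nil))) 
(.lf (nat_lit 458522) (.g (nat_lit 3553) (.e (nat_lit 2685) (nat_lit 168) (.e (nat_lit 204869) (nat_lit 29) (.e (nat_lit 360475) (nat_lit 8) (.e (nat_lit 557087) (nat_lit 11) (.e (nat_lit 24591) (nat_lit 0) (.e (nat_lit 7936) (nat_lit 357) .nil)))))) (.g (nat_lit 1) (.e (nat_lit 47602) (nat_lit 0) .nil) .nil))))) (.nd (nat_lit 8) (.nd (nat_lit 9) 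
(.lf (nat_lit 457882) (.g (nat_lit 3786) (.e (nat_lit 2684) (nat_lit 168) (.e (nat_lit 204863) (nat_lit 27) (.e (nat_lit 344132) (nat_lit 26) (.e (nat_lit 557105) (nat_lit 14) (.e (nat_lit 180252) (nat_lit 10) (.e (nat_lit 573474) (nat_lit 12) (.e (nat_lit 57508) (nat_lit 39) (.e (nat_lit 655104) (nat_lit 0) .nil)))))))) (.g (nat_lit 1) (.e (nat_lit 45738) (nat_lit 0) .nil) .nil))) 
(.lf (nat_lit 458394) (.g (nat_lit 3342) (.e (nat_lit 2685) (nat_lit 168) (.e (nat_lit 204868) (nat_lit 29) (.e (nat_lit 360466) (nat_lit 3) (.e (nat_lit 516140) (nat_lit 8) (.e (nat_lit 417820) (nat_lit 10) (.e (nat_lit 5626) (nat_lit 312) .nil)))))) (.g (nat_lit 1) (.e (nat_lit 47206) (nat_lit 0) .nil) .nil)))) (.nd (nat_lit 9) 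
(.lf (nat_lit 458138) (.g (nat_lit 2592) (.e (nat_lit 2685) (nat_lit 168) (.e (nat_lit 204855) (nat_lit 26) (.e (nat_lit 336226) (nat_lit 14) (.e (nat_lit 401414) (nat_lit 0) (.e (nat_lit 3124) (nat_lit 193) (.e (nat_lit 500073) (nat_lit 19) (.e (nat_lit 81664) (nat_lit 32) .nil))))))) (.g (nat_lit 1) (.e (nat_lit 46730) (nat_lit 0) .nil) .nil))) 
(.lf (nat_lit 458650) (.g (nat_lit 1894) (.e (nat_lit 2700) (nat_lit 169) (.e (nat_lit 213030) (nat_lit 11) (.e (nat_lit 24608) (nat_lit 3) (.e (nat_lit 98373) (nat_lit 29) (.e (nat_lit 458496) (nat_lit 8) .nil))))) (.g (nat_lit 0) (.e (nat_lit 47884) (nat_lit 0) .nil) .nil)))))) (.nd (nat_lit 7) (.nd (nat_lit 8) (.nd (nat_lit 9) 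
(.lf (nat_lit 457818) (.g (nat_lit 4813) (.e (nat_lit 2684) (nat_lit 168) (.e (nat_lit 204862) (nat_lit 27) (.e (nat_lit 344133) (nat_lit 26) (.e (nat_lit 557105) (nat_lit 14) (.e (nat_lit 180252) (nat_lit 10) (.e (nat_lit 573474) (nat_lit 12) (.e (nat_lit 57506) (nat_lit 39) (.e (nat_lit 655104) (nat_lit 0) .nil)))))))) (.g (nat_lit 1) (.e (nat_lit 45674) (nat_lit 0) .nil) .nil))) 
(.lf (nat_lit 458330) (.g (nat_lit 3340) (.e (nat_lit 2685) (nat_lit 168) (.e (nat_lit 204863) (nat_lit 27) (.e (nat_lit 344133) (nat_lit 26) (.e (nat_lit 557103) (nat_lit 14) (.e (nat_lit 180250) (nat_lit 10) (.e (nat_lit 573473) (nat_lit 12) (.e (nat_lit 57508) (nat_lit 39) (.e (nat_lit 647168) (nat_lit 0) .nil)))))))) (.g (nat_lit 1) (.e (nat_lit 46968) (nat_lit 0) .nil) .nil)))) 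
(.nd (nat_lit 9) 
(.lf (nat_lit 458074) (.g (nat_lit 1504) (.e (nat_lit 2685) (nat_lit 168) (.e (nat_lit 204846) (nat_lit 24) (.e (nat_lit 319530) (nat_lit 16) (.e (nat_lit 286735) (nat_lit 3) .nil)))) (.g (nat_lit 0) (.e (nat_lit 46418) (nat_lit 0) .nil) .nil))) 
(.lf (nat_lit 458586) (.g (nat_lit 2839) (.e (nat_lit 2690) (nat_lit 169) (.e (nat_lit 213032) (nat_lit 11) (.e (nat_lit 24608) (nat_lit 3) (.e (nat_lit 98372) (nat_lit 29) (.e (nat_lit 458496) (nat_lit 8) .nil))))) (.g (nat_lit 0) (.e (nat_lit 47742) (nat_lit 0) .nil) .nil))))) (.nd (nat_lit 8) (.nd (nat_lit 9) 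
(.lf (nat_lit 457946) (.g (nat_lit 3835) (.e (nat_lit 2684) (nat_lit 168) (.e (nat_lit 204869) (nat_lit 29) (.e (nat_lit 360474) (nat_lit 8) (.e (nat_lit 557093) (nat_lit 12) (.e (nat_lit 163847) (nat_lit 0) (.e (nat_lit 6418) (nat_lit 341) (.e (nat_lit 163850) (nat_lit 0) (.e (nat_lit 7936) (nat_lit 388) .nil)))))))) (.g (nat_lit 1) (.e (nat_lit 46098) (nat_lit 0) .nil) .nil))) 
(.lf (nat_lit 458458) (.g (nat_lit 1034) (.e (nat_lit 2685) (nat_lit 168) (.e (nat_lit 204869) (nat_lit 29) (.e (nat_lit 360457) (nat_lit 0) .nil))) (.g (nat_lit 0) (.e (nat_lit 47445) (nat_lit 0) .nil) .nil)))) (.nd (nat_lit 9) 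
(.lf (nat_lit 458202) (.g (nat_lit 1904) (.e (nat_lit 2685) (nat_lit 168) (.e (nat_lit 204862) (nat_lit 27) (.e (nat_lit 344130) (nat_lit 26) (.e (nat_lit 557104) (nat_lit 14) (.e (nat_lit 188160) (nat_lit 3) .nil))))) (.g (nat_lit 0) (.e (nat_lit 46839) (nat_lit 0) .nil) .nil))) 
(.lf (nat_lit 458714) (.g (nat_lit 3072) (.e (nat_lit 2710) (nat_lit 170) (.e (nat_lit 221215) (nat_lit 23) (.e (nat_lit 204846) (nat_lit 24) (.e (nat_lit 319504) (nat_lit 10) (.e (nat_lit 618) (nat_lit 48) .nil))))) (.g (nat_lit 0) (.e (nat_lit 48167) (nat_lit 0) .nil) .nil))))))) (.nd (nat_lit 6) (.nd (nat_lit 7) (.nd (nat_lit 8) (.nd (nat_lit 9) 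
(.lf (nat_lit 457786) (.g (nat_lit 3879) (.e (nat_lit 2684) (nat_lit 168) (.e (nat_lit 204862) (nat_lit 27) (.e (nat_lit 344132) (nat_lit 26) (.e (nat_lit 557105) (nat_lit 14) (.e (nat_lit 180252) (nat_lit 10) (.e (nat_lit 573473) (nat_lit 12) (.e (nat_lit 57508) (nat_lit 39) (.e (nat_lit 655104) (nat_lit 0) .nil)))))))) (.g (nat_lit 1) (.e (nat_lit 45642) (nat_lit 0) .nil) .nil))) 
(.lf (nat_lit 458298) (.g (nat_lit 2860) (.e (nat_lit 2685) (nat_lit 168) (.e (nat_lit 204863) (nat_lit 27) (.e (nat_lit 344132) (nat_lit 26) (.e (nat_lit 557105) (nat_lit 14) (.e (nat_lit 180252) (nat_lit 10) (.e (nat_lit 573473) (nat_lit 12) (.e (nat_lit 57506) (nat_lit 39) (.e (nat_lit 647170) (nat_lit 0) .nil)))))))) (.g (nat_lit 1) (.e (nat_lit 46936) (nat_lit 0) .nil) .nil)))) 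
(.nd (nat_lit 9) 
(.lf (nat_lit 458042) (.g (nat_lit 2095) (.e (nat_lit 2685) (nat_lit 168) (.e (nat_lit 204837) (nat_lit 20) (.e (nat_lit 114714) (nat_lit 22) (.e (nat_lit 90174) (nat_lit 14) (.e (nat_lit 180243) (nat_lit 5) .nil))))) (.g (nat_lit 0) (.e (nat_lit 46282) (nat_lit 0) .nil) .nil))) 
(.lf (nat_lit 458554) (.g (nat_lit 1546) (.e (nat_lit 2685) (nat_lit 168) (.e (nat_lit 204877) (nat_lit 31) (.e (nat_lit 376865) (nat_lit 22) (.e (nat_lit 90174) (nat_lit 14) .nil)))) (.g (nat_lit 0) (.e (nat_lit 47645) (nat_lit 0) .nil) .nil))))) (.nd (nat_lit 8) (.nd (nat_lit 9) 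
(.lf (nat_lit 457914) (.g (nat_lit 2487) (.e (nat_lit 2684) (nat_lit 168) (.e (nat_lit 204868) (nat_lit 29) (.e (nat_lit 360473) (nat_lit 8) (.e (nat_lit 557087) (nat_lit 11) (.e (nat_lit 24584) (nat_lit 0) (.e (nat_lit 7936) (nat_lit 357) .nil)))))) (.g (nat_lit 1) (.e (nat_lit 45959) (nat_lit 0) .nil) .nil))) 
(.lf (nat_lit 458426) (.g (nat_lit 1573) (.e (nat_lit 2685) (nat_lit 168) (.e (nat_lit 204868) (nat_lit 29) (.e (nat_lit 360473) (nat_lit 8) (.e (nat_lit 557086) (nat_lit 11) (.e (nat_lit 24578) (nat_lit 0) .nil))))) (.g (nat_lit 0) (.e (nat_lit 47362) (nat_lit 0) .nil) .nil)))) (.nd (nat_lit 9) 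
(.lf (nat_lit 458170) (.g (nat_lit 2747) (.e (nat_lit 2685) (nat_lit 168) (.e (nat_lit 204862) (nat_lit 27) (.e (nat_lit 344129) (nat_lit 26) (.e (nat_lit 557103) (nat_lit 14) (.e (nat_lit 188160) (nat_lit 3) .nil))))) (.g (nat_lit 0) (.e (nat_lit 46807) (nat_lit 0) .nil) .nil))) 
(.lf (nat_lit 458682) (.g (nat_lit 2021) (.e (nat_lit 2706) (nat_lit 170) (.e (nat_lit 221214) (nat_lit 23) (.e (nat_lit 204863) (nat_lit 27) (.e (nat_lit 344118) (nat_lit 21) (.e (nat_lit 516115) (nat_lit 1) (.e (nat_lit 164177) (nat_lit 154) (.e (nat_lit 57371) (nat_lit 2) (.e (nat_lit 90128) (nat_lit 9) .nil)))))))) (.g (nat_lit 1) (.e (nat_lit 48022) (nat_lit 0) .nil) .nil)))))) 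
(.nd (nat_lit 7) (.nd (nat_lit 8) (.nd (nat_lit 9) 
(.lf (nat_lit 457850) (.g (nat_lit 3176) (.e (nat_lit 2684) (nat_lit 168) (.e (nat_lit 204863) (nat_lit 27) (.e (nat_lit 344130) (nat_lit 26) (.e (nat_lit 557103) (nat_lit 14) (.e (nat_lit 180250) (nat_lit 10) (.e (nat_lit 573473) (nat_lit 12) (.e (nat_lit 57508) (nat_lit 39) (.e (nat_lit 655104) (nat_lit 0) .nil)))))))) (.g (nat_lit 1) (.e (nat_lit 45706) (nat_lit 0) .nil) .nil))) 
(.lf (nat_lit 458362) (.g (nat_lit 1980) (.e (nat_lit 2685) (nat_lit 168) (.e (nat_lit 204864) (nat_lit 27) (.e (nat_lit 344133) (nat_lit 26) (.e (nat_lit 557096) (nat_lit 13) (.e (nat_lit 172067) (nat_lit 3) .nil))))) (.g (nat_lit 0) (.e (nat_lit 47000) (nat_lit 0) .nil) .nil)))) (.nd (nat_lit 9) 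
(.lf (nat_lit 458106) (.g (nat_lit 3123) (.e (nat_lit 2685) (nat_lit 168) (.e (nat_lit 204846) (nat_lit 24) (.e (nat_lit 319533) (nat_lit 16) (.e (nat_lit 286734) (nat_lit 3) (.e (nat_lit 98366) (nat_lit 27) (.e (nat_lit 442112) (nat_lit 8) .nil)))))) (.g (nat_lit 1) (.e (nat_lit 46456) (nat_lit 0) .nil) .nil))) 
(.lf (nat_lit 458618) (.g (nat_lit 2095) (.e (nat_lit 2695) (nat_lit 169) (.e (nat_lit 213032) (nat_lit 11) (.e (nat_lit 24604) (nat_lit 2) (.e (nat_lit 90176) (nat_lit 15) .nil)))) (.g (nat_lit 0) (.e (nat_lit 47789) (nat_lit 0) .nil) .nil))))) (.nd (nat_lit 8) (.nd (nat_lit 9) 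
(.lf (nat_lit 457978) (.g (nat_lit 3091) (.e (nat_lit 2684) (nat_lit 168) (.e (nat_lit 204869) (nat_lit 29) (.e (nat_lit 360475) (nat_lit 8) (.e (nat_lit 557087) (nat_lit 11) (.e (nat_lit 24587) (nat_lit 0) .nil))))) (.g (nat_lit 0) (.e (nat_lit 46160) (nat_lit 0) .nil) .nil))) 
(.lf (nat_lit 458490) (.g (nat_lit 2750) (.e (nat_lit 2685) (nat_lit 168) (.e (nat_lit 204869) (nat_lit 29) (.e (nat_lit 360475) (nat_lit 8) (.e (nat_lit 557066) (nat_lit 9) (.e (nat_lit 304) (nat_lit 22) .nil))))) (.g (nat_lit 0) (.e (nat_lit 47541) (nat_lit 0) .nil) .nil)))) (.nd (nat_lit 9) 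
(.lf (nat_lit 458234) (.g (nat_lit 4639) (.e (nat_lit 2685) (nat_lit 168) (.e (nat_lit 204862) (nat_lit 27) (.e (nat_lit 344133) (nat_lit 26) (.e (nat_lit 557105) (nat_lit 14) (.e (nat_lit 180252) (nat_lit 10) (.e (nat_lit 573474) (nat_lit 12) (.e (nat_lit 57507) (nat_lit 39) (.e (nat_lit 647170) (nat_lit 0) .nil)))))))) (.g (nat_lit 1) (.e (nat_lit 46871) (nat_lit 0) .nil) .nil))) 
(.lf (nat_lit 458746) (.g (nat_lit 3617) (.e (nat_lit 2725) (nat_lit 172) (.e (nat_lit 237587) (nat_lit 2) (.e (nat_lit 196666) (nat_lit 13) (.e (nat_lit 65617) (nat_lit 10) (.e (nat_lit 344132) (nat_lit 26) (.e (nat_lit 557093) (nat_lit 12) (.e (nat_lit 163849) (nat_lit 0) (.e (nat_lit 6255) (nat_lit 337) .nil)))))))) (.g (nat_lit 1) (.e (nat_lit 48358) (nat_lit 0) .nil) .nil)))))))))) 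
(.nd (nat_lit 3) (.nd (nat_lit 4) (.nd (nat_lit 5) (.nd (nat_lit 6) (.nd (nat_lit 7) 
(.nd (nat_lit 8) (.nd (nat_lit 9) 
(.lf (nat_lit 457734) (.g (nat_lit 1871) (.e (nat_lit 2684) (nat_lit 168) (.e (nat_lit 204862) (nat_lit 27) (.e (nat_lit 344117) (nat_lit 21) (.e (nat_lit 516130) (nat_lit 3) (.e (nat_lit 221212) (nat_lit 22) .nil))))) (.g (nat_lit 0) (.e (nat_lit 45590) (nat_lit 0) .nil) .nil))) 
(.lf (nat_lit 458246) (.g (nat_lit 696) (.e (nat_lit 2685) (nat_lit 168) (.e (nat_lit 204863) (nat_lit 27) (.e (nat_lit 344129) (nat_lit 26) .nil))) (.g (nat_lit 0) (.e (nat_lit 46883) (nat_lit 0) .nil) .nil)))) (.nd (nat_lit 9) 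
(.lf (nat_lit 457990) (.g (nat_lit 5283) (.e (nat_lit 2684) (nat_lit 168) (.e (nat_lit 204869) (nat_lit 29) (.e (nat_lit 360475) (nat_lit 8) (.e (nat_lit 557089) (nat_lit 12) (.e (nat_lit 163844) (nat_lit 0) (.e (nat_lit 6420) (nat_lit 341) (.e (nat_lit 163850) (nat_lit 0) (.e (nat_lit 7936) (nat_lit 388) .nil)))))))) (.g (nat_lit 1) (.e (nat_lit 46174) (nat_lit 0) .nil) .nil))) 
(.lf (nat_lit 458502) (.g (nat_lit 2600) (.e (nat_lit 2685) (nat_lit 168) (.e (nat_lit 204869) (nat_lit 29) (.e (nat_lit 360475) (nat_lit 8) (.e (nat_lit 557086) (nat_lit 11) (.e (nat_lit 24578) (nat_lit 0) .nil))))) (.g (nat_lit 0) (.e (nat_lit 47582) (nat_lit 0) .nil) .nil))))) (.nd (nat_lit 8) (.nd (nat_lit 9) 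
(.lf (nat_lit 457862) (.g (nat_lit 3527) (.e (nat_lit 2684) (nat_lit 168) (.e (nat_lit 204863) (nat_lit 27) (.e (nat_lit 344131) (nat_lit 26) (.e (nat_lit 557105) (nat_lit 14) (.e (nat_lit 180252) (nat_lit 10) (.e (nat_lit 573473) (nat_lit 12) (.e (nat_lit 57508) (nat_lit 39) (.e (nat_lit 655104) (nat_lit 0) .nil)))))))) (.g (nat_lit 1) (.e (nat_lit 45718) (nat_lit 0) .nil) .nil))) 
(.lf (nat_lit 458374) (.g (nat_lit 1326) (.e (nat_lit 2685) (nat_lit 168) (.e (nat_lit 204868) (nat_lit 29) (.e (nat_lit 360452) (nat_lit 0) (.e (nat_lit 3946) (nat_lit 239) .nil)))) (.g (nat_lit 0) (.e (nat_lit 47166) (nat_lit 0) .nil) .nil)))) (.nd (nat_lit 9) 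
(.lf (nat_lit 458118) (.g (nat_lit 2379) (.e (nat_lit 2685) (nat_lit 168) (.e (nat_lit 204846) (nat_lit 24) (.e (nat_lit 319534) (nat_lit 16) (.e (nat_lit 286735) (nat_lit 3) (.e (nat_lit 98323) (nat_lit 17) .nil))))) (.g (nat_lit 0) (.e (nat_lit 46471) (nat_lit 0) .nil) .nil))) 
(.lf (nat_lit 458630) (.g (nat_lit 2658) (.e (nat_lit 2696) (nat_lit 169) (.e (nat_lit 213032) (nat_lit 11) (.e (nat_lit 24604) (nat_lit 2) (.e (nat_lit 90185) (nat_lit 17) .nil)))) (.g (nat_lit 0) (.e (nat_lit 47812) (nat_lit 0) .nil) .nil)))))) (.nd (nat_lit 7) (.nd (nat_lit 8) (.nd (nat_lit 9) 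
(.lf (nat_lit 457798) (.g (nat_lit 2178) (.e (nat_lit 2684) (nat_lit 168) (.e (nat_lit 204862) (nat_lit 27) (.e (nat_lit 344133) (nat_lit 26) (.e (nat_lit 557103) (nat_lit 14) (.e (nat_lit 180250) (nat_lit 10) (.e (nat_lit 573473) (nat_lit 12) (.e (nat_lit 57507) (nat_lit 39) (.e (nat_lit 647176) (nat_lit 0) .nil)))))))) (.g (nat_lit 1) (.e (nat_lit 45654) (nat_lit 0) .nil) .nil))) 
(.lf (nat_lit 458310) (.g (nat_lit 3838) (.e (nat_lit 2685) (nat_lit 168) (.e (nat_lit 204863) (nat_lit 27) (.e (nat_lit 344132) (nat_lit 26) (.e (nat_lit 557105) (nat_lit 14) (.e (nat_lit 180252) (nat_lit 10) (.e (nat_lit 573475) (nat_lit 12) (.e (nat_lit 57508) (nat_lit 39) (.e (nat_lit 647168) (nat_lit 0) .nil)))))))) (.g (nat_lit 1) (.e (nat_lit 46948) (nat_lit 0) .nil) .nil)))) 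
(.nd (nat_lit 9) 
(.lf (nat_lit 458054) (.g (nat_lit 2523) (.e (nat_lit 2685) (nat_lit 168) (.e (nat_lit 204837) (nat_lit 20) (.e (nat_lit 114716) (nat_lit 22) (.e (nat_lit 90174) (nat_lit 14) (.e (nat_lit 180243) (nat_lit 5) (.e (nat_lit 532504) (nat_lit 1) (.e (nat_lit 57651) (nat_lit 152) (.e (nat_lit 2399) (nat_lit 157) .nil)))))))) (.g (nat_lit 1) (.e (nat_lit 46296) (nat_lit 0) .nil) .nil))) 
(.lf (nat_lit 458566) (.g (nat_lit 3312) (.e (nat_lit 2686) (nat_lit 169) (.e (nat_lit 213032) (nat_lit 11) (.e (nat_lit 24604) (nat_lit 2) (.e (nat_lit 90178) (nat_lit 15) (.e (nat_lit 188441) (nat_lit 20) .nil))))) (.g (nat_lit 0) (.e (nat_lit 47709) (nat_lit 0) .nil) .nil))))) (.nd (nat_lit 8) (.nd (nat_lit 9) 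
(.lf (nat_lit 457926) (.g (nat_lit 3662) (.e (nat_lit 2684) (nat_lit 168) (.e (nat_lit 204869) (nat_lit 29) (.e (nat_lit 360474) (nat_lit 8) (.e (nat_lit 557089) (nat_lit 12) (.e (nat_lit 163843) (nat_lit 0) (.e (nat_lit 6420) (nat_lit 341) (.e (nat_lit 163850) (nat_lit 0) (.e (nat_lit 7936) (nat_lit 388) .nil)))))))) (.g (nat_lit 1) (.e (nat_lit 46073) (nat_lit 0) .nil) .nil))) 
(.lf (nat_lit 458438) (.g (nat_lit 4325) (.e (nat_lit 2685) (nat_lit 168) (.e (nat_lit 204868) (nat_lit 29) (.e (nat_lit 360475) (nat_lit 8) (.e (nat_lit 557067) (nat_lit 9) (.e (nat_lit 214) (nat_lit 19) .nil))))) (.g (nat_lit 0) (.e (nat_lit 47384) (nat_lit 0) .nil) .nil)))) (.nd (nat_lit 9) 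
(.lf (nat_lit 458182) (.g (nat_lit 2832) (.e (nat_lit 2685) (nat_lit 168) (.e (nat_lit 204862) (nat_lit 27) (.e (nat_lit 344129) (nat_lit 26) (.e (nat_lit 557104) (nat_lit 14) (.e (nat_lit 180252) (nat_lit 10) .nil))))) (.g (nat_lit 0) (.e (nat_lit 46819) (nat_lit 0) .nil) .nil))) 
(.lf (nat_lit 458694) (.g (nat_lit 2699) (.e (nat_lit 2706) (nat_lit 170) (.e (nat_lit 221215) (nat_lit 23) (.e (nat_lit 204862) (nat_lit 27) (.e (nat_lit 344118) (nat_lit 21) (.e (nat_lit 516119) (nat_lit 1) (.e (nat_lit 164179) (nat_lit 154) (.e (nat_lit 57371) (nat_lit 2) (.e (nat_lit 90128) (nat_lit 9) .nil)))))))) (.g (nat_lit 1) (.e (nat_lit 48053) (nat_lit 0) .nil) .nil))))))) 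
(.nd (nat_lit 6) (.nd (nat_lit 7) (.nd (nat_lit 8) (.nd (nat_lit 9) 
(.lf (nat_lit 457766) (.g (nat_lit 3897) (.e (nat_lit 2684) (nat_lit 168) (.e (nat_lit 204862) (nat_lit 27) (.e (nat_lit 344130) (nat_lit 26) (.e (nat_lit 557103) (nat_lit 14) (.e (nat_lit 180250) (nat_lit 10) (.e (nat_lit 573473) (nat_lit 12) (.e (nat_lit 57508) (nat_lit 39) (.e (nat_lit 655104) (nat_lit 0) .nil)))))))) (.g (nat_lit 1) (.e (nat_lit 45622) (nat_lit 0) .nil) .nil))) 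
(.lf (nat_lit 458278) (.g (nat_lit 2233) (.e (nat_lit 2685) (nat_lit 168) (.e (nat_lit 204863) (nat_lit 27) (.e (nat_lit 344131) (nat_lit 26) (.e (nat_lit 557103) (nat_lit 14) (.e (nat_lit 180250) (nat_lit 10) (.e (nat_lit 573473) (nat_lit 12) (.e (nat_lit 57508) (nat_lit 39) (.e (nat_lit 647168) (nat_lit 0) .nil)))))))) (.g (nat_lit 1) (.e (nat_lit 46916) (nat_lit 0) .nil) .nil)))) 
(.nd (nat_lit 9) 
(.lf (nat_lit 458022) (.g (nat_lit 1965) (.e (nat_lit 2685) (nat_lit 168) (.e (nat_lit 204808) (nat_lit 9) (.e (nat_lit 426190) (nat_lit 9) (.e (nat_lit 426566) (nat_lit 34) (.e (nat_lit 393252) (nat_lit 18) (.e (nat_lit 164305) (nat_lit 226) (.e (nat_lit 2433) (nat_lit 157) .nil))))))) (.g (nat_lit 1) (.e (nat_lit 46241) (nat_lit 0) .nil) .nil))) 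
(.lf (nat_lit 458534) (.g (nat_lit 3730) (.e (nat_lit 2685) (nat_lit 168) (.e (nat_lit 204869) (nat_lit 29) (.e (nat_lit 360475) (nat_lit 8) (.e (nat_lit 557089) (nat_lit 12) (.e (nat_lit 163848) (nat_lit 0) (.e (nat_lit 6418) (nat_lit 341) (.e (nat_lit 163850) (nat_lit 0) (.e (nat_lit 7936) (nat_lit 388) .nil)))))))) (.g (nat_lit 1) (.e (nat_lit 47614) (nat_lit 0) .nil) .nil))))) 
(.nd (nat_lit 8) (.nd (nat_lit 9) 
(.lf (nat_lit 457894) (.g (nat_lit 3160) (.e (nat_lit 2684) (nat_lit 168) (.e (nat_lit 204863) (nat_lit 27) (.e (nat_lit 344133) (nat_lit 26) (.e (nat_lit 557103) (nat_lit 14) (.e (nat_lit 180250) (nat_lit 10) (.e (nat_lit 573477) (nat_lit 12) (.e (nat_lit 57511) (nat_lit 39) (.e (nat_lit 655104) (nat_lit 0) .nil)))))))) (.g (nat_lit 1) (.e (nat_lit 45750) (nat_lit 0) .nil) .nil))) 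
(.lf (nat_lit 458406) (.g (nat_lit 2256) (.e (nat_lit 2685) (nat_lit 168) (.e (nat_lit 204868) (nat_lit 29) (.e (nat_lit 360466) (nat_lit 3) (.e (nat_lit 516142) (nat_lit 8) (.e (nat_lit 417818) (nat_lit 10) (.e (nat_lit 5612) (nat_lit 312) .nil)))))) (.g (nat_lit 1) (.e (nat_lit 47219) (nat_lit 0) .nil) .nil)))) (.nd (nat_lit 9) 
(.lf (nat_lit 458150) (.g (nat_lit 1968) (.e (nat_lit 2685) (nat_lit 168) (.e (nat_lit 204862) (nat_lit 27) (.e (nat_lit 344117) (nat_lit 21) (.e (nat_lit 516130) (nat_lit 3) (.e (nat_lit 221215) (nat_lit 23) .nil))))) (.g (nat_lit 0) (.e (nat_lit 46785) (nat_lit 0) .nil) .nil))) 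
(.lf (nat_lit 458662) (.g (nat_lit 1842) (.e (nat_lit 2700) (nat_lit 169) (.e (nat_lit 213032) (nat_lit 11) (.e (nat_lit 24607) (nat_lit 3) (.e (nat_lit 98365) (nat_lit 26) .nil)))) (.g (nat_lit 0) (.e (nat_lit 47898) (nat_lit 0) .nil) .nil)))))) (.nd (nat_lit 7) (.nd (nat_lit 8) (.nd (nat_lit 9) 
(.lf (nat_lit 457830) (.g (nat_lit 2113) (.e (nat_lit 2684) (nat_lit 168) (.e (nat_lit 204863) (nat_lit 27) (.e (nat_lit 344118) (nat_lit 21) (.e (nat_lit 516129) (nat_lit 3) (.e (nat_lit 221210) (nat_lit 22) (.e (nat_lit 196658) (nat_lit 12) (.e (nat_lit 57508) (nat_lit 39) (.e (nat_lit 647175) (nat_lit 0) .nil)))))))) (.g (nat_lit 1) (.e (nat_lit 45686) (nat_lit 0) .nil) .nil))) 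
(.lf (nat_lit 458342) (.g (nat_lit 4041) (.e (nat_lit 2685) (nat_lit 168) (.e (nat_lit 204863) (nat_lit 27) (.e (nat_lit 344133) (nat_lit 26) (.e (nat_lit 557105) (nat_lit 14) (.e (nat_lit 180252) (nat_lit 10) (.e (nat_lit 573474) (nat_lit 12) (.e (nat_lit 57347) (nat_lit 0) (.e (nat_lit 5438) (nat_lit 306) (.e (nat_lit 2433) (nat_lit 157) .nil))))))))) (.g (nat_lit 1) (.e (nat_lit 46980) (nat_lit 0) .nil) .nil)))) 
(.nd (nat_lit 9) 
(.lf (nat_lit 458086) (.g (nat_lit 2544) (.e (nat_lit 2685) (nat_lit 168) (.e (nat_lit 204846) (nat_lit 24) (.e (nat_lit 319531) (nat_lit 16) (.e (nat_lit 286735) (nat_lit 3) (.e (nat_lit 98363) (nat_lit 26) .nil))))) (.g (nat_lit 0) (.e (nat_lit 46431) (nat_lit 0) .nil) .nil))) 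
(.lf (nat_lit 458598) (.g (nat_lit 1354) (.e (nat_lit 2692) (nat_lit 169) (.e (nat_lit 213030) (nat_lit 11) (.e (nat_lit 24609) (nat_lit 3) (.e (nat_lit 98374) (nat_lit 29) (.e (nat_lit 458496) (nat_lit 8) .nil))))) (.g (nat_lit 0) (.e (nat_lit 47761) (nat_lit 0) .nil) .nil))))) (.nd (nat_lit 8) (.nd (nat_lit 9) 
(.lf (nat_lit 457958) (.g (nat_lit 4182) (.e (nat_lit 2684) (nat_lit 168) (.e (nat_lit 204869) (nat_lit 29) (.e (nat_lit 360474) (nat_lit 8) (.e (nat_lit 557094) (nat_lit 12) (.e (nat_lit 163848) (nat_lit 0) (.e (nat_lit 6418) (nat_lit 341) (.e (nat_lit 163850) (nat_lit 0) (.e (nat_lit 7936) (nat_lit 388) .nil)))))))) (.g (nat_lit 1) (.e (nat_lit 46114) (nat_lit 0) .nil) .nil))) 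
(.lf (nat_lit 458470) (.g (nat_lit 2412) (.e (nat_lit 2685) (nat_lit 168) (.e (nat_lit 204869) (nat_lit 29) (.e (nat_lit 360474) (nat_lit 8) (.e (nat_lit 557070) (nat_lit 9) (.e (nat_lit 7936) (nat_lit 22) .nil))))) (.g (nat_lit 0) (.e (nat_lit 47496) (nat_lit 0) .nil) .nil)))) (.nd (nat_lit 9) 
(.lf (nat_lit 458214) (.g (nat_lit 3008) (.e (nat_lit 2685) (nat_lit 168) (.e (nat_lit 204862) (nat_lit 27) (.e (nat_lit 344132) (nat_lit 26) (.e (nat_lit 557105) (nat_lit 14) (.e (nat_lit 180252) (nat_lit 10) (.e (nat_lit 573473) (nat_lit 12) (.e (nat_lit 57508) (nat_lit 39) (.e (nat_lit 647168) (nat_lit 0) .nil)))))))) (.g (nat_lit 1) (.e (nat_lit 46851) (nat_lit 0) .nil) .nil))) 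
(.lf (nat_lit 458726) (.g (nat_lit 3425) (.e (nat_lit 2725) (nat_lit 172) (.e (nat_lit 237587) (nat_lit 2) (.e (nat_lit 196666) (nat_lit 13) (.e (nat_lit 65610) (nat_lit 10) (.e (nat_lit 344129) (nat_lit 26) (.e (nat_lit 557089) (nat_lit 12) (.e (nat_lit 163844) (nat_lit 0) (.e (nat_lit 6255) (nat_lit 337) .nil)))))))) (.g (nat_lit 1) (.e (nat_lit 48338) (nat_lit 0) .nil) .nil)))))))) 
(.nd (nat_lit 5) (.nd (nat_lit 6) (.nd (nat_lit 7) (.nd (nat_lit 8) (.nd (nat_lit 9) 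
(.lf (nat_lit 457750) (.g (nat_lit 4222) (.e (nat_lit 2684) (nat_lit 168) (.e (nat_lit 204862) (nat_lit 27) (.e (nat_lit 344129) (nat_lit 26) (.e (nat_lit 557103) (nat_lit 14) (.e (nat_lit 180250) (nat_lit 10) (.e (nat_lit 573478) (nat_lit 12) (.e (nat_lit 57509) (nat_lit 39) (.e (nat_lit 655104) (nat_lit 0) .nil)))))))) (.g (nat_lit 1) (.e (nat_lit 45606) (nat_lit 0) .nil) .nil))) 
(.lf (nat_lit 458262) (.g (nat_lit 3075) (.e (nat_lit 2685) (nat_lit 168) (.e (nat_lit 204863) (nat_lit 27) (.e (nat_lit 344130) (nat_lit 26) (.e (nat_lit 557097) (nat_lit 13) (.e (nat_lit 172065) (nat_lit 3) (.e (nat_lit 204821) (nat_lit 17) (.e (nat_lit 2391) (nat_lit 156) (.e (nat_lit 819204) (nat_lit 0) .nil)))))))) (.g (nat_lit 1) (.e (nat_lit 46900) (nat_lit 0) .nil) .nil)))) 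
(.nd (nat_lit 9) 
(.lf (nat_lit 458006) (.g (nat_lit 4612) (.e (nat_lit 2684) (nat_lit 168) (.e (nat_lit 204869) (nat_lit 29) (.e (nat_lit 360475) (nat_lit 8) (.e (nat_lit 557091) (nat_lit 12) (.e (nat_lit 163844) (nat_lit 0) (.e (nat_lit 6418) (nat_lit 341) (.e (nat_lit 163850) (nat_lit 0) (.e (nat_lit 7936) (nat_lit 388) .nil)))))))) (.g (nat_lit 1) (.e (nat_lit 46198) (nat_lit 0) .nil) .nil))) 
(.lf (nat_lit 458518) (.g (nat_lit 3199) (.e (nat_lit 2685) (nat_lit 168) (.e (nat_lit 204869) (nat_lit 29) (.e (nat_lit 360475) (nat_lit 8) (.e (nat_lit 557087) (nat_lit 11) (.e (nat_lit 24587) (nat_lit 0) .nil))))) (.g (nat_lit 0) (.e (nat_lit 47598) (nat_lit 0) .nil) .nil))))) (.nd (nat_lit 8) (.nd (nat_lit 9) 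
(.lf (nat_lit 457878) (.g (nat_lit 4026) (.e (nat_lit 2684) (nat_lit 168) (.e (nat_lit 204863) (nat_lit 27) (.e (nat_lit 344132) (nat_lit 26) (.e (nat_lit 557105) (nat_lit 14) (.e (nat_lit 180252) (nat_lit 10) (.e (nat_lit 573473) (nat_lit 12) (.e (nat_lit 57508) (nat_lit 39) (.e (nat_lit 655104) (nat_lit 0) .nil)))))))) (.g (nat_lit 1) (.e (nat_lit 45734) (nat_lit 0) .nil) .nil))) 
(.lf (nat_lit 458390) (.g (nat_lit 3514) (.e (nat_lit 2685) (nat_lit 168) (.e (nat_lit 204868) (nat_lit 29) (.e (nat_lit 360466) (nat_lit 3) (.e (nat_lit 516139) (nat_lit 7) (.e (nat_lit 409616) (nat_lit 10) (.e (nat_lit 5627) (nat_lit 312) .nil)))))) (.g (nat_lit 1) (.e (nat_lit 47201) (nat_lit 0) .nil) .nil)))) (.nd (nat_lit 9) 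
(.lf (nat_lit 458134) (.g (nat_lit 339) (.e (nat_lit 2685) (nat_lit 168) (.e (nat_lit 204855) (nat_lit 26) (.e (nat_lit 336176) (nat_lit 10) .nil))) (.g (nat_lit 0) (.e (nat_lit 46556) (nat_lit 0) .nil) .nil))) 
(.lf (nat_lit 458646) (.g (nat_lit 3399) (.e (nat_lit 2699) (nat_lit 169) (.e (nat_lit 213030) (nat_lit 11) (.e (nat_lit 24617) (nat_lit 7) (.e (nat_lit 319534) (nat_lit 16) (.e (nat_lit 286756) (nat_lit 10) (.e (nat_lit 344168) (nat_lit 40) (.e (nat_lit 671774) (nat_lit 9) .nil))))))) (.g (nat_lit 1) (.e (nat_lit 47859) (nat_lit 0) .nil) .nil)))))) 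
(.nd (nat_lit 7) (.nd (nat_lit 8) (.nd (nat_lit 9) 
(.lf (nat_lit 457814) (.g (nat_lit 3835) (.e (nat_lit 2684) (nat_lit 168) (.e (nat_lit 204862) (nat_lit 27) (.e (nat_lit 344133) (nat_lit 26) (.e (nat_lit 557105) (nat_lit 14) (.e (nat_lit 180251) (nat_lit 10) (.e (nat_lit 573477) (nat_lit 12) (.e (nat_lit 57511) (nat_lit 39) (.e (nat_lit 655104) (nat_lit 0) .nil)))))))) (.g (nat_lit 1) (.e (nat_lit 45670) (nat_lit 0) .nil) .nil))) 
(.lf (nat_lit 458326) (.g (nat_lit 2553) (.e (nat_lit 2685) (nat_lit 168) (.e (nat_lit 204863) (nat_lit 27) (.e (nat_lit 344133) (nat_lit 26) (.e (nat_lit 557103) (nat_lit 14) (.e (nat_lit 188160) (nat_lit 3) .nil))))) (.g (nat_lit 0) (.e (nat_lit 46964) (nat_lit 0) .nil) .nil)))) (.nd (nat_lit 9) 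
(.lf (nat_lit 458070) (.g (nat_lit 1235) (.e (nat_lit 2685) (nat_lit 168) (.e (nat_lit 204846) (nat_lit 24) (.e (nat_lit 319529) (nat_lit 16) (.e (nat_lit 286735) (nat_lit 3) .nil)))) (.g (nat_lit 0) (.e (nat_lit 46411) (nat_lit 0) .nil) .nil))) 
(.lf (nat_lit 458582) (.g (nat_lit 1338) (.e (nat_lit 2690) (nat_lit 169) (.e (nat_lit 213032) (nat_lit 11) (.e (nat_lit 24604) (nat_lit 2) .nil))) (.g (nat_lit 0) (.e (nat_lit 47738) (nat_lit 0) .nil) .nil))))) (.nd (nat_lit 8) (.nd (nat_lit 9) 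
(.lf (nat_lit 457942) (.g (nat_lit 3589) (.e (nat_lit 2684) (nat_lit 168) (.e (nat_lit 204869) (nat_lit 29) (.e (nat_lit 360474) (nat_lit 8) (.e (nat_lit 557091) (nat_lit 12) (.e (nat_lit 163847) (nat_lit 0) .nil))))) (.g (nat_lit 0) (.e (nat_lit 46091) (nat_lit 0) .nil) .nil))) 
(.lf (nat_lit 458454) (.g (nat_lit 3414) (.e (nat_lit 2685) (nat_lit 168) (.e (nat_lit 204868) (nat_lit 29) (.e (nat_lit 360475) (nat_lit 8) (.e (nat_lit 557087) (nat_lit 11) (.e (nat_lit 24593) (nat_lit 0) .nil))))) (.g (nat_lit 0) (.e (nat_lit 47422) (nat_lit 0) .nil) .nil)))) (.nd (nat_lit 9) 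
(.lf (nat_lit 458198) (.g (nat_lit 3252) (.e (nat_lit 2685) (nat_lit 168) (.e (nat_lit 204862) (nat_lit 27) (.e (nat_lit 344130) (nat_lit 26) (.e (nat_lit 557103) (nat_lit 14) (.e (nat_lit 180250) (nat_lit 10) (.e (nat_lit 573473) (nat_lit 12) (.e (nat_lit 57508) (nat_lit 39) (.e (nat_lit 647170) (nat_lit 0) .nil)))))))) (.g (nat_lit 1) (.e (nat_lit 46835) (nat_lit 0) .nil) .nil))) 
(.lf (nat_lit 458710) (.g (nat_lit 1311) (.e (nat_lit 2710) (nat_lit 170) (.e (nat_lit 221207) (nat_lit 21) (.e (nat_lit 164345) (nat_lit 240) (.e (nat_lit 2640) (nat_lit 165) (.e (nat_lit 188160) (nat_lit 35) .nil))))) (.g (nat_lit 0) (.e (nat_lit 48129) (nat_lit 0) .nil) .nil))))))) (.nd (nat_lit 6) (.nd (nat_lit 7) (.nd (nat_lit 8) (.nd (nat_lit 9) 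
(.lf (nat_lit 457782) (.g (nat_lit 2239) (.e (nat_lit 2684) (nat_lit 168) (.e (nat_lit 204862) (nat_lit 27) (.e (nat_lit 344132) (nat_lit 26) (.e (nat_lit 557105) (nat_lit 14) (.e (nat_lit 180252) (nat_lit 10) (.e (nat_lit 573473) (nat_lit 12) (.e (nat_lit 57507) (nat_lit 39) (.e (nat_lit 647176) (nat_lit 0) .nil)))))))) (.g (nat_lit 1) (.e (nat_lit 45638) (nat_lit 0) .nil) .nil))) 
(.lf (nat_lit 458294) (.g (nat_lit 3521) (.e (nat_lit 2685) (nat_lit 168) (.e (nat_lit 204863) (nat_lit 27) (.e (nat_lit 344132) (nat_lit 26) (.e (nat_lit 557101) (nat_lit 13) (.e (nat_lit 172067) (nat_lit 3) (.e (nat_lit 204821) (nat_lit 17) (.e (nat_lit 2391) (nat_lit 156) (.e (nat_lit 819204) (nat_lit 0) .nil)))))))) (.g (nat_lit 1) (.e (nat_lit 46932) (nat_lit 0) .nil) .nil)))) 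
(.nd (nat_lit 9) 
(.lf (nat_lit 458038) (.g (nat_lit 2624) (.e (nat_lit 2685) (nat_lit 168) (.e (nat_lit 204837) (nat_lit 20) (.e (nat_lit 114714) (nat_lit 22) (.e (nat_lit 90172) (nat_lit 14) (.e (nat_lit 180244) (nat_lit 5) (.e (nat_lit 532501) (nat_lit 1) (.e (nat_lit 57663) (nat_lit 152) (.e (nat_lit 2450) (nat_lit 157) .nil)))))))) (.g (nat_lit 1) (.e (nat_lit 46278) (nat_lit 0) .nil) .nil))) 
(.lf (nat_lit 458550) (.g (nat_lit 4625) (.e (nat_lit 2685) (nat_lit 168) (.e (nat_lit 204869) (nat_lit 29) (.e (nat_lit 360475) (nat_lit 8) (.e (nat_lit 557091) (nat_lit 12) (.e (nat_lit 163849) (nat_lit 0) (.e (nat_lit 6420) (nat_lit 341) (.e (nat_lit 163843) (nat_lit 0) (.e (nat_lit 7936) (nat_lit 388) .nil)))))))) (.g (nat_lit 1) (.e (nat_lit 47632) (nat_lit 0) .nil) .nil))))) 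
(.nd (nat_lit 8) (.nd (nat_lit 9) 
(.lf (nat_lit 457910) (.g (nat_lit 1011) (.e (nat_lit 2684) (nat_lit 168) (.e (nat_lit 204868) (nat_lit 29) (.e (nat_lit 360473) (nat_lit 8) (.e (nat_lit 557086) (nat_lit 11) .nil)))) (.g (nat_lit 0) (.e (nat_lit 45954) (nat_lit 0) .nil) .nil))) 
(.lf (nat_lit 458422) (.g (nat_lit 3364) (.e (nat_lit 2685) (nat_lit 168) (.e (nat_lit 204868) (nat_lit 29) (.e (nat_lit 360473) (nat_lit 8) (.e (nat_lit 557068) (nat_lit 9) (.e (nat_lit 214) (nat_lit 19) (.e (nat_lit 319490) (nat_lit 0) (.e (nat_lit 5626) (nat_lit 312) .nil))))))) (.g (nat_lit 1) (.e (nat_lit 47331) (nat_lit 0) .nil) .nil)))) (.nd (nat_lit 9) 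
(.lf (nat_lit 458166) (.g (nat_lit 3095) (.e (nat_lit 2685) (nat_lit 168) (.e (nat_lit 204862) (nat_lit 27) (.e (nat_lit 344129) (nat_lit 26) (.e (nat_lit 557103) (nat_lit 14) (.e (nat_lit 180240) (nat_lit 2) .nil))))) (.g (nat_lit 0) (.e (nat_lit 46803) (nat_lit 0) .nil) .nil))) 
(.lf (nat_lit 458678) (.g (nat_lit 3467) (.e (nat_lit 2706) (nat_lit 170) (.e (nat_lit 221214) (nat_lit 23) (.e (nat_lit 204863) (nat_lit 27) (.e (nat_lit 344117) (nat_lit 21) (.e (nat_lit 516115) (nat_lit 1) (.e (nat_lit 164177) (nat_lit 154) (.e (nat_lit 57375) (nat_lit 2) (.e (nat_lit 90128) (nat_lit 9) .nil)))))))) (.g (nat_lit 1) (.e (nat_lit 48017) (nat_lit 0) .nil) .nil)))))) 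
(.nd (nat_lit 7) (.nd (nat_lit 8) (.nd (nat_lit 9) 
(.lf (nat_lit 457846) (.g (nat_lit 2641) (.e (nat_lit 2684) (nat_lit 168) (.e (nat_lit 204863) (nat_lit 27) (.e (nat_lit 344129) (nat_lit 26) (.e (nat_lit 557104) (nat_lit 14) (.e (nat_lit 180252) (nat_lit 10) (.e (nat_lit 573474) (nat_lit 12) (.e (nat_lit 57507) (nat_lit 39) (.e (nat_lit 647175) (nat_lit 0) .nil)))))))) (.g (nat_lit 1) (.e (nat_lit 45702) (nat_lit 0) .nil) .nil))) 
(.lf (nat_lit 458358) (.g (nat_lit 3052) (.e (nat_lit 2685) (nat_lit 168) (.e (nat_lit 204864) (nat_lit 27) (.e (nat_lit 344132) (nat_lit 26) (.e (nat_lit 557101) (nat_lit 13) (.e (nat_lit 172065) (nat_lit 3) (.e (nat_lit 204821) (nat_lit 17) (.e (nat_lit 2391) (nat_lit 156) (.e (nat_lit 819204) (nat_lit 0) .nil)))))))) (.g (nat_lit 1) (.e (nat_lit 46996) (nat_lit 0) .nil) .nil)))) 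
(.nd (nat_lit 9) 
(.lf (nat_lit 458102) (.g (nat_lit 2927) (.e (nat_lit 2685) (nat_lit 168) (.e (nat_lit 204846) (nat_lit 24) (.e (nat_lit 319533) (nat_lit 16) (.e (nat_lit 286733) (nat_lit 2) (.e (nat_lit 90171) (nat_lit 14) .nil))))) (.g (nat_lit 0) (.e (nat_lit 46452) (nat_lit 0) .nil) .nil))) 
(.lf (nat_lit 458614) (.g (nat_lit 2311) (.e (nat_lit 2695) (nat_lit 169) (.e (nat_lit 213030) (nat_lit 11) (.e (nat_lit 24617) (nat_lit 7) (.e (nat_lit 319533) (nat_lit 16) (.e (nat_lit 286753) (nat_lit 10) .nil))))) (.g (nat_lit 0) (.e (nat_lit 47785) (nat_lit 0) .nil) .nil))))) (.nd (nat_lit 8) (.nd (nat_lit 9) 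
(.lf (nat_lit 457974) (.g (nat_lit 3047) (.e (nat_lit 2684) (nat_lit 168) (.e (nat_lit 204869) (nat_lit 29) (.e (nat_lit 360475) (nat_lit 8) (.e (nat_lit 557087) (nat_lit 11) (.e (nat_lit 24582) (nat_lit 0) .nil))))) (.g (nat_lit 0) (.e (nat_lit 46156) (nat_lit 0) .nil) .nil))) 
(.lf (nat_lit 458486) (.g (nat_lit 3222) (.e (nat_lit 2685) (nat_lit 168) (.e (nat_lit 204869) (nat_lit 29) (.e (nat_lit 360475) (nat_lit 8) (.e (nat_lit 557065) (nat_lit 9) (.e (nat_lit 214) (nat_lit 19) (.e (nat_lit 319491) (nat_lit 0) (.e (nat_lit 5626) (nat_lit 312) .nil))))))) (.g (nat_lit 1) (.e (nat_lit 47533) (nat_lit 0) .nil) .nil)))) (.nd (nat_lit 9) 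
(.lf (nat_lit 458230) (.g (nat_lit 1972) (.e (nat_lit 2685) (nat_lit 168) (.e (nat_lit 204862) (nat_lit 27) (.e (nat_lit 344133) (nat_lit 26) (.e (nat_lit 557103) (nat_lit 14) (.e (nat_lit 180250) (nat_lit 10) .nil))))) (.g (nat_lit 0) (.e (nat_lit 46867) (nat_lit 0) .nil) .nil))) 
(.lf (nat_lit 458742) (.g (nat_lit 2240) (.e (nat_lit 2725) (nat_lit 172) (.e (nat_lit 237587) (nat_lit 2) (.e (nat_lit 196666) (nat_lit 13) (.e (nat_lit 65617) (nat_lit 10) (.e (nat_lit 344132) (nat_lit 26) .nil))))) (.g (nat_lit 0) (.e (nat_lit 48354) (nat_lit 0) .nil) .nil))))))))) (.nd (nat_lit 4) (.nd (nat_lit 5) (.nd (nat_lit 6) (.nd (nat_lit 7) (.nd (nat_lit 8) (.nd (nat_lit 9) 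
(.lf (nat_lit 457742) (.g (nat_lit 4854) (.e (nat_lit 2684) (nat_lit 168) (.e (nat_lit 204862) (nat_lit 27) (.e (nat_lit 344129) (nat_lit 26) (.e (nat_lit 557103) (nat_lit 14) (.e (nat_lit 180250) (nat_lit 10) (.e (nat_lit 573473) (nat_lit 12) (.e (nat_lit 57507) (nat_lit 39) (.e (nat_lit 655104) (nat_lit 0) .nil)))))))) (.g (nat_lit 1) (.e (nat_lit 45598) (nat_lit 0) .nil) .nil))) 
(.lf (nat_lit 458254) (.g (nat_lit 2478) (.e (nat_lit 2685) (nat_lit 168) (.e (nat_lit 204863) (nat_lit 27) (.e (nat_lit 344129) (nat_lit 26) (.e (nat_lit 557103) (nat_lit 14) (.e (nat_lit 188160) (nat_lit 3) .nil))))) (.g (nat_lit 0) (.e (nat_lit 46892) (nat_lit 0) .nil) .nil)))) (.nd (nat_lit 9) 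
(.lf (nat_lit 457998) (.g (nat_lit 4360) (.e (nat_lit 2684) (nat_lit 168) (.e (nat_lit 204869) (nat_lit 29) (.e (nat_lit 360475) (nat_lit 8) (.e (nat_lit 557090) (nat_lit 12) .nil)))) (.g (nat_lit 0) (.e (nat_lit 46187) (nat_lit 0) .nil) .nil))) 
(.lf (nat_lit 458510) (.g (nat_lit 2405) (.e (nat_lit 2685) (nat_lit 168) (.e (nat_lit 204869) (nat_lit 29) (.e (nat_lit 360475) (nat_lit 8) (.e (nat_lit 557087) (nat_lit 11) (.e (nat_lit 24578) (nat_lit 0) (.e (nat_lit 7936) (nat_lit 357) .nil)))))) (.g (nat_lit 1) (.e (nat_lit 47590) (nat_lit 0) .nil) .nil))))) (.nd (nat_lit 8) (.nd (nat_lit 9) 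
(.lf (nat_lit 457870) (.g (nat_lit 2007) (.e (nat_lit 2684) (nat_lit 168) (.e (nat_lit 204863) (nat_lit 27) (.e (nat_lit 344132) (nat_lit 26) (.e (nat_lit 557105) (nat_lit 14) (.e (nat_lit 180251) (nat_lit 10) .nil))))) (.g (nat_lit 0) (.e (nat_lit 45726) (nat_lit 0) .nil) .nil))) 
(.lf (nat_lit 458382) (.g (nat_lit 1897) (.e (nat_lit 2685) (nat_lit 168) (.e (nat_lit 204868) (nat_lit 29) (.e (nat_lit 360466) (nat_lit 3) (.e (nat_lit 516138) (nat_lit 7) (.e (nat_lit 409616) (nat_lit 10) .nil))))) (.g (nat_lit 0) (.e (nat_lit 47193) (nat_lit 0) .nil) .nil)))) (.nd (nat_lit 9) 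
(.lf (nat_lit 458126) (.g (nat_lit 3562) (.e (nat_lit 2685) (nat_lit 168) (.e (nat_lit 204846) (nat_lit 24) (.e (nat_lit 327424) (nat_lit 16) (.e (nat_lit 286735) (nat_lit 3) (.e (nat_lit 98325) (nat_lit 17) (.e (nat_lit 7083) (nat_lit 379) (.e (nat_lit 123162) (nat_lit 256) .nil))))))) (.g (nat_lit 1) (.e (nat_lit 46481) (nat_lit 0) .nil) .nil))) 
(.lf (nat_lit 458638) (.g (nat_lit 2205) (.e (nat_lit 2698) (nat_lit 169) (.e (nat_lit 213030) (nat_lit 11) (.e (nat_lit 24617) (nat_lit 7) (.e (nat_lit 319533) (nat_lit 16) (.e (nat_lit 286753) (nat_lit 10) .nil))))) (.g (nat_lit 0) (.e (nat_lit 47837) (nat_lit 0) .nil) .nil)))))) (.nd (nat_lit 7) (.nd (nat_lit 8) (.nd (nat_lit 9) 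
(.lf (nat_lit 457806) (.g (nat_lit 4045) (.e (nat_lit 2684) (nat_lit 168) (.e (nat_lit 204862) (nat_lit 27) (.e (nat_lit 344133) (nat_lit 26) (.e (nat_lit 557103) (nat_lit 14) (.e (nat_lit 180250) (nat_lit 10) (.e (nat_lit 573475) (nat_lit 12) (.e (nat_lit 57506) (nat_lit 39) (.e (nat_lit 655104) (nat_lit 0) .nil)))))))) (.g (nat_lit 1) (.e (nat_lit 45662) (nat_lit 0) .nil) .nil))) 
(.lf (nat_lit 458318) (.g (nat_lit 2586) (.e (nat_lit 2685) (nat_lit 168) (.e (nat_lit 204863) (nat_lit 27) (.e (nat_lit 344133) (nat_lit 26) (.e (nat_lit 557098) (nat_lit 13) (.e (nat_lit 172065) (nat_lit 3) (.e (nat_lit 204821) (nat_lit 17) (.e (nat_lit 2391) (nat_lit 156) (.e (nat_lit 819203) (nat_lit 0) .nil)))))))) (.g (nat_lit 1) (.e (nat_lit 46956) (nat_lit 0) .nil) .nil)))) 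
(.nd (nat_lit 9) 
(.lf (nat_lit 458062) (.g (nat_lit 2498) (.e (nat_lit 2685) (nat_lit 168) (.e (nat_lit 204845) (nat_lit 24) (.e (nat_lit 319530) (nat_lit 16) (.e (nat_lit 286735) (nat_lit 3) (.e (nat_lit 98350) (nat_lit 24) .nil))))) (.g (nat_lit 0) (.e (nat_lit 46386) (nat_lit 0) .nil) .nil))) 
(.lf (nat_lit 458574) (.g (nat_lit 2029) (.e (nat_lit 2687) (nat_lit 169) (.e (nat_lit 213032) (nat_lit 11) (.e (nat_lit 24608) (nat_lit 3) (.e (nat_lit 98372) (nat_lit 29) .nil)))) (.g (nat_lit 0) (.e (nat_lit 47723) (nat_lit 0) .nil) .nil))))) (.nd (nat_lit 8) (.nd (nat_lit 9) 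
(.lf (nat_lit 457934) (.g (nat_lit 2677) (.e (nat_lit 2684) (nat_lit 168) (.e (nat_lit 204869) (nat_lit 29) (.e (nat_lit 360474) (nat_lit 8) (.e (nat_lit 557089) (nat_lit 12) (.e (nat_lit 163849) (nat_lit 0) (.e (nat_lit 6420) (nat_lit 341) (.e (nat_lit 163843) (nat_lit 0) (.e (nat_lit 7936) (nat_lit 388) .nil)))))))) (.g (nat_lit 1) (.e (nat_lit 46082) (nat_lit 0) .nil) .nil))) 
(.lf (nat_lit 458446) (.g (nat_lit 3286) (.e (nat_lit 2685) (nat_lit 168) (.e (nat_lit 204868) (nat_lit 29) (.e (nat_lit 360475) (nat_lit 8) (.e (nat_lit 557087) (nat_lit 11) (.e (nat_lit 24577) (nat_lit 0) .nil))))) (.g (nat_lit 0) (.e (nat_lit 47414) (nat_lit 0) .nil) .nil)))) (.nd (nat_lit 9) 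
(.lf (nat_lit 458190) (.g (nat_lit 1903) (.e (nat_lit 2685) (nat_lit 168) (.e (nat_lit 204862) (nat_lit 27) (.e (nat_lit 344130) (nat_lit 26) (.e (nat_lit 557097) (nat_lit 13) (.e (nat_lit 172066) (nat_lit 3) .nil))))) (.g (nat_lit 0) (.e (nat_lit 46827) (nat_lit 0) .nil) .nil))) 
(.lf (nat_lit 458702) (.g (nat_lit 2014) (.e (nat_lit 2706) (nat_lit 170) (.e (nat_lit 221215) (nat_lit 23) (.e (nat_lit 204863) (nat_lit 27) (.e (nat_lit 344118) (nat_lit 21) (.e (nat_lit 516118) (nat_lit 1) (.e (nat_lit 164179) (nat_lit 154) (.e (nat_lit 57371) (nat_lit 2) (.e (nat_lit 90128) (nat_lit 9) .nil)))))))) (.g (nat_lit 1) (.e (nat_lit 48062) (nat_lit 0) .nil) .nil))))))) 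
(.nd (nat_lit 6) (.nd (nat_lit 7) (.nd (nat_lit 8) (.nd (nat_lit 9) 
(.lf (nat_lit 457774) (.g (nat_lit 3890) (.e (nat_lit 2684) (nat_lit 168) (.e (nat_lit 204862) (nat_lit 27) (.e (nat_lit 344130) (nat_lit 26) (.e (nat_lit 557104) (nat_lit 14) (.e (nat_lit 180252) (nat_lit 10) (.e (nat_lit 573474) (nat_lit 12) (.e (nat_lit 57507) (nat_lit 39) (.e (nat_lit 655104) (nat_lit 0) .nil)))))))) (.g (nat_lit 1) (.e (nat_lit 45630) (nat_lit 0) .nil) .nil))) 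
(.lf (nat_lit 458286) (.g (nat_lit 2916) (.e (nat_lit 2685) (nat_lit 168) (.e (nat_lit 204863) (nat_lit 27) (.e (nat_lit 344132) (nat_lit 26) (.e (nat_lit 557100) (nat_lit 13) (.e (nat_lit 172062) (nat_lit 2) .nil))))) (.g (nat_lit 0) (.e (nat_lit 46924) (nat_lit 0) .nil) .nil)))) (.nd (nat_lit 9) 
(.lf (nat_lit 458030) (.g (nat_lit 2688) (.e (nat_lit 2685) (nat_lit 168) (.e (nat_lit 204829) (nat_lit 18) (.e (nat_lit 57927) (nat_lit 282) (.e (nat_lit 163875) (nat_lit 3) (.e (nat_lit 204862) (nat_lit 27) (.e (nat_lit 344117) (nat_lit 21) (.e (nat_lit 516123) (nat_lit 2) (.e (nat_lit 213000) (nat_lit 9) .nil)))))))) (.g (nat_lit 1) (.e (nat_lit 46267) (nat_lit 0) .nil) .nil))) 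
(.lf (nat_lit 458542) (.g (nat_lit 4910) (.e (nat_lit 2685) (nat_lit 168) (.e (nat_lit 204869) (nat_lit 29) (.e (nat_lit 360475) (nat_lit 8) (.e (nat_lit 557091) (nat_lit 12) (.e (nat_lit 163843) (nat_lit 0) (.e (nat_lit 6420) (nat_lit 341) (.e (nat_lit 163850) (nat_lit 0) (.e (nat_lit 7936) (nat_lit 388) .nil)))))))) (.g (nat_lit 1) (.e (nat_lit 47624) (nat_lit 0) .nil) .nil))))) 
(.nd (nat_lit 8) (.nd (nat_lit 9) 
(.lf (nat_lit 457902) (.g (nat_lit 4672) (.e (nat_lit 2684) (nat_lit 168) (.e (nat_lit 204863) (nat_lit 27) (.e (nat_lit 344133) (nat_lit 26) (.e (nat_lit 557105) (nat_lit 14) (.e (nat_lit 180252) (nat_lit 10) (.e (nat_lit 573474) (nat_lit 12) (.e (nat_lit 57506) (nat_lit 39) (.e (nat_lit 655104) (nat_lit 0) .nil)))))))) (.g (nat_lit 1) (.e (nat_lit 45758) (nat_lit 0) .nil) .nil))) 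
(.lf (nat_lit 458414) (.g (nat_lit 1339) (.e (nat_lit 2685) (nat_lit 168) (.e (nat_lit 204868) (nat_lit 29) (.e (nat_lit 360467) (nat_lit 3) (.e (nat_lit 516142) (nat_lit 8) .nil)))) (.g (nat_lit 0) (.e (nat_lit 47293) (nat_lit 0) .nil) .nil)))) (.nd (nat_lit 9) 
(.lf (nat_lit 458158) (.g (nat_lit 2556) (.e (nat_lit 2685) (nat_lit 168) (.e (nat_lit 204862) (nat_lit 27) (.e (nat_lit 344129) (nat_lit 26) (.e (nat_lit 557097) (nat_lit 13) (.e (nat_lit 172065) (nat_lit 3) .nil))))) (.g (nat_lit 0) (.e (nat_lit 46794) (nat_lit 0) .nil) .nil))) 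
(.lf (nat_lit 458670) (.g (nat_lit 1453) (.e (nat_lit 2702) (nat_lit 169) (.e (nat_lit 213032) (nat_lit 11) (.e (nat_lit 24604) (nat_lit 2) .nil))) (.g (nat_lit 0) (.e (nat_lit 47915) (nat_lit 0) .nil) .nil)))))) (.nd (nat_lit 7) (.nd (nat_lit 8) (.nd (nat_lit 9) 
(.lf (nat_lit 457838) (.g (nat_lit 3034) (.e (nat_lit 2684) (nat_lit 168) (.e (nat_lit 204863) (nat_lit 27) (.e (nat_lit 344129) (nat_lit 26) (.e (nat_lit 557103) (nat_lit 14) (.e (nat_lit 180250) (nat_lit 10) (.e (nat_lit 573474) (nat_lit 12) (.e (nat_lit 57508) (nat_lit 39) (.e (nat_lit 647175) (nat_lit 0) .nil)))))))) (.g (nat_lit 1) (.e (nat_lit 45694) (nat_lit 0) .nil) .nil))) 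
(.lf (nat_lit 458350) (.g (nat_lit 3422) (.e (nat_lit 2685) (nat_lit 168) (.e (nat_lit 204864) (nat_lit 27) (.e (nat_lit 344130) (nat_lit 26) (.e (nat_lit 557097) (nat_lit 13) (.e (nat_lit 172067) (nat_lit 3) (.e (nat_lit 204821) (nat_lit 17) (.e (nat_lit 2391) (nat_lit 156) (.e (nat_lit 819204) (nat_lit 0) .nil)))))))) (.g (nat_lit 1) (.e (nat_lit 46988) (nat_lit 0) .nil) .nil)))) 
(.nd (nat_lit 9) 
(.lf (nat_lit 458094) (.g (nat_lit 2221) (.e (nat_lit 2685) (nat_lit 168) (.e (nat_lit 204846) (nat_lit 24) (.e (nat_lit 319532) (nat_lit 16) (.e (nat_lit 286734) (nat_lit 3) (.e (nat_lit 98350) (nat_lit 24) .nil))))) (.g (nat_lit 0) (.e (nat_lit 46441) (nat_lit 0) .nil) .nil))) 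
(.lf (nat_lit 458606) (.g (nat_lit 2261) (.e (nat_lit 2693) (nat_lit 169) (.e (nat_lit 213030) (nat_lit 11) (.e (nat_lit 24617) (nat_lit 7) (.e (nat_lit 319534) (nat_lit 16) (.e (nat_lit 286759) (nat_lit 12) .nil))))) (.g (nat_lit 0) (.e (nat_lit 47769) (nat_lit 0) .nil) .nil))))) (.nd (nat_lit 8) (.nd (nat_lit 9) 
(.lf (nat_lit 457966) (.g (nat_lit 3557) (.e (nat_lit 2684) (nat_lit 168) (.e (nat_lit 204869) (nat_lit 29) (.e (nat_lit 360475) (nat_lit 8) (.e (nat_lit 557086) (nat_lit 11) (.e (nat_lit 24583) (nat_lit 0) .nil))))) (.g (nat_lit 0) (.e (nat_lit 46148) (nat_lit 0) .nil) .nil))) 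
(.lf (nat_lit 458478) (.g (nat_lit 4176) (.e (nat_lit 2685) (nat_lit 168) (.e (nat_lit 204869) (nat_lit 29) (.e (nat_lit 360474) (nat_lit 8) (.e (nat_lit 557086) (nat_lit 11) .nil)))) (.g (nat_lit 0) (.e (nat_lit 47523) (nat_lit 0) .nil) .nil)))) (.nd (nat_lit 9) 
(.lf (nat_lit 458222) (.g (nat_lit 2425) (.e (nat_lit 2685) (nat_lit 168) (.e (nat_lit 204862) (nat_lit 27) (.e (nat_lit 344133) (nat_lit 26) (.e (nat_lit 557098) (nat_lit 13) (.e (nat_lit 172133) (nat_lit 15) (.e (nat_lit 1800) (nat_lit 119) (.e (nat_lit 516119) (nat_lit 1) (.e (nat_lit 164345) (nat_lit 240) (.e (nat_lit 2422) (nat_lit 157) .nil))))))))) (.g (nat_lit 1) (.e (nat_lit 46859) (nat_lit 0) .nil) .nil))) 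
(.lf (nat_lit 458734) (.g (nat_lit 3374) (.e (nat_lit 2725) (nat_lit 172) (.e (nat_lit 237587) (nat_lit 2) (.e (nat_lit 196666) (nat_lit 13) (.e (nat_lit 65617) (nat_lit 10) (.e (nat_lit 344130) (nat_lit 26) (.e (nat_lit 557089) (nat_lit 12) (.e (nat_lit 163849) (nat_lit 0) (.e (nat_lit 6255) (nat_lit 337) .nil)))))))) (.g (nat_lit 1) (.e (nat_lit 48346) (nat_lit 0) .nil) .nil)))))))) 
(.nd (nat_lit 5) (.nd (nat_lit 6) (.nd (nat_lit 7) (.nd (nat_lit 8) (.nd (nat_lit 9) 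
(.lf (nat_lit 457758) (.g (nat_lit 3868) (.e (nat_lit 2684) (nat_lit 168) (.e (nat_lit 204862) (nat_lit 27) (.e (nat_lit 344129) (nat_lit 26) (.e (nat_lit 557104) (nat_lit 14) (.e (nat_lit 180252) (nat_lit 10) (.e (nat_lit 573473) (nat_lit 12) (.e (nat_lit 57508) (nat_lit 39) (.e (nat_lit 647175) (nat_lit 0) .nil)))))))) (.g (nat_lit 1) (.e (nat_lit 45614) (nat_lit 0) .nil) .nil))) 
(.lf (nat_lit 458270) (.g (nat_lit 2976) (.e (nat_lit 2685) (nat_lit 168) (.e (nat_lit 204863) (nat_lit 27) (.e (nat_lit 344130) (nat_lit 26) (.e (nat_lit 557104) (nat_lit 14) (.e (nat_lit 180252) (nat_lit 10) (.e (nat_lit 573474) (nat_lit 12) (.e (nat_lit 57507) (nat_lit 39) (.e (nat_lit 647170) (nat_lit 0) .nil)))))))) (.g (nat_lit 1) (.e (nat_lit 46908) (nat_lit 0) .nil) .nil)))) 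
(.nd (nat_lit 9) 
(.lf (nat_lit 458014) (.g (nat_lit 1215) (.e (nat_lit 2684) (nat_lit 168) (.e (nat_lit 204880) (nat_lit 32) (.e (nat_lit 385066) (nat_lit 26) .nil))) (.g (nat_lit 0) (.e (nat_lit 46227) (nat_lit 0) .nil) .nil))) 
(.lf (nat_lit 458526) (.g (nat_lit 3100) (.e (nat_lit 2685) (nat_lit 168) (.e (nat_lit 204869) (nat_lit 29) (.e (nat_lit 360475) (nat_lit 8) (.e (nat_lit 557087) (nat_lit 11) (.e (nat_lit 24595) (nat_lit 0) .nil))))) (.g (nat_lit 0) (.e (nat_lit 47606) (nat_lit 0) .nil) .nil))))) (.nd (nat_lit 8) (.nd (nat_lit 9) 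
(.lf (nat_lit 457886) (.g (nat_lit 3997) (.e (nat_lit 2684) (nat_lit 168) (.e (nat_lit 204863) (nat_lit 27) (.e (nat_lit 344132) (nat_lit 26) (.e (nat_lit 557105) (nat_lit 14) (.e (nat_lit 180252) (nat_lit 10) (.e (nat_lit 573475) (nat_lit 12) (.e (nat_lit 57508) (nat_lit 39) (.e (nat_lit 647175) (nat_lit 0) .nil)))))))) (.g (nat_lit 1) (.e (nat_lit 45742) (nat_lit 0) .nil) .nil))) 
(.lf (nat_lit 458398) (.g (nat_lit 2275) (.e (nat_lit 2685) (nat_lit 168) (.e (nat_lit 204868) (nat_lit 29) (.e (nat_lit 360466) (nat_lit 3) (.e (nat_lit 516142) (nat_lit 8) (.e (nat_lit 417814) (nat_lit 10) (.e (nat_lit 5612) (nat_lit 312) .nil)))))) (.g (nat_lit 1) (.e (nat_lit 47210) (nat_lit 0) .nil) .nil)))) (.nd (nat_lit 9) 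
(.lf (nat_lit 458142) (.g (nat_lit 1262) (.e (nat_lit 2685) (nat_lit 168) (.e (nat_lit 204862) (nat_lit 27) (.e (nat_lit 344117) (nat_lit 21) (.e (nat_lit 516123) (nat_lit 2) .nil)))) (.g (nat_lit 0) (.e (nat_lit 46777) (nat_lit 0) .nil) .nil))) 
(.lf (nat_lit 458654) (.g (nat_lit 2669) (.e (nat_lit 2700) (nat_lit 169) (.e (nat_lit 213030) (nat_lit 11) (.e (nat_lit 24617) (nat_lit 7) (.e (nat_lit 319533) (nat_lit 16) (.e (nat_lit 286752) (nat_lit 10) .nil))))) (.g (nat_lit 0) (.e (nat_lit 47888) (nat_lit 0) .nil) .nil)))))) (.nd (nat_lit 7) (.nd (nat_lit 8) (.nd (nat_lit 9) 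
(.lf (nat_lit 457822) (.g (nat_lit 3571) (.e (nat_lit 2684) (nat_lit 168) (.e (nat_lit 204863) (nat_lit 27) (.e (nat_lit 344117) (nat_lit 21) (.e (nat_lit 516129) (nat_lit 3) (.e (nat_lit 221210) (nat_lit 22) (.e (nat_lit 196658) (nat_lit 12) (.e (nat_lit 57508) (nat_lit 39) (.e (nat_lit 647175) (nat_lit 0) .nil)))))))) (.g (nat_lit 1) (.e (nat_lit 45678) (nat_lit 0) .nil) .nil))) 
(.lf (nat_lit 458334) (.g (nat_lit 2749) (.e (nat_lit 2685) (nat_lit 168) (.e (nat_lit 204863) (nat_lit 27) (.e (nat_lit 344133) (nat_lit 26) (.e (nat_lit 557103) (nat_lit 14) (.e (nat_lit 180250) (nat_lit 10) (.e (nat_lit 573475) (nat_lit 12) (.e (nat_lit 57506) (nat_lit 39) (.e (nat_lit 647170) (nat_lit 0) .nil)))))))) (.g (nat_lit 1) (.e (nat_lit 46972) (nat_lit 0) .nil) .nil)))) 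
(.nd (nat_lit 9) 
(.lf (nat_lit 458078) (.g (nat_lit 3009) (.e (nat_lit 2685) (nat_lit 168) (.e (nat_lit 204846) (nat_lit 24) (.e (nat_lit 319530) (nat_lit 16) (.e (nat_lit 286735) (nat_lit 3) (.e (nat_lit 98366) (nat_lit 27) .nil))))) (.g (nat_lit 0) (.e (nat_lit 46422) (nat_lit 0) .nil) .nil))) 
(.lf (nat_lit 458590) (.g (nat_lit 2441) (.e (nat_lit 2691) (nat_lit 169) (.e (nat_lit 213032) (nat_lit 11) (.e (nat_lit 24604) (nat_lit 2) (.e (nat_lit 90176) (nat_lit 15) .nil)))) (.g (nat_lit 0) (.e (nat_lit 47748) (nat_lit 0) .nil) .nil))))) (.nd (nat_lit 8) (.nd (nat_lit 9) 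
(.lf (nat_lit 457950) (.g (nat_lit 3466) (.e (nat_lit 2684) (nat_lit 168) (.e (nat_lit 204869) (nat_lit 29) (.e (nat_lit 360474) (nat_lit 8) (.e (nat_lit 557093) (nat_lit 12) (.e (nat_lit 163849) (nat_lit 0) (.e (nat_lit 6418) (nat_lit 341) (.e (nat_lit 163850) (nat_lit 0) (.e (nat_lit 7936) (nat_lit 388) .nil)))))))) (.g (nat_lit 1) (.e (nat_lit 46104) (nat_lit 0) .nil) .nil))) 
(.lf (nat_lit 458462) (.g (nat_lit 663) (.e (nat_lit 2685) (nat_lit 168) (.e (nat_lit 204869) (nat_lit 29) (.e (nat_lit 360473) (nat_lit 8) .nil))) (.g (nat_lit 0) (.e (nat_lit 47480) (nat_lit 0) .nil) .nil)))) (.nd (nat_lit 9) 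
(.lf (nat_lit 458206) (.g (nat_lit 1799) (.e (nat_lit 2685) (nat_lit 168) (.e (nat_lit 204862) (nat_lit 27) (.e (nat_lit 344132) (nat_lit 26) (.e (nat_lit 557100) (nat_lit 13) (.e (nat_lit 172064) (nat_lit 2) .nil))))) (.g (nat_lit 0) (.e (nat_lit 46843) (nat_lit 0) .nil) .nil))) 
(.lf (nat_lit 458718) (.g (nat_lit 2581) (.e (nat_lit 2725) (nat_lit 172) (.e (nat_lit 237586) (nat_lit 2) (.e (nat_lit 196666) (nat_lit 13) (.e (nat_lit 65617) (nat_lit 10) (.e (nat_lit 344130) (nat_lit 26) (.e (nat_lit 557090) (nat_lit 12) (.e (nat_lit 163844) (nat_lit 0) (.e (nat_lit 6254) (nat_lit 337) .nil)))))))) (.g (nat_lit 1) (.e (nat_lit 48326) (nat_lit 0) .nil) .nil))))))) 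
(.nd (nat_lit 6) (.nd (nat_lit 7) (.nd (nat_lit 8) (.nd (nat_lit 9) 
(.lf (nat_lit 457790) (.g (nat_lit 2249) (.e (nat_lit 2684) (nat_lit 168) (.e (nat_lit 204862) (nat_lit 27) (.e (nat_lit 344132) (nat_lit 26) (.e (nat_lit 557105) (nat_lit 14) (.e (nat_lit 180252) (nat_lit 10) (.e (nat_lit 573475) (nat_lit 12) (.e (nat_lit 57507) (nat_lit 39) (.e (nat_lit 647176) (nat_lit 0) .nil)))))))) (.g (nat_lit 1) (.e (nat_lit 45646) (nat_lit 0) .nil) .nil))) 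
(.lf (nat_lit 458302) (.g (nat_lit 4642) (.e (nat_lit 2685) (nat_lit 168) (.e (nat_lit 204863) (nat_lit 27) (.e (nat_lit 344132) (nat_lit 26) (.e (nat_lit 557105) (nat_lit 14) (.e (nat_lit 180252) (nat_lit 10) (.e (nat_lit 573473) (nat_lit 12) (.e (nat_lit 57508) (nat_lit 39) (.e (nat_lit 647170) (nat_lit 0) .nil)))))))) (.g (nat_lit 1) (.e (nat_lit 46940) (nat_lit 0) .nil) .nil)))) 
(.nd (nat_lit 9) 
(.lf (nat_lit 458046) (.g (nat_lit 2983) (.e (nat_lit 2685) (nat_lit 168) (.e (nat_lit 204837) (nat_lit 20) (.e (nat_lit 114714) (nat_lit 22) (.e (nat_lit 90174) (nat_lit 14) (.e (nat_lit 180243) (nat_lit 5) (.e (nat_lit 532501) (nat_lit 1) (.e (nat_lit 57663) (nat_lit 152) (.e (nat_lit 2450) (nat_lit 157) .nil)))))))) (.g (nat_lit 1) (.e (nat_lit 46287) (nat_lit 0) .nil) .nil))) 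
(.lf (nat_lit 458558) (.g (nat_lit 2725) (.e (nat_lit 7936) (nat_lit 168) (.e (nat_lit 204869) (nat_lit 29) (.e (nat_lit 360475) (nat_lit 8) (.e (nat_lit 557086) (nat_lit 11) .nil)))) (.g (nat_lit 0) (.e (nat_lit 47701) (nat_lit 0) .nil) .nil))))) (.nd (nat_lit 8) (.nd (nat_lit 9) 
(.lf (nat_lit 457918) (.g (nat_lit 1791) (.e (nat_lit 2684) (nat_lit 168) (.e (nat_lit 204868) (nat_lit 29) (.e (nat_lit 360475) (nat_lit 8) (.e (nat_lit 557087) (nat_lit 11) .nil)))) (.g (nat_lit 0) (.e (nat_lit 45973) (nat_lit 0) .nil) .nil))) 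
(.lf (nat_lit 458430) (.g (nat_lit 2940) (.e (nat_lit 2685) (nat_lit 168) (.e (nat_lit 204868) (nat_lit 29) (.e (nat_lit 360473) (nat_lit 8) (.e (nat_lit 557087) (nat_lit 11) (.e (nat_lit 24577) (nat_lit 0) (.e (nat_lit 6617) (nat_lit 357) .nil)))))) (.g (nat_lit 1) (.e (nat_lit 47366) (nat_lit 0) .nil) .nil)))) (.nd (nat_lit 9) 
(.lf (nat_lit 458174) (.g (nat_lit 2908) (.e (nat_lit 2685) (nat_lit 168) (.e (nat_lit 204862) (nat_lit 27) (.e (nat_lit 344129) (nat_lit 26) (.e (nat_lit 557103) (nat_lit 14) (.e (nat_lit 180250) (nat_lit 10) (.e (nat_lit 573473) (nat_lit 12) (.e (nat_lit 57508) (nat_lit 39) (.e (nat_lit 655104) (nat_lit 0) .nil)))))))) (.g (nat_lit 1) (.e (nat_lit 46811) (nat_lit 0) .nil) .nil))) 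
(.lf (nat_lit 458686) (.g (nat_lit 2913) (.e (nat_lit 2706) (nat_lit 170) (.e (nat_lit 221214) (nat_lit 23) (.e (nat_lit 204863) (nat_lit 27) (.e (nat_lit 344118) (nat_lit 21) (.e (nat_lit 516119) (nat_lit 1) (.e (nat_lit 164176) (nat_lit 154) (.e (nat_lit 57375) (nat_lit 2) (.e (nat_lit 90128) (nat_lit 9) .nil)))))))) (.g (nat_lit 1) (.e (nat_lit 48026) (nat_lit 0) .nil) .nil)))))) 
(.nd (nat_lit 7) (.nd (nat_lit 8) (.nd (nat_lit 9) 
(.lf (nat_lit 457854) (.g (nat_lit 2677) (.e (nat_lit 2684) (nat_lit 168) (.e (nat_lit 204863) (nat_lit 27) (.e (nat_lit 344130) (nat_lit 26) (.e (nat_lit 557104) (nat_lit 14) (.e (nat_lit 180252) (nat_lit 10) (.e (nat_lit 573474) (nat_lit 12) (.e (nat_lit 57508) (nat_lit 39) (.e (nat_lit 655104) (nat_lit 0) .nil)))))))) (.g (nat_lit 1) (.e (nat_lit 45710) (nat_lit 0) .nil) .nil))) 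
(.lf (nat_lit 458366) (.g (nat_lit 1058) (.e (nat_lit 2685) (nat_lit 168) (.e (nat_lit 204864) (nat_lit 27) (.e (nat_lit 344133) (nat_lit 26) (.e (nat_lit 557103) (nat_lit 14) .nil)))) (.g (nat_lit 0) (.e (nat_lit 47004) (nat_lit 0) .nil) .nil)))) (.nd (nat_lit 9) 
(.lf (nat_lit 458110) (.g (nat_lit 2745) (.e (nat_lit 2685) (nat_lit 168) (.e (nat_lit 204846) (nat_lit 24) (.e (nat_lit 319533) (nat_lit 16) (.e (nat_lit 286735) (nat_lit 3) (.e (nat_lit 98366) (nat_lit 27) (.e (nat_lit 442112) (nat_lit 8) .nil)))))) (.g (nat_lit 1) (.e (nat_lit 46460) (nat_lit 0) .nil) .nil))) 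
(.lf (nat_lit 458622) (.g (nat_lit 2384) (.e (nat_lit 2695) (nat_lit 169) (.e (nat_lit 213032) (nat_lit 11) (.e (nat_lit 24608) (nat_lit 3) (.e (nat_lit 98372) (nat_lit 29) (.e (nat_lit 458496) (nat_lit 8) .nil))))) (.g (nat_lit 0) (.e (nat_lit 47793) (nat_lit 0) .nil) .nil))))) (.nd (nat_lit 8) (.nd (nat_lit 9) 
(.lf (nat_lit 457982) (.g (nat_lit 3038) (.e (nat_lit 2684) (nat_lit 168) (.e (nat_lit 204869) (nat_lit 29) (.e (nat_lit 360475) (nat_lit 8) (.e (nat_lit 557087) (nat_lit 11) (.e (nat_lit 24593) (nat_lit 0) .nil))))) (.g (nat_lit 0) (.e (nat_lit 46164) (nat_lit 0) .nil) .nil))) 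
(.lf (nat_lit 458494) (.g (nat_lit 4485) (.e (nat_lit 2685) (nat_lit 168) (.e (nat_lit 204869) (nat_lit 29) (.e (nat_lit 360475) (nat_lit 8) (.e (nat_lit 557068) (nat_lit 9) (.e (nat_lit 214) (nat_lit 19) (.e (nat_lit 319490) (nat_lit 0) (.e (nat_lit 5626) (nat_lit 312) .nil))))))) (.g (nat_lit 1) (.e (nat_lit 47561) (nat_lit 0) .nil) .nil)))) (.nd (nat_lit 9) 
(.lf (nat_lit 458238) (.g (nat_lit 2600) (.e (nat_lit 2685) (nat_lit 168) (.e (nat_lit 204863) (nat_lit 27) (.e (nat_lit 344117) (nat_lit 21) (.e (nat_lit 516122) (nat_lit 2) (.e (nat_lit 213033) (nat_lit 12) (.e (nat_lit 163976) (nat_lit 30) (.e (nat_lit 573474) (nat_lit 12) (.e (nat_lit 57528) (nat_lit 46) (.e (nat_lit 704514) (nat_lit 0) .nil))))))))) (.g (nat_lit 1) (.e (nat_lit 46875) (nat_lit 0) .nil) .nil))) 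
(.lf (nat_lit 458750) (.g (nat_lit 3005) (.e (nat_lit 2725) (nat_lit 172) (.e (nat_lit 237587) (nat_lit 2) (.e (nat_lit 196666) (nat_lit 13) (.e (nat_lit 65617) (nat_lit 10) (.e (nat_lit 344132) (nat_lit 26) (.e (nat_lit 557094) (nat_lit 12) (.e (nat_lit 163849) (nat_lit 0) (.e (nat_lit 6254) (nat_lit 337) .nil)))))))) (.g (nat_lit 1) (.e (nat_lit 48362) (nat_lit 0) .nil) .nil)))))))))))) 
(.nd (nat_lit 1) (.nd (nat_lit 2) (.nd (nat_lit 3) (.nd (nat_lit 4) (.nd (nat_lit 5) 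
(.nd (nat_lit 6) (.nd (nat_lit 7) (.nd (nat_lit 8) (.nd (nat_lit 9) 
(.lf (nat_lit 457729) (.g (nat_lit 1871) (.e (nat_lit 2684) (nat_lit 168) (.e (nat_lit 204861) (nat_lit 26) (.e (nat_lit 336215) (nat_lit 13) (.e (nat_lit 401152) (nat_lit 10) (.e (nat_lit 344161) (nat_lit 37) (.e (nat_lit 655104) (nat_lit 0) .nil)))))) (.g (nat_lit 1) (.e (nat_lit 45585) (nat_lit 0) .nil) .nil))) 
(.lf (nat_lit 458241) (.g (nat_lit 1979) (.e (nat_lit 2685) (nat_lit 168) (.e (nat_lit 204863) (nat_lit 27) (.e (nat_lit 344117) (nat_lit 21) (.e (nat_lit 516129) (nat_lit 3) .nil)))) (.g (nat_lit 0) (.e (nat_lit 46878) (nat_lit 0) .nil) .nil)))) (.nd (nat_lit 9) 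
(.lf (nat_lit 457985) (.g (nat_lit 2845) (.e (nat_lit 2684) (nat_lit 168) (.e (nat_lit 204869) (nat_lit 29) (.e (nat_lit 360475) (nat_lit 8) (.e (nat_lit 557089) (nat_lit 12) .nil)))) (.g (nat_lit 0) (.e (nat_lit 46167) (nat_lit 0) .nil) .nil))) 
(.lf (nat_lit 458497) (.g (nat_lit 2139) (.e (nat_lit 2685) (nat_lit 168) (.e (nat_lit 204869) (nat_lit 29) (.e (nat_lit 360475) (nat_lit 8) (.e (nat_lit 557073) (nat_lit 9) .nil)))) (.g (nat_lit 0) (.e (nat_lit 47570) (nat_lit 0) .nil) .nil))))) (.nd (nat_lit 8) (.nd (nat_lit 9) 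
(.lf (nat_lit 457857) (.g (nat_lit 3013) (.e (nat_lit 2684) (nat_lit 168) (.e (nat_lit 204863) (nat_lit 27) (.e (nat_lit 344131) (nat_lit 26) (.e (nat_lit 557103) (nat_lit 14) (.e (nat_lit 180250) (nat_lit 10) (.e (nat_lit 573473) (nat_lit 12) (.e (nat_lit 57508) (nat_lit 39) (.e (nat_lit 655104) (nat_lit 0) .nil)))))))) (.g (nat_lit 1) (.e (nat_lit 45713) (nat_lit 0) .nil) .nil))) 
(.lf (nat_lit 458369) (.g (nat_lit 3212) (.e (nat_lit 2685) (nat_lit 168) (.e (nat_lit 204864) (nat_lit 27) (.e (nat_lit 344133) (nat_lit 26) (.e (nat_lit 557103) (nat_lit 14) (.e (nat_lit 180250) (nat_lit 10) (.e (nat_lit 573473) (nat_lit 12) (.e (nat_lit 57508) (nat_lit 39) (.e (nat_lit 647170) (nat_lit 0) .nil)))))))) (.g (nat_lit 1) (.e (nat_lit 47007) (nat_lit 0) .nil) .nil)))) 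
(.nd (nat_lit 9) 
(.lf (nat_lit 458113) (.g (nat_lit 3367) (.e (nat_lit 2685) (nat_lit 168) (.e (nat_lit 204846) (nat_lit 24) (.e (nat_lit 319534) (nat_lit 16) (.e (nat_lit 286733) (nat_lit 2) (.e (nat_lit 90171) (nat_lit 14) (.e (nat_lit 188160) (nat_lit 40) .nil)))))) (.g (nat_lit 1) (.e (nat_lit 46466) (nat_lit 0) .nil) .nil))) 
(.lf (nat_lit 458625) (.g (nat_lit 1892) (.e (nat_lit 2696) (nat_lit 169) (.e (nat_lit 213032) (nat_lit 11) (.e (nat_lit 24604) (nat_lit 2) (.e (nat_lit 90176) (nat_lit 15) .nil)))) (.g (nat_lit 0) (.e (nat_lit 47806) (nat_lit 0) .nil) .nil)))))) (.nd (nat_lit 7) (.nd (nat_lit 8) (.nd (nat_lit 9) 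
(.lf (nat_lit 457793) (.g (nat_lit 3734) (.e (nat_lit 2684) (nat_lit 168) (.e (nat_lit 204862) (nat_lit 27) (.e (nat_lit 344132) (nat_lit 26) (.e (nat_lit 557105) (nat_lit 14) (.e (nat_lit 180252) (nat_lit 10) (.e (nat_lit 573475) (nat_lit 12) (.e (nat_lit 57508) (nat_lit 39) (.e (nat_lit 647175) (nat_lit 0) .nil)))))))) (.g (nat_lit 1) (.e (nat_lit 45649) (nat_lit 0) .nil) .nil))) 
(.lf (nat_lit 458305) (.g (nat_lit 4861) (.e (nat_lit 2685) (nat_lit 168) (.e (nat_lit 204863) (nat_lit 27) (.e (nat_lit 344132) (nat_lit 26) (.e (nat_lit 557105) (nat_lit 14) (.e (nat_lit 180252) (nat_lit 10) (.e (nat_lit 573474) (nat_lit 12) (.e (nat_lit 57507) (nat_lit 39) (.e (nat_lit 647170) (nat_lit 0) .nil)))))))) (.g (nat_lit 1) (.e (nat_lit 46943) (nat_lit 0) .nil) .nil)))) 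
(.nd (nat_lit 9) 
(.lf (nat_lit 458049) (.g (nat_lit 2297) (.e (nat_lit 2685) (nat_lit 168) (.e (nat_lit 204837) (nat_lit 20) (.e (nat_lit 114714) (nat_lit 22) (.e (nat_lit 90174) (nat_lit 14) (.e (nat_lit 180243) (nat_lit 5) (.e (nat_lit 532504) (nat_lit 1) (.e (nat_lit 57651) (nat_lit 152) (.e (nat_lit 2433) (nat_lit 157) .nil)))))))) (.g (nat_lit 1) (.e (nat_lit 46290) (nat_lit 0) .nil) .nil))) 
(.lf (nat_lit 458561) (.g (nat_lit 3033) (.e (nat_lit 7936) (nat_lit 168) (.e (nat_lit 204869) (nat_lit 29) (.e (nat_lit 360475) (nat_lit 8) (.e (nat_lit 557087) (nat_lit 11) (.e (nat_lit 24580) (nat_lit 0) .nil))))) (.g (nat_lit 0) (.e (nat_lit 47704) (nat_lit 0) .nil) .nil))))) (.nd (nat_lit 8) (.nd (nat_lit 9) 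
(.lf (nat_lit 457921) (.g (nat_lit 2321) (.e (nat_lit 2684) (nat_lit 168) (.e (nat_lit 204869) (nat_lit 29) (.e (nat_lit 360474) (nat_lit 8) (.e (nat_lit 557085) (nat_lit 11) .nil)))) (.g (nat_lit 0) (.e (nat_lit 46065) (nat_lit 0) .nil) .nil))) 
(.lf (nat_lit 458433) (.g (nat_lit 2543) (.e (nat_lit 2685) (nat_lit 168) (.e (nat_lit 204868) (nat_lit 29) (.e (nat_lit 360473) (nat_lit 8) (.e (nat_lit 557087) (nat_lit 11) (.e (nat_lit 24579) (nat_lit 0) (.e (nat_lit 6617) (nat_lit 357) .nil)))))) (.g (nat_lit 1) (.e (nat_lit 47369) (nat_lit 0) .nil) .nil)))) (.nd (nat_lit 9) 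
(.lf (nat_lit 458177) (.g (nat_lit 2848) (.e (nat_lit 2685) (nat_lit 168) (.e (nat_lit 204862) (nat_lit 27) (.e (nat_lit 344129) (nat_lit 26) (.e (nat_lit 557103) (nat_lit 14) (.e (nat_lit 180250) (nat_lit 10) (.e (nat_lit 573475) (nat_lit 12) (.e (nat_lit 57506) (nat_lit 39) (.e (nat_lit 647170) (nat_lit 0) .nil)))))))) (.g (nat_lit 1) (.e (nat_lit 46814) (nat_lit 0) .nil) .nil))) 
(.lf (nat_lit 458689) (.g (nat_lit 3763) (.e (nat_lit 2706) (nat_lit 170) (.e (nat_lit 221214) (nat_lit 23) (.e (nat_lit 204863) (nat_lit 27) (.e (nat_lit 344118) (nat_lit 21) (.e (nat_lit 516120) (nat_lit 1) (.e (nat_lit 164182) (nat_lit 154) (.e (nat_lit 57375) (nat_lit 2) (.e (nat_lit 90128) (nat_lit 9) .nil)))))))) (.g (nat_lit 1) (.e (nat_lit 48029) (nat_lit 0) .nil) .nil))))))) 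
(.nd (nat_lit 6) (.nd (nat_lit 7) (.nd (nat_lit 8) (.nd (nat_lit 9) 
(.lf (nat_lit 457761) (.g (nat_lit 4586) (.e (nat_lit 2684) (nat_lit 168) (.e (nat_lit 204862) (nat_lit 27) (.e (nat_lit 344129) (nat_lit 26) (.e (nat_lit 557104) (nat_lit 14) (.e (nat_lit 180252) (nat_lit 10) (.e (nat_lit 573474) (nat_lit 12) (.e (nat_lit 57507) (nat_lit 39) (.e (nat_lit 655104) (nat_lit 0) .nil)))))))) (.g (nat_lit 1) (.e (nat_lit 45617) (nat_lit 0) .nil) .nil))) 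
(.lf (nat_lit 458273) (.g (nat_lit 746) (.e (nat_lit 2685) (nat_lit 168) (.e (nat_lit 204863) (nat_lit 27) (.e (nat_lit 344131) (nat_lit 26) .nil))) (.g (nat_lit 0) (.e (nat_lit 46911) (nat_lit 0) .nil) .nil)))) (.nd (nat_lit 9) 
(.lf (nat_lit 458017) (.g (nat_lit 4476) (.e (nat_lit 2684) (nat_lit 168) (.e (nat_lit 204880) (nat_lit 32) (.e (nat_lit 385066) (nat_lit 26) (.e (nat_lit 532504) (nat_lit 1) (.e (nat_lit 57852) (nat_lit 252) (.e (nat_lit 57378) (nat_lit 3) (.e (nat_lit 98338) (nat_lit 19) (.e (nat_lit 213013) (nat_lit 9) .nil)))))))) (.g (nat_lit 1) (.e (nat_lit 46230) (nat_lit 0) .nil) .nil))) 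
(.lf (nat_lit 458529) (.g (nat_lit 3805) (.e (nat_lit 2685) (nat_lit 168) (.e (nat_lit 204869) (nat_lit 29) (.e (nat_lit 360475) (nat_lit 8) (.e (nat_lit 557089) (nat_lit 12) (.e (nat_lit 163844) (nat_lit 0) (.e (nat_lit 6416) (nat_lit 341) (.e (nat_lit 163843) (nat_lit 0) (.e (nat_lit 7936) (nat_lit 388) .nil)))))))) (.g (nat_lit 1) (.e (nat_lit 47609) (nat_lit 0) .nil) .nil))))) 
(.nd (nat_lit 8) (.nd (nat_lit 9) 
(.lf (nat_lit 457889) (.g (nat_lit 2232) (.e (nat_lit 2684) (nat_lit 168) (.e (nat_lit 204863) (nat_lit 27) (.e (nat_lit 344133) (nat_lit 26) (.e (nat_lit 557103) (nat_lit 14) (.e (nat_lit 180250) (nat_lit 10) .nil))))) (.g (nat_lit 0) (.e (nat_lit 45745) (nat_lit 0) .nil) .nil))) 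
(.lf (nat_lit 458401) (.g (nat_lit 2597) (.e (nat_lit 2685) (nat_lit 168) (.e (nat_lit 204868) (nat_lit 29) (.e (nat_lit 360466) (nat_lit 3) (.e (nat_lit 516142) (nat_lit 8) (.e (nat_lit 417815) (nat_lit 10) (.e (nat_lit 5616) (nat_lit 312) .nil)))))) (.g (nat_lit 1) (.e (nat_lit 47214) (nat_lit 0) .nil) .nil)))) (.nd (nat_lit 9) 
(.lf (nat_lit 458145) (.g (nat_lit 2566) (.e (nat_lit 2685) (nat_lit 168) (.e (nat_lit 204862) (nat_lit 27) (.e (nat_lit 344117) (nat_lit 21) (.e (nat_lit 516129) (nat_lit 3) (.e (nat_lit 221210) (nat_lit 22) (.e (nat_lit 196658) (nat_lit 12) (.e (nat_lit 57508) (nat_lit 39) (.e (nat_lit 647168) (nat_lit 0) .nil)))))))) (.g (nat_lit 1) (.e (nat_lit 46780) (nat_lit 0) .nil) .nil))) 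
(.lf (nat_lit 458657) (.g (nat_lit 1089) (.e (nat_lit 2700) (nat_lit 169) (.e (nat_lit 213032) (nat_lit 11) (.e (nat_lit 24604) (nat_lit 2) .nil))) (.g (nat_lit 0) (.e (nat_lit 47893) (nat_lit 0) .nil) .nil)))))) (.nd (nat_lit 7) (.nd (nat_lit 8) (.nd (nat_lit 9) 
(.lf (nat_lit 457825) (.g (nat_lit 2056) (.e (nat_lit 2684) (nat_lit 168) (.e (nat_lit 204863) (nat_lit 27) (.e (nat_lit 344117) (nat_lit 21) (.e (nat_lit 516130) (nat_lit 3) (.e (nat_lit 221212) (nat_lit 22) .nil))))) (.g (nat_lit 0) (.e (nat_lit 45681) (nat_lit 0) .nil) .nil))) 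
(.lf (nat_lit 458337) (.g (nat_lit 2514) (.e (nat_lit 2685) (nat_lit 168) (.e (nat_lit 204863) (nat_lit 27) (.e (nat_lit 344133) (nat_lit 26) (.e (nat_lit 557103) (nat_lit 14) (.e (nat_lit 180250) (nat_lit 10) (.e (nat_lit 573477) (nat_lit 12) (.e (nat_lit 57511) (nat_lit 39) (.e (nat_lit 647168) (nat_lit 0) .nil)))))))) (.g (nat_lit 1) (.e (nat_lit 46975) (nat_lit 0) .nil) .nil)))) 
(.nd (nat_lit 9) 
(.lf (nat_lit 458081) (.g (nat_lit 607) (.e (nat_lit 2685) (nat_lit 168) (.e (nat_lit 204846) (nat_lit 24) (.e (nat_lit 319531) (nat_lit 16) .nil))) (.g (nat_lit 0) (.e (nat_lit 46425) (nat_lit 0) .nil) .nil))) 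
(.lf (nat_lit 458593) (.g (nat_lit 1302) (.e (nat_lit 2691) (nat_lit 169) (.e (nat_lit 213032) (nat_lit 11) (.e (nat_lit 24608) (nat_lit 3) .nil))) (.g (nat_lit 0) (.e (nat_lit 47751) (nat_lit 0) .nil) .nil))))) (.nd (nat_lit 8) (.nd (nat_lit 9) 
(.lf (nat_lit 457953) (.g (nat_lit 2931) (.e (nat_lit 2684) (nat_lit 168) (.e (nat_lit 204869) (nat_lit 29) (.e (nat_lit 360474) (nat_lit 8) (.e (nat_lit 557094) (nat_lit 12) .nil)))) (.g (nat_lit 0) (.e (nat_lit 46109) (nat_lit 0) .nil) .nil))) 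
(.lf (nat_lit 458465) (.g (nat_lit 1823) (.e (nat_lit 2685) (nat_lit 168) (.e (nat_lit 204869) (nat_lit 29) (.e (nat_lit 360473) (nat_lit 8) (.e (nat_lit 557086) (nat_lit 11) (.e (nat_lit 24580) (nat_lit 0) .nil))))) (.g (nat_lit 0) (.e (nat_lit 47484) (nat_lit 0) .nil) .nil)))) (.nd (nat_lit 9) 
(.lf (nat_lit 458209) (.g (nat_lit 1048) (.e (nat_lit 2685) (nat_lit 168) (.e (nat_lit 204862) (nat_lit 27) (.e (nat_lit 344132) (nat_lit 26) (.e (nat_lit 557101) (nat_lit 13) .nil)))) (.g (nat_lit 0) (.e (nat_lit 46846) (nat_lit 0) .nil) .nil))) 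
(.lf (nat_lit 458721) (.g (nat_lit 2402) (.e (nat_lit 2725) (nat_lit 172) (.e (nat_lit 237586) (nat_lit 2) (.e (nat_lit 196666) (nat_lit 13) (.e (nat_lit 65617) (nat_lit 10) (.e (nat_lit 344132) (nat_lit 26) .nil))))) (.g (nat_lit 0) (.e (nat_lit 48329) (nat_lit 0) .nil) .nil)))))))) (.nd (nat_lit 5) (.nd (nat_lit 6) (.nd (nat_lit 7) (.nd (nat_lit 8) (.nd (nat_lit 9) 
(.lf (nat_lit 457745) (.g (nat_lit 4446) (.e (nat_lit 2684) (nat_lit 168) (.e (nat_lit 204862) (nat_lit 27) (.e (nat_lit 344129) (nat_lit 26) (.e (nat_lit 557103) (nat_lit 14) (.e (nat_lit 180250) (nat_lit 10) (.e (nat_lit 573473) (nat_lit 12) (.e (nat_lit 57511) (nat_lit 39) (.e (nat_lit 655104) (nat_lit 0) .nil)))))))) (.g (nat_lit 1) (.e (nat_lit 45601) (nat_lit 0) .nil) .nil))) 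
(.lf (nat_lit 458257) (.g (nat_lit 2494) (.e (nat_lit 2685) (nat_lit 168) (.e (nat_lit 204863) (nat_lit 27) (.e (nat_lit 344129) (nat_lit 26) (.e (nat_lit 557104) (nat_lit 14) (.e (nat_lit 188160) (nat_lit 3) .nil))))) (.g (nat_lit 0) (.e (nat_lit 46895) (nat_lit 0) .nil) .nil)))) (.nd (nat_lit 9) 
(.lf (nat_lit 458001) (.g (nat_lit 3763) (.e (nat_lit 2684) (nat_lit 168) (.e (nat_lit 204869) (nat_lit 29) (.e (nat_lit 360475) (nat_lit 8) (.e (nat_lit 557091) (nat_lit 12) (.e (nat_lit 163843) (nat_lit 0) .nil))))) (.g (nat_lit 0) (.e (nat_lit 46190) (nat_lit 0) .nil) .nil))) 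
(.lf (nat_lit 458513) (.g (nat_lit 4166) (.e (nat_lit 2685) (nat_lit 168) (.e (nat_lit 204869) (nat_lit 29) (.e (nat_lit 360475) (nat_lit 8) (.e (nat_lit 557087) (nat_lit 11) (.e (nat_lit 24580) (nat_lit 0) (.e (nat_lit 6619) (nat_lit 357) .nil)))))) (.g (nat_lit 1) (.e (nat_lit 47593) (nat_lit 0) .nil) .nil))))) (.nd (nat_lit 8) (.nd (nat_lit 9) 
(.lf (nat_lit 457873) (.g (nat_lit 2403) (.e (nat_lit 2684) (nat_lit 168) (.e (nat_lit 204863) (nat_lit 27) (.e (nat_lit 344132) (nat_lit 26) (.e (nat_lit 557105) (nat_lit 14) (.e (nat_lit 180252) (nat_lit 10) (.e (nat_lit 573473) (nat_lit 12) (.e (nat_lit 57507) (nat_lit 39) (.e (nat_lit 647176) (nat_lit 0) .nil)))))))) (.g (nat_lit 1) (.e (nat_lit 45729) (nat_lit 0) .nil) .nil))) 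
(.lf (nat_lit 458385) (.g (nat_lit 1274) (.e (nat_lit 2685) (nat_lit 168) (.e (nat_lit 204868) (nat_lit 29) (.e (nat_lit 360466) (nat_lit 3) (.e (nat_lit 516139) (nat_lit 7) .nil)))) (.g (nat_lit 0) (.e (nat_lit 47196) (nat_lit 0) .nil) .nil)))) (.nd (nat_lit 9) 
(.lf (nat_lit 458129) (.g (nat_lit 867) (.e (nat_lit 2685) (nat_lit 168) (.e (nat_lit 204852) (nat_lit 26) (.e (nat_lit 336316) (nat_lit 17) .nil))) (.g (nat_lit 0) (.e (nat_lit 46485) (nat_lit 0) .nil) .nil))) 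
(.lf (nat_lit 458641) (.g (nat_lit 3699) (.e (nat_lit 2698) (nat_lit 169) (.e (nat_lit 213032) (nat_lit 11) (.e (nat_lit 24604) (nat_lit 2) (.e (nat_lit 90185) (nat_lit 17) (.e (nat_lit 237605) (nat_lit 9) .nil))))) (.g (nat_lit 0) (.e (nat_lit 47848) (nat_lit 0) .nil) .nil)))))) (.nd (nat_lit 7) (.nd (nat_lit 8) (.nd (nat_lit 9) 
(.lf (nat_lit 457809) (.g (nat_lit 3639) (.e (nat_lit 2684) (nat_lit 168) (.e (nat_lit 204862) (nat_lit 27) (.e (nat_lit 344133) (nat_lit 26) (.e (nat_lit 557103) (nat_lit 14) (.e (nat_lit 180250) (nat_lit 10) (.e (nat_lit 573477) (nat_lit 12) (.e (nat_lit 57511) (nat_lit 39) (.e (nat_lit 655104) (nat_lit 0) .nil)))))))) (.g (nat_lit 1) (.e (nat_lit 45665) (nat_lit 0) .nil) .nil))) 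
(.lf (nat_lit 458321) (.g (nat_lit 2305) (.e (nat_lit 2685) (nat_lit 168) (.e (nat_lit 204863) (nat_lit 27) (.e (nat_lit 344133) (nat_lit 26) (.e (nat_lit 557098) (nat_lit 13) (.e (nat_lit 179968) (nat_lit 18) .nil))))) (.g (nat_lit 0) (.e (nat_lit 46959) (nat_lit 0) .nil) .nil)))) (.nd (nat_lit 9) 
(.lf (nat_lit 458065) (.g (nat_lit 1259) (.e (nat_lit 2685) (nat_lit 168) (.e (nat_lit 204846) (nat_lit 24) (.e (nat_lit 319511) (nat_lit 10) (.e (nat_lit 5293) (nat_lit 298) .nil)))) (.g (nat_lit 0) (.e (nat_lit 46399) (nat_lit 0) .nil) .nil))) 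
(.lf (nat_lit 458577) (.g (nat_lit 2208) (.e (nat_lit 2688) (nat_lit 169) (.e (nat_lit 213032) (nat_lit 11) (.e (nat_lit 24604) (nat_lit 2) (.e (nat_lit 90176) (nat_lit 15) (.e (nat_lit 196352) (nat_lit 7) (.e (nat_lit 139289) (nat_lit 9) .nil)))))) (.g (nat_lit 1) (.e (nat_lit 47729) (nat_lit 0) .nil) .nil))))) (.nd (nat_lit 8) (.nd (nat_lit 9) 
(.lf (nat_lit 457937) (.g (nat_lit 3608) (.e (nat_lit 2684) (nat_lit 168) (.e (nat_lit 204869) (nat_lit 29) (.e (nat_lit 360474) (nat_lit 8) (.e (nat_lit 557091) (nat_lit 12) (.e (nat_lit 163841) (nat_lit 0) .nil))))) (.g (nat_lit 0) (.e (nat_lit 46086) (nat_lit 0) .nil) .nil))) 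
(.lf (nat_lit 458449) (.g (nat_lit 2891) (.e (nat_lit 2685) (nat_lit 168) (.e (nat_lit 204868) (nat_lit 29) (.e (nat_lit 360475) (nat_lit 8) (.e (nat_lit 557087) (nat_lit 11) (.e (nat_lit 24579) (nat_lit 0) (.e (nat_lit 6619) (nat_lit 357) .nil)))))) (.g (nat_lit 1) (.e (nat_lit 47417) (nat_lit 0) .nil) .nil)))) (.nd (nat_lit 9) 
(.lf (nat_lit 458193) (.g (nat_lit 1955) (.e (nat_lit 2685) (nat_lit 168) (.e (nat_lit 204862) (nat_lit 27) (.e (nat_lit 344130) (nat_lit 26) (.e (nat_lit 557097) (nat_lit 13) (.e (nat_lit 179968) (nat_lit 18) .nil))))) (.g (nat_lit 0) (.e (nat_lit 46830) (nat_lit 0) .nil) .nil))) 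
(.lf (nat_lit 458705) (.g (nat_lit 2978) (.e (nat_lit 2706) (nat_lit 170) (.e (nat_lit 221215) (nat_lit 23) (.e (nat_lit 204863) (nat_lit 27) (.e (nat_lit 344120) (nat_lit 21) (.e (nat_lit 516119) (nat_lit 1) (.e (nat_lit 164179) (nat_lit 154) (.e (nat_lit 57371) (nat_lit 2) (.e (nat_lit 90128) (nat_lit 9) .nil)))))))) (.g (nat_lit 1) (.e (nat_lit 48065) (nat_lit 0) .nil) .nil))))))) 
(.nd (nat_lit 6) (.nd (nat_lit 7) (.nd (nat_lit 8) (.nd (nat_lit 9) 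
(.lf (nat_lit 457777) (.g (nat_lit 3917) (.e (nat_lit 2684) (nat_lit 168) (.e (nat_lit 204862) (nat_lit 27) (.e (nat_lit 344130) (nat_lit 26) (.e (nat_lit 557104) (nat_lit 14) (.e (nat_lit 180252) (nat_lit 10) (.e (nat_lit 573475) (nat_lit 12) (.e (nat_lit 57507) (nat_lit 39) (.e (nat_lit 655104) (nat_lit 0) .nil)))))))) (.g (nat_lit 1) (.e (nat_lit 45633) (nat_lit 0) .nil) .nil))) 
(.lf (nat_lit 458289) (.g (nat_lit 3885) (.e (nat_lit 2685) (nat_lit 168) (.e (nat_lit 204863) (nat_lit 27) (.e (nat_lit 344132) (nat_lit 26) (.e (nat_lit 557100) (nat_lit 13) (.e (nat_lit 172067) (nat_lit 3) (.e (nat_lit 204821) (nat_lit 17) (.e (nat_lit 2391) (nat_lit 156) (.e (nat_lit 819204) (nat_lit 0) .nil)))))))) (.g (nat_lit 1) (.e (nat_lit 46927) (nat_lit 0) .nil) .nil)))) 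
(.nd (nat_lit 9) 
(.lf (nat_lit 458033) (.g (nat_lit 2935) (.e (nat_lit 2685) (nat_lit 168) (.e (nat_lit 204837) (nat_lit 20) (.e (nat_lit 114714) (nat_lit 22) (.e (nat_lit 90172) (nat_lit 14) (.e (nat_lit 180243) (nat_lit 5) (.e (nat_lit 532501) (nat_lit 1) (.e (nat_lit 57651) (nat_lit 152) (.e (nat_lit 2399) (nat_lit 157) .nil)))))))) (.g (nat_lit 1) (.e (nat_lit 46272) (nat_lit 0) .nil) .nil))) 
(.lf (nat_lit 458545) (.g (nat_lit 3658) (.e (nat_lit 2685) (nat_lit 168) (.e (nat_lit 204869) (nat_lit 29) (.e (nat_lit 360475) (nat_lit 8) (.e (nat_lit 557091) (nat_lit 12) (.e (nat_lit 163847) (nat_lit 0) (.e (nat_lit 6416) (nat_lit 341) (.e (nat_lit 163843) (nat_lit 0) (.e (nat_lit 7936) (nat_lit 388) .nil)))))))) (.g (nat_lit 1) (.e (nat_lit 47627) (nat_lit 0) .nil) .nil))))) 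
(.nd (nat_lit 8) (.nd (nat_lit 9) 
(.lf (nat_lit 457905) (.g (nat_lit 4443) (.e (nat_lit 2684) (nat_lit 168) (.e (nat_lit 204863) (nat_lit 27) (.e (nat_lit 344133) (nat_lit 26) (.e (nat_lit 557105) (nat_lit 14) (.e (nat_lit 180252) (nat_lit 10) (.e (nat_lit 573474) (nat_lit 12) (.e (nat_lit 57508) (nat_lit 39) (.e (nat_lit 655104) (nat_lit 0) .nil)))))))) (.g (nat_lit 1) (.e (nat_lit 45761) (nat_lit 0) .nil) .nil))) 
(.lf (nat_lit 458417) (.g (nat_lit 1776) (.e (nat_lit 2685) (nat_lit 168) (.e (nat_lit 204868) (nat_lit 29) (.e (nat_lit 360468) (nat_lit 3) (.e (nat_lit 516139) (nat_lit 7) (.e (nat_lit 409623) (nat_lit 10) (.e (nat_lit 5626) (nat_lit 312) .nil)))))) (.g (nat_lit 1) (.e (nat_lit 47296) (nat_lit 0) .nil) .nil)))) (.nd (nat_lit 9) 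
(.lf (nat_lit 458161) (.g (nat_lit 2888) (.e (nat_lit 2685) (nat_lit 168) (.e (nat_lit 204862) (nat_lit 27) (.e (nat_lit 344129) (nat_lit 26) (.e (nat_lit 557097) (nat_lit 13) (.e (nat_lit 172066) (nat_lit 3) (.e (nat_lit 204821) (nat_lit 17) (.e (nat_lit 2390) (nat_lit 156) (.e (nat_lit 819204) (nat_lit 0) .nil)))))))) (.g (nat_lit 1) (.e (nat_lit 46797) (nat_lit 0) .nil) .nil))) 
(.lf (nat_lit 458673) (.g (nat_lit 2105) (.e (nat_lit 2702) (nat_lit 169) (.e (nat_lit 213032) (nat_lit 11) (.e (nat_lit 24608) (nat_lit 3) (.e (nat_lit 98373) (nat_lit 29) .nil)))) (.g (nat_lit 0) (.e (nat_lit 47918) (nat_lit 0) .nil) .nil)))))) (.nd (nat_lit 7) (.nd (nat_lit 8) (.nd (nat_lit 9) 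
(.lf (nat_lit 457841) (.g (nat_lit 2864) (.e (nat_lit 2684) (nat_lit 168) (.e (nat_lit 204863) (nat_lit 27) (.e (nat_lit 344129) (nat_lit 26) (.e (nat_lit 557103) (nat_lit 14) (.e (nat_lit 180250) (nat_lit 10) (.e (nat_lit 573475) (nat_lit 12) (.e (nat_lit 57508) (nat_lit 39) (.e (nat_lit 655104) (nat_lit 0) .nil)))))))) (.g (nat_lit 1) (.e (nat_lit 45697) (nat_lit 0) .nil) .nil))) 
(.lf (nat_lit 458353) (.g (nat_lit 1607) (.e (nat_lit 2685) (nat_lit 168) (.e (nat_lit 204864) (nat_lit 27) (.e (nat_lit 344130) (nat_lit 26) (.e (nat_lit 557104) (nat_lit 14) (.e (nat_lit 188160) (nat_lit 3) .nil))))) (.g (nat_lit 0) (.e (nat_lit 46991) (nat_lit 0) .nil) .nil)))) (.nd (nat_lit 9) 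
(.lf (nat_lit 458097) (.g (nat_lit 2641) (.e (nat_lit 2685) (nat_lit 168) (.e (nat_lit 204846) (nat_lit 24) (.e (nat_lit 319533) (nat_lit 16) (.e (nat_lit 286732) (nat_lit 2) (.e (nat_lit 90171) (nat_lit 14) .nil))))) (.g (nat_lit 0) (.e (nat_lit 46447) (nat_lit 0) .nil) .nil))) 
(.lf (nat_lit 458609) (.g (nat_lit 2311) (.e (nat_lit 2694) (nat_lit 169) (.e (nat_lit 213032) (nat_lit 11) (.e (nat_lit 24604) (nat_lit 2) (.e (nat_lit 90178) (nat_lit 15) .nil)))) (.g (nat_lit 0) (.e (nat_lit 47777) (nat_lit 0) .nil) .nil))))) (.nd (nat_lit 8) (.nd (nat_lit 9) 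
(.lf (nat_lit 457969) (.g (nat_lit 3241) (.e (nat_lit 2684) (nat_lit 168) (.e (nat_lit 204869) (nat_lit 29) (.e (nat_lit 360475) (nat_lit 8) (.e (nat_lit 557087) (nat_lit 11) (.e (nat_lit 24576) (nat_lit 0) (.e (nat_lit 7936) (nat_lit 357) .nil)))))) (.g (nat_lit 1) (.e (nat_lit 46151) (nat_lit 0) .nil) .nil))) 
(.lf (nat_lit 458481) (.g (nat_lit 2496) (.e (nat_lit 2685) (nat_lit 168) (.e (nat_lit 204869) (nat_lit 29) (.e (nat_lit 360474) (nat_lit 8) (.e (nat_lit 557093) (nat_lit 12) (.e (nat_lit 163847) (nat_lit 0) .nil))))) (.g (nat_lit 0) (.e (nat_lit 47527) (nat_lit 0) .nil) .nil)))) (.nd (nat_lit 9) 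
(.lf (nat_lit 458225) (.g (nat_lit 1929) (.e (nat_lit 2685) (nat_lit 168) (.e (nat_lit 204862) (nat_lit 27) (.e (nat_lit 344133) (nat_lit 26) (.e (nat_lit 557103) (nat_lit 14) (.e (nat_lit 188160) (nat_lit 1) .nil))))) (.g (nat_lit 0) (.e (nat_lit 46862) (nat_lit 0) .nil) .nil))) 
(.lf (nat_lit 458737) (.g (nat_lit 4627) (.e (nat_lit 2725) (nat_lit 172) (.e (nat_lit 237587) (nat_lit 2) (.e (nat_lit 196666) (nat_lit 13) (.e (nat_lit 65617) (nat_lit 10) (.e (nat_lit 344130) (nat_lit 26) (.e (nat_lit 557090) (nat_lit 12) (.e (nat_lit 163843) (nat_lit 0) (.e (nat_lit 6255) (nat_lit 337) .nil)))))))) (.g (nat_lit 1) (.e (nat_lit 48349) (nat_lit 0) .nil) .nil))))))))) 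
(.nd (nat_lit 4) (.nd (nat_lit 5) (.nd (nat_lit 6) (.nd (nat_lit 7) (.nd (nat_lit 8) 
(.nd (nat_lit 9) 
(.lf (nat_lit 457737) (.g (nat_lit 2162) (.e (nat_lit 2684) (nat_lit 168) (.e (nat_lit 204862) (nat_lit 27) (.e (nat_lit 344117) (nat_lit 21) (.e (nat_lit 516130) (nat_lit 3) (.e (nat_lit 221212) (nat_lit 22) (.e (nat_lit 196677) (nat_lit 16) (.e (nat_lit 122952) (nat_lit 39) (.e (nat_lit 647175) (nat_lit 0) .nil)))))))) (.g (nat_lit 1) (.e (nat_lit 45593) (nat_lit 0) .nil) .nil))) 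
(.lf (nat_lit 458249) (.g (nat_lit 3329) (.e (nat_lit 2685) (nat_lit 168) (.e (nat_lit 204863) (nat_lit 27) (.e (nat_lit 344129) (nat_lit 26) (.e (nat_lit 557097) (nat_lit 13) (.e (nat_lit 172066) (nat_lit 3) (.e (nat_lit 204821) (nat_lit 17) (.e (nat_lit 2391) (nat_lit 156) (.e (nat_lit 819204) (nat_lit 0) .nil)))))))) (.g (nat_lit 1) (.e (nat_lit 46887) (nat_lit 0) .nil) .nil)))) 
(.nd (nat_lit 9) 
(.lf (nat_lit 457993) (.g (nat_lit 3594) (.e (nat_lit 2684) (nat_lit 168) (.e (nat_lit 204869) (nat_lit 29) (.e (nat_lit 360475) (nat_lit 8) (.e (nat_lit 557089) (nat_lit 12) (.e (nat_lit 163849) (nat_lit 0) .nil))))) (.g (nat_lit 0) (.e (nat_lit 46177) (nat_lit 0) .nil) .nil))) 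
(.lf (nat_lit 458505) (.g (nat_lit 3840) (.e (nat_lit 2685) (nat_lit 168) (.e (nat_lit 204869) (nat_lit 29) (.e (nat_lit 360475) (nat_lit 8) (.e (nat_lit 557086) (nat_lit 11) (.e (nat_lit 24580) (nat_lit 0) (.e (nat_lit 6619) (nat_lit 357) .nil)))))) (.g (nat_lit 1) (.e (nat_lit 47585) (nat_lit 0) .nil) .nil))))) (.nd (nat_lit 8) (.nd (nat_lit 9) 
(.lf (nat_lit 457865) (.g (nat_lit 4137) (.e (nat_lit 2684) (nat_lit 168) (.e (nat_lit 204863) (nat_lit 27) (.e (nat_lit 344131) (nat_lit 26) (.e (nat_lit 557105) (nat_lit 14) (.e (nat_lit 180252) (nat_lit 10) (.e (nat_lit 573474) (nat_lit 12) (.e (nat_lit 57507) (nat_lit 39) (.e (nat_lit 655104) (nat_lit 0) .nil)))))))) (.g (nat_lit 1) (.e (nat_lit 45721) (nat_lit 0) .nil) .nil))) 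
(.lf (nat_lit 458377) (.g (nat_lit 311) (.e (nat_lit 2685) (nat_lit 168) (.e (nat_lit 204868) (nat_lit 29) (.e (nat_lit 360466) (nat_lit 3) .nil))) (.g (nat_lit 0) (.e (nat_lit 47173) (nat_lit 0) .nil) .nil)))) (.nd (nat_lit 9) 
(.lf (nat_lit 458121) (.g (nat_lit 3030) (.e (nat_lit 2685) (nat_lit 168) (.e (nat_lit 204846) (nat_lit 24) (.e (nat_lit 319534) (nat_lit 16) (.e (nat_lit 286735) (nat_lit 3) (.e (nat_lit 98350) (nat_lit 24) (.e (nat_lit 409602) (nat_lit 0) (.e (nat_lit 5626) (nat_lit 312) .nil))))))) (.g (nat_lit 1) (.e (nat_lit 46474) (nat_lit 0) .nil) .nil))) 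
(.lf (nat_lit 458633) (.g (nat_lit 3028) (.e (nat_lit 2697) (nat_lit 169) (.e (nat_lit 213032) (nat_lit 11) (.e (nat_lit 24604) (nat_lit 2) (.e (nat_lit 90176) (nat_lit 15) (.e (nat_lit 188430) (nat_lit 20) .nil))))) (.g (nat_lit 0) (.e (nat_lit 47830) (nat_lit 0) .nil) .nil)))))) (.nd (nat_lit 7) (.nd (nat_lit 8) (.nd (nat_lit 9) 
(.lf (nat_lit 457801) (.g (nat_lit 2140) (.e (nat_lit 2684) (nat_lit 168) (.e (nat_lit 204862) (nat_lit 27) (.e (nat_lit 344133) (nat_lit 26) (.e (nat_lit 557103) (nat_lit 14) (.e (nat_lit 180250) (nat_lit 10) (.e (nat_lit 573473) (nat_lit 12) (.e (nat_lit 57508) (nat_lit 39) (.e (nat_lit 647176) (nat_lit 0) .nil)))))))) (.g (nat_lit 1) (.e (nat_lit 45657) (nat_lit 0) .nil) .nil))) 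
(.lf (nat_lit 458313) (.g (nat_lit 1378) (.e (nat_lit 2685) (nat_lit 168) (.e (nat_lit 204863) (nat_lit 27) (.e (nat_lit 344133) (nat_lit 26) (.e (nat_lit 557098) (nat_lit 13) .nil)))) (.g (nat_lit 0) (.e (nat_lit 46951) (nat_lit 0) .nil) .nil)))) (.nd (nat_lit 9) 
(.lf (nat_lit 458057) (.g (nat_lit 3308) (.e (nat_lit 2685) (nat_lit 168) (.e (nat_lit 204837) (nat_lit 20) (.e (nat_lit 114718) (nat_lit 23) (.e (nat_lit 98356) (nat_lit 26) (.e (nat_lit 426438) (nat_lit 18) (.e (nat_lit 98335) (nat_lit 18) (.e (nat_lit 164305) (nat_lit 226) (.e (nat_lit 2433) (nat_lit 157) .nil)))))))) (.g (nat_lit 1) (.e (nat_lit 46300) (nat_lit 0) .nil) .nil))) 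
(.lf (nat_lit 458569) (.g (nat_lit 2985) (.e (nat_lit 2686) (nat_lit 169) (.e (nat_lit 213032) (nat_lit 11) (.e (nat_lit 24608) (nat_lit 3) (.e (nat_lit 98372) (nat_lit 29) (.e (nat_lit 458496) (nat_lit 8) .nil))))) (.g (nat_lit 0) (.e (nat_lit 47712) (nat_lit 0) .nil) .nil))))) (.nd (nat_lit 8) (.nd (nat_lit 9) 
(.lf (nat_lit 457929) (.g (nat_lit 2700) (.e (nat_lit 2684) (nat_lit 168) (.e (nat_lit 204869) (nat_lit 29) (.e (nat_lit 360474) (nat_lit 8) (.e (nat_lit 557089) (nat_lit 12) (.e (nat_lit 163844) (nat_lit 0) (.e (nat_lit 6420) (nat_lit 341) (.e (nat_lit 163843) (nat_lit 0) (.e (nat_lit 7936) (nat_lit 388) .nil)))))))) (.g (nat_lit 1) (.e (nat_lit 46076) (nat_lit 0) .nil) .nil))) 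
(.lf (nat_lit 458441) (.g (nat_lit 3094) (.e (nat_lit 2685) (nat_lit 168) (.e (nat_lit 204868) (nat_lit 29) (.e (nat_lit 360475) (nat_lit 8) (.e (nat_lit 557086) (nat_lit 11) (.e (nat_lit 24577) (nat_lit 0) .nil))))) (.g (nat_lit 0) (.e (nat_lit 47409) (nat_lit 0) .nil) .nil)))) (.nd (nat_lit 9) 
(.lf (nat_lit 458185) (.g (nat_lit 3942) (.e (nat_lit 2685) (nat_lit 168) (.e (nat_lit 204862) (nat_lit 27) (.e (nat_lit 344129) (nat_lit 26) (.e (nat_lit 557104) (nat_lit 14) (.e (nat_lit 180252) (nat_lit 10) (.e (nat_lit 573474) (nat_lit 12) (.e (nat_lit 57507) (nat_lit 39) (.e (nat_lit 647170) (nat_lit 0) .nil)))))))) (.g (nat_lit 1) (.e (nat_lit 46822) (nat_lit 0) .nil) .nil))) 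
(.lf (nat_lit 458697) (.g (nat_lit 4209) (.e (nat_lit 2706) (nat_lit 170) (.e (nat_lit 221215) (nat_lit 23) (.e (nat_lit 204863) (nat_lit 27) (.e (nat_lit 344117) (nat_lit 21) (.e (nat_lit 516115) (nat_lit 1) (.e (nat_lit 164179) (nat_lit 154) (.e (nat_lit 57373) (nat_lit 2) (.e (nat_lit 90128) (nat_lit 9) .nil)))))))) (.g (nat_lit 1) (.e (nat_lit 48056) (nat_lit 0) .nil) .nil))))))) 
(.nd (nat_lit 6) (.nd (nat_lit 7) (.nd (nat_lit 8) (.nd (nat_lit 9) 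
(.lf (nat_lit 457769) (.g (nat_lit 3460) (.e (nat_lit 2684) (nat_lit 168) (.e (nat_lit 204862) (nat_lit 27) (.e (nat_lit 344130) (nat_lit 26) (.e (nat_lit 557103) (nat_lit 14) (.e (nat_lit 180250) (nat_lit 10) (.e (nat_lit 573478) (nat_lit 12) (.e (nat_lit 57509) (nat_lit 39) (.e (nat_lit 655104) (nat_lit 0) .nil)))))))) (.g (nat_lit 1) (.e (nat_lit 45625) (nat_lit 0) .nil) .nil))) 
(.lf (nat_lit 458281) (.g (nat_lit 2092) (.e (nat_lit 2685) (nat_lit 168) (.e (nat_lit 204863) (nat_lit 27) (.e (nat_lit 344131) (nat_lit 26) (.e (nat_lit 557105) (nat_lit 14) (.e (nat_lit 180252) (nat_lit 10) (.e (nat_lit 573474) (nat_lit 12) (.e (nat_lit 57348) (nat_lit 0) (.e (nat_lit 5436) (nat_lit 306) (.e (nat_lit 2433) (nat_lit 157) .nil))))))))) (.g (nat_lit 1) (.e (nat_lit 46919) (nat_lit 0) .nil) .nil)))) 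
(.nd (nat_lit 9) 
(.lf (nat_lit 458025) (.g (nat_lit 3149) (.e (nat_lit 2685) (nat_lit 168) (.e (nat_lit 204829) (nat_lit 18) (.e (nat_lit 57927) (nat_lit 282) (.e (nat_lit 163868) (nat_lit 2) (.e (nat_lit 196670) (nat_lit 14) (.e (nat_lit 73746) (nat_lit 3) (.e (nat_lit 516124) (nat_lit 2) (.e (nat_lit 220928) (nat_lit 9) .nil)))))))) (.g (nat_lit 1) (.e (nat_lit 46262) (nat_lit 0) .nil) .nil))) 
(.lf (nat_lit 458537) (.g (nat_lit 4126) (.e (nat_lit 2685) (nat_lit 168) (.e (nat_lit 204869) (nat_lit 29) (.e (nat_lit 360475) (nat_lit 8) (.e (nat_lit 557089) (nat_lit 12) (.e (nat_lit 163849) (nat_lit 0) (.e (nat_lit 6420) (nat_lit 341) (.e (nat_lit 163850) (nat_lit 0) (.e (nat_lit 7936) (nat_lit 388) .nil)))))))) (.g (nat_lit 1) (.e (nat_lit 47617) (nat_lit 0) .nil) .nil))))) 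
(.nd (nat_lit 8) (.nd (nat_lit 9) 
(.lf (nat_lit 457897) (.g (nat_lit 3738) (.e (nat_lit 2684) (nat_lit 168) (.e (nat_lit 204863) (nat_lit 27) (.e (nat_lit 344133) (nat_lit 26) (.e (nat_lit 557105) (nat_lit 14) (.e (nat_lit 180251) (nat_lit 10) (.e (nat_lit 573478) (nat_lit 12) (.e (nat_lit 57509) (nat_lit 39) (.e (nat_lit 655104) (nat_lit 0) .nil)))))))) (.g (nat_lit 1) (.e (nat_lit 45753) (nat_lit 0) .nil) .nil))) 
(.lf (nat_lit 458409) (.g (nat_lit 3187) (.e (nat_lit 2685) (nat_lit 168) (.e (nat_lit 204868) (nat_lit 29) (.e (nat_lit 360467) (nat_lit 3) (.e (nat_lit 516139) (nat_lit 7) (.e (nat_lit 409616) (nat_lit 10) (.e (nat_lit 5628) (nat_lit 312) .nil)))))) (.g (nat_lit 1) (.e (nat_lit 47288) (nat_lit 0) .nil) .nil)))) (.nd (nat_lit 9) 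
(.lf (nat_lit 458153) (.g (nat_lit 3576) (.e (nat_lit 2685) (nat_lit 168) (.e (nat_lit 204862) (nat_lit 27) (.e (nat_lit 344129) (nat_lit 26) (.e (nat_lit 557096) (nat_lit 13) (.e (nat_lit 172067) (nat_lit 3) (.e (nat_lit 204821) (nat_lit 17) (.e (nat_lit 2391) (nat_lit 156) (.e (nat_lit 819204) (nat_lit 0) .nil)))))))) (.g (nat_lit 1) (.e (nat_lit 46789) (nat_lit 0) .nil) .nil))) 
(.lf (nat_lit 458665) (.g (nat_lit 3157) (.e (nat_lit 2700) (nat_lit 169) (.e (nat_lit 213032) (nat_lit 11) (.e (nat_lit 24608) (nat_lit 3) (.e (nat_lit 98365) (nat_lit 26) (.e (nat_lit 426188) (nat_lit 9) .nil))))) (.g (nat_lit 0) (.e (nat_lit 47901) (nat_lit 0) .nil) .nil)))))) (.nd (nat_lit 7) (.nd (nat_lit 8) (.nd (nat_lit 9) 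
(.lf (nat_lit 457833) (.g (nat_lit 2583) (.e (nat_lit 2684) (nat_lit 168) (.e (nat_lit 204863) (nat_lit 27) (.e (nat_lit 344129) (nat_lit 26) (.e (nat_lit 557103) (nat_lit 14) (.e (nat_lit 180250) (nat_lit 10) .nil))))) (.g (nat_lit 0) (.e (nat_lit 45689) (nat_lit 0) .nil) .nil))) 
(.lf (nat_lit 458345) (.g (nat_lit 4460) (.e (nat_lit 2685) (nat_lit 168) (.e (nat_lit 204863) (nat_lit 27) (.e (nat_lit 344133) (nat_lit 26) (.e (nat_lit 557105) (nat_lit 14) (.e (nat_lit 180252) (nat_lit 10) (.e (nat_lit 573474) (nat_lit 12) (.e (nat_lit 57508) (nat_lit 39) (.e (nat_lit 647168) (nat_lit 0) .nil)))))))) (.g (nat_lit 1) (.e (nat_lit 46983) (nat_lit 0) .nil) .nil)))) 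
(.nd (nat_lit 9) 
(.lf (nat_lit 458089) (.g (nat_lit 3487) (.e (nat_lit 2685) (nat_lit 168) (.e (nat_lit 204846) (nat_lit 24) (.e (nat_lit 319531) (nat_lit 16) (.e (nat_lit 286735) (nat_lit 3) (.e (nat_lit 98368) (nat_lit 27) (.e (nat_lit 442112) (nat_lit 8) .nil)))))) (.g (nat_lit 1) (.e (nat_lit 46434) (nat_lit 0) .nil) .nil))) 
(.lf (nat_lit 458601) (.g (nat_lit 1501) (.e (nat_lit 2692) (nat_lit 169) (.e (nat_lit 213030) (nat_lit 11) (.e (nat_lit 24617) (nat_lit 7) (.e (nat_lit 319532) (nat_lit 16) .nil)))) (.g (nat_lit 0) (.e (nat_lit 47764) (nat_lit 0) .nil) .nil))))) (.nd (nat_lit 8) (.nd (nat_lit 9) 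
(.lf (nat_lit 457961) (.g (nat_lit 3866) (.e (nat_lit 2684) (nat_lit 168) (.e (nat_lit 204869) (nat_lit 29) (.e (nat_lit 360475) (nat_lit 8) (.e (nat_lit 557085) (nat_lit 11) .nil)))) (.g (nat_lit 0) (.e (nat_lit 46143) (nat_lit 0) .nil) .nil))) 
(.lf (nat_lit 458473) (.g (nat_lit 2286) (.e (nat_lit 2685) (nat_lit 168) (.e (nat_lit 204869) (nat_lit 29) (.e (nat_lit 360474) (nat_lit 8) (.e (nat_lit 557072) (nat_lit 9) (.e (nat_lit 214) (nat_lit 19) .nil))))) (.g (nat_lit 0) (.e (nat_lit 47503) (nat_lit 0) .nil) .nil)))) (.nd (nat_lit 9) 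
(.lf (nat_lit 458217) (.g (nat_lit 2489) (.e (nat_lit 2685) (nat_lit 168) (.e (nat_lit 204862) (nat_lit 27) (.e (nat_lit 344133) (nat_lit 26) (.e (nat_lit 557098) (nat_lit 13) (.e (nat_lit 172064) (nat_lit 2) .nil))))) (.g (nat_lit 0) (.e (nat_lit 46854) (nat_lit 0) .nil) .nil))) 
(.lf (nat_lit 458729) (.g (nat_lit 4252) (.e (nat_lit 2725) (nat_lit 172) (.e (nat_lit 237587) (nat_lit 2) (.e (nat_lit 196666) (nat_lit 13) (.e (nat_lit 65617) (nat_lit 10) (.e (nat_lit 344127) (nat_lit 26) (.e (nat_lit 557090) (nat_lit 12) (.e (nat_lit 163844) (nat_lit 0) (.e (nat_lit 6255) (nat_lit 337) .nil)))))))) (.g (nat_lit 1) (.e (nat_lit 48341) (nat_lit 0) .nil) .nil)))))))) 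
(.nd (nat_lit 5) (.nd (nat_lit 6) (.nd (nat_lit 7) (.nd (nat_lit 8) (.nd (nat_lit 9) 
(.lf (nat_lit 457753) (.g (nat_lit 2584) (.e (nat_lit 2684) (nat_lit 168) (.e (nat_lit 204862) (nat_lit 27) (.e (nat_lit 344129) (nat_lit 26) (.e (nat_lit 557104) (nat_lit 14) (.e (nat_lit 188160) (nat_lit 3) .nil))))) (.g (nat_lit 0) (.e (nat_lit 45609) (nat_lit 0) .nil) .nil))) 
(.lf (nat_lit 458265) (.g (nat_lit 2182) (.e (nat_lit 2685) (nat_lit 168) (.e (nat_lit 204863) (nat_lit 27) (.e (nat_lit 344130) (nat_lit 26) (.e (nat_lit 557103) (nat_lit 14) (.e (nat_lit 188160) (nat_lit 3) .nil))))) (.g (nat_lit 0) (.e (nat_lit 46903) (nat_lit 0) .nil) .nil)))) (.nd (nat_lit 9) 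
(.lf (nat_lit 458009) (.g (nat_lit 4211) (.e (nat_lit 2684) (nat_lit 168) (.e (nat_lit 204869) (nat_lit 29) (.e (nat_lit 360475) (nat_lit 8) (.e (nat_lit 557091) (nat_lit 12) (.e (nat_lit 163847) (nat_lit 0) (.e (nat_lit 6420) (nat_lit 341) (.e (nat_lit 163843) (nat_lit 0) (.e (nat_lit 7936) (nat_lit 388) .nil)))))))) (.g (nat_lit 1) (.e (nat_lit 46201) (nat_lit 0) .nil) .nil))) 
(.lf (nat_lit 458521) (.g (nat_lit 3168) (.e (nat_lit 2685) (nat_lit 168) (.e (nat_lit 204869) (nat_lit 29) (.e (nat_lit 360475) (nat_lit 8) (.e (nat_lit 557087) (nat_lit 11) (.e (nat_lit 24590) (nat_lit 0) .nil))))) (.g (nat_lit 0) (.e (nat_lit 47601) (nat_lit 0) .nil) .nil))))) (.nd (nat_lit 8) (.nd (nat_lit 9) 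
(.lf (nat_lit 457881) (.g (nat_lit 4120) (.e (nat_lit 2684) (nat_lit 168) (.e (nat_lit 204863) (nat_lit 27) (.e (nat_lit 344132) (nat_lit 26) (.e (nat_lit 557105) (nat_lit 14) (.e (nat_lit 180252) (nat_lit 10) (.e (nat_lit 573474) (nat_lit 12) (.e (nat_lit 57508) (nat_lit 39) (.e (nat_lit 647175) (nat_lit 0) .nil)))))))) (.g (nat_lit 1) (.e (nat_lit 45737) (nat_lit 0) .nil) .nil))) 
(.lf (nat_lit 458393) (.g (nat_lit 2800) (.e (nat_lit 2685) (nat_lit 168) (.e (nat_lit 204868) (nat_lit 29) (.e (nat_lit 360466) (nat_lit 3) (.e (nat_lit 516139) (nat_lit 7) (.e (nat_lit 409617) (nat_lit 10) (.e (nat_lit 5612) (nat_lit 312) .nil)))))) (.g (nat_lit 1) (.e (nat_lit 47204) (nat_lit 0) .nil) .nil)))) (.nd (nat_lit 9) 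
(.lf (nat_lit 458137) (.g (nat_lit 2260) (.e (nat_lit 2685) (nat_lit 168) (.e (nat_lit 204855) (nat_lit 26) (.e (nat_lit 336226) (nat_lit 14) (.e (nat_lit 401414) (nat_lit 0) (.e (nat_lit 3124) (nat_lit 193) (.e (nat_lit 500071) (nat_lit 19) (.e (nat_lit 81664) (nat_lit 32) .nil))))))) (.g (nat_lit 1) (.e (nat_lit 46729) (nat_lit 0) .nil) .nil))) 
(.lf (nat_lit 458649) (.g (nat_lit 1826) (.e (nat_lit 2700) (nat_lit 169) (.e (nat_lit 213030) (nat_lit 11) (.e (nat_lit 24608) (nat_lit 3) (.e (nat_lit 98372) (nat_lit 29) (.e (nat_lit 458496) (nat_lit 8) (.e (nat_lit 557065) (nat_lit 9) .nil)))))) (.g (nat_lit 1) (.e (nat_lit 47883) (nat_lit 0) .nil) .nil)))))) (.nd (nat_lit 7) (.nd (nat_lit 8) (.nd (nat_lit 9) 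
(.lf (nat_lit 457817) (.g (nat_lit 4028) (.e (nat_lit 2684) (nat_lit 168) (.e (nat_lit 204862) (nat_lit 27) (.e (nat_lit 344133) (nat_lit 26) (.e (nat_lit 557105) (nat_lit 14) (.e (nat_lit 180252) (nat_lit 10) (.e (nat_lit 573473) (nat_lit 12) (.e (nat_lit 57508) (nat_lit 39) (.e (nat_lit 655104) (nat_lit 0) .nil)))))))) (.g (nat_lit 1) (.e (nat_lit 45673) (nat_lit 0) .nil) .nil))) 
(.lf (nat_lit 458329) (.g (nat_lit 2592) (.e (nat_lit 2685) (nat_lit 168) (.e (nat_lit 204863) (nat_lit 27) (.e (nat_lit 344133) (nat_lit 26) (.e (nat_lit 557103) (nat_lit 14) (.e (nat_lit 180250) (nat_lit 10) (.e (nat_lit 573473) (nat_lit 12) (.e (nat_lit 57507) (nat_lit 39) (.e (nat_lit 655104) (nat_lit 0) .nil)))))))) (.g (nat_lit 1) (.e (nat_lit 46967) (nat_lit 0) .nil) .nil)))) 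
(.nd (nat_lit 9) 
(.lf (nat_lit 458073) (.g (nat_lit 1826) (.e (nat_lit 2685) (nat_lit 168) (.e (nat_lit 204846) (nat_lit 24) (.e (nat_lit 319530) (nat_lit 16) (.e (nat_lit 286733) (nat_lit 2) .nil)))) (.g (nat_lit 0) (.e (nat_lit 46417) (nat_lit 0) .nil) .nil))) 
(.lf (nat_lit 458585) (.g (nat_lit 3315) (.e (nat_lit 2690) (nat_lit 169) (.e (nat_lit 213032) (nat_lit 11) (.e (nat_lit 24604) (nat_lit 2) (.e (nat_lit 90178) (nat_lit 15) (.e (nat_lit 188441) (nat_lit 20) .nil))))) (.g (nat_lit 0) (.e (nat_lit 47741) (nat_lit 0) .nil) .nil))))) (.nd (nat_lit 8) (.nd (nat_lit 9) 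
(.lf (nat_lit 457945) (.g (nat_lit 2879) (.e (nat_lit 2684) (nat_lit 168) (.e (nat_lit 204869) (nat_lit 29) (.e (nat_lit 360474) (nat_lit 8) (.e (nat_lit 557093) (nat_lit 12) .nil)))) (.g (nat_lit 0) (.e (nat_lit 46097) (nat_lit 0) .nil) .nil))) 
(.lf (nat_lit 458457) (.g (nat_lit 2126) (.e (nat_lit 2685) (nat_lit 168) (.e (nat_lit 204869) (nat_lit 29) (.e (nat_lit 360451) (nat_lit 0) (.e (nat_lit 3950) (nat_lit 239) .nil)))) (.g (nat_lit 0) (.e (nat_lit 47435) (nat_lit 0) .nil) .nil)))) (.nd (nat_lit 9) 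
(.lf (nat_lit 458201) (.g (nat_lit 2589) (.e (nat_lit 2685) (nat_lit 168) (.e (nat_lit 204862) (nat_lit 27) (.e (nat_lit 344130) (nat_lit 26) (.e (nat_lit 557103) (nat_lit 14) (.e (nat_lit 180250) (nat_lit 10) (.e (nat_lit 573475) (nat_lit 12) (.e (nat_lit 57508) (nat_lit 39) (.e (nat_lit 647170) (nat_lit 0) .nil)))))))) (.g (nat_lit 1) (.e (nat_lit 46838) (nat_lit 0) .nil) .nil))) 
(.lf (nat_lit 458713) (.g (nat_lit 4698) (.e (nat_lit 2710) (nat_lit 170) (.e (nat_lit 221208) (nat_lit 21) (.e (nat_lit 164402) (nat_lit 256) (.e (nat_lit 57427) (nat_lit 15) (.e (nat_lit 360474) (nat_lit 8) (.e (nat_lit 557091) (nat_lit 12) (.e (nat_lit 164003) (nat_lit 40) (.e (nat_lit 655360) (nat_lit 0) .nil)))))))) (.g (nat_lit 1) (.e (nat_lit 48134) (nat_lit 0) .nil) .nil))))))) 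
(.nd (nat_lit 6) (.nd (nat_lit 7) (.nd (nat_lit 8) (.nd (nat_lit 9) 
(.lf (nat_lit 457785) (.g (nat_lit 3955) (.e (nat_lit 2684) (nat_lit 168) (.e (nat_lit 204862) (nat_lit 27) (.e (nat_lit 344132) (nat_lit 26) (.e (nat_lit 557105) (nat_lit 14) (.e (nat_lit 180252) (nat_lit 10) (.e (nat_lit 573473) (nat_lit 12) (.e (nat_lit 57508) (nat_lit 39) (.e (nat_lit 647175) (nat_lit 0) .nil)))))))) (.g (nat_lit 1) (.e (nat_lit 45641) (nat_lit 0) .nil) .nil))) 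
(.lf (nat_lit 458297) (.g (nat_lit 1878) (.e (nat_lit 2685) (nat_lit 168) (.e (nat_lit 204863) (nat_lit 27) (.e (nat_lit 344132) (nat_lit 26) (.e (nat_lit 557105) (nat_lit 14) (.e (nat_lit 180251) (nat_lit 10) .nil))))) (.g (nat_lit 0) (.e (nat_lit 46935) (nat_lit 0) .nil) .nil)))) (.nd (nat_lit 9) 
(.lf (nat_lit 458041) (.g (nat_lit 1610) (.e (nat_lit 2685) (nat_lit 168) (.e (nat_lit 204837) (nat_lit 20) (.e (nat_lit 114714) (nat_lit 22) (.e (nat_lit 90173) (nat_lit 14) .nil)))) (.g (nat_lit 0) (.e (nat_lit 46281) (nat_lit 0) .nil) .nil))) 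
(.lf (nat_lit 458553) (.g (nat_lit 3458) (.e (nat_lit 2685) (nat_lit 168) (.e (nat_lit 204877) (nat_lit 31) (.e (nat_lit 376865) (nat_lit 22) (.e (nat_lit 90172) (nat_lit 14) (.e (nat_lit 180225) (nat_lit 0) (.e (nat_lit 4778) (nat_lit 281) (.e (nat_lit 2445) (nat_lit 157) .nil))))))) (.g (nat_lit 1) (.e (nat_lit 47643) (nat_lit 0) .nil) .nil))))) (.nd (nat_lit 8) (.nd (nat_lit 9) 
(.lf (nat_lit 457913) (.g (nat_lit 2174) (.e (nat_lit 2684) (nat_lit 168) (.e (nat_lit 204868) (nat_lit 29) (.e (nat_lit 360473) (nat_lit 8) (.e (nat_lit 557087) (nat_lit 11) (.e (nat_lit 24581) (nat_lit 0) (.e (nat_lit 7936) (nat_lit 357) .nil)))))) (.g (nat_lit 1) (.e (nat_lit 45958) (nat_lit 0) .nil) .nil))) 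
(.lf (nat_lit 458425) (.g (nat_lit 1712) (.e (nat_lit 2685) (nat_lit 168) (.e (nat_lit 204868) (nat_lit 29) (.e (nat_lit 360473) (nat_lit 8) (.e (nat_lit 557086) (nat_lit 11) (.e (nat_lit 24577) (nat_lit 0) (.e (nat_lit 6617) (nat_lit 357) .nil)))))) (.g (nat_lit 1) (.e (nat_lit 47361) (nat_lit 0) .nil) .nil)))) (.nd (nat_lit 9) 
(.lf (nat_lit 458169) (.g (nat_lit 3209) (.e (nat_lit 2685) (nat_lit 168) (.e (nat_lit 204862) (nat_lit 27) (.e (nat_lit 344129) (nat_lit 26) (.e (nat_lit 557103) (nat_lit 14) (.e (nat_lit 180244) (nat_lit 5) (.e (nat_lit 532490) (nat_lit 0) (.e (nat_lit 2391) (nat_lit 156) (.e (nat_lit 819204) (nat_lit 0) .nil)))))))) (.g (nat_lit 1) (.e (nat_lit 46806) (nat_lit 0) .nil) .nil))) 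
(.lf (nat_lit 458681) (.g (nat_lit 2599) (.e (nat_lit 2706) (nat_lit 170) (.e (nat_lit 221214) (nat_lit 23) (.e (nat_lit 204863) (nat_lit 27) (.e (nat_lit 344117) (nat_lit 21) (.e (nat_lit 516120) (nat_lit 1) .nil))))) (.g (nat_lit 0) (.e (nat_lit 48020) (nat_lit 0) .nil) .nil)))))) (.nd (nat_lit 7) (.nd (nat_lit 8) (.nd (nat_lit 9) 
(.lf (nat_lit 457849) (.g (nat_lit 3383) (.e (nat_lit 2684) (nat_lit 168) (.e (nat_lit 204863) (nat_lit 27) (.e (nat_lit 344130) (nat_lit 26) (.e (nat_lit 557103) (nat_lit 14) (.e (nat_lit 180250) (nat_lit 10) (.e (nat_lit 573473) (nat_lit 12) (.e (nat_lit 57508) (nat_lit 39) (.e (nat_lit 647175) (nat_lit 0) .nil)))))))) (.g (nat_lit 1) (.e (nat_lit 45705) (nat_lit 0) .nil) .nil))) 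
(.lf (nat_lit 458361) (.g (nat_lit 3477) (.e (nat_lit 2685) (nat_lit 168) (.e (nat_lit 204864) (nat_lit 27) (.e (nat_lit 344132) (nat_lit 26) (.e (nat_lit 557105) (nat_lit 14) (.e (nat_lit 180252) (nat_lit 10) (.e (nat_lit 573475) (nat_lit 12) (.e (nat_lit 57507) (nat_lit 39) (.e (nat_lit 647170) (nat_lit 0) .nil)))))))) (.g (nat_lit 1) (.e (nat_lit 46999) (nat_lit 0) .nil) .nil)))) 
(.nd (nat_lit 9) 
(.lf (nat_lit 458105) (.g (nat_lit 4028) (.e (nat_lit 2685) (nat_lit 168) (.e (nat_lit 204846) (nat_lit 24) (.e (nat_lit 319533) (nat_lit 16) (.e (nat_lit 286734) (nat_lit 3) (.e (nat_lit 98350) (nat_lit 24) (.e (nat_lit 409603) (nat_lit 0) (.e (nat_lit 5626) (nat_lit 312) .nil))))))) (.g (nat_lit 1) (.e (nat_lit 46455) (nat_lit 0) .nil) .nil))) 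
(.lf (nat_lit 458617) (.g (nat_lit 2067) (.e (nat_lit 2695) (nat_lit 169) (.e (nat_lit 213032) (nat_lit 11) (.e (nat_lit 24604) (nat_lit 2) (.e (nat_lit 90170) (nat_lit 13) .nil)))) (.g (nat_lit 0) (.e (nat_lit 47788) (nat_lit 0) .nil) .nil))))) (.nd (nat_lit 8) (.nd (nat_lit 9) 
(.lf (nat_lit 457977) (.g (nat_lit 3208) (.e (nat_lit 2684) (nat_lit 168) (.e (nat_lit 204869) (nat_lit 29) (.e (nat_lit 360475) (nat_lit 8) (.e (nat_lit 557087) (nat_lit 11) (.e (nat_lit 24585) (nat_lit 0) (.e (nat_lit 7936) (nat_lit 357) .nil)))))) (.g (nat_lit 1) (.e (nat_lit 46159) (nat_lit 0) .nil) .nil))) 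
(.lf (nat_lit 458489) (.g (nat_lit 1638) (.e (nat_lit 2685) (nat_lit 168) (.e (nat_lit 204869) (nat_lit 29) (.e (nat_lit 360475) (nat_lit 8) (.e (nat_lit 557066) (nat_lit 9) .nil)))) (.g (nat_lit 0) (.e (nat_lit 47539) (nat_lit 0) .nil) .nil)))) (.nd (nat_lit 9) 
(.lf (nat_lit 458233) (.g (nat_lit 2546) (.e (nat_lit 2685) (nat_lit 168) (.e (nat_lit 204862) (nat_lit 27) (.e (nat_lit 344133) (nat_lit 26) (.e (nat_lit 557105) (nat_lit 14) (.e (nat_lit 180251) (nat_lit 10) .nil))))) (.g (nat_lit 0) (.e (nat_lit 46870) (nat_lit 0) .nil) .nil))) 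
(.lf (nat_lit 458745) (.g (nat_lit 3442) (.e (nat_lit 2725) (nat_lit 172) (.e (nat_lit 237587) (nat_lit 2) (.e (nat_lit 196666) (nat_lit 13) (.e (nat_lit 65617) (nat_lit 10) (.e (nat_lit 344132) (nat_lit 26) (.e (nat_lit 557093) (nat_lit 12) (.e (nat_lit 163849) (nat_lit 0) (.e (nat_lit 6254) (nat_lit 337) .nil)))))))) (.g (nat_lit 1) (.e (nat_lit 48357) (nat_lit 0) .nil) .nil)))))))))) 
(.nd (nat_lit 3) (.nd (nat_lit 4) (.nd (nat_lit 5) (.nd (nat_lit 6) (.nd (nat_lit 7) 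
(.nd (nat_lit 8) (.nd (nat_lit 9) 
(.lf (nat_lit 457733) (.g (nat_lit 2044) (.e (nat_lit 2684) (nat_lit 168) (.e (nat_lit 204862) (nat_lit 27) (.e (nat_lit 344117) (nat_lit 21) (.e (nat_lit 516130) (nat_lit 3) (.e (nat_lit 221211) (nat_lit 22) (.e (nat_lit 196661) (nat_lit 12) (.e (nat_lit 57511) (nat_lit 39) (.e (nat_lit 655104) (nat_lit 0) .nil)))))))) (.g (nat_lit 1) (.e (nat_lit 45589) (nat_lit 0) .nil) .nil))) 
(.lf (nat_lit 458245) (.g (nat_lit 735) (.e (nat_lit 2685) (nat_lit 168) (.e (nat_lit 204863) (nat_lit 27) (.e (nat_lit 344120) (nat_lit 21) .nil))) (.g (nat_lit 0) (.e (nat_lit 46882) (nat_lit 0) .nil) .nil)))) (.nd (nat_lit 9) 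
(.lf (nat_lit 457989) (.g (nat_lit 4395) (.e (nat_lit 2684) (nat_lit 168) (.e (nat_lit 204869) (nat_lit 29) (.e (nat_lit 360475) (nat_lit 8) (.e (nat_lit 557089) (nat_lit 12) (.e (nat_lit 163844) (nat_lit 0) (.e (nat_lit 6420) (nat_lit 341) (.e (nat_lit 163843) (nat_lit 0) (.e (nat_lit 7936) (nat_lit 388) .nil)))))))) (.g (nat_lit 1) (.e (nat_lit 46173) (nat_lit 0) .nil) .nil))) 
(.lf (nat_lit 458501) (.g (nat_lit 2743) (.e (nat_lit 2685) (nat_lit 168) (.e (nat_lit 204869) (nat_lit 29) (.e (nat_lit 360475) (nat_lit 8) (.e (nat_lit 557086) (nat_lit 11) (.e (nat_lit 24577) (nat_lit 0) (.e (nat_lit 6617) (nat_lit 357) .nil)))))) (.g (nat_lit 1) (.e (nat_lit 47581) (nat_lit 0) .nil) .nil))))) (.nd (nat_lit 8) (.nd (nat_lit 9) 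
(.lf (nat_lit 457861) (.g (nat_lit 3735) (.e (nat_lit 2684) (nat_lit 168) (.e (nat_lit 204863) (nat_lit 27) (.e (nat_lit 344131) (nat_lit 26) (.e (nat_lit 557105) (nat_lit 14) (.e (nat_lit 180252) (nat_lit 10) (.e (nat_lit 573473) (nat_lit 12) (.e (nat_lit 57508) (nat_lit 39) (.e (nat_lit 647175) (nat_lit 0) .nil)))))))) (.g (nat_lit 1) (.e (nat_lit 45717) (nat_lit 0) .nil) .nil))) 
(.lf (nat_lit 458373) (.g (nat_lit 566) (.e (nat_lit 2685) (nat_lit 168) (.e (nat_lit 204868) (nat_lit 29) (.e (nat_lit 360448) (nat_lit 0) .nil))) (.g (nat_lit 0) (.e (nat_lit 47165) (nat_lit 0) .nil) .nil)))) (.nd (nat_lit 9) 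
(.lf (nat_lit 458117) (.g (nat_lit 1517) (.e (nat_lit 2685) (nat_lit 168) (.e (nat_lit 204846) (nat_lit 24) (.e (nat_lit 319534) (nat_lit 16) (.e (nat_lit 286735) (nat_lit 3) .nil)))) (.g (nat_lit 0) (.e (nat_lit 46470) (nat_lit 0) .nil) .nil))) 
(.lf (nat_lit 458629) (.g (nat_lit 1654) (.e (nat_lit 2696) (nat_lit 169) (.e (nat_lit 213032) (nat_lit 11) (.e (nat_lit 24604) (nat_lit 2) (.e (nat_lit 90178) (nat_lit 15) .nil)))) (.g (nat_lit 0) (.e (nat_lit 47811) (nat_lit 0) .nil) .nil)))))) (.nd (nat_lit 7) (.nd (nat_lit 8) (.nd (nat_lit 9) 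
(.lf (nat_lit 457797) (.g (nat_lit 1949) (.e (nat_lit 2684) (nat_lit 168) (.e (nat_lit 204862) (nat_lit 27) (.e (nat_lit 344133) (nat_lit 26) (.e (nat_lit 557103) (nat_lit 14) (.e (nat_lit 180250) (nat_lit 10) .nil))))) (.g (nat_lit 0) (.e (nat_lit 45653) (nat_lit 0) .nil) .nil))) 
(.lf (nat_lit 458309) (.g (nat_lit 3542) (.e (nat_lit 2685) (nat_lit 168) (.e (nat_lit 204863) (nat_lit 27) (.e (nat_lit 344132) (nat_lit 26) (.e (nat_lit 557105) (nat_lit 14) (.e (nat_lit 180252) (nat_lit 10) (.e (nat_lit 573475) (nat_lit 12) (.e (nat_lit 57507) (nat_lit 39) (.e (nat_lit 655104) (nat_lit 0) .nil)))))))) (.g (nat_lit 1) (.e (nat_lit 46947) (nat_lit 0) .nil) .nil)))) 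
(.nd (nat_lit 9) 
(.lf (nat_lit 458053) (.g (nat_lit 2006) (.e (nat_lit 2685) (nat_lit 168) (.e (nat_lit 204837) (nat_lit 20) (.e (nat_lit 114716) (nat_lit 22) (.e (nat_lit 90172) (nat_lit 14) (.e (nat_lit 180244) (nat_lit 5) (.e (nat_lit 532501) (nat_lit 1) (.e (nat_lit 57651) (nat_lit 152) (.e (nat_lit 2399) (nat_lit 157) .nil)))))))) (.g (nat_lit 1) (.e (nat_lit 46295) (nat_lit 0) .nil) .nil))) 
(.lf (nat_lit 458565) (.g (nat_lit 3131) (.e (nat_lit 2686) (nat_lit 169) (.e (nat_lit 213032) (nat_lit 11) (.e (nat_lit 24604) (nat_lit 2) (.e (nat_lit 90176) (nat_lit 15) (.e (nat_lit 188430) (nat_lit 20) .nil))))) (.g (nat_lit 0) (.e (nat_lit 47708) (nat_lit 0) .nil) .nil))))) (.nd (nat_lit 8) (.nd (nat_lit 9) 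
(.lf (nat_lit 457925) (.g (nat_lit 2182) (.e (nat_lit 2684) (nat_lit 168) (.e (nat_lit 204869) (nat_lit 29) (.e (nat_lit 360474) (nat_lit 8) (.e (nat_lit 557089) (nat_lit 12) (.e (nat_lit 163843) (nat_lit 0) .nil))))) (.g (nat_lit 0) (.e (nat_lit 46070) (nat_lit 0) .nil) .nil))) 
(.lf (nat_lit 458437) (.g (nat_lit 3507) (.e (nat_lit 2685) (nat_lit 168) (.e (nat_lit 204868) (nat_lit 29) (.e (nat_lit 360475) (nat_lit 8) (.e (nat_lit 557065) (nat_lit 9) (.e (nat_lit 214) (nat_lit 19) .nil))))) (.g (nat_lit 0) (.e (nat_lit 47378) (nat_lit 0) .nil) .nil)))) (.nd (nat_lit 9) 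
(.lf (nat_lit 458181) (.g (nat_lit 2900) (.e (nat_lit 2685) (nat_lit 168) (.e (nat_lit 204862) (nat_lit 27) (.e (nat_lit 344129) (nat_lit 26) (.e (nat_lit 557104) (nat_lit 14) (.e (nat_lit 188160) (nat_lit 3) .nil))))) (.g (nat_lit 0) (.e (nat_lit 46818) (nat_lit 0) .nil) .nil))) 
(.lf (nat_lit 458693) (.g (nat_lit 3946) (.e (nat_lit 2706) (nat_lit 170) (.e (nat_lit 221215) (nat_lit 23) (.e (nat_lit 204862) (nat_lit 27) (.e (nat_lit 344117) (nat_lit 21) (.e (nat_lit 516116) (nat_lit 1) (.e (nat_lit 164181) (nat_lit 154) (.e (nat_lit 57375) (nat_lit 2) (.e (nat_lit 90128) (nat_lit 9) .nil)))))))) (.g (nat_lit 1) (.e (nat_lit 48051) (nat_lit 0) .nil) .nil))))))) 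
(.nd (nat_lit 6) (.nd (nat_lit 7) (.nd (nat_lit 8) (.nd (nat_lit 9) 
(.lf (nat_lit 457765) (.g (nat_lit 3979) (.e (nat_lit 2684) (nat_lit 168) (.e (nat_lit 204862) (nat_lit 27) (.e (nat_lit 344130) (nat_lit 26) (.e (nat_lit 557103) (nat_lit 14) (.e (nat_lit 180250) (nat_lit 10) (.e (nat_lit 573473) (nat_lit 12) (.e (nat_lit 57508) (nat_lit 39) (.e (nat_lit 647175) (nat_lit 0) .nil)))))))) (.g (nat_lit 1) (.e (nat_lit 45621) (nat_lit 0) .nil) .nil))) 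
(.lf (nat_lit 458277) (.g (nat_lit 2020) (.e (nat_lit 2685) (nat_lit 168) (.e (nat_lit 204863) (nat_lit 27) (.e (nat_lit 344131) (nat_lit 26) (.e (nat_lit 557103) (nat_lit 14) (.e (nat_lit 188160) (nat_lit 3) .nil))))) (.g (nat_lit 0) (.e (nat_lit 46915) (nat_lit 0) .nil) .nil)))) (.nd (nat_lit 9) 
(.lf (nat_lit 458021) (.g (nat_lit 1776) (.e (nat_lit 2684) (nat_lit 168) (.e (nat_lit 204883) (nat_lit 33) (.e (nat_lit 401457) (nat_lit 13) (.e (nat_lit 491264) (nat_lit 10) (.e (nat_lit 434279) (nat_lit 39) (.e (nat_lit 663579) (nat_lit 9) .nil)))))) (.g (nat_lit 1) (.e (nat_lit 46239) (nat_lit 0) .nil) .nil))) 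
(.lf (nat_lit 458533) (.g (nat_lit 3615) (.e (nat_lit 2685) (nat_lit 168) (.e (nat_lit 204869) (nat_lit 29) (.e (nat_lit 360475) (nat_lit 8) (.e (nat_lit 557089) (nat_lit 12) (.e (nat_lit 163848) (nat_lit 0) .nil))))) (.g (nat_lit 0) (.e (nat_lit 47613) (nat_lit 0) .nil) .nil))))) (.nd (nat_lit 8) (.nd (nat_lit 9) 
(.lf (nat_lit 457893) (.g (nat_lit 2324) (.e (nat_lit 2684) (nat_lit 168) (.e (nat_lit 204863) (nat_lit 27) (.e (nat_lit 344133) (nat_lit 26) (.e (nat_lit 557103) (nat_lit 14) (.e (nat_lit 180250) (nat_lit 10) (.e (nat_lit 573474) (nat_lit 12) (.e (nat_lit 57509) (nat_lit 39) (.e (nat_lit 655104) (nat_lit 0) .nil)))))))) (.g (nat_lit 1) (.e (nat_lit 45749) (nat_lit 0) .nil) .nil))) 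
(.lf (nat_lit 458405) (.g (nat_lit 2250) (.e (nat_lit 2685) (nat_lit 168) (.e (nat_lit 204868) (nat_lit 29) (.e (nat_lit 360466) (nat_lit 3) (.e (nat_lit 516142) (nat_lit 8) (.e (nat_lit 417817) (nat_lit 10) (.e (nat_lit 7936) (nat_lit 312) .nil)))))) (.g (nat_lit 1) (.e (nat_lit 47218) (nat_lit 0) .nil) .nil)))) (.nd (nat_lit 9) 
(.lf (nat_lit 458149) (.g (nat_lit 2224) (.e (nat_lit 2685) (nat_lit 168) (.e (nat_lit 204862) (nat_lit 27) (.e (nat_lit 344117) (nat_lit 21) (.e (nat_lit 516130) (nat_lit 3) (.e (nat_lit 221214) (nat_lit 23) (.e (nat_lit 204830) (nat_lit 18) (.e (nat_lit 57905) (nat_lit 278) (.e (nat_lit 2433) (nat_lit 157) .nil)))))))) (.g (nat_lit 1) (.e (nat_lit 46784) (nat_lit 0) .nil) .nil))) 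
(.lf (nat_lit 458661) (.g (nat_lit 2489) (.e (nat_lit 2700) (nat_lit 169) (.e (nat_lit 213032) (nat_lit 11) (.e (nat_lit 24604) (nat_lit 2) (.e (nat_lit 90185) (nat_lit 17) .nil)))) (.g (nat_lit 0) (.e (nat_lit 47897) (nat_lit 0) .nil) .nil)))))) (.nd (nat_lit 7) (.nd (nat_lit 8) (.nd (nat_lit 9) 
(.lf (nat_lit 457829) (.g (nat_lit 1783) (.e (nat_lit 2684) (nat_lit 168) (.e (nat_lit 204863) (nat_lit 27) (.e (nat_lit 344118) (nat_lit 21) (.e (nat_lit 516129) (nat_lit 3) (.e (nat_lit 221210) (nat_lit 22) .nil))))) (.g (nat_lit 0) (.e (nat_lit 45685) (nat_lit 0) .nil) .nil))) 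
(.lf (nat_lit 458341) (.g (nat_lit 4008) (.e (nat_lit 2685) (nat_lit 168) (.e (nat_lit 204863) (nat_lit 27) (.e (nat_lit 344133) (nat_lit 26) (.e (nat_lit 557105) (nat_lit 14) (.e (nat_lit 180252) (nat_lit 10) (.e (nat_lit 573474) (nat_lit 12) (.e (nat_lit 57347) (nat_lit 0) (.e (nat_lit 5436) (nat_lit 306) (.e (nat_lit 2433) (nat_lit 157) .nil))))))))) (.g (nat_lit 1) (.e (nat_lit 46979) (nat_lit 0) .nil) .nil)))) 
(.nd (nat_lit 9) 
(.lf (nat_lit 458085) (.g (nat_lit 4823) (.e (nat_lit 2685) (nat_lit 168) (.e (nat_lit 204846) (nat_lit 24) (.e (nat_lit 319531) (nat_lit 16) (.e (nat_lit 286735) (nat_lit 3) (.e (nat_lit 98350) (nat_lit 24) (.e (nat_lit 409602) (nat_lit 0) (.e (nat_lit 5626) (nat_lit 312) .nil))))))) (.g (nat_lit 1) (.e (nat_lit 46430) (nat_lit 0) .nil) .nil))) 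
(.lf (nat_lit 458597) (.g (nat_lit 2001) (.e (nat_lit 2692) (nat_lit 169) (.e (nat_lit 213030) (nat_lit 11) (.e (nat_lit 24608) (nat_lit 3) (.e (nat_lit 98373) (nat_lit 29) (.e (nat_lit 458496) (nat_lit 8) .nil))))) (.g (nat_lit 0) (.e (nat_lit 47759) (nat_lit 0) .nil) .nil))))) (.nd (nat_lit 8) (.nd (nat_lit 9) 
(.lf (nat_lit 457957) (.g (nat_lit 4763) (.e (nat_lit 2684) (nat_lit 168) (.e (nat_lit 204869) (nat_lit 29) (.e (nat_lit 360474) (nat_lit 8) (.e (nat_lit 557094) (nat_lit 12) (.e (nat_lit 163847) (nat_lit 0) (.e (nat_lit 6420) (nat_lit 341) (.e (nat_lit 163850) (nat_lit 0) (.e (nat_lit 7936) (nat_lit 388) .nil)))))))) (.g (nat_lit 1) (.e (nat_lit 46113) (nat_lit 0) .nil) .nil))) 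
(.lf (nat_lit 458469) (.g (nat_lit 2202) (.e (nat_lit 2685) (nat_lit 168) (.e (nat_lit 204869) (nat_lit 29) (.e (nat_lit 360474) (nat_lit 8) (.e (nat_lit 557070) (nat_lit 9) (.e (nat_lit 253) (nat_lit 21) .nil))))) (.g (nat_lit 0) (.e (nat_lit 47494) (nat_lit 0) .nil) .nil)))) (.nd (nat_lit 9) 
(.lf (nat_lit 458213) (.g (nat_lit 3033) (.e (nat_lit 2685) (nat_lit 168) (.e (nat_lit 204862) (nat_lit 27) (.e (nat_lit 344132) (nat_lit 26) (.e (nat_lit 557105) (nat_lit 14) (.e (nat_lit 180252) (nat_lit 10) (.e (nat_lit 573473) (nat_lit 12) (.e (nat_lit 57507) (nat_lit 39) (.e (nat_lit 647170) (nat_lit 0) .nil)))))))) (.g (nat_lit 1) (.e (nat_lit 46850) (nat_lit 0) .nil) .nil))) 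
(.lf (nat_lit 458725) (.g (nat_lit 2737) (.e (nat_lit 2725) (nat_lit 172) (.e (nat_lit 237587) (nat_lit 2) (.e (nat_lit 196666) (nat_lit 13) (.e (nat_lit 65610) (nat_lit 10) (.e (nat_lit 344129) (nat_lit 26) (.e (nat_lit 557089) (nat_lit 12) (.e (nat_lit 163843) (nat_lit 0) (.e (nat_lit 6255) (nat_lit 337) .nil)))))))) (.g (nat_lit 1) (.e (nat_lit 48337) (nat_lit 0) .nil) .nil)))))))) 
(.nd (nat_lit 5) (.nd (nat_lit 6) (.nd (nat_lit 7) (.nd (nat_lit 8) (.nd (nat_lit 9) 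
(.lf (nat_lit 457749) (.g (nat_lit 2750) (.e (nat_lit 2684) (nat_lit 168) (.e (nat_lit 204862) (nat_lit 27) (.e (nat_lit 344129) (nat_lit 26) (.e (nat_lit 557103) (nat_lit 14) (.e (nat_lit 180250) (nat_lit 10) (.e (nat_lit 573477) (nat_lit 12) (.e (nat_lit 57510) (nat_lit 39) (.e (nat_lit 655104) (nat_lit 0) .nil)))))))) (.g (nat_lit 1) (.e (nat_lit 45605) (nat_lit 0) .nil) .nil))) 
(.lf (nat_lit 458261) (.g (nat_lit 1309) (.e (nat_lit 2685) (nat_lit 168) (.e (nat_lit 204863) (nat_lit 27) (.e (nat_lit 344130) (nat_lit 26) (.e (nat_lit 557097) (nat_lit 13) .nil)))) (.g (nat_lit 0) (.e (nat_lit 46899) (nat_lit 0) .nil) .nil)))) (.nd (nat_lit 9) 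
(.lf (nat_lit 458005) (.g (nat_lit 3919) (.e (nat_lit 2684) (nat_lit 168) (.e (nat_lit 204869) (nat_lit 29) (.e (nat_lit 360475) (nat_lit 8) (.e (nat_lit 557091) (nat_lit 12) (.e (nat_lit 163844) (nat_lit 0) .nil))))) (.g (nat_lit 0) (.e (nat_lit 46196) (nat_lit 0) .nil) .nil))) 
(.lf (nat_lit 458517) (.g (nat_lit 3195) (.e (nat_lit 2685) (nat_lit 168) (.e (nat_lit 204869) (nat_lit 29) (.e (nat_lit 360475) (nat_lit 8) (.e (nat_lit 557087) (nat_lit 11) (.e (nat_lit 24585) (nat_lit 0) .nil))))) (.g (nat_lit 0) (.e (nat_lit 47597) (nat_lit 0) .nil) .nil))))) (.nd (nat_lit 8) (.nd (nat_lit 9) 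
(.lf (nat_lit 457877) (.g (nat_lit 4218) (.e (nat_lit 2684) (nat_lit 168) (.e (nat_lit 204863) (nat_lit 27) (.e (nat_lit 344132) (nat_lit 26) (.e (nat_lit 557105) (nat_lit 14) (.e (nat_lit 180252) (nat_lit 10) (.e (nat_lit 573473) (nat_lit 12) (.e (nat_lit 57508) (nat_lit 39) (.e (nat_lit 647175) (nat_lit 0) .nil)))))))) (.g (nat_lit 1) (.e (nat_lit 45733) (nat_lit 0) .nil) .nil))) 
(.lf (nat_lit 458389) (.g (nat_lit 2854) (.e (nat_lit 2685) (nat_lit 168) (.e (nat_lit 204868) (nat_lit 29) (.e (nat_lit 360466) (nat_lit 3) (.e (nat_lit 516139) (nat_lit 7) (.e (nat_lit 409616) (nat_lit 10) (.e (nat_lit 5616) (nat_lit 312) .nil)))))) (.g (nat_lit 1) (.e (nat_lit 47200) (nat_lit 0) .nil) .nil)))) (.nd (nat_lit 9) 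
(.lf (nat_lit 458133) (.g (nat_lit 1870) (.e (nat_lit 2685) (nat_lit 168) (.e (nat_lit 204855) (nat_lit 26) (.e (nat_lit 336163) (nat_lit 10) (.e (nat_lit 344119) (nat_lit 21) (.e (nat_lit 516139) (nat_lit 7) (.e (nat_lit 409616) (nat_lit 10) (.e (nat_lit 7936) (nat_lit 312) .nil))))))) (.g (nat_lit 1) (.e (nat_lit 46534) (nat_lit 0) .nil) .nil))) 
(.lf (nat_lit 458645) (.g (nat_lit 2433) (.e (nat_lit 2699) (nat_lit 169) (.e (nat_lit 213030) (nat_lit 11) (.e (nat_lit 24617) (nat_lit 7) (.e (nat_lit 319533) (nat_lit 16) (.e (nat_lit 286754) (nat_lit 10) (.e (nat_lit 352000) (nat_lit 39) (.e (nat_lit 663580) (nat_lit 9) .nil))))))) (.g (nat_lit 1) (.e (nat_lit 47858) (nat_lit 0) .nil) .nil)))))) 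
(.nd (nat_lit 7) (.nd (nat_lit 8) (.nd (nat_lit 9) 
(.lf (nat_lit 457813) (.g (nat_lit 2570) (.e (nat_lit 2684) (nat_lit 168) (.e (nat_lit 204862) (nat_lit 27) (.e (nat_lit 344133) (nat_lit 26) (.e (nat_lit 557105) (nat_lit 14) (.e (nat_lit 180251) (nat_lit 10) .nil))))) (.g (nat_lit 0) (.e (nat_lit 45669) (nat_lit 0) .nil) .nil))) 
(.lf (nat_lit 458325) (.g (nat_lit 2480) (.e (nat_lit 2685) (nat_lit 168) (.e (nat_lit 204863) (nat_lit 27) (.e (nat_lit 344133) (nat_lit 26) (.e (nat_lit 557103) (nat_lit 14) (.e (nat_lit 180243) (nat_lit 5) (.e (nat_lit 532504) (nat_lit 1) (.e (nat_lit 57703) (nat_lit 164) (.e (nat_lit 2422) (nat_lit 157) .nil)))))))) (.g (nat_lit 1) (.e (nat_lit 46963) (nat_lit 0) .nil) .nil)))) 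
(.nd (nat_lit 9) 
(.lf (nat_lit 458069) (.g (nat_lit 2416) (.e (nat_lit 2685) (nat_lit 168) (.e (nat_lit 204846) (nat_lit 24) (.e (nat_lit 319529) (nat_lit 16) (.e (nat_lit 286733) (nat_lit 2) (.e (nat_lit 90174) (nat_lit 14) .nil))))) (.g (nat_lit 0) (.e (nat_lit 46410) (nat_lit 0) .nil) .nil))) 
(.lf (nat_lit 458581) (.g (nat_lit 1997) (.e (nat_lit 2688) (nat_lit 169) (.e (nat_lit 213032) (nat_lit 11) (.e (nat_lit 24608) (nat_lit 3) (.e (nat_lit 98370) (nat_lit 28) .nil)))) (.g (nat_lit 0) (.e (nat_lit 47733) (nat_lit 0) .nil) .nil))))) (.nd (nat_lit 8) (.nd (nat_lit 9) 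
(.lf (nat_lit 457941) (.g (nat_lit 3686) (.e (nat_lit 2684) (nat_lit 168) (.e (nat_lit 204869) (nat_lit 29) (.e (nat_lit 360474) (nat_lit 8) (.e (nat_lit 557091) (nat_lit 12) (.e (nat_lit 163844) (nat_lit 0) (.e (nat_lit 6420) (nat_lit 341) (.e (nat_lit 163850) (nat_lit 0) (.e (nat_lit 7936) (nat_lit 388) .nil)))))))) (.g (nat_lit 1) (.e (nat_lit 46090) (nat_lit 0) .nil) .nil))) 
(.lf (nat_lit 458453) (.g (nat_lit 3402) (.e (nat_lit 2685) (nat_lit 168) (.e (nat_lit 204868) (nat_lit 29) (.e (nat_lit 360475) (nat_lit 8) (.e (nat_lit 557087) (nat_lit 11) (.e (nat_lit 24591) (nat_lit 0) .nil))))) (.g (nat_lit 0) (.e (nat_lit 47421) (nat_lit 0) .nil) .nil)))) (.nd (nat_lit 9) 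
(.lf (nat_lit 458197) (.g (nat_lit 2151) (.e (nat_lit 2685) (nat_lit 168) (.e (nat_lit 204862) (nat_lit 27) (.e (nat_lit 344130) (nat_lit 26) (.e (nat_lit 557103) (nat_lit 14) (.e (nat_lit 180250) (nat_lit 10) (.e (nat_lit 573473) (nat_lit 12) (.e (nat_lit 57507) (nat_lit 39) (.e (nat_lit 655104) (nat_lit 0) .nil)))))))) (.g (nat_lit 1) (.e (nat_lit 46834) (nat_lit 0) .nil) .nil))) 
(.lf (nat_lit 458709) (.g (nat_lit 914) (.e (nat_lit 2710) (nat_lit 170) (.e (nat_lit 221207) (nat_lit 21) (.e (nat_lit 164345) (nat_lit 240) (.e (nat_lit 2639) (nat_lit 165) .nil)))) (.g (nat_lit 0) (.e (nat_lit 48128) (nat_lit 0) .nil) .nil))))))) (.nd (nat_lit 6) (.nd (nat_lit 7) (.nd (nat_lit 8) (.nd (nat_lit 9) 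
(.lf (nat_lit 457781) (.g (nat_lit 2521) (.e (nat_lit 2684) (nat_lit 168) (.e (nat_lit 204862) (nat_lit 27) (.e (nat_lit 344132) (nat_lit 26) (.e (nat_lit 557105) (nat_lit 14) (.e (nat_lit 180251) (nat_lit 10) (.e (nat_lit 573478) (nat_lit 12) (.e (nat_lit 57509) (nat_lit 39) (.e (nat_lit 655104) (nat_lit 0) .nil)))))))) (.g (nat_lit 1) (.e (nat_lit 45637) (nat_lit 0) .nil) .nil))) 
(.lf (nat_lit 458293) (.g (nat_lit 2219) (.e (nat_lit 2685) (nat_lit 168) (.e (nat_lit 204863) (nat_lit 27) (.e (nat_lit 344132) (nat_lit 26) (.e (nat_lit 557101) (nat_lit 13) (.e (nat_lit 172067) (nat_lit 3) .nil))))) (.g (nat_lit 0) (.e (nat_lit 46931) (nat_lit 0) .nil) .nil)))) (.nd (nat_lit 9) 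
(.lf (nat_lit 458037) (.g (nat_lit 3746) (.e (nat_lit 2685) (nat_lit 168) (.e (nat_lit 204837) (nat_lit 20) (.e (nat_lit 114714) (nat_lit 22) (.e (nat_lit 90172) (nat_lit 14) (.e (nat_lit 180244) (nat_lit 5) (.e (nat_lit 532499) (nat_lit 1) (.e (nat_lit 57657) (nat_lit 152) (.e (nat_lit 2433) (nat_lit 157) .nil)))))))) (.g (nat_lit 1) (.e (nat_lit 46276) (nat_lit 0) .nil) .nil))) 
(.lf (nat_lit 458549) (.g (nat_lit 4077) (.e (nat_lit 2685) (nat_lit 168) (.e (nat_lit 204869) (nat_lit 29) (.e (nat_lit 360475) (nat_lit 8) (.e (nat_lit 557091) (nat_lit 12) (.e (nat_lit 163849) (nat_lit 0) .nil))))) (.g (nat_lit 0) (.e (nat_lit 47631) (nat_lit 0) .nil) .nil))))) (.nd (nat_lit 8) (.nd (nat_lit 9) 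
(.lf (nat_lit 457909) (.g (nat_lit 1614) (.e (nat_lit 2684) (nat_lit 168) (.e (nat_lit 204868) (nat_lit 29) (.e (nat_lit 360473) (nat_lit 8) (.e (nat_lit 557085) (nat_lit 11) (.e (nat_lit 24580) (nat_lit 0) .nil))))) (.g (nat_lit 0) (.e (nat_lit 45953) (nat_lit 0) .nil) .nil))) 
(.lf (nat_lit 458421) (.g (nat_lit 4139) (.e (nat_lit 2685) (nat_lit 168) (.e (nat_lit 204868) (nat_lit 29) (.e (nat_lit 360473) (nat_lit 8) (.e (nat_lit 557067) (nat_lit 9) (.e (nat_lit 214) (nat_lit 19) (.e (nat_lit 319490) (nat_lit 0) (.e (nat_lit 5626) (nat_lit 312) .nil))))))) (.g (nat_lit 1) (.e (nat_lit 47317) (nat_lit 0) .nil) .nil)))) (.nd (nat_lit 9) 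
(.lf (nat_lit 458165) (.g (nat_lit 2658) (.e (nat_lit 2685) (nat_lit 168) (.e (nat_lit 204862) (nat_lit 27) (.e (nat_lit 344129) (nat_lit 26) (.e (nat_lit 557097) (nat_lit 13) (.e (nat_lit 172133) (nat_lit 15) .nil))))) (.g (nat_lit 0) (.e (nat_lit 46801) (nat_lit 0) .nil) .nil))) 
(.lf (nat_lit 458677) (.g (nat_lit 537) (.e (nat_lit 2706) (nat_lit 170) (.e (nat_lit 221214) (nat_lit 23) (.e (nat_lit 204863) (nat_lit 27) .nil))) (.g (nat_lit 0) (.e (nat_lit 48016) (nat_lit 0) .nil) .nil)))))) (.nd (nat_lit 7) (.nd (nat_lit 8) (.nd (nat_lit 9) 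
(.lf (nat_lit 457845) (.g (nat_lit 3732) (.e (nat_lit 2684) (nat_lit 168) (.e (nat_lit 204863) (nat_lit 27) (.e (nat_lit 344129) (nat_lit 26) (.e (nat_lit 557104) (nat_lit 14) (.e (nat_lit 180252) (nat_lit 10) (.e (nat_lit 573473) (nat_lit 12) (.e (nat_lit 57507) (nat_lit 39) (.e (nat_lit 655104) (nat_lit 0) .nil)))))))) (.g (nat_lit 1) (.e (nat_lit 45701) (nat_lit 0) .nil) .nil))) 
(.lf (nat_lit 458357) (.g (nat_lit 3329) (.e (nat_lit 2685) (nat_lit 168) (.e (nat_lit 204864) (nat_lit 27) (.e (nat_lit 344132) (nat_lit 26) (.e (nat_lit 557100) (nat_lit 13) (.e (nat_lit 172067) (nat_lit 3) (.e (nat_lit 204821) (nat_lit 17) (.e (nat_lit 2391) (nat_lit 156) (.e (nat_lit 819204) (nat_lit 0) .nil)))))))) (.g (nat_lit 1) (.e (nat_lit 46995) (nat_lit 0) .nil) .nil)))) 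
(.nd (nat_lit 9) 
(.lf (nat_lit 458101) (.g (nat_lit 2808) (.e (nat_lit 2685) (nat_lit 168) (.e (nat_lit 204846) (nat_lit 24) (.e (nat_lit 319533) (nat_lit 16) (.e (nat_lit 286733) (nat_lit 2) (.e (nat_lit 90169) (nat_lit 13) .nil))))) (.g (nat_lit 0) (.e (nat_lit 46451) (nat_lit 0) .nil) .nil))) 
(.lf (nat_lit 458613) (.g (nat_lit 3289) (.e (nat_lit 2694) (nat_lit 169) (.e (nat_lit 213032) (nat_lit 11) (.e (nat_lit 24608) (nat_lit 3) (.e (nat_lit 98373) (nat_lit 29) (.e (nat_lit 458496) (nat_lit 8) .nil))))) (.g (nat_lit 0) (.e (nat_lit 47781) (nat_lit 0) .nil) .nil))))) (.nd (nat_lit 8) (.nd (nat_lit 9) 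
(.lf (nat_lit 457973) (.g (nat_lit 3174) (.e (nat_lit 2684) (nat_lit 168) (.e (nat_lit 204869) (nat_lit 29) (.e (nat_lit 360475) (nat_lit 8) (.e (nat_lit 557087) (nat_lit 11) (.e (nat_lit 24581) (nat_lit 0) (.e (nat_lit 7936) (nat_lit 357) .nil)))))) (.g (nat_lit 1) (.e (nat_lit 46155) (nat_lit 0) .nil) .nil))) 
(.lf (nat_lit 458485) (.g (nat_lit 1933) (.e (nat_lit 2685) (nat_lit 168) (.e (nat_lit 204869) (nat_lit 29) (.e (nat_lit 360475) (nat_lit 8) (.e (nat_lit 557065) (nat_lit 9) .nil)))) (.g (nat_lit 0) (.e (nat_lit 47532) (nat_lit 0) .nil) .nil)))) (.nd (nat_lit 9) 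
(.lf (nat_lit 458229) (.g (nat_lit 2124) (.e (nat_lit 2685) (nat_lit 168) (.e (nat_lit 204862) (nat_lit 27) (.e (nat_lit 344133) (nat_lit 26) (.e (nat_lit 557103) (nat_lit 14) (.e (nat_lit 188160) (nat_lit 3) (.e (nat_lit 516106) (nat_lit 0) (.e (nat_lit 7936) (nat_lit 218) (.e (nat_lit 704514) (nat_lit 0) .nil)))))))) (.g (nat_lit 1) (.e (nat_lit 46866) (nat_lit 0) .nil) .nil))) 
(.lf (nat_lit 458741) (.g (nat_lit 2857) (.e (nat_lit 2725) (nat_lit 172) (.e (nat_lit 237587) (nat_lit 2) (.e (nat_lit 196666) (nat_lit 13) (.e (nat_lit 65617) (nat_lit 10) (.e (nat_lit 344130) (nat_lit 26) (.e (nat_lit 557090) (nat_lit 12) (.e (nat_lit 163847) (nat_lit 0) (.e (nat_lit 6252) (nat_lit 337) .nil)))))))) (.g (nat_lit 1) (.e (nat_lit 48353) (nat_lit 0) .nil) .nil))))))))) 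
(.nd (nat_lit 4) (.nd (nat_lit 5) (.nd (nat_lit 6) (.nd (nat_lit 7) (.nd (nat_lit 8) 
(.nd (nat_lit 9) 
(.lf (nat_lit 457741) (.g (nat_lit 2679) (.e (nat_lit 2684) (nat_lit 168) (.e (nat_lit 204862) (nat_lit 27) (.e (nat_lit 344129) (nat_lit 26) (.e (nat_lit 557103) (nat_lit 14) (.e (nat_lit 180250) (nat_lit 10) (.e (nat_lit 573473) (nat_lit 12) (.e (nat_lit 57507) (nat_lit 39) (.e (nat_lit 647176) (nat_lit 0) .nil)))))))) (.g (nat_lit 1) (.e (nat_lit 45597) (nat_lit 0) .nil) .nil))) 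
(.lf (nat_lit 458253) (.g (nat_lit 2481) (.e (nat_lit 2685) (nat_lit 168) (.e (nat_lit 204863) (nat_lit 27) (.e (nat_lit 344129) (nat_lit 26) (.e (nat_lit 557097) (nat_lit 13) (.e (nat_lit 179968) (nat_lit 18) .nil))))) (.g (nat_lit 0) (.e (nat_lit 46891) (nat_lit 0) .nil) .nil)))) (.nd (nat_lit 9) 
(.lf (nat_lit 457997) (.g (nat_lit 5162) (.e (nat_lit 2684) (nat_lit 168) (.e (nat_lit 204869) (nat_lit 29) (.e (nat_lit 360475) (nat_lit 8) (.e (nat_lit 557089) (nat_lit 12) (.e (nat_lit 163849) (nat_lit 0) (.e (nat_lit 6420) (nat_lit 341) (.e (nat_lit 163850) (nat_lit 0) (.e (nat_lit 7936) (nat_lit 388) .nil)))))))) (.g (nat_lit 1) (.e (nat_lit 46182) (nat_lit 0) .nil) .nil))) 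
(.lf (nat_lit 458509) (.g (nat_lit 2669) (.e (nat_lit 2685) (nat_lit 168) (.e (nat_lit 204869) (nat_lit 29) (.e (nat_lit 360475) (nat_lit 8) (.e (nat_lit 557087) (nat_lit 11) (.e (nat_lit 24577) (nat_lit 0) (.e (nat_lit 7936) (nat_lit 357) .nil)))))) (.g (nat_lit 1) (.e (nat_lit 47589) (nat_lit 0) .nil) .nil))))) (.nd (nat_lit 8) (.nd (nat_lit 9) 
(.lf (nat_lit 457869) (.g (nat_lit 1931) (.e (nat_lit 2684) (nat_lit 168) (.e (nat_lit 204863) (nat_lit 27) (.e (nat_lit 344132) (nat_lit 26) (.e (nat_lit 557103) (nat_lit 14) (.e (nat_lit 180250) (nat_lit 10) (.e (nat_lit 573473) (nat_lit 12) (.e (nat_lit 57507) (nat_lit 39) (.e (nat_lit 655104) (nat_lit 0) .nil)))))))) (.g (nat_lit 1) (.e (nat_lit 45725) (nat_lit 0) .nil) .nil))) 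
(.lf (nat_lit 458381) (.g (nat_lit 1985) (.e (nat_lit 2685) (nat_lit 168) (.e (nat_lit 204868) (nat_lit 29) (.e (nat_lit 360466) (nat_lit 3) (.e (nat_lit 516138) (nat_lit 7) (.e (nat_lit 409615) (nat_lit 10) .nil))))) (.g (nat_lit 0) (.e (nat_lit 47192) (nat_lit 0) .nil) .nil)))) (.nd (nat_lit 9) 
(.lf (nat_lit 458125) (.g (nat_lit 2596) (.e (nat_lit 2685) (nat_lit 168) (.e (nat_lit 204846) (nat_lit 24) (.e (nat_lit 327424) (nat_lit 16) (.e (nat_lit 286733) (nat_lit 2) (.e (nat_lit 90165) (nat_lit 12) (.e (nat_lit 164217) (nat_lit 178) (.e (nat_lit 123162) (nat_lit 256) .nil))))))) (.g (nat_lit 1) (.e (nat_lit 46480) (nat_lit 0) .nil) .nil))) 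
(.lf (nat_lit 458637) (.g (nat_lit 2959) (.e (nat_lit 2697) (nat_lit 169) (.e (nat_lit 213032) (nat_lit 11) (.e (nat_lit 24608) (nat_lit 3) (.e (nat_lit 98373) (nat_lit 29) (.e (nat_lit 450584) (nat_lit 9) .nil))))) (.g (nat_lit 0) (.e (nat_lit 47834) (nat_lit 0) .nil) .nil)))))) (.nd (nat_lit 7) (.nd (nat_lit 8) (.nd (nat_lit 9) 
(.lf (nat_lit 457805) (.g (nat_lit 4742) (.e (nat_lit 2684) (nat_lit 168) (.e (nat_lit 204862) (nat_lit 27) (.e (nat_lit 344133) (nat_lit 26) (.e (nat_lit 557103) (nat_lit 14) (.e (nat_lit 180250) (nat_lit 10) (.e (nat_lit 573474) (nat_lit 12) (.e (nat_lit 57507) (nat_lit 39) (.e (nat_lit 655104) (nat_lit 0) .nil)))))))) (.g (nat_lit 1) (.e (nat_lit 45661) (nat_lit 0) .nil) .nil))) 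
(.lf (nat_lit 458317) (.g (nat_lit 2596) (.e (nat_lit 2685) (nat_lit 168) (.e (nat_lit 204863) (nat_lit 27) (.e (nat_lit 344133) (nat_lit 26) (.e (nat_lit 557098) (nat_lit 13) (.e (nat_lit 172065) (nat_lit 3) (.e (nat_lit 204821) (nat_lit 17) (.e (nat_lit 2390) (nat_lit 156) (.e (nat_lit 819204) (nat_lit 0) .nil)))))))) (.g (nat_lit 1) (.e (nat_lit 46955) (nat_lit 0) .nil) .nil)))) 
(.nd (nat_lit 9) 
(.lf (nat_lit 458061) (.g (nat_lit 2854) (.e (nat_lit 2685) (nat_lit 168) (.e (nat_lit 204845) (nat_lit 24) (.e (nat_lit 319530) (nat_lit 16) (.e (nat_lit 286735) (nat_lit 3) (.e (nat_lit 98325) (nat_lit 17) .nil))))) (.g (nat_lit 0) (.e (nat_lit 46385) (nat_lit 0) .nil) .nil))) 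
(.lf (nat_lit 458573) (.g (nat_lit 1261) (.e (nat_lit 2687) (nat_lit 169) (.e (nat_lit 213032) (nat_lit 11) (.e (nat_lit 24608) (nat_lit 3) .nil))) (.g (nat_lit 0) (.e (nat_lit 47722) (nat_lit 0) .nil) .nil))))) (.nd (nat_lit 8) (.nd (nat_lit 9) 
(.lf (nat_lit 457933) (.g (nat_lit 2318) (.e (nat_lit 2684) (nat_lit 168) (.e (nat_lit 204869) (nat_lit 29) (.e (nat_lit 360474) (nat_lit 8) (.e (nat_lit 557089) (nat_lit 12) (.e (nat_lit 163849) (nat_lit 0) .nil))))) (.g (nat_lit 0) (.e (nat_lit 46081) (nat_lit 0) .nil) .nil))) 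
(.lf (nat_lit 458445) (.g (nat_lit 1492) (.e (nat_lit 2685) (nat_lit 168) (.e (nat_lit 204868) (nat_lit 29) (.e (nat_lit 360475) (nat_lit 8) (.e (nat_lit 557087) (nat_lit 11) .nil)))) (.g (nat_lit 0) (.e (nat_lit 47413) (nat_lit 0) .nil) .nil)))) (.nd (nat_lit 9) 
(.lf (nat_lit 458189) (.g (nat_lit 1752) (.e (nat_lit 2685) (nat_lit 168) (.e (nat_lit 204862) (nat_lit 27) (.e (nat_lit 344130) (nat_lit 26) (.e (nat_lit 557097) (nat_lit 13) (.e (nat_lit 172065) (nat_lit 3) .nil))))) (.g (nat_lit 0) (.e (nat_lit 46826) (nat_lit 0) .nil) .nil))) 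
(.lf (nat_lit 458701) (.g (nat_lit 2111) (.e (nat_lit 2706) (nat_lit 170) (.e (nat_lit 221215) (nat_lit 23) (.e (nat_lit 204863) (nat_lit 27) (.e (nat_lit 344118) (nat_lit 21) (.e (nat_lit 516115) (nat_lit 1) (.e (nat_lit 164177) (nat_lit 154) (.e (nat_lit 57372) (nat_lit 2) (.e (nat_lit 90128) (nat_lit 9) .nil)))))))) (.g (nat_lit 1) (.e (nat_lit 48061) (nat_lit 0) .nil) .nil))))))) 
(.nd (nat_lit 6) (.nd (nat_lit 7) (.nd (nat_lit 8) (.nd (nat_lit 9) 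
(.lf (nat_lit 457773) (.g (nat_lit 3682) (.e (nat_lit 2684) (nat_lit 168) (.e (nat_lit 204862) (nat_lit 27) (.e (nat_lit 344130) (nat_lit 26) (.e (nat_lit 557104) (nat_lit 14) (.e (nat_lit 180252) (nat_lit 10) (.e (nat_lit 573474) (nat_lit 12) (.e (nat_lit 57506) (nat_lit 39) (.e (nat_lit 655104) (nat_lit 0) .nil)))))))) (.g (nat_lit 1) (.e (nat_lit 45629) (nat_lit 0) .nil) .nil))) 
(.lf (nat_lit 458285) (.g (nat_lit 1564) (.e (nat_lit 2685) (nat_lit 168) (.e (nat_lit 204863) (nat_lit 27) (.e (nat_lit 344132) (nat_lit 26) (.e (nat_lit 557100) (nat_lit 13) .nil)))) (.g (nat_lit 0) (.e (nat_lit 46923) (nat_lit 0) .nil) .nil)))) (.nd (nat_lit 9) 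
(.lf (nat_lit 458029) (.g (nat_lit 2899) (.e (nat_lit 2685) (nat_lit 168) (.e (nat_lit 204829) (nat_lit 18) (.e (nat_lit 57927) (nat_lit 282) (.e (nat_lit 163874) (nat_lit 3) (.e (nat_lit 204862) (nat_lit 27) .nil))))) (.g (nat_lit 0) (.e (nat_lit 46266) (nat_lit 0) .nil) .nil))) 
(.lf (nat_lit 458541) (.g (nat_lit 6019) (.e (nat_lit 2685) (nat_lit 168) (.e (nat_lit 204869) (nat_lit 29) (.e (nat_lit 360475) (nat_lit 8) (.e (nat_lit 557091) (nat_lit 12) (.e (nat_lit 163843) (nat_lit 0) (.e (nat_lit 6420) (nat_lit 341) (.e (nat_lit 163843) (nat_lit 0) (.e (nat_lit 7936) (nat_lit 388) .nil)))))))) (.g (nat_lit 1) (.e (nat_lit 47623) (nat_lit 0) .nil) .nil))))) 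
(.nd (nat_lit 8) (.nd (nat_lit 9) 
(.lf (nat_lit 457901) (.g (nat_lit 2790) (.e (nat_lit 2684) (nat_lit 168) (.e (nat_lit 204863) (nat_lit 27) (.e (nat_lit 344133) (nat_lit 26) (.e (nat_lit 557105) (nat_lit 14) (.e (nat_lit 180252) (nat_lit 10) (.e (nat_lit 573474) (nat_lit 12) (.e (nat_lit 57348) (nat_lit 0) (.e (nat_lit 5437) (nat_lit 306) (.e (nat_lit 2461) (nat_lit 157) .nil))))))))) (.g (nat_lit 1) (.e (nat_lit 45757) (nat_lit 0) .nil) .nil))) 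
(.lf (nat_lit 458413) (.g (nat_lit 2011) (.e (nat_lit 2685) (nat_lit 168) (.e (nat_lit 204868) (nat_lit 29) (.e (nat_lit 360467) (nat_lit 3) (.e (nat_lit 516139) (nat_lit 7) (.e (nat_lit 409623) (nat_lit 10) (.e (nat_lit 5626) (nat_lit 312) .nil)))))) (.g (nat_lit 1) (.e (nat_lit 47292) (nat_lit 0) .nil) .nil)))) (.nd (nat_lit 9) 
(.lf (nat_lit 458157) (.g (nat_lit 2598) (.e (nat_lit 2685) (nat_lit 168) (.e (nat_lit 204862) (nat_lit 27) (.e (nat_lit 344129) (nat_lit 26) (.e (nat_lit 557097) (nat_lit 13) (.e (nat_lit 172064) (nat_lit 2) .nil))))) (.g (nat_lit 0) (.e (nat_lit 46793) (nat_lit 0) .nil) .nil))) 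
(.lf (nat_lit 458669) (.g (nat_lit 2498) (.e (nat_lit 2701) (nat_lit 169) (.e (nat_lit 213032) (nat_lit 11) (.e (nat_lit 24608) (nat_lit 3) (.e (nat_lit 98365) (nat_lit 26) .nil)))) (.g (nat_lit 0) (.e (nat_lit 47911) (nat_lit 0) .nil) .nil)))))) (.nd (nat_lit 7) (.nd (nat_lit 8) (.nd (nat_lit 9) 
(.lf (nat_lit 457837) (.g (nat_lit 2747) (.e (nat_lit 2684) (nat_lit 168) (.e (nat_lit 204863) (nat_lit 27) (.e (nat_lit 344129) (nat_lit 26) (.e (nat_lit 557103) (nat_lit 14) (.e (nat_lit 180250) (nat_lit 10) (.e (nat_lit 573474) (nat_lit 12) (.e (nat_lit 57506) (nat_lit 39) (.e (nat_lit 655104) (nat_lit 0) .nil)))))))) (.g (nat_lit 1) (.e (nat_lit 45693) (nat_lit 0) .nil) .nil))) 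
(.lf (nat_lit 458349) (.g (nat_lit 2729) (.e (nat_lit 2685) (nat_lit 168) (.e (nat_lit 204864) (nat_lit 27) (.e (nat_lit 344130) (nat_lit 26) (.e (nat_lit 557097) (nat_lit 13) (.e (nat_lit 172066) (nat_lit 3) (.e (nat_lit 204821) (nat_lit 17) (.e (nat_lit 2391) (nat_lit 156) (.e (nat_lit 819204) (nat_lit 0) .nil)))))))) (.g (nat_lit 1) (.e (nat_lit 46987) (nat_lit 0) .nil) .nil)))) 
(.nd (nat_lit 9) 
(.lf (nat_lit 458093) (.g (nat_lit 2787) (.e (nat_lit 2685) (nat_lit 168) (.e (nat_lit 204846) (nat_lit 24) (.e (nat_lit 319532) (nat_lit 16) (.e (nat_lit 286733) (nat_lit 2) (.e (nat_lit 90174) (nat_lit 14) (.e (nat_lit 188160) (nat_lit 40) .nil)))))) (.g (nat_lit 1) (.e (nat_lit 46439) (nat_lit 0) .nil) .nil))) 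
(.lf (nat_lit 458605) (.g (nat_lit 1696) (.e (nat_lit 2693) (nat_lit 169) (.e (nat_lit 213030) (nat_lit 11) (.e (nat_lit 24617) (nat_lit 7) (.e (nat_lit 319528) (nat_lit 16) .nil)))) (.g (nat_lit 0) (.e (nat_lit 47768) (nat_lit 0) .nil) .nil))))) (.nd (nat_lit 8) (.nd (nat_lit 9) 
(.lf (nat_lit 457965) (.g (nat_lit 2988) (.e (nat_lit 2684) (nat_lit 168) (.e (nat_lit 204869) (nat_lit 29) (.e (nat_lit 360475) (nat_lit 8) (.e (nat_lit 557086) (nat_lit 11) (.e (nat_lit 24580) (nat_lit 0) (.e (nat_lit 7936) (nat_lit 357) .nil)))))) (.g (nat_lit 1) (.e (nat_lit 46147) (nat_lit 0) .nil) .nil))) 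
(.lf (nat_lit 458477) (.g (nat_lit 4029) (.e (nat_lit 2685) (nat_lit 168) (.e (nat_lit 204869) (nat_lit 29) (.e (nat_lit 360474) (nat_lit 8) (.e (nat_lit 557085) (nat_lit 11) (.e (nat_lit 24580) (nat_lit 0) (.e (nat_lit 6617) (nat_lit 357) .nil)))))) (.g (nat_lit 1) (.e (nat_lit 47522) (nat_lit 0) .nil) .nil)))) (.nd (nat_lit 9) 
(.lf (nat_lit 458221) (.g (nat_lit 2596) (.e (nat_lit 2685) (nat_lit 168) (.e (nat_lit 204862) (nat_lit 27) (.e (nat_lit 344133) (nat_lit 26) (.e (nat_lit 557098) (nat_lit 13) (.e (nat_lit 172067) (nat_lit 3) (.e (nat_lit 204821) (nat_lit 17) (.e (nat_lit 2391) (nat_lit 156) (.e (nat_lit 819203) (nat_lit 0) .nil)))))))) (.g (nat_lit 1) (.e (nat_lit 46858) (nat_lit 0) .nil) .nil))) 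
(.lf (nat_lit 458733) (.g (nat_lit 3257) (.e (nat_lit 2725) (nat_lit 172) (.e (nat_lit 237587) (nat_lit 2) (.e (nat_lit 196666) (nat_lit 13) (.e (nat_lit 65617) (nat_lit 10) (.e (nat_lit 344130) (nat_lit 26) (.e (nat_lit 557089) (nat_lit 12) (.e (nat_lit 163849) (nat_lit 0) (.e (nat_lit 6254) (nat_lit 337) .nil)))))))) (.g (nat_lit 1) (.e (nat_lit 48345) (nat_lit 0) .nil) .nil)))))))) 
(.nd (nat_lit 5) (.nd (nat_lit 6) (.nd (nat_lit 7) (.nd (nat_lit 8) (.nd (nat_lit 9) 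
(.lf (nat_lit 457757) (.g (nat_lit 4325) (.e (nat_lit 2684) (nat_lit 168) (.e (nat_lit 204862) (nat_lit 27) (.e (nat_lit 344129) (nat_lit 26) (.e (nat_lit 557104) (nat_lit 14) (.e (nat_lit 180252) (nat_lit 10) (.e (nat_lit 573473) (nat_lit 12) (.e (nat_lit 57507) (nat_lit 39) (.e (nat_lit 655104) (nat_lit 0) .nil)))))))) (.g (nat_lit 1) (.e (nat_lit 45613) (nat_lit 0) .nil) .nil))) 
(.lf (nat_lit 458269) (.g (nat_lit 1266) (.e (nat_lit 2685) (nat_lit 168) (.e (nat_lit 204863) (nat_lit 27) (.e (nat_lit 344130) (nat_lit 26) (.e (nat_lit 557104) (nat_lit 14) .nil)))) (.g (nat_lit 0) (.e (nat_lit 46907) (nat_lit 0) .nil) .nil)))) (.nd (nat_lit 9) 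
(.lf (nat_lit 458013) (.g (nat_lit 4358) (.e (nat_lit 2684) (nat_lit 168) (.e (nat_lit 204869) (nat_lit 29) (.e (nat_lit 360475) (nat_lit 8) (.e (nat_lit 557094) (nat_lit 12) .nil)))) (.g (nat_lit 0) (.e (nat_lit 46210) (nat_lit 0) .nil) .nil))) 
(.lf (nat_lit 458525) (.g (nat_lit 3205) (.e (nat_lit 2685) (nat_lit 168) (.e (nat_lit 204869) (nat_lit 29) (.e (nat_lit 360475) (nat_lit 8) (.e (nat_lit 557087) (nat_lit 11) (.e (nat_lit 24594) (nat_lit 0) (.e (nat_lit 7936) (nat_lit 357) .nil)))))) (.g (nat_lit 1) (.e (nat_lit 47605) (nat_lit 0) .nil) .nil))))) (.nd (nat_lit 8) (.nd (nat_lit 9) 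
(.lf (nat_lit 457885) (.g (nat_lit 4467) (.e (nat_lit 2684) (nat_lit 168) (.e (nat_lit 204863) (nat_lit 27) (.e (nat_lit 344132) (nat_lit 26) (.e (nat_lit 557105) (nat_lit 14) (.e (nat_lit 180252) (nat_lit 10) (.e (nat_lit 573475) (nat_lit 12) (.e (nat_lit 57507) (nat_lit 39) (.e (nat_lit 655104) (nat_lit 0) .nil)))))))) (.g (nat_lit 1) (.e (nat_lit 45741) (nat_lit 0) .nil) .nil))) 
(.lf (nat_lit 458397) (.g (nat_lit 1050) (.e (nat_lit 2685) (nat_lit 168) (.e (nat_lit 204868) (nat_lit 29) (.e (nat_lit 360466) (nat_lit 3) (.e (nat_lit 516142) (nat_lit 8) .nil)))) (.g (nat_lit 0) (.e (nat_lit 47209) (nat_lit 0) .nil) .nil)))) (.nd (nat_lit 9) 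
(.lf (nat_lit 458141) (.g (nat_lit 2983) (.e (nat_lit 2685) (nat_lit 168) (.e (nat_lit 204862) (nat_lit 27) (.e (nat_lit 344117) (nat_lit 21) (.e (nat_lit 516106) (nat_lit 0) (.e (nat_lit 3721) (nat_lit 227) (.e (nat_lit 778472) (nat_lit 12) (.e (nat_lit 163976) (nat_lit 30) (.e (nat_lit 573474) (nat_lit 12) (.e (nat_lit 57528) (nat_lit 46) (.e (nat_lit 704514) (nat_lit 0) .nil)))))))))) (.g (nat_lit 1) (.e (nat_lit 46776) (nat_lit 0) .nil) .nil))) 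
(.lf (nat_lit 458653) (.g (nat_lit 1360) (.e (nat_lit 2700) (nat_lit 169) (.e (nat_lit 213030) (nat_lit 11) (.e (nat_lit 24617) (nat_lit 7) (.e (nat_lit 319533) (nat_lit 16) .nil)))) (.g (nat_lit 0) (.e (nat_lit 47887) (nat_lit 0) .nil) .nil)))))) (.nd (nat_lit 7) (.nd (nat_lit 8) (.nd (nat_lit 9) 
(.lf (nat_lit 457821) (.g (nat_lit 5042) (.e (nat_lit 2684) (nat_lit 168) (.e (nat_lit 204862) (nat_lit 27) (.e (nat_lit 344133) (nat_lit 26) (.e (nat_lit 557105) (nat_lit 14) (.e (nat_lit 180252) (nat_lit 10) (.e (nat_lit 573475) (nat_lit 12) (.e (nat_lit 57507) (nat_lit 39) (.e (nat_lit 655104) (nat_lit 0) .nil)))))))) (.g (nat_lit 1) (.e (nat_lit 45677) (nat_lit 0) .nil) .nil))) 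
(.lf (nat_lit 458333) (.g (nat_lit 2658) (.e (nat_lit 2685) (nat_lit 168) (.e (nat_lit 204863) (nat_lit 27) (.e (nat_lit 344133) (nat_lit 26) (.e (nat_lit 557103) (nat_lit 14) (.e (nat_lit 180250) (nat_lit 10) (.e (nat_lit 573474) (nat_lit 12) (.e (nat_lit 57508) (nat_lit 39) (.e (nat_lit 647168) (nat_lit 0) .nil)))))))) (.g (nat_lit 1) (.e (nat_lit 46971) (nat_lit 0) .nil) .nil)))) 
(.nd (nat_lit 9) 
(.lf (nat_lit 458077) (.g (nat_lit 4642) (.e (nat_lit 2685) (nat_lit 168) (.e (nat_lit 204846) (nat_lit 24) (.e (nat_lit 319530) (nat_lit 16) (.e (nat_lit 286735) (nat_lit 3) (.e (nat_lit 98350) (nat_lit 24) (.e (nat_lit 409603) (nat_lit 0) (.e (nat_lit 5626) (nat_lit 312) .nil))))))) (.g (nat_lit 1) (.e (nat_lit 46421) (nat_lit 0) .nil) .nil))) 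
(.lf (nat_lit 458589) (.g (nat_lit 1453) (.e (nat_lit 2691) (nat_lit 169) (.e (nat_lit 213032) (nat_lit 11) (.e (nat_lit 24604) (nat_lit 2) .nil))) (.g (nat_lit 0) (.e (nat_lit 47747) (nat_lit 0) .nil) .nil))))) (.nd (nat_lit 8) (.nd (nat_lit 9) 
(.lf (nat_lit 457949) (.g (nat_lit 3275) (.e (nat_lit 2684) (nat_lit 168) (.e (nat_lit 204869) (nat_lit 29) (.e (nat_lit 360474) (nat_lit 8) (.e (nat_lit 557093) (nat_lit 12) (.e (nat_lit 163849) (nat_lit 0) .nil))))) (.g (nat_lit 0) (.e (nat_lit 46102) (nat_lit 0) .nil) .nil))) 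
(.lf (nat_lit 458461) (.g (nat_lit 2016) (.e (nat_lit 2685) (nat_lit 168) (.e (nat_lit 204869) (nat_lit 29) (.e (nat_lit 360472) (nat_lit 8) (.e (nat_lit 557087) (nat_lit 11) .nil)))) (.g (nat_lit 0) (.e (nat_lit 47479) (nat_lit 0) .nil) .nil)))) (.nd (nat_lit 9) 
(.lf (nat_lit 458205) (.g (nat_lit 2945) (.e (nat_lit 2685) (nat_lit 168) (.e (nat_lit 204862) (nat_lit 27) (.e (nat_lit 344130) (nat_lit 26) (.e (nat_lit 557104) (nat_lit 14) (.e (nat_lit 180252) (nat_lit 10) (.e (nat_lit 573474) (nat_lit 12) (.e (nat_lit 57508) (nat_lit 39) (.e (nat_lit 647170) (nat_lit 0) .nil)))))))) (.g (nat_lit 1) (.e (nat_lit 46842) (nat_lit 0) .nil) .nil))) 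
(.lf (nat_lit 458717) (.g (nat_lit 3427) (.e (nat_lit 2725) (nat_lit 172) (.e (nat_lit 237586) (nat_lit 2) (.e (nat_lit 196666) (nat_lit 13) (.e (nat_lit 65617) (nat_lit 10) (.e (nat_lit 344130) (nat_lit 26) (.e (nat_lit 557090) (nat_lit 12) (.e (nat_lit 163843) (nat_lit 0) (.e (nat_lit 6255) (nat_lit 337) .nil)))))))) (.g (nat_lit 1) (.e (nat_lit 48325) (nat_lit 0) .nil) .nil))))))) 
(.nd (nat_lit 6) (.nd (nat_lit 7) (.nd (nat_lit 8) (.nd (nat_lit 9) 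
(.lf (nat_lit 457789) (.g (nat_lit 3827) (.e (nat_lit 2684) (nat_lit 168) (.e (nat_lit 204862) (nat_lit 27) (.e (nat_lit 344132) (nat_lit 26) (.e (nat_lit 557105) (nat_lit 14) (.e (nat_lit 180252) (nat_lit 10) (.e (nat_lit 573475) (nat_lit 12) (.e (nat_lit 57506) (nat_lit 39) (.e (nat_lit 655104) (nat_lit 0) .nil)))))))) (.g (nat_lit 1) (.e (nat_lit 45645) (nat_lit 0) .nil) .nil))) 
(.lf (nat_lit 458301) (.g (nat_lit 4080) (.e (nat_lit 2685) (nat_lit 168) (.e (nat_lit 204863) (nat_lit 27) (.e (nat_lit 344132) (nat_lit 26) (.e (nat_lit 557105) (nat_lit 14) (.e (nat_lit 180252) (nat_lit 10) (.e (nat_lit 573473) (nat_lit 12) (.e (nat_lit 57508) (nat_lit 39) (.e (nat_lit 647168) (nat_lit 0) .nil)))))))) (.g (nat_lit 1) (.e (nat_lit 46939) (nat_lit 0) .nil) .nil)))) 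
(.nd (nat_lit 9) 
(.lf (nat_lit 458045) (.g (nat_lit 2214) (.e (nat_lit 2685) (nat_lit 168) (.e (nat_lit 204837) (nat_lit 20) (.e (nat_lit 114714) (nat_lit 22) (.e (nat_lit 90174) (nat_lit 14) (.e (nat_lit 180243) (nat_lit 5) (.e (nat_lit 532501) (nat_lit 1) (.e (nat_lit 57651) (nat_lit 152) (.e (nat_lit 2450) (nat_lit 157) .nil)))))))) (.g (nat_lit 1) (.e (nat_lit 46286) (nat_lit 0) .nil) .nil))) 
(.lf (nat_lit 458557) (.g (nat_lit 3258) (.e (nat_lit 7936) (nat_lit 168) (.e (nat_lit 204869) (nat_lit 29) (.e (nat_lit 360474) (nat_lit 8) (.e (nat_lit 557085) (nat_lit 11) .nil)))) (.g (nat_lit 0) (.e (nat_lit 47694) (nat_lit 0) .nil) .nil))))) (.nd (nat_lit 8) (.nd (nat_lit 9) 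
(.lf (nat_lit 457917) (.g (nat_lit 2227) (.e (nat_lit 2684) (nat_lit 168) (.e (nat_lit 204868) (nat_lit 29) (.e (nat_lit 360475) (nat_lit 8) (.e (nat_lit 557086) (nat_lit 11) .nil)))) (.g (nat_lit 0) (.e (nat_lit 45972) (nat_lit 0) .nil) .nil))) 
(.lf (nat_lit 458429) (.g (nat_lit 2677) (.e (nat_lit 2685) (nat_lit 168) (.e (nat_lit 204868) (nat_lit 29) (.e (nat_lit 360473) (nat_lit 8) (.e (nat_lit 557086) (nat_lit 11) (.e (nat_lit 24580) (nat_lit 0) (.e (nat_lit 6619) (nat_lit 357) .nil)))))) (.g (nat_lit 1) (.e (nat_lit 47365) (nat_lit 0) .nil) .nil)))) (.nd (nat_lit 9) 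
(.lf (nat_lit 458173) (.g (nat_lit 4013) (.e (nat_lit 2685) (nat_lit 168) (.e (nat_lit 204862) (nat_lit 27) (.e (nat_lit 344129) (nat_lit 26) (.e (nat_lit 557103) (nat_lit 14) (.e (nat_lit 180250) (nat_lit 10) (.e (nat_lit 573473) (nat_lit 12) (.e (nat_lit 57508) (nat_lit 39) (.e (nat_lit 647170) (nat_lit 0) .nil)))))))) (.g (nat_lit 1) (.e (nat_lit 46810) (nat_lit 0) .nil) .nil))) 
(.lf (nat_lit 458685) (.g (nat_lit 1974) (.e (nat_lit 2706) (nat_lit 170) (.e (nat_lit 221214) (nat_lit 23) (.e (nat_lit 204863) (nat_lit 27) (.e (nat_lit 344118) (nat_lit 21) (.e (nat_lit 516119) (nat_lit 1) .nil))))) (.g (nat_lit 0) (.e (nat_lit 48025) (nat_lit 0) .nil) .nil)))))) (.nd (nat_lit 7) (.nd (nat_lit 8) (.nd (nat_lit 9) 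
(.lf (nat_lit 457853) (.g (nat_lit 2662) (.e (nat_lit 2684) (nat_lit 168) (.e (nat_lit 204863) (nat_lit 27) (.e (nat_lit 344130) (nat_lit 26) (.e (nat_lit 557104) (nat_lit 14) (.e (nat_lit 180252) (nat_lit 10) (.e (nat_lit 573473) (nat_lit 12) (.e (nat_lit 57508) (nat_lit 39) (.e (nat_lit 647175) (nat_lit 0) .nil)))))))) (.g (nat_lit 1) (.e (nat_lit 45709) (nat_lit 0) .nil) .nil))) 
(.lf (nat_lit 458365) (.g (nat_lit 2199) (.e (nat_lit 2685) (nat_lit 168) (.e (nat_lit 204864) (nat_lit 27) (.e (nat_lit 344133) (nat_lit 26) (.e (nat_lit 557098) (nat_lit 13) (.e (nat_lit 179968) (nat_lit 18) .nil))))) (.g (nat_lit 0) (.e (nat_lit 47003) (nat_lit 0) .nil) .nil)))) (.nd (nat_lit 9) 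
(.lf (nat_lit 458109) (.g (nat_lit 2748) (.e (nat_lit 2685) (nat_lit 168) (.e (nat_lit 204846) (nat_lit 24) (.e (nat_lit 319533) (nat_lit 16) (.e (nat_lit 286735) (nat_lit 3) (.e (nat_lit 98350) (nat_lit 24) (.e (nat_lit 409602) (nat_lit 0) (.e (nat_lit 5626) (nat_lit 312) .nil))))))) (.g (nat_lit 1) (.e (nat_lit 46459) (nat_lit 0) .nil) .nil))) 
(.lf (nat_lit 458621) (.g (nat_lit 698) (.e (nat_lit 2695) (nat_lit 169) (.e (nat_lit 213032) (nat_lit 11) (.e (nat_lit 24608) (nat_lit 3) .nil))) (.g (nat_lit 0) (.e (nat_lit 47792) (nat_lit 0) .nil) .nil))))) (.nd (nat_lit 8) (.nd (nat_lit 9) 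
(.lf (nat_lit 457981) (.g (nat_lit 3018) (.e (nat_lit 2684) (nat_lit 168) (.e (nat_lit 204869) (nat_lit 29) (.e (nat_lit 360475) (nat_lit 8) (.e (nat_lit 557087) (nat_lit 11) (.e (nat_lit 24591) (nat_lit 0) .nil))))) (.g (nat_lit 0) (.e (nat_lit 46163) (nat_lit 0) .nil) .nil))) 
(.lf (nat_lit 458493) (.g (nat_lit 1616) (.e (nat_lit 2685) (nat_lit 168) (.e (nat_lit 204869) (nat_lit 29) (.e (nat_lit 360475) (nat_lit 8) (.e (nat_lit 557068) (nat_lit 9) .nil)))) (.g (nat_lit 0) (.e (nat_lit 47554) (nat_lit 0) .nil) .nil)))) (.nd (nat_lit 9) 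
(.lf (nat_lit 458237) (.g (nat_lit 3737) (.e (nat_lit 2685) (nat_lit 168) (.e (nat_lit 204863) (nat_lit 27) (.e (nat_lit 344117) (nat_lit 21) (.e (nat_lit 516106) (nat_lit 0) (.e (nat_lit 3721) (nat_lit 227) .nil))))) (.g (nat_lit 0) (.e (nat_lit 46874) (nat_lit 0) .nil) .nil))) 
(.lf (nat_lit 458749) (.g (nat_lit 3168) (.e (nat_lit 2725) (nat_lit 172) (.e (nat_lit 237587) (nat_lit 2) (.e (nat_lit 196666) (nat_lit 13) (.e (nat_lit 65617) (nat_lit 10) (.e (nat_lit 344132) (nat_lit 26) (.e (nat_lit 557094) (nat_lit 12) (.e (nat_lit 163847) (nat_lit 0) (.e (nat_lit 6255) (nat_lit 337) .nil)))))))) (.g (nat_lit 1) (.e (nat_lit 48361) (nat_lit 0) .nil) .nil))))))))))) 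
(.nd (nat_lit 2) (.nd (nat_lit 3) (.nd (nat_lit 4) (.nd (nat_lit 5) (.nd (nat_lit 6) 
(.nd (nat_lit 7) (.nd (nat_lit 8) (.nd (nat_lit 9) 
(.lf (nat_lit 457731) (.g (nat_lit 3488) (.e (nat_lit 2684) (nat_lit 168) (.e (nat_lit 204862) (nat_lit 27) (.e (nat_lit 344117) (nat_lit 21) (.e (nat_lit 516129) (nat_lit 3) (.e (nat_lit 221210) (nat_lit 22) (.e (nat_lit 196658) (nat_lit 12) (.e (nat_lit 57508) (nat_lit 39) (.e (nat_lit 655104) (nat_lit 0) .nil)))))))) (.g (nat_lit 1) (.e (nat_lit 45587) (nat_lit 0) .nil) .nil))) 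
(.lf (nat_lit 458243) (.g (nat_lit 2938) (.e (nat_lit 2685) (nat_lit 168) (.e (nat_lit 204863) (nat_lit 27) (.e (nat_lit 344117) (nat_lit 21) (.e (nat_lit 516129) (nat_lit 3) (.e (nat_lit 221210) (nat_lit 22) (.e (nat_lit 196658) (nat_lit 12) (.e (nat_lit 57508) (nat_lit 39) (.e (nat_lit 647170) (nat_lit 0) .nil)))))))) (.g (nat_lit 1) (.e (nat_lit 46880) (nat_lit 0) .nil) .nil)))) 
(.nd (nat_lit 9) 
(.lf (nat_lit 457987) (.g (nat_lit 3604) (.e (nat_lit 2684) (nat_lit 168) (.e (nat_lit 204869) (nat_lit 29) (.e (nat_lit 360475) (nat_lit 8) (.e (nat_lit 557089) (nat_lit 12) (.e (nat_lit 163844) (nat_lit 0) (.e (nat_lit 6416) (nat_lit 341) (.e (nat_lit 163850) (nat_lit 0) (.e (nat_lit 7936) (nat_lit 388) .nil)))))))) (.g (nat_lit 1) (.e (nat_lit 46171) (nat_lit 0) .nil) .nil))) 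
(.lf (nat_lit 458499) (.g (nat_lit 4418) (.e (nat_lit 2685) (nat_lit 168) (.e (nat_lit 204869) (nat_lit 29) (.e (nat_lit 360475) (nat_lit 8) (.e (nat_lit 557085) (nat_lit 11) (.e (nat_lit 24580) (nat_lit 0) (.e (nat_lit 6617) (nat_lit 357) .nil)))))) (.g (nat_lit 1) (.e (nat_lit 47579) (nat_lit 0) .nil) .nil))))) (.nd (nat_lit 8) (.nd (nat_lit 9) 
(.lf (nat_lit 457859) (.g (nat_lit 2012) (.e (nat_lit 2684) (nat_lit 168) (.e (nat_lit 204863) (nat_lit 27) (.e (nat_lit 344131) (nat_lit 26) (.e (nat_lit 557105) (nat_lit 14) (.e (nat_lit 180251) (nat_lit 10) (.e (nat_lit 573477) (nat_lit 12) (.e (nat_lit 57511) (nat_lit 39) (.e (nat_lit 655104) (nat_lit 0) .nil)))))))) (.g (nat_lit 1) (.e (nat_lit 45715) (nat_lit 0) .nil) .nil))) 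
(.lf (nat_lit 458371) (.g (nat_lit 4010) (.e (nat_lit 2685) (nat_lit 168) (.e (nat_lit 204864) (nat_lit 27) (.e (nat_lit 344133) (nat_lit 26) (.e (nat_lit 557105) (nat_lit 14) (.e (nat_lit 180252) (nat_lit 10) (.e (nat_lit 573474) (nat_lit 12) (.e (nat_lit 57508) (nat_lit 39) (.e (nat_lit 647170) (nat_lit 0) .nil)))))))) (.g (nat_lit 1) (.e (nat_lit 47009) (nat_lit 0) .nil) .nil)))) 
(.nd (nat_lit 9) 
(.lf (nat_lit 458115) (.g (nat_lit 3077) (.e (nat_lit 2685) (nat_lit 168) (.e (nat_lit 204846) (nat_lit 24) (.e (nat_lit 319534) (nat_lit 16) (.e (nat_lit 286734) (nat_lit 3) (.e (nat_lit 98366) (nat_lit 27) (.e (nat_lit 442112) (nat_lit 8) .nil)))))) (.g (nat_lit 1) (.e (nat_lit 46468) (nat_lit 0) .nil) .nil))) 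
(.lf (nat_lit 458627) (.g (nat_lit 3622) (.e (nat_lit 2696) (nat_lit 169) (.e (nat_lit 213032) (nat_lit 11) (.e (nat_lit 24604) (nat_lit 2) (.e (nat_lit 90176) (nat_lit 15) (.e (nat_lit 188431) (nat_lit 20) (.e (nat_lit 3282) (nat_lit 200) (.e (nat_lit 557081) (nat_lit 9) .nil))))))) (.g (nat_lit 1) (.e (nat_lit 47808) (nat_lit 0) .nil) .nil)))))) 
(.nd (nat_lit 7) (.nd (nat_lit 8) (.nd (nat_lit 9) 
(.lf (nat_lit 457795) (.g (nat_lit 1089) (.e (nat_lit 2684) (nat_lit 168) (.e (nat_lit 204862) (nat_lit 27) (.e (nat_lit 344133) (nat_lit 26) (.e (nat_lit 557103) (nat_lit 14) .nil)))) (.g (nat_lit 0) (.e (nat_lit 45651) (nat_lit 0) .nil) .nil))) 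
(.lf (nat_lit 458307) (.g (nat_lit 3529) (.e (nat_lit 2685) (nat_lit 168) (.e (nat_lit 204863) (nat_lit 27) (.e (nat_lit 344132) (nat_lit 26) (.e (nat_lit 557105) (nat_lit 14) (.e (nat_lit 180252) (nat_lit 10) (.e (nat_lit 573475) (nat_lit 12) (.e (nat_lit 57506) (nat_lit 39) (.e (nat_lit 647170) (nat_lit 0) .nil)))))))) (.g (nat_lit 1) (.e (nat_lit 46945) (nat_lit 0) .nil) .nil)))) 
(.nd (nat_lit 9) 
(.lf (nat_lit 458051) (.g (nat_lit 799) (.e (nat_lit 2685) (nat_lit 168) (.e (nat_lit 204837) (nat_lit 20) (.e (nat_lit 114715) (nat_lit 22) .nil))) (.g (nat_lit 0) (.e (nat_lit 46292) (nat_lit 0) .nil) .nil))) 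
(.lf (nat_lit 458563) (.g (nat_lit 1433) (.e (nat_lit 2686) (nat_lit 169) (.e (nat_lit 213032) (nat_lit 11) (.e (nat_lit 24604) (nat_lit 2) .nil))) (.g (nat_lit 0) (.e (nat_lit 47706) (nat_lit 0) .nil) .nil))))) (.nd (nat_lit 8) (.nd (nat_lit 9) 
(.lf (nat_lit 457923) (.g (nat_lit 2388) (.e (nat_lit 2684) (nat_lit 168) (.e (nat_lit 204869) (nat_lit 29) (.e (nat_lit 360474) (nat_lit 8) (.e (nat_lit 557086) (nat_lit 11) .nil)))) (.g (nat_lit 0) (.e (nat_lit 46067) (nat_lit 0) .nil) .nil))) 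
(.lf (nat_lit 458435) (.g (nat_lit 1628) (.e (nat_lit 2685) (nat_lit 168) (.e (nat_lit 204868) (nat_lit 29) (.e (nat_lit 360473) (nat_lit 8) (.e (nat_lit 557087) (nat_lit 11) (.e (nat_lit 24581) (nat_lit 0) .nil))))) (.g (nat_lit 0) (.e (nat_lit 47371) (nat_lit 0) .nil) .nil)))) (.nd (nat_lit 9) 
(.lf (nat_lit 458179) (.g (nat_lit 1514) (.e (nat_lit 2685) (nat_lit 168) (.e (nat_lit 204862) (nat_lit 27) (.e (nat_lit 344129) (nat_lit 26) (.e (nat_lit 557104) (nat_lit 14) .nil)))) (.g (nat_lit 0) (.e (nat_lit 46816) (nat_lit 0) .nil) .nil))) 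
(.lf (nat_lit 458691) (.g (nat_lit 2958) (.e (nat_lit 2706) (nat_lit 170) (.e (nat_lit 221215) (nat_lit 23) (.e (nat_lit 204862) (nat_lit 27) (.e (nat_lit 344117) (nat_lit 21) (.e (nat_lit 516115) (nat_lit 1) (.e (nat_lit 164177) (nat_lit 154) (.e (nat_lit 57375) (nat_lit 2) (.e (nat_lit 90128) (nat_lit 9) .nil)))))))) (.g (nat_lit 1) (.e (nat_lit 48049) (nat_lit 0) .nil) .nil))))))) 
(.nd (nat_lit 6) (.nd (nat_lit 7) (.nd (nat_lit 8) (.nd (nat_lit 9) 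
(.lf (nat_lit 457763) (.g (nat_lit 430) (.e (nat_lit 2684) (nat_lit 168) (.e (nat_lit 204862) (nat_lit 27) (.e (nat_lit 344130) (nat_lit 26) .nil))) (.g (nat_lit 0) (.e (nat_lit 45619) (nat_lit 0) .nil) .nil))) 
(.lf (nat_lit 458275) (.g (nat_lit 2519) (.e (nat_lit 2685) (nat_lit 168) (.e (nat_lit 204863) (nat_lit 27) (.e (nat_lit 344131) (nat_lit 26) (.e (nat_lit 557100) (nat_lit 13) (.e (nat_lit 172065) (nat_lit 3) .nil))))) (.g (nat_lit 0) (.e (nat_lit 46913) (nat_lit 0) .nil) .nil)))) (.nd (nat_lit 9) 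
(.lf (nat_lit 458019) (.g (nat_lit 3028) (.e (nat_lit 2684) (nat_lit 168) (.e (nat_lit 204880) (nat_lit 32) (.e (nat_lit 385068) (nat_lit 26) (.e (nat_lit 532501) (nat_lit 1) (.e (nat_lit 57854) (nat_lit 252) (.e (nat_lit 57378) (nat_lit 3) (.e (nat_lit 98338) (nat_lit 19) (.e (nat_lit 213013) (nat_lit 9) .nil)))))))) (.g (nat_lit 1) (.e (nat_lit 46236) (nat_lit 0) .nil) .nil))) 
(.lf (nat_lit 458531) (.g (nat_lit 5356) (.e (nat_lit 2685) (nat_lit 168) (.e (nat_lit 204869) (nat_lit 29) (.e (nat_lit 360475) (nat_lit 8) (.e (nat_lit 557089) (nat_lit 12) (.e (nat_lit 163844) (nat_lit 0) (.e (nat_lit 6420) (nat_lit 341) (.e (nat_lit 163843) (nat_lit 0) (.e (nat_lit 7936) (nat_lit 388) .nil)))))))) (.g (nat_lit 1) (.e (nat_lit 47611) (nat_lit 0) .nil) .nil))))) 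
(.nd (nat_lit 8) (.nd (nat_lit 9) 
(.lf (nat_lit 457891) (.g (nat_lit 3852) (.e (nat_lit 2684) (nat_lit 168) (.e (nat_lit 204863) (nat_lit 27) (.e (nat_lit 344133) (nat_lit 26) (.e (nat_lit 557103) (nat_lit 14) (.e (nat_lit 180250) (nat_lit 10) (.e (nat_lit 573473) (nat_lit 12) (.e (nat_lit 57507) (nat_lit 39) (.e (nat_lit 655104) (nat_lit 0) .nil)))))))) (.g (nat_lit 1) (.e (nat_lit 45747) (nat_lit 0) .nil) .nil))) 
(.lf (nat_lit 458403) (.g (nat_lit 1969) (.e (nat_lit 2685) (nat_lit 168) (.e (nat_lit 204868) (nat_lit 29) (.e (nat_lit 360466) (nat_lit 3) (.e (nat_lit 516142) (nat_lit 8) (.e (nat_lit 417815) (nat_lit 10) (.e (nat_lit 7936) (nat_lit 312) .nil)))))) (.g (nat_lit 1) (.e (nat_lit 47216) (nat_lit 0) .nil) .nil)))) (.nd (nat_lit 9) 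
(.lf (nat_lit 458147) (.g (nat_lit 2111) (.e (nat_lit 2685) (nat_lit 168) (.e (nat_lit 204862) (nat_lit 27) (.e (nat_lit 344117) (nat_lit 21) (.e (nat_lit 516130) (nat_lit 3) (.e (nat_lit 221212) (nat_lit 22) .nil))))) (.g (nat_lit 0) (.e (nat_lit 46782) (nat_lit 0) .nil) .nil))) 
(.lf (nat_lit 458659) (.g (nat_lit 1957) (.e (nat_lit 2700) (nat_lit 169) (.e (nat_lit 213032) (nat_lit 11) (.e (nat_lit 24604) (nat_lit 2) (.e (nat_lit 90178) (nat_lit 15) .nil)))) (.g (nat_lit 0) (.e (nat_lit 47895) (nat_lit 0) .nil) .nil)))))) (.nd (nat_lit 7) (.nd (nat_lit 8) (.nd (nat_lit 9) 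
(.lf (nat_lit 457827) (.g (nat_lit 2181) (.e (nat_lit 2684) (nat_lit 168) (.e (nat_lit 204863) (nat_lit 27) (.e (nat_lit 344117) (nat_lit 21) (.e (nat_lit 516130) (nat_lit 3) (.e (nat_lit 221212) (nat_lit 22) (.e (nat_lit 196660) (nat_lit 12) (.e (nat_lit 57507) (nat_lit 39) (.e (nat_lit 655104) (nat_lit 0) .nil)))))))) (.g (nat_lit 1) (.e (nat_lit 45683) (nat_lit 0) .nil) .nil))) 
(.lf (nat_lit 458339) (.g (nat_lit 2677) (.e (nat_lit 2685) (nat_lit 168) (.e (nat_lit 204863) (nat_lit 27) (.e (nat_lit 344133) (nat_lit 26) (.e (nat_lit 557105) (nat_lit 14) (.e (nat_lit 180251) (nat_lit 10) .nil))))) (.g (nat_lit 0) (.e (nat_lit 46977) (nat_lit 0) .nil) .nil)))) (.nd (nat_lit 9) 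
(.lf (nat_lit 458083) (.g (nat_lit 2894) (.e (nat_lit 2685) (nat_lit 168) (.e (nat_lit 204846) (nat_lit 24) (.e (nat_lit 319531) (nat_lit 16) (.e (nat_lit 286735) (nat_lit 3) (.e (nat_lit 98325) (nat_lit 17) .nil))))) (.g (nat_lit 0) (.e (nat_lit 46428) (nat_lit 0) .nil) .nil))) 
(.lf (nat_lit 458595) (.g (nat_lit 3266) (.e (nat_lit 2691) (nat_lit 169) (.e (nat_lit 213032) (nat_lit 11) (.e (nat_lit 24608) (nat_lit 3) (.e (nat_lit 98373) (nat_lit 29) (.e (nat_lit 458496) (nat_lit 8) .nil))))) (.g (nat_lit 0) (.e (nat_lit 47753) (nat_lit 0) .nil) .nil))))) (.nd (nat_lit 8) (.nd (nat_lit 9) 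
(.lf (nat_lit 457955) (.g (nat_lit 4503) (.e (nat_lit 2684) (nat_lit 168) (.e (nat_lit 204869) (nat_lit 29) (.e (nat_lit 360474) (nat_lit 8) (.e (nat_lit 557094) (nat_lit 12) (.e (nat_lit 163847) (nat_lit 0) (.e (nat_lit 6418) (nat_lit 341) (.e (nat_lit 163850) (nat_lit 0) (.e (nat_lit 7936) (nat_lit 388) .nil)))))))) (.g (nat_lit 1) (.e (nat_lit 46111) (nat_lit 0) .nil) .nil))) 
(.lf (nat_lit 458467) (.g (nat_lit 2366) (.e (nat_lit 2685) (nat_lit 168) (.e (nat_lit 204869) (nat_lit 29) (.e (nat_lit 360474) (nat_lit 8) (.e (nat_lit 557064) (nat_lit 9) .nil)))) (.g (nat_lit 0) (.e (nat_lit 47486) (nat_lit 0) .nil) .nil)))) (.nd (nat_lit 9) 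
(.lf (nat_lit 458211) (.g (nat_lit 1584) (.e (nat_lit 2685) (nat_lit 168) (.e (nat_lit 204862) (nat_lit 27) (.e (nat_lit 344132) (nat_lit 26) (.e (nat_lit 557101) (nat_lit 13) (.e (nat_lit 172067) (nat_lit 3) .nil))))) (.g (nat_lit 0) (.e (nat_lit 46848) (nat_lit 0) .nil) .nil))) 
(.lf (nat_lit 458723) (.g (nat_lit 3483) (.e (nat_lit 2725) (nat_lit 172) (.e (nat_lit 237586) (nat_lit 2) (.e (nat_lit 196666) (nat_lit 13) (.e (nat_lit 65617) (nat_lit 10) (.e (nat_lit 344133) (nat_lit 26) (.e (nat_lit 557091) (nat_lit 12) (.e (nat_lit 163843) (nat_lit 0) (.e (nat_lit 6255) (nat_lit 337) .nil)))))))) (.g (nat_lit 1) (.e (nat_lit 48331) (nat_lit 0) .nil) .nil)))))))) 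
(.nd (nat_lit 5) (.nd (nat_lit 6) (.nd (nat_lit 7) (.nd (nat_lit 8) (.nd (nat_lit 9) 
(.lf (nat_lit 457747) (.g (nat_lit 2840) (.e (nat_lit 2684) (nat_lit 168) (.e (nat_lit 204862) (nat_lit 27) (.e (nat_lit 344129) (nat_lit 26) (.e (nat_lit 557103) (nat_lit 14) (.e (nat_lit 180250) (nat_lit 10) (.e (nat_lit 573475) (nat_lit 12) (.e (nat_lit 57507) (nat_lit 39) (.e (nat_lit 647175) (nat_lit 0) .nil)))))))) (.g (nat_lit 1) (.e (nat_lit 45603) (nat_lit 0) .nil) .nil))) 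
(.lf (nat_lit 458259) (.g (nat_lit 2707) (.e (nat_lit 2685) (nat_lit 168) (.e (nat_lit 204863) (nat_lit 27) (.e (nat_lit 344129) (nat_lit 26) (.e (nat_lit 557104) (nat_lit 14) (.e (nat_lit 180252) (nat_lit 10) (.e (nat_lit 573474) (nat_lit 12) (.e (nat_lit 57508) (nat_lit 39) (.e (nat_lit 647168) (nat_lit 0) .nil)))))))) (.g (nat_lit 1) (.e (nat_lit 46897) (nat_lit 0) .nil) .nil)))) 
(.nd (nat_lit 9) 
(.lf (nat_lit 458003) (.g (nat_lit 5007) (.e (nat_lit 2684) (nat_lit 168) (.e (nat_lit 204869) (nat_lit 29) (.e (nat_lit 360475) (nat_lit 8) (.e (nat_lit 557091) (nat_lit 12) (.e (nat_lit 163843) (nat_lit 0) (.e (nat_lit 6420) (nat_lit 341) (.e (nat_lit 163843) (nat_lit 0) (.e (nat_lit 7936) (nat_lit 388) .nil)))))))) (.g (nat_lit 1) (.e (nat_lit 46194) (nat_lit 0) .nil) .nil))) 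
(.lf (nat_lit 458515) (.g (nat_lit 3155) (.e (nat_lit 2685) (nat_lit 168) (.e (nat_lit 204869) (nat_lit 29) (.e (nat_lit 360475) (nat_lit 8) (.e (nat_lit 557087) (nat_lit 11) (.e (nat_lit 24582) (nat_lit 0) .nil))))) (.g (nat_lit 0) (.e (nat_lit 47595) (nat_lit 0) .nil) .nil))))) (.nd (nat_lit 8) (.nd (nat_lit 9) 
(.lf (nat_lit 457875) (.g (nat_lit 4549) (.e (nat_lit 2684) (nat_lit 168) (.e (nat_lit 204863) (nat_lit 27) (.e (nat_lit 344132) (nat_lit 26) (.e (nat_lit 557105) (nat_lit 14) (.e (nat_lit 180252) (nat_lit 10) (.e (nat_lit 573473) (nat_lit 12) (.e (nat_lit 57507) (nat_lit 39) (.e (nat_lit 655104) (nat_lit 0) .nil)))))))) (.g (nat_lit 1) (.e (nat_lit 45731) (nat_lit 0) .nil) .nil))) 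
(.lf (nat_lit 458387) (.g (nat_lit 2826) (.e (nat_lit 2685) (nat_lit 168) (.e (nat_lit 204868) (nat_lit 29) (.e (nat_lit 360466) (nat_lit 3) (.e (nat_lit 516139) (nat_lit 7) (.e (nat_lit 409615) (nat_lit 10) .nil))))) (.g (nat_lit 0) (.e (nat_lit 47198) (nat_lit 0) .nil) .nil)))) (.nd (nat_lit 9) 
(.lf (nat_lit 458131) (.g (nat_lit 933) (.e (nat_lit 2685) (nat_lit 168) (.e (nat_lit 204855) (nat_lit 26) (.e (nat_lit 336163) (nat_lit 10) (.e (nat_lit 344117) (nat_lit 21) .nil)))) (.g (nat_lit 0) (.e (nat_lit 46532) (nat_lit 0) .nil) .nil))) 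
(.lf (nat_lit 458643) (.g (nat_lit 2355) (.e (nat_lit 2699) (nat_lit 169) (.e (nat_lit 213030) (nat_lit 11) (.e (nat_lit 24617) (nat_lit 7) (.e (nat_lit 319533) (nat_lit 16) (.e (nat_lit 286752) (nat_lit 10) .nil))))) (.g (nat_lit 0) (.e (nat_lit 47856) (nat_lit 0) .nil) .nil)))))) (.nd (nat_lit 7) (.nd (nat_lit 8) (.nd (nat_lit 9) 
(.lf (nat_lit 457811) (.g (nat_lit 3096) (.e (nat_lit 2684) (nat_lit 168) (.e (nat_lit 204862) (nat_lit 27) (.e (nat_lit 344133) (nat_lit 26) (.e (nat_lit 557103) (nat_lit 14) (.e (nat_lit 180250) (nat_lit 10) (.e (nat_lit 573478) (nat_lit 12) (.e (nat_lit 57511) (nat_lit 39) (.e (nat_lit 655104) (nat_lit 0) .nil)))))))) (.g (nat_lit 1) (.e (nat_lit 45667) (nat_lit 0) .nil) .nil))) 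
(.lf (nat_lit 458323) (.g (nat_lit 2837) (.e (nat_lit 2685) (nat_lit 168) (.e (nat_lit 204863) (nat_lit 27) (.e (nat_lit 344133) (nat_lit 26) (.e (nat_lit 557103) (nat_lit 14) (.e (nat_lit 180240) (nat_lit 2) .nil))))) (.g (nat_lit 0) (.e (nat_lit 46961) (nat_lit 0) .nil) .nil)))) (.nd (nat_lit 9) 
(.lf (nat_lit 458067) (.g (nat_lit 3742) (.e (nat_lit 2685) (nat_lit 168) (.e (nat_lit 204846) (nat_lit 24) (.e (nat_lit 319528) (nat_lit 16) (.e (nat_lit 286735) (nat_lit 3) (.e (nat_lit 98325) (nat_lit 17) (.e (nat_lit 7083) (nat_lit 379) (.e (nat_lit 123162) (nat_lit 256) .nil))))))) (.g (nat_lit 1) (.e (nat_lit 46408) (nat_lit 0) .nil) .nil))) 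
(.lf (nat_lit 458579) (.g (nat_lit 1088) (.e (nat_lit 2688) (nat_lit 169) (.e (nat_lit 213032) (nat_lit 11) (.e (nat_lit 24608) (nat_lit 3) .nil))) (.g (nat_lit 0) (.e (nat_lit 47731) (nat_lit 0) .nil) .nil))))) (.nd (nat_lit 8) (.nd (nat_lit 9) 
(.lf (nat_lit 457939) (.g (nat_lit 3483) (.e (nat_lit 2684) (nat_lit 168) (.e (nat_lit 204869) (nat_lit 29) (.e (nat_lit 360474) (nat_lit 8) (.e (nat_lit 557091) (nat_lit 12) (.e (nat_lit 163843) (nat_lit 0) .nil))))) (.g (nat_lit 0) (.e (nat_lit 46088) (nat_lit 0) .nil) .nil))) 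
(.lf (nat_lit 458451) (.g (nat_lit 3684) (.e (nat_lit 2685) (nat_lit 168) (.e (nat_lit 204868) (nat_lit 29) (.e (nat_lit 360475) (nat_lit 8) (.e (nat_lit 557087) (nat_lit 11) (.e (nat_lit 24580) (nat_lit 0) (.e (nat_lit 6619) (nat_lit 357) .nil)))))) (.g (nat_lit 1) (.e (nat_lit 47419) (nat_lit 0) .nil) .nil)))) (.nd (nat_lit 9) 
(.lf (nat_lit 458195) (.g (nat_lit 2000) (.e (nat_lit 2685) (nat_lit 168) (.e (nat_lit 204862) (nat_lit 27) (.e (nat_lit 344130) (nat_lit 26) (.e (nat_lit 557103) (nat_lit 14) (.e (nat_lit 188160) (nat_lit 3) .nil))))) (.g (nat_lit 0) (.e (nat_lit 46832) (nat_lit 0) .nil) .nil))) 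
(.lf (nat_lit 458707) (.g (nat_lit 1709) (.e (nat_lit 2707) (nat_lit 170) (.e (nat_lit 221194) (nat_lit 11) (.e (nat_lit 336223) (nat_lit 13) .nil))) (.g (nat_lit 0) (.e (nat_lit 48075) (nat_lit 0) .nil) .nil))))))) (.nd (nat_lit 6) (.nd (nat_lit 7) (.nd (nat_lit 8) (.nd (nat_lit 9) 
(.lf (nat_lit 457779) (.g (nat_lit 1948) (.e (nat_lit 2684) (nat_lit 168) (.e (nat_lit 204862) (nat_lit 27) (.e (nat_lit 344132) (nat_lit 26) (.e (nat_lit 557103) (nat_lit 14) (.e (nat_lit 180250) (nat_lit 10) (.e (nat_lit 573473) (nat_lit 12) (.e (nat_lit 57508) (nat_lit 39) (.e (nat_lit 647175) (nat_lit 0) .nil)))))))) (.g (nat_lit 1) (.e (nat_lit 45635) (nat_lit 0) .nil) .nil))) 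
(.lf (nat_lit 458291) (.g (nat_lit 3745) (.e (nat_lit 2685) (nat_lit 168) (.e (nat_lit 204863) (nat_lit 27) (.e (nat_lit 344132) (nat_lit 26) (.e (nat_lit 557101) (nat_lit 13) (.e (nat_lit 172065) (nat_lit 3) (.e (nat_lit 204821) (nat_lit 17) (.e (nat_lit 2391) (nat_lit 156) (.e (nat_lit 819204) (nat_lit 0) .nil)))))))) (.g (nat_lit 1) (.e (nat_lit 46929) (nat_lit 0) .nil) .nil)))) 
(.nd (nat_lit 9) 
(.lf (nat_lit 458035) (.g (nat_lit 2124) (.e (nat_lit 2685) (nat_lit 168) (.e (nat_lit 204837) (nat_lit 20) (.e (nat_lit 114714) (nat_lit 22) (.e (nat_lit 90172) (nat_lit 14) (.e (nat_lit 180244) (nat_lit 5) .nil))))) (.g (nat_lit 0) (.e (nat_lit 46274) (nat_lit 0) .nil) .nil))) 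
(.lf (nat_lit 458547) (.g (nat_lit 5223) (.e (nat_lit 2685) (nat_lit 168) (.e (nat_lit 204869) (nat_lit 29) (.e (nat_lit 360475) (nat_lit 8) (.e (nat_lit 557091) (nat_lit 12) (.e (nat_lit 163847) (nat_lit 0) (.e (nat_lit 6420) (nat_lit 341) (.e (nat_lit 163843) (nat_lit 0) (.e (nat_lit 7936) (nat_lit 388) .nil)))))))) (.g (nat_lit 1) (.e (nat_lit 47629) (nat_lit 0) .nil) .nil))))) 
(.nd (nat_lit 8) (.nd (nat_lit 9) 
(.lf (nat_lit 457907) (.g (nat_lit 3228) (.e (nat_lit 2684) (nat_lit 168) (.e (nat_lit 204868) (nat_lit 29) (.e (nat_lit 360466) (nat_lit 3) (.e (nat_lit 516139) (nat_lit 7) (.e (nat_lit 409614) (nat_lit 10) .nil))))) (.g (nat_lit 0) (.e (nat_lit 45826) (nat_lit 0) .nil) .nil))) 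
(.lf (nat_lit 458419) (.g (nat_lit 386) (.e (nat_lit 2685) (nat_lit 168) (.e (nat_lit 204868) (nat_lit 29) (.e (nat_lit 360473) (nat_lit 8) .nil))) (.g (nat_lit 0) (.e (nat_lit 47300) (nat_lit 0) .nil) .nil)))) (.nd (nat_lit 9) 
(.lf (nat_lit 458163) (.g (nat_lit 2855) (.e (nat_lit 2685) (nat_lit 168) (.e (nat_lit 204862) (nat_lit 27) (.e (nat_lit 344129) (nat_lit 26) (.e (nat_lit 557097) (nat_lit 13) (.e (nat_lit 172066) (nat_lit 3) (.e (nat_lit 204822) (nat_lit 17) (.e (nat_lit 2391) (nat_lit 156) (.e (nat_lit 819204) (nat_lit 0) .nil)))))))) (.g (nat_lit 1) (.e (nat_lit 46799) (nat_lit 0) .nil) .nil))) 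
(.lf (nat_lit 458675) (.g (nat_lit 3461) (.e (nat_lit 2706) (nat_lit 170) (.e (nat_lit 221214) (nat_lit 23) (.e (nat_lit 204862) (nat_lit 27) (.e (nat_lit 344117) (nat_lit 21) (.e (nat_lit 516116) (nat_lit 1) (.e (nat_lit 164180) (nat_lit 154) (.e (nat_lit 57375) (nat_lit 2) (.e (nat_lit 90128) (nat_lit 9) .nil)))))))) (.g (nat_lit 1) (.e (nat_lit 48014) (nat_lit 0) .nil) .nil)))))) 
(.nd (nat_lit 7) (.nd (nat_lit 8) (.nd (nat_lit 9) 
(.lf (nat_lit 457843) (.g (nat_lit 1356) (.e (nat_lit 2684) (nat_lit 168) (.e (nat_lit 204863) (nat_lit 27) (.e (nat_lit 344129) (nat_lit 26) (.e (nat_lit 557104) (nat_lit 14) .nil)))) (.g (nat_lit 0) (.e (nat_lit 45699) (nat_lit 0) .nil) .nil))) 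
(.lf (nat_lit 458355) (.g (nat_lit 3157) (.e (nat_lit 2685) (nat_lit 168) (.e (nat_lit 204864) (nat_lit 27) (.e (nat_lit 344130) (nat_lit 26) (.e (nat_lit 557104) (nat_lit 14) (.e (nat_lit 180252) (nat_lit 10) (.e (nat_lit 573474) (nat_lit 12) (.e (nat_lit 57508) (nat_lit 39) (.e (nat_lit 647170) (nat_lit 0) .nil)))))))) (.g (nat_lit 1) (.e (nat_lit 46993) (nat_lit 0) .nil) .nil)))) 
(.nd (nat_lit 9) 
(.lf (nat_lit 458099) (.g (nat_lit 2481) (.e (nat_lit 2685) (nat_lit 168) (.e (nat_lit 204846) (nat_lit 24) (.e (nat_lit 319533) (nat_lit 16) (.e (nat_lit 286732) (nat_lit 2) (.e (nat_lit 90173) (nat_lit 14) .nil))))) (.g (nat_lit 0) (.e (nat_lit 46449) (nat_lit 0) .nil) .nil))) 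
(.lf (nat_lit 458611) (.g (nat_lit 1325) (.e (nat_lit 2694) (nat_lit 169) (.e (nat_lit 213032) (nat_lit 11) (.e (nat_lit 24608) (nat_lit 3) .nil))) (.g (nat_lit 0) (.e (nat_lit 47779) (nat_lit 0) .nil) .nil))))) (.nd (nat_lit 8) (.nd (nat_lit 9) 
(.lf (nat_lit 457971) (.g (nat_lit 3097) (.e (nat_lit 2684) (nat_lit 168) (.e (nat_lit 204869) (nat_lit 29) (.e (nat_lit 360475) (nat_lit 8) (.e (nat_lit 557087) (nat_lit 11) (.e (nat_lit 24578) (nat_lit 0) (.e (nat_lit 7936) (nat_lit 357) .nil)))))) (.g (nat_lit 1) (.e (nat_lit 46153) (nat_lit 0) .nil) .nil))) 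
(.lf (nat_lit 458483) (.g (nat_lit 2754) (.e (nat_lit 2685) (nat_lit 168) (.e (nat_lit 204869) (nat_lit 29) (.e (nat_lit 360474) (nat_lit 8) (.e (nat_lit 557094) (nat_lit 12) (.e (nat_lit 163849) (nat_lit 0) (.e (nat_lit 6420) (nat_lit 341) (.e (nat_lit 163843) (nat_lit 0) (.e (nat_lit 7936) (nat_lit 388) .nil)))))))) (.g (nat_lit 1) (.e (nat_lit 47530) (nat_lit 0) .nil) .nil)))) (.nd (nat_lit 9) 
(.lf (nat_lit 458227) (.g (nat_lit 1929) (.e (nat_lit 2685) (nat_lit 168) (.e (nat_lit 204862) (nat_lit 27) (.e (nat_lit 344133) (nat_lit 26) (.e (nat_lit 557103) (nat_lit 14) (.e (nat_lit 188160) (nat_lit 3) .nil))))) (.g (nat_lit 0) (.e (nat_lit 46864) (nat_lit 0) .nil) .nil))) 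
(.lf (nat_lit 458739) (.g (nat_lit 2472) (.e (nat_lit 2725) (nat_lit 172) (.e (nat_lit 237587) (nat_lit 2) (.e (nat_lit 196666) (nat_lit 13) (.e (nat_lit 65617) (nat_lit 10) (.e (nat_lit 344130) (nat_lit 26) (.e (nat_lit 557090) (nat_lit 12) (.e (nat_lit 163844) (nat_lit 0) (.e (nat_lit 6252) (nat_lit 337) .nil)))))))) (.g (nat_lit 1) (.e (nat_lit 48351) (nat_lit 0) .nil) .nil))))))))) 
(.nd (nat_lit 4) (.nd (nat_lit 5) (.nd (nat_lit 6) (.nd (nat_lit 7) (.nd (nat_lit 8) 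
(.nd (nat_lit 9) 
(.lf (nat_lit 457739) (.g (nat_lit 2544) (.e (nat_lit 2684) (nat_lit 168) (.e (nat_lit 204862) (nat_lit 27) (.e (nat_lit 344129) (nat_lit 26) (.e (nat_lit 557103) (nat_lit 14) (.e (nat_lit 180250) (nat_lit 10) .nil))))) (.g (nat_lit 0) (.e (nat_lit 45595) (nat_lit 0) .nil) .nil))) 
(.lf (nat_lit 458251) (.g (nat_lit 3885) (.e (nat_lit 2685) (nat_lit 168) (.e (nat_lit 204863) (nat_lit 27) (.e (nat_lit 344129) (nat_lit 26) (.e (nat_lit 557097) (nat_lit 13) (.e (nat_lit 172067) (nat_lit 3) (.e (nat_lit 204821) (nat_lit 17) (.e (nat_lit 2391) (nat_lit 156) (.e (nat_lit 819204) (nat_lit 0) .nil)))))))) (.g (nat_lit 1) (.e (nat_lit 46889) (nat_lit 0) .nil) .nil)))) 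
(.nd (nat_lit 9) 
(.lf (nat_lit 457995) (.g (nat_lit 3702) (.e (nat_lit 2684) (nat_lit 168) (.e (nat_lit 204869) (nat_lit 29) (.e (nat_lit 360475) (nat_lit 8) (.e (nat_lit 557089) (nat_lit 12) (.e (nat_lit 163849) (nat_lit 0) (.e (nat_lit 6420) (nat_lit 341) (.e (nat_lit 163843) (nat_lit 0) (.e (nat_lit 7366) (nat_lit 388) .nil)))))))) (.g (nat_lit 1) (.e (nat_lit 46180) (nat_lit 0) .nil) .nil))) 
(.lf (nat_lit 458507) (.g (nat_lit 1520) (.e (nat_lit 2685) (nat_lit 168) (.e (nat_lit 204869) (nat_lit 29) (.e (nat_lit 360475) (nat_lit 8) (.e (nat_lit 557087) (nat_lit 11) .nil)))) (.g (nat_lit 0) (.e (nat_lit 47587) (nat_lit 0) .nil) .nil))))) (.nd (nat_lit 8) (.nd (nat_lit 9) 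
(.lf (nat_lit 457867) (.g (nat_lit 3595) (.e (nat_lit 2684) (nat_lit 168) (.e (nat_lit 204863) (nat_lit 27) (.e (nat_lit 344131) (nat_lit 26) (.e (nat_lit 557105) (nat_lit 14) (.e (nat_lit 180252) (nat_lit 10) (.e (nat_lit 573474) (nat_lit 12) (.e (nat_lit 57508) (nat_lit 39) (.e (nat_lit 655104) (nat_lit 0) .nil)))))))) (.g (nat_lit 1) (.e (nat_lit 45723) (nat_lit 0) .nil) .nil))) 
(.lf (nat_lit 458379) (.g (nat_lit 2376) (.e (nat_lit 2685) (nat_lit 168) (.e (nat_lit 204868) (nat_lit 29) (.e (nat_lit 360466) (nat_lit 3) (.e (nat_lit 516138) (nat_lit 7) (.e (nat_lit 409612) (nat_lit 10) (.e (nat_lit 5612) (nat_lit 312) .nil)))))) (.g (nat_lit 1) (.e (nat_lit 47190) (nat_lit 0) .nil) .nil)))) (.nd (nat_lit 9) 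
(.lf (nat_lit 458123) (.g (nat_lit 3658) (.e (nat_lit 2685) (nat_lit 168) (.e (nat_lit 204846) (nat_lit 24) (.e (nat_lit 319534) (nat_lit 16) (.e (nat_lit 286735) (nat_lit 3) (.e (nat_lit 98367) (nat_lit 27) (.e (nat_lit 442112) (nat_lit 8) .nil)))))) (.g (nat_lit 1) (.e (nat_lit 46476) (nat_lit 0) .nil) .nil))) 
(.lf (nat_lit 458635) (.g (nat_lit 2713) (.e (nat_lit 2697) (nat_lit 169) (.e (nat_lit 213032) (nat_lit 11) (.e (nat_lit 24608) (nat_lit 3) (.e (nat_lit 98372) (nat_lit 29) (.e (nat_lit 458496) (nat_lit 8) .nil))))) (.g (nat_lit 0) (.e (nat_lit 47832) (nat_lit 0) .nil) .nil)))))) (.nd (nat_lit 7) (.nd (nat_lit 8) (.nd (nat_lit 9) 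
(.lf (nat_lit 457803) (.g (nat_lit 4108) (.e (nat_lit 2684) (nat_lit 168) (.e (nat_lit 204862) (nat_lit 27) (.e (nat_lit 344133) (nat_lit 26) (.e (nat_lit 557103) (nat_lit 14) (.e (nat_lit 180250) (nat_lit 10) (.e (nat_lit 573473) (nat_lit 12) (.e (nat_lit 57508) (nat_lit 39) (.e (nat_lit 655104) (nat_lit 0) .nil)))))))) (.g (nat_lit 1) (.e (nat_lit 45659) (nat_lit 0) .nil) .nil))) 
(.lf (nat_lit 458315) (.g (nat_lit 2594) (.e (nat_lit 2685) (nat_lit 168) (.e (nat_lit 204863) (nat_lit 27) (.e (nat_lit 344133) (nat_lit 26) (.e (nat_lit 557098) (nat_lit 13) (.e (nat_lit 172062) (nat_lit 2) .nil))))) (.g (nat_lit 0) (.e (nat_lit 46953) (nat_lit 0) .nil) .nil)))) (.nd (nat_lit 9) 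
(.lf (nat_lit 458059) (.g (nat_lit 2018) (.e (nat_lit 2685) (nat_lit 168) (.e (nat_lit 204837) (nat_lit 20) (.e (nat_lit 114719) (nat_lit 23) (.e (nat_lit 98356) (nat_lit 26) (.e (nat_lit 426436) (nat_lit 18) (.e (nat_lit 98334) (nat_lit 18) (.e (nat_lit 164305) (nat_lit 226) (.e (nat_lit 2433) (nat_lit 157) .nil)))))))) (.g (nat_lit 1) (.e (nat_lit 46304) (nat_lit 0) .nil) .nil))) 
(.lf (nat_lit 458571) (.g (nat_lit 1442) (.e (nat_lit 2687) (nat_lit 169) (.e (nat_lit 213032) (nat_lit 11) (.e (nat_lit 24604) (nat_lit 2) .nil))) (.g (nat_lit 0) (.e (nat_lit 47719) (nat_lit 0) .nil) .nil))))) (.nd (nat_lit 8) (.nd (nat_lit 9) 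
(.lf (nat_lit 457931) (.g (nat_lit 2604) (.e (nat_lit 2684) (nat_lit 168) (.e (nat_lit 204869) (nat_lit 29) (.e (nat_lit 360474) (nat_lit 8) (.e (nat_lit 557089) (nat_lit 12) (.e (nat_lit 163848) (nat_lit 0) (.e (nat_lit 6416) (nat_lit 341) (.e (nat_lit 163850) (nat_lit 0) (.e (nat_lit 7936) (nat_lit 388) .nil)))))))) (.g (nat_lit 1) (.e (nat_lit 46079) (nat_lit 0) .nil) .nil))) 
(.lf (nat_lit 458443) (.g (nat_lit 3069) (.e (nat_lit 2685) (nat_lit 168) (.e (nat_lit 204868) (nat_lit 29) (.e (nat_lit 360475) (nat_lit 8) (.e (nat_lit 557086) (nat_lit 11) (.e (nat_lit 24579) (nat_lit 0) .nil))))) (.g (nat_lit 0) (.e (nat_lit 47411) (nat_lit 0) .nil) .nil)))) (.nd (nat_lit 9) 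
(.lf (nat_lit 458187) (.g (nat_lit 513) (.e (nat_lit 2685) (nat_lit 168) (.e (nat_lit 204862) (nat_lit 27) (.e (nat_lit 344130) (nat_lit 26) .nil))) (.g (nat_lit 0) (.e (nat_lit 46824) (nat_lit 0) .nil) .nil))) 
(.lf (nat_lit 458699) (.g (nat_lit 3842) (.e (nat_lit 2706) (nat_lit 170) (.e (nat_lit 221215) (nat_lit 23) (.e (nat_lit 204863) (nat_lit 27) (.e (nat_lit 344117) (nat_lit 21) (.e (nat_lit 516116) (nat_lit 1) (.e (nat_lit 164176) (nat_lit 154) (.e (nat_lit 57371) (nat_lit 2) (.e (nat_lit 90128) (nat_lit 9) .nil)))))))) (.g (nat_lit 1) (.e (nat_lit 48058) (nat_lit 0) .nil) .nil))))))) 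
(.nd (nat_lit 6) (.nd (nat_lit 7) (.nd (nat_lit 8) (.nd (nat_lit 9) 
(.lf (nat_lit 457771) (.g (nat_lit 1388) (.e (nat_lit 2684) (nat_lit 168) (.e (nat_lit 204862) (nat_lit 27) (.e (nat_lit 344130) (nat_lit 26) (.e (nat_lit 557104) (nat_lit 14) (.e (nat_lit 180251) (nat_lit 10) .nil))))) (.g (nat_lit 0) (.e (nat_lit 45627) (nat_lit 0) .nil) .nil))) 
(.lf (nat_lit 458283) (.g (nat_lit 3101) (.e (nat_lit 2685) (nat_lit 168) (.e (nat_lit 204863) (nat_lit 27) (.e (nat_lit 344131) (nat_lit 26) (.e (nat_lit 557105) (nat_lit 14) (.e (nat_lit 180252) (nat_lit 10) (.e (nat_lit 573474) (nat_lit 12) (.e (nat_lit 57508) (nat_lit 39) (.e (nat_lit 647168) (nat_lit 0) .nil)))))))) (.g (nat_lit 1) (.e (nat_lit 46921) (nat_lit 0) .nil) .nil)))) 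
(.nd (nat_lit 9) 
(.lf (nat_lit 458027) (.g (nat_lit 2518) (.e (nat_lit 2685) (nat_lit 168) (.e (nat_lit 204829) (nat_lit 18) (.e (nat_lit 57927) (nat_lit 282) (.e (nat_lit 163871) (nat_lit 2) (.e (nat_lit 196668) (nat_lit 14) (.e (nat_lit 73747) (nat_lit 3) (.e (nat_lit 516124) (nat_lit 2) (.e (nat_lit 220928) (nat_lit 9) .nil)))))))) (.g (nat_lit 1) (.e (nat_lit 46264) (nat_lit 0) .nil) .nil))) 
(.lf (nat_lit 458539) (.g (nat_lit 2833) (.e (nat_lit 2685) (nat_lit 168) (.e (nat_lit 204869) (nat_lit 29) (.e (nat_lit 360475) (nat_lit 8) (.e (nat_lit 557091) (nat_lit 12) .nil)))) (.g (nat_lit 0) (.e (nat_lit 47619) (nat_lit 0) .nil) .nil))))) (.nd (nat_lit 8) (.nd (nat_lit 9) 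
(.lf (nat_lit 457899) (.g (nat_lit 3887) (.e (nat_lit 2684) (nat_lit 168) (.e (nat_lit 204863) (nat_lit 27) (.e (nat_lit 344133) (nat_lit 26) (.e (nat_lit 557105) (nat_lit 14) (.e (nat_lit 180252) (nat_lit 10) (.e (nat_lit 573473) (nat_lit 12) (.e (nat_lit 57508) (nat_lit 39) (.e (nat_lit 655104) (nat_lit 0) .nil)))))))) (.g (nat_lit 1) (.e (nat_lit 45755) (nat_lit 0) .nil) .nil))) 
(.lf (nat_lit 458411) (.g (nat_lit 2136) (.e (nat_lit 2685) (nat_lit 168) (.e (nat_lit 204868) (nat_lit 29) (.e (nat_lit 360467) (nat_lit 3) (.e (nat_lit 516139) (nat_lit 7) (.e (nat_lit 409617) (nat_lit 10) (.e (nat_lit 5612) (nat_lit 312) .nil)))))) (.g (nat_lit 1) (.e (nat_lit 47290) (nat_lit 0) .nil) .nil)))) (.nd (nat_lit 9) 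
(.lf (nat_lit 458155) (.g (nat_lit 1404) (.e (nat_lit 2685) (nat_lit 168) (.e (nat_lit 204862) (nat_lit 27) (.e (nat_lit 344129) (nat_lit 26) (.e (nat_lit 557097) (nat_lit 13) .nil)))) (.g (nat_lit 0) (.e (nat_lit 46791) (nat_lit 0) .nil) .nil))) 
(.lf (nat_lit 458667) (.g (nat_lit 1414) (.e (nat_lit 2700) (nat_lit 169) (.e (nat_lit 213032) (nat_lit 11) (.e (nat_lit 24609) (nat_lit 3) (.e (nat_lit 98374) (nat_lit 29) (.e (nat_lit 458496) (nat_lit 8) .nil))))) (.g (nat_lit 0) (.e (nat_lit 47903) (nat_lit 0) .nil) .nil)))))) (.nd (nat_lit 7) (.nd (nat_lit 8) (.nd (nat_lit 9) 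
(.lf (nat_lit 457835) (.g (nat_lit 3744) (.e (nat_lit 2684) (nat_lit 168) (.e (nat_lit 204863) (nat_lit 27) (.e (nat_lit 344129) (nat_lit 26) (.e (nat_lit 557103) (nat_lit 14) (.e (nat_lit 180250) (nat_lit 10) (.e (nat_lit 573473) (nat_lit 12) (.e (nat_lit 57508) (nat_lit 39) (.e (nat_lit 647175) (nat_lit 0) .nil)))))))) (.g (nat_lit 1) (.e (nat_lit 45691) (nat_lit 0) .nil) .nil))) 
(.lf (nat_lit 458347) (.g (nat_lit 1527) (.e (nat_lit 2685) (nat_lit 168) (.e (nat_lit 204864) (nat_lit 27) (.e (nat_lit 344130) (nat_lit 26) (.e (nat_lit 557097) (nat_lit 13) (.e (nat_lit 172065) (nat_lit 3) .nil))))) (.g (nat_lit 0) (.e (nat_lit 46985) (nat_lit 0) .nil) .nil)))) (.nd (nat_lit 9) 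
(.lf (nat_lit 458091) (.g (nat_lit 2765) (.e (nat_lit 2685) (nat_lit 168) (.e (nat_lit 204846) (nat_lit 24) (.e (nat_lit 319532) (nat_lit 16) (.e (nat_lit 286733) (nat_lit 2) (.e (nat_lit 90172) (nat_lit 14) (.e (nat_lit 188160) (nat_lit 40) .nil)))))) (.g (nat_lit 1) (.e (nat_lit 46437) (nat_lit 0) .nil) .nil))) 
(.lf (nat_lit 458603) (.g (nat_lit 2037) (.e (nat_lit 2692) (nat_lit 169) (.e (nat_lit 213030) (nat_lit 11) (.e (nat_lit 24617) (nat_lit 7) (.e (nat_lit 319534) (nat_lit 16) (.e (nat_lit 286756) (nat_lit 10) .nil))))) (.g (nat_lit 0) (.e (nat_lit 47766) (nat_lit 0) .nil) .nil))))) (.nd (nat_lit 8) (.nd (nat_lit 9) 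
(.lf (nat_lit 457963) (.g (nat_lit 3411) (.e (nat_lit 2684) (nat_lit 168) (.e (nat_lit 204869) (nat_lit 29) (.e (nat_lit 360475) (nat_lit 8) (.e (nat_lit 557086) (nat_lit 11) (.e (nat_lit 24577) (nat_lit 0) (.e (nat_lit 7936) (nat_lit 357) .nil)))))) (.g (nat_lit 1) (.e (nat_lit 46145) (nat_lit 0) .nil) .nil))) 
(.lf (nat_lit 458475) (.g (nat_lit 1668) (.e (nat_lit 2685) (nat_lit 168) (.e (nat_lit 204869) (nat_lit 29) (.e (nat_lit 360474) (nat_lit 8) (.e (nat_lit 557085) (nat_lit 11) .nil)))) (.g (nat_lit 0) (.e (nat_lit 47520) (nat_lit 0) .nil) .nil)))) (.nd (nat_lit 9) 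
(.lf (nat_lit 458219) (.g (nat_lit 3634) (.e (nat_lit 2685) (nat_lit 168) (.e (nat_lit 204862) (nat_lit 27) (.e (nat_lit 344133) (nat_lit 26) (.e (nat_lit 557098) (nat_lit 13) (.e (nat_lit 172065) (nat_lit 3) (.e (nat_lit 204821) (nat_lit 17) (.e (nat_lit 2391) (nat_lit 156) (.e (nat_lit 819204) (nat_lit 0) .nil)))))))) (.g (nat_lit 1) (.e (nat_lit 46856) (nat_lit 0) .nil) .nil))) 
(.lf (nat_lit 458731) (.g (nat_lit 3477) (.e (nat_lit 2725) (nat_lit 172) (.e (nat_lit 237587) (nat_lit 2) (.e (nat_lit 196666) (nat_lit 13) (.e (nat_lit 65617) (nat_lit 10) (.e (nat_lit 344130) (nat_lit 26) (.e (nat_lit 557089) (nat_lit 12) (.e (nat_lit 163844) (nat_lit 0) (.e (nat_lit 6255) (nat_lit 337) .nil)))))))) (.g (nat_lit 1) (.e (nat_lit 48343) (nat_lit 0) .nil) .nil)))))))) 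
(.nd (nat_lit 5) (.nd (nat_lit 6) (.nd (nat_lit 7) (.nd (nat_lit 8) (.nd (nat_lit 9) 
(.lf (nat_lit 457755) (.g (nat_lit 2440) (.e (nat_lit 2684) (nat_lit 168) (.e (nat_lit 204862) (nat_lit 27) (.e (nat_lit 344129) (nat_lit 26) (.e (nat_lit 557104) (nat_lit 14) (.e (nat_lit 180251) (nat_lit 10) .nil))))) (.g (nat_lit 0) (.e (nat_lit 45611) (nat_lit 0) .nil) .nil))) 
(.lf (nat_lit 458267) (.g (nat_lit 2444) (.e (nat_lit 2685) (nat_lit 168) (.e (nat_lit 204863) (nat_lit 27) (.e (nat_lit 344130) (nat_lit 26) (.e (nat_lit 557103) (nat_lit 14) (.e (nat_lit 180250) (nat_lit 10) (.e (nat_lit 573473) (nat_lit 12) (.e (nat_lit 57508) (nat_lit 39) (.e (nat_lit 647168) (nat_lit 0) .nil)))))))) (.g (nat_lit 1) (.e (nat_lit 46905) (nat_lit 0) .nil) .nil)))) 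
(.nd (nat_lit 9) 
(.lf (nat_lit 458011) (.g (nat_lit 4038) (.e (nat_lit 2684) (nat_lit 168) (.e (nat_lit 204869) (nat_lit 29) (.e (nat_lit 360475) (nat_lit 8) (.e (nat_lit 557091) (nat_lit 12) (.e (nat_lit 163849) (nat_lit 0) .nil))))) (.g (nat_lit 0) (.e (nat_lit 46203) (nat_lit 0) .nil) .nil))) 
(.lf (nat_lit 458523) (.g (nat_lit 3199) (.e (nat_lit 2685) (nat_lit 168) (.e (nat_lit 204869) (nat_lit 29) (.e (nat_lit 360475) (nat_lit 8) (.e (nat_lit 557087) (nat_lit 11) (.e (nat_lit 24592) (nat_lit 0) .nil))))) (.g (nat_lit 0) (.e (nat_lit 47603) (nat_lit 0) .nil) .nil))))) (.nd (nat_lit 8) (.nd (nat_lit 9) 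
(.lf (nat_lit 457883) (.g (nat_lit 3974) (.e (nat_lit 2684) (nat_lit 168) (.e (nat_lit 204863) (nat_lit 27) (.e (nat_lit 344132) (nat_lit 26) (.e (nat_lit 557105) (nat_lit 14) (.e (nat_lit 180252) (nat_lit 10) (.e (nat_lit 573475) (nat_lit 12) (.e (nat_lit 57506) (nat_lit 39) (.e (nat_lit 655104) (nat_lit 0) .nil)))))))) (.g (nat_lit 1) (.e (nat_lit 45739) (nat_lit 0) .nil) .nil))) 
(.lf (nat_lit 458395) (.g (nat_lit 1970) (.e (nat_lit 2685) (nat_lit 168) (.e (nat_lit 204868) (nat_lit 29) (.e (nat_lit 360466) (nat_lit 3) (.e (nat_lit 516141) (nat_lit 8) (.e (nat_lit 417816) (nat_lit 10) (.e (nat_lit 5612) (nat_lit 312) .nil)))))) (.g (nat_lit 1) (.e (nat_lit 47207) (nat_lit 0) .nil) .nil)))) (.nd (nat_lit 9) 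
(.lf (nat_lit 458139) (.g (nat_lit 505) (.e (nat_lit 2685) (nat_lit 168) (.e (nat_lit 204862) (nat_lit 27) (.e (nat_lit 344117) (nat_lit 21) .nil))) (.g (nat_lit 0) (.e (nat_lit 46774) (nat_lit 0) .nil) .nil))) 
(.lf (nat_lit 458651) (.g (nat_lit 1411) (.e (nat_lit 2700) (nat_lit 169) (.e (nat_lit 213030) (nat_lit 11) (.e (nat_lit 24608) (nat_lit 3) (.e (nat_lit 98381) (nat_lit 31) .nil)))) (.g (nat_lit 0) (.e (nat_lit 47885) (nat_lit 0) .nil) .nil)))))) (.nd (nat_lit 7) (.nd (nat_lit 8) (.nd (nat_lit 9) 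
(.lf (nat_lit 457819) (.g (nat_lit 5126) (.e (nat_lit 2684) (nat_lit 168) (.e (nat_lit 204862) (nat_lit 27) (.e (nat_lit 344133) (nat_lit 26) (.e (nat_lit 557105) (nat_lit 14) (.e (nat_lit 180252) (nat_lit 10) (.e (nat_lit 573474) (nat_lit 12) (.e (nat_lit 57507) (nat_lit 39) (.e (nat_lit 655104) (nat_lit 0) .nil)))))))) (.g (nat_lit 1) (.e (nat_lit 45675) (nat_lit 0) .nil) .nil))) 
(.lf (nat_lit 458331) (.g (nat_lit 2588) (.e (nat_lit 2685) (nat_lit 168) (.e (nat_lit 204863) (nat_lit 27) (.e (nat_lit 344133) (nat_lit 26) (.e (nat_lit 557103) (nat_lit 14) (.e (nat_lit 180250) (nat_lit 10) (.e (nat_lit 573473) (nat_lit 12) (.e (nat_lit 57508) (nat_lit 39) (.e (nat_lit 655104) (nat_lit 0) .nil)))))))) (.g (nat_lit 1) (.e (nat_lit 46969) (nat_lit 0) .nil) .nil)))) 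
(.nd (nat_lit 9) 
(.lf (nat_lit 458075) (.g (nat_lit 2465) (.e (nat_lit 2685) (nat_lit 168) (.e (nat_lit 204846) (nat_lit 24) (.e (nat_lit 319530) (nat_lit 16) (.e (nat_lit 286735) (nat_lit 3) (.e (nat_lit 98325) (nat_lit 17) .nil))))) (.g (nat_lit 0) (.e (nat_lit 46419) (nat_lit 0) .nil) .nil))) 
(.lf (nat_lit 458587) (.g (nat_lit 3045) (.e (nat_lit 2690) (nat_lit 169) (.e (nat_lit 213032) (nat_lit 11) (.e (nat_lit 24608) (nat_lit 3) (.e (nat_lit 98373) (nat_lit 29) (.e (nat_lit 458496) (nat_lit 8) .nil))))) (.g (nat_lit 0) (.e (nat_lit 47743) (nat_lit 0) .nil) .nil))))) (.nd (nat_lit 8) (.nd (nat_lit 9) 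
(.lf (nat_lit 457947) (.g (nat_lit 4076) (.e (nat_lit 2684) (nat_lit 168) (.e (nat_lit 204869) (nat_lit 29) (.e (nat_lit 360474) (nat_lit 8) (.e (nat_lit 557093) (nat_lit 12) (.e (nat_lit 163847) (nat_lit 0) (.e (nat_lit 6420) (nat_lit 341) (.e (nat_lit 163850) (nat_lit 0) (.e (nat_lit 7936) (nat_lit 388) .nil)))))))) (.g (nat_lit 1) (.e (nat_lit 46099) (nat_lit 0) .nil) .nil))) 
(.lf (nat_lit 458459) (.g (nat_lit 913) (.e (nat_lit 2685) (nat_lit 168) (.e (nat_lit 204869) (nat_lit 29) (.e (nat_lit 360472) (nat_lit 8) .nil))) (.g (nat_lit 0) (.e (nat_lit 47477) (nat_lit 0) .nil) .nil)))) (.nd (nat_lit 9) 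
(.lf (nat_lit 458203) (.g (nat_lit 1816) (.e (nat_lit 2685) (nat_lit 168) (.e (nat_lit 204862) (nat_lit 27) (.e (nat_lit 344130) (nat_lit 26) (.e (nat_lit 557104) (nat_lit 14) (.e (nat_lit 180252) (nat_lit 10) .nil))))) (.g (nat_lit 0) (.e (nat_lit 46840) (nat_lit 0) .nil) .nil))) 
(.lf (nat_lit 458715) (.g (nat_lit 2450) (.e (nat_lit 2725) (nat_lit 172) (.e (nat_lit 237586) (nat_lit 2) (.e (nat_lit 196666) (nat_lit 13) (.e (nat_lit 65617) (nat_lit 10) (.e (nat_lit 344130) (nat_lit 26) .nil))))) (.g (nat_lit 0) (.e (nat_lit 48323) (nat_lit 0) .nil) .nil))))))) (.nd (nat_lit 6) (.nd (nat_lit 7) (.nd (nat_lit 8) (.nd (nat_lit 9) 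
(.lf (nat_lit 457787) (.g (nat_lit 4056) (.e (nat_lit 2684) (nat_lit 168) (.e (nat_lit 204862) (nat_lit 27) (.e (nat_lit 344132) (nat_lit 26) (.e (nat_lit 557105) (nat_lit 14) (.e (nat_lit 180252) (nat_lit 10) (.e (nat_lit 573473) (nat_lit 12) (.e (nat_lit 57511) (nat_lit 39) (.e (nat_lit 655104) (nat_lit 0) .nil)))))))) (.g (nat_lit 1) (.e (nat_lit 45643) (nat_lit 0) .nil) .nil))) 
(.lf (nat_lit 458299) (.g (nat_lit 4159) (.e (nat_lit 2685) (nat_lit 168) (.e (nat_lit 204863) (nat_lit 27) (.e (nat_lit 344132) (nat_lit 26) (.e (nat_lit 557105) (nat_lit 14) (.e (nat_lit 180252) (nat_lit 10) (.e (nat_lit 573473) (nat_lit 12) (.e (nat_lit 57507) (nat_lit 39) (.e (nat_lit 647170) (nat_lit 0) .nil)))))))) (.g (nat_lit 1) (.e (nat_lit 46937) (nat_lit 0) .nil) .nil)))) 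
(.nd (nat_lit 9) 
(.lf (nat_lit 458043) (.g (nat_lit 3719) (.e (nat_lit 2685) (nat_lit 168) (.e (nat_lit 204837) (nat_lit 20) (.e (nat_lit 114714) (nat_lit 22) (.e (nat_lit 90174) (nat_lit 14) (.e (nat_lit 180243) (nat_lit 5) (.e (nat_lit 532499) (nat_lit 1) (.e (nat_lit 57657) (nat_lit 152) (.e (nat_lit 2433) (nat_lit 157) .nil)))))))) (.g (nat_lit 1) (.e (nat_lit 46283) (nat_lit 0) .nil) .nil))) 
(.lf (nat_lit 458555) (.g (nat_lit 2490) (.e (nat_lit 2685) (nat_lit 168) (.e (nat_lit 204877) (nat_lit 31) (.e (nat_lit 376865) (nat_lit 22) (.e (nat_lit 90174) (nat_lit 14) (.e (nat_lit 180225) (nat_lit 0) .nil))))) (.g (nat_lit 0) (.e (nat_lit 47646) (nat_lit 0) .nil) .nil))))) (.nd (nat_lit 8) (.nd (nat_lit 9) 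
(.lf (nat_lit 457915) (.g (nat_lit 1630) (.e (nat_lit 2684) (nat_lit 168) (.e (nat_lit 204868) (nat_lit 29) (.e (nat_lit 360473) (nat_lit 8) (.e (nat_lit 557087) (nat_lit 11) (.e (nat_lit 24588) (nat_lit 0) (.e (nat_lit 7936) (nat_lit 357) .nil)))))) (.g (nat_lit 1) (.e (nat_lit 45960) (nat_lit 0) .nil) .nil))) 
(.lf (nat_lit 458427) (.g (nat_lit 2259) (.e (nat_lit 2685) (nat_lit 168) (.e (nat_lit 204868) (nat_lit 29) (.e (nat_lit 360473) (nat_lit 8) (.e (nat_lit 557086) (nat_lit 11) (.e (nat_lit 24579) (nat_lit 0) (.e (nat_lit 6617) (nat_lit 357) .nil)))))) (.g (nat_lit 1) (.e (nat_lit 47363) (nat_lit 0) .nil) .nil)))) (.nd (nat_lit 9) 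
(.lf (nat_lit 458171) (.g (nat_lit 2787) (.e (nat_lit 2685) (nat_lit 168) (.e (nat_lit 204862) (nat_lit 27) (.e (nat_lit 344129) (nat_lit 26) (.e (nat_lit 557103) (nat_lit 14) (.e (nat_lit 180250) (nat_lit 10) .nil))))) (.g (nat_lit 0) (.e (nat_lit 46808) (nat_lit 0) .nil) .nil))) 
(.lf (nat_lit 458683) (.g (nat_lit 1972) (.e (nat_lit 2706) (nat_lit 170) (.e (nat_lit 221214) (nat_lit 23) (.e (nat_lit 204863) (nat_lit 27) (.e (nat_lit 344118) (nat_lit 21) (.e (nat_lit 516118) (nat_lit 1) .nil))))) (.g (nat_lit 0) (.e (nat_lit 48023) (nat_lit 0) .nil) .nil)))))) (.nd (nat_lit 7) (.nd (nat_lit 8) (.nd (nat_lit 9) 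
(.lf (nat_lit 457851) (.g (nat_lit 2332) (.e (nat_lit 2684) (nat_lit 168) (.e (nat_lit 204863) (nat_lit 27) (.e (nat_lit 344130) (nat_lit 26) (.e (nat_lit 557103) (nat_lit 14) (.e (nat_lit 180250) (nat_lit 10) (.e (nat_lit 573475) (nat_lit 12) (.e (nat_lit 57509) (nat_lit 39) (.e (nat_lit 655104) (nat_lit 0) .nil)))))))) (.g (nat_lit 1) (.e (nat_lit 45707) (nat_lit 0) .nil) .nil))) 
(.lf (nat_lit 458363) (.g (nat_lit 2726) (.e (nat_lit 2685) (nat_lit 168) (.e (nat_lit 204864) (nat_lit 27) (.e (nat_lit 344133) (nat_lit 26) (.e (nat_lit 557098) (nat_lit 13) (.e (nat_lit 172066) (nat_lit 3) (.e (nat_lit 204821) (nat_lit 17) (.e (nat_lit 2391) (nat_lit 156) (.e (nat_lit 819204) (nat_lit 0) .nil)))))))) (.g (nat_lit 1) (.e (nat_lit 47001) (nat_lit 0) .nil) .nil)))) 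
(.nd (nat_lit 9) 
(.lf (nat_lit 458107) (.g (nat_lit 3375) (.e (nat_lit 2685) (nat_lit 168) (.e (nat_lit 204846) (nat_lit 24) (.e (nat_lit 319533) (nat_lit 16) (.e (nat_lit 286734) (nat_lit 3) (.e (nat_lit 98368) (nat_lit 27) (.e (nat_lit 442112) (nat_lit 8) .nil)))))) (.g (nat_lit 1) (.e (nat_lit 46457) (nat_lit 0) .nil) .nil))) 
(.lf (nat_lit 458619) (.g (nat_lit 2908) (.e (nat_lit 2695) (nat_lit 169) (.e (nat_lit 213032) (nat_lit 11) (.e (nat_lit 24604) (nat_lit 2) (.e (nat_lit 90176) (nat_lit 15) (.e (nat_lit 188430) (nat_lit 20) (.e (nat_lit 7936) (nat_lit 200) (.e (nat_lit 557074) (nat_lit 9) .nil))))))) (.g (nat_lit 1) (.e (nat_lit 47790) (nat_lit 0) .nil) .nil))))) (.nd (nat_lit 8) (.nd (nat_lit 9) 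
(.lf (nat_lit 457979) (.g (nat_lit 2452) (.e (nat_lit 2684) (nat_lit 168) (.e (nat_lit 204869) (nat_lit 29) (.e (nat_lit 360475) (nat_lit 8) (.e (nat_lit 557087) (nat_lit 11) (.e (nat_lit 24588) (nat_lit 0) (.e (nat_lit 7936) (nat_lit 357) .nil)))))) (.g (nat_lit 1) (.e (nat_lit 46161) (nat_lit 0) .nil) .nil))) 
(.lf (nat_lit 458491) (.g (nat_lit 2717) (.e (nat_lit 2685) (nat_lit 168) (.e (nat_lit 204869) (nat_lit 29) (.e (nat_lit 360475) (nat_lit 8) (.e (nat_lit 557066) (nat_lit 9) (.e (nat_lit 307) (nat_lit 22) .nil))))) (.g (nat_lit 0) (.e (nat_lit 47542) (nat_lit 0) .nil) .nil)))) (.nd (nat_lit 9) 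
(.lf (nat_lit 458235) (.g (nat_lit 4384) (.e (nat_lit 2685) (nat_lit 168) (.e (nat_lit 204862) (nat_lit 27) (.e (nat_lit 344133) (nat_lit 26) (.e (nat_lit 557105) (nat_lit 14) (.e (nat_lit 180252) (nat_lit 10) (.e (nat_lit 573474) (nat_lit 12) (.e (nat_lit 57508) (nat_lit 39) (.e (nat_lit 647170) (nat_lit 0) .nil)))))))) (.g (nat_lit 1) (.e (nat_lit 46872) (nat_lit 0) .nil) .nil))) 
(.lf (nat_lit 458747) (.g (nat_lit 2312) (.e (nat_lit 2725) (nat_lit 172) (.e (nat_lit 237587) (nat_lit 2) (.e (nat_lit 196666) (nat_lit 13) (.e (nat_lit 65617) (nat_lit 10) (.e (nat_lit 344132) (nat_lit 26) (.e (nat_lit 557094) (nat_lit 12) (.e (nat_lit 163847) (nat_lit 0) (.e (nat_lit 6252) (nat_lit 337) .nil)))))))) (.g (nat_lit 1) (.e (nat_lit 48359) (nat_lit 0) .nil) .nil)))))))))) 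
(.nd (nat_lit 3) (.nd (nat_lit 4) (.nd (nat_lit 5) (.nd (nat_lit 6) (.nd (nat_lit 7) 
(.nd (nat_lit 8) (.nd (nat_lit 9) 
(.lf (nat_lit 457735) (.g (nat_lit 2067) (.e (nat_lit 2684) (nat_lit 168) (.e (nat_lit 204862) (nat_lit 27) (.e (nat_lit 344117) (nat_lit 21) (.e (nat_lit 516130) (nat_lit 3) (.e (nat_lit 221212) (nat_lit 22) (.e (nat_lit 196658) (nat_lit 12) (.e (nat_lit 57508) (nat_lit 39) (.e (nat_lit 655104) (nat_lit 0) .nil)))))))) (.g (nat_lit 1) (.e (nat_lit 45591) (nat_lit 0) .nil) .nil))) 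
(.lf (nat_lit 458247) (.g (nat_lit 3576) (.e (nat_lit 2685) (nat_lit 168) (.e (nat_lit 204863) (nat_lit 27) (.e (nat_lit 344129) (nat_lit 26) (.e (nat_lit 557097) (nat_lit 13) (.e (nat_lit 172065) (nat_lit 3) (.e (nat_lit 204821) (nat_lit 17) (.e (nat_lit 2391) (nat_lit 156) (.e (nat_lit 819204) (nat_lit 0) .nil)))))))) (.g (nat_lit 1) (.e (nat_lit 46885) (nat_lit 0) .nil) .nil)))) 
(.nd (nat_lit 9) 
(.lf (nat_lit 457991) (.g (nat_lit 3611) (.e (nat_lit 2684) (nat_lit 168) (.e (nat_lit 204869) (nat_lit 29) (.e (nat_lit 360475) (nat_lit 8) (.e (nat_lit 557089) (nat_lit 12) (.e (nat_lit 163848) (nat_lit 0) .nil))))) (.g (nat_lit 0) (.e (nat_lit 46175) (nat_lit 0) .nil) .nil))) 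
(.lf (nat_lit 458503) (.g (nat_lit 2621) (.e (nat_lit 2685) (nat_lit 168) (.e (nat_lit 204869) (nat_lit 29) (.e (nat_lit 360475) (nat_lit 8) (.e (nat_lit 557086) (nat_lit 11) (.e (nat_lit 24578) (nat_lit 0) (.e (nat_lit 6619) (nat_lit 357) .nil)))))) (.g (nat_lit 1) (.e (nat_lit 47583) (nat_lit 0) .nil) .nil))))) (.nd (nat_lit 8) (.nd (nat_lit 9) 
(.lf (nat_lit 457863) (.g (nat_lit 3704) (.e (nat_lit 2684) (nat_lit 168) (.e (nat_lit 204863) (nat_lit 27) (.e (nat_lit 344131) (nat_lit 26) (.e (nat_lit 557105) (nat_lit 14) (.e (nat_lit 180252) (nat_lit 10) (.e (nat_lit 573473) (nat_lit 12) (.e (nat_lit 57511) (nat_lit 39) (.e (nat_lit 655104) (nat_lit 0) .nil)))))))) (.g (nat_lit 1) (.e (nat_lit 45719) (nat_lit 0) .nil) .nil))) 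
(.lf (nat_lit 458375) (.g (nat_lit 1038) (.e (nat_lit 2685) (nat_lit 168) (.e (nat_lit 204868) (nat_lit 29) (.e (nat_lit 360456) (nat_lit 0) (.e (nat_lit 3962) (nat_lit 239) .nil)))) (.g (nat_lit 0) (.e (nat_lit 47167) (nat_lit 0) .nil) .nil)))) (.nd (nat_lit 9) 
(.lf (nat_lit 458119) (.g (nat_lit 2894) (.e (nat_lit 2685) (nat_lit 168) (.e (nat_lit 204846) (nat_lit 24) (.e (nat_lit 319534) (nat_lit 16) (.e (nat_lit 286735) (nat_lit 3) (.e (nat_lit 98325) (nat_lit 17) .nil))))) (.g (nat_lit 0) (.e (nat_lit 46472) (nat_lit 0) .nil) .nil))) 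
(.lf (nat_lit 458631) (.g (nat_lit 1358) (.e (nat_lit 2697) (nat_lit 169) (.e (nat_lit 213032) (nat_lit 11) (.e (nat_lit 24604) (nat_lit 2) .nil))) (.g (nat_lit 0) (.e (nat_lit 47828) (nat_lit 0) .nil) .nil)))))) (.nd (nat_lit 7) (.nd (nat_lit 8) (.nd (nat_lit 9) 
(.lf (nat_lit 457799) (.g (nat_lit 2017) (.e (nat_lit 2684) (nat_lit 168) (.e (nat_lit 204862) (nat_lit 27) (.e (nat_lit 344133) (nat_lit 26) (.e (nat_lit 557103) (nat_lit 14) (.e (nat_lit 180250) (nat_lit 10) (.e (nat_lit 573473) (nat_lit 12) (.e (nat_lit 57507) (nat_lit 39) (.e (nat_lit 647175) (nat_lit 0) .nil)))))))) (.g (nat_lit 1) (.e (nat_lit 45655) (nat_lit 0) .nil) .nil))) 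
(.lf (nat_lit 458311) (.g (nat_lit 501) (.e (nat_lit 2685) (nat_lit 168) (.e (nat_lit 204863) (nat_lit 27) (.e (nat_lit 344133) (nat_lit 26) .nil))) (.g (nat_lit 0) (.e (nat_lit 46949) (nat_lit 0) .nil) .nil)))) (.nd (nat_lit 9) 
(.lf (nat_lit 458055) (.g (nat_lit 2217) (.e (nat_lit 2685) (nat_lit 168) (.e (nat_lit 204837) (nat_lit 20) (.e (nat_lit 114718) (nat_lit 23) (.e (nat_lit 98356) (nat_lit 26) (.e (nat_lit 426436) (nat_lit 18) (.e (nat_lit 98334) (nat_lit 18) (.e (nat_lit 164305) (nat_lit 226) (.e (nat_lit 2433) (nat_lit 157) .nil)))))))) (.g (nat_lit 1) (.e (nat_lit 46298) (nat_lit 0) .nil) .nil))) 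
(.lf (nat_lit 458567) (.g (nat_lit 3145) (.e (nat_lit 2686) (nat_lit 169) (.e (nat_lit 213032) (nat_lit 11) (.e (nat_lit 24604) (nat_lit 2) (.e (nat_lit 90185) (nat_lit 17) .nil)))) (.g (nat_lit 0) (.e (nat_lit 47710) (nat_lit 0) .nil) .nil))))) (.nd (nat_lit 8) (.nd (nat_lit 9) 
(.lf (nat_lit 457927) (.g (nat_lit 2275) (.e (nat_lit 2684) (nat_lit 168) (.e (nat_lit 204869) (nat_lit 29) (.e (nat_lit 360474) (nat_lit 8) (.e (nat_lit 557089) (nat_lit 12) (.e (nat_lit 163844) (nat_lit 0) .nil))))) (.g (nat_lit 0) (.e (nat_lit 46074) (nat_lit 0) .nil) .nil))) 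
(.lf (nat_lit 458439) (.g (nat_lit 2327) (.e (nat_lit 2685) (nat_lit 168) (.e (nat_lit 204868) (nat_lit 29) (.e (nat_lit 360475) (nat_lit 8) (.e (nat_lit 557073) (nat_lit 9) .nil)))) (.g (nat_lit 0) (.e (nat_lit 47407) (nat_lit 0) .nil) .nil)))) (.nd (nat_lit 9) 
(.lf (nat_lit 458183) (.g (nat_lit 3229) (.e (nat_lit 2685) (nat_lit 168) (.e (nat_lit 204862) (nat_lit 27) (.e (nat_lit 344129) (nat_lit 26) (.e (nat_lit 557104) (nat_lit 14) (.e (nat_lit 180252) (nat_lit 10) (.e (nat_lit 573473) (nat_lit 12) (.e (nat_lit 57508) (nat_lit 39) (.e (nat_lit 647170) (nat_lit 0) .nil)))))))) (.g (nat_lit 1) (.e (nat_lit 46820) (nat_lit 0) .nil) .nil))) 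
(.lf (nat_lit 458695) (.g (nat_lit 1802) (.e (nat_lit 2706) (nat_lit 170) (.e (nat_lit 221215) (nat_lit 23) (.e (nat_lit 204862) (nat_lit 27) (.e (nat_lit 344118) (nat_lit 21) (.e (nat_lit 516120) (nat_lit 1) .nil))))) (.g (nat_lit 0) (.e (nat_lit 48054) (nat_lit 0) .nil) .nil))))))) (.nd (nat_lit 6) (.nd (nat_lit 7) (.nd (nat_lit 8) (.nd (nat_lit 9) 
(.lf (nat_lit 457767) (.g (nat_lit 3712) (.e (nat_lit 2684) (nat_lit 168) (.e (nat_lit 204862) (nat_lit 27) (.e (nat_lit 344130) (nat_lit 26) (.e (nat_lit 557103) (nat_lit 14) (.e (nat_lit 180250) (nat_lit 10) (.e (nat_lit 573473) (nat_lit 12) (.e (nat_lit 57511) (nat_lit 39) (.e (nat_lit 655104) (nat_lit 0) .nil)))))))) (.g (nat_lit 1) (.e (nat_lit 45623) (nat_lit 0) .nil) .nil))) 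
(.lf (nat_lit 458279) (.g (nat_lit 2838) (.e (nat_lit 2685) (nat_lit 168) (.e (nat_lit 204863) (nat_lit 27) (.e (nat_lit 344131) (nat_lit 26) (.e (nat_lit 557105) (nat_lit 14) (.e (nat_lit 180252) (nat_lit 10) (.e (nat_lit 573473) (nat_lit 12) (.e (nat_lit 57507) (nat_lit 39) (.e (nat_lit 647170) (nat_lit 0) .nil)))))))) (.g (nat_lit 1) (.e (nat_lit 46917) (nat_lit 0) .nil) .nil)))) 
(.nd (nat_lit 9) 
(.lf (nat_lit 458023) (.g (nat_lit 1148) (.e (nat_lit 2685) (nat_lit 168) (.e (nat_lit 204829) (nat_lit 18) (.e (nat_lit 57847) (nat_lit 252) .nil))) (.g (nat_lit 0) (.e (nat_lit 46259) (nat_lit 0) .nil) .nil))) 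
(.lf (nat_lit 458535) (.g (nat_lit 3641) (.e (nat_lit 2685) (nat_lit 168) (.e (nat_lit 204869) (nat_lit 29) (.e (nat_lit 360475) (nat_lit 8) (.e (nat_lit 557089) (nat_lit 12) (.e (nat_lit 163849) (nat_lit 0) (.e (nat_lit 6416) (nat_lit 341) (.e (nat_lit 163843) (nat_lit 0) (.e (nat_lit 7936) (nat_lit 388) .nil)))))))) (.g (nat_lit 1) (.e (nat_lit 47615) (nat_lit 0) .nil) .nil))))) 
(.nd (nat_lit 8) (.nd (nat_lit 9) 
(.lf (nat_lit 457895) (.g (nat_lit 3256) (.e (nat_lit 2684) (nat_lit 168) (.e (nat_lit 204863) (nat_lit 27) (.e (nat_lit 344133) (nat_lit 26) (.e (nat_lit 557103) (nat_lit 14) (.e (nat_lit 180250) (nat_lit 10) (.e (nat_lit 573478) (nat_lit 12) (.e (nat_lit 57509) (nat_lit 39) (.e (nat_lit 655104) (nat_lit 0) .nil)))))))) (.g (nat_lit 1) (.e (nat_lit 45751) (nat_lit 0) .nil) .nil))) 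
(.lf (nat_lit 458407) (.g (nat_lit 3430) (.e (nat_lit 2685) (nat_lit 168) (.e (nat_lit 204868) (nat_lit 29) (.e (nat_lit 360466) (nat_lit 3) (.e (nat_lit 516142) (nat_lit 8) (.e (nat_lit 417820) (nat_lit 10) (.e (nat_lit 5612) (nat_lit 312) .nil)))))) (.g (nat_lit 1) (.e (nat_lit 47220) (nat_lit 0) .nil) .nil)))) (.nd (nat_lit 9) 
(.lf (nat_lit 458151) (.g (nat_lit 2086) (.e (nat_lit 2685) (nat_lit 168) (.e (nat_lit 204862) (nat_lit 27) (.e (nat_lit 344117) (nat_lit 21) (.e (nat_lit 516130) (nat_lit 3) (.e (nat_lit 221215) (nat_lit 23) (.e (nat_lit 204830) (nat_lit 18) (.e (nat_lit 57905) (nat_lit 278) (.e (nat_lit 2433) (nat_lit 157) .nil)))))))) (.g (nat_lit 1) (.e (nat_lit 46786) (nat_lit 0) .nil) .nil))) 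
(.lf (nat_lit 458663) (.g (nat_lit 775) (.e (nat_lit 2700) (nat_lit 169) (.e (nat_lit 213032) (nat_lit 11) (.e (nat_lit 24608) (nat_lit 3) .nil))) (.g (nat_lit 0) (.e (nat_lit 47899) (nat_lit 0) .nil) .nil)))))) (.nd (nat_lit 7) (.nd (nat_lit 8) (.nd (nat_lit 9) 
(.lf (nat_lit 457831) (.g (nat_lit 2125) (.e (nat_lit 2684) (nat_lit 168) (.e (nat_lit 204863) (nat_lit 27) (.e (nat_lit 344127) (nat_lit 26) (.e (nat_lit 557104) (nat_lit 14) (.e (nat_lit 180252) (nat_lit 10) (.e (nat_lit 573474) (nat_lit 12) (.e (nat_lit 57508) (nat_lit 39) (.e (nat_lit 647175) (nat_lit 0) .nil)))))))) (.g (nat_lit 1) (.e (nat_lit 45687) (nat_lit 0) .nil) .nil))) 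
(.lf (nat_lit 458343) (.g (nat_lit 3816) (.e (nat_lit 2685) (nat_lit 168) (.e (nat_lit 204863) (nat_lit 27) (.e (nat_lit 344133) (nat_lit 26) (.e (nat_lit 557105) (nat_lit 14) (.e (nat_lit 180252) (nat_lit 10) (.e (nat_lit 573474) (nat_lit 12) (.e (nat_lit 57348) (nat_lit 0) (.e (nat_lit 5437) (nat_lit 306) (.e (nat_lit 2450) (nat_lit 157) .nil))))))))) (.g (nat_lit 1) (.e (nat_lit 46981) (nat_lit 0) .nil) .nil)))) 
(.nd (nat_lit 9) 
(.lf (nat_lit 458087) (.g (nat_lit 3077) (.e (nat_lit 2685) (nat_lit 168) (.e (nat_lit 204846) (nat_lit 24) (.e (nat_lit 319531) (nat_lit 16) (.e (nat_lit 286735) (nat_lit 3) (.e (nat_lit 98366) (nat_lit 27) .nil))))) (.g (nat_lit 0) (.e (nat_lit 46432) (nat_lit 0) .nil) .nil))) 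
(.lf (nat_lit 458599) (.g (nat_lit 1894) (.e (nat_lit 2692) (nat_lit 169) (.e (nat_lit 213030) (nat_lit 11) (.e (nat_lit 24617) (nat_lit 7) (.e (nat_lit 319528) (nat_lit 16) (.e (nat_lit 286759) (nat_lit 12) .nil))))) (.g (nat_lit 0) (.e (nat_lit 47762) (nat_lit 0) .nil) .nil))))) (.nd (nat_lit 8) (.nd (nat_lit 9) 
(.lf (nat_lit 457959) (.g (nat_lit 3398) (.e (nat_lit 2684) (nat_lit 168) (.e (nat_lit 204869) (nat_lit 29) (.e (nat_lit 360474) (nat_lit 8) (.e (nat_lit 557094) (nat_lit 12) (.e (nat_lit 163849) (nat_lit 0) .nil))))) (.g (nat_lit 0) (.e (nat_lit 46115) (nat_lit 0) .nil) .nil))) 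
(.lf (nat_lit 458471) (.g (nat_lit 3799) (.e (nat_lit 2685) (nat_lit 168) (.e (nat_lit 204869) (nat_lit 29) (.e (nat_lit 360474) (nat_lit 8) (.e (nat_lit 557071) (nat_lit 9) .nil)))) (.g (nat_lit 0) (.e (nat_lit 47500) (nat_lit 0) .nil) .nil)))) (.nd (nat_lit 9) 
(.lf (nat_lit 458215) (.g (nat_lit 3517) (.e (nat_lit 2685) (nat_lit 168) (.e (nat_lit 204862) (nat_lit 27) (.e (nat_lit 344132) (nat_lit 26) (.e (nat_lit 557105) (nat_lit 14) (.e (nat_lit 180252) (nat_lit 10) (.e (nat_lit 573473) (nat_lit 12) (.e (nat_lit 57508) (nat_lit 39) (.e (nat_lit 647170) (nat_lit 0) .nil)))))))) (.g (nat_lit 1) (.e (nat_lit 46852) (nat_lit 0) .nil) .nil))) 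
(.lf (nat_lit 458727) (.g (nat_lit 2073) (.e (nat_lit 2725) (nat_lit 172) (.e (nat_lit 237587) (nat_lit 2) (.e (nat_lit 196666) (nat_lit 13) (.e (nat_lit 65617) (nat_lit 10) (.e (nat_lit 344127) (nat_lit 26) .nil))))) (.g (nat_lit 0) (.e (nat_lit 48339) (nat_lit 0) .nil) .nil)))))))) (.nd (nat_lit 5) (.nd (nat_lit 6) (.nd (nat_lit 7) (.nd (nat_lit 8) (.nd (nat_lit 9) 
(.lf (nat_lit 457751) (.g (nat_lit 3583) (.e (nat_lit 2684) (nat_lit 168) (.e (nat_lit 204862) (nat_lit 27) (.e (nat_lit 344129) (nat_lit 26) (.e (nat_lit 557103) (nat_lit 14) (.e (nat_lit 180250) (nat_lit 10) (.e (nat_lit 573478) (nat_lit 12) (.e (nat_lit 57511) (nat_lit 39) (.e (nat_lit 655104) (nat_lit 0) .nil)))))))) (.g (nat_lit 1) (.e (nat_lit 45607) (nat_lit 0) .nil) .nil))) 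
(.lf (nat_lit 458263) (.g (nat_lit 2828) (.e (nat_lit 2685) (nat_lit 168) (.e (nat_lit 204863) (nat_lit 27) (.e (nat_lit 344130) (nat_lit 26) (.e (nat_lit 557097) (nat_lit 13) (.e (nat_lit 172066) (nat_lit 3) (.e (nat_lit 204821) (nat_lit 17) (.e (nat_lit 2391) (nat_lit 156) (.e (nat_lit 819204) (nat_lit 0) .nil)))))))) (.g (nat_lit 1) (.e (nat_lit 46901) (nat_lit 0) .nil) .nil)))) 
(.nd (nat_lit 9) 
(.lf (nat_lit 458007) (.g (nat_lit 3722) (.e (nat_lit 2684) (nat_lit 168) (.e (nat_lit 204869) (nat_lit 29) (.e (nat_lit 360475) (nat_lit 8) (.e (nat_lit 557091) (nat_lit 12) (.e (nat_lit 163847) (nat_lit 0) .nil))))) (.g (nat_lit 0) (.e (nat_lit 46199) (nat_lit 0) .nil) .nil))) 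
(.lf (nat_lit 458519) (.g (nat_lit 3415) (.e (nat_lit 2685) (nat_lit 168) (.e (nat_lit 204869) (nat_lit 29) (.e (nat_lit 360475) (nat_lit 8) (.e (nat_lit 557087) (nat_lit 11) (.e (nat_lit 24588) (nat_lit 0) (.e (nat_lit 7936) (nat_lit 357) .nil)))))) (.g (nat_lit 1) (.e (nat_lit 47599) (nat_lit 0) .nil) .nil))))) (.nd (nat_lit 8) (.nd (nat_lit 9) 
(.lf (nat_lit 457879) (.g (nat_lit 4203) (.e (nat_lit 2684) (nat_lit 168) (.e (nat_lit 204863) (nat_lit 27) (.e (nat_lit 344132) (nat_lit 26) (.e (nat_lit 557105) (nat_lit 14) (.e (nat_lit 180252) (nat_lit 10) (.e (nat_lit 573473) (nat_lit 12) (.e (nat_lit 57511) (nat_lit 39) (.e (nat_lit 655104) (nat_lit 0) .nil)))))))) (.g (nat_lit 1) (.e (nat_lit 45735) (nat_lit 0) .nil) .nil))) 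
(.lf (nat_lit 458391) (.g (nat_lit 3780) (.e (nat_lit 2685) (nat_lit 168) (.e (nat_lit 204868) (nat_lit 29) (.e (nat_lit 360466) (nat_lit 3) (.e (nat_lit 516139) (nat_lit 7) (.e (nat_lit 409616) (nat_lit 10) (.e (nat_lit 5628) (nat_lit 312) .nil)))))) (.g (nat_lit 1) (.e (nat_lit 47202) (nat_lit 0) .nil) .nil)))) (.nd (nat_lit 9) 
(.lf (nat_lit 458135) (.g (nat_lit 1276) (.e (nat_lit 2685) (nat_lit 168) (.e (nat_lit 204855) (nat_lit 26) (.e (nat_lit 336178) (nat_lit 10) (.e (nat_lit 344117) (nat_lit 21) (.e (nat_lit 516139) (nat_lit 7) .nil))))) (.g (nat_lit 0) (.e (nat_lit 46707) (nat_lit 0) .nil) .nil))) 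
(.lf (nat_lit 458647) (.g (nat_lit 2585) (.e (nat_lit 2699) (nat_lit 169) (.e (nat_lit 213032) (nat_lit 11) (.e (nat_lit 24608) (nat_lit 3) (.e (nat_lit 98365) (nat_lit 26) .nil)))) (.g (nat_lit 0) (.e (nat_lit 47873) (nat_lit 0) .nil) .nil)))))) (.nd (nat_lit 7) (.nd (nat_lit 8) (.nd (nat_lit 9) 
(.lf (nat_lit 457815) (.g (nat_lit 3883) (.e (nat_lit 2684) (nat_lit 168) (.e (nat_lit 204862) (nat_lit 27) (.e (nat_lit 344133) (nat_lit 26) (.e (nat_lit 557105) (nat_lit 14) (.e (nat_lit 180251) (nat_lit 10) (.e (nat_lit 573478) (nat_lit 12) (.e (nat_lit 57509) (nat_lit 39) (.e (nat_lit 655104) (nat_lit 0) .nil)))))))) (.g (nat_lit 1) (.e (nat_lit 45671) (nat_lit 0) .nil) .nil))) 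
(.lf (nat_lit 458327) (.g (nat_lit 2670) (.e (nat_lit 2685) (nat_lit 168) (.e (nat_lit 204863) (nat_lit 27) (.e (nat_lit 344133) (nat_lit 26) (.e (nat_lit 557103) (nat_lit 14) (.e (nat_lit 188160) (nat_lit 3) (.e (nat_lit 516106) (nat_lit 0) (.e (nat_lit 7936) (nat_lit 218) (.e (nat_lit 704512) (nat_lit 0) .nil)))))))) (.g (nat_lit 1) (.e (nat_lit 46965) (nat_lit 0) .nil) .nil)))) 
(.nd (nat_lit 9) 
(.lf (nat_lit 458071) (.g (nat_lit 3526) (.e (nat_lit 2685) (nat_lit 168) (.e (nat_lit 204846) (nat_lit 24) (.e (nat_lit 319529) (nat_lit 16) (.e (nat_lit 286735) (nat_lit 3) (.e (nat_lit 98350) (nat_lit 24) (.e (nat_lit 409602) (nat_lit 0) (.e (nat_lit 5626) (nat_lit 312) .nil))))))) (.g (nat_lit 1) (.e (nat_lit 46413) (nat_lit 0) .nil) .nil))) 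
(.lf (nat_lit 458583) (.g (nat_lit 2423) (.e (nat_lit 2690) (nat_lit 169) (.e (nat_lit 213032) (nat_lit 11) (.e (nat_lit 24604) (nat_lit 2) (.e (nat_lit 90176) (nat_lit 15) .nil)))) (.g (nat_lit 0) (.e (nat_lit 47739) (nat_lit 0) .nil) .nil))))) (.nd (nat_lit 8) (.nd (nat_lit 9) 
(.lf (nat_lit 457943) (.g (nat_lit 4434) (.e (nat_lit 2684) (nat_lit 168) (.e (nat_lit 204869) (nat_lit 29) (.e (nat_lit 360474) (nat_lit 8) (.e (nat_lit 557091) (nat_lit 12) (.e (nat_lit 163848) (nat_lit 0) .nil))))) (.g (nat_lit 0) (.e (nat_lit 46092) (nat_lit 0) .nil) .nil))) 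
(.lf (nat_lit 458455) (.g (nat_lit 1937) (.e (nat_lit 2685) (nat_lit 168) (.e (nat_lit 204869) (nat_lit 29) (.e (nat_lit 360450) (nat_lit 0) (.e (nat_lit 3950) (nat_lit 239) .nil)))) (.g (nat_lit 0) (.e (nat_lit 47425) (nat_lit 0) .nil) .nil)))) (.nd (nat_lit 9) 
(.lf (nat_lit 458199) (.g (nat_lit 2498) (.e (nat_lit 2685) (nat_lit 168) (.e (nat_lit 204862) (nat_lit 27) (.e (nat_lit 344130) (nat_lit 26) (.e (nat_lit 557103) (nat_lit 14) (.e (nat_lit 180250) (nat_lit 10) (.e (nat_lit 573474) (nat_lit 12) (.e (nat_lit 57507) (nat_lit 39) (.e (nat_lit 655104) (nat_lit 0) .nil)))))))) (.g (nat_lit 1) (.e (nat_lit 46836) (nat_lit 0) .nil) .nil))) 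
(.lf (nat_lit 458711) (.g (nat_lit 451) (.e (nat_lit 2710) (nat_lit 170) (.e (nat_lit 221207) (nat_lit 21) (.e (nat_lit 164347) (nat_lit 240) .nil))) (.g (nat_lit 0) (.e (nat_lit 48132) (nat_lit 0) .nil) .nil))))))) (.nd (nat_lit 6) (.nd (nat_lit 7) (.nd (nat_lit 8) (.nd (nat_lit 9) 
(.lf (nat_lit 457783) (.g (nat_lit 2082) (.e (nat_lit 2684) (nat_lit 168) (.e (nat_lit 204862) (nat_lit 27) (.e (nat_lit 344132) (nat_lit 26) (.e (nat_lit 557105) (nat_lit 14) (.e (nat_lit 180252) (nat_lit 10) (.e (nat_lit 573473) (nat_lit 12) (.e (nat_lit 57507) (nat_lit 39) (.e (nat_lit 647175) (nat_lit 0) .nil)))))))) (.g (nat_lit 1) (.e (nat_lit 45639) (nat_lit 0) .nil) .nil))) 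
(.lf (nat_lit 458295) (.g (nat_lit 2214) (.e (nat_lit 2685) (nat_lit 168) (.e (nat_lit 204863) (nat_lit 27) (.e (nat_lit 344132) (nat_lit 26) (.e (nat_lit 557103) (nat_lit 14) (.e (nat_lit 180250) (nat_lit 10) (.e (nat_lit 573473) (nat_lit 12) (.e (nat_lit 57508) (nat_lit 39) (.e (nat_lit 647170) (nat_lit 0) .nil)))))))) (.g (nat_lit 1) (.e (nat_lit 46933) (nat_lit 0) .nil) .nil)))) 
(.nd (nat_lit 9) 
(.lf (nat_lit 458039) (.g (nat_lit 4542) (.e (nat_lit 2685) (nat_lit 168) (.e (nat_lit 204837) (nat_lit 20) (.e (nat_lit 114714) (nat_lit 22) (.e (nat_lit 90172) (nat_lit 14) (.e (nat_lit 180244) (nat_lit 5) (.e (nat_lit 532503) (nat_lit 1) (.e (nat_lit 57654) (nat_lit 152) (.e (nat_lit 2399) (nat_lit 157) .nil)))))))) (.g (nat_lit 1) (.e (nat_lit 46279) (nat_lit 0) .nil) .nil))) 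
(.lf (nat_lit 458551) (.g (nat_lit 2469) (.e (nat_lit 2685) (nat_lit 168) (.e (nat_lit 204870) (nat_lit 29) (.e (nat_lit 360467) (nat_lit 3) (.e (nat_lit 516139) (nat_lit 7) (.e (nat_lit 409616) (nat_lit 10) (.e (nat_lit 7936) (nat_lit 312) .nil)))))) (.g (nat_lit 1) (.e (nat_lit 47636) (nat_lit 0) .nil) .nil))))) (.nd (nat_lit 8) (.nd (nat_lit 9) 
(.lf (nat_lit 457911) (.g (nat_lit 2216) (.e (nat_lit 2684) (nat_lit 168) (.e (nat_lit 204868) (nat_lit 29) (.e (nat_lit 360473) (nat_lit 8) (.e (nat_lit 557087) (nat_lit 11) (.e (nat_lit 24578) (nat_lit 0) (.e (nat_lit 7936) (nat_lit 357) .nil)))))) (.g (nat_lit 1) (.e (nat_lit 45956) (nat_lit 0) .nil) .nil))) 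
(.lf (nat_lit 458423) (.g (nat_lit 1609) (.e (nat_lit 2685) (nat_lit 168) (.e (nat_lit 204868) (nat_lit 29) (.e (nat_lit 360473) (nat_lit 8) (.e (nat_lit 557072) (nat_lit 9) (.e (nat_lit 214) (nat_lit 19) .nil))))) (.g (nat_lit 0) (.e (nat_lit 47341) (nat_lit 0) .nil) .nil)))) (.nd (nat_lit 9) 
(.lf (nat_lit 458167) (.g (nat_lit 2694) (.e (nat_lit 2685) (nat_lit 168) (.e (nat_lit 204862) (nat_lit 27) (.e (nat_lit 344129) (nat_lit 26) (.e (nat_lit 557103) (nat_lit 14) (.e (nat_lit 180243) (nat_lit 5) (.e (nat_lit 532504) (nat_lit 1) (.e (nat_lit 57703) (nat_lit 164) (.e (nat_lit 2416) (nat_lit 157) .nil)))))))) (.g (nat_lit 1) (.e (nat_lit 46804) (nat_lit 0) .nil) .nil))) 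
(.lf (nat_lit 458679) (.g (nat_lit 5018) (.e (nat_lit 2706) (nat_lit 170) (.e (nat_lit 221214) (nat_lit 23) (.e (nat_lit 204863) (nat_lit 27) (.e (nat_lit 344117) (nat_lit 21) (.e (nat_lit 516115) (nat_lit 1) (.e (nat_lit 164183) (nat_lit 154) (.e (nat_lit 57373) (nat_lit 2) (.e (nat_lit 90128) (nat_lit 9) .nil)))))))) (.g (nat_lit 1) (.e (nat_lit 48018) (nat_lit 0) .nil) .nil)))))) 
(.nd (nat_lit 7) (.nd (nat_lit 8) (.nd (nat_lit 9) 
(.lf (nat_lit 457847) (.g (nat_lit 3453) (.e (nat_lit 2684) (nat_lit 168) (.e (nat_lit 204863) (nat_lit 27) (.e (nat_lit 344129) (nat_lit 26) (.e (nat_lit 557104) (nat_lit 14) (.e (nat_lit 180252) (nat_lit 10) (.e (nat_lit 573474) (nat_lit 12) (.e (nat_lit 57508) (nat_lit 39) (.e (nat_lit 655104) (nat_lit 0) .nil)))))))) (.g (nat_lit 1) (.e (nat_lit 45703) (nat_lit 0) .nil) .nil))) 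
(.lf (nat_lit 458359) (.g (nat_lit 2729) (.e (nat_lit 2685) (nat_lit 168) (.e (nat_lit 204864) (nat_lit 27) (.e (nat_lit 344132) (nat_lit 26) (.e (nat_lit 557101) (nat_lit 13) (.e (nat_lit 172066) (nat_lit 3) (.e (nat_lit 204821) (nat_lit 17) (.e (nat_lit 2391) (nat_lit 156) (.e (nat_lit 819204) (nat_lit 0) .nil)))))))) (.g (nat_lit 1) (.e (nat_lit 46997) (nat_lit 0) .nil) .nil)))) 
(.nd (nat_lit 9) 
(.lf (nat_lit 458103) (.g (nat_lit 701) (.e (nat_lit 2685) (nat_lit 168) (.e (nat_lit 204846) (nat_lit 24) (.e (nat_lit 319533) (nat_lit 16) (.e (nat_lit 294656) (nat_lit 2) .nil)))) (.g (nat_lit 0) (.e (nat_lit 46453) (nat_lit 0) .nil) .nil))) 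
(.lf (nat_lit 458615) (.g (nat_lit 2207) (.e (nat_lit 2695) (nat_lit 169) (.e (nat_lit 213030) (nat_lit 11) (.e (nat_lit 24617) (nat_lit 7) (.e (nat_lit 319534) (nat_lit 16) (.e (nat_lit 286756) (nat_lit 10) .nil))))) (.g (nat_lit 0) (.e (nat_lit 47786) (nat_lit 0) .nil) .nil))))) (.nd (nat_lit 8) (.nd (nat_lit 9) 
(.lf (nat_lit 457975) (.g (nat_lit 3029) (.e (nat_lit 2684) (nat_lit 168) (.e (nat_lit 204869) (nat_lit 29) (.e (nat_lit 360475) (nat_lit 8) (.e (nat_lit 557087) (nat_lit 11) (.e (nat_lit 24583) (nat_lit 0) .nil))))) (.g (nat_lit 0) (.e (nat_lit 46157) (nat_lit 0) .nil) .nil))) 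
(.lf (nat_lit 458487) (.g (nat_lit 3240) (.e (nat_lit 2685) (nat_lit 168) (.e (nat_lit 204869) (nat_lit 29) (.e (nat_lit 360475) (nat_lit 8) (.e (nat_lit 557065) (nat_lit 9) (.e (nat_lit 214) (nat_lit 19) (.e (nat_lit 319493) (nat_lit 0) (.e (nat_lit 5626) (nat_lit 312) .nil))))))) (.g (nat_lit 1) (.e (nat_lit 47534) (nat_lit 0) .nil) .nil)))) (.nd (nat_lit 9) 
(.lf (nat_lit 458231) (.g (nat_lit 2901) (.e (nat_lit 2685) (nat_lit 168) (.e (nat_lit 204862) (nat_lit 27) (.e (nat_lit 344133) (nat_lit 26) (.e (nat_lit 557103) (nat_lit 14) (.e (nat_lit 180250) (nat_lit 10) (.e (nat_lit 573473) (nat_lit 12) (.e (nat_lit 57507) (nat_lit 39) (.e (nat_lit 647170) (nat_lit 0) .nil)))))))) (.g (nat_lit 1) (.e (nat_lit 46868) (nat_lit 0) .nil) .nil))) 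
(.lf (nat_lit 458743) (.g (nat_lit 2563) (.e (nat_lit 2725) (nat_lit 172) (.e (nat_lit 237587) (nat_lit 2) (.e (nat_lit 196666) (nat_lit 13) (.e (nat_lit 65617) (nat_lit 10) (.e (nat_lit 344132) (nat_lit 26) (.e (nat_lit 557093) (nat_lit 12) (.e (nat_lit 163847) (nat_lit 0) (.e (nat_lit 6255) (nat_lit 337) .nil)))))))) (.g (nat_lit 1) (.e (nat_lit 48355) (nat_lit 0) .nil) .nil))))))))) 
(.nd (nat_lit 4) (.nd (nat_lit 5) (.nd (nat_lit 6) (.nd (nat_lit 7) (.nd (nat_lit 8) 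
(.nd (nat_lit 9) 
(.lf (nat_lit 457743) (.g (nat_lit 4709) (.e (nat_lit 2684) (nat_lit 168) (.e (nat_lit 204862) (nat_lit 27) (.e (nat_lit 344129) (nat_lit 26) (.e (nat_lit 557103) (nat_lit 14) (.e (nat_lit 180250) (nat_lit 10) (.e (nat_lit 573473) (nat_lit 12) (.e (nat_lit 57508) (nat_lit 39) (.e (nat_lit 647175) (nat_lit 0) .nil)))))))) (.g (nat_lit 1) (.e (nat_lit 45599) (nat_lit 0) .nil) .nil))) 
(.lf (nat_lit 458255) (.g (nat_lit 2659) (.e (nat_lit 2685) (nat_lit 168) (.e (nat_lit 204863) (nat_lit 27) (.e (nat_lit 344129) (nat_lit 26) (.e (nat_lit 557103) (nat_lit 14) (.e (nat_lit 180250) (nat_lit 10) .nil))))) (.g (nat_lit 0) (.e (nat_lit 46893) (nat_lit 0) .nil) .nil)))) (.nd (nat_lit 9) 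
(.lf (nat_lit 457999) (.g (nat_lit 2924) (.e (nat_lit 2684) (nat_lit 168) (.e (nat_lit 204869) (nat_lit 29) (.e (nat_lit 360475) (nat_lit 8) (.e (nat_lit 557091) (nat_lit 12) .nil)))) (.g (nat_lit 0) (.e (nat_lit 46188) (nat_lit 0) .nil) .nil))) 
(.lf (nat_lit 458511) (.g (nat_lit 2318) (.e (nat_lit 2685) (nat_lit 168) (.e (nat_lit 204869) (nat_lit 29) (.e (nat_lit 360475) (nat_lit 8) (.e (nat_lit 557087) (nat_lit 11) (.e (nat_lit 24580) (nat_lit 0) .nil))))) (.g (nat_lit 0) (.e (nat_lit 47591) (nat_lit 0) .nil) .nil))))) (.nd (nat_lit 8) (.nd (nat_lit 9) 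
(.lf (nat_lit 457871) (.g (nat_lit 2606) (.e (nat_lit 2684) (nat_lit 168) (.e (nat_lit 204863) (nat_lit 27) (.e (nat_lit 344132) (nat_lit 26) (.e (nat_lit 557105) (nat_lit 14) (.e (nat_lit 180251) (nat_lit 10) (.e (nat_lit 573478) (nat_lit 12) (.e (nat_lit 57509) (nat_lit 39) (.e (nat_lit 655104) (nat_lit 0) .nil)))))))) (.g (nat_lit 1) (.e (nat_lit 45727) (nat_lit 0) .nil) .nil))) 
(.lf (nat_lit 458383) (.g (nat_lit 2643) (.e (nat_lit 2685) (nat_lit 168) (.e (nat_lit 204868) (nat_lit 29) (.e (nat_lit 360466) (nat_lit 3) (.e (nat_lit 516138) (nat_lit 7) (.e (nat_lit 409617) (nat_lit 10) (.e (nat_lit 5627) (nat_lit 312) .nil)))))) (.g (nat_lit 1) (.e (nat_lit 47194) (nat_lit 0) .nil) .nil)))) (.nd (nat_lit 9) 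
(.lf (nat_lit 458127) (.g (nat_lit 2053) (.e (nat_lit 2685) (nat_lit 168) (.e (nat_lit 204850) (nat_lit 26) (.e (nat_lit 336205) (nat_lit 12) (.e (nat_lit 385074) (nat_lit 31) (.e (nat_lit 573487) (nat_lit 14) (.e (nat_lit 81664) (nat_lit 32) .nil)))))) (.g (nat_lit 1) (.e (nat_lit 46483) (nat_lit 0) .nil) .nil))) 
(.lf (nat_lit 458639) (.g (nat_lit 2676) (.e (nat_lit 2698) (nat_lit 169) (.e (nat_lit 213030) (nat_lit 11) (.e (nat_lit 24617) (nat_lit 7) (.e (nat_lit 319533) (nat_lit 16) (.e (nat_lit 286754) (nat_lit 10) .nil))))) (.g (nat_lit 0) (.e (nat_lit 47838) (nat_lit 0) .nil) .nil)))))) (.nd (nat_lit 7) (.nd (nat_lit 8) (.nd (nat_lit 9) 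
(.lf (nat_lit 457807) (.g (nat_lit 4644) (.e (nat_lit 2684) (nat_lit 168) (.e (nat_lit 204862) (nat_lit 27) (.e (nat_lit 344133) (nat_lit 26) (.e (nat_lit 557103) (nat_lit 14) (.e (nat_lit 180250) (nat_lit 10) (.e (nat_lit 573475) (nat_lit 12) (.e (nat_lit 57507) (nat_lit 39) (.e (nat_lit 655104) (nat_lit 0) .nil)))))))) (.g (nat_lit 1) (.e (nat_lit 45663) (nat_lit 0) .nil) .nil))) 
(.lf (nat_lit 458319) (.g (nat_lit 2652) (.e (nat_lit 2685) (nat_lit 168) (.e (nat_lit 204863) (nat_lit 27) (.e (nat_lit 344133) (nat_lit 26) (.e (nat_lit 557098) (nat_lit 13) (.e (nat_lit 172066) (nat_lit 3) .nil))))) (.g (nat_lit 0) (.e (nat_lit 46957) (nat_lit 0) .nil) .nil)))) (.nd (nat_lit 9) 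
(.lf (nat_lit 458063) (.g (nat_lit 2193) (.e (nat_lit 2685) (nat_lit 168) (.e (nat_lit 204845) (nat_lit 24) (.e (nat_lit 319531) (nat_lit 16) (.e (nat_lit 286735) (nat_lit 3) (.e (nat_lit 98350) (nat_lit 24) .nil))))) (.g (nat_lit 0) (.e (nat_lit 46387) (nat_lit 0) .nil) .nil))) 
(.lf (nat_lit 458575) (.g (nat_lit 2005) (.e (nat_lit 2687) (nat_lit 169) (.e (nat_lit 213032) (nat_lit 11) (.e (nat_lit 24608) (nat_lit 3) (.e (nat_lit 98373) (nat_lit 29) .nil)))) (.g (nat_lit 0) (.e (nat_lit 47724) (nat_lit 0) .nil) .nil))))) (.nd (nat_lit 8) (.nd (nat_lit 9) 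
(.lf (nat_lit 457935) (.g (nat_lit 2473) (.e (nat_lit 2684) (nat_lit 168) (.e (nat_lit 204869) (nat_lit 29) (.e (nat_lit 360474) (nat_lit 8) (.e (nat_lit 557091) (nat_lit 12) .nil)))) (.g (nat_lit 0) (.e (nat_lit 46084) (nat_lit 0) .nil) .nil))) 
(.lf (nat_lit 458447) (.g (nat_lit 3280) (.e (nat_lit 2685) (nat_lit 168) (.e (nat_lit 204868) (nat_lit 29) (.e (nat_lit 360475) (nat_lit 8) (.e (nat_lit 557087) (nat_lit 11) (.e (nat_lit 24578) (nat_lit 0) .nil))))) (.g (nat_lit 0) (.e (nat_lit 47415) (nat_lit 0) .nil) .nil)))) (.nd (nat_lit 9) 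
(.lf (nat_lit 458191) (.g (nat_lit 3052) (.e (nat_lit 2685) (nat_lit 168) (.e (nat_lit 204862) (nat_lit 27) (.e (nat_lit 344130) (nat_lit 26) (.e (nat_lit 557097) (nat_lit 13) (.e (nat_lit 172066) (nat_lit 3) (.e (nat_lit 204821) (nat_lit 17) (.e (nat_lit 2391) (nat_lit 156) (.e (nat_lit 819204) (nat_lit 0) .nil)))))))) (.g (nat_lit 1) (.e (nat_lit 46828) (nat_lit 0) .nil) .nil))) 
(.lf (nat_lit 458703) (.g (nat_lit 2900) (.e (nat_lit 2706) (nat_lit 170) (.e (nat_lit 221215) (nat_lit 23) (.e (nat_lit 204863) (nat_lit 27) (.e (nat_lit 344118) (nat_lit 21) (.e (nat_lit 516119) (nat_lit 1) (.e (nat_lit 164179) (nat_lit 154) (.e (nat_lit 57375) (nat_lit 2) (.e (nat_lit 90128) (nat_lit 9) .nil)))))))) (.g (nat_lit 1) (.e (nat_lit 48063) (nat_lit 0) .nil) .nil))))))) 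
(.nd (nat_lit 6) (.nd (nat_lit 7) (.nd (nat_lit 8) (.nd (nat_lit 9) 
(.lf (nat_lit 457775) (.g (nat_lit 3575) (.e (nat_lit 2684) (nat_lit 168) (.e (nat_lit 204862) (nat_lit 27) (.e (nat_lit 344130) (nat_lit 26) (.e (nat_lit 557104) (nat_lit 14) (.e (nat_lit 180252) (nat_lit 10) (.e (nat_lit 573474) (nat_lit 12) (.e (nat_lit 57508) (nat_lit 39) (.e (nat_lit 647175) (nat_lit 0) .nil)))))))) (.g (nat_lit 1) (.e (nat_lit 45631) (nat_lit 0) .nil) .nil))) 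
(.lf (nat_lit 458287) (.g (nat_lit 2726) (.e (nat_lit 2685) (nat_lit 168) (.e (nat_lit 204863) (nat_lit 27) (.e (nat_lit 344132) (nat_lit 26) (.e (nat_lit 557100) (nat_lit 13) (.e (nat_lit 172065) (nat_lit 3) .nil))))) (.g (nat_lit 0) (.e (nat_lit 46925) (nat_lit 0) .nil) .nil)))) (.nd (nat_lit 9) 
(.lf (nat_lit 458031) (.g (nat_lit 2462) (.e (nat_lit 2685) (nat_lit 168) (.e (nat_lit 204830) (nat_lit 18) (.e (nat_lit 57926) (nat_lit 282) (.e (nat_lit 163869) (nat_lit 2) (.e (nat_lit 196670) (nat_lit 14) (.e (nat_lit 73746) (nat_lit 3) (.e (nat_lit 516124) (nat_lit 2) (.e (nat_lit 213008) (nat_lit 9) .nil)))))))) (.g (nat_lit 1) (.e (nat_lit 46269) (nat_lit 0) .nil) .nil))) 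
(.lf (nat_lit 458543) (.g (nat_lit 3967) (.e (nat_lit 2685) (nat_lit 168) (.e (nat_lit 204869) (nat_lit 29) (.e (nat_lit 360475) (nat_lit 8) (.e (nat_lit 557091) (nat_lit 12) (.e (nat_lit 163844) (nat_lit 0) .nil))))) (.g (nat_lit 0) (.e (nat_lit 47625) (nat_lit 0) .nil) .nil))))) (.nd (nat_lit 8) (.nd (nat_lit 9) 
(.lf (nat_lit 457903) (.g (nat_lit 4985) (.e (nat_lit 2684) (nat_lit 168) (.e (nat_lit 204863) (nat_lit 27) (.e (nat_lit 344133) (nat_lit 26) (.e (nat_lit 557105) (nat_lit 14) (.e (nat_lit 180252) (nat_lit 10) (.e (nat_lit 573474) (nat_lit 12) (.e (nat_lit 57507) (nat_lit 39) (.e (nat_lit 655104) (nat_lit 0) .nil)))))))) (.g (nat_lit 1) (.e (nat_lit 45759) (nat_lit 0) .nil) .nil))) 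
(.lf (nat_lit 458415) (.g (nat_lit 584) (.e (nat_lit 2685) (nat_lit 168) (.e (nat_lit 204868) (nat_lit 29) (.e (nat_lit 360468) (nat_lit 3) .nil))) (.g (nat_lit 0) (.e (nat_lit 47294) (nat_lit 0) .nil) .nil)))) (.nd (nat_lit 9) 
(.lf (nat_lit 458159) (.g (nat_lit 4767) (.e (nat_lit 2685) (nat_lit 168) (.e (nat_lit 204862) (nat_lit 27) (.e (nat_lit 344129) (nat_lit 26) (.e (nat_lit 557097) (nat_lit 13) (.e (nat_lit 172065) (nat_lit 3) (.e (nat_lit 204821) (nat_lit 17) (.e (nat_lit 2391) (nat_lit 156) (.e (nat_lit 819204) (nat_lit 0) .nil)))))))) (.g (nat_lit 1) (.e (nat_lit 46795) (nat_lit 0) .nil) .nil))) 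
(.lf (nat_lit 458671) (.g (nat_lit 1346) (.e (nat_lit 2702) (nat_lit 169) (.e (nat_lit 213032) (nat_lit 11) (.e (nat_lit 24608) (nat_lit 3) .nil))) (.g (nat_lit 0) (.e (nat_lit 47916) (nat_lit 0) .nil) .nil)))))) (.nd (nat_lit 7) (.nd (nat_lit 8) (.nd (nat_lit 9) 
(.lf (nat_lit 457839) (.g (nat_lit 2634) (.e (nat_lit 2684) (nat_lit 168) (.e (nat_lit 204863) (nat_lit 27) (.e (nat_lit 344129) (nat_lit 26) (.e (nat_lit 557103) (nat_lit 14) (.e (nat_lit 180250) (nat_lit 10) (.e (nat_lit 573474) (nat_lit 12) (.e (nat_lit 57508) (nat_lit 39) (.e (nat_lit 655104) (nat_lit 0) .nil)))))))) (.g (nat_lit 1) (.e (nat_lit 45695) (nat_lit 0) .nil) .nil))) 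
(.lf (nat_lit 458351) (.g (nat_lit 878) (.e (nat_lit 2685) (nat_lit 168) (.e (nat_lit 204864) (nat_lit 27) (.e (nat_lit 344130) (nat_lit 26) (.e (nat_lit 557103) (nat_lit 14) .nil)))) (.g (nat_lit 0) (.e (nat_lit 46989) (nat_lit 0) .nil) .nil)))) (.nd (nat_lit 9) 
(.lf (nat_lit 458095) (.g (nat_lit 2509) (.e (nat_lit 2685) (nat_lit 168) (.e (nat_lit 204846) (nat_lit 24) (.e (nat_lit 319532) (nat_lit 16) (.e (nat_lit 286735) (nat_lit 3) (.e (nat_lit 98350) (nat_lit 24) (.e (nat_lit 409602) (nat_lit 0) (.e (nat_lit 5626) (nat_lit 312) .nil))))))) (.g (nat_lit 1) (.e (nat_lit 46443) (nat_lit 0) .nil) .nil))) 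
(.lf (nat_lit 458607) (.g (nat_lit 2441) (.e (nat_lit 2694) (nat_lit 169) (.e (nat_lit 213032) (nat_lit 11) (.e (nat_lit 24604) (nat_lit 2) (.e (nat_lit 90176) (nat_lit 15) .nil)))) (.g (nat_lit 0) (.e (nat_lit 47775) (nat_lit 0) .nil) .nil))))) (.nd (nat_lit 8) (.nd (nat_lit 9) 
(.lf (nat_lit 457967) (.g (nat_lit 3580) (.e (nat_lit 2684) (nat_lit 168) (.e (nat_lit 204869) (nat_lit 29) (.e (nat_lit 360475) (nat_lit 8) (.e (nat_lit 557086) (nat_lit 11) (.e (nat_lit 24595) (nat_lit 0) .nil))))) (.g (nat_lit 0) (.e (nat_lit 46149) (nat_lit 0) .nil) .nil))) 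
(.lf (nat_lit 458479) (.g (nat_lit 3316) (.e (nat_lit 2685) (nat_lit 168) (.e (nat_lit 204869) (nat_lit 29) (.e (nat_lit 360474) (nat_lit 8) (.e (nat_lit 557087) (nat_lit 11) .nil)))) (.g (nat_lit 0) (.e (nat_lit 47524) (nat_lit 0) .nil) .nil)))) (.nd (nat_lit 9) 
(.lf (nat_lit 458223) (.g (nat_lit 2358) (.e (nat_lit 2685) (nat_lit 168) (.e (nat_lit 204862) (nat_lit 27) (.e (nat_lit 344133) (nat_lit 26) (.e (nat_lit 557098) (nat_lit 13) (.e (nat_lit 179968) (nat_lit 18) .nil))))) (.g (nat_lit 0) (.e (nat_lit 46860) (nat_lit 0) .nil) .nil))) 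
(.lf (nat_lit 458735) (.g (nat_lit 2278) (.e (nat_lit 2725) (nat_lit 172) (.e (nat_lit 237587) (nat_lit 2) (.e (nat_lit 196666) (nat_lit 13) (.e (nat_lit 65617) (nat_lit 10) (.e (nat_lit 344130) (nat_lit 26) (.e (nat_lit 557090) (nat_lit 12) (.e (nat_lit 163843) (nat_lit 0) (.e (nat_lit 6250) (nat_lit 337) .nil)))))))) (.g (nat_lit 1) (.e (nat_lit 48347) (nat_lit 0) .nil) .nil)))))))) 
(.nd (nat_lit 5) (.nd (nat_lit 6) (.nd (nat_lit 7) (.nd (nat_lit 8) (.nd (nat_lit 9) 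
(.lf (nat_lit 457759) (.g (nat_lit 3789) (.e (nat_lit 2684) (nat_lit 168) (.e (nat_lit 204862) (nat_lit 27) (.e (nat_lit 344129) (nat_lit 26) (.e (nat_lit 557104) (nat_lit 14) (.e (nat_lit 180252) (nat_lit 10) (.e (nat_lit 573473) (nat_lit 12) (.e (nat_lit 57508) (nat_lit 39) (.e (nat_lit 655104) (nat_lit 0) .nil)))))))) (.g (nat_lit 1) (.e (nat_lit 45615) (nat_lit 0) .nil) .nil))) 
(.lf (nat_lit 458271) (.g (nat_lit 2231) (.e (nat_lit 2685) (nat_lit 168) (.e (nat_lit 204863) (nat_lit 27) (.e (nat_lit 344130) (nat_lit 26) (.e (nat_lit 557104) (nat_lit 14) (.e (nat_lit 180252) (nat_lit 10) (.e (nat_lit 573474) (nat_lit 12) (.e (nat_lit 57508) (nat_lit 39) (.e (nat_lit 647168) (nat_lit 0) .nil)))))))) (.g (nat_lit 1) (.e (nat_lit 46909) (nat_lit 0) .nil) .nil)))) 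
(.nd (nat_lit 9) 
(.lf (nat_lit 458015) (.g (nat_lit 4524) (.e (nat_lit 2684) (nat_lit 168) (.e (nat_lit 204880) (nat_lit 32) (.e (nat_lit 385066) (nat_lit 26) (.e (nat_lit 532501) (nat_lit 1) (.e (nat_lit 57852) (nat_lit 252) (.e (nat_lit 57378) (nat_lit 3) (.e (nat_lit 98338) (nat_lit 19) (.e (nat_lit 213013) (nat_lit 9) .nil)))))))) (.g (nat_lit 1) (.e (nat_lit 46228) (nat_lit 0) .nil) .nil))) 
(.lf (nat_lit 458527) (.g (nat_lit 2748) (.e (nat_lit 2685) (nat_lit 168) (.e (nat_lit 204869) (nat_lit 29) (.e (nat_lit 360475) (nat_lit 8) (.e (nat_lit 557089) (nat_lit 12) .nil)))) (.g (nat_lit 0) (.e (nat_lit 47607) (nat_lit 0) .nil) .nil))))) (.nd (nat_lit 8) (.nd (nat_lit 9) 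
(.lf (nat_lit 457887) (.g (nat_lit 3714) (.e (nat_lit 2684) (nat_lit 168) (.e (nat_lit 204863) (nat_lit 27) (.e (nat_lit 344132) (nat_lit 26) (.e (nat_lit 557105) (nat_lit 14) (.e (nat_lit 180252) (nat_lit 10) (.e (nat_lit 573475) (nat_lit 12) (.e (nat_lit 57508) (nat_lit 39) (.e (nat_lit 655104) (nat_lit 0) .nil)))))))) (.g (nat_lit 1) (.e (nat_lit 45743) (nat_lit 0) .nil) .nil))) 
(.lf (nat_lit 458399) (.g (nat_lit 2301) (.e (nat_lit 2685) (nat_lit 168) (.e (nat_lit 204868) (nat_lit 29) (.e (nat_lit 360466) (nat_lit 3) (.e (nat_lit 516142) (nat_lit 8) (.e (nat_lit 417814) (nat_lit 10) (.e (nat_lit 5616) (nat_lit 312) .nil)))))) (.g (nat_lit 1) (.e (nat_lit 47211) (nat_lit 0) .nil) .nil)))) (.nd (nat_lit 9) 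
(.lf (nat_lit 458143) (.g (nat_lit 4591) (.e (nat_lit 2685) (nat_lit 168) (.e (nat_lit 204862) (nat_lit 27) (.e (nat_lit 344117) (nat_lit 21) (.e (nat_lit 516123) (nat_lit 2) (.e (nat_lit 213033) (nat_lit 12) (.e (nat_lit 163976) (nat_lit 30) (.e (nat_lit 573474) (nat_lit 12) (.e (nat_lit 57528) (nat_lit 46) (.e (nat_lit 704514) (nat_lit 0) .nil))))))))) (.g (nat_lit 1) (.e (nat_lit 46778) (nat_lit 0) .nil) .nil))) 
(.lf (nat_lit 458655) (.g (nat_lit 2269) (.e (nat_lit 2700) (nat_lit 169) (.e (nat_lit 213030) (nat_lit 11) (.e (nat_lit 24617) (nat_lit 7) (.e (nat_lit 319533) (nat_lit 16) (.e (nat_lit 286753) (nat_lit 10) .nil))))) (.g (nat_lit 0) (.e (nat_lit 47889) (nat_lit 0) .nil) .nil)))))) (.nd (nat_lit 7) (.nd (nat_lit 8) (.nd (nat_lit 9) 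
(.lf (nat_lit 457823) (.g (nat_lit 2549) (.e (nat_lit 2684) (nat_lit 168) (.e (nat_lit 204863) (nat_lit 27) (.e (nat_lit 344117) (nat_lit 21) (.e (nat_lit 516129) (nat_lit 3) (.e (nat_lit 221210) (nat_lit 22) (.e (nat_lit 196658) (nat_lit 12) (.e (nat_lit 57511) (nat_lit 39) (.e (nat_lit 655104) (nat_lit 0) .nil)))))))) (.g (nat_lit 1) (.e (nat_lit 45679) (nat_lit 0) .nil) .nil))) 
(.lf (nat_lit 458335) (.g (nat_lit 3470) (.e (nat_lit 2685) (nat_lit 168) (.e (nat_lit 204863) (nat_lit 27) (.e (nat_lit 344133) (nat_lit 26) (.e (nat_lit 557103) (nat_lit 14) (.e (nat_lit 180250) (nat_lit 10) (.e (nat_lit 573475) (nat_lit 12) (.e (nat_lit 57507) (nat_lit 39) (.e (nat_lit 647170) (nat_lit 0) .nil)))))))) (.g (nat_lit 1) (.e (nat_lit 46973) (nat_lit 0) .nil) .nil)))) 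
(.nd (nat_lit 9) 
(.lf (nat_lit 458079) (.g (nat_lit 3883) (.e (nat_lit 2685) (nat_lit 168) (.e (nat_lit 204846) (nat_lit 24) (.e (nat_lit 319530) (nat_lit 16) (.e (nat_lit 286735) (nat_lit 3) (.e (nat_lit 98367) (nat_lit 27) (.e (nat_lit 442112) (nat_lit 8) .nil)))))) (.g (nat_lit 1) (.e (nat_lit 46423) (nat_lit 0) .nil) .nil))) 
(.lf (nat_lit 458591) (.g (nat_lit 3151) (.e (nat_lit 2691) (nat_lit 169) (.e (nat_lit 213032) (nat_lit 11) (.e (nat_lit 24604) (nat_lit 2) (.e (nat_lit 90176) (nat_lit 15) (.e (nat_lit 188430) (nat_lit 20) .nil))))) (.g (nat_lit 0) (.e (nat_lit 47749) (nat_lit 0) .nil) .nil))))) (.nd (nat_lit 8) (.nd (nat_lit 9) 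
(.lf (nat_lit 457951) (.g (nat_lit 3997) (.e (nat_lit 2684) (nat_lit 168) (.e (nat_lit 204869) (nat_lit 29) (.e (nat_lit 360474) (nat_lit 8) (.e (nat_lit 557093) (nat_lit 12) (.e (nat_lit 163849) (nat_lit 0) (.e (nat_lit 6420) (nat_lit 341) (.e (nat_lit 163843) (nat_lit 0) (.e (nat_lit 7936) (nat_lit 388) .nil)))))))) (.g (nat_lit 1) (.e (nat_lit 46105) (nat_lit 0) .nil) .nil))) 
(.lf (nat_lit 458463) (.g (nat_lit 1431) (.e (nat_lit 2685) (nat_lit 168) (.e (nat_lit 204869) (nat_lit 29) (.e (nat_lit 360473) (nat_lit 8) (.e (nat_lit 557066) (nat_lit 9) .nil)))) (.g (nat_lit 0) (.e (nat_lit 47481) (nat_lit 0) .nil) .nil)))) (.nd (nat_lit 9) 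
(.lf (nat_lit 458207) (.g (nat_lit 4767) (.e (nat_lit 2685) (nat_lit 168) (.e (nat_lit 204862) (nat_lit 27) (.e (nat_lit 344132) (nat_lit 26) (.e (nat_lit 557100) (nat_lit 13) (.e (nat_lit 172065) (nat_lit 3) (.e (nat_lit 204821) (nat_lit 17) (.e (nat_lit 2391) (nat_lit 156) (.e (nat_lit 819204) (nat_lit 0) .nil)))))))) (.g (nat_lit 1) (.e (nat_lit 46844) (nat_lit 0) .nil) .nil))) 
(.lf (nat_lit 458719) (.g (nat_lit 3073) (.e (nat_lit 2725) (nat_lit 172) (.e (nat_lit 237586) (nat_lit 2) (.e (nat_lit 196666) (nat_lit 13) (.e (nat_lit 65617) (nat_lit 10) (.e (nat_lit 344130) (nat_lit 26) (.e (nat_lit 557090) (nat_lit 12) (.e (nat_lit 163844) (nat_lit 0) (.e (nat_lit 6255) (nat_lit 337) .nil)))))))) (.g (nat_lit 1) (.e (nat_lit 48327) (nat_lit 0) .nil) .nil))))))) 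
(.nd (nat_lit 6) (.nd (nat_lit 7) (.nd (nat_lit 8) (.nd (nat_lit 9) 
(.lf (nat_lit 457791) (.g (nat_lit 2077) (.e (nat_lit 2684) (nat_lit 168) (.e (nat_lit 204862) (nat_lit 27) (.e (nat_lit 344132) (nat_lit 26) (.e (nat_lit 557105) (nat_lit 14) (.e (nat_lit 180252) (nat_lit 10) (.e (nat_lit 573475) (nat_lit 12) (.e (nat_lit 57507) (nat_lit 39) (.e (nat_lit 647175) (nat_lit 0) .nil)))))))) (.g (nat_lit 1) (.e (nat_lit 45647) (nat_lit 0) .nil) .nil))) 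
(.lf (nat_lit 458303) (.g (nat_lit 3886) (.e (nat_lit 2685) (nat_lit 168) (.e (nat_lit 204863) (nat_lit 27) (.e (nat_lit 344132) (nat_lit 26) (.e (nat_lit 557105) (nat_lit 14) (.e (nat_lit 180252) (nat_lit 10) (.e (nat_lit 573473) (nat_lit 12) (.e (nat_lit 57511) (nat_lit 39) (.e (nat_lit 647168) (nat_lit 0) .nil)))))))) (.g (nat_lit 1) (.e (nat_lit 46941) (nat_lit 0) .nil) .nil)))) 
(.nd (nat_lit 9) 
(.lf (nat_lit 458047) (.g (nat_lit 2185) (.e (nat_lit 2685) (nat_lit 168) (.e (nat_lit 204837) (nat_lit 20) (.e (nat_lit 114714) (nat_lit 22) (.e (nat_lit 90174) (nat_lit 14) (.e (nat_lit 180243) (nat_lit 5) (.e (nat_lit 532503) (nat_lit 1) (.e (nat_lit 57651) (nat_lit 152) (.e (nat_lit 2433) (nat_lit 157) .nil)))))))) (.g (nat_lit 1) (.e (nat_lit 46288) (nat_lit 0) .nil) .nil))) 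
(.lf (nat_lit 458559) (.g (nat_lit 2302) (.e (nat_lit 7936) (nat_lit 168) (.e (nat_lit 204869) (nat_lit 29) (.e (nat_lit 360475) (nat_lit 8) (.e (nat_lit 557087) (nat_lit 11) .nil)))) (.g (nat_lit 0) (.e (nat_lit 47702) (nat_lit 0) .nil) .nil))))) (.nd (nat_lit 8) (.nd (nat_lit 9) 
(.lf (nat_lit 457919) (.g (nat_lit 2440) (.e (nat_lit 2684) (nat_lit 168) (.e (nat_lit 204868) (nat_lit 29) (.e (nat_lit 360475) (nat_lit 8) (.e (nat_lit 557087) (nat_lit 11) (.e (nat_lit 24580) (nat_lit 0) .nil))))) (.g (nat_lit 0) (.e (nat_lit 45974) (nat_lit 0) .nil) .nil))) 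
(.lf (nat_lit 458431) (.g (nat_lit 1388) (.e (nat_lit 2685) (nat_lit 168) (.e (nat_lit 204868) (nat_lit 29) (.e (nat_lit 360473) (nat_lit 8) (.e (nat_lit 557087) (nat_lit 11) (.e (nat_lit 24578) (nat_lit 0) .nil))))) (.g (nat_lit 0) (.e (nat_lit 47367) (nat_lit 0) .nil) .nil)))) (.nd (nat_lit 9) 
(.lf (nat_lit 458175) (.g (nat_lit 2978) (.e (nat_lit 2685) (nat_lit 168) (.e (nat_lit 204862) (nat_lit 27) (.e (nat_lit 344129) (nat_lit 26) (.e (nat_lit 557103) (nat_lit 14) (.e (nat_lit 180250) (nat_lit 10) (.e (nat_lit 573473) (nat_lit 12) (.e (nat_lit 57511) (nat_lit 39) (.e (nat_lit 647168) (nat_lit 0) .nil)))))))) (.g (nat_lit 1) (.e (nat_lit 46812) (nat_lit 0) .nil) .nil))) 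
(.lf (nat_lit 458687) (.g (nat_lit 1969) (.e (nat_lit 2706) (nat_lit 170) (.e (nat_lit 221214) (nat_lit 23) (.e (nat_lit 204863) (nat_lit 27) (.e (nat_lit 344118) (nat_lit 21) (.e (nat_lit 516120) (nat_lit 1) .nil))))) (.g (nat_lit 0) (.e (nat_lit 48027) (nat_lit 0) .nil) .nil)))))) (.nd (nat_lit 7) (.nd (nat_lit 8) (.nd (nat_lit 9) 
(.lf (nat_lit 457855) (.g (nat_lit 1873) (.e (nat_lit 2684) (nat_lit 168) (.e (nat_lit 204863) (nat_lit 27) (.e (nat_lit 344131) (nat_lit 26) (.e (nat_lit 557103) (nat_lit 14) (.e (nat_lit 180250) (nat_lit 10) .nil))))) (.g (nat_lit 0) (.e (nat_lit 45711) (nat_lit 0) .nil) .nil))) 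
(.lf (nat_lit 458367) (.g (nat_lit 2003) (.e (nat_lit 2685) (nat_lit 168) (.e (nat_lit 204864) (nat_lit 27) (.e (nat_lit 344133) (nat_lit 26) (.e (nat_lit 557103) (nat_lit 14) (.e (nat_lit 188160) (nat_lit 3) .nil))))) (.g (nat_lit 0) (.e (nat_lit 47005) (nat_lit 0) .nil) .nil)))) (.nd (nat_lit 9) 
(.lf (nat_lit 458111) (.g (nat_lit 2673) (.e (nat_lit 2685) (nat_lit 168) (.e (nat_lit 204846) (nat_lit 24) (.e (nat_lit 319534) (nat_lit 16) (.e (nat_lit 286732) (nat_lit 2) (.e (nat_lit 90172) (nat_lit 14) .nil))))) (.g (nat_lit 0) (.e (nat_lit 46464) (nat_lit 0) .nil) .nil))) 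
(.lf (nat_lit 458623) (.g (nat_lit 2640) (.e (nat_lit 2695) (nat_lit 169) (.e (nat_lit 213032) (nat_lit 11) (.e (nat_lit 24608) (nat_lit 3) (.e (nat_lit 98373) (nat_lit 29) (.e (nat_lit 458496) (nat_lit 8) .nil))))) (.g (nat_lit 0) (.e (nat_lit 47794) (nat_lit 0) .nil) .nil))))) (.nd (nat_lit 8) (.nd (nat_lit 9) 
(.lf (nat_lit 457983) (.g (nat_lit 3029) (.e (nat_lit 2684) (nat_lit 168) (.e (nat_lit 204869) (nat_lit 29) (.e (nat_lit 360475) (nat_lit 8) (.e (nat_lit 557087) (nat_lit 11) (.e (nat_lit 24594) (nat_lit 0) .nil))))) (.g (nat_lit 0) (.e (nat_lit 46165) (nat_lit 0) .nil) .nil))) 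
(.lf (nat_lit 458495) (.g (nat_lit 2000) (.e (nat_lit 2685) (nat_lit 168) (.e (nat_lit 204869) (nat_lit 29) (.e (nat_lit 360475) (nat_lit 8) (.e (nat_lit 557070) (nat_lit 9) .nil)))) (.g (nat_lit 0) (.e (nat_lit 47568) (nat_lit 0) .nil) .nil)))) (.nd (nat_lit 9) 
(.lf (nat_lit 458239) (.g (nat_lit 2036) (.e (nat_lit 2685) (nat_lit 168) (.e (nat_lit 204863) (nat_lit 27) (.e (nat_lit 344117) (nat_lit 21) (.e (nat_lit 516123) (nat_lit 2) .nil)))) (.g (nat_lit 0) (.e (nat_lit 46876) (nat_lit 0) .nil) .nil))) 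
(.lf (nat_lit 458751) (.g (nat_lit 3244) (.e (nat_lit 2725) (nat_lit 172) (.e (nat_lit 237587) (nat_lit 2) (.e (nat_lit 196666) (nat_lit 13) (.e (nat_lit 65617) (nat_lit 10) (.e (nat_lit 344132) (nat_lit 26) (.e (nat_lit 557094) (nat_lit 12) (.e (nat_lit 163849) (nat_lit 0) (.e (nat_lit 6255) (nat_lit 337) .nil)))))))) (.g (nat_lit 1) (.e (nat_lit 48363) (nat_lit 0) .nil) .nil)))))))))))))

noncomputable def tv5508 : DT := (.nd (nat_lit 0) (.nd (nat_lit 1) (.nd (nat_lit 2) (.nd (nat_lit 3) (.nd (nat_lit 4) (.nd (nat_lit 5) (.nd (nat_lit 6) (.nd (nat_lit 7) (.nd (nat_lit 8) (.nd (nat_lit 9) 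
(.lf (nat_lit 458752) (.g (nat_lit 2157) (.e (nat_lit 2725) (nat_lit 172) (.e (nat_lit 237587) (nat_lit 2) (.e (nat_lit 196666) (nat_lit 13) (.e (nat_lit 65617) (nat_lit 10) (.e (nat_lit 344133) (nat_lit 26) .nil))))) (.g (nat_lit 0) (.e (nat_lit 48364) (nat_lit 0) .nil) .nil))) 
(.lf (nat_lit 459264) (.g (nat_lit 2296) (.e (nat_lit 2797) (nat_lit 180) (.e (nat_lit 303117) (nat_lit 2) (.e (nat_lit 196672) (nat_lit 15) (.e (nat_lit 81956) (nat_lit 23) (.e (nat_lit 98319) (nat_lit 17) (.e (nat_lit 7073) (nat_lit 377) .nil)))))) (.g (nat_lit 1) (.e (nat_lit 49486) (nat_lit 0) .nil) .nil)))) (.nd (nat_lit 9) 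
(.lf (nat_lit 459008) (.g (nat_lit 1949) (.e (nat_lit 2725) (nat_lit 172) (.e (nat_lit 237619) (nat_lit 12) (.e (nat_lit 475210) (nat_lit 41) (.e (nat_lit 712752) (nat_lit 29) (.e (nat_lit 442430) (nat_lit 24) (.e (nat_lit 229664) (nat_lit 240) .nil)))))) (.g (nat_lit 1) (.e (nat_lit 48774) (nat_lit 0) .nil) .nil))) 
(.lf (nat_lit 459520) (.g (nat_lit 3660) (.e (nat_lit 2797) (nat_lit 180) (.e (nat_lit 303143) (nat_lit 12) (.e (nat_lit 475185) (nat_lit 29) (.e (nat_lit 557100) (nat_lit 13) (.e (nat_lit 172091) (nat_lit 9) (.e (nat_lit 426125) (nat_lit 2) (.e (nat_lit 204544) (nat_lit 18) .nil))))))) (.g (nat_lit 1) (.e (nat_lit 50279) (nat_lit 0) .nil) .nil))))) (.nd (nat_lit 8) (.nd (nat_lit 9) 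
(.lf (nat_lit 458880) (.g (nat_lit 2719) (.e (nat_lit 2725) (nat_lit 172) (.e (nat_lit 237593) (nat_lit 3) (.e (nat_lit 204868) (nat_lit 29) (.e (nat_lit 360473) (nat_lit 8) (.e (nat_lit 557089) (nat_lit 12) (.e (nat_lit 163849) (nat_lit 0) (.e (nat_lit 6254) (nat_lit 337) .nil))))))) (.g (nat_lit 1) (.e (nat_lit 48587) (nat_lit 0) .nil) .nil))) 
(.lf (nat_lit 459392) (.g (nat_lit 3231) (.e (nat_lit 2797) (nat_lit 180) (.e (nat_lit 303119) (nat_lit 3) (.e (nat_lit 204865) (nat_lit 28) (.e (nat_lit 352310) (nat_lit 22) (.e (nat_lit 90165) (nat_lit 12) (.e (nat_lit 164210) (nat_lit 176) .nil)))))) (.g (nat_lit 1) (.e (nat_lit 49746) (nat_lit 0) .nil) .nil)))) (.nd (nat_lit 9) 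
(.lf (nat_lit 459136) (.g (nat_lit 870) (.e (nat_lit 2768) (nat_lit 177) (.e (nat_lit 278566) (nat_lit 16) (.e (nat_lit 286761) (nat_lit 13) (.e (nat_lit 393284) (nat_lit 24) .nil)))) (.g (nat_lit 0) (.e (nat_lit 49143) (nat_lit 0) .nil) .nil))) 
(.lf (nat_lit 459648) (.g (nat_lit 4794) (.e (nat_lit 2798) (nat_lit 180) (.e (nat_lit 303117) (nat_lit 2) (.e (nat_lit 196666) (nat_lit 13) (.e (nat_lit 65619) (nat_lit 10) (.e (nat_lit 344117) (nat_lit 21) (.e (nat_lit 516106) (nat_lit 0) (.e (nat_lit 7008) (nat_lit 377) .nil))))))) (.g (nat_lit 1) (.e (nat_lit 50811) (nat_lit 0) .nil) .nil)))))) 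
(.nd (nat_lit 7) (.nd (nat_lit 8) (.nd (nat_lit 9) 
(.lf (nat_lit 458816) (.g (nat_lit 4794) (.e (nat_lit 2725) (nat_lit 172) (.e (nat_lit 237589) (nat_lit 2) (.e (nat_lit 196666) (nat_lit 13) (.e (nat_lit 65617) (nat_lit 10) (.e (nat_lit 344133) (nat_lit 26) (.e (nat_lit 557091) (nat_lit 12) (.e (nat_lit 163844) (nat_lit 0) (.e (nat_lit 6255) (nat_lit 337) .nil)))))))) (.g (nat_lit 1) (.e (nat_lit 48478) (nat_lit 0) .nil) .nil))) 
(.lf (nat_lit 459328) (.g (nat_lit 3595) (.e (nat_lit 2797) (nat_lit 180) (.e (nat_lit 303117) (nat_lit 2) (.e (nat_lit 196674) (nat_lit 15) (.e (nat_lit 81956) (nat_lit 23) (.e (nat_lit 98325) (nat_lit 17) (.e (nat_lit 6998) (nat_lit 377) .nil)))))) (.g (nat_lit 1) (.e (nat_lit 49555) (nat_lit 0) .nil) .nil)))) (.nd (nat_lit 9) 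
(.lf (nat_lit 459072) (.g (nat_lit 2886) (.e (nat_lit 2743) (nat_lit 174) (.e (nat_lit 253992) (nat_lit 11) (.e (nat_lit 16425) (nat_lit 7) (.e (nat_lit 409649) (nat_lit 18) (.e (nat_lit 303140) (nat_lit 10) (.e (nat_lit 434275) (nat_lit 39) (.e (nat_lit 663572) (nat_lit 9) .nil))))))) (.g (nat_lit 1) (.e (nat_lit 49051) (nat_lit 0) .nil) .nil))) 
(.lf (nat_lit 459584) (.g (nat_lit 4201) (.e (nat_lit 2797) (nat_lit 180) (.e (nat_lit 303143) (nat_lit 12) (.e (nat_lit 475185) (nat_lit 29) (.e (nat_lit 557109) (nat_lit 15) (.e (nat_lit 188458) (nat_lit 25) (.e (nat_lit 245797) (nat_lit 18) .nil)))))) (.g (nat_lit 1) (.e (nat_lit 50375) (nat_lit 0) .nil) .nil))))) (.nd (nat_lit 8) (.nd (nat_lit 9) 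
(.lf (nat_lit 458944) (.g (nat_lit 3398) (.e (nat_lit 2725) (nat_lit 172) (.e (nat_lit 237594) (nat_lit 3) (.e (nat_lit 204869) (nat_lit 29) (.e (nat_lit 360474) (nat_lit 8) (.e (nat_lit 557093) (nat_lit 12) (.e (nat_lit 163847) (nat_lit 0) (.e (nat_lit 6254) (nat_lit 337) .nil))))))) (.g (nat_lit 1) (.e (nat_lit 48672) (nat_lit 0) .nil) .nil))) 
(.lf (nat_lit 459456) (.g (nat_lit 3275) (.e (nat_lit 2797) (nat_lit 180) (.e (nat_lit 303119) (nat_lit 3) (.e (nat_lit 204877) (nat_lit 31) (.e (nat_lit 376865) (nat_lit 22) (.e (nat_lit 90181) (nat_lit 16) (.e (nat_lit 237312) (nat_lit 176) .nil)))))) (.g (nat_lit 1) (.e (nat_lit 50009) (nat_lit 0) .nil) .nil)))) (.nd (nat_lit 9) 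
(.lf (nat_lit 459200) (.g (nat_lit 3572) (.e (nat_lit 2797) (nat_lit 180) (.e (nat_lit 303117) (nat_lit 2) (.e (nat_lit 196663) (nat_lit 13) (.e (nat_lit 65630) (nat_lit 14) (.e (nat_lit 401425) (nat_lit 2) (.e (nat_lit 196661) (nat_lit 12) (.e (nat_lit 65280) (nat_lit 176) .nil))))))) (.g (nat_lit 1) (.e (nat_lit 49388) (nat_lit 0) .nil) .nil))) 
(.lf (nat_lit 459712) (.g (nat_lit 2386) (.e (nat_lit 2798) (nat_lit 180) (.e (nat_lit 303119) (nat_lit 3) (.e (nat_lit 204846) (nat_lit 24) (.e (nat_lit 319495) (nat_lit 0) .nil)))) (.g (nat_lit 0) (.e (nat_lit 50892) (nat_lit 0) .nil) .nil))))))) (.nd (nat_lit 6) (.nd (nat_lit 7) (.nd (nat_lit 8) (.nd (nat_lit 9) 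
(.lf (nat_lit 458784) (.g (nat_lit 5326) (.e (nat_lit 2725) (nat_lit 172) (.e (nat_lit 237589) (nat_lit 2) (.e (nat_lit 196666) (nat_lit 13) (.e (nat_lit 65617) (nat_lit 10) (.e (nat_lit 344130) (nat_lit 26) (.e (nat_lit 557090) (nat_lit 12) (.e (nat_lit 163843) (nat_lit 0) (.e (nat_lit 6254) (nat_lit 337) .nil)))))))) (.g (nat_lit 1) (.e (nat_lit 48446) (nat_lit 0) .nil) .nil))) 
(.lf (nat_lit 459296) (.g (nat_lit 3463) (.e (nat_lit 2797) (nat_lit 180) (.e (nat_lit 303117) (nat_lit 2) (.e (nat_lit 196674) (nat_lit 15) (.e (nat_lit 81946) (nat_lit 20) (.e (nat_lit 1802) (nat_lit 119) (.e (nat_lit 516106) (nat_lit 0) (.e (nat_lit 7936) (nat_lit 377) .nil))))))) (.g (nat_lit 1) (.e (nat_lit 49519) (nat_lit 0) .nil) .nil)))) (.nd (nat_lit 9) 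
(.lf (nat_lit 459040) (.g (nat_lit 2074) (.e (nat_lit 2739) (nat_lit 174) (.e (nat_lit 253991) (nat_lit 11) (.e (nat_lit 16424) (nat_lit 7) (.e (nat_lit 409649) (nat_lit 18) (.e (nat_lit 303140) (nat_lit 10) (.e (nat_lit 434275) (nat_lit 39) (.e (nat_lit 663580) (nat_lit 9) .nil))))))) (.g (nat_lit 1) (.e (nat_lit 48998) (nat_lit 0) .nil) .nil))) 
(.lf (nat_lit 459552) (.g (nat_lit 2163) (.e (nat_lit 2797) (nat_lit 180) (.e (nat_lit 303143) (nat_lit 12) (.e (nat_lit 475185) (nat_lit 29) (.e (nat_lit 557101) (nat_lit 13) (.e (nat_lit 172100) (nat_lit 9) .nil))))) (.g (nat_lit 0) (.e (nat_lit 50321) (nat_lit 0) .nil) .nil))))) (.nd (nat_lit 8) (.nd (nat_lit 9) 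
(.lf (nat_lit 458912) (.g (nat_lit 5315) (.e (nat_lit 2725) (nat_lit 172) (.e (nat_lit 237593) (nat_lit 3) (.e (nat_lit 204869) (nat_lit 29) (.e (nat_lit 360475) (nat_lit 8) (.e (nat_lit 557089) (nat_lit 12) (.e (nat_lit 163844) (nat_lit 0) (.e (nat_lit 6254) (nat_lit 337) .nil))))))) (.g (nat_lit 1) (.e (nat_lit 48625) (nat_lit 0) .nil) .nil))) 
(.lf (nat_lit 459424) (.g (nat_lit 3468) (.e (nat_lit 2797) (nat_lit 180) (.e (nat_lit 303119) (nat_lit 3) (.e (nat_lit 204868) (nat_lit 29) (.e (nat_lit 360466) (nat_lit 3) (.e (nat_lit 516101) (nat_lit 0) (.e (nat_lit 7936) (nat_lit 377) .nil)))))) (.g (nat_lit 1) (.e (nat_lit 49803) (nat_lit 0) .nil) .nil)))) (.nd (nat_lit 9) 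
(.lf (nat_lit 459168) (.g (nat_lit 2647) (.e (nat_lit 2796) (nat_lit 180) (.e (nat_lit 303117) (nat_lit 2) (.e (nat_lit 196666) (nat_lit 13) (.e (nat_lit 65610) (nat_lit 10) (.e (nat_lit 344117) (nat_lit 21) (.e (nat_lit 516106) (nat_lit 0) (.e (nat_lit 7016) (nat_lit 377) .nil))))))) (.g (nat_lit 1) (.e (nat_lit 49305) (nat_lit 0) .nil) .nil))) 
(.lf (nat_lit 459680) (.g (nat_lit 2768) (.e (nat_lit 2798) (nat_lit 180) (.e (nat_lit 303117) (nat_lit 2) (.e (nat_lit 196674) (nat_lit 15) (.e (nat_lit 81952) (nat_lit 22) (.e (nat_lit 90165) (nat_lit 12) (.e (nat_lit 171776) (nat_lit 176) .nil)))))) (.g (nat_lit 1) (.e (nat_lit 50845) (nat_lit 0) .nil) .nil)))))) (.nd (nat_lit 7) (.nd (nat_lit 8) (.nd (nat_lit 9) 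
(.lf (nat_lit 458848) (.g (nat_lit 3203) (.e (nat_lit 2725) (nat_lit 172) (.e (nat_lit 237590) (nat_lit 2) (.e (nat_lit 196666) (nat_lit 13) (.e (nat_lit 65617) (nat_lit 10) (.e (nat_lit 344133) (nat_lit 26) (.e (nat_lit 557089) (nat_lit 12) (.e (nat_lit 163844) (nat_lit 0) (.e (nat_lit 6254) (nat_lit 337) .nil)))))))) (.g (nat_lit 1) (.e (nat_lit 48511) (nat_lit 0) .nil) .nil))) 
(.lf (nat_lit 459360) (.g (nat_lit 3591) (.e (nat_lit 2797) (nat_lit 180) (.e (nat_lit 303119) (nat_lit 3) (.e (nat_lit 204860) (nat_lit 26) (.e (nat_lit 336186) (nat_lit 11) (.e (nat_lit 368676) (nat_lit 21) (.e (nat_lit 516097) (nat_lit 0) (.e (nat_lit 7936) (nat_lit 377) .nil))))))) (.g (nat_lit 1) (.e (nat_lit 49704) (nat_lit 0) .nil) .nil)))) (.nd (nat_lit 9) 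
(.lf (nat_lit 459104) (.g (nat_lit 2079) (.e (nat_lit 2744) (nat_lit 174) (.e (nat_lit 253992) (nat_lit 11) (.e (nat_lit 16411) (nat_lit 2) (.e (nat_lit 196674) (nat_lit 15) (.e (nat_lit 81944) (nat_lit 20) (.e (nat_lit 1855) (nat_lit 124) (.e (nat_lit 557070) (nat_lit 9) .nil))))))) (.g (nat_lit 1) (.e (nat_lit 49098) (nat_lit 0) .nil) .nil))) 
(.lf (nat_lit 459616) (.g (nat_lit 3185) (.e (nat_lit 2798) (nat_lit 180) (.e (nat_lit 303117) (nat_lit 2) (.e (nat_lit 196666) (nat_lit 13) (.e (nat_lit 65589) (nat_lit 9) (.e (nat_lit 336013) (nat_lit 2) (.e (nat_lit 90165) (nat_lit 12) (.e (nat_lit 171776) (nat_lit 176) .nil))))))) (.g (nat_lit 1) (.e (nat_lit 50776) (nat_lit 0) .nil) .nil))))) (.nd (nat_lit 8) (.nd (nat_lit 9) 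
(.lf (nat_lit 458976) (.g (nat_lit 1954) (.e (nat_lit 2725) (nat_lit 172) (.e (nat_lit 237616) (nat_lit 12) (.e (nat_lit 475209) (nat_lit 41) (.e (nat_lit 712752) (nat_lit 29) (.e (nat_lit 442430) (nat_lit 24) (.e (nat_lit 229666) (nat_lit 240) .nil)))))) (.g (nat_lit 1) (.e (nat_lit 48734) (nat_lit 0) .nil) .nil))) 
(.lf (nat_lit 459488) (.g (nat_lit 1572) (.e (nat_lit 2797) (nat_lit 180) (.e (nat_lit 303133) (nat_lit 9) (.e (nat_lit 426499) (nat_lit 27) (.e (nat_lit 336108) (nat_lit 9) .nil)))) (.g (nat_lit 0) (.e (nat_lit 50096) (nat_lit 0) .nil) .nil)))) (.nd (nat_lit 9) 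
(.lf (nat_lit 459232) (.g (nat_lit 3679) (.e (nat_lit 2797) (nat_lit 180) (.e (nat_lit 303117) (nat_lit 2) (.e (nat_lit 196666) (nat_lit 13) (.e (nat_lit 65619) (nat_lit 10) (.e (nat_lit 344117) (nat_lit 21) (.e (nat_lit 516106) (nat_lit 0) (.e (nat_lit 7008) (nat_lit 377) .nil))))))) (.g (nat_lit 1) (.e (nat_lit 49436) (nat_lit 0) .nil) .nil))) 
(.lf (nat_lit 459744) (.g (nat_lit 3412) (.e (nat_lit 2798) (nat_lit 180) (.e (nat_lit 303119) (nat_lit 3) (.e (nat_lit 204868) (nat_lit 29) (.e (nat_lit 360466) (nat_lit 3) (.e (nat_lit 516104) (nat_lit 0) (.e (nat_lit 7936) (nat_lit 377) .nil)))))) (.g (nat_lit 1) (.e (nat_lit 50987) (nat_lit 0) .nil) .nil)))))))) 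
(.nd (nat_lit 5) (.nd (nat_lit 6) (.nd (nat_lit 7) (.nd (nat_lit 8) (.nd (nat_lit 9) 
(.lf (nat_lit 458768) (.g (nat_lit 4163) (.e (nat_lit 2725) (nat_lit 172) (.e (nat_lit 237589) (nat_lit 2) (.e (nat_lit 196666) (nat_lit 13) (.e (nat_lit 65610) (nat_lit 10) (.e (nat_lit 344129) (nat_lit 26) (.e (nat_lit 557089) (nat_lit 12) (.e (nat_lit 163844) (nat_lit 0) (.e (nat_lit 6255) (nat_lit 337) .nil)))))))) (.g (nat_lit 1) (.e (nat_lit 48430) (nat_lit 0) .nil) .nil))) 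
(.lf (nat_lit 459280) (.g (nat_lit 4176) (.e (nat_lit 2797) (nat_lit 180) (.e (nat_lit 303117) (nat_lit 2) (.e (nat_lit 196673) (nat_lit 15) (.e (nat_lit 81956) (nat_lit 23) (.e (nat_lit 98319) (nat_lit 17) (.e (nat_lit 7073) (nat_lit 377) .nil)))))) (.g (nat_lit 1) (.e (nat_lit 49502) (nat_lit 0) .nil) .nil)))) (.nd (nat_lit 9) 
(.lf (nat_lit 459024) (.g (nat_lit 1603) (.e (nat_lit 2727) (nat_lit 172) (.e (nat_lit 237589) (nat_lit 2) (.e (nat_lit 196666) (nat_lit 13) (.e (nat_lit 65617) (nat_lit 10) .nil)))) (.g (nat_lit 0) (.e (nat_lit 48942) (nat_lit 0) .nil) .nil))) 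
(.lf (nat_lit 459536) (.g (nat_lit 3402) (.e (nat_lit 2797) (nat_lit 180) (.e (nat_lit 303143) (nat_lit 12) (.e (nat_lit 475185) (nat_lit 29) (.e (nat_lit 557100) (nat_lit 13) (.e (nat_lit 172106) (nat_lit 10) (.e (nat_lit 434224) (nat_lit 19) (.e (nat_lit 499767) (nat_lit 0) .nil))))))) (.g (nat_lit 1) (.e (nat_lit 50299) (nat_lit 0) .nil) .nil))))) (.nd (nat_lit 8) (.nd (nat_lit 9) 
(.lf (nat_lit 458896) (.g (nat_lit 4748) (.e (nat_lit 2725) (nat_lit 172) (.e (nat_lit 237593) (nat_lit 3) (.e (nat_lit 204869) (nat_lit 29) (.e (nat_lit 360474) (nat_lit 8) (.e (nat_lit 557089) (nat_lit 12) (.e (nat_lit 163848) (nat_lit 0) (.e (nat_lit 6252) (nat_lit 337) .nil))))))) (.g (nat_lit 1) (.e (nat_lit 48606) (nat_lit 0) .nil) .nil))) 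
(.lf (nat_lit 459408) (.g (nat_lit 3138) (.e (nat_lit 2797) (nat_lit 180) (.e (nat_lit 303119) (nat_lit 3) (.e (nat_lit 204867) (nat_lit 28) (.e (nat_lit 352315) (nat_lit 23) (.e (nat_lit 98325) (nat_lit 17) (.e (nat_lit 6966) (nat_lit 377) .nil)))))) (.g (nat_lit 1) (.e (nat_lit 49786) (nat_lit 0) .nil) .nil)))) (.nd (nat_lit 9) 
(.lf (nat_lit 459152) (.g (nat_lit 2966) (.e (nat_lit 2795) (nat_lit 180) (.e (nat_lit 303119) (nat_lit 3) (.e (nat_lit 204868) (nat_lit 29) (.e (nat_lit 360466) (nat_lit 3) (.e (nat_lit 516098) (nat_lit 0) .nil))))) (.g (nat_lit 0) (.e (nat_lit 49236) (nat_lit 0) .nil) .nil))) 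
(.lf (nat_lit 459664) (.g (nat_lit 3977) (.e (nat_lit 2798) (nat_lit 180) (.e (nat_lit 303117) (nat_lit 2) (.e (nat_lit 196672) (nat_lit 15) (.e (nat_lit 81956) (nat_lit 23) (.e (nat_lit 98320) (nat_lit 17) (.e (nat_lit 7073) (nat_lit 377) .nil)))))) (.g (nat_lit 1) (.e (nat_lit 50829) (nat_lit 0) .nil) .nil)))))) (.nd (nat_lit 7) (.nd (nat_lit 8) (.nd (nat_lit 9) 
(.lf (nat_lit 458832) (.g (nat_lit 2999) (.e (nat_lit 2725) (nat_lit 172) (.e (nat_lit 237590) (nat_lit 2) (.e (nat_lit 196666) (nat_lit 13) (.e (nat_lit 65617) (nat_lit 10) (.e (nat_lit 344130) (nat_lit 26) (.e (nat_lit 557089) (nat_lit 12) (.e (nat_lit 163849) (nat_lit 0) (.e (nat_lit 6254) (nat_lit 337) .nil)))))))) (.g (nat_lit 1) (.e (nat_lit 48495) (nat_lit 0) .nil) .nil))) 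
(.lf (nat_lit 459344) (.g (nat_lit 3591) (.e (nat_lit 2797) (nat_lit 180) (.e (nat_lit 303119) (nat_lit 3) (.e (nat_lit 204855) (nat_lit 26) (.e (nat_lit 336073) (nat_lit 9) (.e (nat_lit 336013) (nat_lit 2) (.e (nat_lit 90165) (nat_lit 12) (.e (nat_lit 164211) (nat_lit 176) .nil))))))) (.g (nat_lit 1) (.e (nat_lit 49647) (nat_lit 0) .nil) .nil)))) (.nd (nat_lit 9) 
(.lf (nat_lit 459088) (.g (nat_lit 3986) (.e (nat_lit 2744) (nat_lit 174) (.e (nat_lit 253991) (nat_lit 11) (.e (nat_lit 16413) (nat_lit 2) (.e (nat_lit 196666) (nat_lit 13) (.e (nat_lit 65617) (nat_lit 10) (.e (nat_lit 344130) (nat_lit 26) (.e (nat_lit 557070) (nat_lit 9) .nil))))))) (.g (nat_lit 1) (.e (nat_lit 49080) (nat_lit 0) .nil) .nil))) 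
(.lf (nat_lit 459600) (.g (nat_lit 1994) (.e (nat_lit 2797) (nat_lit 180) (.e (nat_lit 303145) (nat_lit 13) (.e (nat_lit 483405) (nat_lit 26) (.e (nat_lit 385093) (nat_lit 49) (.e (nat_lit 778498) (nat_lit 14) .nil))))) (.g (nat_lit 0) (.e (nat_lit 50599) (nat_lit 0) .nil) .nil))))) (.nd (nat_lit 8) (.nd (nat_lit 9) 
(.lf (nat_lit 458960) (.g (nat_lit 3977) (.e (nat_lit 2725) (nat_lit 172) (.e (nat_lit 237594) (nat_lit 3) (.e (nat_lit 204869) (nat_lit 29) (.e (nat_lit 360475) (nat_lit 8) (.e (nat_lit 557091) (nat_lit 12) (.e (nat_lit 163849) (nat_lit 0) (.e (nat_lit 6254) (nat_lit 337) .nil))))))) (.g (nat_lit 1) (.e (nat_lit 48688) (nat_lit 0) .nil) .nil))) 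
(.lf (nat_lit 459472) (.g (nat_lit 4285) (.e (nat_lit 2797) (nat_lit 180) (.e (nat_lit 303133) (nat_lit 9) (.e (nat_lit 426412) (nat_lit 15) (.e (nat_lit 1855) (nat_lit 124) (.e (nat_lit 557109) (nat_lit 15) (.e (nat_lit 188449) (nat_lit 22) (.e (nat_lit 204544) (nat_lit 18) .nil))))))) (.g (nat_lit 1) (.e (nat_lit 50047) (nat_lit 0) .nil) .nil)))) (.nd (nat_lit 9) 
(.lf (nat_lit 459216) (.g (nat_lit 5626) (.e (nat_lit 2797) (nat_lit 180) (.e (nat_lit 303117) (nat_lit 2) (.e (nat_lit 196666) (nat_lit 13) (.e (nat_lit 65610) (nat_lit 10) (.e (nat_lit 344117) (nat_lit 21) (.e (nat_lit 516099) (nat_lit 0) (.e (nat_lit 7936) (nat_lit 377) .nil))))))) (.g (nat_lit 1) (.e (nat_lit 49420) (nat_lit 0) .nil) .nil))) 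
(.lf (nat_lit 459728) (.g (nat_lit 4239) (.e (nat_lit 2798) (nat_lit 180) (.e (nat_lit 303119) (nat_lit 3) (.e (nat_lit 204861) (nat_lit 26) (.e (nat_lit 336186) (nat_lit 11) (.e (nat_lit 368676) (nat_lit 21) (.e (nat_lit 516098) (nat_lit 0) (.e (nat_lit 7073) (nat_lit 377) .nil))))))) (.g (nat_lit 1) (.e (nat_lit 50950) (nat_lit 0) .nil) .nil))))))) 
(.nd (nat_lit 6) (.nd (nat_lit 7) (.nd (nat_lit 8) (.nd (nat_lit 9) 
(.lf (nat_lit 458800) (.g (nat_lit 4041) (.e (nat_lit 2725) (nat_lit 172) (.e (nat_lit 237589) (nat_lit 2) (.e (nat_lit 196666) (nat_lit 13) (.e (nat_lit 65617) (nat_lit 10) (.e (nat_lit 344133) (nat_lit 26) (.e (nat_lit 557089) (nat_lit 12) (.e (nat_lit 163843) (nat_lit 0) (.e (nat_lit 6254) (nat_lit 337) .nil)))))))) (.g (nat_lit 1) (.e (nat_lit 48462) (nat_lit 0) .nil) .nil))) 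
(.lf (nat_lit 459312) (.g (nat_lit 1810) (.e (nat_lit 2797) (nat_lit 180) (.e (nat_lit 303117) (nat_lit 2) (.e (nat_lit 196674) (nat_lit 15) (.e (nat_lit 81954) (nat_lit 23) (.e (nat_lit 98323) (nat_lit 17) .nil))))) (.g (nat_lit 0) (.e (nat_lit 49539) (nat_lit 0) .nil) .nil)))) (.nd (nat_lit 9) 
(.lf (nat_lit 459056) (.g (nat_lit 4077) (.e (nat_lit 2741) (nat_lit 174) (.e (nat_lit 253990) (nat_lit 11) (.e (nat_lit 16413) (nat_lit 2) (.e (nat_lit 196666) (nat_lit 13) (.e (nat_lit 65617) (nat_lit 10) (.e (nat_lit 344132) (nat_lit 26) (.e (nat_lit 557072) (nat_lit 9) .nil))))))) (.g (nat_lit 1) (.e (nat_lit 49021) (nat_lit 0) .nil) .nil))) 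
(.lf (nat_lit 459568) (.g (nat_lit 2230) (.e (nat_lit 2797) (nat_lit 180) (.e (nat_lit 303143) (nat_lit 12) (.e (nat_lit 475185) (nat_lit 29) (.e (nat_lit 557107) (nat_lit 15) (.e (nat_lit 188439) (nat_lit 20) (.e (nat_lit 3107) (nat_lit 193) (.e (nat_lit 499776) (nat_lit 0) .nil))))))) (.g (nat_lit 1) (.e (nat_lit 50355) (nat_lit 0) .nil) .nil))))) (.nd (nat_lit 8) (.nd (nat_lit 9) 
(.lf (nat_lit 458928) (.g (nat_lit 3123) (.e (nat_lit 2725) (nat_lit 172) (.e (nat_lit 237594) (nat_lit 3) (.e (nat_lit 204868) (nat_lit 29) (.e (nat_lit 360473) (nat_lit 8) (.e (nat_lit 557091) (nat_lit 12) (.e (nat_lit 163844) (nat_lit 0) (.e (nat_lit 6255) (nat_lit 337) .nil))))))) (.g (nat_lit 1) (.e (nat_lit 48647) (nat_lit 0) .nil) .nil))) 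
(.lf (nat_lit 459440) (.g (nat_lit 2872) (.e (nat_lit 2797) (nat_lit 180) (.e (nat_lit 303119) (nat_lit 3) (.e (nat_lit 204869) (nat_lit 29) (.e (nat_lit 360460) (nat_lit 1) .nil)))) (.g (nat_lit 0) (.e (nat_lit 49872) (nat_lit 0) .nil) .nil)))) (.nd (nat_lit 9) 
(.lf (nat_lit 459184) (.g (nat_lit 2683) (.e (nat_lit 2796) (nat_lit 180) (.e (nat_lit 303143) (nat_lit 12) (.e (nat_lit 475185) (nat_lit 29) (.e (nat_lit 557107) (nat_lit 15) .nil)))) (.g (nat_lit 0) (.e (nat_lit 49338) (nat_lit 0) .nil) .nil))) 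
(.lf (nat_lit 459696) (.g (nat_lit 3167) (.e (nat_lit 2798) (nat_lit 180) (.e (nat_lit 303117) (nat_lit 2) (.e (nat_lit 196674) (nat_lit 15) (.e (nat_lit 81956) (nat_lit 23) (.e (nat_lit 98325) (nat_lit 17) (.e (nat_lit 7008) (nat_lit 377) .nil)))))) (.g (nat_lit 1) (.e (nat_lit 50861) (nat_lit 0) .nil) .nil)))))) (.nd (nat_lit 7) (.nd (nat_lit 8) (.nd (nat_lit 9) 
(.lf (nat_lit 458864) (.g (nat_lit 3379) (.e (nat_lit 2725) (nat_lit 172) (.e (nat_lit 237592) (nat_lit 3) (.e (nat_lit 204869) (nat_lit 29) (.e (nat_lit 360474) (nat_lit 8) (.e (nat_lit 557091) (nat_lit 12) (.e (nat_lit 163840) (nat_lit 0) (.e (nat_lit 6252) (nat_lit 337) .nil))))))) (.g (nat_lit 1) (.e (nat_lit 48568) (nat_lit 0) .nil) .nil))) 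
(.lf (nat_lit 459376) (.g (nat_lit 5061) (.e (nat_lit 2797) (nat_lit 180) (.e (nat_lit 303119) (nat_lit 3) (.e (nat_lit 204861) (nat_lit 26) (.e (nat_lit 336186) (nat_lit 11) (.e (nat_lit 368676) (nat_lit 21) (.e (nat_lit 516097) (nat_lit 0) (.e (nat_lit 7936) (nat_lit 377) .nil))))))) (.g (nat_lit 1) (.e (nat_lit 49721) (nat_lit 0) .nil) .nil)))) (.nd (nat_lit 9) 
(.lf (nat_lit 459120) (.g (nat_lit 3524) (.e (nat_lit 2744) (nat_lit 174) (.e (nat_lit 253992) (nat_lit 11) (.e (nat_lit 16425) (nat_lit 7) (.e (nat_lit 409649) (nat_lit 18) (.e (nat_lit 303140) (nat_lit 10) (.e (nat_lit 434275) (nat_lit 39) (.e (nat_lit 663572) (nat_lit 9) .nil))))))) (.g (nat_lit 1) (.e (nat_lit 49114) (nat_lit 0) .nil) .nil))) 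
(.lf (nat_lit 459632) (.g (nat_lit 3164) (.e (nat_lit 2798) (nat_lit 180) (.e (nat_lit 303117) (nat_lit 2) (.e (nat_lit 196666) (nat_lit 13) (.e (nat_lit 65610) (nat_lit 10) (.e (nat_lit 344117) (nat_lit 21) (.e (nat_lit 516102) (nat_lit 0) (.e (nat_lit 7011) (nat_lit 377) .nil))))))) (.g (nat_lit 1) (.e (nat_lit 50795) (nat_lit 0) .nil) .nil))))) (.nd (nat_lit 8) (.nd (nat_lit 9) 
(.lf (nat_lit 458992) (.g (nat_lit 1984) (.e (nat_lit 2725) (nat_lit 172) (.e (nat_lit 237617) (nat_lit 12) (.e (nat_lit 475199) (nat_lit 40) (.e (nat_lit 704598) (nat_lit 6) (.e (nat_lit 188453) (nat_lit 24) (.e (nat_lit 229666) (nat_lit 240) .nil)))))) (.g (nat_lit 1) (.e (nat_lit 48752) (nat_lit 0) .nil) .nil))) 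
(.lf (nat_lit 459504) (.g (nat_lit 4335) (.e (nat_lit 2797) (nat_lit 180) (.e (nat_lit 303143) (nat_lit 12) (.e (nat_lit 475185) (nat_lit 29) (.e (nat_lit 557098) (nat_lit 13) (.e (nat_lit 172090) (nat_lit 9) .nil))))) (.g (nat_lit 0) (.e (nat_lit 50259) (nat_lit 0) .nil) .nil)))) (.nd (nat_lit 9) 
(.lf (nat_lit 459248) (.g (nat_lit 2802) (.e (nat_lit 2797) (nat_lit 180) (.e (nat_lit 303117) (nat_lit 2) (.e (nat_lit 196672) (nat_lit 15) (.e (nat_lit 81953) (nat_lit 22) (.e (nat_lit 90165) (nat_lit 12) (.e (nat_lit 164210) (nat_lit 176) .nil)))))) (.g (nat_lit 1) (.e (nat_lit 49470) (nat_lit 0) .nil) .nil))) 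
(.lf (nat_lit 459760) (.g (nat_lit 2890) (.e (nat_lit 2798) (nat_lit 180) (.e (nat_lit 303119) (nat_lit 3) (.e (nat_lit 204877) (nat_lit 31) (.e (nat_lit 376864) (nat_lit 22) (.e (nat_lit 90165) (nat_lit 12) (.e (nat_lit 171776) (nat_lit 176) .nil)))))) (.g (nat_lit 1) (.e (nat_lit 51059) (nat_lit 0) .nil) .nil))))))))) 
(.nd (nat_lit 4) (.nd (nat_lit 5) (.nd (nat_lit 6) (.nd (nat_lit 7) (.nd (nat_lit 8) 
(.nd (nat_lit 9) 
(.lf (nat_lit 458760) (.g (nat_lit 4734) (.e (nat_lit 2725) (nat_lit 172) (.e (nat_lit 237587) (nat_lit 2) (.e (nat_lit 196666) (nat_lit 13) (.e (nat_lit 65617) (nat_lit 10) (.e (nat_lit 344133) (nat_lit 26) (.e (nat_lit 557091) (nat_lit 12) (.e (nat_lit 163843) (nat_lit 0) (.e (nat_lit 6255) (nat_lit 337) .nil)))))))) (.g (nat_lit 1) (.e (nat_lit 48372) (nat_lit 0) .nil) .nil))) 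
(.lf (nat_lit 459272) (.g (nat_lit 320) (.e (nat_lit 2797) (nat_lit 180) (.e (nat_lit 303117) (nat_lit 2) (.e (nat_lit 196673) (nat_lit 15) .nil))) (.g (nat_lit 0) (.e (nat_lit 49494) (nat_lit 0) .nil) .nil)))) (.nd (nat_lit 9) 
(.lf (nat_lit 459016) (.g (nat_lit 3089) (.e (nat_lit 2725) (nat_lit 172) (.e (nat_lit 237619) (nat_lit 12) (.e (nat_lit 475211) (nat_lit 41) (.e (nat_lit 712750) (nat_lit 29) (.e (nat_lit 442430) (nat_lit 24) (.e (nat_lit 229665) (nat_lit 240) .nil)))))) (.g (nat_lit 1) (.e (nat_lit 48782) (nat_lit 0) .nil) .nil))) 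
(.lf (nat_lit 459528) (.g (nat_lit 3165) (.e (nat_lit 2797) (nat_lit 180) (.e (nat_lit 303143) (nat_lit 12) (.e (nat_lit 475185) (nat_lit 29) (.e (nat_lit 557100) (nat_lit 13) (.e (nat_lit 179968) (nat_lit 9) (.e (nat_lit 426123) (nat_lit 2) (.e (nat_lit 204544) (nat_lit 18) .nil))))))) (.g (nat_lit 1) (.e (nat_lit 50287) (nat_lit 0) .nil) .nil))))) (.nd (nat_lit 8) (.nd (nat_lit 9) 
(.lf (nat_lit 458888) (.g (nat_lit 2530) (.e (nat_lit 2725) (nat_lit 172) (.e (nat_lit 237593) (nat_lit 3) (.e (nat_lit 204868) (nat_lit 29) (.e (nat_lit 360475) (nat_lit 8) (.e (nat_lit 557091) (nat_lit 12) .nil))))) (.g (nat_lit 0) (.e (nat_lit 48598) (nat_lit 0) .nil) .nil))) 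
(.lf (nat_lit 459400) (.g (nat_lit 3837) (.e (nat_lit 2797) (nat_lit 180) (.e (nat_lit 303119) (nat_lit 3) (.e (nat_lit 204865) (nat_lit 28) (.e (nat_lit 352315) (nat_lit 23) (.e (nat_lit 98325) (nat_lit 17) (.e (nat_lit 7008) (nat_lit 377) .nil)))))) (.g (nat_lit 1) (.e (nat_lit 49755) (nat_lit 0) .nil) .nil)))) (.nd (nat_lit 9) 
(.lf (nat_lit 459144) (.g (nat_lit 2547) (.e (nat_lit 2770) (nat_lit 177) (.e (nat_lit 278567) (nat_lit 16) (.e (nat_lit 286734) (nat_lit 3) (.e (nat_lit 98359) (nat_lit 26) (.e (nat_lit 426211) (nat_lit 9) (.e (nat_lit 426125) (nat_lit 2) (.e (nat_lit 204544) (nat_lit 18) .nil))))))) (.g (nat_lit 1) (.e (nat_lit 49164) (nat_lit 0) .nil) .nil))) 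
(.lf (nat_lit 459656) (.g (nat_lit 3705) (.e (nat_lit 2798) (nat_lit 180) (.e (nat_lit 303117) (nat_lit 2) (.e (nat_lit 196672) (nat_lit 15) (.e (nat_lit 81951) (nat_lit 22) (.e (nat_lit 90165) (nat_lit 12) (.e (nat_lit 164210) (nat_lit 176) .nil)))))) (.g (nat_lit 1) (.e (nat_lit 50821) (nat_lit 0) .nil) .nil)))))) (.nd (nat_lit 7) (.nd (nat_lit 8) (.nd (nat_lit 9) 
(.lf (nat_lit 458824) (.g (nat_lit 2496) (.e (nat_lit 2725) (nat_lit 172) (.e (nat_lit 237590) (nat_lit 2) (.e (nat_lit 196666) (nat_lit 13) (.e (nat_lit 65610) (nat_lit 10) (.e (nat_lit 344129) (nat_lit 26) (.e (nat_lit 557089) (nat_lit 12) (.e (nat_lit 163849) (nat_lit 0) (.e (nat_lit 6255) (nat_lit 337) .nil)))))))) (.g (nat_lit 1) (.e (nat_lit 48487) (nat_lit 0) .nil) .nil))) 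
(.lf (nat_lit 459336) (.g (nat_lit 3664) (.e (nat_lit 2797) (nat_lit 180) (.e (nat_lit 303119) (nat_lit 3) (.e (nat_lit 204838) (nat_lit 20) (.e (nat_lit 114716) (nat_lit 22) (.e (nat_lit 98048) (nat_lit 5) (.e (nat_lit 73755) (nat_lit 8) (.e (nat_lit 557119) (nat_lit 18) .nil))))))) (.g (nat_lit 1) (.e (nat_lit 49593) (nat_lit 0) .nil) .nil)))) (.nd (nat_lit 9) 
(.lf (nat_lit 459080) (.g (nat_lit 4645) (.e (nat_lit 2744) (nat_lit 174) (.e (nat_lit 253991) (nat_lit 11) (.e (nat_lit 16412) (nat_lit 2) (.e (nat_lit 196666) (nat_lit 13) (.e (nat_lit 65617) (nat_lit 10) .nil))))) (.g (nat_lit 0) (.e (nat_lit 49072) (nat_lit 0) .nil) .nil))) 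
(.lf (nat_lit 459592) (.g (nat_lit 2665) (.e (nat_lit 2797) (nat_lit 180) (.e (nat_lit 303145) (nat_lit 13) (.e (nat_lit 483346) (nat_lit 17) (.e (nat_lit 981) (nat_lit 81) .nil)))) (.g (nat_lit 0) (.e (nat_lit 50428) (nat_lit 0) .nil) .nil))))) (.nd (nat_lit 8) (.nd (nat_lit 9) 
(.lf (nat_lit 458952) (.g (nat_lit 3514) (.e (nat_lit 2725) (nat_lit 172) (.e (nat_lit 237594) (nat_lit 3) (.e (nat_lit 204869) (nat_lit 29) (.e (nat_lit 360475) (nat_lit 8) (.e (nat_lit 557089) (nat_lit 12) (.e (nat_lit 163844) (nat_lit 0) (.e (nat_lit 6250) (nat_lit 337) .nil))))))) (.g (nat_lit 1) (.e (nat_lit 48680) (nat_lit 0) .nil) .nil))) 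
(.lf (nat_lit 459464) (.g (nat_lit 2689) (.e (nat_lit 2797) (nat_lit 180) (.e (nat_lit 303127) (nat_lit 9) (.e (nat_lit 426478) (nat_lit 27) (.e (nat_lit 336228) (nat_lit 14) (.e (nat_lit 401454) (nat_lit 12) (.e (nat_lit 483072) (nat_lit 16) .nil)))))) (.g (nat_lit 1) (.e (nat_lit 50018) (nat_lit 0) .nil) .nil)))) (.nd (nat_lit 9) 
(.lf (nat_lit 459208) (.g (nat_lit 2838) (.e (nat_lit 2797) (nat_lit 180) (.e (nat_lit 303117) (nat_lit 2) (.e (nat_lit 196665) (nat_lit 13) (.e (nat_lit 65604) (nat_lit 9) (.e (nat_lit 336013) (nat_lit 2) (.e (nat_lit 90165) (nat_lit 12) (.e (nat_lit 164209) (nat_lit 176) .nil))))))) (.g (nat_lit 1) (.e (nat_lit 49404) (nat_lit 0) .nil) .nil))) 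
(.lf (nat_lit 459720) (.g (nat_lit 3755) (.e (nat_lit 2798) (nat_lit 180) (.e (nat_lit 303119) (nat_lit 3) (.e (nat_lit 204859) (nat_lit 26) (.e (nat_lit 335874) (nat_lit 0) (.e (nat_lit 6713) (nat_lit 360) (.e (nat_lit 163962) (nat_lit 25) (.e (nat_lit 532482) (nat_lit 0) (.e (nat_lit 6203) (nat_lit 332) .nil)))))))) (.g (nat_lit 1) (.e (nat_lit 50942) (nat_lit 0) .nil) .nil))))))) 
(.nd (nat_lit 6) (.nd (nat_lit 7) (.nd (nat_lit 8) (.nd (nat_lit 9) 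
(.lf (nat_lit 458792) (.g (nat_lit 3489) (.e (nat_lit 2725) (nat_lit 172) (.e (nat_lit 237589) (nat_lit 2) (.e (nat_lit 196666) (nat_lit 13) (.e (nat_lit 65617) (nat_lit 10) (.e (nat_lit 344132) (nat_lit 26) (.e (nat_lit 557093) (nat_lit 12) (.e (nat_lit 163847) (nat_lit 0) (.e (nat_lit 6254) (nat_lit 337) .nil)))))))) (.g (nat_lit 1) (.e (nat_lit 48454) (nat_lit 0) .nil) .nil))) 
(.lf (nat_lit 459304) (.g (nat_lit 3252) (.e (nat_lit 2797) (nat_lit 180) (.e (nat_lit 303117) (nat_lit 2) (.e (nat_lit 196674) (nat_lit 15) (.e (nat_lit 81952) (nat_lit 22) (.e (nat_lit 90165) (nat_lit 12) (.e (nat_lit 164209) (nat_lit 176) .nil)))))) (.g (nat_lit 1) (.e (nat_lit 49530) (nat_lit 0) .nil) .nil)))) (.nd (nat_lit 9) 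
(.lf (nat_lit 459048) (.g (nat_lit 4366) (.e (nat_lit 2739) (nat_lit 174) (.e (nat_lit 253992) (nat_lit 11) (.e (nat_lit 16425) (nat_lit 7) (.e (nat_lit 409649) (nat_lit 18) (.e (nat_lit 303140) (nat_lit 10) (.e (nat_lit 434275) (nat_lit 39) (.e (nat_lit 663580) (nat_lit 9) .nil))))))) (.g (nat_lit 1) (.e (nat_lit 49007) (nat_lit 0) .nil) .nil))) 
(.lf (nat_lit 459560) (.g (nat_lit 4181) (.e (nat_lit 2797) (nat_lit 180) (.e (nat_lit 303143) (nat_lit 12) (.e (nat_lit 475185) (nat_lit 29) (.e (nat_lit 557101) (nat_lit 13) (.e (nat_lit 172097) (nat_lit 9) (.e (nat_lit 426125) (nat_lit 2) (.e (nat_lit 204544) (nat_lit 18) .nil))))))) (.g (nat_lit 1) (.e (nat_lit 50335) (nat_lit 0) .nil) .nil))))) (.nd (nat_lit 8) (.nd (nat_lit 9) 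
(.lf (nat_lit 458920) (.g (nat_lit 3487) (.e (nat_lit 2725) (nat_lit 172) (.e (nat_lit 237593) (nat_lit 3) (.e (nat_lit 204869) (nat_lit 29) (.e (nat_lit 360475) (nat_lit 8) (.e (nat_lit 557091) (nat_lit 12) (.e (nat_lit 163847) (nat_lit 0) (.e (nat_lit 6250) (nat_lit 337) .nil))))))) (.g (nat_lit 1) (.e (nat_lit 48633) (nat_lit 0) .nil) .nil))) 
(.lf (nat_lit 459432) (.g (nat_lit 1703) (.e (nat_lit 2797) (nat_lit 180) (.e (nat_lit 303119) (nat_lit 3) (.e (nat_lit 204869) (nat_lit 29) (.e (nat_lit 360450) (nat_lit 0) (.e (nat_lit 3994) (nat_lit 240) .nil))))) (.g (nat_lit 0) (.e (nat_lit 49813) (nat_lit 0) .nil) .nil)))) (.nd (nat_lit 9) 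
(.lf (nat_lit 459176) (.g (nat_lit 2542) (.e (nat_lit 2796) (nat_lit 180) (.e (nat_lit 303119) (nat_lit 3) (.e (nat_lit 204855) (nat_lit 26) (.e (nat_lit 336073) (nat_lit 9) .nil)))) (.g (nat_lit 0) (.e (nat_lit 49317) (nat_lit 0) .nil) .nil))) 
(.lf (nat_lit 459688) (.g (nat_lit 2455) (.e (nat_lit 2798) (nat_lit 180) (.e (nat_lit 303117) (nat_lit 2) (.e (nat_lit 196674) (nat_lit 15) (.e (nat_lit 81955) (nat_lit 23) (.e (nat_lit 98325) (nat_lit 17) (.e (nat_lit 6966) (nat_lit 377) .nil)))))) (.g (nat_lit 1) (.e (nat_lit 50853) (nat_lit 0) .nil) .nil)))))) (.nd (nat_lit 7) (.nd (nat_lit 8) (.nd (nat_lit 9) 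
(.lf (nat_lit 458856) (.g (nat_lit 3093) (.e (nat_lit 2725) (nat_lit 172) (.e (nat_lit 237590) (nat_lit 2) (.e (nat_lit 196666) (nat_lit 13) (.e (nat_lit 65617) (nat_lit 10) (.e (nat_lit 344133) (nat_lit 26) (.e (nat_lit 557091) (nat_lit 12) (.e (nat_lit 163849) (nat_lit 0) (.e (nat_lit 6255) (nat_lit 337) .nil)))))))) (.g (nat_lit 1) (.e (nat_lit 48519) (nat_lit 0) .nil) .nil))) 
(.lf (nat_lit 459368) (.g (nat_lit 3093) (.e (nat_lit 2797) (nat_lit 180) (.e (nat_lit 303119) (nat_lit 3) (.e (nat_lit 204861) (nat_lit 26) (.e (nat_lit 336184) (nat_lit 11) (.e (nat_lit 368676) (nat_lit 21) (.e (nat_lit 516103) (nat_lit 0) (.e (nat_lit 7936) (nat_lit 377) .nil))))))) (.g (nat_lit 1) (.e (nat_lit 49713) (nat_lit 0) .nil) .nil)))) (.nd (nat_lit 9) 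
(.lf (nat_lit 459112) (.g (nat_lit 1258) (.e (nat_lit 2744) (nat_lit 174) (.e (nat_lit 253992) (nat_lit 11) (.e (nat_lit 16412) (nat_lit 2) (.e (nat_lit 196681) (nat_lit 17) .nil)))) (.g (nat_lit 0) (.e (nat_lit 49106) (nat_lit 0) .nil) .nil))) 
(.lf (nat_lit 459624) (.g (nat_lit 3752) (.e (nat_lit 2798) (nat_lit 180) (.e (nat_lit 303117) (nat_lit 2) (.e (nat_lit 196666) (nat_lit 13) (.e (nat_lit 65599) (nat_lit 9) (.e (nat_lit 336013) (nat_lit 2) (.e (nat_lit 90165) (nat_lit 12) (.e (nat_lit 164210) (nat_lit 176) .nil))))))) (.g (nat_lit 1) (.e (nat_lit 50784) (nat_lit 0) .nil) .nil))))) (.nd (nat_lit 8) (.nd (nat_lit 9) 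
(.lf (nat_lit 458984) (.g (nat_lit 2216) (.e (nat_lit 2725) (nat_lit 172) (.e (nat_lit 237616) (nat_lit 12) (.e (nat_lit 475211) (nat_lit 41) (.e (nat_lit 712750) (nat_lit 29) (.e (nat_lit 442430) (nat_lit 24) (.e (nat_lit 229666) (nat_lit 240) .nil)))))) (.g (nat_lit 1) (.e (nat_lit 48743) (nat_lit 0) .nil) .nil))) 
(.lf (nat_lit 459496) (.g (nat_lit 3076) (.e (nat_lit 2797) (nat_lit 180) (.e (nat_lit 303143) (nat_lit 12) (.e (nat_lit 475185) (nat_lit 29) (.e (nat_lit 557096) (nat_lit 13) .nil)))) (.g (nat_lit 0) (.e (nat_lit 50251) (nat_lit 0) .nil) .nil)))) (.nd (nat_lit 9) 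
(.lf (nat_lit 459240) (.g (nat_lit 3890) (.e (nat_lit 2797) (nat_lit 180) (.e (nat_lit 303117) (nat_lit 2) (.e (nat_lit 196672) (nat_lit 15) (.e (nat_lit 81951) (nat_lit 22) (.e (nat_lit 90165) (nat_lit 12) (.e (nat_lit 164207) (nat_lit 176) .nil)))))) (.g (nat_lit 1) (.e (nat_lit 49462) (nat_lit 0) .nil) .nil))) 
(.lf (nat_lit 459752) (.g (nat_lit 3318) (.e (nat_lit 2798) (nat_lit 180) (.e (nat_lit 303119) (nat_lit 3) (.e (nat_lit 204869) (nat_lit 29) (.e (nat_lit 360474) (nat_lit 8) (.e (nat_lit 557083) (nat_lit 10) (.e (nat_lit 16128) (nat_lit 225) .nil)))))) (.g (nat_lit 1) (.e (nat_lit 51036) (nat_lit 0) .nil) .nil)))))))) 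
(.nd (nat_lit 5) (.nd (nat_lit 6) (.nd (nat_lit 7) (.nd (nat_lit 8) (.nd (nat_lit 9) 
(.lf (nat_lit 458776) (.g (nat_lit 4997) (.e (nat_lit 2725) (nat_lit 172) (.e (nat_lit 237589) (nat_lit 2) (.e (nat_lit 196666) (nat_lit 13) (.e (nat_lit 65617) (nat_lit 10) (.e (nat_lit 344127) (nat_lit 26) (.e (nat_lit 557090) (nat_lit 12) (.e (nat_lit 163844) (nat_lit 0) (.e (nat_lit 6254) (nat_lit 337) .nil)))))))) (.g (nat_lit 1) (.e (nat_lit 48438) (nat_lit 0) .nil) .nil))) 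
(.lf (nat_lit 459288) (.g (nat_lit 2491) (.e (nat_lit 2797) (nat_lit 180) (.e (nat_lit 303117) (nat_lit 2) (.e (nat_lit 196673) (nat_lit 15) (.e (nat_lit 81956) (nat_lit 23) (.e (nat_lit 98325) (nat_lit 17) (.e (nat_lit 7014) (nat_lit 377) .nil)))))) (.g (nat_lit 1) (.e (nat_lit 49510) (nat_lit 0) .nil) .nil)))) (.nd (nat_lit 9) 
(.lf (nat_lit 459032) (.g (nat_lit 2775) (.e (nat_lit 2739) (nat_lit 174) (.e (nat_lit 253989) (nat_lit 11) (.e (nat_lit 16412) (nat_lit 2) (.e (nat_lit 196666) (nat_lit 13) (.e (nat_lit 65610) (nat_lit 10) (.e (nat_lit 344129) (nat_lit 26) (.e (nat_lit 557074) (nat_lit 9) .nil))))))) (.g (nat_lit 1) (.e (nat_lit 48984) (nat_lit 0) .nil) .nil))) 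
(.lf (nat_lit 459544) (.g (nat_lit 3735) (.e (nat_lit 2797) (nat_lit 180) (.e (nat_lit 303143) (nat_lit 12) (.e (nat_lit 475185) (nat_lit 29) (.e (nat_lit 557100) (nat_lit 13) (.e (nat_lit 172113) (nat_lit 10) (.e (nat_lit 434224) (nat_lit 19) (.e (nat_lit 499767) (nat_lit 0) .nil))))))) (.g (nat_lit 1) (.e (nat_lit 50312) (nat_lit 0) .nil) .nil))))) (.nd (nat_lit 8) (.nd (nat_lit 9) 
(.lf (nat_lit 458904) (.g (nat_lit 4311) (.e (nat_lit 2725) (nat_lit 172) (.e (nat_lit 237593) (nat_lit 3) (.e (nat_lit 204869) (nat_lit 29) (.e (nat_lit 360474) (nat_lit 8) (.e (nat_lit 557091) (nat_lit 12) (.e (nat_lit 163848) (nat_lit 0) (.e (nat_lit 6252) (nat_lit 337) .nil))))))) (.g (nat_lit 1) (.e (nat_lit 48617) (nat_lit 0) .nil) .nil))) 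
(.lf (nat_lit 459416) (.g (nat_lit 3218) (.e (nat_lit 2797) (nat_lit 180) (.e (nat_lit 303119) (nat_lit 3) (.e (nat_lit 204868) (nat_lit 29) (.e (nat_lit 360466) (nat_lit 3) (.e (nat_lit 516096) (nat_lit 0) (.e (nat_lit 6998) (nat_lit 377) .nil)))))) (.g (nat_lit 1) (.e (nat_lit 49795) (nat_lit 0) .nil) .nil)))) (.nd (nat_lit 9) 
(.lf (nat_lit 459160) (.g (nat_lit 1710) (.e (nat_lit 2795) (nat_lit 180) (.e (nat_lit 303143) (nat_lit 12) (.e (nat_lit 475185) (nat_lit 29) (.e (nat_lit 557109) (nat_lit 15) .nil)))) (.g (nat_lit 0) (.e (nat_lit 49252) (nat_lit 0) .nil) .nil))) 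
(.lf (nat_lit 459672) (.g (nat_lit 2852) (.e (nat_lit 2798) (nat_lit 180) (.e (nat_lit 303117) (nat_lit 2) (.e (nat_lit 196673) (nat_lit 15) (.e (nat_lit 81956) (nat_lit 23) (.e (nat_lit 98325) (nat_lit 17) (.e (nat_lit 7016) (nat_lit 377) .nil)))))) (.g (nat_lit 1) (.e (nat_lit 50837) (nat_lit 0) .nil) .nil)))))) (.nd (nat_lit 7) (.nd (nat_lit 8) (.nd (nat_lit 9) 
(.lf (nat_lit 458840) (.g (nat_lit 2186) (.e (nat_lit 2725) (nat_lit 172) (.e (nat_lit 237590) (nat_lit 2) (.e (nat_lit 196666) (nat_lit 13) (.e (nat_lit 65617) (nat_lit 10) (.e (nat_lit 344132) (nat_lit 26) .nil))))) (.g (nat_lit 0) (.e (nat_lit 48503) (nat_lit 0) .nil) .nil))) 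
(.lf (nat_lit 459352) (.g (nat_lit 2373) (.e (nat_lit 2797) (nat_lit 180) (.e (nat_lit 303119) (nat_lit 3) (.e (nat_lit 204855) (nat_lit 26) (.e (nat_lit 336163) (nat_lit 10) (.e (nat_lit 344117) (nat_lit 21) .nil))))) (.g (nat_lit 0) (.e (nat_lit 49675) (nat_lit 0) .nil) .nil)))) (.nd (nat_lit 9) 
(.lf (nat_lit 459096) (.g (nat_lit 4063) (.e (nat_lit 2744) (nat_lit 174) (.e (nat_lit 253991) (nat_lit 11) (.e (nat_lit 16425) (nat_lit 7) (.e (nat_lit 409648) (nat_lit 18) (.e (nat_lit 303137) (nat_lit 10) (.e (nat_lit 434275) (nat_lit 39) (.e (nat_lit 663572) (nat_lit 9) .nil))))))) (.g (nat_lit 1) (.e (nat_lit 49088) (nat_lit 0) .nil) .nil))) 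
(.lf (nat_lit 459608) (.g (nat_lit 3207) (.e (nat_lit 2798) (nat_lit 180) (.e (nat_lit 303116) (nat_lit 2) (.e (nat_lit 196666) (nat_lit 13) (.e (nat_lit 65610) (nat_lit 10) (.e (nat_lit 344117) (nat_lit 21) (.e (nat_lit 516106) (nat_lit 0) (.e (nat_lit 6966) (nat_lit 377) .nil))))))) (.g (nat_lit 1) (.e (nat_lit 50766) (nat_lit 0) .nil) .nil))))) (.nd (nat_lit 8) (.nd (nat_lit 9) 
(.lf (nat_lit 458968) (.g (nat_lit 1852) (.e (nat_lit 2725) (nat_lit 172) (.e (nat_lit 237615) (nat_lit 12) (.e (nat_lit 475211) (nat_lit 41) (.e (nat_lit 712753) (nat_lit 30) (.e (nat_lit 450569) (nat_lit 0) (.e (nat_lit 5448) (nat_lit 306) .nil)))))) (.g (nat_lit 1) (.e (nat_lit 48726) (nat_lit 0) .nil) .nil))) 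
(.lf (nat_lit 459480) (.g (nat_lit 1138) (.e (nat_lit 2797) (nat_lit 180) (.e (nat_lit 303133) (nat_lit 9) (.e (nat_lit 426412) (nat_lit 15) (.e (nat_lit 2160) (nat_lit 143) .nil)))) (.g (nat_lit 0) (.e (nat_lit 50065) (nat_lit 0) .nil) .nil)))) (.nd (nat_lit 9) 
(.lf (nat_lit 459224) (.g (nat_lit 5181) (.e (nat_lit 2797) (nat_lit 180) (.e (nat_lit 303117) (nat_lit 2) (.e (nat_lit 196666) (nat_lit 13) (.e (nat_lit 65610) (nat_lit 10) (.e (nat_lit 344129) (nat_lit 26) (.e (nat_lit 557084) (nat_lit 10) (.e (nat_lit 16128) (nat_lit 225) .nil))))))) (.g (nat_lit 1) (.e (nat_lit 49428) (nat_lit 0) .nil) .nil))) 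
(.lf (nat_lit 459736) (.g (nat_lit 2317) (.e (nat_lit 2798) (nat_lit 180) (.e (nat_lit 303119) (nat_lit 3) (.e (nat_lit 204867) (nat_lit 28) (.e (nat_lit 352315) (nat_lit 23) (.e (nat_lit 98325) (nat_lit 17) (.e (nat_lit 7936) (nat_lit 377) .nil)))))) (.g (nat_lit 1) (.e (nat_lit 50979) (nat_lit 0) .nil) .nil))))))) (.nd (nat_lit 6) (.nd (nat_lit 7) (.nd (nat_lit 8) (.nd (nat_lit 9) 
(.lf (nat_lit 458808) (.g (nat_lit 2533) (.e (nat_lit 2725) (nat_lit 172) (.e (nat_lit 237589) (nat_lit 2) (.e (nat_lit 196666) (nat_lit 13) (.e (nat_lit 65617) (nat_lit 10) (.e (nat_lit 344133) (nat_lit 26) (.e (nat_lit 557091) (nat_lit 12) (.e (nat_lit 163840) (nat_lit 0) (.e (nat_lit 6254) (nat_lit 337) .nil)))))))) (.g (nat_lit 1) (.e (nat_lit 48470) (nat_lit 0) .nil) .nil))) 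
(.lf (nat_lit 459320) (.g (nat_lit 2793) (.e (nat_lit 2797) (nat_lit 180) (.e (nat_lit 303117) (nat_lit 2) (.e (nat_lit 196674) (nat_lit 15) (.e (nat_lit 81955) (nat_lit 23) (.e (nat_lit 98325) (nat_lit 17) (.e (nat_lit 7008) (nat_lit 377) .nil)))))) (.g (nat_lit 1) (.e (nat_lit 49547) (nat_lit 0) .nil) .nil)))) (.nd (nat_lit 9) 
(.lf (nat_lit 459064) (.g (nat_lit 3767) (.e (nat_lit 2741) (nat_lit 174) (.e (nat_lit 253991) (nat_lit 11) (.e (nat_lit 16416) (nat_lit 3) (.e (nat_lit 204869) (nat_lit 29) (.e (nat_lit 360474) (nat_lit 8) (.e (nat_lit 557072) (nat_lit 9) .nil)))))) (.g (nat_lit 1) (.e (nat_lit 49040) (nat_lit 0) .nil) .nil))) 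
(.lf (nat_lit 459576) (.g (nat_lit 2580) (.e (nat_lit 2797) (nat_lit 180) (.e (nat_lit 303143) (nat_lit 12) (.e (nat_lit 475185) (nat_lit 29) (.e (nat_lit 557107) (nat_lit 15) (.e (nat_lit 188448) (nat_lit 22) (.e (nat_lit 204544) (nat_lit 18) .nil)))))) (.g (nat_lit 1) (.e (nat_lit 50366) (nat_lit 0) .nil) .nil))))) (.nd (nat_lit 8) (.nd (nat_lit 9) 
(.lf (nat_lit 458936) (.g (nat_lit 1079) (.e (nat_lit 2725) (nat_lit 172) (.e (nat_lit 237594) (nat_lit 3) (.e (nat_lit 204869) (nat_lit 29) (.e (nat_lit 360473) (nat_lit 8) .nil)))) (.g (nat_lit 0) (.e (nat_lit 48661) (nat_lit 0) .nil) .nil))) 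
(.lf (nat_lit 459448) (.g (nat_lit 6772) (.e (nat_lit 2797) (nat_lit 180) (.e (nat_lit 303119) (nat_lit 3) (.e (nat_lit 204869) (nat_lit 29) (.e (nat_lit 360474) (nat_lit 8) (.e (nat_lit 557084) (nat_lit 10) (.e (nat_lit 16128) (nat_lit 225) .nil)))))) (.g (nat_lit 1) (.e (nat_lit 49957) (nat_lit 0) .nil) .nil)))) (.nd (nat_lit 9) 
(.lf (nat_lit 459192) (.g (nat_lit 4628) (.e (nat_lit 2797) (nat_lit 180) (.e (nat_lit 303116) (nat_lit 2) (.e (nat_lit 196666) (nat_lit 13) (.e (nat_lit 65610) (nat_lit 10) (.e (nat_lit 344117) (nat_lit 21) (.e (nat_lit 516099) (nat_lit 0) (.e (nat_lit 7936) (nat_lit 377) .nil))))))) (.g (nat_lit 1) (.e (nat_lit 49380) (nat_lit 0) .nil) .nil))) 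
(.lf (nat_lit 459704) (.g (nat_lit 517) (.e (nat_lit 2798) (nat_lit 180) (.e (nat_lit 303118) (nat_lit 3) (.e (nat_lit 204877) (nat_lit 31) .nil))) (.g (nat_lit 0) (.e (nat_lit 50878) (nat_lit 0) .nil) .nil)))))) (.nd (nat_lit 7) (.nd (nat_lit 8) (.nd (nat_lit 9) 
(.lf (nat_lit 458872) (.g (nat_lit 3239) (.e (nat_lit 2725) (nat_lit 172) (.e (nat_lit 237592) (nat_lit 3) (.e (nat_lit 204869) (nat_lit 29) (.e (nat_lit 360474) (nat_lit 8) (.e (nat_lit 557094) (nat_lit 12) (.e (nat_lit 163849) (nat_lit 0) (.e (nat_lit 6255) (nat_lit 337) .nil))))))) (.g (nat_lit 1) (.e (nat_lit 48579) (nat_lit 0) .nil) .nil))) 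
(.lf (nat_lit 459384) (.g (nat_lit 1961) (.e (nat_lit 2797) (nat_lit 180) (.e (nat_lit 303119) (nat_lit 3) (.e (nat_lit 212736) (nat_lit 26) (.e (nat_lit 336099) (nat_lit 9) (.e (nat_lit 336013) (nat_lit 2) (.e (nat_lit 98048) (nat_lit 12) (.e (nat_lit 164209) (nat_lit 176) .nil))))))) (.g (nat_lit 1) (.e (nat_lit 49729) (nat_lit 0) .nil) .nil)))) (.nd (nat_lit 9) 
(.lf (nat_lit 459128) (.g (nat_lit 3885) (.e (nat_lit 2756) (nat_lit 176) (.e (nat_lit 270373) (nat_lit 16) (.e (nat_lit 286735) (nat_lit 3) (.e (nat_lit 98359) (nat_lit 26) (.e (nat_lit 426211) (nat_lit 9) (.e (nat_lit 426125) (nat_lit 2) (.e (nat_lit 204544) (nat_lit 18) .nil))))))) (.g (nat_lit 1) (.e (nat_lit 49125) (nat_lit 0) .nil) .nil))) 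
(.lf (nat_lit 459640) (.g (nat_lit 4449) (.e (nat_lit 2798) (nat_lit 180) (.e (nat_lit 303117) (nat_lit 2) (.e (nat_lit 196666) (nat_lit 13) (.e (nat_lit 65617) (nat_lit 10) (.e (nat_lit 344117) (nat_lit 21) (.e (nat_lit 516106) (nat_lit 0) (.e (nat_lit 7008) (nat_lit 377) .nil))))))) (.g (nat_lit 1) (.e (nat_lit 50803) (nat_lit 0) .nil) .nil))))) (.nd (nat_lit 8) (.nd (nat_lit 9) 
(.lf (nat_lit 459000) (.g (nat_lit 1549) (.e (nat_lit 2725) (nat_lit 172) (.e (nat_lit 237619) (nat_lit 12) (.e (nat_lit 475198) (nat_lit 40) (.e (nat_lit 704598) (nat_lit 6) (.e (nat_lit 188455) (nat_lit 24) (.e (nat_lit 229665) (nat_lit 240) .nil)))))) (.g (nat_lit 1) (.e (nat_lit 48763) (nat_lit 0) .nil) .nil))) 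
(.lf (nat_lit 459512) (.g (nat_lit 4322) (.e (nat_lit 2797) (nat_lit 180) (.e (nat_lit 303143) (nat_lit 12) (.e (nat_lit 475185) (nat_lit 29) (.e (nat_lit 557098) (nat_lit 13) (.e (nat_lit 172104) (nat_lit 9) .nil))))) (.g (nat_lit 0) (.e (nat_lit 50267) (nat_lit 0) .nil) .nil)))) (.nd (nat_lit 9) 
(.lf (nat_lit 459256) (.g (nat_lit 2896) (.e (nat_lit 2797) (nat_lit 180) (.e (nat_lit 303117) (nat_lit 2) (.e (nat_lit 196672) (nat_lit 15) (.e (nat_lit 81954) (nat_lit 23) (.e (nat_lit 98323) (nat_lit 17) (.e (nat_lit 7936) (nat_lit 377) .nil)))))) (.g (nat_lit 1) (.e (nat_lit 49478) (nat_lit 0) .nil) .nil))) 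
(.lf (nat_lit 459768) (.g (nat_lit 2341) (.e (nat_lit 2798) (nat_lit 180) (.e (nat_lit 303119) (nat_lit 3) (.e (nat_lit 204878) (nat_lit 31) (.e (nat_lit 376865) (nat_lit 22) (.e (nat_lit 90165) (nat_lit 12) (.e (nat_lit 164210) (nat_lit 176) .nil)))))) (.g (nat_lit 1) (.e (nat_lit 51067) (nat_lit 0) .nil) .nil)))))))))) 
(.nd (nat_lit 3) (.nd (nat_lit 4) (.nd (nat_lit 5) (.nd (nat_lit 6) (.nd (nat_lit 7) 
(.nd (nat_lit 8) (.nd (nat_lit 9) 
(.lf (nat_lit 458756) (.g (nat_lit 3407) (.e (nat_lit 2725) (nat_lit 172) (.e (nat_lit 237587) (nat_lit 2) (.e (nat_lit 196666) (nat_lit 13) (.e (nat_lit 65617) (nat_lit 10) (.e (nat_lit 344133) (nat_lit 26) (.e (nat_lit 557089) (nat_lit 12) (.e (nat_lit 163849) (nat_lit 0) (.e (nat_lit 6254) (nat_lit 337) .nil)))))))) (.g (nat_lit 1) (.e (nat_lit 48368) (nat_lit 0) .nil) .nil))) 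
(.lf (nat_lit 459268) (.g (nat_lit 2851) (.e (nat_lit 2797) (nat_lit 180) (.e (nat_lit 303117) (nat_lit 2) (.e (nat_lit 196672) (nat_lit 15) (.e (nat_lit 81956) (nat_lit 23) (.e (nat_lit 98325) (nat_lit 17) (.e (nat_lit 6998) (nat_lit 377) .nil)))))) (.g (nat_lit 1) (.e (nat_lit 49490) (nat_lit 0) .nil) .nil)))) (.nd (nat_lit 9) 
(.lf (nat_lit 459012) (.g (nat_lit 2562) (.e (nat_lit 2725) (nat_lit 172) (.e (nat_lit 237619) (nat_lit 12) (.e (nat_lit 475210) (nat_lit 41) (.e (nat_lit 712753) (nat_lit 30) (.e (nat_lit 450569) (nat_lit 0) (.e (nat_lit 5448) (nat_lit 306) .nil)))))) (.g (nat_lit 1) (.e (nat_lit 48778) (nat_lit 0) .nil) .nil))) 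
(.lf (nat_lit 459524) (.g (nat_lit 4073) (.e (nat_lit 2797) (nat_lit 180) (.e (nat_lit 303143) (nat_lit 12) (.e (nat_lit 475185) (nat_lit 29) (.e (nat_lit 557100) (nat_lit 13) (.e (nat_lit 172100) (nat_lit 9) (.e (nat_lit 426125) (nat_lit 2) (.e (nat_lit 204544) (nat_lit 18) .nil))))))) (.g (nat_lit 1) (.e (nat_lit 50283) (nat_lit 0) .nil) .nil))))) (.nd (nat_lit 8) (.nd (nat_lit 9) 
(.lf (nat_lit 458884) (.g (nat_lit 1971) (.e (nat_lit 2725) (nat_lit 172) (.e (nat_lit 237593) (nat_lit 3) (.e (nat_lit 204868) (nat_lit 29) (.e (nat_lit 360473) (nat_lit 8) (.e (nat_lit 557094) (nat_lit 12) (.e (nat_lit 163847) (nat_lit 0) (.e (nat_lit 6255) (nat_lit 337) .nil))))))) (.g (nat_lit 1) (.e (nat_lit 48594) (nat_lit 0) .nil) .nil))) 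
(.lf (nat_lit 459396) (.g (nat_lit 3637) (.e (nat_lit 2797) (nat_lit 180) (.e (nat_lit 303119) (nat_lit 3) (.e (nat_lit 204865) (nat_lit 28) (.e (nat_lit 352312) (nat_lit 22) (.e (nat_lit 90165) (nat_lit 12) (.e (nat_lit 164210) (nat_lit 176) .nil)))))) (.g (nat_lit 1) (.e (nat_lit 49751) (nat_lit 0) .nil) .nil)))) (.nd (nat_lit 9) 
(.lf (nat_lit 459140) (.g (nat_lit 1606) (.e (nat_lit 2769) (nat_lit 177) (.e (nat_lit 278553) (nat_lit 10) (.e (nat_lit 5395) (nat_lit 301) (.e (nat_lit 57464) (nat_lit 23) (.e (nat_lit 516163) (nat_lit 11) (.e (nat_lit 442424) (nat_lit 22) (.e (nat_lit 204544) (nat_lit 18) .nil))))))) (.g (nat_lit 1) (.e (nat_lit 49147) (nat_lit 0) .nil) .nil))) 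
(.lf (nat_lit 459652) (.g (nat_lit 1732) (.e (nat_lit 2798) (nat_lit 180) (.e (nat_lit 303117) (nat_lit 2) (.e (nat_lit 196668) (nat_lit 14) (.e (nat_lit 73789) (nat_lit 45) .nil)))) (.g (nat_lit 0) (.e (nat_lit 50816) (nat_lit 0) .nil) .nil)))))) (.nd (nat_lit 7) (.nd (nat_lit 8) (.nd (nat_lit 9) 
(.lf (nat_lit 458820) (.g (nat_lit 4326) (.e (nat_lit 2725) (nat_lit 172) (.e (nat_lit 237589) (nat_lit 2) (.e (nat_lit 196666) (nat_lit 13) (.e (nat_lit 65617) (nat_lit 10) (.e (nat_lit 344133) (nat_lit 26) (.e (nat_lit 557091) (nat_lit 12) (.e (nat_lit 163849) (nat_lit 0) (.e (nat_lit 6254) (nat_lit 337) .nil)))))))) (.g (nat_lit 1) (.e (nat_lit 48482) (nat_lit 0) .nil) .nil))) 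
(.lf (nat_lit 459332) (.g (nat_lit 2913) (.e (nat_lit 2797) (nat_lit 180) (.e (nat_lit 303118) (nat_lit 3) (.e (nat_lit 204855) (nat_lit 26) (.e (nat_lit 336099) (nat_lit 9) (.e (nat_lit 336013) (nat_lit 2) (.e (nat_lit 98048) (nat_lit 12) (.e (nat_lit 164209) (nat_lit 176) .nil))))))) (.g (nat_lit 1) (.e (nat_lit 49562) (nat_lit 0) .nil) .nil)))) (.nd (nat_lit 9) 
(.lf (nat_lit 459076) (.g (nat_lit 3540) (.e (nat_lit 2744) (nat_lit 174) (.e (nat_lit 253991) (nat_lit 11) (.e (nat_lit 16409) (nat_lit 2) (.e (nat_lit 196666) (nat_lit 13) (.e (nat_lit 65617) (nat_lit 10) (.e (nat_lit 344132) (nat_lit 26) (.e (nat_lit 557070) (nat_lit 9) .nil))))))) (.g (nat_lit 1) (.e (nat_lit 49068) (nat_lit 0) .nil) .nil))) 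
(.lf (nat_lit 459588) (.g (nat_lit 3329) (.e (nat_lit 2797) (nat_lit 180) (.e (nat_lit 303143) (nat_lit 12) (.e (nat_lit 475211) (nat_lit 41) (.e (nat_lit 712753) (nat_lit 30) (.e (nat_lit 450595) (nat_lit 17) (.e (nat_lit 671488) (nat_lit 14) .nil)))))) (.g (nat_lit 1) (.e (nat_lit 50398) (nat_lit 0) .nil) .nil))))) (.nd (nat_lit 8) (.nd (nat_lit 9) 
(.lf (nat_lit 458948) (.g (nat_lit 2446) (.e (nat_lit 2725) (nat_lit 172) (.e (nat_lit 237594) (nat_lit 3) (.e (nat_lit 204869) (nat_lit 29) (.e (nat_lit 360474) (nat_lit 8) (.e (nat_lit 557094) (nat_lit 12) .nil))))) (.g (nat_lit 0) (.e (nat_lit 48676) (nat_lit 0) .nil) .nil))) 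
(.lf (nat_lit 459460) (.g (nat_lit 2829) (.e (nat_lit 2797) (nat_lit 180) (.e (nat_lit 303119) (nat_lit 3) (.e (nat_lit 204878) (nat_lit 31) (.e (nat_lit 376862) (nat_lit 22) (.e (nat_lit 90181) (nat_lit 16) (.e (nat_lit 237312) (nat_lit 176) .nil)))))) (.g (nat_lit 1) (.e (nat_lit 50013) (nat_lit 0) .nil) .nil)))) (.nd (nat_lit 9) 
(.lf (nat_lit 459204) (.g (nat_lit 1883) (.e (nat_lit 2797) (nat_lit 180) (.e (nat_lit 303117) (nat_lit 2) (.e (nat_lit 196664) (nat_lit 13) (.e (nat_lit 65619) (nat_lit 10) (.e (nat_lit 344117) (nat_lit 21) (.e (nat_lit 516106) (nat_lit 0) (.e (nat_lit 7008) (nat_lit 377) .nil))))))) (.g (nat_lit 1) (.e (nat_lit 49392) (nat_lit 0) .nil) .nil))) 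
(.lf (nat_lit 459716) (.g (nat_lit 3415) (.e (nat_lit 2798) (nat_lit 180) (.e (nat_lit 303119) (nat_lit 3) (.e (nat_lit 204849) (nat_lit 25) (.e (nat_lit 327699) (nat_lit 8) (.e (nat_lit 303119) (nat_lit 3) (.e (nat_lit 204815) (nat_lit 17) (.e (nat_lit 6203) (nat_lit 332) .nil))))))) (.g (nat_lit 1) (.e (nat_lit 50896) (nat_lit 0) .nil) .nil))))))) 
(.nd (nat_lit 6) (.nd (nat_lit 7) (.nd (nat_lit 8) (.nd (nat_lit 9) 
(.lf (nat_lit 458788) (.g (nat_lit 2559) (.e (nat_lit 2725) (nat_lit 172) (.e (nat_lit 237589) (nat_lit 2) (.e (nat_lit 196666) (nat_lit 13) (.e (nat_lit 65617) (nat_lit 10) (.e (nat_lit 344130) (nat_lit 26) (.e (nat_lit 557090) (nat_lit 12) (.e (nat_lit 163847) (nat_lit 0) (.e (nat_lit 6250) (nat_lit 337) .nil)))))))) (.g (nat_lit 1) (.e (nat_lit 48450) (nat_lit 0) .nil) .nil))) 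
(.lf (nat_lit 459300) (.g (nat_lit 3279) (.e (nat_lit 2797) (nat_lit 180) (.e (nat_lit 303117) (nat_lit 2) (.e (nat_lit 196674) (nat_lit 15) (.e (nat_lit 81951) (nat_lit 22) (.e (nat_lit 90165) (nat_lit 12) (.e (nat_lit 164209) (nat_lit 176) .nil)))))) (.g (nat_lit 1) (.e (nat_lit 49526) (nat_lit 0) .nil) .nil)))) (.nd (nat_lit 9) 
(.lf (nat_lit 459044) (.g (nat_lit 2729) (.e (nat_lit 2739) (nat_lit 174) (.e (nat_lit 253992) (nat_lit 11) (.e (nat_lit 16424) (nat_lit 7) (.e (nat_lit 409648) (nat_lit 18) (.e (nat_lit 303137) (nat_lit 10) (.e (nat_lit 434275) (nat_lit 39) (.e (nat_lit 663574) (nat_lit 9) .nil))))))) (.g (nat_lit 1) (.e (nat_lit 49003) (nat_lit 0) .nil) .nil))) 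
(.lf (nat_lit 459556) (.g (nat_lit 2722) (.e (nat_lit 2797) (nat_lit 180) (.e (nat_lit 303143) (nat_lit 12) (.e (nat_lit 475185) (nat_lit 29) (.e (nat_lit 557101) (nat_lit 13) (.e (nat_lit 172101) (nat_lit 9) (.e (nat_lit 426125) (nat_lit 2) (.e (nat_lit 204544) (nat_lit 18) .nil))))))) (.g (nat_lit 1) (.e (nat_lit 50325) (nat_lit 0) .nil) .nil))))) (.nd (nat_lit 8) (.nd (nat_lit 9) 
(.lf (nat_lit 458916) (.g (nat_lit 5232) (.e (nat_lit 2725) (nat_lit 172) (.e (nat_lit 237593) (nat_lit 3) (.e (nat_lit 204869) (nat_lit 29) (.e (nat_lit 360475) (nat_lit 8) (.e (nat_lit 557089) (nat_lit 12) (.e (nat_lit 163849) (nat_lit 0) (.e (nat_lit 6254) (nat_lit 337) .nil))))))) (.g (nat_lit 1) (.e (nat_lit 48629) (nat_lit 0) .nil) .nil))) 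
(.lf (nat_lit 459428) (.g (nat_lit 3150) (.e (nat_lit 2797) (nat_lit 180) (.e (nat_lit 303119) (nat_lit 3) (.e (nat_lit 204868) (nat_lit 29) (.e (nat_lit 360466) (nat_lit 3) (.e (nat_lit 516106) (nat_lit 0) .nil))))) (.g (nat_lit 0) (.e (nat_lit 49807) (nat_lit 0) .nil) .nil)))) (.nd (nat_lit 9) 
(.lf (nat_lit 459172) (.g (nat_lit 2293) (.e (nat_lit 2796) (nat_lit 180) (.e (nat_lit 303117) (nat_lit 2) (.e (nat_lit 196674) (nat_lit 15) (.e (nat_lit 81951) (nat_lit 22) .nil)))) (.g (nat_lit 0) (.e (nat_lit 49309) (nat_lit 0) .nil) .nil))) 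
(.lf (nat_lit 459684) (.g (nat_lit 3412) (.e (nat_lit 2798) (nat_lit 180) (.e (nat_lit 303117) (nat_lit 2) (.e (nat_lit 196674) (nat_lit 15) (.e (nat_lit 81953) (nat_lit 22) (.e (nat_lit 90165) (nat_lit 12) (.e (nat_lit 171776) (nat_lit 176) .nil)))))) (.g (nat_lit 1) (.e (nat_lit 50849) (nat_lit 0) .nil) .nil)))))) (.nd (nat_lit 7) (.nd (nat_lit 8) (.nd (nat_lit 9) 
(.lf (nat_lit 458852) (.g (nat_lit 2461) (.e (nat_lit 2725) (nat_lit 172) (.e (nat_lit 237590) (nat_lit 2) (.e (nat_lit 196666) (nat_lit 13) (.e (nat_lit 65617) (nat_lit 10) (.e (nat_lit 344133) (nat_lit 26) (.e (nat_lit 557091) (nat_lit 12) (.e (nat_lit 163843) (nat_lit 0) (.e (nat_lit 6252) (nat_lit 337) .nil)))))))) (.g (nat_lit 1) (.e (nat_lit 48515) (nat_lit 0) .nil) .nil))) 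
(.lf (nat_lit 459364) (.g (nat_lit 1648) (.e (nat_lit 2797) (nat_lit 180) (.e (nat_lit 303119) (nat_lit 3) (.e (nat_lit 204861) (nat_lit 26) (.e (nat_lit 336184) (nat_lit 11) .nil)))) (.g (nat_lit 0) (.e (nat_lit 49709) (nat_lit 0) .nil) .nil)))) (.nd (nat_lit 9) 
(.lf (nat_lit 459108) (.g (nat_lit 2269) (.e (nat_lit 2744) (nat_lit 174) (.e (nat_lit 253992) (nat_lit 11) (.e (nat_lit 16412) (nat_lit 2) (.e (nat_lit 196672) (nat_lit 15) (.e (nat_lit 81944) (nat_lit 20) .nil))))) (.g (nat_lit 0) (.e (nat_lit 49102) (nat_lit 0) .nil) .nil))) 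
(.lf (nat_lit 459620) (.g (nat_lit 3108) (.e (nat_lit 2798) (nat_lit 180) (.e (nat_lit 303117) (nat_lit 2) (.e (nat_lit 196666) (nat_lit 13) (.e (nat_lit 65596) (nat_lit 9) (.e (nat_lit 336013) (nat_lit 2) (.e (nat_lit 90165) (nat_lit 12) (.e (nat_lit 171776) (nat_lit 176) .nil))))))) (.g (nat_lit 1) (.e (nat_lit 50780) (nat_lit 0) .nil) .nil))))) (.nd (nat_lit 8) (.nd (nat_lit 9) 
(.lf (nat_lit 458980) (.g (nat_lit 2250) (.e (nat_lit 2725) (nat_lit 172) (.e (nat_lit 237616) (nat_lit 12) (.e (nat_lit 475210) (nat_lit 41) (.e (nat_lit 712755) (nat_lit 30) (.e (nat_lit 450568) (nat_lit 0) (.e (nat_lit 5448) (nat_lit 306) .nil)))))) (.g (nat_lit 1) (.e (nat_lit 48739) (nat_lit 0) .nil) .nil))) 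
(.lf (nat_lit 459492) (.g (nat_lit 4168) (.e (nat_lit 2797) (nat_lit 180) (.e (nat_lit 303143) (nat_lit 12) (.e (nat_lit 475183) (nat_lit 29) (.e (nat_lit 557108) (nat_lit 15) (.e (nat_lit 188449) (nat_lit 22) (.e (nat_lit 204544) (nat_lit 18) .nil)))))) (.g (nat_lit 1) (.e (nat_lit 50174) (nat_lit 0) .nil) .nil)))) (.nd (nat_lit 9) 
(.lf (nat_lit 459236) (.g (nat_lit 2677) (.e (nat_lit 2797) (nat_lit 180) (.e (nat_lit 303117) (nat_lit 2) (.e (nat_lit 196666) (nat_lit 13) (.e (nat_lit 65624) (nat_lit 12) .nil)))) (.g (nat_lit 0) (.e (nat_lit 49440) (nat_lit 0) .nil) .nil))) 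
(.lf (nat_lit 459748) (.g (nat_lit 1836) (.e (nat_lit 2798) (nat_lit 180) (.e (nat_lit 303119) (nat_lit 3) (.e (nat_lit 204869) (nat_lit 29) (.e (nat_lit 360451) (nat_lit 0) (.e (nat_lit 3994) (nat_lit 240) .nil))))) (.g (nat_lit 0) (.e (nat_lit 50994) (nat_lit 0) .nil) .nil)))))))) (.nd (nat_lit 5) (.nd (nat_lit 6) (.nd (nat_lit 7) (.nd (nat_lit 8) (.nd (nat_lit 9) 
(.lf (nat_lit 458772) (.g (nat_lit 2043) (.e (nat_lit 2725) (nat_lit 172) (.e (nat_lit 237589) (nat_lit 2) (.e (nat_lit 196666) (nat_lit 13) (.e (nat_lit 65617) (nat_lit 10) (.e (nat_lit 344127) (nat_lit 26) .nil))))) (.g (nat_lit 0) (.e (nat_lit 48434) (nat_lit 0) .nil) .nil))) 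
(.lf (nat_lit 459284) (.g (nat_lit 2324) (.e (nat_lit 2797) (nat_lit 180) (.e (nat_lit 303117) (nat_lit 2) (.e (nat_lit 196673) (nat_lit 15) (.e (nat_lit 81956) (nat_lit 23) (.e (nat_lit 98321) (nat_lit 17) .nil))))) (.g (nat_lit 0) (.e (nat_lit 49506) (nat_lit 0) .nil) .nil)))) (.nd (nat_lit 9) 
(.lf (nat_lit 459028) (.g (nat_lit 1319) (.e (nat_lit 7936) (nat_lit 172) (.e (nat_lit 237612) (nat_lit 9) (.e (nat_lit 426100) (nat_lit 1) (.e (nat_lit 164307) (nat_lit 226) (.e (nat_lit 7936) (nat_lit 96) .nil))))) (.g (nat_lit 0) (.e (nat_lit 48960) (nat_lit 0) .nil) .nil))) 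
(.lf (nat_lit 459540) (.g (nat_lit 3620) (.e (nat_lit 2797) (nat_lit 180) (.e (nat_lit 303143) (nat_lit 12) (.e (nat_lit 475185) (nat_lit 29) (.e (nat_lit 557100) (nat_lit 13) (.e (nat_lit 172113) (nat_lit 10) (.e (nat_lit 434218) (nat_lit 19) (.e (nat_lit 499774) (nat_lit 0) .nil))))))) (.g (nat_lit 1) (.e (nat_lit 50307) (nat_lit 0) .nil) .nil))))) (.nd (nat_lit 8) (.nd (nat_lit 9) 
(.lf (nat_lit 458900) (.g (nat_lit 3614) (.e (nat_lit 2725) (nat_lit 172) (.e (nat_lit 237593) (nat_lit 3) (.e (nat_lit 204869) (nat_lit 29) (.e (nat_lit 360474) (nat_lit 8) (.e (nat_lit 557091) (nat_lit 12) (.e (nat_lit 163840) (nat_lit 0) (.e (nat_lit 6254) (nat_lit 337) .nil))))))) (.g (nat_lit 1) (.e (nat_lit 48610) (nat_lit 0) .nil) .nil))) 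
(.lf (nat_lit 459412) (.g (nat_lit 2677) (.e (nat_lit 2797) (nat_lit 180) (.e (nat_lit 303119) (nat_lit 3) (.e (nat_lit 204867) (nat_lit 28) (.e (nat_lit 352315) (nat_lit 23) (.e (nat_lit 98325) (nat_lit 17) (.e (nat_lit 7936) (nat_lit 377) .nil)))))) (.g (nat_lit 1) (.e (nat_lit 49790) (nat_lit 0) .nil) .nil)))) (.nd (nat_lit 9) 
(.lf (nat_lit 459156) (.g (nat_lit 1791) (.e (nat_lit 2795) (nat_lit 180) (.e (nat_lit 303143) (nat_lit 12) (.e (nat_lit 475185) (nat_lit 29) (.e (nat_lit 557100) (nat_lit 13) (.e (nat_lit 172113) (nat_lit 10) .nil))))) (.g (nat_lit 0) (.e (nat_lit 49248) (nat_lit 0) .nil) .nil))) 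
(.lf (nat_lit 459668) (.g (nat_lit 4781) (.e (nat_lit 2798) (nat_lit 180) (.e (nat_lit 303117) (nat_lit 2) (.e (nat_lit 196673) (nat_lit 15) (.e (nat_lit 81956) (nat_lit 23) (.e (nat_lit 98320) (nat_lit 17) (.e (nat_lit 7073) (nat_lit 377) .nil)))))) (.g (nat_lit 1) (.e (nat_lit 50833) (nat_lit 0) .nil) .nil)))))) (.nd (nat_lit 7) (.nd (nat_lit 8) (.nd (nat_lit 9) 
(.lf (nat_lit 458836) (.g (nat_lit 2262) (.e (nat_lit 2725) (nat_lit 172) (.e (nat_lit 237590) (nat_lit 2) (.e (nat_lit 196666) (nat_lit 13) (.e (nat_lit 65617) (nat_lit 10) (.e (nat_lit 344130) (nat_lit 26) (.e (nat_lit 557090) (nat_lit 12) (.e (nat_lit 163844) (nat_lit 0) (.e (nat_lit 6252) (nat_lit 337) .nil)))))))) (.g (nat_lit 1) (.e (nat_lit 48499) (nat_lit 0) .nil) .nil))) 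
(.lf (nat_lit 459348) (.g (nat_lit 3507) (.e (nat_lit 2797) (nat_lit 180) (.e (nat_lit 303119) (nat_lit 3) (.e (nat_lit 204855) (nat_lit 26) (.e (nat_lit 336099) (nat_lit 9) (.e (nat_lit 336013) (nat_lit 2) (.e (nat_lit 90165) (nat_lit 12) (.e (nat_lit 164209) (nat_lit 176) .nil))))))) (.g (nat_lit 1) (.e (nat_lit 49659) (nat_lit 0) .nil) .nil)))) (.nd (nat_lit 9) 
(.lf (nat_lit 459092) (.g (nat_lit 3985) (.e (nat_lit 2744) (nat_lit 174) (.e (nat_lit 253991) (nat_lit 11) (.e (nat_lit 16416) (nat_lit 3) (.e (nat_lit 204868) (nat_lit 29) (.e (nat_lit 360473) (nat_lit 8) (.e (nat_lit 557070) (nat_lit 9) .nil)))))) (.g (nat_lit 1) (.e (nat_lit 49084) (nat_lit 0) .nil) .nil))) 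
(.lf (nat_lit 459604) (.g (nat_lit 1522) (.e (nat_lit 2798) (nat_lit 180) (.e (nat_lit 303112) (nat_lit 0) (.e (nat_lit 3252) (nat_lit 197) (.e (nat_lit 532561) (nat_lit 14) (.e (nat_lit 376862) (nat_lit 22) (.e (nat_lit 90181) (nat_lit 16) (.e (nat_lit 237312) (nat_lit 176) .nil))))))) (.g (nat_lit 1) (.e (nat_lit 50759) (nat_lit 0) .nil) .nil))))) (.nd (nat_lit 8) (.nd (nat_lit 9) 
(.lf (nat_lit 458964) (.g (nat_lit 2148) (.e (nat_lit 2725) (nat_lit 172) (.e (nat_lit 237615) (nat_lit 12) (.e (nat_lit 475199) (nat_lit 40) (.e (nat_lit 704598) (nat_lit 6) (.e (nat_lit 188455) (nat_lit 24) (.e (nat_lit 229666) (nat_lit 240) .nil)))))) (.g (nat_lit 1) (.e (nat_lit 48718) (nat_lit 0) .nil) .nil))) 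
(.lf (nat_lit 459476) (.g (nat_lit 2288) (.e (nat_lit 2797) (nat_lit 180) (.e (nat_lit 303133) (nat_lit 9) (.e (nat_lit 426412) (nat_lit 15) (.e (nat_lit 1856) (nat_lit 124) (.e (nat_lit 557100) (nat_lit 13) (.e (nat_lit 172095) (nat_lit 9) (.e (nat_lit 426125) (nat_lit 2) (.e (nat_lit 204544) (nat_lit 18) .nil)))))))) (.g (nat_lit 1) (.e (nat_lit 50058) (nat_lit 0) .nil) .nil)))) 
(.nd (nat_lit 9) 
(.lf (nat_lit 459220) (.g (nat_lit 5129) (.e (nat_lit 2797) (nat_lit 180) (.e (nat_lit 303117) (nat_lit 2) (.e (nat_lit 196666) (nat_lit 13) (.e (nat_lit 65610) (nat_lit 10) (.e (nat_lit 344117) (nat_lit 21) (.e (nat_lit 516106) (nat_lit 0) (.e (nat_lit 7014) (nat_lit 377) .nil))))))) (.g (nat_lit 1) (.e (nat_lit 49424) (nat_lit 0) .nil) .nil))) 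
(.lf (nat_lit 459732) (.g (nat_lit 2478) (.e (nat_lit 2798) (nat_lit 180) (.e (nat_lit 303119) (nat_lit 3) (.e (nat_lit 204867) (nat_lit 28) (.e (nat_lit 352312) (nat_lit 22) (.e (nat_lit 90165) (nat_lit 12) (.e (nat_lit 164207) (nat_lit 176) .nil)))))) (.g (nat_lit 1) (.e (nat_lit 50975) (nat_lit 0) .nil) .nil))))))) (.nd (nat_lit 6) (.nd (nat_lit 7) (.nd (nat_lit 8) (.nd (nat_lit 9) 
(.lf (nat_lit 458804) (.g (nat_lit 3545) (.e (nat_lit 2725) (nat_lit 172) (.e (nat_lit 237589) (nat_lit 2) (.e (nat_lit 196666) (nat_lit 13) (.e (nat_lit 65617) (nat_lit 10) (.e (nat_lit 344133) (nat_lit 26) (.e (nat_lit 557089) (nat_lit 12) (.e (nat_lit 163848) (nat_lit 0) (.e (nat_lit 6252) (nat_lit 337) .nil)))))))) (.g (nat_lit 1) (.e (nat_lit 48466) (nat_lit 0) .nil) .nil))) 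
(.lf (nat_lit 459316) (.g (nat_lit 2882) (.e (nat_lit 2797) (nat_lit 180) (.e (nat_lit 303117) (nat_lit 2) (.e (nat_lit 196674) (nat_lit 15) (.e (nat_lit 81954) (nat_lit 23) (.e (nat_lit 98325) (nat_lit 17) (.e (nat_lit 7936) (nat_lit 377) .nil)))))) (.g (nat_lit 1) (.e (nat_lit 49543) (nat_lit 0) .nil) .nil)))) (.nd (nat_lit 9) 
(.lf (nat_lit 459060) (.g (nat_lit 3737) (.e (nat_lit 2741) (nat_lit 174) (.e (nat_lit 253991) (nat_lit 11) (.e (nat_lit 16412) (nat_lit 2) (.e (nat_lit 196674) (nat_lit 15) (.e (nat_lit 81946) (nat_lit 20) (.e (nat_lit 1858) (nat_lit 124) (.e (nat_lit 557065) (nat_lit 9) .nil))))))) (.g (nat_lit 1) (.e (nat_lit 49036) (nat_lit 0) .nil) .nil))) 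
(.lf (nat_lit 459572) (.g (nat_lit 2718) (.e (nat_lit 2797) (nat_lit 180) (.e (nat_lit 303143) (nat_lit 12) (.e (nat_lit 475185) (nat_lit 29) (.e (nat_lit 557107) (nat_lit 15) (.e (nat_lit 188440) (nat_lit 20) (.e (nat_lit 3115) (nat_lit 193) (.e (nat_lit 499774) (nat_lit 0) .nil))))))) (.g (nat_lit 1) (.e (nat_lit 50360) (nat_lit 0) .nil) .nil))))) (.nd (nat_lit 8) (.nd (nat_lit 9) 
(.lf (nat_lit 458932) (.g (nat_lit 2017) (.e (nat_lit 2725) (nat_lit 172) (.e (nat_lit 237594) (nat_lit 3) (.e (nat_lit 204868) (nat_lit 29) (.e (nat_lit 360473) (nat_lit 8) (.e (nat_lit 557093) (nat_lit 12) (.e (nat_lit 163847) (nat_lit 0) (.e (nat_lit 6254) (nat_lit 337) .nil))))))) (.g (nat_lit 1) (.e (nat_lit 48652) (nat_lit 0) .nil) .nil))) 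
(.lf (nat_lit 459444) (.g (nat_lit 2957) (.e (nat_lit 2797) (nat_lit 180) (.e (nat_lit 303119) (nat_lit 3) (.e (nat_lit 204869) (nat_lit 29) (.e (nat_lit 368384) (nat_lit 1) (.e (nat_lit 499910) (nat_lit 8) (.e (nat_lit 171776) (nat_lit 176) .nil)))))) (.g (nat_lit 1) (.e (nat_lit 49879) (nat_lit 0) .nil) .nil)))) (.nd (nat_lit 9) 
(.lf (nat_lit 459188) (.g (nat_lit 3752) (.e (nat_lit 2796) (nat_lit 180) (.e (nat_lit 303143) (nat_lit 12) (.e (nat_lit 475185) (nat_lit 29) (.e (nat_lit 557109) (nat_lit 15) (.e (nat_lit 188458) (nat_lit 25) .nil))))) (.g (nat_lit 0) (.e (nat_lit 49342) (nat_lit 0) .nil) .nil))) 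
(.lf (nat_lit 459700) (.g (nat_lit 2426) (.e (nat_lit 2798) (nat_lit 180) (.e (nat_lit 303118) (nat_lit 3) (.e (nat_lit 204868) (nat_lit 29) (.e (nat_lit 360466) (nat_lit 3) (.e (nat_lit 516098) (nat_lit 0) .nil))))) (.g (nat_lit 0) (.e (nat_lit 50874) (nat_lit 0) .nil) .nil)))))) (.nd (nat_lit 7) (.nd (nat_lit 8) (.nd (nat_lit 9) 
(.lf (nat_lit 458868) (.g (nat_lit 3694) (.e (nat_lit 2725) (nat_lit 172) (.e (nat_lit 237592) (nat_lit 3) (.e (nat_lit 204869) (nat_lit 29) (.e (nat_lit 360474) (nat_lit 8) (.e (nat_lit 557091) (nat_lit 12) (.e (nat_lit 163848) (nat_lit 0) (.e (nat_lit 6252) (nat_lit 337) .nil))))))) (.g (nat_lit 1) (.e (nat_lit 48575) (nat_lit 0) .nil) .nil))) 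
(.lf (nat_lit 459380) (.g (nat_lit 3085) (.e (nat_lit 2797) (nat_lit 180) (.e (nat_lit 303119) (nat_lit 3) (.e (nat_lit 204861) (nat_lit 26) (.e (nat_lit 336186) (nat_lit 11) (.e (nat_lit 368676) (nat_lit 21) (.e (nat_lit 516105) (nat_lit 0) (.e (nat_lit 7936) (nat_lit 377) .nil))))))) (.g (nat_lit 1) (.e (nat_lit 49725) (nat_lit 0) .nil) .nil)))) (.nd (nat_lit 9) 
(.lf (nat_lit 459124) (.g (nat_lit 815) (.e (nat_lit 7936) (nat_lit 174) (.e (nat_lit 253990) (nat_lit 11) (.e (nat_lit 16465) (nat_lit 13) (.e (nat_lit 491264) (nat_lit 17) .nil)))) (.g (nat_lit 0) (.e (nat_lit 49119) (nat_lit 0) .nil) .nil))) 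
(.lf (nat_lit 459636) (.g (nat_lit 4713) (.e (nat_lit 2798) (nat_lit 180) (.e (nat_lit 303117) (nat_lit 2) (.e (nat_lit 196666) (nat_lit 13) (.e (nat_lit 65610) (nat_lit 10) (.e (nat_lit 344117) (nat_lit 21) (.e (nat_lit 516106) (nat_lit 0) (.e (nat_lit 7936) (nat_lit 377) .nil))))))) (.g (nat_lit 1) (.e (nat_lit 50799) (nat_lit 0) .nil) .nil))))) (.nd (nat_lit 8) (.nd (nat_lit 9) 
(.lf (nat_lit 458996) (.g (nat_lit 1492) (.e (nat_lit 2725) (nat_lit 172) (.e (nat_lit 237617) (nat_lit 12) (.e (nat_lit 475211) (nat_lit 41) (.e (nat_lit 712750) (nat_lit 29) (.e (nat_lit 442430) (nat_lit 24) .nil))))) (.g (nat_lit 0) (.e (nat_lit 48759) (nat_lit 0) .nil) .nil))) 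
(.lf (nat_lit 459508) (.g (nat_lit 4303) (.e (nat_lit 2797) (nat_lit 180) (.e (nat_lit 303143) (nat_lit 12) (.e (nat_lit 475185) (nat_lit 29) (.e (nat_lit 557098) (nat_lit 13) (.e (nat_lit 172099) (nat_lit 9) .nil))))) (.g (nat_lit 0) (.e (nat_lit 50263) (nat_lit 0) .nil) .nil)))) (.nd (nat_lit 9) 
(.lf (nat_lit 459252) (.g (nat_lit 1920) (.e (nat_lit 2797) (nat_lit 180) (.e (nat_lit 303117) (nat_lit 2) (.e (nat_lit 196672) (nat_lit 15) (.e (nat_lit 81954) (nat_lit 23) (.e (nat_lit 98319) (nat_lit 17) (.e (nat_lit 7936) (nat_lit 377) .nil)))))) (.g (nat_lit 1) (.e (nat_lit 49474) (nat_lit 0) .nil) .nil))) 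
(.lf (nat_lit 459764) (.g (nat_lit 2774) (.e (nat_lit 2798) (nat_lit 180) (.e (nat_lit 303119) (nat_lit 3) (.e (nat_lit 204878) (nat_lit 31) (.e (nat_lit 376862) (nat_lit 22) (.e (nat_lit 90165) (nat_lit 12) (.e (nat_lit 164210) (nat_lit 176) .nil)))))) (.g (nat_lit 1) (.e (nat_lit 51063) (nat_lit 0) .nil) .nil))))))))) 
(.nd (nat_lit 4) (.nd (nat_lit 5) (.nd (nat_lit 6) (.nd (nat_lit 7) (.nd (nat_lit 8) 
(.nd (nat_lit 9) 
(.lf (nat_lit 458764) (.g (nat_lit 3108) (.e (nat_lit 2725) (nat_lit 172) (.e (nat_lit 237588) (nat_lit 2) (.e (nat_lit 196666) (nat_lit 13) (.e (nat_lit 65610) (nat_lit 10) (.e (nat_lit 344129) (nat_lit 26) (.e (nat_lit 557090) (nat_lit 12) (.e (nat_lit 163843) (nat_lit 0) (.e (nat_lit 6254) (nat_lit 337) .nil)))))))) (.g (nat_lit 1) (.e (nat_lit 48416) (nat_lit 0) .nil) .nil))) 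
(.lf (nat_lit 459276) (.g (nat_lit 2422) (.e (nat_lit 2797) (nat_lit 180) (.e (nat_lit 303117) (nat_lit 2) (.e (nat_lit 196673) (nat_lit 15) (.e (nat_lit 81953) (nat_lit 22) (.e (nat_lit 90165) (nat_lit 12) (.e (nat_lit 164209) (nat_lit 176) .nil)))))) (.g (nat_lit 1) (.e (nat_lit 49498) (nat_lit 0) .nil) .nil)))) (.nd (nat_lit 9) 
(.lf (nat_lit 459020) (.g (nat_lit 2299) (.e (nat_lit 2725) (nat_lit 172) (.e (nat_lit 237619) (nat_lit 12) (.e (nat_lit 475211) (nat_lit 41) (.e (nat_lit 712752) (nat_lit 29) (.e (nat_lit 442430) (nat_lit 24) (.e (nat_lit 229666) (nat_lit 240) .nil)))))) (.g (nat_lit 1) (.e (nat_lit 48786) (nat_lit 0) .nil) .nil))) 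
(.lf (nat_lit 459532) (.g (nat_lit 3870) (.e (nat_lit 2797) (nat_lit 180) (.e (nat_lit 303143) (nat_lit 12) (.e (nat_lit 475185) (nat_lit 29) (.e (nat_lit 557100) (nat_lit 13) (.e (nat_lit 172106) (nat_lit 10) (.e (nat_lit 434218) (nat_lit 19) (.e (nat_lit 499774) (nat_lit 0) .nil))))))) (.g (nat_lit 1) (.e (nat_lit 50294) (nat_lit 0) .nil) .nil))))) (.nd (nat_lit 8) (.nd (nat_lit 9) 
(.lf (nat_lit 458892) (.g (nat_lit 3402) (.e (nat_lit 2725) (nat_lit 172) (.e (nat_lit 237593) (nat_lit 3) (.e (nat_lit 204869) (nat_lit 29) (.e (nat_lit 360474) (nat_lit 8) (.e (nat_lit 557089) (nat_lit 12) (.e (nat_lit 163844) (nat_lit 0) (.e (nat_lit 6250) (nat_lit 337) .nil))))))) (.g (nat_lit 1) (.e (nat_lit 48602) (nat_lit 0) .nil) .nil))) 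
(.lf (nat_lit 459404) (.g (nat_lit 2459) (.e (nat_lit 2797) (nat_lit 180) (.e (nat_lit 303119) (nat_lit 3) (.e (nat_lit 204867) (nat_lit 28) (.e (nat_lit 352310) (nat_lit 22) (.e (nat_lit 90165) (nat_lit 12) (.e (nat_lit 164210) (nat_lit 176) .nil)))))) (.g (nat_lit 1) (.e (nat_lit 49782) (nat_lit 0) .nil) .nil)))) (.nd (nat_lit 9) 
(.lf (nat_lit 459148) (.g (nat_lit 3876) (.e (nat_lit 2795) (nat_lit 180) (.e (nat_lit 303117) (nat_lit 2) (.e (nat_lit 196666) (nat_lit 13) (.e (nat_lit 65619) (nat_lit 10) (.e (nat_lit 344117) (nat_lit 21) (.e (nat_lit 516106) (nat_lit 0) (.e (nat_lit 7016) (nat_lit 377) .nil))))))) (.g (nat_lit 1) (.e (nat_lit 49229) (nat_lit 0) .nil) .nil))) 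
(.lf (nat_lit 459660) (.g (nat_lit 2380) (.e (nat_lit 2798) (nat_lit 180) (.e (nat_lit 303117) (nat_lit 2) (.e (nat_lit 196672) (nat_lit 15) (.e (nat_lit 81954) (nat_lit 23) (.e (nat_lit 98323) (nat_lit 17) .nil))))) (.g (nat_lit 0) (.e (nat_lit 50825) (nat_lit 0) .nil) .nil)))))) (.nd (nat_lit 7) (.nd (nat_lit 8) (.nd (nat_lit 9) 
(.lf (nat_lit 458828) (.g (nat_lit 2568) (.e (nat_lit 2725) (nat_lit 172) (.e (nat_lit 237590) (nat_lit 2) (.e (nat_lit 196666) (nat_lit 13) (.e (nat_lit 65617) (nat_lit 10) (.e (nat_lit 344130) (nat_lit 26) (.e (nat_lit 557089) (nat_lit 12) (.e (nat_lit 163843) (nat_lit 0) (.e (nat_lit 6254) (nat_lit 337) .nil)))))))) (.g (nat_lit 1) (.e (nat_lit 48491) (nat_lit 0) .nil) .nil))) 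
(.lf (nat_lit 459340) (.g (nat_lit 2221) (.e (nat_lit 2797) (nat_lit 180) (.e (nat_lit 303119) (nat_lit 3) (.e (nat_lit 204854) (nat_lit 26) (.e (nat_lit 336182) (nat_lit 11) .nil)))) (.g (nat_lit 0) (.e (nat_lit 49639) (nat_lit 0) .nil) .nil)))) (.nd (nat_lit 9) 
(.lf (nat_lit 459084) (.g (nat_lit 3701) (.e (nat_lit 2744) (nat_lit 174) (.e (nat_lit 253991) (nat_lit 11) (.e (nat_lit 16412) (nat_lit 2) (.e (nat_lit 196674) (nat_lit 15) (.e (nat_lit 81946) (nat_lit 20) (.e (nat_lit 1855) (nat_lit 124) (.e (nat_lit 557070) (nat_lit 9) .nil))))))) (.g (nat_lit 1) (.e (nat_lit 49076) (nat_lit 0) .nil) .nil))) 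
(.lf (nat_lit 459596) (.g (nat_lit 2674) (.e (nat_lit 2797) (nat_lit 180) (.e (nat_lit 303145) (nat_lit 13) (.e (nat_lit 483346) (nat_lit 17) (.e (nat_lit 6434) (nat_lit 343) .nil)))) (.g (nat_lit 0) (.e (nat_lit 50455) (nat_lit 0) .nil) .nil))))) (.nd (nat_lit 8) (.nd (nat_lit 9) 
(.lf (nat_lit 458956) (.g (nat_lit 2565) (.e (nat_lit 2725) (nat_lit 172) (.e (nat_lit 237594) (nat_lit 3) (.e (nat_lit 204869) (nat_lit 29) (.e (nat_lit 360475) (nat_lit 8) (.e (nat_lit 557091) (nat_lit 12) .nil))))) (.g (nat_lit 0) (.e (nat_lit 48684) (nat_lit 0) .nil) .nil))) 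
(.lf (nat_lit 459468) (.g (nat_lit 3005) (.e (nat_lit 2797) (nat_lit 180) (.e (nat_lit 303127) (nat_lit 9) (.e (nat_lit 426533) (nat_lit 28) (.e (nat_lit 344068) (nat_lit 0) (.e (nat_lit 3067) (nat_lit 190) (.e (nat_lit 483072) (nat_lit 16) .nil)))))) (.g (nat_lit 1) (.e (nat_lit 50022) (nat_lit 0) .nil) .nil)))) (.nd (nat_lit 9) 
(.lf (nat_lit 459212) (.g (nat_lit 2218) (.e (nat_lit 2797) (nat_lit 180) (.e (nat_lit 303117) (nat_lit 2) (.e (nat_lit 196666) (nat_lit 13) (.e (nat_lit 65604) (nat_lit 9) (.e (nat_lit 336013) (nat_lit 2) .nil))))) (.g (nat_lit 0) (.e (nat_lit 49416) (nat_lit 0) .nil) .nil))) 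
(.lf (nat_lit 459724) (.g (nat_lit 3710) (.e (nat_lit 2798) (nat_lit 180) (.e (nat_lit 303119) (nat_lit 3) (.e (nat_lit 204861) (nat_lit 26) (.e (nat_lit 336185) (nat_lit 11) (.e (nat_lit 368676) (nat_lit 21) (.e (nat_lit 516098) (nat_lit 0) (.e (nat_lit 7073) (nat_lit 377) .nil))))))) (.g (nat_lit 1) (.e (nat_lit 50946) (nat_lit 0) .nil) .nil))))))) 
(.nd (nat_lit 6) (.nd (nat_lit 7) (.nd (nat_lit 8) (.nd (nat_lit 9) 
(.lf (nat_lit 458796) (.g (nat_lit 2347) (.e (nat_lit 2725) (nat_lit 172) (.e (nat_lit 237589) (nat_lit 2) (.e (nat_lit 196666) (nat_lit 13) (.e (nat_lit 65617) (nat_lit 10) (.e (nat_lit 344132) (nat_lit 26) (.e (nat_lit 557094) (nat_lit 12) (.e (nat_lit 163848) (nat_lit 0) (.e (nat_lit 6255) (nat_lit 337) .nil)))))))) (.g (nat_lit 1) (.e (nat_lit 48458) (nat_lit 0) .nil) .nil))) 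
(.lf (nat_lit 459308) (.g (nat_lit 3491) (.e (nat_lit 2797) (nat_lit 180) (.e (nat_lit 303117) (nat_lit 2) (.e (nat_lit 196674) (nat_lit 15) (.e (nat_lit 81953) (nat_lit 22) (.e (nat_lit 90165) (nat_lit 12) (.e (nat_lit 164210) (nat_lit 176) .nil)))))) (.g (nat_lit 1) (.e (nat_lit 49535) (nat_lit 0) .nil) .nil)))) (.nd (nat_lit 9) 
(.lf (nat_lit 459052) (.g (nat_lit 315) (.e (nat_lit 2741) (nat_lit 174) (.e (nat_lit 253990) (nat_lit 11) (.e (nat_lit 16411) (nat_lit 2) .nil))) (.g (nat_lit 0) (.e (nat_lit 49014) (nat_lit 0) .nil) .nil))) 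
(.lf (nat_lit 459564) (.g (nat_lit 3798) (.e (nat_lit 2797) (nat_lit 180) (.e (nat_lit 303143) (nat_lit 12) (.e (nat_lit 475185) (nat_lit 29) (.e (nat_lit 557101) (nat_lit 13) (.e (nat_lit 172115) (nat_lit 10) (.e (nat_lit 434219) (nat_lit 19) (.e (nat_lit 507648) (nat_lit 0) .nil))))))) (.g (nat_lit 1) (.e (nat_lit 50341) (nat_lit 0) .nil) .nil))))) (.nd (nat_lit 8) (.nd (nat_lit 9) 
(.lf (nat_lit 458924) (.g (nat_lit 774) (.e (nat_lit 2725) (nat_lit 172) (.e (nat_lit 237594) (nat_lit 3) (.e (nat_lit 204868) (nat_lit 29) (.e (nat_lit 360473) (nat_lit 8) .nil)))) (.g (nat_lit 0) (.e (nat_lit 48641) (nat_lit 0) .nil) .nil))) 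
(.lf (nat_lit 459436) (.g (nat_lit 2833) (.e (nat_lit 2797) (nat_lit 180) (.e (nat_lit 303119) (nat_lit 3) (.e (nat_lit 204869) (nat_lit 29) (.e (nat_lit 360451) (nat_lit 0) (.e (nat_lit 3994) (nat_lit 240) (.e (nat_lit 8192) (nat_lit 0) (.e (nat_lit 4931) (nat_lit 287) .nil))))))) (.g (nat_lit 1) (.e (nat_lit 49840) (nat_lit 0) .nil) .nil)))) (.nd (nat_lit 9) 
(.lf (nat_lit 459180) (.g (nat_lit 700) (.e (nat_lit 2796) (nat_lit 180) (.e (nat_lit 303119) (nat_lit 3) (.e (nat_lit 204878) (nat_lit 31) .nil))) (.g (nat_lit 0) (.e (nat_lit 49328) (nat_lit 0) .nil) .nil))) 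
(.lf (nat_lit 459692) (.g (nat_lit 4438) (.e (nat_lit 2798) (nat_lit 180) (.e (nat_lit 303117) (nat_lit 2) (.e (nat_lit 196674) (nat_lit 15) (.e (nat_lit 81956) (nat_lit 23) (.e (nat_lit 98320) (nat_lit 17) (.e (nat_lit 7073) (nat_lit 377) .nil)))))) (.g (nat_lit 1) (.e (nat_lit 50857) (nat_lit 0) .nil) .nil)))))) (.nd (nat_lit 7) (.nd (nat_lit 8) (.nd (nat_lit 9) 
(.lf (nat_lit 458860) (.g (nat_lit 1392) (.e (nat_lit 2725) (nat_lit 172) (.e (nat_lit 237592) (nat_lit 3) (.e (nat_lit 204869) (nat_lit 29) (.e (nat_lit 360473) (nat_lit 8) .nil)))) (.g (nat_lit 0) (.e (nat_lit 48564) (nat_lit 0) .nil) .nil))) 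
(.lf (nat_lit 459372) (.g (nat_lit 4576) (.e (nat_lit 2797) (nat_lit 180) (.e (nat_lit 303119) (nat_lit 3) (.e (nat_lit 204861) (nat_lit 26) (.e (nat_lit 336185) (nat_lit 11) (.e (nat_lit 368676) (nat_lit 21) (.e (nat_lit 516098) (nat_lit 0) (.e (nat_lit 7073) (nat_lit 377) .nil))))))) (.g (nat_lit 1) (.e (nat_lit 49717) (nat_lit 0) .nil) .nil)))) (.nd (nat_lit 9) 
(.lf (nat_lit 459116) (.g (nat_lit 4422) (.e (nat_lit 2744) (nat_lit 174) (.e (nat_lit 253992) (nat_lit 11) (.e (nat_lit 16416) (nat_lit 3) (.e (nat_lit 204877) (nat_lit 31) (.e (nat_lit 376855) (nat_lit 20) (.e (nat_lit 1856) (nat_lit 124) (.e (nat_lit 557070) (nat_lit 9) .nil))))))) (.g (nat_lit 1) (.e (nat_lit 49110) (nat_lit 0) .nil) .nil))) 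
(.lf (nat_lit 459628) (.g (nat_lit 3525) (.e (nat_lit 2798) (nat_lit 180) (.e (nat_lit 303117) (nat_lit 2) (.e (nat_lit 196666) (nat_lit 13) (.e (nat_lit 65604) (nat_lit 9) (.e (nat_lit 336013) (nat_lit 2) (.e (nat_lit 90165) (nat_lit 12) (.e (nat_lit 164210) (nat_lit 176) .nil))))))) (.g (nat_lit 1) (.e (nat_lit 50788) (nat_lit 0) .nil) .nil))))) (.nd (nat_lit 8) (.nd (nat_lit 9) 
(.lf (nat_lit 458988) (.g (nat_lit 2323) (.e (nat_lit 2725) (nat_lit 172) (.e (nat_lit 237616) (nat_lit 12) (.e (nat_lit 475211) (nat_lit 41) (.e (nat_lit 712755) (nat_lit 30) (.e (nat_lit 450568) (nat_lit 0) (.e (nat_lit 5448) (nat_lit 306) .nil)))))) (.g (nat_lit 1) (.e (nat_lit 48748) (nat_lit 0) .nil) .nil))) 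
(.lf (nat_lit 459500) (.g (nat_lit 3553) (.e (nat_lit 2797) (nat_lit 180) (.e (nat_lit 303143) (nat_lit 12) (.e (nat_lit 475185) (nat_lit 29) (.e (nat_lit 557097) (nat_lit 13) .nil)))) (.g (nat_lit 0) (.e (nat_lit 50255) (nat_lit 0) .nil) .nil)))) (.nd (nat_lit 9) 
(.lf (nat_lit 459244) (.g (nat_lit 3094) (.e (nat_lit 2797) (nat_lit 180) (.e (nat_lit 303117) (nat_lit 2) (.e (nat_lit 196672) (nat_lit 15) (.e (nat_lit 81951) (nat_lit 22) (.e (nat_lit 90165) (nat_lit 12) (.e (nat_lit 171776) (nat_lit 176) .nil)))))) (.g (nat_lit 1) (.e (nat_lit 49466) (nat_lit 0) .nil) .nil))) 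
(.lf (nat_lit 459756) (.g (nat_lit 1037) (.e (nat_lit 2798) (nat_lit 180) (.e (nat_lit 303119) (nat_lit 3) (.e (nat_lit 204875) (nat_lit 31) (.e (nat_lit 376864) (nat_lit 22) (.e (nat_lit 90165) (nat_lit 12) .nil))))) (.g (nat_lit 0) (.e (nat_lit 51055) (nat_lit 0) .nil) .nil)))))))) (.nd (nat_lit 5) (.nd (nat_lit 6) (.nd (nat_lit 7) (.nd (nat_lit 8) (.nd (nat_lit 9) 
(.lf (nat_lit 458780) (.g (nat_lit 2993) (.e (nat_lit 2725) (nat_lit 172) (.e (nat_lit 237589) (nat_lit 2) (.e (nat_lit 196666) (nat_lit 13) (.e (nat_lit 65617) (nat_lit 10) (.e (nat_lit 344130) (nat_lit 26) (.e (nat_lit 557089) (nat_lit 12) (.e (nat_lit 163844) (nat_lit 0) (.e (nat_lit 6252) (nat_lit 337) .nil)))))))) (.g (nat_lit 1) (.e (nat_lit 48442) (nat_lit 0) .nil) .nil))) 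
(.lf (nat_lit 459292) (.g (nat_lit 304) (.e (nat_lit 2797) (nat_lit 180) (.e (nat_lit 303117) (nat_lit 2) (.e (nat_lit 196674) (nat_lit 15) .nil))) (.g (nat_lit 0) (.e (nat_lit 49514) (nat_lit 0) .nil) .nil)))) (.nd (nat_lit 9) 
(.lf (nat_lit 459036) (.g (nat_lit 1030) (.e (nat_lit 2739) (nat_lit 174) (.e (nat_lit 253990) (nat_lit 11) (.e (nat_lit 16415) (nat_lit 3) (.e (nat_lit 212736) (nat_lit 29) .nil)))) (.g (nat_lit 0) (.e (nat_lit 48989) (nat_lit 0) .nil) .nil))) 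
(.lf (nat_lit 459548) (.g (nat_lit 3270) (.e (nat_lit 2797) (nat_lit 180) (.e (nat_lit 303143) (nat_lit 12) (.e (nat_lit 475185) (nat_lit 29) (.e (nat_lit 557100) (nat_lit 13) (.e (nat_lit 172113) (nat_lit 10) (.e (nat_lit 442112) (nat_lit 19) (.e (nat_lit 507648) (nat_lit 0) .nil))))))) (.g (nat_lit 1) (.e (nat_lit 50317) (nat_lit 0) .nil) .nil))))) (.nd (nat_lit 8) (.nd (nat_lit 9) 
(.lf (nat_lit 458908) (.g (nat_lit 3686) (.e (nat_lit 2725) (nat_lit 172) (.e (nat_lit 237593) (nat_lit 3) (.e (nat_lit 204869) (nat_lit 29) (.e (nat_lit 360474) (nat_lit 8) (.e (nat_lit 557094) (nat_lit 12) (.e (nat_lit 163849) (nat_lit 0) (.e (nat_lit 6254) (nat_lit 337) .nil))))))) (.g (nat_lit 1) (.e (nat_lit 48621) (nat_lit 0) .nil) .nil))) 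
(.lf (nat_lit 459420) (.g (nat_lit 4005) (.e (nat_lit 2797) (nat_lit 180) (.e (nat_lit 303119) (nat_lit 3) (.e (nat_lit 204868) (nat_lit 29) (.e (nat_lit 360466) (nat_lit 3) (.e (nat_lit 516097) (nat_lit 0) (.e (nat_lit 7936) (nat_lit 377) .nil)))))) (.g (nat_lit 1) (.e (nat_lit 49799) (nat_lit 0) .nil) .nil)))) (.nd (nat_lit 9) 
(.lf (nat_lit 459164) (.g (nat_lit 2089) (.e (nat_lit 2796) (nat_lit 180) (.e (nat_lit 303116) (nat_lit 2) (.e (nat_lit 196666) (nat_lit 13) (.e (nat_lit 65610) (nat_lit 10) (.e (nat_lit 344117) (nat_lit 21) (.e (nat_lit 516106) (nat_lit 0) (.e (nat_lit 7016) (nat_lit 377) .nil))))))) (.g (nat_lit 1) (.e (nat_lit 49300) (nat_lit 0) .nil) .nil))) 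
(.lf (nat_lit 459676) (.g (nat_lit 2996) (.e (nat_lit 2798) (nat_lit 180) (.e (nat_lit 303117) (nat_lit 2) (.e (nat_lit 196674) (nat_lit 15) (.e (nat_lit 81951) (nat_lit 22) (.e (nat_lit 90165) (nat_lit 12) (.e (nat_lit 171776) (nat_lit 176) .nil)))))) (.g (nat_lit 1) (.e (nat_lit 50841) (nat_lit 0) .nil) .nil)))))) (.nd (nat_lit 7) (.nd (nat_lit 8) (.nd (nat_lit 9) 
(.lf (nat_lit 458844) (.g (nat_lit 3352) (.e (nat_lit 2725) (nat_lit 172) (.e (nat_lit 237590) (nat_lit 2) (.e (nat_lit 196666) (nat_lit 13) (.e (nat_lit 65617) (nat_lit 10) (.e (nat_lit 344132) (nat_lit 26) (.e (nat_lit 557093) (nat_lit 12) (.e (nat_lit 163849) (nat_lit 0) (.e (nat_lit 6255) (nat_lit 337) .nil)))))))) (.g (nat_lit 1) (.e (nat_lit 48507) (nat_lit 0) .nil) .nil))) 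
(.lf (nat_lit 459356) (.g (nat_lit 605) (.e (nat_lit 2797) (nat_lit 180) (.e (nat_lit 303119) (nat_lit 3) (.e (nat_lit 204856) (nat_lit 26) .nil))) (.g (nat_lit 0) (.e (nat_lit 49695) (nat_lit 0) .nil) .nil)))) (.nd (nat_lit 9) 
(.lf (nat_lit 459100) (.g (nat_lit 3275) (.e (nat_lit 2744) (nat_lit 174) (.e (nat_lit 253991) (nat_lit 11) (.e (nat_lit 16473) (nat_lit 14) (.e (nat_lit 491556) (nat_lit 9) (.e (nat_lit 336335) (nat_lit 20) .nil))))) (.g (nat_lit 0) (.e (nat_lit 49093) (nat_lit 0) .nil) .nil))) 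
(.lf (nat_lit 459612) (.g (nat_lit 442) (.e (nat_lit 2798) (nat_lit 180) (.e (nat_lit 303117) (nat_lit 2) (.e (nat_lit 196665) (nat_lit 13) .nil))) (.g (nat_lit 0) (.e (nat_lit 50770) (nat_lit 0) .nil) .nil))))) (.nd (nat_lit 8) (.nd (nat_lit 9) 
(.lf (nat_lit 458972) (.g (nat_lit 1451) (.e (nat_lit 2725) (nat_lit 172) (.e (nat_lit 237616) (nat_lit 12) (.e (nat_lit 475198) (nat_lit 40) (.e (nat_lit 704599) (nat_lit 6) (.e (nat_lit 188455) (nat_lit 24) (.e (nat_lit 229666) (nat_lit 240) .nil)))))) (.g (nat_lit 1) (.e (nat_lit 48730) (nat_lit 0) .nil) .nil))) 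
(.lf (nat_lit 459484) (.g (nat_lit 241) (.e (nat_lit 2797) (nat_lit 180) (.e (nat_lit 303133) (nat_lit 9) (.e (nat_lit 426499) (nat_lit 27) .nil))) (.g (nat_lit 0) (.e (nat_lit 50070) (nat_lit 0) .nil) .nil)))) (.nd (nat_lit 9) 
(.lf (nat_lit 459228) (.g (nat_lit 5904) (.e (nat_lit 2797) (nat_lit 180) (.e (nat_lit 303117) (nat_lit 2) (.e (nat_lit 196666) (nat_lit 13) (.e (nat_lit 65617) (nat_lit 10) (.e (nat_lit 344133) (nat_lit 26) (.e (nat_lit 557084) (nat_lit 10) (.e (nat_lit 16128) (nat_lit 225) .nil))))))) (.g (nat_lit 1) (.e (nat_lit 49432) (nat_lit 0) .nil) .nil))) 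
(.lf (nat_lit 459740) (.g (nat_lit 2631) (.e (nat_lit 2798) (nat_lit 180) (.e (nat_lit 303119) (nat_lit 3) (.e (nat_lit 204868) (nat_lit 29) (.e (nat_lit 360466) (nat_lit 3) (.e (nat_lit 516096) (nat_lit 0) .nil))))) (.g (nat_lit 0) (.e (nat_lit 50983) (nat_lit 0) .nil) .nil))))))) (.nd (nat_lit 6) (.nd (nat_lit 7) (.nd (nat_lit 8) (.nd (nat_lit 9) 
(.lf (nat_lit 458812) (.g (nat_lit 5687) (.e (nat_lit 2725) (nat_lit 172) (.e (nat_lit 237589) (nat_lit 2) (.e (nat_lit 196666) (nat_lit 13) (.e (nat_lit 65617) (nat_lit 10) (.e (nat_lit 344133) (nat_lit 26) (.e (nat_lit 557091) (nat_lit 12) (.e (nat_lit 163843) (nat_lit 0) (.e (nat_lit 6255) (nat_lit 337) .nil)))))))) (.g (nat_lit 1) (.e (nat_lit 48474) (nat_lit 0) .nil) .nil))) 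
(.lf (nat_lit 459324) (.g (nat_lit 3304) (.e (nat_lit 2797) (nat_lit 180) (.e (nat_lit 303117) (nat_lit 2) (.e (nat_lit 196674) (nat_lit 15) (.e (nat_lit 81956) (nat_lit 23) (.e (nat_lit 98320) (nat_lit 17) .nil))))) (.g (nat_lit 0) (.e (nat_lit 49551) (nat_lit 0) .nil) .nil)))) (.nd (nat_lit 9) 
(.lf (nat_lit 459068) (.g (nat_lit 2369) (.e (nat_lit 2742) (nat_lit 174) (.e (nat_lit 253991) (nat_lit 11) (.e (nat_lit 16425) (nat_lit 7) (.e (nat_lit 409648) (nat_lit 18) (.e (nat_lit 303137) (nat_lit 10) .nil))))) (.g (nat_lit 0) (.e (nat_lit 49046) (nat_lit 0) .nil) .nil))) 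
(.lf (nat_lit 459580) (.g (nat_lit 7548) (.e (nat_lit 2797) (nat_lit 180) (.e (nat_lit 303143) (nat_lit 12) (.e (nat_lit 475185) (nat_lit 29) (.e (nat_lit 557108) (nat_lit 15) (.e (nat_lit 188449) (nat_lit 22) (.e (nat_lit 204544) (nat_lit 18) .nil)))))) (.g (nat_lit 1) (.e (nat_lit 50370) (nat_lit 0) .nil) .nil))))) (.nd (nat_lit 8) (.nd (nat_lit 9) 
(.lf (nat_lit 458940) (.g (nat_lit 3894) (.e (nat_lit 2725) (nat_lit 172) (.e (nat_lit 237594) (nat_lit 3) (.e (nat_lit 204869) (nat_lit 29) (.e (nat_lit 360474) (nat_lit 8) (.e (nat_lit 557091) (nat_lit 12) (.e (nat_lit 163840) (nat_lit 0) (.e (nat_lit 6255) (nat_lit 337) .nil))))))) (.g (nat_lit 1) (.e (nat_lit 48665) (nat_lit 0) .nil) .nil))) 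
(.lf (nat_lit 459452) (.g (nat_lit 3139) (.e (nat_lit 2797) (nat_lit 180) (.e (nat_lit 303119) (nat_lit 3) (.e (nat_lit 204870) (nat_lit 29) (.e (nat_lit 368384) (nat_lit 1) (.e (nat_lit 499910) (nat_lit 8) (.e (nat_lit 171776) (nat_lit 176) .nil)))))) (.g (nat_lit 1) (.e (nat_lit 49996) (nat_lit 0) .nil) .nil)))) (.nd (nat_lit 9) 
(.lf (nat_lit 459196) (.g (nat_lit 4053) (.e (nat_lit 2797) (nat_lit 180) (.e (nat_lit 303116) (nat_lit 2) (.e (nat_lit 196666) (nat_lit 13) (.e (nat_lit 65610) (nat_lit 10) (.e (nat_lit 344117) (nat_lit 21) (.e (nat_lit 516106) (nat_lit 0) (.e (nat_lit 7936) (nat_lit 377) .nil))))))) (.g (nat_lit 1) (.e (nat_lit 49384) (nat_lit 0) .nil) .nil))) 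
(.lf (nat_lit 459708) (.g (nat_lit 2330) (.e (nat_lit 2798) (nat_lit 180) (.e (nat_lit 303119) (nat_lit 3) (.e (nat_lit 204838) (nat_lit 20) (.e (nat_lit 114716) (nat_lit 22) (.e (nat_lit 98048) (nat_lit 0) (.e (nat_lit 1529) (nat_lit 109) (.e (nat_lit 344133) (nat_lit 26) (.e (nat_lit 557119) (nat_lit 18) .nil)))))))) (.g (nat_lit 1) (.e (nat_lit 50886) (nat_lit 0) .nil) .nil)))))) 
(.nd (nat_lit 7) (.nd (nat_lit 8) (.nd (nat_lit 9) 
(.lf (nat_lit 458876) (.g (nat_lit 3413) (.e (nat_lit 2725) (nat_lit 172) (.e (nat_lit 237592) (nat_lit 3) (.e (nat_lit 204869) (nat_lit 29) (.e (nat_lit 360475) (nat_lit 8) (.e (nat_lit 557091) (nat_lit 12) (.e (nat_lit 163849) (nat_lit 0) (.e (nat_lit 6254) (nat_lit 337) .nil))))))) (.g (nat_lit 1) (.e (nat_lit 48583) (nat_lit 0) .nil) .nil))) 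
(.lf (nat_lit 459388) (.g (nat_lit 2849) (.e (nat_lit 2797) (nat_lit 180) (.e (nat_lit 303119) (nat_lit 3) (.e (nat_lit 212736) (nat_lit 26) (.e (nat_lit 336158) (nat_lit 9) (.e (nat_lit 336021) (nat_lit 3) (.e (nat_lit 98331) (nat_lit 17) (.e (nat_lit 7936) (nat_lit 377) .nil))))))) (.g (nat_lit 1) (.e (nat_lit 49733) (nat_lit 0) .nil) .nil)))) (.nd (nat_lit 9) 
(.lf (nat_lit 459132) (.g (nat_lit 1858) (.e (nat_lit 2757) (nat_lit 176) (.e (nat_lit 270354) (nat_lit 8) (.e (nat_lit 303145) (nat_lit 13) (.e (nat_lit 483405) (nat_lit 26) (.e (nat_lit 385095) (nat_lit 49) (.e (nat_lit 778513) (nat_lit 14) .nil)))))) (.g (nat_lit 1) (.e (nat_lit 49131) (nat_lit 0) .nil) .nil))) 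
(.lf (nat_lit 459644) (.g (nat_lit 2205) (.e (nat_lit 2798) (nat_lit 180) (.e (nat_lit 303117) (nat_lit 2) (.e (nat_lit 196666) (nat_lit 13) (.e (nat_lit 65619) (nat_lit 10) .nil)))) (.g (nat_lit 0) (.e (nat_lit 50807) (nat_lit 0) .nil) .nil))))) (.nd (nat_lit 8) (.nd (nat_lit 9) 
(.lf (nat_lit 459004) (.g (nat_lit 1794) (.e (nat_lit 2725) (nat_lit 172) (.e (nat_lit 237619) (nat_lit 12) (.e (nat_lit 475209) (nat_lit 41) (.e (nat_lit 712750) (nat_lit 29) (.e (nat_lit 442430) (nat_lit 24) (.e (nat_lit 229665) (nat_lit 240) .nil)))))) (.g (nat_lit 1) (.e (nat_lit 48768) (nat_lit 0) .nil) .nil))) 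
(.lf (nat_lit 459516) (.g (nat_lit 3406) (.e (nat_lit 2797) (nat_lit 180) (.e (nat_lit 303143) (nat_lit 12) (.e (nat_lit 475185) (nat_lit 29) (.e (nat_lit 557100) (nat_lit 13) (.e (nat_lit 172088) (nat_lit 9) (.e (nat_lit 426113) (nat_lit 2) (.e (nat_lit 204544) (nat_lit 18) .nil))))))) (.g (nat_lit 1) (.e (nat_lit 50275) (nat_lit 0) .nil) .nil)))) (.nd (nat_lit 9) 
(.lf (nat_lit 459260) (.g (nat_lit 2617) (.e (nat_lit 2797) (nat_lit 180) (.e (nat_lit 303117) (nat_lit 2) (.e (nat_lit 196672) (nat_lit 15) (.e (nat_lit 81954) (nat_lit 23) (.e (nat_lit 98325) (nat_lit 17) (.e (nat_lit 7014) (nat_lit 377) .nil)))))) (.g (nat_lit 1) (.e (nat_lit 49482) (nat_lit 0) .nil) .nil))) 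
(.lf (nat_lit 459772) (.g (nat_lit 202) (.e (nat_lit 2798) (nat_lit 180) (.e (nat_lit 303133) (nat_lit 9) (.e (nat_lit 426412) (nat_lit 15) .nil))) (.g (nat_lit 0) (.e (nat_lit 51149) (nat_lit 0) .nil) .nil))))))))))) (.nd (nat_lit 2) (.nd (nat_lit 3) (.nd (nat_lit 4) (.nd (nat_lit 5) (.nd (nat_lit 6) (.nd (nat_lit 7) (.nd (nat_lit 8) (.nd (nat_lit 9) 
(.lf (nat_lit 458754) (.g (nat_lit 3654) (.e (nat_lit 2725) (nat_lit 172) (.e (nat_lit 237587) (nat_lit 2) (.e (nat_lit 196666) (nat_lit 13) (.e (nat_lit 65617) (nat_lit 10) (.e (nat_lit 344133) (nat_lit 26) (.e (nat_lit 557089) (nat_lit 12) (.e (nat_lit 163844) (nat_lit 0) (.e (nat_lit 6255) (nat_lit 337) .nil)))))))) (.g (nat_lit 1) (.e (nat_lit 48366) (nat_lit 0) .nil) .nil))) 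
(.lf (nat_lit 459266) (.g (nat_lit 4594) (.e (nat_lit 2797) (nat_lit 180) (.e (nat_lit 303117) (nat_lit 2) (.e (nat_lit 196672) (nat_lit 15) (.e (nat_lit 81956) (nat_lit 23) (.e (nat_lit 98320) (nat_lit 17) (.e (nat_lit 7073) (nat_lit 377) .nil)))))) (.g (nat_lit 1) (.e (nat_lit 49488) (nat_lit 0) .nil) .nil)))) (.nd (nat_lit 9) 
(.lf (nat_lit 459010) (.g (nat_lit 2370) (.e (nat_lit 2725) (nat_lit 172) (.e (nat_lit 237619) (nat_lit 12) (.e (nat_lit 475210) (nat_lit 41) (.e (nat_lit 712752) (nat_lit 29) (.e (nat_lit 442430) (nat_lit 24) (.e (nat_lit 229666) (nat_lit 240) .nil)))))) (.g (nat_lit 1) (.e (nat_lit 48776) (nat_lit 0) .nil) .nil))) 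
(.lf (nat_lit 459522) (.g (nat_lit 2893) (.e (nat_lit 2797) (nat_lit 180) (.e (nat_lit 303143) (nat_lit 12) (.e (nat_lit 475185) (nat_lit 29) (.e (nat_lit 557100) (nat_lit 13) (.e (nat_lit 172095) (nat_lit 9) .nil))))) (.g (nat_lit 0) (.e (nat_lit 50281) (nat_lit 0) .nil) .nil))))) (.nd (nat_lit 8) (.nd (nat_lit 9) 
(.lf (nat_lit 458882) (.g (nat_lit 2766) (.e (nat_lit 2725) (nat_lit 172) (.e (nat_lit 237593) (nat_lit 3) (.e (nat_lit 204868) (nat_lit 29) (.e (nat_lit 360473) (nat_lit 8) (.e (nat_lit 557091) (nat_lit 12) (.e (nat_lit 163847) (nat_lit 0) (.e (nat_lit 6254) (nat_lit 337) .nil))))))) (.g (nat_lit 1) (.e (nat_lit 48590) (nat_lit 0) .nil) .nil))) 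
(.lf (nat_lit 459394) (.g (nat_lit 3706) (.e (nat_lit 2797) (nat_lit 180) (.e (nat_lit 303119) (nat_lit 3) (.e (nat_lit 204865) (nat_lit 28) (.e (nat_lit 352312) (nat_lit 22) (.e (nat_lit 90165) (nat_lit 12) (.e (nat_lit 164207) (nat_lit 176) .nil)))))) (.g (nat_lit 1) (.e (nat_lit 49749) (nat_lit 0) .nil) .nil)))) (.nd (nat_lit 9) 
(.lf (nat_lit 459138) (.g (nat_lit 1577) (.e (nat_lit 2769) (nat_lit 177) (.e (nat_lit 278552) (nat_lit 10) (.e (nat_lit 5395) (nat_lit 301) (.e (nat_lit 57464) (nat_lit 23) (.e (nat_lit 516163) (nat_lit 11) (.e (nat_lit 442424) (nat_lit 22) (.e (nat_lit 204544) (nat_lit 18) .nil))))))) (.g (nat_lit 1) (.e (nat_lit 49145) (nat_lit 0) .nil) .nil))) 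
(.lf (nat_lit 459650) (.g (nat_lit 3837) (.e (nat_lit 2798) (nat_lit 180) (.e (nat_lit 303117) (nat_lit 2) (.e (nat_lit 196666) (nat_lit 13) (.e (nat_lit 65628) (nat_lit 14) (.e (nat_lit 401428) (nat_lit 3) (.e (nat_lit 204816) (nat_lit 17) (.e (nat_lit 6203) (nat_lit 332) .nil))))))) (.g (nat_lit 1) (.e (nat_lit 50813) (nat_lit 0) .nil) .nil)))))) 
(.nd (nat_lit 7) (.nd (nat_lit 8) (.nd (nat_lit 9) 
(.lf (nat_lit 458818) (.g (nat_lit 3990) (.e (nat_lit 2725) (nat_lit 172) (.e (nat_lit 237589) (nat_lit 2) (.e (nat_lit 196666) (nat_lit 13) (.e (nat_lit 65617) (nat_lit 10) (.e (nat_lit 344133) (nat_lit 26) (.e (nat_lit 557091) (nat_lit 12) (.e (nat_lit 163847) (nat_lit 0) (.e (nat_lit 6252) (nat_lit 337) .nil)))))))) (.g (nat_lit 1) (.e (nat_lit 48480) (nat_lit 0) .nil) .nil))) 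
(.lf (nat_lit 459330) (.g (nat_lit 3228) (.e (nat_lit 2797) (nat_lit 180) (.e (nat_lit 303117) (nat_lit 2) (.e (nat_lit 196674) (nat_lit 15) (.e (nat_lit 81956) (nat_lit 23) (.e (nat_lit 98325) (nat_lit 17) (.e (nat_lit 7016) (nat_lit 377) .nil)))))) (.g (nat_lit 1) (.e (nat_lit 49557) (nat_lit 0) .nil) .nil)))) (.nd (nat_lit 9) 
(.lf (nat_lit 459074) (.g (nat_lit 3690) (.e (nat_lit 2744) (nat_lit 174) (.e (nat_lit 253991) (nat_lit 11) (.e (nat_lit 16409) (nat_lit 2) (.e (nat_lit 196666) (nat_lit 13) (.e (nat_lit 65610) (nat_lit 10) (.e (nat_lit 344129) (nat_lit 26) (.e (nat_lit 557064) (nat_lit 9) .nil))))))) (.g (nat_lit 1) (.e (nat_lit 49066) (nat_lit 0) .nil) .nil))) 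
(.lf (nat_lit 459586) (.g (nat_lit 3126) (.e (nat_lit 2797) (nat_lit 180) (.e (nat_lit 303143) (nat_lit 12) (.e (nat_lit 475207) (nat_lit 41) (.e (nat_lit 712755) (nat_lit 30) (.e (nat_lit 450597) (nat_lit 17) (.e (nat_lit 663589) (nat_lit 14) .nil)))))) (.g (nat_lit 1) (.e (nat_lit 50393) (nat_lit 0) .nil) .nil))))) (.nd (nat_lit 8) (.nd (nat_lit 9) 
(.lf (nat_lit 458946) (.g (nat_lit 2721) (.e (nat_lit 2725) (nat_lit 172) (.e (nat_lit 237594) (nat_lit 3) (.e (nat_lit 204869) (nat_lit 29) (.e (nat_lit 360474) (nat_lit 8) (.e (nat_lit 557093) (nat_lit 12) (.e (nat_lit 163849) (nat_lit 0) (.e (nat_lit 6252) (nat_lit 337) .nil))))))) (.g (nat_lit 1) (.e (nat_lit 48674) (nat_lit 0) .nil) .nil))) 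
(.lf (nat_lit 459458) (.g (nat_lit 2556) (.e (nat_lit 2797) (nat_lit 180) (.e (nat_lit 303119) (nat_lit 3) (.e (nat_lit 204878) (nat_lit 31) (.e (nat_lit 376862) (nat_lit 22) (.e (nat_lit 90165) (nat_lit 12) (.e (nat_lit 164209) (nat_lit 176) .nil)))))) (.g (nat_lit 1) (.e (nat_lit 50011) (nat_lit 0) .nil) .nil)))) (.nd (nat_lit 9) 
(.lf (nat_lit 459202) (.g (nat_lit 415) (.e (nat_lit 2797) (nat_lit 180) (.e (nat_lit 303117) (nat_lit 2) (.e (nat_lit 196664) (nat_lit 13) .nil))) (.g (nat_lit 0) (.e (nat_lit 49390) (nat_lit 0) .nil) .nil))) 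
(.lf (nat_lit 459714) (.g (nat_lit 2467) (.e (nat_lit 2798) (nat_lit 180) (.e (nat_lit 303119) (nat_lit 3) (.e (nat_lit 204849) (nat_lit 25) (.e (nat_lit 327698) (nat_lit 8) (.e (nat_lit 303119) (nat_lit 3) (.e (nat_lit 204815) (nat_lit 17) (.e (nat_lit 6203) (nat_lit 332) .nil))))))) (.g (nat_lit 1) (.e (nat_lit 50894) (nat_lit 0) .nil) .nil))))))) 
(.nd (nat_lit 6) (.nd (nat_lit 7) (.nd (nat_lit 8) (.nd (nat_lit 9) 
(.lf (nat_lit 458786) (.g (nat_lit 5063) (.e (nat_lit 2725) (nat_lit 172) (.e (nat_lit 237589) (nat_lit 2) (.e (nat_lit 196666) (nat_lit 13) (.e (nat_lit 65617) (nat_lit 10) (.e (nat_lit 344130) (nat_lit 26) (.e (nat_lit 557090) (nat_lit 12) (.e (nat_lit 163844) (nat_lit 0) (.e (nat_lit 6254) (nat_lit 337) .nil)))))))) (.g (nat_lit 1) (.e (nat_lit 48448) (nat_lit 0) .nil) .nil))) 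
(.lf (nat_lit 459298) (.g (nat_lit 4234) (.e (nat_lit 2797) (nat_lit 180) (.e (nat_lit 303117) (nat_lit 2) (.e (nat_lit 196674) (nat_lit 15) (.e (nat_lit 81946) (nat_lit 20) (.e (nat_lit 1858) (nat_lit 124) (.e (nat_lit 557084) (nat_lit 10) (.e (nat_lit 16128) (nat_lit 225) .nil))))))) (.g (nat_lit 1) (.e (nat_lit 49521) (nat_lit 0) .nil) .nil)))) (.nd (nat_lit 9) 
(.lf (nat_lit 459042) (.g (nat_lit 4447) (.e (nat_lit 2739) (nat_lit 174) (.e (nat_lit 253991) (nat_lit 11) (.e (nat_lit 16425) (nat_lit 7) (.e (nat_lit 409648) (nat_lit 18) (.e (nat_lit 303137) (nat_lit 10) (.e (nat_lit 434275) (nat_lit 39) (.e (nat_lit 663580) (nat_lit 9) .nil))))))) (.g (nat_lit 1) (.e (nat_lit 49000) (nat_lit 0) .nil) .nil))) 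
(.lf (nat_lit 459554) (.g (nat_lit 2409) (.e (nat_lit 2797) (nat_lit 180) (.e (nat_lit 303143) (nat_lit 12) (.e (nat_lit 475185) (nat_lit 29) (.e (nat_lit 557101) (nat_lit 13) (.e (nat_lit 172100) (nat_lit 9) (.e (nat_lit 426120) (nat_lit 2) (.e (nat_lit 204544) (nat_lit 18) .nil))))))) (.g (nat_lit 1) (.e (nat_lit 50323) (nat_lit 0) .nil) .nil))))) (.nd (nat_lit 8) (.nd (nat_lit 9) 
(.lf (nat_lit 458914) (.g (nat_lit 3515) (.e (nat_lit 2725) (nat_lit 172) (.e (nat_lit 237593) (nat_lit 3) (.e (nat_lit 204869) (nat_lit 29) (.e (nat_lit 360475) (nat_lit 8) (.e (nat_lit 557089) (nat_lit 12) (.e (nat_lit 163849) (nat_lit 0) (.e (nat_lit 6250) (nat_lit 337) .nil))))))) (.g (nat_lit 1) (.e (nat_lit 48627) (nat_lit 0) .nil) .nil))) 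
(.lf (nat_lit 459426) (.g (nat_lit 3887) (.e (nat_lit 2797) (nat_lit 180) (.e (nat_lit 303119) (nat_lit 3) (.e (nat_lit 204868) (nat_lit 29) (.e (nat_lit 360466) (nat_lit 3) (.e (nat_lit 516104) (nat_lit 0) (.e (nat_lit 7936) (nat_lit 377) .nil)))))) (.g (nat_lit 1) (.e (nat_lit 49805) (nat_lit 0) .nil) .nil)))) (.nd (nat_lit 9) 
(.lf (nat_lit 459170) (.g (nat_lit 2399) (.e (nat_lit 2796) (nat_lit 180) (.e (nat_lit 303117) (nat_lit 2) (.e (nat_lit 196672) (nat_lit 15) (.e (nat_lit 81953) (nat_lit 22) .nil)))) (.g (nat_lit 0) (.e (nat_lit 49307) (nat_lit 0) .nil) .nil))) 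
(.lf (nat_lit 459682) (.g (nat_lit 3465) (.e (nat_lit 2798) (nat_lit 180) (.e (nat_lit 303117) (nat_lit 2) (.e (nat_lit 196674) (nat_lit 15) (.e (nat_lit 81953) (nat_lit 22) (.e (nat_lit 90165) (nat_lit 12) (.e (nat_lit 164207) (nat_lit 176) .nil)))))) (.g (nat_lit 1) (.e (nat_lit 50847) (nat_lit 0) .nil) .nil)))))) (.nd (nat_lit 7) (.nd (nat_lit 8) (.nd (nat_lit 9) 
(.lf (nat_lit 458850) (.g (nat_lit 3120) (.e (nat_lit 2725) (nat_lit 172) (.e (nat_lit 237590) (nat_lit 2) (.e (nat_lit 196666) (nat_lit 13) (.e (nat_lit 65617) (nat_lit 10) (.e (nat_lit 344133) (nat_lit 26) (.e (nat_lit 557089) (nat_lit 12) (.e (nat_lit 163849) (nat_lit 0) (.e (nat_lit 6254) (nat_lit 337) .nil)))))))) (.g (nat_lit 1) (.e (nat_lit 48513) (nat_lit 0) .nil) .nil))) 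
(.lf (nat_lit 459362) (.g (nat_lit 2732) (.e (nat_lit 2797) (nat_lit 180) (.e (nat_lit 303119) (nat_lit 3) (.e (nat_lit 204860) (nat_lit 26) (.e (nat_lit 336186) (nat_lit 11) (.e (nat_lit 368676) (nat_lit 21) (.e (nat_lit 516103) (nat_lit 0) (.e (nat_lit 7936) (nat_lit 377) .nil))))))) (.g (nat_lit 1) (.e (nat_lit 49706) (nat_lit 0) .nil) .nil)))) (.nd (nat_lit 9) 
(.lf (nat_lit 459106) (.g (nat_lit 2281) (.e (nat_lit 2744) (nat_lit 174) (.e (nat_lit 253992) (nat_lit 11) (.e (nat_lit 16412) (nat_lit 2) (.e (nat_lit 196672) (nat_lit 15) (.e (nat_lit 81928) (nat_lit 20) .nil))))) (.g (nat_lit 0) (.e (nat_lit 49100) (nat_lit 0) .nil) .nil))) 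
(.lf (nat_lit 459618) (.g (nat_lit 3387) (.e (nat_lit 2798) (nat_lit 180) (.e (nat_lit 303117) (nat_lit 2) (.e (nat_lit 196666) (nat_lit 13) (.e (nat_lit 65596) (nat_lit 9) (.e (nat_lit 336013) (nat_lit 2) (.e (nat_lit 90165) (nat_lit 12) (.e (nat_lit 164207) (nat_lit 176) .nil))))))) (.g (nat_lit 1) (.e (nat_lit 50778) (nat_lit 0) .nil) .nil))))) (.nd (nat_lit 8) (.nd (nat_lit 9) 
(.lf (nat_lit 458978) (.g (nat_lit 3008) (.e (nat_lit 2725) (nat_lit 172) (.e (nat_lit 237616) (nat_lit 12) (.e (nat_lit 475210) (nat_lit 41) (.e (nat_lit 712752) (nat_lit 29) (.e (nat_lit 442430) (nat_lit 24) (.e (nat_lit 229665) (nat_lit 240) .nil)))))) (.g (nat_lit 1) (.e (nat_lit 48737) (nat_lit 0) .nil) .nil))) 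
(.lf (nat_lit 459490) (.g (nat_lit 3001) (.e (nat_lit 2797) (nat_lit 180) (.e (nat_lit 303142) (nat_lit 12) (.e (nat_lit 475183) (nat_lit 29) (.e (nat_lit 557108) (nat_lit 15) (.e (nat_lit 188449) (nat_lit 22) (.e (nat_lit 204544) (nat_lit 18) .nil)))))) (.g (nat_lit 1) (.e (nat_lit 50137) (nat_lit 0) .nil) .nil)))) (.nd (nat_lit 9) 
(.lf (nat_lit 459234) (.g (nat_lit 4069) (.e (nat_lit 2797) (nat_lit 180) (.e (nat_lit 303117) (nat_lit 2) (.e (nat_lit 196666) (nat_lit 13) (.e (nat_lit 65619) (nat_lit 10) (.e (nat_lit 344117) (nat_lit 21) (.e (nat_lit 516106) (nat_lit 0) (.e (nat_lit 7016) (nat_lit 377) .nil))))))) (.g (nat_lit 1) (.e (nat_lit 49438) (nat_lit 0) .nil) .nil))) 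
(.lf (nat_lit 459746) (.g (nat_lit 2020) (.e (nat_lit 2798) (nat_lit 180) (.e (nat_lit 303119) (nat_lit 3) (.e (nat_lit 204869) (nat_lit 29) (.e (nat_lit 360450) (nat_lit 0) (.e (nat_lit 3994) (nat_lit 240) .nil))))) (.g (nat_lit 0) (.e (nat_lit 50990) (nat_lit 0) .nil) .nil)))))))) (.nd (nat_lit 5) (.nd (nat_lit 6) (.nd (nat_lit 7) (.nd (nat_lit 8) (.nd (nat_lit 9) 
(.lf (nat_lit 458770) (.g (nat_lit 4072) (.e (nat_lit 2725) (nat_lit 172) (.e (nat_lit 237589) (nat_lit 2) (.e (nat_lit 196666) (nat_lit 13) (.e (nat_lit 65610) (nat_lit 10) (.e (nat_lit 344129) (nat_lit 26) (.e (nat_lit 557090) (nat_lit 12) (.e (nat_lit 163844) (nat_lit 0) (.e (nat_lit 6255) (nat_lit 337) .nil)))))))) (.g (nat_lit 1) (.e (nat_lit 48432) (nat_lit 0) .nil) .nil))) 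
(.lf (nat_lit 459282) (.g (nat_lit 2978) (.e (nat_lit 2797) (nat_lit 180) (.e (nat_lit 303117) (nat_lit 2) (.e (nat_lit 196673) (nat_lit 15) (.e (nat_lit 81956) (nat_lit 23) (.e (nat_lit 98320) (nat_lit 17) (.e (nat_lit 7069) (nat_lit 377) .nil)))))) (.g (nat_lit 1) (.e (nat_lit 49504) (nat_lit 0) .nil) .nil)))) (.nd (nat_lit 9) 
(.lf (nat_lit 459026) (.g (nat_lit 2453) (.e (nat_lit 2729) (nat_lit 172) (.e (nat_lit 237592) (nat_lit 3) (.e (nat_lit 204869) (nat_lit 29) (.e (nat_lit 360474) (nat_lit 8) (.e (nat_lit 557089) (nat_lit 12) .nil))))) (.g (nat_lit 0) (.e (nat_lit 48957) (nat_lit 0) .nil) .nil))) 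
(.lf (nat_lit 459538) (.g (nat_lit 3486) (.e (nat_lit 2797) (nat_lit 180) (.e (nat_lit 303143) (nat_lit 12) (.e (nat_lit 475185) (nat_lit 29) (.e (nat_lit 557100) (nat_lit 13) (.e (nat_lit 172110) (nat_lit 10) .nil))))) (.g (nat_lit 0) (.e (nat_lit 50301) (nat_lit 0) .nil) .nil))))) (.nd (nat_lit 8) (.nd (nat_lit 9) 
(.lf (nat_lit 458898) (.g (nat_lit 4520) (.e (nat_lit 2725) (nat_lit 172) (.e (nat_lit 237593) (nat_lit 3) (.e (nat_lit 204869) (nat_lit 29) (.e (nat_lit 360474) (nat_lit 8) (.e (nat_lit 557089) (nat_lit 12) (.e (nat_lit 163849) (nat_lit 0) (.e (nat_lit 6254) (nat_lit 337) .nil))))))) (.g (nat_lit 1) (.e (nat_lit 48608) (nat_lit 0) .nil) .nil))) 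
(.lf (nat_lit 459410) (.g (nat_lit 3220) (.e (nat_lit 2797) (nat_lit 180) (.e (nat_lit 303119) (nat_lit 3) (.e (nat_lit 204867) (nat_lit 28) (.e (nat_lit 352315) (nat_lit 23) (.e (nat_lit 98325) (nat_lit 17) (.e (nat_lit 7008) (nat_lit 377) .nil)))))) (.g (nat_lit 1) (.e (nat_lit 49788) (nat_lit 0) .nil) .nil)))) (.nd (nat_lit 9) 
(.lf (nat_lit 459154) (.g (nat_lit 2785) (.e (nat_lit 2795) (nat_lit 180) (.e (nat_lit 303119) (nat_lit 3) (.e (nat_lit 204868) (nat_lit 29) (.e (nat_lit 360466) (nat_lit 3) (.e (nat_lit 516100) (nat_lit 0) (.e (nat_lit 7039) (nat_lit 377) .nil)))))) (.g (nat_lit 1) (.e (nat_lit 49238) (nat_lit 0) .nil) .nil))) 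
(.lf (nat_lit 459666) (.g (nat_lit 1498) (.e (nat_lit 2798) (nat_lit 180) (.e (nat_lit 303117) (nat_lit 2) (.e (nat_lit 196673) (nat_lit 15) (.e (nat_lit 81954) (nat_lit 23) .nil)))) (.g (nat_lit 0) (.e (nat_lit 50831) (nat_lit 0) .nil) .nil)))))) (.nd (nat_lit 7) (.nd (nat_lit 8) (.nd (nat_lit 9) 
(.lf (nat_lit 458834) (.g (nat_lit 2319) (.e (nat_lit 2725) (nat_lit 172) (.e (nat_lit 237590) (nat_lit 2) (.e (nat_lit 196666) (nat_lit 13) (.e (nat_lit 65617) (nat_lit 10) (.e (nat_lit 344130) (nat_lit 26) (.e (nat_lit 557090) (nat_lit 12) (.e (nat_lit 163843) (nat_lit 0) (.e (nat_lit 6252) (nat_lit 337) .nil)))))))) (.g (nat_lit 1) (.e (nat_lit 48497) (nat_lit 0) .nil) .nil))) 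
(.lf (nat_lit 459346) (.g (nat_lit 1714) (.e (nat_lit 2797) (nat_lit 180) (.e (nat_lit 303119) (nat_lit 3) (.e (nat_lit 204855) (nat_lit 26) (.e (nat_lit 336099) (nat_lit 9) .nil)))) (.g (nat_lit 0) (.e (nat_lit 49657) (nat_lit 0) .nil) .nil)))) (.nd (nat_lit 9) 
(.lf (nat_lit 459090) (.g (nat_lit 2586) (.e (nat_lit 2744) (nat_lit 174) (.e (nat_lit 253991) (nat_lit 11) (.e (nat_lit 16415) (nat_lit 3) (.e (nat_lit 204868) (nat_lit 29) (.e (nat_lit 360473) (nat_lit 8) (.e (nat_lit 557070) (nat_lit 9) .nil)))))) (.g (nat_lit 1) (.e (nat_lit 49082) (nat_lit 0) .nil) .nil))) 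
(.lf (nat_lit 459602) (.g (nat_lit 3391) (.e (nat_lit 2797) (nat_lit 180) (.e (nat_lit 303145) (nat_lit 13) (.e (nat_lit 483413) (nat_lit 27) (.e (nat_lit 409344) (nat_lit 23) .nil)))) (.g (nat_lit 0) (.e (nat_lit 50751) (nat_lit 0) .nil) .nil))))) (.nd (nat_lit 8) (.nd (nat_lit 9) 
(.lf (nat_lit 458962) (.g (nat_lit 2275) (.e (nat_lit 2725) (nat_lit 172) (.e (nat_lit 237615) (nat_lit 12) (.e (nat_lit 475199) (nat_lit 40) (.e (nat_lit 704598) (nat_lit 6) (.e (nat_lit 188453) (nat_lit 24) (.e (nat_lit 229666) (nat_lit 240) .nil)))))) (.g (nat_lit 1) (.e (nat_lit 48716) (nat_lit 0) .nil) .nil))) 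
(.lf (nat_lit 459474) (.g (nat_lit 2360) (.e (nat_lit 2797) (nat_lit 180) (.e (nat_lit 303133) (nat_lit 9) (.e (nat_lit 426412) (nat_lit 15) (.e (nat_lit 1856) (nat_lit 124) (.e (nat_lit 557100) (nat_lit 13) (.e (nat_lit 172085) (nat_lit 9) (.e (nat_lit 426125) (nat_lit 2) (.e (nat_lit 204544) (nat_lit 18) .nil)))))))) (.g (nat_lit 1) (.e (nat_lit 50056) (nat_lit 0) .nil) .nil)))) 
(.nd (nat_lit 9) 
(.lf (nat_lit 459218) (.g (nat_lit 5043) (.e (nat_lit 2797) (nat_lit 180) (.e (nat_lit 303117) (nat_lit 2) (.e (nat_lit 196666) (nat_lit 13) (.e (nat_lit 65610) (nat_lit 10) (.e (nat_lit 344117) (nat_lit 21) (.e (nat_lit 516106) (nat_lit 0) (.e (nat_lit 6998) (nat_lit 377) .nil))))))) (.g (nat_lit 1) (.e (nat_lit 49422) (nat_lit 0) .nil) .nil))) 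
(.lf (nat_lit 459730) (.g (nat_lit 1564) (.e (nat_lit 2798) (nat_lit 180) (.e (nat_lit 303119) (nat_lit 3) (.e (nat_lit 204863) (nat_lit 27) (.e (nat_lit 352000) (nat_lit 0) .nil)))) (.g (nat_lit 0) (.e (nat_lit 50952) (nat_lit 0) .nil) .nil))))))) (.nd (nat_lit 6) (.nd (nat_lit 7) (.nd (nat_lit 8) (.nd (nat_lit 9) 
(.lf (nat_lit 458802) (.g (nat_lit 3166) (.e (nat_lit 2725) (nat_lit 172) (.e (nat_lit 237589) (nat_lit 2) (.e (nat_lit 196666) (nat_lit 13) (.e (nat_lit 65617) (nat_lit 10) (.e (nat_lit 344133) (nat_lit 26) (.e (nat_lit 557089) (nat_lit 12) (.e (nat_lit 163844) (nat_lit 0) (.e (nat_lit 6252) (nat_lit 337) .nil)))))))) (.g (nat_lit 1) (.e (nat_lit 48464) (nat_lit 0) .nil) .nil))) 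
(.lf (nat_lit 459314) (.g (nat_lit 3187) (.e (nat_lit 2797) (nat_lit 180) (.e (nat_lit 303117) (nat_lit 2) (.e (nat_lit 196674) (nat_lit 15) (.e (nat_lit 81954) (nat_lit 23) (.e (nat_lit 98325) (nat_lit 17) (.e (nat_lit 6998) (nat_lit 377) .nil)))))) (.g (nat_lit 1) (.e (nat_lit 49541) (nat_lit 0) .nil) .nil)))) (.nd (nat_lit 9) 
(.lf (nat_lit 459058) (.g (nat_lit 4276) (.e (nat_lit 2741) (nat_lit 174) (.e (nat_lit 253990) (nat_lit 11) (.e (nat_lit 16417) (nat_lit 3) (.e (nat_lit 204869) (nat_lit 29) (.e (nat_lit 360474) (nat_lit 8) (.e (nat_lit 557072) (nat_lit 9) .nil)))))) (.g (nat_lit 1) (.e (nat_lit 49024) (nat_lit 0) .nil) .nil))) 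
(.lf (nat_lit 459570) (.g (nat_lit 2200) (.e (nat_lit 2797) (nat_lit 180) (.e (nat_lit 303143) (nat_lit 12) (.e (nat_lit 475185) (nat_lit 29) (.e (nat_lit 557107) (nat_lit 15) (.e (nat_lit 188439) (nat_lit 20) (.e (nat_lit 3115) (nat_lit 193) (.e (nat_lit 499774) (nat_lit 0) .nil))))))) (.g (nat_lit 1) (.e (nat_lit 50357) (nat_lit 0) .nil) .nil))))) (.nd (nat_lit 8) (.nd (nat_lit 9) 
(.lf (nat_lit 458930) (.g (nat_lit 2661) (.e (nat_lit 2725) (nat_lit 172) (.e (nat_lit 237594) (nat_lit 3) (.e (nat_lit 204868) (nat_lit 29) (.e (nat_lit 360473) (nat_lit 8) (.e (nat_lit 557091) (nat_lit 12) (.e (nat_lit 163849) (nat_lit 0) (.e (nat_lit 6255) (nat_lit 337) .nil))))))) (.g (nat_lit 1) (.e (nat_lit 48650) (nat_lit 0) .nil) .nil))) 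
(.lf (nat_lit 459442) (.g (nat_lit 4061) (.e (nat_lit 2797) (nat_lit 180) (.e (nat_lit 303119) (nat_lit 3) (.e (nat_lit 204869) (nat_lit 29) (.e (nat_lit 360461) (nat_lit 1) (.e (nat_lit 499910) (nat_lit 8) .nil))))) (.g (nat_lit 0) (.e (nat_lit 49874) (nat_lit 0) .nil) .nil)))) (.nd (nat_lit 9) 
(.lf (nat_lit 459186) (.g (nat_lit 2448) (.e (nat_lit 2796) (nat_lit 180) (.e (nat_lit 303143) (nat_lit 12) (.e (nat_lit 475185) (nat_lit 29) (.e (nat_lit 557109) (nat_lit 15) .nil)))) (.g (nat_lit 0) (.e (nat_lit 49340) (nat_lit 0) .nil) .nil))) 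
(.lf (nat_lit 459698) (.g (nat_lit 2511) (.e (nat_lit 2798) (nat_lit 180) (.e (nat_lit 303118) (nat_lit 3) (.e (nat_lit 204855) (nat_lit 26) (.e (nat_lit 336226) (nat_lit 14) (.e (nat_lit 401425) (nat_lit 2) (.e (nat_lit 196628) (nat_lit 9) (.e (nat_lit 968) (nat_lit 81) (.e (nat_lit 6202) (nat_lit 332) .nil)))))))) (.g (nat_lit 1) (.e (nat_lit 50865) (nat_lit 0) .nil) .nil)))))) 
(.nd (nat_lit 7) (.nd (nat_lit 8) (.nd (nat_lit 9) 
(.lf (nat_lit 458866) (.g (nat_lit 2963) (.e (nat_lit 2725) (nat_lit 172) (.e (nat_lit 237592) (nat_lit 3) (.e (nat_lit 204869) (nat_lit 29) (.e (nat_lit 360474) (nat_lit 8) (.e (nat_lit 557091) (nat_lit 12) (.e (nat_lit 163841) (nat_lit 0) (.e (nat_lit 6250) (nat_lit 337) .nil))))))) (.g (nat_lit 1) (.e (nat_lit 48570) (nat_lit 0) .nil) .nil))) 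
(.lf (nat_lit 459378) (.g (nat_lit 3119) (.e (nat_lit 2797) (nat_lit 180) (.e (nat_lit 303119) (nat_lit 3) (.e (nat_lit 204861) (nat_lit 26) (.e (nat_lit 336186) (nat_lit 11) (.e (nat_lit 368676) (nat_lit 21) (.e (nat_lit 516101) (nat_lit 0) (.e (nat_lit 7936) (nat_lit 377) .nil))))))) (.g (nat_lit 1) (.e (nat_lit 49723) (nat_lit 0) .nil) .nil)))) (.nd (nat_lit 9) 
(.lf (nat_lit 459122) (.g (nat_lit 3120) (.e (nat_lit 2745) (nat_lit 174) (.e (nat_lit 253992) (nat_lit 11) (.e (nat_lit 16425) (nat_lit 7) (.e (nat_lit 409648) (nat_lit 18) (.e (nat_lit 303137) (nat_lit 10) .nil))))) (.g (nat_lit 0) (.e (nat_lit 49117) (nat_lit 0) .nil) .nil))) 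
(.lf (nat_lit 459634) (.g (nat_lit 3061) (.e (nat_lit 2798) (nat_lit 180) (.e (nat_lit 303117) (nat_lit 2) (.e (nat_lit 196666) (nat_lit 13) (.e (nat_lit 65610) (nat_lit 10) (.e (nat_lit 344117) (nat_lit 21) (.e (nat_lit 516106) (nat_lit 0) (.e (nat_lit 7014) (nat_lit 377) .nil))))))) (.g (nat_lit 1) (.e (nat_lit 50797) (nat_lit 0) .nil) .nil))))) (.nd (nat_lit 8) (.nd (nat_lit 9) 
(.lf (nat_lit 458994) (.g (nat_lit 1606) (.e (nat_lit 2725) (nat_lit 172) (.e (nat_lit 237617) (nat_lit 12) (.e (nat_lit 475210) (nat_lit 41) (.e (nat_lit 712753) (nat_lit 30) (.e (nat_lit 450569) (nat_lit 0) (.e (nat_lit 5448) (nat_lit 306) .nil)))))) (.g (nat_lit 1) (.e (nat_lit 48757) (nat_lit 0) .nil) .nil))) 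
(.lf (nat_lit 459506) (.g (nat_lit 4422) (.e (nat_lit 2797) (nat_lit 180) (.e (nat_lit 303143) (nat_lit 12) (.e (nat_lit 475185) (nat_lit 29) (.e (nat_lit 557098) (nat_lit 13) (.e (nat_lit 172093) (nat_lit 9) (.e (nat_lit 426125) (nat_lit 2) (.e (nat_lit 204544) (nat_lit 18) .nil))))))) (.g (nat_lit 1) (.e (nat_lit 50261) (nat_lit 0) .nil) .nil)))) (.nd (nat_lit 9) 
(.lf (nat_lit 459250) (.g (nat_lit 2593) (.e (nat_lit 2797) (nat_lit 180) (.e (nat_lit 303117) (nat_lit 2) (.e (nat_lit 196672) (nat_lit 15) (.e (nat_lit 81954) (nat_lit 23) (.e (nat_lit 98318) (nat_lit 17) .nil))))) (.g (nat_lit 0) (.e (nat_lit 49472) (nat_lit 0) .nil) .nil))) 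
(.lf (nat_lit 459762) (.g (nat_lit 3166) (.e (nat_lit 2798) (nat_lit 180) (.e (nat_lit 303119) (nat_lit 3) (.e (nat_lit 204877) (nat_lit 31) (.e (nat_lit 376865) (nat_lit 22) (.e (nat_lit 90181) (nat_lit 16) (.e (nat_lit 237312) (nat_lit 176) .nil)))))) (.g (nat_lit 1) (.e (nat_lit 51061) (nat_lit 0) .nil) .nil))))))))) 
(.nd (nat_lit 4) (.nd (nat_lit 5) (.nd (nat_lit 6) (.nd (nat_lit 7) (.nd (nat_lit 8) 
(.nd (nat_lit 9) 
(.lf (nat_lit 458762) (.g (nat_lit 3204) (.e (nat_lit 2725) (nat_lit 172) (.e (nat_lit 237587) (nat_lit 2) (.e (nat_lit 196666) (nat_lit 13) (.e (nat_lit 65617) (nat_lit 10) (.e (nat_lit 344133) (nat_lit 26) (.e (nat_lit 557091) (nat_lit 12) (.e (nat_lit 163849) (nat_lit 0) (.e (nat_lit 6254) (nat_lit 337) .nil)))))))) (.g (nat_lit 1) (.e (nat_lit 48374) (nat_lit 0) .nil) .nil))) 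
(.lf (nat_lit 459274) (.g (nat_lit 994) (.e (nat_lit 2797) (nat_lit 180) (.e (nat_lit 303117) (nat_lit 2) (.e (nat_lit 196673) (nat_lit 15) (.e (nat_lit 81953) (nat_lit 22) .nil)))) (.g (nat_lit 0) (.e (nat_lit 49496) (nat_lit 0) .nil) .nil)))) (.nd (nat_lit 9) 
(.lf (nat_lit 459018) (.g (nat_lit 1917) (.e (nat_lit 2725) (nat_lit 172) (.e (nat_lit 237619) (nat_lit 12) (.e (nat_lit 475211) (nat_lit 41) (.e (nat_lit 712752) (nat_lit 29) (.e (nat_lit 442430) (nat_lit 24) (.e (nat_lit 229664) (nat_lit 240) .nil)))))) (.g (nat_lit 1) (.e (nat_lit 48784) (nat_lit 0) .nil) .nil))) 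
(.lf (nat_lit 459530) (.g (nat_lit 3270) (.e (nat_lit 2797) (nat_lit 180) (.e (nat_lit 303143) (nat_lit 12) (.e (nat_lit 475185) (nat_lit 29) (.e (nat_lit 557100) (nat_lit 13) (.e (nat_lit 172105) (nat_lit 10) .nil))))) (.g (nat_lit 0) (.e (nat_lit 50289) (nat_lit 0) .nil) .nil))))) (.nd (nat_lit 8) (.nd (nat_lit 9) 
(.lf (nat_lit 458890) (.g (nat_lit 2956) (.e (nat_lit 2725) (nat_lit 172) (.e (nat_lit 237593) (nat_lit 3) (.e (nat_lit 204869) (nat_lit 29) (.e (nat_lit 360474) (nat_lit 8) (.e (nat_lit 557089) (nat_lit 12) (.e (nat_lit 163843) (nat_lit 0) (.e (nat_lit 6252) (nat_lit 337) .nil))))))) (.g (nat_lit 1) (.e (nat_lit 48600) (nat_lit 0) .nil) .nil))) 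
(.lf (nat_lit 459402) (.g (nat_lit 3327) (.e (nat_lit 2797) (nat_lit 180) (.e (nat_lit 303119) (nat_lit 3) (.e (nat_lit 204865) (nat_lit 28) (.e (nat_lit 352315) (nat_lit 23) (.e (nat_lit 98325) (nat_lit 17) (.e (nat_lit 7936) (nat_lit 377) .nil)))))) (.g (nat_lit 1) (.e (nat_lit 49757) (nat_lit 0) .nil) .nil)))) (.nd (nat_lit 9) 
(.lf (nat_lit 459146) (.g (nat_lit 4240) (.e (nat_lit 2795) (nat_lit 180) (.e (nat_lit 303117) (nat_lit 2) (.e (nat_lit 196666) (nat_lit 13) (.e (nat_lit 65610) (nat_lit 10) (.e (nat_lit 344117) (nat_lit 21) (.e (nat_lit 516106) (nat_lit 0) (.e (nat_lit 7016) (nat_lit 377) .nil))))))) (.g (nat_lit 1) (.e (nat_lit 49227) (nat_lit 0) .nil) .nil))) 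
(.lf (nat_lit 459658) (.g (nat_lit 2537) (.e (nat_lit 2798) (nat_lit 180) (.e (nat_lit 303117) (nat_lit 2) (.e (nat_lit 196672) (nat_lit 15) (.e (nat_lit 81954) (nat_lit 23) (.e (nat_lit 98320) (nat_lit 17) (.e (nat_lit 7073) (nat_lit 377) .nil)))))) (.g (nat_lit 1) (.e (nat_lit 50823) (nat_lit 0) .nil) .nil)))))) (.nd (nat_lit 7) (.nd (nat_lit 8) (.nd (nat_lit 9) 
(.lf (nat_lit 458826) (.g (nat_lit 2355) (.e (nat_lit 2725) (nat_lit 172) (.e (nat_lit 237590) (nat_lit 2) (.e (nat_lit 196666) (nat_lit 13) (.e (nat_lit 65610) (nat_lit 10) (.e (nat_lit 344129) (nat_lit 26) (.e (nat_lit 557090) (nat_lit 12) (.e (nat_lit 163847) (nat_lit 0) (.e (nat_lit 6254) (nat_lit 337) .nil)))))))) (.g (nat_lit 1) (.e (nat_lit 48489) (nat_lit 0) .nil) .nil))) 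
(.lf (nat_lit 459338) (.g (nat_lit 1338) (.e (nat_lit 2797) (nat_lit 180) (.e (nat_lit 303119) (nat_lit 3) (.e (nat_lit 204850) (nat_lit 26) (.e (nat_lit 336177) (nat_lit 10) .nil)))) (.g (nat_lit 0) (.e (nat_lit 49623) (nat_lit 0) .nil) .nil)))) (.nd (nat_lit 9) 
(.lf (nat_lit 459082) (.g (nat_lit 3672) (.e (nat_lit 2744) (nat_lit 174) (.e (nat_lit 253991) (nat_lit 11) (.e (nat_lit 16412) (nat_lit 2) (.e (nat_lit 196672) (nat_lit 15) (.e (nat_lit 81946) (nat_lit 20) (.e (nat_lit 1858) (nat_lit 124) (.e (nat_lit 557070) (nat_lit 9) .nil))))))) (.g (nat_lit 1) (.e (nat_lit 49074) (nat_lit 0) .nil) .nil))) 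
(.lf (nat_lit 459594) (.g (nat_lit 2645) (.e (nat_lit 2797) (nat_lit 180) (.e (nat_lit 303145) (nat_lit 13) (.e (nat_lit 483346) (nat_lit 17) (.e (nat_lit 2263) (nat_lit 148) .nil)))) (.g (nat_lit 0) (.e (nat_lit 50433) (nat_lit 0) .nil) .nil))))) (.nd (nat_lit 8) (.nd (nat_lit 9) 
(.lf (nat_lit 458954) (.g (nat_lit 3842) (.e (nat_lit 2725) (nat_lit 172) (.e (nat_lit 237594) (nat_lit 3) (.e (nat_lit 204869) (nat_lit 29) (.e (nat_lit 360475) (nat_lit 8) (.e (nat_lit 557089) (nat_lit 12) (.e (nat_lit 163848) (nat_lit 0) (.e (nat_lit 6252) (nat_lit 337) .nil))))))) (.g (nat_lit 1) (.e (nat_lit 48682) (nat_lit 0) .nil) .nil))) 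
(.lf (nat_lit 459466) (.g (nat_lit 3375) (.e (nat_lit 2797) (nat_lit 180) (.e (nat_lit 303127) (nat_lit 9) (.e (nat_lit 426530) (nat_lit 27) (.e (nat_lit 336235) (nat_lit 14) (.e (nat_lit 401454) (nat_lit 12) (.e (nat_lit 483072) (nat_lit 16) .nil)))))) (.g (nat_lit 1) (.e (nat_lit 50020) (nat_lit 0) .nil) .nil)))) (.nd (nat_lit 9) 
(.lf (nat_lit 459210) (.g (nat_lit 1465) (.e (nat_lit 2797) (nat_lit 180) (.e (nat_lit 303117) (nat_lit 2) (.e (nat_lit 196666) (nat_lit 13) (.e (nat_lit 65599) (nat_lit 9) .nil)))) (.g (nat_lit 0) (.e (nat_lit 49414) (nat_lit 0) .nil) .nil))) 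
(.lf (nat_lit 459722) (.g (nat_lit 3177) (.e (nat_lit 2798) (nat_lit 180) (.e (nat_lit 303119) (nat_lit 3) (.e (nat_lit 204861) (nat_lit 26) (.e (nat_lit 336184) (nat_lit 11) (.e (nat_lit 368676) (nat_lit 21) (.e (nat_lit 516098) (nat_lit 0) (.e (nat_lit 7073) (nat_lit 377) .nil))))))) (.g (nat_lit 1) (.e (nat_lit 50944) (nat_lit 0) .nil) .nil))))))) 
(.nd (nat_lit 6) (.nd (nat_lit 7) (.nd (nat_lit 8) (.nd (nat_lit 9) 
(.lf (nat_lit 458794) (.g (nat_lit 3359) (.e (nat_lit 2725) (nat_lit 172) (.e (nat_lit 237589) (nat_lit 2) (.e (nat_lit 196666) (nat_lit 13) (.e (nat_lit 65617) (nat_lit 10) (.e (nat_lit 344132) (nat_lit 26) (.e (nat_lit 557094) (nat_lit 12) (.e (nat_lit 163847) (nat_lit 0) (.e (nat_lit 6252) (nat_lit 337) .nil)))))))) (.g (nat_lit 1) (.e (nat_lit 48456) (nat_lit 0) .nil) .nil))) 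
(.lf (nat_lit 459306) (.g (nat_lit 2022) (.e (nat_lit 2797) (nat_lit 180) (.e (nat_lit 303117) (nat_lit 2) (.e (nat_lit 196674) (nat_lit 15) (.e (nat_lit 81952) (nat_lit 22) (.e (nat_lit 90165) (nat_lit 12) (.e (nat_lit 171776) (nat_lit 176) .nil)))))) (.g (nat_lit 1) (.e (nat_lit 49532) (nat_lit 0) .nil) .nil)))) (.nd (nat_lit 9) 
(.lf (nat_lit 459050) (.g (nat_lit 3940) (.e (nat_lit 2740) (nat_lit 174) (.e (nat_lit 253992) (nat_lit 11) (.e (nat_lit 16425) (nat_lit 7) (.e (nat_lit 409649) (nat_lit 18) (.e (nat_lit 303140) (nat_lit 10) (.e (nat_lit 434275) (nat_lit 39) (.e (nat_lit 663574) (nat_lit 9) .nil))))))) (.g (nat_lit 1) (.e (nat_lit 49009) (nat_lit 0) .nil) .nil))) 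
(.lf (nat_lit 459562) (.g (nat_lit 2536) (.e (nat_lit 2797) (nat_lit 180) (.e (nat_lit 303143) (nat_lit 12) (.e (nat_lit 475185) (nat_lit 29) (.e (nat_lit 557101) (nat_lit 13) (.e (nat_lit 172115) (nat_lit 10) (.e (nat_lit 434218) (nat_lit 19) (.e (nat_lit 499728) (nat_lit 0) .nil))))))) (.g (nat_lit 1) (.e (nat_lit 50338) (nat_lit 0) .nil) .nil))))) (.nd (nat_lit 8) (.nd (nat_lit 9) 
(.lf (nat_lit 458922) (.g (nat_lit 4524) (.e (nat_lit 2725) (nat_lit 172) (.e (nat_lit 237593) (nat_lit 3) (.e (nat_lit 204869) (nat_lit 29) (.e (nat_lit 360475) (nat_lit 8) (.e (nat_lit 557091) (nat_lit 12) (.e (nat_lit 163849) (nat_lit 0) (.e (nat_lit 6254) (nat_lit 337) .nil))))))) (.g (nat_lit 1) (.e (nat_lit 48635) (nat_lit 0) .nil) .nil))) 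
(.lf (nat_lit 459434) (.g (nat_lit 2802) (.e (nat_lit 2797) (nat_lit 180) (.e (nat_lit 303119) (nat_lit 3) (.e (nat_lit 204869) (nat_lit 29) (.e (nat_lit 360450) (nat_lit 0) (.e (nat_lit 3994) (nat_lit 240) (.e (nat_lit 8192) (nat_lit 0) (.e (nat_lit 4931) (nat_lit 287) .nil))))))) (.g (nat_lit 1) (.e (nat_lit 49815) (nat_lit 0) .nil) .nil)))) (.nd (nat_lit 9) 
(.lf (nat_lit 459178) (.g (nat_lit 1450) (.e (nat_lit 2796) (nat_lit 180) (.e (nat_lit 303119) (nat_lit 3) (.e (nat_lit 204867) (nat_lit 28) (.e (nat_lit 352312) (nat_lit 22) .nil)))) (.g (nat_lit 0) (.e (nat_lit 49322) (nat_lit 0) .nil) .nil))) 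
(.lf (nat_lit 459690) (.g (nat_lit 2267) (.e (nat_lit 2798) (nat_lit 180) (.e (nat_lit 303117) (nat_lit 2) (.e (nat_lit 196674) (nat_lit 15) (.e (nat_lit 81955) (nat_lit 23) (.e (nat_lit 98325) (nat_lit 17) (.e (nat_lit 7936) (nat_lit 377) .nil)))))) (.g (nat_lit 1) (.e (nat_lit 50855) (nat_lit 0) .nil) .nil)))))) (.nd (nat_lit 7) (.nd (nat_lit 8) (.nd (nat_lit 9) 
(.lf (nat_lit 458858) (.g (nat_lit 4143) (.e (nat_lit 2725) (nat_lit 172) (.e (nat_lit 237591) (nat_lit 3) (.e (nat_lit 204869) (nat_lit 29) (.e (nat_lit 360475) (nat_lit 8) (.e (nat_lit 557091) (nat_lit 12) .nil))))) (.g (nat_lit 0) (.e (nat_lit 48556) (nat_lit 0) .nil) .nil))) 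
(.lf (nat_lit 459370) (.g (nat_lit 4692) (.e (nat_lit 2797) (nat_lit 180) (.e (nat_lit 303119) (nat_lit 3) (.e (nat_lit 204861) (nat_lit 26) (.e (nat_lit 336185) (nat_lit 11) (.e (nat_lit 368676) (nat_lit 21) (.e (nat_lit 516097) (nat_lit 0) (.e (nat_lit 7073) (nat_lit 377) .nil))))))) (.g (nat_lit 1) (.e (nat_lit 49715) (nat_lit 0) .nil) .nil)))) (.nd (nat_lit 9) 
(.lf (nat_lit 459114) (.g (nat_lit 538) (.e (nat_lit 2744) (nat_lit 174) (.e (nat_lit 253992) (nat_lit 11) (.e (nat_lit 16416) (nat_lit 3) .nil))) (.g (nat_lit 0) (.e (nat_lit 49108) (nat_lit 0) .nil) .nil))) 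
(.lf (nat_lit 459626) (.g (nat_lit 2324) (.e (nat_lit 2798) (nat_lit 180) (.e (nat_lit 303117) (nat_lit 2) (.e (nat_lit 196666) (nat_lit 13) (.e (nat_lit 65604) (nat_lit 9) .nil)))) (.g (nat_lit 0) (.e (nat_lit 50786) (nat_lit 0) .nil) .nil))))) (.nd (nat_lit 8) (.nd (nat_lit 9) 
(.lf (nat_lit 458986) (.g (nat_lit 2121) (.e (nat_lit 2725) (nat_lit 172) (.e (nat_lit 237616) (nat_lit 12) (.e (nat_lit 475211) (nat_lit 41) (.e (nat_lit 712752) (nat_lit 29) (.e (nat_lit 442430) (nat_lit 24) (.e (nat_lit 229666) (nat_lit 240) .nil)))))) (.g (nat_lit 1) (.e (nat_lit 48746) (nat_lit 0) .nil) .nil))) 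
(.lf (nat_lit 459498) (.g (nat_lit 5653) (.e (nat_lit 2797) (nat_lit 180) (.e (nat_lit 303143) (nat_lit 12) (.e (nat_lit 475185) (nat_lit 29) (.e (nat_lit 557096) (nat_lit 13) (.e (nat_lit 172094) (nat_lit 9) (.e (nat_lit 426125) (nat_lit 2) (.e (nat_lit 204544) (nat_lit 18) .nil))))))) (.g (nat_lit 1) (.e (nat_lit 50253) (nat_lit 0) .nil) .nil)))) (.nd (nat_lit 9) 
(.lf (nat_lit 459242) (.g (nat_lit 3349) (.e (nat_lit 2797) (nat_lit 180) (.e (nat_lit 303117) (nat_lit 2) (.e (nat_lit 196672) (nat_lit 15) (.e (nat_lit 81951) (nat_lit 22) (.e (nat_lit 90165) (nat_lit 12) (.e (nat_lit 164211) (nat_lit 176) .nil)))))) (.g (nat_lit 1) (.e (nat_lit 49464) (nat_lit 0) .nil) .nil))) 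
(.lf (nat_lit 459754) (.g (nat_lit 3211) (.e (nat_lit 2798) (nat_lit 180) (.e (nat_lit 303119) (nat_lit 3) (.e (nat_lit 204869) (nat_lit 29) (.e (nat_lit 360475) (nat_lit 8) (.e (nat_lit 557083) (nat_lit 10) (.e (nat_lit 16128) (nat_lit 225) .nil)))))) (.g (nat_lit 1) (.e (nat_lit 51045) (nat_lit 0) .nil) .nil)))))))) 
(.nd (nat_lit 5) (.nd (nat_lit 6) (.nd (nat_lit 7) (.nd (nat_lit 8) (.nd (nat_lit 9) 
(.lf (nat_lit 458778) (.g (nat_lit 3950) (.e (nat_lit 2725) (nat_lit 172) (.e (nat_lit 237589) (nat_lit 2) (.e (nat_lit 196666) (nat_lit 13) (.e (nat_lit 65617) (nat_lit 10) (.e (nat_lit 344130) (nat_lit 26) (.e (nat_lit 557089) (nat_lit 12) (.e (nat_lit 163843) (nat_lit 0) (.e (nat_lit 6254) (nat_lit 337) .nil)))))))) (.g (nat_lit 1) (.e (nat_lit 48440) (nat_lit 0) .nil) .nil))) 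
(.lf (nat_lit 459290) (.g (nat_lit 3044) (.e (nat_lit 2797) (nat_lit 180) (.e (nat_lit 303117) (nat_lit 2) (.e (nat_lit 196673) (nat_lit 15) (.e (nat_lit 81956) (nat_lit 23) (.e (nat_lit 98325) (nat_lit 17) (.e (nat_lit 7936) (nat_lit 377) .nil)))))) (.g (nat_lit 1) (.e (nat_lit 49512) (nat_lit 0) .nil) .nil)))) (.nd (nat_lit 9) 
(.lf (nat_lit 459034) (.g (nat_lit 4258) (.e (nat_lit 2739) (nat_lit 174) (.e (nat_lit 253990) (nat_lit 11) (.e (nat_lit 16413) (nat_lit 2) (.e (nat_lit 196666) (nat_lit 13) (.e (nat_lit 65610) (nat_lit 10) (.e (nat_lit 344129) (nat_lit 26) (.e (nat_lit 557067) (nat_lit 9) .nil))))))) (.g (nat_lit 1) (.e (nat_lit 48987) (nat_lit 0) .nil) .nil))) 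
(.lf (nat_lit 459546) (.g (nat_lit 3555) (.e (nat_lit 2797) (nat_lit 180) (.e (nat_lit 303143) (nat_lit 12) (.e (nat_lit 475185) (nat_lit 29) (.e (nat_lit 557100) (nat_lit 13) (.e (nat_lit 172113) (nat_lit 10) (.e (nat_lit 434225) (nat_lit 19) (.e (nat_lit 499767) (nat_lit 0) .nil))))))) (.g (nat_lit 1) (.e (nat_lit 50314) (nat_lit 0) .nil) .nil))))) (.nd (nat_lit 8) (.nd (nat_lit 9) 
(.lf (nat_lit 458906) (.g (nat_lit 3316) (.e (nat_lit 2725) (nat_lit 172) (.e (nat_lit 237593) (nat_lit 3) (.e (nat_lit 204869) (nat_lit 29) (.e (nat_lit 360474) (nat_lit 8) (.e (nat_lit 557094) (nat_lit 12) (.e (nat_lit 163847) (nat_lit 0) (.e (nat_lit 6252) (nat_lit 337) .nil))))))) (.g (nat_lit 1) (.e (nat_lit 48619) (nat_lit 0) .nil) .nil))) 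
(.lf (nat_lit 459418) (.g (nat_lit 3090) (.e (nat_lit 2797) (nat_lit 180) (.e (nat_lit 303119) (nat_lit 3) (.e (nat_lit 204868) (nat_lit 29) (.e (nat_lit 360466) (nat_lit 3) (.e (nat_lit 516096) (nat_lit 0) (.e (nat_lit 7013) (nat_lit 377) .nil)))))) (.g (nat_lit 1) (.e (nat_lit 49797) (nat_lit 0) .nil) .nil)))) (.nd (nat_lit 9) 
(.lf (nat_lit 459162) (.g (nat_lit 1985) (.e (nat_lit 2796) (nat_lit 180) (.e (nat_lit 303116) (nat_lit 2) (.e (nat_lit 196666) (nat_lit 13) (.e (nat_lit 65610) (nat_lit 10) (.e (nat_lit 344117) (nat_lit 21) (.e (nat_lit 516106) (nat_lit 0) (.e (nat_lit 6998) (nat_lit 377) .nil))))))) (.g (nat_lit 1) (.e (nat_lit 49298) (nat_lit 0) .nil) .nil))) 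
(.lf (nat_lit 459674) (.g (nat_lit 2516) (.e (nat_lit 2798) (nat_lit 180) (.e (nat_lit 303117) (nat_lit 2) (.e (nat_lit 196674) (nat_lit 15) (.e (nat_lit 81951) (nat_lit 22) (.e (nat_lit 90165) (nat_lit 12) (.e (nat_lit 164207) (nat_lit 176) .nil)))))) (.g (nat_lit 1) (.e (nat_lit 50839) (nat_lit 0) .nil) .nil)))))) (.nd (nat_lit 7) (.nd (nat_lit 8) (.nd (nat_lit 9) 
(.lf (nat_lit 458842) (.g (nat_lit 2346) (.e (nat_lit 2725) (nat_lit 172) (.e (nat_lit 237590) (nat_lit 2) (.e (nat_lit 196666) (nat_lit 13) (.e (nat_lit 65617) (nat_lit 10) (.e (nat_lit 344132) (nat_lit 26) (.e (nat_lit 557093) (nat_lit 12) (.e (nat_lit 163848) (nat_lit 0) (.e (nat_lit 6252) (nat_lit 337) .nil)))))))) (.g (nat_lit 1) (.e (nat_lit 48505) (nat_lit 0) .nil) .nil))) 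
(.lf (nat_lit 459354) (.g (nat_lit 2371) (.e (nat_lit 2797) (nat_lit 180) (.e (nat_lit 303119) (nat_lit 3) (.e (nat_lit 204855) (nat_lit 26) (.e (nat_lit 336177) (nat_lit 10) .nil)))) (.g (nat_lit 0) (.e (nat_lit 49686) (nat_lit 0) .nil) .nil)))) (.nd (nat_lit 9) 
(.lf (nat_lit 459098) (.g (nat_lit 3440) (.e (nat_lit 2744) (nat_lit 174) (.e (nat_lit 253991) (nat_lit 11) (.e (nat_lit 16425) (nat_lit 7) (.e (nat_lit 409649) (nat_lit 18) (.e (nat_lit 303140) (nat_lit 10) (.e (nat_lit 434275) (nat_lit 39) (.e (nat_lit 663572) (nat_lit 9) .nil))))))) (.g (nat_lit 1) (.e (nat_lit 49090) (nat_lit 0) .nil) .nil))) 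
(.lf (nat_lit 459610) (.g (nat_lit 3479) (.e (nat_lit 2798) (nat_lit 180) (.e (nat_lit 303116) (nat_lit 2) (.e (nat_lit 196666) (nat_lit 13) (.e (nat_lit 65610) (nat_lit 10) (.e (nat_lit 344117) (nat_lit 21) (.e (nat_lit 516106) (nat_lit 0) (.e (nat_lit 7016) (nat_lit 377) .nil))))))) (.g (nat_lit 1) (.e (nat_lit 50768) (nat_lit 0) .nil) .nil))))) (.nd (nat_lit 8) (.nd (nat_lit 9) 
(.lf (nat_lit 458970) (.g (nat_lit 2264) (.e (nat_lit 2725) (nat_lit 172) (.e (nat_lit 237615) (nat_lit 12) (.e (nat_lit 475211) (nat_lit 41) (.e (nat_lit 712755) (nat_lit 30) (.e (nat_lit 450569) (nat_lit 0) (.e (nat_lit 5448) (nat_lit 306) .nil)))))) (.g (nat_lit 1) (.e (nat_lit 48728) (nat_lit 0) .nil) .nil))) 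
(.lf (nat_lit 459482) (.g (nat_lit 993) (.e (nat_lit 2797) (nat_lit 180) (.e (nat_lit 303133) (nat_lit 9) (.e (nat_lit 426412) (nat_lit 15) (.e (nat_lit 2175) (nat_lit 143) .nil)))) (.g (nat_lit 0) (.e (nat_lit 50067) (nat_lit 0) .nil) .nil)))) (.nd (nat_lit 9) 
(.lf (nat_lit 459226) (.g (nat_lit 3257) (.e (nat_lit 2797) (nat_lit 180) (.e (nat_lit 303117) (nat_lit 2) (.e (nat_lit 196666) (nat_lit 13) (.e (nat_lit 65617) (nat_lit 10) (.e (nat_lit 344117) (nat_lit 21) (.e (nat_lit 516106) (nat_lit 0) (.e (nat_lit 7936) (nat_lit 377) .nil))))))) (.g (nat_lit 1) (.e (nat_lit 49430) (nat_lit 0) .nil) .nil))) 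
(.lf (nat_lit 459738) (.g (nat_lit 2169) (.e (nat_lit 2798) (nat_lit 180) (.e (nat_lit 303119) (nat_lit 3) (.e (nat_lit 204868) (nat_lit 29) (.e (nat_lit 360459) (nat_lit 1) .nil)))) (.g (nat_lit 0) (.e (nat_lit 50981) (nat_lit 0) .nil) .nil))))))) (.nd (nat_lit 6) (.nd (nat_lit 7) (.nd (nat_lit 8) (.nd (nat_lit 9) 
(.lf (nat_lit 458810) (.g (nat_lit 3325) (.e (nat_lit 2725) (nat_lit 172) (.e (nat_lit 237589) (nat_lit 2) (.e (nat_lit 196666) (nat_lit 13) (.e (nat_lit 65617) (nat_lit 10) (.e (nat_lit 344133) (nat_lit 26) (.e (nat_lit 557091) (nat_lit 12) (.e (nat_lit 163843) (nat_lit 0) (.e (nat_lit 6250) (nat_lit 337) .nil)))))))) (.g (nat_lit 1) (.e (nat_lit 48472) (nat_lit 0) .nil) .nil))) 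
(.lf (nat_lit 459322) (.g (nat_lit 2394) (.e (nat_lit 2797) (nat_lit 180) (.e (nat_lit 303117) (nat_lit 2) (.e (nat_lit 196674) (nat_lit 15) (.e (nat_lit 81956) (nat_lit 23) (.e (nat_lit 98319) (nat_lit 17) .nil))))) (.g (nat_lit 0) (.e (nat_lit 49549) (nat_lit 0) .nil) .nil)))) (.nd (nat_lit 9) 
(.lf (nat_lit 459066) (.g (nat_lit 1116) (.e (nat_lit 2741) (nat_lit 174) (.e (nat_lit 253992) (nat_lit 11) (.e (nat_lit 16425) (nat_lit 7) (.e (nat_lit 409648) (nat_lit 18) .nil)))) (.g (nat_lit 0) (.e (nat_lit 49042) (nat_lit 0) .nil) .nil))) 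
(.lf (nat_lit 459578) (.g (nat_lit 3499) (.e (nat_lit 2797) (nat_lit 180) (.e (nat_lit 303143) (nat_lit 12) (.e (nat_lit 475185) (nat_lit 29) (.e (nat_lit 557107) (nat_lit 15) (.e (nat_lit 188456) (nat_lit 25) (.e (nat_lit 245797) (nat_lit 18) .nil)))))) (.g (nat_lit 1) (.e (nat_lit 50368) (nat_lit 0) .nil) .nil))))) (.nd (nat_lit 8) (.nd (nat_lit 9) 
(.lf (nat_lit 458938) (.g (nat_lit 4527) (.e (nat_lit 2725) (nat_lit 172) (.e (nat_lit 237594) (nat_lit 3) (.e (nat_lit 204869) (nat_lit 29) (.e (nat_lit 360474) (nat_lit 8) (.e (nat_lit 557089) (nat_lit 12) (.e (nat_lit 163849) (nat_lit 0) (.e (nat_lit 6254) (nat_lit 337) .nil))))))) (.g (nat_lit 1) (.e (nat_lit 48663) (nat_lit 0) .nil) .nil))) 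
(.lf (nat_lit 459450) (.g (nat_lit 2939) (.e (nat_lit 2797) (nat_lit 180) (.e (nat_lit 303119) (nat_lit 3) (.e (nat_lit 204869) (nat_lit 29) (.e (nat_lit 360475) (nat_lit 8) (.e (nat_lit 557083) (nat_lit 10) (.e (nat_lit 16128) (nat_lit 225) .nil)))))) (.g (nat_lit 1) (.e (nat_lit 49988) (nat_lit 0) .nil) .nil)))) (.nd (nat_lit 9) 
(.lf (nat_lit 459194) (.g (nat_lit 3728) (.e (nat_lit 2797) (nat_lit 180) (.e (nat_lit 303116) (nat_lit 2) (.e (nat_lit 196666) (nat_lit 13) (.e (nat_lit 65610) (nat_lit 10) (.e (nat_lit 344117) (nat_lit 21) (.e (nat_lit 516106) (nat_lit 0) (.e (nat_lit 7014) (nat_lit 377) .nil))))))) (.g (nat_lit 1) (.e (nat_lit 49382) (nat_lit 0) .nil) .nil))) 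
(.lf (nat_lit 459706) (.g (nat_lit 744) (.e (nat_lit 2798) (nat_lit 180) (.e (nat_lit 303119) (nat_lit 3) (.e (nat_lit 204834) (nat_lit 19) .nil))) (.g (nat_lit 0) (.e (nat_lit 50882) (nat_lit 0) .nil) .nil)))))) (.nd (nat_lit 7) (.nd (nat_lit 8) (.nd (nat_lit 9) 
(.lf (nat_lit 458874) (.g (nat_lit 2096) (.e (nat_lit 2725) (nat_lit 172) (.e (nat_lit 237592) (nat_lit 3) (.e (nat_lit 204869) (nat_lit 29) (.e (nat_lit 360475) (nat_lit 8) (.e (nat_lit 557091) (nat_lit 12) .nil))))) (.g (nat_lit 0) (.e (nat_lit 48581) (nat_lit 0) .nil) .nil))) 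
(.lf (nat_lit 459386) (.g (nat_lit 2481) (.e (nat_lit 2797) (nat_lit 180) (.e (nat_lit 303119) (nat_lit 3) (.e (nat_lit 212736) (nat_lit 26) (.e (nat_lit 336158) (nat_lit 9) (.e (nat_lit 336004) (nat_lit 2) (.e (nat_lit 90181) (nat_lit 16) (.e (nat_lit 237312) (nat_lit 176) .nil))))))) (.g (nat_lit 1) (.e (nat_lit 49731) (nat_lit 0) .nil) .nil)))) (.nd (nat_lit 9) 
(.lf (nat_lit 459130) (.g (nat_lit 1907) (.e (nat_lit 2757) (nat_lit 176) (.e (nat_lit 270354) (nat_lit 8) (.e (nat_lit 303145) (nat_lit 13) (.e (nat_lit 483403) (nat_lit 26) (.e (nat_lit 385096) (nat_lit 49) .nil))))) (.g (nat_lit 0) (.e (nat_lit 49129) (nat_lit 0) .nil) .nil))) 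
(.lf (nat_lit 459642) (.g (nat_lit 4055) (.e (nat_lit 2798) (nat_lit 180) (.e (nat_lit 303117) (nat_lit 2) (.e (nat_lit 196666) (nat_lit 13) (.e (nat_lit 65617) (nat_lit 10) (.e (nat_lit 344117) (nat_lit 21) (.e (nat_lit 516106) (nat_lit 0) (.e (nat_lit 7936) (nat_lit 377) .nil))))))) (.g (nat_lit 1) (.e (nat_lit 50805) (nat_lit 0) .nil) .nil))))) (.nd (nat_lit 8) (.nd (nat_lit 9) 
(.lf (nat_lit 459002) (.g (nat_lit 1581) (.e (nat_lit 2725) (nat_lit 172) (.e (nat_lit 237619) (nat_lit 12) (.e (nat_lit 475198) (nat_lit 40) (.e (nat_lit 704599) (nat_lit 6) (.e (nat_lit 188455) (nat_lit 24) (.e (nat_lit 229666) (nat_lit 240) .nil)))))) (.g (nat_lit 1) (.e (nat_lit 48765) (nat_lit 0) .nil) .nil))) 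
(.lf (nat_lit 459514) (.g (nat_lit 4588) (.e (nat_lit 2797) (nat_lit 180) (.e (nat_lit 303143) (nat_lit 12) (.e (nat_lit 475185) (nat_lit 29) (.e (nat_lit 557100) (nat_lit 13) (.e (nat_lit 172085) (nat_lit 9) (.e (nat_lit 426125) (nat_lit 2) (.e (nat_lit 204544) (nat_lit 18) .nil))))))) (.g (nat_lit 1) (.e (nat_lit 50273) (nat_lit 0) .nil) .nil)))) (.nd (nat_lit 9) 
(.lf (nat_lit 459258) (.g (nat_lit 3780) (.e (nat_lit 2797) (nat_lit 180) (.e (nat_lit 303117) (nat_lit 2) (.e (nat_lit 196672) (nat_lit 15) (.e (nat_lit 81954) (nat_lit 23) (.e (nat_lit 98325) (nat_lit 17) (.e (nat_lit 6998) (nat_lit 377) .nil)))))) (.g (nat_lit 1) (.e (nat_lit 49480) (nat_lit 0) .nil) .nil))) 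
(.lf (nat_lit 459770) (.g (nat_lit 378) (.e (nat_lit 2798) (nat_lit 180) (.e (nat_lit 303127) (nat_lit 9) (.e (nat_lit 426567) (nat_lit 34) .nil))) (.g (nat_lit 0) (.e (nat_lit 51077) (nat_lit 0) .nil) .nil)))))))))) (.nd (nat_lit 3) (.nd (nat_lit 4) (.nd (nat_lit 5) (.nd (nat_lit 6) (.nd (nat_lit 7) (.nd (nat_lit 8) (.nd (nat_lit 9) 
(.lf (nat_lit 458758) (.g (nat_lit 2394) (.e (nat_lit 2725) (nat_lit 172) (.e (nat_lit 237587) (nat_lit 2) (.e (nat_lit 196666) (nat_lit 13) (.e (nat_lit 65617) (nat_lit 10) (.e (nat_lit 344133) (nat_lit 26) (.e (nat_lit 557091) (nat_lit 12) (.e (nat_lit 163843) (nat_lit 0) (.e (nat_lit 6250) (nat_lit 337) .nil)))))))) (.g (nat_lit 1) (.e (nat_lit 48370) (nat_lit 0) .nil) .nil))) 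
(.lf (nat_lit 459270) (.g (nat_lit 2484) (.e (nat_lit 2797) (nat_lit 180) (.e (nat_lit 303117) (nat_lit 2) (.e (nat_lit 196672) (nat_lit 15) (.e (nat_lit 81956) (nat_lit 23) (.e (nat_lit 98325) (nat_lit 17) (.e (nat_lit 7016) (nat_lit 377) .nil)))))) (.g (nat_lit 1) (.e (nat_lit 49492) (nat_lit 0) .nil) .nil)))) (.nd (nat_lit 9) 
(.lf (nat_lit 459014) (.g (nat_lit 2685) (.e (nat_lit 2725) (nat_lit 172) (.e (nat_lit 237619) (nat_lit 12) (.e (nat_lit 475210) (nat_lit 41) (.e (nat_lit 712755) (nat_lit 30) (.e (nat_lit 450569) (nat_lit 0) (.e (nat_lit 5448) (nat_lit 306) .nil)))))) (.g (nat_lit 1) (.e (nat_lit 48780) (nat_lit 0) .nil) .nil))) 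
(.lf (nat_lit 459526) (.g (nat_lit 4199) (.e (nat_lit 2797) (nat_lit 180) (.e (nat_lit 303143) (nat_lit 12) (.e (nat_lit 475185) (nat_lit 29) (.e (nat_lit 557100) (nat_lit 13) (.e (nat_lit 172098) (nat_lit 9) (.e (nat_lit 426125) (nat_lit 2) (.e (nat_lit 204544) (nat_lit 18) .nil))))))) (.g (nat_lit 1) (.e (nat_lit 50285) (nat_lit 0) .nil) .nil))))) (.nd (nat_lit 8) (.nd (nat_lit 9) 
(.lf (nat_lit 458886) (.g (nat_lit 2038) (.e (nat_lit 2725) (nat_lit 172) (.e (nat_lit 237593) (nat_lit 3) (.e (nat_lit 204868) (nat_lit 29) (.e (nat_lit 360473) (nat_lit 8) (.e (nat_lit 557094) (nat_lit 12) (.e (nat_lit 163849) (nat_lit 0) (.e (nat_lit 6255) (nat_lit 337) .nil))))))) (.g (nat_lit 1) (.e (nat_lit 48596) (nat_lit 0) .nil) .nil))) 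
(.lf (nat_lit 459398) (.g (nat_lit 3762) (.e (nat_lit 2797) (nat_lit 180) (.e (nat_lit 303119) (nat_lit 3) (.e (nat_lit 204865) (nat_lit 28) (.e (nat_lit 352315) (nat_lit 23) (.e (nat_lit 98325) (nat_lit 17) (.e (nat_lit 6966) (nat_lit 377) .nil)))))) (.g (nat_lit 1) (.e (nat_lit 49753) (nat_lit 0) .nil) .nil)))) (.nd (nat_lit 9) 
(.lf (nat_lit 459142) (.g (nat_lit 3583) (.e (nat_lit 2770) (nat_lit 177) (.e (nat_lit 278550) (nat_lit 10) (.e (nat_lit 5395) (nat_lit 301) (.e (nat_lit 57464) (nat_lit 23) (.e (nat_lit 516151) (nat_lit 9) (.e (nat_lit 426211) (nat_lit 9) (.e (nat_lit 426125) (nat_lit 2) (.e (nat_lit 204544) (nat_lit 18) .nil)))))))) (.g (nat_lit 1) (.e (nat_lit 49149) (nat_lit 0) .nil) .nil))) 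
(.lf (nat_lit 459654) (.g (nat_lit 2469) (.e (nat_lit 2798) (nat_lit 180) (.e (nat_lit 303117) (nat_lit 2) (.e (nat_lit 196672) (nat_lit 15) (.e (nat_lit 81951) (nat_lit 22) (.e (nat_lit 90165) (nat_lit 12) .nil))))) (.g (nat_lit 0) (.e (nat_lit 50819) (nat_lit 0) .nil) .nil)))))) (.nd (nat_lit 7) (.nd (nat_lit 8) (.nd (nat_lit 9) 
(.lf (nat_lit 458822) (.g (nat_lit 2446) (.e (nat_lit 2725) (nat_lit 172) (.e (nat_lit 237590) (nat_lit 2) (.e (nat_lit 196666) (nat_lit 13) (.e (nat_lit 65610) (nat_lit 10) (.e (nat_lit 344129) (nat_lit 26) (.e (nat_lit 557089) (nat_lit 12) (.e (nat_lit 163844) (nat_lit 0) (.e (nat_lit 6254) (nat_lit 337) .nil)))))))) (.g (nat_lit 1) (.e (nat_lit 48485) (nat_lit 0) .nil) .nil))) 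
(.lf (nat_lit 459334) (.g (nat_lit 2868) (.e (nat_lit 2797) (nat_lit 180) (.e (nat_lit 303118) (nat_lit 3) (.e (nat_lit 204869) (nat_lit 29) (.e (nat_lit 360475) (nat_lit 8) (.e (nat_lit 557084) (nat_lit 10) (.e (nat_lit 16128) (nat_lit 225) .nil)))))) (.g (nat_lit 1) (.e (nat_lit 49570) (nat_lit 0) .nil) .nil)))) (.nd (nat_lit 9) 
(.lf (nat_lit 459078) (.g (nat_lit 3159) (.e (nat_lit 2744) (nat_lit 174) (.e (nat_lit 253991) (nat_lit 11) (.e (nat_lit 16409) (nat_lit 2) (.e (nat_lit 196674) (nat_lit 15) (.e (nat_lit 81946) (nat_lit 20) (.e (nat_lit 1858) (nat_lit 124) (.e (nat_lit 557070) (nat_lit 9) .nil))))))) (.g (nat_lit 1) (.e (nat_lit 49070) (nat_lit 0) .nil) .nil))) 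
(.lf (nat_lit 459590) (.g (nat_lit 3145) (.e (nat_lit 2797) (nat_lit 180) (.e (nat_lit 303143) (nat_lit 12) (.e (nat_lit 475211) (nat_lit 41) (.e (nat_lit 712755) (nat_lit 30) (.e (nat_lit 450597) (nat_lit 17) (.e (nat_lit 671488) (nat_lit 14) .nil)))))) (.g (nat_lit 1) (.e (nat_lit 50401) (nat_lit 0) .nil) .nil))))) (.nd (nat_lit 8) (.nd (nat_lit 9) 
(.lf (nat_lit 458950) (.g (nat_lit 2765) (.e (nat_lit 2725) (nat_lit 172) (.e (nat_lit 237594) (nat_lit 3) (.e (nat_lit 204869) (nat_lit 29) (.e (nat_lit 360474) (nat_lit 8) (.e (nat_lit 557094) (nat_lit 12) (.e (nat_lit 163848) (nat_lit 0) (.e (nat_lit 6252) (nat_lit 337) .nil))))))) (.g (nat_lit 1) (.e (nat_lit 48678) (nat_lit 0) .nil) .nil))) 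
(.lf (nat_lit 459462) (.g (nat_lit 2212) (.e (nat_lit 2797) (nat_lit 180) (.e (nat_lit 303127) (nat_lit 9) (.e (nat_lit 426428) (nat_lit 17) (.e (nat_lit 98048) (nat_lit 6) (.e (nat_lit 81963) (nat_lit 26) (.e (nat_lit 155392) (nat_lit 14) .nil)))))) (.g (nat_lit 1) (.e (nat_lit 50015) (nat_lit 0) .nil) .nil)))) (.nd (nat_lit 9) 
(.lf (nat_lit 459206) (.g (nat_lit 293) (.e (nat_lit 2797) (nat_lit 180) (.e (nat_lit 303117) (nat_lit 2) (.e (nat_lit 196665) (nat_lit 13) .nil))) (.g (nat_lit 0) (.e (nat_lit 49394) (nat_lit 0) .nil) .nil))) 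
(.lf (nat_lit 459718) (.g (nat_lit 2137) (.e (nat_lit 2798) (nat_lit 180) (.e (nat_lit 303119) (nat_lit 3) (.e (nat_lit 204855) (nat_lit 26) (.e (nat_lit 336178) (nat_lit 10) (.e (nat_lit 344117) (nat_lit 21) .nil))))) (.g (nat_lit 0) (.e (nat_lit 50938) (nat_lit 0) .nil) .nil))))))) (.nd (nat_lit 6) (.nd (nat_lit 7) (.nd (nat_lit 8) (.nd (nat_lit 9) 
(.lf (nat_lit 458790) (.g (nat_lit 2226) (.e (nat_lit 2725) (nat_lit 172) (.e (nat_lit 237589) (nat_lit 2) (.e (nat_lit 196666) (nat_lit 13) (.e (nat_lit 65617) (nat_lit 10) (.e (nat_lit 344132) (nat_lit 26) .nil))))) (.g (nat_lit 0) (.e (nat_lit 48452) (nat_lit 0) .nil) .nil))) 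
(.lf (nat_lit 459302) (.g (nat_lit 2249) (.e (nat_lit 2797) (nat_lit 180) (.e (nat_lit 303117) (nat_lit 2) (.e (nat_lit 196674) (nat_lit 15) (.e (nat_lit 81951) (nat_lit 22) (.e (nat_lit 90165) (nat_lit 12) (.e (nat_lit 171776) (nat_lit 176) .nil)))))) (.g (nat_lit 1) (.e (nat_lit 49528) (nat_lit 0) .nil) .nil)))) (.nd (nat_lit 9) 
(.lf (nat_lit 459046) (.g (nat_lit 4438) (.e (nat_lit 2739) (nat_lit 174) (.e (nat_lit 253992) (nat_lit 11) (.e (nat_lit 16425) (nat_lit 7) (.e (nat_lit 409648) (nat_lit 18) (.e (nat_lit 303137) (nat_lit 10) (.e (nat_lit 434275) (nat_lit 39) (.e (nat_lit 663574) (nat_lit 9) .nil))))))) (.g (nat_lit 1) (.e (nat_lit 49005) (nat_lit 0) .nil) .nil))) 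
(.lf (nat_lit 459558) (.g (nat_lit 2791) (.e (nat_lit 2797) (nat_lit 180) (.e (nat_lit 303143) (nat_lit 12) (.e (nat_lit 475185) (nat_lit 29) (.e (nat_lit 557101) (nat_lit 13) (.e (nat_lit 172097) (nat_lit 9) (.e (nat_lit 426117) (nat_lit 2) (.e (nat_lit 204544) (nat_lit 18) .nil))))))) (.g (nat_lit 1) (.e (nat_lit 50333) (nat_lit 0) .nil) .nil))))) (.nd (nat_lit 8) (.nd (nat_lit 9) 
(.lf (nat_lit 458918) (.g (nat_lit 4508) (.e (nat_lit 2725) (nat_lit 172) (.e (nat_lit 237593) (nat_lit 3) (.e (nat_lit 204869) (nat_lit 29) (.e (nat_lit 360475) (nat_lit 8) (.e (nat_lit 557091) (nat_lit 12) (.e (nat_lit 163843) (nat_lit 0) (.e (nat_lit 6252) (nat_lit 337) .nil))))))) (.g (nat_lit 1) (.e (nat_lit 48631) (nat_lit 0) .nil) .nil))) 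
(.lf (nat_lit 459430) (.g (nat_lit 4566) (.e (nat_lit 2797) (nat_lit 180) (.e (nat_lit 303119) (nat_lit 3) (.e (nat_lit 204868) (nat_lit 29) (.e (nat_lit 360473) (nat_lit 8) (.e (nat_lit 557084) (nat_lit 10) (.e (nat_lit 16128) (nat_lit 225) .nil)))))) (.g (nat_lit 1) (.e (nat_lit 49809) (nat_lit 0) .nil) .nil)))) (.nd (nat_lit 9) 
(.lf (nat_lit 459174) (.g (nat_lit 2167) (.e (nat_lit 2796) (nat_lit 180) (.e (nat_lit 303117) (nat_lit 2) (.e (nat_lit 196674) (nat_lit 15) (.e (nat_lit 81953) (nat_lit 22) .nil)))) (.g (nat_lit 0) (.e (nat_lit 49311) (nat_lit 0) .nil) .nil))) 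
(.lf (nat_lit 459686) (.g (nat_lit 2626) (.e (nat_lit 2798) (nat_lit 180) (.e (nat_lit 303117) (nat_lit 2) (.e (nat_lit 196674) (nat_lit 15) (.e (nat_lit 81954) (nat_lit 23) (.e (nat_lit 98325) (nat_lit 17) (.e (nat_lit 7008) (nat_lit 377) .nil)))))) (.g (nat_lit 1) (.e (nat_lit 50851) (nat_lit 0) .nil) .nil)))))) (.nd (nat_lit 7) (.nd (nat_lit 8) (.nd (nat_lit 9) 
(.lf (nat_lit 458854) (.g (nat_lit 3378) (.e (nat_lit 2725) (nat_lit 172) (.e (nat_lit 237590) (nat_lit 2) (.e (nat_lit 196666) (nat_lit 13) (.e (nat_lit 65617) (nat_lit 10) (.e (nat_lit 344133) (nat_lit 26) (.e (nat_lit 557091) (nat_lit 12) (.e (nat_lit 163844) (nat_lit 0) (.e (nat_lit 6254) (nat_lit 337) .nil)))))))) (.g (nat_lit 1) (.e (nat_lit 48517) (nat_lit 0) .nil) .nil))) 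
(.lf (nat_lit 459366) (.g (nat_lit 4075) (.e (nat_lit 2797) (nat_lit 180) (.e (nat_lit 303119) (nat_lit 3) (.e (nat_lit 204861) (nat_lit 26) (.e (nat_lit 336184) (nat_lit 11) (.e (nat_lit 368676) (nat_lit 21) (.e (nat_lit 516097) (nat_lit 0) (.e (nat_lit 7936) (nat_lit 377) .nil))))))) (.g (nat_lit 1) (.e (nat_lit 49711) (nat_lit 0) .nil) .nil)))) (.nd (nat_lit 9) 
(.lf (nat_lit 459110) (.g (nat_lit 5653) (.e (nat_lit 2744) (nat_lit 174) (.e (nat_lit 253992) (nat_lit 11) (.e (nat_lit 16412) (nat_lit 2) (.e (nat_lit 196674) (nat_lit 15) (.e (nat_lit 81946) (nat_lit 20) (.e (nat_lit 1858) (nat_lit 124) (.e (nat_lit 557070) (nat_lit 9) .nil))))))) (.g (nat_lit 1) (.e (nat_lit 49104) (nat_lit 0) .nil) .nil))) 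
(.lf (nat_lit 459622) (.g (nat_lit 1830) (.e (nat_lit 2798) (nat_lit 180) (.e (nat_lit 303117) (nat_lit 2) (.e (nat_lit 196666) (nat_lit 13) (.e (nat_lit 65599) (nat_lit 9) .nil)))) (.g (nat_lit 0) (.e (nat_lit 50782) (nat_lit 0) .nil) .nil))))) (.nd (nat_lit 8) (.nd (nat_lit 9) 
(.lf (nat_lit 458982) (.g (nat_lit 1896) (.e (nat_lit 2725) (nat_lit 172) (.e (nat_lit 237616) (nat_lit 12) (.e (nat_lit 475211) (nat_lit 41) (.e (nat_lit 712750) (nat_lit 29) (.e (nat_lit 442430) (nat_lit 24) (.e (nat_lit 229664) (nat_lit 240) .nil)))))) (.g (nat_lit 1) (.e (nat_lit 48741) (nat_lit 0) .nil) .nil))) 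
(.lf (nat_lit 459494) (.g (nat_lit 3393) (.e (nat_lit 2797) (nat_lit 180) (.e (nat_lit 303143) (nat_lit 12) (.e (nat_lit 475184) (nat_lit 29) (.e (nat_lit 557109) (nat_lit 15) (.e (nat_lit 188449) (nat_lit 22) (.e (nat_lit 204544) (nat_lit 18) .nil)))))) (.g (nat_lit 1) (.e (nat_lit 50176) (nat_lit 0) .nil) .nil)))) (.nd (nat_lit 9) 
(.lf (nat_lit 459238) (.g (nat_lit 3255) (.e (nat_lit 2797) (nat_lit 180) (.e (nat_lit 303117) (nat_lit 2) (.e (nat_lit 196668) (nat_lit 14) (.e (nat_lit 73782) (nat_lit 32) (.e (nat_lit 2681) (nat_lit 168) (.e (nat_lit 204817) (nat_lit 17) (.e (nat_lit 6198) (nat_lit 332) .nil))))))) (.g (nat_lit 1) (.e (nat_lit 49443) (nat_lit 0) .nil) .nil))) 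
(.lf (nat_lit 459750) (.g (nat_lit 2586) (.e (nat_lit 2798) (nat_lit 180) (.e (nat_lit 303119) (nat_lit 3) (.e (nat_lit 204869) (nat_lit 29) (.e (nat_lit 360473) (nat_lit 8) .nil)))) (.g (nat_lit 0) (.e (nat_lit 51027) (nat_lit 0) .nil) .nil)))))))) (.nd (nat_lit 5) (.nd (nat_lit 6) (.nd (nat_lit 7) (.nd (nat_lit 8) (.nd (nat_lit 9) 
(.lf (nat_lit 458774) (.g (nat_lit 5102) (.e (nat_lit 2725) (nat_lit 172) (.e (nat_lit 237589) (nat_lit 2) (.e (nat_lit 196666) (nat_lit 13) (.e (nat_lit 65617) (nat_lit 10) (.e (nat_lit 344127) (nat_lit 26) (.e (nat_lit 557090) (nat_lit 12) (.e (nat_lit 163843) (nat_lit 0) (.e (nat_lit 6254) (nat_lit 337) .nil)))))))) (.g (nat_lit 1) (.e (nat_lit 48436) (nat_lit 0) .nil) .nil))) 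
(.lf (nat_lit 459286) (.g (nat_lit 3344) (.e (nat_lit 2797) (nat_lit 180) (.e (nat_lit 303117) (nat_lit 2) (.e (nat_lit 196673) (nat_lit 15) (.e (nat_lit 81956) (nat_lit 23) (.e (nat_lit 98325) (nat_lit 17) (.e (nat_lit 6998) (nat_lit 377) .nil)))))) (.g (nat_lit 1) (.e (nat_lit 49508) (nat_lit 0) .nil) .nil)))) (.nd (nat_lit 9) 
(.lf (nat_lit 459030) (.g (nat_lit 2086) (.e (nat_lit 2738) (nat_lit 174) (.e (nat_lit 253992) (nat_lit 11) (.e (nat_lit 16425) (nat_lit 7) (.e (nat_lit 409649) (nat_lit 18) .nil)))) (.g (nat_lit 0) (.e (nat_lit 48981) (nat_lit 0) .nil) .nil))) 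
(.lf (nat_lit 459542) (.g (nat_lit 3225) (.e (nat_lit 2797) (nat_lit 180) (.e (nat_lit 303143) (nat_lit 12) (.e (nat_lit 475185) (nat_lit 29) (.e (nat_lit 557100) (nat_lit 13) (.e (nat_lit 172113) (nat_lit 10) (.e (nat_lit 434221) (nat_lit 19) (.e (nat_lit 507648) (nat_lit 0) .nil))))))) (.g (nat_lit 1) (.e (nat_lit 50310) (nat_lit 0) .nil) .nil))))) (.nd (nat_lit 8) (.nd (nat_lit 9) 
(.lf (nat_lit 458902) (.g (nat_lit 4575) (.e (nat_lit 2725) (nat_lit 172) (.e (nat_lit 237593) (nat_lit 3) (.e (nat_lit 204869) (nat_lit 29) (.e (nat_lit 360474) (nat_lit 8) (.e (nat_lit 557091) (nat_lit 12) (.e (nat_lit 163841) (nat_lit 0) (.e (nat_lit 6252) (nat_lit 337) .nil))))))) (.g (nat_lit 1) (.e (nat_lit 48612) (nat_lit 0) .nil) .nil))) 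
(.lf (nat_lit 459414) (.g (nat_lit 1792) (.e (nat_lit 2797) (nat_lit 180) (.e (nat_lit 303119) (nat_lit 3) (.e (nat_lit 204868) (nat_lit 29) (.e (nat_lit 368384) (nat_lit 1) .nil)))) (.g (nat_lit 0) (.e (nat_lit 49793) (nat_lit 0) .nil) .nil)))) (.nd (nat_lit 9) 
(.lf (nat_lit 459158) (.g (nat_lit 2298) (.e (nat_lit 2795) (nat_lit 180) (.e (nat_lit 303143) (nat_lit 12) (.e (nat_lit 475185) (nat_lit 29) (.e (nat_lit 557107) (nat_lit 15) .nil)))) (.g (nat_lit 0) (.e (nat_lit 49250) (nat_lit 0) .nil) .nil))) 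
(.lf (nat_lit 459670) (.g (nat_lit 3634) (.e (nat_lit 2798) (nat_lit 180) (.e (nat_lit 303117) (nat_lit 2) (.e (nat_lit 196673) (nat_lit 15) (.e (nat_lit 81956) (nat_lit 23) (.e (nat_lit 98325) (nat_lit 17) (.e (nat_lit 6966) (nat_lit 377) .nil)))))) (.g (nat_lit 1) (.e (nat_lit 50835) (nat_lit 0) .nil) .nil)))))) (.nd (nat_lit 7) (.nd (nat_lit 8) (.nd (nat_lit 9) 
(.lf (nat_lit 458838) (.g (nat_lit 3352) (.e (nat_lit 2725) (nat_lit 172) (.e (nat_lit 237590) (nat_lit 2) (.e (nat_lit 196666) (nat_lit 13) (.e (nat_lit 65617) (nat_lit 10) (.e (nat_lit 344130) (nat_lit 26) (.e (nat_lit 557090) (nat_lit 12) (.e (nat_lit 163847) (nat_lit 0) (.e (nat_lit 6254) (nat_lit 337) .nil)))))))) (.g (nat_lit 1) (.e (nat_lit 48501) (nat_lit 0) .nil) .nil))) 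
(.lf (nat_lit 459350) (.g (nat_lit 2567) (.e (nat_lit 2797) (nat_lit 180) (.e (nat_lit 303119) (nat_lit 3) (.e (nat_lit 204855) (nat_lit 26) (.e (nat_lit 336110) (nat_lit 9) .nil)))) (.g (nat_lit 0) (.e (nat_lit 49669) (nat_lit 0) .nil) .nil)))) (.nd (nat_lit 9) 
(.lf (nat_lit 459094) (.g (nat_lit 5061) (.e (nat_lit 2744) (nat_lit 174) (.e (nat_lit 253991) (nat_lit 11) (.e (nat_lit 16416) (nat_lit 3) (.e (nat_lit 204869) (nat_lit 29) (.e (nat_lit 360475) (nat_lit 8) (.e (nat_lit 557070) (nat_lit 9) .nil)))))) (.g (nat_lit 1) (.e (nat_lit 49086) (nat_lit 0) .nil) .nil))) 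
(.lf (nat_lit 459606) (.g (nat_lit 4103) (.e (nat_lit 2798) (nat_lit 180) (.e (nat_lit 303116) (nat_lit 2) (.e (nat_lit 196666) (nat_lit 13) (.e (nat_lit 65610) (nat_lit 10) (.e (nat_lit 344117) (nat_lit 21) (.e (nat_lit 516098) (nat_lit 0) (.e (nat_lit 7073) (nat_lit 377) .nil))))))) (.g (nat_lit 1) (.e (nat_lit 50764) (nat_lit 0) .nil) .nil))))) (.nd (nat_lit 8) (.nd (nat_lit 9) 
(.lf (nat_lit 458966) (.g (nat_lit 1505) (.e (nat_lit 2725) (nat_lit 172) (.e (nat_lit 237615) (nat_lit 12) (.e (nat_lit 475210) (nat_lit 41) (.e (nat_lit 712753) (nat_lit 30) (.e (nat_lit 450569) (nat_lit 0) (.e (nat_lit 5448) (nat_lit 306) .nil)))))) (.g (nat_lit 1) (.e (nat_lit 48724) (nat_lit 0) .nil) .nil))) 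
(.lf (nat_lit 459478) (.g (nat_lit 5115) (.e (nat_lit 2797) (nat_lit 180) (.e (nat_lit 303133) (nat_lit 9) (.e (nat_lit 426412) (nat_lit 15) (.e (nat_lit 1856) (nat_lit 124) (.e (nat_lit 557109) (nat_lit 15) (.e (nat_lit 188449) (nat_lit 22) (.e (nat_lit 204544) (nat_lit 18) .nil))))))) (.g (nat_lit 1) (.e (nat_lit 50062) (nat_lit 0) .nil) .nil)))) (.nd (nat_lit 9) 
(.lf (nat_lit 459222) (.g (nat_lit 3830) (.e (nat_lit 2797) (nat_lit 180) (.e (nat_lit 303117) (nat_lit 2) (.e (nat_lit 196666) (nat_lit 13) (.e (nat_lit 65610) (nat_lit 10) (.e (nat_lit 344117) (nat_lit 21) (.e (nat_lit 516106) (nat_lit 0) (.e (nat_lit 7016) (nat_lit 377) .nil))))))) (.g (nat_lit 1) (.e (nat_lit 49426) (nat_lit 0) .nil) .nil))) 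
(.lf (nat_lit 459734) (.g (nat_lit 2578) (.e (nat_lit 2798) (nat_lit 180) (.e (nat_lit 303119) (nat_lit 3) (.e (nat_lit 204867) (nat_lit 28) (.e (nat_lit 352315) (nat_lit 23) (.e (nat_lit 98325) (nat_lit 17) (.e (nat_lit 6966) (nat_lit 377) .nil)))))) (.g (nat_lit 1) (.e (nat_lit 50977) (nat_lit 0) .nil) .nil))))))) (.nd (nat_lit 6) (.nd (nat_lit 7) (.nd (nat_lit 8) (.nd (nat_lit 9) 
(.lf (nat_lit 458806) (.g (nat_lit 2987) (.e (nat_lit 2725) (nat_lit 172) (.e (nat_lit 237589) (nat_lit 2) (.e (nat_lit 196666) (nat_lit 13) (.e (nat_lit 65617) (nat_lit 10) (.e (nat_lit 344133) (nat_lit 26) (.e (nat_lit 557089) (nat_lit 12) (.e (nat_lit 163849) (nat_lit 0) (.e (nat_lit 6252) (nat_lit 337) .nil)))))))) (.g (nat_lit 1) (.e (nat_lit 48468) (nat_lit 0) .nil) .nil))) 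
(.lf (nat_lit 459318) (.g (nat_lit 2666) (.e (nat_lit 2797) (nat_lit 180) (.e (nat_lit 303117) (nat_lit 2) (.e (nat_lit 196674) (nat_lit 15) (.e (nat_lit 81955) (nat_lit 23) (.e (nat_lit 98325) (nat_lit 17) (.e (nat_lit 6966) (nat_lit 377) .nil)))))) (.g (nat_lit 1) (.e (nat_lit 49545) (nat_lit 0) .nil) .nil)))) (.nd (nat_lit 9) 
(.lf (nat_lit 459062) (.g (nat_lit 2058) (.e (nat_lit 2741) (nat_lit 174) (.e (nat_lit 253991) (nat_lit 11) (.e (nat_lit 16413) (nat_lit 2) (.e (nat_lit 196666) (nat_lit 13) (.e (nat_lit 65617) (nat_lit 10) (.e (nat_lit 344130) (nat_lit 26) (.e (nat_lit 557065) (nat_lit 9) .nil))))))) (.g (nat_lit 1) (.e (nat_lit 49038) (nat_lit 0) .nil) .nil))) 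
(.lf (nat_lit 459574) (.g (nat_lit 3439) (.e (nat_lit 2797) (nat_lit 180) (.e (nat_lit 303143) (nat_lit 12) (.e (nat_lit 475185) (nat_lit 29) (.e (nat_lit 557107) (nat_lit 15) (.e (nat_lit 188441) (nat_lit 20) (.e (nat_lit 3115) (nat_lit 193) (.e (nat_lit 499774) (nat_lit 0) .nil))))))) (.g (nat_lit 1) (.e (nat_lit 50363) (nat_lit 0) .nil) .nil))))) (.nd (nat_lit 8) (.nd (nat_lit 9) 
(.lf (nat_lit 458934) (.g (nat_lit 1411) (.e (nat_lit 2725) (nat_lit 172) (.e (nat_lit 237594) (nat_lit 3) (.e (nat_lit 204868) (nat_lit 29) (.e (nat_lit 360473) (nat_lit 8) (.e (nat_lit 557094) (nat_lit 12) .nil))))) (.g (nat_lit 0) (.e (nat_lit 48656) (nat_lit 0) .nil) .nil))) 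
(.lf (nat_lit 459446) (.g (nat_lit 4687) (.e (nat_lit 2797) (nat_lit 180) (.e (nat_lit 303119) (nat_lit 3) (.e (nat_lit 204869) (nat_lit 29) (.e (nat_lit 360473) (nat_lit 8) (.e (nat_lit 557084) (nat_lit 10) (.e (nat_lit 16128) (nat_lit 225) .nil)))))) (.g (nat_lit 1) (.e (nat_lit 49929) (nat_lit 0) .nil) .nil)))) (.nd (nat_lit 9) 
(.lf (nat_lit 459190) (.g (nat_lit 1846) (.e (nat_lit 2797) (nat_lit 180) (.e (nat_lit 303112) (nat_lit 0) (.e (nat_lit 3252) (nat_lit 197) (.e (nat_lit 532561) (nat_lit 14) (.e (nat_lit 376865) (nat_lit 22) (.e (nat_lit 90181) (nat_lit 16) (.e (nat_lit 237312) (nat_lit 176) .nil))))))) (.g (nat_lit 1) (.e (nat_lit 49377) (nat_lit 0) .nil) .nil))) 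
(.lf (nat_lit 459702) (.g (nat_lit 2332) (.e (nat_lit 2798) (nat_lit 180) (.e (nat_lit 303118) (nat_lit 3) (.e (nat_lit 204868) (nat_lit 29) (.e (nat_lit 360466) (nat_lit 3) (.e (nat_lit 516104) (nat_lit 0) .nil))))) (.g (nat_lit 0) (.e (nat_lit 50876) (nat_lit 0) .nil) .nil)))))) (.nd (nat_lit 7) (.nd (nat_lit 8) (.nd (nat_lit 9) 
(.lf (nat_lit 458870) (.g (nat_lit 2567) (.e (nat_lit 2725) (nat_lit 172) (.e (nat_lit 237592) (nat_lit 3) (.e (nat_lit 204869) (nat_lit 29) (.e (nat_lit 360474) (nat_lit 8) (.e (nat_lit 557093) (nat_lit 12) (.e (nat_lit 163848) (nat_lit 0) (.e (nat_lit 6252) (nat_lit 337) .nil))))))) (.g (nat_lit 1) (.e (nat_lit 48577) (nat_lit 0) .nil) .nil))) 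
(.lf (nat_lit 459382) (.g (nat_lit 3590) (.e (nat_lit 2797) (nat_lit 180) (.e (nat_lit 303119) (nat_lit 3) (.e (nat_lit 204861) (nat_lit 26) (.e (nat_lit 336186) (nat_lit 11) (.e (nat_lit 368676) (nat_lit 21) (.e (nat_lit 516108) (nat_lit 0) (.e (nat_lit 7936) (nat_lit 377) .nil))))))) (.g (nat_lit 1) (.e (nat_lit 49727) (nat_lit 0) .nil) .nil)))) (.nd (nat_lit 9) 
(.lf (nat_lit 459126) (.g (nat_lit 2900) (.e (nat_lit 2749) (nat_lit 175) (.e (nat_lit 262165) (nat_lit 11) (.e (nat_lit 24617) (nat_lit 7) (.e (nat_lit 319534) (nat_lit 16) (.e (nat_lit 286756) (nat_lit 10) (.e (nat_lit 344168) (nat_lit 40) (.e (nat_lit 671771) (nat_lit 9) .nil))))))) (.g (nat_lit 1) (.e (nat_lit 49121) (nat_lit 0) .nil) .nil))) 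
(.lf (nat_lit 459638) (.g (nat_lit 2512) (.e (nat_lit 2798) (nat_lit 180) (.e (nat_lit 303117) (nat_lit 2) (.e (nat_lit 196666) (nat_lit 13) (.e (nat_lit 65617) (nat_lit 10) .nil)))) (.g (nat_lit 0) (.e (nat_lit 50801) (nat_lit 0) .nil) .nil))))) (.nd (nat_lit 8) (.nd (nat_lit 9) 
(.lf (nat_lit 458998) (.g (nat_lit 1874) (.e (nat_lit 2725) (nat_lit 172) (.e (nat_lit 237617) (nat_lit 12) (.e (nat_lit 475211) (nat_lit 41) (.e (nat_lit 712755) (nat_lit 30) (.e (nat_lit 450568) (nat_lit 0) (.e (nat_lit 5448) (nat_lit 306) .nil)))))) (.g (nat_lit 1) (.e (nat_lit 48761) (nat_lit 0) .nil) .nil))) 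
(.lf (nat_lit 459510) (.g (nat_lit 4306) (.e (nat_lit 2797) (nat_lit 180) (.e (nat_lit 303143) (nat_lit 12) (.e (nat_lit 475185) (nat_lit 29) (.e (nat_lit 557098) (nat_lit 13) (.e (nat_lit 172101) (nat_lit 9) .nil))))) (.g (nat_lit 0) (.e (nat_lit 50265) (nat_lit 0) .nil) .nil)))) (.nd (nat_lit 9) 
(.lf (nat_lit 459254) (.g (nat_lit 1963) (.e (nat_lit 2797) (nat_lit 180) (.e (nat_lit 303117) (nat_lit 2) (.e (nat_lit 196672) (nat_lit 15) (.e (nat_lit 81954) (nat_lit 23) (.e (nat_lit 98323) (nat_lit 17) .nil))))) (.g (nat_lit 0) (.e (nat_lit 49476) (nat_lit 0) .nil) .nil))) 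
(.lf (nat_lit 459766) (.g (nat_lit 2242) (.e (nat_lit 2798) (nat_lit 180) (.e (nat_lit 303119) (nat_lit 3) (.e (nat_lit 204878) (nat_lit 31) (.e (nat_lit 376864) (nat_lit 22) (.e (nat_lit 90165) (nat_lit 12) (.e (nat_lit 164210) (nat_lit 176) .nil)))))) (.g (nat_lit 1) (.e (nat_lit 51065) (nat_lit 0) .nil) .nil))))))))) 
(.nd (nat_lit 4) (.nd (nat_lit 5) (.nd (nat_lit 6) (.nd (nat_lit 7) (.nd (nat_lit 8) 
(.nd (nat_lit 9) 
(.lf (nat_lit 458766) (.g (nat_lit 1773) (.e (nat_lit 2725) (nat_lit 172) (.e (nat_lit 237588) (nat_lit 2) (.e (nat_lit 196666) (nat_lit 13) (.e (nat_lit 65617) (nat_lit 10) (.e (nat_lit 344132) (nat_lit 26) .nil))))) (.g (nat_lit 0) (.e (nat_lit 48418) (nat_lit 0) .nil) .nil))) 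
(.lf (nat_lit 459278) (.g (nat_lit 1877) (.e (nat_lit 2797) (nat_lit 180) (.e (nat_lit 303117) (nat_lit 2) (.e (nat_lit 196673) (nat_lit 15) (.e (nat_lit 81954) (nat_lit 23) (.e (nat_lit 98325) (nat_lit 17) .nil))))) (.g (nat_lit 0) (.e (nat_lit 49500) (nat_lit 0) .nil) .nil)))) (.nd (nat_lit 9) 
(.lf (nat_lit 459022) (.g (nat_lit 2490) (.e (nat_lit 2725) (nat_lit 172) (.e (nat_lit 237619) (nat_lit 12) (.e (nat_lit 475211) (nat_lit 41) (.e (nat_lit 712755) (nat_lit 30) (.e (nat_lit 450568) (nat_lit 0) (.e (nat_lit 5448) (nat_lit 306) .nil)))))) (.g (nat_lit 1) (.e (nat_lit 48788) (nat_lit 0) .nil) .nil))) 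
(.lf (nat_lit 459534) (.g (nat_lit 4112) (.e (nat_lit 2797) (nat_lit 180) (.e (nat_lit 303143) (nat_lit 12) (.e (nat_lit 475185) (nat_lit 29) (.e (nat_lit 557100) (nat_lit 13) (.e (nat_lit 172106) (nat_lit 10) (.e (nat_lit 434219) (nat_lit 19) (.e (nat_lit 507648) (nat_lit 0) .nil))))))) (.g (nat_lit 1) (.e (nat_lit 50297) (nat_lit 0) .nil) .nil))))) (.nd (nat_lit 8) (.nd (nat_lit 9) 
(.lf (nat_lit 458894) (.g (nat_lit 4544) (.e (nat_lit 2725) (nat_lit 172) (.e (nat_lit 237593) (nat_lit 3) (.e (nat_lit 204869) (nat_lit 29) (.e (nat_lit 360474) (nat_lit 8) (.e (nat_lit 557089) (nat_lit 12) (.e (nat_lit 163844) (nat_lit 0) (.e (nat_lit 6254) (nat_lit 337) .nil))))))) (.g (nat_lit 1) (.e (nat_lit 48604) (nat_lit 0) .nil) .nil))) 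
(.lf (nat_lit 459406) (.g (nat_lit 3132) (.e (nat_lit 2797) (nat_lit 180) (.e (nat_lit 303119) (nat_lit 3) (.e (nat_lit 204867) (nat_lit 28) (.e (nat_lit 352312) (nat_lit 22) (.e (nat_lit 90165) (nat_lit 12) (.e (nat_lit 164209) (nat_lit 176) .nil)))))) (.g (nat_lit 1) (.e (nat_lit 49784) (nat_lit 0) .nil) .nil)))) (.nd (nat_lit 9) 
(.lf (nat_lit 459150) (.g (nat_lit 1970) (.e (nat_lit 2795) (nat_lit 180) (.e (nat_lit 303119) (nat_lit 3) (.e (nat_lit 204868) (nat_lit 29) (.e (nat_lit 360466) (nat_lit 3) .nil)))) (.g (nat_lit 0) (.e (nat_lit 49234) (nat_lit 0) .nil) .nil))) 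
(.lf (nat_lit 459662) (.g (nat_lit 3253) (.e (nat_lit 2798) (nat_lit 180) (.e (nat_lit 303117) (nat_lit 2) (.e (nat_lit 196672) (nat_lit 15) (.e (nat_lit 81954) (nat_lit 23) (.e (nat_lit 98325) (nat_lit 17) (.e (nat_lit 7008) (nat_lit 377) .nil)))))) (.g (nat_lit 1) (.e (nat_lit 50827) (nat_lit 0) .nil) .nil)))))) (.nd (nat_lit 7) (.nd (nat_lit 8) (.nd (nat_lit 9) 
(.lf (nat_lit 458830) (.g (nat_lit 3065) (.e (nat_lit 2725) (nat_lit 172) (.e (nat_lit 237590) (nat_lit 2) (.e (nat_lit 196666) (nat_lit 13) (.e (nat_lit 65617) (nat_lit 10) (.e (nat_lit 344130) (nat_lit 26) (.e (nat_lit 557089) (nat_lit 12) (.e (nat_lit 163844) (nat_lit 0) (.e (nat_lit 6254) (nat_lit 337) .nil)))))))) (.g (nat_lit 1) (.e (nat_lit 48493) (nat_lit 0) .nil) .nil))) 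
(.lf (nat_lit 459342) (.g (nat_lit 4288) (.e (nat_lit 2797) (nat_lit 180) (.e (nat_lit 303119) (nat_lit 3) (.e (nat_lit 204855) (nat_lit 26) (.e (nat_lit 336073) (nat_lit 9) (.e (nat_lit 336013) (nat_lit 2) (.e (nat_lit 90165) (nat_lit 12) (.e (nat_lit 164209) (nat_lit 176) .nil))))))) (.g (nat_lit 1) (.e (nat_lit 49645) (nat_lit 0) .nil) .nil)))) (.nd (nat_lit 9) 
(.lf (nat_lit 459086) (.g (nat_lit 3267) (.e (nat_lit 2744) (nat_lit 174) (.e (nat_lit 253991) (nat_lit 11) (.e (nat_lit 16412) (nat_lit 2) (.e (nat_lit 196681) (nat_lit 17) (.e (nat_lit 131109) (nat_lit 9) (.e (nat_lit 335878) (nat_lit 0) (.e (nat_lit 1852) (nat_lit 124) (.e (nat_lit 557070) (nat_lit 9) .nil)))))))) (.g (nat_lit 1) (.e (nat_lit 49078) (nat_lit 0) .nil) .nil))) 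
(.lf (nat_lit 459598) (.g (nat_lit 365) (.e (nat_lit 2797) (nat_lit 180) (.e (nat_lit 303145) (nat_lit 13) (.e (nat_lit 483382) (nat_lit 23) .nil))) (.g (nat_lit 0) (.e (nat_lit 50572) (nat_lit 0) .nil) .nil))))) (.nd (nat_lit 8) (.nd (nat_lit 9) 
(.lf (nat_lit 458958) (.g (nat_lit 4582) (.e (nat_lit 2725) (nat_lit 172) (.e (nat_lit 237594) (nat_lit 3) (.e (nat_lit 204869) (nat_lit 29) (.e (nat_lit 360475) (nat_lit 8) (.e (nat_lit 557091) (nat_lit 12) (.e (nat_lit 163844) (nat_lit 0) (.e (nat_lit 6255) (nat_lit 337) .nil))))))) (.g (nat_lit 1) (.e (nat_lit 48686) (nat_lit 0) .nil) .nil))) 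
(.lf (nat_lit 459470) (.g (nat_lit 5104) (.e (nat_lit 2797) (nat_lit 180) (.e (nat_lit 303133) (nat_lit 9) (.e (nat_lit 426412) (nat_lit 15) (.e (nat_lit 1846) (nat_lit 124) (.e (nat_lit 557108) (nat_lit 15) (.e (nat_lit 188449) (nat_lit 22) (.e (nat_lit 204544) (nat_lit 18) .nil))))))) (.g (nat_lit 1) (.e (nat_lit 50045) (nat_lit 0) .nil) .nil)))) (.nd (nat_lit 9) 
(.lf (nat_lit 459214) (.g (nat_lit 4596) (.e (nat_lit 2797) (nat_lit 180) (.e (nat_lit 303117) (nat_lit 2) (.e (nat_lit 196666) (nat_lit 13) (.e (nat_lit 65610) (nat_lit 10) (.e (nat_lit 344117) (nat_lit 21) (.e (nat_lit 516097) (nat_lit 0) (.e (nat_lit 7073) (nat_lit 377) .nil))))))) (.g (nat_lit 1) (.e (nat_lit 49418) (nat_lit 0) .nil) .nil))) 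
(.lf (nat_lit 459726) (.g (nat_lit 4396) (.e (nat_lit 2798) (nat_lit 180) (.e (nat_lit 303119) (nat_lit 3) (.e (nat_lit 204861) (nat_lit 26) (.e (nat_lit 336186) (nat_lit 11) (.e (nat_lit 368676) (nat_lit 21) (.e (nat_lit 516097) (nat_lit 0) (.e (nat_lit 7073) (nat_lit 377) .nil))))))) (.g (nat_lit 1) (.e (nat_lit 50948) (nat_lit 0) .nil) .nil))))))) 
(.nd (nat_lit 6) (.nd (nat_lit 7) (.nd (nat_lit 8) (.nd (nat_lit 9) 
(.lf (nat_lit 458798) (.g (nat_lit 4199) (.e (nat_lit 2725) (nat_lit 172) (.e (nat_lit 237589) (nat_lit 2) (.e (nat_lit 196666) (nat_lit 13) (.e (nat_lit 65617) (nat_lit 10) (.e (nat_lit 344132) (nat_lit 26) (.e (nat_lit 557094) (nat_lit 12) (.e (nat_lit 163849) (nat_lit 0) (.e (nat_lit 6255) (nat_lit 337) .nil)))))))) (.g (nat_lit 1) (.e (nat_lit 48460) (nat_lit 0) .nil) .nil))) 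
(.lf (nat_lit 459310) (.g (nat_lit 2635) (.e (nat_lit 2797) (nat_lit 180) (.e (nat_lit 303117) (nat_lit 2) (.e (nat_lit 196674) (nat_lit 15) (.e (nat_lit 81953) (nat_lit 22) (.e (nat_lit 90165) (nat_lit 12) (.e (nat_lit 171776) (nat_lit 176) .nil)))))) (.g (nat_lit 1) (.e (nat_lit 49537) (nat_lit 0) .nil) .nil)))) (.nd (nat_lit 9) 
(.lf (nat_lit 459054) (.g (nat_lit 4913) (.e (nat_lit 2741) (nat_lit 174) (.e (nat_lit 253990) (nat_lit 11) (.e (nat_lit 16412) (nat_lit 2) (.e (nat_lit 196674) (nat_lit 15) (.e (nat_lit 81946) (nat_lit 20) (.e (nat_lit 1858) (nat_lit 124) (.e (nat_lit 557072) (nat_lit 9) .nil))))))) (.g (nat_lit 1) (.e (nat_lit 49018) (nat_lit 0) .nil) .nil))) 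
(.lf (nat_lit 459566) (.g (nat_lit 2551) (.e (nat_lit 2797) (nat_lit 180) (.e (nat_lit 303143) (nat_lit 12) (.e (nat_lit 475185) (nat_lit 29) (.e (nat_lit 557101) (nat_lit 13) (.e (nat_lit 172116) (nat_lit 10) .nil))))) (.g (nat_lit 0) (.e (nat_lit 50343) (nat_lit 0) .nil) .nil))))) (.nd (nat_lit 8) (.nd (nat_lit 9) 
(.lf (nat_lit 458926) (.g (nat_lit 3864) (.e (nat_lit 2725) (nat_lit 172) (.e (nat_lit 237594) (nat_lit 3) (.e (nat_lit 204868) (nat_lit 29) (.e (nat_lit 360473) (nat_lit 8) (.e (nat_lit 557091) (nat_lit 12) (.e (nat_lit 163843) (nat_lit 0) (.e (nat_lit 6254) (nat_lit 337) .nil))))))) (.g (nat_lit 1) (.e (nat_lit 48645) (nat_lit 0) .nil) .nil))) 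
(.lf (nat_lit 459438) (.g (nat_lit 2405) (.e (nat_lit 2797) (nat_lit 180) (.e (nat_lit 303119) (nat_lit 3) (.e (nat_lit 204869) (nat_lit 29) (.e (nat_lit 360458) (nat_lit 1) .nil)))) (.g (nat_lit 0) (.e (nat_lit 49869) (nat_lit 0) .nil) .nil)))) (.nd (nat_lit 9) 
(.lf (nat_lit 459182) (.g (nat_lit 4901) (.e (nat_lit 2796) (nat_lit 180) (.e (nat_lit 303143) (nat_lit 12) (.e (nat_lit 475185) (nat_lit 29) (.e (nat_lit 557098) (nat_lit 13) (.e (nat_lit 172094) (nat_lit 9) .nil))))) (.g (nat_lit 0) (.e (nat_lit 49335) (nat_lit 0) .nil) .nil))) 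
(.lf (nat_lit 459694) (.g (nat_lit 2518) (.e (nat_lit 2798) (nat_lit 180) (.e (nat_lit 303117) (nat_lit 2) (.e (nat_lit 196674) (nat_lit 15) (.e (nat_lit 81956) (nat_lit 23) (.e (nat_lit 98325) (nat_lit 17) .nil))))) (.g (nat_lit 0) (.e (nat_lit 50859) (nat_lit 0) .nil) .nil)))))) (.nd (nat_lit 7) (.nd (nat_lit 8) (.nd (nat_lit 9) 
(.lf (nat_lit 458862) (.g (nat_lit 2959) (.e (nat_lit 2725) (nat_lit 172) (.e (nat_lit 237592) (nat_lit 3) (.e (nat_lit 204869) (nat_lit 29) (.e (nat_lit 360474) (nat_lit 8) (.e (nat_lit 557089) (nat_lit 12) (.e (nat_lit 163844) (nat_lit 0) (.e (nat_lit 6250) (nat_lit 337) .nil))))))) (.g (nat_lit 1) (.e (nat_lit 48566) (nat_lit 0) .nil) .nil))) 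
(.lf (nat_lit 459374) (.g (nat_lit 3411) (.e (nat_lit 2797) (nat_lit 180) (.e (nat_lit 303119) (nat_lit 3) (.e (nat_lit 204861) (nat_lit 26) (.e (nat_lit 336186) (nat_lit 11) (.e (nat_lit 368676) (nat_lit 21) (.e (nat_lit 516096) (nat_lit 0) (.e (nat_lit 6998) (nat_lit 377) .nil))))))) (.g (nat_lit 1) (.e (nat_lit 49719) (nat_lit 0) .nil) .nil)))) (.nd (nat_lit 9) 
(.lf (nat_lit 459118) (.g (nat_lit 4046) (.e (nat_lit 2744) (nat_lit 174) (.e (nat_lit 253992) (nat_lit 11) (.e (nat_lit 16425) (nat_lit 7) (.e (nat_lit 409648) (nat_lit 18) (.e (nat_lit 303137) (nat_lit 10) (.e (nat_lit 434275) (nat_lit 39) (.e (nat_lit 663572) (nat_lit 9) .nil))))))) (.g (nat_lit 1) (.e (nat_lit 49112) (nat_lit 0) .nil) .nil))) 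
(.lf (nat_lit 459630) (.g (nat_lit 5150) (.e (nat_lit 2798) (nat_lit 180) (.e (nat_lit 303117) (nat_lit 2) (.e (nat_lit 196666) (nat_lit 13) (.e (nat_lit 65610) (nat_lit 10) (.e (nat_lit 344117) (nat_lit 21) (.e (nat_lit 516098) (nat_lit 0) (.e (nat_lit 7073) (nat_lit 377) .nil))))))) (.g (nat_lit 1) (.e (nat_lit 50793) (nat_lit 0) .nil) .nil))))) (.nd (nat_lit 8) (.nd (nat_lit 9) 
(.lf (nat_lit 458990) (.g (nat_lit 1378) (.e (nat_lit 2725) (nat_lit 172) (.e (nat_lit 237617) (nat_lit 12) (.e (nat_lit 475185) (nat_lit 29) (.e (nat_lit 557109) (nat_lit 15) .nil)))) (.g (nat_lit 0) (.e (nat_lit 48750) (nat_lit 0) .nil) .nil))) 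
(.lf (nat_lit 459502) (.g (nat_lit 1986) (.e (nat_lit 2797) (nat_lit 180) (.e (nat_lit 303143) (nat_lit 12) (.e (nat_lit 475185) (nat_lit 29) (.e (nat_lit 557098) (nat_lit 13) .nil)))) (.g (nat_lit 0) (.e (nat_lit 50257) (nat_lit 0) .nil) .nil)))) (.nd (nat_lit 9) 
(.lf (nat_lit 459246) (.g (nat_lit 3325) (.e (nat_lit 2797) (nat_lit 180) (.e (nat_lit 303117) (nat_lit 2) (.e (nat_lit 196672) (nat_lit 15) (.e (nat_lit 81953) (nat_lit 22) (.e (nat_lit 90165) (nat_lit 12) (.e (nat_lit 164207) (nat_lit 176) .nil)))))) (.g (nat_lit 1) (.e (nat_lit 49468) (nat_lit 0) .nil) .nil))) 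
(.lf (nat_lit 459758) (.g (nat_lit 1360) (.e (nat_lit 2798) (nat_lit 180) (.e (nat_lit 303119) (nat_lit 3) (.e (nat_lit 204877) (nat_lit 31) (.e (nat_lit 376864) (nat_lit 22) .nil)))) (.g (nat_lit 0) (.e (nat_lit 51057) (nat_lit 0) .nil) .nil)))))))) (.nd (nat_lit 5) (.nd (nat_lit 6) (.nd (nat_lit 7) (.nd (nat_lit 8) (.nd (nat_lit 9) 
(.lf (nat_lit 458782) (.g (nat_lit 3392) (.e (nat_lit 2725) (nat_lit 172) (.e (nat_lit 237589) (nat_lit 2) (.e (nat_lit 196666) (nat_lit 13) (.e (nat_lit 65617) (nat_lit 10) (.e (nat_lit 344130) (nat_lit 26) (.e (nat_lit 557089) (nat_lit 12) (.e (nat_lit 163848) (nat_lit 0) (.e (nat_lit 6252) (nat_lit 337) .nil)))))))) (.g (nat_lit 1) (.e (nat_lit 48444) (nat_lit 0) .nil) .nil))) 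
(.lf (nat_lit 459294) (.g (nat_lit 2225) (.e (nat_lit 2797) (nat_lit 180) (.e (nat_lit 303117) (nat_lit 2) (.e (nat_lit 196674) (nat_lit 15) (.e (nat_lit 81946) (nat_lit 20) (.e (nat_lit 1788) (nat_lit 119) .nil))))) (.g (nat_lit 0) (.e (nat_lit 49517) (nat_lit 0) .nil) .nil)))) (.nd (nat_lit 9) 
(.lf (nat_lit 459038) (.g (nat_lit 3196) (.e (nat_lit 2739) (nat_lit 174) (.e (nat_lit 253991) (nat_lit 11) (.e (nat_lit 16413) (nat_lit 2) (.e (nat_lit 196666) (nat_lit 13) (.e (nat_lit 65610) (nat_lit 10) (.e (nat_lit 344129) (nat_lit 26) (.e (nat_lit 557074) (nat_lit 9) .nil))))))) (.g (nat_lit 1) (.e (nat_lit 48996) (nat_lit 0) .nil) .nil))) 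
(.lf (nat_lit 459550) (.g (nat_lit 4103) (.e (nat_lit 2797) (nat_lit 180) (.e (nat_lit 303143) (nat_lit 12) (.e (nat_lit 475185) (nat_lit 29) (.e (nat_lit 557101) (nat_lit 13) (.e (nat_lit 172085) (nat_lit 9) (.e (nat_lit 426125) (nat_lit 2) (.e (nat_lit 204544) (nat_lit 18) .nil))))))) (.g (nat_lit 1) (.e (nat_lit 50319) (nat_lit 0) .nil) .nil))))) (.nd (nat_lit 8) (.nd (nat_lit 9) 
(.lf (nat_lit 458910) (.g (nat_lit 4190) (.e (nat_lit 2725) (nat_lit 172) (.e (nat_lit 237593) (nat_lit 3) (.e (nat_lit 204869) (nat_lit 29) (.e (nat_lit 360475) (nat_lit 8) (.e (nat_lit 557089) (nat_lit 12) (.e (nat_lit 163844) (nat_lit 0) (.e (nat_lit 6250) (nat_lit 337) .nil))))))) (.g (nat_lit 1) (.e (nat_lit 48623) (nat_lit 0) .nil) .nil))) 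
(.lf (nat_lit 459422) (.g (nat_lit 3228) (.e (nat_lit 2797) (nat_lit 180) (.e (nat_lit 303119) (nat_lit 3) (.e (nat_lit 204868) (nat_lit 29) (.e (nat_lit 360466) (nat_lit 3) (.e (nat_lit 516099) (nat_lit 0) (.e (nat_lit 7936) (nat_lit 377) .nil)))))) (.g (nat_lit 1) (.e (nat_lit 49801) (nat_lit 0) .nil) .nil)))) (.nd (nat_lit 9) 
(.lf (nat_lit 459166) (.g (nat_lit 3213) (.e (nat_lit 2796) (nat_lit 180) (.e (nat_lit 303117) (nat_lit 2) (.e (nat_lit 196666) (nat_lit 13) (.e (nat_lit 65604) (nat_lit 9) .nil)))) (.g (nat_lit 0) (.e (nat_lit 49303) (nat_lit 0) .nil) .nil))) 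
(.lf (nat_lit 459678) (.g (nat_lit 2470) (.e (nat_lit 2798) (nat_lit 180) (.e (nat_lit 303117) (nat_lit 2) (.e (nat_lit 196674) (nat_lit 15) (.e (nat_lit 81952) (nat_lit 22) (.e (nat_lit 90165) (nat_lit 12) (.e (nat_lit 164207) (nat_lit 176) .nil)))))) (.g (nat_lit 1) (.e (nat_lit 50843) (nat_lit 0) .nil) .nil)))))) (.nd (nat_lit 7) (.nd (nat_lit 8) (.nd (nat_lit 9) 
(.lf (nat_lit 458846) (.g (nat_lit 2100) (.e (nat_lit 2725) (nat_lit 172) (.e (nat_lit 237590) (nat_lit 2) (.e (nat_lit 196666) (nat_lit 13) (.e (nat_lit 65617) (nat_lit 10) (.e (nat_lit 344133) (nat_lit 26) .nil))))) (.g (nat_lit 0) (.e (nat_lit 48509) (nat_lit 0) .nil) .nil))) 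
(.lf (nat_lit 459358) (.g (nat_lit 1224) (.e (nat_lit 2797) (nat_lit 180) (.e (nat_lit 303119) (nat_lit 3) (.e (nat_lit 204860) (nat_lit 26) (.e (nat_lit 336186) (nat_lit 11) .nil)))) (.g (nat_lit 0) (.e (nat_lit 49702) (nat_lit 0) .nil) .nil)))) (.nd (nat_lit 9) 
(.lf (nat_lit 459102) (.g (nat_lit 2040) (.e (nat_lit 2744) (nat_lit 174) (.e (nat_lit 253992) (nat_lit 11) (.e (nat_lit 16409) (nat_lit 2) (.e (nat_lit 196666) (nat_lit 13) (.e (nat_lit 65617) (nat_lit 10) .nil))))) (.g (nat_lit 0) (.e (nat_lit 49096) (nat_lit 0) .nil) .nil))) 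
(.lf (nat_lit 459614) (.g (nat_lit 3464) (.e (nat_lit 2798) (nat_lit 180) (.e (nat_lit 303117) (nat_lit 2) (.e (nat_lit 196666) (nat_lit 13) (.e (nat_lit 65589) (nat_lit 9) (.e (nat_lit 336013) (nat_lit 2) (.e (nat_lit 90165) (nat_lit 12) (.e (nat_lit 164207) (nat_lit 176) .nil))))))) (.g (nat_lit 1) (.e (nat_lit 50774) (nat_lit 0) .nil) .nil))))) (.nd (nat_lit 8) (.nd (nat_lit 9) 
(.lf (nat_lit 458974) (.g (nat_lit 1644) (.e (nat_lit 2725) (nat_lit 172) (.e (nat_lit 237616) (nat_lit 12) (.e (nat_lit 475209) (nat_lit 41) (.e (nat_lit 712752) (nat_lit 29) (.e (nat_lit 442430) (nat_lit 24) (.e (nat_lit 229664) (nat_lit 240) .nil)))))) (.g (nat_lit 1) (.e (nat_lit 48732) (nat_lit 0) .nil) .nil))) 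
(.lf (nat_lit 459486) (.g (nat_lit 1532) (.e (nat_lit 2797) (nat_lit 180) (.e (nat_lit 303133) (nat_lit 9) (.e (nat_lit 426499) (nat_lit 27) (.e (nat_lit 336100) (nat_lit 9) .nil)))) (.g (nat_lit 0) (.e (nat_lit 50092) (nat_lit 0) .nil) .nil)))) (.nd (nat_lit 9) 
(.lf (nat_lit 459230) (.g (nat_lit 3438) (.e (nat_lit 2797) (nat_lit 180) (.e (nat_lit 303117) (nat_lit 2) (.e (nat_lit 196666) (nat_lit 13) (.e (nat_lit 65619) (nat_lit 10) (.e (nat_lit 344117) (nat_lit 21) (.e (nat_lit 516098) (nat_lit 0) (.e (nat_lit 7073) (nat_lit 377) .nil))))))) (.g (nat_lit 1) (.e (nat_lit 49434) (nat_lit 0) .nil) .nil))) 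
(.lf (nat_lit 459742) (.g (nat_lit 3795) (.e (nat_lit 2798) (nat_lit 180) (.e (nat_lit 303119) (nat_lit 3) (.e (nat_lit 204868) (nat_lit 29) (.e (nat_lit 360466) (nat_lit 3) (.e (nat_lit 516098) (nat_lit 0) (.e (nat_lit 7073) (nat_lit 377) .nil)))))) (.g (nat_lit 1) (.e (nat_lit 50985) (nat_lit 0) .nil) .nil))))))) (.nd (nat_lit 6) (.nd (nat_lit 7) (.nd (nat_lit 8) (.nd (nat_lit 9) 
(.lf (nat_lit 458814) (.g (nat_lit 3262) (.e (nat_lit 2725) (nat_lit 172) (.e (nat_lit 237589) (nat_lit 2) (.e (nat_lit 196666) (nat_lit 13) (.e (nat_lit 65617) (nat_lit 10) (.e (nat_lit 344133) (nat_lit 26) (.e (nat_lit 557091) (nat_lit 12) (.e (nat_lit 163844) (nat_lit 0) (.e (nat_lit 6252) (nat_lit 337) .nil)))))))) (.g (nat_lit 1) (.e (nat_lit 48476) (nat_lit 0) .nil) .nil))) 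
(.lf (nat_lit 459326) (.g (nat_lit 2359) (.e (nat_lit 2797) (nat_lit 180) (.e (nat_lit 303117) (nat_lit 2) (.e (nat_lit 196674) (nat_lit 15) (.e (nat_lit 81956) (nat_lit 23) (.e (nat_lit 98321) (nat_lit 17) .nil))))) (.g (nat_lit 0) (.e (nat_lit 49553) (nat_lit 0) .nil) .nil)))) (.nd (nat_lit 9) 
(.lf (nat_lit 459070) (.g (nat_lit 2230) (.e (nat_lit 2742) (nat_lit 174) (.e (nat_lit 253992) (nat_lit 11) (.e (nat_lit 16425) (nat_lit 7) (.e (nat_lit 409649) (nat_lit 18) (.e (nat_lit 303140) (nat_lit 10) .nil))))) (.g (nat_lit 0) (.e (nat_lit 49048) (nat_lit 0) .nil) .nil))) 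
(.lf (nat_lit 459582) (.g (nat_lit 3435) (.e (nat_lit 2797) (nat_lit 180) (.e (nat_lit 303143) (nat_lit 12) (.e (nat_lit 475185) (nat_lit 29) (.e (nat_lit 557109) (nat_lit 15) (.e (nat_lit 188447) (nat_lit 22) (.e (nat_lit 204544) (nat_lit 18) .nil)))))) (.g (nat_lit 1) (.e (nat_lit 50373) (nat_lit 0) .nil) .nil))))) (.nd (nat_lit 8) (.nd (nat_lit 9) 
(.lf (nat_lit 458942) (.g (nat_lit 3491) (.e (nat_lit 2725) (nat_lit 172) (.e (nat_lit 237594) (nat_lit 3) (.e (nat_lit 204869) (nat_lit 29) (.e (nat_lit 360474) (nat_lit 8) (.e (nat_lit 557091) (nat_lit 12) (.e (nat_lit 163847) (nat_lit 0) (.e (nat_lit 6252) (nat_lit 337) .nil))))))) (.g (nat_lit 1) (.e (nat_lit 48670) (nat_lit 0) .nil) .nil))) 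
(.lf (nat_lit 459454) (.g (nat_lit 1105) (.e (nat_lit 2797) (nat_lit 180) (.e (nat_lit 303119) (nat_lit 3) (.e (nat_lit 204877) (nat_lit 31) (.e (nat_lit 376864) (nat_lit 22) .nil)))) (.g (nat_lit 0) (.e (nat_lit 50007) (nat_lit 0) .nil) .nil)))) (.nd (nat_lit 9) 
(.lf (nat_lit 459198) (.g (nat_lit 4124) (.e (nat_lit 2797) (nat_lit 180) (.e (nat_lit 303116) (nat_lit 2) (.e (nat_lit 196666) (nat_lit 13) (.e (nat_lit 65617) (nat_lit 10) (.e (nat_lit 344130) (nat_lit 26) (.e (nat_lit 557084) (nat_lit 10) (.e (nat_lit 16128) (nat_lit 225) .nil))))))) (.g (nat_lit 1) (.e (nat_lit 49386) (nat_lit 0) .nil) .nil))) 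
(.lf (nat_lit 459710) (.g (nat_lit 2386) (.e (nat_lit 2798) (nat_lit 180) (.e (nat_lit 303119) (nat_lit 3) (.e (nat_lit 204846) (nat_lit 24) (.e (nat_lit 319488) (nat_lit 0) .nil)))) (.g (nat_lit 0) (.e (nat_lit 50890) (nat_lit 0) .nil) .nil)))))) (.nd (nat_lit 7) (.nd (nat_lit 8) (.nd (nat_lit 9) 
(.lf (nat_lit 458878) (.g (nat_lit 2809) (.e (nat_lit 2725) (nat_lit 172) (.e (nat_lit 237593) (nat_lit 3) (.e (nat_lit 204868) (nat_lit 29) (.e (nat_lit 360473) (nat_lit 8) (.e (nat_lit 557089) (nat_lit 12) (.e (nat_lit 163844) (nat_lit 0) (.e (nat_lit 6254) (nat_lit 337) .nil))))))) (.g (nat_lit 1) (.e (nat_lit 48585) (nat_lit 0) .nil) .nil))) 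
(.lf (nat_lit 459390) (.g (nat_lit 3099) (.e (nat_lit 2797) (nat_lit 180) (.e (nat_lit 303119) (nat_lit 3) (.e (nat_lit 204865) (nat_lit 28) (.e (nat_lit 352310) (nat_lit 22) (.e (nat_lit 90165) (nat_lit 12) (.e (nat_lit 164207) (nat_lit 176) .nil)))))) (.g (nat_lit 1) (.e (nat_lit 49744) (nat_lit 0) .nil) .nil)))) (.nd (nat_lit 9) 
(.lf (nat_lit 459134) (.g (nat_lit 1949) (.e (nat_lit 2757) (nat_lit 176) (.e (nat_lit 270354) (nat_lit 8) (.e (nat_lit 303145) (nat_lit 13) (.e (nat_lit 483405) (nat_lit 26) (.e (nat_lit 392960) (nat_lit 49) .nil))))) (.g (nat_lit 0) (.e (nat_lit 49133) (nat_lit 0) .nil) .nil))) 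
(.lf (nat_lit 459646) (.g (nat_lit 4240) (.e (nat_lit 2798) (nat_lit 180) (.e (nat_lit 303117) (nat_lit 2) (.e (nat_lit 196666) (nat_lit 13) (.e (nat_lit 65619) (nat_lit 10) (.e (nat_lit 344117) (nat_lit 21) (.e (nat_lit 516098) (nat_lit 0) (.e (nat_lit 7073) (nat_lit 377) .nil))))))) (.g (nat_lit 1) (.e (nat_lit 50809) (nat_lit 0) .nil) .nil))))) (.nd (nat_lit 8) (.nd (nat_lit 9) 
(.lf (nat_lit 459006) (.g (nat_lit 2986) (.e (nat_lit 2725) (nat_lit 172) (.e (nat_lit 237619) (nat_lit 12) (.e (nat_lit 475209) (nat_lit 41) (.e (nat_lit 712752) (nat_lit 29) (.e (nat_lit 442430) (nat_lit 24) (.e (nat_lit 229665) (nat_lit 240) .nil)))))) (.g (nat_lit 1) (.e (nat_lit 48770) (nat_lit 0) .nil) .nil))) 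
(.lf (nat_lit 459518) (.g (nat_lit 3458) (.e (nat_lit 2797) (nat_lit 180) (.e (nat_lit 303143) (nat_lit 12) (.e (nat_lit 475185) (nat_lit 29) (.e (nat_lit 557100) (nat_lit 13) (.e (nat_lit 172088) (nat_lit 9) (.e (nat_lit 426120) (nat_lit 2) (.e (nat_lit 204544) (nat_lit 18) .nil))))))) (.g (nat_lit 1) (.e (nat_lit 50277) (nat_lit 0) .nil) .nil)))) (.nd (nat_lit 9) 
(.lf (nat_lit 459262) (.g (nat_lit 3414) (.e (nat_lit 2797) (nat_lit 180) (.e (nat_lit 303117) (nat_lit 2) (.e (nat_lit 196672) (nat_lit 15) (.e (nat_lit 81954) (nat_lit 23) (.e (nat_lit 98325) (nat_lit 17) (.e (nat_lit 7936) (nat_lit 377) .nil)))))) (.g (nat_lit 1) (.e (nat_lit 49484) (nat_lit 0) .nil) .nil))) 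
(.lf (nat_lit 459774) (.g (nat_lit 2333) (.e (nat_lit 2798) (nat_lit 180) (.e (nat_lit 303133) (nat_lit 9) (.e (nat_lit 426412) (nat_lit 15) (.e (nat_lit 1781) (nat_lit 119) (.e (nat_lit 516130) (nat_lit 3) (.e (nat_lit 221208) (nat_lit 21) (.e (nat_lit 164183) (nat_lit 154) (.e (nat_lit 57375) (nat_lit 2) (.e (nat_lit 90196) (nat_lit 18) .nil))))))))) (.g (nat_lit 1) (.e (nat_lit 51154) (nat_lit 0) .nil) .nil)))))))))))) 
(.nd (nat_lit 1) (.nd (nat_lit 2) (.nd (nat_lit 3) (.nd (nat_lit 4) (.nd (nat_lit 5) 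
(.nd (nat_lit 6) (.nd (nat_lit 7) (.nd (nat_lit 8) (.nd (nat_lit 9) 
(.lf (nat_lit 458753) (.g (nat_lit 3488) (.e (nat_lit 2725) (nat_lit 172) (.e (nat_lit 237587) (nat_lit 2) (.e (nat_lit 196666) (nat_lit 13) (.e (nat_lit 65617) (nat_lit 10) (.e (nat_lit 344133) (nat_lit 26) (.e (nat_lit 557089) (nat_lit 12) (.e (nat_lit 163844) (nat_lit 0) (.e (nat_lit 6254) (nat_lit 337) .nil)))))))) (.g (nat_lit 1) (.e (nat_lit 48365) (nat_lit 0) .nil) .nil))) 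
(.lf (nat_lit 459265) (.g (nat_lit 3097) (.e (nat_lit 2797) (nat_lit 180) (.e (nat_lit 303117) (nat_lit 2) (.e (nat_lit 196672) (nat_lit 15) (.e (nat_lit 81956) (nat_lit 23) (.e (nat_lit 98320) (nat_lit 17) .nil))))) (.g (nat_lit 0) (.e (nat_lit 49487) (nat_lit 0) .nil) .nil)))) (.nd (nat_lit 9) 
(.lf (nat_lit 459009) (.g (nat_lit 3097) (.e (nat_lit 2725) (nat_lit 172) (.e (nat_lit 237619) (nat_lit 12) (.e (nat_lit 475210) (nat_lit 41) (.e (nat_lit 712752) (nat_lit 29) (.e (nat_lit 442430) (nat_lit 24) (.e (nat_lit 229665) (nat_lit 240) .nil)))))) (.g (nat_lit 1) (.e (nat_lit 48775) (nat_lit 0) .nil) .nil))) 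
(.lf (nat_lit 459521) (.g (nat_lit 5312) (.e (nat_lit 2797) (nat_lit 180) (.e (nat_lit 303143) (nat_lit 12) (.e (nat_lit 475185) (nat_lit 29) (.e (nat_lit 557100) (nat_lit 13) (.e (nat_lit 172094) (nat_lit 9) (.e (nat_lit 426125) (nat_lit 2) (.e (nat_lit 204544) (nat_lit 18) .nil))))))) (.g (nat_lit 1) (.e (nat_lit 50280) (nat_lit 0) .nil) .nil))))) (.nd (nat_lit 8) (.nd (nat_lit 9) 
(.lf (nat_lit 458881) (.g (nat_lit 2552) (.e (nat_lit 2725) (nat_lit 172) (.e (nat_lit 237593) (nat_lit 3) (.e (nat_lit 204868) (nat_lit 29) (.e (nat_lit 360473) (nat_lit 8) (.e (nat_lit 557089) (nat_lit 12) (.e (nat_lit 163849) (nat_lit 0) (.e (nat_lit 6255) (nat_lit 337) .nil))))))) (.g (nat_lit 1) (.e (nat_lit 48588) (nat_lit 0) .nil) .nil))) 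
(.lf (nat_lit 459393) (.g (nat_lit 2062) (.e (nat_lit 2797) (nat_lit 180) (.e (nat_lit 303119) (nat_lit 3) (.e (nat_lit 204865) (nat_lit 28) (.e (nat_lit 352312) (nat_lit 22) (.e (nat_lit 90165) (nat_lit 12) .nil))))) (.g (nat_lit 0) (.e (nat_lit 49748) (nat_lit 0) .nil) .nil)))) (.nd (nat_lit 9) 
(.lf (nat_lit 459137) (.g (nat_lit 3396) (.e (nat_lit 2769) (nat_lit 177) (.e (nat_lit 278552) (nat_lit 10) (.e (nat_lit 5395) (nat_lit 301) (.e (nat_lit 57464) (nat_lit 23) (.e (nat_lit 516151) (nat_lit 9) (.e (nat_lit 426211) (nat_lit 9) (.e (nat_lit 426125) (nat_lit 2) (.e (nat_lit 204544) (nat_lit 18) .nil)))))))) (.g (nat_lit 1) (.e (nat_lit 49144) (nat_lit 0) .nil) .nil))) 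
(.lf (nat_lit 459649) (.g (nat_lit 3414) (.e (nat_lit 2798) (nat_lit 180) (.e (nat_lit 303117) (nat_lit 2) (.e (nat_lit 196666) (nat_lit 13) (.e (nat_lit 65619) (nat_lit 10) (.e (nat_lit 344117) (nat_lit 21) (.e (nat_lit 516106) (nat_lit 0) (.e (nat_lit 7936) (nat_lit 377) .nil))))))) (.g (nat_lit 1) (.e (nat_lit 50812) (nat_lit 0) .nil) .nil)))))) 
(.nd (nat_lit 7) (.nd (nat_lit 8) (.nd (nat_lit 9) 
(.lf (nat_lit 458817) (.g (nat_lit 2595) (.e (nat_lit 2725) (nat_lit 172) (.e (nat_lit 237589) (nat_lit 2) (.e (nat_lit 196666) (nat_lit 13) (.e (nat_lit 65617) (nat_lit 10) (.e (nat_lit 344133) (nat_lit 26) (.e (nat_lit 557091) (nat_lit 12) (.e (nat_lit 163847) (nat_lit 0) (.e (nat_lit 6250) (nat_lit 337) .nil)))))))) (.g (nat_lit 1) (.e (nat_lit 48479) (nat_lit 0) .nil) .nil))) 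
(.lf (nat_lit 459329) (.g (nat_lit 3444) (.e (nat_lit 2797) (nat_lit 180) (.e (nat_lit 303117) (nat_lit 2) (.e (nat_lit 196674) (nat_lit 15) (.e (nat_lit 81956) (nat_lit 23) (.e (nat_lit 98325) (nat_lit 17) (.e (nat_lit 7008) (nat_lit 377) .nil)))))) (.g (nat_lit 1) (.e (nat_lit 49556) (nat_lit 0) .nil) .nil)))) (.nd (nat_lit 9) 
(.lf (nat_lit 459073) (.g (nat_lit 2962) (.e (nat_lit 2744) (nat_lit 174) (.e (nat_lit 253988) (nat_lit 11) (.e (nat_lit 16417) (nat_lit 3) (.e (nat_lit 204869) (nat_lit 29) (.e (nat_lit 360474) (nat_lit 8) (.e (nat_lit 557070) (nat_lit 9) .nil)))))) (.g (nat_lit 1) (.e (nat_lit 49060) (nat_lit 0) .nil) .nil))) 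
(.lf (nat_lit 459585) (.g (nat_lit 3927) (.e (nat_lit 2797) (nat_lit 180) (.e (nat_lit 303143) (nat_lit 12) (.e (nat_lit 475185) (nat_lit 29) (.e (nat_lit 557109) (nat_lit 15) (.e (nat_lit 188458) (nat_lit 25) (.e (nat_lit 253696) (nat_lit 18) .nil)))))) (.g (nat_lit 1) (.e (nat_lit 50376) (nat_lit 0) .nil) .nil))))) (.nd (nat_lit 8) (.nd (nat_lit 9) 
(.lf (nat_lit 458945) (.g (nat_lit 3427) (.e (nat_lit 2725) (nat_lit 172) (.e (nat_lit 237594) (nat_lit 3) (.e (nat_lit 204869) (nat_lit 29) (.e (nat_lit 360474) (nat_lit 8) (.e (nat_lit 557093) (nat_lit 12) (.e (nat_lit 163848) (nat_lit 0) (.e (nat_lit 6252) (nat_lit 337) .nil))))))) (.g (nat_lit 1) (.e (nat_lit 48673) (nat_lit 0) .nil) .nil))) 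
(.lf (nat_lit 459457) (.g (nat_lit 2677) (.e (nat_lit 2797) (nat_lit 180) (.e (nat_lit 303119) (nat_lit 3) (.e (nat_lit 204878) (nat_lit 31) (.e (nat_lit 376862) (nat_lit 22) (.e (nat_lit 90165) (nat_lit 12) (.e (nat_lit 164207) (nat_lit 176) .nil)))))) (.g (nat_lit 1) (.e (nat_lit 50010) (nat_lit 0) .nil) .nil)))) (.nd (nat_lit 9) 
(.lf (nat_lit 459201) (.g (nat_lit 3282) (.e (nat_lit 2797) (nat_lit 180) (.e (nat_lit 303117) (nat_lit 2) (.e (nat_lit 196663) (nat_lit 13) (.e (nat_lit 65630) (nat_lit 14) (.e (nat_lit 401428) (nat_lit 3) (.e (nat_lit 204816) (nat_lit 17) (.e (nat_lit 6203) (nat_lit 332) .nil))))))) (.g (nat_lit 1) (.e (nat_lit 49389) (nat_lit 0) .nil) .nil))) 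
(.lf (nat_lit 459713) (.g (nat_lit 4100) (.e (nat_lit 2798) (nat_lit 180) (.e (nat_lit 303119) (nat_lit 3) (.e (nat_lit 204849) (nat_lit 25) (.e (nat_lit 327698) (nat_lit 8) (.e (nat_lit 303118) (nat_lit 3) (.e (nat_lit 204816) (nat_lit 17) (.e (nat_lit 6203) (nat_lit 332) .nil))))))) (.g (nat_lit 1) (.e (nat_lit 50893) (nat_lit 0) .nil) .nil))))))) 
(.nd (nat_lit 6) (.nd (nat_lit 7) (.nd (nat_lit 8) (.nd (nat_lit 9) 
(.lf (nat_lit 458785) (.g (nat_lit 3278) (.e (nat_lit 2725) (nat_lit 172) (.e (nat_lit 237589) (nat_lit 2) (.e (nat_lit 196666) (nat_lit 13) (.e (nat_lit 65617) (nat_lit 10) (.e (nat_lit 344130) (nat_lit 26) (.e (nat_lit 557090) (nat_lit 12) (.e (nat_lit 163844) (nat_lit 0) (.e (nat_lit 6250) (nat_lit 337) .nil)))))))) (.g (nat_lit 1) (.e (nat_lit 48447) (nat_lit 0) .nil) .nil))) 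
(.lf (nat_lit 459297) (.g (nat_lit 2053) (.e (nat_lit 2797) (nat_lit 180) (.e (nat_lit 303117) (nat_lit 2) (.e (nat_lit 196674) (nat_lit 15) (.e (nat_lit 81946) (nat_lit 20) (.e (nat_lit 1858) (nat_lit 124) (.e (nat_lit 557082) (nat_lit 10) (.e (nat_lit 16128) (nat_lit 225) .nil))))))) (.g (nat_lit 1) (.e (nat_lit 49520) (nat_lit 0) .nil) .nil)))) (.nd (nat_lit 9) 
(.lf (nat_lit 459041) (.g (nat_lit 4280) (.e (nat_lit 2739) (nat_lit 174) (.e (nat_lit 253991) (nat_lit 11) (.e (nat_lit 16425) (nat_lit 7) (.e (nat_lit 409648) (nat_lit 18) (.e (nat_lit 303137) (nat_lit 10) (.e (nat_lit 434275) (nat_lit 39) (.e (nat_lit 663574) (nat_lit 9) .nil))))))) (.g (nat_lit 1) (.e (nat_lit 48999) (nat_lit 0) .nil) .nil))) 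
(.lf (nat_lit 459553) (.g (nat_lit 2209) (.e (nat_lit 2797) (nat_lit 180) (.e (nat_lit 303143) (nat_lit 12) (.e (nat_lit 475185) (nat_lit 29) (.e (nat_lit 557101) (nat_lit 13) (.e (nat_lit 172100) (nat_lit 9) (.e (nat_lit 426113) (nat_lit 2) (.e (nat_lit 204544) (nat_lit 18) .nil))))))) (.g (nat_lit 1) (.e (nat_lit 50322) (nat_lit 0) .nil) .nil))))) (.nd (nat_lit 8) (.nd (nat_lit 9) 
(.lf (nat_lit 458913) (.g (nat_lit 4570) (.e (nat_lit 2725) (nat_lit 172) (.e (nat_lit 237593) (nat_lit 3) (.e (nat_lit 204869) (nat_lit 29) (.e (nat_lit 360475) (nat_lit 8) (.e (nat_lit 557089) (nat_lit 12) (.e (nat_lit 163848) (nat_lit 0) (.e (nat_lit 6252) (nat_lit 337) .nil))))))) (.g (nat_lit 1) (.e (nat_lit 48626) (nat_lit 0) .nil) .nil))) 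
(.lf (nat_lit 459425) (.g (nat_lit 3161) (.e (nat_lit 2797) (nat_lit 180) (.e (nat_lit 303119) (nat_lit 3) (.e (nat_lit 204868) (nat_lit 29) (.e (nat_lit 360466) (nat_lit 3) (.e (nat_lit 516103) (nat_lit 0) .nil))))) (.g (nat_lit 0) (.e (nat_lit 49804) (nat_lit 0) .nil) .nil)))) (.nd (nat_lit 9) 
(.lf (nat_lit 459169) (.g (nat_lit 3818) (.e (nat_lit 2796) (nat_lit 180) (.e (nat_lit 303117) (nat_lit 2) (.e (nat_lit 196666) (nat_lit 13) (.e (nat_lit 65619) (nat_lit 10) (.e (nat_lit 344117) (nat_lit 21) (.e (nat_lit 516106) (nat_lit 0) (.e (nat_lit 7008) (nat_lit 377) .nil))))))) (.g (nat_lit 1) (.e (nat_lit 49306) (nat_lit 0) .nil) .nil))) 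
(.lf (nat_lit 459681) (.g (nat_lit 2192) (.e (nat_lit 2798) (nat_lit 180) (.e (nat_lit 303117) (nat_lit 2) (.e (nat_lit 196674) (nat_lit 15) (.e (nat_lit 81953) (nat_lit 22) (.e (nat_lit 90165) (nat_lit 12) .nil))))) (.g (nat_lit 0) (.e (nat_lit 50846) (nat_lit 0) .nil) .nil)))))) (.nd (nat_lit 7) (.nd (nat_lit 8) (.nd (nat_lit 9) 
(.lf (nat_lit 458849) (.g (nat_lit 2252) (.e (nat_lit 2725) (nat_lit 172) (.e (nat_lit 237590) (nat_lit 2) (.e (nat_lit 196666) (nat_lit 13) (.e (nat_lit 65617) (nat_lit 10) (.e (nat_lit 344133) (nat_lit 26) (.e (nat_lit 557089) (nat_lit 12) (.e (nat_lit 163848) (nat_lit 0) (.e (nat_lit 6252) (nat_lit 337) .nil)))))))) (.g (nat_lit 1) (.e (nat_lit 48512) (nat_lit 0) .nil) .nil))) 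
(.lf (nat_lit 459361) (.g (nat_lit 3347) (.e (nat_lit 2797) (nat_lit 180) (.e (nat_lit 303119) (nat_lit 3) (.e (nat_lit 204860) (nat_lit 26) (.e (nat_lit 336186) (nat_lit 11) (.e (nat_lit 368676) (nat_lit 21) (.e (nat_lit 516098) (nat_lit 0) (.e (nat_lit 7073) (nat_lit 377) .nil))))))) (.g (nat_lit 1) (.e (nat_lit 49705) (nat_lit 0) .nil) .nil)))) (.nd (nat_lit 9) 
(.lf (nat_lit 459105) (.g (nat_lit 5616) (.e (nat_lit 2744) (nat_lit 174) (.e (nat_lit 253992) (nat_lit 11) (.e (nat_lit 16412) (nat_lit 2) (.e (nat_lit 196666) (nat_lit 13) (.e (nat_lit 65610) (nat_lit 10) (.e (nat_lit 344129) (nat_lit 26) (.e (nat_lit 557070) (nat_lit 9) .nil))))))) (.g (nat_lit 1) (.e (nat_lit 49099) (nat_lit 0) .nil) .nil))) 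
(.lf (nat_lit 459617) (.g (nat_lit 2039) (.e (nat_lit 2798) (nat_lit 180) (.e (nat_lit 303117) (nat_lit 2) (.e (nat_lit 196666) (nat_lit 13) (.e (nat_lit 65596) (nat_lit 9) (.e (nat_lit 336013) (nat_lit 2) .nil))))) (.g (nat_lit 0) (.e (nat_lit 50777) (nat_lit 0) .nil) .nil))))) (.nd (nat_lit 8) (.nd (nat_lit 9) 
(.lf (nat_lit 458977) (.g (nat_lit 1962) (.e (nat_lit 2725) (nat_lit 172) (.e (nat_lit 237616) (nat_lit 12) (.e (nat_lit 475210) (nat_lit 41) (.e (nat_lit 712752) (nat_lit 29) (.e (nat_lit 442430) (nat_lit 24) (.e (nat_lit 229664) (nat_lit 240) .nil)))))) (.g (nat_lit 1) (.e (nat_lit 48736) (nat_lit 0) .nil) .nil))) 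
(.lf (nat_lit 459489) (.g (nat_lit 3214) (.e (nat_lit 2797) (nat_lit 180) (.e (nat_lit 303133) (nat_lit 9) (.e (nat_lit 426499) (nat_lit 27) (.e (nat_lit 336226) (nat_lit 14) (.e (nat_lit 401454) (nat_lit 12) (.e (nat_lit 483072) (nat_lit 16) .nil)))))) (.g (nat_lit 1) (.e (nat_lit 50097) (nat_lit 0) .nil) .nil)))) (.nd (nat_lit 9) 
(.lf (nat_lit 459233) (.g (nat_lit 4300) (.e (nat_lit 2797) (nat_lit 180) (.e (nat_lit 303117) (nat_lit 2) (.e (nat_lit 196666) (nat_lit 13) (.e (nat_lit 65619) (nat_lit 10) (.e (nat_lit 344117) (nat_lit 21) (.e (nat_lit 516106) (nat_lit 0) (.e (nat_lit 7014) (nat_lit 377) .nil))))))) (.g (nat_lit 1) (.e (nat_lit 49437) (nat_lit 0) .nil) .nil))) 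
(.lf (nat_lit 459745) (.g (nat_lit 3359) (.e (nat_lit 2798) (nat_lit 180) (.e (nat_lit 303119) (nat_lit 3) (.e (nat_lit 204868) (nat_lit 29) (.e (nat_lit 360466) (nat_lit 3) (.e (nat_lit 516105) (nat_lit 0) (.e (nat_lit 7936) (nat_lit 377) .nil)))))) (.g (nat_lit 1) (.e (nat_lit 50988) (nat_lit 0) .nil) .nil)))))))) 
(.nd (nat_lit 5) (.nd (nat_lit 6) (.nd (nat_lit 7) (.nd (nat_lit 8) (.nd (nat_lit 9) 
(.lf (nat_lit 458769) (.g (nat_lit 5002) (.e (nat_lit 2725) (nat_lit 172) (.e (nat_lit 237589) (nat_lit 2) (.e (nat_lit 196666) (nat_lit 13) (.e (nat_lit 65610) (nat_lit 10) (.e (nat_lit 344129) (nat_lit 26) (.e (nat_lit 557090) (nat_lit 12) (.e (nat_lit 163843) (nat_lit 0) (.e (nat_lit 6255) (nat_lit 337) .nil)))))))) (.g (nat_lit 1) (.e (nat_lit 48431) (nat_lit 0) .nil) .nil))) 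
(.lf (nat_lit 459281) (.g (nat_lit 3404) (.e (nat_lit 2797) (nat_lit 180) (.e (nat_lit 303117) (nat_lit 2) (.e (nat_lit 196673) (nat_lit 15) (.e (nat_lit 81956) (nat_lit 23) (.e (nat_lit 98319) (nat_lit 17) (.e (nat_lit 7936) (nat_lit 377) .nil)))))) (.g (nat_lit 1) (.e (nat_lit 49503) (nat_lit 0) .nil) .nil)))) (.nd (nat_lit 9) 
(.lf (nat_lit 459025) (.g (nat_lit 2429) (.e (nat_lit 2727) (nat_lit 172) (.e (nat_lit 237589) (nat_lit 2) (.e (nat_lit 196666) (nat_lit 13) (.e (nat_lit 65617) (nat_lit 10) (.e (nat_lit 344133) (nat_lit 26) .nil))))) (.g (nat_lit 0) (.e (nat_lit 48943) (nat_lit 0) .nil) .nil))) 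
(.lf (nat_lit 459537) (.g (nat_lit 3006) (.e (nat_lit 2797) (nat_lit 180) (.e (nat_lit 303143) (nat_lit 12) (.e (nat_lit 475185) (nat_lit 29) (.e (nat_lit 557100) (nat_lit 13) (.e (nat_lit 172106) (nat_lit 10) (.e (nat_lit 434224) (nat_lit 19) (.e (nat_lit 507648) (nat_lit 0) .nil))))))) (.g (nat_lit 1) (.e (nat_lit 50300) (nat_lit 0) .nil) .nil))))) (.nd (nat_lit 8) (.nd (nat_lit 9) 
(.lf (nat_lit 458897) (.g (nat_lit 3313) (.e (nat_lit 2725) (nat_lit 172) (.e (nat_lit 237593) (nat_lit 3) (.e (nat_lit 204869) (nat_lit 29) (.e (nat_lit 360474) (nat_lit 8) (.e (nat_lit 557089) (nat_lit 12) (.e (nat_lit 163849) (nat_lit 0) (.e (nat_lit 6252) (nat_lit 337) .nil))))))) (.g (nat_lit 1) (.e (nat_lit 48607) (nat_lit 0) .nil) .nil))) 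
(.lf (nat_lit 459409) (.g (nat_lit 3020) (.e (nat_lit 2797) (nat_lit 180) (.e (nat_lit 303119) (nat_lit 3) (.e (nat_lit 204867) (nat_lit 28) (.e (nat_lit 352315) (nat_lit 23) (.e (nat_lit 98325) (nat_lit 17) (.e (nat_lit 6998) (nat_lit 377) .nil)))))) (.g (nat_lit 1) (.e (nat_lit 49787) (nat_lit 0) .nil) .nil)))) (.nd (nat_lit 9) 
(.lf (nat_lit 459153) (.g (nat_lit 2704) (.e (nat_lit 2795) (nat_lit 180) (.e (nat_lit 303119) (nat_lit 3) (.e (nat_lit 204868) (nat_lit 29) (.e (nat_lit 360466) (nat_lit 3) (.e (nat_lit 516100) (nat_lit 0) .nil))))) (.g (nat_lit 0) (.e (nat_lit 49237) (nat_lit 0) .nil) .nil))) 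
(.lf (nat_lit 459665) (.g (nat_lit 2075) (.e (nat_lit 2798) (nat_lit 180) (.e (nat_lit 303117) (nat_lit 2) (.e (nat_lit 196673) (nat_lit 15) (.e (nat_lit 81951) (nat_lit 22) (.e (nat_lit 90165) (nat_lit 12) .nil))))) (.g (nat_lit 0) (.e (nat_lit 50830) (nat_lit 0) .nil) .nil)))))) (.nd (nat_lit 7) (.nd (nat_lit 8) (.nd (nat_lit 9) 
(.lf (nat_lit 458833) (.g (nat_lit 3130) (.e (nat_lit 2725) (nat_lit 172) (.e (nat_lit 237590) (nat_lit 2) (.e (nat_lit 196666) (nat_lit 13) (.e (nat_lit 65617) (nat_lit 10) (.e (nat_lit 344130) (nat_lit 26) (.e (nat_lit 557089) (nat_lit 12) (.e (nat_lit 163849) (nat_lit 0) (.e (nat_lit 6255) (nat_lit 337) .nil)))))))) (.g (nat_lit 1) (.e (nat_lit 48496) (nat_lit 0) .nil) .nil))) 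
(.lf (nat_lit 459345) (.g (nat_lit 2802) (.e (nat_lit 2797) (nat_lit 180) (.e (nat_lit 303119) (nat_lit 3) (.e (nat_lit 204855) (nat_lit 26) (.e (nat_lit 336073) (nat_lit 9) (.e (nat_lit 336013) (nat_lit 2) (.e (nat_lit 90165) (nat_lit 12) (.e (nat_lit 171776) (nat_lit 176) .nil))))))) (.g (nat_lit 1) (.e (nat_lit 49648) (nat_lit 0) .nil) .nil)))) (.nd (nat_lit 9) 
(.lf (nat_lit 459089) (.g (nat_lit 731) (.e (nat_lit 2744) (nat_lit 174) (.e (nat_lit 253991) (nat_lit 11) (.e (nat_lit 16415) (nat_lit 3) .nil))) (.g (nat_lit 0) (.e (nat_lit 49081) (nat_lit 0) .nil) .nil))) 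
(.lf (nat_lit 459601) (.g (nat_lit 1299) (.e (nat_lit 2797) (nat_lit 180) (.e (nat_lit 303145) (nat_lit 13) (.e (nat_lit 483405) (nat_lit 26) (.e (nat_lit 385099) (nat_lit 49) .nil)))) (.g (nat_lit 0) (.e (nat_lit 50601) (nat_lit 0) .nil) .nil))))) (.nd (nat_lit 8) (.nd (nat_lit 9) 
(.lf (nat_lit 458961) (.g (nat_lit 3888) (.e (nat_lit 2725) (nat_lit 172) (.e (nat_lit 237594) (nat_lit 3) (.e (nat_lit 204869) (nat_lit 29) (.e (nat_lit 360475) (nat_lit 8) (.e (nat_lit 557091) (nat_lit 12) (.e (nat_lit 163849) (nat_lit 0) (.e (nat_lit 6255) (nat_lit 337) .nil))))))) (.g (nat_lit 1) (.e (nat_lit 48689) (nat_lit 0) .nil) .nil))) 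
(.lf (nat_lit 459473) (.g (nat_lit 4897) (.e (nat_lit 2797) (nat_lit 180) (.e (nat_lit 303133) (nat_lit 9) (.e (nat_lit 426412) (nat_lit 15) (.e (nat_lit 1856) (nat_lit 124) (.e (nat_lit 557098) (nat_lit 13) (.e (nat_lit 172094) (nat_lit 9) (.e (nat_lit 426125) (nat_lit 2) (.e (nat_lit 204544) (nat_lit 18) .nil)))))))) (.g (nat_lit 1) (.e (nat_lit 50055) (nat_lit 0) .nil) .nil)))) 
(.nd (nat_lit 9) 
(.lf (nat_lit 459217) (.g (nat_lit 3072) (.e (nat_lit 2797) (nat_lit 180) (.e (nat_lit 303117) (nat_lit 2) (.e (nat_lit 196666) (nat_lit 13) (.e (nat_lit 65610) (nat_lit 10) (.e (nat_lit 344117) (nat_lit 21) (.e (nat_lit 516106) (nat_lit 0) (.e (nat_lit 6966) (nat_lit 377) .nil))))))) (.g (nat_lit 1) (.e (nat_lit 49421) (nat_lit 0) .nil) .nil))) 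
(.lf (nat_lit 459729) (.g (nat_lit 1741) (.e (nat_lit 2798) (nat_lit 180) (.e (nat_lit 303119) (nat_lit 3) (.e (nat_lit 204863) (nat_lit 27) (.e (nat_lit 344065) (nat_lit 0) .nil)))) (.g (nat_lit 0) (.e (nat_lit 50951) (nat_lit 0) .nil) .nil))))))) (.nd (nat_lit 6) (.nd (nat_lit 7) (.nd (nat_lit 8) (.nd (nat_lit 9) 
(.lf (nat_lit 458801) (.g (nat_lit 4325) (.e (nat_lit 2725) (nat_lit 172) (.e (nat_lit 237589) (nat_lit 2) (.e (nat_lit 196666) (nat_lit 13) (.e (nat_lit 65617) (nat_lit 10) (.e (nat_lit 344133) (nat_lit 26) (.e (nat_lit 557089) (nat_lit 12) (.e (nat_lit 163843) (nat_lit 0) (.e (nat_lit 6255) (nat_lit 337) .nil)))))))) (.g (nat_lit 1) (.e (nat_lit 48463) (nat_lit 0) .nil) .nil))) 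
(.lf (nat_lit 459313) (.g (nat_lit 2575) (.e (nat_lit 2797) (nat_lit 180) (.e (nat_lit 303117) (nat_lit 2) (.e (nat_lit 196674) (nat_lit 15) (.e (nat_lit 81954) (nat_lit 23) (.e (nat_lit 98325) (nat_lit 17) (.e (nat_lit 6966) (nat_lit 377) .nil)))))) (.g (nat_lit 1) (.e (nat_lit 49540) (nat_lit 0) .nil) .nil)))) (.nd (nat_lit 9) 
(.lf (nat_lit 459057) (.g (nat_lit 3329) (.e (nat_lit 2741) (nat_lit 174) (.e (nat_lit 253990) (nat_lit 11) (.e (nat_lit 16415) (nat_lit 3) (.e (nat_lit 204868) (nat_lit 29) (.e (nat_lit 360473) (nat_lit 8) (.e (nat_lit 557072) (nat_lit 9) .nil)))))) (.g (nat_lit 1) (.e (nat_lit 49022) (nat_lit 0) .nil) .nil))) 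
(.lf (nat_lit 459569) (.g (nat_lit 2312) (.e (nat_lit 2797) (nat_lit 180) (.e (nat_lit 303143) (nat_lit 12) (.e (nat_lit 475185) (nat_lit 29) (.e (nat_lit 557107) (nat_lit 15) (.e (nat_lit 188439) (nat_lit 20) (.e (nat_lit 3115) (nat_lit 193) (.e (nat_lit 499728) (nat_lit 0) .nil))))))) (.g (nat_lit 1) (.e (nat_lit 50356) (nat_lit 0) .nil) .nil))))) (.nd (nat_lit 8) (.nd (nat_lit 9) 
(.lf (nat_lit 458929) (.g (nat_lit 2746) (.e (nat_lit 2725) (nat_lit 172) (.e (nat_lit 237594) (nat_lit 3) (.e (nat_lit 204868) (nat_lit 29) (.e (nat_lit 360473) (nat_lit 8) (.e (nat_lit 557091) (nat_lit 12) (.e (nat_lit 163849) (nat_lit 0) (.e (nat_lit 6254) (nat_lit 337) .nil))))))) (.g (nat_lit 1) (.e (nat_lit 48649) (nat_lit 0) .nil) .nil))) 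
(.lf (nat_lit 459441) (.g (nat_lit 2404) (.e (nat_lit 2797) (nat_lit 180) (.e (nat_lit 303119) (nat_lit 3) (.e (nat_lit 204869) (nat_lit 29) (.e (nat_lit 360461) (nat_lit 1) .nil)))) (.g (nat_lit 0) (.e (nat_lit 49873) (nat_lit 0) .nil) .nil)))) (.nd (nat_lit 9) 
(.lf (nat_lit 459185) (.g (nat_lit 2983) (.e (nat_lit 2796) (nat_lit 180) (.e (nat_lit 303143) (nat_lit 12) (.e (nat_lit 475185) (nat_lit 29) (.e (nat_lit 557108) (nat_lit 15) .nil)))) (.g (nat_lit 0) (.e (nat_lit 49339) (nat_lit 0) .nil) .nil))) 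
(.lf (nat_lit 459697) (.g (nat_lit 2898) (.e (nat_lit 2798) (nat_lit 180) (.e (nat_lit 303117) (nat_lit 2) (.e (nat_lit 196674) (nat_lit 15) (.e (nat_lit 81956) (nat_lit 23) (.e (nat_lit 98325) (nat_lit 17) (.e (nat_lit 7936) (nat_lit 377) .nil)))))) (.g (nat_lit 1) (.e (nat_lit 50862) (nat_lit 0) .nil) .nil)))))) (.nd (nat_lit 7) (.nd (nat_lit 8) (.nd (nat_lit 9) 
(.lf (nat_lit 458865) (.g (nat_lit 3365) (.e (nat_lit 2725) (nat_lit 172) (.e (nat_lit 237592) (nat_lit 3) (.e (nat_lit 204869) (nat_lit 29) (.e (nat_lit 360474) (nat_lit 8) (.e (nat_lit 557091) (nat_lit 12) (.e (nat_lit 163840) (nat_lit 0) (.e (nat_lit 6254) (nat_lit 337) .nil))))))) (.g (nat_lit 1) (.e (nat_lit 48569) (nat_lit 0) .nil) .nil))) 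
(.lf (nat_lit 459377) (.g (nat_lit 4904) (.e (nat_lit 2797) (nat_lit 180) (.e (nat_lit 303119) (nat_lit 3) (.e (nat_lit 204861) (nat_lit 26) (.e (nat_lit 336186) (nat_lit 11) (.e (nat_lit 368676) (nat_lit 21) (.e (nat_lit 516098) (nat_lit 0) (.e (nat_lit 7073) (nat_lit 377) .nil))))))) (.g (nat_lit 1) (.e (nat_lit 49722) (nat_lit 0) .nil) .nil)))) (.nd (nat_lit 9) 
(.lf (nat_lit 459121) (.g (nat_lit 2817) (.e (nat_lit 2744) (nat_lit 174) (.e (nat_lit 253992) (nat_lit 11) (.e (nat_lit 16425) (nat_lit 7) (.e (nat_lit 409649) (nat_lit 18) (.e (nat_lit 303140) (nat_lit 10) (.e (nat_lit 434275) (nat_lit 39) (.e (nat_lit 663573) (nat_lit 9) .nil))))))) (.g (nat_lit 1) (.e (nat_lit 49115) (nat_lit 0) .nil) .nil))) 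
(.lf (nat_lit 459633) (.g (nat_lit 4435) (.e (nat_lit 2798) (nat_lit 180) (.e (nat_lit 303117) (nat_lit 2) (.e (nat_lit 196666) (nat_lit 13) (.e (nat_lit 65610) (nat_lit 10) (.e (nat_lit 344117) (nat_lit 21) (.e (nat_lit 516106) (nat_lit 0) (.e (nat_lit 6966) (nat_lit 377) .nil))))))) (.g (nat_lit 1) (.e (nat_lit 50796) (nat_lit 0) .nil) .nil))))) (.nd (nat_lit 8) (.nd (nat_lit 9) 
(.lf (nat_lit 458993) (.g (nat_lit 1332) (.e (nat_lit 2725) (nat_lit 172) (.e (nat_lit 237617) (nat_lit 12) (.e (nat_lit 475210) (nat_lit 41) (.e (nat_lit 712753) (nat_lit 30) (.e (nat_lit 450568) (nat_lit 0) (.e (nat_lit 5448) (nat_lit 306) .nil)))))) (.g (nat_lit 1) (.e (nat_lit 48756) (nat_lit 0) .nil) .nil))) 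
(.lf (nat_lit 459505) (.g (nat_lit 4096) (.e (nat_lit 2797) (nat_lit 180) (.e (nat_lit 303143) (nat_lit 12) (.e (nat_lit 475185) (nat_lit 29) (.e (nat_lit 557098) (nat_lit 13) (.e (nat_lit 172091) (nat_lit 9) .nil))))) (.g (nat_lit 0) (.e (nat_lit 50260) (nat_lit 0) .nil) .nil)))) (.nd (nat_lit 9) 
(.lf (nat_lit 459249) (.g (nat_lit 1990) (.e (nat_lit 2797) (nat_lit 180) (.e (nat_lit 303117) (nat_lit 2) (.e (nat_lit 196672) (nat_lit 15) (.e (nat_lit 81953) (nat_lit 22) (.e (nat_lit 90165) (nat_lit 12) (.e (nat_lit 171776) (nat_lit 176) .nil)))))) (.g (nat_lit 1) (.e (nat_lit 49471) (nat_lit 0) .nil) .nil))) 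
(.lf (nat_lit 459761) (.g (nat_lit 2769) (.e (nat_lit 2798) (nat_lit 180) (.e (nat_lit 303119) (nat_lit 3) (.e (nat_lit 204877) (nat_lit 31) (.e (nat_lit 376865) (nat_lit 22) (.e (nat_lit 90165) (nat_lit 12) (.e (nat_lit 164210) (nat_lit 176) .nil)))))) (.g (nat_lit 1) (.e (nat_lit 51060) (nat_lit 0) .nil) .nil))))))))) 
(.nd (nat_lit 4) (.nd (nat_lit 5) (.nd (nat_lit 6) (.nd (nat_lit 7) (.nd (nat_lit 8) 
(.nd (nat_lit 9) 
(.lf (nat_lit 458761) (.g (nat_lit 3848) (.e (nat_lit 2725) (nat_lit 172) (.e (nat_lit 237587) (nat_lit 2) (.e (nat_lit 196666) (nat_lit 13) (.e (nat_lit 65617) (nat_lit 10) (.e (nat_lit 344133) (nat_lit 26) (.e (nat_lit 557091) (nat_lit 12) (.e (nat_lit 163844) (nat_lit 0) (.e (nat_lit 6255) (nat_lit 337) .nil)))))))) (.g (nat_lit 1) (.e (nat_lit 48373) (nat_lit 0) .nil) .nil))) 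
(.lf (nat_lit 459273) (.g (nat_lit 1077) (.e (nat_lit 2797) (nat_lit 180) (.e (nat_lit 303117) (nat_lit 2) (.e (nat_lit 196673) (nat_lit 15) (.e (nat_lit 81951) (nat_lit 22) .nil)))) (.g (nat_lit 0) (.e (nat_lit 49495) (nat_lit 0) .nil) .nil)))) (.nd (nat_lit 9) 
(.lf (nat_lit 459017) (.g (nat_lit 2385) (.e (nat_lit 2725) (nat_lit 172) (.e (nat_lit 237619) (nat_lit 12) (.e (nat_lit 475211) (nat_lit 41) (.e (nat_lit 712750) (nat_lit 29) (.e (nat_lit 442430) (nat_lit 24) (.e (nat_lit 229666) (nat_lit 240) .nil)))))) (.g (nat_lit 1) (.e (nat_lit 48783) (nat_lit 0) .nil) .nil))) 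
(.lf (nat_lit 459529) (.g (nat_lit 4457) (.e (nat_lit 2797) (nat_lit 180) (.e (nat_lit 303143) (nat_lit 12) (.e (nat_lit 475185) (nat_lit 29) (.e (nat_lit 557100) (nat_lit 13) (.e (nat_lit 179968) (nat_lit 9) (.e (nat_lit 426125) (nat_lit 2) (.e (nat_lit 204544) (nat_lit 18) .nil))))))) (.g (nat_lit 1) (.e (nat_lit 50288) (nat_lit 0) .nil) .nil))))) (.nd (nat_lit 8) (.nd (nat_lit 9) 
(.lf (nat_lit 458889) (.g (nat_lit 2757) (.e (nat_lit 2725) (nat_lit 172) (.e (nat_lit 237593) (nat_lit 3) (.e (nat_lit 204869) (nat_lit 29) (.e (nat_lit 360474) (nat_lit 8) (.e (nat_lit 557089) (nat_lit 12) (.e (nat_lit 163843) (nat_lit 0) (.e (nat_lit 6250) (nat_lit 337) .nil))))))) (.g (nat_lit 1) (.e (nat_lit 48599) (nat_lit 0) .nil) .nil))) 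
(.lf (nat_lit 459401) (.g (nat_lit 3370) (.e (nat_lit 2797) (nat_lit 180) (.e (nat_lit 303119) (nat_lit 3) (.e (nat_lit 204865) (nat_lit 28) (.e (nat_lit 352315) (nat_lit 23) (.e (nat_lit 98325) (nat_lit 17) (.e (nat_lit 7016) (nat_lit 377) .nil)))))) (.g (nat_lit 1) (.e (nat_lit 49756) (nat_lit 0) .nil) .nil)))) (.nd (nat_lit 9) 
(.lf (nat_lit 459145) (.g (nat_lit 3463) (.e (nat_lit 2771) (nat_lit 177) (.e (nat_lit 278553) (nat_lit 10) (.e (nat_lit 5395) (nat_lit 301) (.e (nat_lit 57464) (nat_lit 23) (.e (nat_lit 516151) (nat_lit 9) (.e (nat_lit 426211) (nat_lit 9) (.e (nat_lit 426125) (nat_lit 2) (.e (nat_lit 204544) (nat_lit 18) .nil)))))))) (.g (nat_lit 1) (.e (nat_lit 49186) (nat_lit 0) .nil) .nil))) 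
(.lf (nat_lit 459657) (.g (nat_lit 3688) (.e (nat_lit 2798) (nat_lit 180) (.e (nat_lit 303117) (nat_lit 2) (.e (nat_lit 196672) (nat_lit 15) (.e (nat_lit 81951) (nat_lit 22) (.e (nat_lit 90165) (nat_lit 12) (.e (nat_lit 171776) (nat_lit 176) .nil)))))) (.g (nat_lit 1) (.e (nat_lit 50822) (nat_lit 0) .nil) .nil)))))) (.nd (nat_lit 7) (.nd (nat_lit 8) (.nd (nat_lit 9) 
(.lf (nat_lit 458825) (.g (nat_lit 2492) (.e (nat_lit 2725) (nat_lit 172) (.e (nat_lit 237590) (nat_lit 2) (.e (nat_lit 196666) (nat_lit 13) (.e (nat_lit 65610) (nat_lit 10) (.e (nat_lit 344129) (nat_lit 26) (.e (nat_lit 557090) (nat_lit 12) (.e (nat_lit 163844) (nat_lit 0) (.e (nat_lit 6255) (nat_lit 337) .nil)))))))) (.g (nat_lit 1) (.e (nat_lit 48488) (nat_lit 0) .nil) .nil))) 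
(.lf (nat_lit 459337) (.g (nat_lit 2111) (.e (nat_lit 2797) (nat_lit 180) (.e (nat_lit 303119) (nat_lit 3) (.e (nat_lit 204846) (nat_lit 24) (.e (nat_lit 319491) (nat_lit 0) .nil)))) (.g (nat_lit 0) (.e (nat_lit 49602) (nat_lit 0) .nil) .nil)))) (.nd (nat_lit 9) 
(.lf (nat_lit 459081) (.g (nat_lit 2732) (.e (nat_lit 2744) (nat_lit 174) (.e (nat_lit 253991) (nat_lit 11) (.e (nat_lit 16412) (nat_lit 2) (.e (nat_lit 196672) (nat_lit 15) (.e (nat_lit 81943) (nat_lit 20) (.e (nat_lit 1847) (nat_lit 124) (.e (nat_lit 557070) (nat_lit 9) .nil))))))) (.g (nat_lit 1) (.e (nat_lit 49073) (nat_lit 0) .nil) .nil))) 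
(.lf (nat_lit 459593) (.g (nat_lit 2674) (.e (nat_lit 2797) (nat_lit 180) (.e (nat_lit 303145) (nat_lit 13) (.e (nat_lit 483346) (nat_lit 17) (.e (nat_lit 979) (nat_lit 81) .nil)))) (.g (nat_lit 0) (.e (nat_lit 50429) (nat_lit 0) .nil) .nil))))) (.nd (nat_lit 8) (.nd (nat_lit 9) 
(.lf (nat_lit 458953) (.g (nat_lit 3462) (.e (nat_lit 2725) (nat_lit 172) (.e (nat_lit 237594) (nat_lit 3) (.e (nat_lit 204869) (nat_lit 29) (.e (nat_lit 360475) (nat_lit 8) (.e (nat_lit 557089) (nat_lit 12) (.e (nat_lit 163844) (nat_lit 0) (.e (nat_lit 6252) (nat_lit 337) .nil))))))) (.g (nat_lit 1) (.e (nat_lit 48681) (nat_lit 0) .nil) .nil))) 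
(.lf (nat_lit 459465) (.g (nat_lit 2431) (.e (nat_lit 2797) (nat_lit 180) (.e (nat_lit 303127) (nat_lit 9) (.e (nat_lit 426481) (nat_lit 27) (.e (nat_lit 336228) (nat_lit 14) (.e (nat_lit 401454) (nat_lit 12) (.e (nat_lit 483072) (nat_lit 16) .nil)))))) (.g (nat_lit 1) (.e (nat_lit 50019) (nat_lit 0) .nil) .nil)))) (.nd (nat_lit 9) 
(.lf (nat_lit 459209) (.g (nat_lit 2193) (.e (nat_lit 2797) (nat_lit 180) (.e (nat_lit 303117) (nat_lit 2) (.e (nat_lit 196665) (nat_lit 13) (.e (nat_lit 65619) (nat_lit 10) (.e (nat_lit 344117) (nat_lit 21) (.e (nat_lit 516106) (nat_lit 0) (.e (nat_lit 7936) (nat_lit 377) .nil))))))) (.g (nat_lit 1) (.e (nat_lit 49409) (nat_lit 0) .nil) .nil))) 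
(.lf (nat_lit 459721) (.g (nat_lit 3054) (.e (nat_lit 2798) (nat_lit 180) (.e (nat_lit 303119) (nat_lit 3) (.e (nat_lit 204861) (nat_lit 26) (.e (nat_lit 336184) (nat_lit 11) (.e (nat_lit 368676) (nat_lit 21) (.e (nat_lit 516097) (nat_lit 0) (.e (nat_lit 7073) (nat_lit 377) .nil))))))) (.g (nat_lit 1) (.e (nat_lit 50943) (nat_lit 0) .nil) .nil))))))) 
(.nd (nat_lit 6) (.nd (nat_lit 7) (.nd (nat_lit 8) (.nd (nat_lit 9) 
(.lf (nat_lit 458793) (.g (nat_lit 3624) (.e (nat_lit 2725) (nat_lit 172) (.e (nat_lit 237589) (nat_lit 2) (.e (nat_lit 196666) (nat_lit 13) (.e (nat_lit 65617) (nat_lit 10) (.e (nat_lit 344132) (nat_lit 26) (.e (nat_lit 557093) (nat_lit 12) (.e (nat_lit 163848) (nat_lit 0) (.e (nat_lit 6252) (nat_lit 337) .nil)))))))) (.g (nat_lit 1) (.e (nat_lit 48455) (nat_lit 0) .nil) .nil))) 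
(.lf (nat_lit 459305) (.g (nat_lit 2946) (.e (nat_lit 2797) (nat_lit 180) (.e (nat_lit 303117) (nat_lit 2) (.e (nat_lit 196674) (nat_lit 15) (.e (nat_lit 81952) (nat_lit 22) (.e (nat_lit 90165) (nat_lit 12) (.e (nat_lit 164210) (nat_lit 176) .nil)))))) (.g (nat_lit 1) (.e (nat_lit 49531) (nat_lit 0) .nil) .nil)))) (.nd (nat_lit 9) 
(.lf (nat_lit 459049) (.g (nat_lit 4332) (.e (nat_lit 2740) (nat_lit 174) (.e (nat_lit 253992) (nat_lit 11) (.e (nat_lit 16425) (nat_lit 7) (.e (nat_lit 409648) (nat_lit 18) (.e (nat_lit 303137) (nat_lit 10) (.e (nat_lit 434275) (nat_lit 39) (.e (nat_lit 663574) (nat_lit 9) .nil))))))) (.g (nat_lit 1) (.e (nat_lit 49008) (nat_lit 0) .nil) .nil))) 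
(.lf (nat_lit 459561) (.g (nat_lit 2678) (.e (nat_lit 2797) (nat_lit 180) (.e (nat_lit 303143) (nat_lit 12) (.e (nat_lit 475185) (nat_lit 29) (.e (nat_lit 557101) (nat_lit 13) (.e (nat_lit 172098) (nat_lit 9) (.e (nat_lit 426125) (nat_lit 2) (.e (nat_lit 204544) (nat_lit 18) .nil))))))) (.g (nat_lit 1) (.e (nat_lit 50336) (nat_lit 0) .nil) .nil))))) (.nd (nat_lit 8) (.nd (nat_lit 9) 
(.lf (nat_lit 458921) (.g (nat_lit 4636) (.e (nat_lit 2725) (nat_lit 172) (.e (nat_lit 237593) (nat_lit 3) (.e (nat_lit 204869) (nat_lit 29) (.e (nat_lit 360475) (nat_lit 8) (.e (nat_lit 557091) (nat_lit 12) (.e (nat_lit 163847) (nat_lit 0) (.e (nat_lit 6252) (nat_lit 337) .nil))))))) (.g (nat_lit 1) (.e (nat_lit 48634) (nat_lit 0) .nil) .nil))) 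
(.lf (nat_lit 459433) (.g (nat_lit 2398) (.e (nat_lit 2797) (nat_lit 180) (.e (nat_lit 303119) (nat_lit 3) (.e (nat_lit 204869) (nat_lit 29) (.e (nat_lit 360450) (nat_lit 0) (.e (nat_lit 3994) (nat_lit 240) (.e (nat_lit 8192) (nat_lit 0) (.e (nat_lit 4929) (nat_lit 287) .nil))))))) (.g (nat_lit 1) (.e (nat_lit 49814) (nat_lit 0) .nil) .nil)))) (.nd (nat_lit 9) 
(.lf (nat_lit 459177) (.g (nat_lit 826) (.e (nat_lit 2796) (nat_lit 180) (.e (nat_lit 303119) (nat_lit 3) (.e (nat_lit 204867) (nat_lit 28) .nil))) (.g (nat_lit 0) (.e (nat_lit 49321) (nat_lit 0) .nil) .nil))) 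
(.lf (nat_lit 459689) (.g (nat_lit 2630) (.e (nat_lit 2798) (nat_lit 180) (.e (nat_lit 303117) (nat_lit 2) (.e (nat_lit 196674) (nat_lit 15) (.e (nat_lit 81955) (nat_lit 23) (.e (nat_lit 98325) (nat_lit 17) (.e (nat_lit 7008) (nat_lit 377) .nil)))))) (.g (nat_lit 1) (.e (nat_lit 50854) (nat_lit 0) .nil) .nil)))))) (.nd (nat_lit 7) (.nd (nat_lit 8) (.nd (nat_lit 9) 
(.lf (nat_lit 458857) (.g (nat_lit 1616) (.e (nat_lit 2725) (nat_lit 172) (.e (nat_lit 237591) (nat_lit 3) (.e (nat_lit 204868) (nat_lit 29) (.e (nat_lit 360473) (nat_lit 8) (.e (nat_lit 557089) (nat_lit 12) .nil))))) (.g (nat_lit 0) (.e (nat_lit 48555) (nat_lit 0) .nil) .nil))) 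
(.lf (nat_lit 459369) (.g (nat_lit 2901) (.e (nat_lit 2797) (nat_lit 180) (.e (nat_lit 303119) (nat_lit 3) (.e (nat_lit 204861) (nat_lit 26) (.e (nat_lit 336184) (nat_lit 11) (.e (nat_lit 368676) (nat_lit 21) (.e (nat_lit 516106) (nat_lit 0) (.e (nat_lit 7936) (nat_lit 377) .nil))))))) (.g (nat_lit 1) (.e (nat_lit 49714) (nat_lit 0) .nil) .nil)))) (.nd (nat_lit 9) 
(.lf (nat_lit 459113) (.g (nat_lit 4006) (.e (nat_lit 2744) (nat_lit 174) (.e (nat_lit 253992) (nat_lit 11) (.e (nat_lit 16415) (nat_lit 3) (.e (nat_lit 204869) (nat_lit 29) (.e (nat_lit 360474) (nat_lit 8) (.e (nat_lit 557070) (nat_lit 9) .nil)))))) (.g (nat_lit 1) (.e (nat_lit 49107) (nat_lit 0) .nil) .nil))) 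
(.lf (nat_lit 459625) (.g (nat_lit 3593) (.e (nat_lit 2798) (nat_lit 180) (.e (nat_lit 303117) (nat_lit 2) (.e (nat_lit 196666) (nat_lit 13) (.e (nat_lit 65599) (nat_lit 9) (.e (nat_lit 336013) (nat_lit 2) (.e (nat_lit 90165) (nat_lit 12) (.e (nat_lit 171776) (nat_lit 176) .nil))))))) (.g (nat_lit 1) (.e (nat_lit 50785) (nat_lit 0) .nil) .nil))))) (.nd (nat_lit 8) (.nd (nat_lit 9) 
(.lf (nat_lit 458985) (.g (nat_lit 1826) (.e (nat_lit 2725) (nat_lit 172) (.e (nat_lit 237616) (nat_lit 12) (.e (nat_lit 475211) (nat_lit 41) (.e (nat_lit 712752) (nat_lit 29) (.e (nat_lit 442430) (nat_lit 24) (.e (nat_lit 229664) (nat_lit 240) .nil)))))) (.g (nat_lit 1) (.e (nat_lit 48745) (nat_lit 0) .nil) .nil))) 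
(.lf (nat_lit 459497) (.g (nat_lit 4058) (.e (nat_lit 2797) (nat_lit 180) (.e (nat_lit 303143) (nat_lit 12) (.e (nat_lit 475185) (nat_lit 29) (.e (nat_lit 557096) (nat_lit 13) (.e (nat_lit 172093) (nat_lit 9) .nil))))) (.g (nat_lit 0) (.e (nat_lit 50252) (nat_lit 0) .nil) .nil)))) (.nd (nat_lit 9) 
(.lf (nat_lit 459241) (.g (nat_lit 3953) (.e (nat_lit 2797) (nat_lit 180) (.e (nat_lit 303117) (nat_lit 2) (.e (nat_lit 196672) (nat_lit 15) (.e (nat_lit 81951) (nat_lit 22) (.e (nat_lit 90165) (nat_lit 12) (.e (nat_lit 164210) (nat_lit 176) .nil)))))) (.g (nat_lit 1) (.e (nat_lit 49463) (nat_lit 0) .nil) .nil))) 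
(.lf (nat_lit 459753) (.g (nat_lit 3732) (.e (nat_lit 2798) (nat_lit 180) (.e (nat_lit 303119) (nat_lit 3) (.e (nat_lit 204869) (nat_lit 29) (.e (nat_lit 360475) (nat_lit 8) (.e (nat_lit 557082) (nat_lit 10) (.e (nat_lit 16128) (nat_lit 225) .nil)))))) (.g (nat_lit 1) (.e (nat_lit 51044) (nat_lit 0) .nil) .nil)))))))) 
(.nd (nat_lit 5) (.nd (nat_lit 6) (.nd (nat_lit 7) (.nd (nat_lit 8) (.nd (nat_lit 9) 
(.lf (nat_lit 458777) (.g (nat_lit 2237) (.e (nat_lit 2725) (nat_lit 172) (.e (nat_lit 237589) (nat_lit 2) (.e (nat_lit 196666) (nat_lit 13) (.e (nat_lit 65617) (nat_lit 10) (.e (nat_lit 344130) (nat_lit 26) .nil))))) (.g (nat_lit 0) (.e (nat_lit 48439) (nat_lit 0) .nil) .nil))) 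
(.lf (nat_lit 459289) (.g (nat_lit 3288) (.e (nat_lit 2797) (nat_lit 180) (.e (nat_lit 303117) (nat_lit 2) (.e (nat_lit 196673) (nat_lit 15) (.e (nat_lit 81956) (nat_lit 23) (.e (nat_lit 98325) (nat_lit 17) (.e (nat_lit 7016) (nat_lit 377) .nil)))))) (.g (nat_lit 1) (.e (nat_lit 49511) (nat_lit 0) .nil) .nil)))) (.nd (nat_lit 9) 
(.lf (nat_lit 459033) (.g (nat_lit 4647) (.e (nat_lit 2739) (nat_lit 174) (.e (nat_lit 253990) (nat_lit 11) (.e (nat_lit 16412) (nat_lit 2) (.e (nat_lit 196666) (nat_lit 13) (.e (nat_lit 65610) (nat_lit 10) (.e (nat_lit 344129) (nat_lit 26) (.e (nat_lit 557067) (nat_lit 9) .nil))))))) (.g (nat_lit 1) (.e (nat_lit 48986) (nat_lit 0) .nil) .nil))) 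
(.lf (nat_lit 459545) (.g (nat_lit 3196) (.e (nat_lit 2797) (nat_lit 180) (.e (nat_lit 303143) (nat_lit 12) (.e (nat_lit 475185) (nat_lit 29) (.e (nat_lit 557100) (nat_lit 13) (.e (nat_lit 172113) (nat_lit 10) (.e (nat_lit 434224) (nat_lit 19) (.e (nat_lit 507648) (nat_lit 0) .nil))))))) (.g (nat_lit 1) (.e (nat_lit 50313) (nat_lit 0) .nil) .nil))))) (.nd (nat_lit 8) (.nd (nat_lit 9) 
(.lf (nat_lit 458905) (.g (nat_lit 3438) (.e (nat_lit 2725) (nat_lit 172) (.e (nat_lit 237593) (nat_lit 3) (.e (nat_lit 204869) (nat_lit 29) (.e (nat_lit 360474) (nat_lit 8) (.e (nat_lit 557093) (nat_lit 12) (.e (nat_lit 163848) (nat_lit 0) (.e (nat_lit 6252) (nat_lit 337) .nil))))))) (.g (nat_lit 1) (.e (nat_lit 48618) (nat_lit 0) .nil) .nil))) 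
(.lf (nat_lit 459417) (.g (nat_lit 2871) (.e (nat_lit 2797) (nat_lit 180) (.e (nat_lit 303119) (nat_lit 3) (.e (nat_lit 204868) (nat_lit 29) (.e (nat_lit 360466) (nat_lit 3) (.e (nat_lit 516096) (nat_lit 0) (.e (nat_lit 7004) (nat_lit 377) .nil)))))) (.g (nat_lit 1) (.e (nat_lit 49796) (nat_lit 0) .nil) .nil)))) (.nd (nat_lit 9) 
(.lf (nat_lit 459161) (.g (nat_lit 2106) (.e (nat_lit 2795) (nat_lit 180) (.e (nat_lit 303143) (nat_lit 12) (.e (nat_lit 475207) (nat_lit 41) (.e (nat_lit 712755) (nat_lit 30) (.e (nat_lit 450597) (nat_lit 17) (.e (nat_lit 663589) (nat_lit 14) .nil)))))) (.g (nat_lit 1) (.e (nat_lit 49254) (nat_lit 0) .nil) .nil))) 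
(.lf (nat_lit 459673) (.g (nat_lit 3339) (.e (nat_lit 2798) (nat_lit 180) (.e (nat_lit 303117) (nat_lit 2) (.e (nat_lit 196673) (nat_lit 15) (.e (nat_lit 81956) (nat_lit 23) (.e (nat_lit 98325) (nat_lit 17) (.e (nat_lit 7936) (nat_lit 377) .nil)))))) (.g (nat_lit 1) (.e (nat_lit 50838) (nat_lit 0) .nil) .nil)))))) (.nd (nat_lit 7) (.nd (nat_lit 8) (.nd (nat_lit 9) 
(.lf (nat_lit 458841) (.g (nat_lit 2291) (.e (nat_lit 2725) (nat_lit 172) (.e (nat_lit 237590) (nat_lit 2) (.e (nat_lit 196666) (nat_lit 13) (.e (nat_lit 65617) (nat_lit 10) (.e (nat_lit 344132) (nat_lit 26) (.e (nat_lit 557093) (nat_lit 12) (.e (nat_lit 163847) (nat_lit 0) (.e (nat_lit 6255) (nat_lit 337) .nil)))))))) (.g (nat_lit 1) (.e (nat_lit 48504) (nat_lit 0) .nil) .nil))) 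
(.lf (nat_lit 459353) (.g (nat_lit 3430) (.e (nat_lit 2797) (nat_lit 180) (.e (nat_lit 303119) (nat_lit 3) (.e (nat_lit 204855) (nat_lit 26) (.e (nat_lit 336163) (nat_lit 10) (.e (nat_lit 344117) (nat_lit 21) (.e (nat_lit 516106) (nat_lit 0) (.e (nat_lit 7936) (nat_lit 377) .nil))))))) (.g (nat_lit 1) (.e (nat_lit 49676) (nat_lit 0) .nil) .nil)))) (.nd (nat_lit 9) 
(.lf (nat_lit 459097) (.g (nat_lit 2665) (.e (nat_lit 2744) (nat_lit 174) (.e (nat_lit 253991) (nat_lit 11) (.e (nat_lit 16425) (nat_lit 7) (.e (nat_lit 409648) (nat_lit 18) (.e (nat_lit 303137) (nat_lit 10) (.e (nat_lit 434275) (nat_lit 39) (.e (nat_lit 663573) (nat_lit 9) .nil))))))) (.g (nat_lit 1) (.e (nat_lit 49089) (nat_lit 0) .nil) .nil))) 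
(.lf (nat_lit 459609) (.g (nat_lit 4252) (.e (nat_lit 2798) (nat_lit 180) (.e (nat_lit 303116) (nat_lit 2) (.e (nat_lit 196666) (nat_lit 13) (.e (nat_lit 65610) (nat_lit 10) (.e (nat_lit 344117) (nat_lit 21) (.e (nat_lit 516106) (nat_lit 0) (.e (nat_lit 7008) (nat_lit 377) .nil))))))) (.g (nat_lit 1) (.e (nat_lit 50767) (nat_lit 0) .nil) .nil))))) (.nd (nat_lit 8) (.nd (nat_lit 9) 
(.lf (nat_lit 458969) (.g (nat_lit 1751) (.e (nat_lit 2725) (nat_lit 172) (.e (nat_lit 237615) (nat_lit 12) (.e (nat_lit 475211) (nat_lit 41) (.e (nat_lit 712755) (nat_lit 30) (.e (nat_lit 450568) (nat_lit 0) (.e (nat_lit 5448) (nat_lit 306) .nil)))))) (.g (nat_lit 1) (.e (nat_lit 48727) (nat_lit 0) .nil) .nil))) 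
(.lf (nat_lit 459481) (.g (nat_lit 2125) (.e (nat_lit 2797) (nat_lit 180) (.e (nat_lit 303133) (nat_lit 9) (.e (nat_lit 426412) (nat_lit 15) (.e (nat_lit 2160) (nat_lit 143) (.e (nat_lit 712755) (nat_lit 30) (.e (nat_lit 450597) (nat_lit 17) (.e (nat_lit 663589) (nat_lit 14) .nil))))))) (.g (nat_lit 1) (.e (nat_lit 50066) (nat_lit 0) .nil) .nil)))) (.nd (nat_lit 9) 
(.lf (nat_lit 459225) (.g (nat_lit 3049) (.e (nat_lit 2797) (nat_lit 180) (.e (nat_lit 303117) (nat_lit 2) (.e (nat_lit 196666) (nat_lit 13) (.e (nat_lit 65617) (nat_lit 10) (.e (nat_lit 344117) (nat_lit 21) .nil))))) (.g (nat_lit 0) (.e (nat_lit 49429) (nat_lit 0) .nil) .nil))) 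
(.lf (nat_lit 459737) (.g (nat_lit 496) (.e (nat_lit 2798) (nat_lit 180) (.e (nat_lit 303119) (nat_lit 3) (.e (nat_lit 204868) (nat_lit 29) .nil))) (.g (nat_lit 0) (.e (nat_lit 50980) (nat_lit 0) .nil) .nil))))))) (.nd (nat_lit 6) (.nd (nat_lit 7) (.nd (nat_lit 8) (.nd (nat_lit 9) 
(.lf (nat_lit 458809) (.g (nat_lit 2302) (.e (nat_lit 2725) (nat_lit 172) (.e (nat_lit 237589) (nat_lit 2) (.e (nat_lit 196666) (nat_lit 13) (.e (nat_lit 65617) (nat_lit 10) (.e (nat_lit 344133) (nat_lit 26) (.e (nat_lit 557091) (nat_lit 12) (.e (nat_lit 163841) (nat_lit 0) (.e (nat_lit 6255) (nat_lit 337) .nil)))))))) (.g (nat_lit 1) (.e (nat_lit 48471) (nat_lit 0) .nil) .nil))) 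
(.lf (nat_lit 459321) (.g (nat_lit 2469) (.e (nat_lit 2797) (nat_lit 180) (.e (nat_lit 303117) (nat_lit 2) (.e (nat_lit 196674) (nat_lit 15) (.e (nat_lit 81955) (nat_lit 23) (.e (nat_lit 98325) (nat_lit 17) (.e (nat_lit 7936) (nat_lit 377) .nil)))))) (.g (nat_lit 1) (.e (nat_lit 49548) (nat_lit 0) .nil) .nil)))) (.nd (nat_lit 9) 
(.lf (nat_lit 459065) (.g (nat_lit 2158) (.e (nat_lit 2741) (nat_lit 174) (.e (nat_lit 253991) (nat_lit 11) (.e (nat_lit 16425) (nat_lit 7) (.e (nat_lit 409648) (nat_lit 18) (.e (nat_lit 303137) (nat_lit 10) .nil))))) (.g (nat_lit 0) (.e (nat_lit 49041) (nat_lit 0) .nil) .nil))) 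
(.lf (nat_lit 459577) (.g (nat_lit 4197) (.e (nat_lit 2797) (nat_lit 180) (.e (nat_lit 303143) (nat_lit 12) (.e (nat_lit 475185) (nat_lit 29) (.e (nat_lit 557107) (nat_lit 15) (.e (nat_lit 188449) (nat_lit 22) (.e (nat_lit 204544) (nat_lit 18) .nil)))))) (.g (nat_lit 1) (.e (nat_lit 50367) (nat_lit 0) .nil) .nil))))) (.nd (nat_lit 8) (.nd (nat_lit 9) 
(.lf (nat_lit 458937) (.g (nat_lit 4566) (.e (nat_lit 2725) (nat_lit 172) (.e (nat_lit 237594) (nat_lit 3) (.e (nat_lit 204869) (nat_lit 29) (.e (nat_lit 360474) (nat_lit 8) (.e (nat_lit 557089) (nat_lit 12) (.e (nat_lit 163844) (nat_lit 0) (.e (nat_lit 6254) (nat_lit 337) .nil))))))) (.g (nat_lit 1) (.e (nat_lit 48662) (nat_lit 0) .nil) .nil))) 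
(.lf (nat_lit 459449) (.g (nat_lit 3923) (.e (nat_lit 2797) (nat_lit 180) (.e (nat_lit 303119) (nat_lit 3) (.e (nat_lit 204869) (nat_lit 29) (.e (nat_lit 360475) (nat_lit 8) (.e (nat_lit 557082) (nat_lit 10) (.e (nat_lit 16128) (nat_lit 225) .nil)))))) (.g (nat_lit 1) (.e (nat_lit 49987) (nat_lit 0) .nil) .nil)))) (.nd (nat_lit 9) 
(.lf (nat_lit 459193) (.g (nat_lit 3561) (.e (nat_lit 2797) (nat_lit 180) (.e (nat_lit 303116) (nat_lit 2) (.e (nat_lit 196666) (nat_lit 13) (.e (nat_lit 65610) (nat_lit 10) (.e (nat_lit 344117) (nat_lit 21) (.e (nat_lit 516106) (nat_lit 0) (.e (nat_lit 7008) (nat_lit 377) .nil))))))) (.g (nat_lit 1) (.e (nat_lit 49381) (nat_lit 0) .nil) .nil))) 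
(.lf (nat_lit 459705) (.g (nat_lit 981) (.e (nat_lit 2798) (nat_lit 180) (.e (nat_lit 303119) (nat_lit 3) (.e (nat_lit 204815) (nat_lit 17) (.e (nat_lit 6203) (nat_lit 332) .nil)))) (.g (nat_lit 0) (.e (nat_lit 50879) (nat_lit 0) .nil) .nil)))))) (.nd (nat_lit 7) (.nd (nat_lit 8) (.nd (nat_lit 9) 
(.lf (nat_lit 458873) (.g (nat_lit 3109) (.e (nat_lit 2725) (nat_lit 172) (.e (nat_lit 237592) (nat_lit 3) (.e (nat_lit 204869) (nat_lit 29) (.e (nat_lit 360475) (nat_lit 8) (.e (nat_lit 557089) (nat_lit 12) (.e (nat_lit 163848) (nat_lit 0) (.e (nat_lit 6252) (nat_lit 337) .nil))))))) (.g (nat_lit 1) (.e (nat_lit 48580) (nat_lit 0) .nil) .nil))) 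
(.lf (nat_lit 459385) (.g (nat_lit 1657) (.e (nat_lit 2797) (nat_lit 180) (.e (nat_lit 303119) (nat_lit 3) (.e (nat_lit 212736) (nat_lit 26) (.e (nat_lit 336099) (nat_lit 9) (.e (nat_lit 336013) (nat_lit 2) (.e (nat_lit 98048) (nat_lit 16) (.e (nat_lit 237312) (nat_lit 176) .nil))))))) (.g (nat_lit 1) (.e (nat_lit 49730) (nat_lit 0) .nil) .nil)))) (.nd (nat_lit 9) 
(.lf (nat_lit 459129) (.g (nat_lit 1912) (.e (nat_lit 2756) (nat_lit 176) (.e (nat_lit 270373) (nat_lit 16) (.e (nat_lit 286735) (nat_lit 3) (.e (nat_lit 98372) (nat_lit 29) (.e (nat_lit 458496) (nat_lit 1) .nil))))) (.g (nat_lit 0) (.e (nat_lit 49128) (nat_lit 0) .nil) .nil))) 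
(.lf (nat_lit 459641) (.g (nat_lit 4227) (.e (nat_lit 2798) (nat_lit 180) (.e (nat_lit 303117) (nat_lit 2) (.e (nat_lit 196666) (nat_lit 13) (.e (nat_lit 65617) (nat_lit 10) (.e (nat_lit 344117) (nat_lit 21) (.e (nat_lit 516106) (nat_lit 0) (.e (nat_lit 7016) (nat_lit 377) .nil))))))) (.g (nat_lit 1) (.e (nat_lit 50804) (nat_lit 0) .nil) .nil))))) (.nd (nat_lit 8) (.nd (nat_lit 9) 
(.lf (nat_lit 459001) (.g (nat_lit 1567) (.e (nat_lit 2725) (nat_lit 172) (.e (nat_lit 237619) (nat_lit 12) (.e (nat_lit 475198) (nat_lit 40) (.e (nat_lit 704599) (nat_lit 6) (.e (nat_lit 188453) (nat_lit 24) (.e (nat_lit 229666) (nat_lit 240) .nil)))))) (.g (nat_lit 1) (.e (nat_lit 48764) (nat_lit 0) .nil) .nil))) 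
(.lf (nat_lit 459513) (.g (nat_lit 1354) (.e (nat_lit 2797) (nat_lit 180) (.e (nat_lit 303143) (nat_lit 12) (.e (nat_lit 475185) (nat_lit 29) (.e (nat_lit 557100) (nat_lit 13) .nil)))) (.g (nat_lit 0) (.e (nat_lit 50270) (nat_lit 0) .nil) .nil)))) (.nd (nat_lit 9) 
(.lf (nat_lit 459257) (.g (nat_lit 3072) (.e (nat_lit 2797) (nat_lit 180) (.e (nat_lit 303117) (nat_lit 2) (.e (nat_lit 196672) (nat_lit 15) (.e (nat_lit 81954) (nat_lit 23) (.e (nat_lit 98325) (nat_lit 17) (.e (nat_lit 6966) (nat_lit 377) .nil)))))) (.g (nat_lit 1) (.e (nat_lit 49479) (nat_lit 0) .nil) .nil))) 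
(.lf (nat_lit 459769) (.g (nat_lit 937) (.e (nat_lit 2798) (nat_lit 180) (.e (nat_lit 303126) (nat_lit 9) (.e (nat_lit 426568) (nat_lit 34) (.e (nat_lit 401152) (nat_lit 3) .nil)))) (.g (nat_lit 0) (.e (nat_lit 51076) (nat_lit 0) .nil) .nil)))))))))) (.nd (nat_lit 3) (.nd (nat_lit 4) (.nd (nat_lit 5) (.nd (nat_lit 6) (.nd (nat_lit 7) (.nd (nat_lit 8) (.nd (nat_lit 9) 
(.lf (nat_lit 458757) (.g (nat_lit 3521) (.e (nat_lit 2725) (nat_lit 172) (.e (nat_lit 237587) (nat_lit 2) (.e (nat_lit 196666) (nat_lit 13) (.e (nat_lit 65617) (nat_lit 10) (.e (nat_lit 344133) (nat_lit 26) (.e (nat_lit 557089) (nat_lit 12) (.e (nat_lit 163849) (nat_lit 0) (.e (nat_lit 6255) (nat_lit 337) .nil)))))))) (.g (nat_lit 1) (.e (nat_lit 48369) (nat_lit 0) .nil) .nil))) 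
(.lf (nat_lit 459269) (.g (nat_lit 2736) (.e (nat_lit 2797) (nat_lit 180) (.e (nat_lit 303117) (nat_lit 2) (.e (nat_lit 196672) (nat_lit 15) (.e (nat_lit 81956) (nat_lit 23) (.e (nat_lit 98325) (nat_lit 17) (.e (nat_lit 7008) (nat_lit 377) .nil)))))) (.g (nat_lit 1) (.e (nat_lit 49491) (nat_lit 0) .nil) .nil)))) (.nd (nat_lit 9) 
(.lf (nat_lit 459013) (.g (nat_lit 2322) (.e (nat_lit 2725) (nat_lit 172) (.e (nat_lit 237619) (nat_lit 12) (.e (nat_lit 475210) (nat_lit 41) (.e (nat_lit 712755) (nat_lit 30) (.e (nat_lit 450568) (nat_lit 0) (.e (nat_lit 5448) (nat_lit 306) .nil)))))) (.g (nat_lit 1) (.e (nat_lit 48779) (nat_lit 0) .nil) .nil))) 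
(.lf (nat_lit 459525) (.g (nat_lit 3590) (.e (nat_lit 2797) (nat_lit 180) (.e (nat_lit 303143) (nat_lit 12) (.e (nat_lit 475185) (nat_lit 29) (.e (nat_lit 557100) (nat_lit 13) (.e (nat_lit 172097) (nat_lit 9) .nil))))) (.g (nat_lit 0) (.e (nat_lit 50284) (nat_lit 0) .nil) .nil))))) (.nd (nat_lit 8) (.nd (nat_lit 9) 
(.lf (nat_lit 458885) (.g (nat_lit 2092) (.e (nat_lit 2725) (nat_lit 172) (.e (nat_lit 237593) (nat_lit 3) (.e (nat_lit 204868) (nat_lit 29) (.e (nat_lit 360473) (nat_lit 8) (.e (nat_lit 557094) (nat_lit 12) (.e (nat_lit 163849) (nat_lit 0) (.e (nat_lit 6254) (nat_lit 337) .nil))))))) (.g (nat_lit 1) (.e (nat_lit 48595) (nat_lit 0) .nil) .nil))) 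
(.lf (nat_lit 459397) (.g (nat_lit 1619) (.e (nat_lit 2797) (nat_lit 180) (.e (nat_lit 303119) (nat_lit 3) (.e (nat_lit 204865) (nat_lit 28) (.e (nat_lit 352313) (nat_lit 23) .nil)))) (.g (nat_lit 0) (.e (nat_lit 49752) (nat_lit 0) .nil) .nil)))) (.nd (nat_lit 9) 
(.lf (nat_lit 459141) (.g (nat_lit 1763) (.e (nat_lit 2769) (nat_lit 177) (.e (nat_lit 278566) (nat_lit 16) (.e (nat_lit 286761) (nat_lit 13) (.e (nat_lit 393283) (nat_lit 24) (.e (nat_lit 434275) (nat_lit 39) .nil))))) (.g (nat_lit 0) (.e (nat_lit 49148) (nat_lit 0) .nil) .nil))) 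
(.lf (nat_lit 459653) (.g (nat_lit 2060) (.e (nat_lit 2798) (nat_lit 180) (.e (nat_lit 303117) (nat_lit 2) (.e (nat_lit 196670) (nat_lit 14) (.e (nat_lit 73781) (nat_lit 32) (.e (nat_lit 2505) (nat_lit 157) .nil))))) (.g (nat_lit 0) (.e (nat_lit 50817) (nat_lit 0) .nil) .nil)))))) (.nd (nat_lit 7) (.nd (nat_lit 8) (.nd (nat_lit 9) 
(.lf (nat_lit 458821) (.g (nat_lit 2320) (.e (nat_lit 2725) (nat_lit 172) (.e (nat_lit 237590) (nat_lit 2) (.e (nat_lit 196666) (nat_lit 13) (.e (nat_lit 65610) (nat_lit 10) (.e (nat_lit 344129) (nat_lit 26) .nil))))) (.g (nat_lit 0) (.e (nat_lit 48484) (nat_lit 0) .nil) .nil))) 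
(.lf (nat_lit 459333) (.g (nat_lit 1613) (.e (nat_lit 2797) (nat_lit 180) (.e (nat_lit 303118) (nat_lit 3) (.e (nat_lit 204868) (nat_lit 29) (.e (nat_lit 360466) (nat_lit 3) .nil)))) (.g (nat_lit 0) (.e (nat_lit 49569) (nat_lit 0) .nil) .nil)))) (.nd (nat_lit 9) 
(.lf (nat_lit 459077) (.g (nat_lit 3158) (.e (nat_lit 2744) (nat_lit 174) (.e (nat_lit 253991) (nat_lit 11) (.e (nat_lit 16409) (nat_lit 2) (.e (nat_lit 196672) (nat_lit 15) (.e (nat_lit 81946) (nat_lit 20) (.e (nat_lit 1858) (nat_lit 124) (.e (nat_lit 557070) (nat_lit 9) .nil))))))) (.g (nat_lit 1) (.e (nat_lit 49069) (nat_lit 0) .nil) .nil))) 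
(.lf (nat_lit 459589) (.g (nat_lit 2889) (.e (nat_lit 2797) (nat_lit 180) (.e (nat_lit 303143) (nat_lit 12) (.e (nat_lit 475211) (nat_lit 41) (.e (nat_lit 712755) (nat_lit 30) (.e (nat_lit 450596) (nat_lit 17) (.e (nat_lit 671488) (nat_lit 14) .nil)))))) (.g (nat_lit 1) (.e (nat_lit 50400) (nat_lit 0) .nil) .nil))))) (.nd (nat_lit 8) (.nd (nat_lit 9) 
(.lf (nat_lit 458949) (.g (nat_lit 3140) (.e (nat_lit 2725) (nat_lit 172) (.e (nat_lit 237594) (nat_lit 3) (.e (nat_lit 204869) (nat_lit 29) (.e (nat_lit 360474) (nat_lit 8) (.e (nat_lit 557094) (nat_lit 12) (.e (nat_lit 163847) (nat_lit 0) (.e (nat_lit 6252) (nat_lit 337) .nil))))))) (.g (nat_lit 1) (.e (nat_lit 48677) (nat_lit 0) .nil) .nil))) 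
(.lf (nat_lit 459461) (.g (nat_lit 3568) (.e (nat_lit 2797) (nat_lit 180) (.e (nat_lit 303119) (nat_lit 3) (.e (nat_lit 204878) (nat_lit 31) (.e (nat_lit 376865) (nat_lit 22) (.e (nat_lit 90181) (nat_lit 16) (.e (nat_lit 237312) (nat_lit 176) .nil)))))) (.g (nat_lit 1) (.e (nat_lit 50014) (nat_lit 0) .nil) .nil)))) (.nd (nat_lit 9) 
(.lf (nat_lit 459205) (.g (nat_lit 2694) (.e (nat_lit 2797) (nat_lit 180) (.e (nat_lit 303117) (nat_lit 2) (.e (nat_lit 196664) (nat_lit 13) (.e (nat_lit 65619) (nat_lit 10) (.e (nat_lit 344117) (nat_lit 21) (.e (nat_lit 516106) (nat_lit 0) (.e (nat_lit 7936) (nat_lit 377) .nil))))))) (.g (nat_lit 1) (.e (nat_lit 49393) (nat_lit 0) .nil) .nil))) 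
(.lf (nat_lit 459717) (.g (nat_lit 540) (.e (nat_lit 2798) (nat_lit 180) (.e (nat_lit 303119) (nat_lit 3) (.e (nat_lit 204855) (nat_lit 26) .nil))) (.g (nat_lit 0) (.e (nat_lit 50905) (nat_lit 0) .nil) .nil))))))) (.nd (nat_lit 6) (.nd (nat_lit 7) (.nd (nat_lit 8) (.nd (nat_lit 9) 
(.lf (nat_lit 458789) (.g (nat_lit 3913) (.e (nat_lit 2725) (nat_lit 172) (.e (nat_lit 237589) (nat_lit 2) (.e (nat_lit 196666) (nat_lit 13) (.e (nat_lit 65617) (nat_lit 10) (.e (nat_lit 344130) (nat_lit 26) (.e (nat_lit 557090) (nat_lit 12) (.e (nat_lit 163847) (nat_lit 0) (.e (nat_lit 6252) (nat_lit 337) .nil)))))))) (.g (nat_lit 1) (.e (nat_lit 48451) (nat_lit 0) .nil) .nil))) 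
(.lf (nat_lit 459301) (.g (nat_lit 3174) (.e (nat_lit 2797) (nat_lit 180) (.e (nat_lit 303117) (nat_lit 2) (.e (nat_lit 196674) (nat_lit 15) (.e (nat_lit 81951) (nat_lit 22) (.e (nat_lit 90165) (nat_lit 12) (.e (nat_lit 164210) (nat_lit 176) .nil)))))) (.g (nat_lit 1) (.e (nat_lit 49527) (nat_lit 0) .nil) .nil)))) (.nd (nat_lit 9) 
(.lf (nat_lit 459045) (.g (nat_lit 2229) (.e (nat_lit 2739) (nat_lit 174) (.e (nat_lit 253992) (nat_lit 11) (.e (nat_lit 16424) (nat_lit 7) (.e (nat_lit 409649) (nat_lit 18) (.e (nat_lit 303140) (nat_lit 10) (.e (nat_lit 434275) (nat_lit 39) (.e (nat_lit 663574) (nat_lit 9) .nil))))))) (.g (nat_lit 1) (.e (nat_lit 49004) (nat_lit 0) .nil) .nil))) 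
(.lf (nat_lit 459557) (.g (nat_lit 2657) (.e (nat_lit 2797) (nat_lit 180) (.e (nat_lit 303143) (nat_lit 12) (.e (nat_lit 475185) (nat_lit 29) (.e (nat_lit 557101) (nat_lit 13) (.e (nat_lit 172097) (nat_lit 9) (.e (nat_lit 426113) (nat_lit 2) (.e (nat_lit 204544) (nat_lit 18) .nil))))))) (.g (nat_lit 1) (.e (nat_lit 50332) (nat_lit 0) .nil) .nil))))) (.nd (nat_lit 8) (.nd (nat_lit 9) 
(.lf (nat_lit 458917) (.g (nat_lit 3075) (.e (nat_lit 2725) (nat_lit 172) (.e (nat_lit 237593) (nat_lit 3) (.e (nat_lit 204869) (nat_lit 29) (.e (nat_lit 360475) (nat_lit 8) (.e (nat_lit 557091) (nat_lit 12) .nil))))) (.g (nat_lit 0) (.e (nat_lit 48630) (nat_lit 0) .nil) .nil))) 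
(.lf (nat_lit 459429) (.g (nat_lit 3161) (.e (nat_lit 2797) (nat_lit 180) (.e (nat_lit 303119) (nat_lit 3) (.e (nat_lit 204868) (nat_lit 29) (.e (nat_lit 360466) (nat_lit 3) (.e (nat_lit 516109) (nat_lit 0) .nil))))) (.g (nat_lit 0) (.e (nat_lit 49808) (nat_lit 0) .nil) .nil)))) (.nd (nat_lit 9) 
(.lf (nat_lit 459173) (.g (nat_lit 2266) (.e (nat_lit 2796) (nat_lit 180) (.e (nat_lit 303117) (nat_lit 2) (.e (nat_lit 196674) (nat_lit 15) (.e (nat_lit 81952) (nat_lit 22) .nil)))) (.g (nat_lit 0) (.e (nat_lit 49310) (nat_lit 0) .nil) .nil))) 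
(.lf (nat_lit 459685) (.g (nat_lit 2136) (.e (nat_lit 2798) (nat_lit 180) (.e (nat_lit 303117) (nat_lit 2) (.e (nat_lit 196674) (nat_lit 15) (.e (nat_lit 81954) (nat_lit 23) (.e (nat_lit 98325) (nat_lit 17) (.e (nat_lit 6966) (nat_lit 377) .nil)))))) (.g (nat_lit 1) (.e (nat_lit 50850) (nat_lit 0) .nil) .nil)))))) (.nd (nat_lit 7) (.nd (nat_lit 8) (.nd (nat_lit 9) 
(.lf (nat_lit 458853) (.g (nat_lit 4061) (.e (nat_lit 2725) (nat_lit 172) (.e (nat_lit 237590) (nat_lit 2) (.e (nat_lit 196666) (nat_lit 13) (.e (nat_lit 65617) (nat_lit 10) (.e (nat_lit 344133) (nat_lit 26) (.e (nat_lit 557091) (nat_lit 12) (.e (nat_lit 163843) (nat_lit 0) (.e (nat_lit 6254) (nat_lit 337) .nil)))))))) (.g (nat_lit 1) (.e (nat_lit 48516) (nat_lit 0) .nil) .nil))) 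
(.lf (nat_lit 459365) (.g (nat_lit 4078) (.e (nat_lit 2797) (nat_lit 180) (.e (nat_lit 303119) (nat_lit 3) (.e (nat_lit 204861) (nat_lit 26) (.e (nat_lit 336184) (nat_lit 11) (.e (nat_lit 368676) (nat_lit 21) (.e (nat_lit 516097) (nat_lit 0) (.e (nat_lit 7073) (nat_lit 377) .nil))))))) (.g (nat_lit 1) (.e (nat_lit 49710) (nat_lit 0) .nil) .nil)))) (.nd (nat_lit 9) 
(.lf (nat_lit 459109) (.g (nat_lit 2476) (.e (nat_lit 2744) (nat_lit 174) (.e (nat_lit 253992) (nat_lit 11) (.e (nat_lit 16412) (nat_lit 2) (.e (nat_lit 196674) (nat_lit 15) (.e (nat_lit 81940) (nat_lit 20) .nil))))) (.g (nat_lit 0) (.e (nat_lit 49103) (nat_lit 0) .nil) .nil))) 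
(.lf (nat_lit 459621) (.g (nat_lit 2428) (.e (nat_lit 2798) (nat_lit 180) (.e (nat_lit 303117) (nat_lit 2) (.e (nat_lit 196666) (nat_lit 13) (.e (nat_lit 65598) (nat_lit 9) .nil)))) (.g (nat_lit 0) (.e (nat_lit 50781) (nat_lit 0) .nil) .nil))))) (.nd (nat_lit 8) (.nd (nat_lit 9) 
(.lf (nat_lit 458981) (.g (nat_lit 2616) (.e (nat_lit 2725) (nat_lit 172) (.e (nat_lit 237616) (nat_lit 12) (.e (nat_lit 475210) (nat_lit 41) (.e (nat_lit 712755) (nat_lit 30) (.e (nat_lit 450569) (nat_lit 0) (.e (nat_lit 5448) (nat_lit 306) .nil)))))) (.g (nat_lit 1) (.e (nat_lit 48740) (nat_lit 0) .nil) .nil))) 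
(.lf (nat_lit 459493) (.g (nat_lit 2834) (.e (nat_lit 2797) (nat_lit 180) (.e (nat_lit 303143) (nat_lit 12) (.e (nat_lit 475183) (nat_lit 29) (.e (nat_lit 557109) (nat_lit 15) (.e (nat_lit 188449) (nat_lit 22) (.e (nat_lit 204544) (nat_lit 18) .nil)))))) (.g (nat_lit 1) (.e (nat_lit 50175) (nat_lit 0) .nil) .nil)))) (.nd (nat_lit 9) 
(.lf (nat_lit 459237) (.g (nat_lit 1664) (.e (nat_lit 2797) (nat_lit 180) (.e (nat_lit 303117) (nat_lit 2) (.e (nat_lit 196668) (nat_lit 14) (.e (nat_lit 73781) (nat_lit 32) (.e (nat_lit 2681) (nat_lit 168) .nil))))) (.g (nat_lit 0) (.e (nat_lit 49441) (nat_lit 0) .nil) .nil))) 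
(.lf (nat_lit 459749) (.g (nat_lit 2414) (.e (nat_lit 2798) (nat_lit 180) (.e (nat_lit 303119) (nat_lit 3) (.e (nat_lit 204869) (nat_lit 29) (.e (nat_lit 360451) (nat_lit 0) (.e (nat_lit 3994) (nat_lit 240) (.e (nat_lit 8194) (nat_lit 0) (.e (nat_lit 4981) (nat_lit 287) .nil))))))) (.g (nat_lit 1) (.e (nat_lit 50996) (nat_lit 0) .nil) .nil)))))))) 
(.nd (nat_lit 5) (.nd (nat_lit 6) (.nd (nat_lit 7) (.nd (nat_lit 8) (.nd (nat_lit 9) 
(.lf (nat_lit 458773) (.g (nat_lit 2062) (.e (nat_lit 2725) (nat_lit 172) (.e (nat_lit 237589) (nat_lit 2) (.e (nat_lit 196666) (nat_lit 13) (.e (nat_lit 65617) (nat_lit 10) (.e (nat_lit 344127) (nat_lit 26) (.e (nat_lit 557089) (nat_lit 12) (.e (nat_lit 163844) (nat_lit 0) (.e (nat_lit 6254) (nat_lit 337) .nil)))))))) (.g (nat_lit 1) (.e (nat_lit 48435) (nat_lit 0) .nil) .nil))) 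
(.lf (nat_lit 459285) (.g (nat_lit 3516) (.e (nat_lit 2797) (nat_lit 180) (.e (nat_lit 303117) (nat_lit 2) (.e (nat_lit 196673) (nat_lit 15) (.e (nat_lit 81956) (nat_lit 23) (.e (nat_lit 98325) (nat_lit 17) (.e (nat_lit 6966) (nat_lit 377) .nil)))))) (.g (nat_lit 1) (.e (nat_lit 49507) (nat_lit 0) .nil) .nil)))) (.nd (nat_lit 9) 
(.lf (nat_lit 459029) (.g (nat_lit 2071) (.e (nat_lit 2738) (nat_lit 174) (.e (nat_lit 253992) (nat_lit 11) (.e (nat_lit 16425) (nat_lit 7) (.e (nat_lit 409648) (nat_lit 18) .nil)))) (.g (nat_lit 0) (.e (nat_lit 48980) (nat_lit 0) .nil) .nil))) 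
(.lf (nat_lit 459541) (.g (nat_lit 3636) (.e (nat_lit 2797) (nat_lit 180) (.e (nat_lit 303143) (nat_lit 12) (.e (nat_lit 475185) (nat_lit 29) (.e (nat_lit 557100) (nat_lit 13) (.e (nat_lit 172113) (nat_lit 10) (.e (nat_lit 434219) (nat_lit 19) (.e (nat_lit 507648) (nat_lit 0) .nil))))))) (.g (nat_lit 1) (.e (nat_lit 50309) (nat_lit 0) .nil) .nil))))) (.nd (nat_lit 8) (.nd (nat_lit 9) 
(.lf (nat_lit 458901) (.g (nat_lit 3527) (.e (nat_lit 2725) (nat_lit 172) (.e (nat_lit 237593) (nat_lit 3) (.e (nat_lit 204869) (nat_lit 29) (.e (nat_lit 360474) (nat_lit 8) (.e (nat_lit 557091) (nat_lit 12) (.e (nat_lit 163841) (nat_lit 0) (.e (nat_lit 6250) (nat_lit 337) .nil))))))) (.g (nat_lit 1) (.e (nat_lit 48611) (nat_lit 0) .nil) .nil))) 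
(.lf (nat_lit 459413) (.g (nat_lit 2026) (.e (nat_lit 2797) (nat_lit 180) (.e (nat_lit 303119) (nat_lit 3) (.e (nat_lit 204868) (nat_lit 29) (.e (nat_lit 360459) (nat_lit 1) .nil)))) (.g (nat_lit 0) (.e (nat_lit 49791) (nat_lit 0) .nil) .nil)))) (.nd (nat_lit 9) 
(.lf (nat_lit 459157) (.g (nat_lit 3497) (.e (nat_lit 2795) (nat_lit 180) (.e (nat_lit 303143) (nat_lit 12) (.e (nat_lit 475185) (nat_lit 29) (.e (nat_lit 557101) (nat_lit 13) (.e (nat_lit 172115) (nat_lit 10) (.e (nat_lit 434219) (nat_lit 19) (.e (nat_lit 499741) (nat_lit 0) .nil))))))) (.g (nat_lit 1) (.e (nat_lit 49249) (nat_lit 0) .nil) .nil))) 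
(.lf (nat_lit 459669) (.g (nat_lit 3311) (.e (nat_lit 2798) (nat_lit 180) (.e (nat_lit 303117) (nat_lit 2) (.e (nat_lit 196673) (nat_lit 15) (.e (nat_lit 81956) (nat_lit 23) (.e (nat_lit 98321) (nat_lit 17) (.e (nat_lit 7936) (nat_lit 377) .nil)))))) (.g (nat_lit 1) (.e (nat_lit 50834) (nat_lit 0) .nil) .nil)))))) (.nd (nat_lit 7) (.nd (nat_lit 8) (.nd (nat_lit 9) 
(.lf (nat_lit 458837) (.g (nat_lit 2647) (.e (nat_lit 2725) (nat_lit 172) (.e (nat_lit 237590) (nat_lit 2) (.e (nat_lit 196666) (nat_lit 13) (.e (nat_lit 65617) (nat_lit 10) (.e (nat_lit 344130) (nat_lit 26) (.e (nat_lit 557090) (nat_lit 12) (.e (nat_lit 163847) (nat_lit 0) (.e (nat_lit 6252) (nat_lit 337) .nil)))))))) (.g (nat_lit 1) (.e (nat_lit 48500) (nat_lit 0) .nil) .nil))) 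
(.lf (nat_lit 459349) (.g (nat_lit 3776) (.e (nat_lit 2797) (nat_lit 180) (.e (nat_lit 303119) (nat_lit 3) (.e (nat_lit 204855) (nat_lit 26) (.e (nat_lit 336099) (nat_lit 9) (.e (nat_lit 336013) (nat_lit 2) (.e (nat_lit 98048) (nat_lit 12) (.e (nat_lit 164209) (nat_lit 176) .nil))))))) (.g (nat_lit 1) (.e (nat_lit 49660) (nat_lit 0) .nil) .nil)))) (.nd (nat_lit 9) 
(.lf (nat_lit 459093) (.g (nat_lit 3596) (.e (nat_lit 2744) (nat_lit 174) (.e (nat_lit 253991) (nat_lit 11) (.e (nat_lit 16416) (nat_lit 3) (.e (nat_lit 204868) (nat_lit 29) (.e (nat_lit 360474) (nat_lit 8) (.e (nat_lit 557070) (nat_lit 9) .nil)))))) (.g (nat_lit 1) (.e (nat_lit 49085) (nat_lit 0) .nil) .nil))) 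
(.lf (nat_lit 459605) (.g (nat_lit 2261) (.e (nat_lit 2798) (nat_lit 180) (.e (nat_lit 303112) (nat_lit 0) (.e (nat_lit 3252) (nat_lit 197) (.e (nat_lit 532561) (nat_lit 14) (.e (nat_lit 376865) (nat_lit 22) (.e (nat_lit 90181) (nat_lit 16) (.e (nat_lit 237312) (nat_lit 176) .nil))))))) (.g (nat_lit 1) (.e (nat_lit 50763) (nat_lit 0) .nil) .nil))))) (.nd (nat_lit 8) (.nd (nat_lit 9) 
(.lf (nat_lit 458965) (.g (nat_lit 1243) (.e (nat_lit 2725) (nat_lit 172) (.e (nat_lit 237615) (nat_lit 12) (.e (nat_lit 475210) (nat_lit 41) (.e (nat_lit 712753) (nat_lit 30) (.e (nat_lit 450568) (nat_lit 0) (.e (nat_lit 5448) (nat_lit 306) .nil)))))) (.g (nat_lit 1) (.e (nat_lit 48723) (nat_lit 0) .nil) .nil))) 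
(.lf (nat_lit 459477) (.g (nat_lit 6925) (.e (nat_lit 2797) (nat_lit 180) (.e (nat_lit 303133) (nat_lit 9) (.e (nat_lit 426412) (nat_lit 15) (.e (nat_lit 1856) (nat_lit 124) (.e (nat_lit 557108) (nat_lit 15) (.e (nat_lit 188449) (nat_lit 22) (.e (nat_lit 204544) (nat_lit 18) .nil))))))) (.g (nat_lit 1) (.e (nat_lit 50061) (nat_lit 0) .nil) .nil)))) (.nd (nat_lit 9) 
(.lf (nat_lit 459221) (.g (nat_lit 4529) (.e (nat_lit 2797) (nat_lit 180) (.e (nat_lit 303117) (nat_lit 2) (.e (nat_lit 196666) (nat_lit 13) (.e (nat_lit 65610) (nat_lit 10) (.e (nat_lit 344117) (nat_lit 21) (.e (nat_lit 516106) (nat_lit 0) (.e (nat_lit 7015) (nat_lit 377) .nil))))))) (.g (nat_lit 1) (.e (nat_lit 49425) (nat_lit 0) .nil) .nil))) 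
(.lf (nat_lit 459733) (.g (nat_lit 2803) (.e (nat_lit 2798) (nat_lit 180) (.e (nat_lit 303119) (nat_lit 3) (.e (nat_lit 204867) (nat_lit 28) (.e (nat_lit 352312) (nat_lit 22) (.e (nat_lit 90165) (nat_lit 12) (.e (nat_lit 171776) (nat_lit 176) .nil)))))) (.g (nat_lit 1) (.e (nat_lit 50976) (nat_lit 0) .nil) .nil))))))) (.nd (nat_lit 6) (.nd (nat_lit 7) (.nd (nat_lit 8) (.nd (nat_lit 9) 
(.lf (nat_lit 458805) (.g (nat_lit 2244) (.e (nat_lit 2725) (nat_lit 172) (.e (nat_lit 237589) (nat_lit 2) (.e (nat_lit 196666) (nat_lit 13) (.e (nat_lit 65617) (nat_lit 10) (.e (nat_lit 344133) (nat_lit 26) (.e (nat_lit 557089) (nat_lit 12) (.e (nat_lit 163849) (nat_lit 0) (.e (nat_lit 6250) (nat_lit 337) .nil)))))))) (.g (nat_lit 1) (.e (nat_lit 48467) (nat_lit 0) .nil) .nil))) 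
(.lf (nat_lit 459317) (.g (nat_lit 1210) (.e (nat_lit 2797) (nat_lit 180) (.e (nat_lit 303117) (nat_lit 2) (.e (nat_lit 196674) (nat_lit 15) (.e (nat_lit 81955) (nat_lit 23) .nil)))) (.g (nat_lit 0) (.e (nat_lit 49544) (nat_lit 0) .nil) .nil)))) (.nd (nat_lit 9) 
(.lf (nat_lit 459061) (.g (nat_lit 2143) (.e (nat_lit 2741) (nat_lit 174) (.e (nat_lit 253991) (nat_lit 11) (.e (nat_lit 16412) (nat_lit 2) (.e (nat_lit 196681) (nat_lit 17) (.e (nat_lit 131109) (nat_lit 9) .nil))))) (.g (nat_lit 0) (.e (nat_lit 49037) (nat_lit 0) .nil) .nil))) 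
(.lf (nat_lit 459573) (.g (nat_lit 3579) (.e (nat_lit 2797) (nat_lit 180) (.e (nat_lit 303143) (nat_lit 12) (.e (nat_lit 475185) (nat_lit 29) (.e (nat_lit 557107) (nat_lit 15) (.e (nat_lit 188441) (nat_lit 20) (.e (nat_lit 3115) (nat_lit 193) (.e (nat_lit 499728) (nat_lit 0) .nil))))))) (.g (nat_lit 1) (.e (nat_lit 50362) (nat_lit 0) .nil) .nil))))) (.nd (nat_lit 8) (.nd (nat_lit 9) 
(.lf (nat_lit 458933) (.g (nat_lit 3058) (.e (nat_lit 2725) (nat_lit 172) (.e (nat_lit 237594) (nat_lit 3) (.e (nat_lit 204868) (nat_lit 29) (.e (nat_lit 360473) (nat_lit 8) (.e (nat_lit 557093) (nat_lit 12) (.e (nat_lit 163849) (nat_lit 0) (.e (nat_lit 6254) (nat_lit 337) .nil))))))) (.g (nat_lit 1) (.e (nat_lit 48655) (nat_lit 0) .nil) .nil))) 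
(.lf (nat_lit 459445) (.g (nat_lit 4099) (.e (nat_lit 2797) (nat_lit 180) (.e (nat_lit 303119) (nat_lit 3) (.e (nat_lit 204869) (nat_lit 29) (.e (nat_lit 360472) (nat_lit 8) (.e (nat_lit 557084) (nat_lit 10) (.e (nat_lit 16128) (nat_lit 225) .nil)))))) (.g (nat_lit 1) (.e (nat_lit 49928) (nat_lit 0) .nil) .nil)))) (.nd (nat_lit 9) 
(.lf (nat_lit 459189) (.g (nat_lit 3877) (.e (nat_lit 2797) (nat_lit 180) (.e (nat_lit 303112) (nat_lit 0) (.e (nat_lit 3252) (nat_lit 197) (.e (nat_lit 532535) (nat_lit 9) (.e (nat_lit 336099) (nat_lit 9) (.e (nat_lit 336013) (nat_lit 2) (.e (nat_lit 98048) (nat_lit 12) (.e (nat_lit 164209) (nat_lit 176) .nil)))))))) (.g (nat_lit 1) (.e (nat_lit 49373) (nat_lit 0) .nil) .nil))) 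
(.lf (nat_lit 459701) (.g (nat_lit 2388) (.e (nat_lit 2798) (nat_lit 180) (.e (nat_lit 303118) (nat_lit 3) (.e (nat_lit 204868) (nat_lit 29) (.e (nat_lit 360466) (nat_lit 3) (.e (nat_lit 516100) (nat_lit 0) .nil))))) (.g (nat_lit 0) (.e (nat_lit 50875) (nat_lit 0) .nil) .nil)))))) (.nd (nat_lit 7) (.nd (nat_lit 8) (.nd (nat_lit 9) 
(.lf (nat_lit 458869) (.g (nat_lit 1983) (.e (nat_lit 2725) (nat_lit 172) (.e (nat_lit 237592) (nat_lit 3) (.e (nat_lit 204869) (nat_lit 29) (.e (nat_lit 360474) (nat_lit 8) (.e (nat_lit 557093) (nat_lit 12) .nil))))) (.g (nat_lit 0) (.e (nat_lit 48576) (nat_lit 0) .nil) .nil))) 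
(.lf (nat_lit 459381) (.g (nat_lit 3792) (.e (nat_lit 2797) (nat_lit 180) (.e (nat_lit 303119) (nat_lit 3) (.e (nat_lit 204861) (nat_lit 26) (.e (nat_lit 336186) (nat_lit 11) (.e (nat_lit 368676) (nat_lit 21) (.e (nat_lit 516106) (nat_lit 0) (.e (nat_lit 7936) (nat_lit 377) .nil))))))) (.g (nat_lit 1) (.e (nat_lit 49726) (nat_lit 0) .nil) .nil)))) (.nd (nat_lit 9) 
(.lf (nat_lit 459125) (.g (nat_lit 2753) (.e (nat_lit 2749) (nat_lit 175) (.e (nat_lit 262165) (nat_lit 11) (.e (nat_lit 24617) (nat_lit 7) (.e (nat_lit 319533) (nat_lit 16) (.e (nat_lit 286753) (nat_lit 10) (.e (nat_lit 344168) (nat_lit 40) (.e (nat_lit 671771) (nat_lit 9) .nil))))))) (.g (nat_lit 1) (.e (nat_lit 49120) (nat_lit 0) .nil) .nil))) 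
(.lf (nat_lit 459637) (.g (nat_lit 2771) (.e (nat_lit 2798) (nat_lit 180) (.e (nat_lit 303117) (nat_lit 2) (.e (nat_lit 196666) (nat_lit 13) (.e (nat_lit 65610) (nat_lit 10) (.e (nat_lit 344129) (nat_lit 26) .nil))))) (.g (nat_lit 0) (.e (nat_lit 50800) (nat_lit 0) .nil) .nil))))) (.nd (nat_lit 8) (.nd (nat_lit 9) 
(.lf (nat_lit 458997) (.g (nat_lit 1692) (.e (nat_lit 2725) (nat_lit 172) (.e (nat_lit 237617) (nat_lit 12) (.e (nat_lit 475211) (nat_lit 41) (.e (nat_lit 712753) (nat_lit 30) (.e (nat_lit 450568) (nat_lit 0) (.e (nat_lit 5448) (nat_lit 306) .nil)))))) (.g (nat_lit 1) (.e (nat_lit 48760) (nat_lit 0) .nil) .nil))) 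
(.lf (nat_lit 459509) (.g (nat_lit 4235) (.e (nat_lit 2797) (nat_lit 180) (.e (nat_lit 303143) (nat_lit 12) (.e (nat_lit 475185) (nat_lit 29) (.e (nat_lit 557098) (nat_lit 13) (.e (nat_lit 172100) (nat_lit 9) .nil))))) (.g (nat_lit 0) (.e (nat_lit 50264) (nat_lit 0) .nil) .nil)))) (.nd (nat_lit 9) 
(.lf (nat_lit 459253) (.g (nat_lit 2785) (.e (nat_lit 2797) (nat_lit 180) (.e (nat_lit 303117) (nat_lit 2) (.e (nat_lit 196672) (nat_lit 15) (.e (nat_lit 81954) (nat_lit 23) (.e (nat_lit 98320) (nat_lit 17) (.e (nat_lit 7073) (nat_lit 377) .nil)))))) (.g (nat_lit 1) (.e (nat_lit 49475) (nat_lit 0) .nil) .nil))) 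
(.lf (nat_lit 459765) (.g (nat_lit 2729) (.e (nat_lit 2798) (nat_lit 180) (.e (nat_lit 303119) (nat_lit 3) (.e (nat_lit 204878) (nat_lit 31) (.e (nat_lit 376862) (nat_lit 22) (.e (nat_lit 90165) (nat_lit 12) (.e (nat_lit 171776) (nat_lit 176) .nil)))))) (.g (nat_lit 1) (.e (nat_lit 51064) (nat_lit 0) .nil) .nil))))))))) 
(.nd (nat_lit 4) (.nd (nat_lit 5) (.nd (nat_lit 6) (.nd (nat_lit 7) (.nd (nat_lit 8) 
(.nd (nat_lit 9) 
(.lf (nat_lit 458765) (.g (nat_lit 2221) (.e (nat_lit 2725) (nat_lit 172) (.e (nat_lit 237588) (nat_lit 2) (.e (nat_lit 196666) (nat_lit 13) (.e (nat_lit 65617) (nat_lit 10) (.e (nat_lit 344130) (nat_lit 26) (.e (nat_lit 557090) (nat_lit 12) (.e (nat_lit 163847) (nat_lit 0) (.e (nat_lit 6254) (nat_lit 337) .nil)))))))) (.g (nat_lit 1) (.e (nat_lit 48417) (nat_lit 0) .nil) .nil))) 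
(.lf (nat_lit 459277) (.g (nat_lit 2093) (.e (nat_lit 2797) (nat_lit 180) (.e (nat_lit 303117) (nat_lit 2) (.e (nat_lit 196673) (nat_lit 15) (.e (nat_lit 81953) (nat_lit 22) (.e (nat_lit 90165) (nat_lit 12) (.e (nat_lit 164210) (nat_lit 176) .nil)))))) (.g (nat_lit 1) (.e (nat_lit 49499) (nat_lit 0) .nil) .nil)))) (.nd (nat_lit 9) 
(.lf (nat_lit 459021) (.g (nat_lit 2524) (.e (nat_lit 2725) (nat_lit 172) (.e (nat_lit 237619) (nat_lit 12) (.e (nat_lit 475211) (nat_lit 41) (.e (nat_lit 712753) (nat_lit 30) (.e (nat_lit 450569) (nat_lit 0) (.e (nat_lit 5448) (nat_lit 306) .nil)))))) (.g (nat_lit 1) (.e (nat_lit 48787) (nat_lit 0) .nil) .nil))) 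
(.lf (nat_lit 459533) (.g (nat_lit 2806) (.e (nat_lit 2797) (nat_lit 180) (.e (nat_lit 303143) (nat_lit 12) (.e (nat_lit 475185) (nat_lit 29) (.e (nat_lit 557100) (nat_lit 13) (.e (nat_lit 172106) (nat_lit 10) (.e (nat_lit 434218) (nat_lit 19) (.e (nat_lit 507648) (nat_lit 0) .nil))))))) (.g (nat_lit 1) (.e (nat_lit 50296) (nat_lit 0) .nil) .nil))))) (.nd (nat_lit 8) (.nd (nat_lit 9) 
(.lf (nat_lit 458893) (.g (nat_lit 3402) (.e (nat_lit 2725) (nat_lit 172) (.e (nat_lit 237593) (nat_lit 3) (.e (nat_lit 204869) (nat_lit 29) (.e (nat_lit 360474) (nat_lit 8) (.e (nat_lit 557089) (nat_lit 12) (.e (nat_lit 163844) (nat_lit 0) (.e (nat_lit 6252) (nat_lit 337) .nil))))))) (.g (nat_lit 1) (.e (nat_lit 48603) (nat_lit 0) .nil) .nil))) 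
(.lf (nat_lit 459405) (.g (nat_lit 3263) (.e (nat_lit 2797) (nat_lit 180) (.e (nat_lit 303119) (nat_lit 3) (.e (nat_lit 204867) (nat_lit 28) (.e (nat_lit 352312) (nat_lit 22) (.e (nat_lit 90165) (nat_lit 12) (.e (nat_lit 164207) (nat_lit 176) .nil)))))) (.g (nat_lit 1) (.e (nat_lit 49783) (nat_lit 0) .nil) .nil)))) (.nd (nat_lit 9) 
(.lf (nat_lit 459149) (.g (nat_lit 2696) (.e (nat_lit 2795) (nat_lit 180) (.e (nat_lit 303117) (nat_lit 2) (.e (nat_lit 196673) (nat_lit 15) (.e (nat_lit 81956) (nat_lit 23) (.e (nat_lit 98320) (nat_lit 17) .nil))))) (.g (nat_lit 0) (.e (nat_lit 49230) (nat_lit 0) .nil) .nil))) 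
(.lf (nat_lit 459661) (.g (nat_lit 2800) (.e (nat_lit 2798) (nat_lit 180) (.e (nat_lit 303117) (nat_lit 2) (.e (nat_lit 196672) (nat_lit 15) (.e (nat_lit 81954) (nat_lit 23) (.e (nat_lit 98325) (nat_lit 17) (.e (nat_lit 6966) (nat_lit 377) .nil)))))) (.g (nat_lit 1) (.e (nat_lit 50826) (nat_lit 0) .nil) .nil)))))) (.nd (nat_lit 7) (.nd (nat_lit 8) (.nd (nat_lit 9) 
(.lf (nat_lit 458829) (.g (nat_lit 3010) (.e (nat_lit 2725) (nat_lit 172) (.e (nat_lit 237590) (nat_lit 2) (.e (nat_lit 196666) (nat_lit 13) (.e (nat_lit 65617) (nat_lit 10) (.e (nat_lit 344130) (nat_lit 26) (.e (nat_lit 557089) (nat_lit 12) (.e (nat_lit 163843) (nat_lit 0) (.e (nat_lit 6255) (nat_lit 337) .nil)))))))) (.g (nat_lit 1) (.e (nat_lit 48492) (nat_lit 0) .nil) .nil))) 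
(.lf (nat_lit 459341) (.g (nat_lit 4536) (.e (nat_lit 2797) (nat_lit 180) (.e (nat_lit 303119) (nat_lit 3) (.e (nat_lit 204855) (nat_lit 26) (.e (nat_lit 336073) (nat_lit 9) (.e (nat_lit 336013) (nat_lit 2) (.e (nat_lit 90165) (nat_lit 12) (.e (nat_lit 164207) (nat_lit 176) .nil))))))) (.g (nat_lit 1) (.e (nat_lit 49644) (nat_lit 0) .nil) .nil)))) (.nd (nat_lit 9) 
(.lf (nat_lit 459085) (.g (nat_lit 1615) (.e (nat_lit 2744) (nat_lit 174) (.e (nat_lit 253991) (nat_lit 11) (.e (nat_lit 16412) (nat_lit 2) (.e (nat_lit 196681) (nat_lit 17) .nil)))) (.g (nat_lit 0) (.e (nat_lit 49077) (nat_lit 0) .nil) .nil))) 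
(.lf (nat_lit 459597) (.g (nat_lit 1905) (.e (nat_lit 2797) (nat_lit 180) (.e (nat_lit 303145) (nat_lit 13) (.e (nat_lit 483363) (nat_lit 18) (.e (nat_lit 65280) (nat_lit 146) .nil)))) (.g (nat_lit 0) (.e (nat_lit 50547) (nat_lit 0) .nil) .nil))))) (.nd (nat_lit 8) (.nd (nat_lit 9) 
(.lf (nat_lit 458957) (.g (nat_lit 3289) (.e (nat_lit 2725) (nat_lit 172) (.e (nat_lit 237594) (nat_lit 3) (.e (nat_lit 204869) (nat_lit 29) (.e (nat_lit 360475) (nat_lit 8) (.e (nat_lit 557091) (nat_lit 12) (.e (nat_lit 163844) (nat_lit 0) (.e (nat_lit 6250) (nat_lit 337) .nil))))))) (.g (nat_lit 1) (.e (nat_lit 48685) (nat_lit 0) .nil) .nil))) 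
(.lf (nat_lit 459469) (.g (nat_lit 2851) (.e (nat_lit 2797) (nat_lit 180) (.e (nat_lit 303127) (nat_lit 9) (.e (nat_lit 426533) (nat_lit 28) (.e (nat_lit 344069) (nat_lit 0) (.e (nat_lit 3067) (nat_lit 190) (.e (nat_lit 483072) (nat_lit 16) .nil)))))) (.g (nat_lit 1) (.e (nat_lit 50023) (nat_lit 0) .nil) .nil)))) (.nd (nat_lit 9) 
(.lf (nat_lit 459213) (.g (nat_lit 2620) (.e (nat_lit 2797) (nat_lit 180) (.e (nat_lit 303117) (nat_lit 2) (.e (nat_lit 196666) (nat_lit 13) (.e (nat_lit 65610) (nat_lit 10) (.e (nat_lit 344117) (nat_lit 21) .nil))))) (.g (nat_lit 0) (.e (nat_lit 49417) (nat_lit 0) .nil) .nil))) 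
(.lf (nat_lit 459725) (.g (nat_lit 1730) (.e (nat_lit 2798) (nat_lit 180) (.e (nat_lit 303119) (nat_lit 3) (.e (nat_lit 204861) (nat_lit 26) (.e (nat_lit 336186) (nat_lit 11) (.e (nat_lit 368676) (nat_lit 21) .nil))))) (.g (nat_lit 0) (.e (nat_lit 50947) (nat_lit 0) .nil) .nil))))))) (.nd (nat_lit 6) (.nd (nat_lit 7) (.nd (nat_lit 8) (.nd (nat_lit 9) 
(.lf (nat_lit 458797) (.g (nat_lit 2476) (.e (nat_lit 2725) (nat_lit 172) (.e (nat_lit 237589) (nat_lit 2) (.e (nat_lit 196666) (nat_lit 13) (.e (nat_lit 65617) (nat_lit 10) (.e (nat_lit 344132) (nat_lit 26) (.e (nat_lit 557094) (nat_lit 12) (.e (nat_lit 163849) (nat_lit 0) (.e (nat_lit 6252) (nat_lit 337) .nil)))))))) (.g (nat_lit 1) (.e (nat_lit 48459) (nat_lit 0) .nil) .nil))) 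
(.lf (nat_lit 459309) (.g (nat_lit 3193) (.e (nat_lit 2797) (nat_lit 180) (.e (nat_lit 303117) (nat_lit 2) (.e (nat_lit 196674) (nat_lit 15) (.e (nat_lit 81953) (nat_lit 22) (.e (nat_lit 90165) (nat_lit 12) (.e (nat_lit 164211) (nat_lit 176) .nil)))))) (.g (nat_lit 1) (.e (nat_lit 49536) (nat_lit 0) .nil) .nil)))) (.nd (nat_lit 9) 
(.lf (nat_lit 459053) (.g (nat_lit 4625) (.e (nat_lit 2741) (nat_lit 174) (.e (nat_lit 253990) (nat_lit 11) (.e (nat_lit 16412) (nat_lit 2) (.e (nat_lit 196666) (nat_lit 13) (.e (nat_lit 65610) (nat_lit 10) (.e (nat_lit 344129) (nat_lit 26) (.e (nat_lit 557065) (nat_lit 9) .nil))))))) (.g (nat_lit 1) (.e (nat_lit 49016) (nat_lit 0) .nil) .nil))) 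
(.lf (nat_lit 459565) (.g (nat_lit 2569) (.e (nat_lit 2797) (nat_lit 180) (.e (nat_lit 303143) (nat_lit 12) (.e (nat_lit 475185) (nat_lit 29) (.e (nat_lit 557101) (nat_lit 13) (.e (nat_lit 172115) (nat_lit 10) (.e (nat_lit 434221) (nat_lit 19) (.e (nat_lit 507648) (nat_lit 0) .nil))))))) (.g (nat_lit 1) (.e (nat_lit 50342) (nat_lit 0) .nil) .nil))))) (.nd (nat_lit 8) (.nd (nat_lit 9) 
(.lf (nat_lit 458925) (.g (nat_lit 2260) (.e (nat_lit 2725) (nat_lit 172) (.e (nat_lit 237594) (nat_lit 3) (.e (nat_lit 204868) (nat_lit 29) (.e (nat_lit 360473) (nat_lit 8) (.e (nat_lit 557089) (nat_lit 12) (.e (nat_lit 163844) (nat_lit 0) (.e (nat_lit 6250) (nat_lit 337) .nil))))))) (.g (nat_lit 1) (.e (nat_lit 48642) (nat_lit 0) .nil) .nil))) 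
(.lf (nat_lit 459437) (.g (nat_lit 1988) (.e (nat_lit 2797) (nat_lit 180) (.e (nat_lit 303119) (nat_lit 3) (.e (nat_lit 204869) (nat_lit 29) (.e (nat_lit 360451) (nat_lit 0) (.e (nat_lit 3994) (nat_lit 240) (.e (nat_lit 8192) (nat_lit 0) (.e (nat_lit 4934) (nat_lit 287) .nil))))))) (.g (nat_lit 1) (.e (nat_lit 49841) (nat_lit 0) .nil) .nil)))) (.nd (nat_lit 9) 
(.lf (nat_lit 459181) (.g (nat_lit 3378) (.e (nat_lit 2796) (nat_lit 180) (.e (nat_lit 303143) (nat_lit 12) (.e (nat_lit 475185) (nat_lit 29) (.e (nat_lit 557098) (nat_lit 13) .nil)))) (.g (nat_lit 0) (.e (nat_lit 49334) (nat_lit 0) .nil) .nil))) 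
(.lf (nat_lit 459693) (.g (nat_lit 2738) (.e (nat_lit 2798) (nat_lit 180) (.e (nat_lit 303117) (nat_lit 2) (.e (nat_lit 196674) (nat_lit 15) (.e (nat_lit 81956) (nat_lit 23) (.e (nat_lit 98321) (nat_lit 17) (.e (nat_lit 7936) (nat_lit 377) .nil)))))) (.g (nat_lit 1) (.e (nat_lit 50858) (nat_lit 0) .nil) .nil)))))) (.nd (nat_lit 7) (.nd (nat_lit 8) (.nd (nat_lit 9) 
(.lf (nat_lit 458861) (.g (nat_lit 2097) (.e (nat_lit 2725) (nat_lit 172) (.e (nat_lit 237592) (nat_lit 3) (.e (nat_lit 204869) (nat_lit 29) (.e (nat_lit 360473) (nat_lit 8) (.e (nat_lit 557091) (nat_lit 12) .nil))))) (.g (nat_lit 0) (.e (nat_lit 48565) (nat_lit 0) .nil) .nil))) 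
(.lf (nat_lit 459373) (.g (nat_lit 2107) (.e (nat_lit 2797) (nat_lit 180) (.e (nat_lit 303119) (nat_lit 3) (.e (nat_lit 204861) (nat_lit 26) (.e (nat_lit 336186) (nat_lit 11) (.e (nat_lit 368676) (nat_lit 21) .nil))))) (.g (nat_lit 0) (.e (nat_lit 49718) (nat_lit 0) .nil) .nil)))) (.nd (nat_lit 9) 
(.lf (nat_lit 459117) (.g (nat_lit 2227) (.e (nat_lit 2744) (nat_lit 174) (.e (nat_lit 253992) (nat_lit 11) (.e (nat_lit 16424) (nat_lit 7) (.e (nat_lit 409648) (nat_lit 18) (.e (nat_lit 303137) (nat_lit 10) (.e (nat_lit 434275) (nat_lit 39) (.e (nat_lit 663572) (nat_lit 9) .nil))))))) (.g (nat_lit 1) (.e (nat_lit 49111) (nat_lit 0) .nil) .nil))) 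
(.lf (nat_lit 459629) (.g (nat_lit 5561) (.e (nat_lit 2798) (nat_lit 180) (.e (nat_lit 303117) (nat_lit 2) (.e (nat_lit 196666) (nat_lit 13) (.e (nat_lit 65610) (nat_lit 10) (.e (nat_lit 344117) (nat_lit 21) (.e (nat_lit 516097) (nat_lit 0) (.e (nat_lit 7073) (nat_lit 377) .nil))))))) (.g (nat_lit 1) (.e (nat_lit 50792) (nat_lit 0) .nil) .nil))))) (.nd (nat_lit 8) (.nd (nat_lit 9) 
(.lf (nat_lit 458989) (.g (nat_lit 2736) (.e (nat_lit 2725) (nat_lit 172) (.e (nat_lit 237616) (nat_lit 12) (.e (nat_lit 475211) (nat_lit 41) (.e (nat_lit 712755) (nat_lit 30) (.e (nat_lit 450569) (nat_lit 0) (.e (nat_lit 5448) (nat_lit 306) .nil)))))) (.g (nat_lit 1) (.e (nat_lit 48749) (nat_lit 0) .nil) .nil))) 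
(.lf (nat_lit 459501) (.g (nat_lit 6176) (.e (nat_lit 2797) (nat_lit 180) (.e (nat_lit 303143) (nat_lit 12) (.e (nat_lit 475185) (nat_lit 29) (.e (nat_lit 557097) (nat_lit 13) (.e (nat_lit 172094) (nat_lit 9) (.e (nat_lit 426125) (nat_lit 2) (.e (nat_lit 204544) (nat_lit 18) .nil))))))) (.g (nat_lit 1) (.e (nat_lit 50256) (nat_lit 0) .nil) .nil)))) (.nd (nat_lit 9) 
(.lf (nat_lit 459245) (.g (nat_lit 1305) (.e (nat_lit 2797) (nat_lit 180) (.e (nat_lit 303117) (nat_lit 2) (.e (nat_lit 196672) (nat_lit 15) (.e (nat_lit 81952) (nat_lit 22) .nil)))) (.g (nat_lit 0) (.e (nat_lit 49467) (nat_lit 0) .nil) .nil))) 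
(.lf (nat_lit 459757) (.g (nat_lit 501) (.e (nat_lit 2798) (nat_lit 180) (.e (nat_lit 303119) (nat_lit 3) (.e (nat_lit 204877) (nat_lit 31) .nil))) (.g (nat_lit 0) (.e (nat_lit 51056) (nat_lit 0) .nil) .nil)))))))) (.nd (nat_lit 5) (.nd (nat_lit 6) (.nd (nat_lit 7) (.nd (nat_lit 8) (.nd (nat_lit 9) 
(.lf (nat_lit 458781) (.g (nat_lit 4447) (.e (nat_lit 2725) (nat_lit 172) (.e (nat_lit 237589) (nat_lit 2) (.e (nat_lit 196666) (nat_lit 13) (.e (nat_lit 65617) (nat_lit 10) (.e (nat_lit 344130) (nat_lit 26) (.e (nat_lit 557089) (nat_lit 12) (.e (nat_lit 163844) (nat_lit 0) (.e (nat_lit 6254) (nat_lit 337) .nil)))))))) (.g (nat_lit 1) (.e (nat_lit 48443) (nat_lit 0) .nil) .nil))) 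
(.lf (nat_lit 459293) (.g (nat_lit 1247) (.e (nat_lit 2797) (nat_lit 180) (.e (nat_lit 303117) (nat_lit 2) (.e (nat_lit 196674) (nat_lit 15) (.e (nat_lit 81946) (nat_lit 20) .nil)))) (.g (nat_lit 0) (.e (nat_lit 49516) (nat_lit 0) .nil) .nil)))) (.nd (nat_lit 9) 
(.lf (nat_lit 459037) (.g (nat_lit 2932) (.e (nat_lit 2739) (nat_lit 174) (.e (nat_lit 253990) (nat_lit 11) (.e (nat_lit 16416) (nat_lit 3) (.e (nat_lit 204868) (nat_lit 29) (.e (nat_lit 360473) (nat_lit 8) (.e (nat_lit 557068) (nat_lit 9) .nil)))))) (.g (nat_lit 1) (.e (nat_lit 48990) (nat_lit 0) .nil) .nil))) 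
(.lf (nat_lit 459549) (.g (nat_lit 1091) (.e (nat_lit 2797) (nat_lit 180) (.e (nat_lit 303143) (nat_lit 12) (.e (nat_lit 475185) (nat_lit 29) (.e (nat_lit 557101) (nat_lit 13) .nil)))) (.g (nat_lit 0) (.e (nat_lit 50318) (nat_lit 0) .nil) .nil))))) (.nd (nat_lit 8) (.nd (nat_lit 9) 
(.lf (nat_lit 458909) (.g (nat_lit 4718) (.e (nat_lit 2725) (nat_lit 172) (.e (nat_lit 237593) (nat_lit 3) (.e (nat_lit 204869) (nat_lit 29) (.e (nat_lit 360475) (nat_lit 8) (.e (nat_lit 557089) (nat_lit 12) (.e (nat_lit 163843) (nat_lit 0) (.e (nat_lit 6255) (nat_lit 337) .nil))))))) (.g (nat_lit 1) (.e (nat_lit 48622) (nat_lit 0) .nil) .nil))) 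
(.lf (nat_lit 459421) (.g (nat_lit 4201) (.e (nat_lit 2797) (nat_lit 180) (.e (nat_lit 303119) (nat_lit 3) (.e (nat_lit 204868) (nat_lit 29) (.e (nat_lit 360466) (nat_lit 3) (.e (nat_lit 516098) (nat_lit 0) (.e (nat_lit 7073) (nat_lit 377) .nil)))))) (.g (nat_lit 1) (.e (nat_lit 49800) (nat_lit 0) .nil) .nil)))) (.nd (nat_lit 9) 
(.lf (nat_lit 459165) (.g (nat_lit 3317) (.e (nat_lit 2796) (nat_lit 180) (.e (nat_lit 303117) (nat_lit 2) (.e (nat_lit 196666) (nat_lit 13) (.e (nat_lit 65598) (nat_lit 9) .nil)))) (.g (nat_lit 0) (.e (nat_lit 49301) (nat_lit 0) .nil) .nil))) 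
(.lf (nat_lit 459677) (.g (nat_lit 1297) (.e (nat_lit 2798) (nat_lit 180) (.e (nat_lit 303117) (nat_lit 2) (.e (nat_lit 196674) (nat_lit 15) (.e (nat_lit 81952) (nat_lit 22) .nil)))) (.g (nat_lit 0) (.e (nat_lit 50842) (nat_lit 0) .nil) .nil)))))) (.nd (nat_lit 7) (.nd (nat_lit 8) (.nd (nat_lit 9) 
(.lf (nat_lit 458845) (.g (nat_lit 2979) (.e (nat_lit 2725) (nat_lit 172) (.e (nat_lit 237590) (nat_lit 2) (.e (nat_lit 196666) (nat_lit 13) (.e (nat_lit 65617) (nat_lit 10) (.e (nat_lit 344132) (nat_lit 26) (.e (nat_lit 557094) (nat_lit 12) (.e (nat_lit 163849) (nat_lit 0) (.e (nat_lit 6255) (nat_lit 337) .nil)))))))) (.g (nat_lit 1) (.e (nat_lit 48508) (nat_lit 0) .nil) .nil))) 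
(.lf (nat_lit 459357) (.g (nat_lit 1217) (.e (nat_lit 2797) (nat_lit 180) (.e (nat_lit 303119) (nat_lit 3) (.e (nat_lit 204858) (nat_lit 26) (.e (nat_lit 336163) (nat_lit 10) .nil)))) (.g (nat_lit 0) (.e (nat_lit 49696) (nat_lit 0) .nil) .nil)))) (.nd (nat_lit 9) 
(.lf (nat_lit 459101) (.g (nat_lit 3470) (.e (nat_lit 2744) (nat_lit 174) (.e (nat_lit 253991) (nat_lit 11) (.e (nat_lit 16473) (nat_lit 14) (.e (nat_lit 491556) (nat_lit 9) (.e (nat_lit 336335) (nat_lit 20) (.e (nat_lit 221217) (nat_lit 24) (.e (nat_lit 213007) (nat_lit 9) .nil))))))) (.g (nat_lit 1) (.e (nat_lit 49094) (nat_lit 0) .nil) .nil))) 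
(.lf (nat_lit 459613) (.g (nat_lit 2099) (.e (nat_lit 2798) (nat_lit 180) (.e (nat_lit 303117) (nat_lit 2) (.e (nat_lit 196665) (nat_lit 13) (.e (nat_lit 65628) (nat_lit 14) (.e (nat_lit 401428) (nat_lit 3) (.e (nat_lit 204815) (nat_lit 17) (.e (nat_lit 6203) (nat_lit 332) .nil))))))) (.g (nat_lit 1) (.e (nat_lit 50771) (nat_lit 0) .nil) .nil))))) (.nd (nat_lit 8) (.nd (nat_lit 9) 
(.lf (nat_lit 458973) (.g (nat_lit 1485) (.e (nat_lit 2725) (nat_lit 172) (.e (nat_lit 237616) (nat_lit 12) (.e (nat_lit 475199) (nat_lit 40) (.e (nat_lit 704598) (nat_lit 6) (.e (nat_lit 188454) (nat_lit 24) (.e (nat_lit 229665) (nat_lit 240) .nil)))))) (.g (nat_lit 1) (.e (nat_lit 48731) (nat_lit 0) .nil) .nil))) 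
(.lf (nat_lit 459485) (.g (nat_lit 1559) (.e (nat_lit 2797) (nat_lit 180) (.e (nat_lit 303133) (nat_lit 9) (.e (nat_lit 426499) (nat_lit 27) (.e (nat_lit 336073) (nat_lit 9) .nil)))) (.g (nat_lit 0) (.e (nat_lit 50090) (nat_lit 0) .nil) .nil)))) (.nd (nat_lit 9) 
(.lf (nat_lit 459229) (.g (nat_lit 3687) (.e (nat_lit 2797) (nat_lit 180) (.e (nat_lit 303117) (nat_lit 2) (.e (nat_lit 196666) (nat_lit 13) (.e (nat_lit 65619) (nat_lit 10) (.e (nat_lit 344117) (nat_lit 21) (.e (nat_lit 516097) (nat_lit 0) (.e (nat_lit 7073) (nat_lit 377) .nil))))))) (.g (nat_lit 1) (.e (nat_lit 49433) (nat_lit 0) .nil) .nil))) 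
(.lf (nat_lit 459741) (.g (nat_lit 4071) (.e (nat_lit 2798) (nat_lit 180) (.e (nat_lit 303119) (nat_lit 3) (.e (nat_lit 204868) (nat_lit 29) (.e (nat_lit 360466) (nat_lit 3) (.e (nat_lit 516097) (nat_lit 0) (.e (nat_lit 7073) (nat_lit 377) .nil)))))) (.g (nat_lit 1) (.e (nat_lit 50984) (nat_lit 0) .nil) .nil))))))) (.nd (nat_lit 6) (.nd (nat_lit 7) (.nd (nat_lit 8) (.nd (nat_lit 9) 
(.lf (nat_lit 458813) (.g (nat_lit 3012) (.e (nat_lit 2725) (nat_lit 172) (.e (nat_lit 237589) (nat_lit 2) (.e (nat_lit 196666) (nat_lit 13) (.e (nat_lit 65617) (nat_lit 10) (.e (nat_lit 344133) (nat_lit 26) (.e (nat_lit 557091) (nat_lit 12) (.e (nat_lit 163844) (nat_lit 0) (.e (nat_lit 6250) (nat_lit 337) .nil)))))))) (.g (nat_lit 1) (.e (nat_lit 48475) (nat_lit 0) .nil) .nil))) 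
(.lf (nat_lit 459325) (.g (nat_lit 4684) (.e (nat_lit 2797) (nat_lit 180) (.e (nat_lit 303117) (nat_lit 2) (.e (nat_lit 196674) (nat_lit 15) (.e (nat_lit 81956) (nat_lit 23) (.e (nat_lit 98320) (nat_lit 17) (.e (nat_lit 7073) (nat_lit 377) .nil)))))) (.g (nat_lit 1) (.e (nat_lit 49552) (nat_lit 0) .nil) .nil)))) (.nd (nat_lit 9) 
(.lf (nat_lit 459069) (.g (nat_lit 1779) (.e (nat_lit 2742) (nat_lit 174) (.e (nat_lit 253992) (nat_lit 11) (.e (nat_lit 16424) (nat_lit 7) (.e (nat_lit 409648) (nat_lit 18) (.e (nat_lit 303137) (nat_lit 10) .nil))))) (.g (nat_lit 0) (.e (nat_lit 49047) (nat_lit 0) .nil) .nil))) 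
(.lf (nat_lit 459581) (.g (nat_lit 2902) (.e (nat_lit 2797) (nat_lit 180) (.e (nat_lit 303143) (nat_lit 12) (.e (nat_lit 475185) (nat_lit 29) (.e (nat_lit 557109) (nat_lit 15) (.e (nat_lit 188424) (nat_lit 20) (.e (nat_lit 3114) (nat_lit 193) (.e (nat_lit 499776) (nat_lit 0) .nil))))))) (.g (nat_lit 1) (.e (nat_lit 50371) (nat_lit 0) .nil) .nil))))) (.nd (nat_lit 8) (.nd (nat_lit 9) 
(.lf (nat_lit 458941) (.g (nat_lit 3298) (.e (nat_lit 2725) (nat_lit 172) (.e (nat_lit 237594) (nat_lit 3) (.e (nat_lit 204869) (nat_lit 29) (.e (nat_lit 360474) (nat_lit 8) (.e (nat_lit 557091) (nat_lit 12) (.e (nat_lit 163841) (nat_lit 0) (.e (nat_lit 6250) (nat_lit 337) .nil))))))) (.g (nat_lit 1) (.e (nat_lit 48666) (nat_lit 0) .nil) .nil))) 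
(.lf (nat_lit 459453) (.g (nat_lit 1327) (.e (nat_lit 2797) (nat_lit 180) (.e (nat_lit 303119) (nat_lit 3) (.e (nat_lit 204875) (nat_lit 31) (.e (nat_lit 376864) (nat_lit 22) .nil)))) (.g (nat_lit 0) (.e (nat_lit 50003) (nat_lit 0) .nil) .nil)))) (.nd (nat_lit 9) 
(.lf (nat_lit 459197) (.g (nat_lit 4293) (.e (nat_lit 2797) (nat_lit 180) (.e (nat_lit 303116) (nat_lit 2) (.e (nat_lit 196666) (nat_lit 13) (.e (nat_lit 65610) (nat_lit 10) (.e (nat_lit 344129) (nat_lit 26) (.e (nat_lit 557084) (nat_lit 10) (.e (nat_lit 16128) (nat_lit 225) .nil))))))) (.g (nat_lit 1) (.e (nat_lit 49385) (nat_lit 0) .nil) .nil))) 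
(.lf (nat_lit 459709) (.g (nat_lit 3022) (.e (nat_lit 2798) (nat_lit 180) (.e (nat_lit 303119) (nat_lit 3) (.e (nat_lit 204845) (nat_lit 24) (.e (nat_lit 319490) (nat_lit 0) (.e (nat_lit 5761) (nat_lit 315) (.e (nat_lit 163962) (nat_lit 25) (.e (nat_lit 532482) (nat_lit 0) (.e (nat_lit 6203) (nat_lit 332) .nil)))))))) (.g (nat_lit 1) (.e (nat_lit 50889) (nat_lit 0) .nil) .nil)))))) 
(.nd (nat_lit 7) (.nd (nat_lit 8) (.nd (nat_lit 9) 
(.lf (nat_lit 458877) (.g (nat_lit 3384) (.e (nat_lit 2725) (nat_lit 172) (.e (nat_lit 237592) (nat_lit 3) (.e (nat_lit 204869) (nat_lit 29) (.e (nat_lit 360475) (nat_lit 8) (.e (nat_lit 557091) (nat_lit 12) (.e (nat_lit 163849) (nat_lit 0) (.e (nat_lit 6255) (nat_lit 337) .nil))))))) (.g (nat_lit 1) (.e (nat_lit 48584) (nat_lit 0) .nil) .nil))) 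
(.lf (nat_lit 459389) (.g (nat_lit 1570) (.e (nat_lit 2797) (nat_lit 180) (.e (nat_lit 303119) (nat_lit 3) (.e (nat_lit 204865) (nat_lit 28) (.e (nat_lit 352310) (nat_lit 22) .nil)))) (.g (nat_lit 0) (.e (nat_lit 49743) (nat_lit 0) .nil) .nil)))) (.nd (nat_lit 9) 
(.lf (nat_lit 459133) (.g (nat_lit 2273) (.e (nat_lit 2757) (nat_lit 176) (.e (nat_lit 270354) (nat_lit 8) (.e (nat_lit 303145) (nat_lit 13) (.e (nat_lit 483405) (nat_lit 26) (.e (nat_lit 385096) (nat_lit 49) (.e (nat_lit 778513) (nat_lit 14) .nil)))))) (.g (nat_lit 1) (.e (nat_lit 49132) (nat_lit 0) .nil) .nil))) 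
(.lf (nat_lit 459645) (.g (nat_lit 4491) (.e (nat_lit 2798) (nat_lit 180) (.e (nat_lit 303117) (nat_lit 2) (.e (nat_lit 196666) (nat_lit 13) (.e (nat_lit 65619) (nat_lit 10) (.e (nat_lit 344117) (nat_lit 21) (.e (nat_lit 516097) (nat_lit 0) (.e (nat_lit 7073) (nat_lit 377) .nil))))))) (.g (nat_lit 1) (.e (nat_lit 50808) (nat_lit 0) .nil) .nil))))) (.nd (nat_lit 8) (.nd (nat_lit 9) 
(.lf (nat_lit 459005) (.g (nat_lit 1855) (.e (nat_lit 2725) (nat_lit 172) (.e (nat_lit 237619) (nat_lit 12) (.e (nat_lit 475209) (nat_lit 41) (.e (nat_lit 712752) (nat_lit 29) (.e (nat_lit 442430) (nat_lit 24) (.e (nat_lit 229664) (nat_lit 240) .nil)))))) (.g (nat_lit 1) (.e (nat_lit 48769) (nat_lit 0) .nil) .nil))) 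
(.lf (nat_lit 459517) (.g (nat_lit 3284) (.e (nat_lit 2797) (nat_lit 180) (.e (nat_lit 303143) (nat_lit 12) (.e (nat_lit 475185) (nat_lit 29) (.e (nat_lit 557100) (nat_lit 13) (.e (nat_lit 172088) (nat_lit 9) (.e (nat_lit 426117) (nat_lit 2) (.e (nat_lit 204544) (nat_lit 18) .nil))))))) (.g (nat_lit 1) (.e (nat_lit 50276) (nat_lit 0) .nil) .nil)))) (.nd (nat_lit 9) 
(.lf (nat_lit 459261) (.g (nat_lit 2854) (.e (nat_lit 2797) (nat_lit 180) (.e (nat_lit 303117) (nat_lit 2) (.e (nat_lit 196672) (nat_lit 15) (.e (nat_lit 81954) (nat_lit 23) (.e (nat_lit 98325) (nat_lit 17) (.e (nat_lit 7016) (nat_lit 377) .nil)))))) (.g (nat_lit 1) (.e (nat_lit 49483) (nat_lit 0) .nil) .nil))) 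
(.lf (nat_lit 459773) (.g (nat_lit 840) (.e (nat_lit 2798) (nat_lit 180) (.e (nat_lit 303133) (nat_lit 9) (.e (nat_lit 426412) (nat_lit 15) (.e (nat_lit 7936) (nat_lit 117) .nil)))) (.g (nat_lit 0) (.e (nat_lit 51151) (nat_lit 0) .nil) .nil))))))))))) (.nd (nat_lit 2) (.nd (nat_lit 3) (.nd (nat_lit 4) (.nd (nat_lit 5) (.nd (nat_lit 6) (.nd (nat_lit 7) (.nd (nat_lit 8) (.nd (nat_lit 9) 
(.lf (nat_lit 458755) (.g (nat_lit 2491) (.e (nat_lit 2725) (nat_lit 172) (.e (nat_lit 237587) (nat_lit 2) (.e (nat_lit 196666) (nat_lit 13) (.e (nat_lit 65617) (nat_lit 10) (.e (nat_lit 344133) (nat_lit 26) (.e (nat_lit 557089) (nat_lit 12) (.e (nat_lit 163848) (nat_lit 0) (.e (nat_lit 6252) (nat_lit 337) .nil)))))))) (.g (nat_lit 1) (.e (nat_lit 48367) (nat_lit 0) .nil) .nil))) 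
(.lf (nat_lit 459267) (.g (nat_lit 2969) (.e (nat_lit 2797) (nat_lit 180) (.e (nat_lit 303117) (nat_lit 2) (.e (nat_lit 196672) (nat_lit 15) (.e (nat_lit 81956) (nat_lit 23) (.e (nat_lit 98325) (nat_lit 17) (.e (nat_lit 6966) (nat_lit 377) .nil)))))) (.g (nat_lit 1) (.e (nat_lit 49489) (nat_lit 0) .nil) .nil)))) (.nd (nat_lit 9) 
(.lf (nat_lit 459011) (.g (nat_lit 2262) (.e (nat_lit 2725) (nat_lit 172) (.e (nat_lit 237619) (nat_lit 12) (.e (nat_lit 475210) (nat_lit 41) (.e (nat_lit 712753) (nat_lit 30) (.e (nat_lit 450568) (nat_lit 0) (.e (nat_lit 5448) (nat_lit 306) .nil)))))) (.g (nat_lit 1) (.e (nat_lit 48777) (nat_lit 0) .nil) .nil))) 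
(.lf (nat_lit 459523) (.g (nat_lit 4633) (.e (nat_lit 2797) (nat_lit 180) (.e (nat_lit 303143) (nat_lit 12) (.e (nat_lit 475185) (nat_lit 29) (.e (nat_lit 557100) (nat_lit 13) (.e (nat_lit 172095) (nat_lit 9) (.e (nat_lit 426125) (nat_lit 2) (.e (nat_lit 204544) (nat_lit 18) .nil))))))) (.g (nat_lit 1) (.e (nat_lit 50282) (nat_lit 0) .nil) .nil))))) (.nd (nat_lit 8) (.nd (nat_lit 9) 
(.lf (nat_lit 458883) (.g (nat_lit 2545) (.e (nat_lit 2725) (nat_lit 172) (.e (nat_lit 237593) (nat_lit 3) (.e (nat_lit 204868) (nat_lit 29) (.e (nat_lit 360473) (nat_lit 8) (.e (nat_lit 557091) (nat_lit 12) (.e (nat_lit 163847) (nat_lit 0) (.e (nat_lit 6255) (nat_lit 337) .nil))))))) (.g (nat_lit 1) (.e (nat_lit 48591) (nat_lit 0) .nil) .nil))) 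
(.lf (nat_lit 459395) (.g (nat_lit 3667) (.e (nat_lit 2797) (nat_lit 180) (.e (nat_lit 303119) (nat_lit 3) (.e (nat_lit 204865) (nat_lit 28) (.e (nat_lit 352312) (nat_lit 22) (.e (nat_lit 90165) (nat_lit 12) (.e (nat_lit 164209) (nat_lit 176) .nil)))))) (.g (nat_lit 1) (.e (nat_lit 49750) (nat_lit 0) .nil) .nil)))) (.nd (nat_lit 9) 
(.lf (nat_lit 459139) (.g (nat_lit 3455) (.e (nat_lit 2769) (nat_lit 177) (.e (nat_lit 278553) (nat_lit 10) (.e (nat_lit 5395) (nat_lit 301) (.e (nat_lit 57464) (nat_lit 23) (.e (nat_lit 516151) (nat_lit 9) (.e (nat_lit 426211) (nat_lit 9) (.e (nat_lit 426125) (nat_lit 2) (.e (nat_lit 204544) (nat_lit 18) .nil)))))))) (.g (nat_lit 1) (.e (nat_lit 49146) (nat_lit 0) .nil) .nil))) 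
(.lf (nat_lit 459651) (.g (nat_lit 1425) (.e (nat_lit 2798) (nat_lit 180) (.e (nat_lit 303117) (nat_lit 2) (.e (nat_lit 196668) (nat_lit 14) (.e (nat_lit 73781) (nat_lit 32) .nil)))) (.g (nat_lit 0) (.e (nat_lit 50815) (nat_lit 0) .nil) .nil)))))) (.nd (nat_lit 7) (.nd (nat_lit 8) (.nd (nat_lit 9) 
(.lf (nat_lit 458819) (.g (nat_lit 2680) (.e (nat_lit 2725) (nat_lit 172) (.e (nat_lit 237589) (nat_lit 2) (.e (nat_lit 196666) (nat_lit 13) (.e (nat_lit 65617) (nat_lit 10) (.e (nat_lit 344133) (nat_lit 26) (.e (nat_lit 557091) (nat_lit 12) (.e (nat_lit 163849) (nat_lit 0) (.e (nat_lit 6252) (nat_lit 337) .nil)))))))) (.g (nat_lit 1) (.e (nat_lit 48481) (nat_lit 0) .nil) .nil))) 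
(.lf (nat_lit 459331) (.g (nat_lit 3214) (.e (nat_lit 2797) (nat_lit 180) (.e (nat_lit 303117) (nat_lit 2) (.e (nat_lit 196674) (nat_lit 15) (.e (nat_lit 81956) (nat_lit 23) (.e (nat_lit 98325) (nat_lit 17) (.e (nat_lit 7936) (nat_lit 377) .nil)))))) (.g (nat_lit 1) (.e (nat_lit 49558) (nat_lit 0) .nil) .nil)))) (.nd (nat_lit 9) 
(.lf (nat_lit 459075) (.g (nat_lit 3063) (.e (nat_lit 2744) (nat_lit 174) (.e (nat_lit 253991) (nat_lit 11) (.e (nat_lit 16409) (nat_lit 2) (.e (nat_lit 196666) (nat_lit 13) (.e (nat_lit 65617) (nat_lit 10) (.e (nat_lit 344130) (nat_lit 26) (.e (nat_lit 557070) (nat_lit 9) .nil))))))) (.g (nat_lit 1) (.e (nat_lit 49067) (nat_lit 0) .nil) .nil))) 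
(.lf (nat_lit 459587) (.g (nat_lit 2330) (.e (nat_lit 2797) (nat_lit 180) (.e (nat_lit 303143) (nat_lit 12) (.e (nat_lit 475207) (nat_lit 41) (.e (nat_lit 712755) (nat_lit 30) (.e (nat_lit 450597) (nat_lit 17) (.e (nat_lit 671488) (nat_lit 14) .nil)))))) (.g (nat_lit 1) (.e (nat_lit 50394) (nat_lit 0) .nil) .nil))))) (.nd (nat_lit 8) (.nd (nat_lit 9) 
(.lf (nat_lit 458947) (.g (nat_lit 4198) (.e (nat_lit 2725) (nat_lit 172) (.e (nat_lit 237594) (nat_lit 3) (.e (nat_lit 204869) (nat_lit 29) (.e (nat_lit 360474) (nat_lit 8) (.e (nat_lit 557093) (nat_lit 12) (.e (nat_lit 163849) (nat_lit 0) (.e (nat_lit 6254) (nat_lit 337) .nil))))))) (.g (nat_lit 1) (.e (nat_lit 48675) (nat_lit 0) .nil) .nil))) 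
(.lf (nat_lit 459459) (.g (nat_lit 2601) (.e (nat_lit 2797) (nat_lit 180) (.e (nat_lit 303119) (nat_lit 3) (.e (nat_lit 204878) (nat_lit 31) (.e (nat_lit 376862) (nat_lit 22) (.e (nat_lit 90165) (nat_lit 12) (.e (nat_lit 164210) (nat_lit 176) .nil)))))) (.g (nat_lit 1) (.e (nat_lit 50012) (nat_lit 0) .nil) .nil)))) (.nd (nat_lit 9) 
(.lf (nat_lit 459203) (.g (nat_lit 2354) (.e (nat_lit 2797) (nat_lit 180) (.e (nat_lit 303117) (nat_lit 2) (.e (nat_lit 196664) (nat_lit 13) (.e (nat_lit 65604) (nat_lit 9) (.e (nat_lit 336013) (nat_lit 2) (.e (nat_lit 90165) (nat_lit 12) (.e (nat_lit 164207) (nat_lit 176) .nil))))))) (.g (nat_lit 1) (.e (nat_lit 49391) (nat_lit 0) .nil) .nil))) 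
(.lf (nat_lit 459715) (.g (nat_lit 2721) (.e (nat_lit 2798) (nat_lit 180) (.e (nat_lit 303119) (nat_lit 3) (.e (nat_lit 204849) (nat_lit 25) (.e (nat_lit 327699) (nat_lit 8) (.e (nat_lit 303118) (nat_lit 3) (.e (nat_lit 204815) (nat_lit 17) (.e (nat_lit 6203) (nat_lit 332) .nil))))))) (.g (nat_lit 1) (.e (nat_lit 50895) (nat_lit 0) .nil) .nil))))))) 
(.nd (nat_lit 6) (.nd (nat_lit 7) (.nd (nat_lit 8) (.nd (nat_lit 9) 
(.lf (nat_lit 458787) (.g (nat_lit 5225) (.e (nat_lit 2725) (nat_lit 172) (.e (nat_lit 237589) (nat_lit 2) (.e (nat_lit 196666) (nat_lit 13) (.e (nat_lit 65617) (nat_lit 10) (.e (nat_lit 344130) (nat_lit 26) (.e (nat_lit 557090) (nat_lit 12) (.e (nat_lit 163844) (nat_lit 0) (.e (nat_lit 6255) (nat_lit 337) .nil)))))))) (.g (nat_lit 1) (.e (nat_lit 48449) (nat_lit 0) .nil) .nil))) 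
(.lf (nat_lit 459299) (.g (nat_lit 3116) (.e (nat_lit 2797) (nat_lit 180) (.e (nat_lit 303117) (nat_lit 2) (.e (nat_lit 196674) (nat_lit 15) (.e (nat_lit 81951) (nat_lit 22) (.e (nat_lit 90165) (nat_lit 12) (.e (nat_lit 164207) (nat_lit 176) .nil)))))) (.g (nat_lit 1) (.e (nat_lit 49525) (nat_lit 0) .nil) .nil)))) (.nd (nat_lit 9) 
(.lf (nat_lit 459043) (.g (nat_lit 3793) (.e (nat_lit 2739) (nat_lit 174) (.e (nat_lit 253991) (nat_lit 11) (.e (nat_lit 16425) (nat_lit 7) (.e (nat_lit 409649) (nat_lit 18) (.e (nat_lit 303140) (nat_lit 10) (.e (nat_lit 434275) (nat_lit 39) (.e (nat_lit 663574) (nat_lit 9) .nil))))))) (.g (nat_lit 1) (.e (nat_lit 49001) (nat_lit 0) .nil) .nil))) 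
(.lf (nat_lit 459555) (.g (nat_lit 3821) (.e (nat_lit 2797) (nat_lit 180) (.e (nat_lit 303143) (nat_lit 12) (.e (nat_lit 475185) (nat_lit 29) (.e (nat_lit 557101) (nat_lit 13) (.e (nat_lit 172100) (nat_lit 9) (.e (nat_lit 426125) (nat_lit 2) (.e (nat_lit 204544) (nat_lit 18) .nil))))))) (.g (nat_lit 1) (.e (nat_lit 50324) (nat_lit 0) .nil) .nil))))) (.nd (nat_lit 8) (.nd (nat_lit 9) 
(.lf (nat_lit 458915) (.g (nat_lit 4010) (.e (nat_lit 2725) (nat_lit 172) (.e (nat_lit 237593) (nat_lit 3) (.e (nat_lit 204869) (nat_lit 29) (.e (nat_lit 360475) (nat_lit 8) (.e (nat_lit 557089) (nat_lit 12) (.e (nat_lit 163849) (nat_lit 0) (.e (nat_lit 6252) (nat_lit 337) .nil))))))) (.g (nat_lit 1) (.e (nat_lit 48628) (nat_lit 0) .nil) .nil))) 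
(.lf (nat_lit 459427) (.g (nat_lit 4068) (.e (nat_lit 2797) (nat_lit 180) (.e (nat_lit 303119) (nat_lit 3) (.e (nat_lit 204868) (nat_lit 29) (.e (nat_lit 360466) (nat_lit 3) (.e (nat_lit 516105) (nat_lit 0) (.e (nat_lit 7936) (nat_lit 377) .nil)))))) (.g (nat_lit 1) (.e (nat_lit 49806) (nat_lit 0) .nil) .nil)))) (.nd (nat_lit 9) 
(.lf (nat_lit 459171) (.g (nat_lit 2826) (.e (nat_lit 2796) (nat_lit 180) (.e (nat_lit 303117) (nat_lit 2) (.e (nat_lit 196672) (nat_lit 15) (.e (nat_lit 81954) (nat_lit 23) (.e (nat_lit 98325) (nat_lit 17) .nil))))) (.g (nat_lit 0) (.e (nat_lit 49308) (nat_lit 0) .nil) .nil))) 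
(.lf (nat_lit 459683) (.g (nat_lit 3518) (.e (nat_lit 2798) (nat_lit 180) (.e (nat_lit 303117) (nat_lit 2) (.e (nat_lit 196674) (nat_lit 15) (.e (nat_lit 81953) (nat_lit 22) (.e (nat_lit 90165) (nat_lit 12) (.e (nat_lit 164210) (nat_lit 176) .nil)))))) (.g (nat_lit 1) (.e (nat_lit 50848) (nat_lit 0) .nil) .nil)))))) (.nd (nat_lit 7) (.nd (nat_lit 8) (.nd (nat_lit 9) 
(.lf (nat_lit 458851) (.g (nat_lit 3248) (.e (nat_lit 2725) (nat_lit 172) (.e (nat_lit 237590) (nat_lit 2) (.e (nat_lit 196666) (nat_lit 13) (.e (nat_lit 65617) (nat_lit 10) (.e (nat_lit 344133) (nat_lit 26) (.e (nat_lit 557089) (nat_lit 12) (.e (nat_lit 163849) (nat_lit 0) (.e (nat_lit 6255) (nat_lit 337) .nil)))))))) (.g (nat_lit 1) (.e (nat_lit 48514) (nat_lit 0) .nil) .nil))) 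
(.lf (nat_lit 459363) (.g (nat_lit 1741) (.e (nat_lit 2797) (nat_lit 180) (.e (nat_lit 303119) (nat_lit 3) (.e (nat_lit 204861) (nat_lit 26) (.e (nat_lit 336073) (nat_lit 9) .nil)))) (.g (nat_lit 0) (.e (nat_lit 49707) (nat_lit 0) .nil) .nil)))) (.nd (nat_lit 9) 
(.lf (nat_lit 459107) (.g (nat_lit 3495) (.e (nat_lit 2744) (nat_lit 174) (.e (nat_lit 253992) (nat_lit 11) (.e (nat_lit 16412) (nat_lit 2) (.e (nat_lit 196672) (nat_lit 15) (.e (nat_lit 81943) (nat_lit 20) (.e (nat_lit 1855) (nat_lit 124) (.e (nat_lit 557070) (nat_lit 9) .nil))))))) (.g (nat_lit 1) (.e (nat_lit 49101) (nat_lit 0) .nil) .nil))) 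
(.lf (nat_lit 459619) (.g (nat_lit 3604) (.e (nat_lit 2798) (nat_lit 180) (.e (nat_lit 303117) (nat_lit 2) (.e (nat_lit 196666) (nat_lit 13) (.e (nat_lit 65596) (nat_lit 9) (.e (nat_lit 336013) (nat_lit 2) (.e (nat_lit 90165) (nat_lit 12) (.e (nat_lit 164210) (nat_lit 176) .nil))))))) (.g (nat_lit 1) (.e (nat_lit 50779) (nat_lit 0) .nil) .nil))))) (.nd (nat_lit 8) (.nd (nat_lit 9) 
(.lf (nat_lit 458979) (.g (nat_lit 2369) (.e (nat_lit 2725) (nat_lit 172) (.e (nat_lit 237616) (nat_lit 12) (.e (nat_lit 475210) (nat_lit 41) (.e (nat_lit 712753) (nat_lit 30) (.e (nat_lit 450569) (nat_lit 0) (.e (nat_lit 5448) (nat_lit 306) .nil)))))) (.g (nat_lit 1) (.e (nat_lit 48738) (nat_lit 0) .nil) .nil))) 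
(.lf (nat_lit 459491) (.g (nat_lit 2345) (.e (nat_lit 2797) (nat_lit 180) (.e (nat_lit 303142) (nat_lit 12) (.e (nat_lit 475184) (nat_lit 29) (.e (nat_lit 557109) (nat_lit 15) (.e (nat_lit 188449) (nat_lit 22) (.e (nat_lit 204544) (nat_lit 18) .nil)))))) (.g (nat_lit 1) (.e (nat_lit 50138) (nat_lit 0) .nil) .nil)))) (.nd (nat_lit 9) 
(.lf (nat_lit 459235) (.g (nat_lit 3913) (.e (nat_lit 2797) (nat_lit 180) (.e (nat_lit 303117) (nat_lit 2) (.e (nat_lit 196666) (nat_lit 13) (.e (nat_lit 65619) (nat_lit 10) (.e (nat_lit 344117) (nat_lit 21) (.e (nat_lit 516106) (nat_lit 0) (.e (nat_lit 7936) (nat_lit 377) .nil))))))) (.g (nat_lit 1) (.e (nat_lit 49439) (nat_lit 0) .nil) .nil))) 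
(.lf (nat_lit 459747) (.g (nat_lit 2445) (.e (nat_lit 2798) (nat_lit 180) (.e (nat_lit 303119) (nat_lit 3) (.e (nat_lit 204869) (nat_lit 29) (.e (nat_lit 360450) (nat_lit 0) (.e (nat_lit 3994) (nat_lit 240) (.e (nat_lit 8194) (nat_lit 0) (.e (nat_lit 4981) (nat_lit 287) .nil))))))) (.g (nat_lit 1) (.e (nat_lit 50991) (nat_lit 0) .nil) .nil)))))))) 
(.nd (nat_lit 5) (.nd (nat_lit 6) (.nd (nat_lit 7) (.nd (nat_lit 8) (.nd (nat_lit 9) 
(.lf (nat_lit 458771) (.g (nat_lit 3419) (.e (nat_lit 2725) (nat_lit 172) (.e (nat_lit 237589) (nat_lit 2) (.e (nat_lit 196666) (nat_lit 13) (.e (nat_lit 65610) (nat_lit 10) (.e (nat_lit 344129) (nat_lit 26) (.e (nat_lit 557090) (nat_lit 12) (.e (nat_lit 163849) (nat_lit 0) (.e (nat_lit 6255) (nat_lit 337) .nil)))))))) (.g (nat_lit 1) (.e (nat_lit 48433) (nat_lit 0) .nil) .nil))) 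
(.lf (nat_lit 459283) (.g (nat_lit 2880) (.e (nat_lit 2797) (nat_lit 180) (.e (nat_lit 303117) (nat_lit 2) (.e (nat_lit 196673) (nat_lit 15) (.e (nat_lit 81956) (nat_lit 23) (.e (nat_lit 98320) (nat_lit 17) (.e (nat_lit 7936) (nat_lit 377) .nil)))))) (.g (nat_lit 1) (.e (nat_lit 49505) (nat_lit 0) .nil) .nil)))) (.nd (nat_lit 9) 
(.lf (nat_lit 459027) (.g (nat_lit 1687) (.e (nat_lit 7936) (nat_lit 172) (.e (nat_lit 237612) (nat_lit 9) (.e (nat_lit 426100) (nat_lit 1) (.e (nat_lit 164305) (nat_lit 226) (.e (nat_lit 7936) (nat_lit 96) .nil))))) (.g (nat_lit 0) (.e (nat_lit 48959) (nat_lit 0) .nil) .nil))) 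
(.lf (nat_lit 459539) (.g (nat_lit 3379) (.e (nat_lit 2797) (nat_lit 180) (.e (nat_lit 303143) (nat_lit 12) (.e (nat_lit 475185) (nat_lit 29) (.e (nat_lit 557100) (nat_lit 13) (.e (nat_lit 172113) (nat_lit 10) (.e (nat_lit 434218) (nat_lit 19) (.e (nat_lit 499728) (nat_lit 0) .nil))))))) (.g (nat_lit 1) (.e (nat_lit 50306) (nat_lit 0) .nil) .nil))))) (.nd (nat_lit 8) (.nd (nat_lit 9) 
(.lf (nat_lit 458899) (.g (nat_lit 3996) (.e (nat_lit 2725) (nat_lit 172) (.e (nat_lit 237593) (nat_lit 3) (.e (nat_lit 204869) (nat_lit 29) (.e (nat_lit 360474) (nat_lit 8) (.e (nat_lit 557091) (nat_lit 12) (.e (nat_lit 163840) (nat_lit 0) (.e (nat_lit 6252) (nat_lit 337) .nil))))))) (.g (nat_lit 1) (.e (nat_lit 48609) (nat_lit 0) .nil) .nil))) 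
(.lf (nat_lit 459411) (.g (nat_lit 2753) (.e (nat_lit 2797) (nat_lit 180) (.e (nat_lit 303119) (nat_lit 3) (.e (nat_lit 204867) (nat_lit 28) (.e (nat_lit 352315) (nat_lit 23) (.e (nat_lit 98325) (nat_lit 17) (.e (nat_lit 7016) (nat_lit 377) .nil)))))) (.g (nat_lit 1) (.e (nat_lit 49789) (nat_lit 0) .nil) .nil)))) (.nd (nat_lit 9) 
(.lf (nat_lit 459155) (.g (nat_lit 870) (.e (nat_lit 2795) (nat_lit 180) (.e (nat_lit 303119) (nat_lit 3) (.e (nat_lit 204877) (nat_lit 31) .nil))) (.g (nat_lit 0) (.e (nat_lit 49244) (nat_lit 0) .nil) .nil))) 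
(.lf (nat_lit 459667) (.g (nat_lit 4039) (.e (nat_lit 2798) (nat_lit 180) (.e (nat_lit 303117) (nat_lit 2) (.e (nat_lit 196673) (nat_lit 15) (.e (nat_lit 81956) (nat_lit 23) (.e (nat_lit 98319) (nat_lit 17) (.e (nat_lit 7073) (nat_lit 377) .nil)))))) (.g (nat_lit 1) (.e (nat_lit 50832) (nat_lit 0) .nil) .nil)))))) (.nd (nat_lit 7) (.nd (nat_lit 8) (.nd (nat_lit 9) 
(.lf (nat_lit 458835) (.g (nat_lit 3944) (.e (nat_lit 2725) (nat_lit 172) (.e (nat_lit 237590) (nat_lit 2) (.e (nat_lit 196666) (nat_lit 13) (.e (nat_lit 65617) (nat_lit 10) (.e (nat_lit 344130) (nat_lit 26) (.e (nat_lit 557090) (nat_lit 12) (.e (nat_lit 163843) (nat_lit 0) (.e (nat_lit 6254) (nat_lit 337) .nil)))))))) (.g (nat_lit 1) (.e (nat_lit 48498) (nat_lit 0) .nil) .nil))) 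
(.lf (nat_lit 459347) (.g (nat_lit 3527) (.e (nat_lit 2797) (nat_lit 180) (.e (nat_lit 303119) (nat_lit 3) (.e (nat_lit 204855) (nat_lit 26) (.e (nat_lit 336099) (nat_lit 9) (.e (nat_lit 336013) (nat_lit 2) (.e (nat_lit 90165) (nat_lit 12) (.e (nat_lit 164207) (nat_lit 176) .nil))))))) (.g (nat_lit 1) (.e (nat_lit 49658) (nat_lit 0) .nil) .nil)))) (.nd (nat_lit 9) 
(.lf (nat_lit 459091) (.g (nat_lit 4766) (.e (nat_lit 2744) (nat_lit 174) (.e (nat_lit 253991) (nat_lit 11) (.e (nat_lit 16415) (nat_lit 3) (.e (nat_lit 204869) (nat_lit 29) (.e (nat_lit 360474) (nat_lit 8) (.e (nat_lit 557070) (nat_lit 9) .nil)))))) (.g (nat_lit 1) (.e (nat_lit 49083) (nat_lit 0) .nil) .nil))) 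
(.lf (nat_lit 459603) (.g (nat_lit 2871) (.e (nat_lit 2798) (nat_lit 180) (.e (nat_lit 303112) (nat_lit 0) (.e (nat_lit 3252) (nat_lit 197) (.e (nat_lit 532547) (nat_lit 11) (.e (nat_lit 352312) (nat_lit 22) (.e (nat_lit 90165) (nat_lit 12) (.e (nat_lit 164210) (nat_lit 176) .nil))))))) (.g (nat_lit 1) (.e (nat_lit 50754) (nat_lit 0) .nil) .nil))))) (.nd (nat_lit 8) (.nd (nat_lit 9) 
(.lf (nat_lit 458963) (.g (nat_lit 2100) (.e (nat_lit 2725) (nat_lit 172) (.e (nat_lit 237615) (nat_lit 12) (.e (nat_lit 475199) (nat_lit 40) (.e (nat_lit 704598) (nat_lit 6) (.e (nat_lit 188455) (nat_lit 24) (.e (nat_lit 229665) (nat_lit 240) .nil)))))) (.g (nat_lit 1) (.e (nat_lit 48717) (nat_lit 0) .nil) .nil))) 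
(.lf (nat_lit 459475) (.g (nat_lit 3816) (.e (nat_lit 2797) (nat_lit 180) (.e (nat_lit 303133) (nat_lit 9) (.e (nat_lit 426412) (nat_lit 15) (.e (nat_lit 1856) (nat_lit 124) (.e (nat_lit 557100) (nat_lit 13) (.e (nat_lit 172094) (nat_lit 9) (.e (nat_lit 426125) (nat_lit 2) (.e (nat_lit 204544) (nat_lit 18) .nil)))))))) (.g (nat_lit 1) (.e (nat_lit 50057) (nat_lit 0) .nil) .nil)))) 
(.nd (nat_lit 9) 
(.lf (nat_lit 459219) (.g (nat_lit 3864) (.e (nat_lit 2797) (nat_lit 180) (.e (nat_lit 303117) (nat_lit 2) (.e (nat_lit 196666) (nat_lit 13) (.e (nat_lit 65610) (nat_lit 10) (.e (nat_lit 344117) (nat_lit 21) (.e (nat_lit 516106) (nat_lit 0) (.e (nat_lit 7008) (nat_lit 377) .nil))))))) (.g (nat_lit 1) (.e (nat_lit 49423) (nat_lit 0) .nil) .nil))) 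
(.lf (nat_lit 459731) (.g (nat_lit 2402) (.e (nat_lit 2798) (nat_lit 180) (.e (nat_lit 303119) (nat_lit 3) (.e (nat_lit 204867) (nat_lit 28) (.e (nat_lit 352310) (nat_lit 22) (.e (nat_lit 90165) (nat_lit 12) (.e (nat_lit 164210) (nat_lit 176) .nil)))))) (.g (nat_lit 1) (.e (nat_lit 50974) (nat_lit 0) .nil) .nil))))))) (.nd (nat_lit 6) (.nd (nat_lit 7) (.nd (nat_lit 8) (.nd (nat_lit 9) 
(.lf (nat_lit 458803) (.g (nat_lit 4612) (.e (nat_lit 2725) (nat_lit 172) (.e (nat_lit 237589) (nat_lit 2) (.e (nat_lit 196666) (nat_lit 13) (.e (nat_lit 65617) (nat_lit 10) (.e (nat_lit 344133) (nat_lit 26) (.e (nat_lit 557089) (nat_lit 12) (.e (nat_lit 163844) (nat_lit 0) (.e (nat_lit 6254) (nat_lit 337) .nil)))))))) (.g (nat_lit 1) (.e (nat_lit 48465) (nat_lit 0) .nil) .nil))) 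
(.lf (nat_lit 459315) (.g (nat_lit 3017) (.e (nat_lit 2797) (nat_lit 180) (.e (nat_lit 303117) (nat_lit 2) (.e (nat_lit 196674) (nat_lit 15) (.e (nat_lit 81954) (nat_lit 23) (.e (nat_lit 98325) (nat_lit 17) (.e (nat_lit 7008) (nat_lit 377) .nil)))))) (.g (nat_lit 1) (.e (nat_lit 49542) (nat_lit 0) .nil) .nil)))) (.nd (nat_lit 9) 
(.lf (nat_lit 459059) (.g (nat_lit 1432) (.e (nat_lit 2741) (nat_lit 174) (.e (nat_lit 253991) (nat_lit 11) (.e (nat_lit 16412) (nat_lit 2) (.e (nat_lit 196672) (nat_lit 15) .nil)))) (.g (nat_lit 0) (.e (nat_lit 49035) (nat_lit 0) .nil) .nil))) 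
(.lf (nat_lit 459571) (.g (nat_lit 2858) (.e (nat_lit 2797) (nat_lit 180) (.e (nat_lit 303143) (nat_lit 12) (.e (nat_lit 475185) (nat_lit 29) (.e (nat_lit 557107) (nat_lit 15) (.e (nat_lit 188440) (nat_lit 20) (.e (nat_lit 3115) (nat_lit 193) (.e (nat_lit 499728) (nat_lit 0) .nil))))))) (.g (nat_lit 1) (.e (nat_lit 50359) (nat_lit 0) .nil) .nil))))) (.nd (nat_lit 8) (.nd (nat_lit 9) 
(.lf (nat_lit 458931) (.g (nat_lit 1459) (.e (nat_lit 2725) (nat_lit 172) (.e (nat_lit 237594) (nat_lit 3) (.e (nat_lit 204868) (nat_lit 29) (.e (nat_lit 360473) (nat_lit 8) (.e (nat_lit 557093) (nat_lit 12) .nil))))) (.g (nat_lit 0) (.e (nat_lit 48651) (nat_lit 0) .nil) .nil))) 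
(.lf (nat_lit 459443) (.g (nat_lit 2362) (.e (nat_lit 2797) (nat_lit 180) (.e (nat_lit 303119) (nat_lit 3) (.e (nat_lit 204869) (nat_lit 29) (.e (nat_lit 368384) (nat_lit 1) .nil)))) (.g (nat_lit 0) (.e (nat_lit 49878) (nat_lit 0) .nil) .nil)))) (.nd (nat_lit 9) 
(.lf (nat_lit 459187) (.g (nat_lit 3347) (.e (nat_lit 2796) (nat_lit 180) (.e (nat_lit 303143) (nat_lit 12) (.e (nat_lit 475185) (nat_lit 29) (.e (nat_lit 557109) (nat_lit 15) (.e (nat_lit 188449) (nat_lit 22) .nil))))) (.g (nat_lit 0) (.e (nat_lit 49341) (nat_lit 0) .nil) .nil))) 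
(.lf (nat_lit 459699) (.g (nat_lit 2489) (.e (nat_lit 2798) (nat_lit 180) (.e (nat_lit 303118) (nat_lit 3) (.e (nat_lit 204868) (nat_lit 29) (.e (nat_lit 360466) (nat_lit 3) (.e (nat_lit 516097) (nat_lit 0) (.e (nat_lit 7073) (nat_lit 377) .nil)))))) (.g (nat_lit 1) (.e (nat_lit 50873) (nat_lit 0) .nil) .nil)))))) (.nd (nat_lit 7) (.nd (nat_lit 8) (.nd (nat_lit 9) 
(.lf (nat_lit 458867) (.g (nat_lit 3155) (.e (nat_lit 2725) (nat_lit 172) (.e (nat_lit 237592) (nat_lit 3) (.e (nat_lit 204869) (nat_lit 29) (.e (nat_lit 360474) (nat_lit 8) (.e (nat_lit 557091) (nat_lit 12) (.e (nat_lit 163847) (nat_lit 0) (.e (nat_lit 6252) (nat_lit 337) .nil))))))) (.g (nat_lit 1) (.e (nat_lit 48574) (nat_lit 0) .nil) .nil))) 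
(.lf (nat_lit 459379) (.g (nat_lit 4091) (.e (nat_lit 2797) (nat_lit 180) (.e (nat_lit 303119) (nat_lit 3) (.e (nat_lit 204861) (nat_lit 26) (.e (nat_lit 336186) (nat_lit 11) (.e (nat_lit 368676) (nat_lit 21) (.e (nat_lit 516103) (nat_lit 0) (.e (nat_lit 7936) (nat_lit 377) .nil))))))) (.g (nat_lit 1) (.e (nat_lit 49724) (nat_lit 0) .nil) .nil)))) (.nd (nat_lit 9) 
(.lf (nat_lit 459123) (.g (nat_lit 2773) (.e (nat_lit 2745) (nat_lit 174) (.e (nat_lit 253992) (nat_lit 11) (.e (nat_lit 16425) (nat_lit 7) (.e (nat_lit 409649) (nat_lit 18) (.e (nat_lit 303140) (nat_lit 10) .nil))))) (.g (nat_lit 0) (.e (nat_lit 49118) (nat_lit 0) .nil) .nil))) 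
(.lf (nat_lit 459635) (.g (nat_lit 4804) (.e (nat_lit 2798) (nat_lit 180) (.e (nat_lit 303117) (nat_lit 2) (.e (nat_lit 196666) (nat_lit 13) (.e (nat_lit 65610) (nat_lit 10) (.e (nat_lit 344117) (nat_lit 21) (.e (nat_lit 516106) (nat_lit 0) (.e (nat_lit 7016) (nat_lit 377) .nil))))))) (.g (nat_lit 1) (.e (nat_lit 50798) (nat_lit 0) .nil) .nil))))) (.nd (nat_lit 8) (.nd (nat_lit 9) 
(.lf (nat_lit 458995) (.g (nat_lit 1387) (.e (nat_lit 2725) (nat_lit 172) (.e (nat_lit 237617) (nat_lit 12) (.e (nat_lit 475210) (nat_lit 41) (.e (nat_lit 712755) (nat_lit 30) (.e (nat_lit 450568) (nat_lit 0) (.e (nat_lit 5448) (nat_lit 306) .nil)))))) (.g (nat_lit 1) (.e (nat_lit 48758) (nat_lit 0) .nil) .nil))) 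
(.lf (nat_lit 459507) (.g (nat_lit 5411) (.e (nat_lit 2797) (nat_lit 180) (.e (nat_lit 303143) (nat_lit 12) (.e (nat_lit 475185) (nat_lit 29) (.e (nat_lit 557098) (nat_lit 13) (.e (nat_lit 172094) (nat_lit 9) (.e (nat_lit 426125) (nat_lit 2) (.e (nat_lit 204544) (nat_lit 18) .nil))))))) (.g (nat_lit 1) (.e (nat_lit 50262) (nat_lit 0) .nil) .nil)))) (.nd (nat_lit 9) 
(.lf (nat_lit 459251) (.g (nat_lit 2761) (.e (nat_lit 2797) (nat_lit 180) (.e (nat_lit 303117) (nat_lit 2) (.e (nat_lit 196672) (nat_lit 15) (.e (nat_lit 81954) (nat_lit 23) (.e (nat_lit 98319) (nat_lit 17) (.e (nat_lit 7073) (nat_lit 377) .nil)))))) (.g (nat_lit 1) (.e (nat_lit 49473) (nat_lit 0) .nil) .nil))) 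
(.lf (nat_lit 459763) (.g (nat_lit 2092) (.e (nat_lit 2798) (nat_lit 180) (.e (nat_lit 303119) (nat_lit 3) (.e (nat_lit 204878) (nat_lit 31) (.e (nat_lit 376862) (nat_lit 22) (.e (nat_lit 90165) (nat_lit 12) (.e (nat_lit 164207) (nat_lit 176) .nil)))))) (.g (nat_lit 1) (.e (nat_lit 51062) (nat_lit 0) .nil) .nil))))))))) 
(.nd (nat_lit 4) (.nd (nat_lit 5) (.nd (nat_lit 6) (.nd (nat_lit 7) (.nd (nat_lit 8) 
(.nd (nat_lit 9) 
(.lf (nat_lit 458763) (.g (nat_lit 3366) (.e (nat_lit 2725) (nat_lit 172) (.e (nat_lit 237587) (nat_lit 2) (.e (nat_lit 196666) (nat_lit 13) (.e (nat_lit 65617) (nat_lit 10) (.e (nat_lit 344133) (nat_lit 26) (.e (nat_lit 557091) (nat_lit 12) (.e (nat_lit 163849) (nat_lit 0) (.e (nat_lit 6255) (nat_lit 337) .nil)))))))) (.g (nat_lit 1) (.e (nat_lit 48375) (nat_lit 0) .nil) .nil))) 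
(.lf (nat_lit 459275) (.g (nat_lit 2507) (.e (nat_lit 2797) (nat_lit 180) (.e (nat_lit 303117) (nat_lit 2) (.e (nat_lit 196673) (nat_lit 15) (.e (nat_lit 81953) (nat_lit 22) (.e (nat_lit 90165) (nat_lit 12) (.e (nat_lit 164207) (nat_lit 176) .nil)))))) (.g (nat_lit 1) (.e (nat_lit 49497) (nat_lit 0) .nil) .nil)))) (.nd (nat_lit 9) 
(.lf (nat_lit 459019) (.g (nat_lit 3006) (.e (nat_lit 2725) (nat_lit 172) (.e (nat_lit 237619) (nat_lit 12) (.e (nat_lit 475211) (nat_lit 41) (.e (nat_lit 712752) (nat_lit 29) (.e (nat_lit 442430) (nat_lit 24) (.e (nat_lit 229665) (nat_lit 240) .nil)))))) (.g (nat_lit 1) (.e (nat_lit 48785) (nat_lit 0) .nil) .nil))) 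
(.lf (nat_lit 459531) (.g (nat_lit 3600) (.e (nat_lit 2797) (nat_lit 180) (.e (nat_lit 303143) (nat_lit 12) (.e (nat_lit 475185) (nat_lit 29) (.e (nat_lit 557100) (nat_lit 13) (.e (nat_lit 172106) (nat_lit 10) (.e (nat_lit 434218) (nat_lit 19) (.e (nat_lit 499728) (nat_lit 0) .nil))))))) (.g (nat_lit 1) (.e (nat_lit 50293) (nat_lit 0) .nil) .nil))))) (.nd (nat_lit 8) (.nd (nat_lit 9) 
(.lf (nat_lit 458891) (.g (nat_lit 4763) (.e (nat_lit 2725) (nat_lit 172) (.e (nat_lit 237593) (nat_lit 3) (.e (nat_lit 204869) (nat_lit 29) (.e (nat_lit 360474) (nat_lit 8) (.e (nat_lit 557089) (nat_lit 12) (.e (nat_lit 163843) (nat_lit 0) (.e (nat_lit 6255) (nat_lit 337) .nil))))))) (.g (nat_lit 1) (.e (nat_lit 48601) (nat_lit 0) .nil) .nil))) 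
(.lf (nat_lit 459403) (.g (nat_lit 2274) (.e (nat_lit 2797) (nat_lit 180) (.e (nat_lit 303119) (nat_lit 3) (.e (nat_lit 204867) (nat_lit 28) (.e (nat_lit 352310) (nat_lit 22) (.e (nat_lit 90165) (nat_lit 12) (.e (nat_lit 164207) (nat_lit 176) .nil)))))) (.g (nat_lit 1) (.e (nat_lit 49781) (nat_lit 0) .nil) .nil)))) (.nd (nat_lit 9) 
(.lf (nat_lit 459147) (.g (nat_lit 4380) (.e (nat_lit 2795) (nat_lit 180) (.e (nat_lit 303117) (nat_lit 2) (.e (nat_lit 196666) (nat_lit 13) (.e (nat_lit 65617) (nat_lit 10) (.e (nat_lit 344117) (nat_lit 21) .nil))))) (.g (nat_lit 0) (.e (nat_lit 49228) (nat_lit 0) .nil) .nil))) 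
(.lf (nat_lit 459659) (.g (nat_lit 3459) (.e (nat_lit 2798) (nat_lit 180) (.e (nat_lit 303117) (nat_lit 2) (.e (nat_lit 196672) (nat_lit 15) (.e (nat_lit 81954) (nat_lit 23) (.e (nat_lit 98321) (nat_lit 17) (.e (nat_lit 7936) (nat_lit 377) .nil)))))) (.g (nat_lit 1) (.e (nat_lit 50824) (nat_lit 0) .nil) .nil)))))) (.nd (nat_lit 7) (.nd (nat_lit 8) (.nd (nat_lit 9) 
(.lf (nat_lit 458827) (.g (nat_lit 2447) (.e (nat_lit 2725) (nat_lit 172) (.e (nat_lit 237590) (nat_lit 2) (.e (nat_lit 196666) (nat_lit 13) (.e (nat_lit 65610) (nat_lit 10) (.e (nat_lit 344129) (nat_lit 26) (.e (nat_lit 557090) (nat_lit 12) (.e (nat_lit 163847) (nat_lit 0) (.e (nat_lit 6255) (nat_lit 337) .nil)))))))) (.g (nat_lit 1) (.e (nat_lit 48490) (nat_lit 0) .nil) .nil))) 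
(.lf (nat_lit 459339) (.g (nat_lit 2581) (.e (nat_lit 2797) (nat_lit 180) (.e (nat_lit 303119) (nat_lit 3) (.e (nat_lit 204850) (nat_lit 26) (.e (nat_lit 336177) (nat_lit 10) (.e (nat_lit 344117) (nat_lit 21) (.e (nat_lit 516106) (nat_lit 0) (.e (nat_lit 7936) (nat_lit 377) .nil))))))) (.g (nat_lit 1) (.e (nat_lit 49624) (nat_lit 0) .nil) .nil)))) (.nd (nat_lit 9) 
(.lf (nat_lit 459083) (.g (nat_lit 3325) (.e (nat_lit 2744) (nat_lit 174) (.e (nat_lit 253991) (nat_lit 11) (.e (nat_lit 16412) (nat_lit 2) (.e (nat_lit 196674) (nat_lit 15) (.e (nat_lit 81946) (nat_lit 20) (.e (nat_lit 1846) (nat_lit 124) (.e (nat_lit 557070) (nat_lit 9) .nil))))))) (.g (nat_lit 1) (.e (nat_lit 49075) (nat_lit 0) .nil) .nil))) 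
(.lf (nat_lit 459595) (.g (nat_lit 1659) (.e (nat_lit 2797) (nat_lit 180) (.e (nat_lit 303145) (nat_lit 13) (.e (nat_lit 483346) (nat_lit 17) (.e (nat_lit 6203) (nat_lit 332) .nil)))) (.g (nat_lit 0) (.e (nat_lit 50447) (nat_lit 0) .nil) .nil))))) (.nd (nat_lit 8) (.nd (nat_lit 9) 
(.lf (nat_lit 458955) (.g (nat_lit 2839) (.e (nat_lit 2725) (nat_lit 172) (.e (nat_lit 237594) (nat_lit 3) (.e (nat_lit 204869) (nat_lit 29) (.e (nat_lit 360475) (nat_lit 8) (.e (nat_lit 557089) (nat_lit 12) (.e (nat_lit 163849) (nat_lit 0) (.e (nat_lit 6250) (nat_lit 337) .nil))))))) (.g (nat_lit 1) (.e (nat_lit 48683) (nat_lit 0) .nil) .nil))) 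
(.lf (nat_lit 459467) (.g (nat_lit 1959) (.e (nat_lit 2797) (nat_lit 180) (.e (nat_lit 303127) (nat_lit 9) (.e (nat_lit 433920) (nat_lit 27) (.e (nat_lit 336228) (nat_lit 14) (.e (nat_lit 401454) (nat_lit 12) (.e (nat_lit 483072) (nat_lit 16) .nil)))))) (.g (nat_lit 1) (.e (nat_lit 50021) (nat_lit 0) .nil) .nil)))) (.nd (nat_lit 9) 
(.lf (nat_lit 459211) (.g (nat_lit 1816) (.e (nat_lit 2797) (nat_lit 180) (.e (nat_lit 303117) (nat_lit 2) (.e (nat_lit 196666) (nat_lit 13) (.e (nat_lit 65604) (nat_lit 9) .nil)))) (.g (nat_lit 0) (.e (nat_lit 49415) (nat_lit 0) .nil) .nil))) 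
(.lf (nat_lit 459723) (.g (nat_lit 3828) (.e (nat_lit 2798) (nat_lit 180) (.e (nat_lit 303119) (nat_lit 3) (.e (nat_lit 204861) (nat_lit 26) (.e (nat_lit 336185) (nat_lit 11) (.e (nat_lit 368676) (nat_lit 21) (.e (nat_lit 516097) (nat_lit 0) (.e (nat_lit 7073) (nat_lit 377) .nil))))))) (.g (nat_lit 1) (.e (nat_lit 50945) (nat_lit 0) .nil) .nil))))))) 
(.nd (nat_lit 6) (.nd (nat_lit 7) (.nd (nat_lit 8) (.nd (nat_lit 9) 
(.lf (nat_lit 458795) (.g (nat_lit 3019) (.e (nat_lit 2725) (nat_lit 172) (.e (nat_lit 237589) (nat_lit 2) (.e (nat_lit 196666) (nat_lit 13) (.e (nat_lit 65617) (nat_lit 10) (.e (nat_lit 344132) (nat_lit 26) (.e (nat_lit 557094) (nat_lit 12) (.e (nat_lit 163848) (nat_lit 0) (.e (nat_lit 6252) (nat_lit 337) .nil)))))))) (.g (nat_lit 1) (.e (nat_lit 48457) (nat_lit 0) .nil) .nil))) 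
(.lf (nat_lit 459307) (.g (nat_lit 4033) (.e (nat_lit 2797) (nat_lit 180) (.e (nat_lit 303117) (nat_lit 2) (.e (nat_lit 196674) (nat_lit 15) (.e (nat_lit 81953) (nat_lit 22) (.e (nat_lit 90165) (nat_lit 12) (.e (nat_lit 164207) (nat_lit 176) .nil)))))) (.g (nat_lit 1) (.e (nat_lit 49534) (nat_lit 0) .nil) .nil)))) (.nd (nat_lit 9) 
(.lf (nat_lit 459051) (.g (nat_lit 2214) (.e (nat_lit 2741) (nat_lit 174) (.e (nat_lit 253988) (nat_lit 11) (.e (nat_lit 16465) (nat_lit 13) (.e (nat_lit 483383) (nat_lit 23) (.e (nat_lit 336240) (nat_lit 15) (.e (nat_lit 3590) (nat_lit 224) (.e (nat_lit 753674) (nat_lit 5) .nil))))))) (.g (nat_lit 1) (.e (nat_lit 49010) (nat_lit 0) .nil) .nil))) 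
(.lf (nat_lit 459563) (.g (nat_lit 2804) (.e (nat_lit 2797) (nat_lit 180) (.e (nat_lit 303143) (nat_lit 12) (.e (nat_lit 475185) (nat_lit 29) (.e (nat_lit 557101) (nat_lit 13) (.e (nat_lit 172115) (nat_lit 10) (.e (nat_lit 434218) (nat_lit 19) (.e (nat_lit 499774) (nat_lit 0) .nil))))))) (.g (nat_lit 1) (.e (nat_lit 50339) (nat_lit 0) .nil) .nil))))) (.nd (nat_lit 8) (.nd (nat_lit 9) 
(.lf (nat_lit 458923) (.g (nat_lit 4354) (.e (nat_lit 2725) (nat_lit 172) (.e (nat_lit 237593) (nat_lit 3) (.e (nat_lit 204869) (nat_lit 29) (.e (nat_lit 360475) (nat_lit 8) (.e (nat_lit 557091) (nat_lit 12) (.e (nat_lit 163849) (nat_lit 0) (.e (nat_lit 6255) (nat_lit 337) .nil))))))) (.g (nat_lit 1) (.e (nat_lit 48636) (nat_lit 0) .nil) .nil))) 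
(.lf (nat_lit 459435) (.g (nat_lit 2429) (.e (nat_lit 2797) (nat_lit 180) (.e (nat_lit 303119) (nat_lit 3) (.e (nat_lit 204869) (nat_lit 29) (.e (nat_lit 360451) (nat_lit 0) (.e (nat_lit 3994) (nat_lit 240) (.e (nat_lit 8192) (nat_lit 0) (.e (nat_lit 4929) (nat_lit 287) .nil))))))) (.g (nat_lit 1) (.e (nat_lit 49839) (nat_lit 0) .nil) .nil)))) (.nd (nat_lit 9) 
(.lf (nat_lit 459179) (.g (nat_lit 2757) (.e (nat_lit 2796) (nat_lit 180) (.e (nat_lit 303119) (nat_lit 3) (.e (nat_lit 204868) (nat_lit 29) (.e (nat_lit 360466) (nat_lit 3) .nil)))) (.g (nat_lit 0) (.e (nat_lit 49325) (nat_lit 0) .nil) .nil))) 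
(.lf (nat_lit 459691) (.g (nat_lit 2758) (.e (nat_lit 2798) (nat_lit 180) (.e (nat_lit 303117) (nat_lit 2) (.e (nat_lit 196674) (nat_lit 15) (.e (nat_lit 81956) (nat_lit 23) (.e (nat_lit 98319) (nat_lit 17) .nil))))) (.g (nat_lit 0) (.e (nat_lit 50856) (nat_lit 0) .nil) .nil)))))) (.nd (nat_lit 7) (.nd (nat_lit 8) (.nd (nat_lit 9) 
(.lf (nat_lit 458859) (.g (nat_lit 4526) (.e (nat_lit 2725) (nat_lit 172) (.e (nat_lit 237591) (nat_lit 3) (.e (nat_lit 204869) (nat_lit 29) (.e (nat_lit 360475) (nat_lit 8) (.e (nat_lit 557091) (nat_lit 12) (.e (nat_lit 163843) (nat_lit 0) (.e (nat_lit 6254) (nat_lit 337) .nil))))))) (.g (nat_lit 1) (.e (nat_lit 48557) (nat_lit 0) .nil) .nil))) 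
(.lf (nat_lit 459371) (.g (nat_lit 4689) (.e (nat_lit 2797) (nat_lit 180) (.e (nat_lit 303119) (nat_lit 3) (.e (nat_lit 204861) (nat_lit 26) (.e (nat_lit 336185) (nat_lit 11) (.e (nat_lit 368676) (nat_lit 21) (.e (nat_lit 516097) (nat_lit 0) (.e (nat_lit 7936) (nat_lit 377) .nil))))))) (.g (nat_lit 1) (.e (nat_lit 49716) (nat_lit 0) .nil) .nil)))) (.nd (nat_lit 9) 
(.lf (nat_lit 459115) (.g (nat_lit 4477) (.e (nat_lit 2744) (nat_lit 174) (.e (nat_lit 253992) (nat_lit 11) (.e (nat_lit 16416) (nat_lit 3) (.e (nat_lit 204869) (nat_lit 29) (.e (nat_lit 360474) (nat_lit 8) (.e (nat_lit 557070) (nat_lit 9) .nil)))))) (.g (nat_lit 1) (.e (nat_lit 49109) (nat_lit 0) .nil) .nil))) 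
(.lf (nat_lit 459627) (.g (nat_lit 3849) (.e (nat_lit 2798) (nat_lit 180) (.e (nat_lit 303117) (nat_lit 2) (.e (nat_lit 196666) (nat_lit 13) (.e (nat_lit 65604) (nat_lit 9) (.e (nat_lit 336013) (nat_lit 2) (.e (nat_lit 90165) (nat_lit 12) (.e (nat_lit 164207) (nat_lit 176) .nil))))))) (.g (nat_lit 1) (.e (nat_lit 50787) (nat_lit 0) .nil) .nil))))) (.nd (nat_lit 8) (.nd (nat_lit 9) 
(.lf (nat_lit 458987) (.g (nat_lit 2360) (.e (nat_lit 2725) (nat_lit 172) (.e (nat_lit 237616) (nat_lit 12) (.e (nat_lit 475211) (nat_lit 41) (.e (nat_lit 712753) (nat_lit 30) (.e (nat_lit 450569) (nat_lit 0) (.e (nat_lit 5448) (nat_lit 306) .nil)))))) (.g (nat_lit 1) (.e (nat_lit 48747) (nat_lit 0) .nil) .nil))) 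
(.lf (nat_lit 459499) (.g (nat_lit 4382) (.e (nat_lit 2797) (nat_lit 180) (.e (nat_lit 303143) (nat_lit 12) (.e (nat_lit 475185) (nat_lit 29) (.e (nat_lit 557096) (nat_lit 13) (.e (nat_lit 172096) (nat_lit 9) (.e (nat_lit 426125) (nat_lit 2) (.e (nat_lit 204544) (nat_lit 18) .nil))))))) (.g (nat_lit 1) (.e (nat_lit 50254) (nat_lit 0) .nil) .nil)))) (.nd (nat_lit 9) 
(.lf (nat_lit 459243) (.g (nat_lit 2600) (.e (nat_lit 2797) (nat_lit 180) (.e (nat_lit 303117) (nat_lit 2) (.e (nat_lit 196672) (nat_lit 15) (.e (nat_lit 81951) (nat_lit 22) (.e (nat_lit 90165) (nat_lit 12) (.e (nat_lit 164214) (nat_lit 176) .nil)))))) (.g (nat_lit 1) (.e (nat_lit 49465) (nat_lit 0) .nil) .nil))) 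
(.lf (nat_lit 459755) (.g (nat_lit 3499) (.e (nat_lit 2798) (nat_lit 180) (.e (nat_lit 303119) (nat_lit 3) (.e (nat_lit 204869) (nat_lit 29) (.e (nat_lit 360475) (nat_lit 8) (.e (nat_lit 557084) (nat_lit 10) (.e (nat_lit 16128) (nat_lit 225) .nil)))))) (.g (nat_lit 1) (.e (nat_lit 51046) (nat_lit 0) .nil) .nil)))))))) 
(.nd (nat_lit 5) (.nd (nat_lit 6) (.nd (nat_lit 7) (.nd (nat_lit 8) (.nd (nat_lit 9) 
(.lf (nat_lit 458779) (.g (nat_lit 2745) (.e (nat_lit 2725) (nat_lit 172) (.e (nat_lit 237589) (nat_lit 2) (.e (nat_lit 196666) (nat_lit 13) (.e (nat_lit 65617) (nat_lit 10) (.e (nat_lit 344130) (nat_lit 26) (.e (nat_lit 557089) (nat_lit 12) (.e (nat_lit 163844) (nat_lit 0) (.e (nat_lit 6250) (nat_lit 337) .nil)))))))) (.g (nat_lit 1) (.e (nat_lit 48441) (nat_lit 0) .nil) .nil))) 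
(.lf (nat_lit 459291) (.g (nat_lit 1781) (.e (nat_lit 2797) (nat_lit 180) (.e (nat_lit 303117) (nat_lit 2) (.e (nat_lit 196673) (nat_lit 15) (.e (nat_lit 81962) (nat_lit 25) (.e (nat_lit 139289) (nat_lit 9) (.e (nat_lit 2458) (nat_lit 157) (.e (nat_lit 7936) (nat_lit 377) .nil))))))) (.g (nat_lit 1) (.e (nat_lit 49513) (nat_lit 0) .nil) .nil)))) (.nd (nat_lit 9) 
(.lf (nat_lit 459035) (.g (nat_lit 3708) (.e (nat_lit 2739) (nat_lit 174) (.e (nat_lit 253990) (nat_lit 11) (.e (nat_lit 16413) (nat_lit 2) (.e (nat_lit 196666) (nat_lit 13) (.e (nat_lit 65610) (nat_lit 10) (.e (nat_lit 344129) (nat_lit 26) (.e (nat_lit 557074) (nat_lit 9) .nil))))))) (.g (nat_lit 1) (.e (nat_lit 48988) (nat_lit 0) .nil) .nil))) 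
(.lf (nat_lit 459547) (.g (nat_lit 3521) (.e (nat_lit 2797) (nat_lit 180) (.e (nat_lit 303143) (nat_lit 12) (.e (nat_lit 475185) (nat_lit 29) (.e (nat_lit 557100) (nat_lit 13) (.e (nat_lit 172113) (nat_lit 10) (.e (nat_lit 442112) (nat_lit 19) (.e (nat_lit 499767) (nat_lit 0) .nil))))))) (.g (nat_lit 1) (.e (nat_lit 50315) (nat_lit 0) .nil) .nil))))) (.nd (nat_lit 8) (.nd (nat_lit 9) 
(.lf (nat_lit 458907) (.g (nat_lit 2941) (.e (nat_lit 2725) (nat_lit 172) (.e (nat_lit 237593) (nat_lit 3) (.e (nat_lit 204869) (nat_lit 29) (.e (nat_lit 360474) (nat_lit 8) (.e (nat_lit 557094) (nat_lit 12) (.e (nat_lit 163848) (nat_lit 0) (.e (nat_lit 6252) (nat_lit 337) .nil))))))) (.g (nat_lit 1) (.e (nat_lit 48620) (nat_lit 0) .nil) .nil))) 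
(.lf (nat_lit 459419) (.g (nat_lit 4474) (.e (nat_lit 2797) (nat_lit 180) (.e (nat_lit 303119) (nat_lit 3) (.e (nat_lit 204868) (nat_lit 29) (.e (nat_lit 360466) (nat_lit 3) (.e (nat_lit 516097) (nat_lit 0) (.e (nat_lit 7073) (nat_lit 377) .nil)))))) (.g (nat_lit 1) (.e (nat_lit 49798) (nat_lit 0) .nil) .nil)))) (.nd (nat_lit 9) 
(.lf (nat_lit 459163) (.g (nat_lit 3858) (.e (nat_lit 2796) (nat_lit 180) (.e (nat_lit 303116) (nat_lit 2) (.e (nat_lit 196666) (nat_lit 13) (.e (nat_lit 65610) (nat_lit 10) (.e (nat_lit 344117) (nat_lit 21) (.e (nat_lit 516106) (nat_lit 0) (.e (nat_lit 7008) (nat_lit 377) .nil))))))) (.g (nat_lit 1) (.e (nat_lit 49299) (nat_lit 0) .nil) .nil))) 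
(.lf (nat_lit 459675) (.g (nat_lit 3172) (.e (nat_lit 2798) (nat_lit 180) (.e (nat_lit 303117) (nat_lit 2) (.e (nat_lit 196674) (nat_lit 15) (.e (nat_lit 81951) (nat_lit 22) (.e (nat_lit 90165) (nat_lit 12) (.e (nat_lit 164210) (nat_lit 176) .nil)))))) (.g (nat_lit 1) (.e (nat_lit 50840) (nat_lit 0) .nil) .nil)))))) (.nd (nat_lit 7) (.nd (nat_lit 8) (.nd (nat_lit 9) 
(.lf (nat_lit 458843) (.g (nat_lit 3163) (.e (nat_lit 2725) (nat_lit 172) (.e (nat_lit 237590) (nat_lit 2) (.e (nat_lit 196666) (nat_lit 13) (.e (nat_lit 65617) (nat_lit 10) (.e (nat_lit 344132) (nat_lit 26) (.e (nat_lit 557093) (nat_lit 12) (.e (nat_lit 163849) (nat_lit 0) (.e (nat_lit 6254) (nat_lit 337) .nil)))))))) (.g (nat_lit 1) (.e (nat_lit 48506) (nat_lit 0) .nil) .nil))) 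
(.lf (nat_lit 459355) (.g (nat_lit 2395) (.e (nat_lit 2797) (nat_lit 180) (.e (nat_lit 303119) (nat_lit 3) (.e (nat_lit 204855) (nat_lit 26) (.e (nat_lit 336178) (nat_lit 10) (.e (nat_lit 344117) (nat_lit 21) .nil))))) (.g (nat_lit 0) (.e (nat_lit 49687) (nat_lit 0) .nil) .nil)))) (.nd (nat_lit 9) 
(.lf (nat_lit 459099) (.g (nat_lit 3278) (.e (nat_lit 2744) (nat_lit 174) (.e (nat_lit 253991) (nat_lit 11) (.e (nat_lit 16473) (nat_lit 14) (.e (nat_lit 491556) (nat_lit 9) (.e (nat_lit 336333) (nat_lit 20) .nil))))) (.g (nat_lit 0) (.e (nat_lit 49092) (nat_lit 0) .nil) .nil))) 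
(.lf (nat_lit 459611) (.g (nat_lit 3992) (.e (nat_lit 2798) (nat_lit 180) (.e (nat_lit 303116) (nat_lit 2) (.e (nat_lit 196666) (nat_lit 13) (.e (nat_lit 65610) (nat_lit 10) (.e (nat_lit 344117) (nat_lit 21) (.e (nat_lit 516106) (nat_lit 0) (.e (nat_lit 7936) (nat_lit 377) .nil))))))) (.g (nat_lit 1) (.e (nat_lit 50769) (nat_lit 0) .nil) .nil))))) (.nd (nat_lit 8) (.nd (nat_lit 9) 
(.lf (nat_lit 458971) (.g (nat_lit 1442) (.e (nat_lit 2725) (nat_lit 172) (.e (nat_lit 237616) (nat_lit 12) (.e (nat_lit 475198) (nat_lit 40) (.e (nat_lit 704599) (nat_lit 6) (.e (nat_lit 188453) (nat_lit 24) (.e (nat_lit 229666) (nat_lit 240) .nil)))))) (.g (nat_lit 1) (.e (nat_lit 48729) (nat_lit 0) .nil) .nil))) 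
(.lf (nat_lit 459483) (.g (nat_lit 2208) (.e (nat_lit 2797) (nat_lit 180) (.e (nat_lit 303133) (nat_lit 9) (.e (nat_lit 426412) (nat_lit 15) (.e (nat_lit 2175) (nat_lit 143) (.e (nat_lit 712755) (nat_lit 30) (.e (nat_lit 450597) (nat_lit 17) (.e (nat_lit 663589) (nat_lit 14) .nil))))))) (.g (nat_lit 1) (.e (nat_lit 50068) (nat_lit 0) .nil) .nil)))) (.nd (nat_lit 9) 
(.lf (nat_lit 459227) (.g (nat_lit 5478) (.e (nat_lit 2797) (nat_lit 180) (.e (nat_lit 303117) (nat_lit 2) (.e (nat_lit 196666) (nat_lit 13) (.e (nat_lit 65617) (nat_lit 10) (.e (nat_lit 344130) (nat_lit 26) (.e (nat_lit 557084) (nat_lit 10) (.e (nat_lit 16128) (nat_lit 225) .nil))))))) (.g (nat_lit 1) (.e (nat_lit 49431) (nat_lit 0) .nil) .nil))) 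
(.lf (nat_lit 459739) (.g (nat_lit 1686) (.e (nat_lit 2798) (nat_lit 180) (.e (nat_lit 303119) (nat_lit 3) (.e (nat_lit 204868) (nat_lit 29) (.e (nat_lit 368384) (nat_lit 1) .nil)))) (.g (nat_lit 0) (.e (nat_lit 50982) (nat_lit 0) .nil) .nil))))))) (.nd (nat_lit 6) (.nd (nat_lit 7) (.nd (nat_lit 8) (.nd (nat_lit 9) 
(.lf (nat_lit 458811) (.g (nat_lit 5470) (.e (nat_lit 2725) (nat_lit 172) (.e (nat_lit 237589) (nat_lit 2) (.e (nat_lit 196666) (nat_lit 13) (.e (nat_lit 65617) (nat_lit 10) (.e (nat_lit 344133) (nat_lit 26) (.e (nat_lit 557091) (nat_lit 12) (.e (nat_lit 163843) (nat_lit 0) (.e (nat_lit 6254) (nat_lit 337) .nil)))))))) (.g (nat_lit 1) (.e (nat_lit 48473) (nat_lit 0) .nil) .nil))) 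
(.lf (nat_lit 459323) (.g (nat_lit 3206) (.e (nat_lit 2797) (nat_lit 180) (.e (nat_lit 303117) (nat_lit 2) (.e (nat_lit 196674) (nat_lit 15) (.e (nat_lit 81956) (nat_lit 23) (.e (nat_lit 98319) (nat_lit 17) (.e (nat_lit 7073) (nat_lit 377) .nil)))))) (.g (nat_lit 1) (.e (nat_lit 49550) (nat_lit 0) .nil) .nil)))) (.nd (nat_lit 9) 
(.lf (nat_lit 459067) (.g (nat_lit 1749) (.e (nat_lit 2741) (nat_lit 174) (.e (nat_lit 253992) (nat_lit 11) (.e (nat_lit 16425) (nat_lit 7) (.e (nat_lit 409649) (nat_lit 18) (.e (nat_lit 303140) (nat_lit 10) .nil))))) (.g (nat_lit 0) (.e (nat_lit 49043) (nat_lit 0) .nil) .nil))) 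
(.lf (nat_lit 459579) (.g (nat_lit 2465) (.e (nat_lit 2797) (nat_lit 180) (.e (nat_lit 303143) (nat_lit 12) (.e (nat_lit 475185) (nat_lit 29) (.e (nat_lit 557107) (nat_lit 15) (.e (nat_lit 188456) (nat_lit 25) (.e (nat_lit 253696) (nat_lit 18) .nil)))))) (.g (nat_lit 1) (.e (nat_lit 50369) (nat_lit 0) .nil) .nil))))) (.nd (nat_lit 8) (.nd (nat_lit 9) 
(.lf (nat_lit 458939) (.g (nat_lit 3715) (.e (nat_lit 2725) (nat_lit 172) (.e (nat_lit 237594) (nat_lit 3) (.e (nat_lit 204869) (nat_lit 29) (.e (nat_lit 360474) (nat_lit 8) (.e (nat_lit 557091) (nat_lit 12) (.e (nat_lit 163840) (nat_lit 0) (.e (nat_lit 6252) (nat_lit 337) .nil))))))) (.g (nat_lit 1) (.e (nat_lit 48664) (nat_lit 0) .nil) .nil))) 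
(.lf (nat_lit 459451) (.g (nat_lit 8018) (.e (nat_lit 2797) (nat_lit 180) (.e (nat_lit 303119) (nat_lit 3) (.e (nat_lit 204869) (nat_lit 29) (.e (nat_lit 360475) (nat_lit 8) (.e (nat_lit 557084) (nat_lit 10) (.e (nat_lit 16128) (nat_lit 225) .nil)))))) (.g (nat_lit 1) (.e (nat_lit 49989) (nat_lit 0) .nil) .nil)))) (.nd (nat_lit 9) 
(.lf (nat_lit 459195) (.g (nat_lit 2429) (.e (nat_lit 2797) (nat_lit 180) (.e (nat_lit 303116) (nat_lit 2) (.e (nat_lit 196666) (nat_lit 13) (.e (nat_lit 65610) (nat_lit 10) (.e (nat_lit 344117) (nat_lit 21) (.e (nat_lit 516106) (nat_lit 0) (.e (nat_lit 7016) (nat_lit 377) .nil))))))) (.g (nat_lit 1) (.e (nat_lit 49383) (nat_lit 0) .nil) .nil))) 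
(.lf (nat_lit 459707) (.g (nat_lit 2414) (.e (nat_lit 2798) (nat_lit 180) (.e (nat_lit 303119) (nat_lit 3) (.e (nat_lit 204838) (nat_lit 20) (.e (nat_lit 114714) (nat_lit 22) (.e (nat_lit 98048) (nat_lit 5) (.e (nat_lit 73753) (nat_lit 8) (.e (nat_lit 557119) (nat_lit 18) .nil))))))) (.g (nat_lit 1) (.e (nat_lit 50885) (nat_lit 0) .nil) .nil)))))) 
(.nd (nat_lit 7) (.nd (nat_lit 8) (.nd (nat_lit 9) 
(.lf (nat_lit 458875) (.g (nat_lit 3174) (.e (nat_lit 2725) (nat_lit 172) (.e (nat_lit 237592) (nat_lit 3) (.e (nat_lit 204869) (nat_lit 29) (.e (nat_lit 360475) (nat_lit 8) (.e (nat_lit 557091) (nat_lit 12) (.e (nat_lit 163847) (nat_lit 0) (.e (nat_lit 6252) (nat_lit 337) .nil))))))) (.g (nat_lit 1) (.e (nat_lit 48582) (nat_lit 0) .nil) .nil))) 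
(.lf (nat_lit 459387) (.g (nat_lit 2553) (.e (nat_lit 2797) (nat_lit 180) (.e (nat_lit 303119) (nat_lit 3) (.e (nat_lit 212736) (nat_lit 26) (.e (nat_lit 336158) (nat_lit 9) (.e (nat_lit 336012) (nat_lit 2) (.e (nat_lit 90181) (nat_lit 16) (.e (nat_lit 237312) (nat_lit 176) .nil))))))) (.g (nat_lit 1) (.e (nat_lit 49732) (nat_lit 0) .nil) .nil)))) (.nd (nat_lit 9) 
(.lf (nat_lit 459131) (.g (nat_lit 1808) (.e (nat_lit 2757) (nat_lit 176) (.e (nat_lit 270354) (nat_lit 8) (.e (nat_lit 303145) (nat_lit 13) (.e (nat_lit 483405) (nat_lit 26) (.e (nat_lit 385091) (nat_lit 49) .nil))))) (.g (nat_lit 0) (.e (nat_lit 49130) (nat_lit 0) .nil) .nil))) 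
(.lf (nat_lit 459643) (.g (nat_lit 3946) (.e (nat_lit 2798) (nat_lit 180) (.e (nat_lit 303117) (nat_lit 2) (.e (nat_lit 196666) (nat_lit 13) (.e (nat_lit 65617) (nat_lit 10) (.e (nat_lit 344130) (nat_lit 26) (.e (nat_lit 557084) (nat_lit 10) (.e (nat_lit 16128) (nat_lit 225) .nil))))))) (.g (nat_lit 1) (.e (nat_lit 50806) (nat_lit 0) .nil) .nil))))) (.nd (nat_lit 8) (.nd (nat_lit 9) 
(.lf (nat_lit 459003) (.g (nat_lit 1653) (.e (nat_lit 2725) (nat_lit 172) (.e (nat_lit 237619) (nat_lit 12) (.e (nat_lit 475199) (nat_lit 40) (.e (nat_lit 704598) (nat_lit 6) (.e (nat_lit 188454) (nat_lit 24) (.e (nat_lit 229665) (nat_lit 240) .nil)))))) (.g (nat_lit 1) (.e (nat_lit 48766) (nat_lit 0) .nil) .nil))) 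
(.lf (nat_lit 459515) (.g (nat_lit 2970) (.e (nat_lit 2797) (nat_lit 180) (.e (nat_lit 303143) (nat_lit 12) (.e (nat_lit 475185) (nat_lit 29) (.e (nat_lit 557100) (nat_lit 13) (.e (nat_lit 172088) (nat_lit 9) .nil))))) (.g (nat_lit 0) (.e (nat_lit 50274) (nat_lit 0) .nil) .nil)))) (.nd (nat_lit 9) 
(.lf (nat_lit 459259) (.g (nat_lit 3514) (.e (nat_lit 2797) (nat_lit 180) (.e (nat_lit 303117) (nat_lit 2) (.e (nat_lit 196672) (nat_lit 15) (.e (nat_lit 81954) (nat_lit 23) (.e (nat_lit 98325) (nat_lit 17) (.e (nat_lit 7008) (nat_lit 377) .nil)))))) (.g (nat_lit 1) (.e (nat_lit 49481) (nat_lit 0) .nil) .nil))) 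
(.lf (nat_lit 459771) (.g (nat_lit 433) (.e (nat_lit 2798) (nat_lit 180) (.e (nat_lit 303133) (nat_lit 9) (.e (nat_lit 426048) (nat_lit 0) .nil))) (.g (nat_lit 0) (.e (nat_lit 51093) (nat_lit 0) .nil) .nil)))))))))) (.nd (nat_lit 3) (.nd (nat_lit 4) (.nd (nat_lit 5) (.nd (nat_lit 6) (.nd (nat_lit 7) (.nd (nat_lit 8) (.nd (nat_lit 9) 
(.lf (nat_lit 458759) (.g (nat_lit 2700) (.e (nat_lit 2725) (nat_lit 172) (.e (nat_lit 237587) (nat_lit 2) (.e (nat_lit 196666) (nat_lit 13) (.e (nat_lit 65617) (nat_lit 10) (.e (nat_lit 344133) (nat_lit 26) (.e (nat_lit 557091) (nat_lit 12) (.e (nat_lit 163843) (nat_lit 0) (.e (nat_lit 6252) (nat_lit 337) .nil)))))))) (.g (nat_lit 1) (.e (nat_lit 48371) (nat_lit 0) .nil) .nil))) 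
(.lf (nat_lit 459271) (.g (nat_lit 2616) (.e (nat_lit 2797) (nat_lit 180) (.e (nat_lit 303117) (nat_lit 2) (.e (nat_lit 196672) (nat_lit 15) (.e (nat_lit 81956) (nat_lit 23) (.e (nat_lit 98325) (nat_lit 17) (.e (nat_lit 7936) (nat_lit 377) .nil)))))) (.g (nat_lit 1) (.e (nat_lit 49493) (nat_lit 0) .nil) .nil)))) (.nd (nat_lit 9) 
(.lf (nat_lit 459015) (.g (nat_lit 1978) (.e (nat_lit 2725) (nat_lit 172) (.e (nat_lit 237619) (nat_lit 12) (.e (nat_lit 475211) (nat_lit 41) (.e (nat_lit 712750) (nat_lit 29) (.e (nat_lit 442430) (nat_lit 24) (.e (nat_lit 229664) (nat_lit 240) .nil)))))) (.g (nat_lit 1) (.e (nat_lit 48781) (nat_lit 0) .nil) .nil))) 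
(.lf (nat_lit 459527) (.g (nat_lit 2567) (.e (nat_lit 2797) (nat_lit 180) (.e (nat_lit 303143) (nat_lit 12) (.e (nat_lit 475185) (nat_lit 29) (.e (nat_lit 557100) (nat_lit 13) (.e (nat_lit 179968) (nat_lit 9) .nil))))) (.g (nat_lit 0) (.e (nat_lit 50286) (nat_lit 0) .nil) .nil))))) (.nd (nat_lit 8) (.nd (nat_lit 9) 
(.lf (nat_lit 458887) (.g (nat_lit 2569) (.e (nat_lit 2725) (nat_lit 172) (.e (nat_lit 237593) (nat_lit 3) (.e (nat_lit 204868) (nat_lit 29) (.e (nat_lit 360475) (nat_lit 8) (.e (nat_lit 557089) (nat_lit 12) .nil))))) (.g (nat_lit 0) (.e (nat_lit 48597) (nat_lit 0) .nil) .nil))) 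
(.lf (nat_lit 459399) (.g (nat_lit 3637) (.e (nat_lit 2797) (nat_lit 180) (.e (nat_lit 303119) (nat_lit 3) (.e (nat_lit 204865) (nat_lit 28) (.e (nat_lit 352315) (nat_lit 23) (.e (nat_lit 98325) (nat_lit 17) (.e (nat_lit 6998) (nat_lit 377) .nil)))))) (.g (nat_lit 1) (.e (nat_lit 49754) (nat_lit 0) .nil) .nil)))) (.nd (nat_lit 9) 
(.lf (nat_lit 459143) (.g (nat_lit 3408) (.e (nat_lit 2770) (nat_lit 177) (.e (nat_lit 278552) (nat_lit 10) (.e (nat_lit 5395) (nat_lit 301) (.e (nat_lit 57464) (nat_lit 23) (.e (nat_lit 516151) (nat_lit 9) (.e (nat_lit 426211) (nat_lit 9) (.e (nat_lit 426125) (nat_lit 2) (.e (nat_lit 204544) (nat_lit 18) .nil)))))))) (.g (nat_lit 1) (.e (nat_lit 49154) (nat_lit 0) .nil) .nil))) 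
(.lf (nat_lit 459655) (.g (nat_lit 3107) (.e (nat_lit 2798) (nat_lit 180) (.e (nat_lit 303117) (nat_lit 2) (.e (nat_lit 196672) (nat_lit 15) (.e (nat_lit 81951) (nat_lit 22) (.e (nat_lit 90165) (nat_lit 12) (.e (nat_lit 164207) (nat_lit 176) .nil)))))) (.g (nat_lit 1) (.e (nat_lit 50820) (nat_lit 0) .nil) .nil)))))) (.nd (nat_lit 7) (.nd (nat_lit 8) (.nd (nat_lit 9) 
(.lf (nat_lit 458823) (.g (nat_lit 2583) (.e (nat_lit 2725) (nat_lit 172) (.e (nat_lit 237590) (nat_lit 2) (.e (nat_lit 196666) (nat_lit 13) (.e (nat_lit 65610) (nat_lit 10) (.e (nat_lit 344129) (nat_lit 26) (.e (nat_lit 557089) (nat_lit 12) (.e (nat_lit 163844) (nat_lit 0) (.e (nat_lit 6255) (nat_lit 337) .nil)))))))) (.g (nat_lit 1) (.e (nat_lit 48486) (nat_lit 0) .nil) .nil))) 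
(.lf (nat_lit 459335) (.g (nat_lit 3453) (.e (nat_lit 2797) (nat_lit 180) (.e (nat_lit 303119) (nat_lit 3) (.e (nat_lit 204838) (nat_lit 20) (.e (nat_lit 114715) (nat_lit 22) (.e (nat_lit 98048) (nat_lit 5) (.e (nat_lit 73755) (nat_lit 8) (.e (nat_lit 557119) (nat_lit 18) .nil))))))) (.g (nat_lit 1) (.e (nat_lit 49592) (nat_lit 0) .nil) .nil)))) (.nd (nat_lit 9) 
(.lf (nat_lit 459079) (.g (nat_lit 5441) (.e (nat_lit 2744) (nat_lit 174) (.e (nat_lit 253991) (nat_lit 11) (.e (nat_lit 16412) (nat_lit 2) (.e (nat_lit 196666) (nat_lit 13) (.e (nat_lit 65610) (nat_lit 10) (.e (nat_lit 344129) (nat_lit 26) (.e (nat_lit 557070) (nat_lit 9) .nil))))))) (.g (nat_lit 1) (.e (nat_lit 49071) (nat_lit 0) .nil) .nil))) 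
(.lf (nat_lit 459591) (.g (nat_lit 2630) (.e (nat_lit 2797) (nat_lit 180) (.e (nat_lit 303145) (nat_lit 13) (.e (nat_lit 483346) (nat_lit 17) (.e (nat_lit 976) (nat_lit 81) .nil)))) (.g (nat_lit 0) (.e (nat_lit 50427) (nat_lit 0) .nil) .nil))))) (.nd (nat_lit 8) (.nd (nat_lit 9) 
(.lf (nat_lit 458951) (.g (nat_lit 4284) (.e (nat_lit 2725) (nat_lit 172) (.e (nat_lit 237594) (nat_lit 3) (.e (nat_lit 204869) (nat_lit 29) (.e (nat_lit 360475) (nat_lit 8) (.e (nat_lit 557089) (nat_lit 12) (.e (nat_lit 163843) (nat_lit 0) (.e (nat_lit 6255) (nat_lit 337) .nil))))))) (.g (nat_lit 1) (.e (nat_lit 48679) (nat_lit 0) .nil) .nil))) 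
(.lf (nat_lit 459463) (.g (nat_lit 2213) (.e (nat_lit 2797) (nat_lit 180) (.e (nat_lit 303127) (nat_lit 9) (.e (nat_lit 426428) (nat_lit 17) (.e (nat_lit 98048) (nat_lit 6) (.e (nat_lit 81965) (nat_lit 26) (.e (nat_lit 155392) (nat_lit 14) .nil)))))) (.g (nat_lit 1) (.e (nat_lit 50016) (nat_lit 0) .nil) .nil)))) (.nd (nat_lit 9) 
(.lf (nat_lit 459207) (.g (nat_lit 2658) (.e (nat_lit 2797) (nat_lit 180) (.e (nat_lit 303117) (nat_lit 2) (.e (nat_lit 196665) (nat_lit 13) (.e (nat_lit 65604) (nat_lit 9) (.e (nat_lit 336013) (nat_lit 2) (.e (nat_lit 90165) (nat_lit 12) (.e (nat_lit 164207) (nat_lit 176) .nil))))))) (.g (nat_lit 1) (.e (nat_lit 49403) (nat_lit 0) .nil) .nil))) 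
(.lf (nat_lit 459719) (.g (nat_lit 3887) (.e (nat_lit 2798) (nat_lit 180) (.e (nat_lit 303119) (nat_lit 3) (.e (nat_lit 204859) (nat_lit 26) (.e (nat_lit 335872) (nat_lit 0) (.e (nat_lit 6713) (nat_lit 360) (.e (nat_lit 163962) (nat_lit 25) (.e (nat_lit 532482) (nat_lit 0) (.e (nat_lit 6203) (nat_lit 332) .nil)))))))) (.g (nat_lit 1) (.e (nat_lit 50941) (nat_lit 0) .nil) .nil))))))) 
(.nd (nat_lit 6) (.nd (nat_lit 7) (.nd (nat_lit 8) (.nd (nat_lit 9) 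
(.lf (nat_lit 458791) (.g (nat_lit 2668) (.e (nat_lit 2725) (nat_lit 172) (.e (nat_lit 237589) (nat_lit 2) (.e (nat_lit 196666) (nat_lit 13) (.e (nat_lit 65617) (nat_lit 10) (.e (nat_lit 344132) (nat_lit 26) (.e (nat_lit 557093) (nat_lit 12) (.e (nat_lit 163847) (nat_lit 0) (.e (nat_lit 6252) (nat_lit 337) .nil)))))))) (.g (nat_lit 1) (.e (nat_lit 48453) (nat_lit 0) .nil) .nil))) 
(.lf (nat_lit 459303) (.g (nat_lit 3071) (.e (nat_lit 2797) (nat_lit 180) (.e (nat_lit 303117) (nat_lit 2) (.e (nat_lit 196674) (nat_lit 15) (.e (nat_lit 81952) (nat_lit 22) (.e (nat_lit 90165) (nat_lit 12) (.e (nat_lit 164207) (nat_lit 176) .nil)))))) (.g (nat_lit 1) (.e (nat_lit 49529) (nat_lit 0) .nil) .nil)))) (.nd (nat_lit 9) 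
(.lf (nat_lit 459047) (.g (nat_lit 4225) (.e (nat_lit 2739) (nat_lit 174) (.e (nat_lit 253992) (nat_lit 11) (.e (nat_lit 16425) (nat_lit 7) (.e (nat_lit 409649) (nat_lit 18) (.e (nat_lit 303140) (nat_lit 10) (.e (nat_lit 434275) (nat_lit 39) (.e (nat_lit 663574) (nat_lit 9) .nil))))))) (.g (nat_lit 1) (.e (nat_lit 49006) (nat_lit 0) .nil) .nil))) 
(.lf (nat_lit 459559) (.g (nat_lit 2855) (.e (nat_lit 2797) (nat_lit 180) (.e (nat_lit 303143) (nat_lit 12) (.e (nat_lit 475185) (nat_lit 29) (.e (nat_lit 557101) (nat_lit 13) (.e (nat_lit 172097) (nat_lit 9) (.e (nat_lit 426119) (nat_lit 2) (.e (nat_lit 204544) (nat_lit 18) .nil))))))) (.g (nat_lit 1) (.e (nat_lit 50334) (nat_lit 0) .nil) .nil))))) (.nd (nat_lit 8) (.nd (nat_lit 9) 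
(.lf (nat_lit 458919) (.g (nat_lit 5901) (.e (nat_lit 2725) (nat_lit 172) (.e (nat_lit 237593) (nat_lit 3) (.e (nat_lit 204869) (nat_lit 29) (.e (nat_lit 360475) (nat_lit 8) (.e (nat_lit 557091) (nat_lit 12) (.e (nat_lit 163843) (nat_lit 0) (.e (nat_lit 6254) (nat_lit 337) .nil))))))) (.g (nat_lit 1) (.e (nat_lit 48632) (nat_lit 0) .nil) .nil))) 
(.lf (nat_lit 459431) (.g (nat_lit 6129) (.e (nat_lit 2797) (nat_lit 180) (.e (nat_lit 303119) (nat_lit 3) (.e (nat_lit 204868) (nat_lit 29) (.e (nat_lit 360475) (nat_lit 8) (.e (nat_lit 557084) (nat_lit 10) (.e (nat_lit 16128) (nat_lit 225) .nil)))))) (.g (nat_lit 1) (.e (nat_lit 49810) (nat_lit 0) .nil) .nil)))) (.nd (nat_lit 9) 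
(.lf (nat_lit 459175) (.g (nat_lit 2477) (.e (nat_lit 2796) (nat_lit 180) (.e (nat_lit 303117) (nat_lit 2) (.e (nat_lit 196674) (nat_lit 15) (.e (nat_lit 81954) (nat_lit 23) .nil)))) (.g (nat_lit 0) (.e (nat_lit 49312) (nat_lit 0) .nil) .nil))) 
(.lf (nat_lit 459687) (.g (nat_lit 2452) (.e (nat_lit 2798) (nat_lit 180) (.e (nat_lit 303117) (nat_lit 2) (.e (nat_lit 196674) (nat_lit 15) (.e (nat_lit 81954) (nat_lit 23) (.e (nat_lit 98325) (nat_lit 17) (.e (nat_lit 7936) (nat_lit 377) .nil)))))) (.g (nat_lit 1) (.e (nat_lit 50852) (nat_lit 0) .nil) .nil)))))) (.nd (nat_lit 7) (.nd (nat_lit 8) (.nd (nat_lit 9) 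
(.lf (nat_lit 458855) (.g (nat_lit 3410) (.e (nat_lit 2725) (nat_lit 172) (.e (nat_lit 237590) (nat_lit 2) (.e (nat_lit 196666) (nat_lit 13) (.e (nat_lit 65617) (nat_lit 10) (.e (nat_lit 344133) (nat_lit 26) (.e (nat_lit 557091) (nat_lit 12) (.e (nat_lit 163847) (nat_lit 0) (.e (nat_lit 6254) (nat_lit 337) .nil)))))))) (.g (nat_lit 1) (.e (nat_lit 48518) (nat_lit 0) .nil) .nil))) 
(.lf (nat_lit 459367) (.g (nat_lit 4203) (.e (nat_lit 2797) (nat_lit 180) (.e (nat_lit 303119) (nat_lit 3) (.e (nat_lit 204861) (nat_lit 26) (.e (nat_lit 336184) (nat_lit 11) (.e (nat_lit 368676) (nat_lit 21) (.e (nat_lit 516098) (nat_lit 0) (.e (nat_lit 7073) (nat_lit 377) .nil))))))) (.g (nat_lit 1) (.e (nat_lit 49712) (nat_lit 0) .nil) .nil)))) (.nd (nat_lit 9) 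
(.lf (nat_lit 459111) (.g (nat_lit 4151) (.e (nat_lit 2744) (nat_lit 174) (.e (nat_lit 253992) (nat_lit 11) (.e (nat_lit 16412) (nat_lit 2) (.e (nat_lit 196674) (nat_lit 15) (.e (nat_lit 81947) (nat_lit 20) (.e (nat_lit 1855) (nat_lit 124) (.e (nat_lit 557070) (nat_lit 9) .nil))))))) (.g (nat_lit 1) (.e (nat_lit 49105) (nat_lit 0) .nil) .nil))) 
(.lf (nat_lit 459623) (.g (nat_lit 3654) (.e (nat_lit 2798) (nat_lit 180) (.e (nat_lit 303117) (nat_lit 2) (.e (nat_lit 196666) (nat_lit 13) (.e (nat_lit 65599) (nat_lit 9) (.e (nat_lit 336013) (nat_lit 2) (.e (nat_lit 90165) (nat_lit 12) (.e (nat_lit 164207) (nat_lit 176) .nil))))))) (.g (nat_lit 1) (.e (nat_lit 50783) (nat_lit 0) .nil) .nil))))) (.nd (nat_lit 8) (.nd (nat_lit 9) 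
(.lf (nat_lit 458983) (.g (nat_lit 2928) (.e (nat_lit 2725) (nat_lit 172) (.e (nat_lit 237616) (nat_lit 12) (.e (nat_lit 475211) (nat_lit 41) (.e (nat_lit 712750) (nat_lit 29) (.e (nat_lit 442430) (nat_lit 24) (.e (nat_lit 229665) (nat_lit 240) .nil)))))) (.g (nat_lit 1) (.e (nat_lit 48742) (nat_lit 0) .nil) .nil))) 
(.lf (nat_lit 459495) (.g (nat_lit 262) (.e (nat_lit 2797) (nat_lit 180) (.e (nat_lit 303143) (nat_lit 12) (.e (nat_lit 475185) (nat_lit 29) .nil))) (.g (nat_lit 0) (.e (nat_lit 50177) (nat_lit 0) .nil) .nil)))) (.nd (nat_lit 9) 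
(.lf (nat_lit 459239) (.g (nat_lit 2273) (.e (nat_lit 2797) (nat_lit 180) (.e (nat_lit 303117) (nat_lit 2) (.e (nat_lit 196670) (nat_lit 14) (.e (nat_lit 73792) (nat_lit 45) (.e (nat_lit 1141) (nat_lit 84) .nil))))) (.g (nat_lit 0) (.e (nat_lit 49458) (nat_lit 0) .nil) .nil))) 
(.lf (nat_lit 459751) (.g (nat_lit 3120) (.e (nat_lit 2798) (nat_lit 180) (.e (nat_lit 303119) (nat_lit 3) (.e (nat_lit 204869) (nat_lit 29) (.e (nat_lit 360474) (nat_lit 8) (.e (nat_lit 557082) (nat_lit 10) (.e (nat_lit 16128) (nat_lit 225) .nil)))))) (.g (nat_lit 1) (.e (nat_lit 51035) (nat_lit 0) .nil) .nil)))))))) 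
(.nd (nat_lit 5) (.nd (nat_lit 6) (.nd (nat_lit 7) (.nd (nat_lit 8) (.nd (nat_lit 9) 
(.lf (nat_lit 458775) (.g (nat_lit 5379) (.e (nat_lit 2725) (nat_lit 172) (.e (nat_lit 237589) (nat_lit 2) (.e (nat_lit 196666) (nat_lit 13) (.e (nat_lit 65617) (nat_lit 10) (.e (nat_lit 344127) (nat_lit 26) (.e (nat_lit 557090) (nat_lit 12) (.e (nat_lit 163843) (nat_lit 0) (.e (nat_lit 6255) (nat_lit 337) .nil)))))))) (.g (nat_lit 1) (.e (nat_lit 48437) (nat_lit 0) .nil) .nil))) 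
(.lf (nat_lit 459287) (.g (nat_lit 3303) (.e (nat_lit 2797) (nat_lit 180) (.e (nat_lit 303117) (nat_lit 2) (.e (nat_lit 196673) (nat_lit 15) (.e (nat_lit 81956) (nat_lit 23) (.e (nat_lit 98325) (nat_lit 17) (.e (nat_lit 7008) (nat_lit 377) .nil)))))) (.g (nat_lit 1) (.e (nat_lit 49509) (nat_lit 0) .nil) .nil)))) (.nd (nat_lit 9) 
(.lf (nat_lit 459031) (.g (nat_lit 1307) (.e (nat_lit 2739) (nat_lit 174) (.e (nat_lit 253988) (nat_lit 11) (.e (nat_lit 16465) (nat_lit 13) (.e (nat_lit 491264) (nat_lit 17) (.e (nat_lit 6223) (nat_lit 334) (.e (nat_lit 123169) (nat_lit 256) .nil)))))) (.g (nat_lit 1) (.e (nat_lit 48983) (nat_lit 0) .nil) .nil))) 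
(.lf (nat_lit 459543) (.g (nat_lit 3127) (.e (nat_lit 2797) (nat_lit 180) (.e (nat_lit 303143) (nat_lit 12) (.e (nat_lit 475185) (nat_lit 29) (.e (nat_lit 557100) (nat_lit 13) (.e (nat_lit 172113) (nat_lit 10) (.e (nat_lit 434222) (nat_lit 19) (.e (nat_lit 507648) (nat_lit 0) .nil))))))) (.g (nat_lit 1) (.e (nat_lit 50311) (nat_lit 0) .nil) .nil))))) (.nd (nat_lit 8) (.nd (nat_lit 9) 
(.lf (nat_lit 458903) (.g (nat_lit 3772) (.e (nat_lit 2725) (nat_lit 172) (.e (nat_lit 237593) (nat_lit 3) (.e (nat_lit 204869) (nat_lit 29) (.e (nat_lit 360474) (nat_lit 8) (.e (nat_lit 557091) (nat_lit 12) (.e (nat_lit 163847) (nat_lit 0) (.e (nat_lit 6252) (nat_lit 337) .nil))))))) (.g (nat_lit 1) (.e (nat_lit 48616) (nat_lit 0) .nil) .nil))) 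
(.lf (nat_lit 459415) (.g (nat_lit 2567) (.e (nat_lit 2797) (nat_lit 180) (.e (nat_lit 303119) (nat_lit 3) (.e (nat_lit 204868) (nat_lit 29) (.e (nat_lit 360466) (nat_lit 3) (.e (nat_lit 516096) (nat_lit 0) .nil))))) (.g (nat_lit 0) (.e (nat_lit 49794) (nat_lit 0) .nil) .nil)))) (.nd (nat_lit 9) 
(.lf (nat_lit 459159) (.g (nat_lit 3260) (.e (nat_lit 2795) (nat_lit 180) (.e (nat_lit 303143) (nat_lit 12) (.e (nat_lit 475185) (nat_lit 29) (.e (nat_lit 557107) (nat_lit 15) (.e (nat_lit 188447) (nat_lit 22) (.e (nat_lit 196687) (nat_lit 18) .nil)))))) (.g (nat_lit 1) (.e (nat_lit 49251) (nat_lit 0) .nil) .nil))) 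
(.lf (nat_lit 459671) (.g (nat_lit 3513) (.e (nat_lit 2798) (nat_lit 180) (.e (nat_lit 303117) (nat_lit 2) (.e (nat_lit 196673) (nat_lit 15) (.e (nat_lit 81956) (nat_lit 23) (.e (nat_lit 98325) (nat_lit 17) (.e (nat_lit 7008) (nat_lit 377) .nil)))))) (.g (nat_lit 1) (.e (nat_lit 50836) (nat_lit 0) .nil) .nil)))))) (.nd (nat_lit 7) (.nd (nat_lit 8) (.nd (nat_lit 9) 
(.lf (nat_lit 458839) (.g (nat_lit 2487) (.e (nat_lit 2725) (nat_lit 172) (.e (nat_lit 237590) (nat_lit 2) (.e (nat_lit 196666) (nat_lit 13) (.e (nat_lit 65617) (nat_lit 10) (.e (nat_lit 344130) (nat_lit 26) (.e (nat_lit 557090) (nat_lit 12) (.e (nat_lit 163849) (nat_lit 0) (.e (nat_lit 6254) (nat_lit 337) .nil)))))))) (.g (nat_lit 1) (.e (nat_lit 48502) (nat_lit 0) .nil) .nil))) 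
(.lf (nat_lit 459351) (.g (nat_lit 2269) (.e (nat_lit 2797) (nat_lit 180) (.e (nat_lit 303119) (nat_lit 3) (.e (nat_lit 204855) (nat_lit 26) (.e (nat_lit 336111) (nat_lit 9) .nil)))) (.g (nat_lit 0) (.e (nat_lit 49670) (nat_lit 0) .nil) .nil)))) (.nd (nat_lit 9) 
(.lf (nat_lit 459095) (.g (nat_lit 4731) (.e (nat_lit 2744) (nat_lit 174) (.e (nat_lit 253991) (nat_lit 11) (.e (nat_lit 16416) (nat_lit 3) (.e (nat_lit 204877) (nat_lit 31) (.e (nat_lit 376855) (nat_lit 20) (.e (nat_lit 1856) (nat_lit 124) (.e (nat_lit 557070) (nat_lit 9) .nil))))))) (.g (nat_lit 1) (.e (nat_lit 49087) (nat_lit 0) .nil) .nil))) 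
(.lf (nat_lit 459607) (.g (nat_lit 4156) (.e (nat_lit 2798) (nat_lit 180) (.e (nat_lit 303116) (nat_lit 2) (.e (nat_lit 196666) (nat_lit 13) (.e (nat_lit 65610) (nat_lit 10) (.e (nat_lit 344117) (nat_lit 21) (.e (nat_lit 516099) (nat_lit 0) (.e (nat_lit 7936) (nat_lit 377) .nil))))))) (.g (nat_lit 1) (.e (nat_lit 50765) (nat_lit 0) .nil) .nil))))) (.nd (nat_lit 8) (.nd (nat_lit 9) 
(.lf (nat_lit 458967) (.g (nat_lit 1303) (.e (nat_lit 2725) (nat_lit 172) (.e (nat_lit 237615) (nat_lit 12) (.e (nat_lit 475210) (nat_lit 41) (.e (nat_lit 712755) (nat_lit 30) (.e (nat_lit 450568) (nat_lit 0) (.e (nat_lit 5448) (nat_lit 306) .nil)))))) (.g (nat_lit 1) (.e (nat_lit 48725) (nat_lit 0) .nil) .nil))) 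
(.lf (nat_lit 459479) (.g (nat_lit 1688) (.e (nat_lit 2797) (nat_lit 180) (.e (nat_lit 303133) (nat_lit 9) (.e (nat_lit 426412) (nat_lit 15) (.e (nat_lit 7936) (nat_lit 124) (.e (nat_lit 557109) (nat_lit 15) (.e (nat_lit 188449) (nat_lit 22) (.e (nat_lit 204544) (nat_lit 18) .nil))))))) (.g (nat_lit 1) (.e (nat_lit 50064) (nat_lit 0) .nil) .nil)))) (.nd (nat_lit 9) 
(.lf (nat_lit 459223) (.g (nat_lit 5051) (.e (nat_lit 2797) (nat_lit 180) (.e (nat_lit 303117) (nat_lit 2) (.e (nat_lit 196666) (nat_lit 13) (.e (nat_lit 65610) (nat_lit 10) (.e (nat_lit 344117) (nat_lit 21) (.e (nat_lit 516106) (nat_lit 0) (.e (nat_lit 7936) (nat_lit 377) .nil))))))) (.g (nat_lit 1) (.e (nat_lit 49427) (nat_lit 0) .nil) .nil))) 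
(.lf (nat_lit 459735) (.g (nat_lit 2882) (.e (nat_lit 2798) (nat_lit 180) (.e (nat_lit 303119) (nat_lit 3) (.e (nat_lit 204867) (nat_lit 28) (.e (nat_lit 352315) (nat_lit 23) (.e (nat_lit 98325) (nat_lit 17) (.e (nat_lit 7008) (nat_lit 377) .nil)))))) (.g (nat_lit 1) (.e (nat_lit 50978) (nat_lit 0) .nil) .nil))))))) (.nd (nat_lit 6) (.nd (nat_lit 7) (.nd (nat_lit 8) (.nd (nat_lit 9) 
(.lf (nat_lit 458807) (.g (nat_lit 2595) (.e (nat_lit 2725) (nat_lit 172) (.e (nat_lit 237589) (nat_lit 2) (.e (nat_lit 196666) (nat_lit 13) (.e (nat_lit 65617) (nat_lit 10) (.e (nat_lit 344133) (nat_lit 26) (.e (nat_lit 557091) (nat_lit 12) (.e (nat_lit 163840) (nat_lit 0) (.e (nat_lit 6252) (nat_lit 337) .nil)))))))) (.g (nat_lit 1) (.e (nat_lit 48469) (nat_lit 0) .nil) .nil))) 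
(.lf (nat_lit 459319) (.g (nat_lit 2607) (.e (nat_lit 2797) (nat_lit 180) (.e (nat_lit 303117) (nat_lit 2) (.e (nat_lit 196674) (nat_lit 15) (.e (nat_lit 81955) (nat_lit 23) (.e (nat_lit 98325) (nat_lit 17) (.e (nat_lit 6998) (nat_lit 377) .nil)))))) (.g (nat_lit 1) (.e (nat_lit 49546) (nat_lit 0) .nil) .nil)))) (.nd (nat_lit 9) 
(.lf (nat_lit 459063) (.g (nat_lit 2803) (.e (nat_lit 2741) (nat_lit 174) (.e (nat_lit 253991) (nat_lit 11) (.e (nat_lit 16416) (nat_lit 3) (.e (nat_lit 204868) (nat_lit 29) (.e (nat_lit 360473) (nat_lit 8) .nil))))) (.g (nat_lit 0) (.e (nat_lit 49039) (nat_lit 0) .nil) .nil))) 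
(.lf (nat_lit 459575) (.g (nat_lit 2966) (.e (nat_lit 2797) (nat_lit 180) (.e (nat_lit 303143) (nat_lit 12) (.e (nat_lit 475185) (nat_lit 29) (.e (nat_lit 557107) (nat_lit 15) (.e (nat_lit 188447) (nat_lit 22) (.e (nat_lit 204544) (nat_lit 18) .nil)))))) (.g (nat_lit 1) (.e (nat_lit 50365) (nat_lit 0) .nil) .nil))))) (.nd (nat_lit 8) (.nd (nat_lit 9) 
(.lf (nat_lit 458935) (.g (nat_lit 2699) (.e (nat_lit 2725) (nat_lit 172) (.e (nat_lit 237594) (nat_lit 3) (.e (nat_lit 204868) (nat_lit 29) (.e (nat_lit 360475) (nat_lit 8) (.e (nat_lit 557091) (nat_lit 12) .nil))))) (.g (nat_lit 0) (.e (nat_lit 48659) (nat_lit 0) .nil) .nil))) 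
(.lf (nat_lit 459447) (.g (nat_lit 3098) (.e (nat_lit 2797) (nat_lit 180) (.e (nat_lit 303119) (nat_lit 3) (.e (nat_lit 204869) (nat_lit 29) (.e (nat_lit 360474) (nat_lit 8) (.e (nat_lit 557082) (nat_lit 10) (.e (nat_lit 16128) (nat_lit 225) .nil)))))) (.g (nat_lit 1) (.e (nat_lit 49956) (nat_lit 0) .nil) .nil)))) (.nd (nat_lit 9) 
(.lf (nat_lit 459191) (.g (nat_lit 3360) (.e (nat_lit 2797) (nat_lit 180) (.e (nat_lit 303116) (nat_lit 2) (.e (nat_lit 196666) (nat_lit 13) (.e (nat_lit 65610) (nat_lit 10) (.e (nat_lit 344117) (nat_lit 21) (.e (nat_lit 516098) (nat_lit 0) (.e (nat_lit 7073) (nat_lit 377) .nil))))))) (.g (nat_lit 1) (.e (nat_lit 49379) (nat_lit 0) .nil) .nil))) 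
(.lf (nat_lit 459703) (.g (nat_lit 2446) (.e (nat_lit 2798) (nat_lit 180) (.e (nat_lit 303118) (nat_lit 3) (.e (nat_lit 204868) (nat_lit 29) (.e (nat_lit 360466) (nat_lit 3) (.e (nat_lit 516105) (nat_lit 0) .nil))))) (.g (nat_lit 0) (.e (nat_lit 50877) (nat_lit 0) .nil) .nil)))))) (.nd (nat_lit 7) (.nd (nat_lit 8) (.nd (nat_lit 9) 
(.lf (nat_lit 458871) (.g (nat_lit 2469) (.e (nat_lit 2725) (nat_lit 172) (.e (nat_lit 237592) (nat_lit 3) (.e (nat_lit 204869) (nat_lit 29) (.e (nat_lit 360474) (nat_lit 8) (.e (nat_lit 557094) (nat_lit 12) (.e (nat_lit 163847) (nat_lit 0) (.e (nat_lit 6252) (nat_lit 337) .nil))))))) (.g (nat_lit 1) (.e (nat_lit 48578) (nat_lit 0) .nil) .nil))) 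
(.lf (nat_lit 459383) (.g (nat_lit 3136) (.e (nat_lit 2797) (nat_lit 180) (.e (nat_lit 303119) (nat_lit 3) (.e (nat_lit 204861) (nat_lit 26) (.e (nat_lit 336186) (nat_lit 11) (.e (nat_lit 368676) (nat_lit 21) (.e (nat_lit 516112) (nat_lit 0) (.e (nat_lit 7936) (nat_lit 377) .nil))))))) (.g (nat_lit 1) (.e (nat_lit 49728) (nat_lit 0) .nil) .nil)))) (.nd (nat_lit 9) 
(.lf (nat_lit 459127) (.g (nat_lit 2800) (.e (nat_lit 2756) (nat_lit 176) (.e (nat_lit 270373) (nat_lit 16) (.e (nat_lit 286734) (nat_lit 3) (.e (nat_lit 98359) (nat_lit 26) (.e (nat_lit 426211) (nat_lit 9) (.e (nat_lit 426125) (nat_lit 2) (.e (nat_lit 204544) (nat_lit 18) .nil))))))) (.g (nat_lit 1) (.e (nat_lit 49124) (nat_lit 0) .nil) .nil))) 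
(.lf (nat_lit 459639) (.g (nat_lit 3854) (.e (nat_lit 2798) (nat_lit 180) (.e (nat_lit 303117) (nat_lit 2) (.e (nat_lit 196666) (nat_lit 13) (.e (nat_lit 65617) (nat_lit 10) (.e (nat_lit 344117) (nat_lit 21) (.e (nat_lit 516097) (nat_lit 0) (.e (nat_lit 7073) (nat_lit 377) .nil))))))) (.g (nat_lit 1) (.e (nat_lit 50802) (nat_lit 0) .nil) .nil))))) (.nd (nat_lit 8) (.nd (nat_lit 9) 
(.lf (nat_lit 458999) (.g (nat_lit 2384) (.e (nat_lit 2725) (nat_lit 172) (.e (nat_lit 237617) (nat_lit 12) (.e (nat_lit 475211) (nat_lit 41) (.e (nat_lit 712755) (nat_lit 30) (.e (nat_lit 450569) (nat_lit 0) (.e (nat_lit 5448) (nat_lit 306) .nil)))))) (.g (nat_lit 1) (.e (nat_lit 48762) (nat_lit 0) .nil) .nil))) 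
(.lf (nat_lit 459511) (.g (nat_lit 4306) (.e (nat_lit 2797) (nat_lit 180) (.e (nat_lit 303143) (nat_lit 12) (.e (nat_lit 475185) (nat_lit 29) (.e (nat_lit 557098) (nat_lit 13) (.e (nat_lit 172098) (nat_lit 9) .nil))))) (.g (nat_lit 0) (.e (nat_lit 50266) (nat_lit 0) .nil) .nil)))) (.nd (nat_lit 9) 
(.lf (nat_lit 459255) (.g (nat_lit 3373) (.e (nat_lit 2797) (nat_lit 180) (.e (nat_lit 303117) (nat_lit 2) (.e (nat_lit 196672) (nat_lit 15) (.e (nat_lit 81954) (nat_lit 23) (.e (nat_lit 98323) (nat_lit 17) (.e (nat_lit 7011) (nat_lit 377) .nil)))))) (.g (nat_lit 1) (.e (nat_lit 49477) (nat_lit 0) .nil) .nil))) 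
(.lf (nat_lit 459767) (.g (nat_lit 2345) (.e (nat_lit 2798) (nat_lit 180) (.e (nat_lit 303119) (nat_lit 3) (.e (nat_lit 204878) (nat_lit 31) (.e (nat_lit 376864) (nat_lit 22) (.e (nat_lit 90165) (nat_lit 12) (.e (nat_lit 171776) (nat_lit 176) .nil)))))) (.g (nat_lit 1) (.e (nat_lit 51066) (nat_lit 0) .nil) .nil))))))))) 
(.nd (nat_lit 4) (.nd (nat_lit 5) (.nd (nat_lit 6) (.nd (nat_lit 7) (.nd (nat_lit 8) 
(.nd (nat_lit 9) 
(.lf (nat_lit 458767) (.g (nat_lit 4190) (.e (nat_lit 2725) (nat_lit 172) (.e (nat_lit 237589) (nat_lit 2) (.e (nat_lit 196666) (nat_lit 13) (.e (nat_lit 65610) (nat_lit 10) (.e (nat_lit 344129) (nat_lit 26) (.e (nat_lit 557089) (nat_lit 12) (.e (nat_lit 163844) (nat_lit 0) (.e (nat_lit 6254) (nat_lit 337) .nil)))))))) (.g (nat_lit 1) (.e (nat_lit 48429) (nat_lit 0) .nil) .nil))) 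
(.lf (nat_lit 459279) (.g (nat_lit 2620) (.e (nat_lit 2797) (nat_lit 180) (.e (nat_lit 303117) (nat_lit 2) (.e (nat_lit 196673) (nat_lit 15) (.e (nat_lit 81956) (nat_lit 23) (.e (nat_lit 98319) (nat_lit 17) (.e (nat_lit 7071) (nat_lit 377) .nil)))))) (.g (nat_lit 1) (.e (nat_lit 49501) (nat_lit 0) .nil) .nil)))) (.nd (nat_lit 9) 
(.lf (nat_lit 459023) (.g (nat_lit 2900) (.e (nat_lit 2725) (nat_lit 172) (.e (nat_lit 237619) (nat_lit 12) (.e (nat_lit 475211) (nat_lit 41) (.e (nat_lit 712755) (nat_lit 30) (.e (nat_lit 450569) (nat_lit 0) (.e (nat_lit 5448) (nat_lit 306) .nil)))))) (.g (nat_lit 1) (.e (nat_lit 48789) (nat_lit 0) .nil) .nil))) 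
(.lf (nat_lit 459535) (.g (nat_lit 3365) (.e (nat_lit 2797) (nat_lit 180) (.e (nat_lit 303143) (nat_lit 12) (.e (nat_lit 475185) (nat_lit 29) (.e (nat_lit 557100) (nat_lit 13) (.e (nat_lit 172106) (nat_lit 10) (.e (nat_lit 434221) (nat_lit 19) (.e (nat_lit 507648) (nat_lit 0) .nil))))))) (.g (nat_lit 1) (.e (nat_lit 50298) (nat_lit 0) .nil) .nil))))) (.nd (nat_lit 8) (.nd (nat_lit 9) 
(.lf (nat_lit 458895) (.g (nat_lit 3457) (.e (nat_lit 2725) (nat_lit 172) (.e (nat_lit 237593) (nat_lit 3) (.e (nat_lit 204869) (nat_lit 29) (.e (nat_lit 360474) (nat_lit 8) (.e (nat_lit 557089) (nat_lit 12) (.e (nat_lit 163848) (nat_lit 0) (.e (nat_lit 6250) (nat_lit 337) .nil))))))) (.g (nat_lit 1) (.e (nat_lit 48605) (nat_lit 0) .nil) .nil))) 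
(.lf (nat_lit 459407) (.g (nat_lit 3229) (.e (nat_lit 2797) (nat_lit 180) (.e (nat_lit 303119) (nat_lit 3) (.e (nat_lit 204867) (nat_lit 28) (.e (nat_lit 352312) (nat_lit 22) (.e (nat_lit 90165) (nat_lit 12) (.e (nat_lit 164210) (nat_lit 176) .nil)))))) (.g (nat_lit 1) (.e (nat_lit 49785) (nat_lit 0) .nil) .nil)))) (.nd (nat_lit 9) 
(.lf (nat_lit 459151) (.g (nat_lit 3128) (.e (nat_lit 2795) (nat_lit 180) (.e (nat_lit 303119) (nat_lit 3) (.e (nat_lit 204868) (nat_lit 29) (.e (nat_lit 360466) (nat_lit 3) (.e (nat_lit 516097) (nat_lit 0) (.e (nat_lit 7073) (nat_lit 377) .nil)))))) (.g (nat_lit 1) (.e (nat_lit 49235) (nat_lit 0) .nil) .nil))) 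
(.lf (nat_lit 459663) (.g (nat_lit 3210) (.e (nat_lit 2798) (nat_lit 180) (.e (nat_lit 303117) (nat_lit 2) (.e (nat_lit 196672) (nat_lit 15) (.e (nat_lit 81954) (nat_lit 23) (.e (nat_lit 98325) (nat_lit 17) (.e (nat_lit 7936) (nat_lit 377) .nil)))))) (.g (nat_lit 1) (.e (nat_lit 50828) (nat_lit 0) .nil) .nil)))))) (.nd (nat_lit 7) (.nd (nat_lit 8) (.nd (nat_lit 9) 
(.lf (nat_lit 458831) (.g (nat_lit 3207) (.e (nat_lit 2725) (nat_lit 172) (.e (nat_lit 237590) (nat_lit 2) (.e (nat_lit 196666) (nat_lit 13) (.e (nat_lit 65617) (nat_lit 10) (.e (nat_lit 344130) (nat_lit 26) (.e (nat_lit 557089) (nat_lit 12) (.e (nat_lit 163844) (nat_lit 0) (.e (nat_lit 6255) (nat_lit 337) .nil)))))))) (.g (nat_lit 1) (.e (nat_lit 48494) (nat_lit 0) .nil) .nil))) 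
(.lf (nat_lit 459343) (.g (nat_lit 3914) (.e (nat_lit 2797) (nat_lit 180) (.e (nat_lit 303119) (nat_lit 3) (.e (nat_lit 204855) (nat_lit 26) (.e (nat_lit 336073) (nat_lit 9) (.e (nat_lit 336013) (nat_lit 2) (.e (nat_lit 90165) (nat_lit 12) (.e (nat_lit 164210) (nat_lit 176) .nil))))))) (.g (nat_lit 1) (.e (nat_lit 49646) (nat_lit 0) .nil) .nil)))) (.nd (nat_lit 9) 
(.lf (nat_lit 459087) (.g (nat_lit 762) (.e (nat_lit 2744) (nat_lit 174) (.e (nat_lit 253991) (nat_lit 11) (.e (nat_lit 16413) (nat_lit 2) .nil))) (.g (nat_lit 0) (.e (nat_lit 49079) (nat_lit 0) .nil) .nil))) 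
(.lf (nat_lit 459599) (.g (nat_lit 189) (.e (nat_lit 2797) (nat_lit 180) (.e (nat_lit 303145) (nat_lit 13) (.e (nat_lit 483405) (nat_lit 26) .nil))) (.g (nat_lit 0) (.e (nat_lit 50594) (nat_lit 0) .nil) .nil))))) (.nd (nat_lit 8) (.nd (nat_lit 9) 
(.lf (nat_lit 458959) (.g (nat_lit 3916) (.e (nat_lit 2725) (nat_lit 172) (.e (nat_lit 237594) (nat_lit 3) (.e (nat_lit 204869) (nat_lit 29) (.e (nat_lit 360475) (nat_lit 8) (.e (nat_lit 557091) (nat_lit 12) (.e (nat_lit 163847) (nat_lit 0) (.e (nat_lit 6252) (nat_lit 337) .nil))))))) (.g (nat_lit 1) (.e (nat_lit 48687) (nat_lit 0) .nil) .nil))) 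
(.lf (nat_lit 459471) (.g (nat_lit 4427) (.e (nat_lit 2797) (nat_lit 180) (.e (nat_lit 303133) (nat_lit 9) (.e (nat_lit 426412) (nat_lit 15) (.e (nat_lit 1846) (nat_lit 124) (.e (nat_lit 557109) (nat_lit 15) (.e (nat_lit 188449) (nat_lit 22) (.e (nat_lit 204544) (nat_lit 18) .nil))))))) (.g (nat_lit 1) (.e (nat_lit 50046) (nat_lit 0) .nil) .nil)))) (.nd (nat_lit 9) 
(.lf (nat_lit 459215) (.g (nat_lit 4187) (.e (nat_lit 2797) (nat_lit 180) (.e (nat_lit 303117) (nat_lit 2) (.e (nat_lit 196666) (nat_lit 13) (.e (nat_lit 65610) (nat_lit 10) (.e (nat_lit 344117) (nat_lit 21) (.e (nat_lit 516098) (nat_lit 0) (.e (nat_lit 7073) (nat_lit 377) .nil))))))) (.g (nat_lit 1) (.e (nat_lit 49419) (nat_lit 0) .nil) .nil))) 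
(.lf (nat_lit 459727) (.g (nat_lit 2533) (.e (nat_lit 2798) (nat_lit 180) (.e (nat_lit 303119) (nat_lit 3) (.e (nat_lit 204861) (nat_lit 26) (.e (nat_lit 336186) (nat_lit 11) (.e (nat_lit 368676) (nat_lit 21) (.e (nat_lit 516097) (nat_lit 0) (.e (nat_lit 7936) (nat_lit 377) .nil))))))) (.g (nat_lit 1) (.e (nat_lit 50949) (nat_lit 0) .nil) .nil))))))) 
(.nd (nat_lit 6) (.nd (nat_lit 7) (.nd (nat_lit 8) (.nd (nat_lit 9) 
(.lf (nat_lit 458799) (.g (nat_lit 2147) (.e (nat_lit 2725) (nat_lit 172) (.e (nat_lit 237589) (nat_lit 2) (.e (nat_lit 196666) (nat_lit 13) (.e (nat_lit 65617) (nat_lit 10) (.e (nat_lit 344133) (nat_lit 26) .nil))))) (.g (nat_lit 0) (.e (nat_lit 48461) (nat_lit 0) .nil) .nil))) 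
(.lf (nat_lit 459311) (.g (nat_lit 1183) (.e (nat_lit 2797) (nat_lit 180) (.e (nat_lit 303117) (nat_lit 2) (.e (nat_lit 196674) (nat_lit 15) (.e (nat_lit 81954) (nat_lit 23) .nil)))) (.g (nat_lit 0) (.e (nat_lit 49538) (nat_lit 0) .nil) .nil)))) (.nd (nat_lit 9) 
(.lf (nat_lit 459055) (.g (nat_lit 1973) (.e (nat_lit 2741) (nat_lit 174) (.e (nat_lit 253990) (nat_lit 11) (.e (nat_lit 16412) (nat_lit 2) (.e (nat_lit 196674) (nat_lit 15) (.e (nat_lit 81944) (nat_lit 20) .nil))))) (.g (nat_lit 0) (.e (nat_lit 49019) (nat_lit 0) .nil) .nil))) 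
(.lf (nat_lit 459567) (.g (nat_lit 3270) (.e (nat_lit 2797) (nat_lit 180) (.e (nat_lit 303143) (nat_lit 12) (.e (nat_lit 475185) (nat_lit 29) (.e (nat_lit 557107) (nat_lit 15) (.e (nat_lit 188433) (nat_lit 20) (.e (nat_lit 3114) (nat_lit 193) (.e (nat_lit 499776) (nat_lit 0) .nil))))))) (.g (nat_lit 1) (.e (nat_lit 50353) (nat_lit 0) .nil) .nil))))) (.nd (nat_lit 8) (.nd (nat_lit 9) 
(.lf (nat_lit 458927) (.g (nat_lit 3169) (.e (nat_lit 2725) (nat_lit 172) (.e (nat_lit 237594) (nat_lit 3) (.e (nat_lit 204868) (nat_lit 29) (.e (nat_lit 360473) (nat_lit 8) (.e (nat_lit 557091) (nat_lit 12) (.e (nat_lit 163844) (nat_lit 0) (.e (nat_lit 6254) (nat_lit 337) .nil))))))) (.g (nat_lit 1) (.e (nat_lit 48646) (nat_lit 0) .nil) .nil))) 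
(.lf (nat_lit 459439) (.g (nat_lit 2703) (.e (nat_lit 2797) (nat_lit 180) (.e (nat_lit 303119) (nat_lit 3) (.e (nat_lit 204869) (nat_lit 29) (.e (nat_lit 360459) (nat_lit 1) .nil)))) (.g (nat_lit 0) (.e (nat_lit 49871) (nat_lit 0) .nil) .nil)))) (.nd (nat_lit 9) 
(.lf (nat_lit 459183) (.g (nat_lit 1540) (.e (nat_lit 2796) (nat_lit 180) (.e (nat_lit 303143) (nat_lit 12) (.e (nat_lit 475185) (nat_lit 29) (.e (nat_lit 557100) (nat_lit 13) .nil)))) (.g (nat_lit 0) (.e (nat_lit 49336) (nat_lit 0) .nil) .nil))) 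
(.lf (nat_lit 459695) (.g (nat_lit 3329) (.e (nat_lit 2798) (nat_lit 180) (.e (nat_lit 303117) (nat_lit 2) (.e (nat_lit 196674) (nat_lit 15) (.e (nat_lit 81956) (nat_lit 23) (.e (nat_lit 98325) (nat_lit 17) (.e (nat_lit 6966) (nat_lit 377) .nil)))))) (.g (nat_lit 1) (.e (nat_lit 50860) (nat_lit 0) .nil) .nil)))))) (.nd (nat_lit 7) (.nd (nat_lit 8) (.nd (nat_lit 9) 
(.lf (nat_lit 458863) (.g (nat_lit 3593) (.e (nat_lit 2725) (nat_lit 172) (.e (nat_lit 237592) (nat_lit 3) (.e (nat_lit 204869) (nat_lit 29) (.e (nat_lit 360474) (nat_lit 8) (.e (nat_lit 557089) (nat_lit 12) (.e (nat_lit 163848) (nat_lit 0) (.e (nat_lit 6255) (nat_lit 337) .nil))))))) (.g (nat_lit 1) (.e (nat_lit 48567) (nat_lit 0) .nil) .nil))) 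
(.lf (nat_lit 459375) (.g (nat_lit 5059) (.e (nat_lit 2797) (nat_lit 180) (.e (nat_lit 303119) (nat_lit 3) (.e (nat_lit 204861) (nat_lit 26) (.e (nat_lit 336186) (nat_lit 11) (.e (nat_lit 368676) (nat_lit 21) (.e (nat_lit 516097) (nat_lit 0) (.e (nat_lit 7073) (nat_lit 377) .nil))))))) (.g (nat_lit 1) (.e (nat_lit 49720) (nat_lit 0) .nil) .nil)))) (.nd (nat_lit 9) 
(.lf (nat_lit 459119) (.g (nat_lit 2894) (.e (nat_lit 2744) (nat_lit 174) (.e (nat_lit 253992) (nat_lit 11) (.e (nat_lit 16425) (nat_lit 7) (.e (nat_lit 409648) (nat_lit 18) (.e (nat_lit 303137) (nat_lit 10) (.e (nat_lit 434275) (nat_lit 39) (.e (nat_lit 663573) (nat_lit 9) .nil))))))) (.g (nat_lit 1) (.e (nat_lit 49113) (nat_lit 0) .nil) .nil))) 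
(.lf (nat_lit 459631) (.g (nat_lit 4877) (.e (nat_lit 2798) (nat_lit 180) (.e (nat_lit 303117) (nat_lit 2) (.e (nat_lit 196666) (nat_lit 13) (.e (nat_lit 65610) (nat_lit 10) (.e (nat_lit 344117) (nat_lit 21) (.e (nat_lit 516099) (nat_lit 0) (.e (nat_lit 7936) (nat_lit 377) .nil))))))) (.g (nat_lit 1) (.e (nat_lit 50794) (nat_lit 0) .nil) .nil))))) (.nd (nat_lit 8) (.nd (nat_lit 9) 
(.lf (nat_lit 458991) (.g (nat_lit 2128) (.e (nat_lit 2725) (nat_lit 172) (.e (nat_lit 237617) (nat_lit 12) (.e (nat_lit 475199) (nat_lit 40) (.e (nat_lit 704598) (nat_lit 6) (.e (nat_lit 188453) (nat_lit 24) (.e (nat_lit 229665) (nat_lit 240) .nil)))))) (.g (nat_lit 1) (.e (nat_lit 48751) (nat_lit 0) .nil) .nil))) 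
(.lf (nat_lit 459503) (.g (nat_lit 4345) (.e (nat_lit 2797) (nat_lit 180) (.e (nat_lit 303143) (nat_lit 12) (.e (nat_lit 475185) (nat_lit 29) (.e (nat_lit 557098) (nat_lit 13) (.e (nat_lit 172085) (nat_lit 9) (.e (nat_lit 426125) (nat_lit 2) (.e (nat_lit 204544) (nat_lit 18) .nil))))))) (.g (nat_lit 1) (.e (nat_lit 50258) (nat_lit 0) .nil) .nil)))) (.nd (nat_lit 9) 
(.lf (nat_lit 459247) (.g (nat_lit 3220) (.e (nat_lit 2797) (nat_lit 180) (.e (nat_lit 303117) (nat_lit 2) (.e (nat_lit 196672) (nat_lit 15) (.e (nat_lit 81953) (nat_lit 22) (.e (nat_lit 90165) (nat_lit 12) (.e (nat_lit 164209) (nat_lit 176) .nil)))))) (.g (nat_lit 1) (.e (nat_lit 49469) (nat_lit 0) .nil) .nil))) 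
(.lf (nat_lit 459759) (.g (nat_lit 2824) (.e (nat_lit 2798) (nat_lit 180) (.e (nat_lit 303119) (nat_lit 3) (.e (nat_lit 204877) (nat_lit 31) (.e (nat_lit 376864) (nat_lit 22) (.e (nat_lit 90165) (nat_lit 12) (.e (nat_lit 164210) (nat_lit 176) .nil)))))) (.g (nat_lit 1) (.e (nat_lit 51058) (nat_lit 0) .nil) .nil)))))))) 
(.nd (nat_lit 5) (.nd (nat_lit 6) (.nd (nat_lit 7) (.nd (nat_lit 8) (.nd (nat_lit 9) 
(.lf (nat_lit 458783) (.g (nat_lit 3211) (.e (nat_lit 2725) (nat_lit 172) (.e (nat_lit 237589) (nat_lit 2) (.e (nat_lit 196666) (nat_lit 13) (.e (nat_lit 65617) (nat_lit 10) (.e (nat_lit 344130) (nat_lit 26) (.e (nat_lit 557090) (nat_lit 12) (.e (nat_lit 163843) (nat_lit 0) (.e (nat_lit 6250) (nat_lit 337) .nil)))))))) (.g (nat_lit 1) (.e (nat_lit 48445) (nat_lit 0) .nil) .nil))) 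
(.lf (nat_lit 459295) (.g (nat_lit 2038) (.e (nat_lit 2797) (nat_lit 180) (.e (nat_lit 303117) (nat_lit 2) (.e (nat_lit 196674) (nat_lit 15) (.e (nat_lit 81946) (nat_lit 20) (.e (nat_lit 1802) (nat_lit 119) .nil))))) (.g (nat_lit 0) (.e (nat_lit 49518) (nat_lit 0) .nil) .nil)))) (.nd (nat_lit 9) 
(.lf (nat_lit 459039) (.g (nat_lit 2224) (.e (nat_lit 2739) (nat_lit 174) (.e (nat_lit 253991) (nat_lit 11) (.e (nat_lit 16424) (nat_lit 7) (.e (nat_lit 409648) (nat_lit 18) (.e (nat_lit 303137) (nat_lit 10) (.e (nat_lit 434275) (nat_lit 39) (.e (nat_lit 663574) (nat_lit 9) .nil))))))) (.g (nat_lit 1) (.e (nat_lit 48997) (nat_lit 0) .nil) .nil))) 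
(.lf (nat_lit 459551) (.g (nat_lit 4292) (.e (nat_lit 2797) (nat_lit 180) (.e (nat_lit 303143) (nat_lit 12) (.e (nat_lit 475185) (nat_lit 29) (.e (nat_lit 557101) (nat_lit 13) (.e (nat_lit 172094) (nat_lit 9) (.e (nat_lit 426125) (nat_lit 2) (.e (nat_lit 204544) (nat_lit 18) .nil))))))) (.g (nat_lit 1) (.e (nat_lit 50320) (nat_lit 0) .nil) .nil))))) (.nd (nat_lit 8) (.nd (nat_lit 9) 
(.lf (nat_lit 458911) (.g (nat_lit 4190) (.e (nat_lit 2725) (nat_lit 172) (.e (nat_lit 237593) (nat_lit 3) (.e (nat_lit 204869) (nat_lit 29) (.e (nat_lit 360475) (nat_lit 8) (.e (nat_lit 557089) (nat_lit 12) (.e (nat_lit 163844) (nat_lit 0) (.e (nat_lit 6252) (nat_lit 337) .nil))))))) (.g (nat_lit 1) (.e (nat_lit 48624) (nat_lit 0) .nil) .nil))) 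
(.lf (nat_lit 459423) (.g (nat_lit 4092) (.e (nat_lit 2797) (nat_lit 180) (.e (nat_lit 303119) (nat_lit 3) (.e (nat_lit 204868) (nat_lit 29) (.e (nat_lit 360466) (nat_lit 3) (.e (nat_lit 516100) (nat_lit 0) (.e (nat_lit 7936) (nat_lit 377) .nil)))))) (.g (nat_lit 1) (.e (nat_lit 49802) (nat_lit 0) .nil) .nil)))) (.nd (nat_lit 9) 
(.lf (nat_lit 459167) (.g (nat_lit 4496) (.e (nat_lit 2796) (nat_lit 180) (.e (nat_lit 303117) (nat_lit 2) (.e (nat_lit 196666) (nat_lit 13) (.e (nat_lit 65610) (nat_lit 10) (.e (nat_lit 344117) (nat_lit 21) (.e (nat_lit 516106) (nat_lit 0) (.e (nat_lit 7008) (nat_lit 377) .nil))))))) (.g (nat_lit 1) (.e (nat_lit 49304) (nat_lit 0) .nil) .nil))) 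
(.lf (nat_lit 459679) (.g (nat_lit 2946) (.e (nat_lit 2798) (nat_lit 180) (.e (nat_lit 303117) (nat_lit 2) (.e (nat_lit 196674) (nat_lit 15) (.e (nat_lit 81952) (nat_lit 22) (.e (nat_lit 90165) (nat_lit 12) (.e (nat_lit 164210) (nat_lit 176) .nil)))))) (.g (nat_lit 1) (.e (nat_lit 50844) (nat_lit 0) .nil) .nil)))))) (.nd (nat_lit 7) (.nd (nat_lit 8) (.nd (nat_lit 9) 
(.lf (nat_lit 458847) (.g (nat_lit 3074) (.e (nat_lit 2725) (nat_lit 172) (.e (nat_lit 237590) (nat_lit 2) (.e (nat_lit 196666) (nat_lit 13) (.e (nat_lit 65617) (nat_lit 10) (.e (nat_lit 344133) (nat_lit 26) (.e (nat_lit 557089) (nat_lit 12) (.e (nat_lit 163843) (nat_lit 0) (.e (nat_lit 6255) (nat_lit 337) .nil)))))))) (.g (nat_lit 1) (.e (nat_lit 48510) (nat_lit 0) .nil) .nil))) 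
(.lf (nat_lit 459359) (.g (nat_lit 3588) (.e (nat_lit 2797) (nat_lit 180) (.e (nat_lit 303119) (nat_lit 3) (.e (nat_lit 204860) (nat_lit 26) (.e (nat_lit 336186) (nat_lit 11) (.e (nat_lit 368676) (nat_lit 21) (.e (nat_lit 516097) (nat_lit 0) (.e (nat_lit 7073) (nat_lit 377) .nil))))))) (.g (nat_lit 1) (.e (nat_lit 49703) (nat_lit 0) .nil) .nil)))) (.nd (nat_lit 9) 
(.lf (nat_lit 459103) (.g (nat_lit 3829) (.e (nat_lit 2744) (nat_lit 174) (.e (nat_lit 253992) (nat_lit 11) (.e (nat_lit 16411) (nat_lit 2) (.e (nat_lit 196672) (nat_lit 15) (.e (nat_lit 81943) (nat_lit 20) (.e (nat_lit 1855) (nat_lit 124) (.e (nat_lit 557070) (nat_lit 9) .nil))))))) (.g (nat_lit 1) (.e (nat_lit 49097) (nat_lit 0) .nil) .nil))) 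
(.lf (nat_lit 459615) (.g (nat_lit 3681) (.e (nat_lit 2798) (nat_lit 180) (.e (nat_lit 303117) (nat_lit 2) (.e (nat_lit 196666) (nat_lit 13) (.e (nat_lit 65589) (nat_lit 9) (.e (nat_lit 336013) (nat_lit 2) (.e (nat_lit 90165) (nat_lit 12) (.e (nat_lit 164210) (nat_lit 176) .nil))))))) (.g (nat_lit 1) (.e (nat_lit 50775) (nat_lit 0) .nil) .nil))))) (.nd (nat_lit 8) (.nd (nat_lit 9) 
(.lf (nat_lit 458975) (.g (nat_lit 2671) (.e (nat_lit 2725) (nat_lit 172) (.e (nat_lit 237616) (nat_lit 12) (.e (nat_lit 475209) (nat_lit 41) (.e (nat_lit 712752) (nat_lit 29) (.e (nat_lit 442430) (nat_lit 24) (.e (nat_lit 229665) (nat_lit 240) .nil)))))) (.g (nat_lit 1) (.e (nat_lit 48733) (nat_lit 0) .nil) .nil))) 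
(.lf (nat_lit 459487) (.g (nat_lit 1572) (.e (nat_lit 2797) (nat_lit 180) (.e (nat_lit 303133) (nat_lit 9) (.e (nat_lit 426499) (nat_lit 27) (.e (nat_lit 336105) (nat_lit 9) .nil)))) (.g (nat_lit 0) (.e (nat_lit 50094) (nat_lit 0) .nil) .nil)))) (.nd (nat_lit 9) 
(.lf (nat_lit 459231) (.g (nat_lit 4584) (.e (nat_lit 2797) (nat_lit 180) (.e (nat_lit 303117) (nat_lit 2) (.e (nat_lit 196666) (nat_lit 13) (.e (nat_lit 65619) (nat_lit 10) (.e (nat_lit 344117) (nat_lit 21) (.e (nat_lit 516106) (nat_lit 0) (.e (nat_lit 6998) (nat_lit 377) .nil))))))) (.g (nat_lit 1) (.e (nat_lit 49435) (nat_lit 0) .nil) .nil))) 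
(.lf (nat_lit 459743) (.g (nat_lit 3424) (.e (nat_lit 2798) (nat_lit 180) (.e (nat_lit 303119) (nat_lit 3) (.e (nat_lit 204868) (nat_lit 29) (.e (nat_lit 360466) (nat_lit 3) (.e (nat_lit 516100) (nat_lit 0) (.e (nat_lit 7936) (nat_lit 377) .nil)))))) (.g (nat_lit 1) (.e (nat_lit 50986) (nat_lit 0) .nil) .nil))))))) (.nd (nat_lit 6) (.nd (nat_lit 7) (.nd (nat_lit 8) (.nd (nat_lit 9) 
(.lf (nat_lit 458815) (.g (nat_lit 4787) (.e (nat_lit 2725) (nat_lit 172) (.e (nat_lit 237589) (nat_lit 2) (.e (nat_lit 196666) (nat_lit 13) (.e (nat_lit 65617) (nat_lit 10) (.e (nat_lit 344133) (nat_lit 26) (.e (nat_lit 557091) (nat_lit 12) (.e (nat_lit 163844) (nat_lit 0) (.e (nat_lit 6254) (nat_lit 337) .nil)))))))) (.g (nat_lit 1) (.e (nat_lit 48477) (nat_lit 0) .nil) .nil))) 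
(.lf (nat_lit 459327) (.g (nat_lit 3654) (.e (nat_lit 2797) (nat_lit 180) (.e (nat_lit 303117) (nat_lit 2) (.e (nat_lit 196674) (nat_lit 15) (.e (nat_lit 81956) (nat_lit 23) (.e (nat_lit 98325) (nat_lit 17) (.e (nat_lit 6966) (nat_lit 377) .nil)))))) (.g (nat_lit 1) (.e (nat_lit 49554) (nat_lit 0) .nil) .nil)))) (.nd (nat_lit 9) 
(.lf (nat_lit 459071) (.g (nat_lit 3082) (.e (nat_lit 2743) (nat_lit 174) (.e (nat_lit 253992) (nat_lit 11) (.e (nat_lit 16425) (nat_lit 7) (.e (nat_lit 409648) (nat_lit 18) (.e (nat_lit 303137) (nat_lit 10) .nil))))) (.g (nat_lit 0) (.e (nat_lit 49050) (nat_lit 0) .nil) .nil))) 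
(.lf (nat_lit 459583) (.g (nat_lit 3670) (.e (nat_lit 2797) (nat_lit 180) (.e (nat_lit 303143) (nat_lit 12) (.e (nat_lit 475185) (nat_lit 29) (.e (nat_lit 557109) (nat_lit 15) (.e (nat_lit 188457) (nat_lit 25) (.e (nat_lit 253696) (nat_lit 18) .nil)))))) (.g (nat_lit 1) (.e (nat_lit 50374) (nat_lit 0) .nil) .nil))))) (.nd (nat_lit 8) (.nd (nat_lit 9) 
(.lf (nat_lit 458943) (.g (nat_lit 2594) (.e (nat_lit 2725) (nat_lit 172) (.e (nat_lit 237594) (nat_lit 3) (.e (nat_lit 204869) (nat_lit 29) (.e (nat_lit 360474) (nat_lit 8) (.e (nat_lit 557093) (nat_lit 12) .nil))))) (.g (nat_lit 0) (.e (nat_lit 48671) (nat_lit 0) .nil) .nil))) 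
(.lf (nat_lit 459455) (.g (nat_lit 1065) (.e (nat_lit 2797) (nat_lit 180) (.e (nat_lit 303119) (nat_lit 3) (.e (nat_lit 204877) (nat_lit 31) (.e (nat_lit 376865) (nat_lit 22) .nil)))) (.g (nat_lit 0) (.e (nat_lit 50008) (nat_lit 0) .nil) .nil)))) (.nd (nat_lit 9) 
(.lf (nat_lit 459199) (.g (nat_lit 4197) (.e (nat_lit 2797) (nat_lit 180) (.e (nat_lit 303117) (nat_lit 2) (.e (nat_lit 196663) (nat_lit 13) (.e (nat_lit 65610) (nat_lit 10) (.e (nat_lit 344117) (nat_lit 21) (.e (nat_lit 516099) (nat_lit 0) (.e (nat_lit 7936) (nat_lit 377) .nil))))))) (.g (nat_lit 1) (.e (nat_lit 49387) (nat_lit 0) .nil) .nil))) 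
(.lf (nat_lit 459711) (.g (nat_lit 1970) (.e (nat_lit 2798) (nat_lit 180) (.e (nat_lit 303119) (nat_lit 3) (.e (nat_lit 204846) (nat_lit 24) (.e (nat_lit 319491) (nat_lit 0) .nil)))) (.g (nat_lit 0) (.e (nat_lit 50891) (nat_lit 0) .nil) .nil)))))) (.nd (nat_lit 7) (.nd (nat_lit 8) (.nd (nat_lit 9) 
(.lf (nat_lit 458879) (.g (nat_lit 2700) (.e (nat_lit 2725) (nat_lit 172) (.e (nat_lit 237593) (nat_lit 3) (.e (nat_lit 204868) (nat_lit 29) (.e (nat_lit 360473) (nat_lit 8) (.e (nat_lit 557089) (nat_lit 12) (.e (nat_lit 163844) (nat_lit 0) (.e (nat_lit 6255) (nat_lit 337) .nil))))))) (.g (nat_lit 1) (.e (nat_lit 48586) (nat_lit 0) .nil) .nil))) 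
(.lf (nat_lit 459391) (.g (nat_lit 3047) (.e (nat_lit 2797) (nat_lit 180) (.e (nat_lit 303119) (nat_lit 3) (.e (nat_lit 204865) (nat_lit 28) (.e (nat_lit 352310) (nat_lit 22) (.e (nat_lit 90165) (nat_lit 12) (.e (nat_lit 164209) (nat_lit 176) .nil)))))) (.g (nat_lit 1) (.e (nat_lit 49745) (nat_lit 0) .nil) .nil)))) (.nd (nat_lit 9) 
(.lf (nat_lit 459135) (.g (nat_lit 3637) (.e (nat_lit 2768) (nat_lit 177) (.e (nat_lit 278550) (nat_lit 10) (.e (nat_lit 5395) (nat_lit 301) (.e (nat_lit 57464) (nat_lit 23) (.e (nat_lit 516151) (nat_lit 9) (.e (nat_lit 426211) (nat_lit 9) (.e (nat_lit 426125) (nat_lit 2) (.e (nat_lit 204544) (nat_lit 18) .nil)))))))) (.g (nat_lit 1) (.e (nat_lit 49134) (nat_lit 0) .nil) .nil))) 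
(.lf (nat_lit 459647) (.g (nat_lit 4399) (.e (nat_lit 2798) (nat_lit 180) (.e (nat_lit 303117) (nat_lit 2) (.e (nat_lit 196666) (nat_lit 13) (.e (nat_lit 65619) (nat_lit 10) (.e (nat_lit 344117) (nat_lit 21) (.e (nat_lit 516106) (nat_lit 0) (.e (nat_lit 6966) (nat_lit 377) .nil))))))) (.g (nat_lit 1) (.e (nat_lit 50810) (nat_lit 0) .nil) .nil))))) (.nd (nat_lit 8) (.nd (nat_lit 9) 
(.lf (nat_lit 459007) (.g (nat_lit 2279) (.e (nat_lit 2725) (nat_lit 172) (.e (nat_lit 237619) (nat_lit 12) (.e (nat_lit 475209) (nat_lit 41) (.e (nat_lit 712752) (nat_lit 29) (.e (nat_lit 442430) (nat_lit 24) (.e (nat_lit 229666) (nat_lit 240) .nil)))))) (.g (nat_lit 1) (.e (nat_lit 48771) (nat_lit 0) .nil) .nil))) 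
(.lf (nat_lit 459519) (.g (nat_lit 3397) (.e (nat_lit 2797) (nat_lit 180) (.e (nat_lit 303143) (nat_lit 12) (.e (nat_lit 475185) (nat_lit 29) (.e (nat_lit 557100) (nat_lit 13) (.e (nat_lit 172089) (nat_lit 9) .nil))))) (.g (nat_lit 0) (.e (nat_lit 50278) (nat_lit 0) .nil) .nil)))) (.nd (nat_lit 9) 
(.lf (nat_lit 459263) (.g (nat_lit 2605) (.e (nat_lit 2797) (nat_lit 180) (.e (nat_lit 303117) (nat_lit 2) (.e (nat_lit 196672) (nat_lit 15) (.e (nat_lit 81954) (nat_lit 23) (.e (nat_lit 98328) (nat_lit 17) .nil))))) (.g (nat_lit 0) (.e (nat_lit 49485) (nat_lit 0) .nil) .nil))) 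
(.lf (nat_lit 459775) (.g (nat_lit 4670) (.e (nat_lit 2798) (nat_lit 180) (.e (nat_lit 303133) (nat_lit 9) (.e (nat_lit 426412) (nat_lit 15) (.e (nat_lit 1856) (nat_lit 124) (.e (nat_lit 557098) (nat_lit 13) (.e (nat_lit 172094) (nat_lit 9) (.e (nat_lit 426125) (nat_lit 2) (.e (nat_lit 204544) (nat_lit 18) .nil)))))))) (.g (nat_lit 1) (.e (nat_lit 51167) (nat_lit 0) .nil) .nil)))))))))))))

noncomputable def tv5509 : DT := (.nd (nat_lit 0) (.nd (nat_lit 1) (.nd (nat_lit 2) (.nd (nat_lit 3) (.nd (nat_lit 4) (.nd (nat_lit 5) (.nd (nat_lit 6) (.nd (nat_lit 7) (.nd (nat_lit 8) (.nd (nat_lit 9) 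
(.lf (nat_lit 459776) (.g (nat_lit 2061) (.e (nat_lit 2798) (nat_lit 180) (.e (nat_lit 303133) (nat_lit 9) (.e (nat_lit 426412) (nat_lit 15) (.e (nat_lit 1856) (nat_lit 124) (.e (nat_lit 557100) (nat_lit 13) (.e (nat_lit 172095) (nat_lit 9) (.e (nat_lit 426125) (nat_lit 2) (.e (nat_lit 204544) (nat_lit 18) .nil)))))))) (.g (nat_lit 1) (.e (nat_lit 51168) (nat_lit 0) .nil) .nil))) 
(.lf (nat_lit 460288) (.g (nat_lit 3846) (.e (nat_lit 2817) (nat_lit 181) (.e (nat_lit 311312) (nat_lit 2) (.e (nat_lit 196666) (nat_lit 13) (.e (nat_lit 65610) (nat_lit 10) (.e (nat_lit 344117) (nat_lit 21) (.e (nat_lit 516106) (nat_lit 0) (.e (nat_lit 6966) (nat_lit 377) .nil))))))) (.g (nat_lit 1) (.e (nat_lit 53465) (nat_lit 0) .nil) .nil)))) (.nd (nat_lit 9) 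
(.lf (nat_lit 460032) (.g (nat_lit 2685) (.e (nat_lit 2808) (nat_lit 180) (.e (nat_lit 303143) (nat_lit 12) (.e (nat_lit 475207) (nat_lit 41) (.e (nat_lit 712755) (nat_lit 30) (.e (nat_lit 450597) (nat_lit 17) (.e (nat_lit 663589) (nat_lit 14) .nil)))))) (.g (nat_lit 1) (.e (nat_lit 52486) (nat_lit 0) .nil) .nil))) 
(.lf (nat_lit 460544) (.g (nat_lit 1879) (.e (nat_lit 2829) (nat_lit 182) (.e (nat_lit 409602) (nat_lit 0) (.e (nat_lit 5270) (nat_lit 298) (.e (nat_lit 1256) (nat_lit 92) .nil)))) (.g (nat_lit 0) (.e (nat_lit 54815) (nat_lit 0) .nil) .nil))))) (.nd (nat_lit 8) (.nd (nat_lit 9) 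
(.lf (nat_lit 459904) (.g (nat_lit 2302) (.e (nat_lit 2798) (nat_lit 180) (.e (nat_lit 303145) (nat_lit 13) (.e (nat_lit 483346) (nat_lit 17) (.e (nat_lit 6445) (nat_lit 343) .nil)))) (.g (nat_lit 0) (.e (nat_lit 51658) (nat_lit 0) .nil) .nil))) 
(.lf (nat_lit 460416) (.g (nat_lit 2007) (.e (nat_lit 2779) (nat_lit 178) (.e (nat_lit 286735) (nat_lit 3) (.e (nat_lit 98349) (nat_lit 24) (.e (nat_lit 409649) (nat_lit 18) .nil)))) (.g (nat_lit 0) (.e (nat_lit 53789) (nat_lit 0) .nil) .nil)))) (.nd (nat_lit 9) 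
(.lf (nat_lit 460160) (.g (nat_lit 2341) (.e (nat_lit 2810) (nat_lit 180) (.e (nat_lit 303119) (nat_lit 3) (.e (nat_lit 204877) (nat_lit 31) (.e (nat_lit 376869) (nat_lit 23) (.e (nat_lit 98323) (nat_lit 17) .nil))))) (.g (nat_lit 0) (.e (nat_lit 52816) (nat_lit 0) .nil) .nil))) 
(.lf (nat_lit 460672) (.g (nat_lit 3096) (.e (nat_lit 2830) (nat_lit 182) (.e (nat_lit 409648) (nat_lit 18) (.e (nat_lit 303119) (nat_lit 3) (.e (nat_lit 204877) (nat_lit 31) (.e (nat_lit 376862) (nat_lit 22) (.e (nat_lit 90130) (nat_lit 9) .nil)))))) (.g (nat_lit 1) (.e (nat_lit 55234) (nat_lit 0) .nil) .nil)))))) (.nd (nat_lit 7) (.nd (nat_lit 8) (.nd (nat_lit 9) 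
(.lf (nat_lit 459840) (.g (nat_lit 3560) (.e (nat_lit 2798) (nat_lit 180) (.e (nat_lit 303143) (nat_lit 12) (.e (nat_lit 475185) (nat_lit 29) (.e (nat_lit 557100) (nat_lit 13) (.e (nat_lit 172113) (nat_lit 10) (.e (nat_lit 434218) (nat_lit 19) (.e (nat_lit 499728) (nat_lit 0) .nil))))))) (.g (nat_lit 1) (.e (nat_lit 51488) (nat_lit 0) .nil) .nil))) 
(.lf (nat_lit 460352) (.g (nat_lit 4344) (.e (nat_lit 2777) (nat_lit 178) (.e (nat_lit 286735) (nat_lit 3) (.e (nat_lit 98389) (nat_lit 33) (.e (nat_lit 491558) (nat_lit 10) (.e (nat_lit 344117) (nat_lit 21) (.e (nat_lit 516106) (nat_lit 0) (.e (nat_lit 6986) (nat_lit 377) .nil))))))) (.g (nat_lit 1) (.e (nat_lit 53676) (nat_lit 0) .nil) .nil)))) (.nd (nat_lit 9) 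
(.lf (nat_lit 460096) (.g (nat_lit 3031) (.e (nat_lit 2810) (nat_lit 180) (.e (nat_lit 303117) (nat_lit 2) (.e (nat_lit 196674) (nat_lit 15) (.e (nat_lit 81953) (nat_lit 22) (.e (nat_lit 90165) (nat_lit 12) (.e (nat_lit 164208) (nat_lit 176) .nil)))))) (.g (nat_lit 1) (.e (nat_lit 52729) (nat_lit 0) .nil) .nil))) 
(.lf (nat_lit 460608) (.g (nat_lit 2224) (.e (nat_lit 2830) (nat_lit 182) (.e (nat_lit 409646) (nat_lit 18) (.e (nat_lit 303117) (nat_lit 2) (.e (nat_lit 196672) (nat_lit 15) .nil)))) (.g (nat_lit 0) (.e (nat_lit 55066) (nat_lit 0) .nil) .nil))))) (.nd (nat_lit 8) (.nd (nat_lit 9) 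
(.lf (nat_lit 459968) (.g (nat_lit 2163) (.e (nat_lit 2805) (nat_lit 180) (.e (nat_lit 303119) (nat_lit 3) (.e (nat_lit 204868) (nat_lit 29) (.e (nat_lit 360466) (nat_lit 3) .nil)))) (.g (nat_lit 0) (.e (nat_lit 52153) (nat_lit 0) .nil) .nil))) 
(.lf (nat_lit 460480) (.g (nat_lit 2507) (.e (nat_lit 2788) (nat_lit 179) (.e (nat_lit 294931) (nat_lit 3) (.e (nat_lit 98350) (nat_lit 24) (.e (nat_lit 409648) (nat_lit 18) (.e (nat_lit 303108) (nat_lit 0) (.e (nat_lit 3272) (nat_lit 199) (.e (nat_lit 548910) (nat_lit 17) (.e (nat_lit 164214) (nat_lit 176) .nil)))))))) (.g (nat_lit 1) (.e (nat_lit 54047) (nat_lit 0) .nil) .nil)))) 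
(.nd (nat_lit 9) 
(.lf (nat_lit 460224) (.g (nat_lit 1921) (.e (nat_lit 7936) (nat_lit 180) (.e (nat_lit 303117) (nat_lit 2) (.e (nat_lit 196674) (nat_lit 15) (.e (nat_lit 81953) (nat_lit 22) .nil)))) (.g (nat_lit 0) (.e (nat_lit 53091) (nat_lit 0) .nil) .nil))) 
(.lf (nat_lit 460736) (.g (nat_lit 1583) (.e (nat_lit 2830) (nat_lit 182) (.e (nat_lit 409649) (nat_lit 18) (.e (nat_lit 303119) (nat_lit 3) (.e (nat_lit 204878) (nat_lit 31) (.e (nat_lit 376864) (nat_lit 22) .nil))))) (.g (nat_lit 0) (.e (nat_lit 55415) (nat_lit 0) .nil) .nil))))))) (.nd (nat_lit 6) (.nd (nat_lit 7) (.nd (nat_lit 8) (.nd (nat_lit 9) 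
(.lf (nat_lit 459808) (.g (nat_lit 4477) (.e (nat_lit 2798) (nat_lit 180) (.e (nat_lit 303143) (nat_lit 12) (.e (nat_lit 475185) (nat_lit 29) (.e (nat_lit 557098) (nat_lit 13) (.e (nat_lit 172093) (nat_lit 9) .nil))))) (.g (nat_lit 0) (.e (nat_lit 51448) (nat_lit 0) .nil) .nil))) 
(.lf (nat_lit 460320) (.g (nat_lit 2312) (.e (nat_lit 2819) (nat_lit 181) (.e (nat_lit 311315) (nat_lit 3) (.e (nat_lit 204866) (nat_lit 28) (.e (nat_lit 352315) (nat_lit 23) (.e (nat_lit 98325) (nat_lit 17) (.e (nat_lit 6966) (nat_lit 377) .nil)))))) (.g (nat_lit 1) (.e (nat_lit 53533) (nat_lit 0) .nil) .nil)))) (.nd (nat_lit 9) 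
(.lf (nat_lit 460064) (.g (nat_lit 1781) (.e (nat_lit 2810) (nat_lit 180) (.e (nat_lit 303106) (nat_lit 0) (.e (nat_lit 3114) (nat_lit 193) (.e (nat_lit 500074) (nat_lit 20) (.e (nat_lit 81953) (nat_lit 22) (.e (nat_lit 90165) (nat_lit 12) (.e (nat_lit 164208) (nat_lit 176) .nil))))))) (.g (nat_lit 1) (.e (nat_lit 52692) (nat_lit 0) .nil) .nil))) 
(.lf (nat_lit 460576) (.g (nat_lit 4419) (.e (nat_lit 2830) (nat_lit 182) (.e (nat_lit 409616) (nat_lit 10) (.e (nat_lit 632) (nat_lit 50) (.e (nat_lit 573489) (nat_lit 14) (.e (nat_lit 73755) (nat_lit 8) (.e (nat_lit 557105) (nat_lit 14) (.e (nat_lit 180252) (nat_lit 10) (.e (nat_lit 581376) (nat_lit 0) .nil)))))))) (.g (nat_lit 1) (.e (nat_lit 55005) (nat_lit 0) .nil) .nil))))) 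
(.nd (nat_lit 8) (.nd (nat_lit 9) 
(.lf (nat_lit 459936) (.g (nat_lit 2278) (.e (nat_lit 2802) (nat_lit 180) (.e (nat_lit 303143) (nat_lit 12) (.e (nat_lit 475185) (nat_lit 29) (.e (nat_lit 557107) (nat_lit 15) .nil)))) (.g (nat_lit 0) (.e (nat_lit 52002) (nat_lit 0) .nil) .nil))) 
(.lf (nat_lit 460448) (.g (nat_lit 1488) (.e (nat_lit 2779) (nat_lit 178) (.e (nat_lit 286771) (nat_lit 29) (.e (nat_lit 442379) (nat_lit 0) (.e (nat_lit 2175) (nat_lit 143) (.e (nat_lit 712749) (nat_lit 28) (.e (nat_lit 434186) (nat_lit 13) .nil)))))) (.g (nat_lit 1) (.e (nat_lit 53853) (nat_lit 0) .nil) .nil)))) (.nd (nat_lit 9) 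
(.lf (nat_lit 460192) (.g (nat_lit 4002) (.e (nat_lit 2811) (nat_lit 180) (.e (nat_lit 303117) (nat_lit 2) (.e (nat_lit 196666) (nat_lit 13) (.e (nat_lit 65610) (nat_lit 10) (.e (nat_lit 344117) (nat_lit 21) (.e (nat_lit 516106) (nat_lit 0) (.e (nat_lit 6966) (nat_lit 377) .nil))))))) (.g (nat_lit 1) (.e (nat_lit 53003) (nat_lit 0) .nil) .nil))) 
(.lf (nat_lit 460704) (.g (nat_lit 2083) (.e (nat_lit 2830) (nat_lit 182) (.e (nat_lit 409649) (nat_lit 18) (.e (nat_lit 303111) (nat_lit 0) (.e (nat_lit 3238) (nat_lit 197) (.e (nat_lit 532561) (nat_lit 14) (.e (nat_lit 376862) (nat_lit 22) (.e (nat_lit 90130) (nat_lit 9) .nil))))))) (.g (nat_lit 1) (.e (nat_lit 55344) (nat_lit 0) .nil) .nil)))))) 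
(.nd (nat_lit 7) (.nd (nat_lit 8) (.nd (nat_lit 9) 
(.lf (nat_lit 459872) (.g (nat_lit 2680) (.e (nat_lit 2798) (nat_lit 180) (.e (nat_lit 303143) (nat_lit 12) (.e (nat_lit 475185) (nat_lit 29) (.e (nat_lit 557107) (nat_lit 15) (.e (nat_lit 188433) (nat_lit 20) .nil))))) (.g (nat_lit 0) (.e (nat_lit 51546) (nat_lit 0) .nil) .nil))) 
(.lf (nat_lit 460384) (.g (nat_lit 3352) (.e (nat_lit 2777) (nat_lit 178) (.e (nat_lit 286765) (nat_lit 15) (.e (nat_lit 3308) (nat_lit 202) (.e (nat_lit 573482) (nat_lit 13) (.e (nat_lit 65604) (nat_lit 9) (.e (nat_lit 336013) (nat_lit 2) (.e (nat_lit 90165) (nat_lit 12) (.e (nat_lit 164207) (nat_lit 176) .nil)))))))) (.g (nat_lit 1) (.e (nat_lit 53716) (nat_lit 0) .nil) .nil)))) 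
(.nd (nat_lit 9) 
(.lf (nat_lit 460128) (.g (nat_lit 2018) (.e (nat_lit 2810) (nat_lit 180) (.e (nat_lit 303119) (nat_lit 3) (.e (nat_lit 204865) (nat_lit 28) (.e (nat_lit 352315) (nat_lit 23) (.e (nat_lit 98325) (nat_lit 17) (.e (nat_lit 6966) (nat_lit 377) .nil)))))) (.g (nat_lit 1) (.e (nat_lit 52776) (nat_lit 0) .nil) .nil))) 
(.lf (nat_lit 460640) (.g (nat_lit 705) (.e (nat_lit 2830) (nat_lit 182) (.e (nat_lit 409648) (nat_lit 18) (.e (nat_lit 303110) (nat_lit 0) .nil))) (.g (nat_lit 0) (.e (nat_lit 55132) (nat_lit 0) .nil) .nil))))) (.nd (nat_lit 8) (.nd (nat_lit 9) 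
(.lf (nat_lit 460000) (.g (nat_lit 2685) (.e (nat_lit 2808) (nat_lit 180) (.e (nat_lit 303116) (nat_lit 2) (.e (nat_lit 196666) (nat_lit 13) (.e (nat_lit 65610) (nat_lit 10) (.e (nat_lit 344117) (nat_lit 21) (.e (nat_lit 516102) (nat_lit 0) (.e (nat_lit 7019) (nat_lit 377) .nil))))))) (.g (nat_lit 1) (.e (nat_lit 52304) (nat_lit 0) .nil) .nil))) 
(.lf (nat_lit 460512) (.g (nat_lit 2600) (.e (nat_lit 2789) (nat_lit 179) (.e (nat_lit 294974) (nat_lit 29) (.e (nat_lit 442379) (nat_lit 0) (.e (nat_lit 2059) (nat_lit 142) (.e (nat_lit 704595) (nat_lit 5) (.e (nat_lit 180284) (nat_lit 45) .nil)))))) (.g (nat_lit 1) (.e (nat_lit 54200) (nat_lit 0) .nil) .nil)))) (.nd (nat_lit 9) 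
(.lf (nat_lit 460256) (.g (nat_lit 3795) (.e (nat_lit 2816) (nat_lit 181) (.e (nat_lit 311311) (nat_lit 2) (.e (nat_lit 196666) (nat_lit 13) (.e (nat_lit 65610) (nat_lit 10) (.e (nat_lit 344117) (nat_lit 21) (.e (nat_lit 516098) (nat_lit 0) (.e (nat_lit 6949) (nat_lit 377) .nil))))))) (.g (nat_lit 1) (.e (nat_lit 53293) (nat_lit 0) .nil) .nil))) 
(.lf (nat_lit 460768) (.g (nat_lit 5343) (.e (nat_lit 2842) (nat_lit 184) (.e (nat_lit 426131) (nat_lit 3) (.e (nat_lit 204869) (nat_lit 29) (.e (nat_lit 360474) (nat_lit 8) (.e (nat_lit 557091) (nat_lit 12) .nil))))) (.g (nat_lit 0) (.e (nat_lit 56147) (nat_lit 0) .nil) .nil)))))))) (.nd (nat_lit 5) (.nd (nat_lit 6) (.nd (nat_lit 7) (.nd (nat_lit 8) (.nd (nat_lit 9) 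
(.lf (nat_lit 459792) (.g (nat_lit 1464) (.e (nat_lit 2798) (nat_lit 180) (.e (nat_lit 303133) (nat_lit 9) (.e (nat_lit 426499) (nat_lit 27) (.e (nat_lit 336108) (nat_lit 9) .nil)))) (.g (nat_lit 0) (.e (nat_lit 51213) (nat_lit 0) .nil) .nil))) 
(.lf (nat_lit 460304) (.g (nat_lit 2773) (.e (nat_lit 2818) (nat_lit 181) (.e (nat_lit 311312) (nat_lit 2) (.e (nat_lit 196672) (nat_lit 15) (.e (nat_lit 81954) (nat_lit 23) (.e (nat_lit 98323) (nat_lit 17) (.e (nat_lit 6983) (nat_lit 377) .nil)))))) (.g (nat_lit 1) (.e (nat_lit 53511) (nat_lit 0) .nil) .nil)))) (.nd (nat_lit 9) 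
(.lf (nat_lit 460048) (.g (nat_lit 2971) (.e (nat_lit 2809) (nat_lit 180) (.e (nat_lit 303117) (nat_lit 2) (.e (nat_lit 196666) (nat_lit 13) (.e (nat_lit 65610) (nat_lit 10) (.e (nat_lit 344129) (nat_lit 26) (.e (nat_lit 557067) (nat_lit 9) (.e (nat_lit 22) (nat_lit 0) (.e (nat_lit 6083) (nat_lit 332) .nil)))))))) (.g (nat_lit 1) (.e (nat_lit 52535) (nat_lit 0) .nil) .nil))) 
(.lf (nat_lit 460560) (.g (nat_lit 1669) (.e (nat_lit 2829) (nat_lit 182) (.e (nat_lit 409647) (nat_lit 18) (.e (nat_lit 303118) (nat_lit 3) (.e (nat_lit 204870) (nat_lit 29) (.e (nat_lit 360463) (nat_lit 1) .nil))))) (.g (nat_lit 0) (.e (nat_lit 54892) (nat_lit 0) .nil) .nil))))) (.nd (nat_lit 8) (.nd (nat_lit 9) 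
(.lf (nat_lit 459920) (.g (nat_lit 1559) (.e (nat_lit 2800) (nat_lit 180) (.e (nat_lit 303143) (nat_lit 12) (.e (nat_lit 475185) (nat_lit 29) (.e (nat_lit 557101) (nat_lit 13) .nil)))) (.g (nat_lit 0) (.e (nat_lit 51883) (nat_lit 0) .nil) .nil))) 
(.lf (nat_lit 460432) (.g (nat_lit 5304) (.e (nat_lit 2779) (nat_lit 178) (.e (nat_lit 286765) (nat_lit 15) (.e (nat_lit 3308) (nat_lit 202) (.e (nat_lit 573482) (nat_lit 13) (.e (nat_lit 65619) (nat_lit 10) (.e (nat_lit 344117) (nat_lit 21) (.e (nat_lit 516106) (nat_lit 0) (.e (nat_lit 6986) (nat_lit 377) .nil)))))))) (.g (nat_lit 1) (.e (nat_lit 53809) (nat_lit 0) .nil) .nil)))) 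
(.nd (nat_lit 9) 
(.lf (nat_lit 460176) (.g (nat_lit 2334) (.e (nat_lit 2810) (nat_lit 180) (.e (nat_lit 303143) (nat_lit 12) (.e (nat_lit 475212) (nat_lit 42) (.e (nat_lit 720949) (nat_lit 24) (.e (nat_lit 106534) (nat_lit 11) (.e (nat_lit 16392) (nat_lit 0) (.e (nat_lit 6989) (nat_lit 377) .nil))))))) (.g (nat_lit 1) (.e (nat_lit 52861) (nat_lit 0) .nil) .nil))) 
(.lf (nat_lit 460688) (.g (nat_lit 4450) (.e (nat_lit 2830) (nat_lit 182) (.e (nat_lit 409649) (nat_lit 18) (.e (nat_lit 303106) (nat_lit 0) (.e (nat_lit 3114) (nat_lit 193) (.e (nat_lit 500074) (nat_lit 20) (.e (nat_lit 81953) (nat_lit 22) (.e (nat_lit 90130) (nat_lit 9) .nil))))))) (.g (nat_lit 1) (.e (nat_lit 55326) (nat_lit 0) .nil) .nil)))))) 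
(.nd (nat_lit 7) (.nd (nat_lit 8) (.nd (nat_lit 9) 
(.lf (nat_lit 459856) (.g (nat_lit 2546) (.e (nat_lit 2798) (nat_lit 180) (.e (nat_lit 303143) (nat_lit 12) (.e (nat_lit 475185) (nat_lit 29) (.e (nat_lit 557101) (nat_lit 13) (.e (nat_lit 172100) (nat_lit 9) (.e (nat_lit 426120) (nat_lit 2) (.e (nat_lit 204544) (nat_lit 18) .nil))))))) (.g (nat_lit 1) (.e (nat_lit 51505) (nat_lit 0) .nil) .nil))) 
(.lf (nat_lit 460368) (.g (nat_lit 3662) (.e (nat_lit 2777) (nat_lit 178) (.e (nat_lit 286765) (nat_lit 15) (.e (nat_lit 3298) (nat_lit 202) (.e (nat_lit 573493) (nat_lit 15) (.e (nat_lit 81953) (nat_lit 22) (.e (nat_lit 90165) (nat_lit 12) (.e (nat_lit 164208) (nat_lit 176) .nil))))))) (.g (nat_lit 1) (.e (nat_lit 53696) (nat_lit 0) .nil) .nil)))) (.nd (nat_lit 9) 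
(.lf (nat_lit 460112) (.g (nat_lit 3072) (.e (nat_lit 2810) (nat_lit 180) (.e (nat_lit 303119) (nat_lit 3) (.e (nat_lit 204852) (nat_lit 26) (.e (nat_lit 336142) (nat_lit 9) (.e (nat_lit 336011) (nat_lit 2) (.e (nat_lit 90165) (nat_lit 12) (.e (nat_lit 164208) (nat_lit 176) .nil))))))) (.g (nat_lit 1) (.e (nat_lit 52754) (nat_lit 0) .nil) .nil))) 
(.lf (nat_lit 460624) (.g (nat_lit 8053) (.e (nat_lit 2830) (nat_lit 182) (.e (nat_lit 409648) (nat_lit 18) (.e (nat_lit 303104) (nat_lit 0) (.e (nat_lit 3238) (nat_lit 197) (.e (nat_lit 532535) (nat_lit 9) (.e (nat_lit 336099) (nat_lit 9) (.e (nat_lit 336013) (nat_lit 2) (.e (nat_lit 90130) (nat_lit 9) .nil)))))))) (.g (nat_lit 1) (.e (nat_lit 55111) (nat_lit 0) .nil) .nil))))) 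
(.nd (nat_lit 8) (.nd (nat_lit 9) 
(.lf (nat_lit 459984) (.g (nat_lit 1581) (.e (nat_lit 2807) (nat_lit 180) (.e (nat_lit 303137) (nat_lit 10) (.e (nat_lit 434229) (nat_lit 22) (.e (nat_lit 524340) (nat_lit 28) (.e (nat_lit 352323) (nat_lit 26) (.e (nat_lit 147512) (nat_lit 14) .nil)))))) (.g (nat_lit 1) (.e (nat_lit 52261) (nat_lit 0) .nil) .nil))) 
(.lf (nat_lit 460496) (.g (nat_lit 3688) (.e (nat_lit 2789) (nat_lit 179) (.e (nat_lit 294966) (nat_lit 15) (.e (nat_lit 3307) (nat_lit 202) (.e (nat_lit 573485) (nat_lit 13) (.e (nat_lit 65604) (nat_lit 9) (.e (nat_lit 336013) (nat_lit 2) (.e (nat_lit 90165) (nat_lit 12) (.e (nat_lit 164207) (nat_lit 176) .nil)))))))) (.g (nat_lit 1) (.e (nat_lit 54158) (nat_lit 0) .nil) .nil)))) 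
(.nd (nat_lit 9) 
(.lf (nat_lit 460240) (.g (nat_lit 2573) (.e (nat_lit 2813) (nat_lit 181) (.e (nat_lit 311312) (nat_lit 2) (.e (nat_lit 196672) (nat_lit 15) (.e (nat_lit 81954) (nat_lit 23) (.e (nat_lit 98325) (nat_lit 17) (.e (nat_lit 6966) (nat_lit 377) .nil)))))) (.g (nat_lit 1) (.e (nat_lit 53225) (nat_lit 0) .nil) .nil))) 
(.lf (nat_lit 460752) (.g (nat_lit 5467) (.e (nat_lit 2828) (nat_lit 182) (.e (nat_lit 409646) (nat_lit 18) (.e (nat_lit 303117) (nat_lit 2) (.e (nat_lit 196672) (nat_lit 15) (.e (nat_lit 81951) (nat_lit 22) (.e (nat_lit 90134) (nat_lit 9) .nil)))))) (.g (nat_lit 1) (.e (nat_lit 55569) (nat_lit 0) .nil) .nil))))))) (.nd (nat_lit 6) (.nd (nat_lit 7) (.nd (nat_lit 8) (.nd (nat_lit 9) 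
(.lf (nat_lit 459824) (.g (nat_lit 3856) (.e (nat_lit 2798) (nat_lit 180) (.e (nat_lit 303143) (nat_lit 12) (.e (nat_lit 475185) (nat_lit 29) (.e (nat_lit 557100) (nat_lit 13) (.e (nat_lit 172100) (nat_lit 9) (.e (nat_lit 426125) (nat_lit 2) (.e (nat_lit 204544) (nat_lit 18) .nil))))))) (.g (nat_lit 1) (.e (nat_lit 51467) (nat_lit 0) .nil) .nil))) 
(.lf (nat_lit 460336) (.g (nat_lit 4129) (.e (nat_lit 2777) (nat_lit 178) (.e (nat_lit 286735) (nat_lit 3) (.e (nat_lit 98349) (nat_lit 24) (.e (nat_lit 409645) (nat_lit 18) (.e (nat_lit 303119) (nat_lit 3) (.e (nat_lit 204819) (nat_lit 17) (.e (nat_lit 6113) (nat_lit 332) .nil))))))) (.g (nat_lit 1) (.e (nat_lit 53660) (nat_lit 0) .nil) .nil)))) (.nd (nat_lit 9) 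
(.lf (nat_lit 460080) (.g (nat_lit 1366) (.e (nat_lit 2810) (nat_lit 180) (.e (nat_lit 303117) (nat_lit 2) (.e (nat_lit 196670) (nat_lit 14) (.e (nat_lit 81664) (nat_lit 40) .nil)))) (.g (nat_lit 0) (.e (nat_lit 52713) (nat_lit 0) .nil) .nil))) 
(.lf (nat_lit 460592) (.g (nat_lit 3162) (.e (nat_lit 2830) (nat_lit 182) (.e (nat_lit 409645) (nat_lit 18) (.e (nat_lit 303117) (nat_lit 2) (.e (nat_lit 196672) (nat_lit 15) (.e (nat_lit 81953) (nat_lit 22) (.e (nat_lit 90130) (nat_lit 9) .nil)))))) (.g (nat_lit 1) (.e (nat_lit 55045) (nat_lit 0) .nil) .nil))))) (.nd (nat_lit 8) (.nd (nat_lit 9) 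
(.lf (nat_lit 459952) (.g (nat_lit 1677) (.e (nat_lit 2804) (nat_lit 180) (.e (nat_lit 303119) (nat_lit 3) (.e (nat_lit 204867) (nat_lit 28) (.e (nat_lit 352312) (nat_lit 22) .nil)))) (.g (nat_lit 0) (.e (nat_lit 52103) (nat_lit 0) .nil) .nil))) 
(.lf (nat_lit 460464) (.g (nat_lit 2046) (.e (nat_lit 2782) (nat_lit 178) (.e (nat_lit 286768) (nat_lit 27) (.e (nat_lit 426339) (nat_lit 14) (.e (nat_lit 491571) (nat_lit 13) (.e (nat_lit 393242) (nat_lit 17) (.e (nat_lit 6986) (nat_lit 377) .nil)))))) (.g (nat_lit 1) (.e (nat_lit 53899) (nat_lit 0) .nil) .nil)))) (.nd (nat_lit 9) 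
(.lf (nat_lit 460208) (.g (nat_lit 2794) (.e (nat_lit 2812) (nat_lit 180) (.e (nat_lit 303143) (nat_lit 12) (.e (nat_lit 475185) (nat_lit 29) (.e (nat_lit 557107) (nat_lit 15) .nil)))) (.g (nat_lit 0) (.e (nat_lit 53039) (nat_lit 0) .nil) .nil))) 
(.lf (nat_lit 460720) (.g (nat_lit 5126) (.e (nat_lit 2830) (nat_lit 182) (.e (nat_lit 409649) (nat_lit 18) (.e (nat_lit 303117) (nat_lit 2) (.e (nat_lit 196672) (nat_lit 15) (.e (nat_lit 81953) (nat_lit 22) (.e (nat_lit 90130) (nat_lit 9) .nil)))))) (.g (nat_lit 1) (.e (nat_lit 55368) (nat_lit 0) .nil) .nil)))))) (.nd (nat_lit 7) (.nd (nat_lit 8) (.nd (nat_lit 9) 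
(.lf (nat_lit 459888) (.g (nat_lit 4428) (.e (nat_lit 2798) (nat_lit 180) (.e (nat_lit 303143) (nat_lit 12) (.e (nat_lit 475185) (nat_lit 29) (.e (nat_lit 557109) (nat_lit 15) (.e (nat_lit 188458) (nat_lit 25) (.e (nat_lit 245797) (nat_lit 18) .nil)))))) (.g (nat_lit 1) (.e (nat_lit 51562) (nat_lit 0) .nil) .nil))) 
(.lf (nat_lit 460400) (.g (nat_lit 1432) (.e (nat_lit 2777) (nat_lit 178) (.e (nat_lit 286770) (nat_lit 28) (.e (nat_lit 434181) (nat_lit 0) (.e (nat_lit 1425) (nat_lit 108) (.e (nat_lit 336421) (nat_lit 28) (.e (nat_lit 434187) (nat_lit 13) .nil)))))) (.g (nat_lit 1) (.e (nat_lit 53740) (nat_lit 0) .nil) .nil)))) (.nd (nat_lit 9) 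
(.lf (nat_lit 460144) (.g (nat_lit 1600) (.e (nat_lit 2810) (nat_lit 180) (.e (nat_lit 303119) (nat_lit 3) (.e (nat_lit 204868) (nat_lit 29) (.e (nat_lit 368384) (nat_lit 1) .nil)))) (.g (nat_lit 0) (.e (nat_lit 52792) (nat_lit 0) .nil) .nil))) 
(.lf (nat_lit 460656) (.g (nat_lit 3910) (.e (nat_lit 2830) (nat_lit 182) (.e (nat_lit 409648) (nat_lit 18) (.e (nat_lit 303117) (nat_lit 2) (.e (nat_lit 196672) (nat_lit 15) (.e (nat_lit 81951) (nat_lit 22) (.e (nat_lit 90130) (nat_lit 9) .nil)))))) (.g (nat_lit 1) (.e (nat_lit 55173) (nat_lit 0) .nil) .nil))))) (.nd (nat_lit 8) (.nd (nat_lit 9) 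
(.lf (nat_lit 460016) (.g (nat_lit 1741) (.e (nat_lit 2808) (nat_lit 180) (.e (nat_lit 303118) (nat_lit 3) (.e (nat_lit 204868) (nat_lit 29) (.e (nat_lit 360466) (nat_lit 3) .nil)))) (.g (nat_lit 0) (.e (nat_lit 52329) (nat_lit 0) .nil) .nil))) 
(.lf (nat_lit 460528) (.g (nat_lit 1914) (.e (nat_lit 2824) (nat_lit 182) (.e (nat_lit 409645) (nat_lit 18) (.e (nat_lit 303117) (nat_lit 2) (.e (nat_lit 196624) (nat_lit 9) (.e (nat_lit 1615) (nat_lit 113) .nil))))) (.g (nat_lit 0) (.e (nat_lit 54500) (nat_lit 0) .nil) .nil)))) (.nd (nat_lit 9) 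
(.lf (nat_lit 460272) (.g (nat_lit 3894) (.e (nat_lit 2816) (nat_lit 181) (.e (nat_lit 311312) (nat_lit 2) (.e (nat_lit 196666) (nat_lit 13) (.e (nat_lit 65610) (nat_lit 10) (.e (nat_lit 344117) (nat_lit 21) (.e (nat_lit 516102) (nat_lit 0) (.e (nat_lit 6996) (nat_lit 377) .nil))))))) (.g (nat_lit 1) (.e (nat_lit 53311) (nat_lit 0) .nil) .nil))) 
(.lf (nat_lit 460784) (.g (nat_lit 4114) (.e (nat_lit 2842) (nat_lit 184) (.e (nat_lit 426436) (nat_lit 18) (.e (nat_lit 98335) (nat_lit 18) (.e (nat_lit 164330) (nat_lit 230) .nil)))) (.g (nat_lit 0) (.e (nat_lit 56186) (nat_lit 0) .nil) .nil))))))))) (.nd (nat_lit 4) (.nd (nat_lit 5) (.nd (nat_lit 6) (.nd (nat_lit 7) (.nd (nat_lit 8) (.nd (nat_lit 9) 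
(.lf (nat_lit 459784) (.g (nat_lit 147) (.e (nat_lit 2798) (nat_lit 180) (.e (nat_lit 303133) (nat_lit 9) (.e (nat_lit 426499) (nat_lit 27) .nil))) (.g (nat_lit 0) (.e (nat_lit 51189) (nat_lit 0) .nil) .nil))) 
(.lf (nat_lit 460296) (.g (nat_lit 1632) (.e (nat_lit 2817) (nat_lit 181) (.e (nat_lit 311312) (nat_lit 2) (.e (nat_lit 196672) (nat_lit 15) (.e (nat_lit 81954) (nat_lit 23) (.e (nat_lit 98320) (nat_lit 17) (.e (nat_lit 7073) (nat_lit 377) .nil)))))) (.g (nat_lit 1) (.e (nat_lit 53476) (nat_lit 0) .nil) .nil)))) (.nd (nat_lit 9) 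
(.lf (nat_lit 460040) (.g (nat_lit 5841) (.e (nat_lit 2809) (nat_lit 180) (.e (nat_lit 303117) (nat_lit 2) (.e (nat_lit 196666) (nat_lit 13) (.e (nat_lit 65610) (nat_lit 10) (.e (nat_lit 344117) (nat_lit 21) (.e (nat_lit 516097) (nat_lit 0) (.e (nat_lit 6949) (nat_lit 377) .nil))))))) (.g (nat_lit 1) (.e (nat_lit 52527) (nat_lit 0) .nil) .nil))) 
(.lf (nat_lit 460552) (.g (nat_lit 1170) (.e (nat_lit 2829) (nat_lit 182) (.e (nat_lit 409645) (nat_lit 18) (.e (nat_lit 303116) (nat_lit 2) .nil))) (.g (nat_lit 0) (.e (nat_lit 54843) (nat_lit 0) .nil) .nil))))) (.nd (nat_lit 8) (.nd (nat_lit 9) 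
(.lf (nat_lit 459912) (.g (nat_lit 3229) (.e (nat_lit 2798) (nat_lit 180) (.e (nat_lit 303146) (nat_lit 14) (.e (nat_lit 491570) (nat_lit 13) (.e (nat_lit 393283) (nat_lit 24) (.e (nat_lit 434275) (nat_lit 39) (.e (nat_lit 663589) (nat_lit 14) .nil)))))) (.g (nat_lit 1) (.e (nat_lit 51856) (nat_lit 0) .nil) .nil))) 
(.lf (nat_lit 460424) (.g (nat_lit 2201) (.e (nat_lit 2779) (nat_lit 178) (.e (nat_lit 286765) (nat_lit 15) (.e (nat_lit 3298) (nat_lit 202) (.e (nat_lit 573492) (nat_lit 15) (.e (nat_lit 81956) (nat_lit 23) (.e (nat_lit 98325) (nat_lit 17) (.e (nat_lit 6966) (nat_lit 377) .nil))))))) (.g (nat_lit 1) (.e (nat_lit 53800) (nat_lit 0) .nil) .nil)))) (.nd (nat_lit 9) 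
(.lf (nat_lit 460168) (.g (nat_lit 2646) (.e (nat_lit 2810) (nat_lit 180) (.e (nat_lit 303143) (nat_lit 12) (.e (nat_lit 475185) (nat_lit 29) (.e (nat_lit 557098) (nat_lit 13) .nil)))) (.g (nat_lit 0) (.e (nat_lit 52839) (nat_lit 0) .nil) .nil))) 
(.lf (nat_lit 460680) (.g (nat_lit 4006) (.e (nat_lit 2830) (nat_lit 182) (.e (nat_lit 409649) (nat_lit 18) (.e (nat_lit 303104) (nat_lit 0) (.e (nat_lit 3238) (nat_lit 197) (.e (nat_lit 532558) (nat_lit 14) (.e (nat_lit 376863) (nat_lit 22) (.e (nat_lit 90130) (nat_lit 9) .nil))))))) (.g (nat_lit 1) (.e (nat_lit 55317) (nat_lit 0) .nil) .nil)))))) 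
(.nd (nat_lit 7) (.nd (nat_lit 8) (.nd (nat_lit 9) 
(.lf (nat_lit 459848) (.g (nat_lit 3581) (.e (nat_lit 2798) (nat_lit 180) (.e (nat_lit 303143) (nat_lit 12) (.e (nat_lit 475185) (nat_lit 29) (.e (nat_lit 557100) (nat_lit 13) (.e (nat_lit 172113) (nat_lit 10) (.e (nat_lit 434225) (nat_lit 19) (.e (nat_lit 499767) (nat_lit 0) .nil))))))) (.g (nat_lit 1) (.e (nat_lit 51497) (nat_lit 0) .nil) .nil))) 
(.lf (nat_lit 460360) (.g (nat_lit 4333) (.e (nat_lit 2777) (nat_lit 178) (.e (nat_lit 286759) (nat_lit 12) (.e (nat_lit 385074) (nat_lit 31) (.e (nat_lit 573484) (nat_lit 13) (.e (nat_lit 65586) (nat_lit 7) (.e (nat_lit 319500) (nat_lit 10) (.e (nat_lit 557) (nat_lit 41) (.e (nat_lit 499727) (nat_lit 0) .nil)))))))) (.g (nat_lit 1) (.e (nat_lit 53684) (nat_lit 0) .nil) .nil)))) (.nd (nat_lit 9) 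
(.lf (nat_lit 460104) (.g (nat_lit 1706) (.e (nat_lit 2810) (nat_lit 180) (.e (nat_lit 303118) (nat_lit 3) (.e (nat_lit 204868) (nat_lit 29) (.e (nat_lit 360466) (nat_lit 3) .nil)))) (.g (nat_lit 0) (.e (nat_lit 52738) (nat_lit 0) .nil) .nil))) 
(.lf (nat_lit 460616) (.g (nat_lit 1602) (.e (nat_lit 2830) (nat_lit 182) (.e (nat_lit 409647) (nat_lit 18) (.e (nat_lit 303116) (nat_lit 2) (.e (nat_lit 196671) (nat_lit 15) .nil)))) (.g (nat_lit 0) (.e (nat_lit 55090) (nat_lit 0) .nil) .nil))))) (.nd (nat_lit 8) (.nd (nat_lit 9) 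
(.lf (nat_lit 459976) (.g (nat_lit 3146) (.e (nat_lit 2806) (nat_lit 180) (.e (nat_lit 303117) (nat_lit 2) (.e (nat_lit 196666) (nat_lit 13) (.e (nat_lit 65610) (nat_lit 10) (.e (nat_lit 344117) (nat_lit 21) (.e (nat_lit 516106) (nat_lit 0) (.e (nat_lit 6966) (nat_lit 377) .nil))))))) (.g (nat_lit 1) (.e (nat_lit 52189) (nat_lit 0) .nil) .nil))) 
(.lf (nat_lit 460488) (.g (nat_lit 823) (.e (nat_lit 2788) (nat_lit 179) (.e (nat_lit 294973) (nat_lit 28) (.e (nat_lit 434181) (nat_lit 0) (.e (nat_lit 1425) (nat_lit 108) (.e (nat_lit 336421) (nat_lit 28) (.e (nat_lit 434186) (nat_lit 13) .nil)))))) (.g (nat_lit 1) (.e (nat_lit 54069) (nat_lit 0) .nil) .nil)))) (.nd (nat_lit 9) 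
(.lf (nat_lit 460232) (.g (nat_lit 2036) (.e (nat_lit 7936) (nat_lit 180) (.e (nat_lit 303119) (nat_lit 3) (.e (nat_lit 204868) (nat_lit 29) (.e (nat_lit 360466) (nat_lit 3) (.e (nat_lit 516105) (nat_lit 0) .nil))))) (.g (nat_lit 0) (.e (nat_lit 53109) (nat_lit 0) .nil) .nil))) 
(.lf (nat_lit 460744) (.g (nat_lit 2903) (.e (nat_lit 2828) (nat_lit 182) (.e (nat_lit 409646) (nat_lit 18) (.e (nat_lit 303116) (nat_lit 2) (.e (nat_lit 196672) (nat_lit 15) (.e (nat_lit 81951) (nat_lit 22) (.e (nat_lit 90134) (nat_lit 9) .nil)))))) (.g (nat_lit 1) (.e (nat_lit 55530) (nat_lit 0) .nil) .nil))))))) (.nd (nat_lit 6) (.nd (nat_lit 7) (.nd (nat_lit 8) (.nd (nat_lit 9) 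
(.lf (nat_lit 459816) (.g (nat_lit 3355) (.e (nat_lit 2798) (nat_lit 180) (.e (nat_lit 303143) (nat_lit 12) (.e (nat_lit 475185) (nat_lit 29) (.e (nat_lit 557100) (nat_lit 13) (.e (nat_lit 172088) (nat_lit 9) (.e (nat_lit 426113) (nat_lit 2) (.e (nat_lit 204544) (nat_lit 18) .nil))))))) (.g (nat_lit 1) (.e (nat_lit 51459) (nat_lit 0) .nil) .nil))) 
(.lf (nat_lit 460328) (.g (nat_lit 922) (.e (nat_lit 2820) (nat_lit 181) (.e (nat_lit 311322) (nat_lit 9) (.e (nat_lit 426509) (nat_lit 27) (.e (nat_lit 336228) (nat_lit 14) (.e (nat_lit 401454) (nat_lit 12) (.e (nat_lit 483072) (nat_lit 16) .nil)))))) (.g (nat_lit 1) (.e (nat_lit 53616) (nat_lit 0) .nil) .nil)))) (.nd (nat_lit 9) 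
(.lf (nat_lit 460072) (.g (nat_lit 2476) (.e (nat_lit 2810) (nat_lit 180) (.e (nat_lit 303117) (nat_lit 2) (.e (nat_lit 196666) (nat_lit 13) (.e (nat_lit 65604) (nat_lit 9) .nil)))) (.g (nat_lit 0) (.e (nat_lit 52705) (nat_lit 0) .nil) .nil))) 
(.lf (nat_lit 460584) (.g (nat_lit 2522) (.e (nat_lit 2830) (nat_lit 182) (.e (nat_lit 409643) (nat_lit 18) (.e (nat_lit 303119) (nat_lit 3) (.e (nat_lit 204878) (nat_lit 31) (.e (nat_lit 376862) (nat_lit 22) (.e (nat_lit 90130) (nat_lit 9) .nil)))))) (.g (nat_lit 1) (.e (nat_lit 55030) (nat_lit 0) .nil) .nil))))) (.nd (nat_lit 8) (.nd (nat_lit 9) 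
(.lf (nat_lit 459944) (.g (nat_lit 837) (.e (nat_lit 2804) (nat_lit 180) (.e (nat_lit 303117) (nat_lit 2) (.e (nat_lit 196673) (nat_lit 15) .nil))) (.g (nat_lit 0) (.e (nat_lit 52087) (nat_lit 0) .nil) .nil))) 
(.lf (nat_lit 460456) (.g (nat_lit 2932) (.e (nat_lit 2781) (nat_lit 178) (.e (nat_lit 286765) (nat_lit 15) (.e (nat_lit 3304) (nat_lit 202) (.e (nat_lit 573485) (nat_lit 13) (.e (nat_lit 65604) (nat_lit 9) (.e (nat_lit 336028) (nat_lit 3) (.e (nat_lit 98325) (nat_lit 17) (.e (nat_lit 6986) (nat_lit 377) .nil)))))))) (.g (nat_lit 1) (.e (nat_lit 53887) (nat_lit 0) .nil) .nil)))) (.nd (nat_lit 9) 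
(.lf (nat_lit 460200) (.g (nat_lit 3352) (.e (nat_lit 2812) (nat_lit 180) (.e (nat_lit 303117) (nat_lit 2) (.e (nat_lit 196666) (nat_lit 13) (.e (nat_lit 65619) (nat_lit 10) .nil)))) (.g (nat_lit 0) (.e (nat_lit 53030) (nat_lit 0) .nil) .nil))) 
(.lf (nat_lit 460712) (.g (nat_lit 3285) (.e (nat_lit 2830) (nat_lit 182) (.e (nat_lit 409649) (nat_lit 18) (.e (nat_lit 303116) (nat_lit 2) (.e (nat_lit 196672) (nat_lit 15) (.e (nat_lit 81960) (nat_lit 25) (.e (nat_lit 139285) (nat_lit 9) .nil)))))) (.g (nat_lit 1) (.e (nat_lit 55358) (nat_lit 0) .nil) .nil)))))) (.nd (nat_lit 7) (.nd (nat_lit 8) (.nd (nat_lit 9) 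
(.lf (nat_lit 459880) (.g (nat_lit 3984) (.e (nat_lit 2798) (nat_lit 180) (.e (nat_lit 303143) (nat_lit 12) (.e (nat_lit 475185) (nat_lit 29) (.e (nat_lit 557107) (nat_lit 15) (.e (nat_lit 188456) (nat_lit 25) (.e (nat_lit 245797) (nat_lit 18) .nil)))))) (.g (nat_lit 1) (.e (nat_lit 51554) (nat_lit 0) .nil) .nil))) 
(.lf (nat_lit 460392) (.g (nat_lit 3354) (.e (nat_lit 2777) (nat_lit 178) (.e (nat_lit 286765) (nat_lit 15) (.e (nat_lit 3308) (nat_lit 202) (.e (nat_lit 573493) (nat_lit 15) (.e (nat_lit 81956) (nat_lit 23) (.e (nat_lit 98325) (nat_lit 17) (.e (nat_lit 6966) (nat_lit 377) .nil))))))) (.g (nat_lit 1) (.e (nat_lit 53724) (nat_lit 0) .nil) .nil)))) (.nd (nat_lit 9) 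
(.lf (nat_lit 460136) (.g (nat_lit 2411) (.e (nat_lit 2810) (nat_lit 180) (.e (nat_lit 303119) (nat_lit 3) (.e (nat_lit 204866) (nat_lit 28) (.e (nat_lit 352315) (nat_lit 23) (.e (nat_lit 98325) (nat_lit 17) .nil))))) (.g (nat_lit 0) (.e (nat_lit 52784) (nat_lit 0) .nil) .nil))) 
(.lf (nat_lit 460648) (.g (nat_lit 5158) (.e (nat_lit 2830) (nat_lit 182) (.e (nat_lit 409648) (nat_lit 18) (.e (nat_lit 303116) (nat_lit 2) (.e (nat_lit 196672) (nat_lit 15) (.e (nat_lit 81951) (nat_lit 22) (.e (nat_lit 90130) (nat_lit 9) .nil)))))) (.g (nat_lit 1) (.e (nat_lit 55144) (nat_lit 0) .nil) .nil))))) (.nd (nat_lit 8) (.nd (nat_lit 9) 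
(.lf (nat_lit 460008) (.g (nat_lit 2340) (.e (nat_lit 2808) (nat_lit 180) (.e (nat_lit 303116) (nat_lit 2) (.e (nat_lit 196674) (nat_lit 15) (.e (nat_lit 81953) (nat_lit 22) .nil)))) (.g (nat_lit 0) (.e (nat_lit 52312) (nat_lit 0) .nil) .nil))) 
(.lf (nat_lit 460520) (.g (nat_lit 1912) (.e (nat_lit 2822) (nat_lit 182) (.e (nat_lit 409645) (nat_lit 18) (.e (nat_lit 303112) (nat_lit 0) (.e (nat_lit 3252) (nat_lit 197) .nil)))) (.g (nat_lit 0) (.e (nat_lit 54272) (nat_lit 0) .nil) .nil)))) (.nd (nat_lit 9) 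
(.lf (nat_lit 460264) (.g (nat_lit 3377) (.e (nat_lit 2816) (nat_lit 181) (.e (nat_lit 311312) (nat_lit 2) (.e (nat_lit 196666) (nat_lit 13) (.e (nat_lit 65610) (nat_lit 10) (.e (nat_lit 344117) (nat_lit 21) (.e (nat_lit 516096) (nat_lit 0) (.e (nat_lit 6990) (nat_lit 377) .nil))))))) (.g (nat_lit 1) (.e (nat_lit 53303) (nat_lit 0) .nil) .nil))) 
(.lf (nat_lit 460776) (.g (nat_lit 4292) (.e (nat_lit 2842) (nat_lit 184) (.e (nat_lit 426211) (nat_lit 9) (.e (nat_lit 426125) (nat_lit 2) (.e (nat_lit 196630) (nat_lit 9) (.e (nat_lit 1393) (nat_lit 106) .nil))))) (.g (nat_lit 0) (.e (nat_lit 56161) (nat_lit 0) .nil) .nil)))))))) (.nd (nat_lit 5) (.nd (nat_lit 6) (.nd (nat_lit 7) (.nd (nat_lit 8) (.nd (nat_lit 9) 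
(.lf (nat_lit 459800) (.g (nat_lit 353) (.e (nat_lit 2798) (nat_lit 180) (.e (nat_lit 303143) (nat_lit 12) (.e (nat_lit 475185) (nat_lit 29) .nil))) (.g (nat_lit 0) (.e (nat_lit 51379) (nat_lit 0) .nil) .nil))) 
(.lf (nat_lit 460312) (.g (nat_lit 3430) (.e (nat_lit 2819) (nat_lit 181) (.e (nat_lit 311312) (nat_lit 2) (.e (nat_lit 196672) (nat_lit 15) (.e (nat_lit 81954) (nat_lit 23) (.e (nat_lit 98325) (nat_lit 17) (.e (nat_lit 6966) (nat_lit 377) .nil)))))) (.g (nat_lit 1) (.e (nat_lit 53523) (nat_lit 0) .nil) .nil)))) (.nd (nat_lit 9) 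
(.lf (nat_lit 460056) (.g (nat_lit 2197) (.e (nat_lit 2809) (nat_lit 180) (.e (nat_lit 303117) (nat_lit 2) (.e (nat_lit 196672) (nat_lit 15) (.e (nat_lit 81956) (nat_lit 23) .nil)))) (.g (nat_lit 0) (.e (nat_lit 52543) (nat_lit 0) .nil) .nil))) 
(.lf (nat_lit 460568) (.g (nat_lit 567) (.e (nat_lit 2829) (nat_lit 182) (.e (nat_lit 409649) (nat_lit 18) (.e (nat_lit 303106) (nat_lit 0) .nil))) (.g (nat_lit 0) (.e (nat_lit 54943) (nat_lit 0) .nil) .nil))))) (.nd (nat_lit 8) (.nd (nat_lit 9) 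
(.lf (nat_lit 459928) (.g (nat_lit 1427) (.e (nat_lit 2802) (nat_lit 180) (.e (nat_lit 303118) (nat_lit 3) (.e (nat_lit 204868) (nat_lit 29) (.e (nat_lit 360466) (nat_lit 3) .nil)))) (.g (nat_lit 0) (.e (nat_lit 51951) (nat_lit 0) .nil) .nil))) 
(.lf (nat_lit 460440) (.g (nat_lit 1720) (.e (nat_lit 2779) (nat_lit 178) (.e (nat_lit 286768) (nat_lit 27) (.e (nat_lit 426340) (nat_lit 14) (.e (nat_lit 491550) (nat_lit 9) (.e (nat_lit 336421) (nat_lit 28) (.e (nat_lit 434187) (nat_lit 13) .nil)))))) (.g (nat_lit 1) (.e (nat_lit 53820) (nat_lit 0) .nil) .nil)))) (.nd (nat_lit 9) 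
(.lf (nat_lit 460184) (.g (nat_lit 2858) (.e (nat_lit 2810) (nat_lit 180) (.e (nat_lit 303143) (nat_lit 12) (.e (nat_lit 475220) (nat_lit 44) (.e (nat_lit 737318) (nat_lit 15) (.e (nat_lit 49189) (nat_lit 11) (.e (nat_lit 16392) (nat_lit 0) (.e (nat_lit 6989) (nat_lit 377) .nil))))))) (.g (nat_lit 1) (.e (nat_lit 52871) (nat_lit 0) .nil) .nil))) 
(.lf (nat_lit 460696) (.g (nat_lit 3750) (.e (nat_lit 2830) (nat_lit 182) (.e (nat_lit 409649) (nat_lit 18) (.e (nat_lit 303112) (nat_lit 0) (.e (nat_lit 3252) (nat_lit 197) (.e (nat_lit 532561) (nat_lit 14) (.e (nat_lit 376862) (nat_lit 22) (.e (nat_lit 90130) (nat_lit 9) .nil))))))) (.g (nat_lit 1) (.e (nat_lit 55335) (nat_lit 0) .nil) .nil)))))) 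
(.nd (nat_lit 7) (.nd (nat_lit 8) (.nd (nat_lit 9) 
(.lf (nat_lit 459864) (.g (nat_lit 3017) (.e (nat_lit 2798) (nat_lit 180) (.e (nat_lit 303143) (nat_lit 12) (.e (nat_lit 475185) (nat_lit 29) (.e (nat_lit 557101) (nat_lit 13) (.e (nat_lit 172115) (nat_lit 10) (.e (nat_lit 434218) (nat_lit 19) (.e (nat_lit 499728) (nat_lit 0) .nil))))))) (.g (nat_lit 1) (.e (nat_lit 51520) (nat_lit 0) .nil) .nil))) 
(.lf (nat_lit 460376) (.g (nat_lit 3460) (.e (nat_lit 2777) (nat_lit 178) (.e (nat_lit 286765) (nat_lit 15) (.e (nat_lit 3307) (nat_lit 202) (.e (nat_lit 573485) (nat_lit 13) (.e (nat_lit 65604) (nat_lit 9) (.e (nat_lit 336013) (nat_lit 2) (.e (nat_lit 90165) (nat_lit 12) (.e (nat_lit 164207) (nat_lit 176) .nil)))))))) (.g (nat_lit 1) (.e (nat_lit 53708) (nat_lit 0) .nil) .nil)))) 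
(.nd (nat_lit 9) 
(.lf (nat_lit 460120) (.g (nat_lit 2906) (.e (nat_lit 2810) (nat_lit 180) (.e (nat_lit 303119) (nat_lit 3) (.e (nat_lit 204855) (nat_lit 26) (.e (nat_lit 336176) (nat_lit 10) (.e (nat_lit 344117) (nat_lit 21) .nil))))) (.g (nat_lit 0) (.e (nat_lit 52766) (nat_lit 0) .nil) .nil))) 
(.lf (nat_lit 460632) (.g (nat_lit 2401) (.e (nat_lit 2830) (nat_lit 182) (.e (nat_lit 409648) (nat_lit 18) (.e (nat_lit 303104) (nat_lit 0) (.e (nat_lit 3238) (nat_lit 197) (.e (nat_lit 532561) (nat_lit 14) (.e (nat_lit 376865) (nat_lit 22) (.e (nat_lit 90130) (nat_lit 9) .nil))))))) (.g (nat_lit 1) (.e (nat_lit 55122) (nat_lit 0) .nil) .nil))))) (.nd (nat_lit 8) (.nd (nat_lit 9) 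
(.lf (nat_lit 459992) (.g (nat_lit 2970) (.e (nat_lit 2807) (nat_lit 180) (.e (nat_lit 303143) (nat_lit 12) (.e (nat_lit 475185) (nat_lit 29) (.e (nat_lit 557107) (nat_lit 15) .nil)))) (.g (nat_lit 0) (.e (nat_lit 52281) (nat_lit 0) .nil) .nil))) 
(.lf (nat_lit 460504) (.g (nat_lit 1225) (.e (nat_lit 2789) (nat_lit 179) (.e (nat_lit 294973) (nat_lit 28) (.e (nat_lit 434181) (nat_lit 0) (.e (nat_lit 1425) (nat_lit 108) (.e (nat_lit 336421) (nat_lit 28) (.e (nat_lit 434186) (nat_lit 13) .nil)))))) (.g (nat_lit 1) (.e (nat_lit 54178) (nat_lit 0) .nil) .nil)))) (.nd (nat_lit 9) 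
(.lf (nat_lit 460248) (.g (nat_lit 2677) (.e (nat_lit 2814) (nat_lit 181) (.e (nat_lit 311312) (nat_lit 2) (.e (nat_lit 196672) (nat_lit 15) (.e (nat_lit 81954) (nat_lit 23) (.e (nat_lit 98323) (nat_lit 17) (.e (nat_lit 6983) (nat_lit 377) .nil)))))) (.g (nat_lit 1) (.e (nat_lit 53243) (nat_lit 0) .nil) .nil))) 
(.lf (nat_lit 460760) (.g (nat_lit 627) (.e (nat_lit 7936) (nat_lit 182) (.e (nat_lit 409649) (nat_lit 18) (.e (nat_lit 303118) (nat_lit 3) .nil))) (.g (nat_lit 0) (.e (nat_lit 56105) (nat_lit 0) .nil) .nil))))))) (.nd (nat_lit 6) (.nd (nat_lit 7) (.nd (nat_lit 8) (.nd (nat_lit 9) 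
(.lf (nat_lit 459832) (.g (nat_lit 2592) (.e (nat_lit 2798) (nat_lit 180) (.e (nat_lit 303143) (nat_lit 12) (.e (nat_lit 475185) (nat_lit 29) (.e (nat_lit 557100) (nat_lit 13) (.e (nat_lit 172106) (nat_lit 10) (.e (nat_lit 434218) (nat_lit 19) (.e (nat_lit 499733) (nat_lit 0) .nil))))))) (.g (nat_lit 1) (.e (nat_lit 51476) (nat_lit 0) .nil) .nil))) 
(.lf (nat_lit 460344) (.g (nat_lit 3977) (.e (nat_lit 2777) (nat_lit 178) (.e (nat_lit 286735) (nat_lit 3) (.e (nat_lit 98350) (nat_lit 24) (.e (nat_lit 409649) (nat_lit 18) (.e (nat_lit 303117) (nat_lit 2) (.e (nat_lit 196661) (nat_lit 12) (.e (nat_lit 57712) (nat_lit 176) .nil))))))) (.g (nat_lit 1) (.e (nat_lit 53668) (nat_lit 0) .nil) .nil)))) (.nd (nat_lit 9) 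
(.lf (nat_lit 460088) (.g (nat_lit 1808) (.e (nat_lit 2810) (nat_lit 180) (.e (nat_lit 303117) (nat_lit 2) (.e (nat_lit 196673) (nat_lit 15) (.e (nat_lit 81956) (nat_lit 23) (.e (nat_lit 98320) (nat_lit 17) (.e (nat_lit 6961) (nat_lit 377) .nil)))))) (.g (nat_lit 1) (.e (nat_lit 52721) (nat_lit 0) .nil) .nil))) 
(.lf (nat_lit 460600) (.g (nat_lit 3750) (.e (nat_lit 2830) (nat_lit 182) (.e (nat_lit 409646) (nat_lit 18) (.e (nat_lit 303112) (nat_lit 0) (.e (nat_lit 3252) (nat_lit 197) (.e (nat_lit 532558) (nat_lit 14) (.e (nat_lit 376863) (nat_lit 22) (.e (nat_lit 90130) (nat_lit 9) .nil))))))) (.g (nat_lit 1) (.e (nat_lit 55058) (nat_lit 0) .nil) .nil))))) (.nd (nat_lit 8) (.nd (nat_lit 9) 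
(.lf (nat_lit 459960) (.g (nat_lit 1772) (.e (nat_lit 2804) (nat_lit 180) (.e (nat_lit 303143) (nat_lit 12) (.e (nat_lit 475185) (nat_lit 29) (.e (nat_lit 557101) (nat_lit 13) .nil)))) (.g (nat_lit 0) (.e (nat_lit 52126) (nat_lit 0) .nil) .nil))) 
(.lf (nat_lit 460472) (.g (nat_lit 3963) (.e (nat_lit 2787) (nat_lit 179) (.e (nat_lit 294966) (nat_lit 15) (.e (nat_lit 3308) (nat_lit 202) (.e (nat_lit 573482) (nat_lit 13) (.e (nat_lit 65619) (nat_lit 10) (.e (nat_lit 344117) (nat_lit 21) (.e (nat_lit 516106) (nat_lit 0) (.e (nat_lit 7008) (nat_lit 377) .nil)))))))) (.g (nat_lit 1) (.e (nat_lit 53973) (nat_lit 0) .nil) .nil)))) 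
(.nd (nat_lit 9) 
(.lf (nat_lit 460216) (.g (nat_lit 2892) (.e (nat_lit 7936) (nat_lit 180) (.e (nat_lit 303117) (nat_lit 2) (.e (nat_lit 196672) (nat_lit 15) (.e (nat_lit 81951) (nat_lit 22) (.e (nat_lit 90165) (nat_lit 12) .nil))))) (.g (nat_lit 0) (.e (nat_lit 53083) (nat_lit 0) .nil) .nil))) 
(.lf (nat_lit 460728) (.g (nat_lit 2856) (.e (nat_lit 2830) (nat_lit 182) (.e (nat_lit 409649) (nat_lit 18) (.e (nat_lit 303118) (nat_lit 3) (.e (nat_lit 204877) (nat_lit 31) (.e (nat_lit 376863) (nat_lit 22) (.e (nat_lit 90130) (nat_lit 9) .nil)))))) (.g (nat_lit 1) (.e (nat_lit 55385) (nat_lit 0) .nil) .nil)))))) (.nd (nat_lit 7) (.nd (nat_lit 8) (.nd (nat_lit 9) 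
(.lf (nat_lit 459896) (.g (nat_lit 4183) (.e (nat_lit 2798) (nat_lit 180) (.e (nat_lit 303143) (nat_lit 12) (.e (nat_lit 475211) (nat_lit 41) (.e (nat_lit 712755) (nat_lit 30) (.e (nat_lit 450597) (nat_lit 17) (.e (nat_lit 663589) (nat_lit 14) .nil)))))) (.g (nat_lit 1) (.e (nat_lit 51618) (nat_lit 0) .nil) .nil))) 
(.lf (nat_lit 460408) (.g (nat_lit 1907) (.e (nat_lit 2777) (nat_lit 178) (.e (nat_lit 286771) (nat_lit 29) (.e (nat_lit 442379) (nat_lit 0) (.e (nat_lit 2175) (nat_lit 143) (.e (nat_lit 712749) (nat_lit 28) (.e (nat_lit 434186) (nat_lit 13) .nil)))))) (.g (nat_lit 1) (.e (nat_lit 53760) (nat_lit 0) .nil) .nil)))) (.nd (nat_lit 9) 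
(.lf (nat_lit 460152) (.g (nat_lit 4938) (.e (nat_lit 2810) (nat_lit 180) (.e (nat_lit 303119) (nat_lit 3) (.e (nat_lit 204869) (nat_lit 29) (.e (nat_lit 360467) (nat_lit 3) (.e (nat_lit 516102) (nat_lit 0) .nil))))) (.g (nat_lit 0) (.e (nat_lit 52802) (nat_lit 0) .nil) .nil))) 
(.lf (nat_lit 460664) (.g (nat_lit 3138) (.e (nat_lit 2830) (nat_lit 182) (.e (nat_lit 409648) (nat_lit 18) (.e (nat_lit 303117) (nat_lit 2) (.e (nat_lit 196674) (nat_lit 15) (.e (nat_lit 81960) (nat_lit 25) (.e (nat_lit 139285) (nat_lit 9) .nil)))))) (.g (nat_lit 1) (.e (nat_lit 55181) (nat_lit 0) .nil) .nil))))) (.nd (nat_lit 8) (.nd (nat_lit 9) 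
(.lf (nat_lit 460024) (.g (nat_lit 3392) (.e (nat_lit 2808) (nat_lit 180) (.e (nat_lit 303119) (nat_lit 3) (.e (nat_lit 204868) (nat_lit 29) (.e (nat_lit 360466) (nat_lit 3) (.e (nat_lit 516104) (nat_lit 0) .nil))))) (.g (nat_lit 0) (.e (nat_lit 52347) (nat_lit 0) .nil) .nil))) 
(.lf (nat_lit 460536) (.g (nat_lit 3128) (.e (nat_lit 2825) (nat_lit 182) (.e (nat_lit 409611) (nat_lit 10) (.e (nat_lit 632) (nat_lit 50) (.e (nat_lit 573489) (nat_lit 14) (.e (nat_lit 73755) (nat_lit 8) (.e (nat_lit 557105) (nat_lit 14) (.e (nat_lit 180252) (nat_lit 10) (.e (nat_lit 581376) (nat_lit 0) .nil)))))))) (.g (nat_lit 1) (.e (nat_lit 54679) (nat_lit 0) .nil) .nil)))) (.nd (nat_lit 9) 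
(.lf (nat_lit 460280) (.g (nat_lit 2250) (.e (nat_lit 2816) (nat_lit 181) (.e (nat_lit 311312) (nat_lit 2) (.e (nat_lit 196672) (nat_lit 15) (.e (nat_lit 81954) (nat_lit 23) (.e (nat_lit 98325) (nat_lit 17) (.e (nat_lit 7936) (nat_lit 377) .nil)))))) (.g (nat_lit 1) (.e (nat_lit 53322) (nat_lit 0) .nil) .nil))) 
(.lf (nat_lit 460792) (.g (nat_lit 1879) (.e (nat_lit 2842) (nat_lit 184) (.e (nat_lit 426555) (nat_lit 32) (.e (nat_lit 376857) (nat_lit 21) (.e (nat_lit 57873) (nat_lit 264) (.e (nat_lit 1209) (nat_lit 89) .nil))))) (.g (nat_lit 0) (.e (nat_lit 56200) (nat_lit 0) .nil) .nil)))))))))) 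
(.nd (nat_lit 3) (.nd (nat_lit 4) (.nd (nat_lit 5) (.nd (nat_lit 6) (.nd (nat_lit 7) 
(.nd (nat_lit 8) (.nd (nat_lit 9) 
(.lf (nat_lit 459780) (.g (nat_lit 3509) (.e (nat_lit 2798) (nat_lit 180) (.e (nat_lit 303133) (nat_lit 9) (.e (nat_lit 426412) (nat_lit 15) (.e (nat_lit 2160) (nat_lit 143) (.e (nat_lit 712755) (nat_lit 30) (.e (nat_lit 450597) (nat_lit 17) (.e (nat_lit 663589) (nat_lit 14) .nil))))))) (.g (nat_lit 1) (.e (nat_lit 51179) (nat_lit 0) .nil) .nil))) 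
(.lf (nat_lit 460292) (.g (nat_lit 2932) (.e (nat_lit 2817) (nat_lit 181) (.e (nat_lit 311312) (nat_lit 2) (.e (nat_lit 196672) (nat_lit 15) (.e (nat_lit 81951) (nat_lit 22) (.e (nat_lit 90165) (nat_lit 12) (.e (nat_lit 164207) (nat_lit 176) .nil)))))) (.g (nat_lit 1) (.e (nat_lit 53472) (nat_lit 0) .nil) .nil)))) (.nd (nat_lit 9) 
(.lf (nat_lit 460036) (.g (nat_lit 2155) (.e (nat_lit 2808) (nat_lit 180) (.e (nat_lit 303146) (nat_lit 14) (.e (nat_lit 491570) (nat_lit 13) (.e (nat_lit 393284) (nat_lit 24) (.e (nat_lit 434276) (nat_lit 39) (.e (nat_lit 663589) (nat_lit 14) .nil)))))) (.g (nat_lit 1) (.e (nat_lit 52513) (nat_lit 0) .nil) .nil))) 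
(.lf (nat_lit 460548) (.g (nat_lit 2192) (.e (nat_lit 2829) (nat_lit 182) (.e (nat_lit 409602) (nat_lit 0) (.e (nat_lit 5293) (nat_lit 298) (.e (nat_lit 1656) (nat_lit 115) .nil)))) (.g (nat_lit 0) (.e (nat_lit 54819) (nat_lit 0) .nil) .nil))))) (.nd (nat_lit 8) (.nd (nat_lit 9) 
(.lf (nat_lit 459908) (.g (nat_lit 4240) (.e (nat_lit 2798) (nat_lit 180) (.e (nat_lit 303145) (nat_lit 13) (.e (nat_lit 483413) (nat_lit 27) (.e (nat_lit 401420) (nat_lit 1) .nil)))) (.g (nat_lit 0) (.e (nat_lit 51826) (nat_lit 0) .nil) .nil))) 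
(.lf (nat_lit 460420) (.g (nat_lit 2969) (.e (nat_lit 2779) (nat_lit 178) (.e (nat_lit 286765) (nat_lit 15) (.e (nat_lit 3296) (nat_lit 202) (.e (nat_lit 573482) (nat_lit 13) (.e (nat_lit 65604) (nat_lit 9) (.e (nat_lit 336028) (nat_lit 3) (.e (nat_lit 98325) (nat_lit 17) (.e (nat_lit 6986) (nat_lit 377) .nil)))))))) (.g (nat_lit 1) (.e (nat_lit 53793) (nat_lit 0) .nil) .nil)))) (.nd (nat_lit 9) 
(.lf (nat_lit 460164) (.g (nat_lit 2644) (.e (nat_lit 2810) (nat_lit 180) (.e (nat_lit 303127) (nat_lit 9) (.e (nat_lit 426538) (nat_lit 29) (.e (nat_lit 352318) (nat_lit 24) (.e (nat_lit 123195) (nat_lit 266) (.e (nat_lit 57350) (nat_lit 0) (.e (nat_lit 6113) (nat_lit 332) .nil))))))) (.g (nat_lit 1) (.e (nat_lit 52821) (nat_lit 0) .nil) .nil))) 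
(.lf (nat_lit 460676) (.g (nat_lit 3737) (.e (nat_lit 2830) (nat_lit 182) (.e (nat_lit 409648) (nat_lit 18) (.e (nat_lit 303119) (nat_lit 3) (.e (nat_lit 204878) (nat_lit 31) (.e (nat_lit 376862) (nat_lit 22) (.e (nat_lit 90130) (nat_lit 9) .nil)))))) (.g (nat_lit 1) (.e (nat_lit 55238) (nat_lit 0) .nil) .nil)))))) (.nd (nat_lit 7) (.nd (nat_lit 8) (.nd (nat_lit 9) 
(.lf (nat_lit 459844) (.g (nat_lit 3343) (.e (nat_lit 2798) (nat_lit 180) (.e (nat_lit 303143) (nat_lit 12) (.e (nat_lit 475185) (nat_lit 29) (.e (nat_lit 557100) (nat_lit 13) (.e (nat_lit 172113) (nat_lit 10) (.e (nat_lit 434219) (nat_lit 19) (.e (nat_lit 507648) (nat_lit 0) .nil))))))) (.g (nat_lit 1) (.e (nat_lit 51493) (nat_lit 0) .nil) .nil))) 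
(.lf (nat_lit 460356) (.g (nat_lit 3399) (.e (nat_lit 2777) (nat_lit 178) (.e (nat_lit 286759) (nat_lit 12) (.e (nat_lit 385074) (nat_lit 31) (.e (nat_lit 573484) (nat_lit 13) (.e (nat_lit 65586) (nat_lit 7) .nil))))) (.g (nat_lit 0) (.e (nat_lit 53680) (nat_lit 0) .nil) .nil)))) (.nd (nat_lit 9) 
(.lf (nat_lit 460100) (.g (nat_lit 3689) (.e (nat_lit 2810) (nat_lit 180) (.e (nat_lit 303117) (nat_lit 2) (.e (nat_lit 196674) (nat_lit 15) (.e (nat_lit 81956) (nat_lit 23) (.e (nat_lit 98318) (nat_lit 17) .nil))))) (.g (nat_lit 0) (.e (nat_lit 52733) (nat_lit 0) .nil) .nil))) 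
(.lf (nat_lit 460612) (.g (nat_lit 2947) (.e (nat_lit 2830) (nat_lit 182) (.e (nat_lit 409646) (nat_lit 18) (.e (nat_lit 303117) (nat_lit 2) (.e (nat_lit 196674) (nat_lit 15) (.e (nat_lit 81962) (nat_lit 25) .nil))))) (.g (nat_lit 0) (.e (nat_lit 55071) (nat_lit 0) .nil) .nil))))) (.nd (nat_lit 8) (.nd (nat_lit 9) 
(.lf (nat_lit 459972) (.g (nat_lit 3172) (.e (nat_lit 2805) (nat_lit 180) (.e (nat_lit 303143) (nat_lit 12) (.e (nat_lit 475185) (nat_lit 29) (.e (nat_lit 557107) (nat_lit 15) .nil)))) (.g (nat_lit 0) (.e (nat_lit 52175) (nat_lit 0) .nil) .nil))) 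
(.lf (nat_lit 460484) (.g (nat_lit 1380) (.e (nat_lit 2788) (nat_lit 179) (.e (nat_lit 294959) (nat_lit 13) (.e (nat_lit 393260) (nat_lit 21) (.e (nat_lit 409648) (nat_lit 18) (.e (nat_lit 303104) (nat_lit 0) .nil))))) (.g (nat_lit 0) (.e (nat_lit 54053) (nat_lit 0) .nil) .nil)))) (.nd (nat_lit 9) 
(.lf (nat_lit 460228) (.g (nat_lit 945) (.e (nat_lit 7936) (nat_lit 180) (.e (nat_lit 303119) (nat_lit 3) (.e (nat_lit 204867) (nat_lit 28) (.e (nat_lit 352312) (nat_lit 22) .nil)))) (.g (nat_lit 0) (.e (nat_lit 53104) (nat_lit 0) .nil) .nil))) 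
(.lf (nat_lit 460740) (.g (nat_lit 1464) (.e (nat_lit 2830) (nat_lit 182) (.e (nat_lit 417536) (nat_lit 18) (.e (nat_lit 303118) (nat_lit 3) (.e (nat_lit 204877) (nat_lit 31) (.e (nat_lit 376863) (nat_lit 22) (.e (nat_lit 90130) (nat_lit 9) .nil)))))) (.g (nat_lit 1) (.e (nat_lit 55495) (nat_lit 0) .nil) .nil))))))) (.nd (nat_lit 6) (.nd (nat_lit 7) (.nd (nat_lit 8) (.nd (nat_lit 9) 
(.lf (nat_lit 459812) (.g (nat_lit 4330) (.e (nat_lit 2798) (nat_lit 180) (.e (nat_lit 303143) (nat_lit 12) (.e (nat_lit 475185) (nat_lit 29) (.e (nat_lit 557098) (nat_lit 13) (.e (nat_lit 172096) (nat_lit 9) (.e (nat_lit 426125) (nat_lit 2) (.e (nat_lit 204544) (nat_lit 18) .nil))))))) (.g (nat_lit 1) (.e (nat_lit 51452) (nat_lit 0) .nil) .nil))) 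
(.lf (nat_lit 460324) (.g (nat_lit 4267) (.e (nat_lit 2819) (nat_lit 181) (.e (nat_lit 311339) (nat_lit 12) (.e (nat_lit 475183) (nat_lit 29) (.e (nat_lit 557108) (nat_lit 15) (.e (nat_lit 188449) (nat_lit 22) (.e (nat_lit 196683) (nat_lit 18) .nil)))))) (.g (nat_lit 1) (.e (nat_lit 53548) (nat_lit 0) .nil) .nil)))) (.nd (nat_lit 9) 
(.lf (nat_lit 460068) (.g (nat_lit 3361) (.e (nat_lit 2810) (nat_lit 180) (.e (nat_lit 303117) (nat_lit 2) (.e (nat_lit 196666) (nat_lit 13) (.e (nat_lit 65589) (nat_lit 9) (.e (nat_lit 336013) (nat_lit 2) (.e (nat_lit 90165) (nat_lit 12) (.e (nat_lit 164208) (nat_lit 176) .nil))))))) (.g (nat_lit 1) (.e (nat_lit 52701) (nat_lit 0) .nil) .nil))) 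
(.lf (nat_lit 460580) (.g (nat_lit 2476) (.e (nat_lit 2830) (nat_lit 182) (.e (nat_lit 409643) (nat_lit 18) (.e (nat_lit 303112) (nat_lit 0) (.e (nat_lit 3252) (nat_lit 197) (.e (nat_lit 532560) (nat_lit 14) (.e (nat_lit 376863) (nat_lit 22) (.e (nat_lit 90130) (nat_lit 9) .nil))))))) (.g (nat_lit 1) (.e (nat_lit 55024) (nat_lit 0) .nil) .nil))))) (.nd (nat_lit 8) (.nd (nat_lit 9) 
(.lf (nat_lit 459940) (.g (nat_lit 2890) (.e (nat_lit 2804) (nat_lit 180) (.e (nat_lit 303117) (nat_lit 2) (.e (nat_lit 196666) (nat_lit 13) (.e (nat_lit 65610) (nat_lit 10) (.e (nat_lit 344117) (nat_lit 21) (.e (nat_lit 516106) (nat_lit 0) (.e (nat_lit 6998) (nat_lit 377) .nil))))))) (.g (nat_lit 1) (.e (nat_lit 52083) (nat_lit 0) .nil) .nil))) 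
(.lf (nat_lit 460452) (.g (nat_lit 3085) (.e (nat_lit 2781) (nat_lit 178) (.e (nat_lit 286765) (nat_lit 15) (.e (nat_lit 3296) (nat_lit 202) (.e (nat_lit 573482) (nat_lit 13) (.e (nat_lit 65604) (nat_lit 9) (.e (nat_lit 336013) (nat_lit 2) (.e (nat_lit 90165) (nat_lit 12) (.e (nat_lit 164208) (nat_lit 176) .nil)))))))) (.g (nat_lit 1) (.e (nat_lit 53879) (nat_lit 0) .nil) .nil)))) 
(.nd (nat_lit 9) 
(.lf (nat_lit 460196) (.g (nat_lit 3444) (.e (nat_lit 2811) (nat_lit 180) (.e (nat_lit 303143) (nat_lit 12) (.e (nat_lit 475185) (nat_lit 29) (.e (nat_lit 557098) (nat_lit 13) .nil)))) (.g (nat_lit 0) (.e (nat_lit 53010) (nat_lit 0) .nil) .nil))) 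
(.lf (nat_lit 460708) (.g (nat_lit 2689) (.e (nat_lit 2830) (nat_lit 182) (.e (nat_lit 409649) (nat_lit 18) (.e (nat_lit 303111) (nat_lit 0) (.e (nat_lit 3255) (nat_lit 197) (.e (nat_lit 532560) (nat_lit 14) (.e (nat_lit 376865) (nat_lit 22) (.e (nat_lit 90130) (nat_lit 9) .nil))))))) (.g (nat_lit 1) (.e (nat_lit 55350) (nat_lit 0) .nil) .nil)))))) 
(.nd (nat_lit 7) (.nd (nat_lit 8) (.nd (nat_lit 9) 
(.lf (nat_lit 459876) (.g (nat_lit 2554) (.e (nat_lit 2798) (nat_lit 180) (.e (nat_lit 303143) (nat_lit 12) (.e (nat_lit 475185) (nat_lit 29) (.e (nat_lit 557107) (nat_lit 15) (.e (nat_lit 188441) (nat_lit 20) .nil))))) (.g (nat_lit 0) (.e (nat_lit 51550) (nat_lit 0) .nil) .nil))) 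
(.lf (nat_lit 460388) (.g (nat_lit 3690) (.e (nat_lit 2777) (nat_lit 178) (.e (nat_lit 286765) (nat_lit 15) (.e (nat_lit 3308) (nat_lit 202) (.e (nat_lit 573493) (nat_lit 15) (.e (nat_lit 81953) (nat_lit 22) (.e (nat_lit 90165) (nat_lit 12) (.e (nat_lit 164208) (nat_lit 176) .nil))))))) (.g (nat_lit 1) (.e (nat_lit 53720) (nat_lit 0) .nil) .nil)))) (.nd (nat_lit 9) 
(.lf (nat_lit 460132) (.g (nat_lit 3359) (.e (nat_lit 2810) (nat_lit 180) (.e (nat_lit 303119) (nat_lit 3) (.e (nat_lit 204866) (nat_lit 28) (.e (nat_lit 352312) (nat_lit 22) (.e (nat_lit 90165) (nat_lit 12) (.e (nat_lit 164208) (nat_lit 176) .nil)))))) (.g (nat_lit 1) (.e (nat_lit 52780) (nat_lit 0) .nil) .nil))) 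
(.lf (nat_lit 460644) (.g (nat_lit 4016) (.e (nat_lit 2830) (nat_lit 182) (.e (nat_lit 409648) (nat_lit 18) (.e (nat_lit 303112) (nat_lit 0) (.e (nat_lit 3252) (nat_lit 197) (.e (nat_lit 532561) (nat_lit 14) (.e (nat_lit 376862) (nat_lit 22) (.e (nat_lit 90130) (nat_lit 9) .nil))))))) (.g (nat_lit 1) (.e (nat_lit 55136) (nat_lit 0) .nil) .nil))))) (.nd (nat_lit 8) (.nd (nat_lit 9) 
(.lf (nat_lit 460004) (.g (nat_lit 4468) (.e (nat_lit 2808) (nat_lit 180) (.e (nat_lit 303116) (nat_lit 2) (.e (nat_lit 196666) (nat_lit 13) (.e (nat_lit 65610) (nat_lit 10) (.e (nat_lit 344117) (nat_lit 21) (.e (nat_lit 516106) (nat_lit 0) (.e (nat_lit 7014) (nat_lit 377) .nil))))))) (.g (nat_lit 1) (.e (nat_lit 52308) (nat_lit 0) .nil) .nil))) 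
(.lf (nat_lit 460516) (.g (nat_lit 937) (.e (nat_lit 2821) (nat_lit 182) (.e (nat_lit 409649) (nat_lit 18) (.e (nat_lit 303118) (nat_lit 3) .nil))) (.g (nat_lit 0) (.e (nat_lit 54265) (nat_lit 0) .nil) .nil)))) (.nd (nat_lit 9) 
(.lf (nat_lit 460260) (.g (nat_lit 1905) (.e (nat_lit 2816) (nat_lit 181) (.e (nat_lit 311311) (nat_lit 2) (.e (nat_lit 196672) (nat_lit 15) (.e (nat_lit 81954) (nat_lit 23) (.e (nat_lit 98320) (nat_lit 17) .nil))))) (.g (nat_lit 0) (.e (nat_lit 53297) (nat_lit 0) .nil) .nil))) 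
(.lf (nat_lit 460772) (.g (nat_lit 1809) (.e (nat_lit 2842) (nat_lit 184) (.e (nat_lit 426140) (nat_lit 3) (.e (nat_lit 204868) (nat_lit 29) (.e (nat_lit 360473) (nat_lit 8) (.e (nat_lit 557091) (nat_lit 12) .nil))))) (.g (nat_lit 0) (.e (nat_lit 56152) (nat_lit 0) .nil) .nil)))))))) (.nd (nat_lit 5) (.nd (nat_lit 6) (.nd (nat_lit 7) (.nd (nat_lit 8) (.nd (nat_lit 9) 
(.lf (nat_lit 459796) (.g (nat_lit 1475) (.e (nat_lit 2798) (nat_lit 180) (.e (nat_lit 303142) (nat_lit 12) (.e (nat_lit 475184) (nat_lit 29) (.e (nat_lit 557109) (nat_lit 15) (.e (nat_lit 188449) (nat_lit 22) .nil))))) (.g (nat_lit 0) (.e (nat_lit 51329) (nat_lit 0) .nil) .nil))) 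
(.lf (nat_lit 460308) (.g (nat_lit 2788) (.e (nat_lit 2819) (nat_lit 181) (.e (nat_lit 311311) (nat_lit 2) (.e (nat_lit 196672) (nat_lit 15) (.e (nat_lit 81951) (nat_lit 22) (.e (nat_lit 90165) (nat_lit 12) (.e (nat_lit 164208) (nat_lit 176) .nil)))))) (.g (nat_lit 1) (.e (nat_lit 53517) (nat_lit 0) .nil) .nil)))) (.nd (nat_lit 9) 
(.lf (nat_lit 460052) (.g (nat_lit 2539) (.e (nat_lit 2809) (nat_lit 180) (.e (nat_lit 303117) (nat_lit 2) (.e (nat_lit 196672) (nat_lit 15) (.e (nat_lit 81953) (nat_lit 22) .nil)))) (.g (nat_lit 0) (.e (nat_lit 52539) (nat_lit 0) .nil) .nil))) 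
(.lf (nat_lit 460564) (.g (nat_lit 2394) (.e (nat_lit 2829) (nat_lit 182) (.e (nat_lit 409648) (nat_lit 18) (.e (nat_lit 303116) (nat_lit 2) (.e (nat_lit 196673) (nat_lit 15) (.e (nat_lit 81962) (nat_lit 25) (.e (nat_lit 139289) (nat_lit 9) .nil)))))) (.g (nat_lit 1) (.e (nat_lit 54902) (nat_lit 0) .nil) .nil))))) (.nd (nat_lit 8) (.nd (nat_lit 9) 
(.lf (nat_lit 459924) (.g (nat_lit 1882) (.e (nat_lit 2802) (nat_lit 180) (.e (nat_lit 303117) (nat_lit 2) (.e (nat_lit 196672) (nat_lit 15) (.e (nat_lit 81954) (nat_lit 23) .nil)))) (.g (nat_lit 0) (.e (nat_lit 51937) (nat_lit 0) .nil) .nil))) 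
(.lf (nat_lit 460436) (.g (nat_lit 2132) (.e (nat_lit 2779) (nat_lit 178) (.e (nat_lit 286768) (nat_lit 27) (.e (nat_lit 426338) (nat_lit 14) (.e (nat_lit 491549) (nat_lit 9) (.e (nat_lit 336421) (nat_lit 28) (.e (nat_lit 434186) (nat_lit 13) .nil)))))) (.g (nat_lit 1) (.e (nat_lit 53816) (nat_lit 0) .nil) .nil)))) (.nd (nat_lit 9) 
(.lf (nat_lit 460180) (.g (nat_lit 1357) (.e (nat_lit 2810) (nat_lit 180) (.e (nat_lit 303143) (nat_lit 12) (.e (nat_lit 475212) (nat_lit 42) (.e (nat_lit 720956) (nat_lit 25) (.e (nat_lit 114697) (nat_lit 11) (.e (nat_lit 426024) (nat_lit 0) (.e (nat_lit 6989) (nat_lit 377) .nil))))))) (.g (nat_lit 1) (.e (nat_lit 52867) (nat_lit 0) .nil) .nil))) 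
(.lf (nat_lit 460692) (.g (nat_lit 977) (.e (nat_lit 2830) (nat_lit 182) (.e (nat_lit 409649) (nat_lit 18) (.e (nat_lit 303112) (nat_lit 0) .nil))) (.g (nat_lit 0) (.e (nat_lit 55331) (nat_lit 0) .nil) .nil)))))) (.nd (nat_lit 7) (.nd (nat_lit 8) (.nd (nat_lit 9) 
(.lf (nat_lit 459860) (.g (nat_lit 2928) (.e (nat_lit 2798) (nat_lit 180) (.e (nat_lit 303143) (nat_lit 12) (.e (nat_lit 475185) (nat_lit 29) (.e (nat_lit 557101) (nat_lit 13) (.e (nat_lit 172097) (nat_lit 9) (.e (nat_lit 426117) (nat_lit 2) (.e (nat_lit 204544) (nat_lit 18) .nil))))))) (.g (nat_lit 1) (.e (nat_lit 51515) (nat_lit 0) .nil) .nil))) 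
(.lf (nat_lit 460372) (.g (nat_lit 3401) (.e (nat_lit 2777) (nat_lit 178) (.e (nat_lit 286765) (nat_lit 15) (.e (nat_lit 3304) (nat_lit 202) (.e (nat_lit 573482) (nat_lit 13) (.e (nat_lit 65604) (nat_lit 9) (.e (nat_lit 336028) (nat_lit 3) (.e (nat_lit 98325) (nat_lit 17) (.e (nat_lit 6986) (nat_lit 377) .nil)))))))) (.g (nat_lit 1) (.e (nat_lit 53700) (nat_lit 0) .nil) .nil)))) (.nd (nat_lit 9) 
(.lf (nat_lit 460116) (.g (nat_lit 2566) (.e (nat_lit 2810) (nat_lit 180) (.e (nat_lit 303119) (nat_lit 3) (.e (nat_lit 204855) (nat_lit 26) (.e (nat_lit 336111) (nat_lit 9) (.e (nat_lit 336013) (nat_lit 2) (.e (nat_lit 90165) (nat_lit 12) (.e (nat_lit 164208) (nat_lit 176) .nil))))))) (.g (nat_lit 1) (.e (nat_lit 52761) (nat_lit 0) .nil) .nil))) 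
(.lf (nat_lit 460628) (.g (nat_lit 4047) (.e (nat_lit 2830) (nat_lit 182) (.e (nat_lit 409648) (nat_lit 18) (.e (nat_lit 303104) (nat_lit 0) (.e (nat_lit 3238) (nat_lit 197) (.e (nat_lit 532560) (nat_lit 14) (.e (nat_lit 376863) (nat_lit 22) (.e (nat_lit 90130) (nat_lit 9) .nil))))))) (.g (nat_lit 1) (.e (nat_lit 55118) (nat_lit 0) .nil) .nil))))) (.nd (nat_lit 8) (.nd (nat_lit 9) 
(.lf (nat_lit 459988) (.g (nat_lit 2670) (.e (nat_lit 2807) (nat_lit 180) (.e (nat_lit 303137) (nat_lit 10) (.e (nat_lit 434241) (nat_lit 27) (.e (nat_lit 565269) (nat_lit 6) (.e (nat_lit 81963) (nat_lit 26) (.e (nat_lit 147512) (nat_lit 14) .nil)))))) (.g (nat_lit 1) (.e (nat_lit 52274) (nat_lit 0) .nil) .nil))) 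
(.lf (nat_lit 460500) (.g (nat_lit 2519) (.e (nat_lit 2789) (nat_lit 179) (.e (nat_lit 294973) (nat_lit 28) (.e (nat_lit 434180) (nat_lit 0) (.e (nat_lit 1427) (nat_lit 108) (.e (nat_lit 336421) (nat_lit 28) (.e (nat_lit 434186) (nat_lit 13) .nil)))))) (.g (nat_lit 1) (.e (nat_lit 54174) (nat_lit 0) .nil) .nil)))) (.nd (nat_lit 9) 
(.lf (nat_lit 460244) (.g (nat_lit 3853) (.e (nat_lit 2814) (nat_lit 181) (.e (nat_lit 311312) (nat_lit 2) (.e (nat_lit 196666) (nat_lit 13) (.e (nat_lit 65610) (nat_lit 10) (.e (nat_lit 344117) (nat_lit 21) (.e (nat_lit 516099) (nat_lit 0) (.e (nat_lit 7062) (nat_lit 377) .nil))))))) (.g (nat_lit 1) (.e (nat_lit 53239) (nat_lit 0) .nil) .nil))) 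
(.lf (nat_lit 460756) (.g (nat_lit 1526) (.e (nat_lit 2828) (nat_lit 182) (.e (nat_lit 409649) (nat_lit 18) (.e (nat_lit 303116) (nat_lit 2) (.e (nat_lit 196672) (nat_lit 15) .nil)))) (.g (nat_lit 0) (.e (nat_lit 56054) (nat_lit 0) .nil) .nil))))))) (.nd (nat_lit 6) (.nd (nat_lit 7) (.nd (nat_lit 8) (.nd (nat_lit 9) 
(.lf (nat_lit 459828) (.g (nat_lit 3099) (.e (nat_lit 2798) (nat_lit 180) (.e (nat_lit 303143) (nat_lit 12) (.e (nat_lit 475185) (nat_lit 29) (.e (nat_lit 557100) (nat_lit 13) (.e (nat_lit 179968) (nat_lit 9) (.e (nat_lit 426123) (nat_lit 2) (.e (nat_lit 204544) (nat_lit 18) .nil))))))) (.g (nat_lit 1) (.e (nat_lit 51471) (nat_lit 0) .nil) .nil))) 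
(.lf (nat_lit 460340) (.g (nat_lit 1980) (.e (nat_lit 2777) (nat_lit 178) (.e (nat_lit 286735) (nat_lit 3) (.e (nat_lit 98350) (nat_lit 24) (.e (nat_lit 409648) (nat_lit 18) (.e (nat_lit 303108) (nat_lit 0) .nil))))) (.g (nat_lit 0) (.e (nat_lit 53664) (nat_lit 0) .nil) .nil)))) (.nd (nat_lit 9) 
(.lf (nat_lit 460084) (.g (nat_lit 261) (.e (nat_lit 2810) (nat_lit 180) (.e (nat_lit 303117) (nat_lit 2) (.e (nat_lit 196673) (nat_lit 15) .nil))) (.g (nat_lit 0) (.e (nat_lit 52717) (nat_lit 0) .nil) .nil))) 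
(.lf (nat_lit 460596) (.g (nat_lit 2266) (.e (nat_lit 2830) (nat_lit 182) (.e (nat_lit 409645) (nat_lit 18) (.e (nat_lit 303119) (nat_lit 3) (.e (nat_lit 204878) (nat_lit 31) (.e (nat_lit 376864) (nat_lit 22) .nil))))) (.g (nat_lit 0) (.e (nat_lit 55052) (nat_lit 0) .nil) .nil))))) (.nd (nat_lit 8) (.nd (nat_lit 9) 
(.lf (nat_lit 459956) (.g (nat_lit 3254) (.e (nat_lit 2804) (nat_lit 180) (.e (nat_lit 303119) (nat_lit 3) (.e (nat_lit 204868) (nat_lit 29) (.e (nat_lit 360466) (nat_lit 3) (.e (nat_lit 516100) (nat_lit 0) (.e (nat_lit 7062) (nat_lit 377) .nil)))))) (.g (nat_lit 1) (.e (nat_lit 52109) (nat_lit 0) .nil) .nil))) 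
(.lf (nat_lit 460468) (.g (nat_lit 1596) (.e (nat_lit 2786) (nat_lit 179) (.e (nat_lit 294973) (nat_lit 28) (.e (nat_lit 434180) (nat_lit 0) (.e (nat_lit 1428) (nat_lit 108) (.e (nat_lit 336421) (nat_lit 28) (.e (nat_lit 434189) (nat_lit 13) .nil)))))) (.g (nat_lit 1) (.e (nat_lit 53914) (nat_lit 0) .nil) .nil)))) (.nd (nat_lit 9) 
(.lf (nat_lit 460212) (.g (nat_lit 3438) (.e (nat_lit 7936) (nat_lit 180) (.e (nat_lit 303117) (nat_lit 2) (.e (nat_lit 196666) (nat_lit 13) (.e (nat_lit 65617) (nat_lit 10) (.e (nat_lit 344117) (nat_lit 21) .nil))))) (.g (nat_lit 0) (.e (nat_lit 53079) (nat_lit 0) .nil) .nil))) 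
(.lf (nat_lit 460724) (.g (nat_lit 2766) (.e (nat_lit 2830) (nat_lit 182) (.e (nat_lit 409649) (nat_lit 18) (.e (nat_lit 303117) (nat_lit 2) (.e (nat_lit 196674) (nat_lit 15) (.e (nat_lit 81952) (nat_lit 22) (.e (nat_lit 90130) (nat_lit 9) .nil)))))) (.g (nat_lit 1) (.e (nat_lit 55372) (nat_lit 0) .nil) .nil)))))) (.nd (nat_lit 7) (.nd (nat_lit 8) (.nd (nat_lit 9) 
(.lf (nat_lit 459892) (.g (nat_lit 2520) (.e (nat_lit 2798) (nat_lit 180) (.e (nat_lit 303143) (nat_lit 12) (.e (nat_lit 475210) (nat_lit 41) (.e (nat_lit 712755) (nat_lit 30) (.e (nat_lit 450597) (nat_lit 17) (.e (nat_lit 671488) (nat_lit 14) .nil)))))) (.g (nat_lit 1) (.e (nat_lit 51609) (nat_lit 0) .nil) .nil))) 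
(.lf (nat_lit 460404) (.g (nat_lit 2244) (.e (nat_lit 2777) (nat_lit 178) (.e (nat_lit 286770) (nat_lit 28) (.e (nat_lit 434181) (nat_lit 0) (.e (nat_lit 1428) (nat_lit 108) (.e (nat_lit 336421) (nat_lit 28) (.e (nat_lit 434186) (nat_lit 13) .nil)))))) (.g (nat_lit 1) (.e (nat_lit 53744) (nat_lit 0) .nil) .nil)))) (.nd (nat_lit 9) 
(.lf (nat_lit 460148) (.g (nat_lit 542) (.e (nat_lit 2810) (nat_lit 180) (.e (nat_lit 303119) (nat_lit 3) (.e (nat_lit 204869) (nat_lit 29) .nil))) (.g (nat_lit 0) (.e (nat_lit 52796) (nat_lit 0) .nil) .nil))) 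
(.lf (nat_lit 460660) (.g (nat_lit 5107) (.e (nat_lit 2830) (nat_lit 182) (.e (nat_lit 409648) (nat_lit 18) (.e (nat_lit 303117) (nat_lit 2) (.e (nat_lit 196673) (nat_lit 15) (.e (nat_lit 81953) (nat_lit 22) (.e (nat_lit 90130) (nat_lit 9) .nil)))))) (.g (nat_lit 1) (.e (nat_lit 55177) (nat_lit 0) .nil) .nil))))) (.nd (nat_lit 8) (.nd (nat_lit 9) 
(.lf (nat_lit 460020) (.g (nat_lit 1802) (.e (nat_lit 2808) (nat_lit 180) (.e (nat_lit 303118) (nat_lit 3) (.e (nat_lit 204877) (nat_lit 31) (.e (nat_lit 376865) (nat_lit 22) (.e (nat_lit 90181) (nat_lit 16) (.e (nat_lit 229571) (nat_lit 176) .nil)))))) (.g (nat_lit 1) (.e (nat_lit 52334) (nat_lit 0) .nil) .nil))) 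
(.lf (nat_lit 460532) (.g (nat_lit 1941) (.e (nat_lit 2824) (nat_lit 182) (.e (nat_lit 409645) (nat_lit 18) (.e (nat_lit 303117) (nat_lit 2) (.e (nat_lit 196624) (nat_lit 9) (.e (nat_lit 1615) (nat_lit 113) (.e (nat_lit 376865) (nat_lit 22) (.e (nat_lit 90130) (nat_lit 9) .nil))))))) (.g (nat_lit 1) (.e (nat_lit 54504) (nat_lit 0) .nil) .nil)))) (.nd (nat_lit 9) 
(.lf (nat_lit 460276) (.g (nat_lit 2952) (.e (nat_lit 2816) (nat_lit 181) (.e (nat_lit 311312) (nat_lit 2) (.e (nat_lit 196672) (nat_lit 15) (.e (nat_lit 81954) (nat_lit 23) (.e (nat_lit 98323) (nat_lit 17) (.e (nat_lit 6980) (nat_lit 377) .nil)))))) (.g (nat_lit 1) (.e (nat_lit 53318) (nat_lit 0) .nil) .nil))) 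
(.lf (nat_lit 460788) (.g (nat_lit 1323) (.e (nat_lit 2842) (nat_lit 184) (.e (nat_lit 426540) (nat_lit 29) (.e (nat_lit 352262) (nat_lit 0) (.e (nat_lit 3632) (nat_lit 227) (.e (nat_lit 778323) (nat_lit 5) (.e (nat_lit 81664) (nat_lit 32) .nil)))))) (.g (nat_lit 1) (.e (nat_lit 56195) (nat_lit 0) .nil) .nil))))))))) 
(.nd (nat_lit 4) (.nd (nat_lit 5) (.nd (nat_lit 6) (.nd (nat_lit 7) (.nd (nat_lit 8) 
(.nd (nat_lit 9) 
(.lf (nat_lit 459788) (.g (nat_lit 2372) (.e (nat_lit 2798) (nat_lit 180) (.e (nat_lit 303133) (nat_lit 9) (.e (nat_lit 426499) (nat_lit 27) (.e (nat_lit 336078) (nat_lit 9) (.e (nat_lit 336036) (nat_lit 4) (.e (nat_lit 123195) (nat_lit 266) (.e (nat_lit 57346) (nat_lit 0) (.e (nat_lit 6203) (nat_lit 332) .nil)))))))) (.g (nat_lit 1) (.e (nat_lit 51209) (nat_lit 0) .nil) .nil))) 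
(.lf (nat_lit 460300) (.g (nat_lit 1969) (.e (nat_lit 2817) (nat_lit 181) (.e (nat_lit 311312) (nat_lit 2) (.e (nat_lit 196672) (nat_lit 15) (.e (nat_lit 81954) (nat_lit 23) (.e (nat_lit 98325) (nat_lit 17) (.e (nat_lit 7936) (nat_lit 377) .nil)))))) (.g (nat_lit 1) (.e (nat_lit 53480) (nat_lit 0) .nil) .nil)))) (.nd (nat_lit 9) 
(.lf (nat_lit 460044) (.g (nat_lit 2756) (.e (nat_lit 2809) (nat_lit 180) (.e (nat_lit 303117) (nat_lit 2) (.e (nat_lit 196666) (nat_lit 13) (.e (nat_lit 65610) (nat_lit 10) (.e (nat_lit 344117) (nat_lit 21) (.e (nat_lit 516102) (nat_lit 0) (.e (nat_lit 6984) (nat_lit 377) .nil))))))) (.g (nat_lit 1) (.e (nat_lit 52531) (nat_lit 0) .nil) .nil))) 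
(.lf (nat_lit 460556) (.g (nat_lit 928) (.e (nat_lit 2829) (nat_lit 182) (.e (nat_lit 409646) (nat_lit 18) (.e (nat_lit 303116) (nat_lit 2) .nil))) (.g (nat_lit 0) (.e (nat_lit 54867) (nat_lit 0) .nil) .nil))))) (.nd (nat_lit 8) (.nd (nat_lit 9) 
(.lf (nat_lit 459916) (.g (nat_lit 2864) (.e (nat_lit 2800) (nat_lit 180) (.e (nat_lit 303119) (nat_lit 3) (.e (nat_lit 204868) (nat_lit 29) (.e (nat_lit 360466) (nat_lit 3) .nil)))) (.g (nat_lit 0) (.e (nat_lit 51871) (nat_lit 0) .nil) .nil))) 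
(.lf (nat_lit 460428) (.g (nat_lit 2481) (.e (nat_lit 2779) (nat_lit 178) (.e (nat_lit 286765) (nat_lit 15) (.e (nat_lit 3307) (nat_lit 202) (.e (nat_lit 573485) (nat_lit 13) (.e (nat_lit 65604) (nat_lit 9) (.e (nat_lit 336013) (nat_lit 2) (.e (nat_lit 90165) (nat_lit 12) (.e (nat_lit 164207) (nat_lit 176) .nil)))))))) (.g (nat_lit 1) (.e (nat_lit 53805) (nat_lit 0) .nil) .nil)))) 
(.nd (nat_lit 9) 
(.lf (nat_lit 460172) (.g (nat_lit 5137) (.e (nat_lit 2810) (nat_lit 180) (.e (nat_lit 303143) (nat_lit 12) (.e (nat_lit 475185) (nat_lit 29) (.e (nat_lit 557098) (nat_lit 13) (.e (nat_lit 172100) (nat_lit 9) .nil))))) (.g (nat_lit 0) (.e (nat_lit 52843) (nat_lit 0) .nil) .nil))) 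
(.lf (nat_lit 460684) (.g (nat_lit 3317) (.e (nat_lit 2830) (nat_lit 182) (.e (nat_lit 409649) (nat_lit 18) (.e (nat_lit 303104) (nat_lit 0) (.e (nat_lit 3238) (nat_lit 197) (.e (nat_lit 532560) (nat_lit 14) (.e (nat_lit 376865) (nat_lit 22) (.e (nat_lit 90130) (nat_lit 9) .nil))))))) (.g (nat_lit 1) (.e (nat_lit 55321) (nat_lit 0) .nil) .nil)))))) 
(.nd (nat_lit 7) (.nd (nat_lit 8) (.nd (nat_lit 9) 
(.lf (nat_lit 459852) (.g (nat_lit 4169) (.e (nat_lit 2798) (nat_lit 180) (.e (nat_lit 303143) (nat_lit 12) (.e (nat_lit 475185) (nat_lit 29) (.e (nat_lit 557101) (nat_lit 13) (.e (nat_lit 172085) (nat_lit 9) (.e (nat_lit 426125) (nat_lit 2) (.e (nat_lit 204544) (nat_lit 18) .nil))))))) (.g (nat_lit 1) (.e (nat_lit 51501) (nat_lit 0) .nil) .nil))) 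
(.lf (nat_lit 460364) (.g (nat_lit 2739) (.e (nat_lit 2777) (nat_lit 178) (.e (nat_lit 286765) (nat_lit 15) (.e (nat_lit 3298) (nat_lit 202) (.e (nat_lit 573481) (nat_lit 13) (.e (nat_lit 65604) (nat_lit 9) (.e (nat_lit 336013) (nat_lit 2) (.e (nat_lit 90165) (nat_lit 12) (.e (nat_lit 164207) (nat_lit 176) .nil)))))))) (.g (nat_lit 1) (.e (nat_lit 53691) (nat_lit 0) .nil) .nil)))) 
(.nd (nat_lit 9) 
(.lf (nat_lit 460108) (.g (nat_lit 2303) (.e (nat_lit 2810) (nat_lit 180) (.e (nat_lit 303119) (nat_lit 3) (.e (nat_lit 204821) (nat_lit 17) (.e (nat_lit 7936) (nat_lit 348) (.e (nat_lit 73746) (nat_lit 3) (.e (nat_lit 516102) (nat_lit 0) (.e (nat_lit 6989) (nat_lit 377) .nil))))))) (.g (nat_lit 1) (.e (nat_lit 52742) (nat_lit 0) .nil) .nil))) 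
(.lf (nat_lit 460620) (.g (nat_lit 2691) (.e (nat_lit 2830) (nat_lit 182) (.e (nat_lit 409647) (nat_lit 18) (.e (nat_lit 303118) (nat_lit 3) (.e (nat_lit 204877) (nat_lit 31) (.e (nat_lit 376864) (nat_lit 22) (.e (nat_lit 90130) (nat_lit 9) .nil)))))) (.g (nat_lit 1) (.e (nat_lit 55103) (nat_lit 0) .nil) .nil))))) (.nd (nat_lit 8) (.nd (nat_lit 9) 
(.lf (nat_lit 459980) (.g (nat_lit 578) (.e (nat_lit 2807) (nat_lit 180) (.e (nat_lit 303118) (nat_lit 3) (.e (nat_lit 204855) (nat_lit 26) .nil))) (.g (nat_lit 0) (.e (nat_lit 52199) (nat_lit 0) .nil) .nil))) 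
(.lf (nat_lit 460492) (.g (nat_lit 1884) (.e (nat_lit 2788) (nat_lit 179) (.e (nat_lit 294973) (nat_lit 28) (.e (nat_lit 434181) (nat_lit 0) (.e (nat_lit 1428) (nat_lit 108) (.e (nat_lit 336421) (nat_lit 28) (.e (nat_lit 434188) (nat_lit 13) .nil)))))) (.g (nat_lit 1) (.e (nat_lit 54073) (nat_lit 0) .nil) .nil)))) (.nd (nat_lit 9) 
(.lf (nat_lit 460236) (.g (nat_lit 3874) (.e (nat_lit 7936) (nat_lit 180) (.e (nat_lit 303143) (nat_lit 12) (.e (nat_lit 475185) (nat_lit 29) (.e (nat_lit 557098) (nat_lit 13) (.e (nat_lit 172094) (nat_lit 9) .nil))))) (.g (nat_lit 0) (.e (nat_lit 53129) (nat_lit 0) .nil) .nil))) 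
(.lf (nat_lit 460748) (.g (nat_lit 3556) (.e (nat_lit 2828) (nat_lit 182) (.e (nat_lit 409646) (nat_lit 18) (.e (nat_lit 303117) (nat_lit 2) (.e (nat_lit 196624) (nat_lit 9) (.e (nat_lit 1615) (nat_lit 113) (.e (nat_lit 376865) (nat_lit 22) (.e (nat_lit 90129) (nat_lit 9) .nil))))))) (.g (nat_lit 1) (.e (nat_lit 55534) (nat_lit 0) .nil) .nil))))))) 
(.nd (nat_lit 6) (.nd (nat_lit 7) (.nd (nat_lit 8) (.nd (nat_lit 9) 
(.lf (nat_lit 459820) (.g (nat_lit 3443) (.e (nat_lit 2798) (nat_lit 180) (.e (nat_lit 303143) (nat_lit 12) (.e (nat_lit 475185) (nat_lit 29) (.e (nat_lit 557100) (nat_lit 13) (.e (nat_lit 172091) (nat_lit 9) (.e (nat_lit 426125) (nat_lit 2) (.e (nat_lit 204544) (nat_lit 18) .nil))))))) (.g (nat_lit 1) (.e (nat_lit 51463) (nat_lit 0) .nil) .nil))) 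
(.lf (nat_lit 460332) (.g (nat_lit 2566) (.e (nat_lit 2776) (nat_lit 178) (.e (nat_lit 286765) (nat_lit 15) (.e (nat_lit 3308) (nat_lit 202) (.e (nat_lit 573482) (nat_lit 13) (.e (nat_lit 65604) (nat_lit 9) .nil))))) (.g (nat_lit 0) (.e (nat_lit 53653) (nat_lit 0) .nil) .nil)))) (.nd (nat_lit 9) 
(.lf (nat_lit 460076) (.g (nat_lit 3412) (.e (nat_lit 2810) (nat_lit 180) (.e (nat_lit 303117) (nat_lit 2) (.e (nat_lit 196666) (nat_lit 13) (.e (nat_lit 65617) (nat_lit 10) (.e (nat_lit 344117) (nat_lit 21) (.e (nat_lit 516102) (nat_lit 0) (.e (nat_lit 6989) (nat_lit 377) .nil))))))) (.g (nat_lit 1) (.e (nat_lit 52709) (nat_lit 0) .nil) .nil))) 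
(.lf (nat_lit 460588) (.g (nat_lit 4056) (.e (nat_lit 2830) (nat_lit 182) (.e (nat_lit 409645) (nat_lit 18) (.e (nat_lit 303112) (nat_lit 0) (.e (nat_lit 3252) (nat_lit 197) (.e (nat_lit 532560) (nat_lit 14) (.e (nat_lit 376863) (nat_lit 22) (.e (nat_lit 90130) (nat_lit 9) .nil))))))) (.g (nat_lit 1) (.e (nat_lit 55039) (nat_lit 0) .nil) .nil))))) (.nd (nat_lit 8) (.nd (nat_lit 9) 
(.lf (nat_lit 459948) (.g (nat_lit 2217) (.e (nat_lit 2804) (nat_lit 180) (.e (nat_lit 303117) (nat_lit 2) (.e (nat_lit 196674) (nat_lit 15) (.e (nat_lit 81953) (nat_lit 22) .nil)))) (.g (nat_lit 0) (.e (nat_lit 52091) (nat_lit 0) .nil) .nil))) 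
(.lf (nat_lit 460460) (.g (nat_lit 2458) (.e (nat_lit 2782) (nat_lit 178) (.e (nat_lit 286765) (nat_lit 15) (.e (nat_lit 3296) (nat_lit 202) (.e (nat_lit 573482) (nat_lit 13) (.e (nat_lit 65604) (nat_lit 9) (.e (nat_lit 336028) (nat_lit 3) (.e (nat_lit 98325) (nat_lit 17) (.e (nat_lit 6986) (nat_lit 377) .nil)))))))) (.g (nat_lit 1) (.e (nat_lit 53894) (nat_lit 0) .nil) .nil)))) (.nd (nat_lit 9) 
(.lf (nat_lit 460204) (.g (nat_lit 3721) (.e (nat_lit 2812) (nat_lit 180) (.e (nat_lit 303119) (nat_lit 3) (.e (nat_lit 204869) (nat_lit 29) (.e (nat_lit 360475) (nat_lit 8) (.e (nat_lit 557068) (nat_lit 9) .nil))))) (.g (nat_lit 0) (.e (nat_lit 53034) (nat_lit 0) .nil) .nil))) 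
(.lf (nat_lit 460716) (.g (nat_lit 2930) (.e (nat_lit 2830) (nat_lit 182) (.e (nat_lit 409649) (nat_lit 18) (.e (nat_lit 303117) (nat_lit 2) (.e (nat_lit 196630) (nat_lit 9) (.e (nat_lit 1563) (nat_lit 110) (.e (nat_lit 352311) (nat_lit 22) (.e (nat_lit 90130) (nat_lit 9) .nil))))))) (.g (nat_lit 1) (.e (nat_lit 55362) (nat_lit 0) .nil) .nil)))))) 
(.nd (nat_lit 7) (.nd (nat_lit 8) (.nd (nat_lit 9) 
(.lf (nat_lit 459884) (.g (nat_lit 5088) (.e (nat_lit 2798) (nat_lit 180) (.e (nat_lit 303143) (nat_lit 12) (.e (nat_lit 475185) (nat_lit 29) (.e (nat_lit 557109) (nat_lit 15) (.e (nat_lit 188449) (nat_lit 22) (.e (nat_lit 204544) (nat_lit 18) .nil)))))) (.g (nat_lit 1) (.e (nat_lit 51558) (nat_lit 0) .nil) .nil))) 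
(.lf (nat_lit 460396) (.g (nat_lit 2119) (.e (nat_lit 2777) (nat_lit 178) (.e (nat_lit 286768) (nat_lit 27) (.e (nat_lit 426340) (nat_lit 14) (.e (nat_lit 491549) (nat_lit 9) (.e (nat_lit 336421) (nat_lit 28) (.e (nat_lit 434186) (nat_lit 13) .nil)))))) (.g (nat_lit 1) (.e (nat_lit 53734) (nat_lit 0) .nil) .nil)))) (.nd (nat_lit 9) 
(.lf (nat_lit 460140) (.g (nat_lit 1545) (.e (nat_lit 2810) (nat_lit 180) (.e (nat_lit 303119) (nat_lit 3) (.e (nat_lit 204867) (nat_lit 28) (.e (nat_lit 352315) (nat_lit 23) (.e (nat_lit 98325) (nat_lit 17) (.e (nat_lit 6966) (nat_lit 377) .nil)))))) (.g (nat_lit 1) (.e (nat_lit 52788) (nat_lit 0) .nil) .nil))) 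
(.lf (nat_lit 460652) (.g (nat_lit 3520) (.e (nat_lit 2830) (nat_lit 182) (.e (nat_lit 409648) (nat_lit 18) (.e (nat_lit 303116) (nat_lit 2) (.e (nat_lit 196674) (nat_lit 15) (.e (nat_lit 81952) (nat_lit 22) (.e (nat_lit 90130) (nat_lit 9) .nil)))))) (.g (nat_lit 1) (.e (nat_lit 55148) (nat_lit 0) .nil) .nil))))) (.nd (nat_lit 8) (.nd (nat_lit 9) 
(.lf (nat_lit 460012) (.g (nat_lit 3466) (.e (nat_lit 2808) (nat_lit 180) (.e (nat_lit 303117) (nat_lit 2) (.e (nat_lit 196666) (nat_lit 13) (.e (nat_lit 65610) (nat_lit 10) (.e (nat_lit 344117) (nat_lit 21) (.e (nat_lit 516106) (nat_lit 0) (.e (nat_lit 7015) (nat_lit 377) .nil))))))) (.g (nat_lit 1) (.e (nat_lit 52316) (nat_lit 0) .nil) .nil))) 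
(.lf (nat_lit 460524) (.g (nat_lit 3059) (.e (nat_lit 2822) (nat_lit 182) (.e (nat_lit 409646) (nat_lit 18) (.e (nat_lit 303117) (nat_lit 2) (.e (nat_lit 196672) (nat_lit 15) (.e (nat_lit 81953) (nat_lit 22) .nil))))) (.g (nat_lit 0) (.e (nat_lit 54357) (nat_lit 0) .nil) .nil)))) (.nd (nat_lit 9) 
(.lf (nat_lit 460268) (.g (nat_lit 4696) (.e (nat_lit 2816) (nat_lit 181) (.e (nat_lit 311312) (nat_lit 2) (.e (nat_lit 196666) (nat_lit 13) (.e (nat_lit 65610) (nat_lit 10) (.e (nat_lit 344117) (nat_lit 21) (.e (nat_lit 516098) (nat_lit 0) (.e (nat_lit 6949) (nat_lit 377) .nil))))))) (.g (nat_lit 1) (.e (nat_lit 53307) (nat_lit 0) .nil) .nil))) 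
(.lf (nat_lit 460780) (.g (nat_lit 2942) (.e (nat_lit 2842) (nat_lit 184) (.e (nat_lit 426317) (nat_lit 12) (.e (nat_lit 475185) (nat_lit 29) (.e (nat_lit 557109) (nat_lit 15) (.e (nat_lit 188441) (nat_lit 20) (.e (nat_lit 3272) (nat_lit 199) (.e (nat_lit 548898) (nat_lit 14) .nil))))))) (.g (nat_lit 1) (.e (nat_lit 56173) (nat_lit 0) .nil) .nil)))))))) 
(.nd (nat_lit 5) (.nd (nat_lit 6) (.nd (nat_lit 7) (.nd (nat_lit 8) (.nd (nat_lit 9) 
(.lf (nat_lit 459804) (.g (nat_lit 5940) (.e (nat_lit 2798) (nat_lit 180) (.e (nat_lit 303143) (nat_lit 12) (.e (nat_lit 475185) (nat_lit 29) (.e (nat_lit 557097) (nat_lit 13) (.e (nat_lit 172094) (nat_lit 9) (.e (nat_lit 426125) (nat_lit 2) (.e (nat_lit 204544) (nat_lit 18) .nil))))))) (.g (nat_lit 1) (.e (nat_lit 51444) (nat_lit 0) .nil) .nil))) 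
(.lf (nat_lit 460316) (.g (nat_lit 2237) (.e (nat_lit 2819) (nat_lit 181) (.e (nat_lit 311315) (nat_lit 3) (.e (nat_lit 204855) (nat_lit 26) (.e (nat_lit 336102) (nat_lit 9) (.e (nat_lit 336013) (nat_lit 2) (.e (nat_lit 90165) (nat_lit 12) (.e (nat_lit 164208) (nat_lit 176) .nil))))))) (.g (nat_lit 1) (.e (nat_lit 53529) (nat_lit 0) .nil) .nil)))) (.nd (nat_lit 9) 
(.lf (nat_lit 460060) (.g (nat_lit 4772) (.e (nat_lit 2809) (nat_lit 180) (.e (nat_lit 303117) (nat_lit 2) (.e (nat_lit 196673) (nat_lit 15) (.e (nat_lit 81956) (nat_lit 23) (.e (nat_lit 98320) (nat_lit 17) (.e (nat_lit 6949) (nat_lit 377) .nil)))))) (.g (nat_lit 1) (.e (nat_lit 52547) (nat_lit 0) .nil) .nil))) 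
(.lf (nat_lit 460572) (.g (nat_lit 289) (.e (nat_lit 2829) (nat_lit 182) (.e (nat_lit 409649) (nat_lit 18) (.e (nat_lit 303117) (nat_lit 2) .nil))) (.g (nat_lit 0) (.e (nat_lit 54948) (nat_lit 0) .nil) .nil))))) (.nd (nat_lit 8) (.nd (nat_lit 9) 
(.lf (nat_lit 459932) (.g (nat_lit 2697) (.e (nat_lit 2802) (nat_lit 180) (.e (nat_lit 303119) (nat_lit 3) (.e (nat_lit 204868) (nat_lit 29) (.e (nat_lit 360466) (nat_lit 3) (.e (nat_lit 516105) (nat_lit 0) (.e (nat_lit 7936) (nat_lit 377) .nil)))))) (.g (nat_lit 1) (.e (nat_lit 51969) (nat_lit 0) .nil) .nil))) 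
(.lf (nat_lit 460444) (.g (nat_lit 1748) (.e (nat_lit 2779) (nat_lit 178) (.e (nat_lit 286770) (nat_lit 28) (.e (nat_lit 434181) (nat_lit 0) (.e (nat_lit 1428) (nat_lit 108) (.e (nat_lit 336421) (nat_lit 28) (.e (nat_lit 434186) (nat_lit 13) .nil)))))) (.g (nat_lit 1) (.e (nat_lit 53828) (nat_lit 0) .nil) .nil)))) (.nd (nat_lit 9) 
(.lf (nat_lit 460188) (.g (nat_lit 2090) (.e (nat_lit 2810) (nat_lit 180) (.e (nat_lit 303145) (nat_lit 13) (.e (nat_lit 483387) (nat_lit 23) (.e (nat_lit 336032) (nat_lit 4) (.e (nat_lit 123195) (nat_lit 266) (.e (nat_lit 57350) (nat_lit 0) (.e (nat_lit 6113) (nat_lit 332) .nil))))))) (.g (nat_lit 1) (.e (nat_lit 52924) (nat_lit 0) .nil) .nil))) 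
(.lf (nat_lit 460700) (.g (nat_lit 2661) (.e (nat_lit 2830) (nat_lit 182) (.e (nat_lit 409649) (nat_lit 18) (.e (nat_lit 303111) (nat_lit 0) (.e (nat_lit 3238) (nat_lit 197) (.e (nat_lit 532559) (nat_lit 14) (.e (nat_lit 376863) (nat_lit 22) (.e (nat_lit 90130) (nat_lit 9) .nil))))))) (.g (nat_lit 1) (.e (nat_lit 55340) (nat_lit 0) .nil) .nil)))))) 
(.nd (nat_lit 7) (.nd (nat_lit 8) (.nd (nat_lit 9) 
(.lf (nat_lit 459868) (.g (nat_lit 2706) (.e (nat_lit 2798) (nat_lit 180) (.e (nat_lit 303143) (nat_lit 12) (.e (nat_lit 475185) (nat_lit 29) (.e (nat_lit 557101) (nat_lit 13) (.e (nat_lit 172115) (nat_lit 10) (.e (nat_lit 434221) (nat_lit 19) (.e (nat_lit 507648) (nat_lit 0) .nil))))))) (.g (nat_lit 1) (.e (nat_lit 51525) (nat_lit 0) .nil) .nil))) 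
(.lf (nat_lit 460380) (.g (nat_lit 4139) (.e (nat_lit 2777) (nat_lit 178) (.e (nat_lit 286765) (nat_lit 15) (.e (nat_lit 3307) (nat_lit 202) (.e (nat_lit 573491) (nat_lit 15) (.e (nat_lit 81954) (nat_lit 23) (.e (nat_lit 98325) (nat_lit 17) (.e (nat_lit 6986) (nat_lit 377) .nil))))))) (.g (nat_lit 1) (.e (nat_lit 53712) (nat_lit 0) .nil) .nil)))) (.nd (nat_lit 9) 
(.lf (nat_lit 460124) (.g (nat_lit 2683) (.e (nat_lit 2810) (nat_lit 180) (.e (nat_lit 303119) (nat_lit 3) (.e (nat_lit 204865) (nat_lit 28) (.e (nat_lit 352312) (nat_lit 22) (.e (nat_lit 90165) (nat_lit 12) (.e (nat_lit 164208) (nat_lit 176) .nil)))))) (.g (nat_lit 1) (.e (nat_lit 52772) (nat_lit 0) .nil) .nil))) 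
(.lf (nat_lit 460636) (.g (nat_lit 3441) (.e (nat_lit 2830) (nat_lit 182) (.e (nat_lit 409648) (nat_lit 18) (.e (nat_lit 303109) (nat_lit 0) (.e (nat_lit 3252) (nat_lit 197) (.e (nat_lit 532560) (nat_lit 14) (.e (nat_lit 376863) (nat_lit 22) (.e (nat_lit 90130) (nat_lit 9) .nil))))))) (.g (nat_lit 1) (.e (nat_lit 55128) (nat_lit 0) .nil) .nil))))) (.nd (nat_lit 8) (.nd (nat_lit 9) 
(.lf (nat_lit 459996) (.g (nat_lit 3009) (.e (nat_lit 2808) (nat_lit 180) (.e (nat_lit 303116) (nat_lit 2) (.e (nat_lit 196666) (nat_lit 13) (.e (nat_lit 65610) (nat_lit 10) (.e (nat_lit 344117) (nat_lit 21) (.e (nat_lit 516096) (nat_lit 0) (.e (nat_lit 7013) (nat_lit 377) .nil))))))) (.g (nat_lit 1) (.e (nat_lit 52300) (nat_lit 0) .nil) .nil))) 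
(.lf (nat_lit 460508) (.g (nat_lit 2082) (.e (nat_lit 2789) (nat_lit 179) (.e (nat_lit 294973) (nat_lit 28) (.e (nat_lit 434181) (nat_lit 0) (.e (nat_lit 1428) (nat_lit 108) (.e (nat_lit 336421) (nat_lit 28) (.e (nat_lit 434188) (nat_lit 13) .nil)))))) (.g (nat_lit 1) (.e (nat_lit 54182) (nat_lit 0) .nil) .nil)))) (.nd (nat_lit 9) 
(.lf (nat_lit 460252) (.g (nat_lit 422) (.e (nat_lit 2814) (nat_lit 181) (.e (nat_lit 311315) (nat_lit 3) (.e (nat_lit 204877) (nat_lit 31) .nil))) (.g (nat_lit 0) (.e (nat_lit 53250) (nat_lit 0) .nil) .nil))) 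
(.lf (nat_lit 460764) (.g (nat_lit 1362) (.e (nat_lit 2842) (nat_lit 184) (.e (nat_lit 426125) (nat_lit 2) (.e (nat_lit 196666) (nat_lit 13) (.e (nat_lit 65617) (nat_lit 10) .nil)))) (.g (nat_lit 0) (.e (nat_lit 56133) (nat_lit 0) .nil) .nil))))))) (.nd (nat_lit 6) (.nd (nat_lit 7) (.nd (nat_lit 8) (.nd (nat_lit 9) 
(.lf (nat_lit 459836) (.g (nat_lit 3401) (.e (nat_lit 2798) (nat_lit 180) (.e (nat_lit 303143) (nat_lit 12) (.e (nat_lit 475185) (nat_lit 29) (.e (nat_lit 557100) (nat_lit 13) (.e (nat_lit 172106) (nat_lit 10) (.e (nat_lit 434224) (nat_lit 19) (.e (nat_lit 499767) (nat_lit 0) .nil))))))) (.g (nat_lit 1) (.e (nat_lit 51481) (nat_lit 0) .nil) .nil))) 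
(.lf (nat_lit 460348) (.g (nat_lit 2300) (.e (nat_lit 2777) (nat_lit 178) (.e (nat_lit 286735) (nat_lit 3) (.e (nat_lit 98388) (nat_lit 33) (.e (nat_lit 491546) (nat_lit 9) (.e (nat_lit 336028) (nat_lit 3) (.e (nat_lit 98325) (nat_lit 17) (.e (nat_lit 6986) (nat_lit 377) .nil))))))) (.g (nat_lit 1) (.e (nat_lit 53672) (nat_lit 0) .nil) .nil)))) (.nd (nat_lit 9) 
(.lf (nat_lit 460092) (.g (nat_lit 2316) (.e (nat_lit 2810) (nat_lit 180) (.e (nat_lit 303117) (nat_lit 2) (.e (nat_lit 196674) (nat_lit 15) (.e (nat_lit 81946) (nat_lit 20) (.e (nat_lit 1802) (nat_lit 119) (.e (nat_lit 516102) (nat_lit 0) (.e (nat_lit 6989) (nat_lit 377) .nil))))))) (.g (nat_lit 1) (.e (nat_lit 52725) (nat_lit 0) .nil) .nil))) 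
(.lf (nat_lit 460604) (.g (nat_lit 3817) (.e (nat_lit 2830) (nat_lit 182) (.e (nat_lit 409646) (nat_lit 18) (.e (nat_lit 303112) (nat_lit 0) (.e (nat_lit 3252) (nat_lit 197) (.e (nat_lit 532561) (nat_lit 14) (.e (nat_lit 376865) (nat_lit 22) (.e (nat_lit 90130) (nat_lit 9) .nil))))))) (.g (nat_lit 1) (.e (nat_lit 55062) (nat_lit 0) .nil) .nil))))) (.nd (nat_lit 8) (.nd (nat_lit 9) 
(.lf (nat_lit 459964) (.g (nat_lit 1551) (.e (nat_lit 2805) (nat_lit 180) (.e (nat_lit 303118) (nat_lit 3) (.e (nat_lit 204868) (nat_lit 29) (.e (nat_lit 360466) (nat_lit 3) .nil)))) (.g (nat_lit 0) (.e (nat_lit 52149) (nat_lit 0) .nil) .nil))) 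
(.lf (nat_lit 460476) (.g (nat_lit 948) (.e (nat_lit 2787) (nat_lit 179) (.e (nat_lit 294973) (nat_lit 28) (.e (nat_lit 434181) (nat_lit 0) (.e (nat_lit 1425) (nat_lit 108) (.e (nat_lit 336421) (nat_lit 28) (.e (nat_lit 434189) (nat_lit 13) .nil)))))) (.g (nat_lit 1) (.e (nat_lit 53984) (nat_lit 0) .nil) .nil)))) (.nd (nat_lit 9) 
(.lf (nat_lit 460220) (.g (nat_lit 1680) (.e (nat_lit 7936) (nat_lit 180) (.e (nat_lit 303117) (nat_lit 2) (.e (nat_lit 196673) (nat_lit 15) (.e (nat_lit 81951) (nat_lit 22) (.e (nat_lit 90165) (nat_lit 12) .nil))))) (.g (nat_lit 0) (.e (nat_lit 53087) (nat_lit 0) .nil) .nil))) 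
(.lf (nat_lit 460732) (.g (nat_lit 2767) (.e (nat_lit 2830) (nat_lit 182) (.e (nat_lit 409649) (nat_lit 18) (.e (nat_lit 303119) (nat_lit 3) (.e (nat_lit 204877) (nat_lit 31) (.e (nat_lit 376863) (nat_lit 22) (.e (nat_lit 90130) (nat_lit 9) .nil)))))) (.g (nat_lit 1) (.e (nat_lit 55411) (nat_lit 0) .nil) .nil)))))) (.nd (nat_lit 7) (.nd (nat_lit 8) (.nd (nat_lit 9) 
(.lf (nat_lit 459900) (.g (nat_lit 2224) (.e (nat_lit 2798) (nat_lit 180) (.e (nat_lit 303145) (nat_lit 13) (.e (nat_lit 483346) (nat_lit 17) (.e (nat_lit 2263) (nat_lit 148) .nil)))) (.g (nat_lit 0) (.e (nat_lit 51635) (nat_lit 0) .nil) .nil))) 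
(.lf (nat_lit 460412) (.g (nat_lit 2151) (.e (nat_lit 2779) (nat_lit 178) (.e (nat_lit 286735) (nat_lit 3) (.e (nat_lit 98320) (nat_lit 17) (.e (nat_lit 7593) (nat_lit 407) (.e (nat_lit 73748) (nat_lit 3) .nil))))) (.g (nat_lit 0) (.e (nat_lit 53785) (nat_lit 0) .nil) .nil)))) (.nd (nat_lit 9) 
(.lf (nat_lit 460156) (.g (nat_lit 3021) (.e (nat_lit 2810) (nat_lit 180) (.e (nat_lit 303119) (nat_lit 3) (.e (nat_lit 204876) (nat_lit 31) (.e (nat_lit 376867) (nat_lit 23) (.e (nat_lit 98323) (nat_lit 17) (.e (nat_lit 6989) (nat_lit 377) .nil)))))) (.g (nat_lit 1) (.e (nat_lit 52812) (nat_lit 0) .nil) .nil))) 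
(.lf (nat_lit 460668) (.g (nat_lit 3230) (.e (nat_lit 2830) (nat_lit 182) (.e (nat_lit 409648) (nat_lit 18) (.e (nat_lit 303118) (nat_lit 3) (.e (nat_lit 204877) (nat_lit 31) (.e (nat_lit 376863) (nat_lit 22) (.e (nat_lit 90130) (nat_lit 9) .nil)))))) (.g (nat_lit 1) (.e (nat_lit 55194) (nat_lit 0) .nil) .nil))))) (.nd (nat_lit 8) (.nd (nat_lit 9) 
(.lf (nat_lit 460028) (.g (nat_lit 3533) (.e (nat_lit 2808) (nat_lit 180) (.e (nat_lit 303140) (nat_lit 10) (.e (nat_lit 434295) (nat_lit 49) (.e (nat_lit 745491) (nat_lit 4) (.e (nat_lit 65619) (nat_lit 10) (.e (nat_lit 344129) (nat_lit 26) (.e (nat_lit 557118) (nat_lit 18) .nil))))))) (.g (nat_lit 1) (.e (nat_lit 52477) (nat_lit 0) .nil) .nil))) 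
(.lf (nat_lit 460540) (.g (nat_lit 1005) (.e (nat_lit 2827) (nat_lit 182) (.e (nat_lit 409645) (nat_lit 18) (.e (nat_lit 303117) (nat_lit 2) .nil))) (.g (nat_lit 0) (.e (nat_lit 54790) (nat_lit 0) .nil) .nil)))) (.nd (nat_lit 9) 
(.lf (nat_lit 460284) (.g (nat_lit 1047) (.e (nat_lit 2816) (nat_lit 181) (.e (nat_lit 311339) (nat_lit 12) (.e (nat_lit 475207) (nat_lit 41) (.e (nat_lit 712755) (nat_lit 30) (.e (nat_lit 450597) (nat_lit 17) .nil))))) (.g (nat_lit 0) (.e (nat_lit 53375) (nat_lit 0) .nil) .nil))) 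
(.lf (nat_lit 460796) (.g (nat_lit 1785) (.e (nat_lit 2842) (nat_lit 184) (.e (nat_lit 426555) (nat_lit 32) (.e (nat_lit 376859) (nat_lit 21) (.e (nat_lit 57873) (nat_lit 264) (.e (nat_lit 1209) (nat_lit 89) .nil))))) (.g (nat_lit 0) (.e (nat_lit 56206) (nat_lit 0) .nil) .nil))))))))))) 
(.nd (nat_lit 2) (.nd (nat_lit 3) (.nd (nat_lit 4) (.nd (nat_lit 5) (.nd (nat_lit 6) 
(.nd (nat_lit 7) (.nd (nat_lit 8) (.nd (nat_lit 9) 
(.lf (nat_lit 459778) (.g (nat_lit 3023) (.e (nat_lit 2798) (nat_lit 180) (.e (nat_lit 303133) (nat_lit 9) (.e (nat_lit 426412) (nat_lit 15) (.e (nat_lit 1856) (nat_lit 124) (.e (nat_lit 557109) (nat_lit 15) (.e (nat_lit 188458) (nat_lit 25) (.e (nat_lit 253696) (nat_lit 18) .nil))))))) (.g (nat_lit 1) (.e (nat_lit 51170) (nat_lit 0) .nil) .nil))) 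
(.lf (nat_lit 460290) (.g (nat_lit 4613) (.e (nat_lit 2817) (nat_lit 181) (.e (nat_lit 311312) (nat_lit 2) (.e (nat_lit 196666) (nat_lit 13) (.e (nat_lit 65610) (nat_lit 10) (.e (nat_lit 344117) (nat_lit 21) (.e (nat_lit 516106) (nat_lit 0) (.e (nat_lit 7016) (nat_lit 377) .nil))))))) (.g (nat_lit 1) (.e (nat_lit 53467) (nat_lit 0) .nil) .nil)))) (.nd (nat_lit 9) 
(.lf (nat_lit 460034) (.g (nat_lit 512) (.e (nat_lit 2808) (nat_lit 180) (.e (nat_lit 303146) (nat_lit 14) (.e (nat_lit 491569) (nat_lit 13) .nil))) (.g (nat_lit 0) (.e (nat_lit 52511) (nat_lit 0) .nil) .nil))) 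
(.lf (nat_lit 460546) (.g (nat_lit 2823) (.e (nat_lit 2829) (nat_lit 182) (.e (nat_lit 409602) (nat_lit 0) (.e (nat_lit 5293) (nat_lit 298) (.e (nat_lit 1232) (nat_lit 91) (.e (nat_lit 90174) (nat_lit 14) (.e (nat_lit 180288) (nat_lit 45) (.e (nat_lit 2571) (nat_lit 160) (.e (nat_lit 32798) (nat_lit 14) .nil)))))))) (.g (nat_lit 1) (.e (nat_lit 54817) (nat_lit 0) .nil) .nil))))) 
(.nd (nat_lit 8) (.nd (nat_lit 9) 
(.lf (nat_lit 459906) (.g (nat_lit 700) (.e (nat_lit 2798) (nat_lit 180) (.e (nat_lit 303145) (nat_lit 13) (.e (nat_lit 483387) (nat_lit 23) .nil))) (.g (nat_lit 0) (.e (nat_lit 51762) (nat_lit 0) .nil) .nil))) 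
(.lf (nat_lit 460418) (.g (nat_lit 3701) (.e (nat_lit 2779) (nat_lit 178) (.e (nat_lit 286735) (nat_lit 3) (.e (nat_lit 98350) (nat_lit 24) (.e (nat_lit 409646) (nat_lit 18) (.e (nat_lit 303117) (nat_lit 2) .nil))))) (.g (nat_lit 0) (.e (nat_lit 53791) (nat_lit 0) .nil) .nil)))) (.nd (nat_lit 9) 
(.lf (nat_lit 460162) (.g (nat_lit 1638) (.e (nat_lit 2810) (nat_lit 180) (.e (nat_lit 303119) (nat_lit 3) (.e (nat_lit 204878) (nat_lit 31) (.e (nat_lit 376864) (nat_lit 22) (.e (nat_lit 90165) (nat_lit 12) (.e (nat_lit 164208) (nat_lit 176) .nil)))))) (.g (nat_lit 1) (.e (nat_lit 52818) (nat_lit 0) .nil) .nil))) 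
(.lf (nat_lit 460674) (.g (nat_lit 3673) (.e (nat_lit 2830) (nat_lit 182) (.e (nat_lit 409648) (nat_lit 18) (.e (nat_lit 303119) (nat_lit 3) (.e (nat_lit 204877) (nat_lit 31) (.e (nat_lit 376864) (nat_lit 22) (.e (nat_lit 90130) (nat_lit 9) .nil)))))) (.g (nat_lit 1) (.e (nat_lit 55236) (nat_lit 0) .nil) .nil)))))) (.nd (nat_lit 7) (.nd (nat_lit 8) (.nd (nat_lit 9) 
(.lf (nat_lit 459842) (.g (nat_lit 3487) (.e (nat_lit 2798) (nat_lit 180) (.e (nat_lit 303143) (nat_lit 12) (.e (nat_lit 475185) (nat_lit 29) (.e (nat_lit 557100) (nat_lit 13) (.e (nat_lit 172113) (nat_lit 10) (.e (nat_lit 434218) (nat_lit 19) (.e (nat_lit 499774) (nat_lit 0) .nil))))))) (.g (nat_lit 1) (.e (nat_lit 51490) (nat_lit 0) .nil) .nil))) 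
(.lf (nat_lit 460354) (.g (nat_lit 1835) (.e (nat_lit 2777) (nat_lit 178) (.e (nat_lit 286759) (nat_lit 12) (.e (nat_lit 385074) (nat_lit 31) (.e (nat_lit 573484) (nat_lit 13) .nil)))) (.g (nat_lit 0) (.e (nat_lit 53678) (nat_lit 0) .nil) .nil)))) (.nd (nat_lit 9) 
(.lf (nat_lit 460098) (.g (nat_lit 2011) (.e (nat_lit 2810) (nat_lit 180) (.e (nat_lit 303117) (nat_lit 2) (.e (nat_lit 196674) (nat_lit 15) (.e (nat_lit 81954) (nat_lit 23) (.e (nat_lit 98325) (nat_lit 17) (.e (nat_lit 6986) (nat_lit 377) .nil)))))) (.g (nat_lit 1) (.e (nat_lit 52731) (nat_lit 0) .nil) .nil))) 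
(.lf (nat_lit 460610) (.g (nat_lit 5360) (.e (nat_lit 2830) (nat_lit 182) (.e (nat_lit 409646) (nat_lit 18) (.e (nat_lit 303117) (nat_lit 2) (.e (nat_lit 196674) (nat_lit 15) (.e (nat_lit 81953) (nat_lit 22) (.e (nat_lit 90130) (nat_lit 9) .nil)))))) (.g (nat_lit 1) (.e (nat_lit 55069) (nat_lit 0) .nil) .nil))))) (.nd (nat_lit 8) (.nd (nat_lit 9) 
(.lf (nat_lit 459970) (.g (nat_lit 2997) (.e (nat_lit 2805) (nat_lit 180) (.e (nat_lit 303119) (nat_lit 3) (.e (nat_lit 204868) (nat_lit 29) (.e (nat_lit 360466) (nat_lit 3) (.e (nat_lit 516100) (nat_lit 0) (.e (nat_lit 7026) (nat_lit 377) .nil)))))) (.g (nat_lit 1) (.e (nat_lit 52155) (nat_lit 0) .nil) .nil))) 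
(.lf (nat_lit 460482) (.g (nat_lit 2324) (.e (nat_lit 2788) (nat_lit 179) (.e (nat_lit 294931) (nat_lit 3) (.e (nat_lit 98350) (nat_lit 24) (.e (nat_lit 409649) (nat_lit 18) (.e (nat_lit 303111) (nat_lit 0) (.e (nat_lit 3272) (nat_lit 199) (.e (nat_lit 548910) (nat_lit 17) (.e (nat_lit 164214) (nat_lit 176) .nil)))))))) (.g (nat_lit 1) (.e (nat_lit 54049) (nat_lit 0) .nil) .nil)))) 
(.nd (nat_lit 9) 
(.lf (nat_lit 460226) (.g (nat_lit 2181) (.e (nat_lit 7936) (nat_lit 180) (.e (nat_lit 303118) (nat_lit 3) (.e (nat_lit 204868) (nat_lit 29) (.e (nat_lit 360466) (nat_lit 3) (.e (nat_lit 516100) (nat_lit 0) .nil))))) (.g (nat_lit 0) (.e (nat_lit 53096) (nat_lit 0) .nil) .nil))) 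
(.lf (nat_lit 460738) (.g (nat_lit 2040) (.e (nat_lit 2830) (nat_lit 182) (.e (nat_lit 417536) (nat_lit 18) (.e (nat_lit 303117) (nat_lit 2) (.e (nat_lit 196630) (nat_lit 9) (.e (nat_lit 1616) (nat_lit 113) (.e (nat_lit 376863) (nat_lit 22) (.e (nat_lit 90130) (nat_lit 9) .nil))))))) (.g (nat_lit 1) (.e (nat_lit 55493) (nat_lit 0) .nil) .nil))))))) 
(.nd (nat_lit 6) (.nd (nat_lit 7) (.nd (nat_lit 8) (.nd (nat_lit 9) 
(.lf (nat_lit 459810) (.g (nat_lit 4513) (.e (nat_lit 2798) (nat_lit 180) (.e (nat_lit 303143) (nat_lit 12) (.e (nat_lit 475185) (nat_lit 29) (.e (nat_lit 557098) (nat_lit 13) (.e (nat_lit 172099) (nat_lit 9) .nil))))) (.g (nat_lit 0) (.e (nat_lit 51450) (nat_lit 0) .nil) .nil))) 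
(.lf (nat_lit 460322) (.g (nat_lit 1481) (.e (nat_lit 2819) (nat_lit 181) (.e (nat_lit 311315) (nat_lit 3) (.e (nat_lit 204867) (nat_lit 28) (.e (nat_lit 352312) (nat_lit 22) (.e (nat_lit 90165) (nat_lit 12) (.e (nat_lit 164208) (nat_lit 176) .nil)))))) (.g (nat_lit 1) (.e (nat_lit 53535) (nat_lit 0) .nil) .nil)))) (.nd (nat_lit 9) 
(.lf (nat_lit 460066) (.g (nat_lit 2982) (.e (nat_lit 2810) (nat_lit 180) (.e (nat_lit 303112) (nat_lit 0) (.e (nat_lit 3252) (nat_lit 197) (.e (nat_lit 532547) (nat_lit 11) (.e (nat_lit 352312) (nat_lit 22) (.e (nat_lit 90165) (nat_lit 12) (.e (nat_lit 164208) (nat_lit 176) .nil))))))) (.g (nat_lit 1) (.e (nat_lit 52694) (nat_lit 0) .nil) .nil))) 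
(.lf (nat_lit 460578) (.g (nat_lit 4698) (.e (nat_lit 2830) (nat_lit 182) (.e (nat_lit 409617) (nat_lit 10) (.e (nat_lit 632) (nat_lit 50) (.e (nat_lit 573489) (nat_lit 14) (.e (nat_lit 73755) (nat_lit 8) (.e (nat_lit 557105) (nat_lit 14) (.e (nat_lit 180252) (nat_lit 10) (.e (nat_lit 581376) (nat_lit 0) .nil)))))))) (.g (nat_lit 1) (.e (nat_lit 55008) (nat_lit 0) .nil) .nil))))) 
(.nd (nat_lit 8) (.nd (nat_lit 9) 
(.lf (nat_lit 459938) (.g (nat_lit 2031) (.e (nat_lit 2802) (nat_lit 180) (.e (nat_lit 303143) (nat_lit 12) (.e (nat_lit 475212) (nat_lit 42) (.e (nat_lit 720956) (nat_lit 25) .nil)))) (.g (nat_lit 0) (.e (nat_lit 52009) (nat_lit 0) .nil) .nil))) 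
(.lf (nat_lit 460450) (.g (nat_lit 2367) (.e (nat_lit 2780) (nat_lit 178) (.e (nat_lit 286765) (nat_lit 15) (.e (nat_lit 3308) (nat_lit 202) (.e (nat_lit 573482) (nat_lit 13) (.e (nat_lit 65604) (nat_lit 9) .nil))))) (.g (nat_lit 0) (.e (nat_lit 53877) (nat_lit 0) .nil) .nil)))) (.nd (nat_lit 9) 
(.lf (nat_lit 460194) (.g (nat_lit 3346) (.e (nat_lit 2811) (nat_lit 180) (.e (nat_lit 303117) (nat_lit 2) (.e (nat_lit 196666) (nat_lit 13) (.e (nat_lit 65619) (nat_lit 10) .nil)))) (.g (nat_lit 0) (.e (nat_lit 53005) (nat_lit 0) .nil) .nil))) 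
(.lf (nat_lit 460706) (.g (nat_lit 3384) (.e (nat_lit 2830) (nat_lit 182) (.e (nat_lit 409649) (nat_lit 18) (.e (nat_lit 303111) (nat_lit 0) (.e (nat_lit 3255) (nat_lit 197) (.e (nat_lit 532558) (nat_lit 14) (.e (nat_lit 376863) (nat_lit 22) (.e (nat_lit 90130) (nat_lit 9) .nil))))))) (.g (nat_lit 1) (.e (nat_lit 55348) (nat_lit 0) .nil) .nil)))))) 
(.nd (nat_lit 7) (.nd (nat_lit 8) (.nd (nat_lit 9) 
(.lf (nat_lit 459874) (.g (nat_lit 2124) (.e (nat_lit 2798) (nat_lit 180) (.e (nat_lit 303143) (nat_lit 12) (.e (nat_lit 475185) (nat_lit 29) (.e (nat_lit 557107) (nat_lit 15) (.e (nat_lit 188440) (nat_lit 20) .nil))))) (.g (nat_lit 0) (.e (nat_lit 51548) (nat_lit 0) .nil) .nil))) 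
(.lf (nat_lit 460386) (.g (nat_lit 3350) (.e (nat_lit 2777) (nat_lit 178) (.e (nat_lit 286765) (nat_lit 15) (.e (nat_lit 3308) (nat_lit 202) (.e (nat_lit 573493) (nat_lit 15) (.e (nat_lit 81951) (nat_lit 22) (.e (nat_lit 90165) (nat_lit 12) (.e (nat_lit 164208) (nat_lit 176) .nil))))))) (.g (nat_lit 1) (.e (nat_lit 53718) (nat_lit 0) .nil) .nil)))) (.nd (nat_lit 9) 
(.lf (nat_lit 460130) (.g (nat_lit 1823) (.e (nat_lit 2810) (nat_lit 180) (.e (nat_lit 303119) (nat_lit 3) (.e (nat_lit 204866) (nat_lit 28) (.e (nat_lit 352310) (nat_lit 22) .nil)))) (.g (nat_lit 0) (.e (nat_lit 52778) (nat_lit 0) .nil) .nil))) 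
(.lf (nat_lit 460642) (.g (nat_lit 4000) (.e (nat_lit 2830) (nat_lit 182) (.e (nat_lit 409648) (nat_lit 18) (.e (nat_lit 303112) (nat_lit 0) (.e (nat_lit 3252) (nat_lit 197) (.e (nat_lit 532558) (nat_lit 14) (.e (nat_lit 376863) (nat_lit 22) (.e (nat_lit 90130) (nat_lit 9) .nil))))))) (.g (nat_lit 1) (.e (nat_lit 55134) (nat_lit 0) .nil) .nil))))) (.nd (nat_lit 8) (.nd (nat_lit 9) 
(.lf (nat_lit 460002) (.g (nat_lit 4128) (.e (nat_lit 2808) (nat_lit 180) (.e (nat_lit 303116) (nat_lit 2) (.e (nat_lit 196666) (nat_lit 13) (.e (nat_lit 65610) (nat_lit 10) (.e (nat_lit 344117) (nat_lit 21) (.e (nat_lit 516106) (nat_lit 0) (.e (nat_lit 6966) (nat_lit 377) .nil))))))) (.g (nat_lit 1) (.e (nat_lit 52306) (nat_lit 0) .nil) .nil))) 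
(.lf (nat_lit 460514) (.g (nat_lit 2584) (.e (nat_lit 2821) (nat_lit 182) (.e (nat_lit 409645) (nat_lit 18) (.e (nat_lit 303119) (nat_lit 3) (.e (nat_lit 204877) (nat_lit 31) (.e (nat_lit 376865) (nat_lit 22) .nil))))) (.g (nat_lit 0) (.e (nat_lit 54257) (nat_lit 0) .nil) .nil)))) (.nd (nat_lit 9) 
(.lf (nat_lit 460258) (.g (nat_lit 2364) (.e (nat_lit 2816) (nat_lit 181) (.e (nat_lit 311311) (nat_lit 2) (.e (nat_lit 196672) (nat_lit 15) (.e (nat_lit 81951) (nat_lit 22) (.e (nat_lit 90165) (nat_lit 12) (.e (nat_lit 164207) (nat_lit 176) .nil)))))) (.g (nat_lit 1) (.e (nat_lit 53295) (nat_lit 0) .nil) .nil))) 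
(.lf (nat_lit 460770) (.g (nat_lit 4726) (.e (nat_lit 2842) (nat_lit 184) (.e (nat_lit 426136) (nat_lit 3) (.e (nat_lit 204869) (nat_lit 29) (.e (nat_lit 360474) (nat_lit 8) (.e (nat_lit 557091) (nat_lit 12) (.e (nat_lit 164020) (nat_lit 45) (.e (nat_lit 696330) (nat_lit 5) .nil))))))) (.g (nat_lit 1) (.e (nat_lit 56149) (nat_lit 0) .nil) .nil)))))))) 
(.nd (nat_lit 5) (.nd (nat_lit 6) (.nd (nat_lit 7) (.nd (nat_lit 8) (.nd (nat_lit 9) 
(.lf (nat_lit 459794) (.g (nat_lit 1953) (.e (nat_lit 2798) (nat_lit 180) (.e (nat_lit 303133) (nat_lit 9) (.e (nat_lit 426499) (nat_lit 27) (.e (nat_lit 336188) (nat_lit 11) (.e (nat_lit 376576) (nat_lit 18) (.e (nat_lit 5937) (nat_lit 322) (.e (nat_lit 57346) (nat_lit 0) (.e (nat_lit 6203) (nat_lit 332) .nil)))))))) (.g (nat_lit 1) (.e (nat_lit 51215) (nat_lit 0) .nil) .nil))) 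
(.lf (nat_lit 460306) (.g (nat_lit 4897) (.e (nat_lit 2819) (nat_lit 181) (.e (nat_lit 311310) (nat_lit 2) (.e (nat_lit 196666) (nat_lit 13) (.e (nat_lit 65610) (nat_lit 10) (.e (nat_lit 344117) (nat_lit 21) (.e (nat_lit 516106) (nat_lit 0) (.e (nat_lit 6986) (nat_lit 377) .nil))))))) (.g (nat_lit 1) (.e (nat_lit 53513) (nat_lit 0) .nil) .nil)))) (.nd (nat_lit 9) 
(.lf (nat_lit 460050) (.g (nat_lit 3746) (.e (nat_lit 2809) (nat_lit 180) (.e (nat_lit 303117) (nat_lit 2) (.e (nat_lit 196666) (nat_lit 13) (.e (nat_lit 65617) (nat_lit 10) (.e (nat_lit 344117) (nat_lit 21) .nil))))) (.g (nat_lit 0) (.e (nat_lit 52537) (nat_lit 0) .nil) .nil))) 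
(.lf (nat_lit 460562) (.g (nat_lit 2349) (.e (nat_lit 2829) (nat_lit 182) (.e (nat_lit 409648) (nat_lit 18) (.e (nat_lit 303116) (nat_lit 2) (.e (nat_lit 196672) (nat_lit 15) (.e (nat_lit 81960) (nat_lit 25) (.e (nat_lit 139289) (nat_lit 9) .nil)))))) (.g (nat_lit 1) (.e (nat_lit 54900) (nat_lit 0) .nil) .nil))))) (.nd (nat_lit 8) (.nd (nat_lit 9) 
(.lf (nat_lit 459922) (.g (nat_lit 2715) (.e (nat_lit 2802) (nat_lit 180) (.e (nat_lit 303117) (nat_lit 2) (.e (nat_lit 196666) (nat_lit 13) (.e (nat_lit 65617) (nat_lit 10) .nil)))) (.g (nat_lit 0) (.e (nat_lit 51935) (nat_lit 0) .nil) .nil))) 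
(.lf (nat_lit 460434) (.g (nat_lit 3343) (.e (nat_lit 2779) (nat_lit 178) (.e (nat_lit 286765) (nat_lit 15) (.e (nat_lit 3308) (nat_lit 202) (.e (nat_lit 573493) (nat_lit 15) (.e (nat_lit 81953) (nat_lit 22) (.e (nat_lit 90165) (nat_lit 12) (.e (nat_lit 164208) (nat_lit 176) .nil))))))) (.g (nat_lit 1) (.e (nat_lit 53811) (nat_lit 0) .nil) .nil)))) (.nd (nat_lit 9) 
(.lf (nat_lit 460178) (.g (nat_lit 1188) (.e (nat_lit 2810) (nat_lit 180) (.e (nat_lit 303143) (nat_lit 12) (.e (nat_lit 475212) (nat_lit 42) (.e (nat_lit 720955) (nat_lit 25) .nil)))) (.g (nat_lit 0) (.e (nat_lit 52864) (nat_lit 0) .nil) .nil))) 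
(.lf (nat_lit 460690) (.g (nat_lit 4051) (.e (nat_lit 2830) (nat_lit 182) (.e (nat_lit 409649) (nat_lit 18) (.e (nat_lit 303106) (nat_lit 0) (.e (nat_lit 3114) (nat_lit 193) (.e (nat_lit 500075) (nat_lit 20) (.e (nat_lit 81953) (nat_lit 22) (.e (nat_lit 90130) (nat_lit 9) .nil))))))) (.g (nat_lit 1) (.e (nat_lit 55328) (nat_lit 0) .nil) .nil)))))) 
(.nd (nat_lit 7) (.nd (nat_lit 8) (.nd (nat_lit 9) 
(.lf (nat_lit 459858) (.g (nat_lit 2788) (.e (nat_lit 2798) (nat_lit 180) (.e (nat_lit 303143) (nat_lit 12) (.e (nat_lit 475185) (nat_lit 29) (.e (nat_lit 557101) (nat_lit 13) (.e (nat_lit 172101) (nat_lit 9) (.e (nat_lit 426125) (nat_lit 2) (.e (nat_lit 204544) (nat_lit 18) .nil))))))) (.g (nat_lit 1) (.e (nat_lit 51507) (nat_lit 0) .nil) .nil))) 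
(.lf (nat_lit 460370) (.g (nat_lit 4543) (.e (nat_lit 2777) (nat_lit 178) (.e (nat_lit 286765) (nat_lit 15) (.e (nat_lit 3298) (nat_lit 202) (.e (nat_lit 573493) (nat_lit 15) (.e (nat_lit 81956) (nat_lit 23) (.e (nat_lit 98325) (nat_lit 17) (.e (nat_lit 6986) (nat_lit 377) .nil))))))) (.g (nat_lit 1) (.e (nat_lit 53698) (nat_lit 0) .nil) .nil)))) (.nd (nat_lit 9) 
(.lf (nat_lit 460114) (.g (nat_lit 661) (.e (nat_lit 2810) (nat_lit 180) (.e (nat_lit 303119) (nat_lit 3) (.e (nat_lit 204855) (nat_lit 26) .nil))) (.g (nat_lit 0) (.e (nat_lit 52756) (nat_lit 0) .nil) .nil))) 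
(.lf (nat_lit 460626) (.g (nat_lit 3160) (.e (nat_lit 2830) (nat_lit 182) (.e (nat_lit 409648) (nat_lit 18) (.e (nat_lit 303104) (nat_lit 0) (.e (nat_lit 3238) (nat_lit 197) (.e (nat_lit 532559) (nat_lit 14) (.e (nat_lit 376863) (nat_lit 22) (.e (nat_lit 90130) (nat_lit 9) .nil))))))) (.g (nat_lit 1) (.e (nat_lit 55116) (nat_lit 0) .nil) .nil))))) (.nd (nat_lit 8) (.nd (nat_lit 9) 
(.lf (nat_lit 459986) (.g (nat_lit 2304) (.e (nat_lit 2807) (nat_lit 180) (.e (nat_lit 303137) (nat_lit 10) (.e (nat_lit 434229) (nat_lit 22) (.e (nat_lit 524340) (nat_lit 28) (.e (nat_lit 352324) (nat_lit 26) (.e (nat_lit 147512) (nat_lit 14) .nil)))))) (.g (nat_lit 1) (.e (nat_lit 52263) (nat_lit 0) .nil) .nil))) 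
(.lf (nat_lit 460498) (.g (nat_lit 1842) (.e (nat_lit 2789) (nat_lit 179) (.e (nat_lit 294969) (nat_lit 27) (.e (nat_lit 426340) (nat_lit 14) (.e (nat_lit 491550) (nat_lit 9) (.e (nat_lit 336421) (nat_lit 28) (.e (nat_lit 434186) (nat_lit 13) .nil)))))) (.g (nat_lit 1) (.e (nat_lit 54169) (nat_lit 0) .nil) .nil)))) (.nd (nat_lit 9) 
(.lf (nat_lit 460242) (.g (nat_lit 2559) (.e (nat_lit 2814) (nat_lit 181) (.e (nat_lit 311311) (nat_lit 2) (.e (nat_lit 196666) (nat_lit 13) (.e (nat_lit 65610) (nat_lit 10) (.e (nat_lit 344117) (nat_lit 21) (.e (nat_lit 516106) (nat_lit 0) (.e (nat_lit 6998) (nat_lit 377) .nil))))))) (.g (nat_lit 1) (.e (nat_lit 53237) (nat_lit 0) .nil) .nil))) 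
(.lf (nat_lit 460754) (.g (nat_lit 1114) (.e (nat_lit 2828) (nat_lit 182) (.e (nat_lit 409646) (nat_lit 18) (.e (nat_lit 303119) (nat_lit 3) (.e (nat_lit 212736) (nat_lit 26) .nil)))) (.g (nat_lit 0) (.e (nat_lit 55717) (nat_lit 0) .nil) .nil))))))) (.nd (nat_lit 6) (.nd (nat_lit 7) (.nd (nat_lit 8) (.nd (nat_lit 9) 
(.lf (nat_lit 459826) (.g (nat_lit 3982) (.e (nat_lit 2798) (nat_lit 180) (.e (nat_lit 303143) (nat_lit 12) (.e (nat_lit 475185) (nat_lit 29) (.e (nat_lit 557100) (nat_lit 13) (.e (nat_lit 172098) (nat_lit 9) (.e (nat_lit 426125) (nat_lit 2) (.e (nat_lit 204544) (nat_lit 18) .nil))))))) (.g (nat_lit 1) (.e (nat_lit 51469) (nat_lit 0) .nil) .nil))) 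
(.lf (nat_lit 460338) (.g (nat_lit 1882) (.e (nat_lit 2777) (nat_lit 178) (.e (nat_lit 286735) (nat_lit 3) (.e (nat_lit 98350) (nat_lit 24) (.e (nat_lit 409643) (nat_lit 18) (.e (nat_lit 303117) (nat_lit 2) (.e (nat_lit 196661) (nat_lit 12) (.e (nat_lit 57712) (nat_lit 176) .nil))))))) (.g (nat_lit 1) (.e (nat_lit 53662) (nat_lit 0) .nil) .nil)))) (.nd (nat_lit 9) 
(.lf (nat_lit 460082) (.g (nat_lit 4256) (.e (nat_lit 2810) (nat_lit 180) (.e (nat_lit 303117) (nat_lit 2) (.e (nat_lit 196672) (nat_lit 15) (.e (nat_lit 81954) (nat_lit 23) (.e (nat_lit 98323) (nat_lit 17) (.e (nat_lit 6989) (nat_lit 377) .nil)))))) (.g (nat_lit 1) (.e (nat_lit 52715) (nat_lit 0) .nil) .nil))) 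
(.lf (nat_lit 460594) (.g (nat_lit 5358) (.e (nat_lit 2830) (nat_lit 182) (.e (nat_lit 409645) (nat_lit 18) (.e (nat_lit 303117) (nat_lit 2) (.e (nat_lit 196674) (nat_lit 15) (.e (nat_lit 81953) (nat_lit 22) (.e (nat_lit 90130) (nat_lit 9) .nil)))))) (.g (nat_lit 1) (.e (nat_lit 55047) (nat_lit 0) .nil) .nil))))) (.nd (nat_lit 8) (.nd (nat_lit 9) 
(.lf (nat_lit 459954) (.g (nat_lit 3348) (.e (nat_lit 2804) (nat_lit 180) (.e (nat_lit 303119) (nat_lit 3) (.e (nat_lit 204868) (nat_lit 29) (.e (nat_lit 360466) (nat_lit 3) (.e (nat_lit 516097) (nat_lit 0) .nil))))) (.g (nat_lit 0) (.e (nat_lit 52107) (nat_lit 0) .nil) .nil))) 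
(.lf (nat_lit 460466) (.g (nat_lit 1018) (.e (nat_lit 7936) (nat_lit 178) (.e (nat_lit 286743) (nat_lit 9) (.e (nat_lit 336316) (nat_lit 17) (.e (nat_lit 204544) (nat_lit 5) .nil)))) (.g (nat_lit 0) (.e (nat_lit 53903) (nat_lit 0) .nil) .nil)))) (.nd (nat_lit 9) 
(.lf (nat_lit 460210) (.g (nat_lit 632) (.e (nat_lit 7936) (nat_lit 180) (.e (nat_lit 303117) (nat_lit 2) (.e (nat_lit 196665) (nat_lit 13) .nil))) (.g (nat_lit 0) (.e (nat_lit 53075) (nat_lit 0) .nil) .nil))) 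
(.lf (nat_lit 460722) (.g (nat_lit 1589) (.e (nat_lit 2830) (nat_lit 182) (.e (nat_lit 409649) (nat_lit 18) (.e (nat_lit 303117) (nat_lit 2) (.e (nat_lit 196673) (nat_lit 15) .nil)))) (.g (nat_lit 0) (.e (nat_lit 55370) (nat_lit 0) .nil) .nil)))))) (.nd (nat_lit 7) (.nd (nat_lit 8) (.nd (nat_lit 9) 
(.lf (nat_lit 459890) (.g (nat_lit 2302) (.e (nat_lit 2798) (nat_lit 180) (.e (nat_lit 303143) (nat_lit 12) (.e (nat_lit 475207) (nat_lit 41) (.e (nat_lit 712755) (nat_lit 30) (.e (nat_lit 450597) (nat_lit 17) (.e (nat_lit 671488) (nat_lit 14) .nil)))))) (.g (nat_lit 1) (.e (nat_lit 51606) (nat_lit 0) .nil) .nil))) 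
(.lf (nat_lit 460402) (.g (nat_lit 2344) (.e (nat_lit 2777) (nat_lit 178) (.e (nat_lit 286770) (nat_lit 28) (.e (nat_lit 434181) (nat_lit 0) (.e (nat_lit 1427) (nat_lit 108) (.e (nat_lit 336421) (nat_lit 28) (.e (nat_lit 434186) (nat_lit 13) .nil)))))) (.g (nat_lit 1) (.e (nat_lit 53742) (nat_lit 0) .nil) .nil)))) (.nd (nat_lit 9) 
(.lf (nat_lit 460146) (.g (nat_lit 2586) (.e (nat_lit 2810) (nat_lit 180) (.e (nat_lit 303119) (nat_lit 3) (.e (nat_lit 204868) (nat_lit 29) (.e (nat_lit 360467) (nat_lit 3) (.e (nat_lit 516102) (nat_lit 0) (.e (nat_lit 6989) (nat_lit 377) .nil)))))) (.g (nat_lit 1) (.e (nat_lit 52794) (nat_lit 0) .nil) .nil))) 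
(.lf (nat_lit 460658) (.g (nat_lit 5251) (.e (nat_lit 2830) (nat_lit 182) (.e (nat_lit 409648) (nat_lit 18) (.e (nat_lit 303117) (nat_lit 2) (.e (nat_lit 196672) (nat_lit 15) (.e (nat_lit 81953) (nat_lit 22) (.e (nat_lit 90130) (nat_lit 9) .nil)))))) (.g (nat_lit 1) (.e (nat_lit 55175) (nat_lit 0) .nil) .nil))))) (.nd (nat_lit 8) (.nd (nat_lit 9) 
(.lf (nat_lit 460018) (.g (nat_lit 2472) (.e (nat_lit 2808) (nat_lit 180) (.e (nat_lit 303118) (nat_lit 3) (.e (nat_lit 204868) (nat_lit 29) (.e (nat_lit 360466) (nat_lit 3) (.e (nat_lit 516104) (nat_lit 0) .nil))))) (.g (nat_lit 0) (.e (nat_lit 52331) (nat_lit 0) .nil) .nil))) 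
(.lf (nat_lit 460530) (.g (nat_lit 1965) (.e (nat_lit 2824) (nat_lit 182) (.e (nat_lit 409645) (nat_lit 18) (.e (nat_lit 303117) (nat_lit 2) (.e (nat_lit 196624) (nat_lit 9) (.e (nat_lit 1615) (nat_lit 113) (.e (nat_lit 376864) (nat_lit 22) (.e (nat_lit 90134) (nat_lit 9) .nil))))))) (.g (nat_lit 1) (.e (nat_lit 54502) (nat_lit 0) .nil) .nil)))) (.nd (nat_lit 9) 
(.lf (nat_lit 460274) (.g (nat_lit 1890) (.e (nat_lit 2816) (nat_lit 181) (.e (nat_lit 311312) (nat_lit 2) (.e (nat_lit 196672) (nat_lit 15) (.e (nat_lit 81954) (nat_lit 23) (.e (nat_lit 98319) (nat_lit 17) (.e (nat_lit 6949) (nat_lit 377) .nil)))))) (.g (nat_lit 1) (.e (nat_lit 53316) (nat_lit 0) .nil) .nil))) 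
(.lf (nat_lit 460786) (.g (nat_lit 2042) (.e (nat_lit 2842) (nat_lit 184) (.e (nat_lit 426436) (nat_lit 18) (.e (nat_lit 98384) (nat_lit 32) (.e (nat_lit 475177) (nat_lit 24) (.e (nat_lit 516146) (nat_lit 9) (.e (nat_lit 426428) (nat_lit 17) (.e (nat_lit 90134) (nat_lit 9) .nil))))))) (.g (nat_lit 1) (.e (nat_lit 56189) (nat_lit 0) .nil) .nil))))))))) 
(.nd (nat_lit 4) (.nd (nat_lit 5) (.nd (nat_lit 6) (.nd (nat_lit 7) (.nd (nat_lit 8) 
(.nd (nat_lit 9) 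
(.lf (nat_lit 459786) (.g (nat_lit 1990) (.e (nat_lit 2798) (nat_lit 180) (.e (nat_lit 303133) (nat_lit 9) (.e (nat_lit 426499) (nat_lit 27) (.e (nat_lit 336077) (nat_lit 9) (.e (nat_lit 336036) (nat_lit 4) .nil))))) (.g (nat_lit 0) (.e (nat_lit 51207) (nat_lit 0) .nil) .nil))) 
(.lf (nat_lit 460298) (.g (nat_lit 2701) (.e (nat_lit 2817) (nat_lit 181) (.e (nat_lit 311312) (nat_lit 2) (.e (nat_lit 196672) (nat_lit 15) (.e (nat_lit 81954) (nat_lit 23) (.e (nat_lit 98325) (nat_lit 17) (.e (nat_lit 6966) (nat_lit 377) .nil)))))) (.g (nat_lit 1) (.e (nat_lit 53478) (nat_lit 0) .nil) .nil)))) (.nd (nat_lit 9) 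
(.lf (nat_lit 460042) (.g (nat_lit 5172) (.e (nat_lit 2809) (nat_lit 180) (.e (nat_lit 303117) (nat_lit 2) (.e (nat_lit 196666) (nat_lit 13) (.e (nat_lit 65610) (nat_lit 10) (.e (nat_lit 344117) (nat_lit 21) (.e (nat_lit 516098) (nat_lit 0) (.e (nat_lit 6949) (nat_lit 377) .nil))))))) (.g (nat_lit 1) (.e (nat_lit 52529) (nat_lit 0) .nil) .nil))) 
(.lf (nat_lit 460554) (.g (nat_lit 1187) (.e (nat_lit 2829) (nat_lit 182) (.e (nat_lit 409645) (nat_lit 18) (.e (nat_lit 303119) (nat_lit 3) (.e (nat_lit 204870) (nat_lit 29) .nil)))) (.g (nat_lit 0) (.e (nat_lit 54845) (nat_lit 0) .nil) .nil))))) (.nd (nat_lit 8) (.nd (nat_lit 9) 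
(.lf (nat_lit 459914) (.g (nat_lit 3446) (.e (nat_lit 2800) (nat_lit 180) (.e (nat_lit 303117) (nat_lit 2) (.e (nat_lit 196666) (nat_lit 13) (.e (nat_lit 65604) (nat_lit 9) .nil)))) (.g (nat_lit 0) (.e (nat_lit 51868) (nat_lit 0) .nil) .nil))) 
(.lf (nat_lit 460426) (.g (nat_lit 3509) (.e (nat_lit 2779) (nat_lit 178) (.e (nat_lit 286765) (nat_lit 15) (.e (nat_lit 3307) (nat_lit 202) (.e (nat_lit 573482) (nat_lit 13) (.e (nat_lit 65619) (nat_lit 10) (.e (nat_lit 344117) (nat_lit 21) (.e (nat_lit 516106) (nat_lit 0) (.e (nat_lit 6986) (nat_lit 377) .nil)))))))) (.g (nat_lit 1) (.e (nat_lit 53803) (nat_lit 0) .nil) .nil)))) 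
(.nd (nat_lit 9) 
(.lf (nat_lit 460170) (.g (nat_lit 4998) (.e (nat_lit 2810) (nat_lit 180) (.e (nat_lit 303143) (nat_lit 12) (.e (nat_lit 475185) (nat_lit 29) (.e (nat_lit 557098) (nat_lit 13) (.e (nat_lit 172091) (nat_lit 9) .nil))))) (.g (nat_lit 0) (.e (nat_lit 52841) (nat_lit 0) .nil) .nil))) 
(.lf (nat_lit 460682) (.g (nat_lit 3990) (.e (nat_lit 2830) (nat_lit 182) (.e (nat_lit 409649) (nat_lit 18) (.e (nat_lit 303104) (nat_lit 0) (.e (nat_lit 3238) (nat_lit 197) (.e (nat_lit 532560) (nat_lit 14) (.e (nat_lit 376863) (nat_lit 22) (.e (nat_lit 90130) (nat_lit 9) .nil))))))) (.g (nat_lit 1) (.e (nat_lit 55319) (nat_lit 0) .nil) .nil)))))) 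
(.nd (nat_lit 7) (.nd (nat_lit 8) (.nd (nat_lit 9) 
(.lf (nat_lit 459850) (.g (nat_lit 2959) (.e (nat_lit 2798) (nat_lit 180) (.e (nat_lit 303143) (nat_lit 12) (.e (nat_lit 475185) (nat_lit 29) (.e (nat_lit 557100) (nat_lit 13) (.e (nat_lit 172113) (nat_lit 10) (.e (nat_lit 442112) (nat_lit 19) (.e (nat_lit 507648) (nat_lit 0) .nil))))))) (.g (nat_lit 1) (.e (nat_lit 51499) (nat_lit 0) .nil) .nil))) 
(.lf (nat_lit 460362) (.g (nat_lit 2546) (.e (nat_lit 2777) (nat_lit 178) (.e (nat_lit 286765) (nat_lit 15) (.e (nat_lit 3296) (nat_lit 202) (.e (nat_lit 573482) (nat_lit 13) (.e (nat_lit 65604) (nat_lit 9) (.e (nat_lit 336013) (nat_lit 2) (.e (nat_lit 90165) (nat_lit 12) (.e (nat_lit 164208) (nat_lit 176) .nil)))))))) (.g (nat_lit 1) (.e (nat_lit 53686) (nat_lit 0) .nil) .nil)))) 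
(.nd (nat_lit 9) 
(.lf (nat_lit 460106) (.g (nat_lit 2581) (.e (nat_lit 2810) (nat_lit 180) (.e (nat_lit 303119) (nat_lit 3) (.e (nat_lit 204821) (nat_lit 17) (.e (nat_lit 6114) (nat_lit 332) (.e (nat_lit 2777) (nat_lit 178) (.e (nat_lit 286735) (nat_lit 3) (.e (nat_lit 98323) (nat_lit 17) (.e (nat_lit 6989) (nat_lit 377) .nil)))))))) (.g (nat_lit 1) (.e (nat_lit 52740) (nat_lit 0) .nil) .nil))) 
(.lf (nat_lit 460618) (.g (nat_lit 2831) (.e (nat_lit 2830) (nat_lit 182) (.e (nat_lit 409647) (nat_lit 18) (.e (nat_lit 303117) (nat_lit 2) (.e (nat_lit 196674) (nat_lit 15) (.e (nat_lit 81952) (nat_lit 22) .nil))))) (.g (nat_lit 0) (.e (nat_lit 55093) (nat_lit 0) .nil) .nil))))) (.nd (nat_lit 8) (.nd (nat_lit 9) 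
(.lf (nat_lit 459978) (.g (nat_lit 3332) (.e (nat_lit 2807) (nat_lit 180) (.e (nat_lit 303117) (nat_lit 2) (.e (nat_lit 196666) (nat_lit 13) (.e (nat_lit 65604) (nat_lit 9) .nil)))) (.g (nat_lit 0) (.e (nat_lit 52197) (nat_lit 0) .nil) .nil))) 
(.lf (nat_lit 460490) (.g (nat_lit 2051) (.e (nat_lit 2788) (nat_lit 179) (.e (nat_lit 294973) (nat_lit 28) (.e (nat_lit 434181) (nat_lit 0) (.e (nat_lit 1427) (nat_lit 108) (.e (nat_lit 336421) (nat_lit 28) (.e (nat_lit 434193) (nat_lit 13) .nil)))))) (.g (nat_lit 1) (.e (nat_lit 54071) (nat_lit 0) .nil) .nil)))) (.nd (nat_lit 9) 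
(.lf (nat_lit 460234) (.g (nat_lit 471) (.e (nat_lit 7936) (nat_lit 180) (.e (nat_lit 303143) (nat_lit 12) (.e (nat_lit 475185) (nat_lit 29) .nil))) (.g (nat_lit 0) (.e (nat_lit 53127) (nat_lit 0) .nil) .nil))) 
(.lf (nat_lit 460746) (.g (nat_lit 2494) (.e (nat_lit 2828) (nat_lit 182) (.e (nat_lit 409646) (nat_lit 18) (.e (nat_lit 303117) (nat_lit 2) (.e (nat_lit 196624) (nat_lit 9) (.e (nat_lit 1615) (nat_lit 113) (.e (nat_lit 376863) (nat_lit 22) (.e (nat_lit 90134) (nat_lit 9) .nil))))))) (.g (nat_lit 1) (.e (nat_lit 55532) (nat_lit 0) .nil) .nil))))))) 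
(.nd (nat_lit 6) (.nd (nat_lit 7) (.nd (nat_lit 8) (.nd (nat_lit 9) 
(.lf (nat_lit 459818) (.g (nat_lit 3312) (.e (nat_lit 2798) (nat_lit 180) (.e (nat_lit 303143) (nat_lit 12) (.e (nat_lit 475185) (nat_lit 29) (.e (nat_lit 557100) (nat_lit 13) (.e (nat_lit 172088) (nat_lit 9) (.e (nat_lit 426120) (nat_lit 2) (.e (nat_lit 204544) (nat_lit 18) .nil))))))) (.g (nat_lit 1) (.e (nat_lit 51461) (nat_lit 0) .nil) .nil))) 
(.lf (nat_lit 460330) (.g (nat_lit 1950) (.e (nat_lit 7936) (nat_lit 181) (.e (nat_lit 311312) (nat_lit 2) (.e (nat_lit 196672) (nat_lit 15) (.e (nat_lit 81951) (nat_lit 22) (.e (nat_lit 90165) (nat_lit 12) .nil))))) (.g (nat_lit 0) (.e (nat_lit 53627) (nat_lit 0) .nil) .nil)))) (.nd (nat_lit 9) 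
(.lf (nat_lit 460074) (.g (nat_lit 4742) (.e (nat_lit 2810) (nat_lit 180) (.e (nat_lit 303117) (nat_lit 2) (.e (nat_lit 196666) (nat_lit 13) (.e (nat_lit 65610) (nat_lit 10) (.e (nat_lit 344117) (nat_lit 21) (.e (nat_lit 516102) (nat_lit 0) (.e (nat_lit 6989) (nat_lit 377) .nil))))))) (.g (nat_lit 1) (.e (nat_lit 52707) (nat_lit 0) .nil) .nil))) 
(.lf (nat_lit 460586) (.g (nat_lit 888) (.e (nat_lit 2830) (nat_lit 182) (.e (nat_lit 409645) (nat_lit 18) (.e (nat_lit 303112) (nat_lit 0) .nil))) (.g (nat_lit 0) (.e (nat_lit 55037) (nat_lit 0) .nil) .nil))))) (.nd (nat_lit 8) (.nd (nat_lit 9) 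
(.lf (nat_lit 459946) (.g (nat_lit 2343) (.e (nat_lit 2804) (nat_lit 180) (.e (nat_lit 303117) (nat_lit 2) (.e (nat_lit 196674) (nat_lit 15) (.e (nat_lit 81951) (nat_lit 22) .nil)))) (.g (nat_lit 0) (.e (nat_lit 52089) (nat_lit 0) .nil) .nil))) 
(.lf (nat_lit 460458) (.g (nat_lit 3153) (.e (nat_lit 2781) (nat_lit 178) (.e (nat_lit 286765) (nat_lit 15) (.e (nat_lit 3307) (nat_lit 202) (.e (nat_lit 573491) (nat_lit 15) (.e (nat_lit 81951) (nat_lit 22) .nil))))) (.g (nat_lit 0) (.e (nat_lit 53889) (nat_lit 0) .nil) .nil)))) (.nd (nat_lit 9) 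
(.lf (nat_lit 460202) (.g (nat_lit 986) (.e (nat_lit 2812) (nat_lit 180) (.e (nat_lit 303119) (nat_lit 3) (.e (nat_lit 204868) (nat_lit 29) .nil))) (.g (nat_lit 0) (.e (nat_lit 53032) (nat_lit 0) .nil) .nil))) 
(.lf (nat_lit 460714) (.g (nat_lit 2966) (.e (nat_lit 2830) (nat_lit 182) (.e (nat_lit 409649) (nat_lit 18) (.e (nat_lit 303116) (nat_lit 2) (.e (nat_lit 196674) (nat_lit 15) (.e (nat_lit 81952) (nat_lit 22) (.e (nat_lit 90130) (nat_lit 9) .nil)))))) (.g (nat_lit 1) (.e (nat_lit 55360) (nat_lit 0) .nil) .nil)))))) (.nd (nat_lit 7) (.nd (nat_lit 8) (.nd (nat_lit 9) 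
(.lf (nat_lit 459882) (.g (nat_lit 2351) (.e (nat_lit 2798) (nat_lit 180) (.e (nat_lit 303143) (nat_lit 12) (.e (nat_lit 475185) (nat_lit 29) (.e (nat_lit 557109) (nat_lit 15) (.e (nat_lit 188434) (nat_lit 20) (.e (nat_lit 3115) (nat_lit 193) (.e (nat_lit 499728) (nat_lit 0) .nil))))))) (.g (nat_lit 1) (.e (nat_lit 51556) (nat_lit 0) .nil) .nil))) 
(.lf (nat_lit 460394) (.g (nat_lit 2562) (.e (nat_lit 2777) (nat_lit 178) (.e (nat_lit 286768) (nat_lit 27) (.e (nat_lit 426338) (nat_lit 14) (.e (nat_lit 491549) (nat_lit 9) (.e (nat_lit 336421) (nat_lit 28) (.e (nat_lit 434186) (nat_lit 13) .nil)))))) (.g (nat_lit 1) (.e (nat_lit 53731) (nat_lit 0) .nil) .nil)))) (.nd (nat_lit 9) 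
(.lf (nat_lit 460138) (.g (nat_lit 3051) (.e (nat_lit 2810) (nat_lit 180) (.e (nat_lit 303119) (nat_lit 3) (.e (nat_lit 204866) (nat_lit 28) (.e (nat_lit 352315) (nat_lit 23) (.e (nat_lit 106240) (nat_lit 17) .nil))))) (.g (nat_lit 0) (.e (nat_lit 52786) (nat_lit 0) .nil) .nil))) 
(.lf (nat_lit 460650) (.g (nat_lit 5745) (.e (nat_lit 2830) (nat_lit 182) (.e (nat_lit 409648) (nat_lit 18) (.e (nat_lit 303116) (nat_lit 2) (.e (nat_lit 196672) (nat_lit 15) (.e (nat_lit 81953) (nat_lit 22) (.e (nat_lit 90130) (nat_lit 9) .nil)))))) (.g (nat_lit 1) (.e (nat_lit 55146) (nat_lit 0) .nil) .nil))))) (.nd (nat_lit 8) (.nd (nat_lit 9) 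
(.lf (nat_lit 460010) (.g (nat_lit 4038) (.e (nat_lit 2808) (nat_lit 180) (.e (nat_lit 303117) (nat_lit 2) (.e (nat_lit 196666) (nat_lit 13) (.e (nat_lit 65610) (nat_lit 10) (.e (nat_lit 344117) (nat_lit 21) (.e (nat_lit 516106) (nat_lit 0) (.e (nat_lit 7008) (nat_lit 377) .nil))))))) (.g (nat_lit 1) (.e (nat_lit 52314) (nat_lit 0) .nil) .nil))) 
(.lf (nat_lit 460522) (.g (nat_lit 2989) (.e (nat_lit 2822) (nat_lit 182) (.e (nat_lit 409645) (nat_lit 18) (.e (nat_lit 303116) (nat_lit 2) (.e (nat_lit 196672) (nat_lit 15) (.e (nat_lit 81951) (nat_lit 22) (.e (nat_lit 90134) (nat_lit 9) .nil)))))) (.g (nat_lit 1) (.e (nat_lit 54284) (nat_lit 0) .nil) .nil)))) (.nd (nat_lit 9) 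
(.lf (nat_lit 460266) (.g (nat_lit 5357) (.e (nat_lit 2816) (nat_lit 181) (.e (nat_lit 311312) (nat_lit 2) (.e (nat_lit 196666) (nat_lit 13) (.e (nat_lit 65610) (nat_lit 10) (.e (nat_lit 344117) (nat_lit 21) (.e (nat_lit 516097) (nat_lit 0) (.e (nat_lit 6949) (nat_lit 377) .nil))))))) (.g (nat_lit 1) (.e (nat_lit 53305) (nat_lit 0) .nil) .nil))) 
(.lf (nat_lit 460778) (.g (nat_lit 2100) (.e (nat_lit 2842) (nat_lit 184) (.e (nat_lit 426317) (nat_lit 12) (.e (nat_lit 475185) (nat_lit 29) (.e (nat_lit 557107) (nat_lit 15) (.e (nat_lit 188439) (nat_lit 20) .nil))))) (.g (nat_lit 0) (.e (nat_lit 56171) (nat_lit 0) .nil) .nil)))))))) (.nd (nat_lit 5) (.nd (nat_lit 6) (.nd (nat_lit 7) (.nd (nat_lit 8) (.nd (nat_lit 9) 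
(.lf (nat_lit 459802) (.g (nat_lit 5445) (.e (nat_lit 2798) (nat_lit 180) (.e (nat_lit 303143) (nat_lit 12) (.e (nat_lit 475185) (nat_lit 29) (.e (nat_lit 557096) (nat_lit 13) (.e (nat_lit 172094) (nat_lit 9) (.e (nat_lit 426125) (nat_lit 2) (.e (nat_lit 204544) (nat_lit 18) .nil))))))) (.g (nat_lit 1) (.e (nat_lit 51442) (nat_lit 0) .nil) .nil))) 
(.lf (nat_lit 460314) (.g (nat_lit 1537) (.e (nat_lit 2819) (nat_lit 181) (.e (nat_lit 311312) (nat_lit 2) (.e (nat_lit 196674) (nat_lit 15) (.e (nat_lit 81952) (nat_lit 22) (.e (nat_lit 90165) (nat_lit 12) .nil))))) (.g (nat_lit 0) (.e (nat_lit 53525) (nat_lit 0) .nil) .nil)))) (.nd (nat_lit 9) 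
(.lf (nat_lit 460058) (.g (nat_lit 830) (.e (nat_lit 2809) (nat_lit 180) (.e (nat_lit 303117) (nat_lit 2) (.e (nat_lit 196673) (nat_lit 15) .nil))) (.g (nat_lit 0) (.e (nat_lit 52545) (nat_lit 0) .nil) .nil))) 
(.lf (nat_lit 460570) (.g (nat_lit 2534) (.e (nat_lit 2829) (nat_lit 182) (.e (nat_lit 409649) (nat_lit 18) (.e (nat_lit 303116) (nat_lit 2) (.e (nat_lit 196672) (nat_lit 15) (.e (nat_lit 81962) (nat_lit 25) (.e (nat_lit 139289) (nat_lit 9) .nil)))))) (.g (nat_lit 1) (.e (nat_lit 54946) (nat_lit 0) .nil) .nil))))) (.nd (nat_lit 8) (.nd (nat_lit 9) 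
(.lf (nat_lit 459930) (.g (nat_lit 2790) (.e (nat_lit 2802) (nat_lit 180) (.e (nat_lit 303119) (nat_lit 3) (.e (nat_lit 204868) (nat_lit 29) (.e (nat_lit 360466) (nat_lit 3) (.e (nat_lit 516100) (nat_lit 0) (.e (nat_lit 7936) (nat_lit 377) .nil)))))) (.g (nat_lit 1) (.e (nat_lit 51967) (nat_lit 0) .nil) .nil))) 
(.lf (nat_lit 460442) (.g (nat_lit 1072) (.e (nat_lit 2779) (nat_lit 178) (.e (nat_lit 286770) (nat_lit 28) (.e (nat_lit 434181) (nat_lit 0) (.e (nat_lit 1426) (nat_lit 108) (.e (nat_lit 336421) (nat_lit 28) (.e (nat_lit 434187) (nat_lit 13) .nil)))))) (.g (nat_lit 1) (.e (nat_lit 53826) (nat_lit 0) .nil) .nil)))) (.nd (nat_lit 9) 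
(.lf (nat_lit 460186) (.g (nat_lit 2090) (.e (nat_lit 2810) (nat_lit 180) (.e (nat_lit 303145) (nat_lit 13) (.e (nat_lit 483377) (nat_lit 22) (.e (nat_lit 327692) (nat_lit 1) (.e (nat_lit 8445) (nat_lit 140) (.e (nat_lit 57350) (nat_lit 0) (.e (nat_lit 6113) (nat_lit 332) .nil))))))) (.g (nat_lit 1) (.e (nat_lit 52913) (nat_lit 0) .nil) .nil))) 
(.lf (nat_lit 460698) (.g (nat_lit 7601) (.e (nat_lit 2830) (nat_lit 182) (.e (nat_lit 409649) (nat_lit 18) (.e (nat_lit 303111) (nat_lit 0) (.e (nat_lit 3238) (nat_lit 197) (.e (nat_lit 532535) (nat_lit 9) (.e (nat_lit 336099) (nat_lit 9) (.e (nat_lit 336013) (nat_lit 2) (.e (nat_lit 90130) (nat_lit 9) .nil)))))))) (.g (nat_lit 1) (.e (nat_lit 55337) (nat_lit 0) .nil) .nil)))))) 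
(.nd (nat_lit 7) (.nd (nat_lit 8) (.nd (nat_lit 9) 
(.lf (nat_lit 459866) (.g (nat_lit 1815) (.e (nat_lit 2798) (nat_lit 180) (.e (nat_lit 303143) (nat_lit 12) (.e (nat_lit 475185) (nat_lit 29) (.e (nat_lit 557101) (nat_lit 13) (.e (nat_lit 172115) (nat_lit 10) (.e (nat_lit 434218) (nat_lit 19) (.e (nat_lit 507648) (nat_lit 0) .nil))))))) (.g (nat_lit 1) (.e (nat_lit 51523) (nat_lit 0) .nil) .nil))) 
(.lf (nat_lit 460378) (.g (nat_lit 4163) (.e (nat_lit 2777) (nat_lit 178) (.e (nat_lit 286765) (nat_lit 15) (.e (nat_lit 3307) (nat_lit 202) (.e (nat_lit 573485) (nat_lit 13) (.e (nat_lit 65619) (nat_lit 10) (.e (nat_lit 344117) (nat_lit 21) (.e (nat_lit 516102) (nat_lit 0) (.e (nat_lit 6989) (nat_lit 377) .nil)))))))) (.g (nat_lit 1) (.e (nat_lit 53710) (nat_lit 0) .nil) .nil)))) 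
(.nd (nat_lit 9) 
(.lf (nat_lit 460122) (.g (nat_lit 3483) (.e (nat_lit 2810) (nat_lit 180) (.e (nat_lit 303119) (nat_lit 3) (.e (nat_lit 204861) (nat_lit 26) (.e (nat_lit 336186) (nat_lit 11) (.e (nat_lit 368676) (nat_lit 21) (.e (nat_lit 516102) (nat_lit 0) (.e (nat_lit 6989) (nat_lit 377) .nil))))))) (.g (nat_lit 1) (.e (nat_lit 52769) (nat_lit 0) .nil) .nil))) 
(.lf (nat_lit 460634) (.g (nat_lit 2255) (.e (nat_lit 2830) (nat_lit 182) (.e (nat_lit 409648) (nat_lit 18) (.e (nat_lit 303106) (nat_lit 0) (.e (nat_lit 3114) (nat_lit 193) (.e (nat_lit 500075) (nat_lit 20) (.e (nat_lit 81952) (nat_lit 22) (.e (nat_lit 90130) (nat_lit 9) .nil))))))) (.g (nat_lit 1) (.e (nat_lit 55124) (nat_lit 0) .nil) .nil))))) (.nd (nat_lit 8) (.nd (nat_lit 9) 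
(.lf (nat_lit 459994) (.g (nat_lit 1638) (.e (nat_lit 2807) (nat_lit 180) (.e (nat_lit 303143) (nat_lit 12) (.e (nat_lit 475210) (nat_lit 41) (.e (nat_lit 712755) (nat_lit 30) .nil)))) (.g (nat_lit 0) (.e (nat_lit 52283) (nat_lit 0) .nil) .nil))) 
(.lf (nat_lit 460506) (.g (nat_lit 1754) (.e (nat_lit 2789) (nat_lit 179) (.e (nat_lit 294973) (nat_lit 28) (.e (nat_lit 434181) (nat_lit 0) (.e (nat_lit 1427) (nat_lit 108) (.e (nat_lit 336421) (nat_lit 28) (.e (nat_lit 434188) (nat_lit 13) .nil)))))) (.g (nat_lit 1) (.e (nat_lit 54180) (nat_lit 0) .nil) .nil)))) (.nd (nat_lit 9) 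
(.lf (nat_lit 460250) (.g (nat_lit 1988) (.e (nat_lit 2814) (nat_lit 181) (.e (nat_lit 311312) (nat_lit 2) (.e (nat_lit 196672) (nat_lit 15) (.e (nat_lit 81954) (nat_lit 23) (.e (nat_lit 98325) (nat_lit 17) (.e (nat_lit 7008) (nat_lit 377) .nil)))))) (.g (nat_lit 1) (.e (nat_lit 53245) (nat_lit 0) .nil) .nil))) 
(.lf (nat_lit 460762) (.g (nat_lit 3424) (.e (nat_lit 2839) (nat_lit 183) (.e (nat_lit 417810) (nat_lit 6) (.e (nat_lit 286733) (nat_lit 2) (.e (nat_lit 90174) (nat_lit 14) (.e (nat_lit 180288) (nat_lit 45) .nil))))) (.g (nat_lit 0) (.e (nat_lit 56120) (nat_lit 0) .nil) .nil))))))) (.nd (nat_lit 6) (.nd (nat_lit 7) (.nd (nat_lit 8) (.nd (nat_lit 9) 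
(.lf (nat_lit 459834) (.g (nat_lit 3819) (.e (nat_lit 2798) (nat_lit 180) (.e (nat_lit 303143) (nat_lit 12) (.e (nat_lit 475185) (nat_lit 29) (.e (nat_lit 557100) (nat_lit 13) (.e (nat_lit 172106) (nat_lit 10) (.e (nat_lit 434219) (nat_lit 19) (.e (nat_lit 507648) (nat_lit 0) .nil))))))) (.g (nat_lit 1) (.e (nat_lit 51479) (nat_lit 0) .nil) .nil))) 
(.lf (nat_lit 460346) (.g (nat_lit 2147) (.e (nat_lit 2777) (nat_lit 178) (.e (nat_lit 286735) (nat_lit 3) (.e (nat_lit 98367) (nat_lit 27) (.e (nat_lit 434275) (nat_lit 39) .nil)))) (.g (nat_lit 0) (.e (nat_lit 53670) (nat_lit 0) .nil) .nil)))) (.nd (nat_lit 9) 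
(.lf (nat_lit 460090) (.g (nat_lit 3157) (.e (nat_lit 2810) (nat_lit 180) (.e (nat_lit 303117) (nat_lit 2) (.e (nat_lit 196673) (nat_lit 15) (.e (nat_lit 81956) (nat_lit 23) (.e (nat_lit 98325) (nat_lit 17) (.e (nat_lit 6966) (nat_lit 377) .nil)))))) (.g (nat_lit 1) (.e (nat_lit 52723) (nat_lit 0) .nil) .nil))) 
(.lf (nat_lit 460602) (.g (nat_lit 2487) (.e (nat_lit 2830) (nat_lit 182) (.e (nat_lit 409646) (nat_lit 18) (.e (nat_lit 303112) (nat_lit 0) (.e (nat_lit 3252) (nat_lit 197) (.e (nat_lit 532560) (nat_lit 14) (.e (nat_lit 376865) (nat_lit 22) (.e (nat_lit 90130) (nat_lit 9) .nil))))))) (.g (nat_lit 1) (.e (nat_lit 55060) (nat_lit 0) .nil) .nil))))) (.nd (nat_lit 8) (.nd (nat_lit 9) 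
(.lf (nat_lit 459962) (.g (nat_lit 1749) (.e (nat_lit 2804) (nat_lit 180) (.e (nat_lit 303143) (nat_lit 12) (.e (nat_lit 475207) (nat_lit 41) (.e (nat_lit 712755) (nat_lit 30) (.e (nat_lit 450597) (nat_lit 17) (.e (nat_lit 663589) (nat_lit 14) .nil)))))) (.g (nat_lit 1) (.e (nat_lit 52128) (nat_lit 0) .nil) .nil))) 
(.lf (nat_lit 460474) (.g (nat_lit 1567) (.e (nat_lit 2787) (nat_lit 179) (.e (nat_lit 294969) (nat_lit 27) (.e (nat_lit 426340) (nat_lit 14) (.e (nat_lit 491550) (nat_lit 9) (.e (nat_lit 336421) (nat_lit 28) (.e (nat_lit 434189) (nat_lit 13) .nil)))))) (.g (nat_lit 1) (.e (nat_lit 53978) (nat_lit 0) .nil) .nil)))) (.nd (nat_lit 9) 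
(.lf (nat_lit 460218) (.g (nat_lit 1927) (.e (nat_lit 7936) (nat_lit 180) (.e (nat_lit 303117) (nat_lit 2) (.e (nat_lit 196672) (nat_lit 15) (.e (nat_lit 81954) (nat_lit 23) (.e (nat_lit 98323) (nat_lit 17) .nil))))) (.g (nat_lit 0) (.e (nat_lit 53085) (nat_lit 0) .nil) .nil))) 
(.lf (nat_lit 460730) (.g (nat_lit 1837) (.e (nat_lit 2830) (nat_lit 182) (.e (nat_lit 409649) (nat_lit 18) (.e (nat_lit 303119) (nat_lit 3) (.e (nat_lit 204850) (nat_lit 26) .nil)))) (.g (nat_lit 0) (.e (nat_lit 55388) (nat_lit 0) .nil) .nil)))))) (.nd (nat_lit 7) (.nd (nat_lit 8) (.nd (nat_lit 9) 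
(.lf (nat_lit 459898) (.g (nat_lit 2174) (.e (nat_lit 2798) (nat_lit 180) (.e (nat_lit 303145) (nat_lit 13) (.e (nat_lit 483346) (nat_lit 17) (.e (nat_lit 969) (nat_lit 81) .nil)))) (.g (nat_lit 0) (.e (nat_lit 51632) (nat_lit 0) .nil) .nil))) 
(.lf (nat_lit 460410) (.g (nat_lit 1958) (.e (nat_lit 2779) (nat_lit 178) (.e (nat_lit 286734) (nat_lit 3) (.e (nat_lit 98389) (nat_lit 33) (.e (nat_lit 491560) (nat_lit 10) (.e (nat_lit 344117) (nat_lit 21) .nil))))) (.g (nat_lit 0) (.e (nat_lit 53783) (nat_lit 0) .nil) .nil)))) (.nd (nat_lit 9) 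
(.lf (nat_lit 460154) (.g (nat_lit 2876) (.e (nat_lit 2810) (nat_lit 180) (.e (nat_lit 303119) (nat_lit 3) (.e (nat_lit 204869) (nat_lit 29) (.e (nat_lit 368384) (nat_lit 3) .nil)))) (.g (nat_lit 0) (.e (nat_lit 52804) (nat_lit 0) .nil) .nil))) 
(.lf (nat_lit 460666) (.g (nat_lit 1526) (.e (nat_lit 2830) (nat_lit 182) (.e (nat_lit 409648) (nat_lit 18) (.e (nat_lit 303118) (nat_lit 3) (.e (nat_lit 204877) (nat_lit 31) .nil)))) (.g (nat_lit 0) (.e (nat_lit 55192) (nat_lit 0) .nil) .nil))))) (.nd (nat_lit 8) (.nd (nat_lit 9) 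
(.lf (nat_lit 460026) (.g (nat_lit 2762) (.e (nat_lit 2808) (nat_lit 180) (.e (nat_lit 303140) (nat_lit 10) (.e (nat_lit 434229) (nat_lit 22) (.e (nat_lit 524340) (nat_lit 28) (.e (nat_lit 352322) (nat_lit 26) (.e (nat_lit 147512) (nat_lit 14) .nil)))))) (.g (nat_lit 1) (.e (nat_lit 52453) (nat_lit 0) .nil) .nil))) 
(.lf (nat_lit 460538) (.g (nat_lit 2626) (.e (nat_lit 2825) (nat_lit 182) (.e (nat_lit 409645) (nat_lit 18) (.e (nat_lit 303117) (nat_lit 2) (.e (nat_lit 196630) (nat_lit 9) (.e (nat_lit 1616) (nat_lit 113) .nil))))) (.g (nat_lit 0) (.e (nat_lit 54693) (nat_lit 0) .nil) .nil)))) (.nd (nat_lit 9) 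
(.lf (nat_lit 460282) (.g (nat_lit 3404) (.e (nat_lit 2816) (nat_lit 181) (.e (nat_lit 311312) (nat_lit 2) (.e (nat_lit 196673) (nat_lit 15) (.e (nat_lit 81956) (nat_lit 23) (.e (nat_lit 98320) (nat_lit 17) (.e (nat_lit 6949) (nat_lit 377) .nil)))))) (.g (nat_lit 1) (.e (nat_lit 53324) (nat_lit 0) .nil) .nil))) 
(.lf (nat_lit 460794) (.g (nat_lit 1758) (.e (nat_lit 2842) (nat_lit 184) (.e (nat_lit 426555) (nat_lit 32) (.e (nat_lit 376859) (nat_lit 21) (.e (nat_lit 57871) (nat_lit 264) .nil)))) (.g (nat_lit 0) (.e (nat_lit 56203) (nat_lit 0) .nil) .nil)))))))))) (.nd (nat_lit 3) (.nd (nat_lit 4) (.nd (nat_lit 5) (.nd (nat_lit 6) (.nd (nat_lit 7) (.nd (nat_lit 8) (.nd (nat_lit 9) 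
(.lf (nat_lit 459782) (.g (nat_lit 1810) (.e (nat_lit 2798) (nat_lit 180) (.e (nat_lit 303133) (nat_lit 9) (.e (nat_lit 426412) (nat_lit 15) (.e (nat_lit 2174) (nat_lit 143) (.e (nat_lit 712755) (nat_lit 30) (.e (nat_lit 450596) (nat_lit 17) (.e (nat_lit 663589) (nat_lit 14) .nil))))))) (.g (nat_lit 1) (.e (nat_lit 51182) (nat_lit 0) .nil) .nil))) 
(.lf (nat_lit 460294) (.g (nat_lit 2736) (.e (nat_lit 2817) (nat_lit 181) (.e (nat_lit 311312) (nat_lit 2) (.e (nat_lit 196672) (nat_lit 15) (.e (nat_lit 81951) (nat_lit 22) (.e (nat_lit 90165) (nat_lit 12) (.e (nat_lit 164211) (nat_lit 176) .nil)))))) (.g (nat_lit 1) (.e (nat_lit 53474) (nat_lit 0) .nil) .nil)))) (.nd (nat_lit 9) 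
(.lf (nat_lit 460038) (.g (nat_lit 2808) (.e (nat_lit 2809) (nat_lit 180) (.e (nat_lit 303117) (nat_lit 2) (.e (nat_lit 196666) (nat_lit 13) (.e (nat_lit 65610) (nat_lit 10) (.e (nat_lit 344117) (nat_lit 21) (.e (nat_lit 516096) (nat_lit 0) (.e (nat_lit 6984) (nat_lit 377) .nil))))))) (.g (nat_lit 1) (.e (nat_lit 52525) (nat_lit 0) .nil) .nil))) 
(.lf (nat_lit 460550) (.g (nat_lit 4473) (.e (nat_lit 2829) (nat_lit 182) (.e (nat_lit 409617) (nat_lit 10) (.e (nat_lit 632) (nat_lit 50) (.e (nat_lit 573489) (nat_lit 14) (.e (nat_lit 73755) (nat_lit 8) (.e (nat_lit 557105) (nat_lit 14) (.e (nat_lit 180252) (nat_lit 10) (.e (nat_lit 581376) (nat_lit 0) .nil)))))))) (.g (nat_lit 1) (.e (nat_lit 54822) (nat_lit 0) .nil) .nil))))) 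
(.nd (nat_lit 8) (.nd (nat_lit 9) 
(.lf (nat_lit 459910) (.g (nat_lit 504) (.e (nat_lit 2798) (nat_lit 180) (.e (nat_lit 303146) (nat_lit 14) (.e (nat_lit 491570) (nat_lit 13) .nil))) (.g (nat_lit 0) (.e (nat_lit 51854) (nat_lit 0) .nil) .nil))) 
(.lf (nat_lit 460422) (.g (nat_lit 4921) (.e (nat_lit 2779) (nat_lit 178) (.e (nat_lit 286765) (nat_lit 15) (.e (nat_lit 3298) (nat_lit 202) (.e (nat_lit 573481) (nat_lit 13) (.e (nat_lit 65619) (nat_lit 10) (.e (nat_lit 344117) (nat_lit 21) (.e (nat_lit 516106) (nat_lit 0) (.e (nat_lit 6986) (nat_lit 377) .nil)))))))) (.g (nat_lit 1) (.e (nat_lit 53796) (nat_lit 0) .nil) .nil)))) 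
(.nd (nat_lit 9) 
(.lf (nat_lit 460166) (.g (nat_lit 1269) (.e (nat_lit 2810) (nat_lit 180) (.e (nat_lit 303127) (nat_lit 9) (.e (nat_lit 426545) (nat_lit 30) (.e (nat_lit 360457) (nat_lit 0) (.e (nat_lit 5949) (nat_lit 322) (.e (nat_lit 57350) (nat_lit 0) (.e (nat_lit 6113) (nat_lit 332) .nil))))))) (.g (nat_lit 1) (.e (nat_lit 52824) (nat_lit 0) .nil) .nil))) 
(.lf (nat_lit 460678) (.g (nat_lit 3696) (.e (nat_lit 2830) (nat_lit 182) (.e (nat_lit 409648) (nat_lit 18) (.e (nat_lit 303119) (nat_lit 3) (.e (nat_lit 204878) (nat_lit 31) (.e (nat_lit 376865) (nat_lit 22) (.e (nat_lit 90130) (nat_lit 9) .nil)))))) (.g (nat_lit 1) (.e (nat_lit 55240) (nat_lit 0) .nil) .nil)))))) (.nd (nat_lit 7) (.nd (nat_lit 8) (.nd (nat_lit 9) 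
(.lf (nat_lit 459846) (.g (nat_lit 2981) (.e (nat_lit 2798) (nat_lit 180) (.e (nat_lit 303143) (nat_lit 12) (.e (nat_lit 475185) (nat_lit 29) (.e (nat_lit 557100) (nat_lit 13) (.e (nat_lit 172113) (nat_lit 10) (.e (nat_lit 434222) (nat_lit 19) (.e (nat_lit 507648) (nat_lit 0) .nil))))))) (.g (nat_lit 1) (.e (nat_lit 51495) (nat_lit 0) .nil) .nil))) 
(.lf (nat_lit 460358) (.g (nat_lit 4744) (.e (nat_lit 2777) (nat_lit 178) (.e (nat_lit 286759) (nat_lit 12) (.e (nat_lit 385074) (nat_lit 31) (.e (nat_lit 573484) (nat_lit 13) (.e (nat_lit 65586) (nat_lit 7) (.e (nat_lit 319500) (nat_lit 10) (.e (nat_lit 555) (nat_lit 41) (.e (nat_lit 499727) (nat_lit 0) .nil)))))))) (.g (nat_lit 1) (.e (nat_lit 53682) (nat_lit 0) .nil) .nil)))) (.nd (nat_lit 9) 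
(.lf (nat_lit 460102) (.g (nat_lit 2562) (.e (nat_lit 2810) (nat_lit 180) (.e (nat_lit 303117) (nat_lit 2) (.e (nat_lit 196674) (nat_lit 15) (.e (nat_lit 81956) (nat_lit 23) (.e (nat_lit 98325) (nat_lit 17) .nil))))) (.g (nat_lit 0) (.e (nat_lit 52735) (nat_lit 0) .nil) .nil))) 
(.lf (nat_lit 460614) (.g (nat_lit 2462) (.e (nat_lit 2830) (nat_lit 182) (.e (nat_lit 409646) (nat_lit 18) (.e (nat_lit 303119) (nat_lit 3) (.e (nat_lit 204878) (nat_lit 31) (.e (nat_lit 376864) (nat_lit 22) (.e (nat_lit 90130) (nat_lit 9) .nil)))))) (.g (nat_lit 1) (.e (nat_lit 55082) (nat_lit 0) .nil) .nil))))) (.nd (nat_lit 8) (.nd (nat_lit 9) 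
(.lf (nat_lit 459974) (.g (nat_lit 2801) (.e (nat_lit 2806) (nat_lit 180) (.e (nat_lit 303116) (nat_lit 2) (.e (nat_lit 196666) (nat_lit 13) (.e (nat_lit 65610) (nat_lit 10) (.e (nat_lit 344117) (nat_lit 21) (.e (nat_lit 516106) (nat_lit 0) (.e (nat_lit 7016) (nat_lit 377) .nil))))))) (.g (nat_lit 1) (.e (nat_lit 52187) (nat_lit 0) .nil) .nil))) 
(.lf (nat_lit 460486) (.g (nat_lit 2122) (.e (nat_lit 2788) (nat_lit 179) (.e (nat_lit 294973) (nat_lit 28) (.e (nat_lit 434180) (nat_lit 0) (.e (nat_lit 1427) (nat_lit 108) (.e (nat_lit 336421) (nat_lit 28) (.e (nat_lit 434186) (nat_lit 13) .nil)))))) (.g (nat_lit 1) (.e (nat_lit 54067) (nat_lit 0) .nil) .nil)))) (.nd (nat_lit 9) 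
(.lf (nat_lit 460230) (.g (nat_lit 1313) (.e (nat_lit 7936) (nat_lit 180) (.e (nat_lit 303119) (nat_lit 3) (.e (nat_lit 204868) (nat_lit 29) (.e (nat_lit 360466) (nat_lit 3) .nil)))) (.g (nat_lit 0) (.e (nat_lit 53107) (nat_lit 0) .nil) .nil))) 
(.lf (nat_lit 460742) (.g (nat_lit 3924) (.e (nat_lit 2828) (nat_lit 182) (.e (nat_lit 409616) (nat_lit 10) (.e (nat_lit 632) (nat_lit 50) (.e (nat_lit 573489) (nat_lit 14) (.e (nat_lit 73755) (nat_lit 8) (.e (nat_lit 557105) (nat_lit 14) (.e (nat_lit 180252) (nat_lit 10) (.e (nat_lit 581376) (nat_lit 0) .nil)))))))) (.g (nat_lit 1) (.e (nat_lit 55501) (nat_lit 0) .nil) .nil))))))) 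
(.nd (nat_lit 6) (.nd (nat_lit 7) (.nd (nat_lit 8) (.nd (nat_lit 9) 
(.lf (nat_lit 459814) (.g (nat_lit 4371) (.e (nat_lit 2798) (nat_lit 180) (.e (nat_lit 303143) (nat_lit 12) (.e (nat_lit 475185) (nat_lit 29) (.e (nat_lit 557100) (nat_lit 13) (.e (nat_lit 172085) (nat_lit 9) (.e (nat_lit 426125) (nat_lit 2) (.e (nat_lit 204544) (nat_lit 18) .nil))))))) (.g (nat_lit 1) (.e (nat_lit 51457) (nat_lit 0) .nil) .nil))) 
(.lf (nat_lit 460326) (.g (nat_lit 2392) (.e (nat_lit 2819) (nat_lit 181) (.e (nat_lit 311339) (nat_lit 12) (.e (nat_lit 475184) (nat_lit 29) (.e (nat_lit 557109) (nat_lit 15) (.e (nat_lit 188449) (nat_lit 22) (.e (nat_lit 204544) (nat_lit 18) .nil)))))) (.g (nat_lit 1) (.e (nat_lit 53550) (nat_lit 0) .nil) .nil)))) (.nd (nat_lit 9) 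
(.lf (nat_lit 460070) (.g (nat_lit 1778) (.e (nat_lit 2810) (nat_lit 180) (.e (nat_lit 303117) (nat_lit 2) (.e (nat_lit 196666) (nat_lit 13) (.e (nat_lit 65599) (nat_lit 9) .nil)))) (.g (nat_lit 0) (.e (nat_lit 52703) (nat_lit 0) .nil) .nil))) 
(.lf (nat_lit 460582) (.g (nat_lit 2476) (.e (nat_lit 2830) (nat_lit 182) (.e (nat_lit 409643) (nat_lit 18) (.e (nat_lit 303112) (nat_lit 0) (.e (nat_lit 3252) (nat_lit 197) (.e (nat_lit 532561) (nat_lit 14) (.e (nat_lit 376865) (nat_lit 22) (.e (nat_lit 90130) (nat_lit 9) .nil))))))) (.g (nat_lit 1) (.e (nat_lit 55026) (nat_lit 0) .nil) .nil))))) (.nd (nat_lit 8) (.nd (nat_lit 9) 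
(.lf (nat_lit 459942) (.g (nat_lit 2093) (.e (nat_lit 2804) (nat_lit 180) (.e (nat_lit 303117) (nat_lit 2) (.e (nat_lit 196666) (nat_lit 13) (.e (nat_lit 65610) (nat_lit 10) (.e (nat_lit 344117) (nat_lit 21) (.e (nat_lit 516106) (nat_lit 0) (.e (nat_lit 7936) (nat_lit 377) .nil))))))) (.g (nat_lit 1) (.e (nat_lit 52085) (nat_lit 0) .nil) .nil))) 
(.lf (nat_lit 460454) (.g (nat_lit 3300) (.e (nat_lit 2781) (nat_lit 178) (.e (nat_lit 286765) (nat_lit 15) (.e (nat_lit 3298) (nat_lit 202) (.e (nat_lit 573493) (nat_lit 15) (.e (nat_lit 81953) (nat_lit 22) (.e (nat_lit 90165) (nat_lit 12) (.e (nat_lit 164208) (nat_lit 176) .nil))))))) (.g (nat_lit 1) (.e (nat_lit 53884) (nat_lit 0) .nil) .nil)))) (.nd (nat_lit 9) 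
(.lf (nat_lit 460198) (.g (nat_lit 3225) (.e (nat_lit 2812) (nat_lit 180) (.e (nat_lit 303117) (nat_lit 2) (.e (nat_lit 196666) (nat_lit 13) (.e (nat_lit 65604) (nat_lit 9) .nil)))) (.g (nat_lit 0) (.e (nat_lit 53028) (nat_lit 0) .nil) .nil))) 
(.lf (nat_lit 460710) (.g (nat_lit 3352) (.e (nat_lit 2830) (nat_lit 182) (.e (nat_lit 409649) (nat_lit 18) (.e (nat_lit 303116) (nat_lit 2) (.e (nat_lit 196672) (nat_lit 15) (.e (nat_lit 81952) (nat_lit 22) (.e (nat_lit 90130) (nat_lit 9) .nil)))))) (.g (nat_lit 1) (.e (nat_lit 55356) (nat_lit 0) .nil) .nil)))))) (.nd (nat_lit 7) (.nd (nat_lit 8) (.nd (nat_lit 9) 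
(.lf (nat_lit 459878) (.g (nat_lit 3616) (.e (nat_lit 2798) (nat_lit 180) (.e (nat_lit 303143) (nat_lit 12) (.e (nat_lit 475185) (nat_lit 29) (.e (nat_lit 557107) (nat_lit 15) (.e (nat_lit 188447) (nat_lit 22) (.e (nat_lit 204544) (nat_lit 18) .nil)))))) (.g (nat_lit 1) (.e (nat_lit 51552) (nat_lit 0) .nil) .nil))) 
(.lf (nat_lit 460390) (.g (nat_lit 4161) (.e (nat_lit 2777) (nat_lit 178) (.e (nat_lit 286765) (nat_lit 15) (.e (nat_lit 3308) (nat_lit 202) (.e (nat_lit 573493) (nat_lit 15) (.e (nat_lit 81954) (nat_lit 23) (.e (nat_lit 98325) (nat_lit 17) (.e (nat_lit 6986) (nat_lit 377) .nil))))))) (.g (nat_lit 1) (.e (nat_lit 53722) (nat_lit 0) .nil) .nil)))) (.nd (nat_lit 9) 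
(.lf (nat_lit 460134) (.g (nat_lit 3671) (.e (nat_lit 2810) (nat_lit 180) (.e (nat_lit 303119) (nat_lit 3) (.e (nat_lit 204866) (nat_lit 28) (.e (nat_lit 352315) (nat_lit 23) (.e (nat_lit 98318) (nat_lit 17) (.e (nat_lit 6989) (nat_lit 377) .nil)))))) (.g (nat_lit 1) (.e (nat_lit 52782) (nat_lit 0) .nil) .nil))) 
(.lf (nat_lit 460646) (.g (nat_lit 802) (.e (nat_lit 2830) (nat_lit 182) (.e (nat_lit 409648) (nat_lit 18) (.e (nat_lit 303116) (nat_lit 2) .nil))) (.g (nat_lit 0) (.e (nat_lit 55138) (nat_lit 0) .nil) .nil))))) (.nd (nat_lit 8) (.nd (nat_lit 9) 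
(.lf (nat_lit 460006) (.g (nat_lit 3862) (.e (nat_lit 2808) (nat_lit 180) (.e (nat_lit 303116) (nat_lit 2) (.e (nat_lit 196666) (nat_lit 13) (.e (nat_lit 65610) (nat_lit 10) (.e (nat_lit 344117) (nat_lit 21) (.e (nat_lit 516106) (nat_lit 0) (.e (nat_lit 7936) (nat_lit 377) .nil))))))) (.g (nat_lit 1) (.e (nat_lit 52310) (nat_lit 0) .nil) .nil))) 
(.lf (nat_lit 460518) (.g (nat_lit 3881) (.e (nat_lit 2822) (nat_lit 182) (.e (nat_lit 409617) (nat_lit 10) (.e (nat_lit 632) (nat_lit 50) (.e (nat_lit 573489) (nat_lit 14) (.e (nat_lit 73755) (nat_lit 8) (.e (nat_lit 557105) (nat_lit 14) (.e (nat_lit 180252) (nat_lit 10) (.e (nat_lit 573441) (nat_lit 0) .nil)))))))) (.g (nat_lit 1) (.e (nat_lit 54270) (nat_lit 0) .nil) .nil)))) (.nd (nat_lit 9) 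
(.lf (nat_lit 460262) (.g (nat_lit 1816) (.e (nat_lit 2816) (nat_lit 181) (.e (nat_lit 311311) (nat_lit 2) (.e (nat_lit 196672) (nat_lit 15) (.e (nat_lit 81954) (nat_lit 23) (.e (nat_lit 98325) (nat_lit 17) (.e (nat_lit 6966) (nat_lit 377) .nil)))))) (.g (nat_lit 1) (.e (nat_lit 53299) (nat_lit 0) .nil) .nil))) 
(.lf (nat_lit 460774) (.g (nat_lit 3272) (.e (nat_lit 2842) (nat_lit 184) (.e (nat_lit 426211) (nat_lit 9) (.e (nat_lit 426125) (nat_lit 2) (.e (nat_lit 196617) (nat_lit 9) (.e (nat_lit 1395) (nat_lit 106) .nil))))) (.g (nat_lit 0) (.e (nat_lit 56159) (nat_lit 0) .nil) .nil)))))))) (.nd (nat_lit 5) (.nd (nat_lit 6) (.nd (nat_lit 7) (.nd (nat_lit 8) (.nd (nat_lit 9) 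
(.lf (nat_lit 459798) (.g (nat_lit 2385) (.e (nat_lit 2798) (nat_lit 180) (.e (nat_lit 303143) (nat_lit 12) (.e (nat_lit 475183) (nat_lit 29) (.e (nat_lit 557109) (nat_lit 15) (.e (nat_lit 188449) (nat_lit 22) (.e (nat_lit 204544) (nat_lit 18) .nil)))))) (.g (nat_lit 1) (.e (nat_lit 51377) (nat_lit 0) .nil) .nil))) 
(.lf (nat_lit 460310) (.g (nat_lit 3537) (.e (nat_lit 2819) (nat_lit 181) (.e (nat_lit 311312) (nat_lit 2) (.e (nat_lit 196672) (nat_lit 15) (.e (nat_lit 81951) (nat_lit 22) (.e (nat_lit 90165) (nat_lit 12) (.e (nat_lit 164207) (nat_lit 176) .nil)))))) (.g (nat_lit 1) (.e (nat_lit 53521) (nat_lit 0) .nil) .nil)))) (.nd (nat_lit 9) 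
(.lf (nat_lit 460054) (.g (nat_lit 3203) (.e (nat_lit 2809) (nat_lit 180) (.e (nat_lit 303117) (nat_lit 2) (.e (nat_lit 196672) (nat_lit 15) (.e (nat_lit 81954) (nat_lit 23) (.e (nat_lit 98320) (nat_lit 17) .nil))))) (.g (nat_lit 0) (.e (nat_lit 52541) (nat_lit 0) .nil) .nil))) 
(.lf (nat_lit 460566) (.g (nat_lit 3002) (.e (nat_lit 2829) (nat_lit 182) (.e (nat_lit 409648) (nat_lit 18) (.e (nat_lit 303117) (nat_lit 2) (.e (nat_lit 196674) (nat_lit 15) (.e (nat_lit 81962) (nat_lit 25) .nil))))) (.g (nat_lit 0) (.e (nat_lit 54904) (nat_lit 0) .nil) .nil))))) (.nd (nat_lit 8) (.nd (nat_lit 9) 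
(.lf (nat_lit 459926) (.g (nat_lit 2955) (.e (nat_lit 2802) (nat_lit 180) (.e (nat_lit 303117) (nat_lit 2) (.e (nat_lit 196672) (nat_lit 15) (.e (nat_lit 81954) (nat_lit 23) (.e (nat_lit 98325) (nat_lit 17) .nil))))) (.g (nat_lit 0) (.e (nat_lit 51939) (nat_lit 0) .nil) .nil))) 
(.lf (nat_lit 460438) (.g (nat_lit 1776) (.e (nat_lit 2779) (nat_lit 178) (.e (nat_lit 286768) (nat_lit 27) (.e (nat_lit 426340) (nat_lit 14) (.e (nat_lit 491549) (nat_lit 9) (.e (nat_lit 336421) (nat_lit 28) (.e (nat_lit 434187) (nat_lit 13) .nil)))))) (.g (nat_lit 1) (.e (nat_lit 53818) (nat_lit 0) .nil) .nil)))) (.nd (nat_lit 9) 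
(.lf (nat_lit 460182) (.g (nat_lit 990) (.e (nat_lit 2810) (nat_lit 180) (.e (nat_lit 303143) (nat_lit 12) (.e (nat_lit 475219) (nat_lit 44) (.e (nat_lit 737318) (nat_lit 15) .nil)))) (.g (nat_lit 0) (.e (nat_lit 52869) (nat_lit 0) .nil) .nil))) 
(.lf (nat_lit 460694) (.g (nat_lit 3817) (.e (nat_lit 2830) (nat_lit 182) (.e (nat_lit 409649) (nat_lit 18) (.e (nat_lit 303112) (nat_lit 0) (.e (nat_lit 3252) (nat_lit 197) (.e (nat_lit 532560) (nat_lit 14) (.e (nat_lit 376863) (nat_lit 22) (.e (nat_lit 90130) (nat_lit 9) .nil))))))) (.g (nat_lit 1) (.e (nat_lit 55333) (nat_lit 0) .nil) .nil)))))) 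
(.nd (nat_lit 7) (.nd (nat_lit 8) (.nd (nat_lit 9) 
(.lf (nat_lit 459862) (.g (nat_lit 4247) (.e (nat_lit 2798) (nat_lit 180) (.e (nat_lit 303143) (nat_lit 12) (.e (nat_lit 475185) (nat_lit 29) (.e (nat_lit 557101) (nat_lit 13) (.e (nat_lit 172097) (nat_lit 9) (.e (nat_lit 426125) (nat_lit 2) (.e (nat_lit 204544) (nat_lit 18) .nil))))))) (.g (nat_lit 1) (.e (nat_lit 51517) (nat_lit 0) .nil) .nil))) 
(.lf (nat_lit 460374) (.g (nat_lit 3164) (.e (nat_lit 2777) (nat_lit 178) (.e (nat_lit 286765) (nat_lit 15) (.e (nat_lit 3304) (nat_lit 202) (.e (nat_lit 573485) (nat_lit 13) (.e (nat_lit 65604) (nat_lit 9) (.e (nat_lit 336028) (nat_lit 3) (.e (nat_lit 98325) (nat_lit 17) (.e (nat_lit 6986) (nat_lit 377) .nil)))))))) (.g (nat_lit 1) (.e (nat_lit 53704) (nat_lit 0) .nil) .nil)))) (.nd (nat_lit 9) 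
(.lf (nat_lit 460118) (.g (nat_lit 1877) (.e (nat_lit 2810) (nat_lit 180) (.e (nat_lit 303119) (nat_lit 3) (.e (nat_lit 204855) (nat_lit 26) (.e (nat_lit 336163) (nat_lit 10) .nil)))) (.g (nat_lit 0) (.e (nat_lit 52763) (nat_lit 0) .nil) .nil))) 
(.lf (nat_lit 460630) (.g (nat_lit 3364) (.e (nat_lit 2830) (nat_lit 182) (.e (nat_lit 409648) (nat_lit 18) (.e (nat_lit 303104) (nat_lit 0) (.e (nat_lit 3238) (nat_lit 197) (.e (nat_lit 532560) (nat_lit 14) (.e (nat_lit 376865) (nat_lit 22) (.e (nat_lit 90130) (nat_lit 9) .nil))))))) (.g (nat_lit 1) (.e (nat_lit 55120) (nat_lit 0) .nil) .nil))))) (.nd (nat_lit 8) (.nd (nat_lit 9) 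
(.lf (nat_lit 459990) (.g (nat_lit 2749) (.e (nat_lit 2807) (nat_lit 180) (.e (nat_lit 303137) (nat_lit 10) (.e (nat_lit 434241) (nat_lit 27) (.e (nat_lit 565269) (nat_lit 6) (.e (nat_lit 81965) (nat_lit 26) (.e (nat_lit 147512) (nat_lit 14) .nil)))))) (.g (nat_lit 1) (.e (nat_lit 52276) (nat_lit 0) .nil) .nil))) 
(.lf (nat_lit 460502) (.g (nat_lit 2211) (.e (nat_lit 2789) (nat_lit 179) (.e (nat_lit 294973) (nat_lit 28) (.e (nat_lit 434180) (nat_lit 0) (.e (nat_lit 1427) (nat_lit 108) (.e (nat_lit 336421) (nat_lit 28) (.e (nat_lit 434193) (nat_lit 13) .nil)))))) (.g (nat_lit 1) (.e (nat_lit 54176) (nat_lit 0) .nil) .nil)))) (.nd (nat_lit 9) 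
(.lf (nat_lit 460246) (.g (nat_lit 1761) (.e (nat_lit 2814) (nat_lit 181) (.e (nat_lit 311312) (nat_lit 2) (.e (nat_lit 196672) (nat_lit 15) (.e (nat_lit 81954) (nat_lit 23) (.e (nat_lit 98320) (nat_lit 17) (.e (nat_lit 7073) (nat_lit 377) .nil)))))) (.g (nat_lit 1) (.e (nat_lit 53241) (nat_lit 0) .nil) .nil))) 
(.lf (nat_lit 460758) (.g (nat_lit 695) (.e (nat_lit 2828) (nat_lit 182) (.e (nat_lit 409649) (nat_lit 18) (.e (nat_lit 311040) (nat_lit 34) .nil))) (.g (nat_lit 0) (.e (nat_lit 56099) (nat_lit 0) .nil) .nil))))))) (.nd (nat_lit 6) (.nd (nat_lit 7) (.nd (nat_lit 8) (.nd (nat_lit 9) 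
(.lf (nat_lit 459830) (.g (nat_lit 3046) (.e (nat_lit 2798) (nat_lit 180) (.e (nat_lit 303143) (nat_lit 12) (.e (nat_lit 475185) (nat_lit 29) (.e (nat_lit 557100) (nat_lit 13) (.e (nat_lit 172105) (nat_lit 10) .nil))))) (.g (nat_lit 0) (.e (nat_lit 51473) (nat_lit 0) .nil) .nil))) 
(.lf (nat_lit 460342) (.g (nat_lit 2658) (.e (nat_lit 2777) (nat_lit 178) (.e (nat_lit 286735) (nat_lit 3) (.e (nat_lit 98350) (nat_lit 24) (.e (nat_lit 409649) (nat_lit 18) (.e (nat_lit 303116) (nat_lit 2) (.e (nat_lit 196661) (nat_lit 12) (.e (nat_lit 57712) (nat_lit 176) .nil))))))) (.g (nat_lit 1) (.e (nat_lit 53666) (nat_lit 0) .nil) .nil)))) (.nd (nat_lit 9) 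
(.lf (nat_lit 460086) (.g (nat_lit 1776) (.e (nat_lit 2810) (nat_lit 180) (.e (nat_lit 303117) (nat_lit 2) (.e (nat_lit 196673) (nat_lit 15) (.e (nat_lit 81954) (nat_lit 23) (.e (nat_lit 98325) (nat_lit 17) (.e (nat_lit 6986) (nat_lit 377) .nil)))))) (.g (nat_lit 1) (.e (nat_lit 52719) (nat_lit 0) .nil) .nil))) 
(.lf (nat_lit 460598) (.g (nat_lit 803) (.e (nat_lit 2830) (nat_lit 182) (.e (nat_lit 409646) (nat_lit 18) (.e (nat_lit 303106) (nat_lit 0) .nil))) (.g (nat_lit 0) (.e (nat_lit 55056) (nat_lit 0) .nil) .nil))))) (.nd (nat_lit 8) (.nd (nat_lit 9) 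
(.lf (nat_lit 459958) (.g (nat_lit 3093) (.e (nat_lit 2804) (nat_lit 180) (.e (nat_lit 303143) (nat_lit 12) (.e (nat_lit 475185) (nat_lit 29) (.e (nat_lit 557098) (nat_lit 13) .nil)))) (.g (nat_lit 0) (.e (nat_lit 52124) (nat_lit 0) .nil) .nil))) 
(.lf (nat_lit 460470) (.g (nat_lit 3979) (.e (nat_lit 2787) (nat_lit 179) (.e (nat_lit 294966) (nat_lit 15) (.e (nat_lit 3307) (nat_lit 202) (.e (nat_lit 573485) (nat_lit 13) (.e (nat_lit 65619) (nat_lit 10) (.e (nat_lit 344117) (nat_lit 21) (.e (nat_lit 516106) (nat_lit 0) (.e (nat_lit 7008) (nat_lit 377) .nil)))))))) (.g (nat_lit 1) (.e (nat_lit 53971) (nat_lit 0) .nil) .nil)))) 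
(.nd (nat_lit 9) 
(.lf (nat_lit 460214) (.g (nat_lit 3354) (.e (nat_lit 7936) (nat_lit 180) (.e (nat_lit 303117) (nat_lit 2) (.e (nat_lit 196666) (nat_lit 13) (.e (nat_lit 65617) (nat_lit 10) (.e (nat_lit 344133) (nat_lit 26) .nil))))) (.g (nat_lit 0) (.e (nat_lit 53081) (nat_lit 0) .nil) .nil))) 
(.lf (nat_lit 460726) (.g (nat_lit 1640) (.e (nat_lit 2830) (nat_lit 182) (.e (nat_lit 409649) (nat_lit 18) (.e (nat_lit 303117) (nat_lit 2) (.e (nat_lit 196682) (nat_lit 17) .nil)))) (.g (nat_lit 0) (.e (nat_lit 55374) (nat_lit 0) .nil) .nil)))))) (.nd (nat_lit 7) (.nd (nat_lit 8) (.nd (nat_lit 9) 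
(.lf (nat_lit 459894) (.g (nat_lit 2516) (.e (nat_lit 2798) (nat_lit 180) (.e (nat_lit 303143) (nat_lit 12) (.e (nat_lit 475211) (nat_lit 41) (.e (nat_lit 712755) (nat_lit 30) (.e (nat_lit 450595) (nat_lit 17) (.e (nat_lit 663589) (nat_lit 14) .nil)))))) (.g (nat_lit 1) (.e (nat_lit 51616) (nat_lit 0) .nil) .nil))) 
(.lf (nat_lit 460406) (.g (nat_lit 2306) (.e (nat_lit 2777) (nat_lit 178) (.e (nat_lit 286771) (nat_lit 29) (.e (nat_lit 442379) (nat_lit 0) (.e (nat_lit 2059) (nat_lit 142) (.e (nat_lit 704595) (nat_lit 5) (.e (nat_lit 188160) (nat_lit 45) .nil)))))) (.g (nat_lit 1) (.e (nat_lit 53758) (nat_lit 0) .nil) .nil)))) (.nd (nat_lit 9) 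
(.lf (nat_lit 460150) (.g (nat_lit 3935) (.e (nat_lit 2810) (nat_lit 180) (.e (nat_lit 303119) (nat_lit 3) (.e (nat_lit 204869) (nat_lit 29) (.e (nat_lit 360450) (nat_lit 0) (.e (nat_lit 4153) (nat_lit 249) .nil))))) (.g (nat_lit 0) (.e (nat_lit 52798) (nat_lit 0) .nil) .nil))) 
(.lf (nat_lit 460662) (.g (nat_lit 3950) (.e (nat_lit 2830) (nat_lit 182) (.e (nat_lit 409648) (nat_lit 18) (.e (nat_lit 303117) (nat_lit 2) (.e (nat_lit 196674) (nat_lit 15) (.e (nat_lit 81952) (nat_lit 22) (.e (nat_lit 90130) (nat_lit 9) .nil)))))) (.g (nat_lit 1) (.e (nat_lit 55179) (nat_lit 0) .nil) .nil))))) (.nd (nat_lit 8) (.nd (nat_lit 9) 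
(.lf (nat_lit 460022) (.g (nat_lit 983) (.e (nat_lit 2808) (nat_lit 180) (.e (nat_lit 303119) (nat_lit 3) (.e (nat_lit 204867) (nat_lit 28) .nil))) (.g (nat_lit 0) (.e (nat_lit 52343) (nat_lit 0) .nil) .nil))) 
(.lf (nat_lit 460534) (.g (nat_lit 1069) (.e (nat_lit 2824) (nat_lit 182) (.e (nat_lit 409645) (nat_lit 18) (.e (nat_lit 303117) (nat_lit 2) (.e (nat_lit 196630) (nat_lit 9) .nil)))) (.g (nat_lit 0) (.e (nat_lit 54506) (nat_lit 0) .nil) .nil)))) (.nd (nat_lit 9) 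
(.lf (nat_lit 460278) (.g (nat_lit 2863) (.e (nat_lit 2816) (nat_lit 181) (.e (nat_lit 311312) (nat_lit 2) (.e (nat_lit 196672) (nat_lit 15) (.e (nat_lit 81954) (nat_lit 23) (.e (nat_lit 98323) (nat_lit 17) (.e (nat_lit 6990) (nat_lit 377) .nil)))))) (.g (nat_lit 1) (.e (nat_lit 53320) (nat_lit 0) .nil) .nil))) 
(.lf (nat_lit 460790) (.g (nat_lit 1608) (.e (nat_lit 2842) (nat_lit 184) (.e (nat_lit 426555) (nat_lit 32) (.e (nat_lit 376857) (nat_lit 21) (.e (nat_lit 57870) (nat_lit 264) .nil)))) (.g (nat_lit 0) (.e (nat_lit 56197) (nat_lit 0) .nil) .nil))))))))) (.nd (nat_lit 4) (.nd (nat_lit 5) (.nd (nat_lit 6) (.nd (nat_lit 7) (.nd (nat_lit 8) (.nd (nat_lit 9) 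
(.lf (nat_lit 459790) (.g (nat_lit 2286) (.e (nat_lit 2798) (nat_lit 180) (.e (nat_lit 303133) (nat_lit 9) (.e (nat_lit 426499) (nat_lit 27) (.e (nat_lit 336106) (nat_lit 9) (.e (nat_lit 336032) (nat_lit 4) (.e (nat_lit 123197) (nat_lit 266) (.e (nat_lit 57346) (nat_lit 0) (.e (nat_lit 6203) (nat_lit 332) .nil)))))))) (.g (nat_lit 1) (.e (nat_lit 51211) (nat_lit 0) .nil) .nil))) 
(.lf (nat_lit 460302) (.g (nat_lit 2754) (.e (nat_lit 2818) (nat_lit 181) (.e (nat_lit 311312) (nat_lit 2) (.e (nat_lit 196672) (nat_lit 15) (.e (nat_lit 81951) (nat_lit 22) (.e (nat_lit 90165) (nat_lit 12) (.e (nat_lit 164207) (nat_lit 176) .nil)))))) (.g (nat_lit 1) (.e (nat_lit 53509) (nat_lit 0) .nil) .nil)))) (.nd (nat_lit 9) 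
(.lf (nat_lit 460046) (.g (nat_lit 5007) (.e (nat_lit 2809) (nat_lit 180) (.e (nat_lit 303117) (nat_lit 2) (.e (nat_lit 196666) (nat_lit 13) (.e (nat_lit 65610) (nat_lit 10) (.e (nat_lit 344117) (nat_lit 21) (.e (nat_lit 516106) (nat_lit 0) (.e (nat_lit 6966) (nat_lit 377) .nil))))))) (.g (nat_lit 1) (.e (nat_lit 52533) (nat_lit 0) .nil) .nil))) 
(.lf (nat_lit 460558) (.g (nat_lit 2203) (.e (nat_lit 2829) (nat_lit 182) (.e (nat_lit 409647) (nat_lit 18) (.e (nat_lit 303116) (nat_lit 2) (.e (nat_lit 196674) (nat_lit 15) (.e (nat_lit 81962) (nat_lit 25) .nil))))) (.g (nat_lit 0) (.e (nat_lit 54885) (nat_lit 0) .nil) .nil))))) (.nd (nat_lit 8) (.nd (nat_lit 9) 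
(.lf (nat_lit 459918) (.g (nat_lit 3312) (.e (nat_lit 2800) (nat_lit 180) (.e (nat_lit 303143) (nat_lit 12) (.e (nat_lit 475185) (nat_lit 29) (.e (nat_lit 557098) (nat_lit 13) .nil)))) (.g (nat_lit 0) (.e (nat_lit 51881) (nat_lit 0) .nil) .nil))) 
(.lf (nat_lit 460430) (.g (nat_lit 5427) (.e (nat_lit 2779) (nat_lit 178) (.e (nat_lit 286765) (nat_lit 15) (.e (nat_lit 3307) (nat_lit 202) (.e (nat_lit 573485) (nat_lit 13) (.e (nat_lit 65619) (nat_lit 10) (.e (nat_lit 344117) (nat_lit 21) (.e (nat_lit 516106) (nat_lit 0) (.e (nat_lit 6986) (nat_lit 377) .nil)))))))) (.g (nat_lit 1) (.e (nat_lit 53807) (nat_lit 0) .nil) .nil)))) 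
(.nd (nat_lit 9) 
(.lf (nat_lit 460174) (.g (nat_lit 4649) (.e (nat_lit 2810) (nat_lit 180) (.e (nat_lit 303143) (nat_lit 12) (.e (nat_lit 475185) (nat_lit 29) (.e (nat_lit 557098) (nat_lit 13) (.e (nat_lit 172097) (nat_lit 9) .nil))))) (.g (nat_lit 0) (.e (nat_lit 52845) (nat_lit 0) .nil) .nil))) 
(.lf (nat_lit 460686) (.g (nat_lit 2367) (.e (nat_lit 2830) (nat_lit 182) (.e (nat_lit 409649) (nat_lit 18) (.e (nat_lit 303104) (nat_lit 0) (.e (nat_lit 3238) (nat_lit 197) (.e (nat_lit 532561) (nat_lit 14) (.e (nat_lit 376865) (nat_lit 22) (.e (nat_lit 90130) (nat_lit 9) .nil))))))) (.g (nat_lit 1) (.e (nat_lit 55323) (nat_lit 0) .nil) .nil)))))) 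
(.nd (nat_lit 7) (.nd (nat_lit 8) (.nd (nat_lit 9) 
(.lf (nat_lit 459854) (.g (nat_lit 2246) (.e (nat_lit 2798) (nat_lit 180) (.e (nat_lit 303143) (nat_lit 12) (.e (nat_lit 475185) (nat_lit 29) (.e (nat_lit 557101) (nat_lit 13) (.e (nat_lit 172100) (nat_lit 9) .nil))))) (.g (nat_lit 0) (.e (nat_lit 51503) (nat_lit 0) .nil) .nil))) 
(.lf (nat_lit 460366) (.g (nat_lit 4352) (.e (nat_lit 2777) (nat_lit 178) (.e (nat_lit 286765) (nat_lit 15) (.e (nat_lit 3298) (nat_lit 202) (.e (nat_lit 573492) (nat_lit 15) (.e (nat_lit 81956) (nat_lit 23) (.e (nat_lit 98323) (nat_lit 17) (.e (nat_lit 6989) (nat_lit 377) .nil))))))) (.g (nat_lit 1) (.e (nat_lit 53694) (nat_lit 0) .nil) .nil)))) (.nd (nat_lit 9) 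
(.lf (nat_lit 460110) (.g (nat_lit 2169) (.e (nat_lit 2810) (nat_lit 180) (.e (nat_lit 303119) (nat_lit 3) (.e (nat_lit 204846) (nat_lit 24) (.e (nat_lit 319491) (nat_lit 0) .nil)))) (.g (nat_lit 0) (.e (nat_lit 52745) (nat_lit 0) .nil) .nil))) 
(.lf (nat_lit 460622) (.g (nat_lit 2213) (.e (nat_lit 2830) (nat_lit 182) (.e (nat_lit 409647) (nat_lit 18) (.e (nat_lit 303119) (nat_lit 3) (.e (nat_lit 204878) (nat_lit 31) (.e (nat_lit 376862) (nat_lit 22) (.e (nat_lit 90130) (nat_lit 9) .nil)))))) (.g (nat_lit 1) (.e (nat_lit 55108) (nat_lit 0) .nil) .nil))))) (.nd (nat_lit 8) (.nd (nat_lit 9) 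
(.lf (nat_lit 459982) (.g (nat_lit 2445) (.e (nat_lit 2807) (nat_lit 180) (.e (nat_lit 303119) (nat_lit 3) (.e (nat_lit 204868) (nat_lit 29) (.e (nat_lit 360466) (nat_lit 3) .nil)))) (.g (nat_lit 0) (.e (nat_lit 52205) (nat_lit 0) .nil) .nil))) 
(.lf (nat_lit 460494) (.g (nat_lit 1963) (.e (nat_lit 2788) (nat_lit 179) (.e (nat_lit 294974) (nat_lit 29) (.e (nat_lit 442377) (nat_lit 0) (.e (nat_lit 2059) (nat_lit 142) (.e (nat_lit 704595) (nat_lit 5) (.e (nat_lit 180284) (nat_lit 45) .nil)))))) (.g (nat_lit 1) (.e (nat_lit 54090) (nat_lit 0) .nil) .nil)))) (.nd (nat_lit 9) 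
(.lf (nat_lit 460238) (.g (nat_lit 2658) (.e (nat_lit 7936) (nat_lit 180) (.e (nat_lit 303143) (nat_lit 12) (.e (nat_lit 475185) (nat_lit 29) (.e (nat_lit 557107) (nat_lit 15) (.e (nat_lit 188447) (nat_lit 22) .nil))))) (.g (nat_lit 0) (.e (nat_lit 53131) (nat_lit 0) .nil) .nil))) 
(.lf (nat_lit 460750) (.g (nat_lit 1705) (.e (nat_lit 2828) (nat_lit 182) (.e (nat_lit 409646) (nat_lit 18) (.e (nat_lit 303117) (nat_lit 2) (.e (nat_lit 196672) (nat_lit 15) .nil)))) (.g (nat_lit 0) (.e (nat_lit 55567) (nat_lit 0) .nil) .nil))))))) (.nd (nat_lit 6) (.nd (nat_lit 7) (.nd (nat_lit 8) (.nd (nat_lit 9) 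
(.lf (nat_lit 459822) (.g (nat_lit 2669) (.e (nat_lit 2798) (nat_lit 180) (.e (nat_lit 303143) (nat_lit 12) (.e (nat_lit 475185) (nat_lit 29) (.e (nat_lit 557100) (nat_lit 13) (.e (nat_lit 172095) (nat_lit 9) .nil))))) (.g (nat_lit 0) (.e (nat_lit 51465) (nat_lit 0) .nil) .nil))) 
(.lf (nat_lit 460334) (.g (nat_lit 686) (.e (nat_lit 2777) (nat_lit 178) (.e (nat_lit 286733) (nat_lit 2) (.e (nat_lit 90133) (nat_lit 9) .nil))) (.g (nat_lit 0) (.e (nat_lit 53657) (nat_lit 0) .nil) .nil)))) (.nd (nat_lit 9) 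
(.lf (nat_lit 460078) (.g (nat_lit 4652) (.e (nat_lit 2810) (nat_lit 180) (.e (nat_lit 303117) (nat_lit 2) (.e (nat_lit 196666) (nat_lit 13) (.e (nat_lit 65619) (nat_lit 10) (.e (nat_lit 344117) (nat_lit 21) (.e (nat_lit 516106) (nat_lit 0) (.e (nat_lit 6986) (nat_lit 377) .nil))))))) (.g (nat_lit 1) (.e (nat_lit 52711) (nat_lit 0) .nil) .nil))) 
(.lf (nat_lit 460590) (.g (nat_lit 4066) (.e (nat_lit 2830) (nat_lit 182) (.e (nat_lit 409645) (nat_lit 18) (.e (nat_lit 303112) (nat_lit 0) (.e (nat_lit 3252) (nat_lit 197) (.e (nat_lit 532561) (nat_lit 14) (.e (nat_lit 376865) (nat_lit 22) (.e (nat_lit 90130) (nat_lit 9) .nil))))))) (.g (nat_lit 1) (.e (nat_lit 55041) (nat_lit 0) .nil) .nil))))) (.nd (nat_lit 8) (.nd (nat_lit 9) 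
(.lf (nat_lit 459950) (.g (nat_lit 545) (.e (nat_lit 2804) (nat_lit 180) (.e (nat_lit 303118) (nat_lit 3) (.e (nat_lit 204877) (nat_lit 31) .nil))) (.g (nat_lit 0) (.e (nat_lit 52094) (nat_lit 0) .nil) .nil))) 
(.lf (nat_lit 460462) (.g (nat_lit 3155) (.e (nat_lit 2782) (nat_lit 178) (.e (nat_lit 286765) (nat_lit 15) (.e (nat_lit 3307) (nat_lit 202) (.e (nat_lit 573491) (nat_lit 15) (.e (nat_lit 81951) (nat_lit 22) .nil))))) (.g (nat_lit 0) (.e (nat_lit 53897) (nat_lit 0) .nil) .nil)))) (.nd (nat_lit 9) 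
(.lf (nat_lit 460206) (.g (nat_lit 4704) (.e (nat_lit 2812) (nat_lit 180) (.e (nat_lit 303119) (nat_lit 3) (.e (nat_lit 204869) (nat_lit 29) (.e (nat_lit 360475) (nat_lit 8) (.e (nat_lit 557068) (nat_lit 9) (.e (nat_lit 78) (nat_lit 0) (.e (nat_lit 6101) (nat_lit 332) .nil))))))) (.g (nat_lit 1) (.e (nat_lit 53036) (nat_lit 0) .nil) .nil))) 
(.lf (nat_lit 460718) (.g (nat_lit 3887) (.e (nat_lit 2830) (nat_lit 182) (.e (nat_lit 409649) (nat_lit 18) (.e (nat_lit 303117) (nat_lit 2) (.e (nat_lit 196672) (nat_lit 15) (.e (nat_lit 81951) (nat_lit 22) (.e (nat_lit 90130) (nat_lit 9) .nil)))))) (.g (nat_lit 1) (.e (nat_lit 55366) (nat_lit 0) .nil) .nil)))))) (.nd (nat_lit 7) (.nd (nat_lit 8) (.nd (nat_lit 9) 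
(.lf (nat_lit 459886) (.g (nat_lit 3026) (.e (nat_lit 2798) (nat_lit 180) (.e (nat_lit 303143) (nat_lit 12) (.e (nat_lit 475185) (nat_lit 29) (.e (nat_lit 557109) (nat_lit 15) (.e (nat_lit 188457) (nat_lit 25) .nil))))) (.g (nat_lit 0) (.e (nat_lit 51560) (nat_lit 0) .nil) .nil))) 
(.lf (nat_lit 460398) (.g (nat_lit 2535) (.e (nat_lit 2777) (nat_lit 178) (.e (nat_lit 286768) (nat_lit 27) (.e (nat_lit 426340) (nat_lit 14) (.e (nat_lit 491571) (nat_lit 13) (.e (nat_lit 393242) (nat_lit 17) (.e (nat_lit 6966) (nat_lit 377) .nil)))))) (.g (nat_lit 1) (.e (nat_lit 53736) (nat_lit 0) .nil) .nil)))) (.nd (nat_lit 9) 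
(.lf (nat_lit 460142) (.g (nat_lit 402) (.e (nat_lit 2810) (nat_lit 180) (.e (nat_lit 303119) (nat_lit 3) (.e (nat_lit 204868) (nat_lit 29) .nil))) (.g (nat_lit 0) (.e (nat_lit 52790) (nat_lit 0) .nil) .nil))) 
(.lf (nat_lit 460654) (.g (nat_lit 3109) (.e (nat_lit 2830) (nat_lit 182) (.e (nat_lit 409648) (nat_lit 18) (.e (nat_lit 303117) (nat_lit 2) (.e (nat_lit 196630) (nat_lit 9) (.e (nat_lit 1616) (nat_lit 113) (.e (nat_lit 376862) (nat_lit 22) (.e (nat_lit 90130) (nat_lit 9) .nil))))))) (.g (nat_lit 1) (.e (nat_lit 55150) (nat_lit 0) .nil) .nil))))) (.nd (nat_lit 8) (.nd (nat_lit 9) 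
(.lf (nat_lit 460014) (.g (nat_lit 2666) (.e (nat_lit 2808) (nat_lit 180) (.e (nat_lit 303117) (nat_lit 2) (.e (nat_lit 196673) (nat_lit 15) (.e (nat_lit 81956) (nat_lit 23) (.e (nat_lit 98320) (nat_lit 17) .nil))))) (.g (nat_lit 0) (.e (nat_lit 52318) (nat_lit 0) .nil) .nil))) 
(.lf (nat_lit 460526) (.g (nat_lit 1487) (.e (nat_lit 2823) (nat_lit 182) (.e (nat_lit 409645) (nat_lit 18) (.e (nat_lit 303117) (nat_lit 2) (.e (nat_lit 196624) (nat_lit 9) .nil)))) (.g (nat_lit 0) (.e (nat_lit 54410) (nat_lit 0) .nil) .nil)))) (.nd (nat_lit 9) 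
(.lf (nat_lit 460270) (.g (nat_lit 3250) (.e (nat_lit 2816) (nat_lit 181) (.e (nat_lit 311312) (nat_lit 2) (.e (nat_lit 196666) (nat_lit 13) (.e (nat_lit 65610) (nat_lit 10) (.e (nat_lit 344117) (nat_lit 21) (.e (nat_lit 516102) (nat_lit 0) (.e (nat_lit 6983) (nat_lit 377) .nil))))))) (.g (nat_lit 1) (.e (nat_lit 53309) (nat_lit 0) .nil) .nil))) 
(.lf (nat_lit 460782) (.g (nat_lit 1810) (.e (nat_lit 2842) (nat_lit 184) (.e (nat_lit 426340) (nat_lit 14) (.e (nat_lit 491537) (nat_lit 2) (.e (nat_lit 90176) (nat_lit 15) (.e (nat_lit 188439) (nat_lit 20) .nil))))) (.g (nat_lit 0) (.e (nat_lit 56181) (nat_lit 0) .nil) .nil)))))))) (.nd (nat_lit 5) (.nd (nat_lit 6) (.nd (nat_lit 7) (.nd (nat_lit 8) (.nd (nat_lit 9) 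
(.lf (nat_lit 459806) (.g (nat_lit 4545) (.e (nat_lit 2798) (nat_lit 180) (.e (nat_lit 303143) (nat_lit 12) (.e (nat_lit 475185) (nat_lit 29) (.e (nat_lit 557098) (nat_lit 13) (.e (nat_lit 172090) (nat_lit 9) .nil))))) (.g (nat_lit 0) (.e (nat_lit 51446) (nat_lit 0) .nil) .nil))) 
(.lf (nat_lit 460318) (.g (nat_lit 1930) (.e (nat_lit 2819) (nat_lit 181) (.e (nat_lit 311315) (nat_lit 3) (.e (nat_lit 204866) (nat_lit 28) (.e (nat_lit 352311) (nat_lit 22) (.e (nat_lit 90165) (nat_lit 12) (.e (nat_lit 164208) (nat_lit 176) .nil)))))) (.g (nat_lit 1) (.e (nat_lit 53531) (nat_lit 0) .nil) .nil)))) (.nd (nat_lit 9) 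
(.lf (nat_lit 460062) (.g (nat_lit 4252) (.e (nat_lit 2809) (nat_lit 180) (.e (nat_lit 303117) (nat_lit 2) (.e (nat_lit 196674) (nat_lit 15) (.e (nat_lit 81956) (nat_lit 23) (.e (nat_lit 98320) (nat_lit 17) .nil))))) (.g (nat_lit 0) (.e (nat_lit 52549) (nat_lit 0) .nil) .nil))) 
(.lf (nat_lit 460574) (.g (nat_lit 2680) (.e (nat_lit 2829) (nat_lit 182) (.e (nat_lit 409649) (nat_lit 18) (.e (nat_lit 303117) (nat_lit 2) (.e (nat_lit 196674) (nat_lit 15) (.e (nat_lit 81962) (nat_lit 25) (.e (nat_lit 139289) (nat_lit 9) .nil)))))) (.g (nat_lit 1) (.e (nat_lit 54950) (nat_lit 0) .nil) .nil))))) (.nd (nat_lit 8) (.nd (nat_lit 9) 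
(.lf (nat_lit 459934) (.g (nat_lit 1988) (.e (nat_lit 2802) (nat_lit 180) (.e (nat_lit 303143) (nat_lit 12) (.e (nat_lit 475185) (nat_lit 29) (.e (nat_lit 557100) (nat_lit 13) .nil)))) (.g (nat_lit 0) (.e (nat_lit 51999) (nat_lit 0) .nil) .nil))) 
(.lf (nat_lit 460446) (.g (nat_lit 2110) (.e (nat_lit 2779) (nat_lit 178) (.e (nat_lit 286771) (nat_lit 29) (.e (nat_lit 442379) (nat_lit 0) (.e (nat_lit 2059) (nat_lit 142) (.e (nat_lit 704595) (nat_lit 5) (.e (nat_lit 180283) (nat_lit 45) .nil)))))) (.g (nat_lit 1) (.e (nat_lit 53851) (nat_lit 0) .nil) .nil)))) (.nd (nat_lit 9) 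
(.lf (nat_lit 460190) (.g (nat_lit 1079) (.e (nat_lit 2810) (nat_lit 180) (.e (nat_lit 303145) (nat_lit 13) (.e (nat_lit 483405) (nat_lit 26) (.e (nat_lit 385100) (nat_lit 49) .nil)))) (.g (nat_lit 0) (.e (nat_lit 52933) (nat_lit 0) .nil) .nil))) 
(.lf (nat_lit 460702) (.g (nat_lit 3749) (.e (nat_lit 2830) (nat_lit 182) (.e (nat_lit 409649) (nat_lit 18) (.e (nat_lit 303111) (nat_lit 0) (.e (nat_lit 3238) (nat_lit 197) (.e (nat_lit 532560) (nat_lit 14) (.e (nat_lit 376863) (nat_lit 22) (.e (nat_lit 90130) (nat_lit 9) .nil))))))) (.g (nat_lit 1) (.e (nat_lit 55342) (nat_lit 0) .nil) .nil)))))) 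
(.nd (nat_lit 7) (.nd (nat_lit 8) (.nd (nat_lit 9) 
(.lf (nat_lit 459870) (.g (nat_lit 2529) (.e (nat_lit 2798) (nat_lit 180) (.e (nat_lit 303143) (nat_lit 12) (.e (nat_lit 475185) (nat_lit 29) (.e (nat_lit 557107) (nat_lit 15) (.e (nat_lit 188424) (nat_lit 20) .nil))))) (.g (nat_lit 0) (.e (nat_lit 51544) (nat_lit 0) .nil) .nil))) 
(.lf (nat_lit 460382) (.g (nat_lit 5104) (.e (nat_lit 2777) (nat_lit 178) (.e (nat_lit 286765) (nat_lit 15) (.e (nat_lit 3307) (nat_lit 202) (.e (nat_lit 573493) (nat_lit 15) (.e (nat_lit 81956) (nat_lit 23) (.e (nat_lit 98323) (nat_lit 17) (.e (nat_lit 6989) (nat_lit 377) .nil))))))) (.g (nat_lit 1) (.e (nat_lit 53714) (nat_lit 0) .nil) .nil)))) (.nd (nat_lit 9) 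
(.lf (nat_lit 460126) (.g (nat_lit 2468) (.e (nat_lit 2810) (nat_lit 180) (.e (nat_lit 303119) (nat_lit 3) (.e (nat_lit 204865) (nat_lit 28) (.e (nat_lit 352315) (nat_lit 23) (.e (nat_lit 98318) (nat_lit 17) .nil))))) (.g (nat_lit 0) (.e (nat_lit 52774) (nat_lit 0) .nil) .nil))) 
(.lf (nat_lit 460638) (.g (nat_lit 3295) (.e (nat_lit 2830) (nat_lit 182) (.e (nat_lit 409648) (nat_lit 18) (.e (nat_lit 303109) (nat_lit 0) (.e (nat_lit 3252) (nat_lit 197) (.e (nat_lit 532561) (nat_lit 14) (.e (nat_lit 376862) (nat_lit 22) (.e (nat_lit 90130) (nat_lit 9) .nil))))))) (.g (nat_lit 1) (.e (nat_lit 55130) (nat_lit 0) .nil) .nil))))) (.nd (nat_lit 8) (.nd (nat_lit 9) 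
(.lf (nat_lit 459998) (.g (nat_lit 4230) (.e (nat_lit 2808) (nat_lit 180) (.e (nat_lit 303116) (nat_lit 2) (.e (nat_lit 196666) (nat_lit 13) (.e (nat_lit 65610) (nat_lit 10) (.e (nat_lit 344117) (nat_lit 21) (.e (nat_lit 516098) (nat_lit 0) (.e (nat_lit 7073) (nat_lit 377) .nil))))))) (.g (nat_lit 1) (.e (nat_lit 52302) (nat_lit 0) .nil) .nil))) 
(.lf (nat_lit 460510) (.g (nat_lit 2117) (.e (nat_lit 2789) (nat_lit 179) (.e (nat_lit 294974) (nat_lit 29) (.e (nat_lit 442377) (nat_lit 0) (.e (nat_lit 2059) (nat_lit 142) (.e (nat_lit 704595) (nat_lit 5) (.e (nat_lit 180284) (nat_lit 45) .nil)))))) (.g (nat_lit 1) (.e (nat_lit 54194) (nat_lit 0) .nil) .nil)))) (.nd (nat_lit 9) 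
(.lf (nat_lit 460254) (.g (nat_lit 2734) (.e (nat_lit 2815) (nat_lit 181) (.e (nat_lit 311312) (nat_lit 2) (.e (nat_lit 196672) (nat_lit 15) (.e (nat_lit 81951) (nat_lit 22) (.e (nat_lit 90165) (nat_lit 12) (.e (nat_lit 164207) (nat_lit 176) .nil)))))) (.g (nat_lit 1) (.e (nat_lit 53274) (nat_lit 0) .nil) .nil))) 
(.lf (nat_lit 460766) (.g (nat_lit 2229) (.e (nat_lit 2842) (nat_lit 184) (.e (nat_lit 426125) (nat_lit 2) (.e (nat_lit 196666) (nat_lit 13) (.e (nat_lit 65617) (nat_lit 10) (.e (nat_lit 344132) (nat_lit 26) .nil))))) (.g (nat_lit 0) (.e (nat_lit 56141) (nat_lit 0) .nil) .nil))))))) (.nd (nat_lit 6) (.nd (nat_lit 7) (.nd (nat_lit 8) (.nd (nat_lit 9) 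
(.lf (nat_lit 459838) (.g (nat_lit 1684) (.e (nat_lit 2798) (nat_lit 180) (.e (nat_lit 303143) (nat_lit 12) (.e (nat_lit 475185) (nat_lit 29) (.e (nat_lit 557100) (nat_lit 13) (.e (nat_lit 172113) (nat_lit 10) .nil))))) (.g (nat_lit 0) (.e (nat_lit 51483) (nat_lit 0) .nil) .nil))) 
(.lf (nat_lit 460350) (.g (nat_lit 4228) (.e (nat_lit 2777) (nat_lit 178) (.e (nat_lit 286735) (nat_lit 3) (.e (nat_lit 98388) (nat_lit 33) (.e (nat_lit 491560) (nat_lit 10) (.e (nat_lit 344117) (nat_lit 21) (.e (nat_lit 516106) (nat_lit 0) (.e (nat_lit 6986) (nat_lit 377) .nil))))))) (.g (nat_lit 1) (.e (nat_lit 53674) (nat_lit 0) .nil) .nil)))) (.nd (nat_lit 9) 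
(.lf (nat_lit 460094) (.g (nat_lit 2886) (.e (nat_lit 2810) (nat_lit 180) (.e (nat_lit 303117) (nat_lit 2) (.e (nat_lit 196674) (nat_lit 15) (.e (nat_lit 81951) (nat_lit 22) (.e (nat_lit 90165) (nat_lit 12) (.e (nat_lit 164208) (nat_lit 176) .nil)))))) (.g (nat_lit 1) (.e (nat_lit 52727) (nat_lit 0) .nil) .nil))) 
(.lf (nat_lit 460606) (.g (nat_lit 3066) (.e (nat_lit 2830) (nat_lit 182) (.e (nat_lit 409646) (nat_lit 18) (.e (nat_lit 303117) (nat_lit 2) (.e (nat_lit 196630) (nat_lit 9) (.e (nat_lit 1616) (nat_lit 113) (.e (nat_lit 376863) (nat_lit 22) (.e (nat_lit 90130) (nat_lit 9) .nil))))))) (.g (nat_lit 1) (.e (nat_lit 55064) (nat_lit 0) .nil) .nil))))) (.nd (nat_lit 8) (.nd (nat_lit 9) 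
(.lf (nat_lit 459966) (.g (nat_lit 2281) (.e (nat_lit 2805) (nat_lit 180) (.e (nat_lit 303118) (nat_lit 3) (.e (nat_lit 204868) (nat_lit 29) (.e (nat_lit 360466) (nat_lit 3) (.e (nat_lit 516104) (nat_lit 0) .nil))))) (.g (nat_lit 0) (.e (nat_lit 52151) (nat_lit 0) .nil) .nil))) 
(.lf (nat_lit 460478) (.g (nat_lit 2443) (.e (nat_lit 2787) (nat_lit 179) (.e (nat_lit 294974) (nat_lit 29) (.e (nat_lit 442379) (nat_lit 0) (.e (nat_lit 2059) (nat_lit 142) (.e (nat_lit 704595) (nat_lit 5) (.e (nat_lit 180285) (nat_lit 45) .nil)))))) (.g (nat_lit 1) (.e (nat_lit 54008) (nat_lit 0) .nil) .nil)))) (.nd (nat_lit 9) 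
(.lf (nat_lit 460222) (.g (nat_lit 1797) (.e (nat_lit 7936) (nat_lit 180) (.e (nat_lit 303117) (nat_lit 2) (.e (nat_lit 196674) (nat_lit 15) (.e (nat_lit 81951) (nat_lit 22) .nil)))) (.g (nat_lit 0) (.e (nat_lit 53089) (nat_lit 0) .nil) .nil))) 
(.lf (nat_lit 460734) (.g (nat_lit 3366) (.e (nat_lit 2830) (nat_lit 182) (.e (nat_lit 409649) (nat_lit 18) (.e (nat_lit 303119) (nat_lit 3) (.e (nat_lit 204877) (nat_lit 31) (.e (nat_lit 376865) (nat_lit 22) (.e (nat_lit 90130) (nat_lit 9) .nil)))))) (.g (nat_lit 1) (.e (nat_lit 55413) (nat_lit 0) .nil) .nil)))))) (.nd (nat_lit 7) (.nd (nat_lit 8) (.nd (nat_lit 9) 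
(.lf (nat_lit 459902) (.g (nat_lit 2253) (.e (nat_lit 2798) (nat_lit 180) (.e (nat_lit 303145) (nat_lit 13) (.e (nat_lit 483346) (nat_lit 17) (.e (nat_lit 6230) (nat_lit 335) .nil)))) (.g (nat_lit 0) (.e (nat_lit 51650) (nat_lit 0) .nil) .nil))) 
(.lf (nat_lit 460414) (.g (nat_lit 2598) (.e (nat_lit 2779) (nat_lit 178) (.e (nat_lit 286735) (nat_lit 3) (.e (nat_lit 98349) (nat_lit 24) (.e (nat_lit 409645) (nat_lit 18) (.e (nat_lit 303119) (nat_lit 3) .nil))))) (.g (nat_lit 0) (.e (nat_lit 53787) (nat_lit 0) .nil) .nil)))) (.nd (nat_lit 9) 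
(.lf (nat_lit 460158) (.g (nat_lit 1951) (.e (nat_lit 2810) (nat_lit 180) (.e (nat_lit 303119) (nat_lit 3) (.e (nat_lit 204877) (nat_lit 31) (.e (nat_lit 376864) (nat_lit 22) (.e (nat_lit 90165) (nat_lit 12) (.e (nat_lit 164208) (nat_lit 176) .nil)))))) (.g (nat_lit 1) (.e (nat_lit 52814) (nat_lit 0) .nil) .nil))) 
(.lf (nat_lit 460670) (.g (nat_lit 4259) (.e (nat_lit 2830) (nat_lit 182) (.e (nat_lit 409648) (nat_lit 18) (.e (nat_lit 303118) (nat_lit 3) (.e (nat_lit 204877) (nat_lit 31) (.e (nat_lit 376865) (nat_lit 22) (.e (nat_lit 90130) (nat_lit 9) .nil)))))) (.g (nat_lit 1) (.e (nat_lit 55196) (nat_lit 0) .nil) .nil))))) (.nd (nat_lit 8) (.nd (nat_lit 9) 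
(.lf (nat_lit 460030) (.g (nat_lit 2644) (.e (nat_lit 2808) (nat_lit 180) (.e (nat_lit 303143) (nat_lit 12) (.e (nat_lit 475185) (nat_lit 29) (.e (nat_lit 557107) (nat_lit 15) (.e (nat_lit 188456) (nat_lit 25) .nil))))) (.g (nat_lit 0) (.e (nat_lit 52481) (nat_lit 0) .nil) .nil))) 
(.lf (nat_lit 460542) (.g (nat_lit 2725) (.e (nat_lit 2827) (nat_lit 182) (.e (nat_lit 409646) (nat_lit 18) (.e (nat_lit 303117) (nat_lit 2) (.e (nat_lit 196672) (nat_lit 15) .nil)))) (.g (nat_lit 0) (.e (nat_lit 54801) (nat_lit 0) .nil) .nil)))) (.nd (nat_lit 9) 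
(.lf (nat_lit 460286) (.g (nat_lit 4542) (.e (nat_lit 2817) (nat_lit 181) (.e (nat_lit 311312) (nat_lit 2) (.e (nat_lit 196666) (nat_lit 13) (.e (nat_lit 65610) (nat_lit 10) (.e (nat_lit 344117) (nat_lit 21) (.e (nat_lit 516097) (nat_lit 0) (.e (nat_lit 7073) (nat_lit 377) .nil))))))) (.g (nat_lit 1) (.e (nat_lit 53463) (nat_lit 0) .nil) .nil))) 
(.lf (nat_lit 460798) (.g (nat_lit 1052) (.e (nat_lit 2842) (nat_lit 184) (.e (nat_lit 426566) (nat_lit 34) (.e (nat_lit 393270) (nat_lit 23) (.e (nat_lit 426436) (nat_lit 18) .nil)))) (.g (nat_lit 0) (.e (nat_lit 56212) (nat_lit 0) .nil) .nil)))))))))))) 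
(.nd (nat_lit 1) (.nd (nat_lit 2) (.nd (nat_lit 3) (.nd (nat_lit 4) (.nd (nat_lit 5) 
(.nd (nat_lit 6) (.nd (nat_lit 7) (.nd (nat_lit 8) (.nd (nat_lit 9) 
(.lf (nat_lit 459777) (.g (nat_lit 3445) (.e (nat_lit 2798) (nat_lit 180) (.e (nat_lit 303133) (nat_lit 9) (.e (nat_lit 426412) (nat_lit 15) (.e (nat_lit 1856) (nat_lit 124) (.e (nat_lit 557107) (nat_lit 15) (.e (nat_lit 188456) (nat_lit 25) (.e (nat_lit 245797) (nat_lit 18) .nil))))))) (.g (nat_lit 1) (.e (nat_lit 51169) (nat_lit 0) .nil) .nil))) 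
(.lf (nat_lit 460289) (.g (nat_lit 4462) (.e (nat_lit 2817) (nat_lit 181) (.e (nat_lit 311312) (nat_lit 2) (.e (nat_lit 196666) (nat_lit 13) (.e (nat_lit 65610) (nat_lit 10) (.e (nat_lit 344117) (nat_lit 21) (.e (nat_lit 516106) (nat_lit 0) (.e (nat_lit 6998) (nat_lit 377) .nil))))))) (.g (nat_lit 1) (.e (nat_lit 53466) (nat_lit 0) .nil) .nil)))) (.nd (nat_lit 9) 
(.lf (nat_lit 460033) (.g (nat_lit 2624) (.e (nat_lit 2808) (nat_lit 180) (.e (nat_lit 303143) (nat_lit 12) (.e (nat_lit 475210) (nat_lit 41) (.e (nat_lit 712755) (nat_lit 30) (.e (nat_lit 450597) (nat_lit 17) (.e (nat_lit 663589) (nat_lit 14) .nil)))))) (.g (nat_lit 1) (.e (nat_lit 52487) (nat_lit 0) .nil) .nil))) 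
(.lf (nat_lit 460545) (.g (nat_lit 2258) (.e (nat_lit 2829) (nat_lit 182) (.e (nat_lit 409602) (nat_lit 0) (.e (nat_lit 5293) (nat_lit 298) (.e (nat_lit 1232) (nat_lit 91) .nil)))) (.g (nat_lit 0) (.e (nat_lit 54816) (nat_lit 0) .nil) .nil))))) (.nd (nat_lit 8) (.nd (nat_lit 9) 
(.lf (nat_lit 459905) (.g (nat_lit 1692) (.e (nat_lit 2798) (nat_lit 180) (.e (nat_lit 303145) (nat_lit 13) (.e (nat_lit 483377) (nat_lit 22) (.e (nat_lit 327692) (nat_lit 1) (.e (nat_lit 8444) (nat_lit 140) .nil))))) (.g (nat_lit 0) (.e (nat_lit 51753) (nat_lit 0) .nil) .nil))) 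
(.lf (nat_lit 460417) (.g (nat_lit 2531) (.e (nat_lit 2779) (nat_lit 178) (.e (nat_lit 286735) (nat_lit 3) (.e (nat_lit 98350) (nat_lit 24) (.e (nat_lit 409643) (nat_lit 18) (.e (nat_lit 303117) (nat_lit 2) .nil))))) (.g (nat_lit 0) (.e (nat_lit 53790) (nat_lit 0) .nil) .nil)))) (.nd (nat_lit 9) 
(.lf (nat_lit 460161) (.g (nat_lit 2176) (.e (nat_lit 2810) (nat_lit 180) (.e (nat_lit 303119) (nat_lit 3) (.e (nat_lit 204878) (nat_lit 31) (.e (nat_lit 376862) (nat_lit 22) (.e (nat_lit 90165) (nat_lit 12) (.e (nat_lit 164208) (nat_lit 176) .nil)))))) (.g (nat_lit 1) (.e (nat_lit 52817) (nat_lit 0) .nil) .nil))) 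
(.lf (nat_lit 460673) (.g (nat_lit 3674) (.e (nat_lit 2830) (nat_lit 182) (.e (nat_lit 409648) (nat_lit 18) (.e (nat_lit 303119) (nat_lit 3) (.e (nat_lit 204877) (nat_lit 31) (.e (nat_lit 376863) (nat_lit 22) (.e (nat_lit 90130) (nat_lit 9) .nil)))))) (.g (nat_lit 1) (.e (nat_lit 55235) (nat_lit 0) .nil) .nil)))))) (.nd (nat_lit 7) (.nd (nat_lit 8) (.nd (nat_lit 9) 
(.lf (nat_lit 459841) (.g (nat_lit 2487) (.e (nat_lit 2798) (nat_lit 180) (.e (nat_lit 303143) (nat_lit 12) (.e (nat_lit 475185) (nat_lit 29) (.e (nat_lit 557100) (nat_lit 13) (.e (nat_lit 172113) (nat_lit 10) (.e (nat_lit 434218) (nat_lit 19) (.e (nat_lit 499733) (nat_lit 0) .nil))))))) (.g (nat_lit 1) (.e (nat_lit 51489) (nat_lit 0) .nil) .nil))) 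
(.lf (nat_lit 460353) (.g (nat_lit 4751) (.e (nat_lit 2777) (nat_lit 178) (.e (nat_lit 286735) (nat_lit 3) (.e (nat_lit 98389) (nat_lit 33) (.e (nat_lit 491560) (nat_lit 10) (.e (nat_lit 344117) (nat_lit 21) (.e (nat_lit 516106) (nat_lit 0) (.e (nat_lit 6986) (nat_lit 377) .nil))))))) (.g (nat_lit 1) (.e (nat_lit 53677) (nat_lit 0) .nil) .nil)))) (.nd (nat_lit 9) 
(.lf (nat_lit 460097) (.g (nat_lit 3638) (.e (nat_lit 2810) (nat_lit 180) (.e (nat_lit 303117) (nat_lit 2) (.e (nat_lit 196674) (nat_lit 15) (.e (nat_lit 81954) (nat_lit 23) (.e (nat_lit 98323) (nat_lit 17) (.e (nat_lit 6989) (nat_lit 377) .nil)))))) (.g (nat_lit 1) (.e (nat_lit 52730) (nat_lit 0) .nil) .nil))) 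
(.lf (nat_lit 460609) (.g (nat_lit 3865) (.e (nat_lit 2830) (nat_lit 182) (.e (nat_lit 409646) (nat_lit 18) (.e (nat_lit 303117) (nat_lit 2) (.e (nat_lit 196674) (nat_lit 15) (.e (nat_lit 81952) (nat_lit 22) (.e (nat_lit 90130) (nat_lit 9) .nil)))))) (.g (nat_lit 1) (.e (nat_lit 55068) (nat_lit 0) .nil) .nil))))) (.nd (nat_lit 8) (.nd (nat_lit 9) 
(.lf (nat_lit 459969) (.g (nat_lit 3317) (.e (nat_lit 2805) (nat_lit 180) (.e (nat_lit 303119) (nat_lit 3) (.e (nat_lit 204868) (nat_lit 29) (.e (nat_lit 360466) (nat_lit 3) (.e (nat_lit 516097) (nat_lit 0) (.e (nat_lit 7026) (nat_lit 377) .nil)))))) (.g (nat_lit 1) (.e (nat_lit 52154) (nat_lit 0) .nil) .nil))) 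
(.lf (nat_lit 460481) (.g (nat_lit 2075) (.e (nat_lit 2788) (nat_lit 179) (.e (nat_lit 294931) (nat_lit 3) (.e (nat_lit 98350) (nat_lit 24) (.e (nat_lit 409649) (nat_lit 18) (.e (nat_lit 303111) (nat_lit 0) (.e (nat_lit 3272) (nat_lit 199) (.e (nat_lit 548910) (nat_lit 17) (.e (nat_lit 164213) (nat_lit 176) .nil)))))))) (.g (nat_lit 1) (.e (nat_lit 54048) (nat_lit 0) .nil) .nil)))) 
(.nd (nat_lit 9) 
(.lf (nat_lit 460225) (.g (nat_lit 1395) (.e (nat_lit 7936) (nat_lit 180) (.e (nat_lit 303118) (nat_lit 3) (.e (nat_lit 204868) (nat_lit 29) (.e (nat_lit 360466) (nat_lit 3) .nil)))) (.g (nat_lit 0) (.e (nat_lit 53095) (nat_lit 0) .nil) .nil))) 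
(.lf (nat_lit 460737) (.g (nat_lit 2562) (.e (nat_lit 2830) (nat_lit 182) (.e (nat_lit 409649) (nat_lit 18) (.e (nat_lit 303119) (nat_lit 3) (.e (nat_lit 204878) (nat_lit 31) (.e (nat_lit 376865) (nat_lit 22) (.e (nat_lit 90130) (nat_lit 9) .nil)))))) (.g (nat_lit 1) (.e (nat_lit 55416) (nat_lit 0) .nil) .nil))))))) (.nd (nat_lit 6) (.nd (nat_lit 7) (.nd (nat_lit 8) (.nd (nat_lit 9) 
(.lf (nat_lit 459809) (.g (nat_lit 4954) (.e (nat_lit 2798) (nat_lit 180) (.e (nat_lit 303143) (nat_lit 12) (.e (nat_lit 475185) (nat_lit 29) (.e (nat_lit 557098) (nat_lit 13) (.e (nat_lit 172094) (nat_lit 9) (.e (nat_lit 426125) (nat_lit 2) (.e (nat_lit 204544) (nat_lit 18) .nil))))))) (.g (nat_lit 1) (.e (nat_lit 51449) (nat_lit 0) .nil) .nil))) 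
(.lf (nat_lit 460321) (.g (nat_lit 4212) (.e (nat_lit 2819) (nat_lit 181) (.e (nat_lit 311315) (nat_lit 3) (.e (nat_lit 204866) (nat_lit 28) (.e (nat_lit 352315) (nat_lit 23) (.e (nat_lit 98325) (nat_lit 17) (.e (nat_lit 6986) (nat_lit 377) .nil)))))) (.g (nat_lit 1) (.e (nat_lit 53534) (nat_lit 0) .nil) .nil)))) (.nd (nat_lit 9) 
(.lf (nat_lit 460065) (.g (nat_lit 454) (.e (nat_lit 2810) (nat_lit 180) (.e (nat_lit 303112) (nat_lit 0) (.e (nat_lit 3252) (nat_lit 197) .nil))) (.g (nat_lit 0) (.e (nat_lit 52693) (nat_lit 0) .nil) .nil))) 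
(.lf (nat_lit 460577) (.g (nat_lit 534) (.e (nat_lit 2830) (nat_lit 182) (.e (nat_lit 409616) (nat_lit 10) (.e (nat_lit 5355) (nat_lit 298) .nil))) (.g (nat_lit 0) (.e (nat_lit 55007) (nat_lit 0) .nil) .nil))))) (.nd (nat_lit 8) (.nd (nat_lit 9) 
(.lf (nat_lit 459937) (.g (nat_lit 2740) (.e (nat_lit 2802) (nat_lit 180) (.e (nat_lit 303143) (nat_lit 12) (.e (nat_lit 475185) (nat_lit 29) (.e (nat_lit 557108) (nat_lit 15) .nil)))) (.g (nat_lit 0) (.e (nat_lit 52003) (nat_lit 0) .nil) .nil))) 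
(.lf (nat_lit 460449) (.g (nat_lit 2249) (.e (nat_lit 2780) (nat_lit 178) (.e (nat_lit 286765) (nat_lit 15) (.e (nat_lit 3307) (nat_lit 202) (.e (nat_lit 573485) (nat_lit 13) (.e (nat_lit 65604) (nat_lit 9) .nil))))) (.g (nat_lit 0) (.e (nat_lit 53876) (nat_lit 0) .nil) .nil)))) (.nd (nat_lit 9) 
(.lf (nat_lit 460193) (.g (nat_lit 3584) (.e (nat_lit 2811) (nat_lit 180) (.e (nat_lit 303117) (nat_lit 2) (.e (nat_lit 196666) (nat_lit 13) (.e (nat_lit 65610) (nat_lit 10) (.e (nat_lit 344129) (nat_lit 26) .nil))))) (.g (nat_lit 0) (.e (nat_lit 53004) (nat_lit 0) .nil) .nil))) 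
(.lf (nat_lit 460705) (.g (nat_lit 2134) (.e (nat_lit 2830) (nat_lit 182) (.e (nat_lit 409649) (nat_lit 18) (.e (nat_lit 303111) (nat_lit 0) (.e (nat_lit 3238) (nat_lit 197) (.e (nat_lit 532561) (nat_lit 14) (.e (nat_lit 376865) (nat_lit 22) (.e (nat_lit 90130) (nat_lit 9) .nil))))))) (.g (nat_lit 1) (.e (nat_lit 55345) (nat_lit 0) .nil) .nil)))))) 
(.nd (nat_lit 7) (.nd (nat_lit 8) (.nd (nat_lit 9) 
(.lf (nat_lit 459873) (.g (nat_lit 1747) (.e (nat_lit 2798) (nat_lit 180) (.e (nat_lit 303143) (nat_lit 12) (.e (nat_lit 475185) (nat_lit 29) (.e (nat_lit 557107) (nat_lit 15) (.e (nat_lit 188439) (nat_lit 20) .nil))))) (.g (nat_lit 0) (.e (nat_lit 51547) (nat_lit 0) .nil) .nil))) 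
(.lf (nat_lit 460385) (.g (nat_lit 3360) (.e (nat_lit 2777) (nat_lit 178) (.e (nat_lit 286765) (nat_lit 15) (.e (nat_lit 3308) (nat_lit 202) (.e (nat_lit 573482) (nat_lit 13) (.e (nat_lit 65604) (nat_lit 9) (.e (nat_lit 336028) (nat_lit 3) (.e (nat_lit 98325) (nat_lit 17) (.e (nat_lit 6966) (nat_lit 377) .nil)))))))) (.g (nat_lit 1) (.e (nat_lit 53717) (nat_lit 0) .nil) .nil)))) (.nd (nat_lit 9) 
(.lf (nat_lit 460129) (.g (nat_lit 2889) (.e (nat_lit 2810) (nat_lit 180) (.e (nat_lit 303119) (nat_lit 3) (.e (nat_lit 204865) (nat_lit 28) (.e (nat_lit 352315) (nat_lit 23) (.e (nat_lit 98325) (nat_lit 17) (.e (nat_lit 6986) (nat_lit 377) .nil)))))) (.g (nat_lit 1) (.e (nat_lit 52777) (nat_lit 0) .nil) .nil))) 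
(.lf (nat_lit 460641) (.g (nat_lit 888) (.e (nat_lit 2830) (nat_lit 182) (.e (nat_lit 409648) (nat_lit 18) (.e (nat_lit 303112) (nat_lit 0) .nil))) (.g (nat_lit 0) (.e (nat_lit 55133) (nat_lit 0) .nil) .nil))))) (.nd (nat_lit 8) (.nd (nat_lit 9) 
(.lf (nat_lit 460001) (.g (nat_lit 2040) (.e (nat_lit 2808) (nat_lit 180) (.e (nat_lit 303116) (nat_lit 2) (.e (nat_lit 196666) (nat_lit 13) (.e (nat_lit 65610) (nat_lit 10) (.e (nat_lit 344117) (nat_lit 21) (.e (nat_lit 516102) (nat_lit 0) (.e (nat_lit 7020) (nat_lit 377) .nil))))))) (.g (nat_lit 1) (.e (nat_lit 52305) (nat_lit 0) .nil) .nil))) 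
(.lf (nat_lit 460513) (.g (nat_lit 2401) (.e (nat_lit 2789) (nat_lit 179) (.e (nat_lit 294974) (nat_lit 29) (.e (nat_lit 442379) (nat_lit 0) (.e (nat_lit 2059) (nat_lit 142) (.e (nat_lit 704595) (nat_lit 5) (.e (nat_lit 180288) (nat_lit 45) .nil)))))) (.g (nat_lit 1) (.e (nat_lit 54201) (nat_lit 0) .nil) .nil)))) (.nd (nat_lit 9) 
(.lf (nat_lit 460257) (.g (nat_lit 3151) (.e (nat_lit 2816) (nat_lit 181) (.e (nat_lit 311311) (nat_lit 2) (.e (nat_lit 196666) (nat_lit 13) (.e (nat_lit 65610) (nat_lit 10) (.e (nat_lit 344117) (nat_lit 21) (.e (nat_lit 516102) (nat_lit 0) (.e (nat_lit 6996) (nat_lit 377) .nil))))))) (.g (nat_lit 1) (.e (nat_lit 53294) (nat_lit 0) .nil) .nil))) 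
(.lf (nat_lit 460769) (.g (nat_lit 2457) (.e (nat_lit 2842) (nat_lit 184) (.e (nat_lit 426132) (nat_lit 3) (.e (nat_lit 204869) (nat_lit 29) (.e (nat_lit 360474) (nat_lit 8) (.e (nat_lit 557091) (nat_lit 12) .nil))))) (.g (nat_lit 0) (.e (nat_lit 56148) (nat_lit 0) .nil) .nil)))))))) (.nd (nat_lit 5) (.nd (nat_lit 6) (.nd (nat_lit 7) (.nd (nat_lit 8) (.nd (nat_lit 9) 
(.lf (nat_lit 459793) (.g (nat_lit 2386) (.e (nat_lit 2798) (nat_lit 180) (.e (nat_lit 303133) (nat_lit 9) (.e (nat_lit 426499) (nat_lit 27) (.e (nat_lit 336150) (nat_lit 9) (.e (nat_lit 336035) (nat_lit 4) (.e (nat_lit 123198) (nat_lit 266) (.e (nat_lit 57346) (nat_lit 0) (.e (nat_lit 6203) (nat_lit 332) .nil)))))))) (.g (nat_lit 1) (.e (nat_lit 51214) (nat_lit 0) .nil) .nil))) 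
(.lf (nat_lit 460305) (.g (nat_lit 3588) (.e (nat_lit 2818) (nat_lit 181) (.e (nat_lit 311312) (nat_lit 2) (.e (nat_lit 196672) (nat_lit 15) (.e (nat_lit 81956) (nat_lit 23) (.e (nat_lit 98320) (nat_lit 17) .nil))))) (.g (nat_lit 0) (.e (nat_lit 53512) (nat_lit 0) .nil) .nil)))) (.nd (nat_lit 9) 
(.lf (nat_lit 460049) (.g (nat_lit 2688) (.e (nat_lit 2809) (nat_lit 180) (.e (nat_lit 303117) (nat_lit 2) (.e (nat_lit 196666) (nat_lit 13) (.e (nat_lit 65617) (nat_lit 10) .nil)))) (.g (nat_lit 0) (.e (nat_lit 52536) (nat_lit 0) .nil) .nil))) 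
(.lf (nat_lit 460561) (.g (nat_lit 664) (.e (nat_lit 2829) (nat_lit 182) (.e (nat_lit 409648) (nat_lit 18) (.e (nat_lit 303104) (nat_lit 0) .nil))) (.g (nat_lit 0) (.e (nat_lit 54899) (nat_lit 0) .nil) .nil))))) (.nd (nat_lit 8) (.nd (nat_lit 9) 
(.lf (nat_lit 459921) (.g (nat_lit 4264) (.e (nat_lit 2802) (nat_lit 180) (.e (nat_lit 303117) (nat_lit 2) (.e (nat_lit 196666) (nat_lit 13) (.e (nat_lit 65610) (nat_lit 10) (.e (nat_lit 344117) (nat_lit 21) (.e (nat_lit 516106) (nat_lit 0) (.e (nat_lit 7936) (nat_lit 377) .nil))))))) (.g (nat_lit 1) (.e (nat_lit 51934) (nat_lit 0) .nil) .nil))) 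
(.lf (nat_lit 460433) (.g (nat_lit 2612) (.e (nat_lit 2779) (nat_lit 178) (.e (nat_lit 286765) (nat_lit 15) (.e (nat_lit 3308) (nat_lit 202) (.e (nat_lit 573491) (nat_lit 15) (.e (nat_lit 81951) (nat_lit 22) (.e (nat_lit 90165) (nat_lit 12) (.e (nat_lit 164208) (nat_lit 176) .nil))))))) (.g (nat_lit 1) (.e (nat_lit 53810) (nat_lit 0) .nil) .nil)))) (.nd (nat_lit 9) 
(.lf (nat_lit 460177) (.g (nat_lit 2431) (.e (nat_lit 2810) (nat_lit 180) (.e (nat_lit 303143) (nat_lit 12) (.e (nat_lit 475212) (nat_lit 42) (.e (nat_lit 720952) (nat_lit 24) (.e (nat_lit 106534) (nat_lit 11) (.e (nat_lit 16392) (nat_lit 0) (.e (nat_lit 6989) (nat_lit 377) .nil))))))) (.g (nat_lit 1) (.e (nat_lit 52862) (nat_lit 0) .nil) .nil))) 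
(.lf (nat_lit 460689) (.g (nat_lit 2631) (.e (nat_lit 2830) (nat_lit 182) (.e (nat_lit 409649) (nat_lit 18) (.e (nat_lit 303106) (nat_lit 0) (.e (nat_lit 3114) (nat_lit 193) (.e (nat_lit 500075) (nat_lit 20) (.e (nat_lit 81952) (nat_lit 22) (.e (nat_lit 90130) (nat_lit 9) .nil))))))) (.g (nat_lit 1) (.e (nat_lit 55327) (nat_lit 0) .nil) .nil)))))) 
(.nd (nat_lit 7) (.nd (nat_lit 8) (.nd (nat_lit 9) 
(.lf (nat_lit 459857) (.g (nat_lit 3887) (.e (nat_lit 2798) (nat_lit 180) (.e (nat_lit 303143) (nat_lit 12) (.e (nat_lit 475185) (nat_lit 29) (.e (nat_lit 557101) (nat_lit 13) (.e (nat_lit 172100) (nat_lit 9) (.e (nat_lit 426125) (nat_lit 2) (.e (nat_lit 204544) (nat_lit 18) .nil))))))) (.g (nat_lit 1) (.e (nat_lit 51506) (nat_lit 0) .nil) .nil))) 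
(.lf (nat_lit 460369) (.g (nat_lit 3412) (.e (nat_lit 2777) (nat_lit 178) (.e (nat_lit 286765) (nat_lit 15) (.e (nat_lit 3298) (nat_lit 202) (.e (nat_lit 573493) (nat_lit 15) (.e (nat_lit 81956) (nat_lit 23) (.e (nat_lit 98325) (nat_lit 17) (.e (nat_lit 6966) (nat_lit 377) .nil))))))) (.g (nat_lit 1) (.e (nat_lit 53697) (nat_lit 0) .nil) .nil)))) (.nd (nat_lit 9) 
(.lf (nat_lit 460113) (.g (nat_lit 3621) (.e (nat_lit 2810) (nat_lit 180) (.e (nat_lit 303119) (nat_lit 3) (.e (nat_lit 204852) (nat_lit 26) (.e (nat_lit 336142) (nat_lit 9) (.e (nat_lit 336027) (nat_lit 3) (.e (nat_lit 98323) (nat_lit 17) (.e (nat_lit 6989) (nat_lit 377) .nil))))))) (.g (nat_lit 1) (.e (nat_lit 52755) (nat_lit 0) .nil) .nil))) 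
(.lf (nat_lit 460625) (.g (nat_lit 4050) (.e (nat_lit 2830) (nat_lit 182) (.e (nat_lit 409648) (nat_lit 18) (.e (nat_lit 303104) (nat_lit 0) (.e (nat_lit 3238) (nat_lit 197) (.e (nat_lit 532558) (nat_lit 14) (.e (nat_lit 376863) (nat_lit 22) (.e (nat_lit 90130) (nat_lit 9) .nil))))))) (.g (nat_lit 1) (.e (nat_lit 55115) (nat_lit 0) .nil) .nil))))) (.nd (nat_lit 8) (.nd (nat_lit 9) 
(.lf (nat_lit 459985) (.g (nat_lit 2797) (.e (nat_lit 2807) (nat_lit 180) (.e (nat_lit 303137) (nat_lit 10) (.e (nat_lit 434229) (nat_lit 22) (.e (nat_lit 524340) (nat_lit 28) (.e (nat_lit 352324) (nat_lit 26) (.e (nat_lit 147511) (nat_lit 14) .nil)))))) (.g (nat_lit 1) (.e (nat_lit 52262) (nat_lit 0) .nil) .nil))) 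
(.lf (nat_lit 460497) (.g (nat_lit 3643) (.e (nat_lit 2789) (nat_lit 179) (.e (nat_lit 294966) (nat_lit 15) (.e (nat_lit 3308) (nat_lit 202) (.e (nat_lit 573482) (nat_lit 13) (.e (nat_lit 65604) (nat_lit 9) (.e (nat_lit 336013) (nat_lit 2) (.e (nat_lit 90165) (nat_lit 12) (.e (nat_lit 164207) (nat_lit 176) .nil)))))))) (.g (nat_lit 1) (.e (nat_lit 54160) (nat_lit 0) .nil) .nil)))) 
(.nd (nat_lit 9) 
(.lf (nat_lit 460241) (.g (nat_lit 2548) (.e (nat_lit 2814) (nat_lit 181) (.e (nat_lit 311311) (nat_lit 2) (.e (nat_lit 196666) (nat_lit 13) (.e (nat_lit 65610) (nat_lit 10) (.e (nat_lit 344117) (nat_lit 21) (.e (nat_lit 516106) (nat_lit 0) (.e (nat_lit 6966) (nat_lit 377) .nil))))))) (.g (nat_lit 1) (.e (nat_lit 53236) (nat_lit 0) .nil) .nil))) 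
(.lf (nat_lit 460753) (.g (nat_lit 4357) (.e (nat_lit 2828) (nat_lit 182) (.e (nat_lit 409646) (nat_lit 18) (.e (nat_lit 303117) (nat_lit 2) (.e (nat_lit 196672) (nat_lit 15) (.e (nat_lit 81953) (nat_lit 22) (.e (nat_lit 90134) (nat_lit 9) .nil)))))) (.g (nat_lit 1) (.e (nat_lit 55570) (nat_lit 0) .nil) .nil))))))) (.nd (nat_lit 6) (.nd (nat_lit 7) (.nd (nat_lit 8) (.nd (nat_lit 9) 
(.lf (nat_lit 459825) (.g (nat_lit 3366) (.e (nat_lit 2798) (nat_lit 180) (.e (nat_lit 303143) (nat_lit 12) (.e (nat_lit 475185) (nat_lit 29) (.e (nat_lit 557100) (nat_lit 13) (.e (nat_lit 172097) (nat_lit 9) .nil))))) (.g (nat_lit 0) (.e (nat_lit 51468) (nat_lit 0) .nil) .nil))) 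
(.lf (nat_lit 460337) (.g (nat_lit 3676) (.e (nat_lit 2777) (nat_lit 178) (.e (nat_lit 286735) (nat_lit 3) (.e (nat_lit 98349) (nat_lit 24) (.e (nat_lit 409645) (nat_lit 18) (.e (nat_lit 303119) (nat_lit 3) (.e (nat_lit 204821) (nat_lit 17) (.e (nat_lit 6114) (nat_lit 332) .nil))))))) (.g (nat_lit 1) (.e (nat_lit 53661) (nat_lit 0) .nil) .nil)))) (.nd (nat_lit 9) 
(.lf (nat_lit 460081) (.g (nat_lit 3262) (.e (nat_lit 2810) (nat_lit 180) (.e (nat_lit 303117) (nat_lit 2) (.e (nat_lit 196672) (nat_lit 15) (.e (nat_lit 81951) (nat_lit 22) (.e (nat_lit 90165) (nat_lit 12) (.e (nat_lit 164208) (nat_lit 176) .nil)))))) (.g (nat_lit 1) (.e (nat_lit 52714) (nat_lit 0) .nil) .nil))) 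
(.lf (nat_lit 460593) (.g (nat_lit 3835) (.e (nat_lit 2830) (nat_lit 182) (.e (nat_lit 409645) (nat_lit 18) (.e (nat_lit 303117) (nat_lit 2) (.e (nat_lit 196674) (nat_lit 15) (.e (nat_lit 81952) (nat_lit 22) (.e (nat_lit 90130) (nat_lit 9) .nil)))))) (.g (nat_lit 1) (.e (nat_lit 55046) (nat_lit 0) .nil) .nil))))) (.nd (nat_lit 8) (.nd (nat_lit 9) 
(.lf (nat_lit 459953) (.g (nat_lit 2340) (.e (nat_lit 2804) (nat_lit 180) (.e (nat_lit 303119) (nat_lit 3) (.e (nat_lit 204868) (nat_lit 29) (.e (nat_lit 360466) (nat_lit 3) .nil)))) (.g (nat_lit 0) (.e (nat_lit 52106) (nat_lit 0) .nil) .nil))) 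
(.lf (nat_lit 460465) (.g (nat_lit 1773) (.e (nat_lit 2782) (nat_lit 178) (.e (nat_lit 286768) (nat_lit 27) (.e (nat_lit 426340) (nat_lit 14) (.e (nat_lit 491549) (nat_lit 9) (.e (nat_lit 336421) (nat_lit 28) (.e (nat_lit 434187) (nat_lit 13) .nil)))))) (.g (nat_lit 1) (.e (nat_lit 53900) (nat_lit 0) .nil) .nil)))) (.nd (nat_lit 9) 
(.lf (nat_lit 460209) (.g (nat_lit 745) (.e (nat_lit 7936) (nat_lit 180) (.e (nat_lit 303112) (nat_lit 0) (.e (nat_lit 3252) (nat_lit 197) (.e (nat_lit 532561) (nat_lit 14) .nil)))) (.g (nat_lit 0) (.e (nat_lit 53074) (nat_lit 0) .nil) .nil))) 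
(.lf (nat_lit 460721) (.g (nat_lit 3552) (.e (nat_lit 2830) (nat_lit 182) (.e (nat_lit 409649) (nat_lit 18) (.e (nat_lit 303117) (nat_lit 2) (.e (nat_lit 196672) (nat_lit 15) (.e (nat_lit 81960) (nat_lit 25) (.e (nat_lit 139285) (nat_lit 9) .nil)))))) (.g (nat_lit 1) (.e (nat_lit 55369) (nat_lit 0) .nil) .nil)))))) (.nd (nat_lit 7) (.nd (nat_lit 8) (.nd (nat_lit 9) 
(.lf (nat_lit 459889) (.g (nat_lit 4005) (.e (nat_lit 2798) (nat_lit 180) (.e (nat_lit 303143) (nat_lit 12) (.e (nat_lit 475185) (nat_lit 29) (.e (nat_lit 557109) (nat_lit 15) (.e (nat_lit 188458) (nat_lit 25) (.e (nat_lit 253696) (nat_lit 18) .nil)))))) (.g (nat_lit 1) (.e (nat_lit 51563) (nat_lit 0) .nil) .nil))) 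
(.lf (nat_lit 460401) (.g (nat_lit 1433) (.e (nat_lit 2777) (nat_lit 178) (.e (nat_lit 286770) (nat_lit 28) (.e (nat_lit 434181) (nat_lit 0) (.e (nat_lit 1426) (nat_lit 108) (.e (nat_lit 336421) (nat_lit 28) (.e (nat_lit 434186) (nat_lit 13) .nil)))))) (.g (nat_lit 1) (.e (nat_lit 53741) (nat_lit 0) .nil) .nil)))) (.nd (nat_lit 9) 
(.lf (nat_lit 460145) (.g (nat_lit 3356) (.e (nat_lit 2810) (nat_lit 180) (.e (nat_lit 303119) (nat_lit 3) (.e (nat_lit 204868) (nat_lit 29) (.e (nat_lit 360466) (nat_lit 3) (.e (nat_lit 516096) (nat_lit 0) (.e (nat_lit 6989) (nat_lit 377) .nil)))))) (.g (nat_lit 1) (.e (nat_lit 52793) (nat_lit 0) .nil) .nil))) 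
(.lf (nat_lit 460657) (.g (nat_lit 3498) (.e (nat_lit 2830) (nat_lit 182) (.e (nat_lit 409648) (nat_lit 18) (.e (nat_lit 303117) (nat_lit 2) (.e (nat_lit 196672) (nat_lit 15) (.e (nat_lit 81952) (nat_lit 22) .nil))))) (.g (nat_lit 0) (.e (nat_lit 55174) (nat_lit 0) .nil) .nil))))) (.nd (nat_lit 8) (.nd (nat_lit 9) 
(.lf (nat_lit 460017) (.g (nat_lit 2528) (.e (nat_lit 2808) (nat_lit 180) (.e (nat_lit 303118) (nat_lit 3) (.e (nat_lit 204868) (nat_lit 29) (.e (nat_lit 360466) (nat_lit 3) (.e (nat_lit 516100) (nat_lit 0) .nil))))) (.g (nat_lit 0) (.e (nat_lit 52330) (nat_lit 0) .nil) .nil))) 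
(.lf (nat_lit 460529) (.g (nat_lit 2584) (.e (nat_lit 2824) (nat_lit 182) (.e (nat_lit 409645) (nat_lit 18) (.e (nat_lit 303117) (nat_lit 2) (.e (nat_lit 196624) (nat_lit 9) (.e (nat_lit 1615) (nat_lit 113) (.e (nat_lit 376863) (nat_lit 22) (.e (nat_lit 90130) (nat_lit 9) .nil))))))) (.g (nat_lit 1) (.e (nat_lit 54501) (nat_lit 0) .nil) .nil)))) (.nd (nat_lit 9) 
(.lf (nat_lit 460273) (.g (nat_lit 4113) (.e (nat_lit 2816) (nat_lit 181) (.e (nat_lit 311312) (nat_lit 2) (.e (nat_lit 196666) (nat_lit 13) (.e (nat_lit 65610) (nat_lit 10) (.e (nat_lit 344117) (nat_lit 21) (.e (nat_lit 516106) (nat_lit 0) (.e (nat_lit 7936) (nat_lit 377) .nil))))))) (.g (nat_lit 1) (.e (nat_lit 53312) (nat_lit 0) .nil) .nil))) 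
(.lf (nat_lit 460785) (.g (nat_lit 1847) (.e (nat_lit 2842) (nat_lit 184) (.e (nat_lit 426436) (nat_lit 18) (.e (nat_lit 98358) (nat_lit 26) (.e (nat_lit 426437) (nat_lit 18) .nil)))) (.g (nat_lit 0) (.e (nat_lit 56188) (nat_lit 0) .nil) .nil))))))))) (.nd (nat_lit 4) (.nd (nat_lit 5) (.nd (nat_lit 6) (.nd (nat_lit 7) (.nd (nat_lit 8) (.nd (nat_lit 9) 
(.lf (nat_lit 459785) (.g (nat_lit 2086) (.e (nat_lit 2798) (nat_lit 180) (.e (nat_lit 303133) (nat_lit 9) (.e (nat_lit 426499) (nat_lit 27) (.e (nat_lit 336073) (nat_lit 9) (.e (nat_lit 336030) (nat_lit 4) (.e (nat_lit 123195) (nat_lit 266) (.e (nat_lit 57346) (nat_lit 0) (.e (nat_lit 6203) (nat_lit 332) .nil)))))))) (.g (nat_lit 1) (.e (nat_lit 51206) (nat_lit 0) .nil) .nil))) 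
(.lf (nat_lit 460297) (.g (nat_lit 1530) (.e (nat_lit 2817) (nat_lit 181) (.e (nat_lit 311312) (nat_lit 2) (.e (nat_lit 196672) (nat_lit 15) (.e (nat_lit 81954) (nat_lit 23) (.e (nat_lit 98321) (nat_lit 17) .nil))))) (.g (nat_lit 0) (.e (nat_lit 53477) (nat_lit 0) .nil) .nil)))) (.nd (nat_lit 9) 
(.lf (nat_lit 460041) (.g (nat_lit 4436) (.e (nat_lit 2809) (nat_lit 180) (.e (nat_lit 303117) (nat_lit 2) (.e (nat_lit 196666) (nat_lit 13) (.e (nat_lit 65610) (nat_lit 10) (.e (nat_lit 344117) (nat_lit 21) (.e (nat_lit 516098) (nat_lit 0) (.e (nat_lit 6948) (nat_lit 377) .nil))))))) (.g (nat_lit 1) (.e (nat_lit 52528) (nat_lit 0) .nil) .nil))) 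
(.lf (nat_lit 460553) (.g (nat_lit 3077) (.e (nat_lit 2829) (nat_lit 182) (.e (nat_lit 409645) (nat_lit 18) (.e (nat_lit 303117) (nat_lit 2) (.e (nat_lit 196674) (nat_lit 15) (.e (nat_lit 81962) (nat_lit 25) (.e (nat_lit 139289) (nat_lit 9) .nil)))))) (.g (nat_lit 1) (.e (nat_lit 54844) (nat_lit 0) .nil) .nil))))) (.nd (nat_lit 8) (.nd (nat_lit 9) 
(.lf (nat_lit 459913) (.g (nat_lit 3568) (.e (nat_lit 2799) (nat_lit 180) (.e (nat_lit 303117) (nat_lit 2) (.e (nat_lit 196666) (nat_lit 13) (.e (nat_lit 65604) (nat_lit 9) .nil)))) (.g (nat_lit 0) (.e (nat_lit 51859) (nat_lit 0) .nil) .nil))) 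
(.lf (nat_lit 460425) (.g (nat_lit 3348) (.e (nat_lit 2779) (nat_lit 178) (.e (nat_lit 286765) (nat_lit 15) (.e (nat_lit 3298) (nat_lit 202) (.e (nat_lit 573493) (nat_lit 15) (.e (nat_lit 81953) (nat_lit 22) (.e (nat_lit 90165) (nat_lit 12) (.e (nat_lit 164208) (nat_lit 176) .nil))))))) (.g (nat_lit 1) (.e (nat_lit 53801) (nat_lit 0) .nil) .nil)))) (.nd (nat_lit 9) 
(.lf (nat_lit 460169) (.g (nat_lit 4849) (.e (nat_lit 2810) (nat_lit 180) (.e (nat_lit 303143) (nat_lit 12) (.e (nat_lit 475185) (nat_lit 29) (.e (nat_lit 557098) (nat_lit 13) (.e (nat_lit 172085) (nat_lit 9) .nil))))) (.g (nat_lit 0) (.e (nat_lit 52840) (nat_lit 0) .nil) .nil))) 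
(.lf (nat_lit 460681) (.g (nat_lit 3116) (.e (nat_lit 2830) (nat_lit 182) (.e (nat_lit 409649) (nat_lit 18) (.e (nat_lit 303104) (nat_lit 0) (.e (nat_lit 3238) (nat_lit 197) (.e (nat_lit 532559) (nat_lit 14) (.e (nat_lit 376863) (nat_lit 22) (.e (nat_lit 90130) (nat_lit 9) .nil))))))) (.g (nat_lit 1) (.e (nat_lit 55318) (nat_lit 0) .nil) .nil)))))) 
(.nd (nat_lit 7) (.nd (nat_lit 8) (.nd (nat_lit 9) 
(.lf (nat_lit 459849) (.g (nat_lit 3547) (.e (nat_lit 2798) (nat_lit 180) (.e (nat_lit 303143) (nat_lit 12) (.e (nat_lit 475185) (nat_lit 29) (.e (nat_lit 557100) (nat_lit 13) (.e (nat_lit 172113) (nat_lit 10) (.e (nat_lit 442112) (nat_lit 19) (.e (nat_lit 499767) (nat_lit 0) .nil))))))) (.g (nat_lit 1) (.e (nat_lit 51498) (nat_lit 0) .nil) .nil))) 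
(.lf (nat_lit 460361) (.g (nat_lit 4255) (.e (nat_lit 2777) (nat_lit 178) (.e (nat_lit 286759) (nat_lit 12) (.e (nat_lit 385074) (nat_lit 31) (.e (nat_lit 573487) (nat_lit 14) (.e (nat_lit 73794) (nat_lit 46) .nil))))) (.g (nat_lit 0) (.e (nat_lit 53685) (nat_lit 0) .nil) .nil)))) (.nd (nat_lit 9) 
(.lf (nat_lit 460105) (.g (nat_lit 1934) (.e (nat_lit 2810) (nat_lit 180) (.e (nat_lit 303119) (nat_lit 3) (.e (nat_lit 204819) (nat_lit 17) (.e (nat_lit 6113) (nat_lit 332) (.e (nat_lit 2779) (nat_lit 178) .nil))))) (.g (nat_lit 0) (.e (nat_lit 52739) (nat_lit 0) .nil) .nil))) 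
(.lf (nat_lit 460617) (.g (nat_lit 2556) (.e (nat_lit 2830) (nat_lit 182) (.e (nat_lit 409647) (nat_lit 18) (.e (nat_lit 303117) (nat_lit 2) (.e (nat_lit 196630) (nat_lit 9) (.e (nat_lit 1616) (nat_lit 113) .nil))))) (.g (nat_lit 0) (.e (nat_lit 55091) (nat_lit 0) .nil) .nil))))) (.nd (nat_lit 8) (.nd (nat_lit 9) 
(.lf (nat_lit 459977) (.g (nat_lit 3497) (.e (nat_lit 2807) (nat_lit 180) (.e (nat_lit 303116) (nat_lit 2) (.e (nat_lit 196666) (nat_lit 13) (.e (nat_lit 65610) (nat_lit 10) (.e (nat_lit 344117) (nat_lit 21) (.e (nat_lit 516106) (nat_lit 0) (.e (nat_lit 7016) (nat_lit 377) .nil))))))) (.g (nat_lit 1) (.e (nat_lit 52196) (nat_lit 0) .nil) .nil))) 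
(.lf (nat_lit 460489) (.g (nat_lit 1798) (.e (nat_lit 2788) (nat_lit 179) (.e (nat_lit 294973) (nat_lit 28) (.e (nat_lit 434181) (nat_lit 0) (.e (nat_lit 1427) (nat_lit 108) (.e (nat_lit 336421) (nat_lit 28) (.e (nat_lit 434186) (nat_lit 13) .nil)))))) (.g (nat_lit 1) (.e (nat_lit 54070) (nat_lit 0) .nil) .nil)))) (.nd (nat_lit 9) 
(.lf (nat_lit 460233) (.g (nat_lit 1313) (.e (nat_lit 7936) (nat_lit 180) (.e (nat_lit 303119) (nat_lit 3) (.e (nat_lit 204869) (nat_lit 29) (.e (nat_lit 360475) (nat_lit 8) .nil)))) (.g (nat_lit 0) (.e (nat_lit 53115) (nat_lit 0) .nil) .nil))) 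
(.lf (nat_lit 460745) (.g (nat_lit 417) (.e (nat_lit 2828) (nat_lit 182) (.e (nat_lit 409646) (nat_lit 18) (.e (nat_lit 303117) (nat_lit 2) .nil))) (.g (nat_lit 0) (.e (nat_lit 55531) (nat_lit 0) .nil) .nil))))))) (.nd (nat_lit 6) (.nd (nat_lit 7) (.nd (nat_lit 8) (.nd (nat_lit 9) 
(.lf (nat_lit 459817) (.g (nat_lit 3138) (.e (nat_lit 2798) (nat_lit 180) (.e (nat_lit 303143) (nat_lit 12) (.e (nat_lit 475185) (nat_lit 29) (.e (nat_lit 557100) (nat_lit 13) (.e (nat_lit 172088) (nat_lit 9) (.e (nat_lit 426117) (nat_lit 2) (.e (nat_lit 204544) (nat_lit 18) .nil))))))) (.g (nat_lit 1) (.e (nat_lit 51460) (nat_lit 0) .nil) .nil))) 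
(.lf (nat_lit 460329) (.g (nat_lit 1320) (.e (nat_lit 2820) (nat_lit 181) (.e (nat_lit 311325) (nat_lit 9) (.e (nat_lit 426509) (nat_lit 27) (.e (nat_lit 336228) (nat_lit 14) (.e (nat_lit 401454) (nat_lit 12) (.e (nat_lit 483072) (nat_lit 16) .nil)))))) (.g (nat_lit 1) (.e (nat_lit 53617) (nat_lit 0) .nil) .nil)))) (.nd (nat_lit 9) 
(.lf (nat_lit 460073) (.g (nat_lit 2290) (.e (nat_lit 2810) (nat_lit 180) (.e (nat_lit 303117) (nat_lit 2) (.e (nat_lit 196666) (nat_lit 13) (.e (nat_lit 65610) (nat_lit 10) (.e (nat_lit 344117) (nat_lit 21) .nil))))) (.g (nat_lit 0) (.e (nat_lit 52706) (nat_lit 0) .nil) .nil))) 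
(.lf (nat_lit 460585) (.g (nat_lit 2409) (.e (nat_lit 2830) (nat_lit 182) (.e (nat_lit 409643) (nat_lit 18) (.e (nat_lit 303119) (nat_lit 3) (.e (nat_lit 204878) (nat_lit 31) (.e (nat_lit 376865) (nat_lit 22) (.e (nat_lit 90130) (nat_lit 9) .nil)))))) (.g (nat_lit 1) (.e (nat_lit 55031) (nat_lit 0) .nil) .nil))))) (.nd (nat_lit 8) (.nd (nat_lit 9) 
(.lf (nat_lit 459945) (.g (nat_lit 1995) (.e (nat_lit 2804) (nat_lit 180) (.e (nat_lit 303117) (nat_lit 2) (.e (nat_lit 196673) (nat_lit 15) (.e (nat_lit 81953) (nat_lit 22) .nil)))) (.g (nat_lit 0) (.e (nat_lit 52088) (nat_lit 0) .nil) .nil))) 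
(.lf (nat_lit 460457) (.g (nat_lit 3466) (.e (nat_lit 2781) (nat_lit 178) (.e (nat_lit 286765) (nat_lit 15) (.e (nat_lit 3307) (nat_lit 202) (.e (nat_lit 573482) (nat_lit 13) (.e (nat_lit 65619) (nat_lit 10) (.e (nat_lit 344117) (nat_lit 21) (.e (nat_lit 516106) (nat_lit 0) (.e (nat_lit 6986) (nat_lit 377) .nil)))))))) (.g (nat_lit 1) (.e (nat_lit 53888) (nat_lit 0) .nil) .nil)))) 
(.nd (nat_lit 9) 
(.lf (nat_lit 460201) (.g (nat_lit 2035) (.e (nat_lit 2812) (nat_lit 180) (.e (nat_lit 303117) (nat_lit 2) (.e (nat_lit 196672) (nat_lit 15) (.e (nat_lit 81951) (nat_lit 22) .nil)))) (.g (nat_lit 0) (.e (nat_lit 53031) (nat_lit 0) .nil) .nil))) 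
(.lf (nat_lit 460713) (.g (nat_lit 2821) (.e (nat_lit 2830) (nat_lit 182) (.e (nat_lit 409649) (nat_lit 18) (.e (nat_lit 303116) (nat_lit 2) (.e (nat_lit 196673) (nat_lit 15) (.e (nat_lit 81953) (nat_lit 22) (.e (nat_lit 90130) (nat_lit 9) .nil)))))) (.g (nat_lit 1) (.e (nat_lit 55359) (nat_lit 0) .nil) .nil)))))) (.nd (nat_lit 7) (.nd (nat_lit 8) (.nd (nat_lit 9) 
(.lf (nat_lit 459881) (.g (nat_lit 3184) (.e (nat_lit 2798) (nat_lit 180) (.e (nat_lit 303143) (nat_lit 12) (.e (nat_lit 475185) (nat_lit 29) (.e (nat_lit 557107) (nat_lit 15) (.e (nat_lit 188456) (nat_lit 25) (.e (nat_lit 253696) (nat_lit 18) .nil)))))) (.g (nat_lit 1) (.e (nat_lit 51555) (nat_lit 0) .nil) .nil))) 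
(.lf (nat_lit 460393) (.g (nat_lit 4485) (.e (nat_lit 2777) (nat_lit 178) (.e (nat_lit 286765) (nat_lit 15) (.e (nat_lit 3308) (nat_lit 202) (.e (nat_lit 573493) (nat_lit 15) (.e (nat_lit 81956) (nat_lit 23) (.e (nat_lit 98325) (nat_lit 17) (.e (nat_lit 6986) (nat_lit 377) .nil))))))) (.g (nat_lit 1) (.e (nat_lit 53725) (nat_lit 0) .nil) .nil)))) (.nd (nat_lit 9) 
(.lf (nat_lit 460137) (.g (nat_lit 3130) (.e (nat_lit 2810) (nat_lit 180) (.e (nat_lit 303119) (nat_lit 3) (.e (nat_lit 204866) (nat_lit 28) (.e (nat_lit 352315) (nat_lit 23) (.e (nat_lit 98325) (nat_lit 17) (.e (nat_lit 6986) (nat_lit 377) .nil)))))) (.g (nat_lit 1) (.e (nat_lit 52785) (nat_lit 0) .nil) .nil))) 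
(.lf (nat_lit 460649) (.g (nat_lit 3975) (.e (nat_lit 2830) (nat_lit 182) (.e (nat_lit 409648) (nat_lit 18) (.e (nat_lit 303116) (nat_lit 2) (.e (nat_lit 196672) (nat_lit 15) (.e (nat_lit 81952) (nat_lit 22) (.e (nat_lit 90130) (nat_lit 9) .nil)))))) (.g (nat_lit 1) (.e (nat_lit 55145) (nat_lit 0) .nil) .nil))))) (.nd (nat_lit 8) (.nd (nat_lit 9) 
(.lf (nat_lit 460009) (.g (nat_lit 3076) (.e (nat_lit 2808) (nat_lit 180) (.e (nat_lit 303117) (nat_lit 2) (.e (nat_lit 196666) (nat_lit 13) (.e (nat_lit 65604) (nat_lit 9) .nil)))) (.g (nat_lit 0) (.e (nat_lit 52313) (nat_lit 0) .nil) .nil))) 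
(.lf (nat_lit 460521) (.g (nat_lit 3916) (.e (nat_lit 2822) (nat_lit 182) (.e (nat_lit 409645) (nat_lit 18) (.e (nat_lit 303112) (nat_lit 0) (.e (nat_lit 3252) (nat_lit 197) (.e (nat_lit 532535) (nat_lit 9) (.e (nat_lit 336099) (nat_lit 9) (.e (nat_lit 336013) (nat_lit 2) (.e (nat_lit 98048) (nat_lit 9) .nil)))))))) (.g (nat_lit 1) (.e (nat_lit 54273) (nat_lit 0) .nil) .nil)))) (.nd (nat_lit 9) 
(.lf (nat_lit 460265) (.g (nat_lit 3397) (.e (nat_lit 2816) (nat_lit 181) (.e (nat_lit 311312) (nat_lit 2) (.e (nat_lit 196666) (nat_lit 13) (.e (nat_lit 65610) (nat_lit 10) (.e (nat_lit 344117) (nat_lit 21) (.e (nat_lit 516096) (nat_lit 0) (.e (nat_lit 6996) (nat_lit 377) .nil))))))) (.g (nat_lit 1) (.e (nat_lit 53304) (nat_lit 0) .nil) .nil))) 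
(.lf (nat_lit 460777) (.g (nat_lit 4160) (.e (nat_lit 2842) (nat_lit 184) (.e (nat_lit 426211) (nat_lit 9) (.e (nat_lit 426125) (nat_lit 2) (.e (nat_lit 196630) (nat_lit 9) (.e (nat_lit 1395) (nat_lit 106) .nil))))) (.g (nat_lit 0) (.e (nat_lit 56162) (nat_lit 0) .nil) .nil)))))))) (.nd (nat_lit 5) (.nd (nat_lit 6) (.nd (nat_lit 7) (.nd (nat_lit 8) (.nd (nat_lit 9) 
(.lf (nat_lit 459801) (.g (nat_lit 3560) (.e (nat_lit 2798) (nat_lit 180) (.e (nat_lit 303143) (nat_lit 12) (.e (nat_lit 475185) (nat_lit 29) (.e (nat_lit 557096) (nat_lit 13) .nil)))) (.g (nat_lit 0) (.e (nat_lit 51441) (nat_lit 0) .nil) .nil))) 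
(.lf (nat_lit 460313) (.g (nat_lit 1906) (.e (nat_lit 2819) (nat_lit 181) (.e (nat_lit 311312) (nat_lit 2) (.e (nat_lit 196674) (nat_lit 15) (.e (nat_lit 81951) (nat_lit 22) (.e (nat_lit 90165) (nat_lit 12) .nil))))) (.g (nat_lit 0) (.e (nat_lit 53524) (nat_lit 0) .nil) .nil)))) (.nd (nat_lit 9) 
(.lf (nat_lit 460057) (.g (nat_lit 4459) (.e (nat_lit 2809) (nat_lit 180) (.e (nat_lit 303117) (nat_lit 2) (.e (nat_lit 196672) (nat_lit 15) (.e (nat_lit 81956) (nat_lit 23) (.e (nat_lit 98320) (nat_lit 17) .nil))))) (.g (nat_lit 0) (.e (nat_lit 52544) (nat_lit 0) .nil) .nil))) 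
(.lf (nat_lit 460569) (.g (nat_lit 2405) (.e (nat_lit 2829) (nat_lit 182) (.e (nat_lit 409649) (nat_lit 18) (.e (nat_lit 303116) (nat_lit 2) (.e (nat_lit 196672) (nat_lit 15) (.e (nat_lit 81960) (nat_lit 25) (.e (nat_lit 139289) (nat_lit 9) .nil)))))) (.g (nat_lit 1) (.e (nat_lit 54945) (nat_lit 0) .nil) .nil))))) (.nd (nat_lit 8) (.nd (nat_lit 9) 
(.lf (nat_lit 459929) (.g (nat_lit 1560) (.e (nat_lit 2802) (nat_lit 180) (.e (nat_lit 303119) (nat_lit 3) (.e (nat_lit 204868) (nat_lit 29) (.e (nat_lit 360466) (nat_lit 3) .nil)))) (.g (nat_lit 0) (.e (nat_lit 51966) (nat_lit 0) .nil) .nil))) 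
(.lf (nat_lit 460441) (.g (nat_lit 917) (.e (nat_lit 2779) (nat_lit 178) (.e (nat_lit 286770) (nat_lit 28) (.e (nat_lit 434181) (nat_lit 0) (.e (nat_lit 1425) (nat_lit 108) (.e (nat_lit 336421) (nat_lit 28) (.e (nat_lit 434187) (nat_lit 13) .nil)))))) (.g (nat_lit 1) (.e (nat_lit 53825) (nat_lit 0) .nil) .nil)))) (.nd (nat_lit 9) 
(.lf (nat_lit 460185) (.g (nat_lit 1864) (.e (nat_lit 2810) (nat_lit 180) (.e (nat_lit 303145) (nat_lit 13) (.e (nat_lit 483346) (nat_lit 17) (.e (nat_lit 6203) (nat_lit 332) .nil)))) (.g (nat_lit 0) (.e (nat_lit 52877) (nat_lit 0) .nil) .nil))) 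
(.lf (nat_lit 460697) (.g (nat_lit 3792) (.e (nat_lit 2830) (nat_lit 182) (.e (nat_lit 409649) (nat_lit 18) (.e (nat_lit 303112) (nat_lit 0) (.e (nat_lit 3252) (nat_lit 197) (.e (nat_lit 532561) (nat_lit 14) (.e (nat_lit 376865) (nat_lit 22) (.e (nat_lit 90130) (nat_lit 9) .nil))))))) (.g (nat_lit 1) (.e (nat_lit 55336) (nat_lit 0) .nil) .nil)))))) 
(.nd (nat_lit 7) (.nd (nat_lit 8) (.nd (nat_lit 9) 
(.lf (nat_lit 459865) (.g (nat_lit 2953) (.e (nat_lit 2798) (nat_lit 180) (.e (nat_lit 303143) (nat_lit 12) (.e (nat_lit 475185) (nat_lit 29) (.e (nat_lit 557101) (nat_lit 13) (.e (nat_lit 172115) (nat_lit 10) (.e (nat_lit 434218) (nat_lit 19) (.e (nat_lit 499774) (nat_lit 0) .nil))))))) (.g (nat_lit 1) (.e (nat_lit 51521) (nat_lit 0) .nil) .nil))) 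
(.lf (nat_lit 460377) (.g (nat_lit 3476) (.e (nat_lit 2777) (nat_lit 178) (.e (nat_lit 286765) (nat_lit 15) (.e (nat_lit 3307) (nat_lit 202) (.e (nat_lit 573485) (nat_lit 13) (.e (nat_lit 65604) (nat_lit 9) (.e (nat_lit 336028) (nat_lit 3) (.e (nat_lit 98325) (nat_lit 17) (.e (nat_lit 6966) (nat_lit 377) .nil)))))))) (.g (nat_lit 1) (.e (nat_lit 53709) (nat_lit 0) .nil) .nil)))) (.nd (nat_lit 9) 
(.lf (nat_lit 460121) (.g (nat_lit 2266) (.e (nat_lit 2810) (nat_lit 180) (.e (nat_lit 303119) (nat_lit 3) (.e (nat_lit 204855) (nat_lit 26) (.e (nat_lit 336178) (nat_lit 10) (.e (nat_lit 344117) (nat_lit 21) .nil))))) (.g (nat_lit 0) (.e (nat_lit 52767) (nat_lit 0) .nil) .nil))) 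
(.lf (nat_lit 460633) (.g (nat_lit 4074) (.e (nat_lit 2830) (nat_lit 182) (.e (nat_lit 409648) (nat_lit 18) (.e (nat_lit 303106) (nat_lit 0) (.e (nat_lit 3114) (nat_lit 193) (.e (nat_lit 500074) (nat_lit 20) (.e (nat_lit 81953) (nat_lit 22) (.e (nat_lit 90130) (nat_lit 9) .nil))))))) (.g (nat_lit 1) (.e (nat_lit 55123) (nat_lit 0) .nil) .nil))))) (.nd (nat_lit 8) (.nd (nat_lit 9) 
(.lf (nat_lit 459993) (.g (nat_lit 2409) (.e (nat_lit 2807) (nat_lit 180) (.e (nat_lit 303143) (nat_lit 12) (.e (nat_lit 475185) (nat_lit 29) (.e (nat_lit 557109) (nat_lit 15) .nil)))) (.g (nat_lit 0) (.e (nat_lit 52282) (nat_lit 0) .nil) .nil))) 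
(.lf (nat_lit 460505) (.g (nat_lit 2198) (.e (nat_lit 2789) (nat_lit 179) (.e (nat_lit 294973) (nat_lit 28) (.e (nat_lit 434181) (nat_lit 0) (.e (nat_lit 1427) (nat_lit 108) (.e (nat_lit 336421) (nat_lit 28) (.e (nat_lit 434186) (nat_lit 13) .nil)))))) (.g (nat_lit 1) (.e (nat_lit 54179) (nat_lit 0) .nil) .nil)))) (.nd (nat_lit 9) 
(.lf (nat_lit 460249) (.g (nat_lit 2275) (.e (nat_lit 2814) (nat_lit 181) (.e (nat_lit 311312) (nat_lit 2) (.e (nat_lit 196672) (nat_lit 15) (.e (nat_lit 81954) (nat_lit 23) (.e (nat_lit 98325) (nat_lit 17) (.e (nat_lit 6966) (nat_lit 377) .nil)))))) (.g (nat_lit 1) (.e (nat_lit 53244) (nat_lit 0) .nil) .nil))) 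
(.lf (nat_lit 460761) (.g (nat_lit 364) (.e (nat_lit 2837) (nat_lit 183) (.e (nat_lit 417828) (nat_lit 18) (.e (nat_lit 303117) (nat_lit 2) .nil))) (.g (nat_lit 0) (.e (nat_lit 56116) (nat_lit 0) .nil) .nil))))))) (.nd (nat_lit 6) (.nd (nat_lit 7) (.nd (nat_lit 8) (.nd (nat_lit 9) 
(.lf (nat_lit 459833) (.g (nat_lit 2660) (.e (nat_lit 2798) (nat_lit 180) (.e (nat_lit 303143) (nat_lit 12) (.e (nat_lit 475185) (nat_lit 29) (.e (nat_lit 557100) (nat_lit 13) (.e (nat_lit 172106) (nat_lit 10) (.e (nat_lit 434218) (nat_lit 19) (.e (nat_lit 507648) (nat_lit 0) .nil))))))) (.g (nat_lit 1) (.e (nat_lit 51478) (nat_lit 0) .nil) .nil))) 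
(.lf (nat_lit 460345) (.g (nat_lit 2118) (.e (nat_lit 2777) (nat_lit 178) (.e (nat_lit 286735) (nat_lit 3) (.e (nat_lit 98350) (nat_lit 24) (.e (nat_lit 409649) (nat_lit 18) (.e (nat_lit 303119) (nat_lit 3) (.e (nat_lit 204819) (nat_lit 17) (.e (nat_lit 6097) (nat_lit 332) .nil))))))) (.g (nat_lit 1) (.e (nat_lit 53669) (nat_lit 0) .nil) .nil)))) (.nd (nat_lit 9) 
(.lf (nat_lit 460089) (.g (nat_lit 4039) (.e (nat_lit 2810) (nat_lit 180) (.e (nat_lit 303117) (nat_lit 2) (.e (nat_lit 196673) (nat_lit 15) (.e (nat_lit 81956) (nat_lit 23) (.e (nat_lit 98323) (nat_lit 17) (.e (nat_lit 6989) (nat_lit 377) .nil)))))) (.g (nat_lit 1) (.e (nat_lit 52722) (nat_lit 0) .nil) .nil))) 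
(.lf (nat_lit 460601) (.g (nat_lit 3792) (.e (nat_lit 2830) (nat_lit 182) (.e (nat_lit 409646) (nat_lit 18) (.e (nat_lit 303112) (nat_lit 0) (.e (nat_lit 3252) (nat_lit 197) (.e (nat_lit 532560) (nat_lit 14) (.e (nat_lit 376863) (nat_lit 22) (.e (nat_lit 90130) (nat_lit 9) .nil))))))) (.g (nat_lit 1) (.e (nat_lit 55059) (nat_lit 0) .nil) .nil))))) (.nd (nat_lit 8) (.nd (nat_lit 9) 
(.lf (nat_lit 459961) (.g (nat_lit 1935) (.e (nat_lit 2804) (nat_lit 180) (.e (nat_lit 303143) (nat_lit 12) (.e (nat_lit 475185) (nat_lit 29) (.e (nat_lit 557107) (nat_lit 15) .nil)))) (.g (nat_lit 0) (.e (nat_lit 52127) (nat_lit 0) .nil) .nil))) 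
(.lf (nat_lit 460473) (.g (nat_lit 1692) (.e (nat_lit 2787) (nat_lit 179) (.e (nat_lit 294969) (nat_lit 27) (.e (nat_lit 426340) (nat_lit 14) (.e (nat_lit 491549) (nat_lit 9) (.e (nat_lit 336421) (nat_lit 28) (.e (nat_lit 434189) (nat_lit 13) .nil)))))) (.g (nat_lit 1) (.e (nat_lit 53977) (nat_lit 0) .nil) .nil)))) (.nd (nat_lit 9) 
(.lf (nat_lit 460217) (.g (nat_lit 1883) (.e (nat_lit 7936) (nat_lit 180) (.e (nat_lit 303117) (nat_lit 2) (.e (nat_lit 196672) (nat_lit 15) (.e (nat_lit 81953) (nat_lit 22) .nil)))) (.g (nat_lit 0) (.e (nat_lit 53084) (nat_lit 0) .nil) .nil))) 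
(.lf (nat_lit 460729) (.g (nat_lit 3191) (.e (nat_lit 2830) (nat_lit 182) (.e (nat_lit 409649) (nat_lit 18) (.e (nat_lit 303118) (nat_lit 3) (.e (nat_lit 204877) (nat_lit 31) (.e (nat_lit 376864) (nat_lit 22) (.e (nat_lit 90130) (nat_lit 9) .nil)))))) (.g (nat_lit 1) (.e (nat_lit 55386) (nat_lit 0) .nil) .nil)))))) (.nd (nat_lit 7) (.nd (nat_lit 8) (.nd (nat_lit 9) 
(.lf (nat_lit 459897) (.g (nat_lit 3178) (.e (nat_lit 2798) (nat_lit 180) (.e (nat_lit 303143) (nat_lit 12) (.e (nat_lit 475211) (nat_lit 41) (.e (nat_lit 712755) (nat_lit 30) (.e (nat_lit 450597) (nat_lit 17) (.e (nat_lit 671488) (nat_lit 14) .nil)))))) (.g (nat_lit 1) (.e (nat_lit 51619) (nat_lit 0) .nil) .nil))) 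
(.lf (nat_lit 460409) (.g (nat_lit 1924) (.e (nat_lit 2777) (nat_lit 178) (.e (nat_lit 286771) (nat_lit 29) (.e (nat_lit 442419) (nat_lit 21) (.e (nat_lit 164327) (nat_lit 230) (.e (nat_lit 163886) (nat_lit 5) (.e (nat_lit 221188) (nat_lit 0) (.e (nat_lit 6112) (nat_lit 332) .nil))))))) (.g (nat_lit 1) (.e (nat_lit 53763) (nat_lit 0) .nil) .nil)))) (.nd (nat_lit 9) 
(.lf (nat_lit 460153) (.g (nat_lit 2800) (.e (nat_lit 2810) (nat_lit 180) (.e (nat_lit 303119) (nat_lit 3) (.e (nat_lit 204869) (nat_lit 29) (.e (nat_lit 360468) (nat_lit 3) (.e (nat_lit 516102) (nat_lit 0) (.e (nat_lit 6989) (nat_lit 377) .nil)))))) (.g (nat_lit 1) (.e (nat_lit 52803) (nat_lit 0) .nil) .nil))) 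
(.lf (nat_lit 460665) (.g (nat_lit 2929) (.e (nat_lit 2830) (nat_lit 182) (.e (nat_lit 409648) (nat_lit 18) (.e (nat_lit 303117) (nat_lit 2) (.e (nat_lit 196674) (nat_lit 15) (.e (nat_lit 81962) (nat_lit 25) .nil))))) (.g (nat_lit 0) (.e (nat_lit 55182) (nat_lit 0) .nil) .nil))))) (.nd (nat_lit 8) (.nd (nat_lit 9) 
(.lf (nat_lit 460025) (.g (nat_lit 3444) (.e (nat_lit 2808) (nat_lit 180) (.e (nat_lit 303119) (nat_lit 3) (.e (nat_lit 204868) (nat_lit 29) (.e (nat_lit 360466) (nat_lit 3) (.e (nat_lit 516105) (nat_lit 0) .nil))))) (.g (nat_lit 0) (.e (nat_lit 52348) (nat_lit 0) .nil) .nil))) 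
(.lf (nat_lit 460537) (.g (nat_lit 504) (.e (nat_lit 2825) (nat_lit 182) (.e (nat_lit 409645) (nat_lit 18) (.e (nat_lit 303117) (nat_lit 2) .nil))) (.g (nat_lit 0) (.e (nat_lit 54691) (nat_lit 0) .nil) .nil)))) (.nd (nat_lit 9) 
(.lf (nat_lit 460281) (.g (nat_lit 1935) (.e (nat_lit 2816) (nat_lit 181) (.e (nat_lit 311312) (nat_lit 2) (.e (nat_lit 196672) (nat_lit 15) (.e (nat_lit 81954) (nat_lit 23) (.e (nat_lit 106240) (nat_lit 17) .nil))))) (.g (nat_lit 0) (.e (nat_lit 53323) (nat_lit 0) .nil) .nil))) 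
(.lf (nat_lit 460793) (.g (nat_lit 1518) (.e (nat_lit 2842) (nat_lit 184) (.e (nat_lit 426555) (nat_lit 32) (.e (nat_lit 376859) (nat_lit 21) (.e (nat_lit 57870) (nat_lit 264) .nil)))) (.g (nat_lit 0) (.e (nat_lit 56202) (nat_lit 0) .nil) .nil)))))))))) (.nd (nat_lit 3) (.nd (nat_lit 4) (.nd (nat_lit 5) (.nd (nat_lit 6) (.nd (nat_lit 7) (.nd (nat_lit 8) (.nd (nat_lit 9) 
(.lf (nat_lit 459781) (.g (nat_lit 1852) (.e (nat_lit 2798) (nat_lit 180) (.e (nat_lit 303133) (nat_lit 9) (.e (nat_lit 426412) (nat_lit 15) (.e (nat_lit 2174) (nat_lit 143) (.e (nat_lit 712753) (nat_lit 30) (.e (nat_lit 450595) (nat_lit 17) (.e (nat_lit 663589) (nat_lit 14) .nil))))))) (.g (nat_lit 1) (.e (nat_lit 51181) (nat_lit 0) .nil) .nil))) 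
(.lf (nat_lit 460293) (.g (nat_lit 2837) (.e (nat_lit 2817) (nat_lit 181) (.e (nat_lit 311312) (nat_lit 2) (.e (nat_lit 196672) (nat_lit 15) (.e (nat_lit 81951) (nat_lit 22) (.e (nat_lit 90165) (nat_lit 12) (.e (nat_lit 164209) (nat_lit 176) .nil)))))) (.g (nat_lit 1) (.e (nat_lit 53473) (nat_lit 0) .nil) .nil)))) (.nd (nat_lit 9) 
(.lf (nat_lit 460037) (.g (nat_lit 3292) (.e (nat_lit 2809) (nat_lit 180) (.e (nat_lit 303116) (nat_lit 2) (.e (nat_lit 196666) (nat_lit 13) (.e (nat_lit 65610) (nat_lit 10) (.e (nat_lit 344117) (nat_lit 21) (.e (nat_lit 516102) (nat_lit 0) (.e (nat_lit 6983) (nat_lit 377) .nil))))))) (.g (nat_lit 1) (.e (nat_lit 52516) (nat_lit 0) .nil) .nil))) 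
(.lf (nat_lit 460549) (.g (nat_lit 4082) (.e (nat_lit 2829) (nat_lit 182) (.e (nat_lit 409616) (nat_lit 10) (.e (nat_lit 632) (nat_lit 50) (.e (nat_lit 573489) (nat_lit 14) (.e (nat_lit 73755) (nat_lit 8) (.e (nat_lit 557105) (nat_lit 14) (.e (nat_lit 180252) (nat_lit 10) (.e (nat_lit 581376) (nat_lit 0) .nil)))))))) (.g (nat_lit 1) (.e (nat_lit 54820) (nat_lit 0) .nil) .nil))))) 
(.nd (nat_lit 8) (.nd (nat_lit 9) 
(.lf (nat_lit 459909) (.g (nat_lit 3002) (.e (nat_lit 2798) (nat_lit 180) (.e (nat_lit 303146) (nat_lit 14) (.e (nat_lit 491569) (nat_lit 13) (.e (nat_lit 393282) (nat_lit 24) (.e (nat_lit 434275) (nat_lit 39) (.e (nat_lit 663589) (nat_lit 14) .nil)))))) (.g (nat_lit 1) (.e (nat_lit 51853) (nat_lit 0) .nil) .nil))) 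
(.lf (nat_lit 460421) (.g (nat_lit 3327) (.e (nat_lit 2779) (nat_lit 178) (.e (nat_lit 286765) (nat_lit 15) (.e (nat_lit 3298) (nat_lit 202) (.e (nat_lit 573481) (nat_lit 13) (.e (nat_lit 65604) (nat_lit 9) (.e (nat_lit 336013) (nat_lit 2) (.e (nat_lit 90165) (nat_lit 12) (.e (nat_lit 164208) (nat_lit 176) .nil)))))))) (.g (nat_lit 1) (.e (nat_lit 53795) (nat_lit 0) .nil) .nil)))) 
(.nd (nat_lit 9) 
(.lf (nat_lit 460165) (.g (nat_lit 1241) (.e (nat_lit 2810) (nat_lit 180) (.e (nat_lit 303127) (nat_lit 9) (.e (nat_lit 426539) (nat_lit 29) (.e (nat_lit 352316) (nat_lit 24) (.e (nat_lit 123198) (nat_lit 266) .nil))))) (.g (nat_lit 0) (.e (nat_lit 52822) (nat_lit 0) .nil) .nil))) 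
(.lf (nat_lit 460677) (.g (nat_lit 2952) (.e (nat_lit 2830) (nat_lit 182) (.e (nat_lit 409648) (nat_lit 18) (.e (nat_lit 303119) (nat_lit 3) (.e (nat_lit 204878) (nat_lit 31) (.e (nat_lit 376864) (nat_lit 22) (.e (nat_lit 90130) (nat_lit 9) .nil)))))) (.g (nat_lit 1) (.e (nat_lit 55239) (nat_lit 0) .nil) .nil)))))) (.nd (nat_lit 7) (.nd (nat_lit 8) (.nd (nat_lit 9) 
(.lf (nat_lit 459845) (.g (nat_lit 3079) (.e (nat_lit 2798) (nat_lit 180) (.e (nat_lit 303143) (nat_lit 12) (.e (nat_lit 475185) (nat_lit 29) (.e (nat_lit 557100) (nat_lit 13) (.e (nat_lit 172113) (nat_lit 10) (.e (nat_lit 434221) (nat_lit 19) (.e (nat_lit 507648) (nat_lit 0) .nil))))))) (.g (nat_lit 1) (.e (nat_lit 51494) (nat_lit 0) .nil) .nil))) 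
(.lf (nat_lit 460357) (.g (nat_lit 3409) (.e (nat_lit 2777) (nat_lit 178) (.e (nat_lit 286759) (nat_lit 12) (.e (nat_lit 385074) (nat_lit 31) (.e (nat_lit 573484) (nat_lit 13) (.e (nat_lit 65586) (nat_lit 7) (.e (nat_lit 319500) (nat_lit 10) (.e (nat_lit 514) (nat_lit 41) (.e (nat_lit 499727) (nat_lit 0) .nil)))))))) (.g (nat_lit 1) (.e (nat_lit 53681) (nat_lit 0) .nil) .nil)))) (.nd (nat_lit 9) 
(.lf (nat_lit 460101) (.g (nat_lit 3823) (.e (nat_lit 2810) (nat_lit 180) (.e (nat_lit 303117) (nat_lit 2) (.e (nat_lit 196674) (nat_lit 15) (.e (nat_lit 81956) (nat_lit 23) (.e (nat_lit 98323) (nat_lit 17) (.e (nat_lit 6989) (nat_lit 377) .nil)))))) (.g (nat_lit 1) (.e (nat_lit 52734) (nat_lit 0) .nil) .nil))) 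
(.lf (nat_lit 460613) (.g (nat_lit 3597) (.e (nat_lit 2830) (nat_lit 182) (.e (nat_lit 409646) (nat_lit 18) (.e (nat_lit 303119) (nat_lit 3) (.e (nat_lit 204878) (nat_lit 31) (.e (nat_lit 376862) (nat_lit 22) (.e (nat_lit 90130) (nat_lit 9) .nil)))))) (.g (nat_lit 1) (.e (nat_lit 55081) (nat_lit 0) .nil) .nil))))) (.nd (nat_lit 8) (.nd (nat_lit 9) 
(.lf (nat_lit 459973) (.g (nat_lit 2019) (.e (nat_lit 2806) (nat_lit 180) (.e (nat_lit 303116) (nat_lit 2) (.e (nat_lit 196666) (nat_lit 13) (.e (nat_lit 65610) (nat_lit 10) (.e (nat_lit 344117) (nat_lit 21) .nil))))) (.g (nat_lit 0) (.e (nat_lit 52186) (nat_lit 0) .nil) .nil))) 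
(.lf (nat_lit 460485) (.g (nat_lit 1997) (.e (nat_lit 2788) (nat_lit 179) (.e (nat_lit 294960) (nat_lit 13) (.e (nat_lit 393225) (nat_lit 9) (.e (nat_lit 335995) (nat_lit 1) (.e (nat_lit 57872) (nat_lit 264) .nil))))) (.g (nat_lit 0) (.e (nat_lit 54054) (nat_lit 0) .nil) .nil)))) (.nd (nat_lit 9) 
(.lf (nat_lit 460229) (.g (nat_lit 920) (.e (nat_lit 7936) (nat_lit 180) (.e (nat_lit 303119) (nat_lit 3) (.e (nat_lit 204867) (nat_lit 28) (.e (nat_lit 352315) (nat_lit 23) .nil)))) (.g (nat_lit 0) (.e (nat_lit 53105) (nat_lit 0) .nil) .nil))) 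
(.lf (nat_lit 460741) (.g (nat_lit 3425) (.e (nat_lit 2828) (nat_lit 182) (.e (nat_lit 409612) (nat_lit 10) (.e (nat_lit 632) (nat_lit 50) (.e (nat_lit 573489) (nat_lit 14) (.e (nat_lit 73755) (nat_lit 8) (.e (nat_lit 557105) (nat_lit 14) (.e (nat_lit 180252) (nat_lit 10) (.e (nat_lit 581376) (nat_lit 0) .nil)))))))) (.g (nat_lit 1) (.e (nat_lit 55500) (nat_lit 0) .nil) .nil))))))) 
(.nd (nat_lit 6) (.nd (nat_lit 7) (.nd (nat_lit 8) (.nd (nat_lit 9) 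
(.lf (nat_lit 459813) (.g (nat_lit 1130) (.e (nat_lit 2798) (nat_lit 180) (.e (nat_lit 303143) (nat_lit 12) (.e (nat_lit 475185) (nat_lit 29) (.e (nat_lit 557100) (nat_lit 13) .nil)))) (.g (nat_lit 0) (.e (nat_lit 51454) (nat_lit 0) .nil) .nil))) 
(.lf (nat_lit 460325) (.g (nat_lit 2525) (.e (nat_lit 2819) (nat_lit 181) (.e (nat_lit 311339) (nat_lit 12) (.e (nat_lit 475183) (nat_lit 29) (.e (nat_lit 557108) (nat_lit 15) (.e (nat_lit 188449) (nat_lit 22) (.e (nat_lit 204544) (nat_lit 18) .nil)))))) (.g (nat_lit 1) (.e (nat_lit 53549) (nat_lit 0) .nil) .nil)))) (.nd (nat_lit 9) 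
(.lf (nat_lit 460069) (.g (nat_lit 3284) (.e (nat_lit 2810) (nat_lit 180) (.e (nat_lit 303117) (nat_lit 2) (.e (nat_lit 196666) (nat_lit 13) (.e (nat_lit 65596) (nat_lit 9) (.e (nat_lit 336013) (nat_lit 2) (.e (nat_lit 90165) (nat_lit 12) (.e (nat_lit 164208) (nat_lit 176) .nil))))))) (.g (nat_lit 1) (.e (nat_lit 52702) (nat_lit 0) .nil) .nil))) 
(.lf (nat_lit 460581) (.g (nat_lit 2425) (.e (nat_lit 2830) (nat_lit 182) (.e (nat_lit 409643) (nat_lit 18) (.e (nat_lit 303112) (nat_lit 0) (.e (nat_lit 3252) (nat_lit 197) (.e (nat_lit 532561) (nat_lit 14) (.e (nat_lit 376862) (nat_lit 22) (.e (nat_lit 90130) (nat_lit 9) .nil))))))) (.g (nat_lit 1) (.e (nat_lit 55025) (nat_lit 0) .nil) .nil))))) (.nd (nat_lit 8) (.nd (nat_lit 9) 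
(.lf (nat_lit 459941) (.g (nat_lit 3997) (.e (nat_lit 2804) (nat_lit 180) (.e (nat_lit 303117) (nat_lit 2) (.e (nat_lit 196666) (nat_lit 13) (.e (nat_lit 65610) (nat_lit 10) (.e (nat_lit 344117) (nat_lit 21) (.e (nat_lit 516106) (nat_lit 0) (.e (nat_lit 7016) (nat_lit 377) .nil))))))) (.g (nat_lit 1) (.e (nat_lit 52084) (nat_lit 0) .nil) .nil))) 
(.lf (nat_lit 460453) (.g (nat_lit 3370) (.e (nat_lit 2781) (nat_lit 178) (.e (nat_lit 286765) (nat_lit 15) (.e (nat_lit 3296) (nat_lit 202) (.e (nat_lit 573482) (nat_lit 13) (.e (nat_lit 65604) (nat_lit 9) (.e (nat_lit 336028) (nat_lit 3) (.e (nat_lit 98325) (nat_lit 17) (.e (nat_lit 6986) (nat_lit 377) .nil)))))))) (.g (nat_lit 1) (.e (nat_lit 53880) (nat_lit 0) .nil) .nil)))) (.nd (nat_lit 9) 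
(.lf (nat_lit 460197) (.g (nat_lit 3021) (.e (nat_lit 2811) (nat_lit 180) (.e (nat_lit 303143) (nat_lit 12) (.e (nat_lit 475185) (nat_lit 29) (.e (nat_lit 557107) (nat_lit 15) .nil)))) (.g (nat_lit 0) (.e (nat_lit 53011) (nat_lit 0) .nil) .nil))) 
(.lf (nat_lit 460709) (.g (nat_lit 4578) (.e (nat_lit 2830) (nat_lit 182) (.e (nat_lit 409649) (nat_lit 18) (.e (nat_lit 303116) (nat_lit 2) (.e (nat_lit 196672) (nat_lit 15) (.e (nat_lit 81951) (nat_lit 22) (.e (nat_lit 90130) (nat_lit 9) .nil)))))) (.g (nat_lit 1) (.e (nat_lit 55355) (nat_lit 0) .nil) .nil)))))) (.nd (nat_lit 7) (.nd (nat_lit 8) (.nd (nat_lit 9) 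
(.lf (nat_lit 459877) (.g (nat_lit 3007) (.e (nat_lit 2798) (nat_lit 180) (.e (nat_lit 303143) (nat_lit 12) (.e (nat_lit 475185) (nat_lit 29) (.e (nat_lit 557107) (nat_lit 15) (.e (nat_lit 188441) (nat_lit 20) (.e (nat_lit 3115) (nat_lit 193) (.e (nat_lit 499728) (nat_lit 0) .nil))))))) (.g (nat_lit 1) (.e (nat_lit 51551) (nat_lit 0) .nil) .nil))) 
(.lf (nat_lit 460389) (.g (nat_lit 4411) (.e (nat_lit 2777) (nat_lit 178) (.e (nat_lit 286765) (nat_lit 15) (.e (nat_lit 3308) (nat_lit 202) (.e (nat_lit 573493) (nat_lit 15) (.e (nat_lit 81954) (nat_lit 23) (.e (nat_lit 98323) (nat_lit 17) (.e (nat_lit 6989) (nat_lit 377) .nil))))))) (.g (nat_lit 1) (.e (nat_lit 53721) (nat_lit 0) .nil) .nil)))) (.nd (nat_lit 9) 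
(.lf (nat_lit 460133) (.g (nat_lit 1627) (.e (nat_lit 2810) (nat_lit 180) (.e (nat_lit 303119) (nat_lit 3) (.e (nat_lit 204866) (nat_lit 28) (.e (nat_lit 352313) (nat_lit 23) .nil)))) (.g (nat_lit 0) (.e (nat_lit 52781) (nat_lit 0) .nil) .nil))) 
(.lf (nat_lit 460645) (.g (nat_lit 4056) (.e (nat_lit 2830) (nat_lit 182) (.e (nat_lit 409648) (nat_lit 18) (.e (nat_lit 303112) (nat_lit 0) (.e (nat_lit 3252) (nat_lit 197) (.e (nat_lit 532561) (nat_lit 14) (.e (nat_lit 376865) (nat_lit 22) (.e (nat_lit 90130) (nat_lit 9) .nil))))))) (.g (nat_lit 1) (.e (nat_lit 55137) (nat_lit 0) .nil) .nil))))) (.nd (nat_lit 8) (.nd (nat_lit 9) 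
(.lf (nat_lit 460005) (.g (nat_lit 3979) (.e (nat_lit 2808) (nat_lit 180) (.e (nat_lit 303116) (nat_lit 2) (.e (nat_lit 196666) (nat_lit 13) (.e (nat_lit 65610) (nat_lit 10) (.e (nat_lit 344117) (nat_lit 21) (.e (nat_lit 516106) (nat_lit 0) (.e (nat_lit 7016) (nat_lit 377) .nil))))))) (.g (nat_lit 1) (.e (nat_lit 52309) (nat_lit 0) .nil) .nil))) 
(.lf (nat_lit 460517) (.g (nat_lit 2980) (.e (nat_lit 2822) (nat_lit 182) (.e (nat_lit 409602) (nat_lit 0) (.e (nat_lit 5293) (nat_lit 298) (.e (nat_lit 1656) (nat_lit 115) .nil)))) (.g (nat_lit 0) (.e (nat_lit 54269) (nat_lit 0) .nil) .nil)))) (.nd (nat_lit 9) 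
(.lf (nat_lit 460261) (.g (nat_lit 1826) (.e (nat_lit 2816) (nat_lit 181) (.e (nat_lit 311311) (nat_lit 2) (.e (nat_lit 196672) (nat_lit 15) (.e (nat_lit 81954) (nat_lit 23) (.e (nat_lit 98323) (nat_lit 17) .nil))))) (.g (nat_lit 0) (.e (nat_lit 53298) (nat_lit 0) .nil) .nil))) 
(.lf (nat_lit 460773) (.g (nat_lit 2348) (.e (nat_lit 2842) (nat_lit 184) (.e (nat_lit 426140) (nat_lit 3) (.e (nat_lit 204869) (nat_lit 29) (.e (nat_lit 360475) (nat_lit 8) (.e (nat_lit 557089) (nat_lit 12) .nil))))) (.g (nat_lit 0) (.e (nat_lit 56156) (nat_lit 0) .nil) .nil)))))))) (.nd (nat_lit 5) (.nd (nat_lit 6) (.nd (nat_lit 7) (.nd (nat_lit 8) (.nd (nat_lit 9) 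
(.lf (nat_lit 459797) (.g (nat_lit 3799) (.e (nat_lit 2798) (nat_lit 180) (.e (nat_lit 303143) (nat_lit 12) (.e (nat_lit 475183) (nat_lit 29) (.e (nat_lit 557108) (nat_lit 15) (.e (nat_lit 188449) (nat_lit 22) (.e (nat_lit 204544) (nat_lit 18) .nil)))))) (.g (nat_lit 1) (.e (nat_lit 51376) (nat_lit 0) .nil) .nil))) 
(.lf (nat_lit 460309) (.g (nat_lit 4646) (.e (nat_lit 2819) (nat_lit 181) (.e (nat_lit 311312) (nat_lit 2) (.e (nat_lit 196666) (nat_lit 13) (.e (nat_lit 65610) (nat_lit 10) (.e (nat_lit 344117) (nat_lit 21) (.e (nat_lit 516106) (nat_lit 0) (.e (nat_lit 6966) (nat_lit 377) .nil))))))) (.g (nat_lit 1) (.e (nat_lit 53520) (nat_lit 0) .nil) .nil)))) (.nd (nat_lit 9) 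
(.lf (nat_lit 460053) (.g (nat_lit 1892) (.e (nat_lit 2809) (nat_lit 180) (.e (nat_lit 303117) (nat_lit 2) (.e (nat_lit 196672) (nat_lit 15) (.e (nat_lit 81954) (nat_lit 23) .nil)))) (.g (nat_lit 0) (.e (nat_lit 52540) (nat_lit 0) .nil) .nil))) 
(.lf (nat_lit 460565) (.g (nat_lit 2685) (.e (nat_lit 2829) (nat_lit 182) (.e (nat_lit 409648) (nat_lit 18) (.e (nat_lit 303116) (nat_lit 2) (.e (nat_lit 196674) (nat_lit 15) (.e (nat_lit 81962) (nat_lit 25) .nil))))) (.g (nat_lit 0) (.e (nat_lit 54903) (nat_lit 0) .nil) .nil))))) (.nd (nat_lit 8) (.nd (nat_lit 9) 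
(.lf (nat_lit 459925) (.g (nat_lit 3228) (.e (nat_lit 2802) (nat_lit 180) (.e (nat_lit 303117) (nat_lit 2) (.e (nat_lit 196672) (nat_lit 15) (.e (nat_lit 81954) (nat_lit 23) (.e (nat_lit 98321) (nat_lit 17) .nil))))) (.g (nat_lit 0) (.e (nat_lit 51938) (nat_lit 0) .nil) .nil))) 
(.lf (nat_lit 460437) (.g (nat_lit 2147) (.e (nat_lit 2779) (nat_lit 178) (.e (nat_lit 286768) (nat_lit 27) (.e (nat_lit 426338) (nat_lit 14) (.e (nat_lit 491549) (nat_lit 9) (.e (nat_lit 336421) (nat_lit 28) (.e (nat_lit 434187) (nat_lit 13) .nil)))))) (.g (nat_lit 1) (.e (nat_lit 53817) (nat_lit 0) .nil) .nil)))) (.nd (nat_lit 9) 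
(.lf (nat_lit 460181) (.g (nat_lit 2668) (.e (nat_lit 2810) (nat_lit 180) (.e (nat_lit 303143) (nat_lit 12) (.e (nat_lit 475212) (nat_lit 42) (.e (nat_lit 720956) (nat_lit 25) (.e (nat_lit 114698) (nat_lit 11) (.e (nat_lit 426024) (nat_lit 0) (.e (nat_lit 6989) (nat_lit 377) .nil))))))) (.g (nat_lit 1) (.e (nat_lit 52868) (nat_lit 0) .nil) .nil))) 
(.lf (nat_lit 460693) (.g (nat_lit 3753) (.e (nat_lit 2830) (nat_lit 182) (.e (nat_lit 409649) (nat_lit 18) (.e (nat_lit 303112) (nat_lit 0) (.e (nat_lit 3252) (nat_lit 197) (.e (nat_lit 532558) (nat_lit 14) (.e (nat_lit 376863) (nat_lit 22) (.e (nat_lit 90130) (nat_lit 9) .nil))))))) (.g (nat_lit 1) (.e (nat_lit 55332) (nat_lit 0) .nil) .nil)))))) 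
(.nd (nat_lit 7) (.nd (nat_lit 8) (.nd (nat_lit 9) 
(.lf (nat_lit 459861) (.g (nat_lit 2992) (.e (nat_lit 2798) (nat_lit 180) (.e (nat_lit 303143) (nat_lit 12) (.e (nat_lit 475185) (nat_lit 29) (.e (nat_lit 557101) (nat_lit 13) (.e (nat_lit 172097) (nat_lit 9) (.e (nat_lit 426119) (nat_lit 2) (.e (nat_lit 204544) (nat_lit 18) .nil))))))) (.g (nat_lit 1) (.e (nat_lit 51516) (nat_lit 0) .nil) .nil))) 
(.lf (nat_lit 460373) (.g (nat_lit 4287) (.e (nat_lit 2777) (nat_lit 178) (.e (nat_lit 286765) (nat_lit 15) (.e (nat_lit 3304) (nat_lit 202) (.e (nat_lit 573482) (nat_lit 13) (.e (nat_lit 65619) (nat_lit 10) (.e (nat_lit 344117) (nat_lit 21) (.e (nat_lit 516106) (nat_lit 0) (.e (nat_lit 6986) (nat_lit 377) .nil)))))))) (.g (nat_lit 1) (.e (nat_lit 53701) (nat_lit 0) .nil) .nil)))) 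
(.nd (nat_lit 9) 
(.lf (nat_lit 460117) (.g (nat_lit 2713) (.e (nat_lit 2810) (nat_lit 180) (.e (nat_lit 303119) (nat_lit 3) (.e (nat_lit 204855) (nat_lit 26) (.e (nat_lit 336104) (nat_lit 9) (.e (nat_lit 336013) (nat_lit 2) (.e (nat_lit 90165) (nat_lit 12) (.e (nat_lit 164208) (nat_lit 176) .nil))))))) (.g (nat_lit 1) (.e (nat_lit 52762) (nat_lit 0) .nil) .nil))) 
(.lf (nat_lit 460629) (.g (nat_lit 2796) (.e (nat_lit 2830) (nat_lit 182) (.e (nat_lit 409648) (nat_lit 18) (.e (nat_lit 303104) (nat_lit 0) (.e (nat_lit 3238) (nat_lit 197) (.e (nat_lit 532560) (nat_lit 14) (.e (nat_lit 376864) (nat_lit 22) (.e (nat_lit 90130) (nat_lit 9) .nil))))))) (.g (nat_lit 1) (.e (nat_lit 55119) (nat_lit 0) .nil) .nil))))) (.nd (nat_lit 8) (.nd (nat_lit 9) 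
(.lf (nat_lit 459989) (.g (nat_lit 2867) (.e (nat_lit 2807) (nat_lit 180) (.e (nat_lit 303137) (nat_lit 10) (.e (nat_lit 434241) (nat_lit 27) (.e (nat_lit 565269) (nat_lit 6) (.e (nat_lit 81965) (nat_lit 26) (.e (nat_lit 147511) (nat_lit 14) .nil)))))) (.g (nat_lit 1) (.e (nat_lit 52275) (nat_lit 0) .nil) .nil))) 
(.lf (nat_lit 460501) (.g (nat_lit 2020) (.e (nat_lit 2789) (nat_lit 179) (.e (nat_lit 294973) (nat_lit 28) (.e (nat_lit 434180) (nat_lit 0) (.e (nat_lit 1427) (nat_lit 108) (.e (nat_lit 336421) (nat_lit 28) (.e (nat_lit 434188) (nat_lit 13) .nil)))))) (.g (nat_lit 1) (.e (nat_lit 54175) (nat_lit 0) .nil) .nil)))) (.nd (nat_lit 9) 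
(.lf (nat_lit 460245) (.g (nat_lit 3999) (.e (nat_lit 2814) (nat_lit 181) (.e (nat_lit 311312) (nat_lit 2) (.e (nat_lit 196666) (nat_lit 13) (.e (nat_lit 65610) (nat_lit 10) (.e (nat_lit 344117) (nat_lit 21) (.e (nat_lit 516106) (nat_lit 0) (.e (nat_lit 7016) (nat_lit 377) .nil))))))) (.g (nat_lit 1) (.e (nat_lit 53240) (nat_lit 0) .nil) .nil))) 
(.lf (nat_lit 460757) (.g (nat_lit 3954) (.e (nat_lit 2828) (nat_lit 182) (.e (nat_lit 409649) (nat_lit 18) (.e (nat_lit 303116) (nat_lit 2) (.e (nat_lit 196672) (nat_lit 15) (.e (nat_lit 81951) (nat_lit 22) (.e (nat_lit 90134) (nat_lit 9) .nil)))))) (.g (nat_lit 1) (.e (nat_lit 56055) (nat_lit 0) .nil) .nil))))))) (.nd (nat_lit 6) (.nd (nat_lit 7) (.nd (nat_lit 8) (.nd (nat_lit 9) 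
(.lf (nat_lit 459829) (.g (nat_lit 4240) (.e (nat_lit 2798) (nat_lit 180) (.e (nat_lit 303143) (nat_lit 12) (.e (nat_lit 475185) (nat_lit 29) (.e (nat_lit 557100) (nat_lit 13) (.e (nat_lit 179968) (nat_lit 9) (.e (nat_lit 426125) (nat_lit 2) (.e (nat_lit 204544) (nat_lit 18) .nil))))))) (.g (nat_lit 1) (.e (nat_lit 51472) (nat_lit 0) .nil) .nil))) 
(.lf (nat_lit 460341) (.g (nat_lit 3999) (.e (nat_lit 2777) (nat_lit 178) (.e (nat_lit 286735) (nat_lit 3) (.e (nat_lit 98350) (nat_lit 24) (.e (nat_lit 409648) (nat_lit 18) (.e (nat_lit 303117) (nat_lit 2) (.e (nat_lit 196661) (nat_lit 12) (.e (nat_lit 57712) (nat_lit 176) .nil))))))) (.g (nat_lit 1) (.e (nat_lit 53665) (nat_lit 0) .nil) .nil)))) (.nd (nat_lit 9) 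
(.lf (nat_lit 460085) (.g (nat_lit 3545) (.e (nat_lit 2810) (nat_lit 180) (.e (nat_lit 303117) (nat_lit 2) (.e (nat_lit 196673) (nat_lit 15) (.e (nat_lit 81954) (nat_lit 23) (.e (nat_lit 98323) (nat_lit 17) (.e (nat_lit 6989) (nat_lit 377) .nil)))))) (.g (nat_lit 1) (.e (nat_lit 52718) (nat_lit 0) .nil) .nil))) 
(.lf (nat_lit 460597) (.g (nat_lit 3224) (.e (nat_lit 2830) (nat_lit 182) (.e (nat_lit 409645) (nat_lit 18) (.e (nat_lit 303119) (nat_lit 3) (.e (nat_lit 204878) (nat_lit 31) (.e (nat_lit 376865) (nat_lit 22) (.e (nat_lit 90130) (nat_lit 9) .nil)))))) (.g (nat_lit 1) (.e (nat_lit 55053) (nat_lit 0) .nil) .nil))))) (.nd (nat_lit 8) (.nd (nat_lit 9) 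
(.lf (nat_lit 459957) (.g (nat_lit 917) (.e (nat_lit 2804) (nat_lit 180) (.e (nat_lit 303119) (nat_lit 3) (.e (nat_lit 204877) (nat_lit 31) .nil))) (.g (nat_lit 0) (.e (nat_lit 52114) (nat_lit 0) .nil) .nil))) 
(.lf (nat_lit 460469) (.g (nat_lit 3578) (.e (nat_lit 2787) (nat_lit 179) (.e (nat_lit 294966) (nat_lit 15) (.e (nat_lit 3307) (nat_lit 202) (.e (nat_lit 573485) (nat_lit 13) (.e (nat_lit 65604) (nat_lit 9) (.e (nat_lit 336013) (nat_lit 2) (.e (nat_lit 90165) (nat_lit 12) (.e (nat_lit 164210) (nat_lit 176) .nil)))))))) (.g (nat_lit 1) (.e (nat_lit 53970) (nat_lit 0) .nil) .nil)))) 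
(.nd (nat_lit 9) 
(.lf (nat_lit 460213) (.g (nat_lit 3601) (.e (nat_lit 7936) (nat_lit 180) (.e (nat_lit 303117) (nat_lit 2) (.e (nat_lit 196666) (nat_lit 13) (.e (nat_lit 65617) (nat_lit 10) (.e (nat_lit 344130) (nat_lit 26) .nil))))) (.g (nat_lit 0) (.e (nat_lit 53080) (nat_lit 0) .nil) .nil))) 
(.lf (nat_lit 460725) (.g (nat_lit 4757) (.e (nat_lit 2830) (nat_lit 182) (.e (nat_lit 409649) (nat_lit 18) (.e (nat_lit 303117) (nat_lit 2) (.e (nat_lit 196674) (nat_lit 15) (.e (nat_lit 81953) (nat_lit 22) (.e (nat_lit 90130) (nat_lit 9) .nil)))))) (.g (nat_lit 1) (.e (nat_lit 55373) (nat_lit 0) .nil) .nil)))))) (.nd (nat_lit 7) (.nd (nat_lit 8) (.nd (nat_lit 9) 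
(.lf (nat_lit 459893) (.g (nat_lit 3366) (.e (nat_lit 2798) (nat_lit 180) (.e (nat_lit 303143) (nat_lit 12) (.e (nat_lit 475211) (nat_lit 41) (.e (nat_lit 712753) (nat_lit 30) (.e (nat_lit 450595) (nat_lit 17) (.e (nat_lit 671488) (nat_lit 14) .nil)))))) (.g (nat_lit 1) (.e (nat_lit 51615) (nat_lit 0) .nil) .nil))) 
(.lf (nat_lit 460405) (.g (nat_lit 2357) (.e (nat_lit 2777) (nat_lit 178) (.e (nat_lit 286770) (nat_lit 28) (.e (nat_lit 434181) (nat_lit 0) (.e (nat_lit 1428) (nat_lit 108) (.e (nat_lit 336421) (nat_lit 28) (.e (nat_lit 434187) (nat_lit 13) .nil)))))) (.g (nat_lit 1) (.e (nat_lit 53745) (nat_lit 0) .nil) .nil)))) (.nd (nat_lit 9) 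
(.lf (nat_lit 460149) (.g (nat_lit 2237) (.e (nat_lit 2810) (nat_lit 180) (.e (nat_lit 303119) (nat_lit 3) (.e (nat_lit 204869) (nat_lit 29) (.e (nat_lit 360450) (nat_lit 0) .nil)))) (.g (nat_lit 0) (.e (nat_lit 52797) (nat_lit 0) .nil) .nil))) 
(.lf (nat_lit 460661) (.g (nat_lit 2696) (.e (nat_lit 2830) (nat_lit 182) (.e (nat_lit 409648) (nat_lit 18) (.e (nat_lit 303117) (nat_lit 2) (.e (nat_lit 196673) (nat_lit 15) (.e (nat_lit 81962) (nat_lit 25) (.e (nat_lit 139285) (nat_lit 9) .nil)))))) (.g (nat_lit 1) (.e (nat_lit 55178) (nat_lit 0) .nil) .nil))))) (.nd (nat_lit 8) (.nd (nat_lit 9) 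
(.lf (nat_lit 460021) (.g (nat_lit 867) (.e (nat_lit 2808) (nat_lit 180) (.e (nat_lit 303119) (nat_lit 3) (.e (nat_lit 204855) (nat_lit 26) .nil))) (.g (nat_lit 0) (.e (nat_lit 52337) (nat_lit 0) .nil) .nil))) 
(.lf (nat_lit 460533) (.g (nat_lit 2997) (.e (nat_lit 2824) (nat_lit 182) (.e (nat_lit 409645) (nat_lit 18) (.e (nat_lit 303117) (nat_lit 2) (.e (nat_lit 196624) (nat_lit 9) (.e (nat_lit 1615) (nat_lit 113) (.e (nat_lit 376865) (nat_lit 22) (.e (nat_lit 90134) (nat_lit 9) .nil))))))) (.g (nat_lit 1) (.e (nat_lit 54505) (nat_lit 0) .nil) .nil)))) (.nd (nat_lit 9) 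
(.lf (nat_lit 460277) (.g (nat_lit 3389) (.e (nat_lit 2816) (nat_lit 181) (.e (nat_lit 311312) (nat_lit 2) (.e (nat_lit 196672) (nat_lit 15) (.e (nat_lit 81954) (nat_lit 23) (.e (nat_lit 98323) (nat_lit 17) (.e (nat_lit 6983) (nat_lit 377) .nil)))))) (.g (nat_lit 1) (.e (nat_lit 53319) (nat_lit 0) .nil) .nil))) 
(.lf (nat_lit 460789) (.g (nat_lit 1297) (.e (nat_lit 2842) (nat_lit 184) (.e (nat_lit 426542) (nat_lit 29) (.e (nat_lit 352267) (nat_lit 0) (.e (nat_lit 3632) (nat_lit 227) .nil)))) (.g (nat_lit 0) (.e (nat_lit 56196) (nat_lit 0) .nil) .nil))))))))) (.nd (nat_lit 4) (.nd (nat_lit 5) (.nd (nat_lit 6) (.nd (nat_lit 7) (.nd (nat_lit 8) (.nd (nat_lit 9) 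
(.lf (nat_lit 459789) (.g (nat_lit 1724) (.e (nat_lit 2798) (nat_lit 180) (.e (nat_lit 303133) (nat_lit 9) (.e (nat_lit 426499) (nat_lit 27) (.e (nat_lit 336091) (nat_lit 9) (.e (nat_lit 335907) (nat_lit 0) .nil))))) (.g (nat_lit 0) (.e (nat_lit 51210) (nat_lit 0) .nil) .nil))) 
(.lf (nat_lit 460301) (.g (nat_lit 1767) (.e (nat_lit 2817) (nat_lit 181) (.e (nat_lit 319232) (nat_lit 35) (.e (nat_lit 401454) (nat_lit 12) (.e (nat_lit 475197) (nat_lit 40) (.e (nat_lit 704596) (nat_lit 5) (.e (nat_lit 180287) (nat_lit 45) .nil)))))) (.g (nat_lit 1) (.e (nat_lit 53508) (nat_lit 0) .nil) .nil)))) (.nd (nat_lit 9) 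
(.lf (nat_lit 460045) (.g (nat_lit 3306) (.e (nat_lit 2809) (nat_lit 180) (.e (nat_lit 303117) (nat_lit 2) (.e (nat_lit 196666) (nat_lit 13) (.e (nat_lit 65610) (nat_lit 10) (.e (nat_lit 344117) (nat_lit 21) (.e (nat_lit 516102) (nat_lit 0) (.e (nat_lit 6996) (nat_lit 377) .nil))))))) (.g (nat_lit 1) (.e (nat_lit 52532) (nat_lit 0) .nil) .nil))) 
(.lf (nat_lit 460557) (.g (nat_lit 2945) (.e (nat_lit 2829) (nat_lit 182) (.e (nat_lit 409646) (nat_lit 18) (.e (nat_lit 303117) (nat_lit 2) (.e (nat_lit 196674) (nat_lit 15) (.e (nat_lit 81962) (nat_lit 25) (.e (nat_lit 139289) (nat_lit 9) .nil)))))) (.g (nat_lit 1) (.e (nat_lit 54868) (nat_lit 0) .nil) .nil))))) (.nd (nat_lit 8) (.nd (nat_lit 9) 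
(.lf (nat_lit 459917) (.g (nat_lit 619) (.e (nat_lit 2800) (nat_lit 180) (.e (nat_lit 303133) (nat_lit 9) (.e (nat_lit 426412) (nat_lit 15) .nil))) (.g (nat_lit 0) (.e (nat_lit 51874) (nat_lit 0) .nil) .nil))) 
(.lf (nat_lit 460429) (.g (nat_lit 4059) (.e (nat_lit 2779) (nat_lit 178) (.e (nat_lit 286765) (nat_lit 15) (.e (nat_lit 3307) (nat_lit 202) (.e (nat_lit 573485) (nat_lit 13) (.e (nat_lit 65604) (nat_lit 9) (.e (nat_lit 336013) (nat_lit 2) (.e (nat_lit 90165) (nat_lit 12) (.e (nat_lit 164208) (nat_lit 176) .nil)))))))) (.g (nat_lit 1) (.e (nat_lit 53806) (nat_lit 0) .nil) .nil)))) 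
(.nd (nat_lit 9) 
(.lf (nat_lit 460173) (.g (nat_lit 4939) (.e (nat_lit 2810) (nat_lit 180) (.e (nat_lit 303143) (nat_lit 12) (.e (nat_lit 475185) (nat_lit 29) (.e (nat_lit 557098) (nat_lit 13) (.e (nat_lit 172096) (nat_lit 9) .nil))))) (.g (nat_lit 0) (.e (nat_lit 52844) (nat_lit 0) .nil) .nil))) 
(.lf (nat_lit 460685) (.g (nat_lit 2316) (.e (nat_lit 2830) (nat_lit 182) (.e (nat_lit 409649) (nat_lit 18) (.e (nat_lit 303104) (nat_lit 0) (.e (nat_lit 3238) (nat_lit 197) (.e (nat_lit 532561) (nat_lit 14) (.e (nat_lit 376862) (nat_lit 22) (.e (nat_lit 90130) (nat_lit 9) .nil))))))) (.g (nat_lit 1) (.e (nat_lit 55322) (nat_lit 0) .nil) .nil)))))) 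
(.nd (nat_lit 7) (.nd (nat_lit 8) (.nd (nat_lit 9) 
(.lf (nat_lit 459853) (.g (nat_lit 4358) (.e (nat_lit 2798) (nat_lit 180) (.e (nat_lit 303143) (nat_lit 12) (.e (nat_lit 475185) (nat_lit 29) (.e (nat_lit 557101) (nat_lit 13) (.e (nat_lit 172094) (nat_lit 9) (.e (nat_lit 426125) (nat_lit 2) (.e (nat_lit 204544) (nat_lit 18) .nil))))))) (.g (nat_lit 1) (.e (nat_lit 51502) (nat_lit 0) .nil) .nil))) 
(.lf (nat_lit 460365) (.g (nat_lit 2755) (.e (nat_lit 2777) (nat_lit 178) (.e (nat_lit 286765) (nat_lit 15) (.e (nat_lit 3298) (nat_lit 202) (.e (nat_lit 573481) (nat_lit 13) (.e (nat_lit 65604) (nat_lit 9) (.e (nat_lit 336028) (nat_lit 3) (.e (nat_lit 98325) (nat_lit 17) (.e (nat_lit 6966) (nat_lit 377) .nil)))))))) (.g (nat_lit 1) (.e (nat_lit 53692) (nat_lit 0) .nil) .nil)))) (.nd (nat_lit 9) 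
(.lf (nat_lit 460109) (.g (nat_lit 1446) (.e (nat_lit 2810) (nat_lit 180) (.e (nat_lit 303119) (nat_lit 3) (.e (nat_lit 204845) (nat_lit 24) (.e (nat_lit 327424) (nat_lit 6) .nil)))) (.g (nat_lit 0) (.e (nat_lit 52744) (nat_lit 0) .nil) .nil))) 
(.lf (nat_lit 460621) (.g (nat_lit 3332) (.e (nat_lit 2830) (nat_lit 182) (.e (nat_lit 409647) (nat_lit 18) (.e (nat_lit 303118) (nat_lit 3) (.e (nat_lit 204877) (nat_lit 31) (.e (nat_lit 376865) (nat_lit 22) (.e (nat_lit 90130) (nat_lit 9) .nil)))))) (.g (nat_lit 1) (.e (nat_lit 55104) (nat_lit 0) .nil) .nil))))) (.nd (nat_lit 8) (.nd (nat_lit 9) 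
(.lf (nat_lit 459981) (.g (nat_lit 593) (.e (nat_lit 2807) (nat_lit 180) (.e (nat_lit 303118) (nat_lit 3) (.e (nat_lit 204868) (nat_lit 29) .nil))) (.g (nat_lit 0) (.e (nat_lit 52203) (nat_lit 0) .nil) .nil))) 
(.lf (nat_lit 460493) (.g (nat_lit 2011) (.e (nat_lit 2788) (nat_lit 179) (.e (nat_lit 294973) (nat_lit 28) (.e (nat_lit 434181) (nat_lit 0) (.e (nat_lit 1428) (nat_lit 108) (.e (nat_lit 336421) (nat_lit 28) (.e (nat_lit 434189) (nat_lit 13) .nil)))))) (.g (nat_lit 1) (.e (nat_lit 54074) (nat_lit 0) .nil) .nil)))) (.nd (nat_lit 9) 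
(.lf (nat_lit 460237) (.g (nat_lit 1419) (.e (nat_lit 7936) (nat_lit 180) (.e (nat_lit 303143) (nat_lit 12) (.e (nat_lit 475185) (nat_lit 29) (.e (nat_lit 557101) (nat_lit 13) .nil)))) (.g (nat_lit 0) (.e (nat_lit 53130) (nat_lit 0) .nil) .nil))) 
(.lf (nat_lit 460749) (.g (nat_lit 1366) (.e (nat_lit 2828) (nat_lit 182) (.e (nat_lit 409646) (nat_lit 18) (.e (nat_lit 303117) (nat_lit 2) (.e (nat_lit 196630) (nat_lit 9) .nil)))) (.g (nat_lit 0) (.e (nat_lit 55535) (nat_lit 0) .nil) .nil))))))) (.nd (nat_lit 6) (.nd (nat_lit 7) (.nd (nat_lit 8) (.nd (nat_lit 9) 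
(.lf (nat_lit 459821) (.g (nat_lit 5095) (.e (nat_lit 2798) (nat_lit 180) (.e (nat_lit 303143) (nat_lit 12) (.e (nat_lit 475185) (nat_lit 29) (.e (nat_lit 557100) (nat_lit 13) (.e (nat_lit 172094) (nat_lit 9) (.e (nat_lit 426125) (nat_lit 2) (.e (nat_lit 204544) (nat_lit 18) .nil))))))) (.g (nat_lit 1) (.e (nat_lit 51464) (nat_lit 0) .nil) .nil))) 
(.lf (nat_lit 460333) (.g (nat_lit 2590) (.e (nat_lit 2776) (nat_lit 178) (.e (nat_lit 286765) (nat_lit 15) (.e (nat_lit 3308) (nat_lit 202) (.e (nat_lit 573482) (nat_lit 13) (.e (nat_lit 65619) (nat_lit 10) .nil))))) (.g (nat_lit 0) (.e (nat_lit 53654) (nat_lit 0) .nil) .nil)))) (.nd (nat_lit 9) 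
(.lf (nat_lit 460077) (.g (nat_lit 3769) (.e (nat_lit 2810) (nat_lit 180) (.e (nat_lit 303117) (nat_lit 2) (.e (nat_lit 196666) (nat_lit 13) (.e (nat_lit 65617) (nat_lit 10) (.e (nat_lit 344117) (nat_lit 21) (.e (nat_lit 516106) (nat_lit 0) (.e (nat_lit 6986) (nat_lit 377) .nil))))))) (.g (nat_lit 1) (.e (nat_lit 52710) (nat_lit 0) .nil) .nil))) 
(.lf (nat_lit 460589) (.g (nat_lit 4000) (.e (nat_lit 2830) (nat_lit 182) (.e (nat_lit 409645) (nat_lit 18) (.e (nat_lit 303112) (nat_lit 0) (.e (nat_lit 3252) (nat_lit 197) (.e (nat_lit 532561) (nat_lit 14) (.e (nat_lit 376862) (nat_lit 22) (.e (nat_lit 90130) (nat_lit 9) .nil))))))) (.g (nat_lit 1) (.e (nat_lit 55040) (nat_lit 0) .nil) .nil))))) (.nd (nat_lit 8) (.nd (nat_lit 9) 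
(.lf (nat_lit 459949) (.g (nat_lit 2300) (.e (nat_lit 2804) (nat_lit 180) (.e (nat_lit 303118) (nat_lit 3) (.e (nat_lit 204868) (nat_lit 29) (.e (nat_lit 360466) (nat_lit 3) (.e (nat_lit 516100) (nat_lit 0) .nil))))) (.g (nat_lit 0) (.e (nat_lit 52093) (nat_lit 0) .nil) .nil))) 
(.lf (nat_lit 460461) (.g (nat_lit 3365) (.e (nat_lit 2782) (nat_lit 178) (.e (nat_lit 286765) (nat_lit 15) (.e (nat_lit 3307) (nat_lit 202) (.e (nat_lit 573482) (nat_lit 13) (.e (nat_lit 65619) (nat_lit 10) .nil))))) (.g (nat_lit 0) (.e (nat_lit 53896) (nat_lit 0) .nil) .nil)))) (.nd (nat_lit 9) 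
(.lf (nat_lit 460205) (.g (nat_lit 3770) (.e (nat_lit 2812) (nat_lit 180) (.e (nat_lit 303119) (nat_lit 3) (.e (nat_lit 204869) (nat_lit 29) (.e (nat_lit 360475) (nat_lit 8) (.e (nat_lit 557068) (nat_lit 9) (.e (nat_lit 78) (nat_lit 0) (.e (nat_lit 6099) (nat_lit 332) .nil))))))) (.g (nat_lit 1) (.e (nat_lit 53035) (nat_lit 0) .nil) .nil))) 
(.lf (nat_lit 460717) (.g (nat_lit 4207) (.e (nat_lit 2830) (nat_lit 182) (.e (nat_lit 409649) (nat_lit 18) (.e (nat_lit 303117) (nat_lit 2) (.e (nat_lit 196671) (nat_lit 15) (.e (nat_lit 81953) (nat_lit 22) (.e (nat_lit 90130) (nat_lit 9) .nil)))))) (.g (nat_lit 1) (.e (nat_lit 55365) (nat_lit 0) .nil) .nil)))))) (.nd (nat_lit 7) (.nd (nat_lit 8) (.nd (nat_lit 9) 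
(.lf (nat_lit 459885) (.g (nat_lit 2657) (.e (nat_lit 2798) (nat_lit 180) (.e (nat_lit 303143) (nat_lit 12) (.e (nat_lit 475185) (nat_lit 29) (.e (nat_lit 557109) (nat_lit 15) (.e (nat_lit 188456) (nat_lit 25) .nil))))) (.g (nat_lit 0) (.e (nat_lit 51559) (nat_lit 0) .nil) .nil))) 
(.lf (nat_lit 460397) (.g (nat_lit 2214) (.e (nat_lit 2777) (nat_lit 178) (.e (nat_lit 286768) (nat_lit 27) (.e (nat_lit 426340) (nat_lit 14) (.e (nat_lit 491550) (nat_lit 9) (.e (nat_lit 336421) (nat_lit 28) (.e (nat_lit 434186) (nat_lit 13) .nil)))))) (.g (nat_lit 1) (.e (nat_lit 53735) (nat_lit 0) .nil) .nil)))) (.nd (nat_lit 9) 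
(.lf (nat_lit 460141) (.g (nat_lit 2385) (.e (nat_lit 2810) (nat_lit 180) (.e (nat_lit 303119) (nat_lit 3) (.e (nat_lit 204867) (nat_lit 28) (.e (nat_lit 352315) (nat_lit 23) (.e (nat_lit 98325) (nat_lit 17) (.e (nat_lit 6986) (nat_lit 377) .nil)))))) (.g (nat_lit 1) (.e (nat_lit 52789) (nat_lit 0) .nil) .nil))) 
(.lf (nat_lit 460653) (.g (nat_lit 3585) (.e (nat_lit 2830) (nat_lit 182) (.e (nat_lit 409648) (nat_lit 18) (.e (nat_lit 303117) (nat_lit 2) (.e (nat_lit 196630) (nat_lit 9) (.e (nat_lit 1563) (nat_lit 110) (.e (nat_lit 352311) (nat_lit 22) (.e (nat_lit 90130) (nat_lit 9) .nil))))))) (.g (nat_lit 1) (.e (nat_lit 55149) (nat_lit 0) .nil) .nil))))) (.nd (nat_lit 8) (.nd (nat_lit 9) 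
(.lf (nat_lit 460013) (.g (nat_lit 1967) (.e (nat_lit 2808) (nat_lit 180) (.e (nat_lit 303117) (nat_lit 2) (.e (nat_lit 196673) (nat_lit 15) (.e (nat_lit 81953) (nat_lit 22) .nil)))) (.g (nat_lit 0) (.e (nat_lit 52317) (nat_lit 0) .nil) .nil))) 
(.lf (nat_lit 460525) (.g (nat_lit 1771) (.e (nat_lit 2822) (nat_lit 182) (.e (nat_lit 409648) (nat_lit 18) (.e (nat_lit 303116) (nat_lit 2) (.e (nat_lit 196672) (nat_lit 15) .nil)))) (.g (nat_lit 0) (.e (nat_lit 54386) (nat_lit 0) .nil) .nil)))) (.nd (nat_lit 9) 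
(.lf (nat_lit 460269) (.g (nat_lit 3464) (.e (nat_lit 2816) (nat_lit 181) (.e (nat_lit 311312) (nat_lit 2) (.e (nat_lit 196666) (nat_lit 13) (.e (nat_lit 65610) (nat_lit 10) (.e (nat_lit 344117) (nat_lit 21) (.e (nat_lit 516102) (nat_lit 0) (.e (nat_lit 6980) (nat_lit 377) .nil))))))) (.g (nat_lit 1) (.e (nat_lit 53308) (nat_lit 0) .nil) .nil))) 
(.lf (nat_lit 460781) (.g (nat_lit 1969) (.e (nat_lit 2842) (nat_lit 184) (.e (nat_lit 426340) (nat_lit 14) (.e (nat_lit 491537) (nat_lit 2) (.e (nat_lit 90172) (nat_lit 14) (.e (nat_lit 180278) (nat_lit 32) .nil))))) (.g (nat_lit 0) (.e (nat_lit 56180) (nat_lit 0) .nil) .nil)))))))) (.nd (nat_lit 5) (.nd (nat_lit 6) (.nd (nat_lit 7) (.nd (nat_lit 8) (.nd (nat_lit 9) 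
(.lf (nat_lit 459805) (.g (nat_lit 4157) (.e (nat_lit 2798) (nat_lit 180) (.e (nat_lit 303143) (nat_lit 12) (.e (nat_lit 475185) (nat_lit 29) (.e (nat_lit 557098) (nat_lit 13) (.e (nat_lit 172085) (nat_lit 9) .nil))))) (.g (nat_lit 0) (.e (nat_lit 51445) (nat_lit 0) .nil) .nil))) 
(.lf (nat_lit 460317) (.g (nat_lit 1295) (.e (nat_lit 2819) (nat_lit 181) (.e (nat_lit 311315) (nat_lit 3) (.e (nat_lit 204863) (nat_lit 27) (.e (nat_lit 352000) (nat_lit 8) .nil)))) (.g (nat_lit 0) (.e (nat_lit 53530) (nat_lit 0) .nil) .nil)))) (.nd (nat_lit 9) 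
(.lf (nat_lit 460061) (.g (nat_lit 863) (.e (nat_lit 2809) (nat_lit 180) (.e (nat_lit 303117) (nat_lit 2) (.e (nat_lit 196674) (nat_lit 15) .nil))) (.g (nat_lit 0) (.e (nat_lit 52548) (nat_lit 0) .nil) .nil))) 
(.lf (nat_lit 460573) (.g (nat_lit 2240) (.e (nat_lit 2829) (nat_lit 182) (.e (nat_lit 409649) (nat_lit 18) (.e (nat_lit 303117) (nat_lit 2) (.e (nat_lit 196672) (nat_lit 15) (.e (nat_lit 81962) (nat_lit 25) (.e (nat_lit 139289) (nat_lit 9) .nil)))))) (.g (nat_lit 1) (.e (nat_lit 54949) (nat_lit 0) .nil) .nil))))) (.nd (nat_lit 8) (.nd (nat_lit 9) 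
(.lf (nat_lit 459933) (.g (nat_lit 3269) (.e (nat_lit 2802) (nat_lit 180) (.e (nat_lit 303143) (nat_lit 12) (.e (nat_lit 475185) (nat_lit 29) (.e (nat_lit 557098) (nat_lit 13) .nil)))) (.g (nat_lit 0) (.e (nat_lit 51998) (nat_lit 0) .nil) .nil))) 
(.lf (nat_lit 460445) (.g (nat_lit 1831) (.e (nat_lit 2779) (nat_lit 178) (.e (nat_lit 286770) (nat_lit 28) (.e (nat_lit 434181) (nat_lit 0) (.e (nat_lit 1428) (nat_lit 108) (.e (nat_lit 336421) (nat_lit 28) (.e (nat_lit 434187) (nat_lit 13) .nil)))))) (.g (nat_lit 1) (.e (nat_lit 53829) (nat_lit 0) .nil) .nil)))) (.nd (nat_lit 9) 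
(.lf (nat_lit 460189) (.g (nat_lit 754) (.e (nat_lit 2810) (nat_lit 180) (.e (nat_lit 303145) (nat_lit 13) (.e (nat_lit 483391) (nat_lit 23) .nil))) (.g (nat_lit 0) (.e (nat_lit 52925) (nat_lit 0) .nil) .nil))) 
(.lf (nat_lit 460701) (.g (nat_lit 2633) (.e (nat_lit 2830) (nat_lit 182) (.e (nat_lit 409649) (nat_lit 18) (.e (nat_lit 303111) (nat_lit 0) (.e (nat_lit 3238) (nat_lit 197) (.e (nat_lit 532559) (nat_lit 14) (.e (nat_lit 376865) (nat_lit 22) (.e (nat_lit 90130) (nat_lit 9) .nil))))))) (.g (nat_lit 1) (.e (nat_lit 55341) (nat_lit 0) .nil) .nil)))))) 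
(.nd (nat_lit 7) (.nd (nat_lit 8) (.nd (nat_lit 9) 
(.lf (nat_lit 459869) (.g (nat_lit 2634) (.e (nat_lit 2798) (nat_lit 180) (.e (nat_lit 303143) (nat_lit 12) (.e (nat_lit 475185) (nat_lit 29) (.e (nat_lit 557101) (nat_lit 13) (.e (nat_lit 172116) (nat_lit 10) .nil))))) (.g (nat_lit 0) (.e (nat_lit 51526) (nat_lit 0) .nil) .nil))) 
(.lf (nat_lit 460381) (.g (nat_lit 4730) (.e (nat_lit 2777) (nat_lit 178) (.e (nat_lit 286765) (nat_lit 15) (.e (nat_lit 3307) (nat_lit 202) (.e (nat_lit 573493) (nat_lit 15) (.e (nat_lit 81953) (nat_lit 22) (.e (nat_lit 90165) (nat_lit 12) (.e (nat_lit 164208) (nat_lit 176) .nil))))))) (.g (nat_lit 1) (.e (nat_lit 53713) (nat_lit 0) .nil) .nil)))) (.nd (nat_lit 9) 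
(.lf (nat_lit 460125) (.g (nat_lit 3022) (.e (nat_lit 2810) (nat_lit 180) (.e (nat_lit 303119) (nat_lit 3) (.e (nat_lit 204865) (nat_lit 28) (.e (nat_lit 352313) (nat_lit 23) (.e (nat_lit 98323) (nat_lit 17) (.e (nat_lit 6989) (nat_lit 377) .nil)))))) (.g (nat_lit 1) (.e (nat_lit 52773) (nat_lit 0) .nil) .nil))) 
(.lf (nat_lit 460637) (.g (nat_lit 2101) (.e (nat_lit 2830) (nat_lit 182) (.e (nat_lit 409648) (nat_lit 18) (.e (nat_lit 303109) (nat_lit 0) (.e (nat_lit 3252) (nat_lit 197) (.e (nat_lit 532560) (nat_lit 14) (.e (nat_lit 376865) (nat_lit 22) (.e (nat_lit 90130) (nat_lit 9) .nil))))))) (.g (nat_lit 1) (.e (nat_lit 55129) (nat_lit 0) .nil) .nil))))) (.nd (nat_lit 8) (.nd (nat_lit 9) 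
(.lf (nat_lit 459997) (.g (nat_lit 4639) (.e (nat_lit 2808) (nat_lit 180) (.e (nat_lit 303116) (nat_lit 2) (.e (nat_lit 196666) (nat_lit 13) (.e (nat_lit 65610) (nat_lit 10) (.e (nat_lit 344117) (nat_lit 21) (.e (nat_lit 516097) (nat_lit 0) (.e (nat_lit 7073) (nat_lit 377) .nil))))))) (.g (nat_lit 1) (.e (nat_lit 52301) (nat_lit 0) .nil) .nil))) 
(.lf (nat_lit 460509) (.g (nat_lit 1205) (.e (nat_lit 2789) (nat_lit 179) (.e (nat_lit 294973) (nat_lit 28) (.e (nat_lit 434181) (nat_lit 0) (.e (nat_lit 1428) (nat_lit 108) (.e (nat_lit 336425) (nat_lit 28) .nil))))) (.g (nat_lit 0) (.e (nat_lit 54183) (nat_lit 0) .nil) .nil)))) (.nd (nat_lit 9) 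
(.lf (nat_lit 460253) (.g (nat_lit 1309) (.e (nat_lit 2814) (nat_lit 181) (.e (nat_lit 311339) (nat_lit 12) (.e (nat_lit 475184) (nat_lit 29) (.e (nat_lit 557109) (nat_lit 15) (.e (nat_lit 188458) (nat_lit 25) .nil))))) (.g (nat_lit 0) (.e (nat_lit 53261) (nat_lit 0) .nil) .nil))) 
(.lf (nat_lit 460765) (.g (nat_lit 2152) (.e (nat_lit 2842) (nat_lit 184) (.e (nat_lit 426125) (nat_lit 2) (.e (nat_lit 196666) (nat_lit 13) (.e (nat_lit 65617) (nat_lit 10) (.e (nat_lit 344130) (nat_lit 26) .nil))))) (.g (nat_lit 0) (.e (nat_lit 56135) (nat_lit 0) .nil) .nil))))))) (.nd (nat_lit 6) (.nd (nat_lit 7) (.nd (nat_lit 8) (.nd (nat_lit 9) 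
(.lf (nat_lit 459837) (.g (nat_lit 3262) (.e (nat_lit 2798) (nat_lit 180) (.e (nat_lit 303143) (nat_lit 12) (.e (nat_lit 475185) (nat_lit 29) (.e (nat_lit 557100) (nat_lit 13) (.e (nat_lit 172110) (nat_lit 10) .nil))))) (.g (nat_lit 0) (.e (nat_lit 51482) (nat_lit 0) .nil) .nil))) 
(.lf (nat_lit 460349) (.g (nat_lit 3979) (.e (nat_lit 2777) (nat_lit 178) (.e (nat_lit 286735) (nat_lit 3) (.e (nat_lit 98388) (nat_lit 33) (.e (nat_lit 491560) (nat_lit 10) (.e (nat_lit 344117) (nat_lit 21) (.e (nat_lit 516102) (nat_lit 0) (.e (nat_lit 6989) (nat_lit 377) .nil))))))) (.g (nat_lit 1) (.e (nat_lit 53673) (nat_lit 0) .nil) .nil)))) (.nd (nat_lit 9) 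
(.lf (nat_lit 460093) (.g (nat_lit 1599) (.e (nat_lit 2810) (nat_lit 180) (.e (nat_lit 303117) (nat_lit 2) (.e (nat_lit 196674) (nat_lit 15) (.e (nat_lit 89856) (nat_lit 20) .nil)))) (.g (nat_lit 0) (.e (nat_lit 52726) (nat_lit 0) .nil) .nil))) 
(.lf (nat_lit 460605) (.g (nat_lit 1356) (.e (nat_lit 2830) (nat_lit 182) (.e (nat_lit 409646) (nat_lit 18) (.e (nat_lit 303116) (nat_lit 2) .nil))) (.g (nat_lit 0) (.e (nat_lit 55063) (nat_lit 0) .nil) .nil))))) (.nd (nat_lit 8) (.nd (nat_lit 9) 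
(.lf (nat_lit 459965) (.g (nat_lit 2337) (.e (nat_lit 2805) (nat_lit 180) (.e (nat_lit 303118) (nat_lit 3) (.e (nat_lit 204868) (nat_lit 29) (.e (nat_lit 360466) (nat_lit 3) (.e (nat_lit 516100) (nat_lit 0) .nil))))) (.g (nat_lit 0) (.e (nat_lit 52150) (nat_lit 0) .nil) .nil))) 
(.lf (nat_lit 460477) (.g (nat_lit 1876) (.e (nat_lit 2787) (nat_lit 179) (.e (nat_lit 294973) (nat_lit 28) (.e (nat_lit 434181) (nat_lit 0) (.e (nat_lit 1427) (nat_lit 108) (.e (nat_lit 336421) (nat_lit 28) (.e (nat_lit 434189) (nat_lit 13) .nil)))))) (.g (nat_lit 1) (.e (nat_lit 53985) (nat_lit 0) .nil) .nil)))) (.nd (nat_lit 9) 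
(.lf (nat_lit 460221) (.g (nat_lit 1722) (.e (nat_lit 7936) (nat_lit 180) (.e (nat_lit 303117) (nat_lit 2) (.e (nat_lit 196673) (nat_lit 15) (.e (nat_lit 81953) (nat_lit 22) (.e (nat_lit 90165) (nat_lit 12) .nil))))) (.g (nat_lit 0) (.e (nat_lit 53088) (nat_lit 0) .nil) .nil))) 
(.lf (nat_lit 460733) (.g (nat_lit 2804) (.e (nat_lit 2830) (nat_lit 182) (.e (nat_lit 409649) (nat_lit 18) (.e (nat_lit 303119) (nat_lit 3) (.e (nat_lit 204877) (nat_lit 31) (.e (nat_lit 376864) (nat_lit 22) (.e (nat_lit 90130) (nat_lit 9) .nil)))))) (.g (nat_lit 1) (.e (nat_lit 55412) (nat_lit 0) .nil) .nil)))))) (.nd (nat_lit 7) (.nd (nat_lit 8) (.nd (nat_lit 9) 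
(.lf (nat_lit 459901) (.g (nat_lit 1959) (.e (nat_lit 2798) (nat_lit 180) (.e (nat_lit 303145) (nat_lit 13) (.e (nat_lit 483346) (nat_lit 17) (.e (nat_lit 6203) (nat_lit 332) (.e (nat_lit 2543) (nat_lit 158) .nil))))) (.g (nat_lit 0) (.e (nat_lit 51648) (nat_lit 0) .nil) .nil))) 
(.lf (nat_lit 460413) (.g (nat_lit 2436) (.e (nat_lit 2779) (nat_lit 178) (.e (nat_lit 286735) (nat_lit 3) (.e (nat_lit 98349) (nat_lit 24) (.e (nat_lit 409644) (nat_lit 18) (.e (nat_lit 303119) (nat_lit 3) .nil))))) (.g (nat_lit 0) (.e (nat_lit 53786) (nat_lit 0) .nil) .nil)))) (.nd (nat_lit 9) 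
(.lf (nat_lit 460157) (.g (nat_lit 2214) (.e (nat_lit 2810) (nat_lit 180) (.e (nat_lit 303119) (nat_lit 3) (.e (nat_lit 204877) (nat_lit 31) (.e (nat_lit 376855) (nat_lit 20) (.e (nat_lit 1800) (nat_lit 119) (.e (nat_lit 516102) (nat_lit 0) (.e (nat_lit 6989) (nat_lit 377) .nil))))))) (.g (nat_lit 1) (.e (nat_lit 52813) (nat_lit 0) .nil) .nil))) 
(.lf (nat_lit 460669) (.g (nat_lit 3585) (.e (nat_lit 2830) (nat_lit 182) (.e (nat_lit 409648) (nat_lit 18) (.e (nat_lit 303118) (nat_lit 3) (.e (nat_lit 204877) (nat_lit 31) (.e (nat_lit 376864) (nat_lit 22) (.e (nat_lit 90130) (nat_lit 9) .nil)))))) (.g (nat_lit 1) (.e (nat_lit 55195) (nat_lit 0) .nil) .nil))))) (.nd (nat_lit 8) (.nd (nat_lit 9) 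
(.lf (nat_lit 460029) (.g (nat_lit 1757) (.e (nat_lit 2808) (nat_lit 180) (.e (nat_lit 303142) (nat_lit 12) (.e (nat_lit 475210) (nat_lit 41) (.e (nat_lit 712755) (nat_lit 30) (.e (nat_lit 450597) (nat_lit 17) (.e (nat_lit 663589) (nat_lit 14) .nil)))))) (.g (nat_lit 1) (.e (nat_lit 52478) (nat_lit 0) .nil) .nil))) 
(.lf (nat_lit 460541) (.g (nat_lit 1190) (.e (nat_lit 2827) (nat_lit 182) (.e (nat_lit 409646) (nat_lit 18) (.e (nat_lit 303117) (nat_lit 2) .nil))) (.g (nat_lit 0) (.e (nat_lit 54800) (nat_lit 0) .nil) .nil)))) (.nd (nat_lit 9) 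
(.lf (nat_lit 460285) (.g (nat_lit 3004) (.e (nat_lit 2817) (nat_lit 181) (.e (nat_lit 311311) (nat_lit 2) (.e (nat_lit 196666) (nat_lit 13) (.e (nat_lit 65610) (nat_lit 10) (.e (nat_lit 344117) (nat_lit 21) (.e (nat_lit 516106) (nat_lit 0) (.e (nat_lit 7016) (nat_lit 377) .nil))))))) (.g (nat_lit 1) (.e (nat_lit 53460) (nat_lit 0) .nil) .nil))) 
(.lf (nat_lit 460797) (.g (nat_lit 1603) (.e (nat_lit 2842) (nat_lit 184) (.e (nat_lit 426555) (nat_lit 32) (.e (nat_lit 376860) (nat_lit 21) (.e (nat_lit 57870) (nat_lit 264) .nil)))) (.g (nat_lit 0) (.e (nat_lit 56208) (nat_lit 0) .nil) .nil))))))))))) (.nd (nat_lit 2) (.nd (nat_lit 3) (.nd (nat_lit 4) (.nd (nat_lit 5) (.nd (nat_lit 6) (.nd (nat_lit 7) (.nd (nat_lit 8) (.nd (nat_lit 9) 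
(.lf (nat_lit 459779) (.g (nat_lit 1222) (.e (nat_lit 2798) (nat_lit 180) (.e (nat_lit 303133) (nat_lit 9) (.e (nat_lit 426412) (nat_lit 15) (.e (nat_lit 2160) (nat_lit 143) .nil)))) (.g (nat_lit 0) (.e (nat_lit 51178) (nat_lit 0) .nil) .nil))) 
(.lf (nat_lit 460291) (.g (nat_lit 4035) (.e (nat_lit 2817) (nat_lit 181) (.e (nat_lit 311312) (nat_lit 2) (.e (nat_lit 196666) (nat_lit 13) (.e (nat_lit 65610) (nat_lit 10) (.e (nat_lit 344117) (nat_lit 21) (.e (nat_lit 516106) (nat_lit 0) (.e (nat_lit 7936) (nat_lit 377) .nil))))))) (.g (nat_lit 1) (.e (nat_lit 53468) (nat_lit 0) .nil) .nil)))) (.nd (nat_lit 9) 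
(.lf (nat_lit 460035) (.g (nat_lit 3086) (.e (nat_lit 2808) (nat_lit 180) (.e (nat_lit 303146) (nat_lit 14) (.e (nat_lit 491569) (nat_lit 13) (.e (nat_lit 393282) (nat_lit 24) (.e (nat_lit 434275) (nat_lit 39) (.e (nat_lit 663589) (nat_lit 14) .nil)))))) (.g (nat_lit 1) (.e (nat_lit 52512) (nat_lit 0) .nil) .nil))) 
(.lf (nat_lit 460547) (.g (nat_lit 2844) (.e (nat_lit 2829) (nat_lit 182) (.e (nat_lit 409602) (nat_lit 0) (.e (nat_lit 5293) (nat_lit 298) (.e (nat_lit 1397) (nat_lit 106) .nil)))) (.g (nat_lit 0) (.e (nat_lit 54818) (nat_lit 0) .nil) .nil))))) (.nd (nat_lit 8) (.nd (nat_lit 9) 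
(.lf (nat_lit 459907) (.g (nat_lit 417) (.e (nat_lit 2798) (nat_lit 180) (.e (nat_lit 303145) (nat_lit 13) (.e (nat_lit 483405) (nat_lit 26) .nil))) (.g (nat_lit 0) (.e (nat_lit 51768) (nat_lit 0) .nil) .nil))) 
(.lf (nat_lit 460419) (.g (nat_lit 990) (.e (nat_lit 2779) (nat_lit 178) (.e (nat_lit 286765) (nat_lit 15) (.e (nat_lit 3295) (nat_lit 202) .nil))) (.g (nat_lit 0) (.e (nat_lit 53792) (nat_lit 0) .nil) .nil)))) (.nd (nat_lit 9) 
(.lf (nat_lit 460163) (.g (nat_lit 1766) (.e (nat_lit 2810) (nat_lit 180) (.e (nat_lit 303119) (nat_lit 3) (.e (nat_lit 204878) (nat_lit 31) (.e (nat_lit 376865) (nat_lit 22) (.e (nat_lit 90165) (nat_lit 12) .nil))))) (.g (nat_lit 0) (.e (nat_lit 52819) (nat_lit 0) .nil) .nil))) 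
(.lf (nat_lit 460675) (.g (nat_lit 4214) (.e (nat_lit 2830) (nat_lit 182) (.e (nat_lit 409648) (nat_lit 18) (.e (nat_lit 303119) (nat_lit 3) (.e (nat_lit 204877) (nat_lit 31) (.e (nat_lit 376865) (nat_lit 22) (.e (nat_lit 90130) (nat_lit 9) .nil)))))) (.g (nat_lit 1) (.e (nat_lit 55237) (nat_lit 0) .nil) .nil)))))) (.nd (nat_lit 7) (.nd (nat_lit 8) (.nd (nat_lit 9) 
(.lf (nat_lit 459843) (.g (nat_lit 2555) (.e (nat_lit 2798) (nat_lit 180) (.e (nat_lit 303143) (nat_lit 12) (.e (nat_lit 475185) (nat_lit 29) (.e (nat_lit 557100) (nat_lit 13) (.e (nat_lit 172113) (nat_lit 10) (.e (nat_lit 434218) (nat_lit 19) (.e (nat_lit 507648) (nat_lit 0) .nil))))))) (.g (nat_lit 1) (.e (nat_lit 51492) (nat_lit 0) .nil) .nil))) 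
(.lf (nat_lit 460355) (.g (nat_lit 3601) (.e (nat_lit 2777) (nat_lit 178) (.e (nat_lit 286759) (nat_lit 12) (.e (nat_lit 385074) (nat_lit 31) (.e (nat_lit 573484) (nat_lit 13) (.e (nat_lit 65583) (nat_lit 7) .nil))))) (.g (nat_lit 0) (.e (nat_lit 53679) (nat_lit 0) .nil) .nil)))) (.nd (nat_lit 9) 
(.lf (nat_lit 460099) (.g (nat_lit 1907) (.e (nat_lit 2810) (nat_lit 180) (.e (nat_lit 303117) (nat_lit 2) (.e (nat_lit 196674) (nat_lit 15) (.e (nat_lit 81955) (nat_lit 23) (.e (nat_lit 98325) (nat_lit 17) (.e (nat_lit 6986) (nat_lit 377) .nil)))))) (.g (nat_lit 1) (.e (nat_lit 52732) (nat_lit 0) .nil) .nil))) 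
(.lf (nat_lit 460611) (.g (nat_lit 3008) (.e (nat_lit 2830) (nat_lit 182) (.e (nat_lit 409646) (nat_lit 18) (.e (nat_lit 303117) (nat_lit 2) (.e (nat_lit 196674) (nat_lit 15) (.e (nat_lit 81960) (nat_lit 25) .nil))))) (.g (nat_lit 0) (.e (nat_lit 55070) (nat_lit 0) .nil) .nil))))) (.nd (nat_lit 8) (.nd (nat_lit 9) 
(.lf (nat_lit 459971) (.g (nat_lit 2886) (.e (nat_lit 2805) (nat_lit 180) (.e (nat_lit 303119) (nat_lit 3) (.e (nat_lit 204868) (nat_lit 29) (.e (nat_lit 360466) (nat_lit 3) (.e (nat_lit 516105) (nat_lit 0) .nil))))) (.g (nat_lit 0) (.e (nat_lit 52156) (nat_lit 0) .nil) .nil))) 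
(.lf (nat_lit 460483) (.g (nat_lit 2683) (.e (nat_lit 2788) (nat_lit 179) (.e (nat_lit 294959) (nat_lit 13) (.e (nat_lit 393229) (nat_lit 9) (.e (nat_lit 336033) (nat_lit 4) (.e (nat_lit 123194) (nat_lit 266) (.e (nat_lit 57374) (nat_lit 2) (.e (nat_lit 90189) (nat_lit 18) .nil))))))) (.g (nat_lit 1) (.e (nat_lit 54050) (nat_lit 0) .nil) .nil)))) (.nd (nat_lit 9) 
(.lf (nat_lit 460227) (.g (nat_lit 413) (.e (nat_lit 7936) (nat_lit 180) (.e (nat_lit 303118) (nat_lit 3) (.e (nat_lit 204877) (nat_lit 31) .nil))) (.g (nat_lit 0) (.e (nat_lit 53097) (nat_lit 0) .nil) .nil))) 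
(.lf (nat_lit 460739) (.g (nat_lit 2422) (.e (nat_lit 2830) (nat_lit 182) (.e (nat_lit 417536) (nat_lit 18) (.e (nat_lit 303117) (nat_lit 2) (.e (nat_lit 196674) (nat_lit 15) (.e (nat_lit 81952) (nat_lit 22) (.e (nat_lit 90130) (nat_lit 9) .nil)))))) (.g (nat_lit 1) (.e (nat_lit 55494) (nat_lit 0) .nil) .nil))))))) (.nd (nat_lit 6) (.nd (nat_lit 7) (.nd (nat_lit 8) (.nd (nat_lit 9) 
(.lf (nat_lit 459811) (.g (nat_lit 4444) (.e (nat_lit 2798) (nat_lit 180) (.e (nat_lit 303143) (nat_lit 12) (.e (nat_lit 475185) (nat_lit 29) (.e (nat_lit 557098) (nat_lit 13) (.e (nat_lit 172100) (nat_lit 9) .nil))))) (.g (nat_lit 0) (.e (nat_lit 51451) (nat_lit 0) .nil) .nil))) 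
(.lf (nat_lit 460323) (.g (nat_lit 1906) (.e (nat_lit 2819) (nat_lit 181) (.e (nat_lit 311315) (nat_lit 3) (.e (nat_lit 204877) (nat_lit 31) (.e (nat_lit 376865) (nat_lit 22) (.e (nat_lit 90165) (nat_lit 12) (.e (nat_lit 164208) (nat_lit 176) .nil)))))) (.g (nat_lit 1) (.e (nat_lit 53539) (nat_lit 0) .nil) .nil)))) (.nd (nat_lit 9) 
(.lf (nat_lit 460067) (.g (nat_lit 3415) (.e (nat_lit 2810) (nat_lit 180) (.e (nat_lit 303117) (nat_lit 2) (.e (nat_lit 196665) (nat_lit 13) (.e (nat_lit 65628) (nat_lit 14) (.e (nat_lit 401428) (nat_lit 3) (.e (nat_lit 204819) (nat_lit 17) (.e (nat_lit 6113) (nat_lit 332) .nil))))))) (.g (nat_lit 1) (.e (nat_lit 52700) (nat_lit 0) .nil) .nil))) 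
(.lf (nat_lit 460579) (.g (nat_lit 2425) (.e (nat_lit 2830) (nat_lit 182) (.e (nat_lit 409643) (nat_lit 18) (.e (nat_lit 303112) (nat_lit 0) (.e (nat_lit 3252) (nat_lit 197) (.e (nat_lit 532558) (nat_lit 14) (.e (nat_lit 376863) (nat_lit 22) (.e (nat_lit 90130) (nat_lit 9) .nil))))))) (.g (nat_lit 1) (.e (nat_lit 55023) (nat_lit 0) .nil) .nil))))) (.nd (nat_lit 8) (.nd (nat_lit 9) 
(.lf (nat_lit 459939) (.g (nat_lit 3684) (.e (nat_lit 2803) (nat_lit 180) (.e (nat_lit 303117) (nat_lit 2) (.e (nat_lit 196666) (nat_lit 13) (.e (nat_lit 65619) (nat_lit 10) .nil)))) (.g (nat_lit 0) (.e (nat_lit 52075) (nat_lit 0) .nil) .nil))) 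
(.lf (nat_lit 460451) (.g (nat_lit 2525) (.e (nat_lit 2781) (nat_lit 178) (.e (nat_lit 286765) (nat_lit 15) (.e (nat_lit 3295) (nat_lit 202) (.e (nat_lit 573485) (nat_lit 13) (.e (nat_lit 65604) (nat_lit 9) (.e (nat_lit 336028) (nat_lit 3) (.e (nat_lit 98325) (nat_lit 17) (.e (nat_lit 6986) (nat_lit 377) .nil)))))))) (.g (nat_lit 1) (.e (nat_lit 53878) (nat_lit 0) .nil) .nil)))) (.nd (nat_lit 9) 
(.lf (nat_lit 460195) (.g (nat_lit 2035) (.e (nat_lit 2811) (nat_lit 180) (.e (nat_lit 303117) (nat_lit 2) (.e (nat_lit 196672) (nat_lit 15) (.e (nat_lit 81951) (nat_lit 22) .nil)))) (.g (nat_lit 0) (.e (nat_lit 53006) (nat_lit 0) .nil) .nil))) 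
(.lf (nat_lit 460707) (.g (nat_lit 3466) (.e (nat_lit 2830) (nat_lit 182) (.e (nat_lit 409649) (nat_lit 18) (.e (nat_lit 303111) (nat_lit 0) (.e (nat_lit 3255) (nat_lit 197) (.e (nat_lit 532560) (nat_lit 14) (.e (nat_lit 376863) (nat_lit 22) (.e (nat_lit 90130) (nat_lit 9) .nil))))))) (.g (nat_lit 1) (.e (nat_lit 55349) (nat_lit 0) .nil) .nil)))))) 
(.nd (nat_lit 7) (.nd (nat_lit 8) (.nd (nat_lit 9) 
(.lf (nat_lit 459875) (.g (nat_lit 2286) (.e (nat_lit 2798) (nat_lit 180) (.e (nat_lit 303143) (nat_lit 12) (.e (nat_lit 475185) (nat_lit 29) (.e (nat_lit 557107) (nat_lit 15) (.e (nat_lit 188440) (nat_lit 20) (.e (nat_lit 3115) (nat_lit 193) (.e (nat_lit 499728) (nat_lit 0) .nil))))))) (.g (nat_lit 1) (.e (nat_lit 51549) (nat_lit 0) .nil) .nil))) 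
(.lf (nat_lit 460387) (.g (nat_lit 2688) (.e (nat_lit 2777) (nat_lit 178) (.e (nat_lit 286765) (nat_lit 15) (.e (nat_lit 3308) (nat_lit 202) (.e (nat_lit 573493) (nat_lit 15) (.e (nat_lit 81953) (nat_lit 22) (.e (nat_lit 90165) (nat_lit 12) (.e (nat_lit 164207) (nat_lit 176) .nil))))))) (.g (nat_lit 1) (.e (nat_lit 53719) (nat_lit 0) .nil) .nil)))) (.nd (nat_lit 9) 
(.lf (nat_lit 460131) (.g (nat_lit 1655) (.e (nat_lit 2810) (nat_lit 180) (.e (nat_lit 303119) (nat_lit 3) (.e (nat_lit 204866) (nat_lit 28) (.e (nat_lit 352311) (nat_lit 22) .nil)))) (.g (nat_lit 0) (.e (nat_lit 52779) (nat_lit 0) .nil) .nil))) 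
(.lf (nat_lit 460643) (.g (nat_lit 4066) (.e (nat_lit 2830) (nat_lit 182) (.e (nat_lit 409648) (nat_lit 18) (.e (nat_lit 303112) (nat_lit 0) (.e (nat_lit 3252) (nat_lit 197) (.e (nat_lit 532560) (nat_lit 14) (.e (nat_lit 376863) (nat_lit 22) (.e (nat_lit 90130) (nat_lit 9) .nil))))))) (.g (nat_lit 1) (.e (nat_lit 55135) (nat_lit 0) .nil) .nil))))) (.nd (nat_lit 8) (.nd (nat_lit 9) 
(.lf (nat_lit 460003) (.g (nat_lit 4082) (.e (nat_lit 2808) (nat_lit 180) (.e (nat_lit 303116) (nat_lit 2) (.e (nat_lit 196666) (nat_lit 13) (.e (nat_lit 65610) (nat_lit 10) (.e (nat_lit 344117) (nat_lit 21) (.e (nat_lit 516106) (nat_lit 0) (.e (nat_lit 7008) (nat_lit 377) .nil))))))) (.g (nat_lit 1) (.e (nat_lit 52307) (nat_lit 0) .nil) .nil))) 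
(.lf (nat_lit 460515) (.g (nat_lit 2447) (.e (nat_lit 2821) (nat_lit 182) (.e (nat_lit 409646) (nat_lit 18) (.e (nat_lit 303119) (nat_lit 3) (.e (nat_lit 204877) (nat_lit 31) .nil)))) (.g (nat_lit 0) (.e (nat_lit 54262) (nat_lit 0) .nil) .nil)))) (.nd (nat_lit 9) 
(.lf (nat_lit 460259) (.g (nat_lit 1006) (.e (nat_lit 2816) (nat_lit 181) (.e (nat_lit 311311) (nat_lit 2) (.e (nat_lit 196672) (nat_lit 15) (.e (nat_lit 81954) (nat_lit 23) .nil)))) (.g (nat_lit 0) (.e (nat_lit 53296) (nat_lit 0) .nil) .nil))) 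
(.lf (nat_lit 460771) (.g (nat_lit 1197) (.e (nat_lit 2842) (nat_lit 184) (.e (nat_lit 426140) (nat_lit 3) (.e (nat_lit 204868) (nat_lit 29) (.e (nat_lit 360473) (nat_lit 8) .nil)))) (.g (nat_lit 0) (.e (nat_lit 56150) (nat_lit 0) .nil) .nil)))))))) (.nd (nat_lit 5) (.nd (nat_lit 6) (.nd (nat_lit 7) (.nd (nat_lit 8) (.nd (nat_lit 9) 
(.lf (nat_lit 459795) (.g (nat_lit 1830) (.e (nat_lit 2798) (nat_lit 180) (.e (nat_lit 303133) (nat_lit 9) (.e (nat_lit 426499) (nat_lit 27) (.e (nat_lit 336196) (nat_lit 12) (.e (nat_lit 385099) (nat_lit 49) .nil))))) (.g (nat_lit 0) (.e (nat_lit 51227) (nat_lit 0) .nil) .nil))) 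
(.lf (nat_lit 460307) (.g (nat_lit 4445) (.e (nat_lit 2819) (nat_lit 181) (.e (nat_lit 311311) (nat_lit 2) (.e (nat_lit 196666) (nat_lit 13) (.e (nat_lit 65617) (nat_lit 10) (.e (nat_lit 344117) (nat_lit 21) (.e (nat_lit 516106) (nat_lit 0) (.e (nat_lit 6986) (nat_lit 377) .nil))))))) (.g (nat_lit 1) (.e (nat_lit 53516) (nat_lit 0) .nil) .nil)))) (.nd (nat_lit 9) 
(.lf (nat_lit 460051) (.g (nat_lit 2873) (.e (nat_lit 2809) (nat_lit 180) (.e (nat_lit 303117) (nat_lit 2) (.e (nat_lit 196666) (nat_lit 13) (.e (nat_lit 65619) (nat_lit 10) .nil)))) (.g (nat_lit 0) (.e (nat_lit 52538) (nat_lit 0) .nil) .nil))) 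
(.lf (nat_lit 460563) (.g (nat_lit 2525) (.e (nat_lit 2829) (nat_lit 182) (.e (nat_lit 409648) (nat_lit 18) (.e (nat_lit 303116) (nat_lit 2) (.e (nat_lit 196672) (nat_lit 15) (.e (nat_lit 81962) (nat_lit 25) (.e (nat_lit 139289) (nat_lit 9) .nil)))))) (.g (nat_lit 1) (.e (nat_lit 54901) (nat_lit 0) .nil) .nil))))) (.nd (nat_lit 8) (.nd (nat_lit 9) 
(.lf (nat_lit 459923) (.g (nat_lit 2915) (.e (nat_lit 2802) (nat_lit 180) (.e (nat_lit 303117) (nat_lit 2) (.e (nat_lit 196666) (nat_lit 13) (.e (nat_lit 65619) (nat_lit 10) .nil)))) (.g (nat_lit 0) (.e (nat_lit 51936) (nat_lit 0) .nil) .nil))) 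
(.lf (nat_lit 460435) (.g (nat_lit 4866) (.e (nat_lit 2779) (nat_lit 178) (.e (nat_lit 286765) (nat_lit 15) (.e (nat_lit 3308) (nat_lit 202) (.e (nat_lit 573493) (nat_lit 15) (.e (nat_lit 81956) (nat_lit 23) (.e (nat_lit 98323) (nat_lit 17) (.e (nat_lit 6989) (nat_lit 377) .nil))))))) (.g (nat_lit 1) (.e (nat_lit 53812) (nat_lit 0) .nil) .nil)))) (.nd (nat_lit 9) 
(.lf (nat_lit 460179) (.g (nat_lit 2830) (.e (nat_lit 2810) (nat_lit 180) (.e (nat_lit 303143) (nat_lit 12) (.e (nat_lit 475212) (nat_lit 42) (.e (nat_lit 720955) (nat_lit 25) (.e (nat_lit 114698) (nat_lit 11) (.e (nat_lit 426024) (nat_lit 0) (.e (nat_lit 6989) (nat_lit 377) .nil))))))) (.g (nat_lit 1) (.e (nat_lit 52866) (nat_lit 0) .nil) .nil))) 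
(.lf (nat_lit 460691) (.g (nat_lit 1113) (.e (nat_lit 2830) (nat_lit 182) (.e (nat_lit 409649) (nat_lit 18) (.e (nat_lit 303110) (nat_lit 0) .nil))) (.g (nat_lit 0) (.e (nat_lit 55330) (nat_lit 0) .nil) .nil)))))) (.nd (nat_lit 7) (.nd (nat_lit 8) (.nd (nat_lit 9) 
(.lf (nat_lit 459859) (.g (nat_lit 2889) (.e (nat_lit 2798) (nat_lit 180) (.e (nat_lit 303143) (nat_lit 12) (.e (nat_lit 475185) (nat_lit 29) (.e (nat_lit 557101) (nat_lit 13) (.e (nat_lit 172097) (nat_lit 9) (.e (nat_lit 426113) (nat_lit 2) (.e (nat_lit 204544) (nat_lit 18) .nil))))))) (.g (nat_lit 1) (.e (nat_lit 51514) (nat_lit 0) .nil) .nil))) 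
(.lf (nat_lit 460371) (.g (nat_lit 2418) (.e (nat_lit 2777) (nat_lit 178) (.e (nat_lit 286765) (nat_lit 15) (.e (nat_lit 3304) (nat_lit 202) (.e (nat_lit 573482) (nat_lit 13) (.e (nat_lit 65604) (nat_lit 9) .nil))))) (.g (nat_lit 0) (.e (nat_lit 53699) (nat_lit 0) .nil) .nil)))) (.nd (nat_lit 9) 
(.lf (nat_lit 460115) (.g (nat_lit 2770) (.e (nat_lit 2810) (nat_lit 180) (.e (nat_lit 303119) (nat_lit 3) (.e (nat_lit 204855) (nat_lit 26) (.e (nat_lit 336095) (nat_lit 9) (.e (nat_lit 336013) (nat_lit 2) (.e (nat_lit 90165) (nat_lit 12) (.e (nat_lit 164208) (nat_lit 176) .nil))))))) (.g (nat_lit 1) (.e (nat_lit 52758) (nat_lit 0) .nil) .nil))) 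
(.lf (nat_lit 460627) (.g (nat_lit 3122) (.e (nat_lit 2830) (nat_lit 182) (.e (nat_lit 409648) (nat_lit 18) (.e (nat_lit 303104) (nat_lit 0) (.e (nat_lit 3238) (nat_lit 197) (.e (nat_lit 532559) (nat_lit 14) (.e (nat_lit 376865) (nat_lit 22) (.e (nat_lit 90130) (nat_lit 9) .nil))))))) (.g (nat_lit 1) (.e (nat_lit 55117) (nat_lit 0) .nil) .nil))))) (.nd (nat_lit 8) (.nd (nat_lit 9) 
(.lf (nat_lit 459987) (.g (nat_lit 2706) (.e (nat_lit 2807) (nat_lit 180) (.e (nat_lit 303137) (nat_lit 10) (.e (nat_lit 434241) (nat_lit 27) (.e (nat_lit 565269) (nat_lit 6) (.e (nat_lit 81963) (nat_lit 26) (.e (nat_lit 147511) (nat_lit 14) .nil)))))) (.g (nat_lit 1) (.e (nat_lit 52273) (nat_lit 0) .nil) .nil))) 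
(.lf (nat_lit 460499) (.g (nat_lit 1217) (.e (nat_lit 2789) (nat_lit 179) (.e (nat_lit 294973) (nat_lit 28) (.e (nat_lit 434180) (nat_lit 0) (.e (nat_lit 1425) (nat_lit 108) (.e (nat_lit 336421) (nat_lit 28) (.e (nat_lit 434186) (nat_lit 13) .nil)))))) (.g (nat_lit 1) (.e (nat_lit 54173) (nat_lit 0) .nil) .nil)))) (.nd (nat_lit 9) 
(.lf (nat_lit 460243) (.g (nat_lit 4137) (.e (nat_lit 2814) (nat_lit 181) (.e (nat_lit 311312) (nat_lit 2) (.e (nat_lit 196666) (nat_lit 13) (.e (nat_lit 65610) (nat_lit 10) (.e (nat_lit 344117) (nat_lit 21) (.e (nat_lit 516098) (nat_lit 0) (.e (nat_lit 7073) (nat_lit 377) .nil))))))) (.g (nat_lit 1) (.e (nat_lit 53238) (nat_lit 0) .nil) .nil))) 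
(.lf (nat_lit 460755) (.g (nat_lit 654) (.e (nat_lit 2828) (nat_lit 182) (.e (nat_lit 409646) (nat_lit 18) (.e (nat_lit 311040) (nat_lit 34) .nil))) (.g (nat_lit 0) (.e (nat_lit 56021) (nat_lit 0) .nil) .nil))))))) (.nd (nat_lit 6) (.nd (nat_lit 7) (.nd (nat_lit 8) (.nd (nat_lit 9) 
(.lf (nat_lit 459827) (.g (nat_lit 2343) (.e (nat_lit 2798) (nat_lit 180) (.e (nat_lit 303143) (nat_lit 12) (.e (nat_lit 475185) (nat_lit 29) (.e (nat_lit 557100) (nat_lit 13) (.e (nat_lit 179968) (nat_lit 9) .nil))))) (.g (nat_lit 0) (.e (nat_lit 51470) (nat_lit 0) .nil) .nil))) 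
(.lf (nat_lit 460339) (.g (nat_lit 3563) (.e (nat_lit 2777) (nat_lit 178) (.e (nat_lit 286735) (nat_lit 3) (.e (nat_lit 98350) (nat_lit 24) (.e (nat_lit 409645) (nat_lit 18) (.e (nat_lit 303119) (nat_lit 3) (.e (nat_lit 204819) (nat_lit 17) (.e (nat_lit 6113) (nat_lit 332) .nil))))))) (.g (nat_lit 1) (.e (nat_lit 53663) (nat_lit 0) .nil) .nil)))) (.nd (nat_lit 9) 
(.lf (nat_lit 460083) (.g (nat_lit 2641) (.e (nat_lit 2810) (nat_lit 180) (.e (nat_lit 303117) (nat_lit 2) (.e (nat_lit 196672) (nat_lit 15) (.e (nat_lit 81956) (nat_lit 23) (.e (nat_lit 98323) (nat_lit 17) (.e (nat_lit 6989) (nat_lit 377) .nil)))))) (.g (nat_lit 1) (.e (nat_lit 52716) (nat_lit 0) .nil) .nil))) 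
(.lf (nat_lit 460595) (.g (nat_lit 3254) (.e (nat_lit 2830) (nat_lit 182) (.e (nat_lit 409645) (nat_lit 18) (.e (nat_lit 303119) (nat_lit 3) (.e (nat_lit 204878) (nat_lit 31) (.e (nat_lit 376862) (nat_lit 22) (.e (nat_lit 90130) (nat_lit 9) .nil)))))) (.g (nat_lit 1) (.e (nat_lit 55051) (nat_lit 0) .nil) .nil))))) (.nd (nat_lit 8) (.nd (nat_lit 9) 
(.lf (nat_lit 459955) (.g (nat_lit 3074) (.e (nat_lit 2804) (nat_lit 180) (.e (nat_lit 303119) (nat_lit 3) (.e (nat_lit 204868) (nat_lit 29) (.e (nat_lit 360466) (nat_lit 3) (.e (nat_lit 516100) (nat_lit 0) .nil))))) (.g (nat_lit 0) (.e (nat_lit 52108) (nat_lit 0) .nil) .nil))) 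
(.lf (nat_lit 460467) (.g (nat_lit 2531) (.e (nat_lit 2786) (nat_lit 179) (.e (nat_lit 294931) (nat_lit 3) (.e (nat_lit 98350) (nat_lit 24) (.e (nat_lit 409648) (nat_lit 18) (.e (nat_lit 303108) (nat_lit 0) (.e (nat_lit 3272) (nat_lit 199) (.e (nat_lit 548910) (nat_lit 17) (.e (nat_lit 164210) (nat_lit 176) .nil)))))))) (.g (nat_lit 1) (.e (nat_lit 53904) (nat_lit 0) .nil) .nil)))) 
(.nd (nat_lit 9) 
(.lf (nat_lit 460211) (.g (nat_lit 2991) (.e (nat_lit 7936) (nat_lit 180) (.e (nat_lit 303117) (nat_lit 2) (.e (nat_lit 196666) (nat_lit 13) (.e (nat_lit 65598) (nat_lit 9) .nil)))) (.g (nat_lit 0) (.e (nat_lit 53077) (nat_lit 0) .nil) .nil))) 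
(.lf (nat_lit 460723) (.g (nat_lit 1361) (.e (nat_lit 2830) (nat_lit 182) (.e (nat_lit 409649) (nat_lit 18) (.e (nat_lit 303117) (nat_lit 2) (.e (nat_lit 196674) (nat_lit 15) .nil)))) (.g (nat_lit 0) (.e (nat_lit 55371) (nat_lit 0) .nil) .nil)))))) (.nd (nat_lit 7) (.nd (nat_lit 8) (.nd (nat_lit 9) 
(.lf (nat_lit 459891) (.g (nat_lit 2483) (.e (nat_lit 2798) (nat_lit 180) (.e (nat_lit 303143) (nat_lit 12) (.e (nat_lit 475210) (nat_lit 41) (.e (nat_lit 712755) (nat_lit 30) (.e (nat_lit 450596) (nat_lit 17) (.e (nat_lit 663589) (nat_lit 14) .nil)))))) (.g (nat_lit 1) (.e (nat_lit 51608) (nat_lit 0) .nil) .nil))) 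
(.lf (nat_lit 460403) (.g (nat_lit 2400) (.e (nat_lit 2777) (nat_lit 178) (.e (nat_lit 286770) (nat_lit 28) (.e (nat_lit 434181) (nat_lit 0) (.e (nat_lit 1427) (nat_lit 108) (.e (nat_lit 336421) (nat_lit 28) (.e (nat_lit 434187) (nat_lit 13) .nil)))))) (.g (nat_lit 1) (.e (nat_lit 53743) (nat_lit 0) .nil) .nil)))) (.nd (nat_lit 9) 
(.lf (nat_lit 460147) (.g (nat_lit 2218) (.e (nat_lit 2810) (nat_lit 180) (.e (nat_lit 303119) (nat_lit 3) (.e (nat_lit 204868) (nat_lit 29) (.e (nat_lit 360468) (nat_lit 3) (.e (nat_lit 516102) (nat_lit 0) (.e (nat_lit 6989) (nat_lit 377) .nil)))))) (.g (nat_lit 1) (.e (nat_lit 52795) (nat_lit 0) .nil) .nil))) 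
(.lf (nat_lit 460659) (.g (nat_lit 4149) (.e (nat_lit 2830) (nat_lit 182) (.e (nat_lit 409648) (nat_lit 18) (.e (nat_lit 303117) (nat_lit 2) (.e (nat_lit 196672) (nat_lit 15) (.e (nat_lit 81960) (nat_lit 25) (.e (nat_lit 139285) (nat_lit 9) .nil)))))) (.g (nat_lit 1) (.e (nat_lit 55176) (nat_lit 0) .nil) .nil))))) (.nd (nat_lit 8) (.nd (nat_lit 9) 
(.lf (nat_lit 460019) (.g (nat_lit 2586) (.e (nat_lit 2808) (nat_lit 180) (.e (nat_lit 303118) (nat_lit 3) (.e (nat_lit 204868) (nat_lit 29) (.e (nat_lit 360466) (nat_lit 3) (.e (nat_lit 516105) (nat_lit 0) .nil))))) (.g (nat_lit 0) (.e (nat_lit 52332) (nat_lit 0) .nil) .nil))) 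
(.lf (nat_lit 460531) (.g (nat_lit 2046) (.e (nat_lit 2824) (nat_lit 182) (.e (nat_lit 409645) (nat_lit 18) (.e (nat_lit 303117) (nat_lit 2) (.e (nat_lit 196624) (nat_lit 9) (.e (nat_lit 1615) (nat_lit 113) (.e (nat_lit 376865) (nat_lit 22) (.e (nat_lit 90127) (nat_lit 9) .nil))))))) (.g (nat_lit 1) (.e (nat_lit 54503) (nat_lit 0) .nil) .nil)))) (.nd (nat_lit 9) 
(.lf (nat_lit 460275) (.g (nat_lit 2113) (.e (nat_lit 2816) (nat_lit 181) (.e (nat_lit 311312) (nat_lit 2) (.e (nat_lit 196672) (nat_lit 15) (.e (nat_lit 81954) (nat_lit 23) (.e (nat_lit 98320) (nat_lit 17) (.e (nat_lit 6948) (nat_lit 377) .nil)))))) (.g (nat_lit 1) (.e (nat_lit 53317) (nat_lit 0) .nil) .nil))) 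
(.lf (nat_lit 460787) (.g (nat_lit 3095) (.e (nat_lit 2842) (nat_lit 184) (.e (nat_lit 426438) (nat_lit 18) (.e (nat_lit 98367) (nat_lit 27) (.e (nat_lit 434248) (nat_lit 28) (.e (nat_lit 573482) (nat_lit 13) (.e (nat_lit 65644) (nat_lit 22) (.e (nat_lit 245762) (nat_lit 0) .nil))))))) (.g (nat_lit 1) (.e (nat_lit 56190) (nat_lit 0) .nil) .nil))))))))) 
(.nd (nat_lit 4) (.nd (nat_lit 5) (.nd (nat_lit 6) (.nd (nat_lit 7) (.nd (nat_lit 8) 
(.nd (nat_lit 9) 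
(.lf (nat_lit 459787) (.g (nat_lit 2114) (.e (nat_lit 2798) (nat_lit 180) (.e (nat_lit 303133) (nat_lit 9) (.e (nat_lit 426499) (nat_lit 27) (.e (nat_lit 336078) (nat_lit 9) (.e (nat_lit 336029) (nat_lit 4) (.e (nat_lit 123195) (nat_lit 266) (.e (nat_lit 57346) (nat_lit 0) (.e (nat_lit 6203) (nat_lit 332) .nil)))))))) (.g (nat_lit 1) (.e (nat_lit 51208) (nat_lit 0) .nil) .nil))) 
(.lf (nat_lit 460299) (.g (nat_lit 2331) (.e (nat_lit 2817) (nat_lit 181) (.e (nat_lit 311312) (nat_lit 2) (.e (nat_lit 196672) (nat_lit 15) (.e (nat_lit 81954) (nat_lit 23) (.e (nat_lit 98325) (nat_lit 17) (.e (nat_lit 6998) (nat_lit 377) .nil)))))) (.g (nat_lit 1) (.e (nat_lit 53479) (nat_lit 0) .nil) .nil)))) (.nd (nat_lit 9) 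
(.lf (nat_lit 460043) (.g (nat_lit 3358) (.e (nat_lit 2809) (nat_lit 180) (.e (nat_lit 303117) (nat_lit 2) (.e (nat_lit 196666) (nat_lit 13) (.e (nat_lit 65610) (nat_lit 10) (.e (nat_lit 344117) (nat_lit 21) (.e (nat_lit 516102) (nat_lit 0) (.e (nat_lit 6980) (nat_lit 377) .nil))))))) (.g (nat_lit 1) (.e (nat_lit 52530) (nat_lit 0) .nil) .nil))) 
(.lf (nat_lit 460555) (.g (nat_lit 567) (.e (nat_lit 2829) (nat_lit 182) (.e (nat_lit 409646) (nat_lit 18) (.e (nat_lit 303106) (nat_lit 0) .nil))) (.g (nat_lit 0) (.e (nat_lit 54862) (nat_lit 0) .nil) .nil))))) (.nd (nat_lit 8) (.nd (nat_lit 9) 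
(.lf (nat_lit 459915) (.g (nat_lit 2667) (.e (nat_lit 2800) (nat_lit 180) (.e (nat_lit 303117) (nat_lit 2) (.e (nat_lit 196673) (nat_lit 15) (.e (nat_lit 81956) (nat_lit 23) (.e (nat_lit 98320) (nat_lit 17) .nil))))) (.g (nat_lit 0) (.e (nat_lit 51869) (nat_lit 0) .nil) .nil))) 
(.lf (nat_lit 460427) (.g (nat_lit 5607) (.e (nat_lit 2779) (nat_lit 178) (.e (nat_lit 286765) (nat_lit 15) (.e (nat_lit 3307) (nat_lit 202) (.e (nat_lit 573484) (nat_lit 13) (.e (nat_lit 65610) (nat_lit 10) (.e (nat_lit 344117) (nat_lit 21) (.e (nat_lit 516106) (nat_lit 0) (.e (nat_lit 6986) (nat_lit 377) .nil)))))))) (.g (nat_lit 1) (.e (nat_lit 53804) (nat_lit 0) .nil) .nil)))) 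
(.nd (nat_lit 9) 
(.lf (nat_lit 460171) (.g (nat_lit 5169) (.e (nat_lit 2810) (nat_lit 180) (.e (nat_lit 303143) (nat_lit 12) (.e (nat_lit 475185) (nat_lit 29) (.e (nat_lit 557098) (nat_lit 13) (.e (nat_lit 172093) (nat_lit 9) .nil))))) (.g (nat_lit 0) (.e (nat_lit 52842) (nat_lit 0) .nil) .nil))) 
(.lf (nat_lit 460683) (.g (nat_lit 2751) (.e (nat_lit 2830) (nat_lit 182) (.e (nat_lit 409649) (nat_lit 18) (.e (nat_lit 303104) (nat_lit 0) (.e (nat_lit 3238) (nat_lit 197) (.e (nat_lit 532560) (nat_lit 14) (.e (nat_lit 376864) (nat_lit 22) (.e (nat_lit 90130) (nat_lit 9) .nil))))))) (.g (nat_lit 1) (.e (nat_lit 55320) (nat_lit 0) .nil) .nil)))))) 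
(.nd (nat_lit 7) (.nd (nat_lit 8) (.nd (nat_lit 9) 
(.lf (nat_lit 459851) (.g (nat_lit 1175) (.e (nat_lit 2798) (nat_lit 180) (.e (nat_lit 303143) (nat_lit 12) (.e (nat_lit 475185) (nat_lit 29) (.e (nat_lit 557101) (nat_lit 13) .nil)))) (.g (nat_lit 0) (.e (nat_lit 51500) (nat_lit 0) .nil) .nil))) 
(.lf (nat_lit 460363) (.g (nat_lit 2809) (.e (nat_lit 2777) (nat_lit 178) (.e (nat_lit 286765) (nat_lit 15) (.e (nat_lit 3296) (nat_lit 202) (.e (nat_lit 573482) (nat_lit 13) (.e (nat_lit 65604) (nat_lit 9) (.e (nat_lit 336028) (nat_lit 3) (.e (nat_lit 98325) (nat_lit 17) (.e (nat_lit 6986) (nat_lit 377) .nil)))))))) (.g (nat_lit 1) (.e (nat_lit 53687) (nat_lit 0) .nil) .nil)))) (.nd (nat_lit 9) 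
(.lf (nat_lit 460107) (.g (nat_lit 2359) (.e (nat_lit 2810) (nat_lit 180) (.e (nat_lit 303119) (nat_lit 3) (.e (nat_lit 204821) (nat_lit 17) (.e (nat_lit 6114) (nat_lit 332) (.e (nat_lit 2779) (nat_lit 178) (.e (nat_lit 286735) (nat_lit 3) (.e (nat_lit 98323) (nat_lit 17) (.e (nat_lit 6989) (nat_lit 377) .nil)))))))) (.g (nat_lit 1) (.e (nat_lit 52741) (nat_lit 0) .nil) .nil))) 
(.lf (nat_lit 460619) (.g (nat_lit 1799) (.e (nat_lit 2830) (nat_lit 182) (.e (nat_lit 409647) (nat_lit 18) (.e (nat_lit 303118) (nat_lit 3) (.e (nat_lit 204877) (nat_lit 31) (.e (nat_lit 376862) (nat_lit 22) (.e (nat_lit 90130) (nat_lit 9) .nil)))))) (.g (nat_lit 1) (.e (nat_lit 55102) (nat_lit 0) .nil) .nil))))) (.nd (nat_lit 8) (.nd (nat_lit 9) 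
(.lf (nat_lit 459979) (.g (nat_lit 3228) (.e (nat_lit 2807) (nat_lit 180) (.e (nat_lit 303117) (nat_lit 2) (.e (nat_lit 196666) (nat_lit 13) (.e (nat_lit 65610) (nat_lit 10) (.e (nat_lit 344117) (nat_lit 21) (.e (nat_lit 516106) (nat_lit 0) (.e (nat_lit 7008) (nat_lit 377) .nil))))))) (.g (nat_lit 1) (.e (nat_lit 52198) (nat_lit 0) .nil) .nil))) 
(.lf (nat_lit 460491) (.g (nat_lit 1916) (.e (nat_lit 2788) (nat_lit 179) (.e (nat_lit 294973) (nat_lit 28) (.e (nat_lit 434181) (nat_lit 0) (.e (nat_lit 1428) (nat_lit 108) (.e (nat_lit 336421) (nat_lit 28) (.e (nat_lit 434186) (nat_lit 13) .nil)))))) (.g (nat_lit 1) (.e (nat_lit 54072) (nat_lit 0) .nil) .nil)))) (.nd (nat_lit 9) 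
(.lf (nat_lit 460235) (.g (nat_lit 2420) (.e (nat_lit 7936) (nat_lit 180) (.e (nat_lit 303143) (nat_lit 12) (.e (nat_lit 475185) (nat_lit 29) (.e (nat_lit 557098) (nat_lit 13) .nil)))) (.g (nat_lit 0) (.e (nat_lit 53128) (nat_lit 0) .nil) .nil))) 
(.lf (nat_lit 460747) (.g (nat_lit 2763) (.e (nat_lit 2828) (nat_lit 182) (.e (nat_lit 409646) (nat_lit 18) (.e (nat_lit 303117) (nat_lit 2) (.e (nat_lit 196624) (nat_lit 9) (.e (nat_lit 1615) (nat_lit 113) (.e (nat_lit 376864) (nat_lit 22) (.e (nat_lit 90134) (nat_lit 9) .nil))))))) (.g (nat_lit 1) (.e (nat_lit 55533) (nat_lit 0) .nil) .nil))))))) 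
(.nd (nat_lit 6) (.nd (nat_lit 7) (.nd (nat_lit 8) (.nd (nat_lit 9) 
(.lf (nat_lit 459819) (.g (nat_lit 3173) (.e (nat_lit 2798) (nat_lit 180) (.e (nat_lit 303143) (nat_lit 12) (.e (nat_lit 475185) (nat_lit 29) (.e (nat_lit 557100) (nat_lit 13) (.e (nat_lit 172089) (nat_lit 9) .nil))))) (.g (nat_lit 0) (.e (nat_lit 51462) (nat_lit 0) .nil) .nil))) 
(.lf (nat_lit 460331) (.g (nat_lit 2566) (.e (nat_lit 2775) (nat_lit 178) (.e (nat_lit 286765) (nat_lit 15) (.e (nat_lit 3308) (nat_lit 202) (.e (nat_lit 573482) (nat_lit 13) (.e (nat_lit 65604) (nat_lit 9) .nil))))) (.g (nat_lit 0) (.e (nat_lit 53652) (nat_lit 0) .nil) .nil)))) (.nd (nat_lit 9) 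
(.lf (nat_lit 460075) (.g (nat_lit 4090) (.e (nat_lit 2810) (nat_lit 180) (.e (nat_lit 303117) (nat_lit 2) (.e (nat_lit 196666) (nat_lit 13) (.e (nat_lit 65610) (nat_lit 10) (.e (nat_lit 344117) (nat_lit 21) (.e (nat_lit 516106) (nat_lit 0) (.e (nat_lit 6986) (nat_lit 377) .nil))))))) (.g (nat_lit 1) (.e (nat_lit 52708) (nat_lit 0) .nil) .nil))) 
(.lf (nat_lit 460587) (.g (nat_lit 4016) (.e (nat_lit 2830) (nat_lit 182) (.e (nat_lit 409645) (nat_lit 18) (.e (nat_lit 303112) (nat_lit 0) (.e (nat_lit 3252) (nat_lit 197) (.e (nat_lit 532558) (nat_lit 14) (.e (nat_lit 376863) (nat_lit 22) (.e (nat_lit 90130) (nat_lit 9) .nil))))))) (.g (nat_lit 1) (.e (nat_lit 55038) (nat_lit 0) .nil) .nil))))) (.nd (nat_lit 8) (.nd (nat_lit 9) 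
(.lf (nat_lit 459947) (.g (nat_lit 2316) (.e (nat_lit 2804) (nat_lit 180) (.e (nat_lit 303117) (nat_lit 2) (.e (nat_lit 196674) (nat_lit 15) (.e (nat_lit 81952) (nat_lit 22) .nil)))) (.g (nat_lit 0) (.e (nat_lit 52090) (nat_lit 0) .nil) .nil))) 
(.lf (nat_lit 460459) (.g (nat_lit 2217) (.e (nat_lit 2781) (nat_lit 178) (.e (nat_lit 286768) (nat_lit 27) (.e (nat_lit 426338) (nat_lit 14) (.e (nat_lit 491549) (nat_lit 9) (.e (nat_lit 336421) (nat_lit 28) (.e (nat_lit 434187) (nat_lit 13) .nil)))))) (.g (nat_lit 1) (.e (nat_lit 53891) (nat_lit 0) .nil) .nil)))) (.nd (nat_lit 9) 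
(.lf (nat_lit 460203) (.g (nat_lit 2407) (.e (nat_lit 2812) (nat_lit 180) (.e (nat_lit 303119) (nat_lit 3) (.e (nat_lit 204869) (nat_lit 29) (.e (nat_lit 360474) (nat_lit 8) .nil)))) (.g (nat_lit 0) (.e (nat_lit 53033) (nat_lit 0) .nil) .nil))) 
(.lf (nat_lit 460715) (.g (nat_lit 2022) (.e (nat_lit 2830) (nat_lit 182) (.e (nat_lit 409649) (nat_lit 18) (.e (nat_lit 303117) (nat_lit 2) (.e (nat_lit 196628) (nat_lit 9) (.e (nat_lit 1613) (nat_lit 113) .nil))))) (.g (nat_lit 0) (.e (nat_lit 55361) (nat_lit 0) .nil) .nil)))))) (.nd (nat_lit 7) (.nd (nat_lit 8) (.nd (nat_lit 9) 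
(.lf (nat_lit 459883) (.g (nat_lit 3983) (.e (nat_lit 2798) (nat_lit 180) (.e (nat_lit 303143) (nat_lit 12) (.e (nat_lit 475185) (nat_lit 29) (.e (nat_lit 557109) (nat_lit 15) (.e (nat_lit 188447) (nat_lit 22) (.e (nat_lit 204544) (nat_lit 18) .nil)))))) (.g (nat_lit 1) (.e (nat_lit 51557) (nat_lit 0) .nil) .nil))) 
(.lf (nat_lit 460395) (.g (nat_lit 2011) (.e (nat_lit 2777) (nat_lit 178) (.e (nat_lit 286768) (nat_lit 27) (.e (nat_lit 426339) (nat_lit 14) (.e (nat_lit 491571) (nat_lit 13) (.e (nat_lit 393242) (nat_lit 17) (.e (nat_lit 6966) (nat_lit 377) .nil)))))) (.g (nat_lit 1) (.e (nat_lit 53732) (nat_lit 0) .nil) .nil)))) (.nd (nat_lit 9) 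
(.lf (nat_lit 460139) (.g (nat_lit 1725) (.e (nat_lit 2810) (nat_lit 180) (.e (nat_lit 303119) (nat_lit 3) (.e (nat_lit 204867) (nat_lit 28) (.e (nat_lit 352310) (nat_lit 22) (.e (nat_lit 90165) (nat_lit 12) (.e (nat_lit 164208) (nat_lit 176) .nil)))))) (.g (nat_lit 1) (.e (nat_lit 52787) (nat_lit 0) .nil) .nil))) 
(.lf (nat_lit 460651) (.g (nat_lit 4114) (.e (nat_lit 2830) (nat_lit 182) (.e (nat_lit 409648) (nat_lit 18) (.e (nat_lit 303116) (nat_lit 2) (.e (nat_lit 196672) (nat_lit 15) (.e (nat_lit 81960) (nat_lit 25) (.e (nat_lit 139285) (nat_lit 9) .nil)))))) (.g (nat_lit 1) (.e (nat_lit 55147) (nat_lit 0) .nil) .nil))))) (.nd (nat_lit 8) (.nd (nat_lit 9) 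
(.lf (nat_lit 460011) (.g (nat_lit 4170) (.e (nat_lit 2808) (nat_lit 180) (.e (nat_lit 303117) (nat_lit 2) (.e (nat_lit 196666) (nat_lit 13) (.e (nat_lit 65610) (nat_lit 10) (.e (nat_lit 344117) (nat_lit 21) (.e (nat_lit 516106) (nat_lit 0) (.e (nat_lit 7014) (nat_lit 377) .nil))))))) (.g (nat_lit 1) (.e (nat_lit 52315) (nat_lit 0) .nil) .nil))) 
(.lf (nat_lit 460523) (.g (nat_lit 441) (.e (nat_lit 2822) (nat_lit 182) (.e (nat_lit 409645) (nat_lit 18) (.e (nat_lit 303117) (nat_lit 2) .nil))) (.g (nat_lit 0) (.e (nat_lit 54285) (nat_lit 0) .nil) .nil)))) (.nd (nat_lit 9) 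
(.lf (nat_lit 460267) (.g (nat_lit 3621) (.e (nat_lit 2816) (nat_lit 181) (.e (nat_lit 311312) (nat_lit 2) (.e (nat_lit 196666) (nat_lit 13) (.e (nat_lit 65610) (nat_lit 10) (.e (nat_lit 344117) (nat_lit 21) (.e (nat_lit 516098) (nat_lit 0) (.e (nat_lit 6948) (nat_lit 377) .nil))))))) (.g (nat_lit 1) (.e (nat_lit 53306) (nat_lit 0) .nil) .nil))) 
(.lf (nat_lit 460779) (.g (nat_lit 2309) (.e (nat_lit 2842) (nat_lit 184) (.e (nat_lit 426317) (nat_lit 12) (.e (nat_lit 475185) (nat_lit 29) (.e (nat_lit 557107) (nat_lit 15) (.e (nat_lit 188441) (nat_lit 20) .nil))))) (.g (nat_lit 0) (.e (nat_lit 56172) (nat_lit 0) .nil) .nil)))))))) (.nd (nat_lit 5) (.nd (nat_lit 6) (.nd (nat_lit 7) (.nd (nat_lit 8) (.nd (nat_lit 9) 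
(.lf (nat_lit 459803) (.g (nat_lit 3439) (.e (nat_lit 2798) (nat_lit 180) (.e (nat_lit 303143) (nat_lit 12) (.e (nat_lit 475185) (nat_lit 29) (.e (nat_lit 557097) (nat_lit 13) .nil)))) (.g (nat_lit 0) (.e (nat_lit 51443) (nat_lit 0) .nil) .nil))) 
(.lf (nat_lit 460315) (.g (nat_lit 2350) (.e (nat_lit 2819) (nat_lit 181) (.e (nat_lit 311312) (nat_lit 2) (.e (nat_lit 196674) (nat_lit 15) (.e (nat_lit 81953) (nat_lit 22) (.e (nat_lit 90165) (nat_lit 12) (.e (nat_lit 164207) (nat_lit 176) .nil)))))) (.g (nat_lit 1) (.e (nat_lit 53526) (nat_lit 0) .nil) .nil)))) (.nd (nat_lit 9) 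
(.lf (nat_lit 460059) (.g (nat_lit 3920) (.e (nat_lit 2809) (nat_lit 180) (.e (nat_lit 303117) (nat_lit 2) (.e (nat_lit 196673) (nat_lit 15) (.e (nat_lit 81956) (nat_lit 23) (.e (nat_lit 98320) (nat_lit 17) (.e (nat_lit 6948) (nat_lit 377) .nil)))))) (.g (nat_lit 1) (.e (nat_lit 52546) (nat_lit 0) .nil) .nil))) 
(.lf (nat_lit 460571) (.g (nat_lit 2762) (.e (nat_lit 2829) (nat_lit 182) (.e (nat_lit 409649) (nat_lit 18) (.e (nat_lit 303116) (nat_lit 2) (.e (nat_lit 196674) (nat_lit 15) (.e (nat_lit 81962) (nat_lit 25) .nil))))) (.g (nat_lit 0) (.e (nat_lit 54947) (nat_lit 0) .nil) .nil))))) (.nd (nat_lit 8) (.nd (nat_lit 9) 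
(.lf (nat_lit 459931) (.g (nat_lit 2373) (.e (nat_lit 2802) (nat_lit 180) (.e (nat_lit 303119) (nat_lit 3) (.e (nat_lit 204868) (nat_lit 29) (.e (nat_lit 360466) (nat_lit 3) (.e (nat_lit 516104) (nat_lit 0) (.e (nat_lit 7936) (nat_lit 377) .nil)))))) (.g (nat_lit 1) (.e (nat_lit 51968) (nat_lit 0) .nil) .nil))) 
(.lf (nat_lit 460443) (.g (nat_lit 1872) (.e (nat_lit 2779) (nat_lit 178) (.e (nat_lit 286770) (nat_lit 28) (.e (nat_lit 434181) (nat_lit 0) (.e (nat_lit 1427) (nat_lit 108) (.e (nat_lit 336421) (nat_lit 28) (.e (nat_lit 434187) (nat_lit 13) .nil)))))) (.g (nat_lit 1) (.e (nat_lit 53827) (nat_lit 0) .nil) .nil)))) (.nd (nat_lit 9) 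
(.lf (nat_lit 460187) (.g (nat_lit 754) (.e (nat_lit 2810) (nat_lit 180) (.e (nat_lit 303145) (nat_lit 13) (.e (nat_lit 483378) (nat_lit 23) .nil))) (.g (nat_lit 0) (.e (nat_lit 52922) (nat_lit 0) .nil) .nil))) 
(.lf (nat_lit 460699) (.g (nat_lit 3711) (.e (nat_lit 2830) (nat_lit 182) (.e (nat_lit 409649) (nat_lit 18) (.e (nat_lit 303111) (nat_lit 0) (.e (nat_lit 3238) (nat_lit 197) (.e (nat_lit 532558) (nat_lit 14) (.e (nat_lit 376863) (nat_lit 22) (.e (nat_lit 90130) (nat_lit 9) .nil))))))) (.g (nat_lit 1) (.e (nat_lit 55339) (nat_lit 0) .nil) .nil)))))) 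
(.nd (nat_lit 7) (.nd (nat_lit 8) (.nd (nat_lit 9) 
(.lf (nat_lit 459867) (.g (nat_lit 3788) (.e (nat_lit 2798) (nat_lit 180) (.e (nat_lit 303143) (nat_lit 12) (.e (nat_lit 475185) (nat_lit 29) (.e (nat_lit 557101) (nat_lit 13) (.e (nat_lit 172115) (nat_lit 10) (.e (nat_lit 434219) (nat_lit 19) (.e (nat_lit 507648) (nat_lit 0) .nil))))))) (.g (nat_lit 1) (.e (nat_lit 51524) (nat_lit 0) .nil) .nil))) 
(.lf (nat_lit 460379) (.g (nat_lit 3348) (.e (nat_lit 2777) (nat_lit 178) (.e (nat_lit 286765) (nat_lit 15) (.e (nat_lit 3307) (nat_lit 202) (.e (nat_lit 573491) (nat_lit 15) (.e (nat_lit 81951) (nat_lit 22) (.e (nat_lit 90165) (nat_lit 12) (.e (nat_lit 164208) (nat_lit 176) .nil))))))) (.g (nat_lit 1) (.e (nat_lit 53711) (nat_lit 0) .nil) .nil)))) (.nd (nat_lit 9) 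
(.lf (nat_lit 460123) (.g (nat_lit 2294) (.e (nat_lit 2810) (nat_lit 180) (.e (nat_lit 303119) (nat_lit 3) (.e (nat_lit 204865) (nat_lit 28) (.e (nat_lit 352310) (nat_lit 22) (.e (nat_lit 90165) (nat_lit 12) (.e (nat_lit 164208) (nat_lit 176) .nil)))))) (.g (nat_lit 1) (.e (nat_lit 52771) (nat_lit 0) .nil) .nil))) 
(.lf (nat_lit 460635) (.g (nat_lit 3315) (.e (nat_lit 2830) (nat_lit 182) (.e (nat_lit 409648) (nat_lit 18) (.e (nat_lit 303109) (nat_lit 0) (.e (nat_lit 3252) (nat_lit 197) (.e (nat_lit 532558) (nat_lit 14) (.e (nat_lit 376863) (nat_lit 22) (.e (nat_lit 90130) (nat_lit 9) .nil))))))) (.g (nat_lit 1) (.e (nat_lit 55127) (nat_lit 0) .nil) .nil))))) (.nd (nat_lit 8) (.nd (nat_lit 9) 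
(.lf (nat_lit 459995) (.g (nat_lit 2266) (.e (nat_lit 2807) (nat_lit 180) (.e (nat_lit 303143) (nat_lit 12) (.e (nat_lit 475211) (nat_lit 41) (.e (nat_lit 712753) (nat_lit 30) (.e (nat_lit 450595) (nat_lit 17) .nil))))) (.g (nat_lit 0) (.e (nat_lit 52284) (nat_lit 0) .nil) .nil))) 
(.lf (nat_lit 460507) (.g (nat_lit 2230) (.e (nat_lit 2789) (nat_lit 179) (.e (nat_lit 294973) (nat_lit 28) (.e (nat_lit 434181) (nat_lit 0) (.e (nat_lit 1427) (nat_lit 108) (.e (nat_lit 336421) (nat_lit 28) (.e (nat_lit 434193) (nat_lit 13) .nil)))))) (.g (nat_lit 1) (.e (nat_lit 54181) (nat_lit 0) .nil) .nil)))) (.nd (nat_lit 9) 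
(.lf (nat_lit 460251) (.g (nat_lit 2301) (.e (nat_lit 2814) (nat_lit 181) (.e (nat_lit 311312) (nat_lit 2) (.e (nat_lit 196672) (nat_lit 15) (.e (nat_lit 81954) (nat_lit 23) (.e (nat_lit 98325) (nat_lit 17) (.e (nat_lit 7016) (nat_lit 377) .nil)))))) (.g (nat_lit 1) (.e (nat_lit 53246) (nat_lit 0) .nil) .nil))) 
(.lf (nat_lit 460763) (.g (nat_lit 2886) (.e (nat_lit 2842) (nat_lit 184) (.e (nat_lit 426032) (nat_lit 0) (.e (nat_lit 3262) (nat_lit 198) (.e (nat_lit 540706) (nat_lit 12) (.e (nat_lit 360475) (nat_lit 8) (.e (nat_lit 557090) (nat_lit 12) (.e (nat_lit 164020) (nat_lit 45) (.e (nat_lit 696329) (nat_lit 5) .nil)))))))) (.g (nat_lit 1) (.e (nat_lit 56128) (nat_lit 0) .nil) .nil))))))) 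
(.nd (nat_lit 6) (.nd (nat_lit 7) (.nd (nat_lit 8) (.nd (nat_lit 9) 
(.lf (nat_lit 459835) (.g (nat_lit 3219) (.e (nat_lit 2798) (nat_lit 180) (.e (nat_lit 303143) (nat_lit 12) (.e (nat_lit 475185) (nat_lit 29) (.e (nat_lit 557100) (nat_lit 13) (.e (nat_lit 172106) (nat_lit 10) (.e (nat_lit 434221) (nat_lit 19) (.e (nat_lit 507648) (nat_lit 0) .nil))))))) (.g (nat_lit 1) (.e (nat_lit 51480) (nat_lit 0) .nil) .nil))) 
(.lf (nat_lit 460347) (.g (nat_lit 871) (.e (nat_lit 2777) (nat_lit 178) (.e (nat_lit 286735) (nat_lit 3) (.e (nat_lit 98388) (nat_lit 33) .nil))) (.g (nat_lit 0) (.e (nat_lit 53671) (nat_lit 0) .nil) .nil)))) (.nd (nat_lit 9) 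
(.lf (nat_lit 460091) (.g (nat_lit 2241) (.e (nat_lit 2810) (nat_lit 180) (.e (nat_lit 303117) (nat_lit 2) (.e (nat_lit 196673) (nat_lit 15) (.e (nat_lit 81956) (nat_lit 23) (.e (nat_lit 106240) (nat_lit 17) (.e (nat_lit 6989) (nat_lit 377) .nil)))))) (.g (nat_lit 1) (.e (nat_lit 52724) (nat_lit 0) .nil) .nil))) 
(.lf (nat_lit 460603) (.g (nat_lit 3753) (.e (nat_lit 2830) (nat_lit 182) (.e (nat_lit 409646) (nat_lit 18) (.e (nat_lit 303112) (nat_lit 0) (.e (nat_lit 3252) (nat_lit 197) (.e (nat_lit 532561) (nat_lit 14) (.e (nat_lit 376862) (nat_lit 22) (.e (nat_lit 90130) (nat_lit 9) .nil))))))) (.g (nat_lit 1) (.e (nat_lit 55061) (nat_lit 0) .nil) .nil))))) (.nd (nat_lit 8) (.nd (nat_lit 9) 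
(.lf (nat_lit 459963) (.g (nat_lit 1965) (.e (nat_lit 2804) (nat_lit 180) (.e (nat_lit 303143) (nat_lit 12) (.e (nat_lit 475211) (nat_lit 41) (.e (nat_lit 712755) (nat_lit 30) (.e (nat_lit 450596) (nat_lit 17) (.e (nat_lit 663589) (nat_lit 14) .nil)))))) (.g (nat_lit 1) (.e (nat_lit 52130) (nat_lit 0) .nil) .nil))) 
(.lf (nat_lit 460475) (.g (nat_lit 1628) (.e (nat_lit 2787) (nat_lit 179) (.e (nat_lit 294973) (nat_lit 28) (.e (nat_lit 434180) (nat_lit 0) (.e (nat_lit 1428) (nat_lit 108) (.e (nat_lit 336421) (nat_lit 28) (.e (nat_lit 434189) (nat_lit 13) .nil)))))) (.g (nat_lit 1) (.e (nat_lit 53983) (nat_lit 0) .nil) .nil)))) (.nd (nat_lit 9) 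
(.lf (nat_lit 460219) (.g (nat_lit 323) (.e (nat_lit 7936) (nat_lit 180) (.e (nat_lit 303117) (nat_lit 2) (.e (nat_lit 196673) (nat_lit 15) .nil))) (.g (nat_lit 0) (.e (nat_lit 53086) (nat_lit 0) .nil) .nil))) 
(.lf (nat_lit 460731) (.g (nat_lit 2286) (.e (nat_lit 2830) (nat_lit 182) (.e (nat_lit 409649) (nat_lit 18) (.e (nat_lit 303119) (nat_lit 3) (.e (nat_lit 204877) (nat_lit 31) (.e (nat_lit 376862) (nat_lit 22) (.e (nat_lit 90130) (nat_lit 9) .nil)))))) (.g (nat_lit 1) (.e (nat_lit 55410) (nat_lit 0) .nil) .nil)))))) (.nd (nat_lit 7) (.nd (nat_lit 8) (.nd (nat_lit 9) 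
(.lf (nat_lit 459899) (.g (nat_lit 2223) (.e (nat_lit 2798) (nat_lit 180) (.e (nat_lit 303145) (nat_lit 13) (.e (nat_lit 483346) (nat_lit 17) (.e (nat_lit 976) (nat_lit 81) .nil)))) (.g (nat_lit 0) (.e (nat_lit 51633) (nat_lit 0) .nil) .nil))) 
(.lf (nat_lit 460411) (.g (nat_lit 2663) (.e (nat_lit 2779) (nat_lit 178) (.e (nat_lit 286735) (nat_lit 3) (.e (nat_lit 98320) (nat_lit 17) (.e (nat_lit 7593) (nat_lit 407) (.e (nat_lit 73746) (nat_lit 3) (.e (nat_lit 516102) (nat_lit 0) (.e (nat_lit 6989) (nat_lit 377) .nil))))))) (.g (nat_lit 1) (.e (nat_lit 53784) (nat_lit 0) .nil) .nil)))) (.nd (nat_lit 9) 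
(.lf (nat_lit 460155) (.g (nat_lit 2427) (.e (nat_lit 2810) (nat_lit 180) (.e (nat_lit 303119) (nat_lit 3) (.e (nat_lit 204869) (nat_lit 29) (.e (nat_lit 360475) (nat_lit 8) .nil)))) (.g (nat_lit 0) (.e (nat_lit 52806) (nat_lit 0) .nil) .nil))) 
(.lf (nat_lit 460667) (.g (nat_lit 2745) (.e (nat_lit 2830) (nat_lit 182) (.e (nat_lit 409648) (nat_lit 18) (.e (nat_lit 303118) (nat_lit 3) (.e (nat_lit 204877) (nat_lit 31) (.e (nat_lit 376862) (nat_lit 22) (.e (nat_lit 90130) (nat_lit 9) .nil)))))) (.g (nat_lit 1) (.e (nat_lit 55193) (nat_lit 0) .nil) .nil))))) (.nd (nat_lit 8) (.nd (nat_lit 9) 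
(.lf (nat_lit 460027) (.g (nat_lit 384) (.e (nat_lit 2808) (nat_lit 180) (.e (nat_lit 303140) (nat_lit 10) (.e (nat_lit 434295) (nat_lit 49) .nil))) (.g (nat_lit 0) (.e (nat_lit 52476) (nat_lit 0) .nil) .nil))) 
(.lf (nat_lit 460539) (.g (nat_lit 3959) (.e (nat_lit 2826) (nat_lit 182) (.e (nat_lit 409617) (nat_lit 10) (.e (nat_lit 632) (nat_lit 50) (.e (nat_lit 573489) (nat_lit 14) (.e (nat_lit 73755) (nat_lit 8) (.e (nat_lit 557105) (nat_lit 14) (.e (nat_lit 180252) (nat_lit 10) (.e (nat_lit 581376) (nat_lit 0) .nil)))))))) (.g (nat_lit 1) (.e (nat_lit 54747) (nat_lit 0) .nil) .nil)))) (.nd (nat_lit 9) 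
(.lf (nat_lit 460283) (.g (nat_lit 2129) (.e (nat_lit 2816) (nat_lit 181) (.e (nat_lit 311314) (nat_lit 3) (.e (nat_lit 204877) (nat_lit 31) (.e (nat_lit 376865) (nat_lit 22) (.e (nat_lit 90181) (nat_lit 16) (.e (nat_lit 229569) (nat_lit 176) .nil)))))) (.g (nat_lit 1) (.e (nat_lit 53335) (nat_lit 0) .nil) .nil))) 
(.lf (nat_lit 460795) (.g (nat_lit 1591) (.e (nat_lit 2842) (nat_lit 184) (.e (nat_lit 426555) (nat_lit 32) (.e (nat_lit 376859) (nat_lit 21) (.e (nat_lit 57872) (nat_lit 264) .nil)))) (.g (nat_lit 0) (.e (nat_lit 56204) (nat_lit 0) .nil) .nil)))))))))) (.nd (nat_lit 3) (.nd (nat_lit 4) (.nd (nat_lit 5) (.nd (nat_lit 6) (.nd (nat_lit 7) (.nd (nat_lit 8) (.nd (nat_lit 9) 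
(.lf (nat_lit 459783) (.g (nat_lit 1239) (.e (nat_lit 2798) (nat_lit 180) (.e (nat_lit 303133) (nat_lit 9) (.e (nat_lit 426412) (nat_lit 15) (.e (nat_lit 2175) (nat_lit 143) .nil)))) (.g (nat_lit 0) (.e (nat_lit 51183) (nat_lit 0) .nil) .nil))) 
(.lf (nat_lit 460295) (.g (nat_lit 2214) (.e (nat_lit 2817) (nat_lit 181) (.e (nat_lit 311312) (nat_lit 2) (.e (nat_lit 196672) (nat_lit 15) (.e (nat_lit 81951) (nat_lit 22) (.e (nat_lit 90165) (nat_lit 12) (.e (nat_lit 164213) (nat_lit 176) .nil)))))) (.g (nat_lit 1) (.e (nat_lit 53475) (nat_lit 0) .nil) .nil)))) (.nd (nat_lit 9) 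
(.lf (nat_lit 460039) (.g (nat_lit 4556) (.e (nat_lit 2809) (nat_lit 180) (.e (nat_lit 303117) (nat_lit 2) (.e (nat_lit 196666) (nat_lit 13) (.e (nat_lit 65610) (nat_lit 10) (.e (nat_lit 344117) (nat_lit 21) (.e (nat_lit 516097) (nat_lit 0) (.e (nat_lit 6948) (nat_lit 377) .nil))))))) (.g (nat_lit 1) (.e (nat_lit 52526) (nat_lit 0) .nil) .nil))) 
(.lf (nat_lit 460551) (.g (nat_lit 2117) (.e (nat_lit 2829) (nat_lit 182) (.e (nat_lit 409643) (nat_lit 18) (.e (nat_lit 303117) (nat_lit 2) (.e (nat_lit 196674) (nat_lit 15) (.e (nat_lit 81962) (nat_lit 25) (.e (nat_lit 139289) (nat_lit 9) .nil)))))) (.g (nat_lit 1) (.e (nat_lit 54828) (nat_lit 0) .nil) .nil))))) (.nd (nat_lit 8) (.nd (nat_lit 9) 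
(.lf (nat_lit 459911) (.g (nat_lit 3133) (.e (nat_lit 2798) (nat_lit 180) (.e (nat_lit 303146) (nat_lit 14) (.e (nat_lit 491570) (nat_lit 13) (.e (nat_lit 393282) (nat_lit 24) (.e (nat_lit 434275) (nat_lit 39) (.e (nat_lit 663589) (nat_lit 14) .nil)))))) (.g (nat_lit 1) (.e (nat_lit 51855) (nat_lit 0) .nil) .nil))) 
(.lf (nat_lit 460423) (.g (nat_lit 3960) (.e (nat_lit 2779) (nat_lit 178) (.e (nat_lit 286765) (nat_lit 15) (.e (nat_lit 3298) (nat_lit 202) (.e (nat_lit 573492) (nat_lit 15) (.e (nat_lit 81956) (nat_lit 23) (.e (nat_lit 98323) (nat_lit 17) (.e (nat_lit 6989) (nat_lit 377) .nil))))))) (.g (nat_lit 1) (.e (nat_lit 53799) (nat_lit 0) .nil) .nil)))) (.nd (nat_lit 9) 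
(.lf (nat_lit 460167) (.g (nat_lit 4387) (.e (nat_lit 2810) (nat_lit 180) (.e (nat_lit 303143) (nat_lit 12) (.e (nat_lit 475185) (nat_lit 29) (.e (nat_lit 557097) (nat_lit 13) (.e (nat_lit 172094) (nat_lit 9) .nil))))) (.g (nat_lit 0) (.e (nat_lit 52838) (nat_lit 0) .nil) .nil))) 
(.lf (nat_lit 460679) (.g (nat_lit 8012) (.e (nat_lit 2830) (nat_lit 182) (.e (nat_lit 409649) (nat_lit 18) (.e (nat_lit 303104) (nat_lit 0) (.e (nat_lit 3238) (nat_lit 197) (.e (nat_lit 532535) (nat_lit 9) (.e (nat_lit 336099) (nat_lit 9) (.e (nat_lit 336013) (nat_lit 2) (.e (nat_lit 90130) (nat_lit 9) .nil)))))))) (.g (nat_lit 1) (.e (nat_lit 55314) (nat_lit 0) .nil) .nil)))))) 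
(.nd (nat_lit 7) (.nd (nat_lit 8) (.nd (nat_lit 9) 
(.lf (nat_lit 459847) (.g (nat_lit 3720) (.e (nat_lit 2798) (nat_lit 180) (.e (nat_lit 303143) (nat_lit 12) (.e (nat_lit 475185) (nat_lit 29) (.e (nat_lit 557100) (nat_lit 13) (.e (nat_lit 172113) (nat_lit 10) (.e (nat_lit 434224) (nat_lit 19) (.e (nat_lit 499767) (nat_lit 0) .nil))))))) (.g (nat_lit 1) (.e (nat_lit 51496) (nat_lit 0) .nil) .nil))) 
(.lf (nat_lit 460359) (.g (nat_lit 3922) (.e (nat_lit 2777) (nat_lit 178) (.e (nat_lit 286759) (nat_lit 12) (.e (nat_lit 385074) (nat_lit 31) (.e (nat_lit 573484) (nat_lit 13) (.e (nat_lit 65586) (nat_lit 7) (.e (nat_lit 319500) (nat_lit 10) (.e (nat_lit 558) (nat_lit 41) (.e (nat_lit 499727) (nat_lit 0) .nil)))))))) (.g (nat_lit 1) (.e (nat_lit 53683) (nat_lit 0) .nil) .nil)))) (.nd (nat_lit 9) 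
(.lf (nat_lit 460103) (.g (nat_lit 1671) (.e (nat_lit 2810) (nat_lit 180) (.e (nat_lit 303117) (nat_lit 2) (.e (nat_lit 196674) (nat_lit 15) (.e (nat_lit 81962) (nat_lit 25) .nil)))) (.g (nat_lit 0) (.e (nat_lit 52736) (nat_lit 0) .nil) .nil))) 
(.lf (nat_lit 460615) (.g (nat_lit 3550) (.e (nat_lit 2830) (nat_lit 182) (.e (nat_lit 409646) (nat_lit 18) (.e (nat_lit 303119) (nat_lit 3) (.e (nat_lit 204878) (nat_lit 31) (.e (nat_lit 376865) (nat_lit 22) (.e (nat_lit 90130) (nat_lit 9) .nil)))))) (.g (nat_lit 1) (.e (nat_lit 55083) (nat_lit 0) .nil) .nil))))) (.nd (nat_lit 8) (.nd (nat_lit 9) 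
(.lf (nat_lit 459975) (.g (nat_lit 3473) (.e (nat_lit 2806) (nat_lit 180) (.e (nat_lit 303117) (nat_lit 2) (.e (nat_lit 196666) (nat_lit 13) (.e (nat_lit 65604) (nat_lit 9) .nil)))) (.g (nat_lit 0) (.e (nat_lit 52188) (nat_lit 0) .nil) .nil))) 
(.lf (nat_lit 460487) (.g (nat_lit 1727) (.e (nat_lit 2788) (nat_lit 179) (.e (nat_lit 294973) (nat_lit 28) (.e (nat_lit 434180) (nat_lit 0) (.e (nat_lit 1428) (nat_lit 108) (.e (nat_lit 336421) (nat_lit 28) (.e (nat_lit 434186) (nat_lit 13) .nil)))))) (.g (nat_lit 1) (.e (nat_lit 54068) (nat_lit 0) .nil) .nil)))) (.nd (nat_lit 9) 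
(.lf (nat_lit 460231) (.g (nat_lit 2047) (.e (nat_lit 7936) (nat_lit 180) (.e (nat_lit 303119) (nat_lit 3) (.e (nat_lit 204868) (nat_lit 29) (.e (nat_lit 360466) (nat_lit 3) (.e (nat_lit 516100) (nat_lit 0) .nil))))) (.g (nat_lit 0) (.e (nat_lit 53108) (nat_lit 0) .nil) .nil))) 
(.lf (nat_lit 460743) (.g (nat_lit 4700) (.e (nat_lit 2828) (nat_lit 182) (.e (nat_lit 409617) (nat_lit 10) (.e (nat_lit 632) (nat_lit 50) (.e (nat_lit 573489) (nat_lit 14) (.e (nat_lit 73755) (nat_lit 8) (.e (nat_lit 557105) (nat_lit 14) (.e (nat_lit 180252) (nat_lit 10) (.e (nat_lit 581376) (nat_lit 0) .nil)))))))) (.g (nat_lit 1) (.e (nat_lit 55503) (nat_lit 0) .nil) .nil))))))) 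
(.nd (nat_lit 6) (.nd (nat_lit 7) (.nd (nat_lit 8) (.nd (nat_lit 9) 
(.lf (nat_lit 459815) (.g (nat_lit 2746) (.e (nat_lit 2798) (nat_lit 180) (.e (nat_lit 303143) (nat_lit 12) (.e (nat_lit 475185) (nat_lit 29) (.e (nat_lit 557100) (nat_lit 13) (.e (nat_lit 172088) (nat_lit 9) .nil))))) (.g (nat_lit 0) (.e (nat_lit 51458) (nat_lit 0) .nil) .nil))) 
(.lf (nat_lit 460327) (.g (nat_lit 2047) (.e (nat_lit 2820) (nat_lit 181) (.e (nat_lit 311312) (nat_lit 2) (.e (nat_lit 196672) (nat_lit 15) (.e (nat_lit 81951) (nat_lit 22) (.e (nat_lit 90165) (nat_lit 12) .nil))))) (.g (nat_lit 0) (.e (nat_lit 53615) (nat_lit 0) .nil) .nil)))) (.nd (nat_lit 9) 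
(.lf (nat_lit 460071) (.g (nat_lit 3425) (.e (nat_lit 2810) (nat_lit 180) (.e (nat_lit 303117) (nat_lit 2) (.e (nat_lit 196666) (nat_lit 13) (.e (nat_lit 65599) (nat_lit 9) (.e (nat_lit 336013) (nat_lit 2) (.e (nat_lit 90165) (nat_lit 12) (.e (nat_lit 164208) (nat_lit 176) .nil))))))) (.g (nat_lit 1) (.e (nat_lit 52704) (nat_lit 0) .nil) .nil))) 
(.lf (nat_lit 460583) (.g (nat_lit 2242) (.e (nat_lit 2830) (nat_lit 182) (.e (nat_lit 409643) (nat_lit 18) (.e (nat_lit 303117) (nat_lit 2) (.e (nat_lit 196674) (nat_lit 15) (.e (nat_lit 81952) (nat_lit 22) (.e (nat_lit 90130) (nat_lit 9) .nil)))))) (.g (nat_lit 1) (.e (nat_lit 55027) (nat_lit 0) .nil) .nil))))) (.nd (nat_lit 8) (.nd (nat_lit 9) 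
(.lf (nat_lit 459943) (.g (nat_lit 2532) (.e (nat_lit 2804) (nat_lit 180) (.e (nat_lit 303117) (nat_lit 2) (.e (nat_lit 196672) (nat_lit 15) (.e (nat_lit 81953) (nat_lit 22) .nil)))) (.g (nat_lit 0) (.e (nat_lit 52086) (nat_lit 0) .nil) .nil))) 
(.lf (nat_lit 460455) (.g (nat_lit 3169) (.e (nat_lit 2781) (nat_lit 178) (.e (nat_lit 286765) (nat_lit 15) (.e (nat_lit 3304) (nat_lit 202) (.e (nat_lit 573482) (nat_lit 13) (.e (nat_lit 65604) (nat_lit 9) (.e (nat_lit 336028) (nat_lit 3) (.e (nat_lit 98325) (nat_lit 17) (.e (nat_lit 6986) (nat_lit 377) .nil)))))))) (.g (nat_lit 1) (.e (nat_lit 53885) (nat_lit 0) .nil) .nil)))) (.nd (nat_lit 9) 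
(.lf (nat_lit 460199) (.g (nat_lit 3248) (.e (nat_lit 2812) (nat_lit 180) (.e (nat_lit 303117) (nat_lit 2) (.e (nat_lit 196666) (nat_lit 13) (.e (nat_lit 65610) (nat_lit 10) (.e (nat_lit 344129) (nat_lit 26) .nil))))) (.g (nat_lit 0) (.e (nat_lit 53029) (nat_lit 0) .nil) .nil))) 
(.lf (nat_lit 460711) (.g (nat_lit 5121) (.e (nat_lit 2830) (nat_lit 182) (.e (nat_lit 409649) (nat_lit 18) (.e (nat_lit 303116) (nat_lit 2) (.e (nat_lit 196672) (nat_lit 15) (.e (nat_lit 81953) (nat_lit 22) (.e (nat_lit 90130) (nat_lit 9) .nil)))))) (.g (nat_lit 1) (.e (nat_lit 55357) (nat_lit 0) .nil) .nil)))))) (.nd (nat_lit 7) (.nd (nat_lit 8) (.nd (nat_lit 9) 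
(.lf (nat_lit 459879) (.g (nat_lit 2682) (.e (nat_lit 2798) (nat_lit 180) (.e (nat_lit 303143) (nat_lit 12) (.e (nat_lit 475185) (nat_lit 29) (.e (nat_lit 557107) (nat_lit 15) (.e (nat_lit 188448) (nat_lit 22) .nil))))) (.g (nat_lit 0) (.e (nat_lit 51553) (nat_lit 0) .nil) .nil))) 
(.lf (nat_lit 460391) (.g (nat_lit 5282) (.e (nat_lit 2777) (nat_lit 178) (.e (nat_lit 286765) (nat_lit 15) (.e (nat_lit 3308) (nat_lit 202) (.e (nat_lit 573493) (nat_lit 15) (.e (nat_lit 81956) (nat_lit 23) (.e (nat_lit 98323) (nat_lit 17) (.e (nat_lit 6989) (nat_lit 377) .nil))))))) (.g (nat_lit 1) (.e (nat_lit 53723) (nat_lit 0) .nil) .nil)))) (.nd (nat_lit 9) 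
(.lf (nat_lit 460135) (.g (nat_lit 4389) (.e (nat_lit 2810) (nat_lit 180) (.e (nat_lit 303119) (nat_lit 3) (.e (nat_lit 204866) (nat_lit 28) (.e (nat_lit 352315) (nat_lit 23) (.e (nat_lit 98323) (nat_lit 17) (.e (nat_lit 6989) (nat_lit 377) .nil)))))) (.g (nat_lit 1) (.e (nat_lit 52783) (nat_lit 0) .nil) .nil))) 
(.lf (nat_lit 460647) (.g (nat_lit 4462) (.e (nat_lit 2830) (nat_lit 182) (.e (nat_lit 409648) (nat_lit 18) (.e (nat_lit 303116) (nat_lit 2) (.e (nat_lit 196671) (nat_lit 15) (.e (nat_lit 81953) (nat_lit 22) (.e (nat_lit 90130) (nat_lit 9) .nil)))))) (.g (nat_lit 1) (.e (nat_lit 55143) (nat_lit 0) .nil) .nil))))) (.nd (nat_lit 8) (.nd (nat_lit 9) 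
(.lf (nat_lit 460007) (.g (nat_lit 2381) (.e (nat_lit 2808) (nat_lit 180) (.e (nat_lit 303116) (nat_lit 2) (.e (nat_lit 196666) (nat_lit 13) (.e (nat_lit 65617) (nat_lit 10) (.e (nat_lit 344130) (nat_lit 26) .nil))))) (.g (nat_lit 0) (.e (nat_lit 52311) (nat_lit 0) .nil) .nil))) 
(.lf (nat_lit 460519) (.g (nat_lit 664) (.e (nat_lit 2822) (nat_lit 182) (.e (nat_lit 409645) (nat_lit 18) (.e (nat_lit 303106) (nat_lit 0) .nil))) (.g (nat_lit 0) (.e (nat_lit 54271) (nat_lit 0) .nil) .nil)))) (.nd (nat_lit 9) 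
(.lf (nat_lit 460263) (.g (nat_lit 3305) (.e (nat_lit 2816) (nat_lit 181) (.e (nat_lit 311312) (nat_lit 2) (.e (nat_lit 196666) (nat_lit 13) (.e (nat_lit 65610) (nat_lit 10) (.e (nat_lit 344117) (nat_lit 21) (.e (nat_lit 516096) (nat_lit 0) (.e (nat_lit 6980) (nat_lit 377) .nil))))))) (.g (nat_lit 1) (.e (nat_lit 53302) (nat_lit 0) .nil) .nil))) 
(.lf (nat_lit 460775) (.g (nat_lit 3105) (.e (nat_lit 2842) (nat_lit 184) (.e (nat_lit 426211) (nat_lit 9) (.e (nat_lit 426125) (nat_lit 2) (.e (nat_lit 196627) (nat_lit 9) .nil)))) (.g (nat_lit 0) (.e (nat_lit 56160) (nat_lit 0) .nil) .nil)))))))) (.nd (nat_lit 5) (.nd (nat_lit 6) (.nd (nat_lit 7) (.nd (nat_lit 8) (.nd (nat_lit 9) 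
(.lf (nat_lit 459799) (.g (nat_lit 3135) (.e (nat_lit 2798) (nat_lit 180) (.e (nat_lit 303143) (nat_lit 12) (.e (nat_lit 475184) (nat_lit 29) (.e (nat_lit 557109) (nat_lit 15) (.e (nat_lit 188449) (nat_lit 22) (.e (nat_lit 204544) (nat_lit 18) .nil)))))) (.g (nat_lit 1) (.e (nat_lit 51378) (nat_lit 0) .nil) .nil))) 
(.lf (nat_lit 460311) (.g (nat_lit 2220) (.e (nat_lit 2819) (nat_lit 181) (.e (nat_lit 311312) (nat_lit 2) (.e (nat_lit 196672) (nat_lit 15) (.e (nat_lit 81954) (nat_lit 23) (.e (nat_lit 98323) (nat_lit 17) (.e (nat_lit 6967) (nat_lit 377) .nil)))))) (.g (nat_lit 1) (.e (nat_lit 53522) (nat_lit 0) .nil) .nil)))) (.nd (nat_lit 9) 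
(.lf (nat_lit 460055) (.g (nat_lit 3364) (.e (nat_lit 2809) (nat_lit 180) (.e (nat_lit 303117) (nat_lit 2) (.e (nat_lit 196672) (nat_lit 15) (.e (nat_lit 81954) (nat_lit 23) (.e (nat_lit 98323) (nat_lit 17) (.e (nat_lit 6983) (nat_lit 377) .nil)))))) (.g (nat_lit 1) (.e (nat_lit 52542) (nat_lit 0) .nil) .nil))) 
(.lf (nat_lit 460567) (.g (nat_lit 396) (.e (nat_lit 2829) (nat_lit 182) (.e (nat_lit 409648) (nat_lit 18) (.e (nat_lit 303119) (nat_lit 3) .nil))) (.g (nat_lit 0) (.e (nat_lit 54915) (nat_lit 0) .nil) .nil))))) (.nd (nat_lit 8) (.nd (nat_lit 9) 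
(.lf (nat_lit 459927) (.g (nat_lit 1826) (.e (nat_lit 2802) (nat_lit 180) (.e (nat_lit 303117) (nat_lit 2) (.e (nat_lit 196673) (nat_lit 15) (.e (nat_lit 81956) (nat_lit 23) .nil)))) (.g (nat_lit 0) (.e (nat_lit 51941) (nat_lit 0) .nil) .nil))) 
(.lf (nat_lit 460439) (.g (nat_lit 1750) (.e (nat_lit 2779) (nat_lit 178) (.e (nat_lit 286768) (nat_lit 27) (.e (nat_lit 426340) (nat_lit 14) (.e (nat_lit 491550) (nat_lit 9) (.e (nat_lit 336421) (nat_lit 28) (.e (nat_lit 434186) (nat_lit 13) .nil)))))) (.g (nat_lit 1) (.e (nat_lit 53819) (nat_lit 0) .nil) .nil)))) (.nd (nat_lit 9) 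
(.lf (nat_lit 460183) (.g (nat_lit 2945) (.e (nat_lit 2810) (nat_lit 180) (.e (nat_lit 303143) (nat_lit 12) (.e (nat_lit 475220) (nat_lit 44) (.e (nat_lit 737318) (nat_lit 15) (.e (nat_lit 49188) (nat_lit 11) (.e (nat_lit 16392) (nat_lit 0) (.e (nat_lit 6989) (nat_lit 377) .nil))))))) (.g (nat_lit 1) (.e (nat_lit 52870) (nat_lit 0) .nil) .nil))) 
(.lf (nat_lit 460695) (.g (nat_lit 2487) (.e (nat_lit 2830) (nat_lit 182) (.e (nat_lit 409649) (nat_lit 18) (.e (nat_lit 303112) (nat_lit 0) (.e (nat_lit 3252) (nat_lit 197) (.e (nat_lit 532560) (nat_lit 14) (.e (nat_lit 376865) (nat_lit 22) (.e (nat_lit 90130) (nat_lit 9) .nil))))))) (.g (nat_lit 1) (.e (nat_lit 55334) (nat_lit 0) .nil) .nil)))))) 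
(.nd (nat_lit 7) (.nd (nat_lit 8) (.nd (nat_lit 9) 
(.lf (nat_lit 459863) (.g (nat_lit 2744) (.e (nat_lit 2798) (nat_lit 180) (.e (nat_lit 303143) (nat_lit 12) (.e (nat_lit 475185) (nat_lit 29) (.e (nat_lit 557101) (nat_lit 13) (.e (nat_lit 172098) (nat_lit 9) (.e (nat_lit 426125) (nat_lit 2) (.e (nat_lit 204544) (nat_lit 18) .nil))))))) (.g (nat_lit 1) (.e (nat_lit 51518) (nat_lit 0) .nil) .nil))) 
(.lf (nat_lit 460375) (.g (nat_lit 3778) (.e (nat_lit 2777) (nat_lit 178) (.e (nat_lit 286765) (nat_lit 15) (.e (nat_lit 3307) (nat_lit 202) (.e (nat_lit 573482) (nat_lit 13) (.e (nat_lit 65619) (nat_lit 10) (.e (nat_lit 344117) (nat_lit 21) (.e (nat_lit 516106) (nat_lit 0) (.e (nat_lit 6986) (nat_lit 377) .nil)))))))) (.g (nat_lit 1) (.e (nat_lit 53707) (nat_lit 0) .nil) .nil)))) 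
(.nd (nat_lit 9) 
(.lf (nat_lit 460119) (.g (nat_lit 2680) (.e (nat_lit 2810) (nat_lit 180) (.e (nat_lit 303119) (nat_lit 3) (.e (nat_lit 204855) (nat_lit 26) (.e (nat_lit 336173) (nat_lit 10) (.e (nat_lit 344117) (nat_lit 21) .nil))))) (.g (nat_lit 0) (.e (nat_lit 52765) (nat_lit 0) .nil) .nil))) 
(.lf (nat_lit 460631) (.g (nat_lit 2352) (.e (nat_lit 2830) (nat_lit 182) (.e (nat_lit 409648) (nat_lit 18) (.e (nat_lit 303104) (nat_lit 0) (.e (nat_lit 3238) (nat_lit 197) (.e (nat_lit 532561) (nat_lit 14) (.e (nat_lit 376862) (nat_lit 22) (.e (nat_lit 90130) (nat_lit 9) .nil))))))) (.g (nat_lit 1) (.e (nat_lit 55121) (nat_lit 0) .nil) .nil))))) (.nd (nat_lit 8) (.nd (nat_lit 9) 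
(.lf (nat_lit 459991) (.g (nat_lit 3701) (.e (nat_lit 2807) (nat_lit 180) (.e (nat_lit 303137) (nat_lit 10) (.e (nat_lit 434295) (nat_lit 49) (.e (nat_lit 745491) (nat_lit 4) (.e (nat_lit 65610) (nat_lit 10) (.e (nat_lit 344129) (nat_lit 26) (.e (nat_lit 557119) (nat_lit 18) .nil))))))) (.g (nat_lit 1) (.e (nat_lit 52280) (nat_lit 0) .nil) .nil))) 
(.lf (nat_lit 460503) (.g (nat_lit 2096) (.e (nat_lit 2789) (nat_lit 179) (.e (nat_lit 294973) (nat_lit 28) (.e (nat_lit 434180) (nat_lit 0) (.e (nat_lit 1428) (nat_lit 108) (.e (nat_lit 336421) (nat_lit 28) (.e (nat_lit 434186) (nat_lit 13) .nil)))))) (.g (nat_lit 1) (.e (nat_lit 54177) (nat_lit 0) .nil) .nil)))) (.nd (nat_lit 9) 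
(.lf (nat_lit 460247) (.g (nat_lit 2107) (.e (nat_lit 2814) (nat_lit 181) (.e (nat_lit 311312) (nat_lit 2) (.e (nat_lit 196672) (nat_lit 15) (.e (nat_lit 81954) (nat_lit 23) (.e (nat_lit 98321) (nat_lit 17) (.e (nat_lit 7062) (nat_lit 377) .nil)))))) (.g (nat_lit 1) (.e (nat_lit 53242) (nat_lit 0) .nil) .nil))) 
(.lf (nat_lit 460759) (.g (nat_lit 2074) (.e (nat_lit 7936) (nat_lit 182) (.e (nat_lit 409645) (nat_lit 18) (.e (nat_lit 303119) (nat_lit 3) (.e (nat_lit 204877) (nat_lit 31) (.e (nat_lit 376864) (nat_lit 22) .nil))))) (.g (nat_lit 0) (.e (nat_lit 56101) (nat_lit 0) .nil) .nil))))))) (.nd (nat_lit 6) (.nd (nat_lit 7) (.nd (nat_lit 8) (.nd (nat_lit 9) 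
(.lf (nat_lit 459831) (.g (nat_lit 2647) (.e (nat_lit 2798) (nat_lit 180) (.e (nat_lit 303143) (nat_lit 12) (.e (nat_lit 475185) (nat_lit 29) (.e (nat_lit 557100) (nat_lit 13) (.e (nat_lit 172106) (nat_lit 10) (.e (nat_lit 434217) (nat_lit 19) (.e (nat_lit 499728) (nat_lit 0) .nil))))))) (.g (nat_lit 1) (.e (nat_lit 51474) (nat_lit 0) .nil) .nil))) 
(.lf (nat_lit 460343) (.g (nat_lit 3233) (.e (nat_lit 2777) (nat_lit 178) (.e (nat_lit 286735) (nat_lit 3) (.e (nat_lit 98350) (nat_lit 24) (.e (nat_lit 409649) (nat_lit 18) (.e (nat_lit 303117) (nat_lit 2) (.e (nat_lit 196661) (nat_lit 12) (.e (nat_lit 57711) (nat_lit 176) .nil))))))) (.g (nat_lit 1) (.e (nat_lit 53667) (nat_lit 0) .nil) .nil)))) (.nd (nat_lit 9) 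
(.lf (nat_lit 460087) (.g (nat_lit 2992) (.e (nat_lit 2810) (nat_lit 180) (.e (nat_lit 303117) (nat_lit 2) (.e (nat_lit 196673) (nat_lit 15) (.e (nat_lit 81956) (nat_lit 23) (.e (nat_lit 98318) (nat_lit 17) (.e (nat_lit 6989) (nat_lit 377) .nil)))))) (.g (nat_lit 1) (.e (nat_lit 52720) (nat_lit 0) .nil) .nil))) 
(.lf (nat_lit 460599) (.g (nat_lit 977) (.e (nat_lit 2830) (nat_lit 182) (.e (nat_lit 409646) (nat_lit 18) (.e (nat_lit 303112) (nat_lit 0) .nil))) (.g (nat_lit 0) (.e (nat_lit 55057) (nat_lit 0) .nil) .nil))))) (.nd (nat_lit 8) (.nd (nat_lit 9) 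
(.lf (nat_lit 459959) (.g (nat_lit 1794) (.e (nat_lit 2804) (nat_lit 180) (.e (nat_lit 303143) (nat_lit 12) (.e (nat_lit 475185) (nat_lit 29) (.e (nat_lit 557100) (nat_lit 13) .nil)))) (.g (nat_lit 0) (.e (nat_lit 52125) (nat_lit 0) .nil) .nil))) 
(.lf (nat_lit 460471) (.g (nat_lit 3536) (.e (nat_lit 2787) (nat_lit 179) (.e (nat_lit 294966) (nat_lit 15) (.e (nat_lit 3308) (nat_lit 202) (.e (nat_lit 573482) (nat_lit 13) (.e (nat_lit 65604) (nat_lit 9) (.e (nat_lit 336013) (nat_lit 2) (.e (nat_lit 90165) (nat_lit 12) (.e (nat_lit 164210) (nat_lit 176) .nil)))))))) (.g (nat_lit 1) (.e (nat_lit 53972) (nat_lit 0) .nil) .nil)))) 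
(.nd (nat_lit 9) 
(.lf (nat_lit 460215) (.g (nat_lit 3258) (.e (nat_lit 7936) (nat_lit 180) (.e (nat_lit 303117) (nat_lit 2) (.e (nat_lit 196666) (nat_lit 13) (.e (nat_lit 65619) (nat_lit 10) (.e (nat_lit 344117) (nat_lit 21) .nil))))) (.g (nat_lit 0) (.e (nat_lit 53082) (nat_lit 0) .nil) .nil))) 
(.lf (nat_lit 460727) (.g (nat_lit 2305) (.e (nat_lit 2830) (nat_lit 182) (.e (nat_lit 409649) (nat_lit 18) (.e (nat_lit 303118) (nat_lit 3) (.e (nat_lit 204877) (nat_lit 31) (.e (nat_lit 376862) (nat_lit 22) (.e (nat_lit 90130) (nat_lit 9) .nil)))))) (.g (nat_lit 1) (.e (nat_lit 55384) (nat_lit 0) .nil) .nil)))))) (.nd (nat_lit 7) (.nd (nat_lit 8) (.nd (nat_lit 9) 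
(.lf (nat_lit 459895) (.g (nat_lit 2931) (.e (nat_lit 2798) (nat_lit 180) (.e (nat_lit 303143) (nat_lit 12) (.e (nat_lit 475211) (nat_lit 41) (.e (nat_lit 712755) (nat_lit 30) (.e (nat_lit 450596) (nat_lit 17) (.e (nat_lit 671488) (nat_lit 14) .nil)))))) (.g (nat_lit 1) (.e (nat_lit 51617) (nat_lit 0) .nil) .nil))) 
(.lf (nat_lit 460407) (.g (nat_lit 1704) (.e (nat_lit 2777) (nat_lit 178) (.e (nat_lit 286771) (nat_lit 29) (.e (nat_lit 442379) (nat_lit 0) (.e (nat_lit 2175) (nat_lit 143) (.e (nat_lit 712747) (nat_lit 28) (.e (nat_lit 434187) (nat_lit 13) .nil)))))) (.g (nat_lit 1) (.e (nat_lit 53759) (nat_lit 0) .nil) .nil)))) (.nd (nat_lit 9) 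
(.lf (nat_lit 460151) (.g (nat_lit 2947) (.e (nat_lit 2810) (nat_lit 180) (.e (nat_lit 303119) (nat_lit 3) (.e (nat_lit 204869) (nat_lit 29) (.e (nat_lit 360465) (nat_lit 3) .nil)))) (.g (nat_lit 0) (.e (nat_lit 52801) (nat_lit 0) .nil) .nil))) 
(.lf (nat_lit 460663) (.g (nat_lit 5777) (.e (nat_lit 2830) (nat_lit 182) (.e (nat_lit 409648) (nat_lit 18) (.e (nat_lit 303117) (nat_lit 2) (.e (nat_lit 196674) (nat_lit 15) (.e (nat_lit 81953) (nat_lit 22) (.e (nat_lit 90130) (nat_lit 9) .nil)))))) (.g (nat_lit 1) (.e (nat_lit 55180) (nat_lit 0) .nil) .nil))))) (.nd (nat_lit 8) (.nd (nat_lit 9) 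
(.lf (nat_lit 460023) (.g (nat_lit 3455) (.e (nat_lit 2808) (nat_lit 180) (.e (nat_lit 303119) (nat_lit 3) (.e (nat_lit 204868) (nat_lit 29) (.e (nat_lit 360466) (nat_lit 3) (.e (nat_lit 516100) (nat_lit 0) .nil))))) (.g (nat_lit 0) (.e (nat_lit 52346) (nat_lit 0) .nil) .nil))) 
(.lf (nat_lit 460535) (.g (nat_lit 1248) (.e (nat_lit 2824) (nat_lit 182) (.e (nat_lit 409645) (nat_lit 18) (.e (nat_lit 303117) (nat_lit 2) (.e (nat_lit 204544) (nat_lit 15) .nil)))) (.g (nat_lit 0) (.e (nat_lit 54534) (nat_lit 0) .nil) .nil)))) (.nd (nat_lit 9) 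
(.lf (nat_lit 460279) (.g (nat_lit 3047) (.e (nat_lit 2816) (nat_lit 181) (.e (nat_lit 311312) (nat_lit 2) (.e (nat_lit 196672) (nat_lit 15) (.e (nat_lit 81954) (nat_lit 23) (.e (nat_lit 98323) (nat_lit 17) (.e (nat_lit 6996) (nat_lit 377) .nil)))))) (.g (nat_lit 1) (.e (nat_lit 53321) (nat_lit 0) .nil) .nil))) 
(.lf (nat_lit 460791) (.g (nat_lit 1663) (.e (nat_lit 2842) (nat_lit 184) (.e (nat_lit 426555) (nat_lit 32) (.e (nat_lit 376857) (nat_lit 21) (.e (nat_lit 57872) (nat_lit 264) .nil)))) (.g (nat_lit 0) (.e (nat_lit 56198) (nat_lit 0) .nil) .nil))))))))) (.nd (nat_lit 4) (.nd (nat_lit 5) (.nd (nat_lit 6) (.nd (nat_lit 7) (.nd (nat_lit 8) (.nd (nat_lit 9) 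
(.lf (nat_lit 459791) (.g (nat_lit 3143) (.e (nat_lit 2798) (nat_lit 180) (.e (nat_lit 303133) (nat_lit 9) (.e (nat_lit 426499) (nat_lit 27) (.e (nat_lit 336107) (nat_lit 9) (.e (nat_lit 336032) (nat_lit 4) (.e (nat_lit 123195) (nat_lit 266) (.e (nat_lit 57346) (nat_lit 0) (.e (nat_lit 6203) (nat_lit 332) .nil)))))))) (.g (nat_lit 1) (.e (nat_lit 51212) (nat_lit 0) .nil) .nil))) 
(.lf (nat_lit 460303) (.g (nat_lit 2372) (.e (nat_lit 2818) (nat_lit 181) (.e (nat_lit 311312) (nat_lit 2) (.e (nat_lit 196672) (nat_lit 15) (.e (nat_lit 81954) (nat_lit 23) (.e (nat_lit 98320) (nat_lit 17) (.e (nat_lit 6948) (nat_lit 377) .nil)))))) (.g (nat_lit 1) (.e (nat_lit 53510) (nat_lit 0) .nil) .nil)))) (.nd (nat_lit 9) 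
(.lf (nat_lit 460047) (.g (nat_lit 4033) (.e (nat_lit 2809) (nat_lit 180) (.e (nat_lit 303117) (nat_lit 2) (.e (nat_lit 196666) (nat_lit 13) (.e (nat_lit 65610) (nat_lit 10) (.e (nat_lit 344117) (nat_lit 21) (.e (nat_lit 516106) (nat_lit 0) (.e (nat_lit 7936) (nat_lit 377) .nil))))))) (.g (nat_lit 1) (.e (nat_lit 52534) (nat_lit 0) .nil) .nil))) 
(.lf (nat_lit 460559) (.g (nat_lit 2701) (.e (nat_lit 2829) (nat_lit 182) (.e (nat_lit 409647) (nat_lit 18) (.e (nat_lit 303117) (nat_lit 2) (.e (nat_lit 196674) (nat_lit 15) (.e (nat_lit 81962) (nat_lit 25) .nil))))) (.g (nat_lit 0) (.e (nat_lit 54886) (nat_lit 0) .nil) .nil))))) (.nd (nat_lit 8) (.nd (nat_lit 9) 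
(.lf (nat_lit 459919) (.g (nat_lit 4835) (.e (nat_lit 2800) (nat_lit 180) (.e (nat_lit 303143) (nat_lit 12) (.e (nat_lit 475185) (nat_lit 29) (.e (nat_lit 557098) (nat_lit 13) (.e (nat_lit 172094) (nat_lit 9) .nil))))) (.g (nat_lit 0) (.e (nat_lit 51882) (nat_lit 0) .nil) .nil))) 
(.lf (nat_lit 460431) (.g (nat_lit 3920) (.e (nat_lit 2779) (nat_lit 178) (.e (nat_lit 286765) (nat_lit 15) (.e (nat_lit 3308) (nat_lit 202) (.e (nat_lit 573482) (nat_lit 13) (.e (nat_lit 65604) (nat_lit 9) (.e (nat_lit 336013) (nat_lit 2) (.e (nat_lit 90165) (nat_lit 12) (.e (nat_lit 164208) (nat_lit 176) .nil)))))))) (.g (nat_lit 1) (.e (nat_lit 53808) (nat_lit 0) .nil) .nil)))) 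
(.nd (nat_lit 9) 
(.lf (nat_lit 460175) (.g (nat_lit 2144) (.e (nat_lit 2810) (nat_lit 180) (.e (nat_lit 303143) (nat_lit 12) (.e (nat_lit 475212) (nat_lit 42) (.e (nat_lit 720948) (nat_lit 24) (.e (nat_lit 106534) (nat_lit 11) (.e (nat_lit 16392) (nat_lit 0) (.e (nat_lit 6989) (nat_lit 377) .nil))))))) (.g (nat_lit 1) (.e (nat_lit 52860) (nat_lit 0) .nil) .nil))) 
(.lf (nat_lit 460687) (.g (nat_lit 939) (.e (nat_lit 2830) (nat_lit 182) (.e (nat_lit 409649) (nat_lit 18) (.e (nat_lit 303106) (nat_lit 0) .nil))) (.g (nat_lit 0) (.e (nat_lit 55325) (nat_lit 0) .nil) .nil)))))) (.nd (nat_lit 7) (.nd (nat_lit 8) (.nd (nat_lit 9) 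
(.lf (nat_lit 459855) (.g (nat_lit 2441) (.e (nat_lit 2798) (nat_lit 180) (.e (nat_lit 303143) (nat_lit 12) (.e (nat_lit 475185) (nat_lit 29) (.e (nat_lit 557101) (nat_lit 13) (.e (nat_lit 172100) (nat_lit 9) (.e (nat_lit 426113) (nat_lit 2) (.e (nat_lit 204544) (nat_lit 18) .nil))))))) (.g (nat_lit 1) (.e (nat_lit 51504) (nat_lit 0) .nil) .nil))) 
(.lf (nat_lit 460367) (.g (nat_lit 2713) (.e (nat_lit 2777) (nat_lit 178) (.e (nat_lit 286765) (nat_lit 15) (.e (nat_lit 3298) (nat_lit 202) (.e (nat_lit 573492) (nat_lit 15) (.e (nat_lit 81956) (nat_lit 23) (.e (nat_lit 98325) (nat_lit 17) (.e (nat_lit 6966) (nat_lit 377) .nil))))))) (.g (nat_lit 1) (.e (nat_lit 53695) (nat_lit 0) .nil) .nil)))) (.nd (nat_lit 9) 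
(.lf (nat_lit 460111) (.g (nat_lit 2552) (.e (nat_lit 2810) (nat_lit 180) (.e (nat_lit 303119) (nat_lit 3) (.e (nat_lit 204849) (nat_lit 25) (.e (nat_lit 327699) (nat_lit 8) (.e (nat_lit 303118) (nat_lit 3) (.e (nat_lit 204819) (nat_lit 17) (.e (nat_lit 6113) (nat_lit 332) .nil))))))) (.g (nat_lit 1) (.e (nat_lit 52747) (nat_lit 0) .nil) .nil))) 
(.lf (nat_lit 460623) (.g (nat_lit 2101) (.e (nat_lit 2830) (nat_lit 182) (.e (nat_lit 409647) (nat_lit 18) (.e (nat_lit 303119) (nat_lit 3) (.e (nat_lit 204878) (nat_lit 31) (.e (nat_lit 376865) (nat_lit 22) (.e (nat_lit 90130) (nat_lit 9) .nil)))))) (.g (nat_lit 1) (.e (nat_lit 55109) (nat_lit 0) .nil) .nil))))) (.nd (nat_lit 8) (.nd (nat_lit 9) 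
(.lf (nat_lit 459983) (.g (nat_lit 2813) (.e (nat_lit 2807) (nat_lit 180) (.e (nat_lit 303137) (nat_lit 10) (.e (nat_lit 434229) (nat_lit 22) (.e (nat_lit 524340) (nat_lit 28) (.e (nat_lit 352322) (nat_lit 26) (.e (nat_lit 147511) (nat_lit 14) .nil)))))) (.g (nat_lit 1) (.e (nat_lit 52260) (nat_lit 0) .nil) .nil))) 
(.lf (nat_lit 460495) (.g (nat_lit 2457) (.e (nat_lit 2788) (nat_lit 179) (.e (nat_lit 294974) (nat_lit 29) (.e (nat_lit 442379) (nat_lit 0) (.e (nat_lit 2059) (nat_lit 142) (.e (nat_lit 704595) (nat_lit 5) (.e (nat_lit 180284) (nat_lit 45) .nil)))))) (.g (nat_lit 1) (.e (nat_lit 54095) (nat_lit 0) .nil) .nil)))) (.nd (nat_lit 9) 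
(.lf (nat_lit 460239) (.g (nat_lit 2827) (.e (nat_lit 2813) (nat_lit 181) (.e (nat_lit 311312) (nat_lit 2) (.e (nat_lit 196672) (nat_lit 15) (.e (nat_lit 81951) (nat_lit 22) (.e (nat_lit 90165) (nat_lit 12) (.e (nat_lit 164207) (nat_lit 176) .nil)))))) (.g (nat_lit 1) (.e (nat_lit 53224) (nat_lit 0) .nil) .nil))) 
(.lf (nat_lit 460751) (.g (nat_lit 3143) (.e (nat_lit 2828) (nat_lit 182) (.e (nat_lit 409646) (nat_lit 18) (.e (nat_lit 303117) (nat_lit 2) (.e (nat_lit 196672) (nat_lit 15) (.e (nat_lit 81951) (nat_lit 22) (.e (nat_lit 90129) (nat_lit 9) .nil)))))) (.g (nat_lit 1) (.e (nat_lit 55568) (nat_lit 0) .nil) .nil))))))) (.nd (nat_lit 6) (.nd (nat_lit 7) (.nd (nat_lit 8) (.nd (nat_lit 9) 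
(.lf (nat_lit 459823) (.g (nat_lit 4416) (.e (nat_lit 2798) (nat_lit 180) (.e (nat_lit 303143) (nat_lit 12) (.e (nat_lit 475185) (nat_lit 29) (.e (nat_lit 557100) (nat_lit 13) (.e (nat_lit 172095) (nat_lit 9) (.e (nat_lit 426125) (nat_lit 2) (.e (nat_lit 204544) (nat_lit 18) .nil))))))) (.g (nat_lit 1) (.e (nat_lit 51466) (nat_lit 0) .nil) .nil))) 
(.lf (nat_lit 460335) (.g (nat_lit 1431) (.e (nat_lit 2777) (nat_lit 178) (.e (nat_lit 286735) (nat_lit 3) (.e (nat_lit 98323) (nat_lit 17) (.e (nat_lit 6989) (nat_lit 377) (.e (nat_lit 2810) (nat_lit 180) .nil))))) (.g (nat_lit 0) (.e (nat_lit 53659) (nat_lit 0) .nil) .nil)))) (.nd (nat_lit 9) 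
(.lf (nat_lit 460079) (.g (nat_lit 2711) (.e (nat_lit 2810) (nat_lit 180) (.e (nat_lit 303117) (nat_lit 2) (.e (nat_lit 196666) (nat_lit 13) (.e (nat_lit 65630) (nat_lit 14) .nil)))) (.g (nat_lit 0) (.e (nat_lit 52712) (nat_lit 0) .nil) .nil))) 
(.lf (nat_lit 460591) (.g (nat_lit 2073) (.e (nat_lit 2830) (nat_lit 182) (.e (nat_lit 409645) (nat_lit 18) (.e (nat_lit 303117) (nat_lit 2) (.e (nat_lit 196672) (nat_lit 15) .nil)))) (.g (nat_lit 0) (.e (nat_lit 55044) (nat_lit 0) .nil) .nil))))) (.nd (nat_lit 8) (.nd (nat_lit 9) 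
(.lf (nat_lit 459951) (.g (nat_lit 934) (.e (nat_lit 2804) (nat_lit 180) (.e (nat_lit 303119) (nat_lit 3) (.e (nat_lit 204867) (nat_lit 28) .nil))) (.g (nat_lit 0) (.e (nat_lit 52102) (nat_lit 0) .nil) .nil))) 
(.lf (nat_lit 460463) (.g (nat_lit 2179) (.e (nat_lit 2782) (nat_lit 178) (.e (nat_lit 286768) (nat_lit 27) (.e (nat_lit 426338) (nat_lit 14) (.e (nat_lit 491549) (nat_lit 9) (.e (nat_lit 336421) (nat_lit 28) (.e (nat_lit 434187) (nat_lit 13) .nil)))))) (.g (nat_lit 1) (.e (nat_lit 53898) (nat_lit 0) .nil) .nil)))) (.nd (nat_lit 9) 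
(.lf (nat_lit 460207) (.g (nat_lit 3159) (.e (nat_lit 2812) (nat_lit 180) (.e (nat_lit 303143) (nat_lit 12) (.e (nat_lit 475185) (nat_lit 29) (.e (nat_lit 557098) (nat_lit 13) .nil)))) (.g (nat_lit 0) (.e (nat_lit 53038) (nat_lit 0) .nil) .nil))) 
(.lf (nat_lit 460719) (.g (nat_lit 2853) (.e (nat_lit 2830) (nat_lit 182) (.e (nat_lit 409649) (nat_lit 18) (.e (nat_lit 303117) (nat_lit 2) (.e (nat_lit 196672) (nat_lit 15) (.e (nat_lit 81952) (nat_lit 22) (.e (nat_lit 90130) (nat_lit 9) .nil)))))) (.g (nat_lit 1) (.e (nat_lit 55367) (nat_lit 0) .nil) .nil)))))) (.nd (nat_lit 7) (.nd (nat_lit 8) (.nd (nat_lit 9) 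
(.lf (nat_lit 459887) (.g (nat_lit 3823) (.e (nat_lit 2798) (nat_lit 180) (.e (nat_lit 303143) (nat_lit 12) (.e (nat_lit 475185) (nat_lit 29) (.e (nat_lit 557109) (nat_lit 15) (.e (nat_lit 188457) (nat_lit 25) (.e (nat_lit 245797) (nat_lit 18) .nil)))))) (.g (nat_lit 1) (.e (nat_lit 51561) (nat_lit 0) .nil) .nil))) 
(.lf (nat_lit 460399) (.g (nat_lit 1394) (.e (nat_lit 2777) (nat_lit 178) (.e (nat_lit 286770) (nat_lit 28) (.e (nat_lit 434180) (nat_lit 0) (.e (nat_lit 1428) (nat_lit 108) (.e (nat_lit 336421) (nat_lit 28) (.e (nat_lit 434187) (nat_lit 13) .nil)))))) (.g (nat_lit 1) (.e (nat_lit 53739) (nat_lit 0) .nil) .nil)))) (.nd (nat_lit 9) 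
(.lf (nat_lit 460143) (.g (nat_lit 1835) (.e (nat_lit 2810) (nat_lit 180) (.e (nat_lit 303119) (nat_lit 3) (.e (nat_lit 204868) (nat_lit 29) (.e (nat_lit 360459) (nat_lit 1) .nil)))) (.g (nat_lit 0) (.e (nat_lit 52791) (nat_lit 0) .nil) .nil))) 
(.lf (nat_lit 460655) (.g (nat_lit 5088) (.e (nat_lit 2830) (nat_lit 182) (.e (nat_lit 409648) (nat_lit 18) (.e (nat_lit 303117) (nat_lit 2) (.e (nat_lit 196671) (nat_lit 15) (.e (nat_lit 81953) (nat_lit 22) (.e (nat_lit 90130) (nat_lit 9) .nil)))))) (.g (nat_lit 1) (.e (nat_lit 55172) (nat_lit 0) .nil) .nil))))) (.nd (nat_lit 8) (.nd (nat_lit 9) 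
(.lf (nat_lit 460015) (.g (nat_lit 2036) (.e (nat_lit 2808) (nat_lit 180) (.e (nat_lit 303118) (nat_lit 3) (.e (nat_lit 204855) (nat_lit 26) (.e (nat_lit 336226) (nat_lit 14) (.e (nat_lit 401425) (nat_lit 2) .nil))))) (.g (nat_lit 0) (.e (nat_lit 52320) (nat_lit 0) .nil) .nil))) 
(.lf (nat_lit 460527) (.g (nat_lit 2923) (.e (nat_lit 2823) (nat_lit 182) (.e (nat_lit 409646) (nat_lit 18) (.e (nat_lit 303117) (nat_lit 2) (.e (nat_lit 196630) (nat_lit 9) (.e (nat_lit 1413) (nat_lit 108) .nil))))) (.g (nat_lit 0) (.e (nat_lit 54438) (nat_lit 0) .nil) .nil)))) (.nd (nat_lit 9) 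
(.lf (nat_lit 460271) (.g (nat_lit 3450) (.e (nat_lit 2816) (nat_lit 181) (.e (nat_lit 311312) (nat_lit 2) (.e (nat_lit 196666) (nat_lit 13) (.e (nat_lit 65610) (nat_lit 10) (.e (nat_lit 344117) (nat_lit 21) (.e (nat_lit 516102) (nat_lit 0) (.e (nat_lit 6990) (nat_lit 377) .nil))))))) (.g (nat_lit 1) (.e (nat_lit 53310) (nat_lit 0) .nil) .nil))) 
(.lf (nat_lit 460783) (.g (nat_lit 1801) (.e (nat_lit 2842) (nat_lit 184) (.e (nat_lit 426412) (nat_lit 15) (.e (nat_lit 1856) (nat_lit 124) (.e (nat_lit 557100) (nat_lit 13) .nil)))) (.g (nat_lit 0) (.e (nat_lit 56182) (nat_lit 0) .nil) .nil)))))))) (.nd (nat_lit 5) (.nd (nat_lit 6) (.nd (nat_lit 7) (.nd (nat_lit 8) (.nd (nat_lit 9) 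
(.lf (nat_lit 459807) (.g (nat_lit 4306) (.e (nat_lit 2798) (nat_lit 180) (.e (nat_lit 303143) (nat_lit 12) (.e (nat_lit 475185) (nat_lit 29) (.e (nat_lit 557098) (nat_lit 13) (.e (nat_lit 172091) (nat_lit 9) .nil))))) (.g (nat_lit 0) (.e (nat_lit 51447) (nat_lit 0) .nil) .nil))) 
(.lf (nat_lit 460319) (.g (nat_lit 2083) (.e (nat_lit 2819) (nat_lit 181) (.e (nat_lit 311315) (nat_lit 3) (.e (nat_lit 204866) (nat_lit 28) (.e (nat_lit 352312) (nat_lit 22) (.e (nat_lit 90165) (nat_lit 12) (.e (nat_lit 164207) (nat_lit 176) .nil)))))) (.g (nat_lit 1) (.e (nat_lit 53532) (nat_lit 0) .nil) .nil)))) (.nd (nat_lit 9) 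
(.lf (nat_lit 460063) (.g (nat_lit 3805) (.e (nat_lit 2809) (nat_lit 180) (.e (nat_lit 303118) (nat_lit 3) (.e (nat_lit 204855) (nat_lit 26) (.e (nat_lit 336099) (nat_lit 9) (.e (nat_lit 336013) (nat_lit 2) (.e (nat_lit 90165) (nat_lit 12) (.e (nat_lit 164207) (nat_lit 176) .nil))))))) (.g (nat_lit 1) (.e (nat_lit 52550) (nat_lit 0) .nil) .nil))) 
(.lf (nat_lit 460575) (.g (nat_lit 1448) (.e (nat_lit 2829) (nat_lit 182) (.e (nat_lit 409649) (nat_lit 18) (.e (nat_lit 303132) (nat_lit 9) (.e (nat_lit 433920) (nat_lit 30) .nil)))) (.g (nat_lit 0) (.e (nat_lit 54972) (nat_lit 0) .nil) .nil))))) (.nd (nat_lit 8) (.nd (nat_lit 9) 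
(.lf (nat_lit 459935) (.g (nat_lit 2542) (.e (nat_lit 2802) (nat_lit 180) (.e (nat_lit 303143) (nat_lit 12) (.e (nat_lit 475185) (nat_lit 29) (.e (nat_lit 557100) (nat_lit 13) (.e (nat_lit 172113) (nat_lit 10) .nil))))) (.g (nat_lit 0) (.e (nat_lit 52000) (nat_lit 0) .nil) .nil))) 
(.lf (nat_lit 460447) (.g (nat_lit 1830) (.e (nat_lit 2779) (nat_lit 178) (.e (nat_lit 286771) (nat_lit 29) (.e (nat_lit 442379) (nat_lit 0) (.e (nat_lit 2059) (nat_lit 142) (.e (nat_lit 704595) (nat_lit 5) (.e (nat_lit 188160) (nat_lit 45) .nil)))))) (.g (nat_lit 1) (.e (nat_lit 53852) (nat_lit 0) .nil) .nil)))) (.nd (nat_lit 9) 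
(.lf (nat_lit 460191) (.g (nat_lit 3219) (.e (nat_lit 2811) (nat_lit 180) (.e (nat_lit 303117) (nat_lit 2) (.e (nat_lit 196666) (nat_lit 13) (.e (nat_lit 65604) (nat_lit 9) .nil)))) (.g (nat_lit 0) (.e (nat_lit 53002) (nat_lit 0) .nil) .nil))) 
(.lf (nat_lit 460703) (.g (nat_lit 2962) (.e (nat_lit 2830) (nat_lit 182) (.e (nat_lit 409649) (nat_lit 18) (.e (nat_lit 303111) (nat_lit 0) (.e (nat_lit 3238) (nat_lit 197) (.e (nat_lit 532560) (nat_lit 14) (.e (nat_lit 376865) (nat_lit 22) (.e (nat_lit 90130) (nat_lit 9) .nil))))))) (.g (nat_lit 1) (.e (nat_lit 55343) (nat_lit 0) .nil) .nil)))))) 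
(.nd (nat_lit 7) (.nd (nat_lit 8) (.nd (nat_lit 9) 
(.lf (nat_lit 459871) (.g (nat_lit 2681) (.e (nat_lit 2798) (nat_lit 180) (.e (nat_lit 303143) (nat_lit 12) (.e (nat_lit 475185) (nat_lit 29) (.e (nat_lit 557107) (nat_lit 15) (.e (nat_lit 188432) (nat_lit 20) .nil))))) (.g (nat_lit 0) (.e (nat_lit 51545) (nat_lit 0) .nil) .nil))) 
(.lf (nat_lit 460383) (.g (nat_lit 5071) (.e (nat_lit 2777) (nat_lit 178) (.e (nat_lit 286765) (nat_lit 15) (.e (nat_lit 3307) (nat_lit 202) (.e (nat_lit 573493) (nat_lit 15) (.e (nat_lit 81956) (nat_lit 23) (.e (nat_lit 98325) (nat_lit 17) (.e (nat_lit 6986) (nat_lit 377) .nil))))))) (.g (nat_lit 1) (.e (nat_lit 53715) (nat_lit 0) .nil) .nil)))) (.nd (nat_lit 9) 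
(.lf (nat_lit 460127) (.g (nat_lit 3333) (.e (nat_lit 2810) (nat_lit 180) (.e (nat_lit 303119) (nat_lit 3) (.e (nat_lit 204865) (nat_lit 28) (.e (nat_lit 352315) (nat_lit 23) (.e (nat_lit 98323) (nat_lit 17) (.e (nat_lit 6989) (nat_lit 377) .nil)))))) (.g (nat_lit 1) (.e (nat_lit 52775) (nat_lit 0) .nil) .nil))) 
(.lf (nat_lit 460639) (.g (nat_lit 3335) (.e (nat_lit 2830) (nat_lit 182) (.e (nat_lit 409648) (nat_lit 18) (.e (nat_lit 303109) (nat_lit 0) (.e (nat_lit 3252) (nat_lit 197) (.e (nat_lit 532561) (nat_lit 14) (.e (nat_lit 376865) (nat_lit 22) (.e (nat_lit 90130) (nat_lit 9) .nil))))))) (.g (nat_lit 1) (.e (nat_lit 55131) (nat_lit 0) .nil) .nil))))) (.nd (nat_lit 8) (.nd (nat_lit 9) 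
(.lf (nat_lit 459999) (.g (nat_lit 3490) (.e (nat_lit 2808) (nat_lit 180) (.e (nat_lit 303116) (nat_lit 2) (.e (nat_lit 196666) (nat_lit 13) (.e (nat_lit 65610) (nat_lit 10) (.e (nat_lit 344117) (nat_lit 21) (.e (nat_lit 516099) (nat_lit 0) (.e (nat_lit 7936) (nat_lit 377) .nil))))))) (.g (nat_lit 1) (.e (nat_lit 52303) (nat_lit 0) .nil) .nil))) 
(.lf (nat_lit 460511) (.g (nat_lit 2308) (.e (nat_lit 2789) (nat_lit 179) (.e (nat_lit 294974) (nat_lit 29) (.e (nat_lit 442377) (nat_lit 0) (.e (nat_lit 2059) (nat_lit 142) (.e (nat_lit 704595) (nat_lit 5) (.e (nat_lit 180285) (nat_lit 45) .nil)))))) (.g (nat_lit 1) (.e (nat_lit 54195) (nat_lit 0) .nil) .nil)))) (.nd (nat_lit 9) 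
(.lf (nat_lit 460255) (.g (nat_lit 1754) (.e (nat_lit 2815) (nat_lit 181) (.e (nat_lit 311312) (nat_lit 2) (.e (nat_lit 196672) (nat_lit 15) (.e (nat_lit 81954) (nat_lit 23) (.e (nat_lit 98323) (nat_lit 17) .nil))))) (.g (nat_lit 0) (.e (nat_lit 53275) (nat_lit 0) .nil) .nil))) 
(.lf (nat_lit 460767) (.g (nat_lit 2162) (.e (nat_lit 2842) (nat_lit 184) (.e (nat_lit 426125) (nat_lit 2) (.e (nat_lit 196666) (nat_lit 13) (.e (nat_lit 65617) (nat_lit 10) (.e (nat_lit 344133) (nat_lit 26) .nil))))) (.g (nat_lit 0) (.e (nat_lit 56142) (nat_lit 0) .nil) .nil))))))) (.nd (nat_lit 6) (.nd (nat_lit 7) (.nd (nat_lit 8) (.nd (nat_lit 9) 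
(.lf (nat_lit 459839) (.g (nat_lit 2479) (.e (nat_lit 2798) (nat_lit 180) (.e (nat_lit 303143) (nat_lit 12) (.e (nat_lit 475185) (nat_lit 29) (.e (nat_lit 557100) (nat_lit 13) (.e (nat_lit 172113) (nat_lit 10) (.e (nat_lit 434217) (nat_lit 19) (.e (nat_lit 499728) (nat_lit 0) .nil))))))) (.g (nat_lit 1) (.e (nat_lit 51486) (nat_lit 0) .nil) .nil))) 
(.lf (nat_lit 460351) (.g (nat_lit 2636) (.e (nat_lit 2777) (nat_lit 178) (.e (nat_lit 286735) (nat_lit 3) (.e (nat_lit 98388) (nat_lit 33) (.e (nat_lit 491560) (nat_lit 10) (.e (nat_lit 344118) (nat_lit 21) .nil))))) (.g (nat_lit 0) (.e (nat_lit 53675) (nat_lit 0) .nil) .nil)))) (.nd (nat_lit 9) 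
(.lf (nat_lit 460095) (.g (nat_lit 2884) (.e (nat_lit 2810) (nat_lit 180) (.e (nat_lit 303117) (nat_lit 2) (.e (nat_lit 196674) (nat_lit 15) (.e (nat_lit 81952) (nat_lit 22) (.e (nat_lit 90165) (nat_lit 12) (.e (nat_lit 164208) (nat_lit 176) .nil)))))) (.g (nat_lit 1) (.e (nat_lit 52728) (nat_lit 0) .nil) .nil))) 
(.lf (nat_lit 460607) (.g (nat_lit 2836) (.e (nat_lit 2830) (nat_lit 182) (.e (nat_lit 409646) (nat_lit 18) (.e (nat_lit 303117) (nat_lit 2) (.e (nat_lit 196671) (nat_lit 15) (.e (nat_lit 81953) (nat_lit 22) (.e (nat_lit 90130) (nat_lit 9) .nil)))))) (.g (nat_lit 1) (.e (nat_lit 55065) (nat_lit 0) .nil) .nil))))) (.nd (nat_lit 8) (.nd (nat_lit 9) 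
(.lf (nat_lit 459967) (.g (nat_lit 2395) (.e (nat_lit 2805) (nat_lit 180) (.e (nat_lit 303118) (nat_lit 3) (.e (nat_lit 204868) (nat_lit 29) (.e (nat_lit 360466) (nat_lit 3) (.e (nat_lit 516105) (nat_lit 0) .nil))))) (.g (nat_lit 0) (.e (nat_lit 52152) (nat_lit 0) .nil) .nil))) 
(.lf (nat_lit 460479) (.g (nat_lit 2356) (.e (nat_lit 2788) (nat_lit 179) (.e (nat_lit 294931) (nat_lit 3) (.e (nat_lit 98350) (nat_lit 24) (.e (nat_lit 409648) (nat_lit 18) (.e (nat_lit 303108) (nat_lit 0) .nil))))) (.g (nat_lit 0) (.e (nat_lit 54046) (nat_lit 0) .nil) .nil)))) (.nd (nat_lit 9) 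
(.lf (nat_lit 460223) (.g (nat_lit 1696) (.e (nat_lit 7936) (nat_lit 180) (.e (nat_lit 303117) (nat_lit 2) (.e (nat_lit 196674) (nat_lit 15) (.e (nat_lit 81952) (nat_lit 22) .nil)))) (.g (nat_lit 0) (.e (nat_lit 53090) (nat_lit 0) .nil) .nil))) 
(.lf (nat_lit 460735) (.g (nat_lit 2604) (.e (nat_lit 2830) (nat_lit 182) (.e (nat_lit 409649) (nat_lit 18) (.e (nat_lit 303119) (nat_lit 3) (.e (nat_lit 204878) (nat_lit 31) (.e (nat_lit 376862) (nat_lit 22) (.e (nat_lit 90130) (nat_lit 9) .nil)))))) (.g (nat_lit 1) (.e (nat_lit 55414) (nat_lit 0) .nil) .nil)))))) (.nd (nat_lit 7) (.nd (nat_lit 8) (.nd (nat_lit 9) 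
(.lf (nat_lit 459903) (.g (nat_lit 2253) (.e (nat_lit 2798) (nat_lit 180) (.e (nat_lit 303145) (nat_lit 13) (.e (nat_lit 483346) (nat_lit 17) (.e (nat_lit 6235) (nat_lit 335) .nil)))) (.g (nat_lit 0) (.e (nat_lit 51651) (nat_lit 0) .nil) .nil))) 
(.lf (nat_lit 460415) (.g (nat_lit 2832) (.e (nat_lit 2779) (nat_lit 178) (.e (nat_lit 286735) (nat_lit 3) (.e (nat_lit 98349) (nat_lit 24) (.e (nat_lit 409646) (nat_lit 18) (.e (nat_lit 303119) (nat_lit 3) .nil))))) (.g (nat_lit 0) (.e (nat_lit 53788) (nat_lit 0) .nil) .nil)))) (.nd (nat_lit 9) 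
(.lf (nat_lit 460159) (.g (nat_lit 1379) (.e (nat_lit 2810) (nat_lit 180) (.e (nat_lit 303119) (nat_lit 3) (.e (nat_lit 204877) (nat_lit 31) (.e (nat_lit 376868) (nat_lit 23) .nil)))) (.g (nat_lit 0) (.e (nat_lit 52815) (nat_lit 0) .nil) .nil))) 
(.lf (nat_lit 460671) (.g (nat_lit 275) (.e (nat_lit 2830) (nat_lit 182) (.e (nat_lit 409648) (nat_lit 18) (.e (nat_lit 303119) (nat_lit 3) .nil))) (.g (nat_lit 0) (.e (nat_lit 55197) (nat_lit 0) .nil) .nil))))) (.nd (nat_lit 8) (.nd (nat_lit 9) 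
(.lf (nat_lit 460031) (.g (nat_lit 3323) (.e (nat_lit 2808) (nat_lit 180) (.e (nat_lit 303143) (nat_lit 12) (.e (nat_lit 475185) (nat_lit 29) (.e (nat_lit 557109) (nat_lit 15) (.e (nat_lit 188457) (nat_lit 25) .nil))))) (.g (nat_lit 0) (.e (nat_lit 52482) (nat_lit 0) .nil) .nil))) 
(.lf (nat_lit 460543) (.g (nat_lit 1167) (.e (nat_lit 2827) (nat_lit 182) (.e (nat_lit 409649) (nat_lit 18) (.e (nat_lit 303116) (nat_lit 2) .nil))) (.g (nat_lit 0) (.e (nat_lit 54808) (nat_lit 0) .nil) .nil)))) (.nd (nat_lit 9) 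
(.lf (nat_lit 460287) (.g (nat_lit 4131) (.e (nat_lit 2817) (nat_lit 181) (.e (nat_lit 311312) (nat_lit 2) (.e (nat_lit 196666) (nat_lit 13) (.e (nat_lit 65610) (nat_lit 10) (.e (nat_lit 344117) (nat_lit 21) (.e (nat_lit 516098) (nat_lit 0) (.e (nat_lit 7073) (nat_lit 377) .nil))))))) (.g (nat_lit 1) (.e (nat_lit 53464) (nat_lit 0) .nil) .nil))) 
(.lf (nat_lit 460799) (.g (nat_lit 2686) (.e (nat_lit 2842) (nat_lit 184) (.e (nat_lit 426566) (nat_lit 34) (.e (nat_lit 393271) (nat_lit 23) (.e (nat_lit 426436) (nat_lit 18) (.e (nat_lit 98334) (nat_lit 18) .nil))))) (.g (nat_lit 0) (.e (nat_lit 56213) (nat_lit 0) .nil) .nil)))))))))))))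


end

end Pool.Agent.Lib.MP_5854e1_co.Cz
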