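import Pool.Agent.Lib.MP_5854e1_co.DtD

/-!
# Windows and cells of the rings
-/

set_option autoImplicit false
set_option maxRecDepth 100000
set_option deprecated.oldSectionVars true

namespace Pool.Agent.Lib.MP_5854e1_co.Cz

open Pool.Agent.Lib.MP_5854e1_co

noncomputable section

noncomputable def tv5510 : DT := (.nd (nat_lit 0) (.nd (nat_lit 1) (.nd (nat_lit 2) (.nd (nat_lit 3) (.nd (nat_lit 4) (.nd (nat_lit 5) (.nd (nat_lit 6) (.nd (nat_lit 7) (.nd (nat_lit 8) (.nd (nat_lit 9) 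
(.lf (nat_lit 460800) (.g (nat_lit 3187) (.e (nat_lit 2842) (nat_lit 184) (.e (nat_lit 426566) (nat_lit 34) (.e (nat_lit 393271) (nat_lit 23) (.e (nat_lit 426436) (nat_lit 18) (.e (nat_lit 98334) (nat_lit 18) (.e (nat_lit 164305) (nat_lit 226) (.e (nat_lit 2450) (nat_lit 157) .nil))))))) (.g (nat_lit 1) (.e (nat_lit 56214) (nat_lit 0) .nil) .nil))) 
(.lf (nat_lit 461312) (.g (nat_lit 3055) (.e (nat_lit 2865) (nat_lit 184) (.e (nat_lit 426136) (nat_lit 3) (.e (nat_lit 204869) (nat_lit 29) (.e (nat_lit 360475) (nat_lit 8) (.e (nat_lit 557089) (nat_lit 12) (.e (nat_lit 164017) (nat_lit 44) (.e (nat_lit 688139) (nat_lit 5) .nil))))))) (.g (nat_lit 1) (.e (nat_lit 57185) (nat_lit 0) .nil) .nil)))) (.nd (nat_lit 9) 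
(.lf (nat_lit 461056) (.g (nat_lit 4693) (.e (nat_lit 2855) (nat_lit 184) (.e (nat_lit 426436) (nat_lit 18) (.e (nat_lit 98335) (nat_lit 18) (.e (nat_lit 164326) (nat_lit 230) .nil)))) (.g (nat_lit 0) (.e (nat_lit 56726) (nat_lit 0) .nil) .nil))) 
(.lf (nat_lit 461568) (.g (nat_lit 5461) (.e (nat_lit 2887) (nat_lit 184) (.e (nat_lit 426134) (nat_lit 3) (.e (nat_lit 204869) (nat_lit 29) (.e (nat_lit 360475) (nat_lit 8) (.e (nat_lit 557089) (nat_lit 12) (.e (nat_lit 164017) (nat_lit 44) (.e (nat_lit 688139) (nat_lit 5) .nil))))))) (.g (nat_lit 1) (.e (nat_lit 57926) (nat_lit 0) .nil) .nil))))) (.nd (nat_lit 8) (.nd (nat_lit 9) 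
(.lf (nat_lit 460928) (.g (nat_lit 2174) (.e (nat_lit 2853) (nat_lit 184) (.e (nat_lit 426436) (nat_lit 18) (.e (nat_lit 98358) (nat_lit 26) (.e (nat_lit 426402) (nat_lit 15) (.e (nat_lit 1788) (nat_lit 119) .nil))))) (.g (nat_lit 0) (.e (nat_lit 56480) (nat_lit 0) .nil) .nil))) 
(.lf (nat_lit 461440) (.g (nat_lit 3743) (.e (nat_lit 2878) (nat_lit 184) (.e (nat_lit 426125) (nat_lit 2) (.e (nat_lit 196666) (nat_lit 13) (.e (nat_lit 65617) (nat_lit 10) (.e (nat_lit 344130) (nat_lit 26) (.e (nat_lit 557090) (nat_lit 12) (.e (nat_lit 164018) (nat_lit 45) (.e (nat_lit 696327) (nat_lit 5) .nil)))))))) (.g (nat_lit 1) (.e (nat_lit 57673) (nat_lit 0) .nil) .nil)))) 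
(.nd (nat_lit 9) 
(.lf (nat_lit 461184) (.g (nat_lit 2668) (.e (nat_lit 2856) (nat_lit 184) (.e (nat_lit 426542) (nat_lit 29) (.e (nat_lit 352265) (nat_lit 0) (.e (nat_lit 3632) (nat_lit 227) (.e (nat_lit 778324) (nat_lit 5) (.e (nat_lit 73781) (nat_lit 32) .nil)))))) (.g (nat_lit 1) (.e (nat_lit 56890) (nat_lit 0) .nil) .nil))) 
(.lf (nat_lit 461696) (.g (nat_lit 2525) (.e (nat_lit 2887) (nat_lit 184) (.e (nat_lit 426412) (nat_lit 15) (.e (nat_lit 1856) (nat_lit 124) (.e (nat_lit 557101) (nat_lit 13) (.e (nat_lit 172115) (nat_lit 10) (.e (nat_lit 434244) (nat_lit 28) (.e (nat_lit 573468) (nat_lit 10) (.e (nat_lit 16128) (nat_lit 205) .nil)))))))) (.g (nat_lit 1) (.e (nat_lit 58399) (nat_lit 0) .nil) .nil)))))) 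
(.nd (nat_lit 7) (.nd (nat_lit 8) (.nd (nat_lit 9) 
(.lf (nat_lit 460864) (.g (nat_lit 4810) (.e (nat_lit 2847) (nat_lit 184) (.e (nat_lit 426436) (nat_lit 18) (.e (nat_lit 98335) (nat_lit 18) (.e (nat_lit 164327) (nat_lit 230) .nil)))) (.g (nat_lit 0) (.e (nat_lit 56338) (nat_lit 0) .nil) .nil))) 
(.lf (nat_lit 461376) (.g (nat_lit 5043) (.e (nat_lit 2877) (nat_lit 184) (.e (nat_lit 426125) (nat_lit 2) (.e (nat_lit 196666) (nat_lit 13) (.e (nat_lit 65610) (nat_lit 10) (.e (nat_lit 344129) (nat_lit 26) (.e (nat_lit 557090) (nat_lit 12) (.e (nat_lit 164017) (nat_lit 44) (.e (nat_lit 688139) (nat_lit 5) .nil)))))))) (.g (nat_lit 1) (.e (nat_lit 57480) (nat_lit 0) .nil) .nil)))) 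
(.nd (nat_lit 9) 
(.lf (nat_lit 461120) (.g (nat_lit 2375) (.e (nat_lit 2856) (nat_lit 184) (.e (nat_lit 426364) (nat_lit 15) (.e (nat_lit 1858) (nat_lit 124) (.e (nat_lit 557100) (nat_lit 13) (.e (nat_lit 172106) (nat_lit 10) (.e (nat_lit 434231) (nat_lit 23) (.e (nat_lit 532483) (nat_lit 0) (.e (nat_lit 6684) (nat_lit 357) .nil)))))))) (.g (nat_lit 1) (.e (nat_lit 56817) (nat_lit 0) .nil) .nil))) 
(.lf (nat_lit 461632) (.g (nat_lit 1669) (.e (nat_lit 2887) (nat_lit 184) (.e (nat_lit 426208) (nat_lit 9) (.e (nat_lit 426528) (nat_lit 27) (.e (nat_lit 335894) (nat_lit 0) (.e (nat_lit 6722) (nat_lit 362) (.e (nat_lit 180268) (nat_lit 24) (.e (nat_lit 688138) (nat_lit 5) .nil))))))) (.g (nat_lit 1) (.e (nat_lit 58043) (nat_lit 0) .nil) .nil))))) (.nd (nat_lit 8) (.nd (nat_lit 9) 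
(.lf (nat_lit 460992) (.g (nat_lit 1344) (.e (nat_lit 2854) (nat_lit 184) (.e (nat_lit 426540) (nat_lit 29) (.e (nat_lit 352262) (nat_lit 0) (.e (nat_lit 3630) (nat_lit 227) (.e (nat_lit 778323) (nat_lit 5) (.e (nat_lit 73782) (nat_lit 32) .nil)))))) (.g (nat_lit 1) (.e (nat_lit 56633) (nat_lit 0) .nil) .nil))) 
(.lf (nat_lit 461504) (.g (nat_lit 4099) (.e (nat_lit 2879) (nat_lit 184) (.e (nat_lit 426211) (nat_lit 9) (.e (nat_lit 426125) (nat_lit 2) (.e (nat_lit 196630) (nat_lit 9) (.e (nat_lit 1401) (nat_lit 106) .nil))))) (.g (nat_lit 0) (.e (nat_lit 57846) (nat_lit 0) .nil) .nil)))) (.nd (nat_lit 9) 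
(.lf (nat_lit 461248) (.g (nat_lit 1296) (.e (nat_lit 2857) (nat_lit 184) (.e (nat_lit 426544) (nat_lit 30) (.e (nat_lit 360453) (nat_lit 0) (.e (nat_lit 5905) (nat_lit 320) (.e (nat_lit 1211) (nat_lit 89) .nil))))) (.g (nat_lit 0) (.e (nat_lit 57007) (nat_lit 0) .nil) .nil))) 
(.lf (nat_lit 461760) (.g (nat_lit 1536) (.e (nat_lit 2882) (nat_lit 184) (.e (nat_lit 426289) (nat_lit 10) (.e (nat_lit 434231) (nat_lit 23) (.e (nat_lit 532523) (nat_lit 7) (.e (nat_lit 319534) (nat_lit 16) .nil))))) (.g (nat_lit 0) (.e (nat_lit 58576) (nat_lit 0) .nil) .nil))))))) (.nd (nat_lit 6) (.nd (nat_lit 7) (.nd (nat_lit 8) (.nd (nat_lit 9) 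
(.lf (nat_lit 460832) (.g (nat_lit 1561) (.e (nat_lit 2845) (nat_lit 184) (.e (nat_lit 426436) (nat_lit 18) (.e (nat_lit 98358) (nat_lit 26) (.e (nat_lit 426436) (nat_lit 18) .nil)))) (.g (nat_lit 0) (.e (nat_lit 56276) (nat_lit 0) .nil) .nil))) 
(.lf (nat_lit 461344) (.g (nat_lit 4099) (.e (nat_lit 2873) (nat_lit 184) (.e (nat_lit 426211) (nat_lit 9) (.e (nat_lit 426125) (nat_lit 2) (.e (nat_lit 196630) (nat_lit 9) (.e (nat_lit 1401) (nat_lit 106) .nil))))) (.g (nat_lit 0) (.e (nat_lit 57366) (nat_lit 0) .nil) .nil)))) (.nd (nat_lit 9) 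
(.lf (nat_lit 461088) (.g (nat_lit 1276) (.e (nat_lit 2855) (nat_lit 184) (.e (nat_lit 426542) (nat_lit 29) (.e (nat_lit 352264) (nat_lit 0) (.e (nat_lit 3714) (nat_lit 227) (.e (nat_lit 786176) (nat_lit 5) (.e (nat_lit 73781) (nat_lit 32) .nil)))))) (.g (nat_lit 1) (.e (nat_lit 56778) (nat_lit 0) .nil) .nil))) 
(.lf (nat_lit 461600) (.g (nat_lit 3448) (.e (nat_lit 2887) (nat_lit 184) (.e (nat_lit 426140) (nat_lit 3) (.e (nat_lit 204868) (nat_lit 29) (.e (nat_lit 360473) (nat_lit 8) (.e (nat_lit 557091) (nat_lit 12) (.e (nat_lit 164017) (nat_lit 44) (.e (nat_lit 688139) (nat_lit 5) .nil))))))) (.g (nat_lit 1) (.e (nat_lit 57959) (nat_lit 0) .nil) .nil))))) (.nd (nat_lit 8) (.nd (nat_lit 9) 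
(.lf (nat_lit 460960) (.g (nat_lit 3890) (.e (nat_lit 2854) (nat_lit 184) (.e (nat_lit 426436) (nat_lit 18) (.e (nat_lit 98335) (nat_lit 18) (.e (nat_lit 164329) (nat_lit 230) .nil)))) (.g (nat_lit 0) (.e (nat_lit 56582) (nat_lit 0) .nil) .nil))) 
(.lf (nat_lit 461472) (.g (nat_lit 3856) (.e (nat_lit 2878) (nat_lit 184) (.e (nat_lit 426140) (nat_lit 3) (.e (nat_lit 204869) (nat_lit 29) (.e (nat_lit 360474) (nat_lit 8) (.e (nat_lit 557088) (nat_lit 12) (.e (nat_lit 164018) (nat_lit 45) (.e (nat_lit 696330) (nat_lit 5) .nil))))))) (.g (nat_lit 1) (.e (nat_lit 57724) (nat_lit 0) .nil) .nil)))) (.nd (nat_lit 9) 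
(.lf (nat_lit 461216) (.g (nat_lit 1903) (.e (nat_lit 2857) (nat_lit 184) (.e (nat_lit 426482) (nat_lit 27) (.e (nat_lit 336199) (nat_lit 12) (.e (nat_lit 385093) (nat_lit 49) (.e (nat_lit 778323) (nat_lit 5) .nil))))) (.g (nat_lit 0) (.e (nat_lit 56962) (nat_lit 0) .nil) .nil))) 
(.lf (nat_lit 461728) (.g (nat_lit 2827) (.e (nat_lit 2888) (nat_lit 184) (.e (nat_lit 426140) (nat_lit 3) (.e (nat_lit 204869) (nat_lit 29) (.e (nat_lit 360475) (nat_lit 8) (.e (nat_lit 557091) (nat_lit 12) .nil))))) (.g (nat_lit 0) (.e (nat_lit 58464) (nat_lit 0) .nil) .nil)))))) (.nd (nat_lit 7) (.nd (nat_lit 8) (.nd (nat_lit 9) 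
(.lf (nat_lit 460896) (.g (nat_lit 1988) (.e (nat_lit 2850) (nat_lit 184) (.e (nat_lit 426540) (nat_lit 29) (.e (nat_lit 352262) (nat_lit 0) (.e (nat_lit 3632) (nat_lit 227) (.e (nat_lit 778323) (nat_lit 5) (.e (nat_lit 81664) (nat_lit 32) .nil)))))) (.g (nat_lit 1) (.e (nat_lit 56408) (nat_lit 0) .nil) .nil))) 
(.lf (nat_lit 461408) (.g (nat_lit 4126) (.e (nat_lit 2877) (nat_lit 184) (.e (nat_lit 426125) (nat_lit 2) (.e (nat_lit 196666) (nat_lit 13) (.e (nat_lit 65617) (nat_lit 10) (.e (nat_lit 344132) (nat_lit 26) (.e (nat_lit 557094) (nat_lit 12) (.e (nat_lit 164016) (nat_lit 44) (.e (nat_lit 688138) (nat_lit 5) .nil)))))))) (.g (nat_lit 1) (.e (nat_lit 57512) (nat_lit 0) .nil) .nil)))) 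
(.nd (nat_lit 9) 
(.lf (nat_lit 461152) (.g (nat_lit 1920) (.e (nat_lit 2856) (nat_lit 184) (.e (nat_lit 426509) (nat_lit 27) (.e (nat_lit 336193) (nat_lit 12) (.e (nat_lit 385092) (nat_lit 49) (.e (nat_lit 778323) (nat_lit 5) (.e (nat_lit 73781) (nat_lit 32) .nil)))))) (.g (nat_lit 1) (.e (nat_lit 56858) (nat_lit 0) .nil) .nil))) 
(.lf (nat_lit 461664) (.g (nat_lit 1848) (.e (nat_lit 2887) (nat_lit 184) (.e (nat_lit 426305) (nat_lit 12) (.e (nat_lit 475198) (nat_lit 40) (.e (nat_lit 704598) (nat_lit 6) .nil)))) (.g (nat_lit 0) (.e (nat_lit 58257) (nat_lit 0) .nil) .nil))))) (.nd (nat_lit 8) (.nd (nat_lit 9) 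
(.lf (nat_lit 461024) (.g (nat_lit 2470) (.e (nat_lit 2854) (nat_lit 184) (.e (nat_lit 426566) (nat_lit 34) (.e (nat_lit 393271) (nat_lit 23) (.e (nat_lit 426436) (nat_lit 18) (.e (nat_lit 98335) (nat_lit 18) .nil))))) (.g (nat_lit 0) (.e (nat_lit 56665) (nat_lit 0) .nil) .nil))) 
(.lf (nat_lit 461536) (.g (nat_lit 2810) (.e (nat_lit 2887) (nat_lit 184) (.e (nat_lit 426118) (nat_lit 2) (.e (nat_lit 196666) (nat_lit 13) (.e (nat_lit 65617) (nat_lit 10) (.e (nat_lit 344130) (nat_lit 26) (.e (nat_lit 557089) (nat_lit 12) (.e (nat_lit 164017) (nat_lit 44) (.e (nat_lit 688138) (nat_lit 5) .nil)))))))) (.g (nat_lit 1) (.e (nat_lit 57894) (nat_lit 0) .nil) .nil)))) 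
(.nd (nat_lit 9) 
(.lf (nat_lit 461280) (.g (nat_lit 2266) (.e (nat_lit 2862) (nat_lit 184) (.e (nat_lit 426438) (nat_lit 18) (.e (nat_lit 98367) (nat_lit 27) (.e (nat_lit 434247) (nat_lit 28) (.e (nat_lit 573485) (nat_lit 13) .nil))))) (.g (nat_lit 0) (.e (nat_lit 57124) (nat_lit 0) .nil) .nil))) 
(.lf (nat_lit 461792) (.g (nat_lit 4530) (.e (nat_lit 2884) (nat_lit 184) (.e (nat_lit 426125) (nat_lit 2) (.e (nat_lit 196666) (nat_lit 13) (.e (nat_lit 65617) (nat_lit 10) (.e (nat_lit 344133) (nat_lit 26) (.e (nat_lit 557089) (nat_lit 12) (.e (nat_lit 164020) (nat_lit 45) (.e (nat_lit 696330) (nat_lit 5) .nil)))))))) (.g (nat_lit 1) (.e (nat_lit 58698) (nat_lit 0) .nil) .nil)))))))) 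
(.nd (nat_lit 5) (.nd (nat_lit 6) (.nd (nat_lit 7) (.nd (nat_lit 8) (.nd (nat_lit 9) 
(.lf (nat_lit 460816) (.g (nat_lit 2139) (.e (nat_lit 2844) (nat_lit 184) (.e (nat_lit 426568) (nat_lit 34) (.e (nat_lit 393271) (nat_lit 23) (.e (nat_lit 426131) (nat_lit 3) (.e (nat_lit 204830) (nat_lit 18) .nil))))) (.g (nat_lit 0) (.e (nat_lit 56253) (nat_lit 0) .nil) .nil))) 
(.lf (nat_lit 461328) (.g (nat_lit 3311) (.e (nat_lit 2872) (nat_lit 184) (.e (nat_lit 426211) (nat_lit 9) (.e (nat_lit 426125) (nat_lit 2) (.e (nat_lit 196625) (nat_lit 9) (.e (nat_lit 1401) (nat_lit 106) .nil))))) (.g (nat_lit 0) (.e (nat_lit 57346) (nat_lit 0) .nil) .nil)))) (.nd (nat_lit 9) 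
(.lf (nat_lit 461072) (.g (nat_lit 2601) (.e (nat_lit 2855) (nat_lit 184) (.e (nat_lit 426533) (nat_lit 28) (.e (nat_lit 344068) (nat_lit 0) (.e (nat_lit 2856) (nat_lit 184) (.e (nat_lit 426533) (nat_lit 28) (.e (nat_lit 344069) (nat_lit 0) .nil)))))) (.g (nat_lit 1) (.e (nat_lit 56745) (nat_lit 0) .nil) .nil))) 
(.lf (nat_lit 461584) (.g (nat_lit 1573) (.e (nat_lit 2887) (nat_lit 184) (.e (nat_lit 426136) (nat_lit 3) (.e (nat_lit 204868) (nat_lit 29) (.e (nat_lit 360473) (nat_lit 8) (.e (nat_lit 557094) (nat_lit 12) (.e (nat_lit 164016) (nat_lit 44) (.e (nat_lit 688138) (nat_lit 5) .nil))))))) (.g (nat_lit 1) (.e (nat_lit 57943) (nat_lit 0) .nil) .nil))))) (.nd (nat_lit 8) (.nd (nat_lit 9) 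
(.lf (nat_lit 460944) (.g (nat_lit 1838) (.e (nat_lit 2854) (nat_lit 184) (.e (nat_lit 426320) (nat_lit 12) (.e (nat_lit 475185) (nat_lit 29) (.e (nat_lit 557109) (nat_lit 15) .nil)))) (.g (nat_lit 0) (.e (nat_lit 56535) (nat_lit 0) .nil) .nil))) 
(.lf (nat_lit 461456) (.g (nat_lit 4046) (.e (nat_lit 2878) (nat_lit 184) (.e (nat_lit 426125) (nat_lit 2) (.e (nat_lit 196666) (nat_lit 13) (.e (nat_lit 65617) (nat_lit 10) (.e (nat_lit 344133) (nat_lit 26) (.e (nat_lit 557090) (nat_lit 12) (.e (nat_lit 164020) (nat_lit 45) (.e (nat_lit 696328) (nat_lit 5) .nil)))))))) (.g (nat_lit 1) (.e (nat_lit 57694) (nat_lit 0) .nil) .nil)))) 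
(.nd (nat_lit 9) 
(.lf (nat_lit 461200) (.g (nat_lit 2057) (.e (nat_lit 2857) (nat_lit 184) (.e (nat_lit 426354) (nat_lit 15) (.e (nat_lit 1860) (nat_lit 124) (.e (nat_lit 557101) (nat_lit 13) (.e (nat_lit 172097) (nat_lit 9) (.e (nat_lit 426125) (nat_lit 2) (.e (nat_lit 196661) (nat_lit 12) (.e (nat_lit 57750) (nat_lit 201) .nil)))))))) (.g (nat_lit 1) (.e (nat_lit 56914) (nat_lit 0) .nil) .nil))) 
(.lf (nat_lit 461712) (.g (nat_lit 3177) (.e (nat_lit 2887) (nat_lit 184) (.e (nat_lit 426499) (nat_lit 27) (.e (nat_lit 336231) (nat_lit 14) (.e (nat_lit 401434) (nat_lit 9) (.e (nat_lit 426470) (nat_lit 25) (.e (nat_lit 319491) (nat_lit 0) (.e (nat_lit 5664) (nat_lit 312) .nil))))))) (.g (nat_lit 1) (.e (nat_lit 58436) (nat_lit 0) .nil) .nil)))))) 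
(.nd (nat_lit 7) (.nd (nat_lit 8) (.nd (nat_lit 9) 
(.lf (nat_lit 460880) (.g (nat_lit 2211) (.e (nat_lit 2848) (nat_lit 184) (.e (nat_lit 426566) (nat_lit 34) (.e (nat_lit 393294) (nat_lit 26) (.e (nat_lit 475177) (nat_lit 24) .nil)))) (.g (nat_lit 0) (.e (nat_lit 56378) (nat_lit 0) .nil) .nil))) 
(.lf (nat_lit 461392) (.g (nat_lit 5094) (.e (nat_lit 2877) (nat_lit 184) (.e (nat_lit 426125) (nat_lit 2) (.e (nat_lit 196666) (nat_lit 13) (.e (nat_lit 65617) (nat_lit 10) (.e (nat_lit 344130) (nat_lit 26) (.e (nat_lit 557089) (nat_lit 12) (.e (nat_lit 164017) (nat_lit 44) (.e (nat_lit 688141) (nat_lit 5) .nil)))))))) (.g (nat_lit 1) (.e (nat_lit 57496) (nat_lit 0) .nil) .nil)))) 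
(.nd (nat_lit 9) 
(.lf (nat_lit 461136) (.g (nat_lit 3447) (.e (nat_lit 2856) (nat_lit 184) (.e (nat_lit 426402) (nat_lit 15) (.e (nat_lit 1859) (nat_lit 124) (.e (nat_lit 557109) (nat_lit 15) (.e (nat_lit 188447) (nat_lit 22) (.e (nat_lit 196661) (nat_lit 12) (.e (nat_lit 57751) (nat_lit 201) .nil))))))) (.g (nat_lit 1) (.e (nat_lit 56834) (nat_lit 0) .nil) .nil))) 
(.lf (nat_lit 461648) (.g (nat_lit 1987) (.e (nat_lit 2887) (nat_lit 184) (.e (nat_lit 426212) (nat_lit 9) (.e (nat_lit 426528) (nat_lit 27) (.e (nat_lit 336231) (nat_lit 14) (.e (nat_lit 401446) (nat_lit 10) (.e (nat_lit 434286) (nat_lit 42) (.e (nat_lit 688139) (nat_lit 5) .nil))))))) (.g (nat_lit 1) (.e (nat_lit 58072) (nat_lit 0) .nil) .nil))))) (.nd (nat_lit 8) (.nd (nat_lit 9) 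
(.lf (nat_lit 461008) (.g (nat_lit 2041) (.e (nat_lit 2854) (nat_lit 184) (.e (nat_lit 426555) (nat_lit 32) (.e (nat_lit 376857) (nat_lit 21) (.e (nat_lit 57873) (nat_lit 264) (.e (nat_lit 1210) (nat_lit 89) .nil))))) (.g (nat_lit 0) (.e (nat_lit 56649) (nat_lit 0) .nil) .nil))) 
(.lf (nat_lit 461520) (.g (nat_lit 3995) (.e (nat_lit 2887) (nat_lit 184) (.e (nat_lit 426113) (nat_lit 2) (.e (nat_lit 196666) (nat_lit 13) (.e (nat_lit 65610) (nat_lit 10) (.e (nat_lit 344129) (nat_lit 26) (.e (nat_lit 557090) (nat_lit 12) (.e (nat_lit 164017) (nat_lit 44) (.e (nat_lit 688138) (nat_lit 5) .nil)))))))) (.g (nat_lit 1) (.e (nat_lit 57878) (nat_lit 0) .nil) .nil)))) 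
(.nd (nat_lit 9) 
(.lf (nat_lit 461264) (.g (nat_lit 4075) (.e (nat_lit 2859) (nat_lit 184) (.e (nat_lit 426436) (nat_lit 18) (.e (nat_lit 98335) (nat_lit 18) (.e (nat_lit 164330) (nat_lit 230) .nil)))) (.g (nat_lit 0) (.e (nat_lit 57037) (nat_lit 0) .nil) .nil))) 
(.lf (nat_lit 461776) (.g (nat_lit 4676) (.e (nat_lit 2884) (nat_lit 184) (.e (nat_lit 426025) (nat_lit 0) (.e (nat_lit 3543) (nat_lit 219) (.e (nat_lit 712755) (nat_lit 30) (.e (nat_lit 450587) (nat_lit 10) (.e (nat_lit 573475) (nat_lit 12) (.e (nat_lit 57503) (nat_lit 38) (.e (nat_lit 638985) (nat_lit 5) .nil)))))))) (.g (nat_lit 1) (.e (nat_lit 58652) (nat_lit 0) .nil) .nil))))))) 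
(.nd (nat_lit 6) (.nd (nat_lit 7) (.nd (nat_lit 8) (.nd (nat_lit 9) 
(.lf (nat_lit 460848) (.g (nat_lit 2274) (.e (nat_lit 2845) (nat_lit 184) (.e (nat_lit 426566) (nat_lit 34) (.e (nat_lit 393271) (nat_lit 23) (.e (nat_lit 426131) (nat_lit 3) (.e (nat_lit 204830) (nat_lit 18) .nil))))) (.g (nat_lit 0) (.e (nat_lit 56303) (nat_lit 0) .nil) .nil))) 
(.lf (nat_lit 461360) (.g (nat_lit 3986) (.e (nat_lit 2876) (nat_lit 184) (.e (nat_lit 426125) (nat_lit 2) (.e (nat_lit 196666) (nat_lit 13) (.e (nat_lit 65617) (nat_lit 10) (.e (nat_lit 344132) (nat_lit 26) .nil))))) (.g (nat_lit 0) (.e (nat_lit 57416) (nat_lit 0) .nil) .nil)))) (.nd (nat_lit 9) 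
(.lf (nat_lit 461104) (.g (nat_lit 1581) (.e (nat_lit 2855) (nat_lit 184) (.e (nat_lit 426542) (nat_lit 29) (.e (nat_lit 352297) (nat_lit 20) (.e (nat_lit 2004) (nat_lit 138) (.e (nat_lit 671763) (nat_lit 5) (.e (nat_lit 73781) (nat_lit 32) .nil)))))) (.g (nat_lit 1) (.e (nat_lit 56794) (nat_lit 0) .nil) .nil))) 
(.lf (nat_lit 461616) (.g (nat_lit 2431) (.e (nat_lit 2887) (nat_lit 184) (.e (nat_lit 426170) (nat_lit 7) (.e (nat_lit 409649) (nat_lit 18) (.e (nat_lit 303140) (nat_lit 10) (.e (nat_lit 434275) (nat_lit 39) (.e (nat_lit 663584) (nat_lit 12) (.e (nat_lit 164017) (nat_lit 44) (.e (nat_lit 688139) (nat_lit 5) .nil)))))))) (.g (nat_lit 1) (.e (nat_lit 57985) (nat_lit 0) .nil) .nil))))) 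
(.nd (nat_lit 8) (.nd (nat_lit 9) 
(.lf (nat_lit 460976) (.g (nat_lit 1382) (.e (nat_lit 2854) (nat_lit 184) (.e (nat_lit 426482) (nat_lit 27) (.e (nat_lit 336205) (nat_lit 12) (.e (nat_lit 385092) (nat_lit 49) .nil)))) (.g (nat_lit 0) (.e (nat_lit 56613) (nat_lit 0) .nil) .nil))) 
(.lf (nat_lit 461488) (.g (nat_lit 3172) (.e (nat_lit 2878) (nat_lit 184) (.e (nat_lit 426317) (nat_lit 12) (.e (nat_lit 475185) (nat_lit 29) (.e (nat_lit 557109) (nat_lit 15) (.e (nat_lit 188434) (nat_lit 20) (.e (nat_lit 3271) (nat_lit 199) (.e (nat_lit 548898) (nat_lit 14) .nil))))))) (.g (nat_lit 1) (.e (nat_lit 57812) (nat_lit 0) .nil) .nil)))) (.nd (nat_lit 9) 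
(.lf (nat_lit 461232) (.g (nat_lit 2547) (.e (nat_lit 2857) (nat_lit 184) (.e (nat_lit 426530) (nat_lit 27) (.e (nat_lit 336206) (nat_lit 12) (.e (nat_lit 385094) (nat_lit 49) (.e (nat_lit 778323) (nat_lit 5) (.e (nat_lit 73782) (nat_lit 32) .nil)))))) (.g (nat_lit 1) (.e (nat_lit 56983) (nat_lit 0) .nil) .nil))) 
(.lf (nat_lit 461744) (.g (nat_lit 3146) (.e (nat_lit 2893) (nat_lit 184) (.e (nat_lit 426125) (nat_lit 2) (.e (nat_lit 196666) (nat_lit 13) (.e (nat_lit 65617) (nat_lit 10) .nil)))) (.g (nat_lit 0) (.e (nat_lit 58536) (nat_lit 0) .nil) .nil)))))) (.nd (nat_lit 7) (.nd (nat_lit 8) (.nd (nat_lit 9) 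
(.lf (nat_lit 460912) (.g (nat_lit 473) (.e (nat_lit 2852) (nat_lit 184) (.e (nat_lit 426320) (nat_lit 12) (.e (nat_lit 475199) (nat_lit 40) .nil))) (.g (nat_lit 0) (.e (nat_lit 56436) (nat_lit 0) .nil) .nil))) 
(.lf (nat_lit 461424) (.g (nat_lit 4949) (.e (nat_lit 2877) (nat_lit 184) (.e (nat_lit 426125) (nat_lit 2) (.e (nat_lit 196666) (nat_lit 13) (.e (nat_lit 65617) (nat_lit 10) (.e (nat_lit 344133) (nat_lit 26) (.e (nat_lit 557091) (nat_lit 12) (.e (nat_lit 164017) (nat_lit 44) (.e (nat_lit 688139) (nat_lit 5) .nil)))))))) (.g (nat_lit 1) (.e (nat_lit 57528) (nat_lit 0) .nil) .nil)))) 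
(.nd (nat_lit 9) 
(.lf (nat_lit 461168) (.g (nat_lit 3931) (.e (nat_lit 2856) (nat_lit 184) (.e (nat_lit 426530) (nat_lit 27) (.e (nat_lit 336235) (nat_lit 14) (.e (nat_lit 401459) (nat_lit 13) (.e (nat_lit 483354) (nat_lit 17) (.e (nat_lit 6676) (nat_lit 357) .nil)))))) (.g (nat_lit 1) (.e (nat_lit 56874) (nat_lit 0) .nil) .nil))) 
(.lf (nat_lit 461680) (.g (nat_lit 3848) (.e (nat_lit 2887) (nat_lit 184) (.e (nat_lit 426412) (nat_lit 15) (.e (nat_lit 1856) (nat_lit 124) (.e (nat_lit 557100) (nat_lit 13) (.e (nat_lit 172106) (nat_lit 10) (.e (nat_lit 434231) (nat_lit 23) (.e (nat_lit 532482) (nat_lit 0) (.e (nat_lit 6626) (nat_lit 357) .nil)))))))) (.g (nat_lit 1) (.e (nat_lit 58383) (nat_lit 0) .nil) .nil))))) 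
(.nd (nat_lit 8) (.nd (nat_lit 9) 
(.lf (nat_lit 461040) (.g (nat_lit 3479) (.e (nat_lit 2855) (nat_lit 184) (.e (nat_lit 426402) (nat_lit 15) (.e (nat_lit 1849) (nat_lit 124) (.e (nat_lit 557097) (nat_lit 13) (.e (nat_lit 172097) (nat_lit 9) (.e (nat_lit 426125) (nat_lit 2) (.e (nat_lit 196661) (nat_lit 12) (.e (nat_lit 57750) (nat_lit 201) .nil)))))))) (.g (nat_lit 1) (.e (nat_lit 56710) (nat_lit 0) .nil) .nil))) 
(.lf (nat_lit 461552) (.g (nat_lit 2924) (.e (nat_lit 2887) (nat_lit 184) (.e (nat_lit 426132) (nat_lit 3) (.e (nat_lit 204868) (nat_lit 29) (.e (nat_lit 360473) (nat_lit 8) (.e (nat_lit 557089) (nat_lit 12) (.e (nat_lit 164017) (nat_lit 44) (.e (nat_lit 688138) (nat_lit 5) .nil))))))) (.g (nat_lit 1) (.e (nat_lit 57910) (nat_lit 0) .nil) .nil)))) (.nd (nat_lit 9) 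
(.lf (nat_lit 461296) (.g (nat_lit 1908) (.e (nat_lit 2862) (nat_lit 184) (.e (nat_lit 426566) (nat_lit 34) (.e (nat_lit 393268) (nat_lit 23) (.e (nat_lit 426436) (nat_lit 18) (.e (nat_lit 98334) (nat_lit 18) .nil))))) (.g (nat_lit 0) (.e (nat_lit 57151) (nat_lit 0) .nil) .nil))) 
(.lf (nat_lit 461808) (.g (nat_lit 4439) (.e (nat_lit 2884) (nat_lit 184) (.e (nat_lit 426140) (nat_lit 3) (.e (nat_lit 204869) (nat_lit 29) (.e (nat_lit 360473) (nat_lit 8) (.e (nat_lit 557090) (nat_lit 12) (.e (nat_lit 164020) (nat_lit 45) (.e (nat_lit 696329) (nat_lit 5) .nil))))))) (.g (nat_lit 1) (.e (nat_lit 58726) (nat_lit 0) .nil) .nil))))))))) 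
(.nd (nat_lit 4) (.nd (nat_lit 5) (.nd (nat_lit 6) (.nd (nat_lit 7) (.nd (nat_lit 8) 
(.nd (nat_lit 9) 
(.lf (nat_lit 460808) (.g (nat_lit 2205) (.e (nat_lit 2842) (nat_lit 184) (.e (nat_lit 426568) (nat_lit 34) (.e (nat_lit 393271) (nat_lit 23) (.e (nat_lit 426131) (nat_lit 3) (.e (nat_lit 204830) (nat_lit 18) .nil))))) (.g (nat_lit 0) (.e (nat_lit 56222) (nat_lit 0) .nil) .nil))) 
(.lf (nat_lit 461320) (.g (nat_lit 4742) (.e (nat_lit 2869) (nat_lit 184) (.e (nat_lit 426136) (nat_lit 3) (.e (nat_lit 204869) (nat_lit 29) (.e (nat_lit 360474) (nat_lit 8) (.e (nat_lit 557091) (nat_lit 12) (.e (nat_lit 164020) (nat_lit 45) (.e (nat_lit 696330) (nat_lit 5) .nil))))))) (.g (nat_lit 1) (.e (nat_lit 57251) (nat_lit 0) .nil) .nil)))) (.nd (nat_lit 9) 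
(.lf (nat_lit 461064) (.g (nat_lit 2079) (.e (nat_lit 2855) (nat_lit 184) (.e (nat_lit 426509) (nat_lit 27) (.e (nat_lit 336228) (nat_lit 14) (.e (nat_lit 401438) (nat_lit 9) (.e (nat_lit 426533) (nat_lit 28) (.e (nat_lit 344068) (nat_lit 0) .nil)))))) (.g (nat_lit 1) (.e (nat_lit 56734) (nat_lit 0) .nil) .nil))) 
(.lf (nat_lit 461576) (.g (nat_lit 3325) (.e (nat_lit 2887) (nat_lit 184) (.e (nat_lit 426135) (nat_lit 3) (.e (nat_lit 204869) (nat_lit 29) (.e (nat_lit 360474) (nat_lit 8) (.e (nat_lit 557094) (nat_lit 12) .nil))))) (.g (nat_lit 0) (.e (nat_lit 57935) (nat_lit 0) .nil) .nil))))) (.nd (nat_lit 8) (.nd (nat_lit 9) 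
(.lf (nat_lit 460936) (.g (nat_lit 5348) (.e (nat_lit 2854) (nat_lit 184) (.e (nat_lit 426131) (nat_lit 3) (.e (nat_lit 204869) (nat_lit 29) (.e (nat_lit 360474) (nat_lit 8) (.e (nat_lit 557091) (nat_lit 12) (.e (nat_lit 164019) (nat_lit 45) (.e (nat_lit 696333) (nat_lit 5) .nil))))))) (.g (nat_lit 1) (.e (nat_lit 56507) (nat_lit 0) .nil) .nil))) 
(.lf (nat_lit 461448) (.g (nat_lit 3029) (.e (nat_lit 2878) (nat_lit 184) (.e (nat_lit 426125) (nat_lit 2) (.e (nat_lit 196666) (nat_lit 13) (.e (nat_lit 65617) (nat_lit 10) (.e (nat_lit 344132) (nat_lit 26) .nil))))) (.g (nat_lit 0) (.e (nat_lit 57681) (nat_lit 0) .nil) .nil)))) (.nd (nat_lit 9) 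
(.lf (nat_lit 461192) (.g (nat_lit 1724) (.e (nat_lit 2856) (nat_lit 184) (.e (nat_lit 426555) (nat_lit 32) (.e (nat_lit 376857) (nat_lit 21) (.e (nat_lit 57872) (nat_lit 264) (.e (nat_lit 1210) (nat_lit 89) .nil))))) (.g (nat_lit 0) (.e (nat_lit 56900) (nat_lit 0) .nil) .nil))) 
(.lf (nat_lit 461704) (.g (nat_lit 2553) (.e (nat_lit 2887) (nat_lit 184) (.e (nat_lit 426499) (nat_lit 27) (.e (nat_lit 335894) (nat_lit 0) (.e (nat_lit 6720) (nat_lit 361) (.e (nat_lit 172143) (nat_lit 25) (.e (nat_lit 319491) (nat_lit 0) (.e (nat_lit 5664) (nat_lit 312) .nil))))))) (.g (nat_lit 1) (.e (nat_lit 58413) (nat_lit 0) .nil) .nil)))))) 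
(.nd (nat_lit 7) (.nd (nat_lit 8) (.nd (nat_lit 9) 
(.lf (nat_lit 460872) (.g (nat_lit 2309) (.e (nat_lit 2847) (nat_lit 184) (.e (nat_lit 426566) (nat_lit 34) (.e (nat_lit 393294) (nat_lit 26) (.e (nat_lit 475177) (nat_lit 24) (.e (nat_lit 516117) (nat_lit 1) .nil))))) (.g (nat_lit 0) (.e (nat_lit 56360) (nat_lit 0) .nil) .nil))) 
(.lf (nat_lit 461384) (.g (nat_lit 4985) (.e (nat_lit 2877) (nat_lit 184) (.e (nat_lit 426125) (nat_lit 2) (.e (nat_lit 196666) (nat_lit 13) (.e (nat_lit 65617) (nat_lit 10) (.e (nat_lit 344127) (nat_lit 26) (.e (nat_lit 557090) (nat_lit 12) (.e (nat_lit 164017) (nat_lit 44) (.e (nat_lit 688138) (nat_lit 5) .nil)))))))) (.g (nat_lit 1) (.e (nat_lit 57488) (nat_lit 0) .nil) .nil)))) 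
(.nd (nat_lit 9) 
(.lf (nat_lit 461128) (.g (nat_lit 4204) (.e (nat_lit 2856) (nat_lit 184) (.e (nat_lit 426402) (nat_lit 15) (.e (nat_lit 1849) (nat_lit 124) (.e (nat_lit 557108) (nat_lit 15) (.e (nat_lit 188449) (nat_lit 22) (.e (nat_lit 196657) (nat_lit 12) (.e (nat_lit 57750) (nat_lit 201) .nil))))))) (.g (nat_lit 1) (.e (nat_lit 56826) (nat_lit 0) .nil) .nil))) 
(.lf (nat_lit 461640) (.g (nat_lit 2699) (.e (nat_lit 2887) (nat_lit 184) (.e (nat_lit 426211) (nat_lit 9) (.e (nat_lit 426528) (nat_lit 27) (.e (nat_lit 336231) (nat_lit 14) (.e (nat_lit 401448) (nat_lit 10) (.e (nat_lit 434285) (nat_lit 42) (.e (nat_lit 688138) (nat_lit 5) .nil))))))) (.g (nat_lit 1) (.e (nat_lit 58064) (nat_lit 0) .nil) .nil))))) (.nd (nat_lit 8) (.nd (nat_lit 9) 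
(.lf (nat_lit 461000) (.g (nat_lit 3005) (.e (nat_lit 2854) (nat_lit 184) (.e (nat_lit 426542) (nat_lit 29) (.e (nat_lit 352267) (nat_lit 0) (.e (nat_lit 3632) (nat_lit 227) (.e (nat_lit 778323) (nat_lit 5) (.e (nat_lit 73781) (nat_lit 32) .nil)))))) (.g (nat_lit 1) (.e (nat_lit 56641) (nat_lit 0) .nil) .nil))) 
(.lf (nat_lit 461512) (.g (nat_lit 3105) (.e (nat_lit 2886) (nat_lit 184) (.e (nat_lit 426211) (nat_lit 9) (.e (nat_lit 426125) (nat_lit 2) (.e (nat_lit 196627) (nat_lit 9) .nil)))) (.g (nat_lit 0) (.e (nat_lit 57865) (nat_lit 0) .nil) .nil)))) (.nd (nat_lit 9) 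
(.lf (nat_lit 461256) (.g (nat_lit 3191) (.e (nat_lit 2857) (nat_lit 184) (.e (nat_lit 426568) (nat_lit 34) (.e (nat_lit 393271) (nat_lit 23) (.e (nat_lit 426131) (nat_lit 3) (.e (nat_lit 204829) (nat_lit 18) (.e (nat_lit 57655) (nat_lit 152) (.e (nat_lit 2485) (nat_lit 157) .nil))))))) (.g (nat_lit 1) (.e (nat_lit 57017) (nat_lit 0) .nil) .nil))) 
(.lf (nat_lit 461768) (.g (nat_lit 4151) (.e (nat_lit 2883) (nat_lit 184) (.e (nat_lit 426125) (nat_lit 2) (.e (nat_lit 196666) (nat_lit 13) (.e (nat_lit 65617) (nat_lit 10) (.e (nat_lit 344130) (nat_lit 26) (.e (nat_lit 557089) (nat_lit 12) (.e (nat_lit 164017) (nat_lit 44) (.e (nat_lit 688139) (nat_lit 5) .nil)))))))) (.g (nat_lit 1) (.e (nat_lit 58596) (nat_lit 0) .nil) .nil))))))) 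
(.nd (nat_lit 6) (.nd (nat_lit 7) (.nd (nat_lit 8) (.nd (nat_lit 9) 
(.lf (nat_lit 460840) (.g (nat_lit 2208) (.e (nat_lit 2845) (nat_lit 184) (.e (nat_lit 426438) (nat_lit 18) (.e (nat_lit 98381) (nat_lit 31) (.e (nat_lit 466954) (nat_lit 11) (.e (nat_lit 335988) (nat_lit 1) (.e (nat_lit 57665) (nat_lit 152) (.e (nat_lit 2466) (nat_lit 157) .nil))))))) (.g (nat_lit 1) (.e (nat_lit 56284) (nat_lit 0) .nil) .nil))) 
(.lf (nat_lit 461352) (.g (nat_lit 3315) (.e (nat_lit 2874) (nat_lit 184) (.e (nat_lit 426136) (nat_lit 3) (.e (nat_lit 204869) (nat_lit 29) (.e (nat_lit 360474) (nat_lit 8) (.e (nat_lit 557091) (nat_lit 12) (.e (nat_lit 164020) (nat_lit 45) (.e (nat_lit 696328) (nat_lit 5) .nil))))))) (.g (nat_lit 1) (.e (nat_lit 57398) (nat_lit 0) .nil) .nil)))) (.nd (nat_lit 9) 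
(.lf (nat_lit 461096) (.g (nat_lit 1889) (.e (nat_lit 2855) (nat_lit 184) (.e (nat_lit 426542) (nat_lit 29) (.e (nat_lit 352267) (nat_lit 0) (.e (nat_lit 3631) (nat_lit 227) (.e (nat_lit 778324) (nat_lit 5) (.e (nat_lit 73781) (nat_lit 32) .nil)))))) (.g (nat_lit 1) (.e (nat_lit 56786) (nat_lit 0) .nil) .nil))) 
(.lf (nat_lit 461608) (.g (nat_lit 4064) (.e (nat_lit 2887) (nat_lit 184) (.e (nat_lit 433920) (nat_lit 3) (.e (nat_lit 204869) (nat_lit 29) (.e (nat_lit 360474) (nat_lit 8) (.e (nat_lit 557091) (nat_lit 12) (.e (nat_lit 164016) (nat_lit 44) (.e (nat_lit 688138) (nat_lit 5) .nil))))))) (.g (nat_lit 1) (.e (nat_lit 57967) (nat_lit 0) .nil) .nil))))) (.nd (nat_lit 8) (.nd (nat_lit 9) 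
(.lf (nat_lit 460968) (.g (nat_lit 1737) (.e (nat_lit 2854) (nat_lit 184) (.e (nat_lit 426436) (nat_lit 18) (.e (nat_lit 98358) (nat_lit 26) (.e (nat_lit 426438) (nat_lit 18) .nil)))) (.g (nat_lit 0) (.e (nat_lit 56592) (nat_lit 0) .nil) .nil))) 
(.lf (nat_lit 461480) (.g (nat_lit 2861) (.e (nat_lit 2878) (nat_lit 184) (.e (nat_lit 426310) (nat_lit 12) (.e (nat_lit 475185) (nat_lit 29) (.e (nat_lit 557109) (nat_lit 15) (.e (nat_lit 188441) (nat_lit 20) .nil))))) (.g (nat_lit 0) (.e (nat_lit 57804) (nat_lit 0) .nil) .nil)))) (.nd (nat_lit 9) 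
(.lf (nat_lit 461224) (.g (nat_lit 1593) (.e (nat_lit 2857) (nat_lit 184) (.e (nat_lit 426509) (nat_lit 27) (.e (nat_lit 336193) (nat_lit 12) (.e (nat_lit 385094) (nat_lit 49) (.e (nat_lit 778323) (nat_lit 5) .nil))))) (.g (nat_lit 0) (.e (nat_lit 56975) (nat_lit 0) .nil) .nil))) 
(.lf (nat_lit 461736) (.g (nat_lit 2957) (.e (nat_lit 2890) (nat_lit 184) (.e (nat_lit 426125) (nat_lit 2) (.e (nat_lit 196666) (nat_lit 13) (.e (nat_lit 65610) (nat_lit 10) (.e (nat_lit 344129) (nat_lit 26) .nil))))) (.g (nat_lit 0) (.e (nat_lit 58485) (nat_lit 0) .nil) .nil)))))) (.nd (nat_lit 7) (.nd (nat_lit 8) (.nd (nat_lit 9) 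
(.lf (nat_lit 460904) (.g (nat_lit 1996) (.e (nat_lit 2851) (nat_lit 184) (.e (nat_lit 426566) (nat_lit 34) (.e (nat_lit 393268) (nat_lit 23) (.e (nat_lit 426438) (nat_lit 18) (.e (nat_lit 98335) (nat_lit 18) .nil))))) (.g (nat_lit 0) (.e (nat_lit 56428) (nat_lit 0) .nil) .nil))) 
(.lf (nat_lit 461416) (.g (nat_lit 5181) (.e (nat_lit 2877) (nat_lit 184) (.e (nat_lit 426125) (nat_lit 2) (.e (nat_lit 196666) (nat_lit 13) (.e (nat_lit 65617) (nat_lit 10) (.e (nat_lit 344133) (nat_lit 26) (.e (nat_lit 557089) (nat_lit 12) (.e (nat_lit 164017) (nat_lit 44) (.e (nat_lit 688141) (nat_lit 5) .nil)))))))) (.g (nat_lit 1) (.e (nat_lit 57520) (nat_lit 0) .nil) .nil)))) 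
(.nd (nat_lit 9) 
(.lf (nat_lit 461160) (.g (nat_lit 2599) (.e (nat_lit 2856) (nat_lit 184) (.e (nat_lit 426509) (nat_lit 27) (.e (nat_lit 336226) (nat_lit 14) (.e (nat_lit 401437) (nat_lit 9) (.e (nat_lit 426533) (nat_lit 28) (.e (nat_lit 344069) (nat_lit 0) .nil)))))) (.g (nat_lit 1) (.e (nat_lit 56866) (nat_lit 0) .nil) .nil))) 
(.lf (nat_lit 461672) (.g (nat_lit 2438) (.e (nat_lit 2887) (nat_lit 184) (.e (nat_lit 426317) (nat_lit 12) (.e (nat_lit 475211) (nat_lit 41) (.e (nat_lit 712755) (nat_lit 30) (.e (nat_lit 450562) (nat_lit 0) (.e (nat_lit 5539) (nat_lit 306) (.e (nat_lit 2505) (nat_lit 157) .nil))))))) (.g (nat_lit 1) (.e (nat_lit 58282) (nat_lit 0) .nil) .nil))))) (.nd (nat_lit 8) (.nd (nat_lit 9) 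
(.lf (nat_lit 461032) (.g (nat_lit 1649) (.e (nat_lit 2854) (nat_lit 184) (.e (nat_lit 426568) (nat_lit 34) (.e (nat_lit 393283) (nat_lit 24) (.e (nat_lit 434231) (nat_lit 23) (.e (nat_lit 532500) (nat_lit 1) .nil))))) (.g (nat_lit 0) (.e (nat_lit 56693) (nat_lit 0) .nil) .nil))) 
(.lf (nat_lit 461544) (.g (nat_lit 4108) (.e (nat_lit 2887) (nat_lit 184) (.e (nat_lit 426125) (nat_lit 2) (.e (nat_lit 196666) (nat_lit 13) (.e (nat_lit 65617) (nat_lit 10) (.e (nat_lit 344130) (nat_lit 26) (.e (nat_lit 557090) (nat_lit 12) (.e (nat_lit 164016) (nat_lit 44) (.e (nat_lit 688139) (nat_lit 5) .nil)))))))) (.g (nat_lit 1) (.e (nat_lit 57902) (nat_lit 0) .nil) .nil)))) 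
(.nd (nat_lit 9) 
(.lf (nat_lit 461288) (.g (nat_lit 478) (.e (nat_lit 2862) (nat_lit 184) (.e (nat_lit 426540) (nat_lit 29) (.e (nat_lit 360192) (nat_lit 4) .nil))) (.g (nat_lit 0) (.e (nat_lit 57135) (nat_lit 0) .nil) .nil))) 
(.lf (nat_lit 461800) (.g (nat_lit 3700) (.e (nat_lit 2884) (nat_lit 184) (.e (nat_lit 426140) (nat_lit 3) (.e (nat_lit 204868) (nat_lit 29) (.e (nat_lit 360473) (nat_lit 8) (.e (nat_lit 557091) (nat_lit 12) (.e (nat_lit 164020) (nat_lit 45) (.e (nat_lit 696330) (nat_lit 5) .nil))))))) (.g (nat_lit 1) (.e (nat_lit 58717) (nat_lit 0) .nil) .nil)))))))) 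
(.nd (nat_lit 5) (.nd (nat_lit 6) (.nd (nat_lit 7) (.nd (nat_lit 8) (.nd (nat_lit 9) 
(.lf (nat_lit 460824) (.g (nat_lit 4007) (.e (nat_lit 2845) (nat_lit 184) (.e (nat_lit 426436) (nat_lit 18) (.e (nat_lit 98335) (nat_lit 18) (.e (nat_lit 164324) (nat_lit 230) .nil)))) (.g (nat_lit 0) (.e (nat_lit 56268) (nat_lit 0) .nil) .nil))) 
(.lf (nat_lit 461336) (.g (nat_lit 3249) (.e (nat_lit 2873) (nat_lit 184) (.e (nat_lit 426136) (nat_lit 3) (.e (nat_lit 204869) (nat_lit 29) (.e (nat_lit 360474) (nat_lit 8) (.e (nat_lit 557091) (nat_lit 12) (.e (nat_lit 164020) (nat_lit 45) (.e (nat_lit 696328) (nat_lit 5) .nil))))))) (.g (nat_lit 1) (.e (nat_lit 57357) (nat_lit 0) .nil) .nil)))) (.nd (nat_lit 9) 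
(.lf (nat_lit 461080) (.g (nat_lit 1511) (.e (nat_lit 2855) (nat_lit 184) (.e (nat_lit 426540) (nat_lit 29) (.e (nat_lit 352262) (nat_lit 0) (.e (nat_lit 3630) (nat_lit 227) (.e (nat_lit 778323) (nat_lit 5) (.e (nat_lit 73782) (nat_lit 32) .nil)))))) (.g (nat_lit 1) (.e (nat_lit 56770) (nat_lit 0) .nil) .nil))) 
(.lf (nat_lit 461592) (.g (nat_lit 4664) (.e (nat_lit 2887) (nat_lit 184) (.e (nat_lit 426136) (nat_lit 3) (.e (nat_lit 204869) (nat_lit 29) (.e (nat_lit 360475) (nat_lit 8) (.e (nat_lit 557091) (nat_lit 12) (.e (nat_lit 164017) (nat_lit 44) (.e (nat_lit 688139) (nat_lit 5) .nil))))))) (.g (nat_lit 1) (.e (nat_lit 57951) (nat_lit 0) .nil) .nil))))) (.nd (nat_lit 8) (.nd (nat_lit 9) 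
(.lf (nat_lit 460952) (.g (nat_lit 2191) (.e (nat_lit 2854) (nat_lit 184) (.e (nat_lit 426320) (nat_lit 12) (.e (nat_lit 475211) (nat_lit 41) (.e (nat_lit 712753) (nat_lit 30) (.e (nat_lit 450561) (nat_lit 0) .nil))))) (.g (nat_lit 0) (.e (nat_lit 56563) (nat_lit 0) .nil) .nil))) 
(.lf (nat_lit 461464) (.g (nat_lit 3335) (.e (nat_lit 2878) (nat_lit 184) (.e (nat_lit 426136) (nat_lit 3) (.e (nat_lit 204869) (nat_lit 29) (.e (nat_lit 360474) (nat_lit 8) (.e (nat_lit 557091) (nat_lit 12) (.e (nat_lit 164020) (nat_lit 45) (.e (nat_lit 696328) (nat_lit 5) .nil))))))) (.g (nat_lit 1) (.e (nat_lit 57711) (nat_lit 0) .nil) .nil)))) (.nd (nat_lit 9) 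
(.lf (nat_lit 461208) (.g (nat_lit 591) (.e (nat_lit 2857) (nat_lit 184) (.e (nat_lit 426482) (nat_lit 27) (.e (nat_lit 336193) (nat_lit 12) .nil))) (.g (nat_lit 0) (.e (nat_lit 56954) (nat_lit 0) .nil) .nil))) 
(.lf (nat_lit 461720) (.g (nat_lit 2903) (.e (nat_lit 2888) (nat_lit 184) (.e (nat_lit 426125) (nat_lit 2) (.e (nat_lit 196666) (nat_lit 13) (.e (nat_lit 65610) (nat_lit 10) (.e (nat_lit 344129) (nat_lit 26) .nil))))) (.g (nat_lit 0) (.e (nat_lit 58456) (nat_lit 0) .nil) .nil)))))) (.nd (nat_lit 7) (.nd (nat_lit 8) (.nd (nat_lit 9) 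
(.lf (nat_lit 460888) (.g (nat_lit 638) (.e (nat_lit 2849) (nat_lit 184) (.e (nat_lit 426436) (nat_lit 18) (.e (nat_lit 98386) (nat_lit 32) .nil))) (.g (nat_lit 0) (.e (nat_lit 56390) (nat_lit 0) .nil) .nil))) 
(.lf (nat_lit 461400) (.g (nat_lit 4684) (.e (nat_lit 2877) (nat_lit 184) (.e (nat_lit 426125) (nat_lit 2) (.e (nat_lit 196666) (nat_lit 13) (.e (nat_lit 65617) (nat_lit 10) (.e (nat_lit 344130) (nat_lit 26) (.e (nat_lit 557090) (nat_lit 12) (.e (nat_lit 164017) (nat_lit 44) (.e (nat_lit 688140) (nat_lit 5) .nil)))))))) (.g (nat_lit 1) (.e (nat_lit 57504) (nat_lit 0) .nil) .nil)))) 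
(.nd (nat_lit 9) 
(.lf (nat_lit 461144) (.g (nat_lit 1864) (.e (nat_lit 2856) (nat_lit 184) (.e (nat_lit 426482) (nat_lit 27) (.e (nat_lit 336060) (nat_lit 7) (.e (nat_lit 319537) (nat_lit 19) .nil)))) (.g (nat_lit 0) (.e (nat_lit 56849) (nat_lit 0) .nil) .nil))) 
(.lf (nat_lit 461656) (.g (nat_lit 2988) (.e (nat_lit 2887) (nat_lit 184) (.e (nat_lit 426216) (nat_lit 9) (.e (nat_lit 426528) (nat_lit 27) (.e (nat_lit 336231) (nat_lit 14) (.e (nat_lit 401448) (nat_lit 10) (.e (nat_lit 434286) (nat_lit 42) (.e (nat_lit 688138) (nat_lit 5) .nil))))))) (.g (nat_lit 1) (.e (nat_lit 58080) (nat_lit 0) .nil) .nil))))) (.nd (nat_lit 8) (.nd (nat_lit 9) 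
(.lf (nat_lit 461016) (.g (nat_lit 2588) (.e (nat_lit 2854) (nat_lit 184) (.e (nat_lit 426566) (nat_lit 34) (.e (nat_lit 393271) (nat_lit 23) (.e (nat_lit 426131) (nat_lit 3) (.e (nat_lit 204829) (nat_lit 18) (.e (nat_lit 57659) (nat_lit 152) (.e (nat_lit 2476) (nat_lit 157) .nil))))))) (.g (nat_lit 1) (.e (nat_lit 56657) (nat_lit 0) .nil) .nil))) 
(.lf (nat_lit 461528) (.g (nat_lit 4236) (.e (nat_lit 2887) (nat_lit 184) (.e (nat_lit 426113) (nat_lit 2) (.e (nat_lit 196666) (nat_lit 13) (.e (nat_lit 65617) (nat_lit 10) (.e (nat_lit 344133) (nat_lit 26) (.e (nat_lit 557089) (nat_lit 12) (.e (nat_lit 164017) (nat_lit 44) (.e (nat_lit 688138) (nat_lit 5) .nil)))))))) (.g (nat_lit 1) (.e (nat_lit 57886) (nat_lit 0) .nil) .nil)))) 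
(.nd (nat_lit 9) 
(.lf (nat_lit 461272) (.g (nat_lit 2051) (.e (nat_lit 2862) (nat_lit 184) (.e (nat_lit 426436) (nat_lit 18) (.e (nat_lit 98356) (nat_lit 26) (.e (nat_lit 426436) (nat_lit 18) (.e (nat_lit 98356) (nat_lit 26) (.e (nat_lit 426428) (nat_lit 17) (.e (nat_lit 90130) (nat_lit 9) .nil))))))) (.g (nat_lit 1) (.e (nat_lit 57115) (nat_lit 0) .nil) .nil))) 
(.lf (nat_lit 461784) (.g (nat_lit 2361) (.e (nat_lit 2884) (nat_lit 184) (.e (nat_lit 426125) (nat_lit 2) (.e (nat_lit 196666) (nat_lit 13) (.e (nat_lit 65617) (nat_lit 10) (.e (nat_lit 344127) (nat_lit 26) (.e (nat_lit 557089) (nat_lit 12) (.e (nat_lit 164020) (nat_lit 45) (.e (nat_lit 696327) (nat_lit 5) .nil)))))))) (.g (nat_lit 1) (.e (nat_lit 58683) (nat_lit 0) .nil) .nil))))))) 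
(.nd (nat_lit 6) (.nd (nat_lit 7) (.nd (nat_lit 8) (.nd (nat_lit 9) 
(.lf (nat_lit 460856) (.g (nat_lit 2972) (.e (nat_lit 2845) (nat_lit 184) (.e (nat_lit 426568) (nat_lit 34) (.e (nat_lit 393271) (nat_lit 23) (.e (nat_lit 426131) (nat_lit 3) (.e (nat_lit 204831) (nat_lit 18) (.e (nat_lit 57665) (nat_lit 152) (.e (nat_lit 2466) (nat_lit 157) .nil))))))) (.g (nat_lit 1) (.e (nat_lit 56315) (nat_lit 0) .nil) .nil))) 
(.lf (nat_lit 461368) (.g (nat_lit 5584) (.e (nat_lit 2877) (nat_lit 184) (.e (nat_lit 426125) (nat_lit 2) (.e (nat_lit 196666) (nat_lit 13) (.e (nat_lit 65610) (nat_lit 10) (.e (nat_lit 344129) (nat_lit 26) (.e (nat_lit 557089) (nat_lit 12) (.e (nat_lit 164017) (nat_lit 44) (.e (nat_lit 688138) (nat_lit 5) .nil)))))))) (.g (nat_lit 1) (.e (nat_lit 57472) (nat_lit 0) .nil) .nil)))) 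
(.nd (nat_lit 9) 
(.lf (nat_lit 461112) (.g (nat_lit 1182) (.e (nat_lit 2855) (nat_lit 184) (.e (nat_lit 426555) (nat_lit 32) (.e (nat_lit 376856) (nat_lit 21) .nil))) (.g (nat_lit 0) (.e (nat_lit 56803) (nat_lit 0) .nil) .nil))) 
(.lf (nat_lit 461624) (.g (nat_lit 2736) (.e (nat_lit 2887) (nat_lit 184) (.e (nat_lit 426171) (nat_lit 7) (.e (nat_lit 409646) (nat_lit 18) (.e (nat_lit 303140) (nat_lit 10) (.e (nat_lit 434275) (nat_lit 39) (.e (nat_lit 663584) (nat_lit 12) (.e (nat_lit 164017) (nat_lit 44) (.e (nat_lit 688138) (nat_lit 5) .nil)))))))) (.g (nat_lit 1) (.e (nat_lit 58015) (nat_lit 0) .nil) .nil))))) 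
(.nd (nat_lit 8) (.nd (nat_lit 9) 
(.lf (nat_lit 460984) (.g (nat_lit 1150) (.e (nat_lit 2854) (nat_lit 184) (.e (nat_lit 426533) (nat_lit 28) (.e (nat_lit 344066) (nat_lit 0) (.e (nat_lit 2936) (nat_lit 184) (.e (nat_lit 426532) (nat_lit 28) (.e (nat_lit 344069) (nat_lit 0) .nil)))))) (.g (nat_lit 1) (.e (nat_lit 56621) (nat_lit 0) .nil) .nil))) 
(.lf (nat_lit 461496) (.g (nat_lit 3777) (.e (nat_lit 2879) (nat_lit 184) (.e (nat_lit 426125) (nat_lit 2) (.e (nat_lit 196666) (nat_lit 13) (.e (nat_lit 65617) (nat_lit 10) (.e (nat_lit 344127) (nat_lit 26) .nil))))) (.g (nat_lit 0) (.e (nat_lit 57832) (nat_lit 0) .nil) .nil)))) (.nd (nat_lit 9) 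
(.lf (nat_lit 461240) (.g (nat_lit 1799) (.e (nat_lit 2857) (nat_lit 184) (.e (nat_lit 426538) (nat_lit 29) (.e (nat_lit 352262) (nat_lit 0) (.e (nat_lit 3631) (nat_lit 227) (.e (nat_lit 778323) (nat_lit 5) .nil))))) (.g (nat_lit 0) (.e (nat_lit 56992) (nat_lit 0) .nil) .nil))) 
(.lf (nat_lit 461752) (.g (nat_lit 3601) (.e (nat_lit 2882) (nat_lit 184) (.e (nat_lit 426125) (nat_lit 2) (.e (nat_lit 196666) (nat_lit 13) (.e (nat_lit 65617) (nat_lit 10) (.e (nat_lit 344130) (nat_lit 26) .nil))))) (.g (nat_lit 0) (.e (nat_lit 58550) (nat_lit 0) .nil) .nil)))))) (.nd (nat_lit 7) (.nd (nat_lit 8) (.nd (nat_lit 9) 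
(.lf (nat_lit 460920) (.g (nat_lit 1813) (.e (nat_lit 2852) (nat_lit 184) (.e (nat_lit 426438) (nat_lit 18) (.e (nat_lit 98370) (nat_lit 28) (.e (nat_lit 442391) (nat_lit 19) (.e (nat_lit 401413) (nat_lit 0) (.e (nat_lit 3459) (nat_lit 216) (.e (nat_lit 688140) (nat_lit 5) .nil))))))) (.g (nat_lit 1) (.e (nat_lit 56449) (nat_lit 0) .nil) .nil))) 
(.lf (nat_lit 461432) (.g (nat_lit 4334) (.e (nat_lit 2878) (nat_lit 184) (.e (nat_lit 426125) (nat_lit 2) (.e (nat_lit 196666) (nat_lit 13) (.e (nat_lit 65610) (nat_lit 10) (.e (nat_lit 344129) (nat_lit 26) (.e (nat_lit 557090) (nat_lit 12) (.e (nat_lit 164018) (nat_lit 45) (.e (nat_lit 696330) (nat_lit 5) .nil)))))))) (.g (nat_lit 1) (.e (nat_lit 57654) (nat_lit 0) .nil) .nil)))) 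
(.nd (nat_lit 9) 
(.lf (nat_lit 461176) (.g (nat_lit 1652) (.e (nat_lit 2856) (nat_lit 184) (.e (nat_lit 426533) (nat_lit 28) (.e (nat_lit 344068) (nat_lit 0) (.e (nat_lit 3090) (nat_lit 191) (.e (nat_lit 483350) (nat_lit 17) (.e (nat_lit 7936) (nat_lit 357) .nil)))))) (.g (nat_lit 1) (.e (nat_lit 56882) (nat_lit 0) .nil) .nil))) 
(.lf (nat_lit 461688) (.g (nat_lit 4038) (.e (nat_lit 2887) (nat_lit 184) (.e (nat_lit 426412) (nat_lit 15) (.e (nat_lit 1856) (nat_lit 124) (.e (nat_lit 557101) (nat_lit 13) (.e (nat_lit 172115) (nat_lit 10) (.e (nat_lit 434231) (nat_lit 23) (.e (nat_lit 532481) (nat_lit 0) (.e (nat_lit 6622) (nat_lit 357) .nil)))))))) (.g (nat_lit 1) (.e (nat_lit 58391) (nat_lit 0) .nil) .nil))))) 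
(.nd (nat_lit 8) (.nd (nat_lit 9) 
(.lf (nat_lit 461048) (.g (nat_lit 3069) (.e (nat_lit 2855) (nat_lit 184) (.e (nat_lit 426402) (nat_lit 15) (.e (nat_lit 1858) (nat_lit 124) (.e (nat_lit 557101) (nat_lit 13) (.e (nat_lit 172097) (nat_lit 9) (.e (nat_lit 426140) (nat_lit 3) (.e (nat_lit 204821) (nat_lit 17) (.e (nat_lit 6676) (nat_lit 357) .nil)))))))) (.g (nat_lit 1) (.e (nat_lit 56718) (nat_lit 0) .nil) .nil))) 
(.lf (nat_lit 461560) (.g (nat_lit 2278) (.e (nat_lit 2887) (nat_lit 184) (.e (nat_lit 426134) (nat_lit 3) (.e (nat_lit 204855) (nat_lit 26) (.e (nat_lit 336176) (nat_lit 10) (.e (nat_lit 344132) (nat_lit 26) (.e (nat_lit 557094) (nat_lit 12) (.e (nat_lit 164016) (nat_lit 44) (.e (nat_lit 688138) (nat_lit 5) .nil)))))))) (.g (nat_lit 1) (.e (nat_lit 57918) (nat_lit 0) .nil) .nil)))) 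
(.nd (nat_lit 9) 
(.lf (nat_lit 461304) (.g (nat_lit 2025) (.e (nat_lit 2862) (nat_lit 184) (.e (nat_lit 426566) (nat_lit 34) (.e (nat_lit 393291) (nat_lit 26) (.e (nat_lit 475177) (nat_lit 24) (.e (nat_lit 516120) (nat_lit 1) .nil))))) (.g (nat_lit 0) (.e (nat_lit 57159) (nat_lit 0) .nil) .nil))) 
(.lf (nat_lit 461816) (.g (nat_lit 3815) (.e (nat_lit 2884) (nat_lit 184) (.e (nat_lit 426140) (nat_lit 3) (.e (nat_lit 204869) (nat_lit 29) (.e (nat_lit 360475) (nat_lit 8) (.e (nat_lit 557091) (nat_lit 12) (.e (nat_lit 164018) (nat_lit 45) (.e (nat_lit 696329) (nat_lit 5) .nil))))))) (.g (nat_lit 1) (.e (nat_lit 58735) (nat_lit 0) .nil) .nil)))))))))) 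
(.nd (nat_lit 3) (.nd (nat_lit 4) (.nd (nat_lit 5) (.nd (nat_lit 6) (.nd (nat_lit 7) 
(.nd (nat_lit 8) (.nd (nat_lit 9) 
(.lf (nat_lit 460804) (.g (nat_lit 784) (.e (nat_lit 2842) (nat_lit 184) (.e (nat_lit 426566) (nat_lit 34) (.e (nat_lit 393273) (nat_lit 23) .nil))) (.g (nat_lit 0) (.e (nat_lit 56218) (nat_lit 0) .nil) .nil))) 
(.lf (nat_lit 461316) (.g (nat_lit 1982) (.e (nat_lit 2870) (nat_lit 184) (.e (nat_lit 426412) (nat_lit 15) (.e (nat_lit 1856) (nat_lit 124) (.e (nat_lit 557100) (nat_lit 13) (.e (nat_lit 172106) (nat_lit 10) .nil))))) (.g (nat_lit 0) (.e (nat_lit 57243) (nat_lit 0) .nil) .nil)))) (.nd (nat_lit 9) 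
(.lf (nat_lit 461060) (.g (nat_lit 612) (.e (nat_lit 2855) (nat_lit 184) (.e (nat_lit 426482) (nat_lit 27) (.e (nat_lit 336193) (nat_lit 12) .nil))) (.g (nat_lit 0) (.e (nat_lit 56730) (nat_lit 0) .nil) .nil))) 
(.lf (nat_lit 461572) (.g (nat_lit 2741) (.e (nat_lit 2887) (nat_lit 184) (.e (nat_lit 426135) (nat_lit 3) (.e (nat_lit 204868) (nat_lit 29) (.e (nat_lit 360473) (nat_lit 8) (.e (nat_lit 557091) (nat_lit 12) (.e (nat_lit 164016) (nat_lit 44) (.e (nat_lit 688138) (nat_lit 5) .nil))))))) (.g (nat_lit 1) (.e (nat_lit 57931) (nat_lit 0) .nil) .nil))))) (.nd (nat_lit 8) (.nd (nat_lit 9) 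
(.lf (nat_lit 460932) (.g (nat_lit 2722) (.e (nat_lit 2853) (nat_lit 184) (.e (nat_lit 426566) (nat_lit 34) (.e (nat_lit 393271) (nat_lit 23) (.e (nat_lit 426436) (nat_lit 18) (.e (nat_lit 98335) (nat_lit 18) .nil))))) (.g (nat_lit 0) (.e (nat_lit 56494) (nat_lit 0) .nil) .nil))) 
(.lf (nat_lit 461444) (.g (nat_lit 2976) (.e (nat_lit 2878) (nat_lit 184) (.e (nat_lit 426125) (nat_lit 2) (.e (nat_lit 196666) (nat_lit 13) (.e (nat_lit 65617) (nat_lit 10) (.e (nat_lit 344130) (nat_lit 26) (.e (nat_lit 557090) (nat_lit 12) (.e (nat_lit 164020) (nat_lit 45) (.e (nat_lit 696326) (nat_lit 5) .nil)))))))) (.g (nat_lit 1) (.e (nat_lit 57677) (nat_lit 0) .nil) .nil)))) 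
(.nd (nat_lit 9) 
(.lf (nat_lit 461188) (.g (nat_lit 1281) (.e (nat_lit 2856) (nat_lit 184) (.e (nat_lit 426544) (nat_lit 30) (.e (nat_lit 360453) (nat_lit 0) (.e (nat_lit 5905) (nat_lit 320) (.e (nat_lit 1211) (nat_lit 89) .nil))))) (.g (nat_lit 0) (.e (nat_lit 56894) (nat_lit 0) .nil) .nil))) 
(.lf (nat_lit 461700) (.g (nat_lit 2844) (.e (nat_lit 2887) (nat_lit 184) (.e (nat_lit 426412) (nat_lit 15) (.e (nat_lit 1856) (nat_lit 124) (.e (nat_lit 557109) (nat_lit 15) (.e (nat_lit 188452) (nat_lit 23) .nil))))) (.g (nat_lit 0) (.e (nat_lit 58403) (nat_lit 0) .nil) .nil)))))) (.nd (nat_lit 7) (.nd (nat_lit 8) (.nd (nat_lit 9) 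
(.lf (nat_lit 460868) (.g (nat_lit 1504) (.e (nat_lit 2847) (nat_lit 184) (.e (nat_lit 426566) (nat_lit 34) (.e (nat_lit 393271) (nat_lit 23) (.e (nat_lit 426131) (nat_lit 3) .nil)))) (.g (nat_lit 0) (.e (nat_lit 56353) (nat_lit 0) .nil) .nil))) 
(.lf (nat_lit 461380) (.g (nat_lit 3002) (.e (nat_lit 2877) (nat_lit 184) (.e (nat_lit 426125) (nat_lit 2) (.e (nat_lit 196666) (nat_lit 13) (.e (nat_lit 65617) (nat_lit 10) (.e (nat_lit 344127) (nat_lit 26) (.e (nat_lit 557089) (nat_lit 12) (.e (nat_lit 164017) (nat_lit 44) (.e (nat_lit 688138) (nat_lit 5) .nil)))))))) (.g (nat_lit 1) (.e (nat_lit 57484) (nat_lit 0) .nil) .nil)))) 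
(.nd (nat_lit 9) 
(.lf (nat_lit 461124) (.g (nat_lit 4057) (.e (nat_lit 2856) (nat_lit 184) (.e (nat_lit 426392) (nat_lit 15) (.e (nat_lit 1853) (nat_lit 124) (.e (nat_lit 557109) (nat_lit 15) (.e (nat_lit 188449) (nat_lit 22) (.e (nat_lit 196661) (nat_lit 12) (.e (nat_lit 57750) (nat_lit 201) .nil))))))) (.g (nat_lit 1) (.e (nat_lit 56821) (nat_lit 0) .nil) .nil))) 
(.lf (nat_lit 461636) (.g (nat_lit 2161) (.e (nat_lit 2887) (nat_lit 184) (.e (nat_lit 426208) (nat_lit 9) (.e (nat_lit 426528) (nat_lit 27) (.e (nat_lit 336231) (nat_lit 14) (.e (nat_lit 401446) (nat_lit 10) (.e (nat_lit 434286) (nat_lit 42) (.e (nat_lit 688139) (nat_lit 5) .nil))))))) (.g (nat_lit 1) (.e (nat_lit 58047) (nat_lit 0) .nil) .nil))))) (.nd (nat_lit 8) (.nd (nat_lit 9) 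
(.lf (nat_lit 460996) (.g (nat_lit 2364) (.e (nat_lit 2854) (nat_lit 184) (.e (nat_lit 426540) (nat_lit 29) (.e (nat_lit 352262) (nat_lit 0) (.e (nat_lit 3632) (nat_lit 227) (.e (nat_lit 778324) (nat_lit 5) (.e (nat_lit 73781) (nat_lit 32) .nil)))))) (.g (nat_lit 1) (.e (nat_lit 56637) (nat_lit 0) .nil) .nil))) 
(.lf (nat_lit 461508) (.g (nat_lit 4001) (.e (nat_lit 2886) (nat_lit 184) (.e (nat_lit 426125) (nat_lit 2) (.e (nat_lit 196666) (nat_lit 13) (.e (nat_lit 65617) (nat_lit 10) (.e (nat_lit 344132) (nat_lit 26) .nil))))) (.g (nat_lit 0) (.e (nat_lit 57854) (nat_lit 0) .nil) .nil)))) (.nd (nat_lit 9) 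
(.lf (nat_lit 461252) (.g (nat_lit 2224) (.e (nat_lit 2857) (nat_lit 184) (.e (nat_lit 426555) (nat_lit 32) (.e (nat_lit 376859) (nat_lit 21) (.e (nat_lit 57873) (nat_lit 264) (.e (nat_lit 1210) (nat_lit 89) .nil))))) (.g (nat_lit 0) (.e (nat_lit 57013) (nat_lit 0) .nil) .nil))) 
(.lf (nat_lit 461764) (.g (nat_lit 1824) (.e (nat_lit 2882) (nat_lit 184) (.e (nat_lit 426317) (nat_lit 12) (.e (nat_lit 475185) (nat_lit 29) (.e (nat_lit 557105) (nat_lit 14) (.e (nat_lit 180278) (nat_lit 32) .nil))))) (.g (nat_lit 0) (.e (nat_lit 58580) (nat_lit 0) .nil) .nil))))))) (.nd (nat_lit 6) (.nd (nat_lit 7) (.nd (nat_lit 8) (.nd (nat_lit 9) 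
(.lf (nat_lit 460836) (.g (nat_lit 1899) (.e (nat_lit 2845) (nat_lit 184) (.e (nat_lit 426436) (nat_lit 18) (.e (nat_lit 98381) (nat_lit 31) (.e (nat_lit 466954) (nat_lit 11) (.e (nat_lit 335988) (nat_lit 1) (.e (nat_lit 57665) (nat_lit 152) (.e (nat_lit 2466) (nat_lit 157) .nil))))))) (.g (nat_lit 1) (.e (nat_lit 56280) (nat_lit 0) .nil) .nil))) 
(.lf (nat_lit 461348) (.g (nat_lit 2922) (.e (nat_lit 2875) (nat_lit 184) (.e (nat_lit 426125) (nat_lit 2) (.e (nat_lit 196666) (nat_lit 13) (.e (nat_lit 65610) (nat_lit 10) (.e (nat_lit 344129) (nat_lit 26) .nil))))) (.g (nat_lit 0) (.e (nat_lit 57388) (nat_lit 0) .nil) .nil)))) (.nd (nat_lit 9) 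
(.lf (nat_lit 461092) (.g (nat_lit 1941) (.e (nat_lit 2855) (nat_lit 184) (.e (nat_lit 426542) (nat_lit 29) (.e (nat_lit 352265) (nat_lit 0) (.e (nat_lit 3632) (nat_lit 227) (.e (nat_lit 778324) (nat_lit 5) (.e (nat_lit 73781) (nat_lit 32) .nil)))))) (.g (nat_lit 1) (.e (nat_lit 56782) (nat_lit 0) .nil) .nil))) 
(.lf (nat_lit 461604) (.g (nat_lit 4612) (.e (nat_lit 2887) (nat_lit 184) (.e (nat_lit 426140) (nat_lit 3) (.e (nat_lit 204869) (nat_lit 29) (.e (nat_lit 360475) (nat_lit 8) (.e (nat_lit 557091) (nat_lit 12) (.e (nat_lit 164017) (nat_lit 44) (.e (nat_lit 688138) (nat_lit 5) .nil))))))) (.g (nat_lit 1) (.e (nat_lit 57963) (nat_lit 0) .nil) .nil))))) (.nd (nat_lit 8) (.nd (nat_lit 9) 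
(.lf (nat_lit 460964) (.g (nat_lit 637) (.e (nat_lit 2854) (nat_lit 184) (.e (nat_lit 426436) (nat_lit 18) (.e (nat_lit 98358) (nat_lit 26) .nil))) (.g (nat_lit 0) (.e (nat_lit 56588) (nat_lit 0) .nil) .nil))) 
(.lf (nat_lit 461476) (.g (nat_lit 4081) (.e (nat_lit 2878) (nat_lit 184) (.e (nat_lit 426211) (nat_lit 9) (.e (nat_lit 426125) (nat_lit 2) (.e (nat_lit 196630) (nat_lit 9) (.e (nat_lit 1401) (nat_lit 106) .nil))))) (.g (nat_lit 0) (.e (nat_lit 57800) (nat_lit 0) .nil) .nil)))) (.nd (nat_lit 9) 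
(.lf (nat_lit 461220) (.g (nat_lit 1917) (.e (nat_lit 2857) (nat_lit 184) (.e (nat_lit 426482) (nat_lit 27) (.e (nat_lit 336228) (nat_lit 14) (.e (nat_lit 401459) (nat_lit 13) (.e (nat_lit 483354) (nat_lit 17) .nil))))) (.g (nat_lit 0) (.e (nat_lit 56971) (nat_lit 0) .nil) .nil))) 
(.lf (nat_lit 461732) (.g (nat_lit 1814) (.e (nat_lit 2888) (nat_lit 184) (.e (nat_lit 426340) (nat_lit 14) (.e (nat_lit 491537) (nat_lit 2) (.e (nat_lit 90176) (nat_lit 15) (.e (nat_lit 188439) (nat_lit 20) .nil))))) (.g (nat_lit 0) (.e (nat_lit 58469) (nat_lit 0) .nil) .nil)))))) (.nd (nat_lit 7) (.nd (nat_lit 8) (.nd (nat_lit 9) 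
(.lf (nat_lit 460900) (.g (nat_lit 4146) (.e (nat_lit 2851) (nat_lit 184) (.e (nat_lit 426436) (nat_lit 18) (.e (nat_lit 98335) (nat_lit 18) (.e (nat_lit 164332) (nat_lit 230) .nil)))) (.g (nat_lit 0) (.e (nat_lit 56418) (nat_lit 0) .nil) .nil))) 
(.lf (nat_lit 461412) (.g (nat_lit 2413) (.e (nat_lit 2877) (nat_lit 184) (.e (nat_lit 426125) (nat_lit 2) (.e (nat_lit 196666) (nat_lit 13) (.e (nat_lit 65617) (nat_lit 10) (.e (nat_lit 344133) (nat_lit 26) .nil))))) (.g (nat_lit 0) (.e (nat_lit 57516) (nat_lit 0) .nil) .nil)))) (.nd (nat_lit 9) 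
(.lf (nat_lit 461156) (.g (nat_lit 3604) (.e (nat_lit 2856) (nat_lit 184) (.e (nat_lit 426509) (nat_lit 27) (.e (nat_lit 336193) (nat_lit 12) (.e (nat_lit 385094) (nat_lit 49) (.e (nat_lit 778324) (nat_lit 5) (.e (nat_lit 73781) (nat_lit 32) .nil)))))) (.g (nat_lit 1) (.e (nat_lit 56862) (nat_lit 0) .nil) .nil))) 
(.lf (nat_lit 461668) (.g (nat_lit 1649) (.e (nat_lit 2887) (nat_lit 184) (.e (nat_lit 426312) (nat_lit 12) (.e (nat_lit 475199) (nat_lit 40) (.e (nat_lit 704598) (nat_lit 6) (.e (nat_lit 196352) (nat_lit 8) (.e (nat_lit 155650) (nat_lit 0) .nil)))))) (.g (nat_lit 1) (.e (nat_lit 58266) (nat_lit 0) .nil) .nil))))) (.nd (nat_lit 8) (.nd (nat_lit 9) 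
(.lf (nat_lit 461028) (.g (nat_lit 1978) (.e (nat_lit 2854) (nat_lit 184) (.e (nat_lit 426566) (nat_lit 34) (.e (nat_lit 393294) (nat_lit 26) (.e (nat_lit 475179) (nat_lit 24) .nil)))) (.g (nat_lit 0) (.e (nat_lit 56679) (nat_lit 0) .nil) .nil))) 
(.lf (nat_lit 461540) (.g (nat_lit 2614) (.e (nat_lit 2887) (nat_lit 184) (.e (nat_lit 426120) (nat_lit 2) (.e (nat_lit 196666) (nat_lit 13) (.e (nat_lit 65610) (nat_lit 10) (.e (nat_lit 344129) (nat_lit 26) (.e (nat_lit 557090) (nat_lit 12) (.e (nat_lit 164017) (nat_lit 44) (.e (nat_lit 688138) (nat_lit 5) .nil)))))))) (.g (nat_lit 1) (.e (nat_lit 57898) (nat_lit 0) .nil) .nil)))) 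
(.nd (nat_lit 9) 
(.lf (nat_lit 461284) (.g (nat_lit 2115) (.e (nat_lit 2862) (nat_lit 184) (.e (nat_lit 426506) (nat_lit 27) (.e (nat_lit 336200) (nat_lit 12) (.e (nat_lit 385094) (nat_lit 49) (.e (nat_lit 778323) (nat_lit 5) (.e (nat_lit 81664) (nat_lit 32) .nil)))))) (.g (nat_lit 1) (.e (nat_lit 57131) (nat_lit 0) .nil) .nil))) 
(.lf (nat_lit 461796) (.g (nat_lit 3577) (.e (nat_lit 2884) (nat_lit 184) (.e (nat_lit 426140) (nat_lit 3) (.e (nat_lit 204868) (nat_lit 29) (.e (nat_lit 360473) (nat_lit 8) (.e (nat_lit 557090) (nat_lit 12) (.e (nat_lit 164020) (nat_lit 45) (.e (nat_lit 696328) (nat_lit 5) .nil))))))) (.g (nat_lit 1) (.e (nat_lit 58713) (nat_lit 0) .nil) .nil)))))))) 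
(.nd (nat_lit 5) (.nd (nat_lit 6) (.nd (nat_lit 7) (.nd (nat_lit 8) (.nd (nat_lit 9) 
(.lf (nat_lit 460820) (.g (nat_lit 2882) (.e (nat_lit 2844) (nat_lit 184) (.e (nat_lit 426568) (nat_lit 34) (.e (nat_lit 393271) (nat_lit 23) (.e (nat_lit 426131) (nat_lit 3) (.e (nat_lit 204830) (nat_lit 18) (.e (nat_lit 57663) (nat_lit 152) (.e (nat_lit 2462) (nat_lit 157) .nil))))))) (.g (nat_lit 1) (.e (nat_lit 56257) (nat_lit 0) .nil) .nil))) 
(.lf (nat_lit 461332) (.g (nat_lit 2685) (.e (nat_lit 2873) (nat_lit 184) (.e (nat_lit 426125) (nat_lit 2) (.e (nat_lit 196666) (nat_lit 13) (.e (nat_lit 65617) (nat_lit 10) .nil)))) (.g (nat_lit 0) (.e (nat_lit 57353) (nat_lit 0) .nil) .nil)))) (.nd (nat_lit 9) 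
(.lf (nat_lit 461076) (.g (nat_lit 2321) (.e (nat_lit 2855) (nat_lit 184) (.e (nat_lit 426533) (nat_lit 28) (.e (nat_lit 344069) (nat_lit 0) (.e (nat_lit 2856) (nat_lit 184) (.e (nat_lit 426533) (nat_lit 28) (.e (nat_lit 344069) (nat_lit 0) .nil)))))) (.g (nat_lit 1) (.e (nat_lit 56753) (nat_lit 0) .nil) .nil))) 
(.lf (nat_lit 461588) (.g (nat_lit 2552) (.e (nat_lit 2887) (nat_lit 184) (.e (nat_lit 426136) (nat_lit 3) (.e (nat_lit 204869) (nat_lit 29) (.e (nat_lit 360474) (nat_lit 8) (.e (nat_lit 557094) (nat_lit 12) (.e (nat_lit 164016) (nat_lit 44) (.e (nat_lit 688139) (nat_lit 5) .nil))))))) (.g (nat_lit 1) (.e (nat_lit 57947) (nat_lit 0) .nil) .nil))))) (.nd (nat_lit 8) (.nd (nat_lit 9) 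
(.lf (nat_lit 460948) (.g (nat_lit 1298) (.e (nat_lit 2854) (nat_lit 184) (.e (nat_lit 426320) (nat_lit 12) (.e (nat_lit 475207) (nat_lit 41) (.e (nat_lit 712755) (nat_lit 30) (.e (nat_lit 450593) (nat_lit 16) .nil))))) (.g (nat_lit 0) (.e (nat_lit 56544) (nat_lit 0) .nil) .nil))) 
(.lf (nat_lit 461460) (.g (nat_lit 5503) (.e (nat_lit 2878) (nat_lit 184) (.e (nat_lit 426125) (nat_lit 2) (.e (nat_lit 196666) (nat_lit 13) (.e (nat_lit 65617) (nat_lit 10) (.e (nat_lit 344133) (nat_lit 26) (.e (nat_lit 557091) (nat_lit 12) (.e (nat_lit 164018) (nat_lit 45) (.e (nat_lit 696330) (nat_lit 5) .nil)))))))) (.g (nat_lit 1) (.e (nat_lit 57705) (nat_lit 0) .nil) .nil)))) 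
(.nd (nat_lit 9) 
(.lf (nat_lit 461204) (.g (nat_lit 4041) (.e (nat_lit 2857) (nat_lit 184) (.e (nat_lit 426402) (nat_lit 15) (.e (nat_lit 1858) (nat_lit 124) (.e (nat_lit 557100) (nat_lit 13) (.e (nat_lit 172106) (nat_lit 10) (.e (nat_lit 434231) (nat_lit 23) (.e (nat_lit 532483) (nat_lit 0) (.e (nat_lit 6684) (nat_lit 357) .nil)))))))) (.g (nat_lit 1) (.e (nat_lit 56918) (nat_lit 0) .nil) .nil))) 
(.lf (nat_lit 461716) (.g (nat_lit 3418) (.e (nat_lit 2887) (nat_lit 184) (.e (nat_lit 426499) (nat_lit 27) (.e (nat_lit 336231) (nat_lit 14) (.e (nat_lit 401458) (nat_lit 13) (.e (nat_lit 483350) (nat_lit 17) (.e (nat_lit 7936) (nat_lit 357) .nil)))))) (.g (nat_lit 1) (.e (nat_lit 58444) (nat_lit 0) .nil) .nil)))))) (.nd (nat_lit 7) (.nd (nat_lit 8) (.nd (nat_lit 9) 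
(.lf (nat_lit 460884) (.g (nat_lit 4113) (.e (nat_lit 2849) (nat_lit 184) (.e (nat_lit 426436) (nat_lit 18) (.e (nat_lit 98335) (nat_lit 18) (.e (nat_lit 164330) (nat_lit 230) .nil)))) (.g (nat_lit 0) (.e (nat_lit 56385) (nat_lit 0) .nil) .nil))) 
(.lf (nat_lit 461396) (.g (nat_lit 4891) (.e (nat_lit 2877) (nat_lit 184) (.e (nat_lit 426125) (nat_lit 2) (.e (nat_lit 196666) (nat_lit 13) (.e (nat_lit 65617) (nat_lit 10) (.e (nat_lit 344130) (nat_lit 26) (.e (nat_lit 557090) (nat_lit 12) (.e (nat_lit 164016) (nat_lit 44) (.e (nat_lit 688141) (nat_lit 5) .nil)))))))) (.g (nat_lit 1) (.e (nat_lit 57500) (nat_lit 0) .nil) .nil)))) 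
(.nd (nat_lit 9) 
(.lf (nat_lit 461140) (.g (nat_lit 4810) (.e (nat_lit 2856) (nat_lit 184) (.e (nat_lit 426436) (nat_lit 18) (.e (nat_lit 98335) (nat_lit 18) (.e (nat_lit 164327) (nat_lit 230) .nil)))) (.g (nat_lit 0) (.e (nat_lit 56838) (nat_lit 0) .nil) .nil))) 
(.lf (nat_lit 461652) (.g (nat_lit 2271) (.e (nat_lit 2887) (nat_lit 184) (.e (nat_lit 426216) (nat_lit 9) (.e (nat_lit 426528) (nat_lit 27) (.e (nat_lit 335894) (nat_lit 0) (.e (nat_lit 6724) (nat_lit 362) (.e (nat_lit 180268) (nat_lit 24) (.e (nat_lit 688138) (nat_lit 5) .nil))))))) (.g (nat_lit 1) (.e (nat_lit 58076) (nat_lit 0) .nil) .nil))))) (.nd (nat_lit 8) (.nd (nat_lit 9) 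
(.lf (nat_lit 461012) (.g (nat_lit 1062) (.e (nat_lit 2854) (nat_lit 184) (.e (nat_lit 426566) (nat_lit 34) (.e (nat_lit 393270) (nat_lit 23) (.e (nat_lit 426436) (nat_lit 18) .nil)))) (.g (nat_lit 0) (.e (nat_lit 56653) (nat_lit 0) .nil) .nil))) 
(.lf (nat_lit 461524) (.g (nat_lit 3757) (.e (nat_lit 2887) (nat_lit 184) (.e (nat_lit 426113) (nat_lit 2) (.e (nat_lit 196666) (nat_lit 13) (.e (nat_lit 65617) (nat_lit 10) (.e (nat_lit 344130) (nat_lit 26) (.e (nat_lit 557089) (nat_lit 12) (.e (nat_lit 164017) (nat_lit 44) (.e (nat_lit 688139) (nat_lit 5) .nil)))))))) (.g (nat_lit 1) (.e (nat_lit 57882) (nat_lit 0) .nil) .nil)))) 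
(.nd (nat_lit 9) 
(.lf (nat_lit 461268) (.g (nat_lit 2029) (.e (nat_lit 2860) (nat_lit 184) (.e (nat_lit 426540) (nat_lit 29) (.e (nat_lit 352262) (nat_lit 0) (.e (nat_lit 3632) (nat_lit 227) (.e (nat_lit 778323) (nat_lit 5) (.e (nat_lit 81664) (nat_lit 32) .nil)))))) (.g (nat_lit 1) (.e (nat_lit 57069) (nat_lit 0) .nil) .nil))) 
(.lf (nat_lit 461780) (.g (nat_lit 1218) (.e (nat_lit 2884) (nat_lit 184) (.e (nat_lit 426125) (nat_lit 2) (.e (nat_lit 196666) (nat_lit 13) (.e (nat_lit 65617) (nat_lit 10) .nil)))) (.g (nat_lit 0) (.e (nat_lit 58679) (nat_lit 0) .nil) .nil))))))) (.nd (nat_lit 6) (.nd (nat_lit 7) (.nd (nat_lit 8) (.nd (nat_lit 9) 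
(.lf (nat_lit 460852) (.g (nat_lit 2019) (.e (nat_lit 2845) (nat_lit 184) (.e (nat_lit 426568) (nat_lit 34) (.e (nat_lit 393271) (nat_lit 23) (.e (nat_lit 426131) (nat_lit 3) (.e (nat_lit 204829) (nat_lit 18) .nil))))) (.g (nat_lit 0) (.e (nat_lit 56311) (nat_lit 0) .nil) .nil))) 
(.lf (nat_lit 461364) (.g (nat_lit 2826) (.e (nat_lit 2876) (nat_lit 184) (.e (nat_lit 426140) (nat_lit 3) (.e (nat_lit 204869) (nat_lit 29) (.e (nat_lit 360475) (nat_lit 8) (.e (nat_lit 557089) (nat_lit 12) .nil))))) (.g (nat_lit 0) (.e (nat_lit 57425) (nat_lit 0) .nil) .nil)))) (.nd (nat_lit 9) 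
(.lf (nat_lit 461108) (.g (nat_lit 1368) (.e (nat_lit 2855) (nat_lit 184) (.e (nat_lit 426542) (nat_lit 29) (.e (nat_lit 352309) (nat_lit 21) (.e (nat_lit 57871) (nat_lit 264) (.e (nat_lit 1211) (nat_lit 89) .nil))))) (.g (nat_lit 0) (.e (nat_lit 56798) (nat_lit 0) .nil) .nil))) 
(.lf (nat_lit 461620) (.g (nat_lit 2137) (.e (nat_lit 2887) (nat_lit 184) (.e (nat_lit 426173) (nat_lit 7) (.e (nat_lit 409649) (nat_lit 18) (.e (nat_lit 303140) (nat_lit 10) (.e (nat_lit 434275) (nat_lit 39) .nil))))) (.g (nat_lit 0) (.e (nat_lit 57998) (nat_lit 0) .nil) .nil))))) (.nd (nat_lit 8) (.nd (nat_lit 9) 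
(.lf (nat_lit 460980) (.g (nat_lit 389) (.e (nat_lit 2854) (nat_lit 184) (.e (nat_lit 426530) (nat_lit 27) (.e (nat_lit 335872) (nat_lit 0) .nil))) (.g (nat_lit 0) (.e (nat_lit 56617) (nat_lit 0) .nil) .nil))) 
(.lf (nat_lit 461492) (.g (nat_lit 3137) (.e (nat_lit 2881) (nat_lit 184) (.e (nat_lit 426125) (nat_lit 2) (.e (nat_lit 196666) (nat_lit 13) (.e (nat_lit 65617) (nat_lit 10) .nil)))) (.g (nat_lit 0) (.e (nat_lit 57822) (nat_lit 0) .nil) .nil)))) (.nd (nat_lit 9) 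
(.lf (nat_lit 461236) (.g (nat_lit 3078) (.e (nat_lit 2857) (nat_lit 184) (.e (nat_lit 426533) (nat_lit 28) (.e (nat_lit 344068) (nat_lit 0) (.e (nat_lit 3090) (nat_lit 191) (.e (nat_lit 483350) (nat_lit 17) (.e (nat_lit 6666) (nat_lit 357) .nil)))))) (.g (nat_lit 1) (.e (nat_lit 56988) (nat_lit 0) .nil) .nil))) 
(.lf (nat_lit 461748) (.g (nat_lit 2827) (.e (nat_lit 2894) (nat_lit 184) (.e (nat_lit 426140) (nat_lit 3) (.e (nat_lit 204869) (nat_lit 29) (.e (nat_lit 360475) (nat_lit 8) (.e (nat_lit 557091) (nat_lit 12) .nil))))) (.g (nat_lit 0) (.e (nat_lit 58546) (nat_lit 0) .nil) .nil)))))) (.nd (nat_lit 7) (.nd (nat_lit 8) (.nd (nat_lit 9) 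
(.lf (nat_lit 460916) (.g (nat_lit 1910) (.e (nat_lit 2852) (nat_lit 184) (.e (nat_lit 426438) (nat_lit 18) (.e (nat_lit 98369) (nat_lit 28) (.e (nat_lit 442391) (nat_lit 19) (.e (nat_lit 401413) (nat_lit 0) (.e (nat_lit 3459) (nat_lit 216) (.e (nat_lit 688139) (nat_lit 5) .nil))))))) (.g (nat_lit 1) (.e (nat_lit 56445) (nat_lit 0) .nil) .nil))) 
(.lf (nat_lit 461428) (.g (nat_lit 2577) (.e (nat_lit 2878) (nat_lit 184) (.e (nat_lit 426125) (nat_lit 2) (.e (nat_lit 196630) (nat_lit 9) (.e (nat_lit 1580) (nat_lit 111) .nil)))) (.g (nat_lit 0) (.e (nat_lit 57609) (nat_lit 0) .nil) .nil)))) (.nd (nat_lit 9) 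
(.lf (nat_lit 461172) (.g (nat_lit 3350) (.e (nat_lit 2856) (nat_lit 184) (.e (nat_lit 426533) (nat_lit 28) (.e (nat_lit 344068) (nat_lit 0) (.e (nat_lit 2856) (nat_lit 184) (.e (nat_lit 426533) (nat_lit 28) (.e (nat_lit 344069) (nat_lit 0) .nil)))))) (.g (nat_lit 1) (.e (nat_lit 56878) (nat_lit 0) .nil) .nil))) 
(.lf (nat_lit 461684) (.g (nat_lit 4364) (.e (nat_lit 2887) (nat_lit 184) (.e (nat_lit 426412) (nat_lit 15) (.e (nat_lit 1856) (nat_lit 124) (.e (nat_lit 557100) (nat_lit 13) (.e (nat_lit 172106) (nat_lit 10) (.e (nat_lit 434231) (nat_lit 23) (.e (nat_lit 532490) (nat_lit 0) (.e (nat_lit 7936) (nat_lit 357) .nil)))))))) (.g (nat_lit 1) (.e (nat_lit 58387) (nat_lit 0) .nil) .nil))))) 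
(.nd (nat_lit 8) (.nd (nat_lit 9) 
(.lf (nat_lit 461044) (.g (nat_lit 3459) (.e (nat_lit 2855) (nat_lit 184) (.e (nat_lit 426402) (nat_lit 15) (.e (nat_lit 1849) (nat_lit 124) (.e (nat_lit 557109) (nat_lit 15) (.e (nat_lit 188449) (nat_lit 22) (.e (nat_lit 196661) (nat_lit 12) (.e (nat_lit 57750) (nat_lit 201) .nil))))))) (.g (nat_lit 1) (.e (nat_lit 56714) (nat_lit 0) .nil) .nil))) 
(.lf (nat_lit 461556) (.g (nat_lit 1989) (.e (nat_lit 2887) (nat_lit 184) (.e (nat_lit 426132) (nat_lit 3) (.e (nat_lit 204869) (nat_lit 29) (.e (nat_lit 360474) (nat_lit 8) (.e (nat_lit 557094) (nat_lit 12) (.e (nat_lit 164016) (nat_lit 44) (.e (nat_lit 688138) (nat_lit 5) .nil))))))) (.g (nat_lit 1) (.e (nat_lit 57914) (nat_lit 0) .nil) .nil)))) (.nd (nat_lit 9) 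
(.lf (nat_lit 461300) (.g (nat_lit 2509) (.e (nat_lit 2862) (nat_lit 184) (.e (nat_lit 426566) (nat_lit 34) (.e (nat_lit 393271) (nat_lit 23) (.e (nat_lit 426436) (nat_lit 18) (.e (nat_lit 98334) (nat_lit 18) .nil))))) (.g (nat_lit 0) (.e (nat_lit 57155) (nat_lit 0) .nil) .nil))) 
(.lf (nat_lit 461812) (.g (nat_lit 4278) (.e (nat_lit 2884) (nat_lit 184) (.e (nat_lit 426140) (nat_lit 3) (.e (nat_lit 204869) (nat_lit 29) (.e (nat_lit 360474) (nat_lit 8) (.e (nat_lit 557088) (nat_lit 12) (.e (nat_lit 164018) (nat_lit 45) (.e (nat_lit 696330) (nat_lit 5) .nil))))))) (.g (nat_lit 1) (.e (nat_lit 58730) (nat_lit 0) .nil) .nil))))))))) 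
(.nd (nat_lit 4) (.nd (nat_lit 5) (.nd (nat_lit 6) (.nd (nat_lit 7) (.nd (nat_lit 8) 
(.nd (nat_lit 9) 
(.lf (nat_lit 460812) (.g (nat_lit 4114) (.e (nat_lit 2844) (nat_lit 184) (.e (nat_lit 426436) (nat_lit 18) (.e (nat_lit 98335) (nat_lit 18) (.e (nat_lit 164330) (nat_lit 230) .nil)))) (.g (nat_lit 0) (.e (nat_lit 56239) (nat_lit 0) .nil) .nil))) 
(.lf (nat_lit 461324) (.g (nat_lit 2921) (.e (nat_lit 2872) (nat_lit 184) (.e (nat_lit 426125) (nat_lit 2) (.e (nat_lit 196666) (nat_lit 13) (.e (nat_lit 65610) (nat_lit 10) (.e (nat_lit 344129) (nat_lit 26) .nil))))) (.g (nat_lit 0) (.e (nat_lit 57317) (nat_lit 0) .nil) .nil)))) (.nd (nat_lit 9) 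
(.lf (nat_lit 461068) (.g (nat_lit 1061) (.e (nat_lit 2855) (nat_lit 184) (.e (nat_lit 426533) (nat_lit 28) (.e (nat_lit 344067) (nat_lit 0) (.e (nat_lit 2939) (nat_lit 184) (.e (nat_lit 426532) (nat_lit 28) (.e (nat_lit 344069) (nat_lit 0) .nil)))))) (.g (nat_lit 1) (.e (nat_lit 56738) (nat_lit 0) .nil) .nil))) 
(.lf (nat_lit 461580) (.g (nat_lit 5166) (.e (nat_lit 2887) (nat_lit 184) (.e (nat_lit 426135) (nat_lit 3) (.e (nat_lit 204869) (nat_lit 29) (.e (nat_lit 360475) (nat_lit 8) (.e (nat_lit 557091) (nat_lit 12) (.e (nat_lit 164016) (nat_lit 44) (.e (nat_lit 688139) (nat_lit 5) .nil))))))) (.g (nat_lit 1) (.e (nat_lit 57939) (nat_lit 0) .nil) .nil))))) (.nd (nat_lit 8) (.nd (nat_lit 9) 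
(.lf (nat_lit 460940) (.g (nat_lit 5424) (.e (nat_lit 2854) (nat_lit 184) (.e (nat_lit 426131) (nat_lit 3) (.e (nat_lit 204869) (nat_lit 29) (.e (nat_lit 360475) (nat_lit 8) (.e (nat_lit 557090) (nat_lit 12) (.e (nat_lit 164020) (nat_lit 45) (.e (nat_lit 696331) (nat_lit 5) .nil))))))) (.g (nat_lit 1) (.e (nat_lit 56511) (nat_lit 0) .nil) .nil))) 
(.lf (nat_lit 461452) (.g (nat_lit 3061) (.e (nat_lit 2878) (nat_lit 184) (.e (nat_lit 426125) (nat_lit 2) (.e (nat_lit 196666) (nat_lit 13) (.e (nat_lit 65617) (nat_lit 10) (.e (nat_lit 344132) (nat_lit 26) (.e (nat_lit 557094) (nat_lit 12) (.e (nat_lit 164018) (nat_lit 45) (.e (nat_lit 696328) (nat_lit 5) .nil)))))))) (.g (nat_lit 1) (.e (nat_lit 57689) (nat_lit 0) .nil) .nil)))) 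
(.nd (nat_lit 9) 
(.lf (nat_lit 461196) (.g (nat_lit 2419) (.e (nat_lit 2856) (nat_lit 184) (.e (nat_lit 426566) (nat_lit 34) (.e (nat_lit 393271) (nat_lit 23) (.e (nat_lit 426131) (nat_lit 3) (.e (nat_lit 204829) (nat_lit 18) .nil))))) (.g (nat_lit 0) (.e (nat_lit 56904) (nat_lit 0) .nil) .nil))) 
(.lf (nat_lit 461708) (.g (nat_lit 1452) (.e (nat_lit 2887) (nat_lit 184) (.e (nat_lit 426499) (nat_lit 27) (.e (nat_lit 336229) (nat_lit 14) (.e (nat_lit 401459) (nat_lit 13) .nil)))) (.g (nat_lit 0) (.e (nat_lit 58432) (nat_lit 0) .nil) .nil)))))) (.nd (nat_lit 7) (.nd (nat_lit 8) (.nd (nat_lit 9) 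
(.lf (nat_lit 460876) (.g (nat_lit 4146) (.e (nat_lit 2848) (nat_lit 184) (.e (nat_lit 426436) (nat_lit 18) (.e (nat_lit 98335) (nat_lit 18) (.e (nat_lit 164332) (nat_lit 230) .nil)))) (.g (nat_lit 0) (.e (nat_lit 56367) (nat_lit 0) .nil) .nil))) 
(.lf (nat_lit 461388) (.g (nat_lit 2408) (.e (nat_lit 2877) (nat_lit 184) (.e (nat_lit 426125) (nat_lit 2) (.e (nat_lit 196666) (nat_lit 13) (.e (nat_lit 65617) (nat_lit 10) (.e (nat_lit 344130) (nat_lit 26) .nil))))) (.g (nat_lit 0) (.e (nat_lit 57492) (nat_lit 0) .nil) .nil)))) (.nd (nat_lit 9) 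
(.lf (nat_lit 461132) (.g (nat_lit 2595) (.e (nat_lit 2856) (nat_lit 184) (.e (nat_lit 426402) (nat_lit 15) (.e (nat_lit 1858) (nat_lit 124) (.e (nat_lit 557101) (nat_lit 13) (.e (nat_lit 172115) (nat_lit 10) (.e (nat_lit 434231) (nat_lit 23) (.e (nat_lit 532482) (nat_lit 0) (.e (nat_lit 6643) (nat_lit 357) .nil)))))))) (.g (nat_lit 1) (.e (nat_lit 56830) (nat_lit 0) .nil) .nil))) 
(.lf (nat_lit 461644) (.g (nat_lit 1447) (.e (nat_lit 2887) (nat_lit 184) (.e (nat_lit 426212) (nat_lit 9) (.e (nat_lit 426528) (nat_lit 27) (.e (nat_lit 335894) (nat_lit 0) (.e (nat_lit 6722) (nat_lit 362) (.e (nat_lit 180268) (nat_lit 24) (.e (nat_lit 688138) (nat_lit 5) .nil))))))) (.g (nat_lit 1) (.e (nat_lit 58068) (nat_lit 0) .nil) .nil))))) (.nd (nat_lit 8) (.nd (nat_lit 9) 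
(.lf (nat_lit 461004) (.g (nat_lit 1915) (.e (nat_lit 2854) (nat_lit 184) (.e (nat_lit 426542) (nat_lit 29) (.e (nat_lit 352309) (nat_lit 21) (.e (nat_lit 57873) (nat_lit 264) (.e (nat_lit 1210) (nat_lit 89) .nil))))) (.g (nat_lit 0) (.e (nat_lit 56645) (nat_lit 0) .nil) .nil))) 
(.lf (nat_lit 461516) (.g (nat_lit 5148) (.e (nat_lit 2887) (nat_lit 184) (.e (nat_lit 426043) (nat_lit 0) (.e (nat_lit 3238) (nat_lit 197) (.e (nat_lit 532550) (nat_lit 12) (.e (nat_lit 360475) (nat_lit 8) (.e (nat_lit 557089) (nat_lit 12) (.e (nat_lit 164017) (nat_lit 44) (.e (nat_lit 688139) (nat_lit 5) .nil)))))))) (.g (nat_lit 1) (.e (nat_lit 57874) (nat_lit 0) .nil) .nil)))) 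
(.nd (nat_lit 9) 
(.lf (nat_lit 461260) (.g (nat_lit 4112) (.e (nat_lit 2858) (nat_lit 184) (.e (nat_lit 426436) (nat_lit 18) (.e (nat_lit 98335) (nat_lit 18) (.e (nat_lit 164330) (nat_lit 230) .nil)))) (.g (nat_lit 0) (.e (nat_lit 57025) (nat_lit 0) .nil) .nil))) 
(.lf (nat_lit 461772) (.g (nat_lit 3277) (.e (nat_lit 2883) (nat_lit 184) (.e (nat_lit 426125) (nat_lit 2) (.e (nat_lit 196666) (nat_lit 13) (.e (nat_lit 65617) (nat_lit 10) (.e (nat_lit 344132) (nat_lit 26) (.e (nat_lit 557094) (nat_lit 12) (.e (nat_lit 164016) (nat_lit 44) (.e (nat_lit 688139) (nat_lit 5) .nil)))))))) (.g (nat_lit 1) (.e (nat_lit 58600) (nat_lit 0) .nil) .nil))))))) 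
(.nd (nat_lit 6) (.nd (nat_lit 7) (.nd (nat_lit 8) (.nd (nat_lit 9) 
(.lf (nat_lit 460844) (.g (nat_lit 3961) (.e (nat_lit 2845) (nat_lit 184) (.e (nat_lit 426566) (nat_lit 34) (.e (nat_lit 393253) (nat_lit 18) (.e (nat_lit 164325) (nat_lit 230) .nil)))) (.g (nat_lit 0) (.e (nat_lit 56299) (nat_lit 0) .nil) .nil))) 
(.lf (nat_lit 461356) (.g (nat_lit 4099) (.e (nat_lit 2874) (nat_lit 184) (.e (nat_lit 426211) (nat_lit 9) (.e (nat_lit 426125) (nat_lit 2) (.e (nat_lit 196630) (nat_lit 9) (.e (nat_lit 1401) (nat_lit 106) .nil))))) (.g (nat_lit 0) (.e (nat_lit 57405) (nat_lit 0) .nil) .nil)))) (.nd (nat_lit 9) 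
(.lf (nat_lit 461100) (.g (nat_lit 1704) (.e (nat_lit 2855) (nat_lit 184) (.e (nat_lit 426542) (nat_lit 29) (.e (nat_lit 352290) (nat_lit 20) (.e (nat_lit 2003) (nat_lit 138) (.e (nat_lit 671763) (nat_lit 5) (.e (nat_lit 73781) (nat_lit 32) .nil)))))) (.g (nat_lit 1) (.e (nat_lit 56790) (nat_lit 0) .nil) .nil))) 
(.lf (nat_lit 461612) (.g (nat_lit 3729) (.e (nat_lit 2887) (nat_lit 184) (.e (nat_lit 426168) (nat_lit 7) (.e (nat_lit 409649) (nat_lit 18) (.e (nat_lit 303140) (nat_lit 10) (.e (nat_lit 434275) (nat_lit 39) (.e (nat_lit 663584) (nat_lit 12) (.e (nat_lit 164017) (nat_lit 44) (.e (nat_lit 688139) (nat_lit 5) .nil)))))))) (.g (nat_lit 1) (.e (nat_lit 57974) (nat_lit 0) .nil) .nil))))) 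
(.nd (nat_lit 8) (.nd (nat_lit 9) 
(.lf (nat_lit 460972) (.g (nat_lit 3188) (.e (nat_lit 2854) (nat_lit 184) (.e (nat_lit 426438) (nat_lit 18) (.e (nat_lit 98367) (nat_lit 27) (.e (nat_lit 434248) (nat_lit 28) (.e (nat_lit 573482) (nat_lit 13) (.e (nat_lit 65644) (nat_lit 22) (.e (nat_lit 245766) (nat_lit 0) .nil))))))) (.g (nat_lit 1) (.e (nat_lit 56608) (nat_lit 0) .nil) .nil))) 
(.lf (nat_lit 461484) (.g (nat_lit 2283) (.e (nat_lit 2878) (nat_lit 184) (.e (nat_lit 426317) (nat_lit 12) (.e (nat_lit 475185) (nat_lit 29) (.e (nat_lit 557107) (nat_lit 15) (.e (nat_lit 188439) (nat_lit 20) (.e (nat_lit 3271) (nat_lit 199) (.e (nat_lit 548898) (nat_lit 14) .nil))))))) (.g (nat_lit 1) (.e (nat_lit 57808) (nat_lit 0) .nil) .nil)))) (.nd (nat_lit 9) 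
(.lf (nat_lit 461228) (.g (nat_lit 1275) (.e (nat_lit 2857) (nat_lit 184) (.e (nat_lit 426509) (nat_lit 27) (.e (nat_lit 336205) (nat_lit 12) (.e (nat_lit 385094) (nat_lit 49) (.e (nat_lit 778323) (nat_lit 5) .nil))))) (.g (nat_lit 0) (.e (nat_lit 56979) (nat_lit 0) .nil) .nil))) 
(.lf (nat_lit 461740) (.g (nat_lit 2976) (.e (nat_lit 2892) (nat_lit 184) (.e (nat_lit 426125) (nat_lit 2) (.e (nat_lit 196666) (nat_lit 13) (.e (nat_lit 65610) (nat_lit 10) (.e (nat_lit 344129) (nat_lit 26) .nil))))) (.g (nat_lit 0) (.e (nat_lit 58519) (nat_lit 0) .nil) .nil)))))) (.nd (nat_lit 7) (.nd (nat_lit 8) (.nd (nat_lit 9) 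
(.lf (nat_lit 460908) (.g (nat_lit 2234) (.e (nat_lit 2851) (nat_lit 184) (.e (nat_lit 426566) (nat_lit 34) (.e (nat_lit 393271) (nat_lit 23) (.e (nat_lit 426438) (nat_lit 18) (.e (nat_lit 98334) (nat_lit 18) .nil))))) (.g (nat_lit 0) (.e (nat_lit 56432) (nat_lit 0) .nil) .nil))) 
(.lf (nat_lit 461420) (.g (nat_lit 3832) (.e (nat_lit 2877) (nat_lit 184) (.e (nat_lit 426125) (nat_lit 2) (.e (nat_lit 196666) (nat_lit 13) (.e (nat_lit 65617) (nat_lit 10) (.e (nat_lit 344133) (nat_lit 26) (.e (nat_lit 557091) (nat_lit 12) (.e (nat_lit 164016) (nat_lit 44) (.e (nat_lit 688140) (nat_lit 5) .nil)))))))) (.g (nat_lit 1) (.e (nat_lit 57524) (nat_lit 0) .nil) .nil)))) 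
(.nd (nat_lit 9) 
(.lf (nat_lit 461164) (.g (nat_lit 3339) (.e (nat_lit 2856) (nat_lit 184) (.e (nat_lit 426530) (nat_lit 27) (.e (nat_lit 336206) (nat_lit 12) (.e (nat_lit 385094) (nat_lit 49) (.e (nat_lit 778323) (nat_lit 5) (.e (nat_lit 73782) (nat_lit 32) .nil)))))) (.g (nat_lit 1) (.e (nat_lit 56870) (nat_lit 0) .nil) .nil))) 
(.lf (nat_lit 461676) (.g (nat_lit 3589) (.e (nat_lit 2887) (nat_lit 184) (.e (nat_lit 426412) (nat_lit 15) (.e (nat_lit 7936) (nat_lit 121) (.e (nat_lit 532544) (nat_lit 10) (.e (nat_lit 344133) (nat_lit 26) (.e (nat_lit 557105) (nat_lit 14) (.e (nat_lit 180252) (nat_lit 10) (.e (nat_lit 581376) (nat_lit 0) .nil)))))))) (.g (nat_lit 1) (.e (nat_lit 58378) (nat_lit 0) .nil) .nil))))) 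
(.nd (nat_lit 8) (.nd (nat_lit 9) 
(.lf (nat_lit 461036) (.g (nat_lit 3807) (.e (nat_lit 2855) (nat_lit 184) (.e (nat_lit 426402) (nat_lit 15) (.e (nat_lit 1848) (nat_lit 124) (.e (nat_lit 557097) (nat_lit 13) (.e (nat_lit 172097) (nat_lit 9) (.e (nat_lit 426125) (nat_lit 2) (.e (nat_lit 196661) (nat_lit 12) (.e (nat_lit 57750) (nat_lit 201) .nil)))))))) (.g (nat_lit 1) (.e (nat_lit 56706) (nat_lit 0) .nil) .nil))) 
(.lf (nat_lit 461548) (.g (nat_lit 4159) (.e (nat_lit 2887) (nat_lit 184) (.e (nat_lit 426125) (nat_lit 2) (.e (nat_lit 196666) (nat_lit 13) (.e (nat_lit 65617) (nat_lit 10) (.e (nat_lit 344133) (nat_lit 26) (.e (nat_lit 557091) (nat_lit 12) (.e (nat_lit 164016) (nat_lit 44) (.e (nat_lit 688139) (nat_lit 5) .nil)))))))) (.g (nat_lit 1) (.e (nat_lit 57906) (nat_lit 0) .nil) .nil)))) 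
(.nd (nat_lit 9) 
(.lf (nat_lit 461292) (.g (nat_lit 1638) (.e (nat_lit 2862) (nat_lit 184) (.e (nat_lit 426543) (nat_lit 29) (.e (nat_lit 352265) (nat_lit 0) (.e (nat_lit 3632) (nat_lit 227) (.e (nat_lit 778323) (nat_lit 5) (.e (nat_lit 81664) (nat_lit 32) .nil)))))) (.g (nat_lit 1) (.e (nat_lit 57139) (nat_lit 0) .nil) .nil))) 
(.lf (nat_lit 461804) (.g (nat_lit 4291) (.e (nat_lit 2884) (nat_lit 184) (.e (nat_lit 426140) (nat_lit 3) (.e (nat_lit 204868) (nat_lit 29) (.e (nat_lit 360475) (nat_lit 8) (.e (nat_lit 557090) (nat_lit 12) (.e (nat_lit 164020) (nat_lit 45) (.e (nat_lit 696329) (nat_lit 5) .nil))))))) (.g (nat_lit 1) (.e (nat_lit 58721) (nat_lit 0) .nil) .nil)))))))) 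
(.nd (nat_lit 5) (.nd (nat_lit 6) (.nd (nat_lit 7) (.nd (nat_lit 8) (.nd (nat_lit 9) 
(.lf (nat_lit 460828) (.g (nat_lit 4084) (.e (nat_lit 2845) (nat_lit 184) (.e (nat_lit 426436) (nat_lit 18) (.e (nat_lit 98335) (nat_lit 18) (.e (nat_lit 164329) (nat_lit 230) .nil)))) (.g (nat_lit 0) (.e (nat_lit 56272) (nat_lit 0) .nil) .nil))) 
(.lf (nat_lit 461340) (.g (nat_lit 2633) (.e (nat_lit 2873) (nat_lit 184) (.e (nat_lit 426140) (nat_lit 3) (.e (nat_lit 204869) (nat_lit 29) (.e (nat_lit 360474) (nat_lit 8) (.e (nat_lit 557093) (nat_lit 12) .nil))))) (.g (nat_lit 0) (.e (nat_lit 57361) (nat_lit 0) .nil) .nil)))) (.nd (nat_lit 9) 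
(.lf (nat_lit 461084) (.g (nat_lit 3236) (.e (nat_lit 2855) (nat_lit 184) (.e (nat_lit 426540) (nat_lit 29) (.e (nat_lit 352262) (nat_lit 0) (.e (nat_lit 3632) (nat_lit 227) (.e (nat_lit 778323) (nat_lit 5) (.e (nat_lit 73782) (nat_lit 32) .nil)))))) (.g (nat_lit 1) (.e (nat_lit 56774) (nat_lit 0) .nil) .nil))) 
(.lf (nat_lit 461596) (.g (nat_lit 4777) (.e (nat_lit 2887) (nat_lit 184) (.e (nat_lit 426140) (nat_lit 3) (.e (nat_lit 204855) (nat_lit 26) (.e (nat_lit 336176) (nat_lit 10) (.e (nat_lit 344133) (nat_lit 26) (.e (nat_lit 557089) (nat_lit 12) (.e (nat_lit 164017) (nat_lit 44) (.e (nat_lit 688138) (nat_lit 5) .nil)))))))) (.g (nat_lit 1) (.e (nat_lit 57955) (nat_lit 0) .nil) .nil))))) 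
(.nd (nat_lit 8) (.nd (nat_lit 9) 
(.lf (nat_lit 460956) (.g (nat_lit 4161) (.e (nat_lit 2854) (nat_lit 184) (.e (nat_lit 426436) (nat_lit 18) (.e (nat_lit 98335) (nat_lit 18) (.e (nat_lit 164324) (nat_lit 230) .nil)))) (.g (nat_lit 0) (.e (nat_lit 56578) (nat_lit 0) .nil) .nil))) 
(.lf (nat_lit 461468) (.g (nat_lit 2641) (.e (nat_lit 2878) (nat_lit 184) (.e (nat_lit 426140) (nat_lit 3) (.e (nat_lit 204868) (nat_lit 29) (.e (nat_lit 360475) (nat_lit 8) (.e (nat_lit 557090) (nat_lit 12) .nil))))) (.g (nat_lit 0) (.e (nat_lit 57720) (nat_lit 0) .nil) .nil)))) (.nd (nat_lit 9) 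
(.lf (nat_lit 461212) (.g (nat_lit 2216) (.e (nat_lit 2857) (nat_lit 184) (.e (nat_lit 426482) (nat_lit 27) (.e (nat_lit 336193) (nat_lit 12) (.e (nat_lit 385094) (nat_lit 49) (.e (nat_lit 778324) (nat_lit 5) (.e (nat_lit 73781) (nat_lit 32) .nil)))))) (.g (nat_lit 1) (.e (nat_lit 56958) (nat_lit 0) .nil) .nil))) 
(.lf (nat_lit 461724) (.g (nat_lit 3927) (.e (nat_lit 2888) (nat_lit 184) (.e (nat_lit 426125) (nat_lit 2) (.e (nat_lit 196666) (nat_lit 13) (.e (nat_lit 65617) (nat_lit 10) (.e (nat_lit 344133) (nat_lit 26) .nil))))) (.g (nat_lit 0) (.e (nat_lit 58460) (nat_lit 0) .nil) .nil)))))) (.nd (nat_lit 7) (.nd (nat_lit 8) (.nd (nat_lit 9) 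
(.lf (nat_lit 460892) (.g (nat_lit 2614) (.e (nat_lit 2849) (nat_lit 184) (.e (nat_lit 426566) (nat_lit 34) (.e (nat_lit 393271) (nat_lit 23) (.e (nat_lit 426436) (nat_lit 18) (.e (nat_lit 98335) (nat_lit 18) .nil))))) (.g (nat_lit 0) (.e (nat_lit 56403) (nat_lit 0) .nil) .nil))) 
(.lf (nat_lit 461404) (.g (nat_lit 3028) (.e (nat_lit 2877) (nat_lit 184) (.e (nat_lit 426125) (nat_lit 2) (.e (nat_lit 196666) (nat_lit 13) (.e (nat_lit 65617) (nat_lit 10) (.e (nat_lit 344132) (nat_lit 26) (.e (nat_lit 557089) (nat_lit 12) (.e (nat_lit 164017) (nat_lit 44) (.e (nat_lit 688141) (nat_lit 5) .nil)))))))) (.g (nat_lit 1) (.e (nat_lit 57508) (nat_lit 0) .nil) .nil)))) 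
(.nd (nat_lit 9) 
(.lf (nat_lit 461148) (.g (nat_lit 3497) (.e (nat_lit 2856) (nat_lit 184) (.e (nat_lit 426482) (nat_lit 27) (.e (nat_lit 336193) (nat_lit 12) (.e (nat_lit 385093) (nat_lit 49) (.e (nat_lit 778323) (nat_lit 5) (.e (nat_lit 73782) (nat_lit 32) .nil)))))) (.g (nat_lit 1) (.e (nat_lit 56853) (nat_lit 0) .nil) .nil))) 
(.lf (nat_lit 461660) (.g (nat_lit 2066) (.e (nat_lit 2887) (nat_lit 184) (.e (nat_lit 426217) (nat_lit 9) (.e (nat_lit 426528) (nat_lit 27) (.e (nat_lit 335894) (nat_lit 0) (.e (nat_lit 6724) (nat_lit 362) (.e (nat_lit 180268) (nat_lit 24) (.e (nat_lit 688138) (nat_lit 5) .nil))))))) (.g (nat_lit 1) (.e (nat_lit 58084) (nat_lit 0) .nil) .nil))))) (.nd (nat_lit 8) (.nd (nat_lit 9) 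
(.lf (nat_lit 461020) (.g (nat_lit 3139) (.e (nat_lit 2854) (nat_lit 184) (.e (nat_lit 426566) (nat_lit 34) (.e (nat_lit 393271) (nat_lit 23) (.e (nat_lit 426131) (nat_lit 3) (.e (nat_lit 204830) (nat_lit 18) (.e (nat_lit 57663) (nat_lit 152) (.e (nat_lit 2476) (nat_lit 157) .nil))))))) (.g (nat_lit 1) (.e (nat_lit 56661) (nat_lit 0) .nil) .nil))) 
(.lf (nat_lit 461532) (.g (nat_lit 2532) (.e (nat_lit 2887) (nat_lit 184) (.e (nat_lit 426117) (nat_lit 2) (.e (nat_lit 196666) (nat_lit 13) (.e (nat_lit 65617) (nat_lit 10) (.e (nat_lit 344130) (nat_lit 26) (.e (nat_lit 557090) (nat_lit 12) (.e (nat_lit 164016) (nat_lit 44) (.e (nat_lit 688138) (nat_lit 5) .nil)))))))) (.g (nat_lit 1) (.e (nat_lit 57890) (nat_lit 0) .nil) .nil)))) 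
(.nd (nat_lit 9) 
(.lf (nat_lit 461276) (.g (nat_lit 2510) (.e (nat_lit 2862) (nat_lit 184) (.e (nat_lit 426436) (nat_lit 18) (.e (nat_lit 98384) (nat_lit 32) (.e (nat_lit 475177) (nat_lit 24) (.e (nat_lit 516150) (nat_lit 9) (.e (nat_lit 426428) (nat_lit 17) (.e (nat_lit 90134) (nat_lit 9) .nil))))))) (.g (nat_lit 1) (.e (nat_lit 57119) (nat_lit 0) .nil) .nil))) 
(.lf (nat_lit 461788) (.g (nat_lit 4383) (.e (nat_lit 2884) (nat_lit 184) (.e (nat_lit 426125) (nat_lit 2) (.e (nat_lit 196666) (nat_lit 13) (.e (nat_lit 65617) (nat_lit 10) (.e (nat_lit 344130) (nat_lit 26) (.e (nat_lit 557089) (nat_lit 12) (.e (nat_lit 164020) (nat_lit 45) (.e (nat_lit 696330) (nat_lit 5) .nil)))))))) (.g (nat_lit 1) (.e (nat_lit 58691) (nat_lit 0) .nil) .nil))))))) 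
(.nd (nat_lit 6) (.nd (nat_lit 7) (.nd (nat_lit 8) (.nd (nat_lit 9) 
(.lf (nat_lit 460860) (.g (nat_lit 4145) (.e (nat_lit 2846) (nat_lit 184) (.e (nat_lit 426436) (nat_lit 18) (.e (nat_lit 98335) (nat_lit 18) (.e (nat_lit 164332) (nat_lit 230) .nil)))) (.g (nat_lit 0) (.e (nat_lit 56324) (nat_lit 0) .nil) .nil))) 
(.lf (nat_lit 461372) (.g (nat_lit 4899) (.e (nat_lit 2877) (nat_lit 184) (.e (nat_lit 426125) (nat_lit 2) (.e (nat_lit 196666) (nat_lit 13) (.e (nat_lit 65610) (nat_lit 10) (.e (nat_lit 344129) (nat_lit 26) (.e (nat_lit 557090) (nat_lit 12) (.e (nat_lit 164016) (nat_lit 44) (.e (nat_lit 688139) (nat_lit 5) .nil)))))))) (.g (nat_lit 1) (.e (nat_lit 57476) (nat_lit 0) .nil) .nil)))) 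
(.nd (nat_lit 9) 
(.lf (nat_lit 461116) (.g (nat_lit 1900) (.e (nat_lit 2855) (nat_lit 184) (.e (nat_lit 426555) (nat_lit 32) (.e (nat_lit 376859) (nat_lit 21) (.e (nat_lit 57871) (nat_lit 264) (.e (nat_lit 1210) (nat_lit 89) .nil))))) (.g (nat_lit 0) (.e (nat_lit 56807) (nat_lit 0) .nil) .nil))) 
(.lf (nat_lit 461628) (.g (nat_lit 3969) (.e (nat_lit 2887) (nat_lit 184) (.e (nat_lit 426171) (nat_lit 7) (.e (nat_lit 409649) (nat_lit 18) (.e (nat_lit 303140) (nat_lit 10) (.e (nat_lit 434275) (nat_lit 39) (.e (nat_lit 663584) (nat_lit 12) (.e (nat_lit 164017) (nat_lit 44) (.e (nat_lit 688138) (nat_lit 5) .nil)))))))) (.g (nat_lit 1) (.e (nat_lit 58033) (nat_lit 0) .nil) .nil))))) 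
(.nd (nat_lit 8) (.nd (nat_lit 9) 
(.lf (nat_lit 460988) (.g (nat_lit 1238) (.e (nat_lit 2854) (nat_lit 184) (.e (nat_lit 426533) (nat_lit 28) (.e (nat_lit 344068) (nat_lit 0) (.e (nat_lit 3090) (nat_lit 191) (.e (nat_lit 483354) (nat_lit 17) .nil))))) (.g (nat_lit 0) (.e (nat_lit 56625) (nat_lit 0) .nil) .nil))) 
(.lf (nat_lit 461500) (.g (nat_lit 2623) (.e (nat_lit 2879) (nat_lit 184) (.e (nat_lit 426140) (nat_lit 3) (.e (nat_lit 204869) (nat_lit 29) (.e (nat_lit 360474) (nat_lit 8) (.e (nat_lit 557094) (nat_lit 12) .nil))))) (.g (nat_lit 0) (.e (nat_lit 57841) (nat_lit 0) .nil) .nil)))) (.nd (nat_lit 9) 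
(.lf (nat_lit 461244) (.g (nat_lit 535) (.e (nat_lit 2857) (nat_lit 184) (.e (nat_lit 426542) (nat_lit 29) (.e (nat_lit 352303) (nat_lit 20) .nil))) (.g (nat_lit 0) (.e (nat_lit 57003) (nat_lit 0) .nil) .nil))) 
(.lf (nat_lit 461756) (.g (nat_lit 2534) (.e (nat_lit 2882) (nat_lit 184) (.e (nat_lit 426140) (nat_lit 3) (.e (nat_lit 204869) (nat_lit 29) (.e (nat_lit 360474) (nat_lit 8) (.e (nat_lit 557093) (nat_lit 12) .nil))))) (.g (nat_lit 0) (.e (nat_lit 58568) (nat_lit 0) .nil) .nil)))))) (.nd (nat_lit 7) (.nd (nat_lit 8) (.nd (nat_lit 9) 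
(.lf (nat_lit 460924) (.g (nat_lit 4155) (.e (nat_lit 2853) (nat_lit 184) (.e (nat_lit 426436) (nat_lit 18) (.e (nat_lit 98335) (nat_lit 18) (.e (nat_lit 164325) (nat_lit 230) .nil)))) (.g (nat_lit 0) (.e (nat_lit 56474) (nat_lit 0) .nil) .nil))) 
(.lf (nat_lit 461436) (.g (nat_lit 3258) (.e (nat_lit 2878) (nat_lit 184) (.e (nat_lit 426125) (nat_lit 2) (.e (nat_lit 196666) (nat_lit 13) (.e (nat_lit 65617) (nat_lit 10) (.e (nat_lit 344128) (nat_lit 26) .nil))))) (.g (nat_lit 0) (.e (nat_lit 57661) (nat_lit 0) .nil) .nil)))) (.nd (nat_lit 9) 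
(.lf (nat_lit 461180) (.g (nat_lit 2147) (.e (nat_lit 2856) (nat_lit 184) (.e (nat_lit 426538) (nat_lit 29) (.e (nat_lit 352262) (nat_lit 0) (.e (nat_lit 3631) (nat_lit 227) (.e (nat_lit 778323) (nat_lit 5) (.e (nat_lit 73781) (nat_lit 32) .nil)))))) (.g (nat_lit 1) (.e (nat_lit 56886) (nat_lit 0) .nil) .nil))) 
(.lf (nat_lit 461692) (.g (nat_lit 3595) (.e (nat_lit 2887) (nat_lit 184) (.e (nat_lit 426412) (nat_lit 15) (.e (nat_lit 1856) (nat_lit 124) (.e (nat_lit 557101) (nat_lit 13) (.e (nat_lit 172115) (nat_lit 10) (.e (nat_lit 434231) (nat_lit 23) (.e (nat_lit 532482) (nat_lit 0) (.e (nat_lit 6622) (nat_lit 357) .nil)))))))) (.g (nat_lit 1) (.e (nat_lit 58395) (nat_lit 0) .nil) .nil))))) 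
(.nd (nat_lit 8) (.nd (nat_lit 9) 
(.lf (nat_lit 461052) (.g (nat_lit 4273) (.e (nat_lit 2855) (nat_lit 184) (.e (nat_lit 426402) (nat_lit 15) (.e (nat_lit 1859) (nat_lit 124) (.e (nat_lit 557098) (nat_lit 13) (.e (nat_lit 172115) (nat_lit 10) (.e (nat_lit 434231) (nat_lit 23) (.e (nat_lit 532490) (nat_lit 0) (.e (nat_lit 6680) (nat_lit 357) .nil)))))))) (.g (nat_lit 1) (.e (nat_lit 56722) (nat_lit 0) .nil) .nil))) 
(.lf (nat_lit 461564) (.g (nat_lit 1832) (.e (nat_lit 2887) (nat_lit 184) (.e (nat_lit 426134) (nat_lit 3) (.e (nat_lit 204868) (nat_lit 29) (.e (nat_lit 360473) (nat_lit 8) (.e (nat_lit 557094) (nat_lit 12) (.e (nat_lit 164016) (nat_lit 44) (.e (nat_lit 688139) (nat_lit 5) .nil))))))) (.g (nat_lit 1) (.e (nat_lit 57922) (nat_lit 0) .nil) .nil)))) (.nd (nat_lit 9) 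
(.lf (nat_lit 461308) (.g (nat_lit 1991) (.e (nat_lit 2862) (nat_lit 184) (.e (nat_lit 426568) (nat_lit 34) (.e (nat_lit 393283) (nat_lit 24) (.e (nat_lit 434244) (nat_lit 28) (.e (nat_lit 573474) (nat_lit 12) .nil))))) (.g (nat_lit 0) (.e (nat_lit 57163) (nat_lit 0) .nil) .nil))) 
(.lf (nat_lit 461820) (.g (nat_lit 3146) (.e (nat_lit 2884) (nat_lit 184) (.e (nat_lit 426317) (nat_lit 12) (.e (nat_lit 475185) (nat_lit 29) (.e (nat_lit 557100) (nat_lit 13) (.e (nat_lit 172113) (nat_lit 10) (.e (nat_lit 434238) (nat_lit 25) (.e (nat_lit 548897) (nat_lit 14) .nil))))))) (.g (nat_lit 1) (.e (nat_lit 58766) (nat_lit 0) .nil) .nil))))))))))) 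
(.nd (nat_lit 2) (.nd (nat_lit 3) (.nd (nat_lit 4) (.nd (nat_lit 5) (.nd (nat_lit 6) 
(.nd (nat_lit 7) (.nd (nat_lit 8) (.nd (nat_lit 9) 
(.lf (nat_lit 460802) (.g (nat_lit 3115) (.e (nat_lit 2842) (nat_lit 184) (.e (nat_lit 426566) (nat_lit 34) (.e (nat_lit 393271) (nat_lit 23) (.e (nat_lit 426436) (nat_lit 18) (.e (nat_lit 98335) (nat_lit 18) (.e (nat_lit 164305) (nat_lit 226) (.e (nat_lit 2450) (nat_lit 157) .nil))))))) (.g (nat_lit 1) (.e (nat_lit 56216) (nat_lit 0) .nil) .nil))) 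
(.lf (nat_lit 461314) (.g (nat_lit 3105) (.e (nat_lit 2868) (nat_lit 184) (.e (nat_lit 426211) (nat_lit 9) (.e (nat_lit 426125) (nat_lit 2) (.e (nat_lit 196625) (nat_lit 9) .nil)))) (.g (nat_lit 0) (.e (nat_lit 57224) (nat_lit 0) .nil) .nil)))) (.nd (nat_lit 9) 
(.lf (nat_lit 461058) (.g (nat_lit 4114) (.e (nat_lit 2855) (nat_lit 184) (.e (nat_lit 426436) (nat_lit 18) (.e (nat_lit 98335) (nat_lit 18) (.e (nat_lit 164330) (nat_lit 230) .nil)))) (.g (nat_lit 0) (.e (nat_lit 56728) (nat_lit 0) .nil) .nil))) 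
(.lf (nat_lit 461570) (.g (nat_lit 4759) (.e (nat_lit 2887) (nat_lit 184) (.e (nat_lit 426134) (nat_lit 3) (.e (nat_lit 204869) (nat_lit 29) (.e (nat_lit 360475) (nat_lit 8) (.e (nat_lit 557091) (nat_lit 12) (.e (nat_lit 164017) (nat_lit 44) (.e (nat_lit 688139) (nat_lit 5) .nil))))))) (.g (nat_lit 1) (.e (nat_lit 57928) (nat_lit 0) .nil) .nil))))) (.nd (nat_lit 8) (.nd (nat_lit 9) 
(.lf (nat_lit 460930) (.g (nat_lit 1985) (.e (nat_lit 2853) (nat_lit 184) (.e (nat_lit 426436) (nat_lit 18) (.e (nat_lit 98386) (nat_lit 32) (.e (nat_lit 475177) (nat_lit 24) (.e (nat_lit 516146) (nat_lit 9) .nil))))) (.g (nat_lit 0) (.e (nat_lit 56482) (nat_lit 0) .nil) .nil))) 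
(.lf (nat_lit 461442) (.g (nat_lit 3872) (.e (nat_lit 2878) (nat_lit 184) (.e (nat_lit 426125) (nat_lit 2) (.e (nat_lit 196666) (nat_lit 13) (.e (nat_lit 65617) (nat_lit 10) (.e (nat_lit 344130) (nat_lit 26) (.e (nat_lit 557090) (nat_lit 12) (.e (nat_lit 164019) (nat_lit 45) (.e (nat_lit 696326) (nat_lit 5) .nil)))))))) (.g (nat_lit 1) (.e (nat_lit 57675) (nat_lit 0) .nil) .nil)))) 
(.nd (nat_lit 9) 
(.lf (nat_lit 461186) (.g (nat_lit 2038) (.e (nat_lit 2856) (nat_lit 184) (.e (nat_lit 426542) (nat_lit 29) (.e (nat_lit 352266) (nat_lit 0) (.e (nat_lit 3632) (nat_lit 227) (.e (nat_lit 778324) (nat_lit 5) (.e (nat_lit 73781) (nat_lit 32) .nil)))))) (.g (nat_lit 1) (.e (nat_lit 56892) (nat_lit 0) .nil) .nil))) 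
(.lf (nat_lit 461698) (.g (nat_lit 3473) (.e (nat_lit 2887) (nat_lit 184) (.e (nat_lit 426412) (nat_lit 15) (.e (nat_lit 1856) (nat_lit 124) (.e (nat_lit 557107) (nat_lit 15) (.e (nat_lit 188452) (nat_lit 23) (.e (nat_lit 204816) (nat_lit 17) (.e (nat_lit 6622) (nat_lit 357) .nil))))))) (.g (nat_lit 1) (.e (nat_lit 58401) (nat_lit 0) .nil) .nil)))))) 
(.nd (nat_lit 7) (.nd (nat_lit 8) (.nd (nat_lit 9) 
(.lf (nat_lit 460866) (.g (nat_lit 4146) (.e (nat_lit 2847) (nat_lit 184) (.e (nat_lit 426436) (nat_lit 18) (.e (nat_lit 98335) (nat_lit 18) (.e (nat_lit 164332) (nat_lit 230) .nil)))) (.g (nat_lit 0) (.e (nat_lit 56341) (nat_lit 0) .nil) .nil))) 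
(.lf (nat_lit 461378) (.g (nat_lit 4785) (.e (nat_lit 2877) (nat_lit 184) (.e (nat_lit 426125) (nat_lit 2) (.e (nat_lit 196666) (nat_lit 13) (.e (nat_lit 65610) (nat_lit 10) (.e (nat_lit 344129) (nat_lit 26) (.e (nat_lit 557090) (nat_lit 12) (.e (nat_lit 164017) (nat_lit 44) (.e (nat_lit 688141) (nat_lit 5) .nil)))))))) (.g (nat_lit 1) (.e (nat_lit 57482) (nat_lit 0) .nil) .nil)))) 
(.nd (nat_lit 9) 
(.lf (nat_lit 461122) (.g (nat_lit 2277) (.e (nat_lit 2856) (nat_lit 184) (.e (nat_lit 426364) (nat_lit 15) (.e (nat_lit 1858) (nat_lit 124) (.e (nat_lit 557101) (nat_lit 13) (.e (nat_lit 172097) (nat_lit 9) (.e (nat_lit 426125) (nat_lit 2) (.e (nat_lit 196661) (nat_lit 12) (.e (nat_lit 57751) (nat_lit 201) .nil)))))))) (.g (nat_lit 1) (.e (nat_lit 56819) (nat_lit 0) .nil) .nil))) 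
(.lf (nat_lit 461634) (.g (nat_lit 1919) (.e (nat_lit 2887) (nat_lit 184) (.e (nat_lit 426208) (nat_lit 9) (.e (nat_lit 426528) (nat_lit 27) (.e (nat_lit 335894) (nat_lit 0) (.e (nat_lit 6724) (nat_lit 362) (.e (nat_lit 180268) (nat_lit 24) (.e (nat_lit 688138) (nat_lit 5) .nil))))))) (.g (nat_lit 1) (.e (nat_lit 58045) (nat_lit 0) .nil) .nil))))) (.nd (nat_lit 8) (.nd (nat_lit 9) 
(.lf (nat_lit 460994) (.g (nat_lit 2902) (.e (nat_lit 2854) (nat_lit 184) (.e (nat_lit 426540) (nat_lit 29) (.e (nat_lit 352262) (nat_lit 0) (.e (nat_lit 3632) (nat_lit 227) (.e (nat_lit 778323) (nat_lit 5) (.e (nat_lit 73781) (nat_lit 32) .nil)))))) (.g (nat_lit 1) (.e (nat_lit 56635) (nat_lit 0) .nil) .nil))) 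
(.lf (nat_lit 461506) (.g (nat_lit 3784) (.e (nat_lit 2886) (nat_lit 184) (.e (nat_lit 426125) (nat_lit 2) (.e (nat_lit 196666) (nat_lit 13) (.e (nat_lit 65617) (nat_lit 10) (.e (nat_lit 344127) (nat_lit 26) .nil))))) (.g (nat_lit 0) (.e (nat_lit 57852) (nat_lit 0) .nil) .nil)))) (.nd (nat_lit 9) 
(.lf (nat_lit 461250) (.g (nat_lit 1723) (.e (nat_lit 2857) (nat_lit 184) (.e (nat_lit 426555) (nat_lit 32) (.e (nat_lit 376859) (nat_lit 21) (.e (nat_lit 57871) (nat_lit 264) .nil)))) (.g (nat_lit 0) (.e (nat_lit 57011) (nat_lit 0) .nil) .nil))) 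
(.lf (nat_lit 461762) (.g (nat_lit 1901) (.e (nat_lit 2882) (nat_lit 184) (.e (nat_lit 426317) (nat_lit 12) (.e (nat_lit 475185) (nat_lit 29) (.e (nat_lit 557103) (nat_lit 14) (.e (nat_lit 180278) (nat_lit 32) .nil))))) (.g (nat_lit 0) (.e (nat_lit 58578) (nat_lit 0) .nil) .nil))))))) (.nd (nat_lit 6) (.nd (nat_lit 7) (.nd (nat_lit 8) (.nd (nat_lit 9) 
(.lf (nat_lit 460834) (.g (nat_lit 1806) (.e (nat_lit 2845) (nat_lit 184) (.e (nat_lit 426436) (nat_lit 18) (.e (nat_lit 98380) (nat_lit 31) (.e (nat_lit 466954) (nat_lit 11) (.e (nat_lit 335988) (nat_lit 1) (.e (nat_lit 57665) (nat_lit 152) (.e (nat_lit 2466) (nat_lit 157) .nil))))))) (.g (nat_lit 1) (.e (nat_lit 56278) (nat_lit 0) .nil) .nil))) 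
(.lf (nat_lit 461346) (.g (nat_lit 1319) (.e (nat_lit 2873) (nat_lit 184) (.e (nat_lit 426340) (nat_lit 14) (.e (nat_lit 491537) (nat_lit 2) (.e (nat_lit 90174) (nat_lit 14) .nil)))) (.g (nat_lit 0) (.e (nat_lit 57375) (nat_lit 0) .nil) .nil)))) (.nd (nat_lit 9) 
(.lf (nat_lit 461090) (.g (nat_lit 1378) (.e (nat_lit 2855) (nat_lit 184) (.e (nat_lit 426542) (nat_lit 29) (.e (nat_lit 352264) (nat_lit 0) (.e (nat_lit 3716) (nat_lit 227) (.e (nat_lit 778322) (nat_lit 5) (.e (nat_lit 73782) (nat_lit 32) .nil)))))) (.g (nat_lit 1) (.e (nat_lit 56780) (nat_lit 0) .nil) .nil))) 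
(.lf (nat_lit 461602) (.g (nat_lit 1549) (.e (nat_lit 2887) (nat_lit 184) (.e (nat_lit 426140) (nat_lit 3) (.e (nat_lit 204869) (nat_lit 29) (.e (nat_lit 360473) (nat_lit 8) .nil)))) (.g (nat_lit 0) (.e (nat_lit 57961) (nat_lit 0) .nil) .nil))))) (.nd (nat_lit 8) (.nd (nat_lit 9) 
(.lf (nat_lit 460962) (.g (nat_lit 4130) (.e (nat_lit 2854) (nat_lit 184) (.e (nat_lit 426436) (nat_lit 18) (.e (nat_lit 98335) (nat_lit 18) (.e (nat_lit 164332) (nat_lit 230) .nil)))) (.g (nat_lit 0) (.e (nat_lit 56586) (nat_lit 0) .nil) .nil))) 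
(.lf (nat_lit 461474) (.g (nat_lit 2446) (.e (nat_lit 2878) (nat_lit 184) (.e (nat_lit 426140) (nat_lit 3) (.e (nat_lit 204869) (nat_lit 29) (.e (nat_lit 360475) (nat_lit 8) (.e (nat_lit 557089) (nat_lit 12) .nil))))) (.g (nat_lit 0) (.e (nat_lit 57728) (nat_lit 0) .nil) .nil)))) (.nd (nat_lit 9) 
(.lf (nat_lit 461218) (.g (nat_lit 3186) (.e (nat_lit 2857) (nat_lit 184) (.e (nat_lit 426482) (nat_lit 27) (.e (nat_lit 336205) (nat_lit 12) (.e (nat_lit 385094) (nat_lit 49) (.e (nat_lit 778323) (nat_lit 5) (.e (nat_lit 73781) (nat_lit 32) .nil)))))) (.g (nat_lit 1) (.e (nat_lit 56964) (nat_lit 0) .nil) .nil))) 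
(.lf (nat_lit 461730) (.g (nat_lit 1548) (.e (nat_lit 2888) (nat_lit 184) (.e (nat_lit 426310) (nat_lit 12) (.e (nat_lit 475185) (nat_lit 29) (.e (nat_lit 557101) (nat_lit 13) (.e (nat_lit 172115) (nat_lit 10) .nil))))) (.g (nat_lit 0) (.e (nat_lit 58466) (nat_lit 0) .nil) .nil)))))) (.nd (nat_lit 7) (.nd (nat_lit 8) (.nd (nat_lit 9) 
(.lf (nat_lit 460898) (.g (nat_lit 4810) (.e (nat_lit 2851) (nat_lit 184) (.e (nat_lit 426436) (nat_lit 18) (.e (nat_lit 98335) (nat_lit 18) (.e (nat_lit 164327) (nat_lit 230) .nil)))) (.g (nat_lit 0) (.e (nat_lit 56414) (nat_lit 0) .nil) .nil))) 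
(.lf (nat_lit 461410) (.g (nat_lit 3227) (.e (nat_lit 2877) (nat_lit 184) (.e (nat_lit 426125) (nat_lit 2) (.e (nat_lit 196666) (nat_lit 13) (.e (nat_lit 65617) (nat_lit 10) (.e (nat_lit 344132) (nat_lit 26) (.e (nat_lit 557094) (nat_lit 12) (.e (nat_lit 164016) (nat_lit 44) (.e (nat_lit 688140) (nat_lit 5) .nil)))))))) (.g (nat_lit 1) (.e (nat_lit 57514) (nat_lit 0) .nil) .nil)))) 
(.nd (nat_lit 9) 
(.lf (nat_lit 461154) (.g (nat_lit 2563) (.e (nat_lit 2856) (nat_lit 184) (.e (nat_lit 426509) (nat_lit 27) (.e (nat_lit 336193) (nat_lit 12) (.e (nat_lit 385093) (nat_lit 49) (.e (nat_lit 778324) (nat_lit 5) .nil))))) (.g (nat_lit 0) (.e (nat_lit 56860) (nat_lit 0) .nil) .nil))) 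
(.lf (nat_lit 461666) (.g (nat_lit 1684) (.e (nat_lit 2887) (nat_lit 184) (.e (nat_lit 426305) (nat_lit 12) (.e (nat_lit 475199) (nat_lit 40) (.e (nat_lit 704598) (nat_lit 6) (.e (nat_lit 196352) (nat_lit 8) .nil))))) (.g (nat_lit 0) (.e (nat_lit 58259) (nat_lit 0) .nil) .nil))))) (.nd (nat_lit 8) (.nd (nat_lit 9) 
(.lf (nat_lit 461026) (.g (nat_lit 1579) (.e (nat_lit 2854) (nat_lit 184) (.e (nat_lit 426566) (nat_lit 34) (.e (nat_lit 393273) (nat_lit 23) (.e (nat_lit 426436) (nat_lit 18) .nil)))) (.g (nat_lit 0) (.e (nat_lit 56667) (nat_lit 0) .nil) .nil))) 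
(.lf (nat_lit 461538) (.g (nat_lit 2857) (.e (nat_lit 2887) (nat_lit 184) (.e (nat_lit 426118) (nat_lit 2) (.e (nat_lit 196666) (nat_lit 13) (.e (nat_lit 65617) (nat_lit 10) (.e (nat_lit 344133) (nat_lit 26) (.e (nat_lit 557089) (nat_lit 12) (.e (nat_lit 164017) (nat_lit 44) (.e (nat_lit 688138) (nat_lit 5) .nil)))))))) (.g (nat_lit 1) (.e (nat_lit 57896) (nat_lit 0) .nil) .nil)))) 
(.nd (nat_lit 9) 
(.lf (nat_lit 461282) (.g (nat_lit 3146) (.e (nat_lit 2862) (nat_lit 184) (.e (nat_lit 426438) (nat_lit 18) (.e (nat_lit 98367) (nat_lit 27) (.e (nat_lit 434248) (nat_lit 28) (.e (nat_lit 573482) (nat_lit 13) (.e (nat_lit 65644) (nat_lit 22) (.e (nat_lit 245762) (nat_lit 0) .nil))))))) (.g (nat_lit 1) (.e (nat_lit 57126) (nat_lit 0) .nil) .nil))) 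
(.lf (nat_lit 461794) (.g (nat_lit 4946) (.e (nat_lit 2884) (nat_lit 184) (.e (nat_lit 426125) (nat_lit 2) (.e (nat_lit 196666) (nat_lit 13) (.e (nat_lit 65617) (nat_lit 10) (.e (nat_lit 344133) (nat_lit 26) (.e (nat_lit 557090) (nat_lit 12) (.e (nat_lit 164020) (nat_lit 45) (.e (nat_lit 696329) (nat_lit 5) .nil)))))))) (.g (nat_lit 1) (.e (nat_lit 58700) (nat_lit 0) .nil) .nil)))))))) 
(.nd (nat_lit 5) (.nd (nat_lit 6) (.nd (nat_lit 7) (.nd (nat_lit 8) (.nd (nat_lit 9) 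
(.lf (nat_lit 460818) (.g (nat_lit 2194) (.e (nat_lit 2844) (nat_lit 184) (.e (nat_lit 426568) (nat_lit 34) (.e (nat_lit 393271) (nat_lit 23) (.e (nat_lit 426131) (nat_lit 3) (.e (nat_lit 204830) (nat_lit 18) (.e (nat_lit 57661) (nat_lit 152) (.e (nat_lit 2462) (nat_lit 157) .nil))))))) (.g (nat_lit 1) (.e (nat_lit 56255) (nat_lit 0) .nil) .nil))) 
(.lf (nat_lit 461330) (.g (nat_lit 4119) (.e (nat_lit 2873) (nat_lit 184) (.e (nat_lit 426125) (nat_lit 2) (.e (nat_lit 196666) (nat_lit 13) (.e (nat_lit 65610) (nat_lit 10) (.e (nat_lit 344128) (nat_lit 26) .nil))))) (.g (nat_lit 0) (.e (nat_lit 57350) (nat_lit 0) .nil) .nil)))) (.nd (nat_lit 9) 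
(.lf (nat_lit 461074) (.g (nat_lit 1375) (.e (nat_lit 2855) (nat_lit 184) (.e (nat_lit 426533) (nat_lit 28) (.e (nat_lit 344068) (nat_lit 0) (.e (nat_lit 3090) (nat_lit 191) (.e (nat_lit 483354) (nat_lit 17) (.e (nat_lit 6676) (nat_lit 357) .nil)))))) (.g (nat_lit 1) (.e (nat_lit 56749) (nat_lit 0) .nil) .nil))) 
(.lf (nat_lit 461586) (.g (nat_lit 4882) (.e (nat_lit 2887) (nat_lit 184) (.e (nat_lit 426136) (nat_lit 3) (.e (nat_lit 204869) (nat_lit 29) (.e (nat_lit 360474) (nat_lit 8) (.e (nat_lit 557091) (nat_lit 12) (.e (nat_lit 164017) (nat_lit 44) (.e (nat_lit 688139) (nat_lit 5) .nil))))))) (.g (nat_lit 1) (.e (nat_lit 57945) (nat_lit 0) .nil) .nil))))) (.nd (nat_lit 8) (.nd (nat_lit 9) 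
(.lf (nat_lit 460946) (.g (nat_lit 467) (.e (nat_lit 2854) (nat_lit 184) (.e (nat_lit 426320) (nat_lit 12) (.e (nat_lit 475207) (nat_lit 41) .nil))) (.g (nat_lit 0) (.e (nat_lit 56542) (nat_lit 0) .nil) .nil))) 
(.lf (nat_lit 461458) (.g (nat_lit 3825) (.e (nat_lit 2878) (nat_lit 184) (.e (nat_lit 426125) (nat_lit 2) (.e (nat_lit 196666) (nat_lit 13) (.e (nat_lit 65617) (nat_lit 10) (.e (nat_lit 344133) (nat_lit 26) (.e (nat_lit 557091) (nat_lit 12) (.e (nat_lit 164018) (nat_lit 45) (.e (nat_lit 696326) (nat_lit 5) .nil)))))))) (.g (nat_lit 1) (.e (nat_lit 57703) (nat_lit 0) .nil) .nil)))) 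
(.nd (nat_lit 9) 
(.lf (nat_lit 461202) (.g (nat_lit 3706) (.e (nat_lit 2857) (nat_lit 184) (.e (nat_lit 426402) (nat_lit 15) (.e (nat_lit 1849) (nat_lit 124) (.e (nat_lit 557109) (nat_lit 15) (.e (nat_lit 188449) (nat_lit 22) (.e (nat_lit 196661) (nat_lit 12) (.e (nat_lit 57750) (nat_lit 201) .nil))))))) (.g (nat_lit 1) (.e (nat_lit 56916) (nat_lit 0) .nil) .nil))) 
(.lf (nat_lit 461714) (.g (nat_lit 2641) (.e (nat_lit 2887) (nat_lit 184) (.e (nat_lit 426499) (nat_lit 27) (.e (nat_lit 336231) (nat_lit 14) (.e (nat_lit 401458) (nat_lit 13) (.e (nat_lit 483344) (nat_lit 17) (.e (nat_lit 6665) (nat_lit 357) .nil)))))) (.g (nat_lit 1) (.e (nat_lit 58442) (nat_lit 0) .nil) .nil)))))) (.nd (nat_lit 7) (.nd (nat_lit 8) (.nd (nat_lit 9) 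
(.lf (nat_lit 460882) (.g (nat_lit 4154) (.e (nat_lit 2849) (nat_lit 184) (.e (nat_lit 426436) (nat_lit 18) (.e (nat_lit 98335) (nat_lit 18) (.e (nat_lit 164325) (nat_lit 230) .nil)))) (.g (nat_lit 0) (.e (nat_lit 56382) (nat_lit 0) .nil) .nil))) 
(.lf (nat_lit 461394) (.g (nat_lit 4677) (.e (nat_lit 2877) (nat_lit 184) (.e (nat_lit 426125) (nat_lit 2) (.e (nat_lit 196666) (nat_lit 13) (.e (nat_lit 65617) (nat_lit 10) (.e (nat_lit 344130) (nat_lit 26) (.e (nat_lit 557090) (nat_lit 12) (.e (nat_lit 164016) (nat_lit 44) (.e (nat_lit 688138) (nat_lit 5) .nil)))))))) (.g (nat_lit 1) (.e (nat_lit 57498) (nat_lit 0) .nil) .nil)))) 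
(.nd (nat_lit 9) 
(.lf (nat_lit 461138) (.g (nat_lit 4155) (.e (nat_lit 2856) (nat_lit 184) (.e (nat_lit 426436) (nat_lit 18) (.e (nat_lit 98335) (nat_lit 18) (.e (nat_lit 164325) (nat_lit 230) .nil)))) (.g (nat_lit 0) (.e (nat_lit 56836) (nat_lit 0) .nil) .nil))) 
(.lf (nat_lit 461650) (.g (nat_lit 2021) (.e (nat_lit 2887) (nat_lit 184) (.e (nat_lit 426216) (nat_lit 9) (.e (nat_lit 426528) (nat_lit 27) (.e (nat_lit 335894) (nat_lit 0) (.e (nat_lit 6722) (nat_lit 362) (.e (nat_lit 180268) (nat_lit 24) (.e (nat_lit 688138) (nat_lit 5) .nil))))))) (.g (nat_lit 1) (.e (nat_lit 58074) (nat_lit 0) .nil) .nil))))) (.nd (nat_lit 8) (.nd (nat_lit 9) 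
(.lf (nat_lit 461010) (.g (nat_lit 1818) (.e (nat_lit 2854) (nat_lit 184) (.e (nat_lit 426555) (nat_lit 32) (.e (nat_lit 376859) (nat_lit 21) (.e (nat_lit 57871) (nat_lit 264) (.e (nat_lit 1210) (nat_lit 89) .nil))))) (.g (nat_lit 0) (.e (nat_lit 56651) (nat_lit 0) .nil) .nil))) 
(.lf (nat_lit 461522) (.g (nat_lit 3999) (.e (nat_lit 2887) (nat_lit 184) (.e (nat_lit 426113) (nat_lit 2) (.e (nat_lit 196666) (nat_lit 13) (.e (nat_lit 65617) (nat_lit 10) (.e (nat_lit 344127) (nat_lit 26) (.e (nat_lit 557090) (nat_lit 12) (.e (nat_lit 164017) (nat_lit 44) (.e (nat_lit 688138) (nat_lit 5) .nil)))))))) (.g (nat_lit 1) (.e (nat_lit 57880) (nat_lit 0) .nil) .nil)))) 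
(.nd (nat_lit 9) 
(.lf (nat_lit 461266) (.g (nat_lit 1748) (.e (nat_lit 2859) (nat_lit 184) (.e (nat_lit 426436) (nat_lit 18) (.e (nat_lit 98358) (nat_lit 26) (.e (nat_lit 426428) (nat_lit 17) .nil)))) (.g (nat_lit 0) (.e (nat_lit 57041) (nat_lit 0) .nil) .nil))) 
(.lf (nat_lit 461778) (.g (nat_lit 3036) (.e (nat_lit 2884) (nat_lit 184) (.e (nat_lit 426032) (nat_lit 0) (.e (nat_lit 3262) (nat_lit 198) (.e (nat_lit 540706) (nat_lit 12) (.e (nat_lit 360475) (nat_lit 8) (.e (nat_lit 557090) (nat_lit 12) (.e (nat_lit 164020) (nat_lit 45) (.e (nat_lit 696329) (nat_lit 5) .nil)))))))) (.g (nat_lit 1) (.e (nat_lit 58656) (nat_lit 0) .nil) .nil))))))) 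
(.nd (nat_lit 6) (.nd (nat_lit 7) (.nd (nat_lit 8) (.nd (nat_lit 9) 
(.lf (nat_lit 460850) (.g (nat_lit 3384) (.e (nat_lit 2845) (nat_lit 184) (.e (nat_lit 426566) (nat_lit 34) (.e (nat_lit 393271) (nat_lit 23) (.e (nat_lit 426131) (nat_lit 3) (.e (nat_lit 204830) (nat_lit 18) (.e (nat_lit 57665) (nat_lit 152) (.e (nat_lit 2466) (nat_lit 157) .nil))))))) (.g (nat_lit 1) (.e (nat_lit 56305) (nat_lit 0) .nil) .nil))) 
(.lf (nat_lit 461362) (.g (nat_lit 4323) (.e (nat_lit 2876) (nat_lit 184) (.e (nat_lit 426135) (nat_lit 3) (.e (nat_lit 204869) (nat_lit 29) (.e (nat_lit 360474) (nat_lit 8) (.e (nat_lit 557091) (nat_lit 12) .nil))))) (.g (nat_lit 0) (.e (nat_lit 57419) (nat_lit 0) .nil) .nil)))) (.nd (nat_lit 9) 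
(.lf (nat_lit 461106) (.g (nat_lit 1853) (.e (nat_lit 2855) (nat_lit 184) (.e (nat_lit 426542) (nat_lit 29) (.e (nat_lit 352297) (nat_lit 20) (.e (nat_lit 2006) (nat_lit 138) (.e (nat_lit 671763) (nat_lit 5) (.e (nat_lit 73781) (nat_lit 32) .nil)))))) (.g (nat_lit 1) (.e (nat_lit 56796) (nat_lit 0) .nil) .nil))) 
(.lf (nat_lit 461618) (.g (nat_lit 3703) (.e (nat_lit 2887) (nat_lit 184) (.e (nat_lit 426173) (nat_lit 7) (.e (nat_lit 409648) (nat_lit 18) (.e (nat_lit 303137) (nat_lit 10) (.e (nat_lit 434275) (nat_lit 39) (.e (nat_lit 663584) (nat_lit 12) (.e (nat_lit 164017) (nat_lit 44) (.e (nat_lit 688139) (nat_lit 5) .nil)))))))) (.g (nat_lit 1) (.e (nat_lit 57995) (nat_lit 0) .nil) .nil))))) 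
(.nd (nat_lit 8) (.nd (nat_lit 9) 
(.lf (nat_lit 460978) (.g (nat_lit 2746) (.e (nat_lit 2854) (nat_lit 184) (.e (nat_lit 426482) (nat_lit 27) (.e (nat_lit 336205) (nat_lit 12) (.e (nat_lit 385094) (nat_lit 49) (.e (nat_lit 778323) (nat_lit 5) (.e (nat_lit 73782) (nat_lit 32) .nil)))))) (.g (nat_lit 1) (.e (nat_lit 56615) (nat_lit 0) .nil) .nil))) 
(.lf (nat_lit 461490) (.g (nat_lit 1810) (.e (nat_lit 2878) (nat_lit 184) (.e (nat_lit 426340) (nat_lit 14) (.e (nat_lit 491537) (nat_lit 2) (.e (nat_lit 90176) (nat_lit 15) (.e (nat_lit 188439) (nat_lit 20) .nil))))) (.g (nat_lit 0) (.e (nat_lit 57815) (nat_lit 0) .nil) .nil)))) (.nd (nat_lit 9) 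
(.lf (nat_lit 461234) (.g (nat_lit 2420) (.e (nat_lit 2857) (nat_lit 184) (.e (nat_lit 426530) (nat_lit 27) (.e (nat_lit 336235) (nat_lit 14) (.e (nat_lit 401459) (nat_lit 13) (.e (nat_lit 483354) (nat_lit 17) (.e (nat_lit 6676) (nat_lit 357) .nil)))))) (.g (nat_lit 1) (.e (nat_lit 56986) (nat_lit 0) .nil) .nil))) 
(.lf (nat_lit 461746) (.g (nat_lit 2623) (.e (nat_lit 2894) (nat_lit 184) (.e (nat_lit 426140) (nat_lit 3) (.e (nat_lit 204869) (nat_lit 29) (.e (nat_lit 360474) (nat_lit 8) (.e (nat_lit 557094) (nat_lit 12) .nil))))) (.g (nat_lit 0) (.e (nat_lit 58544) (nat_lit 0) .nil) .nil)))))) (.nd (nat_lit 7) (.nd (nat_lit 8) (.nd (nat_lit 9) 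
(.lf (nat_lit 460914) (.g (nat_lit 1659) (.e (nat_lit 2852) (nat_lit 184) (.e (nat_lit 426438) (nat_lit 18) (.e (nat_lit 98367) (nat_lit 27) (.e (nat_lit 434246) (nat_lit 28) .nil)))) (.g (nat_lit 0) (.e (nat_lit 56442) (nat_lit 0) .nil) .nil))) 
(.lf (nat_lit 461426) (.g (nat_lit 4691) (.e (nat_lit 2877) (nat_lit 184) (.e (nat_lit 426125) (nat_lit 2) (.e (nat_lit 196666) (nat_lit 13) (.e (nat_lit 65617) (nat_lit 10) (.e (nat_lit 344133) (nat_lit 26) (.e (nat_lit 557091) (nat_lit 12) (.e (nat_lit 164017) (nat_lit 44) (.e (nat_lit 688141) (nat_lit 5) .nil)))))))) (.g (nat_lit 1) (.e (nat_lit 57530) (nat_lit 0) .nil) .nil)))) 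
(.nd (nat_lit 9) 
(.lf (nat_lit 461170) (.g (nat_lit 2287) (.e (nat_lit 2856) (nat_lit 184) (.e (nat_lit 426533) (nat_lit 28) (.e (nat_lit 344068) (nat_lit 0) (.e (nat_lit 2854) (nat_lit 184) (.e (nat_lit 426533) (nat_lit 28) (.e (nat_lit 344069) (nat_lit 0) .nil)))))) (.g (nat_lit 1) (.e (nat_lit 56876) (nat_lit 0) .nil) .nil))) 
(.lf (nat_lit 461682) (.g (nat_lit 3620) (.e (nat_lit 2887) (nat_lit 184) (.e (nat_lit 426412) (nat_lit 15) (.e (nat_lit 1856) (nat_lit 124) (.e (nat_lit 557100) (nat_lit 13) (.e (nat_lit 172106) (nat_lit 10) (.e (nat_lit 434231) (nat_lit 23) (.e (nat_lit 532483) (nat_lit 0) (.e (nat_lit 7936) (nat_lit 357) .nil)))))))) (.g (nat_lit 1) (.e (nat_lit 58385) (nat_lit 0) .nil) .nil))))) 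
(.nd (nat_lit 8) (.nd (nat_lit 9) 
(.lf (nat_lit 461042) (.g (nat_lit 2682) (.e (nat_lit 2855) (nat_lit 184) (.e (nat_lit 426402) (nat_lit 15) (.e (nat_lit 1849) (nat_lit 124) (.e (nat_lit 557107) (nat_lit 15) (.e (nat_lit 188447) (nat_lit 22) (.e (nat_lit 196661) (nat_lit 12) (.e (nat_lit 57750) (nat_lit 201) .nil))))))) (.g (nat_lit 1) (.e (nat_lit 56712) (nat_lit 0) .nil) .nil))) 
(.lf (nat_lit 461554) (.g (nat_lit 1492) (.e (nat_lit 2887) (nat_lit 184) (.e (nat_lit 426132) (nat_lit 3) (.e (nat_lit 204868) (nat_lit 29) (.e (nat_lit 360473) (nat_lit 8) (.e (nat_lit 557094) (nat_lit 12) (.e (nat_lit 164016) (nat_lit 44) (.e (nat_lit 688138) (nat_lit 5) .nil))))))) (.g (nat_lit 1) (.e (nat_lit 57912) (nat_lit 0) .nil) .nil)))) (.nd (nat_lit 9) 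
(.lf (nat_lit 461298) (.g (nat_lit 1539) (.e (nat_lit 2862) (nat_lit 184) (.e (nat_lit 426566) (nat_lit 34) (.e (nat_lit 393268) (nat_lit 23) (.e (nat_lit 426438) (nat_lit 18) .nil)))) (.g (nat_lit 0) (.e (nat_lit 57153) (nat_lit 0) .nil) .nil))) 
(.lf (nat_lit 461810) (.g (nat_lit 4052) (.e (nat_lit 2884) (nat_lit 184) (.e (nat_lit 426140) (nat_lit 3) (.e (nat_lit 204869) (nat_lit 29) (.e (nat_lit 360474) (nat_lit 8) (.e (nat_lit 557088) (nat_lit 12) (.e (nat_lit 164018) (nat_lit 45) (.e (nat_lit 696328) (nat_lit 5) .nil))))))) (.g (nat_lit 1) (.e (nat_lit 58728) (nat_lit 0) .nil) .nil))))))))) 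
(.nd (nat_lit 4) (.nd (nat_lit 5) (.nd (nat_lit 6) (.nd (nat_lit 7) (.nd (nat_lit 8) 
(.nd (nat_lit 9) 
(.lf (nat_lit 460810) (.g (nat_lit 4146) (.e (nat_lit 2843) (nat_lit 184) (.e (nat_lit 426436) (nat_lit 18) (.e (nat_lit 98335) (nat_lit 18) (.e (nat_lit 164332) (nat_lit 230) .nil)))) (.g (nat_lit 0) (.e (nat_lit 56225) (nat_lit 0) .nil) .nil))) 
(.lf (nat_lit 461322) (.g (nat_lit 3105) (.e (nat_lit 2869) (nat_lit 184) (.e (nat_lit 426211) (nat_lit 9) (.e (nat_lit 426125) (nat_lit 2) (.e (nat_lit 196625) (nat_lit 9) .nil)))) (.g (nat_lit 0) (.e (nat_lit 57266) (nat_lit 0) .nil) .nil)))) (.nd (nat_lit 9) 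
(.lf (nat_lit 461066) (.g (nat_lit 1667) (.e (nat_lit 2855) (nat_lit 184) (.e (nat_lit 426509) (nat_lit 27) (.e (nat_lit 336228) (nat_lit 14) (.e (nat_lit 401459) (nat_lit 13) (.e (nat_lit 483354) (nat_lit 17) (.e (nat_lit 6676) (nat_lit 357) .nil)))))) (.g (nat_lit 1) (.e (nat_lit 56736) (nat_lit 0) .nil) .nil))) 
(.lf (nat_lit 461578) (.g (nat_lit 6382) (.e (nat_lit 2887) (nat_lit 184) (.e (nat_lit 426135) (nat_lit 3) (.e (nat_lit 204869) (nat_lit 29) (.e (nat_lit 360475) (nat_lit 8) (.e (nat_lit 557089) (nat_lit 12) (.e (nat_lit 164017) (nat_lit 44) (.e (nat_lit 688138) (nat_lit 5) .nil))))))) (.g (nat_lit 1) (.e (nat_lit 57937) (nat_lit 0) .nil) .nil))))) (.nd (nat_lit 8) (.nd (nat_lit 9) 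
(.lf (nat_lit 460938) (.g (nat_lit 5247) (.e (nat_lit 2854) (nat_lit 184) (.e (nat_lit 426131) (nat_lit 3) (.e (nat_lit 204869) (nat_lit 29) (.e (nat_lit 360474) (nat_lit 8) (.e (nat_lit 557091) (nat_lit 12) (.e (nat_lit 164020) (nat_lit 45) (.e (nat_lit 696334) (nat_lit 5) .nil))))))) (.g (nat_lit 1) (.e (nat_lit 56509) (nat_lit 0) .nil) .nil))) 
(.lf (nat_lit 461450) (.g (nat_lit 3181) (.e (nat_lit 2878) (nat_lit 184) (.e (nat_lit 426125) (nat_lit 2) (.e (nat_lit 196666) (nat_lit 13) (.e (nat_lit 65617) (nat_lit 10) (.e (nat_lit 344132) (nat_lit 26) (.e (nat_lit 557094) (nat_lit 12) (.e (nat_lit 164018) (nat_lit 45) (.e (nat_lit 696326) (nat_lit 5) .nil)))))))) (.g (nat_lit 1) (.e (nat_lit 57687) (nat_lit 0) .nil) .nil)))) 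
(.nd (nat_lit 9) 
(.lf (nat_lit 461194) (.g (nat_lit 1715) (.e (nat_lit 2856) (nat_lit 184) (.e (nat_lit 426555) (nat_lit 32) (.e (nat_lit 376859) (nat_lit 21) (.e (nat_lit 57872) (nat_lit 264) (.e (nat_lit 1210) (nat_lit 89) .nil))))) (.g (nat_lit 0) (.e (nat_lit 56902) (nat_lit 0) .nil) .nil))) 
(.lf (nat_lit 461706) (.g (nat_lit 599) (.e (nat_lit 2887) (nat_lit 184) (.e (nat_lit 426499) (nat_lit 27) (.e (nat_lit 336204) (nat_lit 12) .nil))) (.g (nat_lit 0) (.e (nat_lit 58429) (nat_lit 0) .nil) .nil)))))) (.nd (nat_lit 7) (.nd (nat_lit 8) (.nd (nat_lit 9) 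
(.lf (nat_lit 460874) (.g (nat_lit 4810) (.e (nat_lit 2848) (nat_lit 184) (.e (nat_lit 426436) (nat_lit 18) (.e (nat_lit 98335) (nat_lit 18) (.e (nat_lit 164327) (nat_lit 230) .nil)))) (.g (nat_lit 0) (.e (nat_lit 56364) (nat_lit 0) .nil) .nil))) 
(.lf (nat_lit 461386) (.g (nat_lit 4422) (.e (nat_lit 2877) (nat_lit 184) (.e (nat_lit 426125) (nat_lit 2) (.e (nat_lit 196666) (nat_lit 13) (.e (nat_lit 65617) (nat_lit 10) (.e (nat_lit 344127) (nat_lit 26) (.e (nat_lit 557090) (nat_lit 12) (.e (nat_lit 164017) (nat_lit 44) (.e (nat_lit 688140) (nat_lit 5) .nil)))))))) (.g (nat_lit 1) (.e (nat_lit 57490) (nat_lit 0) .nil) .nil)))) 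
(.nd (nat_lit 9) 
(.lf (nat_lit 461130) (.g (nat_lit 2133) (.e (nat_lit 2856) (nat_lit 184) (.e (nat_lit 426402) (nat_lit 15) (.e (nat_lit 1858) (nat_lit 124) (.e (nat_lit 557101) (nat_lit 13) (.e (nat_lit 172115) (nat_lit 10) (.e (nat_lit 434231) (nat_lit 23) (.e (nat_lit 532481) (nat_lit 0) (.e (nat_lit 6654) (nat_lit 357) .nil)))))))) (.g (nat_lit 1) (.e (nat_lit 56828) (nat_lit 0) .nil) .nil))) 
(.lf (nat_lit 461642) (.g (nat_lit 4175) (.e (nat_lit 2887) (nat_lit 184) (.e (nat_lit 426211) (nat_lit 9) (.e (nat_lit 426528) (nat_lit 27) (.e (nat_lit 336231) (nat_lit 14) (.e (nat_lit 401448) (nat_lit 10) (.e (nat_lit 434286) (nat_lit 42) (.e (nat_lit 688138) (nat_lit 5) .nil))))))) (.g (nat_lit 1) (.e (nat_lit 58066) (nat_lit 0) .nil) .nil))))) (.nd (nat_lit 8) (.nd (nat_lit 9) 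
(.lf (nat_lit 461002) (.g (nat_lit 1612) (.e (nat_lit 2854) (nat_lit 184) (.e (nat_lit 426542) (nat_lit 29) (.e (nat_lit 352297) (nat_lit 20) (.e (nat_lit 2005) (nat_lit 138) (.e (nat_lit 671763) (nat_lit 5) (.e (nat_lit 73782) (nat_lit 32) .nil)))))) (.g (nat_lit 1) (.e (nat_lit 56643) (nat_lit 0) .nil) .nil))) 
(.lf (nat_lit 461514) (.g (nat_lit 4160) (.e (nat_lit 2886) (nat_lit 184) (.e (nat_lit 426211) (nat_lit 9) (.e (nat_lit 426125) (nat_lit 2) (.e (nat_lit 196630) (nat_lit 9) (.e (nat_lit 1395) (nat_lit 106) .nil))))) (.g (nat_lit 0) (.e (nat_lit 57867) (nat_lit 0) .nil) .nil)))) (.nd (nat_lit 9) 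
(.lf (nat_lit 461258) (.g (nat_lit 586) (.e (nat_lit 2858) (nat_lit 184) (.e (nat_lit 426436) (nat_lit 18) (.e (nat_lit 98335) (nat_lit 18) .nil))) (.g (nat_lit 0) (.e (nat_lit 57021) (nat_lit 0) .nil) .nil))) 
(.lf (nat_lit 461770) (.g (nat_lit 3833) (.e (nat_lit 2883) (nat_lit 184) (.e (nat_lit 426125) (nat_lit 2) (.e (nat_lit 196666) (nat_lit 13) (.e (nat_lit 65617) (nat_lit 10) (.e (nat_lit 344130) (nat_lit 26) (.e (nat_lit 557090) (nat_lit 12) (.e (nat_lit 164016) (nat_lit 44) (.e (nat_lit 688139) (nat_lit 5) .nil)))))))) (.g (nat_lit 1) (.e (nat_lit 58598) (nat_lit 0) .nil) .nil))))))) 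
(.nd (nat_lit 6) (.nd (nat_lit 7) (.nd (nat_lit 8) (.nd (nat_lit 9) 
(.lf (nat_lit 460842) (.g (nat_lit 1736) (.e (nat_lit 2845) (nat_lit 184) (.e (nat_lit 426479) (nat_lit 27) (.e (nat_lit 336430) (nat_lit 29) (.e (nat_lit 442425) (nat_lit 23) (.e (nat_lit 204830) (nat_lit 18) (.e (nat_lit 57663) (nat_lit 152) (.e (nat_lit 2466) (nat_lit 157) .nil))))))) (.g (nat_lit 1) (.e (nat_lit 56286) (nat_lit 0) .nil) .nil))) 
(.lf (nat_lit 461354) (.g (nat_lit 2826) (.e (nat_lit 2874) (nat_lit 184) (.e (nat_lit 426140) (nat_lit 3) (.e (nat_lit 204869) (nat_lit 29) (.e (nat_lit 360475) (nat_lit 8) (.e (nat_lit 557089) (nat_lit 12) .nil))))) (.g (nat_lit 0) (.e (nat_lit 57402) (nat_lit 0) .nil) .nil)))) (.nd (nat_lit 9) 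
(.lf (nat_lit 461098) (.g (nat_lit 3284) (.e (nat_lit 2855) (nat_lit 184) (.e (nat_lit 426542) (nat_lit 29) (.e (nat_lit 352267) (nat_lit 0) (.e (nat_lit 3632) (nat_lit 227) (.e (nat_lit 778323) (nat_lit 5) (.e (nat_lit 73782) (nat_lit 32) .nil)))))) (.g (nat_lit 1) (.e (nat_lit 56788) (nat_lit 0) .nil) .nil))) 
(.lf (nat_lit 461610) (.g (nat_lit 3659) (.e (nat_lit 2887) (nat_lit 184) (.e (nat_lit 426168) (nat_lit 7) (.e (nat_lit 409648) (nat_lit 18) (.e (nat_lit 303137) (nat_lit 10) (.e (nat_lit 434275) (nat_lit 39) (.e (nat_lit 663584) (nat_lit 12) (.e (nat_lit 164017) (nat_lit 44) (.e (nat_lit 688139) (nat_lit 5) .nil)))))))) (.g (nat_lit 1) (.e (nat_lit 57969) (nat_lit 0) .nil) .nil))))) 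
(.nd (nat_lit 8) (.nd (nat_lit 9) 
(.lf (nat_lit 460970) (.g (nat_lit 836) (.e (nat_lit 2854) (nat_lit 184) (.e (nat_lit 426436) (nat_lit 18) (.e (nat_lit 98381) (nat_lit 31) .nil))) (.g (nat_lit 0) (.e (nat_lit 56605) (nat_lit 0) .nil) .nil))) 
(.lf (nat_lit 461482) (.g (nat_lit 2598) (.e (nat_lit 2878) (nat_lit 184) (.e (nat_lit 426317) (nat_lit 12) (.e (nat_lit 475185) (nat_lit 29) (.e (nat_lit 557100) (nat_lit 13) (.e (nat_lit 172113) (nat_lit 10) (.e (nat_lit 434238) (nat_lit 25) (.e (nat_lit 548898) (nat_lit 14) .nil))))))) (.g (nat_lit 1) (.e (nat_lit 57806) (nat_lit 0) .nil) .nil)))) (.nd (nat_lit 9) 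
(.lf (nat_lit 461226) (.g (nat_lit 1582) (.e (nat_lit 2857) (nat_lit 184) (.e (nat_lit 426509) (nat_lit 27) (.e (nat_lit 336193) (nat_lit 12) (.e (nat_lit 385094) (nat_lit 49) (.e (nat_lit 778324) (nat_lit 5) .nil))))) (.g (nat_lit 0) (.e (nat_lit 56977) (nat_lit 0) .nil) .nil))) 
(.lf (nat_lit 461738) (.g (nat_lit 2439) (.e (nat_lit 2890) (nat_lit 184) (.e (nat_lit 426338) (nat_lit 14) (.e (nat_lit 491549) (nat_lit 9) (.e (nat_lit 336434) (nat_lit 30) (.e (nat_lit 458496) (nat_lit 15) .nil))))) (.g (nat_lit 0) (.e (nat_lit 58494) (nat_lit 0) .nil) .nil)))))) (.nd (nat_lit 7) (.nd (nat_lit 8) (.nd (nat_lit 9) 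
(.lf (nat_lit 460906) (.g (nat_lit 1562) (.e (nat_lit 2851) (nat_lit 184) (.e (nat_lit 426566) (nat_lit 34) (.e (nat_lit 393270) (nat_lit 23) (.e (nat_lit 426436) (nat_lit 18) (.e (nat_lit 98335) (nat_lit 18) .nil))))) (.g (nat_lit 0) (.e (nat_lit 56430) (nat_lit 0) .nil) .nil))) 
(.lf (nat_lit 461418) (.g (nat_lit 4731) (.e (nat_lit 2877) (nat_lit 184) (.e (nat_lit 426125) (nat_lit 2) (.e (nat_lit 196666) (nat_lit 13) (.e (nat_lit 65617) (nat_lit 10) (.e (nat_lit 344133) (nat_lit 26) (.e (nat_lit 557091) (nat_lit 12) (.e (nat_lit 164016) (nat_lit 44) (.e (nat_lit 688138) (nat_lit 5) .nil)))))))) (.g (nat_lit 1) (.e (nat_lit 57522) (nat_lit 0) .nil) .nil)))) 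
(.nd (nat_lit 9) 
(.lf (nat_lit 461162) (.g (nat_lit 393) (.e (nat_lit 2856) (nat_lit 184) (.e (nat_lit 426530) (nat_lit 27) (.e (nat_lit 336206) (nat_lit 12) .nil))) (.g (nat_lit 0) (.e (nat_lit 56868) (nat_lit 0) .nil) .nil))) 
(.lf (nat_lit 461674) (.g (nat_lit 2686) (.e (nat_lit 2887) (nat_lit 184) (.e (nat_lit 426317) (nat_lit 12) (.e (nat_lit 475211) (nat_lit 41) (.e (nat_lit 712755) (nat_lit 30) (.e (nat_lit 450563) (nat_lit 0) (.e (nat_lit 5529) (nat_lit 306) (.e (nat_lit 2508) (nat_lit 157) .nil))))))) (.g (nat_lit 1) (.e (nat_lit 58284) (nat_lit 0) .nil) .nil))))) (.nd (nat_lit 8) (.nd (nat_lit 9) 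
(.lf (nat_lit 461034) (.g (nat_lit 1974) (.e (nat_lit 2855) (nat_lit 184) (.e (nat_lit 426320) (nat_lit 12) (.e (nat_lit 475211) (nat_lit 41) (.e (nat_lit 712755) (nat_lit 30) (.e (nat_lit 450563) (nat_lit 0) .nil))))) (.g (nat_lit 0) (.e (nat_lit 56700) (nat_lit 0) .nil) .nil))) 
(.lf (nat_lit 461546) (.g (nat_lit 3550) (.e (nat_lit 2887) (nat_lit 184) (.e (nat_lit 426125) (nat_lit 2) (.e (nat_lit 196666) (nat_lit 13) (.e (nat_lit 65617) (nat_lit 10) (.e (nat_lit 344132) (nat_lit 26) (.e (nat_lit 557094) (nat_lit 12) (.e (nat_lit 164016) (nat_lit 44) (.e (nat_lit 688139) (nat_lit 5) .nil)))))))) (.g (nat_lit 1) (.e (nat_lit 57904) (nat_lit 0) .nil) .nil)))) 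
(.nd (nat_lit 9) 
(.lf (nat_lit 461290) (.g (nat_lit 1684) (.e (nat_lit 2862) (nat_lit 184) (.e (nat_lit 426542) (nat_lit 29) (.e (nat_lit 352309) (nat_lit 21) (.e (nat_lit 57873) (nat_lit 264) (.e (nat_lit 1211) (nat_lit 89) .nil))))) (.g (nat_lit 0) (.e (nat_lit 57137) (nat_lit 0) .nil) .nil))) 
(.lf (nat_lit 461802) (.g (nat_lit 3440) (.e (nat_lit 2884) (nat_lit 184) (.e (nat_lit 426140) (nat_lit 3) (.e (nat_lit 204868) (nat_lit 29) (.e (nat_lit 360474) (nat_lit 8) (.e (nat_lit 557091) (nat_lit 12) (.e (nat_lit 164020) (nat_lit 45) (.e (nat_lit 696330) (nat_lit 5) .nil))))))) (.g (nat_lit 1) (.e (nat_lit 58719) (nat_lit 0) .nil) .nil)))))))) 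
(.nd (nat_lit 5) (.nd (nat_lit 6) (.nd (nat_lit 7) (.nd (nat_lit 8) (.nd (nat_lit 9) 
(.lf (nat_lit 460826) (.g (nat_lit 4655) (.e (nat_lit 2845) (nat_lit 184) (.e (nat_lit 426436) (nat_lit 18) (.e (nat_lit 98335) (nat_lit 18) (.e (nat_lit 164326) (nat_lit 230) .nil)))) (.g (nat_lit 0) (.e (nat_lit 56270) (nat_lit 0) .nil) .nil))) 
(.lf (nat_lit 461338) (.g (nat_lit 3085) (.e (nat_lit 2873) (nat_lit 184) (.e (nat_lit 426140) (nat_lit 3) (.e (nat_lit 204869) (nat_lit 29) (.e (nat_lit 360472) (nat_lit 8) (.e (nat_lit 557090) (nat_lit 12) .nil))))) (.g (nat_lit 0) (.e (nat_lit 57359) (nat_lit 0) .nil) .nil)))) (.nd (nat_lit 9) 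
(.lf (nat_lit 461082) (.g (nat_lit 2634) (.e (nat_lit 2855) (nat_lit 184) (.e (nat_lit 426540) (nat_lit 29) (.e (nat_lit 352262) (nat_lit 0) (.e (nat_lit 3631) (nat_lit 227) (.e (nat_lit 778323) (nat_lit 5) (.e (nat_lit 73782) (nat_lit 32) .nil)))))) (.g (nat_lit 1) (.e (nat_lit 56772) (nat_lit 0) .nil) .nil))) 
(.lf (nat_lit 461594) (.g (nat_lit 4353) (.e (nat_lit 2887) (nat_lit 184) (.e (nat_lit 426140) (nat_lit 3) (.e (nat_lit 204855) (nat_lit 26) (.e (nat_lit 336176) (nat_lit 10) (.e (nat_lit 344130) (nat_lit 26) (.e (nat_lit 557089) (nat_lit 12) (.e (nat_lit 164017) (nat_lit 44) (.e (nat_lit 688139) (nat_lit 5) .nil)))))))) (.g (nat_lit 1) (.e (nat_lit 57953) (nat_lit 0) .nil) .nil))))) 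
(.nd (nat_lit 8) (.nd (nat_lit 9) 
(.lf (nat_lit 460954) (.g (nat_lit 3061) (.e (nat_lit 2854) (nat_lit 184) (.e (nat_lit 426402) (nat_lit 15) (.e (nat_lit 1849) (nat_lit 124) (.e (nat_lit 557109) (nat_lit 15) (.e (nat_lit 188449) (nat_lit 22) (.e (nat_lit 196661) (nat_lit 12) (.e (nat_lit 57751) (nat_lit 201) .nil))))))) (.g (nat_lit 1) (.e (nat_lit 56573) (nat_lit 0) .nil) .nil))) 
(.lf (nat_lit 461466) (.g (nat_lit 1926) (.e (nat_lit 2878) (nat_lit 184) (.e (nat_lit 426140) (nat_lit 3) (.e (nat_lit 204868) (nat_lit 29) (.e (nat_lit 360473) (nat_lit 8) (.e (nat_lit 557091) (nat_lit 12) .nil))))) (.g (nat_lit 0) (.e (nat_lit 57718) (nat_lit 0) .nil) .nil)))) (.nd (nat_lit 9) 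
(.lf (nat_lit 461210) (.g (nat_lit 2589) (.e (nat_lit 2857) (nat_lit 184) (.e (nat_lit 426482) (nat_lit 27) (.e (nat_lit 336193) (nat_lit 12) (.e (nat_lit 385094) (nat_lit 49) (.e (nat_lit 778323) (nat_lit 5) (.e (nat_lit 73781) (nat_lit 32) .nil)))))) (.g (nat_lit 1) (.e (nat_lit 56956) (nat_lit 0) .nil) .nil))) 
(.lf (nat_lit 461722) (.g (nat_lit 3778) (.e (nat_lit 2888) (nat_lit 184) (.e (nat_lit 426125) (nat_lit 2) (.e (nat_lit 196666) (nat_lit 13) (.e (nat_lit 65617) (nat_lit 10) (.e (nat_lit 344127) (nat_lit 26) .nil))))) (.g (nat_lit 0) (.e (nat_lit 58458) (nat_lit 0) .nil) .nil)))))) (.nd (nat_lit 7) (.nd (nat_lit 8) (.nd (nat_lit 9) 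
(.lf (nat_lit 460890) (.g (nat_lit 1908) (.e (nat_lit 2849) (nat_lit 184) (.e (nat_lit 426566) (nat_lit 34) (.e (nat_lit 393268) (nat_lit 23) (.e (nat_lit 426436) (nat_lit 18) (.e (nat_lit 98334) (nat_lit 18) .nil))))) (.g (nat_lit 0) (.e (nat_lit 56401) (nat_lit 0) .nil) .nil))) 
(.lf (nat_lit 461402) (.g (nat_lit 2489) (.e (nat_lit 2877) (nat_lit 184) (.e (nat_lit 426125) (nat_lit 2) (.e (nat_lit 196666) (nat_lit 13) (.e (nat_lit 65617) (nat_lit 10) (.e (nat_lit 344132) (nat_lit 26) .nil))))) (.g (nat_lit 0) (.e (nat_lit 57506) (nat_lit 0) .nil) .nil)))) (.nd (nat_lit 9) 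
(.lf (nat_lit 461146) (.g (nat_lit 2455) (.e (nat_lit 2856) (nat_lit 184) (.e (nat_lit 426482) (nat_lit 27) (.e (nat_lit 336060) (nat_lit 7) (.e (nat_lit 319539) (nat_lit 19) (.e (nat_lit 311357) (nat_lit 28) .nil))))) (.g (nat_lit 0) (.e (nat_lit 56851) (nat_lit 0) .nil) .nil))) 
(.lf (nat_lit 461658) (.g (nat_lit 1816) (.e (nat_lit 2887) (nat_lit 184) (.e (nat_lit 426217) (nat_lit 9) (.e (nat_lit 426528) (nat_lit 27) (.e (nat_lit 335894) (nat_lit 0) (.e (nat_lit 6722) (nat_lit 362) (.e (nat_lit 180268) (nat_lit 24) (.e (nat_lit 688138) (nat_lit 5) .nil))))))) (.g (nat_lit 1) (.e (nat_lit 58082) (nat_lit 0) .nil) .nil))))) (.nd (nat_lit 8) (.nd (nat_lit 9) 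
(.lf (nat_lit 461018) (.g (nat_lit 2518) (.e (nat_lit 2854) (nat_lit 184) (.e (nat_lit 426566) (nat_lit 34) (.e (nat_lit 393271) (nat_lit 23) (.e (nat_lit 426131) (nat_lit 3) (.e (nat_lit 204830) (nat_lit 18) (.e (nat_lit 57661) (nat_lit 152) (.e (nat_lit 2476) (nat_lit 157) .nil))))))) (.g (nat_lit 1) (.e (nat_lit 56659) (nat_lit 0) .nil) .nil))) 
(.lf (nat_lit 461530) (.g (nat_lit 4143) (.e (nat_lit 2887) (nat_lit 184) (.e (nat_lit 426113) (nat_lit 2) (.e (nat_lit 196666) (nat_lit 13) (.e (nat_lit 65617) (nat_lit 10) (.e (nat_lit 344133) (nat_lit 26) (.e (nat_lit 557091) (nat_lit 12) (.e (nat_lit 164017) (nat_lit 44) (.e (nat_lit 688138) (nat_lit 5) .nil)))))))) (.g (nat_lit 1) (.e (nat_lit 57888) (nat_lit 0) .nil) .nil)))) 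
(.nd (nat_lit 9) 
(.lf (nat_lit 461274) (.g (nat_lit 2804) (.e (nat_lit 2862) (nat_lit 184) (.e (nat_lit 426436) (nat_lit 18) (.e (nat_lit 98358) (nat_lit 26) (.e (nat_lit 426438) (nat_lit 18) (.e (nat_lit 98358) (nat_lit 26) (.e (nat_lit 426428) (nat_lit 17) (.e (nat_lit 90130) (nat_lit 9) .nil))))))) (.g (nat_lit 1) (.e (nat_lit 57117) (nat_lit 0) .nil) .nil))) 
(.lf (nat_lit 461786) (.g (nat_lit 5376) (.e (nat_lit 2884) (nat_lit 184) (.e (nat_lit 426125) (nat_lit 2) (.e (nat_lit 196666) (nat_lit 13) (.e (nat_lit 65617) (nat_lit 10) (.e (nat_lit 344127) (nat_lit 26) (.e (nat_lit 557090) (nat_lit 12) (.e (nat_lit 164020) (nat_lit 45) (.e (nat_lit 696328) (nat_lit 5) .nil)))))))) (.g (nat_lit 1) (.e (nat_lit 58685) (nat_lit 0) .nil) .nil))))))) 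
(.nd (nat_lit 6) (.nd (nat_lit 7) (.nd (nat_lit 8) (.nd (nat_lit 9) 
(.lf (nat_lit 460858) (.g (nat_lit 4809) (.e (nat_lit 2846) (nat_lit 184) (.e (nat_lit 426436) (nat_lit 18) (.e (nat_lit 98335) (nat_lit 18) (.e (nat_lit 164327) (nat_lit 230) .nil)))) (.g (nat_lit 0) (.e (nat_lit 56322) (nat_lit 0) .nil) .nil))) 
(.lf (nat_lit 461370) (.g (nat_lit 4582) (.e (nat_lit 2877) (nat_lit 184) (.e (nat_lit 426125) (nat_lit 2) (.e (nat_lit 196666) (nat_lit 13) (.e (nat_lit 65610) (nat_lit 10) (.e (nat_lit 344129) (nat_lit 26) (.e (nat_lit 557089) (nat_lit 12) (.e (nat_lit 164017) (nat_lit 44) (.e (nat_lit 688140) (nat_lit 5) .nil)))))))) (.g (nat_lit 1) (.e (nat_lit 57474) (nat_lit 0) .nil) .nil)))) 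
(.nd (nat_lit 9) 
(.lf (nat_lit 461114) (.g (nat_lit 2151) (.e (nat_lit 2855) (nat_lit 184) (.e (nat_lit 426555) (nat_lit 32) (.e (nat_lit 376857) (nat_lit 21) (.e (nat_lit 57873) (nat_lit 264) (.e (nat_lit 1210) (nat_lit 89) .nil))))) (.g (nat_lit 0) (.e (nat_lit 56805) (nat_lit 0) .nil) .nil))) 
(.lf (nat_lit 461626) (.g (nat_lit 3127) (.e (nat_lit 2887) (nat_lit 184) (.e (nat_lit 426171) (nat_lit 7) (.e (nat_lit 409648) (nat_lit 18) (.e (nat_lit 303137) (nat_lit 10) (.e (nat_lit 434275) (nat_lit 39) (.e (nat_lit 663584) (nat_lit 12) (.e (nat_lit 164017) (nat_lit 44) (.e (nat_lit 688139) (nat_lit 5) .nil)))))))) (.g (nat_lit 1) (.e (nat_lit 58027) (nat_lit 0) .nil) .nil))))) 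
(.nd (nat_lit 8) (.nd (nat_lit 9) 
(.lf (nat_lit 460986) (.g (nat_lit 1132) (.e (nat_lit 2854) (nat_lit 184) (.e (nat_lit 426533) (nat_lit 28) (.e (nat_lit 344066) (nat_lit 0) (.e (nat_lit 2940) (nat_lit 184) (.e (nat_lit 426532) (nat_lit 28) (.e (nat_lit 344069) (nat_lit 0) .nil)))))) (.g (nat_lit 1) (.e (nat_lit 56623) (nat_lit 0) .nil) .nil))) 
(.lf (nat_lit 461498) (.g (nat_lit 3926) (.e (nat_lit 2879) (nat_lit 184) (.e (nat_lit 426125) (nat_lit 2) (.e (nat_lit 196666) (nat_lit 13) (.e (nat_lit 65617) (nat_lit 10) (.e (nat_lit 344133) (nat_lit 26) .nil))))) (.g (nat_lit 0) (.e (nat_lit 57837) (nat_lit 0) .nil) .nil)))) (.nd (nat_lit 9) 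
(.lf (nat_lit 461242) (.g (nat_lit 2099) (.e (nat_lit 2857) (nat_lit 184) (.e (nat_lit 426539) (nat_lit 29) (.e (nat_lit 352262) (nat_lit 0) (.e (nat_lit 3632) (nat_lit 227) (.e (nat_lit 778324) (nat_lit 5) (.e (nat_lit 73781) (nat_lit 32) .nil)))))) (.g (nat_lit 1) (.e (nat_lit 56994) (nat_lit 0) .nil) .nil))) 
(.lf (nat_lit 461754) (.g (nat_lit 3611) (.e (nat_lit 2882) (nat_lit 184) (.e (nat_lit 426125) (nat_lit 2) (.e (nat_lit 196666) (nat_lit 13) (.e (nat_lit 65617) (nat_lit 10) (.e (nat_lit 344133) (nat_lit 26) .nil))))) (.g (nat_lit 0) (.e (nat_lit 58552) (nat_lit 0) .nil) .nil)))))) (.nd (nat_lit 7) (.nd (nat_lit 8) (.nd (nat_lit 9) 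
(.lf (nat_lit 460922) (.g (nat_lit 4164) (.e (nat_lit 2852) (nat_lit 184) (.e (nat_lit 426538) (nat_lit 29) (.e (nat_lit 352318) (nat_lit 24) (.e (nat_lit 123195) (nat_lit 266) (.e (nat_lit 57400) (nat_lit 10) (.e (nat_lit 319490) (nat_lit 0) (.e (nat_lit 5664) (nat_lit 312) .nil))))))) (.g (nat_lit 1) (.e (nat_lit 56452) (nat_lit 0) .nil) .nil))) 
(.lf (nat_lit 461434) (.g (nat_lit 2812) (.e (nat_lit 2878) (nat_lit 184) (.e (nat_lit 426125) (nat_lit 2) (.e (nat_lit 196666) (nat_lit 13) (.e (nat_lit 65617) (nat_lit 10) (.e (nat_lit 344127) (nat_lit 26) .nil))))) (.g (nat_lit 0) (.e (nat_lit 57656) (nat_lit 0) .nil) .nil)))) (.nd (nat_lit 9) 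
(.lf (nat_lit 461178) (.g (nat_lit 2272) (.e (nat_lit 2856) (nat_lit 184) (.e (nat_lit 426533) (nat_lit 28) (.e (nat_lit 344069) (nat_lit 0) (.e (nat_lit 3090) (nat_lit 191) (.e (nat_lit 483347) (nat_lit 17) (.e (nat_lit 6684) (nat_lit 357) .nil)))))) (.g (nat_lit 1) (.e (nat_lit 56884) (nat_lit 0) .nil) .nil))) 
(.lf (nat_lit 461690) (.g (nat_lit 4031) (.e (nat_lit 2887) (nat_lit 184) (.e (nat_lit 426412) (nat_lit 15) (.e (nat_lit 1856) (nat_lit 124) (.e (nat_lit 557101) (nat_lit 13) (.e (nat_lit 172115) (nat_lit 10) (.e (nat_lit 434231) (nat_lit 23) (.e (nat_lit 532481) (nat_lit 0) (.e (nat_lit 7936) (nat_lit 357) .nil)))))))) (.g (nat_lit 1) (.e (nat_lit 58393) (nat_lit 0) .nil) .nil))))) 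
(.nd (nat_lit 8) (.nd (nat_lit 9) 
(.lf (nat_lit 461050) (.g (nat_lit 3991) (.e (nat_lit 2855) (nat_lit 184) (.e (nat_lit 426402) (nat_lit 15) (.e (nat_lit 1859) (nat_lit 124) (.e (nat_lit 557098) (nat_lit 13) (.e (nat_lit 172097) (nat_lit 9) (.e (nat_lit 426125) (nat_lit 2) (.e (nat_lit 196661) (nat_lit 12) (.e (nat_lit 57750) (nat_lit 201) .nil)))))))) (.g (nat_lit 1) (.e (nat_lit 56720) (nat_lit 0) .nil) .nil))) 
(.lf (nat_lit 461562) (.g (nat_lit 2992) (.e (nat_lit 2887) (nat_lit 184) (.e (nat_lit 426134) (nat_lit 3) (.e (nat_lit 204868) (nat_lit 29) (.e (nat_lit 360473) (nat_lit 8) (.e (nat_lit 557089) (nat_lit 12) (.e (nat_lit 164017) (nat_lit 44) (.e (nat_lit 688139) (nat_lit 5) .nil))))))) (.g (nat_lit 1) (.e (nat_lit 57920) (nat_lit 0) .nil) .nil)))) (.nd (nat_lit 9) 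
(.lf (nat_lit 461306) (.g (nat_lit 2608) (.e (nat_lit 2862) (nat_lit 184) (.e (nat_lit 426566) (nat_lit 34) (.e (nat_lit 393294) (nat_lit 26) (.e (nat_lit 475177) (nat_lit 24) (.e (nat_lit 516120) (nat_lit 1) .nil))))) (.g (nat_lit 0) (.e (nat_lit 57161) (nat_lit 0) .nil) .nil))) 
(.lf (nat_lit 461818) (.g (nat_lit 1331) (.e (nat_lit 2884) (nat_lit 184) (.e (nat_lit 426317) (nat_lit 12) (.e (nat_lit 475183) (nat_lit 29) (.e (nat_lit 557097) (nat_lit 13) .nil)))) (.g (nat_lit 0) (.e (nat_lit 58763) (nat_lit 0) .nil) .nil)))))))))) (.nd (nat_lit 3) (.nd (nat_lit 4) (.nd (nat_lit 5) (.nd (nat_lit 6) (.nd (nat_lit 7) (.nd (nat_lit 8) (.nd (nat_lit 9) 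
(.lf (nat_lit 460806) (.g (nat_lit 3148) (.e (nat_lit 2842) (nat_lit 184) (.e (nat_lit 426566) (nat_lit 34) (.e (nat_lit 393294) (nat_lit 26) (.e (nat_lit 475177) (nat_lit 24) (.e (nat_lit 516117) (nat_lit 1) (.e (nat_lit 164305) (nat_lit 226) (.e (nat_lit 2450) (nat_lit 157) .nil))))))) (.g (nat_lit 1) (.e (nat_lit 56220) (nat_lit 0) .nil) .nil))) 
(.lf (nat_lit 461318) (.g (nat_lit 3256) (.e (nat_lit 2869) (nat_lit 184) (.e (nat_lit 426136) (nat_lit 3) (.e (nat_lit 204869) (nat_lit 29) (.e (nat_lit 360474) (nat_lit 8) (.e (nat_lit 557091) (nat_lit 12) (.e (nat_lit 164020) (nat_lit 45) (.e (nat_lit 696327) (nat_lit 5) .nil))))))) (.g (nat_lit 1) (.e (nat_lit 57249) (nat_lit 0) .nil) .nil)))) (.nd (nat_lit 9) 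
(.lf (nat_lit 461062) (.g (nat_lit 1698) (.e (nat_lit 2855) (nat_lit 184) (.e (nat_lit 426482) (nat_lit 27) (.e (nat_lit 336205) (nat_lit 12) (.e (nat_lit 385094) (nat_lit 49) (.e (nat_lit 778323) (nat_lit 5) .nil))))) (.g (nat_lit 0) (.e (nat_lit 56732) (nat_lit 0) .nil) .nil))) 
(.lf (nat_lit 461574) (.g (nat_lit 2181) (.e (nat_lit 2887) (nat_lit 184) (.e (nat_lit 426135) (nat_lit 3) (.e (nat_lit 204868) (nat_lit 29) (.e (nat_lit 360473) (nat_lit 8) (.e (nat_lit 557094) (nat_lit 12) (.e (nat_lit 164016) (nat_lit 44) (.e (nat_lit 688138) (nat_lit 5) .nil))))))) (.g (nat_lit 1) (.e (nat_lit 57933) (nat_lit 0) .nil) .nil))))) (.nd (nat_lit 8) (.nd (nat_lit 9) 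
(.lf (nat_lit 460934) (.g (nat_lit 670) (.e (nat_lit 2854) (nat_lit 184) (.e (nat_lit 426131) (nat_lit 3) (.e (nat_lit 204845) (nat_lit 24) .nil))) (.g (nat_lit 0) (.e (nat_lit 56498) (nat_lit 0) .nil) .nil))) 
(.lf (nat_lit 461446) (.g (nat_lit 3131) (.e (nat_lit 2878) (nat_lit 184) (.e (nat_lit 426125) (nat_lit 2) (.e (nat_lit 196666) (nat_lit 13) (.e (nat_lit 65617) (nat_lit 10) (.e (nat_lit 344130) (nat_lit 26) (.e (nat_lit 557091) (nat_lit 12) (.e (nat_lit 164020) (nat_lit 45) (.e (nat_lit 696328) (nat_lit 5) .nil)))))))) (.g (nat_lit 1) (.e (nat_lit 57679) (nat_lit 0) .nil) .nil)))) 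
(.nd (nat_lit 9) 
(.lf (nat_lit 461190) (.g (nat_lit 1372) (.e (nat_lit 2856) (nat_lit 184) (.e (nat_lit 426555) (nat_lit 32) (.e (nat_lit 376857) (nat_lit 21) (.e (nat_lit 57871) (nat_lit 264) .nil)))) (.g (nat_lit 0) (.e (nat_lit 56898) (nat_lit 0) .nil) .nil))) 
(.lf (nat_lit 461702) (.g (nat_lit 5520) (.e (nat_lit 2887) (nat_lit 184) (.e (nat_lit 426412) (nat_lit 15) (.e (nat_lit 1856) (nat_lit 124) (.e (nat_lit 557109) (nat_lit 15) (.e (nat_lit 188452) (nat_lit 23) (.e (nat_lit 204817) (nat_lit 17) (.e (nat_lit 7936) (nat_lit 357) .nil))))))) (.g (nat_lit 1) (.e (nat_lit 58405) (nat_lit 0) .nil) .nil)))))) 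
(.nd (nat_lit 7) (.nd (nat_lit 8) (.nd (nat_lit 9) 
(.lf (nat_lit 460870) (.g (nat_lit 1991) (.e (nat_lit 2847) (nat_lit 184) (.e (nat_lit 426566) (nat_lit 34) (.e (nat_lit 393271) (nat_lit 23) (.e (nat_lit 426436) (nat_lit 18) (.e (nat_lit 98334) (nat_lit 18) .nil))))) (.g (nat_lit 0) (.e (nat_lit 56355) (nat_lit 0) .nil) .nil))) 
(.lf (nat_lit 461382) (.g (nat_lit 2821) (.e (nat_lit 2877) (nat_lit 184) (.e (nat_lit 426125) (nat_lit 2) (.e (nat_lit 196666) (nat_lit 13) (.e (nat_lit 65617) (nat_lit 10) (.e (nat_lit 344127) (nat_lit 26) (.e (nat_lit 557089) (nat_lit 12) (.e (nat_lit 164017) (nat_lit 44) (.e (nat_lit 688141) (nat_lit 5) .nil)))))))) (.g (nat_lit 1) (.e (nat_lit 57486) (nat_lit 0) .nil) .nil)))) 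
(.nd (nat_lit 9) 
(.lf (nat_lit 461126) (.g (nat_lit 2545) (.e (nat_lit 2856) (nat_lit 184) (.e (nat_lit 426402) (nat_lit 15) (.e (nat_lit 1848) (nat_lit 124) (.e (nat_lit 557097) (nat_lit 13) (.e (nat_lit 172115) (nat_lit 10) (.e (nat_lit 434231) (nat_lit 23) (.e (nat_lit 532482) (nat_lit 0) (.e (nat_lit 6643) (nat_lit 357) .nil)))))))) (.g (nat_lit 1) (.e (nat_lit 56824) (nat_lit 0) .nil) .nil))) 
(.lf (nat_lit 461638) (.g (nat_lit 3861) (.e (nat_lit 2887) (nat_lit 184) (.e (nat_lit 426211) (nat_lit 9) (.e (nat_lit 426528) (nat_lit 27) (.e (nat_lit 336231) (nat_lit 14) (.e (nat_lit 401446) (nat_lit 10) (.e (nat_lit 434286) (nat_lit 42) (.e (nat_lit 688138) (nat_lit 5) .nil))))))) (.g (nat_lit 1) (.e (nat_lit 58062) (nat_lit 0) .nil) .nil))))) (.nd (nat_lit 8) (.nd (nat_lit 9) 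
(.lf (nat_lit 460998) (.g (nat_lit 1944) (.e (nat_lit 2854) (nat_lit 184) (.e (nat_lit 426542) (nat_lit 29) (.e (nat_lit 352267) (nat_lit 0) (.e (nat_lit 3629) (nat_lit 227) (.e (nat_lit 778323) (nat_lit 5) (.e (nat_lit 73781) (nat_lit 32) .nil)))))) (.g (nat_lit 1) (.e (nat_lit 56639) (nat_lit 0) .nil) .nil))) 
(.lf (nat_lit 461510) (.g (nat_lit 2712) (.e (nat_lit 2886) (nat_lit 184) (.e (nat_lit 426211) (nat_lit 9) (.e (nat_lit 426125) (nat_lit 2) (.e (nat_lit 196617) (nat_lit 9) .nil)))) (.g (nat_lit 0) (.e (nat_lit 57863) (nat_lit 0) .nil) .nil)))) (.nd (nat_lit 9) 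
(.lf (nat_lit 461254) (.g (nat_lit 4091) (.e (nat_lit 2857) (nat_lit 184) (.e (nat_lit 426566) (nat_lit 34) (.e (nat_lit 393253) (nat_lit 18) (.e (nat_lit 164332) (nat_lit 230) .nil)))) (.g (nat_lit 0) (.e (nat_lit 57015) (nat_lit 0) .nil) .nil))) 
(.lf (nat_lit 461766) (.g (nat_lit 4606) (.e (nat_lit 2883) (nat_lit 184) (.e (nat_lit 426125) (nat_lit 2) (.e (nat_lit 196666) (nat_lit 13) (.e (nat_lit 65610) (nat_lit 10) (.e (nat_lit 344129) (nat_lit 26) (.e (nat_lit 557089) (nat_lit 12) (.e (nat_lit 164017) (nat_lit 44) (.e (nat_lit 688140) (nat_lit 5) .nil)))))))) (.g (nat_lit 1) (.e (nat_lit 58594) (nat_lit 0) .nil) .nil))))))) 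
(.nd (nat_lit 6) (.nd (nat_lit 7) (.nd (nat_lit 8) (.nd (nat_lit 9) 
(.lf (nat_lit 460838) (.g (nat_lit 2185) (.e (nat_lit 2845) (nat_lit 184) (.e (nat_lit 426438) (nat_lit 18) (.e (nat_lit 98358) (nat_lit 26) (.e (nat_lit 426323) (nat_lit 13) (.e (nat_lit 483364) (nat_lit 18) (.e (nat_lit 57665) (nat_lit 152) (.e (nat_lit 2466) (nat_lit 157) .nil))))))) (.g (nat_lit 1) (.e (nat_lit 56282) (nat_lit 0) .nil) .nil))) 
(.lf (nat_lit 461350) (.g (nat_lit 3135) (.e (nat_lit 2875) (nat_lit 184) (.e (nat_lit 426125) (nat_lit 2) (.e (nat_lit 196666) (nat_lit 13) (.e (nat_lit 65617) (nat_lit 10) .nil)))) (.g (nat_lit 0) (.e (nat_lit 57392) (nat_lit 0) .nil) .nil)))) (.nd (nat_lit 9) 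
(.lf (nat_lit 461094) (.g (nat_lit 2272) (.e (nat_lit 2855) (nat_lit 184) (.e (nat_lit 426542) (nat_lit 29) (.e (nat_lit 352267) (nat_lit 0) (.e (nat_lit 3629) (nat_lit 227) (.e (nat_lit 778323) (nat_lit 5) (.e (nat_lit 73782) (nat_lit 32) .nil)))))) (.g (nat_lit 1) (.e (nat_lit 56784) (nat_lit 0) .nil) .nil))) 
(.lf (nat_lit 461606) (.g (nat_lit 993) (.e (nat_lit 2887) (nat_lit 184) (.e (nat_lit 426140) (nat_lit 3) (.e (nat_lit 204870) (nat_lit 29) .nil))) (.g (nat_lit 0) (.e (nat_lit 57965) (nat_lit 0) .nil) .nil))))) (.nd (nat_lit 8) (.nd (nat_lit 9) 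
(.lf (nat_lit 460966) (.g (nat_lit 1950) (.e (nat_lit 2854) (nat_lit 184) (.e (nat_lit 426436) (nat_lit 18) (.e (nat_lit 98358) (nat_lit 26) (.e (nat_lit 426434) (nat_lit 18) .nil)))) (.g (nat_lit 0) (.e (nat_lit 56590) (nat_lit 0) .nil) .nil))) 
(.lf (nat_lit 461478) (.g (nat_lit 2864) (.e (nat_lit 2878) (nat_lit 184) (.e (nat_lit 426310) (nat_lit 12) (.e (nat_lit 475185) (nat_lit 29) (.e (nat_lit 557107) (nat_lit 15) (.e (nat_lit 188439) (nat_lit 20) (.e (nat_lit 3272) (nat_lit 199) (.e (nat_lit 548898) (nat_lit 14) .nil))))))) (.g (nat_lit 1) (.e (nat_lit 57802) (nat_lit 0) .nil) .nil)))) (.nd (nat_lit 9) 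
(.lf (nat_lit 461222) (.g (nat_lit 1406) (.e (nat_lit 2857) (nat_lit 184) (.e (nat_lit 426484) (nat_lit 27) (.e (nat_lit 336208) (nat_lit 12) (.e (nat_lit 385094) (nat_lit 49) (.e (nat_lit 778324) (nat_lit 5) (.e (nat_lit 73781) (nat_lit 32) .nil)))))) (.g (nat_lit 1) (.e (nat_lit 56973) (nat_lit 0) .nil) .nil))) 
(.lf (nat_lit 461734) (.g (nat_lit 2961) (.e (nat_lit 2889) (nat_lit 184) (.e (nat_lit 426125) (nat_lit 2) (.e (nat_lit 196666) (nat_lit 13) (.e (nat_lit 65610) (nat_lit 10) (.e (nat_lit 344129) (nat_lit 26) .nil))))) (.g (nat_lit 0) (.e (nat_lit 58475) (nat_lit 0) .nil) .nil)))))) (.nd (nat_lit 7) (.nd (nat_lit 8) (.nd (nat_lit 9) 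
(.lf (nat_lit 460902) (.g (nat_lit 638) (.e (nat_lit 2851) (nat_lit 184) (.e (nat_lit 426436) (nat_lit 18) (.e (nat_lit 98386) (nat_lit 32) .nil))) (.g (nat_lit 0) (.e (nat_lit 56420) (nat_lit 0) .nil) .nil))) 
(.lf (nat_lit 461414) (.g (nat_lit 5123) (.e (nat_lit 2877) (nat_lit 184) (.e (nat_lit 426125) (nat_lit 2) (.e (nat_lit 196666) (nat_lit 13) (.e (nat_lit 65617) (nat_lit 10) (.e (nat_lit 344133) (nat_lit 26) (.e (nat_lit 557089) (nat_lit 12) (.e (nat_lit 164017) (nat_lit 44) (.e (nat_lit 688139) (nat_lit 5) .nil)))))))) (.g (nat_lit 1) (.e (nat_lit 57518) (nat_lit 0) .nil) .nil)))) 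
(.nd (nat_lit 9) 
(.lf (nat_lit 461158) (.g (nat_lit 2866) (.e (nat_lit 2856) (nat_lit 184) (.e (nat_lit 426509) (nat_lit 27) (.e (nat_lit 336205) (nat_lit 12) (.e (nat_lit 385093) (nat_lit 49) (.e (nat_lit 778324) (nat_lit 5) (.e (nat_lit 73781) (nat_lit 32) .nil)))))) (.g (nat_lit 1) (.e (nat_lit 56864) (nat_lit 0) .nil) .nil))) 
(.lf (nat_lit 461670) (.g (nat_lit 1915) (.e (nat_lit 2887) (nat_lit 184) (.e (nat_lit 426317) (nat_lit 12) (.e (nat_lit 475199) (nat_lit 40) (.e (nat_lit 704598) (nat_lit 6) (.e (nat_lit 196352) (nat_lit 8) (.e (nat_lit 155650) (nat_lit 0) .nil)))))) (.g (nat_lit 1) (.e (nat_lit 58269) (nat_lit 0) .nil) .nil))))) (.nd (nat_lit 8) (.nd (nat_lit 9) 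
(.lf (nat_lit 461030) (.g (nat_lit 2268) (.e (nat_lit 2854) (nat_lit 184) (.e (nat_lit 426568) (nat_lit 34) (.e (nat_lit 393271) (nat_lit 23) (.e (nat_lit 426131) (nat_lit 3) (.e (nat_lit 204829) (nat_lit 18) .nil))))) (.g (nat_lit 0) (.e (nat_lit 56691) (nat_lit 0) .nil) .nil))) 
(.lf (nat_lit 461542) (.g (nat_lit 3706) (.e (nat_lit 2887) (nat_lit 184) (.e (nat_lit 426120) (nat_lit 2) (.e (nat_lit 196666) (nat_lit 13) (.e (nat_lit 65617) (nat_lit 10) (.e (nat_lit 344133) (nat_lit 26) (.e (nat_lit 557089) (nat_lit 12) (.e (nat_lit 164017) (nat_lit 44) (.e (nat_lit 688138) (nat_lit 5) .nil)))))))) (.g (nat_lit 1) (.e (nat_lit 57900) (nat_lit 0) .nil) .nil)))) 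
(.nd (nat_lit 9) 
(.lf (nat_lit 461286) (.g (nat_lit 1854) (.e (nat_lit 2862) (nat_lit 184) (.e (nat_lit 426506) (nat_lit 27) (.e (nat_lit 336205) (nat_lit 12) (.e (nat_lit 385093) (nat_lit 49) (.e (nat_lit 778323) (nat_lit 5) (.e (nat_lit 81664) (nat_lit 32) .nil)))))) (.g (nat_lit 1) (.e (nat_lit 57133) (nat_lit 0) .nil) .nil))) 
(.lf (nat_lit 461798) (.g (nat_lit 2850) (.e (nat_lit 2884) (nat_lit 184) (.e (nat_lit 426140) (nat_lit 3) (.e (nat_lit 204868) (nat_lit 29) (.e (nat_lit 360473) (nat_lit 8) (.e (nat_lit 557090) (nat_lit 12) (.e (nat_lit 164020) (nat_lit 45) (.e (nat_lit 696330) (nat_lit 5) .nil))))))) (.g (nat_lit 1) (.e (nat_lit 58715) (nat_lit 0) .nil) .nil)))))))) 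
(.nd (nat_lit 5) (.nd (nat_lit 6) (.nd (nat_lit 7) (.nd (nat_lit 8) (.nd (nat_lit 9) 
(.lf (nat_lit 460822) (.g (nat_lit 3847) (.e (nat_lit 2845) (nat_lit 184) (.e (nat_lit 426354) (nat_lit 15) (.e (nat_lit 1860) (nat_lit 124) (.e (nat_lit 557101) (nat_lit 13) (.e (nat_lit 172115) (nat_lit 10) (.e (nat_lit 434231) (nat_lit 23) (.e (nat_lit 532482) (nat_lit 0) (.e (nat_lit 6696) (nat_lit 357) .nil)))))))) (.g (nat_lit 1) (.e (nat_lit 56265) (nat_lit 0) .nil) .nil))) 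
(.lf (nat_lit 461334) (.g (nat_lit 3552) (.e (nat_lit 2873) (nat_lit 184) (.e (nat_lit 426125) (nat_lit 2) (.e (nat_lit 196666) (nat_lit 13) (.e (nat_lit 65617) (nat_lit 10) (.e (nat_lit 344132) (nat_lit 26) .nil))))) (.g (nat_lit 0) (.e (nat_lit 57355) (nat_lit 0) .nil) .nil)))) (.nd (nat_lit 9) 
(.lf (nat_lit 461078) (.g (nat_lit 1522) (.e (nat_lit 2855) (nat_lit 184) (.e (nat_lit 426533) (nat_lit 28) (.e (nat_lit 344069) (nat_lit 0) (.e (nat_lit 3090) (nat_lit 191) (.e (nat_lit 483354) (nat_lit 17) (.e (nat_lit 6676) (nat_lit 357) .nil)))))) (.g (nat_lit 1) (.e (nat_lit 56757) (nat_lit 0) .nil) .nil))) 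
(.lf (nat_lit 461590) (.g (nat_lit 5094) (.e (nat_lit 2887) (nat_lit 184) (.e (nat_lit 426136) (nat_lit 3) (.e (nat_lit 204869) (nat_lit 29) (.e (nat_lit 360475) (nat_lit 8) (.e (nat_lit 557089) (nat_lit 12) (.e (nat_lit 164017) (nat_lit 44) (.e (nat_lit 688139) (nat_lit 5) .nil))))))) (.g (nat_lit 1) (.e (nat_lit 57949) (nat_lit 0) .nil) .nil))))) (.nd (nat_lit 8) (.nd (nat_lit 9) 
(.lf (nat_lit 460950) (.g (nat_lit 2166) (.e (nat_lit 2854) (nat_lit 184) (.e (nat_lit 426320) (nat_lit 12) (.e (nat_lit 475209) (nat_lit 41) (.e (nat_lit 712755) (nat_lit 30) (.e (nat_lit 450563) (nat_lit 0) (.e (nat_lit 5537) (nat_lit 306) (.e (nat_lit 2478) (nat_lit 157) .nil))))))) (.g (nat_lit 1) (.e (nat_lit 56554) (nat_lit 0) .nil) .nil))) 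
(.lf (nat_lit 461462) (.g (nat_lit 6074) (.e (nat_lit 2878) (nat_lit 184) (.e (nat_lit 426125) (nat_lit 2) (.e (nat_lit 196666) (nat_lit 13) (.e (nat_lit 65617) (nat_lit 10) (.e (nat_lit 344133) (nat_lit 26) (.e (nat_lit 557091) (nat_lit 12) (.e (nat_lit 164020) (nat_lit 45) (.e (nat_lit 696330) (nat_lit 5) .nil)))))))) (.g (nat_lit 1) (.e (nat_lit 57707) (nat_lit 0) .nil) .nil)))) 
(.nd (nat_lit 9) 
(.lf (nat_lit 461206) (.g (nat_lit 2004) (.e (nat_lit 2857) (nat_lit 184) (.e (nat_lit 426479) (nat_lit 27) (.e (nat_lit 336208) (nat_lit 12) (.e (nat_lit 385093) (nat_lit 49) (.e (nat_lit 778324) (nat_lit 5) (.e (nat_lit 73781) (nat_lit 32) .nil)))))) (.g (nat_lit 1) (.e (nat_lit 56924) (nat_lit 0) .nil) .nil))) 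
(.lf (nat_lit 461718) (.g (nat_lit 2679) (.e (nat_lit 2887) (nat_lit 184) (.e (nat_lit 426499) (nat_lit 27) (.e (nat_lit 336232) (nat_lit 14) (.e (nat_lit 401444) (nat_lit 9) (.e (nat_lit 433920) (nat_lit 25) (.e (nat_lit 319491) (nat_lit 0) (.e (nat_lit 5664) (nat_lit 312) .nil))))))) (.g (nat_lit 1) (.e (nat_lit 58447) (nat_lit 0) .nil) .nil)))))) 
(.nd (nat_lit 7) (.nd (nat_lit 8) (.nd (nat_lit 9) 
(.lf (nat_lit 460886) (.g (nat_lit 637) (.e (nat_lit 2849) (nat_lit 184) (.e (nat_lit 426436) (nat_lit 18) (.e (nat_lit 98358) (nat_lit 26) .nil))) (.g (nat_lit 0) (.e (nat_lit 56388) (nat_lit 0) .nil) .nil))) 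
(.lf (nat_lit 461398) (.g (nat_lit 5267) (.e (nat_lit 2877) (nat_lit 184) (.e (nat_lit 426125) (nat_lit 2) (.e (nat_lit 196666) (nat_lit 13) (.e (nat_lit 65617) (nat_lit 10) (.e (nat_lit 344130) (nat_lit 26) (.e (nat_lit 557090) (nat_lit 12) (.e (nat_lit 164017) (nat_lit 44) (.e (nat_lit 688138) (nat_lit 5) .nil)))))))) (.g (nat_lit 1) (.e (nat_lit 57502) (nat_lit 0) .nil) .nil)))) 
(.nd (nat_lit 9) 
(.lf (nat_lit 461142) (.g (nat_lit 4146) (.e (nat_lit 2856) (nat_lit 184) (.e (nat_lit 426436) (nat_lit 18) (.e (nat_lit 98335) (nat_lit 18) (.e (nat_lit 164332) (nat_lit 230) .nil)))) (.g (nat_lit 0) (.e (nat_lit 56840) (nat_lit 0) .nil) .nil))) 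
(.lf (nat_lit 461654) (.g (nat_lit 2777) (.e (nat_lit 2887) (nat_lit 184) (.e (nat_lit 426216) (nat_lit 9) (.e (nat_lit 426528) (nat_lit 27) (.e (nat_lit 336231) (nat_lit 14) (.e (nat_lit 401446) (nat_lit 10) (.e (nat_lit 434286) (nat_lit 42) (.e (nat_lit 688138) (nat_lit 5) .nil))))))) (.g (nat_lit 1) (.e (nat_lit 58078) (nat_lit 0) .nil) .nil))))) (.nd (nat_lit 8) (.nd (nat_lit 9) 
(.lf (nat_lit 461014) (.g (nat_lit 2408) (.e (nat_lit 2854) (nat_lit 184) (.e (nat_lit 426566) (nat_lit 34) (.e (nat_lit 393271) (nat_lit 23) (.e (nat_lit 426131) (nat_lit 3) (.e (nat_lit 204829) (nat_lit 18) .nil))))) (.g (nat_lit 0) (.e (nat_lit 56655) (nat_lit 0) .nil) .nil))) 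
(.lf (nat_lit 461526) (.g (nat_lit 3012) (.e (nat_lit 2887) (nat_lit 184) (.e (nat_lit 426113) (nat_lit 2) (.e (nat_lit 196666) (nat_lit 13) (.e (nat_lit 65617) (nat_lit 10) (.e (nat_lit 344132) (nat_lit 26) (.e (nat_lit 557094) (nat_lit 12) (.e (nat_lit 164016) (nat_lit 44) (.e (nat_lit 688138) (nat_lit 5) .nil)))))))) (.g (nat_lit 1) (.e (nat_lit 57884) (nat_lit 0) .nil) .nil)))) 
(.nd (nat_lit 9) 
(.lf (nat_lit 461270) (.g (nat_lit 5352) (.e (nat_lit 2862) (nat_lit 184) (.e (nat_lit 426131) (nat_lit 3) (.e (nat_lit 204869) (nat_lit 29) (.e (nat_lit 360474) (nat_lit 8) (.e (nat_lit 557091) (nat_lit 12) (.e (nat_lit 164020) (nat_lit 45) (.e (nat_lit 696330) (nat_lit 5) .nil))))))) (.g (nat_lit 1) (.e (nat_lit 57111) (nat_lit 0) .nil) .nil))) 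
(.lf (nat_lit 461782) (.g (nat_lit 2871) (.e (nat_lit 2884) (nat_lit 184) (.e (nat_lit 426125) (nat_lit 2) (.e (nat_lit 196666) (nat_lit 13) (.e (nat_lit 65617) (nat_lit 10) (.e (nat_lit 344127) (nat_lit 26) (.e (nat_lit 557088) (nat_lit 12) (.e (nat_lit 164018) (nat_lit 45) (.e (nat_lit 696329) (nat_lit 5) .nil)))))))) (.g (nat_lit 1) (.e (nat_lit 58681) (nat_lit 0) .nil) .nil))))))) 
(.nd (nat_lit 6) (.nd (nat_lit 7) (.nd (nat_lit 8) (.nd (nat_lit 9) 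
(.lf (nat_lit 460854) (.g (nat_lit 1956) (.e (nat_lit 2845) (nat_lit 184) (.e (nat_lit 426568) (nat_lit 34) (.e (nat_lit 393271) (nat_lit 23) (.e (nat_lit 426131) (nat_lit 3) (.e (nat_lit 204830) (nat_lit 18) .nil))))) (.g (nat_lit 0) (.e (nat_lit 56313) (nat_lit 0) .nil) .nil))) 
(.lf (nat_lit 461366) (.g (nat_lit 4099) (.e (nat_lit 2876) (nat_lit 184) (.e (nat_lit 426211) (nat_lit 9) (.e (nat_lit 426125) (nat_lit 2) (.e (nat_lit 196630) (nat_lit 9) (.e (nat_lit 1401) (nat_lit 106) .nil))))) (.g (nat_lit 0) (.e (nat_lit 57429) (nat_lit 0) .nil) .nil)))) (.nd (nat_lit 9) 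
(.lf (nat_lit 461110) (.g (nat_lit 1182) (.e (nat_lit 2855) (nat_lit 184) (.e (nat_lit 426546) (nat_lit 30) (.e (nat_lit 360452) (nat_lit 0) (.e (nat_lit 5906) (nat_lit 320) (.e (nat_lit 1211) (nat_lit 89) .nil))))) (.g (nat_lit 0) (.e (nat_lit 56800) (nat_lit 0) .nil) .nil))) 
(.lf (nat_lit 461622) (.g (nat_lit 2583) (.e (nat_lit 2887) (nat_lit 184) (.e (nat_lit 426171) (nat_lit 7) (.e (nat_lit 409646) (nat_lit 18) (.e (nat_lit 303140) (nat_lit 10) (.e (nat_lit 434275) (nat_lit 39) .nil))))) (.g (nat_lit 0) (.e (nat_lit 58012) (nat_lit 0) .nil) .nil))))) (.nd (nat_lit 8) (.nd (nat_lit 9) 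
(.lf (nat_lit 460982) (.g (nat_lit 1815) (.e (nat_lit 2854) (nat_lit 184) (.e (nat_lit 426530) (nat_lit 27) (.e (nat_lit 336235) (nat_lit 14) (.e (nat_lit 401437) (nat_lit 9) (.e (nat_lit 426533) (nat_lit 28) .nil))))) (.g (nat_lit 0) (.e (nat_lit 56619) (nat_lit 0) .nil) .nil))) 
(.lf (nat_lit 461494) (.g (nat_lit 2899) (.e (nat_lit 2879) (nat_lit 184) (.e (nat_lit 426125) (nat_lit 2) (.e (nat_lit 196666) (nat_lit 13) (.e (nat_lit 65610) (nat_lit 10) (.e (nat_lit 344129) (nat_lit 26) .nil))))) (.g (nat_lit 0) (.e (nat_lit 57830) (nat_lit 0) .nil) .nil)))) (.nd (nat_lit 9) 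
(.lf (nat_lit 461238) (.g (nat_lit 2803) (.e (nat_lit 2857) (nat_lit 184) (.e (nat_lit 426533) (nat_lit 28) (.e (nat_lit 344069) (nat_lit 0) (.e (nat_lit 3090) (nat_lit 191) (.e (nat_lit 483350) (nat_lit 17) (.e (nat_lit 6666) (nat_lit 357) .nil)))))) (.g (nat_lit 1) (.e (nat_lit 56990) (nat_lit 0) .nil) .nil))) 
(.lf (nat_lit 461750) (.g (nat_lit 4099) (.e (nat_lit 2894) (nat_lit 184) (.e (nat_lit 426211) (nat_lit 9) (.e (nat_lit 426125) (nat_lit 2) (.e (nat_lit 196630) (nat_lit 9) (.e (nat_lit 1401) (nat_lit 106) .nil))))) (.g (nat_lit 0) (.e (nat_lit 58548) (nat_lit 0) .nil) .nil)))))) (.nd (nat_lit 7) (.nd (nat_lit 8) (.nd (nat_lit 9) 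
(.lf (nat_lit 460918) (.g (nat_lit 2343) (.e (nat_lit 2852) (nat_lit 184) (.e (nat_lit 426438) (nat_lit 18) (.e (nat_lit 98369) (nat_lit 28) (.e (nat_lit 442391) (nat_lit 19) (.e (nat_lit 401414) (nat_lit 0) (.e (nat_lit 3459) (nat_lit 216) (.e (nat_lit 688139) (nat_lit 5) .nil))))))) (.g (nat_lit 1) (.e (nat_lit 56447) (nat_lit 0) .nil) .nil))) 
(.lf (nat_lit 461430) (.g (nat_lit 813) (.e (nat_lit 2878) (nat_lit 184) (.e (nat_lit 426125) (nat_lit 2) (.e (nat_lit 196661) (nat_lit 12) .nil))) (.g (nat_lit 0) (.e (nat_lit 57612) (nat_lit 0) .nil) .nil)))) (.nd (nat_lit 9) 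
(.lf (nat_lit 461174) (.g (nat_lit 2178) (.e (nat_lit 2856) (nat_lit 184) (.e (nat_lit 426533) (nat_lit 28) (.e (nat_lit 344068) (nat_lit 0) (.e (nat_lit 3090) (nat_lit 191) (.e (nat_lit 483347) (nat_lit 17) (.e (nat_lit 6649) (nat_lit 357) .nil)))))) (.g (nat_lit 1) (.e (nat_lit 56880) (nat_lit 0) .nil) .nil))) 
(.lf (nat_lit 461686) (.g (nat_lit 4839) (.e (nat_lit 2887) (nat_lit 184) (.e (nat_lit 426412) (nat_lit 15) (.e (nat_lit 1856) (nat_lit 124) (.e (nat_lit 557101) (nat_lit 13) (.e (nat_lit 172097) (nat_lit 9) (.e (nat_lit 426140) (nat_lit 3) (.e (nat_lit 204821) (nat_lit 17) (.e (nat_lit 7936) (nat_lit 357) .nil)))))))) (.g (nat_lit 1) (.e (nat_lit 58389) (nat_lit 0) .nil) .nil))))) 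
(.nd (nat_lit 8) (.nd (nat_lit 9) 
(.lf (nat_lit 461046) (.g (nat_lit 4281) (.e (nat_lit 2855) (nat_lit 184) (.e (nat_lit 426402) (nat_lit 15) (.e (nat_lit 1858) (nat_lit 124) (.e (nat_lit 557100) (nat_lit 13) (.e (nat_lit 172106) (nat_lit 10) (.e (nat_lit 434231) (nat_lit 23) (.e (nat_lit 532490) (nat_lit 0) (.e (nat_lit 6680) (nat_lit 357) .nil)))))))) (.g (nat_lit 1) (.e (nat_lit 56716) (nat_lit 0) .nil) .nil))) 
(.lf (nat_lit 461558) (.g (nat_lit 3727) (.e (nat_lit 2887) (nat_lit 184) (.e (nat_lit 426132) (nat_lit 3) (.e (nat_lit 204869) (nat_lit 29) (.e (nat_lit 360475) (nat_lit 8) (.e (nat_lit 557089) (nat_lit 12) (.e (nat_lit 164017) (nat_lit 44) (.e (nat_lit 688138) (nat_lit 5) .nil))))))) (.g (nat_lit 1) (.e (nat_lit 57916) (nat_lit 0) .nil) .nil)))) (.nd (nat_lit 9) 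
(.lf (nat_lit 461302) (.g (nat_lit 1876) (.e (nat_lit 2862) (nat_lit 184) (.e (nat_lit 426566) (nat_lit 34) (.e (nat_lit 393271) (nat_lit 23) (.e (nat_lit 426438) (nat_lit 18) .nil)))) (.g (nat_lit 0) (.e (nat_lit 57157) (nat_lit 0) .nil) .nil))) 
(.lf (nat_lit 461814) (.g (nat_lit 4255) (.e (nat_lit 2884) (nat_lit 184) (.e (nat_lit 426140) (nat_lit 3) (.e (nat_lit 204869) (nat_lit 29) (.e (nat_lit 360475) (nat_lit 8) (.e (nat_lit 557089) (nat_lit 12) (.e (nat_lit 164020) (nat_lit 45) (.e (nat_lit 696330) (nat_lit 5) .nil))))))) (.g (nat_lit 1) (.e (nat_lit 58733) (nat_lit 0) .nil) .nil))))))))) 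
(.nd (nat_lit 4) (.nd (nat_lit 5) (.nd (nat_lit 6) (.nd (nat_lit 7) (.nd (nat_lit 8) 
(.nd (nat_lit 9) 
(.lf (nat_lit 460814) (.g (nat_lit 3127) (.e (nat_lit 2844) (nat_lit 184) (.e (nat_lit 426438) (nat_lit 18) (.e (nat_lit 98367) (nat_lit 27) (.e (nat_lit 434248) (nat_lit 28) (.e (nat_lit 573482) (nat_lit 13) (.e (nat_lit 65644) (nat_lit 22) (.e (nat_lit 245766) (nat_lit 0) .nil))))))) (.g (nat_lit 1) (.e (nat_lit 56241) (nat_lit 0) .nil) .nil))) 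
(.lf (nat_lit 461326) (.g (nat_lit 3135) (.e (nat_lit 2872) (nat_lit 184) (.e (nat_lit 426125) (nat_lit 2) (.e (nat_lit 196666) (nat_lit 13) (.e (nat_lit 65617) (nat_lit 10) .nil)))) (.g (nat_lit 0) (.e (nat_lit 57327) (nat_lit 0) .nil) .nil)))) (.nd (nat_lit 9) 
(.lf (nat_lit 461070) (.g (nat_lit 1011) (.e (nat_lit 2855) (nat_lit 184) (.e (nat_lit 426533) (nat_lit 28) (.e (nat_lit 344067) (nat_lit 0) (.e (nat_lit 2941) (nat_lit 184) (.e (nat_lit 426532) (nat_lit 28) (.e (nat_lit 344069) (nat_lit 0) .nil)))))) (.g (nat_lit 1) (.e (nat_lit 56740) (nat_lit 0) .nil) .nil))) 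
(.lf (nat_lit 461582) (.g (nat_lit 5422) (.e (nat_lit 2887) (nat_lit 184) (.e (nat_lit 426135) (nat_lit 3) (.e (nat_lit 204869) (nat_lit 29) (.e (nat_lit 360475) (nat_lit 8) (.e (nat_lit 557091) (nat_lit 12) (.e (nat_lit 164017) (nat_lit 44) (.e (nat_lit 688139) (nat_lit 5) .nil))))))) (.g (nat_lit 1) (.e (nat_lit 57941) (nat_lit 0) .nil) .nil))))) (.nd (nat_lit 8) (.nd (nat_lit 9) 
(.lf (nat_lit 460942) (.g (nat_lit 4950) (.e (nat_lit 2854) (nat_lit 184) (.e (nat_lit 426131) (nat_lit 3) (.e (nat_lit 204869) (nat_lit 29) (.e (nat_lit 360475) (nat_lit 8) (.e (nat_lit 557091) (nat_lit 12) .nil))))) (.g (nat_lit 0) (.e (nat_lit 56513) (nat_lit 0) .nil) .nil))) 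
(.lf (nat_lit 461454) (.g (nat_lit 2961) (.e (nat_lit 2878) (nat_lit 184) (.e (nat_lit 426125) (nat_lit 2) (.e (nat_lit 196666) (nat_lit 13) (.e (nat_lit 65617) (nat_lit 10) (.e (nat_lit 344133) (nat_lit 26) .nil))))) (.g (nat_lit 0) (.e (nat_lit 57691) (nat_lit 0) .nil) .nil)))) (.nd (nat_lit 9) 
(.lf (nat_lit 461198) (.g (nat_lit 2028) (.e (nat_lit 2856) (nat_lit 184) (.e (nat_lit 426566) (nat_lit 34) (.e (nat_lit 393294) (nat_lit 26) (.e (nat_lit 475177) (nat_lit 24) .nil)))) (.g (nat_lit 0) (.e (nat_lit 56906) (nat_lit 0) .nil) .nil))) 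
(.lf (nat_lit 461710) (.g (nat_lit 569) (.e (nat_lit 2887) (nat_lit 184) (.e (nat_lit 426499) (nat_lit 27) (.e (nat_lit 336231) (nat_lit 14) .nil))) (.g (nat_lit 0) (.e (nat_lit 58434) (nat_lit 0) .nil) .nil)))))) (.nd (nat_lit 7) (.nd (nat_lit 8) (.nd (nat_lit 9) 
(.lf (nat_lit 460878) (.g (nat_lit 2648) (.e (nat_lit 2848) (nat_lit 184) (.e (nat_lit 426566) (nat_lit 34) (.e (nat_lit 393271) (nat_lit 23) (.e (nat_lit 426436) (nat_lit 18) (.e (nat_lit 98334) (nat_lit 18) .nil))))) (.g (nat_lit 0) (.e (nat_lit 56376) (nat_lit 0) .nil) .nil))) 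
(.lf (nat_lit 461390) (.g (nat_lit 5035) (.e (nat_lit 2877) (nat_lit 184) (.e (nat_lit 426125) (nat_lit 2) (.e (nat_lit 196666) (nat_lit 13) (.e (nat_lit 65617) (nat_lit 10) (.e (nat_lit 344130) (nat_lit 26) (.e (nat_lit 557089) (nat_lit 12) (.e (nat_lit 164017) (nat_lit 44) (.e (nat_lit 688139) (nat_lit 5) .nil)))))))) (.g (nat_lit 1) (.e (nat_lit 57494) (nat_lit 0) .nil) .nil)))) 
(.nd (nat_lit 9) 
(.lf (nat_lit 461134) (.g (nat_lit 2128) (.e (nat_lit 2856) (nat_lit 184) (.e (nat_lit 426402) (nat_lit 15) (.e (nat_lit 1859) (nat_lit 124) (.e (nat_lit 557098) (nat_lit 13) (.e (nat_lit 172115) (nat_lit 10) (.e (nat_lit 434231) (nat_lit 23) (.e (nat_lit 532482) (nat_lit 0) (.e (nat_lit 6642) (nat_lit 357) .nil)))))))) (.g (nat_lit 1) (.e (nat_lit 56832) (nat_lit 0) .nil) .nil))) 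
(.lf (nat_lit 461646) (.g (nat_lit 1595) (.e (nat_lit 2887) (nat_lit 184) (.e (nat_lit 426212) (nat_lit 9) (.e (nat_lit 426528) (nat_lit 27) (.e (nat_lit 335894) (nat_lit 0) (.e (nat_lit 6724) (nat_lit 362) (.e (nat_lit 180268) (nat_lit 24) (.e (nat_lit 688139) (nat_lit 5) .nil))))))) (.g (nat_lit 1) (.e (nat_lit 58070) (nat_lit 0) .nil) .nil))))) (.nd (nat_lit 8) (.nd (nat_lit 9) 
(.lf (nat_lit 461006) (.g (nat_lit 1917) (.e (nat_lit 2854) (nat_lit 184) (.e (nat_lit 426555) (nat_lit 32) (.e (nat_lit 376837) (nat_lit 0) (.e (nat_lit 3632) (nat_lit 227) (.e (nat_lit 778323) (nat_lit 5) (.e (nat_lit 73782) (nat_lit 32) .nil)))))) (.g (nat_lit 1) (.e (nat_lit 56647) (nat_lit 0) .nil) .nil))) 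
(.lf (nat_lit 461518) (.g (nat_lit 3524) (.e (nat_lit 2887) (nat_lit 184) (.e (nat_lit 426113) (nat_lit 2) (.e (nat_lit 196666) (nat_lit 13) (.e (nat_lit 65610) (nat_lit 10) (.e (nat_lit 344129) (nat_lit 26) (.e (nat_lit 557090) (nat_lit 12) (.e (nat_lit 164016) (nat_lit 44) (.e (nat_lit 688138) (nat_lit 5) .nil)))))))) (.g (nat_lit 1) (.e (nat_lit 57876) (nat_lit 0) .nil) .nil)))) 
(.nd (nat_lit 9) 
(.lf (nat_lit 461262) (.g (nat_lit 4125) (.e (nat_lit 2859) (nat_lit 184) (.e (nat_lit 426436) (nat_lit 18) (.e (nat_lit 98335) (nat_lit 18) (.e (nat_lit 164325) (nat_lit 230) .nil)))) (.g (nat_lit 0) (.e (nat_lit 57033) (nat_lit 0) .nil) .nil))) 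
(.lf (nat_lit 461774) (.g (nat_lit 3886) (.e (nat_lit 2883) (nat_lit 184) (.e (nat_lit 426125) (nat_lit 2) (.e (nat_lit 196666) (nat_lit 13) (.e (nat_lit 65617) (nat_lit 10) (.e (nat_lit 344133) (nat_lit 26) (.e (nat_lit 557091) (nat_lit 12) (.e (nat_lit 164016) (nat_lit 44) (.e (nat_lit 688139) (nat_lit 5) .nil)))))))) (.g (nat_lit 1) (.e (nat_lit 58602) (nat_lit 0) .nil) .nil))))))) 
(.nd (nat_lit 6) (.nd (nat_lit 7) (.nd (nat_lit 8) (.nd (nat_lit 9) 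
(.lf (nat_lit 460846) (.g (nat_lit 3978) (.e (nat_lit 2845) (nat_lit 184) (.e (nat_lit 426566) (nat_lit 34) (.e (nat_lit 393253) (nat_lit 18) (.e (nat_lit 164327) (nat_lit 230) .nil)))) (.g (nat_lit 0) (.e (nat_lit 56301) (nat_lit 0) .nil) .nil))) 
(.lf (nat_lit 461358) (.g (nat_lit 3769) (.e (nat_lit 2876) (nat_lit 184) (.e (nat_lit 426125) (nat_lit 2) (.e (nat_lit 196666) (nat_lit 13) (.e (nat_lit 65617) (nat_lit 10) (.e (nat_lit 344127) (nat_lit 26) .nil))))) (.g (nat_lit 0) (.e (nat_lit 57413) (nat_lit 0) .nil) .nil)))) (.nd (nat_lit 9) 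
(.lf (nat_lit 461102) (.g (nat_lit 1851) (.e (nat_lit 2855) (nat_lit 184) (.e (nat_lit 426542) (nat_lit 29) (.e (nat_lit 352290) (nat_lit 20) (.e (nat_lit 2006) (nat_lit 138) (.e (nat_lit 671763) (nat_lit 5) (.e (nat_lit 73781) (nat_lit 32) .nil)))))) (.g (nat_lit 1) (.e (nat_lit 56792) (nat_lit 0) .nil) .nil))) 
(.lf (nat_lit 461614) (.g (nat_lit 3183) (.e (nat_lit 2887) (nat_lit 184) (.e (nat_lit 426170) (nat_lit 7) (.e (nat_lit 409649) (nat_lit 18) (.e (nat_lit 303140) (nat_lit 10) (.e (nat_lit 434275) (nat_lit 39) (.e (nat_lit 663580) (nat_lit 9) (.e (nat_lit 2416) (nat_lit 157) (.e (nat_lit 3459) (nat_lit 216) (.e (nat_lit 688139) (nat_lit 5) .nil))))))))) (.g (nat_lit 1) (.e (nat_lit 57982) (nat_lit 0) .nil) .nil))))) 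
(.nd (nat_lit 8) (.nd (nat_lit 9) 
(.lf (nat_lit 460974) (.g (nat_lit 1539) (.e (nat_lit 2854) (nat_lit 184) (.e (nat_lit 426482) (nat_lit 27) (.e (nat_lit 336193) (nat_lit 12) (.e (nat_lit 385093) (nat_lit 49) .nil)))) (.g (nat_lit 0) (.e (nat_lit 56611) (nat_lit 0) .nil) .nil))) 
(.lf (nat_lit 461486) (.g (nat_lit 2700) (.e (nat_lit 2878) (nat_lit 184) (.e (nat_lit 426317) (nat_lit 12) (.e (nat_lit 475185) (nat_lit 29) (.e (nat_lit 557107) (nat_lit 15) (.e (nat_lit 188440) (nat_lit 20) (.e (nat_lit 3271) (nat_lit 199) (.e (nat_lit 548898) (nat_lit 14) .nil))))))) (.g (nat_lit 1) (.e (nat_lit 57810) (nat_lit 0) .nil) .nil)))) (.nd (nat_lit 9) 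
(.lf (nat_lit 461230) (.g (nat_lit 755) (.e (nat_lit 2857) (nat_lit 184) (.e (nat_lit 426509) (nat_lit 27) (.e (nat_lit 336228) (nat_lit 14) (.e (nat_lit 401436) (nat_lit 9) (.e (nat_lit 426533) (nat_lit 28) .nil))))) (.g (nat_lit 0) (.e (nat_lit 56981) (nat_lit 0) .nil) .nil))) 
(.lf (nat_lit 461742) (.g (nat_lit 1684) (.e (nat_lit 2892) (nat_lit 184) (.e (nat_lit 426140) (nat_lit 3) (.e (nat_lit 204869) (nat_lit 29) (.e (nat_lit 360474) (nat_lit 8) .nil)))) (.g (nat_lit 0) (.e (nat_lit 58521) (nat_lit 0) .nil) .nil)))))) (.nd (nat_lit 7) (.nd (nat_lit 8) (.nd (nat_lit 9) 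
(.lf (nat_lit 460910) (.g (nat_lit 2148) (.e (nat_lit 2851) (nat_lit 184) (.e (nat_lit 426566) (nat_lit 34) (.e (nat_lit 393294) (nat_lit 26) (.e (nat_lit 475177) (nat_lit 24) .nil)))) (.g (nat_lit 0) (.e (nat_lit 56434) (nat_lit 0) .nil) .nil))) 
(.lf (nat_lit 461422) (.g (nat_lit 3018) (.e (nat_lit 2877) (nat_lit 184) (.e (nat_lit 426125) (nat_lit 2) (.e (nat_lit 196666) (nat_lit 13) (.e (nat_lit 65617) (nat_lit 10) (.e (nat_lit 344133) (nat_lit 26) (.e (nat_lit 557091) (nat_lit 12) (.e (nat_lit 164016) (nat_lit 44) (.e (nat_lit 696064) (nat_lit 5) .nil)))))))) (.g (nat_lit 1) (.e (nat_lit 57526) (nat_lit 0) .nil) .nil)))) 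
(.nd (nat_lit 9) 
(.lf (nat_lit 461166) (.g (nat_lit 3406) (.e (nat_lit 2856) (nat_lit 184) (.e (nat_lit 426530) (nat_lit 27) (.e (nat_lit 336235) (nat_lit 14) (.e (nat_lit 401437) (nat_lit 9) (.e (nat_lit 426533) (nat_lit 28) (.e (nat_lit 344069) (nat_lit 0) .nil)))))) (.g (nat_lit 1) (.e (nat_lit 56872) (nat_lit 0) .nil) .nil))) 
(.lf (nat_lit 461678) (.g (nat_lit 2952) (.e (nat_lit 2887) (nat_lit 184) (.e (nat_lit 426412) (nat_lit 15) (.e (nat_lit 1856) (nat_lit 124) (.e (nat_lit 557098) (nat_lit 13) (.e (nat_lit 172097) (nat_lit 9) (.e (nat_lit 426140) (nat_lit 3) (.e (nat_lit 204821) (nat_lit 17) (.e (nat_lit 7936) (nat_lit 357) .nil)))))))) (.g (nat_lit 1) (.e (nat_lit 58381) (nat_lit 0) .nil) .nil))))) 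
(.nd (nat_lit 8) (.nd (nat_lit 9) 
(.lf (nat_lit 461038) (.g (nat_lit 2842) (.e (nat_lit 2855) (nat_lit 184) (.e (nat_lit 426402) (nat_lit 15) (.e (nat_lit 1848) (nat_lit 124) (.e (nat_lit 557107) (nat_lit 15) (.e (nat_lit 188447) (nat_lit 22) (.e (nat_lit 196661) (nat_lit 12) (.e (nat_lit 57750) (nat_lit 201) .nil))))))) (.g (nat_lit 1) (.e (nat_lit 56708) (nat_lit 0) .nil) .nil))) 
(.lf (nat_lit 461550) (.g (nat_lit 1929) (.e (nat_lit 2887) (nat_lit 184) (.e (nat_lit 426132) (nat_lit 3) (.e (nat_lit 204855) (nat_lit 26) (.e (nat_lit 336176) (nat_lit 10) (.e (nat_lit 344132) (nat_lit 26) (.e (nat_lit 557094) (nat_lit 12) (.e (nat_lit 164016) (nat_lit 44) (.e (nat_lit 688139) (nat_lit 5) .nil)))))))) (.g (nat_lit 1) (.e (nat_lit 57908) (nat_lit 0) .nil) .nil)))) 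
(.nd (nat_lit 9) 
(.lf (nat_lit 461294) (.g (nat_lit 1410) (.e (nat_lit 2862) (nat_lit 184) (.e (nat_lit 426543) (nat_lit 29) (.e (nat_lit 352266) (nat_lit 0) (.e (nat_lit 3631) (nat_lit 227) (.e (nat_lit 778323) (nat_lit 5) (.e (nat_lit 81664) (nat_lit 32) .nil)))))) (.g (nat_lit 1) (.e (nat_lit 57141) (nat_lit 0) .nil) .nil))) 
(.lf (nat_lit 461806) (.g (nat_lit 4659) (.e (nat_lit 2884) (nat_lit 184) (.e (nat_lit 426140) (nat_lit 3) (.e (nat_lit 204869) (nat_lit 29) (.e (nat_lit 360472) (nat_lit 8) (.e (nat_lit 557090) (nat_lit 12) (.e (nat_lit 164020) (nat_lit 45) (.e (nat_lit 696328) (nat_lit 5) .nil))))))) (.g (nat_lit 1) (.e (nat_lit 58724) (nat_lit 0) .nil) .nil)))))))) 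
(.nd (nat_lit 5) (.nd (nat_lit 6) (.nd (nat_lit 7) (.nd (nat_lit 8) (.nd (nat_lit 9) 
(.lf (nat_lit 460830) (.g (nat_lit 4020) (.e (nat_lit 2845) (nat_lit 184) (.e (nat_lit 426436) (nat_lit 18) (.e (nat_lit 98335) (nat_lit 18) (.e (nat_lit 164332) (nat_lit 230) .nil)))) (.g (nat_lit 0) (.e (nat_lit 56274) (nat_lit 0) .nil) .nil))) 
(.lf (nat_lit 461342) (.g (nat_lit 2775) (.e (nat_lit 2873) (nat_lit 184) (.e (nat_lit 426140) (nat_lit 3) (.e (nat_lit 204869) (nat_lit 29) (.e (nat_lit 360475) (nat_lit 8) (.e (nat_lit 557091) (nat_lit 12) .nil))))) (.g (nat_lit 0) (.e (nat_lit 57363) (nat_lit 0) .nil) .nil)))) (.nd (nat_lit 9) 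
(.lf (nat_lit 461086) (.g (nat_lit 1622) (.e (nat_lit 2855) (nat_lit 184) (.e (nat_lit 426542) (nat_lit 29) (.e (nat_lit 352264) (nat_lit 0) (.e (nat_lit 3711) (nat_lit 227) (.e (nat_lit 778322) (nat_lit 5) (.e (nat_lit 73782) (nat_lit 32) .nil)))))) (.g (nat_lit 1) (.e (nat_lit 56776) (nat_lit 0) .nil) .nil))) 
(.lf (nat_lit 461598) (.g (nat_lit 4645) (.e (nat_lit 2887) (nat_lit 184) (.e (nat_lit 426140) (nat_lit 3) (.e (nat_lit 204855) (nat_lit 26) (.e (nat_lit 336176) (nat_lit 10) (.e (nat_lit 344133) (nat_lit 26) (.e (nat_lit 557091) (nat_lit 12) (.e (nat_lit 164017) (nat_lit 44) (.e (nat_lit 688138) (nat_lit 5) .nil)))))))) (.g (nat_lit 1) (.e (nat_lit 57957) (nat_lit 0) .nil) .nil))))) 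
(.nd (nat_lit 8) (.nd (nat_lit 9) 
(.lf (nat_lit 460958) (.g (nat_lit 4677) (.e (nat_lit 2854) (nat_lit 184) (.e (nat_lit 426436) (nat_lit 18) (.e (nat_lit 98335) (nat_lit 18) (.e (nat_lit 164326) (nat_lit 230) .nil)))) (.g (nat_lit 0) (.e (nat_lit 56580) (nat_lit 0) .nil) .nil))) 
(.lf (nat_lit 461470) (.g (nat_lit 3007) (.e (nat_lit 2878) (nat_lit 184) (.e (nat_lit 426140) (nat_lit 3) (.e (nat_lit 204869) (nat_lit 29) (.e (nat_lit 360473) (nat_lit 8) (.e (nat_lit 557090) (nat_lit 12) (.e (nat_lit 164020) (nat_lit 45) (.e (nat_lit 696330) (nat_lit 5) .nil))))))) (.g (nat_lit 1) (.e (nat_lit 57722) (nat_lit 0) .nil) .nil)))) (.nd (nat_lit 9) 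
(.lf (nat_lit 461214) (.g (nat_lit 2343) (.e (nat_lit 2857) (nat_lit 184) (.e (nat_lit 426482) (nat_lit 27) (.e (nat_lit 336198) (nat_lit 12) (.e (nat_lit 385093) (nat_lit 49) (.e (nat_lit 778323) (nat_lit 5) (.e (nat_lit 73782) (nat_lit 32) .nil)))))) (.g (nat_lit 1) (.e (nat_lit 56960) (nat_lit 0) .nil) .nil))) 
(.lf (nat_lit 461726) (.g (nat_lit 1684) (.e (nat_lit 2888) (nat_lit 184) (.e (nat_lit 426140) (nat_lit 3) (.e (nat_lit 204869) (nat_lit 29) (.e (nat_lit 360474) (nat_lit 8) .nil)))) (.g (nat_lit 0) (.e (nat_lit 58462) (nat_lit 0) .nil) .nil)))))) (.nd (nat_lit 7) (.nd (nat_lit 8) (.nd (nat_lit 9) 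
(.lf (nat_lit 460894) (.g (nat_lit 2041) (.e (nat_lit 2849) (nat_lit 184) (.e (nat_lit 426566) (nat_lit 34) (.e (nat_lit 393291) (nat_lit 26) (.e (nat_lit 475177) (nat_lit 24) (.e (nat_lit 516117) (nat_lit 1) .nil))))) (.g (nat_lit 0) (.e (nat_lit 56405) (nat_lit 0) .nil) .nil))) 
(.lf (nat_lit 461406) (.g (nat_lit 2504) (.e (nat_lit 2877) (nat_lit 184) (.e (nat_lit 426125) (nat_lit 2) (.e (nat_lit 196666) (nat_lit 13) (.e (nat_lit 65617) (nat_lit 10) (.e (nat_lit 344132) (nat_lit 26) (.e (nat_lit 557093) (nat_lit 12) (.e (nat_lit 164016) (nat_lit 44) (.e (nat_lit 688139) (nat_lit 5) .nil)))))))) (.g (nat_lit 1) (.e (nat_lit 57510) (nat_lit 0) .nil) .nil)))) 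
(.nd (nat_lit 9) 
(.lf (nat_lit 461150) (.g (nat_lit 3105) (.e (nat_lit 2856) (nat_lit 184) (.e (nat_lit 426482) (nat_lit 27) (.e (nat_lit 336205) (nat_lit 12) (.e (nat_lit 385093) (nat_lit 49) (.e (nat_lit 778324) (nat_lit 5) (.e (nat_lit 73781) (nat_lit 32) .nil)))))) (.g (nat_lit 1) (.e (nat_lit 56855) (nat_lit 0) .nil) .nil))) 
(.lf (nat_lit 461662) (.g (nat_lit 2403) (.e (nat_lit 2887) (nat_lit 184) (.e (nat_lit 426217) (nat_lit 9) (.e (nat_lit 426528) (nat_lit 27) (.e (nat_lit 336231) (nat_lit 14) (.e (nat_lit 401446) (nat_lit 10) (.e (nat_lit 434286) (nat_lit 42) (.e (nat_lit 688138) (nat_lit 5) .nil))))))) (.g (nat_lit 1) (.e (nat_lit 58086) (nat_lit 0) .nil) .nil))))) (.nd (nat_lit 8) (.nd (nat_lit 9) 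
(.lf (nat_lit 461022) (.g (nat_lit 2479) (.e (nat_lit 2854) (nat_lit 184) (.e (nat_lit 426566) (nat_lit 34) (.e (nat_lit 393271) (nat_lit 23) (.e (nat_lit 426131) (nat_lit 3) (.e (nat_lit 204830) (nat_lit 18) (.e (nat_lit 57665) (nat_lit 152) (.e (nat_lit 2466) (nat_lit 157) .nil))))))) (.g (nat_lit 1) (.e (nat_lit 56663) (nat_lit 0) .nil) .nil))) 
(.lf (nat_lit 461534) (.g (nat_lit 3243) (.e (nat_lit 2887) (nat_lit 184) (.e (nat_lit 426117) (nat_lit 2) (.e (nat_lit 196666) (nat_lit 13) (.e (nat_lit 65617) (nat_lit 10) (.e (nat_lit 344133) (nat_lit 26) (.e (nat_lit 557089) (nat_lit 12) (.e (nat_lit 164017) (nat_lit 44) (.e (nat_lit 688138) (nat_lit 5) .nil)))))))) (.g (nat_lit 1) (.e (nat_lit 57892) (nat_lit 0) .nil) .nil)))) 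
(.nd (nat_lit 9) 
(.lf (nat_lit 461278) (.g (nat_lit 2036) (.e (nat_lit 2862) (nat_lit 184) (.e (nat_lit 426436) (nat_lit 18) (.e (nat_lit 98386) (nat_lit 32) (.e (nat_lit 475176) (nat_lit 24) (.e (nat_lit 516146) (nat_lit 9) (.e (nat_lit 426428) (nat_lit 17) (.e (nat_lit 90130) (nat_lit 9) .nil))))))) (.g (nat_lit 1) (.e (nat_lit 57122) (nat_lit 0) .nil) .nil))) 
(.lf (nat_lit 461790) (.g (nat_lit 4953) (.e (nat_lit 2884) (nat_lit 184) (.e (nat_lit 426125) (nat_lit 2) (.e (nat_lit 196666) (nat_lit 13) (.e (nat_lit 65617) (nat_lit 10) (.e (nat_lit 344130) (nat_lit 26) (.e (nat_lit 557090) (nat_lit 12) (.e (nat_lit 164020) (nat_lit 45) (.e (nat_lit 696329) (nat_lit 5) .nil)))))))) (.g (nat_lit 1) (.e (nat_lit 58693) (nat_lit 0) .nil) .nil))))))) 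
(.nd (nat_lit 6) (.nd (nat_lit 7) (.nd (nat_lit 8) (.nd (nat_lit 9) 
(.lf (nat_lit 460862) (.g (nat_lit 1419) (.e (nat_lit 2846) (nat_lit 184) (.e (nat_lit 426566) (nat_lit 34) (.e (nat_lit 393271) (nat_lit 23) (.e (nat_lit 426436) (nat_lit 18) .nil)))) (.g (nat_lit 0) (.e (nat_lit 56332) (nat_lit 0) .nil) .nil))) 
(.lf (nat_lit 461374) (.g (nat_lit 3238) (.e (nat_lit 2877) (nat_lit 184) (.e (nat_lit 426125) (nat_lit 2) (.e (nat_lit 196666) (nat_lit 13) (.e (nat_lit 65610) (nat_lit 10) (.e (nat_lit 344129) (nat_lit 26) (.e (nat_lit 557090) (nat_lit 12) (.e (nat_lit 164016) (nat_lit 44) (.e (nat_lit 696064) (nat_lit 5) .nil)))))))) (.g (nat_lit 1) (.e (nat_lit 57478) (nat_lit 0) .nil) .nil)))) 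
(.nd (nat_lit 9) 
(.lf (nat_lit 461118) (.g (nat_lit 1725) (.e (nat_lit 2855) (nat_lit 184) (.e (nat_lit 426568) (nat_lit 34) (.e (nat_lit 393271) (nat_lit 23) (.e (nat_lit 426131) (nat_lit 3) .nil)))) (.g (nat_lit 0) (.e (nat_lit 56809) (nat_lit 0) .nil) .nil))) 
(.lf (nat_lit 461630) (.g (nat_lit 1964) (.e (nat_lit 2887) (nat_lit 184) (.e (nat_lit 426201) (nat_lit 9) (.e (nat_lit 426482) (nat_lit 27) (.e (nat_lit 336060) (nat_lit 7) (.e (nat_lit 319504) (nat_lit 10) (.e (nat_lit 7936) (nat_lit 315) (.e (nat_lit 164017) (nat_lit 44) (.e (nat_lit 688138) (nat_lit 5) .nil)))))))) (.g (nat_lit 1) (.e (nat_lit 58040) (nat_lit 0) .nil) .nil))))) 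
(.nd (nat_lit 8) (.nd (nat_lit 9) 
(.lf (nat_lit 460990) (.g (nat_lit 1989) (.e (nat_lit 2854) (nat_lit 184) (.e (nat_lit 426533) (nat_lit 28) (.e (nat_lit 344069) (nat_lit 0) (.e (nat_lit 3090) (nat_lit 191) (.e (nat_lit 483350) (nat_lit 17) (.e (nat_lit 6677) (nat_lit 357) .nil)))))) (.g (nat_lit 1) (.e (nat_lit 56630) (nat_lit 0) .nil) .nil))) 
(.lf (nat_lit 461502) (.g (nat_lit 2827) (.e (nat_lit 2879) (nat_lit 184) (.e (nat_lit 426140) (nat_lit 3) (.e (nat_lit 204869) (nat_lit 29) (.e (nat_lit 360475) (nat_lit 8) (.e (nat_lit 557091) (nat_lit 12) .nil))))) (.g (nat_lit 0) (.e (nat_lit 57843) (nat_lit 0) .nil) .nil)))) (.nd (nat_lit 9) 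
(.lf (nat_lit 461246) (.g (nat_lit 1757) (.e (nat_lit 2857) (nat_lit 184) (.e (nat_lit 426544) (nat_lit 30) (.e (nat_lit 360452) (nat_lit 0) (.e (nat_lit 5907) (nat_lit 320) (.e (nat_lit 1209) (nat_lit 89) .nil))))) (.g (nat_lit 0) (.e (nat_lit 57005) (nat_lit 0) .nil) .nil))) 
(.lf (nat_lit 461758) (.g (nat_lit 2721) (.e (nat_lit 2882) (nat_lit 184) (.e (nat_lit 426140) (nat_lit 3) (.e (nat_lit 204869) (nat_lit 29) (.e (nat_lit 360475) (nat_lit 8) (.e (nat_lit 557089) (nat_lit 12) .nil))))) (.g (nat_lit 0) (.e (nat_lit 58571) (nat_lit 0) .nil) .nil)))))) (.nd (nat_lit 7) (.nd (nat_lit 8) (.nd (nat_lit 9) 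
(.lf (nat_lit 460926) (.g (nat_lit 4114) (.e (nat_lit 2853) (nat_lit 184) (.e (nat_lit 426436) (nat_lit 18) (.e (nat_lit 98335) (nat_lit 18) (.e (nat_lit 164330) (nat_lit 230) .nil)))) (.g (nat_lit 0) (.e (nat_lit 56477) (nat_lit 0) .nil) .nil))) 
(.lf (nat_lit 461438) (.g (nat_lit 5366) (.e (nat_lit 2878) (nat_lit 184) (.e (nat_lit 426125) (nat_lit 2) (.e (nat_lit 196666) (nat_lit 13) (.e (nat_lit 65617) (nat_lit 10) (.e (nat_lit 344130) (nat_lit 26) (.e (nat_lit 557089) (nat_lit 12) (.e (nat_lit 164020) (nat_lit 45) (.e (nat_lit 696330) (nat_lit 5) .nil)))))))) (.g (nat_lit 1) (.e (nat_lit 57665) (nat_lit 0) .nil) .nil)))) 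
(.nd (nat_lit 9) 
(.lf (nat_lit 461182) (.g (nat_lit 1072) (.e (nat_lit 2856) (nat_lit 184) (.e (nat_lit 426540) (nat_lit 29) (.e (nat_lit 352307) (nat_lit 21) (.e (nat_lit 57873) (nat_lit 264) .nil)))) (.g (nat_lit 0) (.e (nat_lit 56888) (nat_lit 0) .nil) .nil))) 
(.lf (nat_lit 461694) (.g (nat_lit 3065) (.e (nat_lit 2887) (nat_lit 184) (.e (nat_lit 426412) (nat_lit 15) (.e (nat_lit 1856) (nat_lit 124) (.e (nat_lit 557101) (nat_lit 13) (.e (nat_lit 172115) (nat_lit 10) (.e (nat_lit 434231) (nat_lit 23) (.e (nat_lit 532482) (nat_lit 0) (.e (nat_lit 7936) (nat_lit 357) .nil)))))))) (.g (nat_lit 1) (.e (nat_lit 58397) (nat_lit 0) .nil) .nil))))) 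
(.nd (nat_lit 8) (.nd (nat_lit 9) 
(.lf (nat_lit 461054) (.g (nat_lit 3497) (.e (nat_lit 2855) (nat_lit 184) (.e (nat_lit 426402) (nat_lit 15) (.e (nat_lit 1859) (nat_lit 124) (.e (nat_lit 557109) (nat_lit 15) (.e (nat_lit 188449) (nat_lit 22) (.e (nat_lit 196661) (nat_lit 12) (.e (nat_lit 57750) (nat_lit 201) .nil))))))) (.g (nat_lit 1) (.e (nat_lit 56724) (nat_lit 0) .nil) .nil))) 
(.lf (nat_lit 461566) (.g (nat_lit 3009) (.e (nat_lit 2887) (nat_lit 184) (.e (nat_lit 426134) (nat_lit 3) (.e (nat_lit 204869) (nat_lit 29) (.e (nat_lit 360474) (nat_lit 8) (.e (nat_lit 557094) (nat_lit 12) (.e (nat_lit 164016) (nat_lit 44) (.e (nat_lit 688139) (nat_lit 5) .nil))))))) (.g (nat_lit 1) (.e (nat_lit 57924) (nat_lit 0) .nil) .nil)))) (.nd (nat_lit 9) 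
(.lf (nat_lit 461310) (.g (nat_lit 3161) (.e (nat_lit 2866) (nat_lit 184) (.e (nat_lit 426412) (nat_lit 15) (.e (nat_lit 1856) (nat_lit 124) (.e (nat_lit 557101) (nat_lit 13) (.e (nat_lit 172115) (nat_lit 10) (.e (nat_lit 434231) (nat_lit 23) (.e (nat_lit 532481) (nat_lit 0) (.e (nat_lit 6693) (nat_lit 357) .nil)))))))) (.g (nat_lit 1) (.e (nat_lit 57183) (nat_lit 0) .nil) .nil))) 
(.lf (nat_lit 461822) (.g (nat_lit 2999) (.e (nat_lit 2884) (nat_lit 184) (.e (nat_lit 426317) (nat_lit 12) (.e (nat_lit 475185) (nat_lit 29) (.e (nat_lit 557107) (nat_lit 15) (.e (nat_lit 188440) (nat_lit 20) (.e (nat_lit 3272) (nat_lit 199) (.e (nat_lit 548896) (nat_lit 14) .nil))))))) (.g (nat_lit 1) (.e (nat_lit 58768) (nat_lit 0) .nil) .nil)))))))))))) 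
(.nd (nat_lit 1) (.nd (nat_lit 2) (.nd (nat_lit 3) (.nd (nat_lit 4) (.nd (nat_lit 5) 
(.nd (nat_lit 6) (.nd (nat_lit 7) (.nd (nat_lit 8) (.nd (nat_lit 9) 
(.lf (nat_lit 460801) (.g (nat_lit 2721) (.e (nat_lit 2842) (nat_lit 184) (.e (nat_lit 426566) (nat_lit 34) (.e (nat_lit 393271) (nat_lit 23) (.e (nat_lit 426436) (nat_lit 18) (.e (nat_lit 98335) (nat_lit 18) .nil))))) (.g (nat_lit 0) (.e (nat_lit 56215) (nat_lit 0) .nil) .nil))) 
(.lf (nat_lit 461313) (.g (nat_lit 3092) (.e (nat_lit 2865) (nat_lit 184) (.e (nat_lit 426136) (nat_lit 3) (.e (nat_lit 204869) (nat_lit 29) (.e (nat_lit 360475) (nat_lit 8) (.e (nat_lit 557089) (nat_lit 12) (.e (nat_lit 164017) (nat_lit 44) (.e (nat_lit 688140) (nat_lit 5) .nil))))))) (.g (nat_lit 1) (.e (nat_lit 57186) (nat_lit 0) .nil) .nil)))) (.nd (nat_lit 9) 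
(.lf (nat_lit 461057) (.g (nat_lit 4810) (.e (nat_lit 2855) (nat_lit 184) (.e (nat_lit 426436) (nat_lit 18) (.e (nat_lit 98335) (nat_lit 18) (.e (nat_lit 164327) (nat_lit 230) .nil)))) (.g (nat_lit 0) (.e (nat_lit 56727) (nat_lit 0) .nil) .nil))) 
(.lf (nat_lit 461569) (.g (nat_lit 4511) (.e (nat_lit 2887) (nat_lit 184) (.e (nat_lit 426134) (nat_lit 3) (.e (nat_lit 204869) (nat_lit 29) (.e (nat_lit 360475) (nat_lit 8) (.e (nat_lit 557091) (nat_lit 12) (.e (nat_lit 164016) (nat_lit 44) (.e (nat_lit 688139) (nat_lit 5) .nil))))))) (.g (nat_lit 1) (.e (nat_lit 57927) (nat_lit 0) .nil) .nil))))) (.nd (nat_lit 8) (.nd (nat_lit 9) 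
(.lf (nat_lit 460929) (.g (nat_lit 1821) (.e (nat_lit 2853) (nat_lit 184) (.e (nat_lit 426436) (nat_lit 18) (.e (nat_lit 98384) (nat_lit 32) (.e (nat_lit 475177) (nat_lit 24) (.e (nat_lit 516146) (nat_lit 9) .nil))))) (.g (nat_lit 0) (.e (nat_lit 56481) (nat_lit 0) .nil) .nil))) 
(.lf (nat_lit 461441) (.g (nat_lit 5369) (.e (nat_lit 2878) (nat_lit 184) (.e (nat_lit 426125) (nat_lit 2) (.e (nat_lit 196666) (nat_lit 13) (.e (nat_lit 65617) (nat_lit 10) (.e (nat_lit 344130) (nat_lit 26) (.e (nat_lit 557090) (nat_lit 12) (.e (nat_lit 164018) (nat_lit 45) (.e (nat_lit 696330) (nat_lit 5) .nil)))))))) (.g (nat_lit 1) (.e (nat_lit 57674) (nat_lit 0) .nil) .nil)))) 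
(.nd (nat_lit 9) 
(.lf (nat_lit 461185) (.g (nat_lit 2934) (.e (nat_lit 2856) (nat_lit 184) (.e (nat_lit 426542) (nat_lit 29) (.e (nat_lit 352266) (nat_lit 0) (.e (nat_lit 3631) (nat_lit 227) (.e (nat_lit 778323) (nat_lit 5) (.e (nat_lit 73782) (nat_lit 32) .nil)))))) (.g (nat_lit 1) (.e (nat_lit 56891) (nat_lit 0) .nil) .nil))) 
(.lf (nat_lit 461697) (.g (nat_lit 4647) (.e (nat_lit 2887) (nat_lit 184) (.e (nat_lit 426412) (nat_lit 15) (.e (nat_lit 1856) (nat_lit 124) (.e (nat_lit 557107) (nat_lit 15) (.e (nat_lit 188450) (nat_lit 23) (.e (nat_lit 204817) (nat_lit 17) (.e (nat_lit 7936) (nat_lit 357) .nil))))))) (.g (nat_lit 1) (.e (nat_lit 58400) (nat_lit 0) .nil) .nil)))))) 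
(.nd (nat_lit 7) (.nd (nat_lit 8) (.nd (nat_lit 9) 
(.lf (nat_lit 460865) (.g (nat_lit 4114) (.e (nat_lit 2847) (nat_lit 184) (.e (nat_lit 426436) (nat_lit 18) (.e (nat_lit 98335) (nat_lit 18) (.e (nat_lit 164330) (nat_lit 230) .nil)))) (.g (nat_lit 0) (.e (nat_lit 56340) (nat_lit 0) .nil) .nil))) 
(.lf (nat_lit 461377) (.g (nat_lit 4827) (.e (nat_lit 2877) (nat_lit 184) (.e (nat_lit 426125) (nat_lit 2) (.e (nat_lit 196666) (nat_lit 13) (.e (nat_lit 65610) (nat_lit 10) (.e (nat_lit 344129) (nat_lit 26) (.e (nat_lit 557090) (nat_lit 12) (.e (nat_lit 164017) (nat_lit 44) (.e (nat_lit 688140) (nat_lit 5) .nil)))))))) (.g (nat_lit 1) (.e (nat_lit 57481) (nat_lit 0) .nil) .nil)))) 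
(.nd (nat_lit 9) 
(.lf (nat_lit 461121) (.g (nat_lit 4211) (.e (nat_lit 2856) (nat_lit 184) (.e (nat_lit 426364) (nat_lit 15) (.e (nat_lit 1858) (nat_lit 124) (.e (nat_lit 557100) (nat_lit 13) (.e (nat_lit 172106) (nat_lit 10) (.e (nat_lit 434231) (nat_lit 23) (.e (nat_lit 532490) (nat_lit 0) (.e (nat_lit 6680) (nat_lit 357) .nil)))))))) (.g (nat_lit 1) (.e (nat_lit 56818) (nat_lit 0) .nil) .nil))) 
(.lf (nat_lit 461633) (.g (nat_lit 1532) (.e (nat_lit 2887) (nat_lit 184) (.e (nat_lit 426208) (nat_lit 9) (.e (nat_lit 426528) (nat_lit 27) (.e (nat_lit 335894) (nat_lit 0) (.e (nat_lit 6722) (nat_lit 362) (.e (nat_lit 180268) (nat_lit 24) (.e (nat_lit 688139) (nat_lit 5) .nil))))))) (.g (nat_lit 1) (.e (nat_lit 58044) (nat_lit 0) .nil) .nil))))) (.nd (nat_lit 8) (.nd (nat_lit 9) 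
(.lf (nat_lit 460993) (.g (nat_lit 2308) (.e (nat_lit 2854) (nat_lit 184) (.e (nat_lit 426540) (nat_lit 29) (.e (nat_lit 352262) (nat_lit 0) (.e (nat_lit 3631) (nat_lit 227) (.e (nat_lit 778323) (nat_lit 5) (.e (nat_lit 73781) (nat_lit 32) .nil)))))) (.g (nat_lit 1) (.e (nat_lit 56634) (nat_lit 0) .nil) .nil))) 
(.lf (nat_lit 461505) (.g (nat_lit 2919) (.e (nat_lit 2886) (nat_lit 184) (.e (nat_lit 426125) (nat_lit 2) (.e (nat_lit 196666) (nat_lit 13) (.e (nat_lit 65610) (nat_lit 10) (.e (nat_lit 344129) (nat_lit 26) .nil))))) (.g (nat_lit 0) (.e (nat_lit 57851) (nat_lit 0) .nil) .nil)))) (.nd (nat_lit 9) 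
(.lf (nat_lit 461249) (.g (nat_lit 2360) (.e (nat_lit 2857) (nat_lit 184) (.e (nat_lit 426555) (nat_lit 32) (.e (nat_lit 376857) (nat_lit 21) (.e (nat_lit 57873) (nat_lit 264) (.e (nat_lit 1210) (nat_lit 89) .nil))))) (.g (nat_lit 0) (.e (nat_lit 57010) (nat_lit 0) .nil) .nil))) 
(.lf (nat_lit 461761) (.g (nat_lit 1963) (.e (nat_lit 2882) (nat_lit 184) (.e (nat_lit 426317) (nat_lit 12) (.e (nat_lit 475185) (nat_lit 29) (.e (nat_lit 557103) (nat_lit 14) (.e (nat_lit 180277) (nat_lit 32) .nil))))) (.g (nat_lit 0) (.e (nat_lit 58577) (nat_lit 0) .nil) .nil))))))) (.nd (nat_lit 6) (.nd (nat_lit 7) (.nd (nat_lit 8) (.nd (nat_lit 9) 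
(.lf (nat_lit 460833) (.g (nat_lit 2028) (.e (nat_lit 2845) (nat_lit 184) (.e (nat_lit 426436) (nat_lit 18) (.e (nat_lit 98358) (nat_lit 26) (.e (nat_lit 426438) (nat_lit 18) (.e (nat_lit 98384) (nat_lit 32) .nil))))) (.g (nat_lit 0) (.e (nat_lit 56277) (nat_lit 0) .nil) .nil))) 
(.lf (nat_lit 461345) (.g (nat_lit 1087) (.e (nat_lit 2873) (nat_lit 184) (.e (nat_lit 426340) (nat_lit 14) (.e (nat_lit 491537) (nat_lit 2) (.e (nat_lit 90170) (nat_lit 13) .nil)))) (.g (nat_lit 0) (.e (nat_lit 57374) (nat_lit 0) .nil) .nil)))) (.nd (nat_lit 9) 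
(.lf (nat_lit 461089) (.g (nat_lit 1636) (.e (nat_lit 2855) (nat_lit 184) (.e (nat_lit 426542) (nat_lit 29) (.e (nat_lit 352264) (nat_lit 0) (.e (nat_lit 3715) (nat_lit 227) (.e (nat_lit 778322) (nat_lit 5) (.e (nat_lit 73782) (nat_lit 32) .nil)))))) (.g (nat_lit 1) (.e (nat_lit 56779) (nat_lit 0) .nil) .nil))) 
(.lf (nat_lit 461601) (.g (nat_lit 4818) (.e (nat_lit 2887) (nat_lit 184) (.e (nat_lit 426140) (nat_lit 3) (.e (nat_lit 204868) (nat_lit 29) (.e (nat_lit 360475) (nat_lit 8) (.e (nat_lit 557089) (nat_lit 12) (.e (nat_lit 164017) (nat_lit 44) (.e (nat_lit 688138) (nat_lit 5) .nil))))))) (.g (nat_lit 1) (.e (nat_lit 57960) (nat_lit 0) .nil) .nil))))) (.nd (nat_lit 8) (.nd (nat_lit 9) 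
(.lf (nat_lit 460961) (.g (nat_lit 4097) (.e (nat_lit 2854) (nat_lit 184) (.e (nat_lit 426436) (nat_lit 18) (.e (nat_lit 98335) (nat_lit 18) (.e (nat_lit 164330) (nat_lit 230) .nil)))) (.g (nat_lit 0) (.e (nat_lit 56583) (nat_lit 0) .nil) .nil))) 
(.lf (nat_lit 461473) (.g (nat_lit 4160) (.e (nat_lit 2878) (nat_lit 184) (.e (nat_lit 426140) (nat_lit 3) (.e (nat_lit 204869) (nat_lit 29) (.e (nat_lit 360474) (nat_lit 8) (.e (nat_lit 557091) (nat_lit 12) (.e (nat_lit 164020) (nat_lit 45) (.e (nat_lit 696330) (nat_lit 5) .nil))))))) (.g (nat_lit 1) (.e (nat_lit 57725) (nat_lit 0) .nil) .nil)))) (.nd (nat_lit 9) 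
(.lf (nat_lit 461217) (.g (nat_lit 2994) (.e (nat_lit 2857) (nat_lit 184) (.e (nat_lit 426482) (nat_lit 27) (.e (nat_lit 336205) (nat_lit 12) (.e (nat_lit 385093) (nat_lit 49) (.e (nat_lit 778324) (nat_lit 5) (.e (nat_lit 73781) (nat_lit 32) .nil)))))) (.g (nat_lit 1) (.e (nat_lit 56963) (nat_lit 0) .nil) .nil))) 
(.lf (nat_lit 461729) (.g (nat_lit 4168) (.e (nat_lit 2888) (nat_lit 184) (.e (nat_lit 426211) (nat_lit 9) (.e (nat_lit 426125) (nat_lit 2) (.e (nat_lit 196630) (nat_lit 9) (.e (nat_lit 1401) (nat_lit 106) .nil))))) (.g (nat_lit 0) (.e (nat_lit 58465) (nat_lit 0) .nil) .nil)))))) (.nd (nat_lit 7) (.nd (nat_lit 8) (.nd (nat_lit 9) 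
(.lf (nat_lit 460897) (.g (nat_lit 4155) (.e (nat_lit 2851) (nat_lit 184) (.e (nat_lit 426436) (nat_lit 18) (.e (nat_lit 98335) (nat_lit 18) (.e (nat_lit 164325) (nat_lit 230) .nil)))) (.g (nat_lit 0) (.e (nat_lit 56413) (nat_lit 0) .nil) .nil))) 
(.lf (nat_lit 461409) (.g (nat_lit 4090) (.e (nat_lit 2877) (nat_lit 184) (.e (nat_lit 426125) (nat_lit 2) (.e (nat_lit 196666) (nat_lit 13) (.e (nat_lit 65617) (nat_lit 10) (.e (nat_lit 344132) (nat_lit 26) (.e (nat_lit 557094) (nat_lit 12) (.e (nat_lit 164016) (nat_lit 44) (.e (nat_lit 688139) (nat_lit 5) .nil)))))))) (.g (nat_lit 1) (.e (nat_lit 57513) (nat_lit 0) .nil) .nil)))) 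
(.nd (nat_lit 9) 
(.lf (nat_lit 461153) (.g (nat_lit 4203) (.e (nat_lit 2856) (nat_lit 184) (.e (nat_lit 426509) (nat_lit 27) (.e (nat_lit 336193) (nat_lit 12) (.e (nat_lit 385093) (nat_lit 49) (.e (nat_lit 778323) (nat_lit 5) (.e (nat_lit 73782) (nat_lit 32) .nil)))))) (.g (nat_lit 1) (.e (nat_lit 56859) (nat_lit 0) .nil) .nil))) 
(.lf (nat_lit 461665) (.g (nat_lit 1809) (.e (nat_lit 2887) (nat_lit 184) (.e (nat_lit 426305) (nat_lit 12) (.e (nat_lit 475198) (nat_lit 40) (.e (nat_lit 704599) (nat_lit 6) .nil)))) (.g (nat_lit 0) (.e (nat_lit 58258) (nat_lit 0) .nil) .nil))))) (.nd (nat_lit 8) (.nd (nat_lit 9) 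
(.lf (nat_lit 461025) (.g (nat_lit 810) (.e (nat_lit 2854) (nat_lit 184) (.e (nat_lit 426566) (nat_lit 34) (.e (nat_lit 393272) (nat_lit 23) .nil))) (.g (nat_lit 0) (.e (nat_lit 56666) (nat_lit 0) .nil) .nil))) 
(.lf (nat_lit 461537) (.g (nat_lit 2812) (.e (nat_lit 2887) (nat_lit 184) (.e (nat_lit 426118) (nat_lit 2) (.e (nat_lit 196666) (nat_lit 13) (.e (nat_lit 65617) (nat_lit 10) (.e (nat_lit 344130) (nat_lit 26) (.e (nat_lit 557090) (nat_lit 12) (.e (nat_lit 164017) (nat_lit 44) (.e (nat_lit 688138) (nat_lit 5) .nil)))))))) (.g (nat_lit 1) (.e (nat_lit 57895) (nat_lit 0) .nil) .nil)))) 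
(.nd (nat_lit 9) 
(.lf (nat_lit 461281) (.g (nat_lit 2103) (.e (nat_lit 2862) (nat_lit 184) (.e (nat_lit 426438) (nat_lit 18) (.e (nat_lit 98367) (nat_lit 27) (.e (nat_lit 434248) (nat_lit 28) (.e (nat_lit 573482) (nat_lit 13) .nil))))) (.g (nat_lit 0) (.e (nat_lit 57125) (nat_lit 0) .nil) .nil))) 
(.lf (nat_lit 461793) (.g (nat_lit 4798) (.e (nat_lit 2884) (nat_lit 184) (.e (nat_lit 426125) (nat_lit 2) (.e (nat_lit 196666) (nat_lit 13) (.e (nat_lit 65617) (nat_lit 10) (.e (nat_lit 344133) (nat_lit 26) (.e (nat_lit 557090) (nat_lit 12) (.e (nat_lit 164020) (nat_lit 45) (.e (nat_lit 696328) (nat_lit 5) .nil)))))))) (.g (nat_lit 1) (.e (nat_lit 58699) (nat_lit 0) .nil) .nil)))))))) 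
(.nd (nat_lit 5) (.nd (nat_lit 6) (.nd (nat_lit 7) (.nd (nat_lit 8) (.nd (nat_lit 9) 
(.lf (nat_lit 460817) (.g (nat_lit 2158) (.e (nat_lit 2844) (nat_lit 184) (.e (nat_lit 426568) (nat_lit 34) (.e (nat_lit 393271) (nat_lit 23) (.e (nat_lit 426131) (nat_lit 3) (.e (nat_lit 204830) (nat_lit 18) (.e (nat_lit 57661) (nat_lit 152) (.e (nat_lit 2461) (nat_lit 157) .nil))))))) (.g (nat_lit 1) (.e (nat_lit 56254) (nat_lit 0) .nil) .nil))) 
(.lf (nat_lit 461329) (.g (nat_lit 4292) (.e (nat_lit 2872) (nat_lit 184) (.e (nat_lit 426211) (nat_lit 9) (.e (nat_lit 426125) (nat_lit 2) (.e (nat_lit 196630) (nat_lit 9) (.e (nat_lit 1393) (nat_lit 106) .nil))))) (.g (nat_lit 0) (.e (nat_lit 57347) (nat_lit 0) .nil) .nil)))) (.nd (nat_lit 9) 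
(.lf (nat_lit 461073) (.g (nat_lit 2361) (.e (nat_lit 2855) (nat_lit 184) (.e (nat_lit 426533) (nat_lit 28) (.e (nat_lit 344068) (nat_lit 0) (.e (nat_lit 3090) (nat_lit 191) (.e (nat_lit 483350) (nat_lit 17) (.e (nat_lit 6677) (nat_lit 357) .nil)))))) (.g (nat_lit 1) (.e (nat_lit 56748) (nat_lit 0) .nil) .nil))) 
(.lf (nat_lit 461585) (.g (nat_lit 2521) (.e (nat_lit 2887) (nat_lit 184) (.e (nat_lit 426136) (nat_lit 3) (.e (nat_lit 204868) (nat_lit 29) (.e (nat_lit 360475) (nat_lit 8) (.e (nat_lit 557091) (nat_lit 12) .nil))))) (.g (nat_lit 0) (.e (nat_lit 57944) (nat_lit 0) .nil) .nil))))) (.nd (nat_lit 8) (.nd (nat_lit 9) 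
(.lf (nat_lit 460945) (.g (nat_lit 1137) (.e (nat_lit 2854) (nat_lit 184) (.e (nat_lit 426320) (nat_lit 12) (.e (nat_lit 475198) (nat_lit 40) (.e (nat_lit 704598) (nat_lit 6) .nil)))) (.g (nat_lit 0) (.e (nat_lit 56536) (nat_lit 0) .nil) .nil))) 
(.lf (nat_lit 461457) (.g (nat_lit 4044) (.e (nat_lit 2878) (nat_lit 184) (.e (nat_lit 426125) (nat_lit 2) (.e (nat_lit 196666) (nat_lit 13) (.e (nat_lit 65617) (nat_lit 10) (.e (nat_lit 344133) (nat_lit 26) (.e (nat_lit 557090) (nat_lit 12) (.e (nat_lit 164020) (nat_lit 45) (.e (nat_lit 696329) (nat_lit 5) .nil)))))))) (.g (nat_lit 1) (.e (nat_lit 57695) (nat_lit 0) .nil) .nil)))) 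
(.nd (nat_lit 9) 
(.lf (nat_lit 461201) (.g (nat_lit 3739) (.e (nat_lit 2857) (nat_lit 184) (.e (nat_lit 426364) (nat_lit 15) (.e (nat_lit 1858) (nat_lit 124) (.e (nat_lit 557100) (nat_lit 13) (.e (nat_lit 172106) (nat_lit 10) (.e (nat_lit 434231) (nat_lit 23) (.e (nat_lit 532490) (nat_lit 0) (.e (nat_lit 6680) (nat_lit 357) .nil)))))))) (.g (nat_lit 1) (.e (nat_lit 56915) (nat_lit 0) .nil) .nil))) 
(.lf (nat_lit 461713) (.g (nat_lit 2974) (.e (nat_lit 2887) (nat_lit 184) (.e (nat_lit 426499) (nat_lit 27) (.e (nat_lit 336231) (nat_lit 14) (.e (nat_lit 401434) (nat_lit 9) (.e (nat_lit 433920) (nat_lit 25) .nil))))) (.g (nat_lit 0) (.e (nat_lit 58437) (nat_lit 0) .nil) .nil)))))) (.nd (nat_lit 7) (.nd (nat_lit 8) (.nd (nat_lit 9) 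
(.lf (nat_lit 460881) (.g (nat_lit 853) (.e (nat_lit 2848) (nat_lit 184) (.e (nat_lit 426568) (nat_lit 34) (.e (nat_lit 393271) (nat_lit 23) .nil))) (.g (nat_lit 0) (.e (nat_lit 56379) (nat_lit 0) .nil) .nil))) 
(.lf (nat_lit 461393) (.g (nat_lit 2538) (.e (nat_lit 2877) (nat_lit 184) (.e (nat_lit 426125) (nat_lit 2) (.e (nat_lit 196666) (nat_lit 13) (.e (nat_lit 65617) (nat_lit 10) (.e (nat_lit 344130) (nat_lit 26) (.e (nat_lit 557089) (nat_lit 12) (.e (nat_lit 164017) (nat_lit 44) (.e (nat_lit 696064) (nat_lit 5) .nil)))))))) (.g (nat_lit 1) (.e (nat_lit 57497) (nat_lit 0) .nil) .nil)))) 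
(.nd (nat_lit 9) 
(.lf (nat_lit 461137) (.g (nat_lit 4177) (.e (nat_lit 2856) (nat_lit 184) (.e (nat_lit 426436) (nat_lit 18) (.e (nat_lit 98335) (nat_lit 18) (.e (nat_lit 164324) (nat_lit 230) .nil)))) (.g (nat_lit 0) (.e (nat_lit 56835) (nat_lit 0) .nil) .nil))) 
(.lf (nat_lit 461649) (.g (nat_lit 2225) (.e (nat_lit 2887) (nat_lit 184) (.e (nat_lit 426212) (nat_lit 9) (.e (nat_lit 426528) (nat_lit 27) (.e (nat_lit 336231) (nat_lit 14) (.e (nat_lit 401448) (nat_lit 10) (.e (nat_lit 434286) (nat_lit 42) (.e (nat_lit 688139) (nat_lit 5) .nil))))))) (.g (nat_lit 1) (.e (nat_lit 58073) (nat_lit 0) .nil) .nil))))) (.nd (nat_lit 8) (.nd (nat_lit 9) 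
(.lf (nat_lit 461009) (.g (nat_lit 1887) (.e (nat_lit 2854) (nat_lit 184) (.e (nat_lit 426555) (nat_lit 32) (.e (nat_lit 376859) (nat_lit 21) (.e (nat_lit 57871) (nat_lit 264) (.e (nat_lit 1209) (nat_lit 89) .nil))))) (.g (nat_lit 0) (.e (nat_lit 56650) (nat_lit 0) .nil) .nil))) 
(.lf (nat_lit 461521) (.g (nat_lit 2011) (.e (nat_lit 2887) (nat_lit 184) (.e (nat_lit 426113) (nat_lit 2) (.e (nat_lit 196666) (nat_lit 13) (.e (nat_lit 65617) (nat_lit 10) (.e (nat_lit 344127) (nat_lit 26) (.e (nat_lit 557089) (nat_lit 12) (.e (nat_lit 164017) (nat_lit 44) (.e (nat_lit 688138) (nat_lit 5) .nil)))))))) (.g (nat_lit 1) (.e (nat_lit 57879) (nat_lit 0) .nil) .nil)))) 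
(.nd (nat_lit 9) 
(.lf (nat_lit 461265) (.g (nat_lit 4102) (.e (nat_lit 2859) (nat_lit 184) (.e (nat_lit 426436) (nat_lit 18) (.e (nat_lit 98335) (nat_lit 18) (.e (nat_lit 164332) (nat_lit 230) .nil)))) (.g (nat_lit 0) (.e (nat_lit 57040) (nat_lit 0) .nil) .nil))) 
(.lf (nat_lit 461777) (.g (nat_lit 2876) (.e (nat_lit 2884) (nat_lit 184) (.e (nat_lit 426032) (nat_lit 0) (.e (nat_lit 3262) (nat_lit 198) (.e (nat_lit 540706) (nat_lit 12) (.e (nat_lit 360475) (nat_lit 8) (.e (nat_lit 557090) (nat_lit 12) (.e (nat_lit 164020) (nat_lit 45) (.e (nat_lit 696328) (nat_lit 5) .nil)))))))) (.g (nat_lit 1) (.e (nat_lit 58655) (nat_lit 0) .nil) .nil))))))) 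
(.nd (nat_lit 6) (.nd (nat_lit 7) (.nd (nat_lit 8) (.nd (nat_lit 9) 
(.lf (nat_lit 460849) (.g (nat_lit 3053) (.e (nat_lit 2845) (nat_lit 184) (.e (nat_lit 426566) (nat_lit 34) (.e (nat_lit 393271) (nat_lit 23) (.e (nat_lit 426131) (nat_lit 3) (.e (nat_lit 204830) (nat_lit 18) (.e (nat_lit 57663) (nat_lit 152) (.e (nat_lit 2466) (nat_lit 157) .nil))))))) (.g (nat_lit 1) (.e (nat_lit 56304) (nat_lit 0) .nil) .nil))) 
(.lf (nat_lit 461361) (.g (nat_lit 3918) (.e (nat_lit 2876) (nat_lit 184) (.e (nat_lit 426125) (nat_lit 2) (.e (nat_lit 196666) (nat_lit 13) (.e (nat_lit 65617) (nat_lit 10) (.e (nat_lit 344133) (nat_lit 26) .nil))))) (.g (nat_lit 0) (.e (nat_lit 57417) (nat_lit 0) .nil) .nil)))) (.nd (nat_lit 9) 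
(.lf (nat_lit 461105) (.g (nat_lit 1692) (.e (nat_lit 2855) (nat_lit 184) (.e (nat_lit 426542) (nat_lit 29) (.e (nat_lit 352297) (nat_lit 20) (.e (nat_lit 2005) (nat_lit 138) (.e (nat_lit 671763) (nat_lit 5) (.e (nat_lit 73781) (nat_lit 32) .nil)))))) (.g (nat_lit 1) (.e (nat_lit 56795) (nat_lit 0) .nil) .nil))) 
(.lf (nat_lit 461617) (.g (nat_lit 3631) (.e (nat_lit 2887) (nat_lit 184) (.e (nat_lit 426173) (nat_lit 7) (.e (nat_lit 409648) (nat_lit 18) (.e (nat_lit 303137) (nat_lit 10) (.e (nat_lit 434275) (nat_lit 39) (.e (nat_lit 663580) (nat_lit 9) (.e (nat_lit 2416) (nat_lit 157) (.e (nat_lit 3459) (nat_lit 216) (.e (nat_lit 688139) (nat_lit 5) .nil))))))))) (.g (nat_lit 1) (.e (nat_lit 57990) (nat_lit 0) .nil) .nil))))) 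
(.nd (nat_lit 8) (.nd (nat_lit 9) 
(.lf (nat_lit 460977) (.g (nat_lit 2694) (.e (nat_lit 2854) (nat_lit 184) (.e (nat_lit 426482) (nat_lit 27) (.e (nat_lit 336205) (nat_lit 12) (.e (nat_lit 385093) (nat_lit 49) (.e (nat_lit 778323) (nat_lit 5) (.e (nat_lit 73781) (nat_lit 32) .nil)))))) (.g (nat_lit 1) (.e (nat_lit 56614) (nat_lit 0) .nil) .nil))) 
(.lf (nat_lit 461489) (.g (nat_lit 2928) (.e (nat_lit 2878) (nat_lit 184) (.e (nat_lit 426317) (nat_lit 12) (.e (nat_lit 475185) (nat_lit 29) (.e (nat_lit 557109) (nat_lit 15) (.e (nat_lit 188441) (nat_lit 20) .nil))))) (.g (nat_lit 0) (.e (nat_lit 57813) (nat_lit 0) .nil) .nil)))) (.nd (nat_lit 9) 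
(.lf (nat_lit 461233) (.g (nat_lit 3097) (.e (nat_lit 2857) (nat_lit 184) (.e (nat_lit 426530) (nat_lit 27) (.e (nat_lit 336235) (nat_lit 14) (.e (nat_lit 401437) (nat_lit 9) (.e (nat_lit 426533) (nat_lit 28) (.e (nat_lit 344068) (nat_lit 0) .nil)))))) (.g (nat_lit 1) (.e (nat_lit 56985) (nat_lit 0) .nil) .nil))) 
(.lf (nat_lit 461745) (.g (nat_lit 2845) (.e (nat_lit 2894) (nat_lit 184) (.e (nat_lit 426125) (nat_lit 2) (.e (nat_lit 196666) (nat_lit 13) (.e (nat_lit 65617) (nat_lit 10) .nil)))) (.g (nat_lit 0) (.e (nat_lit 58540) (nat_lit 0) .nil) .nil)))))) (.nd (nat_lit 7) (.nd (nat_lit 8) (.nd (nat_lit 9) 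
(.lf (nat_lit 460913) (.g (nat_lit 1634) (.e (nat_lit 2852) (nat_lit 184) (.e (nat_lit 426438) (nat_lit 18) (.e (nat_lit 98367) (nat_lit 27) (.e (nat_lit 434245) (nat_lit 28) .nil)))) (.g (nat_lit 0) (.e (nat_lit 56441) (nat_lit 0) .nil) .nil))) 
(.lf (nat_lit 461425) (.g (nat_lit 4670) (.e (nat_lit 2877) (nat_lit 184) (.e (nat_lit 426125) (nat_lit 2) (.e (nat_lit 196666) (nat_lit 13) (.e (nat_lit 65617) (nat_lit 10) (.e (nat_lit 344133) (nat_lit 26) (.e (nat_lit 557091) (nat_lit 12) (.e (nat_lit 164017) (nat_lit 44) (.e (nat_lit 688140) (nat_lit 5) .nil)))))))) (.g (nat_lit 1) (.e (nat_lit 57529) (nat_lit 0) .nil) .nil)))) 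
(.nd (nat_lit 9) 
(.lf (nat_lit 461169) (.g (nat_lit 2567) (.e (nat_lit 2856) (nat_lit 184) (.e (nat_lit 426533) (nat_lit 28) (.e (nat_lit 344068) (nat_lit 0) (.e (nat_lit 2854) (nat_lit 184) (.e (nat_lit 426533) (nat_lit 28) (.e (nat_lit 344068) (nat_lit 0) .nil)))))) (.g (nat_lit 1) (.e (nat_lit 56875) (nat_lit 0) .nil) .nil))) 
(.lf (nat_lit 461681) (.g (nat_lit 4071) (.e (nat_lit 2887) (nat_lit 184) (.e (nat_lit 426412) (nat_lit 15) (.e (nat_lit 1856) (nat_lit 124) (.e (nat_lit 557100) (nat_lit 13) (.e (nat_lit 172106) (nat_lit 10) (.e (nat_lit 434231) (nat_lit 23) (.e (nat_lit 532482) (nat_lit 0) (.e (nat_lit 7936) (nat_lit 357) .nil)))))))) (.g (nat_lit 1) (.e (nat_lit 58384) (nat_lit 0) .nil) .nil))))) 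
(.nd (nat_lit 8) (.nd (nat_lit 9) 
(.lf (nat_lit 461041) (.g (nat_lit 3962) (.e (nat_lit 2855) (nat_lit 184) (.e (nat_lit 426402) (nat_lit 15) (.e (nat_lit 1849) (nat_lit 124) (.e (nat_lit 557097) (nat_lit 13) (.e (nat_lit 172115) (nat_lit 10) (.e (nat_lit 434231) (nat_lit 23) (.e (nat_lit 532490) (nat_lit 0) (.e (nat_lit 6680) (nat_lit 357) .nil)))))))) (.g (nat_lit 1) (.e (nat_lit 56711) (nat_lit 0) .nil) .nil))) 
(.lf (nat_lit 461553) (.g (nat_lit 1419) (.e (nat_lit 2887) (nat_lit 184) (.e (nat_lit 426132) (nat_lit 3) (.e (nat_lit 204868) (nat_lit 29) (.e (nat_lit 360473) (nat_lit 8) (.e (nat_lit 557094) (nat_lit 12) .nil))))) (.g (nat_lit 0) (.e (nat_lit 57911) (nat_lit 0) .nil) .nil)))) (.nd (nat_lit 9) 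
(.lf (nat_lit 461297) (.g (nat_lit 1916) (.e (nat_lit 2862) (nat_lit 184) (.e (nat_lit 426566) (nat_lit 34) (.e (nat_lit 393268) (nat_lit 23) (.e (nat_lit 426436) (nat_lit 18) (.e (nat_lit 98335) (nat_lit 18) .nil))))) (.g (nat_lit 0) (.e (nat_lit 57152) (nat_lit 0) .nil) .nil))) 
(.lf (nat_lit 461809) (.g (nat_lit 4227) (.e (nat_lit 2884) (nat_lit 184) (.e (nat_lit 426140) (nat_lit 3) (.e (nat_lit 204869) (nat_lit 29) (.e (nat_lit 360474) (nat_lit 8) (.e (nat_lit 557088) (nat_lit 12) (.e (nat_lit 164018) (nat_lit 45) (.e (nat_lit 696327) (nat_lit 5) .nil))))))) (.g (nat_lit 1) (.e (nat_lit 58727) (nat_lit 0) .nil) .nil))))))))) 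
(.nd (nat_lit 4) (.nd (nat_lit 5) (.nd (nat_lit 6) (.nd (nat_lit 7) (.nd (nat_lit 8) 
(.nd (nat_lit 9) 
(.lf (nat_lit 460809) (.g (nat_lit 4114) (.e (nat_lit 2843) (nat_lit 184) (.e (nat_lit 426436) (nat_lit 18) (.e (nat_lit 98335) (nat_lit 18) (.e (nat_lit 164330) (nat_lit 230) .nil)))) (.g (nat_lit 0) (.e (nat_lit 56224) (nat_lit 0) .nil) .nil))) 
(.lf (nat_lit 461321) (.g (nat_lit 433) (.e (nat_lit 2869) (nat_lit 184) (.e (nat_lit 426173) (nat_lit 7) (.e (nat_lit 409617) (nat_lit 10) .nil))) (.g (nat_lit 0) (.e (nat_lit 57252) (nat_lit 0) .nil) .nil)))) (.nd (nat_lit 9) 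
(.lf (nat_lit 461065) (.g (nat_lit 2031) (.e (nat_lit 2855) (nat_lit 184) (.e (nat_lit 426509) (nat_lit 27) (.e (nat_lit 336228) (nat_lit 14) (.e (nat_lit 401438) (nat_lit 9) (.e (nat_lit 426533) (nat_lit 28) (.e (nat_lit 344069) (nat_lit 0) .nil)))))) (.g (nat_lit 1) (.e (nat_lit 56735) (nat_lit 0) .nil) .nil))) 
(.lf (nat_lit 461577) (.g (nat_lit 3429) (.e (nat_lit 2887) (nat_lit 184) (.e (nat_lit 426135) (nat_lit 3) (.e (nat_lit 204869) (nat_lit 29) (.e (nat_lit 360474) (nat_lit 8) (.e (nat_lit 557094) (nat_lit 12) (.e (nat_lit 164016) (nat_lit 44) (.e (nat_lit 688138) (nat_lit 5) .nil))))))) (.g (nat_lit 1) (.e (nat_lit 57936) (nat_lit 0) .nil) .nil))))) (.nd (nat_lit 8) (.nd (nat_lit 9) 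
(.lf (nat_lit 460937) (.g (nat_lit 5248) (.e (nat_lit 2854) (nat_lit 184) (.e (nat_lit 426131) (nat_lit 3) (.e (nat_lit 204869) (nat_lit 29) (.e (nat_lit 360474) (nat_lit 8) (.e (nat_lit 557091) (nat_lit 12) (.e (nat_lit 164020) (nat_lit 45) (.e (nat_lit 696326) (nat_lit 5) .nil))))))) (.g (nat_lit 1) (.e (nat_lit 56508) (nat_lit 0) .nil) .nil))) 
(.lf (nat_lit 461449) (.g (nat_lit 5236) (.e (nat_lit 2878) (nat_lit 184) (.e (nat_lit 426125) (nat_lit 2) (.e (nat_lit 196666) (nat_lit 13) (.e (nat_lit 65617) (nat_lit 10) (.e (nat_lit 344132) (nat_lit 26) (.e (nat_lit 557093) (nat_lit 12) (.e (nat_lit 164018) (nat_lit 45) (.e (nat_lit 696330) (nat_lit 5) .nil)))))))) (.g (nat_lit 1) (.e (nat_lit 57684) (nat_lit 0) .nil) .nil)))) 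
(.nd (nat_lit 9) 
(.lf (nat_lit 461193) (.g (nat_lit 1320) (.e (nat_lit 2856) (nat_lit 184) (.e (nat_lit 426555) (nat_lit 32) (.e (nat_lit 376859) (nat_lit 21) (.e (nat_lit 57871) (nat_lit 264) .nil)))) (.g (nat_lit 0) (.e (nat_lit 56901) (nat_lit 0) .nil) .nil))) 
(.lf (nat_lit 461705) (.g (nat_lit 3390) (.e (nat_lit 2887) (nat_lit 184) (.e (nat_lit 426499) (nat_lit 27) (.e (nat_lit 336193) (nat_lit 12) (.e (nat_lit 385093) (nat_lit 49) (.e (nat_lit 778323) (nat_lit 5) (.e (nat_lit 81664) (nat_lit 32) .nil)))))) (.g (nat_lit 1) (.e (nat_lit 58419) (nat_lit 0) .nil) .nil)))))) (.nd (nat_lit 7) (.nd (nat_lit 8) (.nd (nat_lit 9) 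
(.lf (nat_lit 460873) (.g (nat_lit 2235) (.e (nat_lit 2847) (nat_lit 184) (.e (nat_lit 426566) (nat_lit 34) (.e (nat_lit 393294) (nat_lit 26) (.e (nat_lit 475177) (nat_lit 24) (.e (nat_lit 516120) (nat_lit 1) .nil))))) (.g (nat_lit 0) (.e (nat_lit 56361) (nat_lit 0) .nil) .nil))) 
(.lf (nat_lit 461385) (.g (nat_lit 4633) (.e (nat_lit 2877) (nat_lit 184) (.e (nat_lit 426125) (nat_lit 2) (.e (nat_lit 196666) (nat_lit 13) (.e (nat_lit 65617) (nat_lit 10) (.e (nat_lit 344127) (nat_lit 26) (.e (nat_lit 557090) (nat_lit 12) (.e (nat_lit 164017) (nat_lit 44) (.e (nat_lit 688139) (nat_lit 5) .nil)))))))) (.g (nat_lit 1) (.e (nat_lit 57489) (nat_lit 0) .nil) .nil)))) 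
(.nd (nat_lit 9) 
(.lf (nat_lit 461129) (.g (nat_lit 3805) (.e (nat_lit 2856) (nat_lit 184) (.e (nat_lit 426402) (nat_lit 15) (.e (nat_lit 1858) (nat_lit 124) (.e (nat_lit 557100) (nat_lit 13) (.e (nat_lit 172106) (nat_lit 10) (.e (nat_lit 434231) (nat_lit 23) (.e (nat_lit 532483) (nat_lit 0) (.e (nat_lit 6684) (nat_lit 357) .nil)))))))) (.g (nat_lit 1) (.e (nat_lit 56827) (nat_lit 0) .nil) .nil))) 
(.lf (nat_lit 461641) (.g (nat_lit 2578) (.e (nat_lit 2887) (nat_lit 184) (.e (nat_lit 426211) (nat_lit 9) (.e (nat_lit 426528) (nat_lit 27) (.e (nat_lit 336231) (nat_lit 14) (.e (nat_lit 401448) (nat_lit 10) (.e (nat_lit 434285) (nat_lit 42) (.e (nat_lit 688139) (nat_lit 5) .nil))))))) (.g (nat_lit 1) (.e (nat_lit 58065) (nat_lit 0) .nil) .nil))))) (.nd (nat_lit 8) (.nd (nat_lit 9) 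
(.lf (nat_lit 461001) (.g (nat_lit 2446) (.e (nat_lit 2854) (nat_lit 184) (.e (nat_lit 426542) (nat_lit 29) (.e (nat_lit 352267) (nat_lit 0) (.e (nat_lit 3632) (nat_lit 227) (.e (nat_lit 778324) (nat_lit 5) (.e (nat_lit 73781) (nat_lit 32) .nil)))))) (.g (nat_lit 1) (.e (nat_lit 56642) (nat_lit 0) .nil) .nil))) 
(.lf (nat_lit 461513) (.g (nat_lit 4292) (.e (nat_lit 2886) (nat_lit 184) (.e (nat_lit 426211) (nat_lit 9) (.e (nat_lit 426125) (nat_lit 2) (.e (nat_lit 196630) (nat_lit 9) (.e (nat_lit 1393) (nat_lit 106) .nil))))) (.g (nat_lit 0) (.e (nat_lit 57866) (nat_lit 0) .nil) .nil)))) (.nd (nat_lit 9) 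
(.lf (nat_lit 461257) (.g (nat_lit 2762) (.e (nat_lit 2857) (nat_lit 184) (.e (nat_lit 426568) (nat_lit 34) (.e (nat_lit 393271) (nat_lit 23) (.e (nat_lit 426131) (nat_lit 3) (.e (nat_lit 204829) (nat_lit 18) (.e (nat_lit 57655) (nat_lit 152) (.e (nat_lit 2504) (nat_lit 157) .nil))))))) (.g (nat_lit 1) (.e (nat_lit 57018) (nat_lit 0) .nil) .nil))) 
(.lf (nat_lit 461769) (.g (nat_lit 4260) (.e (nat_lit 2883) (nat_lit 184) (.e (nat_lit 426125) (nat_lit 2) (.e (nat_lit 196666) (nat_lit 13) (.e (nat_lit 65617) (nat_lit 10) (.e (nat_lit 344130) (nat_lit 26) (.e (nat_lit 557089) (nat_lit 12) (.e (nat_lit 164017) (nat_lit 44) (.e (nat_lit 688140) (nat_lit 5) .nil)))))))) (.g (nat_lit 1) (.e (nat_lit 58597) (nat_lit 0) .nil) .nil))))))) 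
(.nd (nat_lit 6) (.nd (nat_lit 7) (.nd (nat_lit 8) (.nd (nat_lit 9) 
(.lf (nat_lit 460841) (.g (nat_lit 1490) (.e (nat_lit 2845) (nat_lit 184) (.e (nat_lit 426448) (nat_lit 20) (.e (nat_lit 122624) (nat_lit 5) (.e (nat_lit 221194) (nat_lit 11) (.e (nat_lit 336203) (nat_lit 12) (.e (nat_lit 392960) (nat_lit 8) .nil)))))) (.g (nat_lit 1) (.e (nat_lit 56285) (nat_lit 0) .nil) .nil))) 
(.lf (nat_lit 461353) (.g (nat_lit 3655) (.e (nat_lit 2874) (nat_lit 184) (.e (nat_lit 426136) (nat_lit 3) (.e (nat_lit 204869) (nat_lit 29) (.e (nat_lit 360474) (nat_lit 8) (.e (nat_lit 557091) (nat_lit 12) (.e (nat_lit 164020) (nat_lit 45) (.e (nat_lit 696329) (nat_lit 5) .nil))))))) (.g (nat_lit 1) (.e (nat_lit 57399) (nat_lit 0) .nil) .nil)))) (.nd (nat_lit 9) 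
(.lf (nat_lit 461097) (.g (nat_lit 3207) (.e (nat_lit 2855) (nat_lit 184) (.e (nat_lit 426542) (nat_lit 29) (.e (nat_lit 352267) (nat_lit 0) (.e (nat_lit 3632) (nat_lit 227) (.e (nat_lit 778323) (nat_lit 5) (.e (nat_lit 73781) (nat_lit 32) .nil)))))) (.g (nat_lit 1) (.e (nat_lit 56787) (nat_lit 0) .nil) .nil))) 
(.lf (nat_lit 461609) (.g (nat_lit 3538) (.e (nat_lit 2887) (nat_lit 184) (.e (nat_lit 426168) (nat_lit 7) (.e (nat_lit 409648) (nat_lit 18) (.e (nat_lit 303137) (nat_lit 10) (.e (nat_lit 434275) (nat_lit 39) (.e (nat_lit 663580) (nat_lit 9) (.e (nat_lit 2416) (nat_lit 157) (.e (nat_lit 3459) (nat_lit 216) (.e (nat_lit 688139) (nat_lit 5) .nil))))))))) (.g (nat_lit 1) (.e (nat_lit 57968) (nat_lit 0) .nil) .nil))))) 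
(.nd (nat_lit 8) (.nd (nat_lit 9) 
(.lf (nat_lit 460969) (.g (nat_lit 843) (.e (nat_lit 2854) (nat_lit 184) (.e (nat_lit 426436) (nat_lit 18) (.e (nat_lit 98380) (nat_lit 31) .nil))) (.g (nat_lit 0) (.e (nat_lit 56604) (nat_lit 0) .nil) .nil))) 
(.lf (nat_lit 461481) (.g (nat_lit 2053) (.e (nat_lit 2878) (nat_lit 184) (.e (nat_lit 426312) (nat_lit 12) (.e (nat_lit 475185) (nat_lit 29) (.e (nat_lit 557100) (nat_lit 13) (.e (nat_lit 172113) (nat_lit 10) (.e (nat_lit 434238) (nat_lit 25) (.e (nat_lit 548898) (nat_lit 14) .nil))))))) (.g (nat_lit 1) (.e (nat_lit 57805) (nat_lit 0) .nil) .nil)))) (.nd (nat_lit 9) 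
(.lf (nat_lit 461225) (.g (nat_lit 1785) (.e (nat_lit 2857) (nat_lit 184) (.e (nat_lit 426509) (nat_lit 27) (.e (nat_lit 336193) (nat_lit 12) (.e (nat_lit 385094) (nat_lit 49) (.e (nat_lit 778323) (nat_lit 5) (.e (nat_lit 73782) (nat_lit 32) .nil)))))) (.g (nat_lit 1) (.e (nat_lit 56976) (nat_lit 0) .nil) .nil))) 
(.lf (nat_lit 461737) (.g (nat_lit 3150) (.e (nat_lit 2890) (nat_lit 184) (.e (nat_lit 426125) (nat_lit 2) (.e (nat_lit 196666) (nat_lit 13) (.e (nat_lit 65617) (nat_lit 10) .nil)))) (.g (nat_lit 0) (.e (nat_lit 58486) (nat_lit 0) .nil) .nil)))))) (.nd (nat_lit 7) (.nd (nat_lit 8) (.nd (nat_lit 9) 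
(.lf (nat_lit 460905) (.g (nat_lit 1620) (.e (nat_lit 2851) (nat_lit 184) (.e (nat_lit 426566) (nat_lit 34) (.e (nat_lit 393270) (nat_lit 23) (.e (nat_lit 426436) (nat_lit 18) (.e (nat_lit 98334) (nat_lit 18) .nil))))) (.g (nat_lit 0) (.e (nat_lit 56429) (nat_lit 0) .nil) .nil))) 
(.lf (nat_lit 461417) (.g (nat_lit 2625) (.e (nat_lit 2877) (nat_lit 184) (.e (nat_lit 426125) (nat_lit 2) (.e (nat_lit 196666) (nat_lit 13) (.e (nat_lit 65617) (nat_lit 10) (.e (nat_lit 344133) (nat_lit 26) (.e (nat_lit 557089) (nat_lit 12) (.e (nat_lit 164017) (nat_lit 44) (.e (nat_lit 696064) (nat_lit 5) .nil)))))))) (.g (nat_lit 1) (.e (nat_lit 57521) (nat_lit 0) .nil) .nil)))) 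
(.nd (nat_lit 9) 
(.lf (nat_lit 461161) (.g (nat_lit 2224) (.e (nat_lit 2856) (nat_lit 184) (.e (nat_lit 426509) (nat_lit 27) (.e (nat_lit 336228) (nat_lit 14) (.e (nat_lit 401459) (nat_lit 13) (.e (nat_lit 483347) (nat_lit 17) (.e (nat_lit 6684) (nat_lit 357) .nil)))))) (.g (nat_lit 1) (.e (nat_lit 56867) (nat_lit 0) .nil) .nil))) 
(.lf (nat_lit 461673) (.g (nat_lit 2580) (.e (nat_lit 2887) (nat_lit 184) (.e (nat_lit 426317) (nat_lit 12) (.e (nat_lit 475211) (nat_lit 41) (.e (nat_lit 712755) (nat_lit 30) (.e (nat_lit 450563) (nat_lit 0) (.e (nat_lit 5539) (nat_lit 306) (.e (nat_lit 2505) (nat_lit 157) .nil))))))) (.g (nat_lit 1) (.e (nat_lit 58283) (nat_lit 0) .nil) .nil))))) (.nd (nat_lit 8) (.nd (nat_lit 9) 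
(.lf (nat_lit 461033) (.g (nat_lit 903) (.e (nat_lit 2854) (nat_lit 184) (.e (nat_lit 426568) (nat_lit 34) (.e (nat_lit 393284) (nat_lit 24) .nil))) (.g (nat_lit 0) (.e (nat_lit 56694) (nat_lit 0) .nil) .nil))) 
(.lf (nat_lit 461545) (.g (nat_lit 3721) (.e (nat_lit 2887) (nat_lit 184) (.e (nat_lit 426125) (nat_lit 2) (.e (nat_lit 196666) (nat_lit 13) (.e (nat_lit 65617) (nat_lit 10) (.e (nat_lit 344132) (nat_lit 26) (.e (nat_lit 557094) (nat_lit 12) (.e (nat_lit 164016) (nat_lit 44) (.e (nat_lit 688138) (nat_lit 5) .nil)))))))) (.g (nat_lit 1) (.e (nat_lit 57903) (nat_lit 0) .nil) .nil)))) 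
(.nd (nat_lit 9) 
(.lf (nat_lit 461289) (.g (nat_lit 1934) (.e (nat_lit 2862) (nat_lit 184) (.e (nat_lit 426542) (nat_lit 29) (.e (nat_lit 352307) (nat_lit 21) (.e (nat_lit 57873) (nat_lit 264) (.e (nat_lit 1211) (nat_lit 89) .nil))))) (.g (nat_lit 0) (.e (nat_lit 57136) (nat_lit 0) .nil) .nil))) 
(.lf (nat_lit 461801) (.g (nat_lit 3331) (.e (nat_lit 2884) (nat_lit 184) (.e (nat_lit 426140) (nat_lit 3) (.e (nat_lit 204868) (nat_lit 29) (.e (nat_lit 360474) (nat_lit 8) (.e (nat_lit 557091) (nat_lit 12) (.e (nat_lit 164020) (nat_lit 45) (.e (nat_lit 696327) (nat_lit 5) .nil))))))) (.g (nat_lit 1) (.e (nat_lit 58718) (nat_lit 0) .nil) .nil)))))))) 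
(.nd (nat_lit 5) (.nd (nat_lit 6) (.nd (nat_lit 7) (.nd (nat_lit 8) (.nd (nat_lit 9) 
(.lf (nat_lit 460825) (.g (nat_lit 4057) (.e (nat_lit 2845) (nat_lit 184) (.e (nat_lit 426436) (nat_lit 18) (.e (nat_lit 98335) (nat_lit 18) (.e (nat_lit 164325) (nat_lit 230) .nil)))) (.g (nat_lit 0) (.e (nat_lit 56269) (nat_lit 0) .nil) .nil))) 
(.lf (nat_lit 461337) (.g (nat_lit 1550) (.e (nat_lit 2873) (nat_lit 184) (.e (nat_lit 426140) (nat_lit 3) (.e (nat_lit 204868) (nat_lit 29) (.e (nat_lit 360473) (nat_lit 8) .nil)))) (.g (nat_lit 0) (.e (nat_lit 57358) (nat_lit 0) .nil) .nil)))) (.nd (nat_lit 9) 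
(.lf (nat_lit 461081) (.g (nat_lit 2478) (.e (nat_lit 2855) (nat_lit 184) (.e (nat_lit 426540) (nat_lit 29) (.e (nat_lit 352262) (nat_lit 0) (.e (nat_lit 3631) (nat_lit 227) (.e (nat_lit 778323) (nat_lit 5) (.e (nat_lit 73781) (nat_lit 32) .nil)))))) (.g (nat_lit 1) (.e (nat_lit 56771) (nat_lit 0) .nil) .nil))) 
(.lf (nat_lit 461593) (.g (nat_lit 4732) (.e (nat_lit 2887) (nat_lit 184) (.e (nat_lit 426140) (nat_lit 3) (.e (nat_lit 204855) (nat_lit 26) (.e (nat_lit 336176) (nat_lit 10) (.e (nat_lit 344130) (nat_lit 26) (.e (nat_lit 557089) (nat_lit 12) (.e (nat_lit 164017) (nat_lit 44) (.e (nat_lit 688138) (nat_lit 5) .nil)))))))) (.g (nat_lit 1) (.e (nat_lit 57952) (nat_lit 0) .nil) .nil))))) 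
(.nd (nat_lit 8) (.nd (nat_lit 9) 
(.lf (nat_lit 460953) (.g (nat_lit 2074) (.e (nat_lit 2854) (nat_lit 184) (.e (nat_lit 426320) (nat_lit 12) (.e (nat_lit 475211) (nat_lit 41) (.e (nat_lit 712755) (nat_lit 30) (.e (nat_lit 450563) (nat_lit 0) (.e (nat_lit 5537) (nat_lit 306) (.e (nat_lit 2478) (nat_lit 157) .nil))))))) (.g (nat_lit 1) (.e (nat_lit 56565) (nat_lit 0) .nil) .nil))) 
(.lf (nat_lit 461465) (.g (nat_lit 1342) (.e (nat_lit 2878) (nat_lit 184) (.e (nat_lit 426140) (nat_lit 3) (.e (nat_lit 204868) (nat_lit 29) (.e (nat_lit 360473) (nat_lit 8) .nil)))) (.g (nat_lit 0) (.e (nat_lit 57716) (nat_lit 0) .nil) .nil)))) (.nd (nat_lit 9) 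
(.lf (nat_lit 461209) (.g (nat_lit 2968) (.e (nat_lit 2857) (nat_lit 184) (.e (nat_lit 426482) (nat_lit 27) (.e (nat_lit 336193) (nat_lit 12) (.e (nat_lit 385093) (nat_lit 49) (.e (nat_lit 778324) (nat_lit 5) .nil))))) (.g (nat_lit 0) (.e (nat_lit 56955) (nat_lit 0) .nil) .nil))) 
(.lf (nat_lit 461721) (.g (nat_lit 3128) (.e (nat_lit 2888) (nat_lit 184) (.e (nat_lit 426125) (nat_lit 2) (.e (nat_lit 196666) (nat_lit 13) (.e (nat_lit 65617) (nat_lit 10) .nil)))) (.g (nat_lit 0) (.e (nat_lit 58457) (nat_lit 0) .nil) .nil)))))) (.nd (nat_lit 7) (.nd (nat_lit 8) (.nd (nat_lit 9) 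
(.lf (nat_lit 460889) (.g (nat_lit 744) (.e (nat_lit 2849) (nat_lit 184) (.e (nat_lit 426566) (nat_lit 34) (.e (nat_lit 393268) (nat_lit 23) .nil))) (.g (nat_lit 0) (.e (nat_lit 56400) (nat_lit 0) .nil) .nil))) 
(.lf (nat_lit 461401) (.g (nat_lit 4657) (.e (nat_lit 2877) (nat_lit 184) (.e (nat_lit 426125) (nat_lit 2) (.e (nat_lit 196666) (nat_lit 13) (.e (nat_lit 65617) (nat_lit 10) (.e (nat_lit 344130) (nat_lit 26) (.e (nat_lit 557090) (nat_lit 12) (.e (nat_lit 164017) (nat_lit 44) (.e (nat_lit 688141) (nat_lit 5) .nil)))))))) (.g (nat_lit 1) (.e (nat_lit 57505) (nat_lit 0) .nil) .nil)))) 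
(.nd (nat_lit 9) 
(.lf (nat_lit 461145) (.g (nat_lit 2614) (.e (nat_lit 2856) (nat_lit 184) (.e (nat_lit 426482) (nat_lit 27) (.e (nat_lit 336060) (nat_lit 7) (.e (nat_lit 319538) (nat_lit 19) (.e (nat_lit 311357) (nat_lit 28) .nil))))) (.g (nat_lit 0) (.e (nat_lit 56850) (nat_lit 0) .nil) .nil))) 
(.lf (nat_lit 461657) (.g (nat_lit 2751) (.e (nat_lit 2887) (nat_lit 184) (.e (nat_lit 426216) (nat_lit 9) (.e (nat_lit 426528) (nat_lit 27) (.e (nat_lit 336231) (nat_lit 14) (.e (nat_lit 401448) (nat_lit 10) (.e (nat_lit 434286) (nat_lit 42) (.e (nat_lit 688139) (nat_lit 5) .nil))))))) (.g (nat_lit 1) (.e (nat_lit 58081) (nat_lit 0) .nil) .nil))))) (.nd (nat_lit 8) (.nd (nat_lit 9) 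
(.lf (nat_lit 461017) (.g (nat_lit 2347) (.e (nat_lit 2854) (nat_lit 184) (.e (nat_lit 426566) (nat_lit 34) (.e (nat_lit 393271) (nat_lit 23) (.e (nat_lit 426131) (nat_lit 3) (.e (nat_lit 204830) (nat_lit 18) .nil))))) (.g (nat_lit 0) (.e (nat_lit 56658) (nat_lit 0) .nil) .nil))) 
(.lf (nat_lit 461529) (.g (nat_lit 3813) (.e (nat_lit 2887) (nat_lit 184) (.e (nat_lit 426113) (nat_lit 2) (.e (nat_lit 196666) (nat_lit 13) (.e (nat_lit 65617) (nat_lit 10) (.e (nat_lit 344133) (nat_lit 26) (.e (nat_lit 557089) (nat_lit 12) (.e (nat_lit 164017) (nat_lit 44) (.e (nat_lit 688139) (nat_lit 5) .nil)))))))) (.g (nat_lit 1) (.e (nat_lit 57887) (nat_lit 0) .nil) .nil)))) 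
(.nd (nat_lit 9) 
(.lf (nat_lit 461273) (.g (nat_lit 2681) (.e (nat_lit 2862) (nat_lit 184) (.e (nat_lit 426436) (nat_lit 18) (.e (nat_lit 98358) (nat_lit 26) (.e (nat_lit 426436) (nat_lit 18) (.e (nat_lit 98356) (nat_lit 26) (.e (nat_lit 426428) (nat_lit 17) (.e (nat_lit 90130) (nat_lit 9) .nil))))))) (.g (nat_lit 1) (.e (nat_lit 57116) (nat_lit 0) .nil) .nil))) 
(.lf (nat_lit 461785) (.g (nat_lit 5121) (.e (nat_lit 2884) (nat_lit 184) (.e (nat_lit 426125) (nat_lit 2) (.e (nat_lit 196666) (nat_lit 13) (.e (nat_lit 65617) (nat_lit 10) (.e (nat_lit 344127) (nat_lit 26) (.e (nat_lit 557090) (nat_lit 12) (.e (nat_lit 164020) (nat_lit 45) (.e (nat_lit 696327) (nat_lit 5) .nil)))))))) (.g (nat_lit 1) (.e (nat_lit 58684) (nat_lit 0) .nil) .nil))))))) 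
(.nd (nat_lit 6) (.nd (nat_lit 7) (.nd (nat_lit 8) (.nd (nat_lit 9) 
(.lf (nat_lit 460857) (.g (nat_lit 1500) (.e (nat_lit 2845) (nat_lit 184) (.e (nat_lit 426568) (nat_lit 34) (.e (nat_lit 393279) (nat_lit 23) (.e (nat_lit 426129) (nat_lit 3) (.e (nat_lit 204830) (nat_lit 18) (.e (nat_lit 57665) (nat_lit 152) (.e (nat_lit 2466) (nat_lit 157) .nil))))))) (.g (nat_lit 1) (.e (nat_lit 56316) (nat_lit 0) .nil) .nil))) 
(.lf (nat_lit 461369) (.g (nat_lit 5354) (.e (nat_lit 2877) (nat_lit 184) (.e (nat_lit 426125) (nat_lit 2) (.e (nat_lit 196666) (nat_lit 13) (.e (nat_lit 65610) (nat_lit 10) (.e (nat_lit 344129) (nat_lit 26) (.e (nat_lit 557089) (nat_lit 12) (.e (nat_lit 164017) (nat_lit 44) (.e (nat_lit 688139) (nat_lit 5) .nil)))))))) (.g (nat_lit 1) (.e (nat_lit 57473) (nat_lit 0) .nil) .nil)))) 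
(.nd (nat_lit 9) 
(.lf (nat_lit 461113) (.g (nat_lit 1634) (.e (nat_lit 2855) (nat_lit 184) (.e (nat_lit 426555) (nat_lit 32) (.e (nat_lit 376857) (nat_lit 21) (.e (nat_lit 57871) (nat_lit 264) .nil)))) (.g (nat_lit 0) (.e (nat_lit 56804) (nat_lit 0) .nil) .nil))) 
(.lf (nat_lit 461625) (.g (nat_lit 1546) (.e (nat_lit 2887) (nat_lit 184) (.e (nat_lit 426171) (nat_lit 7) (.e (nat_lit 409646) (nat_lit 18) (.e (nat_lit 311040) (nat_lit 35) .nil)))) (.g (nat_lit 0) (.e (nat_lit 58024) (nat_lit 0) .nil) .nil))))) (.nd (nat_lit 8) (.nd (nat_lit 9) 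
(.lf (nat_lit 460985) (.g (nat_lit 1079) (.e (nat_lit 2854) (nat_lit 184) (.e (nat_lit 426533) (nat_lit 28) (.e (nat_lit 344066) (nat_lit 0) (.e (nat_lit 2939) (nat_lit 184) (.e (nat_lit 426532) (nat_lit 28) (.e (nat_lit 344069) (nat_lit 0) .nil)))))) (.g (nat_lit 1) (.e (nat_lit 56622) (nat_lit 0) .nil) .nil))) 
(.lf (nat_lit 461497) (.g (nat_lit 3917) (.e (nat_lit 2879) (nat_lit 184) (.e (nat_lit 426125) (nat_lit 2) (.e (nat_lit 196666) (nat_lit 13) (.e (nat_lit 65617) (nat_lit 10) (.e (nat_lit 344130) (nat_lit 26) .nil))))) (.g (nat_lit 0) (.e (nat_lit 57834) (nat_lit 0) .nil) .nil)))) (.nd (nat_lit 9) 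
(.lf (nat_lit 461241) (.g (nat_lit 2048) (.e (nat_lit 2857) (nat_lit 184) (.e (nat_lit 426539) (nat_lit 29) (.e (nat_lit 352262) (nat_lit 0) (.e (nat_lit 3632) (nat_lit 227) (.e (nat_lit 778323) (nat_lit 5) (.e (nat_lit 73782) (nat_lit 32) .nil)))))) (.g (nat_lit 1) (.e (nat_lit 56993) (nat_lit 0) .nil) .nil))) 
(.lf (nat_lit 461753) (.g (nat_lit 3679) (.e (nat_lit 2882) (nat_lit 184) (.e (nat_lit 426125) (nat_lit 2) (.e (nat_lit 196666) (nat_lit 13) (.e (nat_lit 65617) (nat_lit 10) (.e (nat_lit 344132) (nat_lit 26) .nil))))) (.g (nat_lit 0) (.e (nat_lit 58551) (nat_lit 0) .nil) .nil)))))) (.nd (nat_lit 7) (.nd (nat_lit 8) (.nd (nat_lit 9) 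
(.lf (nat_lit 460921) (.g (nat_lit 1399) (.e (nat_lit 2852) (nat_lit 184) (.e (nat_lit 426480) (nat_lit 27) (.e (nat_lit 336200) (nat_lit 12) (.e (nat_lit 385094) (nat_lit 49) (.e (nat_lit 778323) (nat_lit 5) .nil))))) (.g (nat_lit 0) (.e (nat_lit 56450) (nat_lit 0) .nil) .nil))) 
(.lf (nat_lit 461433) (.g (nat_lit 3170) (.e (nat_lit 2878) (nat_lit 184) (.e (nat_lit 426125) (nat_lit 2) (.e (nat_lit 196666) (nat_lit 13) (.e (nat_lit 65614) (nat_lit 10) .nil)))) (.g (nat_lit 0) (.e (nat_lit 57655) (nat_lit 0) .nil) .nil)))) (.nd (nat_lit 9) 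
(.lf (nat_lit 461177) (.g (nat_lit 2314) (.e (nat_lit 2856) (nat_lit 184) (.e (nat_lit 426533) (nat_lit 28) (.e (nat_lit 344069) (nat_lit 0) (.e (nat_lit 3090) (nat_lit 191) (.e (nat_lit 483347) (nat_lit 17) (.e (nat_lit 6649) (nat_lit 357) .nil)))))) (.g (nat_lit 1) (.e (nat_lit 56883) (nat_lit 0) .nil) .nil))) 
(.lf (nat_lit 461689) (.g (nat_lit 4429) (.e (nat_lit 2887) (nat_lit 184) (.e (nat_lit 426412) (nat_lit 15) (.e (nat_lit 1856) (nat_lit 124) (.e (nat_lit 557101) (nat_lit 13) (.e (nat_lit 172115) (nat_lit 10) (.e (nat_lit 434231) (nat_lit 23) (.e (nat_lit 532481) (nat_lit 0) (.e (nat_lit 6626) (nat_lit 357) .nil)))))))) (.g (nat_lit 1) (.e (nat_lit 58392) (nat_lit 0) .nil) .nil))))) 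
(.nd (nat_lit 8) (.nd (nat_lit 9) 
(.lf (nat_lit 461049) (.g (nat_lit 4314) (.e (nat_lit 2855) (nat_lit 184) (.e (nat_lit 426402) (nat_lit 15) (.e (nat_lit 1858) (nat_lit 124) (.e (nat_lit 557101) (nat_lit 13) (.e (nat_lit 172115) (nat_lit 10) (.e (nat_lit 434231) (nat_lit 23) (.e (nat_lit 532490) (nat_lit 0) (.e (nat_lit 6680) (nat_lit 357) .nil)))))))) (.g (nat_lit 1) (.e (nat_lit 56719) (nat_lit 0) .nil) .nil))) 
(.lf (nat_lit 461561) (.g (nat_lit 3408) (.e (nat_lit 2887) (nat_lit 184) (.e (nat_lit 426134) (nat_lit 3) (.e (nat_lit 204868) (nat_lit 29) (.e (nat_lit 360473) (nat_lit 8) (.e (nat_lit 557089) (nat_lit 12) (.e (nat_lit 164017) (nat_lit 44) (.e (nat_lit 688138) (nat_lit 5) .nil))))))) (.g (nat_lit 1) (.e (nat_lit 57919) (nat_lit 0) .nil) .nil)))) (.nd (nat_lit 9) 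
(.lf (nat_lit 461305) (.g (nat_lit 2682) (.e (nat_lit 2862) (nat_lit 184) (.e (nat_lit 426566) (nat_lit 34) (.e (nat_lit 393294) (nat_lit 26) (.e (nat_lit 475177) (nat_lit 24) (.e (nat_lit 516117) (nat_lit 1) .nil))))) (.g (nat_lit 0) (.e (nat_lit 57160) (nat_lit 0) .nil) .nil))) 
(.lf (nat_lit 461817) (.g (nat_lit 1984) (.e (nat_lit 2884) (nat_lit 184) (.e (nat_lit 426140) (nat_lit 3) (.e (nat_lit 212736) (nat_lit 29) (.e (nat_lit 360475) (nat_lit 8) (.e (nat_lit 557090) (nat_lit 12) (.e (nat_lit 164020) (nat_lit 45) (.e (nat_lit 696328) (nat_lit 5) .nil))))))) (.g (nat_lit 1) (.e (nat_lit 58736) (nat_lit 0) .nil) .nil)))))))))) 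
(.nd (nat_lit 3) (.nd (nat_lit 4) (.nd (nat_lit 5) (.nd (nat_lit 6) (.nd (nat_lit 7) 
(.nd (nat_lit 8) (.nd (nat_lit 9) 
(.lf (nat_lit 460805) (.g (nat_lit 2198) (.e (nat_lit 2842) (nat_lit 184) (.e (nat_lit 426566) (nat_lit 34) (.e (nat_lit 393294) (nat_lit 26) (.e (nat_lit 475177) (nat_lit 24) .nil)))) (.g (nat_lit 0) (.e (nat_lit 56219) (nat_lit 0) .nil) .nil))) 
(.lf (nat_lit 461317) (.g (nat_lit 2959) (.e (nat_lit 2870) (nat_lit 184) (.e (nat_lit 426499) (nat_lit 27) (.e (nat_lit 336231) (nat_lit 14) (.e (nat_lit 401458) (nat_lit 13) (.e (nat_lit 483350) (nat_lit 17) (.e (nat_lit 7936) (nat_lit 357) .nil)))))) (.g (nat_lit 1) (.e (nat_lit 57248) (nat_lit 0) .nil) .nil)))) (.nd (nat_lit 9) 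
(.lf (nat_lit 461061) (.g (nat_lit 1953) (.e (nat_lit 2855) (nat_lit 184) (.e (nat_lit 426482) (nat_lit 27) (.e (nat_lit 336205) (nat_lit 12) (.e (nat_lit 385093) (nat_lit 49) (.e (nat_lit 778323) (nat_lit 5) .nil))))) (.g (nat_lit 0) (.e (nat_lit 56731) (nat_lit 0) .nil) .nil))) 
(.lf (nat_lit 461573) (.g (nat_lit 2584) (.e (nat_lit 2887) (nat_lit 184) (.e (nat_lit 426135) (nat_lit 3) (.e (nat_lit 204868) (nat_lit 29) (.e (nat_lit 360473) (nat_lit 8) (.e (nat_lit 557091) (nat_lit 12) (.e (nat_lit 164016) (nat_lit 44) (.e (nat_lit 688139) (nat_lit 5) .nil))))))) (.g (nat_lit 1) (.e (nat_lit 57932) (nat_lit 0) .nil) .nil))))) (.nd (nat_lit 8) (.nd (nat_lit 9) 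
(.lf (nat_lit 460933) (.g (nat_lit 2041) (.e (nat_lit 2853) (nat_lit 184) (.e (nat_lit 426566) (nat_lit 34) (.e (nat_lit 393291) (nat_lit 26) (.e (nat_lit 475177) (nat_lit 24) (.e (nat_lit 516117) (nat_lit 1) .nil))))) (.g (nat_lit 0) (.e (nat_lit 56495) (nat_lit 0) .nil) .nil))) 
(.lf (nat_lit 461445) (.g (nat_lit 5962) (.e (nat_lit 2878) (nat_lit 184) (.e (nat_lit 426125) (nat_lit 2) (.e (nat_lit 196666) (nat_lit 13) (.e (nat_lit 65617) (nat_lit 10) (.e (nat_lit 344130) (nat_lit 26) (.e (nat_lit 557090) (nat_lit 12) (.e (nat_lit 164020) (nat_lit 45) (.e (nat_lit 696330) (nat_lit 5) .nil)))))))) (.g (nat_lit 1) (.e (nat_lit 57678) (nat_lit 0) .nil) .nil)))) 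
(.nd (nat_lit 9) 
(.lf (nat_lit 461189) (.g (nat_lit 227) (.e (nat_lit 2856) (nat_lit 184) (.e (nat_lit 426550) (nat_lit 31) (.e (nat_lit 368656) (nat_lit 14) .nil))) (.g (nat_lit 0) (.e (nat_lit 56896) (nat_lit 0) .nil) .nil))) 
(.lf (nat_lit 461701) (.g (nat_lit 3647) (.e (nat_lit 2887) (nat_lit 184) (.e (nat_lit 426412) (nat_lit 15) (.e (nat_lit 1856) (nat_lit 124) (.e (nat_lit 557109) (nat_lit 15) (.e (nat_lit 188452) (nat_lit 23) (.e (nat_lit 204816) (nat_lit 17) (.e (nat_lit 6622) (nat_lit 357) .nil))))))) (.g (nat_lit 1) (.e (nat_lit 58404) (nat_lit 0) .nil) .nil)))))) 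
(.nd (nat_lit 7) (.nd (nat_lit 8) (.nd (nat_lit 9) 
(.lf (nat_lit 460869) (.g (nat_lit 2021) (.e (nat_lit 2847) (nat_lit 184) (.e (nat_lit 426566) (nat_lit 34) (.e (nat_lit 393271) (nat_lit 23) (.e (nat_lit 426131) (nat_lit 3) (.e (nat_lit 204830) (nat_lit 18) .nil))))) (.g (nat_lit 0) (.e (nat_lit 56354) (nat_lit 0) .nil) .nil))) 
(.lf (nat_lit 461381) (.g (nat_lit 2764) (.e (nat_lit 2877) (nat_lit 184) (.e (nat_lit 426125) (nat_lit 2) (.e (nat_lit 196666) (nat_lit 13) (.e (nat_lit 65617) (nat_lit 10) (.e (nat_lit 344127) (nat_lit 26) (.e (nat_lit 557089) (nat_lit 12) (.e (nat_lit 164017) (nat_lit 44) (.e (nat_lit 688139) (nat_lit 5) .nil)))))))) (.g (nat_lit 1) (.e (nat_lit 57485) (nat_lit 0) .nil) .nil)))) 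
(.nd (nat_lit 9) 
(.lf (nat_lit 461125) (.g (nat_lit 2024) (.e (nat_lit 2856) (nat_lit 184) (.e (nat_lit 426402) (nat_lit 15) (.e (nat_lit 1848) (nat_lit 124) (.e (nat_lit 557097) (nat_lit 13) (.e (nat_lit 172115) (nat_lit 10) (.e (nat_lit 434231) (nat_lit 23) (.e (nat_lit 532482) (nat_lit 0) (.e (nat_lit 6642) (nat_lit 357) .nil)))))))) (.g (nat_lit 1) (.e (nat_lit 56823) (nat_lit 0) .nil) .nil))) 
(.lf (nat_lit 461637) (.g (nat_lit 840) (.e (nat_lit 2887) (nat_lit 184) (.e (nat_lit 426211) (nat_lit 9) (.e (nat_lit 426125) (nat_lit 2) (.e (nat_lit 204544) (nat_lit 0) .nil)))) (.g (nat_lit 0) (.e (nat_lit 58050) (nat_lit 0) .nil) .nil))))) (.nd (nat_lit 8) (.nd (nat_lit 9) 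
(.lf (nat_lit 460997) (.g (nat_lit 2071) (.e (nat_lit 2854) (nat_lit 184) (.e (nat_lit 426542) (nat_lit 29) (.e (nat_lit 352265) (nat_lit 0) (.e (nat_lit 3632) (nat_lit 227) (.e (nat_lit 778323) (nat_lit 5) (.e (nat_lit 73781) (nat_lit 32) .nil)))))) (.g (nat_lit 1) (.e (nat_lit 56638) (nat_lit 0) .nil) .nil))) 
(.lf (nat_lit 461509) (.g (nat_lit 3933) (.e (nat_lit 2886) (nat_lit 184) (.e (nat_lit 426125) (nat_lit 2) (.e (nat_lit 196666) (nat_lit 13) (.e (nat_lit 65617) (nat_lit 10) (.e (nat_lit 344133) (nat_lit 26) .nil))))) (.g (nat_lit 0) (.e (nat_lit 57855) (nat_lit 0) .nil) .nil)))) (.nd (nat_lit 9) 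
(.lf (nat_lit 461253) (.g (nat_lit 4090) (.e (nat_lit 2857) (nat_lit 184) (.e (nat_lit 426566) (nat_lit 34) (.e (nat_lit 393253) (nat_lit 18) (.e (nat_lit 164326) (nat_lit 230) .nil)))) (.g (nat_lit 0) (.e (nat_lit 57014) (nat_lit 0) .nil) .nil))) 
(.lf (nat_lit 461765) (.g (nat_lit 4445) (.e (nat_lit 2883) (nat_lit 184) (.e (nat_lit 426125) (nat_lit 2) (.e (nat_lit 196666) (nat_lit 13) (.e (nat_lit 65610) (nat_lit 10) (.e (nat_lit 344129) (nat_lit 26) (.e (nat_lit 557089) (nat_lit 12) (.e (nat_lit 164017) (nat_lit 44) (.e (nat_lit 688139) (nat_lit 5) .nil)))))))) (.g (nat_lit 1) (.e (nat_lit 58593) (nat_lit 0) .nil) .nil))))))) 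
(.nd (nat_lit 6) (.nd (nat_lit 7) (.nd (nat_lit 8) (.nd (nat_lit 9) 
(.lf (nat_lit 460837) (.g (nat_lit 638) (.e (nat_lit 2845) (nat_lit 184) (.e (nat_lit 426436) (nat_lit 18) (.e (nat_lit 98386) (nat_lit 32) .nil))) (.g (nat_lit 0) (.e (nat_lit 56281) (nat_lit 0) .nil) .nil))) 
(.lf (nat_lit 461349) (.g (nat_lit 3158) (.e (nat_lit 2875) (nat_lit 184) (.e (nat_lit 426125) (nat_lit 2) (.e (nat_lit 196666) (nat_lit 13) (.e (nat_lit 65610) (nat_lit 10) (.e (nat_lit 344129) (nat_lit 26) (.e (nat_lit 557090) (nat_lit 12) (.e (nat_lit 164018) (nat_lit 45) (.e (nat_lit 696326) (nat_lit 5) .nil)))))))) (.g (nat_lit 1) (.e (nat_lit 57391) (nat_lit 0) .nil) .nil)))) 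
(.nd (nat_lit 9) 
(.lf (nat_lit 461093) (.g (nat_lit 2123) (.e (nat_lit 2855) (nat_lit 184) (.e (nat_lit 426542) (nat_lit 29) (.e (nat_lit 352267) (nat_lit 0) (.e (nat_lit 3629) (nat_lit 227) (.e (nat_lit 778323) (nat_lit 5) (.e (nat_lit 73781) (nat_lit 32) .nil)))))) (.g (nat_lit 1) (.e (nat_lit 56783) (nat_lit 0) .nil) .nil))) 
(.lf (nat_lit 461605) (.g (nat_lit 4169) (.e (nat_lit 2887) (nat_lit 184) (.e (nat_lit 426140) (nat_lit 3) (.e (nat_lit 204869) (nat_lit 29) (.e (nat_lit 360475) (nat_lit 8) (.e (nat_lit 557091) (nat_lit 12) (.e (nat_lit 164017) (nat_lit 44) (.e (nat_lit 688139) (nat_lit 5) .nil))))))) (.g (nat_lit 1) (.e (nat_lit 57964) (nat_lit 0) .nil) .nil))))) (.nd (nat_lit 8) (.nd (nat_lit 9) 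
(.lf (nat_lit 460965) (.g (nat_lit 3616) (.e (nat_lit 2854) (nat_lit 184) (.e (nat_lit 426436) (nat_lit 18) (.e (nat_lit 98358) (nat_lit 26) (.e (nat_lit 426428) (nat_lit 17) (.e (nat_lit 90174) (nat_lit 14) (.e (nat_lit 180248) (nat_lit 9) (.e (nat_lit 565275) (nat_lit 9) .nil))))))) (.g (nat_lit 1) (.e (nat_lit 56589) (nat_lit 0) .nil) .nil))) 
(.lf (nat_lit 461477) (.g (nat_lit 2599) (.e (nat_lit 2878) (nat_lit 184) (.e (nat_lit 426310) (nat_lit 12) (.e (nat_lit 475185) (nat_lit 29) (.e (nat_lit 557107) (nat_lit 15) (.e (nat_lit 188439) (nat_lit 20) .nil))))) (.g (nat_lit 0) (.e (nat_lit 57801) (nat_lit 0) .nil) .nil)))) (.nd (nat_lit 9) 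
(.lf (nat_lit 461221) (.g (nat_lit 1519) (.e (nat_lit 2857) (nat_lit 184) (.e (nat_lit 426484) (nat_lit 27) (.e (nat_lit 336208) (nat_lit 12) (.e (nat_lit 385094) (nat_lit 49) (.e (nat_lit 778323) (nat_lit 5) (.e (nat_lit 73782) (nat_lit 32) .nil)))))) (.g (nat_lit 1) (.e (nat_lit 56972) (nat_lit 0) .nil) .nil))) 
(.lf (nat_lit 461733) (.g (nat_lit 2746) (.e (nat_lit 2888) (nat_lit 184) (.e (nat_lit 426340) (nat_lit 14) (.e (nat_lit 491537) (nat_lit 2) (.e (nat_lit 90178) (nat_lit 15) (.e (nat_lit 188440) (nat_lit 20) (.e (nat_lit 3272) (nat_lit 199) (.e (nat_lit 548898) (nat_lit 14) .nil))))))) (.g (nat_lit 1) (.e (nat_lit 58470) (nat_lit 0) .nil) .nil)))))) 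
(.nd (nat_lit 7) (.nd (nat_lit 8) (.nd (nat_lit 9) 
(.lf (nat_lit 460901) (.g (nat_lit 637) (.e (nat_lit 2851) (nat_lit 184) (.e (nat_lit 426436) (nat_lit 18) (.e (nat_lit 98358) (nat_lit 26) .nil))) (.g (nat_lit 0) (.e (nat_lit 56419) (nat_lit 0) .nil) .nil))) 
(.lf (nat_lit 461413) (.g (nat_lit 5360) (.e (nat_lit 2877) (nat_lit 184) (.e (nat_lit 426125) (nat_lit 2) (.e (nat_lit 196666) (nat_lit 13) (.e (nat_lit 65617) (nat_lit 10) (.e (nat_lit 344133) (nat_lit 26) (.e (nat_lit 557089) (nat_lit 12) (.e (nat_lit 164017) (nat_lit 44) (.e (nat_lit 688138) (nat_lit 5) .nil)))))))) (.g (nat_lit 1) (.e (nat_lit 57517) (nat_lit 0) .nil) .nil)))) 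
(.nd (nat_lit 9) 
(.lf (nat_lit 461157) (.g (nat_lit 3913) (.e (nat_lit 2856) (nat_lit 184) (.e (nat_lit 426509) (nat_lit 27) (.e (nat_lit 336205) (nat_lit 12) (.e (nat_lit 385093) (nat_lit 49) (.e (nat_lit 778323) (nat_lit 5) (.e (nat_lit 73782) (nat_lit 32) .nil)))))) (.g (nat_lit 1) (.e (nat_lit 56863) (nat_lit 0) .nil) .nil))) 
(.lf (nat_lit 461669) (.g (nat_lit 2235) (.e (nat_lit 2887) (nat_lit 184) (.e (nat_lit 426317) (nat_lit 12) (.e (nat_lit 475198) (nat_lit 40) (.e (nat_lit 704599) (nat_lit 6) (.e (nat_lit 196352) (nat_lit 8) (.e (nat_lit 155649) (nat_lit 0) .nil)))))) (.g (nat_lit 1) (.e (nat_lit 58268) (nat_lit 0) .nil) .nil))))) (.nd (nat_lit 8) (.nd (nat_lit 9) 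
(.lf (nat_lit 461029) (.g (nat_lit 1724) (.e (nat_lit 2854) (nat_lit 184) (.e (nat_lit 426568) (nat_lit 34) (.e (nat_lit 393271) (nat_lit 23) (.e (nat_lit 426131) (nat_lit 3) .nil)))) (.g (nat_lit 0) (.e (nat_lit 56690) (nat_lit 0) .nil) .nil))) 
(.lf (nat_lit 461541) (.g (nat_lit 3591) (.e (nat_lit 2887) (nat_lit 184) (.e (nat_lit 426120) (nat_lit 2) (.e (nat_lit 196666) (nat_lit 13) (.e (nat_lit 65617) (nat_lit 10) (.e (nat_lit 344130) (nat_lit 26) (.e (nat_lit 557089) (nat_lit 12) (.e (nat_lit 164017) (nat_lit 44) (.e (nat_lit 688138) (nat_lit 5) .nil)))))))) (.g (nat_lit 1) (.e (nat_lit 57899) (nat_lit 0) .nil) .nil)))) 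
(.nd (nat_lit 9) 
(.lf (nat_lit 461285) (.g (nat_lit 1788) (.e (nat_lit 2862) (nat_lit 184) (.e (nat_lit 426506) (nat_lit 27) (.e (nat_lit 336200) (nat_lit 12) (.e (nat_lit 385094) (nat_lit 49) (.e (nat_lit 778324) (nat_lit 5) (.e (nat_lit 81664) (nat_lit 32) .nil)))))) (.g (nat_lit 1) (.e (nat_lit 57132) (nat_lit 0) .nil) .nil))) 
(.lf (nat_lit 461797) (.g (nat_lit 3775) (.e (nat_lit 2884) (nat_lit 184) (.e (nat_lit 426140) (nat_lit 3) (.e (nat_lit 204868) (nat_lit 29) (.e (nat_lit 360473) (nat_lit 8) (.e (nat_lit 557090) (nat_lit 12) (.e (nat_lit 164020) (nat_lit 45) (.e (nat_lit 696329) (nat_lit 5) .nil))))))) (.g (nat_lit 1) (.e (nat_lit 58714) (nat_lit 0) .nil) .nil)))))))) 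
(.nd (nat_lit 5) (.nd (nat_lit 6) (.nd (nat_lit 7) (.nd (nat_lit 8) (.nd (nat_lit 9) 
(.lf (nat_lit 460821) (.g (nat_lit 5115) (.e (nat_lit 2845) (nat_lit 184) (.e (nat_lit 426131) (nat_lit 3) (.e (nat_lit 204869) (nat_lit 29) (.e (nat_lit 360474) (nat_lit 8) (.e (nat_lit 557091) (nat_lit 12) .nil))))) (.g (nat_lit 0) (.e (nat_lit 56262) (nat_lit 0) .nil) .nil))) 
(.lf (nat_lit 461333) (.g (nat_lit 3475) (.e (nat_lit 2873) (nat_lit 184) (.e (nat_lit 426125) (nat_lit 2) (.e (nat_lit 196666) (nat_lit 13) (.e (nat_lit 65617) (nat_lit 10) (.e (nat_lit 344130) (nat_lit 26) .nil))))) (.g (nat_lit 0) (.e (nat_lit 57354) (nat_lit 0) .nil) .nil)))) (.nd (nat_lit 9) 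
(.lf (nat_lit 461077) (.g (nat_lit 2212) (.e (nat_lit 2855) (nat_lit 184) (.e (nat_lit 426533) (nat_lit 28) (.e (nat_lit 344069) (nat_lit 0) (.e (nat_lit 3090) (nat_lit 191) (.e (nat_lit 483350) (nat_lit 17) (.e (nat_lit 6677) (nat_lit 357) .nil)))))) (.g (nat_lit 1) (.e (nat_lit 56756) (nat_lit 0) .nil) .nil))) 
(.lf (nat_lit 461589) (.g (nat_lit 5503) (.e (nat_lit 2887) (nat_lit 184) (.e (nat_lit 426136) (nat_lit 3) (.e (nat_lit 204869) (nat_lit 29) (.e (nat_lit 360475) (nat_lit 8) (.e (nat_lit 557089) (nat_lit 12) (.e (nat_lit 164017) (nat_lit 44) (.e (nat_lit 688138) (nat_lit 5) .nil))))))) (.g (nat_lit 1) (.e (nat_lit 57948) (nat_lit 0) .nil) .nil))))) (.nd (nat_lit 8) (.nd (nat_lit 9) 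
(.lf (nat_lit 460949) (.g (nat_lit 1665) (.e (nat_lit 2854) (nat_lit 184) (.e (nat_lit 426320) (nat_lit 12) (.e (nat_lit 475209) (nat_lit 41) (.e (nat_lit 712755) (nat_lit 30) (.e (nat_lit 450562) (nat_lit 0) .nil))))) (.g (nat_lit 0) (.e (nat_lit 56553) (nat_lit 0) .nil) .nil))) 
(.lf (nat_lit 461461) (.g (nat_lit 3797) (.e (nat_lit 2878) (nat_lit 184) (.e (nat_lit 426125) (nat_lit 2) (.e (nat_lit 196666) (nat_lit 13) (.e (nat_lit 65617) (nat_lit 10) (.e (nat_lit 344133) (nat_lit 26) (.e (nat_lit 557091) (nat_lit 12) (.e (nat_lit 164019) (nat_lit 45) (.e (nat_lit 696326) (nat_lit 5) .nil)))))))) (.g (nat_lit 1) (.e (nat_lit 57706) (nat_lit 0) .nil) .nil)))) 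
(.nd (nat_lit 9) 
(.lf (nat_lit 461205) (.g (nat_lit 2446) (.e (nat_lit 2857) (nat_lit 184) (.e (nat_lit 426438) (nat_lit 18) (.e (nat_lit 98367) (nat_lit 27) (.e (nat_lit 434248) (nat_lit 28) (.e (nat_lit 573482) (nat_lit 13) (.e (nat_lit 73472) (nat_lit 17) (.e (nat_lit 196614) (nat_lit 0) .nil))))))) (.g (nat_lit 1) (.e (nat_lit 56922) (nat_lit 0) .nil) .nil))) 
(.lf (nat_lit 461717) (.g (nat_lit 2584) (.e (nat_lit 2887) (nat_lit 184) (.e (nat_lit 426499) (nat_lit 27) (.e (nat_lit 336232) (nat_lit 14) (.e (nat_lit 401440) (nat_lit 9) (.e (nat_lit 426470) (nat_lit 25) (.e (nat_lit 319491) (nat_lit 0) (.e (nat_lit 5664) (nat_lit 312) .nil))))))) (.g (nat_lit 1) (.e (nat_lit 58446) (nat_lit 0) .nil) .nil)))))) 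
(.nd (nat_lit 7) (.nd (nat_lit 8) (.nd (nat_lit 9) 
(.lf (nat_lit 460885) (.g (nat_lit 4145) (.e (nat_lit 2849) (nat_lit 184) (.e (nat_lit 426436) (nat_lit 18) (.e (nat_lit 98335) (nat_lit 18) (.e (nat_lit 164332) (nat_lit 230) .nil)))) (.g (nat_lit 0) (.e (nat_lit 56387) (nat_lit 0) .nil) .nil))) 
(.lf (nat_lit 461397) (.g (nat_lit 2991) (.e (nat_lit 2877) (nat_lit 184) (.e (nat_lit 426125) (nat_lit 2) (.e (nat_lit 196666) (nat_lit 13) (.e (nat_lit 65617) (nat_lit 10) (.e (nat_lit 344130) (nat_lit 26) (.e (nat_lit 557090) (nat_lit 12) (.e (nat_lit 164016) (nat_lit 44) (.e (nat_lit 696064) (nat_lit 5) .nil)))))))) (.g (nat_lit 1) (.e (nat_lit 57501) (nat_lit 0) .nil) .nil)))) 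
(.nd (nat_lit 9) 
(.lf (nat_lit 461141) (.g (nat_lit 4114) (.e (nat_lit 2856) (nat_lit 184) (.e (nat_lit 426436) (nat_lit 18) (.e (nat_lit 98335) (nat_lit 18) (.e (nat_lit 164330) (nat_lit 230) .nil)))) (.g (nat_lit 0) (.e (nat_lit 56839) (nat_lit 0) .nil) .nil))) 
(.lf (nat_lit 461653) (.g (nat_lit 2120) (.e (nat_lit 2887) (nat_lit 184) (.e (nat_lit 426216) (nat_lit 9) (.e (nat_lit 426528) (nat_lit 27) (.e (nat_lit 335894) (nat_lit 0) (.e (nat_lit 6724) (nat_lit 362) (.e (nat_lit 180268) (nat_lit 24) (.e (nat_lit 688139) (nat_lit 5) .nil))))))) (.g (nat_lit 1) (.e (nat_lit 58077) (nat_lit 0) .nil) .nil))))) (.nd (nat_lit 8) (.nd (nat_lit 9) 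
(.lf (nat_lit 461013) (.g (nat_lit 1830) (.e (nat_lit 2854) (nat_lit 184) (.e (nat_lit 426566) (nat_lit 34) (.e (nat_lit 393271) (nat_lit 23) (.e (nat_lit 426131) (nat_lit 3) .nil)))) (.g (nat_lit 0) (.e (nat_lit 56654) (nat_lit 0) .nil) .nil))) 
(.lf (nat_lit 461525) (.g (nat_lit 4180) (.e (nat_lit 2887) (nat_lit 184) (.e (nat_lit 426113) (nat_lit 2) (.e (nat_lit 196666) (nat_lit 13) (.e (nat_lit 65617) (nat_lit 10) (.e (nat_lit 344130) (nat_lit 26) (.e (nat_lit 557090) (nat_lit 12) (.e (nat_lit 164017) (nat_lit 44) (.e (nat_lit 688138) (nat_lit 5) .nil)))))))) (.g (nat_lit 1) (.e (nat_lit 57883) (nat_lit 0) .nil) .nil)))) 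
(.nd (nat_lit 9) 
(.lf (nat_lit 461269) (.g (nat_lit 2205) (.e (nat_lit 2861) (nat_lit 184) (.e (nat_lit 426568) (nat_lit 34) (.e (nat_lit 393271) (nat_lit 23) (.e (nat_lit 426131) (nat_lit 3) (.e (nat_lit 204830) (nat_lit 18) .nil))))) (.g (nat_lit 0) (.e (nat_lit 57110) (nat_lit 0) .nil) .nil))) 
(.lf (nat_lit 461781) (.g (nat_lit 2825) (.e (nat_lit 2884) (nat_lit 184) (.e (nat_lit 426125) (nat_lit 2) (.e (nat_lit 196666) (nat_lit 13) (.e (nat_lit 65617) (nat_lit 10) (.e (nat_lit 344127) (nat_lit 26) (.e (nat_lit 557088) (nat_lit 12) (.e (nat_lit 164018) (nat_lit 45) (.e (nat_lit 696328) (nat_lit 5) .nil)))))))) (.g (nat_lit 1) (.e (nat_lit 58680) (nat_lit 0) .nil) .nil))))))) 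
(.nd (nat_lit 6) (.nd (nat_lit 7) (.nd (nat_lit 8) (.nd (nat_lit 9) 
(.lf (nat_lit 460853) (.g (nat_lit 3850) (.e (nat_lit 2845) (nat_lit 184) (.e (nat_lit 426568) (nat_lit 34) (.e (nat_lit 393271) (nat_lit 23) (.e (nat_lit 426131) (nat_lit 3) (.e (nat_lit 204829) (nat_lit 18) (.e (nat_lit 57665) (nat_lit 152) (.e (nat_lit 2466) (nat_lit 157) .nil))))))) (.g (nat_lit 1) (.e (nat_lit 56312) (nat_lit 0) .nil) .nil))) 
(.lf (nat_lit 461365) (.g (nat_lit 3105) (.e (nat_lit 2876) (nat_lit 184) (.e (nat_lit 426211) (nat_lit 9) (.e (nat_lit 426125) (nat_lit 2) (.e (nat_lit 196625) (nat_lit 9) .nil)))) (.g (nat_lit 0) (.e (nat_lit 57428) (nat_lit 0) .nil) .nil)))) (.nd (nat_lit 9) 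
(.lf (nat_lit 461109) (.g (nat_lit 541) (.e (nat_lit 2855) (nat_lit 184) (.e (nat_lit 426542) (nat_lit 29) (.e (nat_lit 352317) (nat_lit 24) .nil))) (.g (nat_lit 0) (.e (nat_lit 56799) (nat_lit 0) .nil) .nil))) 
(.lf (nat_lit 461621) (.g (nat_lit 3947) (.e (nat_lit 2887) (nat_lit 184) (.e (nat_lit 426173) (nat_lit 7) (.e (nat_lit 409649) (nat_lit 18) (.e (nat_lit 303140) (nat_lit 10) (.e (nat_lit 434275) (nat_lit 39) (.e (nat_lit 663584) (nat_lit 12) (.e (nat_lit 164017) (nat_lit 44) (.e (nat_lit 688139) (nat_lit 5) .nil)))))))) (.g (nat_lit 1) (.e (nat_lit 58005) (nat_lit 0) .nil) .nil))))) 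
(.nd (nat_lit 8) (.nd (nat_lit 9) 
(.lf (nat_lit 460981) (.g (nat_lit 398) (.e (nat_lit 2854) (nat_lit 184) (.e (nat_lit 426530) (nat_lit 27) (.e (nat_lit 335874) (nat_lit 0) .nil))) (.g (nat_lit 0) (.e (nat_lit 56618) (nat_lit 0) .nil) .nil))) 
(.lf (nat_lit 461493) (.g (nat_lit 2575) (.e (nat_lit 2879) (nat_lit 184) (.e (nat_lit 426125) (nat_lit 2) (.e (nat_lit 196666) (nat_lit 13) (.e (nat_lit 65610) (nat_lit 10) .nil)))) (.g (nat_lit 0) (.e (nat_lit 57823) (nat_lit 0) .nil) .nil)))) (.nd (nat_lit 9) 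
(.lf (nat_lit 461237) (.g (nat_lit 2792) (.e (nat_lit 2857) (nat_lit 184) (.e (nat_lit 426533) (nat_lit 28) (.e (nat_lit 344068) (nat_lit 0) (.e (nat_lit 3090) (nat_lit 191) (.e (nat_lit 483350) (nat_lit 17) (.e (nat_lit 6677) (nat_lit 357) .nil)))))) (.g (nat_lit 1) (.e (nat_lit 56989) (nat_lit 0) .nil) .nil))) 
(.lf (nat_lit 461749) (.g (nat_lit 3105) (.e (nat_lit 2894) (nat_lit 184) (.e (nat_lit 426211) (nat_lit 9) (.e (nat_lit 426125) (nat_lit 2) (.e (nat_lit 196625) (nat_lit 9) .nil)))) (.g (nat_lit 0) (.e (nat_lit 58547) (nat_lit 0) .nil) .nil)))))) (.nd (nat_lit 7) (.nd (nat_lit 8) (.nd (nat_lit 9) 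
(.lf (nat_lit 460917) (.g (nat_lit 1466) (.e (nat_lit 2852) (nat_lit 184) (.e (nat_lit 426438) (nat_lit 18) (.e (nat_lit 98369) (nat_lit 28) (.e (nat_lit 442391) (nat_lit 19) (.e (nat_lit 401413) (nat_lit 0) (.e (nat_lit 3459) (nat_lit 216) (.e (nat_lit 688140) (nat_lit 5) .nil))))))) (.g (nat_lit 1) (.e (nat_lit 56446) (nat_lit 0) .nil) .nil))) 
(.lf (nat_lit 461429) (.g (nat_lit 3564) (.e (nat_lit 2878) (nat_lit 184) (.e (nat_lit 426125) (nat_lit 2) (.e (nat_lit 196656) (nat_lit 11) (.e (nat_lit 16479) (nat_lit 15) (.e (nat_lit 7936) (nat_lit 121) (.e (nat_lit 532544) (nat_lit 10) (.e (nat_lit 344129) (nat_lit 26) (.e (nat_lit 557067) (nat_lit 9) .nil)))))))) (.g (nat_lit 1) (.e (nat_lit 57610) (nat_lit 0) .nil) .nil)))) 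
(.nd (nat_lit 9) 
(.lf (nat_lit 461173) (.g (nat_lit 2971) (.e (nat_lit 2856) (nat_lit 184) (.e (nat_lit 426533) (nat_lit 28) (.e (nat_lit 344068) (nat_lit 0) (.e (nat_lit 2857) (nat_lit 184) (.e (nat_lit 426533) (nat_lit 28) (.e (nat_lit 344069) (nat_lit 0) .nil)))))) (.g (nat_lit 1) (.e (nat_lit 56879) (nat_lit 0) .nil) .nil))) 
(.lf (nat_lit 461685) (.g (nat_lit 4061) (.e (nat_lit 2887) (nat_lit 184) (.e (nat_lit 426412) (nat_lit 15) (.e (nat_lit 1856) (nat_lit 124) (.e (nat_lit 557101) (nat_lit 13) (.e (nat_lit 172097) (nat_lit 9) (.e (nat_lit 426125) (nat_lit 2) (.e (nat_lit 196661) (nat_lit 12) (.e (nat_lit 65280) (nat_lit 201) .nil)))))))) (.g (nat_lit 1) (.e (nat_lit 58388) (nat_lit 0) .nil) .nil))))) 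
(.nd (nat_lit 8) (.nd (nat_lit 9) 
(.lf (nat_lit 461045) (.g (nat_lit 3288) (.e (nat_lit 2855) (nat_lit 184) (.e (nat_lit 426402) (nat_lit 15) (.e (nat_lit 1849) (nat_lit 124) (.e (nat_lit 557109) (nat_lit 15) (.e (nat_lit 188449) (nat_lit 22) (.e (nat_lit 196661) (nat_lit 12) (.e (nat_lit 57751) (nat_lit 201) .nil))))))) (.g (nat_lit 1) (.e (nat_lit 56715) (nat_lit 0) .nil) .nil))) 
(.lf (nat_lit 461557) (.g (nat_lit 1889) (.e (nat_lit 2887) (nat_lit 184) (.e (nat_lit 426132) (nat_lit 3) (.e (nat_lit 204869) (nat_lit 29) (.e (nat_lit 360474) (nat_lit 8) (.e (nat_lit 557094) (nat_lit 12) (.e (nat_lit 164016) (nat_lit 44) (.e (nat_lit 688139) (nat_lit 5) .nil))))))) (.g (nat_lit 1) (.e (nat_lit 57915) (nat_lit 0) .nil) .nil)))) (.nd (nat_lit 9) 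
(.lf (nat_lit 461301) (.g (nat_lit 2544) (.e (nat_lit 2862) (nat_lit 184) (.e (nat_lit 426566) (nat_lit 34) (.e (nat_lit 393271) (nat_lit 23) (.e (nat_lit 426436) (nat_lit 18) (.e (nat_lit 98335) (nat_lit 18) .nil))))) (.g (nat_lit 0) (.e (nat_lit 57156) (nat_lit 0) .nil) .nil))) 
(.lf (nat_lit 461813) (.g (nat_lit 3636) (.e (nat_lit 2884) (nat_lit 184) (.e (nat_lit 426140) (nat_lit 3) (.e (nat_lit 204869) (nat_lit 29) (.e (nat_lit 360474) (nat_lit 8) (.e (nat_lit 557088) (nat_lit 12) (.e (nat_lit 164020) (nat_lit 45) (.e (nat_lit 696327) (nat_lit 5) .nil))))))) (.g (nat_lit 1) (.e (nat_lit 58731) (nat_lit 0) .nil) .nil))))))))) 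
(.nd (nat_lit 4) (.nd (nat_lit 5) (.nd (nat_lit 6) (.nd (nat_lit 7) (.nd (nat_lit 8) 
(.nd (nat_lit 9) 
(.lf (nat_lit 460813) (.g (nat_lit 4146) (.e (nat_lit 2844) (nat_lit 184) (.e (nat_lit 426436) (nat_lit 18) (.e (nat_lit 98335) (nat_lit 18) (.e (nat_lit 164332) (nat_lit 230) .nil)))) (.g (nat_lit 0) (.e (nat_lit 56240) (nat_lit 0) .nil) .nil))) 
(.lf (nat_lit 461325) (.g (nat_lit 3332) (.e (nat_lit 2872) (nat_lit 184) (.e (nat_lit 426125) (nat_lit 2) (.e (nat_lit 196666) (nat_lit 13) (.e (nat_lit 65610) (nat_lit 10) (.e (nat_lit 344129) (nat_lit 26) (.e (nat_lit 557090) (nat_lit 12) (.e (nat_lit 164019) (nat_lit 45) (.e (nat_lit 696326) (nat_lit 5) .nil)))))))) (.g (nat_lit 1) (.e (nat_lit 57326) (nat_lit 0) .nil) .nil)))) 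
(.nd (nat_lit 9) 
(.lf (nat_lit 461069) (.g (nat_lit 1050) (.e (nat_lit 2855) (nat_lit 184) (.e (nat_lit 426533) (nat_lit 28) (.e (nat_lit 344067) (nat_lit 0) (.e (nat_lit 2940) (nat_lit 184) (.e (nat_lit 426532) (nat_lit 28) (.e (nat_lit 344069) (nat_lit 0) .nil)))))) (.g (nat_lit 1) (.e (nat_lit 56739) (nat_lit 0) .nil) .nil))) 
(.lf (nat_lit 461581) (.g (nat_lit 5903) (.e (nat_lit 2887) (nat_lit 184) (.e (nat_lit 426135) (nat_lit 3) (.e (nat_lit 204869) (nat_lit 29) (.e (nat_lit 360475) (nat_lit 8) (.e (nat_lit 557091) (nat_lit 12) (.e (nat_lit 164017) (nat_lit 44) (.e (nat_lit 688138) (nat_lit 5) .nil))))))) (.g (nat_lit 1) (.e (nat_lit 57940) (nat_lit 0) .nil) .nil))))) (.nd (nat_lit 8) (.nd (nat_lit 9) 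
(.lf (nat_lit 460941) (.g (nat_lit 5499) (.e (nat_lit 2854) (nat_lit 184) (.e (nat_lit 426131) (nat_lit 3) (.e (nat_lit 204869) (nat_lit 29) (.e (nat_lit 360475) (nat_lit 8) (.e (nat_lit 557090) (nat_lit 12) (.e (nat_lit 164020) (nat_lit 45) (.e (nat_lit 696337) (nat_lit 5) .nil))))))) (.g (nat_lit 1) (.e (nat_lit 56512) (nat_lit 0) .nil) .nil))) 
(.lf (nat_lit 461453) (.g (nat_lit 3103) (.e (nat_lit 2878) (nat_lit 184) (.e (nat_lit 426125) (nat_lit 2) (.e (nat_lit 196666) (nat_lit 13) (.e (nat_lit 65617) (nat_lit 10) (.e (nat_lit 344132) (nat_lit 26) (.e (nat_lit 557094) (nat_lit 12) (.e (nat_lit 164018) (nat_lit 45) (.e (nat_lit 696329) (nat_lit 5) .nil)))))))) (.g (nat_lit 1) (.e (nat_lit 57690) (nat_lit 0) .nil) .nil)))) 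
(.nd (nat_lit 9) 
(.lf (nat_lit 461197) (.g (nat_lit 2358) (.e (nat_lit 2856) (nat_lit 184) (.e (nat_lit 426566) (nat_lit 34) (.e (nat_lit 393271) (nat_lit 23) (.e (nat_lit 426131) (nat_lit 3) (.e (nat_lit 204830) (nat_lit 18) .nil))))) (.g (nat_lit 0) (.e (nat_lit 56905) (nat_lit 0) .nil) .nil))) 
(.lf (nat_lit 461709) (.g (nat_lit 3181) (.e (nat_lit 2887) (nat_lit 184) (.e (nat_lit 426499) (nat_lit 27) (.e (nat_lit 336229) (nat_lit 14) (.e (nat_lit 401459) (nat_lit 13) (.e (nat_lit 483347) (nat_lit 17) (.e (nat_lit 7936) (nat_lit 357) .nil)))))) (.g (nat_lit 1) (.e (nat_lit 58433) (nat_lit 0) .nil) .nil)))))) (.nd (nat_lit 7) (.nd (nat_lit 8) (.nd (nat_lit 9) 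
(.lf (nat_lit 460877) (.g (nat_lit 2102) (.e (nat_lit 2848) (nat_lit 184) (.e (nat_lit 426540) (nat_lit 29) (.e (nat_lit 352262) (nat_lit 0) (.e (nat_lit 3632) (nat_lit 227) (.e (nat_lit 778323) (nat_lit 5) (.e (nat_lit 81664) (nat_lit 32) .nil)))))) (.g (nat_lit 1) (.e (nat_lit 56370) (nat_lit 0) .nil) .nil))) 
(.lf (nat_lit 461389) (.g (nat_lit 5270) (.e (nat_lit 2877) (nat_lit 184) (.e (nat_lit 426125) (nat_lit 2) (.e (nat_lit 196666) (nat_lit 13) (.e (nat_lit 65617) (nat_lit 10) (.e (nat_lit 344130) (nat_lit 26) (.e (nat_lit 557089) (nat_lit 12) (.e (nat_lit 164017) (nat_lit 44) (.e (nat_lit 688138) (nat_lit 5) .nil)))))))) (.g (nat_lit 1) (.e (nat_lit 57493) (nat_lit 0) .nil) .nil)))) 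
(.nd (nat_lit 9) 
(.lf (nat_lit 461133) (.g (nat_lit 2147) (.e (nat_lit 2856) (nat_lit 184) (.e (nat_lit 426402) (nat_lit 15) (.e (nat_lit 1859) (nat_lit 124) (.e (nat_lit 557098) (nat_lit 13) (.e (nat_lit 172115) (nat_lit 10) (.e (nat_lit 434231) (nat_lit 23) (.e (nat_lit 532481) (nat_lit 0) (.e (nat_lit 6654) (nat_lit 357) .nil)))))))) (.g (nat_lit 1) (.e (nat_lit 56831) (nat_lit 0) .nil) .nil))) 
(.lf (nat_lit 461645) (.g (nat_lit 1359) (.e (nat_lit 2887) (nat_lit 184) (.e (nat_lit 426212) (nat_lit 9) (.e (nat_lit 426528) (nat_lit 27) (.e (nat_lit 335894) (nat_lit 0) (.e (nat_lit 6722) (nat_lit 362) (.e (nat_lit 180268) (nat_lit 24) (.e (nat_lit 688139) (nat_lit 5) .nil))))))) (.g (nat_lit 1) (.e (nat_lit 58069) (nat_lit 0) .nil) .nil))))) (.nd (nat_lit 8) (.nd (nat_lit 9) 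
(.lf (nat_lit 461005) (.g (nat_lit 1744) (.e (nat_lit 2854) (nat_lit 184) (.e (nat_lit 426555) (nat_lit 32) (.e (nat_lit 376837) (nat_lit 0) (.e (nat_lit 3632) (nat_lit 227) (.e (nat_lit 778323) (nat_lit 5) .nil))))) (.g (nat_lit 0) (.e (nat_lit 56646) (nat_lit 0) .nil) .nil))) 
(.lf (nat_lit 461517) (.g (nat_lit 4179) (.e (nat_lit 2887) (nat_lit 184) (.e (nat_lit 426113) (nat_lit 2) (.e (nat_lit 196666) (nat_lit 13) (.e (nat_lit 65610) (nat_lit 10) (.e (nat_lit 344129) (nat_lit 26) (.e (nat_lit 557089) (nat_lit 12) (.e (nat_lit 164017) (nat_lit 44) (.e (nat_lit 688138) (nat_lit 5) .nil)))))))) (.g (nat_lit 1) (.e (nat_lit 57875) (nat_lit 0) .nil) .nil)))) 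
(.nd (nat_lit 9) 
(.lf (nat_lit 461261) (.g (nat_lit 4144) (.e (nat_lit 2858) (nat_lit 184) (.e (nat_lit 426436) (nat_lit 18) (.e (nat_lit 98335) (nat_lit 18) (.e (nat_lit 164332) (nat_lit 230) .nil)))) (.g (nat_lit 0) (.e (nat_lit 57026) (nat_lit 0) .nil) .nil))) 
(.lf (nat_lit 461773) (.g (nat_lit 4239) (.e (nat_lit 2883) (nat_lit 184) (.e (nat_lit 426125) (nat_lit 2) (.e (nat_lit 196666) (nat_lit 13) (.e (nat_lit 65617) (nat_lit 10) (.e (nat_lit 344133) (nat_lit 26) (.e (nat_lit 557089) (nat_lit 12) (.e (nat_lit 164017) (nat_lit 44) (.e (nat_lit 688139) (nat_lit 5) .nil)))))))) (.g (nat_lit 1) (.e (nat_lit 58601) (nat_lit 0) .nil) .nil))))))) 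
(.nd (nat_lit 6) (.nd (nat_lit 7) (.nd (nat_lit 8) (.nd (nat_lit 9) 
(.lf (nat_lit 460845) (.g (nat_lit 3328) (.e (nat_lit 2845) (nat_lit 184) (.e (nat_lit 426566) (nat_lit 34) (.e (nat_lit 393253) (nat_lit 18) (.e (nat_lit 164326) (nat_lit 230) .nil)))) (.g (nat_lit 0) (.e (nat_lit 56300) (nat_lit 0) .nil) .nil))) 
(.lf (nat_lit 461357) (.g (nat_lit 2885) (.e (nat_lit 2876) (nat_lit 184) (.e (nat_lit 426125) (nat_lit 2) (.e (nat_lit 196666) (nat_lit 13) (.e (nat_lit 65610) (nat_lit 10) (.e (nat_lit 344129) (nat_lit 26) .nil))))) (.g (nat_lit 0) (.e (nat_lit 57411) (nat_lit 0) .nil) .nil)))) (.nd (nat_lit 9) 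
(.lf (nat_lit 461101) (.g (nat_lit 1651) (.e (nat_lit 2855) (nat_lit 184) (.e (nat_lit 426542) (nat_lit 29) (.e (nat_lit 352290) (nat_lit 20) (.e (nat_lit 2005) (nat_lit 138) (.e (nat_lit 671763) (nat_lit 5) (.e (nat_lit 73781) (nat_lit 32) .nil)))))) (.g (nat_lit 1) (.e (nat_lit 56791) (nat_lit 0) .nil) .nil))) 
(.lf (nat_lit 461613) (.g (nat_lit 2267) (.e (nat_lit 2887) (nat_lit 184) (.e (nat_lit 426170) (nat_lit 7) (.e (nat_lit 409648) (nat_lit 18) (.e (nat_lit 303137) (nat_lit 10) (.e (nat_lit 434275) (nat_lit 39) (.e (nat_lit 663580) (nat_lit 9) (.e (nat_lit 2416) (nat_lit 157) (.e (nat_lit 3459) (nat_lit 216) (.e (nat_lit 688139) (nat_lit 5) .nil))))))))) (.g (nat_lit 1) (.e (nat_lit 57977) (nat_lit 0) .nil) .nil))))) 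
(.nd (nat_lit 8) (.nd (nat_lit 9) 
(.lf (nat_lit 460973) (.g (nat_lit 3140) (.e (nat_lit 2854) (nat_lit 184) (.e (nat_lit 426438) (nat_lit 18) (.e (nat_lit 98367) (nat_lit 27) (.e (nat_lit 434248) (nat_lit 28) (.e (nat_lit 573482) (nat_lit 13) (.e (nat_lit 65644) (nat_lit 22) (.e (nat_lit 245769) (nat_lit 0) .nil))))))) (.g (nat_lit 1) (.e (nat_lit 56609) (nat_lit 0) .nil) .nil))) 
(.lf (nat_lit 461485) (.g (nat_lit 2861) (.e (nat_lit 2878) (nat_lit 184) (.e (nat_lit 426317) (nat_lit 12) (.e (nat_lit 475185) (nat_lit 29) (.e (nat_lit 557107) (nat_lit 15) (.e (nat_lit 188439) (nat_lit 20) (.e (nat_lit 3272) (nat_lit 199) (.e (nat_lit 548898) (nat_lit 14) .nil))))))) (.g (nat_lit 1) (.e (nat_lit 57809) (nat_lit 0) .nil) .nil)))) (.nd (nat_lit 9) 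
(.lf (nat_lit 461229) (.g (nat_lit 2303) (.e (nat_lit 2857) (nat_lit 184) (.e (nat_lit 426509) (nat_lit 27) (.e (nat_lit 336226) (nat_lit 14) (.e (nat_lit 401437) (nat_lit 9) (.e (nat_lit 426533) (nat_lit 28) (.e (nat_lit 344069) (nat_lit 0) .nil)))))) (.g (nat_lit 1) (.e (nat_lit 56980) (nat_lit 0) .nil) .nil))) 
(.lf (nat_lit 461741) (.g (nat_lit 3157) (.e (nat_lit 2892) (nat_lit 184) (.e (nat_lit 426125) (nat_lit 2) (.e (nat_lit 196666) (nat_lit 13) (.e (nat_lit 65617) (nat_lit 10) .nil)))) (.g (nat_lit 0) (.e (nat_lit 58520) (nat_lit 0) .nil) .nil)))))) (.nd (nat_lit 7) (.nd (nat_lit 8) (.nd (nat_lit 9) 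
(.lf (nat_lit 460909) (.g (nat_lit 2299) (.e (nat_lit 2851) (nat_lit 184) (.e (nat_lit 426566) (nat_lit 34) (.e (nat_lit 393271) (nat_lit 23) (.e (nat_lit 426438) (nat_lit 18) (.e (nat_lit 98335) (nat_lit 18) .nil))))) (.g (nat_lit 0) (.e (nat_lit 56433) (nat_lit 0) .nil) .nil))) 
(.lf (nat_lit 461421) (.g (nat_lit 4949) (.e (nat_lit 2877) (nat_lit 184) (.e (nat_lit 426125) (nat_lit 2) (.e (nat_lit 196666) (nat_lit 13) (.e (nat_lit 65617) (nat_lit 10) (.e (nat_lit 344133) (nat_lit 26) (.e (nat_lit 557091) (nat_lit 12) (.e (nat_lit 164016) (nat_lit 44) (.e (nat_lit 688141) (nat_lit 5) .nil)))))))) (.g (nat_lit 1) (.e (nat_lit 57525) (nat_lit 0) .nil) .nil)))) 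
(.nd (nat_lit 9) 
(.lf (nat_lit 461165) (.g (nat_lit 3775) (.e (nat_lit 2856) (nat_lit 184) (.e (nat_lit 426530) (nat_lit 27) (.e (nat_lit 336235) (nat_lit 14) (.e (nat_lit 401437) (nat_lit 9) (.e (nat_lit 426533) (nat_lit 28) (.e (nat_lit 344068) (nat_lit 0) .nil)))))) (.g (nat_lit 1) (.e (nat_lit 56871) (nat_lit 0) .nil) .nil))) 
(.lf (nat_lit 461677) (.g (nat_lit 2059) (.e (nat_lit 2887) (nat_lit 184) (.e (nat_lit 426412) (nat_lit 15) (.e (nat_lit 1856) (nat_lit 124) (.e (nat_lit 557098) (nat_lit 13) .nil)))) (.g (nat_lit 0) (.e (nat_lit 58380) (nat_lit 0) .nil) .nil))))) (.nd (nat_lit 8) (.nd (nat_lit 9) 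
(.lf (nat_lit 461037) (.g (nat_lit 4292) (.e (nat_lit 2855) (nat_lit 184) (.e (nat_lit 426402) (nat_lit 15) (.e (nat_lit 1848) (nat_lit 124) (.e (nat_lit 557097) (nat_lit 13) (.e (nat_lit 172115) (nat_lit 10) (.e (nat_lit 434231) (nat_lit 23) (.e (nat_lit 532490) (nat_lit 0) (.e (nat_lit 6680) (nat_lit 357) .nil)))))))) (.g (nat_lit 1) (.e (nat_lit 56707) (nat_lit 0) .nil) .nil))) 
(.lf (nat_lit 461549) (.g (nat_lit 3056) (.e (nat_lit 2887) (nat_lit 184) (.e (nat_lit 426132) (nat_lit 3) (.e (nat_lit 204855) (nat_lit 26) (.e (nat_lit 336176) (nat_lit 10) (.e (nat_lit 344130) (nat_lit 26) (.e (nat_lit 557089) (nat_lit 12) (.e (nat_lit 164017) (nat_lit 44) (.e (nat_lit 688139) (nat_lit 5) .nil)))))))) (.g (nat_lit 1) (.e (nat_lit 57907) (nat_lit 0) .nil) .nil)))) 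
(.nd (nat_lit 9) 
(.lf (nat_lit 461293) (.g (nat_lit 921) (.e (nat_lit 2862) (nat_lit 184) (.e (nat_lit 426543) (nat_lit 29) (.e (nat_lit 352266) (nat_lit 0) (.e (nat_lit 3630) (nat_lit 227) (.e (nat_lit 778323) (nat_lit 5) (.e (nat_lit 81664) (nat_lit 32) .nil)))))) (.g (nat_lit 1) (.e (nat_lit 57140) (nat_lit 0) .nil) .nil))) 
(.lf (nat_lit 461805) (.g (nat_lit 4274) (.e (nat_lit 2884) (nat_lit 184) (.e (nat_lit 426140) (nat_lit 3) (.e (nat_lit 204868) (nat_lit 29) (.e (nat_lit 360475) (nat_lit 8) (.e (nat_lit 557091) (nat_lit 12) (.e (nat_lit 164020) (nat_lit 45) (.e (nat_lit 696330) (nat_lit 5) .nil))))))) (.g (nat_lit 1) (.e (nat_lit 58722) (nat_lit 0) .nil) .nil)))))))) 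
(.nd (nat_lit 5) (.nd (nat_lit 6) (.nd (nat_lit 7) (.nd (nat_lit 8) (.nd (nat_lit 9) 
(.lf (nat_lit 460829) (.g (nat_lit 3916) (.e (nat_lit 2845) (nat_lit 184) (.e (nat_lit 426436) (nat_lit 18) (.e (nat_lit 98335) (nat_lit 18) (.e (nat_lit 164330) (nat_lit 230) .nil)))) (.g (nat_lit 0) (.e (nat_lit 56273) (nat_lit 0) .nil) .nil))) 
(.lf (nat_lit 461341) (.g (nat_lit 2592) (.e (nat_lit 2873) (nat_lit 184) (.e (nat_lit 426140) (nat_lit 3) (.e (nat_lit 204869) (nat_lit 29) (.e (nat_lit 360474) (nat_lit 8) (.e (nat_lit 557094) (nat_lit 12) .nil))))) (.g (nat_lit 0) (.e (nat_lit 57362) (nat_lit 0) .nil) .nil)))) (.nd (nat_lit 9) 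
(.lf (nat_lit 461085) (.g (nat_lit 2782) (.e (nat_lit 2855) (nat_lit 184) (.e (nat_lit 426540) (nat_lit 29) (.e (nat_lit 352262) (nat_lit 0) (.e (nat_lit 3632) (nat_lit 227) (.e (nat_lit 778324) (nat_lit 5) (.e (nat_lit 73781) (nat_lit 32) .nil)))))) (.g (nat_lit 1) (.e (nat_lit 56775) (nat_lit 0) .nil) .nil))) 
(.lf (nat_lit 461597) (.g (nat_lit 4396) (.e (nat_lit 2887) (nat_lit 184) (.e (nat_lit 426140) (nat_lit 3) (.e (nat_lit 204855) (nat_lit 26) (.e (nat_lit 336176) (nat_lit 10) (.e (nat_lit 344133) (nat_lit 26) (.e (nat_lit 557089) (nat_lit 12) (.e (nat_lit 164017) (nat_lit 44) (.e (nat_lit 688139) (nat_lit 5) .nil)))))))) (.g (nat_lit 1) (.e (nat_lit 57956) (nat_lit 0) .nil) .nil))))) 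
(.nd (nat_lit 8) (.nd (nat_lit 9) 
(.lf (nat_lit 460957) (.g (nat_lit 4138) (.e (nat_lit 2854) (nat_lit 184) (.e (nat_lit 426436) (nat_lit 18) (.e (nat_lit 98335) (nat_lit 18) (.e (nat_lit 164325) (nat_lit 230) .nil)))) (.g (nat_lit 0) (.e (nat_lit 56579) (nat_lit 0) .nil) .nil))) 
(.lf (nat_lit 461469) (.g (nat_lit 3263) (.e (nat_lit 2878) (nat_lit 184) (.e (nat_lit 426140) (nat_lit 3) (.e (nat_lit 204868) (nat_lit 29) (.e (nat_lit 360475) (nat_lit 8) (.e (nat_lit 557091) (nat_lit 12) (.e (nat_lit 164018) (nat_lit 45) (.e (nat_lit 696330) (nat_lit 5) .nil))))))) (.g (nat_lit 1) (.e (nat_lit 57721) (nat_lit 0) .nil) .nil)))) (.nd (nat_lit 9) 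
(.lf (nat_lit 461213) (.g (nat_lit 2192) (.e (nat_lit 2857) (nat_lit 184) (.e (nat_lit 426482) (nat_lit 27) (.e (nat_lit 336198) (nat_lit 12) (.e (nat_lit 385093) (nat_lit 49) (.e (nat_lit 778323) (nat_lit 5) (.e (nat_lit 73781) (nat_lit 32) .nil)))))) (.g (nat_lit 1) (.e (nat_lit 56959) (nat_lit 0) .nil) .nil))) 
(.lf (nat_lit 461725) (.g (nat_lit 4323) (.e (nat_lit 2888) (nat_lit 184) (.e (nat_lit 426135) (nat_lit 3) (.e (nat_lit 204869) (nat_lit 29) (.e (nat_lit 360474) (nat_lit 8) (.e (nat_lit 557091) (nat_lit 12) .nil))))) (.g (nat_lit 0) (.e (nat_lit 58461) (nat_lit 0) .nil) .nil)))))) (.nd (nat_lit 7) (.nd (nat_lit 8) (.nd (nat_lit 9) 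
(.lf (nat_lit 460893) (.g (nat_lit 1876) (.e (nat_lit 2849) (nat_lit 184) (.e (nat_lit 426566) (nat_lit 34) (.e (nat_lit 393271) (nat_lit 23) (.e (nat_lit 426438) (nat_lit 18) .nil)))) (.g (nat_lit 0) (.e (nat_lit 56404) (nat_lit 0) .nil) .nil))) 
(.lf (nat_lit 461405) (.g (nat_lit 2541) (.e (nat_lit 2877) (nat_lit 184) (.e (nat_lit 426125) (nat_lit 2) (.e (nat_lit 196666) (nat_lit 13) (.e (nat_lit 65617) (nat_lit 10) (.e (nat_lit 344132) (nat_lit 26) (.e (nat_lit 557093) (nat_lit 12) (.e (nat_lit 164016) (nat_lit 44) (.e (nat_lit 688138) (nat_lit 5) .nil)))))))) (.g (nat_lit 1) (.e (nat_lit 57509) (nat_lit 0) .nil) .nil)))) 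
(.nd (nat_lit 9) 
(.lf (nat_lit 461149) (.g (nat_lit 2309) (.e (nat_lit 2856) (nat_lit 184) (.e (nat_lit 426482) (nat_lit 27) (.e (nat_lit 336193) (nat_lit 12) (.e (nat_lit 385094) (nat_lit 49) (.e (nat_lit 778323) (nat_lit 5) .nil))))) (.g (nat_lit 0) (.e (nat_lit 56854) (nat_lit 0) .nil) .nil))) 
(.lf (nat_lit 461661) (.g (nat_lit 1917) (.e (nat_lit 2887) (nat_lit 184) (.e (nat_lit 426217) (nat_lit 9) (.e (nat_lit 426528) (nat_lit 27) (.e (nat_lit 335894) (nat_lit 0) (.e (nat_lit 6724) (nat_lit 362) (.e (nat_lit 180268) (nat_lit 24) (.e (nat_lit 688139) (nat_lit 5) .nil))))))) (.g (nat_lit 1) (.e (nat_lit 58085) (nat_lit 0) .nil) .nil))))) (.nd (nat_lit 8) (.nd (nat_lit 9) 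
(.lf (nat_lit 461021) (.g (nat_lit 2455) (.e (nat_lit 2854) (nat_lit 184) (.e (nat_lit 426566) (nat_lit 34) (.e (nat_lit 393271) (nat_lit 23) (.e (nat_lit 426131) (nat_lit 3) (.e (nat_lit 204830) (nat_lit 18) (.e (nat_lit 57663) (nat_lit 152) (.e (nat_lit 2482) (nat_lit 157) .nil))))))) (.g (nat_lit 1) (.e (nat_lit 56662) (nat_lit 0) .nil) .nil))) 
(.lf (nat_lit 461533) (.g (nat_lit 2497) (.e (nat_lit 2887) (nat_lit 184) (.e (nat_lit 426117) (nat_lit 2) (.e (nat_lit 196666) (nat_lit 13) (.e (nat_lit 65617) (nat_lit 10) (.e (nat_lit 344130) (nat_lit 26) (.e (nat_lit 557090) (nat_lit 12) (.e (nat_lit 164016) (nat_lit 44) (.e (nat_lit 688139) (nat_lit 5) .nil)))))))) (.g (nat_lit 1) (.e (nat_lit 57891) (nat_lit 0) .nil) .nil)))) 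
(.nd (nat_lit 9) 
(.lf (nat_lit 461277) (.g (nat_lit 638) (.e (nat_lit 2862) (nat_lit 184) (.e (nat_lit 426436) (nat_lit 18) (.e (nat_lit 98386) (nat_lit 32) .nil))) (.g (nat_lit 0) (.e (nat_lit 57121) (nat_lit 0) .nil) .nil))) 
(.lf (nat_lit 461789) (.g (nat_lit 4823) (.e (nat_lit 2884) (nat_lit 184) (.e (nat_lit 426125) (nat_lit 2) (.e (nat_lit 196666) (nat_lit 13) (.e (nat_lit 65617) (nat_lit 10) (.e (nat_lit 344130) (nat_lit 26) (.e (nat_lit 557090) (nat_lit 12) (.e (nat_lit 164020) (nat_lit 45) (.e (nat_lit 696328) (nat_lit 5) .nil)))))))) (.g (nat_lit 1) (.e (nat_lit 58692) (nat_lit 0) .nil) .nil))))))) 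
(.nd (nat_lit 6) (.nd (nat_lit 7) (.nd (nat_lit 8) (.nd (nat_lit 9) 
(.lf (nat_lit 460861) (.g (nat_lit 2252) (.e (nat_lit 2846) (nat_lit 184) (.e (nat_lit 426566) (nat_lit 34) (.e (nat_lit 393271) (nat_lit 23) (.e (nat_lit 426131) (nat_lit 3) (.e (nat_lit 204830) (nat_lit 18) (.e (nat_lit 57663) (nat_lit 152) (.e (nat_lit 2457) (nat_lit 157) .nil))))))) (.g (nat_lit 1) (.e (nat_lit 56331) (nat_lit 0) .nil) .nil))) 
(.lf (nat_lit 461373) (.g (nat_lit 5138) (.e (nat_lit 2877) (nat_lit 184) (.e (nat_lit 426125) (nat_lit 2) (.e (nat_lit 196666) (nat_lit 13) (.e (nat_lit 65610) (nat_lit 10) (.e (nat_lit 344129) (nat_lit 26) (.e (nat_lit 557090) (nat_lit 12) (.e (nat_lit 164016) (nat_lit 44) (.e (nat_lit 688141) (nat_lit 5) .nil)))))))) (.g (nat_lit 1) (.e (nat_lit 57477) (nat_lit 0) .nil) .nil)))) 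
(.nd (nat_lit 9) 
(.lf (nat_lit 461117) (.g (nat_lit 4091) (.e (nat_lit 2855) (nat_lit 184) (.e (nat_lit 426566) (nat_lit 34) (.e (nat_lit 393253) (nat_lit 18) (.e (nat_lit 164332) (nat_lit 230) .nil)))) (.g (nat_lit 0) (.e (nat_lit 56808) (nat_lit 0) .nil) .nil))) 
(.lf (nat_lit 461629) (.g (nat_lit 2006) (.e (nat_lit 2887) (nat_lit 184) (.e (nat_lit 426195) (nat_lit 9) (.e (nat_lit 426482) (nat_lit 27) (.e (nat_lit 336060) (nat_lit 7) (.e (nat_lit 319504) (nat_lit 10) (.e (nat_lit 7936) (nat_lit 315) (.e (nat_lit 164017) (nat_lit 44) (.e (nat_lit 688138) (nat_lit 5) .nil)))))))) (.g (nat_lit 1) (.e (nat_lit 58038) (nat_lit 0) .nil) .nil))))) 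
(.nd (nat_lit 8) (.nd (nat_lit 9) 
(.lf (nat_lit 460989) (.g (nat_lit 2171) (.e (nat_lit 2854) (nat_lit 184) (.e (nat_lit 426533) (nat_lit 28) (.e (nat_lit 344069) (nat_lit 0) (.e (nat_lit 2856) (nat_lit 184) (.e (nat_lit 426533) (nat_lit 28) (.e (nat_lit 344069) (nat_lit 0) .nil)))))) (.g (nat_lit 1) (.e (nat_lit 56627) (nat_lit 0) .nil) .nil))) 
(.lf (nat_lit 461501) (.g (nat_lit 2826) (.e (nat_lit 2879) (nat_lit 184) (.e (nat_lit 426140) (nat_lit 3) (.e (nat_lit 204869) (nat_lit 29) (.e (nat_lit 360475) (nat_lit 8) (.e (nat_lit 557089) (nat_lit 12) .nil))))) (.g (nat_lit 0) (.e (nat_lit 57842) (nat_lit 0) .nil) .nil)))) (.nd (nat_lit 9) 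
(.lf (nat_lit 461245) (.g (nat_lit 1811) (.e (nat_lit 2857) (nat_lit 184) (.e (nat_lit 426542) (nat_lit 29) (.e (nat_lit 352307) (nat_lit 21) (.e (nat_lit 57872) (nat_lit 264) (.e (nat_lit 1210) (nat_lit 89) .nil))))) (.g (nat_lit 0) (.e (nat_lit 57004) (nat_lit 0) .nil) .nil))) 
(.lf (nat_lit 461757) (.g (nat_lit 2494) (.e (nat_lit 2882) (nat_lit 184) (.e (nat_lit 426140) (nat_lit 3) (.e (nat_lit 204869) (nat_lit 29) (.e (nat_lit 360474) (nat_lit 8) (.e (nat_lit 557094) (nat_lit 12) .nil))))) (.g (nat_lit 0) (.e (nat_lit 58570) (nat_lit 0) .nil) .nil)))))) (.nd (nat_lit 7) (.nd (nat_lit 8) (.nd (nat_lit 9) 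
(.lf (nat_lit 460925) (.g (nat_lit 4810) (.e (nat_lit 2853) (nat_lit 184) (.e (nat_lit 426436) (nat_lit 18) (.e (nat_lit 98335) (nat_lit 18) (.e (nat_lit 164327) (nat_lit 230) .nil)))) (.g (nat_lit 0) (.e (nat_lit 56475) (nat_lit 0) .nil) .nil))) 
(.lf (nat_lit 461437) (.g (nat_lit 2952) (.e (nat_lit 2878) (nat_lit 184) (.e (nat_lit 426125) (nat_lit 2) (.e (nat_lit 196666) (nat_lit 13) (.e (nat_lit 65617) (nat_lit 10) (.e (nat_lit 344130) (nat_lit 26) .nil))))) (.g (nat_lit 0) (.e (nat_lit 57662) (nat_lit 0) .nil) .nil)))) (.nd (nat_lit 9) 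
(.lf (nat_lit 461181) (.g (nat_lit 1981) (.e (nat_lit 2856) (nat_lit 184) (.e (nat_lit 426540) (nat_lit 29) (.e (nat_lit 352262) (nat_lit 0) (.e (nat_lit 3631) (nat_lit 227) (.e (nat_lit 778324) (nat_lit 5) (.e (nat_lit 73781) (nat_lit 32) .nil)))))) (.g (nat_lit 1) (.e (nat_lit 56887) (nat_lit 0) .nil) .nil))) 
(.lf (nat_lit 461693) (.g (nat_lit 3147) (.e (nat_lit 2887) (nat_lit 184) (.e (nat_lit 426412) (nat_lit 15) (.e (nat_lit 1856) (nat_lit 124) (.e (nat_lit 557101) (nat_lit 13) (.e (nat_lit 172115) (nat_lit 10) (.e (nat_lit 434231) (nat_lit 23) (.e (nat_lit 532482) (nat_lit 0) (.e (nat_lit 6626) (nat_lit 357) .nil)))))))) (.g (nat_lit 1) (.e (nat_lit 58396) (nat_lit 0) .nil) .nil))))) 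
(.nd (nat_lit 8) (.nd (nat_lit 9) 
(.lf (nat_lit 461053) (.g (nat_lit 2759) (.e (nat_lit 2855) (nat_lit 184) (.e (nat_lit 426402) (nat_lit 15) (.e (nat_lit 1859) (nat_lit 124) (.e (nat_lit 557107) (nat_lit 15) (.e (nat_lit 188447) (nat_lit 22) (.e (nat_lit 196661) (nat_lit 12) (.e (nat_lit 57750) (nat_lit 201) .nil))))))) (.g (nat_lit 1) (.e (nat_lit 56723) (nat_lit 0) .nil) .nil))) 
(.lf (nat_lit 461565) (.g (nat_lit 3150) (.e (nat_lit 2887) (nat_lit 184) (.e (nat_lit 426134) (nat_lit 3) (.e (nat_lit 204869) (nat_lit 29) (.e (nat_lit 360474) (nat_lit 8) (.e (nat_lit 557094) (nat_lit 12) (.e (nat_lit 164016) (nat_lit 44) (.e (nat_lit 688138) (nat_lit 5) .nil))))))) (.g (nat_lit 1) (.e (nat_lit 57923) (nat_lit 0) .nil) .nil)))) (.nd (nat_lit 9) 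
(.lf (nat_lit 461309) (.g (nat_lit 2079) (.e (nat_lit 2862) (nat_lit 184) (.e (nat_lit 426568) (nat_lit 34) (.e (nat_lit 393283) (nat_lit 24) (.e (nat_lit 434247) (nat_lit 28) (.e (nat_lit 573475) (nat_lit 12) (.e (nat_lit 57503) (nat_lit 38) (.e (nat_lit 638985) (nat_lit 5) .nil))))))) (.g (nat_lit 1) (.e (nat_lit 57164) (nat_lit 0) .nil) .nil))) 
(.lf (nat_lit 461821) (.g (nat_lit 3261) (.e (nat_lit 2884) (nat_lit 184) (.e (nat_lit 426317) (nat_lit 12) (.e (nat_lit 475185) (nat_lit 29) (.e (nat_lit 557107) (nat_lit 15) (.e (nat_lit 188440) (nat_lit 20) (.e (nat_lit 3271) (nat_lit 199) (.e (nat_lit 548898) (nat_lit 14) .nil))))))) (.g (nat_lit 1) (.e (nat_lit 58767) (nat_lit 0) .nil) .nil))))))))))) 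
(.nd (nat_lit 2) (.nd (nat_lit 3) (.nd (nat_lit 4) (.nd (nat_lit 5) (.nd (nat_lit 6) 
(.nd (nat_lit 7) (.nd (nat_lit 8) (.nd (nat_lit 9) 
(.lf (nat_lit 460803) (.g (nat_lit 1876) (.e (nat_lit 2842) (nat_lit 184) (.e (nat_lit 426566) (nat_lit 34) (.e (nat_lit 393271) (nat_lit 23) (.e (nat_lit 426438) (nat_lit 18) .nil)))) (.g (nat_lit 0) (.e (nat_lit 56217) (nat_lit 0) .nil) .nil))) 
(.lf (nat_lit 461315) (.g (nat_lit 4099) (.e (nat_lit 2868) (nat_lit 184) (.e (nat_lit 426211) (nat_lit 9) (.e (nat_lit 426125) (nat_lit 2) (.e (nat_lit 196630) (nat_lit 9) (.e (nat_lit 1401) (nat_lit 106) .nil))))) (.g (nat_lit 0) (.e (nat_lit 57225) (nat_lit 0) .nil) .nil)))) (.nd (nat_lit 9) 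
(.lf (nat_lit 461059) (.g (nat_lit 4146) (.e (nat_lit 2855) (nat_lit 184) (.e (nat_lit 426436) (nat_lit 18) (.e (nat_lit 98335) (nat_lit 18) (.e (nat_lit 164332) (nat_lit 230) .nil)))) (.g (nat_lit 0) (.e (nat_lit 56729) (nat_lit 0) .nil) .nil))) 
(.lf (nat_lit 461571) (.g (nat_lit 3197) (.e (nat_lit 2887) (nat_lit 184) (.e (nat_lit 426135) (nat_lit 3) (.e (nat_lit 204868) (nat_lit 29) (.e (nat_lit 360473) (nat_lit 8) (.e (nat_lit 557089) (nat_lit 12) (.e (nat_lit 164017) (nat_lit 44) (.e (nat_lit 688139) (nat_lit 5) .nil))))))) (.g (nat_lit 1) (.e (nat_lit 57930) (nat_lit 0) .nil) .nil))))) (.nd (nat_lit 8) (.nd (nat_lit 9) 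
(.lf (nat_lit 460931) (.g (nat_lit 2687) (.e (nat_lit 2853) (nat_lit 184) (.e (nat_lit 426566) (nat_lit 34) (.e (nat_lit 393271) (nat_lit 23) (.e (nat_lit 426436) (nat_lit 18) (.e (nat_lit 98334) (nat_lit 18) .nil))))) (.g (nat_lit 0) (.e (nat_lit 56493) (nat_lit 0) .nil) .nil))) 
(.lf (nat_lit 461443) (.g (nat_lit 3027) (.e (nat_lit 2878) (nat_lit 184) (.e (nat_lit 426125) (nat_lit 2) (.e (nat_lit 196666) (nat_lit 13) (.e (nat_lit 65617) (nat_lit 10) (.e (nat_lit 344130) (nat_lit 26) (.e (nat_lit 557090) (nat_lit 12) (.e (nat_lit 164019) (nat_lit 45) (.e (nat_lit 696330) (nat_lit 5) .nil)))))))) (.g (nat_lit 1) (.e (nat_lit 57676) (nat_lit 0) .nil) .nil)))) 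
(.nd (nat_lit 9) 
(.lf (nat_lit 461187) (.g (nat_lit 2462) (.e (nat_lit 2856) (nat_lit 184) (.e (nat_lit 426542) (nat_lit 29) (.e (nat_lit 352318) (nat_lit 24) (.e (nat_lit 123197) (nat_lit 266) (.e (nat_lit 57421) (nat_lit 13) (.e (nat_lit 344068) (nat_lit 0) .nil)))))) (.g (nat_lit 1) (.e (nat_lit 56893) (nat_lit 0) .nil) .nil))) 
(.lf (nat_lit 461699) (.g (nat_lit 3183) (.e (nat_lit 2887) (nat_lit 184) (.e (nat_lit 426412) (nat_lit 15) (.e (nat_lit 1856) (nat_lit 124) (.e (nat_lit 557108) (nat_lit 15) (.e (nat_lit 188452) (nat_lit 23) (.e (nat_lit 204817) (nat_lit 17) (.e (nat_lit 7936) (nat_lit 357) .nil))))))) (.g (nat_lit 1) (.e (nat_lit 58402) (nat_lit 0) .nil) .nil)))))) 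
(.nd (nat_lit 7) (.nd (nat_lit 8) (.nd (nat_lit 9) 
(.lf (nat_lit 460867) (.g (nat_lit 1748) (.e (nat_lit 2847) (nat_lit 184) (.e (nat_lit 426436) (nat_lit 18) (.e (nat_lit 98358) (nat_lit 26) (.e (nat_lit 426428) (nat_lit 17) .nil)))) (.g (nat_lit 0) (.e (nat_lit 56342) (nat_lit 0) .nil) .nil))) 
(.lf (nat_lit 461379) (.g (nat_lit 2264) (.e (nat_lit 2877) (nat_lit 184) (.e (nat_lit 426125) (nat_lit 2) (.e (nat_lit 196666) (nat_lit 13) (.e (nat_lit 65617) (nat_lit 10) (.e (nat_lit 344127) (nat_lit 26) .nil))))) (.g (nat_lit 0) (.e (nat_lit 57483) (nat_lit 0) .nil) .nil)))) (.nd (nat_lit 9) 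
(.lf (nat_lit 461123) (.g (nat_lit 1929) (.e (nat_lit 2856) (nat_lit 184) (.e (nat_lit 426364) (nat_lit 15) (.e (nat_lit 1859) (nat_lit 124) (.e (nat_lit 557098) (nat_lit 13) (.e (nat_lit 172097) (nat_lit 9) (.e (nat_lit 426125) (nat_lit 2) (.e (nat_lit 196661) (nat_lit 12) (.e (nat_lit 57751) (nat_lit 201) .nil)))))))) (.g (nat_lit 1) (.e (nat_lit 56820) (nat_lit 0) .nil) .nil))) 
(.lf (nat_lit 461635) (.g (nat_lit 1768) (.e (nat_lit 2887) (nat_lit 184) (.e (nat_lit 426208) (nat_lit 9) (.e (nat_lit 426528) (nat_lit 27) (.e (nat_lit 335894) (nat_lit 0) (.e (nat_lit 6724) (nat_lit 362) (.e (nat_lit 180268) (nat_lit 24) (.e (nat_lit 688139) (nat_lit 5) .nil))))))) (.g (nat_lit 1) (.e (nat_lit 58046) (nat_lit 0) .nil) .nil))))) (.nd (nat_lit 8) (.nd (nat_lit 9) 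
(.lf (nat_lit 460995) (.g (nat_lit 3067) (.e (nat_lit 2854) (nat_lit 184) (.e (nat_lit 426540) (nat_lit 29) (.e (nat_lit 352262) (nat_lit 0) (.e (nat_lit 3632) (nat_lit 227) (.e (nat_lit 778323) (nat_lit 5) (.e (nat_lit 73782) (nat_lit 32) .nil)))))) (.g (nat_lit 1) (.e (nat_lit 56636) (nat_lit 0) .nil) .nil))) 
(.lf (nat_lit 461507) (.g (nat_lit 3924) (.e (nat_lit 2886) (nat_lit 184) (.e (nat_lit 426125) (nat_lit 2) (.e (nat_lit 196666) (nat_lit 13) (.e (nat_lit 65617) (nat_lit 10) (.e (nat_lit 344130) (nat_lit 26) .nil))))) (.g (nat_lit 0) (.e (nat_lit 57853) (nat_lit 0) .nil) .nil)))) (.nd (nat_lit 9) 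
(.lf (nat_lit 461251) (.g (nat_lit 2109) (.e (nat_lit 2857) (nat_lit 184) (.e (nat_lit 426555) (nat_lit 32) (.e (nat_lit 376859) (nat_lit 21) (.e (nat_lit 57871) (nat_lit 264) (.e (nat_lit 1209) (nat_lit 89) .nil))))) (.g (nat_lit 0) (.e (nat_lit 57012) (nat_lit 0) .nil) .nil))) 
(.lf (nat_lit 461763) (.g (nat_lit 1761) (.e (nat_lit 2882) (nat_lit 184) (.e (nat_lit 426317) (nat_lit 12) (.e (nat_lit 475185) (nat_lit 29) (.e (nat_lit 557105) (nat_lit 14) (.e (nat_lit 180277) (nat_lit 32) .nil))))) (.g (nat_lit 0) (.e (nat_lit 58579) (nat_lit 0) .nil) .nil))))))) (.nd (nat_lit 6) (.nd (nat_lit 7) (.nd (nat_lit 8) (.nd (nat_lit 9) 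
(.lf (nat_lit 460835) (.g (nat_lit 828) (.e (nat_lit 2845) (nat_lit 184) (.e (nat_lit 426436) (nat_lit 18) (.e (nat_lit 98381) (nat_lit 31) .nil))) (.g (nat_lit 0) (.e (nat_lit 56279) (nat_lit 0) .nil) .nil))) 
(.lf (nat_lit 461347) (.g (nat_lit 2341) (.e (nat_lit 2873) (nat_lit 184) (.e (nat_lit 426340) (nat_lit 14) (.e (nat_lit 491537) (nat_lit 2) (.e (nat_lit 90178) (nat_lit 15) (.e (nat_lit 188441) (nat_lit 20) .nil))))) (.g (nat_lit 0) (.e (nat_lit 57376) (nat_lit 0) .nil) .nil)))) (.nd (nat_lit 9) 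
(.lf (nat_lit 461091) (.g (nat_lit 2166) (.e (nat_lit 2855) (nat_lit 184) (.e (nat_lit 426542) (nat_lit 29) (.e (nat_lit 352265) (nat_lit 0) (.e (nat_lit 3632) (nat_lit 227) (.e (nat_lit 778323) (nat_lit 5) (.e (nat_lit 73781) (nat_lit 32) .nil)))))) (.g (nat_lit 1) (.e (nat_lit 56781) (nat_lit 0) .nil) .nil))) 
(.lf (nat_lit 461603) (.g (nat_lit 2311) (.e (nat_lit 2887) (nat_lit 184) (.e (nat_lit 426140) (nat_lit 3) (.e (nat_lit 204869) (nat_lit 29) (.e (nat_lit 360475) (nat_lit 8) (.e (nat_lit 557089) (nat_lit 12) .nil))))) (.g (nat_lit 0) (.e (nat_lit 57962) (nat_lit 0) .nil) .nil))))) (.nd (nat_lit 8) (.nd (nat_lit 9) 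
(.lf (nat_lit 460963) (.g (nat_lit 3037) (.e (nat_lit 2854) (nat_lit 184) (.e (nat_lit 426436) (nat_lit 18) (.e (nat_lit 98356) (nat_lit 26) (.e (nat_lit 426428) (nat_lit 17) (.e (nat_lit 90174) (nat_lit 14) (.e (nat_lit 180248) (nat_lit 9) (.e (nat_lit 565275) (nat_lit 9) .nil))))))) (.g (nat_lit 1) (.e (nat_lit 56587) (nat_lit 0) .nil) .nil))) 
(.lf (nat_lit 461475) (.g (nat_lit 3088) (.e (nat_lit 2878) (nat_lit 184) (.e (nat_lit 426211) (nat_lit 9) (.e (nat_lit 426125) (nat_lit 2) (.e (nat_lit 196625) (nat_lit 9) .nil)))) (.g (nat_lit 0) (.e (nat_lit 57799) (nat_lit 0) .nil) .nil)))) (.nd (nat_lit 9) 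
(.lf (nat_lit 461219) (.g (nat_lit 586) (.e (nat_lit 2857) (nat_lit 184) (.e (nat_lit 426482) (nat_lit 27) (.e (nat_lit 336228) (nat_lit 14) .nil))) (.g (nat_lit 0) (.e (nat_lit 56967) (nat_lit 0) .nil) .nil))) 
(.lf (nat_lit 461731) (.g (nat_lit 1396) (.e (nat_lit 2888) (nat_lit 184) (.e (nat_lit 426312) (nat_lit 12) (.e (nat_lit 475185) (nat_lit 29) (.e (nat_lit 557101) (nat_lit 13) (.e (nat_lit 172115) (nat_lit 10) .nil))))) (.g (nat_lit 0) (.e (nat_lit 58467) (nat_lit 0) .nil) .nil)))))) (.nd (nat_lit 7) (.nd (nat_lit 8) (.nd (nat_lit 9) 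
(.lf (nat_lit 460899) (.g (nat_lit 4114) (.e (nat_lit 2851) (nat_lit 184) (.e (nat_lit 426436) (nat_lit 18) (.e (nat_lit 98335) (nat_lit 18) (.e (nat_lit 164330) (nat_lit 230) .nil)))) (.g (nat_lit 0) (.e (nat_lit 56416) (nat_lit 0) .nil) .nil))) 
(.lf (nat_lit 461411) (.g (nat_lit 4353) (.e (nat_lit 2877) (nat_lit 184) (.e (nat_lit 426125) (nat_lit 2) (.e (nat_lit 196666) (nat_lit 13) (.e (nat_lit 65617) (nat_lit 10) (.e (nat_lit 344132) (nat_lit 26) (.e (nat_lit 557094) (nat_lit 12) (.e (nat_lit 164016) (nat_lit 44) (.e (nat_lit 688141) (nat_lit 5) .nil)))))))) (.g (nat_lit 1) (.e (nat_lit 57515) (nat_lit 0) .nil) .nil)))) 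
(.nd (nat_lit 9) 
(.lf (nat_lit 461155) (.g (nat_lit 4100) (.e (nat_lit 2856) (nat_lit 184) (.e (nat_lit 426509) (nat_lit 27) (.e (nat_lit 336193) (nat_lit 12) (.e (nat_lit 385094) (nat_lit 49) (.e (nat_lit 778323) (nat_lit 5) (.e (nat_lit 73782) (nat_lit 32) .nil)))))) (.g (nat_lit 1) (.e (nat_lit 56861) (nat_lit 0) .nil) .nil))) 
(.lf (nat_lit 461667) (.g (nat_lit 1285) (.e (nat_lit 2887) (nat_lit 184) (.e (nat_lit 426305) (nat_lit 12) (.e (nat_lit 475211) (nat_lit 41) (.e (nat_lit 712755) (nat_lit 30) .nil)))) (.g (nat_lit 0) (.e (nat_lit 58265) (nat_lit 0) .nil) .nil))))) (.nd (nat_lit 8) (.nd (nat_lit 9) 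
(.lf (nat_lit 461027) (.g (nat_lit 1998) (.e (nat_lit 2854) (nat_lit 184) (.e (nat_lit 426566) (nat_lit 34) (.e (nat_lit 393294) (nat_lit 26) (.e (nat_lit 475177) (nat_lit 24) .nil)))) (.g (nat_lit 0) (.e (nat_lit 56678) (nat_lit 0) .nil) .nil))) 
(.lf (nat_lit 461539) (.g (nat_lit 2764) (.e (nat_lit 2887) (nat_lit 184) (.e (nat_lit 426118) (nat_lit 2) (.e (nat_lit 196666) (nat_lit 13) (.e (nat_lit 65617) (nat_lit 10) (.e (nat_lit 344133) (nat_lit 26) (.e (nat_lit 557091) (nat_lit 12) (.e (nat_lit 164017) (nat_lit 44) (.e (nat_lit 688138) (nat_lit 5) .nil)))))))) (.g (nat_lit 1) (.e (nat_lit 57897) (nat_lit 0) .nil) .nil)))) 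
(.nd (nat_lit 9) 
(.lf (nat_lit 461283) (.g (nat_lit 1835) (.e (nat_lit 2862) (nat_lit 184) (.e (nat_lit 426506) (nat_lit 27) (.e (nat_lit 336178) (nat_lit 10) (.e (nat_lit 344169) (nat_lit 40) (.e (nat_lit 671763) (nat_lit 5) (.e (nat_lit 81664) (nat_lit 32) .nil)))))) (.g (nat_lit 1) (.e (nat_lit 57130) (nat_lit 0) .nil) .nil))) 
(.lf (nat_lit 461795) (.g (nat_lit 950) (.e (nat_lit 2884) (nat_lit 184) (.e (nat_lit 426140) (nat_lit 3) (.e (nat_lit 204868) (nat_lit 29) (.e (nat_lit 360473) (nat_lit 8) .nil)))) (.g (nat_lit 0) (.e (nat_lit 58711) (nat_lit 0) .nil) .nil)))))))) (.nd (nat_lit 5) (.nd (nat_lit 6) (.nd (nat_lit 7) (.nd (nat_lit 8) (.nd (nat_lit 9) 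
(.lf (nat_lit 460819) (.g (nat_lit 2174) (.e (nat_lit 2844) (nat_lit 184) (.e (nat_lit 426568) (nat_lit 34) (.e (nat_lit 393271) (nat_lit 23) (.e (nat_lit 426131) (nat_lit 3) (.e (nat_lit 204830) (nat_lit 18) (.e (nat_lit 57663) (nat_lit 152) (.e (nat_lit 2416) (nat_lit 157) .nil))))))) (.g (nat_lit 1) (.e (nat_lit 56256) (nat_lit 0) .nil) .nil))) 
(.lf (nat_lit 461331) (.g (nat_lit 2640) (.e (nat_lit 2873) (nat_lit 184) (.e (nat_lit 426125) (nat_lit 2) (.e (nat_lit 196666) (nat_lit 13) (.e (nat_lit 65610) (nat_lit 10) (.e (nat_lit 344129) (nat_lit 26) .nil))))) (.g (nat_lit 0) (.e (nat_lit 57351) (nat_lit 0) .nil) .nil)))) (.nd (nat_lit 9) 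
(.lf (nat_lit 461075) (.g (nat_lit 2389) (.e (nat_lit 2855) (nat_lit 184) (.e (nat_lit 426533) (nat_lit 28) (.e (nat_lit 344069) (nat_lit 0) (.e (nat_lit 2856) (nat_lit 184) (.e (nat_lit 426533) (nat_lit 28) (.e (nat_lit 344068) (nat_lit 0) .nil)))))) (.g (nat_lit 1) (.e (nat_lit 56752) (nat_lit 0) .nil) .nil))) 
(.lf (nat_lit 461587) (.g (nat_lit 2706) (.e (nat_lit 2887) (nat_lit 184) (.e (nat_lit 426136) (nat_lit 3) (.e (nat_lit 204869) (nat_lit 29) (.e (nat_lit 360474) (nat_lit 8) (.e (nat_lit 557094) (nat_lit 12) (.e (nat_lit 164016) (nat_lit 44) (.e (nat_lit 688138) (nat_lit 5) .nil))))))) (.g (nat_lit 1) (.e (nat_lit 57946) (nat_lit 0) .nil) .nil))))) (.nd (nat_lit 8) (.nd (nat_lit 9) 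
(.lf (nat_lit 460947) (.g (nat_lit 2687) (.e (nat_lit 2854) (nat_lit 184) (.e (nat_lit 426320) (nat_lit 12) (.e (nat_lit 475207) (nat_lit 41) (.e (nat_lit 712755) (nat_lit 30) (.e (nat_lit 450563) (nat_lit 0) (.e (nat_lit 5537) (nat_lit 306) (.e (nat_lit 2478) (nat_lit 157) .nil))))))) (.g (nat_lit 1) (.e (nat_lit 56543) (nat_lit 0) .nil) .nil))) 
(.lf (nat_lit 461459) (.g (nat_lit 3883) (.e (nat_lit 2878) (nat_lit 184) (.e (nat_lit 426125) (nat_lit 2) (.e (nat_lit 196666) (nat_lit 13) (.e (nat_lit 65617) (nat_lit 10) (.e (nat_lit 344133) (nat_lit 26) (.e (nat_lit 557091) (nat_lit 12) (.e (nat_lit 164018) (nat_lit 45) (.e (nat_lit 696327) (nat_lit 5) .nil)))))))) (.g (nat_lit 1) (.e (nat_lit 57704) (nat_lit 0) .nil) .nil)))) 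
(.nd (nat_lit 9) 
(.lf (nat_lit 461203) (.g (nat_lit 3357) (.e (nat_lit 2857) (nat_lit 184) (.e (nat_lit 426402) (nat_lit 15) (.e (nat_lit 1849) (nat_lit 124) (.e (nat_lit 557109) (nat_lit 15) (.e (nat_lit 188449) (nat_lit 22) (.e (nat_lit 196661) (nat_lit 12) (.e (nat_lit 57751) (nat_lit 201) .nil))))))) (.g (nat_lit 1) (.e (nat_lit 56917) (nat_lit 0) .nil) .nil))) 
(.lf (nat_lit 461715) (.g (nat_lit 2616) (.e (nat_lit 2887) (nat_lit 184) (.e (nat_lit 426499) (nat_lit 27) (.e (nat_lit 336231) (nat_lit 14) (.e (nat_lit 401458) (nat_lit 13) (.e (nat_lit 483347) (nat_lit 17) (.e (nat_lit 7936) (nat_lit 357) .nil)))))) (.g (nat_lit 1) (.e (nat_lit 58443) (nat_lit 0) .nil) .nil)))))) (.nd (nat_lit 7) (.nd (nat_lit 8) (.nd (nat_lit 9) 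
(.lf (nat_lit 460883) (.g (nat_lit 4809) (.e (nat_lit 2849) (nat_lit 184) (.e (nat_lit 426436) (nat_lit 18) (.e (nat_lit 98335) (nat_lit 18) (.e (nat_lit 164327) (nat_lit 230) .nil)))) (.g (nat_lit 0) (.e (nat_lit 56383) (nat_lit 0) .nil) .nil))) 
(.lf (nat_lit 461395) (.g (nat_lit 4653) (.e (nat_lit 2877) (nat_lit 184) (.e (nat_lit 426125) (nat_lit 2) (.e (nat_lit 196666) (nat_lit 13) (.e (nat_lit 65617) (nat_lit 10) (.e (nat_lit 344130) (nat_lit 26) (.e (nat_lit 557090) (nat_lit 12) (.e (nat_lit 164016) (nat_lit 44) (.e (nat_lit 688139) (nat_lit 5) .nil)))))))) (.g (nat_lit 1) (.e (nat_lit 57499) (nat_lit 0) .nil) .nil)))) 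
(.nd (nat_lit 9) 
(.lf (nat_lit 461139) (.g (nat_lit 4693) (.e (nat_lit 2856) (nat_lit 184) (.e (nat_lit 426436) (nat_lit 18) (.e (nat_lit 98335) (nat_lit 18) (.e (nat_lit 164326) (nat_lit 230) .nil)))) (.g (nat_lit 0) (.e (nat_lit 56837) (nat_lit 0) .nil) .nil))) 
(.lf (nat_lit 461651) (.g (nat_lit 1884) (.e (nat_lit 2887) (nat_lit 184) (.e (nat_lit 426216) (nat_lit 9) (.e (nat_lit 426528) (nat_lit 27) (.e (nat_lit 335894) (nat_lit 0) (.e (nat_lit 6722) (nat_lit 362) (.e (nat_lit 180268) (nat_lit 24) (.e (nat_lit 688139) (nat_lit 5) .nil))))))) (.g (nat_lit 1) (.e (nat_lit 58075) (nat_lit 0) .nil) .nil))))) (.nd (nat_lit 8) (.nd (nat_lit 9) 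
(.lf (nat_lit 461011) (.g (nat_lit 2053) (.e (nat_lit 2854) (nat_lit 184) (.e (nat_lit 426556) (nat_lit 32) (.e (nat_lit 376835) (nat_lit 0) (.e (nat_lit 3632) (nat_lit 227) (.e (nat_lit 778323) (nat_lit 5) (.e (nat_lit 73782) (nat_lit 32) .nil)))))) (.g (nat_lit 1) (.e (nat_lit 56652) (nat_lit 0) .nil) .nil))) 
(.lf (nat_lit 461523) (.g (nat_lit 4178) (.e (nat_lit 2887) (nat_lit 184) (.e (nat_lit 426113) (nat_lit 2) (.e (nat_lit 196666) (nat_lit 13) (.e (nat_lit 65617) (nat_lit 10) (.e (nat_lit 344130) (nat_lit 26) (.e (nat_lit 557089) (nat_lit 12) (.e (nat_lit 164017) (nat_lit 44) (.e (nat_lit 688138) (nat_lit 5) .nil)))))))) (.g (nat_lit 1) (.e (nat_lit 57881) (nat_lit 0) .nil) .nil)))) 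
(.nd (nat_lit 9) 
(.lf (nat_lit 461267) (.g (nat_lit 2134) (.e (nat_lit 2859) (nat_lit 184) (.e (nat_lit 426568) (nat_lit 34) (.e (nat_lit 393271) (nat_lit 23) (.e (nat_lit 426131) (nat_lit 3) (.e (nat_lit 204830) (nat_lit 18) .nil))))) (.g (nat_lit 0) (.e (nat_lit 57065) (nat_lit 0) .nil) .nil))) 
(.lf (nat_lit 461779) (.g (nat_lit 2378) (.e (nat_lit 2884) (nat_lit 184) (.e (nat_lit 426125) (nat_lit 2) (.e (nat_lit 196666) (nat_lit 13) (.e (nat_lit 65614) (nat_lit 10) .nil)))) (.g (nat_lit 0) (.e (nat_lit 58678) (nat_lit 0) .nil) .nil))))))) (.nd (nat_lit 6) (.nd (nat_lit 7) (.nd (nat_lit 8) (.nd (nat_lit 9) 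
(.lf (nat_lit 460851) (.g (nat_lit 1475) (.e (nat_lit 2845) (nat_lit 184) (.e (nat_lit 426568) (nat_lit 34) (.e (nat_lit 393271) (nat_lit 23) (.e (nat_lit 426131) (nat_lit 3) .nil)))) (.g (nat_lit 0) (.e (nat_lit 56310) (nat_lit 0) .nil) .nil))) 
(.lf (nat_lit 461363) (.g (nat_lit 2623) (.e (nat_lit 2876) (nat_lit 184) (.e (nat_lit 426140) (nat_lit 3) (.e (nat_lit 204869) (nat_lit 29) (.e (nat_lit 360474) (nat_lit 8) (.e (nat_lit 557094) (nat_lit 12) .nil))))) (.g (nat_lit 0) (.e (nat_lit 57424) (nat_lit 0) .nil) .nil)))) (.nd (nat_lit 9) 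
(.lf (nat_lit 461107) (.g (nat_lit 1527) (.e (nat_lit 2855) (nat_lit 184) (.e (nat_lit 426542) (nat_lit 29) (.e (nat_lit 352307) (nat_lit 21) (.e (nat_lit 57871) (nat_lit 264) (.e (nat_lit 1211) (nat_lit 89) .nil))))) (.g (nat_lit 0) (.e (nat_lit 56797) (nat_lit 0) .nil) .nil))) 
(.lf (nat_lit 461619) (.g (nat_lit 2117) (.e (nat_lit 2887) (nat_lit 184) (.e (nat_lit 426173) (nat_lit 7) (.e (nat_lit 409649) (nat_lit 18) (.e (nat_lit 303140) (nat_lit 10) (.e (nat_lit 434202) (nat_lit 18) .nil))))) (.g (nat_lit 0) (.e (nat_lit 57997) (nat_lit 0) .nil) .nil))))) (.nd (nat_lit 8) (.nd (nat_lit 9) 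
(.lf (nat_lit 460979) (.g (nat_lit 1941) (.e (nat_lit 2854) (nat_lit 184) (.e (nat_lit 426509) (nat_lit 27) (.e (nat_lit 336228) (nat_lit 14) (.e (nat_lit 401437) (nat_lit 9) (.e (nat_lit 426533) (nat_lit 28) (.e (nat_lit 344069) (nat_lit 0) .nil)))))) (.g (nat_lit 1) (.e (nat_lit 56616) (nat_lit 0) .nil) .nil))) 
(.lf (nat_lit 461491) (.g (nat_lit 2925) (.e (nat_lit 2881) (nat_lit 184) (.e (nat_lit 426125) (nat_lit 2) (.e (nat_lit 196666) (nat_lit 13) (.e (nat_lit 65610) (nat_lit 10) (.e (nat_lit 344129) (nat_lit 26) .nil))))) (.g (nat_lit 0) (.e (nat_lit 57821) (nat_lit 0) .nil) .nil)))) (.nd (nat_lit 9) 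
(.lf (nat_lit 461235) (.g (nat_lit 2761) (.e (nat_lit 2857) (nat_lit 184) (.e (nat_lit 426530) (nat_lit 27) (.e (nat_lit 336235) (nat_lit 14) (.e (nat_lit 401459) (nat_lit 13) (.e (nat_lit 483354) (nat_lit 17) (.e (nat_lit 6680) (nat_lit 357) .nil)))))) (.g (nat_lit 1) (.e (nat_lit 56987) (nat_lit 0) .nil) .nil))) 
(.lf (nat_lit 461747) (.g (nat_lit 2826) (.e (nat_lit 2894) (nat_lit 184) (.e (nat_lit 426140) (nat_lit 3) (.e (nat_lit 204869) (nat_lit 29) (.e (nat_lit 360475) (nat_lit 8) (.e (nat_lit 557089) (nat_lit 12) .nil))))) (.g (nat_lit 0) (.e (nat_lit 58545) (nat_lit 0) .nil) .nil)))))) (.nd (nat_lit 7) (.nd (nat_lit 8) (.nd (nat_lit 9) 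
(.lf (nat_lit 460915) (.g (nat_lit 2376) (.e (nat_lit 2852) (nat_lit 184) (.e (nat_lit 426438) (nat_lit 18) (.e (nat_lit 98367) (nat_lit 27) (.e (nat_lit 434247) (nat_lit 28) (.e (nat_lit 573485) (nat_lit 13) (.e (nat_lit 65541) (nat_lit 0) (.e (nat_lit 1879) (nat_lit 126) (.e (nat_lit 573443) (nat_lit 0) .nil)))))))) (.g (nat_lit 1) (.e (nat_lit 56443) (nat_lit 0) .nil) .nil))) 
(.lf (nat_lit 461427) (.g (nat_lit 4077) (.e (nat_lit 2877) (nat_lit 184) (.e (nat_lit 426125) (nat_lit 2) (.e (nat_lit 196666) (nat_lit 13) (.e (nat_lit 65619) (nat_lit 10) .nil)))) (.g (nat_lit 0) (.e (nat_lit 57531) (nat_lit 0) .nil) .nil)))) (.nd (nat_lit 9) 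
(.lf (nat_lit 461171) (.g (nat_lit 3614) (.e (nat_lit 2856) (nat_lit 184) (.e (nat_lit 426533) (nat_lit 28) (.e (nat_lit 344068) (nat_lit 0) (.e (nat_lit 2856) (nat_lit 184) (.e (nat_lit 426533) (nat_lit 28) (.e (nat_lit 344068) (nat_lit 0) .nil)))))) (.g (nat_lit 1) (.e (nat_lit 56877) (nat_lit 0) .nil) .nil))) 
(.lf (nat_lit 461683) (.g (nat_lit 3466) (.e (nat_lit 2887) (nat_lit 184) (.e (nat_lit 426412) (nat_lit 15) (.e (nat_lit 1856) (nat_lit 124) (.e (nat_lit 557100) (nat_lit 13) (.e (nat_lit 172106) (nat_lit 10) (.e (nat_lit 434231) (nat_lit 23) (.e (nat_lit 532486) (nat_lit 0) (.e (nat_lit 7936) (nat_lit 357) .nil)))))))) (.g (nat_lit 1) (.e (nat_lit 58386) (nat_lit 0) .nil) .nil))))) 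
(.nd (nat_lit 8) (.nd (nat_lit 9) 
(.lf (nat_lit 461043) (.g (nat_lit 2838) (.e (nat_lit 2855) (nat_lit 184) (.e (nat_lit 426402) (nat_lit 15) (.e (nat_lit 1849) (nat_lit 124) (.e (nat_lit 557108) (nat_lit 15) (.e (nat_lit 188449) (nat_lit 22) (.e (nat_lit 196661) (nat_lit 12) (.e (nat_lit 57750) (nat_lit 201) .nil))))))) (.g (nat_lit 1) (.e (nat_lit 56713) (nat_lit 0) .nil) .nil))) 
(.lf (nat_lit 461555) (.g (nat_lit 3920) (.e (nat_lit 2887) (nat_lit 184) (.e (nat_lit 426132) (nat_lit 3) (.e (nat_lit 204869) (nat_lit 29) (.e (nat_lit 360474) (nat_lit 8) (.e (nat_lit 557091) (nat_lit 12) (.e (nat_lit 164017) (nat_lit 44) (.e (nat_lit 688139) (nat_lit 5) .nil))))))) (.g (nat_lit 1) (.e (nat_lit 57913) (nat_lit 0) .nil) .nil)))) (.nd (nat_lit 9) 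
(.lf (nat_lit 461299) (.g (nat_lit 601) (.e (nat_lit 2862) (nat_lit 184) (.e (nat_lit 426566) (nat_lit 34) (.e (nat_lit 393270) (nat_lit 23) .nil))) (.g (nat_lit 0) (.e (nat_lit 57154) (nat_lit 0) .nil) .nil))) 
(.lf (nat_lit 461811) (.g (nat_lit 4113) (.e (nat_lit 2884) (nat_lit 184) (.e (nat_lit 426140) (nat_lit 3) (.e (nat_lit 204869) (nat_lit 29) (.e (nat_lit 360474) (nat_lit 8) (.e (nat_lit 557088) (nat_lit 12) (.e (nat_lit 164018) (nat_lit 45) (.e (nat_lit 696329) (nat_lit 5) .nil))))))) (.g (nat_lit 1) (.e (nat_lit 58729) (nat_lit 0) .nil) .nil))))))))) 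
(.nd (nat_lit 4) (.nd (nat_lit 5) (.nd (nat_lit 6) (.nd (nat_lit 7) (.nd (nat_lit 8) 
(.nd (nat_lit 9) 
(.lf (nat_lit 460811) (.g (nat_lit 4810) (.e (nat_lit 2844) (nat_lit 184) (.e (nat_lit 426436) (nat_lit 18) (.e (nat_lit 98335) (nat_lit 18) (.e (nat_lit 164327) (nat_lit 230) .nil)))) (.g (nat_lit 0) (.e (nat_lit 56237) (nat_lit 0) .nil) .nil))) 
(.lf (nat_lit 461323) (.g (nat_lit 4099) (.e (nat_lit 2869) (nat_lit 184) (.e (nat_lit 426211) (nat_lit 9) (.e (nat_lit 426125) (nat_lit 2) (.e (nat_lit 196630) (nat_lit 9) (.e (nat_lit 1401) (nat_lit 106) .nil))))) (.g (nat_lit 0) (.e (nat_lit 57267) (nat_lit 0) .nil) .nil)))) (.nd (nat_lit 9) 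
(.lf (nat_lit 461067) (.g (nat_lit 1095) (.e (nat_lit 2855) (nat_lit 184) (.e (nat_lit 426533) (nat_lit 28) (.e (nat_lit 344067) (nat_lit 0) (.e (nat_lit 2936) (nat_lit 184) (.e (nat_lit 426532) (nat_lit 28) (.e (nat_lit 344069) (nat_lit 0) .nil)))))) (.g (nat_lit 1) (.e (nat_lit 56737) (nat_lit 0) .nil) .nil))) 
(.lf (nat_lit 461579) (.g (nat_lit 5971) (.e (nat_lit 2887) (nat_lit 184) (.e (nat_lit 426135) (nat_lit 3) (.e (nat_lit 204869) (nat_lit 29) (.e (nat_lit 360475) (nat_lit 8) (.e (nat_lit 557089) (nat_lit 12) (.e (nat_lit 164017) (nat_lit 44) (.e (nat_lit 688139) (nat_lit 5) .nil))))))) (.g (nat_lit 1) (.e (nat_lit 57938) (nat_lit 0) .nil) .nil))))) (.nd (nat_lit 8) (.nd (nat_lit 9) 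
(.lf (nat_lit 460939) (.g (nat_lit 5264) (.e (nat_lit 2854) (nat_lit 184) (.e (nat_lit 426131) (nat_lit 3) (.e (nat_lit 204869) (nat_lit 29) (.e (nat_lit 360474) (nat_lit 8) (.e (nat_lit 557091) (nat_lit 12) (.e (nat_lit 164020) (nat_lit 45) (.e (nat_lit 696335) (nat_lit 5) .nil))))))) (.g (nat_lit 1) (.e (nat_lit 56510) (nat_lit 0) .nil) .nil))) 
(.lf (nat_lit 461451) (.g (nat_lit 3243) (.e (nat_lit 2878) (nat_lit 184) (.e (nat_lit 426125) (nat_lit 2) (.e (nat_lit 196666) (nat_lit 13) (.e (nat_lit 65617) (nat_lit 10) (.e (nat_lit 344132) (nat_lit 26) (.e (nat_lit 557094) (nat_lit 12) (.e (nat_lit 164018) (nat_lit 45) (.e (nat_lit 696327) (nat_lit 5) .nil)))))))) (.g (nat_lit 1) (.e (nat_lit 57688) (nat_lit 0) .nil) .nil)))) 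
(.nd (nat_lit 9) 
(.lf (nat_lit 461195) (.g (nat_lit 656) (.e (nat_lit 2856) (nat_lit 184) (.e (nat_lit 426566) (nat_lit 34) (.e (nat_lit 393253) (nat_lit 18) .nil))) (.g (nat_lit 0) (.e (nat_lit 56903) (nat_lit 0) .nil) .nil))) 
(.lf (nat_lit 461707) (.g (nat_lit 593) (.e (nat_lit 2887) (nat_lit 184) (.e (nat_lit 426499) (nat_lit 27) (.e (nat_lit 336226) (nat_lit 14) .nil))) (.g (nat_lit 0) (.e (nat_lit 58430) (nat_lit 0) .nil) .nil)))))) (.nd (nat_lit 7) (.nd (nat_lit 8) (.nd (nat_lit 9) 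
(.lf (nat_lit 460875) (.g (nat_lit 4114) (.e (nat_lit 2848) (nat_lit 184) (.e (nat_lit 426436) (nat_lit 18) (.e (nat_lit 98335) (nat_lit 18) (.e (nat_lit 164330) (nat_lit 230) .nil)))) (.g (nat_lit 0) (.e (nat_lit 56366) (nat_lit 0) .nil) .nil))) 
(.lf (nat_lit 461387) (.g (nat_lit 4375) (.e (nat_lit 2877) (nat_lit 184) (.e (nat_lit 426125) (nat_lit 2) (.e (nat_lit 196666) (nat_lit 13) (.e (nat_lit 65617) (nat_lit 10) (.e (nat_lit 344127) (nat_lit 26) (.e (nat_lit 557090) (nat_lit 12) (.e (nat_lit 164017) (nat_lit 44) (.e (nat_lit 688141) (nat_lit 5) .nil)))))))) (.g (nat_lit 1) (.e (nat_lit 57491) (nat_lit 0) .nil) .nil)))) 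
(.nd (nat_lit 9) 
(.lf (nat_lit 461131) (.g (nat_lit 2074) (.e (nat_lit 2856) (nat_lit 184) (.e (nat_lit 426402) (nat_lit 15) (.e (nat_lit 1858) (nat_lit 124) (.e (nat_lit 557101) (nat_lit 13) (.e (nat_lit 172115) (nat_lit 10) (.e (nat_lit 434231) (nat_lit 23) (.e (nat_lit 532482) (nat_lit 0) (.e (nat_lit 6642) (nat_lit 357) .nil)))))))) (.g (nat_lit 1) (.e (nat_lit 56829) (nat_lit 0) .nil) .nil))) 
(.lf (nat_lit 461643) (.g (nat_lit 3924) (.e (nat_lit 2887) (nat_lit 184) (.e (nat_lit 426211) (nat_lit 9) (.e (nat_lit 426528) (nat_lit 27) (.e (nat_lit 336231) (nat_lit 14) (.e (nat_lit 401448) (nat_lit 10) (.e (nat_lit 434286) (nat_lit 42) (.e (nat_lit 688139) (nat_lit 5) .nil))))))) (.g (nat_lit 1) (.e (nat_lit 58067) (nat_lit 0) .nil) .nil))))) (.nd (nat_lit 8) (.nd (nat_lit 9) 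
(.lf (nat_lit 461003) (.g (nat_lit 1533) (.e (nat_lit 2854) (nat_lit 184) (.e (nat_lit 426542) (nat_lit 29) (.e (nat_lit 352307) (nat_lit 21) (.e (nat_lit 57871) (nat_lit 264) (.e (nat_lit 1211) (nat_lit 89) .nil))))) (.g (nat_lit 0) (.e (nat_lit 56644) (nat_lit 0) .nil) .nil))) 
(.lf (nat_lit 461515) (.g (nat_lit 5564) (.e (nat_lit 2887) (nat_lit 184) (.e (nat_lit 426043) (nat_lit 0) (.e (nat_lit 3238) (nat_lit 197) (.e (nat_lit 532550) (nat_lit 12) (.e (nat_lit 360475) (nat_lit 8) (.e (nat_lit 557089) (nat_lit 12) (.e (nat_lit 164017) (nat_lit 44) (.e (nat_lit 688138) (nat_lit 5) .nil)))))))) (.g (nat_lit 1) (.e (nat_lit 57873) (nat_lit 0) .nil) .nil)))) 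
(.nd (nat_lit 9) 
(.lf (nat_lit 461259) (.g (nat_lit 4808) (.e (nat_lit 2858) (nat_lit 184) (.e (nat_lit 426436) (nat_lit 18) (.e (nat_lit 98335) (nat_lit 18) (.e (nat_lit 164327) (nat_lit 230) .nil)))) (.g (nat_lit 0) (.e (nat_lit 57023) (nat_lit 0) .nil) .nil))) 
(.lf (nat_lit 461771) (.g (nat_lit 4787) (.e (nat_lit 2883) (nat_lit 184) (.e (nat_lit 426125) (nat_lit 2) (.e (nat_lit 196666) (nat_lit 13) (.e (nat_lit 65617) (nat_lit 10) (.e (nat_lit 344130) (nat_lit 26) (.e (nat_lit 557090) (nat_lit 12) (.e (nat_lit 164017) (nat_lit 44) (.e (nat_lit 688140) (nat_lit 5) .nil)))))))) (.g (nat_lit 1) (.e (nat_lit 58599) (nat_lit 0) .nil) .nil))))))) 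
(.nd (nat_lit 6) (.nd (nat_lit 7) (.nd (nat_lit 8) (.nd (nat_lit 9) 
(.lf (nat_lit 460843) (.g (nat_lit 1770) (.e (nat_lit 2845) (nat_lit 184) (.e (nat_lit 426479) (nat_lit 27) (.e (nat_lit 336430) (nat_lit 29) (.e (nat_lit 442425) (nat_lit 23) (.e (nat_lit 204830) (nat_lit 18) (.e (nat_lit 57665) (nat_lit 152) (.e (nat_lit 2466) (nat_lit 157) .nil))))))) (.g (nat_lit 1) (.e (nat_lit 56287) (nat_lit 0) .nil) .nil))) 
(.lf (nat_lit 461355) (.g (nat_lit 3105) (.e (nat_lit 2874) (nat_lit 184) (.e (nat_lit 426211) (nat_lit 9) (.e (nat_lit 426125) (nat_lit 2) (.e (nat_lit 196625) (nat_lit 9) .nil)))) (.g (nat_lit 0) (.e (nat_lit 57404) (nat_lit 0) .nil) .nil)))) (.nd (nat_lit 9) 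
(.lf (nat_lit 461099) (.g (nat_lit 2888) (.e (nat_lit 2855) (nat_lit 184) (.e (nat_lit 426542) (nat_lit 29) (.e (nat_lit 352267) (nat_lit 0) (.e (nat_lit 3632) (nat_lit 227) (.e (nat_lit 778324) (nat_lit 5) (.e (nat_lit 73781) (nat_lit 32) .nil)))))) (.g (nat_lit 1) (.e (nat_lit 56789) (nat_lit 0) .nil) .nil))) 
(.lf (nat_lit 461611) (.g (nat_lit 4284) (.e (nat_lit 2887) (nat_lit 184) (.e (nat_lit 426168) (nat_lit 7) (.e (nat_lit 409649) (nat_lit 18) (.e (nat_lit 303140) (nat_lit 10) (.e (nat_lit 434275) (nat_lit 39) (.e (nat_lit 663584) (nat_lit 12) (.e (nat_lit 164017) (nat_lit 44) (.e (nat_lit 688138) (nat_lit 5) .nil)))))))) (.g (nat_lit 1) (.e (nat_lit 57973) (nat_lit 0) .nil) .nil))))) 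
(.nd (nat_lit 8) (.nd (nat_lit 9) 
(.lf (nat_lit 460971) (.g (nat_lit 638) (.e (nat_lit 2854) (nat_lit 184) (.e (nat_lit 426436) (nat_lit 18) (.e (nat_lit 98386) (nat_lit 32) .nil))) (.g (nat_lit 0) (.e (nat_lit 56606) (nat_lit 0) .nil) .nil))) 
(.lf (nat_lit 461483) (.g (nat_lit 2185) (.e (nat_lit 2878) (nat_lit 184) (.e (nat_lit 426317) (nat_lit 12) (.e (nat_lit 475185) (nat_lit 29) (.e (nat_lit 557107) (nat_lit 15) (.e (nat_lit 188439) (nat_lit 20) (.e (nat_lit 3270) (nat_lit 199) (.e (nat_lit 548898) (nat_lit 14) .nil))))))) (.g (nat_lit 1) (.e (nat_lit 57807) (nat_lit 0) .nil) .nil)))) (.nd (nat_lit 9) 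
(.lf (nat_lit 461227) (.g (nat_lit 1335) (.e (nat_lit 2857) (nat_lit 184) (.e (nat_lit 426509) (nat_lit 27) (.e (nat_lit 336205) (nat_lit 12) (.e (nat_lit 385093) (nat_lit 49) (.e (nat_lit 778323) (nat_lit 5) .nil))))) (.g (nat_lit 0) (.e (nat_lit 56978) (nat_lit 0) .nil) .nil))) 
(.lf (nat_lit 461739) (.g (nat_lit 1174) (.e (nat_lit 2891) (nat_lit 184) (.e (nat_lit 426290) (nat_lit 10) (.e (nat_lit 434231) (nat_lit 23) (.e (nat_lit 532522) (nat_lit 7) .nil)))) (.g (nat_lit 0) (.e (nat_lit 58513) (nat_lit 0) .nil) .nil)))))) (.nd (nat_lit 7) (.nd (nat_lit 8) (.nd (nat_lit 9) 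
(.lf (nat_lit 460907) (.g (nat_lit 3037) (.e (nat_lit 2851) (nat_lit 184) (.e (nat_lit 426566) (nat_lit 34) (.e (nat_lit 393271) (nat_lit 23) (.e (nat_lit 426436) (nat_lit 18) (.e (nat_lit 98335) (nat_lit 18) (.e (nat_lit 164305) (nat_lit 226) (.e (nat_lit 2433) (nat_lit 157) .nil))))))) (.g (nat_lit 1) (.e (nat_lit 56431) (nat_lit 0) .nil) .nil))) 
(.lf (nat_lit 461419) (.g (nat_lit 4700) (.e (nat_lit 2877) (nat_lit 184) (.e (nat_lit 426125) (nat_lit 2) (.e (nat_lit 196666) (nat_lit 13) (.e (nat_lit 65617) (nat_lit 10) (.e (nat_lit 344133) (nat_lit 26) (.e (nat_lit 557091) (nat_lit 12) (.e (nat_lit 164016) (nat_lit 44) (.e (nat_lit 688139) (nat_lit 5) .nil)))))))) (.g (nat_lit 1) (.e (nat_lit 57523) (nat_lit 0) .nil) .nil)))) 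
(.nd (nat_lit 9) 
(.lf (nat_lit 461163) (.g (nat_lit 2476) (.e (nat_lit 2856) (nat_lit 184) (.e (nat_lit 426530) (nat_lit 27) (.e (nat_lit 336206) (nat_lit 12) (.e (nat_lit 385093) (nat_lit 49) (.e (nat_lit 778324) (nat_lit 5) (.e (nat_lit 73781) (nat_lit 32) .nil)))))) (.g (nat_lit 1) (.e (nat_lit 56869) (nat_lit 0) .nil) .nil))) 
(.lf (nat_lit 461675) (.g (nat_lit 2409) (.e (nat_lit 2887) (nat_lit 184) (.e (nat_lit 426412) (nat_lit 15) (.e (nat_lit 7936) (nat_lit 121) (.e (nat_lit 532544) (nat_lit 10) (.e (nat_lit 344131) (nat_lit 26) (.e (nat_lit 557105) (nat_lit 14) (.e (nat_lit 180252) (nat_lit 10) (.e (nat_lit 581376) (nat_lit 0) .nil)))))))) (.g (nat_lit 1) (.e (nat_lit 58377) (nat_lit 0) .nil) .nil))))) 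
(.nd (nat_lit 8) (.nd (nat_lit 9) 
(.lf (nat_lit 461035) (.g (nat_lit 2501) (.e (nat_lit 2855) (nat_lit 184) (.e (nat_lit 426354) (nat_lit 15) (.e (nat_lit 1860) (nat_lit 124) (.e (nat_lit 557101) (nat_lit 13) (.e (nat_lit 172097) (nat_lit 9) (.e (nat_lit 426125) (nat_lit 2) (.e (nat_lit 196661) (nat_lit 12) (.e (nat_lit 57750) (nat_lit 201) .nil)))))))) (.g (nat_lit 1) (.e (nat_lit 56705) (nat_lit 0) .nil) .nil))) 
(.lf (nat_lit 461547) (.g (nat_lit 4326) (.e (nat_lit 2887) (nat_lit 184) (.e (nat_lit 426125) (nat_lit 2) (.e (nat_lit 196666) (nat_lit 13) (.e (nat_lit 65617) (nat_lit 10) (.e (nat_lit 344133) (nat_lit 26) (.e (nat_lit 557091) (nat_lit 12) (.e (nat_lit 164016) (nat_lit 44) (.e (nat_lit 688138) (nat_lit 5) .nil)))))))) (.g (nat_lit 1) (.e (nat_lit 57905) (nat_lit 0) .nil) .nil)))) 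
(.nd (nat_lit 9) 
(.lf (nat_lit 461291) (.g (nat_lit 1242) (.e (nat_lit 2862) (nat_lit 184) (.e (nat_lit 426543) (nat_lit 29) (.e (nat_lit 352265) (nat_lit 0) (.e (nat_lit 3631) (nat_lit 227) (.e (nat_lit 778323) (nat_lit 5) (.e (nat_lit 81664) (nat_lit 32) .nil)))))) (.g (nat_lit 1) (.e (nat_lit 57138) (nat_lit 0) .nil) .nil))) 
(.lf (nat_lit 461803) (.g (nat_lit 4109) (.e (nat_lit 2884) (nat_lit 184) (.e (nat_lit 426140) (nat_lit 3) (.e (nat_lit 204868) (nat_lit 29) (.e (nat_lit 360475) (nat_lit 8) (.e (nat_lit 557090) (nat_lit 12) (.e (nat_lit 164020) (nat_lit 45) (.e (nat_lit 696328) (nat_lit 5) .nil))))))) (.g (nat_lit 1) (.e (nat_lit 58720) (nat_lit 0) .nil) .nil)))))))) 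
(.nd (nat_lit 5) (.nd (nat_lit 6) (.nd (nat_lit 7) (.nd (nat_lit 8) (.nd (nat_lit 9) 
(.lf (nat_lit 460827) (.g (nat_lit 4677) (.e (nat_lit 2845) (nat_lit 184) (.e (nat_lit 426436) (nat_lit 18) (.e (nat_lit 98335) (nat_lit 18) (.e (nat_lit 164327) (nat_lit 230) .nil)))) (.g (nat_lit 0) (.e (nat_lit 56271) (nat_lit 0) .nil) .nil))) 
(.lf (nat_lit 461339) (.g (nat_lit 3922) (.e (nat_lit 2873) (nat_lit 184) (.e (nat_lit 426140) (nat_lit 3) (.e (nat_lit 204869) (nat_lit 29) (.e (nat_lit 360474) (nat_lit 8) (.e (nat_lit 557088) (nat_lit 12) .nil))))) (.g (nat_lit 0) (.e (nat_lit 57360) (nat_lit 0) .nil) .nil)))) (.nd (nat_lit 9) 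
(.lf (nat_lit 461083) (.g (nat_lit 3084) (.e (nat_lit 2855) (nat_lit 184) (.e (nat_lit 426540) (nat_lit 29) (.e (nat_lit 352262) (nat_lit 0) (.e (nat_lit 3632) (nat_lit 227) (.e (nat_lit 778323) (nat_lit 5) (.e (nat_lit 73781) (nat_lit 32) .nil)))))) (.g (nat_lit 1) (.e (nat_lit 56773) (nat_lit 0) .nil) .nil))) 
(.lf (nat_lit 461595) (.g (nat_lit 4261) (.e (nat_lit 2887) (nat_lit 184) (.e (nat_lit 426140) (nat_lit 3) (.e (nat_lit 204855) (nat_lit 26) (.e (nat_lit 336176) (nat_lit 10) (.e (nat_lit 344130) (nat_lit 26) (.e (nat_lit 557090) (nat_lit 12) (.e (nat_lit 164017) (nat_lit 44) (.e (nat_lit 688139) (nat_lit 5) .nil)))))))) (.g (nat_lit 1) (.e (nat_lit 57954) (nat_lit 0) .nil) .nil))))) 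
(.nd (nat_lit 8) (.nd (nat_lit 9) 
(.lf (nat_lit 460955) (.g (nat_lit 500) (.e (nat_lit 2854) (nat_lit 184) (.e (nat_lit 426436) (nat_lit 18) (.e (nat_lit 98335) (nat_lit 18) .nil))) (.g (nat_lit 0) (.e (nat_lit 56574) (nat_lit 0) .nil) .nil))) 
(.lf (nat_lit 461467) (.g (nat_lit 3466) (.e (nat_lit 2878) (nat_lit 184) (.e (nat_lit 426140) (nat_lit 3) (.e (nat_lit 204868) (nat_lit 29) (.e (nat_lit 360474) (nat_lit 8) (.e (nat_lit 557091) (nat_lit 12) .nil))))) (.g (nat_lit 0) (.e (nat_lit 57719) (nat_lit 0) .nil) .nil)))) (.nd (nat_lit 9) 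
(.lf (nat_lit 461211) (.g (nat_lit 2727) (.e (nat_lit 2857) (nat_lit 184) (.e (nat_lit 426482) (nat_lit 27) (.e (nat_lit 336193) (nat_lit 12) (.e (nat_lit 385094) (nat_lit 49) (.e (nat_lit 778323) (nat_lit 5) (.e (nat_lit 73782) (nat_lit 32) .nil)))))) (.g (nat_lit 1) (.e (nat_lit 56957) (nat_lit 0) .nil) .nil))) 
(.lf (nat_lit 461723) (.g (nat_lit 3918) (.e (nat_lit 2888) (nat_lit 184) (.e (nat_lit 426125) (nat_lit 2) (.e (nat_lit 196666) (nat_lit 13) (.e (nat_lit 65617) (nat_lit 10) (.e (nat_lit 344130) (nat_lit 26) .nil))))) (.g (nat_lit 0) (.e (nat_lit 58459) (nat_lit 0) .nil) .nil)))))) (.nd (nat_lit 7) (.nd (nat_lit 8) (.nd (nat_lit 9) 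
(.lf (nat_lit 460891) (.g (nat_lit 2579) (.e (nat_lit 2849) (nat_lit 184) (.e (nat_lit 426566) (nat_lit 34) (.e (nat_lit 393271) (nat_lit 23) (.e (nat_lit 426436) (nat_lit 18) (.e (nat_lit 98334) (nat_lit 18) .nil))))) (.g (nat_lit 0) (.e (nat_lit 56402) (nat_lit 0) .nil) .nil))) 
(.lf (nat_lit 461403) (.g (nat_lit 2971) (.e (nat_lit 2877) (nat_lit 184) (.e (nat_lit 426125) (nat_lit 2) (.e (nat_lit 196666) (nat_lit 13) (.e (nat_lit 65617) (nat_lit 10) (.e (nat_lit 344132) (nat_lit 26) (.e (nat_lit 557089) (nat_lit 12) (.e (nat_lit 164017) (nat_lit 44) (.e (nat_lit 688139) (nat_lit 5) .nil)))))))) (.g (nat_lit 1) (.e (nat_lit 57507) (nat_lit 0) .nil) .nil)))) 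
(.nd (nat_lit 9) 
(.lf (nat_lit 461147) (.g (nat_lit 3051) (.e (nat_lit 2856) (nat_lit 184) (.e (nat_lit 426482) (nat_lit 27) (.e (nat_lit 336193) (nat_lit 12) (.e (nat_lit 385093) (nat_lit 49) (.e (nat_lit 778323) (nat_lit 5) (.e (nat_lit 73781) (nat_lit 32) .nil)))))) (.g (nat_lit 1) (.e (nat_lit 56852) (nat_lit 0) .nil) .nil))) 
(.lf (nat_lit 461659) (.g (nat_lit 1681) (.e (nat_lit 2887) (nat_lit 184) (.e (nat_lit 426217) (nat_lit 9) (.e (nat_lit 426528) (nat_lit 27) (.e (nat_lit 335894) (nat_lit 0) (.e (nat_lit 6722) (nat_lit 362) (.e (nat_lit 180268) (nat_lit 24) (.e (nat_lit 688139) (nat_lit 5) .nil))))))) (.g (nat_lit 1) (.e (nat_lit 58083) (nat_lit 0) .nil) .nil))))) (.nd (nat_lit 8) (.nd (nat_lit 9) 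
(.lf (nat_lit 461019) (.g (nat_lit 2594) (.e (nat_lit 2854) (nat_lit 184) (.e (nat_lit 426566) (nat_lit 34) (.e (nat_lit 393271) (nat_lit 23) (.e (nat_lit 426131) (nat_lit 3) (.e (nat_lit 204830) (nat_lit 18) (.e (nat_lit 57663) (nat_lit 152) (.e (nat_lit 2457) (nat_lit 157) .nil))))))) (.g (nat_lit 1) (.e (nat_lit 56660) (nat_lit 0) .nil) .nil))) 
(.lf (nat_lit 461531) (.g (nat_lit 3127) (.e (nat_lit 2887) (nat_lit 184) (.e (nat_lit 426117) (nat_lit 2) (.e (nat_lit 196666) (nat_lit 13) (.e (nat_lit 65617) (nat_lit 10) (.e (nat_lit 344130) (nat_lit 26) (.e (nat_lit 557089) (nat_lit 12) (.e (nat_lit 164017) (nat_lit 44) (.e (nat_lit 688138) (nat_lit 5) .nil)))))))) (.g (nat_lit 1) (.e (nat_lit 57889) (nat_lit 0) .nil) .nil)))) 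
(.nd (nat_lit 9) 
(.lf (nat_lit 461275) (.g (nat_lit 2089) (.e (nat_lit 2862) (nat_lit 184) (.e (nat_lit 426436) (nat_lit 18) (.e (nat_lit 98384) (nat_lit 32) (.e (nat_lit 475177) (nat_lit 24) (.e (nat_lit 516146) (nat_lit 9) (.e (nat_lit 426428) (nat_lit 17) (.e (nat_lit 90134) (nat_lit 9) .nil))))))) (.g (nat_lit 1) (.e (nat_lit 57118) (nat_lit 0) .nil) .nil))) 
(.lf (nat_lit 461787) (.g (nat_lit 1982) (.e (nat_lit 2884) (nat_lit 184) (.e (nat_lit 426125) (nat_lit 2) (.e (nat_lit 196666) (nat_lit 13) (.e (nat_lit 65617) (nat_lit 10) (.e (nat_lit 344130) (nat_lit 26) .nil))))) (.g (nat_lit 0) (.e (nat_lit 58686) (nat_lit 0) .nil) .nil))))))) (.nd (nat_lit 6) (.nd (nat_lit 7) (.nd (nat_lit 8) (.nd (nat_lit 9) 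
(.lf (nat_lit 460859) (.g (nat_lit 4113) (.e (nat_lit 2846) (nat_lit 184) (.e (nat_lit 426436) (nat_lit 18) (.e (nat_lit 98335) (nat_lit 18) (.e (nat_lit 164330) (nat_lit 230) .nil)))) (.g (nat_lit 0) (.e (nat_lit 56323) (nat_lit 0) .nil) .nil))) 
(.lf (nat_lit 461371) (.g (nat_lit 5430) (.e (nat_lit 2877) (nat_lit 184) (.e (nat_lit 426125) (nat_lit 2) (.e (nat_lit 196666) (nat_lit 13) (.e (nat_lit 65610) (nat_lit 10) (.e (nat_lit 344129) (nat_lit 26) (.e (nat_lit 557089) (nat_lit 12) (.e (nat_lit 164017) (nat_lit 44) (.e (nat_lit 688141) (nat_lit 5) .nil)))))))) (.g (nat_lit 1) (.e (nat_lit 57475) (nat_lit 0) .nil) .nil)))) 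
(.nd (nat_lit 9) 
(.lf (nat_lit 461115) (.g (nat_lit 1969) (.e (nat_lit 2855) (nat_lit 184) (.e (nat_lit 426555) (nat_lit 32) (.e (nat_lit 376859) (nat_lit 21) (.e (nat_lit 57871) (nat_lit 264) (.e (nat_lit 1209) (nat_lit 89) .nil))))) (.g (nat_lit 0) (.e (nat_lit 56806) (nat_lit 0) .nil) .nil))) 
(.lf (nat_lit 461627) (.g (nat_lit 1833) (.e (nat_lit 2887) (nat_lit 184) (.e (nat_lit 426171) (nat_lit 7) (.e (nat_lit 409649) (nat_lit 18) (.e (nat_lit 303140) (nat_lit 10) .nil)))) (.g (nat_lit 0) (.e (nat_lit 58030) (nat_lit 0) .nil) .nil))))) (.nd (nat_lit 8) (.nd (nat_lit 9) 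
(.lf (nat_lit 460987) (.g (nat_lit 2150) (.e (nat_lit 2854) (nat_lit 184) (.e (nat_lit 426533) (nat_lit 28) (.e (nat_lit 344068) (nat_lit 0) (.e (nat_lit 3090) (nat_lit 191) (.e (nat_lit 483350) (nat_lit 17) (.e (nat_lit 6677) (nat_lit 357) .nil)))))) (.g (nat_lit 1) (.e (nat_lit 56624) (nat_lit 0) .nil) .nil))) 
(.lf (nat_lit 461499) (.g (nat_lit 1550) (.e (nat_lit 2879) (nat_lit 184) (.e (nat_lit 426140) (nat_lit 3) (.e (nat_lit 204868) (nat_lit 29) (.e (nat_lit 360473) (nat_lit 8) .nil)))) (.g (nat_lit 0) (.e (nat_lit 57839) (nat_lit 0) .nil) .nil)))) (.nd (nat_lit 9) 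
(.lf (nat_lit 461243) (.g (nat_lit 515) (.e (nat_lit 2857) (nat_lit 184) (.e (nat_lit 426542) (nat_lit 29) (.e (nat_lit 352264) (nat_lit 0) (.e (nat_lit 3715) (nat_lit 227) .nil)))) (.g (nat_lit 0) (.e (nat_lit 56995) (nat_lit 0) .nil) .nil))) 
(.lf (nat_lit 461755) (.g (nat_lit 3824) (.e (nat_lit 2882) (nat_lit 184) (.e (nat_lit 426140) (nat_lit 3) (.e (nat_lit 204869) (nat_lit 29) (.e (nat_lit 360474) (nat_lit 8) (.e (nat_lit 557088) (nat_lit 12) .nil))))) (.g (nat_lit 0) (.e (nat_lit 58567) (nat_lit 0) .nil) .nil)))))) (.nd (nat_lit 7) (.nd (nat_lit 8) (.nd (nat_lit 9) 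
(.lf (nat_lit 460923) (.g (nat_lit 3781) (.e (nat_lit 2852) (nat_lit 184) (.e (nat_lit 426542) (nat_lit 29) (.e (nat_lit 352316) (nat_lit 24) (.e (nat_lit 123195) (nat_lit 266) (.e (nat_lit 57400) (nat_lit 10) (.e (nat_lit 319490) (nat_lit 0) (.e (nat_lit 5664) (nat_lit 312) .nil))))))) (.g (nat_lit 1) (.e (nat_lit 56453) (nat_lit 0) .nil) .nil))) 
(.lf (nat_lit 461435) (.g (nat_lit 2819) (.e (nat_lit 2878) (nat_lit 184) (.e (nat_lit 426125) (nat_lit 2) (.e (nat_lit 196666) (nat_lit 13) (.e (nat_lit 65617) (nat_lit 10) (.e (nat_lit 344127) (nat_lit 26) (.e (nat_lit 557090) (nat_lit 12) (.e (nat_lit 164018) (nat_lit 45) (.e (nat_lit 696327) (nat_lit 5) .nil)))))))) (.g (nat_lit 1) (.e (nat_lit 57660) (nat_lit 0) .nil) .nil)))) 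
(.nd (nat_lit 9) 
(.lf (nat_lit 461179) (.g (nat_lit 1222) (.e (nat_lit 2856) (nat_lit 184) (.e (nat_lit 426533) (nat_lit 28) (.e (nat_lit 344069) (nat_lit 0) (.e (nat_lit 3090) (nat_lit 191) (.e (nat_lit 483347) (nat_lit 17) (.e (nat_lit 7936) (nat_lit 357) .nil)))))) (.g (nat_lit 1) (.e (nat_lit 56885) (nat_lit 0) .nil) .nil))) 
(.lf (nat_lit 461691) (.g (nat_lit 3177) (.e (nat_lit 2887) (nat_lit 184) (.e (nat_lit 426412) (nat_lit 15) (.e (nat_lit 1856) (nat_lit 124) (.e (nat_lit 557101) (nat_lit 13) (.e (nat_lit 172115) (nat_lit 10) (.e (nat_lit 434231) (nat_lit 23) (.e (nat_lit 532482) (nat_lit 0) (.e (nat_lit 6617) (nat_lit 357) .nil)))))))) (.g (nat_lit 1) (.e (nat_lit 58394) (nat_lit 0) .nil) .nil))))) 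
(.nd (nat_lit 8) (.nd (nat_lit 9) 
(.lf (nat_lit 461051) (.g (nat_lit 2990) (.e (nat_lit 2855) (nat_lit 184) (.e (nat_lit 426402) (nat_lit 15) (.e (nat_lit 1859) (nat_lit 124) (.e (nat_lit 557098) (nat_lit 13) (.e (nat_lit 172097) (nat_lit 9) (.e (nat_lit 426140) (nat_lit 3) (.e (nat_lit 204821) (nat_lit 17) (.e (nat_lit 6676) (nat_lit 357) .nil)))))))) (.g (nat_lit 1) (.e (nat_lit 56721) (nat_lit 0) .nil) .nil))) 
(.lf (nat_lit 461563) (.g (nat_lit 1972) (.e (nat_lit 2887) (nat_lit 184) (.e (nat_lit 426134) (nat_lit 3) (.e (nat_lit 204868) (nat_lit 29) (.e (nat_lit 360473) (nat_lit 8) (.e (nat_lit 557094) (nat_lit 12) (.e (nat_lit 164016) (nat_lit 44) (.e (nat_lit 688138) (nat_lit 5) .nil))))))) (.g (nat_lit 1) (.e (nat_lit 57921) (nat_lit 0) .nil) .nil)))) (.nd (nat_lit 9) 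
(.lf (nat_lit 461307) (.g (nat_lit 1672) (.e (nat_lit 2862) (nat_lit 184) (.e (nat_lit 426568) (nat_lit 34) (.e (nat_lit 393271) (nat_lit 23) (.e (nat_lit 426131) (nat_lit 3) .nil)))) (.g (nat_lit 0) (.e (nat_lit 57162) (nat_lit 0) .nil) .nil))) 
(.lf (nat_lit 461819) (.g (nat_lit 3341) (.e (nat_lit 2884) (nat_lit 184) (.e (nat_lit 426317) (nat_lit 12) (.e (nat_lit 475185) (nat_lit 29) (.e (nat_lit 557100) (nat_lit 13) (.e (nat_lit 172113) (nat_lit 10) (.e (nat_lit 434238) (nat_lit 25) (.e (nat_lit 548896) (nat_lit 14) .nil))))))) (.g (nat_lit 1) (.e (nat_lit 58765) (nat_lit 0) .nil) .nil)))))))))) 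
(.nd (nat_lit 3) (.nd (nat_lit 4) (.nd (nat_lit 5) (.nd (nat_lit 6) (.nd (nat_lit 7) 
(.nd (nat_lit 8) (.nd (nat_lit 9) 
(.lf (nat_lit 460807) (.g (nat_lit 2178) (.e (nat_lit 2842) (nat_lit 184) (.e (nat_lit 426566) (nat_lit 34) (.e (nat_lit 393294) (nat_lit 26) (.e (nat_lit 475179) (nat_lit 24) .nil)))) (.g (nat_lit 0) (.e (nat_lit 56221) (nat_lit 0) .nil) .nil))) 
(.lf (nat_lit 461319) (.g (nat_lit 3256) (.e (nat_lit 2869) (nat_lit 184) (.e (nat_lit 426136) (nat_lit 3) (.e (nat_lit 204869) (nat_lit 29) (.e (nat_lit 360474) (nat_lit 8) (.e (nat_lit 557091) (nat_lit 12) (.e (nat_lit 164020) (nat_lit 45) (.e (nat_lit 696328) (nat_lit 5) .nil))))))) (.g (nat_lit 1) (.e (nat_lit 57250) (nat_lit 0) .nil) .nil)))) (.nd (nat_lit 9) 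
(.lf (nat_lit 461063) (.g (nat_lit 2127) (.e (nat_lit 2855) (nat_lit 184) (.e (nat_lit 426509) (nat_lit 27) (.e (nat_lit 336228) (nat_lit 14) (.e (nat_lit 401437) (nat_lit 9) (.e (nat_lit 426533) (nat_lit 28) (.e (nat_lit 344068) (nat_lit 0) .nil)))))) (.g (nat_lit 1) (.e (nat_lit 56733) (nat_lit 0) .nil) .nil))) 
(.lf (nat_lit 461575) (.g (nat_lit 2025) (.e (nat_lit 2887) (nat_lit 184) (.e (nat_lit 426135) (nat_lit 3) (.e (nat_lit 204868) (nat_lit 29) (.e (nat_lit 360473) (nat_lit 8) (.e (nat_lit 557094) (nat_lit 12) (.e (nat_lit 164016) (nat_lit 44) (.e (nat_lit 688139) (nat_lit 5) .nil))))))) (.g (nat_lit 1) (.e (nat_lit 57934) (nat_lit 0) .nil) .nil))))) (.nd (nat_lit 8) (.nd (nat_lit 9) 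
(.lf (nat_lit 460935) (.g (nat_lit 782) (.e (nat_lit 2854) (nat_lit 184) (.e (nat_lit 426131) (nat_lit 3) (.e (nat_lit 204868) (nat_lit 29) .nil))) (.g (nat_lit 0) (.e (nat_lit 56502) (nat_lit 0) .nil) .nil))) 
(.lf (nat_lit 461447) (.g (nat_lit 3209) (.e (nat_lit 2878) (nat_lit 184) (.e (nat_lit 426125) (nat_lit 2) (.e (nat_lit 196666) (nat_lit 13) (.e (nat_lit 65617) (nat_lit 10) (.e (nat_lit 344130) (nat_lit 26) (.e (nat_lit 557091) (nat_lit 12) (.e (nat_lit 164020) (nat_lit 45) (.e (nat_lit 696329) (nat_lit 5) .nil)))))))) (.g (nat_lit 1) (.e (nat_lit 57680) (nat_lit 0) .nil) .nil)))) 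
(.nd (nat_lit 9) 
(.lf (nat_lit 461191) (.g (nat_lit 1827) (.e (nat_lit 2856) (nat_lit 184) (.e (nat_lit 426555) (nat_lit 32) (.e (nat_lit 376857) (nat_lit 21) (.e (nat_lit 57871) (nat_lit 264) (.e (nat_lit 1209) (nat_lit 89) .nil))))) (.g (nat_lit 0) (.e (nat_lit 56899) (nat_lit 0) .nil) .nil))) 
(.lf (nat_lit 461703) (.g (nat_lit 3106) (.e (nat_lit 2887) (nat_lit 184) (.e (nat_lit 426412) (nat_lit 15) (.e (nat_lit 1856) (nat_lit 124) (.e (nat_lit 557109) (nat_lit 15) (.e (nat_lit 188452) (nat_lit 23) (.e (nat_lit 204821) (nat_lit 17) (.e (nat_lit 7936) (nat_lit 357) .nil))))))) (.g (nat_lit 1) (.e (nat_lit 58406) (nat_lit 0) .nil) .nil)))))) 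
(.nd (nat_lit 7) (.nd (nat_lit 8) (.nd (nat_lit 9) 
(.lf (nat_lit 460871) (.g (nat_lit 2026) (.e (nat_lit 2847) (nat_lit 184) (.e (nat_lit 426566) (nat_lit 34) (.e (nat_lit 393271) (nat_lit 23) (.e (nat_lit 426436) (nat_lit 18) (.e (nat_lit 98335) (nat_lit 18) .nil))))) (.g (nat_lit 0) (.e (nat_lit 56356) (nat_lit 0) .nil) .nil))) 
(.lf (nat_lit 461383) (.g (nat_lit 2341) (.e (nat_lit 2877) (nat_lit 184) (.e (nat_lit 426125) (nat_lit 2) (.e (nat_lit 196666) (nat_lit 13) (.e (nat_lit 65617) (nat_lit 10) (.e (nat_lit 344127) (nat_lit 26) (.e (nat_lit 557090) (nat_lit 12) (.e (nat_lit 164016) (nat_lit 44) (.e (nat_lit 688140) (nat_lit 5) .nil)))))))) (.g (nat_lit 1) (.e (nat_lit 57487) (nat_lit 0) .nil) .nil)))) 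
(.nd (nat_lit 9) 
(.lf (nat_lit 461127) (.g (nat_lit 4457) (.e (nat_lit 2856) (nat_lit 184) (.e (nat_lit 426402) (nat_lit 15) (.e (nat_lit 1848) (nat_lit 124) (.e (nat_lit 557108) (nat_lit 15) (.e (nat_lit 188449) (nat_lit 22) (.e (nat_lit 196657) (nat_lit 12) (.e (nat_lit 57750) (nat_lit 201) .nil))))))) (.g (nat_lit 1) (.e (nat_lit 56825) (nat_lit 0) .nil) .nil))) 
(.lf (nat_lit 461639) (.g (nat_lit 3583) (.e (nat_lit 2887) (nat_lit 184) (.e (nat_lit 426211) (nat_lit 9) (.e (nat_lit 426528) (nat_lit 27) (.e (nat_lit 336231) (nat_lit 14) (.e (nat_lit 401446) (nat_lit 10) (.e (nat_lit 434286) (nat_lit 42) (.e (nat_lit 688139) (nat_lit 5) .nil))))))) (.g (nat_lit 1) (.e (nat_lit 58063) (nat_lit 0) .nil) .nil))))) (.nd (nat_lit 8) (.nd (nat_lit 9) 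
(.lf (nat_lit 460999) (.g (nat_lit 1545) (.e (nat_lit 2854) (nat_lit 184) (.e (nat_lit 426542) (nat_lit 29) (.e (nat_lit 352267) (nat_lit 0) (.e (nat_lit 3631) (nat_lit 227) (.e (nat_lit 778324) (nat_lit 5) .nil))))) (.g (nat_lit 0) (.e (nat_lit 56640) (nat_lit 0) .nil) .nil))) 
(.lf (nat_lit 461511) (.g (nat_lit 3272) (.e (nat_lit 2886) (nat_lit 184) (.e (nat_lit 426211) (nat_lit 9) (.e (nat_lit 426125) (nat_lit 2) (.e (nat_lit 196617) (nat_lit 9) (.e (nat_lit 1401) (nat_lit 106) .nil))))) (.g (nat_lit 0) (.e (nat_lit 57864) (nat_lit 0) .nil) .nil)))) (.nd (nat_lit 9) 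
(.lf (nat_lit 461255) (.g (nat_lit 1597) (.e (nat_lit 2857) (nat_lit 184) (.e (nat_lit 426568) (nat_lit 34) (.e (nat_lit 393271) (nat_lit 23) (.e (nat_lit 426131) (nat_lit 3) .nil)))) (.g (nat_lit 0) (.e (nat_lit 57016) (nat_lit 0) .nil) .nil))) 
(.lf (nat_lit 461767) (.g (nat_lit 1776) (.e (nat_lit 2883) (nat_lit 184) (.e (nat_lit 426125) (nat_lit 2) (.e (nat_lit 196666) (nat_lit 13) (.e (nat_lit 65617) (nat_lit 10) (.e (nat_lit 344127) (nat_lit 26) .nil))))) (.g (nat_lit 0) (.e (nat_lit 58595) (nat_lit 0) .nil) .nil))))))) (.nd (nat_lit 6) (.nd (nat_lit 7) (.nd (nat_lit 8) (.nd (nat_lit 9) 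
(.lf (nat_lit 460839) (.g (nat_lit 875) (.e (nat_lit 2845) (nat_lit 184) (.e (nat_lit 426438) (nat_lit 18) (.e (nat_lit 98381) (nat_lit 31) (.e (nat_lit 466954) (nat_lit 11) .nil)))) (.g (nat_lit 0) (.e (nat_lit 56283) (nat_lit 0) .nil) .nil))) 
(.lf (nat_lit 461351) (.g (nat_lit 2840) (.e (nat_lit 2874) (nat_lit 184) (.e (nat_lit 426125) (nat_lit 2) (.e (nat_lit 196666) (nat_lit 13) (.e (nat_lit 65617) (nat_lit 10) .nil)))) (.g (nat_lit 0) (.e (nat_lit 57395) (nat_lit 0) .nil) .nil)))) (.nd (nat_lit 9) 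
(.lf (nat_lit 461095) (.g (nat_lit 1336) (.e (nat_lit 2855) (nat_lit 184) (.e (nat_lit 426542) (nat_lit 29) (.e (nat_lit 352267) (nat_lit 0) (.e (nat_lit 3629) (nat_lit 227) (.e (nat_lit 778324) (nat_lit 5) (.e (nat_lit 73781) (nat_lit 32) .nil)))))) (.g (nat_lit 1) (.e (nat_lit 56785) (nat_lit 0) .nil) .nil))) 
(.lf (nat_lit 461607) (.g (nat_lit 3697) (.e (nat_lit 2887) (nat_lit 184) (.e (nat_lit 433920) (nat_lit 3) (.e (nat_lit 204869) (nat_lit 29) (.e (nat_lit 360474) (nat_lit 8) (.e (nat_lit 557089) (nat_lit 12) (.e (nat_lit 164017) (nat_lit 44) (.e (nat_lit 688139) (nat_lit 5) .nil))))))) (.g (nat_lit 1) (.e (nat_lit 57966) (nat_lit 0) .nil) .nil))))) (.nd (nat_lit 8) (.nd (nat_lit 9) 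
(.lf (nat_lit 460967) (.g (nat_lit 1755) (.e (nat_lit 2854) (nat_lit 184) (.e (nat_lit 426436) (nat_lit 18) (.e (nat_lit 98358) (nat_lit 26) (.e (nat_lit 426436) (nat_lit 18) .nil)))) (.g (nat_lit 0) (.e (nat_lit 56591) (nat_lit 0) .nil) .nil))) 
(.lf (nat_lit 461479) (.g (nat_lit 2485) (.e (nat_lit 2878) (nat_lit 184) (.e (nat_lit 426310) (nat_lit 12) (.e (nat_lit 475185) (nat_lit 29) (.e (nat_lit 557107) (nat_lit 15) (.e (nat_lit 188441) (nat_lit 20) .nil))))) (.g (nat_lit 0) (.e (nat_lit 57803) (nat_lit 0) .nil) .nil)))) (.nd (nat_lit 9) 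
(.lf (nat_lit 461223) (.g (nat_lit 1863) (.e (nat_lit 2857) (nat_lit 184) (.e (nat_lit 426509) (nat_lit 27) (.e (nat_lit 336193) (nat_lit 12) (.e (nat_lit 385093) (nat_lit 49) (.e (nat_lit 778323) (nat_lit 5) .nil))))) (.g (nat_lit 0) (.e (nat_lit 56974) (nat_lit 0) .nil) .nil))) 
(.lf (nat_lit 461735) (.g (nat_lit 3129) (.e (nat_lit 2889) (nat_lit 184) (.e (nat_lit 426125) (nat_lit 2) (.e (nat_lit 196666) (nat_lit 13) (.e (nat_lit 65617) (nat_lit 10) .nil)))) (.g (nat_lit 0) (.e (nat_lit 58476) (nat_lit 0) .nil) .nil)))))) (.nd (nat_lit 7) (.nd (nat_lit 8) (.nd (nat_lit 9) 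
(.lf (nat_lit 460903) (.g (nat_lit 1943) (.e (nat_lit 2851) (nat_lit 184) (.e (nat_lit 426566) (nat_lit 34) (.e (nat_lit 393268) (nat_lit 23) (.e (nat_lit 426438) (nat_lit 18) (.e (nat_lit 98334) (nat_lit 18) .nil))))) (.g (nat_lit 0) (.e (nat_lit 56427) (nat_lit 0) .nil) .nil))) 
(.lf (nat_lit 461415) (.g (nat_lit 4314) (.e (nat_lit 2877) (nat_lit 184) (.e (nat_lit 426125) (nat_lit 2) (.e (nat_lit 196666) (nat_lit 13) (.e (nat_lit 65617) (nat_lit 10) (.e (nat_lit 344133) (nat_lit 26) (.e (nat_lit 557089) (nat_lit 12) (.e (nat_lit 164017) (nat_lit 44) (.e (nat_lit 688140) (nat_lit 5) .nil)))))))) (.g (nat_lit 1) (.e (nat_lit 57519) (nat_lit 0) .nil) .nil)))) 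
(.nd (nat_lit 9) 
(.lf (nat_lit 461159) (.g (nat_lit 2721) (.e (nat_lit 2856) (nat_lit 184) (.e (nat_lit 426509) (nat_lit 27) (.e (nat_lit 336226) (nat_lit 14) (.e (nat_lit 401437) (nat_lit 9) (.e (nat_lit 426533) (nat_lit 28) (.e (nat_lit 344068) (nat_lit 0) .nil)))))) (.g (nat_lit 1) (.e (nat_lit 56865) (nat_lit 0) .nil) .nil))) 
(.lf (nat_lit 461671) (.g (nat_lit 2313) (.e (nat_lit 2887) (nat_lit 184) (.e (nat_lit 426317) (nat_lit 12) (.e (nat_lit 475211) (nat_lit 41) (.e (nat_lit 712753) (nat_lit 30) (.e (nat_lit 450561) (nat_lit 0) (.e (nat_lit 5529) (nat_lit 306) (.e (nat_lit 2508) (nat_lit 157) .nil))))))) (.g (nat_lit 1) (.e (nat_lit 58281) (nat_lit 0) .nil) .nil))))) (.nd (nat_lit 8) (.nd (nat_lit 9) 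
(.lf (nat_lit 461031) (.g (nat_lit 2205) (.e (nat_lit 2854) (nat_lit 184) (.e (nat_lit 426568) (nat_lit 34) (.e (nat_lit 393271) (nat_lit 23) (.e (nat_lit 426131) (nat_lit 3) (.e (nat_lit 204830) (nat_lit 18) .nil))))) (.g (nat_lit 0) (.e (nat_lit 56692) (nat_lit 0) .nil) .nil))) 
(.lf (nat_lit 461543) (.g (nat_lit 4271) (.e (nat_lit 2887) (nat_lit 184) (.e (nat_lit 426125) (nat_lit 2) (.e (nat_lit 196666) (nat_lit 13) (.e (nat_lit 65617) (nat_lit 10) (.e (nat_lit 344130) (nat_lit 26) (.e (nat_lit 557090) (nat_lit 12) (.e (nat_lit 164016) (nat_lit 44) (.e (nat_lit 688138) (nat_lit 5) .nil)))))))) (.g (nat_lit 1) (.e (nat_lit 57901) (nat_lit 0) .nil) .nil)))) 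
(.nd (nat_lit 9) 
(.lf (nat_lit 461287) (.g (nat_lit 1973) (.e (nat_lit 2862) (nat_lit 184) (.e (nat_lit 426506) (nat_lit 27) (.e (nat_lit 336205) (nat_lit 12) (.e (nat_lit 385093) (nat_lit 49) (.e (nat_lit 778324) (nat_lit 5) (.e (nat_lit 81664) (nat_lit 32) .nil)))))) (.g (nat_lit 1) (.e (nat_lit 57134) (nat_lit 0) .nil) .nil))) 
(.lf (nat_lit 461799) (.g (nat_lit 1535) (.e (nat_lit 2884) (nat_lit 184) (.e (nat_lit 426140) (nat_lit 3) (.e (nat_lit 204868) (nat_lit 29) (.e (nat_lit 360473) (nat_lit 8) (.e (nat_lit 557091) (nat_lit 12) .nil))))) (.g (nat_lit 0) (.e (nat_lit 58716) (nat_lit 0) .nil) .nil)))))))) (.nd (nat_lit 5) (.nd (nat_lit 6) (.nd (nat_lit 7) (.nd (nat_lit 8) (.nd (nat_lit 9) 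
(.lf (nat_lit 460823) (.g (nat_lit 588) (.e (nat_lit 2845) (nat_lit 184) (.e (nat_lit 426436) (nat_lit 18) (.e (nat_lit 98335) (nat_lit 18) .nil))) (.g (nat_lit 0) (.e (nat_lit 56266) (nat_lit 0) .nil) .nil))) 
(.lf (nat_lit 461335) (.g (nat_lit 3484) (.e (nat_lit 2873) (nat_lit 184) (.e (nat_lit 426125) (nat_lit 2) (.e (nat_lit 196666) (nat_lit 13) (.e (nat_lit 65617) (nat_lit 10) (.e (nat_lit 344133) (nat_lit 26) .nil))))) (.g (nat_lit 0) (.e (nat_lit 57356) (nat_lit 0) .nil) .nil)))) (.nd (nat_lit 9) 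
(.lf (nat_lit 461079) (.g (nat_lit 215) (.e (nat_lit 2855) (nat_lit 184) (.e (nat_lit 426533) (nat_lit 28) (.e (nat_lit 344075) (nat_lit 13) .nil))) (.g (nat_lit 0) (.e (nat_lit 56758) (nat_lit 0) .nil) .nil))) 
(.lf (nat_lit 461591) (.g (nat_lit 5143) (.e (nat_lit 2887) (nat_lit 184) (.e (nat_lit 426136) (nat_lit 3) (.e (nat_lit 204869) (nat_lit 29) (.e (nat_lit 360475) (nat_lit 8) (.e (nat_lit 557091) (nat_lit 12) (.e (nat_lit 164017) (nat_lit 44) (.e (nat_lit 688138) (nat_lit 5) .nil))))))) (.g (nat_lit 1) (.e (nat_lit 57950) (nat_lit 0) .nil) .nil))))) (.nd (nat_lit 8) (.nd (nat_lit 9) 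
(.lf (nat_lit 460951) (.g (nat_lit 2520) (.e (nat_lit 2854) (nat_lit 184) (.e (nat_lit 426320) (nat_lit 12) (.e (nat_lit 475209) (nat_lit 41) (.e (nat_lit 712755) (nat_lit 30) (.e (nat_lit 450563) (nat_lit 0) (.e (nat_lit 5537) (nat_lit 306) (.e (nat_lit 2515) (nat_lit 157) .nil))))))) (.g (nat_lit 1) (.e (nat_lit 56555) (nat_lit 0) .nil) .nil))) 
(.lf (nat_lit 461463) (.g (nat_lit 2457) (.e (nat_lit 2878) (nat_lit 184) (.e (nat_lit 426132) (nat_lit 3) (.e (nat_lit 204869) (nat_lit 29) (.e (nat_lit 360474) (nat_lit 8) (.e (nat_lit 557091) (nat_lit 12) .nil))))) (.g (nat_lit 0) (.e (nat_lit 57710) (nat_lit 0) .nil) .nil)))) (.nd (nat_lit 9) 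
(.lf (nat_lit 461207) (.g (nat_lit 584) (.e (nat_lit 2857) (nat_lit 184) (.e (nat_lit 426482) (nat_lit 27) (.e (nat_lit 336056) (nat_lit 7) .nil))) (.g (nat_lit 0) (.e (nat_lit 56927) (nat_lit 0) .nil) .nil))) 
(.lf (nat_lit 461719) (.g (nat_lit 2579) (.e (nat_lit 2888) (nat_lit 184) (.e (nat_lit 426125) (nat_lit 2) (.e (nat_lit 196666) (nat_lit 13) (.e (nat_lit 65610) (nat_lit 10) .nil)))) (.g (nat_lit 0) (.e (nat_lit 58449) (nat_lit 0) .nil) .nil)))))) (.nd (nat_lit 7) (.nd (nat_lit 8) (.nd (nat_lit 9) 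
(.lf (nat_lit 460887) (.g (nat_lit 1755) (.e (nat_lit 2849) (nat_lit 184) (.e (nat_lit 426436) (nat_lit 18) (.e (nat_lit 98358) (nat_lit 26) (.e (nat_lit 426436) (nat_lit 18) .nil)))) (.g (nat_lit 0) (.e (nat_lit 56389) (nat_lit 0) .nil) .nil))) 
(.lf (nat_lit 461399) (.g (nat_lit 4915) (.e (nat_lit 2877) (nat_lit 184) (.e (nat_lit 426125) (nat_lit 2) (.e (nat_lit 196666) (nat_lit 13) (.e (nat_lit 65617) (nat_lit 10) (.e (nat_lit 344130) (nat_lit 26) (.e (nat_lit 557090) (nat_lit 12) (.e (nat_lit 164017) (nat_lit 44) (.e (nat_lit 688139) (nat_lit 5) .nil)))))))) (.g (nat_lit 1) (.e (nat_lit 57503) (nat_lit 0) .nil) .nil)))) 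
(.nd (nat_lit 9) 
(.lf (nat_lit 461143) (.g (nat_lit 1507) (.e (nat_lit 2856) (nat_lit 184) (.e (nat_lit 426482) (nat_lit 27) (.e (nat_lit 336060) (nat_lit 7) (.e (nat_lit 327424) (nat_lit 18) .nil)))) (.g (nat_lit 0) (.e (nat_lit 56848) (nat_lit 0) .nil) .nil))) 
(.lf (nat_lit 461655) (.g (nat_lit 2513) (.e (nat_lit 2887) (nat_lit 184) (.e (nat_lit 426216) (nat_lit 9) (.e (nat_lit 426528) (nat_lit 27) (.e (nat_lit 336231) (nat_lit 14) (.e (nat_lit 401446) (nat_lit 10) (.e (nat_lit 434286) (nat_lit 42) (.e (nat_lit 688139) (nat_lit 5) .nil))))))) (.g (nat_lit 1) (.e (nat_lit 58079) (nat_lit 0) .nil) .nil))))) (.nd (nat_lit 8) (.nd (nat_lit 9) 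
(.lf (nat_lit 461015) (.g (nat_lit 2521) (.e (nat_lit 2854) (nat_lit 184) (.e (nat_lit 426566) (nat_lit 34) (.e (nat_lit 393271) (nat_lit 23) (.e (nat_lit 426131) (nat_lit 3) (.e (nat_lit 204829) (nat_lit 18) (.e (nat_lit 57657) (nat_lit 152) (.e (nat_lit 2476) (nat_lit 157) .nil))))))) (.g (nat_lit 1) (.e (nat_lit 56656) (nat_lit 0) .nil) .nil))) 
(.lf (nat_lit 461527) (.g (nat_lit 2857) (.e (nat_lit 2887) (nat_lit 184) (.e (nat_lit 426113) (nat_lit 2) (.e (nat_lit 196666) (nat_lit 13) (.e (nat_lit 65617) (nat_lit 10) (.e (nat_lit 344132) (nat_lit 26) (.e (nat_lit 557094) (nat_lit 12) (.e (nat_lit 164016) (nat_lit 44) (.e (nat_lit 688139) (nat_lit 5) .nil)))))))) (.g (nat_lit 1) (.e (nat_lit 57885) (nat_lit 0) .nil) .nil)))) 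
(.nd (nat_lit 9) 
(.lf (nat_lit 461271) (.g (nat_lit 4114) (.e (nat_lit 2862) (nat_lit 184) (.e (nat_lit 426436) (nat_lit 18) (.e (nat_lit 98335) (nat_lit 18) (.e (nat_lit 164330) (nat_lit 230) .nil)))) (.g (nat_lit 0) (.e (nat_lit 57113) (nat_lit 0) .nil) .nil))) 
(.lf (nat_lit 461783) (.g (nat_lit 2596) (.e (nat_lit 2884) (nat_lit 184) (.e (nat_lit 426125) (nat_lit 2) (.e (nat_lit 196666) (nat_lit 13) (.e (nat_lit 65617) (nat_lit 10) (.e (nat_lit 344127) (nat_lit 26) (.e (nat_lit 557088) (nat_lit 12) (.e (nat_lit 164020) (nat_lit 45) (.e (nat_lit 696330) (nat_lit 5) .nil)))))))) (.g (nat_lit 1) (.e (nat_lit 58682) (nat_lit 0) .nil) .nil))))))) 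
(.nd (nat_lit 6) (.nd (nat_lit 7) (.nd (nat_lit 8) (.nd (nat_lit 9) 
(.lf (nat_lit 460855) (.g (nat_lit 2126) (.e (nat_lit 2845) (nat_lit 184) (.e (nat_lit 426568) (nat_lit 34) (.e (nat_lit 393271) (nat_lit 23) (.e (nat_lit 426131) (nat_lit 3) (.e (nat_lit 204830) (nat_lit 18) (.e (nat_lit 57661) (nat_lit 152) (.e (nat_lit 2466) (nat_lit 157) .nil))))))) (.g (nat_lit 1) (.e (nat_lit 56314) (nat_lit 0) .nil) .nil))) 
(.lf (nat_lit 461367) (.g (nat_lit 847) (.e (nat_lit 2877) (nat_lit 184) (.e (nat_lit 426125) (nat_lit 2) (.e (nat_lit 196661) (nat_lit 12) .nil))) (.g (nat_lit 0) (.e (nat_lit 57437) (nat_lit 0) .nil) .nil)))) (.nd (nat_lit 9) 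
(.lf (nat_lit 461111) (.g (nat_lit 1551) (.e (nat_lit 2855) (nat_lit 184) (.e (nat_lit 426546) (nat_lit 30) (.e (nat_lit 360486) (nat_lit 18) (.e (nat_lit 671763) (nat_lit 5) (.e (nat_lit 73781) (nat_lit 32) .nil))))) (.g (nat_lit 1) (.e (nat_lit 56801) (nat_lit 0) .nil) .nil))) 
(.lf (nat_lit 461623) (.g (nat_lit 2907) (.e (nat_lit 2887) (nat_lit 184) (.e (nat_lit 426171) (nat_lit 7) (.e (nat_lit 409646) (nat_lit 18) (.e (nat_lit 303140) (nat_lit 10) (.e (nat_lit 434275) (nat_lit 39) (.e (nat_lit 663580) (nat_lit 9) (.e (nat_lit 2416) (nat_lit 157) (.e (nat_lit 3459) (nat_lit 216) (.e (nat_lit 688139) (nat_lit 5) .nil))))))))) (.g (nat_lit 1) (.e (nat_lit 58013) (nat_lit 0) .nil) .nil))))) 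
(.nd (nat_lit 8) (.nd (nat_lit 9) 
(.lf (nat_lit 460983) (.g (nat_lit 230) (.e (nat_lit 2854) (nat_lit 184) (.e (nat_lit 426533) (nat_lit 28) (.e (nat_lit 344066) (nat_lit 0) .nil))) (.g (nat_lit 0) (.e (nat_lit 56620) (nat_lit 0) .nil) .nil))) 
(.lf (nat_lit 461495) (.g (nat_lit 3127) (.e (nat_lit 2879) (nat_lit 184) (.e (nat_lit 426125) (nat_lit 2) (.e (nat_lit 196666) (nat_lit 13) (.e (nat_lit 65617) (nat_lit 10) .nil)))) (.g (nat_lit 0) (.e (nat_lit 57831) (nat_lit 0) .nil) .nil)))) (.nd (nat_lit 9) 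
(.lf (nat_lit 461239) (.g (nat_lit 2642) (.e (nat_lit 2857) (nat_lit 184) (.e (nat_lit 426533) (nat_lit 28) (.e (nat_lit 344069) (nat_lit 0) (.e (nat_lit 3090) (nat_lit 191) (.e (nat_lit 483350) (nat_lit 17) (.e (nat_lit 6677) (nat_lit 357) .nil)))))) (.g (nat_lit 1) (.e (nat_lit 56991) (nat_lit 0) .nil) .nil))) 
(.lf (nat_lit 461751) (.g (nat_lit 3461) (.e (nat_lit 2882) (nat_lit 184) (.e (nat_lit 426125) (nat_lit 2) (.e (nat_lit 196666) (nat_lit 13) (.e (nat_lit 65617) (nat_lit 10) (.e (nat_lit 344127) (nat_lit 26) .nil))))) (.g (nat_lit 0) (.e (nat_lit 58549) (nat_lit 0) .nil) .nil)))))) (.nd (nat_lit 7) (.nd (nat_lit 8) (.nd (nat_lit 9) 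
(.lf (nat_lit 460919) (.g (nat_lit 2257) (.e (nat_lit 2852) (nat_lit 184) (.e (nat_lit 426438) (nat_lit 18) (.e (nat_lit 98370) (nat_lit 28) (.e (nat_lit 442391) (nat_lit 19) (.e (nat_lit 401413) (nat_lit 0) (.e (nat_lit 3459) (nat_lit 216) (.e (nat_lit 688139) (nat_lit 5) .nil))))))) (.g (nat_lit 1) (.e (nat_lit 56448) (nat_lit 0) .nil) .nil))) 
(.lf (nat_lit 461431) (.g (nat_lit 2825) (.e (nat_lit 2878) (nat_lit 184) (.e (nat_lit 426125) (nat_lit 2) (.e (nat_lit 196666) (nat_lit 13) (.e (nat_lit 65610) (nat_lit 10) (.e (nat_lit 344128) (nat_lit 26) .nil))))) (.g (nat_lit 0) (.e (nat_lit 57647) (nat_lit 0) .nil) .nil)))) (.nd (nat_lit 9) 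
(.lf (nat_lit 461175) (.g (nat_lit 2021) (.e (nat_lit 2856) (nat_lit 184) (.e (nat_lit 426533) (nat_lit 28) (.e (nat_lit 344068) (nat_lit 0) (.e (nat_lit 3090) (nat_lit 191) (.e (nat_lit 483350) (nat_lit 17) (.e (nat_lit 6679) (nat_lit 357) .nil)))))) (.g (nat_lit 1) (.e (nat_lit 56881) (nat_lit 0) .nil) .nil))) 
(.lf (nat_lit 461687) (.g (nat_lit 3543) (.e (nat_lit 2887) (nat_lit 184) (.e (nat_lit 426412) (nat_lit 15) (.e (nat_lit 1856) (nat_lit 124) (.e (nat_lit 557101) (nat_lit 13) (.e (nat_lit 172115) (nat_lit 10) (.e (nat_lit 434231) (nat_lit 23) (.e (nat_lit 532481) (nat_lit 0) (.e (nat_lit 6617) (nat_lit 357) .nil)))))))) (.g (nat_lit 1) (.e (nat_lit 58390) (nat_lit 0) .nil) .nil))))) 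
(.nd (nat_lit 8) (.nd (nat_lit 9) 
(.lf (nat_lit 461047) (.g (nat_lit 4064) (.e (nat_lit 2855) (nat_lit 184) (.e (nat_lit 426402) (nat_lit 15) (.e (nat_lit 1858) (nat_lit 124) (.e (nat_lit 557101) (nat_lit 13) (.e (nat_lit 172097) (nat_lit 9) (.e (nat_lit 426125) (nat_lit 2) (.e (nat_lit 196661) (nat_lit 12) (.e (nat_lit 57750) (nat_lit 201) .nil)))))))) (.g (nat_lit 1) (.e (nat_lit 56717) (nat_lit 0) .nil) .nil))) 
(.lf (nat_lit 461559) (.g (nat_lit 3351) (.e (nat_lit 2887) (nat_lit 184) (.e (nat_lit 426132) (nat_lit 3) (.e (nat_lit 204869) (nat_lit 29) (.e (nat_lit 360475) (nat_lit 8) (.e (nat_lit 557091) (nat_lit 12) (.e (nat_lit 164017) (nat_lit 44) (.e (nat_lit 688138) (nat_lit 5) .nil))))))) (.g (nat_lit 1) (.e (nat_lit 57917) (nat_lit 0) .nil) .nil)))) (.nd (nat_lit 9) 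
(.lf (nat_lit 461303) (.g (nat_lit 2041) (.e (nat_lit 2862) (nat_lit 184) (.e (nat_lit 426566) (nat_lit 34) (.e (nat_lit 393291) (nat_lit 26) (.e (nat_lit 475177) (nat_lit 24) (.e (nat_lit 516117) (nat_lit 1) .nil))))) (.g (nat_lit 0) (.e (nat_lit 57158) (nat_lit 0) .nil) .nil))) 
(.lf (nat_lit 461815) (.g (nat_lit 4080) (.e (nat_lit 2884) (nat_lit 184) (.e (nat_lit 426140) (nat_lit 3) (.e (nat_lit 204869) (nat_lit 29) (.e (nat_lit 360475) (nat_lit 8) (.e (nat_lit 557090) (nat_lit 12) (.e (nat_lit 164020) (nat_lit 45) (.e (nat_lit 696328) (nat_lit 5) .nil))))))) (.g (nat_lit 1) (.e (nat_lit 58734) (nat_lit 0) .nil) .nil))))))))) 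
(.nd (nat_lit 4) (.nd (nat_lit 5) (.nd (nat_lit 6) (.nd (nat_lit 7) (.nd (nat_lit 8) 
(.nd (nat_lit 9) 
(.lf (nat_lit 460815) (.g (nat_lit 2202) (.e (nat_lit 2844) (nat_lit 184) (.e (nat_lit 426568) (nat_lit 34) (.e (nat_lit 393271) (nat_lit 23) (.e (nat_lit 426131) (nat_lit 3) (.e (nat_lit 204829) (nat_lit 18) .nil))))) (.g (nat_lit 0) (.e (nat_lit 56252) (nat_lit 0) .nil) .nil))) 
(.lf (nat_lit 461327) (.g (nat_lit 3441) (.e (nat_lit 2872) (nat_lit 184) (.e (nat_lit 426136) (nat_lit 3) (.e (nat_lit 204869) (nat_lit 29) (.e (nat_lit 360474) (nat_lit 8) (.e (nat_lit 557091) (nat_lit 12) (.e (nat_lit 164020) (nat_lit 45) (.e (nat_lit 696327) (nat_lit 5) .nil))))))) (.g (nat_lit 1) (.e (nat_lit 57338) (nat_lit 0) .nil) .nil)))) (.nd (nat_lit 9) 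
(.lf (nat_lit 461071) (.g (nat_lit 2666) (.e (nat_lit 2855) (nat_lit 184) (.e (nat_lit 426533) (nat_lit 28) (.e (nat_lit 344068) (nat_lit 0) (.e (nat_lit 2856) (nat_lit 184) (.e (nat_lit 426533) (nat_lit 28) (.e (nat_lit 344068) (nat_lit 0) .nil)))))) (.g (nat_lit 1) (.e (nat_lit 56744) (nat_lit 0) .nil) .nil))) 
(.lf (nat_lit 461583) (.g (nat_lit 2589) (.e (nat_lit 2887) (nat_lit 184) (.e (nat_lit 426136) (nat_lit 3) (.e (nat_lit 204868) (nat_lit 29) (.e (nat_lit 360473) (nat_lit 8) (.e (nat_lit 557089) (nat_lit 12) (.e (nat_lit 164017) (nat_lit 44) (.e (nat_lit 688139) (nat_lit 5) .nil))))))) (.g (nat_lit 1) (.e (nat_lit 57942) (nat_lit 0) .nil) .nil))))) (.nd (nat_lit 8) (.nd (nat_lit 9) 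
(.lf (nat_lit 460943) (.g (nat_lit 2410) (.e (nat_lit 2854) (nat_lit 184) (.e (nat_lit 426320) (nat_lit 12) (.e (nat_lit 475185) (nat_lit 29) (.e (nat_lit 557100) (nat_lit 13) (.e (nat_lit 172113) (nat_lit 10) .nil))))) (.g (nat_lit 0) (.e (nat_lit 56534) (nat_lit 0) .nil) .nil))) 
(.lf (nat_lit 461455) (.g (nat_lit 5513) (.e (nat_lit 2878) (nat_lit 184) (.e (nat_lit 426125) (nat_lit 2) (.e (nat_lit 196666) (nat_lit 13) (.e (nat_lit 65617) (nat_lit 10) (.e (nat_lit 344133) (nat_lit 26) (.e (nat_lit 557089) (nat_lit 12) (.e (nat_lit 164020) (nat_lit 45) (.e (nat_lit 696330) (nat_lit 5) .nil)))))))) (.g (nat_lit 1) (.e (nat_lit 57693) (nat_lit 0) .nil) .nil)))) 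
(.nd (nat_lit 9) 
(.lf (nat_lit 461199) (.g (nat_lit 1724) (.e (nat_lit 2856) (nat_lit 184) (.e (nat_lit 426568) (nat_lit 34) (.e (nat_lit 393271) (nat_lit 23) (.e (nat_lit 426131) (nat_lit 3) .nil)))) (.g (nat_lit 0) (.e (nat_lit 56907) (nat_lit 0) .nil) .nil))) 
(.lf (nat_lit 461711) (.g (nat_lit 3651) (.e (nat_lit 2887) (nat_lit 184) (.e (nat_lit 426499) (nat_lit 27) (.e (nat_lit 336231) (nat_lit 14) (.e (nat_lit 401434) (nat_lit 9) (.e (nat_lit 426470) (nat_lit 25) (.e (nat_lit 319490) (nat_lit 0) (.e (nat_lit 5664) (nat_lit 312) .nil))))))) (.g (nat_lit 1) (.e (nat_lit 58435) (nat_lit 0) .nil) .nil)))))) 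
(.nd (nat_lit 7) (.nd (nat_lit 8) (.nd (nat_lit 9) 
(.lf (nat_lit 460879) (.g (nat_lit 2683) (.e (nat_lit 2848) (nat_lit 184) (.e (nat_lit 426566) (nat_lit 34) (.e (nat_lit 393271) (nat_lit 23) (.e (nat_lit 426436) (nat_lit 18) (.e (nat_lit 98335) (nat_lit 18) .nil))))) (.g (nat_lit 0) (.e (nat_lit 56377) (nat_lit 0) .nil) .nil))) 
(.lf (nat_lit 461391) (.g (nat_lit 4211) (.e (nat_lit 2877) (nat_lit 184) (.e (nat_lit 426125) (nat_lit 2) (.e (nat_lit 196666) (nat_lit 13) (.e (nat_lit 65617) (nat_lit 10) (.e (nat_lit 344130) (nat_lit 26) (.e (nat_lit 557089) (nat_lit 12) (.e (nat_lit 164017) (nat_lit 44) (.e (nat_lit 688140) (nat_lit 5) .nil)))))))) (.g (nat_lit 1) (.e (nat_lit 57495) (nat_lit 0) .nil) .nil)))) 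
(.nd (nat_lit 9) 
(.lf (nat_lit 461135) (.g (nat_lit 2649) (.e (nat_lit 2856) (nat_lit 184) (.e (nat_lit 426402) (nat_lit 15) (.e (nat_lit 1859) (nat_lit 124) (.e (nat_lit 557098) (nat_lit 13) (.e (nat_lit 172115) (nat_lit 10) (.e (nat_lit 434231) (nat_lit 23) (.e (nat_lit 532482) (nat_lit 0) (.e (nat_lit 6643) (nat_lit 357) .nil)))))))) (.g (nat_lit 1) (.e (nat_lit 56833) (nat_lit 0) .nil) .nil))) 
(.lf (nat_lit 461647) (.g (nat_lit 2200) (.e (nat_lit 2887) (nat_lit 184) (.e (nat_lit 426212) (nat_lit 9) (.e (nat_lit 426528) (nat_lit 27) (.e (nat_lit 336231) (nat_lit 14) (.e (nat_lit 401446) (nat_lit 10) (.e (nat_lit 434286) (nat_lit 42) (.e (nat_lit 688138) (nat_lit 5) .nil))))))) (.g (nat_lit 1) (.e (nat_lit 58071) (nat_lit 0) .nil) .nil))))) (.nd (nat_lit 8) (.nd (nat_lit 9) 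
(.lf (nat_lit 461007) (.g (nat_lit 1160) (.e (nat_lit 2854) (nat_lit 184) (.e (nat_lit 426555) (nat_lit 32) (.e (nat_lit 376856) (nat_lit 21) .nil))) (.g (nat_lit 0) (.e (nat_lit 56648) (nat_lit 0) .nil) .nil))) 
(.lf (nat_lit 461519) (.g (nat_lit 3378) (.e (nat_lit 2887) (nat_lit 184) (.e (nat_lit 426113) (nat_lit 2) (.e (nat_lit 196666) (nat_lit 13) (.e (nat_lit 65610) (nat_lit 10) (.e (nat_lit 344129) (nat_lit 26) (.e (nat_lit 557090) (nat_lit 12) (.e (nat_lit 164016) (nat_lit 44) (.e (nat_lit 688139) (nat_lit 5) .nil)))))))) (.g (nat_lit 1) (.e (nat_lit 57877) (nat_lit 0) .nil) .nil)))) 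
(.nd (nat_lit 9) 
(.lf (nat_lit 461263) (.g (nat_lit 4584) (.e (nat_lit 2859) (nat_lit 184) (.e (nat_lit 426436) (nat_lit 18) (.e (nat_lit 98335) (nat_lit 18) (.e (nat_lit 164327) (nat_lit 230) .nil)))) (.g (nat_lit 0) (.e (nat_lit 57034) (nat_lit 0) .nil) .nil))) 
(.lf (nat_lit 461775) (.g (nat_lit 4770) (.e (nat_lit 2883) (nat_lit 184) (.e (nat_lit 426125) (nat_lit 2) (.e (nat_lit 196666) (nat_lit 13) (.e (nat_lit 65617) (nat_lit 10) (.e (nat_lit 344133) (nat_lit 26) (.e (nat_lit 557091) (nat_lit 12) (.e (nat_lit 164017) (nat_lit 44) (.e (nat_lit 688140) (nat_lit 5) .nil)))))))) (.g (nat_lit 1) (.e (nat_lit 58603) (nat_lit 0) .nil) .nil))))))) 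
(.nd (nat_lit 6) (.nd (nat_lit 7) (.nd (nat_lit 8) (.nd (nat_lit 9) 
(.lf (nat_lit 460847) (.g (nat_lit 1758) (.e (nat_lit 2845) (nat_lit 184) (.e (nat_lit 426566) (nat_lit 34) (.e (nat_lit 393271) (nat_lit 23) (.e (nat_lit 426131) (nat_lit 3) .nil)))) (.g (nat_lit 0) (.e (nat_lit 56302) (nat_lit 0) .nil) .nil))) 
(.lf (nat_lit 461359) (.g (nat_lit 3909) (.e (nat_lit 2876) (nat_lit 184) (.e (nat_lit 426125) (nat_lit 2) (.e (nat_lit 196666) (nat_lit 13) (.e (nat_lit 65617) (nat_lit 10) (.e (nat_lit 344130) (nat_lit 26) .nil))))) (.g (nat_lit 0) (.e (nat_lit 57414) (nat_lit 0) .nil) .nil)))) (.nd (nat_lit 9) 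
(.lf (nat_lit 461103) (.g (nat_lit 1681) (.e (nat_lit 2855) (nat_lit 184) (.e (nat_lit 426542) (nat_lit 29) (.e (nat_lit 352297) (nat_lit 20) (.e (nat_lit 2003) (nat_lit 138) (.e (nat_lit 671763) (nat_lit 5) (.e (nat_lit 73781) (nat_lit 32) .nil)))))) (.g (nat_lit 1) (.e (nat_lit 56793) (nat_lit 0) .nil) .nil))) 
(.lf (nat_lit 461615) (.g (nat_lit 2988) (.e (nat_lit 2887) (nat_lit 184) (.e (nat_lit 426170) (nat_lit 7) (.e (nat_lit 409649) (nat_lit 18) (.e (nat_lit 303140) (nat_lit 10) (.e (nat_lit 434275) (nat_lit 39) (.e (nat_lit 663584) (nat_lit 12) (.e (nat_lit 164017) (nat_lit 44) (.e (nat_lit 688138) (nat_lit 5) .nil)))))))) (.g (nat_lit 1) (.e (nat_lit 57984) (nat_lit 0) .nil) .nil))))) 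
(.nd (nat_lit 8) (.nd (nat_lit 9) 
(.lf (nat_lit 460975) (.g (nat_lit 603) (.e (nat_lit 2854) (nat_lit 184) (.e (nat_lit 426482) (nat_lit 27) (.e (nat_lit 336198) (nat_lit 12) .nil))) (.g (nat_lit 0) (.e (nat_lit 56612) (nat_lit 0) .nil) .nil))) 
(.lf (nat_lit 461487) (.g (nat_lit 3263) (.e (nat_lit 2878) (nat_lit 184) (.e (nat_lit 426317) (nat_lit 12) (.e (nat_lit 475185) (nat_lit 29) (.e (nat_lit 557107) (nat_lit 15) (.e (nat_lit 188440) (nat_lit 20) (.e (nat_lit 3272) (nat_lit 199) (.e (nat_lit 548898) (nat_lit 14) .nil))))))) (.g (nat_lit 1) (.e (nat_lit 57811) (nat_lit 0) .nil) .nil)))) (.nd (nat_lit 9) 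
(.lf (nat_lit 461231) (.g (nat_lit 2336) (.e (nat_lit 2857) (nat_lit 184) (.e (nat_lit 426530) (nat_lit 27) (.e (nat_lit 336206) (nat_lit 12) (.e (nat_lit 385094) (nat_lit 49) (.e (nat_lit 778323) (nat_lit 5) (.e (nat_lit 73781) (nat_lit 32) .nil)))))) (.g (nat_lit 1) (.e (nat_lit 56982) (nat_lit 0) .nil) .nil))) 
(.lf (nat_lit 461743) (.g (nat_lit 2624) (.e (nat_lit 2893) (nat_lit 184) (.e (nat_lit 426125) (nat_lit 2) (.e (nat_lit 196666) (nat_lit 13) (.e (nat_lit 65610) (nat_lit 10) .nil)))) (.g (nat_lit 0) (.e (nat_lit 58525) (nat_lit 0) .nil) .nil)))))) (.nd (nat_lit 7) (.nd (nat_lit 8) (.nd (nat_lit 9) 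
(.lf (nat_lit 460911) (.g (nat_lit 2822) (.e (nat_lit 2851) (nat_lit 184) (.e (nat_lit 426566) (nat_lit 34) (.e (nat_lit 393294) (nat_lit 26) (.e (nat_lit 475179) (nat_lit 24) (.e (nat_lit 516117) (nat_lit 1) .nil))))) (.g (nat_lit 0) (.e (nat_lit 56435) (nat_lit 0) .nil) .nil))) 
(.lf (nat_lit 461423) (.g (nat_lit 5262) (.e (nat_lit 2877) (nat_lit 184) (.e (nat_lit 426125) (nat_lit 2) (.e (nat_lit 196666) (nat_lit 13) (.e (nat_lit 65617) (nat_lit 10) (.e (nat_lit 344133) (nat_lit 26) (.e (nat_lit 557091) (nat_lit 12) (.e (nat_lit 164017) (nat_lit 44) (.e (nat_lit 688138) (nat_lit 5) .nil)))))))) (.g (nat_lit 1) (.e (nat_lit 57527) (nat_lit 0) .nil) .nil)))) 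
(.nd (nat_lit 9) 
(.lf (nat_lit 461167) (.g (nat_lit 3308) (.e (nat_lit 2856) (nat_lit 184) (.e (nat_lit 426530) (nat_lit 27) (.e (nat_lit 336235) (nat_lit 14) (.e (nat_lit 401459) (nat_lit 13) (.e (nat_lit 483350) (nat_lit 17) (.e (nat_lit 6677) (nat_lit 357) .nil)))))) (.g (nat_lit 1) (.e (nat_lit 56873) (nat_lit 0) .nil) .nil))) 
(.lf (nat_lit 461679) (.g (nat_lit 4491) (.e (nat_lit 2887) (nat_lit 184) (.e (nat_lit 426412) (nat_lit 15) (.e (nat_lit 1856) (nat_lit 124) (.e (nat_lit 557100) (nat_lit 13) (.e (nat_lit 172106) (nat_lit 10) (.e (nat_lit 434231) (nat_lit 23) (.e (nat_lit 532481) (nat_lit 0) (.e (nat_lit 7936) (nat_lit 357) .nil)))))))) (.g (nat_lit 1) (.e (nat_lit 58382) (nat_lit 0) .nil) .nil))))) 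
(.nd (nat_lit 8) (.nd (nat_lit 9) 
(.lf (nat_lit 461039) (.g (nat_lit 3081) (.e (nat_lit 2855) (nat_lit 184) (.e (nat_lit 426402) (nat_lit 15) (.e (nat_lit 1848) (nat_lit 124) (.e (nat_lit 557108) (nat_lit 15) (.e (nat_lit 188449) (nat_lit 22) (.e (nat_lit 196661) (nat_lit 12) (.e (nat_lit 57750) (nat_lit 201) .nil))))))) (.g (nat_lit 1) (.e (nat_lit 56709) (nat_lit 0) .nil) .nil))) 
(.lf (nat_lit 461551) (.g (nat_lit 3093) (.e (nat_lit 2887) (nat_lit 184) (.e (nat_lit 426132) (nat_lit 3) (.e (nat_lit 204855) (nat_lit 26) (.e (nat_lit 336176) (nat_lit 10) (.e (nat_lit 344133) (nat_lit 26) (.e (nat_lit 557089) (nat_lit 12) (.e (nat_lit 164017) (nat_lit 44) (.e (nat_lit 688139) (nat_lit 5) .nil)))))))) (.g (nat_lit 1) (.e (nat_lit 57909) (nat_lit 0) .nil) .nil)))) 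
(.nd (nat_lit 9) 
(.lf (nat_lit 461295) (.g (nat_lit 777) (.e (nat_lit 2862) (nat_lit 184) (.e (nat_lit 426544) (nat_lit 30) (.e (nat_lit 360486) (nat_lit 18) (.e (nat_lit 671763) (nat_lit 5) .nil)))) (.g (nat_lit 0) (.e (nat_lit 57144) (nat_lit 0) .nil) .nil))) 
(.lf (nat_lit 461807) (.g (nat_lit 4833) (.e (nat_lit 2884) (nat_lit 184) (.e (nat_lit 426140) (nat_lit 3) (.e (nat_lit 204869) (nat_lit 29) (.e (nat_lit 360472) (nat_lit 8) (.e (nat_lit 557090) (nat_lit 12) (.e (nat_lit 164020) (nat_lit 45) (.e (nat_lit 696329) (nat_lit 5) .nil))))))) (.g (nat_lit 1) (.e (nat_lit 58725) (nat_lit 0) .nil) .nil)))))))) 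
(.nd (nat_lit 5) (.nd (nat_lit 6) (.nd (nat_lit 7) (.nd (nat_lit 8) (.nd (nat_lit 9) 
(.lf (nat_lit 460831) (.g (nat_lit 637) (.e (nat_lit 2845) (nat_lit 184) (.e (nat_lit 426436) (nat_lit 18) (.e (nat_lit 98358) (nat_lit 26) .nil))) (.g (nat_lit 0) (.e (nat_lit 56275) (nat_lit 0) .nil) .nil))) 
(.lf (nat_lit 461343) (.g (nat_lit 3105) (.e (nat_lit 2873) (nat_lit 184) (.e (nat_lit 426211) (nat_lit 9) (.e (nat_lit 426125) (nat_lit 2) (.e (nat_lit 196625) (nat_lit 9) .nil)))) (.g (nat_lit 0) (.e (nat_lit 57365) (nat_lit 0) .nil) .nil)))) (.nd (nat_lit 9) 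
(.lf (nat_lit 461087) (.g (nat_lit 1540) (.e (nat_lit 2855) (nat_lit 184) (.e (nat_lit 426542) (nat_lit 29) (.e (nat_lit 352264) (nat_lit 0) (.e (nat_lit 3714) (nat_lit 227) (.e (nat_lit 778322) (nat_lit 5) (.e (nat_lit 73782) (nat_lit 32) .nil)))))) (.g (nat_lit 1) (.e (nat_lit 56777) (nat_lit 0) .nil) .nil))) 
(.lf (nat_lit 461599) (.g (nat_lit 4196) (.e (nat_lit 2887) (nat_lit 184) (.e (nat_lit 426140) (nat_lit 3) (.e (nat_lit 204855) (nat_lit 26) (.e (nat_lit 336176) (nat_lit 10) (.e (nat_lit 344133) (nat_lit 26) (.e (nat_lit 557091) (nat_lit 12) (.e (nat_lit 164017) (nat_lit 44) (.e (nat_lit 688139) (nat_lit 5) .nil)))))))) (.g (nat_lit 1) (.e (nat_lit 57958) (nat_lit 0) .nil) .nil))))) 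
(.nd (nat_lit 8) (.nd (nat_lit 9) 
(.lf (nat_lit 460959) (.g (nat_lit 4793) (.e (nat_lit 2854) (nat_lit 184) (.e (nat_lit 426436) (nat_lit 18) (.e (nat_lit 98335) (nat_lit 18) (.e (nat_lit 164327) (nat_lit 230) .nil)))) (.g (nat_lit 0) (.e (nat_lit 56581) (nat_lit 0) .nil) .nil))) 
(.lf (nat_lit 461471) (.g (nat_lit 3559) (.e (nat_lit 2878) (nat_lit 184) (.e (nat_lit 426140) (nat_lit 3) (.e (nat_lit 204869) (nat_lit 29) (.e (nat_lit 360474) (nat_lit 8) (.e (nat_lit 557088) (nat_lit 12) .nil))))) (.g (nat_lit 0) (.e (nat_lit 57723) (nat_lit 0) .nil) .nil)))) (.nd (nat_lit 9) 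
(.lf (nat_lit 461215) (.g (nat_lit 3399) (.e (nat_lit 2857) (nat_lit 184) (.e (nat_lit 426482) (nat_lit 27) (.e (nat_lit 336198) (nat_lit 12) (.e (nat_lit 385094) (nat_lit 49) (.e (nat_lit 778324) (nat_lit 5) (.e (nat_lit 73781) (nat_lit 32) .nil)))))) (.g (nat_lit 1) (.e (nat_lit 56961) (nat_lit 0) .nil) .nil))) 
(.lf (nat_lit 461727) (.g (nat_lit 2826) (.e (nat_lit 2888) (nat_lit 184) (.e (nat_lit 426140) (nat_lit 3) (.e (nat_lit 204869) (nat_lit 29) (.e (nat_lit 360475) (nat_lit 8) (.e (nat_lit 557089) (nat_lit 12) .nil))))) (.g (nat_lit 0) (.e (nat_lit 58463) (nat_lit 0) .nil) .nil)))))) (.nd (nat_lit 7) (.nd (nat_lit 8) (.nd (nat_lit 9) 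
(.lf (nat_lit 460895) (.g (nat_lit 2555) (.e (nat_lit 2850) (nat_lit 184) (.e (nat_lit 426538) (nat_lit 29) (.e (nat_lit 352262) (nat_lit 0) (.e (nat_lit 3632) (nat_lit 227) (.e (nat_lit 778323) (nat_lit 5) (.e (nat_lit 81664) (nat_lit 32) .nil)))))) (.g (nat_lit 1) (.e (nat_lit 56407) (nat_lit 0) .nil) .nil))) 
(.lf (nat_lit 461407) (.g (nat_lit 2765) (.e (nat_lit 2877) (nat_lit 184) (.e (nat_lit 426125) (nat_lit 2) (.e (nat_lit 196666) (nat_lit 13) (.e (nat_lit 65617) (nat_lit 10) (.e (nat_lit 344132) (nat_lit 26) (.e (nat_lit 557093) (nat_lit 12) (.e (nat_lit 164016) (nat_lit 44) (.e (nat_lit 688141) (nat_lit 5) .nil)))))))) (.g (nat_lit 1) (.e (nat_lit 57511) (nat_lit 0) .nil) .nil)))) 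
(.nd (nat_lit 9) 
(.lf (nat_lit 461151) (.g (nat_lit 577) (.e (nat_lit 2856) (nat_lit 184) (.e (nat_lit 426482) (nat_lit 27) (.e (nat_lit 336228) (nat_lit 14) .nil))) (.g (nat_lit 0) (.e (nat_lit 56857) (nat_lit 0) .nil) .nil))) 
(.lf (nat_lit 461663) (.g (nat_lit 2614) (.e (nat_lit 2887) (nat_lit 184) (.e (nat_lit 426217) (nat_lit 9) (.e (nat_lit 426528) (nat_lit 27) (.e (nat_lit 336231) (nat_lit 14) (.e (nat_lit 401448) (nat_lit 10) (.e (nat_lit 434286) (nat_lit 42) (.e (nat_lit 688138) (nat_lit 5) .nil))))))) (.g (nat_lit 1) (.e (nat_lit 58087) (nat_lit 0) .nil) .nil))))) (.nd (nat_lit 8) (.nd (nat_lit 9) 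
(.lf (nat_lit 461023) (.g (nat_lit 2435) (.e (nat_lit 2854) (nat_lit 184) (.e (nat_lit 426566) (nat_lit 34) (.e (nat_lit 393271) (nat_lit 23) (.e (nat_lit 426436) (nat_lit 18) (.e (nat_lit 98334) (nat_lit 18) .nil))))) (.g (nat_lit 0) (.e (nat_lit 56664) (nat_lit 0) .nil) .nil))) 
(.lf (nat_lit 461535) (.g (nat_lit 3224) (.e (nat_lit 2887) (nat_lit 184) (.e (nat_lit 426118) (nat_lit 2) (.e (nat_lit 196666) (nat_lit 13) (.e (nat_lit 65610) (nat_lit 10) (.e (nat_lit 344129) (nat_lit 26) (.e (nat_lit 557090) (nat_lit 12) (.e (nat_lit 164017) (nat_lit 44) (.e (nat_lit 688138) (nat_lit 5) .nil)))))))) (.g (nat_lit 1) (.e (nat_lit 57893) (nat_lit 0) .nil) .nil)))) 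
(.nd (nat_lit 9) 
(.lf (nat_lit 461279) (.g (nat_lit 2326) (.e (nat_lit 2862) (nat_lit 184) (.e (nat_lit 426436) (nat_lit 18) (.e (nat_lit 98386) (nat_lit 32) (.e (nat_lit 475177) (nat_lit 24) (.e (nat_lit 516146) (nat_lit 9) (.e (nat_lit 426428) (nat_lit 17) (.e (nat_lit 90134) (nat_lit 9) .nil))))))) (.g (nat_lit 1) (.e (nat_lit 57123) (nat_lit 0) .nil) .nil))) 
(.lf (nat_lit 461791) (.g (nat_lit 4621) (.e (nat_lit 2884) (nat_lit 184) (.e (nat_lit 426125) (nat_lit 2) (.e (nat_lit 196666) (nat_lit 13) (.e (nat_lit 65617) (nat_lit 10) (.e (nat_lit 344132) (nat_lit 26) (.e (nat_lit 557091) (nat_lit 12) (.e (nat_lit 164020) (nat_lit 45) (.e (nat_lit 696328) (nat_lit 5) .nil)))))))) (.g (nat_lit 1) (.e (nat_lit 58695) (nat_lit 0) .nil) .nil))))))) 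
(.nd (nat_lit 6) (.nd (nat_lit 7) (.nd (nat_lit 8) (.nd (nat_lit 9) 
(.lf (nat_lit 460863) (.g (nat_lit 1863) (.e (nat_lit 2846) (nat_lit 184) (.e (nat_lit 426566) (nat_lit 34) (.e (nat_lit 393294) (nat_lit 26) (.e (nat_lit 475177) (nat_lit 24) .nil)))) (.g (nat_lit 0) (.e (nat_lit 56335) (nat_lit 0) .nil) .nil))) 
(.lf (nat_lit 461375) (.g (nat_lit 5395) (.e (nat_lit 2877) (nat_lit 184) (.e (nat_lit 426125) (nat_lit 2) (.e (nat_lit 196666) (nat_lit 13) (.e (nat_lit 65610) (nat_lit 10) (.e (nat_lit 344129) (nat_lit 26) (.e (nat_lit 557090) (nat_lit 12) (.e (nat_lit 164017) (nat_lit 44) (.e (nat_lit 688138) (nat_lit 5) .nil)))))))) (.g (nat_lit 1) (.e (nat_lit 57479) (nat_lit 0) .nil) .nil)))) 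
(.nd (nat_lit 9) 
(.lf (nat_lit 461119) (.g (nat_lit 3670) (.e (nat_lit 2856) (nat_lit 184) (.e (nat_lit 426354) (nat_lit 15) (.e (nat_lit 1860) (nat_lit 124) (.e (nat_lit 557101) (nat_lit 13) (.e (nat_lit 172097) (nat_lit 9) (.e (nat_lit 426125) (nat_lit 2) (.e (nat_lit 196661) (nat_lit 12) (.e (nat_lit 57751) (nat_lit 201) .nil)))))))) (.g (nat_lit 1) (.e (nat_lit 56816) (nat_lit 0) .nil) .nil))) 
(.lf (nat_lit 461631) (.g (nat_lit 1724) (.e (nat_lit 2887) (nat_lit 184) (.e (nat_lit 426201) (nat_lit 9) (.e (nat_lit 426482) (nat_lit 27) (.e (nat_lit 336060) (nat_lit 7) (.e (nat_lit 319505) (nat_lit 10) .nil))))) (.g (nat_lit 0) (.e (nat_lit 58041) (nat_lit 0) .nil) .nil))))) (.nd (nat_lit 8) (.nd (nat_lit 9) 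
(.lf (nat_lit 460991) (.g (nat_lit 1262) (.e (nat_lit 2854) (nat_lit 184) (.e (nat_lit 426533) (nat_lit 28) (.e (nat_lit 344069) (nat_lit 0) (.e (nat_lit 3090) (nat_lit 191) (.e (nat_lit 483354) (nat_lit 17) .nil))))) (.g (nat_lit 0) (.e (nat_lit 56631) (nat_lit 0) .nil) .nil))) 
(.lf (nat_lit 461503) (.g (nat_lit 3105) (.e (nat_lit 2879) (nat_lit 184) (.e (nat_lit 426211) (nat_lit 9) (.e (nat_lit 426125) (nat_lit 2) (.e (nat_lit 196625) (nat_lit 9) .nil)))) (.g (nat_lit 0) (.e (nat_lit 57845) (nat_lit 0) .nil) .nil)))) (.nd (nat_lit 9) 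
(.lf (nat_lit 461247) (.g (nat_lit 1397) (.e (nat_lit 2857) (nat_lit 184) (.e (nat_lit 426544) (nat_lit 30) (.e (nat_lit 360453) (nat_lit 0) (.e (nat_lit 5905) (nat_lit 320) (.e (nat_lit 1210) (nat_lit 89) .nil))))) (.g (nat_lit 0) (.e (nat_lit 57006) (nat_lit 0) .nil) .nil))) 
(.lf (nat_lit 461759) (.g (nat_lit 2722) (.e (nat_lit 2882) (nat_lit 184) (.e (nat_lit 426140) (nat_lit 3) (.e (nat_lit 204869) (nat_lit 29) (.e (nat_lit 360475) (nat_lit 8) (.e (nat_lit 557091) (nat_lit 12) .nil))))) (.g (nat_lit 0) (.e (nat_lit 58572) (nat_lit 0) .nil) .nil)))))) (.nd (nat_lit 7) (.nd (nat_lit 8) (.nd (nat_lit 9) 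
(.lf (nat_lit 460927) (.g (nat_lit 4146) (.e (nat_lit 2853) (nat_lit 184) (.e (nat_lit 426436) (nat_lit 18) (.e (nat_lit 98335) (nat_lit 18) (.e (nat_lit 164332) (nat_lit 230) .nil)))) (.g (nat_lit 0) (.e (nat_lit 56479) (nat_lit 0) .nil) .nil))) 
(.lf (nat_lit 461439) (.g (nat_lit 3698) (.e (nat_lit 2878) (nat_lit 184) (.e (nat_lit 426125) (nat_lit 2) (.e (nat_lit 196666) (nat_lit 13) (.e (nat_lit 65617) (nat_lit 10) (.e (nat_lit 344130) (nat_lit 26) (.e (nat_lit 557090) (nat_lit 12) (.e (nat_lit 164018) (nat_lit 45) (.e (nat_lit 696326) (nat_lit 5) .nil)))))))) (.g (nat_lit 1) (.e (nat_lit 57672) (nat_lit 0) .nil) .nil)))) 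
(.nd (nat_lit 9) 
(.lf (nat_lit 461183) (.g (nat_lit 2516) (.e (nat_lit 2856) (nat_lit 184) (.e (nat_lit 426542) (nat_lit 29) (.e (nat_lit 352265) (nat_lit 0) (.e (nat_lit 3632) (nat_lit 227) (.e (nat_lit 778323) (nat_lit 5) (.e (nat_lit 73781) (nat_lit 32) .nil)))))) (.g (nat_lit 1) (.e (nat_lit 56889) (nat_lit 0) .nil) .nil))) 
(.lf (nat_lit 461695) (.g (nat_lit 3151) (.e (nat_lit 2887) (nat_lit 184) (.e (nat_lit 426412) (nat_lit 15) (.e (nat_lit 1856) (nat_lit 124) (.e (nat_lit 557101) (nat_lit 13) (.e (nat_lit 172115) (nat_lit 10) (.e (nat_lit 434231) (nat_lit 23) (.e (nat_lit 532490) (nat_lit 0) (.e (nat_lit 7936) (nat_lit 357) .nil)))))))) (.g (nat_lit 1) (.e (nat_lit 58398) (nat_lit 0) .nil) .nil))))) 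
(.nd (nat_lit 8) (.nd (nat_lit 9) 
(.lf (nat_lit 461055) (.g (nat_lit 588) (.e (nat_lit 2855) (nat_lit 184) (.e (nat_lit 426436) (nat_lit 18) (.e (nat_lit 98335) (nat_lit 18) .nil))) (.g (nat_lit 0) (.e (nat_lit 56725) (nat_lit 0) .nil) .nil))) 
(.lf (nat_lit 461567) (.g (nat_lit 5879) (.e (nat_lit 2887) (nat_lit 184) (.e (nat_lit 426134) (nat_lit 3) (.e (nat_lit 204869) (nat_lit 29) (.e (nat_lit 360475) (nat_lit 8) (.e (nat_lit 557089) (nat_lit 12) (.e (nat_lit 164017) (nat_lit 44) (.e (nat_lit 688138) (nat_lit 5) .nil))))))) (.g (nat_lit 1) (.e (nat_lit 57925) (nat_lit 0) .nil) .nil)))) (.nd (nat_lit 9) 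
(.lf (nat_lit 461311) (.g (nat_lit 3140) (.e (nat_lit 2865) (nat_lit 184) (.e (nat_lit 426136) (nat_lit 3) (.e (nat_lit 204869) (nat_lit 29) (.e (nat_lit 360475) (nat_lit 8) (.e (nat_lit 557089) (nat_lit 12) (.e (nat_lit 164017) (nat_lit 44) (.e (nat_lit 688138) (nat_lit 5) .nil))))))) (.g (nat_lit 1) (.e (nat_lit 57184) (nat_lit 0) .nil) .nil))) 
(.lf (nat_lit 461823) (.g (nat_lit 3543) (.e (nat_lit 2884) (nat_lit 184) (.e (nat_lit 426317) (nat_lit 12) (.e (nat_lit 475185) (nat_lit 29) (.e (nat_lit 557107) (nat_lit 15) (.e (nat_lit 188440) (nat_lit 20) (.e (nat_lit 3272) (nat_lit 199) (.e (nat_lit 548898) (nat_lit 14) .nil))))))) (.g (nat_lit 1) (.e (nat_lit 58769) (nat_lit 0) .nil) .nil)))))))))))))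

noncomputable def tv5511 : DT := (.nd (nat_lit 0) (.nd (nat_lit 1) (.nd (nat_lit 2) (.nd (nat_lit 3) (.nd (nat_lit 4) (.nd (nat_lit 5) (.nd (nat_lit 6) (.nd (nat_lit 7) (.nd (nat_lit 8) (.nd (nat_lit 9) 
(.lf (nat_lit 461824) (.g (nat_lit 2050) (.e (nat_lit 2884) (nat_lit 184) (.e (nat_lit 426317) (nat_lit 12) (.e (nat_lit 475185) (nat_lit 29) (.e (nat_lit 557107) (nat_lit 15) (.e (nat_lit 188441) (nat_lit 20) .nil))))) (.g (nat_lit 0) (.e (nat_lit 58770) (nat_lit 0) .nil) .nil))) 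
(.lf (nat_lit 462336) (.g (nat_lit 2218) (.e (nat_lit 3004) (nat_lit 186) (.e (nat_lit 442374) (nat_lit 0) (.e (nat_lit 2175) (nat_lit 143) (.e (nat_lit 712752) (nat_lit 29) (.e (nat_lit 442411) (nat_lit 20) (.e (nat_lit 3409) (nat_lit 212) (.e (nat_lit 655364) (nat_lit 0) .nil))))))) (.g (nat_lit 1) (.e (nat_lit 62042) (nat_lit 0) .nil) .nil)))) (.nd (nat_lit 9) 
(.lf (nat_lit 462080) (.g (nat_lit 1943) (.e (nat_lit 2946) (nat_lit 184) (.e (nat_lit 426138) (nat_lit 3) (.e (nat_lit 204869) (nat_lit 29) (.e (nat_lit 360474) (nat_lit 8) (.e (nat_lit 557091) (nat_lit 12) (.e (nat_lit 164020) (nat_lit 45) (.e (nat_lit 696334) (nat_lit 5) .nil))))))) (.g (nat_lit 1) (.e (nat_lit 59424) (nat_lit 0) .nil) .nil))) 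
(.lf (nat_lit 462592) (.g (nat_lit 3195) (.e (nat_lit 3056) (nat_lit 190) (.e (nat_lit 475185) (nat_lit 29) (.e (nat_lit 557109) (nat_lit 15) (.e (nat_lit 188452) (nat_lit 23) (.e (nat_lit 204821) (nat_lit 17) .nil))))) (.g (nat_lit 0) (.e (nat_lit 67025) (nat_lit 0) .nil) .nil))))) (.nd (nat_lit 8) (.nd (nat_lit 9) 
(.lf (nat_lit 461952) (.g (nat_lit 3638) (.e (nat_lit 2936) (nat_lit 184) (.e (nat_lit 426401) (nat_lit 15) (.e (nat_lit 1859) (nat_lit 124) (.e (nat_lit 557098) (nat_lit 13) (.e (nat_lit 172097) (nat_lit 9) (.e (nat_lit 426125) (nat_lit 2) (.e (nat_lit 196661) (nat_lit 12) (.e (nat_lit 57748) (nat_lit 201) .nil)))))))) (.g (nat_lit 1) (.e (nat_lit 59154) (nat_lit 0) .nil) .nil))) 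
(.lf (nat_lit 462464) (.g (nat_lit 1046) (.e (nat_lit 3024) (nat_lit 187) (.e (nat_lit 450580) (nat_lit 5) (.e (nat_lit 532563) (nat_lit 15) (.e (nat_lit 385096) (nat_lit 49) (.e (nat_lit 778580) (nat_lit 17) .nil))))) (.g (nat_lit 0) (.e (nat_lit 64627) (nat_lit 0) .nil) .nil)))) (.nd (nat_lit 9) 
(.lf (nat_lit 462208) (.g (nat_lit 3475) (.e (nat_lit 2978) (nat_lit 185) (.e (nat_lit 434231) (nat_lit 23) (.e (nat_lit 532550) (nat_lit 12) (.e (nat_lit 360474) (nat_lit 8) (.e (nat_lit 557088) (nat_lit 12) .nil))))) (.g (nat_lit 0) (.e (nat_lit 60692) (nat_lit 0) .nil) .nil))) 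
(.lf (nat_lit 462720) (.g (nat_lit 3760) (.e (nat_lit 3062) (nat_lit 190) (.e (nat_lit 475185) (nat_lit 29) (.e (nat_lit 557100) (nat_lit 13) (.e (nat_lit 172106) (nat_lit 10) (.e (nat_lit 434231) (nat_lit 23) (.e (nat_lit 532482) (nat_lit 0) (.e (nat_lit 6668) (nat_lit 357) .nil))))))) (.g (nat_lit 1) (.e (nat_lit 67344) (nat_lit 0) .nil) .nil)))))) 
(.nd (nat_lit 7) (.nd (nat_lit 8) (.nd (nat_lit 9) 
(.lf (nat_lit 461888) (.g (nat_lit 4101) (.e (nat_lit 2936) (nat_lit 184) (.e (nat_lit 425984) (nat_lit 0) (.e (nat_lit 3249) (nat_lit 197) (.e (nat_lit 532569) (nat_lit 16) (.e (nat_lit 401434) (nat_lit 9) (.e (nat_lit 426125) (nat_lit 2) (.e (nat_lit 196661) (nat_lit 12) (.e (nat_lit 57749) (nat_lit 201) .nil)))))))) (.g (nat_lit 1) (.e (nat_lit 59006) (nat_lit 0) .nil) .nil))) 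
(.lf (nat_lit 462400) (.g (nat_lit 4024) (.e (nat_lit 3015) (nat_lit 187) (.e (nat_lit 450574) (nat_lit 1) (.e (nat_lit 499991) (nat_lit 14) (.e (nat_lit 1673) (nat_lit 116) (.e (nat_lit 401448) (nat_lit 10) (.e (nat_lit 434238) (nat_lit 25) (.e (nat_lit 548898) (nat_lit 14) .nil))))))) (.g (nat_lit 1) (.e (nat_lit 63014) (nat_lit 0) .nil) .nil)))) (.nd (nat_lit 9) 
(.lf (nat_lit 462144) (.g (nat_lit 4150) (.e (nat_lit 2964) (nat_lit 185) (.e (nat_lit 434231) (nat_lit 23) (.e (nat_lit 532550) (nat_lit 12) (.e (nat_lit 360472) (nat_lit 8) (.e (nat_lit 557090) (nat_lit 12) (.e (nat_lit 164020) (nat_lit 45) (.e (nat_lit 696329) (nat_lit 5) .nil))))))) (.g (nat_lit 1) (.e (nat_lit 60177) (nat_lit 0) .nil) .nil))) 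
(.lf (nat_lit 462656) (.g (nat_lit 586) (.e (nat_lit 3062) (nat_lit 190) (.e (nat_lit 475179) (nat_lit 24) (.e (nat_lit 516174) (nat_lit 14) .nil))) (.g (nat_lit 0) (.e (nat_lit 67270) (nat_lit 0) .nil) .nil))))) (.nd (nat_lit 8) (.nd (nat_lit 9) 
(.lf (nat_lit 462016) (.g (nat_lit 3047) (.e (nat_lit 2940) (nat_lit 184) (.e (nat_lit 426401) (nat_lit 15) (.e (nat_lit 1849) (nat_lit 124) (.e (nat_lit 557097) (nat_lit 13) (.e (nat_lit 172097) (nat_lit 9) (.e (nat_lit 426125) (nat_lit 2) (.e (nat_lit 196661) (nat_lit 12) (.e (nat_lit 57748) (nat_lit 201) .nil)))))))) (.g (nat_lit 1) (.e (nat_lit 59257) (nat_lit 0) .nil) .nil))) 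
(.lf (nat_lit 462528) (.g (nat_lit 498) (.e (nat_lit 3027) (nat_lit 187) (.e (nat_lit 450584) (nat_lit 9) (.e (nat_lit 565251) (nat_lit 0) .nil))) (.g (nat_lit 0) (.e (nat_lit 66276) (nat_lit 0) .nil) .nil)))) (.nd (nat_lit 9) 
(.lf (nat_lit 462272) (.g (nat_lit 279) (.e (nat_lit 2987) (nat_lit 186) (.e (nat_lit 442411) (nat_lit 20) (.e (nat_lit 3409) (nat_lit 212) .nil))) (.g (nat_lit 0) (.e (nat_lit 61183) (nat_lit 0) .nil) .nil))) 
(.lf (nat_lit 462784) (.g (nat_lit 1820) (.e (nat_lit 3062) (nat_lit 190) (.e (nat_lit 475185) (nat_lit 29) (.e (nat_lit 557101) (nat_lit 13) (.e (nat_lit 172115) (nat_lit 10) (.e (nat_lit 434231) (nat_lit 23) .nil))))) (.g (nat_lit 0) (.e (nat_lit 67408) (nat_lit 0) .nil) .nil))))))) (.nd (nat_lit 6) (.nd (nat_lit 7) (.nd (nat_lit 8) (.nd (nat_lit 9) 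
(.lf (nat_lit 461856) (.g (nat_lit 2098) (.e (nat_lit 2900) (nat_lit 184) (.e (nat_lit 426565) (nat_lit 34) (.e (nat_lit 393291) (nat_lit 26) (.e (nat_lit 475177) (nat_lit 24) (.e (nat_lit 516117) (nat_lit 1) (.e (nat_lit 164305) (nat_lit 226) (.e (nat_lit 2439) (nat_lit 157) .nil))))))) (.g (nat_lit 1) (.e (nat_lit 58849) (nat_lit 0) .nil) .nil))) 
(.lf (nat_lit 462368) (.g (nat_lit 2267) (.e (nat_lit 3009) (nat_lit 187) (.e (nat_lit 450588) (nat_lit 10) (.e (nat_lit 573475) (nat_lit 12) (.e (nat_lit 57574) (nat_lit 55) .nil)))) (.g (nat_lit 0) (.e (nat_lit 62239) (nat_lit 0) .nil) .nil)))) (.nd (nat_lit 9) 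
(.lf (nat_lit 462112) (.g (nat_lit 1891) (.e (nat_lit 2958) (nat_lit 185) (.e (nat_lit 434248) (nat_lit 28) (.e (nat_lit 573503) (nat_lit 18) (.e (nat_lit 1349) (nat_lit 102) .nil)))) (.g (nat_lit 0) (.e (nat_lit 59721) (nat_lit 0) .nil) .nil))) 
(.lf (nat_lit 462624) (.g (nat_lit 3142) (.e (nat_lit 3062) (nat_lit 190) (.e (nat_lit 483072) (nat_lit 26) (.e (nat_lit 532544) (nat_lit 10) (.e (nat_lit 344132) (nat_lit 26) (.e (nat_lit 557105) (nat_lit 14) (.e (nat_lit 180252) (nat_lit 10) (.e (nat_lit 573442) (nat_lit 0) .nil))))))) (.g (nat_lit 1) (.e (nat_lit 67110) (nat_lit 0) .nil) .nil))))) (.nd (nat_lit 8) (.nd (nat_lit 9) 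
(.lf (nat_lit 461984) (.g (nat_lit 3411) (.e (nat_lit 2939) (nat_lit 184) (.e (nat_lit 426353) (nat_lit 15) (.e (nat_lit 1860) (nat_lit 124) (.e (nat_lit 557101) (nat_lit 13) (.e (nat_lit 172097) (nat_lit 9) (.e (nat_lit 426125) (nat_lit 2) (.e (nat_lit 196661) (nat_lit 12) (.e (nat_lit 57748) (nat_lit 201) .nil)))))))) (.g (nat_lit 1) (.e (nat_lit 59213) (nat_lit 0) .nil) .nil))) 
(.lf (nat_lit 462496) (.g (nat_lit 1014) (.e (nat_lit 3022) (nat_lit 187) (.e (nat_lit 450591) (nat_lit 13) (.e (nat_lit 630821) (nat_lit 16) (.e (nat_lit 65619) (nat_lit 10) (.e (nat_lit 344157) (nat_lit 36) (.e (nat_lit 638986) (nat_lit 5) .nil)))))) (.g (nat_lit 1) (.e (nat_lit 65155) (nat_lit 0) .nil) .nil)))) (.nd (nat_lit 9) 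
(.lf (nat_lit 462240) (.g (nat_lit 2072) (.e (nat_lit 2980) (nat_lit 185) (.e (nat_lit 434231) (nat_lit 23) (.e (nat_lit 532550) (nat_lit 12) (.e (nat_lit 360475) (nat_lit 8) (.e (nat_lit 557089) (nat_lit 12) .nil))))) (.g (nat_lit 0) (.e (nat_lit 60935) (nat_lit 0) .nil) .nil))) 
(.lf (nat_lit 462752) (.g (nat_lit 1522) (.e (nat_lit 3062) (nat_lit 190) (.e (nat_lit 475185) (nat_lit 29) (.e (nat_lit 557100) (nat_lit 13) (.e (nat_lit 172124) (nat_lit 14) .nil)))) (.g (nat_lit 0) (.e (nat_lit 67376) (nat_lit 0) .nil) .nil)))))) (.nd (nat_lit 7) (.nd (nat_lit 8) (.nd (nat_lit 9) 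
(.lf (nat_lit 461920) (.g (nat_lit 3026) (.e (nat_lit 2936) (nat_lit 184) (.e (nat_lit 426163) (nat_lit 6) (.e (nat_lit 253991) (nat_lit 11) (.e (nat_lit 16446) (nat_lit 9) (.e (nat_lit 433920) (nat_lit 28) .nil))))) (.g (nat_lit 0) (.e (nat_lit 59089) (nat_lit 0) .nil) .nil))) 
(.lf (nat_lit 462432) (.g (nat_lit 1386) (.e (nat_lit 3016) (nat_lit 187) (.e (nat_lit 450584) (nat_lit 9) (.e (nat_lit 565252) (nat_lit 0) (.e (nat_lit 1592) (nat_lit 111) (.e (nat_lit 360493) (nat_lit 27) (.e (nat_lit 819203) (nat_lit 0) .nil)))))) (.g (nat_lit 1) (.e (nat_lit 64142) (nat_lit 0) .nil) .nil)))) (.nd (nat_lit 9) 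
(.lf (nat_lit 462176) (.g (nat_lit 2751) (.e (nat_lit 2965) (nat_lit 185) (.e (nat_lit 434235) (nat_lit 24) (.e (nat_lit 540706) (nat_lit 12) (.e (nat_lit 360475) (nat_lit 8) (.e (nat_lit 557090) (nat_lit 12) (.e (nat_lit 164020) (nat_lit 45) (.e (nat_lit 696329) (nat_lit 5) .nil))))))) (.g (nat_lit 1) (.e (nat_lit 60342) (nat_lit 0) .nil) .nil))) 
(.lf (nat_lit 462688) (.g (nat_lit 2010) (.e (nat_lit 3062) (nat_lit 190) (.e (nat_lit 475185) (nat_lit 29) (.e (nat_lit 557100) (nat_lit 13) (.e (nat_lit 172106) (nat_lit 10) (.e (nat_lit 434227) (nat_lit 20) (.e (nat_lit 507926) (nat_lit 10) (.e (nat_lit 5667) (nat_lit 312) .nil))))))) (.g (nat_lit 1) (.e (nat_lit 67312) (nat_lit 0) .nil) .nil))))) (.nd (nat_lit 8) (.nd (nat_lit 9) 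
(.lf (nat_lit 462048) (.g (nat_lit 1609) (.e (nat_lit 2941) (nat_lit 184) (.e (nat_lit 426541) (nat_lit 29) (.e (nat_lit 352267) (nat_lit 0) (.e (nat_lit 3631) (nat_lit 227) (.e (nat_lit 778323) (nat_lit 5) (.e (nat_lit 73779) (nat_lit 32) .nil)))))) (.g (nat_lit 1) (.e (nat_lit 59290) (nat_lit 0) .nil) .nil))) 
(.lf (nat_lit 462560) (.g (nat_lit 2696) (.e (nat_lit 3044) (nat_lit 189) (.e (nat_lit 466977) (nat_lit 22) (.e (nat_lit 196681) (nat_lit 17) (.e (nat_lit 131089) (nat_lit 1) (.e (nat_lit 57931) (nat_lit 282) (.e (nat_lit 163842) (nat_lit 0) (.e (nat_lit 7936) (nat_lit 200) (.e (nat_lit 557065) (nat_lit 9) .nil)))))))) (.g (nat_lit 1) (.e (nat_lit 66853) (nat_lit 0) .nil) .nil)))) 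
(.nd (nat_lit 9) 
(.lf (nat_lit 462304) (.g (nat_lit 2022) (.e (nat_lit 2989) (nat_lit 186) (.e (nat_lit 442374) (nat_lit 0) (.e (nat_lit 1856) (nat_lit 124) (.e (nat_lit 557107) (nat_lit 15) (.e (nat_lit 188441) (nat_lit 20) .nil))))) (.g (nat_lit 0) (.e (nat_lit 61388) (nat_lit 0) .nil) .nil))) 
(.lf (nat_lit 462816) (.g (nat_lit 4328) (.e (nat_lit 3062) (nat_lit 190) (.e (nat_lit 475185) (nat_lit 29) (.e (nat_lit 557108) (nat_lit 15) (.e (nat_lit 188452) (nat_lit 23) (.e (nat_lit 204816) (nat_lit 17) .nil))))) (.g (nat_lit 0) (.e (nat_lit 67443) (nat_lit 0) .nil) .nil)))))))) (.nd (nat_lit 5) (.nd (nat_lit 6) (.nd (nat_lit 7) (.nd (nat_lit 8) (.nd (nat_lit 9) 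
(.lf (nat_lit 461840) (.g (nat_lit 2826) (.e (nat_lit 2885) (nat_lit 184) (.e (nat_lit 426140) (nat_lit 3) (.e (nat_lit 204869) (nat_lit 29) (.e (nat_lit 360475) (nat_lit 8) (.e (nat_lit 557089) (nat_lit 12) .nil))))) (.g (nat_lit 0) (.e (nat_lit 58816) (nat_lit 0) .nil) .nil))) 
(.lf (nat_lit 462352) (.g (nat_lit 2207) (.e (nat_lit 3004) (nat_lit 186) (.e (nat_lit 442390) (nat_lit 11) (.e (nat_lit 336232) (nat_lit 14) (.e (nat_lit 401446) (nat_lit 10) (.e (nat_lit 434287) (nat_lit 43) .nil))))) (.g (nat_lit 0) (.e (nat_lit 62119) (nat_lit 0) .nil) .nil)))) (.nd (nat_lit 9) 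
(.lf (nat_lit 462096) (.g (nat_lit 2357) (.e (nat_lit 2946) (nat_lit 184) (.e (nat_lit 426306) (nat_lit 12) (.e (nat_lit 475209) (nat_lit 41) (.e (nat_lit 712755) (nat_lit 30) (.e (nat_lit 450593) (nat_lit 16) (.e (nat_lit 655367) (nat_lit 0) .nil)))))) (.g (nat_lit 1) (.e (nat_lit 59487) (nat_lit 0) .nil) .nil))) 
(.lf (nat_lit 462608) (.g (nat_lit 952) (.e (nat_lit 3060) (nat_lit 190) (.e (nat_lit 475179) (nat_lit 24) (.e (nat_lit 516146) (nat_lit 9) .nil))) (.g (nat_lit 0) (.e (nat_lit 67072) (nat_lit 0) .nil) .nil))))) (.nd (nat_lit 8) (.nd (nat_lit 9) 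
(.lf (nat_lit 461968) (.g (nat_lit 1185) (.e (nat_lit 2936) (nat_lit 184) (.e (nat_lit 426532) (nat_lit 28) (.e (nat_lit 344068) (nat_lit 0) (.e (nat_lit 2855) (nat_lit 184) (.e (nat_lit 426533) (nat_lit 28) (.e (nat_lit 344066) (nat_lit 0) .nil)))))) (.g (nat_lit 1) (.e (nat_lit 59173) (nat_lit 0) .nil) .nil))) 
(.lf (nat_lit 462480) (.g (nat_lit 4565) (.e (nat_lit 3022) (nat_lit 187) (.e (nat_lit 450580) (nat_lit 5) (.e (nat_lit 532535) (nat_lit 9) (.e (nat_lit 336295) (nat_lit 15) (.e (nat_lit 3632) (nat_lit 227) .nil))))) (.g (nat_lit 0) (.e (nat_lit 64882) (nat_lit 0) .nil) .nil)))) (.nd (nat_lit 9) 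
(.lf (nat_lit 462224) (.g (nat_lit 4030) (.e (nat_lit 2980) (nat_lit 185) (.e (nat_lit 434231) (nat_lit 23) (.e (nat_lit 532549) (nat_lit 12) (.e (nat_lit 360473) (nat_lit 8) (.e (nat_lit 557090) (nat_lit 12) (.e (nat_lit 164020) (nat_lit 45) (.e (nat_lit 696328) (nat_lit 5) .nil))))))) (.g (nat_lit 1) (.e (nat_lit 60905) (nat_lit 0) .nil) .nil))) 
(.lf (nat_lit 462736) (.g (nat_lit 1832) (.e (nat_lit 3062) (nat_lit 190) (.e (nat_lit 475185) (nat_lit 29) (.e (nat_lit 557100) (nat_lit 13) (.e (nat_lit 172113) (nat_lit 10) .nil)))) (.g (nat_lit 0) (.e (nat_lit 67360) (nat_lit 0) .nil) .nil)))))) (.nd (nat_lit 7) (.nd (nat_lit 8) (.nd (nat_lit 9) 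
(.lf (nat_lit 461904) (.g (nat_lit 3120) (.e (nat_lit 2936) (nat_lit 184) (.e (nat_lit 426163) (nat_lit 6) (.e (nat_lit 253991) (nat_lit 11) (.e (nat_lit 16431) (nat_lit 9) (.e (nat_lit 426533) (nat_lit 28) (.e (nat_lit 344067) (nat_lit 0) .nil)))))) (.g (nat_lit 1) (.e (nat_lit 59070) (nat_lit 0) .nil) .nil))) 
(.lf (nat_lit 462416) (.g (nat_lit 506) (.e (nat_lit 3017) (nat_lit 187) (.e (nat_lit 450588) (nat_lit 10) (.e (nat_lit 573473) (nat_lit 12) .nil))) (.g (nat_lit 0) (.e (nat_lit 63605) (nat_lit 0) .nil) .nil)))) (.nd (nat_lit 9) 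
(.lf (nat_lit 462160) (.g (nat_lit 991) (.e (nat_lit 2965) (nat_lit 185) (.e (nat_lit 434231) (nat_lit 23) (.e (nat_lit 532549) (nat_lit 12) .nil))) (.g (nat_lit 0) (.e (nat_lit 60326) (nat_lit 0) .nil) .nil))) 
(.lf (nat_lit 462672) (.g (nat_lit 2301) (.e (nat_lit 3062) (nat_lit 190) (.e (nat_lit 475179) (nat_lit 24) (.e (nat_lit 516176) (nat_lit 14) (.e (nat_lit 466954) (nat_lit 11) (.e (nat_lit 335995) (nat_lit 1) (.e (nat_lit 57655) (nat_lit 152) (.e (nat_lit 2405) (nat_lit 157) .nil))))))) (.g (nat_lit 1) (.e (nat_lit 67294) (nat_lit 0) .nil) .nil))))) (.nd (nat_lit 8) (.nd (nat_lit 9) 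
(.lf (nat_lit 462032) (.g (nat_lit 1280) (.e (nat_lit 2940) (nat_lit 184) (.e (nat_lit 426532) (nat_lit 28) (.e (nat_lit 344069) (nat_lit 0) (.e (nat_lit 2855) (nat_lit 184) (.e (nat_lit 426533) (nat_lit 28) (.e (nat_lit 344066) (nat_lit 0) .nil)))))) (.g (nat_lit 1) (.e (nat_lit 59273) (nat_lit 0) .nil) .nil))) 
(.lf (nat_lit 462544) (.g (nat_lit 1500) (.e (nat_lit 3044) (nat_lit 189) (.e (nat_lit 466974) (nat_lit 22) (.e (nat_lit 196668) (nat_lit 14) (.e (nat_lit 73733) (nat_lit 0) .nil)))) (.g (nat_lit 0) (.e (nat_lit 66785) (nat_lit 0) .nil) .nil)))) (.nd (nat_lit 9) 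
(.lf (nat_lit 462288) (.g (nat_lit 2136) (.e (nat_lit 2988) (nat_lit 186) (.e (nat_lit 442374) (nat_lit 0) (.e (nat_lit 2059) (nat_lit 142) (.e (nat_lit 704599) (nat_lit 6) (.e (nat_lit 188441) (nat_lit 20) (.e (nat_lit 3409) (nat_lit 212) (.e (nat_lit 655364) (nat_lit 0) .nil))))))) (.g (nat_lit 1) (.e (nat_lit 61306) (nat_lit 0) .nil) .nil))) 
(.lf (nat_lit 462800) (.g (nat_lit 3649) (.e (nat_lit 3062) (nat_lit 190) (.e (nat_lit 475185) (nat_lit 29) (.e (nat_lit 557101) (nat_lit 13) (.e (nat_lit 172115) (nat_lit 10) (.e (nat_lit 434231) (nat_lit 23) (.e (nat_lit 532490) (nat_lit 0) (.e (nat_lit 7936) (nat_lit 357) .nil))))))) (.g (nat_lit 1) (.e (nat_lit 67424) (nat_lit 0) .nil) .nil))))))) 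
(.nd (nat_lit 6) (.nd (nat_lit 7) (.nd (nat_lit 8) (.nd (nat_lit 9) 
(.lf (nat_lit 461872) (.g (nat_lit 2264) (.e (nat_lit 2914) (nat_lit 184) (.e (nat_lit 426316) (nat_lit 12) (.e (nat_lit 475185) (nat_lit 29) (.e (nat_lit 557103) (nat_lit 14) (.e (nat_lit 180277) (nat_lit 32) .nil))))) (.g (nat_lit 0) (.e (nat_lit 58893) (nat_lit 0) .nil) .nil))) 
(.lf (nat_lit 462384) (.g (nat_lit 1080) (.e (nat_lit 3012) (nat_lit 187) (.e (nat_lit 450605) (nat_lit 27) (.e (nat_lit 745476) (nat_lit 0) (.e (nat_lit 1595) (nat_lit 111) (.e (nat_lit 368384) (nat_lit 10) .nil))))) (.g (nat_lit 0) (.e (nat_lit 62842) (nat_lit 0) .nil) .nil)))) (.nd (nat_lit 9) 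
(.lf (nat_lit 462128) (.g (nat_lit 3401) (.e (nat_lit 2964) (nat_lit 185) (.e (nat_lit 434231) (nat_lit 23) (.e (nat_lit 532549) (nat_lit 12) (.e (nat_lit 360473) (nat_lit 8) (.e (nat_lit 557090) (nat_lit 12) (.e (nat_lit 164020) (nat_lit 45) (.e (nat_lit 696327) (nat_lit 5) .nil))))))) (.g (nat_lit 1) (.e (nat_lit 60144) (nat_lit 0) .nil) .nil))) 
(.lf (nat_lit 462640) (.g (nat_lit 2533) (.e (nat_lit 3062) (nat_lit 190) (.e (nat_lit 475179) (nat_lit 24) (.e (nat_lit 516149) (nat_lit 9) (.e (nat_lit 426320) (nat_lit 12) (.e (nat_lit 483072) (nat_lit 3) (.e (nat_lit 164017) (nat_lit 44) (.e (nat_lit 688139) (nat_lit 5) .nil))))))) (.g (nat_lit 1) (.e (nat_lit 67151) (nat_lit 0) .nil) .nil))))) (.nd (nat_lit 8) (.nd (nat_lit 9) 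
(.lf (nat_lit 462000) (.g (nat_lit 3049) (.e (nat_lit 2939) (nat_lit 184) (.e (nat_lit 426488) (nat_lit 27) (.e (nat_lit 336235) (nat_lit 14) (.e (nat_lit 401438) (nat_lit 9) (.e (nat_lit 426533) (nat_lit 28) (.e (nat_lit 344066) (nat_lit 0) .nil)))))) (.g (nat_lit 1) (.e (nat_lit 59235) (nat_lit 0) .nil) .nil))) 
(.lf (nat_lit 462512) (.g (nat_lit 1062) (.e (nat_lit 3026) (nat_lit 187) (.e (nat_lit 450605) (nat_lit 27) (.e (nat_lit 745475) (nat_lit 0) (.e (nat_lit 1595) (nat_lit 111) (.e (nat_lit 368384) (nat_lit 10) (.e (nat_lit 573444) (nat_lit 0) .nil)))))) (.g (nat_lit 1) (.e (nat_lit 65703) (nat_lit 0) .nil) .nil)))) (.nd (nat_lit 9) 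
(.lf (nat_lit 462256) (.g (nat_lit 4226) (.e (nat_lit 2981) (nat_lit 185) (.e (nat_lit 434231) (nat_lit 23) (.e (nat_lit 532549) (nat_lit 12) (.e (nat_lit 360475) (nat_lit 8) (.e (nat_lit 557091) (nat_lit 12) .nil))))) (.g (nat_lit 0) (.e (nat_lit 61028) (nat_lit 0) .nil) .nil))) 
(.lf (nat_lit 462768) (.g (nat_lit 2487) (.e (nat_lit 3062) (nat_lit 190) (.e (nat_lit 475185) (nat_lit 29) (.e (nat_lit 557101) (nat_lit 13) (.e (nat_lit 172115) (nat_lit 10) (.e (nat_lit 434227) (nat_lit 20) (.e (nat_lit 507928) (nat_lit 10) (.e (nat_lit 5651) (nat_lit 312) .nil))))))) (.g (nat_lit 1) (.e (nat_lit 67392) (nat_lit 0) .nil) .nil)))))) 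
(.nd (nat_lit 7) (.nd (nat_lit 8) (.nd (nat_lit 9) 
(.lf (nat_lit 461936) (.g (nat_lit 1735) (.e (nat_lit 2936) (nat_lit 184) (.e (nat_lit 426163) (nat_lit 6) (.e (nat_lit 253992) (nat_lit 11) (.e (nat_lit 16444) (nat_lit 9) (.e (nat_lit 433920) (nat_lit 28) .nil))))) (.g (nat_lit 0) (.e (nat_lit 59113) (nat_lit 0) .nil) .nil))) 
(.lf (nat_lit 462448) (.g (nat_lit 750) (.e (nat_lit 3020) (nat_lit 187) (.e (nat_lit 450584) (nat_lit 9) (.e (nat_lit 565268) (nat_lit 5) (.e (nat_lit 73792) (nat_lit 45) (.e (nat_lit 1163) (nat_lit 86) .nil))))) (.g (nat_lit 0) (.e (nat_lit 64339) (nat_lit 0) .nil) .nil)))) (.nd (nat_lit 9) 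
(.lf (nat_lit 462192) (.g (nat_lit 3429) (.e (nat_lit 2974) (nat_lit 185) (.e (nat_lit 434231) (nat_lit 23) (.e (nat_lit 532550) (nat_lit 12) (.e (nat_lit 360475) (nat_lit 8) (.e (nat_lit 557089) (nat_lit 12) .nil))))) (.g (nat_lit 0) (.e (nat_lit 60454) (nat_lit 0) .nil) .nil))) 
(.lf (nat_lit 462704) (.g (nat_lit 2709) (.e (nat_lit 3062) (nat_lit 190) (.e (nat_lit 475185) (nat_lit 29) (.e (nat_lit 557100) (nat_lit 13) (.e (nat_lit 172106) (nat_lit 10) (.e (nat_lit 434227) (nat_lit 20) (.e (nat_lit 507930) (nat_lit 10) (.e (nat_lit 5651) (nat_lit 312) .nil))))))) (.g (nat_lit 1) (.e (nat_lit 67328) (nat_lit 0) .nil) .nil))))) (.nd (nat_lit 8) (.nd (nat_lit 9) 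
(.lf (nat_lit 462064) (.g (nat_lit 3283) (.e (nat_lit 2949) (nat_lit 184) (.e (nat_lit 426123) (nat_lit 2) (.e (nat_lit 196666) (nat_lit 13) (.e (nat_lit 65617) (nat_lit 10) (.e (nat_lit 344127) (nat_lit 26) .nil))))) (.g (nat_lit 0) (.e (nat_lit 59345) (nat_lit 0) .nil) .nil))) 
(.lf (nat_lit 462576) (.g (nat_lit 923) (.e (nat_lit 3055) (nat_lit 190) (.e (nat_lit 475179) (nat_lit 24) (.e (nat_lit 516150) (nat_lit 9) .nil))) (.g (nat_lit 0) (.e (nat_lit 66980) (nat_lit 0) .nil) .nil)))) (.nd (nat_lit 9) 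
(.lf (nat_lit 462320) (.g (nat_lit 435) (.e (nat_lit 3004) (nat_lit 186) (.e (nat_lit 442374) (nat_lit 0) (.e (nat_lit 2057) (nat_lit 142) .nil))) (.g (nat_lit 0) (.e (nat_lit 62025) (nat_lit 0) .nil) .nil))) 
(.lf (nat_lit 462832) (.g (nat_lit 3781) (.e (nat_lit 3062) (nat_lit 190) (.e (nat_lit 475185) (nat_lit 29) (.e (nat_lit 557109) (nat_lit 15) (.e (nat_lit 188452) (nat_lit 23) (.e (nat_lit 204816) (nat_lit 17) (.e (nat_lit 6617) (nat_lit 357) .nil)))))) (.g (nat_lit 1) (.e (nat_lit 67459) (nat_lit 0) .nil) .nil))))))))) 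
(.nd (nat_lit 4) (.nd (nat_lit 5) (.nd (nat_lit 6) (.nd (nat_lit 7) (.nd (nat_lit 8) 
(.nd (nat_lit 9) 
(.lf (nat_lit 461832) (.g (nat_lit 1842) (.e (nat_lit 2884) (nat_lit 184) (.e (nat_lit 426339) (nat_lit 14) (.e (nat_lit 491540) (nat_lit 3) (.e (nat_lit 98372) (nat_lit 29) (.e (nat_lit 450583) (nat_lit 7) .nil))))) (.g (nat_lit 0) (.e (nat_lit 58798) (nat_lit 0) .nil) .nil))) 
(.lf (nat_lit 462344) (.g (nat_lit 1858) (.e (nat_lit 3004) (nat_lit 186) (.e (nat_lit 442390) (nat_lit 11) (.e (nat_lit 336230) (nat_lit 14) (.e (nat_lit 401448) (nat_lit 10) (.e (nat_lit 434287) (nat_lit 43) (.e (nat_lit 696328) (nat_lit 5) .nil)))))) (.g (nat_lit 1) (.e (nat_lit 62108) (nat_lit 0) .nil) .nil)))) (.nd (nat_lit 9) 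
(.lf (nat_lit 462088) (.g (nat_lit 2785) (.e (nat_lit 2946) (nat_lit 184) (.e (nat_lit 426306) (nat_lit 12) (.e (nat_lit 475185) (nat_lit 29) (.e (nat_lit 557107) (nat_lit 15) (.e (nat_lit 188441) (nat_lit 20) .nil))))) (.g (nat_lit 0) (.e (nat_lit 59472) (nat_lit 0) .nil) .nil))) 
(.lf (nat_lit 462600) (.g (nat_lit 947) (.e (nat_lit 3058) (nat_lit 190) (.e (nat_lit 475214) (nat_lit 42) (.e (nat_lit 720937) (nat_lit 22) .nil))) (.g (nat_lit 0) (.e (nat_lit 67052) (nat_lit 0) .nil) .nil))))) (.nd (nat_lit 8) (.nd (nat_lit 9) 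
(.lf (nat_lit 461960) (.g (nat_lit 2779) (.e (nat_lit 2936) (nat_lit 184) (.e (nat_lit 426503) (nat_lit 27) (.e (nat_lit 336229) (nat_lit 14) (.e (nat_lit 401437) (nat_lit 9) (.e (nat_lit 426533) (nat_lit 28) (.e (nat_lit 344067) (nat_lit 0) .nil)))))) (.g (nat_lit 1) (.e (nat_lit 59164) (nat_lit 0) .nil) .nil))) 
(.lf (nat_lit 462472) (.g (nat_lit 5067) (.e (nat_lit 3022) (nat_lit 187) (.e (nat_lit 450579) (nat_lit 5) (.e (nat_lit 532563) (nat_lit 15) (.e (nat_lit 385093) (nat_lit 49) (.e (nat_lit 778317) (nat_lit 3) (.e (nat_lit 57480) (nat_lit 28) (.e (nat_lit 557067) (nat_lit 9) .nil))))))) (.g (nat_lit 1) (.e (nat_lit 64825) (nat_lit 0) .nil) .nil)))) (.nd (nat_lit 9) 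
(.lf (nat_lit 462216) (.g (nat_lit 2675) (.e (nat_lit 2978) (nat_lit 185) (.e (nat_lit 434231) (nat_lit 23) (.e (nat_lit 532550) (nat_lit 12) (.e (nat_lit 360475) (nat_lit 8) (.e (nat_lit 557091) (nat_lit 12) .nil))))) (.g (nat_lit 0) (.e (nat_lit 60711) (nat_lit 0) .nil) .nil))) 
(.lf (nat_lit 462728) (.g (nat_lit 3239) (.e (nat_lit 3062) (nat_lit 190) (.e (nat_lit 475185) (nat_lit 29) (.e (nat_lit 557100) (nat_lit 13) (.e (nat_lit 172106) (nat_lit 10) (.e (nat_lit 434231) (nat_lit 23) (.e (nat_lit 532500) (nat_lit 1) (.e (nat_lit 57760) (nat_lit 215) (.e (nat_lit 2508) (nat_lit 157) .nil)))))))) (.g (nat_lit 1) (.e (nat_lit 67352) (nat_lit 0) .nil) .nil)))))) 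
(.nd (nat_lit 7) (.nd (nat_lit 8) (.nd (nat_lit 9) 
(.lf (nat_lit 461896) (.g (nat_lit 1425) (.e (nat_lit 2936) (nat_lit 184) (.e (nat_lit 426163) (nat_lit 6) (.e (nat_lit 253962) (nat_lit 9) (.e (nat_lit 391) (nat_lit 32) .nil)))) (.g (nat_lit 0) (.e (nat_lit 59032) (nat_lit 0) .nil) .nil))) 
(.lf (nat_lit 462408) (.g (nat_lit 969) (.e (nat_lit 3015) (nat_lit 187) (.e (nat_lit 450605) (nat_lit 27) (.e (nat_lit 745493) (nat_lit 6) (.e (nat_lit 81946) (nat_lit 20) (.e (nat_lit 1885) (nat_lit 127) (.e (nat_lit 581636) (nat_lit 0) .nil)))))) (.g (nat_lit 1) (.e (nat_lit 63489) (nat_lit 0) .nil) .nil)))) (.nd (nat_lit 9) 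
(.lf (nat_lit 462152) (.g (nat_lit 1718) (.e (nat_lit 2964) (nat_lit 185) (.e (nat_lit 434231) (nat_lit 23) (.e (nat_lit 532550) (nat_lit 12) (.e (nat_lit 360474) (nat_lit 8) (.e (nat_lit 557094) (nat_lit 12) .nil))))) (.g (nat_lit 0) (.e (nat_lit 60190) (nat_lit 0) .nil) .nil))) 
(.lf (nat_lit 462664) (.g (nat_lit 3101) (.e (nat_lit 3062) (nat_lit 190) (.e (nat_lit 475179) (nat_lit 24) (.e (nat_lit 516176) (nat_lit 14) (.e (nat_lit 466954) (nat_lit 11) (.e (nat_lit 335986) (nat_lit 1) (.e (nat_lit 57660) (nat_lit 152) (.e (nat_lit 2404) (nat_lit 157) .nil))))))) (.g (nat_lit 1) (.e (nat_lit 67284) (nat_lit 0) .nil) .nil))))) (.nd (nat_lit 8) (.nd (nat_lit 9) 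
(.lf (nat_lit 462024) (.g (nat_lit 1603) (.e (nat_lit 2940) (nat_lit 184) (.e (nat_lit 426435) (nat_lit 18) (.e (nat_lit 98376) (nat_lit 30) (.e (nat_lit 458789) (nat_lit 23) (.e (nat_lit 532508) (nat_lit 2) (.e (nat_lit 114432) (nat_lit 0) (.e (nat_lit 2668) (nat_lit 167) (.e (nat_lit 196615) (nat_lit 0) .nil)))))))) (.g (nat_lit 1) (.e (nat_lit 59265) (nat_lit 0) .nil) .nil))) 
(.lf (nat_lit 462536) (.g (nat_lit 566) (.e (nat_lit 3028) (nat_lit 187) (.e (nat_lit 450584) (nat_lit 9) (.e (nat_lit 565251) (nat_lit 0) .nil))) (.g (nat_lit 0) (.e (nat_lit 66587) (nat_lit 0) .nil) .nil)))) (.nd (nat_lit 9) 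
(.lf (nat_lit 462280) (.g (nat_lit 2715) (.e (nat_lit 2988) (nat_lit 186) (.e (nat_lit 442374) (nat_lit 0) (.e (nat_lit 2059) (nat_lit 142) (.e (nat_lit 704598) (nat_lit 6) (.e (nat_lit 188434) (nat_lit 20) (.e (nat_lit 3408) (nat_lit 212) (.e (nat_lit 655364) (nat_lit 0) .nil))))))) (.g (nat_lit 1) (.e (nat_lit 61298) (nat_lit 0) .nil) .nil))) 
(.lf (nat_lit 462792) (.g (nat_lit 4372) (.e (nat_lit 3062) (nat_lit 190) (.e (nat_lit 475185) (nat_lit 29) (.e (nat_lit 557101) (nat_lit 13) (.e (nat_lit 172115) (nat_lit 10) (.e (nat_lit 434231) (nat_lit 23) (.e (nat_lit 532481) (nat_lit 0) (.e (nat_lit 7936) (nat_lit 357) .nil))))))) (.g (nat_lit 1) (.e (nat_lit 67416) (nat_lit 0) .nil) .nil))))))) 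
(.nd (nat_lit 6) (.nd (nat_lit 7) (.nd (nat_lit 8) (.nd (nat_lit 9) 
(.lf (nat_lit 461864) (.g (nat_lit 3124) (.e (nat_lit 2902) (nat_lit 184) (.e (nat_lit 426435) (nat_lit 18) (.e (nat_lit 98386) (nat_lit 32) (.e (nat_lit 475177) (nat_lit 24) (.e (nat_lit 516150) (nat_lit 9) (.e (nat_lit 426428) (nat_lit 17) (.e (nat_lit 90133) (nat_lit 9) .nil))))))) (.g (nat_lit 1) (.e (nat_lit 58858) (nat_lit 0) .nil) .nil))) 
(.lf (nat_lit 462376) (.g (nat_lit 1063) (.e (nat_lit 3011) (nat_lit 187) (.e (nat_lit 450605) (nat_lit 27) (.e (nat_lit 745476) (nat_lit 0) (.e (nat_lit 1589) (nat_lit 111) (.e (nat_lit 368384) (nat_lit 10) (.e (nat_lit 573444) (nat_lit 0) .nil)))))) (.g (nat_lit 1) (.e (nat_lit 62609) (nat_lit 0) .nil) .nil)))) (.nd (nat_lit 9) 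
(.lf (nat_lit 462120) (.g (nat_lit 1822) (.e (nat_lit 2963) (nat_lit 185) (.e (nat_lit 434231) (nat_lit 23) (.e (nat_lit 532569) (nat_lit 16) (.e (nat_lit 401448) (nat_lit 10) .nil)))) (.g (nat_lit 0) (.e (nat_lit 59943) (nat_lit 0) .nil) .nil))) 
(.lf (nat_lit 462632) (.g (nat_lit 1340) (.e (nat_lit 3062) (nat_lit 190) (.e (nat_lit 475179) (nat_lit 24) (.e (nat_lit 516117) (nat_lit 1) (.e (nat_lit 164332) (nat_lit 230) .nil)))) (.g (nat_lit 0) (.e (nat_lit 67122) (nat_lit 0) .nil) .nil))))) (.nd (nat_lit 8) (.nd (nat_lit 9) 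
(.lf (nat_lit 461992) (.g (nat_lit 3032) (.e (nat_lit 2939) (nat_lit 184) (.e (nat_lit 426401) (nat_lit 15) (.e (nat_lit 1849) (nat_lit 124) (.e (nat_lit 557097) (nat_lit 13) (.e (nat_lit 172097) (nat_lit 9) (.e (nat_lit 426125) (nat_lit 2) (.e (nat_lit 196661) (nat_lit 12) (.e (nat_lit 57748) (nat_lit 201) .nil)))))))) (.g (nat_lit 1) (.e (nat_lit 59225) (nat_lit 0) .nil) .nil))) 
(.lf (nat_lit 462504) (.g (nat_lit 4796) (.e (nat_lit 3025) (nat_lit 187) (.e (nat_lit 450579) (nat_lit 5) (.e (nat_lit 532523) (nat_lit 7) (.e (nat_lit 319531) (nat_lit 16) (.e (nat_lit 286733) (nat_lit 2) (.e (nat_lit 90134) (nat_lit 9) .nil)))))) (.g (nat_lit 1) (.e (nat_lit 65273) (nat_lit 0) .nil) .nil)))) (.nd (nat_lit 9) 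
(.lf (nat_lit 462248) (.g (nat_lit 1181) (.e (nat_lit 2980) (nat_lit 185) (.e (nat_lit 434275) (nat_lit 39) (.e (nat_lit 663567) (nat_lit 4) (.e (nat_lit 65651) (nat_lit 27) .nil)))) (.g (nat_lit 0) (.e (nat_lit 61009) (nat_lit 0) .nil) .nil))) 
(.lf (nat_lit 462760) (.g (nat_lit 2601) (.e (nat_lit 3062) (nat_lit 190) (.e (nat_lit 475185) (nat_lit 29) (.e (nat_lit 557101) (nat_lit 13) (.e (nat_lit 172097) (nat_lit 9) (.e (nat_lit 426140) (nat_lit 3) (.e (nat_lit 212736) (nat_lit 17) (.e (nat_lit 6657) (nat_lit 357) .nil))))))) (.g (nat_lit 1) (.e (nat_lit 67384) (nat_lit 0) .nil) .nil)))))) 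
(.nd (nat_lit 7) (.nd (nat_lit 8) (.nd (nat_lit 9) 
(.lf (nat_lit 461928) (.g (nat_lit 1478) (.e (nat_lit 2936) (nat_lit 184) (.e (nat_lit 426163) (nat_lit 6) (.e (nat_lit 253992) (nat_lit 11) (.e (nat_lit 16432) (nat_lit 9) (.e (nat_lit 426533) (nat_lit 28) .nil))))) (.g (nat_lit 0) (.e (nat_lit 59103) (nat_lit 0) .nil) .nil))) 
(.lf (nat_lit 462440) (.g (nat_lit 4813) (.e (nat_lit 3019) (nat_lit 187) (.e (nat_lit 450580) (nat_lit 5) (.e (nat_lit 532523) (nat_lit 7) (.e (nat_lit 319533) (nat_lit 16) (.e (nat_lit 286733) (nat_lit 2) (.e (nat_lit 90134) (nat_lit 9) .nil)))))) (.g (nat_lit 1) (.e (nat_lit 64278) (nat_lit 0) .nil) .nil)))) (.nd (nat_lit 9) 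
(.lf (nat_lit 462184) (.g (nat_lit 3092) (.e (nat_lit 2974) (nat_lit 185) (.e (nat_lit 434231) (nat_lit 23) (.e (nat_lit 532549) (nat_lit 12) (.e (nat_lit 360473) (nat_lit 8) (.e (nat_lit 557089) (nat_lit 12) .nil))))) (.g (nat_lit 0) (.e (nat_lit 60446) (nat_lit 0) .nil) .nil))) 
(.lf (nat_lit 462696) (.g (nat_lit 2629) (.e (nat_lit 3062) (nat_lit 190) (.e (nat_lit 475185) (nat_lit 29) (.e (nat_lit 557100) (nat_lit 13) (.e (nat_lit 172106) (nat_lit 10) (.e (nat_lit 434227) (nat_lit 20) (.e (nat_lit 507928) (nat_lit 10) (.e (nat_lit 5671) (nat_lit 312) .nil))))))) (.g (nat_lit 1) (.e (nat_lit 67320) (nat_lit 0) .nil) .nil))))) (.nd (nat_lit 8) (.nd (nat_lit 9) 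
(.lf (nat_lit 462056) (.g (nat_lit 1381) (.e (nat_lit 2945) (nat_lit 184) (.e (nat_lit 426200) (nat_lit 9) (.e (nat_lit 426436) (nat_lit 18) (.e (nat_lit 98341) (nat_lit 20) .nil)))) (.g (nat_lit 0) (.e (nat_lit 59320) (nat_lit 0) .nil) .nil))) 
(.lf (nat_lit 462568) (.g (nat_lit 1081) (.e (nat_lit 3044) (nat_lit 189) (.e (nat_lit 466981) (nat_lit 23) (.e (nat_lit 204880) (nat_lit 32) (.e (nat_lit 385114) (nat_lit 53) .nil)))) (.g (nat_lit 0) (.e (nat_lit 66888) (nat_lit 0) .nil) .nil)))) (.nd (nat_lit 9) 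
(.lf (nat_lit 462312) (.g (nat_lit 606) (.e (nat_lit 3004) (nat_lit 186) (.e (nat_lit 442368) (nat_lit 0) (.e (nat_lit 6664) (nat_lit 357) (.e (nat_lit 316) (nat_lit 23) (.e (nat_lit 352297) (nat_lit 20) .nil))))) (.g (nat_lit 0) (.e (nat_lit 62005) (nat_lit 0) .nil) .nil))) 
(.lf (nat_lit 462824) (.g (nat_lit 3733) (.e (nat_lit 3062) (nat_lit 190) (.e (nat_lit 475185) (nat_lit 29) (.e (nat_lit 557109) (nat_lit 15) (.e (nat_lit 188450) (nat_lit 23) (.e (nat_lit 204815) (nat_lit 17) .nil))))) (.g (nat_lit 0) (.e (nat_lit 67451) (nat_lit 0) .nil) .nil)))))))) (.nd (nat_lit 5) (.nd (nat_lit 6) (.nd (nat_lit 7) (.nd (nat_lit 8) (.nd (nat_lit 9) 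
(.lf (nat_lit 461848) (.g (nat_lit 2226) (.e (nat_lit 2897) (nat_lit 184) (.e (nat_lit 426540) (nat_lit 29) (.e (nat_lit 352262) (nat_lit 0) (.e (nat_lit 3632) (nat_lit 227) (.e (nat_lit 778323) (nat_lit 5) (.e (nat_lit 81664) (nat_lit 32) .nil)))))) (.g (nat_lit 1) (.e (nat_lit 58836) (nat_lit 0) .nil) .nil))) 
(.lf (nat_lit 462360) (.g (nat_lit 2659) (.e (nat_lit 3009) (nat_lit 187) (.e (nat_lit 450579) (nat_lit 5) (.e (nat_lit 532523) (nat_lit 7) (.e (nat_lit 319529) (nat_lit 16) (.e (nat_lit 286733) (nat_lit 2) (.e (nat_lit 90134) (nat_lit 9) .nil)))))) (.g (nat_lit 1) (.e (nat_lit 62170) (nat_lit 0) .nil) .nil)))) (.nd (nat_lit 9) 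
(.lf (nat_lit 462104) (.g (nat_lit 342) (.e (nat_lit 7936) (nat_lit 184) (.e (nat_lit 426550) (nat_lit 31) (.e (nat_lit 376576) (nat_lit 4) .nil))) (.g (nat_lit 0) (.e (nat_lit 59624) (nat_lit 0) .nil) .nil))) 
(.lf (nat_lit 462616) (.g (nat_lit 2227) (.e (nat_lit 3061) (nat_lit 190) (.e (nat_lit 475185) (nat_lit 29) (.e (nat_lit 557101) (nat_lit 13) (.e (nat_lit 172115) (nat_lit 10) .nil)))) (.g (nat_lit 0) (.e (nat_lit 67095) (nat_lit 0) .nil) .nil))))) (.nd (nat_lit 8) (.nd (nat_lit 9) 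
(.lf (nat_lit 461976) (.g (nat_lit 4056) (.e (nat_lit 2939) (nat_lit 184) (.e (nat_lit 425984) (nat_lit 0) (.e (nat_lit 3249) (nat_lit 197) (.e (nat_lit 532569) (nat_lit 16) (.e (nat_lit 401434) (nat_lit 9) (.e (nat_lit 426125) (nat_lit 2) (.e (nat_lit 196661) (nat_lit 12) (.e (nat_lit 57749) (nat_lit 201) .nil)))))))) (.g (nat_lit 1) (.e (nat_lit 59184) (nat_lit 0) .nil) .nil))) 
(.lf (nat_lit 462488) (.g (nat_lit 4724) (.e (nat_lit 3022) (nat_lit 187) (.e (nat_lit 450580) (nat_lit 5) (.e (nat_lit 532569) (nat_lit 16) (.e (nat_lit 401448) (nat_lit 10) (.e (nat_lit 434238) (nat_lit 25) (.e (nat_lit 548898) (nat_lit 14) .nil)))))) (.g (nat_lit 1) (.e (nat_lit 64946) (nat_lit 0) .nil) .nil)))) (.nd (nat_lit 9) 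
(.lf (nat_lit 462232) (.g (nat_lit 4182) (.e (nat_lit 2980) (nat_lit 185) (.e (nat_lit 434231) (nat_lit 23) (.e (nat_lit 532549) (nat_lit 12) (.e (nat_lit 360475) (nat_lit 8) (.e (nat_lit 557090) (nat_lit 12) (.e (nat_lit 164020) (nat_lit 45) (.e (nat_lit 696328) (nat_lit 5) .nil))))))) (.g (nat_lit 1) (.e (nat_lit 60919) (nat_lit 0) .nil) .nil))) 
(.lf (nat_lit 462744) (.g (nat_lit 2575) (.e (nat_lit 3062) (nat_lit 190) (.e (nat_lit 475185) (nat_lit 29) (.e (nat_lit 557100) (nat_lit 13) (.e (nat_lit 172113) (nat_lit 10) (.e (nat_lit 434245) (nat_lit 28) .nil))))) (.g (nat_lit 0) (.e (nat_lit 67368) (nat_lit 0) .nil) .nil)))))) (.nd (nat_lit 7) (.nd (nat_lit 8) (.nd (nat_lit 9) 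
(.lf (nat_lit 461912) (.g (nat_lit 3004) (.e (nat_lit 2936) (nat_lit 184) (.e (nat_lit 426163) (nat_lit 6) (.e (nat_lit 253991) (nat_lit 11) (.e (nat_lit 16436) (nat_lit 9) (.e (nat_lit 426533) (nat_lit 28) (.e (nat_lit 344066) (nat_lit 0) .nil)))))) (.g (nat_lit 1) (.e (nat_lit 59081) (nat_lit 0) .nil) .nil))) 
(.lf (nat_lit 462424) (.g (nat_lit 3512) (.e (nat_lit 3016) (nat_lit 187) (.e (nat_lit 450580) (nat_lit 5) (.e (nat_lit 532522) (nat_lit 7) (.e (nat_lit 319530) (nat_lit 16) (.e (nat_lit 286733) (nat_lit 2) (.e (nat_lit 90134) (nat_lit 9) .nil)))))) (.g (nat_lit 1) (.e (nat_lit 63889) (nat_lit 0) .nil) .nil)))) (.nd (nat_lit 9) 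
(.lf (nat_lit 462168) (.g (nat_lit 4226) (.e (nat_lit 2965) (nat_lit 185) (.e (nat_lit 434231) (nat_lit 23) (.e (nat_lit 532549) (nat_lit 12) (.e (nat_lit 360475) (nat_lit 8) (.e (nat_lit 557091) (nat_lit 12) .nil))))) (.g (nat_lit 0) (.e (nat_lit 60334) (nat_lit 0) .nil) .nil))) 
(.lf (nat_lit 462680) (.g (nat_lit 2524) (.e (nat_lit 3062) (nat_lit 190) (.e (nat_lit 475185) (nat_lit 29) (.e (nat_lit 557098) (nat_lit 13) (.e (nat_lit 172097) (nat_lit 9) (.e (nat_lit 426125) (nat_lit 2) .nil))))) (.g (nat_lit 0) (.e (nat_lit 67304) (nat_lit 0) .nil) .nil))))) (.nd (nat_lit 8) (.nd (nat_lit 9) 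
(.lf (nat_lit 462040) (.g (nat_lit 2920) (.e (nat_lit 2941) (nat_lit 184) (.e (nat_lit 426401) (nat_lit 15) (.e (nat_lit 1859) (nat_lit 124) (.e (nat_lit 557109) (nat_lit 15) (.e (nat_lit 188449) (nat_lit 22) (.e (nat_lit 196661) (nat_lit 12) (.e (nat_lit 57748) (nat_lit 201) .nil))))))) (.g (nat_lit 1) (.e (nat_lit 59281) (nat_lit 0) .nil) .nil))) 
(.lf (nat_lit 462552) (.g (nat_lit 1332) (.e (nat_lit 3044) (nat_lit 189) (.e (nat_lit 466977) (nat_lit 22) (.e (nat_lit 196626) (nat_lit 9) (.e (nat_lit 1400) (nat_lit 106) (.e (nat_lit 327424) (nat_lit 16) .nil))))) (.g (nat_lit 0) (.e (nat_lit 66808) (nat_lit 0) .nil) .nil)))) (.nd (nat_lit 9) 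
(.lf (nat_lit 462296) (.g (nat_lit 2549) (.e (nat_lit 2988) (nat_lit 186) (.e (nat_lit 442390) (nat_lit 11) (.e (nat_lit 336231) (nat_lit 14) (.e (nat_lit 401446) (nat_lit 10) (.e (nat_lit 434287) (nat_lit 43) (.e (nat_lit 696330) (nat_lit 5) .nil)))))) (.g (nat_lit 1) (.e (nat_lit 61350) (nat_lit 0) .nil) .nil))) 
(.lf (nat_lit 462808) (.g (nat_lit 3917) (.e (nat_lit 3062) (nat_lit 190) (.e (nat_lit 475185) (nat_lit 29) (.e (nat_lit 557107) (nat_lit 15) (.e (nat_lit 188450) (nat_lit 23) (.e (nat_lit 204816) (nat_lit 17) (.e (nat_lit 6665) (nat_lit 357) .nil)))))) (.g (nat_lit 1) (.e (nat_lit 67435) (nat_lit 0) .nil) .nil))))))) (.nd (nat_lit 6) (.nd (nat_lit 7) (.nd (nat_lit 8) (.nd (nat_lit 9) 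
(.lf (nat_lit 461880) (.g (nat_lit 1897) (.e (nat_lit 2950) (nat_lit 184) (.e (nat_lit 426316) (nat_lit 12) (.e (nat_lit 475185) (nat_lit 29) (.e (nat_lit 557105) (nat_lit 14) (.e (nat_lit 188160) (nat_lit 32) .nil))))) (.g (nat_lit 0) (.e (nat_lit 58941) (nat_lit 0) .nil) .nil))) 
(.lf (nat_lit 462392) (.g (nat_lit 1194) (.e (nat_lit 3015) (nat_lit 187) (.e (nat_lit 450563) (nat_lit 0) (.e (nat_lit 6830) (nat_lit 367) (.e (nat_lit 57424) (nat_lit 14) .nil)))) (.g (nat_lit 0) (.e (nat_lit 62973) (nat_lit 0) .nil) .nil)))) (.nd (nat_lit 9) 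
(.lf (nat_lit 462136) (.g (nat_lit 1808) (.e (nat_lit 2964) (nat_lit 185) (.e (nat_lit 434231) (nat_lit 23) (.e (nat_lit 532549) (nat_lit 12) (.e (nat_lit 360473) (nat_lit 8) (.e (nat_lit 557094) (nat_lit 12) .nil))))) (.g (nat_lit 0) (.e (nat_lit 60162) (nat_lit 0) .nil) .nil))) 
(.lf (nat_lit 462648) (.g (nat_lit 848) (.e (nat_lit 3062) (nat_lit 190) (.e (nat_lit 475179) (nat_lit 24) (.e (nat_lit 516162) (nat_lit 11) .nil))) (.g (nat_lit 0) (.e (nat_lit 67237) (nat_lit 0) .nil) .nil))))) (.nd (nat_lit 8) (.nd (nat_lit 9) 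
(.lf (nat_lit 462008) (.g (nat_lit 991) (.e (nat_lit 2939) (nat_lit 184) (.e (nat_lit 426503) (nat_lit 27) (.e (nat_lit 336231) (nat_lit 14) (.e (nat_lit 401458) (nat_lit 13) .nil)))) (.g (nat_lit 0) (.e (nat_lit 59246) (nat_lit 0) .nil) .nil))) 
(.lf (nat_lit 462520) (.g (nat_lit 1955) (.e (nat_lit 3027) (nat_lit 187) (.e (nat_lit 458496) (nat_lit 0) (.e (nat_lit 6807) (nat_lit 365) (.e (nat_lit 1220) (nat_lit 90) (.e (nat_lit 81938) (nat_lit 20) (.e (nat_lit 1886) (nat_lit 127) (.e (nat_lit 581635) (nat_lit 0) .nil))))))) (.g (nat_lit 1) (.e (nat_lit 65918) (nat_lit 0) .nil) .nil)))) (.nd (nat_lit 9) 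
(.lf (nat_lit 462264) (.g (nat_lit 3472) (.e (nat_lit 2981) (nat_lit 185) (.e (nat_lit 434231) (nat_lit 23) (.e (nat_lit 532550) (nat_lit 12) (.e (nat_lit 360475) (nat_lit 8) (.e (nat_lit 557091) (nat_lit 12) .nil))))) (.g (nat_lit 0) (.e (nat_lit 61036) (nat_lit 0) .nil) .nil))) 
(.lf (nat_lit 462776) (.g (nat_lit 2217) (.e (nat_lit 3062) (nat_lit 190) (.e (nat_lit 475185) (nat_lit 29) (.e (nat_lit 557101) (nat_lit 13) (.e (nat_lit 172115) (nat_lit 10) (.e (nat_lit 434227) (nat_lit 20) (.e (nat_lit 507930) (nat_lit 10) (.e (nat_lit 5650) (nat_lit 312) .nil))))))) (.g (nat_lit 1) (.e (nat_lit 67400) (nat_lit 0) .nil) .nil)))))) 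
(.nd (nat_lit 7) (.nd (nat_lit 8) (.nd (nat_lit 9) 
(.lf (nat_lit 461944) (.g (nat_lit 3240) (.e (nat_lit 2936) (nat_lit 184) (.e (nat_lit 426419) (nat_lit 15) (.e (nat_lit 1856) (nat_lit 124) (.e (nat_lit 557098) (nat_lit 13) (.e (nat_lit 172115) (nat_lit 10) (.e (nat_lit 434231) (nat_lit 23) (.e (nat_lit 532490) (nat_lit 0) (.e (nat_lit 6674) (nat_lit 357) .nil)))))))) (.g (nat_lit 1) (.e (nat_lit 59146) (nat_lit 0) .nil) .nil))) 
(.lf (nat_lit 462456) (.g (nat_lit 2742) (.e (nat_lit 3021) (nat_lit 187) (.e (nat_lit 450586) (nat_lit 10) (.e (nat_lit 573474) (nat_lit 12) (.e (nat_lit 57572) (nat_lit 54) .nil)))) (.g (nat_lit 0) (.e (nat_lit 64443) (nat_lit 0) .nil) .nil)))) (.nd (nat_lit 9) 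
(.lf (nat_lit 462200) (.g (nat_lit 2571) (.e (nat_lit 2975) (nat_lit 185) (.e (nat_lit 434231) (nat_lit 23) (.e (nat_lit 532550) (nat_lit 12) (.e (nat_lit 360474) (nat_lit 8) .nil)))) (.g (nat_lit 0) (.e (nat_lit 60517) (nat_lit 0) .nil) .nil))) 
(.lf (nat_lit 462712) (.g (nat_lit 2692) (.e (nat_lit 3062) (nat_lit 190) (.e (nat_lit 475185) (nat_lit 29) (.e (nat_lit 557100) (nat_lit 13) (.e (nat_lit 172106) (nat_lit 10) (.e (nat_lit 434231) (nat_lit 23) (.e (nat_lit 532480) (nat_lit 0) (.e (nat_lit 6664) (nat_lit 357) .nil))))))) (.g (nat_lit 1) (.e (nat_lit 67336) (nat_lit 0) .nil) .nil))))) (.nd (nat_lit 8) (.nd (nat_lit 9) 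
(.lf (nat_lit 462072) (.g (nat_lit 3690) (.e (nat_lit 2949) (nat_lit 184) (.e (nat_lit 426316) (nat_lit 12) (.e (nat_lit 475185) (nat_lit 29) (.e (nat_lit 557096) (nat_lit 13) (.e (nat_lit 172126) (nat_lit 14) (.e (nat_lit 491537) (nat_lit 2) (.e (nat_lit 90133) (nat_lit 9) .nil))))))) (.g (nat_lit 1) (.e (nat_lit 59361) (nat_lit 0) .nil) .nil))) 
(.lf (nat_lit 462584) (.g (nat_lit 4481) (.e (nat_lit 3055) (nat_lit 190) (.e (nat_lit 475185) (nat_lit 29) (.e (nat_lit 557101) (nat_lit 13) (.e (nat_lit 172115) (nat_lit 10) (.e (nat_lit 434231) (nat_lit 23) (.e (nat_lit 532481) (nat_lit 0) (.e (nat_lit 6693) (nat_lit 357) .nil))))))) (.g (nat_lit 1) (.e (nat_lit 66991) (nat_lit 0) .nil) .nil)))) (.nd (nat_lit 9) 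
(.lf (nat_lit 462328) (.g (nat_lit 1579) (.e (nat_lit 3004) (nat_lit 186) (.e (nat_lit 442374) (nat_lit 0) (.e (nat_lit 2059) (nat_lit 142) (.e (nat_lit 704598) (nat_lit 6) (.e (nat_lit 188441) (nat_lit 20) .nil))))) (.g (nat_lit 0) (.e (nat_lit 62034) (nat_lit 0) .nil) .nil))) 
(.lf (nat_lit 462840) (.g (nat_lit 3096) (.e (nat_lit 3062) (nat_lit 190) (.e (nat_lit 475185) (nat_lit 29) (.e (nat_lit 557109) (nat_lit 15) (.e (nat_lit 188452) (nat_lit 23) (.e (nat_lit 204830) (nat_lit 18) .nil))))) (.g (nat_lit 0) (.e (nat_lit 67467) (nat_lit 0) .nil) .nil)))))))))) 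
(.nd (nat_lit 3) (.nd (nat_lit 4) (.nd (nat_lit 5) (.nd (nat_lit 6) (.nd (nat_lit 7) 
(.nd (nat_lit 8) (.nd (nat_lit 9) 
(.lf (nat_lit 461828) (.g (nat_lit 4284) (.e (nat_lit 2884) (nat_lit 184) (.e (nat_lit 426339) (nat_lit 14) (.e (nat_lit 491537) (nat_lit 2) (.e (nat_lit 90170) (nat_lit 13) (.e (nat_lit 172106) (nat_lit 10) (.e (nat_lit 434238) (nat_lit 25) (.e (nat_lit 548897) (nat_lit 14) .nil))))))) (.g (nat_lit 1) (.e (nat_lit 58794) (nat_lit 0) .nil) .nil))) 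
(.lf (nat_lit 462340) (.g (nat_lit 955) (.e (nat_lit 3004) (nat_lit 186) (.e (nat_lit 442374) (nat_lit 0) (.e (nat_lit 2175) (nat_lit 143) (.e (nat_lit 712755) (nat_lit 30) .nil)))) (.g (nat_lit 0) (.e (nat_lit 62046) (nat_lit 0) .nil) .nil)))) (.nd (nat_lit 9) 
(.lf (nat_lit 462084) (.g (nat_lit 3773) (.e (nat_lit 2946) (nat_lit 184) (.e (nat_lit 426139) (nat_lit 3) (.e (nat_lit 204869) (nat_lit 29) (.e (nat_lit 360474) (nat_lit 8) (.e (nat_lit 557091) (nat_lit 12) (.e (nat_lit 164020) (nat_lit 45) (.e (nat_lit 696334) (nat_lit 5) .nil))))))) (.g (nat_lit 1) (.e (nat_lit 59429) (nat_lit 0) .nil) .nil))) 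
(.lf (nat_lit 462596) (.g (nat_lit 2284) (.e (nat_lit 3058) (nat_lit 190) (.e (nat_lit 475185) (nat_lit 29) (.e (nat_lit 557098) (nat_lit 13) (.e (nat_lit 172097) (nat_lit 9) .nil)))) (.g (nat_lit 0) (.e (nat_lit 67048) (nat_lit 0) .nil) .nil))))) (.nd (nat_lit 8) (.nd (nat_lit 9) 
(.lf (nat_lit 461956) (.g (nat_lit 2686) (.e (nat_lit 2936) (nat_lit 184) (.e (nat_lit 426488) (nat_lit 27) (.e (nat_lit 336235) (nat_lit 14) (.e (nat_lit 401438) (nat_lit 9) (.e (nat_lit 426533) (nat_lit 28) (.e (nat_lit 344067) (nat_lit 0) .nil)))))) (.g (nat_lit 1) (.e (nat_lit 59159) (nat_lit 0) .nil) .nil))) 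
(.lf (nat_lit 462468) (.g (nat_lit 1632) (.e (nat_lit 3022) (nat_lit 187) (.e (nat_lit 458496) (nat_lit 0) (.e (nat_lit 5190) (nat_lit 294) (.e (nat_lit 57412) (nat_lit 12) (.e (nat_lit 336176) (nat_lit 10) (.e (nat_lit 344157) (nat_lit 36) (.e (nat_lit 638985) (nat_lit 5) .nil))))))) (.g (nat_lit 1) (.e (nat_lit 64808) (nat_lit 0) .nil) .nil)))) (.nd (nat_lit 9) 
(.lf (nat_lit 462212) (.g (nat_lit 2597) (.e (nat_lit 2978) (nat_lit 185) (.e (nat_lit 434231) (nat_lit 23) (.e (nat_lit 532550) (nat_lit 12) (.e (nat_lit 360474) (nat_lit 8) (.e (nat_lit 557093) (nat_lit 12) (.e (nat_lit 164018) (nat_lit 45) (.e (nat_lit 696326) (nat_lit 5) .nil))))))) (.g (nat_lit 1) (.e (nat_lit 60698) (nat_lit 0) .nil) .nil))) 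
(.lf (nat_lit 462724) (.g (nat_lit 3179) (.e (nat_lit 3062) (nat_lit 190) (.e (nat_lit 475185) (nat_lit 29) (.e (nat_lit 557100) (nat_lit 13) (.e (nat_lit 172106) (nat_lit 10) (.e (nat_lit 434231) (nat_lit 23) (.e (nat_lit 532486) (nat_lit 0) (.e (nat_lit 7936) (nat_lit 357) .nil))))))) (.g (nat_lit 1) (.e (nat_lit 67348) (nat_lit 0) .nil) .nil)))))) 
(.nd (nat_lit 7) (.nd (nat_lit 8) (.nd (nat_lit 9) 
(.lf (nat_lit 461892) (.g (nat_lit 3718) (.e (nat_lit 2936) (nat_lit 184) (.e (nat_lit 426129) (nat_lit 3) (.e (nat_lit 204885) (nat_lit 33) (.e (nat_lit 401434) (nat_lit 9) (.e (nat_lit 426125) (nat_lit 2) (.e (nat_lit 196661) (nat_lit 12) (.e (nat_lit 57748) (nat_lit 201) .nil))))))) (.g (nat_lit 1) (.e (nat_lit 59024) (nat_lit 0) .nil) .nil))) 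
(.lf (nat_lit 462404) (.g (nat_lit 927) (.e (nat_lit 3015) (nat_lit 187) (.e (nat_lit 450588) (nat_lit 10) (.e (nat_lit 573505) (nat_lit 18) .nil))) (.g (nat_lit 0) (.e (nat_lit 63313) (nat_lit 0) .nil) .nil)))) (.nd (nat_lit 9) 
(.lf (nat_lit 462148) (.g (nat_lit 3801) (.e (nat_lit 2964) (nat_lit 185) (.e (nat_lit 434231) (nat_lit 23) (.e (nat_lit 532550) (nat_lit 12) (.e (nat_lit 360474) (nat_lit 8) (.e (nat_lit 557088) (nat_lit 12) (.e (nat_lit 164018) (nat_lit 45) (.e (nat_lit 696330) (nat_lit 5) .nil))))))) (.g (nat_lit 1) (.e (nat_lit 60181) (nat_lit 0) .nil) .nil))) 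
(.lf (nat_lit 462660) (.g (nat_lit 2509) (.e (nat_lit 3062) (nat_lit 190) (.e (nat_lit 475179) (nat_lit 24) (.e (nat_lit 516174) (nat_lit 14) (.e (nat_lit 466954) (nat_lit 11) (.e (nat_lit 335995) (nat_lit 1) (.e (nat_lit 57655) (nat_lit 152) (.e (nat_lit 2503) (nat_lit 157) .nil))))))) (.g (nat_lit 1) (.e (nat_lit 67276) (nat_lit 0) .nil) .nil))))) (.nd (nat_lit 8) (.nd (nat_lit 9) 
(.lf (nat_lit 462020) (.g (nat_lit 3763) (.e (nat_lit 2940) (nat_lit 184) (.e (nat_lit 426401) (nat_lit 15) (.e (nat_lit 1858) (nat_lit 124) (.e (nat_lit 557101) (nat_lit 13) (.e (nat_lit 172097) (nat_lit 9) (.e (nat_lit 426125) (nat_lit 2) (.e (nat_lit 196661) (nat_lit 12) (.e (nat_lit 57748) (nat_lit 201) .nil)))))))) (.g (nat_lit 1) (.e (nat_lit 59261) (nat_lit 0) .nil) .nil))) 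
(.lf (nat_lit 462532) (.g (nat_lit 228) (.e (nat_lit 3028) (nat_lit 187) (.e (nat_lit 450566) (nat_lit 0) (.e (nat_lit 5212) (nat_lit 295) .nil))) (.g (nat_lit 0) (.e (nat_lit 66469) (nat_lit 0) .nil) .nil)))) (.nd (nat_lit 9) 
(.lf (nat_lit 462276) (.g (nat_lit 3274) (.e (nat_lit 2988) (nat_lit 186) (.e (nat_lit 442374) (nat_lit 0) (.e (nat_lit 1856) (nat_lit 124) (.e (nat_lit 557107) (nat_lit 15) (.e (nat_lit 188441) (nat_lit 20) (.e (nat_lit 3272) (nat_lit 199) (.e (nat_lit 548898) (nat_lit 14) .nil))))))) (.g (nat_lit 1) (.e (nat_lit 61293) (nat_lit 0) .nil) .nil))) 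
(.lf (nat_lit 462788) (.g (nat_lit 4134) (.e (nat_lit 3062) (nat_lit 190) (.e (nat_lit 475185) (nat_lit 29) (.e (nat_lit 557101) (nat_lit 13) (.e (nat_lit 172115) (nat_lit 10) (.e (nat_lit 434231) (nat_lit 23) (.e (nat_lit 532481) (nat_lit 0) (.e (nat_lit 6622) (nat_lit 357) .nil))))))) (.g (nat_lit 1) (.e (nat_lit 67412) (nat_lit 0) .nil) .nil))))))) 
(.nd (nat_lit 6) (.nd (nat_lit 7) (.nd (nat_lit 8) (.nd (nat_lit 9) 
(.lf (nat_lit 461860) (.g (nat_lit 2635) (.e (nat_lit 2902) (nat_lit 184) (.e (nat_lit 426435) (nat_lit 18) (.e (nat_lit 98358) (nat_lit 26) (.e (nat_lit 426436) (nat_lit 18) (.e (nat_lit 98356) (nat_lit 26) (.e (nat_lit 426428) (nat_lit 17) (.e (nat_lit 90133) (nat_lit 9) .nil))))))) (.g (nat_lit 1) (.e (nat_lit 58854) (nat_lit 0) .nil) .nil))) 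
(.lf (nat_lit 462372) (.g (nat_lit 1068) (.e (nat_lit 3011) (nat_lit 187) (.e (nat_lit 450605) (nat_lit 27) (.e (nat_lit 745475) (nat_lit 0) (.e (nat_lit 1586) (nat_lit 111) (.e (nat_lit 368384) (nat_lit 10) (.e (nat_lit 573442) (nat_lit 0) .nil)))))) (.g (nat_lit 1) (.e (nat_lit 62605) (nat_lit 0) .nil) .nil)))) (.nd (nat_lit 9) 
(.lf (nat_lit 462116) (.g (nat_lit 1638) (.e (nat_lit 2962) (nat_lit 185) (.e (nat_lit 434268) (nat_lit 36) (.e (nat_lit 639020) (nat_lit 16) (.e (nat_lit 65586) (nat_lit 7) (.e (nat_lit 319531) (nat_lit 16) .nil))))) (.g (nat_lit 0) (.e (nat_lit 59924) (nat_lit 0) .nil) .nil))) 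
(.lf (nat_lit 462628) (.g (nat_lit 4086) (.e (nat_lit 3062) (nat_lit 190) (.e (nat_lit 483072) (nat_lit 26) (.e (nat_lit 532544) (nat_lit 10) (.e (nat_lit 344133) (nat_lit 26) (.e (nat_lit 557105) (nat_lit 14) (.e (nat_lit 180251) (nat_lit 10) (.e (nat_lit 573443) (nat_lit 0) .nil))))))) (.g (nat_lit 1) (.e (nat_lit 67114) (nat_lit 0) .nil) .nil))))) (.nd (nat_lit 8) (.nd (nat_lit 9) 
(.lf (nat_lit 461988) (.g (nat_lit 3756) (.e (nat_lit 2939) (nat_lit 184) (.e (nat_lit 426419) (nat_lit 15) (.e (nat_lit 1856) (nat_lit 124) (.e (nat_lit 557101) (nat_lit 13) (.e (nat_lit 172097) (nat_lit 9) (.e (nat_lit 426125) (nat_lit 2) (.e (nat_lit 196661) (nat_lit 12) (.e (nat_lit 57749) (nat_lit 201) .nil)))))))) (.g (nat_lit 1) (.e (nat_lit 59221) (nat_lit 0) .nil) .nil))) 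
(.lf (nat_lit 462500) (.g (nat_lit 892) (.e (nat_lit 3022) (nat_lit 187) (.e (nat_lit 450605) (nat_lit 27) (.e (nat_lit 745493) (nat_lit 6) (.e (nat_lit 81946) (nat_lit 20) (.e (nat_lit 1885) (nat_lit 127) (.e (nat_lit 581636) (nat_lit 0) .nil)))))) (.g (nat_lit 1) (.e (nat_lit 65267) (nat_lit 0) .nil) .nil)))) (.nd (nat_lit 9) 
(.lf (nat_lit 462244) (.g (nat_lit 2381) (.e (nat_lit 2980) (nat_lit 185) (.e (nat_lit 434231) (nat_lit 23) (.e (nat_lit 540416) (nat_lit 12) (.e (nat_lit 360475) (nat_lit 8) (.e (nat_lit 557090) (nat_lit 12) (.e (nat_lit 164020) (nat_lit 45) (.e (nat_lit 696328) (nat_lit 5) .nil))))))) (.g (nat_lit 1) (.e (nat_lit 60947) (nat_lit 0) .nil) .nil))) 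
(.lf (nat_lit 462756) (.g (nat_lit 3571) (.e (nat_lit 3062) (nat_lit 190) (.e (nat_lit 475185) (nat_lit 29) (.e (nat_lit 557101) (nat_lit 13) (.e (nat_lit 172097) (nat_lit 9) (.e (nat_lit 426125) (nat_lit 2) (.e (nat_lit 196661) (nat_lit 12) (.e (nat_lit 65280) (nat_lit 201) .nil))))))) (.g (nat_lit 1) (.e (nat_lit 67380) (nat_lit 0) .nil) .nil)))))) 
(.nd (nat_lit 7) (.nd (nat_lit 8) (.nd (nat_lit 9) 
(.lf (nat_lit 461924) (.g (nat_lit 2137) (.e (nat_lit 2936) (nat_lit 184) (.e (nat_lit 426163) (nat_lit 6) (.e (nat_lit 253991) (nat_lit 11) (.e (nat_lit 16465) (nat_lit 13) (.e (nat_lit 491264) (nat_lit 17) .nil))))) (.g (nat_lit 0) (.e (nat_lit 59095) (nat_lit 0) .nil) .nil))) 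
(.lf (nat_lit 462436) (.g (nat_lit 1045) (.e (nat_lit 3016) (nat_lit 187) (.e (nat_lit 450605) (nat_lit 27) (.e (nat_lit 745493) (nat_lit 6) (.e (nat_lit 81943) (nat_lit 20) (.e (nat_lit 1885) (nat_lit 127) (.e (nat_lit 581636) (nat_lit 0) .nil)))))) (.g (nat_lit 1) (.e (nat_lit 64268) (nat_lit 0) .nil) .nil)))) (.nd (nat_lit 9) 
(.lf (nat_lit 462180) (.g (nat_lit 3481) (.e (nat_lit 2972) (nat_lit 185) (.e (nat_lit 434231) (nat_lit 23) (.e (nat_lit 532550) (nat_lit 12) (.e (nat_lit 360475) (nat_lit 8) (.e (nat_lit 557091) (nat_lit 12) .nil))))) (.g (nat_lit 0) (.e (nat_lit 60367) (nat_lit 0) .nil) .nil))) 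
(.lf (nat_lit 462692) (.g (nat_lit 2276) (.e (nat_lit 3062) (nat_lit 190) (.e (nat_lit 475185) (nat_lit 29) (.e (nat_lit 557100) (nat_lit 13) (.e (nat_lit 172106) (nat_lit 10) (.e (nat_lit 434227) (nat_lit 20) (.e (nat_lit 507928) (nat_lit 10) (.e (nat_lit 5651) (nat_lit 312) .nil))))))) (.g (nat_lit 1) (.e (nat_lit 67316) (nat_lit 0) .nil) .nil))))) (.nd (nat_lit 8) (.nd (nat_lit 9) 
(.lf (nat_lit 462052) (.g (nat_lit 2196) (.e (nat_lit 2945) (nat_lit 184) (.e (nat_lit 426123) (nat_lit 2) (.e (nat_lit 196666) (nat_lit 13) (.e (nat_lit 65610) (nat_lit 10) (.e (nat_lit 344129) (nat_lit 26) .nil))))) (.g (nat_lit 0) (.e (nat_lit 59306) (nat_lit 0) .nil) .nil))) 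
(.lf (nat_lit 462564) (.g (nat_lit 3319) (.e (nat_lit 3044) (nat_lit 189) (.e (nat_lit 466981) (nat_lit 23) (.e (nat_lit 204861) (nat_lit 26) (.e (nat_lit 335988) (nat_lit 1) (.e (nat_lit 57927) (nat_lit 282) (.e (nat_lit 163843) (nat_lit 0) (.e (nat_lit 7936) (nat_lit 200) (.e (nat_lit 557065) (nat_lit 9) .nil)))))))) (.g (nat_lit 1) (.e (nat_lit 66868) (nat_lit 0) .nil) .nil)))) 
(.nd (nat_lit 9) 
(.lf (nat_lit 462308) (.g (nat_lit 1385) (.e (nat_lit 2997) (nat_lit 186) (.e (nat_lit 442374) (nat_lit 0) (.e (nat_lit 2175) (nat_lit 143) (.e (nat_lit 712750) (nat_lit 29) .nil)))) (.g (nat_lit 0) (.e (nat_lit 61570) (nat_lit 0) .nil) .nil))) 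
(.lf (nat_lit 462820) (.g (nat_lit 1309) (.e (nat_lit 3062) (nat_lit 190) (.e (nat_lit 475185) (nat_lit 29) (.e (nat_lit 557109) (nat_lit 15) (.e (nat_lit 188449) (nat_lit 22) .nil)))) (.g (nat_lit 0) (.e (nat_lit 67447) (nat_lit 0) .nil) .nil)))))))) (.nd (nat_lit 5) (.nd (nat_lit 6) (.nd (nat_lit 7) (.nd (nat_lit 8) (.nd (nat_lit 9) 
(.lf (nat_lit 461844) (.g (nat_lit 1785) (.e (nat_lit 2896) (nat_lit 184) (.e (nat_lit 426555) (nat_lit 32) (.e (nat_lit 376859) (nat_lit 21) (.e (nat_lit 57873) (nat_lit 264) (.e (nat_lit 1209) (nat_lit 89) .nil))))) (.g (nat_lit 0) (.e (nat_lit 58832) (nat_lit 0) .nil) .nil))) 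
(.lf (nat_lit 462356) (.g (nat_lit 1422) (.e (nat_lit 3005) (nat_lit 186) (.e (nat_lit 442374) (nat_lit 0) (.e (nat_lit 2175) (nat_lit 143) (.e (nat_lit 712753) (nat_lit 30) .nil)))) (.g (nat_lit 0) (.e (nat_lit 62131) (nat_lit 0) .nil) .nil)))) (.nd (nat_lit 9) 
(.lf (nat_lit 462100) (.g (nat_lit 2001) (.e (nat_lit 2946) (nat_lit 184) (.e (nat_lit 426500) (nat_lit 27) (.e (nat_lit 336204) (nat_lit 12) (.e (nat_lit 385094) (nat_lit 49) (.e (nat_lit 778323) (nat_lit 5) (.e (nat_lit 81664) (nat_lit 32) .nil)))))) (.g (nat_lit 1) (.e (nat_lit 59596) (nat_lit 0) .nil) .nil))) 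
(.lf (nat_lit 462612) (.g (nat_lit 3797) (.e (nat_lit 3060) (nat_lit 190) (.e (nat_lit 475185) (nat_lit 29) (.e (nat_lit 557101) (nat_lit 13) (.e (nat_lit 172115) (nat_lit 10) (.e (nat_lit 434231) (nat_lit 23) (.e (nat_lit 532490) (nat_lit 0) (.e (nat_lit 7936) (nat_lit 357) .nil))))))) (.g (nat_lit 1) (.e (nat_lit 67076) (nat_lit 0) .nil) .nil))))) (.nd (nat_lit 8) (.nd (nat_lit 9) 
(.lf (nat_lit 461972) (.g (nat_lit 1133) (.e (nat_lit 2937) (nat_lit 184) (.e (nat_lit 426318) (nat_lit 12) (.e (nat_lit 475179) (nat_lit 24) (.e (nat_lit 516131) (nat_lit 3) .nil)))) (.g (nat_lit 0) (.e (nat_lit 59178) (nat_lit 0) .nil) .nil))) 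
(.lf (nat_lit 462484) (.g (nat_lit 6054) (.e (nat_lit 3022) (nat_lit 187) (.e (nat_lit 450580) (nat_lit 5) (.e (nat_lit 532563) (nat_lit 15) (.e (nat_lit 385094) (nat_lit 49) (.e (nat_lit 778317) (nat_lit 3) (.e (nat_lit 57480) (nat_lit 28) (.e (nat_lit 557067) (nat_lit 9) .nil))))))) (.g (nat_lit 1) (.e (nat_lit 64895) (nat_lit 0) .nil) .nil)))) (.nd (nat_lit 9) 
(.lf (nat_lit 462228) (.g (nat_lit 4064) (.e (nat_lit 2980) (nat_lit 185) (.e (nat_lit 434231) (nat_lit 23) (.e (nat_lit 532549) (nat_lit 12) (.e (nat_lit 360473) (nat_lit 8) (.e (nat_lit 557091) (nat_lit 12) (.e (nat_lit 164020) (nat_lit 45) (.e (nat_lit 696330) (nat_lit 5) .nil))))))) (.g (nat_lit 1) (.e (nat_lit 60909) (nat_lit 0) .nil) .nil))) 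
(.lf (nat_lit 462740) (.g (nat_lit 3079) (.e (nat_lit 3062) (nat_lit 190) (.e (nat_lit 475185) (nat_lit 29) (.e (nat_lit 557100) (nat_lit 13) (.e (nat_lit 172113) (nat_lit 10) (.e (nat_lit 434227) (nat_lit 20) (.e (nat_lit 507930) (nat_lit 10) (.e (nat_lit 5612) (nat_lit 312) .nil))))))) (.g (nat_lit 1) (.e (nat_lit 67364) (nat_lit 0) .nil) .nil)))))) 
(.nd (nat_lit 7) (.nd (nat_lit 8) (.nd (nat_lit 9) 
(.lf (nat_lit 461908) (.g (nat_lit 2319) (.e (nat_lit 2936) (nat_lit 184) (.e (nat_lit 426163) (nat_lit 6) (.e (nat_lit 253991) (nat_lit 11) (.e (nat_lit 16433) (nat_lit 9) .nil)))) (.g (nat_lit 0) (.e (nat_lit 59075) (nat_lit 0) .nil) .nil))) 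
(.lf (nat_lit 462420) (.g (nat_lit 1382) (.e (nat_lit 3016) (nat_lit 187) (.e (nat_lit 458496) (nat_lit 0) (.e (nat_lit 5195) (nat_lit 294) (.e (nat_lit 57427) (nat_lit 15) (.e (nat_lit 360480) (nat_lit 14) (.e (nat_lit 638986) (nat_lit 5) .nil)))))) (.g (nat_lit 1) (.e (nat_lit 63872) (nat_lit 0) .nil) .nil)))) (.nd (nat_lit 9) 
(.lf (nat_lit 462164) (.g (nat_lit 3242) (.e (nat_lit 2965) (nat_lit 185) (.e (nat_lit 434231) (nat_lit 23) (.e (nat_lit 532549) (nat_lit 12) (.e (nat_lit 360473) (nat_lit 8) (.e (nat_lit 557093) (nat_lit 12) .nil))))) (.g (nat_lit 0) (.e (nat_lit 60330) (nat_lit 0) .nil) .nil))) 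
(.lf (nat_lit 462676) (.g (nat_lit 1084) (.e (nat_lit 3062) (nat_lit 190) (.e (nat_lit 475185) (nat_lit 29) (.e (nat_lit 557097) (nat_lit 13) .nil))) (.g (nat_lit 0) (.e (nat_lit 67300) (nat_lit 0) .nil) .nil))))) (.nd (nat_lit 8) (.nd (nat_lit 9) 
(.lf (nat_lit 462036) (.g (nat_lit 2866) (.e (nat_lit 2941) (nat_lit 184) (.e (nat_lit 426401) (nat_lit 15) (.e (nat_lit 1849) (nat_lit 124) (.e (nat_lit 557109) (nat_lit 15) (.e (nat_lit 188449) (nat_lit 22) (.e (nat_lit 196661) (nat_lit 12) (.e (nat_lit 57749) (nat_lit 201) .nil))))))) (.g (nat_lit 1) (.e (nat_lit 59277) (nat_lit 0) .nil) .nil))) 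
(.lf (nat_lit 462548) (.g (nat_lit 2545) (.e (nat_lit 3044) (nat_lit 189) (.e (nat_lit 466974) (nat_lit 22) (.e (nat_lit 196681) (nat_lit 17) (.e (nat_lit 131089) (nat_lit 1) (.e (nat_lit 57930) (nat_lit 282) (.e (nat_lit 163843) (nat_lit 0) (.e (nat_lit 7936) (nat_lit 200) (.e (nat_lit 557065) (nat_lit 9) .nil)))))))) (.g (nat_lit 1) (.e (nat_lit 66803) (nat_lit 0) .nil) .nil)))) 
(.nd (nat_lit 9) 
(.lf (nat_lit 462292) (.g (nat_lit 2006) (.e (nat_lit 2988) (nat_lit 186) (.e (nat_lit 442390) (nat_lit 11) (.e (nat_lit 336230) (nat_lit 14) (.e (nat_lit 401448) (nat_lit 10) (.e (nat_lit 434287) (nat_lit 43) (.e (nat_lit 696330) (nat_lit 5) .nil)))))) (.g (nat_lit 1) (.e (nat_lit 61344) (nat_lit 0) .nil) .nil))) 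
(.lf (nat_lit 462804) (.g (nat_lit 1000) (.e (nat_lit 3062) (nat_lit 190) (.e (nat_lit 475185) (nat_lit 29) (.e (nat_lit 557105) (nat_lit 14) .nil))) (.g (nat_lit 0) (.e (nat_lit 67428) (nat_lit 0) .nil) .nil))))))) (.nd (nat_lit 6) (.nd (nat_lit 7) (.nd (nat_lit 8) (.nd (nat_lit 9) 
(.lf (nat_lit 461876) (.g (nat_lit 2196) (.e (nat_lit 2950) (nat_lit 184) (.e (nat_lit 426107) (nat_lit 1) (.e (nat_lit 164347) (nat_lit 240) (.e (nat_lit 2610) (nat_lit 163) (.e (nat_lit 163977) (nat_lit 30) .nil))))) (.g (nat_lit 0) (.e (nat_lit 58929) (nat_lit 0) .nil) .nil))) 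
(.lf (nat_lit 462388) (.g (nat_lit 1340) (.e (nat_lit 3015) (nat_lit 187) (.e (nat_lit 450560) (nat_lit 0) (.e (nat_lit 5206) (nat_lit 294) (.e (nat_lit 57427) (nat_lit 15) (.e (nat_lit 360480) (nat_lit 14) (.e (nat_lit 638986) (nat_lit 5) .nil)))))) (.g (nat_lit 1) (.e (nat_lit 62850) (nat_lit 0) .nil) .nil)))) (.nd (nat_lit 9) 
(.lf (nat_lit 462132) (.g (nat_lit 1956) (.e (nat_lit 2964) (nat_lit 185) (.e (nat_lit 434231) (nat_lit 23) (.e (nat_lit 532549) (nat_lit 12) (.e (nat_lit 360473) (nat_lit 8) (.e (nat_lit 557091) (nat_lit 12) (.e (nat_lit 164018) (nat_lit 45) (.e (nat_lit 696326) (nat_lit 5) .nil))))))) (.g (nat_lit 1) (.e (nat_lit 60152) (nat_lit 0) .nil) .nil))) 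
(.lf (nat_lit 462644) (.g (nat_lit 6171) (.e (nat_lit 3062) (nat_lit 190) (.e (nat_lit 475179) (nat_lit 24) (.e (nat_lit 516151) (nat_lit 9) (.e (nat_lit 426211) (nat_lit 9) (.e (nat_lit 426569) (nat_lit 35) (.e (nat_lit 401413) (nat_lit 0) (.e (nat_lit 3459) (nat_lit 216) (.e (nat_lit 688139) (nat_lit 5) .nil)))))))) (.g (nat_lit 1) (.e (nat_lit 67187) (nat_lit 0) .nil) .nil))))) 
(.nd (nat_lit 8) (.nd (nat_lit 9) 
(.lf (nat_lit 462004) (.g (nat_lit 3070) (.e (nat_lit 2939) (nat_lit 184) (.e (nat_lit 426503) (nat_lit 27) (.e (nat_lit 336229) (nat_lit 14) (.e (nat_lit 401438) (nat_lit 9) (.e (nat_lit 426533) (nat_lit 28) (.e (nat_lit 344066) (nat_lit 0) .nil)))))) (.g (nat_lit 1) (.e (nat_lit 59241) (nat_lit 0) .nil) .nil))) 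
(.lf (nat_lit 462516) (.g (nat_lit 2263) (.e (nat_lit 3027) (nat_lit 187) (.e (nat_lit 450564) (nat_lit 0) (.e (nat_lit 5190) (nat_lit 294) (.e (nat_lit 57412) (nat_lit 12) (.e (nat_lit 336176) (nat_lit 10) (.e (nat_lit 344157) (nat_lit 36) (.e (nat_lit 638985) (nat_lit 5) .nil))))))) (.g (nat_lit 1) (.e (nat_lit 65762) (nat_lit 0) .nil) .nil)))) (.nd (nat_lit 9) 
(.lf (nat_lit 462260) (.g (nat_lit 4282) (.e (nat_lit 2981) (nat_lit 185) (.e (nat_lit 434231) (nat_lit 23) (.e (nat_lit 532550) (nat_lit 12) (.e (nat_lit 360474) (nat_lit 8) (.e (nat_lit 557088) (nat_lit 12) .nil))))) (.g (nat_lit 0) (.e (nat_lit 61032) (nat_lit 0) .nil) .nil))) 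
(.lf (nat_lit 462772) (.g (nat_lit 2660) (.e (nat_lit 3062) (nat_lit 190) (.e (nat_lit 475185) (nat_lit 29) (.e (nat_lit 557101) (nat_lit 13) (.e (nat_lit 172115) (nat_lit 10) (.e (nat_lit 434227) (nat_lit 20) (.e (nat_lit 507929) (nat_lit 10) (.e (nat_lit 5656) (nat_lit 312) .nil))))))) (.g (nat_lit 1) (.e (nat_lit 67396) (nat_lit 0) .nil) .nil)))))) 
(.nd (nat_lit 7) (.nd (nat_lit 8) (.nd (nat_lit 9) 
(.lf (nat_lit 461940) (.g (nat_lit 3457) (.e (nat_lit 2936) (nat_lit 184) (.e (nat_lit 426353) (nat_lit 15) (.e (nat_lit 1860) (nat_lit 124) (.e (nat_lit 557101) (nat_lit 13) (.e (nat_lit 172097) (nat_lit 9) (.e (nat_lit 426125) (nat_lit 2) (.e (nat_lit 196661) (nat_lit 12) (.e (nat_lit 57748) (nat_lit 201) .nil)))))))) (.g (nat_lit 1) (.e (nat_lit 59139) (nat_lit 0) .nil) .nil))) 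
(.lf (nat_lit 462452) (.g (nat_lit 1872) (.e (nat_lit 3021) (nat_lit 187) (.e (nat_lit 450579) (nat_lit 5) (.e (nat_lit 532563) (nat_lit 15) (.e (nat_lit 385092) (nat_lit 49) (.e (nat_lit 778317) (nat_lit 3) .nil))))) (.g (nat_lit 0) (.e (nat_lit 64389) (nat_lit 0) .nil) .nil)))) (.nd (nat_lit 9) 
(.lf (nat_lit 462196) (.g (nat_lit 2428) (.e (nat_lit 2975) (nat_lit 185) (.e (nat_lit 434231) (nat_lit 23) (.e (nat_lit 532549) (nat_lit 12) (.e (nat_lit 360473) (nat_lit 8) .nil)))) (.g (nat_lit 0) (.e (nat_lit 60513) (nat_lit 0) .nil) .nil))) 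
(.lf (nat_lit 462708) (.g (nat_lit 3202) (.e (nat_lit 3062) (nat_lit 190) (.e (nat_lit 475185) (nat_lit 29) (.e (nat_lit 557100) (nat_lit 13) (.e (nat_lit 172106) (nat_lit 10) (.e (nat_lit 434227) (nat_lit 20) (.e (nat_lit 507930) (nat_lit 10) (.e (nat_lit 5671) (nat_lit 312) .nil))))))) (.g (nat_lit 1) (.e (nat_lit 67332) (nat_lit 0) .nil) .nil))))) (.nd (nat_lit 8) (.nd (nat_lit 9) 
(.lf (nat_lit 462068) (.g (nat_lit 3304) (.e (nat_lit 2949) (nat_lit 184) (.e (nat_lit 426139) (nat_lit 3) (.e (nat_lit 204869) (nat_lit 29) (.e (nat_lit 360474) (nat_lit 8) (.e (nat_lit 557091) (nat_lit 12) .nil))))) (.g (nat_lit 0) (.e (nat_lit 59353) (nat_lit 0) .nil) .nil))) 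
(.lf (nat_lit 462580) (.g (nat_lit 2095) (.e (nat_lit 3055) (nat_lit 190) (.e (nat_lit 475185) (nat_lit 29) (.e (nat_lit 557101) (nat_lit 13) (.e (nat_lit 172097) (nat_lit 9) (.e (nat_lit 426125) (nat_lit 2) (.e (nat_lit 196661) (nat_lit 12) (.e (nat_lit 57750) (nat_lit 201) .nil))))))) (.g (nat_lit 1) (.e (nat_lit 66987) (nat_lit 0) .nil) .nil)))) (.nd (nat_lit 9) 
(.lf (nat_lit 462324) (.g (nat_lit 2549) (.e (nat_lit 3004) (nat_lit 186) (.e (nat_lit 442374) (nat_lit 0) (.e (nat_lit 2059) (nat_lit 142) (.e (nat_lit 704598) (nat_lit 6) (.e (nat_lit 188434) (nat_lit 20) (.e (nat_lit 3408) (nat_lit 212) (.e (nat_lit 655363) (nat_lit 0) .nil))))))) (.g (nat_lit 1) (.e (nat_lit 62030) (nat_lit 0) .nil) .nil))) 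
(.lf (nat_lit 462836) (.g (nat_lit 3364) (.e (nat_lit 3062) (nat_lit 190) (.e (nat_lit 475185) (nat_lit 29) (.e (nat_lit 557109) (nat_lit 15) (.e (nat_lit 188452) (nat_lit 23) (.e (nat_lit 204817) (nat_lit 17) (.e (nat_lit 7936) (nat_lit 357) .nil)))))) (.g (nat_lit 1) (.e (nat_lit 67463) (nat_lit 0) .nil) .nil))))))))) 
(.nd (nat_lit 4) (.nd (nat_lit 5) (.nd (nat_lit 6) (.nd (nat_lit 7) (.nd (nat_lit 8) 
(.nd (nat_lit 9) 
(.lf (nat_lit 461836) (.g (nat_lit 3791) (.e (nat_lit 2885) (nat_lit 184) (.e (nat_lit 426125) (nat_lit 2) (.e (nat_lit 196666) (nat_lit 13) (.e (nat_lit 65617) (nat_lit 10) (.e (nat_lit 344127) (nat_lit 26) .nil))))) (.g (nat_lit 0) (.e (nat_lit 58811) (nat_lit 0) .nil) .nil))) 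
(.lf (nat_lit 462348) (.g (nat_lit 3020) (.e (nat_lit 3004) (nat_lit 186) (.e (nat_lit 442390) (nat_lit 11) (.e (nat_lit 336231) (nat_lit 14) (.e (nat_lit 401446) (nat_lit 10) (.e (nat_lit 434289) (nat_lit 43) (.e (nat_lit 696330) (nat_lit 5) .nil)))))) (.g (nat_lit 1) (.e (nat_lit 62112) (nat_lit 0) .nil) .nil)))) (.nd (nat_lit 9) 
(.lf (nat_lit 462092) (.g (nat_lit 3325) (.e (nat_lit 2946) (nat_lit 184) (.e (nat_lit 426306) (nat_lit 12) (.e (nat_lit 475207) (nat_lit 41) (.e (nat_lit 712755) (nat_lit 30) (.e (nat_lit 450593) (nat_lit 16) (.e (nat_lit 655367) (nat_lit 0) .nil)))))) (.g (nat_lit 1) (.e (nat_lit 59483) (nat_lit 0) .nil) .nil))) 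
(.lf (nat_lit 462604) (.g (nat_lit 3675) (.e (nat_lit 3059) (nat_lit 190) (.e (nat_lit 475185) (nat_lit 29) (.e (nat_lit 557101) (nat_lit 13) (.e (nat_lit 172115) (nat_lit 10) (.e (nat_lit 434231) (nat_lit 23) (.e (nat_lit 532490) (nat_lit 0) (.e (nat_lit 7936) (nat_lit 357) .nil))))))) (.g (nat_lit 1) (.e (nat_lit 67061) (nat_lit 0) .nil) .nil))))) (.nd (nat_lit 8) (.nd (nat_lit 9) 
(.lf (nat_lit 461964) (.g (nat_lit 1960) (.e (nat_lit 2936) (nat_lit 184) (.e (nat_lit 426503) (nat_lit 27) (.e (nat_lit 336231) (nat_lit 14) (.e (nat_lit 401458) (nat_lit 13) (.e (nat_lit 483350) (nat_lit 17) .nil))))) (.g (nat_lit 0) (.e (nat_lit 59168) (nat_lit 0) .nil) .nil))) 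
(.lf (nat_lit 462476) (.g (nat_lit 4203) (.e (nat_lit 3022) (nat_lit 187) (.e (nat_lit 450580) (nat_lit 5) (.e (nat_lit 532522) (nat_lit 7) (.e (nat_lit 319531) (nat_lit 16) (.e (nat_lit 286733) (nat_lit 2) (.e (nat_lit 90134) (nat_lit 9) .nil)))))) (.g (nat_lit 1) (.e (nat_lit 64836) (nat_lit 0) .nil) .nil)))) (.nd (nat_lit 9) 
(.lf (nat_lit 462220) (.g (nat_lit 2086) (.e (nat_lit 2980) (nat_lit 185) (.e (nat_lit 434231) (nat_lit 23) (.e (nat_lit 532523) (nat_lit 7) (.e (nat_lit 319531) (nat_lit 16) .nil)))) (.g (nat_lit 0) (.e (nat_lit 60835) (nat_lit 0) .nil) .nil))) 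
(.lf (nat_lit 462732) (.g (nat_lit 3178) (.e (nat_lit 3062) (nat_lit 190) (.e (nat_lit 475185) (nat_lit 29) (.e (nat_lit 557100) (nat_lit 13) (.e (nat_lit 172106) (nat_lit 10) (.e (nat_lit 434231) (nat_lit 23) (.e (nat_lit 532500) (nat_lit 1) (.e (nat_lit 57762) (nat_lit 215) (.e (nat_lit 2508) (nat_lit 157) .nil)))))))) (.g (nat_lit 1) (.e (nat_lit 67356) (nat_lit 0) .nil) .nil)))))) 
(.nd (nat_lit 7) (.nd (nat_lit 8) (.nd (nat_lit 9) 
(.lf (nat_lit 461900) (.g (nat_lit 830) (.e (nat_lit 2936) (nat_lit 184) (.e (nat_lit 426163) (nat_lit 6) (.e (nat_lit 253963) (nat_lit 9) (.e (nat_lit 416) (nat_lit 32) .nil)))) (.g (nat_lit 0) (.e (nat_lit 59050) (nat_lit 0) .nil) .nil))) 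
(.lf (nat_lit 462412) (.g (nat_lit 1882) (.e (nat_lit 3017) (nat_lit 187) (.e (nat_lit 450587) (nat_lit 10) (.e (nat_lit 573477) (nat_lit 12) (.e (nat_lit 57574) (nat_lit 55) (.e (nat_lit 778359) (nat_lit 9) .nil))))) (.g (nat_lit 0) (.e (nat_lit 63504) (nat_lit 0) .nil) .nil)))) (.nd (nat_lit 9) 
(.lf (nat_lit 462156) (.g (nat_lit 2253) (.e (nat_lit 2964) (nat_lit 185) (.e (nat_lit 434231) (nat_lit 23) (.e (nat_lit 540416) (nat_lit 12) (.e (nat_lit 360475) (nat_lit 8) (.e (nat_lit 557090) (nat_lit 12) (.e (nat_lit 164020) (nat_lit 45) (.e (nat_lit 696329) (nat_lit 5) .nil))))))) (.g (nat_lit 1) (.e (nat_lit 60214) (nat_lit 0) .nil) .nil))) 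
(.lf (nat_lit 462668) (.g (nat_lit 2131) (.e (nat_lit 3062) (nat_lit 190) (.e (nat_lit 475179) (nat_lit 24) (.e (nat_lit 516176) (nat_lit 14) (.e (nat_lit 466954) (nat_lit 11) (.e (nat_lit 335988) (nat_lit 1) (.e (nat_lit 57665) (nat_lit 152) (.e (nat_lit 7936) (nat_lit 157) .nil))))))) (.g (nat_lit 1) (.e (nat_lit 67288) (nat_lit 0) .nil) .nil))))) (.nd (nat_lit 8) (.nd (nat_lit 9) 
(.lf (nat_lit 462028) (.g (nat_lit 1160) (.e (nat_lit 2940) (nat_lit 184) (.e (nat_lit 426532) (nat_lit 28) (.e (nat_lit 344068) (nat_lit 0) (.e (nat_lit 2855) (nat_lit 184) (.e (nat_lit 426533) (nat_lit 28) (.e (nat_lit 344066) (nat_lit 0) .nil)))))) (.g (nat_lit 1) (.e (nat_lit 59269) (nat_lit 0) .nil) .nil))) 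
(.lf (nat_lit 462540) (.g (nat_lit 1081) (.e (nat_lit 3035) (nat_lit 188) (.e (nat_lit 458789) (nat_lit 23) (.e (nat_lit 540416) (nat_lit 12) .nil))) (.g (nat_lit 0) (.e (nat_lit 66718) (nat_lit 0) .nil) .nil)))) (.nd (nat_lit 9) 
(.lf (nat_lit 462284) (.g (nat_lit 1123) (.e (nat_lit 2988) (nat_lit 186) (.e (nat_lit 442374) (nat_lit 0) (.e (nat_lit 2059) (nat_lit 142) (.e (nat_lit 704599) (nat_lit 6) .nil)))) (.g (nat_lit 0) (.e (nat_lit 61302) (nat_lit 0) .nil) .nil))) 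
(.lf (nat_lit 462796) (.g (nat_lit 3525) (.e (nat_lit 3062) (nat_lit 190) (.e (nat_lit 475185) (nat_lit 29) (.e (nat_lit 557101) (nat_lit 13) (.e (nat_lit 172115) (nat_lit 10) (.e (nat_lit 434231) (nat_lit 23) (.e (nat_lit 532482) (nat_lit 0) (.e (nat_lit 6668) (nat_lit 357) .nil))))))) (.g (nat_lit 1) (.e (nat_lit 67420) (nat_lit 0) .nil) .nil))))))) 
(.nd (nat_lit 6) (.nd (nat_lit 7) (.nd (nat_lit 8) (.nd (nat_lit 9) 
(.lf (nat_lit 461868) (.g (nat_lit 692) (.e (nat_lit 2911) (nat_lit 184) (.e (nat_lit 426198) (nat_lit 9) (.e (nat_lit 426436) (nat_lit 18) .nil))) (.g (nat_lit 0) (.e (nat_lit 58877) (nat_lit 0) .nil) .nil))) 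
(.lf (nat_lit 462380) (.g (nat_lit 379) (.e (nat_lit 3012) (nat_lit 187) (.e (nat_lit 450605) (nat_lit 27) (.e (nat_lit 745475) (nat_lit 0) (.e (nat_lit 1592) (nat_lit 111) (.e (nat_lit 368384) (nat_lit 10) (.e (nat_lit 573445) (nat_lit 0) .nil)))))) (.g (nat_lit 1) (.e (nat_lit 62838) (nat_lit 0) .nil) .nil)))) (.nd (nat_lit 9) 
(.lf (nat_lit 462124) (.g (nat_lit 2481) (.e (nat_lit 2961) (nat_lit 185) (.e (nat_lit 434231) (nat_lit 23) (.e (nat_lit 532550) (nat_lit 12) (.e (nat_lit 360475) (nat_lit 8) (.e (nat_lit 557089) (nat_lit 12) .nil))))) (.g (nat_lit 0) (.e (nat_lit 59992) (nat_lit 0) .nil) .nil))) 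
(.lf (nat_lit 462636) (.g (nat_lit 3597) (.e (nat_lit 3062) (nat_lit 190) (.e (nat_lit 475179) (nat_lit 24) (.e (nat_lit 516139) (nat_lit 7) (.e (nat_lit 409602) (nat_lit 0) (.e (nat_lit 5383) (nat_lit 300) (.e (nat_lit 16396) (nat_lit 0) (.e (nat_lit 3459) (nat_lit 216) (.e (nat_lit 688139) (nat_lit 5) .nil)))))))) (.g (nat_lit 1) (.e (nat_lit 67133) (nat_lit 0) .nil) .nil))))) 
(.nd (nat_lit 8) (.nd (nat_lit 9) 
(.lf (nat_lit 461996) (.g (nat_lit 3751) (.e (nat_lit 2939) (nat_lit 184) (.e (nat_lit 426401) (nat_lit 15) (.e (nat_lit 1858) (nat_lit 124) (.e (nat_lit 557101) (nat_lit 13) (.e (nat_lit 172097) (nat_lit 9) (.e (nat_lit 426125) (nat_lit 2) (.e (nat_lit 196661) (nat_lit 12) (.e (nat_lit 57748) (nat_lit 201) .nil)))))))) (.g (nat_lit 1) (.e (nat_lit 59229) (nat_lit 0) .nil) .nil))) 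
(.lf (nat_lit 462508) (.g (nat_lit 865) (.e (nat_lit 3025) (nat_lit 187) (.e (nat_lit 450588) (nat_lit 10) (.e (nat_lit 573473) (nat_lit 12) .nil))) (.g (nat_lit 0) (.e (nat_lit 65306) (nat_lit 0) .nil) .nil)))) (.nd (nat_lit 9) 
(.lf (nat_lit 462252) (.g (nat_lit 3242) (.e (nat_lit 2981) (nat_lit 185) (.e (nat_lit 434231) (nat_lit 23) (.e (nat_lit 532549) (nat_lit 12) (.e (nat_lit 360473) (nat_lit 8) (.e (nat_lit 557093) (nat_lit 12) .nil))))) (.g (nat_lit 0) (.e (nat_lit 61024) (nat_lit 0) .nil) .nil))) 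
(.lf (nat_lit 462764) (.g (nat_lit 2195) (.e (nat_lit 3062) (nat_lit 190) (.e (nat_lit 475185) (nat_lit 29) (.e (nat_lit 557101) (nat_lit 13) (.e (nat_lit 172115) (nat_lit 10) (.e (nat_lit 434227) (nat_lit 20) (.e (nat_lit 507926) (nat_lit 10) (.e (nat_lit 5667) (nat_lit 312) .nil))))))) (.g (nat_lit 1) (.e (nat_lit 67388) (nat_lit 0) .nil) .nil)))))) 
(.nd (nat_lit 7) (.nd (nat_lit 8) (.nd (nat_lit 9) 
(.lf (nat_lit 461932) (.g (nat_lit 1420) (.e (nat_lit 2936) (nat_lit 184) (.e (nat_lit 426163) (nat_lit 6) (.e (nat_lit 253992) (nat_lit 11) (.e (nat_lit 16434) (nat_lit 9) .nil)))) (.g (nat_lit 0) (.e (nat_lit 59109) (nat_lit 0) .nil) .nil))) 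
(.lf (nat_lit 462444) (.g (nat_lit 900) (.e (nat_lit 3020) (nat_lit 187) (.e (nat_lit 450584) (nat_lit 9) (.e (nat_lit 565268) (nat_lit 5) (.e (nat_lit 73789) (nat_lit 45) (.e (nat_lit 1160) (nat_lit 86) .nil))))) (.g (nat_lit 0) (.e (nat_lit 64335) (nat_lit 0) .nil) .nil)))) (.nd (nat_lit 9) 
(.lf (nat_lit 462188) (.g (nat_lit 4372) (.e (nat_lit 2974) (nat_lit 185) (.e (nat_lit 434231) (nat_lit 23) (.e (nat_lit 532550) (nat_lit 12) (.e (nat_lit 360474) (nat_lit 8) (.e (nat_lit 557088) (nat_lit 12) .nil))))) (.g (nat_lit 0) (.e (nat_lit 60450) (nat_lit 0) .nil) .nil))) 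
(.lf (nat_lit 462700) (.g (nat_lit 2521) (.e (nat_lit 3062) (nat_lit 190) (.e (nat_lit 475185) (nat_lit 29) (.e (nat_lit 557100) (nat_lit 13) (.e (nat_lit 172106) (nat_lit 10) (.e (nat_lit 434227) (nat_lit 20) (.e (nat_lit 507929) (nat_lit 10) (.e (nat_lit 5665) (nat_lit 312) .nil))))))) (.g (nat_lit 1) (.e (nat_lit 67324) (nat_lit 0) .nil) .nil))))) (.nd (nat_lit 8) (.nd (nat_lit 9) 
(.lf (nat_lit 462060) (.g (nat_lit 3497) (.e (nat_lit 2945) (nat_lit 184) (.e (nat_lit 426316) (nat_lit 12) (.e (nat_lit 475185) (nat_lit 29) (.e (nat_lit 557096) (nat_lit 13) (.e (nat_lit 172126) (nat_lit 14) (.e (nat_lit 491537) (nat_lit 2) (.e (nat_lit 90133) (nat_lit 9) .nil))))))) (.g (nat_lit 1) (.e (nat_lit 59324) (nat_lit 0) .nil) .nil))) 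
(.lf (nat_lit 462572) (.g (nat_lit 1997) (.e (nat_lit 3054) (nat_lit 189) (.e (nat_lit 466977) (nat_lit 22) (.e (nat_lit 196681) (nat_lit 17) (.e (nat_lit 131089) (nat_lit 1) .nil)))) (.g (nat_lit 0) (.e (nat_lit 66970) (nat_lit 0) .nil) .nil)))) (.nd (nat_lit 9) 
(.lf (nat_lit 462316) (.g (nat_lit 3367) (.e (nat_lit 3004) (nat_lit 186) (.e (nat_lit 442374) (nat_lit 0) (.e (nat_lit 1856) (nat_lit 124) (.e (nat_lit 557098) (nat_lit 13) (.e (nat_lit 172115) (nat_lit 10) (.e (nat_lit 434238) (nat_lit 25) (.e (nat_lit 548896) (nat_lit 14) .nil))))))) (.g (nat_lit 1) (.e (nat_lit 62021) (nat_lit 0) .nil) .nil))) 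
(.lf (nat_lit 462828) (.g (nat_lit 3744) (.e (nat_lit 3062) (nat_lit 190) (.e (nat_lit 475185) (nat_lit 29) (.e (nat_lit 557109) (nat_lit 15) (.e (nat_lit 188450) (nat_lit 23) (.e (nat_lit 204819) (nat_lit 17) (.e (nat_lit 6664) (nat_lit 357) .nil)))))) (.g (nat_lit 1) (.e (nat_lit 67455) (nat_lit 0) .nil) .nil)))))))) 
(.nd (nat_lit 5) (.nd (nat_lit 6) (.nd (nat_lit 7) (.nd (nat_lit 8) (.nd (nat_lit 9) 
(.lf (nat_lit 461852) (.g (nat_lit 67) (.e (nat_lit 2900) (nat_lit 184) (.e (nat_lit 426554) (nat_lit 32) (.e (nat_lit 384768) (nat_lit 4) .nil))) (.g (nat_lit 0) (.e (nat_lit 58845) (nat_lit 0) .nil) .nil))) 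
(.lf (nat_lit 462364) (.g (nat_lit 4390) (.e (nat_lit 3009) (nat_lit 187) (.e (nat_lit 450580) (nat_lit 5) (.e (nat_lit 532523) (nat_lit 7) (.e (nat_lit 319531) (nat_lit 16) (.e (nat_lit 286733) (nat_lit 2) (.e (nat_lit 90134) (nat_lit 9) .nil)))))) (.g (nat_lit 1) (.e (nat_lit 62181) (nat_lit 0) .nil) .nil)))) (.nd (nat_lit 9) 
(.lf (nat_lit 462108) (.g (nat_lit 2376) (.e (nat_lit 2958) (nat_lit 185) (.e (nat_lit 434231) (nat_lit 23) (.e (nat_lit 532550) (nat_lit 12) (.e (nat_lit 360475) (nat_lit 8) (.e (nat_lit 557089) (nat_lit 12) .nil))))) (.g (nat_lit 0) (.e (nat_lit 59680) (nat_lit 0) .nil) .nil))) 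
(.lf (nat_lit 462620) (.g (nat_lit 2564) (.e (nat_lit 3062) (nat_lit 190) (.e (nat_lit 483072) (nat_lit 26) (.e (nat_lit 532544) (nat_lit 10) (.e (nat_lit 344130) (nat_lit 26) (.e (nat_lit 557104) (nat_lit 14) (.e (nat_lit 180252) (nat_lit 10) (.e (nat_lit 581376) (nat_lit 0) .nil))))))) (.g (nat_lit 1) (.e (nat_lit 67106) (nat_lit 0) .nil) .nil))))) (.nd (nat_lit 8) (.nd (nat_lit 9) 
(.lf (nat_lit 461980) (.g (nat_lit 324) (.e (nat_lit 2939) (nat_lit 184) (.e (nat_lit 426163) (nat_lit 6) (.e (nat_lit 253991) (nat_lit 11) .nil))) (.g (nat_lit 0) (.e (nat_lit 59204) (nat_lit 0) .nil) .nil))) 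
(.lf (nat_lit 462492) (.g (nat_lit 1494) (.e (nat_lit 3022) (nat_lit 187) (.e (nat_lit 450584) (nat_lit 9) (.e (nat_lit 573184) (nat_lit 6) (.e (nat_lit 81938) (nat_lit 20) (.e (nat_lit 2390) (nat_lit 156) (.e (nat_lit 819203) (nat_lit 0) .nil)))))) (.g (nat_lit 1) (.e (nat_lit 65146) (nat_lit 0) .nil) .nil)))) (.nd (nat_lit 9) 
(.lf (nat_lit 462236) (.g (nat_lit 3574) (.e (nat_lit 2980) (nat_lit 185) (.e (nat_lit 434231) (nat_lit 23) (.e (nat_lit 532550) (nat_lit 12) (.e (nat_lit 360474) (nat_lit 8) (.e (nat_lit 557088) (nat_lit 12) (.e (nat_lit 164018) (nat_lit 45) (.e (nat_lit 696328) (nat_lit 5) .nil))))))) (.g (nat_lit 1) (.e (nat_lit 60926) (nat_lit 0) .nil) .nil))) 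
(.lf (nat_lit 462748) (.g (nat_lit 3050) (.e (nat_lit 3062) (nat_lit 190) (.e (nat_lit 475185) (nat_lit 29) (.e (nat_lit 557100) (nat_lit 13) (.e (nat_lit 172113) (nat_lit 10) (.e (nat_lit 434248) (nat_lit 28) (.e (nat_lit 573473) (nat_lit 12) (.e (nat_lit 57567) (nat_lit 52) (.e (nat_lit 753680) (nat_lit 5) .nil)))))))) (.g (nat_lit 1) (.e (nat_lit 67372) (nat_lit 0) .nil) .nil)))))) 
(.nd (nat_lit 7) (.nd (nat_lit 8) (.nd (nat_lit 9) 
(.lf (nat_lit 461916) (.g (nat_lit 2264) (.e (nat_lit 2936) (nat_lit 184) (.e (nat_lit 426163) (nat_lit 6) (.e (nat_lit 253991) (nat_lit 11) (.e (nat_lit 16437) (nat_lit 9) (.e (nat_lit 426533) (nat_lit 28) (.e (nat_lit 344067) (nat_lit 0) .nil)))))) (.g (nat_lit 1) (.e (nat_lit 59085) (nat_lit 0) .nil) .nil))) 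
(.lf (nat_lit 462428) (.g (nat_lit 3714) (.e (nat_lit 3016) (nat_lit 187) (.e (nat_lit 450586) (nat_lit 10) (.e (nat_lit 573474) (nat_lit 12) (.e (nat_lit 57574) (nat_lit 55) .nil)))) (.g (nat_lit 0) (.e (nat_lit 64019) (nat_lit 0) .nil) .nil)))) (.nd (nat_lit 9) 
(.lf (nat_lit 462172) (.g (nat_lit 4664) (.e (nat_lit 2965) (nat_lit 185) (.e (nat_lit 434231) (nat_lit 23) (.e (nat_lit 532550) (nat_lit 12) (.e (nat_lit 360474) (nat_lit 8) (.e (nat_lit 557091) (nat_lit 12) .nil))))) (.g (nat_lit 0) (.e (nat_lit 60338) (nat_lit 0) .nil) .nil))) 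
(.lf (nat_lit 462684) (.g (nat_lit 2380) (.e (nat_lit 3062) (nat_lit 190) (.e (nat_lit 475185) (nat_lit 29) (.e (nat_lit 557100) (nat_lit 13) (.e (nat_lit 172097) (nat_lit 9) .nil)))) (.g (nat_lit 0) (.e (nat_lit 67308) (nat_lit 0) .nil) .nil))))) (.nd (nat_lit 8) (.nd (nat_lit 9) 
(.lf (nat_lit 462044) (.g (nat_lit 1549) (.e (nat_lit 2941) (nat_lit 184) (.e (nat_lit 426532) (nat_lit 28) (.e (nat_lit 344068) (nat_lit 0) (.e (nat_lit 2857) (nat_lit 184) (.e (nat_lit 426533) (nat_lit 28) (.e (nat_lit 344067) (nat_lit 0) .nil)))))) (.g (nat_lit 1) (.e (nat_lit 59286) (nat_lit 0) .nil) .nil))) 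
(.lf (nat_lit 462556) (.g (nat_lit 1949) (.e (nat_lit 3044) (nat_lit 189) (.e (nat_lit 466977) (nat_lit 22) (.e (nat_lit 196681) (nat_lit 17) (.e (nat_lit 131077) (nat_lit 0) .nil)))) (.g (nat_lit 0) (.e (nat_lit 66831) (nat_lit 0) .nil) .nil)))) (.nd (nat_lit 9) 
(.lf (nat_lit 462300) (.g (nat_lit 1254) (.e (nat_lit 2988) (nat_lit 186) (.e (nat_lit 442421) (nat_lit 21) (.e (nat_lit 164319) (nat_lit 228) (.e (nat_lit 57412) (nat_lit 12) .nil)))) (.g (nat_lit 0) (.e (nat_lit 61361) (nat_lit 0) .nil) .nil))) 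
(.lf (nat_lit 462812) (.g (nat_lit 3554) (.e (nat_lit 3062) (nat_lit 190) (.e (nat_lit 475185) (nat_lit 29) (.e (nat_lit 557107) (nat_lit 15) (.e (nat_lit 188452) (nat_lit 23) (.e (nat_lit 204816) (nat_lit 17) .nil))))) (.g (nat_lit 0) (.e (nat_lit 67439) (nat_lit 0) .nil) .nil))))))) (.nd (nat_lit 6) (.nd (nat_lit 7) (.nd (nat_lit 8) (.nd (nat_lit 9) 
(.lf (nat_lit 461884) (.g (nat_lit 2765) (.e (nat_lit 2928) (nat_lit 184) (.e (nat_lit 426316) (nat_lit 12) (.e (nat_lit 475185) (nat_lit 29) (.e (nat_lit 557107) (nat_lit 15) (.e (nat_lit 188418) (nat_lit 0) (.e (nat_lit 1856) (nat_lit 124) (.e (nat_lit 557072) (nat_lit 9) .nil))))))) (.g (nat_lit 1) (.e (nat_lit 58973) (nat_lit 0) .nil) .nil))) 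
(.lf (nat_lit 462396) (.g (nat_lit 1508) (.e (nat_lit 3015) (nat_lit 187) (.e (nat_lit 458496) (nat_lit 0) (.e (nat_lit 5195) (nat_lit 294) (.e (nat_lit 57426) (nat_lit 15) (.e (nat_lit 360480) (nat_lit 14) (.e (nat_lit 638986) (nat_lit 5) .nil)))))) (.g (nat_lit 1) (.e (nat_lit 63006) (nat_lit 0) .nil) .nil)))) (.nd (nat_lit 9) 
(.lf (nat_lit 462140) (.g (nat_lit 2467) (.e (nat_lit 2964) (nat_lit 185) (.e (nat_lit 434231) (nat_lit 23) (.e (nat_lit 532549) (nat_lit 12) (.e (nat_lit 360474) (nat_lit 8) (.e (nat_lit 557093) (nat_lit 12) .nil))))) (.g (nat_lit 0) (.e (nat_lit 60169) (nat_lit 0) .nil) .nil))) 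
(.lf (nat_lit 462652) (.g (nat_lit 3461) (.e (nat_lit 3062) (nat_lit 190) (.e (nat_lit 475179) (nat_lit 24) (.e (nat_lit 516163) (nat_lit 11) (.e (nat_lit 442391) (nat_lit 19) (.e (nat_lit 401413) (nat_lit 0) (.e (nat_lit 3459) (nat_lit 216) (.e (nat_lit 688139) (nat_lit 5) .nil))))))) (.g (nat_lit 1) (.e (nat_lit 67245) (nat_lit 0) .nil) .nil))))) (.nd (nat_lit 8) (.nd (nat_lit 9) 
(.lf (nat_lit 462012) (.g (nat_lit 1326) (.e (nat_lit 2939) (nat_lit 184) (.e (nat_lit 426532) (nat_lit 28) (.e (nat_lit 344068) (nat_lit 0) (.e (nat_lit 3090) (nat_lit 191) (.e (nat_lit 483354) (nat_lit 17) (.e (nat_lit 6674) (nat_lit 357) .nil)))))) (.g (nat_lit 1) (.e (nat_lit 59251) (nat_lit 0) .nil) .nil))) 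
(.lf (nat_lit 462524) (.g (nat_lit 1396) (.e (nat_lit 3027) (nat_lit 187) (.e (nat_lit 450586) (nat_lit 10) (.e (nat_lit 573474) (nat_lit 12) .nil))) (.g (nat_lit 0) (.e (nat_lit 66207) (nat_lit 0) .nil) .nil)))) (.nd (nat_lit 9) 
(.lf (nat_lit 462268) (.g (nat_lit 455) (.e (nat_lit 2982) (nat_lit 186) (.e (nat_lit 442374) (nat_lit 0) (.e (nat_lit 2175) (nat_lit 143) .nil))) (.g (nat_lit 0) (.e (nat_lit 61042) (nat_lit 0) .nil) .nil))) 
(.lf (nat_lit 462780) (.g (nat_lit 2916) (.e (nat_lit 3062) (nat_lit 190) (.e (nat_lit 475185) (nat_lit 29) (.e (nat_lit 557101) (nat_lit 13) (.e (nat_lit 172115) (nat_lit 10) (.e (nat_lit 434227) (nat_lit 20) (.e (nat_lit 507930) (nat_lit 10) (.e (nat_lit 5665) (nat_lit 312) .nil))))))) (.g (nat_lit 1) (.e (nat_lit 67404) (nat_lit 0) .nil) .nil)))))) 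
(.nd (nat_lit 7) (.nd (nat_lit 8) (.nd (nat_lit 9) 
(.lf (nat_lit 461948) (.g (nat_lit 2274) (.e (nat_lit 2936) (nat_lit 184) (.e (nat_lit 426401) (nat_lit 15) (.e (nat_lit 1849) (nat_lit 124) (.e (nat_lit 557107) (nat_lit 15) (.e (nat_lit 188447) (nat_lit 22) (.e (nat_lit 196661) (nat_lit 12) (.e (nat_lit 57748) (nat_lit 201) .nil))))))) (.g (nat_lit 1) (.e (nat_lit 59150) (nat_lit 0) .nil) .nil))) 
(.lf (nat_lit 462460) (.g (nat_lit 3011) (.e (nat_lit 3021) (nat_lit 187) (.e (nat_lit 450595) (nat_lit 17) (.e (nat_lit 663583) (nat_lit 11) (.e (nat_lit 24640) (nat_lit 10) (.e (nat_lit 344156) (nat_lit 36) (.e (nat_lit 638985) (nat_lit 5) .nil)))))) (.g (nat_lit 1) (.e (nat_lit 64499) (nat_lit 0) .nil) .nil)))) (.nd (nat_lit 9) 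
(.lf (nat_lit 462204) (.g (nat_lit 3478) (.e (nat_lit 2975) (nat_lit 185) (.e (nat_lit 434231) (nat_lit 23) (.e (nat_lit 532550) (nat_lit 12) (.e (nat_lit 360475) (nat_lit 8) (.e (nat_lit 557091) (nat_lit 12) .nil))))) (.g (nat_lit 0) (.e (nat_lit 60521) (nat_lit 0) .nil) .nil))) 
(.lf (nat_lit 462716) (.g (nat_lit 4045) (.e (nat_lit 3062) (nat_lit 190) (.e (nat_lit 475185) (nat_lit 29) (.e (nat_lit 557100) (nat_lit 13) (.e (nat_lit 172106) (nat_lit 10) (.e (nat_lit 434231) (nat_lit 23) (.e (nat_lit 532481) (nat_lit 0) (.e (nat_lit 7936) (nat_lit 357) .nil))))))) (.g (nat_lit 1) (.e (nat_lit 67340) (nat_lit 0) .nil) .nil))))) (.nd (nat_lit 8) (.nd (nat_lit 9) 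
(.lf (nat_lit 462076) (.g (nat_lit 1844) (.e (nat_lit 2946) (nat_lit 184) (.e (nat_lit 426100) (nat_lit 1) (.e (nat_lit 164403) (nat_lit 256) (.e (nat_lit 57406) (nat_lit 12) .nil)))) (.g (nat_lit 0) (.e (nat_lit 59384) (nat_lit 0) .nil) .nil))) 
(.lf (nat_lit 462588) (.g (nat_lit 2121) (.e (nat_lit 3056) (nat_lit 190) (.e (nat_lit 475185) (nat_lit 29) (.e (nat_lit 557101) (nat_lit 13) (.e (nat_lit 172097) (nat_lit 9) .nil)))) (.g (nat_lit 0) (.e (nat_lit 67021) (nat_lit 0) .nil) .nil)))) (.nd (nat_lit 9) 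
(.lf (nat_lit 462332) (.g (nat_lit 2950) (.e (nat_lit 3004) (nat_lit 186) (.e (nat_lit 442374) (nat_lit 0) (.e (nat_lit 2059) (nat_lit 142) (.e (nat_lit 704599) (nat_lit 6) (.e (nat_lit 188440) (nat_lit 20) (.e (nat_lit 3409) (nat_lit 212) (.e (nat_lit 655364) (nat_lit 0) .nil))))))) (.g (nat_lit 1) (.e (nat_lit 62038) (nat_lit 0) .nil) .nil))) 
(.lf (nat_lit 462844) (.g (nat_lit 1979) (.e (nat_lit 3062) (nat_lit 190) (.e (nat_lit 475185) (nat_lit 29) (.e (nat_lit 557109) (nat_lit 15) (.e (nat_lit 188458) (nat_lit 25) .nil)))) (.g (nat_lit 0) (.e (nat_lit 67471) (nat_lit 0) .nil) .nil))))))))))) (.nd (nat_lit 2) (.nd (nat_lit 3) (.nd (nat_lit 4) (.nd (nat_lit 5) (.nd (nat_lit 6) (.nd (nat_lit 7) (.nd (nat_lit 8) (.nd (nat_lit 9) 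
(.lf (nat_lit 461826) (.g (nat_lit 2657) (.e (nat_lit 2884) (nat_lit 184) (.e (nat_lit 426317) (nat_lit 12) (.e (nat_lit 475185) (nat_lit 29) (.e (nat_lit 557109) (nat_lit 15) (.e (nat_lit 188441) (nat_lit 20) .nil))))) (.g (nat_lit 0) (.e (nat_lit 58772) (nat_lit 0) .nil) .nil))) 
(.lf (nat_lit 462338) (.g (nat_lit 1397) (.e (nat_lit 3004) (nat_lit 186) (.e (nat_lit 442374) (nat_lit 0) (.e (nat_lit 2175) (nat_lit 143) (.e (nat_lit 712753) (nat_lit 30) (.e (nat_lit 450593) (nat_lit 16) .nil))))) (.g (nat_lit 0) (.e (nat_lit 62044) (nat_lit 0) .nil) .nil)))) (.nd (nat_lit 9) 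
(.lf (nat_lit 462082) (.g (nat_lit 2743) (.e (nat_lit 2946) (nat_lit 184) (.e (nat_lit 426139) (nat_lit 3) (.e (nat_lit 204869) (nat_lit 29) (.e (nat_lit 360474) (nat_lit 8) (.e (nat_lit 557091) (nat_lit 12) .nil))))) (.g (nat_lit 0) (.e (nat_lit 59427) (nat_lit 0) .nil) .nil))) 
(.lf (nat_lit 462594) (.g (nat_lit 2959) (.e (nat_lit 3057) (nat_lit 190) (.e (nat_lit 475185) (nat_lit 29) (.e (nat_lit 557101) (nat_lit 13) (.e (nat_lit 172115) (nat_lit 10) (.e (nat_lit 434231) (nat_lit 23) .nil))))) (.g (nat_lit 0) (.e (nat_lit 67039) (nat_lit 0) .nil) .nil))))) (.nd (nat_lit 8) (.nd (nat_lit 9) 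
(.lf (nat_lit 461954) (.g (nat_lit 3073) (.e (nat_lit 2936) (nat_lit 184) (.e (nat_lit 426401) (nat_lit 15) (.e (nat_lit 1859) (nat_lit 124) (.e (nat_lit 557109) (nat_lit 15) (.e (nat_lit 188449) (nat_lit 22) (.e (nat_lit 196661) (nat_lit 12) (.e (nat_lit 57748) (nat_lit 201) .nil))))))) (.g (nat_lit 1) (.e (nat_lit 59156) (nat_lit 0) .nil) .nil))) 
(.lf (nat_lit 462466) (.g (nat_lit 1234) (.e (nat_lit 3022) (nat_lit 187) (.e (nat_lit 450565) (nat_lit 0) (.e (nat_lit 5212) (nat_lit 295) (.e (nat_lit 122919) (nat_lit 15) (.e (nat_lit 360480) (nat_lit 14) .nil))))) (.g (nat_lit 0) (.e (nat_lit 64716) (nat_lit 0) .nil) .nil)))) (.nd (nat_lit 9) 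
(.lf (nat_lit 462210) (.g (nat_lit 3818) (.e (nat_lit 2978) (nat_lit 185) (.e (nat_lit 434231) (nat_lit 23) (.e (nat_lit 532550) (nat_lit 12) (.e (nat_lit 360474) (nat_lit 8) (.e (nat_lit 557091) (nat_lit 12) .nil))))) (.g (nat_lit 0) (.e (nat_lit 60695) (nat_lit 0) .nil) .nil))) 
(.lf (nat_lit 462722) (.g (nat_lit 3349) (.e (nat_lit 3062) (nat_lit 190) (.e (nat_lit 475185) (nat_lit 29) (.e (nat_lit 557100) (nat_lit 13) (.e (nat_lit 172106) (nat_lit 10) (.e (nat_lit 434231) (nat_lit 23) (.e (nat_lit 532483) (nat_lit 0) (.e (nat_lit 7936) (nat_lit 357) .nil))))))) (.g (nat_lit 1) (.e (nat_lit 67346) (nat_lit 0) .nil) .nil)))))) 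
(.nd (nat_lit 7) (.nd (nat_lit 8) (.nd (nat_lit 9) 
(.lf (nat_lit 461890) (.g (nat_lit 556) (.e (nat_lit 2936) (nat_lit 184) (.e (nat_lit 426129) (nat_lit 3) (.e (nat_lit 204815) (nat_lit 17) .nil))) (.g (nat_lit 0) (.e (nat_lit 59014) (nat_lit 0) .nil) .nil))) 
(.lf (nat_lit 462402) (.g (nat_lit 1273) (.e (nat_lit 3015) (nat_lit 187) (.e (nat_lit 450587) (nat_lit 10) (.e (nat_lit 573501) (nat_lit 18) .nil))) (.g (nat_lit 0) (.e (nat_lit 63124) (nat_lit 0) .nil) .nil)))) (.nd (nat_lit 9) 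
(.lf (nat_lit 462146) (.g (nat_lit 2802) (.e (nat_lit 2964) (nat_lit 185) (.e (nat_lit 434231) (nat_lit 23) (.e (nat_lit 532550) (nat_lit 12) (.e (nat_lit 360474) (nat_lit 8) (.e (nat_lit 557088) (nat_lit 12) .nil))))) (.g (nat_lit 0) (.e (nat_lit 60179) (nat_lit 0) .nil) .nil))) 
(.lf (nat_lit 462658) (.g (nat_lit 2311) (.e (nat_lit 3062) (nat_lit 190) (.e (nat_lit 475179) (nat_lit 24) (.e (nat_lit 516174) (nat_lit 14) (.e (nat_lit 466954) (nat_lit 11) (.e (nat_lit 335986) (nat_lit 1) (.e (nat_lit 57660) (nat_lit 152) (.e (nat_lit 2406) (nat_lit 157) .nil))))))) (.g (nat_lit 1) (.e (nat_lit 67274) (nat_lit 0) .nil) .nil))))) (.nd (nat_lit 8) (.nd (nat_lit 9) 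
(.lf (nat_lit 462018) (.g (nat_lit 2345) (.e (nat_lit 2940) (nat_lit 184) (.e (nat_lit 426401) (nat_lit 15) (.e (nat_lit 1849) (nat_lit 124) (.e (nat_lit 557108) (nat_lit 15) (.e (nat_lit 188449) (nat_lit 22) (.e (nat_lit 196661) (nat_lit 12) (.e (nat_lit 57748) (nat_lit 201) .nil))))))) (.g (nat_lit 1) (.e (nat_lit 59259) (nat_lit 0) .nil) .nil))) 
(.lf (nat_lit 462530) (.g (nat_lit 1077) (.e (nat_lit 3027) (nat_lit 187) (.e (nat_lit 450595) (nat_lit 17) (.e (nat_lit 663574) (nat_lit 9) (.e (nat_lit 7936) (nat_lit 24) .nil)))) (.g (nat_lit 0) (.e (nat_lit 66310) (nat_lit 0) .nil) .nil)))) (.nd (nat_lit 9) 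
(.lf (nat_lit 462274) (.g (nat_lit 3221) (.e (nat_lit 2988) (nat_lit 186) (.e (nat_lit 442374) (nat_lit 0) (.e (nat_lit 1856) (nat_lit 124) (.e (nat_lit 557098) (nat_lit 13) (.e (nat_lit 172115) (nat_lit 10) (.e (nat_lit 434238) (nat_lit 25) (.e (nat_lit 548897) (nat_lit 14) .nil))))))) (.g (nat_lit 1) (.e (nat_lit 61291) (nat_lit 0) .nil) .nil))) 
(.lf (nat_lit 462786) (.g (nat_lit 2378) (.e (nat_lit 3062) (nat_lit 190) (.e (nat_lit 475185) (nat_lit 29) (.e (nat_lit 557101) (nat_lit 13) (.e (nat_lit 172115) (nat_lit 10) (.e (nat_lit 434231) (nat_lit 23) (.e (nat_lit 532481) (nat_lit 0) (.e (nat_lit 1902) (nat_lit 128) (.e (nat_lit 589839) (nat_lit 5) .nil)))))))) (.g (nat_lit 1) (.e (nat_lit 67410) (nat_lit 0) .nil) .nil))))))) 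
(.nd (nat_lit 6) (.nd (nat_lit 7) (.nd (nat_lit 8) (.nd (nat_lit 9) 
(.lf (nat_lit 461858) (.g (nat_lit 2776) (.e (nat_lit 2902) (nat_lit 184) (.e (nat_lit 426347) (nat_lit 14) (.e (nat_lit 491537) (nat_lit 2) (.e (nat_lit 90170) (nat_lit 13) (.e (nat_lit 172124) (nat_lit 14) .nil))))) (.g (nat_lit 0) (.e (nat_lit 58852) (nat_lit 0) .nil) .nil))) 
(.lf (nat_lit 462370) (.g (nat_lit 1406) (.e (nat_lit 3011) (nat_lit 187) (.e (nat_lit 450563) (nat_lit 0) (.e (nat_lit 6830) (nat_lit 367) (.e (nat_lit 57426) (nat_lit 15) (.e (nat_lit 368384) (nat_lit 10) .nil))))) (.g (nat_lit 0) (.e (nat_lit 62414) (nat_lit 0) .nil) .nil)))) (.nd (nat_lit 9) 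
(.lf (nat_lit 462114) (.g (nat_lit 3019) (.e (nat_lit 2962) (nat_lit 185) (.e (nat_lit 434231) (nat_lit 23) (.e (nat_lit 532523) (nat_lit 7) (.e (nat_lit 319530) (nat_lit 16) .nil)))) (.g (nat_lit 0) (.e (nat_lit 59883) (nat_lit 0) .nil) .nil))) 
(.lf (nat_lit 462626) (.g (nat_lit 3617) (.e (nat_lit 3062) (nat_lit 190) (.e (nat_lit 483072) (nat_lit 26) (.e (nat_lit 532544) (nat_lit 10) (.e (nat_lit 344133) (nat_lit 26) (.e (nat_lit 557103) (nat_lit 14) (.e (nat_lit 180250) (nat_lit 10) (.e (nat_lit 573442) (nat_lit 0) .nil))))))) (.g (nat_lit 1) (.e (nat_lit 67112) (nat_lit 0) .nil) .nil))))) (.nd (nat_lit 8) (.nd (nat_lit 9) 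
(.lf (nat_lit 461986) (.g (nat_lit 3600) (.e (nat_lit 2939) (nat_lit 184) (.e (nat_lit 426419) (nat_lit 15) (.e (nat_lit 1856) (nat_lit 124) (.e (nat_lit 557098) (nat_lit 13) (.e (nat_lit 172097) (nat_lit 9) (.e (nat_lit 426125) (nat_lit 2) (.e (nat_lit 196661) (nat_lit 12) (.e (nat_lit 57748) (nat_lit 201) .nil)))))))) (.g (nat_lit 1) (.e (nat_lit 59219) (nat_lit 0) .nil) .nil))) 
(.lf (nat_lit 462498) (.g (nat_lit 3536) (.e (nat_lit 3022) (nat_lit 187) (.e (nat_lit 450595) (nat_lit 17) (.e (nat_lit 663583) (nat_lit 11) (.e (nat_lit 24640) (nat_lit 10) (.e (nat_lit 344156) (nat_lit 36) (.e (nat_lit 638985) (nat_lit 5) .nil)))))) (.g (nat_lit 1) (.e (nat_lit 65174) (nat_lit 0) .nil) .nil)))) (.nd (nat_lit 9) 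
(.lf (nat_lit 462242) (.g (nat_lit 2124) (.e (nat_lit 2980) (nat_lit 185) (.e (nat_lit 434231) (nat_lit 23) (.e (nat_lit 532550) (nat_lit 12) (.e (nat_lit 360475) (nat_lit 8) (.e (nat_lit 557091) (nat_lit 12) .nil))))) (.g (nat_lit 0) (.e (nat_lit 60941) (nat_lit 0) .nil) .nil))) 
(.lf (nat_lit 462754) (.g (nat_lit 1974) (.e (nat_lit 3062) (nat_lit 190) (.e (nat_lit 475185) (nat_lit 29) (.e (nat_lit 557100) (nat_lit 13) (.e (nat_lit 179968) (nat_lit 20) .nil)))) (.g (nat_lit 0) (.e (nat_lit 67378) (nat_lit 0) .nil) .nil)))))) (.nd (nat_lit 7) (.nd (nat_lit 8) (.nd (nat_lit 9) 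
(.lf (nat_lit 461922) (.g (nat_lit 1396) (.e (nat_lit 2936) (nat_lit 184) (.e (nat_lit 426163) (nat_lit 6) (.e (nat_lit 253991) (nat_lit 11) (.e (nat_lit 16465) (nat_lit 13) .nil)))) (.g (nat_lit 0) (.e (nat_lit 59093) (nat_lit 0) .nil) .nil))) 
(.lf (nat_lit 462434) (.g (nat_lit 2805) (.e (nat_lit 3016) (nat_lit 187) (.e (nat_lit 450596) (nat_lit 17) (.e (nat_lit 663583) (nat_lit 11) (.e (nat_lit 24640) (nat_lit 10) (.e (nat_lit 344156) (nat_lit 36) (.e (nat_lit 638985) (nat_lit 5) .nil)))))) (.g (nat_lit 1) (.e (nat_lit 64181) (nat_lit 0) .nil) .nil)))) (.nd (nat_lit 9) 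
(.lf (nat_lit 462178) (.g (nat_lit 2627) (.e (nat_lit 2972) (nat_lit 185) (.e (nat_lit 434231) (nat_lit 23) (.e (nat_lit 532550) (nat_lit 12) (.e (nat_lit 360474) (nat_lit 8) .nil)))) (.g (nat_lit 0) (.e (nat_lit 60364) (nat_lit 0) .nil) .nil))) 
(.lf (nat_lit 462690) (.g (nat_lit 2314) (.e (nat_lit 3062) (nat_lit 190) (.e (nat_lit 475185) (nat_lit 29) (.e (nat_lit 557100) (nat_lit 13) (.e (nat_lit 172106) (nat_lit 10) (.e (nat_lit 434227) (nat_lit 20) (.e (nat_lit 507928) (nat_lit 10) (.e (nat_lit 5649) (nat_lit 312) .nil))))))) (.g (nat_lit 1) (.e (nat_lit 67314) (nat_lit 0) .nil) .nil))))) (.nd (nat_lit 8) (.nd (nat_lit 9) 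
(.lf (nat_lit 462050) (.g (nat_lit 1269) (.e (nat_lit 2942) (nat_lit 184) (.e (nat_lit 426232) (nat_lit 9) (.e (nat_lit 426435) (nat_lit 18) (.e (nat_lit 98342) (nat_lit 20) (.e (nat_lit 229120) (nat_lit 12) (.e (nat_lit 344107) (nat_lit 19) (.e (nat_lit 499825) (nat_lit 5) .nil))))))) (.g (nat_lit 1) (.e (nat_lit 59292) (nat_lit 0) .nil) .nil))) 
(.lf (nat_lit 462562) (.g (nat_lit 1535) (.e (nat_lit 3044) (nat_lit 189) (.e (nat_lit 466981) (nat_lit 23) (.e (nat_lit 204861) (nat_lit 26) (.e (nat_lit 335987) (nat_lit 1) (.e (nat_lit 57927) (nat_lit 282) (.e (nat_lit 163844) (nat_lit 0) (.e (nat_lit 7936) (nat_lit 200) (.e (nat_lit 557065) (nat_lit 9) .nil)))))))) (.g (nat_lit 1) (.e (nat_lit 66863) (nat_lit 0) .nil) .nil)))) 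
(.nd (nat_lit 9) 
(.lf (nat_lit 462306) (.g (nat_lit 1475) (.e (nat_lit 2997) (nat_lit 186) (.e (nat_lit 442374) (nat_lit 0) (.e (nat_lit 2059) (nat_lit 142) (.e (nat_lit 704598) (nat_lit 6) .nil)))) (.g (nat_lit 0) (.e (nat_lit 61568) (nat_lit 0) .nil) .nil))) 
(.lf (nat_lit 462818) (.g (nat_lit 6073) (.e (nat_lit 3062) (nat_lit 190) (.e (nat_lit 475185) (nat_lit 29) (.e (nat_lit 557108) (nat_lit 15) (.e (nat_lit 188452) (nat_lit 23) (.e (nat_lit 204816) (nat_lit 17) (.e (nat_lit 6665) (nat_lit 357) .nil)))))) (.g (nat_lit 1) (.e (nat_lit 67445) (nat_lit 0) .nil) .nil)))))))) 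
(.nd (nat_lit 5) (.nd (nat_lit 6) (.nd (nat_lit 7) (.nd (nat_lit 8) (.nd (nat_lit 9) 
(.lf (nat_lit 461842) (.g (nat_lit 2203) (.e (nat_lit 2895) (nat_lit 184) (.e (nat_lit 426566) (nat_lit 34) (.e (nat_lit 393294) (nat_lit 26) (.e (nat_lit 475177) (nat_lit 24) .nil)))) (.g (nat_lit 0) (.e (nat_lit 58829) (nat_lit 0) .nil) .nil))) 
(.lf (nat_lit 462354) (.g (nat_lit 1565) (.e (nat_lit 3005) (nat_lit 186) (.e (nat_lit 442374) (nat_lit 0) (.e (nat_lit 2059) (nat_lit 142) (.e (nat_lit 704598) (nat_lit 6) .nil)))) (.g (nat_lit 0) (.e (nat_lit 62129) (nat_lit 0) .nil) .nil)))) (.nd (nat_lit 9) 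
(.lf (nat_lit 462098) (.g (nat_lit 3613) (.e (nat_lit 2946) (nat_lit 184) (.e (nat_lit 426306) (nat_lit 12) (.e (nat_lit 475211) (nat_lit 41) (.e (nat_lit 712755) (nat_lit 30) (.e (nat_lit 450593) (nat_lit 16) (.e (nat_lit 655367) (nat_lit 0) .nil)))))) (.g (nat_lit 1) (.e (nat_lit 59508) (nat_lit 0) .nil) .nil))) 
(.lf (nat_lit 462610) (.g (nat_lit 3693) (.e (nat_lit 3060) (nat_lit 190) (.e (nat_lit 475185) (nat_lit 29) (.e (nat_lit 557101) (nat_lit 13) (.e (nat_lit 172097) (nat_lit 9) (.e (nat_lit 426140) (nat_lit 3) (.e (nat_lit 204821) (nat_lit 17) (.e (nat_lit 7936) (nat_lit 357) .nil))))))) (.g (nat_lit 1) (.e (nat_lit 67074) (nat_lit 0) .nil) .nil))))) (.nd (nat_lit 8) (.nd (nat_lit 9) 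
(.lf (nat_lit 461970) (.g (nat_lit 1388) (.e (nat_lit 2936) (nat_lit 184) (.e (nat_lit 426532) (nat_lit 28) (.e (nat_lit 344068) (nat_lit 0) (.e (nat_lit 3090) (nat_lit 191) (.e (nat_lit 483354) (nat_lit 17) (.e (nat_lit 6674) (nat_lit 357) .nil)))))) (.g (nat_lit 1) (.e (nat_lit 59175) (nat_lit 0) .nil) .nil))) 
(.lf (nat_lit 462482) (.g (nat_lit 528) (.e (nat_lit 3022) (nat_lit 187) (.e (nat_lit 450580) (nat_lit 5) (.e (nat_lit 532563) (nat_lit 15) .nil))) (.g (nat_lit 0) (.e (nat_lit 64891) (nat_lit 0) .nil) .nil)))) (.nd (nat_lit 9) 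
(.lf (nat_lit 462226) (.g (nat_lit 3330) (.e (nat_lit 2980) (nat_lit 185) (.e (nat_lit 434231) (nat_lit 23) (.e (nat_lit 532549) (nat_lit 12) (.e (nat_lit 360473) (nat_lit 8) (.e (nat_lit 557090) (nat_lit 12) (.e (nat_lit 164020) (nat_lit 45) (.e (nat_lit 696330) (nat_lit 5) .nil))))))) (.g (nat_lit 1) (.e (nat_lit 60907) (nat_lit 0) .nil) .nil))) 
(.lf (nat_lit 462738) (.g (nat_lit 2467) (.e (nat_lit 3062) (nat_lit 190) (.e (nat_lit 475185) (nat_lit 29) (.e (nat_lit 557100) (nat_lit 13) (.e (nat_lit 172113) (nat_lit 10) (.e (nat_lit 434227) (nat_lit 20) .nil))))) (.g (nat_lit 0) (.e (nat_lit 67362) (nat_lit 0) .nil) .nil)))))) (.nd (nat_lit 7) (.nd (nat_lit 8) (.nd (nat_lit 9) 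
(.lf (nat_lit 461906) (.g (nat_lit 2714) (.e (nat_lit 2936) (nat_lit 184) (.e (nat_lit 426163) (nat_lit 6) (.e (nat_lit 253991) (nat_lit 11) (.e (nat_lit 16432) (nat_lit 9) (.e (nat_lit 426533) (nat_lit 28) .nil))))) (.g (nat_lit 0) (.e (nat_lit 59073) (nat_lit 0) .nil) .nil))) 
(.lf (nat_lit 462418) (.g (nat_lit 514) (.e (nat_lit 3017) (nat_lit 187) (.e (nat_lit 450588) (nat_lit 10) (.e (nat_lit 573475) (nat_lit 12) .nil))) (.g (nat_lit 0) (.e (nat_lit 63615) (nat_lit 0) .nil) .nil)))) (.nd (nat_lit 9) 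
(.lf (nat_lit 462162) (.g (nat_lit 3525) (.e (nat_lit 2965) (nat_lit 185) (.e (nat_lit 434231) (nat_lit 23) (.e (nat_lit 532549) (nat_lit 12) (.e (nat_lit 360473) (nat_lit 8) (.e (nat_lit 557090) (nat_lit 12) .nil))))) (.g (nat_lit 0) (.e (nat_lit 60328) (nat_lit 0) .nil) .nil))) 
(.lf (nat_lit 462674) (.g (nat_lit 6638) (.e (nat_lit 3062) (nat_lit 190) (.e (nat_lit 475183) (nat_lit 29) (.e (nat_lit 557108) (nat_lit 15) (.e (nat_lit 188452) (nat_lit 23) (.e (nat_lit 204816) (nat_lit 17) (.e (nat_lit 6665) (nat_lit 357) .nil)))))) (.g (nat_lit 1) (.e (nat_lit 67297) (nat_lit 0) .nil) .nil))))) (.nd (nat_lit 8) (.nd (nat_lit 9) 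
(.lf (nat_lit 462034) (.g (nat_lit 2138) (.e (nat_lit 2941) (nat_lit 184) (.e (nat_lit 426401) (nat_lit 15) (.e (nat_lit 1849) (nat_lit 124) (.e (nat_lit 557107) (nat_lit 15) (.e (nat_lit 188447) (nat_lit 22) (.e (nat_lit 196661) (nat_lit 12) (.e (nat_lit 57748) (nat_lit 201) .nil))))))) (.g (nat_lit 1) (.e (nat_lit 59275) (nat_lit 0) .nil) .nil))) 
(.lf (nat_lit 462546) (.g (nat_lit 1632) (.e (nat_lit 3044) (nat_lit 189) (.e (nat_lit 466974) (nat_lit 22) (.e (nat_lit 196681) (nat_lit 17) (.e (nat_lit 131089) (nat_lit 1) (.e (nat_lit 57929) (nat_lit 282) (.e (nat_lit 163850) (nat_lit 0) (.e (nat_lit 7936) (nat_lit 200) (.e (nat_lit 557065) (nat_lit 9) .nil)))))))) (.g (nat_lit 1) (.e (nat_lit 66801) (nat_lit 0) .nil) .nil)))) 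
(.nd (nat_lit 9) 
(.lf (nat_lit 462290) (.g (nat_lit 2004) (.e (nat_lit 2988) (nat_lit 186) (.e (nat_lit 442390) (nat_lit 11) (.e (nat_lit 336230) (nat_lit 14) (.e (nat_lit 401448) (nat_lit 10) (.e (nat_lit 434287) (nat_lit 43) (.e (nat_lit 696327) (nat_lit 5) .nil)))))) (.g (nat_lit 1) (.e (nat_lit 61342) (nat_lit 0) .nil) .nil))) 
(.lf (nat_lit 462802) (.g (nat_lit 990) (.e (nat_lit 3062) (nat_lit 190) (.e (nat_lit 475185) (nat_lit 29) (.e (nat_lit 557103) (nat_lit 14) .nil))) (.g (nat_lit 0) (.e (nat_lit 67426) (nat_lit 0) .nil) .nil))))))) (.nd (nat_lit 6) (.nd (nat_lit 7) (.nd (nat_lit 8) (.nd (nat_lit 9) 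
(.lf (nat_lit 461874) (.g (nat_lit 2769) (.e (nat_lit 2914) (nat_lit 184) (.e (nat_lit 426316) (nat_lit 12) (.e (nat_lit 475185) (nat_lit 29) (.e (nat_lit 557107) (nat_lit 15) (.e (nat_lit 188418) (nat_lit 0) .nil))))) (.g (nat_lit 0) (.e (nat_lit 58895) (nat_lit 0) .nil) .nil))) 
(.lf (nat_lit 462386) (.g (nat_lit 1963) (.e (nat_lit 3015) (nat_lit 187) (.e (nat_lit 450560) (nat_lit 0) (.e (nat_lit 5190) (nat_lit 294) (.e (nat_lit 57412) (nat_lit 12) (.e (nat_lit 336176) (nat_lit 10) (.e (nat_lit 344157) (nat_lit 36) (.e (nat_lit 638985) (nat_lit 5) .nil))))))) (.g (nat_lit 1) (.e (nat_lit 62848) (nat_lit 0) .nil) .nil)))) (.nd (nat_lit 9) 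
(.lf (nat_lit 462130) (.g (nat_lit 4318) (.e (nat_lit 2964) (nat_lit 185) (.e (nat_lit 434231) (nat_lit 23) (.e (nat_lit 532549) (nat_lit 12) (.e (nat_lit 360473) (nat_lit 8) (.e (nat_lit 557090) (nat_lit 12) (.e (nat_lit 164020) (nat_lit 45) (.e (nat_lit 696329) (nat_lit 5) .nil))))))) (.g (nat_lit 1) (.e (nat_lit 60146) (nat_lit 0) .nil) .nil))) 
(.lf (nat_lit 462642) (.g (nat_lit 2610) (.e (nat_lit 3062) (nat_lit 190) (.e (nat_lit 475179) (nat_lit 24) (.e (nat_lit 516150) (nat_lit 9) (.e (nat_lit 426227) (nat_lit 9) (.e (nat_lit 426571) (nat_lit 35) (.e (nat_lit 401414) (nat_lit 0) (.e (nat_lit 3459) (nat_lit 216) (.e (nat_lit 688139) (nat_lit 5) .nil)))))))) (.g (nat_lit 1) (.e (nat_lit 67175) (nat_lit 0) .nil) .nil))))) 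
(.nd (nat_lit 8) (.nd (nat_lit 9) 
(.lf (nat_lit 462002) (.g (nat_lit 2803) (.e (nat_lit 2939) (nat_lit 184) (.e (nat_lit 426503) (nat_lit 27) (.e (nat_lit 336229) (nat_lit 14) (.e (nat_lit 401437) (nat_lit 9) (.e (nat_lit 426533) (nat_lit 28) (.e (nat_lit 344066) (nat_lit 0) .nil)))))) (.g (nat_lit 1) (.e (nat_lit 59239) (nat_lit 0) .nil) .nil))) 
(.lf (nat_lit 462514) (.g (nat_lit 1072) (.e (nat_lit 3027) (nat_lit 187) (.e (nat_lit 450561) (nat_lit 0) (.e (nat_lit 6830) (nat_lit 367) (.e (nat_lit 57412) (nat_lit 12) .nil)))) (.g (nat_lit 0) (.e (nat_lit 65756) (nat_lit 0) .nil) .nil)))) (.nd (nat_lit 9) 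
(.lf (nat_lit 462258) (.g (nat_lit 3081) (.e (nat_lit 2981) (nat_lit 185) (.e (nat_lit 434231) (nat_lit 23) (.e (nat_lit 532550) (nat_lit 12) (.e (nat_lit 360472) (nat_lit 8) (.e (nat_lit 557090) (nat_lit 12) .nil))))) (.g (nat_lit 0) (.e (nat_lit 61030) (nat_lit 0) .nil) .nil))) 
(.lf (nat_lit 462770) (.g (nat_lit 2840) (.e (nat_lit 3062) (nat_lit 190) (.e (nat_lit 475185) (nat_lit 29) (.e (nat_lit 557101) (nat_lit 13) (.e (nat_lit 172115) (nat_lit 10) (.e (nat_lit 434227) (nat_lit 20) (.e (nat_lit 507928) (nat_lit 10) (.e (nat_lit 5671) (nat_lit 312) .nil))))))) (.g (nat_lit 1) (.e (nat_lit 67394) (nat_lit 0) .nil) .nil)))))) 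
(.nd (nat_lit 7) (.nd (nat_lit 8) (.nd (nat_lit 9) 
(.lf (nat_lit 461938) (.g (nat_lit 522) (.e (nat_lit 2936) (nat_lit 184) (.e (nat_lit 426347) (nat_lit 14) (.e (nat_lit 491535) (nat_lit 2) .nil))) (.g (nat_lit 0) (.e (nat_lit 59118) (nat_lit 0) .nil) .nil))) 
(.lf (nat_lit 462450) (.g (nat_lit 2546) (.e (nat_lit 3021) (nat_lit 187) (.e (nat_lit 450579) (nat_lit 5) (.e (nat_lit 532522) (nat_lit 7) (.e (nat_lit 319531) (nat_lit 16) (.e (nat_lit 286733) (nat_lit 2) (.e (nat_lit 90134) (nat_lit 9) .nil)))))) (.g (nat_lit 1) (.e (nat_lit 64387) (nat_lit 0) .nil) .nil)))) (.nd (nat_lit 9) 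
(.lf (nat_lit 462194) (.g (nat_lit 2428) (.e (nat_lit 2974) (nat_lit 185) (.e (nat_lit 434235) (nat_lit 24) (.e (nat_lit 540706) (nat_lit 12) (.e (nat_lit 360475) (nat_lit 8) (.e (nat_lit 557090) (nat_lit 12) (.e (nat_lit 164020) (nat_lit 45) (.e (nat_lit 696329) (nat_lit 5) .nil))))))) (.g (nat_lit 1) (.e (nat_lit 60456) (nat_lit 0) .nil) .nil))) 
(.lf (nat_lit 462706) (.g (nat_lit 2751) (.e (nat_lit 3062) (nat_lit 190) (.e (nat_lit 475185) (nat_lit 29) (.e (nat_lit 557100) (nat_lit 13) (.e (nat_lit 172106) (nat_lit 10) (.e (nat_lit 434227) (nat_lit 20) (.e (nat_lit 507930) (nat_lit 10) (.e (nat_lit 5656) (nat_lit 312) .nil))))))) (.g (nat_lit 1) (.e (nat_lit 67330) (nat_lit 0) .nil) .nil))))) (.nd (nat_lit 8) (.nd (nat_lit 9) 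
(.lf (nat_lit 462066) (.g (nat_lit 3418) (.e (nat_lit 2949) (nat_lit 184) (.e (nat_lit 426123) (nat_lit 2) (.e (nat_lit 196666) (nat_lit 13) (.e (nat_lit 65617) (nat_lit 10) (.e (nat_lit 344133) (nat_lit 26) .nil))))) (.g (nat_lit 0) (.e (nat_lit 59347) (nat_lit 0) .nil) .nil))) 
(.lf (nat_lit 462578) (.g (nat_lit 1681) (.e (nat_lit 3055) (nat_lit 190) (.e (nat_lit 475185) (nat_lit 29) (.e (nat_lit 557098) (nat_lit 13) (.e (nat_lit 172115) (nat_lit 10) .nil)))) (.g (nat_lit 0) (.e (nat_lit 66985) (nat_lit 0) .nil) .nil)))) (.nd (nat_lit 9) 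
(.lf (nat_lit 462322) (.g (nat_lit 1158) (.e (nat_lit 3004) (nat_lit 186) (.e (nat_lit 442374) (nat_lit 0) (.e (nat_lit 2059) (nat_lit 142) (.e (nat_lit 704598) (nat_lit 6) .nil)))) (.g (nat_lit 0) (.e (nat_lit 62028) (nat_lit 0) .nil) .nil))) 
(.lf (nat_lit 462834) (.g (nat_lit 3233) (.e (nat_lit 3062) (nat_lit 190) (.e (nat_lit 475185) (nat_lit 29) (.e (nat_lit 557109) (nat_lit 15) (.e (nat_lit 188452) (nat_lit 23) (.e (nat_lit 204816) (nat_lit 17) (.e (nat_lit 6626) (nat_lit 357) .nil)))))) (.g (nat_lit 1) (.e (nat_lit 67461) (nat_lit 0) .nil) .nil))))))))) 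
(.nd (nat_lit 4) (.nd (nat_lit 5) (.nd (nat_lit 6) (.nd (nat_lit 7) (.nd (nat_lit 8) 
(.nd (nat_lit 9) 
(.lf (nat_lit 461834) (.g (nat_lit 2936) (.e (nat_lit 2885) (nat_lit 184) (.e (nat_lit 426125) (nat_lit 2) (.e (nat_lit 196666) (nat_lit 13) (.e (nat_lit 65610) (nat_lit 10) (.e (nat_lit 344129) (nat_lit 26) .nil))))) (.g (nat_lit 0) (.e (nat_lit 58809) (nat_lit 0) .nil) .nil))) 
(.lf (nat_lit 462346) (.g (nat_lit 1938) (.e (nat_lit 3004) (nat_lit 186) (.e (nat_lit 442390) (nat_lit 11) (.e (nat_lit 336230) (nat_lit 14) (.e (nat_lit 401448) (nat_lit 10) (.e (nat_lit 434287) (nat_lit 43) (.e (nat_lit 696330) (nat_lit 5) .nil)))))) (.g (nat_lit 1) (.e (nat_lit 62110) (nat_lit 0) .nil) .nil)))) (.nd (nat_lit 9) 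
(.lf (nat_lit 462090) (.g (nat_lit 3471) (.e (nat_lit 2946) (nat_lit 184) (.e (nat_lit 426306) (nat_lit 12) (.e (nat_lit 475185) (nat_lit 29) (.e (nat_lit 557109) (nat_lit 15) (.e (nat_lit 188434) (nat_lit 20) (.e (nat_lit 3272) (nat_lit 199) (.e (nat_lit 548902) (nat_lit 14) .nil))))))) (.g (nat_lit 1) (.e (nat_lit 59474) (nat_lit 0) .nil) .nil))) 
(.lf (nat_lit 462602) (.g (nat_lit 2293) (.e (nat_lit 3059) (nat_lit 190) (.e (nat_lit 475185) (nat_lit 29) (.e (nat_lit 557098) (nat_lit 13) (.e (nat_lit 172097) (nat_lit 9) .nil)))) (.g (nat_lit 0) (.e (nat_lit 67059) (nat_lit 0) .nil) .nil))))) (.nd (nat_lit 8) (.nd (nat_lit 9) 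
(.lf (nat_lit 461962) (.g (nat_lit 3588) (.e (nat_lit 2936) (nat_lit 184) (.e (nat_lit 426503) (nat_lit 27) (.e (nat_lit 336231) (nat_lit 14) (.e (nat_lit 401437) (nat_lit 9) (.e (nat_lit 426533) (nat_lit 28) (.e (nat_lit 344066) (nat_lit 0) .nil)))))) (.g (nat_lit 1) (.e (nat_lit 59166) (nat_lit 0) .nil) .nil))) 
(.lf (nat_lit 462474) (.g (nat_lit 2625) (.e (nat_lit 3022) (nat_lit 187) (.e (nat_lit 450580) (nat_lit 5) (.e (nat_lit 532522) (nat_lit 7) (.e (nat_lit 319529) (nat_lit 16) (.e (nat_lit 286733) (nat_lit 2) (.e (nat_lit 90134) (nat_lit 9) .nil)))))) (.g (nat_lit 1) (.e (nat_lit 64833) (nat_lit 0) .nil) .nil)))) (.nd (nat_lit 9) 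
(.lf (nat_lit 462218) (.g (nat_lit 2158) (.e (nat_lit 2978) (nat_lit 185) (.e (nat_lit 434244) (nat_lit 28) (.e (nat_lit 573481) (nat_lit 13) (.e (nat_lit 65637) (nat_lit 15) .nil)))) (.g (nat_lit 0) (.e (nat_lit 60720) (nat_lit 0) .nil) .nil))) 
(.lf (nat_lit 462730) (.g (nat_lit 3354) (.e (nat_lit 3062) (nat_lit 190) (.e (nat_lit 475185) (nat_lit 29) (.e (nat_lit 557100) (nat_lit 13) (.e (nat_lit 172106) (nat_lit 10) (.e (nat_lit 434231) (nat_lit 23) (.e (nat_lit 532500) (nat_lit 1) (.e (nat_lit 57761) (nat_lit 215) (.e (nat_lit 2505) (nat_lit 157) .nil)))))))) (.g (nat_lit 1) (.e (nat_lit 67354) (nat_lit 0) .nil) .nil)))))) 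
(.nd (nat_lit 7) (.nd (nat_lit 8) (.nd (nat_lit 9) 
(.lf (nat_lit 461898) (.g (nat_lit 1429) (.e (nat_lit 2936) (nat_lit 184) (.e (nat_lit 426163) (nat_lit 6) (.e (nat_lit 253962) (nat_lit 9) (.e (nat_lit 416) (nat_lit 32) .nil)))) (.g (nat_lit 0) (.e (nat_lit 59034) (nat_lit 0) .nil) .nil))) 
(.lf (nat_lit 462410) (.g (nat_lit 482) (.e (nat_lit 3017) (nat_lit 187) (.e (nat_lit 450587) (nat_lit 10) (.e (nat_lit 573477) (nat_lit 12) .nil))) (.g (nat_lit 0) (.e (nat_lit 63502) (nat_lit 0) .nil) .nil)))) (.nd (nat_lit 9) 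
(.lf (nat_lit 462154) (.g (nat_lit 2302) (.e (nat_lit 2964) (nat_lit 185) (.e (nat_lit 434231) (nat_lit 23) (.e (nat_lit 532550) (nat_lit 12) (.e (nat_lit 360475) (nat_lit 8) (.e (nat_lit 557091) (nat_lit 12) (.e (nat_lit 164018) (nat_lit 45) (.e (nat_lit 696326) (nat_lit 5) .nil))))))) (.g (nat_lit 1) (.e (nat_lit 60209) (nat_lit 0) .nil) .nil))) 
(.lf (nat_lit 462666) (.g (nat_lit 2598) (.e (nat_lit 3062) (nat_lit 190) (.e (nat_lit 475179) (nat_lit 24) (.e (nat_lit 516176) (nat_lit 14) (.e (nat_lit 466954) (nat_lit 11) (.e (nat_lit 335986) (nat_lit 1) (.e (nat_lit 57660) (nat_lit 152) (.e (nat_lit 2506) (nat_lit 157) .nil))))))) (.g (nat_lit 1) (.e (nat_lit 67286) (nat_lit 0) .nil) .nil))))) (.nd (nat_lit 8) (.nd (nat_lit 9) 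
(.lf (nat_lit 462026) (.g (nat_lit 1423) (.e (nat_lit 2940) (nat_lit 184) (.e (nat_lit 426447) (nat_lit 20) (.e (nat_lit 122624) (nat_lit 5) (.e (nat_lit 221194) (nat_lit 11) (.e (nat_lit 336203) (nat_lit 12) (.e (nat_lit 392960) (nat_lit 8) .nil)))))) (.g (nat_lit 1) (.e (nat_lit 59267) (nat_lit 0) .nil) .nil))) 
(.lf (nat_lit 462538) (.g (nat_lit 1093) (.e (nat_lit 3033) (nat_lit 188) (.e (nat_lit 458789) (nat_lit 23) (.e (nat_lit 532569) (nat_lit 16) .nil))) (.g (nat_lit 0) (.e (nat_lit 66705) (nat_lit 0) .nil) .nil)))) (.nd (nat_lit 9) 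
(.lf (nat_lit 462282) (.g (nat_lit 2489) (.e (nat_lit 2988) (nat_lit 186) (.e (nat_lit 442374) (nat_lit 0) (.e (nat_lit 2059) (nat_lit 142) (.e (nat_lit 704598) (nat_lit 6) (.e (nat_lit 188435) (nat_lit 20) (.e (nat_lit 3408) (nat_lit 212) (.e (nat_lit 655364) (nat_lit 0) .nil))))))) (.g (nat_lit 1) (.e (nat_lit 61300) (nat_lit 0) .nil) .nil))) 
(.lf (nat_lit 462794) (.g (nat_lit 3503) (.e (nat_lit 3062) (nat_lit 190) (.e (nat_lit 475185) (nat_lit 29) (.e (nat_lit 557101) (nat_lit 13) (.e (nat_lit 172115) (nat_lit 10) (.e (nat_lit 434231) (nat_lit 23) (.e (nat_lit 532482) (nat_lit 0) (.e (nat_lit 6622) (nat_lit 357) .nil))))))) (.g (nat_lit 1) (.e (nat_lit 67418) (nat_lit 0) .nil) .nil))))))) 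
(.nd (nat_lit 6) (.nd (nat_lit 7) (.nd (nat_lit 8) (.nd (nat_lit 9) 
(.lf (nat_lit 461866) (.g (nat_lit 1248) (.e (nat_lit 2902) (nat_lit 184) (.e (nat_lit 426565) (nat_lit 34) (.e (nat_lit 393291) (nat_lit 26) (.e (nat_lit 475177) (nat_lit 24) (.e (nat_lit 516117) (nat_lit 1) .nil))))) (.g (nat_lit 0) (.e (nat_lit 58860) (nat_lit 0) .nil) .nil))) 
(.lf (nat_lit 462378) (.g (nat_lit 844) (.e (nat_lit 3012) (nat_lit 187) (.e (nat_lit 450605) (nat_lit 27) (.e (nat_lit 745475) (nat_lit 0) (.e (nat_lit 1586) (nat_lit 111) (.e (nat_lit 368384) (nat_lit 10) .nil))))) (.g (nat_lit 0) (.e (nat_lit 62836) (nat_lit 0) .nil) .nil)))) (.nd (nat_lit 9) 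
(.lf (nat_lit 462122) (.g (nat_lit 2864) (.e (nat_lit 2961) (nat_lit 185) (.e (nat_lit 434230) (nat_lit 23) (.e (nat_lit 532550) (nat_lit 12) (.e (nat_lit 360475) (nat_lit 8) (.e (nat_lit 557091) (nat_lit 12) .nil))))) (.g (nat_lit 0) (.e (nat_lit 59983) (nat_lit 0) .nil) .nil))) 
(.lf (nat_lit 462634) (.g (nat_lit 870) (.e (nat_lit 3062) (nat_lit 190) (.e (nat_lit 475179) (nat_lit 24) (.e (nat_lit 516139) (nat_lit 7) .nil))) (.g (nat_lit 0) (.e (nat_lit 67131) (nat_lit 0) .nil) .nil))))) (.nd (nat_lit 8) (.nd (nat_lit 9) 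
(.lf (nat_lit 461994) (.g (nat_lit 2342) (.e (nat_lit 2939) (nat_lit 184) (.e (nat_lit 426401) (nat_lit 15) (.e (nat_lit 1849) (nat_lit 124) (.e (nat_lit 557108) (nat_lit 15) (.e (nat_lit 188449) (nat_lit 22) (.e (nat_lit 196661) (nat_lit 12) (.e (nat_lit 57748) (nat_lit 201) .nil))))))) (.g (nat_lit 1) (.e (nat_lit 59227) (nat_lit 0) .nil) .nil))) 
(.lf (nat_lit 462506) (.g (nat_lit 4539) (.e (nat_lit 3025) (nat_lit 187) (.e (nat_lit 450581) (nat_lit 5) (.e (nat_lit 532523) (nat_lit 7) (.e (nat_lit 319533) (nat_lit 16) (.e (nat_lit 286733) (nat_lit 2) (.e (nat_lit 90134) (nat_lit 9) .nil)))))) (.g (nat_lit 1) (.e (nat_lit 65276) (nat_lit 0) .nil) .nil)))) (.nd (nat_lit 9) 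
(.lf (nat_lit 462250) (.g (nat_lit 3364) (.e (nat_lit 2981) (nat_lit 185) (.e (nat_lit 434231) (nat_lit 23) (.e (nat_lit 532549) (nat_lit 12) (.e (nat_lit 360473) (nat_lit 8) (.e (nat_lit 557090) (nat_lit 12) .nil))))) (.g (nat_lit 0) (.e (nat_lit 61022) (nat_lit 0) .nil) .nil))) 
(.lf (nat_lit 462762) (.g (nat_lit 1703) (.e (nat_lit 3062) (nat_lit 190) (.e (nat_lit 475185) (nat_lit 29) (.e (nat_lit 557101) (nat_lit 13) (.e (nat_lit 172115) (nat_lit 10) (.e (nat_lit 434227) (nat_lit 20) .nil))))) (.g (nat_lit 0) (.e (nat_lit 67386) (nat_lit 0) .nil) .nil)))))) (.nd (nat_lit 7) (.nd (nat_lit 8) (.nd (nat_lit 9) 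
(.lf (nat_lit 461930) (.g (nat_lit 3138) (.e (nat_lit 2936) (nat_lit 184) (.e (nat_lit 426163) (nat_lit 6) (.e (nat_lit 253992) (nat_lit 11) (.e (nat_lit 16433) (nat_lit 9) (.e (nat_lit 426533) (nat_lit 28) (.e (nat_lit 344066) (nat_lit 0) .nil)))))) (.g (nat_lit 1) (.e (nat_lit 59105) (nat_lit 0) .nil) .nil))) 
(.lf (nat_lit 462442) (.g (nat_lit 3569) (.e (nat_lit 3019) (nat_lit 187) (.e (nat_lit 450586) (nat_lit 10) (.e (nat_lit 573474) (nat_lit 12) (.e (nat_lit 57572) (nat_lit 54) (.e (nat_lit 770072) (nat_lit 8) .nil))))) (.g (nat_lit 0) (.e (nat_lit 64289) (nat_lit 0) .nil) .nil)))) (.nd (nat_lit 9) 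
(.lf (nat_lit 462186) (.g (nat_lit 2624) (.e (nat_lit 2974) (nat_lit 185) (.e (nat_lit 434231) (nat_lit 23) (.e (nat_lit 532549) (nat_lit 12) (.e (nat_lit 360474) (nat_lit 8) .nil)))) (.g (nat_lit 0) (.e (nat_lit 60448) (nat_lit 0) .nil) .nil))) 
(.lf (nat_lit 462698) (.g (nat_lit 1911) (.e (nat_lit 3062) (nat_lit 190) (.e (nat_lit 475185) (nat_lit 29) (.e (nat_lit 557100) (nat_lit 13) (.e (nat_lit 172106) (nat_lit 10) (.e (nat_lit 434227) (nat_lit 20) (.e (nat_lit 507929) (nat_lit 10) (.e (nat_lit 5646) (nat_lit 312) .nil))))))) (.g (nat_lit 1) (.e (nat_lit 67322) (nat_lit 0) .nil) .nil))))) (.nd (nat_lit 8) (.nd (nat_lit 9) 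
(.lf (nat_lit 462058) (.g (nat_lit 2874) (.e (nat_lit 2945) (nat_lit 184) (.e (nat_lit 426306) (nat_lit 12) (.e (nat_lit 475177) (nat_lit 24) (.e (nat_lit 516129) (nat_lit 3) (.e (nat_lit 229120) (nat_lit 12) (.e (nat_lit 344107) (nat_lit 19) (.e (nat_lit 499825) (nat_lit 5) .nil))))))) (.g (nat_lit 1) (.e (nat_lit 59322) (nat_lit 0) .nil) .nil))) 
(.lf (nat_lit 462570) (.g (nat_lit 553) (.e (nat_lit 3053) (nat_lit 189) (.e (nat_lit 466974) (nat_lit 22) (.e (nat_lit 196681) (nat_lit 17) .nil))) (.g (nat_lit 0) (.e (nat_lit 66960) (nat_lit 0) .nil) .nil)))) (.nd (nat_lit 9) 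
(.lf (nat_lit 462314) (.g (nat_lit 2348) (.e (nat_lit 3004) (nat_lit 186) (.e (nat_lit 442373) (nat_lit 0) (.e (nat_lit 1853) (nat_lit 124) (.e (nat_lit 557107) (nat_lit 15) (.e (nat_lit 188439) (nat_lit 20) (.e (nat_lit 3272) (nat_lit 199) (.e (nat_lit 548897) (nat_lit 14) .nil))))))) (.g (nat_lit 1) (.e (nat_lit 62017) (nat_lit 0) .nil) .nil))) 
(.lf (nat_lit 462826) (.g (nat_lit 4156) (.e (nat_lit 3062) (nat_lit 190) (.e (nat_lit 475185) (nat_lit 29) (.e (nat_lit 557109) (nat_lit 15) (.e (nat_lit 188450) (nat_lit 23) (.e (nat_lit 204816) (nat_lit 17) (.e (nat_lit 6665) (nat_lit 357) .nil)))))) (.g (nat_lit 1) (.e (nat_lit 67453) (nat_lit 0) .nil) .nil)))))))) 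
(.nd (nat_lit 5) (.nd (nat_lit 6) (.nd (nat_lit 7) (.nd (nat_lit 8) (.nd (nat_lit 9) 
(.lf (nat_lit 461850) (.g (nat_lit 2775) (.e (nat_lit 2898) (nat_lit 184) (.e (nat_lit 426347) (nat_lit 14) (.e (nat_lit 491537) (nat_lit 2) (.e (nat_lit 90170) (nat_lit 13) (.e (nat_lit 172124) (nat_lit 14) .nil))))) (.g (nat_lit 0) (.e (nat_lit 58839) (nat_lit 0) .nil) .nil))) 
(.lf (nat_lit 462362) (.g (nat_lit 2499) (.e (nat_lit 3009) (nat_lit 187) (.e (nat_lit 450579) (nat_lit 5) (.e (nat_lit 532523) (nat_lit 7) (.e (nat_lit 319533) (nat_lit 16) (.e (nat_lit 286732) (nat_lit 2) (.e (nat_lit 90134) (nat_lit 9) .nil)))))) (.g (nat_lit 1) (.e (nat_lit 62172) (nat_lit 0) .nil) .nil)))) (.nd (nat_lit 9) 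
(.lf (nat_lit 462106) (.g (nat_lit 1494) (.e (nat_lit 2958) (nat_lit 185) (.e (nat_lit 434231) (nat_lit 23) (.e (nat_lit 532549) (nat_lit 12) (.e (nat_lit 360473) (nat_lit 8) .nil)))) (.g (nat_lit 0) (.e (nat_lit 59665) (nat_lit 0) .nil) .nil))) 
(.lf (nat_lit 462618) (.g (nat_lit 3349) (.e (nat_lit 3062) (nat_lit 190) (.e (nat_lit 483072) (nat_lit 26) (.e (nat_lit 532544) (nat_lit 10) (.e (nat_lit 344130) (nat_lit 26) (.e (nat_lit 557103) (nat_lit 14) (.e (nat_lit 180250) (nat_lit 10) (.e (nat_lit 573442) (nat_lit 0) .nil))))))) (.g (nat_lit 1) (.e (nat_lit 67104) (nat_lit 0) .nil) .nil))))) (.nd (nat_lit 8) (.nd (nat_lit 9) 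
(.lf (nat_lit 461978) (.g (nat_lit 3374) (.e (nat_lit 2939) (nat_lit 184) (.e (nat_lit 426129) (nat_lit 3) (.e (nat_lit 204885) (nat_lit 33) (.e (nat_lit 401434) (nat_lit 9) (.e (nat_lit 426125) (nat_lit 2) (.e (nat_lit 196661) (nat_lit 12) (.e (nat_lit 57749) (nat_lit 201) .nil))))))) (.g (nat_lit 1) (.e (nat_lit 59202) (nat_lit 0) .nil) .nil))) 
(.lf (nat_lit 462490) (.g (nat_lit 1080) (.e (nat_lit 3022) (nat_lit 187) (.e (nat_lit 450586) (nat_lit 10) (.e (nat_lit 573471) (nat_lit 11) (.e (nat_lit 16470) (nat_lit 14) .nil)))) (.g (nat_lit 0) (.e (nat_lit 65074) (nat_lit 0) .nil) .nil)))) (.nd (nat_lit 9) 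
(.lf (nat_lit 462234) (.g (nat_lit 3815) (.e (nat_lit 2980) (nat_lit 185) (.e (nat_lit 434231) (nat_lit 23) (.e (nat_lit 532550) (nat_lit 12) (.e (nat_lit 360472) (nat_lit 8) (.e (nat_lit 557090) (nat_lit 12) (.e (nat_lit 164020) (nat_lit 45) (.e (nat_lit 696328) (nat_lit 5) .nil))))))) (.g (nat_lit 1) (.e (nat_lit 60924) (nat_lit 0) .nil) .nil))) 
(.lf (nat_lit 462746) (.g (nat_lit 3028) (.e (nat_lit 3062) (nat_lit 190) (.e (nat_lit 475185) (nat_lit 29) (.e (nat_lit 557100) (nat_lit 13) (.e (nat_lit 172113) (nat_lit 10) (.e (nat_lit 434245) (nat_lit 28) (.e (nat_lit 573473) (nat_lit 12) (.e (nat_lit 57567) (nat_lit 52) (.e (nat_lit 753680) (nat_lit 5) .nil)))))))) (.g (nat_lit 1) (.e (nat_lit 67370) (nat_lit 0) .nil) .nil)))))) 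
(.nd (nat_lit 7) (.nd (nat_lit 8) (.nd (nat_lit 9) 
(.lf (nat_lit 461914) (.g (nat_lit 3150) (.e (nat_lit 2936) (nat_lit 184) (.e (nat_lit 426163) (nat_lit 6) (.e (nat_lit 253991) (nat_lit 11) (.e (nat_lit 16436) (nat_lit 9) (.e (nat_lit 433920) (nat_lit 28) .nil))))) (.g (nat_lit 0) (.e (nat_lit 59083) (nat_lit 0) .nil) .nil))) 
(.lf (nat_lit 462426) (.g (nat_lit 1239) (.e (nat_lit 3016) (nat_lit 187) (.e (nat_lit 450580) (nat_lit 5) (.e (nat_lit 532563) (nat_lit 15) (.e (nat_lit 385096) (nat_lit 49) .nil)))) (.g (nat_lit 0) (.e (nat_lit 63943) (nat_lit 0) .nil) .nil)))) (.nd (nat_lit 9) 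
(.lf (nat_lit 462170) (.g (nat_lit 2514) (.e (nat_lit 2965) (nat_lit 185) (.e (nat_lit 434231) (nat_lit 23) (.e (nat_lit 532550) (nat_lit 12) (.e (nat_lit 360474) (nat_lit 8) .nil)))) (.g (nat_lit 0) (.e (nat_lit 60336) (nat_lit 0) .nil) .nil))) 
(.lf (nat_lit 462682) (.g (nat_lit 1639) (.e (nat_lit 3062) (nat_lit 190) (.e (nat_lit 475185) (nat_lit 29) (.e (nat_lit 557098) (nat_lit 13) (.e (nat_lit 172115) (nat_lit 10) .nil)))) (.g (nat_lit 0) (.e (nat_lit 67306) (nat_lit 0) .nil) .nil))))) (.nd (nat_lit 8) (.nd (nat_lit 9) 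
(.lf (nat_lit 462042) (.g (nat_lit 1749) (.e (nat_lit 2941) (nat_lit 184) (.e (nat_lit 426508) (nat_lit 27) (.e (nat_lit 336228) (nat_lit 14) (.e (nat_lit 401438) (nat_lit 9) (.e (nat_lit 426533) (nat_lit 28) (.e (nat_lit 344066) (nat_lit 0) .nil)))))) (.g (nat_lit 1) (.e (nat_lit 59284) (nat_lit 0) .nil) .nil))) 
(.lf (nat_lit 462554) (.g (nat_lit 1404) (.e (nat_lit 3044) (nat_lit 189) (.e (nat_lit 466977) (nat_lit 22) (.e (nat_lit 196668) (nat_lit 14) (.e (nat_lit 73733) (nat_lit 0) .nil)))) (.g (nat_lit 0) (.e (nat_lit 66817) (nat_lit 0) .nil) .nil)))) (.nd (nat_lit 9) 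
(.lf (nat_lit 462298) (.g (nat_lit 2153) (.e (nat_lit 2988) (nat_lit 186) (.e (nat_lit 442390) (nat_lit 11) (.e (nat_lit 336232) (nat_lit 14) (.e (nat_lit 401446) (nat_lit 10) (.e (nat_lit 434287) (nat_lit 43) .nil))))) (.g (nat_lit 0) (.e (nat_lit 61354) (nat_lit 0) .nil) .nil))) 
(.lf (nat_lit 462810) (.g (nat_lit 4138) (.e (nat_lit 3062) (nat_lit 190) (.e (nat_lit 475185) (nat_lit 29) (.e (nat_lit 557107) (nat_lit 15) (.e (nat_lit 188450) (nat_lit 23) (.e (nat_lit 204819) (nat_lit 17) (.e (nat_lit 6664) (nat_lit 357) .nil)))))) (.g (nat_lit 1) (.e (nat_lit 67437) (nat_lit 0) .nil) .nil))))))) (.nd (nat_lit 6) (.nd (nat_lit 7) (.nd (nat_lit 8) (.nd (nat_lit 9) 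
(.lf (nat_lit 461882) (.g (nat_lit 3428) (.e (nat_lit 2928) (nat_lit 184) (.e (nat_lit 426139) (nat_lit 3) (.e (nat_lit 204869) (nat_lit 29) (.e (nat_lit 360475) (nat_lit 8) (.e (nat_lit 557090) (nat_lit 12) .nil))))) (.g (nat_lit 0) (.e (nat_lit 58970) (nat_lit 0) .nil) .nil))) 
(.lf (nat_lit 462394) (.g (nat_lit 2496) (.e (nat_lit 3015) (nat_lit 187) (.e (nat_lit 450563) (nat_lit 0) (.e (nat_lit 6830) (nat_lit 367) (.e (nat_lit 57427) (nat_lit 15) (.e (nat_lit 360477) (nat_lit 11) (.e (nat_lit 581636) (nat_lit 0) .nil)))))) (.g (nat_lit 1) (.e (nat_lit 62975) (nat_lit 0) .nil) .nil)))) (.nd (nat_lit 9) 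
(.lf (nat_lit 462138) (.g (nat_lit 3129) (.e (nat_lit 2964) (nat_lit 185) (.e (nat_lit 434231) (nat_lit 23) (.e (nat_lit 532549) (nat_lit 12) (.e (nat_lit 360474) (nat_lit 8) (.e (nat_lit 557091) (nat_lit 12) .nil))))) (.g (nat_lit 0) (.e (nat_lit 60167) (nat_lit 0) .nil) .nil))) 
(.lf (nat_lit 462650) (.g (nat_lit 3252) (.e (nat_lit 3062) (nat_lit 190) (.e (nat_lit 475179) (nat_lit 24) (.e (nat_lit 516162) (nat_lit 11) (.e (nat_lit 442391) (nat_lit 19) (.e (nat_lit 401414) (nat_lit 0) (.e (nat_lit 3459) (nat_lit 216) (.e (nat_lit 688139) (nat_lit 5) .nil))))))) (.g (nat_lit 1) (.e (nat_lit 67241) (nat_lit 0) .nil) .nil))))) (.nd (nat_lit 8) (.nd (nat_lit 9) 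
(.lf (nat_lit 462010) (.g (nat_lit 3324) (.e (nat_lit 2939) (nat_lit 184) (.e (nat_lit 426503) (nat_lit 27) (.e (nat_lit 336231) (nat_lit 14) (.e (nat_lit 401458) (nat_lit 13) (.e (nat_lit 483354) (nat_lit 17) (.e (nat_lit 6674) (nat_lit 357) .nil)))))) (.g (nat_lit 1) (.e (nat_lit 59248) (nat_lit 0) .nil) .nil))) 
(.lf (nat_lit 462522) (.g (nat_lit 3389) (.e (nat_lit 3027) (nat_lit 187) (.e (nat_lit 450579) (nat_lit 5) (.e (nat_lit 532569) (nat_lit 16) (.e (nat_lit 401448) (nat_lit 10) (.e (nat_lit 434238) (nat_lit 25) (.e (nat_lit 548896) (nat_lit 14) .nil)))))) (.g (nat_lit 1) (.e (nat_lit 66095) (nat_lit 0) .nil) .nil)))) (.nd (nat_lit 9) 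
(.lf (nat_lit 462266) (.g (nat_lit 1474) (.e (nat_lit 2982) (nat_lit 186) (.e (nat_lit 442374) (nat_lit 0) (.e (nat_lit 2059) (nat_lit 142) (.e (nat_lit 704598) (nat_lit 6) .nil)))) (.g (nat_lit 0) (.e (nat_lit 61040) (nat_lit 0) .nil) .nil))) 
(.lf (nat_lit 462778) (.g (nat_lit 2563) (.e (nat_lit 3062) (nat_lit 190) (.e (nat_lit 475185) (nat_lit 29) (.e (nat_lit 557101) (nat_lit 13) (.e (nat_lit 172115) (nat_lit 10) (.e (nat_lit 434227) (nat_lit 20) (.e (nat_lit 507930) (nat_lit 10) (.e (nat_lit 5655) (nat_lit 312) .nil))))))) (.g (nat_lit 1) (.e (nat_lit 67402) (nat_lit 0) .nil) .nil)))))) 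
(.nd (nat_lit 7) (.nd (nat_lit 8) (.nd (nat_lit 9) 
(.lf (nat_lit 461946) (.g (nat_lit 2116) (.e (nat_lit 2936) (nat_lit 184) (.e (nat_lit 426401) (nat_lit 15) (.e (nat_lit 1848) (nat_lit 124) (.e (nat_lit 557107) (nat_lit 15) (.e (nat_lit 188447) (nat_lit 22) (.e (nat_lit 196661) (nat_lit 12) (.e (nat_lit 57749) (nat_lit 201) .nil))))))) (.g (nat_lit 1) (.e (nat_lit 59148) (nat_lit 0) .nil) .nil))) 
(.lf (nat_lit 462458) (.g (nat_lit 509) (.e (nat_lit 3021) (nat_lit 187) (.e (nat_lit 450584) (nat_lit 9) (.e (nat_lit 565251) (nat_lit 0) .nil))) (.g (nat_lit 0) (.e (nat_lit 64464) (nat_lit 0) .nil) .nil)))) (.nd (nat_lit 9) 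
(.lf (nat_lit 462202) (.g (nat_lit 2280) (.e (nat_lit 2975) (nat_lit 185) (.e (nat_lit 434231) (nat_lit 23) (.e (nat_lit 532550) (nat_lit 12) (.e (nat_lit 360475) (nat_lit 8) .nil)))) (.g (nat_lit 0) (.e (nat_lit 60519) (nat_lit 0) .nil) .nil))) 
(.lf (nat_lit 462714) (.g (nat_lit 3556) (.e (nat_lit 3062) (nat_lit 190) (.e (nat_lit 475185) (nat_lit 29) (.e (nat_lit 557100) (nat_lit 13) (.e (nat_lit 172106) (nat_lit 10) (.e (nat_lit 434231) (nat_lit 23) (.e (nat_lit 532481) (nat_lit 0) (.e (nat_lit 6626) (nat_lit 357) .nil))))))) (.g (nat_lit 1) (.e (nat_lit 67338) (nat_lit 0) .nil) .nil))))) (.nd (nat_lit 8) (.nd (nat_lit 9) 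
(.lf (nat_lit 462074) (.g (nat_lit 3912) (.e (nat_lit 2949) (nat_lit 184) (.e (nat_lit 426316) (nat_lit 12) (.e (nat_lit 475185) (nat_lit 29) (.e (nat_lit 557098) (nat_lit 13) (.e (nat_lit 172126) (nat_lit 14) .nil))))) (.g (nat_lit 0) (.e (nat_lit 59363) (nat_lit 0) .nil) .nil))) 
(.lf (nat_lit 462586) (.g (nat_lit 2659) (.e (nat_lit 3055) (nat_lit 190) (.e (nat_lit 475185) (nat_lit 29) (.e (nat_lit 557101) (nat_lit 13) (.e (nat_lit 172115) (nat_lit 10) (.e (nat_lit 434231) (nat_lit 23) (.e (nat_lit 532482) (nat_lit 0) (.e (nat_lit 6696) (nat_lit 357) .nil))))))) (.g (nat_lit 1) (.e (nat_lit 66993) (nat_lit 0) .nil) .nil)))) (.nd (nat_lit 9) 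
(.lf (nat_lit 462330) (.g (nat_lit 1444) (.e (nat_lit 3004) (nat_lit 186) (.e (nat_lit 442374) (nat_lit 0) (.e (nat_lit 2059) (nat_lit 142) (.e (nat_lit 704599) (nat_lit 6) (.e (nat_lit 196352) (nat_lit 8) (.e (nat_lit 163584) (nat_lit 0) .nil)))))) (.g (nat_lit 1) (.e (nat_lit 62036) (nat_lit 0) .nil) .nil))) 
(.lf (nat_lit 462842) (.g (nat_lit 3905) (.e (nat_lit 3062) (nat_lit 190) (.e (nat_lit 475185) (nat_lit 29) (.e (nat_lit 557109) (nat_lit 15) (.e (nat_lit 188452) (nat_lit 23) (.e (nat_lit 204830) (nat_lit 18) (.e (nat_lit 57762) (nat_lit 215) (.e (nat_lit 2505) (nat_lit 157) .nil))))))) (.g (nat_lit 1) (.e (nat_lit 67469) (nat_lit 0) .nil) .nil)))))))))) 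
(.nd (nat_lit 3) (.nd (nat_lit 4) (.nd (nat_lit 5) (.nd (nat_lit 6) (.nd (nat_lit 7) 
(.nd (nat_lit 8) (.nd (nat_lit 9) 
(.lf (nat_lit 461830) (.g (nat_lit 3976) (.e (nat_lit 2884) (nat_lit 184) (.e (nat_lit 426339) (nat_lit 14) (.e (nat_lit 491537) (nat_lit 2) (.e (nat_lit 90170) (nat_lit 13) (.e (nat_lit 172113) (nat_lit 10) (.e (nat_lit 434238) (nat_lit 25) (.e (nat_lit 548896) (nat_lit 14) .nil))))))) (.g (nat_lit 1) (.e (nat_lit 58796) (nat_lit 0) .nil) .nil))) 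
(.lf (nat_lit 462342) (.g (nat_lit 1835) (.e (nat_lit 3004) (nat_lit 186) (.e (nat_lit 442379) (nat_lit 0) (.e (nat_lit 1856) (nat_lit 124) (.e (nat_lit 557101) (nat_lit 13) (.e (nat_lit 172115) (nat_lit 10) .nil))))) (.g (nat_lit 0) (.e (nat_lit 62048) (nat_lit 0) .nil) .nil)))) (.nd (nat_lit 9) 
(.lf (nat_lit 462086) (.g (nat_lit 2774) (.e (nat_lit 2946) (nat_lit 184) (.e (nat_lit 426306) (nat_lit 12) (.e (nat_lit 475185) (nat_lit 29) (.e (nat_lit 557107) (nat_lit 15) (.e (nat_lit 188439) (nat_lit 20) .nil))))) (.g (nat_lit 0) (.e (nat_lit 59470) (nat_lit 0) .nil) .nil))) 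
(.lf (nat_lit 462598) (.g (nat_lit 2977) (.e (nat_lit 3058) (nat_lit 190) (.e (nat_lit 475185) (nat_lit 29) (.e (nat_lit 557101) (nat_lit 13) (.e (nat_lit 172097) (nat_lit 9) (.e (nat_lit 426125) (nat_lit 2) .nil))))) (.g (nat_lit 0) (.e (nat_lit 67050) (nat_lit 0) .nil) .nil))))) (.nd (nat_lit 8) (.nd (nat_lit 9) 
(.lf (nat_lit 461958) (.g (nat_lit 2703) (.e (nat_lit 2936) (nat_lit 184) (.e (nat_lit 426503) (nat_lit 27) (.e (nat_lit 336226) (nat_lit 14) (.e (nat_lit 401437) (nat_lit 9) (.e (nat_lit 426533) (nat_lit 28) (.e (nat_lit 344067) (nat_lit 0) .nil)))))) (.g (nat_lit 1) (.e (nat_lit 59162) (nat_lit 0) .nil) .nil))) 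
(.lf (nat_lit 462470) (.g (nat_lit 836) (.e (nat_lit 3022) (nat_lit 187) (.e (nat_lit 458496) (nat_lit 0) (.e (nat_lit 5200) (nat_lit 294) (.e (nat_lit 57427) (nat_lit 15) (.e (nat_lit 360480) (nat_lit 14) (.e (nat_lit 638986) (nat_lit 5) .nil)))))) (.g (nat_lit 1) (.e (nat_lit 64813) (nat_lit 0) .nil) .nil)))) (.nd (nat_lit 9) 
(.lf (nat_lit 462214) (.g (nat_lit 2622) (.e (nat_lit 2978) (nat_lit 185) (.e (nat_lit 434231) (nat_lit 23) (.e (nat_lit 532550) (nat_lit 12) (.e (nat_lit 360475) (nat_lit 8) (.e (nat_lit 557089) (nat_lit 12) .nil))))) (.g (nat_lit 0) (.e (nat_lit 60705) (nat_lit 0) .nil) .nil))) 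
(.lf (nat_lit 462726) (.g (nat_lit 3486) (.e (nat_lit 3062) (nat_lit 190) (.e (nat_lit 475185) (nat_lit 29) (.e (nat_lit 557100) (nat_lit 13) (.e (nat_lit 172106) (nat_lit 10) (.e (nat_lit 434231) (nat_lit 23) (.e (nat_lit 532499) (nat_lit 1) (.e (nat_lit 57762) (nat_lit 215) (.e (nat_lit 2508) (nat_lit 157) .nil)))))))) (.g (nat_lit 1) (.e (nat_lit 67350) (nat_lit 0) .nil) .nil)))))) 
(.nd (nat_lit 7) (.nd (nat_lit 8) (.nd (nat_lit 9) 
(.lf (nat_lit 461894) (.g (nat_lit 3186) (.e (nat_lit 2936) (nat_lit 184) (.e (nat_lit 426129) (nat_lit 3) (.e (nat_lit 204885) (nat_lit 33) (.e (nat_lit 401434) (nat_lit 9) (.e (nat_lit 426140) (nat_lit 3) (.e (nat_lit 204821) (nat_lit 17) (.e (nat_lit 6674) (nat_lit 357) .nil))))))) (.g (nat_lit 1) (.e (nat_lit 59026) (nat_lit 0) .nil) .nil))) 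
(.lf (nat_lit 462406) (.g (nat_lit 3139) (.e (nat_lit 3015) (nat_lit 187) (.e (nat_lit 450597) (nat_lit 17) (.e (nat_lit 663583) (nat_lit 11) (.e (nat_lit 24640) (nat_lit 10) (.e (nat_lit 344156) (nat_lit 36) (.e (nat_lit 638985) (nat_lit 5) .nil)))))) (.g (nat_lit 1) (.e (nat_lit 63362) (nat_lit 0) .nil) .nil)))) (.nd (nat_lit 9) 
(.lf (nat_lit 462150) (.g (nat_lit 3966) (.e (nat_lit 2964) (nat_lit 185) (.e (nat_lit 434231) (nat_lit 23) (.e (nat_lit 532550) (nat_lit 12) (.e (nat_lit 360474) (nat_lit 8) (.e (nat_lit 557088) (nat_lit 12) (.e (nat_lit 164020) (nat_lit 45) (.e (nat_lit 696329) (nat_lit 5) .nil))))))) (.g (nat_lit 1) (.e (nat_lit 60183) (nat_lit 0) .nil) .nil))) 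
(.lf (nat_lit 462662) (.g (nat_lit 1524) (.e (nat_lit 3062) (nat_lit 190) (.e (nat_lit 475179) (nat_lit 24) (.e (nat_lit 516176) (nat_lit 14) (.e (nat_lit 466952) (nat_lit 11) .nil)))) (.g (nat_lit 0) (.e (nat_lit 67280) (nat_lit 0) .nil) .nil))))) (.nd (nat_lit 8) (.nd (nat_lit 9) 
(.lf (nat_lit 462022) (.g (nat_lit 2272) (.e (nat_lit 2940) (nat_lit 184) (.e (nat_lit 426401) (nat_lit 15) (.e (nat_lit 1859) (nat_lit 124) (.e (nat_lit 557107) (nat_lit 15) (.e (nat_lit 188447) (nat_lit 22) (.e (nat_lit 196661) (nat_lit 12) (.e (nat_lit 57748) (nat_lit 201) .nil))))))) (.g (nat_lit 1) (.e (nat_lit 59263) (nat_lit 0) .nil) .nil))) 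
(.lf (nat_lit 462534) (.g (nat_lit 2261) (.e (nat_lit 3028) (nat_lit 187) (.e (nat_lit 450579) (nat_lit 5) (.e (nat_lit 532569) (nat_lit 16) (.e (nat_lit 401448) (nat_lit 10) (.e (nat_lit 434238) (nat_lit 25) (.e (nat_lit 548898) (nat_lit 14) .nil)))))) (.g (nat_lit 1) (.e (nat_lit 66484) (nat_lit 0) .nil) .nil)))) (.nd (nat_lit 9) 
(.lf (nat_lit 462278) (.g (nat_lit 1113) (.e (nat_lit 2988) (nat_lit 186) (.e (nat_lit 442374) (nat_lit 0) (.e (nat_lit 2059) (nat_lit 142) (.e (nat_lit 704598) (nat_lit 6) .nil)))) (.g (nat_lit 0) (.e (nat_lit 61296) (nat_lit 0) .nil) .nil))) 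
(.lf (nat_lit 462790) (.g (nat_lit 4679) (.e (nat_lit 3062) (nat_lit 190) (.e (nat_lit 475185) (nat_lit 29) (.e (nat_lit 557101) (nat_lit 13) (.e (nat_lit 172115) (nat_lit 10) (.e (nat_lit 434231) (nat_lit 23) (.e (nat_lit 532481) (nat_lit 0) (.e (nat_lit 6668) (nat_lit 357) .nil))))))) (.g (nat_lit 1) (.e (nat_lit 67414) (nat_lit 0) .nil) .nil))))))) 
(.nd (nat_lit 6) (.nd (nat_lit 7) (.nd (nat_lit 8) (.nd (nat_lit 9) 
(.lf (nat_lit 461862) (.g (nat_lit 2999) (.e (nat_lit 2902) (nat_lit 184) (.e (nat_lit 426435) (nat_lit 18) (.e (nat_lit 98386) (nat_lit 32) (.e (nat_lit 475177) (nat_lit 24) (.e (nat_lit 516146) (nat_lit 9) (.e (nat_lit 426428) (nat_lit 17) (.e (nat_lit 90133) (nat_lit 9) .nil))))))) (.g (nat_lit 1) (.e (nat_lit 58856) (nat_lit 0) .nil) .nil))) 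
(.lf (nat_lit 462374) (.g (nat_lit 943) (.e (nat_lit 3011) (nat_lit 187) (.e (nat_lit 450605) (nat_lit 27) (.e (nat_lit 745475) (nat_lit 0) (.e (nat_lit 1595) (nat_lit 111) (.e (nat_lit 368384) (nat_lit 10) (.e (nat_lit 573444) (nat_lit 0) .nil)))))) (.g (nat_lit 1) (.e (nat_lit 62607) (nat_lit 0) .nil) .nil)))) (.nd (nat_lit 9) 
(.lf (nat_lit 462118) (.g (nat_lit 555) (.e (nat_lit 2962) (nat_lit 185) (.e (nat_lit 434275) (nat_lit 39) (.e (nat_lit 663567) (nat_lit 4) .nil))) (.g (nat_lit 0) (.e (nat_lit 59926) (nat_lit 0) .nil) .nil))) 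
(.lf (nat_lit 462630) (.g (nat_lit 1770) (.e (nat_lit 3062) (nat_lit 190) (.e (nat_lit 475177) (nat_lit 24) (.e (nat_lit 516150) (nat_lit 9) (.e (nat_lit 426320) (nat_lit 12) .nil)))) (.g (nat_lit 0) (.e (nat_lit 67116) (nat_lit 0) .nil) .nil))))) (.nd (nat_lit 8) (.nd (nat_lit 9) 
(.lf (nat_lit 461990) (.g (nat_lit 2410) (.e (nat_lit 2939) (nat_lit 184) (.e (nat_lit 426419) (nat_lit 15) (.e (nat_lit 1856) (nat_lit 124) (.e (nat_lit 557107) (nat_lit 15) (.e (nat_lit 188450) (nat_lit 23) (.e (nat_lit 204821) (nat_lit 17) (.e (nat_lit 6674) (nat_lit 357) .nil))))))) (.g (nat_lit 1) (.e (nat_lit 59223) (nat_lit 0) .nil) .nil))) 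
(.lf (nat_lit 462502) (.g (nat_lit 4948) (.e (nat_lit 3025) (nat_lit 187) (.e (nat_lit 450579) (nat_lit 5) (.e (nat_lit 532522) (nat_lit 7) (.e (nat_lit 319531) (nat_lit 16) (.e (nat_lit 286733) (nat_lit 2) (.e (nat_lit 90134) (nat_lit 9) .nil)))))) (.g (nat_lit 1) (.e (nat_lit 65271) (nat_lit 0) .nil) .nil)))) (.nd (nat_lit 9) 
(.lf (nat_lit 462246) (.g (nat_lit 2554) (.e (nat_lit 2980) (nat_lit 185) (.e (nat_lit 434235) (nat_lit 24) (.e (nat_lit 540706) (nat_lit 12) (.e (nat_lit 360475) (nat_lit 8) (.e (nat_lit 557090) (nat_lit 12) (.e (nat_lit 164020) (nat_lit 45) (.e (nat_lit 696328) (nat_lit 5) .nil))))))) (.g (nat_lit 1) (.e (nat_lit 60955) (nat_lit 0) .nil) .nil))) 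
(.lf (nat_lit 462758) (.g (nat_lit 2764) (.e (nat_lit 3062) (nat_lit 190) (.e (nat_lit 475185) (nat_lit 29) (.e (nat_lit 557101) (nat_lit 13) (.e (nat_lit 172097) (nat_lit 9) (.e (nat_lit 426140) (nat_lit 3) (.e (nat_lit 212736) (nat_lit 17) (.e (nat_lit 6625) (nat_lit 357) .nil))))))) (.g (nat_lit 1) (.e (nat_lit 67382) (nat_lit 0) .nil) .nil)))))) 
(.nd (nat_lit 7) (.nd (nat_lit 8) (.nd (nat_lit 9) 
(.lf (nat_lit 461926) (.g (nat_lit 3749) (.e (nat_lit 2936) (nat_lit 184) (.e (nat_lit 426163) (nat_lit 6) (.e (nat_lit 253991) (nat_lit 11) (.e (nat_lit 16466) (nat_lit 13) (.e (nat_lit 483354) (nat_lit 17) (.e (nat_lit 6674) (nat_lit 357) .nil)))))) (.g (nat_lit 1) (.e (nat_lit 59097) (nat_lit 0) .nil) .nil))) 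
(.lf (nat_lit 462438) (.g (nat_lit 2541) (.e (nat_lit 3019) (nat_lit 187) (.e (nat_lit 450579) (nat_lit 5) (.e (nat_lit 532523) (nat_lit 7) (.e (nat_lit 319530) (nat_lit 16) .nil)))) (.g (nat_lit 0) (.e (nat_lit 64274) (nat_lit 0) .nil) .nil)))) (.nd (nat_lit 9) 
(.lf (nat_lit 462182) (.g (nat_lit 960) (.e (nat_lit 2974) (nat_lit 185) (.e (nat_lit 434231) (nat_lit 23) (.e (nat_lit 532549) (nat_lit 12) .nil))) (.g (nat_lit 0) (.e (nat_lit 60444) (nat_lit 0) .nil) .nil))) 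
(.lf (nat_lit 462694) (.g (nat_lit 1971) (.e (nat_lit 3062) (nat_lit 190) (.e (nat_lit 475185) (nat_lit 29) (.e (nat_lit 557100) (nat_lit 13) (.e (nat_lit 172106) (nat_lit 10) (.e (nat_lit 434227) (nat_lit 20) (.e (nat_lit 507928) (nat_lit 10) (.e (nat_lit 5663) (nat_lit 312) .nil))))))) (.g (nat_lit 1) (.e (nat_lit 67318) (nat_lit 0) .nil) .nil))))) (.nd (nat_lit 8) (.nd (nat_lit 9) 
(.lf (nat_lit 462054) (.g (nat_lit 3489) (.e (nat_lit 2945) (nat_lit 184) (.e (nat_lit 426123) (nat_lit 2) (.e (nat_lit 196666) (nat_lit 13) (.e (nat_lit 65617) (nat_lit 10) (.e (nat_lit 344130) (nat_lit 26) .nil))))) (.g (nat_lit 0) (.e (nat_lit 59308) (nat_lit 0) .nil) .nil))) 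
(.lf (nat_lit 462566) (.g (nat_lit 1158) (.e (nat_lit 3044) (nat_lit 189) (.e (nat_lit 466981) (nat_lit 23) (.e (nat_lit 204861) (nat_lit 26) (.e (nat_lit 335988) (nat_lit 1) (.e (nat_lit 57931) (nat_lit 282) .nil))))) (.g (nat_lit 0) (.e (nat_lit 66870) (nat_lit 0) .nil) .nil)))) (.nd (nat_lit 9) 
(.lf (nat_lit 462310) (.g (nat_lit 1966) (.e (nat_lit 3002) (nat_lit 186) (.e (nat_lit 442374) (nat_lit 0) (.e (nat_lit 1856) (nat_lit 124) (.e (nat_lit 557105) (nat_lit 14) (.e (nat_lit 180278) (nat_lit 32) .nil))))) (.g (nat_lit 0) (.e (nat_lit 61848) (nat_lit 0) .nil) .nil))) 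
(.lf (nat_lit 462822) (.g (nat_lit 6131) (.e (nat_lit 3062) (nat_lit 190) (.e (nat_lit 475185) (nat_lit 29) (.e (nat_lit 557109) (nat_lit 15) (.e (nat_lit 188449) (nat_lit 22) (.e (nat_lit 196700) (nat_lit 22) .nil))))) (.g (nat_lit 0) (.e (nat_lit 67449) (nat_lit 0) .nil) .nil)))))))) (.nd (nat_lit 5) (.nd (nat_lit 6) (.nd (nat_lit 7) (.nd (nat_lit 8) (.nd (nat_lit 9) 
(.lf (nat_lit 461846) (.g (nat_lit 1262) (.e (nat_lit 2897) (nat_lit 184) (.e (nat_lit 426506) (nat_lit 27) (.e (nat_lit 336200) (nat_lit 12) (.e (nat_lit 385094) (nat_lit 49) (.e (nat_lit 778323) (nat_lit 5) .nil))))) (.g (nat_lit 0) (.e (nat_lit 58834) (nat_lit 0) .nil) .nil))) 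
(.lf (nat_lit 462358) (.g (nat_lit 526) (.e (nat_lit 3005) (nat_lit 186) (.e (nat_lit 442390) (nat_lit 11) (.e (nat_lit 336232) (nat_lit 14) .nil))) (.g (nat_lit 0) (.e (nat_lit 62142) (nat_lit 0) .nil) .nil)))) (.nd (nat_lit 9) 
(.lf (nat_lit 462102) (.g (nat_lit 3276) (.e (nat_lit 2947) (nat_lit 184) (.e (nat_lit 426139) (nat_lit 3) (.e (nat_lit 204869) (nat_lit 29) (.e (nat_lit 360474) (nat_lit 8) (.e (nat_lit 557091) (nat_lit 12) .nil))))) (.g (nat_lit 0) (.e (nat_lit 59602) (nat_lit 0) .nil) .nil))) 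
(.lf (nat_lit 462614) (.g (nat_lit 2765) (.e (nat_lit 3060) (nat_lit 190) (.e (nat_lit 475185) (nat_lit 29) (.e (nat_lit 557109) (nat_lit 15) (.e (nat_lit 188449) (nat_lit 22) (.e (nat_lit 196661) (nat_lit 12) .nil))))) (.g (nat_lit 0) (.e (nat_lit 67078) (nat_lit 0) .nil) .nil))))) (.nd (nat_lit 8) (.nd (nat_lit 9) 
(.lf (nat_lit 461974) (.g (nat_lit 1110) (.e (nat_lit 2938) (nat_lit 184) (.e (nat_lit 426318) (nat_lit 12) (.e (nat_lit 475179) (nat_lit 24) (.e (nat_lit 516131) (nat_lit 3) .nil)))) (.g (nat_lit 0) (.e (nat_lit 59180) (nat_lit 0) .nil) .nil))) 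
(.lf (nat_lit 462486) (.g (nat_lit 4692) (.e (nat_lit 3022) (nat_lit 187) (.e (nat_lit 450580) (nat_lit 5) (.e (nat_lit 532566) (nat_lit 15) (.e (nat_lit 385093) (nat_lit 49) (.e (nat_lit 778317) (nat_lit 3) (.e (nat_lit 57480) (nat_lit 28) (.e (nat_lit 557067) (nat_lit 9) .nil))))))) (.g (nat_lit 1) (.e (nat_lit 64910) (nat_lit 0) .nil) .nil)))) (.nd (nat_lit 9) 
(.lf (nat_lit 462230) (.g (nat_lit 3340) (.e (nat_lit 2980) (nat_lit 185) (.e (nat_lit 434231) (nat_lit 23) (.e (nat_lit 532549) (nat_lit 12) (.e (nat_lit 360474) (nat_lit 8) (.e (nat_lit 557091) (nat_lit 12) (.e (nat_lit 164020) (nat_lit 45) (.e (nat_lit 696327) (nat_lit 5) .nil))))))) (.g (nat_lit 1) (.e (nat_lit 60917) (nat_lit 0) .nil) .nil))) 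
(.lf (nat_lit 462742) (.g (nat_lit 3469) (.e (nat_lit 3062) (nat_lit 190) (.e (nat_lit 475185) (nat_lit 29) (.e (nat_lit 557100) (nat_lit 13) (.e (nat_lit 172113) (nat_lit 10) (.e (nat_lit 434227) (nat_lit 20) (.e (nat_lit 515840) (nat_lit 10) (.e (nat_lit 5664) (nat_lit 312) .nil))))))) (.g (nat_lit 1) (.e (nat_lit 67366) (nat_lit 0) .nil) .nil)))))) 
(.nd (nat_lit 7) (.nd (nat_lit 8) (.nd (nat_lit 9) 
(.lf (nat_lit 461910) (.g (nat_lit 2968) (.e (nat_lit 2936) (nat_lit 184) (.e (nat_lit 426163) (nat_lit 6) (.e (nat_lit 253991) (nat_lit 11) (.e (nat_lit 16434) (nat_lit 9) (.e (nat_lit 426533) (nat_lit 28) .nil))))) (.g (nat_lit 0) (.e (nat_lit 59079) (nat_lit 0) .nil) .nil))) 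
(.lf (nat_lit 462422) (.g (nat_lit 2582) (.e (nat_lit 3016) (nat_lit 187) (.e (nat_lit 450579) (nat_lit 5) (.e (nat_lit 532569) (nat_lit 16) (.e (nat_lit 401448) (nat_lit 10) (.e (nat_lit 434238) (nat_lit 25) (.e (nat_lit 548898) (nat_lit 14) .nil)))))) (.g (nat_lit 1) (.e (nat_lit 63882) (nat_lit 0) .nil) .nil)))) (.nd (nat_lit 9) 
(.lf (nat_lit 462166) (.g (nat_lit 2606) (.e (nat_lit 2965) (nat_lit 185) (.e (nat_lit 434231) (nat_lit 23) (.e (nat_lit 532549) (nat_lit 12) (.e (nat_lit 360475) (nat_lit 8) .nil)))) (.g (nat_lit 0) (.e (nat_lit 60332) (nat_lit 0) .nil) .nil))) 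
(.lf (nat_lit 462678) (.g (nat_lit 2283) (.e (nat_lit 3062) (nat_lit 190) (.e (nat_lit 475185) (nat_lit 29) (.e (nat_lit 557098) (nat_lit 13) (.e (nat_lit 172096) (nat_lit 9) .nil)))) (.g (nat_lit 0) (.e (nat_lit 67302) (nat_lit 0) .nil) .nil))))) (.nd (nat_lit 8) (.nd (nat_lit 9) 
(.lf (nat_lit 462038) (.g (nat_lit 3486) (.e (nat_lit 2941) (nat_lit 184) (.e (nat_lit 426401) (nat_lit 15) (.e (nat_lit 1859) (nat_lit 124) (.e (nat_lit 557098) (nat_lit 13) (.e (nat_lit 172097) (nat_lit 9) (.e (nat_lit 426125) (nat_lit 2) (.e (nat_lit 196661) (nat_lit 12) (.e (nat_lit 57748) (nat_lit 201) .nil)))))))) (.g (nat_lit 1) (.e (nat_lit 59279) (nat_lit 0) .nil) .nil))) 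
(.lf (nat_lit 462550) (.g (nat_lit 1469) (.e (nat_lit 3044) (nat_lit 189) (.e (nat_lit 466974) (nat_lit 22) (.e (nat_lit 196681) (nat_lit 17) (.e (nat_lit 131089) (nat_lit 1) (.e (nat_lit 57930) (nat_lit 282) (.e (nat_lit 163857) (nat_lit 0) (.e (nat_lit 7936) (nat_lit 200) (.e (nat_lit 557065) (nat_lit 9) .nil)))))))) (.g (nat_lit 1) (.e (nat_lit 66805) (nat_lit 0) .nil) .nil)))) 
(.nd (nat_lit 9) 
(.lf (nat_lit 462294) (.g (nat_lit 2499) (.e (nat_lit 2988) (nat_lit 186) (.e (nat_lit 442390) (nat_lit 11) (.e (nat_lit 336231) (nat_lit 14) (.e (nat_lit 401446) (nat_lit 10) (.e (nat_lit 434287) (nat_lit 43) .nil))))) (.g (nat_lit 0) (.e (nat_lit 61348) (nat_lit 0) .nil) .nil))) 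
(.lf (nat_lit 462806) (.g (nat_lit 1120) (.e (nat_lit 3062) (nat_lit 190) (.e (nat_lit 475185) (nat_lit 29) (.e (nat_lit 557107) (nat_lit 15) (.e (nat_lit 188450) (nat_lit 23) .nil)))) (.g (nat_lit 0) (.e (nat_lit 67433) (nat_lit 0) .nil) .nil))))))) (.nd (nat_lit 6) (.nd (nat_lit 7) (.nd (nat_lit 8) (.nd (nat_lit 9) 
(.lf (nat_lit 461878) (.g (nat_lit 658) (.e (nat_lit 2950) (nat_lit 184) (.e (nat_lit 426316) (nat_lit 12) (.e (nat_lit 475185) (nat_lit 29) .nil))) (.g (nat_lit 0) (.e (nat_lit 58939) (nat_lit 0) .nil) .nil))) 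
(.lf (nat_lit 462390) (.g (nat_lit 2357) (.e (nat_lit 3015) (nat_lit 187) (.e (nat_lit 450563) (nat_lit 0) (.e (nat_lit 6740) (nat_lit 365) (.e (nat_lit 1201) (nat_lit 88) (.e (nat_lit 65617) (nat_lit 10) (.e (nat_lit 344138) (nat_lit 29) (.e (nat_lit 581635) (nat_lit 0) .nil))))))) (.g (nat_lit 1) (.e (nat_lit 62969) (nat_lit 0) .nil) .nil)))) (.nd (nat_lit 9) 
(.lf (nat_lit 462134) (.g (nat_lit 4107) (.e (nat_lit 2964) (nat_lit 185) (.e (nat_lit 434231) (nat_lit 23) (.e (nat_lit 532549) (nat_lit 12) (.e (nat_lit 360473) (nat_lit 8) (.e (nat_lit 557091) (nat_lit 12) (.e (nat_lit 164020) (nat_lit 45) (.e (nat_lit 696330) (nat_lit 5) .nil))))))) (.g (nat_lit 1) (.e (nat_lit 60154) (nat_lit 0) .nil) .nil))) 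
(.lf (nat_lit 462646) (.g (nat_lit 987) (.e (nat_lit 3062) (nat_lit 190) (.e (nat_lit 475179) (nat_lit 24) (.e (nat_lit 516158) (nat_lit 9) .nil))) (.g (nat_lit 0) (.e (nat_lit 67195) (nat_lit 0) .nil) .nil))))) (.nd (nat_lit 8) (.nd (nat_lit 9) 
(.lf (nat_lit 462006) (.g (nat_lit 3518) (.e (nat_lit 2939) (nat_lit 184) (.e (nat_lit 426503) (nat_lit 27) (.e (nat_lit 336231) (nat_lit 14) (.e (nat_lit 401437) (nat_lit 9) (.e (nat_lit 426533) (nat_lit 28) (.e (nat_lit 344066) (nat_lit 0) .nil)))))) (.g (nat_lit 1) (.e (nat_lit 59243) (nat_lit 0) .nil) .nil))) 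
(.lf (nat_lit 462518) (.g (nat_lit 1336) (.e (nat_lit 3027) (nat_lit 187) (.e (nat_lit 450564) (nat_lit 0) (.e (nat_lit 5212) (nat_lit 295) (.e (nat_lit 122919) (nat_lit 15) (.e (nat_lit 360480) (nat_lit 14) (.e (nat_lit 638985) (nat_lit 5) .nil)))))) (.g (nat_lit 1) (.e (nat_lit 65764) (nat_lit 0) .nil) .nil)))) (.nd (nat_lit 9) 
(.lf (nat_lit 462262) (.g (nat_lit 3298) (.e (nat_lit 2981) (nat_lit 185) (.e (nat_lit 434231) (nat_lit 23) (.e (nat_lit 532550) (nat_lit 12) (.e (nat_lit 360474) (nat_lit 8) (.e (nat_lit 557093) (nat_lit 12) .nil))))) (.g (nat_lit 0) (.e (nat_lit 61034) (nat_lit 0) .nil) .nil))) 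
(.lf (nat_lit 462774) (.g (nat_lit 3015) (.e (nat_lit 3062) (nat_lit 190) (.e (nat_lit 475185) (nat_lit 29) (.e (nat_lit 557101) (nat_lit 13) (.e (nat_lit 172115) (nat_lit 10) (.e (nat_lit 434227) (nat_lit 20) (.e (nat_lit 507930) (nat_lit 10) (.e (nat_lit 5645) (nat_lit 312) .nil))))))) (.g (nat_lit 1) (.e (nat_lit 67398) (nat_lit 0) .nil) .nil)))))) 
(.nd (nat_lit 7) (.nd (nat_lit 8) (.nd (nat_lit 9) 
(.lf (nat_lit 461942) (.g (nat_lit 3784) (.e (nat_lit 2936) (nat_lit 184) (.e (nat_lit 426419) (nat_lit 15) (.e (nat_lit 1856) (nat_lit 124) (.e (nat_lit 557098) (nat_lit 13) (.e (nat_lit 172097) (nat_lit 9) (.e (nat_lit 426125) (nat_lit 2) (.e (nat_lit 196661) (nat_lit 12) (.e (nat_lit 57748) (nat_lit 201) .nil)))))))) (.g (nat_lit 1) (.e (nat_lit 59144) (nat_lit 0) .nil) .nil))) 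
(.lf (nat_lit 462454) (.g (nat_lit 3563) (.e (nat_lit 3021) (nat_lit 187) (.e (nat_lit 450579) (nat_lit 5) (.e (nat_lit 532566) (nat_lit 15) (.e (nat_lit 385093) (nat_lit 49) (.e (nat_lit 778317) (nat_lit 3) (.e (nat_lit 57476) (nat_lit 28) (.e (nat_lit 557067) (nat_lit 9) .nil))))))) (.g (nat_lit 1) (.e (nat_lit 64391) (nat_lit 0) .nil) .nil)))) (.nd (nat_lit 9) 
(.lf (nat_lit 462198) (.g (nat_lit 3196) (.e (nat_lit 2975) (nat_lit 185) (.e (nat_lit 434231) (nat_lit 23) (.e (nat_lit 532549) (nat_lit 12) (.e (nat_lit 360473) (nat_lit 8) (.e (nat_lit 557091) (nat_lit 12) .nil))))) (.g (nat_lit 0) (.e (nat_lit 60515) (nat_lit 0) .nil) .nil))) 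
(.lf (nat_lit 462710) (.g (nat_lit 2334) (.e (nat_lit 3062) (nat_lit 190) (.e (nat_lit 475185) (nat_lit 29) (.e (nat_lit 557100) (nat_lit 13) (.e (nat_lit 172106) (nat_lit 10) (.e (nat_lit 434227) (nat_lit 20) (.e (nat_lit 507936) (nat_lit 10) (.e (nat_lit 5664) (nat_lit 312) .nil))))))) (.g (nat_lit 1) (.e (nat_lit 67334) (nat_lit 0) .nil) .nil))))) (.nd (nat_lit 8) (.nd (nat_lit 9) 
(.lf (nat_lit 462070) (.g (nat_lit 2751) (.e (nat_lit 2949) (nat_lit 184) (.e (nat_lit 426306) (nat_lit 12) (.e (nat_lit 475177) (nat_lit 24) (.e (nat_lit 516131) (nat_lit 3) (.e (nat_lit 229120) (nat_lit 12) (.e (nat_lit 344107) (nat_lit 19) (.e (nat_lit 499825) (nat_lit 5) .nil))))))) (.g (nat_lit 1) (.e (nat_lit 59359) (nat_lit 0) .nil) .nil))) 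
(.lf (nat_lit 462582) (.g (nat_lit 2717) (.e (nat_lit 3055) (nat_lit 190) (.e (nat_lit 475185) (nat_lit 29) (.e (nat_lit 557101) (nat_lit 13) (.e (nat_lit 172115) (nat_lit 10) (.e (nat_lit 434231) (nat_lit 23) (.e (nat_lit 532481) (nat_lit 0) (.e (nat_lit 6642) (nat_lit 357) .nil))))))) (.g (nat_lit 1) (.e (nat_lit 66989) (nat_lit 0) .nil) .nil)))) (.nd (nat_lit 9) 
(.lf (nat_lit 462326) (.g (nat_lit 2282) (.e (nat_lit 3004) (nat_lit 186) (.e (nat_lit 442374) (nat_lit 0) (.e (nat_lit 2059) (nat_lit 142) (.e (nat_lit 704598) (nat_lit 6) (.e (nat_lit 188439) (nat_lit 20) (.e (nat_lit 3408) (nat_lit 212) (.e (nat_lit 655363) (nat_lit 0) .nil))))))) (.g (nat_lit 1) (.e (nat_lit 62032) (nat_lit 0) .nil) .nil))) 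
(.lf (nat_lit 462838) (.g (nat_lit 4807) (.e (nat_lit 3062) (nat_lit 190) (.e (nat_lit 475185) (nat_lit 29) (.e (nat_lit 557109) (nat_lit 15) (.e (nat_lit 188452) (nat_lit 23) (.e (nat_lit 204819) (nat_lit 17) (.e (nat_lit 6664) (nat_lit 357) .nil)))))) (.g (nat_lit 1) (.e (nat_lit 67465) (nat_lit 0) .nil) .nil))))))))) 
(.nd (nat_lit 4) (.nd (nat_lit 5) (.nd (nat_lit 6) (.nd (nat_lit 7) (.nd (nat_lit 8) 
(.nd (nat_lit 9) 
(.lf (nat_lit 461838) (.g (nat_lit 3940) (.e (nat_lit 2885) (nat_lit 184) (.e (nat_lit 426125) (nat_lit 2) (.e (nat_lit 196666) (nat_lit 13) (.e (nat_lit 65617) (nat_lit 10) (.e (nat_lit 344133) (nat_lit 26) .nil))))) (.g (nat_lit 0) (.e (nat_lit 58813) (nat_lit 0) .nil) .nil))) 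
(.lf (nat_lit 462350) (.g (nat_lit 2352) (.e (nat_lit 3004) (nat_lit 186) (.e (nat_lit 442390) (nat_lit 11) (.e (nat_lit 336231) (nat_lit 14) (.e (nat_lit 401448) (nat_lit 10) (.e (nat_lit 434287) (nat_lit 43) (.e (nat_lit 696329) (nat_lit 5) .nil)))))) (.g (nat_lit 1) (.e (nat_lit 62117) (nat_lit 0) .nil) .nil)))) (.nd (nat_lit 9) 
(.lf (nat_lit 462094) (.g (nat_lit 2631) (.e (nat_lit 2946) (nat_lit 184) (.e (nat_lit 426306) (nat_lit 12) (.e (nat_lit 475208) (nat_lit 41) (.e (nat_lit 712755) (nat_lit 30) (.e (nat_lit 450593) (nat_lit 16) (.e (nat_lit 655367) (nat_lit 0) .nil)))))) (.g (nat_lit 1) (.e (nat_lit 59485) (nat_lit 0) .nil) .nil))) 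
(.lf (nat_lit 462606) (.g (nat_lit 3059) (.e (nat_lit 3059) (nat_lit 190) (.e (nat_lit 475185) (nat_lit 29) (.e (nat_lit 557109) (nat_lit 15) (.e (nat_lit 188452) (nat_lit 23) (.e (nat_lit 204817) (nat_lit 17) .nil))))) (.g (nat_lit 0) (.e (nat_lit 67063) (nat_lit 0) .nil) .nil))))) (.nd (nat_lit 8) (.nd (nat_lit 9) 
(.lf (nat_lit 461966) (.g (nat_lit 1836) (.e (nat_lit 2936) (nat_lit 184) (.e (nat_lit 426508) (nat_lit 27) (.e (nat_lit 336228) (nat_lit 14) (.e (nat_lit 401438) (nat_lit 9) (.e (nat_lit 426533) (nat_lit 28) (.e (nat_lit 344066) (nat_lit 0) .nil)))))) (.g (nat_lit 1) (.e (nat_lit 59171) (nat_lit 0) .nil) .nil))) 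
(.lf (nat_lit 462478) (.g (nat_lit 2137) (.e (nat_lit 3022) (nat_lit 187) (.e (nat_lit 450580) (nat_lit 5) (.e (nat_lit 532523) (nat_lit 7) (.e (nat_lit 319505) (nat_lit 10) (.e (nat_lit 7936) (nat_lit 313) .nil))))) (.g (nat_lit 0) (.e (nat_lit 64841) (nat_lit 0) .nil) .nil)))) (.nd (nat_lit 9) 
(.lf (nat_lit 462222) (.g (nat_lit 1118) (.e (nat_lit 2980) (nat_lit 185) (.e (nat_lit 434231) (nat_lit 23) (.e (nat_lit 532549) (nat_lit 12) (.e (nat_lit 360473) (nat_lit 8) .nil)))) (.g (nat_lit 0) (.e (nat_lit 60899) (nat_lit 0) .nil) .nil))) 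
(.lf (nat_lit 462734) (.g (nat_lit 3359) (.e (nat_lit 3062) (nat_lit 190) (.e (nat_lit 475185) (nat_lit 29) (.e (nat_lit 557100) (nat_lit 13) (.e (nat_lit 172106) (nat_lit 10) (.e (nat_lit 434231) (nat_lit 23) (.e (nat_lit 532500) (nat_lit 1) (.e (nat_lit 57764) (nat_lit 215) (.e (nat_lit 2505) (nat_lit 157) .nil)))))))) (.g (nat_lit 1) (.e (nat_lit 67358) (nat_lit 0) .nil) .nil)))))) 
(.nd (nat_lit 7) (.nd (nat_lit 8) (.nd (nat_lit 9) 
(.lf (nat_lit 461902) (.g (nat_lit 295) (.e (nat_lit 2936) (nat_lit 184) (.e (nat_lit 426163) (nat_lit 6) (.e (nat_lit 253991) (nat_lit 11) .nil))) (.g (nat_lit 0) (.e (nat_lit 59064) (nat_lit 0) .nil) .nil))) 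
(.lf (nat_lit 462414) (.g (nat_lit 1626) (.e (nat_lit 3017) (nat_lit 187) (.e (nat_lit 450587) (nat_lit 10) (.e (nat_lit 573477) (nat_lit 12) (.e (nat_lit 57575) (nat_lit 55) .nil)))) (.g (nat_lit 0) (.e (nat_lit 63544) (nat_lit 0) .nil) .nil)))) (.nd (nat_lit 9) 
(.lf (nat_lit 462158) (.g (nat_lit 2627) (.e (nat_lit 2967) (nat_lit 185) (.e (nat_lit 434231) (nat_lit 23) (.e (nat_lit 532550) (nat_lit 12) (.e (nat_lit 360474) (nat_lit 8) .nil)))) (.g (nat_lit 0) (.e (nat_lit 60310) (nat_lit 0) .nil) .nil))) 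
(.lf (nat_lit 462670) (.g (nat_lit 3520) (.e (nat_lit 3062) (nat_lit 190) (.e (nat_lit 475179) (nat_lit 24) (.e (nat_lit 516176) (nat_lit 14) (.e (nat_lit 466954) (nat_lit 11) (.e (nat_lit 335995) (nat_lit 1) (.e (nat_lit 57653) (nat_lit 152) (.e (nat_lit 2503) (nat_lit 157) .nil))))))) (.g (nat_lit 1) (.e (nat_lit 67292) (nat_lit 0) .nil) .nil))))) (.nd (nat_lit 8) (.nd (nat_lit 9) 
(.lf (nat_lit 462030) (.g (nat_lit 1865) (.e (nat_lit 2940) (nat_lit 184) (.e (nat_lit 426532) (nat_lit 28) (.e (nat_lit 344068) (nat_lit 0) (.e (nat_lit 2857) (nat_lit 184) (.e (nat_lit 426533) (nat_lit 28) (.e (nat_lit 344066) (nat_lit 0) .nil)))))) (.g (nat_lit 1) (.e (nat_lit 59271) (nat_lit 0) .nil) .nil))) 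
(.lf (nat_lit 462542) (.g (nat_lit 3107) (.e (nat_lit 3035) (nat_lit 188) (.e (nat_lit 458789) (nat_lit 23) (.e (nat_lit 532569) (nat_lit 16) (.e (nat_lit 401448) (nat_lit 10) (.e (nat_lit 434232) (nat_lit 23) .nil))))) (.g (nat_lit 0) (.e (nat_lit 66732) (nat_lit 0) .nil) .nil)))) (.nd (nat_lit 9) 
(.lf (nat_lit 462286) (.g (nat_lit 2833) (.e (nat_lit 2988) (nat_lit 186) (.e (nat_lit 442374) (nat_lit 0) (.e (nat_lit 2059) (nat_lit 142) (.e (nat_lit 704599) (nat_lit 6) (.e (nat_lit 188440) (nat_lit 20) (.e (nat_lit 3408) (nat_lit 212) (.e (nat_lit 655364) (nat_lit 0) .nil))))))) (.g (nat_lit 1) (.e (nat_lit 61304) (nat_lit 0) .nil) .nil))) 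
(.lf (nat_lit 462798) (.g (nat_lit 3198) (.e (nat_lit 3062) (nat_lit 190) (.e (nat_lit 475185) (nat_lit 29) (.e (nat_lit 557101) (nat_lit 13) (.e (nat_lit 172115) (nat_lit 10) (.e (nat_lit 434231) (nat_lit 23) (.e (nat_lit 532482) (nat_lit 0) (.e (nat_lit 7936) (nat_lit 357) .nil))))))) (.g (nat_lit 1) (.e (nat_lit 67422) (nat_lit 0) .nil) .nil))))))) 
(.nd (nat_lit 6) (.nd (nat_lit 7) (.nd (nat_lit 8) (.nd (nat_lit 9) 
(.lf (nat_lit 461870) (.g (nat_lit 4515) (.e (nat_lit 2914) (nat_lit 184) (.e (nat_lit 426139) (nat_lit 3) (.e (nat_lit 204869) (nat_lit 29) (.e (nat_lit 360474) (nat_lit 8) (.e (nat_lit 557091) (nat_lit 12) (.e (nat_lit 164020) (nat_lit 45) (.e (nat_lit 696327) (nat_lit 5) .nil))))))) (.g (nat_lit 1) (.e (nat_lit 58891) (nat_lit 0) .nil) .nil))) 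
(.lf (nat_lit 462382) (.g (nat_lit 1248) (.e (nat_lit 3012) (nat_lit 187) (.e (nat_lit 450605) (nat_lit 27) (.e (nat_lit 745476) (nat_lit 0) (.e (nat_lit 1586) (nat_lit 111) (.e (nat_lit 368384) (nat_lit 10) (.e (nat_lit 573444) (nat_lit 0) .nil)))))) (.g (nat_lit 1) (.e (nat_lit 62840) (nat_lit 0) .nil) .nil)))) (.nd (nat_lit 9) 
(.lf (nat_lit 462126) (.g (nat_lit 4961) (.e (nat_lit 2964) (nat_lit 185) (.e (nat_lit 434231) (nat_lit 23) (.e (nat_lit 532549) (nat_lit 12) (.e (nat_lit 360472) (nat_lit 8) (.e (nat_lit 557090) (nat_lit 12) (.e (nat_lit 164020) (nat_lit 45) (.e (nat_lit 696329) (nat_lit 5) .nil))))))) (.g (nat_lit 1) (.e (nat_lit 60138) (nat_lit 0) .nil) .nil))) 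
(.lf (nat_lit 462638) (.g (nat_lit 2886) (.e (nat_lit 3062) (nat_lit 190) (.e (nat_lit 475179) (nat_lit 24) (.e (nat_lit 516146) (nat_lit 9) (.e (nat_lit 426320) (nat_lit 12) (.e (nat_lit 483072) (nat_lit 3) (.e (nat_lit 164017) (nat_lit 44) (.e (nat_lit 688138) (nat_lit 5) .nil))))))) (.g (nat_lit 1) (.e (nat_lit 67142) (nat_lit 0) .nil) .nil))))) (.nd (nat_lit 8) (.nd (nat_lit 9) 
(.lf (nat_lit 461998) (.g (nat_lit 2277) (.e (nat_lit 2939) (nat_lit 184) (.e (nat_lit 426401) (nat_lit 15) (.e (nat_lit 1859) (nat_lit 124) (.e (nat_lit 557107) (nat_lit 15) (.e (nat_lit 188447) (nat_lit 22) (.e (nat_lit 196661) (nat_lit 12) (.e (nat_lit 57748) (nat_lit 201) .nil))))))) (.g (nat_lit 1) (.e (nat_lit 59231) (nat_lit 0) .nil) .nil))) 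
(.lf (nat_lit 462510) (.g (nat_lit 1107) (.e (nat_lit 3026) (nat_lit 187) (.e (nat_lit 450561) (nat_lit 0) (.e (nat_lit 6830) (nat_lit 367) (.e (nat_lit 57426) (nat_lit 15) .nil)))) (.g (nat_lit 0) (.e (nat_lit 65377) (nat_lit 0) .nil) .nil)))) (.nd (nat_lit 9) 
(.lf (nat_lit 462254) (.g (nat_lit 2446) (.e (nat_lit 2981) (nat_lit 185) (.e (nat_lit 434231) (nat_lit 23) (.e (nat_lit 532549) (nat_lit 12) (.e (nat_lit 360475) (nat_lit 8) .nil)))) (.g (nat_lit 0) (.e (nat_lit 61026) (nat_lit 0) .nil) .nil))) 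
(.lf (nat_lit 462766) (.g (nat_lit 2525) (.e (nat_lit 3062) (nat_lit 190) (.e (nat_lit 475185) (nat_lit 29) (.e (nat_lit 557101) (nat_lit 13) (.e (nat_lit 172115) (nat_lit 10) (.e (nat_lit 434227) (nat_lit 20) (.e (nat_lit 507928) (nat_lit 10) (.e (nat_lit 5649) (nat_lit 312) .nil))))))) (.g (nat_lit 1) (.e (nat_lit 67390) (nat_lit 0) .nil) .nil)))))) 
(.nd (nat_lit 7) (.nd (nat_lit 8) (.nd (nat_lit 9) 
(.lf (nat_lit 461934) (.g (nat_lit 3360) (.e (nat_lit 2936) (nat_lit 184) (.e (nat_lit 426163) (nat_lit 6) (.e (nat_lit 253992) (nat_lit 11) (.e (nat_lit 16436) (nat_lit 9) (.e (nat_lit 426533) (nat_lit 28) (.e (nat_lit 344067) (nat_lit 0) .nil)))))) (.g (nat_lit 1) (.e (nat_lit 59111) (nat_lit 0) .nil) .nil))) 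
(.lf (nat_lit 462446) (.g (nat_lit 837) (.e (nat_lit 3020) (nat_lit 187) (.e (nat_lit 450584) (nat_lit 9) (.e (nat_lit 565268) (nat_lit 5) (.e (nat_lit 73789) (nat_lit 45) (.e (nat_lit 1163) (nat_lit 86) .nil))))) (.g (nat_lit 0) (.e (nat_lit 64337) (nat_lit 0) .nil) .nil)))) (.nd (nat_lit 9) 
(.lf (nat_lit 462190) (.g (nat_lit 3389) (.e (nat_lit 2974) (nat_lit 185) (.e (nat_lit 434231) (nat_lit 23) (.e (nat_lit 532550) (nat_lit 12) (.e (nat_lit 360474) (nat_lit 8) (.e (nat_lit 557093) (nat_lit 12) .nil))))) (.g (nat_lit 0) (.e (nat_lit 60452) (nat_lit 0) .nil) .nil))) 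
(.lf (nat_lit 462702) (.g (nat_lit 2848) (.e (nat_lit 3062) (nat_lit 190) (.e (nat_lit 475185) (nat_lit 29) (.e (nat_lit 557100) (nat_lit 13) (.e (nat_lit 172106) (nat_lit 10) (.e (nat_lit 434227) (nat_lit 20) (.e (nat_lit 507930) (nat_lit 10) (.e (nat_lit 5646) (nat_lit 312) .nil))))))) (.g (nat_lit 1) (.e (nat_lit 67326) (nat_lit 0) .nil) .nil))))) (.nd (nat_lit 8) (.nd (nat_lit 9) 
(.lf (nat_lit 462062) (.g (nat_lit 3765) (.e (nat_lit 2945) (nat_lit 184) (.e (nat_lit 426316) (nat_lit 12) (.e (nat_lit 475185) (nat_lit 29) (.e (nat_lit 557098) (nat_lit 13) (.e (nat_lit 172126) (nat_lit 14) .nil))))) (.g (nat_lit 0) (.e (nat_lit 59326) (nat_lit 0) .nil) .nil))) 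
(.lf (nat_lit 462574) (.g (nat_lit 2091) (.e (nat_lit 3055) (nat_lit 190) (.e (nat_lit 475179) (nat_lit 24) (.e (nat_lit 516146) (nat_lit 9) (.e (nat_lit 426436) (nat_lit 18) .nil)))) (.g (nat_lit 0) (.e (nat_lit 66978) (nat_lit 0) .nil) .nil)))) (.nd (nat_lit 9) 
(.lf (nat_lit 462318) (.g (nat_lit 2724) (.e (nat_lit 3004) (nat_lit 186) (.e (nat_lit 442374) (nat_lit 0) (.e (nat_lit 1856) (nat_lit 124) (.e (nat_lit 557107) (nat_lit 15) (.e (nat_lit 188440) (nat_lit 20) (.e (nat_lit 3272) (nat_lit 199) (.e (nat_lit 548897) (nat_lit 14) .nil))))))) (.g (nat_lit 1) (.e (nat_lit 62023) (nat_lit 0) .nil) .nil))) 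
(.lf (nat_lit 462830) (.g (nat_lit 3389) (.e (nat_lit 3062) (nat_lit 190) (.e (nat_lit 475185) (nat_lit 29) (.e (nat_lit 557109) (nat_lit 15) (.e (nat_lit 188452) (nat_lit 23) (.e (nat_lit 204815) (nat_lit 17) (.e (nat_lit 6622) (nat_lit 357) .nil)))))) (.g (nat_lit 1) (.e (nat_lit 67457) (nat_lit 0) .nil) .nil)))))))) 
(.nd (nat_lit 5) (.nd (nat_lit 6) (.nd (nat_lit 7) (.nd (nat_lit 8) (.nd (nat_lit 9) 
(.lf (nat_lit 461854) (.g (nat_lit 2529) (.e (nat_lit 2900) (nat_lit 184) (.e (nat_lit 426565) (nat_lit 34) (.e (nat_lit 393271) (nat_lit 23) (.e (nat_lit 426436) (nat_lit 18) (.e (nat_lit 98334) (nat_lit 18) (.e (nat_lit 164305) (nat_lit 226) (.e (nat_lit 2439) (nat_lit 157) .nil))))))) (.g (nat_lit 1) (.e (nat_lit 58847) (nat_lit 0) .nil) .nil))) 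
(.lf (nat_lit 462366) (.g (nat_lit 3715) (.e (nat_lit 3009) (nat_lit 187) (.e (nat_lit 450580) (nat_lit 5) (.e (nat_lit 532523) (nat_lit 7) (.e (nat_lit 319533) (nat_lit 16) (.e (nat_lit 286732) (nat_lit 2) (.e (nat_lit 90134) (nat_lit 9) .nil)))))) (.g (nat_lit 1) (.e (nat_lit 62183) (nat_lit 0) .nil) .nil)))) (.nd (nat_lit 9) 
(.lf (nat_lit 462110) (.g (nat_lit 1679) (.e (nat_lit 2958) (nat_lit 185) (.e (nat_lit 434231) (nat_lit 23) (.e (nat_lit 532569) (nat_lit 16) (.e (nat_lit 401448) (nat_lit 10) .nil)))) (.g (nat_lit 0) (.e (nat_lit 59687) (nat_lit 0) .nil) .nil))) 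
(.lf (nat_lit 462622) (.g (nat_lit 3092) (.e (nat_lit 3062) (nat_lit 190) (.e (nat_lit 483072) (nat_lit 26) (.e (nat_lit 532544) (nat_lit 10) (.e (nat_lit 344131) (nat_lit 26) (.e (nat_lit 557103) (nat_lit 14) (.e (nat_lit 180250) (nat_lit 10) (.e (nat_lit 573443) (nat_lit 0) .nil))))))) (.g (nat_lit 1) (.e (nat_lit 67108) (nat_lit 0) .nil) .nil))))) (.nd (nat_lit 8) (.nd (nat_lit 9) 
(.lf (nat_lit 461982) (.g (nat_lit 1441) (.e (nat_lit 2939) (nat_lit 184) (.e (nat_lit 426163) (nat_lit 6) (.e (nat_lit 253991) (nat_lit 11) (.e (nat_lit 16462) (nat_lit 13) .nil)))) (.g (nat_lit 0) (.e (nat_lit 59206) (nat_lit 0) .nil) .nil))) 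
(.lf (nat_lit 462494) (.g (nat_lit 1313) (.e (nat_lit 3022) (nat_lit 187) (.e (nat_lit 450584) (nat_lit 9) (.e (nat_lit 573184) (nat_lit 6) (.e (nat_lit 81946) (nat_lit 20) (.e (nat_lit 2391) (nat_lit 156) (.e (nat_lit 819203) (nat_lit 0) .nil)))))) (.g (nat_lit 1) (.e (nat_lit 65148) (nat_lit 0) .nil) .nil)))) (.nd (nat_lit 9) 
(.lf (nat_lit 462238) (.g (nat_lit 3172) (.e (nat_lit 2980) (nat_lit 185) (.e (nat_lit 434231) (nat_lit 23) (.e (nat_lit 532550) (nat_lit 12) (.e (nat_lit 360474) (nat_lit 8) (.e (nat_lit 557088) (nat_lit 12) (.e (nat_lit 164020) (nat_lit 45) (.e (nat_lit 696327) (nat_lit 5) .nil))))))) (.g (nat_lit 1) (.e (nat_lit 60928) (nat_lit 0) .nil) .nil))) 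
(.lf (nat_lit 462750) (.g (nat_lit 2430) (.e (nat_lit 3062) (nat_lit 190) (.e (nat_lit 475185) (nat_lit 29) (.e (nat_lit 557100) (nat_lit 13) (.e (nat_lit 172115) (nat_lit 10) .nil)))) (.g (nat_lit 0) (.e (nat_lit 67374) (nat_lit 0) .nil) .nil)))))) (.nd (nat_lit 7) (.nd (nat_lit 8) (.nd (nat_lit 9) 
(.lf (nat_lit 461918) (.g (nat_lit 2955) (.e (nat_lit 2936) (nat_lit 184) (.e (nat_lit 426163) (nat_lit 6) (.e (nat_lit 253991) (nat_lit 11) (.e (nat_lit 16438) (nat_lit 9) (.e (nat_lit 426533) (nat_lit 28) (.e (nat_lit 344067) (nat_lit 0) .nil)))))) (.g (nat_lit 1) (.e (nat_lit 59087) (nat_lit 0) .nil) .nil))) 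
(.lf (nat_lit 462430) (.g (nat_lit 2856) (.e (nat_lit 3016) (nat_lit 187) (.e (nat_lit 450588) (nat_lit 10) (.e (nat_lit 573475) (nat_lit 12) (.e (nat_lit 57574) (nat_lit 55) (.e (nat_lit 778362) (nat_lit 9) .nil))))) (.g (nat_lit 0) (.e (nat_lit 64106) (nat_lit 0) .nil) .nil)))) (.nd (nat_lit 9) 
(.lf (nat_lit 462174) (.g (nat_lit 2271) (.e (nat_lit 2965) (nat_lit 185) (.e (nat_lit 434231) (nat_lit 23) (.e (nat_lit 532550) (nat_lit 12) (.e (nat_lit 360475) (nat_lit 8) .nil)))) (.g (nat_lit 0) (.e (nat_lit 60340) (nat_lit 0) .nil) .nil))) 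
(.lf (nat_lit 462686) (.g (nat_lit 1525) (.e (nat_lit 3062) (nat_lit 190) (.e (nat_lit 475185) (nat_lit 29) (.e (nat_lit 557100) (nat_lit 13) (.e (nat_lit 172106) (nat_lit 10) (.e (nat_lit 434227) (nat_lit 20) .nil))))) (.g (nat_lit 0) (.e (nat_lit 67310) (nat_lit 0) .nil) .nil))))) (.nd (nat_lit 8) (.nd (nat_lit 9) 
(.lf (nat_lit 462046) (.g (nat_lit 1217) (.e (nat_lit 2941) (nat_lit 184) (.e (nat_lit 426532) (nat_lit 28) (.e (nat_lit 344069) (nat_lit 0) (.e (nat_lit 2855) (nat_lit 184) (.e (nat_lit 426533) (nat_lit 28) (.e (nat_lit 344066) (nat_lit 0) .nil)))))) (.g (nat_lit 1) (.e (nat_lit 59288) (nat_lit 0) .nil) .nil))) 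
(.lf (nat_lit 462558) (.g (nat_lit 1803) (.e (nat_lit 3044) (nat_lit 189) (.e (nat_lit 466977) (nat_lit 22) (.e (nat_lit 196681) (nat_lit 17) (.e (nat_lit 131089) (nat_lit 1) (.e (nat_lit 57930) (nat_lit 282) (.e (nat_lit 163845) (nat_lit 0) (.e (nat_lit 7936) (nat_lit 200) (.e (nat_lit 557065) (nat_lit 9) .nil)))))))) (.g (nat_lit 1) (.e (nat_lit 66851) (nat_lit 0) .nil) .nil)))) 
(.nd (nat_lit 9) 
(.lf (nat_lit 462302) (.g (nat_lit 1951) (.e (nat_lit 2989) (nat_lit 186) (.e (nat_lit 442374) (nat_lit 0) (.e (nat_lit 1856) (nat_lit 124) (.e (nat_lit 557107) (nat_lit 15) (.e (nat_lit 188439) (nat_lit 20) .nil))))) (.g (nat_lit 0) (.e (nat_lit 61386) (nat_lit 0) .nil) .nil))) 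
(.lf (nat_lit 462814) (.g (nat_lit 5041) (.e (nat_lit 3062) (nat_lit 190) (.e (nat_lit 475185) (nat_lit 29) (.e (nat_lit 557107) (nat_lit 15) (.e (nat_lit 188452) (nat_lit 23) (.e (nat_lit 204816) (nat_lit 17) (.e (nat_lit 6665) (nat_lit 357) .nil)))))) (.g (nat_lit 1) (.e (nat_lit 67441) (nat_lit 0) .nil) .nil))))))) (.nd (nat_lit 6) (.nd (nat_lit 7) (.nd (nat_lit 8) (.nd (nat_lit 9) 
(.lf (nat_lit 461886) (.g (nat_lit 2586) (.e (nat_lit 2928) (nat_lit 184) (.e (nat_lit 426316) (nat_lit 12) (.e (nat_lit 475185) (nat_lit 29) (.e (nat_lit 557109) (nat_lit 15) (.e (nat_lit 188434) (nat_lit 20) (.e (nat_lit 3272) (nat_lit 199) (.e (nat_lit 548896) (nat_lit 14) .nil))))))) (.g (nat_lit 1) (.e (nat_lit 58975) (nat_lit 0) .nil) .nil))) 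
(.lf (nat_lit 462398) (.g (nat_lit 1484) (.e (nat_lit 3015) (nat_lit 187) (.e (nat_lit 458496) (nat_lit 0) (.e (nat_lit 5202) (nat_lit 294) (.e (nat_lit 57412) (nat_lit 12) (.e (nat_lit 336176) (nat_lit 10) (.e (nat_lit 344157) (nat_lit 36) (.e (nat_lit 638985) (nat_lit 5) .nil))))))) (.g (nat_lit 1) (.e (nat_lit 63009) (nat_lit 0) .nil) .nil)))) (.nd (nat_lit 9) 
(.lf (nat_lit 462142) (.g (nat_lit 4432) (.e (nat_lit 2964) (nat_lit 185) (.e (nat_lit 434231) (nat_lit 23) (.e (nat_lit 532549) (nat_lit 12) (.e (nat_lit 360475) (nat_lit 8) (.e (nat_lit 557090) (nat_lit 12) (.e (nat_lit 164020) (nat_lit 45) (.e (nat_lit 696329) (nat_lit 5) .nil))))))) (.g (nat_lit 1) (.e (nat_lit 60171) (nat_lit 0) .nil) .nil))) 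
(.lf (nat_lit 462654) (.g (nat_lit 2799) (.e (nat_lit 3062) (nat_lit 190) (.e (nat_lit 475179) (nat_lit 24) (.e (nat_lit 516164) (nat_lit 11) (.e (nat_lit 442391) (nat_lit 19) (.e (nat_lit 401413) (nat_lit 0) (.e (nat_lit 3459) (nat_lit 216) (.e (nat_lit 688139) (nat_lit 5) .nil))))))) (.g (nat_lit 1) (.e (nat_lit 67249) (nat_lit 0) .nil) .nil))))) (.nd (nat_lit 8) (.nd (nat_lit 9) 
(.lf (nat_lit 462014) (.g (nat_lit 1934) (.e (nat_lit 2939) (nat_lit 184) (.e (nat_lit 426532) (nat_lit 28) (.e (nat_lit 344069) (nat_lit 0) (.e (nat_lit 2857) (nat_lit 184) (.e (nat_lit 426533) (nat_lit 28) (.e (nat_lit 344067) (nat_lit 0) .nil)))))) (.g (nat_lit 1) (.e (nat_lit 59253) (nat_lit 0) .nil) .nil))) 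
(.lf (nat_lit 462526) (.g (nat_lit 3771) (.e (nat_lit 3027) (nat_lit 187) (.e (nat_lit 450586) (nat_lit 10) (.e (nat_lit 573474) (nat_lit 12) (.e (nat_lit 57574) (nat_lit 55) .nil)))) (.g (nat_lit 0) (.e (nat_lit 66225) (nat_lit 0) .nil) .nil)))) (.nd (nat_lit 9) 
(.lf (nat_lit 462270) (.g (nat_lit 1616) (.e (nat_lit 2984) (nat_lit 186) (.e (nat_lit 442374) (nat_lit 0) (.e (nat_lit 2175) (nat_lit 143) (.e (nat_lit 712750) (nat_lit 29) (.e (nat_lit 442382) (nat_lit 8) .nil))))) (.g (nat_lit 0) (.e (nat_lit 61104) (nat_lit 0) .nil) .nil))) 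
(.lf (nat_lit 462782) (.g (nat_lit 2652) (.e (nat_lit 3062) (nat_lit 190) (.e (nat_lit 475185) (nat_lit 29) (.e (nat_lit 557101) (nat_lit 13) (.e (nat_lit 172115) (nat_lit 10) (.e (nat_lit 434227) (nat_lit 20) (.e (nat_lit 507934) (nat_lit 10) (.e (nat_lit 5667) (nat_lit 312) .nil))))))) (.g (nat_lit 1) (.e (nat_lit 67406) (nat_lit 0) .nil) .nil)))))) 
(.nd (nat_lit 7) (.nd (nat_lit 8) (.nd (nat_lit 9) 
(.lf (nat_lit 461950) (.g (nat_lit 2970) (.e (nat_lit 2936) (nat_lit 184) (.e (nat_lit 426401) (nat_lit 15) (.e (nat_lit 1849) (nat_lit 124) (.e (nat_lit 557109) (nat_lit 15) (.e (nat_lit 188449) (nat_lit 22) (.e (nat_lit 196661) (nat_lit 12) (.e (nat_lit 57749) (nat_lit 201) .nil))))))) (.g (nat_lit 1) (.e (nat_lit 59152) (nat_lit 0) .nil) .nil))) 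
(.lf (nat_lit 462462) (.g (nat_lit 1409) (.e (nat_lit 3021) (nat_lit 187) (.e (nat_lit 450605) (nat_lit 27) (.e (nat_lit 745475) (nat_lit 0) (.e (nat_lit 1598) (nat_lit 111) (.e (nat_lit 360477) (nat_lit 11) (.e (nat_lit 581636) (nat_lit 0) .nil)))))) (.g (nat_lit 1) (.e (nat_lit 64574) (nat_lit 0) .nil) .nil)))) (.nd (nat_lit 9) 
(.lf (nat_lit 462206) (.g (nat_lit 3341) (.e (nat_lit 2978) (nat_lit 185) (.e (nat_lit 434231) (nat_lit 23) (.e (nat_lit 532550) (nat_lit 12) (.e (nat_lit 360472) (nat_lit 8) (.e (nat_lit 557090) (nat_lit 12) (.e (nat_lit 164020) (nat_lit 45) (.e (nat_lit 696327) (nat_lit 5) .nil))))))) (.g (nat_lit 1) (.e (nat_lit 60690) (nat_lit 0) .nil) .nil))) 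
(.lf (nat_lit 462718) (.g (nat_lit 3887) (.e (nat_lit 3062) (nat_lit 190) (.e (nat_lit 475185) (nat_lit 29) (.e (nat_lit 557100) (nat_lit 13) (.e (nat_lit 172106) (nat_lit 10) (.e (nat_lit 434231) (nat_lit 23) (.e (nat_lit 532482) (nat_lit 0) (.e (nat_lit 6622) (nat_lit 357) .nil))))))) (.g (nat_lit 1) (.e (nat_lit 67342) (nat_lit 0) .nil) .nil))))) (.nd (nat_lit 8) (.nd (nat_lit 9) 
(.lf (nat_lit 462078) (.g (nat_lit 2925) (.e (nat_lit 2946) (nat_lit 184) (.e (nat_lit 426137) (nat_lit 3) (.e (nat_lit 204869) (nat_lit 29) (.e (nat_lit 360474) (nat_lit 8) (.e (nat_lit 557091) (nat_lit 12) (.e (nat_lit 164020) (nat_lit 45) (.e (nat_lit 696333) (nat_lit 5) .nil))))))) (.g (nat_lit 1) (.e (nat_lit 59422) (nat_lit 0) .nil) .nil))) 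
(.lf (nat_lit 462590) (.g (nat_lit 3365) (.e (nat_lit 3056) (nat_lit 190) (.e (nat_lit 475185) (nat_lit 29) (.e (nat_lit 557101) (nat_lit 13) (.e (nat_lit 172115) (nat_lit 10) (.e (nat_lit 434231) (nat_lit 23) (.e (nat_lit 532482) (nat_lit 0) (.e (nat_lit 6696) (nat_lit 357) .nil))))))) (.g (nat_lit 1) (.e (nat_lit 67023) (nat_lit 0) .nil) .nil)))) (.nd (nat_lit 9) 
(.lf (nat_lit 462334) (.g (nat_lit 1716) (.e (nat_lit 3004) (nat_lit 186) (.e (nat_lit 442374) (nat_lit 0) (.e (nat_lit 2175) (nat_lit 143) (.e (nat_lit 712750) (nat_lit 29) (.e (nat_lit 442382) (nat_lit 8) (.e (nat_lit 163584) (nat_lit 0) .nil)))))) (.g (nat_lit 1) (.e (nat_lit 62040) (nat_lit 0) .nil) .nil))) 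
(.lf (nat_lit 462846) (.g (nat_lit 2442) (.e (nat_lit 3062) (nat_lit 190) (.e (nat_lit 475199) (nat_lit 40) (.e (nat_lit 704595) (nat_lit 5) (.e (nat_lit 180278) (nat_lit 32) (.e (nat_lit 1638) (nat_lit 114) (.e (nat_lit 392960) (nat_lit 8) .nil)))))) (.g (nat_lit 1) (.e (nat_lit 67502) (nat_lit 0) .nil) .nil)))))))))))) 
(.nd (nat_lit 1) (.nd (nat_lit 2) (.nd (nat_lit 3) (.nd (nat_lit 4) (.nd (nat_lit 5) 
(.nd (nat_lit 6) (.nd (nat_lit 7) (.nd (nat_lit 8) (.nd (nat_lit 9) 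
(.lf (nat_lit 461825) (.g (nat_lit 1962) (.e (nat_lit 2884) (nat_lit 184) (.e (nat_lit 426317) (nat_lit 12) (.e (nat_lit 475185) (nat_lit 29) (.e (nat_lit 557109) (nat_lit 15) (.e (nat_lit 188434) (nat_lit 20) .nil))))) (.g (nat_lit 0) (.e (nat_lit 58771) (nat_lit 0) .nil) .nil))) 
(.lf (nat_lit 462337) (.g (nat_lit 2289) (.e (nat_lit 3004) (nat_lit 186) (.e (nat_lit 442374) (nat_lit 0) (.e (nat_lit 2175) (nat_lit 143) (.e (nat_lit 712752) (nat_lit 29) (.e (nat_lit 442412) (nat_lit 20) .nil))))) (.g (nat_lit 0) (.e (nat_lit 62043) (nat_lit 0) .nil) .nil)))) (.nd (nat_lit 9) 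
(.lf (nat_lit 462081) (.g (nat_lit 1968) (.e (nat_lit 2946) (nat_lit 184) (.e (nat_lit 426139) (nat_lit 3) (.e (nat_lit 204868) (nat_lit 29) (.e (nat_lit 360473) (nat_lit 8) .nil)))) (.g (nat_lit 0) (.e (nat_lit 59426) (nat_lit 0) .nil) .nil))) 
(.lf (nat_lit 462593) (.g (nat_lit 2174) (.e (nat_lit 3057) (nat_lit 190) (.e (nat_lit 475185) (nat_lit 29) (.e (nat_lit 557101) (nat_lit 13) (.e (nat_lit 172097) (nat_lit 9) .nil)))) (.g (nat_lit 0) (.e (nat_lit 67038) (nat_lit 0) .nil) .nil))))) (.nd (nat_lit 8) (.nd (nat_lit 9) 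
(.lf (nat_lit 461953) (.g (nat_lit 2381) (.e (nat_lit 2936) (nat_lit 184) (.e (nat_lit 426401) (nat_lit 15) (.e (nat_lit 1859) (nat_lit 124) (.e (nat_lit 557107) (nat_lit 15) (.e (nat_lit 188447) (nat_lit 22) (.e (nat_lit 196661) (nat_lit 12) (.e (nat_lit 57748) (nat_lit 201) .nil))))))) (.g (nat_lit 1) (.e (nat_lit 59155) (nat_lit 0) .nil) .nil))) 
(.lf (nat_lit 462465) (.g (nat_lit 3808) (.e (nat_lit 3024) (nat_lit 187) (.e (nat_lit 450586) (nat_lit 10) (.e (nat_lit 573474) (nat_lit 12) (.e (nat_lit 57572) (nat_lit 54) (.e (nat_lit 770072) (nat_lit 8) (.e (nat_lit 65642) (nat_lit 15) (.e (nat_lit 7936) (nat_lit 200) (.e (nat_lit 557065) (nat_lit 9) .nil)))))))) (.g (nat_lit 1) (.e (nat_lit 64634) (nat_lit 0) .nil) .nil)))) (.nd (nat_lit 9) 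
(.lf (nat_lit 462209) (.g (nat_lit 3700) (.e (nat_lit 2978) (nat_lit 185) (.e (nat_lit 434231) (nat_lit 23) (.e (nat_lit 532550) (nat_lit 12) (.e (nat_lit 360474) (nat_lit 8) (.e (nat_lit 557088) (nat_lit 12) (.e (nat_lit 164018) (nat_lit 45) (.e (nat_lit 696327) (nat_lit 5) .nil))))))) (.g (nat_lit 1) (.e (nat_lit 60693) (nat_lit 0) .nil) .nil))) 
(.lf (nat_lit 462721) (.g (nat_lit 3417) (.e (nat_lit 3062) (nat_lit 190) (.e (nat_lit 475185) (nat_lit 29) (.e (nat_lit 557100) (nat_lit 13) (.e (nat_lit 172106) (nat_lit 10) (.e (nat_lit 434231) (nat_lit 23) (.e (nat_lit 532482) (nat_lit 0) (.e (nat_lit 7936) (nat_lit 357) .nil))))))) (.g (nat_lit 1) (.e (nat_lit 67345) (nat_lit 0) .nil) .nil)))))) 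
(.nd (nat_lit 7) (.nd (nat_lit 8) (.nd (nat_lit 9) 
(.lf (nat_lit 461889) (.g (nat_lit 3197) (.e (nat_lit 2936) (nat_lit 184) (.e (nat_lit 425984) (nat_lit 0) (.e (nat_lit 3249) (nat_lit 197) (.e (nat_lit 532569) (nat_lit 16) (.e (nat_lit 401448) (nat_lit 10) (.e (nat_lit 434232) (nat_lit 23) (.e (nat_lit 532489) (nat_lit 0) (.e (nat_lit 6684) (nat_lit 357) .nil)))))))) (.g (nat_lit 1) (.e (nat_lit 59008) (nat_lit 0) .nil) .nil))) 
(.lf (nat_lit 462401) (.g (nat_lit 3312) (.e (nat_lit 3015) (nat_lit 187) (.e (nat_lit 450581) (nat_lit 5) (.e (nat_lit 532569) (nat_lit 16) (.e (nat_lit 401448) (nat_lit 10) (.e (nat_lit 434238) (nat_lit 25) (.e (nat_lit 548897) (nat_lit 14) .nil)))))) (.g (nat_lit 1) (.e (nat_lit 63032) (nat_lit 0) .nil) .nil)))) (.nd (nat_lit 9) 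
(.lf (nat_lit 462145) (.g (nat_lit 2594) (.e (nat_lit 2964) (nat_lit 185) (.e (nat_lit 434231) (nat_lit 23) (.e (nat_lit 532550) (nat_lit 12) (.e (nat_lit 360473) (nat_lit 8) (.e (nat_lit 557090) (nat_lit 12) .nil))))) (.g (nat_lit 0) (.e (nat_lit 60178) (nat_lit 0) .nil) .nil))) 
(.lf (nat_lit 462657) (.g (nat_lit 3581) (.e (nat_lit 3062) (nat_lit 190) (.e (nat_lit 475179) (nat_lit 24) (.e (nat_lit 516174) (nat_lit 14) (.e (nat_lit 466954) (nat_lit 11) (.e (nat_lit 335986) (nat_lit 1) (.e (nat_lit 57655) (nat_lit 152) (.e (nat_lit 2503) (nat_lit 157) .nil))))))) (.g (nat_lit 1) (.e (nat_lit 67273) (nat_lit 0) .nil) .nil))))) (.nd (nat_lit 8) (.nd (nat_lit 9) 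
(.lf (nat_lit 462017) (.g (nat_lit 2186) (.e (nat_lit 2940) (nat_lit 184) (.e (nat_lit 426401) (nat_lit 15) (.e (nat_lit 1849) (nat_lit 124) (.e (nat_lit 557107) (nat_lit 15) (.e (nat_lit 188447) (nat_lit 22) (.e (nat_lit 196661) (nat_lit 12) (.e (nat_lit 57748) (nat_lit 201) .nil))))))) (.g (nat_lit 1) (.e (nat_lit 59258) (nat_lit 0) .nil) .nil))) 
(.lf (nat_lit 462529) (.g (nat_lit 1512) (.e (nat_lit 3027) (nat_lit 187) (.e (nat_lit 450584) (nat_lit 9) (.e (nat_lit 565252) (nat_lit 0) (.e (nat_lit 1598) (nat_lit 111) (.e (nat_lit 360493) (nat_lit 27) (.e (nat_lit 819203) (nat_lit 0) .nil)))))) (.g (nat_lit 1) (.e (nat_lit 66277) (nat_lit 0) .nil) .nil)))) (.nd (nat_lit 9) 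
(.lf (nat_lit 462273) (.g (nat_lit 1397) (.e (nat_lit 2985) (nat_lit 186) (.e (nat_lit 442374) (nat_lit 0) (.e (nat_lit 2175) (nat_lit 143) (.e (nat_lit 712750) (nat_lit 29) .nil)))) (.g (nat_lit 0) (.e (nat_lit 61192) (nat_lit 0) .nil) .nil))) 
(.lf (nat_lit 462785) (.g (nat_lit 2864) (.e (nat_lit 3062) (nat_lit 190) (.e (nat_lit 475185) (nat_lit 29) (.e (nat_lit 557101) (nat_lit 13) (.e (nat_lit 172115) (nat_lit 10) (.e (nat_lit 434231) (nat_lit 23) (.e (nat_lit 532481) (nat_lit 0) (.e (nat_lit 1897) (nat_lit 128) (.e (nat_lit 589839) (nat_lit 5) .nil)))))))) (.g (nat_lit 1) (.e (nat_lit 67409) (nat_lit 0) .nil) .nil))))))) 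
(.nd (nat_lit 6) (.nd (nat_lit 7) (.nd (nat_lit 8) (.nd (nat_lit 9) 
(.lf (nat_lit 461857) (.g (nat_lit 2059) (.e (nat_lit 2900) (nat_lit 184) (.e (nat_lit 426565) (nat_lit 34) (.e (nat_lit 393291) (nat_lit 26) (.e (nat_lit 475177) (nat_lit 24) (.e (nat_lit 516120) (nat_lit 1) (.e (nat_lit 164305) (nat_lit 226) (.e (nat_lit 2439) (nat_lit 157) .nil))))))) (.g (nat_lit 1) (.e (nat_lit 58850) (nat_lit 0) .nil) .nil))) 
(.lf (nat_lit 462369) (.g (nat_lit 3008) (.e (nat_lit 3009) (nat_lit 187) (.e (nat_lit 450588) (nat_lit 10) (.e (nat_lit 573475) (nat_lit 12) (.e (nat_lit 57574) (nat_lit 55) (.e (nat_lit 778362) (nat_lit 9) .nil))))) (.g (nat_lit 0) (.e (nat_lit 62240) (nat_lit 0) .nil) .nil)))) (.nd (nat_lit 9) 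
(.lf (nat_lit 462113) (.g (nat_lit 2539) (.e (nat_lit 2958) (nat_lit 185) (.e (nat_lit 434268) (nat_lit 36) (.e (nat_lit 639020) (nat_lit 16) (.e (nat_lit 65586) (nat_lit 7) (.e (nat_lit 319531) (nat_lit 16) (.e (nat_lit 286727) (nat_lit 0) (.e (nat_lit 6680) (nat_lit 357) .nil))))))) (.g (nat_lit 1) (.e (nat_lit 59722) (nat_lit 0) .nil) .nil))) 
(.lf (nat_lit 462625) (.g (nat_lit 2568) (.e (nat_lit 3062) (nat_lit 190) (.e (nat_lit 483072) (nat_lit 26) (.e (nat_lit 532544) (nat_lit 10) (.e (nat_lit 344132) (nat_lit 26) (.e (nat_lit 557105) (nat_lit 14) (.e (nat_lit 180252) (nat_lit 10) (.e (nat_lit 581376) (nat_lit 0) .nil))))))) (.g (nat_lit 1) (.e (nat_lit 67111) (nat_lit 0) .nil) .nil))))) (.nd (nat_lit 8) (.nd (nat_lit 9) 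
(.lf (nat_lit 461985) (.g (nat_lit 3239) (.e (nat_lit 2939) (nat_lit 184) (.e (nat_lit 426353) (nat_lit 15) (.e (nat_lit 1860) (nat_lit 124) (.e (nat_lit 557101) (nat_lit 13) (.e (nat_lit 172097) (nat_lit 9) (.e (nat_lit 426125) (nat_lit 2) (.e (nat_lit 196661) (nat_lit 12) (.e (nat_lit 57749) (nat_lit 201) .nil)))))))) (.g (nat_lit 1) (.e (nat_lit 59214) (nat_lit 0) .nil) .nil))) 
(.lf (nat_lit 462497) (.g (nat_lit 1045) (.e (nat_lit 3022) (nat_lit 187) (.e (nat_lit 450595) (nat_lit 17) (.e (nat_lit 663574) (nat_lit 9) (.e (nat_lit 7936) (nat_lit 24) .nil)))) (.g (nat_lit 0) (.e (nat_lit 65172) (nat_lit 0) .nil) .nil)))) (.nd (nat_lit 9) 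
(.lf (nat_lit 462241) (.g (nat_lit 3897) (.e (nat_lit 2980) (nat_lit 185) (.e (nat_lit 434231) (nat_lit 23) (.e (nat_lit 532550) (nat_lit 12) (.e (nat_lit 360475) (nat_lit 8) (.e (nat_lit 557090) (nat_lit 12) (.e (nat_lit 164020) (nat_lit 45) (.e (nat_lit 696328) (nat_lit 5) .nil))))))) (.g (nat_lit 1) (.e (nat_lit 60940) (nat_lit 0) .nil) .nil))) 
(.lf (nat_lit 462753) (.g (nat_lit 2286) (.e (nat_lit 3062) (nat_lit 190) (.e (nat_lit 475185) (nat_lit 29) (.e (nat_lit 557100) (nat_lit 13) (.e (nat_lit 172126) (nat_lit 14) .nil)))) (.g (nat_lit 0) (.e (nat_lit 67377) (nat_lit 0) .nil) .nil)))))) (.nd (nat_lit 7) (.nd (nat_lit 8) (.nd (nat_lit 9) 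
(.lf (nat_lit 461921) (.g (nat_lit 2296) (.e (nat_lit 2936) (nat_lit 184) (.e (nat_lit 426163) (nat_lit 6) (.e (nat_lit 253991) (nat_lit 11) (.e (nat_lit 16462) (nat_lit 13) (.e (nat_lit 483354) (nat_lit 17) (.e (nat_lit 6674) (nat_lit 357) .nil)))))) (.g (nat_lit 1) (.e (nat_lit 59091) (nat_lit 0) .nil) .nil))) 
(.lf (nat_lit 462433) (.g (nat_lit 1071) (.e (nat_lit 3016) (nat_lit 187) (.e (nat_lit 450591) (nat_lit 13) (.e (nat_lit 630821) (nat_lit 16) (.e (nat_lit 65619) (nat_lit 10) (.e (nat_lit 344157) (nat_lit 36) (.e (nat_lit 638986) (nat_lit 5) .nil)))))) (.g (nat_lit 1) (.e (nat_lit 64160) (nat_lit 0) .nil) .nil)))) (.nd (nat_lit 9) 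
(.lf (nat_lit 462177) (.g (nat_lit 3111) (.e (nat_lit 2969) (nat_lit 185) (.e (nat_lit 434235) (nat_lit 24) (.e (nat_lit 540706) (nat_lit 12) (.e (nat_lit 360475) (nat_lit 8) (.e (nat_lit 557090) (nat_lit 12) (.e (nat_lit 164020) (nat_lit 45) (.e (nat_lit 696327) (nat_lit 5) .nil))))))) (.g (nat_lit 1) (.e (nat_lit 60350) (nat_lit 0) .nil) .nil))) 
(.lf (nat_lit 462689) (.g (nat_lit 2995) (.e (nat_lit 3062) (nat_lit 190) (.e (nat_lit 475185) (nat_lit 29) (.e (nat_lit 557100) (nat_lit 13) (.e (nat_lit 172106) (nat_lit 10) (.e (nat_lit 434227) (nat_lit 20) (.e (nat_lit 507928) (nat_lit 10) (.e (nat_lit 5612) (nat_lit 312) .nil))))))) (.g (nat_lit 1) (.e (nat_lit 67313) (nat_lit 0) .nil) .nil))))) (.nd (nat_lit 8) (.nd (nat_lit 9) 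
(.lf (nat_lit 462049) (.g (nat_lit 2095) (.e (nat_lit 2941) (nat_lit 184) (.e (nat_lit 426541) (nat_lit 29) (.e (nat_lit 352267) (nat_lit 0) (.e (nat_lit 3632) (nat_lit 227) (.e (nat_lit 778323) (nat_lit 5) (.e (nat_lit 73779) (nat_lit 32) .nil)))))) (.g (nat_lit 1) (.e (nat_lit 59291) (nat_lit 0) .nil) .nil))) 
(.lf (nat_lit 462561) (.g (nat_lit 1080) (.e (nat_lit 3044) (nat_lit 189) (.e (nat_lit 466981) (nat_lit 23) (.e (nat_lit 204861) (nat_lit 26) (.e (nat_lit 335987) (nat_lit 1) .nil)))) (.g (nat_lit 0) (.e (nat_lit 66862) (nat_lit 0) .nil) .nil)))) (.nd (nat_lit 9) 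
(.lf (nat_lit 462305) (.g (nat_lit 1434) (.e (nat_lit 2989) (nat_lit 186) (.e (nat_lit 442374) (nat_lit 0) (.e (nat_lit 2175) (nat_lit 143) (.e (nat_lit 712753) (nat_lit 30) .nil)))) (.g (nat_lit 0) (.e (nat_lit 61389) (nat_lit 0) .nil) .nil))) 
(.lf (nat_lit 462817) (.g (nat_lit 5376) (.e (nat_lit 3062) (nat_lit 190) (.e (nat_lit 475185) (nat_lit 29) (.e (nat_lit 557108) (nat_lit 15) (.e (nat_lit 188452) (nat_lit 23) (.e (nat_lit 204816) (nat_lit 17) (.e (nat_lit 6622) (nat_lit 357) .nil)))))) (.g (nat_lit 1) (.e (nat_lit 67444) (nat_lit 0) .nil) .nil)))))))) 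
(.nd (nat_lit 5) (.nd (nat_lit 6) (.nd (nat_lit 7) (.nd (nat_lit 8) (.nd (nat_lit 9) 
(.lf (nat_lit 461841) (.g (nat_lit 2827) (.e (nat_lit 2885) (nat_lit 184) (.e (nat_lit 426140) (nat_lit 3) (.e (nat_lit 204869) (nat_lit 29) (.e (nat_lit 360475) (nat_lit 8) (.e (nat_lit 557091) (nat_lit 12) .nil))))) (.g (nat_lit 0) (.e (nat_lit 58817) (nat_lit 0) .nil) .nil))) 
(.lf (nat_lit 462353) (.g (nat_lit 2856) (.e (nat_lit 3004) (nat_lit 186) (.e (nat_lit 442390) (nat_lit 11) (.e (nat_lit 336232) (nat_lit 14) (.e (nat_lit 401446) (nat_lit 10) (.e (nat_lit 434289) (nat_lit 43) (.e (nat_lit 696330) (nat_lit 5) .nil)))))) (.g (nat_lit 1) (.e (nat_lit 62120) (nat_lit 0) .nil) .nil)))) (.nd (nat_lit 9) 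
(.lf (nat_lit 462097) (.g (nat_lit 2127) (.e (nat_lit 2946) (nat_lit 184) (.e (nat_lit 426306) (nat_lit 12) (.e (nat_lit 475211) (nat_lit 41) (.e (nat_lit 712753) (nat_lit 30) (.e (nat_lit 450561) (nat_lit 0) .nil))))) (.g (nat_lit 0) (.e (nat_lit 59505) (nat_lit 0) .nil) .nil))) 
(.lf (nat_lit 462609) (.g (nat_lit 923) (.e (nat_lit 3060) (nat_lit 190) (.e (nat_lit 475179) (nat_lit 24) (.e (nat_lit 516150) (nat_lit 9) .nil))) (.g (nat_lit 0) (.e (nat_lit 67073) (nat_lit 0) .nil) .nil))))) (.nd (nat_lit 8) (.nd (nat_lit 9) 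
(.lf (nat_lit 461969) (.g (nat_lit 1001) (.e (nat_lit 2936) (nat_lit 184) (.e (nat_lit 426532) (nat_lit 28) (.e (nat_lit 344068) (nat_lit 0) (.e (nat_lit 2855) (nat_lit 184) (.e (nat_lit 426533) (nat_lit 28) (.e (nat_lit 344067) (nat_lit 0) .nil)))))) (.g (nat_lit 1) (.e (nat_lit 59174) (nat_lit 0) .nil) .nil))) 
(.lf (nat_lit 462481) (.g (nat_lit 553) (.e (nat_lit 3022) (nat_lit 187) (.e (nat_lit 450580) (nat_lit 5) (.e (nat_lit 532554) (nat_lit 13) .nil))) (.g (nat_lit 0) (.e (nat_lit 64887) (nat_lit 0) .nil) .nil)))) (.nd (nat_lit 9) 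
(.lf (nat_lit 462225) (.g (nat_lit 4243) (.e (nat_lit 2980) (nat_lit 185) (.e (nat_lit 434231) (nat_lit 23) (.e (nat_lit 532549) (nat_lit 12) (.e (nat_lit 360473) (nat_lit 8) (.e (nat_lit 557090) (nat_lit 12) (.e (nat_lit 164020) (nat_lit 45) (.e (nat_lit 696329) (nat_lit 5) .nil))))))) (.g (nat_lit 1) (.e (nat_lit 60906) (nat_lit 0) .nil) .nil))) 
(.lf (nat_lit 462737) (.g (nat_lit 3090) (.e (nat_lit 3062) (nat_lit 190) (.e (nat_lit 475185) (nat_lit 29) (.e (nat_lit 557100) (nat_lit 13) (.e (nat_lit 172113) (nat_lit 10) (.e (nat_lit 442112) (nat_lit 19) (.e (nat_lit 499791) (nat_lit 3) (.e (nat_lit 164362) (nat_lit 246) .nil))))))) (.g (nat_lit 1) (.e (nat_lit 67361) (nat_lit 0) .nil) .nil)))))) 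
(.nd (nat_lit 7) (.nd (nat_lit 8) (.nd (nat_lit 9) 
(.lf (nat_lit 461905) (.g (nat_lit 2297) (.e (nat_lit 2936) (nat_lit 184) (.e (nat_lit 426163) (nat_lit 6) (.e (nat_lit 253991) (nat_lit 11) (.e (nat_lit 16432) (nat_lit 9) .nil)))) (.g (nat_lit 0) (.e (nat_lit 59072) (nat_lit 0) .nil) .nil))) 
(.lf (nat_lit 462417) (.g (nat_lit 1155) (.e (nat_lit 3017) (nat_lit 187) (.e (nat_lit 450588) (nat_lit 10) (.e (nat_lit 573474) (nat_lit 12) (.e (nat_lit 57572) (nat_lit 54) .nil)))) (.g (nat_lit 0) (.e (nat_lit 63609) (nat_lit 0) .nil) .nil)))) (.nd (nat_lit 9) 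
(.lf (nat_lit 462161) (.g (nat_lit 2428) (.e (nat_lit 2965) (nat_lit 185) (.e (nat_lit 434231) (nat_lit 23) (.e (nat_lit 532549) (nat_lit 12) (.e (nat_lit 360473) (nat_lit 8) .nil)))) (.g (nat_lit 0) (.e (nat_lit 60327) (nat_lit 0) .nil) .nil))) 
(.lf (nat_lit 462673) (.g (nat_lit 5901) (.e (nat_lit 3062) (nat_lit 190) (.e (nat_lit 475183) (nat_lit 29) (.e (nat_lit 557108) (nat_lit 15) (.e (nat_lit 188452) (nat_lit 23) (.e (nat_lit 204816) (nat_lit 17) .nil))))) (.g (nat_lit 0) (.e (nat_lit 67296) (nat_lit 0) .nil) .nil))))) (.nd (nat_lit 8) (.nd (nat_lit 9) 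
(.lf (nat_lit 462033) (.g (nat_lit 2976) (.e (nat_lit 2941) (nat_lit 184) (.e (nat_lit 426401) (nat_lit 15) (.e (nat_lit 1849) (nat_lit 124) (.e (nat_lit 557097) (nat_lit 13) (.e (nat_lit 172097) (nat_lit 9) (.e (nat_lit 426125) (nat_lit 2) (.e (nat_lit 196661) (nat_lit 12) (.e (nat_lit 57748) (nat_lit 201) .nil)))))))) (.g (nat_lit 1) (.e (nat_lit 59274) (nat_lit 0) .nil) .nil))) 
(.lf (nat_lit 462545) (.g (nat_lit 1153) (.e (nat_lit 3044) (nat_lit 189) (.e (nat_lit 466974) (nat_lit 22) (.e (nat_lit 196681) (nat_lit 17) (.e (nat_lit 131088) (nat_lit 1) .nil)))) (.g (nat_lit 0) (.e (nat_lit 66797) (nat_lit 0) .nil) .nil)))) (.nd (nat_lit 9) 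
(.lf (nat_lit 462289) (.g (nat_lit 916) (.e (nat_lit 2988) (nat_lit 186) (.e (nat_lit 442374) (nat_lit 0) (.e (nat_lit 2175) (nat_lit 143) (.e (nat_lit 712755) (nat_lit 30) .nil)))) (.g (nat_lit 0) (.e (nat_lit 61307) (nat_lit 0) .nil) .nil))) 
(.lf (nat_lit 462801) (.g (nat_lit 3011) (.e (nat_lit 3062) (nat_lit 190) (.e (nat_lit 475185) (nat_lit 29) (.e (nat_lit 557101) (nat_lit 13) (.e (nat_lit 172115) (nat_lit 10) (.e (nat_lit 434244) (nat_lit 28) (.e (nat_lit 573468) (nat_lit 10) (.e (nat_lit 16128) (nat_lit 205) .nil))))))) (.g (nat_lit 1) (.e (nat_lit 67425) (nat_lit 0) .nil) .nil))))))) 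
(.nd (nat_lit 6) (.nd (nat_lit 7) (.nd (nat_lit 8) (.nd (nat_lit 9) 
(.lf (nat_lit 461873) (.g (nat_lit 2220) (.e (nat_lit 2914) (nat_lit 184) (.e (nat_lit 426316) (nat_lit 12) (.e (nat_lit 475185) (nat_lit 29) (.e (nat_lit 557103) (nat_lit 14) (.e (nat_lit 180278) (nat_lit 32) .nil))))) (.g (nat_lit 0) (.e (nat_lit 58894) (nat_lit 0) .nil) .nil))) 
(.lf (nat_lit 462385) (.g (nat_lit 539) (.e (nat_lit 3012) (nat_lit 187) (.e (nat_lit 450605) (nat_lit 27) (.e (nat_lit 745476) (nat_lit 0) (.e (nat_lit 1599) (nat_lit 111) .nil)))) (.g (nat_lit 0) (.e (nat_lit 62843) (nat_lit 0) .nil) .nil)))) (.nd (nat_lit 9) 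
(.lf (nat_lit 462129) (.g (nat_lit 2555) (.e (nat_lit 2964) (nat_lit 185) (.e (nat_lit 434231) (nat_lit 23) (.e (nat_lit 532549) (nat_lit 12) (.e (nat_lit 360473) (nat_lit 8) (.e (nat_lit 557090) (nat_lit 12) (.e (nat_lit 164020) (nat_lit 45) (.e (nat_lit 696328) (nat_lit 5) .nil))))))) (.g (nat_lit 1) (.e (nat_lit 60145) (nat_lit 0) .nil) .nil))) 
(.lf (nat_lit 462641) (.g (nat_lit 1597) (.e (nat_lit 3062) (nat_lit 190) (.e (nat_lit 475179) (nat_lit 24) (.e (nat_lit 516150) (nat_lit 9) (.e (nat_lit 426227) (nat_lit 9) .nil)))) (.g (nat_lit 0) (.e (nat_lit 67173) (nat_lit 0) .nil) .nil))))) (.nd (nat_lit 8) (.nd (nat_lit 9) 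
(.lf (nat_lit 462001) (.g (nat_lit 2846) (.e (nat_lit 2939) (nat_lit 184) (.e (nat_lit 426488) (nat_lit 27) (.e (nat_lit 336235) (nat_lit 14) (.e (nat_lit 401438) (nat_lit 9) (.e (nat_lit 426533) (nat_lit 28) (.e (nat_lit 344067) (nat_lit 0) .nil)))))) (.g (nat_lit 1) (.e (nat_lit 59236) (nat_lit 0) .nil) .nil))) 
(.lf (nat_lit 462513) (.g (nat_lit 1310) (.e (nat_lit 3027) (nat_lit 187) (.e (nat_lit 450561) (nat_lit 0) (.e (nat_lit 6740) (nat_lit 365) (.e (nat_lit 1201) (nat_lit 88) (.e (nat_lit 65617) (nat_lit 10) .nil))))) (.g (nat_lit 0) (.e (nat_lit 65755) (nat_lit 0) .nil) .nil)))) (.nd (nat_lit 9) 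
(.lf (nat_lit 462257) (.g (nat_lit 954) (.e (nat_lit 2981) (nat_lit 185) (.e (nat_lit 434231) (nat_lit 23) (.e (nat_lit 532550) (nat_lit 12) .nil))) (.g (nat_lit 0) (.e (nat_lit 61029) (nat_lit 0) .nil) .nil))) 
(.lf (nat_lit 462769) (.g (nat_lit 1886) (.e (nat_lit 3062) (nat_lit 190) (.e (nat_lit 475185) (nat_lit 29) (.e (nat_lit 557101) (nat_lit 13) (.e (nat_lit 172115) (nat_lit 10) (.e (nat_lit 434227) (nat_lit 20) (.e (nat_lit 507928) (nat_lit 10) (.e (nat_lit 5665) (nat_lit 312) .nil))))))) (.g (nat_lit 1) (.e (nat_lit 67393) (nat_lit 0) .nil) .nil)))))) 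
(.nd (nat_lit 7) (.nd (nat_lit 8) (.nd (nat_lit 9) 
(.lf (nat_lit 461937) (.g (nat_lit 1258) (.e (nat_lit 2936) (nat_lit 184) (.e (nat_lit 426232) (nat_lit 9) (.e (nat_lit 426435) (nat_lit 18) (.e (nat_lit 98342) (nat_lit 20) (.e (nat_lit 229120) (nat_lit 12) (.e (nat_lit 344107) (nat_lit 19) (.e (nat_lit 499825) (nat_lit 5) .nil))))))) (.g (nat_lit 1) (.e (nat_lit 59117) (nat_lit 0) .nil) .nil))) 
(.lf (nat_lit 462449) (.g (nat_lit 375) (.e (nat_lit 3020) (nat_lit 187) (.e (nat_lit 450605) (nat_lit 27) (.e (nat_lit 745475) (nat_lit 0) (.e (nat_lit 1592) (nat_lit 111) (.e (nat_lit 368384) (nat_lit 10) (.e (nat_lit 573445) (nat_lit 0) .nil)))))) (.g (nat_lit 1) (.e (nat_lit 64367) (nat_lit 0) .nil) .nil)))) (.nd (nat_lit 9) 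
(.lf (nat_lit 462193) (.g (nat_lit 3478) (.e (nat_lit 2974) (nat_lit 185) (.e (nat_lit 434231) (nat_lit 23) (.e (nat_lit 532550) (nat_lit 12) (.e (nat_lit 360475) (nat_lit 8) (.e (nat_lit 557091) (nat_lit 12) .nil))))) (.g (nat_lit 0) (.e (nat_lit 60455) (nat_lit 0) .nil) .nil))) 
(.lf (nat_lit 462705) (.g (nat_lit 2446) (.e (nat_lit 3062) (nat_lit 190) (.e (nat_lit 475185) (nat_lit 29) (.e (nat_lit 557100) (nat_lit 13) (.e (nat_lit 172106) (nat_lit 10) (.e (nat_lit 434227) (nat_lit 20) (.e (nat_lit 507930) (nat_lit 10) (.e (nat_lit 5655) (nat_lit 312) .nil))))))) (.g (nat_lit 1) (.e (nat_lit 67329) (nat_lit 0) .nil) .nil))))) (.nd (nat_lit 8) (.nd (nat_lit 9) 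
(.lf (nat_lit 462065) (.g (nat_lit 3469) (.e (nat_lit 2949) (nat_lit 184) (.e (nat_lit 426123) (nat_lit 2) (.e (nat_lit 196666) (nat_lit 13) (.e (nat_lit 65617) (nat_lit 10) (.e (nat_lit 344130) (nat_lit 26) .nil))))) (.g (nat_lit 0) (.e (nat_lit 59346) (nat_lit 0) .nil) .nil))) 
(.lf (nat_lit 462577) (.g (nat_lit 2337) (.e (nat_lit 3055) (nat_lit 190) (.e (nat_lit 475185) (nat_lit 29) (.e (nat_lit 557098) (nat_lit 13) (.e (nat_lit 172097) (nat_lit 9) .nil)))) (.g (nat_lit 0) (.e (nat_lit 66984) (nat_lit 0) .nil) .nil)))) (.nd (nat_lit 9) 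
(.lf (nat_lit 462321) (.g (nat_lit 1005) (.e (nat_lit 3004) (nat_lit 186) (.e (nat_lit 442374) (nat_lit 0) (.e (nat_lit 2058) (nat_lit 142) (.e (nat_lit 704598) (nat_lit 6) .nil)))) (.g (nat_lit 0) (.e (nat_lit 62026) (nat_lit 0) .nil) .nil))) 
(.lf (nat_lit 462833) (.g (nat_lit 5219) (.e (nat_lit 3062) (nat_lit 190) (.e (nat_lit 475185) (nat_lit 29) (.e (nat_lit 557109) (nat_lit 15) (.e (nat_lit 188452) (nat_lit 23) (.e (nat_lit 204816) (nat_lit 17) (.e (nat_lit 6622) (nat_lit 357) .nil)))))) (.g (nat_lit 1) (.e (nat_lit 67460) (nat_lit 0) .nil) .nil))))))))) 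
(.nd (nat_lit 4) (.nd (nat_lit 5) (.nd (nat_lit 6) (.nd (nat_lit 7) (.nd (nat_lit 8) 
(.nd (nat_lit 9) 
(.lf (nat_lit 461833) (.g (nat_lit 2612) (.e (nat_lit 2885) (nat_lit 184) (.e (nat_lit 426125) (nat_lit 2) (.e (nat_lit 196666) (nat_lit 13) (.e (nat_lit 65610) (nat_lit 10) .nil)))) (.g (nat_lit 0) (.e (nat_lit 58807) (nat_lit 0) .nil) .nil))) 
(.lf (nat_lit 462345) (.g (nat_lit 1868) (.e (nat_lit 3004) (nat_lit 186) (.e (nat_lit 442390) (nat_lit 11) (.e (nat_lit 336230) (nat_lit 14) (.e (nat_lit 401448) (nat_lit 10) (.e (nat_lit 434287) (nat_lit 43) (.e (nat_lit 696329) (nat_lit 5) .nil)))))) (.g (nat_lit 1) (.e (nat_lit 62109) (nat_lit 0) .nil) .nil)))) (.nd (nat_lit 9) 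
(.lf (nat_lit 462089) (.g (nat_lit 3613) (.e (nat_lit 2946) (nat_lit 184) (.e (nat_lit 426306) (nat_lit 12) (.e (nat_lit 475185) (nat_lit 29) (.e (nat_lit 557109) (nat_lit 15) (.e (nat_lit 188434) (nat_lit 20) (.e (nat_lit 3271) (nat_lit 199) (.e (nat_lit 548902) (nat_lit 14) .nil))))))) (.g (nat_lit 1) (.e (nat_lit 59473) (nat_lit 0) .nil) .nil))) 
(.lf (nat_lit 462601) (.g (nat_lit 952) (.e (nat_lit 3059) (nat_lit 190) (.e (nat_lit 475179) (nat_lit 24) (.e (nat_lit 516146) (nat_lit 9) .nil))) (.g (nat_lit 0) (.e (nat_lit 67058) (nat_lit 0) .nil) .nil))))) (.nd (nat_lit 8) (.nd (nat_lit 9) 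
(.lf (nat_lit 461961) (.g (nat_lit 3190) (.e (nat_lit 2936) (nat_lit 184) (.e (nat_lit 426503) (nat_lit 27) (.e (nat_lit 336229) (nat_lit 14) (.e (nat_lit 401438) (nat_lit 9) (.e (nat_lit 426533) (nat_lit 28) (.e (nat_lit 344066) (nat_lit 0) .nil)))))) (.g (nat_lit 1) (.e (nat_lit 59165) (nat_lit 0) .nil) .nil))) 
(.lf (nat_lit 462473) (.g (nat_lit 5661) (.e (nat_lit 3022) (nat_lit 187) (.e (nat_lit 450579) (nat_lit 5) (.e (nat_lit 532563) (nat_lit 15) (.e (nat_lit 385094) (nat_lit 49) (.e (nat_lit 778317) (nat_lit 3) (.e (nat_lit 57480) (nat_lit 28) (.e (nat_lit 557067) (nat_lit 9) .nil))))))) (.g (nat_lit 1) (.e (nat_lit 64827) (nat_lit 0) .nil) .nil)))) (.nd (nat_lit 9) 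
(.lf (nat_lit 462217) (.g (nat_lit 789) (.e (nat_lit 2978) (nat_lit 185) (.e (nat_lit 434244) (nat_lit 28) (.e (nat_lit 573481) (nat_lit 13) .nil))) (.g (nat_lit 0) (.e (nat_lit 60719) (nat_lit 0) .nil) .nil))) 
(.lf (nat_lit 462729) (.g (nat_lit 2934) (.e (nat_lit 3062) (nat_lit 190) (.e (nat_lit 475185) (nat_lit 29) (.e (nat_lit 557100) (nat_lit 13) (.e (nat_lit 172106) (nat_lit 10) (.e (nat_lit 434231) (nat_lit 23) (.e (nat_lit 532500) (nat_lit 1) (.e (nat_lit 57760) (nat_lit 215) (.e (nat_lit 2509) (nat_lit 157) .nil)))))))) (.g (nat_lit 1) (.e (nat_lit 67353) (nat_lit 0) .nil) .nil)))))) 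
(.nd (nat_lit 7) (.nd (nat_lit 8) (.nd (nat_lit 9) 
(.lf (nat_lit 461897) (.g (nat_lit 1430) (.e (nat_lit 2936) (nat_lit 184) (.e (nat_lit 426163) (nat_lit 6) (.e (nat_lit 253962) (nat_lit 9) (.e (nat_lit 400) (nat_lit 32) .nil)))) (.g (nat_lit 0) (.e (nat_lit 59033) (nat_lit 0) .nil) .nil))) 
(.lf (nat_lit 462409) (.g (nat_lit 558) (.e (nat_lit 3017) (nat_lit 187) (.e (nat_lit 450587) (nat_lit 10) (.e (nat_lit 573475) (nat_lit 12) .nil))) (.g (nat_lit 0) (.e (nat_lit 63497) (nat_lit 0) .nil) .nil)))) (.nd (nat_lit 9) 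
(.lf (nat_lit 462153) (.g (nat_lit 1985) (.e (nat_lit 2964) (nat_lit 185) (.e (nat_lit 434231) (nat_lit 23) (.e (nat_lit 532550) (nat_lit 12) (.e (nat_lit 360475) (nat_lit 8) (.e (nat_lit 557089) (nat_lit 12) .nil))))) (.g (nat_lit 0) (.e (nat_lit 60196) (nat_lit 0) .nil) .nil))) 
(.lf (nat_lit 462665) (.g (nat_lit 2494) (.e (nat_lit 3062) (nat_lit 190) (.e (nat_lit 475179) (nat_lit 24) (.e (nat_lit 516176) (nat_lit 14) (.e (nat_lit 466954) (nat_lit 11) (.e (nat_lit 335986) (nat_lit 1) (.e (nat_lit 57660) (nat_lit 152) (.e (nat_lit 2406) (nat_lit 157) .nil))))))) (.g (nat_lit 1) (.e (nat_lit 67285) (nat_lit 0) .nil) .nil))))) (.nd (nat_lit 8) (.nd (nat_lit 9) 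
(.lf (nat_lit 462025) (.g (nat_lit 1333) (.e (nat_lit 2940) (nat_lit 184) (.e (nat_lit 426435) (nat_lit 18) (.e (nat_lit 98377) (nat_lit 30) (.e (nat_lit 458789) (nat_lit 23) (.e (nat_lit 532508) (nat_lit 2) .nil))))) (.g (nat_lit 0) (.e (nat_lit 59266) (nat_lit 0) .nil) .nil))) 
(.lf (nat_lit 462537) (.g (nat_lit 2922) (.e (nat_lit 3028) (nat_lit 187) (.e (nat_lit 450596) (nat_lit 17) (.e (nat_lit 663583) (nat_lit 11) (.e (nat_lit 24640) (nat_lit 10) (.e (nat_lit 344156) (nat_lit 36) (.e (nat_lit 638985) (nat_lit 5) .nil)))))) (.g (nat_lit 1) (.e (nat_lit 66607) (nat_lit 0) .nil) .nil)))) (.nd (nat_lit 9) 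
(.lf (nat_lit 462281) (.g (nat_lit 2270) (.e (nat_lit 2988) (nat_lit 186) (.e (nat_lit 442374) (nat_lit 0) (.e (nat_lit 2059) (nat_lit 142) (.e (nat_lit 704598) (nat_lit 6) (.e (nat_lit 188435) (nat_lit 20) (.e (nat_lit 3408) (nat_lit 212) (.e (nat_lit 655363) (nat_lit 0) .nil))))))) (.g (nat_lit 1) (.e (nat_lit 61299) (nat_lit 0) .nil) .nil))) 
(.lf (nat_lit 462793) (.g (nat_lit 3925) (.e (nat_lit 3062) (nat_lit 190) (.e (nat_lit 475185) (nat_lit 29) (.e (nat_lit 557101) (nat_lit 13) (.e (nat_lit 172115) (nat_lit 10) (.e (nat_lit 434231) (nat_lit 23) (.e (nat_lit 532482) (nat_lit 0) (.e (nat_lit 6617) (nat_lit 357) .nil))))))) (.g (nat_lit 1) (.e (nat_lit 67417) (nat_lit 0) .nil) .nil))))))) 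
(.nd (nat_lit 6) (.nd (nat_lit 7) (.nd (nat_lit 8) (.nd (nat_lit 9) 
(.lf (nat_lit 461865) (.g (nat_lit 1569) (.e (nat_lit 2902) (nat_lit 184) (.e (nat_lit 426565) (nat_lit 34) (.e (nat_lit 393271) (nat_lit 23) (.e (nat_lit 426436) (nat_lit 18) (.e (nat_lit 98334) (nat_lit 18) .nil))))) (.g (nat_lit 0) (.e (nat_lit 58859) (nat_lit 0) .nil) .nil))) 
(.lf (nat_lit 462377) (.g (nat_lit 920) (.e (nat_lit 3012) (nat_lit 187) (.e (nat_lit 450584) (nat_lit 9) (.e (nat_lit 565268) (nat_lit 5) (.e (nat_lit 73789) (nat_lit 45) (.e (nat_lit 1160) (nat_lit 86) .nil))))) (.g (nat_lit 0) (.e (nat_lit 62795) (nat_lit 0) .nil) .nil)))) (.nd (nat_lit 9) 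
(.lf (nat_lit 462121) (.g (nat_lit 2820) (.e (nat_lit 2963) (nat_lit 185) (.e (nat_lit 434231) (nat_lit 23) (.e (nat_lit 532569) (nat_lit 16) (.e (nat_lit 401448) (nat_lit 10) (.e (nat_lit 434232) (nat_lit 23) (.e (nat_lit 532482) (nat_lit 0) (.e (nat_lit 6624) (nat_lit 357) .nil))))))) (.g (nat_lit 1) (.e (nat_lit 59944) (nat_lit 0) .nil) .nil))) 
(.lf (nat_lit 462633) (.g (nat_lit 1888) (.e (nat_lit 3062) (nat_lit 190) (.e (nat_lit 475179) (nat_lit 24) (.e (nat_lit 516120) (nat_lit 1) (.e (nat_lit 164329) (nat_lit 230) .nil)))) (.g (nat_lit 0) (.e (nat_lit 67124) (nat_lit 0) .nil) .nil))))) (.nd (nat_lit 8) (.nd (nat_lit 9) 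
(.lf (nat_lit 461993) (.g (nat_lit 2185) (.e (nat_lit 2939) (nat_lit 184) (.e (nat_lit 426401) (nat_lit 15) (.e (nat_lit 1849) (nat_lit 124) (.e (nat_lit 557107) (nat_lit 15) (.e (nat_lit 188447) (nat_lit 22) (.e (nat_lit 196661) (nat_lit 12) (.e (nat_lit 57748) (nat_lit 201) .nil))))))) (.g (nat_lit 1) (.e (nat_lit 59226) (nat_lit 0) .nil) .nil))) 
(.lf (nat_lit 462505) (.g (nat_lit 3511) (.e (nat_lit 3025) (nat_lit 187) (.e (nat_lit 450581) (nat_lit 5) (.e (nat_lit 532523) (nat_lit 7) (.e (nat_lit 319533) (nat_lit 16) (.e (nat_lit 286732) (nat_lit 2) (.e (nat_lit 90134) (nat_lit 9) .nil)))))) (.g (nat_lit 1) (.e (nat_lit 65275) (nat_lit 0) .nil) .nil)))) (.nd (nat_lit 9) 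
(.lf (nat_lit 462249) (.g (nat_lit 2428) (.e (nat_lit 2981) (nat_lit 185) (.e (nat_lit 434231) (nat_lit 23) (.e (nat_lit 532549) (nat_lit 12) (.e (nat_lit 360473) (nat_lit 8) .nil)))) (.g (nat_lit 0) (.e (nat_lit 61021) (nat_lit 0) .nil) .nil))) 
(.lf (nat_lit 462761) (.g (nat_lit 2784) (.e (nat_lit 3062) (nat_lit 190) (.e (nat_lit 475185) (nat_lit 29) (.e (nat_lit 557101) (nat_lit 13) (.e (nat_lit 172097) (nat_lit 9) (.e (nat_lit 426140) (nat_lit 3) (.e (nat_lit 212736) (nat_lit 17) (.e (nat_lit 6664) (nat_lit 357) .nil))))))) (.g (nat_lit 1) (.e (nat_lit 67385) (nat_lit 0) .nil) .nil)))))) 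
(.nd (nat_lit 7) (.nd (nat_lit 8) (.nd (nat_lit 9) 
(.lf (nat_lit 461929) (.g (nat_lit 1302) (.e (nat_lit 2936) (nat_lit 184) (.e (nat_lit 426163) (nat_lit 6) (.e (nat_lit 253992) (nat_lit 11) (.e (nat_lit 16433) (nat_lit 9) .nil)))) (.g (nat_lit 0) (.e (nat_lit 59104) (nat_lit 0) .nil) .nil))) 
(.lf (nat_lit 462441) (.g (nat_lit 2873) (.e (nat_lit 3019) (nat_lit 187) (.e (nat_lit 450586) (nat_lit 10) (.e (nat_lit 573474) (nat_lit 12) (.e (nat_lit 57572) (nat_lit 54) .nil)))) (.g (nat_lit 0) (.e (nat_lit 64288) (nat_lit 0) .nil) .nil)))) (.nd (nat_lit 9) 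
(.lf (nat_lit 462185) (.g (nat_lit 3196) (.e (nat_lit 2974) (nat_lit 185) (.e (nat_lit 434231) (nat_lit 23) (.e (nat_lit 532549) (nat_lit 12) (.e (nat_lit 360473) (nat_lit 8) (.e (nat_lit 557091) (nat_lit 12) .nil))))) (.g (nat_lit 0) (.e (nat_lit 60447) (nat_lit 0) .nil) .nil))) 
(.lf (nat_lit 462697) (.g (nat_lit 1787) (.e (nat_lit 3062) (nat_lit 190) (.e (nat_lit 475185) (nat_lit 29) (.e (nat_lit 557100) (nat_lit 13) (.e (nat_lit 172106) (nat_lit 10) (.e (nat_lit 434227) (nat_lit 20) (.e (nat_lit 507929) (nat_lit 10) (.e (nat_lit 5645) (nat_lit 312) .nil))))))) (.g (nat_lit 1) (.e (nat_lit 67321) (nat_lit 0) .nil) .nil))))) (.nd (nat_lit 8) (.nd (nat_lit 9) 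
(.lf (nat_lit 462057) (.g (nat_lit 2094) (.e (nat_lit 2945) (nat_lit 184) (.e (nat_lit 426200) (nat_lit 9) (.e (nat_lit 426436) (nat_lit 18) (.e (nat_lit 98342) (nat_lit 20) (.e (nat_lit 229120) (nat_lit 12) .nil))))) (.g (nat_lit 0) (.e (nat_lit 59321) (nat_lit 0) .nil) .nil))) 
(.lf (nat_lit 462569) (.g (nat_lit 2048) (.e (nat_lit 3052) (nat_lit 189) (.e (nat_lit 466977) (nat_lit 22) (.e (nat_lit 196681) (nat_lit 17) (.e (nat_lit 131089) (nat_lit 1) .nil)))) (.g (nat_lit 0) (.e (nat_lit 66958) (nat_lit 0) .nil) .nil)))) (.nd (nat_lit 9) 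
(.lf (nat_lit 462313) (.g (nat_lit 2327) (.e (nat_lit 3004) (nat_lit 186) (.e (nat_lit 442373) (nat_lit 0) (.e (nat_lit 1853) (nat_lit 124) (.e (nat_lit 557107) (nat_lit 15) (.e (nat_lit 188439) (nat_lit 20) (.e (nat_lit 3272) (nat_lit 199) (.e (nat_lit 548896) (nat_lit 14) .nil))))))) (.g (nat_lit 1) (.e (nat_lit 62016) (nat_lit 0) .nil) .nil))) 
(.lf (nat_lit 462825) (.g (nat_lit 3735) (.e (nat_lit 3062) (nat_lit 190) (.e (nat_lit 475185) (nat_lit 29) (.e (nat_lit 557109) (nat_lit 15) (.e (nat_lit 188450) (nat_lit 23) (.e (nat_lit 204816) (nat_lit 17) .nil))))) (.g (nat_lit 0) (.e (nat_lit 67452) (nat_lit 0) .nil) .nil)))))))) (.nd (nat_lit 5) (.nd (nat_lit 6) (.nd (nat_lit 7) (.nd (nat_lit 8) (.nd (nat_lit 9) 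
(.lf (nat_lit 461849) (.g (nat_lit 1304) (.e (nat_lit 2897) (nat_lit 184) (.e (nat_lit 426556) (nat_lit 32) (.e (nat_lit 376835) (nat_lit 0) (.e (nat_lit 3631) (nat_lit 227) (.e (nat_lit 778323) (nat_lit 5) .nil))))) (.g (nat_lit 0) (.e (nat_lit 58838) (nat_lit 0) .nil) .nil))) 
(.lf (nat_lit 462361) (.g (nat_lit 5069) (.e (nat_lit 3009) (nat_lit 187) (.e (nat_lit 450579) (nat_lit 5) (.e (nat_lit 532523) (nat_lit 7) (.e (nat_lit 319531) (nat_lit 16) (.e (nat_lit 286733) (nat_lit 2) (.e (nat_lit 90134) (nat_lit 9) .nil)))))) (.g (nat_lit 1) (.e (nat_lit 62171) (nat_lit 0) .nil) .nil)))) (.nd (nat_lit 9) 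
(.lf (nat_lit 462105) (.g (nat_lit 1214) (.e (nat_lit 2955) (nat_lit 185) (.e (nat_lit 434233) (nat_lit 23) (.e (nat_lit 532523) (nat_lit 7) (.e (nat_lit 319528) (nat_lit 16) .nil)))) (.g (nat_lit 0) (.e (nat_lit 59627) (nat_lit 0) .nil) .nil))) 
(.lf (nat_lit 462617) (.g (nat_lit 3199) (.e (nat_lit 3061) (nat_lit 190) (.e (nat_lit 475185) (nat_lit 29) (.e (nat_lit 557109) (nat_lit 15) (.e (nat_lit 188452) (nat_lit 23) (.e (nat_lit 204821) (nat_lit 17) .nil))))) (.g (nat_lit 0) (.e (nat_lit 67096) (nat_lit 0) .nil) .nil))))) (.nd (nat_lit 8) (.nd (nat_lit 9) 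
(.lf (nat_lit 461977) (.g (nat_lit 3604) (.e (nat_lit 2939) (nat_lit 184) (.e (nat_lit 426129) (nat_lit 3) (.e (nat_lit 204885) (nat_lit 33) (.e (nat_lit 401434) (nat_lit 9) (.e (nat_lit 426125) (nat_lit 2) (.e (nat_lit 196661) (nat_lit 12) (.e (nat_lit 57748) (nat_lit 201) .nil))))))) (.g (nat_lit 1) (.e (nat_lit 59201) (nat_lit 0) .nil) .nil))) 
(.lf (nat_lit 462489) (.g (nat_lit 379) (.e (nat_lit 3022) (nat_lit 187) (.e (nat_lit 450586) (nat_lit 10) (.e (nat_lit 573471) (nat_lit 11) .nil))) (.g (nat_lit 0) (.e (nat_lit 64993) (nat_lit 0) .nil) .nil)))) (.nd (nat_lit 9) 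
(.lf (nat_lit 462233) (.g (nat_lit 4379) (.e (nat_lit 2980) (nat_lit 185) (.e (nat_lit 434231) (nat_lit 23) (.e (nat_lit 532549) (nat_lit 12) (.e (nat_lit 360475) (nat_lit 8) (.e (nat_lit 557090) (nat_lit 12) (.e (nat_lit 164020) (nat_lit 45) (.e (nat_lit 696329) (nat_lit 5) .nil))))))) (.g (nat_lit 1) (.e (nat_lit 60920) (nat_lit 0) .nil) .nil))) 
(.lf (nat_lit 462745) (.g (nat_lit 4264) (.e (nat_lit 3062) (nat_lit 190) (.e (nat_lit 475185) (nat_lit 29) (.e (nat_lit 557100) (nat_lit 13) (.e (nat_lit 172113) (nat_lit 10) (.e (nat_lit 434245) (nat_lit 28) (.e (nat_lit 573468) (nat_lit 10) (.e (nat_lit 16128) (nat_lit 205) .nil))))))) (.g (nat_lit 1) (.e (nat_lit 67369) (nat_lit 0) .nil) .nil)))))) 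
(.nd (nat_lit 7) (.nd (nat_lit 8) (.nd (nat_lit 9) 
(.lf (nat_lit 461913) (.g (nat_lit 3087) (.e (nat_lit 2936) (nat_lit 184) (.e (nat_lit 426163) (nat_lit 6) (.e (nat_lit 253991) (nat_lit 11) (.e (nat_lit 16436) (nat_lit 9) (.e (nat_lit 426533) (nat_lit 28) (.e (nat_lit 344067) (nat_lit 0) .nil)))))) (.g (nat_lit 1) (.e (nat_lit 59082) (nat_lit 0) .nil) .nil))) 
(.lf (nat_lit 462425) (.g (nat_lit 592) (.e (nat_lit 3016) (nat_lit 187) (.e (nat_lit 450580) (nat_lit 5) (.e (nat_lit 532563) (nat_lit 15) .nil))) (.g (nat_lit 0) (.e (nat_lit 63931) (nat_lit 0) .nil) .nil)))) (.nd (nat_lit 9) 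
(.lf (nat_lit 462169) (.g (nat_lit 3081) (.e (nat_lit 2965) (nat_lit 185) (.e (nat_lit 434231) (nat_lit 23) (.e (nat_lit 532550) (nat_lit 12) (.e (nat_lit 360472) (nat_lit 8) (.e (nat_lit 557090) (nat_lit 12) .nil))))) (.g (nat_lit 0) (.e (nat_lit 60335) (nat_lit 0) .nil) .nil))) 
(.lf (nat_lit 462681) (.g (nat_lit 2693) (.e (nat_lit 3062) (nat_lit 190) (.e (nat_lit 475185) (nat_lit 29) (.e (nat_lit 557098) (nat_lit 13) (.e (nat_lit 172104) (nat_lit 9) .nil)))) (.g (nat_lit 0) (.e (nat_lit 67305) (nat_lit 0) .nil) .nil))))) (.nd (nat_lit 8) (.nd (nat_lit 9) 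
(.lf (nat_lit 462041) (.g (nat_lit 1269) (.e (nat_lit 2941) (nat_lit 184) (.e (nat_lit 426508) (nat_lit 27) (.e (nat_lit 336228) (nat_lit 14) (.e (nat_lit 401437) (nat_lit 9) (.e (nat_lit 426533) (nat_lit 28) (.e (nat_lit 344067) (nat_lit 0) .nil)))))) (.g (nat_lit 1) (.e (nat_lit 59283) (nat_lit 0) .nil) .nil))) 
(.lf (nat_lit 462553) (.g (nat_lit 575) (.e (nat_lit 3044) (nat_lit 189) (.e (nat_lit 466977) (nat_lit 22) (.e (nat_lit 196668) (nat_lit 14) .nil))) (.g (nat_lit 0) (.e (nat_lit 66816) (nat_lit 0) .nil) .nil)))) (.nd (nat_lit 9) 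
(.lf (nat_lit 462297) (.g (nat_lit 986) (.e (nat_lit 2988) (nat_lit 186) (.e (nat_lit 442390) (nat_lit 11) (.e (nat_lit 336231) (nat_lit 14) (.e (nat_lit 401448) (nat_lit 10) .nil)))) (.g (nat_lit 0) (.e (nat_lit 61353) (nat_lit 0) .nil) .nil))) 
(.lf (nat_lit 462809) (.g (nat_lit 2487) (.e (nat_lit 3062) (nat_lit 190) (.e (nat_lit 475185) (nat_lit 29) (.e (nat_lit 557107) (nat_lit 15) (.e (nat_lit 188450) (nat_lit 23) (.e (nat_lit 204817) (nat_lit 17) (.e (nat_lit 7936) (nat_lit 357) .nil)))))) (.g (nat_lit 1) (.e (nat_lit 67436) (nat_lit 0) .nil) .nil))))))) (.nd (nat_lit 6) (.nd (nat_lit 7) (.nd (nat_lit 8) (.nd (nat_lit 9) 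
(.lf (nat_lit 461881) (.g (nat_lit 4275) (.e (nat_lit 2928) (nat_lit 184) (.e (nat_lit 426139) (nat_lit 3) (.e (nat_lit 204869) (nat_lit 29) (.e (nat_lit 360474) (nat_lit 8) (.e (nat_lit 557091) (nat_lit 12) (.e (nat_lit 164020) (nat_lit 45) (.e (nat_lit 696328) (nat_lit 5) .nil))))))) (.g (nat_lit 1) (.e (nat_lit 58969) (nat_lit 0) .nil) .nil))) 
(.lf (nat_lit 462393) (.g (nat_lit 2647) (.e (nat_lit 3015) (nat_lit 187) (.e (nat_lit 450563) (nat_lit 0) (.e (nat_lit 6830) (nat_lit 367) (.e (nat_lit 57426) (nat_lit 15) (.e (nat_lit 360477) (nat_lit 11) (.e (nat_lit 581636) (nat_lit 0) .nil)))))) (.g (nat_lit 1) (.e (nat_lit 62974) (nat_lit 0) .nil) .nil)))) (.nd (nat_lit 9) 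
(.lf (nat_lit 462137) (.g (nat_lit 1457) (.e (nat_lit 2964) (nat_lit 185) (.e (nat_lit 434231) (nat_lit 23) (.e (nat_lit 532549) (nat_lit 12) (.e (nat_lit 360474) (nat_lit 8) .nil)))) (.g (nat_lit 0) (.e (nat_lit 60166) (nat_lit 0) .nil) .nil))) 
(.lf (nat_lit 462649) (.g (nat_lit 2838) (.e (nat_lit 3062) (nat_lit 190) (.e (nat_lit 475179) (nat_lit 24) (.e (nat_lit 516162) (nat_lit 11) (.e (nat_lit 442391) (nat_lit 19) (.e (nat_lit 401413) (nat_lit 0) (.e (nat_lit 3459) (nat_lit 216) (.e (nat_lit 688139) (nat_lit 5) .nil))))))) (.g (nat_lit 1) (.e (nat_lit 67239) (nat_lit 0) .nil) .nil))))) (.nd (nat_lit 8) (.nd (nat_lit 9) 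
(.lf (nat_lit 462009) (.g (nat_lit 1968) (.e (nat_lit 2939) (nat_lit 184) (.e (nat_lit 426503) (nat_lit 27) (.e (nat_lit 336231) (nat_lit 14) (.e (nat_lit 401458) (nat_lit 13) (.e (nat_lit 483350) (nat_lit 17) .nil))))) (.g (nat_lit 0) (.e (nat_lit 59247) (nat_lit 0) .nil) .nil))) 
(.lf (nat_lit 462521) (.g (nat_lit 2019) (.e (nat_lit 3027) (nat_lit 187) (.e (nat_lit 450579) (nat_lit 5) (.e (nat_lit 532522) (nat_lit 7) (.e (nat_lit 319530) (nat_lit 16) (.e (nat_lit 286733) (nat_lit 2) .nil))))) (.g (nat_lit 0) (.e (nat_lit 65980) (nat_lit 0) .nil) .nil)))) (.nd (nat_lit 9) 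
(.lf (nat_lit 462265) (.g (nat_lit 2791) (.e (nat_lit 2981) (nat_lit 185) (.e (nat_lit 434235) (nat_lit 24) (.e (nat_lit 540706) (nat_lit 12) (.e (nat_lit 360475) (nat_lit 8) (.e (nat_lit 557090) (nat_lit 12) (.e (nat_lit 164020) (nat_lit 45) (.e (nat_lit 696329) (nat_lit 5) .nil))))))) (.g (nat_lit 1) (.e (nat_lit 61037) (nat_lit 0) .nil) .nil))) 
(.lf (nat_lit 462777) (.g (nat_lit 2826) (.e (nat_lit 3062) (nat_lit 190) (.e (nat_lit 475185) (nat_lit 29) (.e (nat_lit 557101) (nat_lit 13) (.e (nat_lit 172115) (nat_lit 10) (.e (nat_lit 434227) (nat_lit 20) (.e (nat_lit 507930) (nat_lit 10) (.e (nat_lit 5651) (nat_lit 312) .nil))))))) (.g (nat_lit 1) (.e (nat_lit 67401) (nat_lit 0) .nil) .nil)))))) 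
(.nd (nat_lit 7) (.nd (nat_lit 8) (.nd (nat_lit 9) 
(.lf (nat_lit 461945) (.g (nat_lit 4137) (.e (nat_lit 2936) (nat_lit 184) (.e (nat_lit 426419) (nat_lit 15) (.e (nat_lit 1856) (nat_lit 124) (.e (nat_lit 557101) (nat_lit 13) (.e (nat_lit 172097) (nat_lit 9) (.e (nat_lit 426125) (nat_lit 2) (.e (nat_lit 196661) (nat_lit 12) (.e (nat_lit 57748) (nat_lit 201) .nil)))))))) (.g (nat_lit 1) (.e (nat_lit 59147) (nat_lit 0) .nil) .nil))) 
(.lf (nat_lit 462457) (.g (nat_lit 4472) (.e (nat_lit 3021) (nat_lit 187) (.e (nat_lit 450586) (nat_lit 10) (.e (nat_lit 573474) (nat_lit 12) (.e (nat_lit 57572) (nat_lit 54) (.e (nat_lit 770072) (nat_lit 8) (.e (nat_lit 65642) (nat_lit 15) (.e (nat_lit 7936) (nat_lit 200) (.e (nat_lit 557065) (nat_lit 9) .nil)))))))) (.g (nat_lit 1) (.e (nat_lit 64448) (nat_lit 0) .nil) .nil)))) (.nd (nat_lit 9) 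
(.lf (nat_lit 462201) (.g (nat_lit 4362) (.e (nat_lit 2975) (nat_lit 185) (.e (nat_lit 434231) (nat_lit 23) (.e (nat_lit 532550) (nat_lit 12) (.e (nat_lit 360474) (nat_lit 8) (.e (nat_lit 557088) (nat_lit 12) .nil))))) (.g (nat_lit 0) (.e (nat_lit 60518) (nat_lit 0) .nil) .nil))) 
(.lf (nat_lit 462713) (.g (nat_lit 3386) (.e (nat_lit 3062) (nat_lit 190) (.e (nat_lit 475185) (nat_lit 29) (.e (nat_lit 557100) (nat_lit 13) (.e (nat_lit 172106) (nat_lit 10) (.e (nat_lit 434231) (nat_lit 23) (.e (nat_lit 532481) (nat_lit 0) (.e (nat_lit 6617) (nat_lit 357) .nil))))))) (.g (nat_lit 1) (.e (nat_lit 67337) (nat_lit 0) .nil) .nil))))) (.nd (nat_lit 8) (.nd (nat_lit 9) 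
(.lf (nat_lit 462073) (.g (nat_lit 4005) (.e (nat_lit 2949) (nat_lit 184) (.e (nat_lit 426316) (nat_lit 12) (.e (nat_lit 475185) (nat_lit 29) (.e (nat_lit 557098) (nat_lit 13) (.e (nat_lit 172124) (nat_lit 14) .nil))))) (.g (nat_lit 0) (.e (nat_lit 59362) (nat_lit 0) .nil) .nil))) 
(.lf (nat_lit 462585) (.g (nat_lit 2153) (.e (nat_lit 3055) (nat_lit 190) (.e (nat_lit 475185) (nat_lit 29) (.e (nat_lit 557101) (nat_lit 13) (.e (nat_lit 172115) (nat_lit 10) (.e (nat_lit 434231) (nat_lit 23) (.e (nat_lit 532482) (nat_lit 0) (.e (nat_lit 6643) (nat_lit 357) .nil))))))) (.g (nat_lit 1) (.e (nat_lit 66992) (nat_lit 0) .nil) .nil)))) (.nd (nat_lit 9) 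
(.lf (nat_lit 462329) (.g (nat_lit 1170) (.e (nat_lit 3004) (nat_lit 186) (.e (nat_lit 442374) (nat_lit 0) (.e (nat_lit 2059) (nat_lit 142) (.e (nat_lit 704599) (nat_lit 6) .nil)))) (.g (nat_lit 0) (.e (nat_lit 62035) (nat_lit 0) .nil) .nil))) 
(.lf (nat_lit 462841) (.g (nat_lit 3374) (.e (nat_lit 3062) (nat_lit 190) (.e (nat_lit 475185) (nat_lit 29) (.e (nat_lit 557109) (nat_lit 15) (.e (nat_lit 188452) (nat_lit 23) (.e (nat_lit 204830) (nat_lit 18) (.e (nat_lit 57761) (nat_lit 215) (.e (nat_lit 2508) (nat_lit 157) .nil))))))) (.g (nat_lit 1) (.e (nat_lit 67468) (nat_lit 0) .nil) .nil)))))))))) 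
(.nd (nat_lit 3) (.nd (nat_lit 4) (.nd (nat_lit 5) (.nd (nat_lit 6) (.nd (nat_lit 7) 
(.nd (nat_lit 8) (.nd (nat_lit 9) 
(.lf (nat_lit 461829) (.g (nat_lit 5250) (.e (nat_lit 2884) (nat_lit 184) (.e (nat_lit 426339) (nat_lit 14) (.e (nat_lit 491537) (nat_lit 2) (.e (nat_lit 90170) (nat_lit 13) (.e (nat_lit 172106) (nat_lit 10) (.e (nat_lit 434238) (nat_lit 25) (.e (nat_lit 548898) (nat_lit 14) .nil))))))) (.g (nat_lit 1) (.e (nat_lit 58795) (nat_lit 0) .nil) .nil))) 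
(.lf (nat_lit 462341) (.g (nat_lit 3274) (.e (nat_lit 3004) (nat_lit 186) (.e (nat_lit 442374) (nat_lit 0) (.e (nat_lit 2175) (nat_lit 143) (.e (nat_lit 712755) (nat_lit 30) (.e (nat_lit 450593) (nat_lit 16) (.e (nat_lit 655364) (nat_lit 0) .nil)))))) (.g (nat_lit 1) (.e (nat_lit 62047) (nat_lit 0) .nil) .nil)))) (.nd (nat_lit 9) 
(.lf (nat_lit 462085) (.g (nat_lit 945) (.e (nat_lit 2946) (nat_lit 184) (.e (nat_lit 426188) (nat_lit 9) (.e (nat_lit 426444) (nat_lit 19) (.e (nat_lit 114432) (nat_lit 6) .nil)))) (.g (nat_lit 0) (.e (nat_lit 59435) (nat_lit 0) .nil) .nil))) 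
(.lf (nat_lit 462597) (.g (nat_lit 2239) (.e (nat_lit 3058) (nat_lit 190) (.e (nat_lit 475185) (nat_lit 29) (.e (nat_lit 557100) (nat_lit 13) (.e (nat_lit 172106) (nat_lit 10) .nil)))) (.g (nat_lit 0) (.e (nat_lit 67049) (nat_lit 0) .nil) .nil))))) (.nd (nat_lit 8) (.nd (nat_lit 9) 
(.lf (nat_lit 461957) (.g (nat_lit 2840) (.e (nat_lit 2936) (nat_lit 184) (.e (nat_lit 426503) (nat_lit 27) (.e (nat_lit 336226) (nat_lit 14) (.e (nat_lit 401437) (nat_lit 9) (.e (nat_lit 426533) (nat_lit 28) (.e (nat_lit 344066) (nat_lit 0) .nil)))))) (.g (nat_lit 1) (.e (nat_lit 59161) (nat_lit 0) .nil) .nil))) 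
(.lf (nat_lit 462469) (.g (nat_lit 1490) (.e (nat_lit 3022) (nat_lit 187) (.e (nat_lit 458496) (nat_lit 0) (.e (nat_lit 5195) (nat_lit 294) (.e (nat_lit 57426) (nat_lit 15) (.e (nat_lit 360480) (nat_lit 14) (.e (nat_lit 638986) (nat_lit 5) .nil)))))) (.g (nat_lit 1) (.e (nat_lit 64810) (nat_lit 0) .nil) .nil)))) (.nd (nat_lit 9) 
(.lf (nat_lit 462213) (.g (nat_lit 2397) (.e (nat_lit 2978) (nat_lit 185) (.e (nat_lit 434231) (nat_lit 23) (.e (nat_lit 532550) (nat_lit 12) (.e (nat_lit 360474) (nat_lit 8) (.e (nat_lit 557094) (nat_lit 12) .nil))))) (.g (nat_lit 0) (.e (nat_lit 60699) (nat_lit 0) .nil) .nil))) 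
(.lf (nat_lit 462725) (.g (nat_lit 4075) (.e (nat_lit 3062) (nat_lit 190) (.e (nat_lit 475185) (nat_lit 29) (.e (nat_lit 557100) (nat_lit 13) (.e (nat_lit 172106) (nat_lit 10) (.e (nat_lit 434231) (nat_lit 23) (.e (nat_lit 532490) (nat_lit 0) (.e (nat_lit 7936) (nat_lit 357) .nil))))))) (.g (nat_lit 1) (.e (nat_lit 67349) (nat_lit 0) .nil) .nil)))))) 
(.nd (nat_lit 7) (.nd (nat_lit 8) (.nd (nat_lit 9) 
(.lf (nat_lit 461893) (.g (nat_lit 3507) (.e (nat_lit 2936) (nat_lit 184) (.e (nat_lit 426129) (nat_lit 3) (.e (nat_lit 204885) (nat_lit 33) (.e (nat_lit 401434) (nat_lit 9) (.e (nat_lit 426125) (nat_lit 2) (.e (nat_lit 196661) (nat_lit 12) (.e (nat_lit 57749) (nat_lit 201) .nil))))))) (.g (nat_lit 1) (.e (nat_lit 59025) (nat_lit 0) .nil) .nil))) 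
(.lf (nat_lit 462405) (.g (nat_lit 1619) (.e (nat_lit 3015) (nat_lit 187) (.e (nat_lit 450584) (nat_lit 9) (.e (nat_lit 573184) (nat_lit 6) (.e (nat_lit 81938) (nat_lit 20) (.e (nat_lit 2390) (nat_lit 156) (.e (nat_lit 819203) (nat_lit 0) .nil)))))) (.g (nat_lit 1) (.e (nat_lit 63336) (nat_lit 0) .nil) .nil)))) (.nd (nat_lit 9) 
(.lf (nat_lit 462149) (.g (nat_lit 3244) (.e (nat_lit 2964) (nat_lit 185) (.e (nat_lit 434231) (nat_lit 23) (.e (nat_lit 532550) (nat_lit 12) (.e (nat_lit 360474) (nat_lit 8) (.e (nat_lit 557088) (nat_lit 12) (.e (nat_lit 164020) (nat_lit 45) (.e (nat_lit 696327) (nat_lit 5) .nil))))))) (.g (nat_lit 1) (.e (nat_lit 60182) (nat_lit 0) .nil) .nil))) 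
(.lf (nat_lit 462661) (.g (nat_lit 1634) (.e (nat_lit 3062) (nat_lit 190) (.e (nat_lit 475179) (nat_lit 24) (.e (nat_lit 516176) (nat_lit 14) (.e (nat_lit 466944) (nat_lit 0) .nil)))) (.g (nat_lit 0) (.e (nat_lit 67279) (nat_lit 0) .nil) .nil))))) (.nd (nat_lit 8) (.nd (nat_lit 9) 
(.lf (nat_lit 462021) (.g (nat_lit 3544) (.e (nat_lit 2940) (nat_lit 184) (.e (nat_lit 426401) (nat_lit 15) (.e (nat_lit 1859) (nat_lit 124) (.e (nat_lit 557098) (nat_lit 13) (.e (nat_lit 172097) (nat_lit 9) (.e (nat_lit 426125) (nat_lit 2) (.e (nat_lit 196661) (nat_lit 12) (.e (nat_lit 57748) (nat_lit 201) .nil)))))))) (.g (nat_lit 1) (.e (nat_lit 59262) (nat_lit 0) .nil) .nil))) 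
(.lf (nat_lit 462533) (.g (nat_lit 1635) (.e (nat_lit 3028) (nat_lit 187) (.e (nat_lit 450579) (nat_lit 5) (.e (nat_lit 532569) (nat_lit 16) (.e (nat_lit 401448) (nat_lit 10) .nil)))) (.g (nat_lit 0) (.e (nat_lit 66483) (nat_lit 0) .nil) .nil)))) (.nd (nat_lit 9) 
(.lf (nat_lit 462277) (.g (nat_lit 1043) (.e (nat_lit 2988) (nat_lit 186) (.e (nat_lit 442374) (nat_lit 0) (.e (nat_lit 2058) (nat_lit 142) (.e (nat_lit 704598) (nat_lit 6) .nil)))) (.g (nat_lit 0) (.e (nat_lit 61294) (nat_lit 0) .nil) .nil))) 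
(.lf (nat_lit 462789) (.g (nat_lit 4406) (.e (nat_lit 3062) (nat_lit 190) (.e (nat_lit 475185) (nat_lit 29) (.e (nat_lit 557101) (nat_lit 13) (.e (nat_lit 172115) (nat_lit 10) (.e (nat_lit 434231) (nat_lit 23) (.e (nat_lit 532481) (nat_lit 0) (.e (nat_lit 6626) (nat_lit 357) .nil))))))) (.g (nat_lit 1) (.e (nat_lit 67413) (nat_lit 0) .nil) .nil))))))) 
(.nd (nat_lit 6) (.nd (nat_lit 7) (.nd (nat_lit 8) (.nd (nat_lit 9) 
(.lf (nat_lit 461861) (.g (nat_lit 2658) (.e (nat_lit 2902) (nat_lit 184) (.e (nat_lit 426435) (nat_lit 18) (.e (nat_lit 98384) (nat_lit 32) (.e (nat_lit 475177) (nat_lit 24) (.e (nat_lit 516146) (nat_lit 9) (.e (nat_lit 426428) (nat_lit 17) (.e (nat_lit 90133) (nat_lit 9) .nil))))))) (.g (nat_lit 1) (.e (nat_lit 58855) (nat_lit 0) .nil) .nil))) 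
(.lf (nat_lit 462373) (.g (nat_lit 1048) (.e (nat_lit 3011) (nat_lit 187) (.e (nat_lit 450605) (nat_lit 27) (.e (nat_lit 745475) (nat_lit 0) (.e (nat_lit 1586) (nat_lit 111) (.e (nat_lit 368384) (nat_lit 10) (.e (nat_lit 573445) (nat_lit 0) .nil)))))) (.g (nat_lit 1) (.e (nat_lit 62606) (nat_lit 0) .nil) .nil)))) (.nd (nat_lit 9) 
(.lf (nat_lit 462117) (.g (nat_lit 3361) (.e (nat_lit 2962) (nat_lit 185) (.e (nat_lit 434268) (nat_lit 36) (.e (nat_lit 639020) (nat_lit 16) (.e (nat_lit 65586) (nat_lit 7) (.e (nat_lit 319531) (nat_lit 16) (.e (nat_lit 286727) (nat_lit 0) (.e (nat_lit 6646) (nat_lit 357) .nil))))))) (.g (nat_lit 1) (.e (nat_lit 59925) (nat_lit 0) .nil) .nil))) 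
(.lf (nat_lit 462629) (.g (nat_lit 3934) (.e (nat_lit 3062) (nat_lit 190) (.e (nat_lit 483072) (nat_lit 26) (.e (nat_lit 532544) (nat_lit 10) (.e (nat_lit 344133) (nat_lit 26) (.e (nat_lit 557105) (nat_lit 14) (.e (nat_lit 180252) (nat_lit 10) (.e (nat_lit 573442) (nat_lit 0) .nil))))))) (.g (nat_lit 1) (.e (nat_lit 67115) (nat_lit 0) .nil) .nil))))) (.nd (nat_lit 8) (.nd (nat_lit 9) 
(.lf (nat_lit 461989) (.g (nat_lit 3549) (.e (nat_lit 2939) (nat_lit 184) (.e (nat_lit 426419) (nat_lit 15) (.e (nat_lit 1856) (nat_lit 124) (.e (nat_lit 557101) (nat_lit 13) (.e (nat_lit 172097) (nat_lit 9) (.e (nat_lit 426140) (nat_lit 3) (.e (nat_lit 204821) (nat_lit 17) (.e (nat_lit 6674) (nat_lit 357) .nil)))))))) (.g (nat_lit 1) (.e (nat_lit 59222) (nat_lit 0) .nil) .nil))) 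
(.lf (nat_lit 462501) (.g (nat_lit 4673) (.e (nat_lit 3025) (nat_lit 187) (.e (nat_lit 450579) (nat_lit 5) (.e (nat_lit 532522) (nat_lit 7) (.e (nat_lit 319530) (nat_lit 16) (.e (nat_lit 286733) (nat_lit 2) (.e (nat_lit 90134) (nat_lit 9) .nil)))))) (.g (nat_lit 1) (.e (nat_lit 65270) (nat_lit 0) .nil) .nil)))) (.nd (nat_lit 9) 
(.lf (nat_lit 462245) (.g (nat_lit 1395) (.e (nat_lit 2980) (nat_lit 185) (.e (nat_lit 434231) (nat_lit 23) (.e (nat_lit 532569) (nat_lit 16) (.e (nat_lit 401448) (nat_lit 10) .nil)))) (.g (nat_lit 0) (.e (nat_lit 60951) (nat_lit 0) .nil) .nil))) 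
(.lf (nat_lit 462757) (.g (nat_lit 3374) (.e (nat_lit 3062) (nat_lit 190) (.e (nat_lit 475185) (nat_lit 29) (.e (nat_lit 557101) (nat_lit 13) (.e (nat_lit 172097) (nat_lit 9) (.e (nat_lit 426140) (nat_lit 3) (.e (nat_lit 204821) (nat_lit 17) (.e (nat_lit 7936) (nat_lit 357) .nil))))))) (.g (nat_lit 1) (.e (nat_lit 67381) (nat_lit 0) .nil) .nil)))))) 
(.nd (nat_lit 7) (.nd (nat_lit 8) (.nd (nat_lit 9) 
(.lf (nat_lit 461925) (.g (nat_lit 1679) (.e (nat_lit 2936) (nat_lit 184) (.e (nat_lit 426163) (nat_lit 6) (.e (nat_lit 253991) (nat_lit 11) (.e (nat_lit 16466) (nat_lit 13) .nil)))) (.g (nat_lit 0) (.e (nat_lit 59096) (nat_lit 0) .nil) .nil))) 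
(.lf (nat_lit 462437) (.g (nat_lit 906) (.e (nat_lit 3016) (nat_lit 187) (.e (nat_lit 450605) (nat_lit 27) (.e (nat_lit 745493) (nat_lit 6) (.e (nat_lit 81946) (nat_lit 20) (.e (nat_lit 1885) (nat_lit 127) (.e (nat_lit 581636) (nat_lit 0) .nil)))))) (.g (nat_lit 1) (.e (nat_lit 64269) (nat_lit 0) .nil) .nil)))) (.nd (nat_lit 9) 
(.lf (nat_lit 462181) (.g (nat_lit 1978) (.e (nat_lit 2973) (nat_lit 185) (.e (nat_lit 434268) (nat_lit 36) (.e (nat_lit 639020) (nat_lit 16) (.e (nat_lit 65540) (nat_lit 0) (.e (nat_lit 6218) (nat_lit 333) (.e (nat_lit 57819) (nat_lit 248) (.e (nat_lit 164359) (nat_lit 246) .nil))))))) (.g (nat_lit 1) (.e (nat_lit 60435) (nat_lit 0) .nil) .nil))) 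
(.lf (nat_lit 462693) (.g (nat_lit 1933) (.e (nat_lit 3062) (nat_lit 190) (.e (nat_lit 475185) (nat_lit 29) (.e (nat_lit 557100) (nat_lit 13) (.e (nat_lit 172106) (nat_lit 10) (.e (nat_lit 434227) (nat_lit 20) (.e (nat_lit 507928) (nat_lit 10) (.e (nat_lit 5653) (nat_lit 312) .nil))))))) (.g (nat_lit 1) (.e (nat_lit 67317) (nat_lit 0) .nil) .nil))))) (.nd (nat_lit 8) (.nd (nat_lit 9) 
(.lf (nat_lit 462053) (.g (nat_lit 3304) (.e (nat_lit 2945) (nat_lit 184) (.e (nat_lit 426123) (nat_lit 2) (.e (nat_lit 196666) (nat_lit 13) (.e (nat_lit 65617) (nat_lit 10) (.e (nat_lit 344127) (nat_lit 26) .nil))))) (.g (nat_lit 0) (.e (nat_lit 59307) (nat_lit 0) .nil) .nil))) 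
(.lf (nat_lit 462565) (.g (nat_lit 2497) (.e (nat_lit 3044) (nat_lit 189) (.e (nat_lit 466981) (nat_lit 23) (.e (nat_lit 204861) (nat_lit 26) (.e (nat_lit 335988) (nat_lit 1) (.e (nat_lit 57927) (nat_lit 282) (.e (nat_lit 163849) (nat_lit 0) (.e (nat_lit 7936) (nat_lit 200) (.e (nat_lit 557065) (nat_lit 9) .nil)))))))) (.g (nat_lit 1) (.e (nat_lit 66869) (nat_lit 0) .nil) .nil)))) 
(.nd (nat_lit 9) 
(.lf (nat_lit 462309) (.g (nat_lit 4239) (.e (nat_lit 2999) (nat_lit 186) (.e (nat_lit 442433) (nat_lit 25) (.e (nat_lit 245784) (nat_lit 9) (.e (nat_lit 1673) (nat_lit 116) (.e (nat_lit 401448) (nat_lit 10) (.e (nat_lit 434238) (nat_lit 25) (.e (nat_lit 548898) (nat_lit 14) .nil))))))) (.g (nat_lit 1) (.e (nat_lit 61826) (nat_lit 0) .nil) .nil))) 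
(.lf (nat_lit 462821) (.g (nat_lit 2823) (.e (nat_lit 3062) (nat_lit 190) (.e (nat_lit 475185) (nat_lit 29) (.e (nat_lit 557109) (nat_lit 15) (.e (nat_lit 188449) (nat_lit 22) (.e (nat_lit 196628) (nat_lit 9) .nil))))) (.g (nat_lit 0) (.e (nat_lit 67448) (nat_lit 0) .nil) .nil)))))))) (.nd (nat_lit 5) (.nd (nat_lit 6) (.nd (nat_lit 7) (.nd (nat_lit 8) (.nd (nat_lit 9) 
(.lf (nat_lit 461845) (.g (nat_lit 1928) (.e (nat_lit 2897) (nat_lit 184) (.e (nat_lit 426481) (nat_lit 27) (.e (nat_lit 336200) (nat_lit 12) (.e (nat_lit 385094) (nat_lit 49) (.e (nat_lit 778323) (nat_lit 5) (.e (nat_lit 81664) (nat_lit 32) .nil)))))) (.g (nat_lit 1) (.e (nat_lit 58833) (nat_lit 0) .nil) .nil))) 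
(.lf (nat_lit 462357) (.g (nat_lit 2065) (.e (nat_lit 3005) (nat_lit 186) (.e (nat_lit 442374) (nat_lit 0) (.e (nat_lit 2175) (nat_lit 143) (.e (nat_lit 712755) (nat_lit 30) (.e (nat_lit 450593) (nat_lit 16) .nil))))) (.g (nat_lit 0) (.e (nat_lit 62132) (nat_lit 0) .nil) .nil)))) (.nd (nat_lit 9) 
(.lf (nat_lit 462101) (.g (nat_lit 1758) (.e (nat_lit 2947) (nat_lit 184) (.e (nat_lit 426137) (nat_lit 3) (.e (nat_lit 204869) (nat_lit 29) (.e (nat_lit 360474) (nat_lit 8) (.e (nat_lit 557091) (nat_lit 12) .nil))))) (.g (nat_lit 0) (.e (nat_lit 59599) (nat_lit 0) .nil) .nil))) 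
(.lf (nat_lit 462613) (.g (nat_lit 2695) (.e (nat_lit 3060) (nat_lit 190) (.e (nat_lit 475185) (nat_lit 29) (.e (nat_lit 557107) (nat_lit 15) (.e (nat_lit 188450) (nat_lit 23) (.e (nat_lit 204821) (nat_lit 17) (.e (nat_lit 7936) (nat_lit 357) .nil)))))) (.g (nat_lit 1) (.e (nat_lit 67077) (nat_lit 0) .nil) .nil))))) (.nd (nat_lit 8) (.nd (nat_lit 9) 
(.lf (nat_lit 461973) (.g (nat_lit 2118) (.e (nat_lit 2937) (nat_lit 184) (.e (nat_lit 426318) (nat_lit 12) (.e (nat_lit 475185) (nat_lit 29) (.e (nat_lit 557096) (nat_lit 13) (.e (nat_lit 172126) (nat_lit 14) .nil))))) (.g (nat_lit 0) (.e (nat_lit 59179) (nat_lit 0) .nil) .nil))) 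
(.lf (nat_lit 462485) (.g (nat_lit 2038) (.e (nat_lit 3022) (nat_lit 187) (.e (nat_lit 450580) (nat_lit 5) (.e (nat_lit 532563) (nat_lit 15) (.e (nat_lit 385114) (nat_lit 53) (.e (nat_lit 811008) (nat_lit 0) .nil))))) (.g (nat_lit 0) (.e (nat_lit 64908) (nat_lit 0) .nil) .nil)))) (.nd (nat_lit 9) 
(.lf (nat_lit 462229) (.g (nat_lit 1578) (.e (nat_lit 2980) (nat_lit 185) (.e (nat_lit 434231) (nat_lit 23) (.e (nat_lit 532549) (nat_lit 12) (.e (nat_lit 360474) (nat_lit 8) .nil)))) (.g (nat_lit 0) (.e (nat_lit 60916) (nat_lit 0) .nil) .nil))) 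
(.lf (nat_lit 462741) (.g (nat_lit 2509) (.e (nat_lit 3062) (nat_lit 190) (.e (nat_lit 475185) (nat_lit 29) (.e (nat_lit 557100) (nat_lit 13) (.e (nat_lit 172113) (nat_lit 10) (.e (nat_lit 434227) (nat_lit 20) (.e (nat_lit 507930) (nat_lit 10) (.e (nat_lit 5665) (nat_lit 312) .nil))))))) (.g (nat_lit 1) (.e (nat_lit 67365) (nat_lit 0) .nil) .nil)))))) 
(.nd (nat_lit 7) (.nd (nat_lit 8) (.nd (nat_lit 9) 
(.lf (nat_lit 461909) (.g (nat_lit 3727) (.e (nat_lit 2936) (nat_lit 184) (.e (nat_lit 426163) (nat_lit 6) (.e (nat_lit 253991) (nat_lit 11) (.e (nat_lit 16433) (nat_lit 9) (.e (nat_lit 426533) (nat_lit 28) .nil))))) (.g (nat_lit 0) (.e (nat_lit 59076) (nat_lit 0) .nil) .nil))) 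
(.lf (nat_lit 462421) (.g (nat_lit 1196) (.e (nat_lit 3016) (nat_lit 187) (.e (nat_lit 458496) (nat_lit 0) (.e (nat_lit 5195) (nat_lit 294) (.e (nat_lit 57428) (nat_lit 15) (.e (nat_lit 360480) (nat_lit 14) (.e (nat_lit 638986) (nat_lit 5) .nil)))))) (.g (nat_lit 1) (.e (nat_lit 63873) (nat_lit 0) .nil) .nil)))) (.nd (nat_lit 9) 
(.lf (nat_lit 462165) (.g (nat_lit 4422) (.e (nat_lit 2965) (nat_lit 185) (.e (nat_lit 434231) (nat_lit 23) (.e (nat_lit 532549) (nat_lit 12) (.e (nat_lit 360474) (nat_lit 8) (.e (nat_lit 557091) (nat_lit 12) .nil))))) (.g (nat_lit 0) (.e (nat_lit 60331) (nat_lit 0) .nil) .nil))) 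
(.lf (nat_lit 462677) (.g (nat_lit 2175) (.e (nat_lit 3062) (nat_lit 190) (.e (nat_lit 475185) (nat_lit 29) (.e (nat_lit 557098) (nat_lit 13) (.e (nat_lit 172094) (nat_lit 9) .nil)))) (.g (nat_lit 0) (.e (nat_lit 67301) (nat_lit 0) .nil) .nil))))) (.nd (nat_lit 8) (.nd (nat_lit 9) 
(.lf (nat_lit 462037) (.g (nat_lit 3691) (.e (nat_lit 2941) (nat_lit 184) (.e (nat_lit 426401) (nat_lit 15) (.e (nat_lit 1858) (nat_lit 124) (.e (nat_lit 557101) (nat_lit 13) (.e (nat_lit 172097) (nat_lit 9) (.e (nat_lit 426125) (nat_lit 2) (.e (nat_lit 196661) (nat_lit 12) (.e (nat_lit 57748) (nat_lit 201) .nil)))))))) (.g (nat_lit 1) (.e (nat_lit 59278) (nat_lit 0) .nil) .nil))) 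
(.lf (nat_lit 462549) (.g (nat_lit 2570) (.e (nat_lit 3044) (nat_lit 189) (.e (nat_lit 466974) (nat_lit 22) (.e (nat_lit 196681) (nat_lit 17) (.e (nat_lit 131089) (nat_lit 1) (.e (nat_lit 57930) (nat_lit 282) (.e (nat_lit 163850) (nat_lit 0) (.e (nat_lit 7936) (nat_lit 200) (.e (nat_lit 557065) (nat_lit 9) .nil)))))))) (.g (nat_lit 1) (.e (nat_lit 66804) (nat_lit 0) .nil) .nil)))) 
(.nd (nat_lit 9) 
(.lf (nat_lit 462293) (.g (nat_lit 1054) (.e (nat_lit 2988) (nat_lit 186) (.e (nat_lit 442390) (nat_lit 11) (.e (nat_lit 336231) (nat_lit 14) (.e (nat_lit 401446) (nat_lit 10) .nil)))) (.g (nat_lit 0) (.e (nat_lit 61345) (nat_lit 0) .nil) .nil))) 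
(.lf (nat_lit 462805) (.g (nat_lit 1686) (.e (nat_lit 3062) (nat_lit 190) (.e (nat_lit 475185) (nat_lit 29) (.e (nat_lit 557107) (nat_lit 15) (.e (nat_lit 188447) (nat_lit 22) .nil)))) (.g (nat_lit 0) (.e (nat_lit 67432) (nat_lit 0) .nil) .nil))))))) (.nd (nat_lit 6) (.nd (nat_lit 7) (.nd (nat_lit 8) (.nd (nat_lit 9) 
(.lf (nat_lit 461877) (.g (nat_lit 3035) (.e (nat_lit 2950) (nat_lit 184) (.e (nat_lit 426137) (nat_lit 3) (.e (nat_lit 204869) (nat_lit 29) (.e (nat_lit 360474) (nat_lit 8) (.e (nat_lit 557091) (nat_lit 12) (.e (nat_lit 164020) (nat_lit 45) (.e (nat_lit 696327) (nat_lit 5) .nil))))))) (.g (nat_lit 1) (.e (nat_lit 58938) (nat_lit 0) .nil) .nil))) 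
(.lf (nat_lit 462389) (.g (nat_lit 2569) (.e (nat_lit 3015) (nat_lit 187) (.e (nat_lit 450563) (nat_lit 0) (.e (nat_lit 6740) (nat_lit 365) (.e (nat_lit 1201) (nat_lit 88) (.e (nat_lit 65610) (nat_lit 10) (.e (nat_lit 344138) (nat_lit 29) (.e (nat_lit 581635) (nat_lit 0) .nil))))))) (.g (nat_lit 1) (.e (nat_lit 62968) (nat_lit 0) .nil) .nil)))) (.nd (nat_lit 9) 
(.lf (nat_lit 462133) (.g (nat_lit 1980) (.e (nat_lit 2964) (nat_lit 185) (.e (nat_lit 434231) (nat_lit 23) (.e (nat_lit 532549) (nat_lit 12) (.e (nat_lit 360473) (nat_lit 8) (.e (nat_lit 557091) (nat_lit 12) (.e (nat_lit 164018) (nat_lit 45) (.e (nat_lit 696328) (nat_lit 5) .nil))))))) (.g (nat_lit 1) (.e (nat_lit 60153) (nat_lit 0) .nil) .nil))) 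
(.lf (nat_lit 462645) (.g (nat_lit 6494) (.e (nat_lit 3062) (nat_lit 190) (.e (nat_lit 475179) (nat_lit 24) (.e (nat_lit 516151) (nat_lit 9) (.e (nat_lit 426211) (nat_lit 9) (.e (nat_lit 426569) (nat_lit 35) (.e (nat_lit 401414) (nat_lit 0) (.e (nat_lit 3459) (nat_lit 216) (.e (nat_lit 688139) (nat_lit 5) .nil)))))))) (.g (nat_lit 1) (.e (nat_lit 67190) (nat_lit 0) .nil) .nil))))) 
(.nd (nat_lit 8) (.nd (nat_lit 9) 
(.lf (nat_lit 462005) (.g (nat_lit 2886) (.e (nat_lit 2939) (nat_lit 184) (.e (nat_lit 426503) (nat_lit 27) (.e (nat_lit 336229) (nat_lit 14) (.e (nat_lit 401438) (nat_lit 9) (.e (nat_lit 426533) (nat_lit 28) (.e (nat_lit 344067) (nat_lit 0) .nil)))))) (.g (nat_lit 1) (.e (nat_lit 59242) (nat_lit 0) .nil) .nil))) 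
(.lf (nat_lit 462517) (.g (nat_lit 2180) (.e (nat_lit 3027) (nat_lit 187) (.e (nat_lit 450564) (nat_lit 0) (.e (nat_lit 5190) (nat_lit 294) (.e (nat_lit 57412) (nat_lit 12) (.e (nat_lit 336176) (nat_lit 10) (.e (nat_lit 344157) (nat_lit 36) (.e (nat_lit 638986) (nat_lit 5) .nil))))))) (.g (nat_lit 1) (.e (nat_lit 65763) (nat_lit 0) .nil) .nil)))) (.nd (nat_lit 9) 
(.lf (nat_lit 462261) (.g (nat_lit 4641) (.e (nat_lit 2981) (nat_lit 185) (.e (nat_lit 434231) (nat_lit 23) (.e (nat_lit 532550) (nat_lit 12) (.e (nat_lit 360474) (nat_lit 8) (.e (nat_lit 557091) (nat_lit 12) .nil))))) (.g (nat_lit 0) (.e (nat_lit 61033) (nat_lit 0) .nil) .nil))) 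
(.lf (nat_lit 462773) (.g (nat_lit 2598) (.e (nat_lit 3062) (nat_lit 190) (.e (nat_lit 475185) (nat_lit 29) (.e (nat_lit 557101) (nat_lit 13) (.e (nat_lit 172115) (nat_lit 10) (.e (nat_lit 434227) (nat_lit 20) (.e (nat_lit 507929) (nat_lit 10) (.e (nat_lit 5665) (nat_lit 312) .nil))))))) (.g (nat_lit 1) (.e (nat_lit 67397) (nat_lit 0) .nil) .nil)))))) 
(.nd (nat_lit 7) (.nd (nat_lit 8) (.nd (nat_lit 9) 
(.lf (nat_lit 461941) (.g (nat_lit 3281) (.e (nat_lit 2936) (nat_lit 184) (.e (nat_lit 426353) (nat_lit 15) (.e (nat_lit 1860) (nat_lit 124) (.e (nat_lit 557101) (nat_lit 13) (.e (nat_lit 172097) (nat_lit 9) (.e (nat_lit 426125) (nat_lit 2) (.e (nat_lit 196661) (nat_lit 12) (.e (nat_lit 57749) (nat_lit 201) .nil)))))))) (.g (nat_lit 1) (.e (nat_lit 59140) (nat_lit 0) .nil) .nil))) 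
(.lf (nat_lit 462453) (.g (nat_lit 4120) (.e (nat_lit 3021) (nat_lit 187) (.e (nat_lit 450579) (nat_lit 5) (.e (nat_lit 532563) (nat_lit 15) (.e (nat_lit 385093) (nat_lit 49) (.e (nat_lit 778317) (nat_lit 3) (.e (nat_lit 57476) (nat_lit 28) (.e (nat_lit 557067) (nat_lit 9) .nil))))))) (.g (nat_lit 1) (.e (nat_lit 64390) (nat_lit 0) .nil) .nil)))) (.nd (nat_lit 9) 
(.lf (nat_lit 462197) (.g (nat_lit 3092) (.e (nat_lit 2975) (nat_lit 185) (.e (nat_lit 434231) (nat_lit 23) (.e (nat_lit 532549) (nat_lit 12) (.e (nat_lit 360473) (nat_lit 8) (.e (nat_lit 557089) (nat_lit 12) .nil))))) (.g (nat_lit 0) (.e (nat_lit 60514) (nat_lit 0) .nil) .nil))) 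
(.lf (nat_lit 462709) (.g (nat_lit 2421) (.e (nat_lit 3062) (nat_lit 190) (.e (nat_lit 475185) (nat_lit 29) (.e (nat_lit 557100) (nat_lit 13) (.e (nat_lit 172106) (nat_lit 10) (.e (nat_lit 434227) (nat_lit 20) (.e (nat_lit 507934) (nat_lit 10) (.e (nat_lit 5667) (nat_lit 312) .nil))))))) (.g (nat_lit 1) (.e (nat_lit 67333) (nat_lit 0) .nil) .nil))))) (.nd (nat_lit 8) (.nd (nat_lit 9) 
(.lf (nat_lit 462069) (.g (nat_lit 1403) (.e (nat_lit 2949) (nat_lit 184) (.e (nat_lit 426200) (nat_lit 9) (.e (nat_lit 426436) (nat_lit 18) (.e (nat_lit 98342) (nat_lit 20) .nil)))) (.g (nat_lit 0) (.e (nat_lit 59358) (nat_lit 0) .nil) .nil))) 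
(.lf (nat_lit 462581) (.g (nat_lit 2143) (.e (nat_lit 3055) (nat_lit 190) (.e (nat_lit 475185) (nat_lit 29) (.e (nat_lit 557101) (nat_lit 13) (.e (nat_lit 172097) (nat_lit 9) (.e (nat_lit 426125) (nat_lit 2) (.e (nat_lit 196661) (nat_lit 12) (.e (nat_lit 65280) (nat_lit 201) .nil))))))) (.g (nat_lit 1) (.e (nat_lit 66988) (nat_lit 0) .nil) .nil)))) (.nd (nat_lit 9) 
(.lf (nat_lit 462325) (.g (nat_lit 2533) (.e (nat_lit 3004) (nat_lit 186) (.e (nat_lit 442374) (nat_lit 0) (.e (nat_lit 2059) (nat_lit 142) (.e (nat_lit 704598) (nat_lit 6) (.e (nat_lit 188435) (nat_lit 20) (.e (nat_lit 3409) (nat_lit 212) (.e (nat_lit 655364) (nat_lit 0) .nil))))))) (.g (nat_lit 1) (.e (nat_lit 62031) (nat_lit 0) .nil) .nil))) 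
(.lf (nat_lit 462837) (.g (nat_lit 2326) (.e (nat_lit 3062) (nat_lit 190) (.e (nat_lit 475185) (nat_lit 29) (.e (nat_lit 557109) (nat_lit 15) (.e (nat_lit 188452) (nat_lit 23) (.e (nat_lit 204819) (nat_lit 17) .nil))))) (.g (nat_lit 0) (.e (nat_lit 67464) (nat_lit 0) .nil) .nil))))))))) (.nd (nat_lit 4) (.nd (nat_lit 5) (.nd (nat_lit 6) (.nd (nat_lit 7) (.nd (nat_lit 8) (.nd (nat_lit 9) 
(.lf (nat_lit 461837) (.g (nat_lit 3931) (.e (nat_lit 2885) (nat_lit 184) (.e (nat_lit 426125) (nat_lit 2) (.e (nat_lit 196666) (nat_lit 13) (.e (nat_lit 65617) (nat_lit 10) (.e (nat_lit 344130) (nat_lit 26) .nil))))) (.g (nat_lit 0) (.e (nat_lit 58812) (nat_lit 0) .nil) .nil))) 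
(.lf (nat_lit 462349) (.g (nat_lit 2455) (.e (nat_lit 3004) (nat_lit 186) (.e (nat_lit 442390) (nat_lit 11) (.e (nat_lit 336231) (nat_lit 14) (.e (nat_lit 401448) (nat_lit 10) (.e (nat_lit 434287) (nat_lit 43) (.e (nat_lit 696327) (nat_lit 5) .nil)))))) (.g (nat_lit 1) (.e (nat_lit 62116) (nat_lit 0) .nil) .nil)))) (.nd (nat_lit 9) 
(.lf (nat_lit 462093) (.g (nat_lit 612) (.e (nat_lit 2946) (nat_lit 184) (.e (nat_lit 426306) (nat_lit 12) (.e (nat_lit 475208) (nat_lit 41) .nil))) (.g (nat_lit 0) (.e (nat_lit 59484) (nat_lit 0) .nil) .nil))) 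
(.lf (nat_lit 462605) (.g (nat_lit 2841) (.e (nat_lit 3059) (nat_lit 190) (.e (nat_lit 475185) (nat_lit 29) (.e (nat_lit 557109) (nat_lit 15) (.e (nat_lit 188449) (nat_lit 22) (.e (nat_lit 196661) (nat_lit 12) .nil))))) (.g (nat_lit 0) (.e (nat_lit 67062) (nat_lit 0) .nil) .nil))))) (.nd (nat_lit 8) (.nd (nat_lit 9) 
(.lf (nat_lit 461965) (.g (nat_lit 3496) (.e (nat_lit 2936) (nat_lit 184) (.e (nat_lit 426503) (nat_lit 27) (.e (nat_lit 336231) (nat_lit 14) (.e (nat_lit 401458) (nat_lit 13) (.e (nat_lit 483354) (nat_lit 17) (.e (nat_lit 6674) (nat_lit 357) .nil)))))) (.g (nat_lit 1) (.e (nat_lit 59169) (nat_lit 0) .nil) .nil))) 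
(.lf (nat_lit 462477) (.g (nat_lit 2053) (.e (nat_lit 3022) (nat_lit 187) (.e (nat_lit 450580) (nat_lit 5) (.e (nat_lit 532523) (nat_lit 7) (.e (nat_lit 319504) (nat_lit 10) (.e (nat_lit 7936) (nat_lit 313) (.e (nat_lit 8324) (nat_lit 69) (.e (nat_lit 557067) (nat_lit 9) .nil))))))) (.g (nat_lit 1) (.e (nat_lit 64839) (nat_lit 0) .nil) .nil)))) (.nd (nat_lit 9) 
(.lf (nat_lit 462221) (.g (nat_lit 4812) (.e (nat_lit 2980) (nat_lit 185) (.e (nat_lit 434231) (nat_lit 23) (.e (nat_lit 532549) (nat_lit 12) (.e (nat_lit 360472) (nat_lit 8) (.e (nat_lit 557090) (nat_lit 12) (.e (nat_lit 164020) (nat_lit 45) (.e (nat_lit 696329) (nat_lit 5) .nil))))))) (.g (nat_lit 1) (.e (nat_lit 60898) (nat_lit 0) .nil) .nil))) 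
(.lf (nat_lit 462733) (.g (nat_lit 3323) (.e (nat_lit 3062) (nat_lit 190) (.e (nat_lit 475185) (nat_lit 29) (.e (nat_lit 557100) (nat_lit 13) (.e (nat_lit 172106) (nat_lit 10) (.e (nat_lit 434231) (nat_lit 23) (.e (nat_lit 532500) (nat_lit 1) (.e (nat_lit 57763) (nat_lit 215) (.e (nat_lit 2505) (nat_lit 157) .nil)))))))) (.g (nat_lit 1) (.e (nat_lit 67357) (nat_lit 0) .nil) .nil)))))) 
(.nd (nat_lit 7) (.nd (nat_lit 8) (.nd (nat_lit 9) 
(.lf (nat_lit 461901) (.g (nat_lit 1469) (.e (nat_lit 2936) (nat_lit 184) (.e (nat_lit 426163) (nat_lit 6) (.e (nat_lit 253990) (nat_lit 11) (.e (nat_lit 16438) (nat_lit 9) (.e (nat_lit 426533) (nat_lit 28) .nil))))) (.g (nat_lit 0) (.e (nat_lit 59063) (nat_lit 0) .nil) .nil))) 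
(.lf (nat_lit 462413) (.g (nat_lit 2006) (.e (nat_lit 3017) (nat_lit 187) (.e (nat_lit 450587) (nat_lit 10) (.e (nat_lit 573477) (nat_lit 12) (.e (nat_lit 57574) (nat_lit 55) (.e (nat_lit 778361) (nat_lit 9) .nil))))) (.g (nat_lit 0) (.e (nat_lit 63505) (nat_lit 0) .nil) .nil)))) (.nd (nat_lit 9) 
(.lf (nat_lit 462157) (.g (nat_lit 2923) (.e (nat_lit 2964) (nat_lit 185) (.e (nat_lit 434235) (nat_lit 24) (.e (nat_lit 540706) (nat_lit 12) (.e (nat_lit 360475) (nat_lit 8) (.e (nat_lit 557090) (nat_lit 12) (.e (nat_lit 164020) (nat_lit 45) (.e (nat_lit 696329) (nat_lit 5) .nil))))))) (.g (nat_lit 1) (.e (nat_lit 60217) (nat_lit 0) .nil) .nil))) 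
(.lf (nat_lit 462669) (.g (nat_lit 1882) (.e (nat_lit 3062) (nat_lit 190) (.e (nat_lit 475179) (nat_lit 24) (.e (nat_lit 516176) (nat_lit 14) (.e (nat_lit 466954) (nat_lit 11) (.e (nat_lit 335995) (nat_lit 1) .nil))))) (.g (nat_lit 0) (.e (nat_lit 67291) (nat_lit 0) .nil) .nil))))) (.nd (nat_lit 8) (.nd (nat_lit 9) 
(.lf (nat_lit 462029) (.g (nat_lit 949) (.e (nat_lit 2940) (nat_lit 184) (.e (nat_lit 426532) (nat_lit 28) (.e (nat_lit 344068) (nat_lit 0) (.e (nat_lit 2855) (nat_lit 184) (.e (nat_lit 426533) (nat_lit 28) (.e (nat_lit 344067) (nat_lit 0) .nil)))))) (.g (nat_lit 1) (.e (nat_lit 59270) (nat_lit 0) .nil) .nil))) 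
(.lf (nat_lit 462541) (.g (nat_lit 4068) (.e (nat_lit 3035) (nat_lit 188) (.e (nat_lit 458789) (nat_lit 23) (.e (nat_lit 532569) (nat_lit 16) (.e (nat_lit 401448) (nat_lit 10) (.e (nat_lit 434231) (nat_lit 23) (.e (nat_lit 532482) (nat_lit 0) (.e (nat_lit 6696) (nat_lit 357) .nil))))))) (.g (nat_lit 1) (.e (nat_lit 66731) (nat_lit 0) .nil) .nil)))) (.nd (nat_lit 9) 
(.lf (nat_lit 462285) (.g (nat_lit 2666) (.e (nat_lit 2988) (nat_lit 186) (.e (nat_lit 442374) (nat_lit 0) (.e (nat_lit 2059) (nat_lit 142) (.e (nat_lit 704599) (nat_lit 6) (.e (nat_lit 188440) (nat_lit 20) (.e (nat_lit 3408) (nat_lit 212) (.e (nat_lit 655363) (nat_lit 0) .nil))))))) (.g (nat_lit 1) (.e (nat_lit 61303) (nat_lit 0) .nil) .nil))) 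
(.lf (nat_lit 462797) (.g (nat_lit 4072) (.e (nat_lit 3062) (nat_lit 190) (.e (nat_lit 475185) (nat_lit 29) (.e (nat_lit 557101) (nat_lit 13) (.e (nat_lit 172115) (nat_lit 10) (.e (nat_lit 434231) (nat_lit 23) (.e (nat_lit 532482) (nat_lit 0) (.e (nat_lit 6665) (nat_lit 357) .nil))))))) (.g (nat_lit 1) (.e (nat_lit 67421) (nat_lit 0) .nil) .nil))))))) 
(.nd (nat_lit 6) (.nd (nat_lit 7) (.nd (nat_lit 8) (.nd (nat_lit 9) 
(.lf (nat_lit 461869) (.g (nat_lit 3273) (.e (nat_lit 2914) (nat_lit 184) (.e (nat_lit 426139) (nat_lit 3) (.e (nat_lit 204869) (nat_lit 29) (.e (nat_lit 360474) (nat_lit 8) (.e (nat_lit 557091) (nat_lit 12) .nil))))) (.g (nat_lit 0) (.e (nat_lit 58890) (nat_lit 0) .nil) .nil))) 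
(.lf (nat_lit 462381) (.g (nat_lit 698) (.e (nat_lit 3012) (nat_lit 187) (.e (nat_lit 450605) (nat_lit 27) (.e (nat_lit 745475) (nat_lit 0) (.e (nat_lit 1595) (nat_lit 111) (.e (nat_lit 368384) (nat_lit 10) .nil))))) (.g (nat_lit 0) (.e (nat_lit 62839) (nat_lit 0) .nil) .nil)))) (.nd (nat_lit 9) 
(.lf (nat_lit 462125) (.g (nat_lit 2529) (.e (nat_lit 2961) (nat_lit 185) (.e (nat_lit 434231) (nat_lit 23) (.e (nat_lit 532550) (nat_lit 12) (.e (nat_lit 360475) (nat_lit 8) (.e (nat_lit 557091) (nat_lit 12) .nil))))) (.g (nat_lit 0) (.e (nat_lit 59993) (nat_lit 0) .nil) .nil))) 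
(.lf (nat_lit 462637) (.g (nat_lit 2380) (.e (nat_lit 3062) (nat_lit 190) (.e (nat_lit 475179) (nat_lit 24) (.e (nat_lit 516146) (nat_lit 9) (.e (nat_lit 426250) (nat_lit 9) .nil)))) (.g (nat_lit 0) (.e (nat_lit 67141) (nat_lit 0) .nil) .nil))))) (.nd (nat_lit 8) (.nd (nat_lit 9) 
(.lf (nat_lit 461997) (.g (nat_lit 3536) (.e (nat_lit 2939) (nat_lit 184) (.e (nat_lit 426401) (nat_lit 15) (.e (nat_lit 1859) (nat_lit 124) (.e (nat_lit 557098) (nat_lit 13) (.e (nat_lit 172097) (nat_lit 9) (.e (nat_lit 426125) (nat_lit 2) (.e (nat_lit 196661) (nat_lit 12) (.e (nat_lit 57748) (nat_lit 201) .nil)))))))) (.g (nat_lit 1) (.e (nat_lit 59230) (nat_lit 0) .nil) .nil))) 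
(.lf (nat_lit 462509) (.g (nat_lit 915) (.e (nat_lit 3025) (nat_lit 187) (.e (nat_lit 450588) (nat_lit 10) (.e (nat_lit 573475) (nat_lit 12) .nil))) (.g (nat_lit 0) (.e (nat_lit 65310) (nat_lit 0) .nil) .nil)))) (.nd (nat_lit 9) 
(.lf (nat_lit 462253) (.g (nat_lit 4285) (.e (nat_lit 2981) (nat_lit 185) (.e (nat_lit 434231) (nat_lit 23) (.e (nat_lit 532549) (nat_lit 12) (.e (nat_lit 360474) (nat_lit 8) (.e (nat_lit 557091) (nat_lit 12) .nil))))) (.g (nat_lit 0) (.e (nat_lit 61025) (nat_lit 0) .nil) .nil))) 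
(.lf (nat_lit 462765) (.g (nat_lit 3215) (.e (nat_lit 3062) (nat_lit 190) (.e (nat_lit 475185) (nat_lit 29) (.e (nat_lit 557101) (nat_lit 13) (.e (nat_lit 172115) (nat_lit 10) (.e (nat_lit 434227) (nat_lit 20) (.e (nat_lit 507928) (nat_lit 10) (.e (nat_lit 5612) (nat_lit 312) .nil))))))) (.g (nat_lit 1) (.e (nat_lit 67389) (nat_lit 0) .nil) .nil)))))) 
(.nd (nat_lit 7) (.nd (nat_lit 8) (.nd (nat_lit 9) 
(.lf (nat_lit 461933) (.g (nat_lit 3283) (.e (nat_lit 2936) (nat_lit 184) (.e (nat_lit 426163) (nat_lit 6) (.e (nat_lit 253992) (nat_lit 11) (.e (nat_lit 16436) (nat_lit 9) (.e (nat_lit 426533) (nat_lit 28) (.e (nat_lit 344066) (nat_lit 0) .nil)))))) (.g (nat_lit 1) (.e (nat_lit 59110) (nat_lit 0) .nil) .nil))) 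
(.lf (nat_lit 462445) (.g (nat_lit 836) (.e (nat_lit 3020) (nat_lit 187) (.e (nat_lit 450584) (nat_lit 9) (.e (nat_lit 565268) (nat_lit 5) (.e (nat_lit 73789) (nat_lit 45) (.e (nat_lit 1162) (nat_lit 86) .nil))))) (.g (nat_lit 0) (.e (nat_lit 64336) (nat_lit 0) .nil) .nil)))) (.nd (nat_lit 9) 
(.lf (nat_lit 462189) (.g (nat_lit 4731) (.e (nat_lit 2974) (nat_lit 185) (.e (nat_lit 434231) (nat_lit 23) (.e (nat_lit 532550) (nat_lit 12) (.e (nat_lit 360474) (nat_lit 8) (.e (nat_lit 557091) (nat_lit 12) .nil))))) (.g (nat_lit 0) (.e (nat_lit 60451) (nat_lit 0) .nil) .nil))) 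
(.lf (nat_lit 462701) (.g (nat_lit 2898) (.e (nat_lit 3062) (nat_lit 190) (.e (nat_lit 475185) (nat_lit 29) (.e (nat_lit 557100) (nat_lit 13) (.e (nat_lit 172106) (nat_lit 10) (.e (nat_lit 434227) (nat_lit 20) (.e (nat_lit 507930) (nat_lit 10) (.e (nat_lit 5645) (nat_lit 312) .nil))))))) (.g (nat_lit 1) (.e (nat_lit 67325) (nat_lit 0) .nil) .nil))))) (.nd (nat_lit 8) (.nd (nat_lit 9) 
(.lf (nat_lit 462061) (.g (nat_lit 3858) (.e (nat_lit 2945) (nat_lit 184) (.e (nat_lit 426316) (nat_lit 12) (.e (nat_lit 475185) (nat_lit 29) (.e (nat_lit 557098) (nat_lit 13) (.e (nat_lit 172124) (nat_lit 14) .nil))))) (.g (nat_lit 0) (.e (nat_lit 59325) (nat_lit 0) .nil) .nil))) 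
(.lf (nat_lit 462573) (.g (nat_lit 2262) (.e (nat_lit 3055) (nat_lit 190) (.e (nat_lit 475179) (nat_lit 24) (.e (nat_lit 516119) (nat_lit 1) (.e (nat_lit 164345) (nat_lit 240) .nil)))) (.g (nat_lit 0) (.e (nat_lit 66975) (nat_lit 0) .nil) .nil)))) (.nd (nat_lit 9) 
(.lf (nat_lit 462317) (.g (nat_lit 2714) (.e (nat_lit 3004) (nat_lit 186) (.e (nat_lit 442374) (nat_lit 0) (.e (nat_lit 1856) (nat_lit 124) (.e (nat_lit 557107) (nat_lit 15) (.e (nat_lit 188440) (nat_lit 20) (.e (nat_lit 3272) (nat_lit 199) (.e (nat_lit 548896) (nat_lit 14) .nil))))))) (.g (nat_lit 1) (.e (nat_lit 62022) (nat_lit 0) .nil) .nil))) 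
(.lf (nat_lit 462829) (.g (nat_lit 2597) (.e (nat_lit 3062) (nat_lit 190) (.e (nat_lit 475185) (nat_lit 29) (.e (nat_lit 557109) (nat_lit 15) (.e (nat_lit 188452) (nat_lit 23) (.e (nat_lit 204815) (nat_lit 17) .nil))))) (.g (nat_lit 0) (.e (nat_lit 67456) (nat_lit 0) .nil) .nil)))))))) (.nd (nat_lit 5) (.nd (nat_lit 6) (.nd (nat_lit 7) (.nd (nat_lit 8) (.nd (nat_lit 9) 
(.lf (nat_lit 461853) (.g (nat_lit 2219) (.e (nat_lit 2900) (nat_lit 184) (.e (nat_lit 426565) (nat_lit 34) (.e (nat_lit 393268) (nat_lit 23) (.e (nat_lit 426436) (nat_lit 18) (.e (nat_lit 98334) (nat_lit 18) (.e (nat_lit 164305) (nat_lit 226) (.e (nat_lit 2439) (nat_lit 157) .nil))))))) (.g (nat_lit 1) (.e (nat_lit 58846) (nat_lit 0) .nil) .nil))) 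
(.lf (nat_lit 462365) (.g (nat_lit 3673) (.e (nat_lit 3009) (nat_lit 187) (.e (nat_lit 450580) (nat_lit 5) (.e (nat_lit 532523) (nat_lit 7) (.e (nat_lit 319532) (nat_lit 16) (.e (nat_lit 286733) (nat_lit 2) (.e (nat_lit 90134) (nat_lit 9) .nil)))))) (.g (nat_lit 1) (.e (nat_lit 62182) (nat_lit 0) .nil) .nil)))) (.nd (nat_lit 9) 
(.lf (nat_lit 462109) (.g (nat_lit 2418) (.e (nat_lit 2958) (nat_lit 185) (.e (nat_lit 434231) (nat_lit 23) (.e (nat_lit 532550) (nat_lit 12) (.e (nat_lit 360475) (nat_lit 8) (.e (nat_lit 557091) (nat_lit 12) .nil))))) (.g (nat_lit 0) (.e (nat_lit 59684) (nat_lit 0) .nil) .nil))) 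
(.lf (nat_lit 462621) (.g (nat_lit 3143) (.e (nat_lit 3062) (nat_lit 190) (.e (nat_lit 483072) (nat_lit 26) (.e (nat_lit 532544) (nat_lit 10) (.e (nat_lit 344131) (nat_lit 26) (.e (nat_lit 557103) (nat_lit 14) (.e (nat_lit 180250) (nat_lit 10) (.e (nat_lit 573442) (nat_lit 0) .nil))))))) (.g (nat_lit 1) (.e (nat_lit 67107) (nat_lit 0) .nil) .nil))))) (.nd (nat_lit 8) (.nd (nat_lit 9) 
(.lf (nat_lit 461981) (.g (nat_lit 1385) (.e (nat_lit 2939) (nat_lit 184) (.e (nat_lit 426163) (nat_lit 6) (.e (nat_lit 253991) (nat_lit 11) (.e (nat_lit 16431) (nat_lit 9) .nil)))) (.g (nat_lit 0) (.e (nat_lit 59205) (nat_lit 0) .nil) .nil))) 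
(.lf (nat_lit 462493) (.g (nat_lit 1902) (.e (nat_lit 3022) (nat_lit 187) (.e (nat_lit 450584) (nat_lit 9) (.e (nat_lit 573184) (nat_lit 6) (.e (nat_lit 81938) (nat_lit 20) (.e (nat_lit 2391) (nat_lit 156) (.e (nat_lit 819203) (nat_lit 0) .nil)))))) (.g (nat_lit 1) (.e (nat_lit 65147) (nat_lit 0) .nil) .nil)))) (.nd (nat_lit 9) 
(.lf (nat_lit 462237) (.g (nat_lit 3701) (.e (nat_lit 2980) (nat_lit 185) (.e (nat_lit 434231) (nat_lit 23) (.e (nat_lit 532550) (nat_lit 12) (.e (nat_lit 360474) (nat_lit 8) (.e (nat_lit 557088) (nat_lit 12) (.e (nat_lit 164018) (nat_lit 45) (.e (nat_lit 696330) (nat_lit 5) .nil))))))) (.g (nat_lit 1) (.e (nat_lit 60927) (nat_lit 0) .nil) .nil))) 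
(.lf (nat_lit 462749) (.g (nat_lit 3091) (.e (nat_lit 3062) (nat_lit 190) (.e (nat_lit 475185) (nat_lit 29) (.e (nat_lit 557100) (nat_lit 13) (.e (nat_lit 172113) (nat_lit 10) (.e (nat_lit 434248) (nat_lit 28) (.e (nat_lit 573475) (nat_lit 12) (.e (nat_lit 57567) (nat_lit 52) (.e (nat_lit 753680) (nat_lit 5) .nil)))))))) (.g (nat_lit 1) (.e (nat_lit 67373) (nat_lit 0) .nil) .nil)))))) 
(.nd (nat_lit 7) (.nd (nat_lit 8) (.nd (nat_lit 9) 
(.lf (nat_lit 461917) (.g (nat_lit 2982) (.e (nat_lit 2936) (nat_lit 184) (.e (nat_lit 426163) (nat_lit 6) (.e (nat_lit 253991) (nat_lit 11) (.e (nat_lit 16438) (nat_lit 9) (.e (nat_lit 426533) (nat_lit 28) (.e (nat_lit 344066) (nat_lit 0) .nil)))))) (.g (nat_lit 1) (.e (nat_lit 59086) (nat_lit 0) .nil) .nil))) 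
(.lf (nat_lit 462429) (.g (nat_lit 2115) (.e (nat_lit 3016) (nat_lit 187) (.e (nat_lit 450588) (nat_lit 10) (.e (nat_lit 573475) (nat_lit 12) (.e (nat_lit 57574) (nat_lit 55) .nil)))) (.g (nat_lit 0) (.e (nat_lit 64105) (nat_lit 0) .nil) .nil)))) (.nd (nat_lit 9) 
(.lf (nat_lit 462173) (.g (nat_lit 3321) (.e (nat_lit 2965) (nat_lit 185) (.e (nat_lit 434231) (nat_lit 23) (.e (nat_lit 532550) (nat_lit 12) (.e (nat_lit 360474) (nat_lit 8) (.e (nat_lit 557093) (nat_lit 12) .nil))))) (.g (nat_lit 0) (.e (nat_lit 60339) (nat_lit 0) .nil) .nil))) 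
(.lf (nat_lit 462685) (.g (nat_lit 1974) (.e (nat_lit 3062) (nat_lit 190) (.e (nat_lit 475185) (nat_lit 29) (.e (nat_lit 557100) (nat_lit 13) (.e (nat_lit 179968) (nat_lit 9) .nil)))) (.g (nat_lit 0) (.e (nat_lit 67309) (nat_lit 0) .nil) .nil))))) (.nd (nat_lit 8) (.nd (nat_lit 9) 
(.lf (nat_lit 462045) (.g (nat_lit 1072) (.e (nat_lit 2941) (nat_lit 184) (.e (nat_lit 426532) (nat_lit 28) (.e (nat_lit 344069) (nat_lit 0) (.e (nat_lit 2854) (nat_lit 184) (.e (nat_lit 426533) (nat_lit 28) (.e (nat_lit 344066) (nat_lit 0) .nil)))))) (.g (nat_lit 1) (.e (nat_lit 59287) (nat_lit 0) .nil) .nil))) 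
(.lf (nat_lit 462557) (.g (nat_lit 1732) (.e (nat_lit 3044) (nat_lit 189) (.e (nat_lit 466977) (nat_lit 22) (.e (nat_lit 196681) (nat_lit 17) (.e (nat_lit 131088) (nat_lit 1) (.e (nat_lit 57929) (nat_lit 282) (.e (nat_lit 163850) (nat_lit 0) (.e (nat_lit 7936) (nat_lit 200) (.e (nat_lit 557065) (nat_lit 9) .nil)))))))) (.g (nat_lit 1) (.e (nat_lit 66843) (nat_lit 0) .nil) .nil)))) 
(.nd (nat_lit 9) 
(.lf (nat_lit 462301) (.g (nat_lit 2221) (.e (nat_lit 2989) (nat_lit 186) (.e (nat_lit 442374) (nat_lit 0) (.e (nat_lit 1856) (nat_lit 124) (.e (nat_lit 557101) (nat_lit 13) (.e (nat_lit 172115) (nat_lit 10) (.e (nat_lit 434238) (nat_lit 25) (.e (nat_lit 548898) (nat_lit 14) .nil))))))) (.g (nat_lit 1) (.e (nat_lit 61385) (nat_lit 0) .nil) .nil))) 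
(.lf (nat_lit 462813) (.g (nat_lit 4515) (.e (nat_lit 3062) (nat_lit 190) (.e (nat_lit 475185) (nat_lit 29) (.e (nat_lit 557107) (nat_lit 15) (.e (nat_lit 188452) (nat_lit 23) (.e (nat_lit 204816) (nat_lit 17) (.e (nat_lit 6622) (nat_lit 357) .nil)))))) (.g (nat_lit 1) (.e (nat_lit 67440) (nat_lit 0) .nil) .nil))))))) (.nd (nat_lit 6) (.nd (nat_lit 7) (.nd (nat_lit 8) (.nd (nat_lit 9) 
(.lf (nat_lit 461885) (.g (nat_lit 2781) (.e (nat_lit 2928) (nat_lit 184) (.e (nat_lit 426316) (nat_lit 12) (.e (nat_lit 475185) (nat_lit 29) (.e (nat_lit 557107) (nat_lit 15) (.e (nat_lit 188420) (nat_lit 0) (.e (nat_lit 1856) (nat_lit 124) (.e (nat_lit 557072) (nat_lit 9) .nil))))))) (.g (nat_lit 1) (.e (nat_lit 58974) (nat_lit 0) .nil) .nil))) 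
(.lf (nat_lit 462397) (.g (nat_lit 895) (.e (nat_lit 3015) (nat_lit 187) (.e (nat_lit 458496) (nat_lit 0) (.e (nat_lit 5200) (nat_lit 294) (.e (nat_lit 57427) (nat_lit 15) (.e (nat_lit 360480) (nat_lit 14) (.e (nat_lit 638986) (nat_lit 5) .nil)))))) (.g (nat_lit 1) (.e (nat_lit 63008) (nat_lit 0) .nil) .nil)))) (.nd (nat_lit 9) 
(.lf (nat_lit 462141) (.g (nat_lit 2685) (.e (nat_lit 2964) (nat_lit 185) (.e (nat_lit 434231) (nat_lit 23) (.e (nat_lit 532549) (nat_lit 12) (.e (nat_lit 360475) (nat_lit 8) (.e (nat_lit 557090) (nat_lit 12) (.e (nat_lit 164020) (nat_lit 45) (.e (nat_lit 696328) (nat_lit 5) .nil))))))) (.g (nat_lit 1) (.e (nat_lit 60170) (nat_lit 0) .nil) .nil))) 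
(.lf (nat_lit 462653) (.g (nat_lit 3894) (.e (nat_lit 3062) (nat_lit 190) (.e (nat_lit 475179) (nat_lit 24) (.e (nat_lit 516163) (nat_lit 11) (.e (nat_lit 442391) (nat_lit 19) (.e (nat_lit 401414) (nat_lit 0) (.e (nat_lit 3459) (nat_lit 216) (.e (nat_lit 688139) (nat_lit 5) .nil))))))) (.g (nat_lit 1) (.e (nat_lit 67247) (nat_lit 0) .nil) .nil))))) (.nd (nat_lit 8) (.nd (nat_lit 9) 
(.lf (nat_lit 462013) (.g (nat_lit 1226) (.e (nat_lit 2939) (nat_lit 184) (.e (nat_lit 426532) (nat_lit 28) (.e (nat_lit 344069) (nat_lit 0) (.e (nat_lit 2855) (nat_lit 184) (.e (nat_lit 426533) (nat_lit 28) (.e (nat_lit 344066) (nat_lit 0) .nil)))))) (.g (nat_lit 1) (.e (nat_lit 59252) (nat_lit 0) .nil) .nil))) 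
(.lf (nat_lit 462525) (.g (nat_lit 2761) (.e (nat_lit 3027) (nat_lit 187) (.e (nat_lit 450586) (nat_lit 10) (.e (nat_lit 573474) (nat_lit 12) (.e (nat_lit 57572) (nat_lit 54) .nil)))) (.g (nat_lit 0) (.e (nat_lit 66213) (nat_lit 0) .nil) .nil)))) (.nd (nat_lit 9) 
(.lf (nat_lit 462269) (.g (nat_lit 485) (.e (nat_lit 2983) (nat_lit 186) (.e (nat_lit 442374) (nat_lit 0) (.e (nat_lit 2175) (nat_lit 143) .nil))) (.g (nat_lit 0) (.e (nat_lit 61089) (nat_lit 0) .nil) .nil))) 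
(.lf (nat_lit 462781) (.g (nat_lit 3319) (.e (nat_lit 3062) (nat_lit 190) (.e (nat_lit 475185) (nat_lit 29) (.e (nat_lit 557101) (nat_lit 13) (.e (nat_lit 172115) (nat_lit 10) (.e (nat_lit 434227) (nat_lit 20) (.e (nat_lit 507930) (nat_lit 10) (.e (nat_lit 5671) (nat_lit 312) .nil))))))) (.g (nat_lit 1) (.e (nat_lit 67405) (nat_lit 0) .nil) .nil)))))) 
(.nd (nat_lit 7) (.nd (nat_lit 8) (.nd (nat_lit 9) 
(.lf (nat_lit 461949) (.g (nat_lit 2423) (.e (nat_lit 2936) (nat_lit 184) (.e (nat_lit 426401) (nat_lit 15) (.e (nat_lit 1849) (nat_lit 124) (.e (nat_lit 557108) (nat_lit 15) (.e (nat_lit 188449) (nat_lit 22) (.e (nat_lit 196661) (nat_lit 12) (.e (nat_lit 57748) (nat_lit 201) .nil))))))) (.g (nat_lit 1) (.e (nat_lit 59151) (nat_lit 0) .nil) .nil))) 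
(.lf (nat_lit 462461) (.g (nat_lit 1484) (.e (nat_lit 3021) (nat_lit 187) (.e (nat_lit 450605) (nat_lit 27) (.e (nat_lit 745475) (nat_lit 0) (.e (nat_lit 1595) (nat_lit 111) (.e (nat_lit 360477) (nat_lit 11) (.e (nat_lit 581636) (nat_lit 0) .nil)))))) (.g (nat_lit 1) (.e (nat_lit 64573) (nat_lit 0) .nil) .nil)))) (.nd (nat_lit 9) 
(.lf (nat_lit 462205) (.g (nat_lit 2192) (.e (nat_lit 2975) (nat_lit 185) (.e (nat_lit 434248) (nat_lit 28) (.e (nat_lit 573503) (nat_lit 18) (.e (nat_lit 1348) (nat_lit 102) .nil)))) (.g (nat_lit 0) (.e (nat_lit 60607) (nat_lit 0) .nil) .nil))) 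
(.lf (nat_lit 462717) (.g (nat_lit 3900) (.e (nat_lit 3062) (nat_lit 190) (.e (nat_lit 475185) (nat_lit 29) (.e (nat_lit 557100) (nat_lit 13) (.e (nat_lit 172106) (nat_lit 10) (.e (nat_lit 434231) (nat_lit 23) (.e (nat_lit 532482) (nat_lit 0) (.e (nat_lit 6617) (nat_lit 357) .nil))))))) (.g (nat_lit 1) (.e (nat_lit 67341) (nat_lit 0) .nil) .nil))))) (.nd (nat_lit 8) (.nd (nat_lit 9) 
(.lf (nat_lit 462077) (.g (nat_lit 1946) (.e (nat_lit 2946) (nat_lit 184) (.e (nat_lit 426137) (nat_lit 3) (.e (nat_lit 204869) (nat_lit 29) (.e (nat_lit 360474) (nat_lit 8) (.e (nat_lit 557091) (nat_lit 12) (.e (nat_lit 164020) (nat_lit 45) (.e (nat_lit 696326) (nat_lit 5) .nil))))))) (.g (nat_lit 1) (.e (nat_lit 59421) (nat_lit 0) .nil) .nil))) 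
(.lf (nat_lit 462589) (.g (nat_lit 2056) (.e (nat_lit 3056) (nat_lit 190) (.e (nat_lit 475185) (nat_lit 29) (.e (nat_lit 557101) (nat_lit 13) (.e (nat_lit 172115) (nat_lit 10) .nil)))) (.g (nat_lit 0) (.e (nat_lit 67022) (nat_lit 0) .nil) .nil)))) (.nd (nat_lit 9) 
(.lf (nat_lit 462333) (.g (nat_lit 1677) (.e (nat_lit 3004) (nat_lit 186) (.e (nat_lit 442374) (nat_lit 0) (.e (nat_lit 2059) (nat_lit 142) (.e (nat_lit 704599) (nat_lit 6) (.e (nat_lit 188441) (nat_lit 20) (.e (nat_lit 3408) (nat_lit 212) (.e (nat_lit 655363) (nat_lit 0) .nil))))))) (.g (nat_lit 1) (.e (nat_lit 62039) (nat_lit 0) .nil) .nil))) 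
(.lf (nat_lit 462845) (.g (nat_lit 2470) (.e (nat_lit 3062) (nat_lit 190) (.e (nat_lit 475199) (nat_lit 40) (.e (nat_lit 704595) (nat_lit 5) (.e (nat_lit 180277) (nat_lit 32) (.e (nat_lit 1638) (nat_lit 114) (.e (nat_lit 392960) (nat_lit 8) .nil)))))) (.g (nat_lit 1) (.e (nat_lit 67500) (nat_lit 0) .nil) .nil))))))))))) 
(.nd (nat_lit 2) (.nd (nat_lit 3) (.nd (nat_lit 4) (.nd (nat_lit 5) (.nd (nat_lit 6) 
(.nd (nat_lit 7) (.nd (nat_lit 8) (.nd (nat_lit 9) 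
(.lf (nat_lit 461827) (.g (nat_lit 3405) (.e (nat_lit 2884) (nat_lit 184) (.e (nat_lit 426317) (nat_lit 12) (.e (nat_lit 475185) (nat_lit 29) (.e (nat_lit 557109) (nat_lit 15) (.e (nat_lit 188441) (nat_lit 20) (.e (nat_lit 3272) (nat_lit 199) (.e (nat_lit 548897) (nat_lit 14) .nil))))))) (.g (nat_lit 1) (.e (nat_lit 58773) (nat_lit 0) .nil) .nil))) 
(.lf (nat_lit 462339) (.g (nat_lit 2595) (.e (nat_lit 3004) (nat_lit 186) (.e (nat_lit 442374) (nat_lit 0) (.e (nat_lit 2175) (nat_lit 143) (.e (nat_lit 712753) (nat_lit 30) (.e (nat_lit 450593) (nat_lit 16) (.e (nat_lit 655364) (nat_lit 0) .nil)))))) (.g (nat_lit 1) (.e (nat_lit 62045) (nat_lit 0) .nil) .nil)))) (.nd (nat_lit 9) 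
(.lf (nat_lit 462083) (.g (nat_lit 3705) (.e (nat_lit 2946) (nat_lit 184) (.e (nat_lit 426139) (nat_lit 3) (.e (nat_lit 204869) (nat_lit 29) (.e (nat_lit 360474) (nat_lit 8) (.e (nat_lit 557091) (nat_lit 12) (.e (nat_lit 164020) (nat_lit 45) (.e (nat_lit 696333) (nat_lit 5) .nil))))))) (.g (nat_lit 1) (.e (nat_lit 59428) (nat_lit 0) .nil) .nil))) 
(.lf (nat_lit 462595) (.g (nat_lit 1873) (.e (nat_lit 3057) (nat_lit 190) (.e (nat_lit 475185) (nat_lit 29) (.e (nat_lit 557109) (nat_lit 15) (.e (nat_lit 188452) (nat_lit 23) .nil)))) (.g (nat_lit 0) (.e (nat_lit 67040) (nat_lit 0) .nil) .nil))))) (.nd (nat_lit 8) (.nd (nat_lit 9) 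
(.lf (nat_lit 461955) (.g (nat_lit 2824) (.e (nat_lit 2936) (nat_lit 184) (.e (nat_lit 426488) (nat_lit 27) (.e (nat_lit 336235) (nat_lit 14) (.e (nat_lit 401438) (nat_lit 9) (.e (nat_lit 426533) (nat_lit 28) (.e (nat_lit 344066) (nat_lit 0) .nil)))))) (.g (nat_lit 1) (.e (nat_lit 59158) (nat_lit 0) .nil) .nil))) 
(.lf (nat_lit 462467) (.g (nat_lit 1734) (.e (nat_lit 3022) (nat_lit 187) (.e (nat_lit 450569) (nat_lit 0) (.e (nat_lit 5190) (nat_lit 294) (.e (nat_lit 57412) (nat_lit 12) (.e (nat_lit 336176) (nat_lit 10) (.e (nat_lit 344157) (nat_lit 36) (.e (nat_lit 638986) (nat_lit 5) .nil))))))) (.g (nat_lit 1) (.e (nat_lit 64794) (nat_lit 0) .nil) .nil)))) (.nd (nat_lit 9) 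
(.lf (nat_lit 462211) (.g (nat_lit 2476) (.e (nat_lit 2978) (nat_lit 185) (.e (nat_lit 434231) (nat_lit 23) (.e (nat_lit 532550) (nat_lit 12) (.e (nat_lit 360474) (nat_lit 8) (.e (nat_lit 557093) (nat_lit 12) .nil))))) (.g (nat_lit 0) (.e (nat_lit 60696) (nat_lit 0) .nil) .nil))) 
(.lf (nat_lit 462723) (.g (nat_lit 3791) (.e (nat_lit 3062) (nat_lit 190) (.e (nat_lit 475185) (nat_lit 29) (.e (nat_lit 557100) (nat_lit 13) (.e (nat_lit 172106) (nat_lit 10) (.e (nat_lit 434231) (nat_lit 23) (.e (nat_lit 532486) (nat_lit 0) (.e (nat_lit 6664) (nat_lit 357) .nil))))))) (.g (nat_lit 1) (.e (nat_lit 67347) (nat_lit 0) .nil) .nil)))))) 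
(.nd (nat_lit 7) (.nd (nat_lit 8) (.nd (nat_lit 9) 
(.lf (nat_lit 461891) (.g (nat_lit 1788) (.e (nat_lit 2936) (nat_lit 184) (.e (nat_lit 426129) (nat_lit 3) (.e (nat_lit 204846) (nat_lit 24) (.e (nat_lit 319530) (nat_lit 16) .nil)))) (.g (nat_lit 0) (.e (nat_lit 59023) (nat_lit 0) .nil) .nil))) 
(.lf (nat_lit 462403) (.g (nat_lit 942) (.e (nat_lit 3015) (nat_lit 187) (.e (nat_lit 450588) (nat_lit 10) (.e (nat_lit 573473) (nat_lit 12) .nil))) (.g (nat_lit 0) (.e (nat_lit 63202) (nat_lit 0) .nil) .nil)))) (.nd (nat_lit 9) 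
(.lf (nat_lit 462147) (.g (nat_lit 3837) (.e (nat_lit 2964) (nat_lit 185) (.e (nat_lit 434231) (nat_lit 23) (.e (nat_lit 532550) (nat_lit 12) (.e (nat_lit 360474) (nat_lit 8) (.e (nat_lit 557088) (nat_lit 12) (.e (nat_lit 164018) (nat_lit 45) (.e (nat_lit 696327) (nat_lit 5) .nil))))))) (.g (nat_lit 1) (.e (nat_lit 60180) (nat_lit 0) .nil) .nil))) 
(.lf (nat_lit 462659) (.g (nat_lit 3206) (.e (nat_lit 3062) (nat_lit 190) (.e (nat_lit 475179) (nat_lit 24) (.e (nat_lit 516174) (nat_lit 14) (.e (nat_lit 466954) (nat_lit 11) (.e (nat_lit 335995) (nat_lit 1) (.e (nat_lit 57653) (nat_lit 152) (.e (nat_lit 2503) (nat_lit 157) .nil))))))) (.g (nat_lit 1) (.e (nat_lit 67275) (nat_lit 0) .nil) .nil))))) (.nd (nat_lit 8) (.nd (nat_lit 9) 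
(.lf (nat_lit 462019) (.g (nat_lit 2882) (.e (nat_lit 2940) (nat_lit 184) (.e (nat_lit 426401) (nat_lit 15) (.e (nat_lit 1849) (nat_lit 124) (.e (nat_lit 557109) (nat_lit 15) (.e (nat_lit 188449) (nat_lit 22) (.e (nat_lit 196661) (nat_lit 12) (.e (nat_lit 57749) (nat_lit 201) .nil))))))) (.g (nat_lit 1) (.e (nat_lit 59260) (nat_lit 0) .nil) .nil))) 
(.lf (nat_lit 462531) (.g (nat_lit 821) (.e (nat_lit 3027) (nat_lit 187) (.e (nat_lit 450605) (nat_lit 27) (.e (nat_lit 745493) (nat_lit 6) (.e (nat_lit 81943) (nat_lit 20) (.e (nat_lit 1885) (nat_lit 127) (.e (nat_lit 581636) (nat_lit 0) .nil)))))) (.g (nat_lit 1) (.e (nat_lit 66422) (nat_lit 0) .nil) .nil)))) (.nd (nat_lit 9) 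
(.lf (nat_lit 462275) (.g (nat_lit 2921) (.e (nat_lit 2988) (nat_lit 186) (.e (nat_lit 442374) (nat_lit 0) (.e (nat_lit 1856) (nat_lit 124) (.e (nat_lit 557107) (nat_lit 15) (.e (nat_lit 188441) (nat_lit 20) (.e (nat_lit 3272) (nat_lit 199) (.e (nat_lit 548897) (nat_lit 14) .nil))))))) (.g (nat_lit 1) (.e (nat_lit 61292) (nat_lit 0) .nil) .nil))) 
(.lf (nat_lit 462787) (.g (nat_lit 4291) (.e (nat_lit 3062) (nat_lit 190) (.e (nat_lit 475185) (nat_lit 29) (.e (nat_lit 557101) (nat_lit 13) (.e (nat_lit 172115) (nat_lit 10) (.e (nat_lit 434231) (nat_lit 23) (.e (nat_lit 532481) (nat_lit 0) (.e (nat_lit 6617) (nat_lit 357) .nil))))))) (.g (nat_lit 1) (.e (nat_lit 67411) (nat_lit 0) .nil) .nil))))))) 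
(.nd (nat_lit 6) (.nd (nat_lit 7) (.nd (nat_lit 8) (.nd (nat_lit 9) 
(.lf (nat_lit 461859) (.g (nat_lit 2744) (.e (nat_lit 2902) (nat_lit 184) (.e (nat_lit 426435) (nat_lit 18) (.e (nat_lit 98356) (nat_lit 26) (.e (nat_lit 426436) (nat_lit 18) (.e (nat_lit 98356) (nat_lit 26) (.e (nat_lit 426428) (nat_lit 17) (.e (nat_lit 90133) (nat_lit 9) .nil))))))) (.g (nat_lit 1) (.e (nat_lit 58853) (nat_lit 0) .nil) .nil))) 
(.lf (nat_lit 462371) (.g (nat_lit 395) (.e (nat_lit 3011) (nat_lit 187) (.e (nat_lit 450584) (nat_lit 9) (.e (nat_lit 565268) (nat_lit 5) .nil))) (.g (nat_lit 0) (.e (nat_lit 62502) (nat_lit 0) .nil) .nil)))) (.nd (nat_lit 9) 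
(.lf (nat_lit 462115) (.g (nat_lit 1822) (.e (nat_lit 2962) (nat_lit 185) (.e (nat_lit 434231) (nat_lit 23) (.e (nat_lit 532569) (nat_lit 16) (.e (nat_lit 401448) (nat_lit 10) .nil)))) (.g (nat_lit 0) (.e (nat_lit 59898) (nat_lit 0) .nil) .nil))) 
(.lf (nat_lit 462627) (.g (nat_lit 3593) (.e (nat_lit 3062) (nat_lit 190) (.e (nat_lit 483072) (nat_lit 26) (.e (nat_lit 532544) (nat_lit 10) (.e (nat_lit 344133) (nat_lit 26) (.e (nat_lit 557103) (nat_lit 14) (.e (nat_lit 180250) (nat_lit 10) (.e (nat_lit 573443) (nat_lit 0) .nil))))))) (.g (nat_lit 1) (.e (nat_lit 67113) (nat_lit 0) .nil) .nil))))) (.nd (nat_lit 8) (.nd (nat_lit 9) 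
(.lf (nat_lit 461987) (.g (nat_lit 3953) (.e (nat_lit 2939) (nat_lit 184) (.e (nat_lit 426419) (nat_lit 15) (.e (nat_lit 1856) (nat_lit 124) (.e (nat_lit 557101) (nat_lit 13) (.e (nat_lit 172097) (nat_lit 9) (.e (nat_lit 426125) (nat_lit 2) (.e (nat_lit 196661) (nat_lit 12) (.e (nat_lit 57748) (nat_lit 201) .nil)))))))) (.g (nat_lit 1) (.e (nat_lit 59220) (nat_lit 0) .nil) .nil))) 
(.lf (nat_lit 462499) (.g (nat_lit 1031) (.e (nat_lit 3022) (nat_lit 187) (.e (nat_lit 450605) (nat_lit 27) (.e (nat_lit 745493) (nat_lit 6) (.e (nat_lit 81943) (nat_lit 20) (.e (nat_lit 1885) (nat_lit 127) (.e (nat_lit 581636) (nat_lit 0) .nil)))))) (.g (nat_lit 1) (.e (nat_lit 65266) (nat_lit 0) .nil) .nil)))) (.nd (nat_lit 9) 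
(.lf (nat_lit 462243) (.g (nat_lit 3844) (.e (nat_lit 2980) (nat_lit 185) (.e (nat_lit 434231) (nat_lit 23) (.e (nat_lit 532550) (nat_lit 12) (.e (nat_lit 360475) (nat_lit 8) (.e (nat_lit 557091) (nat_lit 12) (.e (nat_lit 164018) (nat_lit 45) (.e (nat_lit 696330) (nat_lit 5) .nil))))))) (.g (nat_lit 1) (.e (nat_lit 60942) (nat_lit 0) .nil) .nil))) 
(.lf (nat_lit 462755) (.g (nat_lit 609) (.e (nat_lit 3062) (nat_lit 190) (.e (nat_lit 475185) (nat_lit 29) (.e (nat_lit 557101) (nat_lit 13) .nil))) (.g (nat_lit 0) (.e (nat_lit 67379) (nat_lit 0) .nil) .nil)))))) (.nd (nat_lit 7) (.nd (nat_lit 8) (.nd (nat_lit 9) 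
(.lf (nat_lit 461923) (.g (nat_lit 2704) (.e (nat_lit 2936) (nat_lit 184) (.e (nat_lit 426163) (nat_lit 6) (.e (nat_lit 253991) (nat_lit 11) (.e (nat_lit 16465) (nat_lit 13) (.e (nat_lit 483354) (nat_lit 17) (.e (nat_lit 6674) (nat_lit 357) .nil)))))) (.g (nat_lit 1) (.e (nat_lit 59094) (nat_lit 0) .nil) .nil))) 
(.lf (nat_lit 462435) (.g (nat_lit 3008) (.e (nat_lit 3016) (nat_lit 187) (.e (nat_lit 450597) (nat_lit 17) (.e (nat_lit 663583) (nat_lit 11) (.e (nat_lit 24640) (nat_lit 10) (.e (nat_lit 344156) (nat_lit 36) (.e (nat_lit 638985) (nat_lit 5) .nil)))))) (.g (nat_lit 1) (.e (nat_lit 64184) (nat_lit 0) .nil) .nil)))) (.nd (nat_lit 9) 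
(.lf (nat_lit 462179) (.g (nat_lit 2283) (.e (nat_lit 2972) (nat_lit 185) (.e (nat_lit 434231) (nat_lit 23) (.e (nat_lit 532550) (nat_lit 12) (.e (nat_lit 360475) (nat_lit 8) .nil)))) (.g (nat_lit 0) (.e (nat_lit 60365) (nat_lit 0) .nil) .nil))) 
(.lf (nat_lit 462691) (.g (nat_lit 2038) (.e (nat_lit 3062) (nat_lit 190) (.e (nat_lit 475185) (nat_lit 29) (.e (nat_lit 557100) (nat_lit 13) (.e (nat_lit 172106) (nat_lit 10) (.e (nat_lit 434227) (nat_lit 20) (.e (nat_lit 507928) (nat_lit 10) (.e (nat_lit 5650) (nat_lit 312) .nil))))))) (.g (nat_lit 1) (.e (nat_lit 67315) (nat_lit 0) .nil) .nil))))) (.nd (nat_lit 8) (.nd (nat_lit 9) 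
(.lf (nat_lit 462051) (.g (nat_lit 2936) (.e (nat_lit 2944) (nat_lit 184) (.e (nat_lit 426316) (nat_lit 12) (.e (nat_lit 475185) (nat_lit 29) (.e (nat_lit 557098) (nat_lit 13) .nil)))) (.g (nat_lit 0) (.e (nat_lit 59300) (nat_lit 0) .nil) .nil))) 
(.lf (nat_lit 462563) (.g (nat_lit 2920) (.e (nat_lit 3044) (nat_lit 189) (.e (nat_lit 466981) (nat_lit 23) (.e (nat_lit 204861) (nat_lit 26) (.e (nat_lit 335988) (nat_lit 1) (.e (nat_lit 57926) (nat_lit 282) (.e (nat_lit 163844) (nat_lit 0) (.e (nat_lit 7936) (nat_lit 200) (.e (nat_lit 557065) (nat_lit 9) .nil)))))))) (.g (nat_lit 1) (.e (nat_lit 66866) (nat_lit 0) .nil) .nil)))) 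
(.nd (nat_lit 9) 
(.lf (nat_lit 462307) (.g (nat_lit 1490) (.e (nat_lit 2997) (nat_lit 186) (.e (nat_lit 442374) (nat_lit 0) (.e (nat_lit 2059) (nat_lit 142) (.e (nat_lit 704599) (nat_lit 6) .nil)))) (.g (nat_lit 0) (.e (nat_lit 61569) (nat_lit 0) .nil) .nil))) 
(.lf (nat_lit 462819) (.g (nat_lit 416) (.e (nat_lit 3062) (nat_lit 190) (.e (nat_lit 475185) (nat_lit 29) (.e (nat_lit 557109) (nat_lit 15) .nil))) (.g (nat_lit 0) (.e (nat_lit 67446) (nat_lit 0) .nil) .nil)))))))) (.nd (nat_lit 5) (.nd (nat_lit 6) (.nd (nat_lit 7) (.nd (nat_lit 8) (.nd (nat_lit 9) 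
(.lf (nat_lit 461843) (.g (nat_lit 1909) (.e (nat_lit 2896) (nat_lit 184) (.e (nat_lit 426555) (nat_lit 32) (.e (nat_lit 376857) (nat_lit 21) (.e (nat_lit 57873) (nat_lit 264) (.e (nat_lit 1209) (nat_lit 89) .nil))))) (.g (nat_lit 0) (.e (nat_lit 58831) (nat_lit 0) .nil) .nil))) 
(.lf (nat_lit 462355) (.g (nat_lit 1789) (.e (nat_lit 3005) (nat_lit 186) (.e (nat_lit 442374) (nat_lit 0) (.e (nat_lit 2059) (nat_lit 142) (.e (nat_lit 704598) (nat_lit 6) (.e (nat_lit 188434) (nat_lit 20) .nil))))) (.g (nat_lit 0) (.e (nat_lit 62130) (nat_lit 0) .nil) .nil)))) (.nd (nat_lit 9) 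
(.lf (nat_lit 462099) (.g (nat_lit 2639) (.e (nat_lit 2946) (nat_lit 184) (.e (nat_lit 426316) (nat_lit 12) (.e (nat_lit 475185) (nat_lit 29) (.e (nat_lit 557109) (nat_lit 15) (.e (nat_lit 188434) (nat_lit 20) (.e (nat_lit 3272) (nat_lit 199) (.e (nat_lit 548902) (nat_lit 14) .nil))))))) (.g (nat_lit 1) (.e (nat_lit 59509) (nat_lit 0) .nil) .nil))) 
(.lf (nat_lit 462611) (.g (nat_lit 2466) (.e (nat_lit 3060) (nat_lit 190) (.e (nat_lit 475185) (nat_lit 29) (.e (nat_lit 557101) (nat_lit 13) (.e (nat_lit 172115) (nat_lit 10) (.e (nat_lit 434227) (nat_lit 20) .nil))))) (.g (nat_lit 0) (.e (nat_lit 67075) (nat_lit 0) .nil) .nil))))) (.nd (nat_lit 8) (.nd (nat_lit 9) 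
(.lf (nat_lit 461971) (.g (nat_lit 1291) (.e (nat_lit 2936) (nat_lit 184) (.e (nat_lit 426532) (nat_lit 28) (.e (nat_lit 344069) (nat_lit 0) (.e (nat_lit 2855) (nat_lit 184) (.e (nat_lit 426533) (nat_lit 28) (.e (nat_lit 344066) (nat_lit 0) .nil)))))) (.g (nat_lit 1) (.e (nat_lit 59176) (nat_lit 0) .nil) .nil))) 
(.lf (nat_lit 462483) (.g (nat_lit 1775) (.e (nat_lit 3022) (nat_lit 187) (.e (nat_lit 450580) (nat_lit 5) (.e (nat_lit 532563) (nat_lit 15) (.e (nat_lit 385091) (nat_lit 49) .nil)))) (.g (nat_lit 0) (.e (nat_lit 64892) (nat_lit 0) .nil) .nil)))) (.nd (nat_lit 9) 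
(.lf (nat_lit 462227) (.g (nat_lit 1923) (.e (nat_lit 2980) (nat_lit 185) (.e (nat_lit 434231) (nat_lit 23) (.e (nat_lit 532549) (nat_lit 12) (.e (nat_lit 360473) (nat_lit 8) (.e (nat_lit 557091) (nat_lit 12) .nil))))) (.g (nat_lit 0) (.e (nat_lit 60908) (nat_lit 0) .nil) .nil))) 
(.lf (nat_lit 462739) (.g (nat_lit 2903) (.e (nat_lit 3062) (nat_lit 190) (.e (nat_lit 475185) (nat_lit 29) (.e (nat_lit 557100) (nat_lit 13) (.e (nat_lit 172113) (nat_lit 10) (.e (nat_lit 434227) (nat_lit 20) (.e (nat_lit 507929) (nat_lit 10) (.e (nat_lit 5612) (nat_lit 312) .nil))))))) (.g (nat_lit 1) (.e (nat_lit 67363) (nat_lit 0) .nil) .nil)))))) 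
(.nd (nat_lit 7) (.nd (nat_lit 8) (.nd (nat_lit 9) 
(.lf (nat_lit 461907) (.g (nat_lit 2795) (.e (nat_lit 2936) (nat_lit 184) (.e (nat_lit 426163) (nat_lit 6) (.e (nat_lit 253991) (nat_lit 11) (.e (nat_lit 16432) (nat_lit 9) (.e (nat_lit 426533) (nat_lit 28) (.e (nat_lit 344067) (nat_lit 0) .nil)))))) (.g (nat_lit 1) (.e (nat_lit 59074) (nat_lit 0) .nil) .nil))) 
(.lf (nat_lit 462419) (.g (nat_lit 1534) (.e (nat_lit 3017) (nat_lit 187) (.e (nat_lit 450588) (nat_lit 10) (.e (nat_lit 573475) (nat_lit 12) (.e (nat_lit 57574) (nat_lit 55) .nil)))) (.g (nat_lit 0) (.e (nat_lit 63620) (nat_lit 0) .nil) .nil)))) (.nd (nat_lit 9) 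
(.lf (nat_lit 462163) (.g (nat_lit 3196) (.e (nat_lit 2965) (nat_lit 185) (.e (nat_lit 434231) (nat_lit 23) (.e (nat_lit 532549) (nat_lit 12) (.e (nat_lit 360473) (nat_lit 8) (.e (nat_lit 557091) (nat_lit 12) .nil))))) (.g (nat_lit 0) (.e (nat_lit 60329) (nat_lit 0) .nil) .nil))) 
(.lf (nat_lit 462675) (.g (nat_lit 5747) (.e (nat_lit 3062) (nat_lit 190) (.e (nat_lit 475183) (nat_lit 29) (.e (nat_lit 557109) (nat_lit 15) (.e (nat_lit 188452) (nat_lit 23) (.e (nat_lit 204816) (nat_lit 17) .nil))))) (.g (nat_lit 0) (.e (nat_lit 67298) (nat_lit 0) .nil) .nil))))) (.nd (nat_lit 8) (.nd (nat_lit 9) 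
(.lf (nat_lit 462035) (.g (nat_lit 2283) (.e (nat_lit 2941) (nat_lit 184) (.e (nat_lit 426401) (nat_lit 15) (.e (nat_lit 1849) (nat_lit 124) (.e (nat_lit 557108) (nat_lit 15) (.e (nat_lit 188449) (nat_lit 22) (.e (nat_lit 196661) (nat_lit 12) (.e (nat_lit 57748) (nat_lit 201) .nil))))))) (.g (nat_lit 1) (.e (nat_lit 59276) (nat_lit 0) .nil) .nil))) 
(.lf (nat_lit 462547) (.g (nat_lit 1498) (.e (nat_lit 3044) (nat_lit 189) (.e (nat_lit 466974) (nat_lit 22) (.e (nat_lit 196681) (nat_lit 17) (.e (nat_lit 131089) (nat_lit 1) (.e (nat_lit 57930) (nat_lit 282) (.e (nat_lit 163841) (nat_lit 0) (.e (nat_lit 7936) (nat_lit 200) (.e (nat_lit 557065) (nat_lit 9) .nil)))))))) (.g (nat_lit 1) (.e (nat_lit 66802) (nat_lit 0) .nil) .nil)))) 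
(.nd (nat_lit 9) 
(.lf (nat_lit 462291) (.g (nat_lit 1928) (.e (nat_lit 2988) (nat_lit 186) (.e (nat_lit 442390) (nat_lit 11) (.e (nat_lit 336230) (nat_lit 14) (.e (nat_lit 401448) (nat_lit 10) (.e (nat_lit 434287) (nat_lit 43) (.e (nat_lit 696329) (nat_lit 5) .nil)))))) (.g (nat_lit 1) (.e (nat_lit 61343) (nat_lit 0) .nil) .nil))) 
(.lf (nat_lit 462803) (.g (nat_lit 1962) (.e (nat_lit 3062) (nat_lit 190) (.e (nat_lit 475185) (nat_lit 29) (.e (nat_lit 557103) (nat_lit 14) (.e (nat_lit 188160) (nat_lit 35) .nil)))) (.g (nat_lit 0) (.e (nat_lit 67427) (nat_lit 0) .nil) .nil))))))) (.nd (nat_lit 6) (.nd (nat_lit 7) (.nd (nat_lit 8) (.nd (nat_lit 9) 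
(.lf (nat_lit 461875) (.g (nat_lit 2837) (.e (nat_lit 2914) (nat_lit 184) (.e (nat_lit 426316) (nat_lit 12) (.e (nat_lit 475185) (nat_lit 29) (.e (nat_lit 557107) (nat_lit 15) (.e (nat_lit 188420) (nat_lit 0) .nil))))) (.g (nat_lit 0) (.e (nat_lit 58896) (nat_lit 0) .nil) .nil))) 
(.lf (nat_lit 462387) (.g (nat_lit 1985) (.e (nat_lit 3015) (nat_lit 187) (.e (nat_lit 450560) (nat_lit 0) (.e (nat_lit 5190) (nat_lit 294) (.e (nat_lit 57412) (nat_lit 12) (.e (nat_lit 336176) (nat_lit 10) (.e (nat_lit 344157) (nat_lit 36) (.e (nat_lit 638986) (nat_lit 5) .nil))))))) (.g (nat_lit 1) (.e (nat_lit 62849) (nat_lit 0) .nil) .nil)))) (.nd (nat_lit 9) 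
(.lf (nat_lit 462131) (.g (nat_lit 3382) (.e (nat_lit 2964) (nat_lit 185) (.e (nat_lit 434231) (nat_lit 23) (.e (nat_lit 532549) (nat_lit 12) (.e (nat_lit 360473) (nat_lit 8) (.e (nat_lit 557090) (nat_lit 12) (.e (nat_lit 164020) (nat_lit 45) (.e (nat_lit 696330) (nat_lit 5) .nil))))))) (.g (nat_lit 1) (.e (nat_lit 60147) (nat_lit 0) .nil) .nil))) 
(.lf (nat_lit 462643) (.g (nat_lit 2419) (.e (nat_lit 3062) (nat_lit 190) (.e (nat_lit 475179) (nat_lit 24) (.e (nat_lit 516151) (nat_lit 9) (.e (nat_lit 426211) (nat_lit 9) .nil)))) (.g (nat_lit 0) (.e (nat_lit 67185) (nat_lit 0) .nil) .nil))))) (.nd (nat_lit 8) (.nd (nat_lit 9) 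
(.lf (nat_lit 462003) (.g (nat_lit 2657) (.e (nat_lit 2939) (nat_lit 184) (.e (nat_lit 426503) (nat_lit 27) (.e (nat_lit 336229) (nat_lit 14) (.e (nat_lit 401437) (nat_lit 9) (.e (nat_lit 426533) (nat_lit 28) (.e (nat_lit 344067) (nat_lit 0) .nil)))))) (.g (nat_lit 1) (.e (nat_lit 59240) (nat_lit 0) .nil) .nil))) 
(.lf (nat_lit 462515) (.g (nat_lit 845) (.e (nat_lit 3027) (nat_lit 187) (.e (nat_lit 450564) (nat_lit 0) (.e (nat_lit 5046) (nat_lit 292) (.e (nat_lit 1216) (nat_lit 90) .nil)))) (.g (nat_lit 0) (.e (nat_lit 65760) (nat_lit 0) .nil) .nil)))) (.nd (nat_lit 9) 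
(.lf (nat_lit 462259) (.g (nat_lit 2431) (.e (nat_lit 2981) (nat_lit 185) (.e (nat_lit 434231) (nat_lit 23) (.e (nat_lit 532550) (nat_lit 12) (.e (nat_lit 360474) (nat_lit 8) .nil)))) (.g (nat_lit 0) (.e (nat_lit 61031) (nat_lit 0) .nil) .nil))) 
(.lf (nat_lit 462771) (.g (nat_lit 3326) (.e (nat_lit 3062) (nat_lit 190) (.e (nat_lit 475185) (nat_lit 29) (.e (nat_lit 557101) (nat_lit 13) (.e (nat_lit 172115) (nat_lit 10) (.e (nat_lit 434227) (nat_lit 20) (.e (nat_lit 507929) (nat_lit 10) (.e (nat_lit 5612) (nat_lit 312) .nil))))))) (.g (nat_lit 1) (.e (nat_lit 67395) (nat_lit 0) .nil) .nil)))))) 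
(.nd (nat_lit 7) (.nd (nat_lit 8) (.nd (nat_lit 9) 
(.lf (nat_lit 461939) (.g (nat_lit 453) (.e (nat_lit 2936) (nat_lit 184) (.e (nat_lit 426347) (nat_lit 14) (.e (nat_lit 491537) (nat_lit 2) .nil))) (.g (nat_lit 0) (.e (nat_lit 59119) (nat_lit 0) .nil) .nil))) 
(.lf (nat_lit 462451) (.g (nat_lit 3495) (.e (nat_lit 3021) (nat_lit 187) (.e (nat_lit 450579) (nat_lit 5) (.e (nat_lit 532523) (nat_lit 7) (.e (nat_lit 319530) (nat_lit 16) (.e (nat_lit 286733) (nat_lit 2) .nil))))) (.g (nat_lit 0) (.e (nat_lit 64388) (nat_lit 0) .nil) .nil)))) (.nd (nat_lit 9) 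
(.lf (nat_lit 462195) (.g (nat_lit 3410) (.e (nat_lit 2974) (nat_lit 185) (.e (nat_lit 434235) (nat_lit 24) (.e (nat_lit 540706) (nat_lit 12) (.e (nat_lit 360475) (nat_lit 8) (.e (nat_lit 557090) (nat_lit 12) (.e (nat_lit 164020) (nat_lit 45) (.e (nat_lit 696330) (nat_lit 5) .nil))))))) (.g (nat_lit 1) (.e (nat_lit 60457) (nat_lit 0) .nil) .nil))) 
(.lf (nat_lit 462707) (.g (nat_lit 2842) (.e (nat_lit 3062) (nat_lit 190) (.e (nat_lit 475185) (nat_lit 29) (.e (nat_lit 557100) (nat_lit 13) (.e (nat_lit 172106) (nat_lit 10) (.e (nat_lit 434227) (nat_lit 20) (.e (nat_lit 507930) (nat_lit 10) (.e (nat_lit 5665) (nat_lit 312) .nil))))))) (.g (nat_lit 1) (.e (nat_lit 67331) (nat_lit 0) .nil) .nil))))) (.nd (nat_lit 8) (.nd (nat_lit 9) 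
(.lf (nat_lit 462067) (.g (nat_lit 1758) (.e (nat_lit 2949) (nat_lit 184) (.e (nat_lit 426137) (nat_lit 3) (.e (nat_lit 204869) (nat_lit 29) (.e (nat_lit 360474) (nat_lit 8) (.e (nat_lit 557091) (nat_lit 12) .nil))))) (.g (nat_lit 0) (.e (nat_lit 59348) (nat_lit 0) .nil) .nil))) 
(.lf (nat_lit 462579) (.g (nat_lit 2086) (.e (nat_lit 3055) (nat_lit 190) (.e (nat_lit 475185) (nat_lit 29) (.e (nat_lit 557101) (nat_lit 13) (.e (nat_lit 172097) (nat_lit 9) (.e (nat_lit 426125) (nat_lit 2) .nil))))) (.g (nat_lit 0) (.e (nat_lit 66986) (nat_lit 0) .nil) .nil)))) (.nd (nat_lit 9) 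
(.lf (nat_lit 462323) (.g (nat_lit 1421) (.e (nat_lit 3004) (nat_lit 186) (.e (nat_lit 442374) (nat_lit 0) (.e (nat_lit 2059) (nat_lit 142) (.e (nat_lit 704598) (nat_lit 6) (.e (nat_lit 196352) (nat_lit 8) (.e (nat_lit 163584) (nat_lit 0) .nil)))))) (.g (nat_lit 1) (.e (nat_lit 62029) (nat_lit 0) .nil) .nil))) 
(.lf (nat_lit 462835) (.g (nat_lit 3907) (.e (nat_lit 3062) (nat_lit 190) (.e (nat_lit 475185) (nat_lit 29) (.e (nat_lit 557109) (nat_lit 15) (.e (nat_lit 188452) (nat_lit 23) (.e (nat_lit 204816) (nat_lit 17) (.e (nat_lit 6668) (nat_lit 357) .nil)))))) (.g (nat_lit 1) (.e (nat_lit 67462) (nat_lit 0) .nil) .nil))))))))) 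
(.nd (nat_lit 4) (.nd (nat_lit 5) (.nd (nat_lit 6) (.nd (nat_lit 7) (.nd (nat_lit 8) 
(.nd (nat_lit 9) 
(.lf (nat_lit 461835) (.g (nat_lit 3141) (.e (nat_lit 2885) (nat_lit 184) (.e (nat_lit 426125) (nat_lit 2) (.e (nat_lit 196666) (nat_lit 13) (.e (nat_lit 65617) (nat_lit 10) .nil)))) (.g (nat_lit 0) (.e (nat_lit 58810) (nat_lit 0) .nil) .nil))) 
(.lf (nat_lit 462347) (.g (nat_lit 2522) (.e (nat_lit 3004) (nat_lit 186) (.e (nat_lit 442390) (nat_lit 11) (.e (nat_lit 336231) (nat_lit 14) (.e (nat_lit 401446) (nat_lit 10) (.e (nat_lit 434287) (nat_lit 43) .nil))))) (.g (nat_lit 0) (.e (nat_lit 62111) (nat_lit 0) .nil) .nil)))) (.nd (nat_lit 9) 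
(.lf (nat_lit 462091) (.g (nat_lit 3260) (.e (nat_lit 2946) (nat_lit 184) (.e (nat_lit 426306) (nat_lit 12) (.e (nat_lit 475185) (nat_lit 29) (.e (nat_lit 557109) (nat_lit 15) (.e (nat_lit 188441) (nat_lit 20) .nil))))) (.g (nat_lit 0) (.e (nat_lit 59475) (nat_lit 0) .nil) .nil))) 
(.lf (nat_lit 462603) (.g (nat_lit 3352) (.e (nat_lit 3059) (nat_lit 190) (.e (nat_lit 475185) (nat_lit 29) (.e (nat_lit 557101) (nat_lit 13) (.e (nat_lit 172097) (nat_lit 9) (.e (nat_lit 426140) (nat_lit 3) (.e (nat_lit 204821) (nat_lit 17) (.e (nat_lit 7936) (nat_lit 357) .nil))))))) (.g (nat_lit 1) (.e (nat_lit 67060) (nat_lit 0) .nil) .nil))))) (.nd (nat_lit 8) (.nd (nat_lit 9) 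
(.lf (nat_lit 461963) (.g (nat_lit 3360) (.e (nat_lit 2936) (nat_lit 184) (.e (nat_lit 426503) (nat_lit 27) (.e (nat_lit 336231) (nat_lit 14) (.e (nat_lit 401437) (nat_lit 9) (.e (nat_lit 426533) (nat_lit 28) (.e (nat_lit 344067) (nat_lit 0) .nil)))))) (.g (nat_lit 1) (.e (nat_lit 59167) (nat_lit 0) .nil) .nil))) 
(.lf (nat_lit 462475) (.g (nat_lit 3846) (.e (nat_lit 3022) (nat_lit 187) (.e (nat_lit 450580) (nat_lit 5) (.e (nat_lit 532522) (nat_lit 7) (.e (nat_lit 319530) (nat_lit 16) (.e (nat_lit 286733) (nat_lit 2) (.e (nat_lit 90134) (nat_lit 9) .nil)))))) (.g (nat_lit 1) (.e (nat_lit 64835) (nat_lit 0) .nil) .nil)))) (.nd (nat_lit 9) 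
(.lf (nat_lit 462219) (.g (nat_lit 2476) (.e (nat_lit 2980) (nat_lit 185) (.e (nat_lit 434231) (nat_lit 23) (.e (nat_lit 532523) (nat_lit 7) (.e (nat_lit 319530) (nat_lit 16) .nil)))) (.g (nat_lit 0) (.e (nat_lit 60834) (nat_lit 0) .nil) .nil))) 
(.lf (nat_lit 462731) (.g (nat_lit 2737) (.e (nat_lit 3062) (nat_lit 190) (.e (nat_lit 475185) (nat_lit 29) (.e (nat_lit 557100) (nat_lit 13) (.e (nat_lit 172106) (nat_lit 10) (.e (nat_lit 434231) (nat_lit 23) (.e (nat_lit 532500) (nat_lit 1) (.e (nat_lit 57761) (nat_lit 215) (.e (nat_lit 2509) (nat_lit 157) .nil)))))))) (.g (nat_lit 1) (.e (nat_lit 67355) (nat_lit 0) .nil) .nil)))))) 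
(.nd (nat_lit 7) (.nd (nat_lit 8) (.nd (nat_lit 9) 
(.lf (nat_lit 461899) (.g (nat_lit 1535) (.e (nat_lit 2936) (nat_lit 184) (.e (nat_lit 426163) (nat_lit 6) (.e (nat_lit 253963) (nat_lit 9) (.e (nat_lit 411) (nat_lit 32) (.e (nat_lit 426195) (nat_lit 9) .nil))))) (.g (nat_lit 0) (.e (nat_lit 59049) (nat_lit 0) .nil) .nil))) 
(.lf (nat_lit 462411) (.g (nat_lit 1297) (.e (nat_lit 3017) (nat_lit 187) (.e (nat_lit 450587) (nat_lit 10) (.e (nat_lit 573477) (nat_lit 12) (.e (nat_lit 57574) (nat_lit 55) .nil)))) (.g (nat_lit 0) (.e (nat_lit 63503) (nat_lit 0) .nil) .nil)))) (.nd (nat_lit 9) 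
(.lf (nat_lit 462155) (.g (nat_lit 691) (.e (nat_lit 2964) (nat_lit 185) (.e (nat_lit 434231) (nat_lit 23) (.e (nat_lit 540416) (nat_lit 12) .nil))) (.g (nat_lit 0) (.e (nat_lit 60213) (nat_lit 0) .nil) .nil))) 
(.lf (nat_lit 462667) (.g (nat_lit 1902) (.e (nat_lit 3062) (nat_lit 190) (.e (nat_lit 475179) (nat_lit 24) (.e (nat_lit 516176) (nat_lit 14) (.e (nat_lit 466954) (nat_lit 11) (.e (nat_lit 335988) (nat_lit 1) .nil))))) (.g (nat_lit 0) (.e (nat_lit 67287) (nat_lit 0) .nil) .nil))))) (.nd (nat_lit 8) (.nd (nat_lit 9) 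
(.lf (nat_lit 462027) (.g (nat_lit 1819) (.e (nat_lit 2940) (nat_lit 184) (.e (nat_lit 426508) (nat_lit 27) (.e (nat_lit 336228) (nat_lit 14) (.e (nat_lit 401438) (nat_lit 9) (.e (nat_lit 426533) (nat_lit 28) (.e (nat_lit 344066) (nat_lit 0) .nil)))))) (.g (nat_lit 1) (.e (nat_lit 59268) (nat_lit 0) .nil) .nil))) 
(.lf (nat_lit 462539) (.g (nat_lit 1101) (.e (nat_lit 3035) (nat_lit 188) (.e (nat_lit 458789) (nat_lit 23) (.e (nat_lit 532549) (nat_lit 12) .nil))) (.g (nat_lit 0) (.e (nat_lit 66716) (nat_lit 0) .nil) .nil)))) (.nd (nat_lit 9) 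
(.lf (nat_lit 462283) (.g (nat_lit 2642) (.e (nat_lit 2988) (nat_lit 186) (.e (nat_lit 442374) (nat_lit 0) (.e (nat_lit 2059) (nat_lit 142) (.e (nat_lit 704598) (nat_lit 6) (.e (nat_lit 188435) (nat_lit 20) (.e (nat_lit 3409) (nat_lit 212) (.e (nat_lit 655364) (nat_lit 0) .nil))))))) (.g (nat_lit 1) (.e (nat_lit 61301) (nat_lit 0) .nil) .nil))) 
(.lf (nat_lit 462795) (.g (nat_lit 3026) (.e (nat_lit 3062) (nat_lit 190) (.e (nat_lit 475185) (nat_lit 29) (.e (nat_lit 557101) (nat_lit 13) (.e (nat_lit 172115) (nat_lit 10) (.e (nat_lit 434231) (nat_lit 23) (.e (nat_lit 532482) (nat_lit 0) (.e (nat_lit 6626) (nat_lit 357) .nil))))))) (.g (nat_lit 1) (.e (nat_lit 67419) (nat_lit 0) .nil) .nil))))))) 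
(.nd (nat_lit 6) (.nd (nat_lit 7) (.nd (nat_lit 8) (.nd (nat_lit 9) 
(.lf (nat_lit 461867) (.g (nat_lit 1256) (.e (nat_lit 2902) (nat_lit 184) (.e (nat_lit 426565) (nat_lit 34) (.e (nat_lit 393291) (nat_lit 26) (.e (nat_lit 475177) (nat_lit 24) (.e (nat_lit 516120) (nat_lit 1) .nil))))) (.g (nat_lit 0) (.e (nat_lit 58861) (nat_lit 0) .nil) .nil))) 
(.lf (nat_lit 462379) (.g (nat_lit 349) (.e (nat_lit 3012) (nat_lit 187) (.e (nat_lit 450605) (nat_lit 27) (.e (nat_lit 745475) (nat_lit 0) (.e (nat_lit 1592) (nat_lit 111) (.e (nat_lit 368384) (nat_lit 10) .nil))))) (.g (nat_lit 0) (.e (nat_lit 62837) (nat_lit 0) .nil) .nil)))) (.nd (nat_lit 9) 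
(.lf (nat_lit 462123) (.g (nat_lit 2284) (.e (nat_lit 2961) (nat_lit 185) (.e (nat_lit 434231) (nat_lit 23) (.e (nat_lit 532550) (nat_lit 12) (.e (nat_lit 360474) (nat_lit 8) (.e (nat_lit 557094) (nat_lit 12) .nil))))) (.g (nat_lit 0) (.e (nat_lit 59991) (nat_lit 0) .nil) .nil))) 
(.lf (nat_lit 462635) (.g (nat_lit 3357) (.e (nat_lit 3062) (nat_lit 190) (.e (nat_lit 475179) (nat_lit 24) (.e (nat_lit 516139) (nat_lit 7) (.e (nat_lit 409602) (nat_lit 0) (.e (nat_lit 5383) (nat_lit 300) .nil))))) (.g (nat_lit 0) (.e (nat_lit 67132) (nat_lit 0) .nil) .nil))))) (.nd (nat_lit 8) (.nd (nat_lit 9) 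
(.lf (nat_lit 461995) (.g (nat_lit 2901) (.e (nat_lit 2939) (nat_lit 184) (.e (nat_lit 426401) (nat_lit 15) (.e (nat_lit 1849) (nat_lit 124) (.e (nat_lit 557109) (nat_lit 15) (.e (nat_lit 188449) (nat_lit 22) (.e (nat_lit 196661) (nat_lit 12) (.e (nat_lit 57749) (nat_lit 201) .nil))))))) (.g (nat_lit 1) (.e (nat_lit 59228) (nat_lit 0) .nil) .nil))) 
(.lf (nat_lit 462507) (.g (nat_lit 4498) (.e (nat_lit 3025) (nat_lit 187) (.e (nat_lit 450581) (nat_lit 5) (.e (nat_lit 532523) (nat_lit 7) (.e (nat_lit 319534) (nat_lit 16) (.e (nat_lit 286733) (nat_lit 2) (.e (nat_lit 90134) (nat_lit 9) .nil)))))) (.g (nat_lit 1) (.e (nat_lit 65277) (nat_lit 0) .nil) .nil)))) (.nd (nat_lit 9) 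
(.lf (nat_lit 462251) (.g (nat_lit 3196) (.e (nat_lit 2981) (nat_lit 185) (.e (nat_lit 434231) (nat_lit 23) (.e (nat_lit 532549) (nat_lit 12) (.e (nat_lit 360473) (nat_lit 8) (.e (nat_lit 557091) (nat_lit 12) .nil))))) (.g (nat_lit 0) (.e (nat_lit 61023) (nat_lit 0) .nil) .nil))) 
(.lf (nat_lit 462763) (.g (nat_lit 2392) (.e (nat_lit 3062) (nat_lit 190) (.e (nat_lit 475185) (nat_lit 29) (.e (nat_lit 557101) (nat_lit 13) (.e (nat_lit 172115) (nat_lit 10) (.e (nat_lit 434227) (nat_lit 20) (.e (nat_lit 507926) (nat_lit 10) (.e (nat_lit 5652) (nat_lit 312) .nil))))))) (.g (nat_lit 1) (.e (nat_lit 67387) (nat_lit 0) .nil) .nil)))))) 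
(.nd (nat_lit 7) (.nd (nat_lit 8) (.nd (nat_lit 9) 
(.lf (nat_lit 461931) (.g (nat_lit 3223) (.e (nat_lit 2936) (nat_lit 184) (.e (nat_lit 426163) (nat_lit 6) (.e (nat_lit 253992) (nat_lit 11) (.e (nat_lit 16433) (nat_lit 9) (.e (nat_lit 426533) (nat_lit 28) (.e (nat_lit 344067) (nat_lit 0) .nil)))))) (.g (nat_lit 1) (.e (nat_lit 59106) (nat_lit 0) .nil) .nil))) 
(.lf (nat_lit 462443) (.g (nat_lit 587) (.e (nat_lit 3020) (nat_lit 187) (.e (nat_lit 450584) (nat_lit 9) (.e (nat_lit 565268) (nat_lit 5) (.e (nat_lit 73788) (nat_lit 45) .nil)))) (.g (nat_lit 0) (.e (nat_lit 64334) (nat_lit 0) .nil) .nil)))) (.nd (nat_lit 9) 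
(.lf (nat_lit 462187) (.g (nat_lit 2532) (.e (nat_lit 2974) (nat_lit 185) (.e (nat_lit 434231) (nat_lit 23) (.e (nat_lit 532550) (nat_lit 12) (.e (nat_lit 360474) (nat_lit 8) .nil)))) (.g (nat_lit 0) (.e (nat_lit 60449) (nat_lit 0) .nil) .nil))) 
(.lf (nat_lit 462699) (.g (nat_lit 2540) (.e (nat_lit 3062) (nat_lit 190) (.e (nat_lit 475185) (nat_lit 29) (.e (nat_lit 557100) (nat_lit 13) (.e (nat_lit 172106) (nat_lit 10) (.e (nat_lit 434227) (nat_lit 20) (.e (nat_lit 507929) (nat_lit 10) (.e (nat_lit 5656) (nat_lit 312) .nil))))))) (.g (nat_lit 1) (.e (nat_lit 67323) (nat_lit 0) .nil) .nil))))) (.nd (nat_lit 8) (.nd (nat_lit 9) 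
(.lf (nat_lit 462059) (.g (nat_lit 552) (.e (nat_lit 2945) (nat_lit 184) (.e (nat_lit 426316) (nat_lit 12) (.e (nat_lit 475185) (nat_lit 29) .nil))) (.g (nat_lit 0) (.e (nat_lit 59323) (nat_lit 0) .nil) .nil))) 
(.lf (nat_lit 462571) (.g (nat_lit 1322) (.e (nat_lit 3054) (nat_lit 189) (.e (nat_lit 466974) (nat_lit 22) (.e (nat_lit 196681) (nat_lit 17) (.e (nat_lit 131089) (nat_lit 1) .nil)))) (.g (nat_lit 0) (.e (nat_lit 66966) (nat_lit 0) .nil) .nil)))) (.nd (nat_lit 9) 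
(.lf (nat_lit 462315) (.g (nat_lit 2674) (.e (nat_lit 3004) (nat_lit 186) (.e (nat_lit 442374) (nat_lit 0) (.e (nat_lit 1846) (nat_lit 124) (.e (nat_lit 557101) (nat_lit 13) (.e (nat_lit 172115) (nat_lit 10) (.e (nat_lit 434238) (nat_lit 25) (.e (nat_lit 548897) (nat_lit 14) .nil))))))) (.g (nat_lit 1) (.e (nat_lit 62018) (nat_lit 0) .nil) .nil))) 
(.lf (nat_lit 462827) (.g (nat_lit 3706) (.e (nat_lit 3062) (nat_lit 190) (.e (nat_lit 475185) (nat_lit 29) (.e (nat_lit 557109) (nat_lit 15) (.e (nat_lit 188450) (nat_lit 23) (.e (nat_lit 204817) (nat_lit 17) .nil))))) (.g (nat_lit 0) (.e (nat_lit 67454) (nat_lit 0) .nil) .nil)))))))) (.nd (nat_lit 5) (.nd (nat_lit 6) (.nd (nat_lit 7) (.nd (nat_lit 8) (.nd (nat_lit 9) 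
(.lf (nat_lit 461851) (.g (nat_lit 2741) (.e (nat_lit 2898) (nat_lit 184) (.e (nat_lit 426347) (nat_lit 14) (.e (nat_lit 491537) (nat_lit 2) (.e (nat_lit 90170) (nat_lit 13) (.e (nat_lit 172126) (nat_lit 14) .nil))))) (.g (nat_lit 0) (.e (nat_lit 58840) (nat_lit 0) .nil) .nil))) 
(.lf (nat_lit 462363) (.g (nat_lit 2871) (.e (nat_lit 3009) (nat_lit 187) (.e (nat_lit 450580) (nat_lit 5) (.e (nat_lit 532523) (nat_lit 7) (.e (nat_lit 319529) (nat_lit 16) (.e (nat_lit 286733) (nat_lit 2) (.e (nat_lit 90134) (nat_lit 9) .nil)))))) (.g (nat_lit 1) (.e (nat_lit 62180) (nat_lit 0) .nil) .nil)))) (.nd (nat_lit 9) 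
(.lf (nat_lit 462107) (.g (nat_lit 2262) (.e (nat_lit 2958) (nat_lit 185) (.e (nat_lit 434231) (nat_lit 23) (.e (nat_lit 532549) (nat_lit 12) (.e (nat_lit 360473) (nat_lit 8) (.e (nat_lit 557091) (nat_lit 12) .nil))))) (.g (nat_lit 0) (.e (nat_lit 59669) (nat_lit 0) .nil) .nil))) 
(.lf (nat_lit 462619) (.g (nat_lit 3298) (.e (nat_lit 3062) (nat_lit 190) (.e (nat_lit 483072) (nat_lit 26) (.e (nat_lit 532544) (nat_lit 10) (.e (nat_lit 344130) (nat_lit 26) (.e (nat_lit 557103) (nat_lit 14) (.e (nat_lit 180250) (nat_lit 10) (.e (nat_lit 573443) (nat_lit 0) .nil))))))) (.g (nat_lit 1) (.e (nat_lit 67105) (nat_lit 0) .nil) .nil))))) (.nd (nat_lit 8) (.nd (nat_lit 9) 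
(.lf (nat_lit 461979) (.g (nat_lit 3144) (.e (nat_lit 2939) (nat_lit 184) (.e (nat_lit 426129) (nat_lit 3) (.e (nat_lit 204885) (nat_lit 33) (.e (nat_lit 401434) (nat_lit 9) (.e (nat_lit 426140) (nat_lit 3) (.e (nat_lit 204821) (nat_lit 17) (.e (nat_lit 6674) (nat_lit 357) .nil))))))) (.g (nat_lit 1) (.e (nat_lit 59203) (nat_lit 0) .nil) .nil))) 
(.lf (nat_lit 462491) (.g (nat_lit 1189) (.e (nat_lit 3022) (nat_lit 187) (.e (nat_lit 450586) (nat_lit 10) (.e (nat_lit 573474) (nat_lit 12) (.e (nat_lit 57572) (nat_lit 54) .nil)))) (.g (nat_lit 0) (.e (nat_lit 65080) (nat_lit 0) .nil) .nil)))) (.nd (nat_lit 9) 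
(.lf (nat_lit 462235) (.g (nat_lit 3997) (.e (nat_lit 2980) (nat_lit 185) (.e (nat_lit 434231) (nat_lit 23) (.e (nat_lit 532550) (nat_lit 12) (.e (nat_lit 360472) (nat_lit 8) (.e (nat_lit 557090) (nat_lit 12) (.e (nat_lit 164020) (nat_lit 45) (.e (nat_lit 696329) (nat_lit 5) .nil))))))) (.g (nat_lit 1) (.e (nat_lit 60925) (nat_lit 0) .nil) .nil))) 
(.lf (nat_lit 462747) (.g (nat_lit 3082) (.e (nat_lit 3062) (nat_lit 190) (.e (nat_lit 475185) (nat_lit 29) (.e (nat_lit 557100) (nat_lit 13) (.e (nat_lit 172113) (nat_lit 10) (.e (nat_lit 434245) (nat_lit 28) (.e (nat_lit 573474) (nat_lit 12) (.e (nat_lit 57565) (nat_lit 52) (.e (nat_lit 753680) (nat_lit 5) .nil)))))))) (.g (nat_lit 1) (.e (nat_lit 67371) (nat_lit 0) .nil) .nil)))))) 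
(.nd (nat_lit 7) (.nd (nat_lit 8) (.nd (nat_lit 9) 
(.lf (nat_lit 461915) (.g (nat_lit 2073) (.e (nat_lit 2936) (nat_lit 184) (.e (nat_lit 426163) (nat_lit 6) (.e (nat_lit 253991) (nat_lit 11) (.e (nat_lit 16437) (nat_lit 9) (.e (nat_lit 426533) (nat_lit 28) (.e (nat_lit 344066) (nat_lit 0) .nil)))))) (.g (nat_lit 1) (.e (nat_lit 59084) (nat_lit 0) .nil) .nil))) 
(.lf (nat_lit 462427) (.g (nat_lit 2532) (.e (nat_lit 3016) (nat_lit 187) (.e (nat_lit 450586) (nat_lit 10) (.e (nat_lit 573474) (nat_lit 12) (.e (nat_lit 57572) (nat_lit 54) .nil)))) (.g (nat_lit 0) (.e (nat_lit 64015) (nat_lit 0) .nil) .nil)))) (.nd (nat_lit 9) 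
(.lf (nat_lit 462171) (.g (nat_lit 4305) (.e (nat_lit 2965) (nat_lit 185) (.e (nat_lit 434231) (nat_lit 23) (.e (nat_lit 532550) (nat_lit 12) (.e (nat_lit 360474) (nat_lit 8) (.e (nat_lit 557088) (nat_lit 12) .nil))))) (.g (nat_lit 0) (.e (nat_lit 60337) (nat_lit 0) .nil) .nil))) 
(.lf (nat_lit 462683) (.g (nat_lit 2160) (.e (nat_lit 3062) (nat_lit 190) (.e (nat_lit 475185) (nat_lit 29) (.e (nat_lit 557100) (nat_lit 13) (.e (nat_lit 172094) (nat_lit 9) .nil)))) (.g (nat_lit 0) (.e (nat_lit 67307) (nat_lit 0) .nil) .nil))))) (.nd (nat_lit 8) (.nd (nat_lit 9) 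
(.lf (nat_lit 462043) (.g (nat_lit 1796) (.e (nat_lit 2941) (nat_lit 184) (.e (nat_lit 426532) (nat_lit 28) (.e (nat_lit 344068) (nat_lit 0) (.e (nat_lit 2857) (nat_lit 184) (.e (nat_lit 426533) (nat_lit 28) (.e (nat_lit 344066) (nat_lit 0) .nil)))))) (.g (nat_lit 1) (.e (nat_lit 59285) (nat_lit 0) .nil) .nil))) 
(.lf (nat_lit 462555) (.g (nat_lit 586) (.e (nat_lit 3044) (nat_lit 189) (.e (nat_lit 466977) (nat_lit 22) (.e (nat_lit 196670) (nat_lit 14) .nil))) (.g (nat_lit 0) (.e (nat_lit 66823) (nat_lit 0) .nil) .nil)))) (.nd (nat_lit 9) 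
(.lf (nat_lit 462299) (.g (nat_lit 767) (.e (nat_lit 2988) (nat_lit 186) (.e (nat_lit 442390) (nat_lit 11) (.e (nat_lit 336232) (nat_lit 14) (.e (nat_lit 401448) (nat_lit 10) .nil)))) (.g (nat_lit 0) (.e (nat_lit 61356) (nat_lit 0) .nil) .nil))) 
(.lf (nat_lit 462811) (.g (nat_lit 1711) (.e (nat_lit 3062) (nat_lit 190) (.e (nat_lit 475185) (nat_lit 29) (.e (nat_lit 557107) (nat_lit 15) (.e (nat_lit 188452) (nat_lit 23) .nil)))) (.g (nat_lit 0) (.e (nat_lit 67438) (nat_lit 0) .nil) .nil))))))) (.nd (nat_lit 6) (.nd (nat_lit 7) (.nd (nat_lit 8) (.nd (nat_lit 9) 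
(.lf (nat_lit 461883) (.g (nat_lit 2858) (.e (nat_lit 2928) (nat_lit 184) (.e (nat_lit 426316) (nat_lit 12) (.e (nat_lit 475185) (nat_lit 29) (.e (nat_lit 557098) (nat_lit 13) .nil)))) (.g (nat_lit 0) (.e (nat_lit 58972) (nat_lit 0) .nil) .nil))) 
(.lf (nat_lit 462395) (.g (nat_lit 2296) (.e (nat_lit 3015) (nat_lit 187) (.e (nat_lit 450563) (nat_lit 0) (.e (nat_lit 6830) (nat_lit 367) (.e (nat_lit 57428) (nat_lit 15) (.e (nat_lit 360477) (nat_lit 11) (.e (nat_lit 581636) (nat_lit 0) .nil)))))) (.g (nat_lit 1) (.e (nat_lit 62976) (nat_lit 0) .nil) .nil)))) (.nd (nat_lit 9) 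
(.lf (nat_lit 462139) (.g (nat_lit 3410) (.e (nat_lit 2964) (nat_lit 185) (.e (nat_lit 434231) (nat_lit 23) (.e (nat_lit 532549) (nat_lit 12) (.e (nat_lit 360474) (nat_lit 8) (.e (nat_lit 557091) (nat_lit 12) (.e (nat_lit 164020) (nat_lit 45) (.e (nat_lit 696327) (nat_lit 5) .nil))))))) (.g (nat_lit 1) (.e (nat_lit 60168) (nat_lit 0) .nil) .nil))) 
(.lf (nat_lit 462651) (.g (nat_lit 1996) (.e (nat_lit 3062) (nat_lit 190) (.e (nat_lit 475179) (nat_lit 24) (.e (nat_lit 516163) (nat_lit 11) (.e (nat_lit 442369) (nat_lit 0) .nil)))) (.g (nat_lit 0) (.e (nat_lit 67242) (nat_lit 0) .nil) .nil))))) (.nd (nat_lit 8) (.nd (nat_lit 9) 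
(.lf (nat_lit 462011) (.g (nat_lit 950) (.e (nat_lit 2939) (nat_lit 184) (.e (nat_lit 426532) (nat_lit 28) (.e (nat_lit 344068) (nat_lit 0) (.e (nat_lit 2855) (nat_lit 184) (.e (nat_lit 426533) (nat_lit 28) (.e (nat_lit 344067) (nat_lit 0) .nil)))))) (.g (nat_lit 1) (.e (nat_lit 59250) (nat_lit 0) .nil) .nil))) 
(.lf (nat_lit 462523) (.g (nat_lit 3277) (.e (nat_lit 3027) (nat_lit 187) (.e (nat_lit 450579) (nat_lit 5) (.e (nat_lit 532569) (nat_lit 16) (.e (nat_lit 401448) (nat_lit 10) (.e (nat_lit 434238) (nat_lit 25) (.e (nat_lit 548897) (nat_lit 14) .nil)))))) (.g (nat_lit 1) (.e (nat_lit 66096) (nat_lit 0) .nil) .nil)))) (.nd (nat_lit 9) 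
(.lf (nat_lit 462267) (.g (nat_lit 1485) (.e (nat_lit 2982) (nat_lit 186) (.e (nat_lit 442374) (nat_lit 0) (.e (nat_lit 2059) (nat_lit 142) (.e (nat_lit 704599) (nat_lit 6) .nil)))) (.g (nat_lit 0) (.e (nat_lit 61041) (nat_lit 0) .nil) .nil))) 
(.lf (nat_lit 462779) (.g (nat_lit 2879) (.e (nat_lit 3062) (nat_lit 190) (.e (nat_lit 475185) (nat_lit 29) (.e (nat_lit 557101) (nat_lit 13) (.e (nat_lit 172115) (nat_lit 10) (.e (nat_lit 434227) (nat_lit 20) (.e (nat_lit 507930) (nat_lit 10) (.e (nat_lit 5656) (nat_lit 312) .nil))))))) (.g (nat_lit 1) (.e (nat_lit 67403) (nat_lit 0) .nil) .nil)))))) 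
(.nd (nat_lit 7) (.nd (nat_lit 8) (.nd (nat_lit 9) 
(.lf (nat_lit 461947) (.g (nat_lit 3122) (.e (nat_lit 2936) (nat_lit 184) (.e (nat_lit 426401) (nat_lit 15) (.e (nat_lit 1849) (nat_lit 124) (.e (nat_lit 557097) (nat_lit 13) (.e (nat_lit 172097) (nat_lit 9) (.e (nat_lit 426125) (nat_lit 2) (.e (nat_lit 196661) (nat_lit 12) (.e (nat_lit 57748) (nat_lit 201) .nil)))))))) (.g (nat_lit 1) (.e (nat_lit 59149) (nat_lit 0) .nil) .nil))) 
(.lf (nat_lit 462459) (.g (nat_lit 411) (.e (nat_lit 3021) (nat_lit 187) (.e (nat_lit 450584) (nat_lit 9) (.e (nat_lit 565252) (nat_lit 0) .nil))) (.g (nat_lit 0) (.e (nat_lit 64465) (nat_lit 0) .nil) .nil)))) (.nd (nat_lit 9) 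
(.lf (nat_lit 462203) (.g (nat_lit 3429) (.e (nat_lit 2975) (nat_lit 185) (.e (nat_lit 434231) (nat_lit 23) (.e (nat_lit 532550) (nat_lit 12) (.e (nat_lit 360475) (nat_lit 8) (.e (nat_lit 557089) (nat_lit 12) .nil))))) (.g (nat_lit 0) (.e (nat_lit 60520) (nat_lit 0) .nil) .nil))) 
(.lf (nat_lit 462715) (.g (nat_lit 4194) (.e (nat_lit 3062) (nat_lit 190) (.e (nat_lit 475185) (nat_lit 29) (.e (nat_lit 557100) (nat_lit 13) (.e (nat_lit 172106) (nat_lit 10) (.e (nat_lit 434231) (nat_lit 23) (.e (nat_lit 532481) (nat_lit 0) (.e (nat_lit 6668) (nat_lit 357) .nil))))))) (.g (nat_lit 1) (.e (nat_lit 67339) (nat_lit 0) .nil) .nil))))) (.nd (nat_lit 8) (.nd (nat_lit 9) 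
(.lf (nat_lit 462075) (.g (nat_lit 3394) (.e (nat_lit 2949) (nat_lit 184) (.e (nat_lit 426316) (nat_lit 12) (.e (nat_lit 475185) (nat_lit 29) (.e (nat_lit 557101) (nat_lit 13) .nil)))) (.g (nat_lit 0) (.e (nat_lit 59364) (nat_lit 0) .nil) .nil))) 
(.lf (nat_lit 462587) (.g (nat_lit 1210) (.e (nat_lit 3055) (nat_lit 190) (.e (nat_lit 475214) (nat_lit 42) (.e (nat_lit 720955) (nat_lit 25) .nil))) (.g (nat_lit 0) (.e (nat_lit 67013) (nat_lit 0) .nil) .nil)))) (.nd (nat_lit 9) 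
(.lf (nat_lit 462331) (.g (nat_lit 1560) (.e (nat_lit 3004) (nat_lit 186) (.e (nat_lit 442374) (nat_lit 0) (.e (nat_lit 2059) (nat_lit 142) (.e (nat_lit 704599) (nat_lit 6) (.e (nat_lit 188440) (nat_lit 20) (.e (nat_lit 3408) (nat_lit 212) (.e (nat_lit 655362) (nat_lit 0) .nil))))))) (.g (nat_lit 1) (.e (nat_lit 62037) (nat_lit 0) .nil) .nil))) 
(.lf (nat_lit 462843) (.g (nat_lit 3410) (.e (nat_lit 3062) (nat_lit 190) (.e (nat_lit 475185) (nat_lit 29) (.e (nat_lit 557109) (nat_lit 15) (.e (nat_lit 188452) (nat_lit 23) (.e (nat_lit 204830) (nat_lit 18) (.e (nat_lit 57762) (nat_lit 215) (.e (nat_lit 2508) (nat_lit 157) .nil))))))) (.g (nat_lit 1) (.e (nat_lit 67470) (nat_lit 0) .nil) .nil)))))))))) 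
(.nd (nat_lit 3) (.nd (nat_lit 4) (.nd (nat_lit 5) (.nd (nat_lit 6) (.nd (nat_lit 7) 
(.nd (nat_lit 8) (.nd (nat_lit 9) 
(.lf (nat_lit 461831) (.g (nat_lit 3932) (.e (nat_lit 2884) (nat_lit 184) (.e (nat_lit 426339) (nat_lit 14) (.e (nat_lit 491537) (nat_lit 2) (.e (nat_lit 90170) (nat_lit 13) (.e (nat_lit 172113) (nat_lit 10) (.e (nat_lit 434238) (nat_lit 25) (.e (nat_lit 548897) (nat_lit 14) .nil))))))) (.g (nat_lit 1) (.e (nat_lit 58797) (nat_lit 0) .nil) .nil))) 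
(.lf (nat_lit 462343) (.g (nat_lit 1971) (.e (nat_lit 3004) (nat_lit 186) (.e (nat_lit 442390) (nat_lit 11) (.e (nat_lit 336230) (nat_lit 14) (.e (nat_lit 401448) (nat_lit 10) (.e (nat_lit 434287) (nat_lit 43) (.e (nat_lit 696327) (nat_lit 5) .nil)))))) (.g (nat_lit 1) (.e (nat_lit 62107) (nat_lit 0) .nil) .nil)))) (.nd (nat_lit 9) 
(.lf (nat_lit 462087) (.g (nat_lit 2748) (.e (nat_lit 2946) (nat_lit 184) (.e (nat_lit 426306) (nat_lit 12) (.e (nat_lit 475185) (nat_lit 29) (.e (nat_lit 557107) (nat_lit 15) (.e (nat_lit 188440) (nat_lit 20) (.e (nat_lit 3272) (nat_lit 199) (.e (nat_lit 548902) (nat_lit 14) .nil))))))) (.g (nat_lit 1) (.e (nat_lit 59471) (nat_lit 0) .nil) .nil))) 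
(.lf (nat_lit 462599) (.g (nat_lit 2911) (.e (nat_lit 3058) (nat_lit 190) (.e (nat_lit 475185) (nat_lit 29) (.e (nat_lit 557101) (nat_lit 13) (.e (nat_lit 172097) (nat_lit 9) (.e (nat_lit 426140) (nat_lit 3) .nil))))) (.g (nat_lit 0) (.e (nat_lit 67051) (nat_lit 0) .nil) .nil))))) (.nd (nat_lit 8) (.nd (nat_lit 9) 
(.lf (nat_lit 461959) (.g (nat_lit 2927) (.e (nat_lit 2936) (nat_lit 184) (.e (nat_lit 426503) (nat_lit 27) (.e (nat_lit 336229) (nat_lit 14) (.e (nat_lit 401437) (nat_lit 9) (.e (nat_lit 426533) (nat_lit 28) (.e (nat_lit 344066) (nat_lit 0) .nil)))))) (.g (nat_lit 1) (.e (nat_lit 59163) (nat_lit 0) .nil) .nil))) 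
(.lf (nat_lit 462471) (.g (nat_lit 1467) (.e (nat_lit 3022) (nat_lit 187) (.e (nat_lit 458496) (nat_lit 0) (.e (nat_lit 5202) (nat_lit 294) (.e (nat_lit 57412) (nat_lit 12) (.e (nat_lit 336176) (nat_lit 10) (.e (nat_lit 344157) (nat_lit 36) (.e (nat_lit 638986) (nat_lit 5) .nil))))))) (.g (nat_lit 1) (.e (nat_lit 64814) (nat_lit 0) .nil) .nil)))) (.nd (nat_lit 9) 
(.lf (nat_lit 462215) (.g (nat_lit 2611) (.e (nat_lit 2978) (nat_lit 185) (.e (nat_lit 434231) (nat_lit 23) (.e (nat_lit 532550) (nat_lit 12) (.e (nat_lit 360475) (nat_lit 8) (.e (nat_lit 557090) (nat_lit 12) .nil))))) (.g (nat_lit 0) (.e (nat_lit 60710) (nat_lit 0) .nil) .nil))) 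
(.lf (nat_lit 462727) (.g (nat_lit 3292) (.e (nat_lit 3062) (nat_lit 190) (.e (nat_lit 475185) (nat_lit 29) (.e (nat_lit 557100) (nat_lit 13) (.e (nat_lit 172106) (nat_lit 10) (.e (nat_lit 434231) (nat_lit 23) (.e (nat_lit 532500) (nat_lit 1) (.e (nat_lit 57758) (nat_lit 215) (.e (nat_lit 2505) (nat_lit 157) .nil)))))))) (.g (nat_lit 1) (.e (nat_lit 67351) (nat_lit 0) .nil) .nil)))))) 
(.nd (nat_lit 7) (.nd (nat_lit 8) (.nd (nat_lit 9) 
(.lf (nat_lit 461895) (.g (nat_lit 97) (.e (nat_lit 2936) (nat_lit 184) (.e (nat_lit 426163) (nat_lit 6) (.e (nat_lit 253962) (nat_lit 9) .nil))) (.g (nat_lit 0) (.e (nat_lit 59027) (nat_lit 0) .nil) .nil))) 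
(.lf (nat_lit 462407) (.g (nat_lit 1110) (.e (nat_lit 3015) (nat_lit 187) (.e (nat_lit 450605) (nat_lit 27) (.e (nat_lit 745493) (nat_lit 6) (.e (nat_lit 81943) (nat_lit 20) (.e (nat_lit 1885) (nat_lit 127) (.e (nat_lit 581636) (nat_lit 0) .nil)))))) (.g (nat_lit 1) (.e (nat_lit 63487) (nat_lit 0) .nil) .nil)))) (.nd (nat_lit 9) 
(.lf (nat_lit 462151) (.g (nat_lit 1805) (.e (nat_lit 2964) (nat_lit 185) (.e (nat_lit 434231) (nat_lit 23) (.e (nat_lit 532550) (nat_lit 12) (.e (nat_lit 360474) (nat_lit 8) (.e (nat_lit 557093) (nat_lit 12) .nil))))) (.g (nat_lit 0) (.e (nat_lit 60184) (nat_lit 0) .nil) .nil))) 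
(.lf (nat_lit 462663) (.g (nat_lit 3095) (.e (nat_lit 3062) (nat_lit 190) (.e (nat_lit 475179) (nat_lit 24) (.e (nat_lit 516176) (nat_lit 14) (.e (nat_lit 466954) (nat_lit 11) (.e (nat_lit 335986) (nat_lit 1) (.e (nat_lit 57655) (nat_lit 152) (.e (nat_lit 2405) (nat_lit 157) .nil))))))) (.g (nat_lit 1) (.e (nat_lit 67283) (nat_lit 0) .nil) .nil))))) (.nd (nat_lit 8) (.nd (nat_lit 9) 
(.lf (nat_lit 462023) (.g (nat_lit 2974) (.e (nat_lit 2940) (nat_lit 184) (.e (nat_lit 426401) (nat_lit 15) (.e (nat_lit 1859) (nat_lit 124) (.e (nat_lit 557109) (nat_lit 15) (.e (nat_lit 188449) (nat_lit 22) (.e (nat_lit 196661) (nat_lit 12) (.e (nat_lit 57748) (nat_lit 201) .nil))))))) (.g (nat_lit 1) (.e (nat_lit 59264) (nat_lit 0) .nil) .nil))) 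
(.lf (nat_lit 462535) (.g (nat_lit 2704) (.e (nat_lit 3028) (nat_lit 187) (.e (nat_lit 450588) (nat_lit 10) (.e (nat_lit 573474) (nat_lit 12) (.e (nat_lit 57572) (nat_lit 54) .nil)))) (.g (nat_lit 0) (.e (nat_lit 66562) (nat_lit 0) .nil) .nil)))) (.nd (nat_lit 9) 
(.lf (nat_lit 462279) (.g (nat_lit 2789) (.e (nat_lit 2988) (nat_lit 186) (.e (nat_lit 442374) (nat_lit 0) (.e (nat_lit 2059) (nat_lit 142) (.e (nat_lit 704598) (nat_lit 6) (.e (nat_lit 188434) (nat_lit 20) (.e (nat_lit 3406) (nat_lit 212) (.e (nat_lit 655363) (nat_lit 0) .nil))))))) (.g (nat_lit 1) (.e (nat_lit 61297) (nat_lit 0) .nil) .nil))) 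
(.lf (nat_lit 462791) (.g (nat_lit 4592) (.e (nat_lit 3062) (nat_lit 190) (.e (nat_lit 475185) (nat_lit 29) (.e (nat_lit 557101) (nat_lit 13) (.e (nat_lit 172115) (nat_lit 10) (.e (nat_lit 434231) (nat_lit 23) (.e (nat_lit 532481) (nat_lit 0) (.e (nat_lit 6665) (nat_lit 357) .nil))))))) (.g (nat_lit 1) (.e (nat_lit 67415) (nat_lit 0) .nil) .nil))))))) 
(.nd (nat_lit 6) (.nd (nat_lit 7) (.nd (nat_lit 8) (.nd (nat_lit 9) 
(.lf (nat_lit 461863) (.g (nat_lit 1680) (.e (nat_lit 2902) (nat_lit 184) (.e (nat_lit 426435) (nat_lit 18) (.e (nat_lit 98386) (nat_lit 32) (.e (nat_lit 475177) (nat_lit 24) (.e (nat_lit 516148) (nat_lit 9) .nil))))) (.g (nat_lit 0) (.e (nat_lit 58857) (nat_lit 0) .nil) .nil))) 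
(.lf (nat_lit 462375) (.g (nat_lit 1059) (.e (nat_lit 3011) (nat_lit 187) (.e (nat_lit 450605) (nat_lit 27) (.e (nat_lit 745476) (nat_lit 0) (.e (nat_lit 1589) (nat_lit 111) (.e (nat_lit 368384) (nat_lit 10) .nil))))) (.g (nat_lit 0) (.e (nat_lit 62608) (nat_lit 0) .nil) .nil)))) (.nd (nat_lit 9) 
(.lf (nat_lit 462119) (.g (nat_lit 1493) (.e (nat_lit 2962) (nat_lit 185) (.e (nat_lit 434289) (nat_lit 43) (.e (nat_lit 696344) (nat_lit 8) (.e (nat_lit 172067) (nat_lit 3) .nil)))) (.g (nat_lit 0) (.e (nat_lit 59931) (nat_lit 0) .nil) .nil))) 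
(.lf (nat_lit 462631) (.g (nat_lit 2372) (.e (nat_lit 3062) (nat_lit 190) (.e (nat_lit 475179) (nat_lit 24) (.e (nat_lit 516117) (nat_lit 1) (.e (nat_lit 164329) (nat_lit 230) .nil)))) (.g (nat_lit 0) (.e (nat_lit 67121) (nat_lit 0) .nil) .nil))))) (.nd (nat_lit 8) (.nd (nat_lit 9) 
(.lf (nat_lit 461991) (.g (nat_lit 3416) (.e (nat_lit 2939) (nat_lit 184) (.e (nat_lit 426419) (nat_lit 15) (.e (nat_lit 1856) (nat_lit 124) (.e (nat_lit 557109) (nat_lit 15) (.e (nat_lit 188452) (nat_lit 23) (.e (nat_lit 204821) (nat_lit 17) (.e (nat_lit 6674) (nat_lit 357) .nil))))))) (.g (nat_lit 1) (.e (nat_lit 59224) (nat_lit 0) .nil) .nil))) 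
(.lf (nat_lit 462503) (.g (nat_lit 2543) (.e (nat_lit 3025) (nat_lit 187) (.e (nat_lit 450579) (nat_lit 5) (.e (nat_lit 532523) (nat_lit 7) (.e (nat_lit 319528) (nat_lit 16) (.e (nat_lit 286733) (nat_lit 2) (.e (nat_lit 90134) (nat_lit 9) .nil)))))) (.g (nat_lit 1) (.e (nat_lit 65272) (nat_lit 0) .nil) .nil)))) (.nd (nat_lit 9) 
(.lf (nat_lit 462247) (.g (nat_lit 2714) (.e (nat_lit 2980) (nat_lit 185) (.e (nat_lit 434235) (nat_lit 24) (.e (nat_lit 540706) (nat_lit 12) (.e (nat_lit 360475) (nat_lit 8) (.e (nat_lit 557090) (nat_lit 12) (.e (nat_lit 164020) (nat_lit 45) (.e (nat_lit 696329) (nat_lit 5) .nil))))))) (.g (nat_lit 1) (.e (nat_lit 60956) (nat_lit 0) .nil) .nil))) 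
(.lf (nat_lit 462759) (.g (nat_lit 2599) (.e (nat_lit 3062) (nat_lit 190) (.e (nat_lit 475185) (nat_lit 29) (.e (nat_lit 557101) (nat_lit 13) (.e (nat_lit 172097) (nat_lit 9) (.e (nat_lit 426140) (nat_lit 3) (.e (nat_lit 212736) (nat_lit 17) (.e (nat_lit 6655) (nat_lit 357) .nil))))))) (.g (nat_lit 1) (.e (nat_lit 67383) (nat_lit 0) .nil) .nil)))))) 
(.nd (nat_lit 7) (.nd (nat_lit 8) (.nd (nat_lit 9) 
(.lf (nat_lit 461927) (.g (nat_lit 1401) (.e (nat_lit 2936) (nat_lit 184) (.e (nat_lit 426163) (nat_lit 6) (.e (nat_lit 253992) (nat_lit 11) (.e (nat_lit 16431) (nat_lit 9) .nil)))) (.g (nat_lit 0) (.e (nat_lit 59102) (nat_lit 0) .nil) .nil))) 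
(.lf (nat_lit 462439) (.g (nat_lit 2833) (.e (nat_lit 3019) (nat_lit 187) (.e (nat_lit 450580) (nat_lit 5) (.e (nat_lit 532523) (nat_lit 7) (.e (nat_lit 319529) (nat_lit 16) (.e (nat_lit 286733) (nat_lit 2) .nil))))) (.g (nat_lit 0) (.e (nat_lit 64276) (nat_lit 0) .nil) .nil)))) (.nd (nat_lit 9) 
(.lf (nat_lit 462183) (.g (nat_lit 2428) (.e (nat_lit 2974) (nat_lit 185) (.e (nat_lit 434231) (nat_lit 23) (.e (nat_lit 532549) (nat_lit 12) (.e (nat_lit 360473) (nat_lit 8) .nil)))) (.g (nat_lit 0) (.e (nat_lit 60445) (nat_lit 0) .nil) .nil))) 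
(.lf (nat_lit 462695) (.g (nat_lit 1718) (.e (nat_lit 3062) (nat_lit 190) (.e (nat_lit 475185) (nat_lit 29) (.e (nat_lit 557100) (nat_lit 13) (.e (nat_lit 172106) (nat_lit 10) (.e (nat_lit 434227) (nat_lit 20) (.e (nat_lit 507928) (nat_lit 10) (.e (nat_lit 5665) (nat_lit 312) .nil))))))) (.g (nat_lit 1) (.e (nat_lit 67319) (nat_lit 0) .nil) .nil))))) (.nd (nat_lit 8) (.nd (nat_lit 9) 
(.lf (nat_lit 462055) (.g (nat_lit 3439) (.e (nat_lit 2945) (nat_lit 184) (.e (nat_lit 426123) (nat_lit 2) (.e (nat_lit 196666) (nat_lit 13) (.e (nat_lit 65617) (nat_lit 10) (.e (nat_lit 344133) (nat_lit 26) .nil))))) (.g (nat_lit 0) (.e (nat_lit 59309) (nat_lit 0) .nil) .nil))) 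
(.lf (nat_lit 462567) (.g (nat_lit 2038) (.e (nat_lit 3044) (nat_lit 189) (.e (nat_lit 466981) (nat_lit 23) (.e (nat_lit 204862) (nat_lit 27) (.e (nat_lit 344160) (nat_lit 37) (.e (nat_lit 647181) (nat_lit 3) .nil))))) (.g (nat_lit 0) (.e (nat_lit 66871) (nat_lit 0) .nil) .nil)))) (.nd (nat_lit 9) 
(.lf (nat_lit 462311) (.g (nat_lit 379) (.e (nat_lit 3003) (nat_lit 186) (.e (nat_lit 442379) (nat_lit 0) (.e (nat_lit 2059) (nat_lit 142) .nil))) (.g (nat_lit 0) (.e (nat_lit 61879) (nat_lit 0) .nil) .nil))) 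
(.lf (nat_lit 462823) (.g (nat_lit 1658) (.e (nat_lit 3062) (nat_lit 190) (.e (nat_lit 475185) (nat_lit 29) (.e (nat_lit 557109) (nat_lit 15) (.e (nat_lit 188450) (nat_lit 23) .nil)))) (.g (nat_lit 0) (.e (nat_lit 67450) (nat_lit 0) .nil) .nil)))))))) (.nd (nat_lit 5) (.nd (nat_lit 6) (.nd (nat_lit 7) (.nd (nat_lit 8) (.nd (nat_lit 9) 
(.lf (nat_lit 461847) (.g (nat_lit 1188) (.e (nat_lit 2897) (nat_lit 184) (.e (nat_lit 426506) (nat_lit 27) (.e (nat_lit 336205) (nat_lit 12) (.e (nat_lit 385093) (nat_lit 49) (.e (nat_lit 778323) (nat_lit 5) .nil))))) (.g (nat_lit 0) (.e (nat_lit 58835) (nat_lit 0) .nil) .nil))) 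
(.lf (nat_lit 462359) (.g (nat_lit 2496) (.e (nat_lit 3009) (nat_lit 187) (.e (nat_lit 450579) (nat_lit 5) (.e (nat_lit 532523) (nat_lit 7) (.e (nat_lit 319528) (nat_lit 16) (.e (nat_lit 286733) (nat_lit 2) (.e (nat_lit 90134) (nat_lit 9) .nil)))))) (.g (nat_lit 1) (.e (nat_lit 62169) (nat_lit 0) .nil) .nil)))) (.nd (nat_lit 9) 
(.lf (nat_lit 462103) (.g (nat_lit 213) (.e (nat_lit 7936) (nat_lit 184) (.e (nat_lit 426163) (nat_lit 6) (.e (nat_lit 253991) (nat_lit 11) .nil))) (.g (nat_lit 0) (.e (nat_lit 59616) (nat_lit 0) .nil) .nil))) 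
(.lf (nat_lit 462615) (.g (nat_lit 2189) (.e (nat_lit 3061) (nat_lit 190) (.e (nat_lit 475185) (nat_lit 29) (.e (nat_lit 557101) (nat_lit 13) (.e (nat_lit 172097) (nat_lit 9) .nil)))) (.g (nat_lit 0) (.e (nat_lit 67094) (nat_lit 0) .nil) .nil))))) (.nd (nat_lit 8) (.nd (nat_lit 9) 
(.lf (nat_lit 461975) (.g (nat_lit 4226) (.e (nat_lit 2939) (nat_lit 184) (.e (nat_lit 425984) (nat_lit 0) (.e (nat_lit 3249) (nat_lit 197) (.e (nat_lit 532569) (nat_lit 16) (.e (nat_lit 401434) (nat_lit 9) (.e (nat_lit 426125) (nat_lit 2) (.e (nat_lit 196661) (nat_lit 12) (.e (nat_lit 57748) (nat_lit 201) .nil)))))))) (.g (nat_lit 1) (.e (nat_lit 59183) (nat_lit 0) .nil) .nil))) 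
(.lf (nat_lit 462487) (.g (nat_lit 4293) (.e (nat_lit 3022) (nat_lit 187) (.e (nat_lit 450580) (nat_lit 5) (.e (nat_lit 532569) (nat_lit 16) (.e (nat_lit 401448) (nat_lit 10) (.e (nat_lit 434238) (nat_lit 25) (.e (nat_lit 548897) (nat_lit 14) .nil)))))) (.g (nat_lit 1) (.e (nat_lit 64945) (nat_lit 0) .nil) .nil)))) (.nd (nat_lit 9) 
(.lf (nat_lit 462231) (.g (nat_lit 4307) (.e (nat_lit 2980) (nat_lit 185) (.e (nat_lit 434231) (nat_lit 23) (.e (nat_lit 532549) (nat_lit 12) (.e (nat_lit 360474) (nat_lit 8) (.e (nat_lit 557091) (nat_lit 12) (.e (nat_lit 164020) (nat_lit 45) (.e (nat_lit 696329) (nat_lit 5) .nil))))))) (.g (nat_lit 1) (.e (nat_lit 60918) (nat_lit 0) .nil) .nil))) 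
(.lf (nat_lit 462743) (.g (nat_lit 2710) (.e (nat_lit 3062) (nat_lit 190) (.e (nat_lit 475185) (nat_lit 29) (.e (nat_lit 557100) (nat_lit 13) (.e (nat_lit 172113) (nat_lit 10) (.e (nat_lit 434231) (nat_lit 23) .nil))))) (.g (nat_lit 0) (.e (nat_lit 67367) (nat_lit 0) .nil) .nil)))))) (.nd (nat_lit 7) (.nd (nat_lit 8) (.nd (nat_lit 9) 
(.lf (nat_lit 461911) (.g (nat_lit 2780) (.e (nat_lit 2936) (nat_lit 184) (.e (nat_lit 426163) (nat_lit 6) (.e (nat_lit 253991) (nat_lit 11) (.e (nat_lit 16435) (nat_lit 9) (.e (nat_lit 426533) (nat_lit 28) (.e (nat_lit 344067) (nat_lit 0) .nil)))))) (.g (nat_lit 1) (.e (nat_lit 59080) (nat_lit 0) .nil) .nil))) 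
(.lf (nat_lit 462423) (.g (nat_lit 2383) (.e (nat_lit 3016) (nat_lit 187) (.e (nat_lit 450580) (nat_lit 5) (.e (nat_lit 532522) (nat_lit 7) (.e (nat_lit 319530) (nat_lit 16) (.e (nat_lit 286733) (nat_lit 2) .nil))))) (.g (nat_lit 0) (.e (nat_lit 63888) (nat_lit 0) .nil) .nil)))) (.nd (nat_lit 9) 
(.lf (nat_lit 462167) (.g (nat_lit 4343) (.e (nat_lit 2965) (nat_lit 185) (.e (nat_lit 434231) (nat_lit 23) (.e (nat_lit 532549) (nat_lit 12) (.e (nat_lit 360475) (nat_lit 8) (.e (nat_lit 557089) (nat_lit 12) .nil))))) (.g (nat_lit 0) (.e (nat_lit 60333) (nat_lit 0) .nil) .nil))) 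
(.lf (nat_lit 462679) (.g (nat_lit 2071) (.e (nat_lit 3062) (nat_lit 190) (.e (nat_lit 475185) (nat_lit 29) (.e (nat_lit 557098) (nat_lit 13) (.e (nat_lit 172097) (nat_lit 9) .nil)))) (.g (nat_lit 0) (.e (nat_lit 67303) (nat_lit 0) .nil) .nil))))) (.nd (nat_lit 8) (.nd (nat_lit 9) 
(.lf (nat_lit 462039) (.g (nat_lit 2230) (.e (nat_lit 2941) (nat_lit 184) (.e (nat_lit 426401) (nat_lit 15) (.e (nat_lit 1859) (nat_lit 124) (.e (nat_lit 557107) (nat_lit 15) (.e (nat_lit 188447) (nat_lit 22) (.e (nat_lit 196661) (nat_lit 12) (.e (nat_lit 57748) (nat_lit 201) .nil))))))) (.g (nat_lit 1) (.e (nat_lit 59280) (nat_lit 0) .nil) .nil))) 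
(.lf (nat_lit 462551) (.g (nat_lit 2737) (.e (nat_lit 3044) (nat_lit 189) (.e (nat_lit 466974) (nat_lit 22) (.e (nat_lit 196681) (nat_lit 17) (.e (nat_lit 131089) (nat_lit 1) (.e (nat_lit 57931) (nat_lit 282) (.e (nat_lit 163843) (nat_lit 0) (.e (nat_lit 7936) (nat_lit 200) (.e (nat_lit 557065) (nat_lit 9) .nil)))))))) (.g (nat_lit 1) (.e (nat_lit 66806) (nat_lit 0) .nil) .nil)))) 
(.nd (nat_lit 9) 
(.lf (nat_lit 462295) (.g (nat_lit 2500) (.e (nat_lit 2988) (nat_lit 186) (.e (nat_lit 442390) (nat_lit 11) (.e (nat_lit 336231) (nat_lit 14) (.e (nat_lit 401446) (nat_lit 10) (.e (nat_lit 434287) (nat_lit 43) (.e (nat_lit 696327) (nat_lit 5) .nil)))))) (.g (nat_lit 1) (.e (nat_lit 61349) (nat_lit 0) .nil) .nil))) 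
(.lf (nat_lit 462807) (.g (nat_lit 3438) (.e (nat_lit 3062) (nat_lit 190) (.e (nat_lit 475185) (nat_lit 29) (.e (nat_lit 557107) (nat_lit 15) (.e (nat_lit 188450) (nat_lit 23) (.e (nat_lit 204816) (nat_lit 17) (.e (nat_lit 6622) (nat_lit 357) .nil)))))) (.g (nat_lit 1) (.e (nat_lit 67434) (nat_lit 0) .nil) .nil))))))) (.nd (nat_lit 6) (.nd (nat_lit 7) (.nd (nat_lit 8) (.nd (nat_lit 9) 
(.lf (nat_lit 461879) (.g (nat_lit 2023) (.e (nat_lit 2950) (nat_lit 184) (.e (nat_lit 426316) (nat_lit 12) (.e (nat_lit 475185) (nat_lit 29) (.e (nat_lit 557103) (nat_lit 14) (.e (nat_lit 188160) (nat_lit 32) .nil))))) (.g (nat_lit 0) (.e (nat_lit 58940) (nat_lit 0) .nil) .nil))) 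
(.lf (nat_lit 462391) (.g (nat_lit 2413) (.e (nat_lit 3015) (nat_lit 187) (.e (nat_lit 450563) (nat_lit 0) (.e (nat_lit 6830) (nat_lit 367) (.e (nat_lit 57423) (nat_lit 14) (.e (nat_lit 352269) (nat_lit 7) (.e (nat_lit 245762) (nat_lit 0) .nil)))))) (.g (nat_lit 1) (.e (nat_lit 62972) (nat_lit 0) .nil) .nil)))) (.nd (nat_lit 9) 
(.lf (nat_lit 462135) (.g (nat_lit 1874) (.e (nat_lit 2964) (nat_lit 185) (.e (nat_lit 434231) (nat_lit 23) (.e (nat_lit 532549) (nat_lit 12) (.e (nat_lit 360473) (nat_lit 8) (.e (nat_lit 557093) (nat_lit 12) .nil))))) (.g (nat_lit 0) (.e (nat_lit 60155) (nat_lit 0) .nil) .nil))) 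
(.lf (nat_lit 462647) (.g (nat_lit 1418) (.e (nat_lit 3062) (nat_lit 190) (.e (nat_lit 475179) (nat_lit 24) (.e (nat_lit 516158) (nat_lit 9) (.e (nat_lit 426306) (nat_lit 12) .nil)))) (.g (nat_lit 0) (.e (nat_lit 67196) (nat_lit 0) .nil) .nil))))) (.nd (nat_lit 8) (.nd (nat_lit 9) 
(.lf (nat_lit 462007) (.g (nat_lit 3260) (.e (nat_lit 2939) (nat_lit 184) (.e (nat_lit 426503) (nat_lit 27) (.e (nat_lit 336231) (nat_lit 14) (.e (nat_lit 401437) (nat_lit 9) (.e (nat_lit 426533) (nat_lit 28) (.e (nat_lit 344067) (nat_lit 0) .nil)))))) (.g (nat_lit 1) (.e (nat_lit 59244) (nat_lit 0) .nil) .nil))) 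
(.lf (nat_lit 462519) (.g (nat_lit 2284) (.e (nat_lit 3027) (nat_lit 187) (.e (nat_lit 450564) (nat_lit 0) (.e (nat_lit 5212) (nat_lit 295) (.e (nat_lit 122919) (nat_lit 15) (.e (nat_lit 360480) (nat_lit 14) (.e (nat_lit 638986) (nat_lit 5) .nil)))))) (.g (nat_lit 1) (.e (nat_lit 65765) (nat_lit 0) .nil) .nil)))) (.nd (nat_lit 9) 
(.lf (nat_lit 462263) (.g (nat_lit 2279) (.e (nat_lit 2981) (nat_lit 185) (.e (nat_lit 434231) (nat_lit 23) (.e (nat_lit 532550) (nat_lit 12) (.e (nat_lit 360475) (nat_lit 8) .nil)))) (.g (nat_lit 0) (.e (nat_lit 61035) (nat_lit 0) .nil) .nil))) 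
(.lf (nat_lit 462775) (.g (nat_lit 2965) (.e (nat_lit 3062) (nat_lit 190) (.e (nat_lit 475185) (nat_lit 29) (.e (nat_lit 557101) (nat_lit 13) (.e (nat_lit 172115) (nat_lit 10) (.e (nat_lit 434227) (nat_lit 20) (.e (nat_lit 507930) (nat_lit 10) (.e (nat_lit 5646) (nat_lit 312) .nil))))))) (.g (nat_lit 1) (.e (nat_lit 67399) (nat_lit 0) .nil) .nil)))))) 
(.nd (nat_lit 7) (.nd (nat_lit 8) (.nd (nat_lit 9) 
(.lf (nat_lit 461943) (.g (nat_lit 3558) (.e (nat_lit 2936) (nat_lit 184) (.e (nat_lit 426419) (nat_lit 15) (.e (nat_lit 1856) (nat_lit 124) (.e (nat_lit 557098) (nat_lit 13) (.e (nat_lit 172097) (nat_lit 9) (.e (nat_lit 426125) (nat_lit 2) (.e (nat_lit 196661) (nat_lit 12) (.e (nat_lit 57749) (nat_lit 201) .nil)))))))) (.g (nat_lit 1) (.e (nat_lit 59145) (nat_lit 0) .nil) .nil))) 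
(.lf (nat_lit 462455) (.g (nat_lit 708) (.e (nat_lit 3021) (nat_lit 187) (.e (nat_lit 450579) (nat_lit 5) (.e (nat_lit 532569) (nat_lit 16) .nil))) (.g (nat_lit 0) (.e (nat_lit 64392) (nat_lit 0) .nil) .nil)))) (.nd (nat_lit 9) 
(.lf (nat_lit 462199) (.g (nat_lit 2774) (.e (nat_lit 2975) (nat_lit 185) (.e (nat_lit 434231) (nat_lit 23) (.e (nat_lit 532549) (nat_lit 12) (.e (nat_lit 360474) (nat_lit 8) .nil)))) (.g (nat_lit 0) (.e (nat_lit 60516) (nat_lit 0) .nil) .nil))) 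
(.lf (nat_lit 462711) (.g (nat_lit 2951) (.e (nat_lit 3062) (nat_lit 190) (.e (nat_lit 475185) (nat_lit 29) (.e (nat_lit 557100) (nat_lit 13) (.e (nat_lit 172106) (nat_lit 10) (.e (nat_lit 434231) (nat_lit 23) (.e (nat_lit 532480) (nat_lit 0) (.e (nat_lit 6668) (nat_lit 357) .nil))))))) (.g (nat_lit 1) (.e (nat_lit 67335) (nat_lit 0) .nil) .nil))))) (.nd (nat_lit 8) (.nd (nat_lit 9) 
(.lf (nat_lit 462071) (.g (nat_lit 699) (.e (nat_lit 2949) (nat_lit 184) (.e (nat_lit 426316) (nat_lit 12) (.e (nat_lit 475185) (nat_lit 29) .nil))) (.g (nat_lit 0) (.e (nat_lit 59360) (nat_lit 0) .nil) .nil))) 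
(.lf (nat_lit 462583) (.g (nat_lit 3944) (.e (nat_lit 3055) (nat_lit 190) (.e (nat_lit 475185) (nat_lit 29) (.e (nat_lit 557101) (nat_lit 13) (.e (nat_lit 172115) (nat_lit 10) (.e (nat_lit 434231) (nat_lit 23) (.e (nat_lit 532481) (nat_lit 0) (.e (nat_lit 6691) (nat_lit 357) .nil))))))) (.g (nat_lit 1) (.e (nat_lit 66990) (nat_lit 0) .nil) .nil)))) (.nd (nat_lit 9) 
(.lf (nat_lit 462327) (.g (nat_lit 2722) (.e (nat_lit 3004) (nat_lit 186) (.e (nat_lit 442374) (nat_lit 0) (.e (nat_lit 2059) (nat_lit 142) (.e (nat_lit 704598) (nat_lit 6) (.e (nat_lit 188439) (nat_lit 20) (.e (nat_lit 3409) (nat_lit 212) (.e (nat_lit 655364) (nat_lit 0) .nil))))))) (.g (nat_lit 1) (.e (nat_lit 62033) (nat_lit 0) .nil) .nil))) 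
(.lf (nat_lit 462839) (.g (nat_lit 3218) (.e (nat_lit 3062) (nat_lit 190) (.e (nat_lit 475185) (nat_lit 29) (.e (nat_lit 557109) (nat_lit 15) (.e (nat_lit 188452) (nat_lit 23) (.e (nat_lit 212736) (nat_lit 17) .nil))))) (.g (nat_lit 0) (.e (nat_lit 67466) (nat_lit 0) .nil) .nil))))))))) (.nd (nat_lit 4) (.nd (nat_lit 5) (.nd (nat_lit 6) (.nd (nat_lit 7) (.nd (nat_lit 8) (.nd (nat_lit 9) 
(.lf (nat_lit 461839) (.g (nat_lit 2623) (.e (nat_lit 2885) (nat_lit 184) (.e (nat_lit 426140) (nat_lit 3) (.e (nat_lit 204869) (nat_lit 29) (.e (nat_lit 360474) (nat_lit 8) (.e (nat_lit 557094) (nat_lit 12) .nil))))) (.g (nat_lit 0) (.e (nat_lit 58815) (nat_lit 0) .nil) .nil))) 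
(.lf (nat_lit 462351) (.g (nat_lit 2438) (.e (nat_lit 3004) (nat_lit 186) (.e (nat_lit 442390) (nat_lit 11) (.e (nat_lit 336231) (nat_lit 14) (.e (nat_lit 401448) (nat_lit 10) (.e (nat_lit 434287) (nat_lit 43) (.e (nat_lit 696330) (nat_lit 5) .nil)))))) (.g (nat_lit 1) (.e (nat_lit 62118) (nat_lit 0) .nil) .nil)))) (.nd (nat_lit 9) 
(.lf (nat_lit 462095) (.g (nat_lit 623) (.e (nat_lit 2946) (nat_lit 184) (.e (nat_lit 426306) (nat_lit 12) (.e (nat_lit 475209) (nat_lit 41) .nil))) (.g (nat_lit 0) (.e (nat_lit 59486) (nat_lit 0) .nil) .nil))) 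
(.lf (nat_lit 462607) (.g (nat_lit 3168) (.e (nat_lit 3059) (nat_lit 190) (.e (nat_lit 475185) (nat_lit 29) (.e (nat_lit 557109) (nat_lit 15) (.e (nat_lit 188452) (nat_lit 23) (.e (nat_lit 204821) (nat_lit 17) .nil))))) (.g (nat_lit 0) (.e (nat_lit 67064) (nat_lit 0) .nil) .nil))))) (.nd (nat_lit 8) (.nd (nat_lit 9) 
(.lf (nat_lit 461967) (.g (nat_lit 1031) (.e (nat_lit 2936) (nat_lit 184) (.e (nat_lit 426532) (nat_lit 28) (.e (nat_lit 344068) (nat_lit 0) (.e (nat_lit 2854) (nat_lit 184) (.e (nat_lit 426533) (nat_lit 28) (.e (nat_lit 344066) (nat_lit 0) .nil)))))) (.g (nat_lit 1) (.e (nat_lit 59172) (nat_lit 0) .nil) .nil))) 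
(.lf (nat_lit 462479) (.g (nat_lit 1246) (.e (nat_lit 3022) (nat_lit 187) (.e (nat_lit 450580) (nat_lit 5) (.e (nat_lit 532523) (nat_lit 7) (.e (nat_lit 319533) (nat_lit 16) .nil)))) (.g (nat_lit 0) (.e (nat_lit 64851) (nat_lit 0) .nil) .nil)))) (.nd (nat_lit 9) 
(.lf (nat_lit 462223) (.g (nat_lit 3339) (.e (nat_lit 2980) (nat_lit 185) (.e (nat_lit 434231) (nat_lit 23) (.e (nat_lit 532549) (nat_lit 12) (.e (nat_lit 360473) (nat_lit 8) (.e (nat_lit 557090) (nat_lit 12) (.e (nat_lit 164020) (nat_lit 45) (.e (nat_lit 696327) (nat_lit 5) .nil))))))) (.g (nat_lit 1) (.e (nat_lit 60904) (nat_lit 0) .nil) .nil))) 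
(.lf (nat_lit 462735) (.g (nat_lit 3193) (.e (nat_lit 3062) (nat_lit 190) (.e (nat_lit 475185) (nat_lit 29) (.e (nat_lit 557100) (nat_lit 13) (.e (nat_lit 172106) (nat_lit 10) (.e (nat_lit 434244) (nat_lit 28) (.e (nat_lit 573468) (nat_lit 10) (.e (nat_lit 16128) (nat_lit 205) .nil))))))) (.g (nat_lit 1) (.e (nat_lit 67359) (nat_lit 0) .nil) .nil)))))) 
(.nd (nat_lit 7) (.nd (nat_lit 8) (.nd (nat_lit 9) 
(.lf (nat_lit 461903) (.g (nat_lit 3082) (.e (nat_lit 2936) (nat_lit 184) (.e (nat_lit 426163) (nat_lit 6) (.e (nat_lit 253991) (nat_lit 11) (.e (nat_lit 16431) (nat_lit 9) (.e (nat_lit 426533) (nat_lit 28) (.e (nat_lit 344066) (nat_lit 0) .nil)))))) (.g (nat_lit 1) (.e (nat_lit 59069) (nat_lit 0) .nil) .nil))) 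
(.lf (nat_lit 462415) (.g (nat_lit 1138) (.e (nat_lit 3017) (nat_lit 187) (.e (nat_lit 450587) (nat_lit 10) (.e (nat_lit 573478) (nat_lit 12) (.e (nat_lit 57574) (nat_lit 55) .nil)))) (.g (nat_lit 0) (.e (nat_lit 63549) (nat_lit 0) .nil) .nil)))) (.nd (nat_lit 9) 
(.lf (nat_lit 462159) (.g (nat_lit 2283) (.e (nat_lit 2967) (nat_lit 185) (.e (nat_lit 434231) (nat_lit 23) (.e (nat_lit 532550) (nat_lit 12) (.e (nat_lit 360475) (nat_lit 8) .nil)))) (.g (nat_lit 0) (.e (nat_lit 60311) (nat_lit 0) .nil) .nil))) 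
(.lf (nat_lit 462671) (.g (nat_lit 2218) (.e (nat_lit 3062) (nat_lit 190) (.e (nat_lit 475179) (nat_lit 24) (.e (nat_lit 516176) (nat_lit 14) (.e (nat_lit 466954) (nat_lit 11) (.e (nat_lit 335995) (nat_lit 1) (.e (nat_lit 57654) (nat_lit 152) (.e (nat_lit 2405) (nat_lit 157) .nil))))))) (.g (nat_lit 1) (.e (nat_lit 67293) (nat_lit 0) .nil) .nil))))) (.nd (nat_lit 8) (.nd (nat_lit 9) 
(.lf (nat_lit 462031) (.g (nat_lit 1307) (.e (nat_lit 2940) (nat_lit 184) (.e (nat_lit 426532) (nat_lit 28) (.e (nat_lit 344068) (nat_lit 0) (.e (nat_lit 3090) (nat_lit 191) (.e (nat_lit 483354) (nat_lit 17) (.e (nat_lit 6674) (nat_lit 357) .nil)))))) (.g (nat_lit 1) (.e (nat_lit 59272) (nat_lit 0) .nil) .nil))) 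
(.lf (nat_lit 462543) (.g (nat_lit 979) (.e (nat_lit 3044) (nat_lit 189) (.e (nat_lit 466972) (nat_lit 21) (.e (nat_lit 164319) (nat_lit 228) (.e (nat_lit 57427) (nat_lit 15) .nil)))) (.g (nat_lit 0) (.e (nat_lit 66771) (nat_lit 0) .nil) .nil)))) (.nd (nat_lit 9) 
(.lf (nat_lit 462287) (.g (nat_lit 1634) (.e (nat_lit 2988) (nat_lit 186) (.e (nat_lit 442374) (nat_lit 0) (.e (nat_lit 2059) (nat_lit 142) (.e (nat_lit 704599) (nat_lit 6) (.e (nat_lit 188441) (nat_lit 20) (.e (nat_lit 3408) (nat_lit 212) (.e (nat_lit 655363) (nat_lit 0) .nil))))))) (.g (nat_lit 1) (.e (nat_lit 61305) (nat_lit 0) .nil) .nil))) 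
(.lf (nat_lit 462799) (.g (nat_lit 3486) (.e (nat_lit 3062) (nat_lit 190) (.e (nat_lit 475185) (nat_lit 29) (.e (nat_lit 557101) (nat_lit 13) (.e (nat_lit 172115) (nat_lit 10) (.e (nat_lit 434231) (nat_lit 23) (.e (nat_lit 532486) (nat_lit 0) (.e (nat_lit 6664) (nat_lit 357) .nil))))))) (.g (nat_lit 1) (.e (nat_lit 67423) (nat_lit 0) .nil) .nil))))))) 
(.nd (nat_lit 6) (.nd (nat_lit 7) (.nd (nat_lit 8) (.nd (nat_lit 9) 
(.lf (nat_lit 461871) (.g (nat_lit 699) (.e (nat_lit 2914) (nat_lit 184) (.e (nat_lit 426316) (nat_lit 12) (.e (nat_lit 475185) (nat_lit 29) .nil))) (.g (nat_lit 0) (.e (nat_lit 58892) (nat_lit 0) .nil) .nil))) 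
(.lf (nat_lit 462383) (.g (nat_lit 1256) (.e (nat_lit 3012) (nat_lit 187) (.e (nat_lit 450605) (nat_lit 27) (.e (nat_lit 745476) (nat_lit 0) (.e (nat_lit 1586) (nat_lit 111) (.e (nat_lit 368384) (nat_lit 10) (.e (nat_lit 573445) (nat_lit 0) .nil)))))) (.g (nat_lit 1) (.e (nat_lit 62841) (nat_lit 0) .nil) .nil)))) (.nd (nat_lit 9) 
(.lf (nat_lit 462127) (.g (nat_lit 1723) (.e (nat_lit 2964) (nat_lit 185) (.e (nat_lit 434231) (nat_lit 23) (.e (nat_lit 532549) (nat_lit 12) (.e (nat_lit 360473) (nat_lit 8) (.e (nat_lit 557089) (nat_lit 12) .nil))))) (.g (nat_lit 0) (.e (nat_lit 60139) (nat_lit 0) .nil) .nil))) 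
(.lf (nat_lit 462639) (.g (nat_lit 2628) (.e (nat_lit 3062) (nat_lit 190) (.e (nat_lit 475179) (nat_lit 24) (.e (nat_lit 516146) (nat_lit 9) (.e (nat_lit 426320) (nat_lit 12) (.e (nat_lit 483072) (nat_lit 3) (.e (nat_lit 164017) (nat_lit 44) (.e (nat_lit 688139) (nat_lit 5) .nil))))))) (.g (nat_lit 1) (.e (nat_lit 67143) (nat_lit 0) .nil) .nil))))) (.nd (nat_lit 8) (.nd (nat_lit 9) 
(.lf (nat_lit 461999) (.g (nat_lit 2978) (.e (nat_lit 2939) (nat_lit 184) (.e (nat_lit 426401) (nat_lit 15) (.e (nat_lit 1859) (nat_lit 124) (.e (nat_lit 557109) (nat_lit 15) (.e (nat_lit 188449) (nat_lit 22) (.e (nat_lit 196661) (nat_lit 12) (.e (nat_lit 57748) (nat_lit 201) .nil))))))) (.g (nat_lit 1) (.e (nat_lit 59232) (nat_lit 0) .nil) .nil))) 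
(.lf (nat_lit 462511) (.g (nat_lit 741) (.e (nat_lit 3026) (nat_lit 187) (.e (nat_lit 450605) (nat_lit 27) (.e (nat_lit 745475) (nat_lit 0) (.e (nat_lit 1592) (nat_lit 111) (.e (nat_lit 368384) (nat_lit 10) (.e (nat_lit 573444) (nat_lit 0) .nil)))))) (.g (nat_lit 1) (.e (nat_lit 65702) (nat_lit 0) .nil) .nil)))) (.nd (nat_lit 9) 
(.lf (nat_lit 462255) (.g (nat_lit 4343) (.e (nat_lit 2981) (nat_lit 185) (.e (nat_lit 434231) (nat_lit 23) (.e (nat_lit 532549) (nat_lit 12) (.e (nat_lit 360475) (nat_lit 8) (.e (nat_lit 557089) (nat_lit 12) .nil))))) (.g (nat_lit 0) (.e (nat_lit 61027) (nat_lit 0) .nil) .nil))) 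
(.lf (nat_lit 462767) (.g (nat_lit 2249) (.e (nat_lit 3062) (nat_lit 190) (.e (nat_lit 475185) (nat_lit 29) (.e (nat_lit 557101) (nat_lit 13) (.e (nat_lit 172115) (nat_lit 10) (.e (nat_lit 434227) (nat_lit 20) (.e (nat_lit 507928) (nat_lit 10) (.e (nat_lit 5650) (nat_lit 312) .nil))))))) (.g (nat_lit 1) (.e (nat_lit 67391) (nat_lit 0) .nil) .nil)))))) 
(.nd (nat_lit 7) (.nd (nat_lit 8) (.nd (nat_lit 9) 
(.lf (nat_lit 461935) (.g (nat_lit 1353) (.e (nat_lit 2936) (nat_lit 184) (.e (nat_lit 426163) (nat_lit 6) (.e (nat_lit 253992) (nat_lit 11) (.e (nat_lit 16439) (nat_lit 9) .nil)))) (.g (nat_lit 0) (.e (nat_lit 59112) (nat_lit 0) .nil) .nil))) 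
(.lf (nat_lit 462447) (.g (nat_lit 750) (.e (nat_lit 3020) (nat_lit 187) (.e (nat_lit 450584) (nat_lit 9) (.e (nat_lit 565268) (nat_lit 5) (.e (nat_lit 73792) (nat_lit 45) (.e (nat_lit 1162) (nat_lit 86) .nil))))) (.g (nat_lit 0) (.e (nat_lit 64338) (nat_lit 0) .nil) .nil)))) (.nd (nat_lit 9) 
(.lf (nat_lit 462191) (.g (nat_lit 2280) (.e (nat_lit 2974) (nat_lit 185) (.e (nat_lit 434231) (nat_lit 23) (.e (nat_lit 532550) (nat_lit 12) (.e (nat_lit 360475) (nat_lit 8) .nil)))) (.g (nat_lit 0) (.e (nat_lit 60453) (nat_lit 0) .nil) .nil))) 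
(.lf (nat_lit 462703) (.g (nat_lit 2100) (.e (nat_lit 3062) (nat_lit 190) (.e (nat_lit 475185) (nat_lit 29) (.e (nat_lit 557100) (nat_lit 13) (.e (nat_lit 172106) (nat_lit 10) (.e (nat_lit 434227) (nat_lit 20) (.e (nat_lit 507930) (nat_lit 10) (.e (nat_lit 5650) (nat_lit 312) .nil))))))) (.g (nat_lit 1) (.e (nat_lit 67327) (nat_lit 0) .nil) .nil))))) (.nd (nat_lit 8) (.nd (nat_lit 9) 
(.lf (nat_lit 462063) (.g (nat_lit 1378) (.e (nat_lit 2945) (nat_lit 184) (.e (nat_lit 426316) (nat_lit 12) (.e (nat_lit 475185) (nat_lit 29) (.e (nat_lit 557103) (nat_lit 14) .nil)))) (.g (nat_lit 0) (.e (nat_lit 59327) (nat_lit 0) .nil) .nil))) 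
(.lf (nat_lit 462575) (.g (nat_lit 2442) (.e (nat_lit 3055) (nat_lit 190) (.e (nat_lit 475179) (nat_lit 24) (.e (nat_lit 516146) (nat_lit 9) (.e (nat_lit 426438) (nat_lit 18) .nil)))) (.g (nat_lit 0) (.e (nat_lit 66979) (nat_lit 0) .nil) .nil)))) (.nd (nat_lit 9) 
(.lf (nat_lit 462319) (.g (nat_lit 2834) (.e (nat_lit 3004) (nat_lit 186) (.e (nat_lit 442374) (nat_lit 0) (.e (nat_lit 1856) (nat_lit 124) (.e (nat_lit 557107) (nat_lit 15) (.e (nat_lit 188441) (nat_lit 20) (.e (nat_lit 3272) (nat_lit 199) (.e (nat_lit 548897) (nat_lit 14) .nil))))))) (.g (nat_lit 1) (.e (nat_lit 62024) (nat_lit 0) .nil) .nil))) 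
(.lf (nat_lit 462831) (.g (nat_lit 2953) (.e (nat_lit 3062) (nat_lit 190) (.e (nat_lit 475185) (nat_lit 29) (.e (nat_lit 557109) (nat_lit 15) (.e (nat_lit 188452) (nat_lit 23) (.e (nat_lit 204815) (nat_lit 17) (.e (nat_lit 6668) (nat_lit 357) .nil)))))) (.g (nat_lit 1) (.e (nat_lit 67458) (nat_lit 0) .nil) .nil)))))))) 
(.nd (nat_lit 5) (.nd (nat_lit 6) (.nd (nat_lit 7) (.nd (nat_lit 8) (.nd (nat_lit 9) 
(.lf (nat_lit 461855) (.g (nat_lit 2497) (.e (nat_lit 2900) (nat_lit 184) (.e (nat_lit 426565) (nat_lit 34) (.e (nat_lit 393271) (nat_lit 23) (.e (nat_lit 426436) (nat_lit 18) (.e (nat_lit 98335) (nat_lit 18) (.e (nat_lit 164305) (nat_lit 226) (.e (nat_lit 2439) (nat_lit 157) .nil))))))) (.g (nat_lit 1) (.e (nat_lit 58848) (nat_lit 0) .nil) .nil))) 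
(.lf (nat_lit 462367) (.g (nat_lit 5057) (.e (nat_lit 3009) (nat_lit 187) (.e (nat_lit 450580) (nat_lit 5) (.e (nat_lit 532523) (nat_lit 7) (.e (nat_lit 319533) (nat_lit 16) (.e (nat_lit 286733) (nat_lit 2) (.e (nat_lit 90134) (nat_lit 9) .nil)))))) (.g (nat_lit 1) (.e (nat_lit 62184) (nat_lit 0) .nil) .nil)))) (.nd (nat_lit 9) 
(.lf (nat_lit 462111) (.g (nat_lit 2181) (.e (nat_lit 2958) (nat_lit 185) (.e (nat_lit 434248) (nat_lit 28) (.e (nat_lit 573503) (nat_lit 18) (.e (nat_lit 1348) (nat_lit 102) .nil)))) (.g (nat_lit 0) (.e (nat_lit 59720) (nat_lit 0) .nil) .nil))) 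
(.lf (nat_lit 462623) (.g (nat_lit 2877) (.e (nat_lit 3062) (nat_lit 190) (.e (nat_lit 483072) (nat_lit 26) (.e (nat_lit 532544) (nat_lit 10) (.e (nat_lit 344132) (nat_lit 26) (.e (nat_lit 557105) (nat_lit 14) (.e (nat_lit 180251) (nat_lit 10) (.e (nat_lit 573443) (nat_lit 0) .nil))))))) (.g (nat_lit 1) (.e (nat_lit 67109) (nat_lit 0) .nil) .nil))))) (.nd (nat_lit 8) (.nd (nat_lit 9) 
(.lf (nat_lit 461983) (.g (nat_lit 1758) (.e (nat_lit 2939) (nat_lit 184) (.e (nat_lit 426163) (nat_lit 6) (.e (nat_lit 253991) (nat_lit 11) (.e (nat_lit 16465) (nat_lit 13) .nil)))) (.g (nat_lit 0) (.e (nat_lit 59207) (nat_lit 0) .nil) .nil))) 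
(.lf (nat_lit 462495) (.g (nat_lit 1352) (.e (nat_lit 3022) (nat_lit 187) (.e (nat_lit 450584) (nat_lit 9) (.e (nat_lit 573184) (nat_lit 6) (.e (nat_lit 81947) (nat_lit 20) (.e (nat_lit 2391) (nat_lit 156) (.e (nat_lit 819203) (nat_lit 0) .nil)))))) (.g (nat_lit 1) (.e (nat_lit 65149) (nat_lit 0) .nil) .nil)))) (.nd (nat_lit 9) 
(.lf (nat_lit 462239) (.g (nat_lit 1887) (.e (nat_lit 2980) (nat_lit 185) (.e (nat_lit 434231) (nat_lit 23) (.e (nat_lit 532550) (nat_lit 12) (.e (nat_lit 360474) (nat_lit 8) (.e (nat_lit 557093) (nat_lit 12) .nil))))) (.g (nat_lit 0) (.e (nat_lit 60929) (nat_lit 0) .nil) .nil))) 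
(.lf (nat_lit 462751) (.g (nat_lit 3202) (.e (nat_lit 3062) (nat_lit 190) (.e (nat_lit 475185) (nat_lit 29) (.e (nat_lit 557100) (nat_lit 13) (.e (nat_lit 172115) (nat_lit 10) (.e (nat_lit 434231) (nat_lit 23) .nil))))) (.g (nat_lit 0) (.e (nat_lit 67375) (nat_lit 0) .nil) .nil)))))) (.nd (nat_lit 7) (.nd (nat_lit 8) (.nd (nat_lit 9) 
(.lf (nat_lit 461919) (.g (nat_lit 2621) (.e (nat_lit 2936) (nat_lit 184) (.e (nat_lit 426163) (nat_lit 6) (.e (nat_lit 253991) (nat_lit 11) (.e (nat_lit 16444) (nat_lit 9) (.e (nat_lit 433920) (nat_lit 28) .nil))))) (.g (nat_lit 0) (.e (nat_lit 59088) (nat_lit 0) .nil) .nil))) 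
(.lf (nat_lit 462431) (.g (nat_lit 814) (.e (nat_lit 3016) (nat_lit 187) (.e (nat_lit 458496) (nat_lit 8) (.e (nat_lit 557060) (nat_lit 0) (.e (nat_lit 1597) (nat_lit 111) (.e (nat_lit 360493) (nat_lit 27) (.e (nat_lit 819203) (nat_lit 0) .nil)))))) (.g (nat_lit 1) (.e (nat_lit 64141) (nat_lit 0) .nil) .nil)))) (.nd (nat_lit 9) 
(.lf (nat_lit 462175) (.g (nat_lit 3469) (.e (nat_lit 2965) (nat_lit 185) (.e (nat_lit 434231) (nat_lit 23) (.e (nat_lit 532550) (nat_lit 12) (.e (nat_lit 360475) (nat_lit 8) (.e (nat_lit 557091) (nat_lit 12) .nil))))) (.g (nat_lit 0) (.e (nat_lit 60341) (nat_lit 0) .nil) .nil))) 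
(.lf (nat_lit 462687) (.g (nat_lit 2207) (.e (nat_lit 3062) (nat_lit 190) (.e (nat_lit 475185) (nat_lit 29) (.e (nat_lit 557100) (nat_lit 13) (.e (nat_lit 172106) (nat_lit 10) (.e (nat_lit 434227) (nat_lit 20) (.e (nat_lit 507926) (nat_lit 10) (.e (nat_lit 5652) (nat_lit 312) .nil))))))) (.g (nat_lit 1) (.e (nat_lit 67311) (nat_lit 0) .nil) .nil))))) (.nd (nat_lit 8) (.nd (nat_lit 9) 
(.lf (nat_lit 462047) (.g (nat_lit 2133) (.e (nat_lit 2941) (nat_lit 184) (.e (nat_lit 426532) (nat_lit 28) (.e (nat_lit 344069) (nat_lit 0) (.e (nat_lit 2857) (nat_lit 184) (.e (nat_lit 426533) (nat_lit 28) (.e (nat_lit 344066) (nat_lit 0) .nil)))))) (.g (nat_lit 1) (.e (nat_lit 59289) (nat_lit 0) .nil) .nil))) 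
(.lf (nat_lit 462559) (.g (nat_lit 2749) (.e (nat_lit 3044) (nat_lit 189) (.e (nat_lit 466977) (nat_lit 22) (.e (nat_lit 196681) (nat_lit 17) (.e (nat_lit 131089) (nat_lit 1) (.e (nat_lit 57931) (nat_lit 282) (.e (nat_lit 163841) (nat_lit 0) (.e (nat_lit 7936) (nat_lit 200) (.e (nat_lit 557065) (nat_lit 9) .nil)))))))) (.g (nat_lit 1) (.e (nat_lit 66852) (nat_lit 0) .nil) .nil)))) 
(.nd (nat_lit 9) 
(.lf (nat_lit 462303) (.g (nat_lit 1917) (.e (nat_lit 2989) (nat_lit 186) (.e (nat_lit 442374) (nat_lit 0) (.e (nat_lit 1856) (nat_lit 124) (.e (nat_lit 557107) (nat_lit 15) (.e (nat_lit 188440) (nat_lit 20) .nil))))) (.g (nat_lit 0) (.e (nat_lit 61387) (nat_lit 0) .nil) .nil))) 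
(.lf (nat_lit 462815) (.g (nat_lit 1069) (.e (nat_lit 3062) (nat_lit 190) (.e (nat_lit 475185) (nat_lit 29) (.e (nat_lit 557108) (nat_lit 15) .nil))) (.g (nat_lit 0) (.e (nat_lit 67442) (nat_lit 0) .nil) .nil))))))) (.nd (nat_lit 6) (.nd (nat_lit 7) (.nd (nat_lit 8) (.nd (nat_lit 9) 
(.lf (nat_lit 461887) (.g (nat_lit 4270) (.e (nat_lit 2936) (nat_lit 184) (.e (nat_lit 425984) (nat_lit 0) (.e (nat_lit 3249) (nat_lit 197) (.e (nat_lit 532569) (nat_lit 16) (.e (nat_lit 401434) (nat_lit 9) (.e (nat_lit 426125) (nat_lit 2) (.e (nat_lit 196661) (nat_lit 12) (.e (nat_lit 57748) (nat_lit 201) .nil)))))))) (.g (nat_lit 1) (.e (nat_lit 59005) (nat_lit 0) .nil) .nil))) 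
(.lf (nat_lit 462399) (.g (nat_lit 1511) (.e (nat_lit 3015) (nat_lit 187) (.e (nat_lit 458496) (nat_lit 0) (.e (nat_lit 5202) (nat_lit 294) (.e (nat_lit 57412) (nat_lit 12) (.e (nat_lit 336176) (nat_lit 10) (.e (nat_lit 344157) (nat_lit 36) (.e (nat_lit 638986) (nat_lit 5) .nil))))))) (.g (nat_lit 1) (.e (nat_lit 63010) (nat_lit 0) .nil) .nil)))) (.nd (nat_lit 9) 
(.lf (nat_lit 462143) (.g (nat_lit 389) (.e (nat_lit 2964) (nat_lit 185) (.e (nat_lit 434231) (nat_lit 23) (.e (nat_lit 532550) (nat_lit 12) .nil))) (.g (nat_lit 0) (.e (nat_lit 60172) (nat_lit 0) .nil) .nil))) 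
(.lf (nat_lit 462655) (.g (nat_lit 1030) (.e (nat_lit 3062) (nat_lit 190) (.e (nat_lit 475179) (nat_lit 24) (.e (nat_lit 516166) (nat_lit 12) .nil))) (.g (nat_lit 0) (.e (nat_lit 67251) (nat_lit 0) .nil) .nil))))) (.nd (nat_lit 8) (.nd (nat_lit 9) 
(.lf (nat_lit 462015) (.g (nat_lit 2132) (.e (nat_lit 2939) (nat_lit 184) (.e (nat_lit 426541) (nat_lit 29) (.e (nat_lit 352267) (nat_lit 0) (.e (nat_lit 3632) (nat_lit 227) (.e (nat_lit 778323) (nat_lit 5) (.e (nat_lit 73779) (nat_lit 32) .nil)))))) (.g (nat_lit 1) (.e (nat_lit 59254) (nat_lit 0) .nil) .nil))) 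
(.lf (nat_lit 462527) (.g (nat_lit 1075) (.e (nat_lit 3027) (nat_lit 187) (.e (nat_lit 450586) (nat_lit 10) (.e (nat_lit 573475) (nat_lit 12) (.e (nat_lit 57574) (nat_lit 55) .nil)))) (.g (nat_lit 0) (.e (nat_lit 66238) (nat_lit 0) .nil) .nil)))) (.nd (nat_lit 9) 
(.lf (nat_lit 462271) (.g (nat_lit 1685) (.e (nat_lit 2984) (nat_lit 186) (.e (nat_lit 442374) (nat_lit 0) (.e (nat_lit 2175) (nat_lit 143) (.e (nat_lit 712752) (nat_lit 29) (.e (nat_lit 442382) (nat_lit 8) .nil))))) (.g (nat_lit 0) (.e (nat_lit 61105) (nat_lit 0) .nil) .nil))) 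
(.lf (nat_lit 462783) (.g (nat_lit 2653) (.e (nat_lit 3062) (nat_lit 190) (.e (nat_lit 475185) (nat_lit 29) (.e (nat_lit 557101) (nat_lit 13) (.e (nat_lit 172115) (nat_lit 10) (.e (nat_lit 434227) (nat_lit 20) (.e (nat_lit 507936) (nat_lit 10) (.e (nat_lit 5664) (nat_lit 312) .nil))))))) (.g (nat_lit 1) (.e (nat_lit 67407) (nat_lit 0) .nil) .nil)))))) 
(.nd (nat_lit 7) (.nd (nat_lit 8) (.nd (nat_lit 9) 
(.lf (nat_lit 461951) (.g (nat_lit 3859) (.e (nat_lit 2936) (nat_lit 184) (.e (nat_lit 426401) (nat_lit 15) (.e (nat_lit 1858) (nat_lit 124) (.e (nat_lit 557101) (nat_lit 13) (.e (nat_lit 172097) (nat_lit 9) (.e (nat_lit 426125) (nat_lit 2) (.e (nat_lit 196661) (nat_lit 12) (.e (nat_lit 57748) (nat_lit 201) .nil)))))))) (.g (nat_lit 1) (.e (nat_lit 59153) (nat_lit 0) .nil) .nil))) 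
(.lf (nat_lit 462463) (.g (nat_lit 466) (.e (nat_lit 3024) (nat_lit 187) (.e (nat_lit 450580) (nat_lit 5) (.e (nat_lit 532563) (nat_lit 15) .nil))) (.g (nat_lit 0) (.e (nat_lit 64622) (nat_lit 0) .nil) .nil)))) (.nd (nat_lit 9) 
(.lf (nat_lit 462207) (.g (nat_lit 2651) (.e (nat_lit 2978) (nat_lit 185) (.e (nat_lit 434231) (nat_lit 23) (.e (nat_lit 532550) (nat_lit 12) (.e (nat_lit 360473) (nat_lit 8) (.e (nat_lit 557090) (nat_lit 12) .nil))))) (.g (nat_lit 0) (.e (nat_lit 60691) (nat_lit 0) .nil) .nil))) 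
(.lf (nat_lit 462719) (.g (nat_lit 2898) (.e (nat_lit 3062) (nat_lit 190) (.e (nat_lit 475185) (nat_lit 29) (.e (nat_lit 557100) (nat_lit 13) (.e (nat_lit 172106) (nat_lit 10) (.e (nat_lit 434231) (nat_lit 23) (.e (nat_lit 532482) (nat_lit 0) (.e (nat_lit 6626) (nat_lit 357) .nil))))))) (.g (nat_lit 1) (.e (nat_lit 67343) (nat_lit 0) .nil) .nil))))) (.nd (nat_lit 8) (.nd (nat_lit 9) 
(.lf (nat_lit 462079) (.g (nat_lit 1787) (.e (nat_lit 2946) (nat_lit 184) (.e (nat_lit 426138) (nat_lit 3) (.e (nat_lit 204869) (nat_lit 29) (.e (nat_lit 360474) (nat_lit 8) (.e (nat_lit 557091) (nat_lit 12) .nil))))) (.g (nat_lit 0) (.e (nat_lit 59423) (nat_lit 0) .nil) .nil))) 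
(.lf (nat_lit 462591) (.g (nat_lit 3208) (.e (nat_lit 3056) (nat_lit 190) (.e (nat_lit 475185) (nat_lit 29) (.e (nat_lit 557109) (nat_lit 15) (.e (nat_lit 188452) (nat_lit 23) (.e (nat_lit 204817) (nat_lit 17) (.e (nat_lit 7936) (nat_lit 357) .nil)))))) (.g (nat_lit 1) (.e (nat_lit 67024) (nat_lit 0) .nil) .nil)))) (.nd (nat_lit 9) 
(.lf (nat_lit 462335) (.g (nat_lit 1886) (.e (nat_lit 3004) (nat_lit 186) (.e (nat_lit 442374) (nat_lit 0) (.e (nat_lit 2175) (nat_lit 143) (.e (nat_lit 712752) (nat_lit 29) (.e (nat_lit 442382) (nat_lit 8) (.e (nat_lit 163584) (nat_lit 0) .nil)))))) (.g (nat_lit 1) (.e (nat_lit 62041) (nat_lit 0) .nil) .nil))) 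
(.lf (nat_lit 462847) (.g (nat_lit 1966) (.e (nat_lit 3062) (nat_lit 190) (.e (nat_lit 475199) (nat_lit 40) (.e (nat_lit 704596) (nat_lit 5) (.e (nat_lit 180277) (nat_lit 32) (.e (nat_lit 1638) (nat_lit 114) (.e (nat_lit 392960) (nat_lit 8) .nil)))))) (.g (nat_lit 1) (.e (nat_lit 67505) (nat_lit 0) .nil) .nil)))))))))))))

noncomputable def tv5512 : DT := (.nd (nat_lit 0) (.nd (nat_lit 1) (.nd (nat_lit 2) (.nd (nat_lit 3) (.nd (nat_lit 4) (.nd (nat_lit 5) (.nd (nat_lit 6) (.nd (nat_lit 7) (.nd (nat_lit 8) (.nd (nat_lit 9) 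
(.lf (nat_lit 462848) (.g (nat_lit 708) (.e (nat_lit 3062) (nat_lit 190) (.e (nat_lit 475199) (nat_lit 40) (.e (nat_lit 704790) (nat_lit 14) .nil))) (.g (nat_lit 0) (.e (nat_lit 67512) (nat_lit 0) .nil) .nil))) 
(.lf (nat_lit 463360) (.g (nat_lit 1832) (.e (nat_lit 3077) (nat_lit 191) (.e (nat_lit 483403) (nat_lit 26) (.e (nat_lit 385094) (nat_lit 49) (.e (nat_lit 778324) (nat_lit 5) (.e (nat_lit 81664) (nat_lit 32) .nil))))) (.g (nat_lit 1) (.e (nat_lit 68647) (nat_lit 0) .nil) .nil)))) (.nd (nat_lit 9) 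
(.lf (nat_lit 463104) (.g (nat_lit 3018) (.e (nat_lit 3067) (nat_lit 190) (.e (nat_lit 475183) (nat_lit 29) (.e (nat_lit 557107) (nat_lit 15) (.e (nat_lit 188450) (nat_lit 23) (.e (nat_lit 204821) (nat_lit 17) (.e (nat_lit 6680) (nat_lit 357) .nil)))))) (.g (nat_lit 1) (.e (nat_lit 68119) (nat_lit 0) .nil) .nil))) 
(.lf (nat_lit 463616) (.g (nat_lit 937) (.e (nat_lit 3089) (nat_lit 191) (.e (nat_lit 483383) (nat_lit 23) (.e (nat_lit 336000) (nat_lit 1) (.e (nat_lit 57871) (nat_lit 264) .nil)))) (.g (nat_lit 0) (.e (nat_lit 70866) (nat_lit 0) .nil) .nil))))) (.nd (nat_lit 8) (.nd (nat_lit 9) 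
(.lf (nat_lit 462976) (.g (nat_lit 3318) (.e (nat_lit 3066) (nat_lit 190) (.e (nat_lit 475184) (nat_lit 29) (.e (nat_lit 557109) (nat_lit 15) (.e (nat_lit 188452) (nat_lit 23) (.e (nat_lit 204821) (nat_lit 17) (.e (nat_lit 6676) (nat_lit 357) .nil)))))) (.g (nat_lit 1) (.e (nat_lit 67838) (nat_lit 0) .nil) .nil))) 
(.lf (nat_lit 463488) (.g (nat_lit 580) (.e (nat_lit 3087) (nat_lit 191) (.e (nat_lit 483393) (nat_lit 23) (.e (nat_lit 336275) (nat_lit 15) .nil))) (.g (nat_lit 0) (.e (nat_lit 69677) (nat_lit 0) .nil) .nil)))) (.nd (nat_lit 9) 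
(.lf (nat_lit 463232) (.g (nat_lit 2822) (.e (nat_lit 3070) (nat_lit 190) (.e (nat_lit 475185) (nat_lit 29) (.e (nat_lit 557109) (nat_lit 15) (.e (nat_lit 188452) (nat_lit 23) (.e (nat_lit 204821) (nat_lit 17) (.e (nat_lit 7936) (nat_lit 357) .nil)))))) (.g (nat_lit 1) (.e (nat_lit 68339) (nat_lit 0) .nil) .nil))) 
(.lf (nat_lit 463744) (.g (nat_lit 1084) (.e (nat_lit 3090) (nat_lit 191) (.e (nat_lit 483383) (nat_lit 23) (.e (nat_lit 336263) (nat_lit 15) .nil))) (.g (nat_lit 0) (.e (nat_lit 71479) (nat_lit 0) .nil) .nil)))))) (.nd (nat_lit 7) (.nd (nat_lit 8) (.nd (nat_lit 9) 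
(.lf (nat_lit 462912) (.g (nat_lit 2295) (.e (nat_lit 3064) (nat_lit 190) (.e (nat_lit 475185) (nat_lit 29) (.e (nat_lit 557101) (nat_lit 13) (.e (nat_lit 172115) (nat_lit 10) (.e (nat_lit 434231) (nat_lit 23) (.e (nat_lit 532481) (nat_lit 0) (.e (nat_lit 6647) (nat_lit 357) .nil))))))) (.g (nat_lit 1) (.e (nat_lit 67704) (nat_lit 0) .nil) .nil))) 
(.lf (nat_lit 463424) (.g (nat_lit 2100) (.e (nat_lit 3085) (nat_lit 191) (.e (nat_lit 483405) (nat_lit 26) (.e (nat_lit 385093) (nat_lit 49) (.e (nat_lit 778323) (nat_lit 5) (.e (nat_lit 81664) (nat_lit 32) .nil))))) (.g (nat_lit 1) (.e (nat_lit 69153) (nat_lit 0) .nil) .nil)))) (.nd (nat_lit 9) 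
(.lf (nat_lit 463168) (.g (nat_lit 2870) (.e (nat_lit 3067) (nat_lit 190) (.e (nat_lit 475185) (nat_lit 29) (.e (nat_lit 557107) (nat_lit 15) (.e (nat_lit 188450) (nat_lit 23) (.e (nat_lit 204821) (nat_lit 17) (.e (nat_lit 6676) (nat_lit 357) .nil)))))) (.g (nat_lit 1) (.e (nat_lit 68187) (nat_lit 0) .nil) .nil))) 
(.lf (nat_lit 463680) (.g (nat_lit 1300) (.e (nat_lit 3089) (nat_lit 191) (.e (nat_lit 483411) (nat_lit 27) (.e (nat_lit 401437) (nat_lit 9) (.e (nat_lit 426533) (nat_lit 28) .nil)))) (.g (nat_lit 0) (.e (nat_lit 70985) (nat_lit 0) .nil) .nil))))) (.nd (nat_lit 8) (.nd (nat_lit 9) 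
(.lf (nat_lit 463040) (.g (nat_lit 1844) (.e (nat_lit 3067) (nat_lit 190) (.e (nat_lit 475178) (nat_lit 24) (.e (nat_lit 516124) (nat_lit 2) (.e (nat_lit 213030) (nat_lit 11) (.e (nat_lit 24605) (nat_lit 2) (.e (nat_lit 90165) (nat_lit 12) (.e (nat_lit 164248) (nat_lit 201) .nil))))))) (.g (nat_lit 1) (.e (nat_lit 67947) (nat_lit 0) .nil) .nil))) 
(.lf (nat_lit 463552) (.g (nat_lit 1776) (.e (nat_lit 3088) (nat_lit 191) (.e (nat_lit 483393) (nat_lit 23) (.e (nat_lit 336293) (nat_lit 15) (.e (nat_lit 3631) (nat_lit 227) (.e (nat_lit 778323) (nat_lit 5) (.e (nat_lit 73782) (nat_lit 32) .nil)))))) (.g (nat_lit 1) (.e (nat_lit 70023) (nat_lit 0) .nil) .nil)))) (.nd (nat_lit 9) 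
(.lf (nat_lit 463296) (.g (nat_lit 451) (.e (nat_lit 3071) (nat_lit 190) (.e (nat_lit 475185) (nat_lit 29) (.e (nat_lit 557107) (nat_lit 15) .nil))) (.g (nat_lit 0) (.e (nat_lit 68438) (nat_lit 0) .nil) .nil))) 
(.lf (nat_lit 463808) (.g (nat_lit 2104) (.e (nat_lit 3092) (nat_lit 191) (.e (nat_lit 483403) (nat_lit 26) (.e (nat_lit 385094) (nat_lit 49) (.e (nat_lit 778323) (nat_lit 5) (.e (nat_lit 81664) (nat_lit 32) .nil))))) (.g (nat_lit 0) (.e (nat_lit 71735) (nat_lit 0) .nil) .nil))))))) (.nd (nat_lit 6) (.nd (nat_lit 7) (.nd (nat_lit 8) (.nd (nat_lit 9) 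
(.lf (nat_lit 462880) (.g (nat_lit 2617) (.e (nat_lit 3063) (nat_lit 190) (.e (nat_lit 475185) (nat_lit 29) (.e (nat_lit 557101) (nat_lit 13) (.e (nat_lit 172115) (nat_lit 10) (.e (nat_lit 434231) (nat_lit 23) (.e (nat_lit 532481) (nat_lit 0) (.e (nat_lit 6617) (nat_lit 357) .nil))))))) (.g (nat_lit 1) (.e (nat_lit 67618) (nat_lit 0) .nil) .nil))) 
(.lf (nat_lit 463392) (.g (nat_lit 1449) (.e (nat_lit 3082) (nat_lit 191) (.e (nat_lit 483407) (nat_lit 26) (.e (nat_lit 385094) (nat_lit 49) (.e (nat_lit 778323) (nat_lit 5) (.e (nat_lit 81664) (nat_lit 32) .nil))))) (.g (nat_lit 0) (.e (nat_lit 68890) (nat_lit 0) .nil) .nil)))) (.nd (nat_lit 9) 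
(.lf (nat_lit 463136) (.g (nat_lit 2988) (.e (nat_lit 3067) (nat_lit 190) (.e (nat_lit 475184) (nat_lit 29) (.e (nat_lit 557109) (nat_lit 15) (.e (nat_lit 188452) (nat_lit 23) (.e (nat_lit 204817) (nat_lit 17) (.e (nat_lit 7936) (nat_lit 357) .nil)))))) (.g (nat_lit 1) (.e (nat_lit 68151) (nat_lit 0) .nil) .nil))) 
(.lf (nat_lit 463648) (.g (nat_lit 2624) (.e (nat_lit 3089) (nat_lit 191) (.e (nat_lit 483387) (nat_lit 23) (.e (nat_lit 336282) (nat_lit 15) (.e (nat_lit 3632) (nat_lit 227) (.e (nat_lit 778323) (nat_lit 5) (.e (nat_lit 73781) (nat_lit 32) .nil)))))) (.g (nat_lit 1) (.e (nat_lit 70905) (nat_lit 0) .nil) .nil))))) (.nd (nat_lit 8) (.nd (nat_lit 9) 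
(.lf (nat_lit 463008) (.g (nat_lit 3418) (.e (nat_lit 3067) (nat_lit 190) (.e (nat_lit 483072) (nat_lit 26) (.e (nat_lit 532544) (nat_lit 10) (.e (nat_lit 344117) (nat_lit 21) (.e (nat_lit 516129) (nat_lit 3) (.e (nat_lit 221210) (nat_lit 22) (.e (nat_lit 196609) (nat_lit 0) .nil))))))) (.g (nat_lit 1) (.e (nat_lit 67887) (nat_lit 0) .nil) .nil))) 
(.lf (nat_lit 463520) (.g (nat_lit 1756) (.e (nat_lit 3087) (nat_lit 191) (.e (nat_lit 483408) (nat_lit 26) (.e (nat_lit 385092) (nat_lit 49) (.e (nat_lit 778323) (nat_lit 5) (.e (nat_lit 73781) (nat_lit 32) .nil))))) (.g (nat_lit 1) (.e (nat_lit 69714) (nat_lit 0) .nil) .nil)))) (.nd (nat_lit 9) 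
(.lf (nat_lit 463264) (.g (nat_lit 3045) (.e (nat_lit 3071) (nat_lit 190) (.e (nat_lit 475185) (nat_lit 29) (.e (nat_lit 557100) (nat_lit 13) (.e (nat_lit 172106) (nat_lit 10) (.e (nat_lit 434227) (nat_lit 20) (.e (nat_lit 507930) (nat_lit 10) (.e (nat_lit 5612) (nat_lit 312) .nil))))))) (.g (nat_lit 1) (.e (nat_lit 68406) (nat_lit 0) .nil) .nil))) 
(.lf (nat_lit 463776) (.g (nat_lit 2393) (.e (nat_lit 3090) (nat_lit 191) (.e (nat_lit 483403) (nat_lit 26) (.e (nat_lit 385100) (nat_lit 49) (.e (nat_lit 778322) (nat_lit 5) (.e (nat_lit 73782) (nat_lit 32) .nil))))) (.g (nat_lit 1) (.e (nat_lit 71523) (nat_lit 0) .nil) .nil)))))) (.nd (nat_lit 7) (.nd (nat_lit 8) (.nd (nat_lit 9) 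
(.lf (nat_lit 462944) (.g (nat_lit 2506) (.e (nat_lit 3065) (nat_lit 190) (.e (nat_lit 475185) (nat_lit 29) (.e (nat_lit 557107) (nat_lit 15) (.e (nat_lit 188450) (nat_lit 23) (.e (nat_lit 204821) (nat_lit 17) (.e (nat_lit 6676) (nat_lit 357) .nil)))))) (.g (nat_lit 1) (.e (nat_lit 67774) (nat_lit 0) .nil) .nil))) 
(.lf (nat_lit 463456) (.g (nat_lit 1909) (.e (nat_lit 3085) (nat_lit 191) (.e (nat_lit 483413) (nat_lit 27) (.e (nat_lit 401448) (nat_lit 10) (.e (nat_lit 434211) (nat_lit 18) .nil)))) (.g (nat_lit 0) (.e (nat_lit 69486) (nat_lit 0) .nil) .nil)))) (.nd (nat_lit 9) 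
(.lf (nat_lit 463200) (.g (nat_lit 2786) (.e (nat_lit 3069) (nat_lit 190) (.e (nat_lit 475184) (nat_lit 29) (.e (nat_lit 557109) (nat_lit 15) (.e (nat_lit 188452) (nat_lit 23) (.e (nat_lit 204821) (nat_lit 17) .nil))))) (.g (nat_lit 0) (.e (nat_lit 68292) (nat_lit 0) .nil) .nil))) 
(.lf (nat_lit 463712) (.g (nat_lit 1187) (.e (nat_lit 3090) (nat_lit 191) (.e (nat_lit 483372) (nat_lit 21) (.e (nat_lit 319504) (nat_lit 10) (.e (nat_lit 5734) (nat_lit 312) .nil)))) (.g (nat_lit 0) (.e (nat_lit 71267) (nat_lit 0) .nil) .nil))))) (.nd (nat_lit 8) (.nd (nat_lit 9) 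
(.lf (nat_lit 463072) (.g (nat_lit 2416) (.e (nat_lit 3067) (nat_lit 190) (.e (nat_lit 475179) (nat_lit 24) (.e (nat_lit 516150) (nat_lit 9) (.e (nat_lit 426436) (nat_lit 18) (.e (nat_lit 98384) (nat_lit 32) (.e (nat_lit 475169) (nat_lit 22) (.e (nat_lit 499865) (nat_lit 5) .nil))))))) (.g (nat_lit 1) (.e (nat_lit 68065) (nat_lit 0) .nil) .nil))) 
(.lf (nat_lit 463584) (.g (nat_lit 1661) (.e (nat_lit 3088) (nat_lit 191) (.e (nat_lit 483408) (nat_lit 26) (.e (nat_lit 385092) (nat_lit 49) (.e (nat_lit 778324) (nat_lit 5) (.e (nat_lit 73781) (nat_lit 32) .nil))))) (.g (nat_lit 1) (.e (nat_lit 70069) (nat_lit 0) .nil) .nil)))) (.nd (nat_lit 9) 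
(.lf (nat_lit 463328) (.g (nat_lit 2764) (.e (nat_lit 3072) (nat_lit 190) (.e (nat_lit 475185) (nat_lit 29) (.e (nat_lit 557101) (nat_lit 13) (.e (nat_lit 172115) (nat_lit 10) (.e (nat_lit 434231) (nat_lit 23) (.e (nat_lit 532481) (nat_lit 0) (.e (nat_lit 6628) (nat_lit 357) .nil))))))) (.g (nat_lit 1) (.e (nat_lit 68529) (nat_lit 0) .nil) .nil))) 
(.lf (nat_lit 463840) (.g (nat_lit 1655) (.e (nat_lit 3094) (nat_lit 191) (.e (nat_lit 483408) (nat_lit 26) (.e (nat_lit 385092) (nat_lit 49) (.e (nat_lit 778323) (nat_lit 5) (.e (nat_lit 81664) (nat_lit 32) .nil))))) (.g (nat_lit 1) (.e (nat_lit 72097) (nat_lit 0) .nil) .nil)))))))) (.nd (nat_lit 5) (.nd (nat_lit 6) (.nd (nat_lit 7) (.nd (nat_lit 8) (.nd (nat_lit 9) 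
(.lf (nat_lit 462864) (.g (nat_lit 2340) (.e (nat_lit 3063) (nat_lit 190) (.e (nat_lit 475185) (nat_lit 29) (.e (nat_lit 557100) (nat_lit 13) (.e (nat_lit 172113) (nat_lit 10) .nil)))) (.g (nat_lit 0) (.e (nat_lit 67602) (nat_lit 0) .nil) .nil))) 
(.lf (nat_lit 463376) (.g (nat_lit 1593) (.e (nat_lit 3078) (nat_lit 191) (.e (nat_lit 483413) (nat_lit 27) (.e (nat_lit 401434) (nat_lit 9) (.e (nat_lit 433920) (nat_lit 25) .nil)))) (.g (nat_lit 0) (.e (nat_lit 68774) (nat_lit 0) .nil) .nil)))) (.nd (nat_lit 9) 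
(.lf (nat_lit 463120) (.g (nat_lit 4678) (.e (nat_lit 3067) (nat_lit 190) (.e (nat_lit 475183) (nat_lit 29) (.e (nat_lit 557109) (nat_lit 15) (.e (nat_lit 188452) (nat_lit 23) (.e (nat_lit 204817) (nat_lit 17) .nil))))) (.g (nat_lit 0) (.e (nat_lit 68135) (nat_lit 0) .nil) .nil))) 
(.lf (nat_lit 463632) (.g (nat_lit 1187) (.e (nat_lit 3089) (nat_lit 191) (.e (nat_lit 483383) (nat_lit 23) (.e (nat_lit 336266) (nat_lit 15) (.e (nat_lit 3631) (nat_lit 227) .nil)))) (.g (nat_lit 0) (.e (nat_lit 70886) (nat_lit 0) .nil) .nil))))) (.nd (nat_lit 8) (.nd (nat_lit 9) 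
(.lf (nat_lit 462992) (.g (nat_lit 2772) (.e (nat_lit 3066) (nat_lit 190) (.e (nat_lit 475185) (nat_lit 29) (.e (nat_lit 557107) (nat_lit 15) (.e (nat_lit 188447) (nat_lit 22) (.e (nat_lit 196661) (nat_lit 12) (.e (nat_lit 57750) (nat_lit 201) .nil)))))) (.g (nat_lit 1) (.e (nat_lit 67856) (nat_lit 0) .nil) .nil))) 
(.lf (nat_lit 463504) (.g (nat_lit 1658) (.e (nat_lit 3087) (nat_lit 191) (.e (nat_lit 483405) (nat_lit 26) (.e (nat_lit 385091) (nat_lit 49) (.e (nat_lit 778323) (nat_lit 5) (.e (nat_lit 73782) (nat_lit 32) .nil))))) (.g (nat_lit 1) (.e (nat_lit 69696) (nat_lit 0) .nil) .nil)))) (.nd (nat_lit 9) 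
(.lf (nat_lit 463248) (.g (nat_lit 1639) (.e (nat_lit 3071) (nat_lit 190) (.e (nat_lit 475179) (nat_lit 24) (.e (nat_lit 516174) (nat_lit 14) (.e (nat_lit 466954) (nat_lit 11) .nil)))) (.g (nat_lit 0) (.e (nat_lit 68384) (nat_lit 0) .nil) .nil))) 
(.lf (nat_lit 463760) (.g (nat_lit 3282) (.e (nat_lit 3090) (nat_lit 191) (.e (nat_lit 483386) (nat_lit 23) (.e (nat_lit 336295) (nat_lit 15) (.e (nat_lit 3632) (nat_lit 227) (.e (nat_lit 778323) (nat_lit 5) (.e (nat_lit 73782) (nat_lit 32) .nil)))))) (.g (nat_lit 1) (.e (nat_lit 71495) (nat_lit 0) .nil) .nil)))))) (.nd (nat_lit 7) (.nd (nat_lit 8) (.nd (nat_lit 9) 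
(.lf (nat_lit 462928) (.g (nat_lit 2600) (.e (nat_lit 3065) (nat_lit 190) (.e (nat_lit 475184) (nat_lit 29) (.e (nat_lit 557109) (nat_lit 15) (.e (nat_lit 188452) (nat_lit 23) (.e (nat_lit 204821) (nat_lit 17) .nil))))) (.g (nat_lit 0) (.e (nat_lit 67758) (nat_lit 0) .nil) .nil))) 
(.lf (nat_lit 463440) (.g (nat_lit 2902) (.e (nat_lit 3085) (nat_lit 191) (.e (nat_lit 483413) (nat_lit 27) (.e (nat_lit 401447) (nat_lit 10) (.e (nat_lit 434206) (nat_lit 18) .nil)))) (.g (nat_lit 0) (.e (nat_lit 69412) (nat_lit 0) .nil) .nil)))) (.nd (nat_lit 9) 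
(.lf (nat_lit 463184) (.g (nat_lit 2706) (.e (nat_lit 3067) (nat_lit 190) (.e (nat_lit 475185) (nat_lit 29) (.e (nat_lit 557109) (nat_lit 15) (.e (nat_lit 188452) (nat_lit 23) (.e (nat_lit 204816) (nat_lit 17) .nil))))) (.g (nat_lit 0) (.e (nat_lit 68203) (nat_lit 0) .nil) .nil))) 
(.lf (nat_lit 463696) (.g (nat_lit 1401) (.e (nat_lit 3090) (nat_lit 191) (.e (nat_lit 483354) (nat_lit 17) (.e (nat_lit 6206) (nat_lit 333) (.e (nat_lit 57862) (nat_lit 256) (.e (nat_lit 300) (nat_lit 22) (.e (nat_lit 344069) (nat_lit 0) .nil)))))) (.g (nat_lit 1) (.e (nat_lit 71138) (nat_lit 0) .nil) .nil))))) (.nd (nat_lit 8) (.nd (nat_lit 9) 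
(.lf (nat_lit 463056) (.g (nat_lit 2611) (.e (nat_lit 3067) (nat_lit 190) (.e (nat_lit 475179) (nat_lit 24) (.e (nat_lit 516117) (nat_lit 1) (.e (nat_lit 164332) (nat_lit 230) (.e (nat_lit 163941) (nat_lit 19) (.e (nat_lit 483333) (nat_lit 0) (.e (nat_lit 7337) (nat_lit 388) .nil))))))) (.g (nat_lit 1) (.e (nat_lit 67994) (nat_lit 0) .nil) .nil))) 
(.lf (nat_lit 463568) (.g (nat_lit 2405) (.e (nat_lit 3088) (nat_lit 191) (.e (nat_lit 483403) (nat_lit 26) (.e (nat_lit 385094) (nat_lit 49) (.e (nat_lit 778323) (nat_lit 5) (.e (nat_lit 73781) (nat_lit 32) .nil))))) (.g (nat_lit 1) (.e (nat_lit 70045) (nat_lit 0) .nil) .nil)))) (.nd (nat_lit 9) 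
(.lf (nat_lit 463312) (.g (nat_lit 3210) (.e (nat_lit 3071) (nat_lit 190) (.e (nat_lit 475185) (nat_lit 29) (.e (nat_lit 557109) (nat_lit 15) (.e (nat_lit 188450) (nat_lit 23) (.e (nat_lit 204821) (nat_lit 17) .nil))))) (.g (nat_lit 0) (.e (nat_lit 68454) (nat_lit 0) .nil) .nil))) 
(.lf (nat_lit 463824) (.g (nat_lit 1655) (.e (nat_lit 3094) (nat_lit 191) (.e (nat_lit 483402) (nat_lit 26) (.e (nat_lit 385093) (nat_lit 49) (.e (nat_lit 778323) (nat_lit 5) (.e (nat_lit 81664) (nat_lit 32) .nil))))) (.g (nat_lit 0) (.e (nat_lit 72073) (nat_lit 0) .nil) .nil))))))) (.nd (nat_lit 6) (.nd (nat_lit 7) (.nd (nat_lit 8) (.nd (nat_lit 9) 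
(.lf (nat_lit 462896) (.g (nat_lit 3564) (.e (nat_lit 3064) (nat_lit 190) (.e (nat_lit 475184) (nat_lit 29) (.e (nat_lit 557101) (nat_lit 13) (.e (nat_lit 172115) (nat_lit 10) (.e (nat_lit 434231) (nat_lit 23) (.e (nat_lit 532481) (nat_lit 0) (.e (nat_lit 6693) (nat_lit 357) .nil))))))) (.g (nat_lit 1) (.e (nat_lit 67688) (nat_lit 0) .nil) .nil))) 
(.lf (nat_lit 463408) (.g (nat_lit 2389) (.e (nat_lit 3085) (nat_lit 191) (.e (nat_lit 483337) (nat_lit 9) (.e (nat_lit 426200) (nat_lit 9) (.e (nat_lit 425986) (nat_lit 0) (.e (nat_lit 3225) (nat_lit 196) (.e (nat_lit 524291) (nat_lit 0) (.e (nat_lit 3459) (nat_lit 216) (.e (nat_lit 688139) (nat_lit 5) .nil)))))))) (.g (nat_lit 1) (.e (nat_lit 68977) (nat_lit 0) .nil) .nil)))) (.nd (nat_lit 9) 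
(.lf (nat_lit 463152) (.g (nat_lit 4675) (.e (nat_lit 3067) (nat_lit 190) (.e (nat_lit 475185) (nat_lit 29) (.e (nat_lit 557100) (nat_lit 13) (.e (nat_lit 172106) (nat_lit 10) (.e (nat_lit 434231) (nat_lit 23) (.e (nat_lit 532483) (nat_lit 0) (.e (nat_lit 6684) (nat_lit 357) .nil))))))) (.g (nat_lit 1) (.e (nat_lit 68170) (nat_lit 0) .nil) .nil))) 
(.lf (nat_lit 463664) (.g (nat_lit 1847) (.e (nat_lit 3089) (nat_lit 191) (.e (nat_lit 483403) (nat_lit 26) (.e (nat_lit 385092) (nat_lit 49) (.e (nat_lit 778323) (nat_lit 5) (.e (nat_lit 73782) (nat_lit 32) .nil))))) (.g (nat_lit 1) (.e (nat_lit 70928) (nat_lit 0) .nil) .nil))))) (.nd (nat_lit 8) (.nd (nat_lit 9) 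
(.lf (nat_lit 463024) (.g (nat_lit 4275) (.e (nat_lit 3067) (nat_lit 190) (.e (nat_lit 483072) (nat_lit 26) (.e (nat_lit 532544) (nat_lit 10) (.e (nat_lit 344133) (nat_lit 26) (.e (nat_lit 557098) (nat_lit 13) (.e (nat_lit 172045) (nat_lit 0) (.e (nat_lit 3307) (nat_lit 202) (.e (nat_lit 573446) (nat_lit 0) .nil)))))))) (.g (nat_lit 1) (.e (nat_lit 67903) (nat_lit 0) .nil) .nil))) 
(.lf (nat_lit 463536) (.g (nat_lit 1176) (.e (nat_lit 3088) (nat_lit 191) (.e (nat_lit 483383) (nat_lit 23) (.e (nat_lit 336263) (nat_lit 15) .nil))) (.g (nat_lit 0) (.e (nat_lit 70006) (nat_lit 0) .nil) .nil)))) (.nd (nat_lit 9) 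
(.lf (nat_lit 463280) (.g (nat_lit 3117) (.e (nat_lit 3071) (nat_lit 190) (.e (nat_lit 475185) (nat_lit 29) (.e (nat_lit 557100) (nat_lit 13) (.e (nat_lit 172113) (nat_lit 10) (.e (nat_lit 434245) (nat_lit 28) (.e (nat_lit 573474) (nat_lit 12) (.e (nat_lit 57567) (nat_lit 52) (.e (nat_lit 753674) (nat_lit 5) .nil)))))))) (.g (nat_lit 1) (.e (nat_lit 68422) (nat_lit 0) .nil) .nil))) 
(.lf (nat_lit 463792) (.g (nat_lit 3230) (.e (nat_lit 3090) (nat_lit 191) (.e (nat_lit 483410) (nat_lit 27) (.e (nat_lit 401437) (nat_lit 9) (.e (nat_lit 426533) (nat_lit 28) (.e (nat_lit 344068) (nat_lit 0) .nil))))) (.g (nat_lit 1) (.e (nat_lit 71555) (nat_lit 0) .nil) .nil)))))) (.nd (nat_lit 7) (.nd (nat_lit 8) (.nd (nat_lit 9) 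
(.lf (nat_lit 462960) (.g (nat_lit 2292) (.e (nat_lit 3066) (nat_lit 190) (.e (nat_lit 475183) (nat_lit 29) (.e (nat_lit 557101) (nat_lit 13) (.e (nat_lit 172097) (nat_lit 9) (.e (nat_lit 426140) (nat_lit 3) (.e (nat_lit 204821) (nat_lit 17) (.e (nat_lit 6676) (nat_lit 357) .nil))))))) (.g (nat_lit 1) (.e (nat_lit 67822) (nat_lit 0) .nil) .nil))) 
(.lf (nat_lit 463472) (.g (nat_lit 659) (.e (nat_lit 3087) (nat_lit 191) (.e (nat_lit 483384) (nat_lit 23) (.e (nat_lit 336332) (nat_lit 19) (.e (nat_lit 220928) (nat_lit 5) .nil)))) (.g (nat_lit 0) (.e (nat_lit 69660) (nat_lit 0) .nil) .nil)))) (.nd (nat_lit 9) 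
(.lf (nat_lit 463216) (.g (nat_lit 2583) (.e (nat_lit 3070) (nat_lit 190) (.e (nat_lit 475185) (nat_lit 29) (.e (nat_lit 557101) (nat_lit 13) (.e (nat_lit 172115) (nat_lit 10) (.e (nat_lit 434231) (nat_lit 23) (.e (nat_lit 532481) (nat_lit 0) (.e (nat_lit 6691) (nat_lit 357) .nil))))))) (.g (nat_lit 1) (.e (nat_lit 68323) (nat_lit 0) .nil) .nil))) 
(.lf (nat_lit 463728) (.g (nat_lit 2565) (.e (nat_lit 3090) (nat_lit 191) (.e (nat_lit 483380) (nat_lit 23) (.e (nat_lit 336262) (nat_lit 15) (.e (nat_lit 3632) (nat_lit 227) (.e (nat_lit 778323) (nat_lit 5) (.e (nat_lit 73781) (nat_lit 32) .nil)))))) (.g (nat_lit 1) (.e (nat_lit 71448) (nat_lit 0) .nil) .nil))))) (.nd (nat_lit 8) (.nd (nat_lit 9) 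
(.lf (nat_lit 463088) (.g (nat_lit 3730) (.e (nat_lit 3067) (nat_lit 190) (.e (nat_lit 475183) (nat_lit 29) (.e (nat_lit 557097) (nat_lit 13) (.e (nat_lit 172097) (nat_lit 9) (.e (nat_lit 426140) (nat_lit 3) (.e (nat_lit 204821) (nat_lit 17) (.e (nat_lit 6680) (nat_lit 357) .nil))))))) (.g (nat_lit 1) (.e (nat_lit 68103) (nat_lit 0) .nil) .nil))) 
(.lf (nat_lit 463600) (.g (nat_lit 2742) (.e (nat_lit 3088) (nat_lit 191) (.e (nat_lit 483413) (nat_lit 27) (.e (nat_lit 401434) (nat_lit 9) (.e (nat_lit 426533) (nat_lit 28) (.e (nat_lit 344069) (nat_lit 0) .nil))))) (.g (nat_lit 1) (.e (nat_lit 70163) (nat_lit 0) .nil) .nil)))) (.nd (nat_lit 9) 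
(.lf (nat_lit 463344) (.g (nat_lit 3744) (.e (nat_lit 3074) (nat_lit 190) (.e (nat_lit 475185) (nat_lit 29) (.e (nat_lit 557101) (nat_lit 13) (.e (nat_lit 172115) (nat_lit 10) (.e (nat_lit 434231) (nat_lit 23) (.e (nat_lit 532490) (nat_lit 0) (.e (nat_lit 7936) (nat_lit 357) .nil))))))) (.g (nat_lit 1) (.e (nat_lit 68556) (nat_lit 0) .nil) .nil))) 
(.lf (nat_lit 463856) (.g (nat_lit 1928) (.e (nat_lit 3095) (nat_lit 192) (.e (nat_lit 491569) (nat_lit 13) (.e (nat_lit 393301) (nat_lit 27) (.e (nat_lit 491558) (nat_lit 10) .nil)))) (.g (nat_lit 0) (.e (nat_lit 72409) (nat_lit 0) .nil) .nil))))))))) (.nd (nat_lit 4) (.nd (nat_lit 5) (.nd (nat_lit 6) (.nd (nat_lit 7) (.nd (nat_lit 8) (.nd (nat_lit 9) 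
(.lf (nat_lit 462856) (.g (nat_lit 2905) (.e (nat_lit 3063) (nat_lit 190) (.e (nat_lit 475177) (nat_lit 24) (.e (nat_lit 516150) (nat_lit 9) (.e (nat_lit 426131) (nat_lit 3) (.e (nat_lit 204838) (nat_lit 20) .nil))))) (.g (nat_lit 0) (.e (nat_lit 67560) (nat_lit 0) .nil) .nil))) 
(.lf (nat_lit 463368) (.g (nat_lit 1741) (.e (nat_lit 3077) (nat_lit 191) (.e (nat_lit 483407) (nat_lit 26) (.e (nat_lit 385093) (nat_lit 49) (.e (nat_lit 778324) (nat_lit 5) (.e (nat_lit 81664) (nat_lit 32) .nil))))) (.g (nat_lit 1) (.e (nat_lit 68667) (nat_lit 0) .nil) .nil)))) (.nd (nat_lit 9) 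
(.lf (nat_lit 463112) (.g (nat_lit 3202) (.e (nat_lit 3067) (nat_lit 190) (.e (nat_lit 475183) (nat_lit 29) (.e (nat_lit 557108) (nat_lit 15) (.e (nat_lit 188452) (nat_lit 23) (.e (nat_lit 204819) (nat_lit 17) (.e (nat_lit 6666) (nat_lit 357) .nil)))))) (.g (nat_lit 1) (.e (nat_lit 68127) (nat_lit 0) .nil) .nil))) 
(.lf (nat_lit 463624) (.g (nat_lit 871) (.e (nat_lit 3089) (nat_lit 191) (.e (nat_lit 483383) (nat_lit 23) (.e (nat_lit 336262) (nat_lit 15) .nil))) (.g (nat_lit 0) (.e (nat_lit 70877) (nat_lit 0) .nil) .nil))))) (.nd (nat_lit 8) (.nd (nat_lit 9) 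
(.lf (nat_lit 462984) (.g (nat_lit 3217) (.e (nat_lit 3066) (nat_lit 190) (.e (nat_lit 475185) (nat_lit 29) (.e (nat_lit 557100) (nat_lit 13) (.e (nat_lit 172106) (nat_lit 10) (.e (nat_lit 434231) (nat_lit 23) (.e (nat_lit 532483) (nat_lit 0) (.e (nat_lit 6684) (nat_lit 357) .nil))))))) (.g (nat_lit 1) (.e (nat_lit 67848) (nat_lit 0) .nil) .nil))) 
(.lf (nat_lit 463496) (.g (nat_lit 2011) (.e (nat_lit 3087) (nat_lit 191) (.e (nat_lit 483402) (nat_lit 26) (.e (nat_lit 385094) (nat_lit 49) (.e (nat_lit 778323) (nat_lit 5) (.e (nat_lit 73782) (nat_lit 32) .nil))))) (.g (nat_lit 1) (.e (nat_lit 69685) (nat_lit 0) .nil) .nil)))) (.nd (nat_lit 9) 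
(.lf (nat_lit 463240) (.g (nat_lit 2501) (.e (nat_lit 3071) (nat_lit 190) (.e (nat_lit 475179) (nat_lit 24) (.e (nat_lit 516146) (nat_lit 9) (.e (nat_lit 426437) (nat_lit 18) .nil)))) (.g (nat_lit 0) (.e (nat_lit 68363) (nat_lit 0) .nil) .nil))) 
(.lf (nat_lit 463752) (.g (nat_lit 1901) (.e (nat_lit 3090) (nat_lit 191) (.e (nat_lit 483386) (nat_lit 23) (.e (nat_lit 336282) (nat_lit 15) (.e (nat_lit 3631) (nat_lit 227) (.e (nat_lit 778323) (nat_lit 5) (.e (nat_lit 73781) (nat_lit 32) .nil)))))) (.g (nat_lit 1) (.e (nat_lit 71487) (nat_lit 0) .nil) .nil)))))) (.nd (nat_lit 7) (.nd (nat_lit 8) (.nd (nat_lit 9) 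
(.lf (nat_lit 462920) (.g (nat_lit 2689) (.e (nat_lit 3064) (nat_lit 190) (.e (nat_lit 475199) (nat_lit 40) (.e (nat_lit 704589) (nat_lit 3) (.e (nat_lit 163978) (nat_lit 30) (.e (nat_lit 573485) (nat_lit 13) .nil))))) (.g (nat_lit 0) (.e (nat_lit 67720) (nat_lit 0) .nil) .nil))) 
(.lf (nat_lit 463432) (.g (nat_lit 4024) (.e (nat_lit 3085) (nat_lit 191) (.e (nat_lit 483413) (nat_lit 27) (.e (nat_lit 401440) (nat_lit 9) (.e (nat_lit 426470) (nat_lit 25) (.e (nat_lit 319490) (nat_lit 0) (.e (nat_lit 5664) (nat_lit 312) .nil)))))) (.g (nat_lit 1) (.e (nat_lit 69341) (nat_lit 0) .nil) .nil)))) (.nd (nat_lit 9) 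
(.lf (nat_lit 463176) (.g (nat_lit 2705) (.e (nat_lit 3067) (nat_lit 190) (.e (nat_lit 475185) (nat_lit 29) (.e (nat_lit 557109) (nat_lit 15) (.e (nat_lit 188450) (nat_lit 23) (.e (nat_lit 204814) (nat_lit 17) (.e (nat_lit 6681) (nat_lit 357) .nil)))))) (.g (nat_lit 1) (.e (nat_lit 68195) (nat_lit 0) .nil) .nil))) 
(.lf (nat_lit 463688) (.g (nat_lit 2236) (.e (nat_lit 3090) (nat_lit 191) (.e (nat_lit 483354) (nat_lit 17) (.e (nat_lit 6114) (nat_lit 332) (.e (nat_lit 1374) (nat_lit 104) (.e (nat_lit 303154) (nat_lit 28) (.e (nat_lit 344069) (nat_lit 0) .nil)))))) (.g (nat_lit 1) (.e (nat_lit 71130) (nat_lit 0) .nil) .nil))))) (.nd (nat_lit 8) (.nd (nat_lit 9) 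
(.lf (nat_lit 463048) (.g (nat_lit 730) (.e (nat_lit 3067) (nat_lit 190) (.e (nat_lit 475179) (nat_lit 24) (.e (nat_lit 516117) (nat_lit 1) .nil))) (.g (nat_lit 0) (.e (nat_lit 67983) (nat_lit 0) .nil) .nil))) 
(.lf (nat_lit 463560) (.g (nat_lit 2709) (.e (nat_lit 3088) (nat_lit 191) (.e (nat_lit 483395) (nat_lit 24) (.e (nat_lit 344169) (nat_lit 40) (.e (nat_lit 671763) (nat_lit 5) (.e (nat_lit 73781) (nat_lit 32) .nil))))) (.g (nat_lit 1) (.e (nat_lit 70033) (nat_lit 0) .nil) .nil)))) (.nd (nat_lit 9) 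
(.lf (nat_lit 463304) (.g (nat_lit 3645) (.e (nat_lit 3071) (nat_lit 190) (.e (nat_lit 475185) (nat_lit 29) (.e (nat_lit 557107) (nat_lit 15) (.e (nat_lit 188452) (nat_lit 23) (.e (nat_lit 204816) (nat_lit 17) (.e (nat_lit 6617) (nat_lit 357) .nil)))))) (.g (nat_lit 1) (.e (nat_lit 68446) (nat_lit 0) .nil) .nil))) 
(.lf (nat_lit 463816) (.g (nat_lit 650) (.e (nat_lit 3094) (nat_lit 191) (.e (nat_lit 483346) (nat_lit 17) (.e (nat_lit 974) (nat_lit 81) .nil))) (.g (nat_lit 0) (.e (nat_lit 72012) (nat_lit 0) .nil) .nil))))))) (.nd (nat_lit 6) (.nd (nat_lit 7) (.nd (nat_lit 8) (.nd (nat_lit 9) 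
(.lf (nat_lit 462888) (.g (nat_lit 1380) (.e (nat_lit 3063) (nat_lit 190) (.e (nat_lit 475199) (nat_lit 40) (.e (nat_lit 704589) (nat_lit 3) (.e (nat_lit 163975) (nat_lit 30) .nil)))) (.g (nat_lit 0) (.e (nat_lit 67634) (nat_lit 0) .nil) .nil))) 
(.lf (nat_lit 463400) (.g (nat_lit 809) (.e (nat_lit 3083) (nat_lit 191) (.e (nat_lit 483406) (nat_lit 26) (.e (nat_lit 385094) (nat_lit 49) .nil))) (.g (nat_lit 0) (.e (nat_lit 68930) (nat_lit 0) .nil) .nil)))) (.nd (nat_lit 9) 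
(.lf (nat_lit 463144) (.g (nat_lit 5004) (.e (nat_lit 3067) (nat_lit 190) (.e (nat_lit 475185) (nat_lit 29) (.e (nat_lit 557098) (nat_lit 13) (.e (nat_lit 172097) (nat_lit 9) (.e (nat_lit 426125) (nat_lit 2) (.e (nat_lit 196661) (nat_lit 12) (.e (nat_lit 57751) (nat_lit 201) .nil))))))) (.g (nat_lit 1) (.e (nat_lit 68162) (nat_lit 0) .nil) .nil))) 
(.lf (nat_lit 463656) (.g (nat_lit 1238) (.e (nat_lit 3089) (nat_lit 191) (.e (nat_lit 483396) (nat_lit 24) (.e (nat_lit 344097) (nat_lit 18) (.e (nat_lit 5906) (nat_lit 320) .nil)))) (.g (nat_lit 0) (.e (nat_lit 70915) (nat_lit 0) .nil) .nil))))) (.nd (nat_lit 8) (.nd (nat_lit 9) 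
(.lf (nat_lit 463016) (.g (nat_lit 2105) (.e (nat_lit 3067) (nat_lit 190) (.e (nat_lit 483072) (nat_lit 26) (.e (nat_lit 532544) (nat_lit 10) (.e (nat_lit 344120) (nat_lit 21) (.e (nat_lit 516131) (nat_lit 3) (.e (nat_lit 221212) (nat_lit 22) (.e (nat_lit 196609) (nat_lit 0) .nil))))))) (.g (nat_lit 1) (.e (nat_lit 67895) (nat_lit 0) .nil) .nil))) 
(.lf (nat_lit 463528) (.g (nat_lit 2965) (.e (nat_lit 3088) (nat_lit 191) (.e (nat_lit 483372) (nat_lit 21) (.e (nat_lit 319539) (nat_lit 19) (.e (nat_lit 311357) (nat_lit 28) (.e (nat_lit 344069) (nat_lit 0) .nil))))) (.g (nat_lit 1) (.e (nat_lit 69996) (nat_lit 0) .nil) .nil)))) (.nd (nat_lit 9) 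
(.lf (nat_lit 463272) (.g (nat_lit 1591) (.e (nat_lit 3071) (nat_lit 190) (.e (nat_lit 475185) (nat_lit 29) (.e (nat_lit 557100) (nat_lit 13) (.e (nat_lit 172113) (nat_lit 10) .nil)))) (.g (nat_lit 0) (.e (nat_lit 68414) (nat_lit 0) .nil) .nil))) 
(.lf (nat_lit 463784) (.g (nat_lit 2561) (.e (nat_lit 3090) (nat_lit 191) (.e (nat_lit 483406) (nat_lit 26) (.e (nat_lit 385093) (nat_lit 49) (.e (nat_lit 778324) (nat_lit 5) (.e (nat_lit 73781) (nat_lit 32) .nil))))) (.g (nat_lit 1) (.e (nat_lit 71539) (nat_lit 0) .nil) .nil)))))) (.nd (nat_lit 7) (.nd (nat_lit 8) (.nd (nat_lit 9) 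
(.lf (nat_lit 462952) (.g (nat_lit 2255) (.e (nat_lit 3065) (nat_lit 190) (.e (nat_lit 475214) (nat_lit 42) (.e (nat_lit 720956) (nat_lit 25) (.e (nat_lit 114712) (nat_lit 21) (.e (nat_lit 57680) (nat_lit 155) (.e (nat_lit 122913) (nat_lit 13) (.e (nat_lit 344068) (nat_lit 0) .nil))))))) (.g (nat_lit 1) (.e (nat_lit 67809) (nat_lit 0) .nil) .nil))) 
(.lf (nat_lit 463464) (.g (nat_lit 1850) (.e (nat_lit 3087) (nat_lit 191) (.e (nat_lit 483383) (nat_lit 23) (.e (nat_lit 336000) (nat_lit 1) (.e (nat_lit 57873) (nat_lit 264) (.e (nat_lit 1209) (nat_lit 89) .nil))))) (.g (nat_lit 0) (.e (nat_lit 69651) (nat_lit 0) .nil) .nil)))) (.nd (nat_lit 9) 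
(.lf (nat_lit 463208) (.g (nat_lit 1676) (.e (nat_lit 3070) (nat_lit 190) (.e (nat_lit 475185) (nat_lit 29) (.e (nat_lit 557098) (nat_lit 13) (.e (nat_lit 172115) (nat_lit 10) .nil)))) (.g (nat_lit 0) (.e (nat_lit 68315) (nat_lit 0) .nil) .nil))) 
(.lf (nat_lit 463720) (.g (nat_lit 2427) (.e (nat_lit 3090) (nat_lit 191) (.e (nat_lit 483378) (nat_lit 23) (.e (nat_lit 336282) (nat_lit 15) (.e (nat_lit 3632) (nat_lit 227) (.e (nat_lit 778323) (nat_lit 5) (.e (nat_lit 73782) (nat_lit 32) .nil)))))) (.g (nat_lit 1) (.e (nat_lit 71440) (nat_lit 0) .nil) .nil))))) (.nd (nat_lit 8) (.nd (nat_lit 9) 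
(.lf (nat_lit 463080) (.g (nat_lit 3041) (.e (nat_lit 3067) (nat_lit 190) (.e (nat_lit 475179) (nat_lit 24) (.e (nat_lit 516176) (nat_lit 14) (.e (nat_lit 466954) (nat_lit 11) (.e (nat_lit 335986) (nat_lit 1) (.e (nat_lit 57655) (nat_lit 152) (.e (nat_lit 2485) (nat_lit 157) .nil))))))) (.g (nat_lit 1) (.e (nat_lit 68090) (nat_lit 0) .nil) .nil))) 
(.lf (nat_lit 463592) (.g (nat_lit 985) (.e (nat_lit 3088) (nat_lit 191) (.e (nat_lit 483411) (nat_lit 27) (.e (nat_lit 401436) (nat_lit 9) .nil))) (.g (nat_lit 0) (.e (nat_lit 70094) (nat_lit 0) .nil) .nil)))) (.nd (nat_lit 9) 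
(.lf (nat_lit 463336) (.g (nat_lit 3029) (.e (nat_lit 3073) (nat_lit 190) (.e (nat_lit 475185) (nat_lit 29) (.e (nat_lit 557109) (nat_lit 15) (.e (nat_lit 188452) (nat_lit 23) (.e (nat_lit 204817) (nat_lit 17) .nil))))) (.g (nat_lit 0) (.e (nat_lit 68542) (nat_lit 0) .nil) .nil))) 
(.lf (nat_lit 463848) (.g (nat_lit 1513) (.e (nat_lit 3095) (nat_lit 192) (.e (nat_lit 491566) (nat_lit 12) (.e (nat_lit 385073) (nat_lit 31) (.e (nat_lit 573493) (nat_lit 15) .nil)))) (.g (nat_lit 0) (.e (nat_lit 72397) (nat_lit 0) .nil) .nil)))))))) (.nd (nat_lit 5) (.nd (nat_lit 6) (.nd (nat_lit 7) (.nd (nat_lit 8) (.nd (nat_lit 9) 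
(.lf (nat_lit 462872) (.g (nat_lit 2708) (.e (nat_lit 3063) (nat_lit 190) (.e (nat_lit 475185) (nat_lit 29) (.e (nat_lit 557100) (nat_lit 13) (.e (nat_lit 172113) (nat_lit 10) (.e (nat_lit 434248) (nat_lit 28) .nil))))) (.g (nat_lit 0) (.e (nat_lit 67610) (nat_lit 0) .nil) .nil))) 
(.lf (nat_lit 463384) (.g (nat_lit 682) (.e (nat_lit 3080) (nat_lit 191) (.e (nat_lit 483403) (nat_lit 26) (.e (nat_lit 385093) (nat_lit 49) .nil))) (.g (nat_lit 0) (.e (nat_lit 68857) (nat_lit 0) .nil) .nil)))) (.nd (nat_lit 9) 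
(.lf (nat_lit 463128) (.g (nat_lit 1756) (.e (nat_lit 3067) (nat_lit 190) (.e (nat_lit 475184) (nat_lit 29) (.e (nat_lit 557107) (nat_lit 15) (.e (nat_lit 188450) (nat_lit 23) (.e (nat_lit 212736) (nat_lit 17) (.e (nat_lit 6666) (nat_lit 357) .nil)))))) (.g (nat_lit 1) (.e (nat_lit 68143) (nat_lit 0) .nil) .nil))) 
(.lf (nat_lit 463640) (.g (nat_lit 2006) (.e (nat_lit 3089) (nat_lit 191) (.e (nat_lit 483383) (nat_lit 23) (.e (nat_lit 336286) (nat_lit 15) (.e (nat_lit 3631) (nat_lit 227) (.e (nat_lit 778323) (nat_lit 5) (.e (nat_lit 73782) (nat_lit 32) .nil)))))) (.g (nat_lit 1) (.e (nat_lit 70897) (nat_lit 0) .nil) .nil))))) (.nd (nat_lit 8) (.nd (nat_lit 9) 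
(.lf (nat_lit 463000) (.g (nat_lit 2891) (.e (nat_lit 3066) (nat_lit 190) (.e (nat_lit 475185) (nat_lit 29) (.e (nat_lit 557109) (nat_lit 15) (.e (nat_lit 188450) (nat_lit 23) (.e (nat_lit 204821) (nat_lit 17) (.e (nat_lit 6680) (nat_lit 357) .nil)))))) (.g (nat_lit 1) (.e (nat_lit 67864) (nat_lit 0) .nil) .nil))) 
(.lf (nat_lit 463512) (.g (nat_lit 1833) (.e (nat_lit 3087) (nat_lit 191) (.e (nat_lit 483406) (nat_lit 26) (.e (nat_lit 385092) (nat_lit 49) (.e (nat_lit 778323) (nat_lit 5) (.e (nat_lit 73782) (nat_lit 32) .nil))))) (.g (nat_lit 1) (.e (nat_lit 69705) (nat_lit 0) .nil) .nil)))) (.nd (nat_lit 9) 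
(.lf (nat_lit 463256) (.g (nat_lit 581) (.e (nat_lit 3071) (nat_lit 190) (.e (nat_lit 475185) (nat_lit 29) (.e (nat_lit 557098) (nat_lit 13) .nil))) (.g (nat_lit 0) (.e (nat_lit 68398) (nat_lit 0) .nil) .nil))) 
(.lf (nat_lit 463768) (.g (nat_lit 1788) (.e (nat_lit 3090) (nat_lit 191) (.e (nat_lit 483403) (nat_lit 26) (.e (nat_lit 385090) (nat_lit 49) (.e (nat_lit 778323) (nat_lit 5) (.e (nat_lit 73782) (nat_lit 32) .nil))))) (.g (nat_lit 1) (.e (nat_lit 71515) (nat_lit 0) .nil) .nil)))))) (.nd (nat_lit 7) (.nd (nat_lit 8) (.nd (nat_lit 9) 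
(.lf (nat_lit 462936) (.g (nat_lit 2239) (.e (nat_lit 3065) (nat_lit 190) (.e (nat_lit 475185) (nat_lit 29) (.e (nat_lit 557101) (nat_lit 13) (.e (nat_lit 172097) (nat_lit 9) (.e (nat_lit 426140) (nat_lit 3) (.e (nat_lit 204821) (nat_lit 17) (.e (nat_lit 7936) (nat_lit 357) .nil))))))) (.g (nat_lit 1) (.e (nat_lit 67766) (nat_lit 0) .nil) .nil))) 
(.lf (nat_lit 463448) (.g (nat_lit 2076) (.e (nat_lit 3085) (nat_lit 191) (.e (nat_lit 483413) (nat_lit 27) (.e (nat_lit 401448) (nat_lit 10) (.e (nat_lit 434201) (nat_lit 18) .nil)))) (.g (nat_lit 0) (.e (nat_lit 69434) (nat_lit 0) .nil) .nil)))) (.nd (nat_lit 9) 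
(.lf (nat_lit 463192) (.g (nat_lit 3278) (.e (nat_lit 3068) (nat_lit 190) (.e (nat_lit 475185) (nat_lit 29) (.e (nat_lit 557101) (nat_lit 13) (.e (nat_lit 172097) (nat_lit 9) (.e (nat_lit 426125) (nat_lit 2) (.e (nat_lit 196661) (nat_lit 12) (.e (nat_lit 65280) (nat_lit 201) .nil))))))) (.g (nat_lit 1) (.e (nat_lit 68274) (nat_lit 0) .nil) .nil))) 
(.lf (nat_lit 463704) (.g (nat_lit 3181) (.e (nat_lit 3090) (nat_lit 191) (.e (nat_lit 483364) (nat_lit 18) (.e (nat_lit 57691) (nat_lit 156) (.e (nat_lit 163916) (nat_lit 13) (.e (nat_lit 434247) (nat_lit 28) (.e (nat_lit 573477) (nat_lit 12) (.e (nat_lit 57750) (nat_lit 201) .nil))))))) (.g (nat_lit 1) (.e (nat_lit 71177) (nat_lit 0) .nil) .nil))))) (.nd (nat_lit 8) (.nd (nat_lit 9) 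
(.lf (nat_lit 463064) (.g (nat_lit 2994) (.e (nat_lit 3067) (nat_lit 190) (.e (nat_lit 475179) (nat_lit 24) (.e (nat_lit 516120) (nat_lit 1) (.e (nat_lit 164330) (nat_lit 230) (.e (nat_lit 163902) (nat_lit 12) (.e (nat_lit 426558) (nat_lit 33) (.e (nat_lit 385031) (nat_lit 8) .nil))))))) (.g (nat_lit 1) (.e (nat_lit 68029) (nat_lit 0) .nil) .nil))) 
(.lf (nat_lit 463576) (.g (nat_lit 2626) (.e (nat_lit 3088) (nat_lit 191) (.e (nat_lit 483406) (nat_lit 26) (.e (nat_lit 385092) (nat_lit 49) (.e (nat_lit 778323) (nat_lit 5) (.e (nat_lit 73782) (nat_lit 32) .nil))))) (.g (nat_lit 1) (.e (nat_lit 70054) (nat_lit 0) .nil) .nil)))) (.nd (nat_lit 9) 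
(.lf (nat_lit 463320) (.g (nat_lit 4540) (.e (nat_lit 3071) (nat_lit 190) (.e (nat_lit 475198) (nat_lit 40) (.e (nat_lit 704589) (nat_lit 3) (.e (nat_lit 163979) (nat_lit 30) (.e (nat_lit 573482) (nat_lit 13) (.e (nat_lit 65604) (nat_lit 9) (.e (nat_lit 336013) (nat_lit 2) (.e (nat_lit 90134) (nat_lit 9) .nil)))))))) (.g (nat_lit 1) (.e (nat_lit 68484) (nat_lit 0) .nil) .nil))) 
(.lf (nat_lit 463832) (.g (nat_lit 2007) (.e (nat_lit 3094) (nat_lit 191) (.e (nat_lit 483405) (nat_lit 26) (.e (nat_lit 385093) (nat_lit 49) (.e (nat_lit 778323) (nat_lit 5) (.e (nat_lit 81664) (nat_lit 32) .nil))))) (.g (nat_lit 1) (.e (nat_lit 72085) (nat_lit 0) .nil) .nil))))))) (.nd (nat_lit 6) (.nd (nat_lit 7) (.nd (nat_lit 8) (.nd (nat_lit 9) 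
(.lf (nat_lit 462904) (.g (nat_lit 1844) (.e (nat_lit 3064) (nat_lit 190) (.e (nat_lit 475184) (nat_lit 29) (.e (nat_lit 557109) (nat_lit 15) (.e (nat_lit 188458) (nat_lit 25) (.e (nat_lit 245784) (nat_lit 9) .nil))))) (.g (nat_lit 0) (.e (nat_lit 67696) (nat_lit 0) .nil) .nil))) 
(.lf (nat_lit 463416) (.g (nat_lit 687) (.e (nat_lit 3085) (nat_lit 191) (.e (nat_lit 483377) (nat_lit 22) (.e (nat_lit 327705) (nat_lit 10) (.e (nat_lit 5723) (nat_lit 312) .nil)))) (.g (nat_lit 0) (.e (nat_lit 69118) (nat_lit 0) .nil) .nil)))) (.nd (nat_lit 9) 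
(.lf (nat_lit 463160) (.g (nat_lit 3449) (.e (nat_lit 3067) (nat_lit 190) (.e (nat_lit 475185) (nat_lit 29) (.e (nat_lit 557101) (nat_lit 13) (.e (nat_lit 172115) (nat_lit 10) (.e (nat_lit 434231) (nat_lit 23) (.e (nat_lit 532490) (nat_lit 0) (.e (nat_lit 6676) (nat_lit 357) .nil))))))) (.g (nat_lit 1) (.e (nat_lit 68178) (nat_lit 0) .nil) .nil))) 
(.lf (nat_lit 463672) (.g (nat_lit 2758) (.e (nat_lit 3089) (nat_lit 191) (.e (nat_lit 483409) (nat_lit 27) (.e (nat_lit 401459) (nat_lit 13) (.e (nat_lit 483350) (nat_lit 17) (.e (nat_lit 6677) (nat_lit 357) .nil))))) (.g (nat_lit 1) (.e (nat_lit 70960) (nat_lit 0) .nil) .nil))))) (.nd (nat_lit 8) (.nd (nat_lit 9) 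
(.lf (nat_lit 463032) (.g (nat_lit 1877) (.e (nat_lit 3067) (nat_lit 190) (.e (nat_lit 475176) (nat_lit 24) (.e (nat_lit 516176) (nat_lit 14) (.e (nat_lit 466954) (nat_lit 11) (.e (nat_lit 335988) (nat_lit 1) .nil))))) (.g (nat_lit 0) (.e (nat_lit 67912) (nat_lit 0) .nil) .nil))) 
(.lf (nat_lit 463544) (.g (nat_lit 1692) (.e (nat_lit 3088) (nat_lit 191) (.e (nat_lit 483391) (nat_lit 23) (.e (nat_lit 336300) (nat_lit 15) (.e (nat_lit 3631) (nat_lit 227) (.e (nat_lit 778323) (nat_lit 5) (.e (nat_lit 73782) (nat_lit 32) .nil)))))) (.g (nat_lit 1) (.e (nat_lit 70015) (nat_lit 0) .nil) .nil)))) (.nd (nat_lit 9) 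
(.lf (nat_lit 463288) (.g (nat_lit 2476) (.e (nat_lit 3071) (nat_lit 190) (.e (nat_lit 475185) (nat_lit 29) (.e (nat_lit 557101) (nat_lit 13) (.e (nat_lit 172115) (nat_lit 10) (.e (nat_lit 434227) (nat_lit 20) (.e (nat_lit 507929) (nat_lit 10) (.e (nat_lit 5616) (nat_lit 312) .nil))))))) (.g (nat_lit 1) (.e (nat_lit 68430) (nat_lit 0) .nil) .nil))) 
(.lf (nat_lit 463800) (.g (nat_lit 3280) (.e (nat_lit 3090) (nat_lit 191) (.e (nat_lit 483411) (nat_lit 27) (.e (nat_lit 401437) (nat_lit 9) (.e (nat_lit 426533) (nat_lit 28) (.e (nat_lit 344069) (nat_lit 0) .nil))))) (.g (nat_lit 1) (.e (nat_lit 71601) (nat_lit 0) .nil) .nil)))))) (.nd (nat_lit 7) (.nd (nat_lit 8) (.nd (nat_lit 9) 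
(.lf (nat_lit 462968) (.g (nat_lit 3040) (.e (nat_lit 3066) (nat_lit 190) (.e (nat_lit 475183) (nat_lit 29) (.e (nat_lit 557109) (nat_lit 15) (.e (nat_lit 188452) (nat_lit 23) (.e (nat_lit 204821) (nat_lit 17) .nil))))) (.g (nat_lit 0) (.e (nat_lit 67830) (nat_lit 0) .nil) .nil))) 
(.lf (nat_lit 463480) (.g (nat_lit 1053) (.e (nat_lit 3087) (nat_lit 191) (.e (nat_lit 483387) (nat_lit 23) (.e (nat_lit 335997) (nat_lit 1) (.e (nat_lit 57872) (nat_lit 264) (.e (nat_lit 1211) (nat_lit 89) .nil))))) (.g (nat_lit 0) (.e (nat_lit 69669) (nat_lit 0) .nil) .nil)))) (.nd (nat_lit 9) 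
(.lf (nat_lit 463224) (.g (nat_lit 3419) (.e (nat_lit 3070) (nat_lit 190) (.e (nat_lit 475185) (nat_lit 29) (.e (nat_lit 557107) (nat_lit 15) (.e (nat_lit 188452) (nat_lit 23) (.e (nat_lit 204816) (nat_lit 17) .nil))))) (.g (nat_lit 0) (.e (nat_lit 68331) (nat_lit 0) .nil) .nil))) 
(.lf (nat_lit 463736) (.g (nat_lit 3189) (.e (nat_lit 3090) (nat_lit 191) (.e (nat_lit 483380) (nat_lit 23) (.e (nat_lit 336285) (nat_lit 15) (.e (nat_lit 3632) (nat_lit 227) (.e (nat_lit 778323) (nat_lit 5) (.e (nat_lit 73782) (nat_lit 32) .nil)))))) (.g (nat_lit 1) (.e (nat_lit 71456) (nat_lit 0) .nil) .nil))))) (.nd (nat_lit 8) (.nd (nat_lit 9) 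
(.lf (nat_lit 463096) (.g (nat_lit 3268) (.e (nat_lit 3067) (nat_lit 190) (.e (nat_lit 475183) (nat_lit 29) (.e (nat_lit 557100) (nat_lit 13) (.e (nat_lit 172106) (nat_lit 10) (.e (nat_lit 434231) (nat_lit 23) (.e (nat_lit 532483) (nat_lit 0) (.e (nat_lit 6684) (nat_lit 357) .nil))))))) (.g (nat_lit 1) (.e (nat_lit 68111) (nat_lit 0) .nil) .nil))) 
(.lf (nat_lit 463608) (.g (nat_lit 399) (.e (nat_lit 3089) (nat_lit 191) (.e (nat_lit 483350) (nat_lit 17) (.e (nat_lit 6113) (nat_lit 332) .nil))) (.g (nat_lit 0) (.e (nat_lit 70797) (nat_lit 0) .nil) .nil)))) (.nd (nat_lit 9) 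
(.lf (nat_lit 463352) (.g (nat_lit 805) (.e (nat_lit 3076) (nat_lit 191) (.e (nat_lit 483408) (nat_lit 26) (.e (nat_lit 385091) (nat_lit 49) .nil))) (.g (nat_lit 0) (.e (nat_lit 68613) (nat_lit 0) .nil) .nil))) 
(.lf (nat_lit 463864) (.g (nat_lit 2388) (.e (nat_lit 3095) (nat_lit 192) (.e (nat_lit 491569) (nat_lit 13) (.e (nat_lit 393301) (nat_lit 27) (.e (nat_lit 491563) (nat_lit 12) .nil)))) (.g (nat_lit 0) (.e (nat_lit 72417) (nat_lit 0) .nil) .nil)))))))))) (.nd (nat_lit 3) (.nd (nat_lit 4) (.nd (nat_lit 5) (.nd (nat_lit 6) (.nd (nat_lit 7) (.nd (nat_lit 8) (.nd (nat_lit 9) 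
(.lf (nat_lit 462852) (.g (nat_lit 2183) (.e (nat_lit 3062) (nat_lit 190) (.e (nat_lit 475211) (nat_lit 41) (.e (nat_lit 712755) (nat_lit 30) (.e (nat_lit 450596) (nat_lit 17) (.e (nat_lit 671488) (nat_lit 17) (.e (nat_lit 164359) (nat_lit 246) .nil)))))) (.g (nat_lit 1) (.e (nat_lit 67540) (nat_lit 0) .nil) .nil))) 
(.lf (nat_lit 463364) (.g (nat_lit 2052) (.e (nat_lit 3077) (nat_lit 191) (.e (nat_lit 483406) (nat_lit 26) (.e (nat_lit 385093) (nat_lit 49) (.e (nat_lit 778324) (nat_lit 5) (.e (nat_lit 81664) (nat_lit 32) .nil))))) (.g (nat_lit 1) (.e (nat_lit 68656) (nat_lit 0) .nil) .nil)))) (.nd (nat_lit 9) 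
(.lf (nat_lit 463108) (.g (nat_lit 3390) (.e (nat_lit 3067) (nat_lit 190) (.e (nat_lit 475183) (nat_lit 29) (.e (nat_lit 557108) (nat_lit 15) (.e (nat_lit 188449) (nat_lit 22) (.e (nat_lit 196661) (nat_lit 12) (.e (nat_lit 57751) (nat_lit 201) .nil)))))) (.g (nat_lit 1) (.e (nat_lit 68123) (nat_lit 0) .nil) .nil))) 
(.lf (nat_lit 463620) (.g (nat_lit 2082) (.e (nat_lit 3089) (nat_lit 191) (.e (nat_lit 483383) (nat_lit 23) (.e (nat_lit 336240) (nat_lit 15) (.e (nat_lit 3624) (nat_lit 227) (.e (nat_lit 778324) (nat_lit 5) (.e (nat_lit 73781) (nat_lit 32) .nil)))))) (.g (nat_lit 1) (.e (nat_lit 70872) (nat_lit 0) .nil) .nil))))) (.nd (nat_lit 8) (.nd (nat_lit 9) 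
(.lf (nat_lit 462980) (.g (nat_lit 4513) (.e (nat_lit 3066) (nat_lit 190) (.e (nat_lit 475185) (nat_lit 29) (.e (nat_lit 557098) (nat_lit 13) (.e (nat_lit 172097) (nat_lit 9) (.e (nat_lit 426125) (nat_lit 2) (.e (nat_lit 196661) (nat_lit 12) (.e (nat_lit 57750) (nat_lit 201) .nil))))))) (.g (nat_lit 1) (.e (nat_lit 67844) (nat_lit 0) .nil) .nil))) 
(.lf (nat_lit 463492) (.g (nat_lit 2219) (.e (nat_lit 3087) (nat_lit 191) (.e (nat_lit 483395) (nat_lit 24) (.e (nat_lit 344169) (nat_lit 40) (.e (nat_lit 671763) (nat_lit 5) (.e (nat_lit 73782) (nat_lit 32) .nil))))) (.g (nat_lit 1) (.e (nat_lit 69681) (nat_lit 0) .nil) .nil)))) (.nd (nat_lit 9) 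
(.lf (nat_lit 463236) (.g (nat_lit 901) (.e (nat_lit 3071) (nat_lit 190) (.e (nat_lit 475179) (nat_lit 24) (.e (nat_lit 516146) (nat_lit 9) .nil))) (.g (nat_lit 0) (.e (nat_lit 68355) (nat_lit 0) .nil) .nil))) 
(.lf (nat_lit 463748) (.g (nat_lit 1602) (.e (nat_lit 3090) (nat_lit 191) (.e (nat_lit 483383) (nat_lit 23) (.e (nat_lit 336330) (nat_lit 19) (.e (nat_lit 220928) (nat_lit 5) .nil)))) (.g (nat_lit 0) (.e (nat_lit 71483) (nat_lit 0) .nil) .nil)))))) (.nd (nat_lit 7) (.nd (nat_lit 8) (.nd (nat_lit 9) 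
(.lf (nat_lit 462916) (.g (nat_lit 4147) (.e (nat_lit 3064) (nat_lit 190) (.e (nat_lit 475185) (nat_lit 29) (.e (nat_lit 557101) (nat_lit 13) (.e (nat_lit 172115) (nat_lit 10) (.e (nat_lit 434231) (nat_lit 23) (.e (nat_lit 532490) (nat_lit 0) (.e (nat_lit 6680) (nat_lit 357) .nil))))))) (.g (nat_lit 1) (.e (nat_lit 67708) (nat_lit 0) .nil) .nil))) 
(.lf (nat_lit 463428) (.g (nat_lit 3790) (.e (nat_lit 3085) (nat_lit 191) (.e (nat_lit 483412) (nat_lit 27) (.e (nat_lit 401439) (nat_lit 9) (.e (nat_lit 426470) (nat_lit 25) (.e (nat_lit 319490) (nat_lit 0) (.e (nat_lit 5664) (nat_lit 312) .nil)))))) (.g (nat_lit 1) (.e (nat_lit 69240) (nat_lit 0) .nil) .nil)))) (.nd (nat_lit 9) 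
(.lf (nat_lit 463172) (.g (nat_lit 3337) (.e (nat_lit 3067) (nat_lit 190) (.e (nat_lit 475185) (nat_lit 29) (.e (nat_lit 557107) (nat_lit 15) (.e (nat_lit 188452) (nat_lit 23) (.e (nat_lit 212736) (nat_lit 17) (.e (nat_lit 6666) (nat_lit 357) .nil)))))) (.g (nat_lit 1) (.e (nat_lit 68191) (nat_lit 0) .nil) .nil))) 
(.lf (nat_lit 463684) (.g (nat_lit 1916) (.e (nat_lit 3090) (nat_lit 191) (.e (nat_lit 483350) (nat_lit 17) (.e (nat_lit 6133) (nat_lit 332) (.e (nat_lit 1386) (nat_lit 105) (.e (nat_lit 311357) (nat_lit 28) (.e (nat_lit 344069) (nat_lit 0) .nil)))))) (.g (nat_lit 1) (.e (nat_lit 71110) (nat_lit 0) .nil) .nil))))) (.nd (nat_lit 8) (.nd (nat_lit 9) 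
(.lf (nat_lit 463044) (.g (nat_lit 1580) (.e (nat_lit 3067) (nat_lit 190) (.e (nat_lit 475178) (nat_lit 24) (.e (nat_lit 516129) (nat_lit 3) (.e (nat_lit 221194) (nat_lit 11) (.e (nat_lit 336010) (nat_lit 2) .nil))))) (.g (nat_lit 0) (.e (nat_lit 67951) (nat_lit 0) .nil) .nil))) 
(.lf (nat_lit 463556) (.g (nat_lit 277) (.e (nat_lit 3088) (nat_lit 191) (.e (nat_lit 483395) (nat_lit 24) (.e (nat_lit 344097) (nat_lit 18) .nil))) (.g (nat_lit 0) (.e (nat_lit 70027) (nat_lit 0) .nil) .nil)))) (.nd (nat_lit 9) 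
(.lf (nat_lit 463300) (.g (nat_lit 1630) (.e (nat_lit 3071) (nat_lit 190) (.e (nat_lit 475185) (nat_lit 29) (.e (nat_lit 557107) (nat_lit 15) (.e (nat_lit 188450) (nat_lit 23) (.e (nat_lit 204817) (nat_lit 17) (.e (nat_lit 7936) (nat_lit 357) .nil)))))) (.g (nat_lit 1) (.e (nat_lit 68442) (nat_lit 0) .nil) .nil))) 
(.lf (nat_lit 463812) (.g (nat_lit 967) (.e (nat_lit 3092) (nat_lit 191) (.e (nat_lit 483406) (nat_lit 26) (.e (nat_lit 385092) (nat_lit 49) .nil))) (.g (nat_lit 0) (.e (nat_lit 71743) (nat_lit 0) .nil) .nil))))))) (.nd (nat_lit 6) (.nd (nat_lit 7) (.nd (nat_lit 8) (.nd (nat_lit 9) 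
(.lf (nat_lit 462884) (.g (nat_lit 2091) (.e (nat_lit 3063) (nat_lit 190) (.e (nat_lit 475185) (nat_lit 29) (.e (nat_lit 557109) (nat_lit 15) (.e (nat_lit 188450) (nat_lit 23) .nil)))) (.g (nat_lit 0) (.e (nat_lit 67622) (nat_lit 0) .nil) .nil))) 
(.lf (nat_lit 463396) (.g (nat_lit 1209) (.e (nat_lit 3083) (nat_lit 191) (.e (nat_lit 483380) (nat_lit 23) (.e (nat_lit 336332) (nat_lit 19) .nil))) (.g (nat_lit 0) (.e (nat_lit 68920) (nat_lit 0) .nil) .nil)))) (.nd (nat_lit 9) 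
(.lf (nat_lit 463140) (.g (nat_lit 3061) (.e (nat_lit 3067) (nat_lit 190) (.e (nat_lit 475185) (nat_lit 29) (.e (nat_lit 557098) (nat_lit 13) (.e (nat_lit 172085) (nat_lit 9) (.e (nat_lit 426125) (nat_lit 2) (.e (nat_lit 196661) (nat_lit 12) (.e (nat_lit 57750) (nat_lit 201) .nil))))))) (.g (nat_lit 1) (.e (nat_lit 68158) (nat_lit 0) .nil) .nil))) 
(.lf (nat_lit 463652) (.g (nat_lit 1146) (.e (nat_lit 3089) (nat_lit 191) (.e (nat_lit 483394) (nat_lit 24) (.e (nat_lit 344097) (nat_lit 18) (.e (nat_lit 5906) (nat_lit 320) .nil)))) (.g (nat_lit 0) (.e (nat_lit 70909) (nat_lit 0) .nil) .nil))))) (.nd (nat_lit 8) (.nd (nat_lit 9) 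
(.lf (nat_lit 463012) (.g (nat_lit 2883) (.e (nat_lit 3067) (nat_lit 190) (.e (nat_lit 483072) (nat_lit 26) (.e (nat_lit 532544) (nat_lit 10) (.e (nat_lit 344118) (nat_lit 21) (.e (nat_lit 516129) (nat_lit 3) (.e (nat_lit 221210) (nat_lit 22) (.e (nat_lit 196614) (nat_lit 0) .nil))))))) (.g (nat_lit 1) (.e (nat_lit 67891) (nat_lit 0) .nil) .nil))) 
(.lf (nat_lit 463524) (.g (nat_lit 1911) (.e (nat_lit 3087) (nat_lit 191) (.e (nat_lit 483408) (nat_lit 26) (.e (nat_lit 385093) (nat_lit 49) (.e (nat_lit 778324) (nat_lit 5) (.e (nat_lit 73781) (nat_lit 32) .nil))))) (.g (nat_lit 1) (.e (nat_lit 69718) (nat_lit 0) .nil) .nil)))) (.nd (nat_lit 9) 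
(.lf (nat_lit 463268) (.g (nat_lit 3924) (.e (nat_lit 3071) (nat_lit 190) (.e (nat_lit 475185) (nat_lit 29) (.e (nat_lit 557100) (nat_lit 13) (.e (nat_lit 172106) (nat_lit 10) (.e (nat_lit 434231) (nat_lit 23) (.e (nat_lit 532482) (nat_lit 0) (.e (nat_lit 6617) (nat_lit 357) .nil))))))) (.g (nat_lit 1) (.e (nat_lit 68410) (nat_lit 0) .nil) .nil))) 
(.lf (nat_lit 463780) (.g (nat_lit 2589) (.e (nat_lit 3090) (nat_lit 191) (.e (nat_lit 483404) (nat_lit 26) (.e (nat_lit 385093) (nat_lit 49) (.e (nat_lit 778323) (nat_lit 5) (.e (nat_lit 73782) (nat_lit 32) .nil))))) (.g (nat_lit 1) (.e (nat_lit 71534) (nat_lit 0) .nil) .nil)))))) (.nd (nat_lit 7) (.nd (nat_lit 8) (.nd (nat_lit 9) 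
(.lf (nat_lit 462948) (.g (nat_lit 3097) (.e (nat_lit 3065) (nat_lit 190) (.e (nat_lit 475185) (nat_lit 29) (.e (nat_lit 557109) (nat_lit 15) (.e (nat_lit 188452) (nat_lit 23) (.e (nat_lit 204817) (nat_lit 17) (.e (nat_lit 7936) (nat_lit 357) .nil)))))) (.g (nat_lit 1) (.e (nat_lit 67778) (nat_lit 0) .nil) .nil))) 
(.lf (nat_lit 463460) (.g (nat_lit 873) (.e (nat_lit 3087) (nat_lit 191) (.e (nat_lit 483383) (nat_lit 23) (.e (nat_lit 336000) (nat_lit 1) .nil))) (.g (nat_lit 0) (.e (nat_lit 69647) (nat_lit 0) .nil) .nil)))) (.nd (nat_lit 9) 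
(.lf (nat_lit 463204) (.g (nat_lit 3939) (.e (nat_lit 3069) (nat_lit 190) (.e (nat_lit 475185) (nat_lit 29) (.e (nat_lit 557101) (nat_lit 13) (.e (nat_lit 172115) (nat_lit 10) (.e (nat_lit 434231) (nat_lit 23) (.e (nat_lit 532490) (nat_lit 0) (.e (nat_lit 7936) (nat_lit 357) .nil))))))) (.g (nat_lit 1) (.e (nat_lit 68296) (nat_lit 0) .nil) .nil))) 
(.lf (nat_lit 463716) (.g (nat_lit 1117) (.e (nat_lit 3090) (nat_lit 191) (.e (nat_lit 483372) (nat_lit 21) (.e (nat_lit 319507) (nat_lit 10) .nil))) (.g (nat_lit 0) (.e (nat_lit 71294) (nat_lit 0) .nil) .nil))))) (.nd (nat_lit 8) (.nd (nat_lit 9) 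
(.lf (nat_lit 463076) (.g (nat_lit 2925) (.e (nat_lit 3067) (nat_lit 190) (.e (nat_lit 475179) (nat_lit 24) (.e (nat_lit 516174) (nat_lit 14) (.e (nat_lit 466954) (nat_lit 11) (.e (nat_lit 335986) (nat_lit 1) (.e (nat_lit 57655) (nat_lit 152) (.e (nat_lit 2504) (nat_lit 157) .nil))))))) (.g (nat_lit 1) (.e (nat_lit 68084) (nat_lit 0) .nil) .nil))) 
(.lf (nat_lit 463588) (.g (nat_lit 1128) (.e (nat_lit 3088) (nat_lit 191) (.e (nat_lit 483410) (nat_lit 27) (.e (nat_lit 401436) (nat_lit 9) (.e (nat_lit 426533) (nat_lit 28) .nil)))) (.g (nat_lit 0) (.e (nat_lit 70078) (nat_lit 0) .nil) .nil)))) (.nd (nat_lit 9) 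
(.lf (nat_lit 463332) (.g (nat_lit 3614) (.e (nat_lit 3073) (nat_lit 190) (.e (nat_lit 475185) (nat_lit 29) (.e (nat_lit 557101) (nat_lit 13) (.e (nat_lit 172097) (nat_lit 9) (.e (nat_lit 426140) (nat_lit 3) (.e (nat_lit 204821) (nat_lit 17) (.e (nat_lit 7936) (nat_lit 357) .nil))))))) (.g (nat_lit 1) (.e (nat_lit 68538) (nat_lit 0) .nil) .nil))) 
(.lf (nat_lit 463844) (.g (nat_lit 1756) (.e (nat_lit 3094) (nat_lit 191) (.e (nat_lit 483413) (nat_lit 27) (.e (nat_lit 401444) (nat_lit 9) (.e (nat_lit 433920) (nat_lit 25) .nil)))) (.g (nat_lit 0) (.e (nat_lit 72197) (nat_lit 0) .nil) .nil)))))))) (.nd (nat_lit 5) (.nd (nat_lit 6) (.nd (nat_lit 7) (.nd (nat_lit 8) (.nd (nat_lit 9) 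
(.lf (nat_lit 462868) (.g (nat_lit 3393) (.e (nat_lit 3063) (nat_lit 190) (.e (nat_lit 475185) (nat_lit 29) (.e (nat_lit 557100) (nat_lit 13) (.e (nat_lit 172113) (nat_lit 10) (.e (nat_lit 434245) (nat_lit 28) (.e (nat_lit 573474) (nat_lit 12) (.e (nat_lit 57565) (nat_lit 52) (.e (nat_lit 753674) (nat_lit 5) .nil)))))))) (.g (nat_lit 1) (.e (nat_lit 67606) (nat_lit 0) .nil) .nil))) 
(.lf (nat_lit 463380) (.g (nat_lit 2205) (.e (nat_lit 3080) (nat_lit 191) (.e (nat_lit 483380) (nat_lit 23) (.e (nat_lit 336332) (nat_lit 19) (.e (nat_lit 220928) (nat_lit 5) .nil)))) (.g (nat_lit 0) (.e (nat_lit 68853) (nat_lit 0) .nil) .nil)))) (.nd (nat_lit 9) 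
(.lf (nat_lit 463124) (.g (nat_lit 2487) (.e (nat_lit 3067) (nat_lit 190) (.e (nat_lit 475184) (nat_lit 29) (.e (nat_lit 557098) (nat_lit 13) (.e (nat_lit 172097) (nat_lit 9) (.e (nat_lit 426140) (nat_lit 3) (.e (nat_lit 212736) (nat_lit 17) (.e (nat_lit 6666) (nat_lit 357) .nil))))))) (.g (nat_lit 1) (.e (nat_lit 68139) (nat_lit 0) .nil) .nil))) 
(.lf (nat_lit 463636) (.g (nat_lit 1192) (.e (nat_lit 3089) (nat_lit 191) (.e (nat_lit 483383) (nat_lit 23) (.e (nat_lit 336285) (nat_lit 15) (.e (nat_lit 3631) (nat_lit 227) .nil)))) (.g (nat_lit 0) (.e (nat_lit 70891) (nat_lit 0) .nil) .nil))))) (.nd (nat_lit 8) (.nd (nat_lit 9) 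
(.lf (nat_lit 462996) (.g (nat_lit 3298) (.e (nat_lit 3066) (nat_lit 190) (.e (nat_lit 475185) (nat_lit 29) (.e (nat_lit 557109) (nat_lit 15) (.e (nat_lit 188447) (nat_lit 22) (.e (nat_lit 196661) (nat_lit 12) (.e (nat_lit 57750) (nat_lit 201) .nil)))))) (.g (nat_lit 1) (.e (nat_lit 67860) (nat_lit 0) .nil) .nil))) 
(.lf (nat_lit 463508) (.g (nat_lit 2304) (.e (nat_lit 3087) (nat_lit 191) (.e (nat_lit 483405) (nat_lit 26) (.e (nat_lit 385093) (nat_lit 49) (.e (nat_lit 778323) (nat_lit 5) (.e (nat_lit 73782) (nat_lit 32) .nil))))) (.g (nat_lit 1) (.e (nat_lit 69700) (nat_lit 0) .nil) .nil)))) (.nd (nat_lit 9) 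
(.lf (nat_lit 463252) (.g (nat_lit 4220) (.e (nat_lit 3071) (nat_lit 190) (.e (nat_lit 475184) (nat_lit 29) (.e (nat_lit 557109) (nat_lit 15) (.e (nat_lit 188452) (nat_lit 23) (.e (nat_lit 204816) (nat_lit 17) .nil))))) (.g (nat_lit 0) (.e (nat_lit 68392) (nat_lit 0) .nil) .nil))) 
(.lf (nat_lit 463764) (.g (nat_lit 2856) (.e (nat_lit 3090) (nat_lit 191) (.e (nat_lit 483391) (nat_lit 23) (.e (nat_lit 336300) (nat_lit 15) (.e (nat_lit 3632) (nat_lit 227) (.e (nat_lit 778323) (nat_lit 5) (.e (nat_lit 73782) (nat_lit 32) .nil)))))) (.g (nat_lit 1) (.e (nat_lit 71500) (nat_lit 0) .nil) .nil)))))) (.nd (nat_lit 7) (.nd (nat_lit 8) (.nd (nat_lit 9) 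
(.lf (nat_lit 462932) (.g (nat_lit 3700) (.e (nat_lit 3065) (nat_lit 190) (.e (nat_lit 475185) (nat_lit 29) (.e (nat_lit 557098) (nat_lit 13) (.e (nat_lit 172097) (nat_lit 9) (.e (nat_lit 426140) (nat_lit 3) (.e (nat_lit 204821) (nat_lit 17) (.e (nat_lit 6676) (nat_lit 357) .nil))))))) (.g (nat_lit 1) (.e (nat_lit 67762) (nat_lit 0) .nil) .nil))) 
(.lf (nat_lit 463444) (.g (nat_lit 2933) (.e (nat_lit 3085) (nat_lit 191) (.e (nat_lit 483413) (nat_lit 27) (.e (nat_lit 401447) (nat_lit 10) (.e (nat_lit 434210) (nat_lit 18) .nil)))) (.g (nat_lit 0) (.e (nat_lit 69423) (nat_lit 0) .nil) .nil)))) (.nd (nat_lit 9) 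
(.lf (nat_lit 463188) (.g (nat_lit 2318) (.e (nat_lit 3067) (nat_lit 190) (.e (nat_lit 475185) (nat_lit 29) (.e (nat_lit 557109) (nat_lit 15) (.e (nat_lit 188452) (nat_lit 23) (.e (nat_lit 204821) (nat_lit 17) .nil))))) (.g (nat_lit 0) (.e (nat_lit 68207) (nat_lit 0) .nil) .nil))) 
(.lf (nat_lit 463700) (.g (nat_lit 1918) (.e (nat_lit 3090) (nat_lit 191) (.e (nat_lit 483354) (nat_lit 17) (.e (nat_lit 6680) (nat_lit 357) (.e (nat_lit 2854) (nat_lit 184) (.e (nat_lit 426533) (nat_lit 28) (.e (nat_lit 344069) (nat_lit 0) .nil)))))) (.g (nat_lit 1) (.e (nat_lit 71148) (nat_lit 0) .nil) .nil))))) (.nd (nat_lit 8) (.nd (nat_lit 9) 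
(.lf (nat_lit 463060) (.g (nat_lit 2610) (.e (nat_lit 3067) (nat_lit 190) (.e (nat_lit 475179) (nat_lit 24) (.e (nat_lit 516119) (nat_lit 1) (.e (nat_lit 164326) (nat_lit 230) (.e (nat_lit 163941) (nat_lit 19) (.e (nat_lit 483333) (nat_lit 0) (.e (nat_lit 7348) (nat_lit 388) .nil))))))) (.g (nat_lit 1) (.e (nat_lit 68020) (nat_lit 0) .nil) .nil))) 
(.lf (nat_lit 463572) (.g (nat_lit 956) (.e (nat_lit 3088) (nat_lit 191) (.e (nat_lit 483405) (nat_lit 26) (.e (nat_lit 385092) (nat_lit 49) (.e (nat_lit 778324) (nat_lit 5) .nil)))) (.g (nat_lit 0) (.e (nat_lit 70050) (nat_lit 0) .nil) .nil)))) (.nd (nat_lit 9) 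
(.lf (nat_lit 463316) (.g (nat_lit 2452) (.e (nat_lit 3071) (nat_lit 190) (.e (nat_lit 475185) (nat_lit 29) (.e (nat_lit 557109) (nat_lit 15) (.e (nat_lit 188452) (nat_lit 23) (.e (nat_lit 204817) (nat_lit 17) (.e (nat_lit 7936) (nat_lit 357) .nil)))))) (.g (nat_lit 1) (.e (nat_lit 68458) (nat_lit 0) .nil) .nil))) 
(.lf (nat_lit 463828) (.g (nat_lit 2149) (.e (nat_lit 3094) (nat_lit 191) (.e (nat_lit 483403) (nat_lit 26) (.e (nat_lit 385094) (nat_lit 49) (.e (nat_lit 778323) (nat_lit 5) (.e (nat_lit 81664) (nat_lit 32) .nil))))) (.g (nat_lit 0) (.e (nat_lit 72079) (nat_lit 0) .nil) .nil))))))) (.nd (nat_lit 6) (.nd (nat_lit 7) (.nd (nat_lit 8) (.nd (nat_lit 9) 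
(.lf (nat_lit 462900) (.g (nat_lit 4128) (.e (nat_lit 3064) (nat_lit 190) (.e (nat_lit 475184) (nat_lit 29) (.e (nat_lit 557109) (nat_lit 15) (.e (nat_lit 188452) (nat_lit 23) (.e (nat_lit 204815) (nat_lit 17) .nil))))) (.g (nat_lit 0) (.e (nat_lit 67692) (nat_lit 0) .nil) .nil))) 
(.lf (nat_lit 463412) (.g (nat_lit 1318) (.e (nat_lit 3085) (nat_lit 191) (.e (nat_lit 483337) (nat_lit 9) (.e (nat_lit 426275) (nat_lit 10) (.e (nat_lit 434228) (nat_lit 22) .nil)))) (.g (nat_lit 0) (.e (nat_lit 68986) (nat_lit 0) .nil) .nil)))) (.nd (nat_lit 9) 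
(.lf (nat_lit 463156) (.g (nat_lit 3406) (.e (nat_lit 3067) (nat_lit 190) (.e (nat_lit 475185) (nat_lit 29) (.e (nat_lit 557101) (nat_lit 13) (.e (nat_lit 172115) (nat_lit 10) (.e (nat_lit 434231) (nat_lit 23) (.e (nat_lit 532480) (nat_lit 0) (.e (nat_lit 6681) (nat_lit 357) .nil))))))) (.g (nat_lit 1) (.e (nat_lit 68174) (nat_lit 0) .nil) .nil))) 
(.lf (nat_lit 463668) (.g (nat_lit 2612) (.e (nat_lit 3089) (nat_lit 191) (.e (nat_lit 483406) (nat_lit 26) (.e (nat_lit 385093) (nat_lit 49) (.e (nat_lit 778324) (nat_lit 5) (.e (nat_lit 73781) (nat_lit 32) .nil))))) (.g (nat_lit 1) (.e (nat_lit 70941) (nat_lit 0) .nil) .nil))))) (.nd (nat_lit 8) (.nd (nat_lit 9) 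
(.lf (nat_lit 463028) (.g (nat_lit 4805) (.e (nat_lit 3067) (nat_lit 190) (.e (nat_lit 483072) (nat_lit 26) (.e (nat_lit 532544) (nat_lit 10) (.e (nat_lit 344133) (nat_lit 26) (.e (nat_lit 557105) (nat_lit 14) (.e (nat_lit 180252) (nat_lit 10) (.e (nat_lit 573440) (nat_lit 0) .nil))))))) (.g (nat_lit 1) (.e (nat_lit 67907) (nat_lit 0) .nil) .nil))) 
(.lf (nat_lit 463540) (.g (nat_lit 627) (.e (nat_lit 3088) (nat_lit 191) (.e (nat_lit 483385) (nat_lit 23) (.e (nat_lit 336306) (nat_lit 15) .nil))) (.g (nat_lit 0) (.e (nat_lit 70011) (nat_lit 0) .nil) .nil)))) (.nd (nat_lit 9) 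
(.lf (nat_lit 463284) (.g (nat_lit 2532) (.e (nat_lit 3071) (nat_lit 190) (.e (nat_lit 475185) (nat_lit 29) (.e (nat_lit 557101) (nat_lit 13) (.e (nat_lit 172115) (nat_lit 10) (.e (nat_lit 434227) (nat_lit 20) (.e (nat_lit 507928) (nat_lit 10) (.e (nat_lit 5612) (nat_lit 312) .nil))))))) (.g (nat_lit 1) (.e (nat_lit 68426) (nat_lit 0) .nil) .nil))) 
(.lf (nat_lit 463796) (.g (nat_lit 2802) (.e (nat_lit 3090) (nat_lit 191) (.e (nat_lit 483411) (nat_lit 27) (.e (nat_lit 401435) (nat_lit 9) (.e (nat_lit 426533) (nat_lit 28) (.e (nat_lit 344068) (nat_lit 0) .nil))))) (.g (nat_lit 1) (.e (nat_lit 71595) (nat_lit 0) .nil) .nil)))))) (.nd (nat_lit 7) (.nd (nat_lit 8) (.nd (nat_lit 9) 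
(.lf (nat_lit 462964) (.g (nat_lit 2467) (.e (nat_lit 3066) (nat_lit 190) (.e (nat_lit 475183) (nat_lit 29) (.e (nat_lit 557108) (nat_lit 15) (.e (nat_lit 188449) (nat_lit 22) (.e (nat_lit 196661) (nat_lit 12) .nil))))) (.g (nat_lit 0) (.e (nat_lit 67826) (nat_lit 0) .nil) .nil))) 
(.lf (nat_lit 463476) (.g (nat_lit 469) (.e (nat_lit 3087) (nat_lit 191) (.e (nat_lit 483386) (nat_lit 23) (.e (nat_lit 336291) (nat_lit 15) .nil))) (.g (nat_lit 0) (.e (nat_lit 69665) (nat_lit 0) .nil) .nil)))) (.nd (nat_lit 9) 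
(.lf (nat_lit 463220) (.g (nat_lit 1639) (.e (nat_lit 3070) (nat_lit 190) (.e (nat_lit 475185) (nat_lit 29) (.e (nat_lit 557107) (nat_lit 15) (.e (nat_lit 188450) (nat_lit 23) (.e (nat_lit 204816) (nat_lit 17) .nil))))) (.g (nat_lit 0) (.e (nat_lit 68327) (nat_lit 0) .nil) .nil))) 
(.lf (nat_lit 463732) (.g (nat_lit 2854) (.e (nat_lit 3090) (nat_lit 191) (.e (nat_lit 483380) (nat_lit 23) (.e (nat_lit 336265) (nat_lit 15) (.e (nat_lit 3632) (nat_lit 227) (.e (nat_lit 778324) (nat_lit 5) (.e (nat_lit 73781) (nat_lit 32) .nil)))))) (.g (nat_lit 1) (.e (nat_lit 71452) (nat_lit 0) .nil) .nil))))) (.nd (nat_lit 8) (.nd (nat_lit 9) 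
(.lf (nat_lit 463092) (.g (nat_lit 4740) (.e (nat_lit 3067) (nat_lit 190) (.e (nat_lit 475183) (nat_lit 29) (.e (nat_lit 557098) (nat_lit 13) (.e (nat_lit 172097) (nat_lit 9) (.e (nat_lit 426125) (nat_lit 2) (.e (nat_lit 196661) (nat_lit 12) (.e (nat_lit 57750) (nat_lit 201) .nil))))))) (.g (nat_lit 1) (.e (nat_lit 68107) (nat_lit 0) .nil) .nil))) 
(.lf (nat_lit 463604) (.g (nat_lit 1585) (.e (nat_lit 3088) (nat_lit 191) (.e (nat_lit 491264) (nat_lit 27) (.e (nat_lit 401458) (nat_lit 13) (.e (nat_lit 483350) (nat_lit 17) (.e (nat_lit 6677) (nat_lit 357) .nil))))) (.g (nat_lit 1) (.e (nat_lit 70745) (nat_lit 0) .nil) .nil)))) (.nd (nat_lit 9) 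
(.lf (nat_lit 463348) (.g (nat_lit 1773) (.e (nat_lit 3076) (nat_lit 191) (.e (nat_lit 483403) (nat_lit 26) (.e (nat_lit 385094) (nat_lit 49) (.e (nat_lit 778323) (nat_lit 5) .nil)))) (.g (nat_lit 0) (.e (nat_lit 68609) (nat_lit 0) .nil) .nil))) 
(.lf (nat_lit 463860) (.g (nat_lit 2238) (.e (nat_lit 3095) (nat_lit 192) (.e (nat_lit 491569) (nat_lit 13) (.e (nat_lit 393301) (nat_lit 27) (.e (nat_lit 491560) (nat_lit 10) .nil)))) (.g (nat_lit 0) (.e (nat_lit 72413) (nat_lit 0) .nil) .nil))))))))) (.nd (nat_lit 4) (.nd (nat_lit 5) (.nd (nat_lit 6) (.nd (nat_lit 7) (.nd (nat_lit 8) (.nd (nat_lit 9) 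
(.lf (nat_lit 462860) (.g (nat_lit 2475) (.e (nat_lit 3063) (nat_lit 190) (.e (nat_lit 475185) (nat_lit 29) (.e (nat_lit 557100) (nat_lit 13) (.e (nat_lit 172106) (nat_lit 10) (.e (nat_lit 434227) (nat_lit 20) (.e (nat_lit 507929) (nat_lit 10) (.e (nat_lit 5616) (nat_lit 312) .nil))))))) (.g (nat_lit 1) (.e (nat_lit 67598) (nat_lit 0) .nil) .nil))) 
(.lf (nat_lit 463372) (.g (nat_lit 1599) (.e (nat_lit 3078) (nat_lit 191) (.e (nat_lit 483350) (nat_lit 17) (.e (nat_lit 6113) (nat_lit 332) (.e (nat_lit 1376) (nat_lit 104) .nil)))) (.g (nat_lit 0) (.e (nat_lit 68704) (nat_lit 0) .nil) .nil)))) (.nd (nat_lit 9) 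
(.lf (nat_lit 463116) (.g (nat_lit 4059) (.e (nat_lit 3067) (nat_lit 190) (.e (nat_lit 475183) (nat_lit 29) (.e (nat_lit 557109) (nat_lit 15) (.e (nat_lit 188447) (nat_lit 22) (.e (nat_lit 196661) (nat_lit 12) (.e (nat_lit 57750) (nat_lit 201) .nil)))))) (.g (nat_lit 1) (.e (nat_lit 68131) (nat_lit 0) .nil) .nil))) 
(.lf (nat_lit 463628) (.g (nat_lit 2216) (.e (nat_lit 3089) (nat_lit 191) (.e (nat_lit 483383) (nat_lit 23) (.e (nat_lit 336263) (nat_lit 15) (.e (nat_lit 3632) (nat_lit 227) (.e (nat_lit 778323) (nat_lit 5) (.e (nat_lit 73782) (nat_lit 32) .nil)))))) (.g (nat_lit 1) (.e (nat_lit 70882) (nat_lit 0) .nil) .nil))))) (.nd (nat_lit 8) (.nd (nat_lit 9) 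
(.lf (nat_lit 462988) (.g (nat_lit 3379) (.e (nat_lit 3066) (nat_lit 190) (.e (nat_lit 475185) (nat_lit 29) (.e (nat_lit 557101) (nat_lit 13) (.e (nat_lit 172097) (nat_lit 9) (.e (nat_lit 426140) (nat_lit 3) (.e (nat_lit 204821) (nat_lit 17) (.e (nat_lit 6676) (nat_lit 357) .nil))))))) (.g (nat_lit 1) (.e (nat_lit 67852) (nat_lit 0) .nil) .nil))) 
(.lf (nat_lit 463500) (.g (nat_lit 1876) (.e (nat_lit 3087) (nat_lit 191) (.e (nat_lit 483403) (nat_lit 26) (.e (nat_lit 385093) (nat_lit 49) (.e (nat_lit 778324) (nat_lit 5) (.e (nat_lit 73781) (nat_lit 32) .nil))))) (.g (nat_lit 1) (.e (nat_lit 69690) (nat_lit 0) .nil) .nil)))) (.nd (nat_lit 9) 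
(.lf (nat_lit 463244) (.g (nat_lit 745) (.e (nat_lit 3071) (nat_lit 190) (.e (nat_lit 475179) (nat_lit 24) (.e (nat_lit 516150) (nat_lit 9) .nil))) (.g (nat_lit 0) (.e (nat_lit 68368) (nat_lit 0) .nil) .nil))) 
(.lf (nat_lit 463756) (.g (nat_lit 2909) (.e (nat_lit 3090) (nat_lit 191) (.e (nat_lit 483386) (nat_lit 23) (.e (nat_lit 336295) (nat_lit 15) (.e (nat_lit 3631) (nat_lit 227) (.e (nat_lit 778323) (nat_lit 5) (.e (nat_lit 73781) (nat_lit 32) .nil)))))) (.g (nat_lit 1) (.e (nat_lit 71491) (nat_lit 0) .nil) .nil)))))) (.nd (nat_lit 7) (.nd (nat_lit 8) (.nd (nat_lit 9) 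
(.lf (nat_lit 462924) (.g (nat_lit 1573) (.e (nat_lit 3065) (nat_lit 190) (.e (nat_lit 475184) (nat_lit 29) (.e (nat_lit 557107) (nat_lit 15) (.e (nat_lit 188450) (nat_lit 23) (.e (nat_lit 204821) (nat_lit 17) .nil))))) (.g (nat_lit 0) (.e (nat_lit 67754) (nat_lit 0) .nil) .nil))) 
(.lf (nat_lit 463436) (.g (nat_lit 829) (.e (nat_lit 3085) (nat_lit 191) (.e (nat_lit 483413) (nat_lit 27) (.e (nat_lit 401447) (nat_lit 10) .nil))) (.g (nat_lit 0) (.e (nat_lit 69392) (nat_lit 0) .nil) .nil)))) (.nd (nat_lit 9) 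
(.lf (nat_lit 463180) (.g (nat_lit 3684) (.e (nat_lit 3067) (nat_lit 190) (.e (nat_lit 475185) (nat_lit 29) (.e (nat_lit 557109) (nat_lit 15) (.e (nat_lit 188450) (nat_lit 23) (.e (nat_lit 204821) (nat_lit 17) (.e (nat_lit 6680) (nat_lit 357) .nil)))))) (.g (nat_lit 1) (.e (nat_lit 68199) (nat_lit 0) .nil) .nil))) 
(.lf (nat_lit 463692) (.g (nat_lit 1724) (.e (nat_lit 3090) (nat_lit 191) (.e (nat_lit 483354) (nat_lit 17) (.e (nat_lit 6136) (nat_lit 332) (.e (nat_lit 1383) (nat_lit 105) (.e (nat_lit 311357) (nat_lit 28) (.e (nat_lit 344069) (nat_lit 0) .nil)))))) (.g (nat_lit 1) (.e (nat_lit 71134) (nat_lit 0) .nil) .nil))))) (.nd (nat_lit 8) (.nd (nat_lit 9) 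
(.lf (nat_lit 463052) (.g (nat_lit 2909) (.e (nat_lit 3067) (nat_lit 190) (.e (nat_lit 475179) (nat_lit 24) (.e (nat_lit 516117) (nat_lit 1) (.e (nat_lit 164330) (nat_lit 230) (.e (nat_lit 163941) (nat_lit 19) .nil))))) (.g (nat_lit 0) (.e (nat_lit 67988) (nat_lit 0) .nil) .nil))) 
(.lf (nat_lit 463564) (.g (nat_lit 2375) (.e (nat_lit 3088) (nat_lit 191) (.e (nat_lit 483402) (nat_lit 26) (.e (nat_lit 385094) (nat_lit 49) (.e (nat_lit 778323) (nat_lit 5) (.e (nat_lit 73781) (nat_lit 32) .nil))))) (.g (nat_lit 1) (.e (nat_lit 70037) (nat_lit 0) .nil) .nil)))) (.nd (nat_lit 9) 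
(.lf (nat_lit 463308) (.g (nat_lit 3402) (.e (nat_lit 3071) (nat_lit 190) (.e (nat_lit 475185) (nat_lit 29) (.e (nat_lit 557109) (nat_lit 15) (.e (nat_lit 188447) (nat_lit 22) (.e (nat_lit 196661) (nat_lit 12) .nil))))) (.g (nat_lit 0) (.e (nat_lit 68450) (nat_lit 0) .nil) .nil))) 
(.lf (nat_lit 463820) (.g (nat_lit 649) (.e (nat_lit 3094) (nat_lit 191) (.e (nat_lit 483385) (nat_lit 23) (.e (nat_lit 336260) (nat_lit 15) .nil))) (.g (nat_lit 0) (.e (nat_lit 72063) (nat_lit 0) .nil) .nil))))))) (.nd (nat_lit 6) (.nd (nat_lit 7) (.nd (nat_lit 8) (.nd (nat_lit 9) 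
(.lf (nat_lit 462892) (.g (nat_lit 3813) (.e (nat_lit 3064) (nat_lit 190) (.e (nat_lit 475184) (nat_lit 29) (.e (nat_lit 557098) (nat_lit 13) (.e (nat_lit 172115) (nat_lit 10) (.e (nat_lit 434231) (nat_lit 23) (.e (nat_lit 532481) (nat_lit 0) (.e (nat_lit 6693) (nat_lit 357) .nil))))))) (.g (nat_lit 1) (.e (nat_lit 67684) (nat_lit 0) .nil) .nil))) 
(.lf (nat_lit 463404) (.g (nat_lit 424) (.e (nat_lit 3085) (nat_lit 191) (.e (nat_lit 483337) (nat_lit 9) (.e (nat_lit 426107) (nat_lit 1) .nil))) (.g (nat_lit 0) (.e (nat_lit 68965) (nat_lit 0) .nil) .nil)))) (.nd (nat_lit 9) 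
(.lf (nat_lit 463148) (.g (nat_lit 2936) (.e (nat_lit 3067) (nat_lit 190) (.e (nat_lit 475185) (nat_lit 29) (.e (nat_lit 557098) (nat_lit 13) (.e (nat_lit 172115) (nat_lit 10) (.e (nat_lit 434231) (nat_lit 23) (.e (nat_lit 532481) (nat_lit 0) (.e (nat_lit 6684) (nat_lit 357) .nil))))))) (.g (nat_lit 1) (.e (nat_lit 68166) (nat_lit 0) .nil) .nil))) 
(.lf (nat_lit 463660) (.g (nat_lit 1329) (.e (nat_lit 3089) (nat_lit 191) (.e (nat_lit 483402) (nat_lit 26) (.e (nat_lit 385092) (nat_lit 49) (.e (nat_lit 778323) (nat_lit 5) (.e (nat_lit 73782) (nat_lit 32) .nil))))) (.g (nat_lit 1) (.e (nat_lit 70921) (nat_lit 0) .nil) .nil))))) (.nd (nat_lit 8) (.nd (nat_lit 9) 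
(.lf (nat_lit 463020) (.g (nat_lit 2090) (.e (nat_lit 3067) (nat_lit 190) (.e (nat_lit 483072) (nat_lit 26) (.e (nat_lit 532544) (nat_lit 10) (.e (nat_lit 344132) (nat_lit 26) (.e (nat_lit 557101) (nat_lit 13) (.e (nat_lit 172045) (nat_lit 0) (.e (nat_lit 3308) (nat_lit 202) (.e (nat_lit 573446) (nat_lit 0) .nil)))))))) (.g (nat_lit 1) (.e (nat_lit 67899) (nat_lit 0) .nil) .nil))) 
(.lf (nat_lit 463532) (.g (nat_lit 2478) (.e (nat_lit 3088) (nat_lit 191) (.e (nat_lit 483383) (nat_lit 23) (.e (nat_lit 336240) (nat_lit 15) (.e (nat_lit 3623) (nat_lit 227) (.e (nat_lit 778323) (nat_lit 5) (.e (nat_lit 73782) (nat_lit 32) .nil)))))) (.g (nat_lit 1) (.e (nat_lit 70002) (nat_lit 0) .nil) .nil)))) (.nd (nat_lit 9) 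
(.lf (nat_lit 463276) (.g (nat_lit 2176) (.e (nat_lit 3071) (nat_lit 190) (.e (nat_lit 475185) (nat_lit 29) (.e (nat_lit 557100) (nat_lit 13) (.e (nat_lit 172113) (nat_lit 10) (.e (nat_lit 434245) (nat_lit 28) (.e (nat_lit 573474) (nat_lit 12) (.e (nat_lit 57565) (nat_lit 52) (.e (nat_lit 753672) (nat_lit 5) .nil)))))))) (.g (nat_lit 1) (.e (nat_lit 68418) (nat_lit 0) .nil) .nil))) 
(.lf (nat_lit 463788) (.g (nat_lit 2248) (.e (nat_lit 3090) (nat_lit 191) (.e (nat_lit 483409) (nat_lit 27) (.e (nat_lit 401459) (nat_lit 13) (.e (nat_lit 483344) (nat_lit 17) (.e (nat_lit 6643) (nat_lit 357) .nil))))) (.g (nat_lit 1) (.e (nat_lit 71548) (nat_lit 0) .nil) .nil)))))) (.nd (nat_lit 7) (.nd (nat_lit 8) (.nd (nat_lit 9) 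
(.lf (nat_lit 462956) (.g (nat_lit 3327) (.e (nat_lit 3066) (nat_lit 190) (.e (nat_lit 475183) (nat_lit 29) (.e (nat_lit 557097) (nat_lit 13) (.e (nat_lit 172115) (nat_lit 10) (.e (nat_lit 434231) (nat_lit 23) (.e (nat_lit 532490) (nat_lit 0) (.e (nat_lit 6680) (nat_lit 357) .nil))))))) (.g (nat_lit 1) (.e (nat_lit 67818) (nat_lit 0) .nil) .nil))) 
(.lf (nat_lit 463468) (.g (nat_lit 1151) (.e (nat_lit 3087) (nat_lit 191) (.e (nat_lit 483383) (nat_lit 23) (.e (nat_lit 336263) (nat_lit 15) .nil))) (.g (nat_lit 0) (.e (nat_lit 69656) (nat_lit 0) .nil) .nil)))) (.nd (nat_lit 9) 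
(.lf (nat_lit 463212) (.g (nat_lit 3241) (.e (nat_lit 3070) (nat_lit 190) (.e (nat_lit 475185) (nat_lit 29) (.e (nat_lit 557100) (nat_lit 13) (.e (nat_lit 172113) (nat_lit 10) (.e (nat_lit 434245) (nat_lit 28) .nil))))) (.g (nat_lit 0) (.e (nat_lit 68319) (nat_lit 0) .nil) .nil))) 
(.lf (nat_lit 463724) (.g (nat_lit 2098) (.e (nat_lit 3090) (nat_lit 191) (.e (nat_lit 483380) (nat_lit 23) (.e (nat_lit 336240) (nat_lit 15) (.e (nat_lit 3624) (nat_lit 227) (.e (nat_lit 778324) (nat_lit 5) (.e (nat_lit 73781) (nat_lit 32) .nil)))))) (.g (nat_lit 1) (.e (nat_lit 71444) (nat_lit 0) .nil) .nil))))) (.nd (nat_lit 8) (.nd (nat_lit 9) 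
(.lf (nat_lit 463084) (.g (nat_lit 2295) (.e (nat_lit 3067) (nat_lit 190) (.e (nat_lit 475179) (nat_lit 24) (.e (nat_lit 516176) (nat_lit 14) (.e (nat_lit 466954) (nat_lit 11) (.e (nat_lit 335995) (nat_lit 1) (.e (nat_lit 57653) (nat_lit 152) (.e (nat_lit 2504) (nat_lit 157) .nil))))))) (.g (nat_lit 1) (.e (nat_lit 68094) (nat_lit 0) .nil) .nil))) 
(.lf (nat_lit 463596) (.g (nat_lit 3870) (.e (nat_lit 3088) (nat_lit 191) (.e (nat_lit 483412) (nat_lit 27) (.e (nat_lit 401437) (nat_lit 9) (.e (nat_lit 426533) (nat_lit 28) (.e (nat_lit 344068) (nat_lit 0) .nil))))) (.g (nat_lit 1) (.e (nat_lit 70102) (nat_lit 0) .nil) .nil)))) (.nd (nat_lit 9) 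
(.lf (nat_lit 463340) (.g (nat_lit 2936) (.e (nat_lit 3074) (nat_lit 190) (.e (nat_lit 475185) (nat_lit 29) (.e (nat_lit 557098) (nat_lit 13) (.e (nat_lit 172097) (nat_lit 9) (.e (nat_lit 426140) (nat_lit 3) .nil))))) (.g (nat_lit 0) (.e (nat_lit 68552) (nat_lit 0) .nil) .nil))) 
(.lf (nat_lit 463852) (.g (nat_lit 2748) (.e (nat_lit 3095) (nat_lit 192) (.e (nat_lit 491566) (nat_lit 12) (.e (nat_lit 385074) (nat_lit 31) (.e (nat_lit 573493) (nat_lit 15) .nil)))) (.g (nat_lit 0) (.e (nat_lit 72404) (nat_lit 0) .nil) .nil)))))))) (.nd (nat_lit 5) (.nd (nat_lit 6) (.nd (nat_lit 7) (.nd (nat_lit 8) (.nd (nat_lit 9) 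
(.lf (nat_lit 462876) (.g (nat_lit 2980) (.e (nat_lit 3063) (nat_lit 190) (.e (nat_lit 475185) (nat_lit 29) (.e (nat_lit 557101) (nat_lit 13) (.e (nat_lit 172115) (nat_lit 10) (.e (nat_lit 434227) (nat_lit 20) (.e (nat_lit 507928) (nat_lit 10) (.e (nat_lit 5615) (nat_lit 312) .nil))))))) (.g (nat_lit 1) (.e (nat_lit 67614) (nat_lit 0) .nil) .nil))) 
(.lf (nat_lit 463388) (.g (nat_lit 867) (.e (nat_lit 3080) (nat_lit 191) (.e (nat_lit 483406) (nat_lit 26) (.e (nat_lit 385093) (nat_lit 49) .nil))) (.g (nat_lit 0) (.e (nat_lit 68864) (nat_lit 0) .nil) .nil)))) (.nd (nat_lit 9) 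
(.lf (nat_lit 463132) (.g (nat_lit 3583) (.e (nat_lit 3067) (nat_lit 190) (.e (nat_lit 475184) (nat_lit 29) (.e (nat_lit 557109) (nat_lit 15) (.e (nat_lit 188450) (nat_lit 23) (.e (nat_lit 204821) (nat_lit 17) (.e (nat_lit 6680) (nat_lit 357) .nil)))))) (.g (nat_lit 1) (.e (nat_lit 68147) (nat_lit 0) .nil) .nil))) 
(.lf (nat_lit 463644) (.g (nat_lit 964) (.e (nat_lit 3089) (nat_lit 191) (.e (nat_lit 483386) (nat_lit 23) (.e (nat_lit 336295) (nat_lit 15) (.e (nat_lit 3630) (nat_lit 227) .nil)))) (.g (nat_lit 0) (.e (nat_lit 70901) (nat_lit 0) .nil) .nil))))) (.nd (nat_lit 8) (.nd (nat_lit 9) 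
(.lf (nat_lit 463004) (.g (nat_lit 1207) (.e (nat_lit 3066) (nat_lit 190) (.e (nat_lit 475214) (nat_lit 42) (.e (nat_lit 720955) (nat_lit 25) .nil))) (.g (nat_lit 0) (.e (nat_lit 67879) (nat_lit 0) .nil) .nil))) 
(.lf (nat_lit 463516) (.g (nat_lit 2431) (.e (nat_lit 3087) (nat_lit 191) (.e (nat_lit 483406) (nat_lit 26) (.e (nat_lit 385094) (nat_lit 49) (.e (nat_lit 778323) (nat_lit 5) (.e (nat_lit 73782) (nat_lit 32) .nil))))) (.g (nat_lit 1) (.e (nat_lit 69709) (nat_lit 0) .nil) .nil)))) (.nd (nat_lit 9) 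
(.lf (nat_lit 463260) (.g (nat_lit 2628) (.e (nat_lit 3071) (nat_lit 190) (.e (nat_lit 475185) (nat_lit 29) (.e (nat_lit 557100) (nat_lit 13) (.e (nat_lit 172106) (nat_lit 10) (.e (nat_lit 434227) (nat_lit 20) (.e (nat_lit 507928) (nat_lit 10) (.e (nat_lit 5612) (nat_lit 312) .nil))))))) (.g (nat_lit 1) (.e (nat_lit 68402) (nat_lit 0) .nil) .nil))) 
(.lf (nat_lit 463772) (.g (nat_lit 3160) (.e (nat_lit 3090) (nat_lit 191) (.e (nat_lit 483403) (nat_lit 26) (.e (nat_lit 385093) (nat_lit 49) (.e (nat_lit 778323) (nat_lit 5) (.e (nat_lit 73781) (nat_lit 32) .nil))))) (.g (nat_lit 1) (.e (nat_lit 71519) (nat_lit 0) .nil) .nil)))))) (.nd (nat_lit 7) (.nd (nat_lit 8) (.nd (nat_lit 9) 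
(.lf (nat_lit 462940) (.g (nat_lit 2485) (.e (nat_lit 3065) (nat_lit 190) (.e (nat_lit 475185) (nat_lit 29) (.e (nat_lit 557101) (nat_lit 13) (.e (nat_lit 172115) (nat_lit 10) (.e (nat_lit 434231) (nat_lit 23) (.e (nat_lit 532490) (nat_lit 0) (.e (nat_lit 7936) (nat_lit 357) .nil))))))) (.g (nat_lit 1) (.e (nat_lit 67770) (nat_lit 0) .nil) .nil))) 
(.lf (nat_lit 463452) (.g (nat_lit 1977) (.e (nat_lit 3085) (nat_lit 191) (.e (nat_lit 483413) (nat_lit 27) (.e (nat_lit 401448) (nat_lit 10) (.e (nat_lit 434206) (nat_lit 18) .nil)))) (.g (nat_lit 0) (.e (nat_lit 69453) (nat_lit 0) .nil) .nil)))) (.nd (nat_lit 9) 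
(.lf (nat_lit 463196) (.g (nat_lit 1925) (.e (nat_lit 3069) (nat_lit 190) (.e (nat_lit 475177) (nat_lit 24) (.e (nat_lit 516176) (nat_lit 14) (.e (nat_lit 466954) (nat_lit 11) (.e (nat_lit 335988) (nat_lit 1) .nil))))) (.g (nat_lit 0) (.e (nat_lit 68284) (nat_lit 0) .nil) .nil))) 
(.lf (nat_lit 463708) (.g (nat_lit 1114) (.e (nat_lit 3090) (nat_lit 191) (.e (nat_lit 483372) (nat_lit 21) (.e (nat_lit 319497) (nat_lit 10) .nil))) (.g (nat_lit 0) (.e (nat_lit 71255) (nat_lit 0) .nil) .nil))))) (.nd (nat_lit 8) (.nd (nat_lit 9) 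
(.lf (nat_lit 463068) (.g (nat_lit 2747) (.e (nat_lit 3067) (nat_lit 190) (.e (nat_lit 475179) (nat_lit 24) (.e (nat_lit 516120) (nat_lit 1) (.e (nat_lit 164332) (nat_lit 230) (.e (nat_lit 163941) (nat_lit 19) (.e (nat_lit 483333) (nat_lit 0) (.e (nat_lit 7337) (nat_lit 388) .nil))))))) (.g (nat_lit 1) (.e (nat_lit 68046) (nat_lit 0) .nil) .nil))) 
(.lf (nat_lit 463580) (.g (nat_lit 1839) (.e (nat_lit 3088) (nat_lit 191) (.e (nat_lit 483407) (nat_lit 26) (.e (nat_lit 385093) (nat_lit 49) (.e (nat_lit 778323) (nat_lit 5) (.e (nat_lit 73781) (nat_lit 32) .nil))))) (.g (nat_lit 1) (.e (nat_lit 70065) (nat_lit 0) .nil) .nil)))) (.nd (nat_lit 9) 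
(.lf (nat_lit 463324) (.g (nat_lit 3004) (.e (nat_lit 3072) (nat_lit 190) (.e (nat_lit 475179) (nat_lit 24) (.e (nat_lit 516146) (nat_lit 9) (.e (nat_lit 426438) (nat_lit 18) (.e (nat_lit 98384) (nat_lit 32) .nil))))) (.g (nat_lit 0) (.e (nat_lit 68525) (nat_lit 0) .nil) .nil))) 
(.lf (nat_lit 463836) (.g (nat_lit 2154) (.e (nat_lit 3094) (nat_lit 191) (.e (nat_lit 483406) (nat_lit 26) (.e (nat_lit 385093) (nat_lit 49) (.e (nat_lit 778323) (nat_lit 5) (.e (nat_lit 81664) (nat_lit 32) .nil))))) (.g (nat_lit 0) (.e (nat_lit 72090) (nat_lit 0) .nil) .nil))))))) (.nd (nat_lit 6) (.nd (nat_lit 7) (.nd (nat_lit 8) (.nd (nat_lit 9) 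
(.lf (nat_lit 462908) (.g (nat_lit 4453) (.e (nat_lit 3064) (nat_lit 190) (.e (nat_lit 475185) (nat_lit 29) (.e (nat_lit 557100) (nat_lit 13) (.e (nat_lit 172106) (nat_lit 10) (.e (nat_lit 434231) (nat_lit 23) (.e (nat_lit 532490) (nat_lit 0) (.e (nat_lit 6680) (nat_lit 357) .nil))))))) (.g (nat_lit 1) (.e (nat_lit 67700) (nat_lit 0) .nil) .nil))) 
(.lf (nat_lit 463420) (.g (nat_lit 1503) (.e (nat_lit 3085) (nat_lit 191) (.e (nat_lit 483401) (nat_lit 25) (.e (nat_lit 368695) (nat_lit 40) (.e (nat_lit 671763) (nat_lit 5) (.e (nat_lit 81664) (nat_lit 32) .nil))))) (.g (nat_lit 1) (.e (nat_lit 69146) (nat_lit 0) .nil) .nil)))) (.nd (nat_lit 9) 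
(.lf (nat_lit 463164) (.g (nat_lit 2865) (.e (nat_lit 3067) (nat_lit 190) (.e (nat_lit 475185) (nat_lit 29) (.e (nat_lit 557107) (nat_lit 15) (.e (nat_lit 188450) (nat_lit 23) (.e (nat_lit 204814) (nat_lit 17) (.e (nat_lit 6681) (nat_lit 357) .nil)))))) (.g (nat_lit 1) (.e (nat_lit 68183) (nat_lit 0) .nil) .nil))) 
(.lf (nat_lit 463676) (.g (nat_lit 2735) (.e (nat_lit 3089) (nat_lit 191) (.e (nat_lit 483410) (nat_lit 27) (.e (nat_lit 401437) (nat_lit 9) (.e (nat_lit 426533) (nat_lit 28) (.e (nat_lit 344068) (nat_lit 0) .nil))))) (.g (nat_lit 1) (.e (nat_lit 70964) (nat_lit 0) .nil) .nil))))) (.nd (nat_lit 8) (.nd (nat_lit 9) 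
(.lf (nat_lit 463036) (.g (nat_lit 2042) (.e (nat_lit 3067) (nat_lit 190) (.e (nat_lit 475177) (nat_lit 24) (.e (nat_lit 516176) (nat_lit 14) (.e (nat_lit 466954) (nat_lit 11) (.e (nat_lit 335986) (nat_lit 1) (.e (nat_lit 57657) (nat_lit 152) (.e (nat_lit 2497) (nat_lit 157) .nil))))))) (.g (nat_lit 1) (.e (nat_lit 67931) (nat_lit 0) .nil) .nil))) 
(.lf (nat_lit 463548) (.g (nat_lit 2096) (.e (nat_lit 3088) (nat_lit 191) (.e (nat_lit 483393) (nat_lit 23) (.e (nat_lit 335995) (nat_lit 1) (.e (nat_lit 57872) (nat_lit 264) (.e (nat_lit 1210) (nat_lit 89) .nil))))) (.g (nat_lit 0) (.e (nat_lit 70019) (nat_lit 0) .nil) .nil)))) (.nd (nat_lit 9) 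
(.lf (nat_lit 463292) (.g (nat_lit 1841) (.e (nat_lit 3071) (nat_lit 190) (.e (nat_lit 475185) (nat_lit 29) (.e (nat_lit 557101) (nat_lit 13) (.e (nat_lit 172115) (nat_lit 10) (.e (nat_lit 434231) (nat_lit 23) .nil))))) (.g (nat_lit 0) (.e (nat_lit 68434) (nat_lit 0) .nil) .nil))) 
(.lf (nat_lit 463804) (.g (nat_lit 1214) (.e (nat_lit 3092) (nat_lit 191) (.e (nat_lit 483383) (nat_lit 23) (.e (nat_lit 336332) (nat_lit 19) (.e (nat_lit 220928) (nat_lit 5) .nil)))) (.g (nat_lit 0) (.e (nat_lit 71725) (nat_lit 0) .nil) .nil)))))) (.nd (nat_lit 7) (.nd (nat_lit 8) (.nd (nat_lit 9) 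
(.lf (nat_lit 462972) (.g (nat_lit 3259) (.e (nat_lit 3066) (nat_lit 190) (.e (nat_lit 475184) (nat_lit 29) (.e (nat_lit 557109) (nat_lit 15) (.e (nat_lit 188447) (nat_lit 22) (.e (nat_lit 196661) (nat_lit 12) (.e (nat_lit 57750) (nat_lit 201) .nil)))))) (.g (nat_lit 1) (.e (nat_lit 67834) (nat_lit 0) .nil) .nil))) 
(.lf (nat_lit 463484) (.g (nat_lit 1446) (.e (nat_lit 3087) (nat_lit 191) (.e (nat_lit 483393) (nat_lit 23) (.e (nat_lit 335988) (nat_lit 1) (.e (nat_lit 57870) (nat_lit 264) (.e (nat_lit 1210) (nat_lit 89) .nil))))) (.g (nat_lit 0) (.e (nat_lit 69673) (nat_lit 0) .nil) .nil)))) (.nd (nat_lit 9) 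
(.lf (nat_lit 463228) (.g (nat_lit 2929) (.e (nat_lit 3070) (nat_lit 190) (.e (nat_lit 475185) (nat_lit 29) (.e (nat_lit 557109) (nat_lit 15) (.e (nat_lit 188452) (nat_lit 23) (.e (nat_lit 204816) (nat_lit 17) .nil))))) (.g (nat_lit 0) (.e (nat_lit 68335) (nat_lit 0) .nil) .nil))) 
(.lf (nat_lit 463740) (.g (nat_lit 1648) (.e (nat_lit 3090) (nat_lit 191) (.e (nat_lit 483383) (nat_lit 23) (.e (nat_lit 336000) (nat_lit 1) (.e (nat_lit 57872) (nat_lit 264) (.e (nat_lit 1211) (nat_lit 89) .nil))))) (.g (nat_lit 0) (.e (nat_lit 71475) (nat_lit 0) .nil) .nil))))) (.nd (nat_lit 8) (.nd (nat_lit 9) 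
(.lf (nat_lit 463100) (.g (nat_lit 2431) (.e (nat_lit 3067) (nat_lit 190) (.e (nat_lit 475183) (nat_lit 29) (.e (nat_lit 557101) (nat_lit 13) (.e (nat_lit 172097) (nat_lit 9) (.e (nat_lit 426140) (nat_lit 3) (.e (nat_lit 212736) (nat_lit 17) (.e (nat_lit 6666) (nat_lit 357) .nil))))))) (.g (nat_lit 1) (.e (nat_lit 68115) (nat_lit 0) .nil) .nil))) 
(.lf (nat_lit 463612) (.g (nat_lit 1219) (.e (nat_lit 3089) (nat_lit 191) (.e (nat_lit 483350) (nat_lit 17) (.e (nat_lit 6113) (nat_lit 332) (.e (nat_lit 1390) (nat_lit 105) .nil)))) (.g (nat_lit 0) (.e (nat_lit 70802) (nat_lit 0) .nil) .nil)))) (.nd (nat_lit 9) 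
(.lf (nat_lit 463356) (.g (nat_lit 900) (.e (nat_lit 3077) (nat_lit 191) (.e (nat_lit 483383) (nat_lit 23) (.e (nat_lit 336000) (nat_lit 1) .nil))) (.g (nat_lit 0) (.e (nat_lit 68635) (nat_lit 0) .nil) .nil))) 
(.lf (nat_lit 463868) (.g (nat_lit 3416) (.e (nat_lit 3096) (nat_lit 192) (.e (nat_lit 491537) (nat_lit 2) (.e (nat_lit 90170) (nat_lit 13) (.e (nat_lit 172106) (nat_lit 10) (.e (nat_lit 434231) (nat_lit 23) (.e (nat_lit 532482) (nat_lit 0) (.e (nat_lit 6696) (nat_lit 357) .nil))))))) (.g (nat_lit 1) (.e (nat_lit 72425) (nat_lit 0) .nil) .nil))))))))))) 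
(.nd (nat_lit 2) (.nd (nat_lit 3) (.nd (nat_lit 4) (.nd (nat_lit 5) (.nd (nat_lit 6) 
(.nd (nat_lit 7) (.nd (nat_lit 8) (.nd (nat_lit 9) 
(.lf (nat_lit 462850) (.g (nat_lit 1212) (.e (nat_lit 3062) (nat_lit 190) (.e (nat_lit 475211) (nat_lit 41) (.e (nat_lit 712753) (nat_lit 30) (.e (nat_lit 450595) (nat_lit 17) .nil)))) (.g (nat_lit 0) (.e (nat_lit 67532) (nat_lit 0) .nil) .nil))) 
(.lf (nat_lit 463362) (.g (nat_lit 398) (.e (nat_lit 3077) (nat_lit 191) (.e (nat_lit 483405) (nat_lit 26) (.e (nat_lit 385100) (nat_lit 49) .nil))) (.g (nat_lit 0) (.e (nat_lit 68653) (nat_lit 0) .nil) .nil)))) (.nd (nat_lit 9) 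
(.lf (nat_lit 463106) (.g (nat_lit 2060) (.e (nat_lit 3067) (nat_lit 190) (.e (nat_lit 475183) (nat_lit 29) (.e (nat_lit 557108) (nat_lit 15) (.e (nat_lit 188447) (nat_lit 22) (.e (nat_lit 196661) (nat_lit 12) (.e (nat_lit 57750) (nat_lit 201) .nil)))))) (.g (nat_lit 1) (.e (nat_lit 68121) (nat_lit 0) .nil) .nil))) 
(.lf (nat_lit 463618) (.g (nat_lit 2830) (.e (nat_lit 3089) (nat_lit 191) (.e (nat_lit 483383) (nat_lit 23) (.e (nat_lit 336240) (nat_lit 15) (.e (nat_lit 3623) (nat_lit 227) (.e (nat_lit 778324) (nat_lit 5) (.e (nat_lit 73781) (nat_lit 32) .nil)))))) (.g (nat_lit 1) (.e (nat_lit 70870) (nat_lit 0) .nil) .nil))))) (.nd (nat_lit 8) (.nd (nat_lit 9) 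
(.lf (nat_lit 462978) (.g (nat_lit 2074) (.e (nat_lit 3066) (nat_lit 190) (.e (nat_lit 475185) (nat_lit 29) (.e (nat_lit 557098) (nat_lit 13) (.e (nat_lit 172091) (nat_lit 9) .nil)))) (.g (nat_lit 0) (.e (nat_lit 67842) (nat_lit 0) .nil) .nil))) 
(.lf (nat_lit 463490) (.g (nat_lit 2083) (.e (nat_lit 3087) (nat_lit 191) (.e (nat_lit 483394) (nat_lit 24) (.e (nat_lit 344097) (nat_lit 18) (.e (nat_lit 5907) (nat_lit 320) (.e (nat_lit 1210) (nat_lit 89) .nil))))) (.g (nat_lit 0) (.e (nat_lit 69679) (nat_lit 0) .nil) .nil)))) (.nd (nat_lit 9) 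
(.lf (nat_lit 463234) (.g (nat_lit 1664) (.e (nat_lit 3071) (nat_lit 190) (.e (nat_lit 475177) (nat_lit 24) (.e (nat_lit 516150) (nat_lit 9) (.e (nat_lit 426438) (nat_lit 18) .nil)))) (.g (nat_lit 0) (.e (nat_lit 68350) (nat_lit 0) .nil) .nil))) 
(.lf (nat_lit 463746) (.g (nat_lit 1793) (.e (nat_lit 3090) (nat_lit 191) (.e (nat_lit 483383) (nat_lit 23) (.e (nat_lit 336306) (nat_lit 15) (.e (nat_lit 3619) (nat_lit 227) .nil)))) (.g (nat_lit 0) (.e (nat_lit 71481) (nat_lit 0) .nil) .nil)))))) (.nd (nat_lit 7) (.nd (nat_lit 8) (.nd (nat_lit 9) 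
(.lf (nat_lit 462914) (.g (nat_lit 4330) (.e (nat_lit 3064) (nat_lit 190) (.e (nat_lit 475185) (nat_lit 29) (.e (nat_lit 557101) (nat_lit 13) (.e (nat_lit 172115) (nat_lit 10) (.e (nat_lit 434231) (nat_lit 23) (.e (nat_lit 532481) (nat_lit 0) (.e (nat_lit 6693) (nat_lit 357) .nil))))))) (.g (nat_lit 1) (.e (nat_lit 67706) (nat_lit 0) .nil) .nil))) 
(.lf (nat_lit 463426) (.g (nat_lit 2153) (.e (nat_lit 3085) (nat_lit 191) (.e (nat_lit 483411) (nat_lit 27) (.e (nat_lit 401444) (nat_lit 9) (.e (nat_lit 433920) (nat_lit 25) .nil)))) (.g (nat_lit 0) (.e (nat_lit 69194) (nat_lit 0) .nil) .nil)))) (.nd (nat_lit 9) 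
(.lf (nat_lit 463170) (.g (nat_lit 1581) (.e (nat_lit 3067) (nat_lit 190) (.e (nat_lit 475185) (nat_lit 29) (.e (nat_lit 557107) (nat_lit 15) (.e (nat_lit 188450) (nat_lit 23) (.e (nat_lit 212736) (nat_lit 17) .nil))))) (.g (nat_lit 0) (.e (nat_lit 68189) (nat_lit 0) .nil) .nil))) 
(.lf (nat_lit 463682) (.g (nat_lit 440) (.e (nat_lit 3090) (nat_lit 191) (.e (nat_lit 483350) (nat_lit 17) (.e (nat_lit 6108) (nat_lit 332) .nil))) (.g (nat_lit 0) (.e (nat_lit 71105) (nat_lit 0) .nil) .nil))))) (.nd (nat_lit 8) (.nd (nat_lit 9) 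
(.lf (nat_lit 463042) (.g (nat_lit 1841) (.e (nat_lit 3067) (nat_lit 190) (.e (nat_lit 475178) (nat_lit 24) (.e (nat_lit 516127) (nat_lit 2) (.e (nat_lit 213030) (nat_lit 11) (.e (nat_lit 24605) (nat_lit 2) (.e (nat_lit 90165) (nat_lit 12) (.e (nat_lit 164248) (nat_lit 201) .nil))))))) (.g (nat_lit 1) (.e (nat_lit 67949) (nat_lit 0) .nil) .nil))) 
(.lf (nat_lit 463554) (.g (nat_lit 2458) (.e (nat_lit 3088) (nat_lit 191) (.e (nat_lit 483393) (nat_lit 23) (.e (nat_lit 336293) (nat_lit 15) (.e (nat_lit 3632) (nat_lit 227) (.e (nat_lit 778323) (nat_lit 5) (.e (nat_lit 73782) (nat_lit 32) .nil)))))) (.g (nat_lit 1) (.e (nat_lit 70025) (nat_lit 0) .nil) .nil)))) (.nd (nat_lit 9) 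
(.lf (nat_lit 463298) (.g (nat_lit 1595) (.e (nat_lit 3071) (nat_lit 190) (.e (nat_lit 475185) (nat_lit 29) (.e (nat_lit 557107) (nat_lit 15) (.e (nat_lit 188450) (nat_lit 23) (.e (nat_lit 204815) (nat_lit 17) .nil))))) (.g (nat_lit 0) (.e (nat_lit 68440) (nat_lit 0) .nil) .nil))) 
(.lf (nat_lit 463810) (.g (nat_lit 652) (.e (nat_lit 3092) (nat_lit 191) (.e (nat_lit 483403) (nat_lit 26) (.e (nat_lit 385096) (nat_lit 49) .nil))) (.g (nat_lit 0) (.e (nat_lit 71737) (nat_lit 0) .nil) .nil))))))) (.nd (nat_lit 6) (.nd (nat_lit 7) (.nd (nat_lit 8) (.nd (nat_lit 9) 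
(.lf (nat_lit 462882) (.g (nat_lit 744) (.e (nat_lit 3063) (nat_lit 190) (.e (nat_lit 475185) (nat_lit 29) (.e (nat_lit 557107) (nat_lit 15) .nil))) (.g (nat_lit 0) (.e (nat_lit 67620) (nat_lit 0) .nil) .nil))) 
(.lf (nat_lit 463394) (.g (nat_lit 1844) (.e (nat_lit 3082) (nat_lit 191) (.e (nat_lit 483408) (nat_lit 26) (.e (nat_lit 385092) (nat_lit 49) (.e (nat_lit 778323) (nat_lit 5) (.e (nat_lit 81664) (nat_lit 32) .nil))))) (.g (nat_lit 0) (.e (nat_lit 68893) (nat_lit 0) .nil) .nil)))) (.nd (nat_lit 9) 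
(.lf (nat_lit 463138) (.g (nat_lit 3004) (.e (nat_lit 3067) (nat_lit 190) (.e (nat_lit 475185) (nat_lit 29) (.e (nat_lit 557097) (nat_lit 13) (.e (nat_lit 172097) (nat_lit 9) (.e (nat_lit 426125) (nat_lit 2) (.e (nat_lit 196661) (nat_lit 12) (.e (nat_lit 57750) (nat_lit 201) .nil))))))) (.g (nat_lit 1) (.e (nat_lit 68156) (nat_lit 0) .nil) .nil))) 
(.lf (nat_lit 463650) (.g (nat_lit 2633) (.e (nat_lit 3089) (nat_lit 191) (.e (nat_lit 483387) (nat_lit 23) (.e (nat_lit 336282) (nat_lit 15) (.e (nat_lit 3632) (nat_lit 227) (.e (nat_lit 778324) (nat_lit 5) (.e (nat_lit 73781) (nat_lit 32) .nil)))))) (.g (nat_lit 1) (.e (nat_lit 70907) (nat_lit 0) .nil) .nil))))) (.nd (nat_lit 8) (.nd (nat_lit 9) 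
(.lf (nat_lit 463010) (.g (nat_lit 2429) (.e (nat_lit 3067) (nat_lit 190) (.e (nat_lit 483072) (nat_lit 26) (.e (nat_lit 532544) (nat_lit 10) (.e (nat_lit 344117) (nat_lit 21) (.e (nat_lit 516130) (nat_lit 3) (.e (nat_lit 221211) (nat_lit 22) (.e (nat_lit 196609) (nat_lit 0) .nil))))))) (.g (nat_lit 1) (.e (nat_lit 67889) (nat_lit 0) .nil) .nil))) 
(.lf (nat_lit 463522) (.g (nat_lit 1131) (.e (nat_lit 3087) (nat_lit 191) (.e (nat_lit 483408) (nat_lit 26) (.e (nat_lit 385092) (nat_lit 49) (.e (nat_lit 778324) (nat_lit 5) .nil)))) (.g (nat_lit 0) (.e (nat_lit 69716) (nat_lit 0) .nil) .nil)))) (.nd (nat_lit 9) 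
(.lf (nat_lit 463266) (.g (nat_lit 2808) (.e (nat_lit 3071) (nat_lit 190) (.e (nat_lit 475185) (nat_lit 29) (.e (nat_lit 557100) (nat_lit 13) (.e (nat_lit 172106) (nat_lit 10) (.e (nat_lit 434227) (nat_lit 20) (.e (nat_lit 507930) (nat_lit 10) (.e (nat_lit 5616) (nat_lit 312) .nil))))))) (.g (nat_lit 1) (.e (nat_lit 68408) (nat_lit 0) .nil) .nil))) 
(.lf (nat_lit 463778) (.g (nat_lit 1619) (.e (nat_lit 3090) (nat_lit 191) (.e (nat_lit 483403) (nat_lit 26) (.e (nat_lit 385105) (nat_lit 50) (.e (nat_lit 786476) (nat_lit 28) .nil)))) (.g (nat_lit 0) (.e (nat_lit 71529) (nat_lit 0) .nil) .nil)))))) (.nd (nat_lit 7) (.nd (nat_lit 8) (.nd (nat_lit 9) 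
(.lf (nat_lit 462946) (.g (nat_lit 3280) (.e (nat_lit 3065) (nat_lit 190) (.e (nat_lit 475185) (nat_lit 29) (.e (nat_lit 557109) (nat_lit 15) (.e (nat_lit 188450) (nat_lit 23) (.e (nat_lit 204821) (nat_lit 17) .nil))))) (.g (nat_lit 0) (.e (nat_lit 67776) (nat_lit 0) .nil) .nil))) 
(.lf (nat_lit 463458) (.g (nat_lit 1079) (.e (nat_lit 3087) (nat_lit 191) (.e (nat_lit 483380) (nat_lit 23) (.e (nat_lit 336332) (nat_lit 19) (.e (nat_lit 220928) (nat_lit 5) .nil)))) (.g (nat_lit 0) (.e (nat_lit 69645) (nat_lit 0) .nil) .nil)))) (.nd (nat_lit 9) 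
(.lf (nat_lit 463202) (.g (nat_lit 2284) (.e (nat_lit 3069) (nat_lit 190) (.e (nat_lit 475185) (nat_lit 29) (.e (nat_lit 557098) (nat_lit 13) (.e (nat_lit 172097) (nat_lit 9) .nil)))) (.g (nat_lit 0) (.e (nat_lit 68294) (nat_lit 0) .nil) .nil))) 
(.lf (nat_lit 463714) (.g (nat_lit 1380) (.e (nat_lit 3090) (nat_lit 191) (.e (nat_lit 483372) (nat_lit 21) (.e (nat_lit 319505) (nat_lit 10) (.e (nat_lit 5692) (nat_lit 312) .nil)))) (.g (nat_lit 0) (.e (nat_lit 71278) (nat_lit 0) .nil) .nil))))) (.nd (nat_lit 8) (.nd (nat_lit 9) 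
(.lf (nat_lit 463074) (.g (nat_lit 1628) (.e (nat_lit 3067) (nat_lit 190) (.e (nat_lit 475179) (nat_lit 24) (.e (nat_lit 516174) (nat_lit 14) (.e (nat_lit 466954) (nat_lit 11) .nil)))) (.g (nat_lit 0) (.e (nat_lit 68081) (nat_lit 0) .nil) .nil))) 
(.lf (nat_lit 463586) (.g (nat_lit 2736) (.e (nat_lit 3088) (nat_lit 191) (.e (nat_lit 483408) (nat_lit 26) (.e (nat_lit 385093) (nat_lit 49) (.e (nat_lit 778324) (nat_lit 5) (.e (nat_lit 73781) (nat_lit 32) .nil))))) (.g (nat_lit 1) (.e (nat_lit 70071) (nat_lit 0) .nil) .nil)))) (.nd (nat_lit 9) 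
(.lf (nat_lit 463330) (.g (nat_lit 2286) (.e (nat_lit 3073) (nat_lit 190) (.e (nat_lit 475185) (nat_lit 29) (.e (nat_lit 557098) (nat_lit 13) (.e (nat_lit 172097) (nat_lit 9) .nil)))) (.g (nat_lit 0) (.e (nat_lit 68536) (nat_lit 0) .nil) .nil))) 
(.lf (nat_lit 463842) (.g (nat_lit 1697) (.e (nat_lit 3094) (nat_lit 191) (.e (nat_lit 483408) (nat_lit 26) (.e (nat_lit 385093) (nat_lit 49) (.e (nat_lit 778324) (nat_lit 5) (.e (nat_lit 81664) (nat_lit 32) .nil))))) (.g (nat_lit 0) (.e (nat_lit 72099) (nat_lit 0) .nil) .nil)))))))) (.nd (nat_lit 5) (.nd (nat_lit 6) (.nd (nat_lit 7) (.nd (nat_lit 8) (.nd (nat_lit 9) 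
(.lf (nat_lit 462866) (.g (nat_lit 2760) (.e (nat_lit 3063) (nat_lit 190) (.e (nat_lit 475185) (nat_lit 29) (.e (nat_lit 557100) (nat_lit 13) (.e (nat_lit 172113) (nat_lit 10) (.e (nat_lit 434245) (nat_lit 28) .nil))))) (.g (nat_lit 0) (.e (nat_lit 67604) (nat_lit 0) .nil) .nil))) 
(.lf (nat_lit 463378) (.g (nat_lit 1209) (.e (nat_lit 3079) (nat_lit 191) (.e (nat_lit 483380) (nat_lit 23) (.e (nat_lit 336332) (nat_lit 19) .nil))) (.g (nat_lit 0) (.e (nat_lit 68812) (nat_lit 0) .nil) .nil)))) (.nd (nat_lit 9) 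
(.lf (nat_lit 463122) (.g (nat_lit 4446) (.e (nat_lit 3067) (nat_lit 190) (.e (nat_lit 475183) (nat_lit 29) (.e (nat_lit 557109) (nat_lit 15) (.e (nat_lit 188452) (nat_lit 23) (.e (nat_lit 204821) (nat_lit 17) (.e (nat_lit 6680) (nat_lit 357) .nil)))))) (.g (nat_lit 1) (.e (nat_lit 68137) (nat_lit 0) .nil) .nil))) 
(.lf (nat_lit 463634) (.g (nat_lit 871) (.e (nat_lit 3089) (nat_lit 191) (.e (nat_lit 483383) (nat_lit 23) (.e (nat_lit 336270) (nat_lit 15) .nil))) (.g (nat_lit 0) (.e (nat_lit 70888) (nat_lit 0) .nil) .nil))))) (.nd (nat_lit 8) (.nd (nat_lit 9) 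
(.lf (nat_lit 462994) (.g (nat_lit 2179) (.e (nat_lit 3066) (nat_lit 190) (.e (nat_lit 475185) (nat_lit 29) (.e (nat_lit 557107) (nat_lit 15) (.e (nat_lit 188450) (nat_lit 23) (.e (nat_lit 204817) (nat_lit 17) (.e (nat_lit 7936) (nat_lit 357) .nil)))))) (.g (nat_lit 1) (.e (nat_lit 67858) (nat_lit 0) .nil) .nil))) 
(.lf (nat_lit 463506) (.g (nat_lit 1514) (.e (nat_lit 3087) (nat_lit 191) (.e (nat_lit 483405) (nat_lit 26) (.e (nat_lit 385092) (nat_lit 49) (.e (nat_lit 778323) (nat_lit 5) (.e (nat_lit 73782) (nat_lit 32) .nil))))) (.g (nat_lit 1) (.e (nat_lit 69698) (nat_lit 0) .nil) .nil)))) (.nd (nat_lit 9) 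
(.lf (nat_lit 463250) (.g (nat_lit 2568) (.e (nat_lit 3071) (nat_lit 190) (.e (nat_lit 475179) (nat_lit 24) (.e (nat_lit 516176) (nat_lit 14) (.e (nat_lit 466954) (nat_lit 11) (.e (nat_lit 335986) (nat_lit 1) (.e (nat_lit 57657) (nat_lit 152) (.e (nat_lit 2433) (nat_lit 157) .nil))))))) (.g (nat_lit 1) (.e (nat_lit 68386) (nat_lit 0) .nil) .nil))) 
(.lf (nat_lit 463762) (.g (nat_lit 2466) (.e (nat_lit 3090) (nat_lit 191) (.e (nat_lit 483388) (nat_lit 23) (.e (nat_lit 336295) (nat_lit 15) (.e (nat_lit 3632) (nat_lit 227) (.e (nat_lit 778323) (nat_lit 5) .nil))))) (.g (nat_lit 0) (.e (nat_lit 71498) (nat_lit 0) .nil) .nil)))))) (.nd (nat_lit 7) (.nd (nat_lit 8) (.nd (nat_lit 9) 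
(.lf (nat_lit 462930) (.g (nat_lit 4324) (.e (nat_lit 3065) (nat_lit 190) (.e (nat_lit 475185) (nat_lit 29) (.e (nat_lit 557098) (nat_lit 13) (.e (nat_lit 172097) (nat_lit 9) (.e (nat_lit 426125) (nat_lit 2) (.e (nat_lit 196661) (nat_lit 12) (.e (nat_lit 57750) (nat_lit 201) .nil))))))) (.g (nat_lit 1) (.e (nat_lit 67760) (nat_lit 0) .nil) .nil))) 
(.lf (nat_lit 463442) (.g (nat_lit 2902) (.e (nat_lit 3085) (nat_lit 191) (.e (nat_lit 483413) (nat_lit 27) (.e (nat_lit 401447) (nat_lit 10) (.e (nat_lit 434208) (nat_lit 18) .nil)))) (.g (nat_lit 0) (.e (nat_lit 69416) (nat_lit 0) .nil) .nil)))) (.nd (nat_lit 9) 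
(.lf (nat_lit 463186) (.g (nat_lit 3056) (.e (nat_lit 3067) (nat_lit 190) (.e (nat_lit 475185) (nat_lit 29) (.e (nat_lit 557109) (nat_lit 15) (.e (nat_lit 188452) (nat_lit 23) (.e (nat_lit 204817) (nat_lit 17) (.e (nat_lit 7936) (nat_lit 357) .nil)))))) (.g (nat_lit 1) (.e (nat_lit 68205) (nat_lit 0) .nil) .nil))) 
(.lf (nat_lit 463698) (.g (nat_lit 1343) (.e (nat_lit 3090) (nat_lit 191) (.e (nat_lit 483354) (nat_lit 17) (.e (nat_lit 6206) (nat_lit 333) (.e (nat_lit 57865) (nat_lit 256) (.e (nat_lit 300) (nat_lit 22) (.e (nat_lit 344069) (nat_lit 0) .nil)))))) (.g (nat_lit 1) (.e (nat_lit 71140) (nat_lit 0) .nil) .nil))))) (.nd (nat_lit 8) (.nd (nat_lit 9) 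
(.lf (nat_lit 463058) (.g (nat_lit 3053) (.e (nat_lit 3067) (nat_lit 190) (.e (nat_lit 475179) (nat_lit 24) (.e (nat_lit 516119) (nat_lit 1) (.e (nat_lit 164326) (nat_lit 230) (.e (nat_lit 163941) (nat_lit 19) (.e (nat_lit 483333) (nat_lit 0) (.e (nat_lit 7335) (nat_lit 388) .nil))))))) (.g (nat_lit 1) (.e (nat_lit 68018) (nat_lit 0) .nil) .nil))) 
(.lf (nat_lit 463570) (.g (nat_lit 2079) (.e (nat_lit 3088) (nat_lit 191) (.e (nat_lit 483405) (nat_lit 26) (.e (nat_lit 385091) (nat_lit 49) (.e (nat_lit 778324) (nat_lit 5) (.e (nat_lit 73781) (nat_lit 32) .nil))))) (.g (nat_lit 1) (.e (nat_lit 70048) (nat_lit 0) .nil) .nil)))) (.nd (nat_lit 9) 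
(.lf (nat_lit 463314) (.g (nat_lit 2823) (.e (nat_lit 3071) (nat_lit 190) (.e (nat_lit 475185) (nat_lit 29) (.e (nat_lit 557109) (nat_lit 15) (.e (nat_lit 188452) (nat_lit 23) (.e (nat_lit 204816) (nat_lit 17) .nil))))) (.g (nat_lit 0) (.e (nat_lit 68456) (nat_lit 0) .nil) .nil))) 
(.lf (nat_lit 463826) (.g (nat_lit 1334) (.e (nat_lit 3094) (nat_lit 191) (.e (nat_lit 483402) (nat_lit 26) (.e (nat_lit 385094) (nat_lit 49) (.e (nat_lit 778323) (nat_lit 5) (.e (nat_lit 81664) (nat_lit 32) .nil))))) (.g (nat_lit 0) (.e (nat_lit 72075) (nat_lit 0) .nil) .nil))))))) (.nd (nat_lit 6) (.nd (nat_lit 7) (.nd (nat_lit 8) (.nd (nat_lit 9) 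
(.lf (nat_lit 462898) (.g (nat_lit 2828) (.e (nat_lit 3064) (nat_lit 190) (.e (nat_lit 475184) (nat_lit 29) (.e (nat_lit 557109) (nat_lit 15) (.e (nat_lit 188447) (nat_lit 22) (.e (nat_lit 196661) (nat_lit 12) .nil))))) (.g (nat_lit 0) (.e (nat_lit 67690) (nat_lit 0) .nil) .nil))) 
(.lf (nat_lit 463410) (.g (nat_lit 1918) (.e (nat_lit 3085) (nat_lit 191) (.e (nat_lit 483337) (nat_lit 9) (.e (nat_lit 426200) (nat_lit 9) (.e (nat_lit 426128) (nat_lit 2) (.e (nat_lit 204544) (nat_lit 3) (.e (nat_lit 164017) (nat_lit 44) (.e (nat_lit 688139) (nat_lit 5) .nil))))))) (.g (nat_lit 1) (.e (nat_lit 68979) (nat_lit 0) .nil) .nil)))) (.nd (nat_lit 9) 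
(.lf (nat_lit 463154) (.g (nat_lit 1893) (.e (nat_lit 3067) (nat_lit 190) (.e (nat_lit 475185) (nat_lit 29) (.e (nat_lit 557101) (nat_lit 13) (.e (nat_lit 172097) (nat_lit 9) (.e (nat_lit 426140) (nat_lit 3) (.e (nat_lit 204821) (nat_lit 17) (.e (nat_lit 7936) (nat_lit 357) .nil))))))) (.g (nat_lit 1) (.e (nat_lit 68172) (nat_lit 0) .nil) .nil))) 
(.lf (nat_lit 463666) (.g (nat_lit 2632) (.e (nat_lit 3089) (nat_lit 191) (.e (nat_lit 483403) (nat_lit 26) (.e (nat_lit 385094) (nat_lit 49) (.e (nat_lit 778323) (nat_lit 5) (.e (nat_lit 73781) (nat_lit 32) .nil))))) (.g (nat_lit 1) (.e (nat_lit 70930) (nat_lit 0) .nil) .nil))))) (.nd (nat_lit 8) (.nd (nat_lit 9) 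
(.lf (nat_lit 463026) (.g (nat_lit 2886) (.e (nat_lit 3067) (nat_lit 190) (.e (nat_lit 483072) (nat_lit 26) (.e (nat_lit 532544) (nat_lit 10) (.e (nat_lit 344133) (nat_lit 26) (.e (nat_lit 557105) (nat_lit 14) (.e (nat_lit 180249) (nat_lit 10) (.e (nat_lit 573447) (nat_lit 0) .nil))))))) (.g (nat_lit 1) (.e (nat_lit 67905) (nat_lit 0) .nil) .nil))) 
(.lf (nat_lit 463538) (.g (nat_lit 1823) (.e (nat_lit 3088) (nat_lit 191) (.e (nat_lit 483383) (nat_lit 23) (.e (nat_lit 336306) (nat_lit 15) (.e (nat_lit 3619) (nat_lit 227) .nil)))) (.g (nat_lit 0) (.e (nat_lit 70008) (nat_lit 0) .nil) .nil)))) (.nd (nat_lit 9) 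
(.lf (nat_lit 463282) (.g (nat_lit 3414) (.e (nat_lit 3071) (nat_lit 190) (.e (nat_lit 475185) (nat_lit 29) (.e (nat_lit 557101) (nat_lit 13) (.e (nat_lit 172097) (nat_lit 9) (.e (nat_lit 426125) (nat_lit 2) (.e (nat_lit 196661) (nat_lit 12) (.e (nat_lit 65280) (nat_lit 201) .nil))))))) (.g (nat_lit 1) (.e (nat_lit 68424) (nat_lit 0) .nil) .nil))) 
(.lf (nat_lit 463794) (.g (nat_lit 2402) (.e (nat_lit 3090) (nat_lit 191) (.e (nat_lit 483410) (nat_lit 27) (.e (nat_lit 401459) (nat_lit 13) (.e (nat_lit 483356) (nat_lit 17) .nil)))) (.g (nat_lit 0) (.e (nat_lit 71576) (nat_lit 0) .nil) .nil)))))) (.nd (nat_lit 7) (.nd (nat_lit 8) (.nd (nat_lit 9) 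
(.lf (nat_lit 462962) (.g (nat_lit 2137) (.e (nat_lit 3066) (nat_lit 190) (.e (nat_lit 475183) (nat_lit 29) (.e (nat_lit 557107) (nat_lit 15) (.e (nat_lit 188447) (nat_lit 22) (.e (nat_lit 196661) (nat_lit 12) .nil))))) (.g (nat_lit 0) (.e (nat_lit 67824) (nat_lit 0) .nil) .nil))) 
(.lf (nat_lit 463474) (.g (nat_lit 1946) (.e (nat_lit 3087) (nat_lit 191) (.e (nat_lit 483386) (nat_lit 23) (.e (nat_lit 336282) (nat_lit 15) (.e (nat_lit 3632) (nat_lit 227) (.e (nat_lit 778323) (nat_lit 5) .nil))))) (.g (nat_lit 0) (.e (nat_lit 69663) (nat_lit 0) .nil) .nil)))) (.nd (nat_lit 9) 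
(.lf (nat_lit 463218) (.g (nat_lit 2463) (.e (nat_lit 3070) (nat_lit 190) (.e (nat_lit 475185) (nat_lit 29) (.e (nat_lit 557101) (nat_lit 13) (.e (nat_lit 172115) (nat_lit 10) (.e (nat_lit 434231) (nat_lit 23) (.e (nat_lit 532490) (nat_lit 0) (.e (nat_lit 7936) (nat_lit 357) .nil))))))) (.g (nat_lit 1) (.e (nat_lit 68325) (nat_lit 0) .nil) .nil))) 
(.lf (nat_lit 463730) (.g (nat_lit 3037) (.e (nat_lit 3090) (nat_lit 191) (.e (nat_lit 483380) (nat_lit 23) (.e (nat_lit 336265) (nat_lit 15) (.e (nat_lit 3632) (nat_lit 227) (.e (nat_lit 778323) (nat_lit 5) (.e (nat_lit 73781) (nat_lit 32) .nil)))))) (.g (nat_lit 1) (.e (nat_lit 71450) (nat_lit 0) .nil) .nil))))) (.nd (nat_lit 8) (.nd (nat_lit 9) 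
(.lf (nat_lit 463090) (.g (nat_lit 4756) (.e (nat_lit 3067) (nat_lit 190) (.e (nat_lit 475183) (nat_lit 29) (.e (nat_lit 557097) (nat_lit 13) (.e (nat_lit 172115) (nat_lit 10) (.e (nat_lit 434231) (nat_lit 23) (.e (nat_lit 532490) (nat_lit 0) (.e (nat_lit 6680) (nat_lit 357) .nil))))))) (.g (nat_lit 1) (.e (nat_lit 68105) (nat_lit 0) .nil) .nil))) 
(.lf (nat_lit 463602) (.g (nat_lit 3167) (.e (nat_lit 3088) (nat_lit 191) (.e (nat_lit 483413) (nat_lit 27) (.e (nat_lit 401435) (nat_lit 9) (.e (nat_lit 426533) (nat_lit 28) (.e (nat_lit 344069) (nat_lit 0) .nil))))) (.g (nat_lit 1) (.e (nat_lit 70166) (nat_lit 0) .nil) .nil)))) (.nd (nat_lit 9) 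
(.lf (nat_lit 463346) (.g (nat_lit 1209) (.e (nat_lit 3076) (nat_lit 191) (.e (nat_lit 483380) (nat_lit 23) (.e (nat_lit 336332) (nat_lit 19) .nil))) (.g (nat_lit 0) (.e (nat_lit 68605) (nat_lit 0) .nil) .nil))) 
(.lf (nat_lit 463858) (.g (nat_lit 3080) (.e (nat_lit 3095) (nat_lit 192) (.e (nat_lit 491569) (nat_lit 13) (.e (nat_lit 393301) (nat_lit 27) (.e (nat_lit 491558) (nat_lit 10) (.e (nat_lit 344091) (nat_lit 18) .nil))))) (.g (nat_lit 0) (.e (nat_lit 72411) (nat_lit 0) .nil) .nil))))))))) (.nd (nat_lit 4) (.nd (nat_lit 5) (.nd (nat_lit 6) (.nd (nat_lit 7) (.nd (nat_lit 8) (.nd (nat_lit 9) 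
(.lf (nat_lit 462858) (.g (nat_lit 2438) (.e (nat_lit 3063) (nat_lit 190) (.e (nat_lit 475185) (nat_lit 29) (.e (nat_lit 557100) (nat_lit 13) (.e (nat_lit 172106) (nat_lit 10) (.e (nat_lit 434227) (nat_lit 20) (.e (nat_lit 507928) (nat_lit 10) (.e (nat_lit 5615) (nat_lit 312) .nil))))))) (.g (nat_lit 1) (.e (nat_lit 67596) (nat_lit 0) .nil) .nil))) 
(.lf (nat_lit 463370) (.g (nat_lit 1575) (.e (nat_lit 3077) (nat_lit 191) (.e (nat_lit 483407) (nat_lit 26) (.e (nat_lit 385094) (nat_lit 49) (.e (nat_lit 778324) (nat_lit 5) (.e (nat_lit 81664) (nat_lit 32) .nil))))) (.g (nat_lit 1) (.e (nat_lit 68669) (nat_lit 0) .nil) .nil)))) (.nd (nat_lit 9) 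
(.lf (nat_lit 463114) (.g (nat_lit 3971) (.e (nat_lit 3067) (nat_lit 190) (.e (nat_lit 475183) (nat_lit 29) (.e (nat_lit 557108) (nat_lit 15) (.e (nat_lit 188452) (nat_lit 23) (.e (nat_lit 204821) (nat_lit 17) (.e (nat_lit 6680) (nat_lit 357) .nil)))))) (.g (nat_lit 1) (.e (nat_lit 68129) (nat_lit 0) .nil) .nil))) 
(.lf (nat_lit 463626) (.g (nat_lit 2384) (.e (nat_lit 3089) (nat_lit 191) (.e (nat_lit 483383) (nat_lit 23) (.e (nat_lit 336263) (nat_lit 15) (.e (nat_lit 3631) (nat_lit 227) (.e (nat_lit 778323) (nat_lit 5) (.e (nat_lit 73782) (nat_lit 32) .nil)))))) (.g (nat_lit 1) (.e (nat_lit 70880) (nat_lit 0) .nil) .nil))))) (.nd (nat_lit 8) (.nd (nat_lit 9) 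
(.lf (nat_lit 462986) (.g (nat_lit 3786) (.e (nat_lit 3066) (nat_lit 190) (.e (nat_lit 475185) (nat_lit 29) (.e (nat_lit 557101) (nat_lit 13) (.e (nat_lit 172097) (nat_lit 9) (.e (nat_lit 426125) (nat_lit 2) (.e (nat_lit 196661) (nat_lit 12) (.e (nat_lit 57750) (nat_lit 201) .nil))))))) (.g (nat_lit 1) (.e (nat_lit 67850) (nat_lit 0) .nil) .nil))) 
(.lf (nat_lit 463498) (.g (nat_lit 2055) (.e (nat_lit 3087) (nat_lit 191) (.e (nat_lit 483403) (nat_lit 26) (.e (nat_lit 385093) (nat_lit 49) (.e (nat_lit 778323) (nat_lit 5) (.e (nat_lit 73781) (nat_lit 32) .nil))))) (.g (nat_lit 1) (.e (nat_lit 69688) (nat_lit 0) .nil) .nil)))) (.nd (nat_lit 9) 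
(.lf (nat_lit 463242) (.g (nat_lit 2808) (.e (nat_lit 3071) (nat_lit 190) (.e (nat_lit 475179) (nat_lit 24) (.e (nat_lit 516146) (nat_lit 9) (.e (nat_lit 426438) (nat_lit 18) (.e (nat_lit 98358) (nat_lit 26) .nil))))) (.g (nat_lit 0) (.e (nat_lit 68365) (nat_lit 0) .nil) .nil))) 
(.lf (nat_lit 463754) (.g (nat_lit 3606) (.e (nat_lit 3090) (nat_lit 191) (.e (nat_lit 483386) (nat_lit 23) (.e (nat_lit 336282) (nat_lit 15) (.e (nat_lit 3632) (nat_lit 227) (.e (nat_lit 778323) (nat_lit 5) (.e (nat_lit 73781) (nat_lit 32) .nil)))))) (.g (nat_lit 1) (.e (nat_lit 71489) (nat_lit 0) .nil) .nil)))))) (.nd (nat_lit 7) (.nd (nat_lit 8) (.nd (nat_lit 9) 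
(.lf (nat_lit 462922) (.g (nat_lit 2310) (.e (nat_lit 3065) (nat_lit 190) (.e (nat_lit 475184) (nat_lit 29) (.e (nat_lit 557101) (nat_lit 13) (.e (nat_lit 172097) (nat_lit 9) (.e (nat_lit 426125) (nat_lit 2) (.e (nat_lit 196661) (nat_lit 12) (.e (nat_lit 57750) (nat_lit 201) .nil))))))) (.g (nat_lit 1) (.e (nat_lit 67752) (nat_lit 0) .nil) .nil))) 
(.lf (nat_lit 463434) (.g (nat_lit 616) (.e (nat_lit 3085) (nat_lit 191) (.e (nat_lit 483413) (nat_lit 27) (.e (nat_lit 401446) (nat_lit 10) .nil))) (.g (nat_lit 0) (.e (nat_lit 69353) (nat_lit 0) .nil) .nil)))) (.nd (nat_lit 9) 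
(.lf (nat_lit 463178) (.g (nat_lit 2367) (.e (nat_lit 3067) (nat_lit 190) (.e (nat_lit 475185) (nat_lit 29) (.e (nat_lit 557109) (nat_lit 15) (.e (nat_lit 188450) (nat_lit 23) (.e (nat_lit 204819) (nat_lit 17) (.e (nat_lit 6666) (nat_lit 357) .nil)))))) (.g (nat_lit 1) (.e (nat_lit 68197) (nat_lit 0) .nil) .nil))) 
(.lf (nat_lit 463690) (.g (nat_lit 1798) (.e (nat_lit 3090) (nat_lit 191) (.e (nat_lit 483354) (nat_lit 17) (.e (nat_lit 6114) (nat_lit 332) (.e (nat_lit 1378) (nat_lit 104) (.e (nat_lit 303154) (nat_lit 28) (.e (nat_lit 344069) (nat_lit 0) .nil)))))) (.g (nat_lit 1) (.e (nat_lit 71132) (nat_lit 0) .nil) .nil))))) (.nd (nat_lit 8) (.nd (nat_lit 9) 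
(.lf (nat_lit 463050) (.g (nat_lit 3016) (.e (nat_lit 3067) (nat_lit 190) (.e (nat_lit 475179) (nat_lit 24) (.e (nat_lit 516117) (nat_lit 1) (.e (nat_lit 164329) (nat_lit 230) (.e (nat_lit 163941) (nat_lit 19) .nil))))) (.g (nat_lit 0) (.e (nat_lit 67985) (nat_lit 0) .nil) .nil))) 
(.lf (nat_lit 463562) (.g (nat_lit 1974) (.e (nat_lit 3088) (nat_lit 191) (.e (nat_lit 483402) (nat_lit 26) (.e (nat_lit 385092) (nat_lit 49) (.e (nat_lit 778323) (nat_lit 5) (.e (nat_lit 73782) (nat_lit 32) .nil))))) (.g (nat_lit 1) (.e (nat_lit 70035) (nat_lit 0) .nil) .nil)))) (.nd (nat_lit 9) 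
(.lf (nat_lit 463306) (.g (nat_lit 4081) (.e (nat_lit 3071) (nat_lit 190) (.e (nat_lit 475185) (nat_lit 29) (.e (nat_lit 557108) (nat_lit 15) (.e (nat_lit 188452) (nat_lit 23) (.e (nat_lit 204816) (nat_lit 17) (.e (nat_lit 6617) (nat_lit 357) .nil)))))) (.g (nat_lit 1) (.e (nat_lit 68448) (nat_lit 0) .nil) .nil))) 
(.lf (nat_lit 463818) (.g (nat_lit 1212) (.e (nat_lit 3094) (nat_lit 191) (.e (nat_lit 483380) (nat_lit 23) (.e (nat_lit 336332) (nat_lit 19) .nil))) (.g (nat_lit 0) (.e (nat_lit 72060) (nat_lit 0) .nil) .nil))))))) (.nd (nat_lit 6) (.nd (nat_lit 7) (.nd (nat_lit 8) (.nd (nat_lit 9) 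
(.lf (nat_lit 462890) (.g (nat_lit 1528) (.e (nat_lit 3064) (nat_lit 190) (.e (nat_lit 475183) (nat_lit 29) (.e (nat_lit 557100) (nat_lit 13) (.e (nat_lit 172106) (nat_lit 10) (.e (nat_lit 434231) (nat_lit 23) .nil))))) (.g (nat_lit 0) (.e (nat_lit 67682) (nat_lit 0) .nil) .nil))) 
(.lf (nat_lit 463402) (.g (nat_lit 1669) (.e (nat_lit 3084) (nat_lit 191) (.e (nat_lit 483409) (nat_lit 27) (.e (nat_lit 401459) (nat_lit 13) (.e (nat_lit 483343) (nat_lit 17) .nil)))) (.g (nat_lit 0) (.e (nat_lit 68960) (nat_lit 0) .nil) .nil)))) (.nd (nat_lit 9) 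
(.lf (nat_lit 463146) (.g (nat_lit 4705) (.e (nat_lit 3067) (nat_lit 190) (.e (nat_lit 475185) (nat_lit 29) (.e (nat_lit 557098) (nat_lit 13) (.e (nat_lit 172097) (nat_lit 9) (.e (nat_lit 426140) (nat_lit 3) (.e (nat_lit 204821) (nat_lit 17) (.e (nat_lit 6680) (nat_lit 357) .nil))))))) (.g (nat_lit 1) (.e (nat_lit 68164) (nat_lit 0) .nil) .nil))) 
(.lf (nat_lit 463658) (.g (nat_lit 2246) (.e (nat_lit 3089) (nat_lit 191) (.e (nat_lit 483396) (nat_lit 24) (.e (nat_lit 344169) (nat_lit 40) (.e (nat_lit 671763) (nat_lit 5) (.e (nat_lit 73782) (nat_lit 32) .nil))))) (.g (nat_lit 1) (.e (nat_lit 70917) (nat_lit 0) .nil) .nil))))) (.nd (nat_lit 8) (.nd (nat_lit 9) 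
(.lf (nat_lit 463018) (.g (nat_lit 2739) (.e (nat_lit 3067) (nat_lit 190) (.e (nat_lit 483072) (nat_lit 26) (.e (nat_lit 532544) (nat_lit 10) (.e (nat_lit 344130) (nat_lit 26) (.e (nat_lit 557104) (nat_lit 14) (.e (nat_lit 180252) (nat_lit 10) (.e (nat_lit 573441) (nat_lit 0) .nil))))))) (.g (nat_lit 1) (.e (nat_lit 67897) (nat_lit 0) .nil) .nil))) 
(.lf (nat_lit 463530) (.g (nat_lit 1629) (.e (nat_lit 3088) (nat_lit 191) (.e (nat_lit 483383) (nat_lit 23) (.e (nat_lit 336000) (nat_lit 1) (.e (nat_lit 57871) (nat_lit 264) (.e (nat_lit 1209) (nat_lit 89) .nil))))) (.g (nat_lit 0) (.e (nat_lit 70000) (nat_lit 0) .nil) .nil)))) (.nd (nat_lit 9) 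
(.lf (nat_lit 463274) (.g (nat_lit 2011) (.e (nat_lit 3071) (nat_lit 190) (.e (nat_lit 475185) (nat_lit 29) (.e (nat_lit 557100) (nat_lit 13) (.e (nat_lit 172113) (nat_lit 10) (.e (nat_lit 434245) (nat_lit 28) .nil))))) (.g (nat_lit 0) (.e (nat_lit 68416) (nat_lit 0) .nil) .nil))) 
(.lf (nat_lit 463786) (.g (nat_lit 1503) (.e (nat_lit 3090) (nat_lit 191) (.e (nat_lit 483406) (nat_lit 26) (.e (nat_lit 385096) (nat_lit 49) (.e (nat_lit 786176) (nat_lit 5) .nil)))) (.g (nat_lit 0) (.e (nat_lit 71541) (nat_lit 0) .nil) .nil)))))) (.nd (nat_lit 7) (.nd (nat_lit 8) (.nd (nat_lit 9) 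
(.lf (nat_lit 462954) (.g (nat_lit 2334) (.e (nat_lit 3066) (nat_lit 190) (.e (nat_lit 475183) (nat_lit 29) (.e (nat_lit 557097) (nat_lit 13) (.e (nat_lit 172097) (nat_lit 9) (.e (nat_lit 426140) (nat_lit 3) (.e (nat_lit 204821) (nat_lit 17) (.e (nat_lit 6676) (nat_lit 357) .nil))))))) (.g (nat_lit 1) (.e (nat_lit 67816) (nat_lit 0) .nil) .nil))) 
(.lf (nat_lit 463466) (.g (nat_lit 1983) (.e (nat_lit 3087) (nat_lit 191) (.e (nat_lit 483383) (nat_lit 23) (.e (nat_lit 336240) (nat_lit 15) (.e (nat_lit 3626) (nat_lit 227) .nil)))) (.g (nat_lit 0) (.e (nat_lit 69654) (nat_lit 0) .nil) .nil)))) (.nd (nat_lit 9) 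
(.lf (nat_lit 463210) (.g (nat_lit 3716) (.e (nat_lit 3070) (nat_lit 190) (.e (nat_lit 475185) (nat_lit 29) (.e (nat_lit 557100) (nat_lit 13) (.e (nat_lit 172106) (nat_lit 10) (.e (nat_lit 434231) (nat_lit 23) (.e (nat_lit 532483) (nat_lit 0) (.e (nat_lit 7936) (nat_lit 357) .nil))))))) (.g (nat_lit 1) (.e (nat_lit 68317) (nat_lit 0) .nil) .nil))) 
(.lf (nat_lit 463722) (.g (nat_lit 2642) (.e (nat_lit 3090) (nat_lit 191) (.e (nat_lit 483378) (nat_lit 23) (.e (nat_lit 336295) (nat_lit 15) (.e (nat_lit 3632) (nat_lit 227) (.e (nat_lit 778323) (nat_lit 5) .nil))))) (.g (nat_lit 0) (.e (nat_lit 71442) (nat_lit 0) .nil) .nil))))) (.nd (nat_lit 8) (.nd (nat_lit 9) 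
(.lf (nat_lit 463082) (.g (nat_lit 2360) (.e (nat_lit 3067) (nat_lit 190) (.e (nat_lit 475179) (nat_lit 24) (.e (nat_lit 516176) (nat_lit 14) (.e (nat_lit 466954) (nat_lit 11) (.e (nat_lit 335986) (nat_lit 1) (.e (nat_lit 57657) (nat_lit 152) (.e (nat_lit 2519) (nat_lit 157) .nil))))))) (.g (nat_lit 1) (.e (nat_lit 68092) (nat_lit 0) .nil) .nil))) 
(.lf (nat_lit 463594) (.g (nat_lit 2720) (.e (nat_lit 3088) (nat_lit 191) (.e (nat_lit 483412) (nat_lit 27) (.e (nat_lit 401436) (nat_lit 9) (.e (nat_lit 426533) (nat_lit 28) (.e (nat_lit 344068) (nat_lit 0) .nil))))) (.g (nat_lit 1) (.e (nat_lit 70098) (nat_lit 0) .nil) .nil)))) (.nd (nat_lit 9) 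
(.lf (nat_lit 463338) (.g (nat_lit 843) (.e (nat_lit 3074) (nat_lit 190) (.e (nat_lit 475179) (nat_lit 24) (.e (nat_lit 516146) (nat_lit 9) .nil))) (.g (nat_lit 0) (.e (nat_lit 68549) (nat_lit 0) .nil) .nil))) 
(.lf (nat_lit 463850) (.g (nat_lit 2287) (.e (nat_lit 3095) (nat_lit 192) (.e (nat_lit 491566) (nat_lit 12) (.e (nat_lit 385074) (nat_lit 31) (.e (nat_lit 573482) (nat_lit 13) .nil)))) (.g (nat_lit 0) (.e (nat_lit 72400) (nat_lit 0) .nil) .nil)))))))) (.nd (nat_lit 5) (.nd (nat_lit 6) (.nd (nat_lit 7) (.nd (nat_lit 8) (.nd (nat_lit 9) 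
(.lf (nat_lit 462874) (.g (nat_lit 3159) (.e (nat_lit 3063) (nat_lit 190) (.e (nat_lit 475185) (nat_lit 29) (.e (nat_lit 557101) (nat_lit 13) (.e (nat_lit 172097) (nat_lit 9) (.e (nat_lit 426125) (nat_lit 2) (.e (nat_lit 196661) (nat_lit 12) (.e (nat_lit 65280) (nat_lit 201) .nil))))))) (.g (nat_lit 1) (.e (nat_lit 67612) (nat_lit 0) .nil) .nil))) 
(.lf (nat_lit 463386) (.g (nat_lit 2040) (.e (nat_lit 3080) (nat_lit 191) (.e (nat_lit 483403) (nat_lit 26) (.e (nat_lit 385094) (nat_lit 49) (.e (nat_lit 778323) (nat_lit 5) (.e (nat_lit 81664) (nat_lit 32) .nil))))) (.g (nat_lit 1) (.e (nat_lit 68859) (nat_lit 0) .nil) .nil)))) (.nd (nat_lit 9) 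
(.lf (nat_lit 463130) (.g (nat_lit 3327) (.e (nat_lit 3067) (nat_lit 190) (.e (nat_lit 475184) (nat_lit 29) (.e (nat_lit 557109) (nat_lit 15) (.e (nat_lit 188447) (nat_lit 22) (.e (nat_lit 196661) (nat_lit 12) (.e (nat_lit 57751) (nat_lit 201) .nil)))))) (.g (nat_lit 1) (.e (nat_lit 68145) (nat_lit 0) .nil) .nil))) 
(.lf (nat_lit 463642) (.g (nat_lit 2160) (.e (nat_lit 3089) (nat_lit 191) (.e (nat_lit 483386) (nat_lit 23) (.e (nat_lit 336282) (nat_lit 15) (.e (nat_lit 3632) (nat_lit 227) (.e (nat_lit 778323) (nat_lit 5) (.e (nat_lit 73782) (nat_lit 32) .nil)))))) (.g (nat_lit 1) (.e (nat_lit 70899) (nat_lit 0) .nil) .nil))))) (.nd (nat_lit 8) (.nd (nat_lit 9) 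
(.lf (nat_lit 463002) (.g (nat_lit 3493) (.e (nat_lit 3066) (nat_lit 190) (.e (nat_lit 475185) (nat_lit 29) (.e (nat_lit 557109) (nat_lit 15) (.e (nat_lit 188452) (nat_lit 23) (.e (nat_lit 204821) (nat_lit 17) (.e (nat_lit 6676) (nat_lit 357) .nil)))))) (.g (nat_lit 1) (.e (nat_lit 67866) (nat_lit 0) .nil) .nil))) 
(.lf (nat_lit 463514) (.g (nat_lit 1696) (.e (nat_lit 3087) (nat_lit 191) (.e (nat_lit 483406) (nat_lit 26) (.e (nat_lit 385093) (nat_lit 49) (.e (nat_lit 778324) (nat_lit 5) .nil)))) (.g (nat_lit 0) (.e (nat_lit 69707) (nat_lit 0) .nil) .nil)))) (.nd (nat_lit 9) 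
(.lf (nat_lit 463258) (.g (nat_lit 3406) (.e (nat_lit 3071) (nat_lit 190) (.e (nat_lit 475185) (nat_lit 29) (.e (nat_lit 557098) (nat_lit 13) (.e (nat_lit 172097) (nat_lit 9) (.e (nat_lit 426140) (nat_lit 3) (.e (nat_lit 204821) (nat_lit 17) (.e (nat_lit 7936) (nat_lit 357) .nil))))))) (.g (nat_lit 1) (.e (nat_lit 68400) (nat_lit 0) .nil) .nil))) 
(.lf (nat_lit 463770) (.g (nat_lit 2743) (.e (nat_lit 3090) (nat_lit 191) (.e (nat_lit 483403) (nat_lit 26) (.e (nat_lit 385092) (nat_lit 49) (.e (nat_lit 778323) (nat_lit 5) (.e (nat_lit 73781) (nat_lit 32) .nil))))) (.g (nat_lit 1) (.e (nat_lit 71517) (nat_lit 0) .nil) .nil)))))) (.nd (nat_lit 7) (.nd (nat_lit 8) (.nd (nat_lit 9) 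
(.lf (nat_lit 462938) (.g (nat_lit 1683) (.e (nat_lit 3065) (nat_lit 190) (.e (nat_lit 475185) (nat_lit 29) (.e (nat_lit 557101) (nat_lit 13) (.e (nat_lit 172115) (nat_lit 10) (.e (nat_lit 434231) (nat_lit 23) (.e (nat_lit 532482) (nat_lit 0) (.e (nat_lit 6642) (nat_lit 357) .nil))))))) (.g (nat_lit 1) (.e (nat_lit 67768) (nat_lit 0) .nil) .nil))) 
(.lf (nat_lit 463450) (.g (nat_lit 1964) (.e (nat_lit 3085) (nat_lit 191) (.e (nat_lit 483413) (nat_lit 27) (.e (nat_lit 401448) (nat_lit 10) (.e (nat_lit 434203) (nat_lit 18) .nil)))) (.g (nat_lit 0) (.e (nat_lit 69445) (nat_lit 0) .nil) .nil)))) (.nd (nat_lit 9) 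
(.lf (nat_lit 463194) (.g (nat_lit 3563) (.e (nat_lit 3068) (nat_lit 190) (.e (nat_lit 475185) (nat_lit 29) (.e (nat_lit 557101) (nat_lit 13) (.e (nat_lit 172115) (nat_lit 10) (.e (nat_lit 434231) (nat_lit 23) (.e (nat_lit 532490) (nat_lit 0) (.e (nat_lit 7936) (nat_lit 357) .nil))))))) (.g (nat_lit 1) (.e (nat_lit 68276) (nat_lit 0) .nil) .nil))) 
(.lf (nat_lit 463706) (.g (nat_lit 2791) (.e (nat_lit 3090) (nat_lit 191) (.e (nat_lit 483364) (nat_lit 18) (.e (nat_lit 57921) (nat_lit 280) (.e (nat_lit 57379) (nat_lit 3) (.e (nat_lit 98384) (nat_lit 32) (.e (nat_lit 475201) (nat_lit 40) (.e (nat_lit 704538) (nat_lit 0) .nil))))))) (.g (nat_lit 1) (.e (nat_lit 71250) (nat_lit 0) .nil) .nil))))) (.nd (nat_lit 8) (.nd (nat_lit 9) 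
(.lf (nat_lit 463066) (.g (nat_lit 1619) (.e (nat_lit 3067) (nat_lit 190) (.e (nat_lit 475179) (nat_lit 24) (.e (nat_lit 516120) (nat_lit 1) (.e (nat_lit 164332) (nat_lit 230) .nil)))) (.g (nat_lit 0) (.e (nat_lit 68043) (nat_lit 0) .nil) .nil))) 
(.lf (nat_lit 463578) (.g (nat_lit 3163) (.e (nat_lit 3088) (nat_lit 191) (.e (nat_lit 483406) (nat_lit 26) (.e (nat_lit 385093) (nat_lit 49) (.e (nat_lit 778323) (nat_lit 5) (.e (nat_lit 73782) (nat_lit 32) .nil))))) (.g (nat_lit 1) (.e (nat_lit 70056) (nat_lit 0) .nil) .nil)))) (.nd (nat_lit 9) 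
(.lf (nat_lit 463322) (.g (nat_lit 6286) (.e (nat_lit 3071) (nat_lit 190) (.e (nat_lit 475199) (nat_lit 40) (.e (nat_lit 704589) (nat_lit 3) (.e (nat_lit 163978) (nat_lit 30) (.e (nat_lit 573485) (nat_lit 13) (.e (nat_lit 65604) (nat_lit 9) (.e (nat_lit 336013) (nat_lit 2) (.e (nat_lit 90134) (nat_lit 9) .nil)))))))) (.g (nat_lit 1) (.e (nat_lit 68508) (nat_lit 0) .nil) .nil))) 
(.lf (nat_lit 463834) (.g (nat_lit 1128) (.e (nat_lit 3094) (nat_lit 191) (.e (nat_lit 483405) (nat_lit 26) (.e (nat_lit 385100) (nat_lit 49) (.e (nat_lit 778322) (nat_lit 5) (.e (nat_lit 81664) (nat_lit 32) .nil))))) (.g (nat_lit 1) (.e (nat_lit 72087) (nat_lit 0) .nil) .nil))))))) (.nd (nat_lit 6) (.nd (nat_lit 7) (.nd (nat_lit 8) (.nd (nat_lit 9) 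
(.lf (nat_lit 462906) (.g (nat_lit 3870) (.e (nat_lit 3064) (nat_lit 190) (.e (nat_lit 475185) (nat_lit 29) (.e (nat_lit 557098) (nat_lit 13) (.e (nat_lit 172097) (nat_lit 9) (.e (nat_lit 426125) (nat_lit 2) (.e (nat_lit 196661) (nat_lit 12) (.e (nat_lit 57751) (nat_lit 201) .nil))))))) (.g (nat_lit 1) (.e (nat_lit 67698) (nat_lit 0) .nil) .nil))) 
(.lf (nat_lit 463418) (.g (nat_lit 3516) (.e (nat_lit 3085) (nat_lit 191) (.e (nat_lit 483387) (nat_lit 23) (.e (nat_lit 336032) (nat_lit 4) (.e (nat_lit 123195) (nat_lit 266) (.e (nat_lit 57400) (nat_lit 10) (.e (nat_lit 319490) (nat_lit 0) (.e (nat_lit 5664) (nat_lit 312) .nil))))))) (.g (nat_lit 1) (.e (nat_lit 69138) (nat_lit 0) .nil) .nil)))) (.nd (nat_lit 9) 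
(.lf (nat_lit 463162) (.g (nat_lit 2161) (.e (nat_lit 3067) (nat_lit 190) (.e (nat_lit 475185) (nat_lit 29) (.e (nat_lit 557101) (nat_lit 13) (.e (nat_lit 172115) (nat_lit 10) (.e (nat_lit 434231) (nat_lit 23) (.e (nat_lit 532490) (nat_lit 0) (.e (nat_lit 7936) (nat_lit 357) .nil))))))) (.g (nat_lit 1) (.e (nat_lit 68180) (nat_lit 0) .nil) .nil))) 
(.lf (nat_lit 463674) (.g (nat_lit 1982) (.e (nat_lit 3089) (nat_lit 191) (.e (nat_lit 483410) (nat_lit 27) (.e (nat_lit 401436) (nat_lit 9) (.e (nat_lit 426533) (nat_lit 28) (.e (nat_lit 344068) (nat_lit 0) .nil))))) (.g (nat_lit 1) (.e (nat_lit 70962) (nat_lit 0) .nil) .nil))))) (.nd (nat_lit 8) (.nd (nat_lit 9) 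
(.lf (nat_lit 463034) (.g (nat_lit 1999) (.e (nat_lit 3067) (nat_lit 190) (.e (nat_lit 475177) (nat_lit 24) (.e (nat_lit 516174) (nat_lit 14) (.e (nat_lit 466954) (nat_lit 11) (.e (nat_lit 335986) (nat_lit 1) (.e (nat_lit 57657) (nat_lit 152) (.e (nat_lit 2497) (nat_lit 157) .nil))))))) (.g (nat_lit 1) (.e (nat_lit 67928) (nat_lit 0) .nil) .nil))) 
(.lf (nat_lit 463546) (.g (nat_lit 2735) (.e (nat_lit 3088) (nat_lit 191) (.e (nat_lit 483391) (nat_lit 23) (.e (nat_lit 336300) (nat_lit 15) (.e (nat_lit 3632) (nat_lit 227) (.e (nat_lit 778323) (nat_lit 5) (.e (nat_lit 73782) (nat_lit 32) .nil)))))) (.g (nat_lit 1) (.e (nat_lit 70017) (nat_lit 0) .nil) .nil)))) (.nd (nat_lit 9) 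
(.lf (nat_lit 463290) (.g (nat_lit 2416) (.e (nat_lit 3071) (nat_lit 190) (.e (nat_lit 475185) (nat_lit 29) (.e (nat_lit 557101) (nat_lit 13) (.e (nat_lit 172115) (nat_lit 10) (.e (nat_lit 434227) (nat_lit 20) (.e (nat_lit 507930) (nat_lit 10) (.e (nat_lit 5615) (nat_lit 312) .nil))))))) (.g (nat_lit 1) (.e (nat_lit 68432) (nat_lit 0) .nil) .nil))) 
(.lf (nat_lit 463802) (.g (nat_lit 2216) (.e (nat_lit 3092) (nat_lit 191) (.e (nat_lit 483383) (nat_lit 23) (.e (nat_lit 336000) (nat_lit 1) (.e (nat_lit 57873) (nat_lit 264) (.e (nat_lit 1209) (nat_lit 89) .nil))))) (.g (nat_lit 0) (.e (nat_lit 71720) (nat_lit 0) .nil) .nil)))))) (.nd (nat_lit 7) (.nd (nat_lit 8) (.nd (nat_lit 9) 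
(.lf (nat_lit 462970) (.g (nat_lit 2985) (.e (nat_lit 3066) (nat_lit 190) (.e (nat_lit 475184) (nat_lit 29) (.e (nat_lit 557101) (nat_lit 13) (.e (nat_lit 172097) (nat_lit 9) (.e (nat_lit 426140) (nat_lit 3) (.e (nat_lit 204821) (nat_lit 17) (.e (nat_lit 6676) (nat_lit 357) .nil))))))) (.g (nat_lit 1) (.e (nat_lit 67832) (nat_lit 0) .nil) .nil))) 
(.lf (nat_lit 463482) (.g (nat_lit 1763) (.e (nat_lit 3087) (nat_lit 191) (.e (nat_lit 483393) (nat_lit 23) (.e (nat_lit 335986) (nat_lit 1) (.e (nat_lit 57873) (nat_lit 264) (.e (nat_lit 1210) (nat_lit 89) .nil))))) (.g (nat_lit 0) (.e (nat_lit 69671) (nat_lit 0) .nil) .nil)))) (.nd (nat_lit 9) 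
(.lf (nat_lit 463226) (.g (nat_lit 3263) (.e (nat_lit 3070) (nat_lit 190) (.e (nat_lit 475185) (nat_lit 29) (.e (nat_lit 557109) (nat_lit 15) (.e (nat_lit 188450) (nat_lit 23) (.e (nat_lit 204819) (nat_lit 17) .nil))))) (.g (nat_lit 0) (.e (nat_lit 68333) (nat_lit 0) .nil) .nil))) 
(.lf (nat_lit 463738) (.g (nat_lit 3478) (.e (nat_lit 3090) (nat_lit 191) (.e (nat_lit 483380) (nat_lit 23) (.e (nat_lit 336301) (nat_lit 15) (.e (nat_lit 3631) (nat_lit 227) (.e (nat_lit 778323) (nat_lit 5) (.e (nat_lit 73782) (nat_lit 32) .nil)))))) (.g (nat_lit 1) (.e (nat_lit 71458) (nat_lit 0) .nil) .nil))))) (.nd (nat_lit 8) (.nd (nat_lit 9) 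
(.lf (nat_lit 463098) (.g (nat_lit 4006) (.e (nat_lit 3067) (nat_lit 190) (.e (nat_lit 475183) (nat_lit 29) (.e (nat_lit 557101) (nat_lit 13) (.e (nat_lit 172097) (nat_lit 9) (.e (nat_lit 426125) (nat_lit 2) (.e (nat_lit 196661) (nat_lit 12) (.e (nat_lit 57751) (nat_lit 201) .nil))))))) (.g (nat_lit 1) (.e (nat_lit 68113) (nat_lit 0) .nil) .nil))) 
(.lf (nat_lit 463610) (.g (nat_lit 1524) (.e (nat_lit 3089) (nat_lit 191) (.e (nat_lit 483350) (nat_lit 17) (.e (nat_lit 6113) (nat_lit 332) (.e (nat_lit 1376) (nat_lit 104) (.e (nat_lit 303154) (nat_lit 28) .nil))))) (.g (nat_lit 0) (.e (nat_lit 70800) (nat_lit 0) .nil) .nil)))) (.nd (nat_lit 9) 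
(.lf (nat_lit 463354) (.g (nat_lit 2158) (.e (nat_lit 3076) (nat_lit 191) (.e (nat_lit 483408) (nat_lit 26) (.e (nat_lit 385093) (nat_lit 49) (.e (nat_lit 778323) (nat_lit 5) (.e (nat_lit 81664) (nat_lit 32) .nil))))) (.g (nat_lit 0) (.e (nat_lit 68615) (nat_lit 0) .nil) .nil))) 
(.lf (nat_lit 463866) (.g (nat_lit 3393) (.e (nat_lit 3096) (nat_lit 192) (.e (nat_lit 491537) (nat_lit 2) (.e (nat_lit 90170) (nat_lit 13) (.e (nat_lit 172106) (nat_lit 10) (.e (nat_lit 434231) (nat_lit 23) (.e (nat_lit 532481) (nat_lit 0) (.e (nat_lit 6643) (nat_lit 357) .nil))))))) (.g (nat_lit 1) (.e (nat_lit 72423) (nat_lit 0) .nil) .nil)))))))))) 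
(.nd (nat_lit 3) (.nd (nat_lit 4) (.nd (nat_lit 5) (.nd (nat_lit 6) (.nd (nat_lit 7) 
(.nd (nat_lit 8) (.nd (nat_lit 9) 
(.lf (nat_lit 462854) (.g (nat_lit 1069) (.e (nat_lit 3062) (nat_lit 190) (.e (nat_lit 475214) (nat_lit 42) (.e (nat_lit 720954) (nat_lit 25) .nil))) (.g (nat_lit 0) (.e (nat_lit 67550) (nat_lit 0) .nil) .nil))) 
(.lf (nat_lit 463366) (.g (nat_lit 1945) (.e (nat_lit 3077) (nat_lit 191) (.e (nat_lit 483406) (nat_lit 26) (.e (nat_lit 385094) (nat_lit 49) (.e (nat_lit 778324) (nat_lit 5) (.e (nat_lit 81664) (nat_lit 32) .nil))))) (.g (nat_lit 1) (.e (nat_lit 68658) (nat_lit 0) .nil) .nil)))) (.nd (nat_lit 9) 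
(.lf (nat_lit 463110) (.g (nat_lit 5117) (.e (nat_lit 3067) (nat_lit 190) (.e (nat_lit 475183) (nat_lit 29) (.e (nat_lit 557108) (nat_lit 15) (.e (nat_lit 188452) (nat_lit 23) (.e (nat_lit 204816) (nat_lit 17) .nil))))) (.g (nat_lit 0) (.e (nat_lit 68125) (nat_lit 0) .nil) .nil))) 
(.lf (nat_lit 463622) (.g (nat_lit 2914) (.e (nat_lit 3089) (nat_lit 191) (.e (nat_lit 483383) (nat_lit 23) (.e (nat_lit 336240) (nat_lit 15) (.e (nat_lit 3637) (nat_lit 227) (.e (nat_lit 778324) (nat_lit 5) (.e (nat_lit 73781) (nat_lit 32) .nil)))))) (.g (nat_lit 1) (.e (nat_lit 70874) (nat_lit 0) .nil) .nil))))) (.nd (nat_lit 8) (.nd (nat_lit 9) 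
(.lf (nat_lit 462982) (.g (nat_lit 4114) (.e (nat_lit 3066) (nat_lit 190) (.e (nat_lit 475185) (nat_lit 29) (.e (nat_lit 557098) (nat_lit 13) (.e (nat_lit 172097) (nat_lit 9) (.e (nat_lit 426140) (nat_lit 3) (.e (nat_lit 204821) (nat_lit 17) (.e (nat_lit 6676) (nat_lit 357) .nil))))))) (.g (nat_lit 1) (.e (nat_lit 67846) (nat_lit 0) .nil) .nil))) 
(.lf (nat_lit 463494) (.g (nat_lit 1587) (.e (nat_lit 3087) (nat_lit 191) (.e (nat_lit 483402) (nat_lit 26) (.e (nat_lit 385093) (nat_lit 49) (.e (nat_lit 778324) (nat_lit 5) (.e (nat_lit 73781) (nat_lit 32) .nil))))) (.g (nat_lit 1) (.e (nat_lit 69683) (nat_lit 0) .nil) .nil)))) (.nd (nat_lit 9) 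
(.lf (nat_lit 463238) (.g (nat_lit 3042) (.e (nat_lit 3071) (nat_lit 190) (.e (nat_lit 475179) (nat_lit 24) (.e (nat_lit 516146) (nat_lit 9) (.e (nat_lit 426436) (nat_lit 18) (.e (nat_lit 98356) (nat_lit 26) (.e (nat_lit 426428) (nat_lit 17) (.e (nat_lit 90130) (nat_lit 9) .nil))))))) (.g (nat_lit 1) (.e (nat_lit 68361) (nat_lit 0) .nil) .nil))) 
(.lf (nat_lit 463750) (.g (nat_lit 1299) (.e (nat_lit 3090) (nat_lit 191) (.e (nat_lit 483386) (nat_lit 23) (.e (nat_lit 335928) (nat_lit 0) (.e (nat_lit 2005) (nat_lit 138) (.e (nat_lit 671760) (nat_lit 4) (.e (nat_lit 65540) (nat_lit 0) (.e (nat_lit 6681) (nat_lit 357) .nil))))))) (.g (nat_lit 1) (.e (nat_lit 71485) (nat_lit 0) .nil) .nil)))))) (.nd (nat_lit 7) (.nd (nat_lit 8) (.nd (nat_lit 9) 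
(.lf (nat_lit 462918) (.g (nat_lit 2940) (.e (nat_lit 3064) (nat_lit 190) (.e (nat_lit 475185) (nat_lit 29) (.e (nat_lit 557107) (nat_lit 15) (.e (nat_lit 188450) (nat_lit 23) (.e (nat_lit 204821) (nat_lit 17) (.e (nat_lit 6676) (nat_lit 357) .nil)))))) (.g (nat_lit 1) (.e (nat_lit 67710) (nat_lit 0) .nil) .nil))) 
(.lf (nat_lit 463430) (.g (nat_lit 4517) (.e (nat_lit 3085) (nat_lit 191) (.e (nat_lit 483413) (nat_lit 27) (.e (nat_lit 401434) (nat_lit 9) (.e (nat_lit 426470) (nat_lit 25) (.e (nat_lit 319490) (nat_lit 0) (.e (nat_lit 5664) (nat_lit 312) .nil)))))) (.g (nat_lit 1) (.e (nat_lit 69325) (nat_lit 0) .nil) .nil)))) (.nd (nat_lit 9) 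
(.lf (nat_lit 463174) (.g (nat_lit 4297) (.e (nat_lit 3067) (nat_lit 190) (.e (nat_lit 475185) (nat_lit 29) (.e (nat_lit 557109) (nat_lit 15) (.e (nat_lit 188447) (nat_lit 22) (.e (nat_lit 196661) (nat_lit 12) (.e (nat_lit 57750) (nat_lit 201) .nil)))))) (.g (nat_lit 1) (.e (nat_lit 68193) (nat_lit 0) .nil) .nil))) 
(.lf (nat_lit 463686) (.g (nat_lit 2113) (.e (nat_lit 3090) (nat_lit 191) (.e (nat_lit 483350) (nat_lit 17) (.e (nat_lit 6651) (nat_lit 357) (.e (nat_lit 2856) (nat_lit 184) (.e (nat_lit 426533) (nat_lit 28) (.e (nat_lit 344069) (nat_lit 0) .nil)))))) (.g (nat_lit 1) (.e (nat_lit 71119) (nat_lit 0) .nil) .nil))))) (.nd (nat_lit 8) (.nd (nat_lit 9) 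
(.lf (nat_lit 463046) (.g (nat_lit 1192) (.e (nat_lit 3067) (nat_lit 190) (.e (nat_lit 475178) (nat_lit 24) (.e (nat_lit 516176) (nat_lit 14) (.e (nat_lit 466954) (nat_lit 11) .nil)))) (.g (nat_lit 0) (.e (nat_lit 67956) (nat_lit 0) .nil) .nil))) 
(.lf (nat_lit 463558) (.g (nat_lit 653) (.e (nat_lit 3088) (nat_lit 191) (.e (nat_lit 483395) (nat_lit 24) (.e (nat_lit 344167) (nat_lit 40) (.e (nat_lit 671763) (nat_lit 5) .nil)))) (.g (nat_lit 0) (.e (nat_lit 70029) (nat_lit 0) .nil) .nil)))) (.nd (nat_lit 9) 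
(.lf (nat_lit 463302) (.g (nat_lit 2387) (.e (nat_lit 3071) (nat_lit 190) (.e (nat_lit 475185) (nat_lit 29) (.e (nat_lit 557107) (nat_lit 15) (.e (nat_lit 188450) (nat_lit 23) (.e (nat_lit 204821) (nat_lit 17) (.e (nat_lit 7936) (nat_lit 357) .nil)))))) (.g (nat_lit 1) (.e (nat_lit 68444) (nat_lit 0) .nil) .nil))) 
(.lf (nat_lit 463814) (.g (nat_lit 2153) (.e (nat_lit 3092) (nat_lit 191) (.e (nat_lit 483406) (nat_lit 26) (.e (nat_lit 385093) (nat_lit 49) (.e (nat_lit 778323) (nat_lit 5) (.e (nat_lit 81664) (nat_lit 32) .nil))))) (.g (nat_lit 0) (.e (nat_lit 71745) (nat_lit 0) .nil) .nil))))))) (.nd (nat_lit 6) (.nd (nat_lit 7) (.nd (nat_lit 8) (.nd (nat_lit 9) 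
(.lf (nat_lit 462886) (.g (nat_lit 2998) (.e (nat_lit 3063) (nat_lit 190) (.e (nat_lit 475185) (nat_lit 29) (.e (nat_lit 557109) (nat_lit 15) (.e (nat_lit 188452) (nat_lit 23) (.e (nat_lit 204821) (nat_lit 17) .nil))))) (.g (nat_lit 0) (.e (nat_lit 67624) (nat_lit 0) .nil) .nil))) 
(.lf (nat_lit 463398) (.g (nat_lit 478) (.e (nat_lit 3083) (nat_lit 191) (.e (nat_lit 483405) (nat_lit 26) (.e (nat_lit 385091) (nat_lit 49) .nil))) (.g (nat_lit 0) (.e (nat_lit 68925) (nat_lit 0) .nil) .nil)))) (.nd (nat_lit 9) 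
(.lf (nat_lit 463142) (.g (nat_lit 2132) (.e (nat_lit 3067) (nat_lit 190) (.e (nat_lit 475185) (nat_lit 29) (.e (nat_lit 557098) (nat_lit 13) (.e (nat_lit 172097) (nat_lit 9) (.e (nat_lit 426125) (nat_lit 2) .nil))))) (.g (nat_lit 0) (.e (nat_lit 68160) (nat_lit 0) .nil) .nil))) 
(.lf (nat_lit 463654) (.g (nat_lit 680) (.e (nat_lit 3089) (nat_lit 191) (.e (nat_lit 483395) (nat_lit 24) (.e (nat_lit 344167) (nat_lit 40) (.e (nat_lit 671763) (nat_lit 5) .nil)))) (.g (nat_lit 0) (.e (nat_lit 70913) (nat_lit 0) .nil) .nil))))) (.nd (nat_lit 8) (.nd (nat_lit 9) 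
(.lf (nat_lit 463014) (.g (nat_lit 2393) (.e (nat_lit 3067) (nat_lit 190) (.e (nat_lit 483072) (nat_lit 26) (.e (nat_lit 532544) (nat_lit 10) (.e (nat_lit 344118) (nat_lit 21) (.e (nat_lit 516131) (nat_lit 3) (.e (nat_lit 221212) (nat_lit 22) (.e (nat_lit 196609) (nat_lit 0) .nil))))))) (.g (nat_lit 1) (.e (nat_lit 67893) (nat_lit 0) .nil) .nil))) 
(.lf (nat_lit 463526) (.g (nat_lit 2477) (.e (nat_lit 3088) (nat_lit 191) (.e (nat_lit 483350) (nat_lit 17) (.e (nat_lit 6113) (nat_lit 332) (.e (nat_lit 1374) (nat_lit 104) (.e (nat_lit 303154) (nat_lit 28) .nil))))) (.g (nat_lit 0) (.e (nat_lit 69971) (nat_lit 0) .nil) .nil)))) (.nd (nat_lit 9) 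
(.lf (nat_lit 463270) (.g (nat_lit 4133) (.e (nat_lit 3071) (nat_lit 190) (.e (nat_lit 475185) (nat_lit 29) (.e (nat_lit 557100) (nat_lit 13) (.e (nat_lit 172106) (nat_lit 10) (.e (nat_lit 434231) (nat_lit 23) (.e (nat_lit 532490) (nat_lit 0) (.e (nat_lit 7936) (nat_lit 357) .nil))))))) (.g (nat_lit 1) (.e (nat_lit 68412) (nat_lit 0) .nil) .nil))) 
(.lf (nat_lit 463782) (.g (nat_lit 2340) (.e (nat_lit 3090) (nat_lit 191) (.e (nat_lit 483406) (nat_lit 26) (.e (nat_lit 385092) (nat_lit 49) (.e (nat_lit 778323) (nat_lit 5) (.e (nat_lit 73782) (nat_lit 32) .nil))))) (.g (nat_lit 1) (.e (nat_lit 71537) (nat_lit 0) .nil) .nil)))))) (.nd (nat_lit 7) (.nd (nat_lit 8) (.nd (nat_lit 9) 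
(.lf (nat_lit 462950) (.g (nat_lit 2405) (.e (nat_lit 3065) (nat_lit 190) (.e (nat_lit 475185) (nat_lit 29) (.e (nat_lit 557109) (nat_lit 15) (.e (nat_lit 188452) (nat_lit 23) (.e (nat_lit 204821) (nat_lit 17) (.e (nat_lit 7936) (nat_lit 357) .nil)))))) (.g (nat_lit 1) (.e (nat_lit 67780) (nat_lit 0) .nil) .nil))) 
(.lf (nat_lit 463462) (.g (nat_lit 1529) (.e (nat_lit 3087) (nat_lit 191) (.e (nat_lit 483383) (nat_lit 23) (.e (nat_lit 336000) (nat_lit 1) (.e (nat_lit 57872) (nat_lit 264) .nil)))) (.g (nat_lit 0) (.e (nat_lit 69649) (nat_lit 0) .nil) .nil)))) (.nd (nat_lit 9) 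
(.lf (nat_lit 463206) (.g (nat_lit 1944) (.e (nat_lit 3070) (nat_lit 190) (.e (nat_lit 475177) (nat_lit 24) (.e (nat_lit 516176) (nat_lit 14) (.e (nat_lit 466954) (nat_lit 11) (.e (nat_lit 335988) (nat_lit 1) (.e (nat_lit 57665) (nat_lit 152) (.e (nat_lit 2466) (nat_lit 157) .nil))))))) (.g (nat_lit 1) (.e (nat_lit 68309) (nat_lit 0) .nil) .nil))) 
(.lf (nat_lit 463718) (.g (nat_lit 2984) (.e (nat_lit 3090) (nat_lit 191) (.e (nat_lit 483372) (nat_lit 21) (.e (nat_lit 319538) (nat_lit 19) (.e (nat_lit 311357) (nat_lit 28) (.e (nat_lit 344069) (nat_lit 0) .nil))))) (.g (nat_lit 1) (.e (nat_lit 71304) (nat_lit 0) .nil) .nil))))) (.nd (nat_lit 8) (.nd (nat_lit 9) 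
(.lf (nat_lit 463078) (.g (nat_lit 1730) (.e (nat_lit 3067) (nat_lit 190) (.e (nat_lit 475179) (nat_lit 24) (.e (nat_lit 516176) (nat_lit 14) (.e (nat_lit 466952) (nat_lit 11) .nil)))) (.g (nat_lit 0) (.e (nat_lit 68087) (nat_lit 0) .nil) .nil))) 
(.lf (nat_lit 463590) (.g (nat_lit 2442) (.e (nat_lit 3088) (nat_lit 191) (.e (nat_lit 483410) (nat_lit 27) (.e (nat_lit 401437) (nat_lit 9) (.e (nat_lit 426533) (nat_lit 28) (.e (nat_lit 344069) (nat_lit 0) .nil))))) (.g (nat_lit 1) (.e (nat_lit 70080) (nat_lit 0) .nil) .nil)))) (.nd (nat_lit 9) 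
(.lf (nat_lit 463334) (.g (nat_lit 2779) (.e (nat_lit 3073) (nat_lit 190) (.e (nat_lit 475185) (nat_lit 29) (.e (nat_lit 557109) (nat_lit 15) (.e (nat_lit 188449) (nat_lit 22) (.e (nat_lit 196661) (nat_lit 12) .nil))))) (.g (nat_lit 0) (.e (nat_lit 68540) (nat_lit 0) .nil) .nil))) 
(.lf (nat_lit 463846) (.g (nat_lit 2731) (.e (nat_lit 3095) (nat_lit 192) (.e (nat_lit 491566) (nat_lit 12) (.e (nat_lit 385072) (nat_lit 31) (.e (nat_lit 573492) (nat_lit 15) (.e (nat_lit 81953) (nat_lit 22) (.e (nat_lit 98048) (nat_lit 9) .nil)))))) (.g (nat_lit 1) (.e (nat_lit 72395) (nat_lit 0) .nil) .nil)))))))) 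
(.nd (nat_lit 5) (.nd (nat_lit 6) (.nd (nat_lit 7) (.nd (nat_lit 8) (.nd (nat_lit 9) 
(.lf (nat_lit 462870) (.g (nat_lit 3602) (.e (nat_lit 3063) (nat_lit 190) (.e (nat_lit 475185) (nat_lit 29) (.e (nat_lit 557100) (nat_lit 13) (.e (nat_lit 172113) (nat_lit 10) (.e (nat_lit 434245) (nat_lit 28) (.e (nat_lit 573474) (nat_lit 12) (.e (nat_lit 57566) (nat_lit 52) (.e (nat_lit 753674) (nat_lit 5) .nil)))))))) (.g (nat_lit 1) (.e (nat_lit 67608) (nat_lit 0) .nil) .nil))) 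
(.lf (nat_lit 463382) (.g (nat_lit 495) (.e (nat_lit 3080) (nat_lit 191) (.e (nat_lit 483386) (nat_lit 23) (.e (nat_lit 336295) (nat_lit 15) .nil))) (.g (nat_lit 0) (.e (nat_lit 68855) (nat_lit 0) .nil) .nil)))) (.nd (nat_lit 9) 
(.lf (nat_lit 463126) (.g (nat_lit 2319) (.e (nat_lit 3067) (nat_lit 190) (.e (nat_lit 475184) (nat_lit 29) (.e (nat_lit 557101) (nat_lit 13) (.e (nat_lit 172097) (nat_lit 9) (.e (nat_lit 426140) (nat_lit 3) (.e (nat_lit 212736) (nat_lit 17) (.e (nat_lit 6666) (nat_lit 357) .nil))))))) (.g (nat_lit 1) (.e (nat_lit 68141) (nat_lit 0) .nil) .nil))) 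
(.lf (nat_lit 463638) (.g (nat_lit 1543) (.e (nat_lit 3089) (nat_lit 191) (.e (nat_lit 483383) (nat_lit 23) (.e (nat_lit 336306) (nat_lit 15) (.e (nat_lit 3618) (nat_lit 227) .nil)))) (.g (nat_lit 0) (.e (nat_lit 70893) (nat_lit 0) .nil) .nil))))) (.nd (nat_lit 8) (.nd (nat_lit 9) 
(.lf (nat_lit 462998) (.g (nat_lit 3500) (.e (nat_lit 3066) (nat_lit 190) (.e (nat_lit 475185) (nat_lit 29) (.e (nat_lit 557109) (nat_lit 15) (.e (nat_lit 188449) (nat_lit 22) (.e (nat_lit 196661) (nat_lit 12) (.e (nat_lit 57750) (nat_lit 201) .nil)))))) (.g (nat_lit 1) (.e (nat_lit 67862) (nat_lit 0) .nil) .nil))) 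
(.lf (nat_lit 463510) (.g (nat_lit 965) (.e (nat_lit 3087) (nat_lit 191) (.e (nat_lit 483406) (nat_lit 26) (.e (nat_lit 385091) (nat_lit 49) .nil))) (.g (nat_lit 0) (.e (nat_lit 69703) (nat_lit 0) .nil) .nil)))) (.nd (nat_lit 9) 
(.lf (nat_lit 463254) (.g (nat_lit 2115) (.e (nat_lit 3071) (nat_lit 190) (.e (nat_lit 475184) (nat_lit 29) (.e (nat_lit 557109) (nat_lit 15) (.e (nat_lit 188458) (nat_lit 25) (.e (nat_lit 245784) (nat_lit 9) .nil))))) (.g (nat_lit 0) (.e (nat_lit 68394) (nat_lit 0) .nil) .nil))) 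
(.lf (nat_lit 463766) (.g (nat_lit 2081) (.e (nat_lit 3090) (nat_lit 191) (.e (nat_lit 483396) (nat_lit 24) (.e (nat_lit 344097) (nat_lit 18) (.e (nat_lit 5905) (nat_lit 320) (.e (nat_lit 1211) (nat_lit 89) .nil))))) (.g (nat_lit 0) (.e (nat_lit 71510) (nat_lit 0) .nil) .nil)))))) (.nd (nat_lit 7) (.nd (nat_lit 8) (.nd (nat_lit 9) 
(.lf (nat_lit 462934) (.g (nat_lit 2341) (.e (nat_lit 3065) (nat_lit 190) (.e (nat_lit 475185) (nat_lit 29) (.e (nat_lit 557100) (nat_lit 13) (.e (nat_lit 172106) (nat_lit 10) (.e (nat_lit 434231) (nat_lit 23) (.e (nat_lit 532483) (nat_lit 0) (.e (nat_lit 7936) (nat_lit 357) .nil))))))) (.g (nat_lit 1) (.e (nat_lit 67764) (nat_lit 0) .nil) .nil))) 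
(.lf (nat_lit 463446) (.g (nat_lit 2574) (.e (nat_lit 3085) (nat_lit 191) (.e (nat_lit 483413) (nat_lit 27) (.e (nat_lit 401448) (nat_lit 10) (.e (nat_lit 434199) (nat_lit 18) .nil)))) (.g (nat_lit 0) (.e (nat_lit 69432) (nat_lit 0) .nil) .nil)))) (.nd (nat_lit 9) 
(.lf (nat_lit 463190) (.g (nat_lit 4166) (.e (nat_lit 3067) (nat_lit 190) (.e (nat_lit 475185) (nat_lit 29) (.e (nat_lit 557109) (nat_lit 15) (.e (nat_lit 188452) (nat_lit 23) (.e (nat_lit 204821) (nat_lit 17) (.e (nat_lit 6680) (nat_lit 357) .nil)))))) (.g (nat_lit 1) (.e (nat_lit 68209) (nat_lit 0) .nil) .nil))) 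
(.lf (nat_lit 463702) (.g (nat_lit 2742) (.e (nat_lit 3090) (nat_lit 191) (.e (nat_lit 483354) (nat_lit 17) (.e (nat_lit 6680) (nat_lit 357) (.e (nat_lit 2856) (nat_lit 184) (.e (nat_lit 426533) (nat_lit 28) (.e (nat_lit 344069) (nat_lit 0) .nil)))))) (.g (nat_lit 1) (.e (nat_lit 71150) (nat_lit 0) .nil) .nil))))) (.nd (nat_lit 8) (.nd (nat_lit 9) 
(.lf (nat_lit 463062) (.g (nat_lit 3321) (.e (nat_lit 3067) (nat_lit 190) (.e (nat_lit 475179) (nat_lit 24) (.e (nat_lit 516120) (nat_lit 1) (.e (nat_lit 164329) (nat_lit 230) (.e (nat_lit 163941) (nat_lit 19) (.e (nat_lit 483333) (nat_lit 0) (.e (nat_lit 7335) (nat_lit 388) .nil))))))) (.g (nat_lit 1) (.e (nat_lit 68027) (nat_lit 0) .nil) .nil))) 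
(.lf (nat_lit 463574) (.g (nat_lit 2733) (.e (nat_lit 3088) (nat_lit 191) (.e (nat_lit 483405) (nat_lit 26) (.e (nat_lit 385093) (nat_lit 49) (.e (nat_lit 778324) (nat_lit 5) (.e (nat_lit 73781) (nat_lit 32) .nil))))) (.g (nat_lit 1) (.e (nat_lit 70052) (nat_lit 0) .nil) .nil)))) (.nd (nat_lit 9) 
(.lf (nat_lit 463318) (.g (nat_lit 3415) (.e (nat_lit 3071) (nat_lit 190) (.e (nat_lit 475185) (nat_lit 29) (.e (nat_lit 557109) (nat_lit 15) (.e (nat_lit 188452) (nat_lit 23) (.e (nat_lit 204821) (nat_lit 17) (.e (nat_lit 7936) (nat_lit 357) .nil)))))) (.g (nat_lit 1) (.e (nat_lit 68460) (nat_lit 0) .nil) .nil))) 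
(.lf (nat_lit 463830) (.g (nat_lit 708) (.e (nat_lit 3094) (nat_lit 191) (.e (nat_lit 483405) (nat_lit 26) (.e (nat_lit 385091) (nat_lit 49) (.e (nat_lit 778324) (nat_lit 5) .nil)))) (.g (nat_lit 0) (.e (nat_lit 72083) (nat_lit 0) .nil) .nil))))))) (.nd (nat_lit 6) (.nd (nat_lit 7) (.nd (nat_lit 8) (.nd (nat_lit 9) 
(.lf (nat_lit 462902) (.g (nat_lit 3411) (.e (nat_lit 3064) (nat_lit 190) (.e (nat_lit 475184) (nat_lit 29) (.e (nat_lit 557109) (nat_lit 15) (.e (nat_lit 188452) (nat_lit 23) (.e (nat_lit 204817) (nat_lit 17) (.e (nat_lit 7936) (nat_lit 357) .nil)))))) (.g (nat_lit 1) (.e (nat_lit 67694) (nat_lit 0) .nil) .nil))) 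
(.lf (nat_lit 463414) (.g (nat_lit 1024) (.e (nat_lit 3085) (nat_lit 191) (.e (nat_lit 483346) (nat_lit 17) (.e (nat_lit 6203) (nat_lit 332) (.e (nat_lit 2540) (nat_lit 158) .nil)))) (.g (nat_lit 0) (.e (nat_lit 69003) (nat_lit 0) .nil) .nil)))) (.nd (nat_lit 9) 
(.lf (nat_lit 463158) (.g (nat_lit 4492) (.e (nat_lit 3067) (nat_lit 190) (.e (nat_lit 475185) (nat_lit 29) (.e (nat_lit 557101) (nat_lit 13) (.e (nat_lit 172115) (nat_lit 10) (.e (nat_lit 434231) (nat_lit 23) (.e (nat_lit 532483) (nat_lit 0) (.e (nat_lit 6684) (nat_lit 357) .nil))))))) (.g (nat_lit 1) (.e (nat_lit 68176) (nat_lit 0) .nil) .nil))) 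
(.lf (nat_lit 463670) (.g (nat_lit 3004) (.e (nat_lit 3089) (nat_lit 191) (.e (nat_lit 483409) (nat_lit 27) (.e (nat_lit 401459) (nat_lit 13) (.e (nat_lit 483344) (nat_lit 17) (.e (nat_lit 6643) (nat_lit 357) .nil))))) (.g (nat_lit 1) (.e (nat_lit 70956) (nat_lit 0) .nil) .nil))))) (.nd (nat_lit 8) (.nd (nat_lit 9) 
(.lf (nat_lit 463030) (.g (nat_lit 2319) (.e (nat_lit 3067) (nat_lit 190) (.e (nat_lit 475176) (nat_lit 24) (.e (nat_lit 516174) (nat_lit 14) (.e (nat_lit 466954) (nat_lit 11) (.e (nat_lit 335986) (nat_lit 1) (.e (nat_lit 57655) (nat_lit 152) (.e (nat_lit 2504) (nat_lit 157) .nil))))))) (.g (nat_lit 1) (.e (nat_lit 67910) (nat_lit 0) .nil) .nil))) 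
(.lf (nat_lit 463542) (.g (nat_lit 2112) (.e (nat_lit 3088) (nat_lit 191) (.e (nat_lit 483386) (nat_lit 23) (.e (nat_lit 336295) (nat_lit 15) (.e (nat_lit 3632) (nat_lit 227) (.e (nat_lit 778323) (nat_lit 5) (.e (nat_lit 73781) (nat_lit 32) .nil)))))) (.g (nat_lit 1) (.e (nat_lit 70013) (nat_lit 0) .nil) .nil)))) (.nd (nat_lit 9) 
(.lf (nat_lit 463286) (.g (nat_lit 2966) (.e (nat_lit 3071) (nat_lit 190) (.e (nat_lit 475185) (nat_lit 29) (.e (nat_lit 557101) (nat_lit 13) (.e (nat_lit 172115) (nat_lit 10) (.e (nat_lit 434227) (nat_lit 20) (.e (nat_lit 507928) (nat_lit 10) (.e (nat_lit 5627) (nat_lit 312) .nil))))))) (.g (nat_lit 1) (.e (nat_lit 68428) (nat_lit 0) .nil) .nil))) 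
(.lf (nat_lit 463798) (.g (nat_lit 2697) (.e (nat_lit 3090) (nat_lit 191) (.e (nat_lit 483411) (nat_lit 27) (.e (nat_lit 401436) (nat_lit 9) (.e (nat_lit 426533) (nat_lit 28) (.e (nat_lit 344068) (nat_lit 0) .nil))))) (.g (nat_lit 1) (.e (nat_lit 71598) (nat_lit 0) .nil) .nil)))))) (.nd (nat_lit 7) (.nd (nat_lit 8) (.nd (nat_lit 9) 
(.lf (nat_lit 462966) (.g (nat_lit 3513) (.e (nat_lit 3066) (nat_lit 190) (.e (nat_lit 475183) (nat_lit 29) (.e (nat_lit 557109) (nat_lit 15) (.e (nat_lit 188449) (nat_lit 22) (.e (nat_lit 196661) (nat_lit 12) .nil))))) (.g (nat_lit 0) (.e (nat_lit 67828) (nat_lit 0) .nil) .nil))) 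
(.lf (nat_lit 463478) (.g (nat_lit 1682) (.e (nat_lit 3087) (nat_lit 191) (.e (nat_lit 483386) (nat_lit 23) (.e (nat_lit 336295) (nat_lit 15) (.e (nat_lit 3631) (nat_lit 227) (.e (nat_lit 778323) (nat_lit 5) (.e (nat_lit 73782) (nat_lit 32) .nil)))))) (.g (nat_lit 1) (.e (nat_lit 69667) (nat_lit 0) .nil) .nil)))) (.nd (nat_lit 9) 
(.lf (nat_lit 463222) (.g (nat_lit 1897) (.e (nat_lit 3070) (nat_lit 190) (.e (nat_lit 475185) (nat_lit 29) (.e (nat_lit 557107) (nat_lit 15) (.e (nat_lit 188450) (nat_lit 23) (.e (nat_lit 204819) (nat_lit 17) (.e (nat_lit 7936) (nat_lit 357) .nil)))))) (.g (nat_lit 1) (.e (nat_lit 68329) (nat_lit 0) .nil) .nil))) 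
(.lf (nat_lit 463734) (.g (nat_lit 3301) (.e (nat_lit 3090) (nat_lit 191) (.e (nat_lit 483380) (nat_lit 23) (.e (nat_lit 336269) (nat_lit 15) (.e (nat_lit 3631) (nat_lit 227) (.e (nat_lit 778323) (nat_lit 5) (.e (nat_lit 73782) (nat_lit 32) .nil)))))) (.g (nat_lit 1) (.e (nat_lit 71454) (nat_lit 0) .nil) .nil))))) (.nd (nat_lit 8) (.nd (nat_lit 9) 
(.lf (nat_lit 463094) (.g (nat_lit 2756) (.e (nat_lit 3067) (nat_lit 190) (.e (nat_lit 475183) (nat_lit 29) (.e (nat_lit 557098) (nat_lit 13) (.e (nat_lit 172097) (nat_lit 9) (.e (nat_lit 426140) (nat_lit 3) (.e (nat_lit 212736) (nat_lit 17) (.e (nat_lit 6666) (nat_lit 357) .nil))))))) (.g (nat_lit 1) (.e (nat_lit 68109) (nat_lit 0) .nil) .nil))) 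
(.lf (nat_lit 463606) (.g (nat_lit 1944) (.e (nat_lit 3089) (nat_lit 191) (.e (nat_lit 483341) (nat_lit 9) (.e (nat_lit 426107) (nat_lit 1) (.e (nat_lit 164403) (nat_lit 256) .nil)))) (.g (nat_lit 0) (.e (nat_lit 70751) (nat_lit 0) .nil) .nil)))) (.nd (nat_lit 9) 
(.lf (nat_lit 463350) (.g (nat_lit 1445) (.e (nat_lit 3076) (nat_lit 191) (.e (nat_lit 483406) (nat_lit 26) (.e (nat_lit 385094) (nat_lit 49) (.e (nat_lit 778323) (nat_lit 5) .nil)))) (.g (nat_lit 0) (.e (nat_lit 68611) (nat_lit 0) .nil) .nil))) 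
(.lf (nat_lit 463862) (.g (nat_lit 3828) (.e (nat_lit 3095) (nat_lit 192) (.e (nat_lit 491569) (nat_lit 13) (.e (nat_lit 393301) (nat_lit 27) (.e (nat_lit 491560) (nat_lit 10) (.e (nat_lit 344090) (nat_lit 18) .nil))))) (.g (nat_lit 0) (.e (nat_lit 72415) (nat_lit 0) .nil) .nil))))))))) (.nd (nat_lit 4) (.nd (nat_lit 5) (.nd (nat_lit 6) (.nd (nat_lit 7) (.nd (nat_lit 8) (.nd (nat_lit 9) 
(.lf (nat_lit 462862) (.g (nat_lit 2306) (.e (nat_lit 3063) (nat_lit 190) (.e (nat_lit 475185) (nat_lit 29) (.e (nat_lit 557100) (nat_lit 13) (.e (nat_lit 172106) (nat_lit 10) (.e (nat_lit 434227) (nat_lit 20) (.e (nat_lit 507930) (nat_lit 10) (.e (nat_lit 5615) (nat_lit 312) .nil))))))) (.g (nat_lit 1) (.e (nat_lit 67600) (nat_lit 0) .nil) .nil))) 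
(.lf (nat_lit 463374) (.g (nat_lit 1483) (.e (nat_lit 3078) (nat_lit 191) (.e (nat_lit 483411) (nat_lit 27) (.e (nat_lit 401440) (nat_lit 9) (.e (nat_lit 426470) (nat_lit 25) .nil)))) (.g (nat_lit 0) (.e (nat_lit 68753) (nat_lit 0) .nil) .nil)))) (.nd (nat_lit 9) 
(.lf (nat_lit 463118) (.g (nat_lit 3820) (.e (nat_lit 3067) (nat_lit 190) (.e (nat_lit 475183) (nat_lit 29) (.e (nat_lit 557109) (nat_lit 15) (.e (nat_lit 188450) (nat_lit 23) (.e (nat_lit 204821) (nat_lit 17) .nil))))) (.g (nat_lit 0) (.e (nat_lit 68133) (nat_lit 0) .nil) .nil))) 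
(.lf (nat_lit 463630) (.g (nat_lit 871) (.e (nat_lit 3089) (nat_lit 191) (.e (nat_lit 483383) (nat_lit 23) (.e (nat_lit 336265) (nat_lit 15) .nil))) (.g (nat_lit 0) (.e (nat_lit 70884) (nat_lit 0) .nil) .nil))))) (.nd (nat_lit 8) (.nd (nat_lit 9) 
(.lf (nat_lit 462990) (.g (nat_lit 2797) (.e (nat_lit 3066) (nat_lit 190) (.e (nat_lit 475185) (nat_lit 29) (.e (nat_lit 557101) (nat_lit 13) (.e (nat_lit 172115) (nat_lit 10) (.e (nat_lit 434231) (nat_lit 23) (.e (nat_lit 532490) (nat_lit 0) (.e (nat_lit 6676) (nat_lit 357) .nil))))))) (.g (nat_lit 1) (.e (nat_lit 67854) (nat_lit 0) .nil) .nil))) 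
(.lf (nat_lit 463502) (.g (nat_lit 2474) (.e (nat_lit 3087) (nat_lit 191) (.e (nat_lit 483403) (nat_lit 26) (.e (nat_lit 385094) (nat_lit 49) (.e (nat_lit 778323) (nat_lit 5) (.e (nat_lit 73782) (nat_lit 32) .nil))))) (.g (nat_lit 1) (.e (nat_lit 69692) (nat_lit 0) .nil) .nil)))) (.nd (nat_lit 9) 
(.lf (nat_lit 463246) (.g (nat_lit 3546) (.e (nat_lit 3071) (nat_lit 190) (.e (nat_lit 475179) (nat_lit 24) (.e (nat_lit 516150) (nat_lit 9) (.e (nat_lit 426436) (nat_lit 18) (.e (nat_lit 98358) (nat_lit 26) (.e (nat_lit 426428) (nat_lit 17) (.e (nat_lit 90130) (nat_lit 9) .nil))))))) (.g (nat_lit 1) (.e (nat_lit 68373) (nat_lit 0) .nil) .nil))) 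
(.lf (nat_lit 463758) (.g (nat_lit 2345) (.e (nat_lit 3090) (nat_lit 191) (.e (nat_lit 483386) (nat_lit 23) (.e (nat_lit 336295) (nat_lit 15) (.e (nat_lit 3631) (nat_lit 227) (.e (nat_lit 778324) (nat_lit 5) (.e (nat_lit 73781) (nat_lit 32) .nil)))))) (.g (nat_lit 1) (.e (nat_lit 71493) (nat_lit 0) .nil) .nil)))))) (.nd (nat_lit 7) (.nd (nat_lit 8) (.nd (nat_lit 9) 
(.lf (nat_lit 462926) (.g (nat_lit 2734) (.e (nat_lit 3065) (nat_lit 190) (.e (nat_lit 475184) (nat_lit 29) (.e (nat_lit 557109) (nat_lit 15) (.e (nat_lit 188449) (nat_lit 22) (.e (nat_lit 196661) (nat_lit 12) .nil))))) (.g (nat_lit 0) (.e (nat_lit 67756) (nat_lit 0) .nil) .nil))) 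
(.lf (nat_lit 463438) (.g (nat_lit 2875) (.e (nat_lit 3085) (nat_lit 191) (.e (nat_lit 483413) (nat_lit 27) (.e (nat_lit 401447) (nat_lit 10) (.e (nat_lit 434203) (nat_lit 18) .nil)))) (.g (nat_lit 0) (.e (nat_lit 69400) (nat_lit 0) .nil) .nil)))) (.nd (nat_lit 9) 
(.lf (nat_lit 463182) (.g (nat_lit 2557) (.e (nat_lit 3067) (nat_lit 190) (.e (nat_lit 475185) (nat_lit 29) (.e (nat_lit 557109) (nat_lit 15) (.e (nat_lit 188452) (nat_lit 23) (.e (nat_lit 204814) (nat_lit 17) .nil))))) (.g (nat_lit 0) (.e (nat_lit 68201) (nat_lit 0) .nil) .nil))) 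
(.lf (nat_lit 463694) (.g (nat_lit 1861) (.e (nat_lit 3090) (nat_lit 191) (.e (nat_lit 483354) (nat_lit 17) (.e (nat_lit 6136) (nat_lit 332) (.e (nat_lit 1385) (nat_lit 105) (.e (nat_lit 311357) (nat_lit 28) (.e (nat_lit 344069) (nat_lit 0) .nil)))))) (.g (nat_lit 1) (.e (nat_lit 71136) (nat_lit 0) .nil) .nil))))) (.nd (nat_lit 8) (.nd (nat_lit 9) 
(.lf (nat_lit 463054) (.g (nat_lit 3003) (.e (nat_lit 3067) (nat_lit 190) (.e (nat_lit 475179) (nat_lit 24) (.e (nat_lit 516117) (nat_lit 1) (.e (nat_lit 164330) (nat_lit 230) (.e (nat_lit 163941) (nat_lit 19) (.e (nat_lit 483333) (nat_lit 0) (.e (nat_lit 7337) (nat_lit 388) .nil))))))) (.g (nat_lit 1) (.e (nat_lit 67990) (nat_lit 0) .nil) .nil))) 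
(.lf (nat_lit 463566) (.g (nat_lit 943) (.e (nat_lit 3088) (nat_lit 191) (.e (nat_lit 483403) (nat_lit 26) (.e (nat_lit 385092) (nat_lit 49) .nil))) (.g (nat_lit 0) (.e (nat_lit 70043) (nat_lit 0) .nil) .nil)))) (.nd (nat_lit 9) 
(.lf (nat_lit 463310) (.g (nat_lit 2867) (.e (nat_lit 3071) (nat_lit 190) (.e (nat_lit 475185) (nat_lit 29) (.e (nat_lit 557109) (nat_lit 15) (.e (nat_lit 188449) (nat_lit 22) (.e (nat_lit 196661) (nat_lit 12) (.e (nat_lit 65280) (nat_lit 201) .nil)))))) (.g (nat_lit 1) (.e (nat_lit 68452) (nat_lit 0) .nil) .nil))) 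
(.lf (nat_lit 463822) (.g (nat_lit 692) (.e (nat_lit 3094) (nat_lit 191) (.e (nat_lit 483396) (nat_lit 24) (.e (nat_lit 344100) (nat_lit 18) (.e (nat_lit 5907) (nat_lit 320) .nil)))) (.g (nat_lit 0) (.e (nat_lit 72070) (nat_lit 0) .nil) .nil))))))) (.nd (nat_lit 6) (.nd (nat_lit 7) (.nd (nat_lit 8) (.nd (nat_lit 9) 
(.lf (nat_lit 462894) (.g (nat_lit 3207) (.e (nat_lit 3064) (nat_lit 190) (.e (nat_lit 475184) (nat_lit 29) (.e (nat_lit 557100) (nat_lit 13) (.e (nat_lit 172106) (nat_lit 10) (.e (nat_lit 434231) (nat_lit 23) (.e (nat_lit 532490) (nat_lit 0) (.e (nat_lit 6680) (nat_lit 357) .nil))))))) (.g (nat_lit 1) (.e (nat_lit 67686) (nat_lit 0) .nil) .nil))) 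
(.lf (nat_lit 463406) (.g (nat_lit 1632) (.e (nat_lit 3085) (nat_lit 191) (.e (nat_lit 483337) (nat_lit 9) (.e (nat_lit 426199) (nat_lit 9) (.e (nat_lit 426128) (nat_lit 2) (.e (nat_lit 204544) (nat_lit 3) (.e (nat_lit 164017) (nat_lit 44) (.e (nat_lit 688138) (nat_lit 5) .nil))))))) (.g (nat_lit 1) (.e (nat_lit 68971) (nat_lit 0) .nil) .nil)))) (.nd (nat_lit 9) 
(.lf (nat_lit 463150) (.g (nat_lit 2950) (.e (nat_lit 3067) (nat_lit 190) (.e (nat_lit 475185) (nat_lit 29) (.e (nat_lit 557098) (nat_lit 13) (.e (nat_lit 172115) (nat_lit 10) (.e (nat_lit 434244) (nat_lit 28) (.e (nat_lit 573468) (nat_lit 10) (.e (nat_lit 8524) (nat_lit 205) .nil))))))) (.g (nat_lit 1) (.e (nat_lit 68168) (nat_lit 0) .nil) .nil))) 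
(.lf (nat_lit 463662) (.g (nat_lit 2112) (.e (nat_lit 3089) (nat_lit 191) (.e (nat_lit 483402) (nat_lit 26) (.e (nat_lit 385093) (nat_lit 49) (.e (nat_lit 778323) (nat_lit 5) (.e (nat_lit 73782) (nat_lit 32) .nil))))) (.g (nat_lit 1) (.e (nat_lit 70923) (nat_lit 0) .nil) .nil))))) (.nd (nat_lit 8) (.nd (nat_lit 9) 
(.lf (nat_lit 463022) (.g (nat_lit 3000) (.e (nat_lit 3067) (nat_lit 190) (.e (nat_lit 483072) (nat_lit 26) (.e (nat_lit 532544) (nat_lit 10) (.e (nat_lit 344132) (nat_lit 26) (.e (nat_lit 557105) (nat_lit 14) (.e (nat_lit 180251) (nat_lit 10) (.e (nat_lit 573447) (nat_lit 0) .nil))))))) (.g (nat_lit 1) (.e (nat_lit 67901) (nat_lit 0) .nil) .nil))) 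
(.lf (nat_lit 463534) (.g (nat_lit 2662) (.e (nat_lit 3088) (nat_lit 191) (.e (nat_lit 483383) (nat_lit 23) (.e (nat_lit 336240) (nat_lit 15) (.e (nat_lit 3637) (nat_lit 227) (.e (nat_lit 778323) (nat_lit 5) (.e (nat_lit 73781) (nat_lit 32) .nil)))))) (.g (nat_lit 1) (.e (nat_lit 70004) (nat_lit 0) .nil) .nil)))) (.nd (nat_lit 9) 
(.lf (nat_lit 463278) (.g (nat_lit 2324) (.e (nat_lit 3071) (nat_lit 190) (.e (nat_lit 475185) (nat_lit 29) (.e (nat_lit 557100) (nat_lit 13) (.e (nat_lit 172113) (nat_lit 10) (.e (nat_lit 434245) (nat_lit 28) (.e (nat_lit 573474) (nat_lit 12) (.e (nat_lit 57565) (nat_lit 52) (.e (nat_lit 753674) (nat_lit 5) .nil)))))))) (.g (nat_lit 1) (.e (nat_lit 68420) (nat_lit 0) .nil) .nil))) 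
(.lf (nat_lit 463790) (.g (nat_lit 2456) (.e (nat_lit 3090) (nat_lit 191) (.e (nat_lit 483409) (nat_lit 27) (.e (nat_lit 401459) (nat_lit 13) (.e (nat_lit 483350) (nat_lit 17) (.e (nat_lit 6677) (nat_lit 357) .nil))))) (.g (nat_lit 0) (.e (nat_lit 71551) (nat_lit 0) .nil) .nil)))))) (.nd (nat_lit 7) (.nd (nat_lit 8) (.nd (nat_lit 9) 
(.lf (nat_lit 462958) (.g (nat_lit 2645) (.e (nat_lit 3066) (nat_lit 190) (.e (nat_lit 475183) (nat_lit 29) (.e (nat_lit 557100) (nat_lit 13) (.e (nat_lit 172106) (nat_lit 10) (.e (nat_lit 434231) (nat_lit 23) (.e (nat_lit 532490) (nat_lit 0) (.e (nat_lit 6680) (nat_lit 357) .nil))))))) (.g (nat_lit 1) (.e (nat_lit 67820) (nat_lit 0) .nil) .nil))) 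
(.lf (nat_lit 463470) (.g (nat_lit 1151) (.e (nat_lit 3087) (nat_lit 191) (.e (nat_lit 483383) (nat_lit 23) (.e (nat_lit 336286) (nat_lit 15) .nil))) (.g (nat_lit 0) (.e (nat_lit 69658) (nat_lit 0) .nil) .nil)))) (.nd (nat_lit 9) 
(.lf (nat_lit 463214) (.g (nat_lit 3565) (.e (nat_lit 3070) (nat_lit 190) (.e (nat_lit 475185) (nat_lit 29) (.e (nat_lit 557100) (nat_lit 13) (.e (nat_lit 172113) (nat_lit 10) (.e (nat_lit 434245) (nat_lit 28) (.e (nat_lit 573474) (nat_lit 12) (.e (nat_lit 57567) (nat_lit 52) (.e (nat_lit 753678) (nat_lit 5) .nil)))))))) (.g (nat_lit 1) (.e (nat_lit 68321) (nat_lit 0) .nil) .nil))) 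
(.lf (nat_lit 463726) (.g (nat_lit 2631) (.e (nat_lit 3090) (nat_lit 191) (.e (nat_lit 483380) (nat_lit 23) (.e (nat_lit 336262) (nat_lit 15) (.e (nat_lit 3631) (nat_lit 227) (.e (nat_lit 778323) (nat_lit 5) (.e (nat_lit 73781) (nat_lit 32) .nil)))))) (.g (nat_lit 1) (.e (nat_lit 71446) (nat_lit 0) .nil) .nil))))) (.nd (nat_lit 8) (.nd (nat_lit 9) 
(.lf (nat_lit 463086) (.g (nat_lit 2445) (.e (nat_lit 3067) (nat_lit 190) (.e (nat_lit 475179) (nat_lit 24) (.e (nat_lit 516176) (nat_lit 14) (.e (nat_lit 466954) (nat_lit 11) (.e (nat_lit 335995) (nat_lit 1) (.e (nat_lit 57655) (nat_lit 152) (.e (nat_lit 2504) (nat_lit 157) .nil))))))) (.g (nat_lit 1) (.e (nat_lit 68096) (nat_lit 0) .nil) .nil))) 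
(.lf (nat_lit 463598) (.g (nat_lit 975) (.e (nat_lit 3088) (nat_lit 191) (.e (nat_lit 483413) (nat_lit 27) (.e (nat_lit 401413) (nat_lit 0) .nil))) (.g (nat_lit 0) (.e (nat_lit 70127) (nat_lit 0) .nil) .nil)))) (.nd (nat_lit 9) 
(.lf (nat_lit 463342) (.g (nat_lit 3099) (.e (nat_lit 3074) (nat_lit 190) (.e (nat_lit 475185) (nat_lit 29) (.e (nat_lit 557101) (nat_lit 13) (.e (nat_lit 172097) (nat_lit 9) (.e (nat_lit 426125) (nat_lit 2) (.e (nat_lit 196661) (nat_lit 12) (.e (nat_lit 65280) (nat_lit 201) .nil))))))) (.g (nat_lit 1) (.e (nat_lit 68554) (nat_lit 0) .nil) .nil))) 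
(.lf (nat_lit 463854) (.g (nat_lit 2506) (.e (nat_lit 3095) (nat_lit 192) (.e (nat_lit 491566) (nat_lit 12) (.e (nat_lit 385105) (nat_lit 50) (.e (nat_lit 786483) (nat_lit 30) (.e (nat_lit 360484) (nat_lit 15) .nil))))) (.g (nat_lit 0) (.e (nat_lit 72407) (nat_lit 0) .nil) .nil)))))))) (.nd (nat_lit 5) (.nd (nat_lit 6) (.nd (nat_lit 7) (.nd (nat_lit 8) (.nd (nat_lit 9) 
(.lf (nat_lit 462878) (.g (nat_lit 2754) (.e (nat_lit 3063) (nat_lit 190) (.e (nat_lit 475185) (nat_lit 29) (.e (nat_lit 557101) (nat_lit 13) (.e (nat_lit 172115) (nat_lit 10) (.e (nat_lit 434227) (nat_lit 20) (.e (nat_lit 507930) (nat_lit 10) (.e (nat_lit 5615) (nat_lit 312) .nil))))))) (.g (nat_lit 1) (.e (nat_lit 67616) (nat_lit 0) .nil) .nil))) 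
(.lf (nat_lit 463390) (.g (nat_lit 1209) (.e (nat_lit 3082) (nat_lit 191) (.e (nat_lit 483380) (nat_lit 23) (.e (nat_lit 336332) (nat_lit 19) .nil))) (.g (nat_lit 0) (.e (nat_lit 68888) (nat_lit 0) .nil) .nil)))) (.nd (nat_lit 9) 
(.lf (nat_lit 463134) (.g (nat_lit 4460) (.e (nat_lit 3067) (nat_lit 190) (.e (nat_lit 475184) (nat_lit 29) (.e (nat_lit 557109) (nat_lit 15) (.e (nat_lit 188452) (nat_lit 23) (.e (nat_lit 204814) (nat_lit 17) (.e (nat_lit 6681) (nat_lit 357) .nil)))))) (.g (nat_lit 1) (.e (nat_lit 68149) (nat_lit 0) .nil) .nil))) 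
(.lf (nat_lit 463646) (.g (nat_lit 1631) (.e (nat_lit 3089) (nat_lit 191) (.e (nat_lit 483386) (nat_lit 23) (.e (nat_lit 336295) (nat_lit 15) (.e (nat_lit 3631) (nat_lit 227) (.e (nat_lit 778323) (nat_lit 5) (.e (nat_lit 73782) (nat_lit 32) .nil)))))) (.g (nat_lit 1) (.e (nat_lit 70903) (nat_lit 0) .nil) .nil))))) (.nd (nat_lit 8) (.nd (nat_lit 9) 
(.lf (nat_lit 463006) (.g (nat_lit 2101) (.e (nat_lit 3066) (nat_lit 190) (.e (nat_lit 475214) (nat_lit 42) (.e (nat_lit 720956) (nat_lit 25) (.e (nat_lit 114711) (nat_lit 21) (.e (nat_lit 57682) (nat_lit 155) .nil))))) (.g (nat_lit 0) (.e (nat_lit 67881) (nat_lit 0) .nil) .nil))) 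
(.lf (nat_lit 463518) (.g (nat_lit 2052) (.e (nat_lit 3087) (nat_lit 191) (.e (nat_lit 483407) (nat_lit 26) (.e (nat_lit 385094) (nat_lit 49) (.e (nat_lit 778323) (nat_lit 5) (.e (nat_lit 73781) (nat_lit 32) .nil))))) (.g (nat_lit 1) (.e (nat_lit 69712) (nat_lit 0) .nil) .nil)))) (.nd (nat_lit 9) 
(.lf (nat_lit 463262) (.g (nat_lit 2830) (.e (nat_lit 3071) (nat_lit 190) (.e (nat_lit 475185) (nat_lit 29) (.e (nat_lit 557100) (nat_lit 13) (.e (nat_lit 172106) (nat_lit 10) (.e (nat_lit 434227) (nat_lit 20) (.e (nat_lit 507929) (nat_lit 10) (.e (nat_lit 5612) (nat_lit 312) .nil))))))) (.g (nat_lit 1) (.e (nat_lit 68404) (nat_lit 0) .nil) .nil))) 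
(.lf (nat_lit 463774) (.g (nat_lit 3033) (.e (nat_lit 3090) (nat_lit 191) (.e (nat_lit 483403) (nat_lit 26) (.e (nat_lit 385094) (nat_lit 49) (.e (nat_lit 778324) (nat_lit 5) (.e (nat_lit 73781) (nat_lit 32) .nil))))) (.g (nat_lit 1) (.e (nat_lit 71521) (nat_lit 0) .nil) .nil)))))) (.nd (nat_lit 7) (.nd (nat_lit 8) (.nd (nat_lit 9) 
(.lf (nat_lit 462942) (.g (nat_lit 2216) (.e (nat_lit 3065) (nat_lit 190) (.e (nat_lit 475185) (nat_lit 29) (.e (nat_lit 557107) (nat_lit 15) (.e (nat_lit 188450) (nat_lit 23) (.e (nat_lit 204817) (nat_lit 17) (.e (nat_lit 7936) (nat_lit 357) .nil)))))) (.g (nat_lit 1) (.e (nat_lit 67772) (nat_lit 0) .nil) .nil))) 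
(.lf (nat_lit 463454) (.g (nat_lit 2176) (.e (nat_lit 3085) (nat_lit 191) (.e (nat_lit 483413) (nat_lit 27) (.e (nat_lit 401448) (nat_lit 10) (.e (nat_lit 434208) (nat_lit 18) .nil)))) (.g (nat_lit 0) (.e (nat_lit 69463) (nat_lit 0) .nil) .nil)))) (.nd (nat_lit 9) 
(.lf (nat_lit 463198) (.g (nat_lit 4551) (.e (nat_lit 3069) (nat_lit 190) (.e (nat_lit 475184) (nat_lit 29) (.e (nat_lit 557109) (nat_lit 15) (.e (nat_lit 188452) (nat_lit 23) (.e (nat_lit 204816) (nat_lit 17) .nil))))) (.g (nat_lit 0) (.e (nat_lit 68290) (nat_lit 0) .nil) .nil))) 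
(.lf (nat_lit 463710) (.g (nat_lit 922) (.e (nat_lit 3090) (nat_lit 191) (.e (nat_lit 483372) (nat_lit 21) (.e (nat_lit 319500) (nat_lit 10) .nil))) (.g (nat_lit 0) (.e (nat_lit 71258) (nat_lit 0) .nil) .nil))))) (.nd (nat_lit 8) (.nd (nat_lit 9) 
(.lf (nat_lit 463070) (.g (nat_lit 3123) (.e (nat_lit 3067) (nat_lit 190) (.e (nat_lit 475179) (nat_lit 24) (.e (nat_lit 516146) (nat_lit 9) (.e (nat_lit 426436) (nat_lit 18) (.e (nat_lit 98384) (nat_lit 32) (.e (nat_lit 475169) (nat_lit 22) (.e (nat_lit 499865) (nat_lit 5) .nil))))))) (.g (nat_lit 1) (.e (nat_lit 68056) (nat_lit 0) .nil) .nil))) 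
(.lf (nat_lit 463582) (.g (nat_lit 2372) (.e (nat_lit 3088) (nat_lit 191) (.e (nat_lit 483407) (nat_lit 26) (.e (nat_lit 385094) (nat_lit 49) (.e (nat_lit 778323) (nat_lit 5) (.e (nat_lit 73781) (nat_lit 32) .nil))))) (.g (nat_lit 1) (.e (nat_lit 70067) (nat_lit 0) .nil) .nil)))) (.nd (nat_lit 9) 
(.lf (nat_lit 463326) (.g (nat_lit 2146) (.e (nat_lit 3072) (nat_lit 190) (.e (nat_lit 475179) (nat_lit 24) (.e (nat_lit 516150) (nat_lit 9) (.e (nat_lit 426436) (nat_lit 18) (.e (nat_lit 98384) (nat_lit 32) (.e (nat_lit 475169) (nat_lit 22) (.e (nat_lit 499824) (nat_lit 5) .nil))))))) (.g (nat_lit 1) (.e (nat_lit 68527) (nat_lit 0) .nil) .nil))) 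
(.lf (nat_lit 463838) (.g (nat_lit 1564) (.e (nat_lit 3094) (nat_lit 191) (.e (nat_lit 483407) (nat_lit 26) (.e (nat_lit 385094) (nat_lit 49) (.e (nat_lit 778323) (nat_lit 5) (.e (nat_lit 81664) (nat_lit 32) .nil))))) (.g (nat_lit 1) (.e (nat_lit 72095) (nat_lit 0) .nil) .nil))))))) (.nd (nat_lit 6) (.nd (nat_lit 7) (.nd (nat_lit 8) (.nd (nat_lit 9) 
(.lf (nat_lit 462910) (.g (nat_lit 3026) (.e (nat_lit 3064) (nat_lit 190) (.e (nat_lit 475185) (nat_lit 29) (.e (nat_lit 557101) (nat_lit 13) (.e (nat_lit 172097) (nat_lit 9) (.e (nat_lit 426140) (nat_lit 3) (.e (nat_lit 204821) (nat_lit 17) (.e (nat_lit 6676) (nat_lit 357) .nil))))))) (.g (nat_lit 1) (.e (nat_lit 67702) (nat_lit 0) .nil) .nil))) 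
(.lf (nat_lit 463422) (.g (nat_lit 1165) (.e (nat_lit 3085) (nat_lit 191) (.e (nat_lit 483405) (nat_lit 26) (.e (nat_lit 385091) (nat_lit 49) (.e (nat_lit 778324) (nat_lit 5) (.e (nat_lit 81664) (nat_lit 32) .nil))))) (.g (nat_lit 1) (.e (nat_lit 69151) (nat_lit 0) .nil) .nil)))) (.nd (nat_lit 9) 
(.lf (nat_lit 463166) (.g (nat_lit 2385) (.e (nat_lit 3067) (nat_lit 190) (.e (nat_lit 475185) (nat_lit 29) (.e (nat_lit 557107) (nat_lit 15) (.e (nat_lit 188450) (nat_lit 23) (.e (nat_lit 204817) (nat_lit 17) (.e (nat_lit 7936) (nat_lit 357) .nil)))))) (.g (nat_lit 1) (.e (nat_lit 68185) (nat_lit 0) .nil) .nil))) 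
(.lf (nat_lit 463678) (.g (nat_lit 944) (.e (nat_lit 3089) (nat_lit 191) (.e (nat_lit 483411) (nat_lit 27) (.e (nat_lit 401435) (nat_lit 9) .nil))) (.g (nat_lit 0) (.e (nat_lit 70983) (nat_lit 0) .nil) .nil))))) (.nd (nat_lit 8) (.nd (nat_lit 9) 
(.lf (nat_lit 463038) (.g (nat_lit 3006) (.e (nat_lit 3067) (nat_lit 190) (.e (nat_lit 475178) (nat_lit 24) (.e (nat_lit 516117) (nat_lit 1) (.e (nat_lit 164329) (nat_lit 230) (.e (nat_lit 163941) (nat_lit 19) (.e (nat_lit 483329) (nat_lit 0) (.e (nat_lit 7335) (nat_lit 388) .nil))))))) (.g (nat_lit 1) (.e (nat_lit 67937) (nat_lit 0) .nil) .nil))) 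
(.lf (nat_lit 463550) (.g (nat_lit 1792) (.e (nat_lit 3088) (nat_lit 191) (.e (nat_lit 483393) (nat_lit 23) (.e (nat_lit 336275) (nat_lit 15) (.e (nat_lit 3632) (nat_lit 227) (.e (nat_lit 778323) (nat_lit 5) (.e (nat_lit 73781) (nat_lit 32) .nil)))))) (.g (nat_lit 1) (.e (nat_lit 70021) (nat_lit 0) .nil) .nil)))) (.nd (nat_lit 9) 
(.lf (nat_lit 463294) (.g (nat_lit 3186) (.e (nat_lit 3071) (nat_lit 190) (.e (nat_lit 475185) (nat_lit 29) (.e (nat_lit 557101) (nat_lit 13) (.e (nat_lit 172115) (nat_lit 10) (.e (nat_lit 434231) (nat_lit 23) (.e (nat_lit 532482) (nat_lit 0) (.e (nat_lit 6617) (nat_lit 357) .nil))))))) (.g (nat_lit 1) (.e (nat_lit 68436) (nat_lit 0) .nil) .nil))) 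
(.lf (nat_lit 463806) (.g (nat_lit 1578) (.e (nat_lit 3092) (nat_lit 191) (.e (nat_lit 483403) (nat_lit 26) (.e (nat_lit 385093) (nat_lit 49) (.e (nat_lit 778323) (nat_lit 5) .nil)))) (.g (nat_lit 0) (.e (nat_lit 71733) (nat_lit 0) .nil) .nil)))))) (.nd (nat_lit 7) (.nd (nat_lit 8) (.nd (nat_lit 9) 
(.lf (nat_lit 462974) (.g (nat_lit 3069) (.e (nat_lit 3066) (nat_lit 190) (.e (nat_lit 475184) (nat_lit 29) (.e (nat_lit 557109) (nat_lit 15) (.e (nat_lit 188450) (nat_lit 23) (.e (nat_lit 204821) (nat_lit 17) .nil))))) (.g (nat_lit 0) (.e (nat_lit 67836) (nat_lit 0) .nil) .nil))) 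
(.lf (nat_lit 463486) (.g (nat_lit 1944) (.e (nat_lit 3087) (nat_lit 191) (.e (nat_lit 483393) (nat_lit 23) (.e (nat_lit 335995) (nat_lit 1) (.e (nat_lit 57872) (nat_lit 264) (.e (nat_lit 1211) (nat_lit 89) .nil))))) (.g (nat_lit 0) (.e (nat_lit 69675) (nat_lit 0) .nil) .nil)))) (.nd (nat_lit 9) 
(.lf (nat_lit 463230) (.g (nat_lit 3174) (.e (nat_lit 3070) (nat_lit 190) (.e (nat_lit 475185) (nat_lit 29) (.e (nat_lit 557109) (nat_lit 15) (.e (nat_lit 188452) (nat_lit 23) (.e (nat_lit 204817) (nat_lit 17) (.e (nat_lit 7936) (nat_lit 357) .nil)))))) (.g (nat_lit 1) (.e (nat_lit 68337) (nat_lit 0) .nil) .nil))) 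
(.lf (nat_lit 463742) (.g (nat_lit 2595) (.e (nat_lit 3090) (nat_lit 191) (.e (nat_lit 483383) (nat_lit 23) (.e (nat_lit 336240) (nat_lit 15) (.e (nat_lit 3637) (nat_lit 227) (.e (nat_lit 778323) (nat_lit 5) (.e (nat_lit 73781) (nat_lit 32) .nil)))))) (.g (nat_lit 1) (.e (nat_lit 71477) (nat_lit 0) .nil) .nil))))) (.nd (nat_lit 8) (.nd (nat_lit 9) 
(.lf (nat_lit 463102) (.g (nat_lit 1614) (.e (nat_lit 3067) (nat_lit 190) (.e (nat_lit 475183) (nat_lit 29) (.e (nat_lit 557107) (nat_lit 15) (.e (nat_lit 188450) (nat_lit 23) (.e (nat_lit 204817) (nat_lit 17) .nil))))) (.g (nat_lit 0) (.e (nat_lit 68117) (nat_lit 0) .nil) .nil))) 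
(.lf (nat_lit 463614) (.g (nat_lit 2141) (.e (nat_lit 3089) (nat_lit 191) (.e (nat_lit 483372) (nat_lit 21) (.e (nat_lit 319539) (nat_lit 19) (.e (nat_lit 311357) (nat_lit 28) (.e (nat_lit 344069) (nat_lit 0) .nil))))) (.g (nat_lit 1) (.e (nat_lit 70851) (nat_lit 0) .nil) .nil)))) (.nd (nat_lit 9) 
(.lf (nat_lit 463358) (.g (nat_lit 1728) (.e (nat_lit 3077) (nat_lit 191) (.e (nat_lit 483403) (nat_lit 26) (.e (nat_lit 385093) (nat_lit 49) (.e (nat_lit 778324) (nat_lit 5) (.e (nat_lit 81664) (nat_lit 32) .nil))))) (.g (nat_lit 1) (.e (nat_lit 68645) (nat_lit 0) .nil) .nil))) 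
(.lf (nat_lit 463870) (.g (nat_lit 3596) (.e (nat_lit 3096) (nat_lit 192) (.e (nat_lit 491537) (nat_lit 2) (.e (nat_lit 90170) (nat_lit 13) (.e (nat_lit 172106) (nat_lit 10) (.e (nat_lit 434231) (nat_lit 23) (.e (nat_lit 532490) (nat_lit 0) (.e (nat_lit 7936) (nat_lit 357) .nil))))))) (.g (nat_lit 1) (.e (nat_lit 72427) (nat_lit 0) .nil) .nil)))))))))))) 
(.nd (nat_lit 1) (.nd (nat_lit 2) (.nd (nat_lit 3) (.nd (nat_lit 4) (.nd (nat_lit 5) 
(.nd (nat_lit 6) (.nd (nat_lit 7) (.nd (nat_lit 8) (.nd (nat_lit 9) 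
(.lf (nat_lit 462849) (.g (nat_lit 453) (.e (nat_lit 3062) (nat_lit 190) (.e (nat_lit 475199) (nat_lit 40) (.e (nat_lit 704846) (nat_lit 15) .nil))) (.g (nat_lit 0) (.e (nat_lit 67514) (nat_lit 0) .nil) .nil))) 
(.lf (nat_lit 463361) (.g (nat_lit 1105) (.e (nat_lit 3077) (nat_lit 191) (.e (nat_lit 483405) (nat_lit 26) (.e (nat_lit 385093) (nat_lit 49) (.e (nat_lit 778324) (nat_lit 5) .nil)))) (.g (nat_lit 0) (.e (nat_lit 68652) (nat_lit 0) .nil) .nil)))) (.nd (nat_lit 9) 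
(.lf (nat_lit 463105) (.g (nat_lit 1882) (.e (nat_lit 3067) (nat_lit 190) (.e (nat_lit 475183) (nat_lit 29) (.e (nat_lit 557107) (nat_lit 15) (.e (nat_lit 188450) (nat_lit 23) (.e (nat_lit 212736) (nat_lit 17) (.e (nat_lit 6666) (nat_lit 357) .nil)))))) (.g (nat_lit 1) (.e (nat_lit 68120) (nat_lit 0) .nil) .nil))) 
(.lf (nat_lit 463617) (.g (nat_lit 553) (.e (nat_lit 3089) (nat_lit 191) (.e (nat_lit 483383) (nat_lit 23) (.e (nat_lit 336240) (nat_lit 15) .nil))) (.g (nat_lit 0) (.e (nat_lit 70869) (nat_lit 0) .nil) .nil))))) (.nd (nat_lit 8) (.nd (nat_lit 9) 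
(.lf (nat_lit 462977) (.g (nat_lit 1993) (.e (nat_lit 3066) (nat_lit 190) (.e (nat_lit 475185) (nat_lit 29) (.e (nat_lit 557098) (nat_lit 13) (.e (nat_lit 172085) (nat_lit 9) .nil)))) (.g (nat_lit 0) (.e (nat_lit 67841) (nat_lit 0) .nil) .nil))) 
(.lf (nat_lit 463489) (.g (nat_lit 1170) (.e (nat_lit 3087) (nat_lit 191) (.e (nat_lit 483394) (nat_lit 24) (.e (nat_lit 344097) (nat_lit 18) (.e (nat_lit 5906) (nat_lit 320) .nil)))) (.g (nat_lit 0) (.e (nat_lit 69678) (nat_lit 0) .nil) .nil)))) (.nd (nat_lit 9) 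
(.lf (nat_lit 463233) (.g (nat_lit 1881) (.e (nat_lit 3071) (nat_lit 190) (.e (nat_lit 475177) (nat_lit 24) (.e (nat_lit 516150) (nat_lit 9) (.e (nat_lit 426436) (nat_lit 18) .nil)))) (.g (nat_lit 0) (.e (nat_lit 68349) (nat_lit 0) .nil) .nil))) 
(.lf (nat_lit 463745) (.g (nat_lit 959) (.e (nat_lit 3090) (nat_lit 191) (.e (nat_lit 483383) (nat_lit 23) (.e (nat_lit 336306) (nat_lit 15) .nil))) (.g (nat_lit 0) (.e (nat_lit 71480) (nat_lit 0) .nil) .nil)))))) (.nd (nat_lit 7) (.nd (nat_lit 8) (.nd (nat_lit 9) 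
(.lf (nat_lit 462913) (.g (nat_lit 2848) (.e (nat_lit 3064) (nat_lit 190) (.e (nat_lit 475185) (nat_lit 29) (.e (nat_lit 557101) (nat_lit 13) (.e (nat_lit 172115) (nat_lit 10) (.e (nat_lit 434231) (nat_lit 23) (.e (nat_lit 532481) (nat_lit 0) (.e (nat_lit 6691) (nat_lit 357) .nil))))))) (.g (nat_lit 1) (.e (nat_lit 67705) (nat_lit 0) .nil) .nil))) 
(.lf (nat_lit 463425) (.g (nat_lit 1977) (.e (nat_lit 3085) (nat_lit 191) (.e (nat_lit 483405) (nat_lit 26) (.e (nat_lit 385093) (nat_lit 49) (.e (nat_lit 778324) (nat_lit 5) (.e (nat_lit 81664) (nat_lit 32) .nil))))) (.g (nat_lit 1) (.e (nat_lit 69154) (nat_lit 0) .nil) .nil)))) (.nd (nat_lit 9) 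
(.lf (nat_lit 463169) (.g (nat_lit 3072) (.e (nat_lit 3067) (nat_lit 190) (.e (nat_lit 475185) (nat_lit 29) (.e (nat_lit 557107) (nat_lit 15) (.e (nat_lit 188450) (nat_lit 23) (.e (nat_lit 204821) (nat_lit 17) (.e (nat_lit 6680) (nat_lit 357) .nil)))))) (.g (nat_lit 1) (.e (nat_lit 68188) (nat_lit 0) .nil) .nil))) 
(.lf (nat_lit 463681) (.g (nat_lit 2065) (.e (nat_lit 3090) (nat_lit 191) (.e (nat_lit 483344) (nat_lit 17) (.e (nat_lit 6643) (nat_lit 357) (.e (nat_lit 2856) (nat_lit 184) (.e (nat_lit 426533) (nat_lit 28) .nil))))) (.g (nat_lit 0) (.e (nat_lit 71099) (nat_lit 0) .nil) .nil))))) (.nd (nat_lit 8) (.nd (nat_lit 9) 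
(.lf (nat_lit 463041) (.g (nat_lit 1995) (.e (nat_lit 3067) (nat_lit 190) (.e (nat_lit 475178) (nat_lit 24) (.e (nat_lit 516126) (nat_lit 2) (.e (nat_lit 213032) (nat_lit 11) (.e (nat_lit 24605) (nat_lit 2) (.e (nat_lit 90165) (nat_lit 12) (.e (nat_lit 164248) (nat_lit 201) .nil))))))) (.g (nat_lit 1) (.e (nat_lit 67948) (nat_lit 0) .nil) .nil))) 
(.lf (nat_lit 463553) (.g (nat_lit 2416) (.e (nat_lit 3088) (nat_lit 191) (.e (nat_lit 483393) (nat_lit 23) (.e (nat_lit 336293) (nat_lit 15) (.e (nat_lit 3632) (nat_lit 227) (.e (nat_lit 778323) (nat_lit 5) (.e (nat_lit 73781) (nat_lit 32) .nil)))))) (.g (nat_lit 1) (.e (nat_lit 70024) (nat_lit 0) .nil) .nil)))) (.nd (nat_lit 9) 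
(.lf (nat_lit 463297) (.g (nat_lit 2432) (.e (nat_lit 3071) (nat_lit 190) (.e (nat_lit 475185) (nat_lit 29) (.e (nat_lit 557107) (nat_lit 15) (.e (nat_lit 188447) (nat_lit 22) (.e (nat_lit 196661) (nat_lit 12) (.e (nat_lit 65280) (nat_lit 201) .nil)))))) (.g (nat_lit 1) (.e (nat_lit 68439) (nat_lit 0) .nil) .nil))) 
(.lf (nat_lit 463809) (.g (nat_lit 1595) (.e (nat_lit 3092) (nat_lit 191) (.e (nat_lit 483403) (nat_lit 26) (.e (nat_lit 385094) (nat_lit 49) (.e (nat_lit 778324) (nat_lit 5) .nil)))) (.g (nat_lit 0) (.e (nat_lit 71736) (nat_lit 0) .nil) .nil))))))) (.nd (nat_lit 6) (.nd (nat_lit 7) (.nd (nat_lit 8) (.nd (nat_lit 9) 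
(.lf (nat_lit 462881) (.g (nat_lit 2251) (.e (nat_lit 3063) (nat_lit 190) (.e (nat_lit 475185) (nat_lit 29) (.e (nat_lit 557101) (nat_lit 13) (.e (nat_lit 172115) (nat_lit 10) (.e (nat_lit 434231) (nat_lit 23) (.e (nat_lit 532482) (nat_lit 0) (.e (nat_lit 6617) (nat_lit 357) .nil))))))) (.g (nat_lit 1) (.e (nat_lit 67619) (nat_lit 0) .nil) .nil))) 
(.lf (nat_lit 463393) (.g (nat_lit 974) (.e (nat_lit 3082) (nat_lit 191) (.e (nat_lit 483408) (nat_lit 26) (.e (nat_lit 385091) (nat_lit 49) (.e (nat_lit 778323) (nat_lit 5) .nil)))) (.g (nat_lit 0) (.e (nat_lit 68892) (nat_lit 0) .nil) .nil)))) (.nd (nat_lit 9) 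
(.lf (nat_lit 463137) (.g (nat_lit 4637) (.e (nat_lit 3067) (nat_lit 190) (.e (nat_lit 475184) (nat_lit 29) (.e (nat_lit 557109) (nat_lit 15) (.e (nat_lit 188452) (nat_lit 23) (.e (nat_lit 204819) (nat_lit 17) (.e (nat_lit 6666) (nat_lit 357) .nil)))))) (.g (nat_lit 1) (.e (nat_lit 68152) (nat_lit 0) .nil) .nil))) 
(.lf (nat_lit 463649) (.g (nat_lit 2731) (.e (nat_lit 3089) (nat_lit 191) (.e (nat_lit 483387) (nat_lit 23) (.e (nat_lit 336282) (nat_lit 15) (.e (nat_lit 3632) (nat_lit 227) (.e (nat_lit 778323) (nat_lit 5) (.e (nat_lit 73782) (nat_lit 32) .nil)))))) (.g (nat_lit 1) (.e (nat_lit 70906) (nat_lit 0) .nil) .nil))))) (.nd (nat_lit 8) (.nd (nat_lit 9) 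
(.lf (nat_lit 463009) (.g (nat_lit 3618) (.e (nat_lit 3067) (nat_lit 190) (.e (nat_lit 483072) (nat_lit 26) (.e (nat_lit 532544) (nat_lit 10) (.e (nat_lit 344117) (nat_lit 21) (.e (nat_lit 516129) (nat_lit 3) (.e (nat_lit 221210) (nat_lit 22) (.e (nat_lit 196616) (nat_lit 0) .nil))))))) (.g (nat_lit 1) (.e (nat_lit 67888) (nat_lit 0) .nil) .nil))) 
(.lf (nat_lit 463521) (.g (nat_lit 2010) (.e (nat_lit 3087) (nat_lit 191) (.e (nat_lit 483408) (nat_lit 26) (.e (nat_lit 385092) (nat_lit 49) (.e (nat_lit 778323) (nat_lit 5) (.e (nat_lit 73782) (nat_lit 32) .nil))))) (.g (nat_lit 1) (.e (nat_lit 69715) (nat_lit 0) .nil) .nil)))) (.nd (nat_lit 9) 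
(.lf (nat_lit 463265) (.g (nat_lit 2817) (.e (nat_lit 3071) (nat_lit 190) (.e (nat_lit 475185) (nat_lit 29) (.e (nat_lit 557100) (nat_lit 13) (.e (nat_lit 172106) (nat_lit 10) (.e (nat_lit 434227) (nat_lit 20) (.e (nat_lit 507930) (nat_lit 10) (.e (nat_lit 5615) (nat_lit 312) .nil))))))) (.g (nat_lit 1) (.e (nat_lit 68407) (nat_lit 0) .nil) .nil))) 
(.lf (nat_lit 463777) (.g (nat_lit 768) (.e (nat_lit 3090) (nat_lit 191) (.e (nat_lit 483403) (nat_lit 26) (.e (nat_lit 392960) (nat_lit 49) .nil))) (.g (nat_lit 0) (.e (nat_lit 71524) (nat_lit 0) .nil) .nil)))))) (.nd (nat_lit 7) (.nd (nat_lit 8) (.nd (nat_lit 9) 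
(.lf (nat_lit 462945) (.g (nat_lit 3471) (.e (nat_lit 3065) (nat_lit 190) (.e (nat_lit 475185) (nat_lit 29) (.e (nat_lit 557109) (nat_lit 15) (.e (nat_lit 188447) (nat_lit 22) (.e (nat_lit 196661) (nat_lit 12) .nil))))) (.g (nat_lit 0) (.e (nat_lit 67775) (nat_lit 0) .nil) .nil))) 
(.lf (nat_lit 463457) (.g (nat_lit 764) (.e (nat_lit 3087) (nat_lit 191) (.e (nat_lit 483379) (nat_lit 23) (.e (nat_lit 336332) (nat_lit 19) (.e (nat_lit 220928) (nat_lit 5) .nil)))) (.g (nat_lit 0) (.e (nat_lit 69644) (nat_lit 0) .nil) .nil)))) (.nd (nat_lit 9) 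
(.lf (nat_lit 463201) (.g (nat_lit 2070) (.e (nat_lit 3069) (nat_lit 190) (.e (nat_lit 475184) (nat_lit 29) (.e (nat_lit 557109) (nat_lit 15) (.e (nat_lit 188458) (nat_lit 25) (.e (nat_lit 245784) (nat_lit 9) .nil))))) (.g (nat_lit 0) (.e (nat_lit 68293) (nat_lit 0) .nil) .nil))) 
(.lf (nat_lit 463713) (.g (nat_lit 257) (.e (nat_lit 3090) (nat_lit 191) (.e (nat_lit 483372) (nat_lit 21) (.e (nat_lit 319505) (nat_lit 10) .nil))) (.g (nat_lit 0) (.e (nat_lit 71272) (nat_lit 0) .nil) .nil))))) (.nd (nat_lit 8) (.nd (nat_lit 9) 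
(.lf (nat_lit 463073) (.g (nat_lit 1931) (.e (nat_lit 3067) (nat_lit 190) (.e (nat_lit 475179) (nat_lit 24) (.e (nat_lit 516150) (nat_lit 9) (.e (nat_lit 426438) (nat_lit 18) .nil)))) (.g (nat_lit 0) (.e (nat_lit 68066) (nat_lit 0) .nil) .nil))) 
(.lf (nat_lit 463585) (.g (nat_lit 2785) (.e (nat_lit 3088) (nat_lit 191) (.e (nat_lit 483408) (nat_lit 26) (.e (nat_lit 385093) (nat_lit 49) (.e (nat_lit 778323) (nat_lit 5) (.e (nat_lit 73781) (nat_lit 32) .nil))))) (.g (nat_lit 1) (.e (nat_lit 70070) (nat_lit 0) .nil) .nil)))) (.nd (nat_lit 9) 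
(.lf (nat_lit 463329) (.g (nat_lit 4017) (.e (nat_lit 3072) (nat_lit 190) (.e (nat_lit 475185) (nat_lit 29) (.e (nat_lit 557101) (nat_lit 13) (.e (nat_lit 172115) (nat_lit 10) (.e (nat_lit 434231) (nat_lit 23) (.e (nat_lit 532490) (nat_lit 0) (.e (nat_lit 7936) (nat_lit 357) .nil))))))) (.g (nat_lit 1) (.e (nat_lit 68530) (nat_lit 0) .nil) .nil))) 
(.lf (nat_lit 463841) (.g (nat_lit 2131) (.e (nat_lit 3094) (nat_lit 191) (.e (nat_lit 483408) (nat_lit 26) (.e (nat_lit 385093) (nat_lit 49) (.e (nat_lit 778323) (nat_lit 5) (.e (nat_lit 81664) (nat_lit 32) .nil))))) (.g (nat_lit 1) (.e (nat_lit 72098) (nat_lit 0) .nil) .nil)))))))) (.nd (nat_lit 5) (.nd (nat_lit 6) (.nd (nat_lit 7) (.nd (nat_lit 8) (.nd (nat_lit 9) 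
(.lf (nat_lit 462865) (.g (nat_lit 2978) (.e (nat_lit 3063) (nat_lit 190) (.e (nat_lit 475185) (nat_lit 29) (.e (nat_lit 557100) (nat_lit 13) (.e (nat_lit 172113) (nat_lit 10) (.e (nat_lit 434227) (nat_lit 20) .nil))))) (.g (nat_lit 0) (.e (nat_lit 67603) (nat_lit 0) .nil) .nil))) 
(.lf (nat_lit 463377) (.g (nat_lit 3139) (.e (nat_lit 3078) (nat_lit 191) (.e (nat_lit 483413) (nat_lit 27) (.e (nat_lit 401440) (nat_lit 9) (.e (nat_lit 426470) (nat_lit 25) (.e (nat_lit 319490) (nat_lit 0) (.e (nat_lit 5664) (nat_lit 312) .nil)))))) (.g (nat_lit 1) (.e (nat_lit 68777) (nat_lit 0) .nil) .nil)))) (.nd (nat_lit 9) 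
(.lf (nat_lit 463121) (.g (nat_lit 4418) (.e (nat_lit 3067) (nat_lit 190) (.e (nat_lit 475183) (nat_lit 29) (.e (nat_lit 557109) (nat_lit 15) (.e (nat_lit 188452) (nat_lit 23) (.e (nat_lit 204821) (nat_lit 17) (.e (nat_lit 6676) (nat_lit 357) .nil)))))) (.g (nat_lit 1) (.e (nat_lit 68136) (nat_lit 0) .nil) .nil))) 
(.lf (nat_lit 463633) (.g (nat_lit 871) (.e (nat_lit 3089) (nat_lit 191) (.e (nat_lit 483383) (nat_lit 23) (.e (nat_lit 336269) (nat_lit 15) .nil))) (.g (nat_lit 0) (.e (nat_lit 70887) (nat_lit 0) .nil) .nil))))) (.nd (nat_lit 8) (.nd (nat_lit 9) 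
(.lf (nat_lit 462993) (.g (nat_lit 2442) (.e (nat_lit 3066) (nat_lit 190) (.e (nat_lit 475185) (nat_lit 29) (.e (nat_lit 557107) (nat_lit 15) (.e (nat_lit 188447) (nat_lit 22) (.e (nat_lit 196661) (nat_lit 12) (.e (nat_lit 57751) (nat_lit 201) .nil)))))) (.g (nat_lit 1) (.e (nat_lit 67857) (nat_lit 0) .nil) .nil))) 
(.lf (nat_lit 463505) (.g (nat_lit 1424) (.e (nat_lit 3087) (nat_lit 191) (.e (nat_lit 483405) (nat_lit 26) (.e (nat_lit 385092) (nat_lit 49) (.e (nat_lit 778323) (nat_lit 5) (.e (nat_lit 73781) (nat_lit 32) .nil))))) (.g (nat_lit 0) (.e (nat_lit 69697) (nat_lit 0) .nil) .nil)))) (.nd (nat_lit 9) 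
(.lf (nat_lit 463249) (.g (nat_lit 2565) (.e (nat_lit 3071) (nat_lit 190) (.e (nat_lit 475179) (nat_lit 24) (.e (nat_lit 516174) (nat_lit 14) (.e (nat_lit 466954) (nat_lit 11) (.e (nat_lit 335995) (nat_lit 1) (.e (nat_lit 57654) (nat_lit 152) (.e (nat_lit 2399) (nat_lit 157) .nil))))))) (.g (nat_lit 1) (.e (nat_lit 68385) (nat_lit 0) .nil) .nil))) 
(.lf (nat_lit 463761) (.g (nat_lit 3415) (.e (nat_lit 3090) (nat_lit 191) (.e (nat_lit 483387) (nat_lit 23) (.e (nat_lit 336282) (nat_lit 15) (.e (nat_lit 3632) (nat_lit 227) (.e (nat_lit 778324) (nat_lit 5) (.e (nat_lit 73781) (nat_lit 32) .nil)))))) (.g (nat_lit 1) (.e (nat_lit 71497) (nat_lit 0) .nil) .nil)))))) (.nd (nat_lit 7) (.nd (nat_lit 8) (.nd (nat_lit 9) 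
(.lf (nat_lit 462929) (.g (nat_lit 2621) (.e (nat_lit 3065) (nat_lit 190) (.e (nat_lit 475184) (nat_lit 29) (.e (nat_lit 557109) (nat_lit 15) (.e (nat_lit 188452) (nat_lit 23) (.e (nat_lit 204821) (nat_lit 17) (.e (nat_lit 6680) (nat_lit 357) .nil)))))) (.g (nat_lit 1) (.e (nat_lit 67759) (nat_lit 0) .nil) .nil))) 
(.lf (nat_lit 463441) (.g (nat_lit 2949) (.e (nat_lit 3085) (nat_lit 191) (.e (nat_lit 483413) (nat_lit 27) (.e (nat_lit 401447) (nat_lit 10) (.e (nat_lit 434207) (nat_lit 18) .nil)))) (.g (nat_lit 0) (.e (nat_lit 69413) (nat_lit 0) .nil) .nil)))) (.nd (nat_lit 9) 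
(.lf (nat_lit 463185) (.g (nat_lit 2862) (.e (nat_lit 3067) (nat_lit 190) (.e (nat_lit 475185) (nat_lit 29) (.e (nat_lit 557109) (nat_lit 15) (.e (nat_lit 188452) (nat_lit 23) (.e (nat_lit 204817) (nat_lit 17) (.e (nat_lit 6684) (nat_lit 357) .nil)))))) (.g (nat_lit 1) (.e (nat_lit 68204) (nat_lit 0) .nil) .nil))) 
(.lf (nat_lit 463697) (.g (nat_lit 1398) (.e (nat_lit 3090) (nat_lit 191) (.e (nat_lit 483354) (nat_lit 17) (.e (nat_lit 6206) (nat_lit 333) (.e (nat_lit 57864) (nat_lit 256) (.e (nat_lit 300) (nat_lit 22) (.e (nat_lit 344069) (nat_lit 0) .nil)))))) (.g (nat_lit 1) (.e (nat_lit 71139) (nat_lit 0) .nil) .nil))))) (.nd (nat_lit 8) (.nd (nat_lit 9) 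
(.lf (nat_lit 463057) (.g (nat_lit 2477) (.e (nat_lit 3067) (nat_lit 190) (.e (nat_lit 475179) (nat_lit 24) (.e (nat_lit 516117) (nat_lit 1) (.e (nat_lit 164332) (nat_lit 230) (.e (nat_lit 163941) (nat_lit 19) (.e (nat_lit 483333) (nat_lit 0) (.e (nat_lit 7348) (nat_lit 388) .nil))))))) (.g (nat_lit 1) (.e (nat_lit 67995) (nat_lit 0) .nil) .nil))) 
(.lf (nat_lit 463569) (.g (nat_lit 2461) (.e (nat_lit 3088) (nat_lit 191) (.e (nat_lit 483403) (nat_lit 26) (.e (nat_lit 385094) (nat_lit 49) (.e (nat_lit 778323) (nat_lit 5) (.e (nat_lit 73782) (nat_lit 32) .nil))))) (.g (nat_lit 1) (.e (nat_lit 70046) (nat_lit 0) .nil) .nil)))) (.nd (nat_lit 9) 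
(.lf (nat_lit 463313) (.g (nat_lit 2665) (.e (nat_lit 3071) (nat_lit 190) (.e (nat_lit 475185) (nat_lit 29) (.e (nat_lit 557109) (nat_lit 15) (.e (nat_lit 188452) (nat_lit 23) (.e (nat_lit 204815) (nat_lit 17) (.e (nat_lit 6617) (nat_lit 357) .nil)))))) (.g (nat_lit 1) (.e (nat_lit 68455) (nat_lit 0) .nil) .nil))) 
(.lf (nat_lit 463825) (.g (nat_lit 955) (.e (nat_lit 3094) (nat_lit 191) (.e (nat_lit 483402) (nat_lit 26) (.e (nat_lit 385093) (nat_lit 49) (.e (nat_lit 778324) (nat_lit 5) .nil)))) (.g (nat_lit 0) (.e (nat_lit 72074) (nat_lit 0) .nil) .nil))))))) (.nd (nat_lit 6) (.nd (nat_lit 7) (.nd (nat_lit 8) (.nd (nat_lit 9) 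
(.lf (nat_lit 462897) (.g (nat_lit 3535) (.e (nat_lit 3064) (nat_lit 190) (.e (nat_lit 475184) (nat_lit 29) (.e (nat_lit 557101) (nat_lit 13) (.e (nat_lit 172115) (nat_lit 10) (.e (nat_lit 434231) (nat_lit 23) (.e (nat_lit 532490) (nat_lit 0) (.e (nat_lit 6680) (nat_lit 357) .nil))))))) (.g (nat_lit 1) (.e (nat_lit 67689) (nat_lit 0) .nil) .nil))) 
(.lf (nat_lit 463409) (.g (nat_lit 2305) (.e (nat_lit 3085) (nat_lit 191) (.e (nat_lit 483337) (nat_lit 9) (.e (nat_lit 426200) (nat_lit 9) (.e (nat_lit 426128) (nat_lit 2) (.e (nat_lit 204544) (nat_lit 3) (.e (nat_lit 164017) (nat_lit 44) (.e (nat_lit 688138) (nat_lit 5) .nil))))))) (.g (nat_lit 1) (.e (nat_lit 68978) (nat_lit 0) .nil) .nil)))) (.nd (nat_lit 9) 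
(.lf (nat_lit 463153) (.g (nat_lit 3186) (.e (nat_lit 3067) (nat_lit 190) (.e (nat_lit 475185) (nat_lit 29) (.e (nat_lit 557100) (nat_lit 13) (.e (nat_lit 172113) (nat_lit 10) (.e (nat_lit 434231) (nat_lit 23) .nil))))) (.g (nat_lit 0) (.e (nat_lit 68171) (nat_lit 0) .nil) .nil))) 
(.lf (nat_lit 463665) (.g (nat_lit 1100) (.e (nat_lit 3089) (nat_lit 191) (.e (nat_lit 483403) (nat_lit 26) (.e (nat_lit 385092) (nat_lit 49) (.e (nat_lit 778324) (nat_lit 5) .nil)))) (.g (nat_lit 0) (.e (nat_lit 70929) (nat_lit 0) .nil) .nil))))) (.nd (nat_lit 8) (.nd (nat_lit 9) 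
(.lf (nat_lit 463025) (.g (nat_lit 3373) (.e (nat_lit 3067) (nat_lit 190) (.e (nat_lit 483072) (nat_lit 26) (.e (nat_lit 532544) (nat_lit 10) (.e (nat_lit 344133) (nat_lit 26) (.e (nat_lit 557098) (nat_lit 13) (.e (nat_lit 172045) (nat_lit 0) (.e (nat_lit 3308) (nat_lit 202) (.e (nat_lit 573446) (nat_lit 0) .nil)))))))) (.g (nat_lit 1) (.e (nat_lit 67904) (nat_lit 0) .nil) .nil))) 
(.lf (nat_lit 463537) (.g (nat_lit 986) (.e (nat_lit 3088) (nat_lit 191) (.e (nat_lit 483383) (nat_lit 23) (.e (nat_lit 336306) (nat_lit 15) .nil))) (.g (nat_lit 0) (.e (nat_lit 70007) (nat_lit 0) .nil) .nil)))) (.nd (nat_lit 9) 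
(.lf (nat_lit 463281) (.g (nat_lit 611) (.e (nat_lit 3071) (nat_lit 190) (.e (nat_lit 475185) (nat_lit 29) (.e (nat_lit 557101) (nat_lit 13) .nil))) (.g (nat_lit 0) (.e (nat_lit 68423) (nat_lit 0) .nil) .nil))) 
(.lf (nat_lit 463793) (.g (nat_lit 3179) (.e (nat_lit 3090) (nat_lit 191) (.e (nat_lit 483410) (nat_lit 27) (.e (nat_lit 401438) (nat_lit 9) (.e (nat_lit 426533) (nat_lit 28) (.e (nat_lit 344068) (nat_lit 0) .nil))))) (.g (nat_lit 1) (.e (nat_lit 71558) (nat_lit 0) .nil) .nil)))))) (.nd (nat_lit 7) (.nd (nat_lit 8) (.nd (nat_lit 9) 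
(.lf (nat_lit 462961) (.g (nat_lit 2273) (.e (nat_lit 3066) (nat_lit 190) (.e (nat_lit 475183) (nat_lit 29) (.e (nat_lit 557101) (nat_lit 13) (.e (nat_lit 172097) (nat_lit 9) (.e (nat_lit 426140) (nat_lit 3) (.e (nat_lit 204821) (nat_lit 17) (.e (nat_lit 6680) (nat_lit 357) .nil))))))) (.g (nat_lit 1) (.e (nat_lit 67823) (nat_lit 0) .nil) .nil))) 
(.lf (nat_lit 463473) (.g (nat_lit 622) (.e (nat_lit 3087) (nat_lit 191) (.e (nat_lit 483385) (nat_lit 23) (.e (nat_lit 336260) (nat_lit 15) .nil))) (.g (nat_lit 0) (.e (nat_lit 69661) (nat_lit 0) .nil) .nil)))) (.nd (nat_lit 9) 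
(.lf (nat_lit 463217) (.g (nat_lit 3532) (.e (nat_lit 3070) (nat_lit 190) (.e (nat_lit 475185) (nat_lit 29) (.e (nat_lit 557101) (nat_lit 13) (.e (nat_lit 172115) (nat_lit 10) (.e (nat_lit 434231) (nat_lit 23) (.e (nat_lit 532482) (nat_lit 0) (.e (nat_lit 6696) (nat_lit 357) .nil))))))) (.g (nat_lit 1) (.e (nat_lit 68324) (nat_lit 0) .nil) .nil))) 
(.lf (nat_lit 463729) (.g (nat_lit 2488) (.e (nat_lit 3090) (nat_lit 191) (.e (nat_lit 483380) (nat_lit 23) (.e (nat_lit 336262) (nat_lit 15) (.e (nat_lit 3632) (nat_lit 227) (.e (nat_lit 778323) (nat_lit 5) (.e (nat_lit 73782) (nat_lit 32) .nil)))))) (.g (nat_lit 1) (.e (nat_lit 71449) (nat_lit 0) .nil) .nil))))) (.nd (nat_lit 8) (.nd (nat_lit 9) 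
(.lf (nat_lit 463089) (.g (nat_lit 2439) (.e (nat_lit 3067) (nat_lit 190) (.e (nat_lit 475183) (nat_lit 29) (.e (nat_lit 557097) (nat_lit 13) (.e (nat_lit 172097) (nat_lit 9) (.e (nat_lit 426140) (nat_lit 3) (.e (nat_lit 212736) (nat_lit 17) (.e (nat_lit 6666) (nat_lit 357) .nil))))))) (.g (nat_lit 1) (.e (nat_lit 68104) (nat_lit 0) .nil) .nil))) 
(.lf (nat_lit 463601) (.g (nat_lit 3297) (.e (nat_lit 3088) (nat_lit 191) (.e (nat_lit 483413) (nat_lit 27) (.e (nat_lit 401435) (nat_lit 9) (.e (nat_lit 426533) (nat_lit 28) (.e (nat_lit 344068) (nat_lit 0) .nil))))) (.g (nat_lit 1) (.e (nat_lit 70165) (nat_lit 0) .nil) .nil)))) (.nd (nat_lit 9) 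
(.lf (nat_lit 463345) (.g (nat_lit 2041) (.e (nat_lit 7936) (nat_lit 190) (.e (nat_lit 475199) (nat_lit 40) (.e (nat_lit 704589) (nat_lit 3) (.e (nat_lit 163978) (nat_lit 30) (.e (nat_lit 573485) (nat_lit 13) .nil))))) (.g (nat_lit 0) (.e (nat_lit 68568) (nat_lit 0) .nil) .nil))) 
(.lf (nat_lit 463857) (.g (nat_lit 3088) (.e (nat_lit 3095) (nat_lit 192) (.e (nat_lit 491569) (nat_lit 13) (.e (nat_lit 393301) (nat_lit 27) (.e (nat_lit 491558) (nat_lit 10) (.e (nat_lit 344090) (nat_lit 18) .nil))))) (.g (nat_lit 0) (.e (nat_lit 72410) (nat_lit 0) .nil) .nil))))))))) (.nd (nat_lit 4) (.nd (nat_lit 5) (.nd (nat_lit 6) (.nd (nat_lit 7) (.nd (nat_lit 8) (.nd (nat_lit 9) 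
(.lf (nat_lit 462857) (.g (nat_lit 1602) (.e (nat_lit 3063) (nat_lit 190) (.e (nat_lit 475179) (nat_lit 24) (.e (nat_lit 516176) (nat_lit 14) (.e (nat_lit 466954) (nat_lit 11) .nil)))) (.g (nat_lit 0) (.e (nat_lit 67595) (nat_lit 0) .nil) .nil))) 
(.lf (nat_lit 463369) (.g (nat_lit 1588) (.e (nat_lit 3077) (nat_lit 191) (.e (nat_lit 483407) (nat_lit 26) (.e (nat_lit 385094) (nat_lit 49) (.e (nat_lit 778323) (nat_lit 5) (.e (nat_lit 81664) (nat_lit 32) .nil))))) (.g (nat_lit 1) (.e (nat_lit 68668) (nat_lit 0) .nil) .nil)))) (.nd (nat_lit 9) 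
(.lf (nat_lit 463113) (.g (nat_lit 4029) (.e (nat_lit 3067) (nat_lit 190) (.e (nat_lit 475183) (nat_lit 29) (.e (nat_lit 557108) (nat_lit 15) (.e (nat_lit 188452) (nat_lit 23) (.e (nat_lit 204821) (nat_lit 17) (.e (nat_lit 6676) (nat_lit 357) .nil)))))) (.g (nat_lit 1) (.e (nat_lit 68128) (nat_lit 0) .nil) .nil))) 
(.lf (nat_lit 463625) (.g (nat_lit 2215) (.e (nat_lit 3089) (nat_lit 191) (.e (nat_lit 483383) (nat_lit 23) (.e (nat_lit 336263) (nat_lit 15) (.e (nat_lit 3631) (nat_lit 227) (.e (nat_lit 778323) (nat_lit 5) (.e (nat_lit 73781) (nat_lit 32) .nil)))))) (.g (nat_lit 1) (.e (nat_lit 70879) (nat_lit 0) .nil) .nil))))) (.nd (nat_lit 8) (.nd (nat_lit 9) 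
(.lf (nat_lit 462985) (.g (nat_lit 4247) (.e (nat_lit 3066) (nat_lit 190) (.e (nat_lit 475185) (nat_lit 29) (.e (nat_lit 557100) (nat_lit 13) (.e (nat_lit 172106) (nat_lit 10) (.e (nat_lit 434231) (nat_lit 23) (.e (nat_lit 532490) (nat_lit 0) (.e (nat_lit 6680) (nat_lit 357) .nil))))))) (.g (nat_lit 1) (.e (nat_lit 67849) (nat_lit 0) .nil) .nil))) 
(.lf (nat_lit 463497) (.g (nat_lit 945) (.e (nat_lit 3087) (nat_lit 191) (.e (nat_lit 483403) (nat_lit 26) (.e (nat_lit 385092) (nat_lit 49) .nil))) (.g (nat_lit 0) (.e (nat_lit 69687) (nat_lit 0) .nil) .nil)))) (.nd (nat_lit 9) 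
(.lf (nat_lit 463241) (.g (nat_lit 2309) (.e (nat_lit 3071) (nat_lit 190) (.e (nat_lit 475179) (nat_lit 24) (.e (nat_lit 516146) (nat_lit 9) (.e (nat_lit 426438) (nat_lit 18) .nil)))) (.g (nat_lit 0) (.e (nat_lit 68364) (nat_lit 0) .nil) .nil))) 
(.lf (nat_lit 463753) (.g (nat_lit 1876) (.e (nat_lit 3090) (nat_lit 191) (.e (nat_lit 483386) (nat_lit 23) (.e (nat_lit 336282) (nat_lit 15) (.e (nat_lit 3631) (nat_lit 227) (.e (nat_lit 778323) (nat_lit 5) (.e (nat_lit 73782) (nat_lit 32) .nil)))))) (.g (nat_lit 1) (.e (nat_lit 71488) (nat_lit 0) .nil) .nil)))))) (.nd (nat_lit 7) (.nd (nat_lit 8) (.nd (nat_lit 9) 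
(.lf (nat_lit 462921) (.g (nat_lit 2545) (.e (nat_lit 3065) (nat_lit 190) (.e (nat_lit 475184) (nat_lit 29) (.e (nat_lit 557098) (nat_lit 13) (.e (nat_lit 172097) (nat_lit 9) (.e (nat_lit 426125) (nat_lit 2) (.e (nat_lit 196661) (nat_lit 12) (.e (nat_lit 57750) (nat_lit 201) .nil))))))) (.g (nat_lit 1) (.e (nat_lit 67751) (nat_lit 0) .nil) .nil))) 
(.lf (nat_lit 463433) (.g (nat_lit 1113) (.e (nat_lit 3085) (nat_lit 191) (.e (nat_lit 483413) (nat_lit 27) (.e (nat_lit 401443) (nat_lit 9) .nil))) (.g (nat_lit 0) (.e (nat_lit 69346) (nat_lit 0) .nil) .nil)))) (.nd (nat_lit 9) 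
(.lf (nat_lit 463177) (.g (nat_lit 2440) (.e (nat_lit 3067) (nat_lit 190) (.e (nat_lit 475185) (nat_lit 29) (.e (nat_lit 557109) (nat_lit 15) (.e (nat_lit 188450) (nat_lit 23) (.e (nat_lit 204817) (nat_lit 17) .nil))))) (.g (nat_lit 0) (.e (nat_lit 68196) (nat_lit 0) .nil) .nil))) 
(.lf (nat_lit 463689) (.g (nat_lit 1766) (.e (nat_lit 3090) (nat_lit 191) (.e (nat_lit 483354) (nat_lit 17) (.e (nat_lit 6114) (nat_lit 332) (.e (nat_lit 1376) (nat_lit 104) (.e (nat_lit 303154) (nat_lit 28) (.e (nat_lit 344069) (nat_lit 0) .nil)))))) (.g (nat_lit 1) (.e (nat_lit 71131) (nat_lit 0) .nil) .nil))))) (.nd (nat_lit 8) (.nd (nat_lit 9) 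
(.lf (nat_lit 463049) (.g (nat_lit 2582) (.e (nat_lit 3067) (nat_lit 190) (.e (nat_lit 475179) (nat_lit 24) (.e (nat_lit 516117) (nat_lit 1) (.e (nat_lit 164329) (nat_lit 230) .nil)))) (.g (nat_lit 0) (.e (nat_lit 67984) (nat_lit 0) .nil) .nil))) 
(.lf (nat_lit 463561) (.g (nat_lit 2785) (.e (nat_lit 3088) (nat_lit 191) (.e (nat_lit 483395) (nat_lit 24) (.e (nat_lit 344169) (nat_lit 40) (.e (nat_lit 671763) (nat_lit 5) (.e (nat_lit 73782) (nat_lit 32) .nil))))) (.g (nat_lit 1) (.e (nat_lit 70034) (nat_lit 0) .nil) .nil)))) (.nd (nat_lit 9) 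
(.lf (nat_lit 463305) (.g (nat_lit 3745) (.e (nat_lit 3071) (nat_lit 190) (.e (nat_lit 475185) (nat_lit 29) (.e (nat_lit 557107) (nat_lit 15) (.e (nat_lit 188452) (nat_lit 23) (.e (nat_lit 204816) (nat_lit 17) (.e (nat_lit 6619) (nat_lit 357) .nil)))))) (.g (nat_lit 1) (.e (nat_lit 68447) (nat_lit 0) .nil) .nil))) 
(.lf (nat_lit 463817) (.g (nat_lit 1406) (.e (nat_lit 3094) (nat_lit 191) (.e (nat_lit 483346) (nat_lit 17) (.e (nat_lit 6203) (nat_lit 332) (.e (nat_lit 2544) (nat_lit 158) .nil)))) (.g (nat_lit 0) (.e (nat_lit 72015) (nat_lit 0) .nil) .nil))))))) (.nd (nat_lit 6) (.nd (nat_lit 7) (.nd (nat_lit 8) (.nd (nat_lit 9) 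
(.lf (nat_lit 462889) (.g (nat_lit 1998) (.e (nat_lit 3064) (nat_lit 190) (.e (nat_lit 475183) (nat_lit 29) (.e (nat_lit 557097) (nat_lit 13) (.e (nat_lit 172097) (nat_lit 9) (.e (nat_lit 426125) (nat_lit 2) .nil))))) (.g (nat_lit 0) (.e (nat_lit 67681) (nat_lit 0) .nil) .nil))) 
(.lf (nat_lit 463401) (.g (nat_lit 1593) (.e (nat_lit 3083) (nat_lit 191) (.e (nat_lit 483407) (nat_lit 26) (.e (nat_lit 385094) (nat_lit 49) (.e (nat_lit 778323) (nat_lit 5) (.e (nat_lit 81664) (nat_lit 32) .nil))))) (.g (nat_lit 1) (.e (nat_lit 68931) (nat_lit 0) .nil) .nil)))) (.nd (nat_lit 9) 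
(.lf (nat_lit 463145) (.g (nat_lit 4665) (.e (nat_lit 3067) (nat_lit 190) (.e (nat_lit 475185) (nat_lit 29) (.e (nat_lit 557098) (nat_lit 13) (.e (nat_lit 172097) (nat_lit 9) (.e (nat_lit 426140) (nat_lit 3) (.e (nat_lit 204821) (nat_lit 17) (.e (nat_lit 6676) (nat_lit 357) .nil))))))) (.g (nat_lit 1) (.e (nat_lit 68163) (nat_lit 0) .nil) .nil))) 
(.lf (nat_lit 463657) (.g (nat_lit 2312) (.e (nat_lit 3089) (nat_lit 191) (.e (nat_lit 483396) (nat_lit 24) (.e (nat_lit 344169) (nat_lit 40) (.e (nat_lit 671763) (nat_lit 5) (.e (nat_lit 73781) (nat_lit 32) .nil))))) (.g (nat_lit 1) (.e (nat_lit 70916) (nat_lit 0) .nil) .nil))))) (.nd (nat_lit 8) (.nd (nat_lit 9) 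
(.lf (nat_lit 463017) (.g (nat_lit 2696) (.e (nat_lit 3067) (nat_lit 190) (.e (nat_lit 483072) (nat_lit 26) (.e (nat_lit 532544) (nat_lit 10) (.e (nat_lit 344130) (nat_lit 26) (.e (nat_lit 557097) (nat_lit 13) (.e (nat_lit 172045) (nat_lit 0) (.e (nat_lit 3308) (nat_lit 202) (.e (nat_lit 573446) (nat_lit 0) .nil)))))))) (.g (nat_lit 1) (.e (nat_lit 67896) (nat_lit 0) .nil) .nil))) 
(.lf (nat_lit 463529) (.g (nat_lit 1176) (.e (nat_lit 3088) (nat_lit 191) (.e (nat_lit 483383) (nat_lit 23) (.e (nat_lit 335999) (nat_lit 1) .nil))) (.g (nat_lit 0) (.e (nat_lit 69999) (nat_lit 0) .nil) .nil)))) (.nd (nat_lit 9) 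
(.lf (nat_lit 463273) (.g (nat_lit 2281) (.e (nat_lit 3071) (nat_lit 190) (.e (nat_lit 475185) (nat_lit 29) (.e (nat_lit 557100) (nat_lit 13) (.e (nat_lit 172113) (nat_lit 10) (.e (nat_lit 434227) (nat_lit 20) .nil))))) (.g (nat_lit 0) (.e (nat_lit 68415) (nat_lit 0) .nil) .nil))) 
(.lf (nat_lit 463785) (.g (nat_lit 1228) (.e (nat_lit 3090) (nat_lit 191) (.e (nat_lit 483406) (nat_lit 26) (.e (nat_lit 385095) (nat_lit 49) (.e (nat_lit 786176) (nat_lit 5) .nil)))) (.g (nat_lit 0) (.e (nat_lit 71540) (nat_lit 0) .nil) .nil)))))) (.nd (nat_lit 7) (.nd (nat_lit 8) (.nd (nat_lit 9) 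
(.lf (nat_lit 462953) (.g (nat_lit 2850) (.e (nat_lit 3066) (nat_lit 190) (.e (nat_lit 475183) (nat_lit 29) (.e (nat_lit 557097) (nat_lit 13) (.e (nat_lit 172097) (nat_lit 9) (.e (nat_lit 426125) (nat_lit 2) (.e (nat_lit 196661) (nat_lit 12) (.e (nat_lit 57750) (nat_lit 201) .nil))))))) (.g (nat_lit 1) (.e (nat_lit 67815) (nat_lit 0) .nil) .nil))) 
(.lf (nat_lit 463465) (.g (nat_lit 1176) (.e (nat_lit 3087) (nat_lit 191) (.e (nat_lit 483383) (nat_lit 23) (.e (nat_lit 336240) (nat_lit 15) .nil))) (.g (nat_lit 0) (.e (nat_lit 69653) (nat_lit 0) .nil) .nil)))) (.nd (nat_lit 9) 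
(.lf (nat_lit 463209) (.g (nat_lit 2806) (.e (nat_lit 3070) (nat_lit 190) (.e (nat_lit 475185) (nat_lit 29) (.e (nat_lit 557098) (nat_lit 13) (.e (nat_lit 172115) (nat_lit 10) (.e (nat_lit 434231) (nat_lit 23) (.e (nat_lit 532482) (nat_lit 0) (.e (nat_lit 6696) (nat_lit 357) .nil))))))) (.g (nat_lit 1) (.e (nat_lit 68316) (nat_lit 0) .nil) .nil))) 
(.lf (nat_lit 463721) (.g (nat_lit 2372) (.e (nat_lit 3090) (nat_lit 191) (.e (nat_lit 483378) (nat_lit 23) (.e (nat_lit 336282) (nat_lit 15) (.e (nat_lit 3632) (nat_lit 227) (.e (nat_lit 778324) (nat_lit 5) (.e (nat_lit 73781) (nat_lit 32) .nil)))))) (.g (nat_lit 1) (.e (nat_lit 71441) (nat_lit 0) .nil) .nil))))) (.nd (nat_lit 8) (.nd (nat_lit 9) 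
(.lf (nat_lit 463081) (.g (nat_lit 3158) (.e (nat_lit 3067) (nat_lit 190) (.e (nat_lit 475179) (nat_lit 24) (.e (nat_lit 516176) (nat_lit 14) (.e (nat_lit 466954) (nat_lit 11) (.e (nat_lit 335986) (nat_lit 1) (.e (nat_lit 57655) (nat_lit 152) (.e (nat_lit 2504) (nat_lit 157) .nil))))))) (.g (nat_lit 1) (.e (nat_lit 68091) (nat_lit 0) .nil) .nil))) 
(.lf (nat_lit 463593) (.g (nat_lit 1513) (.e (nat_lit 3088) (nat_lit 191) (.e (nat_lit 483411) (nat_lit 27) (.e (nat_lit 401437) (nat_lit 9) (.e (nat_lit 426533) (nat_lit 28) .nil)))) (.g (nat_lit 0) (.e (nat_lit 70095) (nat_lit 0) .nil) .nil)))) (.nd (nat_lit 9) 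
(.lf (nat_lit 463337) (.g (nat_lit 3205) (.e (nat_lit 3073) (nat_lit 190) (.e (nat_lit 475185) (nat_lit 29) (.e (nat_lit 557109) (nat_lit 15) (.e (nat_lit 188452) (nat_lit 23) (.e (nat_lit 204821) (nat_lit 17) (.e (nat_lit 7936) (nat_lit 357) .nil)))))) (.g (nat_lit 1) (.e (nat_lit 68543) (nat_lit 0) .nil) .nil))) 
(.lf (nat_lit 463849) (.g (nat_lit 1117) (.e (nat_lit 3095) (nat_lit 192) (.e (nat_lit 491566) (nat_lit 12) (.e (nat_lit 385074) (nat_lit 31) .nil))) (.g (nat_lit 0) (.e (nat_lit 72399) (nat_lit 0) .nil) .nil)))))))) (.nd (nat_lit 5) (.nd (nat_lit 6) (.nd (nat_lit 7) (.nd (nat_lit 8) (.nd (nat_lit 9) 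
(.lf (nat_lit 462873) (.g (nat_lit 701) (.e (nat_lit 3063) (nat_lit 190) (.e (nat_lit 475185) (nat_lit 29) (.e (nat_lit 557101) (nat_lit 13) .nil))) (.g (nat_lit 0) (.e (nat_lit 67611) (nat_lit 0) .nil) .nil))) 
(.lf (nat_lit 463385) (.g (nat_lit 1557) (.e (nat_lit 3080) (nat_lit 191) (.e (nat_lit 483403) (nat_lit 26) (.e (nat_lit 385093) (nat_lit 49) (.e (nat_lit 778323) (nat_lit 5) .nil)))) (.g (nat_lit 0) (.e (nat_lit 68858) (nat_lit 0) .nil) .nil)))) (.nd (nat_lit 9) 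
(.lf (nat_lit 463129) (.g (nat_lit 1823) (.e (nat_lit 3067) (nat_lit 190) (.e (nat_lit 475184) (nat_lit 29) (.e (nat_lit 557107) (nat_lit 15) (.e (nat_lit 188452) (nat_lit 23) (.e (nat_lit 204821) (nat_lit 17) .nil))))) (.g (nat_lit 0) (.e (nat_lit 68144) (nat_lit 0) .nil) .nil))) 
(.lf (nat_lit 463641) (.g (nat_lit 2122) (.e (nat_lit 3089) (nat_lit 191) (.e (nat_lit 483386) (nat_lit 23) (.e (nat_lit 336282) (nat_lit 15) (.e (nat_lit 3632) (nat_lit 227) (.e (nat_lit 778323) (nat_lit 5) (.e (nat_lit 73781) (nat_lit 32) .nil)))))) (.g (nat_lit 1) (.e (nat_lit 70898) (nat_lit 0) .nil) .nil))))) (.nd (nat_lit 8) (.nd (nat_lit 9) 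
(.lf (nat_lit 463001) (.g (nat_lit 2483) (.e (nat_lit 3066) (nat_lit 190) (.e (nat_lit 475185) (nat_lit 29) (.e (nat_lit 557109) (nat_lit 15) (.e (nat_lit 188452) (nat_lit 23) (.e (nat_lit 204817) (nat_lit 17) .nil))))) (.g (nat_lit 0) (.e (nat_lit 67865) (nat_lit 0) .nil) .nil))) 
(.lf (nat_lit 463513) (.g (nat_lit 2206) (.e (nat_lit 3087) (nat_lit 191) (.e (nat_lit 483406) (nat_lit 26) (.e (nat_lit 385093) (nat_lit 49) (.e (nat_lit 778323) (nat_lit 5) (.e (nat_lit 73781) (nat_lit 32) .nil))))) (.g (nat_lit 1) (.e (nat_lit 69706) (nat_lit 0) .nil) .nil)))) (.nd (nat_lit 9) 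
(.lf (nat_lit 463257) (.g (nat_lit 3595) (.e (nat_lit 3071) (nat_lit 190) (.e (nat_lit 475185) (nat_lit 29) (.e (nat_lit 557098) (nat_lit 13) (.e (nat_lit 172097) (nat_lit 9) (.e (nat_lit 426125) (nat_lit 2) (.e (nat_lit 196661) (nat_lit 12) (.e (nat_lit 65280) (nat_lit 201) .nil))))))) (.g (nat_lit 1) (.e (nat_lit 68399) (nat_lit 0) .nil) .nil))) 
(.lf (nat_lit 463769) (.g (nat_lit 939) (.e (nat_lit 3090) (nat_lit 191) (.e (nat_lit 483403) (nat_lit 26) (.e (nat_lit 385090) (nat_lit 49) (.e (nat_lit 786176) (nat_lit 5) .nil)))) (.g (nat_lit 0) (.e (nat_lit 71516) (nat_lit 0) .nil) .nil)))))) (.nd (nat_lit 7) (.nd (nat_lit 8) (.nd (nat_lit 9) 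
(.lf (nat_lit 462937) (.g (nat_lit 2575) (.e (nat_lit 3065) (nat_lit 190) (.e (nat_lit 475185) (nat_lit 29) (.e (nat_lit 557101) (nat_lit 13) (.e (nat_lit 172115) (nat_lit 10) (.e (nat_lit 434231) (nat_lit 23) (.e (nat_lit 532481) (nat_lit 0) (.e (nat_lit 6654) (nat_lit 357) .nil))))))) (.g (nat_lit 1) (.e (nat_lit 67767) (nat_lit 0) .nil) .nil))) 
(.lf (nat_lit 463449) (.g (nat_lit 1919) (.e (nat_lit 3085) (nat_lit 191) (.e (nat_lit 483413) (nat_lit 27) (.e (nat_lit 401448) (nat_lit 10) (.e (nat_lit 434202) (nat_lit 18) .nil)))) (.g (nat_lit 0) (.e (nat_lit 69436) (nat_lit 0) .nil) .nil)))) (.nd (nat_lit 9) 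
(.lf (nat_lit 463193) (.g (nat_lit 2278) (.e (nat_lit 3068) (nat_lit 190) (.e (nat_lit 475185) (nat_lit 29) (.e (nat_lit 557101) (nat_lit 13) (.e (nat_lit 172115) (nat_lit 10) (.e (nat_lit 434231) (nat_lit 23) (.e (nat_lit 532481) (nat_lit 0) (.e (nat_lit 6639) (nat_lit 357) .nil))))))) (.g (nat_lit 1) (.e (nat_lit 68275) (nat_lit 0) .nil) .nil))) 
(.lf (nat_lit 463705) (.g (nat_lit 2862) (.e (nat_lit 3090) (nat_lit 191) (.e (nat_lit 483364) (nat_lit 18) (.e (nat_lit 57921) (nat_lit 280) (.e (nat_lit 57378) (nat_lit 3) (.e (nat_lit 98384) (nat_lit 32) (.e (nat_lit 475201) (nat_lit 40) (.e (nat_lit 704538) (nat_lit 0) .nil))))))) (.g (nat_lit 1) (.e (nat_lit 71249) (nat_lit 0) .nil) .nil))))) (.nd (nat_lit 8) (.nd (nat_lit 9) 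
(.lf (nat_lit 463065) (.g (nat_lit 2778) (.e (nat_lit 3067) (nat_lit 190) (.e (nat_lit 475179) (nat_lit 24) (.e (nat_lit 516120) (nat_lit 1) (.e (nat_lit 164330) (nat_lit 230) (.e (nat_lit 163913) (nat_lit 12) .nil))))) (.g (nat_lit 0) (.e (nat_lit 68035) (nat_lit 0) .nil) .nil))) 
(.lf (nat_lit 463577) (.g (nat_lit 3164) (.e (nat_lit 3088) (nat_lit 191) (.e (nat_lit 483406) (nat_lit 26) (.e (nat_lit 385093) (nat_lit 49) (.e (nat_lit 778323) (nat_lit 5) (.e (nat_lit 73781) (nat_lit 32) .nil))))) (.g (nat_lit 1) (.e (nat_lit 70055) (nat_lit 0) .nil) .nil)))) (.nd (nat_lit 9) 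
(.lf (nat_lit 463321) (.g (nat_lit 3714) (.e (nat_lit 3071) (nat_lit 190) (.e (nat_lit 475199) (nat_lit 40) (.e (nat_lit 704589) (nat_lit 3) (.e (nat_lit 163978) (nat_lit 30) (.e (nat_lit 573479) (nat_lit 13) .nil))))) (.g (nat_lit 0) (.e (nat_lit 68507) (nat_lit 0) .nil) .nil))) 
(.lf (nat_lit 463833) (.g (nat_lit 1644) (.e (nat_lit 3094) (nat_lit 191) (.e (nat_lit 483405) (nat_lit 26) (.e (nat_lit 385093) (nat_lit 49) (.e (nat_lit 778324) (nat_lit 5) (.e (nat_lit 81664) (nat_lit 32) .nil))))) (.g (nat_lit 1) (.e (nat_lit 72086) (nat_lit 0) .nil) .nil))))))) (.nd (nat_lit 6) (.nd (nat_lit 7) (.nd (nat_lit 8) (.nd (nat_lit 9) 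
(.lf (nat_lit 462905) (.g (nat_lit 4144) (.e (nat_lit 3064) (nat_lit 190) (.e (nat_lit 475185) (nat_lit 29) (.e (nat_lit 557098) (nat_lit 13) (.e (nat_lit 172097) (nat_lit 9) (.e (nat_lit 426125) (nat_lit 2) (.e (nat_lit 196661) (nat_lit 12) (.e (nat_lit 57750) (nat_lit 201) .nil))))))) (.g (nat_lit 1) (.e (nat_lit 67697) (nat_lit 0) .nil) .nil))) 
(.lf (nat_lit 463417) (.g (nat_lit 2238) (.e (nat_lit 3085) (nat_lit 191) (.e (nat_lit 483387) (nat_lit 23) (.e (nat_lit 336031) (nat_lit 4) (.e (nat_lit 123195) (nat_lit 266) (.e (nat_lit 57400) (nat_lit 10) (.e (nat_lit 319490) (nat_lit 0) (.e (nat_lit 5664) (nat_lit 312) .nil))))))) (.g (nat_lit 1) (.e (nat_lit 69137) (nat_lit 0) .nil) .nil)))) (.nd (nat_lit 9) 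
(.lf (nat_lit 463161) (.g (nat_lit 4871) (.e (nat_lit 3067) (nat_lit 190) (.e (nat_lit 475185) (nat_lit 29) (.e (nat_lit 557101) (nat_lit 13) (.e (nat_lit 172115) (nat_lit 10) (.e (nat_lit 434231) (nat_lit 23) (.e (nat_lit 532490) (nat_lit 0) (.e (nat_lit 6680) (nat_lit 357) .nil))))))) (.g (nat_lit 1) (.e (nat_lit 68179) (nat_lit 0) .nil) .nil))) 
(.lf (nat_lit 463673) (.g (nat_lit 1420) (.e (nat_lit 3089) (nat_lit 191) (.e (nat_lit 483410) (nat_lit 27) (.e (nat_lit 401435) (nat_lit 9) (.e (nat_lit 426533) (nat_lit 28) .nil)))) (.g (nat_lit 0) (.e (nat_lit 70961) (nat_lit 0) .nil) .nil))))) (.nd (nat_lit 8) (.nd (nat_lit 9) 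
(.lf (nat_lit 463033) (.g (nat_lit 1022) (.e (nat_lit 3067) (nat_lit 190) (.e (nat_lit 475177) (nat_lit 24) (.e (nat_lit 516174) (nat_lit 14) (.e (nat_lit 466954) (nat_lit 11) .nil)))) (.g (nat_lit 0) (.e (nat_lit 67926) (nat_lit 0) .nil) .nil))) 
(.lf (nat_lit 463545) (.g (nat_lit 2758) (.e (nat_lit 3088) (nat_lit 191) (.e (nat_lit 483391) (nat_lit 23) (.e (nat_lit 336300) (nat_lit 15) (.e (nat_lit 3632) (nat_lit 227) (.e (nat_lit 778323) (nat_lit 5) (.e (nat_lit 73781) (nat_lit 32) .nil)))))) (.g (nat_lit 1) (.e (nat_lit 70016) (nat_lit 0) .nil) .nil)))) (.nd (nat_lit 9) 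
(.lf (nat_lit 463289) (.g (nat_lit 2855) (.e (nat_lit 3071) (nat_lit 190) (.e (nat_lit 475185) (nat_lit 29) (.e (nat_lit 557101) (nat_lit 13) (.e (nat_lit 172115) (nat_lit 10) (.e (nat_lit 434227) (nat_lit 20) (.e (nat_lit 507930) (nat_lit 10) (.e (nat_lit 5612) (nat_lit 312) .nil))))))) (.g (nat_lit 1) (.e (nat_lit 68431) (nat_lit 0) .nil) .nil))) 
(.lf (nat_lit 463801) (.g (nat_lit 1795) (.e (nat_lit 3092) (nat_lit 191) (.e (nat_lit 483380) (nat_lit 23) (.e (nat_lit 336332) (nat_lit 19) (.e (nat_lit 220928) (nat_lit 5) .nil)))) (.g (nat_lit 0) (.e (nat_lit 71717) (nat_lit 0) .nil) .nil)))))) (.nd (nat_lit 7) (.nd (nat_lit 8) (.nd (nat_lit 9) 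
(.lf (nat_lit 462969) (.g (nat_lit 3123) (.e (nat_lit 3066) (nat_lit 190) (.e (nat_lit 475184) (nat_lit 29) (.e (nat_lit 557098) (nat_lit 13) (.e (nat_lit 172097) (nat_lit 9) (.e (nat_lit 426140) (nat_lit 3) (.e (nat_lit 204821) (nat_lit 17) (.e (nat_lit 6676) (nat_lit 357) .nil))))))) (.g (nat_lit 1) (.e (nat_lit 67831) (nat_lit 0) .nil) .nil))) 
(.lf (nat_lit 463481) (.g (nat_lit 1264) (.e (nat_lit 3087) (nat_lit 191) (.e (nat_lit 483391) (nat_lit 23) (.e (nat_lit 336300) (nat_lit 15) (.e (nat_lit 3631) (nat_lit 227) (.e (nat_lit 778323) (nat_lit 5) .nil))))) (.g (nat_lit 0) (.e (nat_lit 69670) (nat_lit 0) .nil) .nil)))) (.nd (nat_lit 9) 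
(.lf (nat_lit 463225) (.g (nat_lit 2821) (.e (nat_lit 3070) (nat_lit 190) (.e (nat_lit 475185) (nat_lit 29) (.e (nat_lit 557109) (nat_lit 15) (.e (nat_lit 188449) (nat_lit 22) (.e (nat_lit 196628) (nat_lit 9) .nil))))) (.g (nat_lit 0) (.e (nat_lit 68332) (nat_lit 0) .nil) .nil))) 
(.lf (nat_lit 463737) (.g (nat_lit 3088) (.e (nat_lit 3090) (nat_lit 191) (.e (nat_lit 483380) (nat_lit 23) (.e (nat_lit 336285) (nat_lit 15) (.e (nat_lit 3632) (nat_lit 227) (.e (nat_lit 778324) (nat_lit 5) (.e (nat_lit 73781) (nat_lit 32) .nil)))))) (.g (nat_lit 1) (.e (nat_lit 71457) (nat_lit 0) .nil) .nil))))) (.nd (nat_lit 8) (.nd (nat_lit 9) 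
(.lf (nat_lit 463097) (.g (nat_lit 4435) (.e (nat_lit 3067) (nat_lit 190) (.e (nat_lit 475183) (nat_lit 29) (.e (nat_lit 557101) (nat_lit 13) (.e (nat_lit 172097) (nat_lit 9) (.e (nat_lit 426125) (nat_lit 2) (.e (nat_lit 196661) (nat_lit 12) (.e (nat_lit 57750) (nat_lit 201) .nil))))))) (.g (nat_lit 1) (.e (nat_lit 68112) (nat_lit 0) .nil) .nil))) 
(.lf (nat_lit 463609) (.g (nat_lit 2008) (.e (nat_lit 3089) (nat_lit 191) (.e (nat_lit 483350) (nat_lit 17) (.e (nat_lit 6113) (nat_lit 332) (.e (nat_lit 1374) (nat_lit 104) (.e (nat_lit 303154) (nat_lit 28) .nil))))) (.g (nat_lit 0) (.e (nat_lit 70798) (nat_lit 0) .nil) .nil)))) (.nd (nat_lit 9) 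
(.lf (nat_lit 463353) (.g (nat_lit 1340) (.e (nat_lit 3076) (nat_lit 191) (.e (nat_lit 483408) (nat_lit 26) (.e (nat_lit 385092) (nat_lit 49) (.e (nat_lit 778323) (nat_lit 5) .nil)))) (.g (nat_lit 0) (.e (nat_lit 68614) (nat_lit 0) .nil) .nil))) 
(.lf (nat_lit 463865) (.g (nat_lit 3197) (.e (nat_lit 3096) (nat_lit 192) (.e (nat_lit 491537) (nat_lit 2) (.e (nat_lit 90170) (nat_lit 13) (.e (nat_lit 172106) (nat_lit 10) (.e (nat_lit 434231) (nat_lit 23) .nil))))) (.g (nat_lit 0) (.e (nat_lit 72422) (nat_lit 0) .nil) .nil)))))))))) 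
(.nd (nat_lit 3) (.nd (nat_lit 4) (.nd (nat_lit 5) (.nd (nat_lit 6) (.nd (nat_lit 7) 
(.nd (nat_lit 8) (.nd (nat_lit 9) 
(.lf (nat_lit 462853) (.g (nat_lit 1126) (.e (nat_lit 3062) (nat_lit 190) (.e (nat_lit 475211) (nat_lit 41) (.e (nat_lit 712755) (nat_lit 30) (.e (nat_lit 450597) (nat_lit 17) .nil)))) (.g (nat_lit 0) (.e (nat_lit 67541) (nat_lit 0) .nil) .nil))) 
(.lf (nat_lit 463365) (.g (nat_lit 2015) (.e (nat_lit 3077) (nat_lit 191) (.e (nat_lit 483406) (nat_lit 26) (.e (nat_lit 385094) (nat_lit 49) (.e (nat_lit 778323) (nat_lit 5) (.e (nat_lit 81664) (nat_lit 32) .nil))))) (.g (nat_lit 1) (.e (nat_lit 68657) (nat_lit 0) .nil) .nil)))) (.nd (nat_lit 9) 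
(.lf (nat_lit 463109) (.g (nat_lit 3597) (.e (nat_lit 3067) (nat_lit 190) (.e (nat_lit 475183) (nat_lit 29) (.e (nat_lit 557108) (nat_lit 15) (.e (nat_lit 188452) (nat_lit 23) (.e (nat_lit 204814) (nat_lit 17) (.e (nat_lit 6681) (nat_lit 357) .nil)))))) (.g (nat_lit 1) (.e (nat_lit 68124) (nat_lit 0) .nil) .nil))) 
(.lf (nat_lit 463621) (.g (nat_lit 1884) (.e (nat_lit 3089) (nat_lit 191) (.e (nat_lit 483383) (nat_lit 23) (.e (nat_lit 336240) (nat_lit 15) (.e (nat_lit 3626) (nat_lit 227) (.e (nat_lit 778323) (nat_lit 5) (.e (nat_lit 73781) (nat_lit 32) .nil)))))) (.g (nat_lit 1) (.e (nat_lit 70873) (nat_lit 0) .nil) .nil))))) (.nd (nat_lit 8) (.nd (nat_lit 9) 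
(.lf (nat_lit 462981) (.g (nat_lit 4185) (.e (nat_lit 3066) (nat_lit 190) (.e (nat_lit 475185) (nat_lit 29) (.e (nat_lit 557098) (nat_lit 13) (.e (nat_lit 172097) (nat_lit 9) (.e (nat_lit 426125) (nat_lit 2) (.e (nat_lit 196661) (nat_lit 12) (.e (nat_lit 57751) (nat_lit 201) .nil))))))) (.g (nat_lit 1) (.e (nat_lit 67845) (nat_lit 0) .nil) .nil))) 
(.lf (nat_lit 463493) (.g (nat_lit 1064) (.e (nat_lit 3087) (nat_lit 191) (.e (nat_lit 483396) (nat_lit 24) (.e (nat_lit 344169) (nat_lit 40) (.e (nat_lit 671763) (nat_lit 5) .nil)))) (.g (nat_lit 0) (.e (nat_lit 69682) (nat_lit 0) .nil) .nil)))) (.nd (nat_lit 9) 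
(.lf (nat_lit 463237) (.g (nat_lit 1958) (.e (nat_lit 3071) (nat_lit 190) (.e (nat_lit 475179) (nat_lit 24) (.e (nat_lit 516146) (nat_lit 9) (.e (nat_lit 426436) (nat_lit 18) .nil)))) (.g (nat_lit 0) (.e (nat_lit 68360) (nat_lit 0) .nil) .nil))) 
(.lf (nat_lit 463749) (.g (nat_lit 1372) (.e (nat_lit 3090) (nat_lit 191) (.e (nat_lit 483386) (nat_lit 23) (.e (nat_lit 335928) (nat_lit 0) (.e (nat_lit 2003) (nat_lit 138) (.e (nat_lit 671760) (nat_lit 4) (.e (nat_lit 65540) (nat_lit 0) (.e (nat_lit 6681) (nat_lit 357) .nil))))))) (.g (nat_lit 1) (.e (nat_lit 71484) (nat_lit 0) .nil) .nil)))))) (.nd (nat_lit 7) (.nd (nat_lit 8) (.nd (nat_lit 9) 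
(.lf (nat_lit 462917) (.g (nat_lit 1986) (.e (nat_lit 3064) (nat_lit 190) (.e (nat_lit 475185) (nat_lit 29) (.e (nat_lit 557107) (nat_lit 15) (.e (nat_lit 188450) (nat_lit 23) (.e (nat_lit 204817) (nat_lit 17) (.e (nat_lit 7936) (nat_lit 357) .nil)))))) (.g (nat_lit 1) (.e (nat_lit 67709) (nat_lit 0) .nil) .nil))) 
(.lf (nat_lit 463429) (.g (nat_lit 416) (.e (nat_lit 3085) (nat_lit 191) (.e (nat_lit 483412) (nat_lit 27) (.e (nat_lit 401441) (nat_lit 9) .nil))) (.g (nat_lit 0) (.e (nat_lit 69244) (nat_lit 0) .nil) .nil)))) (.nd (nat_lit 9) 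
(.lf (nat_lit 463173) (.g (nat_lit 556) (.e (nat_lit 3067) (nat_lit 190) (.e (nat_lit 475185) (nat_lit 29) (.e (nat_lit 557108) (nat_lit 15) .nil))) (.g (nat_lit 0) (.e (nat_lit 68192) (nat_lit 0) .nil) .nil))) 
(.lf (nat_lit 463685) (.g (nat_lit 2341) (.e (nat_lit 3090) (nat_lit 191) (.e (nat_lit 483350) (nat_lit 17) (.e (nat_lit 6651) (nat_lit 357) (.e (nat_lit 2856) (nat_lit 184) (.e (nat_lit 426533) (nat_lit 28) (.e (nat_lit 344068) (nat_lit 0) .nil)))))) (.g (nat_lit 1) (.e (nat_lit 71118) (nat_lit 0) .nil) .nil))))) (.nd (nat_lit 8) (.nd (nat_lit 9) 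
(.lf (nat_lit 463045) (.g (nat_lit 2170) (.e (nat_lit 3067) (nat_lit 190) (.e (nat_lit 475178) (nat_lit 24) (.e (nat_lit 516129) (nat_lit 3) (.e (nat_lit 221194) (nat_lit 11) (.e (nat_lit 336010) (nat_lit 2) (.e (nat_lit 90165) (nat_lit 12) (.e (nat_lit 164248) (nat_lit 201) .nil))))))) (.g (nat_lit 1) (.e (nat_lit 67952) (nat_lit 0) .nil) .nil))) 
(.lf (nat_lit 463557) (.g (nat_lit 1507) (.e (nat_lit 3088) (nat_lit 191) (.e (nat_lit 483395) (nat_lit 24) (.e (nat_lit 344097) (nat_lit 18) (.e (nat_lit 5906) (nat_lit 320) (.e (nat_lit 1210) (nat_lit 89) .nil))))) (.g (nat_lit 0) (.e (nat_lit 70028) (nat_lit 0) .nil) .nil)))) (.nd (nat_lit 9) 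
(.lf (nat_lit 463301) (.g (nat_lit 1721) (.e (nat_lit 3071) (nat_lit 190) (.e (nat_lit 475185) (nat_lit 29) (.e (nat_lit 557107) (nat_lit 15) (.e (nat_lit 188450) (nat_lit 23) (.e (nat_lit 204819) (nat_lit 17) .nil))))) (.g (nat_lit 0) (.e (nat_lit 68443) (nat_lit 0) .nil) .nil))) 
(.lf (nat_lit 463813) (.g (nat_lit 1508) (.e (nat_lit 3092) (nat_lit 191) (.e (nat_lit 483406) (nat_lit 26) (.e (nat_lit 385092) (nat_lit 49) (.e (nat_lit 778323) (nat_lit 5) .nil)))) (.g (nat_lit 0) (.e (nat_lit 71744) (nat_lit 0) .nil) .nil))))))) (.nd (nat_lit 6) (.nd (nat_lit 7) (.nd (nat_lit 8) (.nd (nat_lit 9) 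
(.lf (nat_lit 462885) (.g (nat_lit 3386) (.e (nat_lit 3063) (nat_lit 190) (.e (nat_lit 475185) (nat_lit 29) (.e (nat_lit 557109) (nat_lit 15) (.e (nat_lit 188452) (nat_lit 23) (.e (nat_lit 204816) (nat_lit 17) .nil))))) (.g (nat_lit 0) (.e (nat_lit 67623) (nat_lit 0) .nil) .nil))) 
(.lf (nat_lit 463397) (.g (nat_lit 566) (.e (nat_lit 3083) (nat_lit 191) (.e (nat_lit 483385) (nat_lit 23) (.e (nat_lit 336332) (nat_lit 19) .nil))) (.g (nat_lit 0) (.e (nat_lit 68923) (nat_lit 0) .nil) .nil)))) (.nd (nat_lit 9) 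
(.lf (nat_lit 463141) (.g (nat_lit 2372) (.e (nat_lit 3067) (nat_lit 190) (.e (nat_lit 475185) (nat_lit 29) (.e (nat_lit 557098) (nat_lit 13) (.e (nat_lit 172091) (nat_lit 9) (.e (nat_lit 426125) (nat_lit 2) .nil))))) (.g (nat_lit 0) (.e (nat_lit 68159) (nat_lit 0) .nil) .nil))) 
(.lf (nat_lit 463653) (.g (nat_lit 442) (.e (nat_lit 3089) (nat_lit 191) (.e (nat_lit 483395) (nat_lit 24) (.e (nat_lit 344101) (nat_lit 18) .nil))) (.g (nat_lit 0) (.e (nat_lit 70910) (nat_lit 0) .nil) .nil))))) (.nd (nat_lit 8) (.nd (nat_lit 9) 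
(.lf (nat_lit 463013) (.g (nat_lit 2903) (.e (nat_lit 3067) (nat_lit 190) (.e (nat_lit 483072) (nat_lit 26) (.e (nat_lit 532544) (nat_lit 10) (.e (nat_lit 344118) (nat_lit 21) (.e (nat_lit 516129) (nat_lit 3) (.e (nat_lit 221210) (nat_lit 22) (.e (nat_lit 196616) (nat_lit 0) .nil))))))) (.g (nat_lit 1) (.e (nat_lit 67892) (nat_lit 0) .nil) .nil))) 
(.lf (nat_lit 463525) (.g (nat_lit 1256) (.e (nat_lit 3088) (nat_lit 191) (.e (nat_lit 483346) (nat_lit 17) (.e (nat_lit 6667) (nat_lit 357) (.e (nat_lit 2857) (nat_lit 184) .nil)))) (.g (nat_lit 0) (.e (nat_lit 69965) (nat_lit 0) .nil) .nil)))) (.nd (nat_lit 9) 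
(.lf (nat_lit 463269) (.g (nat_lit 2976) (.e (nat_lit 3071) (nat_lit 190) (.e (nat_lit 475185) (nat_lit 29) (.e (nat_lit 557100) (nat_lit 13) (.e (nat_lit 172106) (nat_lit 10) (.e (nat_lit 434231) (nat_lit 23) (.e (nat_lit 532483) (nat_lit 0) (.e (nat_lit 7936) (nat_lit 357) .nil))))))) (.g (nat_lit 1) (.e (nat_lit 68411) (nat_lit 0) .nil) .nil))) 
(.lf (nat_lit 463781) (.g (nat_lit 181) (.e (nat_lit 3090) (nat_lit 191) (.e (nat_lit 483404) (nat_lit 26) (.e (nat_lit 385100) (nat_lit 49) .nil))) (.g (nat_lit 0) (.e (nat_lit 71535) (nat_lit 0) .nil) .nil)))))) (.nd (nat_lit 7) (.nd (nat_lit 8) (.nd (nat_lit 9) 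
(.lf (nat_lit 462949) (.g (nat_lit 3453) (.e (nat_lit 3065) (nat_lit 190) (.e (nat_lit 475185) (nat_lit 29) (.e (nat_lit 557109) (nat_lit 15) (.e (nat_lit 188452) (nat_lit 23) (.e (nat_lit 204821) (nat_lit 17) (.e (nat_lit 6676) (nat_lit 357) .nil)))))) (.g (nat_lit 1) (.e (nat_lit 67779) (nat_lit 0) .nil) .nil))) 
(.lf (nat_lit 463461) (.g (nat_lit 1492) (.e (nat_lit 3087) (nat_lit 191) (.e (nat_lit 483383) (nat_lit 23) (.e (nat_lit 336000) (nat_lit 1) (.e (nat_lit 57871) (nat_lit 264) .nil)))) (.g (nat_lit 0) (.e (nat_lit 69648) (nat_lit 0) .nil) .nil)))) (.nd (nat_lit 9) 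
(.lf (nat_lit 463205) (.g (nat_lit 1878) (.e (nat_lit 3070) (nat_lit 190) (.e (nat_lit 475177) (nat_lit 24) (.e (nat_lit 516174) (nat_lit 14) (.e (nat_lit 466954) (nat_lit 11) (.e (nat_lit 335988) (nat_lit 1) (.e (nat_lit 57665) (nat_lit 152) (.e (nat_lit 2466) (nat_lit 157) .nil))))))) (.g (nat_lit 1) (.e (nat_lit 68308) (nat_lit 0) .nil) .nil))) 
(.lf (nat_lit 463717) (.g (nat_lit 2617) (.e (nat_lit 3090) (nat_lit 191) (.e (nat_lit 483372) (nat_lit 21) (.e (nat_lit 319537) (nat_lit 19) (.e (nat_lit 311357) (nat_lit 28) (.e (nat_lit 344069) (nat_lit 0) .nil))))) (.g (nat_lit 1) (.e (nat_lit 71303) (nat_lit 0) .nil) .nil))))) (.nd (nat_lit 8) (.nd (nat_lit 9) 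
(.lf (nat_lit 463077) (.g (nat_lit 597) (.e (nat_lit 3067) (nat_lit 190) (.e (nat_lit 475179) (nat_lit 24) (.e (nat_lit 516176) (nat_lit 14) .nil))) (.g (nat_lit 0) (.e (nat_lit 68086) (nat_lit 0) .nil) .nil))) 
(.lf (nat_lit 463589) (.g (nat_lit 2528) (.e (nat_lit 3088) (nat_lit 191) (.e (nat_lit 483410) (nat_lit 27) (.e (nat_lit 401437) (nat_lit 9) (.e (nat_lit 426533) (nat_lit 28) (.e (nat_lit 344068) (nat_lit 0) .nil))))) (.g (nat_lit 1) (.e (nat_lit 70079) (nat_lit 0) .nil) .nil)))) (.nd (nat_lit 9) 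
(.lf (nat_lit 463333) (.g (nat_lit 3903) (.e (nat_lit 3073) (nat_lit 190) (.e (nat_lit 475185) (nat_lit 29) (.e (nat_lit 557101) (nat_lit 13) (.e (nat_lit 172115) (nat_lit 10) (.e (nat_lit 434231) (nat_lit 23) (.e (nat_lit 532490) (nat_lit 0) (.e (nat_lit 7936) (nat_lit 357) .nil))))))) (.g (nat_lit 1) (.e (nat_lit 68539) (nat_lit 0) .nil) .nil))) 
(.lf (nat_lit 463845) (.g (nat_lit 3904) (.e (nat_lit 3095) (nat_lit 192) (.e (nat_lit 491563) (nat_lit 12) (.e (nat_lit 385074) (nat_lit 31) (.e (nat_lit 573491) (nat_lit 15) .nil)))) (.g (nat_lit 0) (.e (nat_lit 72394) (nat_lit 0) .nil) .nil)))))))) (.nd (nat_lit 5) (.nd (nat_lit 6) (.nd (nat_lit 7) (.nd (nat_lit 8) (.nd (nat_lit 9) 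
(.lf (nat_lit 462869) (.g (nat_lit 3694) (.e (nat_lit 3063) (nat_lit 190) (.e (nat_lit 475185) (nat_lit 29) (.e (nat_lit 557100) (nat_lit 13) (.e (nat_lit 172113) (nat_lit 10) (.e (nat_lit 434245) (nat_lit 28) (.e (nat_lit 573474) (nat_lit 12) (.e (nat_lit 57566) (nat_lit 52) (.e (nat_lit 753672) (nat_lit 5) .nil)))))))) (.g (nat_lit 1) (.e (nat_lit 67607) (nat_lit 0) .nil) .nil))) 
(.lf (nat_lit 463381) (.g (nat_lit 932) (.e (nat_lit 3080) (nat_lit 191) (.e (nat_lit 483383) (nat_lit 23) (.e (nat_lit 336332) (nat_lit 19) .nil))) (.g (nat_lit 0) (.e (nat_lit 68854) (nat_lit 0) .nil) .nil)))) (.nd (nat_lit 9) 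
(.lf (nat_lit 463125) (.g (nat_lit 3380) (.e (nat_lit 3067) (nat_lit 190) (.e (nat_lit 475184) (nat_lit 29) (.e (nat_lit 557100) (nat_lit 13) (.e (nat_lit 172106) (nat_lit 10) (.e (nat_lit 434231) (nat_lit 23) (.e (nat_lit 532483) (nat_lit 0) (.e (nat_lit 6684) (nat_lit 357) .nil))))))) (.g (nat_lit 1) (.e (nat_lit 68140) (nat_lit 0) .nil) .nil))) 
(.lf (nat_lit 463637) (.g (nat_lit 897) (.e (nat_lit 3089) (nat_lit 191) (.e (nat_lit 483383) (nat_lit 23) (.e (nat_lit 336306) (nat_lit 15) .nil))) (.g (nat_lit 0) (.e (nat_lit 70892) (nat_lit 0) .nil) .nil))))) (.nd (nat_lit 8) (.nd (nat_lit 9) 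
(.lf (nat_lit 462997) (.g (nat_lit 2881) (.e (nat_lit 3066) (nat_lit 190) (.e (nat_lit 475185) (nat_lit 29) (.e (nat_lit 557109) (nat_lit 15) (.e (nat_lit 188447) (nat_lit 22) (.e (nat_lit 196661) (nat_lit 12) (.e (nat_lit 57751) (nat_lit 201) .nil)))))) (.g (nat_lit 1) (.e (nat_lit 67861) (nat_lit 0) .nil) .nil))) 
(.lf (nat_lit 463509) (.g (nat_lit 2280) (.e (nat_lit 3087) (nat_lit 191) (.e (nat_lit 483405) (nat_lit 26) (.e (nat_lit 385093) (nat_lit 49) (.e (nat_lit 778324) (nat_lit 5) (.e (nat_lit 73781) (nat_lit 32) .nil))))) (.g (nat_lit 1) (.e (nat_lit 69701) (nat_lit 0) .nil) .nil)))) (.nd (nat_lit 9) 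
(.lf (nat_lit 463253) (.g (nat_lit 4523) (.e (nat_lit 3071) (nat_lit 190) (.e (nat_lit 475184) (nat_lit 29) (.e (nat_lit 557109) (nat_lit 15) (.e (nat_lit 188452) (nat_lit 23) (.e (nat_lit 204816) (nat_lit 17) (.e (nat_lit 6619) (nat_lit 357) .nil)))))) (.g (nat_lit 1) (.e (nat_lit 68393) (nat_lit 0) .nil) .nil))) 
(.lf (nat_lit 463765) (.g (nat_lit 2016) (.e (nat_lit 3090) (nat_lit 191) (.e (nat_lit 483393) (nat_lit 23) (.e (nat_lit 335995) (nat_lit 1) (.e (nat_lit 57873) (nat_lit 264) (.e (nat_lit 1211) (nat_lit 89) .nil))))) (.g (nat_lit 0) (.e (nat_lit 71501) (nat_lit 0) .nil) .nil)))))) (.nd (nat_lit 7) (.nd (nat_lit 8) (.nd (nat_lit 9) 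
(.lf (nat_lit 462933) (.g (nat_lit 3803) (.e (nat_lit 3065) (nat_lit 190) (.e (nat_lit 475185) (nat_lit 29) (.e (nat_lit 557098) (nat_lit 13) (.e (nat_lit 172097) (nat_lit 9) (.e (nat_lit 426140) (nat_lit 3) (.e (nat_lit 204821) (nat_lit 17) (.e (nat_lit 6680) (nat_lit 357) .nil))))))) (.g (nat_lit 1) (.e (nat_lit 67763) (nat_lit 0) .nil) .nil))) 
(.lf (nat_lit 463445) (.g (nat_lit 404) (.e (nat_lit 3085) (nat_lit 191) (.e (nat_lit 483413) (nat_lit 27) (.e (nat_lit 401448) (nat_lit 10) .nil))) (.g (nat_lit 0) (.e (nat_lit 69431) (nat_lit 0) .nil) .nil)))) (.nd (nat_lit 9) 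
(.lf (nat_lit 463189) (.g (nat_lit 3819) (.e (nat_lit 3067) (nat_lit 190) (.e (nat_lit 475185) (nat_lit 29) (.e (nat_lit 557109) (nat_lit 15) (.e (nat_lit 188452) (nat_lit 23) (.e (nat_lit 204821) (nat_lit 17) (.e (nat_lit 6676) (nat_lit 357) .nil)))))) (.g (nat_lit 1) (.e (nat_lit 68208) (nat_lit 0) .nil) .nil))) 
(.lf (nat_lit 463701) (.g (nat_lit 2008) (.e (nat_lit 3090) (nat_lit 191) (.e (nat_lit 483354) (nat_lit 17) (.e (nat_lit 6680) (nat_lit 357) (.e (nat_lit 2855) (nat_lit 184) (.e (nat_lit 426533) (nat_lit 28) (.e (nat_lit 344069) (nat_lit 0) .nil)))))) (.g (nat_lit 1) (.e (nat_lit 71149) (nat_lit 0) .nil) .nil))))) (.nd (nat_lit 8) (.nd (nat_lit 9) 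
(.lf (nat_lit 463061) (.g (nat_lit 2251) (.e (nat_lit 3067) (nat_lit 190) (.e (nat_lit 475179) (nat_lit 24) (.e (nat_lit 516120) (nat_lit 1) (.e (nat_lit 164329) (nat_lit 230) .nil)))) (.g (nat_lit 0) (.e (nat_lit 68026) (nat_lit 0) .nil) .nil))) 
(.lf (nat_lit 463573) (.g (nat_lit 2449) (.e (nat_lit 3088) (nat_lit 191) (.e (nat_lit 483405) (nat_lit 26) (.e (nat_lit 385093) (nat_lit 49) (.e (nat_lit 778323) (nat_lit 5) (.e (nat_lit 73781) (nat_lit 32) .nil))))) (.g (nat_lit 1) (.e (nat_lit 70051) (nat_lit 0) .nil) .nil)))) (.nd (nat_lit 9) 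
(.lf (nat_lit 463317) (.g (nat_lit 2650) (.e (nat_lit 3071) (nat_lit 190) (.e (nat_lit 475185) (nat_lit 29) (.e (nat_lit 557109) (nat_lit 15) (.e (nat_lit 188452) (nat_lit 23) (.e (nat_lit 204819) (nat_lit 17) (.e (nat_lit 7936) (nat_lit 357) .nil)))))) (.g (nat_lit 1) (.e (nat_lit 68459) (nat_lit 0) .nil) .nil))) 
(.lf (nat_lit 463829) (.g (nat_lit 1128) (.e (nat_lit 3094) (nat_lit 191) (.e (nat_lit 483405) (nat_lit 26) (.e (nat_lit 385091) (nat_lit 49) (.e (nat_lit 778323) (nat_lit 5) (.e (nat_lit 81664) (nat_lit 32) .nil))))) (.g (nat_lit 0) (.e (nat_lit 72082) (nat_lit 0) .nil) .nil))))))) (.nd (nat_lit 6) (.nd (nat_lit 7) (.nd (nat_lit 8) (.nd (nat_lit 9) 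
(.lf (nat_lit 462901) (.g (nat_lit 3982) (.e (nat_lit 3064) (nat_lit 190) (.e (nat_lit 475184) (nat_lit 29) (.e (nat_lit 557109) (nat_lit 15) (.e (nat_lit 188452) (nat_lit 23) (.e (nat_lit 204816) (nat_lit 17) .nil))))) (.g (nat_lit 0) (.e (nat_lit 67693) (nat_lit 0) .nil) .nil))) 
(.lf (nat_lit 463413) (.g (nat_lit 1798) (.e (nat_lit 3085) (nat_lit 191) (.e (nat_lit 483337) (nat_lit 9) (.e (nat_lit 426278) (nat_lit 10) (.e (nat_lit 434229) (nat_lit 22) (.e (nat_lit 524291) (nat_lit 0) (.e (nat_lit 3459) (nat_lit 216) (.e (nat_lit 688139) (nat_lit 5) .nil))))))) (.g (nat_lit 1) (.e (nat_lit 68988) (nat_lit 0) .nil) .nil)))) (.nd (nat_lit 9) 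
(.lf (nat_lit 463157) (.g (nat_lit 4201) (.e (nat_lit 3067) (nat_lit 190) (.e (nat_lit 475185) (nat_lit 29) (.e (nat_lit 557101) (nat_lit 13) (.e (nat_lit 172115) (nat_lit 10) (.e (nat_lit 434231) (nat_lit 23) (.e (nat_lit 532481) (nat_lit 0) (.e (nat_lit 6684) (nat_lit 357) .nil))))))) (.g (nat_lit 1) (.e (nat_lit 68175) (nat_lit 0) .nil) .nil))) 
(.lf (nat_lit 463669) (.g (nat_lit 798) (.e (nat_lit 3089) (nat_lit 191) (.e (nat_lit 483406) (nat_lit 26) (.e (nat_lit 385100) (nat_lit 49) .nil))) (.g (nat_lit 0) (.e (nat_lit 70942) (nat_lit 0) .nil) .nil))))) (.nd (nat_lit 8) (.nd (nat_lit 9) 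
(.lf (nat_lit 463029) (.g (nat_lit 1037) (.e (nat_lit 3067) (nat_lit 190) (.e (nat_lit 475176) (nat_lit 24) (.e (nat_lit 516174) (nat_lit 14) (.e (nat_lit 466954) (nat_lit 11) .nil)))) (.g (nat_lit 0) (.e (nat_lit 67909) (nat_lit 0) .nil) .nil))) 
(.lf (nat_lit 463541) (.g (nat_lit 1625) (.e (nat_lit 3088) (nat_lit 191) (.e (nat_lit 483386) (nat_lit 23) (.e (nat_lit 336295) (nat_lit 15) (.e (nat_lit 3631) (nat_lit 227) (.e (nat_lit 778323) (nat_lit 5) .nil))))) (.g (nat_lit 0) (.e (nat_lit 70012) (nat_lit 0) .nil) .nil)))) (.nd (nat_lit 9) 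
(.lf (nat_lit 463285) (.g (nat_lit 2642) (.e (nat_lit 3071) (nat_lit 190) (.e (nat_lit 475185) (nat_lit 29) (.e (nat_lit 557101) (nat_lit 13) (.e (nat_lit 172115) (nat_lit 10) (.e (nat_lit 434227) (nat_lit 20) (.e (nat_lit 507928) (nat_lit 10) (.e (nat_lit 5615) (nat_lit 312) .nil))))))) (.g (nat_lit 1) (.e (nat_lit 68427) (nat_lit 0) .nil) .nil))) 
(.lf (nat_lit 463797) (.g (nat_lit 2833) (.e (nat_lit 3090) (nat_lit 191) (.e (nat_lit 483411) (nat_lit 27) (.e (nat_lit 401435) (nat_lit 9) (.e (nat_lit 426533) (nat_lit 28) (.e (nat_lit 344069) (nat_lit 0) .nil))))) (.g (nat_lit 1) (.e (nat_lit 71596) (nat_lit 0) .nil) .nil)))))) (.nd (nat_lit 7) (.nd (nat_lit 8) (.nd (nat_lit 9) 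
(.lf (nat_lit 462965) (.g (nat_lit 3035) (.e (nat_lit 3066) (nat_lit 190) (.e (nat_lit 475183) (nat_lit 29) (.e (nat_lit 557108) (nat_lit 15) (.e (nat_lit 188452) (nat_lit 23) (.e (nat_lit 204821) (nat_lit 17) .nil))))) (.g (nat_lit 0) (.e (nat_lit 67827) (nat_lit 0) .nil) .nil))) 
(.lf (nat_lit 463477) (.g (nat_lit 1500) (.e (nat_lit 3087) (nat_lit 191) (.e (nat_lit 483386) (nat_lit 23) (.e (nat_lit 336295) (nat_lit 15) (.e (nat_lit 3631) (nat_lit 227) (.e (nat_lit 778323) (nat_lit 5) (.e (nat_lit 73781) (nat_lit 32) .nil)))))) (.g (nat_lit 1) (.e (nat_lit 69666) (nat_lit 0) .nil) .nil)))) (.nd (nat_lit 9) 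
(.lf (nat_lit 463221) (.g (nat_lit 2174) (.e (nat_lit 3070) (nat_lit 190) (.e (nat_lit 475185) (nat_lit 29) (.e (nat_lit 557107) (nat_lit 15) (.e (nat_lit 188450) (nat_lit 23) (.e (nat_lit 204817) (nat_lit 17) (.e (nat_lit 7936) (nat_lit 357) .nil)))))) (.g (nat_lit 1) (.e (nat_lit 68328) (nat_lit 0) .nil) .nil))) 
(.lf (nat_lit 463733) (.g (nat_lit 3280) (.e (nat_lit 3090) (nat_lit 191) (.e (nat_lit 483380) (nat_lit 23) (.e (nat_lit 336269) (nat_lit 15) (.e (nat_lit 3631) (nat_lit 227) (.e (nat_lit 778323) (nat_lit 5) (.e (nat_lit 73781) (nat_lit 32) .nil)))))) (.g (nat_lit 1) (.e (nat_lit 71453) (nat_lit 0) .nil) .nil))))) (.nd (nat_lit 8) (.nd (nat_lit 9) 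
(.lf (nat_lit 463093) (.g (nat_lit 4138) (.e (nat_lit 3067) (nat_lit 190) (.e (nat_lit 475183) (nat_lit 29) (.e (nat_lit 557098) (nat_lit 13) (.e (nat_lit 172097) (nat_lit 9) (.e (nat_lit 426140) (nat_lit 3) (.e (nat_lit 204821) (nat_lit 17) (.e (nat_lit 6676) (nat_lit 357) .nil))))))) (.g (nat_lit 1) (.e (nat_lit 68108) (nat_lit 0) .nil) .nil))) 
(.lf (nat_lit 463605) (.g (nat_lit 1181) (.e (nat_lit 3088) (nat_lit 191) (.e (nat_lit 491264) (nat_lit 27) (.e (nat_lit 401459) (nat_lit 13) (.e (nat_lit 483354) (nat_lit 17) (.e (nat_lit 6676) (nat_lit 357) .nil))))) (.g (nat_lit 1) (.e (nat_lit 70746) (nat_lit 0) .nil) .nil)))) (.nd (nat_lit 9) 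
(.lf (nat_lit 463349) (.g (nat_lit 867) (.e (nat_lit 3076) (nat_lit 191) (.e (nat_lit 483406) (nat_lit 26) (.e (nat_lit 385093) (nat_lit 49) .nil))) (.g (nat_lit 0) (.e (nat_lit 68610) (nat_lit 0) .nil) .nil))) 
(.lf (nat_lit 463861) (.g (nat_lit 3478) (.e (nat_lit 3095) (nat_lit 192) (.e (nat_lit 491569) (nat_lit 13) (.e (nat_lit 393301) (nat_lit 27) (.e (nat_lit 491560) (nat_lit 10) (.e (nat_lit 344088) (nat_lit 18) .nil))))) (.g (nat_lit 0) (.e (nat_lit 72414) (nat_lit 0) .nil) .nil))))))))) (.nd (nat_lit 4) (.nd (nat_lit 5) (.nd (nat_lit 6) (.nd (nat_lit 7) (.nd (nat_lit 8) (.nd (nat_lit 9) 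
(.lf (nat_lit 462861) (.g (nat_lit 2514) (.e (nat_lit 3063) (nat_lit 190) (.e (nat_lit 475185) (nat_lit 29) (.e (nat_lit 557100) (nat_lit 13) (.e (nat_lit 172106) (nat_lit 10) (.e (nat_lit 434227) (nat_lit 20) (.e (nat_lit 507930) (nat_lit 10) (.e (nat_lit 5614) (nat_lit 312) .nil))))))) (.g (nat_lit 1) (.e (nat_lit 67599) (nat_lit 0) .nil) .nil))) 
(.lf (nat_lit 463373) (.g (nat_lit 1006) (.e (nat_lit 3078) (nat_lit 191) (.e (nat_lit 483410) (nat_lit 27) (.e (nat_lit 401440) (nat_lit 9) .nil))) (.g (nat_lit 0) (.e (nat_lit 68734) (nat_lit 0) .nil) .nil)))) (.nd (nat_lit 9) 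
(.lf (nat_lit 463117) (.g (nat_lit 1994) (.e (nat_lit 3067) (nat_lit 190) (.e (nat_lit 475183) (nat_lit 29) (.e (nat_lit 557109) (nat_lit 15) (.e (nat_lit 188450) (nat_lit 23) .nil)))) (.g (nat_lit 0) (.e (nat_lit 68132) (nat_lit 0) .nil) .nil))) 
(.lf (nat_lit 463629) (.g (nat_lit 2124) (.e (nat_lit 3089) (nat_lit 191) (.e (nat_lit 483383) (nat_lit 23) (.e (nat_lit 336263) (nat_lit 15) (.e (nat_lit 3632) (nat_lit 227) (.e (nat_lit 778324) (nat_lit 5) (.e (nat_lit 73781) (nat_lit 32) .nil)))))) (.g (nat_lit 1) (.e (nat_lit 70883) (nat_lit 0) .nil) .nil))))) (.nd (nat_lit 8) (.nd (nat_lit 9) 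
(.lf (nat_lit 462989) (.g (nat_lit 3101) (.e (nat_lit 3066) (nat_lit 190) (.e (nat_lit 475185) (nat_lit 29) (.e (nat_lit 557101) (nat_lit 13) (.e (nat_lit 172097) (nat_lit 9) (.e (nat_lit 426140) (nat_lit 3) (.e (nat_lit 204821) (nat_lit 17) (.e (nat_lit 6680) (nat_lit 357) .nil))))))) (.g (nat_lit 1) (.e (nat_lit 67853) (nat_lit 0) .nil) .nil))) 
(.lf (nat_lit 463501) (.g (nat_lit 2299) (.e (nat_lit 3087) (nat_lit 191) (.e (nat_lit 483403) (nat_lit 26) (.e (nat_lit 385094) (nat_lit 49) (.e (nat_lit 778323) (nat_lit 5) (.e (nat_lit 73781) (nat_lit 32) .nil))))) (.g (nat_lit 1) (.e (nat_lit 69691) (nat_lit 0) .nil) .nil)))) (.nd (nat_lit 9) 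
(.lf (nat_lit 463245) (.g (nat_lit 2716) (.e (nat_lit 3071) (nat_lit 190) (.e (nat_lit 475179) (nat_lit 24) (.e (nat_lit 516150) (nat_lit 9) (.e (nat_lit 426436) (nat_lit 18) (.e (nat_lit 98356) (nat_lit 26) (.e (nat_lit 426428) (nat_lit 17) (.e (nat_lit 90130) (nat_lit 9) .nil))))))) (.g (nat_lit 1) (.e (nat_lit 68372) (nat_lit 0) .nil) .nil))) 
(.lf (nat_lit 463757) (.g (nat_lit 2783) (.e (nat_lit 3090) (nat_lit 191) (.e (nat_lit 483386) (nat_lit 23) (.e (nat_lit 336295) (nat_lit 15) (.e (nat_lit 3631) (nat_lit 227) (.e (nat_lit 778323) (nat_lit 5) (.e (nat_lit 73782) (nat_lit 32) .nil)))))) (.g (nat_lit 1) (.e (nat_lit 71492) (nat_lit 0) .nil) .nil)))))) (.nd (nat_lit 7) (.nd (nat_lit 8) (.nd (nat_lit 9) 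
(.lf (nat_lit 462925) (.g (nat_lit 3108) (.e (nat_lit 3065) (nat_lit 190) (.e (nat_lit 475184) (nat_lit 29) (.e (nat_lit 557109) (nat_lit 15) (.e (nat_lit 188447) (nat_lit 22) (.e (nat_lit 196661) (nat_lit 12) .nil))))) (.g (nat_lit 0) (.e (nat_lit 67755) (nat_lit 0) .nil) .nil))) 
(.lf (nat_lit 463437) (.g (nat_lit 2942) (.e (nat_lit 3085) (nat_lit 191) (.e (nat_lit 483413) (nat_lit 27) (.e (nat_lit 401447) (nat_lit 10) (.e (nat_lit 434202) (nat_lit 18) .nil)))) (.g (nat_lit 0) (.e (nat_lit 69394) (nat_lit 0) .nil) .nil)))) (.nd (nat_lit 9) 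
(.lf (nat_lit 463181) (.g (nat_lit 3526) (.e (nat_lit 3067) (nat_lit 190) (.e (nat_lit 475185) (nat_lit 29) (.e (nat_lit 557109) (nat_lit 15) (.e (nat_lit 188450) (nat_lit 23) (.e (nat_lit 212736) (nat_lit 17) (.e (nat_lit 6666) (nat_lit 357) .nil)))))) (.g (nat_lit 1) (.e (nat_lit 68200) (nat_lit 0) .nil) .nil))) 
(.lf (nat_lit 463693) (.g (nat_lit 1766) (.e (nat_lit 3090) (nat_lit 191) (.e (nat_lit 483354) (nat_lit 17) (.e (nat_lit 6136) (nat_lit 332) (.e (nat_lit 1384) (nat_lit 105) (.e (nat_lit 311357) (nat_lit 28) (.e (nat_lit 344069) (nat_lit 0) .nil)))))) (.g (nat_lit 1) (.e (nat_lit 71135) (nat_lit 0) .nil) .nil))))) (.nd (nat_lit 8) (.nd (nat_lit 9) 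
(.lf (nat_lit 463053) (.g (nat_lit 3312) (.e (nat_lit 3067) (nat_lit 190) (.e (nat_lit 475179) (nat_lit 24) (.e (nat_lit 516117) (nat_lit 1) (.e (nat_lit 164330) (nat_lit 230) (.e (nat_lit 163941) (nat_lit 19) (.e (nat_lit 483333) (nat_lit 0) (.e (nat_lit 7335) (nat_lit 388) .nil))))))) (.g (nat_lit 1) (.e (nat_lit 67989) (nat_lit 0) .nil) .nil))) 
(.lf (nat_lit 463565) (.g (nat_lit 2432) (.e (nat_lit 3088) (nat_lit 191) (.e (nat_lit 483402) (nat_lit 26) (.e (nat_lit 385094) (nat_lit 49) (.e (nat_lit 778323) (nat_lit 5) (.e (nat_lit 73782) (nat_lit 32) .nil))))) (.g (nat_lit 1) (.e (nat_lit 70038) (nat_lit 0) .nil) .nil)))) (.nd (nat_lit 9) 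
(.lf (nat_lit 463309) (.g (nat_lit 2759) (.e (nat_lit 3071) (nat_lit 190) (.e (nat_lit 475185) (nat_lit 29) (.e (nat_lit 557109) (nat_lit 15) (.e (nat_lit 188449) (nat_lit 22) (.e (nat_lit 196628) (nat_lit 9) .nil))))) (.g (nat_lit 0) (.e (nat_lit 68451) (nat_lit 0) .nil) .nil))) 
(.lf (nat_lit 463821) (.g (nat_lit 596) (.e (nat_lit 3094) (nat_lit 191) (.e (nat_lit 483391) (nat_lit 23) (.e (nat_lit 336300) (nat_lit 15) (.e (nat_lit 3632) (nat_lit 227) .nil)))) (.g (nat_lit 0) (.e (nat_lit 72067) (nat_lit 0) .nil) .nil))))))) (.nd (nat_lit 6) (.nd (nat_lit 7) (.nd (nat_lit 8) (.nd (nat_lit 9) 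
(.lf (nat_lit 462893) (.g (nat_lit 3728) (.e (nat_lit 3064) (nat_lit 190) (.e (nat_lit 475184) (nat_lit 29) (.e (nat_lit 557098) (nat_lit 13) (.e (nat_lit 172115) (nat_lit 10) (.e (nat_lit 434231) (nat_lit 23) (.e (nat_lit 532490) (nat_lit 0) (.e (nat_lit 6680) (nat_lit 357) .nil))))))) (.g (nat_lit 1) (.e (nat_lit 67685) (nat_lit 0) .nil) .nil))) 
(.lf (nat_lit 463405) (.g (nat_lit 2709) (.e (nat_lit 3085) (nat_lit 191) (.e (nat_lit 483337) (nat_lit 9) (.e (nat_lit 426185) (nat_lit 9) (.e (nat_lit 426125) (nat_lit 2) (.e (nat_lit 204544) (nat_lit 3) (.e (nat_lit 164017) (nat_lit 44) (.e (nat_lit 688139) (nat_lit 5) .nil))))))) (.g (nat_lit 1) (.e (nat_lit 68970) (nat_lit 0) .nil) .nil)))) (.nd (nat_lit 9) 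
(.lf (nat_lit 463149) (.g (nat_lit 4183) (.e (nat_lit 3067) (nat_lit 190) (.e (nat_lit 475185) (nat_lit 29) (.e (nat_lit 557098) (nat_lit 13) (.e (nat_lit 172115) (nat_lit 10) (.e (nat_lit 434231) (nat_lit 23) (.e (nat_lit 532490) (nat_lit 0) (.e (nat_lit 6680) (nat_lit 357) .nil))))))) (.g (nat_lit 1) (.e (nat_lit 68167) (nat_lit 0) .nil) .nil))) 
(.lf (nat_lit 463661) (.g (nat_lit 2171) (.e (nat_lit 3089) (nat_lit 191) (.e (nat_lit 483402) (nat_lit 26) (.e (nat_lit 385093) (nat_lit 49) (.e (nat_lit 778323) (nat_lit 5) (.e (nat_lit 73781) (nat_lit 32) .nil))))) (.g (nat_lit 1) (.e (nat_lit 70922) (nat_lit 0) .nil) .nil))))) (.nd (nat_lit 8) (.nd (nat_lit 9) 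
(.lf (nat_lit 463021) (.g (nat_lit 3124) (.e (nat_lit 3067) (nat_lit 190) (.e (nat_lit 483072) (nat_lit 26) (.e (nat_lit 532544) (nat_lit 10) (.e (nat_lit 344132) (nat_lit 26) (.e (nat_lit 557105) (nat_lit 14) (.e (nat_lit 180251) (nat_lit 10) (.e (nat_lit 573440) (nat_lit 0) .nil))))))) (.g (nat_lit 1) (.e (nat_lit 67900) (nat_lit 0) .nil) .nil))) 
(.lf (nat_lit 463533) (.g (nat_lit 1904) (.e (nat_lit 3088) (nat_lit 191) (.e (nat_lit 483383) (nat_lit 23) (.e (nat_lit 336240) (nat_lit 15) (.e (nat_lit 3624) (nat_lit 227) .nil)))) (.g (nat_lit 0) (.e (nat_lit 70003) (nat_lit 0) .nil) .nil)))) (.nd (nat_lit 9) 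
(.lf (nat_lit 463277) (.g (nat_lit 2201) (.e (nat_lit 3071) (nat_lit 190) (.e (nat_lit 475185) (nat_lit 29) (.e (nat_lit 557100) (nat_lit 13) (.e (nat_lit 172113) (nat_lit 10) (.e (nat_lit 434245) (nat_lit 28) (.e (nat_lit 573474) (nat_lit 12) (.e (nat_lit 57565) (nat_lit 52) (.e (nat_lit 753673) (nat_lit 5) .nil)))))))) (.g (nat_lit 1) (.e (nat_lit 68419) (nat_lit 0) .nil) .nil))) 
(.lf (nat_lit 463789) (.g (nat_lit 3689) (.e (nat_lit 3090) (nat_lit 191) (.e (nat_lit 483409) (nat_lit 27) (.e (nat_lit 401459) (nat_lit 13) (.e (nat_lit 483350) (nat_lit 17) (.e (nat_lit 6666) (nat_lit 357) .nil))))) (.g (nat_lit 1) (.e (nat_lit 71550) (nat_lit 0) .nil) .nil)))))) (.nd (nat_lit 7) (.nd (nat_lit 8) (.nd (nat_lit 9) 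
(.lf (nat_lit 462957) (.g (nat_lit 2896) (.e (nat_lit 3066) (nat_lit 190) (.e (nat_lit 475183) (nat_lit 29) (.e (nat_lit 557098) (nat_lit 13) (.e (nat_lit 172097) (nat_lit 9) (.e (nat_lit 426125) (nat_lit 2) (.e (nat_lit 196661) (nat_lit 12) (.e (nat_lit 57751) (nat_lit 201) .nil))))))) (.g (nat_lit 1) (.e (nat_lit 67819) (nat_lit 0) .nil) .nil))) 
(.lf (nat_lit 463469) (.g (nat_lit 959) (.e (nat_lit 3087) (nat_lit 191) (.e (nat_lit 483383) (nat_lit 23) (.e (nat_lit 336306) (nat_lit 15) .nil))) (.g (nat_lit 0) (.e (nat_lit 69657) (nat_lit 0) .nil) .nil)))) (.nd (nat_lit 9) 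
(.lf (nat_lit 463213) (.g (nat_lit 3325) (.e (nat_lit 3070) (nat_lit 190) (.e (nat_lit 475185) (nat_lit 29) (.e (nat_lit 557100) (nat_lit 13) (.e (nat_lit 172113) (nat_lit 10) (.e (nat_lit 434245) (nat_lit 28) (.e (nat_lit 573474) (nat_lit 12) (.e (nat_lit 57567) (nat_lit 52) (.e (nat_lit 753677) (nat_lit 5) .nil)))))))) (.g (nat_lit 1) (.e (nat_lit 68320) (nat_lit 0) .nil) .nil))) 
(.lf (nat_lit 463725) (.g (nat_lit 2643) (.e (nat_lit 3090) (nat_lit 191) (.e (nat_lit 483380) (nat_lit 23) (.e (nat_lit 336240) (nat_lit 15) (.e (nat_lit 3637) (nat_lit 227) (.e (nat_lit 778323) (nat_lit 5) (.e (nat_lit 73782) (nat_lit 32) .nil)))))) (.g (nat_lit 1) (.e (nat_lit 71445) (nat_lit 0) .nil) .nil))))) (.nd (nat_lit 8) (.nd (nat_lit 9) 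
(.lf (nat_lit 463085) (.g (nat_lit 2328) (.e (nat_lit 3067) (nat_lit 190) (.e (nat_lit 475179) (nat_lit 24) (.e (nat_lit 516176) (nat_lit 14) (.e (nat_lit 466954) (nat_lit 11) (.e (nat_lit 335995) (nat_lit 1) (.e (nat_lit 57655) (nat_lit 152) (.e (nat_lit 2485) (nat_lit 157) .nil))))))) (.g (nat_lit 1) (.e (nat_lit 68095) (nat_lit 0) .nil) .nil))) 
(.lf (nat_lit 463597) (.g (nat_lit 838) (.e (nat_lit 3088) (nat_lit 191) (.e (nat_lit 483413) (nat_lit 27) (.e (nat_lit 401408) (nat_lit 0) .nil))) (.g (nat_lit 0) (.e (nat_lit 70121) (nat_lit 0) .nil) .nil)))) (.nd (nat_lit 9) 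
(.lf (nat_lit 463341) (.g (nat_lit 1452) (.e (nat_lit 3074) (nat_lit 190) (.e (nat_lit 475185) (nat_lit 29) (.e (nat_lit 557098) (nat_lit 13) (.e (nat_lit 172115) (nat_lit 10) .nil)))) (.g (nat_lit 0) (.e (nat_lit 68553) (nat_lit 0) .nil) .nil))) 
(.lf (nat_lit 463853) (.g (nat_lit 1736) (.e (nat_lit 3095) (nat_lit 192) (.e (nat_lit 491566) (nat_lit 12) (.e (nat_lit 385104) (nat_lit 50) (.e (nat_lit 786483) (nat_lit 30) .nil)))) (.g (nat_lit 0) (.e (nat_lit 72406) (nat_lit 0) .nil) .nil)))))))) (.nd (nat_lit 5) (.nd (nat_lit 6) (.nd (nat_lit 7) (.nd (nat_lit 8) (.nd (nat_lit 9) 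
(.lf (nat_lit 462877) (.g (nat_lit 2573) (.e (nat_lit 3063) (nat_lit 190) (.e (nat_lit 475185) (nat_lit 29) (.e (nat_lit 557101) (nat_lit 13) (.e (nat_lit 172115) (nat_lit 10) (.e (nat_lit 434227) (nat_lit 20) (.e (nat_lit 507929) (nat_lit 10) (.e (nat_lit 5614) (nat_lit 312) .nil))))))) (.g (nat_lit 1) (.e (nat_lit 67615) (nat_lit 0) .nil) .nil))) 
(.lf (nat_lit 463389) (.g (nat_lit 1445) (.e (nat_lit 3080) (nat_lit 191) (.e (nat_lit 483406) (nat_lit 26) (.e (nat_lit 385094) (nat_lit 49) (.e (nat_lit 778323) (nat_lit 5) .nil)))) (.g (nat_lit 0) (.e (nat_lit 68865) (nat_lit 0) .nil) .nil)))) (.nd (nat_lit 9) 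
(.lf (nat_lit 463133) (.g (nat_lit 3185) (.e (nat_lit 3067) (nat_lit 190) (.e (nat_lit 475184) (nat_lit 29) (.e (nat_lit 557109) (nat_lit 15) (.e (nat_lit 188450) (nat_lit 23) (.e (nat_lit 212736) (nat_lit 17) .nil))))) (.g (nat_lit 0) (.e (nat_lit 68148) (nat_lit 0) .nil) .nil))) 
(.lf (nat_lit 463645) (.g (nat_lit 1600) (.e (nat_lit 3089) (nat_lit 191) (.e (nat_lit 483386) (nat_lit 23) (.e (nat_lit 336295) (nat_lit 15) (.e (nat_lit 3631) (nat_lit 227) (.e (nat_lit 778323) (nat_lit 5) (.e (nat_lit 73781) (nat_lit 32) .nil)))))) (.g (nat_lit 1) (.e (nat_lit 70902) (nat_lit 0) .nil) .nil))))) (.nd (nat_lit 8) (.nd (nat_lit 9) 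
(.lf (nat_lit 463005) (.g (nat_lit 2953) (.e (nat_lit 3066) (nat_lit 190) (.e (nat_lit 475214) (nat_lit 42) (.e (nat_lit 720956) (nat_lit 25) (.e (nat_lit 114711) (nat_lit 21) (.e (nat_lit 57681) (nat_lit 155) (.e (nat_lit 122913) (nat_lit 13) (.e (nat_lit 344068) (nat_lit 0) .nil))))))) (.g (nat_lit 1) (.e (nat_lit 67880) (nat_lit 0) .nil) .nil))) 
(.lf (nat_lit 463517) (.g (nat_lit 1767) (.e (nat_lit 3087) (nat_lit 191) (.e (nat_lit 483406) (nat_lit 26) (.e (nat_lit 385094) (nat_lit 49) (.e (nat_lit 778324) (nat_lit 5) (.e (nat_lit 73781) (nat_lit 32) .nil))))) (.g (nat_lit 1) (.e (nat_lit 69710) (nat_lit 0) .nil) .nil)))) (.nd (nat_lit 9) 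
(.lf (nat_lit 463261) (.g (nat_lit 2949) (.e (nat_lit 3071) (nat_lit 190) (.e (nat_lit 475185) (nat_lit 29) (.e (nat_lit 557100) (nat_lit 13) (.e (nat_lit 172106) (nat_lit 10) (.e (nat_lit 434227) (nat_lit 20) (.e (nat_lit 507928) (nat_lit 10) (.e (nat_lit 5615) (nat_lit 312) .nil))))))) (.g (nat_lit 1) (.e (nat_lit 68403) (nat_lit 0) .nil) .nil))) 
(.lf (nat_lit 463773) (.g (nat_lit 3078) (.e (nat_lit 3090) (nat_lit 191) (.e (nat_lit 483403) (nat_lit 26) (.e (nat_lit 385093) (nat_lit 49) (.e (nat_lit 778323) (nat_lit 5) (.e (nat_lit 73782) (nat_lit 32) .nil))))) (.g (nat_lit 1) (.e (nat_lit 71520) (nat_lit 0) .nil) .nil)))))) (.nd (nat_lit 7) (.nd (nat_lit 8) (.nd (nat_lit 9) 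
(.lf (nat_lit 462941) (.g (nat_lit 840) (.e (nat_lit 3065) (nat_lit 190) (.e (nat_lit 475185) (nat_lit 29) (.e (nat_lit 557107) (nat_lit 15) (.e (nat_lit 188450) (nat_lit 23) .nil)))) (.g (nat_lit 0) (.e (nat_lit 67771) (nat_lit 0) .nil) .nil))) 
(.lf (nat_lit 463453) (.g (nat_lit 2537) (.e (nat_lit 3085) (nat_lit 191) (.e (nat_lit 483413) (nat_lit 27) (.e (nat_lit 401448) (nat_lit 10) (.e (nat_lit 434207) (nat_lit 18) .nil)))) (.g (nat_lit 0) (.e (nat_lit 69460) (nat_lit 0) .nil) .nil)))) (.nd (nat_lit 9) 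
(.lf (nat_lit 463197) (.g (nat_lit 2755) (.e (nat_lit 3069) (nat_lit 190) (.e (nat_lit 475184) (nat_lit 29) (.e (nat_lit 557109) (nat_lit 15) (.e (nat_lit 188449) (nat_lit 22) (.e (nat_lit 196661) (nat_lit 12) .nil))))) (.g (nat_lit 0) (.e (nat_lit 68289) (nat_lit 0) .nil) .nil))) 
(.lf (nat_lit 463709) (.g (nat_lit 1151) (.e (nat_lit 3090) (nat_lit 191) (.e (nat_lit 483372) (nat_lit 21) (.e (nat_lit 319498) (nat_lit 10) .nil))) (.g (nat_lit 0) (.e (nat_lit 71257) (nat_lit 0) .nil) .nil))))) (.nd (nat_lit 8) (.nd (nat_lit 9) 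
(.lf (nat_lit 463069) (.g (nat_lit 2613) (.e (nat_lit 3067) (nat_lit 190) (.e (nat_lit 475179) (nat_lit 24) (.e (nat_lit 516120) (nat_lit 1) (.e (nat_lit 164332) (nat_lit 230) (.e (nat_lit 163941) (nat_lit 19) (.e (nat_lit 483333) (nat_lit 0) (.e (nat_lit 7348) (nat_lit 388) .nil))))))) (.g (nat_lit 1) (.e (nat_lit 68047) (nat_lit 0) .nil) .nil))) 
(.lf (nat_lit 463581) (.g (nat_lit 1828) (.e (nat_lit 3088) (nat_lit 191) (.e (nat_lit 483407) (nat_lit 26) (.e (nat_lit 385093) (nat_lit 49) (.e (nat_lit 778323) (nat_lit 5) (.e (nat_lit 73782) (nat_lit 32) .nil))))) (.g (nat_lit 1) (.e (nat_lit 70066) (nat_lit 0) .nil) .nil)))) (.nd (nat_lit 9) 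
(.lf (nat_lit 463325) (.g (nat_lit 914) (.e (nat_lit 3072) (nat_lit 190) (.e (nat_lit 475179) (nat_lit 24) (.e (nat_lit 516150) (nat_lit 9) .nil))) (.g (nat_lit 0) (.e (nat_lit 68526) (nat_lit 0) .nil) .nil))) 
(.lf (nat_lit 463837) (.g (nat_lit 1983) (.e (nat_lit 3094) (nat_lit 191) (.e (nat_lit 483406) (nat_lit 26) (.e (nat_lit 385094) (nat_lit 49) (.e (nat_lit 778323) (nat_lit 5) (.e (nat_lit 81664) (nat_lit 32) .nil))))) (.g (nat_lit 1) (.e (nat_lit 72091) (nat_lit 0) .nil) .nil))))))) (.nd (nat_lit 6) (.nd (nat_lit 7) (.nd (nat_lit 8) (.nd (nat_lit 9) 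
(.lf (nat_lit 462909) (.g (nat_lit 2212) (.e (nat_lit 3064) (nat_lit 190) (.e (nat_lit 475185) (nat_lit 29) (.e (nat_lit 557101) (nat_lit 13) (.e (nat_lit 172097) (nat_lit 9) (.e (nat_lit 426125) (nat_lit 2) (.e (nat_lit 196661) (nat_lit 12) (.e (nat_lit 65280) (nat_lit 201) .nil))))))) (.g (nat_lit 1) (.e (nat_lit 67701) (nat_lit 0) .nil) .nil))) 
(.lf (nat_lit 463421) (.g (nat_lit 1504) (.e (nat_lit 3085) (nat_lit 191) (.e (nat_lit 483405) (nat_lit 26) (.e (nat_lit 385091) (nat_lit 49) (.e (nat_lit 778323) (nat_lit 5) (.e (nat_lit 81664) (nat_lit 32) .nil))))) (.g (nat_lit 1) (.e (nat_lit 69150) (nat_lit 0) .nil) .nil)))) (.nd (nat_lit 9) 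
(.lf (nat_lit 463165) (.g (nat_lit 3756) (.e (nat_lit 3067) (nat_lit 190) (.e (nat_lit 475185) (nat_lit 29) (.e (nat_lit 557107) (nat_lit 15) (.e (nat_lit 188450) (nat_lit 23) (.e (nat_lit 204817) (nat_lit 17) (.e (nat_lit 6684) (nat_lit 357) .nil)))))) (.g (nat_lit 1) (.e (nat_lit 68184) (nat_lit 0) .nil) .nil))) 
(.lf (nat_lit 463677) (.g (nat_lit 2647) (.e (nat_lit 3089) (nat_lit 191) (.e (nat_lit 483410) (nat_lit 27) (.e (nat_lit 401437) (nat_lit 9) (.e (nat_lit 426533) (nat_lit 28) (.e (nat_lit 344069) (nat_lit 0) .nil))))) (.g (nat_lit 1) (.e (nat_lit 70965) (nat_lit 0) .nil) .nil))))) (.nd (nat_lit 8) (.nd (nat_lit 9) 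
(.lf (nat_lit 463037) (.g (nat_lit 2109) (.e (nat_lit 3067) (nat_lit 190) (.e (nat_lit 475177) (nat_lit 24) (.e (nat_lit 516176) (nat_lit 14) (.e (nat_lit 466954) (nat_lit 11) (.e (nat_lit 335988) (nat_lit 1) (.e (nat_lit 57665) (nat_lit 152) (.e (nat_lit 2497) (nat_lit 157) .nil))))))) (.g (nat_lit 1) (.e (nat_lit 67932) (nat_lit 0) .nil) .nil))) 
(.lf (nat_lit 463549) (.g (nat_lit 1719) (.e (nat_lit 3088) (nat_lit 191) (.e (nat_lit 483393) (nat_lit 23) (.e (nat_lit 336275) (nat_lit 15) (.e (nat_lit 3631) (nat_lit 227) (.e (nat_lit 778323) (nat_lit 5) (.e (nat_lit 73782) (nat_lit 32) .nil)))))) (.g (nat_lit 1) (.e (nat_lit 70020) (nat_lit 0) .nil) .nil)))) (.nd (nat_lit 9) 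
(.lf (nat_lit 463293) (.g (nat_lit 3520) (.e (nat_lit 3071) (nat_lit 190) (.e (nat_lit 475185) (nat_lit 29) (.e (nat_lit 557101) (nat_lit 13) (.e (nat_lit 172115) (nat_lit 10) (.e (nat_lit 434231) (nat_lit 23) (.e (nat_lit 532481) (nat_lit 0) (.e (nat_lit 6617) (nat_lit 357) .nil))))))) (.g (nat_lit 1) (.e (nat_lit 68435) (nat_lit 0) .nil) .nil))) 
(.lf (nat_lit 463805) (.g (nat_lit 1203) (.e (nat_lit 3092) (nat_lit 191) (.e (nat_lit 483395) (nat_lit 24) (.e (nat_lit 344097) (nat_lit 18) (.e (nat_lit 5907) (nat_lit 320) (.e (nat_lit 1209) (nat_lit 89) .nil))))) (.g (nat_lit 0) (.e (nat_lit 71728) (nat_lit 0) .nil) .nil)))))) (.nd (nat_lit 7) (.nd (nat_lit 8) (.nd (nat_lit 9) 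
(.lf (nat_lit 462973) (.g (nat_lit 2870) (.e (nat_lit 3066) (nat_lit 190) (.e (nat_lit 475184) (nat_lit 29) (.e (nat_lit 557109) (nat_lit 15) (.e (nat_lit 188447) (nat_lit 22) (.e (nat_lit 196661) (nat_lit 12) (.e (nat_lit 57751) (nat_lit 201) .nil)))))) (.g (nat_lit 1) (.e (nat_lit 67835) (nat_lit 0) .nil) .nil))) 
(.lf (nat_lit 463485) (.g (nat_lit 1863) (.e (nat_lit 3087) (nat_lit 191) (.e (nat_lit 483393) (nat_lit 23) (.e (nat_lit 335995) (nat_lit 1) (.e (nat_lit 57870) (nat_lit 264) (.e (nat_lit 1210) (nat_lit 89) .nil))))) (.g (nat_lit 0) (.e (nat_lit 69674) (nat_lit 0) .nil) .nil)))) (.nd (nat_lit 9) 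
(.lf (nat_lit 463229) (.g (nat_lit 2975) (.e (nat_lit 3070) (nat_lit 190) (.e (nat_lit 475185) (nat_lit 29) (.e (nat_lit 557109) (nat_lit 15) (.e (nat_lit 188452) (nat_lit 23) (.e (nat_lit 204816) (nat_lit 17) (.e (nat_lit 6696) (nat_lit 357) .nil)))))) (.g (nat_lit 1) (.e (nat_lit 68336) (nat_lit 0) .nil) .nil))) 
(.lf (nat_lit 463741) (.g (nat_lit 2608) (.e (nat_lit 3090) (nat_lit 191) (.e (nat_lit 483383) (nat_lit 23) (.e (nat_lit 336240) (nat_lit 15) (.e (nat_lit 3626) (nat_lit 227) (.e (nat_lit 778324) (nat_lit 5) (.e (nat_lit 73781) (nat_lit 32) .nil)))))) (.g (nat_lit 1) (.e (nat_lit 71476) (nat_lit 0) .nil) .nil))))) (.nd (nat_lit 8) (.nd (nat_lit 9) 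
(.lf (nat_lit 463101) (.g (nat_lit 2616) (.e (nat_lit 3067) (nat_lit 190) (.e (nat_lit 475183) (nat_lit 29) (.e (nat_lit 557101) (nat_lit 13) (.e (nat_lit 172115) (nat_lit 10) (.e (nat_lit 434231) (nat_lit 23) (.e (nat_lit 532481) (nat_lit 0) (.e (nat_lit 6684) (nat_lit 357) .nil))))))) (.g (nat_lit 1) (.e (nat_lit 68116) (nat_lit 0) .nil) .nil))) 
(.lf (nat_lit 463613) (.g (nat_lit 2099) (.e (nat_lit 3089) (nat_lit 191) (.e (nat_lit 483372) (nat_lit 21) (.e (nat_lit 319539) (nat_lit 19) (.e (nat_lit 311357) (nat_lit 28) (.e (nat_lit 344068) (nat_lit 0) .nil))))) (.g (nat_lit 1) (.e (nat_lit 70850) (nat_lit 0) .nil) .nil)))) (.nd (nat_lit 9) 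
(.lf (nat_lit 463357) (.g (nat_lit 672) (.e (nat_lit 3077) (nat_lit 191) (.e (nat_lit 483383) (nat_lit 23) (.e (nat_lit 336240) (nat_lit 15) .nil))) (.g (nat_lit 0) (.e (nat_lit 68637) (nat_lit 0) .nil) .nil))) 
(.lf (nat_lit 463869) (.g (nat_lit 4900) (.e (nat_lit 3096) (nat_lit 192) (.e (nat_lit 491537) (nat_lit 2) (.e (nat_lit 90170) (nat_lit 13) (.e (nat_lit 172106) (nat_lit 10) (.e (nat_lit 434231) (nat_lit 23) (.e (nat_lit 532490) (nat_lit 0) (.e (nat_lit 6680) (nat_lit 357) .nil))))))) (.g (nat_lit 1) (.e (nat_lit 72426) (nat_lit 0) .nil) .nil))))))))))) 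
(.nd (nat_lit 2) (.nd (nat_lit 3) (.nd (nat_lit 4) (.nd (nat_lit 5) (.nd (nat_lit 6) 
(.nd (nat_lit 7) (.nd (nat_lit 8) (.nd (nat_lit 9) 
(.lf (nat_lit 462851) (.g (nat_lit 1155) (.e (nat_lit 3062) (nat_lit 190) (.e (nat_lit 475211) (nat_lit 41) (.e (nat_lit 712755) (nat_lit 30) (.e (nat_lit 450596) (nat_lit 17) .nil)))) (.g (nat_lit 0) (.e (nat_lit 67538) (nat_lit 0) .nil) .nil))) 
(.lf (nat_lit 463363) (.g (nat_lit 1563) (.e (nat_lit 3077) (nat_lit 191) (.e (nat_lit 483406) (nat_lit 26) (.e (nat_lit 385093) (nat_lit 49) (.e (nat_lit 778323) (nat_lit 5) (.e (nat_lit 81664) (nat_lit 32) .nil))))) (.g (nat_lit 1) (.e (nat_lit 68655) (nat_lit 0) .nil) .nil)))) (.nd (nat_lit 9) 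
(.lf (nat_lit 463107) (.g (nat_lit 3823) (.e (nat_lit 3067) (nat_lit 190) (.e (nat_lit 475183) (nat_lit 29) (.e (nat_lit 557108) (nat_lit 15) (.e (nat_lit 188449) (nat_lit 22) (.e (nat_lit 196661) (nat_lit 12) (.e (nat_lit 57750) (nat_lit 201) .nil)))))) (.g (nat_lit 1) (.e (nat_lit 68122) (nat_lit 0) .nil) .nil))) 
(.lf (nat_lit 463619) (.g (nat_lit 1763) (.e (nat_lit 3089) (nat_lit 191) (.e (nat_lit 483383) (nat_lit 23) (.e (nat_lit 336240) (nat_lit 15) (.e (nat_lit 3624) (nat_lit 227) (.e (nat_lit 778323) (nat_lit 5) .nil))))) (.g (nat_lit 0) (.e (nat_lit 70871) (nat_lit 0) .nil) .nil))))) (.nd (nat_lit 8) (.nd (nat_lit 9) 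
(.lf (nat_lit 462979) (.g (nat_lit 2248) (.e (nat_lit 3066) (nat_lit 190) (.e (nat_lit 475185) (nat_lit 29) (.e (nat_lit 557098) (nat_lit 13) (.e (nat_lit 172093) (nat_lit 9) .nil)))) (.g (nat_lit 0) (.e (nat_lit 67843) (nat_lit 0) .nil) .nil))) 
(.lf (nat_lit 463491) (.g (nat_lit 447) (.e (nat_lit 3087) (nat_lit 191) (.e (nat_lit 483395) (nat_lit 24) (.e (nat_lit 344167) (nat_lit 40) .nil))) (.g (nat_lit 0) (.e (nat_lit 69680) (nat_lit 0) .nil) .nil)))) (.nd (nat_lit 9) 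
(.lf (nat_lit 463235) (.g (nat_lit 743) (.e (nat_lit 3071) (nat_lit 190) (.e (nat_lit 475179) (nat_lit 24) (.e (nat_lit 516119) (nat_lit 1) .nil))) (.g (nat_lit 0) (.e (nat_lit 68354) (nat_lit 0) .nil) .nil))) 
(.lf (nat_lit 463747) (.g (nat_lit 1084) (.e (nat_lit 3090) (nat_lit 191) (.e (nat_lit 483383) (nat_lit 23) (.e (nat_lit 336286) (nat_lit 15) .nil))) (.g (nat_lit 0) (.e (nat_lit 71482) (nat_lit 0) .nil) .nil)))))) (.nd (nat_lit 7) (.nd (nat_lit 8) (.nd (nat_lit 9) 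
(.lf (nat_lit 462915) (.g (nat_lit 2006) (.e (nat_lit 3064) (nat_lit 190) (.e (nat_lit 475185) (nat_lit 29) (.e (nat_lit 557101) (nat_lit 13) (.e (nat_lit 172115) (nat_lit 10) (.e (nat_lit 434231) (nat_lit 23) (.e (nat_lit 532482) (nat_lit 0) (.e (nat_lit 6696) (nat_lit 357) .nil))))))) (.g (nat_lit 1) (.e (nat_lit 67707) (nat_lit 0) .nil) .nil))) 
(.lf (nat_lit 463427) (.g (nat_lit 1498) (.e (nat_lit 3085) (nat_lit 191) (.e (nat_lit 483412) (nat_lit 27) (.e (nat_lit 401437) (nat_lit 9) (.e (nat_lit 433920) (nat_lit 25) .nil)))) (.g (nat_lit 0) (.e (nat_lit 69223) (nat_lit 0) .nil) .nil)))) (.nd (nat_lit 9) 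
(.lf (nat_lit 463171) (.g (nat_lit 2147) (.e (nat_lit 3067) (nat_lit 190) (.e (nat_lit 475185) (nat_lit 29) (.e (nat_lit 557107) (nat_lit 15) (.e (nat_lit 188452) (nat_lit 23) (.e (nat_lit 204821) (nat_lit 17) .nil))))) (.g (nat_lit 0) (.e (nat_lit 68190) (nat_lit 0) .nil) .nil))) 
(.lf (nat_lit 463683) (.g (nat_lit 414) (.e (nat_lit 3090) (nat_lit 191) (.e (nat_lit 483350) (nat_lit 17) (.e (nat_lit 6113) (nat_lit 332) .nil))) (.g (nat_lit 0) (.e (nat_lit 71106) (nat_lit 0) .nil) .nil))))) (.nd (nat_lit 8) (.nd (nat_lit 9) 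
(.lf (nat_lit 463043) (.g (nat_lit 1954) (.e (nat_lit 3067) (nat_lit 190) (.e (nat_lit 475178) (nat_lit 24) (.e (nat_lit 516127) (nat_lit 2) (.e (nat_lit 213032) (nat_lit 11) (.e (nat_lit 24605) (nat_lit 2) (.e (nat_lit 90165) (nat_lit 12) (.e (nat_lit 164248) (nat_lit 201) .nil))))))) (.g (nat_lit 1) (.e (nat_lit 67950) (nat_lit 0) .nil) .nil))) 
(.lf (nat_lit 463555) (.g (nat_lit 2518) (.e (nat_lit 3088) (nat_lit 191) (.e (nat_lit 483394) (nat_lit 24) (.e (nat_lit 344169) (nat_lit 40) (.e (nat_lit 671763) (nat_lit 5) (.e (nat_lit 73782) (nat_lit 32) .nil))))) (.g (nat_lit 1) (.e (nat_lit 70026) (nat_lit 0) .nil) .nil)))) (.nd (nat_lit 9) 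
(.lf (nat_lit 463299) (.g (nat_lit 2636) (.e (nat_lit 3071) (nat_lit 190) (.e (nat_lit 475185) (nat_lit 29) (.e (nat_lit 557107) (nat_lit 15) (.e (nat_lit 188450) (nat_lit 23) (.e (nat_lit 204816) (nat_lit 17) (.e (nat_lit 6617) (nat_lit 357) .nil)))))) (.g (nat_lit 1) (.e (nat_lit 68441) (nat_lit 0) .nil) .nil))) 
(.lf (nat_lit 463811) (.g (nat_lit 956) (.e (nat_lit 3092) (nat_lit 191) (.e (nat_lit 483406) (nat_lit 26) (.e (nat_lit 385091) (nat_lit 49) .nil))) (.g (nat_lit 0) (.e (nat_lit 71742) (nat_lit 0) .nil) .nil))))))) (.nd (nat_lit 6) (.nd (nat_lit 7) (.nd (nat_lit 8) (.nd (nat_lit 9) 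
(.lf (nat_lit 462883) (.g (nat_lit 2636) (.e (nat_lit 3063) (nat_lit 190) (.e (nat_lit 475185) (nat_lit 29) (.e (nat_lit 557109) (nat_lit 15) (.e (nat_lit 188449) (nat_lit 22) (.e (nat_lit 196661) (nat_lit 12) .nil))))) (.g (nat_lit 0) (.e (nat_lit 67621) (nat_lit 0) .nil) .nil))) 
(.lf (nat_lit 463395) (.g (nat_lit 2098) (.e (nat_lit 3082) (nat_lit 191) (.e (nat_lit 483408) (nat_lit 26) (.e (nat_lit 385093) (nat_lit 49) (.e (nat_lit 778323) (nat_lit 5) (.e (nat_lit 81664) (nat_lit 32) .nil))))) (.g (nat_lit 0) (.e (nat_lit 68894) (nat_lit 0) .nil) .nil)))) (.nd (nat_lit 9) 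
(.lf (nat_lit 463139) (.g (nat_lit 2673) (.e (nat_lit 3067) (nat_lit 190) (.e (nat_lit 475185) (nat_lit 29) (.e (nat_lit 557097) (nat_lit 13) (.e (nat_lit 172115) (nat_lit 10) (.e (nat_lit 434231) (nat_lit 23) (.e (nat_lit 532490) (nat_lit 0) (.e (nat_lit 6680) (nat_lit 357) .nil))))))) (.g (nat_lit 1) (.e (nat_lit 68157) (nat_lit 0) .nil) .nil))) 
(.lf (nat_lit 463651) (.g (nat_lit 1625) (.e (nat_lit 3089) (nat_lit 191) (.e (nat_lit 483393) (nat_lit 23) (.e (nat_lit 336275) (nat_lit 15) (.e (nat_lit 3632) (nat_lit 227) (.e (nat_lit 778324) (nat_lit 5) (.e (nat_lit 73781) (nat_lit 32) .nil)))))) (.g (nat_lit 1) (.e (nat_lit 70908) (nat_lit 0) .nil) .nil))))) (.nd (nat_lit 8) (.nd (nat_lit 9) 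
(.lf (nat_lit 463011) (.g (nat_lit 2714) (.e (nat_lit 3067) (nat_lit 190) (.e (nat_lit 483072) (nat_lit 26) (.e (nat_lit 532544) (nat_lit 10) (.e (nat_lit 344118) (nat_lit 21) (.e (nat_lit 516129) (nat_lit 3) (.e (nat_lit 221210) (nat_lit 22) (.e (nat_lit 196609) (nat_lit 0) .nil))))))) (.g (nat_lit 1) (.e (nat_lit 67890) (nat_lit 0) .nil) .nil))) 
(.lf (nat_lit 463523) (.g (nat_lit 2298) (.e (nat_lit 3087) (nat_lit 191) (.e (nat_lit 483408) (nat_lit 26) (.e (nat_lit 385093) (nat_lit 49) (.e (nat_lit 778323) (nat_lit 5) (.e (nat_lit 73781) (nat_lit 32) .nil))))) (.g (nat_lit 1) (.e (nat_lit 69717) (nat_lit 0) .nil) .nil)))) (.nd (nat_lit 9) 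
(.lf (nat_lit 463267) (.g (nat_lit 3378) (.e (nat_lit 3071) (nat_lit 190) (.e (nat_lit 475185) (nat_lit 29) (.e (nat_lit 557100) (nat_lit 13) (.e (nat_lit 172106) (nat_lit 10) (.e (nat_lit 434231) (nat_lit 23) (.e (nat_lit 532481) (nat_lit 0) (.e (nat_lit 6617) (nat_lit 357) .nil))))))) (.g (nat_lit 1) (.e (nat_lit 68409) (nat_lit 0) .nil) .nil))) 
(.lf (nat_lit 463779) (.g (nat_lit 2675) (.e (nat_lit 3090) (nat_lit 191) (.e (nat_lit 483404) (nat_lit 26) (.e (nat_lit 385093) (nat_lit 49) (.e (nat_lit 778323) (nat_lit 5) (.e (nat_lit 73781) (nat_lit 32) .nil))))) (.g (nat_lit 1) (.e (nat_lit 71533) (nat_lit 0) .nil) .nil)))))) (.nd (nat_lit 7) (.nd (nat_lit 8) (.nd (nat_lit 9) 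
(.lf (nat_lit 462947) (.g (nat_lit 2121) (.e (nat_lit 3065) (nat_lit 190) (.e (nat_lit 475185) (nat_lit 29) (.e (nat_lit 557109) (nat_lit 15) (.e (nat_lit 188452) (nat_lit 23) (.e (nat_lit 204817) (nat_lit 17) .nil))))) (.g (nat_lit 0) (.e (nat_lit 67777) (nat_lit 0) .nil) .nil))) 
(.lf (nat_lit 463459) (.g (nat_lit 859) (.e (nat_lit 3087) (nat_lit 191) (.e (nat_lit 483382) (nat_lit 23) (.e (nat_lit 336332) (nat_lit 19) (.e (nat_lit 220928) (nat_lit 5) .nil)))) (.g (nat_lit 0) (.e (nat_lit 69646) (nat_lit 0) .nil) .nil)))) (.nd (nat_lit 9) 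
(.lf (nat_lit 463203) (.g (nat_lit 3598) (.e (nat_lit 3069) (nat_lit 190) (.e (nat_lit 475185) (nat_lit 29) (.e (nat_lit 557101) (nat_lit 13) (.e (nat_lit 172097) (nat_lit 9) (.e (nat_lit 426125) (nat_lit 2) (.e (nat_lit 196661) (nat_lit 12) (.e (nat_lit 65280) (nat_lit 201) .nil))))))) (.g (nat_lit 1) (.e (nat_lit 68295) (nat_lit 0) .nil) .nil))) 
(.lf (nat_lit 463715) (.g (nat_lit 1388) (.e (nat_lit 3090) (nat_lit 191) (.e (nat_lit 483372) (nat_lit 21) (.e (nat_lit 319505) (nat_lit 10) (.e (nat_lit 5698) (nat_lit 312) .nil)))) (.g (nat_lit 0) (.e (nat_lit 71279) (nat_lit 0) .nil) .nil))))) (.nd (nat_lit 8) (.nd (nat_lit 9) 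
(.lf (nat_lit 463075) (.g (nat_lit 2808) (.e (nat_lit 3067) (nat_lit 190) (.e (nat_lit 475179) (nat_lit 24) (.e (nat_lit 516174) (nat_lit 14) (.e (nat_lit 466954) (nat_lit 11) (.e (nat_lit 335986) (nat_lit 1) (.e (nat_lit 57655) (nat_lit 152) (.e (nat_lit 2485) (nat_lit 157) .nil))))))) (.g (nat_lit 1) (.e (nat_lit 68083) (nat_lit 0) .nil) .nil))) 
(.lf (nat_lit 463587) (.g (nat_lit 630) (.e (nat_lit 3088) (nat_lit 191) (.e (nat_lit 483409) (nat_lit 27) (.e (nat_lit 401436) (nat_lit 9) (.e (nat_lit 426533) (nat_lit 28) .nil)))) (.g (nat_lit 0) (.e (nat_lit 70074) (nat_lit 0) .nil) .nil)))) (.nd (nat_lit 9) 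
(.lf (nat_lit 463331) (.g (nat_lit 3614) (.e (nat_lit 3073) (nat_lit 190) (.e (nat_lit 475185) (nat_lit 29) (.e (nat_lit 557101) (nat_lit 13) (.e (nat_lit 172097) (nat_lit 9) (.e (nat_lit 426125) (nat_lit 2) (.e (nat_lit 196661) (nat_lit 12) (.e (nat_lit 65280) (nat_lit 201) .nil))))))) (.g (nat_lit 1) (.e (nat_lit 68537) (nat_lit 0) .nil) .nil))) 
(.lf (nat_lit 463843) (.g (nat_lit 410) (.e (nat_lit 3094) (nat_lit 191) (.e (nat_lit 483413) (nat_lit 27) (.e (nat_lit 401440) (nat_lit 9) .nil))) (.g (nat_lit 0) (.e (nat_lit 72183) (nat_lit 0) .nil) .nil)))))))) (.nd (nat_lit 5) (.nd (nat_lit 6) (.nd (nat_lit 7) (.nd (nat_lit 8) (.nd (nat_lit 9) 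
(.lf (nat_lit 462867) (.g (nat_lit 2857) (.e (nat_lit 3063) (nat_lit 190) (.e (nat_lit 475185) (nat_lit 29) (.e (nat_lit 557100) (nat_lit 13) (.e (nat_lit 172113) (nat_lit 10) (.e (nat_lit 434245) (nat_lit 28) (.e (nat_lit 573474) (nat_lit 12) (.e (nat_lit 57565) (nat_lit 52) (.e (nat_lit 753672) (nat_lit 5) .nil)))))))) (.g (nat_lit 1) (.e (nat_lit 67605) (nat_lit 0) .nil) .nil))) 
(.lf (nat_lit 463379) (.g (nat_lit 1066) (.e (nat_lit 3079) (nat_lit 191) (.e (nat_lit 483385) (nat_lit 23) (.e (nat_lit 336332) (nat_lit 19) (.e (nat_lit 220928) (nat_lit 5) .nil)))) (.g (nat_lit 0) (.e (nat_lit 68814) (nat_lit 0) .nil) .nil)))) (.nd (nat_lit 9) 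
(.lf (nat_lit 463123) (.g (nat_lit 4308) (.e (nat_lit 3067) (nat_lit 190) (.e (nat_lit 475183) (nat_lit 29) (.e (nat_lit 557109) (nat_lit 15) (.e (nat_lit 188452) (nat_lit 23) (.e (nat_lit 212736) (nat_lit 17) (.e (nat_lit 6666) (nat_lit 357) .nil)))))) (.g (nat_lit 1) (.e (nat_lit 68138) (nat_lit 0) .nil) .nil))) 
(.lf (nat_lit 463635) (.g (nat_lit 871) (.e (nat_lit 3089) (nat_lit 191) (.e (nat_lit 483383) (nat_lit 23) (.e (nat_lit 336285) (nat_lit 15) .nil))) (.g (nat_lit 0) (.e (nat_lit 70890) (nat_lit 0) .nil) .nil))))) (.nd (nat_lit 8) (.nd (nat_lit 9) 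
(.lf (nat_lit 462995) (.g (nat_lit 2543) (.e (nat_lit 3066) (nat_lit 190) (.e (nat_lit 475185) (nat_lit 29) (.e (nat_lit 557107) (nat_lit 15) (.e (nat_lit 188450) (nat_lit 23) (.e (nat_lit 204821) (nat_lit 17) (.e (nat_lit 6676) (nat_lit 357) .nil)))))) (.g (nat_lit 1) (.e (nat_lit 67859) (nat_lit 0) .nil) .nil))) 
(.lf (nat_lit 463507) (.g (nat_lit 2255) (.e (nat_lit 3087) (nat_lit 191) (.e (nat_lit 483405) (nat_lit 26) (.e (nat_lit 385093) (nat_lit 49) (.e (nat_lit 778323) (nat_lit 5) (.e (nat_lit 73781) (nat_lit 32) .nil))))) (.g (nat_lit 1) (.e (nat_lit 69699) (nat_lit 0) .nil) .nil)))) (.nd (nat_lit 9) 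
(.lf (nat_lit 463251) (.g (nat_lit 3313) (.e (nat_lit 3071) (nat_lit 190) (.e (nat_lit 475179) (nat_lit 24) (.e (nat_lit 516176) (nat_lit 14) (.e (nat_lit 466954) (nat_lit 11) (.e (nat_lit 335995) (nat_lit 1) (.e (nat_lit 57654) (nat_lit 152) (.e (nat_lit 2399) (nat_lit 157) .nil))))))) (.g (nat_lit 1) (.e (nat_lit 68387) (nat_lit 0) .nil) .nil))) 
(.lf (nat_lit 463763) (.g (nat_lit 2517) (.e (nat_lit 3090) (nat_lit 191) (.e (nat_lit 483389) (nat_lit 23) (.e (nat_lit 336295) (nat_lit 15) (.e (nat_lit 3632) (nat_lit 227) (.e (nat_lit 778324) (nat_lit 5) (.e (nat_lit 73781) (nat_lit 32) .nil)))))) (.g (nat_lit 1) (.e (nat_lit 71499) (nat_lit 0) .nil) .nil)))))) (.nd (nat_lit 7) (.nd (nat_lit 8) (.nd (nat_lit 9) 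
(.lf (nat_lit 462931) (.g (nat_lit 4050) (.e (nat_lit 3065) (nat_lit 190) (.e (nat_lit 475185) (nat_lit 29) (.e (nat_lit 557098) (nat_lit 13) (.e (nat_lit 172097) (nat_lit 9) (.e (nat_lit 426125) (nat_lit 2) (.e (nat_lit 196661) (nat_lit 12) (.e (nat_lit 57751) (nat_lit 201) .nil))))))) (.g (nat_lit 1) (.e (nat_lit 67761) (nat_lit 0) .nil) .nil))) 
(.lf (nat_lit 463443) (.g (nat_lit 2931) (.e (nat_lit 3085) (nat_lit 191) (.e (nat_lit 483413) (nat_lit 27) (.e (nat_lit 401447) (nat_lit 10) (.e (nat_lit 434209) (nat_lit 18) .nil)))) (.g (nat_lit 0) (.e (nat_lit 69418) (nat_lit 0) .nil) .nil)))) (.nd (nat_lit 9) 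
(.lf (nat_lit 463187) (.g (nat_lit 3246) (.e (nat_lit 3067) (nat_lit 190) (.e (nat_lit 475185) (nat_lit 29) (.e (nat_lit 557109) (nat_lit 15) (.e (nat_lit 188452) (nat_lit 23) (.e (nat_lit 204819) (nat_lit 17) (.e (nat_lit 6666) (nat_lit 357) .nil)))))) (.g (nat_lit 1) (.e (nat_lit 68206) (nat_lit 0) .nil) .nil))) 
(.lf (nat_lit 463699) (.g (nat_lit 1581) (.e (nat_lit 3090) (nat_lit 191) (.e (nat_lit 483354) (nat_lit 17) (.e (nat_lit 6674) (nat_lit 357) (.e (nat_lit 2940) (nat_lit 184) (.e (nat_lit 426532) (nat_lit 28) (.e (nat_lit 344069) (nat_lit 0) .nil)))))) (.g (nat_lit 1) (.e (nat_lit 71145) (nat_lit 0) .nil) .nil))))) (.nd (nat_lit 8) (.nd (nat_lit 9) 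
(.lf (nat_lit 463059) (.g (nat_lit 2744) (.e (nat_lit 3067) (nat_lit 190) (.e (nat_lit 475179) (nat_lit 24) (.e (nat_lit 516119) (nat_lit 1) (.e (nat_lit 164326) (nat_lit 230) (.e (nat_lit 163941) (nat_lit 19) (.e (nat_lit 483333) (nat_lit 0) (.e (nat_lit 7337) (nat_lit 388) .nil))))))) (.g (nat_lit 1) (.e (nat_lit 68019) (nat_lit 0) .nil) .nil))) 
(.lf (nat_lit 463571) (.g (nat_lit 1812) (.e (nat_lit 3088) (nat_lit 191) (.e (nat_lit 483405) (nat_lit 26) (.e (nat_lit 385092) (nat_lit 49) (.e (nat_lit 778323) (nat_lit 5) (.e (nat_lit 73782) (nat_lit 32) .nil))))) (.g (nat_lit 1) (.e (nat_lit 70049) (nat_lit 0) .nil) .nil)))) (.nd (nat_lit 9) 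
(.lf (nat_lit 463315) (.g (nat_lit 4204) (.e (nat_lit 3071) (nat_lit 190) (.e (nat_lit 475185) (nat_lit 29) (.e (nat_lit 557109) (nat_lit 15) (.e (nat_lit 188452) (nat_lit 23) (.e (nat_lit 204816) (nat_lit 17) (.e (nat_lit 6617) (nat_lit 357) .nil)))))) (.g (nat_lit 1) (.e (nat_lit 68457) (nat_lit 0) .nil) .nil))) 
(.lf (nat_lit 463827) (.g (nat_lit 682) (.e (nat_lit 3094) (nat_lit 191) (.e (nat_lit 483403) (nat_lit 26) (.e (nat_lit 385093) (nat_lit 49) .nil))) (.g (nat_lit 0) (.e (nat_lit 72078) (nat_lit 0) .nil) .nil))))))) (.nd (nat_lit 6) (.nd (nat_lit 7) (.nd (nat_lit 8) (.nd (nat_lit 9) 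
(.lf (nat_lit 462899) (.g (nat_lit 3094) (.e (nat_lit 3064) (nat_lit 190) (.e (nat_lit 475184) (nat_lit 29) (.e (nat_lit 557109) (nat_lit 15) (.e (nat_lit 188450) (nat_lit 23) (.e (nat_lit 204821) (nat_lit 17) .nil))))) (.g (nat_lit 0) (.e (nat_lit 67691) (nat_lit 0) .nil) .nil))) 
(.lf (nat_lit 463411) (.g (nat_lit 775) (.e (nat_lit 3085) (nat_lit 191) (.e (nat_lit 483337) (nat_lit 9) (.e (nat_lit 426275) (nat_lit 10) .nil))) (.g (nat_lit 0) (.e (nat_lit 68985) (nat_lit 0) .nil) .nil)))) (.nd (nat_lit 9) 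
(.lf (nat_lit 463155) (.g (nat_lit 3641) (.e (nat_lit 3067) (nat_lit 190) (.e (nat_lit 475185) (nat_lit 29) (.e (nat_lit 557101) (nat_lit 13) (.e (nat_lit 172097) (nat_lit 9) (.e (nat_lit 426140) (nat_lit 3) (.e (nat_lit 212736) (nat_lit 17) (.e (nat_lit 6666) (nat_lit 357) .nil))))))) (.g (nat_lit 1) (.e (nat_lit 68173) (nat_lit 0) .nil) .nil))) 
(.lf (nat_lit 463667) (.g (nat_lit 872) (.e (nat_lit 3089) (nat_lit 191) (.e (nat_lit 483406) (nat_lit 26) (.e (nat_lit 385090) (nat_lit 49) .nil))) (.g (nat_lit 0) (.e (nat_lit 70940) (nat_lit 0) .nil) .nil))))) (.nd (nat_lit 8) (.nd (nat_lit 9) 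
(.lf (nat_lit 463027) (.g (nat_lit 4305) (.e (nat_lit 3067) (nat_lit 190) (.e (nat_lit 483072) (nat_lit 26) (.e (nat_lit 532544) (nat_lit 10) (.e (nat_lit 344133) (nat_lit 26) (.e (nat_lit 557105) (nat_lit 14) (.e (nat_lit 180251) (nat_lit 10) (.e (nat_lit 573440) (nat_lit 0) .nil))))))) (.g (nat_lit 1) (.e (nat_lit 67906) (nat_lit 0) .nil) .nil))) 
(.lf (nat_lit 463539) (.g (nat_lit 1637) (.e (nat_lit 3088) (nat_lit 191) (.e (nat_lit 483383) (nat_lit 23) (.e (nat_lit 336286) (nat_lit 15) (.e (nat_lit 3632) (nat_lit 227) .nil)))) (.g (nat_lit 0) (.e (nat_lit 70009) (nat_lit 0) .nil) .nil)))) (.nd (nat_lit 9) 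
(.lf (nat_lit 463283) (.g (nat_lit 3217) (.e (nat_lit 3071) (nat_lit 190) (.e (nat_lit 475185) (nat_lit 29) (.e (nat_lit 557101) (nat_lit 13) (.e (nat_lit 172097) (nat_lit 9) (.e (nat_lit 426140) (nat_lit 3) (.e (nat_lit 204821) (nat_lit 17) (.e (nat_lit 7936) (nat_lit 357) .nil))))))) (.g (nat_lit 1) (.e (nat_lit 68425) (nat_lit 0) .nil) .nil))) 
(.lf (nat_lit 463795) (.g (nat_lit 2393) (.e (nat_lit 3090) (nat_lit 191) (.e (nat_lit 483410) (nat_lit 27) (.e (nat_lit 401459) (nat_lit 13) (.e (nat_lit 483357) (nat_lit 17) .nil)))) (.g (nat_lit 0) (.e (nat_lit 71577) (nat_lit 0) .nil) .nil)))))) (.nd (nat_lit 7) (.nd (nat_lit 8) (.nd (nat_lit 9) 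
(.lf (nat_lit 462963) (.g (nat_lit 1938) (.e (nat_lit 3066) (nat_lit 190) (.e (nat_lit 475183) (nat_lit 29) (.e (nat_lit 557107) (nat_lit 15) (.e (nat_lit 188450) (nat_lit 23) (.e (nat_lit 204821) (nat_lit 17) .nil))))) (.g (nat_lit 0) (.e (nat_lit 67825) (nat_lit 0) .nil) .nil))) 
(.lf (nat_lit 463475) (.g (nat_lit 2040) (.e (nat_lit 3087) (nat_lit 191) (.e (nat_lit 483386) (nat_lit 23) (.e (nat_lit 336282) (nat_lit 15) (.e (nat_lit 3632) (nat_lit 227) (.e (nat_lit 778323) (nat_lit 5) (.e (nat_lit 73782) (nat_lit 32) .nil)))))) (.g (nat_lit 1) (.e (nat_lit 69664) (nat_lit 0) .nil) .nil)))) (.nd (nat_lit 9) 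
(.lf (nat_lit 463219) (.g (nat_lit 1081) (.e (nat_lit 3070) (nat_lit 190) (.e (nat_lit 475185) (nat_lit 29) (.e (nat_lit 557107) (nat_lit 15) (.e (nat_lit 188450) (nat_lit 23) .nil)))) (.g (nat_lit 0) (.e (nat_lit 68326) (nat_lit 0) .nil) .nil))) 
(.lf (nat_lit 463731) (.g (nat_lit 2909) (.e (nat_lit 3090) (nat_lit 191) (.e (nat_lit 483380) (nat_lit 23) (.e (nat_lit 336265) (nat_lit 15) (.e (nat_lit 3632) (nat_lit 227) (.e (nat_lit 778323) (nat_lit 5) (.e (nat_lit 73782) (nat_lit 32) .nil)))))) (.g (nat_lit 1) (.e (nat_lit 71451) (nat_lit 0) .nil) .nil))))) (.nd (nat_lit 8) (.nd (nat_lit 9) 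
(.lf (nat_lit 463091) (.g (nat_lit 3378) (.e (nat_lit 3067) (nat_lit 190) (.e (nat_lit 475183) (nat_lit 29) (.e (nat_lit 557097) (nat_lit 13) (.e (nat_lit 172115) (nat_lit 10) (.e (nat_lit 434244) (nat_lit 28) (.e (nat_lit 573468) (nat_lit 10) (.e (nat_lit 8524) (nat_lit 205) .nil))))))) (.g (nat_lit 1) (.e (nat_lit 68106) (nat_lit 0) .nil) .nil))) 
(.lf (nat_lit 463603) (.g (nat_lit 3064) (.e (nat_lit 3088) (nat_lit 191) (.e (nat_lit 483413) (nat_lit 27) (.e (nat_lit 401444) (nat_lit 9) (.e (nat_lit 426532) (nat_lit 28) (.e (nat_lit 344069) (nat_lit 0) .nil))))) (.g (nat_lit 1) (.e (nat_lit 70175) (nat_lit 0) .nil) .nil)))) (.nd (nat_lit 9) 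
(.lf (nat_lit 463347) (.g (nat_lit 642) (.e (nat_lit 3076) (nat_lit 191) (.e (nat_lit 483385) (nat_lit 23) (.e (nat_lit 336332) (nat_lit 19) .nil))) (.g (nat_lit 0) (.e (nat_lit 68608) (nat_lit 0) .nil) .nil))) 
(.lf (nat_lit 463859) (.g (nat_lit 4012) (.e (nat_lit 3095) (nat_lit 192) (.e (nat_lit 491569) (nat_lit 13) (.e (nat_lit 393301) (nat_lit 27) (.e (nat_lit 491559) (nat_lit 10) (.e (nat_lit 344091) (nat_lit 18) .nil))))) (.g (nat_lit 0) (.e (nat_lit 72412) (nat_lit 0) .nil) .nil))))))))) (.nd (nat_lit 4) (.nd (nat_lit 5) (.nd (nat_lit 6) (.nd (nat_lit 7) (.nd (nat_lit 8) (.nd (nat_lit 9) 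
(.lf (nat_lit 462859) (.g (nat_lit 2122) (.e (nat_lit 3063) (nat_lit 190) (.e (nat_lit 475185) (nat_lit 29) (.e (nat_lit 557100) (nat_lit 13) (.e (nat_lit 172106) (nat_lit 10) (.e (nat_lit 434227) (nat_lit 20) (.e (nat_lit 507929) (nat_lit 10) (.e (nat_lit 5614) (nat_lit 312) .nil))))))) (.g (nat_lit 1) (.e (nat_lit 67597) (nat_lit 0) .nil) .nil))) 
(.lf (nat_lit 463371) (.g (nat_lit 805) (.e (nat_lit 3077) (nat_lit 191) (.e (nat_lit 483408) (nat_lit 26) (.e (nat_lit 385091) (nat_lit 49) .nil))) (.g (nat_lit 0) (.e (nat_lit 68672) (nat_lit 0) .nil) .nil)))) (.nd (nat_lit 9) 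
(.lf (nat_lit 463115) (.g (nat_lit 3785) (.e (nat_lit 3067) (nat_lit 190) (.e (nat_lit 475183) (nat_lit 29) (.e (nat_lit 557109) (nat_lit 15) (.e (nat_lit 188447) (nat_lit 22) (.e (nat_lit 196661) (nat_lit 12) .nil))))) (.g (nat_lit 0) (.e (nat_lit 68130) (nat_lit 0) .nil) .nil))) 
(.lf (nat_lit 463627) (.g (nat_lit 2183) (.e (nat_lit 3089) (nat_lit 191) (.e (nat_lit 483383) (nat_lit 23) (.e (nat_lit 336263) (nat_lit 15) (.e (nat_lit 3632) (nat_lit 227) (.e (nat_lit 778323) (nat_lit 5) (.e (nat_lit 73781) (nat_lit 32) .nil)))))) (.g (nat_lit 1) (.e (nat_lit 70881) (nat_lit 0) .nil) .nil))))) (.nd (nat_lit 8) (.nd (nat_lit 9) 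
(.lf (nat_lit 462987) (.g (nat_lit 3458) (.e (nat_lit 3066) (nat_lit 190) (.e (nat_lit 475185) (nat_lit 29) (.e (nat_lit 557101) (nat_lit 13) (.e (nat_lit 172097) (nat_lit 9) (.e (nat_lit 426125) (nat_lit 2) (.e (nat_lit 196661) (nat_lit 12) (.e (nat_lit 57751) (nat_lit 201) .nil))))))) (.g (nat_lit 1) (.e (nat_lit 67851) (nat_lit 0) .nil) .nil))) 
(.lf (nat_lit 463499) (.g (nat_lit 2109) (.e (nat_lit 3087) (nat_lit 191) (.e (nat_lit 483403) (nat_lit 26) (.e (nat_lit 385093) (nat_lit 49) (.e (nat_lit 778323) (nat_lit 5) (.e (nat_lit 73782) (nat_lit 32) .nil))))) (.g (nat_lit 1) (.e (nat_lit 69689) (nat_lit 0) .nil) .nil)))) (.nd (nat_lit 9) 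
(.lf (nat_lit 463243) (.g (nat_lit 3758) (.e (nat_lit 3071) (nat_lit 190) (.e (nat_lit 475179) (nat_lit 24) (.e (nat_lit 516146) (nat_lit 9) (.e (nat_lit 426438) (nat_lit 18) (.e (nat_lit 98358) (nat_lit 26) (.e (nat_lit 426428) (nat_lit 17) (.e (nat_lit 90130) (nat_lit 9) .nil))))))) (.g (nat_lit 1) (.e (nat_lit 68366) (nat_lit 0) .nil) .nil))) 
(.lf (nat_lit 463755) (.g (nat_lit 3489) (.e (nat_lit 3090) (nat_lit 191) (.e (nat_lit 483386) (nat_lit 23) (.e (nat_lit 336282) (nat_lit 15) (.e (nat_lit 3632) (nat_lit 227) (.e (nat_lit 778323) (nat_lit 5) (.e (nat_lit 73782) (nat_lit 32) .nil)))))) (.g (nat_lit 1) (.e (nat_lit 71490) (nat_lit 0) .nil) .nil)))))) (.nd (nat_lit 7) (.nd (nat_lit 8) (.nd (nat_lit 9) 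
(.lf (nat_lit 462923) (.g (nat_lit 1780) (.e (nat_lit 3065) (nat_lit 190) (.e (nat_lit 475184) (nat_lit 29) (.e (nat_lit 557107) (nat_lit 15) (.e (nat_lit 188447) (nat_lit 22) (.e (nat_lit 196661) (nat_lit 12) .nil))))) (.g (nat_lit 0) (.e (nat_lit 67753) (nat_lit 0) .nil) .nil))) 
(.lf (nat_lit 463435) (.g (nat_lit 2129) (.e (nat_lit 3085) (nat_lit 191) (.e (nat_lit 483413) (nat_lit 27) (.e (nat_lit 401446) (nat_lit 10) (.e (nat_lit 434205) (nat_lit 18) .nil)))) (.g (nat_lit 0) (.e (nat_lit 69372) (nat_lit 0) .nil) .nil)))) (.nd (nat_lit 9) 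
(.lf (nat_lit 463179) (.g (nat_lit 3296) (.e (nat_lit 3067) (nat_lit 190) (.e (nat_lit 475185) (nat_lit 29) (.e (nat_lit 557109) (nat_lit 15) (.e (nat_lit 188450) (nat_lit 23) (.e (nat_lit 204821) (nat_lit 17) (.e (nat_lit 6676) (nat_lit 357) .nil)))))) (.g (nat_lit 1) (.e (nat_lit 68198) (nat_lit 0) .nil) .nil))) 
(.lf (nat_lit 463691) (.g (nat_lit 1638) (.e (nat_lit 3090) (nat_lit 191) (.e (nat_lit 483354) (nat_lit 17) (.e (nat_lit 6114) (nat_lit 332) (.e (nat_lit 1379) (nat_lit 104) (.e (nat_lit 303154) (nat_lit 28) (.e (nat_lit 344069) (nat_lit 0) .nil)))))) (.g (nat_lit 1) (.e (nat_lit 71133) (nat_lit 0) .nil) .nil))))) (.nd (nat_lit 8) (.nd (nat_lit 9) 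
(.lf (nat_lit 463051) (.g (nat_lit 2153) (.e (nat_lit 3067) (nat_lit 190) (.e (nat_lit 475179) (nat_lit 24) (.e (nat_lit 516117) (nat_lit 1) (.e (nat_lit 164330) (nat_lit 230) .nil)))) (.g (nat_lit 0) (.e (nat_lit 67986) (nat_lit 0) .nil) .nil))) 
(.lf (nat_lit 463563) (.g (nat_lit 2648) (.e (nat_lit 3088) (nat_lit 191) (.e (nat_lit 483402) (nat_lit 26) (.e (nat_lit 385093) (nat_lit 49) (.e (nat_lit 778323) (nat_lit 5) (.e (nat_lit 73782) (nat_lit 32) .nil))))) (.g (nat_lit 1) (.e (nat_lit 70036) (nat_lit 0) .nil) .nil)))) (.nd (nat_lit 9) 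
(.lf (nat_lit 463307) (.g (nat_lit 4236) (.e (nat_lit 3071) (nat_lit 190) (.e (nat_lit 475185) (nat_lit 29) (.e (nat_lit 557108) (nat_lit 15) (.e (nat_lit 188452) (nat_lit 23) (.e (nat_lit 204816) (nat_lit 17) (.e (nat_lit 6619) (nat_lit 357) .nil)))))) (.g (nat_lit 1) (.e (nat_lit 68449) (nat_lit 0) .nil) .nil))) 
(.lf (nat_lit 463819) (.g (nat_lit 1130) (.e (nat_lit 3094) (nat_lit 191) (.e (nat_lit 483383) (nat_lit 23) (.e (nat_lit 336000) (nat_lit 1) .nil))) (.g (nat_lit 0) (.e (nat_lit 72061) (nat_lit 0) .nil) .nil))))))) (.nd (nat_lit 6) (.nd (nat_lit 7) (.nd (nat_lit 8) (.nd (nat_lit 9) 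
(.lf (nat_lit 462891) (.g (nat_lit 2559) (.e (nat_lit 3064) (nat_lit 190) (.e (nat_lit 475184) (nat_lit 29) (.e (nat_lit 557098) (nat_lit 13) (.e (nat_lit 172097) (nat_lit 9) (.e (nat_lit 426140) (nat_lit 3) (.e (nat_lit 204821) (nat_lit 17) (.e (nat_lit 6676) (nat_lit 357) .nil))))))) (.g (nat_lit 1) (.e (nat_lit 67683) (nat_lit 0) .nil) .nil))) 
(.lf (nat_lit 463403) (.g (nat_lit 751) (.e (nat_lit 3085) (nat_lit 191) (.e (nat_lit 483337) (nat_lit 9) (.e (nat_lit 426100) (nat_lit 1) .nil))) (.g (nat_lit 0) (.e (nat_lit 68964) (nat_lit 0) .nil) .nil)))) (.nd (nat_lit 9) 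
(.lf (nat_lit 463147) (.g (nat_lit 3561) (.e (nat_lit 3067) (nat_lit 190) (.e (nat_lit 475185) (nat_lit 29) (.e (nat_lit 557098) (nat_lit 13) (.e (nat_lit 172097) (nat_lit 9) (.e (nat_lit 426140) (nat_lit 3) (.e (nat_lit 212736) (nat_lit 17) (.e (nat_lit 6666) (nat_lit 357) .nil))))))) (.g (nat_lit 1) (.e (nat_lit 68165) (nat_lit 0) .nil) .nil))) 
(.lf (nat_lit 463659) (.g (nat_lit 960) (.e (nat_lit 3089) (nat_lit 191) (.e (nat_lit 483399) (nat_lit 25) (.e (nat_lit 368663) (nat_lit 18) (.e (nat_lit 5906) (nat_lit 320) (.e (nat_lit 1209) (nat_lit 89) .nil))))) (.g (nat_lit 0) (.e (nat_lit 70919) (nat_lit 0) .nil) .nil))))) (.nd (nat_lit 8) (.nd (nat_lit 9) 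
(.lf (nat_lit 463019) (.g (nat_lit 2117) (.e (nat_lit 3067) (nat_lit 190) (.e (nat_lit 483072) (nat_lit 26) (.e (nat_lit 532544) (nat_lit 10) (.e (nat_lit 344132) (nat_lit 26) (.e (nat_lit 557101) (nat_lit 13) (.e (nat_lit 172045) (nat_lit 0) (.e (nat_lit 3308) (nat_lit 202) (.e (nat_lit 573440) (nat_lit 0) .nil)))))))) (.g (nat_lit 1) (.e (nat_lit 67898) (nat_lit 0) .nil) .nil))) 
(.lf (nat_lit 463531) (.g (nat_lit 1138) (.e (nat_lit 3088) (nat_lit 191) (.e (nat_lit 483383) (nat_lit 23) (.e (nat_lit 336240) (nat_lit 15) .nil))) (.g (nat_lit 0) (.e (nat_lit 70001) (nat_lit 0) .nil) .nil)))) (.nd (nat_lit 9) 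
(.lf (nat_lit 463275) (.g (nat_lit 3221) (.e (nat_lit 3071) (nat_lit 190) (.e (nat_lit 475185) (nat_lit 29) (.e (nat_lit 557100) (nat_lit 13) (.e (nat_lit 172113) (nat_lit 10) (.e (nat_lit 434245) (nat_lit 28) (.e (nat_lit 573468) (nat_lit 10) (.e (nat_lit 16128) (nat_lit 205) .nil))))))) (.g (nat_lit 1) (.e (nat_lit 68417) (nat_lit 0) .nil) .nil))) 
(.lf (nat_lit 463787) (.g (nat_lit 889) (.e (nat_lit 3090) (nat_lit 191) (.e (nat_lit 483409) (nat_lit 27) (.e (nat_lit 401435) (nat_lit 9) (.e (nat_lit 426533) (nat_lit 28) .nil)))) (.g (nat_lit 0) (.e (nat_lit 71545) (nat_lit 0) .nil) .nil)))))) (.nd (nat_lit 7) (.nd (nat_lit 8) (.nd (nat_lit 9) 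
(.lf (nat_lit 462955) (.g (nat_lit 2315) (.e (nat_lit 3066) (nat_lit 190) (.e (nat_lit 475183) (nat_lit 29) (.e (nat_lit 557097) (nat_lit 13) (.e (nat_lit 172097) (nat_lit 9) (.e (nat_lit 426140) (nat_lit 3) (.e (nat_lit 204821) (nat_lit 17) (.e (nat_lit 6680) (nat_lit 357) .nil))))))) (.g (nat_lit 1) (.e (nat_lit 67817) (nat_lit 0) .nil) .nil))) 
(.lf (nat_lit 463467) (.g (nat_lit 2444) (.e (nat_lit 3087) (nat_lit 191) (.e (nat_lit 483383) (nat_lit 23) (.e (nat_lit 336240) (nat_lit 15) (.e (nat_lit 3637) (nat_lit 227) (.e (nat_lit 778323) (nat_lit 5) (.e (nat_lit 73782) (nat_lit 32) .nil)))))) (.g (nat_lit 1) (.e (nat_lit 69655) (nat_lit 0) .nil) .nil)))) (.nd (nat_lit 9) 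
(.lf (nat_lit 463211) (.g (nat_lit 2728) (.e (nat_lit 3070) (nat_lit 190) (.e (nat_lit 475185) (nat_lit 29) (.e (nat_lit 557100) (nat_lit 13) (.e (nat_lit 172113) (nat_lit 10) .nil)))) (.g (nat_lit 0) (.e (nat_lit 68318) (nat_lit 0) .nil) .nil))) 
(.lf (nat_lit 463723) (.g (nat_lit 1531) (.e (nat_lit 3090) (nat_lit 191) (.e (nat_lit 483380) (nat_lit 23) (.e (nat_lit 336240) (nat_lit 15) (.e (nat_lit 3624) (nat_lit 227) (.e (nat_lit 778323) (nat_lit 5) .nil))))) (.g (nat_lit 0) (.e (nat_lit 71443) (nat_lit 0) .nil) .nil))))) (.nd (nat_lit 8) (.nd (nat_lit 9) 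
(.lf (nat_lit 463083) (.g (nat_lit 2722) (.e (nat_lit 3067) (nat_lit 190) (.e (nat_lit 475179) (nat_lit 24) (.e (nat_lit 516176) (nat_lit 14) (.e (nat_lit 466954) (nat_lit 11) (.e (nat_lit 335988) (nat_lit 1) (.e (nat_lit 57665) (nat_lit 152) (.e (nat_lit 2497) (nat_lit 157) .nil))))))) (.g (nat_lit 1) (.e (nat_lit 68093) (nat_lit 0) .nil) .nil))) 
(.lf (nat_lit 463595) (.g (nat_lit 2539) (.e (nat_lit 3088) (nat_lit 191) (.e (nat_lit 483412) (nat_lit 27) (.e (nat_lit 401436) (nat_lit 9) (.e (nat_lit 426533) (nat_lit 28) (.e (nat_lit 344069) (nat_lit 0) .nil))))) (.g (nat_lit 1) (.e (nat_lit 70099) (nat_lit 0) .nil) .nil)))) (.nd (nat_lit 9) 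
(.lf (nat_lit 463339) (.g (nat_lit 2282) (.e (nat_lit 3074) (nat_lit 190) (.e (nat_lit 475179) (nat_lit 24) (.e (nat_lit 516146) (nat_lit 9) (.e (nat_lit 426438) (nat_lit 18) .nil)))) (.g (nat_lit 0) (.e (nat_lit 68550) (nat_lit 0) .nil) .nil))) 
(.lf (nat_lit 463851) (.g (nat_lit 2494) (.e (nat_lit 3095) (nat_lit 192) (.e (nat_lit 491566) (nat_lit 12) (.e (nat_lit 385074) (nat_lit 31) (.e (nat_lit 573485) (nat_lit 13) .nil)))) (.g (nat_lit 0) (.e (nat_lit 72401) (nat_lit 0) .nil) .nil)))))))) (.nd (nat_lit 5) (.nd (nat_lit 6) (.nd (nat_lit 7) (.nd (nat_lit 8) (.nd (nat_lit 9) 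
(.lf (nat_lit 462875) (.g (nat_lit 3202) (.e (nat_lit 3063) (nat_lit 190) (.e (nat_lit 475185) (nat_lit 29) (.e (nat_lit 557101) (nat_lit 13) (.e (nat_lit 172097) (nat_lit 9) (.e (nat_lit 426140) (nat_lit 3) (.e (nat_lit 204821) (nat_lit 17) (.e (nat_lit 7936) (nat_lit 357) .nil))))))) (.g (nat_lit 1) (.e (nat_lit 67613) (nat_lit 0) .nil) .nil))) 
(.lf (nat_lit 463387) (.g (nat_lit 648) (.e (nat_lit 3080) (nat_lit 191) (.e (nat_lit 483403) (nat_lit 26) (.e (nat_lit 385096) (nat_lit 49) .nil))) (.g (nat_lit 0) (.e (nat_lit 68860) (nat_lit 0) .nil) .nil)))) (.nd (nat_lit 9) 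
(.lf (nat_lit 463131) (.g (nat_lit 3488) (.e (nat_lit 3067) (nat_lit 190) (.e (nat_lit 475184) (nat_lit 29) (.e (nat_lit 557109) (nat_lit 15) (.e (nat_lit 188450) (nat_lit 23) (.e (nat_lit 204821) (nat_lit 17) (.e (nat_lit 6676) (nat_lit 357) .nil)))))) (.g (nat_lit 1) (.e (nat_lit 68146) (nat_lit 0) .nil) .nil))) 
(.lf (nat_lit 463643) (.g (nat_lit 2108) (.e (nat_lit 3089) (nat_lit 191) (.e (nat_lit 483386) (nat_lit 23) (.e (nat_lit 336282) (nat_lit 15) (.e (nat_lit 3632) (nat_lit 227) (.e (nat_lit 778324) (nat_lit 5) (.e (nat_lit 73781) (nat_lit 32) .nil)))))) (.g (nat_lit 1) (.e (nat_lit 70900) (nat_lit 0) .nil) .nil))))) (.nd (nat_lit 8) (.nd (nat_lit 9) 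
(.lf (nat_lit 463003) (.g (nat_lit 1048) (.e (nat_lit 3066) (nat_lit 190) (.e (nat_lit 475214) (nat_lit 42) (.e (nat_lit 728832) (nat_lit 5) .nil))) (.g (nat_lit 0) (.e (nat_lit 67876) (nat_lit 0) .nil) .nil))) 
(.lf (nat_lit 463515) (.g (nat_lit 2266) (.e (nat_lit 3087) (nat_lit 191) (.e (nat_lit 483406) (nat_lit 26) (.e (nat_lit 385094) (nat_lit 49) (.e (nat_lit 778323) (nat_lit 5) (.e (nat_lit 73781) (nat_lit 32) .nil))))) (.g (nat_lit 1) (.e (nat_lit 69708) (nat_lit 0) .nil) .nil)))) (.nd (nat_lit 9) 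
(.lf (nat_lit 463259) (.g (nat_lit 2003) (.e (nat_lit 3071) (nat_lit 190) (.e (nat_lit 475185) (nat_lit 29) (.e (nat_lit 557098) (nat_lit 13) (.e (nat_lit 172115) (nat_lit 10) (.e (nat_lit 434231) (nat_lit 23) .nil))))) (.g (nat_lit 0) (.e (nat_lit 68401) (nat_lit 0) .nil) .nil))) 
(.lf (nat_lit 463771) (.g (nat_lit 2737) (.e (nat_lit 3090) (nat_lit 191) (.e (nat_lit 483403) (nat_lit 26) (.e (nat_lit 385092) (nat_lit 49) (.e (nat_lit 778323) (nat_lit 5) (.e (nat_lit 73782) (nat_lit 32) .nil))))) (.g (nat_lit 1) (.e (nat_lit 71518) (nat_lit 0) .nil) .nil)))))) (.nd (nat_lit 7) (.nd (nat_lit 8) (.nd (nat_lit 9) 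
(.lf (nat_lit 462939) (.g (nat_lit 2047) (.e (nat_lit 3065) (nat_lit 190) (.e (nat_lit 475185) (nat_lit 29) (.e (nat_lit 557101) (nat_lit 13) (.e (nat_lit 172115) (nat_lit 10) (.e (nat_lit 434231) (nat_lit 23) (.e (nat_lit 532482) (nat_lit 0) (.e (nat_lit 6654) (nat_lit 357) .nil))))))) (.g (nat_lit 1) (.e (nat_lit 67769) (nat_lit 0) .nil) .nil))) 
(.lf (nat_lit 463451) (.g (nat_lit 2789) (.e (nat_lit 3085) (nat_lit 191) (.e (nat_lit 483413) (nat_lit 27) (.e (nat_lit 401448) (nat_lit 10) (.e (nat_lit 434205) (nat_lit 18) .nil)))) (.g (nat_lit 0) (.e (nat_lit 69452) (nat_lit 0) .nil) .nil)))) (.nd (nat_lit 9) 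
(.lf (nat_lit 463195) (.g (nat_lit 1807) (.e (nat_lit 3069) (nat_lit 190) (.e (nat_lit 475177) (nat_lit 24) (.e (nat_lit 516174) (nat_lit 14) (.e (nat_lit 466954) (nat_lit 11) (.e (nat_lit 335988) (nat_lit 1) .nil))))) (.g (nat_lit 0) (.e (nat_lit 68283) (nat_lit 0) .nil) .nil))) 
(.lf (nat_lit 463707) (.g (nat_lit 270) (.e (nat_lit 3090) (nat_lit 191) (.e (nat_lit 483371) (nat_lit 21) (.e (nat_lit 327424) (nat_lit 18) .nil))) (.g (nat_lit 0) (.e (nat_lit 71253) (nat_lit 0) .nil) .nil))))) (.nd (nat_lit 8) (.nd (nat_lit 9) 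
(.lf (nat_lit 463067) (.g (nat_lit 2329) (.e (nat_lit 3067) (nat_lit 190) (.e (nat_lit 475179) (nat_lit 24) (.e (nat_lit 516120) (nat_lit 1) (.e (nat_lit 164332) (nat_lit 230) (.e (nat_lit 163941) (nat_lit 19) (.e (nat_lit 483329) (nat_lit 0) (.e (nat_lit 7335) (nat_lit 388) .nil))))))) (.g (nat_lit 1) (.e (nat_lit 68045) (nat_lit 0) .nil) .nil))) 
(.lf (nat_lit 463579) (.g (nat_lit 2673) (.e (nat_lit 3088) (nat_lit 191) (.e (nat_lit 483406) (nat_lit 26) (.e (nat_lit 385093) (nat_lit 49) (.e (nat_lit 778324) (nat_lit 5) (.e (nat_lit 73781) (nat_lit 32) .nil))))) (.g (nat_lit 1) (.e (nat_lit 70057) (nat_lit 0) .nil) .nil)))) (.nd (nat_lit 9) 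
(.lf (nat_lit 463323) (.g (nat_lit 4907) (.e (nat_lit 3071) (nat_lit 190) (.e (nat_lit 475199) (nat_lit 40) (.e (nat_lit 704589) (nat_lit 3) (.e (nat_lit 163979) (nat_lit 30) (.e (nat_lit 573482) (nat_lit 13) (.e (nat_lit 65604) (nat_lit 9) (.e (nat_lit 336013) (nat_lit 2) (.e (nat_lit 90134) (nat_lit 9) .nil)))))))) (.g (nat_lit 1) (.e (nat_lit 68509) (nat_lit 0) .nil) .nil))) 
(.lf (nat_lit 463835) (.g (nat_lit 868) (.e (nat_lit 3094) (nat_lit 191) (.e (nat_lit 483406) (nat_lit 26) (.e (nat_lit 385093) (nat_lit 49) .nil))) (.g (nat_lit 0) (.e (nat_lit 72089) (nat_lit 0) .nil) .nil))))))) (.nd (nat_lit 6) (.nd (nat_lit 7) (.nd (nat_lit 8) (.nd (nat_lit 9) 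
(.lf (nat_lit 462907) (.g (nat_lit 3563) (.e (nat_lit 3064) (nat_lit 190) (.e (nat_lit 475185) (nat_lit 29) (.e (nat_lit 557098) (nat_lit 13) (.e (nat_lit 172097) (nat_lit 9) (.e (nat_lit 426140) (nat_lit 3) (.e (nat_lit 204821) (nat_lit 17) (.e (nat_lit 6680) (nat_lit 357) .nil))))))) (.g (nat_lit 1) (.e (nat_lit 67699) (nat_lit 0) .nil) .nil))) 
(.lf (nat_lit 463419) (.g (nat_lit 3054) (.e (nat_lit 3085) (nat_lit 191) (.e (nat_lit 483401) (nat_lit 25) (.e (nat_lit 368664) (nat_lit 18) (.e (nat_lit 5948) (nat_lit 322) (.e (nat_lit 57400) (nat_lit 10) (.e (nat_lit 319490) (nat_lit 0) (.e (nat_lit 5664) (nat_lit 312) .nil))))))) (.g (nat_lit 1) (.e (nat_lit 69144) (nat_lit 0) .nil) .nil)))) (.nd (nat_lit 9) 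
(.lf (nat_lit 463163) (.g (nat_lit 3950) (.e (nat_lit 3067) (nat_lit 190) (.e (nat_lit 475185) (nat_lit 29) (.e (nat_lit 557101) (nat_lit 13) (.e (nat_lit 172115) (nat_lit 10) (.e (nat_lit 434244) (nat_lit 28) (.e (nat_lit 573468) (nat_lit 10) (.e (nat_lit 8525) (nat_lit 205) .nil))))))) (.g (nat_lit 1) (.e (nat_lit 68181) (nat_lit 0) .nil) .nil))) 
(.lf (nat_lit 463675) (.g (nat_lit 1903) (.e (nat_lit 3089) (nat_lit 191) (.e (nat_lit 483410) (nat_lit 27) (.e (nat_lit 401436) (nat_lit 9) (.e (nat_lit 426533) (nat_lit 28) (.e (nat_lit 344069) (nat_lit 0) .nil))))) (.g (nat_lit 1) (.e (nat_lit 70963) (nat_lit 0) .nil) .nil))))) (.nd (nat_lit 8) (.nd (nat_lit 9) 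
(.lf (nat_lit 463035) (.g (nat_lit 2043) (.e (nat_lit 3067) (nat_lit 190) (.e (nat_lit 475177) (nat_lit 24) (.e (nat_lit 516174) (nat_lit 14) (.e (nat_lit 466954) (nat_lit 11) (.e (nat_lit 335988) (nat_lit 1) (.e (nat_lit 57665) (nat_lit 152) (.e (nat_lit 2497) (nat_lit 157) .nil))))))) (.g (nat_lit 1) (.e (nat_lit 67929) (nat_lit 0) .nil) .nil))) 
(.lf (nat_lit 463547) (.g (nat_lit 1191) (.e (nat_lit 3088) (nat_lit 191) (.e (nat_lit 483393) (nat_lit 23) (.e (nat_lit 335986) (nat_lit 1) (.e (nat_lit 57871) (nat_lit 264) (.e (nat_lit 1211) (nat_lit 89) .nil))))) (.g (nat_lit 0) (.e (nat_lit 70018) (nat_lit 0) .nil) .nil)))) (.nd (nat_lit 9) 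
(.lf (nat_lit 463291) (.g (nat_lit 2402) (.e (nat_lit 3071) (nat_lit 190) (.e (nat_lit 475185) (nat_lit 29) (.e (nat_lit 557101) (nat_lit 13) (.e (nat_lit 172115) (nat_lit 10) (.e (nat_lit 434227) (nat_lit 20) (.e (nat_lit 507930) (nat_lit 10) (.e (nat_lit 5616) (nat_lit 312) .nil))))))) (.g (nat_lit 1) (.e (nat_lit 68433) (nat_lit 0) .nil) .nil))) 
(.lf (nat_lit 463803) (.g (nat_lit 1181) (.e (nat_lit 3092) (nat_lit 191) (.e (nat_lit 483383) (nat_lit 23) (.e (nat_lit 336240) (nat_lit 15) .nil))) (.g (nat_lit 0) (.e (nat_lit 71722) (nat_lit 0) .nil) .nil)))))) (.nd (nat_lit 7) (.nd (nat_lit 8) (.nd (nat_lit 9) 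
(.lf (nat_lit 462971) (.g (nat_lit 2259) (.e (nat_lit 3066) (nat_lit 190) (.e (nat_lit 475184) (nat_lit 29) (.e (nat_lit 557107) (nat_lit 15) (.e (nat_lit 188450) (nat_lit 23) (.e (nat_lit 204821) (nat_lit 17) (.e (nat_lit 6676) (nat_lit 357) .nil)))))) (.g (nat_lit 1) (.e (nat_lit 67833) (nat_lit 0) .nil) .nil))) 
(.lf (nat_lit 463483) (.g (nat_lit 987) (.e (nat_lit 3087) (nat_lit 191) (.e (nat_lit 483393) (nat_lit 23) (.e (nat_lit 335987) (nat_lit 1) (.e (nat_lit 57870) (nat_lit 264) (.e (nat_lit 1210) (nat_lit 89) .nil))))) (.g (nat_lit 0) (.e (nat_lit 69672) (nat_lit 0) .nil) .nil)))) (.nd (nat_lit 9) 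
(.lf (nat_lit 463227) (.g (nat_lit 2663) (.e (nat_lit 3070) (nat_lit 190) (.e (nat_lit 475185) (nat_lit 29) (.e (nat_lit 557109) (nat_lit 15) (.e (nat_lit 188452) (nat_lit 23) (.e (nat_lit 204815) (nat_lit 17) .nil))))) (.g (nat_lit 0) (.e (nat_lit 68334) (nat_lit 0) .nil) .nil))) 
(.lf (nat_lit 463739) (.g (nat_lit 3647) (.e (nat_lit 3090) (nat_lit 191) (.e (nat_lit 483380) (nat_lit 23) (.e (nat_lit 336301) (nat_lit 15) (.e (nat_lit 3632) (nat_lit 227) (.e (nat_lit 778323) (nat_lit 5) (.e (nat_lit 73782) (nat_lit 32) .nil)))))) (.g (nat_lit 1) (.e (nat_lit 71459) (nat_lit 0) .nil) .nil))))) (.nd (nat_lit 8) (.nd (nat_lit 9) 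
(.lf (nat_lit 463099) (.g (nat_lit 3870) (.e (nat_lit 3067) (nat_lit 190) (.e (nat_lit 475183) (nat_lit 29) (.e (nat_lit 557101) (nat_lit 13) (.e (nat_lit 172097) (nat_lit 9) (.e (nat_lit 426140) (nat_lit 3) (.e (nat_lit 204821) (nat_lit 17) (.e (nat_lit 6676) (nat_lit 357) .nil))))))) (.g (nat_lit 1) (.e (nat_lit 68114) (nat_lit 0) .nil) .nil))) 
(.lf (nat_lit 463611) (.g (nat_lit 1474) (.e (nat_lit 3089) (nat_lit 191) (.e (nat_lit 483350) (nat_lit 17) (.e (nat_lit 6113) (nat_lit 332) (.e (nat_lit 1378) (nat_lit 104) .nil)))) (.g (nat_lit 0) (.e (nat_lit 70801) (nat_lit 0) .nil) .nil)))) (.nd (nat_lit 9) 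
(.lf (nat_lit 463355) (.g (nat_lit 1577) (.e (nat_lit 3076) (nat_lit 191) (.e (nat_lit 483408) (nat_lit 26) (.e (nat_lit 385093) (nat_lit 49) (.e (nat_lit 778324) (nat_lit 5) .nil)))) (.g (nat_lit 0) (.e (nat_lit 68616) (nat_lit 0) .nil) .nil))) 
(.lf (nat_lit 463867) (.g (nat_lit 5530) (.e (nat_lit 3096) (nat_lit 192) (.e (nat_lit 491537) (nat_lit 2) (.e (nat_lit 90170) (nat_lit 13) (.e (nat_lit 172106) (nat_lit 10) (.e (nat_lit 434231) (nat_lit 23) (.e (nat_lit 532481) (nat_lit 0) (.e (nat_lit 6693) (nat_lit 357) .nil))))))) (.g (nat_lit 1) (.e (nat_lit 72424) (nat_lit 0) .nil) .nil)))))))))) 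
(.nd (nat_lit 3) (.nd (nat_lit 4) (.nd (nat_lit 5) (.nd (nat_lit 6) (.nd (nat_lit 7) 
(.nd (nat_lit 8) (.nd (nat_lit 9) 
(.lf (nat_lit 462855) (.g (nat_lit 2945) (.e (nat_lit 3062) (nat_lit 190) (.e (nat_lit 475219) (nat_lit 44) (.e (nat_lit 737318) (nat_lit 15) (.e (nat_lit 49189) (nat_lit 11) (.e (nat_lit 16425) (nat_lit 7) (.e (nat_lit 409623) (nat_lit 10) (.e (nat_lit 5664) (nat_lit 312) .nil))))))) (.g (nat_lit 1) (.e (nat_lit 67552) (nat_lit 0) .nil) .nil))) 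
(.lf (nat_lit 463367) (.g (nat_lit 702) (.e (nat_lit 3077) (nat_lit 191) (.e (nat_lit 483406) (nat_lit 26) (.e (nat_lit 385100) (nat_lit 49) .nil))) (.g (nat_lit 0) (.e (nat_lit 68659) (nat_lit 0) .nil) .nil)))) (.nd (nat_lit 9) 
(.lf (nat_lit 463111) (.g (nat_lit 3035) (.e (nat_lit 3067) (nat_lit 190) (.e (nat_lit 475183) (nat_lit 29) (.e (nat_lit 557108) (nat_lit 15) (.e (nat_lit 188452) (nat_lit 23) (.e (nat_lit 204817) (nat_lit 17) .nil))))) (.g (nat_lit 0) (.e (nat_lit 68126) (nat_lit 0) .nil) .nil))) 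
(.lf (nat_lit 463623) (.g (nat_lit 744) (.e (nat_lit 3089) (nat_lit 191) (.e (nat_lit 483383) (nat_lit 23) (.e (nat_lit 336260) (nat_lit 15) .nil))) (.g (nat_lit 0) (.e (nat_lit 70875) (nat_lit 0) .nil) .nil))))) (.nd (nat_lit 8) (.nd (nat_lit 9) 
(.lf (nat_lit 462983) (.g (nat_lit 4007) (.e (nat_lit 3066) (nat_lit 190) (.e (nat_lit 475185) (nat_lit 29) (.e (nat_lit 557098) (nat_lit 13) (.e (nat_lit 172097) (nat_lit 9) (.e (nat_lit 426140) (nat_lit 3) (.e (nat_lit 204821) (nat_lit 17) (.e (nat_lit 6680) (nat_lit 357) .nil))))))) (.g (nat_lit 1) (.e (nat_lit 67847) (nat_lit 0) .nil) .nil))) 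
(.lf (nat_lit 463495) (.g (nat_lit 1841) (.e (nat_lit 3087) (nat_lit 191) (.e (nat_lit 483402) (nat_lit 26) (.e (nat_lit 385094) (nat_lit 49) (.e (nat_lit 778323) (nat_lit 5) (.e (nat_lit 73781) (nat_lit 32) .nil))))) (.g (nat_lit 1) (.e (nat_lit 69684) (nat_lit 0) .nil) .nil)))) (.nd (nat_lit 9) 
(.lf (nat_lit 463239) (.g (nat_lit 3292) (.e (nat_lit 3071) (nat_lit 190) (.e (nat_lit 475179) (nat_lit 24) (.e (nat_lit 516146) (nat_lit 9) (.e (nat_lit 426436) (nat_lit 18) (.e (nat_lit 98358) (nat_lit 26) (.e (nat_lit 426428) (nat_lit 17) (.e (nat_lit 90130) (nat_lit 9) .nil))))))) (.g (nat_lit 1) (.e (nat_lit 68362) (nat_lit 0) .nil) .nil))) 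
(.lf (nat_lit 463751) (.g (nat_lit 1434) (.e (nat_lit 3090) (nat_lit 191) (.e (nat_lit 483386) (nat_lit 23) (.e (nat_lit 335928) (nat_lit 0) (.e (nat_lit 2006) (nat_lit 138) (.e (nat_lit 671760) (nat_lit 4) (.e (nat_lit 65540) (nat_lit 0) (.e (nat_lit 6681) (nat_lit 357) .nil))))))) (.g (nat_lit 1) (.e (nat_lit 71486) (nat_lit 0) .nil) .nil)))))) (.nd (nat_lit 7) (.nd (nat_lit 8) (.nd (nat_lit 9) 
(.lf (nat_lit 462919) (.g (nat_lit 3478) (.e (nat_lit 3064) (nat_lit 190) (.e (nat_lit 475185) (nat_lit 29) (.e (nat_lit 557109) (nat_lit 15) (.e (nat_lit 188447) (nat_lit 22) (.e (nat_lit 196661) (nat_lit 12) .nil))))) (.g (nat_lit 0) (.e (nat_lit 67711) (nat_lit 0) .nil) .nil))) 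
(.lf (nat_lit 463431) (.g (nat_lit 3798) (.e (nat_lit 3085) (nat_lit 191) (.e (nat_lit 483413) (nat_lit 27) (.e (nat_lit 401434) (nat_lit 9) (.e (nat_lit 426470) (nat_lit 25) (.e (nat_lit 319491) (nat_lit 0) (.e (nat_lit 5664) (nat_lit 312) .nil)))))) (.g (nat_lit 1) (.e (nat_lit 69326) (nat_lit 0) .nil) .nil)))) (.nd (nat_lit 9) 
(.lf (nat_lit 463175) (.g (nat_lit 3801) (.e (nat_lit 3067) (nat_lit 190) (.e (nat_lit 475185) (nat_lit 29) (.e (nat_lit 557109) (nat_lit 15) (.e (nat_lit 188447) (nat_lit 22) (.e (nat_lit 196661) (nat_lit 12) (.e (nat_lit 57751) (nat_lit 201) .nil)))))) (.g (nat_lit 1) (.e (nat_lit 68194) (nat_lit 0) .nil) .nil))) 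
(.lf (nat_lit 463687) (.g (nat_lit 1751) (.e (nat_lit 3090) (nat_lit 191) (.e (nat_lit 483350) (nat_lit 17) (.e (nat_lit 6676) (nat_lit 357) (.e (nat_lit 2856) (nat_lit 184) (.e (nat_lit 426533) (nat_lit 28) .nil))))) (.g (nat_lit 0) (.e (nat_lit 71125) (nat_lit 0) .nil) .nil))))) (.nd (nat_lit 8) (.nd (nat_lit 9) 
(.lf (nat_lit 463047) (.g (nat_lit 2105) (.e (nat_lit 3067) (nat_lit 190) (.e (nat_lit 475178) (nat_lit 24) (.e (nat_lit 516176) (nat_lit 14) (.e (nat_lit 466954) (nat_lit 11) (.e (nat_lit 335988) (nat_lit 1) .nil))))) (.g (nat_lit 0) (.e (nat_lit 67957) (nat_lit 0) .nil) .nil))) 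
(.lf (nat_lit 463559) (.g (nat_lit 2546) (.e (nat_lit 3088) (nat_lit 191) (.e (nat_lit 483395) (nat_lit 24) (.e (nat_lit 344168) (nat_lit 40) (.e (nat_lit 671763) (nat_lit 5) (.e (nat_lit 73781) (nat_lit 32) .nil))))) (.g (nat_lit 1) (.e (nat_lit 70030) (nat_lit 0) .nil) .nil)))) (.nd (nat_lit 9) 
(.lf (nat_lit 463303) (.g (nat_lit 1671) (.e (nat_lit 3071) (nat_lit 190) (.e (nat_lit 475185) (nat_lit 29) (.e (nat_lit 557107) (nat_lit 15) (.e (nat_lit 188452) (nat_lit 23) .nil)))) (.g (nat_lit 0) (.e (nat_lit 68445) (nat_lit 0) .nil) .nil))) 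
(.lf (nat_lit 463815) (.g (nat_lit 1827) (.e (nat_lit 3092) (nat_lit 191) (.e (nat_lit 483406) (nat_lit 26) (.e (nat_lit 385094) (nat_lit 49) (.e (nat_lit 778323) (nat_lit 5) (.e (nat_lit 81664) (nat_lit 32) .nil))))) (.g (nat_lit 1) (.e (nat_lit 71746) (nat_lit 0) .nil) .nil))))))) (.nd (nat_lit 6) (.nd (nat_lit 7) (.nd (nat_lit 8) (.nd (nat_lit 9) 
(.lf (nat_lit 462887) (.g (nat_lit 3084) (.e (nat_lit 3063) (nat_lit 190) (.e (nat_lit 475198) (nat_lit 40) (.e (nat_lit 704589) (nat_lit 3) (.e (nat_lit 163975) (nat_lit 30) (.e (nat_lit 573481) (nat_lit 13) (.e (nat_lit 65604) (nat_lit 9) (.e (nat_lit 336013) (nat_lit 2) (.e (nat_lit 90134) (nat_lit 9) .nil)))))))) (.g (nat_lit 1) (.e (nat_lit 67625) (nat_lit 0) .nil) .nil))) 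
(.lf (nat_lit 463399) (.g (nat_lit 1804) (.e (nat_lit 3083) (nat_lit 191) (.e (nat_lit 483405) (nat_lit 26) (.e (nat_lit 385093) (nat_lit 49) (.e (nat_lit 778323) (nat_lit 5) (.e (nat_lit 81664) (nat_lit 32) .nil))))) (.g (nat_lit 0) (.e (nat_lit 68926) (nat_lit 0) .nil) .nil)))) (.nd (nat_lit 9) 
(.lf (nat_lit 463143) (.g (nat_lit 5387) (.e (nat_lit 3067) (nat_lit 190) (.e (nat_lit 475185) (nat_lit 29) (.e (nat_lit 557098) (nat_lit 13) (.e (nat_lit 172097) (nat_lit 9) (.e (nat_lit 426125) (nat_lit 2) (.e (nat_lit 196661) (nat_lit 12) (.e (nat_lit 57750) (nat_lit 201) .nil))))))) (.g (nat_lit 1) (.e (nat_lit 68161) (nat_lit 0) .nil) .nil))) 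
(.lf (nat_lit 463655) (.g (nat_lit 1173) (.e (nat_lit 3089) (nat_lit 191) (.e (nat_lit 483396) (nat_lit 24) (.e (nat_lit 344097) (nat_lit 18) (.e (nat_lit 5905) (nat_lit 320) .nil)))) (.g (nat_lit 0) (.e (nat_lit 70914) (nat_lit 0) .nil) .nil))))) (.nd (nat_lit 8) (.nd (nat_lit 9) 
(.lf (nat_lit 463015) (.g (nat_lit 2029) (.e (nat_lit 3067) (nat_lit 190) (.e (nat_lit 483072) (nat_lit 26) (.e (nat_lit 532544) (nat_lit 10) (.e (nat_lit 344120) (nat_lit 21) (.e (nat_lit 516131) (nat_lit 3) (.e (nat_lit 221212) (nat_lit 22) (.e (nat_lit 196608) (nat_lit 0) .nil))))))) (.g (nat_lit 1) (.e (nat_lit 67894) (nat_lit 0) .nil) .nil))) 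
(.lf (nat_lit 463527) (.g (nat_lit 1598) (.e (nat_lit 3088) (nat_lit 191) (.e (nat_lit 483350) (nat_lit 17) (.e (nat_lit 6113) (nat_lit 332) (.e (nat_lit 1376) (nat_lit 104) .nil)))) (.g (nat_lit 0) (.e (nat_lit 69972) (nat_lit 0) .nil) .nil)))) (.nd (nat_lit 9) 
(.lf (nat_lit 463271) (.g (nat_lit 2958) (.e (nat_lit 3071) (nat_lit 190) (.e (nat_lit 475185) (nat_lit 29) (.e (nat_lit 557100) (nat_lit 13) (.e (nat_lit 172106) (nat_lit 10) (.e (nat_lit 434244) (nat_lit 28) (.e (nat_lit 573468) (nat_lit 10) (.e (nat_lit 16128) (nat_lit 205) .nil))))))) (.g (nat_lit 1) (.e (nat_lit 68413) (nat_lit 0) .nil) .nil))) 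
(.lf (nat_lit 463783) (.g (nat_lit 2844) (.e (nat_lit 3090) (nat_lit 191) (.e (nat_lit 483406) (nat_lit 26) (.e (nat_lit 385093) (nat_lit 49) (.e (nat_lit 778323) (nat_lit 5) (.e (nat_lit 73782) (nat_lit 32) .nil))))) (.g (nat_lit 1) (.e (nat_lit 71538) (nat_lit 0) .nil) .nil)))))) (.nd (nat_lit 7) (.nd (nat_lit 8) (.nd (nat_lit 9) 
(.lf (nat_lit 462951) (.g (nat_lit 3012) (.e (nat_lit 3065) (nat_lit 190) (.e (nat_lit 475185) (nat_lit 29) (.e (nat_lit 557109) (nat_lit 15) (.e (nat_lit 188452) (nat_lit 23) (.e (nat_lit 212736) (nat_lit 17) .nil))))) (.g (nat_lit 0) (.e (nat_lit 67781) (nat_lit 0) .nil) .nil))) 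
(.lf (nat_lit 463463) (.g (nat_lit 1456) (.e (nat_lit 3087) (nat_lit 191) (.e (nat_lit 483383) (nat_lit 23) (.e (nat_lit 336000) (nat_lit 1) (.e (nat_lit 57873) (nat_lit 264) .nil)))) (.g (nat_lit 0) (.e (nat_lit 69650) (nat_lit 0) .nil) .nil)))) (.nd (nat_lit 9) 
(.lf (nat_lit 463207) (.g (nat_lit 1768) (.e (nat_lit 3070) (nat_lit 190) (.e (nat_lit 475185) (nat_lit 29) (.e (nat_lit 557098) (nat_lit 13) (.e (nat_lit 172097) (nat_lit 9) .nil)))) (.g (nat_lit 0) (.e (nat_lit 68314) (nat_lit 0) .nil) .nil))) 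
(.lf (nat_lit 463719) (.g (nat_lit 2713) (.e (nat_lit 3090) (nat_lit 191) (.e (nat_lit 483372) (nat_lit 21) (.e (nat_lit 319539) (nat_lit 19) (.e (nat_lit 311357) (nat_lit 28) (.e (nat_lit 344069) (nat_lit 0) .nil))))) (.g (nat_lit 1) (.e (nat_lit 71306) (nat_lit 0) .nil) .nil))))) (.nd (nat_lit 8) (.nd (nat_lit 9) 
(.lf (nat_lit 463079) (.g (nat_lit 1309) (.e (nat_lit 3067) (nat_lit 190) (.e (nat_lit 475179) (nat_lit 24) (.e (nat_lit 516176) (nat_lit 14) (.e (nat_lit 466954) (nat_lit 11) .nil)))) (.g (nat_lit 0) (.e (nat_lit 68088) (nat_lit 0) .nil) .nil))) 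
(.lf (nat_lit 463591) (.g (nat_lit 1038) (.e (nat_lit 3088) (nat_lit 191) (.e (nat_lit 483411) (nat_lit 27) (.e (nat_lit 401435) (nat_lit 9) .nil))) (.g (nat_lit 0) (.e (nat_lit 70093) (nat_lit 0) .nil) .nil)))) (.nd (nat_lit 9) 
(.lf (nat_lit 463335) (.g (nat_lit 2157) (.e (nat_lit 3073) (nat_lit 190) (.e (nat_lit 475185) (nat_lit 29) (.e (nat_lit 557109) (nat_lit 15) (.e (nat_lit 188450) (nat_lit 23) .nil)))) (.g (nat_lit 0) (.e (nat_lit 68541) (nat_lit 0) .nil) .nil))) 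
(.lf (nat_lit 463847) (.g (nat_lit 1125) (.e (nat_lit 3095) (nat_lit 192) (.e (nat_lit 491566) (nat_lit 12) (.e (nat_lit 385073) (nat_lit 31) .nil))) (.g (nat_lit 0) (.e (nat_lit 72396) (nat_lit 0) .nil) .nil)))))))) (.nd (nat_lit 5) (.nd (nat_lit 6) (.nd (nat_lit 7) (.nd (nat_lit 8) (.nd (nat_lit 9) 
(.lf (nat_lit 462871) (.g (nat_lit 3052) (.e (nat_lit 3063) (nat_lit 190) (.e (nat_lit 475185) (nat_lit 29) (.e (nat_lit 557100) (nat_lit 13) (.e (nat_lit 172113) (nat_lit 10) (.e (nat_lit 434245) (nat_lit 28) (.e (nat_lit 573474) (nat_lit 12) (.e (nat_lit 57567) (nat_lit 52) (.e (nat_lit 753673) (nat_lit 5) .nil)))))))) (.g (nat_lit 1) (.e (nat_lit 67609) (nat_lit 0) .nil) .nil))) 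
(.lf (nat_lit 463383) (.g (nat_lit 1117) (.e (nat_lit 3080) (nat_lit 191) (.e (nat_lit 483386) (nat_lit 23) (.e (nat_lit 336295) (nat_lit 15) (.e (nat_lit 3632) (nat_lit 227) .nil)))) (.g (nat_lit 0) (.e (nat_lit 68856) (nat_lit 0) .nil) .nil)))) (.nd (nat_lit 9) 
(.lf (nat_lit 463127) (.g (nat_lit 2763) (.e (nat_lit 3067) (nat_lit 190) (.e (nat_lit 475184) (nat_lit 29) (.e (nat_lit 557107) (nat_lit 15) (.e (nat_lit 188450) (nat_lit 23) (.e (nat_lit 204821) (nat_lit 17) (.e (nat_lit 6676) (nat_lit 357) .nil)))))) (.g (nat_lit 1) (.e (nat_lit 68142) (nat_lit 0) .nil) .nil))) 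
(.lf (nat_lit 463639) (.g (nat_lit 871) (.e (nat_lit 3089) (nat_lit 191) (.e (nat_lit 483383) (nat_lit 23) (.e (nat_lit 336286) (nat_lit 15) .nil))) (.g (nat_lit 0) (.e (nat_lit 70896) (nat_lit 0) .nil) .nil))))) (.nd (nat_lit 8) (.nd (nat_lit 9) 
(.lf (nat_lit 462999) (.g (nat_lit 2876) (.e (nat_lit 3066) (nat_lit 190) (.e (nat_lit 475185) (nat_lit 29) (.e (nat_lit 557109) (nat_lit 15) (.e (nat_lit 188450) (nat_lit 23) (.e (nat_lit 204821) (nat_lit 17) (.e (nat_lit 6676) (nat_lit 357) .nil)))))) (.g (nat_lit 1) (.e (nat_lit 67863) (nat_lit 0) .nil) .nil))) 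
(.lf (nat_lit 463511) (.g (nat_lit 866) (.e (nat_lit 3087) (nat_lit 191) (.e (nat_lit 483406) (nat_lit 26) (.e (nat_lit 385092) (nat_lit 49) .nil))) (.g (nat_lit 0) (.e (nat_lit 69704) (nat_lit 0) .nil) .nil)))) (.nd (nat_lit 9) 
(.lf (nat_lit 463255) (.g (nat_lit 1888) (.e (nat_lit 3071) (nat_lit 190) (.e (nat_lit 475184) (nat_lit 29) (.e (nat_lit 557109) (nat_lit 15) (.e (nat_lit 188458) (nat_lit 25) (.e (nat_lit 253696) (nat_lit 21) .nil))))) (.g (nat_lit 0) (.e (nat_lit 68395) (nat_lit 0) .nil) .nil))) 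
(.lf (nat_lit 463767) (.g (nat_lit 1892) (.e (nat_lit 3090) (nat_lit 191) (.e (nat_lit 483396) (nat_lit 24) (.e (nat_lit 344168) (nat_lit 40) (.e (nat_lit 671760) (nat_lit 4) (.e (nat_lit 65540) (nat_lit 0) (.e (nat_lit 6681) (nat_lit 357) .nil)))))) (.g (nat_lit 1) (.e (nat_lit 71511) (nat_lit 0) .nil) .nil)))))) (.nd (nat_lit 7) (.nd (nat_lit 8) (.nd (nat_lit 9) 
(.lf (nat_lit 462935) (.g (nat_lit 3488) (.e (nat_lit 3065) (nat_lit 190) (.e (nat_lit 475185) (nat_lit 29) (.e (nat_lit 557101) (nat_lit 13) (.e (nat_lit 172097) (nat_lit 9) (.e (nat_lit 426140) (nat_lit 3) (.e (nat_lit 204821) (nat_lit 17) (.e (nat_lit 6676) (nat_lit 357) .nil))))))) (.g (nat_lit 1) (.e (nat_lit 67765) (nat_lit 0) .nil) .nil))) 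
(.lf (nat_lit 463447) (.g (nat_lit 2063) (.e (nat_lit 3085) (nat_lit 191) (.e (nat_lit 483413) (nat_lit 27) (.e (nat_lit 401448) (nat_lit 10) (.e (nat_lit 434200) (nat_lit 18) .nil)))) (.g (nat_lit 0) (.e (nat_lit 69433) (nat_lit 0) .nil) .nil)))) (.nd (nat_lit 9) 
(.lf (nat_lit 463191) (.g (nat_lit 2284) (.e (nat_lit 3068) (nat_lit 190) (.e (nat_lit 475185) (nat_lit 29) (.e (nat_lit 557098) (nat_lit 13) (.e (nat_lit 172097) (nat_lit 9) .nil)))) (.g (nat_lit 0) (.e (nat_lit 68273) (nat_lit 0) .nil) .nil))) 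
(.lf (nat_lit 463703) (.g (nat_lit 2578) (.e (nat_lit 3090) (nat_lit 191) (.e (nat_lit 483354) (nat_lit 17) (.e (nat_lit 6680) (nat_lit 357) (.e (nat_lit 2857) (nat_lit 184) (.e (nat_lit 426533) (nat_lit 28) (.e (nat_lit 344069) (nat_lit 0) .nil)))))) (.g (nat_lit 1) (.e (nat_lit 71151) (nat_lit 0) .nil) .nil))))) (.nd (nat_lit 8) (.nd (nat_lit 9) 
(.lf (nat_lit 463063) (.g (nat_lit 2286) (.e (nat_lit 3067) (nat_lit 190) (.e (nat_lit 475179) (nat_lit 24) (.e (nat_lit 516120) (nat_lit 1) (.e (nat_lit 164330) (nat_lit 230) (.e (nat_lit 163902) (nat_lit 12) .nil))))) (.g (nat_lit 0) (.e (nat_lit 68028) (nat_lit 0) .nil) .nil))) 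
(.lf (nat_lit 463575) (.g (nat_lit 2422) (.e (nat_lit 3088) (nat_lit 191) (.e (nat_lit 483406) (nat_lit 26) (.e (nat_lit 385092) (nat_lit 49) (.e (nat_lit 778323) (nat_lit 5) (.e (nat_lit 73781) (nat_lit 32) .nil))))) (.g (nat_lit 1) (.e (nat_lit 70053) (nat_lit 0) .nil) .nil)))) (.nd (nat_lit 9) 
(.lf (nat_lit 463319) (.g (nat_lit 1556) (.e (nat_lit 3071) (nat_lit 190) (.e (nat_lit 475185) (nat_lit 29) (.e (nat_lit 557109) (nat_lit 15) (.e (nat_lit 188458) (nat_lit 25) .nil)))) (.g (nat_lit 0) (.e (nat_lit 68461) (nat_lit 0) .nil) .nil))) 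
(.lf (nat_lit 463831) (.g (nat_lit 579) (.e (nat_lit 3094) (nat_lit 191) (.e (nat_lit 483405) (nat_lit 26) (.e (nat_lit 385092) (nat_lit 49) .nil))) (.g (nat_lit 0) (.e (nat_lit 72084) (nat_lit 0) .nil) .nil))))))) (.nd (nat_lit 6) (.nd (nat_lit 7) (.nd (nat_lit 8) (.nd (nat_lit 9) 
(.lf (nat_lit 462903) (.g (nat_lit 2743) (.e (nat_lit 3064) (nat_lit 190) (.e (nat_lit 475184) (nat_lit 29) (.e (nat_lit 557109) (nat_lit 15) (.e (nat_lit 188452) (nat_lit 23) (.e (nat_lit 204821) (nat_lit 17) (.e (nat_lit 6676) (nat_lit 357) .nil)))))) (.g (nat_lit 1) (.e (nat_lit 67695) (nat_lit 0) .nil) .nil))) 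
(.lf (nat_lit 463415) (.g (nat_lit 492) (.e (nat_lit 3085) (nat_lit 191) (.e (nat_lit 483346) (nat_lit 17) (.e (nat_lit 6624) (nat_lit 357) .nil))) (.g (nat_lit 0) (.e (nat_lit 69009) (nat_lit 0) .nil) .nil)))) (.nd (nat_lit 9) 
(.lf (nat_lit 463159) (.g (nat_lit 2696) (.e (nat_lit 3067) (nat_lit 190) (.e (nat_lit 475185) (nat_lit 29) (.e (nat_lit 557101) (nat_lit 13) (.e (nat_lit 172115) (nat_lit 10) (.e (nat_lit 434231) (nat_lit 23) (.e (nat_lit 532484) (nat_lit 0) (.e (nat_lit 6684) (nat_lit 357) .nil))))))) (.g (nat_lit 1) (.e (nat_lit 68177) (nat_lit 0) .nil) .nil))) 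
(.lf (nat_lit 463671) (.g (nat_lit 2719) (.e (nat_lit 3089) (nat_lit 191) (.e (nat_lit 483409) (nat_lit 27) (.e (nat_lit 401459) (nat_lit 13) (.e (nat_lit 483350) (nat_lit 17) (.e (nat_lit 6651) (nat_lit 357) .nil))))) (.g (nat_lit 0) (.e (nat_lit 70959) (nat_lit 0) .nil) .nil))))) (.nd (nat_lit 8) (.nd (nat_lit 9) 
(.lf (nat_lit 463031) (.g (nat_lit 2304) (.e (nat_lit 3067) (nat_lit 190) (.e (nat_lit 475176) (nat_lit 24) (.e (nat_lit 516176) (nat_lit 14) (.e (nat_lit 466954) (nat_lit 11) (.e (nat_lit 335986) (nat_lit 1) (.e (nat_lit 57655) (nat_lit 152) (.e (nat_lit 2504) (nat_lit 157) .nil))))))) (.g (nat_lit 1) (.e (nat_lit 67911) (nat_lit 0) .nil) .nil))) 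
(.lf (nat_lit 463543) (.g (nat_lit 2183) (.e (nat_lit 3088) (nat_lit 191) (.e (nat_lit 483386) (nat_lit 23) (.e (nat_lit 336295) (nat_lit 15) (.e (nat_lit 3632) (nat_lit 227) (.e (nat_lit 778323) (nat_lit 5) (.e (nat_lit 73782) (nat_lit 32) .nil)))))) (.g (nat_lit 1) (.e (nat_lit 70014) (nat_lit 0) .nil) .nil)))) (.nd (nat_lit 9) 
(.lf (nat_lit 463287) (.g (nat_lit 2643) (.e (nat_lit 3071) (nat_lit 190) (.e (nat_lit 475185) (nat_lit 29) (.e (nat_lit 557101) (nat_lit 13) (.e (nat_lit 172115) (nat_lit 10) (.e (nat_lit 434227) (nat_lit 20) (.e (nat_lit 507929) (nat_lit 10) (.e (nat_lit 5612) (nat_lit 312) .nil))))))) (.g (nat_lit 1) (.e (nat_lit 68429) (nat_lit 0) .nil) .nil))) 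
(.lf (nat_lit 463799) (.g (nat_lit 3263) (.e (nat_lit 3090) (nat_lit 191) (.e (nat_lit 483411) (nat_lit 27) (.e (nat_lit 401437) (nat_lit 9) (.e (nat_lit 426533) (nat_lit 28) (.e (nat_lit 344068) (nat_lit 0) .nil))))) (.g (nat_lit 1) (.e (nat_lit 71600) (nat_lit 0) .nil) .nil)))))) (.nd (nat_lit 7) (.nd (nat_lit 8) (.nd (nat_lit 9) 
(.lf (nat_lit 462967) (.g (nat_lit 3704) (.e (nat_lit 3066) (nat_lit 190) (.e (nat_lit 475183) (nat_lit 29) (.e (nat_lit 557109) (nat_lit 15) (.e (nat_lit 188449) (nat_lit 22) (.e (nat_lit 196661) (nat_lit 12) (.e (nat_lit 57750) (nat_lit 201) .nil)))))) (.g (nat_lit 1) (.e (nat_lit 67829) (nat_lit 0) .nil) .nil))) 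
(.lf (nat_lit 463479) (.g (nat_lit 1599) (.e (nat_lit 3087) (nat_lit 191) (.e (nat_lit 483386) (nat_lit 23) (.e (nat_lit 336295) (nat_lit 15) (.e (nat_lit 3632) (nat_lit 227) (.e (nat_lit 778324) (nat_lit 5) (.e (nat_lit 73781) (nat_lit 32) .nil)))))) (.g (nat_lit 1) (.e (nat_lit 69668) (nat_lit 0) .nil) .nil)))) (.nd (nat_lit 9) 
(.lf (nat_lit 463223) (.g (nat_lit 1628) (.e (nat_lit 3070) (nat_lit 190) (.e (nat_lit 475185) (nat_lit 29) (.e (nat_lit 557107) (nat_lit 15) (.e (nat_lit 188450) (nat_lit 23) (.e (nat_lit 204821) (nat_lit 17) .nil))))) (.g (nat_lit 0) (.e (nat_lit 68330) (nat_lit 0) .nil) .nil))) 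
(.lf (nat_lit 463735) (.g (nat_lit 3271) (.e (nat_lit 3090) (nat_lit 191) (.e (nat_lit 483380) (nat_lit 23) (.e (nat_lit 336285) (nat_lit 15) (.e (nat_lit 3632) (nat_lit 227) (.e (nat_lit 778323) (nat_lit 5) (.e (nat_lit 73781) (nat_lit 32) .nil)))))) (.g (nat_lit 1) (.e (nat_lit 71455) (nat_lit 0) .nil) .nil))))) (.nd (nat_lit 8) (.nd (nat_lit 9) 
(.lf (nat_lit 463095) (.g (nat_lit 2554) (.e (nat_lit 3067) (nat_lit 190) (.e (nat_lit 475183) (nat_lit 29) (.e (nat_lit 557098) (nat_lit 13) (.e (nat_lit 172115) (nat_lit 10) (.e (nat_lit 434231) (nat_lit 23) (.e (nat_lit 532481) (nat_lit 0) (.e (nat_lit 6684) (nat_lit 357) .nil))))))) (.g (nat_lit 1) (.e (nat_lit 68110) (nat_lit 0) .nil) .nil))) 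
(.lf (nat_lit 463607) (.g (nat_lit 1419) (.e (nat_lit 3089) (nat_lit 191) (.e (nat_lit 483342) (nat_lit 17) (.e (nat_lit 6113) (nat_lit 332) (.e (nat_lit 1374) (nat_lit 104) (.e (nat_lit 303154) (nat_lit 28) .nil))))) (.g (nat_lit 0) (.e (nat_lit 70796) (nat_lit 0) .nil) .nil)))) (.nd (nat_lit 9) 
(.lf (nat_lit 463351) (.g (nat_lit 1525) (.e (nat_lit 3076) (nat_lit 191) (.e (nat_lit 483407) (nat_lit 26) (.e (nat_lit 385094) (nat_lit 49) (.e (nat_lit 778323) (nat_lit 5) (.e (nat_lit 81664) (nat_lit 32) .nil))))) (.g (nat_lit 1) (.e (nat_lit 68612) (nat_lit 0) .nil) .nil))) 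
(.lf (nat_lit 463863) (.g (nat_lit 3590) (.e (nat_lit 3095) (nat_lit 192) (.e (nat_lit 491569) (nat_lit 13) (.e (nat_lit 393301) (nat_lit 27) (.e (nat_lit 491560) (nat_lit 10) (.e (nat_lit 344091) (nat_lit 18) .nil))))) (.g (nat_lit 0) (.e (nat_lit 72416) (nat_lit 0) .nil) .nil))))))))) (.nd (nat_lit 4) (.nd (nat_lit 5) (.nd (nat_lit 6) (.nd (nat_lit 7) (.nd (nat_lit 8) (.nd (nat_lit 9) 
(.lf (nat_lit 462863) (.g (nat_lit 2404) (.e (nat_lit 3063) (nat_lit 190) (.e (nat_lit 475185) (nat_lit 29) (.e (nat_lit 557100) (nat_lit 13) (.e (nat_lit 172106) (nat_lit 10) (.e (nat_lit 434227) (nat_lit 20) (.e (nat_lit 507930) (nat_lit 10) (.e (nat_lit 5616) (nat_lit 312) .nil))))))) (.g (nat_lit 1) (.e (nat_lit 67601) (nat_lit 0) .nil) .nil))) 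
(.lf (nat_lit 463375) (.g (nat_lit 1150) (.e (nat_lit 3078) (nat_lit 191) (.e (nat_lit 483412) (nat_lit 27) (.e (nat_lit 401440) (nat_lit 9) (.e (nat_lit 426470) (nat_lit 25) .nil)))) (.g (nat_lit 0) (.e (nat_lit 68761) (nat_lit 0) .nil) .nil)))) (.nd (nat_lit 9) 
(.lf (nat_lit 463119) (.g (nat_lit 3979) (.e (nat_lit 3067) (nat_lit 190) (.e (nat_lit 475183) (nat_lit 29) (.e (nat_lit 557109) (nat_lit 15) (.e (nat_lit 188452) (nat_lit 23) (.e (nat_lit 204814) (nat_lit 17) .nil))))) (.g (nat_lit 0) (.e (nat_lit 68134) (nat_lit 0) .nil) .nil))) 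
(.lf (nat_lit 463631) (.g (nat_lit 1761) (.e (nat_lit 3089) (nat_lit 191) (.e (nat_lit 483383) (nat_lit 23) (.e (nat_lit 336265) (nat_lit 15) (.e (nat_lit 3631) (nat_lit 227) (.e (nat_lit 778323) (nat_lit 5) .nil))))) (.g (nat_lit 0) (.e (nat_lit 70885) (nat_lit 0) .nil) .nil))))) (.nd (nat_lit 8) (.nd (nat_lit 9) 
(.lf (nat_lit 462991) (.g (nat_lit 4241) (.e (nat_lit 3066) (nat_lit 190) (.e (nat_lit 475185) (nat_lit 29) (.e (nat_lit 557101) (nat_lit 13) (.e (nat_lit 172115) (nat_lit 10) (.e (nat_lit 434231) (nat_lit 23) (.e (nat_lit 532490) (nat_lit 0) (.e (nat_lit 6680) (nat_lit 357) .nil))))))) (.g (nat_lit 1) (.e (nat_lit 67855) (nat_lit 0) .nil) .nil))) 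
(.lf (nat_lit 463503) (.g (nat_lit 1478) (.e (nat_lit 3087) (nat_lit 191) (.e (nat_lit 483405) (nat_lit 26) (.e (nat_lit 385091) (nat_lit 49) (.e (nat_lit 778323) (nat_lit 5) (.e (nat_lit 73781) (nat_lit 32) .nil))))) (.g (nat_lit 1) (.e (nat_lit 69695) (nat_lit 0) .nil) .nil)))) (.nd (nat_lit 9) 
(.lf (nat_lit 463247) (.g (nat_lit 2477) (.e (nat_lit 3071) (nat_lit 190) (.e (nat_lit 475179) (nat_lit 24) (.e (nat_lit 516150) (nat_lit 9) (.e (nat_lit 426438) (nat_lit 18) (.e (nat_lit 98358) (nat_lit 26) .nil))))) (.g (nat_lit 0) (.e (nat_lit 68374) (nat_lit 0) .nil) .nil))) 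
(.lf (nat_lit 463759) (.g (nat_lit 3462) (.e (nat_lit 3090) (nat_lit 191) (.e (nat_lit 483386) (nat_lit 23) (.e (nat_lit 336295) (nat_lit 15) (.e (nat_lit 3632) (nat_lit 227) (.e (nat_lit 778323) (nat_lit 5) (.e (nat_lit 73781) (nat_lit 32) .nil)))))) (.g (nat_lit 1) (.e (nat_lit 71494) (nat_lit 0) .nil) .nil)))))) (.nd (nat_lit 7) (.nd (nat_lit 8) (.nd (nat_lit 9) 
(.lf (nat_lit 462927) (.g (nat_lit 3370) (.e (nat_lit 3065) (nat_lit 190) (.e (nat_lit 475184) (nat_lit 29) (.e (nat_lit 557109) (nat_lit 15) (.e (nat_lit 188452) (nat_lit 23) (.e (nat_lit 204817) (nat_lit 17) .nil))))) (.g (nat_lit 0) (.e (nat_lit 67757) (nat_lit 0) .nil) .nil))) 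
(.lf (nat_lit 463439) (.g (nat_lit 2948) (.e (nat_lit 3085) (nat_lit 191) (.e (nat_lit 483413) (nat_lit 27) (.e (nat_lit 401447) (nat_lit 10) (.e (nat_lit 434205) (nat_lit 18) .nil)))) (.g (nat_lit 0) (.e (nat_lit 69411) (nat_lit 0) .nil) .nil)))) (.nd (nat_lit 9) 
(.lf (nat_lit 463183) (.g (nat_lit 4033) (.e (nat_lit 3067) (nat_lit 190) (.e (nat_lit 475185) (nat_lit 29) (.e (nat_lit 557109) (nat_lit 15) (.e (nat_lit 188452) (nat_lit 23) (.e (nat_lit 204814) (nat_lit 17) (.e (nat_lit 6681) (nat_lit 357) .nil)))))) (.g (nat_lit 1) (.e (nat_lit 68202) (nat_lit 0) .nil) .nil))) 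
(.lf (nat_lit 463695) (.g (nat_lit 2171) (.e (nat_lit 3090) (nat_lit 191) (.e (nat_lit 483354) (nat_lit 17) (.e (nat_lit 6136) (nat_lit 332) (.e (nat_lit 1386) (nat_lit 105) (.e (nat_lit 311357) (nat_lit 28) (.e (nat_lit 344069) (nat_lit 0) .nil)))))) (.g (nat_lit 1) (.e (nat_lit 71137) (nat_lit 0) .nil) .nil))))) (.nd (nat_lit 8) (.nd (nat_lit 9) 
(.lf (nat_lit 463055) (.g (nat_lit 1603) (.e (nat_lit 3067) (nat_lit 190) (.e (nat_lit 475179) (nat_lit 24) (.e (nat_lit 516117) (nat_lit 1) (.e (nat_lit 164332) (nat_lit 230) .nil)))) (.g (nat_lit 0) (.e (nat_lit 67993) (nat_lit 0) .nil) .nil))) 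
(.lf (nat_lit 463567) (.g (nat_lit 1972) (.e (nat_lit 3088) (nat_lit 191) (.e (nat_lit 483403) (nat_lit 26) (.e (nat_lit 385093) (nat_lit 49) (.e (nat_lit 778324) (nat_lit 5) (.e (nat_lit 73781) (nat_lit 32) .nil))))) (.g (nat_lit 1) (.e (nat_lit 70044) (nat_lit 0) .nil) .nil)))) (.nd (nat_lit 9) 
(.lf (nat_lit 463311) (.g (nat_lit 3538) (.e (nat_lit 3071) (nat_lit 190) (.e (nat_lit 475185) (nat_lit 29) (.e (nat_lit 557109) (nat_lit 15) (.e (nat_lit 188450) (nat_lit 23) (.e (nat_lit 204816) (nat_lit 17) .nil))))) (.g (nat_lit 0) (.e (nat_lit 68453) (nat_lit 0) .nil) .nil))) 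
(.lf (nat_lit 463823) (.g (nat_lit 1173) (.e (nat_lit 3094) (nat_lit 191) (.e (nat_lit 483401) (nat_lit 25) (.e (nat_lit 368662) (nat_lit 18) (.e (nat_lit 5907) (nat_lit 320) (.e (nat_lit 1209) (nat_lit 89) .nil))))) (.g (nat_lit 0) (.e (nat_lit 72071) (nat_lit 0) .nil) .nil))))))) (.nd (nat_lit 6) (.nd (nat_lit 7) (.nd (nat_lit 8) (.nd (nat_lit 9) 
(.lf (nat_lit 462895) (.g (nat_lit 2416) (.e (nat_lit 3064) (nat_lit 190) (.e (nat_lit 475184) (nat_lit 29) (.e (nat_lit 557101) (nat_lit 13) (.e (nat_lit 172097) (nat_lit 9) (.e (nat_lit 426140) (nat_lit 3) (.e (nat_lit 204821) (nat_lit 17) (.e (nat_lit 6676) (nat_lit 357) .nil))))))) (.g (nat_lit 1) (.e (nat_lit 67687) (nat_lit 0) .nil) .nil))) 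
(.lf (nat_lit 463407) (.g (nat_lit 1265) (.e (nat_lit 3085) (nat_lit 191) (.e (nat_lit 483337) (nat_lit 9) (.e (nat_lit 426200) (nat_lit 9) (.e (nat_lit 425986) (nat_lit 0) .nil)))) (.g (nat_lit 0) (.e (nat_lit 68975) (nat_lit 0) .nil) .nil)))) (.nd (nat_lit 9) 
(.lf (nat_lit 463151) (.g (nat_lit 1348) (.e (nat_lit 3067) (nat_lit 190) (.e (nat_lit 475185) (nat_lit 29) (.e (nat_lit 557098) (nat_lit 13) (.e (nat_lit 172126) (nat_lit 14) .nil)))) (.g (nat_lit 0) (.e (nat_lit 68169) (nat_lit 0) .nil) .nil))) 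
(.lf (nat_lit 463663) (.g (nat_lit 664) (.e (nat_lit 3089) (nat_lit 191) (.e (nat_lit 483403) (nat_lit 26) (.e (nat_lit 385091) (nat_lit 49) .nil))) (.g (nat_lit 0) (.e (nat_lit 70927) (nat_lit 0) .nil) .nil))))) (.nd (nat_lit 8) (.nd (nat_lit 9) 
(.lf (nat_lit 463023) (.g (nat_lit 3663) (.e (nat_lit 3067) (nat_lit 190) (.e (nat_lit 483072) (nat_lit 26) (.e (nat_lit 532544) (nat_lit 10) (.e (nat_lit 344132) (nat_lit 26) (.e (nat_lit 557105) (nat_lit 14) (.e (nat_lit 180252) (nat_lit 10) (.e (nat_lit 573446) (nat_lit 0) .nil))))))) (.g (nat_lit 1) (.e (nat_lit 67902) (nat_lit 0) .nil) .nil))) 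
(.lf (nat_lit 463535) (.g (nat_lit 2765) (.e (nat_lit 3088) (nat_lit 191) (.e (nat_lit 483383) (nat_lit 23) (.e (nat_lit 336240) (nat_lit 15) (.e (nat_lit 3637) (nat_lit 227) (.e (nat_lit 778323) (nat_lit 5) (.e (nat_lit 73782) (nat_lit 32) .nil)))))) (.g (nat_lit 1) (.e (nat_lit 70005) (nat_lit 0) .nil) .nil)))) (.nd (nat_lit 9) 
(.lf (nat_lit 463279) (.g (nat_lit 3119) (.e (nat_lit 3071) (nat_lit 190) (.e (nat_lit 475185) (nat_lit 29) (.e (nat_lit 557100) (nat_lit 13) (.e (nat_lit 172113) (nat_lit 10) (.e (nat_lit 434245) (nat_lit 28) (.e (nat_lit 573474) (nat_lit 12) (.e (nat_lit 57567) (nat_lit 52) (.e (nat_lit 753671) (nat_lit 5) .nil)))))))) (.g (nat_lit 1) (.e (nat_lit 68421) (nat_lit 0) .nil) .nil))) 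
(.lf (nat_lit 463791) (.g (nat_lit 2428) (.e (nat_lit 3090) (nat_lit 191) (.e (nat_lit 483409) (nat_lit 27) (.e (nat_lit 401459) (nat_lit 13) (.e (nat_lit 483354) (nat_lit 17) (.e (nat_lit 6676) (nat_lit 357) .nil))))) (.g (nat_lit 1) (.e (nat_lit 71553) (nat_lit 0) .nil) .nil)))))) (.nd (nat_lit 7) (.nd (nat_lit 8) (.nd (nat_lit 9) 
(.lf (nat_lit 462959) (.g (nat_lit 2767) (.e (nat_lit 3066) (nat_lit 190) (.e (nat_lit 475183) (nat_lit 29) (.e (nat_lit 557101) (nat_lit 13) (.e (nat_lit 172097) (nat_lit 9) (.e (nat_lit 426125) (nat_lit 2) (.e (nat_lit 196661) (nat_lit 12) (.e (nat_lit 57750) (nat_lit 201) .nil))))))) (.g (nat_lit 1) (.e (nat_lit 67821) (nat_lit 0) .nil) .nil))) 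
(.lf (nat_lit 463471) (.g (nat_lit 1151) (.e (nat_lit 3087) (nat_lit 191) (.e (nat_lit 483383) (nat_lit 23) (.e (nat_lit 336330) (nat_lit 19) .nil))) (.g (nat_lit 0) (.e (nat_lit 69659) (nat_lit 0) .nil) .nil)))) (.nd (nat_lit 9) 
(.lf (nat_lit 463215) (.g (nat_lit 2925) (.e (nat_lit 3070) (nat_lit 190) (.e (nat_lit 475185) (nat_lit 29) (.e (nat_lit 557101) (nat_lit 13) (.e (nat_lit 172115) (nat_lit 10) (.e (nat_lit 434231) (nat_lit 23) (.e (nat_lit 532481) (nat_lit 0) (.e (nat_lit 6639) (nat_lit 357) .nil))))))) (.g (nat_lit 1) (.e (nat_lit 68322) (nat_lit 0) .nil) .nil))) 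
(.lf (nat_lit 463727) (.g (nat_lit 2615) (.e (nat_lit 3090) (nat_lit 191) (.e (nat_lit 483380) (nat_lit 23) (.e (nat_lit 336262) (nat_lit 15) (.e (nat_lit 3631) (nat_lit 227) (.e (nat_lit 778323) (nat_lit 5) (.e (nat_lit 73782) (nat_lit 32) .nil)))))) (.g (nat_lit 1) (.e (nat_lit 71447) (nat_lit 0) .nil) .nil))))) (.nd (nat_lit 8) (.nd (nat_lit 9) 
(.lf (nat_lit 463087) (.g (nat_lit 3837) (.e (nat_lit 3067) (nat_lit 190) (.e (nat_lit 475183) (nat_lit 29) (.e (nat_lit 557097) (nat_lit 13) (.e (nat_lit 172097) (nat_lit 9) (.e (nat_lit 426140) (nat_lit 3) (.e (nat_lit 204821) (nat_lit 17) (.e (nat_lit 6676) (nat_lit 357) .nil))))))) (.g (nat_lit 1) (.e (nat_lit 68102) (nat_lit 0) .nil) .nil))) 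
(.lf (nat_lit 463599) (.g (nat_lit 2883) (.e (nat_lit 3088) (nat_lit 191) (.e (nat_lit 483413) (nat_lit 27) (.e (nat_lit 401434) (nat_lit 9) (.e (nat_lit 426533) (nat_lit 28) (.e (nat_lit 344068) (nat_lit 0) .nil))))) (.g (nat_lit 1) (.e (nat_lit 70162) (nat_lit 0) .nil) .nil)))) (.nd (nat_lit 9) 
(.lf (nat_lit 463343) (.g (nat_lit 3414) (.e (nat_lit 3074) (nat_lit 190) (.e (nat_lit 475185) (nat_lit 29) (.e (nat_lit 557101) (nat_lit 13) (.e (nat_lit 172097) (nat_lit 9) (.e (nat_lit 426140) (nat_lit 3) (.e (nat_lit 204821) (nat_lit 17) (.e (nat_lit 7936) (nat_lit 357) .nil))))))) (.g (nat_lit 1) (.e (nat_lit 68555) (nat_lit 0) .nil) .nil))) 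
(.lf (nat_lit 463855) (.g (nat_lit 1743) (.e (nat_lit 3095) (nat_lit 192) (.e (nat_lit 491568) (nat_lit 13) (.e (nat_lit 393301) (nat_lit 27) (.e (nat_lit 491563) (nat_lit 12) .nil)))) (.g (nat_lit 0) (.e (nat_lit 72408) (nat_lit 0) .nil) .nil)))))))) (.nd (nat_lit 5) (.nd (nat_lit 6) (.nd (nat_lit 7) (.nd (nat_lit 8) (.nd (nat_lit 9) 
(.lf (nat_lit 462879) (.g (nat_lit 2021) (.e (nat_lit 3063) (nat_lit 190) (.e (nat_lit 475185) (nat_lit 29) (.e (nat_lit 557101) (nat_lit 13) (.e (nat_lit 172115) (nat_lit 10) (.e (nat_lit 434231) (nat_lit 23) .nil))))) (.g (nat_lit 0) (.e (nat_lit 67617) (nat_lit 0) .nil) .nil))) 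
(.lf (nat_lit 463391) (.g (nat_lit 698) (.e (nat_lit 3082) (nat_lit 191) (.e (nat_lit 483385) (nat_lit 23) (.e (nat_lit 336332) (nat_lit 19) .nil))) (.g (nat_lit 0) (.e (nat_lit 68889) (nat_lit 0) .nil) .nil)))) (.nd (nat_lit 9) 
(.lf (nat_lit 463135) (.g (nat_lit 3151) (.e (nat_lit 3067) (nat_lit 190) (.e (nat_lit 475184) (nat_lit 29) (.e (nat_lit 557109) (nat_lit 15) (.e (nat_lit 188452) (nat_lit 23) (.e (nat_lit 204817) (nat_lit 17) (.e (nat_lit 6684) (nat_lit 357) .nil)))))) (.g (nat_lit 1) (.e (nat_lit 68150) (nat_lit 0) .nil) .nil))) 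
(.lf (nat_lit 463647) (.g (nat_lit 2230) (.e (nat_lit 3089) (nat_lit 191) (.e (nat_lit 483386) (nat_lit 23) (.e (nat_lit 336295) (nat_lit 15) (.e (nat_lit 3632) (nat_lit 227) (.e (nat_lit 778324) (nat_lit 5) (.e (nat_lit 73781) (nat_lit 32) .nil)))))) (.g (nat_lit 1) (.e (nat_lit 70904) (nat_lit 0) .nil) .nil))))) (.nd (nat_lit 8) (.nd (nat_lit 9) 
(.lf (nat_lit 463007) (.g (nat_lit 3287) (.e (nat_lit 3067) (nat_lit 190) (.e (nat_lit 483072) (nat_lit 26) (.e (nat_lit 532544) (nat_lit 10) (.e (nat_lit 344117) (nat_lit 21) (.e (nat_lit 516129) (nat_lit 3) (.e (nat_lit 221210) (nat_lit 22) (.e (nat_lit 196608) (nat_lit 0) .nil))))))) (.g (nat_lit 1) (.e (nat_lit 67886) (nat_lit 0) .nil) .nil))) 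
(.lf (nat_lit 463519) (.g (nat_lit 1698) (.e (nat_lit 3087) (nat_lit 191) (.e (nat_lit 483408) (nat_lit 26) (.e (nat_lit 385091) (nat_lit 49) (.e (nat_lit 778323) (nat_lit 5) (.e (nat_lit 73782) (nat_lit 32) .nil))))) (.g (nat_lit 1) (.e (nat_lit 69713) (nat_lit 0) .nil) .nil)))) (.nd (nat_lit 9) 
(.lf (nat_lit 463263) (.g (nat_lit 2879) (.e (nat_lit 3071) (nat_lit 190) (.e (nat_lit 475185) (nat_lit 29) (.e (nat_lit 557100) (nat_lit 13) (.e (nat_lit 172106) (nat_lit 10) (.e (nat_lit 434227) (nat_lit 20) (.e (nat_lit 507929) (nat_lit 10) (.e (nat_lit 5616) (nat_lit 312) .nil))))))) (.g (nat_lit 1) (.e (nat_lit 68405) (nat_lit 0) .nil) .nil))) 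
(.lf (nat_lit 463775) (.g (nat_lit 1767) (.e (nat_lit 3090) (nat_lit 191) (.e (nat_lit 483403) (nat_lit 26) (.e (nat_lit 385097) (nat_lit 49) (.e (nat_lit 786176) (nat_lit 5) .nil)))) (.g (nat_lit 0) (.e (nat_lit 71522) (nat_lit 0) .nil) .nil)))))) (.nd (nat_lit 7) (.nd (nat_lit 8) (.nd (nat_lit 9) 
(.lf (nat_lit 462943) (.g (nat_lit 1388) (.e (nat_lit 3065) (nat_lit 190) (.e (nat_lit 475185) (nat_lit 29) (.e (nat_lit 557107) (nat_lit 15) (.e (nat_lit 188450) (nat_lit 23) (.e (nat_lit 204821) (nat_lit 17) .nil))))) (.g (nat_lit 0) (.e (nat_lit 67773) (nat_lit 0) .nil) .nil))) 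
(.lf (nat_lit 463455) (.g (nat_lit 1641) (.e (nat_lit 3085) (nat_lit 191) (.e (nat_lit 483413) (nat_lit 27) (.e (nat_lit 401448) (nat_lit 10) (.e (nat_lit 434209) (nat_lit 18) .nil)))) (.g (nat_lit 0) (.e (nat_lit 69472) (nat_lit 0) .nil) .nil)))) (.nd (nat_lit 9) 
(.lf (nat_lit 463199) (.g (nat_lit 3557) (.e (nat_lit 3069) (nat_lit 190) (.e (nat_lit 475184) (nat_lit 29) (.e (nat_lit 557109) (nat_lit 15) (.e (nat_lit 188452) (nat_lit 23) (.e (nat_lit 204817) (nat_lit 17) .nil))))) (.g (nat_lit 0) (.e (nat_lit 68291) (nat_lit 0) .nil) .nil))) 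
(.lf (nat_lit 463711) (.g (nat_lit 1577) (.e (nat_lit 3090) (nat_lit 191) (.e (nat_lit 483372) (nat_lit 21) (.e (nat_lit 319504) (nat_lit 10) (.e (nat_lit 5688) (nat_lit 312) (.e (nat_lit 299) (nat_lit 22) .nil))))) (.g (nat_lit 0) (.e (nat_lit 71266) (nat_lit 0) .nil) .nil))))) (.nd (nat_lit 8) (.nd (nat_lit 9) 
(.lf (nat_lit 463071) (.g (nat_lit 855) (.e (nat_lit 3067) (nat_lit 190) (.e (nat_lit 475179) (nat_lit 24) (.e (nat_lit 516150) (nat_lit 9) .nil))) (.g (nat_lit 0) (.e (nat_lit 68059) (nat_lit 0) .nil) .nil))) 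
(.lf (nat_lit 463583) (.g (nat_lit 2228) (.e (nat_lit 3088) (nat_lit 191) (.e (nat_lit 483408) (nat_lit 26) (.e (nat_lit 385092) (nat_lit 49) (.e (nat_lit 778323) (nat_lit 5) (.e (nat_lit 73781) (nat_lit 32) .nil))))) (.g (nat_lit 1) (.e (nat_lit 70068) (nat_lit 0) .nil) .nil)))) (.nd (nat_lit 9) 
(.lf (nat_lit 463327) (.g (nat_lit 3739) (.e (nat_lit 3072) (nat_lit 190) (.e (nat_lit 475185) (nat_lit 29) (.e (nat_lit 557101) (nat_lit 13) (.e (nat_lit 172097) (nat_lit 9) (.e (nat_lit 426140) (nat_lit 3) (.e (nat_lit 204821) (nat_lit 17) (.e (nat_lit 7936) (nat_lit 357) .nil))))))) (.g (nat_lit 1) (.e (nat_lit 68528) (nat_lit 0) .nil) .nil))) 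
(.lf (nat_lit 463839) (.g (nat_lit 1266) (.e (nat_lit 3094) (nat_lit 191) (.e (nat_lit 483408) (nat_lit 26) (.e (nat_lit 385091) (nat_lit 49) (.e (nat_lit 778323) (nat_lit 5) (.e (nat_lit 81664) (nat_lit 32) .nil))))) (.g (nat_lit 1) (.e (nat_lit 72096) (nat_lit 0) .nil) .nil))))))) (.nd (nat_lit 6) (.nd (nat_lit 7) (.nd (nat_lit 8) (.nd (nat_lit 9) 
(.lf (nat_lit 462911) (.g (nat_lit 2217) (.e (nat_lit 3064) (nat_lit 190) (.e (nat_lit 475185) (nat_lit 29) (.e (nat_lit 557101) (nat_lit 13) (.e (nat_lit 172097) (nat_lit 9) (.e (nat_lit 426140) (nat_lit 3) (.e (nat_lit 204821) (nat_lit 17) (.e (nat_lit 7936) (nat_lit 357) .nil))))))) (.g (nat_lit 1) (.e (nat_lit 67703) (nat_lit 0) .nil) .nil))) 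
(.lf (nat_lit 463423) (.g (nat_lit 1315) (.e (nat_lit 3085) (nat_lit 191) (.e (nat_lit 483405) (nat_lit 26) (.e (nat_lit 385092) (nat_lit 49) (.e (nat_lit 778323) (nat_lit 5) (.e (nat_lit 81664) (nat_lit 32) .nil))))) (.g (nat_lit 1) (.e (nat_lit 69152) (nat_lit 0) .nil) .nil)))) (.nd (nat_lit 9) 
(.lf (nat_lit 463167) (.g (nat_lit 3700) (.e (nat_lit 3067) (nat_lit 190) (.e (nat_lit 475185) (nat_lit 29) (.e (nat_lit 557107) (nat_lit 15) (.e (nat_lit 188450) (nat_lit 23) (.e (nat_lit 204819) (nat_lit 17) (.e (nat_lit 6666) (nat_lit 357) .nil)))))) (.g (nat_lit 1) (.e (nat_lit 68186) (nat_lit 0) .nil) .nil))) 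
(.lf (nat_lit 463679) (.g (nat_lit 988) (.e (nat_lit 3089) (nat_lit 191) (.e (nat_lit 483411) (nat_lit 27) (.e (nat_lit 401436) (nat_lit 9) .nil))) (.g (nat_lit 0) (.e (nat_lit 70984) (nat_lit 0) .nil) .nil))))) (.nd (nat_lit 8) (.nd (nat_lit 9) 
(.lf (nat_lit 463039) (.g (nat_lit 3547) (.e (nat_lit 3067) (nat_lit 190) (.e (nat_lit 475178) (nat_lit 24) (.e (nat_lit 516117) (nat_lit 1) (.e (nat_lit 164329) (nat_lit 230) (.e (nat_lit 163941) (nat_lit 19) (.e (nat_lit 483333) (nat_lit 0) (.e (nat_lit 7335) (nat_lit 388) .nil))))))) (.g (nat_lit 1) (.e (nat_lit 67938) (nat_lit 0) .nil) .nil))) 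
(.lf (nat_lit 463551) (.g (nat_lit 1835) (.e (nat_lit 3088) (nat_lit 191) (.e (nat_lit 483393) (nat_lit 23) (.e (nat_lit 336275) (nat_lit 15) (.e (nat_lit 3632) (nat_lit 227) (.e (nat_lit 778323) (nat_lit 5) (.e (nat_lit 73782) (nat_lit 32) .nil)))))) (.g (nat_lit 1) (.e (nat_lit 70022) (nat_lit 0) .nil) .nil)))) (.nd (nat_lit 9) 
(.lf (nat_lit 463295) (.g (nat_lit 3426) (.e (nat_lit 3071) (nat_lit 190) (.e (nat_lit 475185) (nat_lit 29) (.e (nat_lit 557101) (nat_lit 13) (.e (nat_lit 172115) (nat_lit 10) (.e (nat_lit 434231) (nat_lit 23) (.e (nat_lit 532490) (nat_lit 0) (.e (nat_lit 7936) (nat_lit 357) .nil))))))) (.g (nat_lit 1) (.e (nat_lit 68437) (nat_lit 0) .nil) .nil))) 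
(.lf (nat_lit 463807) (.g (nat_lit 1571) (.e (nat_lit 3092) (nat_lit 191) (.e (nat_lit 483403) (nat_lit 26) (.e (nat_lit 385093) (nat_lit 49) (.e (nat_lit 778324) (nat_lit 5) (.e (nat_lit 81664) (nat_lit 32) .nil))))) (.g (nat_lit 1) (.e (nat_lit 71734) (nat_lit 0) .nil) .nil)))))) (.nd (nat_lit 7) (.nd (nat_lit 8) (.nd (nat_lit 9) 
(.lf (nat_lit 462975) (.g (nat_lit 2897) (.e (nat_lit 3066) (nat_lit 190) (.e (nat_lit 475184) (nat_lit 29) (.e (nat_lit 557109) (nat_lit 15) (.e (nat_lit 188452) (nat_lit 23) (.e (nat_lit 204817) (nat_lit 17) .nil))))) (.g (nat_lit 0) (.e (nat_lit 67837) (nat_lit 0) .nil) .nil))) 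
(.lf (nat_lit 463487) (.g (nat_lit 1718) (.e (nat_lit 3087) (nat_lit 191) (.e (nat_lit 483393) (nat_lit 23) (.e (nat_lit 335996) (nat_lit 1) (.e (nat_lit 57870) (nat_lit 264) (.e (nat_lit 1210) (nat_lit 89) .nil))))) (.g (nat_lit 0) (.e (nat_lit 69676) (nat_lit 0) .nil) .nil)))) (.nd (nat_lit 9) 
(.lf (nat_lit 463231) (.g (nat_lit 3091) (.e (nat_lit 3070) (nat_lit 190) (.e (nat_lit 475185) (nat_lit 29) (.e (nat_lit 557109) (nat_lit 15) (.e (nat_lit 188452) (nat_lit 23) (.e (nat_lit 204819) (nat_lit 17) (.e (nat_lit 7936) (nat_lit 357) .nil)))))) (.g (nat_lit 1) (.e (nat_lit 68338) (nat_lit 0) .nil) .nil))) 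
(.lf (nat_lit 463743) (.g (nat_lit 2559) (.e (nat_lit 3090) (nat_lit 191) (.e (nat_lit 483383) (nat_lit 23) (.e (nat_lit 336240) (nat_lit 15) (.e (nat_lit 3637) (nat_lit 227) (.e (nat_lit 778323) (nat_lit 5) (.e (nat_lit 73782) (nat_lit 32) .nil)))))) (.g (nat_lit 1) (.e (nat_lit 71478) (nat_lit 0) .nil) .nil))))) (.nd (nat_lit 8) (.nd (nat_lit 9) 
(.lf (nat_lit 463103) (.g (nat_lit 3129) (.e (nat_lit 3067) (nat_lit 190) (.e (nat_lit 475183) (nat_lit 29) (.e (nat_lit 557107) (nat_lit 15) (.e (nat_lit 188450) (nat_lit 23) (.e (nat_lit 204821) (nat_lit 17) (.e (nat_lit 6676) (nat_lit 357) .nil)))))) (.g (nat_lit 1) (.e (nat_lit 68118) (nat_lit 0) .nil) .nil))) 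
(.lf (nat_lit 463615) (.g (nat_lit 482) (.e (nat_lit 3089) (nat_lit 191) (.e (nat_lit 483372) (nat_lit 21) (.e (nat_lit 327424) (nat_lit 19) .nil))) (.g (nat_lit 0) (.e (nat_lit 70852) (nat_lit 0) .nil) .nil)))) (.nd (nat_lit 9) 
(.lf (nat_lit 463359) (.g (nat_lit 1908) (.e (nat_lit 3077) (nat_lit 191) (.e (nat_lit 483403) (nat_lit 26) (.e (nat_lit 385094) (nat_lit 49) (.e (nat_lit 778323) (nat_lit 5) (.e (nat_lit 81664) (nat_lit 32) .nil))))) (.g (nat_lit 1) (.e (nat_lit 68646) (nat_lit 0) .nil) .nil))) 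
(.lf (nat_lit 463871) (.g (nat_lit 2037) (.e (nat_lit 3096) (nat_lit 192) (.e (nat_lit 491537) (nat_lit 2) (.e (nat_lit 90170) (nat_lit 13) (.e (nat_lit 172113) (nat_lit 10) .nil)))) (.g (nat_lit 0) (.e (nat_lit 72428) (nat_lit 0) .nil) .nil)))))))))))))

noncomputable def tv5513 : DT := (.nd (nat_lit 0) (.nd (nat_lit 1) (.nd (nat_lit 2) (.nd (nat_lit 3) (.nd (nat_lit 4) (.nd (nat_lit 5) (.nd (nat_lit 6) (.nd (nat_lit 7) (.nd (nat_lit 8) (.nd (nat_lit 9) 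
(.lf (nat_lit 463872) (.g (nat_lit 1272) (.e (nat_lit 3096) (nat_lit 192) (.e (nat_lit 491549) (nat_lit 9) (.e (nat_lit 336306) (nat_lit 15) (.e (nat_lit 3298) (nat_lit 202) .nil)))) (.g (nat_lit 0) (.e (nat_lit 72430) (nat_lit 0) .nil) .nil))) 
(.lf (nat_lit 464384) (.g (nat_lit 2713) (.e (nat_lit 3102) (nat_lit 192) (.e (nat_lit 491536) (nat_lit 2) (.e (nat_lit 90170) (nat_lit 13) (.e (nat_lit 172106) (nat_lit 10) (.e (nat_lit 434231) (nat_lit 23) .nil))))) (.g (nat_lit 0) (.e (nat_lit 73219) (nat_lit 0) .nil) .nil)))) (.nd (nat_lit 9) 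
(.lf (nat_lit 464128) (.g (nat_lit 4828) (.e (nat_lit 3098) (nat_lit 192) (.e (nat_lit 491566) (nat_lit 12) (.e (nat_lit 385074) (nat_lit 31) (.e (nat_lit 573493) (nat_lit 15) (.e (nat_lit 81953) (nat_lit 22) (.e (nat_lit 90134) (nat_lit 9) .nil)))))) (.g (nat_lit 1) (.e (nat_lit 72849) (nat_lit 0) .nil) .nil))) 
(.lf (nat_lit 464640) (.g (nat_lit 3486) (.e (nat_lit 3229) (nat_lit 197) (.e (nat_lit 532550) (nat_lit 12) (.e (nat_lit 360475) (nat_lit 8) (.e (nat_lit 557091) (nat_lit 12) (.e (nat_lit 164022) (nat_lit 46) .nil))))) (.g (nat_lit 0) (.e (nat_lit 73611) (nat_lit 0) .nil) .nil))))) (.nd (nat_lit 8) (.nd (nat_lit 9) 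
(.lf (nat_lit 464000) (.g (nat_lit 2285) (.e (nat_lit 3097) (nat_lit 192) (.e (nat_lit 491569) (nat_lit 13) (.e (nat_lit 393301) (nat_lit 27) (.e (nat_lit 491560) (nat_lit 10) .nil)))) (.g (nat_lit 0) (.e (nat_lit 72626) (nat_lit 0) .nil) .nil))) 
(.lf (nat_lit 464512) (.g (nat_lit 3377) (.e (nat_lit 3105) (nat_lit 192) (.e (nat_lit 491537) (nat_lit 2) (.e (nat_lit 90170) (nat_lit 13) (.e (nat_lit 172106) (nat_lit 10) (.e (nat_lit 434231) (nat_lit 23) (.e (nat_lit 532490) (nat_lit 0) (.e (nat_lit 7936) (nat_lit 357) .nil))))))) (.g (nat_lit 1) (.e (nat_lit 73355) (nat_lit 0) .nil) .nil)))) (.nd (nat_lit 9) 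
(.lf (nat_lit 464256) (.g (nat_lit 2703) (.e (nat_lit 3098) (nat_lit 192) (.e (nat_lit 491569) (nat_lit 13) (.e (nat_lit 393301) (nat_lit 27) (.e (nat_lit 491560) (nat_lit 10) (.e (nat_lit 344088) (nat_lit 18) (.e (nat_lit 6904) (nat_lit 371) (.e (nat_lit 2444) (nat_lit 157) .nil))))))) (.g (nat_lit 1) (.e (nat_lit 73033) (nat_lit 0) .nil) .nil))) 
(.lf (nat_lit 464768) (.g (nat_lit 3399) (.e (nat_lit 3230) (nat_lit 197) (.e (nat_lit 532550) (nat_lit 12) (.e (nat_lit 360474) (nat_lit 8) (.e (nat_lit 557093) (nat_lit 12) (.e (nat_lit 164022) (nat_lit 46) .nil))))) (.g (nat_lit 0) (.e (nat_lit 73824) (nat_lit 0) .nil) .nil)))))) (.nd (nat_lit 7) (.nd (nat_lit 8) (.nd (nat_lit 9) 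
(.lf (nat_lit 463936) (.g (nat_lit 2587) (.e (nat_lit 3096) (nat_lit 192) (.e (nat_lit 491569) (nat_lit 13) (.e (nat_lit 393301) (nat_lit 27) (.e (nat_lit 491560) (nat_lit 10) (.e (nat_lit 344088) (nat_lit 18) .nil))))) (.g (nat_lit 0) (.e (nat_lit 72513) (nat_lit 0) .nil) .nil))) 
(.lf (nat_lit 464448) (.g (nat_lit 2797) (.e (nat_lit 3102) (nat_lit 192) (.e (nat_lit 491560) (nat_lit 10) (.e (nat_lit 344117) (nat_lit 21) (.e (nat_lit 516185) (nat_lit 16) (.e (nat_lit 491558) (nat_lit 10) (.e (nat_lit 344107) (nat_lit 19) (.e (nat_lit 499811) (nat_lit 5) .nil))))))) (.g (nat_lit 1) (.e (nat_lit 73286) (nat_lit 0) .nil) .nil)))) (.nd (nat_lit 9) 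
(.lf (nat_lit 464192) (.g (nat_lit 2692) (.e (nat_lit 3098) (nat_lit 192) (.e (nat_lit 491569) (nat_lit 13) (.e (nat_lit 393301) (nat_lit 27) (.e (nat_lit 491558) (nat_lit 10) (.e (nat_lit 344097) (nat_lit 18) (.e (nat_lit 6875) (nat_lit 371) (.e (nat_lit 2445) (nat_lit 157) .nil))))))) (.g (nat_lit 1) (.e (nat_lit 72969) (nat_lit 0) .nil) .nil))) 
(.lf (nat_lit 464704) (.g (nat_lit 5055) (.e (nat_lit 3230) (nat_lit 197) (.e (nat_lit 532503) (nat_lit 1) (.e (nat_lit 57931) (nat_lit 282) (.e (nat_lit 163869) (nat_lit 2) (.e (nat_lit 196670) (nat_lit 14) (.e (nat_lit 73746) (nat_lit 3) (.e (nat_lit 516129) (nat_lit 3) (.e (nat_lit 221196) (nat_lit 20) .nil)))))))) (.g (nat_lit 1) (.e (nat_lit 73688) (nat_lit 0) .nil) .nil))))) 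
(.nd (nat_lit 8) (.nd (nat_lit 9) 
(.lf (nat_lit 464064) (.g (nat_lit 2478) (.e (nat_lit 3098) (nat_lit 192) (.e (nat_lit 491549) (nat_lit 9) (.e (nat_lit 336306) (nat_lit 15) (.e (nat_lit 3308) (nat_lit 202) (.e (nat_lit 573493) (nat_lit 15) (.e (nat_lit 81953) (nat_lit 22) (.e (nat_lit 98048) (nat_lit 9) .nil))))))) (.g (nat_lit 1) (.e (nat_lit 72717) (nat_lit 0) .nil) .nil))) 
(.lf (nat_lit 464576) (.g (nat_lit 3582) (.e (nat_lit 3111) (nat_lit 193) (.e (nat_lit 500075) (nat_lit 20) (.e (nat_lit 81956) (nat_lit 23) (.e (nat_lit 98350) (nat_lit 24) (.e (nat_lit 409649) (nat_lit 18) .nil))))) (.g (nat_lit 0) (.e (nat_lit 73453) (nat_lit 0) .nil) .nil)))) (.nd (nat_lit 9) 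
(.lf (nat_lit 464320) (.g (nat_lit 2988) (.e (nat_lit 3098) (nat_lit 192) (.e (nat_lit 491569) (nat_lit 13) (.e (nat_lit 393301) (nat_lit 27) (.e (nat_lit 491560) (nat_lit 10) (.e (nat_lit 344170) (nat_lit 41) .nil))))) (.g (nat_lit 0) (.e (nat_lit 73097) (nat_lit 0) .nil) .nil))) 
(.lf (nat_lit 464832) (.g (nat_lit 2152) (.e (nat_lit 3231) (nat_lit 197) (.e (nat_lit 532535) (nat_lit 9) (.e (nat_lit 336176) (nat_lit 10) .nil))) (.g (nat_lit 0) (.e (nat_lit 73924) (nat_lit 0) .nil) .nil))))))) (.nd (nat_lit 6) (.nd (nat_lit 7) (.nd (nat_lit 8) (.nd (nat_lit 9) 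
(.lf (nat_lit 463904) (.g (nat_lit 2732) (.e (nat_lit 3096) (nat_lit 192) (.e (nat_lit 491566) (nat_lit 12) (.e (nat_lit 385105) (nat_lit 50) (.e (nat_lit 786483) (nat_lit 30) (.e (nat_lit 360484) (nat_lit 15) (.e (nat_lit 647172) (nat_lit 0) .nil)))))) (.g (nat_lit 1) (.e (nat_lit 72481) (nat_lit 0) .nil) .nil))) 
(.lf (nat_lit 464416) (.g (nat_lit 1563) (.e (nat_lit 3102) (nat_lit 192) (.e (nat_lit 491558) (nat_lit 10) (.e (nat_lit 344126) (nat_lit 25) (.e (nat_lit 548873) (nat_lit 5) .nil)))) (.g (nat_lit 0) (.e (nat_lit 73252) (nat_lit 0) .nil) .nil)))) (.nd (nat_lit 9) 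
(.lf (nat_lit 464160) (.g (nat_lit 1927) (.e (nat_lit 3098) (nat_lit 192) (.e (nat_lit 491569) (nat_lit 13) (.e (nat_lit 393301) (nat_lit 27) (.e (nat_lit 491552) (nat_lit 9) .nil)))) (.g (nat_lit 0) (.e (nat_lit 72937) (nat_lit 0) .nil) .nil))) 
(.lf (nat_lit 464672) (.g (nat_lit 2175) (.e (nat_lit 3230) (nat_lit 197) (.e (nat_lit 532503) (nat_lit 1) (.e (nat_lit 57924) (nat_lit 282) (.e (nat_lit 163867) (nat_lit 2) (.e (nat_lit 196668) (nat_lit 14) (.e (nat_lit 73747) (nat_lit 3) (.e (nat_lit 516131) (nat_lit 3) (.e (nat_lit 221197) (nat_lit 20) .nil)))))))) (.g (nat_lit 1) (.e (nat_lit 73652) (nat_lit 0) .nil) .nil))))) 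
(.nd (nat_lit 8) (.nd (nat_lit 9) 
(.lf (nat_lit 464032) (.g (nat_lit 2120) (.e (nat_lit 3098) (nat_lit 192) (.e (nat_lit 491537) (nat_lit 2) (.e (nat_lit 90170) (nat_lit 13) (.e (nat_lit 172115) (nat_lit 10) .nil)))) (.g (nat_lit 0) (.e (nat_lit 72677) (nat_lit 0) .nil) .nil))) 
(.lf (nat_lit 464544) (.g (nat_lit 856) (.e (nat_lit 3105) (nat_lit 192) (.e (nat_lit 491569) (nat_lit 13) (.e (nat_lit 393301) (nat_lit 27) .nil))) (.g (nat_lit 0) (.e (nat_lit 73398) (nat_lit 0) .nil) .nil)))) (.nd (nat_lit 9) 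
(.lf (nat_lit 464288) (.g (nat_lit 2873) (.e (nat_lit 3098) (nat_lit 192) (.e (nat_lit 491569) (nat_lit 13) (.e (nat_lit 393301) (nat_lit 27) (.e (nat_lit 491560) (nat_lit 10) (.e (nat_lit 344091) (nat_lit 18) (.e (nat_lit 6850) (nat_lit 371) (.e (nat_lit 2433) (nat_lit 157) .nil))))))) (.g (nat_lit 1) (.e (nat_lit 73065) (nat_lit 0) .nil) .nil))) 
(.lf (nat_lit 464800) (.g (nat_lit 3390) (.e (nat_lit 3230) (nat_lit 197) (.e (nat_lit 532550) (nat_lit 12) (.e (nat_lit 360475) (nat_lit 8) (.e (nat_lit 557091) (nat_lit 12) (.e (nat_lit 164022) (nat_lit 46) (.e (nat_lit 704737) (nat_lit 11) (.e (nat_lit 16385) (nat_lit 0) .nil))))))) (.g (nat_lit 1) (.e (nat_lit 73858) (nat_lit 0) .nil) .nil)))))) 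
(.nd (nat_lit 7) (.nd (nat_lit 8) (.nd (nat_lit 9) 
(.lf (nat_lit 463968) (.g (nat_lit 894) (.e (nat_lit 3097) (nat_lit 192) (.e (nat_lit 491566) (nat_lit 12) (.e (nat_lit 385072) (nat_lit 31) .nil))) (.g (nat_lit 0) (.e (nat_lit 72572) (nat_lit 0) .nil) .nil))) 
(.lf (nat_lit 464480) (.g (nat_lit 3096) (.e (nat_lit 3103) (nat_lit 192) (.e (nat_lit 491569) (nat_lit 13) (.e (nat_lit 393301) (nat_lit 27) (.e (nat_lit 491558) (nat_lit 10) (.e (nat_lit 344091) (nat_lit 18) .nil))))) (.g (nat_lit 0) (.e (nat_lit 73322) (nat_lit 0) .nil) .nil)))) (.nd (nat_lit 9) 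
(.lf (nat_lit 464224) (.g (nat_lit 3526) (.e (nat_lit 3098) (nat_lit 192) (.e (nat_lit 491569) (nat_lit 13) (.e (nat_lit 393301) (nat_lit 27) (.e (nat_lit 491559) (nat_lit 10) (.e (nat_lit 344171) (nat_lit 41) (.e (nat_lit 753672) (nat_lit 5) .nil)))))) (.g (nat_lit 1) (.e (nat_lit 73001) (nat_lit 0) .nil) .nil))) 
(.lf (nat_lit 464736) (.g (nat_lit 2439) (.e (nat_lit 3230) (nat_lit 197) (.e (nat_lit 532504) (nat_lit 1) (.e (nat_lit 57851) (nat_lit 252) (.e (nat_lit 57406) (nat_lit 12) (.e (nat_lit 336456) (nat_lit 34) (.e (nat_lit 483391) (nat_lit 23) (.e (nat_lit 336244) (nat_lit 15) .nil))))))) (.g (nat_lit 1) (.e (nat_lit 73725) (nat_lit 0) .nil) .nil))))) (.nd (nat_lit 8) (.nd (nat_lit 9) 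
(.lf (nat_lit 464096) (.g (nat_lit 4436) (.e (nat_lit 3098) (nat_lit 192) (.e (nat_lit 491565) (nat_lit 12) (.e (nat_lit 385073) (nat_lit 31) (.e (nat_lit 573493) (nat_lit 15) (.e (nat_lit 81953) (nat_lit 22) (.e (nat_lit 90134) (nat_lit 9) .nil)))))) (.g (nat_lit 1) (.e (nat_lit 72753) (nat_lit 0) .nil) .nil))) 
(.lf (nat_lit 464608) (.g (nat_lit 2100) (.e (nat_lit 3141) (nat_lit 193) (.e (nat_lit 500065) (nat_lit 18) (.e (nat_lit 65630) (nat_lit 14) (.e (nat_lit 401428) (nat_lit 3) (.e (nat_lit 204863) (nat_lit 27) .nil))))) (.g (nat_lit 0) (.e (nat_lit 73508) (nat_lit 0) .nil) .nil)))) (.nd (nat_lit 9) 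
(.lf (nat_lit 464352) (.g (nat_lit 3707) (.e (nat_lit 3098) (nat_lit 192) (.e (nat_lit 491571) (nat_lit 13) (.e (nat_lit 393260) (nat_lit 21) (.e (nat_lit 409644) (nat_lit 18) .nil)))) (.g (nat_lit 0) (.e (nat_lit 73157) (nat_lit 0) .nil) .nil))) 
(.lf (nat_lit 464864) (.g (nat_lit 4776) (.e (nat_lit 3232) (nat_lit 197) (.e (nat_lit 532550) (nat_lit 12) (.e (nat_lit 360475) (nat_lit 8) (.e (nat_lit 557089) (nat_lit 12) .nil)))) (.g (nat_lit 0) (.e (nat_lit 74000) (nat_lit 0) .nil) .nil)))))))) (.nd (nat_lit 5) (.nd (nat_lit 6) (.nd (nat_lit 7) (.nd (nat_lit 8) (.nd (nat_lit 9) 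
(.lf (nat_lit 463888) (.g (nat_lit 4464) (.e (nat_lit 3096) (nat_lit 192) (.e (nat_lit 491566) (nat_lit 12) (.e (nat_lit 385072) (nat_lit 31) (.e (nat_lit 573492) (nat_lit 15) (.e (nat_lit 81953) (nat_lit 22) (.e (nat_lit 90134) (nat_lit 9) .nil)))))) (.g (nat_lit 1) (.e (nat_lit 72449) (nat_lit 0) .nil) .nil))) 
(.lf (nat_lit 464400) (.g (nat_lit 2267) (.e (nat_lit 3102) (nat_lit 192) (.e (nat_lit 491558) (nat_lit 10) (.e (nat_lit 344115) (nat_lit 20) (.e (nat_lit 507907) (nat_lit 0) (.e (nat_lit 5412) (nat_lit 303) (.e (nat_lit 73739) (nat_lit 1) (.e (nat_lit 499847) (nat_lit 5) .nil))))))) (.g (nat_lit 1) (.e (nat_lit 73236) (nat_lit 0) .nil) .nil)))) (.nd (nat_lit 9) 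
(.lf (nat_lit 464144) (.g (nat_lit 2682) (.e (nat_lit 3098) (nat_lit 192) (.e (nat_lit 491568) (nat_lit 13) (.e (nat_lit 393301) (nat_lit 27) (.e (nat_lit 491560) (nat_lit 10) (.e (nat_lit 344091) (nat_lit 18) .nil))))) (.g (nat_lit 0) (.e (nat_lit 72918) (nat_lit 0) .nil) .nil))) 
(.lf (nat_lit 464656) (.g (nat_lit 1868) (.e (nat_lit 3230) (nat_lit 197) (.e (nat_lit 532501) (nat_lit 1) (.e (nat_lit 57854) (nat_lit 252) (.e (nat_lit 57409) (nat_lit 12) (.e (nat_lit 336454) (nat_lit 34) (.e (nat_lit 483385) (nat_lit 23) (.e (nat_lit 336260) (nat_lit 15) .nil))))))) (.g (nat_lit 1) (.e (nat_lit 73628) (nat_lit 0) .nil) .nil))))) (.nd (nat_lit 8) (.nd (nat_lit 9) 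
(.lf (nat_lit 464016) (.g (nat_lit 2504) (.e (nat_lit 3098) (nat_lit 192) (.e (nat_lit 491537) (nat_lit 2) (.e (nat_lit 90170) (nat_lit 13) (.e (nat_lit 172106) (nat_lit 10) (.e (nat_lit 434231) (nat_lit 23) .nil))))) (.g (nat_lit 0) (.e (nat_lit 72661) (nat_lit 0) .nil) .nil))) 
(.lf (nat_lit 464528) (.g (nat_lit 3588) (.e (nat_lit 3105) (nat_lit 192) (.e (nat_lit 491566) (nat_lit 12) (.e (nat_lit 385104) (nat_lit 50) (.e (nat_lit 786483) (nat_lit 30) (.e (nat_lit 360483) (nat_lit 15) (.e (nat_lit 647168) (nat_lit 0) .nil)))))) (.g (nat_lit 1) (.e (nat_lit 73382) (nat_lit 0) .nil) .nil)))) (.nd (nat_lit 9) 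
(.lf (nat_lit 464272) (.g (nat_lit 3425) (.e (nat_lit 3098) (nat_lit 192) (.e (nat_lit 491569) (nat_lit 13) (.e (nat_lit 393301) (nat_lit 27) (.e (nat_lit 491560) (nat_lit 10) (.e (nat_lit 344089) (nat_lit 18) (.e (nat_lit 6865) (nat_lit 371) (.e (nat_lit 2448) (nat_lit 157) .nil))))))) (.g (nat_lit 1) (.e (nat_lit 73049) (nat_lit 0) .nil) .nil))) 
(.lf (nat_lit 464784) (.g (nat_lit 3888) (.e (nat_lit 3230) (nat_lit 197) (.e (nat_lit 532550) (nat_lit 12) (.e (nat_lit 360474) (nat_lit 8) (.e (nat_lit 557094) (nat_lit 12) (.e (nat_lit 164022) (nat_lit 46) (.e (nat_lit 704737) (nat_lit 11) (.e (nat_lit 16399) (nat_lit 0) .nil))))))) (.g (nat_lit 1) (.e (nat_lit 73840) (nat_lit 0) .nil) .nil)))))) 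
(.nd (nat_lit 7) (.nd (nat_lit 8) (.nd (nat_lit 9) 
(.lf (nat_lit 463952) (.g (nat_lit 2894) (.e (nat_lit 3096) (nat_lit 192) (.e (nat_lit 491569) (nat_lit 13) (.e (nat_lit 393301) (nat_lit 27) (.e (nat_lit 491560) (nat_lit 10) (.e (nat_lit 344172) (nat_lit 41) (.e (nat_lit 753678) (nat_lit 5) .nil)))))) (.g (nat_lit 1) (.e (nat_lit 72529) (nat_lit 0) .nil) .nil))) 
(.lf (nat_lit 464464) (.g (nat_lit 3742) (.e (nat_lit 3102) (nat_lit 192) (.e (nat_lit 491563) (nat_lit 12) (.e (nat_lit 385073) (nat_lit 31) (.e (nat_lit 573493) (nat_lit 15) (.e (nat_lit 81962) (nat_lit 25) (.e (nat_lit 139289) (nat_lit 9) .nil)))))) (.g (nat_lit 1) (.e (nat_lit 73303) (nat_lit 0) .nil) .nil)))) (.nd (nat_lit 9) 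
(.lf (nat_lit 464208) (.g (nat_lit 3684) (.e (nat_lit 3098) (nat_lit 192) (.e (nat_lit 491569) (nat_lit 13) (.e (nat_lit 393301) (nat_lit 27) (.e (nat_lit 491559) (nat_lit 10) (.e (nat_lit 344091) (nat_lit 18) (.e (nat_lit 6923) (nat_lit 371) (.e (nat_lit 2416) (nat_lit 157) .nil))))))) (.g (nat_lit 1) (.e (nat_lit 72985) (nat_lit 0) .nil) .nil))) 
(.lf (nat_lit 464720) (.g (nat_lit 2425) (.e (nat_lit 3230) (nat_lit 197) (.e (nat_lit 532503) (nat_lit 1) (.e (nat_lit 57931) (nat_lit 282) (.e (nat_lit 163874) (nat_lit 3) (.e (nat_lit 204863) (nat_lit 27) (.e (nat_lit 344117) (nat_lit 21) (.e (nat_lit 516130) (nat_lit 3) (.e (nat_lit 221198) (nat_lit 20) .nil)))))))) (.g (nat_lit 1) (.e (nat_lit 73706) (nat_lit 0) .nil) .nil))))) 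
(.nd (nat_lit 8) (.nd (nat_lit 9) 
(.lf (nat_lit 464080) (.g (nat_lit 1051) (.e (nat_lit 3098) (nat_lit 192) (.e (nat_lit 491564) (nat_lit 12) (.e (nat_lit 385072) (nat_lit 31) (.e (nat_lit 573492) (nat_lit 15) .nil)))) (.g (nat_lit 0) (.e (nat_lit 72735) (nat_lit 0) .nil) .nil))) 
(.lf (nat_lit 464592) (.g (nat_lit 1339) (.e (nat_lit 3114) (nat_lit 193) (.e (nat_lit 499928) (nat_lit 11) (.e (nat_lit 188452) (nat_lit 23) (.e (nat_lit 204863) (nat_lit 27) .nil)))) (.g (nat_lit 0) (.e (nat_lit 73473) (nat_lit 0) .nil) .nil)))) (.nd (nat_lit 9) 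
(.lf (nat_lit 464336) (.g (nat_lit 511) (.e (nat_lit 3098) (nat_lit 192) (.e (nat_lit 491571) (nat_lit 13) (.e (nat_lit 393231) (nat_lit 17) .nil))) (.g (nat_lit 0) (.e (nat_lit 73121) (nat_lit 0) .nil) .nil))) 
(.lf (nat_lit 464848) (.g (nat_lit 2465) (.e (nat_lit 3231) (nat_lit 197) (.e (nat_lit 532563) (nat_lit 15) (.e (nat_lit 385066) (nat_lit 26) (.e (nat_lit 532534) (nat_lit 9) (.e (nat_lit 336326) (nat_lit 18) (.e (nat_lit 204854) (nat_lit 26) (.e (nat_lit 336247) (nat_lit 15) .nil))))))) (.g (nat_lit 1) (.e (nat_lit 73952) (nat_lit 0) .nil) .nil))))))) 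
(.nd (nat_lit 6) (.nd (nat_lit 7) (.nd (nat_lit 8) (.nd (nat_lit 9) 
(.lf (nat_lit 463920) (.g (nat_lit 3167) (.e (nat_lit 3096) (nat_lit 192) (.e (nat_lit 491569) (nat_lit 13) (.e (nat_lit 393301) (nat_lit 27) (.e (nat_lit 491558) (nat_lit 10) (.e (nat_lit 344172) (nat_lit 41) (.e (nat_lit 753677) (nat_lit 5) .nil)))))) (.g (nat_lit 1) (.e (nat_lit 72497) (nat_lit 0) .nil) .nil))) 
(.lf (nat_lit 464432) (.g (nat_lit 2645) (.e (nat_lit 3102) (nat_lit 192) (.e (nat_lit 491560) (nat_lit 10) (.e (nat_lit 344115) (nat_lit 20) (.e (nat_lit 507907) (nat_lit 0) (.e (nat_lit 5412) (nat_lit 303) (.e (nat_lit 73739) (nat_lit 1) (.e (nat_lit 499844) (nat_lit 5) .nil))))))) (.g (nat_lit 1) (.e (nat_lit 73268) (nat_lit 0) .nil) .nil)))) (.nd (nat_lit 9) 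
(.lf (nat_lit 464176) (.g (nat_lit 2442) (.e (nat_lit 3098) (nat_lit 192) (.e (nat_lit 491569) (nat_lit 13) (.e (nat_lit 393301) (nat_lit 27) (.e (nat_lit 491558) (nat_lit 10) (.e (nat_lit 344091) (nat_lit 18) (.e (nat_lit 6855) (nat_lit 371) (.e (nat_lit 2440) (nat_lit 157) .nil))))))) (.g (nat_lit 1) (.e (nat_lit 72953) (nat_lit 0) .nil) .nil))) 
(.lf (nat_lit 464688) (.g (nat_lit 3267) (.e (nat_lit 3230) (nat_lit 197) (.e (nat_lit 532503) (nat_lit 1) (.e (nat_lit 57931) (nat_lit 282) (.e (nat_lit 163867) (nat_lit 2) (.e (nat_lit 196670) (nat_lit 14) (.e (nat_lit 73746) (nat_lit 3) (.e (nat_lit 516129) (nat_lit 3) (.e (nat_lit 221198) (nat_lit 20) .nil)))))))) (.g (nat_lit 1) (.e (nat_lit 73668) (nat_lit 0) .nil) .nil))))) 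
(.nd (nat_lit 8) (.nd (nat_lit 9) 
(.lf (nat_lit 464048) (.g (nat_lit 2260) (.e (nat_lit 3098) (nat_lit 192) (.e (nat_lit 491546) (nat_lit 9) (.e (nat_lit 336028) (nat_lit 3) (.e (nat_lit 98325) (nat_lit 17) (.e (nat_lit 7936) (nat_lit 407) (.e (nat_lit 73739) (nat_lit 1) (.e (nat_lit 499828) (nat_lit 5) .nil))))))) (.g (nat_lit 1) (.e (nat_lit 72694) (nat_lit 0) .nil) .nil))) 
(.lf (nat_lit 464560) (.g (nat_lit 3046) (.e (nat_lit 3105) (nat_lit 192) (.e (nat_lit 491569) (nat_lit 13) (.e (nat_lit 393301) (nat_lit 27) (.e (nat_lit 491560) (nat_lit 10) (.e (nat_lit 344088) (nat_lit 18) .nil))))) (.g (nat_lit 0) (.e (nat_lit 73414) (nat_lit 0) .nil) .nil)))) (.nd (nat_lit 9) 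
(.lf (nat_lit 464304) (.g (nat_lit 2935) (.e (nat_lit 3098) (nat_lit 192) (.e (nat_lit 491569) (nat_lit 13) (.e (nat_lit 393301) (nat_lit 27) (.e (nat_lit 491560) (nat_lit 10) (.e (nat_lit 344094) (nat_lit 18) (.e (nat_lit 6923) (nat_lit 371) (.e (nat_lit 2448) (nat_lit 157) .nil))))))) (.g (nat_lit 1) (.e (nat_lit 73081) (nat_lit 0) .nil) .nil))) 
(.lf (nat_lit 464816) (.g (nat_lit 2381) (.e (nat_lit 3231) (nat_lit 197) (.e (nat_lit 532501) (nat_lit 1) (.e (nat_lit 57851) (nat_lit 252) (.e (nat_lit 57406) (nat_lit 12) (.e (nat_lit 336367) (nat_lit 27) .nil))))) (.g (nat_lit 0) (.e (nat_lit 73875) (nat_lit 0) .nil) .nil)))))) (.nd (nat_lit 7) (.nd (nat_lit 8) (.nd (nat_lit 9) 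
(.lf (nat_lit 463984) (.g (nat_lit 1690) (.e (nat_lit 3097) (nat_lit 192) (.e (nat_lit 491566) (nat_lit 12) (.e (nat_lit 385074) (nat_lit 31) (.e (nat_lit 573491) (nat_lit 15) .nil)))) (.g (nat_lit 0) (.e (nat_lit 72589) (nat_lit 0) .nil) .nil))) 
(.lf (nat_lit 464496) (.g (nat_lit 2361) (.e (nat_lit 3104) (nat_lit 192) (.e (nat_lit 491569) (nat_lit 13) (.e (nat_lit 393251) (nat_lit 18) (.e (nat_lit 164179) (nat_lit 154) .nil)))) (.g (nat_lit 0) (.e (nat_lit 73339) (nat_lit 0) .nil) .nil)))) (.nd (nat_lit 9) 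
(.lf (nat_lit 464240) (.g (nat_lit 2646) (.e (nat_lit 3098) (nat_lit 192) (.e (nat_lit 491569) (nat_lit 13) (.e (nat_lit 393301) (nat_lit 27) (.e (nat_lit 491560) (nat_lit 10) (.e (nat_lit 344088) (nat_lit 18) .nil))))) (.g (nat_lit 0) (.e (nat_lit 73017) (nat_lit 0) .nil) .nil))) 
(.lf (nat_lit 464752) (.g (nat_lit 3297) (.e (nat_lit 3230) (nat_lit 197) (.e (nat_lit 532535) (nat_lit 9) (.e (nat_lit 336099) (nat_lit 9) (.e (nat_lit 336013) (nat_lit 2) (.e (nat_lit 90165) (nat_lit 12) .nil))))) (.g (nat_lit 0) (.e (nat_lit 73789) (nat_lit 0) .nil) .nil))))) (.nd (nat_lit 8) (.nd (nat_lit 9) 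
(.lf (nat_lit 464112) (.g (nat_lit 2820) (.e (nat_lit 3098) (nat_lit 192) (.e (nat_lit 491566) (nat_lit 12) (.e (nat_lit 385072) (nat_lit 31) (.e (nat_lit 573492) (nat_lit 15) (.e (nat_lit 81953) (nat_lit 22) (.e (nat_lit 98048) (nat_lit 9) .nil)))))) (.g (nat_lit 1) (.e (nat_lit 72808) (nat_lit 0) .nil) .nil))) 
(.lf (nat_lit 464624) (.g (nat_lit 3510) (.e (nat_lit 3227) (nat_lit 197) (.e (nat_lit 532550) (nat_lit 12) (.e (nat_lit 360475) (nat_lit 8) (.e (nat_lit 557091) (nat_lit 12) .nil)))) (.g (nat_lit 0) (.e (nat_lit 73585) (nat_lit 0) .nil) .nil)))) (.nd (nat_lit 9) 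
(.lf (nat_lit 464368) (.g (nat_lit 2999) (.e (nat_lit 3099) (nat_lit 192) (.e (nat_lit 491566) (nat_lit 12) (.e (nat_lit 385073) (nat_lit 31) (.e (nat_lit 573493) (nat_lit 15) (.e (nat_lit 81962) (nat_lit 25) (.e (nat_lit 139289) (nat_lit 9) .nil)))))) (.g (nat_lit 1) (.e (nat_lit 73187) (nat_lit 0) .nil) .nil))) 
(.lf (nat_lit 464880) (.g (nat_lit 1691) (.e (nat_lit 3234) (nat_lit 197) (.e (nat_lit 532504) (nat_lit 1) (.e (nat_lit 57851) (nat_lit 252) (.e (nat_lit 57406) (nat_lit 12) .nil)))) (.g (nat_lit 0) (.e (nat_lit 74022) (nat_lit 0) .nil) .nil))))))))) (.nd (nat_lit 4) (.nd (nat_lit 5) (.nd (nat_lit 6) (.nd (nat_lit 7) (.nd (nat_lit 8) (.nd (nat_lit 9) 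
(.lf (nat_lit 463880) (.g (nat_lit 2238) (.e (nat_lit 3096) (nat_lit 192) (.e (nat_lit 491565) (nat_lit 12) (.e (nat_lit 385102) (nat_lit 50) (.e (nat_lit 786483) (nat_lit 30) (.e (nat_lit 360483) (nat_lit 15) (.e (nat_lit 647173) (nat_lit 0) .nil)))))) (.g (nat_lit 1) (.e (nat_lit 72441) (nat_lit 0) .nil) .nil))) 
(.lf (nat_lit 464392) (.g (nat_lit 1204) (.e (nat_lit 3102) (nat_lit 192) (.e (nat_lit 491558) (nat_lit 10) (.e (nat_lit 344115) (nat_lit 20) (.e (nat_lit 507907) (nat_lit 0) (.e (nat_lit 5410) (nat_lit 303) .nil))))) (.g (nat_lit 0) (.e (nat_lit 73228) (nat_lit 0) .nil) .nil)))) (.nd (nat_lit 9) 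
(.lf (nat_lit 464136) (.g (nat_lit 3098) (.e (nat_lit 3098) (nat_lit 192) (.e (nat_lit 491566) (nat_lit 12) (.e (nat_lit 385105) (nat_lit 50) (.e (nat_lit 786483) (nat_lit 30) (.e (nat_lit 360483) (nat_lit 15) (.e (nat_lit 647168) (nat_lit 0) .nil)))))) (.g (nat_lit 1) (.e (nat_lit 72909) (nat_lit 0) .nil) .nil))) 
(.lf (nat_lit 464648) (.g (nat_lit 1646) (.e (nat_lit 3230) (nat_lit 197) (.e (nat_lit 532500) (nat_lit 1) (.e (nat_lit 57851) (nat_lit 252) (.e (nat_lit 57408) (nat_lit 12) .nil)))) (.g (nat_lit 0) (.e (nat_lit 73619) (nat_lit 0) .nil) .nil))))) (.nd (nat_lit 8) (.nd (nat_lit 9) 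
(.lf (nat_lit 464008) (.g (nat_lit 4437) (.e (nat_lit 3098) (nat_lit 192) (.e (nat_lit 491537) (nat_lit 2) (.e (nat_lit 90170) (nat_lit 13) (.e (nat_lit 172106) (nat_lit 10) (.e (nat_lit 434227) (nat_lit 20) (.e (nat_lit 507928) (nat_lit 10) (.e (nat_lit 5628) (nat_lit 312) .nil))))))) (.g (nat_lit 1) (.e (nat_lit 72653) (nat_lit 0) .nil) .nil))) 
(.lf (nat_lit 464520) (.g (nat_lit 3274) (.e (nat_lit 3105) (nat_lit 192) (.e (nat_lit 491566) (nat_lit 12) (.e (nat_lit 385072) (nat_lit 31) (.e (nat_lit 573491) (nat_lit 15) (.e (nat_lit 81951) (nat_lit 22) (.e (nat_lit 90133) (nat_lit 9) .nil)))))) (.g (nat_lit 1) (.e (nat_lit 73368) (nat_lit 0) .nil) .nil)))) (.nd (nat_lit 9) 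
(.lf (nat_lit 464264) (.g (nat_lit 3483) (.e (nat_lit 3098) (nat_lit 192) (.e (nat_lit 491569) (nat_lit 13) (.e (nat_lit 393301) (nat_lit 27) (.e (nat_lit 491560) (nat_lit 10) (.e (nat_lit 344088) (nat_lit 18) (.e (nat_lit 6924) (nat_lit 371) (.e (nat_lit 2448) (nat_lit 157) .nil))))))) (.g (nat_lit 1) (.e (nat_lit 73041) (nat_lit 0) .nil) .nil))) 
(.lf (nat_lit 464776) (.g (nat_lit 5185) (.e (nat_lit 3230) (nat_lit 197) (.e (nat_lit 532550) (nat_lit 12) (.e (nat_lit 360474) (nat_lit 8) (.e (nat_lit 557093) (nat_lit 12) (.e (nat_lit 164022) (nat_lit 46) (.e (nat_lit 704738) (nat_lit 11) (.e (nat_lit 16397) (nat_lit 0) .nil))))))) (.g (nat_lit 1) (.e (nat_lit 73832) (nat_lit 0) .nil) .nil)))))) 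
(.nd (nat_lit 7) (.nd (nat_lit 8) (.nd (nat_lit 9) 
(.lf (nat_lit 463944) (.g (nat_lit 2928) (.e (nat_lit 3096) (nat_lit 192) (.e (nat_lit 491569) (nat_lit 13) (.e (nat_lit 393301) (nat_lit 27) (.e (nat_lit 491560) (nat_lit 10) (.e (nat_lit 344170) (nat_lit 41) .nil))))) (.g (nat_lit 0) (.e (nat_lit 72521) (nat_lit 0) .nil) .nil))) 
(.lf (nat_lit 464456) (.g (nat_lit 2791) (.e (nat_lit 3102) (nat_lit 192) (.e (nat_lit 491560) (nat_lit 10) (.e (nat_lit 344117) (nat_lit 21) (.e (nat_lit 516185) (nat_lit 16) (.e (nat_lit 491560) (nat_lit 10) (.e (nat_lit 344109) (nat_lit 19) (.e (nat_lit 499847) (nat_lit 5) .nil))))))) (.g (nat_lit 1) (.e (nat_lit 73294) (nat_lit 0) .nil) .nil)))) (.nd (nat_lit 9) 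
(.lf (nat_lit 464200) (.g (nat_lit 3404) (.e (nat_lit 3098) (nat_lit 192) (.e (nat_lit 491569) (nat_lit 13) (.e (nat_lit 393301) (nat_lit 27) (.e (nat_lit 491558) (nat_lit 10) (.e (nat_lit 344172) (nat_lit 41) (.e (nat_lit 753672) (nat_lit 5) .nil)))))) (.g (nat_lit 1) (.e (nat_lit 72977) (nat_lit 0) .nil) .nil))) 
(.lf (nat_lit 464712) (.g (nat_lit 2229) (.e (nat_lit 3230) (nat_lit 197) (.e (nat_lit 532503) (nat_lit 1) (.e (nat_lit 57931) (nat_lit 282) (.e (nat_lit 163874) (nat_lit 3) (.e (nat_lit 204854) (nat_lit 26) (.e (nat_lit 336019) (nat_lit 3) (.e (nat_lit 98341) (nat_lit 20) (.e (nat_lit 221197) (nat_lit 20) .nil)))))))) (.g (nat_lit 1) (.e (nat_lit 73698) (nat_lit 0) .nil) .nil))))) 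
(.nd (nat_lit 8) (.nd (nat_lit 9) 
(.lf (nat_lit 464072) (.g (nat_lit 5079) (.e (nat_lit 3098) (nat_lit 192) (.e (nat_lit 491562) (nat_lit 12) (.e (nat_lit 385074) (nat_lit 31) (.e (nat_lit 573485) (nat_lit 13) (.e (nat_lit 65604) (nat_lit 9) (.e (nat_lit 336013) (nat_lit 2) (.e (nat_lit 90134) (nat_lit 9) .nil))))))) (.g (nat_lit 1) (.e (nat_lit 72727) (nat_lit 0) .nil) .nil))) 
(.lf (nat_lit 464584) (.g (nat_lit 2730) (.e (nat_lit 3114) (nat_lit 193) (.e (nat_lit 500074) (nat_lit 20) (.e (nat_lit 81956) (nat_lit 23) (.e (nat_lit 98353) (nat_lit 25) (.e (nat_lit 417829) (nat_lit 18) (.e (nat_lit 303106) (nat_lit 0) .nil)))))) (.g (nat_lit 1) (.e (nat_lit 73461) (nat_lit 0) .nil) .nil)))) (.nd (nat_lit 9) 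
(.lf (nat_lit 464328) (.g (nat_lit 3791) (.e (nat_lit 3098) (nat_lit 192) (.e (nat_lit 491569) (nat_lit 13) (.e (nat_lit 393301) (nat_lit 27) (.e (nat_lit 491560) (nat_lit 10) (.e (nat_lit 344172) (nat_lit 41) (.e (nat_lit 753673) (nat_lit 5) .nil)))))) (.g (nat_lit 1) (.e (nat_lit 73105) (nat_lit 0) .nil) .nil))) 
(.lf (nat_lit 464840) (.g (nat_lit 4688) (.e (nat_lit 3231) (nat_lit 197) (.e (nat_lit 532550) (nat_lit 12) (.e (nat_lit 360475) (nat_lit 8) (.e (nat_lit 557089) (nat_lit 12) .nil)))) (.g (nat_lit 0) (.e (nat_lit 73938) (nat_lit 0) .nil) .nil))))))) (.nd (nat_lit 6) (.nd (nat_lit 7) (.nd (nat_lit 8) (.nd (nat_lit 9) 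
(.lf (nat_lit 463912) (.g (nat_lit 2436) (.e (nat_lit 3096) (nat_lit 192) (.e (nat_lit 491569) (nat_lit 13) (.e (nat_lit 393301) (nat_lit 27) (.e (nat_lit 491558) (nat_lit 10) (.e (nat_lit 344091) (nat_lit 18) .nil))))) (.g (nat_lit 0) (.e (nat_lit 72489) (nat_lit 0) .nil) .nil))) 
(.lf (nat_lit 464424) (.g (nat_lit 853) (.e (nat_lit 3102) (nat_lit 192) (.e (nat_lit 491560) (nat_lit 10) (.e (nat_lit 344115) (nat_lit 20) .nil))) (.g (nat_lit 0) (.e (nat_lit 73260) (nat_lit 0) .nil) .nil)))) (.nd (nat_lit 9) 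
(.lf (nat_lit 464168) (.g (nat_lit 2343) (.e (nat_lit 3098) (nat_lit 192) (.e (nat_lit 491569) (nat_lit 13) (.e (nat_lit 393301) (nat_lit 27) (.e (nat_lit 491558) (nat_lit 10) (.e (nat_lit 344090) (nat_lit 18) .nil))))) (.g (nat_lit 0) (.e (nat_lit 72945) (nat_lit 0) .nil) .nil))) 
(.lf (nat_lit 464680) (.g (nat_lit 2402) (.e (nat_lit 3230) (nat_lit 197) (.e (nat_lit 532503) (nat_lit 1) (.e (nat_lit 57931) (nat_lit 282) (.e (nat_lit 163866) (nat_lit 2) (.e (nat_lit 196670) (nat_lit 14) (.e (nat_lit 73746) (nat_lit 3) (.e (nat_lit 516129) (nat_lit 3) (.e (nat_lit 221202) (nat_lit 20) .nil)))))))) (.g (nat_lit 1) (.e (nat_lit 73660) (nat_lit 0) .nil) .nil))))) 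
(.nd (nat_lit 8) (.nd (nat_lit 9) 
(.lf (nat_lit 464040) (.g (nat_lit 600) (.e (nat_lit 3098) (nat_lit 192) (.e (nat_lit 491537) (nat_lit 2) (.e (nat_lit 90185) (nat_lit 17) .nil))) (.g (nat_lit 0) (.e (nat_lit 72685) (nat_lit 0) .nil) .nil))) 
(.lf (nat_lit 464552) (.g (nat_lit 3738) (.e (nat_lit 3105) (nat_lit 192) (.e (nat_lit 491569) (nat_lit 13) (.e (nat_lit 393301) (nat_lit 27) (.e (nat_lit 491559) (nat_lit 10) (.e (nat_lit 344091) (nat_lit 18) .nil))))) (.g (nat_lit 0) (.e (nat_lit 73406) (nat_lit 0) .nil) .nil)))) (.nd (nat_lit 9) 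
(.lf (nat_lit 464296) (.g (nat_lit 3548) (.e (nat_lit 3098) (nat_lit 192) (.e (nat_lit 491569) (nat_lit 13) (.e (nat_lit 393301) (nat_lit 27) (.e (nat_lit 491560) (nat_lit 10) (.e (nat_lit 344091) (nat_lit 18) (.e (nat_lit 6923) (nat_lit 371) (.e (nat_lit 2442) (nat_lit 157) .nil))))))) (.g (nat_lit 1) (.e (nat_lit 73073) (nat_lit 0) .nil) .nil))) 
(.lf (nat_lit 464808) (.g (nat_lit 2333) (.e (nat_lit 3230) (nat_lit 197) (.e (nat_lit 532560) (nat_lit 14) (.e (nat_lit 376869) (nat_lit 23) (.e (nat_lit 98350) (nat_lit 24) (.e (nat_lit 409649) (nat_lit 18) .nil))))) (.g (nat_lit 0) (.e (nat_lit 73867) (nat_lit 0) .nil) .nil)))))) (.nd (nat_lit 7) (.nd (nat_lit 8) (.nd (nat_lit 9) 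
(.lf (nat_lit 463976) (.g (nat_lit 2786) (.e (nat_lit 3097) (nat_lit 192) (.e (nat_lit 491566) (nat_lit 12) (.e (nat_lit 385072) (nat_lit 31) (.e (nat_lit 573492) (nat_lit 15) (.e (nat_lit 81953) (nat_lit 22) (.e (nat_lit 98048) (nat_lit 9) .nil)))))) (.g (nat_lit 1) (.e (nat_lit 72580) (nat_lit 0) .nil) .nil))) 
(.lf (nat_lit 464488) (.g (nat_lit 2268) (.e (nat_lit 3104) (nat_lit 192) (.e (nat_lit 491537) (nat_lit 2) (.e (nat_lit 90176) (nat_lit 15) (.e (nat_lit 188450) (nat_lit 23) (.e (nat_lit 204815) (nat_lit 17) (.e (nat_lit 6619) (nat_lit 357) .nil)))))) (.g (nat_lit 1) (.e (nat_lit 73331) (nat_lit 0) .nil) .nil)))) (.nd (nat_lit 9) 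
(.lf (nat_lit 464232) (.g (nat_lit 1407) (.e (nat_lit 3098) (nat_lit 192) (.e (nat_lit 491569) (nat_lit 13) (.e (nat_lit 393301) (nat_lit 27) (.e (nat_lit 491560) (nat_lit 10) .nil)))) (.g (nat_lit 0) (.e (nat_lit 73009) (nat_lit 0) .nil) .nil))) 
(.lf (nat_lit 464744) (.g (nat_lit 2134) (.e (nat_lit 3230) (nat_lit 197) (.e (nat_lit 532513) (nat_lit 3) (.e (nat_lit 114714) (nat_lit 22) (.e (nat_lit 90174) (nat_lit 14) (.e (nat_lit 180243) (nat_lit 5) .nil))))) (.g (nat_lit 0) (.e (nat_lit 73740) (nat_lit 0) .nil) .nil))))) (.nd (nat_lit 8) (.nd (nat_lit 9) 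
(.lf (nat_lit 464104) (.g (nat_lit 2894) (.e (nat_lit 3098) (nat_lit 192) (.e (nat_lit 491565) (nat_lit 12) (.e (nat_lit 385102) (nat_lit 50) (.e (nat_lit 786483) (nat_lit 30) (.e (nat_lit 360484) (nat_lit 15) (.e (nat_lit 647168) (nat_lit 0) .nil)))))) (.g (nat_lit 1) (.e (nat_lit 72762) (nat_lit 0) .nil) .nil))) 
(.lf (nat_lit 464616) (.g (nat_lit 4358) (.e (nat_lit 3205) (nat_lit 194) (.e (nat_lit 507946) (nat_lit 18) (.e (nat_lit 303146) (nat_lit 14) (.e (nat_lit 491537) (nat_lit 2) (.e (nat_lit 90178) (nat_lit 15) (.e (nat_lit 188440) (nat_lit 20) .nil)))))) (.g (nat_lit 1) (.e (nat_lit 73569) (nat_lit 0) .nil) .nil)))) (.nd (nat_lit 9) 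
(.lf (nat_lit 464360) (.g (nat_lit 529) (.e (nat_lit 3098) (nat_lit 192) (.e (nat_lit 491571) (nat_lit 13) (.e (nat_lit 393299) (nat_lit 27) .nil))) (.g (nat_lit 0) (.e (nat_lit 73170) (nat_lit 0) .nil) .nil))) 
(.lf (nat_lit 464872) (.g (nat_lit 3308) (.e (nat_lit 3234) (nat_lit 197) (.e (nat_lit 532501) (nat_lit 1) (.e (nat_lit 57851) (nat_lit 252) (.e (nat_lit 57406) (nat_lit 12) (.e (nat_lit 336367) (nat_lit 27) (.e (nat_lit 426542) (nat_lit 29) (.e (nat_lit 352267) (nat_lit 0) .nil))))))) (.g (nat_lit 1) (.e (nat_lit 74014) (nat_lit 0) .nil) .nil)))))))) 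
(.nd (nat_lit 5) (.nd (nat_lit 6) (.nd (nat_lit 7) (.nd (nat_lit 8) (.nd (nat_lit 9) 
(.lf (nat_lit 463896) (.g (nat_lit 2210) (.e (nat_lit 3096) (nat_lit 192) (.e (nat_lit 491566) (nat_lit 12) (.e (nat_lit 385104) (nat_lit 50) (.e (nat_lit 786483) (nat_lit 30) (.e (nat_lit 360483) (nat_lit 15) .nil))))) (.g (nat_lit 0) (.e (nat_lit 72473) (nat_lit 0) .nil) .nil))) 
(.lf (nat_lit 464408) (.g (nat_lit 1946) (.e (nat_lit 3102) (nat_lit 192) (.e (nat_lit 491558) (nat_lit 10) (.e (nat_lit 344115) (nat_lit 20) (.e (nat_lit 507908) (nat_lit 0) (.e (nat_lit 5412) (nat_lit 303) (.e (nat_lit 73739) (nat_lit 1) (.e (nat_lit 499844) (nat_lit 5) .nil))))))) (.g (nat_lit 1) (.e (nat_lit 73244) (nat_lit 0) .nil) .nil)))) (.nd (nat_lit 9) 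
(.lf (nat_lit 464152) (.g (nat_lit 3126) (.e (nat_lit 3098) (nat_lit 192) (.e (nat_lit 491568) (nat_lit 13) (.e (nat_lit 393301) (nat_lit 27) (.e (nat_lit 491560) (nat_lit 10) (.e (nat_lit 344172) (nat_lit 41) .nil))))) (.g (nat_lit 0) (.e (nat_lit 72926) (nat_lit 0) .nil) .nil))) 
(.lf (nat_lit 464664) (.g (nat_lit 3729) (.e (nat_lit 3230) (nat_lit 197) (.e (nat_lit 532503) (nat_lit 1) (.e (nat_lit 57847) (nat_lit 252) (.e (nat_lit 57411) (nat_lit 12) (.e (nat_lit 336454) (nat_lit 34) (.e (nat_lit 483385) (nat_lit 23) (.e (nat_lit 336260) (nat_lit 15) .nil))))))) (.g (nat_lit 1) (.e (nat_lit 73644) (nat_lit 0) .nil) .nil))))) (.nd (nat_lit 8) (.nd (nat_lit 9) 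
(.lf (nat_lit 464024) (.g (nat_lit 1267) (.e (nat_lit 3098) (nat_lit 192) (.e (nat_lit 491537) (nat_lit 2) (.e (nat_lit 90170) (nat_lit 13) (.e (nat_lit 172113) (nat_lit 10) .nil)))) (.g (nat_lit 0) (.e (nat_lit 72669) (nat_lit 0) .nil) .nil))) 
(.lf (nat_lit 464536) (.g (nat_lit 3227) (.e (nat_lit 3105) (nat_lit 192) (.e (nat_lit 491568) (nat_lit 13) (.e (nat_lit 393301) (nat_lit 27) (.e (nat_lit 491560) (nat_lit 10) (.e (nat_lit 344088) (nat_lit 18) .nil))))) (.g (nat_lit 0) (.e (nat_lit 73390) (nat_lit 0) .nil) .nil)))) (.nd (nat_lit 9) 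
(.lf (nat_lit 464280) (.g (nat_lit 3285) (.e (nat_lit 3098) (nat_lit 192) (.e (nat_lit 491569) (nat_lit 13) (.e (nat_lit 393301) (nat_lit 27) (.e (nat_lit 491560) (nat_lit 10) (.e (nat_lit 344090) (nat_lit 18) (.e (nat_lit 6853) (nat_lit 371) (.e (nat_lit 2450) (nat_lit 157) .nil))))))) (.g (nat_lit 1) (.e (nat_lit 73057) (nat_lit 0) .nil) .nil))) 
(.lf (nat_lit 464792) (.g (nat_lit 4855) (.e (nat_lit 3230) (nat_lit 197) (.e (nat_lit 532550) (nat_lit 12) (.e (nat_lit 360475) (nat_lit 8) (.e (nat_lit 557087) (nat_lit 11) .nil)))) (.g (nat_lit 0) (.e (nat_lit 73850) (nat_lit 0) .nil) .nil)))))) (.nd (nat_lit 7) (.nd (nat_lit 8) (.nd (nat_lit 9) 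
(.lf (nat_lit 463960) (.g (nat_lit 1953) (.e (nat_lit 3096) (nat_lit 192) (.e (nat_lit 491571) (nat_lit 13) (.e (nat_lit 393251) (nat_lit 18) (.e (nat_lit 164151) (nat_lit 152) .nil)))) (.g (nat_lit 0) (.e (nat_lit 72546) (nat_lit 0) .nil) .nil))) 
(.lf (nat_lit 464472) (.g (nat_lit 3482) (.e (nat_lit 3102) (nat_lit 192) (.e (nat_lit 491568) (nat_lit 13) (.e (nat_lit 393301) (nat_lit 27) (.e (nat_lit 491560) (nat_lit 10) (.e (nat_lit 344172) (nat_lit 41) .nil))))) (.g (nat_lit 0) (.e (nat_lit 73311) (nat_lit 0) .nil) .nil)))) (.nd (nat_lit 9) 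
(.lf (nat_lit 464216) (.g (nat_lit 3252) (.e (nat_lit 3098) (nat_lit 192) (.e (nat_lit 491569) (nat_lit 13) (.e (nat_lit 393301) (nat_lit 27) (.e (nat_lit 491559) (nat_lit 10) (.e (nat_lit 344096) (nat_lit 18) .nil))))) (.g (nat_lit 0) (.e (nat_lit 72993) (nat_lit 0) .nil) .nil))) 
(.lf (nat_lit 464728) (.g (nat_lit 2416) (.e (nat_lit 3230) (nat_lit 197) (.e (nat_lit 532504) (nat_lit 1) (.e (nat_lit 57851) (nat_lit 252) (.e (nat_lit 57406) (nat_lit 12) (.e (nat_lit 336456) (nat_lit 34) (.e (nat_lit 483379) (nat_lit 23) (.e (nat_lit 336261) (nat_lit 15) .nil))))))) (.g (nat_lit 1) (.e (nat_lit 73717) (nat_lit 0) .nil) .nil))))) (.nd (nat_lit 8) (.nd (nat_lit 9) 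
(.lf (nat_lit 464088) (.g (nat_lit 2667) (.e (nat_lit 3098) (nat_lit 192) (.e (nat_lit 491565) (nat_lit 12) (.e (nat_lit 385072) (nat_lit 31) (.e (nat_lit 573492) (nat_lit 15) (.e (nat_lit 81951) (nat_lit 22) (.e (nat_lit 90134) (nat_lit 9) .nil)))))) (.g (nat_lit 1) (.e (nat_lit 72744) (nat_lit 0) .nil) .nil))) 
(.lf (nat_lit 464600) (.g (nat_lit 2069) (.e (nat_lit 3135) (nat_lit 193) (.e (nat_lit 500046) (nat_lit 16) (.e (nat_lit 16416) (nat_lit 3) (.e (nat_lit 204813) (nat_lit 9) (.e (nat_lit 426138) (nat_lit 3) .nil))))) (.g (nat_lit 0) (.e (nat_lit 73486) (nat_lit 0) .nil) .nil)))) (.nd (nat_lit 9) 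
(.lf (nat_lit 464344) (.g (nat_lit 619) (.e (nat_lit 3098) (nat_lit 192) (.e (nat_lit 491571) (nat_lit 13) (.e (nat_lit 393252) (nat_lit 18) .nil))) (.g (nat_lit 0) (.e (nat_lit 73139) (nat_lit 0) .nil) .nil))) 
(.lf (nat_lit 464856) (.g (nat_lit 2181) (.e (nat_lit 3232) (nat_lit 197) (.e (nat_lit 532530) (nat_lit 9) (.e (nat_lit 336326) (nat_lit 18) (.e (nat_lit 204854) (nat_lit 26) (.e (nat_lit 336326) (nat_lit 18) .nil))))) (.g (nat_lit 0) (.e (nat_lit 73986) (nat_lit 0) .nil) .nil))))))) (.nd (nat_lit 6) (.nd (nat_lit 7) (.nd (nat_lit 8) (.nd (nat_lit 9) 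
(.lf (nat_lit 463928) (.g (nat_lit 3161) (.e (nat_lit 3096) (nat_lit 192) (.e (nat_lit 491569) (nat_lit 13) (.e (nat_lit 393301) (nat_lit 27) (.e (nat_lit 491559) (nat_lit 10) (.e (nat_lit 344171) (nat_lit 41) .nil))))) (.g (nat_lit 0) (.e (nat_lit 72505) (nat_lit 0) .nil) .nil))) 
(.lf (nat_lit 464440) (.g (nat_lit 5009) (.e (nat_lit 3102) (nat_lit 192) (.e (nat_lit 491560) (nat_lit 10) (.e (nat_lit 344115) (nat_lit 20) (.e (nat_lit 507923) (nat_lit 6) (.e (nat_lit 286747) (nat_lit 9) (.e (nat_lit 336013) (nat_lit 2) (.e (nat_lit 90141) (nat_lit 9) .nil))))))) (.g (nat_lit 1) (.e (nat_lit 73276) (nat_lit 0) .nil) .nil)))) (.nd (nat_lit 9) 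
(.lf (nat_lit 464184) (.g (nat_lit 2346) (.e (nat_lit 3098) (nat_lit 192) (.e (nat_lit 491569) (nat_lit 13) (.e (nat_lit 393301) (nat_lit 27) (.e (nat_lit 491558) (nat_lit 10) (.e (nat_lit 344095) (nat_lit 18) .nil))))) (.g (nat_lit 0) (.e (nat_lit 72961) (nat_lit 0) .nil) .nil))) 
(.lf (nat_lit 464696) (.g (nat_lit 2622) (.e (nat_lit 3230) (nat_lit 197) (.e (nat_lit 532503) (nat_lit 1) (.e (nat_lit 57931) (nat_lit 282) (.e (nat_lit 163869) (nat_lit 2) (.e (nat_lit 196668) (nat_lit 14) (.e (nat_lit 73747) (nat_lit 3) (.e (nat_lit 516129) (nat_lit 3) (.e (nat_lit 221195) (nat_lit 20) .nil)))))))) (.g (nat_lit 1) (.e (nat_lit 73680) (nat_lit 0) .nil) .nil))))) 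
(.nd (nat_lit 8) (.nd (nat_lit 9) 
(.lf (nat_lit 464056) (.g (nat_lit 3026) (.e (nat_lit 3098) (nat_lit 192) (.e (nat_lit 491548) (nat_lit 9) (.e (nat_lit 336019) (nat_lit 3) (.e (nat_lit 98350) (nat_lit 24) (.e (nat_lit 409649) (nat_lit 18) (.e (nat_lit 303111) (nat_lit 0) (.e (nat_lit 3272) (nat_lit 199) (.e (nat_lit 548898) (nat_lit 14) .nil)))))))) (.g (nat_lit 1) (.e (nat_lit 72702) (nat_lit 0) .nil) .nil))) 
(.lf (nat_lit 464568) (.g (nat_lit 3850) (.e (nat_lit 3106) (nat_lit 192) (.e (nat_lit 491566) (nat_lit 12) (.e (nat_lit 385074) (nat_lit 31) (.e (nat_lit 573493) (nat_lit 15) (.e (nat_lit 81951) (nat_lit 22) .nil))))) (.g (nat_lit 0) (.e (nat_lit 73439) (nat_lit 0) .nil) .nil)))) (.nd (nat_lit 9) 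
(.lf (nat_lit 464312) (.g (nat_lit 3593) (.e (nat_lit 3098) (nat_lit 192) (.e (nat_lit 491569) (nat_lit 13) (.e (nat_lit 393301) (nat_lit 27) (.e (nat_lit 491560) (nat_lit 10) (.e (nat_lit 344097) (nat_lit 18) (.e (nat_lit 6875) (nat_lit 371) (.e (nat_lit 2443) (nat_lit 157) .nil))))))) (.g (nat_lit 1) (.e (nat_lit 73089) (nat_lit 0) .nil) .nil))) 
(.lf (nat_lit 464824) (.g (nat_lit 2835) (.e (nat_lit 3231) (nat_lit 197) (.e (nat_lit 532504) (nat_lit 1) (.e (nat_lit 57852) (nat_lit 252) (.e (nat_lit 57406) (nat_lit 12) (.e (nat_lit 336367) (nat_lit 27) .nil))))) (.g (nat_lit 0) (.e (nat_lit 73883) (nat_lit 0) .nil) .nil)))))) (.nd (nat_lit 7) (.nd (nat_lit 8) (.nd (nat_lit 9) 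
(.lf (nat_lit 463992) (.g (nat_lit 2671) (.e (nat_lit 3097) (nat_lit 192) (.e (nat_lit 491566) (nat_lit 12) (.e (nat_lit 385105) (nat_lit 50) (.e (nat_lit 786483) (nat_lit 30) (.e (nat_lit 360483) (nat_lit 15) (.e (nat_lit 647168) (nat_lit 0) .nil)))))) (.g (nat_lit 1) (.e (nat_lit 72618) (nat_lit 0) .nil) .nil))) 
(.lf (nat_lit 464504) (.g (nat_lit 3552) (.e (nat_lit 3104) (nat_lit 192) (.e (nat_lit 491569) (nat_lit 13) (.e (nat_lit 393301) (nat_lit 27) (.e (nat_lit 491560) (nat_lit 10) (.e (nat_lit 344087) (nat_lit 18) .nil))))) (.g (nat_lit 0) (.e (nat_lit 73347) (nat_lit 0) .nil) .nil)))) (.nd (nat_lit 9) 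
(.lf (nat_lit 464248) (.g (nat_lit 4185) (.e (nat_lit 3098) (nat_lit 192) (.e (nat_lit 491569) (nat_lit 13) (.e (nat_lit 393301) (nat_lit 27) (.e (nat_lit 491560) (nat_lit 10) (.e (nat_lit 344088) (nat_lit 18) (.e (nat_lit 6852) (nat_lit 371) (.e (nat_lit 2450) (nat_lit 157) .nil))))))) (.g (nat_lit 1) (.e (nat_lit 73025) (nat_lit 0) .nil) .nil))) 
(.lf (nat_lit 464760) (.g (nat_lit 3525) (.e (nat_lit 3230) (nat_lit 197) (.e (nat_lit 532535) (nat_lit 9) (.e (nat_lit 336099) (nat_lit 9) (.e (nat_lit 336028) (nat_lit 3) (.e (nat_lit 98349) (nat_lit 24) (.e (nat_lit 417536) (nat_lit 18) (.e (nat_lit 303112) (nat_lit 0) .nil))))))) (.g (nat_lit 1) (.e (nat_lit 73799) (nat_lit 0) .nil) .nil))))) (.nd (nat_lit 8) (.nd (nat_lit 9) 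
(.lf (nat_lit 464120) (.g (nat_lit 3615) (.e (nat_lit 3098) (nat_lit 192) (.e (nat_lit 491566) (nat_lit 12) (.e (nat_lit 385074) (nat_lit 31) (.e (nat_lit 573479) (nat_lit 13) (.e (nat_lit 65604) (nat_lit 9) (.e (nat_lit 336013) (nat_lit 2) (.e (nat_lit 90134) (nat_lit 9) .nil))))))) (.g (nat_lit 1) (.e (nat_lit 72834) (nat_lit 0) .nil) .nil))) 
(.lf (nat_lit 464632) (.g (nat_lit 7355) (.e (nat_lit 3228) (nat_lit 197) (.e (nat_lit 532550) (nat_lit 12) (.e (nat_lit 360475) (nat_lit 8) (.e (nat_lit 557090) (nat_lit 12) .nil)))) (.g (nat_lit 0) (.e (nat_lit 73594) (nat_lit 0) .nil) .nil)))) (.nd (nat_lit 9) 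
(.lf (nat_lit 464376) (.g (nat_lit 7006) (.e (nat_lit 3100) (nat_lit 192) (.e (nat_lit 491563) (nat_lit 12) (.e (nat_lit 385072) (nat_lit 31) (.e (nat_lit 573493) (nat_lit 15) (.e (nat_lit 81962) (nat_lit 25) (.e (nat_lit 139289) (nat_lit 9) .nil)))))) (.g (nat_lit 1) (.e (nat_lit 73208) (nat_lit 0) .nil) .nil))) 
(.lf (nat_lit 464888) (.g (nat_lit 3006) (.e (nat_lit 3234) (nat_lit 197) (.e (nat_lit 532535) (nat_lit 9) (.e (nat_lit 336099) (nat_lit 9) (.e (nat_lit 336013) (nat_lit 2) .nil)))) (.g (nat_lit 0) (.e (nat_lit 74067) (nat_lit 0) .nil) .nil)))))))))) (.nd (nat_lit 3) (.nd (nat_lit 4) (.nd (nat_lit 5) (.nd (nat_lit 6) (.nd (nat_lit 7) (.nd (nat_lit 8) (.nd (nat_lit 9) 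
(.lf (nat_lit 463876) (.g (nat_lit 2621) (.e (nat_lit 3096) (nat_lit 192) (.e (nat_lit 491564) (nat_lit 12) (.e (nat_lit 385074) (nat_lit 31) (.e (nat_lit 573491) (nat_lit 15) (.e (nat_lit 81951) (nat_lit 22) .nil))))) (.g (nat_lit 0) (.e (nat_lit 72436) (nat_lit 0) .nil) .nil))) 
(.lf (nat_lit 464388) (.g (nat_lit 1743) (.e (nat_lit 3102) (nat_lit 192) (.e (nat_lit 491558) (nat_lit 10) (.e (nat_lit 344115) (nat_lit 20) (.e (nat_lit 507906) (nat_lit 0) (.e (nat_lit 5412) (nat_lit 303) (.e (nat_lit 73739) (nat_lit 1) (.e (nat_lit 499840) (nat_lit 5) .nil))))))) (.g (nat_lit 1) (.e (nat_lit 73224) (nat_lit 0) .nil) .nil)))) (.nd (nat_lit 9) 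
(.lf (nat_lit 464132) (.g (nat_lit 3232) (.e (nat_lit 3098) (nat_lit 192) (.e (nat_lit 491566) (nat_lit 12) (.e (nat_lit 385104) (nat_lit 50) (.e (nat_lit 786483) (nat_lit 30) (.e (nat_lit 360483) (nat_lit 15) (.e (nat_lit 647168) (nat_lit 0) .nil)))))) (.g (nat_lit 1) (.e (nat_lit 72904) (nat_lit 0) .nil) .nil))) 
(.lf (nat_lit 464644) (.g (nat_lit 2161) (.e (nat_lit 3230) (nat_lit 197) (.e (nat_lit 532499) (nat_lit 1) (.e (nat_lit 57927) (nat_lit 282) (.e (nat_lit 163869) (nat_lit 2) (.e (nat_lit 196670) (nat_lit 14) (.e (nat_lit 73746) (nat_lit 3) (.e (nat_lit 516129) (nat_lit 3) (.e (nat_lit 221202) (nat_lit 20) .nil)))))))) (.g (nat_lit 1) (.e (nat_lit 73615) (nat_lit 0) .nil) .nil))))) 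
(.nd (nat_lit 8) (.nd (nat_lit 9) 
(.lf (nat_lit 464004) (.g (nat_lit 1023) (.e (nat_lit 3097) (nat_lit 192) (.e (nat_lit 491571) (nat_lit 13) (.e (nat_lit 393252) (nat_lit 18) .nil))) (.g (nat_lit 0) (.e (nat_lit 72636) (nat_lit 0) .nil) .nil))) 
(.lf (nat_lit 464516) (.g (nat_lit 3554) (.e (nat_lit 3105) (nat_lit 192) (.e (nat_lit 491564) (nat_lit 12) (.e (nat_lit 385074) (nat_lit 31) (.e (nat_lit 573493) (nat_lit 15) (.e (nat_lit 81953) (nat_lit 22) (.e (nat_lit 90133) (nat_lit 9) .nil)))))) (.g (nat_lit 1) (.e (nat_lit 73364) (nat_lit 0) .nil) .nil)))) (.nd (nat_lit 9) 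
(.lf (nat_lit 464260) (.g (nat_lit 4010) (.e (nat_lit 3098) (nat_lit 192) (.e (nat_lit 491569) (nat_lit 13) (.e (nat_lit 393301) (nat_lit 27) (.e (nat_lit 491560) (nat_lit 10) (.e (nat_lit 344088) (nat_lit 18) (.e (nat_lit 6916) (nat_lit 371) (.e (nat_lit 2448) (nat_lit 157) .nil))))))) (.g (nat_lit 1) (.e (nat_lit 73037) (nat_lit 0) .nil) .nil))) 
(.lf (nat_lit 464772) (.g (nat_lit 4417) (.e (nat_lit 3230) (nat_lit 197) (.e (nat_lit 532550) (nat_lit 12) (.e (nat_lit 360474) (nat_lit 8) (.e (nat_lit 557093) (nat_lit 12) (.e (nat_lit 164022) (nat_lit 46) (.e (nat_lit 704737) (nat_lit 11) (.e (nat_lit 16400) (nat_lit 0) .nil))))))) (.g (nat_lit 1) (.e (nat_lit 73828) (nat_lit 0) .nil) .nil)))))) 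
(.nd (nat_lit 7) (.nd (nat_lit 8) (.nd (nat_lit 9) 
(.lf (nat_lit 463940) (.g (nat_lit 3071) (.e (nat_lit 3096) (nat_lit 192) (.e (nat_lit 491569) (nat_lit 13) (.e (nat_lit 393301) (nat_lit 27) (.e (nat_lit 491560) (nat_lit 10) (.e (nat_lit 344090) (nat_lit 18) (.e (nat_lit 6923) (nat_lit 371) (.e (nat_lit 2427) (nat_lit 157) .nil))))))) (.g (nat_lit 1) (.e (nat_lit 72517) (nat_lit 0) .nil) .nil))) 
(.lf (nat_lit 464452) (.g (nat_lit 3198) (.e (nat_lit 3102) (nat_lit 192) (.e (nat_lit 491560) (nat_lit 10) (.e (nat_lit 344117) (nat_lit 21) (.e (nat_lit 516185) (nat_lit 16) (.e (nat_lit 491560) (nat_lit 10) (.e (nat_lit 344107) (nat_lit 19) (.e (nat_lit 499811) (nat_lit 5) .nil))))))) (.g (nat_lit 1) (.e (nat_lit 73290) (nat_lit 0) .nil) .nil)))) (.nd (nat_lit 9) 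
(.lf (nat_lit 464196) (.g (nat_lit 3022) (.e (nat_lit 3098) (nat_lit 192) (.e (nat_lit 491569) (nat_lit 13) (.e (nat_lit 393301) (nat_lit 27) (.e (nat_lit 491558) (nat_lit 10) (.e (nat_lit 344170) (nat_lit 41) (.e (nat_lit 753674) (nat_lit 5) .nil)))))) (.g (nat_lit 1) (.e (nat_lit 72973) (nat_lit 0) .nil) .nil))) 
(.lf (nat_lit 464708) (.g (nat_lit 2982) (.e (nat_lit 3230) (nat_lit 197) (.e (nat_lit 532503) (nat_lit 1) (.e (nat_lit 57931) (nat_lit 282) (.e (nat_lit 163873) (nat_lit 3) (.e (nat_lit 204853) (nat_lit 26) (.e (nat_lit 336019) (nat_lit 3) (.e (nat_lit 98342) (nat_lit 20) (.e (nat_lit 221198) (nat_lit 20) .nil)))))))) (.g (nat_lit 1) (.e (nat_lit 73692) (nat_lit 0) .nil) .nil))))) 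
(.nd (nat_lit 8) (.nd (nat_lit 9) 
(.lf (nat_lit 464068) (.g (nat_lit 2610) (.e (nat_lit 3098) (nat_lit 192) (.e (nat_lit 491556) (nat_lit 9) (.e (nat_lit 336017) (nat_lit 3) (.e (nat_lit 98350) (nat_lit 24) (.e (nat_lit 409648) (nat_lit 18) (.e (nat_lit 303108) (nat_lit 0) (.e (nat_lit 3272) (nat_lit 199) (.e (nat_lit 548898) (nat_lit 14) .nil)))))))) (.g (nat_lit 1) (.e (nat_lit 72723) (nat_lit 0) .nil) .nil))) 
(.lf (nat_lit 464580) (.g (nat_lit 2279) (.e (nat_lit 3114) (nat_lit 193) (.e (nat_lit 500074) (nat_lit 20) (.e (nat_lit 81953) (nat_lit 22) (.e (nat_lit 90130) (nat_lit 9) (.e (nat_lit 2830) (nat_lit 182) .nil))))) (.g (nat_lit 0) (.e (nat_lit 73457) (nat_lit 0) .nil) .nil)))) (.nd (nat_lit 9) 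
(.lf (nat_lit 464324) (.g (nat_lit 3612) (.e (nat_lit 3098) (nat_lit 192) (.e (nat_lit 491569) (nat_lit 13) (.e (nat_lit 393301) (nat_lit 27) (.e (nat_lit 491560) (nat_lit 10) (.e (nat_lit 344171) (nat_lit 41) (.e (nat_lit 753672) (nat_lit 5) .nil)))))) (.g (nat_lit 1) (.e (nat_lit 73101) (nat_lit 0) .nil) .nil))) 
(.lf (nat_lit 464836) (.g (nat_lit 3981) (.e (nat_lit 3231) (nat_lit 197) (.e (nat_lit 532550) (nat_lit 12) (.e (nat_lit 360474) (nat_lit 8) (.e (nat_lit 557094) (nat_lit 12) .nil)))) (.g (nat_lit 0) (.e (nat_lit 73932) (nat_lit 0) .nil) .nil))))))) (.nd (nat_lit 6) (.nd (nat_lit 7) (.nd (nat_lit 8) (.nd (nat_lit 9) 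
(.lf (nat_lit 463908) (.g (nat_lit 1284) (.e (nat_lit 3096) (nat_lit 192) (.e (nat_lit 491569) (nat_lit 13) (.e (nat_lit 393301) (nat_lit 27) (.e (nat_lit 491558) (nat_lit 10) .nil)))) (.g (nat_lit 0) (.e (nat_lit 72485) (nat_lit 0) .nil) .nil))) 
(.lf (nat_lit 464420) (.g (nat_lit 1293) (.e (nat_lit 3102) (nat_lit 192) (.e (nat_lit 491559) (nat_lit 10) (.e (nat_lit 344126) (nat_lit 25) (.e (nat_lit 548873) (nat_lit 5) (.e (nat_lit 1562) (nat_lit 110) .nil))))) (.g (nat_lit 0) (.e (nat_lit 73256) (nat_lit 0) .nil) .nil)))) (.nd (nat_lit 9) 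
(.lf (nat_lit 464164) (.g (nat_lit 3263) (.e (nat_lit 3098) (nat_lit 192) (.e (nat_lit 491569) (nat_lit 13) (.e (nat_lit 393301) (nat_lit 27) (.e (nat_lit 491558) (nat_lit 10) (.e (nat_lit 344088) (nat_lit 18) (.e (nat_lit 6852) (nat_lit 371) (.e (nat_lit 2450) (nat_lit 157) .nil))))))) (.g (nat_lit 1) (.e (nat_lit 72941) (nat_lit 0) .nil) .nil))) 
(.lf (nat_lit 464676) (.g (nat_lit 2261) (.e (nat_lit 3230) (nat_lit 197) (.e (nat_lit 532503) (nat_lit 1) (.e (nat_lit 57930) (nat_lit 282) (.e (nat_lit 163867) (nat_lit 2) (.e (nat_lit 196670) (nat_lit 14) (.e (nat_lit 73746) (nat_lit 3) (.e (nat_lit 516129) (nat_lit 3) (.e (nat_lit 221196) (nat_lit 20) .nil)))))))) (.g (nat_lit 1) (.e (nat_lit 73656) (nat_lit 0) .nil) .nil))))) 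
(.nd (nat_lit 8) (.nd (nat_lit 9) 
(.lf (nat_lit 464036) (.g (nat_lit 3160) (.e (nat_lit 3098) (nat_lit 192) (.e (nat_lit 491537) (nat_lit 2) (.e (nat_lit 90176) (nat_lit 15) (.e (nat_lit 188450) (nat_lit 23) (.e (nat_lit 204816) (nat_lit 17) (.e (nat_lit 6619) (nat_lit 357) .nil)))))) (.g (nat_lit 1) (.e (nat_lit 72681) (nat_lit 0) .nil) .nil))) 
(.lf (nat_lit 464548) (.g (nat_lit 2861) (.e (nat_lit 3105) (nat_lit 192) (.e (nat_lit 491569) (nat_lit 13) (.e (nat_lit 393301) (nat_lit 27) (.e (nat_lit 491558) (nat_lit 10) (.e (nat_lit 344096) (nat_lit 18) .nil))))) (.g (nat_lit 0) (.e (nat_lit 73402) (nat_lit 0) .nil) .nil)))) (.nd (nat_lit 9) 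
(.lf (nat_lit 464292) (.g (nat_lit 3817) (.e (nat_lit 3098) (nat_lit 192) (.e (nat_lit 491569) (nat_lit 13) (.e (nat_lit 393301) (nat_lit 27) (.e (nat_lit 491560) (nat_lit 10) (.e (nat_lit 344091) (nat_lit 18) (.e (nat_lit 6853) (nat_lit 371) (.e (nat_lit 2450) (nat_lit 157) .nil))))))) (.g (nat_lit 1) (.e (nat_lit 73069) (nat_lit 0) .nil) .nil))) 
(.lf (nat_lit 464804) (.g (nat_lit 3926) (.e (nat_lit 3230) (nat_lit 197) (.e (nat_lit 532550) (nat_lit 12) (.e (nat_lit 360475) (nat_lit 8) (.e (nat_lit 557091) (nat_lit 12) (.e (nat_lit 164022) (nat_lit 46) (.e (nat_lit 704738) (nat_lit 11) (.e (nat_lit 16385) (nat_lit 0) .nil))))))) (.g (nat_lit 1) (.e (nat_lit 73862) (nat_lit 0) .nil) .nil)))))) 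
(.nd (nat_lit 7) (.nd (nat_lit 8) (.nd (nat_lit 9) 
(.lf (nat_lit 463972) (.g (nat_lit 2348) (.e (nat_lit 3097) (nat_lit 192) (.e (nat_lit 491566) (nat_lit 12) (.e (nat_lit 385072) (nat_lit 31) (.e (nat_lit 573492) (nat_lit 15) (.e (nat_lit 81951) (nat_lit 22) (.e (nat_lit 90134) (nat_lit 9) .nil)))))) (.g (nat_lit 1) (.e (nat_lit 72576) (nat_lit 0) .nil) .nil))) 
(.lf (nat_lit 464484) (.g (nat_lit 1017) (.e (nat_lit 3103) (nat_lit 192) (.e (nat_lit 491571) (nat_lit 13) (.e (nat_lit 393235) (nat_lit 17) .nil))) (.g (nat_lit 0) (.e (nat_lit 73326) (nat_lit 0) .nil) .nil)))) (.nd (nat_lit 9) 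
(.lf (nat_lit 464228) (.g (nat_lit 3653) (.e (nat_lit 3098) (nat_lit 192) (.e (nat_lit 491569) (nat_lit 13) (.e (nat_lit 393301) (nat_lit 27) (.e (nat_lit 491559) (nat_lit 10) (.e (nat_lit 344172) (nat_lit 41) (.e (nat_lit 753671) (nat_lit 5) .nil)))))) (.g (nat_lit 1) (.e (nat_lit 73005) (nat_lit 0) .nil) .nil))) 
(.lf (nat_lit 464740) (.g (nat_lit 1000) (.e (nat_lit 3230) (nat_lit 197) (.e (nat_lit 532504) (nat_lit 1) (.e (nat_lit 57851) (nat_lit 252) (.e (nat_lit 57446) (nat_lit 19) .nil)))) (.g (nat_lit 0) (.e (nat_lit 73729) (nat_lit 0) .nil) .nil))))) (.nd (nat_lit 8) (.nd (nat_lit 9) 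
(.lf (nat_lit 464100) (.g (nat_lit 4034) (.e (nat_lit 3098) (nat_lit 192) (.e (nat_lit 491565) (nat_lit 12) (.e (nat_lit 385074) (nat_lit 31) (.e (nat_lit 573491) (nat_lit 15) (.e (nat_lit 81951) (nat_lit 22) (.e (nat_lit 90134) (nat_lit 9) .nil)))))) (.g (nat_lit 1) (.e (nat_lit 72758) (nat_lit 0) .nil) .nil))) 
(.lf (nat_lit 464612) (.g (nat_lit 3006) (.e (nat_lit 3166) (nat_lit 193) (.e (nat_lit 500076) (nat_lit 20) (.e (nat_lit 81956) (nat_lit 23) (.e (nat_lit 98350) (nat_lit 24) (.e (nat_lit 409649) (nat_lit 18) .nil))))) (.g (nat_lit 0) (.e (nat_lit 73520) (nat_lit 0) .nil) .nil)))) (.nd (nat_lit 9) 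
(.lf (nat_lit 464356) (.g (nat_lit 3313) (.e (nat_lit 3098) (nat_lit 192) (.e (nat_lit 491571) (nat_lit 13) (.e (nat_lit 393260) (nat_lit 21) (.e (nat_lit 409649) (nat_lit 18) .nil)))) (.g (nat_lit 0) (.e (nat_lit 73161) (nat_lit 0) .nil) .nil))) 
(.lf (nat_lit 464868) (.g (nat_lit 5292) (.e (nat_lit 3232) (nat_lit 197) (.e (nat_lit 532550) (nat_lit 12) (.e (nat_lit 360475) (nat_lit 8) (.e (nat_lit 557091) (nat_lit 12) (.e (nat_lit 164022) (nat_lit 46) (.e (nat_lit 704738) (nat_lit 11) (.e (nat_lit 16401) (nat_lit 0) .nil))))))) (.g (nat_lit 1) (.e (nat_lit 74004) (nat_lit 0) .nil) .nil)))))))) 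
(.nd (nat_lit 5) (.nd (nat_lit 6) (.nd (nat_lit 7) (.nd (nat_lit 8) (.nd (nat_lit 9) 
(.lf (nat_lit 463892) (.g (nat_lit 4949) (.e (nat_lit 3096) (nat_lit 192) (.e (nat_lit 491566) (nat_lit 12) (.e (nat_lit 385074) (nat_lit 31) (.e (nat_lit 573485) (nat_lit 13) (.e (nat_lit 65604) (nat_lit 9) (.e (nat_lit 336013) (nat_lit 2) (.e (nat_lit 90134) (nat_lit 9) .nil))))))) (.g (nat_lit 1) (.e (nat_lit 72457) (nat_lit 0) .nil) .nil))) 
(.lf (nat_lit 464404) (.g (nat_lit 1965) (.e (nat_lit 3102) (nat_lit 192) (.e (nat_lit 491558) (nat_lit 10) (.e (nat_lit 344115) (nat_lit 20) (.e (nat_lit 507908) (nat_lit 0) (.e (nat_lit 5410) (nat_lit 303) (.e (nat_lit 73743) (nat_lit 1) (.e (nat_lit 499846) (nat_lit 5) .nil))))))) (.g (nat_lit 1) (.e (nat_lit 73240) (nat_lit 0) .nil) .nil)))) (.nd (nat_lit 9) 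
(.lf (nat_lit 464148) (.g (nat_lit 3325) (.e (nat_lit 3098) (nat_lit 192) (.e (nat_lit 491568) (nat_lit 13) (.e (nat_lit 393301) (nat_lit 27) (.e (nat_lit 491560) (nat_lit 10) (.e (nat_lit 344096) (nat_lit 18) (.e (nat_lit 6869) (nat_lit 371) (.e (nat_lit 2445) (nat_lit 157) .nil))))))) (.g (nat_lit 1) (.e (nat_lit 72922) (nat_lit 0) .nil) .nil))) 
(.lf (nat_lit 464660) (.g (nat_lit 546) (.e (nat_lit 3230) (nat_lit 197) (.e (nat_lit 532503) (nat_lit 1) (.e (nat_lit 57846) (nat_lit 252) .nil))) (.g (nat_lit 0) (.e (nat_lit 73640) (nat_lit 0) .nil) .nil))))) (.nd (nat_lit 8) (.nd (nat_lit 9) 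
(.lf (nat_lit 464020) (.g (nat_lit 3515) (.e (nat_lit 3098) (nat_lit 192) (.e (nat_lit 491537) (nat_lit 2) (.e (nat_lit 90170) (nat_lit 13) (.e (nat_lit 172106) (nat_lit 10) (.e (nat_lit 434231) (nat_lit 23) (.e (nat_lit 532482) (nat_lit 0) (.e (nat_lit 6637) (nat_lit 357) .nil))))))) (.g (nat_lit 1) (.e (nat_lit 72665) (nat_lit 0) .nil) .nil))) 
(.lf (nat_lit 464532) (.g (nat_lit 3848) (.e (nat_lit 3105) (nat_lit 192) (.e (nat_lit 491566) (nat_lit 12) (.e (nat_lit 385105) (nat_lit 50) (.e (nat_lit 786483) (nat_lit 30) (.e (nat_lit 360484) (nat_lit 15) (.e (nat_lit 647168) (nat_lit 0) .nil)))))) (.g (nat_lit 1) (.e (nat_lit 73386) (nat_lit 0) .nil) .nil)))) (.nd (nat_lit 9) 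
(.lf (nat_lit 464276) (.g (nat_lit 3076) (.e (nat_lit 3098) (nat_lit 192) (.e (nat_lit 491569) (nat_lit 13) (.e (nat_lit 393301) (nat_lit 27) (.e (nat_lit 491560) (nat_lit 10) (.e (nat_lit 344090) (nat_lit 18) (.e (nat_lit 6848) (nat_lit 371) (.e (nat_lit 2440) (nat_lit 157) .nil))))))) (.g (nat_lit 1) (.e (nat_lit 73053) (nat_lit 0) .nil) .nil))) 
(.lf (nat_lit 464788) (.g (nat_lit 4868) (.e (nat_lit 3230) (nat_lit 197) (.e (nat_lit 532550) (nat_lit 12) (.e (nat_lit 360474) (nat_lit 8) (.e (nat_lit 557094) (nat_lit 12) (.e (nat_lit 164022) (nat_lit 46) (.e (nat_lit 704738) (nat_lit 11) (.e (nat_lit 16397) (nat_lit 0) .nil))))))) (.g (nat_lit 1) (.e (nat_lit 73844) (nat_lit 0) .nil) .nil)))))) 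
(.nd (nat_lit 7) (.nd (nat_lit 8) (.nd (nat_lit 9) 
(.lf (nat_lit 463956) (.g (nat_lit 838) (.e (nat_lit 3096) (nat_lit 192) (.e (nat_lit 491571) (nat_lit 13) (.e (nat_lit 393232) (nat_lit 17) .nil))) (.g (nat_lit 0) (.e (nat_lit 72535) (nat_lit 0) .nil) .nil))) 
(.lf (nat_lit 464468) (.g (nat_lit 2696) (.e (nat_lit 3102) (nat_lit 192) (.e (nat_lit 491568) (nat_lit 13) (.e (nat_lit 393301) (nat_lit 27) (.e (nat_lit 491558) (nat_lit 10) (.e (nat_lit 344171) (nat_lit 41) .nil))))) (.g (nat_lit 0) (.e (nat_lit 73307) (nat_lit 0) .nil) .nil)))) (.nd (nat_lit 9) 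
(.lf (nat_lit 464212) (.g (nat_lit 4726) (.e (nat_lit 3098) (nat_lit 192) (.e (nat_lit 491569) (nat_lit 13) (.e (nat_lit 393301) (nat_lit 27) (.e (nat_lit 491559) (nat_lit 10) (.e (nat_lit 344091) (nat_lit 18) (.e (nat_lit 6923) (nat_lit 371) (.e (nat_lit 2448) (nat_lit 157) .nil))))))) (.g (nat_lit 1) (.e (nat_lit 72989) (nat_lit 0) .nil) .nil))) 
(.lf (nat_lit 464724) (.g (nat_lit 2439) (.e (nat_lit 3230) (nat_lit 197) (.e (nat_lit 532504) (nat_lit 1) (.e (nat_lit 57851) (nat_lit 252) (.e (nat_lit 57406) (nat_lit 12) (.e (nat_lit 336456) (nat_lit 34) (.e (nat_lit 483379) (nat_lit 23) (.e (nat_lit 336243) (nat_lit 15) .nil))))))) (.g (nat_lit 1) (.e (nat_lit 73713) (nat_lit 0) .nil) .nil))))) (.nd (nat_lit 8) (.nd (nat_lit 9) 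
(.lf (nat_lit 464084) (.g (nat_lit 4606) (.e (nat_lit 3098) (nat_lit 192) (.e (nat_lit 491565) (nat_lit 12) (.e (nat_lit 385072) (nat_lit 31) (.e (nat_lit 573481) (nat_lit 13) (.e (nat_lit 65604) (nat_lit 9) (.e (nat_lit 336013) (nat_lit 2) (.e (nat_lit 90134) (nat_lit 9) .nil))))))) (.g (nat_lit 1) (.e (nat_lit 72740) (nat_lit 0) .nil) .nil))) 
(.lf (nat_lit 464596) (.g (nat_lit 2385) (.e (nat_lit 3130) (nat_lit 193) (.e (nat_lit 500046) (nat_lit 16) (.e (nat_lit 16463) (nat_lit 13) (.e (nat_lit 483341) (nat_lit 9) (.e (nat_lit 426108) (nat_lit 1) .nil))))) (.g (nat_lit 0) (.e (nat_lit 73482) (nat_lit 0) .nil) .nil)))) (.nd (nat_lit 9) 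
(.lf (nat_lit 464340) (.g (nat_lit 4925) (.e (nat_lit 3098) (nat_lit 192) (.e (nat_lit 491571) (nat_lit 13) (.e (nat_lit 393251) (nat_lit 18) (.e (nat_lit 164179) (nat_lit 154) (.e (nat_lit 57421) (nat_lit 13) (.e (nat_lit 344132) (nat_lit 26) (.e (nat_lit 557072) (nat_lit 9) .nil))))))) (.g (nat_lit 1) (.e (nat_lit 73131) (nat_lit 0) .nil) .nil))) 
(.lf (nat_lit 464852) (.g (nat_lit 2531) (.e (nat_lit 3232) (nat_lit 197) (.e (nat_lit 532504) (nat_lit 1) (.e (nat_lit 57851) (nat_lit 252) (.e (nat_lit 57406) (nat_lit 12) (.e (nat_lit 336456) (nat_lit 34) .nil))))) (.g (nat_lit 0) (.e (nat_lit 73957) (nat_lit 0) .nil) .nil))))))) (.nd (nat_lit 6) (.nd (nat_lit 7) (.nd (nat_lit 8) (.nd (nat_lit 9) 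
(.lf (nat_lit 463924) (.g (nat_lit 3514) (.e (nat_lit 3096) (nat_lit 192) (.e (nat_lit 491569) (nat_lit 13) (.e (nat_lit 393301) (nat_lit 27) (.e (nat_lit 491559) (nat_lit 10) (.e (nat_lit 344091) (nat_lit 18) (.e (nat_lit 6923) (nat_lit 371) (.e (nat_lit 2442) (nat_lit 157) .nil))))))) (.g (nat_lit 1) (.e (nat_lit 72501) (nat_lit 0) .nil) .nil))) 
(.lf (nat_lit 464436) (.g (nat_lit 2282) (.e (nat_lit 3102) (nat_lit 192) (.e (nat_lit 491560) (nat_lit 10) (.e (nat_lit 344115) (nat_lit 20) (.e (nat_lit 507908) (nat_lit 0) (.e (nat_lit 5412) (nat_lit 303) (.e (nat_lit 73739) (nat_lit 1) (.e (nat_lit 499835) (nat_lit 5) .nil))))))) (.g (nat_lit 1) (.e (nat_lit 73272) (nat_lit 0) .nil) .nil)))) (.nd (nat_lit 9) 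
(.lf (nat_lit 464180) (.g (nat_lit 3092) (.e (nat_lit 3098) (nat_lit 192) (.e (nat_lit 491569) (nat_lit 13) (.e (nat_lit 393301) (nat_lit 27) (.e (nat_lit 491558) (nat_lit 10) (.e (nat_lit 344091) (nat_lit 18) (.e (nat_lit 6923) (nat_lit 371) (.e (nat_lit 2428) (nat_lit 157) .nil))))))) (.g (nat_lit 1) (.e (nat_lit 72957) (nat_lit 0) .nil) .nil))) 
(.lf (nat_lit 464692) (.g (nat_lit 3228) (.e (nat_lit 3230) (nat_lit 197) (.e (nat_lit 532503) (nat_lit 1) (.e (nat_lit 57931) (nat_lit 282) (.e (nat_lit 163867) (nat_lit 2) (.e (nat_lit 196670) (nat_lit 14) (.e (nat_lit 73746) (nat_lit 3) (.e (nat_lit 516131) (nat_lit 3) (.e (nat_lit 221196) (nat_lit 20) .nil)))))))) (.g (nat_lit 1) (.e (nat_lit 73672) (nat_lit 0) .nil) .nil))))) 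
(.nd (nat_lit 8) (.nd (nat_lit 9) 
(.lf (nat_lit 464052) (.g (nat_lit 5081) (.e (nat_lit 3098) (nat_lit 192) (.e (nat_lit 491546) (nat_lit 9) (.e (nat_lit 336028) (nat_lit 3) (.e (nat_lit 98350) (nat_lit 24) (.e (nat_lit 409649) (nat_lit 18) (.e (nat_lit 303111) (nat_lit 0) (.e (nat_lit 3272) (nat_lit 199) (.e (nat_lit 548898) (nat_lit 14) .nil)))))))) (.g (nat_lit 1) (.e (nat_lit 72698) (nat_lit 0) .nil) .nil))) 
(.lf (nat_lit 464564) (.g (nat_lit 3332) (.e (nat_lit 3105) (nat_lit 192) (.e (nat_lit 491569) (nat_lit 13) (.e (nat_lit 393301) (nat_lit 27) (.e (nat_lit 491560) (nat_lit 10) (.e (nat_lit 344096) (nat_lit 18) .nil))))) (.g (nat_lit 0) (.e (nat_lit 73418) (nat_lit 0) .nil) .nil)))) (.nd (nat_lit 9) 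
(.lf (nat_lit 464308) (.g (nat_lit 3316) (.e (nat_lit 3098) (nat_lit 192) (.e (nat_lit 491569) (nat_lit 13) (.e (nat_lit 393301) (nat_lit 27) (.e (nat_lit 491560) (nat_lit 10) (.e (nat_lit 344096) (nat_lit 18) (.e (nat_lit 6850) (nat_lit 371) (.e (nat_lit 2433) (nat_lit 157) .nil))))))) (.g (nat_lit 1) (.e (nat_lit 73085) (nat_lit 0) .nil) .nil))) 
(.lf (nat_lit 464820) (.g (nat_lit 2826) (.e (nat_lit 3231) (nat_lit 197) (.e (nat_lit 532503) (nat_lit 1) (.e (nat_lit 57931) (nat_lit 282) (.e (nat_lit 163869) (nat_lit 2) (.e (nat_lit 196668) (nat_lit 14) (.e (nat_lit 73747) (nat_lit 3) (.e (nat_lit 516129) (nat_lit 3) (.e (nat_lit 221202) (nat_lit 20) .nil)))))))) (.g (nat_lit 1) (.e (nat_lit 73879) (nat_lit 0) .nil) .nil)))))) 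
(.nd (nat_lit 7) (.nd (nat_lit 8) (.nd (nat_lit 9) 
(.lf (nat_lit 463988) (.g (nat_lit 4382) (.e (nat_lit 3097) (nat_lit 192) (.e (nat_lit 491566) (nat_lit 12) (.e (nat_lit 385074) (nat_lit 31) (.e (nat_lit 573493) (nat_lit 15) (.e (nat_lit 81953) (nat_lit 22) (.e (nat_lit 90134) (nat_lit 9) .nil)))))) (.g (nat_lit 1) (.e (nat_lit 72593) (nat_lit 0) .nil) .nil))) 
(.lf (nat_lit 464500) (.g (nat_lit 2895) (.e (nat_lit 3104) (nat_lit 192) (.e (nat_lit 491569) (nat_lit 13) (.e (nat_lit 393301) (nat_lit 27) (.e (nat_lit 491558) (nat_lit 10) (.e (nat_lit 344090) (nat_lit 18) .nil))))) (.g (nat_lit 0) (.e (nat_lit 73343) (nat_lit 0) .nil) .nil)))) (.nd (nat_lit 9) 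
(.lf (nat_lit 464244) (.g (nat_lit 3536) (.e (nat_lit 3098) (nat_lit 192) (.e (nat_lit 491569) (nat_lit 13) (.e (nat_lit 393301) (nat_lit 27) (.e (nat_lit 491560) (nat_lit 10) (.e (nat_lit 344088) (nat_lit 18) (.e (nat_lit 6848) (nat_lit 371) (.e (nat_lit 2450) (nat_lit 157) .nil))))))) (.g (nat_lit 1) (.e (nat_lit 73021) (nat_lit 0) .nil) .nil))) 
(.lf (nat_lit 464756) (.g (nat_lit 4465) (.e (nat_lit 3230) (nat_lit 197) (.e (nat_lit 532535) (nat_lit 9) (.e (nat_lit 336099) (nat_lit 9) (.e (nat_lit 336028) (nat_lit 3) (.e (nat_lit 98349) (nat_lit 24) (.e (nat_lit 409645) (nat_lit 18) (.e (nat_lit 303106) (nat_lit 0) .nil))))))) (.g (nat_lit 1) (.e (nat_lit 73795) (nat_lit 0) .nil) .nil))))) (.nd (nat_lit 8) (.nd (nat_lit 9) 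
(.lf (nat_lit 464116) (.g (nat_lit 4491) (.e (nat_lit 3098) (nat_lit 192) (.e (nat_lit 491566) (nat_lit 12) (.e (nat_lit 385073) (nat_lit 31) (.e (nat_lit 573493) (nat_lit 15) (.e (nat_lit 81951) (nat_lit 22) (.e (nat_lit 90134) (nat_lit 9) .nil)))))) (.g (nat_lit 1) (.e (nat_lit 72829) (nat_lit 0) .nil) .nil))) 
(.lf (nat_lit 464628) (.g (nat_lit 5704) (.e (nat_lit 3228) (nat_lit 197) (.e (nat_lit 532550) (nat_lit 12) (.e (nat_lit 360474) (nat_lit 8) (.e (nat_lit 557091) (nat_lit 12) .nil)))) (.g (nat_lit 0) (.e (nat_lit 73589) (nat_lit 0) .nil) .nil)))) (.nd (nat_lit 9) 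
(.lf (nat_lit 464372) (.g (nat_lit 3085) (.e (nat_lit 3100) (nat_lit 192) (.e (nat_lit 491560) (nat_lit 10) (.e (nat_lit 344117) (nat_lit 21) (.e (nat_lit 516106) (nat_lit 0) (.e (nat_lit 7936) (nat_lit 407) .nil))))) (.g (nat_lit 0) (.e (nat_lit 73204) (nat_lit 0) .nil) .nil))) 
(.lf (nat_lit 464884) (.g (nat_lit 745) (.e (nat_lit 3234) (nat_lit 197) (.e (nat_lit 532530) (nat_lit 9) (.e (nat_lit 336326) (nat_lit 18) .nil))) (.g (nat_lit 0) (.e (nat_lit 74057) (nat_lit 0) .nil) .nil))))))))) (.nd (nat_lit 4) (.nd (nat_lit 5) (.nd (nat_lit 6) (.nd (nat_lit 7) (.nd (nat_lit 8) (.nd (nat_lit 9) 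
(.lf (nat_lit 463884) (.g (nat_lit 4706) (.e (nat_lit 3096) (nat_lit 192) (.e (nat_lit 491566) (nat_lit 12) (.e (nat_lit 385072) (nat_lit 31) (.e (nat_lit 573481) (nat_lit 13) (.e (nat_lit 65604) (nat_lit 9) (.e (nat_lit 336013) (nat_lit 2) (.e (nat_lit 90134) (nat_lit 9) .nil))))))) (.g (nat_lit 1) (.e (nat_lit 72445) (nat_lit 0) .nil) .nil))) 
(.lf (nat_lit 464396) (.g (nat_lit 1751) (.e (nat_lit 3102) (nat_lit 192) (.e (nat_lit 491558) (nat_lit 10) (.e (nat_lit 344115) (nat_lit 20) (.e (nat_lit 507907) (nat_lit 0) (.e (nat_lit 5412) (nat_lit 303) (.e (nat_lit 73739) (nat_lit 1) (.e (nat_lit 499840) (nat_lit 5) .nil))))))) (.g (nat_lit 1) (.e (nat_lit 73232) (nat_lit 0) .nil) .nil)))) (.nd (nat_lit 9) 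
(.lf (nat_lit 464140) (.g (nat_lit 2730) (.e (nat_lit 3098) (nat_lit 192) (.e (nat_lit 491568) (nat_lit 13) (.e (nat_lit 393301) (nat_lit 27) (.e (nat_lit 491560) (nat_lit 10) (.e (nat_lit 344087) (nat_lit 18) .nil))))) (.g (nat_lit 0) (.e (nat_lit 72914) (nat_lit 0) .nil) .nil))) 
(.lf (nat_lit 464652) (.g (nat_lit 2090) (.e (nat_lit 3230) (nat_lit 197) (.e (nat_lit 532501) (nat_lit 1) (.e (nat_lit 57851) (nat_lit 252) (.e (nat_lit 57406) (nat_lit 12) (.e (nat_lit 336456) (nat_lit 34) (.e (nat_lit 483391) (nat_lit 23) (.e (nat_lit 336246) (nat_lit 15) .nil))))))) (.g (nat_lit 1) (.e (nat_lit 73623) (nat_lit 0) .nil) .nil))))) (.nd (nat_lit 8) (.nd (nat_lit 9) 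
(.lf (nat_lit 464012) (.g (nat_lit 3704) (.e (nat_lit 3098) (nat_lit 192) (.e (nat_lit 491537) (nat_lit 2) (.e (nat_lit 90170) (nat_lit 13) (.e (nat_lit 172106) (nat_lit 10) (.e (nat_lit 434227) (nat_lit 20) (.e (nat_lit 507930) (nat_lit 10) (.e (nat_lit 5615) (nat_lit 312) .nil))))))) (.g (nat_lit 1) (.e (nat_lit 72657) (nat_lit 0) .nil) .nil))) 
(.lf (nat_lit 464524) (.g (nat_lit 852) (.e (nat_lit 3105) (nat_lit 192) (.e (nat_lit 491566) (nat_lit 12) (.e (nat_lit 392960) (nat_lit 31) .nil))) (.g (nat_lit 0) (.e (nat_lit 73372) (nat_lit 0) .nil) .nil)))) (.nd (nat_lit 9) 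
(.lf (nat_lit 464268) (.g (nat_lit 2763) (.e (nat_lit 3098) (nat_lit 192) (.e (nat_lit 491569) (nat_lit 13) (.e (nat_lit 393301) (nat_lit 27) (.e (nat_lit 491560) (nat_lit 10) (.e (nat_lit 344089) (nat_lit 18) (.e (nat_lit 6864) (nat_lit 371) (.e (nat_lit 2446) (nat_lit 157) .nil))))))) (.g (nat_lit 1) (.e (nat_lit 73045) (nat_lit 0) .nil) .nil))) 
(.lf (nat_lit 464780) (.g (nat_lit 4083) (.e (nat_lit 3230) (nat_lit 197) (.e (nat_lit 532550) (nat_lit 12) (.e (nat_lit 360474) (nat_lit 8) (.e (nat_lit 557094) (nat_lit 12) (.e (nat_lit 164022) (nat_lit 46) (.e (nat_lit 704736) (nat_lit 11) (.e (nat_lit 16396) (nat_lit 0) .nil))))))) (.g (nat_lit 1) (.e (nat_lit 73836) (nat_lit 0) .nil) .nil)))))) 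
(.nd (nat_lit 7) (.nd (nat_lit 8) (.nd (nat_lit 9) 
(.lf (nat_lit 463948) (.g (nat_lit 2651) (.e (nat_lit 3096) (nat_lit 192) (.e (nat_lit 491569) (nat_lit 13) (.e (nat_lit 393301) (nat_lit 27) (.e (nat_lit 491560) (nat_lit 10) (.e (nat_lit 344172) (nat_lit 41) .nil))))) (.g (nat_lit 0) (.e (nat_lit 72525) (nat_lit 0) .nil) .nil))) 
(.lf (nat_lit 464460) (.g (nat_lit 1962) (.e (nat_lit 3102) (nat_lit 192) (.e (nat_lit 491560) (nat_lit 10) (.e (nat_lit 344129) (nat_lit 26) (.e (nat_lit 557087) (nat_lit 11) .nil)))) (.g (nat_lit 0) (.e (nat_lit 73298) (nat_lit 0) .nil) .nil)))) (.nd (nat_lit 9) 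
(.lf (nat_lit 464204) (.g (nat_lit 3312) (.e (nat_lit 3098) (nat_lit 192) (.e (nat_lit 491569) (nat_lit 13) (.e (nat_lit 393301) (nat_lit 27) (.e (nat_lit 491559) (nat_lit 10) (.e (nat_lit 344091) (nat_lit 18) (.e (nat_lit 6850) (nat_lit 371) (.e (nat_lit 2430) (nat_lit 157) .nil))))))) (.g (nat_lit 1) (.e (nat_lit 72981) (nat_lit 0) .nil) .nil))) 
(.lf (nat_lit 464716) (.g (nat_lit 2898) (.e (nat_lit 3230) (nat_lit 197) (.e (nat_lit 532503) (nat_lit 1) (.e (nat_lit 57931) (nat_lit 282) (.e (nat_lit 163874) (nat_lit 3) (.e (nat_lit 204862) (nat_lit 27) (.e (nat_lit 344117) (nat_lit 21) (.e (nat_lit 516130) (nat_lit 3) (.e (nat_lit 221198) (nat_lit 20) .nil)))))))) (.g (nat_lit 1) (.e (nat_lit 73702) (nat_lit 0) .nil) .nil))))) 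
(.nd (nat_lit 8) (.nd (nat_lit 9) 
(.lf (nat_lit 464076) (.g (nat_lit 2943) (.e (nat_lit 3098) (nat_lit 192) (.e (nat_lit 491562) (nat_lit 12) (.e (nat_lit 385106) (nat_lit 50) (.e (nat_lit 786483) (nat_lit 30) (.e (nat_lit 360485) (nat_lit 16) .nil))))) (.g (nat_lit 0) (.e (nat_lit 72731) (nat_lit 0) .nil) .nil))) 
(.lf (nat_lit 464588) (.g (nat_lit 2200) (.e (nat_lit 3114) (nat_lit 193) (.e (nat_lit 500075) (nat_lit 20) (.e (nat_lit 81955) (nat_lit 23) (.e (nat_lit 98350) (nat_lit 24) (.e (nat_lit 409648) (nat_lit 18) (.e (nat_lit 303104) (nat_lit 0) .nil)))))) (.g (nat_lit 1) (.e (nat_lit 73466) (nat_lit 0) .nil) .nil)))) (.nd (nat_lit 9) 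
(.lf (nat_lit 464332) (.g (nat_lit 1998) (.e (nat_lit 3098) (nat_lit 192) (.e (nat_lit 491570) (nat_lit 13) (.e (nat_lit 393251) (nat_lit 18) (.e (nat_lit 164179) (nat_lit 154) .nil)))) (.g (nat_lit 0) (.e (nat_lit 73111) (nat_lit 0) .nil) .nil))) 
(.lf (nat_lit 464844) (.g (nat_lit 5481) (.e (nat_lit 3231) (nat_lit 197) (.e (nat_lit 532550) (nat_lit 12) (.e (nat_lit 360475) (nat_lit 8) (.e (nat_lit 557091) (nat_lit 12) (.e (nat_lit 164022) (nat_lit 46) .nil))))) (.g (nat_lit 0) (.e (nat_lit 73942) (nat_lit 0) .nil) .nil))))))) (.nd (nat_lit 6) (.nd (nat_lit 7) (.nd (nat_lit 8) (.nd (nat_lit 9) 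
(.lf (nat_lit 463916) (.g (nat_lit 2761) (.e (nat_lit 3096) (nat_lit 192) (.e (nat_lit 491569) (nat_lit 13) (.e (nat_lit 393301) (nat_lit 27) (.e (nat_lit 491558) (nat_lit 10) (.e (nat_lit 344172) (nat_lit 41) .nil))))) (.g (nat_lit 0) (.e (nat_lit 72493) (nat_lit 0) .nil) .nil))) 
(.lf (nat_lit 464428) (.g (nat_lit 2212) (.e (nat_lit 3102) (nat_lit 192) (.e (nat_lit 491560) (nat_lit 10) (.e (nat_lit 344115) (nat_lit 20) (.e (nat_lit 507906) (nat_lit 0) (.e (nat_lit 5412) (nat_lit 303) (.e (nat_lit 73739) (nat_lit 1) (.e (nat_lit 499845) (nat_lit 5) .nil))))))) (.g (nat_lit 1) (.e (nat_lit 73264) (nat_lit 0) .nil) .nil)))) (.nd (nat_lit 9) 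
(.lf (nat_lit 464172) (.g (nat_lit 2452) (.e (nat_lit 3098) (nat_lit 192) (.e (nat_lit 491569) (nat_lit 13) (.e (nat_lit 393301) (nat_lit 27) (.e (nat_lit 491558) (nat_lit 10) (.e (nat_lit 344091) (nat_lit 18) (.e (nat_lit 6848) (nat_lit 371) (.e (nat_lit 2450) (nat_lit 157) .nil))))))) (.g (nat_lit 1) (.e (nat_lit 72949) (nat_lit 0) .nil) .nil))) 
(.lf (nat_lit 464684) (.g (nat_lit 4013) (.e (nat_lit 3230) (nat_lit 197) (.e (nat_lit 532503) (nat_lit 1) (.e (nat_lit 57931) (nat_lit 282) (.e (nat_lit 163867) (nat_lit 2) (.e (nat_lit 196668) (nat_lit 14) (.e (nat_lit 73746) (nat_lit 3) (.e (nat_lit 516129) (nat_lit 3) (.e (nat_lit 221196) (nat_lit 20) .nil)))))))) (.g (nat_lit 1) (.e (nat_lit 73664) (nat_lit 0) .nil) .nil))))) 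
(.nd (nat_lit 8) (.nd (nat_lit 9) 
(.lf (nat_lit 464044) (.g (nat_lit 2045) (.e (nat_lit 3098) (nat_lit 192) (.e (nat_lit 491540) (nat_lit 3) (.e (nat_lit 98365) (nat_lit 26) (.e (nat_lit 426298) (nat_lit 11) (.e (nat_lit 458789) (nat_lit 23) (.e (nat_lit 532482) (nat_lit 0) (.e (nat_lit 6619) (nat_lit 357) .nil))))))) (.g (nat_lit 1) (.e (nat_lit 72689) (nat_lit 0) .nil) .nil))) 
(.lf (nat_lit 464556) (.g (nat_lit 3528) (.e (nat_lit 3105) (nat_lit 192) (.e (nat_lit 491569) (nat_lit 13) (.e (nat_lit 393301) (nat_lit 27) (.e (nat_lit 491559) (nat_lit 10) (.e (nat_lit 344171) (nat_lit 41) .nil))))) (.g (nat_lit 0) (.e (nat_lit 73410) (nat_lit 0) .nil) .nil)))) (.nd (nat_lit 9) 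
(.lf (nat_lit 464300) (.g (nat_lit 2600) (.e (nat_lit 3098) (nat_lit 192) (.e (nat_lit 491569) (nat_lit 13) (.e (nat_lit 393301) (nat_lit 27) (.e (nat_lit 491560) (nat_lit 10) (.e (nat_lit 344094) (nat_lit 18) .nil))))) (.g (nat_lit 0) (.e (nat_lit 73077) (nat_lit 0) .nil) .nil))) 
(.lf (nat_lit 464812) (.g (nat_lit 2178) (.e (nat_lit 3231) (nat_lit 197) (.e (nat_lit 532499) (nat_lit 1) (.e (nat_lit 57927) (nat_lit 282) (.e (nat_lit 163868) (nat_lit 2) (.e (nat_lit 196668) (nat_lit 14) (.e (nat_lit 73747) (nat_lit 3) (.e (nat_lit 516129) (nat_lit 3) (.e (nat_lit 221202) (nat_lit 20) .nil)))))))) (.g (nat_lit 1) (.e (nat_lit 73871) (nat_lit 0) .nil) .nil)))))) 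
(.nd (nat_lit 7) (.nd (nat_lit 8) (.nd (nat_lit 9) 
(.lf (nat_lit 463980) (.g (nat_lit 2763) (.e (nat_lit 3097) (nat_lit 192) (.e (nat_lit 491566) (nat_lit 12) (.e (nat_lit 385074) (nat_lit 31) (.e (nat_lit 573481) (nat_lit 13) (.e (nat_lit 65604) (nat_lit 9) (.e (nat_lit 336013) (nat_lit 2) (.e (nat_lit 90134) (nat_lit 9) .nil))))))) (.g (nat_lit 1) (.e (nat_lit 72585) (nat_lit 0) .nil) .nil))) 
(.lf (nat_lit 464492) (.g (nat_lit 3188) (.e (nat_lit 3104) (nat_lit 192) (.e (nat_lit 491568) (nat_lit 13) (.e (nat_lit 393301) (nat_lit 27) (.e (nat_lit 491560) (nat_lit 10) (.e (nat_lit 344090) (nat_lit 18) .nil))))) (.g (nat_lit 0) (.e (nat_lit 73335) (nat_lit 0) .nil) .nil)))) (.nd (nat_lit 9) 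
(.lf (nat_lit 464236) (.g (nat_lit 3493) (.e (nat_lit 3098) (nat_lit 192) (.e (nat_lit 491569) (nat_lit 13) (.e (nat_lit 393301) (nat_lit 27) (.e (nat_lit 491560) (nat_lit 10) (.e (nat_lit 344087) (nat_lit 18) (.e (nat_lit 6853) (nat_lit 371) (.e (nat_lit 2450) (nat_lit 157) .nil))))))) (.g (nat_lit 1) (.e (nat_lit 73013) (nat_lit 0) .nil) .nil))) 
(.lf (nat_lit 464748) (.g (nat_lit 6766) (.e (nat_lit 3230) (nat_lit 197) (.e (nat_lit 532535) (nat_lit 9) (.e (nat_lit 336099) (nat_lit 9) (.e (nat_lit 336013) (nat_lit 2) (.e (nat_lit 90134) (nat_lit 9) (.e (nat_lit 2822) (nat_lit 182) (.e (nat_lit 409645) (nat_lit 18) (.e (nat_lit 303112) (nat_lit 0) .nil)))))))) (.g (nat_lit 1) (.e (nat_lit 73785) (nat_lit 0) .nil) .nil))))) 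
(.nd (nat_lit 8) (.nd (nat_lit 9) 
(.lf (nat_lit 464108) (.g (nat_lit 5392) (.e (nat_lit 3098) (nat_lit 192) (.e (nat_lit 491566) (nat_lit 12) (.e (nat_lit 385072) (nat_lit 31) (.e (nat_lit 573482) (nat_lit 13) (.e (nat_lit 65604) (nat_lit 9) (.e (nat_lit 336013) (nat_lit 2) (.e (nat_lit 90134) (nat_lit 9) .nil))))))) (.g (nat_lit 1) (.e (nat_lit 72804) (nat_lit 0) .nil) .nil))) 
(.lf (nat_lit 464620) (.g (nat_lit 4025) (.e (nat_lit 3227) (nat_lit 197) (.e (nat_lit 532550) (nat_lit 12) (.e (nat_lit 360474) (nat_lit 8) (.e (nat_lit 557094) (nat_lit 12) (.e (nat_lit 164022) (nat_lit 46) .nil))))) (.g (nat_lit 0) (.e (nat_lit 73577) (nat_lit 0) .nil) .nil)))) (.nd (nat_lit 9) 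
(.lf (nat_lit 464364) (.g (nat_lit 3263) (.e (nat_lit 3099) (nat_lit 192) (.e (nat_lit 491563) (nat_lit 12) (.e (nat_lit 385102) (nat_lit 50) (.e (nat_lit 786483) (nat_lit 30) (.e (nat_lit 360484) (nat_lit 15) (.e (nat_lit 647171) (nat_lit 0) .nil)))))) (.g (nat_lit 1) (.e (nat_lit 73183) (nat_lit 0) .nil) .nil))) 
(.lf (nat_lit 464876) (.g (nat_lit 1941) (.e (nat_lit 3234) (nat_lit 197) (.e (nat_lit 532501) (nat_lit 1) (.e (nat_lit 57851) (nat_lit 252) (.e (nat_lit 57406) (nat_lit 12) (.e (nat_lit 336456) (nat_lit 34) (.e (nat_lit 483393) (nat_lit 23) (.e (nat_lit 336291) (nat_lit 15) .nil))))))) (.g (nat_lit 1) (.e (nat_lit 74018) (nat_lit 0) .nil) .nil)))))))) 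
(.nd (nat_lit 5) (.nd (nat_lit 6) (.nd (nat_lit 7) (.nd (nat_lit 8) (.nd (nat_lit 9) 
(.lf (nat_lit 463900) (.g (nat_lit 1228) (.e (nat_lit 3096) (nat_lit 192) (.e (nat_lit 491566) (nat_lit 12) (.e (nat_lit 385105) (nat_lit 50) (.e (nat_lit 786483) (nat_lit 30) .nil)))) (.g (nat_lit 0) (.e (nat_lit 72477) (nat_lit 0) .nil) .nil))) 
(.lf (nat_lit 464412) (.g (nat_lit 588) (.e (nat_lit 3102) (nat_lit 192) (.e (nat_lit 491558) (nat_lit 10) (.e (nat_lit 344117) (nat_lit 21) .nil))) (.g (nat_lit 0) (.e (nat_lit 73248) (nat_lit 0) .nil) .nil)))) (.nd (nat_lit 9) 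
(.lf (nat_lit 464156) (.g (nat_lit 2383) (.e (nat_lit 3098) (nat_lit 192) (.e (nat_lit 491569) (nat_lit 13) (.e (nat_lit 393251) (nat_lit 18) (.e (nat_lit 164179) (nat_lit 154) .nil)))) (.g (nat_lit 0) (.e (nat_lit 72933) (nat_lit 0) .nil) .nil))) 
(.lf (nat_lit 464668) (.g (nat_lit 4603) (.e (nat_lit 3230) (nat_lit 197) (.e (nat_lit 532503) (nat_lit 1) (.e (nat_lit 57848) (nat_lit 252) (.e (nat_lit 57407) (nat_lit 12) (.e (nat_lit 336454) (nat_lit 34) (.e (nat_lit 483385) (nat_lit 23) (.e (nat_lit 336260) (nat_lit 15) .nil))))))) (.g (nat_lit 1) (.e (nat_lit 73648) (nat_lit 0) .nil) .nil))))) (.nd (nat_lit 8) (.nd (nat_lit 9) 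
(.lf (nat_lit 464028) (.g (nat_lit 2641) (.e (nat_lit 3098) (nat_lit 192) (.e (nat_lit 491537) (nat_lit 2) (.e (nat_lit 90170) (nat_lit 13) (.e (nat_lit 172113) (nat_lit 10) (.e (nat_lit 434227) (nat_lit 20) (.e (nat_lit 507929) (nat_lit 10) (.e (nat_lit 5616) (nat_lit 312) .nil))))))) (.g (nat_lit 1) (.e (nat_lit 72673) (nat_lit 0) .nil) .nil))) 
(.lf (nat_lit 464540) (.g (nat_lit 3347) (.e (nat_lit 3105) (nat_lit 192) (.e (nat_lit 491568) (nat_lit 13) (.e (nat_lit 393301) (nat_lit 27) (.e (nat_lit 491560) (nat_lit 10) (.e (nat_lit 344170) (nat_lit 41) .nil))))) (.g (nat_lit 0) (.e (nat_lit 73394) (nat_lit 0) .nil) .nil)))) (.nd (nat_lit 9) 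
(.lf (nat_lit 464284) (.g (nat_lit 3268) (.e (nat_lit 3098) (nat_lit 192) (.e (nat_lit 491569) (nat_lit 13) (.e (nat_lit 393301) (nat_lit 27) (.e (nat_lit 491560) (nat_lit 10) (.e (nat_lit 344090) (nat_lit 18) (.e (nat_lit 6923) (nat_lit 371) (.e (nat_lit 2428) (nat_lit 157) .nil))))))) (.g (nat_lit 1) (.e (nat_lit 73061) (nat_lit 0) .nil) .nil))) 
(.lf (nat_lit 464796) (.g (nat_lit 3396) (.e (nat_lit 3230) (nat_lit 197) (.e (nat_lit 532550) (nat_lit 12) (.e (nat_lit 360475) (nat_lit 8) (.e (nat_lit 557091) (nat_lit 12) (.e (nat_lit 164022) (nat_lit 46) (.e (nat_lit 704736) (nat_lit 11) (.e (nat_lit 16389) (nat_lit 0) .nil))))))) (.g (nat_lit 1) (.e (nat_lit 73854) (nat_lit 0) .nil) .nil)))))) 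
(.nd (nat_lit 7) (.nd (nat_lit 8) (.nd (nat_lit 9) 
(.lf (nat_lit 463964) (.g (nat_lit 2121) (.e (nat_lit 3096) (nat_lit 192) (.e (nat_lit 491571) (nat_lit 13) (.e (nat_lit 393251) (nat_lit 18) (.e (nat_lit 164177) (nat_lit 154) .nil)))) (.g (nat_lit 0) (.e (nat_lit 72550) (nat_lit 0) .nil) .nil))) 
(.lf (nat_lit 464476) (.g (nat_lit 2653) (.e (nat_lit 3103) (nat_lit 192) (.e (nat_lit 491566) (nat_lit 12) (.e (nat_lit 385104) (nat_lit 50) (.e (nat_lit 786483) (nat_lit 30) (.e (nat_lit 360484) (nat_lit 15) .nil))))) (.g (nat_lit 0) (.e (nat_lit 73318) (nat_lit 0) .nil) .nil)))) (.nd (nat_lit 9) 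
(.lf (nat_lit 464220) (.g (nat_lit 3622) (.e (nat_lit 3098) (nat_lit 192) (.e (nat_lit 491569) (nat_lit 13) (.e (nat_lit 393301) (nat_lit 27) (.e (nat_lit 491559) (nat_lit 10) (.e (nat_lit 344170) (nat_lit 41) (.e (nat_lit 753673) (nat_lit 5) .nil)))))) (.g (nat_lit 1) (.e (nat_lit 72997) (nat_lit 0) .nil) .nil))) 
(.lf (nat_lit 464732) (.g (nat_lit 1823) (.e (nat_lit 3230) (nat_lit 197) (.e (nat_lit 532504) (nat_lit 1) (.e (nat_lit 57851) (nat_lit 252) (.e (nat_lit 57406) (nat_lit 12) (.e (nat_lit 336456) (nat_lit 34) (.e (nat_lit 483387) (nat_lit 23) (.e (nat_lit 336291) (nat_lit 15) .nil))))))) (.g (nat_lit 1) (.e (nat_lit 73721) (nat_lit 0) .nil) .nil))))) (.nd (nat_lit 8) (.nd (nat_lit 9) 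
(.lf (nat_lit 464092) (.g (nat_lit 4465) (.e (nat_lit 3098) (nat_lit 192) (.e (nat_lit 491565) (nat_lit 12) (.e (nat_lit 385073) (nat_lit 31) (.e (nat_lit 573482) (nat_lit 13) (.e (nat_lit 65604) (nat_lit 9) (.e (nat_lit 336013) (nat_lit 2) (.e (nat_lit 90134) (nat_lit 9) .nil))))))) (.g (nat_lit 1) (.e (nat_lit 72748) (nat_lit 0) .nil) .nil))) 
(.lf (nat_lit 464604) (.g (nat_lit 3607) (.e (nat_lit 3141) (nat_lit 193) (.e (nat_lit 500065) (nat_lit 18) (.e (nat_lit 65624) (nat_lit 12) (.e (nat_lit 385074) (nat_lit 31) (.e (nat_lit 573489) (nat_lit 14) (.e (nat_lit 73779) (nat_lit 32) (.e (nat_lit 2508) (nat_lit 157) .nil))))))) (.g (nat_lit 1) (.e (nat_lit 73504) (nat_lit 0) .nil) .nil)))) (.nd (nat_lit 9) 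
(.lf (nat_lit 464348) (.g (nat_lit 4081) (.e (nat_lit 3098) (nat_lit 192) (.e (nat_lit 491571) (nat_lit 13) (.e (nat_lit 393252) (nat_lit 18) (.e (nat_lit 164182) (nat_lit 154) (.e (nat_lit 57420) (nat_lit 13) (.e (nat_lit 344132) (nat_lit 26) (.e (nat_lit 557072) (nat_lit 9) .nil))))))) (.g (nat_lit 1) (.e (nat_lit 73144) (nat_lit 0) .nil) .nil))) 
(.lf (nat_lit 464860) (.g (nat_lit 3783) (.e (nat_lit 3232) (nat_lit 197) (.e (nat_lit 532550) (nat_lit 12) (.e (nat_lit 360474) (nat_lit 8) (.e (nat_lit 557094) (nat_lit 12) .nil)))) (.g (nat_lit 0) (.e (nat_lit 73994) (nat_lit 0) .nil) .nil))))))) (.nd (nat_lit 6) (.nd (nat_lit 7) (.nd (nat_lit 8) (.nd (nat_lit 9) 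
(.lf (nat_lit 463932) (.g (nat_lit 3216) (.e (nat_lit 3096) (nat_lit 192) (.e (nat_lit 491569) (nat_lit 13) (.e (nat_lit 393301) (nat_lit 27) (.e (nat_lit 491559) (nat_lit 10) (.e (nat_lit 344172) (nat_lit 41) (.e (nat_lit 753677) (nat_lit 5) .nil)))))) (.g (nat_lit 1) (.e (nat_lit 72509) (nat_lit 0) .nil) .nil))) 
(.lf (nat_lit 464444) (.g (nat_lit 2657) (.e (nat_lit 3102) (nat_lit 192) (.e (nat_lit 491560) (nat_lit 10) (.e (nat_lit 344117) (nat_lit 21) (.e (nat_lit 516099) (nat_lit 0) .nil)))) (.g (nat_lit 0) (.e (nat_lit 73282) (nat_lit 0) .nil) .nil)))) (.nd (nat_lit 9) 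
(.lf (nat_lit 464188) (.g (nat_lit 2522) (.e (nat_lit 3098) (nat_lit 192) (.e (nat_lit 491569) (nat_lit 13) (.e (nat_lit 393301) (nat_lit 27) (.e (nat_lit 491558) (nat_lit 10) (.e (nat_lit 344096) (nat_lit 18) (.e (nat_lit 6850) (nat_lit 371) (.e (nat_lit 2430) (nat_lit 157) .nil))))))) (.g (nat_lit 1) (.e (nat_lit 72965) (nat_lit 0) .nil) .nil))) 
(.lf (nat_lit 464700) (.g (nat_lit 4468) (.e (nat_lit 3230) (nat_lit 197) (.e (nat_lit 532503) (nat_lit 1) (.e (nat_lit 57931) (nat_lit 282) (.e (nat_lit 163869) (nat_lit 2) (.e (nat_lit 196668) (nat_lit 14) (.e (nat_lit 73747) (nat_lit 3) (.e (nat_lit 516131) (nat_lit 3) (.e (nat_lit 221197) (nat_lit 20) .nil)))))))) (.g (nat_lit 1) (.e (nat_lit 73684) (nat_lit 0) .nil) .nil))))) 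
(.nd (nat_lit 8) (.nd (nat_lit 9) 
(.lf (nat_lit 464060) (.g (nat_lit 2923) (.e (nat_lit 3098) (nat_lit 192) (.e (nat_lit 491549) (nat_lit 9) (.e (nat_lit 336019) (nat_lit 3) (.e (nat_lit 98389) (nat_lit 33) (.e (nat_lit 491560) (nat_lit 10) (.e (nat_lit 344105) (nat_lit 19) (.e (nat_lit 499828) (nat_lit 5) .nil))))))) (.g (nat_lit 1) (.e (nat_lit 72708) (nat_lit 0) .nil) .nil))) 
(.lf (nat_lit 464572) (.g (nat_lit 2355) (.e (nat_lit 3107) (nat_lit 193) (.e (nat_lit 500075) (nat_lit 20) (.e (nat_lit 81955) (nat_lit 23) (.e (nat_lit 98350) (nat_lit 24) (.e (nat_lit 409648) (nat_lit 18) (.e (nat_lit 303108) (nat_lit 0) .nil)))))) (.g (nat_lit 1) (.e (nat_lit 73449) (nat_lit 0) .nil) .nil)))) (.nd (nat_lit 9) 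
(.lf (nat_lit 464316) (.g (nat_lit 3161) (.e (nat_lit 3098) (nat_lit 192) (.e (nat_lit 491569) (nat_lit 13) (.e (nat_lit 393301) (nat_lit 27) (.e (nat_lit 491560) (nat_lit 10) (.e (nat_lit 344099) (nat_lit 18) .nil))))) (.g (nat_lit 0) (.e (nat_lit 73093) (nat_lit 0) .nil) .nil))) 
(.lf (nat_lit 464828) (.g (nat_lit 1474) (.e (nat_lit 3231) (nat_lit 197) (.e (nat_lit 532511) (nat_lit 2) (.e (nat_lit 106534) (nat_lit 11) (.e (nat_lit 16416) (nat_lit 3) (.e (nat_lit 204877) (nat_lit 31) (.e (nat_lit 376833) (nat_lit 0) .nil)))))) (.g (nat_lit 1) (.e (nat_lit 73887) (nat_lit 0) .nil) .nil)))))) (.nd (nat_lit 7) (.nd (nat_lit 8) (.nd (nat_lit 9) 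
(.lf (nat_lit 463996) (.g (nat_lit 3177) (.e (nat_lit 3097) (nat_lit 192) (.e (nat_lit 491569) (nat_lit 13) (.e (nat_lit 393301) (nat_lit 27) (.e (nat_lit 491558) (nat_lit 10) (.e (nat_lit 344096) (nat_lit 18) .nil))))) (.g (nat_lit 0) (.e (nat_lit 72622) (nat_lit 0) .nil) .nil))) 
(.lf (nat_lit 464508) (.g (nat_lit 2195) (.e (nat_lit 3104) (nat_lit 192) (.e (nat_lit 491569) (nat_lit 13) (.e (nat_lit 393301) (nat_lit 27) (.e (nat_lit 491563) (nat_lit 12) .nil)))) (.g (nat_lit 0) (.e (nat_lit 73351) (nat_lit 0) .nil) .nil)))) (.nd (nat_lit 9) 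
(.lf (nat_lit 464252) (.g (nat_lit 3036) (.e (nat_lit 3098) (nat_lit 192) (.e (nat_lit 491569) (nat_lit 13) (.e (nat_lit 393301) (nat_lit 27) (.e (nat_lit 491560) (nat_lit 10) (.e (nat_lit 344088) (nat_lit 18) (.e (nat_lit 6865) (nat_lit 371) (.e (nat_lit 2448) (nat_lit 157) .nil))))))) (.g (nat_lit 1) (.e (nat_lit 73029) (nat_lit 0) .nil) .nil))) 
(.lf (nat_lit 464764) (.g (nat_lit 3666) (.e (nat_lit 3230) (nat_lit 197) (.e (nat_lit 532535) (nat_lit 9) (.e (nat_lit 336176) (nat_lit 10) (.e (nat_lit 344132) (nat_lit 26) .nil)))) (.g (nat_lit 0) (.e (nat_lit 73809) (nat_lit 0) .nil) .nil))))) (.nd (nat_lit 8) (.nd (nat_lit 9) 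
(.lf (nat_lit 464124) (.g (nat_lit 2874) (.e (nat_lit 3098) (nat_lit 192) (.e (nat_lit 491566) (nat_lit 12) (.e (nat_lit 385074) (nat_lit 31) (.e (nat_lit 573482) (nat_lit 13) (.e (nat_lit 65595) (nat_lit 9) .nil))))) (.g (nat_lit 0) (.e (nat_lit 72838) (nat_lit 0) .nil) .nil))) 
(.lf (nat_lit 464636) (.g (nat_lit 3431) (.e (nat_lit 3229) (nat_lit 197) (.e (nat_lit 532550) (nat_lit 12) (.e (nat_lit 360474) (nat_lit 8) (.e (nat_lit 557094) (nat_lit 12) (.e (nat_lit 164022) (nat_lit 46) .nil))))) (.g (nat_lit 0) (.e (nat_lit 73606) (nat_lit 0) .nil) .nil)))) (.nd (nat_lit 9) 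
(.lf (nat_lit 464380) (.g (nat_lit 2467) (.e (nat_lit 3101) (nat_lit 192) (.e (nat_lit 491563) (nat_lit 12) (.e (nat_lit 385102) (nat_lit 50) (.e (nat_lit 786483) (nat_lit 30) (.e (nat_lit 360484) (nat_lit 15) (.e (nat_lit 647171) (nat_lit 0) .nil)))))) (.g (nat_lit 1) (.e (nat_lit 73215) (nat_lit 0) .nil) .nil))) 
(.lf (nat_lit 464892) (.g (nat_lit 1688) (.e (nat_lit 3234) (nat_lit 197) (.e (nat_lit 532549) (nat_lit 12) (.e (nat_lit 360473) (nat_lit 8) (.e (nat_lit 557085) (nat_lit 11) .nil)))) (.g (nat_lit 0) (.e (nat_lit 74071) (nat_lit 0) .nil) .nil))))))))))) (.nd (nat_lit 2) (.nd (nat_lit 3) (.nd (nat_lit 4) (.nd (nat_lit 5) (.nd (nat_lit 6) (.nd (nat_lit 7) (.nd (nat_lit 8) (.nd (nat_lit 9) 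
(.lf (nat_lit 463874) (.g (nat_lit 1364) (.e (nat_lit 3096) (nat_lit 192) (.e (nat_lit 491563) (nat_lit 12) (.e (nat_lit 385102) (nat_lit 50) .nil))) (.g (nat_lit 0) (.e (nat_lit 72433) (nat_lit 0) .nil) .nil))) 
(.lf (nat_lit 464386) (.g (nat_lit 598) (.e (nat_lit 3102) (nat_lit 192) (.e (nat_lit 491558) (nat_lit 10) (.e (nat_lit 344115) (nat_lit 20) .nil))) (.g (nat_lit 0) (.e (nat_lit 73222) (nat_lit 0) .nil) .nil)))) (.nd (nat_lit 9) 
(.lf (nat_lit 464130) (.g (nat_lit 1988) (.e (nat_lit 3098) (nat_lit 192) (.e (nat_lit 491566) (nat_lit 12) (.e (nat_lit 385096) (nat_lit 49) (.e (nat_lit 778273) (nat_lit 0) .nil)))) (.g (nat_lit 0) (.e (nat_lit 72874) (nat_lit 0) .nil) .nil))) 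
(.lf (nat_lit 464642) (.g (nat_lit 2186) (.e (nat_lit 3230) (nat_lit 197) (.e (nat_lit 532499) (nat_lit 1) (.e (nat_lit 57927) (nat_lit 282) (.e (nat_lit 163869) (nat_lit 2) (.e (nat_lit 196668) (nat_lit 14) (.e (nat_lit 73747) (nat_lit 3) (.e (nat_lit 516131) (nat_lit 3) (.e (nat_lit 221197) (nat_lit 20) .nil)))))))) (.g (nat_lit 1) (.e (nat_lit 73613) (nat_lit 0) .nil) .nil))))) 
(.nd (nat_lit 8) (.nd (nat_lit 9) 
(.lf (nat_lit 464002) (.g (nat_lit 975) (.e (nat_lit 3097) (nat_lit 192) (.e (nat_lit 491571) (nat_lit 13) (.e (nat_lit 393232) (nat_lit 17) .nil))) (.g (nat_lit 0) (.e (nat_lit 72628) (nat_lit 0) .nil) .nil))) 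
(.lf (nat_lit 464514) (.g (nat_lit 2426) (.e (nat_lit 3105) (nat_lit 192) (.e (nat_lit 491562) (nat_lit 12) (.e (nat_lit 385074) (nat_lit 31) (.e (nat_lit 573493) (nat_lit 15) .nil)))) (.g (nat_lit 0) (.e (nat_lit 73362) (nat_lit 0) .nil) .nil)))) (.nd (nat_lit 9) 
(.lf (nat_lit 464258) (.g (nat_lit 2790) (.e (nat_lit 3098) (nat_lit 192) (.e (nat_lit 491569) (nat_lit 13) (.e (nat_lit 393301) (nat_lit 27) (.e (nat_lit 491560) (nat_lit 10) (.e (nat_lit 344088) (nat_lit 18) (.e (nat_lit 6903) (nat_lit 371) (.e (nat_lit 2445) (nat_lit 157) .nil))))))) (.g (nat_lit 1) (.e (nat_lit 73035) (nat_lit 0) .nil) .nil))) 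
(.lf (nat_lit 464770) (.g (nat_lit 3569) (.e (nat_lit 3230) (nat_lit 197) (.e (nat_lit 532550) (nat_lit 12) (.e (nat_lit 360474) (nat_lit 8) (.e (nat_lit 557093) (nat_lit 12) (.e (nat_lit 164022) (nat_lit 46) (.e (nat_lit 704737) (nat_lit 11) (.e (nat_lit 16389) (nat_lit 0) .nil))))))) (.g (nat_lit 1) (.e (nat_lit 73826) (nat_lit 0) .nil) .nil)))))) 
(.nd (nat_lit 7) (.nd (nat_lit 8) (.nd (nat_lit 9) 
(.lf (nat_lit 463938) (.g (nat_lit 2551) (.e (nat_lit 3096) (nat_lit 192) (.e (nat_lit 491569) (nat_lit 13) (.e (nat_lit 393301) (nat_lit 27) (.e (nat_lit 491560) (nat_lit 10) (.e (nat_lit 344089) (nat_lit 18) .nil))))) (.g (nat_lit 0) (.e (nat_lit 72515) (nat_lit 0) .nil) .nil))) 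
(.lf (nat_lit 464450) (.g (nat_lit 2442) (.e (nat_lit 3102) (nat_lit 192) (.e (nat_lit 491560) (nat_lit 10) (.e (nat_lit 344117) (nat_lit 21) (.e (nat_lit 516185) (nat_lit 16) (.e (nat_lit 491560) (nat_lit 10) .nil))))) (.g (nat_lit 0) (.e (nat_lit 73288) (nat_lit 0) .nil) .nil)))) (.nd (nat_lit 9) 
(.lf (nat_lit 464194) (.g (nat_lit 2883) (.e (nat_lit 3098) (nat_lit 192) (.e (nat_lit 491569) (nat_lit 13) (.e (nat_lit 393301) (nat_lit 27) (.e (nat_lit 491558) (nat_lit 10) (.e (nat_lit 344170) (nat_lit 41) (.e (nat_lit 753672) (nat_lit 5) .nil)))))) (.g (nat_lit 1) (.e (nat_lit 72971) (nat_lit 0) .nil) .nil))) 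
(.lf (nat_lit 464706) (.g (nat_lit 4402) (.e (nat_lit 3230) (nat_lit 197) (.e (nat_lit 532503) (nat_lit 1) (.e (nat_lit 57931) (nat_lit 282) (.e (nat_lit 163869) (nat_lit 2) (.e (nat_lit 196670) (nat_lit 14) (.e (nat_lit 73746) (nat_lit 3) (.e (nat_lit 516131) (nat_lit 3) (.e (nat_lit 221197) (nat_lit 20) .nil)))))))) (.g (nat_lit 1) (.e (nat_lit 73690) (nat_lit 0) .nil) .nil))))) 
(.nd (nat_lit 8) (.nd (nat_lit 9) 
(.lf (nat_lit 464066) (.g (nat_lit 4792) (.e (nat_lit 3098) (nat_lit 192) (.e (nat_lit 491550) (nat_lit 9) (.e (nat_lit 336306) (nat_lit 15) (.e (nat_lit 3298) (nat_lit 202) (.e (nat_lit 573493) (nat_lit 15) (.e (nat_lit 81953) (nat_lit 22) (.e (nat_lit 90134) (nat_lit 9) .nil))))))) (.g (nat_lit 1) (.e (nat_lit 72721) (nat_lit 0) .nil) .nil))) 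
(.lf (nat_lit 464578) (.g (nat_lit 1291) (.e (nat_lit 3114) (nat_lit 193) (.e (nat_lit 500074) (nat_lit 20) (.e (nat_lit 81951) (nat_lit 22) (.e (nat_lit 90165) (nat_lit 12) (.e (nat_lit 164208) (nat_lit 176) (.e (nat_lit 2810) (nat_lit 180) (.e (nat_lit 303106) (nat_lit 0) .nil))))))) (.g (nat_lit 1) (.e (nat_lit 73455) (nat_lit 0) .nil) .nil)))) (.nd (nat_lit 9) 
(.lf (nat_lit 464322) (.g (nat_lit 3618) (.e (nat_lit 3098) (nat_lit 192) (.e (nat_lit 491569) (nat_lit 13) (.e (nat_lit 393301) (nat_lit 27) (.e (nat_lit 491560) (nat_lit 10) (.e (nat_lit 344170) (nat_lit 41) (.e (nat_lit 753672) (nat_lit 5) .nil)))))) (.g (nat_lit 1) (.e (nat_lit 73099) (nat_lit 0) .nil) .nil))) 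
(.lf (nat_lit 464834) (.g (nat_lit 3909) (.e (nat_lit 3231) (nat_lit 197) (.e (nat_lit 532550) (nat_lit 12) (.e (nat_lit 360474) (nat_lit 8) (.e (nat_lit 557093) (nat_lit 12) .nil)))) (.g (nat_lit 0) (.e (nat_lit 73930) (nat_lit 0) .nil) .nil))))))) (.nd (nat_lit 6) (.nd (nat_lit 7) (.nd (nat_lit 8) (.nd (nat_lit 9) 
(.lf (nat_lit 463906) (.g (nat_lit 558) (.e (nat_lit 3096) (nat_lit 192) (.e (nat_lit 491568) (nat_lit 13) (.e (nat_lit 393301) (nat_lit 27) .nil))) (.g (nat_lit 0) (.e (nat_lit 72483) (nat_lit 0) .nil) .nil))) 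
(.lf (nat_lit 464418) (.g (nat_lit 2089) (.e (nat_lit 3102) (nat_lit 192) (.e (nat_lit 491558) (nat_lit 10) (.e (nat_lit 344129) (nat_lit 26) (.e (nat_lit 557087) (nat_lit 11) (.e (nat_lit 24632) (nat_lit 9) (.e (nat_lit 336013) (nat_lit 2) (.e (nat_lit 90141) (nat_lit 9) .nil))))))) (.g (nat_lit 1) (.e (nat_lit 73254) (nat_lit 0) .nil) .nil)))) (.nd (nat_lit 9) 
(.lf (nat_lit 464162) (.g (nat_lit 2734) (.e (nat_lit 3098) (nat_lit 192) (.e (nat_lit 491569) (nat_lit 13) (.e (nat_lit 393301) (nat_lit 27) (.e (nat_lit 491558) (nat_lit 10) (.e (nat_lit 344088) (nat_lit 18) .nil))))) (.g (nat_lit 0) (.e (nat_lit 72939) (nat_lit 0) .nil) .nil))) 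
(.lf (nat_lit 464674) (.g (nat_lit 1989) (.e (nat_lit 3230) (nat_lit 197) (.e (nat_lit 532503) (nat_lit 1) (.e (nat_lit 57929) (nat_lit 282) (.e (nat_lit 163869) (nat_lit 2) (.e (nat_lit 196670) (nat_lit 14) .nil))))) (.g (nat_lit 0) (.e (nat_lit 73654) (nat_lit 0) .nil) .nil))))) (.nd (nat_lit 8) (.nd (nat_lit 9) 
(.lf (nat_lit 464034) (.g (nat_lit 2116) (.e (nat_lit 3098) (nat_lit 192) (.e (nat_lit 491537) (nat_lit 2) (.e (nat_lit 90176) (nat_lit 15) (.e (nat_lit 188447) (nat_lit 22) (.e (nat_lit 196661) (nat_lit 12) (.e (nat_lit 65280) (nat_lit 201) .nil)))))) (.g (nat_lit 1) (.e (nat_lit 72679) (nat_lit 0) .nil) .nil))) 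
(.lf (nat_lit 464546) (.g (nat_lit 3177) (.e (nat_lit 3105) (nat_lit 192) (.e (nat_lit 491569) (nat_lit 13) (.e (nat_lit 393301) (nat_lit 27) (.e (nat_lit 491558) (nat_lit 10) (.e (nat_lit 344088) (nat_lit 18) .nil))))) (.g (nat_lit 0) (.e (nat_lit 73400) (nat_lit 0) .nil) .nil)))) (.nd (nat_lit 9) 
(.lf (nat_lit 464290) (.g (nat_lit 3627) (.e (nat_lit 3098) (nat_lit 192) (.e (nat_lit 491569) (nat_lit 13) (.e (nat_lit 393301) (nat_lit 27) (.e (nat_lit 491560) (nat_lit 10) (.e (nat_lit 344091) (nat_lit 18) (.e (nat_lit 6852) (nat_lit 371) (.e (nat_lit 2450) (nat_lit 157) .nil))))))) (.g (nat_lit 1) (.e (nat_lit 73067) (nat_lit 0) .nil) .nil))) 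
(.lf (nat_lit 464802) (.g (nat_lit 5371) (.e (nat_lit 3230) (nat_lit 197) (.e (nat_lit 532550) (nat_lit 12) (.e (nat_lit 360475) (nat_lit 8) (.e (nat_lit 557091) (nat_lit 12) (.e (nat_lit 164022) (nat_lit 46) (.e (nat_lit 704737) (nat_lit 11) (.e (nat_lit 16396) (nat_lit 0) .nil))))))) (.g (nat_lit 1) (.e (nat_lit 73860) (nat_lit 0) .nil) .nil)))))) 
(.nd (nat_lit 7) (.nd (nat_lit 8) (.nd (nat_lit 9) 
(.lf (nat_lit 463970) (.g (nat_lit 4516) (.e (nat_lit 3097) (nat_lit 192) (.e (nat_lit 491566) (nat_lit 12) (.e (nat_lit 385072) (nat_lit 31) (.e (nat_lit 573485) (nat_lit 13) (.e (nat_lit 65604) (nat_lit 9) (.e (nat_lit 336013) (nat_lit 2) (.e (nat_lit 90134) (nat_lit 9) .nil))))))) (.g (nat_lit 1) (.e (nat_lit 72574) (nat_lit 0) .nil) .nil))) 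
(.lf (nat_lit 464482) (.g (nat_lit 2282) (.e (nat_lit 3103) (nat_lit 192) (.e (nat_lit 491569) (nat_lit 13) (.e (nat_lit 393301) (nat_lit 27) (.e (nat_lit 491560) (nat_lit 10) .nil)))) (.g (nat_lit 0) (.e (nat_lit 73324) (nat_lit 0) .nil) .nil)))) (.nd (nat_lit 9) 
(.lf (nat_lit 464226) (.g (nat_lit 3510) (.e (nat_lit 3098) (nat_lit 192) (.e (nat_lit 491569) (nat_lit 13) (.e (nat_lit 393301) (nat_lit 27) (.e (nat_lit 491559) (nat_lit 10) (.e (nat_lit 344171) (nat_lit 41) (.e (nat_lit 753674) (nat_lit 5) .nil)))))) (.g (nat_lit 1) (.e (nat_lit 73003) (nat_lit 0) .nil) .nil))) 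
(.lf (nat_lit 464738) (.g (nat_lit 2910) (.e (nat_lit 3230) (nat_lit 197) (.e (nat_lit 532504) (nat_lit 1) (.e (nat_lit 57851) (nat_lit 252) (.e (nat_lit 57406) (nat_lit 12) (.e (nat_lit 336456) (nat_lit 34) (.e (nat_lit 483393) (nat_lit 23) (.e (nat_lit 336291) (nat_lit 15) .nil))))))) (.g (nat_lit 1) (.e (nat_lit 73727) (nat_lit 0) .nil) .nil))))) (.nd (nat_lit 8) (.nd (nat_lit 9) 
(.lf (nat_lit 464098) (.g (nat_lit 4352) (.e (nat_lit 3098) (nat_lit 192) (.e (nat_lit 491565) (nat_lit 12) (.e (nat_lit 385074) (nat_lit 31) (.e (nat_lit 573482) (nat_lit 13) (.e (nat_lit 65604) (nat_lit 9) (.e (nat_lit 336013) (nat_lit 2) (.e (nat_lit 90134) (nat_lit 9) .nil))))))) (.g (nat_lit 1) (.e (nat_lit 72756) (nat_lit 0) .nil) .nil))) 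
(.lf (nat_lit 464610) (.g (nat_lit 3677) (.e (nat_lit 3141) (nat_lit 193) (.e (nat_lit 500079) (nat_lit 20) (.e (nat_lit 81956) (nat_lit 23) (.e (nat_lit 98350) (nat_lit 24) (.e (nat_lit 409649) (nat_lit 18) .nil))))) (.g (nat_lit 0) (.e (nat_lit 73513) (nat_lit 0) .nil) .nil)))) (.nd (nat_lit 9) 
(.lf (nat_lit 464354) (.g (nat_lit 3501) (.e (nat_lit 3098) (nat_lit 192) (.e (nat_lit 491571) (nat_lit 13) (.e (nat_lit 393260) (nat_lit 21) (.e (nat_lit 409646) (nat_lit 18) .nil)))) (.g (nat_lit 0) (.e (nat_lit 73159) (nat_lit 0) .nil) .nil))) 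
(.lf (nat_lit 464866) (.g (nat_lit 4538) (.e (nat_lit 3232) (nat_lit 197) (.e (nat_lit 532550) (nat_lit 12) (.e (nat_lit 360475) (nat_lit 8) (.e (nat_lit 557091) (nat_lit 12) .nil)))) (.g (nat_lit 0) (.e (nat_lit 74002) (nat_lit 0) .nil) .nil)))))))) (.nd (nat_lit 5) (.nd (nat_lit 6) (.nd (nat_lit 7) (.nd (nat_lit 8) (.nd (nat_lit 9) 
(.lf (nat_lit 463890) (.g (nat_lit 5313) (.e (nat_lit 3096) (nat_lit 192) (.e (nat_lit 491566) (nat_lit 12) (.e (nat_lit 385072) (nat_lit 31) (.e (nat_lit 573493) (nat_lit 15) (.e (nat_lit 81953) (nat_lit 22) (.e (nat_lit 90134) (nat_lit 9) .nil)))))) (.g (nat_lit 1) (.e (nat_lit 72452) (nat_lit 0) .nil) .nil))) 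
(.lf (nat_lit 464402) (.g (nat_lit 1009) (.e (nat_lit 3102) (nat_lit 192) (.e (nat_lit 491558) (nat_lit 10) (.e (nat_lit 344115) (nat_lit 20) (.e (nat_lit 507908) (nat_lit 0) .nil)))) (.g (nat_lit 0) (.e (nat_lit 73238) (nat_lit 0) .nil) .nil)))) (.nd (nat_lit 9) 
(.lf (nat_lit 464146) (.g (nat_lit 3288) (.e (nat_lit 3098) (nat_lit 192) (.e (nat_lit 491568) (nat_lit 13) (.e (nat_lit 393301) (nat_lit 27) (.e (nat_lit 491560) (nat_lit 10) (.e (nat_lit 344096) (nat_lit 18) (.e (nat_lit 6855) (nat_lit 371) (.e (nat_lit 2440) (nat_lit 157) .nil))))))) (.g (nat_lit 1) (.e (nat_lit 72920) (nat_lit 0) .nil) .nil))) 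
(.lf (nat_lit 464658) (.g (nat_lit 582) (.e (nat_lit 3230) (nat_lit 197) (.e (nat_lit 532503) (nat_lit 1) (.e (nat_lit 57844) (nat_lit 252) .nil))) (.g (nat_lit 0) (.e (nat_lit 73638) (nat_lit 0) .nil) .nil))))) (.nd (nat_lit 8) (.nd (nat_lit 9) 
(.lf (nat_lit 464018) (.g (nat_lit 4733) (.e (nat_lit 3098) (nat_lit 192) (.e (nat_lit 491537) (nat_lit 2) (.e (nat_lit 90170) (nat_lit 13) (.e (nat_lit 172106) (nat_lit 10) (.e (nat_lit 434231) (nat_lit 23) (.e (nat_lit 532481) (nat_lit 0) (.e (nat_lit 6637) (nat_lit 357) .nil))))))) (.g (nat_lit 1) (.e (nat_lit 72663) (nat_lit 0) .nil) .nil))) 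
(.lf (nat_lit 464530) (.g (nat_lit 2342) (.e (nat_lit 3105) (nat_lit 192) (.e (nat_lit 491566) (nat_lit 12) (.e (nat_lit 385105) (nat_lit 50) (.e (nat_lit 786483) (nat_lit 30) (.e (nat_lit 360451) (nat_lit 0) .nil))))) (.g (nat_lit 0) (.e (nat_lit 73384) (nat_lit 0) .nil) .nil)))) (.nd (nat_lit 9) 
(.lf (nat_lit 464274) (.g (nat_lit 3767) (.e (nat_lit 3098) (nat_lit 192) (.e (nat_lit 491569) (nat_lit 13) (.e (nat_lit 393301) (nat_lit 27) (.e (nat_lit 491560) (nat_lit 10) (.e (nat_lit 344089) (nat_lit 18) (.e (nat_lit 6916) (nat_lit 371) (.e (nat_lit 2448) (nat_lit 157) .nil))))))) (.g (nat_lit 1) (.e (nat_lit 73051) (nat_lit 0) .nil) .nil))) 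
(.lf (nat_lit 464786) (.g (nat_lit 3241) (.e (nat_lit 3230) (nat_lit 197) (.e (nat_lit 532550) (nat_lit 12) (.e (nat_lit 360474) (nat_lit 8) (.e (nat_lit 557094) (nat_lit 12) (.e (nat_lit 164022) (nat_lit 46) (.e (nat_lit 704738) (nat_lit 11) (.e (nat_lit 16389) (nat_lit 0) .nil))))))) (.g (nat_lit 1) (.e (nat_lit 73842) (nat_lit 0) .nil) .nil)))))) 
(.nd (nat_lit 7) (.nd (nat_lit 8) (.nd (nat_lit 9) 
(.lf (nat_lit 463954) (.g (nat_lit 825) (.e (nat_lit 3096) (nat_lit 192) (.e (nat_lit 491570) (nat_lit 13) (.e (nat_lit 393253) (nat_lit 18) .nil))) (.g (nat_lit 0) (.e (nat_lit 72531) (nat_lit 0) .nil) .nil))) 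
(.lf (nat_lit 464466) (.g (nat_lit 3449) (.e (nat_lit 3102) (nat_lit 192) (.e (nat_lit 491563) (nat_lit 12) (.e (nat_lit 385102) (nat_lit 50) (.e (nat_lit 786483) (nat_lit 30) (.e (nat_lit 360484) (nat_lit 15) (.e (nat_lit 647171) (nat_lit 0) .nil)))))) (.g (nat_lit 1) (.e (nat_lit 73305) (nat_lit 0) .nil) .nil)))) (.nd (nat_lit 9) 
(.lf (nat_lit 464210) (.g (nat_lit 3801) (.e (nat_lit 3098) (nat_lit 192) (.e (nat_lit 491569) (nat_lit 13) (.e (nat_lit 393301) (nat_lit 27) (.e (nat_lit 491559) (nat_lit 10) (.e (nat_lit 344091) (nat_lit 18) (.e (nat_lit 6923) (nat_lit 371) (.e (nat_lit 2428) (nat_lit 157) .nil))))))) (.g (nat_lit 1) (.e (nat_lit 72987) (nat_lit 0) .nil) .nil))) 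
(.lf (nat_lit 464722) (.g (nat_lit 3453) (.e (nat_lit 3230) (nat_lit 197) (.e (nat_lit 532504) (nat_lit 1) (.e (nat_lit 57851) (nat_lit 252) (.e (nat_lit 57406) (nat_lit 12) (.e (nat_lit 336367) (nat_lit 27) (.e (nat_lit 426542) (nat_lit 29) (.e (nat_lit 352267) (nat_lit 0) .nil))))))) (.g (nat_lit 1) (.e (nat_lit 73711) (nat_lit 0) .nil) .nil))))) (.nd (nat_lit 8) (.nd (nat_lit 9) 
(.lf (nat_lit 464082) (.g (nat_lit 2082) (.e (nat_lit 3098) (nat_lit 192) (.e (nat_lit 491564) (nat_lit 12) (.e (nat_lit 385074) (nat_lit 31) (.e (nat_lit 573482) (nat_lit 13) .nil)))) (.g (nat_lit 0) (.e (nat_lit 72738) (nat_lit 0) .nil) .nil))) 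
(.lf (nat_lit 464594) (.g (nat_lit 2985) (.e (nat_lit 3124) (nat_lit 193) (.e (nat_lit 500076) (nat_lit 20) (.e (nat_lit 81956) (nat_lit 23) (.e (nat_lit 98350) (nat_lit 24) (.e (nat_lit 409648) (nat_lit 18) .nil))))) (.g (nat_lit 0) (.e (nat_lit 73475) (nat_lit 0) .nil) .nil)))) (.nd (nat_lit 9) 
(.lf (nat_lit 464338) (.g (nat_lit 625) (.e (nat_lit 3098) (nat_lit 192) (.e (nat_lit 491571) (nat_lit 13) (.e (nat_lit 393242) (nat_lit 17) .nil))) (.g (nat_lit 0) (.e (nat_lit 73128) (nat_lit 0) .nil) .nil))) 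
(.lf (nat_lit 464850) (.g (nat_lit 1860) (.e (nat_lit 3232) (nat_lit 197) (.e (nat_lit 532501) (nat_lit 1) (.e (nat_lit 57851) (nat_lit 252) (.e (nat_lit 57406) (nat_lit 12) .nil)))) (.g (nat_lit 0) (.e (nat_lit 73955) (nat_lit 0) .nil) .nil))))))) (.nd (nat_lit 6) (.nd (nat_lit 7) (.nd (nat_lit 8) (.nd (nat_lit 9) 
(.lf (nat_lit 463922) (.g (nat_lit 2885) (.e (nat_lit 3096) (nat_lit 192) (.e (nat_lit 491569) (nat_lit 13) (.e (nat_lit 393301) (nat_lit 27) (.e (nat_lit 491558) (nat_lit 10) (.e (nat_lit 344172) (nat_lit 41) (.e (nat_lit 753680) (nat_lit 5) .nil)))))) (.g (nat_lit 1) (.e (nat_lit 72499) (nat_lit 0) .nil) .nil))) 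
(.lf (nat_lit 464434) (.g (nat_lit 3049) (.e (nat_lit 3102) (nat_lit 192) (.e (nat_lit 491560) (nat_lit 10) (.e (nat_lit 344115) (nat_lit 20) (.e (nat_lit 507908) (nat_lit 0) (.e (nat_lit 5403) (nat_lit 302) (.e (nat_lit 65577) (nat_lit 5) (.e (nat_lit 139289) (nat_lit 9) .nil))))))) (.g (nat_lit 1) (.e (nat_lit 73270) (nat_lit 0) .nil) .nil)))) (.nd (nat_lit 9) 
(.lf (nat_lit 464178) (.g (nat_lit 2975) (.e (nat_lit 3098) (nat_lit 192) (.e (nat_lit 491569) (nat_lit 13) (.e (nat_lit 393301) (nat_lit 27) (.e (nat_lit 491558) (nat_lit 10) (.e (nat_lit 344091) (nat_lit 18) (.e (nat_lit 6923) (nat_lit 371) (.e (nat_lit 2416) (nat_lit 157) .nil))))))) (.g (nat_lit 1) (.e (nat_lit 72955) (nat_lit 0) .nil) .nil))) 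
(.lf (nat_lit 464690) (.g (nat_lit 2366) (.e (nat_lit 3230) (nat_lit 197) (.e (nat_lit 532503) (nat_lit 1) (.e (nat_lit 57931) (nat_lit 282) (.e (nat_lit 163867) (nat_lit 2) (.e (nat_lit 196670) (nat_lit 14) (.e (nat_lit 73746) (nat_lit 3) (.e (nat_lit 516129) (nat_lit 3) (.e (nat_lit 221201) (nat_lit 20) .nil)))))))) (.g (nat_lit 1) (.e (nat_lit 73670) (nat_lit 0) .nil) .nil))))) 
(.nd (nat_lit 8) (.nd (nat_lit 9) 
(.lf (nat_lit 464050) (.g (nat_lit 3139) (.e (nat_lit 3098) (nat_lit 192) (.e (nat_lit 491546) (nat_lit 9) (.e (nat_lit 336028) (nat_lit 3) (.e (nat_lit 98350) (nat_lit 24) (.e (nat_lit 409648) (nat_lit 18) (.e (nat_lit 303108) (nat_lit 0) (.e (nat_lit 3271) (nat_lit 199) (.e (nat_lit 548898) (nat_lit 14) .nil)))))))) (.g (nat_lit 1) (.e (nat_lit 72696) (nat_lit 0) .nil) .nil))) 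
(.lf (nat_lit 464562) (.g (nat_lit 3159) (.e (nat_lit 3105) (nat_lit 192) (.e (nat_lit 491569) (nat_lit 13) (.e (nat_lit 393301) (nat_lit 27) (.e (nat_lit 491560) (nat_lit 10) (.e (nat_lit 344091) (nat_lit 18) .nil))))) (.g (nat_lit 0) (.e (nat_lit 73416) (nat_lit 0) .nil) .nil)))) (.nd (nat_lit 9) 
(.lf (nat_lit 464306) (.g (nat_lit 2932) (.e (nat_lit 3098) (nat_lit 192) (.e (nat_lit 491569) (nat_lit 13) (.e (nat_lit 393301) (nat_lit 27) (.e (nat_lit 491560) (nat_lit 10) (.e (nat_lit 344096) (nat_lit 18) .nil))))) (.g (nat_lit 0) (.e (nat_lit 73083) (nat_lit 0) .nil) .nil))) 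
(.lf (nat_lit 464818) (.g (nat_lit 664) (.e (nat_lit 3231) (nat_lit 197) (.e (nat_lit 532501) (nat_lit 1) (.e (nat_lit 57852) (nat_lit 252) .nil))) (.g (nat_lit 0) (.e (nat_lit 73877) (nat_lit 0) .nil) .nil)))))) (.nd (nat_lit 7) (.nd (nat_lit 8) (.nd (nat_lit 9) 
(.lf (nat_lit 463986) (.g (nat_lit 1995) (.e (nat_lit 3097) (nat_lit 192) (.e (nat_lit 491566) (nat_lit 12) (.e (nat_lit 385074) (nat_lit 31) (.e (nat_lit 573493) (nat_lit 15) (.e (nat_lit 81951) (nat_lit 22) .nil))))) (.g (nat_lit 0) (.e (nat_lit 72591) (nat_lit 0) .nil) .nil))) 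
(.lf (nat_lit 464498) (.g (nat_lit 1735) (.e (nat_lit 3104) (nat_lit 192) (.e (nat_lit 491569) (nat_lit 13) (.e (nat_lit 393301) (nat_lit 27) (.e (nat_lit 491558) (nat_lit 10) .nil)))) (.g (nat_lit 0) (.e (nat_lit 73341) (nat_lit 0) .nil) .nil)))) (.nd (nat_lit 9) 
(.lf (nat_lit 464242) (.g (nat_lit 2882) (.e (nat_lit 3098) (nat_lit 192) (.e (nat_lit 491569) (nat_lit 13) (.e (nat_lit 393301) (nat_lit 27) (.e (nat_lit 491560) (nat_lit 10) (.e (nat_lit 344088) (nat_lit 18) (.e (nat_lit 6848) (nat_lit 371) (.e (nat_lit 2433) (nat_lit 157) .nil))))))) (.g (nat_lit 1) (.e (nat_lit 73019) (nat_lit 0) .nil) .nil))) 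
(.lf (nat_lit 464754) (.g (nat_lit 3458) (.e (nat_lit 3230) (nat_lit 197) (.e (nat_lit 532535) (nat_lit 9) (.e (nat_lit 336099) (nat_lit 9) (.e (nat_lit 336013) (nat_lit 2) (.e (nat_lit 90165) (nat_lit 12) (.e (nat_lit 164208) (nat_lit 176) (.e (nat_lit 2819) (nat_lit 181) (.e (nat_lit 311303) (nat_lit 0) .nil)))))))) (.g (nat_lit 1) (.e (nat_lit 73791) (nat_lit 0) .nil) .nil))))) 
(.nd (nat_lit 8) (.nd (nat_lit 9) 
(.lf (nat_lit 464114) (.g (nat_lit 5532) (.e (nat_lit 3098) (nat_lit 192) (.e (nat_lit 491566) (nat_lit 12) (.e (nat_lit 385072) (nat_lit 31) (.e (nat_lit 573493) (nat_lit 15) (.e (nat_lit 81953) (nat_lit 22) (.e (nat_lit 90134) (nat_lit 9) .nil)))))) (.g (nat_lit 1) (.e (nat_lit 72811) (nat_lit 0) .nil) .nil))) 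
(.lf (nat_lit 464626) (.g (nat_lit 6272) (.e (nat_lit 3227) (nat_lit 197) (.e (nat_lit 532550) (nat_lit 12) (.e (nat_lit 360475) (nat_lit 8) (.e (nat_lit 557091) (nat_lit 12) (.e (nat_lit 164022) (nat_lit 46) (.e (nat_lit 704737) (nat_lit 11) (.e (nat_lit 16388) (nat_lit 0) .nil))))))) (.g (nat_lit 1) (.e (nat_lit 73587) (nat_lit 0) .nil) .nil)))) (.nd (nat_lit 9) 
(.lf (nat_lit 464370) (.g (nat_lit 2909) (.e (nat_lit 3099) (nat_lit 192) (.e (nat_lit 491566) (nat_lit 12) (.e (nat_lit 385105) (nat_lit 50) (.e (nat_lit 786483) (nat_lit 30) (.e (nat_lit 360484) (nat_lit 15) (.e (nat_lit 647171) (nat_lit 0) .nil)))))) (.g (nat_lit 1) (.e (nat_lit 73191) (nat_lit 0) .nil) .nil))) 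
(.lf (nat_lit 464882) (.g (nat_lit 1248) (.e (nat_lit 3234) (nat_lit 197) (.e (nat_lit 532510) (nat_lit 2) (.e (nat_lit 106536) (nat_lit 11) (.e (nat_lit 16413) (nat_lit 2) (.e (nat_lit 196672) (nat_lit 15) (.e (nat_lit 89856) (nat_lit 0) .nil)))))) (.g (nat_lit 1) (.e (nat_lit 74024) (nat_lit 0) .nil) .nil))))))))) 
(.nd (nat_lit 4) (.nd (nat_lit 5) (.nd (nat_lit 6) (.nd (nat_lit 7) (.nd (nat_lit 8) 
(.nd (nat_lit 9) 
(.lf (nat_lit 463882) (.g (nat_lit 1900) (.e (nat_lit 3096) (nat_lit 192) (.e (nat_lit 491565) (nat_lit 12) (.e (nat_lit 385102) (nat_lit 50) (.e (nat_lit 786483) (nat_lit 30) (.e (nat_lit 360484) (nat_lit 15) (.e (nat_lit 647172) (nat_lit 0) .nil)))))) (.g (nat_lit 1) (.e (nat_lit 72443) (nat_lit 0) .nil) .nil))) 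
(.lf (nat_lit 464394) (.g (nat_lit 2230) (.e (nat_lit 3102) (nat_lit 192) (.e (nat_lit 491558) (nat_lit 10) (.e (nat_lit 344115) (nat_lit 20) (.e (nat_lit 507907) (nat_lit 0) (.e (nat_lit 5412) (nat_lit 303) (.e (nat_lit 73739) (nat_lit 1) (.e (nat_lit 499833) (nat_lit 5) .nil))))))) (.g (nat_lit 1) (.e (nat_lit 73230) (nat_lit 0) .nil) .nil)))) (.nd (nat_lit 9) 
(.lf (nat_lit 464138) (.g (nat_lit 2269) (.e (nat_lit 3098) (nat_lit 192) (.e (nat_lit 491568) (nat_lit 13) (.e (nat_lit 393251) (nat_lit 18) (.e (nat_lit 164179) (nat_lit 154) .nil)))) (.g (nat_lit 0) (.e (nat_lit 72912) (nat_lit 0) .nil) .nil))) 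
(.lf (nat_lit 464650) (.g (nat_lit 1526) (.e (nat_lit 3230) (nat_lit 197) (.e (nat_lit 532501) (nat_lit 1) (.e (nat_lit 57851) (nat_lit 252) (.e (nat_lit 57406) (nat_lit 12) .nil)))) (.g (nat_lit 0) (.e (nat_lit 73621) (nat_lit 0) .nil) .nil))))) (.nd (nat_lit 8) (.nd (nat_lit 9) 
(.lf (nat_lit 464010) (.g (nat_lit 2901) (.e (nat_lit 3098) (nat_lit 192) (.e (nat_lit 491537) (nat_lit 2) (.e (nat_lit 90170) (nat_lit 13) (.e (nat_lit 172106) (nat_lit 10) (.e (nat_lit 434227) (nat_lit 20) (.e (nat_lit 507929) (nat_lit 10) (.e (nat_lit 5627) (nat_lit 312) .nil))))))) (.g (nat_lit 1) (.e (nat_lit 72655) (nat_lit 0) .nil) .nil))) 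
(.lf (nat_lit 464522) (.g (nat_lit 4026) (.e (nat_lit 3105) (nat_lit 192) (.e (nat_lit 491566) (nat_lit 12) (.e (nat_lit 385073) (nat_lit 31) (.e (nat_lit 573493) (nat_lit 15) (.e (nat_lit 81951) (nat_lit 22) (.e (nat_lit 90133) (nat_lit 9) .nil)))))) (.g (nat_lit 1) (.e (nat_lit 73370) (nat_lit 0) .nil) .nil)))) (.nd (nat_lit 9) 
(.lf (nat_lit 464266) (.g (nat_lit 2776) (.e (nat_lit 3098) (nat_lit 192) (.e (nat_lit 491569) (nat_lit 13) (.e (nat_lit 393301) (nat_lit 27) (.e (nat_lit 491560) (nat_lit 10) (.e (nat_lit 344089) (nat_lit 18) (.e (nat_lit 6863) (nat_lit 371) (.e (nat_lit 2450) (nat_lit 157) .nil))))))) (.g (nat_lit 1) (.e (nat_lit 73043) (nat_lit 0) .nil) .nil))) 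
(.lf (nat_lit 464778) (.g (nat_lit 3690) (.e (nat_lit 3230) (nat_lit 197) (.e (nat_lit 532550) (nat_lit 12) (.e (nat_lit 360474) (nat_lit 8) (.e (nat_lit 557093) (nat_lit 12) (.e (nat_lit 164023) (nat_lit 46) (.e (nat_lit 704738) (nat_lit 11) (.e (nat_lit 16397) (nat_lit 0) .nil))))))) (.g (nat_lit 1) (.e (nat_lit 73834) (nat_lit 0) .nil) .nil)))))) 
(.nd (nat_lit 7) (.nd (nat_lit 8) (.nd (nat_lit 9) 
(.lf (nat_lit 463946) (.g (nat_lit 2552) (.e (nat_lit 3096) (nat_lit 192) (.e (nat_lit 491569) (nat_lit 13) (.e (nat_lit 393301) (nat_lit 27) (.e (nat_lit 491560) (nat_lit 10) (.e (nat_lit 344171) (nat_lit 41) .nil))))) (.g (nat_lit 0) (.e (nat_lit 72523) (nat_lit 0) .nil) .nil))) 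
(.lf (nat_lit 464458) (.g (nat_lit 2386) (.e (nat_lit 3102) (nat_lit 192) (.e (nat_lit 491560) (nat_lit 10) (.e (nat_lit 344126) (nat_lit 25) (.e (nat_lit 548874) (nat_lit 5) (.e (nat_lit 1599) (nat_lit 111) .nil))))) (.g (nat_lit 0) (.e (nat_lit 73296) (nat_lit 0) .nil) .nil)))) (.nd (nat_lit 9) 
(.lf (nat_lit 464202) (.g (nat_lit 1540) (.e (nat_lit 3098) (nat_lit 192) (.e (nat_lit 491569) (nat_lit 13) (.e (nat_lit 393301) (nat_lit 27) (.e (nat_lit 491559) (nat_lit 10) .nil)))) (.g (nat_lit 0) (.e (nat_lit 72979) (nat_lit 0) .nil) .nil))) 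
(.lf (nat_lit 464714) (.g (nat_lit 2981) (.e (nat_lit 3230) (nat_lit 197) (.e (nat_lit 532503) (nat_lit 1) (.e (nat_lit 57931) (nat_lit 282) (.e (nat_lit 163874) (nat_lit 3) (.e (nat_lit 204862) (nat_lit 27) (.e (nat_lit 344117) (nat_lit 21) (.e (nat_lit 516129) (nat_lit 3) (.e (nat_lit 221196) (nat_lit 20) .nil)))))))) (.g (nat_lit 1) (.e (nat_lit 73700) (nat_lit 0) .nil) .nil))))) 
(.nd (nat_lit 8) (.nd (nat_lit 9) 
(.lf (nat_lit 464074) (.g (nat_lit 848) (.e (nat_lit 3098) (nat_lit 192) (.e (nat_lit 491562) (nat_lit 12) (.e (nat_lit 385094) (nat_lit 49) .nil))) (.g (nat_lit 0) (.e (nat_lit 72729) (nat_lit 0) .nil) .nil))) 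
(.lf (nat_lit 464586) (.g (nat_lit 2645) (.e (nat_lit 3114) (nat_lit 193) (.e (nat_lit 500075) (nat_lit 20) (.e (nat_lit 81954) (nat_lit 23) (.e (nat_lit 98350) (nat_lit 24) (.e (nat_lit 409646) (nat_lit 18) (.e (nat_lit 303106) (nat_lit 0) .nil)))))) (.g (nat_lit 1) (.e (nat_lit 73464) (nat_lit 0) .nil) .nil)))) (.nd (nat_lit 9) 
(.lf (nat_lit 464330) (.g (nat_lit 2178) (.e (nat_lit 3098) (nat_lit 192) (.e (nat_lit 491569) (nat_lit 13) (.e (nat_lit 393301) (nat_lit 27) (.e (nat_lit 491563) (nat_lit 12) (.e (nat_lit 392960) (nat_lit 8) .nil))))) (.g (nat_lit 1) (.e (nat_lit 73107) (nat_lit 0) .nil) .nil))) 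
(.lf (nat_lit 464842) (.g (nat_lit 4754) (.e (nat_lit 3231) (nat_lit 197) (.e (nat_lit 532550) (nat_lit 12) (.e (nat_lit 360475) (nat_lit 8) (.e (nat_lit 557091) (nat_lit 12) .nil)))) (.g (nat_lit 0) (.e (nat_lit 73940) (nat_lit 0) .nil) .nil))))))) (.nd (nat_lit 6) (.nd (nat_lit 7) (.nd (nat_lit 8) (.nd (nat_lit 9) 
(.lf (nat_lit 463914) (.g (nat_lit 2873) (.e (nat_lit 3096) (nat_lit 192) (.e (nat_lit 491569) (nat_lit 13) (.e (nat_lit 393301) (nat_lit 27) (.e (nat_lit 491558) (nat_lit 10) (.e (nat_lit 344170) (nat_lit 41) .nil))))) (.g (nat_lit 0) (.e (nat_lit 72491) (nat_lit 0) .nil) .nil))) 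
(.lf (nat_lit 464426) (.g (nat_lit 2405) (.e (nat_lit 3102) (nat_lit 192) (.e (nat_lit 491560) (nat_lit 10) (.e (nat_lit 344115) (nat_lit 20) (.e (nat_lit 507906) (nat_lit 0) (.e (nat_lit 5412) (nat_lit 303) (.e (nat_lit 73739) (nat_lit 1) (.e (nat_lit 499840) (nat_lit 5) .nil))))))) (.g (nat_lit 1) (.e (nat_lit 73262) (nat_lit 0) .nil) .nil)))) (.nd (nat_lit 9) 
(.lf (nat_lit 464170) (.g (nat_lit 2687) (.e (nat_lit 3098) (nat_lit 192) (.e (nat_lit 491569) (nat_lit 13) (.e (nat_lit 393301) (nat_lit 27) (.e (nat_lit 491558) (nat_lit 10) (.e (nat_lit 344090) (nat_lit 18) (.e (nat_lit 6923) (nat_lit 371) (.e (nat_lit 2448) (nat_lit 157) .nil))))))) (.g (nat_lit 1) (.e (nat_lit 72947) (nat_lit 0) .nil) .nil))) 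
(.lf (nat_lit 464682) (.g (nat_lit 2466) (.e (nat_lit 3230) (nat_lit 197) (.e (nat_lit 532503) (nat_lit 1) (.e (nat_lit 57931) (nat_lit 282) (.e (nat_lit 163867) (nat_lit 2) (.e (nat_lit 196663) (nat_lit 13) (.e (nat_lit 65571) (nat_lit 3) (.e (nat_lit 98342) (nat_lit 20) (.e (nat_lit 221197) (nat_lit 20) .nil)))))))) (.g (nat_lit 1) (.e (nat_lit 73662) (nat_lit 0) .nil) .nil))))) 
(.nd (nat_lit 8) (.nd (nat_lit 9) 
(.lf (nat_lit 464042) (.g (nat_lit 3413) (.e (nat_lit 3098) (nat_lit 192) (.e (nat_lit 491537) (nat_lit 2) (.e (nat_lit 90185) (nat_lit 17) (.e (nat_lit 237605) (nat_lit 9) (.e (nat_lit 426131) (nat_lit 3) (.e (nat_lit 204816) (nat_lit 17) (.e (nat_lit 6619) (nat_lit 357) .nil))))))) (.g (nat_lit 1) (.e (nat_lit 72687) (nat_lit 0) .nil) .nil))) 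
(.lf (nat_lit 464554) (.g (nat_lit 3746) (.e (nat_lit 3105) (nat_lit 192) (.e (nat_lit 491569) (nat_lit 13) (.e (nat_lit 393301) (nat_lit 27) (.e (nat_lit 491559) (nat_lit 10) (.e (nat_lit 344091) (nat_lit 18) (.e (nat_lit 6853) (nat_lit 371) (.e (nat_lit 2439) (nat_lit 157) .nil))))))) (.g (nat_lit 1) (.e (nat_lit 73408) (nat_lit 0) .nil) .nil)))) (.nd (nat_lit 9) 
(.lf (nat_lit 464298) (.g (nat_lit 3797) (.e (nat_lit 3098) (nat_lit 192) (.e (nat_lit 491569) (nat_lit 13) (.e (nat_lit 393301) (nat_lit 27) (.e (nat_lit 491560) (nat_lit 10) (.e (nat_lit 344092) (nat_lit 18) .nil))))) (.g (nat_lit 0) (.e (nat_lit 73075) (nat_lit 0) .nil) .nil))) 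
(.lf (nat_lit 464810) (.g (nat_lit 2417) (.e (nat_lit 3230) (nat_lit 197) (.e (nat_lit 532569) (nat_lit 16) (.e (nat_lit 401451) (nat_lit 12) (.e (nat_lit 475185) (nat_lit 29) .nil)))) (.g (nat_lit 0) (.e (nat_lit 73869) (nat_lit 0) .nil) .nil)))))) (.nd (nat_lit 7) (.nd (nat_lit 8) (.nd (nat_lit 9) 
(.lf (nat_lit 463978) (.g (nat_lit 680) (.e (nat_lit 3097) (nat_lit 192) (.e (nat_lit 491566) (nat_lit 12) (.e (nat_lit 385073) (nat_lit 31) .nil))) (.g (nat_lit 0) (.e (nat_lit 72582) (nat_lit 0) .nil) .nil))) 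
(.lf (nat_lit 464490) (.g (nat_lit 2164) (.e (nat_lit 3104) (nat_lit 192) (.e (nat_lit 491568) (nat_lit 13) (.e (nat_lit 393251) (nat_lit 18) (.e (nat_lit 164179) (nat_lit 154) .nil)))) (.g (nat_lit 0) (.e (nat_lit 73333) (nat_lit 0) .nil) .nil)))) (.nd (nat_lit 9) 
(.lf (nat_lit 464234) (.g (nat_lit 3162) (.e (nat_lit 3098) (nat_lit 192) (.e (nat_lit 491569) (nat_lit 13) (.e (nat_lit 393301) (nat_lit 27) (.e (nat_lit 491560) (nat_lit 10) (.e (nat_lit 344087) (nat_lit 18) (.e (nat_lit 6848) (nat_lit 371) (.e (nat_lit 2450) (nat_lit 157) .nil))))))) (.g (nat_lit 1) (.e (nat_lit 73011) (nat_lit 0) .nil) .nil))) 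
(.lf (nat_lit 464746) (.g (nat_lit 1172) (.e (nat_lit 3230) (nat_lit 197) (.e (nat_lit 532535) (nat_lit 9) (.e (nat_lit 336099) (nat_lit 9) .nil))) (.g (nat_lit 0) (.e (nat_lit 73780) (nat_lit 0) .nil) .nil))))) (.nd (nat_lit 8) (.nd (nat_lit 9) 
(.lf (nat_lit 464106) (.g (nat_lit 1373) (.e (nat_lit 3098) (nat_lit 192) (.e (nat_lit 491566) (nat_lit 12) (.e (nat_lit 385060) (nat_lit 22) .nil))) (.g (nat_lit 0) (.e (nat_lit 72769) (nat_lit 0) .nil) .nil))) 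
(.lf (nat_lit 464618) (.g (nat_lit 3726) (.e (nat_lit 3227) (nat_lit 197) (.e (nat_lit 532550) (nat_lit 12) (.e (nat_lit 360474) (nat_lit 8) (.e (nat_lit 557093) (nat_lit 12) .nil)))) (.g (nat_lit 0) (.e (nat_lit 73575) (nat_lit 0) .nil) .nil)))) (.nd (nat_lit 9) 
(.lf (nat_lit 464362) (.g (nat_lit 937) (.e (nat_lit 3099) (nat_lit 192) (.e (nat_lit 491563) (nat_lit 12) (.e (nat_lit 385073) (nat_lit 31) .nil))) (.g (nat_lit 0) (.e (nat_lit 73181) (nat_lit 0) .nil) .nil))) 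
(.lf (nat_lit 464874) (.g (nat_lit 3257) (.e (nat_lit 3234) (nat_lit 197) (.e (nat_lit 532501) (nat_lit 1) (.e (nat_lit 57851) (nat_lit 252) (.e (nat_lit 57406) (nat_lit 12) (.e (nat_lit 336456) (nat_lit 34) (.e (nat_lit 483379) (nat_lit 23) (.e (nat_lit 336302) (nat_lit 15) .nil))))))) (.g (nat_lit 1) (.e (nat_lit 74016) (nat_lit 0) .nil) .nil)))))))) 
(.nd (nat_lit 5) (.nd (nat_lit 6) (.nd (nat_lit 7) (.nd (nat_lit 8) (.nd (nat_lit 9) 
(.lf (nat_lit 463898) (.g (nat_lit 2228) (.e (nat_lit 3096) (nat_lit 192) (.e (nat_lit 491566) (nat_lit 12) (.e (nat_lit 385104) (nat_lit 50) (.e (nat_lit 786483) (nat_lit 30) (.e (nat_lit 360484) (nat_lit 15) .nil))))) (.g (nat_lit 0) (.e (nat_lit 72475) (nat_lit 0) .nil) .nil))) 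
(.lf (nat_lit 464410) (.g (nat_lit 2289) (.e (nat_lit 3102) (nat_lit 192) (.e (nat_lit 491558) (nat_lit 10) (.e (nat_lit 344115) (nat_lit 20) (.e (nat_lit 507908) (nat_lit 0) (.e (nat_lit 5412) (nat_lit 303) (.e (nat_lit 73739) (nat_lit 1) (.e (nat_lit 499847) (nat_lit 5) .nil))))))) (.g (nat_lit 1) (.e (nat_lit 73246) (nat_lit 0) .nil) .nil)))) (.nd (nat_lit 9) 
(.lf (nat_lit 464154) (.g (nat_lit 3209) (.e (nat_lit 3098) (nat_lit 192) (.e (nat_lit 491568) (nat_lit 13) (.e (nat_lit 393301) (nat_lit 27) (.e (nat_lit 491560) (nat_lit 10) (.e (nat_lit 344172) (nat_lit 41) (.e (nat_lit 753674) (nat_lit 5) .nil)))))) (.g (nat_lit 1) (.e (nat_lit 72928) (nat_lit 0) .nil) .nil))) 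
(.lf (nat_lit 464666) (.g (nat_lit 588) (.e (nat_lit 3230) (nat_lit 197) (.e (nat_lit 532503) (nat_lit 1) (.e (nat_lit 57848) (nat_lit 252) .nil))) (.g (nat_lit 0) (.e (nat_lit 73646) (nat_lit 0) .nil) .nil))))) (.nd (nat_lit 8) (.nd (nat_lit 9) 
(.lf (nat_lit 464026) (.g (nat_lit 2780) (.e (nat_lit 3098) (nat_lit 192) (.e (nat_lit 491537) (nat_lit 2) (.e (nat_lit 90170) (nat_lit 13) (.e (nat_lit 172113) (nat_lit 10) (.e (nat_lit 434227) (nat_lit 20) (.e (nat_lit 507928) (nat_lit 10) (.e (nat_lit 5615) (nat_lit 312) .nil))))))) (.g (nat_lit 1) (.e (nat_lit 72671) (nat_lit 0) .nil) .nil))) 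
(.lf (nat_lit 464538) (.g (nat_lit 3020) (.e (nat_lit 3105) (nat_lit 192) (.e (nat_lit 491568) (nat_lit 13) (.e (nat_lit 393301) (nat_lit 27) (.e (nat_lit 491560) (nat_lit 10) (.e (nat_lit 344091) (nat_lit 18) .nil))))) (.g (nat_lit 0) (.e (nat_lit 73392) (nat_lit 0) .nil) .nil)))) (.nd (nat_lit 9) 
(.lf (nat_lit 464282) (.g (nat_lit 3151) (.e (nat_lit 3098) (nat_lit 192) (.e (nat_lit 491569) (nat_lit 13) (.e (nat_lit 393301) (nat_lit 27) (.e (nat_lit 491560) (nat_lit 10) (.e (nat_lit 344090) (nat_lit 18) (.e (nat_lit 6923) (nat_lit 371) (.e (nat_lit 2416) (nat_lit 157) .nil))))))) (.g (nat_lit 1) (.e (nat_lit 73059) (nat_lit 0) .nil) .nil))) 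
(.lf (nat_lit 464794) (.g (nat_lit 6535) (.e (nat_lit 3230) (nat_lit 197) (.e (nat_lit 532550) (nat_lit 12) (.e (nat_lit 360475) (nat_lit 8) (.e (nat_lit 557090) (nat_lit 12) .nil)))) (.g (nat_lit 0) (.e (nat_lit 73852) (nat_lit 0) .nil) .nil)))))) (.nd (nat_lit 7) (.nd (nat_lit 8) (.nd (nat_lit 9) 
(.lf (nat_lit 463962) (.g (nat_lit 1971) (.e (nat_lit 3096) (nat_lit 192) (.e (nat_lit 491571) (nat_lit 13) (.e (nat_lit 393251) (nat_lit 18) (.e (nat_lit 164161) (nat_lit 152) .nil)))) (.g (nat_lit 0) (.e (nat_lit 72548) (nat_lit 0) .nil) .nil))) 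
(.lf (nat_lit 464474) (.g (nat_lit 1364) (.e (nat_lit 3103) (nat_lit 192) (.e (nat_lit 491563) (nat_lit 12) (.e (nat_lit 385102) (nat_lit 50) .nil))) (.g (nat_lit 0) (.e (nat_lit 73313) (nat_lit 0) .nil) .nil)))) (.nd (nat_lit 9) 
(.lf (nat_lit 464218) (.g (nat_lit 3430) (.e (nat_lit 3098) (nat_lit 192) (.e (nat_lit 491569) (nat_lit 13) (.e (nat_lit 393301) (nat_lit 27) (.e (nat_lit 491559) (nat_lit 10) (.e (nat_lit 344170) (nat_lit 41) (.e (nat_lit 753671) (nat_lit 5) .nil)))))) (.g (nat_lit 1) (.e (nat_lit 72995) (nat_lit 0) .nil) .nil))) 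
(.lf (nat_lit 464730) (.g (nat_lit 1835) (.e (nat_lit 3230) (nat_lit 197) (.e (nat_lit 532504) (nat_lit 1) (.e (nat_lit 57851) (nat_lit 252) (.e (nat_lit 57406) (nat_lit 12) (.e (nat_lit 336456) (nat_lit 34) (.e (nat_lit 483387) (nat_lit 23) (.e (nat_lit 336267) (nat_lit 15) .nil))))))) (.g (nat_lit 1) (.e (nat_lit 73719) (nat_lit 0) .nil) .nil))))) (.nd (nat_lit 8) (.nd (nat_lit 9) 
(.lf (nat_lit 464090) (.g (nat_lit 2545) (.e (nat_lit 3098) (nat_lit 192) (.e (nat_lit 491565) (nat_lit 12) (.e (nat_lit 385072) (nat_lit 31) (.e (nat_lit 573492) (nat_lit 15) (.e (nat_lit 81953) (nat_lit 22) (.e (nat_lit 98048) (nat_lit 9) .nil)))))) (.g (nat_lit 1) (.e (nat_lit 72746) (nat_lit 0) .nil) .nil))) 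
(.lf (nat_lit 464602) (.g (nat_lit 1052) (.e (nat_lit 3141) (nat_lit 193) (.e (nat_lit 500065) (nat_lit 18) (.e (nat_lit 65624) (nat_lit 12) (.e (nat_lit 385074) (nat_lit 31) .nil)))) (.g (nat_lit 0) (.e (nat_lit 73502) (nat_lit 0) .nil) .nil)))) (.nd (nat_lit 9) 
(.lf (nat_lit 464346) (.g (nat_lit 2558) (.e (nat_lit 3098) (nat_lit 192) (.e (nat_lit 491571) (nat_lit 13) (.e (nat_lit 393252) (nat_lit 18) (.e (nat_lit 164176) (nat_lit 154) (.e (nat_lit 57421) (nat_lit 13) (.e (nat_lit 344132) (nat_lit 26) (.e (nat_lit 557072) (nat_lit 9) .nil))))))) (.g (nat_lit 1) (.e (nat_lit 73141) (nat_lit 0) .nil) .nil))) 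
(.lf (nat_lit 464858) (.g (nat_lit 3834) (.e (nat_lit 3232) (nat_lit 197) (.e (nat_lit 532550) (nat_lit 12) (.e (nat_lit 360474) (nat_lit 8) (.e (nat_lit 557093) (nat_lit 12) .nil)))) (.g (nat_lit 0) (.e (nat_lit 73992) (nat_lit 0) .nil) .nil))))))) (.nd (nat_lit 6) (.nd (nat_lit 7) (.nd (nat_lit 8) (.nd (nat_lit 9) 
(.lf (nat_lit 463930) (.g (nat_lit 3162) (.e (nat_lit 3096) (nat_lit 192) (.e (nat_lit 491569) (nat_lit 13) (.e (nat_lit 393301) (nat_lit 27) (.e (nat_lit 491559) (nat_lit 10) (.e (nat_lit 344172) (nat_lit 41) .nil))))) (.g (nat_lit 0) (.e (nat_lit 72507) (nat_lit 0) .nil) .nil))) 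
(.lf (nat_lit 464442) (.g (nat_lit 1687) (.e (nat_lit 3102) (nat_lit 192) (.e (nat_lit 491560) (nat_lit 10) (.e (nat_lit 344117) (nat_lit 21) (.e (nat_lit 516097) (nat_lit 0) .nil)))) (.g (nat_lit 0) (.e (nat_lit 73280) (nat_lit 0) .nil) .nil)))) (.nd (nat_lit 9) 
(.lf (nat_lit 464186) (.g (nat_lit 2446) (.e (nat_lit 3098) (nat_lit 192) (.e (nat_lit 491569) (nat_lit 13) (.e (nat_lit 393301) (nat_lit 27) (.e (nat_lit 491558) (nat_lit 10) (.e (nat_lit 344096) (nat_lit 18) (.e (nat_lit 6848) (nat_lit 371) (.e (nat_lit 2440) (nat_lit 157) .nil))))))) (.g (nat_lit 1) (.e (nat_lit 72963) (nat_lit 0) .nil) .nil))) 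
(.lf (nat_lit 464698) (.g (nat_lit 4016) (.e (nat_lit 3230) (nat_lit 197) (.e (nat_lit 532503) (nat_lit 1) (.e (nat_lit 57931) (nat_lit 282) (.e (nat_lit 163869) (nat_lit 2) (.e (nat_lit 196668) (nat_lit 14) (.e (nat_lit 73747) (nat_lit 3) (.e (nat_lit 516129) (nat_lit 3) (.e (nat_lit 221202) (nat_lit 20) .nil)))))))) (.g (nat_lit 1) (.e (nat_lit 73682) (nat_lit 0) .nil) .nil))))) 
(.nd (nat_lit 8) (.nd (nat_lit 9) 
(.lf (nat_lit 464058) (.g (nat_lit 3139) (.e (nat_lit 3098) (nat_lit 192) (.e (nat_lit 491548) (nat_lit 9) (.e (nat_lit 336019) (nat_lit 3) (.e (nat_lit 98389) (nat_lit 33) (.e (nat_lit 491560) (nat_lit 10) (.e (nat_lit 344109) (nat_lit 19) (.e (nat_lit 499828) (nat_lit 5) .nil))))))) (.g (nat_lit 1) (.e (nat_lit 72704) (nat_lit 0) .nil) .nil))) 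
(.lf (nat_lit 464570) (.g (nat_lit 1542) (.e (nat_lit 7936) (nat_lit 192) (.e (nat_lit 491563) (nat_lit 12) (.e (nat_lit 385102) (nat_lit 50) (.e (nat_lit 786483) (nat_lit 30) (.e (nat_lit 360484) (nat_lit 15) .nil))))) (.g (nat_lit 0) (.e (nat_lit 73444) (nat_lit 0) .nil) .nil)))) (.nd (nat_lit 9) 
(.lf (nat_lit 464314) (.g (nat_lit 3398) (.e (nat_lit 3098) (nat_lit 192) (.e (nat_lit 491569) (nat_lit 13) (.e (nat_lit 393301) (nat_lit 27) (.e (nat_lit 491560) (nat_lit 10) (.e (nat_lit 344097) (nat_lit 18) (.e (nat_lit 6900) (nat_lit 371) (.e (nat_lit 2445) (nat_lit 157) .nil))))))) (.g (nat_lit 1) (.e (nat_lit 73091) (nat_lit 0) .nil) .nil))) 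
(.lf (nat_lit 464826) (.g (nat_lit 856) (.e (nat_lit 3231) (nat_lit 197) (.e (nat_lit 532510) (nat_lit 2) (.e (nat_lit 106536) (nat_lit 11) (.e (nat_lit 16416) (nat_lit 3) .nil)))) (.g (nat_lit 0) (.e (nat_lit 73885) (nat_lit 0) .nil) .nil)))))) (.nd (nat_lit 7) (.nd (nat_lit 8) (.nd (nat_lit 9) 
(.lf (nat_lit 463994) (.g (nat_lit 1942) (.e (nat_lit 3097) (nat_lit 192) (.e (nat_lit 491569) (nat_lit 13) (.e (nat_lit 393301) (nat_lit 27) (.e (nat_lit 491558) (nat_lit 10) .nil)))) (.g (nat_lit 0) (.e (nat_lit 72620) (nat_lit 0) .nil) .nil))) 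
(.lf (nat_lit 464506) (.g (nat_lit 3264) (.e (nat_lit 3104) (nat_lit 192) (.e (nat_lit 491569) (nat_lit 13) (.e (nat_lit 393301) (nat_lit 27) (.e (nat_lit 491560) (nat_lit 10) (.e (nat_lit 344091) (nat_lit 18) .nil))))) (.g (nat_lit 0) (.e (nat_lit 73349) (nat_lit 0) .nil) .nil)))) (.nd (nat_lit 9) 
(.lf (nat_lit 464250) (.g (nat_lit 3264) (.e (nat_lit 3098) (nat_lit 192) (.e (nat_lit 491569) (nat_lit 13) (.e (nat_lit 393301) (nat_lit 27) (.e (nat_lit 491560) (nat_lit 10) (.e (nat_lit 344088) (nat_lit 18) (.e (nat_lit 6855) (nat_lit 371) (.e (nat_lit 2440) (nat_lit 157) .nil))))))) (.g (nat_lit 1) (.e (nat_lit 73027) (nat_lit 0) .nil) .nil))) 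
(.lf (nat_lit 464762) (.g (nat_lit 3555) (.e (nat_lit 3230) (nat_lit 197) (.e (nat_lit 532535) (nat_lit 9) (.e (nat_lit 336099) (nat_lit 9) (.e (nat_lit 336028) (nat_lit 3) (.e (nat_lit 98350) (nat_lit 24) (.e (nat_lit 409649) (nat_lit 18) (.e (nat_lit 303107) (nat_lit 0) .nil))))))) (.g (nat_lit 1) (.e (nat_lit 73801) (nat_lit 0) .nil) .nil))))) (.nd (nat_lit 8) (.nd (nat_lit 9) 
(.lf (nat_lit 464122) (.g (nat_lit 3930) (.e (nat_lit 3098) (nat_lit 192) (.e (nat_lit 491566) (nat_lit 12) (.e (nat_lit 385074) (nat_lit 31) (.e (nat_lit 573481) (nat_lit 13) (.e (nat_lit 65604) (nat_lit 9) (.e (nat_lit 336013) (nat_lit 2) (.e (nat_lit 90134) (nat_lit 9) .nil))))))) (.g (nat_lit 1) (.e (nat_lit 72836) (nat_lit 0) .nil) .nil))) 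
(.lf (nat_lit 464634) (.g (nat_lit 5599) (.e (nat_lit 3228) (nat_lit 197) (.e (nat_lit 532550) (nat_lit 12) (.e (nat_lit 360475) (nat_lit 8) (.e (nat_lit 557091) (nat_lit 12) (.e (nat_lit 164022) (nat_lit 46) .nil))))) (.g (nat_lit 0) (.e (nat_lit 73596) (nat_lit 0) .nil) .nil)))) (.nd (nat_lit 9) 
(.lf (nat_lit 464378) (.g (nat_lit 3174) (.e (nat_lit 3100) (nat_lit 192) (.e (nat_lit 491564) (nat_lit 12) (.e (nat_lit 385073) (nat_lit 31) (.e (nat_lit 573493) (nat_lit 15) (.e (nat_lit 81962) (nat_lit 25) (.e (nat_lit 139289) (nat_lit 9) .nil)))))) (.g (nat_lit 1) (.e (nat_lit 73211) (nat_lit 0) .nil) .nil))) 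
(.lf (nat_lit 464890) (.g (nat_lit 4063) (.e (nat_lit 3234) (nat_lit 197) (.e (nat_lit 532535) (nat_lit 9) (.e (nat_lit 336176) (nat_lit 10) (.e (nat_lit 344130) (nat_lit 26) .nil)))) (.g (nat_lit 0) (.e (nat_lit 74069) (nat_lit 0) .nil) .nil)))))))))) (.nd (nat_lit 3) (.nd (nat_lit 4) (.nd (nat_lit 5) (.nd (nat_lit 6) (.nd (nat_lit 7) (.nd (nat_lit 8) (.nd (nat_lit 9) 
(.lf (nat_lit 463878) (.g (nat_lit 1984) (.e (nat_lit 3096) (nat_lit 192) (.e (nat_lit 491565) (nat_lit 12) (.e (nat_lit 385074) (nat_lit 31) (.e (nat_lit 573491) (nat_lit 15) .nil)))) (.g (nat_lit 0) (.e (nat_lit 72439) (nat_lit 0) .nil) .nil))) 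
(.lf (nat_lit 464390) (.g (nat_lit 1550) (.e (nat_lit 3102) (nat_lit 192) (.e (nat_lit 491558) (nat_lit 10) (.e (nat_lit 344115) (nat_lit 20) (.e (nat_lit 507906) (nat_lit 0) (.e (nat_lit 5412) (nat_lit 303) (.e (nat_lit 73739) (nat_lit 1) (.e (nat_lit 499845) (nat_lit 5) .nil))))))) (.g (nat_lit 1) (.e (nat_lit 73226) (nat_lit 0) .nil) .nil)))) (.nd (nat_lit 9) 
(.lf (nat_lit 464134) (.g (nat_lit 3684) (.e (nat_lit 3098) (nat_lit 192) (.e (nat_lit 491566) (nat_lit 12) (.e (nat_lit 385104) (nat_lit 50) (.e (nat_lit 786483) (nat_lit 30) (.e (nat_lit 360485) (nat_lit 16) (.e (nat_lit 655363) (nat_lit 0) .nil)))))) (.g (nat_lit 1) (.e (nat_lit 72906) (nat_lit 0) .nil) .nil))) 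
(.lf (nat_lit 464646) (.g (nat_lit 1968) (.e (nat_lit 3230) (nat_lit 197) (.e (nat_lit 532499) (nat_lit 1) (.e (nat_lit 57927) (nat_lit 282) (.e (nat_lit 163874) (nat_lit 3) (.e (nat_lit 204854) (nat_lit 26) (.e (nat_lit 336019) (nat_lit 3) (.e (nat_lit 98342) (nat_lit 20) (.e (nat_lit 221198) (nat_lit 20) .nil)))))))) (.g (nat_lit 1) (.e (nat_lit 73617) (nat_lit 0) .nil) .nil))))) 
(.nd (nat_lit 8) (.nd (nat_lit 9) 
(.lf (nat_lit 464006) (.g (nat_lit 4058) (.e (nat_lit 3098) (nat_lit 192) (.e (nat_lit 491537) (nat_lit 2) (.e (nat_lit 90170) (nat_lit 13) (.e (nat_lit 172106) (nat_lit 10) (.e (nat_lit 434227) (nat_lit 20) (.e (nat_lit 507928) (nat_lit 10) (.e (nat_lit 5615) (nat_lit 312) .nil))))))) (.g (nat_lit 1) (.e (nat_lit 72651) (nat_lit 0) .nil) .nil))) 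
(.lf (nat_lit 464518) (.g (nat_lit 1543) (.e (nat_lit 3105) (nat_lit 192) (.e (nat_lit 491565) (nat_lit 12) (.e (nat_lit 385102) (nat_lit 50) (.e (nat_lit 786483) (nat_lit 30) (.e (nat_lit 360483) (nat_lit 15) .nil))))) (.g (nat_lit 0) (.e (nat_lit 73366) (nat_lit 0) .nil) .nil)))) (.nd (nat_lit 9) 
(.lf (nat_lit 464262) (.g (nat_lit 3031) (.e (nat_lit 3098) (nat_lit 192) (.e (nat_lit 491569) (nat_lit 13) (.e (nat_lit 393301) (nat_lit 27) (.e (nat_lit 491560) (nat_lit 10) (.e (nat_lit 344088) (nat_lit 18) (.e (nat_lit 6923) (nat_lit 371) (.e (nat_lit 2442) (nat_lit 157) .nil))))))) (.g (nat_lit 1) (.e (nat_lit 73039) (nat_lit 0) .nil) .nil))) 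
(.lf (nat_lit 464774) (.g (nat_lit 4001) (.e (nat_lit 3230) (nat_lit 197) (.e (nat_lit 532550) (nat_lit 12) (.e (nat_lit 360474) (nat_lit 8) (.e (nat_lit 557093) (nat_lit 12) (.e (nat_lit 164022) (nat_lit 46) (.e (nat_lit 704738) (nat_lit 11) (.e (nat_lit 16385) (nat_lit 0) .nil))))))) (.g (nat_lit 1) (.e (nat_lit 73830) (nat_lit 0) .nil) .nil)))))) 
(.nd (nat_lit 7) (.nd (nat_lit 8) (.nd (nat_lit 9) 
(.lf (nat_lit 463942) (.g (nat_lit 2541) (.e (nat_lit 3096) (nat_lit 192) (.e (nat_lit 491569) (nat_lit 13) (.e (nat_lit 393301) (nat_lit 27) (.e (nat_lit 491560) (nat_lit 10) (.e (nat_lit 344094) (nat_lit 18) .nil))))) (.g (nat_lit 0) (.e (nat_lit 72519) (nat_lit 0) .nil) .nil))) 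
(.lf (nat_lit 464454) (.g (nat_lit 3187) (.e (nat_lit 3102) (nat_lit 192) (.e (nat_lit 491560) (nat_lit 10) (.e (nat_lit 344117) (nat_lit 21) (.e (nat_lit 516185) (nat_lit 16) (.e (nat_lit 491560) (nat_lit 10) (.e (nat_lit 344107) (nat_lit 19) (.e (nat_lit 499843) (nat_lit 5) .nil))))))) (.g (nat_lit 1) (.e (nat_lit 73292) (nat_lit 0) .nil) .nil)))) (.nd (nat_lit 9) 
(.lf (nat_lit 464198) (.g (nat_lit 3713) (.e (nat_lit 3098) (nat_lit 192) (.e (nat_lit 491569) (nat_lit 13) (.e (nat_lit 393301) (nat_lit 27) (.e (nat_lit 491558) (nat_lit 10) (.e (nat_lit 344171) (nat_lit 41) (.e (nat_lit 753672) (nat_lit 5) .nil)))))) (.g (nat_lit 1) (.e (nat_lit 72975) (nat_lit 0) .nil) .nil))) 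
(.lf (nat_lit 464710) (.g (nat_lit 3068) (.e (nat_lit 3230) (nat_lit 197) (.e (nat_lit 532503) (nat_lit 1) (.e (nat_lit 57931) (nat_lit 282) (.e (nat_lit 163874) (nat_lit 3) (.e (nat_lit 204851) (nat_lit 26) (.e (nat_lit 336019) (nat_lit 3) (.e (nat_lit 98342) (nat_lit 20) (.e (nat_lit 221198) (nat_lit 20) .nil)))))))) (.g (nat_lit 1) (.e (nat_lit 73694) (nat_lit 0) .nil) .nil))))) 
(.nd (nat_lit 8) (.nd (nat_lit 9) 
(.lf (nat_lit 464070) (.g (nat_lit 2269) (.e (nat_lit 3098) (nat_lit 192) (.e (nat_lit 491562) (nat_lit 12) (.e (nat_lit 385074) (nat_lit 31) (.e (nat_lit 573482) (nat_lit 13) .nil)))) (.g (nat_lit 0) (.e (nat_lit 72725) (nat_lit 0) .nil) .nil))) 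
(.lf (nat_lit 464582) (.g (nat_lit 3239) (.e (nat_lit 3114) (nat_lit 193) (.e (nat_lit 500074) (nat_lit 20) (.e (nat_lit 81956) (nat_lit 23) (.e (nat_lit 98350) (nat_lit 24) (.e (nat_lit 409645) (nat_lit 18) .nil))))) (.g (nat_lit 0) (.e (nat_lit 73459) (nat_lit 0) .nil) .nil)))) (.nd (nat_lit 9) 
(.lf (nat_lit 464326) (.g (nat_lit 3711) (.e (nat_lit 3098) (nat_lit 192) (.e (nat_lit 491569) (nat_lit 13) (.e (nat_lit 393301) (nat_lit 27) (.e (nat_lit 491560) (nat_lit 10) (.e (nat_lit 344172) (nat_lit 41) (.e (nat_lit 753671) (nat_lit 5) .nil)))))) (.g (nat_lit 1) (.e (nat_lit 73103) (nat_lit 0) .nil) .nil))) 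
(.lf (nat_lit 464838) (.g (nat_lit 667) (.e (nat_lit 3231) (nat_lit 197) (.e (nat_lit 532550) (nat_lit 12) (.e (nat_lit 360475) (nat_lit 8) .nil))) (.g (nat_lit 0) (.e (nat_lit 73934) (nat_lit 0) .nil) .nil))))))) (.nd (nat_lit 6) (.nd (nat_lit 7) (.nd (nat_lit 8) (.nd (nat_lit 9) 
(.lf (nat_lit 463910) (.g (nat_lit 2445) (.e (nat_lit 3096) (nat_lit 192) (.e (nat_lit 491569) (nat_lit 13) (.e (nat_lit 393301) (nat_lit 27) (.e (nat_lit 491558) (nat_lit 10) (.e (nat_lit 344090) (nat_lit 18) .nil))))) (.g (nat_lit 0) (.e (nat_lit 72487) (nat_lit 0) .nil) .nil))) 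
(.lf (nat_lit 464422) (.g (nat_lit 3391) (.e (nat_lit 3102) (nat_lit 192) (.e (nat_lit 491559) (nat_lit 10) (.e (nat_lit 344126) (nat_lit 25) (.e (nat_lit 548891) (nat_lit 11) (.e (nat_lit 81962) (nat_lit 25) (.e (nat_lit 139289) (nat_lit 9) .nil)))))) (.g (nat_lit 1) (.e (nat_lit 73258) (nat_lit 0) .nil) .nil)))) (.nd (nat_lit 9) 
(.lf (nat_lit 464166) (.g (nat_lit 3109) (.e (nat_lit 3098) (nat_lit 192) (.e (nat_lit 491569) (nat_lit 13) (.e (nat_lit 393301) (nat_lit 27) (.e (nat_lit 491558) (nat_lit 10) (.e (nat_lit 344088) (nat_lit 18) (.e (nat_lit 6916) (nat_lit 371) (.e (nat_lit 2448) (nat_lit 157) .nil))))))) (.g (nat_lit 1) (.e (nat_lit 72943) (nat_lit 0) .nil) .nil))) 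
(.lf (nat_lit 464678) (.g (nat_lit 2916) (.e (nat_lit 3230) (nat_lit 197) (.e (nat_lit 532503) (nat_lit 1) (.e (nat_lit 57931) (nat_lit 282) (.e (nat_lit 163866) (nat_lit 2) (.e (nat_lit 196668) (nat_lit 14) (.e (nat_lit 73747) (nat_lit 3) (.e (nat_lit 516131) (nat_lit 3) (.e (nat_lit 221197) (nat_lit 20) .nil)))))))) (.g (nat_lit 1) (.e (nat_lit 73658) (nat_lit 0) .nil) .nil))))) 
(.nd (nat_lit 8) (.nd (nat_lit 9) 
(.lf (nat_lit 464038) (.g (nat_lit 826) (.e (nat_lit 3098) (nat_lit 192) (.e (nat_lit 491537) (nat_lit 2) (.e (nat_lit 90177) (nat_lit 15) .nil))) (.g (nat_lit 0) (.e (nat_lit 72683) (nat_lit 0) .nil) .nil))) 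
(.lf (nat_lit 464550) (.g (nat_lit 3200) (.e (nat_lit 3105) (nat_lit 192) (.e (nat_lit 491569) (nat_lit 13) (.e (nat_lit 393301) (nat_lit 27) (.e (nat_lit 491558) (nat_lit 10) (.e (nat_lit 344171) (nat_lit 41) .nil))))) (.g (nat_lit 0) (.e (nat_lit 73404) (nat_lit 0) .nil) .nil)))) (.nd (nat_lit 9) 
(.lf (nat_lit 464294) (.g (nat_lit 3035) (.e (nat_lit 3098) (nat_lit 192) (.e (nat_lit 491569) (nat_lit 13) (.e (nat_lit 393301) (nat_lit 27) (.e (nat_lit 491560) (nat_lit 10) (.e (nat_lit 344091) (nat_lit 18) (.e (nat_lit 6923) (nat_lit 371) (.e (nat_lit 2422) (nat_lit 157) .nil))))))) (.g (nat_lit 1) (.e (nat_lit 73071) (nat_lit 0) .nil) .nil))) 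
(.lf (nat_lit 464806) (.g (nat_lit 3872) (.e (nat_lit 3230) (nat_lit 197) (.e (nat_lit 532550) (nat_lit 12) (.e (nat_lit 360475) (nat_lit 8) (.e (nat_lit 557091) (nat_lit 12) (.e (nat_lit 164022) (nat_lit 46) (.e (nat_lit 704738) (nat_lit 11) (.e (nat_lit 16401) (nat_lit 0) .nil))))))) (.g (nat_lit 1) (.e (nat_lit 73864) (nat_lit 0) .nil) .nil)))))) 
(.nd (nat_lit 7) (.nd (nat_lit 8) (.nd (nat_lit 9) 
(.lf (nat_lit 463974) (.g (nat_lit 5027) (.e (nat_lit 3097) (nat_lit 192) (.e (nat_lit 491566) (nat_lit 12) (.e (nat_lit 385072) (nat_lit 31) (.e (nat_lit 573492) (nat_lit 15) (.e (nat_lit 81953) (nat_lit 22) (.e (nat_lit 90130) (nat_lit 9) .nil)))))) (.g (nat_lit 1) (.e (nat_lit 72578) (nat_lit 0) .nil) .nil))) 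
(.lf (nat_lit 464486) (.g (nat_lit 5139) (.e (nat_lit 3104) (nat_lit 192) (.e (nat_lit 491537) (nat_lit 2) (.e (nat_lit 90170) (nat_lit 13) (.e (nat_lit 172106) (nat_lit 10) (.e (nat_lit 434231) (nat_lit 23) (.e (nat_lit 532482) (nat_lit 0) (.e (nat_lit 6619) (nat_lit 357) .nil))))))) (.g (nat_lit 1) (.e (nat_lit 73329) (nat_lit 0) .nil) .nil)))) (.nd (nat_lit 9) 
(.lf (nat_lit 464230) (.g (nat_lit 3806) (.e (nat_lit 3098) (nat_lit 192) (.e (nat_lit 491569) (nat_lit 13) (.e (nat_lit 393301) (nat_lit 27) (.e (nat_lit 491559) (nat_lit 10) (.e (nat_lit 344172) (nat_lit 41) (.e (nat_lit 753673) (nat_lit 5) .nil)))))) (.g (nat_lit 1) (.e (nat_lit 73007) (nat_lit 0) .nil) .nil))) 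
(.lf (nat_lit 464742) (.g (nat_lit 2054) (.e (nat_lit 3230) (nat_lit 197) (.e (nat_lit 532513) (nat_lit 3) (.e (nat_lit 114714) (nat_lit 22) (.e (nat_lit 90172) (nat_lit 14) (.e (nat_lit 180244) (nat_lit 5) (.e (nat_lit 532503) (nat_lit 1) (.e (nat_lit 57685) (nat_lit 156) (.e (nat_lit 163843) (nat_lit 0) .nil)))))))) (.g (nat_lit 1) (.e (nat_lit 73738) (nat_lit 0) .nil) .nil))))) 
(.nd (nat_lit 8) (.nd (nat_lit 9) 
(.lf (nat_lit 464102) (.g (nat_lit 4528) (.e (nat_lit 3098) (nat_lit 192) (.e (nat_lit 491565) (nat_lit 12) (.e (nat_lit 385074) (nat_lit 31) (.e (nat_lit 573493) (nat_lit 15) (.e (nat_lit 81953) (nat_lit 22) (.e (nat_lit 90134) (nat_lit 9) .nil)))))) (.g (nat_lit 1) (.e (nat_lit 72760) (nat_lit 0) .nil) .nil))) 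
(.lf (nat_lit 464614) (.g (nat_lit 3077) (.e (nat_lit 3205) (nat_lit 194) (.e (nat_lit 507946) (nat_lit 18) (.e (nat_lit 303142) (nat_lit 12) (.e (nat_lit 475185) (nat_lit 29) (.e (nat_lit 557109) (nat_lit 15) (.e (nat_lit 188441) (nat_lit 20) .nil)))))) (.g (nat_lit 1) (.e (nat_lit 73564) (nat_lit 0) .nil) .nil)))) (.nd (nat_lit 9) 
(.lf (nat_lit 464358) (.g (nat_lit 2184) (.e (nat_lit 3098) (nat_lit 192) (.e (nat_lit 491571) (nat_lit 13) (.e (nat_lit 393297) (nat_lit 27) (.e (nat_lit 491566) (nat_lit 12) (.e (nat_lit 392960) (nat_lit 8) .nil))))) (.g (nat_lit 1) (.e (nat_lit 73165) (nat_lit 0) .nil) .nil))) 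
(.lf (nat_lit 464870) (.g (nat_lit 2417) (.e (nat_lit 3232) (nat_lit 197) (.e (nat_lit 532563) (nat_lit 15) (.e (nat_lit 385066) (nat_lit 26) (.e (nat_lit 532534) (nat_lit 9) (.e (nat_lit 336326) (nat_lit 18) (.e (nat_lit 204854) (nat_lit 26) (.e (nat_lit 336247) (nat_lit 15) .nil))))))) (.g (nat_lit 1) (.e (nat_lit 74012) (nat_lit 0) .nil) .nil)))))))) 
(.nd (nat_lit 5) (.nd (nat_lit 6) (.nd (nat_lit 7) (.nd (nat_lit 8) (.nd (nat_lit 9) 
(.lf (nat_lit 463894) (.g (nat_lit 1438) (.e (nat_lit 3096) (nat_lit 192) (.e (nat_lit 491566) (nat_lit 12) (.e (nat_lit 385074) (nat_lit 31) (.e (nat_lit 573493) (nat_lit 15) (.e (nat_lit 81953) (nat_lit 22) .nil))))) (.g (nat_lit 0) (.e (nat_lit 72459) (nat_lit 0) .nil) .nil))) 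
(.lf (nat_lit 464406) (.g (nat_lit 1581) (.e (nat_lit 3102) (nat_lit 192) (.e (nat_lit 491558) (nat_lit 10) (.e (nat_lit 344115) (nat_lit 20) (.e (nat_lit 507908) (nat_lit 0) (.e (nat_lit 5412) (nat_lit 303) (.e (nat_lit 73739) (nat_lit 1) (.e (nat_lit 499835) (nat_lit 5) .nil))))))) (.g (nat_lit 1) (.e (nat_lit 73242) (nat_lit 0) .nil) .nil)))) (.nd (nat_lit 9) 
(.lf (nat_lit 464150) (.g (nat_lit 3009) (.e (nat_lit 3098) (nat_lit 192) (.e (nat_lit 491568) (nat_lit 13) (.e (nat_lit 393301) (nat_lit 27) (.e (nat_lit 491560) (nat_lit 10) (.e (nat_lit 344170) (nat_lit 41) .nil))))) (.g (nat_lit 0) (.e (nat_lit 72924) (nat_lit 0) .nil) .nil))) 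
(.lf (nat_lit 464662) (.g (nat_lit 553) (.e (nat_lit 3230) (nat_lit 197) (.e (nat_lit 532503) (nat_lit 1) (.e (nat_lit 57847) (nat_lit 252) .nil))) (.g (nat_lit 0) (.e (nat_lit 73642) (nat_lit 0) .nil) .nil))))) (.nd (nat_lit 8) (.nd (nat_lit 9) 
(.lf (nat_lit 464022) (.g (nat_lit 4673) (.e (nat_lit 3098) (nat_lit 192) (.e (nat_lit 491537) (nat_lit 2) (.e (nat_lit 90170) (nat_lit 13) (.e (nat_lit 172106) (nat_lit 10) (.e (nat_lit 434231) (nat_lit 23) (.e (nat_lit 532490) (nat_lit 0) (.e (nat_lit 7936) (nat_lit 357) .nil))))))) (.g (nat_lit 1) (.e (nat_lit 72667) (nat_lit 0) .nil) .nil))) 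
(.lf (nat_lit 464534) (.g (nat_lit 2226) (.e (nat_lit 3105) (nat_lit 192) (.e (nat_lit 491568) (nat_lit 13) (.e (nat_lit 393301) (nat_lit 27) (.e (nat_lit 491558) (nat_lit 10) (.e (nat_lit 344091) (nat_lit 18) .nil))))) (.g (nat_lit 0) (.e (nat_lit 73388) (nat_lit 0) .nil) .nil)))) (.nd (nat_lit 9) 
(.lf (nat_lit 464278) (.g (nat_lit 3876) (.e (nat_lit 3098) (nat_lit 192) (.e (nat_lit 491569) (nat_lit 13) (.e (nat_lit 393301) (nat_lit 27) (.e (nat_lit 491560) (nat_lit 10) (.e (nat_lit 344090) (nat_lit 18) (.e (nat_lit 6852) (nat_lit 371) (.e (nat_lit 2450) (nat_lit 157) .nil))))))) (.g (nat_lit 1) (.e (nat_lit 73055) (nat_lit 0) .nil) .nil))) 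
(.lf (nat_lit 464790) (.g (nat_lit 722) (.e (nat_lit 3230) (nat_lit 197) (.e (nat_lit 532550) (nat_lit 12) (.e (nat_lit 360475) (nat_lit 8) .nil))) (.g (nat_lit 0) (.e (nat_lit 73846) (nat_lit 0) .nil) .nil)))))) (.nd (nat_lit 7) (.nd (nat_lit 8) (.nd (nat_lit 9) 
(.lf (nat_lit 463958) (.g (nat_lit 817) (.e (nat_lit 3096) (nat_lit 192) (.e (nat_lit 491571) (nat_lit 13) (.e (nat_lit 393251) (nat_lit 18) .nil))) (.g (nat_lit 0) (.e (nat_lit 72544) (nat_lit 0) .nil) .nil))) 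
(.lf (nat_lit 464470) (.g (nat_lit 3365) (.e (nat_lit 3102) (nat_lit 192) (.e (nat_lit 491568) (nat_lit 13) (.e (nat_lit 393301) (nat_lit 27) (.e (nat_lit 491560) (nat_lit 10) (.e (nat_lit 344170) (nat_lit 41) .nil))))) (.g (nat_lit 0) (.e (nat_lit 73309) (nat_lit 0) .nil) .nil)))) (.nd (nat_lit 9) 
(.lf (nat_lit 464214) (.g (nat_lit 3297) (.e (nat_lit 3098) (nat_lit 192) (.e (nat_lit 491569) (nat_lit 13) (.e (nat_lit 393301) (nat_lit 27) (.e (nat_lit 491559) (nat_lit 10) (.e (nat_lit 344093) (nat_lit 18) .nil))))) (.g (nat_lit 0) (.e (nat_lit 72991) (nat_lit 0) .nil) .nil))) 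
(.lf (nat_lit 464726) (.g (nat_lit 2427) (.e (nat_lit 3230) (nat_lit 197) (.e (nat_lit 532504) (nat_lit 1) (.e (nat_lit 57851) (nat_lit 252) (.e (nat_lit 57406) (nat_lit 12) (.e (nat_lit 336456) (nat_lit 34) (.e (nat_lit 483379) (nat_lit 23) (.e (nat_lit 336245) (nat_lit 15) .nil))))))) (.g (nat_lit 1) (.e (nat_lit 73715) (nat_lit 0) .nil) .nil))))) (.nd (nat_lit 8) (.nd (nat_lit 9) 
(.lf (nat_lit 464086) (.g (nat_lit 4637) (.e (nat_lit 3098) (nat_lit 192) (.e (nat_lit 491565) (nat_lit 12) (.e (nat_lit 385072) (nat_lit 31) (.e (nat_lit 573485) (nat_lit 13) (.e (nat_lit 65604) (nat_lit 9) (.e (nat_lit 336013) (nat_lit 2) (.e (nat_lit 90134) (nat_lit 9) .nil))))))) (.g (nat_lit 1) (.e (nat_lit 72742) (nat_lit 0) .nil) .nil))) 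
(.lf (nat_lit 464598) (.g (nat_lit 700) (.e (nat_lit 3130) (nat_lit 193) (.e (nat_lit 500047) (nat_lit 16) (.e (nat_lit 16465) (nat_lit 13) (.e (nat_lit 483341) (nat_lit 9) .nil)))) (.g (nat_lit 0) (.e (nat_lit 73484) (nat_lit 0) .nil) .nil)))) (.nd (nat_lit 9) 
(.lf (nat_lit 464342) (.g (nat_lit 3391) (.e (nat_lit 3098) (nat_lit 192) (.e (nat_lit 491571) (nat_lit 13) (.e (nat_lit 393251) (nat_lit 18) (.e (nat_lit 164179) (nat_lit 154) (.e (nat_lit 57422) (nat_lit 13) (.e (nat_lit 344132) (nat_lit 26) (.e (nat_lit 557072) (nat_lit 9) .nil))))))) (.g (nat_lit 1) (.e (nat_lit 73133) (nat_lit 0) .nil) .nil))) 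
(.lf (nat_lit 464854) (.g (nat_lit 2265) (.e (nat_lit 3232) (nat_lit 197) (.e (nat_lit 532530) (nat_lit 9) (.e (nat_lit 336326) (nat_lit 18) (.e (nat_lit 204852) (nat_lit 26) (.e (nat_lit 336326) (nat_lit 18) .nil))))) (.g (nat_lit 0) (.e (nat_lit 73984) (nat_lit 0) .nil) .nil))))))) (.nd (nat_lit 6) (.nd (nat_lit 7) (.nd (nat_lit 8) (.nd (nat_lit 9) 
(.lf (nat_lit 463926) (.g (nat_lit 3211) (.e (nat_lit 3096) (nat_lit 192) (.e (nat_lit 491569) (nat_lit 13) (.e (nat_lit 393301) (nat_lit 27) (.e (nat_lit 491559) (nat_lit 10) (.e (nat_lit 344170) (nat_lit 41) .nil))))) (.g (nat_lit 0) (.e (nat_lit 72503) (nat_lit 0) .nil) .nil))) 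
(.lf (nat_lit 464438) (.g (nat_lit 2647) (.e (nat_lit 3102) (nat_lit 192) (.e (nat_lit 491560) (nat_lit 10) (.e (nat_lit 344115) (nat_lit 20) (.e (nat_lit 507908) (nat_lit 0) (.e (nat_lit 5412) (nat_lit 303) (.e (nat_lit 73739) (nat_lit 1) (.e (nat_lit 499844) (nat_lit 5) .nil))))))) (.g (nat_lit 1) (.e (nat_lit 73274) (nat_lit 0) .nil) .nil)))) (.nd (nat_lit 9) 
(.lf (nat_lit 464182) (.g (nat_lit 4017) (.e (nat_lit 3098) (nat_lit 192) (.e (nat_lit 491569) (nat_lit 13) (.e (nat_lit 393301) (nat_lit 27) (.e (nat_lit 491558) (nat_lit 10) (.e (nat_lit 344091) (nat_lit 18) (.e (nat_lit 6923) (nat_lit 371) (.e (nat_lit 2448) (nat_lit 157) .nil))))))) (.g (nat_lit 1) (.e (nat_lit 72959) (nat_lit 0) .nil) .nil))) 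
(.lf (nat_lit 464694) (.g (nat_lit 2485) (.e (nat_lit 3230) (nat_lit 197) (.e (nat_lit 532503) (nat_lit 1) (.e (nat_lit 57931) (nat_lit 282) (.e (nat_lit 163867) (nat_lit 2) (.e (nat_lit 196670) (nat_lit 14) (.e (nat_lit 73746) (nat_lit 3) (.e (nat_lit 516131) (nat_lit 3) (.e (nat_lit 221202) (nat_lit 20) .nil)))))))) (.g (nat_lit 1) (.e (nat_lit 73674) (nat_lit 0) .nil) .nil))))) 
(.nd (nat_lit 8) (.nd (nat_lit 9) 
(.lf (nat_lit 464054) (.g (nat_lit 3426) (.e (nat_lit 3098) (nat_lit 192) (.e (nat_lit 491548) (nat_lit 9) (.e (nat_lit 336019) (nat_lit 3) (.e (nat_lit 98350) (nat_lit 24) (.e (nat_lit 409648) (nat_lit 18) (.e (nat_lit 303108) (nat_lit 0) (.e (nat_lit 3272) (nat_lit 199) (.e (nat_lit 548898) (nat_lit 14) .nil)))))))) (.g (nat_lit 1) (.e (nat_lit 72700) (nat_lit 0) .nil) .nil))) 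
(.lf (nat_lit 464566) (.g (nat_lit 3012) (.e (nat_lit 3105) (nat_lit 192) (.e (nat_lit 491569) (nat_lit 13) (.e (nat_lit 393301) (nat_lit 27) (.e (nat_lit 491560) (nat_lit 10) (.e (nat_lit 344171) (nat_lit 41) .nil))))) (.g (nat_lit 0) (.e (nat_lit 73420) (nat_lit 0) .nil) .nil)))) (.nd (nat_lit 9) 
(.lf (nat_lit 464310) (.g (nat_lit 3477) (.e (nat_lit 3098) (nat_lit 192) (.e (nat_lit 491569) (nat_lit 13) (.e (nat_lit 393301) (nat_lit 27) (.e (nat_lit 491560) (nat_lit 10) (.e (nat_lit 344096) (nat_lit 18) (.e (nat_lit 6869) (nat_lit 371) (.e (nat_lit 2443) (nat_lit 157) .nil))))))) (.g (nat_lit 1) (.e (nat_lit 73087) (nat_lit 0) .nil) .nil))) 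
(.lf (nat_lit 464822) (.g (nat_lit 3923) (.e (nat_lit 3231) (nat_lit 197) (.e (nat_lit 532504) (nat_lit 1) (.e (nat_lit 57851) (nat_lit 252) (.e (nat_lit 57406) (nat_lit 12) (.e (nat_lit 336367) (nat_lit 27) (.e (nat_lit 426542) (nat_lit 29) (.e (nat_lit 352267) (nat_lit 0) .nil))))))) (.g (nat_lit 1) (.e (nat_lit 73881) (nat_lit 0) .nil) .nil)))))) 
(.nd (nat_lit 7) (.nd (nat_lit 8) (.nd (nat_lit 9) 
(.lf (nat_lit 463990) (.g (nat_lit 2901) (.e (nat_lit 3097) (nat_lit 192) (.e (nat_lit 491566) (nat_lit 12) (.e (nat_lit 385104) (nat_lit 50) (.e (nat_lit 786483) (nat_lit 30) (.e (nat_lit 360483) (nat_lit 15) (.e (nat_lit 647168) (nat_lit 0) .nil)))))) (.g (nat_lit 1) (.e (nat_lit 72615) (nat_lit 0) .nil) .nil))) 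
(.lf (nat_lit 464502) (.g (nat_lit 3819) (.e (nat_lit 3104) (nat_lit 192) (.e (nat_lit 491569) (nat_lit 13) (.e (nat_lit 393301) (nat_lit 27) (.e (nat_lit 491559) (nat_lit 10) (.e (nat_lit 344091) (nat_lit 18) .nil))))) (.g (nat_lit 0) (.e (nat_lit 73345) (nat_lit 0) .nil) .nil)))) (.nd (nat_lit 9) 
(.lf (nat_lit 464246) (.g (nat_lit 3207) (.e (nat_lit 3098) (nat_lit 192) (.e (nat_lit 491569) (nat_lit 13) (.e (nat_lit 393301) (nat_lit 27) (.e (nat_lit 491560) (nat_lit 10) (.e (nat_lit 344088) (nat_lit 18) (.e (nat_lit 6850) (nat_lit 371) (.e (nat_lit 2433) (nat_lit 157) .nil))))))) (.g (nat_lit 1) (.e (nat_lit 73023) (nat_lit 0) .nil) .nil))) 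
(.lf (nat_lit 464758) (.g (nat_lit 3748) (.e (nat_lit 3230) (nat_lit 197) (.e (nat_lit 532535) (nat_lit 9) (.e (nat_lit 336099) (nat_lit 9) (.e (nat_lit 336028) (nat_lit 3) (.e (nat_lit 98349) (nat_lit 24) (.e (nat_lit 409646) (nat_lit 18) (.e (nat_lit 303111) (nat_lit 0) .nil))))))) (.g (nat_lit 1) (.e (nat_lit 73797) (nat_lit 0) .nil) .nil))))) (.nd (nat_lit 8) (.nd (nat_lit 9) 
(.lf (nat_lit 464118) (.g (nat_lit 2309) (.e (nat_lit 3098) (nat_lit 192) (.e (nat_lit 491566) (nat_lit 12) (.e (nat_lit 385073) (nat_lit 31) (.e (nat_lit 573493) (nat_lit 15) (.e (nat_lit 81953) (nat_lit 22) (.e (nat_lit 98048) (nat_lit 9) .nil)))))) (.g (nat_lit 1) (.e (nat_lit 72831) (nat_lit 0) .nil) .nil))) 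
(.lf (nat_lit 464630) (.g (nat_lit 4243) (.e (nat_lit 3228) (nat_lit 197) (.e (nat_lit 532550) (nat_lit 12) (.e (nat_lit 360474) (nat_lit 8) (.e (nat_lit 557094) (nat_lit 12) .nil)))) (.g (nat_lit 0) (.e (nat_lit 73591) (nat_lit 0) .nil) .nil)))) (.nd (nat_lit 9) 
(.lf (nat_lit 464374) (.g (nat_lit 1967) (.e (nat_lit 3100) (nat_lit 192) (.e (nat_lit 491563) (nat_lit 12) (.e (nat_lit 385072) (nat_lit 31) .nil))) (.g (nat_lit 0) (.e (nat_lit 73206) (nat_lit 0) .nil) .nil))) 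
(.lf (nat_lit 464886) (.g (nat_lit 2034) (.e (nat_lit 3234) (nat_lit 197) (.e (nat_lit 532530) (nat_lit 9) (.e (nat_lit 336326) (nat_lit 18) (.e (nat_lit 204854) (nat_lit 26) (.e (nat_lit 336326) (nat_lit 18) .nil))))) (.g (nat_lit 0) (.e (nat_lit 74061) (nat_lit 0) .nil) .nil))))))))) (.nd (nat_lit 4) (.nd (nat_lit 5) (.nd (nat_lit 6) (.nd (nat_lit 7) (.nd (nat_lit 8) (.nd (nat_lit 9) 
(.lf (nat_lit 463886) (.g (nat_lit 2285) (.e (nat_lit 3096) (nat_lit 192) (.e (nat_lit 491566) (nat_lit 12) (.e (nat_lit 385072) (nat_lit 31) (.e (nat_lit 573492) (nat_lit 15) (.e (nat_lit 81951) (nat_lit 22) (.e (nat_lit 90134) (nat_lit 9) .nil)))))) (.g (nat_lit 1) (.e (nat_lit 72447) (nat_lit 0) .nil) .nil))) 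
(.lf (nat_lit 464398) (.g (nat_lit 1924) (.e (nat_lit 3102) (nat_lit 192) (.e (nat_lit 491558) (nat_lit 10) (.e (nat_lit 344115) (nat_lit 20) (.e (nat_lit 507907) (nat_lit 0) (.e (nat_lit 5412) (nat_lit 303) (.e (nat_lit 73739) (nat_lit 1) (.e (nat_lit 499844) (nat_lit 5) .nil))))))) (.g (nat_lit 1) (.e (nat_lit 73234) (nat_lit 0) .nil) .nil)))) (.nd (nat_lit 9) 
(.lf (nat_lit 464142) (.g (nat_lit 2832) (.e (nat_lit 3098) (nat_lit 192) (.e (nat_lit 491568) (nat_lit 13) (.e (nat_lit 393301) (nat_lit 27) (.e (nat_lit 491560) (nat_lit 10) (.e (nat_lit 344090) (nat_lit 18) .nil))))) (.g (nat_lit 0) (.e (nat_lit 72916) (nat_lit 0) .nil) .nil))) 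
(.lf (nat_lit 464654) (.g (nat_lit 2352) (.e (nat_lit 3230) (nat_lit 197) (.e (nat_lit 532501) (nat_lit 1) (.e (nat_lit 57851) (nat_lit 252) (.e (nat_lit 57406) (nat_lit 12) (.e (nat_lit 336456) (nat_lit 34) (.e (nat_lit 483393) (nat_lit 23) (.e (nat_lit 336293) (nat_lit 15) .nil))))))) (.g (nat_lit 1) (.e (nat_lit 73625) (nat_lit 0) .nil) .nil))))) (.nd (nat_lit 8) (.nd (nat_lit 9) 
(.lf (nat_lit 464014) (.g (nat_lit 2915) (.e (nat_lit 3098) (nat_lit 192) (.e (nat_lit 491537) (nat_lit 2) (.e (nat_lit 90170) (nat_lit 13) (.e (nat_lit 172106) (nat_lit 10) (.e (nat_lit 434227) (nat_lit 20) (.e (nat_lit 507930) (nat_lit 10) (.e (nat_lit 5627) (nat_lit 312) .nil))))))) (.g (nat_lit 1) (.e (nat_lit 72659) (nat_lit 0) .nil) .nil))) 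
(.lf (nat_lit 464526) (.g (nat_lit 2524) (.e (nat_lit 3105) (nat_lit 192) (.e (nat_lit 491566) (nat_lit 12) (.e (nat_lit 385104) (nat_lit 50) (.e (nat_lit 786483) (nat_lit 30) (.e (nat_lit 360451) (nat_lit 0) .nil))))) (.g (nat_lit 0) (.e (nat_lit 73380) (nat_lit 0) .nil) .nil)))) (.nd (nat_lit 9) 
(.lf (nat_lit 464270) (.g (nat_lit 3347) (.e (nat_lit 3098) (nat_lit 192) (.e (nat_lit 491569) (nat_lit 13) (.e (nat_lit 393301) (nat_lit 27) (.e (nat_lit 491560) (nat_lit 10) (.e (nat_lit 344089) (nat_lit 18) (.e (nat_lit 6866) (nat_lit 371) (.e (nat_lit 2448) (nat_lit 157) .nil))))))) (.g (nat_lit 1) (.e (nat_lit 73047) (nat_lit 0) .nil) .nil))) 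
(.lf (nat_lit 464782) (.g (nat_lit 4904) (.e (nat_lit 3230) (nat_lit 197) (.e (nat_lit 532550) (nat_lit 12) (.e (nat_lit 360474) (nat_lit 8) (.e (nat_lit 557094) (nat_lit 12) (.e (nat_lit 164022) (nat_lit 46) (.e (nat_lit 704737) (nat_lit 11) (.e (nat_lit 16396) (nat_lit 0) .nil))))))) (.g (nat_lit 1) (.e (nat_lit 73838) (nat_lit 0) .nil) .nil)))))) 
(.nd (nat_lit 7) (.nd (nat_lit 8) (.nd (nat_lit 9) 
(.lf (nat_lit 463950) (.g (nat_lit 2805) (.e (nat_lit 3096) (nat_lit 192) (.e (nat_lit 491569) (nat_lit 13) (.e (nat_lit 393301) (nat_lit 27) (.e (nat_lit 491560) (nat_lit 10) (.e (nat_lit 344172) (nat_lit 41) (.e (nat_lit 753675) (nat_lit 5) .nil)))))) (.g (nat_lit 1) (.e (nat_lit 72527) (nat_lit 0) .nil) .nil))) 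
(.lf (nat_lit 464462) (.g (nat_lit 3383) (.e (nat_lit 3102) (nat_lit 192) (.e (nat_lit 491562) (nat_lit 12) (.e (nat_lit 385074) (nat_lit 31) (.e (nat_lit 573493) (nat_lit 15) (.e (nat_lit 81962) (nat_lit 25) (.e (nat_lit 139289) (nat_lit 9) .nil)))))) (.g (nat_lit 1) (.e (nat_lit 73301) (nat_lit 0) .nil) .nil)))) (.nd (nat_lit 9) 
(.lf (nat_lit 464206) (.g (nat_lit 3476) (.e (nat_lit 3098) (nat_lit 192) (.e (nat_lit 491569) (nat_lit 13) (.e (nat_lit 393301) (nat_lit 27) (.e (nat_lit 491559) (nat_lit 10) (.e (nat_lit 344091) (nat_lit 18) (.e (nat_lit 6853) (nat_lit 371) (.e (nat_lit 2430) (nat_lit 157) .nil))))))) (.g (nat_lit 1) (.e (nat_lit 72983) (nat_lit 0) .nil) .nil))) 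
(.lf (nat_lit 464718) (.g (nat_lit 2625) (.e (nat_lit 3230) (nat_lit 197) (.e (nat_lit 532503) (nat_lit 1) (.e (nat_lit 57931) (nat_lit 282) (.e (nat_lit 163874) (nat_lit 3) (.e (nat_lit 204863) (nat_lit 27) (.e (nat_lit 344117) (nat_lit 21) (.e (nat_lit 516129) (nat_lit 3) (.e (nat_lit 221196) (nat_lit 20) .nil)))))))) (.g (nat_lit 1) (.e (nat_lit 73704) (nat_lit 0) .nil) .nil))))) 
(.nd (nat_lit 8) (.nd (nat_lit 9) 
(.lf (nat_lit 464078) (.g (nat_lit 2980) (.e (nat_lit 3098) (nat_lit 192) (.e (nat_lit 491564) (nat_lit 12) (.e (nat_lit 385072) (nat_lit 31) (.e (nat_lit 573482) (nat_lit 13) (.e (nat_lit 65604) (nat_lit 9) (.e (nat_lit 336013) (nat_lit 2) (.e (nat_lit 90134) (nat_lit 9) .nil))))))) (.g (nat_lit 1) (.e (nat_lit 72733) (nat_lit 0) .nil) .nil))) 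
(.lf (nat_lit 464590) (.g (nat_lit 2125) (.e (nat_lit 3114) (nat_lit 193) (.e (nat_lit 499903) (nat_lit 7) (.e (nat_lit 24665) (nat_lit 14) (.e (nat_lit 409344) (nat_lit 27) (.e (nat_lit 336443) (nat_lit 32) (.e (nat_lit 466956) (nat_lit 20) .nil)))))) (.g (nat_lit 1) (.e (nat_lit 73469) (nat_lit 0) .nil) .nil)))) (.nd (nat_lit 9) 
(.lf (nat_lit 464334) (.g (nat_lit 2107) (.e (nat_lit 3098) (nat_lit 192) (.e (nat_lit 491570) (nat_lit 13) (.e (nat_lit 393253) (nat_lit 18) (.e (nat_lit 164150) (nat_lit 152) (.e (nat_lit 1207) (nat_lit 89) .nil))))) (.g (nat_lit 0) (.e (nat_lit 73113) (nat_lit 0) .nil) .nil))) 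
(.lf (nat_lit 464846) (.g (nat_lit 2384) (.e (nat_lit 3231) (nat_lit 197) (.e (nat_lit 532563) (nat_lit 15) (.e (nat_lit 385066) (nat_lit 26) (.e (nat_lit 532530) (nat_lit 9) (.e (nat_lit 336326) (nat_lit 18) (.e (nat_lit 204854) (nat_lit 26) (.e (nat_lit 336243) (nat_lit 15) .nil))))))) (.g (nat_lit 1) (.e (nat_lit 73950) (nat_lit 0) .nil) .nil))))))) 
(.nd (nat_lit 6) (.nd (nat_lit 7) (.nd (nat_lit 8) (.nd (nat_lit 9) 
(.lf (nat_lit 463918) (.g (nat_lit 3455) (.e (nat_lit 3096) (nat_lit 192) (.e (nat_lit 491569) (nat_lit 13) (.e (nat_lit 393301) (nat_lit 27) (.e (nat_lit 491558) (nat_lit 10) (.e (nat_lit 344172) (nat_lit 41) (.e (nat_lit 753674) (nat_lit 5) .nil)))))) (.g (nat_lit 1) (.e (nat_lit 72495) (nat_lit 0) .nil) .nil))) 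
(.lf (nat_lit 464430) (.g (nat_lit 2690) (.e (nat_lit 3102) (nat_lit 192) (.e (nat_lit 491560) (nat_lit 10) (.e (nat_lit 344115) (nat_lit 20) (.e (nat_lit 507907) (nat_lit 0) (.e (nat_lit 5410) (nat_lit 303) (.e (nat_lit 73743) (nat_lit 1) (.e (nat_lit 499846) (nat_lit 5) .nil))))))) (.g (nat_lit 1) (.e (nat_lit 73266) (nat_lit 0) .nil) .nil)))) (.nd (nat_lit 9) 
(.lf (nat_lit 464174) (.g (nat_lit 2402) (.e (nat_lit 3098) (nat_lit 192) (.e (nat_lit 491569) (nat_lit 13) (.e (nat_lit 393301) (nat_lit 27) (.e (nat_lit 491558) (nat_lit 10) (.e (nat_lit 344091) (nat_lit 18) (.e (nat_lit 6852) (nat_lit 371) (.e (nat_lit 2433) (nat_lit 157) .nil))))))) (.g (nat_lit 1) (.e (nat_lit 72951) (nat_lit 0) .nil) .nil))) 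
(.lf (nat_lit 464686) (.g (nat_lit 3032) (.e (nat_lit 3230) (nat_lit 197) (.e (nat_lit 532503) (nat_lit 1) (.e (nat_lit 57931) (nat_lit 282) (.e (nat_lit 163867) (nat_lit 2) (.e (nat_lit 196668) (nat_lit 14) (.e (nat_lit 73747) (nat_lit 3) (.e (nat_lit 516129) (nat_lit 3) (.e (nat_lit 221200) (nat_lit 20) .nil)))))))) (.g (nat_lit 1) (.e (nat_lit 73666) (nat_lit 0) .nil) .nil))))) 
(.nd (nat_lit 8) (.nd (nat_lit 9) 
(.lf (nat_lit 464046) (.g (nat_lit 2262) (.e (nat_lit 3098) (nat_lit 192) (.e (nat_lit 491546) (nat_lit 9) (.e (nat_lit 336013) (nat_lit 2) (.e (nat_lit 90165) (nat_lit 12) (.e (nat_lit 171776) (nat_lit 192) .nil))))) (.g (nat_lit 0) (.e (nat_lit 72691) (nat_lit 0) .nil) .nil))) 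
(.lf (nat_lit 464558) (.g (nat_lit 1807) (.e (nat_lit 3105) (nat_lit 192) (.e (nat_lit 491569) (nat_lit 13) (.e (nat_lit 393301) (nat_lit 27) (.e (nat_lit 491560) (nat_lit 10) .nil)))) (.g (nat_lit 0) (.e (nat_lit 73412) (nat_lit 0) .nil) .nil)))) (.nd (nat_lit 9) 
(.lf (nat_lit 464302) (.g (nat_lit 2829) (.e (nat_lit 3098) (nat_lit 192) (.e (nat_lit 491569) (nat_lit 13) (.e (nat_lit 393301) (nat_lit 27) (.e (nat_lit 491560) (nat_lit 10) (.e (nat_lit 344094) (nat_lit 18) (.e (nat_lit 6857) (nat_lit 371) (.e (nat_lit 2440) (nat_lit 157) .nil))))))) (.g (nat_lit 1) (.e (nat_lit 73079) (nat_lit 0) .nil) .nil))) 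
(.lf (nat_lit 464814) (.g (nat_lit 2474) (.e (nat_lit 3231) (nat_lit 197) (.e (nat_lit 532500) (nat_lit 1) (.e (nat_lit 57851) (nat_lit 252) (.e (nat_lit 57406) (nat_lit 12) (.e (nat_lit 336456) (nat_lit 34) .nil))))) (.g (nat_lit 0) (.e (nat_lit 73873) (nat_lit 0) .nil) .nil)))))) (.nd (nat_lit 7) (.nd (nat_lit 8) (.nd (nat_lit 9) 
(.lf (nat_lit 463982) (.g (nat_lit 5363) (.e (nat_lit 3097) (nat_lit 192) (.e (nat_lit 491566) (nat_lit 12) (.e (nat_lit 385074) (nat_lit 31) (.e (nat_lit 573482) (nat_lit 13) (.e (nat_lit 65604) (nat_lit 9) (.e (nat_lit 336013) (nat_lit 2) (.e (nat_lit 90134) (nat_lit 9) .nil))))))) (.g (nat_lit 1) (.e (nat_lit 72587) (nat_lit 0) .nil) .nil))) 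
(.lf (nat_lit 464494) (.g (nat_lit 2645) (.e (nat_lit 3104) (nat_lit 192) (.e (nat_lit 491568) (nat_lit 13) (.e (nat_lit 393301) (nat_lit 27) (.e (nat_lit 491563) (nat_lit 12) (.e (nat_lit 392960) (nat_lit 8) .nil))))) (.g (nat_lit 1) (.e (nat_lit 73337) (nat_lit 0) .nil) .nil)))) (.nd (nat_lit 9) 
(.lf (nat_lit 464238) (.g (nat_lit 3413) (.e (nat_lit 3098) (nat_lit 192) (.e (nat_lit 491569) (nat_lit 13) (.e (nat_lit 393301) (nat_lit 27) (.e (nat_lit 491560) (nat_lit 10) (.e (nat_lit 344087) (nat_lit 18) (.e (nat_lit 6894) (nat_lit 371) (.e (nat_lit 2440) (nat_lit 157) .nil))))))) (.g (nat_lit 1) (.e (nat_lit 73015) (nat_lit 0) .nil) .nil))) 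
(.lf (nat_lit 464750) (.g (nat_lit 6576) (.e (nat_lit 3230) (nat_lit 197) (.e (nat_lit 532535) (nat_lit 9) (.e (nat_lit 336099) (nat_lit 9) (.e (nat_lit 336013) (nat_lit 2) (.e (nat_lit 90134) (nat_lit 9) (.e (nat_lit 2822) (nat_lit 182) (.e (nat_lit 409646) (nat_lit 18) (.e (nat_lit 303112) (nat_lit 0) .nil)))))))) (.g (nat_lit 1) (.e (nat_lit 73787) (nat_lit 0) .nil) .nil))))) 
(.nd (nat_lit 8) (.nd (nat_lit 9) 
(.lf (nat_lit 464110) (.g (nat_lit 2800) (.e (nat_lit 3098) (nat_lit 192) (.e (nat_lit 491566) (nat_lit 12) (.e (nat_lit 385072) (nat_lit 31) (.e (nat_lit 573492) (nat_lit 15) (.e (nat_lit 81951) (nat_lit 22) (.e (nat_lit 90134) (nat_lit 9) .nil)))))) (.g (nat_lit 1) (.e (nat_lit 72806) (nat_lit 0) .nil) .nil))) 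
(.lf (nat_lit 464622) (.g (nat_lit 1063) (.e (nat_lit 3227) (nat_lit 197) (.e (nat_lit 532550) (nat_lit 12) (.e (nat_lit 360475) (nat_lit 8) .nil))) (.g (nat_lit 0) (.e (nat_lit 73579) (nat_lit 0) .nil) .nil)))) (.nd (nat_lit 9) 
(.lf (nat_lit 464366) (.g (nat_lit 869) (.e (nat_lit 3099) (nat_lit 192) (.e (nat_lit 491566) (nat_lit 12) (.e (nat_lit 385072) (nat_lit 31) .nil))) (.g (nat_lit 0) (.e (nat_lit 73185) (nat_lit 0) .nil) .nil))) 
(.lf (nat_lit 464878) (.g (nat_lit 2914) (.e (nat_lit 3234) (nat_lit 197) (.e (nat_lit 532501) (nat_lit 1) (.e (nat_lit 57852) (nat_lit 252) (.e (nat_lit 57406) (nat_lit 12) (.e (nat_lit 336367) (nat_lit 27) .nil))))) (.g (nat_lit 0) (.e (nat_lit 74020) (nat_lit 0) .nil) .nil)))))))) (.nd (nat_lit 5) (.nd (nat_lit 6) (.nd (nat_lit 7) (.nd (nat_lit 8) (.nd (nat_lit 9) 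
(.lf (nat_lit 463902) (.g (nat_lit 1983) (.e (nat_lit 3096) (nat_lit 192) (.e (nat_lit 491566) (nat_lit 12) (.e (nat_lit 385105) (nat_lit 50) (.e (nat_lit 786483) (nat_lit 30) (.e (nat_lit 360484) (nat_lit 15) .nil))))) (.g (nat_lit 0) (.e (nat_lit 72479) (nat_lit 0) .nil) .nil))) 
(.lf (nat_lit 464414) (.g (nat_lit 1980) (.e (nat_lit 3102) (nat_lit 192) (.e (nat_lit 491558) (nat_lit 10) (.e (nat_lit 344117) (nat_lit 21) (.e (nat_lit 516185) (nat_lit 16) (.e (nat_lit 491560) (nat_lit 10) .nil))))) (.g (nat_lit 0) (.e (nat_lit 73250) (nat_lit 0) .nil) .nil)))) (.nd (nat_lit 9) 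
(.lf (nat_lit 464158) (.g (nat_lit 1018) (.e (nat_lit 3098) (nat_lit 192) (.e (nat_lit 491569) (nat_lit 13) (.e (nat_lit 393253) (nat_lit 18) .nil))) (.g (nat_lit 0) (.e (nat_lit 72935) (nat_lit 0) .nil) .nil))) 
(.lf (nat_lit 464670) (.g (nat_lit 602) (.e (nat_lit 3230) (nat_lit 197) (.e (nat_lit 532503) (nat_lit 1) (.e (nat_lit 57849) (nat_lit 252) .nil))) (.g (nat_lit 0) (.e (nat_lit 73650) (nat_lit 0) .nil) .nil))))) (.nd (nat_lit 8) (.nd (nat_lit 9) 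
(.lf (nat_lit 464030) (.g (nat_lit 2531) (.e (nat_lit 3098) (nat_lit 192) (.e (nat_lit 491537) (nat_lit 2) (.e (nat_lit 90170) (nat_lit 13) (.e (nat_lit 172113) (nat_lit 10) (.e (nat_lit 434227) (nat_lit 20) (.e (nat_lit 507930) (nat_lit 10) (.e (nat_lit 5616) (nat_lit 312) .nil))))))) (.g (nat_lit 1) (.e (nat_lit 72675) (nat_lit 0) .nil) .nil))) 
(.lf (nat_lit 464542) (.g (nat_lit 3519) (.e (nat_lit 3105) (nat_lit 192) (.e (nat_lit 491568) (nat_lit 13) (.e (nat_lit 393301) (nat_lit 27) (.e (nat_lit 491560) (nat_lit 10) (.e (nat_lit 344172) (nat_lit 41) (.e (nat_lit 753670) (nat_lit 5) .nil)))))) (.g (nat_lit 1) (.e (nat_lit 73396) (nat_lit 0) .nil) .nil)))) (.nd (nat_lit 9) 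
(.lf (nat_lit 464286) (.g (nat_lit 4176) (.e (nat_lit 3098) (nat_lit 192) (.e (nat_lit 491569) (nat_lit 13) (.e (nat_lit 393301) (nat_lit 27) (.e (nat_lit 491560) (nat_lit 10) (.e (nat_lit 344090) (nat_lit 18) (.e (nat_lit 6923) (nat_lit 371) (.e (nat_lit 2448) (nat_lit 157) .nil))))))) (.g (nat_lit 1) (.e (nat_lit 73063) (nat_lit 0) .nil) .nil))) 
(.lf (nat_lit 464798) (.g (nat_lit 4154) (.e (nat_lit 3230) (nat_lit 197) (.e (nat_lit 532550) (nat_lit 12) (.e (nat_lit 360475) (nat_lit 8) (.e (nat_lit 557091) (nat_lit 12) (.e (nat_lit 164022) (nat_lit 46) (.e (nat_lit 704736) (nat_lit 11) (.e (nat_lit 16400) (nat_lit 0) .nil))))))) (.g (nat_lit 1) (.e (nat_lit 73856) (nat_lit 0) .nil) .nil)))))) 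
(.nd (nat_lit 7) (.nd (nat_lit 8) (.nd (nat_lit 9) 
(.lf (nat_lit 463966) (.g (nat_lit 1694) (.e (nat_lit 3096) (nat_lit 192) (.e (nat_lit 491571) (nat_lit 13) (.e (nat_lit 393252) (nat_lit 18) (.e (nat_lit 164147) (nat_lit 152) .nil)))) (.g (nat_lit 0) (.e (nat_lit 72554) (nat_lit 0) .nil) .nil))) 
(.lf (nat_lit 464478) (.g (nat_lit 1156) (.e (nat_lit 3103) (nat_lit 192) (.e (nat_lit 491569) (nat_lit 13) (.e (nat_lit 393301) (nat_lit 27) .nil))) (.g (nat_lit 0) (.e (nat_lit 73320) (nat_lit 0) .nil) .nil)))) (.nd (nat_lit 9) 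
(.lf (nat_lit 464222) (.g (nat_lit 3043) (.e (nat_lit 3098) (nat_lit 192) (.e (nat_lit 491569) (nat_lit 13) (.e (nat_lit 393301) (nat_lit 27) (.e (nat_lit 491559) (nat_lit 10) (.e (nat_lit 344171) (nat_lit 41) .nil))))) (.g (nat_lit 0) (.e (nat_lit 72999) (nat_lit 0) .nil) .nil))) 
(.lf (nat_lit 464734) (.g (nat_lit 1569) (.e (nat_lit 3230) (nat_lit 197) (.e (nat_lit 532504) (nat_lit 1) (.e (nat_lit 57851) (nat_lit 252) (.e (nat_lit 57406) (nat_lit 12) (.e (nat_lit 336456) (nat_lit 34) (.e (nat_lit 483391) (nat_lit 23) (.e (nat_lit 336239) (nat_lit 15) .nil))))))) (.g (nat_lit 1) (.e (nat_lit 73723) (nat_lit 0) .nil) .nil))))) (.nd (nat_lit 8) (.nd (nat_lit 9) 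
(.lf (nat_lit 464094) (.g (nat_lit 3801) (.e (nat_lit 3098) (nat_lit 192) (.e (nat_lit 491565) (nat_lit 12) (.e (nat_lit 385073) (nat_lit 31) (.e (nat_lit 573491) (nat_lit 15) (.e (nat_lit 81951) (nat_lit 22) (.e (nat_lit 90134) (nat_lit 9) .nil)))))) (.g (nat_lit 1) (.e (nat_lit 72750) (nat_lit 0) .nil) .nil))) 
(.lf (nat_lit 464606) (.g (nat_lit 489) (.e (nat_lit 3141) (nat_lit 193) (.e (nat_lit 500065) (nat_lit 18) (.e (nat_lit 65630) (nat_lit 14) .nil))) (.g (nat_lit 0) (.e (nat_lit 73506) (nat_lit 0) .nil) .nil)))) (.nd (nat_lit 9) 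
(.lf (nat_lit 464350) (.g (nat_lit 254) (.e (nat_lit 3098) (nat_lit 192) (.e (nat_lit 491571) (nat_lit 13) (.e (nat_lit 393260) (nat_lit 21) .nil))) (.g (nat_lit 0) (.e (nat_lit 73150) (nat_lit 0) .nil) .nil))) 
(.lf (nat_lit 464862) (.g (nat_lit 4863) (.e (nat_lit 3232) (nat_lit 197) (.e (nat_lit 532550) (nat_lit 12) (.e (nat_lit 360475) (nat_lit 8) (.e (nat_lit 557086) (nat_lit 11) .nil)))) (.g (nat_lit 0) (.e (nat_lit 73998) (nat_lit 0) .nil) .nil))))))) (.nd (nat_lit 6) (.nd (nat_lit 7) (.nd (nat_lit 8) (.nd (nat_lit 9) 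
(.lf (nat_lit 463934) (.g (nat_lit 1347) (.e (nat_lit 3096) (nat_lit 192) (.e (nat_lit 491569) (nat_lit 13) (.e (nat_lit 393301) (nat_lit 27) (.e (nat_lit 491560) (nat_lit 10) .nil)))) (.g (nat_lit 0) (.e (nat_lit 72511) (nat_lit 0) .nil) .nil))) 
(.lf (nat_lit 464446) (.g (nat_lit 3167) (.e (nat_lit 3102) (nat_lit 192) (.e (nat_lit 491560) (nat_lit 10) (.e (nat_lit 344117) (nat_lit 21) (.e (nat_lit 516106) (nat_lit 0) (.e (nat_lit 7936) (nat_lit 407) (.e (nat_lit 73743) (nat_lit 1) (.e (nat_lit 499846) (nat_lit 5) .nil))))))) (.g (nat_lit 1) (.e (nat_lit 73284) (nat_lit 0) .nil) .nil)))) (.nd (nat_lit 9) 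
(.lf (nat_lit 464190) (.g (nat_lit 3137) (.e (nat_lit 3098) (nat_lit 192) (.e (nat_lit 491569) (nat_lit 13) (.e (nat_lit 393301) (nat_lit 27) (.e (nat_lit 491558) (nat_lit 10) (.e (nat_lit 344096) (nat_lit 18) (.e (nat_lit 6869) (nat_lit 371) (.e (nat_lit 2443) (nat_lit 157) .nil))))))) (.g (nat_lit 1) (.e (nat_lit 72967) (nat_lit 0) .nil) .nil))) 
(.lf (nat_lit 464702) (.g (nat_lit 2718) (.e (nat_lit 3230) (nat_lit 197) (.e (nat_lit 532503) (nat_lit 1) (.e (nat_lit 57931) (nat_lit 282) (.e (nat_lit 163869) (nat_lit 2) (.e (nat_lit 196668) (nat_lit 14) (.e (nat_lit 73747) (nat_lit 3) (.e (nat_lit 516131) (nat_lit 3) (.e (nat_lit 221202) (nat_lit 20) .nil)))))))) (.g (nat_lit 1) (.e (nat_lit 73686) (nat_lit 0) .nil) .nil))))) 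
(.nd (nat_lit 8) (.nd (nat_lit 9) 
(.lf (nat_lit 464062) (.g (nat_lit 347) (.e (nat_lit 3098) (nat_lit 192) (.e (nat_lit 491549) (nat_lit 9) (.e (nat_lit 336306) (nat_lit 15) .nil))) (.g (nat_lit 0) (.e (nat_lit 72710) (nat_lit 0) .nil) .nil))) 
(.lf (nat_lit 464574) (.g (nat_lit 4029) (.e (nat_lit 3107) (nat_lit 193) (.e (nat_lit 500075) (nat_lit 20) (.e (nat_lit 81956) (nat_lit 23) (.e (nat_lit 98350) (nat_lit 24) (.e (nat_lit 409648) (nat_lit 18) .nil))))) (.g (nat_lit 0) (.e (nat_lit 73451) (nat_lit 0) .nil) .nil)))) (.nd (nat_lit 9) 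
(.lf (nat_lit 464318) (.g (nat_lit 3423) (.e (nat_lit 3098) (nat_lit 192) (.e (nat_lit 491569) (nat_lit 13) (.e (nat_lit 393301) (nat_lit 27) (.e (nat_lit 491560) (nat_lit 10) (.e (nat_lit 344099) (nat_lit 18) (.e (nat_lit 6900) (nat_lit 371) (.e (nat_lit 2444) (nat_lit 157) .nil))))))) (.g (nat_lit 1) (.e (nat_lit 73095) (nat_lit 0) .nil) .nil))) 
(.lf (nat_lit 464830) (.g (nat_lit 1597) (.e (nat_lit 3231) (nat_lit 197) (.e (nat_lit 532530) (nat_lit 9) (.e (nat_lit 336326) (nat_lit 18) (.e (nat_lit 204852) (nat_lit 26) .nil)))) (.g (nat_lit 0) (.e (nat_lit 73919) (nat_lit 0) .nil) .nil)))))) (.nd (nat_lit 7) (.nd (nat_lit 8) (.nd (nat_lit 9) 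
(.lf (nat_lit 463998) (.g (nat_lit 3419) (.e (nat_lit 3097) (nat_lit 192) (.e (nat_lit 491569) (nat_lit 13) (.e (nat_lit 393301) (nat_lit 27) (.e (nat_lit 491558) (nat_lit 10) (.e (nat_lit 344172) (nat_lit 41) .nil))))) (.g (nat_lit 0) (.e (nat_lit 72624) (nat_lit 0) .nil) .nil))) 
(.lf (nat_lit 464510) (.g (nat_lit 2713) (.e (nat_lit 3105) (nat_lit 192) (.e (nat_lit 491536) (nat_lit 2) (.e (nat_lit 90170) (nat_lit 13) (.e (nat_lit 172106) (nat_lit 10) (.e (nat_lit 434231) (nat_lit 23) .nil))))) (.g (nat_lit 0) (.e (nat_lit 73353) (nat_lit 0) .nil) .nil)))) (.nd (nat_lit 9) 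
(.lf (nat_lit 464254) (.g (nat_lit 2941) (.e (nat_lit 3098) (nat_lit 192) (.e (nat_lit 491569) (nat_lit 13) (.e (nat_lit 393301) (nat_lit 27) (.e (nat_lit 491560) (nat_lit 10) (.e (nat_lit 344088) (nat_lit 18) (.e (nat_lit 6869) (nat_lit 371) (.e (nat_lit 2445) (nat_lit 157) .nil))))))) (.g (nat_lit 1) (.e (nat_lit 73031) (nat_lit 0) .nil) .nil))) 
(.lf (nat_lit 464766) (.g (nat_lit 2734) (.e (nat_lit 3230) (nat_lit 197) (.e (nat_lit 532547) (nat_lit 11) (.e (nat_lit 352315) (nat_lit 23) (.e (nat_lit 98350) (nat_lit 24) (.e (nat_lit 409649) (nat_lit 18) (.e (nat_lit 303111) (nat_lit 0) .nil)))))) (.g (nat_lit 1) (.e (nat_lit 73813) (nat_lit 0) .nil) .nil))))) (.nd (nat_lit 8) (.nd (nat_lit 9) 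
(.lf (nat_lit 464126) (.g (nat_lit 3473) (.e (nat_lit 3098) (nat_lit 192) (.e (nat_lit 491566) (nat_lit 12) (.e (nat_lit 385074) (nat_lit 31) (.e (nat_lit 573482) (nat_lit 13) (.e (nat_lit 65603) (nat_lit 9) (.e (nat_lit 336013) (nat_lit 2) (.e (nat_lit 90134) (nat_lit 9) .nil))))))) (.g (nat_lit 1) (.e (nat_lit 72840) (nat_lit 0) .nil) .nil))) 
(.lf (nat_lit 464638) (.g (nat_lit 3513) (.e (nat_lit 3229) (nat_lit 197) (.e (nat_lit 532550) (nat_lit 12) (.e (nat_lit 360475) (nat_lit 8) (.e (nat_lit 557089) (nat_lit 12) .nil)))) (.g (nat_lit 0) (.e (nat_lit 73609) (nat_lit 0) .nil) .nil)))) (.nd (nat_lit 9) 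
(.lf (nat_lit 464382) (.g (nat_lit 1392) (.e (nat_lit 3101) (nat_lit 192) (.e (nat_lit 491565) (nat_lit 12) (.e (nat_lit 385102) (nat_lit 50) (.e (nat_lit 786483) (nat_lit 30) (.e (nat_lit 360484) (nat_lit 15) .nil))))) (.g (nat_lit 0) (.e (nat_lit 73217) (nat_lit 0) .nil) .nil))) 
(.lf (nat_lit 464894) (.g (nat_lit 2482) (.e (nat_lit 3234) (nat_lit 197) (.e (nat_lit 532549) (nat_lit 12) (.e (nat_lit 360475) (nat_lit 8) (.e (nat_lit 557086) (nat_lit 11) .nil)))) (.g (nat_lit 0) (.e (nat_lit 74073) (nat_lit 0) .nil) .nil)))))))))))) 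
(.nd (nat_lit 1) (.nd (nat_lit 2) (.nd (nat_lit 3) (.nd (nat_lit 4) (.nd (nat_lit 5) 
(.nd (nat_lit 6) (.nd (nat_lit 7) (.nd (nat_lit 8) (.nd (nat_lit 9) 
(.lf (nat_lit 463873) (.g (nat_lit 675) (.e (nat_lit 3096) (nat_lit 192) (.e (nat_lit 491549) (nat_lit 9) (.e (nat_lit 336369) (nat_lit 27) .nil))) (.g (nat_lit 0) (.e (nat_lit 72431) (nat_lit 0) .nil) .nil))) 
(.lf (nat_lit 464385) (.g (nat_lit 1627) (.e (nat_lit 3102) (nat_lit 192) (.e (nat_lit 491546) (nat_lit 9) (.e (nat_lit 336013) (nat_lit 2) (.e (nat_lit 90165) (nat_lit 12) .nil)))) (.g (nat_lit 0) (.e (nat_lit 73220) (nat_lit 0) .nil) .nil)))) (.nd (nat_lit 9) 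
(.lf (nat_lit 464129) (.g (nat_lit 1373) (.e (nat_lit 3098) (nat_lit 192) (.e (nat_lit 491566) (nat_lit 12) (.e (nat_lit 385096) (nat_lit 49) .nil))) (.g (nat_lit 0) (.e (nat_lit 72873) (nat_lit 0) .nil) .nil))) 
(.lf (nat_lit 464641) (.g (nat_lit 2241) (.e (nat_lit 3230) (nat_lit 197) (.e (nat_lit 532499) (nat_lit 1) (.e (nat_lit 57927) (nat_lit 282) (.e (nat_lit 163869) (nat_lit 2) (.e (nat_lit 196668) (nat_lit 14) (.e (nat_lit 73747) (nat_lit 3) (.e (nat_lit 516129) (nat_lit 3) (.e (nat_lit 221196) (nat_lit 20) .nil)))))))) (.g (nat_lit 1) (.e (nat_lit 73612) (nat_lit 0) .nil) .nil))))) 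
(.nd (nat_lit 8) (.nd (nat_lit 9) 
(.lf (nat_lit 464001) (.g (nat_lit 973) (.e (nat_lit 3097) (nat_lit 192) (.e (nat_lit 491571) (nat_lit 13) (.e (nat_lit 393231) (nat_lit 17) .nil))) (.g (nat_lit 0) (.e (nat_lit 72627) (nat_lit 0) .nil) .nil))) 
(.lf (nat_lit 464513) (.g (nat_lit 2405) (.e (nat_lit 3105) (nat_lit 192) (.e (nat_lit 491562) (nat_lit 12) (.e (nat_lit 385074) (nat_lit 31) (.e (nat_lit 573491) (nat_lit 15) .nil)))) (.g (nat_lit 0) (.e (nat_lit 73361) (nat_lit 0) .nil) .nil)))) (.nd (nat_lit 9) 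
(.lf (nat_lit 464257) (.g (nat_lit 2908) (.e (nat_lit 3098) (nat_lit 192) (.e (nat_lit 491569) (nat_lit 13) (.e (nat_lit 393301) (nat_lit 27) (.e (nat_lit 491560) (nat_lit 10) (.e (nat_lit 344088) (nat_lit 18) (.e (nat_lit 6904) (nat_lit 371) (.e (nat_lit 2445) (nat_lit 157) .nil))))))) (.g (nat_lit 1) (.e (nat_lit 73034) (nat_lit 0) .nil) .nil))) 
(.lf (nat_lit 464769) (.g (nat_lit 3407) (.e (nat_lit 3230) (nat_lit 197) (.e (nat_lit 532550) (nat_lit 12) (.e (nat_lit 360474) (nat_lit 8) (.e (nat_lit 557093) (nat_lit 12) (.e (nat_lit 164022) (nat_lit 46) (.e (nat_lit 704736) (nat_lit 11) (.e (nat_lit 16399) (nat_lit 0) .nil))))))) (.g (nat_lit 1) (.e (nat_lit 73825) (nat_lit 0) .nil) .nil)))))) 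
(.nd (nat_lit 7) (.nd (nat_lit 8) (.nd (nat_lit 9) 
(.lf (nat_lit 463937) (.g (nat_lit 2636) (.e (nat_lit 3096) (nat_lit 192) (.e (nat_lit 491569) (nat_lit 13) (.e (nat_lit 393301) (nat_lit 27) (.e (nat_lit 491560) (nat_lit 10) (.e (nat_lit 344088) (nat_lit 18) (.e (nat_lit 6923) (nat_lit 371) (.e (nat_lit 2449) (nat_lit 157) .nil))))))) (.g (nat_lit 1) (.e (nat_lit 72514) (nat_lit 0) .nil) .nil))) 
(.lf (nat_lit 464449) (.g (nat_lit 2786) (.e (nat_lit 3102) (nat_lit 192) (.e (nat_lit 491560) (nat_lit 10) (.e (nat_lit 344117) (nat_lit 21) (.e (nat_lit 516185) (nat_lit 16) (.e (nat_lit 491558) (nat_lit 10) (.e (nat_lit 344107) (nat_lit 19) (.e (nat_lit 499843) (nat_lit 5) .nil))))))) (.g (nat_lit 1) (.e (nat_lit 73287) (nat_lit 0) .nil) .nil)))) (.nd (nat_lit 9) 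
(.lf (nat_lit 464193) (.g (nat_lit 2853) (.e (nat_lit 3098) (nat_lit 192) (.e (nat_lit 491569) (nat_lit 13) (.e (nat_lit 393301) (nat_lit 27) (.e (nat_lit 491558) (nat_lit 10) (.e (nat_lit 344170) (nat_lit 41) (.e (nat_lit 753671) (nat_lit 5) .nil)))))) (.g (nat_lit 1) (.e (nat_lit 72970) (nat_lit 0) .nil) .nil))) 
(.lf (nat_lit 464705) (.g (nat_lit 3890) (.e (nat_lit 3230) (nat_lit 197) (.e (nat_lit 532503) (nat_lit 1) (.e (nat_lit 57931) (nat_lit 282) (.e (nat_lit 163869) (nat_lit 2) (.e (nat_lit 196670) (nat_lit 14) (.e (nat_lit 73746) (nat_lit 3) (.e (nat_lit 516129) (nat_lit 3) (.e (nat_lit 221200) (nat_lit 20) .nil)))))))) (.g (nat_lit 1) (.e (nat_lit 73689) (nat_lit 0) .nil) .nil))))) 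
(.nd (nat_lit 8) (.nd (nat_lit 9) 
(.lf (nat_lit 464065) (.g (nat_lit 789) (.e (nat_lit 3098) (nat_lit 192) (.e (nat_lit 491550) (nat_lit 9) (.e (nat_lit 336260) (nat_lit 15) .nil))) (.g (nat_lit 0) (.e (nat_lit 72718) (nat_lit 0) .nil) .nil))) 
(.lf (nat_lit 464577) (.g (nat_lit 4024) (.e (nat_lit 3114) (nat_lit 193) (.e (nat_lit 500074) (nat_lit 20) (.e (nat_lit 81938) (nat_lit 20) (.e (nat_lit 1842) (nat_lit 123) (.e (nat_lit 548889) (nat_lit 9) (.e (nat_lit 65630) (nat_lit 14) (.e (nat_lit 401412) (nat_lit 0) .nil))))))) (.g (nat_lit 1) (.e (nat_lit 73454) (nat_lit 0) .nil) .nil)))) (.nd (nat_lit 9) 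
(.lf (nat_lit 464321) (.g (nat_lit 3588) (.e (nat_lit 3098) (nat_lit 192) (.e (nat_lit 491569) (nat_lit 13) (.e (nat_lit 393301) (nat_lit 27) (.e (nat_lit 491560) (nat_lit 10) (.e (nat_lit 344170) (nat_lit 41) (.e (nat_lit 753671) (nat_lit 5) .nil)))))) (.g (nat_lit 1) (.e (nat_lit 73098) (nat_lit 0) .nil) .nil))) 
(.lf (nat_lit 464833) (.g (nat_lit 4054) (.e (nat_lit 3231) (nat_lit 197) (.e (nat_lit 532550) (nat_lit 12) (.e (nat_lit 360474) (nat_lit 8) (.e (nat_lit 557085) (nat_lit 11) .nil)))) (.g (nat_lit 0) (.e (nat_lit 73929) (nat_lit 0) .nil) .nil))))))) (.nd (nat_lit 6) (.nd (nat_lit 7) (.nd (nat_lit 8) (.nd (nat_lit 9) 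
(.lf (nat_lit 463905) (.g (nat_lit 2168) (.e (nat_lit 3096) (nat_lit 192) (.e (nat_lit 491566) (nat_lit 12) (.e (nat_lit 385105) (nat_lit 50) (.e (nat_lit 786483) (nat_lit 30) (.e (nat_lit 360484) (nat_lit 15) (.e (nat_lit 647177) (nat_lit 0) .nil)))))) (.g (nat_lit 1) (.e (nat_lit 72482) (nat_lit 0) .nil) .nil))) 
(.lf (nat_lit 464417) (.g (nat_lit 2795) (.e (nat_lit 3102) (nat_lit 192) (.e (nat_lit 491558) (nat_lit 10) (.e (nat_lit 344126) (nat_lit 25) (.e (nat_lit 548874) (nat_lit 5) (.e (nat_lit 1572) (nat_lit 110) .nil))))) (.g (nat_lit 0) (.e (nat_lit 73253) (nat_lit 0) .nil) .nil)))) (.nd (nat_lit 9) 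
(.lf (nat_lit 464161) (.g (nat_lit 1182) (.e (nat_lit 3098) (nat_lit 192) (.e (nat_lit 491569) (nat_lit 13) (.e (nat_lit 393301) (nat_lit 27) (.e (nat_lit 491558) (nat_lit 10) .nil)))) (.g (nat_lit 0) (.e (nat_lit 72938) (nat_lit 0) .nil) .nil))) 
(.lf (nat_lit 464673) (.g (nat_lit 2128) (.e (nat_lit 3230) (nat_lit 197) (.e (nat_lit 532503) (nat_lit 1) (.e (nat_lit 57924) (nat_lit 282) (.e (nat_lit 163867) (nat_lit 2) (.e (nat_lit 196668) (nat_lit 14) (.e (nat_lit 73747) (nat_lit 3) (.e (nat_lit 516131) (nat_lit 3) (.e (nat_lit 221198) (nat_lit 20) .nil)))))))) (.g (nat_lit 1) (.e (nat_lit 73653) (nat_lit 0) .nil) .nil))))) 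
(.nd (nat_lit 8) (.nd (nat_lit 9) 
(.lf (nat_lit 464033) (.g (nat_lit 2325) (.e (nat_lit 3098) (nat_lit 192) (.e (nat_lit 491537) (nat_lit 2) (.e (nat_lit 90176) (nat_lit 15) (.e (nat_lit 188447) (nat_lit 22) (.e (nat_lit 196628) (nat_lit 9) (.e (nat_lit 968) (nat_lit 81) (.e (nat_lit 6618) (nat_lit 357) .nil))))))) (.g (nat_lit 1) (.e (nat_lit 72678) (nat_lit 0) .nil) .nil))) 
(.lf (nat_lit 464545) (.g (nat_lit 1626) (.e (nat_lit 3105) (nat_lit 192) (.e (nat_lit 491569) (nat_lit 13) (.e (nat_lit 393301) (nat_lit 27) (.e (nat_lit 491558) (nat_lit 10) .nil)))) (.g (nat_lit 0) (.e (nat_lit 73399) (nat_lit 0) .nil) .nil)))) (.nd (nat_lit 9) 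
(.lf (nat_lit 464289) (.g (nat_lit 3833) (.e (nat_lit 3098) (nat_lit 192) (.e (nat_lit 491569) (nat_lit 13) (.e (nat_lit 393301) (nat_lit 27) (.e (nat_lit 491560) (nat_lit 10) (.e (nat_lit 344091) (nat_lit 18) (.e (nat_lit 6850) (nat_lit 371) (.e (nat_lit 2450) (nat_lit 157) .nil))))))) (.g (nat_lit 1) (.e (nat_lit 73066) (nat_lit 0) .nil) .nil))) 
(.lf (nat_lit 464801) (.g (nat_lit 3409) (.e (nat_lit 3230) (nat_lit 197) (.e (nat_lit 532550) (nat_lit 12) (.e (nat_lit 360475) (nat_lit 8) (.e (nat_lit 557091) (nat_lit 12) (.e (nat_lit 164022) (nat_lit 46) (.e (nat_lit 704737) (nat_lit 11) (.e (nat_lit 16390) (nat_lit 0) .nil))))))) (.g (nat_lit 1) (.e (nat_lit 73859) (nat_lit 0) .nil) .nil)))))) 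
(.nd (nat_lit 7) (.nd (nat_lit 8) (.nd (nat_lit 9) 
(.lf (nat_lit 463969) (.g (nat_lit 4534) (.e (nat_lit 3097) (nat_lit 192) (.e (nat_lit 491566) (nat_lit 12) (.e (nat_lit 385072) (nat_lit 31) (.e (nat_lit 573481) (nat_lit 13) (.e (nat_lit 65604) (nat_lit 9) (.e (nat_lit 336013) (nat_lit 2) (.e (nat_lit 90134) (nat_lit 9) .nil))))))) (.g (nat_lit 1) (.e (nat_lit 72573) (nat_lit 0) .nil) .nil))) 
(.lf (nat_lit 464481) (.g (nat_lit 4028) (.e (nat_lit 3103) (nat_lit 192) (.e (nat_lit 491569) (nat_lit 13) (.e (nat_lit 393301) (nat_lit 27) (.e (nat_lit 491559) (nat_lit 10) (.e (nat_lit 344091) (nat_lit 18) .nil))))) (.g (nat_lit 0) (.e (nat_lit 73323) (nat_lit 0) .nil) .nil)))) (.nd (nat_lit 9) 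
(.lf (nat_lit 464225) (.g (nat_lit 3533) (.e (nat_lit 3098) (nat_lit 192) (.e (nat_lit 491569) (nat_lit 13) (.e (nat_lit 393301) (nat_lit 27) (.e (nat_lit 491559) (nat_lit 10) (.e (nat_lit 344171) (nat_lit 41) (.e (nat_lit 753673) (nat_lit 5) .nil)))))) (.g (nat_lit 1) (.e (nat_lit 73002) (nat_lit 0) .nil) .nil))) 
(.lf (nat_lit 464737) (.g (nat_lit 2310) (.e (nat_lit 3230) (nat_lit 197) (.e (nat_lit 532504) (nat_lit 1) (.e (nat_lit 57851) (nat_lit 252) (.e (nat_lit 57406) (nat_lit 12) (.e (nat_lit 336456) (nat_lit 34) (.e (nat_lit 483393) (nat_lit 23) (.e (nat_lit 336271) (nat_lit 15) .nil))))))) (.g (nat_lit 1) (.e (nat_lit 73726) (nat_lit 0) .nil) .nil))))) (.nd (nat_lit 8) (.nd (nat_lit 9) 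
(.lf (nat_lit 464097) (.g (nat_lit 1947) (.e (nat_lit 3098) (nat_lit 192) (.e (nat_lit 491565) (nat_lit 12) (.e (nat_lit 385073) (nat_lit 31) (.e (nat_lit 573493) (nat_lit 15) (.e (nat_lit 81953) (nat_lit 22) (.e (nat_lit 98048) (nat_lit 9) .nil)))))) (.g (nat_lit 1) (.e (nat_lit 72754) (nat_lit 0) .nil) .nil))) 
(.lf (nat_lit 464609) (.g (nat_lit 3742) (.e (nat_lit 3141) (nat_lit 193) (.e (nat_lit 500079) (nat_lit 20) (.e (nat_lit 81956) (nat_lit 23) (.e (nat_lit 98350) (nat_lit 24) (.e (nat_lit 409648) (nat_lit 18) .nil))))) (.g (nat_lit 0) (.e (nat_lit 73512) (nat_lit 0) .nil) .nil)))) (.nd (nat_lit 9) 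
(.lf (nat_lit 464353) (.g (nat_lit 4171) (.e (nat_lit 3098) (nat_lit 192) (.e (nat_lit 491571) (nat_lit 13) (.e (nat_lit 393260) (nat_lit 21) (.e (nat_lit 409645) (nat_lit 18) .nil)))) (.g (nat_lit 0) (.e (nat_lit 73158) (nat_lit 0) .nil) .nil))) 
(.lf (nat_lit 464865) (.g (nat_lit 7035) (.e (nat_lit 3232) (nat_lit 197) (.e (nat_lit 532550) (nat_lit 12) (.e (nat_lit 360475) (nat_lit 8) (.e (nat_lit 557090) (nat_lit 12) .nil)))) (.g (nat_lit 0) (.e (nat_lit 74001) (nat_lit 0) .nil) .nil)))))))) (.nd (nat_lit 5) (.nd (nat_lit 6) (.nd (nat_lit 7) (.nd (nat_lit 8) (.nd (nat_lit 9) 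
(.lf (nat_lit 463889) (.g (nat_lit 1741) (.e (nat_lit 3096) (nat_lit 192) (.e (nat_lit 491566) (nat_lit 12) (.e (nat_lit 385072) (nat_lit 31) (.e (nat_lit 573493) (nat_lit 15) .nil)))) (.g (nat_lit 0) (.e (nat_lit 72451) (nat_lit 0) .nil) .nil))) 
(.lf (nat_lit 464401) (.g (nat_lit 2198) (.e (nat_lit 3102) (nat_lit 192) (.e (nat_lit 491558) (nat_lit 10) (.e (nat_lit 344115) (nat_lit 20) (.e (nat_lit 507907) (nat_lit 0) (.e (nat_lit 5412) (nat_lit 303) (.e (nat_lit 73739) (nat_lit 1) (.e (nat_lit 499848) (nat_lit 5) .nil))))))) (.g (nat_lit 1) (.e (nat_lit 73237) (nat_lit 0) .nil) .nil)))) (.nd (nat_lit 9) 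
(.lf (nat_lit 464145) (.g (nat_lit 2933) (.e (nat_lit 3098) (nat_lit 192) (.e (nat_lit 491568) (nat_lit 13) (.e (nat_lit 393301) (nat_lit 27) (.e (nat_lit 491560) (nat_lit 10) (.e (nat_lit 344096) (nat_lit 18) (.e (nat_lit 6850) (nat_lit 371) (.e (nat_lit 2450) (nat_lit 157) .nil))))))) (.g (nat_lit 1) (.e (nat_lit 72919) (nat_lit 0) .nil) .nil))) 
(.lf (nat_lit 464657) (.g (nat_lit 492) (.e (nat_lit 3230) (nat_lit 197) (.e (nat_lit 532503) (nat_lit 1) (.e (nat_lit 57688) (nat_lit 156) .nil))) (.g (nat_lit 0) (.e (nat_lit 73632) (nat_lit 0) .nil) .nil))))) (.nd (nat_lit 8) (.nd (nat_lit 9) 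
(.lf (nat_lit 464017) (.g (nat_lit 5708) (.e (nat_lit 3098) (nat_lit 192) (.e (nat_lit 491537) (nat_lit 2) (.e (nat_lit 90170) (nat_lit 13) (.e (nat_lit 172106) (nat_lit 10) (.e (nat_lit 434231) (nat_lit 23) (.e (nat_lit 532481) (nat_lit 0) (.e (nat_lit 6619) (nat_lit 357) .nil))))))) (.g (nat_lit 1) (.e (nat_lit 72662) (nat_lit 0) .nil) .nil))) 
(.lf (nat_lit 464529) (.g (nat_lit 3739) (.e (nat_lit 3105) (nat_lit 192) (.e (nat_lit 491566) (nat_lit 12) (.e (nat_lit 385104) (nat_lit 50) (.e (nat_lit 786483) (nat_lit 30) (.e (nat_lit 360484) (nat_lit 15) (.e (nat_lit 647168) (nat_lit 0) .nil)))))) (.g (nat_lit 1) (.e (nat_lit 73383) (nat_lit 0) .nil) .nil)))) (.nd (nat_lit 9) 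
(.lf (nat_lit 464273) (.g (nat_lit 2810) (.e (nat_lit 3098) (nat_lit 192) (.e (nat_lit 491569) (nat_lit 13) (.e (nat_lit 393301) (nat_lit 27) (.e (nat_lit 491560) (nat_lit 10) (.e (nat_lit 344089) (nat_lit 18) (.e (nat_lit 6891) (nat_lit 371) (.e (nat_lit 2445) (nat_lit 157) .nil))))))) (.g (nat_lit 1) (.e (nat_lit 73050) (nat_lit 0) .nil) .nil))) 
(.lf (nat_lit 464785) (.g (nat_lit 3209) (.e (nat_lit 3230) (nat_lit 197) (.e (nat_lit 532550) (nat_lit 12) (.e (nat_lit 360474) (nat_lit 8) (.e (nat_lit 557094) (nat_lit 12) (.e (nat_lit 164022) (nat_lit 46) (.e (nat_lit 704737) (nat_lit 11) (.e (nat_lit 16401) (nat_lit 0) .nil))))))) (.g (nat_lit 1) (.e (nat_lit 73841) (nat_lit 0) .nil) .nil)))))) 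
(.nd (nat_lit 7) (.nd (nat_lit 8) (.nd (nat_lit 9) 
(.lf (nat_lit 463953) (.g (nat_lit 3610) (.e (nat_lit 3096) (nat_lit 192) (.e (nat_lit 491569) (nat_lit 13) (.e (nat_lit 393301) (nat_lit 27) (.e (nat_lit 491563) (nat_lit 12) (.e (nat_lit 385031) (nat_lit 8) .nil))))) (.g (nat_lit 0) (.e (nat_lit 72530) (nat_lit 0) .nil) .nil))) 
(.lf (nat_lit 464465) (.g (nat_lit 1003) (.e (nat_lit 3102) (nat_lit 192) (.e (nat_lit 491563) (nat_lit 12) (.e (nat_lit 385102) (nat_lit 50) .nil))) (.g (nat_lit 0) (.e (nat_lit 73304) (nat_lit 0) .nil) .nil)))) (.nd (nat_lit 9) 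
(.lf (nat_lit 464209) (.g (nat_lit 3990) (.e (nat_lit 3098) (nat_lit 192) (.e (nat_lit 491569) (nat_lit 13) (.e (nat_lit 393301) (nat_lit 27) (.e (nat_lit 491559) (nat_lit 10) (.e (nat_lit 344091) (nat_lit 18) (.e (nat_lit 6923) (nat_lit 371) (.e (nat_lit 2422) (nat_lit 157) .nil))))))) (.g (nat_lit 1) (.e (nat_lit 72986) (nat_lit 0) .nil) .nil))) 
(.lf (nat_lit 464721) (.g (nat_lit 2943) (.e (nat_lit 3230) (nat_lit 197) (.e (nat_lit 532503) (nat_lit 1) (.e (nat_lit 57931) (nat_lit 282) (.e (nat_lit 163874) (nat_lit 3) (.e (nat_lit 204872) (nat_lit 30) (.e (nat_lit 368676) (nat_lit 21) (.e (nat_lit 516131) (nat_lit 3) (.e (nat_lit 221197) (nat_lit 20) .nil)))))))) (.g (nat_lit 1) (.e (nat_lit 73707) (nat_lit 0) .nil) .nil))))) 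
(.nd (nat_lit 8) (.nd (nat_lit 9) 
(.lf (nat_lit 464081) (.g (nat_lit 2953) (.e (nat_lit 3098) (nat_lit 192) (.e (nat_lit 491564) (nat_lit 12) (.e (nat_lit 385073) (nat_lit 31) (.e (nat_lit 573482) (nat_lit 13) (.e (nat_lit 65604) (nat_lit 9) (.e (nat_lit 336013) (nat_lit 2) (.e (nat_lit 90134) (nat_lit 9) .nil))))))) (.g (nat_lit 1) (.e (nat_lit 72736) (nat_lit 0) .nil) .nil))) 
(.lf (nat_lit 464593) (.g (nat_lit 3826) (.e (nat_lit 3124) (nat_lit 193) (.e (nat_lit 500059) (nat_lit 18) (.e (nat_lit 65630) (nat_lit 14) (.e (nat_lit 401428) (nat_lit 3) (.e (nat_lit 204861) (nat_lit 26) (.e (nat_lit 336230) (nat_lit 14) (.e (nat_lit 401414) (nat_lit 0) .nil))))))) (.g (nat_lit 1) (.e (nat_lit 73474) (nat_lit 0) .nil) .nil)))) (.nd (nat_lit 9) 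
(.lf (nat_lit 464337) (.g (nat_lit 483) (.e (nat_lit 3098) (nat_lit 192) (.e (nat_lit 491571) (nat_lit 13) (.e (nat_lit 393232) (nat_lit 17) .nil))) (.g (nat_lit 0) (.e (nat_lit 73122) (nat_lit 0) .nil) .nil))) 
(.lf (nat_lit 464849) (.g (nat_lit 2117) (.e (nat_lit 3232) (nat_lit 197) (.e (nat_lit 532499) (nat_lit 1) (.e (nat_lit 57926) (nat_lit 282) (.e (nat_lit 163869) (nat_lit 2) (.e (nat_lit 196670) (nat_lit 14) .nil))))) (.g (nat_lit 0) (.e (nat_lit 73953) (nat_lit 0) .nil) .nil))))))) (.nd (nat_lit 6) (.nd (nat_lit 7) (.nd (nat_lit 8) (.nd (nat_lit 9) 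
(.lf (nat_lit 463921) (.g (nat_lit 3147) (.e (nat_lit 3096) (nat_lit 192) (.e (nat_lit 491569) (nat_lit 13) (.e (nat_lit 393301) (nat_lit 27) (.e (nat_lit 491558) (nat_lit 10) (.e (nat_lit 344172) (nat_lit 41) (.e (nat_lit 753678) (nat_lit 5) .nil)))))) (.g (nat_lit 1) (.e (nat_lit 72498) (nat_lit 0) .nil) .nil))) 
(.lf (nat_lit 464433) (.g (nat_lit 1497) (.e (nat_lit 3102) (nat_lit 192) (.e (nat_lit 491560) (nat_lit 10) (.e (nat_lit 344115) (nat_lit 20) (.e (nat_lit 507908) (nat_lit 0) .nil)))) (.g (nat_lit 0) (.e (nat_lit 73269) (nat_lit 0) .nil) .nil)))) (.nd (nat_lit 9) 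
(.lf (nat_lit 464177) (.g (nat_lit 2920) (.e (nat_lit 3098) (nat_lit 192) (.e (nat_lit 491569) (nat_lit 13) (.e (nat_lit 393301) (nat_lit 27) (.e (nat_lit 491558) (nat_lit 10) (.e (nat_lit 344091) (nat_lit 18) (.e (nat_lit 6869) (nat_lit 371) (.e (nat_lit 2443) (nat_lit 157) .nil))))))) (.g (nat_lit 1) (.e (nat_lit 72954) (nat_lit 0) .nil) .nil))) 
(.lf (nat_lit 464689) (.g (nat_lit 2504) (.e (nat_lit 3230) (nat_lit 197) (.e (nat_lit 532503) (nat_lit 1) (.e (nat_lit 57931) (nat_lit 282) (.e (nat_lit 163867) (nat_lit 2) (.e (nat_lit 196670) (nat_lit 14) (.e (nat_lit 73746) (nat_lit 3) (.e (nat_lit 516129) (nat_lit 3) (.e (nat_lit 221199) (nat_lit 20) .nil)))))))) (.g (nat_lit 1) (.e (nat_lit 73669) (nat_lit 0) .nil) .nil))))) 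
(.nd (nat_lit 8) (.nd (nat_lit 9) 
(.lf (nat_lit 464049) (.g (nat_lit 1518) (.e (nat_lit 3098) (nat_lit 192) (.e (nat_lit 491546) (nat_lit 9) (.e (nat_lit 336028) (nat_lit 3) (.e (nat_lit 98349) (nat_lit 24) .nil)))) (.g (nat_lit 0) (.e (nat_lit 72695) (nat_lit 0) .nil) .nil))) 
(.lf (nat_lit 464561) (.g (nat_lit 3397) (.e (nat_lit 3105) (nat_lit 192) (.e (nat_lit 491569) (nat_lit 13) (.e (nat_lit 393301) (nat_lit 27) (.e (nat_lit 491560) (nat_lit 10) (.e (nat_lit 344090) (nat_lit 18) .nil))))) (.g (nat_lit 0) (.e (nat_lit 73415) (nat_lit 0) .nil) .nil)))) (.nd (nat_lit 9) 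
(.lf (nat_lit 464305) (.g (nat_lit 3800) (.e (nat_lit 3098) (nat_lit 192) (.e (nat_lit 491569) (nat_lit 13) (.e (nat_lit 393301) (nat_lit 27) (.e (nat_lit 491560) (nat_lit 10) (.e (nat_lit 344095) (nat_lit 18) .nil))))) (.g (nat_lit 0) (.e (nat_lit 73082) (nat_lit 0) .nil) .nil))) 
(.lf (nat_lit 464817) (.g (nat_lit 4099) (.e (nat_lit 3231) (nat_lit 197) (.e (nat_lit 532501) (nat_lit 1) (.e (nat_lit 57851) (nat_lit 252) (.e (nat_lit 57406) (nat_lit 12) (.e (nat_lit 336367) (nat_lit 27) (.e (nat_lit 426542) (nat_lit 29) (.e (nat_lit 352267) (nat_lit 0) .nil))))))) (.g (nat_lit 1) (.e (nat_lit 73876) (nat_lit 0) .nil) .nil)))))) 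
(.nd (nat_lit 7) (.nd (nat_lit 8) (.nd (nat_lit 9) 
(.lf (nat_lit 463985) (.g (nat_lit 4208) (.e (nat_lit 3097) (nat_lit 192) (.e (nat_lit 491566) (nat_lit 12) (.e (nat_lit 385074) (nat_lit 31) (.e (nat_lit 573491) (nat_lit 15) (.e (nat_lit 81951) (nat_lit 22) (.e (nat_lit 90134) (nat_lit 9) .nil)))))) (.g (nat_lit 1) (.e (nat_lit 72590) (nat_lit 0) .nil) .nil))) 
(.lf (nat_lit 464497) (.g (nat_lit 947) (.e (nat_lit 3104) (nat_lit 192) (.e (nat_lit 491569) (nat_lit 13) (.e (nat_lit 393301) (nat_lit 27) .nil))) (.g (nat_lit 0) (.e (nat_lit 73340) (nat_lit 0) .nil) .nil)))) (.nd (nat_lit 9) 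
(.lf (nat_lit 464241) (.g (nat_lit 2762) (.e (nat_lit 3098) (nat_lit 192) (.e (nat_lit 491569) (nat_lit 13) (.e (nat_lit 393301) (nat_lit 27) (.e (nat_lit 491560) (nat_lit 10) (.e (nat_lit 344088) (nat_lit 18) (.e (nat_lit 6848) (nat_lit 371) (.e (nat_lit 2430) (nat_lit 157) .nil))))))) (.g (nat_lit 1) (.e (nat_lit 73018) (nat_lit 0) .nil) .nil))) 
(.lf (nat_lit 464753) (.g (nat_lit 3575) (.e (nat_lit 3230) (nat_lit 197) (.e (nat_lit 532535) (nat_lit 9) (.e (nat_lit 336099) (nat_lit 9) (.e (nat_lit 336013) (nat_lit 2) (.e (nat_lit 90165) (nat_lit 12) (.e (nat_lit 164208) (nat_lit 176) (.e (nat_lit 2819) (nat_lit 181) (.e (nat_lit 311302) (nat_lit 0) .nil)))))))) (.g (nat_lit 1) (.e (nat_lit 73790) (nat_lit 0) .nil) .nil))))) 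
(.nd (nat_lit 8) (.nd (nat_lit 9) 
(.lf (nat_lit 464113) (.g (nat_lit 4748) (.e (nat_lit 3098) (nat_lit 192) (.e (nat_lit 491566) (nat_lit 12) (.e (nat_lit 385072) (nat_lit 31) (.e (nat_lit 573493) (nat_lit 15) (.e (nat_lit 81951) (nat_lit 22) (.e (nat_lit 90134) (nat_lit 9) .nil)))))) (.g (nat_lit 1) (.e (nat_lit 72810) (nat_lit 0) .nil) .nil))) 
(.lf (nat_lit 464625) (.g (nat_lit 4240) (.e (nat_lit 3227) (nat_lit 197) (.e (nat_lit 532550) (nat_lit 12) (.e (nat_lit 360475) (nat_lit 8) (.e (nat_lit 557091) (nat_lit 12) (.e (nat_lit 164022) (nat_lit 46) (.e (nat_lit 704736) (nat_lit 11) (.e (nat_lit 16386) (nat_lit 0) .nil))))))) (.g (nat_lit 1) (.e (nat_lit 73586) (nat_lit 0) .nil) .nil)))) (.nd (nat_lit 9) 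
(.lf (nat_lit 464369) (.g (nat_lit 3365) (.e (nat_lit 3099) (nat_lit 192) (.e (nat_lit 491566) (nat_lit 12) (.e (nat_lit 385104) (nat_lit 50) (.e (nat_lit 786483) (nat_lit 30) (.e (nat_lit 360484) (nat_lit 15) (.e (nat_lit 647171) (nat_lit 0) .nil)))))) (.g (nat_lit 1) (.e (nat_lit 73190) (nat_lit 0) .nil) .nil))) 
(.lf (nat_lit 464881) (.g (nat_lit 2097) (.e (nat_lit 3234) (nat_lit 197) (.e (nat_lit 532504) (nat_lit 1) (.e (nat_lit 57851) (nat_lit 252) (.e (nat_lit 57406) (nat_lit 12) (.e (nat_lit 336367) (nat_lit 27) .nil))))) (.g (nat_lit 0) (.e (nat_lit 74023) (nat_lit 0) .nil) .nil))))))))) (.nd (nat_lit 4) (.nd (nat_lit 5) (.nd (nat_lit 6) (.nd (nat_lit 7) (.nd (nat_lit 8) (.nd (nat_lit 9) 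
(.lf (nat_lit 463881) (.g (nat_lit 2363) (.e (nat_lit 3096) (nat_lit 192) (.e (nat_lit 491565) (nat_lit 12) (.e (nat_lit 385102) (nat_lit 50) (.e (nat_lit 786483) (nat_lit 30) (.e (nat_lit 360484) (nat_lit 15) (.e (nat_lit 647171) (nat_lit 0) .nil)))))) (.g (nat_lit 1) (.e (nat_lit 72442) (nat_lit 0) .nil) .nil))) 
(.lf (nat_lit 464393) (.g (nat_lit 1984) (.e (nat_lit 3102) (nat_lit 192) (.e (nat_lit 491558) (nat_lit 10) (.e (nat_lit 344115) (nat_lit 20) (.e (nat_lit 507907) (nat_lit 0) (.e (nat_lit 5410) (nat_lit 303) (.e (nat_lit 73743) (nat_lit 1) (.e (nat_lit 499846) (nat_lit 5) .nil))))))) (.g (nat_lit 1) (.e (nat_lit 73229) (nat_lit 0) .nil) .nil)))) (.nd (nat_lit 9) 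
(.lf (nat_lit 464137) (.g (nat_lit 3847) (.e (nat_lit 3098) (nat_lit 192) (.e (nat_lit 491566) (nat_lit 12) (.e (nat_lit 385105) (nat_lit 50) (.e (nat_lit 786483) (nat_lit 30) (.e (nat_lit 360484) (nat_lit 15) (.e (nat_lit 647168) (nat_lit 0) .nil)))))) (.g (nat_lit 1) (.e (nat_lit 72910) (nat_lit 0) .nil) .nil))) 
(.lf (nat_lit 464649) (.g (nat_lit 3494) (.e (nat_lit 3230) (nat_lit 197) (.e (nat_lit 532500) (nat_lit 1) (.e (nat_lit 57852) (nat_lit 252) (.e (nat_lit 57406) (nat_lit 12) (.e (nat_lit 336454) (nat_lit 34) (.e (nat_lit 483385) (nat_lit 23) (.e (nat_lit 336260) (nat_lit 15) .nil))))))) (.g (nat_lit 1) (.e (nat_lit 73620) (nat_lit 0) .nil) .nil))))) (.nd (nat_lit 8) (.nd (nat_lit 9) 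
(.lf (nat_lit 464009) (.g (nat_lit 3719) (.e (nat_lit 3098) (nat_lit 192) (.e (nat_lit 491537) (nat_lit 2) (.e (nat_lit 90170) (nat_lit 13) (.e (nat_lit 172106) (nat_lit 10) (.e (nat_lit 434227) (nat_lit 20) (.e (nat_lit 507929) (nat_lit 10) (.e (nat_lit 5616) (nat_lit 312) .nil))))))) (.g (nat_lit 1) (.e (nat_lit 72654) (nat_lit 0) .nil) .nil))) 
(.lf (nat_lit 464521) (.g (nat_lit 4358) (.e (nat_lit 3105) (nat_lit 192) (.e (nat_lit 491566) (nat_lit 12) (.e (nat_lit 385072) (nat_lit 31) (.e (nat_lit 573492) (nat_lit 15) (.e (nat_lit 81953) (nat_lit 22) (.e (nat_lit 90133) (nat_lit 9) .nil)))))) (.g (nat_lit 1) (.e (nat_lit 73369) (nat_lit 0) .nil) .nil)))) (.nd (nat_lit 9) 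
(.lf (nat_lit 464265) (.g (nat_lit 2611) (.e (nat_lit 3098) (nat_lit 192) (.e (nat_lit 491569) (nat_lit 13) (.e (nat_lit 393301) (nat_lit 27) (.e (nat_lit 491560) (nat_lit 10) (.e (nat_lit 344089) (nat_lit 18) .nil))))) (.g (nat_lit 0) (.e (nat_lit 73042) (nat_lit 0) .nil) .nil))) 
(.lf (nat_lit 464777) (.g (nat_lit 3719) (.e (nat_lit 3230) (nat_lit 197) (.e (nat_lit 532550) (nat_lit 12) (.e (nat_lit 360474) (nat_lit 8) (.e (nat_lit 557093) (nat_lit 12) (.e (nat_lit 164023) (nat_lit 46) (.e (nat_lit 704735) (nat_lit 11) (.e (nat_lit 16400) (nat_lit 0) .nil))))))) (.g (nat_lit 1) (.e (nat_lit 73833) (nat_lit 0) .nil) .nil)))))) 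
(.nd (nat_lit 7) (.nd (nat_lit 8) (.nd (nat_lit 9) 
(.lf (nat_lit 463945) (.g (nat_lit 3055) (.e (nat_lit 3096) (nat_lit 192) (.e (nat_lit 491569) (nat_lit 13) (.e (nat_lit 393301) (nat_lit 27) (.e (nat_lit 491560) (nat_lit 10) (.e (nat_lit 344170) (nat_lit 41) (.e (nat_lit 753674) (nat_lit 5) .nil)))))) (.g (nat_lit 1) (.e (nat_lit 72522) (nat_lit 0) .nil) .nil))) 
(.lf (nat_lit 464457) (.g (nat_lit 2667) (.e (nat_lit 3102) (nat_lit 192) (.e (nat_lit 491560) (nat_lit 10) (.e (nat_lit 344126) (nat_lit 25) (.e (nat_lit 548874) (nat_lit 5) (.e (nat_lit 1562) (nat_lit 110) .nil))))) (.g (nat_lit 0) (.e (nat_lit 73295) (nat_lit 0) .nil) .nil)))) (.nd (nat_lit 9) 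
(.lf (nat_lit 464201) (.g (nat_lit 3745) (.e (nat_lit 3098) (nat_lit 192) (.e (nat_lit 491569) (nat_lit 13) (.e (nat_lit 393301) (nat_lit 27) (.e (nat_lit 491558) (nat_lit 10) (.e (nat_lit 344172) (nat_lit 41) (.e (nat_lit 753673) (nat_lit 5) .nil)))))) (.g (nat_lit 1) (.e (nat_lit 72978) (nat_lit 0) .nil) .nil))) 
(.lf (nat_lit 464713) (.g (nat_lit 2245) (.e (nat_lit 3230) (nat_lit 197) (.e (nat_lit 532503) (nat_lit 1) (.e (nat_lit 57931) (nat_lit 282) (.e (nat_lit 163874) (nat_lit 3) (.e (nat_lit 204854) (nat_lit 26) (.e (nat_lit 336019) (nat_lit 3) (.e (nat_lit 98342) (nat_lit 20) (.e (nat_lit 221202) (nat_lit 20) .nil)))))))) (.g (nat_lit 1) (.e (nat_lit 73699) (nat_lit 0) .nil) .nil))))) 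
(.nd (nat_lit 8) (.nd (nat_lit 9) 
(.lf (nat_lit 464073) (.g (nat_lit 3797) (.e (nat_lit 3098) (nat_lit 192) (.e (nat_lit 491562) (nat_lit 12) (.e (nat_lit 385074) (nat_lit 31) (.e (nat_lit 573491) (nat_lit 15) (.e (nat_lit 81951) (nat_lit 22) (.e (nat_lit 90134) (nat_lit 9) .nil)))))) (.g (nat_lit 1) (.e (nat_lit 72728) (nat_lit 0) .nil) .nil))) 
(.lf (nat_lit 464585) (.g (nat_lit 2651) (.e (nat_lit 3114) (nat_lit 193) (.e (nat_lit 500075) (nat_lit 20) (.e (nat_lit 81953) (nat_lit 22) (.e (nat_lit 90130) (nat_lit 9) (.e (nat_lit 2830) (nat_lit 182) (.e (nat_lit 417536) (nat_lit 18) (.e (nat_lit 303106) (nat_lit 0) .nil))))))) (.g (nat_lit 1) (.e (nat_lit 73463) (nat_lit 0) .nil) .nil)))) (.nd (nat_lit 9) 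
(.lf (nat_lit 464329) (.g (nat_lit 3819) (.e (nat_lit 3098) (nat_lit 192) (.e (nat_lit 491569) (nat_lit 13) (.e (nat_lit 393301) (nat_lit 27) (.e (nat_lit 491560) (nat_lit 10) (.e (nat_lit 344172) (nat_lit 41) (.e (nat_lit 753674) (nat_lit 5) .nil)))))) (.g (nat_lit 1) (.e (nat_lit 73106) (nat_lit 0) .nil) .nil))) 
(.lf (nat_lit 464841) (.g (nat_lit 7098) (.e (nat_lit 3231) (nat_lit 197) (.e (nat_lit 532550) (nat_lit 12) (.e (nat_lit 360475) (nat_lit 8) (.e (nat_lit 557090) (nat_lit 12) .nil)))) (.g (nat_lit 0) (.e (nat_lit 73939) (nat_lit 0) .nil) .nil))))))) (.nd (nat_lit 6) (.nd (nat_lit 7) (.nd (nat_lit 8) (.nd (nat_lit 9) 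
(.lf (nat_lit 463913) (.g (nat_lit 3267) (.e (nat_lit 3096) (nat_lit 192) (.e (nat_lit 491569) (nat_lit 13) (.e (nat_lit 393301) (nat_lit 27) (.e (nat_lit 491558) (nat_lit 10) (.e (nat_lit 344091) (nat_lit 18) (.e (nat_lit 6923) (nat_lit 371) (.e (nat_lit 2427) (nat_lit 157) .nil))))))) (.g (nat_lit 1) (.e (nat_lit 72490) (nat_lit 0) .nil) .nil))) 
(.lf (nat_lit 464425) (.g (nat_lit 2213) (.e (nat_lit 3102) (nat_lit 192) (.e (nat_lit 491560) (nat_lit 10) (.e (nat_lit 344115) (nat_lit 20) (.e (nat_lit 507906) (nat_lit 0) (.e (nat_lit 5412) (nat_lit 303) (.e (nat_lit 73739) (nat_lit 1) (.e (nat_lit 499835) (nat_lit 5) .nil))))))) (.g (nat_lit 1) (.e (nat_lit 73261) (nat_lit 0) .nil) .nil)))) (.nd (nat_lit 9) 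
(.lf (nat_lit 464169) (.g (nat_lit 2492) (.e (nat_lit 3098) (nat_lit 192) (.e (nat_lit 491569) (nat_lit 13) (.e (nat_lit 393301) (nat_lit 27) (.e (nat_lit 491558) (nat_lit 10) (.e (nat_lit 344090) (nat_lit 18) (.e (nat_lit 6923) (nat_lit 371) (.e (nat_lit 2442) (nat_lit 157) .nil))))))) (.g (nat_lit 1) (.e (nat_lit 72946) (nat_lit 0) .nil) .nil))) 
(.lf (nat_lit 464681) (.g (nat_lit 2371) (.e (nat_lit 3230) (nat_lit 197) (.e (nat_lit 532503) (nat_lit 1) (.e (nat_lit 57931) (nat_lit 282) (.e (nat_lit 163866) (nat_lit 2) (.e (nat_lit 196670) (nat_lit 14) (.e (nat_lit 73746) (nat_lit 3) (.e (nat_lit 516131) (nat_lit 3) (.e (nat_lit 221197) (nat_lit 20) .nil)))))))) (.g (nat_lit 1) (.e (nat_lit 73661) (nat_lit 0) .nil) .nil))))) 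
(.nd (nat_lit 8) (.nd (nat_lit 9) 
(.lf (nat_lit 464041) (.g (nat_lit 1669) (.e (nat_lit 3098) (nat_lit 192) (.e (nat_lit 491537) (nat_lit 2) (.e (nat_lit 90185) (nat_lit 17) (.e (nat_lit 237605) (nat_lit 9) .nil)))) (.g (nat_lit 0) (.e (nat_lit 72686) (nat_lit 0) .nil) .nil))) 
(.lf (nat_lit 464553) (.g (nat_lit 3751) (.e (nat_lit 3105) (nat_lit 192) (.e (nat_lit 491569) (nat_lit 13) (.e (nat_lit 393301) (nat_lit 27) (.e (nat_lit 491559) (nat_lit 10) (.e (nat_lit 344091) (nat_lit 18) (.e (nat_lit 6852) (nat_lit 371) (.e (nat_lit 2420) (nat_lit 157) .nil))))))) (.g (nat_lit 1) (.e (nat_lit 73407) (nat_lit 0) .nil) .nil)))) (.nd (nat_lit 9) 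
(.lf (nat_lit 464297) (.g (nat_lit 3759) (.e (nat_lit 3098) (nat_lit 192) (.e (nat_lit 491569) (nat_lit 13) (.e (nat_lit 393301) (nat_lit 27) (.e (nat_lit 491560) (nat_lit 10) (.e (nat_lit 344091) (nat_lit 18) (.e (nat_lit 6923) (nat_lit 371) (.e (nat_lit 2448) (nat_lit 157) .nil))))))) (.g (nat_lit 1) (.e (nat_lit 73074) (nat_lit 0) .nil) .nil))) 
(.lf (nat_lit 464809) (.g (nat_lit 989) (.e (nat_lit 3230) (nat_lit 197) (.e (nat_lit 532563) (nat_lit 15) (.e (nat_lit 385066) (nat_lit 26) .nil))) (.g (nat_lit 0) (.e (nat_lit 73868) (nat_lit 0) .nil) .nil)))))) (.nd (nat_lit 7) (.nd (nat_lit 8) (.nd (nat_lit 9) 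
(.lf (nat_lit 463977) (.g (nat_lit 5396) (.e (nat_lit 3097) (nat_lit 192) (.e (nat_lit 491566) (nat_lit 12) (.e (nat_lit 385072) (nat_lit 31) (.e (nat_lit 573493) (nat_lit 15) (.e (nat_lit 81953) (nat_lit 22) (.e (nat_lit 90134) (nat_lit 9) .nil)))))) (.g (nat_lit 1) (.e (nat_lit 72581) (nat_lit 0) .nil) .nil))) 
(.lf (nat_lit 464489) (.g (nat_lit 2500) (.e (nat_lit 3104) (nat_lit 192) (.e (nat_lit 491537) (nat_lit 2) (.e (nat_lit 90176) (nat_lit 15) (.e (nat_lit 188450) (nat_lit 23) (.e (nat_lit 204816) (nat_lit 17) (.e (nat_lit 6619) (nat_lit 357) .nil)))))) (.g (nat_lit 1) (.e (nat_lit 73332) (nat_lit 0) .nil) .nil)))) (.nd (nat_lit 9) 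
(.lf (nat_lit 464233) (.g (nat_lit 3046) (.e (nat_lit 3098) (nat_lit 192) (.e (nat_lit 491569) (nat_lit 13) (.e (nat_lit 393301) (nat_lit 27) (.e (nat_lit 491560) (nat_lit 10) (.e (nat_lit 344087) (nat_lit 18) .nil))))) (.g (nat_lit 0) (.e (nat_lit 73010) (nat_lit 0) .nil) .nil))) 
(.lf (nat_lit 464745) (.g (nat_lit 1591) (.e (nat_lit 3230) (nat_lit 197) (.e (nat_lit 532523) (nat_lit 7) (.e (nat_lit 319534) (nat_lit 16) (.e (nat_lit 286732) (nat_lit 2) .nil)))) (.g (nat_lit 0) (.e (nat_lit 73776) (nat_lit 0) .nil) .nil))))) (.nd (nat_lit 8) (.nd (nat_lit 9) 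
(.lf (nat_lit 464105) (.g (nat_lit 1848) (.e (nat_lit 3098) (nat_lit 192) (.e (nat_lit 491565) (nat_lit 12) (.e (nat_lit 385102) (nat_lit 50) (.e (nat_lit 786483) (nat_lit 30) (.e (nat_lit 360484) (nat_lit 15) (.e (nat_lit 655104) (nat_lit 0) .nil)))))) (.g (nat_lit 1) (.e (nat_lit 72763) (nat_lit 0) .nil) .nil))) 
(.lf (nat_lit 464617) (.g (nat_lit 1679) (.e (nat_lit 3227) (nat_lit 197) (.e (nat_lit 532523) (nat_lit 7) (.e (nat_lit 319534) (nat_lit 16) (.e (nat_lit 286734) (nat_lit 3) .nil)))) (.g (nat_lit 0) (.e (nat_lit 73571) (nat_lit 0) .nil) .nil)))) (.nd (nat_lit 9) 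
(.lf (nat_lit 464361) (.g (nat_lit 2682) (.e (nat_lit 3098) (nat_lit 192) (.e (nat_lit 491571) (nat_lit 13) (.e (nat_lit 393299) (nat_lit 27) (.e (nat_lit 491563) (nat_lit 12) (.e (nat_lit 392960) (nat_lit 8) .nil))))) (.g (nat_lit 1) (.e (nat_lit 73172) (nat_lit 0) .nil) .nil))) 
(.lf (nat_lit 464873) (.g (nat_lit 1786) (.e (nat_lit 3234) (nat_lit 197) (.e (nat_lit 532501) (nat_lit 1) (.e (nat_lit 57851) (nat_lit 252) (.e (nat_lit 57406) (nat_lit 12) (.e (nat_lit 336456) (nat_lit 34) .nil))))) (.g (nat_lit 0) (.e (nat_lit 74015) (nat_lit 0) .nil) .nil)))))))) (.nd (nat_lit 5) (.nd (nat_lit 6) (.nd (nat_lit 7) (.nd (nat_lit 8) (.nd (nat_lit 9) 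
(.lf (nat_lit 463897) (.g (nat_lit 2999) (.e (nat_lit 3096) (nat_lit 192) (.e (nat_lit 491566) (nat_lit 12) (.e (nat_lit 385104) (nat_lit 50) (.e (nat_lit 786483) (nat_lit 30) (.e (nat_lit 360483) (nat_lit 15) (.e (nat_lit 647173) (nat_lit 0) .nil)))))) (.g (nat_lit 1) (.e (nat_lit 72474) (nat_lit 0) .nil) .nil))) 
(.lf (nat_lit 464409) (.g (nat_lit 1580) (.e (nat_lit 3102) (nat_lit 192) (.e (nat_lit 491558) (nat_lit 10) (.e (nat_lit 344115) (nat_lit 20) (.e (nat_lit 507908) (nat_lit 0) (.e (nat_lit 5412) (nat_lit 303) (.e (nat_lit 73739) (nat_lit 1) (.e (nat_lit 499845) (nat_lit 5) .nil))))))) (.g (nat_lit 1) (.e (nat_lit 73245) (nat_lit 0) .nil) .nil)))) (.nd (nat_lit 9) 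
(.lf (nat_lit 464153) (.g (nat_lit 3152) (.e (nat_lit 3098) (nat_lit 192) (.e (nat_lit 491568) (nat_lit 13) (.e (nat_lit 393301) (nat_lit 27) (.e (nat_lit 491560) (nat_lit 10) (.e (nat_lit 344172) (nat_lit 41) (.e (nat_lit 753673) (nat_lit 5) .nil)))))) (.g (nat_lit 1) (.e (nat_lit 72927) (nat_lit 0) .nil) .nil))) 
(.lf (nat_lit 464665) (.g (nat_lit 1779) (.e (nat_lit 3230) (nat_lit 197) (.e (nat_lit 532503) (nat_lit 1) (.e (nat_lit 57847) (nat_lit 252) (.e (nat_lit 57445) (nat_lit 19) (.e (nat_lit 393229) (nat_lit 9) .nil))))) (.g (nat_lit 0) (.e (nat_lit 73645) (nat_lit 0) .nil) .nil))))) (.nd (nat_lit 8) (.nd (nat_lit 9) 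
(.lf (nat_lit 464025) (.g (nat_lit 2073) (.e (nat_lit 3098) (nat_lit 192) (.e (nat_lit 491537) (nat_lit 2) (.e (nat_lit 90170) (nat_lit 13) (.e (nat_lit 172113) (nat_lit 10) (.e (nat_lit 434227) (nat_lit 20) .nil))))) (.g (nat_lit 0) (.e (nat_lit 72670) (nat_lit 0) .nil) .nil))) 
(.lf (nat_lit 464537) (.g (nat_lit 3170) (.e (nat_lit 3105) (nat_lit 192) (.e (nat_lit 491568) (nat_lit 13) (.e (nat_lit 393301) (nat_lit 27) (.e (nat_lit 491560) (nat_lit 10) (.e (nat_lit 344090) (nat_lit 18) .nil))))) (.g (nat_lit 0) (.e (nat_lit 73391) (nat_lit 0) .nil) .nil)))) (.nd (nat_lit 9) 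
(.lf (nat_lit 464281) (.g (nat_lit 3117) (.e (nat_lit 3098) (nat_lit 192) (.e (nat_lit 491569) (nat_lit 13) (.e (nat_lit 393301) (nat_lit 27) (.e (nat_lit 491560) (nat_lit 10) (.e (nat_lit 344090) (nat_lit 18) (.e (nat_lit 6855) (nat_lit 371) (.e (nat_lit 2440) (nat_lit 157) .nil))))))) (.g (nat_lit 1) (.e (nat_lit 73058) (nat_lit 0) .nil) .nil))) 
(.lf (nat_lit 464793) (.g (nat_lit 3759) (.e (nat_lit 3230) (nat_lit 197) (.e (nat_lit 532550) (nat_lit 12) (.e (nat_lit 360475) (nat_lit 8) (.e (nat_lit 557089) (nat_lit 12) .nil)))) (.g (nat_lit 0) (.e (nat_lit 73851) (nat_lit 0) .nil) .nil)))))) (.nd (nat_lit 7) (.nd (nat_lit 8) (.nd (nat_lit 9) 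
(.lf (nat_lit 463961) (.g (nat_lit 1947) (.e (nat_lit 3096) (nat_lit 192) (.e (nat_lit 491571) (nat_lit 13) (.e (nat_lit 393251) (nat_lit 18) (.e (nat_lit 164153) (nat_lit 152) .nil)))) (.g (nat_lit 0) (.e (nat_lit 72547) (nat_lit 0) .nil) .nil))) 
(.lf (nat_lit 464473) (.g (nat_lit 2296) (.e (nat_lit 3103) (nat_lit 192) (.e (nat_lit 491537) (nat_lit 2) (.e (nat_lit 90170) (nat_lit 13) (.e (nat_lit 172106) (nat_lit 10) .nil)))) (.g (nat_lit 0) (.e (nat_lit 73312) (nat_lit 0) .nil) .nil)))) (.nd (nat_lit 9) 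
(.lf (nat_lit 464217) (.g (nat_lit 3092) (.e (nat_lit 3098) (nat_lit 192) (.e (nat_lit 491569) (nat_lit 13) (.e (nat_lit 393301) (nat_lit 27) (.e (nat_lit 491559) (nat_lit 10) (.e (nat_lit 344170) (nat_lit 41) .nil))))) (.g (nat_lit 0) (.e (nat_lit 72994) (nat_lit 0) .nil) .nil))) 
(.lf (nat_lit 464729) (.g (nat_lit 3496) (.e (nat_lit 3230) (nat_lit 197) (.e (nat_lit 532504) (nat_lit 1) (.e (nat_lit 57851) (nat_lit 252) (.e (nat_lit 57406) (nat_lit 12) (.e (nat_lit 336456) (nat_lit 34) (.e (nat_lit 483383) (nat_lit 23) (.e (nat_lit 336240) (nat_lit 15) .nil))))))) (.g (nat_lit 1) (.e (nat_lit 73718) (nat_lit 0) .nil) .nil))))) (.nd (nat_lit 8) (.nd (nat_lit 9) 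
(.lf (nat_lit 464089) (.g (nat_lit 4335) (.e (nat_lit 3098) (nat_lit 192) (.e (nat_lit 491565) (nat_lit 12) (.e (nat_lit 385072) (nat_lit 31) (.e (nat_lit 573492) (nat_lit 15) (.e (nat_lit 81953) (nat_lit 22) (.e (nat_lit 90134) (nat_lit 9) .nil)))))) (.g (nat_lit 1) (.e (nat_lit 72745) (nat_lit 0) .nil) .nil))) 
(.lf (nat_lit 464601) (.g (nat_lit 1953) (.e (nat_lit 3141) (nat_lit 193) (.e (nat_lit 500065) (nat_lit 18) (.e (nat_lit 65617) (nat_lit 10) (.e (nat_lit 344132) (nat_lit 26) (.e (nat_lit 557094) (nat_lit 12) .nil))))) (.g (nat_lit 0) (.e (nat_lit 73496) (nat_lit 0) .nil) .nil)))) (.nd (nat_lit 9) 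
(.lf (nat_lit 464345) (.g (nat_lit 2512) (.e (nat_lit 3098) (nat_lit 192) (.e (nat_lit 491571) (nat_lit 13) (.e (nat_lit 393252) (nat_lit 18) (.e (nat_lit 164176) (nat_lit 154) (.e (nat_lit 57420) (nat_lit 13) (.e (nat_lit 344132) (nat_lit 26) (.e (nat_lit 557072) (nat_lit 9) .nil))))))) (.g (nat_lit 1) (.e (nat_lit 73140) (nat_lit 0) .nil) .nil))) 
(.lf (nat_lit 464857) (.g (nat_lit 3872) (.e (nat_lit 3232) (nat_lit 197) (.e (nat_lit 532550) (nat_lit 12) (.e (nat_lit 360474) (nat_lit 8) (.e (nat_lit 557085) (nat_lit 11) .nil)))) (.g (nat_lit 0) (.e (nat_lit 73991) (nat_lit 0) .nil) .nil))))))) (.nd (nat_lit 6) (.nd (nat_lit 7) (.nd (nat_lit 8) (.nd (nat_lit 9) 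
(.lf (nat_lit 463929) (.g (nat_lit 3196) (.e (nat_lit 3096) (nat_lit 192) (.e (nat_lit 491569) (nat_lit 13) (.e (nat_lit 393301) (nat_lit 27) (.e (nat_lit 491559) (nat_lit 10) (.e (nat_lit 344171) (nat_lit 41) (.e (nat_lit 753674) (nat_lit 5) .nil)))))) (.g (nat_lit 1) (.e (nat_lit 72506) (nat_lit 0) .nil) .nil))) 
(.lf (nat_lit 464441) (.g (nat_lit 621) (.e (nat_lit 3102) (nat_lit 192) (.e (nat_lit 491560) (nat_lit 10) (.e (nat_lit 344117) (nat_lit 21) .nil))) (.g (nat_lit 0) (.e (nat_lit 73279) (nat_lit 0) .nil) .nil)))) (.nd (nat_lit 9) 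
(.lf (nat_lit 464185) (.g (nat_lit 2728) (.e (nat_lit 3098) (nat_lit 192) (.e (nat_lit 491569) (nat_lit 13) (.e (nat_lit 393301) (nat_lit 27) (.e (nat_lit 491558) (nat_lit 10) (.e (nat_lit 344095) (nat_lit 18) (.e (nat_lit 6857) (nat_lit 371) (.e (nat_lit 2440) (nat_lit 157) .nil))))))) (.g (nat_lit 1) (.e (nat_lit 72962) (nat_lit 0) .nil) .nil))) 
(.lf (nat_lit 464697) (.g (nat_lit 3526) (.e (nat_lit 3230) (nat_lit 197) (.e (nat_lit 532503) (nat_lit 1) (.e (nat_lit 57931) (nat_lit 282) (.e (nat_lit 163869) (nat_lit 2) (.e (nat_lit 196668) (nat_lit 14) (.e (nat_lit 73747) (nat_lit 3) (.e (nat_lit 516129) (nat_lit 3) (.e (nat_lit 221200) (nat_lit 20) .nil)))))))) (.g (nat_lit 1) (.e (nat_lit 73681) (nat_lit 0) .nil) .nil))))) 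
(.nd (nat_lit 8) (.nd (nat_lit 9) 
(.lf (nat_lit 464057) (.g (nat_lit 3826) (.e (nat_lit 3098) (nat_lit 192) (.e (nat_lit 491548) (nat_lit 9) (.e (nat_lit 336019) (nat_lit 3) (.e (nat_lit 98389) (nat_lit 33) (.e (nat_lit 491560) (nat_lit 10) (.e (nat_lit 344105) (nat_lit 19) (.e (nat_lit 499828) (nat_lit 5) .nil))))))) (.g (nat_lit 1) (.e (nat_lit 72703) (nat_lit 0) .nil) .nil))) 
(.lf (nat_lit 464569) (.g (nat_lit 2579) (.e (nat_lit 3106) (nat_lit 192) (.e (nat_lit 491568) (nat_lit 13) (.e (nat_lit 393301) (nat_lit 27) (.e (nat_lit 491563) (nat_lit 12) (.e (nat_lit 392960) (nat_lit 8) .nil))))) (.g (nat_lit 0) (.e (nat_lit 73441) (nat_lit 0) .nil) .nil)))) (.nd (nat_lit 9) 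
(.lf (nat_lit 464313) (.g (nat_lit 3646) (.e (nat_lit 3098) (nat_lit 192) (.e (nat_lit 491569) (nat_lit 13) (.e (nat_lit 393301) (nat_lit 27) (.e (nat_lit 491560) (nat_lit 10) (.e (nat_lit 344097) (nat_lit 18) (.e (nat_lit 6895) (nat_lit 371) (.e (nat_lit 2440) (nat_lit 157) .nil))))))) (.g (nat_lit 1) (.e (nat_lit 73090) (nat_lit 0) .nil) .nil))) 
(.lf (nat_lit 464825) (.g (nat_lit 1076) (.e (nat_lit 3231) (nat_lit 197) (.e (nat_lit 532504) (nat_lit 1) (.e (nat_lit 57854) (nat_lit 252) .nil))) (.g (nat_lit 0) (.e (nat_lit 73884) (nat_lit 0) .nil) .nil)))))) (.nd (nat_lit 7) (.nd (nat_lit 8) (.nd (nat_lit 9) 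
(.lf (nat_lit 463993) (.g (nat_lit 3399) (.e (nat_lit 3097) (nat_lit 192) (.e (nat_lit 491566) (nat_lit 12) (.e (nat_lit 385105) (nat_lit 50) (.e (nat_lit 786483) (nat_lit 30) (.e (nat_lit 360484) (nat_lit 15) (.e (nat_lit 647168) (nat_lit 0) .nil)))))) (.g (nat_lit 1) (.e (nat_lit 72619) (nat_lit 0) .nil) .nil))) 
(.lf (nat_lit 464505) (.g (nat_lit 3152) (.e (nat_lit 3104) (nat_lit 192) (.e (nat_lit 491569) (nat_lit 13) (.e (nat_lit 393301) (nat_lit 27) (.e (nat_lit 491560) (nat_lit 10) (.e (nat_lit 344088) (nat_lit 18) .nil))))) (.g (nat_lit 0) (.e (nat_lit 73348) (nat_lit 0) .nil) .nil)))) (.nd (nat_lit 9) 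
(.lf (nat_lit 464249) (.g (nat_lit 3661) (.e (nat_lit 3098) (nat_lit 192) (.e (nat_lit 491569) (nat_lit 13) (.e (nat_lit 393301) (nat_lit 27) (.e (nat_lit 491560) (nat_lit 10) (.e (nat_lit 344088) (nat_lit 18) (.e (nat_lit 6853) (nat_lit 371) (.e (nat_lit 2450) (nat_lit 157) .nil))))))) (.g (nat_lit 1) (.e (nat_lit 73026) (nat_lit 0) .nil) .nil))) 
(.lf (nat_lit 464761) (.g (nat_lit 3708) (.e (nat_lit 3230) (nat_lit 197) (.e (nat_lit 532535) (nat_lit 9) (.e (nat_lit 336099) (nat_lit 9) (.e (nat_lit 336028) (nat_lit 3) (.e (nat_lit 98350) (nat_lit 24) (.e (nat_lit 409645) (nat_lit 18) (.e (nat_lit 303112) (nat_lit 0) .nil))))))) (.g (nat_lit 1) (.e (nat_lit 73800) (nat_lit 0) .nil) .nil))))) (.nd (nat_lit 8) (.nd (nat_lit 9) 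
(.lf (nat_lit 464121) (.g (nat_lit 1717) (.e (nat_lit 3098) (nat_lit 192) (.e (nat_lit 491566) (nat_lit 12) (.e (nat_lit 385074) (nat_lit 31) (.e (nat_lit 573480) (nat_lit 13) .nil)))) (.g (nat_lit 0) (.e (nat_lit 72835) (nat_lit 0) .nil) .nil))) 
(.lf (nat_lit 464633) (.g (nat_lit 4872) (.e (nat_lit 3228) (nat_lit 197) (.e (nat_lit 532550) (nat_lit 12) (.e (nat_lit 360475) (nat_lit 8) (.e (nat_lit 557091) (nat_lit 12) .nil)))) (.g (nat_lit 0) (.e (nat_lit 73595) (nat_lit 0) .nil) .nil)))) (.nd (nat_lit 9) 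
(.lf (nat_lit 464377) (.g (nat_lit 5372) (.e (nat_lit 3100) (nat_lit 192) (.e (nat_lit 491563) (nat_lit 12) (.e (nat_lit 385102) (nat_lit 50) (.e (nat_lit 786483) (nat_lit 30) (.e (nat_lit 360484) (nat_lit 15) (.e (nat_lit 647171) (nat_lit 0) .nil)))))) (.g (nat_lit 1) (.e (nat_lit 73209) (nat_lit 0) .nil) .nil))) 
(.lf (nat_lit 464889) (.g (nat_lit 2823) (.e (nat_lit 3234) (nat_lit 197) (.e (nat_lit 532535) (nat_lit 9) (.e (nat_lit 336173) (nat_lit 10) (.e (nat_lit 344133) (nat_lit 26) .nil)))) (.g (nat_lit 0) (.e (nat_lit 74068) (nat_lit 0) .nil) .nil)))))))))) (.nd (nat_lit 3) (.nd (nat_lit 4) (.nd (nat_lit 5) (.nd (nat_lit 6) (.nd (nat_lit 7) (.nd (nat_lit 8) (.nd (nat_lit 9) 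
(.lf (nat_lit 463877) (.g (nat_lit 3051) (.e (nat_lit 3096) (nat_lit 192) (.e (nat_lit 491564) (nat_lit 12) (.e (nat_lit 385074) (nat_lit 31) (.e (nat_lit 573493) (nat_lit 15) (.e (nat_lit 81953) (nat_lit 22) .nil))))) (.g (nat_lit 0) (.e (nat_lit 72437) (nat_lit 0) .nil) .nil))) 
(.lf (nat_lit 464389) (.g (nat_lit 1916) (.e (nat_lit 3102) (nat_lit 192) (.e (nat_lit 491558) (nat_lit 10) (.e (nat_lit 344115) (nat_lit 20) (.e (nat_lit 507906) (nat_lit 0) (.e (nat_lit 5412) (nat_lit 303) (.e (nat_lit 73739) (nat_lit 1) (.e (nat_lit 499844) (nat_lit 5) .nil))))))) (.g (nat_lit 1) (.e (nat_lit 73225) (nat_lit 0) .nil) .nil)))) (.nd (nat_lit 9) 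
(.lf (nat_lit 464133) (.g (nat_lit 3409) (.e (nat_lit 3098) (nat_lit 192) (.e (nat_lit 491566) (nat_lit 12) (.e (nat_lit 385104) (nat_lit 50) (.e (nat_lit 786483) (nat_lit 30) (.e (nat_lit 360484) (nat_lit 15) (.e (nat_lit 647168) (nat_lit 0) .nil)))))) (.g (nat_lit 1) (.e (nat_lit 72905) (nat_lit 0) .nil) .nil))) 
(.lf (nat_lit 464645) (.g (nat_lit 2215) (.e (nat_lit 3230) (nat_lit 197) (.e (nat_lit 532499) (nat_lit 1) (.e (nat_lit 57927) (nat_lit 282) (.e (nat_lit 163869) (nat_lit 2) (.e (nat_lit 196670) (nat_lit 14) (.e (nat_lit 73746) (nat_lit 3) (.e (nat_lit 516131) (nat_lit 3) (.e (nat_lit 221197) (nat_lit 20) .nil)))))))) (.g (nat_lit 1) (.e (nat_lit 73616) (nat_lit 0) .nil) .nil))))) 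
(.nd (nat_lit 8) (.nd (nat_lit 9) 
(.lf (nat_lit 464005) (.g (nat_lit 3486) (.e (nat_lit 3098) (nat_lit 192) (.e (nat_lit 491537) (nat_lit 2) (.e (nat_lit 90165) (nat_lit 12) (.e (nat_lit 171776) (nat_lit 192) (.e (nat_lit 73753) (nat_lit 8) (.e (nat_lit 557090) (nat_lit 12) (.e (nat_lit 164020) (nat_lit 45) (.e (nat_lit 696330) (nat_lit 5) .nil)))))))) (.g (nat_lit 1) (.e (nat_lit 72650) (nat_lit 0) .nil) .nil))) 
(.lf (nat_lit 464517) (.g (nat_lit 3693) (.e (nat_lit 3105) (nat_lit 192) (.e (nat_lit 491565) (nat_lit 12) (.e (nat_lit 385074) (nat_lit 31) (.e (nat_lit 573493) (nat_lit 15) (.e (nat_lit 81953) (nat_lit 22) (.e (nat_lit 90133) (nat_lit 9) .nil)))))) (.g (nat_lit 1) (.e (nat_lit 73365) (nat_lit 0) .nil) .nil)))) (.nd (nat_lit 9) 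
(.lf (nat_lit 464261) (.g (nat_lit 3219) (.e (nat_lit 3098) (nat_lit 192) (.e (nat_lit 491569) (nat_lit 13) (.e (nat_lit 393301) (nat_lit 27) (.e (nat_lit 491560) (nat_lit 10) (.e (nat_lit 344088) (nat_lit 18) (.e (nat_lit 6920) (nat_lit 371) (.e (nat_lit 2448) (nat_lit 157) .nil))))))) (.g (nat_lit 1) (.e (nat_lit 73038) (nat_lit 0) .nil) .nil))) 
(.lf (nat_lit 464773) (.g (nat_lit 3513) (.e (nat_lit 3230) (nat_lit 197) (.e (nat_lit 532550) (nat_lit 12) (.e (nat_lit 360474) (nat_lit 8) (.e (nat_lit 557093) (nat_lit 12) (.e (nat_lit 164022) (nat_lit 46) (.e (nat_lit 704737) (nat_lit 11) (.e (nat_lit 16401) (nat_lit 0) .nil))))))) (.g (nat_lit 1) (.e (nat_lit 73829) (nat_lit 0) .nil) .nil)))))) 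
(.nd (nat_lit 7) (.nd (nat_lit 8) (.nd (nat_lit 9) 
(.lf (nat_lit 463941) (.g (nat_lit 2699) (.e (nat_lit 3096) (nat_lit 192) (.e (nat_lit 491569) (nat_lit 13) (.e (nat_lit 393301) (nat_lit 27) (.e (nat_lit 491560) (nat_lit 10) (.e (nat_lit 344091) (nat_lit 18) .nil))))) (.g (nat_lit 0) (.e (nat_lit 72518) (nat_lit 0) .nil) .nil))) 
(.lf (nat_lit 464453) (.g (nat_lit 2625) (.e (nat_lit 3102) (nat_lit 192) (.e (nat_lit 491560) (nat_lit 10) (.e (nat_lit 344117) (nat_lit 21) (.e (nat_lit 516185) (nat_lit 16) (.e (nat_lit 491560) (nat_lit 10) (.e (nat_lit 344107) (nat_lit 19) (.e (nat_lit 499834) (nat_lit 5) .nil))))))) (.g (nat_lit 1) (.e (nat_lit 73291) (nat_lit 0) .nil) .nil)))) (.nd (nat_lit 9) 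
(.lf (nat_lit 464197) (.g (nat_lit 3129) (.e (nat_lit 3098) (nat_lit 192) (.e (nat_lit 491569) (nat_lit 13) (.e (nat_lit 393301) (nat_lit 27) (.e (nat_lit 491558) (nat_lit 10) (.e (nat_lit 344171) (nat_lit 41) (.e (nat_lit 753670) (nat_lit 5) .nil)))))) (.g (nat_lit 1) (.e (nat_lit 72974) (nat_lit 0) .nil) .nil))) 
(.lf (nat_lit 464709) (.g (nat_lit 1330) (.e (nat_lit 3230) (nat_lit 197) (.e (nat_lit 532503) (nat_lit 1) (.e (nat_lit 57931) (nat_lit 282) (.e (nat_lit 163874) (nat_lit 3) .nil)))) (.g (nat_lit 0) (.e (nat_lit 73693) (nat_lit 0) .nil) .nil))))) (.nd (nat_lit 8) (.nd (nat_lit 9) 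
(.lf (nat_lit 464069) (.g (nat_lit 849) (.e (nat_lit 3098) (nat_lit 192) (.e (nat_lit 491562) (nat_lit 12) (.e (nat_lit 385072) (nat_lit 31) .nil))) (.g (nat_lit 0) (.e (nat_lit 72724) (nat_lit 0) .nil) .nil))) 
(.lf (nat_lit 464581) (.g (nat_lit 2368) (.e (nat_lit 3114) (nat_lit 193) (.e (nat_lit 500074) (nat_lit 20) (.e (nat_lit 81953) (nat_lit 22) (.e (nat_lit 90130) (nat_lit 9) (.e (nat_lit 2830) (nat_lit 182) (.e (nat_lit 409649) (nat_lit 18) (.e (nat_lit 303104) (nat_lit 0) .nil))))))) (.g (nat_lit 1) (.e (nat_lit 73458) (nat_lit 0) .nil) .nil)))) (.nd (nat_lit 9) 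
(.lf (nat_lit 464325) (.g (nat_lit 3396) (.e (nat_lit 3098) (nat_lit 192) (.e (nat_lit 491569) (nat_lit 13) (.e (nat_lit 393301) (nat_lit 27) (.e (nat_lit 491560) (nat_lit 10) (.e (nat_lit 344172) (nat_lit 41) (.e (nat_lit 753670) (nat_lit 5) .nil)))))) (.g (nat_lit 1) (.e (nat_lit 73102) (nat_lit 0) .nil) .nil))) 
(.lf (nat_lit 464837) (.g (nat_lit 4421) (.e (nat_lit 3231) (nat_lit 197) (.e (nat_lit 532550) (nat_lit 12) (.e (nat_lit 360474) (nat_lit 8) (.e (nat_lit 557094) (nat_lit 12) (.e (nat_lit 164022) (nat_lit 46) .nil))))) (.g (nat_lit 0) (.e (nat_lit 73933) (nat_lit 0) .nil) .nil))))))) (.nd (nat_lit 6) (.nd (nat_lit 7) (.nd (nat_lit 8) (.nd (nat_lit 9) 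
(.lf (nat_lit 463909) (.g (nat_lit 2835) (.e (nat_lit 3096) (nat_lit 192) (.e (nat_lit 491569) (nat_lit 13) (.e (nat_lit 393301) (nat_lit 27) (.e (nat_lit 491558) (nat_lit 10) (.e (nat_lit 344088) (nat_lit 18) .nil))))) (.g (nat_lit 0) (.e (nat_lit 72486) (nat_lit 0) .nil) .nil))) 
(.lf (nat_lit 464421) (.g (nat_lit 2840) (.e (nat_lit 3102) (nat_lit 192) (.e (nat_lit 491559) (nat_lit 10) (.e (nat_lit 344126) (nat_lit 25) (.e (nat_lit 548891) (nat_lit 11) (.e (nat_lit 81960) (nat_lit 25) (.e (nat_lit 139289) (nat_lit 9) .nil)))))) (.g (nat_lit 1) (.e (nat_lit 73257) (nat_lit 0) .nil) .nil)))) (.nd (nat_lit 9) 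
(.lf (nat_lit 464165) (.g (nat_lit 3014) (.e (nat_lit 3098) (nat_lit 192) (.e (nat_lit 491569) (nat_lit 13) (.e (nat_lit 393301) (nat_lit 27) (.e (nat_lit 491558) (nat_lit 10) (.e (nat_lit 344088) (nat_lit 18) (.e (nat_lit 6857) (nat_lit 371) (.e (nat_lit 2440) (nat_lit 157) .nil))))))) (.g (nat_lit 1) (.e (nat_lit 72942) (nat_lit 0) .nil) .nil))) 
(.lf (nat_lit 464677) (.g (nat_lit 636) (.e (nat_lit 3230) (nat_lit 197) (.e (nat_lit 532503) (nat_lit 1) (.e (nat_lit 57931) (nat_lit 282) .nil))) (.g (nat_lit 0) (.e (nat_lit 73657) (nat_lit 0) .nil) .nil))))) (.nd (nat_lit 8) (.nd (nat_lit 9) 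
(.lf (nat_lit 464037) (.g (nat_lit 1898) (.e (nat_lit 3098) (nat_lit 192) (.e (nat_lit 491537) (nat_lit 2) (.e (nat_lit 90176) (nat_lit 15) (.e (nat_lit 188450) (nat_lit 23) (.e (nat_lit 204821) (nat_lit 17) (.e (nat_lit 7936) (nat_lit 357) .nil)))))) (.g (nat_lit 1) (.e (nat_lit 72682) (nat_lit 0) .nil) .nil))) 
(.lf (nat_lit 464549) (.g (nat_lit 3215) (.e (nat_lit 3105) (nat_lit 192) (.e (nat_lit 491569) (nat_lit 13) (.e (nat_lit 393301) (nat_lit 27) (.e (nat_lit 491558) (nat_lit 10) (.e (nat_lit 344170) (nat_lit 41) .nil))))) (.g (nat_lit 0) (.e (nat_lit 73403) (nat_lit 0) .nil) .nil)))) (.nd (nat_lit 9) 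
(.lf (nat_lit 464293) (.g (nat_lit 3673) (.e (nat_lit 3098) (nat_lit 192) (.e (nat_lit 491569) (nat_lit 13) (.e (nat_lit 393301) (nat_lit 27) (.e (nat_lit 491560) (nat_lit 10) (.e (nat_lit 344091) (nat_lit 18) (.e (nat_lit 6869) (nat_lit 371) (.e (nat_lit 2445) (nat_lit 157) .nil))))))) (.g (nat_lit 1) (.e (nat_lit 73070) (nat_lit 0) .nil) .nil))) 
(.lf (nat_lit 464805) (.g (nat_lit 5399) (.e (nat_lit 3230) (nat_lit 197) (.e (nat_lit 532550) (nat_lit 12) (.e (nat_lit 360475) (nat_lit 8) (.e (nat_lit 557091) (nat_lit 12) (.e (nat_lit 164022) (nat_lit 46) (.e (nat_lit 704738) (nat_lit 11) (.e (nat_lit 16397) (nat_lit 0) .nil))))))) (.g (nat_lit 1) (.e (nat_lit 73863) (nat_lit 0) .nil) .nil)))))) 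
(.nd (nat_lit 7) (.nd (nat_lit 8) (.nd (nat_lit 9) 
(.lf (nat_lit 463973) (.g (nat_lit 5342) (.e (nat_lit 3097) (nat_lit 192) (.e (nat_lit 491566) (nat_lit 12) (.e (nat_lit 385072) (nat_lit 31) (.e (nat_lit 573492) (nat_lit 15) (.e (nat_lit 81953) (nat_lit 22) (.e (nat_lit 90121) (nat_lit 9) .nil)))))) (.g (nat_lit 1) (.e (nat_lit 72577) (nat_lit 0) .nil) .nil))) 
(.lf (nat_lit 464485) (.g (nat_lit 1210) (.e (nat_lit 3103) (nat_lit 192) (.e (nat_lit 491571) (nat_lit 13) (.e (nat_lit 393238) (nat_lit 17) .nil))) (.g (nat_lit 0) (.e (nat_lit 73327) (nat_lit 0) .nil) .nil)))) (.nd (nat_lit 9) 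
(.lf (nat_lit 464229) (.g (nat_lit 3465) (.e (nat_lit 3098) (nat_lit 192) (.e (nat_lit 491569) (nat_lit 13) (.e (nat_lit 393301) (nat_lit 27) (.e (nat_lit 491559) (nat_lit 10) (.e (nat_lit 344172) (nat_lit 41) (.e (nat_lit 753672) (nat_lit 5) .nil)))))) (.g (nat_lit 1) (.e (nat_lit 73006) (nat_lit 0) .nil) .nil))) 
(.lf (nat_lit 464741) (.g (nat_lit 2521) (.e (nat_lit 3230) (nat_lit 197) (.e (nat_lit 532504) (nat_lit 1) (.e (nat_lit 57852) (nat_lit 252) (.e (nat_lit 57409) (nat_lit 12) (.e (nat_lit 336454) (nat_lit 34) (.e (nat_lit 483385) (nat_lit 23) (.e (nat_lit 336260) (nat_lit 15) .nil))))))) (.g (nat_lit 1) (.e (nat_lit 73730) (nat_lit 0) .nil) .nil))))) (.nd (nat_lit 8) (.nd (nat_lit 9) 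
(.lf (nat_lit 464101) (.g (nat_lit 4310) (.e (nat_lit 3098) (nat_lit 192) (.e (nat_lit 491565) (nat_lit 12) (.e (nat_lit 385074) (nat_lit 31) (.e (nat_lit 573493) (nat_lit 15) (.e (nat_lit 81951) (nat_lit 22) (.e (nat_lit 90134) (nat_lit 9) .nil)))))) (.g (nat_lit 1) (.e (nat_lit 72759) (nat_lit 0) .nil) .nil))) 
(.lf (nat_lit 464613) (.g (nat_lit 4191) (.e (nat_lit 3168) (nat_lit 193) (.e (nat_lit 500076) (nat_lit 20) (.e (nat_lit 81956) (nat_lit 23) (.e (nat_lit 98350) (nat_lit 24) (.e (nat_lit 409649) (nat_lit 18) (.e (nat_lit 303111) (nat_lit 0) .nil)))))) (.g (nat_lit 1) (.e (nat_lit 73521) (nat_lit 0) .nil) .nil)))) (.nd (nat_lit 9) 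
(.lf (nat_lit 464357) (.g (nat_lit 4867) (.e (nat_lit 3098) (nat_lit 192) (.e (nat_lit 491571) (nat_lit 13) (.e (nat_lit 393260) (nat_lit 21) (.e (nat_lit 409649) (nat_lit 18) (.e (nat_lit 303150) (nat_lit 15) .nil))))) (.g (nat_lit 0) (.e (nat_lit 73162) (nat_lit 0) .nil) .nil))) 
(.lf (nat_lit 464869) (.g (nat_lit 2380) (.e (nat_lit 3232) (nat_lit 197) (.e (nat_lit 532563) (nat_lit 15) (.e (nat_lit 385066) (nat_lit 26) (.e (nat_lit 532530) (nat_lit 9) (.e (nat_lit 336326) (nat_lit 18) (.e (nat_lit 204854) (nat_lit 26) (.e (nat_lit 336247) (nat_lit 15) .nil))))))) (.g (nat_lit 1) (.e (nat_lit 74011) (nat_lit 0) .nil) .nil)))))))) 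
(.nd (nat_lit 5) (.nd (nat_lit 6) (.nd (nat_lit 7) (.nd (nat_lit 8) (.nd (nat_lit 9) 
(.lf (nat_lit 463893) (.g (nat_lit 4212) (.e (nat_lit 3096) (nat_lit 192) (.e (nat_lit 491566) (nat_lit 12) (.e (nat_lit 385074) (nat_lit 31) (.e (nat_lit 573491) (nat_lit 15) (.e (nat_lit 81951) (nat_lit 22) (.e (nat_lit 90134) (nat_lit 9) .nil)))))) (.g (nat_lit 1) (.e (nat_lit 72458) (nat_lit 0) .nil) .nil))) 
(.lf (nat_lit 464405) (.g (nat_lit 2255) (.e (nat_lit 3102) (nat_lit 192) (.e (nat_lit 491558) (nat_lit 10) (.e (nat_lit 344115) (nat_lit 20) (.e (nat_lit 507908) (nat_lit 0) (.e (nat_lit 5412) (nat_lit 303) (.e (nat_lit 73739) (nat_lit 1) (.e (nat_lit 499833) (nat_lit 5) .nil))))))) (.g (nat_lit 1) (.e (nat_lit 73241) (nat_lit 0) .nil) .nil)))) (.nd (nat_lit 9) 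
(.lf (nat_lit 464149) (.g (nat_lit 3193) (.e (nat_lit 3098) (nat_lit 192) (.e (nat_lit 491568) (nat_lit 13) (.e (nat_lit 393301) (nat_lit 27) (.e (nat_lit 491560) (nat_lit 10) (.e (nat_lit 344097) (nat_lit 18) (.e (nat_lit 6875) (nat_lit 371) (.e (nat_lit 2445) (nat_lit 157) .nil))))))) (.g (nat_lit 1) (.e (nat_lit 72923) (nat_lit 0) .nil) .nil))) 
(.lf (nat_lit 464661) (.g (nat_lit 3086) (.e (nat_lit 3230) (nat_lit 197) (.e (nat_lit 532503) (nat_lit 1) (.e (nat_lit 57846) (nat_lit 252) (.e (nat_lit 57407) (nat_lit 12) (.e (nat_lit 336454) (nat_lit 34) (.e (nat_lit 483385) (nat_lit 23) (.e (nat_lit 336260) (nat_lit 15) .nil))))))) (.g (nat_lit 1) (.e (nat_lit 73641) (nat_lit 0) .nil) .nil))))) (.nd (nat_lit 8) (.nd (nat_lit 9) 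
(.lf (nat_lit 464021) (.g (nat_lit 4662) (.e (nat_lit 3098) (nat_lit 192) (.e (nat_lit 491537) (nat_lit 2) (.e (nat_lit 90170) (nat_lit 13) (.e (nat_lit 172106) (nat_lit 10) (.e (nat_lit 434231) (nat_lit 23) (.e (nat_lit 532483) (nat_lit 0) (.e (nat_lit 7936) (nat_lit 357) .nil))))))) (.g (nat_lit 1) (.e (nat_lit 72666) (nat_lit 0) .nil) .nil))) 
(.lf (nat_lit 464533) (.g (nat_lit 1249) (.e (nat_lit 3105) (nat_lit 192) (.e (nat_lit 491568) (nat_lit 13) (.e (nat_lit 393301) (nat_lit 27) (.e (nat_lit 491558) (nat_lit 10) .nil)))) (.g (nat_lit 0) (.e (nat_lit 73387) (nat_lit 0) .nil) .nil)))) (.nd (nat_lit 9) 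
(.lf (nat_lit 464277) (.g (nat_lit 3277) (.e (nat_lit 3098) (nat_lit 192) (.e (nat_lit 491569) (nat_lit 13) (.e (nat_lit 393301) (nat_lit 27) (.e (nat_lit 491560) (nat_lit 10) (.e (nat_lit 344090) (nat_lit 18) (.e (nat_lit 6848) (nat_lit 371) (.e (nat_lit 2450) (nat_lit 157) .nil))))))) (.g (nat_lit 1) (.e (nat_lit 73054) (nat_lit 0) .nil) .nil))) 
(.lf (nat_lit 464789) (.g (nat_lit 3388) (.e (nat_lit 3230) (nat_lit 197) (.e (nat_lit 532550) (nat_lit 12) (.e (nat_lit 360474) (nat_lit 8) (.e (nat_lit 557094) (nat_lit 12) (.e (nat_lit 164022) (nat_lit 46) (.e (nat_lit 704738) (nat_lit 11) (.e (nat_lit 16401) (nat_lit 0) .nil))))))) (.g (nat_lit 1) (.e (nat_lit 73845) (nat_lit 0) .nil) .nil)))))) 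
(.nd (nat_lit 7) (.nd (nat_lit 8) (.nd (nat_lit 9) 
(.lf (nat_lit 463957) (.g (nat_lit 916) (.e (nat_lit 3096) (nat_lit 192) (.e (nat_lit 491571) (nat_lit 13) (.e (nat_lit 393242) (nat_lit 17) .nil))) (.g (nat_lit 0) (.e (nat_lit 72543) (nat_lit 0) .nil) .nil))) 
(.lf (nat_lit 464469) (.g (nat_lit 2938) (.e (nat_lit 3102) (nat_lit 192) (.e (nat_lit 491568) (nat_lit 13) (.e (nat_lit 393301) (nat_lit 27) (.e (nat_lit 491559) (nat_lit 10) (.e (nat_lit 344171) (nat_lit 41) .nil))))) (.g (nat_lit 0) (.e (nat_lit 73308) (nat_lit 0) .nil) .nil)))) (.nd (nat_lit 9) 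
(.lf (nat_lit 464213) (.g (nat_lit 3265) (.e (nat_lit 3098) (nat_lit 192) (.e (nat_lit 491569) (nat_lit 13) (.e (nat_lit 393301) (nat_lit 27) (.e (nat_lit 491559) (nat_lit 10) (.e (nat_lit 344092) (nat_lit 18) .nil))))) (.g (nat_lit 0) (.e (nat_lit 72990) (nat_lit 0) .nil) .nil))) 
(.lf (nat_lit 464725) (.g (nat_lit 1826) (.e (nat_lit 3230) (nat_lit 197) (.e (nat_lit 532504) (nat_lit 1) (.e (nat_lit 57851) (nat_lit 252) (.e (nat_lit 57406) (nat_lit 12) (.e (nat_lit 336456) (nat_lit 34) (.e (nat_lit 483379) (nat_lit 23) (.e (nat_lit 336247) (nat_lit 15) .nil))))))) (.g (nat_lit 1) (.e (nat_lit 73714) (nat_lit 0) .nil) .nil))))) (.nd (nat_lit 8) (.nd (nat_lit 9) 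
(.lf (nat_lit 464085) (.g (nat_lit 5025) (.e (nat_lit 3098) (nat_lit 192) (.e (nat_lit 491565) (nat_lit 12) (.e (nat_lit 385072) (nat_lit 31) (.e (nat_lit 573482) (nat_lit 13) (.e (nat_lit 65604) (nat_lit 9) (.e (nat_lit 336013) (nat_lit 2) (.e (nat_lit 90134) (nat_lit 9) .nil))))))) (.g (nat_lit 1) (.e (nat_lit 72741) (nat_lit 0) .nil) .nil))) 
(.lf (nat_lit 464597) (.g (nat_lit 2017) (.e (nat_lit 3130) (nat_lit 193) (.e (nat_lit 500046) (nat_lit 16) (.e (nat_lit 16466) (nat_lit 13) (.e (nat_lit 483341) (nat_lit 9) (.e (nat_lit 426108) (nat_lit 1) (.e (nat_lit 164329) (nat_lit 230) (.e (nat_lit 163843) (nat_lit 0) .nil))))))) (.g (nat_lit 1) (.e (nat_lit 73483) (nat_lit 0) .nil) .nil)))) (.nd (nat_lit 9) 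
(.lf (nat_lit 464341) (.g (nat_lit 2684) (.e (nat_lit 3098) (nat_lit 192) (.e (nat_lit 491571) (nat_lit 13) (.e (nat_lit 393251) (nat_lit 18) (.e (nat_lit 164179) (nat_lit 154) (.e (nat_lit 57421) (nat_lit 13) (.e (nat_lit 344133) (nat_lit 26) (.e (nat_lit 557065) (nat_lit 9) .nil))))))) (.g (nat_lit 1) (.e (nat_lit 73132) (nat_lit 0) .nil) .nil))) 
(.lf (nat_lit 464853) (.g (nat_lit 883) (.e (nat_lit 3232) (nat_lit 197) (.e (nat_lit 532530) (nat_lit 9) (.e (nat_lit 336326) (nat_lit 18) .nil))) (.g (nat_lit 0) (.e (nat_lit 73983) (nat_lit 0) .nil) .nil))))))) (.nd (nat_lit 6) (.nd (nat_lit 7) (.nd (nat_lit 8) (.nd (nat_lit 9) 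
(.lf (nat_lit 463925) (.g (nat_lit 4463) (.e (nat_lit 3096) (nat_lit 192) (.e (nat_lit 491569) (nat_lit 13) (.e (nat_lit 393301) (nat_lit 27) (.e (nat_lit 491559) (nat_lit 10) (.e (nat_lit 344091) (nat_lit 18) (.e (nat_lit 6923) (nat_lit 371) (.e (nat_lit 2449) (nat_lit 157) .nil))))))) (.g (nat_lit 1) (.e (nat_lit 72502) (nat_lit 0) .nil) .nil))) 
(.lf (nat_lit 464437) (.g (nat_lit 2474) (.e (nat_lit 3102) (nat_lit 192) (.e (nat_lit 491560) (nat_lit 10) (.e (nat_lit 344115) (nat_lit 20) (.e (nat_lit 507908) (nat_lit 0) (.e (nat_lit 5412) (nat_lit 303) (.e (nat_lit 73739) (nat_lit 1) (.e (nat_lit 499840) (nat_lit 5) .nil))))))) (.g (nat_lit 1) (.e (nat_lit 73273) (nat_lit 0) .nil) .nil)))) (.nd (nat_lit 9) 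
(.lf (nat_lit 464181) (.g (nat_lit 3805) (.e (nat_lit 3098) (nat_lit 192) (.e (nat_lit 491569) (nat_lit 13) (.e (nat_lit 393301) (nat_lit 27) (.e (nat_lit 491558) (nat_lit 10) (.e (nat_lit 344091) (nat_lit 18) (.e (nat_lit 6923) (nat_lit 371) (.e (nat_lit 2442) (nat_lit 157) .nil))))))) (.g (nat_lit 1) (.e (nat_lit 72958) (nat_lit 0) .nil) .nil))) 
(.lf (nat_lit 464693) (.g (nat_lit 4029) (.e (nat_lit 3230) (nat_lit 197) (.e (nat_lit 532503) (nat_lit 1) (.e (nat_lit 57931) (nat_lit 282) (.e (nat_lit 163867) (nat_lit 2) (.e (nat_lit 196670) (nat_lit 14) (.e (nat_lit 73746) (nat_lit 3) (.e (nat_lit 516131) (nat_lit 3) (.e (nat_lit 221197) (nat_lit 20) .nil)))))))) (.g (nat_lit 1) (.e (nat_lit 73673) (nat_lit 0) .nil) .nil))))) 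
(.nd (nat_lit 8) (.nd (nat_lit 9) 
(.lf (nat_lit 464053) (.g (nat_lit 2491) (.e (nat_lit 3098) (nat_lit 192) (.e (nat_lit 491546) (nat_lit 9) (.e (nat_lit 336028) (nat_lit 3) (.e (nat_lit 98389) (nat_lit 33) (.e (nat_lit 491560) (nat_lit 10) (.e (nat_lit 344105) (nat_lit 19) (.e (nat_lit 499828) (nat_lit 5) .nil))))))) (.g (nat_lit 1) (.e (nat_lit 72699) (nat_lit 0) .nil) .nil))) 
(.lf (nat_lit 464565) (.g (nat_lit 3388) (.e (nat_lit 3105) (nat_lit 192) (.e (nat_lit 491569) (nat_lit 13) (.e (nat_lit 393301) (nat_lit 27) (.e (nat_lit 491560) (nat_lit 10) (.e (nat_lit 344170) (nat_lit 41) .nil))))) (.g (nat_lit 0) (.e (nat_lit 73419) (nat_lit 0) .nil) .nil)))) (.nd (nat_lit 9) 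
(.lf (nat_lit 464309) (.g (nat_lit 4235) (.e (nat_lit 3098) (nat_lit 192) (.e (nat_lit 491569) (nat_lit 13) (.e (nat_lit 393301) (nat_lit 27) (.e (nat_lit 491560) (nat_lit 10) (.e (nat_lit 344096) (nat_lit 18) (.e (nat_lit 6850) (nat_lit 371) (.e (nat_lit 2450) (nat_lit 157) .nil))))))) (.g (nat_lit 1) (.e (nat_lit 73086) (nat_lit 0) .nil) .nil))) 
(.lf (nat_lit 464821) (.g (nat_lit 1738) (.e (nat_lit 3231) (nat_lit 197) (.e (nat_lit 532504) (nat_lit 1) (.e (nat_lit 57851) (nat_lit 252) (.e (nat_lit 57406) (nat_lit 12) .nil)))) (.g (nat_lit 0) (.e (nat_lit 73880) (nat_lit 0) .nil) .nil)))))) (.nd (nat_lit 7) (.nd (nat_lit 8) (.nd (nat_lit 9) 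
(.lf (nat_lit 463989) (.g (nat_lit 731) (.e (nat_lit 3097) (nat_lit 192) (.e (nat_lit 491566) (nat_lit 12) (.e (nat_lit 385104) (nat_lit 50) .nil))) (.g (nat_lit 0) (.e (nat_lit 72604) (nat_lit 0) .nil) .nil))) 
(.lf (nat_lit 464501) (.g (nat_lit 2887) (.e (nat_lit 3104) (nat_lit 192) (.e (nat_lit 491569) (nat_lit 13) (.e (nat_lit 393301) (nat_lit 27) (.e (nat_lit 491558) (nat_lit 10) (.e (nat_lit 344091) (nat_lit 18) .nil))))) (.g (nat_lit 0) (.e (nat_lit 73344) (nat_lit 0) .nil) .nil)))) (.nd (nat_lit 9) 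
(.lf (nat_lit 464245) (.g (nat_lit 2725) (.e (nat_lit 3098) (nat_lit 192) (.e (nat_lit 491569) (nat_lit 13) (.e (nat_lit 393301) (nat_lit 27) (.e (nat_lit 491560) (nat_lit 10) (.e (nat_lit 344088) (nat_lit 18) (.e (nat_lit 6850) (nat_lit 371) (.e (nat_lit 2430) (nat_lit 157) .nil))))))) (.g (nat_lit 1) (.e (nat_lit 73022) (nat_lit 0) .nil) .nil))) 
(.lf (nat_lit 464757) (.g (nat_lit 5752) (.e (nat_lit 3230) (nat_lit 197) (.e (nat_lit 532535) (nat_lit 9) (.e (nat_lit 336099) (nat_lit 9) (.e (nat_lit 336028) (nat_lit 3) (.e (nat_lit 98349) (nat_lit 24) (.e (nat_lit 409645) (nat_lit 18) (.e (nat_lit 303112) (nat_lit 0) .nil))))))) (.g (nat_lit 1) (.e (nat_lit 73796) (nat_lit 0) .nil) .nil))))) (.nd (nat_lit 8) (.nd (nat_lit 9) 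
(.lf (nat_lit 464117) (.g (nat_lit 4618) (.e (nat_lit 3098) (nat_lit 192) (.e (nat_lit 491566) (nat_lit 12) (.e (nat_lit 385073) (nat_lit 31) (.e (nat_lit 573493) (nat_lit 15) (.e (nat_lit 81953) (nat_lit 22) (.e (nat_lit 90134) (nat_lit 9) .nil)))))) (.g (nat_lit 1) (.e (nat_lit 72830) (nat_lit 0) .nil) .nil))) 
(.lf (nat_lit 464629) (.g (nat_lit 4305) (.e (nat_lit 3228) (nat_lit 197) (.e (nat_lit 532550) (nat_lit 12) (.e (nat_lit 360474) (nat_lit 8) (.e (nat_lit 557093) (nat_lit 12) .nil)))) (.g (nat_lit 0) (.e (nat_lit 73590) (nat_lit 0) .nil) .nil)))) (.nd (nat_lit 9) 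
(.lf (nat_lit 464373) (.g (nat_lit 3305) (.e (nat_lit 3100) (nat_lit 192) (.e (nat_lit 491562) (nat_lit 12) (.e (nat_lit 385074) (nat_lit 31) (.e (nat_lit 573493) (nat_lit 15) (.e (nat_lit 81962) (nat_lit 25) (.e (nat_lit 139289) (nat_lit 9) .nil)))))) (.g (nat_lit 1) (.e (nat_lit 73205) (nat_lit 0) .nil) .nil))) 
(.lf (nat_lit 464885) (.g (nat_lit 2132) (.e (nat_lit 3234) (nat_lit 197) (.e (nat_lit 532530) (nat_lit 9) (.e (nat_lit 336326) (nat_lit 18) (.e (nat_lit 204852) (nat_lit 26) (.e (nat_lit 336326) (nat_lit 18) .nil))))) (.g (nat_lit 0) (.e (nat_lit 74059) (nat_lit 0) .nil) .nil))))))))) (.nd (nat_lit 4) (.nd (nat_lit 5) (.nd (nat_lit 6) (.nd (nat_lit 7) (.nd (nat_lit 8) (.nd (nat_lit 9) 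
(.lf (nat_lit 463885) (.g (nat_lit 3723) (.e (nat_lit 3096) (nat_lit 192) (.e (nat_lit 491566) (nat_lit 12) (.e (nat_lit 385072) (nat_lit 31) (.e (nat_lit 573491) (nat_lit 15) (.e (nat_lit 81951) (nat_lit 22) (.e (nat_lit 90134) (nat_lit 9) .nil)))))) (.g (nat_lit 1) (.e (nat_lit 72446) (nat_lit 0) .nil) .nil))) 
(.lf (nat_lit 464397) (.g (nat_lit 2205) (.e (nat_lit 3102) (nat_lit 192) (.e (nat_lit 491558) (nat_lit 10) (.e (nat_lit 344115) (nat_lit 20) (.e (nat_lit 507907) (nat_lit 0) (.e (nat_lit 5412) (nat_lit 303) (.e (nat_lit 73739) (nat_lit 1) (.e (nat_lit 499842) (nat_lit 5) .nil))))))) (.g (nat_lit 1) (.e (nat_lit 73233) (nat_lit 0) .nil) .nil)))) (.nd (nat_lit 9) 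
(.lf (nat_lit 464141) (.g (nat_lit 2890) (.e (nat_lit 3098) (nat_lit 192) (.e (nat_lit 491568) (nat_lit 13) (.e (nat_lit 393301) (nat_lit 27) (.e (nat_lit 491560) (nat_lit 10) (.e (nat_lit 344088) (nat_lit 18) .nil))))) (.g (nat_lit 0) (.e (nat_lit 72915) (nat_lit 0) .nil) .nil))) 
(.lf (nat_lit 464653) (.g (nat_lit 2476) (.e (nat_lit 3230) (nat_lit 197) (.e (nat_lit 532501) (nat_lit 1) (.e (nat_lit 57851) (nat_lit 252) (.e (nat_lit 57406) (nat_lit 12) (.e (nat_lit 336456) (nat_lit 34) (.e (nat_lit 483393) (nat_lit 23) (.e (nat_lit 336291) (nat_lit 15) .nil))))))) (.g (nat_lit 1) (.e (nat_lit 73624) (nat_lit 0) .nil) .nil))))) (.nd (nat_lit 8) (.nd (nat_lit 9) 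
(.lf (nat_lit 464013) (.g (nat_lit 3653) (.e (nat_lit 3098) (nat_lit 192) (.e (nat_lit 491537) (nat_lit 2) (.e (nat_lit 90170) (nat_lit 13) (.e (nat_lit 172106) (nat_lit 10) (.e (nat_lit 434227) (nat_lit 20) (.e (nat_lit 507930) (nat_lit 10) (.e (nat_lit 5616) (nat_lit 312) .nil))))))) (.g (nat_lit 1) (.e (nat_lit 72658) (nat_lit 0) .nil) .nil))) 
(.lf (nat_lit 464525) (.g (nat_lit 997) (.e (nat_lit 3105) (nat_lit 192) (.e (nat_lit 491566) (nat_lit 12) (.e (nat_lit 385104) (nat_lit 50) .nil))) (.g (nat_lit 0) (.e (nat_lit 73379) (nat_lit 0) .nil) .nil)))) (.nd (nat_lit 9) 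
(.lf (nat_lit 464269) (.g (nat_lit 2691) (.e (nat_lit 3098) (nat_lit 192) (.e (nat_lit 491569) (nat_lit 13) (.e (nat_lit 393301) (nat_lit 27) (.e (nat_lit 491560) (nat_lit 10) (.e (nat_lit 344089) (nat_lit 18) (.e (nat_lit 6866) (nat_lit 371) (.e (nat_lit 2447) (nat_lit 157) .nil))))))) (.g (nat_lit 1) (.e (nat_lit 73046) (nat_lit 0) .nil) .nil))) 
(.lf (nat_lit 464781) (.g (nat_lit 3238) (.e (nat_lit 3230) (nat_lit 197) (.e (nat_lit 532550) (nat_lit 12) (.e (nat_lit 360474) (nat_lit 8) (.e (nat_lit 557094) (nat_lit 12) (.e (nat_lit 164022) (nat_lit 46) (.e (nat_lit 704736) (nat_lit 11) (.e (nat_lit 16399) (nat_lit 0) .nil))))))) (.g (nat_lit 1) (.e (nat_lit 73837) (nat_lit 0) .nil) .nil)))))) 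
(.nd (nat_lit 7) (.nd (nat_lit 8) (.nd (nat_lit 9) 
(.lf (nat_lit 463949) (.g (nat_lit 3185) (.e (nat_lit 3096) (nat_lit 192) (.e (nat_lit 491569) (nat_lit 13) (.e (nat_lit 393301) (nat_lit 27) (.e (nat_lit 491560) (nat_lit 10) (.e (nat_lit 344172) (nat_lit 41) (.e (nat_lit 753674) (nat_lit 5) .nil)))))) (.g (nat_lit 1) (.e (nat_lit 72526) (nat_lit 0) .nil) .nil))) 
(.lf (nat_lit 464461) (.g (nat_lit 908) (.e (nat_lit 3102) (nat_lit 192) (.e (nat_lit 491562) (nat_lit 12) (.e (nat_lit 385072) (nat_lit 31) .nil))) (.g (nat_lit 0) (.e (nat_lit 73300) (nat_lit 0) .nil) .nil)))) (.nd (nat_lit 9) 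
(.lf (nat_lit 464205) (.g (nat_lit 3794) (.e (nat_lit 3098) (nat_lit 192) (.e (nat_lit 491569) (nat_lit 13) (.e (nat_lit 393301) (nat_lit 27) (.e (nat_lit 491559) (nat_lit 10) (.e (nat_lit 344091) (nat_lit 18) (.e (nat_lit 6850) (nat_lit 371) (.e (nat_lit 2433) (nat_lit 157) .nil))))))) (.g (nat_lit 1) (.e (nat_lit 72982) (nat_lit 0) .nil) .nil))) 
(.lf (nat_lit 464717) (.g (nat_lit 2792) (.e (nat_lit 3230) (nat_lit 197) (.e (nat_lit 532503) (nat_lit 1) (.e (nat_lit 57931) (nat_lit 282) (.e (nat_lit 163874) (nat_lit 3) (.e (nat_lit 204862) (nat_lit 27) (.e (nat_lit 344117) (nat_lit 21) (.e (nat_lit 516130) (nat_lit 3) (.e (nat_lit 221202) (nat_lit 20) .nil)))))))) (.g (nat_lit 1) (.e (nat_lit 73703) (nat_lit 0) .nil) .nil))))) 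
(.nd (nat_lit 8) (.nd (nat_lit 9) 
(.lf (nat_lit 464077) (.g (nat_lit 2667) (.e (nat_lit 3098) (nat_lit 192) (.e (nat_lit 491564) (nat_lit 12) (.e (nat_lit 385072) (nat_lit 31) (.e (nat_lit 573481) (nat_lit 13) (.e (nat_lit 65604) (nat_lit 9) (.e (nat_lit 336013) (nat_lit 2) (.e (nat_lit 90134) (nat_lit 9) .nil))))))) (.g (nat_lit 1) (.e (nat_lit 72732) (nat_lit 0) .nil) .nil))) 
(.lf (nat_lit 464589) (.g (nat_lit 2405) (.e (nat_lit 3114) (nat_lit 193) (.e (nat_lit 500075) (nat_lit 20) (.e (nat_lit 81956) (nat_lit 23) (.e (nat_lit 98349) (nat_lit 24) (.e (nat_lit 409646) (nat_lit 18) .nil))))) (.g (nat_lit 0) (.e (nat_lit 73467) (nat_lit 0) .nil) .nil)))) (.nd (nat_lit 9) 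
(.lf (nat_lit 464333) (.g (nat_lit 825) (.e (nat_lit 3098) (nat_lit 192) (.e (nat_lit 491570) (nat_lit 13) (.e (nat_lit 393253) (nat_lit 18) .nil))) (.g (nat_lit 0) (.e (nat_lit 73112) (nat_lit 0) .nil) .nil))) 
(.lf (nat_lit 464845) (.g (nat_lit 1569) (.e (nat_lit 3231) (nat_lit 197) (.e (nat_lit 532563) (nat_lit 15) (.e (nat_lit 385066) (nat_lit 26) (.e (nat_lit 532530) (nat_lit 9) .nil)))) (.g (nat_lit 0) (.e (nat_lit 73949) (nat_lit 0) .nil) .nil))))))) (.nd (nat_lit 6) (.nd (nat_lit 7) (.nd (nat_lit 8) (.nd (nat_lit 9) 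
(.lf (nat_lit 463917) (.g (nat_lit 2784) (.e (nat_lit 3096) (nat_lit 192) (.e (nat_lit 491569) (nat_lit 13) (.e (nat_lit 393301) (nat_lit 27) (.e (nat_lit 491558) (nat_lit 10) (.e (nat_lit 344172) (nat_lit 41) (.e (nat_lit 753673) (nat_lit 5) .nil)))))) (.g (nat_lit 1) (.e (nat_lit 72494) (nat_lit 0) .nil) .nil))) 
(.lf (nat_lit 464429) (.g (nat_lit 2872) (.e (nat_lit 3102) (nat_lit 192) (.e (nat_lit 491560) (nat_lit 10) (.e (nat_lit 344115) (nat_lit 20) (.e (nat_lit 507907) (nat_lit 0) (.e (nat_lit 5403) (nat_lit 302) (.e (nat_lit 65577) (nat_lit 5) (.e (nat_lit 139289) (nat_lit 9) .nil))))))) (.g (nat_lit 1) (.e (nat_lit 73265) (nat_lit 0) .nil) .nil)))) (.nd (nat_lit 9) 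
(.lf (nat_lit 464173) (.g (nat_lit 2645) (.e (nat_lit 3098) (nat_lit 192) (.e (nat_lit 491569) (nat_lit 13) (.e (nat_lit 393301) (nat_lit 27) (.e (nat_lit 491558) (nat_lit 10) (.e (nat_lit 344091) (nat_lit 18) (.e (nat_lit 6850) (nat_lit 371) (.e (nat_lit 2430) (nat_lit 157) .nil))))))) (.g (nat_lit 1) (.e (nat_lit 72950) (nat_lit 0) .nil) .nil))) 
(.lf (nat_lit 464685) (.g (nat_lit 3567) (.e (nat_lit 3230) (nat_lit 197) (.e (nat_lit 532503) (nat_lit 1) (.e (nat_lit 57931) (nat_lit 282) (.e (nat_lit 163867) (nat_lit 2) (.e (nat_lit 196668) (nat_lit 14) (.e (nat_lit 73746) (nat_lit 3) (.e (nat_lit 516129) (nat_lit 3) (.e (nat_lit 221202) (nat_lit 20) .nil)))))))) (.g (nat_lit 1) (.e (nat_lit 73665) (nat_lit 0) .nil) .nil))))) 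
(.nd (nat_lit 8) (.nd (nat_lit 9) 
(.lf (nat_lit 464045) (.g (nat_lit 1627) (.e (nat_lit 3098) (nat_lit 192) (.e (nat_lit 491546) (nat_lit 9) (.e (nat_lit 336013) (nat_lit 2) (.e (nat_lit 90165) (nat_lit 12) .nil)))) (.g (nat_lit 0) (.e (nat_lit 72690) (nat_lit 0) .nil) .nil))) 
(.lf (nat_lit 464557) (.g (nat_lit 3529) (.e (nat_lit 3105) (nat_lit 192) (.e (nat_lit 491569) (nat_lit 13) (.e (nat_lit 393301) (nat_lit 27) (.e (nat_lit 491559) (nat_lit 10) (.e (nat_lit 344172) (nat_lit 41) .nil))))) (.g (nat_lit 0) (.e (nat_lit 73411) (nat_lit 0) .nil) .nil)))) (.nd (nat_lit 9) 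
(.lf (nat_lit 464301) (.g (nat_lit 2772) (.e (nat_lit 3098) (nat_lit 192) (.e (nat_lit 491569) (nat_lit 13) (.e (nat_lit 393301) (nat_lit 27) (.e (nat_lit 491560) (nat_lit 10) (.e (nat_lit 344094) (nat_lit 18) (.e (nat_lit 6848) (nat_lit 371) (.e (nat_lit 2450) (nat_lit 157) .nil))))))) (.g (nat_lit 1) (.e (nat_lit 73078) (nat_lit 0) .nil) .nil))) 
(.lf (nat_lit 464813) (.g (nat_lit 2257) (.e (nat_lit 3231) (nat_lit 197) (.e (nat_lit 532499) (nat_lit 1) (.e (nat_lit 57927) (nat_lit 282) (.e (nat_lit 163869) (nat_lit 2) (.e (nat_lit 196668) (nat_lit 14) (.e (nat_lit 73747) (nat_lit 3) (.e (nat_lit 516129) (nat_lit 3) (.e (nat_lit 221202) (nat_lit 20) .nil)))))))) (.g (nat_lit 1) (.e (nat_lit 73872) (nat_lit 0) .nil) .nil)))))) 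
(.nd (nat_lit 7) (.nd (nat_lit 8) (.nd (nat_lit 9) 
(.lf (nat_lit 463981) (.g (nat_lit 1659) (.e (nat_lit 3097) (nat_lit 192) (.e (nat_lit 491566) (nat_lit 12) (.e (nat_lit 385074) (nat_lit 31) (.e (nat_lit 573482) (nat_lit 13) .nil)))) (.g (nat_lit 0) (.e (nat_lit 72586) (nat_lit 0) .nil) .nil))) 
(.lf (nat_lit 464493) (.g (nat_lit 3038) (.e (nat_lit 3104) (nat_lit 192) (.e (nat_lit 491568) (nat_lit 13) (.e (nat_lit 393301) (nat_lit 27) (.e (nat_lit 491560) (nat_lit 10) (.e (nat_lit 344091) (nat_lit 18) .nil))))) (.g (nat_lit 0) (.e (nat_lit 73336) (nat_lit 0) .nil) .nil)))) (.nd (nat_lit 9) 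
(.lf (nat_lit 464237) (.g (nat_lit 3394) (.e (nat_lit 3098) (nat_lit 192) (.e (nat_lit 491569) (nat_lit 13) (.e (nat_lit 393301) (nat_lit 27) (.e (nat_lit 491560) (nat_lit 10) (.e (nat_lit 344087) (nat_lit 18) (.e (nat_lit 6857) (nat_lit 371) (.e (nat_lit 2440) (nat_lit 157) .nil))))))) (.g (nat_lit 1) (.e (nat_lit 73014) (nat_lit 0) .nil) .nil))) 
(.lf (nat_lit 464749) (.g (nat_lit 4331) (.e (nat_lit 3230) (nat_lit 197) (.e (nat_lit 532535) (nat_lit 9) (.e (nat_lit 336099) (nat_lit 9) (.e (nat_lit 336013) (nat_lit 2) (.e (nat_lit 90134) (nat_lit 9) (.e (nat_lit 2822) (nat_lit 182) (.e (nat_lit 409646) (nat_lit 18) (.e (nat_lit 303106) (nat_lit 0) .nil)))))))) (.g (nat_lit 1) (.e (nat_lit 73786) (nat_lit 0) .nil) .nil))))) 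
(.nd (nat_lit 8) (.nd (nat_lit 9) 
(.lf (nat_lit 464109) (.g (nat_lit 5058) (.e (nat_lit 3098) (nat_lit 192) (.e (nat_lit 491566) (nat_lit 12) (.e (nat_lit 385072) (nat_lit 31) (.e (nat_lit 573485) (nat_lit 13) (.e (nat_lit 65604) (nat_lit 9) (.e (nat_lit 336013) (nat_lit 2) (.e (nat_lit 90134) (nat_lit 9) .nil))))))) (.g (nat_lit 1) (.e (nat_lit 72805) (nat_lit 0) .nil) .nil))) 
(.lf (nat_lit 464621) (.g (nat_lit 5421) (.e (nat_lit 3227) (nat_lit 197) (.e (nat_lit 532550) (nat_lit 12) (.e (nat_lit 360474) (nat_lit 8) (.e (nat_lit 557094) (nat_lit 12) (.e (nat_lit 164022) (nat_lit 46) (.e (nat_lit 704737) (nat_lit 11) (.e (nat_lit 16388) (nat_lit 0) .nil))))))) (.g (nat_lit 1) (.e (nat_lit 73578) (nat_lit 0) .nil) .nil)))) (.nd (nat_lit 9) 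
(.lf (nat_lit 464365) (.g (nat_lit 2380) (.e (nat_lit 3099) (nat_lit 192) (.e (nat_lit 491565) (nat_lit 12) (.e (nat_lit 385102) (nat_lit 50) (.e (nat_lit 786483) (nat_lit 30) (.e (nat_lit 360484) (nat_lit 15) (.e (nat_lit 647171) (nat_lit 0) .nil)))))) (.g (nat_lit 1) (.e (nat_lit 73184) (nat_lit 0) .nil) .nil))) 
(.lf (nat_lit 464877) (.g (nat_lit 1995) (.e (nat_lit 3234) (nat_lit 197) (.e (nat_lit 532501) (nat_lit 1) (.e (nat_lit 57851) (nat_lit 252) (.e (nat_lit 57406) (nat_lit 12) (.e (nat_lit 336456) (nat_lit 34) (.e (nat_lit 483393) (nat_lit 23) (.e (nat_lit 336293) (nat_lit 15) .nil))))))) (.g (nat_lit 1) (.e (nat_lit 74019) (nat_lit 0) .nil) .nil)))))))) 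
(.nd (nat_lit 5) (.nd (nat_lit 6) (.nd (nat_lit 7) (.nd (nat_lit 8) (.nd (nat_lit 9) 
(.lf (nat_lit 463901) (.g (nat_lit 2470) (.e (nat_lit 3096) (nat_lit 192) (.e (nat_lit 491566) (nat_lit 12) (.e (nat_lit 385105) (nat_lit 50) (.e (nat_lit 786483) (nat_lit 30) (.e (nat_lit 360483) (nat_lit 15) (.e (nat_lit 647173) (nat_lit 0) .nil)))))) (.g (nat_lit 1) (.e (nat_lit 72478) (nat_lit 0) .nil) .nil))) 
(.lf (nat_lit 464413) (.g (nat_lit 2219) (.e (nat_lit 3102) (nat_lit 192) (.e (nat_lit 491558) (nat_lit 10) (.e (nat_lit 344117) (nat_lit 21) (.e (nat_lit 516106) (nat_lit 0) (.e (nat_lit 7936) (nat_lit 407) .nil))))) (.g (nat_lit 0) (.e (nat_lit 73249) (nat_lit 0) .nil) .nil)))) (.nd (nat_lit 9) 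
(.lf (nat_lit 464157) (.g (nat_lit 2378) (.e (nat_lit 3098) (nat_lit 192) (.e (nat_lit 491569) (nat_lit 13) (.e (nat_lit 393251) (nat_lit 18) (.e (nat_lit 164183) (nat_lit 154) .nil)))) (.g (nat_lit 0) (.e (nat_lit 72934) (nat_lit 0) .nil) .nil))) 
(.lf (nat_lit 464669) (.g (nat_lit 2365) (.e (nat_lit 3230) (nat_lit 197) (.e (nat_lit 532503) (nat_lit 1) (.e (nat_lit 57848) (nat_lit 252) (.e (nat_lit 57411) (nat_lit 12) (.e (nat_lit 336454) (nat_lit 34) .nil))))) (.g (nat_lit 0) (.e (nat_lit 73649) (nat_lit 0) .nil) .nil))))) (.nd (nat_lit 8) (.nd (nat_lit 9) 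
(.lf (nat_lit 464029) (.g (nat_lit 2582) (.e (nat_lit 3098) (nat_lit 192) (.e (nat_lit 491537) (nat_lit 2) (.e (nat_lit 90170) (nat_lit 13) (.e (nat_lit 172113) (nat_lit 10) (.e (nat_lit 434227) (nat_lit 20) (.e (nat_lit 507930) (nat_lit 10) (.e (nat_lit 5615) (nat_lit 312) .nil))))))) (.g (nat_lit 1) (.e (nat_lit 72674) (nat_lit 0) .nil) .nil))) 
(.lf (nat_lit 464541) (.g (nat_lit 3411) (.e (nat_lit 3105) (nat_lit 192) (.e (nat_lit 491568) (nat_lit 13) (.e (nat_lit 393301) (nat_lit 27) (.e (nat_lit 491560) (nat_lit 10) (.e (nat_lit 344171) (nat_lit 41) .nil))))) (.g (nat_lit 0) (.e (nat_lit 73395) (nat_lit 0) .nil) .nil)))) (.nd (nat_lit 9) 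
(.lf (nat_lit 464285) (.g (nat_lit 3981) (.e (nat_lit 3098) (nat_lit 192) (.e (nat_lit 491569) (nat_lit 13) (.e (nat_lit 393301) (nat_lit 27) (.e (nat_lit 491560) (nat_lit 10) (.e (nat_lit 344090) (nat_lit 18) (.e (nat_lit 6923) (nat_lit 371) (.e (nat_lit 2442) (nat_lit 157) .nil))))))) (.g (nat_lit 1) (.e (nat_lit 73062) (nat_lit 0) .nil) .nil))) 
(.lf (nat_lit 464797) (.g (nat_lit 4556) (.e (nat_lit 3230) (nat_lit 197) (.e (nat_lit 532550) (nat_lit 12) (.e (nat_lit 360475) (nat_lit 8) (.e (nat_lit 557091) (nat_lit 12) (.e (nat_lit 164022) (nat_lit 46) (.e (nat_lit 704736) (nat_lit 11) (.e (nat_lit 16396) (nat_lit 0) .nil))))))) (.g (nat_lit 1) (.e (nat_lit 73855) (nat_lit 0) .nil) .nil)))))) 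
(.nd (nat_lit 7) (.nd (nat_lit 8) (.nd (nat_lit 9) 
(.lf (nat_lit 463965) (.g (nat_lit 771) (.e (nat_lit 3096) (nat_lit 192) (.e (nat_lit 491571) (nat_lit 13) (.e (nat_lit 393252) (nat_lit 18) .nil))) (.g (nat_lit 0) (.e (nat_lit 72553) (nat_lit 0) .nil) .nil))) 
(.lf (nat_lit 464477) (.g (nat_lit 2597) (.e (nat_lit 3103) (nat_lit 192) (.e (nat_lit 491566) (nat_lit 12) (.e (nat_lit 385105) (nat_lit 50) (.e (nat_lit 786483) (nat_lit 30) (.e (nat_lit 360484) (nat_lit 15) (.e (nat_lit 647168) (nat_lit 0) .nil)))))) (.g (nat_lit 1) (.e (nat_lit 73319) (nat_lit 0) .nil) .nil)))) (.nd (nat_lit 9) 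
(.lf (nat_lit 464221) (.g (nat_lit 3599) (.e (nat_lit 3098) (nat_lit 192) (.e (nat_lit 491569) (nat_lit 13) (.e (nat_lit 393301) (nat_lit 27) (.e (nat_lit 491559) (nat_lit 10) (.e (nat_lit 344170) (nat_lit 41) (.e (nat_lit 753674) (nat_lit 5) .nil)))))) (.g (nat_lit 1) (.e (nat_lit 72998) (nat_lit 0) .nil) .nil))) 
(.lf (nat_lit 464733) (.g (nat_lit 2101) (.e (nat_lit 3230) (nat_lit 197) (.e (nat_lit 532504) (nat_lit 1) (.e (nat_lit 57851) (nat_lit 252) (.e (nat_lit 57406) (nat_lit 12) (.e (nat_lit 336456) (nat_lit 34) (.e (nat_lit 483391) (nat_lit 23) (.e (nat_lit 336237) (nat_lit 15) .nil))))))) (.g (nat_lit 1) (.e (nat_lit 73722) (nat_lit 0) .nil) .nil))))) (.nd (nat_lit 8) (.nd (nat_lit 9) 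
(.lf (nat_lit 464093) (.g (nat_lit 4344) (.e (nat_lit 3098) (nat_lit 192) (.e (nat_lit 491565) (nat_lit 12) (.e (nat_lit 385073) (nat_lit 31) (.e (nat_lit 573485) (nat_lit 13) (.e (nat_lit 65604) (nat_lit 9) (.e (nat_lit 336013) (nat_lit 2) (.e (nat_lit 90134) (nat_lit 9) .nil))))))) (.g (nat_lit 1) (.e (nat_lit 72749) (nat_lit 0) .nil) .nil))) 
(.lf (nat_lit 464605) (.g (nat_lit 1883) (.e (nat_lit 3141) (nat_lit 193) (.e (nat_lit 500065) (nat_lit 18) (.e (nat_lit 65628) (nat_lit 14) (.e (nat_lit 401428) (nat_lit 3) (.e (nat_lit 204863) (nat_lit 27) .nil))))) (.g (nat_lit 0) (.e (nat_lit 73505) (nat_lit 0) .nil) .nil)))) (.nd (nat_lit 9) 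
(.lf (nat_lit 464349) (.g (nat_lit 3592) (.e (nat_lit 3098) (nat_lit 192) (.e (nat_lit 491571) (nat_lit 13) (.e (nat_lit 393252) (nat_lit 18) (.e (nat_lit 164183) (nat_lit 154) (.e (nat_lit 57420) (nat_lit 13) (.e (nat_lit 344132) (nat_lit 26) (.e (nat_lit 557072) (nat_lit 9) .nil))))))) (.g (nat_lit 1) (.e (nat_lit 73147) (nat_lit 0) .nil) .nil))) 
(.lf (nat_lit 464861) (.g (nat_lit 4736) (.e (nat_lit 3232) (nat_lit 197) (.e (nat_lit 532550) (nat_lit 12) (.e (nat_lit 360475) (nat_lit 8) (.e (nat_lit 557085) (nat_lit 11) .nil)))) (.g (nat_lit 0) (.e (nat_lit 73997) (nat_lit 0) .nil) .nil))))))) (.nd (nat_lit 6) (.nd (nat_lit 7) (.nd (nat_lit 8) (.nd (nat_lit 9) 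
(.lf (nat_lit 463933) (.g (nat_lit 3196) (.e (nat_lit 3096) (nat_lit 192) (.e (nat_lit 491569) (nat_lit 13) (.e (nat_lit 393301) (nat_lit 27) (.e (nat_lit 491559) (nat_lit 10) (.e (nat_lit 344172) (nat_lit 41) (.e (nat_lit 753678) (nat_lit 5) .nil)))))) (.g (nat_lit 1) (.e (nat_lit 72510) (nat_lit 0) .nil) .nil))) 
(.lf (nat_lit 464445) (.g (nat_lit 1512) (.e (nat_lit 3102) (nat_lit 192) (.e (nat_lit 491560) (nat_lit 10) (.e (nat_lit 344117) (nat_lit 21) (.e (nat_lit 516106) (nat_lit 0) .nil)))) (.g (nat_lit 0) (.e (nat_lit 73283) (nat_lit 0) .nil) .nil)))) (.nd (nat_lit 9) 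
(.lf (nat_lit 464189) (.g (nat_lit 3004) (.e (nat_lit 3098) (nat_lit 192) (.e (nat_lit 491569) (nat_lit 13) (.e (nat_lit 393301) (nat_lit 27) (.e (nat_lit 491558) (nat_lit 10) (.e (nat_lit 344096) (nat_lit 18) (.e (nat_lit 6850) (nat_lit 371) (.e (nat_lit 2433) (nat_lit 157) .nil))))))) (.g (nat_lit 1) (.e (nat_lit 72966) (nat_lit 0) .nil) .nil))) 
(.lf (nat_lit 464701) (.g (nat_lit 4428) (.e (nat_lit 3230) (nat_lit 197) (.e (nat_lit 532503) (nat_lit 1) (.e (nat_lit 57931) (nat_lit 282) (.e (nat_lit 163869) (nat_lit 2) (.e (nat_lit 196668) (nat_lit 14) (.e (nat_lit 73747) (nat_lit 3) (.e (nat_lit 516131) (nat_lit 3) (.e (nat_lit 221198) (nat_lit 20) .nil)))))))) (.g (nat_lit 1) (.e (nat_lit 73685) (nat_lit 0) .nil) .nil))))) 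
(.nd (nat_lit 8) (.nd (nat_lit 9) 
(.lf (nat_lit 464061) (.g (nat_lit 2502) (.e (nat_lit 3098) (nat_lit 192) (.e (nat_lit 491549) (nat_lit 9) (.e (nat_lit 336260) (nat_lit 15) (.e (nat_lit 3307) (nat_lit 202) (.e (nat_lit 573485) (nat_lit 13) (.e (nat_lit 65604) (nat_lit 9) (.e (nat_lit 336013) (nat_lit 2) (.e (nat_lit 90134) (nat_lit 9) .nil)))))))) (.g (nat_lit 1) (.e (nat_lit 72709) (nat_lit 0) .nil) .nil))) 
(.lf (nat_lit 464573) (.g (nat_lit 2554) (.e (nat_lit 3107) (nat_lit 193) (.e (nat_lit 500075) (nat_lit 20) (.e (nat_lit 81955) (nat_lit 23) (.e (nat_lit 98350) (nat_lit 24) (.e (nat_lit 409649) (nat_lit 18) (.e (nat_lit 303111) (nat_lit 0) .nil)))))) (.g (nat_lit 1) (.e (nat_lit 73450) (nat_lit 0) .nil) .nil)))) (.nd (nat_lit 9) 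
(.lf (nat_lit 464317) (.g (nat_lit 3457) (.e (nat_lit 3098) (nat_lit 192) (.e (nat_lit 491569) (nat_lit 13) (.e (nat_lit 393301) (nat_lit 27) (.e (nat_lit 491560) (nat_lit 10) (.e (nat_lit 344099) (nat_lit 18) (.e (nat_lit 6871) (nat_lit 371) (.e (nat_lit 2445) (nat_lit 157) .nil))))))) (.g (nat_lit 1) (.e (nat_lit 73094) (nat_lit 0) .nil) .nil))) 
(.lf (nat_lit 464829) (.g (nat_lit 886) (.e (nat_lit 3231) (nat_lit 197) (.e (nat_lit 532530) (nat_lit 9) (.e (nat_lit 336326) (nat_lit 18) .nil))) (.g (nat_lit 0) (.e (nat_lit 73918) (nat_lit 0) .nil) .nil)))))) (.nd (nat_lit 7) (.nd (nat_lit 8) (.nd (nat_lit 9) 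
(.lf (nat_lit 463997) (.g (nat_lit 3517) (.e (nat_lit 3097) (nat_lit 192) (.e (nat_lit 491569) (nat_lit 13) (.e (nat_lit 393301) (nat_lit 27) (.e (nat_lit 491558) (nat_lit 10) (.e (nat_lit 344171) (nat_lit 41) .nil))))) (.g (nat_lit 0) (.e (nat_lit 72623) (nat_lit 0) .nil) .nil))) 
(.lf (nat_lit 464509) (.g (nat_lit 1551) (.e (nat_lit 3104) (nat_lit 192) (.e (nat_lit 491570) (nat_lit 13) (.e (nat_lit 393238) (nat_lit 17) (.e (nat_lit 7936) (nat_lit 220) .nil)))) (.g (nat_lit 0) (.e (nat_lit 73352) (nat_lit 0) .nil) .nil)))) (.nd (nat_lit 9) 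
(.lf (nat_lit 464253) (.g (nat_lit 2927) (.e (nat_lit 3098) (nat_lit 192) (.e (nat_lit 491569) (nat_lit 13) (.e (nat_lit 393301) (nat_lit 27) (.e (nat_lit 491560) (nat_lit 10) (.e (nat_lit 344088) (nat_lit 18) (.e (nat_lit 6869) (nat_lit 371) (.e (nat_lit 2444) (nat_lit 157) .nil))))))) (.g (nat_lit 1) (.e (nat_lit 73030) (nat_lit 0) .nil) .nil))) 
(.lf (nat_lit 464765) (.g (nat_lit 3640) (.e (nat_lit 3230) (nat_lit 197) (.e (nat_lit 532535) (nat_lit 9) (.e (nat_lit 336176) (nat_lit 10) (.e (nat_lit 344133) (nat_lit 26) .nil)))) (.g (nat_lit 0) (.e (nat_lit 73810) (nat_lit 0) .nil) .nil))))) (.nd (nat_lit 8) (.nd (nat_lit 9) 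
(.lf (nat_lit 464125) (.g (nat_lit 3048) (.e (nat_lit 3098) (nat_lit 192) (.e (nat_lit 491566) (nat_lit 12) (.e (nat_lit 385074) (nat_lit 31) (.e (nat_lit 573482) (nat_lit 13) (.e (nat_lit 65597) (nat_lit 9) .nil))))) (.g (nat_lit 0) (.e (nat_lit 72839) (nat_lit 0) .nil) .nil))) 
(.lf (nat_lit 464637) (.g (nat_lit 765) (.e (nat_lit 3229) (nat_lit 197) (.e (nat_lit 532550) (nat_lit 12) (.e (nat_lit 360475) (nat_lit 8) .nil))) (.g (nat_lit 0) (.e (nat_lit 73607) (nat_lit 0) .nil) .nil)))) (.nd (nat_lit 9) 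
(.lf (nat_lit 464381) (.g (nat_lit 863) (.e (nat_lit 3101) (nat_lit 192) (.e (nat_lit 491565) (nat_lit 12) (.e (nat_lit 385102) (nat_lit 50) (.e (nat_lit 786483) (nat_lit 30) .nil)))) (.g (nat_lit 0) (.e (nat_lit 73216) (nat_lit 0) .nil) .nil))) 
(.lf (nat_lit 464893) (.g (nat_lit 3222) (.e (nat_lit 3234) (nat_lit 197) (.e (nat_lit 532549) (nat_lit 12) (.e (nat_lit 360475) (nat_lit 8) (.e (nat_lit 557085) (nat_lit 11) .nil)))) (.g (nat_lit 0) (.e (nat_lit 74072) (nat_lit 0) .nil) .nil))))))))))) (.nd (nat_lit 2) (.nd (nat_lit 3) (.nd (nat_lit 4) (.nd (nat_lit 5) (.nd (nat_lit 6) (.nd (nat_lit 7) (.nd (nat_lit 8) (.nd (nat_lit 9) 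
(.lf (nat_lit 463875) (.g (nat_lit 3983) (.e (nat_lit 3096) (nat_lit 192) (.e (nat_lit 491564) (nat_lit 12) (.e (nat_lit 385074) (nat_lit 31) (.e (nat_lit 573482) (nat_lit 13) (.e (nat_lit 65604) (nat_lit 9) .nil))))) (.g (nat_lit 0) (.e (nat_lit 72435) (nat_lit 0) .nil) .nil))) 
(.lf (nat_lit 464387) (.g (nat_lit 1551) (.e (nat_lit 3102) (nat_lit 192) (.e (nat_lit 491558) (nat_lit 10) (.e (nat_lit 344115) (nat_lit 20) (.e (nat_lit 507906) (nat_lit 0) (.e (nat_lit 5412) (nat_lit 303) (.e (nat_lit 73739) (nat_lit 1) (.e (nat_lit 499835) (nat_lit 5) .nil))))))) (.g (nat_lit 1) (.e (nat_lit 73223) (nat_lit 0) .nil) .nil)))) (.nd (nat_lit 9) 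
(.lf (nat_lit 464131) (.g (nat_lit 1373) (.e (nat_lit 3098) (nat_lit 192) (.e (nat_lit 491566) (nat_lit 12) (.e (nat_lit 385099) (nat_lit 49) .nil))) (.g (nat_lit 0) (.e (nat_lit 72875) (nat_lit 0) .nil) .nil))) 
(.lf (nat_lit 464643) (.g (nat_lit 2306) (.e (nat_lit 3230) (nat_lit 197) (.e (nat_lit 532499) (nat_lit 1) (.e (nat_lit 57927) (nat_lit 282) (.e (nat_lit 163869) (nat_lit 2) (.e (nat_lit 196670) (nat_lit 14) (.e (nat_lit 73746) (nat_lit 3) (.e (nat_lit 516129) (nat_lit 3) (.e (nat_lit 221197) (nat_lit 20) .nil)))))))) (.g (nat_lit 1) (.e (nat_lit 73614) (nat_lit 0) .nil) .nil))))) 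
(.nd (nat_lit 8) (.nd (nat_lit 9) 
(.lf (nat_lit 464003) (.g (nat_lit 1102) (.e (nat_lit 3097) (nat_lit 192) (.e (nat_lit 491571) (nat_lit 13) (.e (nat_lit 393251) (nat_lit 18) .nil))) (.g (nat_lit 0) (.e (nat_lit 72632) (nat_lit 0) .nil) .nil))) 
(.lf (nat_lit 464515) (.g (nat_lit 3352) (.e (nat_lit 3105) (nat_lit 192) (.e (nat_lit 491564) (nat_lit 12) (.e (nat_lit 385074) (nat_lit 31) (.e (nat_lit 573491) (nat_lit 15) (.e (nat_lit 81951) (nat_lit 22) (.e (nat_lit 90133) (nat_lit 9) .nil)))))) (.g (nat_lit 1) (.e (nat_lit 73363) (nat_lit 0) .nil) .nil)))) (.nd (nat_lit 9) 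
(.lf (nat_lit 464259) (.g (nat_lit 2810) (.e (nat_lit 3098) (nat_lit 192) (.e (nat_lit 491569) (nat_lit 13) (.e (nat_lit 393301) (nat_lit 27) (.e (nat_lit 491560) (nat_lit 10) (.e (nat_lit 344088) (nat_lit 18) (.e (nat_lit 6916) (nat_lit 371) (.e (nat_lit 2442) (nat_lit 157) .nil))))))) (.g (nat_lit 1) (.e (nat_lit 73036) (nat_lit 0) .nil) .nil))) 
(.lf (nat_lit 464771) (.g (nat_lit 5154) (.e (nat_lit 3230) (nat_lit 197) (.e (nat_lit 532550) (nat_lit 12) (.e (nat_lit 360474) (nat_lit 8) (.e (nat_lit 557093) (nat_lit 12) (.e (nat_lit 164022) (nat_lit 46) (.e (nat_lit 704737) (nat_lit 11) (.e (nat_lit 16396) (nat_lit 0) .nil))))))) (.g (nat_lit 1) (.e (nat_lit 73827) (nat_lit 0) .nil) .nil)))))) 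
(.nd (nat_lit 7) (.nd (nat_lit 8) (.nd (nat_lit 9) 
(.lf (nat_lit 463939) (.g (nat_lit 2937) (.e (nat_lit 3096) (nat_lit 192) (.e (nat_lit 491569) (nat_lit 13) (.e (nat_lit 393301) (nat_lit 27) (.e (nat_lit 491560) (nat_lit 10) (.e (nat_lit 344090) (nat_lit 18) .nil))))) (.g (nat_lit 0) (.e (nat_lit 72516) (nat_lit 0) .nil) .nil))) 
(.lf (nat_lit 464451) (.g (nat_lit 2863) (.e (nat_lit 3102) (nat_lit 192) (.e (nat_lit 491560) (nat_lit 10) (.e (nat_lit 344117) (nat_lit 21) (.e (nat_lit 516185) (nat_lit 16) (.e (nat_lit 491560) (nat_lit 10) (.e (nat_lit 344105) (nat_lit 19) (.e (nat_lit 499843) (nat_lit 5) .nil))))))) (.g (nat_lit 1) (.e (nat_lit 73289) (nat_lit 0) .nil) .nil)))) (.nd (nat_lit 9) 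
(.lf (nat_lit 464195) (.g (nat_lit 3045) (.e (nat_lit 3098) (nat_lit 192) (.e (nat_lit 491569) (nat_lit 13) (.e (nat_lit 393301) (nat_lit 27) (.e (nat_lit 491558) (nat_lit 10) (.e (nat_lit 344170) (nat_lit 41) (.e (nat_lit 753673) (nat_lit 5) .nil)))))) (.g (nat_lit 1) (.e (nat_lit 72972) (nat_lit 0) .nil) .nil))) 
(.lf (nat_lit 464707) (.g (nat_lit 2694) (.e (nat_lit 3230) (nat_lit 197) (.e (nat_lit 532503) (nat_lit 1) (.e (nat_lit 57931) (nat_lit 282) (.e (nat_lit 163873) (nat_lit 3) (.e (nat_lit 204853) (nat_lit 26) .nil))))) (.g (nat_lit 0) (.e (nat_lit 73691) (nat_lit 0) .nil) .nil))))) (.nd (nat_lit 8) (.nd (nat_lit 9) 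
(.lf (nat_lit 464067) (.g (nat_lit 2262) (.e (nat_lit 3098) (nat_lit 192) (.e (nat_lit 491550) (nat_lit 9) (.e (nat_lit 336306) (nat_lit 15) (.e (nat_lit 3308) (nat_lit 202) (.e (nat_lit 573493) (nat_lit 15) (.e (nat_lit 81953) (nat_lit 22) (.e (nat_lit 98048) (nat_lit 9) .nil))))))) (.g (nat_lit 1) (.e (nat_lit 72722) (nat_lit 0) .nil) .nil))) 
(.lf (nat_lit 464579) (.g (nat_lit 2047) (.e (nat_lit 3114) (nat_lit 193) (.e (nat_lit 500074) (nat_lit 20) (.e (nat_lit 81953) (nat_lit 22) (.e (nat_lit 90130) (nat_lit 9) .nil)))) (.g (nat_lit 0) (.e (nat_lit 73456) (nat_lit 0) .nil) .nil)))) (.nd (nat_lit 9) 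
(.lf (nat_lit 464323) (.g (nat_lit 3028) (.e (nat_lit 3098) (nat_lit 192) (.e (nat_lit 491569) (nat_lit 13) (.e (nat_lit 393301) (nat_lit 27) (.e (nat_lit 491560) (nat_lit 10) (.e (nat_lit 344171) (nat_lit 41) (.e (nat_lit 753670) (nat_lit 5) .nil)))))) (.g (nat_lit 1) (.e (nat_lit 73100) (nat_lit 0) .nil) .nil))) 
(.lf (nat_lit 464835) (.g (nat_lit 4519) (.e (nat_lit 3231) (nat_lit 197) (.e (nat_lit 532550) (nat_lit 12) (.e (nat_lit 360474) (nat_lit 8) (.e (nat_lit 557093) (nat_lit 12) (.e (nat_lit 164022) (nat_lit 46) .nil))))) (.g (nat_lit 0) (.e (nat_lit 73931) (nat_lit 0) .nil) .nil))))))) (.nd (nat_lit 6) (.nd (nat_lit 7) (.nd (nat_lit 8) (.nd (nat_lit 9) 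
(.lf (nat_lit 463907) (.g (nat_lit 1009) (.e (nat_lit 3096) (nat_lit 192) (.e (nat_lit 491569) (nat_lit 13) (.e (nat_lit 393253) (nat_lit 18) .nil))) (.g (nat_lit 0) (.e (nat_lit 72484) (nat_lit 0) .nil) .nil))) 
(.lf (nat_lit 464419) (.g (nat_lit 2519) (.e (nat_lit 3102) (nat_lit 192) (.e (nat_lit 491559) (nat_lit 10) (.e (nat_lit 344117) (nat_lit 21) (.e (nat_lit 516185) (nat_lit 16) (.e (nat_lit 491560) (nat_lit 10) .nil))))) (.g (nat_lit 0) (.e (nat_lit 73255) (nat_lit 0) .nil) .nil)))) (.nd (nat_lit 9) 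
(.lf (nat_lit 464163) (.g (nat_lit 3237) (.e (nat_lit 3098) (nat_lit 192) (.e (nat_lit 491569) (nat_lit 13) (.e (nat_lit 393301) (nat_lit 27) (.e (nat_lit 491558) (nat_lit 10) (.e (nat_lit 344088) (nat_lit 18) (.e (nat_lit 6850) (nat_lit 371) (.e (nat_lit 2450) (nat_lit 157) .nil))))))) (.g (nat_lit 1) (.e (nat_lit 72940) (nat_lit 0) .nil) .nil))) 
(.lf (nat_lit 464675) (.g (nat_lit 2006) (.e (nat_lit 3230) (nat_lit 197) (.e (nat_lit 532503) (nat_lit 1) (.e (nat_lit 57929) (nat_lit 282) (.e (nat_lit 163869) (nat_lit 2) (.e (nat_lit 196670) (nat_lit 14) (.e (nat_lit 73746) (nat_lit 3) (.e (nat_lit 516129) (nat_lit 3) (.e (nat_lit 221197) (nat_lit 20) .nil)))))))) (.g (nat_lit 1) (.e (nat_lit 73655) (nat_lit 0) .nil) .nil))))) 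
(.nd (nat_lit 8) (.nd (nat_lit 9) 
(.lf (nat_lit 464035) (.g (nat_lit 2956) (.e (nat_lit 3098) (nat_lit 192) (.e (nat_lit 491537) (nat_lit 2) (.e (nat_lit 90176) (nat_lit 15) (.e (nat_lit 188450) (nat_lit 23) (.e (nat_lit 204815) (nat_lit 17) (.e (nat_lit 6619) (nat_lit 357) .nil)))))) (.g (nat_lit 1) (.e (nat_lit 72680) (nat_lit 0) .nil) .nil))) 
(.lf (nat_lit 464547) (.g (nat_lit 2778) (.e (nat_lit 3105) (nat_lit 192) (.e (nat_lit 491569) (nat_lit 13) (.e (nat_lit 393301) (nat_lit 27) (.e (nat_lit 491558) (nat_lit 10) (.e (nat_lit 344091) (nat_lit 18) .nil))))) (.g (nat_lit 0) (.e (nat_lit 73401) (nat_lit 0) .nil) .nil)))) (.nd (nat_lit 9) 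
(.lf (nat_lit 464291) (.g (nat_lit 3709) (.e (nat_lit 3098) (nat_lit 192) (.e (nat_lit 491569) (nat_lit 13) (.e (nat_lit 393301) (nat_lit 27) (.e (nat_lit 491560) (nat_lit 10) (.e (nat_lit 344091) (nat_lit 18) (.e (nat_lit 6853) (nat_lit 371) (.e (nat_lit 2433) (nat_lit 157) .nil))))))) (.g (nat_lit 1) (.e (nat_lit 73068) (nat_lit 0) .nil) .nil))) 
(.lf (nat_lit 464803) (.g (nat_lit 4121) (.e (nat_lit 3230) (nat_lit 197) (.e (nat_lit 532550) (nat_lit 12) (.e (nat_lit 360475) (nat_lit 8) (.e (nat_lit 557091) (nat_lit 12) (.e (nat_lit 164022) (nat_lit 46) (.e (nat_lit 704737) (nat_lit 11) (.e (nat_lit 16399) (nat_lit 0) .nil))))))) (.g (nat_lit 1) (.e (nat_lit 73861) (nat_lit 0) .nil) .nil)))))) 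
(.nd (nat_lit 7) (.nd (nat_lit 8) (.nd (nat_lit 9) 
(.lf (nat_lit 463971) (.g (nat_lit 3699) (.e (nat_lit 3097) (nat_lit 192) (.e (nat_lit 491566) (nat_lit 12) (.e (nat_lit 385072) (nat_lit 31) (.e (nat_lit 573491) (nat_lit 15) (.e (nat_lit 81951) (nat_lit 22) (.e (nat_lit 90134) (nat_lit 9) .nil)))))) (.g (nat_lit 1) (.e (nat_lit 72575) (nat_lit 0) .nil) .nil))) 
(.lf (nat_lit 464483) (.g (nat_lit 2404) (.e (nat_lit 3103) (nat_lit 192) (.e (nat_lit 491569) (nat_lit 13) (.e (nat_lit 393301) (nat_lit 27) (.e (nat_lit 491563) (nat_lit 12) .nil)))) (.g (nat_lit 0) (.e (nat_lit 73325) (nat_lit 0) .nil) .nil)))) (.nd (nat_lit 9) 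
(.lf (nat_lit 464227) (.g (nat_lit 3338) (.e (nat_lit 3098) (nat_lit 192) (.e (nat_lit 491569) (nat_lit 13) (.e (nat_lit 393301) (nat_lit 27) (.e (nat_lit 491559) (nat_lit 10) (.e (nat_lit 344172) (nat_lit 41) (.e (nat_lit 753670) (nat_lit 5) .nil)))))) (.g (nat_lit 1) (.e (nat_lit 73004) (nat_lit 0) .nil) .nil))) 
(.lf (nat_lit 464739) (.g (nat_lit 2786) (.e (nat_lit 3230) (nat_lit 197) (.e (nat_lit 532504) (nat_lit 1) (.e (nat_lit 57851) (nat_lit 252) (.e (nat_lit 57406) (nat_lit 12) (.e (nat_lit 336456) (nat_lit 34) (.e (nat_lit 483393) (nat_lit 23) (.e (nat_lit 336293) (nat_lit 15) .nil))))))) (.g (nat_lit 1) (.e (nat_lit 73728) (nat_lit 0) .nil) .nil))))) (.nd (nat_lit 8) (.nd (nat_lit 9) 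
(.lf (nat_lit 464099) (.g (nat_lit 4436) (.e (nat_lit 3098) (nat_lit 192) (.e (nat_lit 491565) (nat_lit 12) (.e (nat_lit 385074) (nat_lit 31) (.e (nat_lit 573485) (nat_lit 13) (.e (nat_lit 65604) (nat_lit 9) (.e (nat_lit 336013) (nat_lit 2) (.e (nat_lit 90134) (nat_lit 9) .nil))))))) (.g (nat_lit 1) (.e (nat_lit 72757) (nat_lit 0) .nil) .nil))) 
(.lf (nat_lit 464611) (.g (nat_lit 2824) (.e (nat_lit 3147) (nat_lit 193) (.e (nat_lit 500065) (nat_lit 18) (.e (nat_lit 65610) (nat_lit 10) (.e (nat_lit 344117) (nat_lit 21) (.e (nat_lit 516138) (nat_lit 7) .nil))))) (.g (nat_lit 0) (.e (nat_lit 73518) (nat_lit 0) .nil) .nil)))) (.nd (nat_lit 9) 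
(.lf (nat_lit 464355) (.g (nat_lit 3110) (.e (nat_lit 3098) (nat_lit 192) (.e (nat_lit 491571) (nat_lit 13) (.e (nat_lit 393260) (nat_lit 21) (.e (nat_lit 409648) (nat_lit 18) .nil)))) (.g (nat_lit 0) (.e (nat_lit 73160) (nat_lit 0) .nil) .nil))) 
(.lf (nat_lit 464867) (.g (nat_lit 5265) (.e (nat_lit 3232) (nat_lit 197) (.e (nat_lit 532550) (nat_lit 12) (.e (nat_lit 360475) (nat_lit 8) (.e (nat_lit 557091) (nat_lit 12) (.e (nat_lit 164022) (nat_lit 46) .nil))))) (.g (nat_lit 0) (.e (nat_lit 74003) (nat_lit 0) .nil) .nil)))))))) (.nd (nat_lit 5) (.nd (nat_lit 6) (.nd (nat_lit 7) (.nd (nat_lit 8) (.nd (nat_lit 9) 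
(.lf (nat_lit 463891) (.g (nat_lit 2585) (.e (nat_lit 3096) (nat_lit 192) (.e (nat_lit 491566) (nat_lit 12) (.e (nat_lit 385074) (nat_lit 31) (.e (nat_lit 573481) (nat_lit 13) (.e (nat_lit 65604) (nat_lit 9) .nil))))) (.g (nat_lit 0) (.e (nat_lit 72456) (nat_lit 0) .nil) .nil))) 
(.lf (nat_lit 464403) (.g (nat_lit 1274) (.e (nat_lit 3102) (nat_lit 192) (.e (nat_lit 491558) (nat_lit 10) (.e (nat_lit 344115) (nat_lit 20) (.e (nat_lit 507908) (nat_lit 0) (.e (nat_lit 5409) (nat_lit 303) .nil))))) (.g (nat_lit 0) (.e (nat_lit 73239) (nat_lit 0) .nil) .nil)))) (.nd (nat_lit 9) 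
(.lf (nat_lit 464147) (.g (nat_lit 3094) (.e (nat_lit 3098) (nat_lit 192) (.e (nat_lit 491568) (nat_lit 13) (.e (nat_lit 393301) (nat_lit 27) (.e (nat_lit 491560) (nat_lit 10) (.e (nat_lit 344096) (nat_lit 18) (.e (nat_lit 6869) (nat_lit 371) (.e (nat_lit 2444) (nat_lit 157) .nil))))))) (.g (nat_lit 1) (.e (nat_lit 72921) (nat_lit 0) .nil) .nil))) 
(.lf (nat_lit 464659) (.g (nat_lit 2060) (.e (nat_lit 3230) (nat_lit 197) (.e (nat_lit 532503) (nat_lit 1) (.e (nat_lit 57844) (nat_lit 252) (.e (nat_lit 57406) (nat_lit 12) (.e (nat_lit 336367) (nat_lit 27) .nil))))) (.g (nat_lit 0) (.e (nat_lit 73639) (nat_lit 0) .nil) .nil))))) (.nd (nat_lit 8) (.nd (nat_lit 9) 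
(.lf (nat_lit 464019) (.g (nat_lit 4094) (.e (nat_lit 3098) (nat_lit 192) (.e (nat_lit 491537) (nat_lit 2) (.e (nat_lit 90170) (nat_lit 13) (.e (nat_lit 172106) (nat_lit 10) (.e (nat_lit 434231) (nat_lit 23) (.e (nat_lit 532482) (nat_lit 0) (.e (nat_lit 6617) (nat_lit 357) .nil))))))) (.g (nat_lit 1) (.e (nat_lit 72664) (nat_lit 0) .nil) .nil))) 
(.lf (nat_lit 464531) (.g (nat_lit 3125) (.e (nat_lit 3105) (nat_lit 192) (.e (nat_lit 491566) (nat_lit 12) (.e (nat_lit 385105) (nat_lit 50) (.e (nat_lit 786483) (nat_lit 30) (.e (nat_lit 360483) (nat_lit 15) (.e (nat_lit 647168) (nat_lit 0) .nil)))))) (.g (nat_lit 1) (.e (nat_lit 73385) (nat_lit 0) .nil) .nil)))) (.nd (nat_lit 9) 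
(.lf (nat_lit 464275) (.g (nat_lit 2996) (.e (nat_lit 3098) (nat_lit 192) (.e (nat_lit 491569) (nat_lit 13) (.e (nat_lit 393301) (nat_lit 27) (.e (nat_lit 491560) (nat_lit 10) (.e (nat_lit 344090) (nat_lit 18) .nil))))) (.g (nat_lit 0) (.e (nat_lit 73052) (nat_lit 0) .nil) .nil))) 
(.lf (nat_lit 464787) (.g (nat_lit 5318) (.e (nat_lit 3230) (nat_lit 197) (.e (nat_lit 532550) (nat_lit 12) (.e (nat_lit 360474) (nat_lit 8) (.e (nat_lit 557094) (nat_lit 12) (.e (nat_lit 164022) (nat_lit 46) (.e (nat_lit 704738) (nat_lit 11) (.e (nat_lit 16396) (nat_lit 0) .nil))))))) (.g (nat_lit 1) (.e (nat_lit 73843) (nat_lit 0) .nil) .nil)))))) 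
(.nd (nat_lit 7) (.nd (nat_lit 8) (.nd (nat_lit 9) 
(.lf (nat_lit 463955) (.g (nat_lit 842) (.e (nat_lit 3096) (nat_lit 192) (.e (nat_lit 491571) (nat_lit 13) (.e (nat_lit 393231) (nat_lit 17) .nil))) (.g (nat_lit 0) (.e (nat_lit 72534) (nat_lit 0) .nil) .nil))) 
(.lf (nat_lit 464467) (.g (nat_lit 721) (.e (nat_lit 3102) (nat_lit 192) (.e (nat_lit 491568) (nat_lit 13) (.e (nat_lit 393301) (nat_lit 27) .nil))) (.g (nat_lit 0) (.e (nat_lit 73306) (nat_lit 0) .nil) .nil)))) (.nd (nat_lit 9) 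
(.lf (nat_lit 464211) (.g (nat_lit 4514) (.e (nat_lit 3098) (nat_lit 192) (.e (nat_lit 491569) (nat_lit 13) (.e (nat_lit 393301) (nat_lit 27) (.e (nat_lit 491559) (nat_lit 10) (.e (nat_lit 344091) (nat_lit 18) (.e (nat_lit 6923) (nat_lit 371) (.e (nat_lit 2442) (nat_lit 157) .nil))))))) (.g (nat_lit 1) (.e (nat_lit 72988) (nat_lit 0) .nil) .nil))) 
(.lf (nat_lit 464723) (.g (nat_lit 1482) (.e (nat_lit 3230) (nat_lit 197) (.e (nat_lit 532504) (nat_lit 1) (.e (nat_lit 57851) (nat_lit 252) (.e (nat_lit 57406) (nat_lit 12) (.e (nat_lit 336456) (nat_lit 34) .nil))))) (.g (nat_lit 0) (.e (nat_lit 73712) (nat_lit 0) .nil) .nil))))) (.nd (nat_lit 8) (.nd (nat_lit 9) 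
(.lf (nat_lit 464083) (.g (nat_lit 5036) (.e (nat_lit 3098) (nat_lit 192) (.e (nat_lit 491564) (nat_lit 12) (.e (nat_lit 385074) (nat_lit 31) (.e (nat_lit 573482) (nat_lit 13) (.e (nat_lit 65604) (nat_lit 9) (.e (nat_lit 336013) (nat_lit 2) (.e (nat_lit 90134) (nat_lit 9) .nil))))))) (.g (nat_lit 1) (.e (nat_lit 72739) (nat_lit 0) .nil) .nil))) 
(.lf (nat_lit 464595) (.g (nat_lit 3671) (.e (nat_lit 3124) (nat_lit 193) (.e (nat_lit 500079) (nat_lit 20) (.e (nat_lit 81956) (nat_lit 23) (.e (nat_lit 98350) (nat_lit 24) (.e (nat_lit 409649) (nat_lit 18) .nil))))) (.g (nat_lit 0) (.e (nat_lit 73476) (nat_lit 0) .nil) .nil)))) (.nd (nat_lit 9) 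
(.lf (nat_lit 464339) (.g (nat_lit 3296) (.e (nat_lit 3098) (nat_lit 192) (.e (nat_lit 491571) (nat_lit 13) (.e (nat_lit 393251) (nat_lit 18) (.e (nat_lit 164177) (nat_lit 154) (.e (nat_lit 57421) (nat_lit 13) (.e (nat_lit 344129) (nat_lit 26) (.e (nat_lit 557065) (nat_lit 9) .nil))))))) (.g (nat_lit 1) (.e (nat_lit 73129) (nat_lit 0) .nil) .nil))) 
(.lf (nat_lit 464851) (.g (nat_lit 2424) (.e (nat_lit 3232) (nat_lit 197) (.e (nat_lit 532504) (nat_lit 1) (.e (nat_lit 57851) (nat_lit 252) (.e (nat_lit 57406) (nat_lit 12) (.e (nat_lit 336367) (nat_lit 27) .nil))))) (.g (nat_lit 0) (.e (nat_lit 73956) (nat_lit 0) .nil) .nil))))))) (.nd (nat_lit 6) (.nd (nat_lit 7) (.nd (nat_lit 8) (.nd (nat_lit 9) 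
(.lf (nat_lit 463923) (.g (nat_lit 3964) (.e (nat_lit 3096) (nat_lit 192) (.e (nat_lit 491569) (nat_lit 13) (.e (nat_lit 393301) (nat_lit 27) (.e (nat_lit 491559) (nat_lit 10) (.e (nat_lit 344091) (nat_lit 18) (.e (nat_lit 6923) (nat_lit 371) (.e (nat_lit 2427) (nat_lit 157) .nil))))))) (.g (nat_lit 1) (.e (nat_lit 72500) (nat_lit 0) .nil) .nil))) 
(.lf (nat_lit 464435) (.g (nat_lit 2663) (.e (nat_lit 3102) (nat_lit 192) (.e (nat_lit 491560) (nat_lit 10) (.e (nat_lit 344115) (nat_lit 20) (.e (nat_lit 507908) (nat_lit 0) (.e (nat_lit 5410) (nat_lit 303) (.e (nat_lit 73743) (nat_lit 1) (.e (nat_lit 499846) (nat_lit 5) .nil))))))) (.g (nat_lit 1) (.e (nat_lit 73271) (nat_lit 0) .nil) .nil)))) (.nd (nat_lit 9) 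
(.lf (nat_lit 464179) (.g (nat_lit 3281) (.e (nat_lit 3098) (nat_lit 192) (.e (nat_lit 491569) (nat_lit 13) (.e (nat_lit 393301) (nat_lit 27) (.e (nat_lit 491558) (nat_lit 10) (.e (nat_lit 344091) (nat_lit 18) (.e (nat_lit 6923) (nat_lit 371) (.e (nat_lit 2422) (nat_lit 157) .nil))))))) (.g (nat_lit 1) (.e (nat_lit 72956) (nat_lit 0) .nil) .nil))) 
(.lf (nat_lit 464691) (.g (nat_lit 4039) (.e (nat_lit 3230) (nat_lit 197) (.e (nat_lit 532503) (nat_lit 1) (.e (nat_lit 57931) (nat_lit 282) (.e (nat_lit 163867) (nat_lit 2) (.e (nat_lit 196670) (nat_lit 14) (.e (nat_lit 73746) (nat_lit 3) (.e (nat_lit 516129) (nat_lit 3) (.e (nat_lit 221202) (nat_lit 20) .nil)))))))) (.g (nat_lit 1) (.e (nat_lit 73671) (nat_lit 0) .nil) .nil))))) 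
(.nd (nat_lit 8) (.nd (nat_lit 9) 
(.lf (nat_lit 464051) (.g (nat_lit 4606) (.e (nat_lit 3098) (nat_lit 192) (.e (nat_lit 491546) (nat_lit 9) (.e (nat_lit 336028) (nat_lit 3) (.e (nat_lit 98350) (nat_lit 24) (.e (nat_lit 409649) (nat_lit 18) (.e (nat_lit 303111) (nat_lit 0) (.e (nat_lit 3271) (nat_lit 199) (.e (nat_lit 548898) (nat_lit 14) .nil)))))))) (.g (nat_lit 1) (.e (nat_lit 72697) (nat_lit 0) .nil) .nil))) 
(.lf (nat_lit 464563) (.g (nat_lit 3000) (.e (nat_lit 3105) (nat_lit 192) (.e (nat_lit 491569) (nat_lit 13) (.e (nat_lit 393301) (nat_lit 27) (.e (nat_lit 491560) (nat_lit 10) (.e (nat_lit 344094) (nat_lit 18) .nil))))) (.g (nat_lit 0) (.e (nat_lit 73417) (nat_lit 0) .nil) .nil)))) (.nd (nat_lit 9) 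
(.lf (nat_lit 464307) (.g (nat_lit 3034) (.e (nat_lit 3098) (nat_lit 192) (.e (nat_lit 491569) (nat_lit 13) (.e (nat_lit 393301) (nat_lit 27) (.e (nat_lit 491560) (nat_lit 10) (.e (nat_lit 344096) (nat_lit 18) (.e (nat_lit 6848) (nat_lit 371) (.e (nat_lit 2450) (nat_lit 157) .nil))))))) (.g (nat_lit 1) (.e (nat_lit 73084) (nat_lit 0) .nil) .nil))) 
(.lf (nat_lit 464819) (.g (nat_lit 2166) (.e (nat_lit 3231) (nat_lit 197) (.e (nat_lit 532503) (nat_lit 1) (.e (nat_lit 57844) (nat_lit 252) (.e (nat_lit 57406) (nat_lit 12) (.e (nat_lit 336367) (nat_lit 27) .nil))))) (.g (nat_lit 0) (.e (nat_lit 73878) (nat_lit 0) .nil) .nil)))))) (.nd (nat_lit 7) (.nd (nat_lit 8) (.nd (nat_lit 9) 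
(.lf (nat_lit 463987) (.g (nat_lit 4164) (.e (nat_lit 3097) (nat_lit 192) (.e (nat_lit 491566) (nat_lit 12) (.e (nat_lit 385074) (nat_lit 31) (.e (nat_lit 573493) (nat_lit 15) (.e (nat_lit 81951) (nat_lit 22) (.e (nat_lit 90134) (nat_lit 9) .nil)))))) (.g (nat_lit 1) (.e (nat_lit 72592) (nat_lit 0) .nil) .nil))) 
(.lf (nat_lit 464499) (.g (nat_lit 3286) (.e (nat_lit 3104) (nat_lit 192) (.e (nat_lit 491569) (nat_lit 13) (.e (nat_lit 393301) (nat_lit 27) (.e (nat_lit 491558) (nat_lit 10) (.e (nat_lit 344088) (nat_lit 18) .nil))))) (.g (nat_lit 0) (.e (nat_lit 73342) (nat_lit 0) .nil) .nil)))) (.nd (nat_lit 9) 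
(.lf (nat_lit 464243) (.g (nat_lit 3006) (.e (nat_lit 3098) (nat_lit 192) (.e (nat_lit 491569) (nat_lit 13) (.e (nat_lit 393301) (nat_lit 27) (.e (nat_lit 491560) (nat_lit 10) (.e (nat_lit 344088) (nat_lit 18) (.e (nat_lit 6848) (nat_lit 371) (.e (nat_lit 2441) (nat_lit 157) .nil))))))) (.g (nat_lit 1) (.e (nat_lit 73020) (nat_lit 0) .nil) .nil))) 
(.lf (nat_lit 464755) (.g (nat_lit 4552) (.e (nat_lit 3230) (nat_lit 197) (.e (nat_lit 532535) (nat_lit 9) (.e (nat_lit 336099) (nat_lit 9) (.e (nat_lit 336028) (nat_lit 3) (.e (nat_lit 98349) (nat_lit 24) (.e (nat_lit 409644) (nat_lit 18) (.e (nat_lit 303112) (nat_lit 0) .nil))))))) (.g (nat_lit 1) (.e (nat_lit 73794) (nat_lit 0) .nil) .nil))))) (.nd (nat_lit 8) (.nd (nat_lit 9) 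
(.lf (nat_lit 464115) (.g (nat_lit 2001) (.e (nat_lit 3098) (nat_lit 192) (.e (nat_lit 491566) (nat_lit 12) (.e (nat_lit 385073) (nat_lit 31) (.e (nat_lit 573481) (nat_lit 13) (.e (nat_lit 65604) (nat_lit 9) (.e (nat_lit 336013) (nat_lit 2) (.e (nat_lit 90134) (nat_lit 9) .nil))))))) (.g (nat_lit 1) (.e (nat_lit 72812) (nat_lit 0) .nil) .nil))) 
(.lf (nat_lit 464627) (.g (nat_lit 1146) (.e (nat_lit 3228) (nat_lit 197) (.e (nat_lit 532550) (nat_lit 12) (.e (nat_lit 360474) (nat_lit 8) .nil))) (.g (nat_lit 0) (.e (nat_lit 73588) (nat_lit 0) .nil) .nil)))) (.nd (nat_lit 9) 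
(.lf (nat_lit 464371) (.g (nat_lit 802) (.e (nat_lit 3100) (nat_lit 192) (.e (nat_lit 491560) (nat_lit 10) (.e (nat_lit 344117) (nat_lit 21) .nil))) (.g (nat_lit 0) (.e (nat_lit 73203) (nat_lit 0) .nil) .nil))) 
(.lf (nat_lit 464883) (.g (nat_lit 1468) (.e (nat_lit 3234) (nat_lit 197) (.e (nat_lit 532510) (nat_lit 2) (.e (nat_lit 106536) (nat_lit 11) (.e (nat_lit 16413) (nat_lit 2) (.e (nat_lit 196674) (nat_lit 15) (.e (nat_lit 89856) (nat_lit 0) .nil)))))) (.g (nat_lit 1) (.e (nat_lit 74025) (nat_lit 0) .nil) .nil))))))))) 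
(.nd (nat_lit 4) (.nd (nat_lit 5) (.nd (nat_lit 6) (.nd (nat_lit 7) (.nd (nat_lit 8) 
(.nd (nat_lit 9) 
(.lf (nat_lit 463883) (.g (nat_lit 1336) (.e (nat_lit 3096) (nat_lit 192) (.e (nat_lit 491565) (nat_lit 12) (.e (nat_lit 385102) (nat_lit 50) (.e (nat_lit 786483) (nat_lit 30) (.e (nat_lit 360484) (nat_lit 15) (.e (nat_lit 647177) (nat_lit 0) .nil)))))) (.g (nat_lit 1) (.e (nat_lit 72444) (nat_lit 0) .nil) .nil))) 
(.lf (nat_lit 464395) (.g (nat_lit 1559) (.e (nat_lit 3102) (nat_lit 192) (.e (nat_lit 491558) (nat_lit 10) (.e (nat_lit 344115) (nat_lit 20) (.e (nat_lit 507907) (nat_lit 0) (.e (nat_lit 5412) (nat_lit 303) (.e (nat_lit 73739) (nat_lit 1) (.e (nat_lit 499835) (nat_lit 5) .nil))))))) (.g (nat_lit 1) (.e (nat_lit 73231) (nat_lit 0) .nil) .nil)))) (.nd (nat_lit 9) 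
(.lf (nat_lit 464139) (.g (nat_lit 1889) (.e (nat_lit 3098) (nat_lit 192) (.e (nat_lit 491568) (nat_lit 13) (.e (nat_lit 393301) (nat_lit 27) (.e (nat_lit 491558) (nat_lit 10) (.e (nat_lit 344091) (nat_lit 18) .nil))))) (.g (nat_lit 0) (.e (nat_lit 72913) (nat_lit 0) .nil) .nil))) 
(.lf (nat_lit 464651) (.g (nat_lit 2033) (.e (nat_lit 3230) (nat_lit 197) (.e (nat_lit 532501) (nat_lit 1) (.e (nat_lit 57851) (nat_lit 252) (.e (nat_lit 57406) (nat_lit 12) (.e (nat_lit 336456) (nat_lit 34) .nil))))) (.g (nat_lit 0) (.e (nat_lit 73622) (nat_lit 0) .nil) .nil))))) (.nd (nat_lit 8) (.nd (nat_lit 9) 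
(.lf (nat_lit 464011) (.g (nat_lit 3023) (.e (nat_lit 3098) (nat_lit 192) (.e (nat_lit 491537) (nat_lit 2) (.e (nat_lit 90170) (nat_lit 13) (.e (nat_lit 172106) (nat_lit 10) (.e (nat_lit 434227) (nat_lit 20) (.e (nat_lit 507929) (nat_lit 10) (.e (nat_lit 5628) (nat_lit 312) .nil))))))) (.g (nat_lit 1) (.e (nat_lit 72656) (nat_lit 0) .nil) .nil))) 
(.lf (nat_lit 464523) (.g (nat_lit 3856) (.e (nat_lit 3105) (nat_lit 192) (.e (nat_lit 491566) (nat_lit 12) (.e (nat_lit 385074) (nat_lit 31) (.e (nat_lit 573491) (nat_lit 15) (.e (nat_lit 81951) (nat_lit 22) (.e (nat_lit 90133) (nat_lit 9) .nil)))))) (.g (nat_lit 1) (.e (nat_lit 73371) (nat_lit 0) .nil) .nil)))) (.nd (nat_lit 9) 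
(.lf (nat_lit 464267) (.g (nat_lit 2803) (.e (nat_lit 3098) (nat_lit 192) (.e (nat_lit 491569) (nat_lit 13) (.e (nat_lit 393301) (nat_lit 27) (.e (nat_lit 491560) (nat_lit 10) (.e (nat_lit 344089) (nat_lit 18) (.e (nat_lit 6864) (nat_lit 371) (.e (nat_lit 2429) (nat_lit 157) .nil))))))) (.g (nat_lit 1) (.e (nat_lit 73044) (nat_lit 0) .nil) .nil))) 
(.lf (nat_lit 464779) (.g (nat_lit 3400) (.e (nat_lit 3230) (nat_lit 197) (.e (nat_lit 532550) (nat_lit 12) (.e (nat_lit 360474) (nat_lit 8) (.e (nat_lit 557094) (nat_lit 12) (.e (nat_lit 164022) (nat_lit 46) (.e (nat_lit 704735) (nat_lit 11) (.e (nat_lit 16396) (nat_lit 0) .nil))))))) (.g (nat_lit 1) (.e (nat_lit 73835) (nat_lit 0) .nil) .nil)))))) 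
(.nd (nat_lit 7) (.nd (nat_lit 8) (.nd (nat_lit 9) 
(.lf (nat_lit 463947) (.g (nat_lit 2894) (.e (nat_lit 3096) (nat_lit 192) (.e (nat_lit 491569) (nat_lit 13) (.e (nat_lit 393301) (nat_lit 27) (.e (nat_lit 491560) (nat_lit 10) (.e (nat_lit 344171) (nat_lit 41) (.e (nat_lit 753674) (nat_lit 5) .nil)))))) (.g (nat_lit 1) (.e (nat_lit 72524) (nat_lit 0) .nil) .nil))) 
(.lf (nat_lit 464459) (.g (nat_lit 1979) (.e (nat_lit 3102) (nat_lit 192) (.e (nat_lit 491560) (nat_lit 10) (.e (nat_lit 344126) (nat_lit 25) (.e (nat_lit 548889) (nat_lit 9) .nil)))) (.g (nat_lit 0) (.e (nat_lit 73297) (nat_lit 0) .nil) .nil)))) (.nd (nat_lit 9) 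
(.lf (nat_lit 464203) (.g (nat_lit 3253) (.e (nat_lit 3098) (nat_lit 192) (.e (nat_lit 491569) (nat_lit 13) (.e (nat_lit 393301) (nat_lit 27) (.e (nat_lit 491559) (nat_lit 10) (.e (nat_lit 344091) (nat_lit 18) .nil))))) (.g (nat_lit 0) (.e (nat_lit 72980) (nat_lit 0) .nil) .nil))) 
(.lf (nat_lit 464715) (.g (nat_lit 2889) (.e (nat_lit 3230) (nat_lit 197) (.e (nat_lit 532503) (nat_lit 1) (.e (nat_lit 57931) (nat_lit 282) (.e (nat_lit 163874) (nat_lit 3) (.e (nat_lit 204862) (nat_lit 27) (.e (nat_lit 344117) (nat_lit 21) (.e (nat_lit 516130) (nat_lit 3) (.e (nat_lit 221196) (nat_lit 20) .nil)))))))) (.g (nat_lit 1) (.e (nat_lit 73701) (nat_lit 0) .nil) .nil))))) 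
(.nd (nat_lit 8) (.nd (nat_lit 9) 
(.lf (nat_lit 464075) (.g (nat_lit 851) (.e (nat_lit 3098) (nat_lit 192) (.e (nat_lit 491562) (nat_lit 12) (.e (nat_lit 385106) (nat_lit 50) .nil))) (.g (nat_lit 0) (.e (nat_lit 72730) (nat_lit 0) .nil) .nil))) 
(.lf (nat_lit 464587) (.g (nat_lit 2018) (.e (nat_lit 3114) (nat_lit 193) (.e (nat_lit 500075) (nat_lit 20) (.e (nat_lit 81955) (nat_lit 23) (.e (nat_lit 98350) (nat_lit 24) (.e (nat_lit 409644) (nat_lit 18) (.e (nat_lit 303106) (nat_lit 0) .nil)))))) (.g (nat_lit 1) (.e (nat_lit 73465) (nat_lit 0) .nil) .nil)))) (.nd (nat_lit 9) 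
(.lf (nat_lit 464331) (.g (nat_lit 763) (.e (nat_lit 3098) (nat_lit 192) (.e (nat_lit 491570) (nat_lit 13) (.e (nat_lit 393251) (nat_lit 18) .nil))) (.g (nat_lit 0) (.e (nat_lit 73110) (nat_lit 0) .nil) .nil))) 
(.lf (nat_lit 464843) (.g (nat_lit 5391) (.e (nat_lit 3231) (nat_lit 197) (.e (nat_lit 532550) (nat_lit 12) (.e (nat_lit 360475) (nat_lit 8) (.e (nat_lit 557091) (nat_lit 12) (.e (nat_lit 163843) (nat_lit 0) .nil))))) (.g (nat_lit 0) (.e (nat_lit 73941) (nat_lit 0) .nil) .nil))))))) (.nd (nat_lit 6) (.nd (nat_lit 7) (.nd (nat_lit 8) (.nd (nat_lit 9) 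
(.lf (nat_lit 463915) (.g (nat_lit 2858) (.e (nat_lit 3096) (nat_lit 192) (.e (nat_lit 491569) (nat_lit 13) (.e (nat_lit 393301) (nat_lit 27) (.e (nat_lit 491558) (nat_lit 10) (.e (nat_lit 344171) (nat_lit 41) .nil))))) (.g (nat_lit 0) (.e (nat_lit 72492) (nat_lit 0) .nil) .nil))) 
(.lf (nat_lit 464427) (.g (nat_lit 2578) (.e (nat_lit 3102) (nat_lit 192) (.e (nat_lit 491560) (nat_lit 10) (.e (nat_lit 344115) (nat_lit 20) (.e (nat_lit 507906) (nat_lit 0) (.e (nat_lit 5412) (nat_lit 303) (.e (nat_lit 73739) (nat_lit 1) (.e (nat_lit 499844) (nat_lit 5) .nil))))))) (.g (nat_lit 1) (.e (nat_lit 73263) (nat_lit 0) .nil) .nil)))) (.nd (nat_lit 9) 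
(.lf (nat_lit 464171) (.g (nat_lit 2334) (.e (nat_lit 3098) (nat_lit 192) (.e (nat_lit 491569) (nat_lit 13) (.e (nat_lit 393301) (nat_lit 27) (.e (nat_lit 491558) (nat_lit 10) (.e (nat_lit 344091) (nat_lit 18) .nil))))) (.g (nat_lit 0) (.e (nat_lit 72948) (nat_lit 0) .nil) .nil))) 
(.lf (nat_lit 464683) (.g (nat_lit 2920) (.e (nat_lit 3230) (nat_lit 197) (.e (nat_lit 532503) (nat_lit 1) (.e (nat_lit 57931) (nat_lit 282) (.e (nat_lit 163867) (nat_lit 2) (.e (nat_lit 196663) (nat_lit 13) (.e (nat_lit 65571) (nat_lit 3) (.e (nat_lit 98342) (nat_lit 20) (.e (nat_lit 221198) (nat_lit 20) .nil)))))))) (.g (nat_lit 1) (.e (nat_lit 73663) (nat_lit 0) .nil) .nil))))) 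
(.nd (nat_lit 8) (.nd (nat_lit 9) 
(.lf (nat_lit 464043) (.g (nat_lit 2203) (.e (nat_lit 3098) (nat_lit 192) (.e (nat_lit 491540) (nat_lit 3) (.e (nat_lit 98365) (nat_lit 26) (.e (nat_lit 426298) (nat_lit 11) (.e (nat_lit 458789) (nat_lit 23) (.e (nat_lit 532481) (nat_lit 0) (.e (nat_lit 6619) (nat_lit 357) .nil))))))) (.g (nat_lit 1) (.e (nat_lit 72688) (nat_lit 0) .nil) .nil))) 
(.lf (nat_lit 464555) (.g (nat_lit 3577) (.e (nat_lit 3105) (nat_lit 192) (.e (nat_lit 491569) (nat_lit 13) (.e (nat_lit 393301) (nat_lit 27) (.e (nat_lit 491559) (nat_lit 10) (.e (nat_lit 344170) (nat_lit 41) .nil))))) (.g (nat_lit 0) (.e (nat_lit 73409) (nat_lit 0) .nil) .nil)))) (.nd (nat_lit 9) 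
(.lf (nat_lit 464299) (.g (nat_lit 3737) (.e (nat_lit 3098) (nat_lit 192) (.e (nat_lit 491569) (nat_lit 13) (.e (nat_lit 393301) (nat_lit 27) (.e (nat_lit 491560) (nat_lit 10) (.e (nat_lit 344093) (nat_lit 18) .nil))))) (.g (nat_lit 0) (.e (nat_lit 73076) (nat_lit 0) .nil) .nil))) 
(.lf (nat_lit 464811) (.g (nat_lit 4486) (.e (nat_lit 3230) (nat_lit 197) (.e (nat_lit 532569) (nat_lit 16) (.e (nat_lit 401451) (nat_lit 12) (.e (nat_lit 475185) (nat_lit 29) (.e (nat_lit 557109) (nat_lit 15) .nil))))) (.g (nat_lit 0) (.e (nat_lit 73870) (nat_lit 0) .nil) .nil)))))) (.nd (nat_lit 7) (.nd (nat_lit 8) (.nd (nat_lit 9) 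
(.lf (nat_lit 463979) (.g (nat_lit 506) (.e (nat_lit 3097) (nat_lit 192) (.e (nat_lit 491566) (nat_lit 12) (.e (nat_lit 385074) (nat_lit 31) .nil))) (.g (nat_lit 0) (.e (nat_lit 72584) (nat_lit 0) .nil) .nil))) 
(.lf (nat_lit 464491) (.g (nat_lit 2244) (.e (nat_lit 3104) (nat_lit 192) (.e (nat_lit 491568) (nat_lit 13) (.e (nat_lit 393301) (nat_lit 27) (.e (nat_lit 491558) (nat_lit 10) (.e (nat_lit 344091) (nat_lit 18) .nil))))) (.g (nat_lit 0) (.e (nat_lit 73334) (nat_lit 0) .nil) .nil)))) (.nd (nat_lit 9) 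
(.lf (nat_lit 464235) (.g (nat_lit 3385) (.e (nat_lit 3098) (nat_lit 192) (.e (nat_lit 491569) (nat_lit 13) (.e (nat_lit 393301) (nat_lit 27) (.e (nat_lit 491560) (nat_lit 10) (.e (nat_lit 344087) (nat_lit 18) (.e (nat_lit 6853) (nat_lit 371) (.e (nat_lit 2433) (nat_lit 157) .nil))))))) (.g (nat_lit 1) (.e (nat_lit 73012) (nat_lit 0) .nil) .nil))) 
(.lf (nat_lit 464747) (.g (nat_lit 2622) (.e (nat_lit 3230) (nat_lit 197) (.e (nat_lit 532535) (nat_lit 9) (.e (nat_lit 336099) (nat_lit 9) (.e (nat_lit 336013) (nat_lit 2) .nil)))) (.g (nat_lit 0) (.e (nat_lit 73783) (nat_lit 0) .nil) .nil))))) (.nd (nat_lit 8) (.nd (nat_lit 9) 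
(.lf (nat_lit 464107) (.g (nat_lit 713) (.e (nat_lit 3098) (nat_lit 192) (.e (nat_lit 491566) (nat_lit 12) (.e (nat_lit 385063) (nat_lit 25) .nil))) (.g (nat_lit 0) (.e (nat_lit 72803) (nat_lit 0) .nil) .nil))) 
(.lf (nat_lit 464619) (.g (nat_lit 4633) (.e (nat_lit 3227) (nat_lit 197) (.e (nat_lit 532550) (nat_lit 12) (.e (nat_lit 360474) (nat_lit 8) (.e (nat_lit 557093) (nat_lit 12) (.e (nat_lit 164023) (nat_lit 46) (.e (nat_lit 704737) (nat_lit 11) (.e (nat_lit 16386) (nat_lit 0) .nil))))))) (.g (nat_lit 1) (.e (nat_lit 73576) (nat_lit 0) .nil) .nil)))) (.nd (nat_lit 9) 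
(.lf (nat_lit 464363) (.g (nat_lit 1368) (.e (nat_lit 3099) (nat_lit 192) (.e (nat_lit 491563) (nat_lit 12) (.e (nat_lit 385102) (nat_lit 50) .nil))) (.g (nat_lit 0) (.e (nat_lit 73182) (nat_lit 0) .nil) .nil))) 
(.lf (nat_lit 464875) (.g (nat_lit 1980) (.e (nat_lit 3234) (nat_lit 197) (.e (nat_lit 532501) (nat_lit 1) (.e (nat_lit 57851) (nat_lit 252) (.e (nat_lit 57406) (nat_lit 12) (.e (nat_lit 336456) (nat_lit 34) (.e (nat_lit 483391) (nat_lit 23) (.e (nat_lit 336307) (nat_lit 15) .nil))))))) (.g (nat_lit 1) (.e (nat_lit 74017) (nat_lit 0) .nil) .nil)))))))) 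
(.nd (nat_lit 5) (.nd (nat_lit 6) (.nd (nat_lit 7) (.nd (nat_lit 8) (.nd (nat_lit 9) 
(.lf (nat_lit 463899) (.g (nat_lit 3158) (.e (nat_lit 3096) (nat_lit 192) (.e (nat_lit 491566) (nat_lit 12) (.e (nat_lit 385104) (nat_lit 50) (.e (nat_lit 786483) (nat_lit 30) (.e (nat_lit 360484) (nat_lit 15) (.e (nat_lit 647171) (nat_lit 0) .nil)))))) (.g (nat_lit 1) (.e (nat_lit 72476) (nat_lit 0) .nil) .nil))) 
(.lf (nat_lit 464411) (.g (nat_lit 4308) (.e (nat_lit 3102) (nat_lit 192) (.e (nat_lit 491558) (nat_lit 10) (.e (nat_lit 344115) (nat_lit 20) (.e (nat_lit 507923) (nat_lit 6) (.e (nat_lit 286747) (nat_lit 9) (.e (nat_lit 336013) (nat_lit 2) (.e (nat_lit 90141) (nat_lit 9) .nil))))))) (.g (nat_lit 1) (.e (nat_lit 73247) (nat_lit 0) .nil) .nil)))) (.nd (nat_lit 9) 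
(.lf (nat_lit 464155) (.g (nat_lit 1074) (.e (nat_lit 3098) (nat_lit 192) (.e (nat_lit 491569) (nat_lit 13) (.e (nat_lit 393251) (nat_lit 18) .nil))) (.g (nat_lit 0) (.e (nat_lit 72932) (nat_lit 0) .nil) .nil))) 
(.lf (nat_lit 464667) (.g (nat_lit 1209) (.e (nat_lit 3230) (nat_lit 197) (.e (nat_lit 532503) (nat_lit 1) (.e (nat_lit 57848) (nat_lit 252) (.e (nat_lit 57407) (nat_lit 12) .nil)))) (.g (nat_lit 0) (.e (nat_lit 73647) (nat_lit 0) .nil) .nil))))) (.nd (nat_lit 8) (.nd (nat_lit 9) 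
(.lf (nat_lit 464027) (.g (nat_lit 3159) (.e (nat_lit 3098) (nat_lit 192) (.e (nat_lit 491537) (nat_lit 2) (.e (nat_lit 90170) (nat_lit 13) (.e (nat_lit 172113) (nat_lit 10) (.e (nat_lit 434227) (nat_lit 20) (.e (nat_lit 507928) (nat_lit 10) (.e (nat_lit 5628) (nat_lit 312) .nil))))))) (.g (nat_lit 1) (.e (nat_lit 72672) (nat_lit 0) .nil) .nil))) 
(.lf (nat_lit 464539) (.g (nat_lit 3166) (.e (nat_lit 3105) (nat_lit 192) (.e (nat_lit 491568) (nat_lit 13) (.e (nat_lit 393301) (nat_lit 27) (.e (nat_lit 491560) (nat_lit 10) (.e (nat_lit 344096) (nat_lit 18) .nil))))) (.g (nat_lit 0) (.e (nat_lit 73393) (nat_lit 0) .nil) .nil)))) (.nd (nat_lit 9) 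
(.lf (nat_lit 464283) (.g (nat_lit 3457) (.e (nat_lit 3098) (nat_lit 192) (.e (nat_lit 491569) (nat_lit 13) (.e (nat_lit 393301) (nat_lit 27) (.e (nat_lit 491560) (nat_lit 10) (.e (nat_lit 344090) (nat_lit 18) (.e (nat_lit 6923) (nat_lit 371) (.e (nat_lit 2422) (nat_lit 157) .nil))))))) (.g (nat_lit 1) (.e (nat_lit 73060) (nat_lit 0) .nil) .nil))) 
(.lf (nat_lit 464795) (.g (nat_lit 2616) (.e (nat_lit 3230) (nat_lit 197) (.e (nat_lit 532550) (nat_lit 12) (.e (nat_lit 360475) (nat_lit 8) (.e (nat_lit 557091) (nat_lit 12) .nil)))) (.g (nat_lit 0) (.e (nat_lit 73853) (nat_lit 0) .nil) .nil)))))) (.nd (nat_lit 7) (.nd (nat_lit 8) (.nd (nat_lit 9) 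
(.lf (nat_lit 463963) (.g (nat_lit 1964) (.e (nat_lit 3096) (nat_lit 192) (.e (nat_lit 491571) (nat_lit 13) (.e (nat_lit 393251) (nat_lit 18) (.e (nat_lit 164163) (nat_lit 152) .nil)))) (.g (nat_lit 0) (.e (nat_lit 72549) (nat_lit 0) .nil) .nil))) 
(.lf (nat_lit 464475) (.g (nat_lit 2785) (.e (nat_lit 3103) (nat_lit 192) (.e (nat_lit 491566) (nat_lit 12) (.e (nat_lit 385074) (nat_lit 31) (.e (nat_lit 573493) (nat_lit 15) .nil)))) (.g (nat_lit 0) (.e (nat_lit 73316) (nat_lit 0) .nil) .nil)))) (.nd (nat_lit 9) 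
(.lf (nat_lit 464219) (.g (nat_lit 3460) (.e (nat_lit 3098) (nat_lit 192) (.e (nat_lit 491569) (nat_lit 13) (.e (nat_lit 393301) (nat_lit 27) (.e (nat_lit 491559) (nat_lit 10) (.e (nat_lit 344170) (nat_lit 41) (.e (nat_lit 753672) (nat_lit 5) .nil)))))) (.g (nat_lit 1) (.e (nat_lit 72996) (nat_lit 0) .nil) .nil))) 
(.lf (nat_lit 464731) (.g (nat_lit 1714) (.e (nat_lit 3230) (nat_lit 197) (.e (nat_lit 532504) (nat_lit 1) (.e (nat_lit 57851) (nat_lit 252) (.e (nat_lit 57406) (nat_lit 12) (.e (nat_lit 336456) (nat_lit 34) (.e (nat_lit 483387) (nat_lit 23) (.e (nat_lit 336280) (nat_lit 15) .nil))))))) (.g (nat_lit 1) (.e (nat_lit 73720) (nat_lit 0) .nil) .nil))))) (.nd (nat_lit 8) (.nd (nat_lit 9) 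
(.lf (nat_lit 464091) (.g (nat_lit 5301) (.e (nat_lit 3098) (nat_lit 192) (.e (nat_lit 491565) (nat_lit 12) (.e (nat_lit 385072) (nat_lit 31) (.e (nat_lit 573493) (nat_lit 15) (.e (nat_lit 81953) (nat_lit 22) (.e (nat_lit 90134) (nat_lit 9) .nil)))))) (.g (nat_lit 1) (.e (nat_lit 72747) (nat_lit 0) .nil) .nil))) 
(.lf (nat_lit 464603) (.g (nat_lit 3565) (.e (nat_lit 3141) (nat_lit 193) (.e (nat_lit 500065) (nat_lit 18) (.e (nat_lit 65624) (nat_lit 12) (.e (nat_lit 385074) (nat_lit 31) (.e (nat_lit 573487) (nat_lit 14) (.e (nat_lit 73780) (nat_lit 32) (.e (nat_lit 2505) (nat_lit 157) .nil))))))) (.g (nat_lit 1) (.e (nat_lit 73503) (nat_lit 0) .nil) .nil)))) (.nd (nat_lit 9) 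
(.lf (nat_lit 464347) (.g (nat_lit 2554) (.e (nat_lit 3098) (nat_lit 192) (.e (nat_lit 491571) (nat_lit 13) (.e (nat_lit 393252) (nat_lit 18) (.e (nat_lit 164180) (nat_lit 154) (.e (nat_lit 57420) (nat_lit 13) (.e (nat_lit 344132) (nat_lit 26) (.e (nat_lit 557072) (nat_lit 9) .nil))))))) (.g (nat_lit 1) (.e (nat_lit 73142) (nat_lit 0) .nil) .nil))) 
(.lf (nat_lit 464859) (.g (nat_lit 4445) (.e (nat_lit 3232) (nat_lit 197) (.e (nat_lit 532550) (nat_lit 12) (.e (nat_lit 360474) (nat_lit 8) (.e (nat_lit 557093) (nat_lit 12) (.e (nat_lit 164022) (nat_lit 46) .nil))))) (.g (nat_lit 0) (.e (nat_lit 73993) (nat_lit 0) .nil) .nil))))))) (.nd (nat_lit 6) (.nd (nat_lit 7) (.nd (nat_lit 8) (.nd (nat_lit 9) 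
(.lf (nat_lit 463931) (.g (nat_lit 3523) (.e (nat_lit 3096) (nat_lit 192) (.e (nat_lit 491569) (nat_lit 13) (.e (nat_lit 393301) (nat_lit 27) (.e (nat_lit 491559) (nat_lit 10) (.e (nat_lit 344172) (nat_lit 41) (.e (nat_lit 753674) (nat_lit 5) .nil)))))) (.g (nat_lit 1) (.e (nat_lit 72508) (nat_lit 0) .nil) .nil))) 
(.lf (nat_lit 464443) (.g (nat_lit 1573) (.e (nat_lit 3102) (nat_lit 192) (.e (nat_lit 491560) (nat_lit 10) (.e (nat_lit 344117) (nat_lit 21) (.e (nat_lit 516098) (nat_lit 0) .nil)))) (.g (nat_lit 0) (.e (nat_lit 73281) (nat_lit 0) .nil) .nil)))) (.nd (nat_lit 9) 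
(.lf (nat_lit 464187) (.g (nat_lit 2647) (.e (nat_lit 3098) (nat_lit 192) (.e (nat_lit 491569) (nat_lit 13) (.e (nat_lit 393301) (nat_lit 27) (.e (nat_lit 491558) (nat_lit 10) (.e (nat_lit 344096) (nat_lit 18) (.e (nat_lit 6848) (nat_lit 371) (.e (nat_lit 2450) (nat_lit 157) .nil))))))) (.g (nat_lit 1) (.e (nat_lit 72964) (nat_lit 0) .nil) .nil))) 
(.lf (nat_lit 464699) (.g (nat_lit 3467) (.e (nat_lit 3230) (nat_lit 197) (.e (nat_lit 532503) (nat_lit 1) (.e (nat_lit 57931) (nat_lit 282) (.e (nat_lit 163869) (nat_lit 2) (.e (nat_lit 196668) (nat_lit 14) (.e (nat_lit 73747) (nat_lit 3) (.e (nat_lit 516131) (nat_lit 3) (.e (nat_lit 221196) (nat_lit 20) .nil)))))))) (.g (nat_lit 1) (.e (nat_lit 73683) (nat_lit 0) .nil) .nil))))) 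
(.nd (nat_lit 8) (.nd (nat_lit 9) 
(.lf (nat_lit 464059) (.g (nat_lit 965) (.e (nat_lit 3098) (nat_lit 192) (.e (nat_lit 491548) (nat_lit 9) (.e (nat_lit 336306) (nat_lit 15) (.e (nat_lit 3308) (nat_lit 202) (.e (nat_lit 573493) (nat_lit 15) (.e (nat_lit 81953) (nat_lit 22) (.e (nat_lit 98048) (nat_lit 9) .nil))))))) (.g (nat_lit 1) (.e (nat_lit 72707) (nat_lit 0) .nil) .nil))) 
(.lf (nat_lit 464571) (.g (nat_lit 574) (.e (nat_lit 7936) (nat_lit 192) (.e (nat_lit 491566) (nat_lit 12) (.e (nat_lit 385072) (nat_lit 31) .nil))) (.g (nat_lit 0) (.e (nat_lit 73445) (nat_lit 0) .nil) .nil)))) (.nd (nat_lit 9) 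
(.lf (nat_lit 464315) (.g (nat_lit 3795) (.e (nat_lit 3098) (nat_lit 192) (.e (nat_lit 491569) (nat_lit 13) (.e (nat_lit 393301) (nat_lit 27) (.e (nat_lit 491560) (nat_lit 10) (.e (nat_lit 344097) (nat_lit 18) (.e (nat_lit 6902) (nat_lit 371) (.e (nat_lit 2444) (nat_lit 157) .nil))))))) (.g (nat_lit 1) (.e (nat_lit 73092) (nat_lit 0) .nil) .nil))) 
(.lf (nat_lit 464827) (.g (nat_lit 1912) (.e (nat_lit 3231) (nat_lit 197) (.e (nat_lit 532510) (nat_lit 2) (.e (nat_lit 106536) (nat_lit 11) (.e (nat_lit 16416) (nat_lit 3) (.e (nat_lit 204876) (nat_lit 31) (.e (nat_lit 376833) (nat_lit 0) .nil)))))) (.g (nat_lit 1) (.e (nat_lit 73886) (nat_lit 0) .nil) .nil)))))) (.nd (nat_lit 7) (.nd (nat_lit 8) (.nd (nat_lit 9) 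
(.lf (nat_lit 463995) (.g (nat_lit 3094) (.e (nat_lit 3097) (nat_lit 192) (.e (nat_lit 491569) (nat_lit 13) (.e (nat_lit 393301) (nat_lit 27) (.e (nat_lit 491558) (nat_lit 10) (.e (nat_lit 344091) (nat_lit 18) .nil))))) (.g (nat_lit 0) (.e (nat_lit 72621) (nat_lit 0) .nil) .nil))) 
(.lf (nat_lit 464507) (.g (nat_lit 3106) (.e (nat_lit 3104) (nat_lit 192) (.e (nat_lit 491569) (nat_lit 13) (.e (nat_lit 393301) (nat_lit 27) (.e (nat_lit 491560) (nat_lit 10) (.e (nat_lit 344094) (nat_lit 18) .nil))))) (.g (nat_lit 0) (.e (nat_lit 73350) (nat_lit 0) .nil) .nil)))) (.nd (nat_lit 9) 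
(.lf (nat_lit 464251) (.g (nat_lit 2958) (.e (nat_lit 3098) (nat_lit 192) (.e (nat_lit 491569) (nat_lit 13) (.e (nat_lit 393301) (nat_lit 27) (.e (nat_lit 491560) (nat_lit 10) (.e (nat_lit 344088) (nat_lit 18) (.e (nat_lit 6866) (nat_lit 371) (.e (nat_lit 2448) (nat_lit 157) .nil))))))) (.g (nat_lit 1) (.e (nat_lit 73028) (nat_lit 0) .nil) .nil))) 
(.lf (nat_lit 464763) (.g (nat_lit 3694) (.e (nat_lit 3230) (nat_lit 197) (.e (nat_lit 532535) (nat_lit 9) (.e (nat_lit 336176) (nat_lit 10) (.e (nat_lit 344130) (nat_lit 26) .nil)))) (.g (nat_lit 0) (.e (nat_lit 73808) (nat_lit 0) .nil) .nil))))) (.nd (nat_lit 8) (.nd (nat_lit 9) 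
(.lf (nat_lit 464123) (.g (nat_lit 3463) (.e (nat_lit 3098) (nat_lit 192) (.e (nat_lit 491566) (nat_lit 12) (.e (nat_lit 385074) (nat_lit 31) (.e (nat_lit 573482) (nat_lit 13) (.e (nat_lit 65589) (nat_lit 9) (.e (nat_lit 336013) (nat_lit 2) (.e (nat_lit 90134) (nat_lit 9) .nil))))))) (.g (nat_lit 1) (.e (nat_lit 72837) (nat_lit 0) .nil) .nil))) 
(.lf (nat_lit 464635) (.g (nat_lit 3282) (.e (nat_lit 3229) (nat_lit 197) (.e (nat_lit 532550) (nat_lit 12) (.e (nat_lit 360474) (nat_lit 8) (.e (nat_lit 557093) (nat_lit 12) (.e (nat_lit 164022) (nat_lit 46) .nil))))) (.g (nat_lit 0) (.e (nat_lit 73605) (nat_lit 0) .nil) .nil)))) (.nd (nat_lit 9) 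
(.lf (nat_lit 464379) (.g (nat_lit 1364) (.e (nat_lit 3101) (nat_lit 192) (.e (nat_lit 491563) (nat_lit 12) (.e (nat_lit 385102) (nat_lit 50) .nil))) (.g (nat_lit 0) (.e (nat_lit 73214) (nat_lit 0) .nil) .nil))) 
(.lf (nat_lit 464891) (.g (nat_lit 3822) (.e (nat_lit 3234) (nat_lit 197) (.e (nat_lit 532535) (nat_lit 9) (.e (nat_lit 336176) (nat_lit 10) (.e (nat_lit 344133) (nat_lit 26) .nil)))) (.g (nat_lit 0) (.e (nat_lit 74070) (nat_lit 0) .nil) .nil)))))))))) (.nd (nat_lit 3) (.nd (nat_lit 4) (.nd (nat_lit 5) (.nd (nat_lit 6) (.nd (nat_lit 7) (.nd (nat_lit 8) (.nd (nat_lit 9) 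
(.lf (nat_lit 463879) (.g (nat_lit 1398) (.e (nat_lit 3096) (nat_lit 192) (.e (nat_lit 491565) (nat_lit 12) (.e (nat_lit 385102) (nat_lit 50) (.e (nat_lit 786483) (nat_lit 30) (.e (nat_lit 360483) (nat_lit 15) (.e (nat_lit 647172) (nat_lit 0) .nil)))))) (.g (nat_lit 1) (.e (nat_lit 72440) (nat_lit 0) .nil) .nil))) 
(.lf (nat_lit 464391) (.g (nat_lit 1283) (.e (nat_lit 3102) (nat_lit 192) (.e (nat_lit 491558) (nat_lit 10) (.e (nat_lit 344115) (nat_lit 20) (.e (nat_lit 507907) (nat_lit 0) (.e (nat_lit 5409) (nat_lit 303) .nil))))) (.g (nat_lit 0) (.e (nat_lit 73227) (nat_lit 0) .nil) .nil)))) (.nd (nat_lit 9) 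
(.lf (nat_lit 464135) (.g (nat_lit 1948) (.e (nat_lit 3098) (nat_lit 192) (.e (nat_lit 491566) (nat_lit 12) (.e (nat_lit 385104) (nat_lit 50) (.e (nat_lit 786483) (nat_lit 30) (.e (nat_lit 368384) (nat_lit 16) .nil))))) (.g (nat_lit 0) (.e (nat_lit 72907) (nat_lit 0) .nil) .nil))) 
(.lf (nat_lit 464647) (.g (nat_lit 2941) (.e (nat_lit 3230) (nat_lit 197) (.e (nat_lit 532500) (nat_lit 1) (.e (nat_lit 57851) (nat_lit 252) (.e (nat_lit 57406) (nat_lit 12) (.e (nat_lit 336456) (nat_lit 34) (.e (nat_lit 483383) (nat_lit 23) (.e (nat_lit 336240) (nat_lit 15) .nil))))))) (.g (nat_lit 1) (.e (nat_lit 73618) (nat_lit 0) .nil) .nil))))) (.nd (nat_lit 8) (.nd (nat_lit 9) 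
(.lf (nat_lit 464007) (.g (nat_lit 3110) (.e (nat_lit 3098) (nat_lit 192) (.e (nat_lit 491537) (nat_lit 2) (.e (nat_lit 90170) (nat_lit 13) (.e (nat_lit 172106) (nat_lit 10) (.e (nat_lit 434227) (nat_lit 20) (.e (nat_lit 507928) (nat_lit 10) (.e (nat_lit 5627) (nat_lit 312) .nil))))))) (.g (nat_lit 1) (.e (nat_lit 72652) (nat_lit 0) .nil) .nil))) 
(.lf (nat_lit 464519) (.g (nat_lit 1482) (.e (nat_lit 3105) (nat_lit 192) (.e (nat_lit 491565) (nat_lit 12) (.e (nat_lit 385102) (nat_lit 50) (.e (nat_lit 786483) (nat_lit 30) (.e (nat_lit 360484) (nat_lit 15) .nil))))) (.g (nat_lit 0) (.e (nat_lit 73367) (nat_lit 0) .nil) .nil)))) (.nd (nat_lit 9) 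
(.lf (nat_lit 464263) (.g (nat_lit 3243) (.e (nat_lit 3098) (nat_lit 192) (.e (nat_lit 491569) (nat_lit 13) (.e (nat_lit 393301) (nat_lit 27) (.e (nat_lit 491560) (nat_lit 10) (.e (nat_lit 344088) (nat_lit 18) (.e (nat_lit 6923) (nat_lit 371) (.e (nat_lit 2448) (nat_lit 157) .nil))))))) (.g (nat_lit 1) (.e (nat_lit 73040) (nat_lit 0) .nil) .nil))) 
(.lf (nat_lit 464775) (.g (nat_lit 5608) (.e (nat_lit 3230) (nat_lit 197) (.e (nat_lit 532550) (nat_lit 12) (.e (nat_lit 360474) (nat_lit 8) (.e (nat_lit 557093) (nat_lit 12) (.e (nat_lit 164022) (nat_lit 46) (.e (nat_lit 704738) (nat_lit 11) (.e (nat_lit 16396) (nat_lit 0) .nil))))))) (.g (nat_lit 1) (.e (nat_lit 73831) (nat_lit 0) .nil) .nil)))))) 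
(.nd (nat_lit 7) (.nd (nat_lit 8) (.nd (nat_lit 9) 
(.lf (nat_lit 463943) (.g (nat_lit 3244) (.e (nat_lit 3096) (nat_lit 192) (.e (nat_lit 491569) (nat_lit 13) (.e (nat_lit 393301) (nat_lit 27) (.e (nat_lit 491560) (nat_lit 10) (.e (nat_lit 344097) (nat_lit 18) .nil))))) (.g (nat_lit 0) (.e (nat_lit 72520) (nat_lit 0) .nil) .nil))) 
(.lf (nat_lit 464455) (.g (nat_lit 2698) (.e (nat_lit 3102) (nat_lit 192) (.e (nat_lit 491560) (nat_lit 10) (.e (nat_lit 344117) (nat_lit 21) (.e (nat_lit 516185) (nat_lit 16) (.e (nat_lit 491560) (nat_lit 10) (.e (nat_lit 344109) (nat_lit 19) (.e (nat_lit 499833) (nat_lit 5) .nil))))))) (.g (nat_lit 1) (.e (nat_lit 73293) (nat_lit 0) .nil) .nil)))) (.nd (nat_lit 9) 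
(.lf (nat_lit 464199) (.g (nat_lit 3277) (.e (nat_lit 3098) (nat_lit 192) (.e (nat_lit 491569) (nat_lit 13) (.e (nat_lit 393301) (nat_lit 27) (.e (nat_lit 491558) (nat_lit 10) (.e (nat_lit 344172) (nat_lit 41) (.e (nat_lit 753670) (nat_lit 5) .nil)))))) (.g (nat_lit 1) (.e (nat_lit 72976) (nat_lit 0) .nil) .nil))) 
(.lf (nat_lit 464711) (.g (nat_lit 2339) (.e (nat_lit 3230) (nat_lit 197) (.e (nat_lit 532503) (nat_lit 1) (.e (nat_lit 57931) (nat_lit 282) (.e (nat_lit 163874) (nat_lit 3) (.e (nat_lit 204854) (nat_lit 26) (.e (nat_lit 336019) (nat_lit 3) (.e (nat_lit 98341) (nat_lit 20) (.e (nat_lit 221196) (nat_lit 20) .nil)))))))) (.g (nat_lit 1) (.e (nat_lit 73697) (nat_lit 0) .nil) .nil))))) 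
(.nd (nat_lit 8) (.nd (nat_lit 9) 
(.lf (nat_lit 464071) (.g (nat_lit 4748) (.e (nat_lit 3098) (nat_lit 192) (.e (nat_lit 491562) (nat_lit 12) (.e (nat_lit 385074) (nat_lit 31) (.e (nat_lit 573482) (nat_lit 13) (.e (nat_lit 65604) (nat_lit 9) (.e (nat_lit 336013) (nat_lit 2) (.e (nat_lit 90134) (nat_lit 9) .nil))))))) (.g (nat_lit 1) (.e (nat_lit 72726) (nat_lit 0) .nil) .nil))) 
(.lf (nat_lit 464583) (.g (nat_lit 3194) (.e (nat_lit 3114) (nat_lit 193) (.e (nat_lit 500074) (nat_lit 20) (.e (nat_lit 81956) (nat_lit 23) (.e (nat_lit 98350) (nat_lit 24) (.e (nat_lit 409646) (nat_lit 18) (.e (nat_lit 303106) (nat_lit 0) .nil)))))) (.g (nat_lit 1) (.e (nat_lit 73460) (nat_lit 0) .nil) .nil)))) (.nd (nat_lit 9) 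
(.lf (nat_lit 464327) (.g (nat_lit 3515) (.e (nat_lit 3098) (nat_lit 192) (.e (nat_lit 491569) (nat_lit 13) (.e (nat_lit 393301) (nat_lit 27) (.e (nat_lit 491560) (nat_lit 10) (.e (nat_lit 344172) (nat_lit 41) (.e (nat_lit 753672) (nat_lit 5) .nil)))))) (.g (nat_lit 1) (.e (nat_lit 73104) (nat_lit 0) .nil) .nil))) 
(.lf (nat_lit 464839) (.g (nat_lit 5558) (.e (nat_lit 3231) (nat_lit 197) (.e (nat_lit 532550) (nat_lit 12) (.e (nat_lit 360475) (nat_lit 8) (.e (nat_lit 557085) (nat_lit 11) (.e (nat_lit 24665) (nat_lit 14) .nil))))) (.g (nat_lit 0) (.e (nat_lit 73937) (nat_lit 0) .nil) .nil))))))) (.nd (nat_lit 6) (.nd (nat_lit 7) (.nd (nat_lit 8) (.nd (nat_lit 9) 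
(.lf (nat_lit 463911) (.g (nat_lit 2469) (.e (nat_lit 3096) (nat_lit 192) (.e (nat_lit 491569) (nat_lit 13) (.e (nat_lit 393301) (nat_lit 27) (.e (nat_lit 491558) (nat_lit 10) (.e (nat_lit 344090) (nat_lit 18) (.e (nat_lit 6923) (nat_lit 371) (.e (nat_lit 2449) (nat_lit 157) .nil))))))) (.g (nat_lit 1) (.e (nat_lit 72488) (nat_lit 0) .nil) .nil))) 
(.lf (nat_lit 464423) (.g (nat_lit 696) (.e (nat_lit 3102) (nat_lit 192) (.e (nat_lit 491560) (nat_lit 10) (.e (nat_lit 344114) (nat_lit 20) .nil))) (.g (nat_lit 0) (.e (nat_lit 73259) (nat_lit 0) .nil) .nil)))) (.nd (nat_lit 9) 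
(.lf (nat_lit 464167) (.g (nat_lit 2727) (.e (nat_lit 3098) (nat_lit 192) (.e (nat_lit 491569) (nat_lit 13) (.e (nat_lit 393301) (nat_lit 27) (.e (nat_lit 491558) (nat_lit 10) (.e (nat_lit 344089) (nat_lit 18) .nil))))) (.g (nat_lit 0) (.e (nat_lit 72944) (nat_lit 0) .nil) .nil))) 
(.lf (nat_lit 464679) (.g (nat_lit 2876) (.e (nat_lit 3230) (nat_lit 197) (.e (nat_lit 532503) (nat_lit 1) (.e (nat_lit 57931) (nat_lit 282) (.e (nat_lit 163866) (nat_lit 2) (.e (nat_lit 196668) (nat_lit 14) (.e (nat_lit 73747) (nat_lit 3) (.e (nat_lit 516131) (nat_lit 3) (.e (nat_lit 221198) (nat_lit 20) .nil)))))))) (.g (nat_lit 1) (.e (nat_lit 73659) (nat_lit 0) .nil) .nil))))) 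
(.nd (nat_lit 8) (.nd (nat_lit 9) 
(.lf (nat_lit 464039) (.g (nat_lit 3487) (.e (nat_lit 3098) (nat_lit 192) (.e (nat_lit 491537) (nat_lit 2) (.e (nat_lit 90177) (nat_lit 15) (.e (nat_lit 188452) (nat_lit 23) (.e (nat_lit 204816) (nat_lit 17) .nil))))) (.g (nat_lit 0) (.e (nat_lit 72684) (nat_lit 0) .nil) .nil))) 
(.lf (nat_lit 464551) (.g (nat_lit 3171) (.e (nat_lit 3105) (nat_lit 192) (.e (nat_lit 491569) (nat_lit 13) (.e (nat_lit 393301) (nat_lit 27) (.e (nat_lit 491558) (nat_lit 10) (.e (nat_lit 344172) (nat_lit 41) (.e (nat_lit 753670) (nat_lit 5) .nil)))))) (.g (nat_lit 1) (.e (nat_lit 73405) (nat_lit 0) .nil) .nil)))) (.nd (nat_lit 9) 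
(.lf (nat_lit 464295) (.g (nat_lit 2846) (.e (nat_lit 3098) (nat_lit 192) (.e (nat_lit 491569) (nat_lit 13) (.e (nat_lit 393301) (nat_lit 27) (.e (nat_lit 491560) (nat_lit 10) (.e (nat_lit 344091) (nat_lit 18) (.e (nat_lit 6923) (nat_lit 371) (.e (nat_lit 2428) (nat_lit 157) .nil))))))) (.g (nat_lit 1) (.e (nat_lit 73072) (nat_lit 0) .nil) .nil))) 
(.lf (nat_lit 464807) (.g (nat_lit 2373) (.e (nat_lit 3230) (nat_lit 197) (.e (nat_lit 532560) (nat_lit 14) (.e (nat_lit 376869) (nat_lit 23) (.e (nat_lit 98350) (nat_lit 24) (.e (nat_lit 409648) (nat_lit 18) (.e (nat_lit 303108) (nat_lit 0) .nil)))))) (.g (nat_lit 1) (.e (nat_lit 73866) (nat_lit 0) .nil) .nil)))))) (.nd (nat_lit 7) (.nd (nat_lit 8) (.nd (nat_lit 9) 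
(.lf (nat_lit 463975) (.g (nat_lit 4583) (.e (nat_lit 3097) (nat_lit 192) (.e (nat_lit 491566) (nat_lit 12) (.e (nat_lit 385072) (nat_lit 31) (.e (nat_lit 573492) (nat_lit 15) (.e (nat_lit 81953) (nat_lit 22) (.e (nat_lit 90134) (nat_lit 9) .nil)))))) (.g (nat_lit 1) (.e (nat_lit 72579) (nat_lit 0) .nil) .nil))) 
(.lf (nat_lit 464487) (.g (nat_lit 1946) (.e (nat_lit 3104) (nat_lit 192) (.e (nat_lit 491537) (nat_lit 2) (.e (nat_lit 90170) (nat_lit 13) (.e (nat_lit 172113) (nat_lit 10) .nil)))) (.g (nat_lit 0) (.e (nat_lit 73330) (nat_lit 0) .nil) .nil)))) (.nd (nat_lit 9) 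
(.lf (nat_lit 464231) (.g (nat_lit 3802) (.e (nat_lit 3098) (nat_lit 192) (.e (nat_lit 491569) (nat_lit 13) (.e (nat_lit 393301) (nat_lit 27) (.e (nat_lit 491559) (nat_lit 10) (.e (nat_lit 344172) (nat_lit 41) (.e (nat_lit 753674) (nat_lit 5) .nil)))))) (.g (nat_lit 1) (.e (nat_lit 73008) (nat_lit 0) .nil) .nil))) 
(.lf (nat_lit 464743) (.g (nat_lit 2963) (.e (nat_lit 3230) (nat_lit 197) (.e (nat_lit 532513) (nat_lit 3) (.e (nat_lit 114714) (nat_lit 22) (.e (nat_lit 90172) (nat_lit 14) (.e (nat_lit 180244) (nat_lit 5) (.e (nat_lit 532503) (nat_lit 1) (.e (nat_lit 57687) (nat_lit 156) (.e (nat_lit 163844) (nat_lit 0) .nil)))))))) (.g (nat_lit 1) (.e (nat_lit 73739) (nat_lit 0) .nil) .nil))))) 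
(.nd (nat_lit 8) (.nd (nat_lit 9) 
(.lf (nat_lit 464103) (.g (nat_lit 2727) (.e (nat_lit 3098) (nat_lit 192) (.e (nat_lit 491565) (nat_lit 12) (.e (nat_lit 385102) (nat_lit 50) (.e (nat_lit 786483) (nat_lit 30) (.e (nat_lit 360483) (nat_lit 15) (.e (nat_lit 647168) (nat_lit 0) .nil)))))) (.g (nat_lit 1) (.e (nat_lit 72761) (nat_lit 0) .nil) .nil))) 
(.lf (nat_lit 464615) (.g (nat_lit 3463) (.e (nat_lit 3205) (nat_lit 194) (.e (nat_lit 507946) (nat_lit 18) (.e (nat_lit 303143) (nat_lit 12) (.e (nat_lit 475185) (nat_lit 29) (.e (nat_lit 557107) (nat_lit 15) (.e (nat_lit 188440) (nat_lit 20) .nil)))))) (.g (nat_lit 1) (.e (nat_lit 73565) (nat_lit 0) .nil) .nil)))) (.nd (nat_lit 9) 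
(.lf (nat_lit 464359) (.g (nat_lit 3154) (.e (nat_lit 3098) (nat_lit 192) (.e (nat_lit 491571) (nat_lit 13) (.e (nat_lit 393298) (nat_lit 27) (.e (nat_lit 491566) (nat_lit 12) (.e (nat_lit 392960) (nat_lit 8) .nil))))) (.g (nat_lit 0) (.e (nat_lit 73168) (nat_lit 0) .nil) .nil))) 
(.lf (nat_lit 464871) (.g (nat_lit 1278) (.e (nat_lit 3234) (nat_lit 197) (.e (nat_lit 532501) (nat_lit 1) (.e (nat_lit 57851) (nat_lit 252) (.e (nat_lit 57406) (nat_lit 12) .nil)))) (.g (nat_lit 0) (.e (nat_lit 74013) (nat_lit 0) .nil) .nil)))))))) (.nd (nat_lit 5) (.nd (nat_lit 6) (.nd (nat_lit 7) (.nd (nat_lit 8) (.nd (nat_lit 9) 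
(.lf (nat_lit 463895) (.g (nat_lit 4625) (.e (nat_lit 3096) (nat_lit 192) (.e (nat_lit 491566) (nat_lit 12) (.e (nat_lit 385074) (nat_lit 31) (.e (nat_lit 573493) (nat_lit 15) (.e (nat_lit 81953) (nat_lit 22) (.e (nat_lit 90134) (nat_lit 9) .nil)))))) (.g (nat_lit 1) (.e (nat_lit 72460) (nat_lit 0) .nil) .nil))) 
(.lf (nat_lit 464407) (.g (nat_lit 1773) (.e (nat_lit 3102) (nat_lit 192) (.e (nat_lit 491558) (nat_lit 10) (.e (nat_lit 344115) (nat_lit 20) (.e (nat_lit 507908) (nat_lit 0) (.e (nat_lit 5412) (nat_lit 303) (.e (nat_lit 73739) (nat_lit 1) (.e (nat_lit 499840) (nat_lit 5) .nil))))))) (.g (nat_lit 1) (.e (nat_lit 73243) (nat_lit 0) .nil) .nil)))) (.nd (nat_lit 9) 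
(.lf (nat_lit 464151) (.g (nat_lit 3073) (.e (nat_lit 3098) (nat_lit 192) (.e (nat_lit 491568) (nat_lit 13) (.e (nat_lit 393301) (nat_lit 27) (.e (nat_lit 491560) (nat_lit 10) (.e (nat_lit 344171) (nat_lit 41) .nil))))) (.g (nat_lit 0) (.e (nat_lit 72925) (nat_lit 0) .nil) .nil))) 
(.lf (nat_lit 464663) (.g (nat_lit 4205) (.e (nat_lit 3230) (nat_lit 197) (.e (nat_lit 532503) (nat_lit 1) (.e (nat_lit 57847) (nat_lit 252) (.e (nat_lit 57407) (nat_lit 12) (.e (nat_lit 336454) (nat_lit 34) (.e (nat_lit 483385) (nat_lit 23) (.e (nat_lit 336260) (nat_lit 15) .nil))))))) (.g (nat_lit 1) (.e (nat_lit 73643) (nat_lit 0) .nil) .nil))))) (.nd (nat_lit 8) (.nd (nat_lit 9) 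
(.lf (nat_lit 464023) (.g (nat_lit 3483) (.e (nat_lit 3098) (nat_lit 192) (.e (nat_lit 491537) (nat_lit 2) (.e (nat_lit 90170) (nat_lit 13) (.e (nat_lit 172106) (nat_lit 10) (.e (nat_lit 434244) (nat_lit 28) (.e (nat_lit 573468) (nat_lit 10) (.e (nat_lit 16128) (nat_lit 205) .nil))))))) (.g (nat_lit 1) (.e (nat_lit 72668) (nat_lit 0) .nil) .nil))) 
(.lf (nat_lit 464535) (.g (nat_lit 3068) (.e (nat_lit 3105) (nat_lit 192) (.e (nat_lit 491568) (nat_lit 13) (.e (nat_lit 393301) (nat_lit 27) (.e (nat_lit 491560) (nat_lit 10) (.e (nat_lit 344087) (nat_lit 18) .nil))))) (.g (nat_lit 0) (.e (nat_lit 73389) (nat_lit 0) .nil) .nil)))) (.nd (nat_lit 9) 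
(.lf (nat_lit 464279) (.g (nat_lit 3177) (.e (nat_lit 3098) (nat_lit 192) (.e (nat_lit 491569) (nat_lit 13) (.e (nat_lit 393301) (nat_lit 27) (.e (nat_lit 491560) (nat_lit 10) (.e (nat_lit 344090) (nat_lit 18) (.e (nat_lit 6853) (nat_lit 371) (.e (nat_lit 2433) (nat_lit 157) .nil))))))) (.g (nat_lit 1) (.e (nat_lit 73056) (nat_lit 0) .nil) .nil))) 
(.lf (nat_lit 464791) (.g (nat_lit 3719) (.e (nat_lit 3230) (nat_lit 197) (.e (nat_lit 532550) (nat_lit 12) (.e (nat_lit 360475) (nat_lit 8) (.e (nat_lit 557085) (nat_lit 11) .nil)))) (.g (nat_lit 0) (.e (nat_lit 73849) (nat_lit 0) .nil) .nil)))))) (.nd (nat_lit 7) (.nd (nat_lit 8) (.nd (nat_lit 9) 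
(.lf (nat_lit 463959) (.g (nat_lit 1966) (.e (nat_lit 3096) (nat_lit 192) (.e (nat_lit 491571) (nat_lit 13) (.e (nat_lit 393251) (nat_lit 18) (.e (nat_lit 164148) (nat_lit 152) .nil)))) (.g (nat_lit 0) (.e (nat_lit 72545) (nat_lit 0) .nil) .nil))) 
(.lf (nat_lit 464471) (.g (nat_lit 3920) (.e (nat_lit 3102) (nat_lit 192) (.e (nat_lit 491568) (nat_lit 13) (.e (nat_lit 393301) (nat_lit 27) (.e (nat_lit 491560) (nat_lit 10) (.e (nat_lit 344171) (nat_lit 41) (.e (nat_lit 753676) (nat_lit 5) .nil)))))) (.g (nat_lit 1) (.e (nat_lit 73310) (nat_lit 0) .nil) .nil)))) (.nd (nat_lit 9) 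
(.lf (nat_lit 464215) (.g (nat_lit 3298) (.e (nat_lit 3098) (nat_lit 192) (.e (nat_lit 491569) (nat_lit 13) (.e (nat_lit 393301) (nat_lit 27) (.e (nat_lit 491559) (nat_lit 10) (.e (nat_lit 344095) (nat_lit 18) .nil))))) (.g (nat_lit 0) (.e (nat_lit 72992) (nat_lit 0) .nil) .nil))) 
(.lf (nat_lit 464727) (.g (nat_lit 2325) (.e (nat_lit 3230) (nat_lit 197) (.e (nat_lit 532504) (nat_lit 1) (.e (nat_lit 57851) (nat_lit 252) (.e (nat_lit 57406) (nat_lit 12) (.e (nat_lit 336456) (nat_lit 34) (.e (nat_lit 483379) (nat_lit 23) (.e (nat_lit 336259) (nat_lit 15) .nil))))))) (.g (nat_lit 1) (.e (nat_lit 73716) (nat_lit 0) .nil) .nil))))) (.nd (nat_lit 8) (.nd (nat_lit 9) 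
(.lf (nat_lit 464087) (.g (nat_lit 3942) (.e (nat_lit 3098) (nat_lit 192) (.e (nat_lit 491565) (nat_lit 12) (.e (nat_lit 385072) (nat_lit 31) (.e (nat_lit 573491) (nat_lit 15) (.e (nat_lit 81951) (nat_lit 22) (.e (nat_lit 90134) (nat_lit 9) .nil)))))) (.g (nat_lit 1) (.e (nat_lit 72743) (nat_lit 0) .nil) .nil))) 
(.lf (nat_lit 464599) (.g (nat_lit 2173) (.e (nat_lit 3134) (nat_lit 193) (.e (nat_lit 500065) (nat_lit 18) (.e (nat_lit 65617) (nat_lit 10) (.e (nat_lit 344132) (nat_lit 26) (.e (nat_lit 557093) (nat_lit 12) .nil))))) (.g (nat_lit 0) (.e (nat_lit 73485) (nat_lit 0) .nil) .nil)))) (.nd (nat_lit 9) 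
(.lf (nat_lit 464343) (.g (nat_lit 4226) (.e (nat_lit 3098) (nat_lit 192) (.e (nat_lit 491571) (nat_lit 13) (.e (nat_lit 393251) (nat_lit 18) (.e (nat_lit 164182) (nat_lit 154) (.e (nat_lit 57420) (nat_lit 13) (.e (nat_lit 344132) (nat_lit 26) (.e (nat_lit 557072) (nat_lit 9) .nil))))))) (.g (nat_lit 1) (.e (nat_lit 73135) (nat_lit 0) .nil) .nil))) 
(.lf (nat_lit 464855) (.g (nat_lit 1531) (.e (nat_lit 3232) (nat_lit 197) (.e (nat_lit 532530) (nat_lit 9) (.e (nat_lit 336326) (nat_lit 18) (.e (nat_lit 204854) (nat_lit 26) .nil)))) (.g (nat_lit 0) (.e (nat_lit 73985) (nat_lit 0) .nil) .nil))))))) (.nd (nat_lit 6) (.nd (nat_lit 7) (.nd (nat_lit 8) (.nd (nat_lit 9) 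
(.lf (nat_lit 463927) (.g (nat_lit 3257) (.e (nat_lit 3096) (nat_lit 192) (.e (nat_lit 491569) (nat_lit 13) (.e (nat_lit 393301) (nat_lit 27) (.e (nat_lit 491559) (nat_lit 10) (.e (nat_lit 344170) (nat_lit 41) (.e (nat_lit 753674) (nat_lit 5) .nil)))))) (.g (nat_lit 1) (.e (nat_lit 72504) (nat_lit 0) .nil) .nil))) 
(.lf (nat_lit 464439) (.g (nat_lit 2281) (.e (nat_lit 3102) (nat_lit 192) (.e (nat_lit 491560) (nat_lit 10) (.e (nat_lit 344115) (nat_lit 20) (.e (nat_lit 507908) (nat_lit 0) (.e (nat_lit 5412) (nat_lit 303) (.e (nat_lit 73739) (nat_lit 1) (.e (nat_lit 499845) (nat_lit 5) .nil))))))) (.g (nat_lit 1) (.e (nat_lit 73275) (nat_lit 0) .nil) .nil)))) (.nd (nat_lit 9) 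
(.lf (nat_lit 464183) (.g (nat_lit 2713) (.e (nat_lit 3098) (nat_lit 192) (.e (nat_lit 491569) (nat_lit 13) (.e (nat_lit 393301) (nat_lit 27) (.e (nat_lit 491558) (nat_lit 10) (.e (nat_lit 344093) (nat_lit 18) .nil))))) (.g (nat_lit 0) (.e (nat_lit 72960) (nat_lit 0) .nil) .nil))) 
(.lf (nat_lit 464695) (.g (nat_lit 3860) (.e (nat_lit 3230) (nat_lit 197) (.e (nat_lit 532503) (nat_lit 1) (.e (nat_lit 57931) (nat_lit 282) (.e (nat_lit 163869) (nat_lit 2) (.e (nat_lit 196668) (nat_lit 14) (.e (nat_lit 73746) (nat_lit 3) (.e (nat_lit 516129) (nat_lit 3) (.e (nat_lit 221196) (nat_lit 20) .nil)))))))) (.g (nat_lit 1) (.e (nat_lit 73679) (nat_lit 0) .nil) .nil))))) 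
(.nd (nat_lit 8) (.nd (nat_lit 9) 
(.lf (nat_lit 464055) (.g (nat_lit 2551) (.e (nat_lit 3098) (nat_lit 192) (.e (nat_lit 491548) (nat_lit 9) (.e (nat_lit 336019) (nat_lit 3) (.e (nat_lit 98350) (nat_lit 24) (.e (nat_lit 409649) (nat_lit 18) (.e (nat_lit 303111) (nat_lit 0) (.e (nat_lit 3271) (nat_lit 199) (.e (nat_lit 548898) (nat_lit 14) .nil)))))))) (.g (nat_lit 1) (.e (nat_lit 72701) (nat_lit 0) .nil) .nil))) 
(.lf (nat_lit 464567) (.g (nat_lit 3111) (.e (nat_lit 3105) (nat_lit 192) (.e (nat_lit 491569) (nat_lit 13) (.e (nat_lit 393301) (nat_lit 27) (.e (nat_lit 491560) (nat_lit 10) (.e (nat_lit 344172) (nat_lit 41) .nil))))) (.g (nat_lit 0) (.e (nat_lit 73421) (nat_lit 0) .nil) .nil)))) (.nd (nat_lit 9) 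
(.lf (nat_lit 464311) (.g (nat_lit 3304) (.e (nat_lit 3098) (nat_lit 192) (.e (nat_lit 491569) (nat_lit 13) (.e (nat_lit 393301) (nat_lit 27) (.e (nat_lit 491560) (nat_lit 10) (.e (nat_lit 344097) (nat_lit 18) .nil))))) (.g (nat_lit 0) (.e (nat_lit 73088) (nat_lit 0) .nil) .nil))) 
(.lf (nat_lit 464823) (.g (nat_lit 2252) (.e (nat_lit 3231) (nat_lit 197) (.e (nat_lit 532504) (nat_lit 1) (.e (nat_lit 57851) (nat_lit 252) (.e (nat_lit 57406) (nat_lit 12) (.e (nat_lit 336456) (nat_lit 34) .nil))))) (.g (nat_lit 0) (.e (nat_lit 73882) (nat_lit 0) .nil) .nil)))))) (.nd (nat_lit 7) (.nd (nat_lit 8) (.nd (nat_lit 9) 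
(.lf (nat_lit 463991) (.g (nat_lit 3057) (.e (nat_lit 3097) (nat_lit 192) (.e (nat_lit 491566) (nat_lit 12) (.e (nat_lit 385104) (nat_lit 50) (.e (nat_lit 786483) (nat_lit 30) (.e (nat_lit 360484) (nat_lit 15) (.e (nat_lit 647168) (nat_lit 0) .nil)))))) (.g (nat_lit 1) (.e (nat_lit 72616) (nat_lit 0) .nil) .nil))) 
(.lf (nat_lit 464503) (.g (nat_lit 4411) (.e (nat_lit 3104) (nat_lit 192) (.e (nat_lit 491569) (nat_lit 13) (.e (nat_lit 393301) (nat_lit 27) (.e (nat_lit 491559) (nat_lit 10) (.e (nat_lit 344091) (nat_lit 18) (.e (nat_lit 6923) (nat_lit 371) (.e (nat_lit 2427) (nat_lit 157) .nil))))))) (.g (nat_lit 1) (.e (nat_lit 73346) (nat_lit 0) .nil) .nil)))) (.nd (nat_lit 9) 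
(.lf (nat_lit 464247) (.g (nat_lit 2693) (.e (nat_lit 3098) (nat_lit 192) (.e (nat_lit 491569) (nat_lit 13) (.e (nat_lit 393301) (nat_lit 27) (.e (nat_lit 491560) (nat_lit 10) (.e (nat_lit 344088) (nat_lit 18) (.e (nat_lit 6852) (nat_lit 371) (.e (nat_lit 2433) (nat_lit 157) .nil))))))) (.g (nat_lit 1) (.e (nat_lit 73024) (nat_lit 0) .nil) .nil))) 
(.lf (nat_lit 464759) (.g (nat_lit 3907) (.e (nat_lit 3230) (nat_lit 197) (.e (nat_lit 532535) (nat_lit 9) (.e (nat_lit 336099) (nat_lit 9) (.e (nat_lit 336028) (nat_lit 3) (.e (nat_lit 98349) (nat_lit 24) (.e (nat_lit 409648) (nat_lit 18) (.e (nat_lit 303109) (nat_lit 0) .nil))))))) (.g (nat_lit 1) (.e (nat_lit 73798) (nat_lit 0) .nil) .nil))))) (.nd (nat_lit 8) (.nd (nat_lit 9) 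
(.lf (nat_lit 464119) (.g (nat_lit 404) (.e (nat_lit 3098) (nat_lit 192) (.e (nat_lit 491566) (nat_lit 12) (.e (nat_lit 385074) (nat_lit 31) .nil))) (.g (nat_lit 0) (.e (nat_lit 72833) (nat_lit 0) .nil) .nil))) 
(.lf (nat_lit 464631) (.g (nat_lit 4800) (.e (nat_lit 3228) (nat_lit 197) (.e (nat_lit 532550) (nat_lit 12) (.e (nat_lit 360475) (nat_lit 8) (.e (nat_lit 557089) (nat_lit 12) .nil)))) (.g (nat_lit 0) (.e (nat_lit 73593) (nat_lit 0) .nil) .nil)))) (.nd (nat_lit 9) 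
(.lf (nat_lit 464375) (.g (nat_lit 6031) (.e (nat_lit 3100) (nat_lit 192) (.e (nat_lit 491563) (nat_lit 12) (.e (nat_lit 385072) (nat_lit 31) (.e (nat_lit 573492) (nat_lit 15) (.e (nat_lit 81962) (nat_lit 25) (.e (nat_lit 139289) (nat_lit 9) .nil)))))) (.g (nat_lit 1) (.e (nat_lit 73207) (nat_lit 0) .nil) .nil))) 
(.lf (nat_lit 464887) (.g (nat_lit 1360) (.e (nat_lit 3234) (nat_lit 197) (.e (nat_lit 532535) (nat_lit 9) (.e (nat_lit 336099) (nat_lit 9) .nil))) (.g (nat_lit 0) (.e (nat_lit 74066) (nat_lit 0) .nil) .nil))))))))) (.nd (nat_lit 4) (.nd (nat_lit 5) (.nd (nat_lit 6) (.nd (nat_lit 7) (.nd (nat_lit 8) (.nd (nat_lit 9) 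
(.lf (nat_lit 463887) (.g (nat_lit 2043) (.e (nat_lit 3096) (nat_lit 192) (.e (nat_lit 491566) (nat_lit 12) (.e (nat_lit 385072) (nat_lit 31) (.e (nat_lit 573492) (nat_lit 15) (.e (nat_lit 81953) (nat_lit 22) .nil))))) (.g (nat_lit 0) (.e (nat_lit 72448) (nat_lit 0) .nil) .nil))) 
(.lf (nat_lit 464399) (.g (nat_lit 1558) (.e (nat_lit 3102) (nat_lit 192) (.e (nat_lit 491558) (nat_lit 10) (.e (nat_lit 344115) (nat_lit 20) (.e (nat_lit 507907) (nat_lit 0) (.e (nat_lit 5412) (nat_lit 303) (.e (nat_lit 73739) (nat_lit 1) (.e (nat_lit 499845) (nat_lit 5) .nil))))))) (.g (nat_lit 1) (.e (nat_lit 73235) (nat_lit 0) .nil) .nil)))) (.nd (nat_lit 9) 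
(.lf (nat_lit 464143) (.g (nat_lit 2958) (.e (nat_lit 3098) (nat_lit 192) (.e (nat_lit 491568) (nat_lit 13) (.e (nat_lit 393301) (nat_lit 27) (.e (nat_lit 491560) (nat_lit 10) (.e (nat_lit 344090) (nat_lit 18) (.e (nat_lit 6923) (nat_lit 371) (.e (nat_lit 2448) (nat_lit 157) .nil))))))) (.g (nat_lit 1) (.e (nat_lit 72917) (nat_lit 0) .nil) .nil))) 
(.lf (nat_lit 464655) (.g (nat_lit 1978) (.e (nat_lit 3230) (nat_lit 197) (.e (nat_lit 532501) (nat_lit 1) (.e (nat_lit 57854) (nat_lit 252) (.e (nat_lit 57406) (nat_lit 12) (.e (nat_lit 336454) (nat_lit 34) (.e (nat_lit 483385) (nat_lit 23) (.e (nat_lit 336260) (nat_lit 15) .nil))))))) (.g (nat_lit 1) (.e (nat_lit 73627) (nat_lit 0) .nil) .nil))))) (.nd (nat_lit 8) (.nd (nat_lit 9) 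
(.lf (nat_lit 464015) (.g (nat_lit 3081) (.e (nat_lit 3098) (nat_lit 192) (.e (nat_lit 491537) (nat_lit 2) (.e (nat_lit 90170) (nat_lit 13) (.e (nat_lit 172106) (nat_lit 10) (.e (nat_lit 434227) (nat_lit 20) (.e (nat_lit 507930) (nat_lit 10) (.e (nat_lit 5628) (nat_lit 312) .nil))))))) (.g (nat_lit 1) (.e (nat_lit 72660) (nat_lit 0) .nil) .nil))) 
(.lf (nat_lit 464527) (.g (nat_lit 2633) (.e (nat_lit 3105) (nat_lit 192) (.e (nat_lit 491566) (nat_lit 12) (.e (nat_lit 385104) (nat_lit 50) (.e (nat_lit 786483) (nat_lit 30) (.e (nat_lit 360451) (nat_lit 0) (.e (nat_lit 5429) (nat_lit 306) (.e (nat_lit 2437) (nat_lit 157) .nil))))))) (.g (nat_lit 1) (.e (nat_lit 73381) (nat_lit 0) .nil) .nil)))) (.nd (nat_lit 9) 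
(.lf (nat_lit 464271) (.g (nat_lit 2769) (.e (nat_lit 3098) (nat_lit 192) (.e (nat_lit 491569) (nat_lit 13) (.e (nat_lit 393301) (nat_lit 27) (.e (nat_lit 491560) (nat_lit 10) (.e (nat_lit 344089) (nat_lit 18) (.e (nat_lit 6865) (nat_lit 371) (.e (nat_lit 2447) (nat_lit 157) .nil))))))) (.g (nat_lit 1) (.e (nat_lit 73048) (nat_lit 0) .nil) .nil))) 
(.lf (nat_lit 464783) (.g (nat_lit 3963) (.e (nat_lit 3230) (nat_lit 197) (.e (nat_lit 532550) (nat_lit 12) (.e (nat_lit 360474) (nat_lit 8) (.e (nat_lit 557094) (nat_lit 12) (.e (nat_lit 164022) (nat_lit 46) (.e (nat_lit 704737) (nat_lit 11) (.e (nat_lit 16397) (nat_lit 0) .nil))))))) (.g (nat_lit 1) (.e (nat_lit 73839) (nat_lit 0) .nil) .nil)))))) 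
(.nd (nat_lit 7) (.nd (nat_lit 8) (.nd (nat_lit 9) 
(.lf (nat_lit 463951) (.g (nat_lit 2914) (.e (nat_lit 3096) (nat_lit 192) (.e (nat_lit 491569) (nat_lit 13) (.e (nat_lit 393301) (nat_lit 27) (.e (nat_lit 491560) (nat_lit 10) (.e (nat_lit 344172) (nat_lit 41) (.e (nat_lit 753677) (nat_lit 5) .nil)))))) (.g (nat_lit 1) (.e (nat_lit 72528) (nat_lit 0) .nil) .nil))) 
(.lf (nat_lit 464463) (.g (nat_lit 864) (.e (nat_lit 3102) (nat_lit 192) (.e (nat_lit 491562) (nat_lit 12) (.e (nat_lit 385106) (nat_lit 50) .nil))) (.g (nat_lit 0) (.e (nat_lit 73302) (nat_lit 0) .nil) .nil)))) (.nd (nat_lit 9) 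
(.lf (nat_lit 464207) (.g (nat_lit 3539) (.e (nat_lit 3098) (nat_lit 192) (.e (nat_lit 491569) (nat_lit 13) (.e (nat_lit 393301) (nat_lit 27) (.e (nat_lit 491559) (nat_lit 10) (.e (nat_lit 344091) (nat_lit 18) (.e (nat_lit 6869) (nat_lit 371) (.e (nat_lit 2443) (nat_lit 157) .nil))))))) (.g (nat_lit 1) (.e (nat_lit 72984) (nat_lit 0) .nil) .nil))) 
(.lf (nat_lit 464719) (.g (nat_lit 2416) (.e (nat_lit 3230) (nat_lit 197) (.e (nat_lit 532503) (nat_lit 1) (.e (nat_lit 57931) (nat_lit 282) (.e (nat_lit 163874) (nat_lit 3) (.e (nat_lit 204863) (nat_lit 27) (.e (nat_lit 344117) (nat_lit 21) (.e (nat_lit 516130) (nat_lit 3) (.e (nat_lit 221196) (nat_lit 20) .nil)))))))) (.g (nat_lit 1) (.e (nat_lit 73705) (nat_lit 0) .nil) .nil))))) 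
(.nd (nat_lit 8) (.nd (nat_lit 9) 
(.lf (nat_lit 464079) (.g (nat_lit 2592) (.e (nat_lit 3098) (nat_lit 192) (.e (nat_lit 491564) (nat_lit 12) (.e (nat_lit 385072) (nat_lit 31) (.e (nat_lit 573485) (nat_lit 13) (.e (nat_lit 65604) (nat_lit 9) (.e (nat_lit 336013) (nat_lit 2) (.e (nat_lit 90134) (nat_lit 9) .nil))))))) (.g (nat_lit 1) (.e (nat_lit 72734) (nat_lit 0) .nil) .nil))) 
(.lf (nat_lit 464591) (.g (nat_lit 273) (.e (nat_lit 3114) (nat_lit 193) (.e (nat_lit 499928) (nat_lit 11) (.e (nat_lit 196352) (nat_lit 19) (.e (nat_lit 401473) (nat_lit 29) (.e (nat_lit 360192) (nat_lit 0) .nil))))) (.g (nat_lit 1) (.e (nat_lit 73472) (nat_lit 0) .nil) .nil)))) (.nd (nat_lit 9) 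
(.lf (nat_lit 464335) (.g (nat_lit 2578) (.e (nat_lit 3098) (nat_lit 192) (.e (nat_lit 491570) (nat_lit 13) (.e (nat_lit 393253) (nat_lit 18) (.e (nat_lit 164162) (nat_lit 152) (.e (nat_lit 1209) (nat_lit 89) .nil))))) (.g (nat_lit 0) (.e (nat_lit 73114) (nat_lit 0) .nil) .nil))) 
(.lf (nat_lit 464847) (.g (nat_lit 2009) (.e (nat_lit 3231) (nat_lit 197) (.e (nat_lit 532563) (nat_lit 15) (.e (nat_lit 385066) (nat_lit 26) (.e (nat_lit 532534) (nat_lit 9) (.e (nat_lit 336316) (nat_lit 17) .nil))))) (.g (nat_lit 0) (.e (nat_lit 73951) (nat_lit 0) .nil) .nil))))))) (.nd (nat_lit 6) (.nd (nat_lit 7) (.nd (nat_lit 8) (.nd (nat_lit 9) 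
(.lf (nat_lit 463919) (.g (nat_lit 3058) (.e (nat_lit 3096) (nat_lit 192) (.e (nat_lit 491569) (nat_lit 13) (.e (nat_lit 393301) (nat_lit 27) (.e (nat_lit 491558) (nat_lit 10) (.e (nat_lit 344172) (nat_lit 41) (.e (nat_lit 753675) (nat_lit 5) .nil)))))) (.g (nat_lit 1) (.e (nat_lit 72496) (nat_lit 0) .nil) .nil))) 
(.lf (nat_lit 464431) (.g (nat_lit 2472) (.e (nat_lit 3102) (nat_lit 192) (.e (nat_lit 491560) (nat_lit 10) (.e (nat_lit 344115) (nat_lit 20) (.e (nat_lit 507907) (nat_lit 0) (.e (nat_lit 5412) (nat_lit 303) (.e (nat_lit 73739) (nat_lit 1) (.e (nat_lit 499840) (nat_lit 5) .nil))))))) (.g (nat_lit 1) (.e (nat_lit 73267) (nat_lit 0) .nil) .nil)))) (.nd (nat_lit 9) 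
(.lf (nat_lit 464175) (.g (nat_lit 2747) (.e (nat_lit 3098) (nat_lit 192) (.e (nat_lit 491569) (nat_lit 13) (.e (nat_lit 393301) (nat_lit 27) (.e (nat_lit 491558) (nat_lit 10) (.e (nat_lit 344091) (nat_lit 18) (.e (nat_lit 6853) (nat_lit 371) (.e (nat_lit 2430) (nat_lit 157) .nil))))))) (.g (nat_lit 1) (.e (nat_lit 72952) (nat_lit 0) .nil) .nil))) 
(.lf (nat_lit 464687) (.g (nat_lit 3896) (.e (nat_lit 3230) (nat_lit 197) (.e (nat_lit 532503) (nat_lit 1) (.e (nat_lit 57931) (nat_lit 282) (.e (nat_lit 163867) (nat_lit 2) (.e (nat_lit 196668) (nat_lit 14) (.e (nat_lit 73747) (nat_lit 3) (.e (nat_lit 516131) (nat_lit 3) (.e (nat_lit 221198) (nat_lit 20) .nil)))))))) (.g (nat_lit 1) (.e (nat_lit 73667) (nat_lit 0) .nil) .nil))))) 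
(.nd (nat_lit 8) (.nd (nat_lit 9) 
(.lf (nat_lit 464047) (.g (nat_lit 2344) (.e (nat_lit 3098) (nat_lit 192) (.e (nat_lit 491546) (nat_lit 9) (.e (nat_lit 336013) (nat_lit 2) (.e (nat_lit 90165) (nat_lit 12) (.e (nat_lit 171776) (nat_lit 192) (.e (nat_lit 73740) (nat_lit 1) (.e (nat_lit 499828) (nat_lit 5) .nil))))))) (.g (nat_lit 1) (.e (nat_lit 72692) (nat_lit 0) .nil) .nil))) 
(.lf (nat_lit 464559) (.g (nat_lit 3447) (.e (nat_lit 3105) (nat_lit 192) (.e (nat_lit 491569) (nat_lit 13) (.e (nat_lit 393301) (nat_lit 27) (.e (nat_lit 491560) (nat_lit 10) (.e (nat_lit 344087) (nat_lit 18) .nil))))) (.g (nat_lit 0) (.e (nat_lit 73413) (nat_lit 0) .nil) .nil)))) (.nd (nat_lit 9) 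
(.lf (nat_lit 464303) (.g (nat_lit 2723) (.e (nat_lit 3098) (nat_lit 192) (.e (nat_lit 491569) (nat_lit 13) (.e (nat_lit 393301) (nat_lit 27) (.e (nat_lit 491560) (nat_lit 10) (.e (nat_lit 344094) (nat_lit 18) (.e (nat_lit 6923) (nat_lit 371) (.e (nat_lit 2442) (nat_lit 157) .nil))))))) (.g (nat_lit 1) (.e (nat_lit 73080) (nat_lit 0) .nil) .nil))) 
(.lf (nat_lit 464815) (.g (nat_lit 1978) (.e (nat_lit 3231) (nat_lit 197) (.e (nat_lit 532501) (nat_lit 1) (.e (nat_lit 57851) (nat_lit 252) (.e (nat_lit 57406) (nat_lit 12) .nil)))) (.g (nat_lit 0) (.e (nat_lit 73874) (nat_lit 0) .nil) .nil)))))) (.nd (nat_lit 7) (.nd (nat_lit 8) (.nd (nat_lit 9) 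
(.lf (nat_lit 463983) (.g (nat_lit 5054) (.e (nat_lit 3097) (nat_lit 192) (.e (nat_lit 491566) (nat_lit 12) (.e (nat_lit 385074) (nat_lit 31) (.e (nat_lit 573485) (nat_lit 13) (.e (nat_lit 65604) (nat_lit 9) (.e (nat_lit 336013) (nat_lit 2) (.e (nat_lit 90134) (nat_lit 9) .nil))))))) (.g (nat_lit 1) (.e (nat_lit 72588) (nat_lit 0) .nil) .nil))) 
(.lf (nat_lit 464495) (.g (nat_lit 2411) (.e (nat_lit 3104) (nat_lit 192) (.e (nat_lit 491569) (nat_lit 13) (.e (nat_lit 393234) (nat_lit 17) (.e (nat_lit 3555) (nat_lit 220) .nil)))) (.g (nat_lit 0) (.e (nat_lit 73338) (nat_lit 0) .nil) .nil)))) (.nd (nat_lit 9) 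
(.lf (nat_lit 464239) (.g (nat_lit 3528) (.e (nat_lit 3098) (nat_lit 192) (.e (nat_lit 491569) (nat_lit 13) (.e (nat_lit 393301) (nat_lit 27) (.e (nat_lit 491560) (nat_lit 10) (.e (nat_lit 344087) (nat_lit 18) (.e (nat_lit 6916) (nat_lit 371) (.e (nat_lit 2448) (nat_lit 157) .nil))))))) (.g (nat_lit 1) (.e (nat_lit 73016) (nat_lit 0) .nil) .nil))) 
(.lf (nat_lit 464751) (.g (nat_lit 4466) (.e (nat_lit 3230) (nat_lit 197) (.e (nat_lit 532535) (nat_lit 9) (.e (nat_lit 336099) (nat_lit 9) (.e (nat_lit 336013) (nat_lit 2) (.e (nat_lit 90134) (nat_lit 9) (.e (nat_lit 2825) (nat_lit 182) (.e (nat_lit 409645) (nat_lit 18) (.e (nat_lit 303112) (nat_lit 0) .nil)))))))) (.g (nat_lit 1) (.e (nat_lit 73788) (nat_lit 0) .nil) .nil))))) 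
(.nd (nat_lit 8) (.nd (nat_lit 9) 
(.lf (nat_lit 464111) (.g (nat_lit 4417) (.e (nat_lit 3098) (nat_lit 192) (.e (nat_lit 491566) (nat_lit 12) (.e (nat_lit 385072) (nat_lit 31) (.e (nat_lit 573492) (nat_lit 15) (.e (nat_lit 81953) (nat_lit 22) (.e (nat_lit 90134) (nat_lit 9) .nil)))))) (.g (nat_lit 1) (.e (nat_lit 72807) (nat_lit 0) .nil) .nil))) 
(.lf (nat_lit 464623) (.g (nat_lit 4810) (.e (nat_lit 3227) (nat_lit 197) (.e (nat_lit 532550) (nat_lit 12) (.e (nat_lit 360475) (nat_lit 8) (.e (nat_lit 557089) (nat_lit 12) .nil)))) (.g (nat_lit 0) (.e (nat_lit 73584) (nat_lit 0) .nil) .nil)))) (.nd (nat_lit 9) 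
(.lf (nat_lit 464367) (.g (nat_lit 2567) (.e (nat_lit 3099) (nat_lit 192) (.e (nat_lit 491566) (nat_lit 12) (.e (nat_lit 385072) (nat_lit 31) (.e (nat_lit 573492) (nat_lit 15) (.e (nat_lit 81962) (nat_lit 25) .nil))))) (.g (nat_lit 0) (.e (nat_lit 73186) (nat_lit 0) .nil) .nil))) 
(.lf (nat_lit 464879) (.g (nat_lit 1682) (.e (nat_lit 3234) (nat_lit 197) (.e (nat_lit 532503) (nat_lit 1) (.e (nat_lit 57848) (nat_lit 252) (.e (nat_lit 57407) (nat_lit 12) (.e (nat_lit 336456) (nat_lit 34) .nil))))) (.g (nat_lit 0) (.e (nat_lit 74021) (nat_lit 0) .nil) .nil)))))))) (.nd (nat_lit 5) (.nd (nat_lit 6) (.nd (nat_lit 7) (.nd (nat_lit 8) (.nd (nat_lit 9) 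
(.lf (nat_lit 463903) (.g (nat_lit 3192) (.e (nat_lit 3096) (nat_lit 192) (.e (nat_lit 491566) (nat_lit 12) (.e (nat_lit 385105) (nat_lit 50) (.e (nat_lit 786483) (nat_lit 30) (.e (nat_lit 360484) (nat_lit 15) (.e (nat_lit 647171) (nat_lit 0) .nil)))))) (.g (nat_lit 1) (.e (nat_lit 72480) (nat_lit 0) .nil) .nil))) 
(.lf (nat_lit 464415) (.g (nat_lit 2002) (.e (nat_lit 3102) (nat_lit 192) (.e (nat_lit 491558) (nat_lit 10) (.e (nat_lit 344117) (nat_lit 21) (.e (nat_lit 516185) (nat_lit 16) (.e (nat_lit 491560) (nat_lit 10) (.e (nat_lit 344109) (nat_lit 19) (.e (nat_lit 499847) (nat_lit 5) .nil))))))) (.g (nat_lit 1) (.e (nat_lit 73251) (nat_lit 0) .nil) .nil)))) (.nd (nat_lit 9) 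
(.lf (nat_lit 464159) (.g (nat_lit 2188) (.e (nat_lit 3098) (nat_lit 192) (.e (nat_lit 491569) (nat_lit 13) (.e (nat_lit 393301) (nat_lit 27) (.e (nat_lit 491551) (nat_lit 9) (.e (nat_lit 336248) (nat_lit 15) .nil))))) (.g (nat_lit 0) (.e (nat_lit 72936) (nat_lit 0) .nil) .nil))) 
(.lf (nat_lit 464671) (.g (nat_lit 2281) (.e (nat_lit 3230) (nat_lit 197) (.e (nat_lit 532503) (nat_lit 1) (.e (nat_lit 57924) (nat_lit 282) (.e (nat_lit 163867) (nat_lit 2) (.e (nat_lit 196668) (nat_lit 14) (.e (nat_lit 73747) (nat_lit 3) (.e (nat_lit 516129) (nat_lit 3) (.e (nat_lit 221196) (nat_lit 20) .nil)))))))) (.g (nat_lit 1) (.e (nat_lit 73651) (nat_lit 0) .nil) .nil))))) 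
(.nd (nat_lit 8) (.nd (nat_lit 9) 
(.lf (nat_lit 464031) (.g (nat_lit 2780) (.e (nat_lit 3098) (nat_lit 192) (.e (nat_lit 491537) (nat_lit 2) (.e (nat_lit 90170) (nat_lit 13) (.e (nat_lit 172113) (nat_lit 10) (.e (nat_lit 434245) (nat_lit 28) (.e (nat_lit 573468) (nat_lit 10) (.e (nat_lit 16128) (nat_lit 205) .nil))))))) (.g (nat_lit 1) (.e (nat_lit 72676) (nat_lit 0) .nil) .nil))) 
(.lf (nat_lit 464543) (.g (nat_lit 2401) (.e (nat_lit 3105) (nat_lit 192) (.e (nat_lit 491569) (nat_lit 13) (.e (nat_lit 393234) (nat_lit 17) (.e (nat_lit 3555) (nat_lit 220) .nil)))) (.g (nat_lit 0) (.e (nat_lit 73397) (nat_lit 0) .nil) .nil)))) (.nd (nat_lit 9) 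
(.lf (nat_lit 464287) (.g (nat_lit 2758) (.e (nat_lit 3098) (nat_lit 192) (.e (nat_lit 491569) (nat_lit 13) (.e (nat_lit 393301) (nat_lit 27) (.e (nat_lit 491560) (nat_lit 10) (.e (nat_lit 344091) (nat_lit 18) .nil))))) (.g (nat_lit 0) (.e (nat_lit 73064) (nat_lit 0) .nil) .nil))) 
(.lf (nat_lit 464799) (.g (nat_lit 4045) (.e (nat_lit 3230) (nat_lit 197) (.e (nat_lit 532550) (nat_lit 12) (.e (nat_lit 360475) (nat_lit 8) (.e (nat_lit 557091) (nat_lit 12) (.e (nat_lit 164022) (nat_lit 46) (.e (nat_lit 704737) (nat_lit 11) (.e (nat_lit 16384) (nat_lit 0) .nil))))))) (.g (nat_lit 1) (.e (nat_lit 73857) (nat_lit 0) .nil) .nil)))))) 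
(.nd (nat_lit 7) (.nd (nat_lit 8) (.nd (nat_lit 9) 
(.lf (nat_lit 463967) (.g (nat_lit 1297) (.e (nat_lit 3096) (nat_lit 192) (.e (nat_lit 491571) (nat_lit 13) (.e (nat_lit 393253) (nat_lit 18) .nil))) (.g (nat_lit 0) (.e (nat_lit 72555) (nat_lit 0) .nil) .nil))) 
(.lf (nat_lit 464479) (.g (nat_lit 1944) (.e (nat_lit 3103) (nat_lit 192) (.e (nat_lit 491569) (nat_lit 13) (.e (nat_lit 393301) (nat_lit 27) (.e (nat_lit 491558) (nat_lit 10) .nil)))) (.g (nat_lit 0) (.e (nat_lit 73321) (nat_lit 0) .nil) .nil)))) (.nd (nat_lit 9) 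
(.lf (nat_lit 464223) (.g (nat_lit 3381) (.e (nat_lit 3098) (nat_lit 192) (.e (nat_lit 491569) (nat_lit 13) (.e (nat_lit 393301) (nat_lit 27) (.e (nat_lit 491559) (nat_lit 10) (.e (nat_lit 344171) (nat_lit 41) (.e (nat_lit 753671) (nat_lit 5) .nil)))))) (.g (nat_lit 1) (.e (nat_lit 73000) (nat_lit 0) .nil) .nil))) 
(.lf (nat_lit 464735) (.g (nat_lit 2524) (.e (nat_lit 3230) (nat_lit 197) (.e (nat_lit 532504) (nat_lit 1) (.e (nat_lit 57851) (nat_lit 252) (.e (nat_lit 57406) (nat_lit 12) (.e (nat_lit 336456) (nat_lit 34) (.e (nat_lit 483391) (nat_lit 23) (.e (nat_lit 336246) (nat_lit 15) .nil))))))) (.g (nat_lit 1) (.e (nat_lit 73724) (nat_lit 0) .nil) .nil))))) (.nd (nat_lit 8) (.nd (nat_lit 9) 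
(.lf (nat_lit 464095) (.g (nat_lit 4751) (.e (nat_lit 3098) (nat_lit 192) (.e (nat_lit 491565) (nat_lit 12) (.e (nat_lit 385073) (nat_lit 31) (.e (nat_lit 573493) (nat_lit 15) (.e (nat_lit 81951) (nat_lit 22) (.e (nat_lit 90134) (nat_lit 9) .nil)))))) (.g (nat_lit 1) (.e (nat_lit 72752) (nat_lit 0) .nil) .nil))) 
(.lf (nat_lit 464607) (.g (nat_lit 1175) (.e (nat_lit 3141) (nat_lit 193) (.e (nat_lit 500065) (nat_lit 18) (.e (nat_lit 65630) (nat_lit 14) (.e (nat_lit 401428) (nat_lit 3) .nil)))) (.g (nat_lit 0) (.e (nat_lit 73507) (nat_lit 0) .nil) .nil)))) (.nd (nat_lit 9) 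
(.lf (nat_lit 464351) (.g (nat_lit 3542) (.e (nat_lit 3098) (nat_lit 192) (.e (nat_lit 491571) (nat_lit 13) (.e (nat_lit 393260) (nat_lit 21) (.e (nat_lit 409643) (nat_lit 18) .nil)))) (.g (nat_lit 0) (.e (nat_lit 73156) (nat_lit 0) .nil) .nil))) 
(.lf (nat_lit 464863) (.g (nat_lit 4993) (.e (nat_lit 3232) (nat_lit 197) (.e (nat_lit 532550) (nat_lit 12) (.e (nat_lit 360475) (nat_lit 8) (.e (nat_lit 557087) (nat_lit 11) .nil)))) (.g (nat_lit 0) (.e (nat_lit 73999) (nat_lit 0) .nil) .nil))))))) (.nd (nat_lit 6) (.nd (nat_lit 7) (.nd (nat_lit 8) (.nd (nat_lit 9) 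
(.lf (nat_lit 463935) (.g (nat_lit 2987) (.e (nat_lit 3096) (nat_lit 192) (.e (nat_lit 491569) (nat_lit 13) (.e (nat_lit 393301) (nat_lit 27) (.e (nat_lit 491560) (nat_lit 10) (.e (nat_lit 344087) (nat_lit 18) .nil))))) (.g (nat_lit 0) (.e (nat_lit 72512) (nat_lit 0) .nil) .nil))) 
(.lf (nat_lit 464447) (.g (nat_lit 1636) (.e (nat_lit 3102) (nat_lit 192) (.e (nat_lit 491560) (nat_lit 10) (.e (nat_lit 344117) (nat_lit 21) (.e (nat_lit 516185) (nat_lit 16) .nil)))) (.g (nat_lit 0) (.e (nat_lit 73285) (nat_lit 0) .nil) .nil)))) (.nd (nat_lit 9) 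
(.lf (nat_lit 464191) (.g (nat_lit 2468) (.e (nat_lit 3098) (nat_lit 192) (.e (nat_lit 491569) (nat_lit 13) (.e (nat_lit 393301) (nat_lit 27) (.e (nat_lit 491558) (nat_lit 10) (.e (nat_lit 344097) (nat_lit 18) (.e (nat_lit 6875) (nat_lit 371) (.e (nat_lit 2444) (nat_lit 157) .nil))))))) (.g (nat_lit 1) (.e (nat_lit 72968) (nat_lit 0) .nil) .nil))) 
(.lf (nat_lit 464703) (.g (nat_lit 3192) (.e (nat_lit 3230) (nat_lit 197) (.e (nat_lit 532503) (nat_lit 1) (.e (nat_lit 57931) (nat_lit 282) (.e (nat_lit 163869) (nat_lit 2) (.e (nat_lit 196670) (nat_lit 14) (.e (nat_lit 73746) (nat_lit 3) (.e (nat_lit 516129) (nat_lit 3) (.e (nat_lit 221195) (nat_lit 20) .nil)))))))) (.g (nat_lit 1) (.e (nat_lit 73687) (nat_lit 0) .nil) .nil))))) 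
(.nd (nat_lit 8) (.nd (nat_lit 9) 
(.lf (nat_lit 464063) (.g (nat_lit 4816) (.e (nat_lit 3098) (nat_lit 192) (.e (nat_lit 491549) (nat_lit 9) (.e (nat_lit 336306) (nat_lit 15) (.e (nat_lit 3297) (nat_lit 202) (.e (nat_lit 573481) (nat_lit 13) (.e (nat_lit 65604) (nat_lit 9) (.e (nat_lit 336013) (nat_lit 2) (.e (nat_lit 90134) (nat_lit 9) .nil)))))))) (.g (nat_lit 1) (.e (nat_lit 72711) (nat_lit 0) .nil) .nil))) 
(.lf (nat_lit 464575) (.g (nat_lit 3970) (.e (nat_lit 3107) (nat_lit 193) (.e (nat_lit 500075) (nat_lit 20) (.e (nat_lit 81956) (nat_lit 23) (.e (nat_lit 98350) (nat_lit 24) (.e (nat_lit 409649) (nat_lit 18) (.e (nat_lit 303111) (nat_lit 0) .nil)))))) (.g (nat_lit 1) (.e (nat_lit 73452) (nat_lit 0) .nil) .nil)))) (.nd (nat_lit 9) 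
(.lf (nat_lit 464319) (.g (nat_lit 3700) (.e (nat_lit 3098) (nat_lit 192) (.e (nat_lit 491569) (nat_lit 13) (.e (nat_lit 393301) (nat_lit 27) (.e (nat_lit 491560) (nat_lit 10) (.e (nat_lit 344099) (nat_lit 18) (.e (nat_lit 6900) (nat_lit 371) (.e (nat_lit 2445) (nat_lit 157) .nil))))))) (.g (nat_lit 1) (.e (nat_lit 73096) (nat_lit 0) .nil) .nil))) 
(.lf (nat_lit 464831) (.g (nat_lit 1539) (.e (nat_lit 3231) (nat_lit 197) (.e (nat_lit 532530) (nat_lit 9) (.e (nat_lit 336326) (nat_lit 18) (.e (nat_lit 204854) (nat_lit 26) .nil)))) (.g (nat_lit 0) (.e (nat_lit 73920) (nat_lit 0) .nil) .nil)))))) (.nd (nat_lit 7) (.nd (nat_lit 8) (.nd (nat_lit 9) 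
(.lf (nat_lit 463999) (.g (nat_lit 2313) (.e (nat_lit 3097) (nat_lit 192) (.e (nat_lit 491569) (nat_lit 13) (.e (nat_lit 393301) (nat_lit 27) (.e (nat_lit 491559) (nat_lit 10) .nil)))) (.g (nat_lit 0) (.e (nat_lit 72625) (nat_lit 0) .nil) .nil))) 
(.lf (nat_lit 464511) (.g (nat_lit 2260) (.e (nat_lit 3105) (nat_lit 192) (.e (nat_lit 491537) (nat_lit 2) (.e (nat_lit 90170) (nat_lit 13) (.e (nat_lit 172106) (nat_lit 10) .nil)))) (.g (nat_lit 0) (.e (nat_lit 73354) (nat_lit 0) .nil) .nil)))) (.nd (nat_lit 9) 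
(.lf (nat_lit 464255) (.g (nat_lit 2805) (.e (nat_lit 3098) (nat_lit 192) (.e (nat_lit 491569) (nat_lit 13) (.e (nat_lit 393301) (nat_lit 27) (.e (nat_lit 491560) (nat_lit 10) (.e (nat_lit 344088) (nat_lit 18) (.e (nat_lit 6901) (nat_lit 371) (.e (nat_lit 2445) (nat_lit 157) .nil))))))) (.g (nat_lit 1) (.e (nat_lit 73032) (nat_lit 0) .nil) .nil))) 
(.lf (nat_lit 464767) (.g (nat_lit 3363) (.e (nat_lit 3230) (nat_lit 197) (.e (nat_lit 532550) (nat_lit 12) (.e (nat_lit 360474) (nat_lit 8) (.e (nat_lit 557085) (nat_lit 11) .nil)))) (.g (nat_lit 0) (.e (nat_lit 73823) (nat_lit 0) .nil) .nil))))) (.nd (nat_lit 8) (.nd (nat_lit 9) 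
(.lf (nat_lit 464127) (.g (nat_lit 4859) (.e (nat_lit 3098) (nat_lit 192) (.e (nat_lit 491566) (nat_lit 12) (.e (nat_lit 385074) (nat_lit 31) (.e (nat_lit 573493) (nat_lit 15) (.e (nat_lit 81951) (nat_lit 22) (.e (nat_lit 90134) (nat_lit 9) .nil)))))) (.g (nat_lit 1) (.e (nat_lit 72848) (nat_lit 0) .nil) .nil))) 
(.lf (nat_lit 464639) (.g (nat_lit 7092) (.e (nat_lit 3229) (nat_lit 197) (.e (nat_lit 532550) (nat_lit 12) (.e (nat_lit 360475) (nat_lit 8) (.e (nat_lit 557090) (nat_lit 12) .nil)))) (.g (nat_lit 0) (.e (nat_lit 73610) (nat_lit 0) .nil) .nil)))) (.nd (nat_lit 9) 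
(.lf (nat_lit 464383) (.g (nat_lit 2105) (.e (nat_lit 3101) (nat_lit 192) (.e (nat_lit 491565) (nat_lit 12) (.e (nat_lit 385102) (nat_lit 50) (.e (nat_lit 786483) (nat_lit 30) (.e (nat_lit 360484) (nat_lit 15) (.e (nat_lit 647171) (nat_lit 0) .nil)))))) (.g (nat_lit 1) (.e (nat_lit 73218) (nat_lit 0) .nil) .nil))) 
(.lf (nat_lit 464895) (.g (nat_lit 4982) (.e (nat_lit 3234) (nat_lit 197) (.e (nat_lit 532550) (nat_lit 12) (.e (nat_lit 360475) (nat_lit 8) (.e (nat_lit 557068) (nat_lit 9) .nil)))) (.g (nat_lit 0) (.e (nat_lit 74074) (nat_lit 0) .nil) .nil)))))))))))))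

noncomputable def tv5514 : DT := (.nd (nat_lit 0) (.nd (nat_lit 1) (.nd (nat_lit 2) (.nd (nat_lit 3) (.nd (nat_lit 4) (.nd (nat_lit 5) (.nd (nat_lit 6) (.nd (nat_lit 7) (.nd (nat_lit 8) (.nd (nat_lit 9) 
(.lf (nat_lit 464896) (.g (nat_lit 5676) (.e (nat_lit 3234) (nat_lit 197) (.e (nat_lit 532550) (nat_lit 12) (.e (nat_lit 360475) (nat_lit 8) (.e (nat_lit 557073) (nat_lit 9) .nil)))) (.g (nat_lit 0) (.e (nat_lit 74075) (nat_lit 0) .nil) .nil))) 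
(.lf (nat_lit 465408) (.g (nat_lit 6576) (.e (nat_lit 3238) (nat_lit 197) (.e (nat_lit 532535) (nat_lit 9) (.e (nat_lit 336099) (nat_lit 9) (.e (nat_lit 336013) (nat_lit 2) (.e (nat_lit 90121) (nat_lit 9) (.e (nat_lit 2830) (nat_lit 182) (.e (nat_lit 409649) (nat_lit 18) (.e (nat_lit 303104) (nat_lit 0) .nil)))))))) (.g (nat_lit 1) (.e (nat_lit 74847) (nat_lit 0) .nil) .nil)))) (.nd (nat_lit 9) 
(.lf (nat_lit 465152) (.g (nat_lit 3547) (.e (nat_lit 3238) (nat_lit 197) (.e (nat_lit 532522) (nat_lit 7) (.e (nat_lit 319530) (nat_lit 16) (.e (nat_lit 286733) (nat_lit 2) (.e (nat_lit 90134) (nat_lit 9) (.e (nat_lit 3002) (nat_lit 186) (.e (nat_lit 442406) (nat_lit 20) .nil))))))) (.g (nat_lit 1) (.e (nat_lit 74543) (nat_lit 0) .nil) .nil))) 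
(.lf (nat_lit 465664) (.g (nat_lit 3462) (.e (nat_lit 3238) (nat_lit 197) (.e (nat_lit 532550) (nat_lit 12) (.e (nat_lit 360475) (nat_lit 8) (.e (nat_lit 557089) (nat_lit 12) (.e (nat_lit 163848) (nat_lit 0) (.e (nat_lit 6418) (nat_lit 341) (.e (nat_lit 163908) (nat_lit 12) (.e (nat_lit 426003) (nat_lit 0) .nil)))))))) (.g (nat_lit 1) (.e (nat_lit 75227) (nat_lit 0) .nil) .nil))))) 
(.nd (nat_lit 8) (.nd (nat_lit 9) 
(.lf (nat_lit 465024) (.g (nat_lit 2234) (.e (nat_lit 3238) (nat_lit 197) (.e (nat_lit 532482) (nat_lit 0) (.e (nat_lit 6724) (nat_lit 362) (.e (nat_lit 180243) (nat_lit 5) (.e (nat_lit 532565) (nat_lit 15) (.e (nat_lit 385104) (nat_lit 50) (.e (nat_lit 786436) (nat_lit 0) .nil))))))) (.g (nat_lit 1) (.e (nat_lit 74356) (nat_lit 0) .nil) .nil))) 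
(.lf (nat_lit 465536) (.g (nat_lit 2496) (.e (nat_lit 3238) (nat_lit 197) (.e (nat_lit 532549) (nat_lit 12) (.e (nat_lit 360473) (nat_lit 8) (.e (nat_lit 557093) (nat_lit 12) (.e (nat_lit 164022) (nat_lit 46) (.e (nat_lit 704737) (nat_lit 11) (.e (nat_lit 16384) (nat_lit 0) .nil))))))) (.g (nat_lit 1) (.e (nat_lit 75091) (nat_lit 0) .nil) .nil)))) (.nd (nat_lit 9) 
(.lf (nat_lit 465280) (.g (nat_lit 2922) (.e (nat_lit 3238) (nat_lit 197) (.e (nat_lit 532523) (nat_lit 7) (.e (nat_lit 319533) (nat_lit 16) (.e (nat_lit 286732) (nat_lit 2) (.e (nat_lit 90178) (nat_lit 15) (.e (nat_lit 188436) (nat_lit 20) .nil)))))) (.g (nat_lit 1) (.e (nat_lit 74672) (nat_lit 0) .nil) .nil))) 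
(.lf (nat_lit 465792) (.g (nat_lit 3052) (.e (nat_lit 3237) (nat_lit 197) (.e (nat_lit 532535) (nat_lit 9) (.e (nat_lit 336099) (nat_lit 9) (.e (nat_lit 336028) (nat_lit 3) .nil)))) (.g (nat_lit 0) (.e (nat_lit 75430) (nat_lit 0) .nil) .nil)))))) (.nd (nat_lit 7) (.nd (nat_lit 8) (.nd (nat_lit 9) 
(.lf (nat_lit 464960) (.g (nat_lit 3799) (.e (nat_lit 3233) (nat_lit 197) (.e (nat_lit 532550) (nat_lit 12) (.e (nat_lit 360475) (nat_lit 8) (.e (nat_lit 557091) (nat_lit 12) .nil)))) (.g (nat_lit 0) (.e (nat_lit 74242) (nat_lit 0) .nil) .nil))) 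
(.lf (nat_lit 465472) (.g (nat_lit 1091) (.e (nat_lit 3238) (nat_lit 197) (.e (nat_lit 532535) (nat_lit 9) (.e (nat_lit 336176) (nat_lit 10) (.e (nat_lit 344132) (nat_lit 26) .nil)))) (.g (nat_lit 0) (.e (nat_lit 74942) (nat_lit 0) .nil) .nil)))) (.nd (nat_lit 9) 
(.lf (nat_lit 465216) (.g (nat_lit 3357) (.e (nat_lit 3238) (nat_lit 197) (.e (nat_lit 532523) (nat_lit 7) (.e (nat_lit 319530) (nat_lit 16) (.e (nat_lit 286735) (nat_lit 3) (.e (nat_lit 98371) (nat_lit 28) (.e (nat_lit 442404) (nat_lit 20) .nil)))))) (.g (nat_lit 1) (.e (nat_lit 74607) (nat_lit 0) .nil) .nil))) 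
(.lf (nat_lit 465728) (.g (nat_lit 3307) (.e (nat_lit 3238) (nat_lit 197) (.e (nat_lit 532563) (nat_lit 15) (.e (nat_lit 385068) (nat_lit 26) (.e (nat_lit 532530) (nat_lit 9) (.e (nat_lit 336326) (nat_lit 18) (.e (nat_lit 204854) (nat_lit 26) (.e (nat_lit 336306) (nat_lit 15) .nil))))))) (.g (nat_lit 1) (.e (nat_lit 75294) (nat_lit 0) .nil) .nil))))) (.nd (nat_lit 8) (.nd (nat_lit 9) 
(.lf (nat_lit 465088) (.g (nat_lit 2997) (.e (nat_lit 3238) (nat_lit 197) (.e (nat_lit 532501) (nat_lit 1) (.e (nat_lit 57851) (nat_lit 252) (.e (nat_lit 57406) (nat_lit 12) (.e (nat_lit 336456) (nat_lit 34) .nil))))) (.g (nat_lit 0) (.e (nat_lit 74434) (nat_lit 0) .nil) .nil))) 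
(.lf (nat_lit 465600) (.g (nat_lit 2957) (.e (nat_lit 3238) (nat_lit 197) (.e (nat_lit 532550) (nat_lit 12) (.e (nat_lit 360474) (nat_lit 8) (.e (nat_lit 557093) (nat_lit 12) (.e (nat_lit 164022) (nat_lit 46) (.e (nat_lit 704735) (nat_lit 11) (.e (nat_lit 16396) (nat_lit 0) .nil))))))) (.g (nat_lit 1) (.e (nat_lit 75162) (nat_lit 0) .nil) .nil)))) (.nd (nat_lit 9) 
(.lf (nat_lit 465344) (.g (nat_lit 2496) (.e (nat_lit 3238) (nat_lit 197) (.e (nat_lit 532523) (nat_lit 7) (.e (nat_lit 319534) (nat_lit 16) (.e (nat_lit 286733) (nat_lit 2) (.e (nat_lit 90176) (nat_lit 15) (.e (nat_lit 188440) (nat_lit 20) .nil)))))) (.g (nat_lit 1) (.e (nat_lit 74740) (nat_lit 0) .nil) .nil))) 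
(.lf (nat_lit 465856) (.g (nat_lit 2755) (.e (nat_lit 3241) (nat_lit 197) (.e (nat_lit 532500) (nat_lit 1) (.e (nat_lit 57931) (nat_lit 282) (.e (nat_lit 163869) (nat_lit 2) (.e (nat_lit 196670) (nat_lit 14) .nil))))) (.g (nat_lit 0) (.e (nat_lit 75523) (nat_lit 0) .nil) .nil))))))) (.nd (nat_lit 6) (.nd (nat_lit 7) (.nd (nat_lit 8) (.nd (nat_lit 9) 
(.lf (nat_lit 464928) (.g (nat_lit 1076) (.e (nat_lit 3233) (nat_lit 197) (.e (nat_lit 532504) (nat_lit 1) (.e (nat_lit 57854) (nat_lit 252) .nil))) (.g (nat_lit 0) (.e (nat_lit 74129) (nat_lit 0) .nil) .nil))) 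
(.lf (nat_lit 465440) (.g (nat_lit 6227) (.e (nat_lit 3238) (nat_lit 197) (.e (nat_lit 532535) (nat_lit 9) (.e (nat_lit 336099) (nat_lit 9) (.e (nat_lit 336028) (nat_lit 3) (.e (nat_lit 98350) (nat_lit 24) (.e (nat_lit 409649) (nat_lit 18) (.e (nat_lit 303111) (nat_lit 0) .nil))))))) (.g (nat_lit 1) (.e (nat_lit 74879) (nat_lit 0) .nil) .nil)))) (.nd (nat_lit 9) 
(.lf (nat_lit 465184) (.g (nat_lit 2455) (.e (nat_lit 3238) (nat_lit 197) (.e (nat_lit 532523) (nat_lit 7) (.e (nat_lit 319529) (nat_lit 16) (.e (nat_lit 286733) (nat_lit 2) (.e (nat_lit 90177) (nat_lit 15) (.e (nat_lit 188424) (nat_lit 20) .nil)))))) (.g (nat_lit 1) (.e (nat_lit 74575) (nat_lit 0) .nil) .nil))) 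
(.lf (nat_lit 465696) (.g (nat_lit 3899) (.e (nat_lit 3238) (nat_lit 197) (.e (nat_lit 532550) (nat_lit 12) (.e (nat_lit 360475) (nat_lit 8) (.e (nat_lit 557091) (nat_lit 12) (.e (nat_lit 164022) (nat_lit 46) (.e (nat_lit 704736) (nat_lit 11) (.e (nat_lit 16396) (nat_lit 0) .nil))))))) (.g (nat_lit 1) (.e (nat_lit 75259) (nat_lit 0) .nil) .nil))))) (.nd (nat_lit 8) (.nd (nat_lit 9) 
(.lf (nat_lit 465056) (.g (nat_lit 3016) (.e (nat_lit 3238) (nat_lit 197) (.e (nat_lit 532500) (nat_lit 1) (.e (nat_lit 57851) (nat_lit 252) (.e (nat_lit 57406) (nat_lit 12) (.e (nat_lit 336367) (nat_lit 27) (.e (nat_lit 426542) (nat_lit 29) (.e (nat_lit 360192) (nat_lit 0) .nil))))))) (.g (nat_lit 1) (.e (nat_lit 74401) (nat_lit 0) .nil) .nil))) 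
(.lf (nat_lit 465568) (.g (nat_lit 4441) (.e (nat_lit 3238) (nat_lit 197) (.e (nat_lit 532549) (nat_lit 12) (.e (nat_lit 360475) (nat_lit 8) (.e (nat_lit 557087) (nat_lit 11) (.e (nat_lit 24665) (nat_lit 14) (.e (nat_lit 401408) (nat_lit 0) .nil)))))) (.g (nat_lit 1) (.e (nat_lit 75124) (nat_lit 0) .nil) .nil)))) (.nd (nat_lit 9) 
(.lf (nat_lit 465312) (.g (nat_lit 3525) (.e (nat_lit 3238) (nat_lit 197) (.e (nat_lit 532523) (nat_lit 7) (.e (nat_lit 319533) (nat_lit 16) (.e (nat_lit 286735) (nat_lit 3) (.e (nat_lit 98371) (nat_lit 28) (.e (nat_lit 442404) (nat_lit 20) .nil)))))) (.g (nat_lit 1) (.e (nat_lit 74705) (nat_lit 0) .nil) .nil))) 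
(.lf (nat_lit 465824) (.g (nat_lit 2707) (.e (nat_lit 3240) (nat_lit 197) (.e (nat_lit 532499) (nat_lit 1) (.e (nat_lit 57927) (nat_lit 282) (.e (nat_lit 163869) (nat_lit 2) (.e (nat_lit 196666) (nat_lit 13) (.e (nat_lit 65569) (nat_lit 3) (.e (nat_lit 98342) (nat_lit 20) (.e (nat_lit 221198) (nat_lit 20) .nil)))))))) (.g (nat_lit 1) (.e (nat_lit 75470) (nat_lit 0) .nil) .nil)))))) 
(.nd (nat_lit 7) (.nd (nat_lit 8) (.nd (nat_lit 9) 
(.lf (nat_lit 464992) (.g (nat_lit 3046) (.e (nat_lit 3233) (nat_lit 197) (.e (nat_lit 532569) (nat_lit 16) (.e (nat_lit 401448) (nat_lit 10) (.e (nat_lit 434231) (nat_lit 23) (.e (nat_lit 532569) (nat_lit 16) .nil))))) (.g (nat_lit 0) (.e (nat_lit 74293) (nat_lit 0) .nil) .nil))) 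
(.lf (nat_lit 465504) (.g (nat_lit 2540) (.e (nat_lit 3238) (nat_lit 197) (.e (nat_lit 532549) (nat_lit 12) (.e (nat_lit 360466) (nat_lit 3) (.e (nat_lit 516139) (nat_lit 7) (.e (nat_lit 409648) (nat_lit 18) .nil))))) (.g (nat_lit 0) (.e (nat_lit 75056) (nat_lit 0) .nil) .nil)))) (.nd (nat_lit 9) 
(.lf (nat_lit 465248) (.g (nat_lit 2719) (.e (nat_lit 3238) (nat_lit 197) (.e (nat_lit 532523) (nat_lit 7) (.e (nat_lit 319531) (nat_lit 16) (.e (nat_lit 286735) (nat_lit 3) (.e (nat_lit 98371) (nat_lit 28) .nil))))) (.g (nat_lit 0) (.e (nat_lit 74639) (nat_lit 0) .nil) .nil))) 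
(.lf (nat_lit 465760) (.g (nat_lit 2329) (.e (nat_lit 3239) (nat_lit 197) (.e (nat_lit 532504) (nat_lit 1) (.e (nat_lit 57851) (nat_lit 252) (.e (nat_lit 57408) (nat_lit 12) (.e (nat_lit 336454) (nat_lit 34) .nil))))) (.g (nat_lit 0) (.e (nat_lit 75388) (nat_lit 0) .nil) .nil))))) (.nd (nat_lit 8) (.nd (nat_lit 9) 
(.lf (nat_lit 465120) (.g (nat_lit 4100) (.e (nat_lit 3238) (nat_lit 197) (.e (nat_lit 532504) (nat_lit 1) (.e (nat_lit 57852) (nat_lit 252) (.e (nat_lit 57406) (nat_lit 12) (.e (nat_lit 336454) (nat_lit 34) (.e (nat_lit 483385) (nat_lit 23) (.e (nat_lit 336306) (nat_lit 15) .nil))))))) (.g (nat_lit 1) (.e (nat_lit 74472) (nat_lit 0) .nil) .nil))) 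
(.lf (nat_lit 465632) (.g (nat_lit 5532) (.e (nat_lit 3238) (nat_lit 197) (.e (nat_lit 532550) (nat_lit 12) (.e (nat_lit 360475) (nat_lit 8) (.e (nat_lit 557085) (nat_lit 11) (.e (nat_lit 24665) (nat_lit 14) (.e (nat_lit 401414) (nat_lit 0) .nil)))))) (.g (nat_lit 1) (.e (nat_lit 75195) (nat_lit 0) .nil) .nil)))) (.nd (nat_lit 9) 
(.lf (nat_lit 465376) (.g (nat_lit 4350) (.e (nat_lit 3238) (nat_lit 197) (.e (nat_lit 532523) (nat_lit 7) (.e (nat_lit 319534) (nat_lit 16) (.e (nat_lit 286735) (nat_lit 3) (.e (nat_lit 98370) (nat_lit 28) (.e (nat_lit 442410) (nat_lit 20) .nil)))))) (.g (nat_lit 1) (.e (nat_lit 74772) (nat_lit 0) .nil) .nil))) 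
(.lf (nat_lit 465888) (.g (nat_lit 2112) (.e (nat_lit 3242) (nat_lit 197) (.e (nat_lit 532499) (nat_lit 1) (.e (nat_lit 57926) (nat_lit 282) (.e (nat_lit 163869) (nat_lit 2) (.e (nat_lit 196670) (nat_lit 14) .nil))))) (.g (nat_lit 0) (.e (nat_lit 75594) (nat_lit 0) .nil) .nil)))))))) (.nd (nat_lit 5) (.nd (nat_lit 6) (.nd (nat_lit 7) (.nd (nat_lit 8) (.nd (nat_lit 9) 
(.lf (nat_lit 464912) (.g (nat_lit 1174) (.e (nat_lit 3235) (nat_lit 197) (.e (nat_lit 532550) (nat_lit 12) (.e (nat_lit 360474) (nat_lit 8) .nil))) (.g (nat_lit 0) (.e (nat_lit 74109) (nat_lit 0) .nil) .nil))) 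
(.lf (nat_lit 465424) (.g (nat_lit 4961) (.e (nat_lit 3238) (nat_lit 197) (.e (nat_lit 532535) (nat_lit 9) (.e (nat_lit 336099) (nat_lit 9) (.e (nat_lit 336013) (nat_lit 2) (.e (nat_lit 90134) (nat_lit 9) (.e (nat_lit 2822) (nat_lit 182) (.e (nat_lit 409649) (nat_lit 18) (.e (nat_lit 303104) (nat_lit 0) .nil)))))))) (.g (nat_lit 1) (.e (nat_lit 74863) (nat_lit 0) .nil) .nil)))) (.nd (nat_lit 9) 
(.lf (nat_lit 465168) (.g (nat_lit 3052) (.e (nat_lit 3238) (nat_lit 197) (.e (nat_lit 532523) (nat_lit 7) (.e (nat_lit 319528) (nat_lit 16) (.e (nat_lit 286733) (nat_lit 2) (.e (nat_lit 90177) (nat_lit 15) (.e (nat_lit 188437) (nat_lit 20) .nil)))))) (.g (nat_lit 1) (.e (nat_lit 74559) (nat_lit 0) .nil) .nil))) 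
(.lf (nat_lit 465680) (.g (nat_lit 6654) (.e (nat_lit 3238) (nat_lit 197) (.e (nat_lit 532550) (nat_lit 12) (.e (nat_lit 360475) (nat_lit 8) (.e (nat_lit 557090) (nat_lit 12) (.e (nat_lit 164020) (nat_lit 45) (.e (nat_lit 696344) (nat_lit 8) (.e (nat_lit 172046) (nat_lit 0) .nil))))))) (.g (nat_lit 1) (.e (nat_lit 75243) (nat_lit 0) .nil) .nil))))) (.nd (nat_lit 8) (.nd (nat_lit 9) 
(.lf (nat_lit 465040) (.g (nat_lit 2844) (.e (nat_lit 3238) (nat_lit 197) (.e (nat_lit 532499) (nat_lit 1) (.e (nat_lit 57927) (nat_lit 282) (.e (nat_lit 163868) (nat_lit 2) (.e (nat_lit 196668) (nat_lit 14) (.e (nat_lit 73747) (nat_lit 3) (.e (nat_lit 516131) (nat_lit 3) (.e (nat_lit 221195) (nat_lit 20) .nil)))))))) (.g (nat_lit 1) (.e (nat_lit 74381) (nat_lit 0) .nil) .nil))) 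
(.lf (nat_lit 465552) (.g (nat_lit 2399) (.e (nat_lit 3238) (nat_lit 197) (.e (nat_lit 532549) (nat_lit 12) (.e (nat_lit 360474) (nat_lit 8) (.e (nat_lit 557093) (nat_lit 12) (.e (nat_lit 164022) (nat_lit 46) (.e (nat_lit 704737) (nat_lit 11) (.e (nat_lit 16396) (nat_lit 0) .nil))))))) (.g (nat_lit 1) (.e (nat_lit 75107) (nat_lit 0) .nil) .nil)))) (.nd (nat_lit 9) 
(.lf (nat_lit 465296) (.g (nat_lit 3437) (.e (nat_lit 3238) (nat_lit 197) (.e (nat_lit 532523) (nat_lit 7) (.e (nat_lit 319533) (nat_lit 16) (.e (nat_lit 286734) (nat_lit 3) (.e (nat_lit 98369) (nat_lit 28) (.e (nat_lit 442407) (nat_lit 20) .nil)))))) (.g (nat_lit 1) (.e (nat_lit 74689) (nat_lit 0) .nil) .nil))) 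
(.lf (nat_lit 465808) (.g (nat_lit 4965) (.e (nat_lit 3237) (nat_lit 197) (.e (nat_lit 532550) (nat_lit 12) (.e (nat_lit 360475) (nat_lit 8) (.e (nat_lit 557086) (nat_lit 11) .nil)))) (.g (nat_lit 0) (.e (nat_lit 75453) (nat_lit 0) .nil) .nil)))))) (.nd (nat_lit 7) (.nd (nat_lit 8) (.nd (nat_lit 9) 
(.lf (nat_lit 464976) (.g (nat_lit 2916) (.e (nat_lit 3233) (nat_lit 197) (.e (nat_lit 532560) (nat_lit 14) (.e (nat_lit 376865) (nat_lit 22) (.e (nat_lit 90185) (nat_lit 17) (.e (nat_lit 237585) (nat_lit 1) (.e (nat_lit 164402) (nat_lit 256) (.e (nat_lit 57579) (nat_lit 61) .nil))))))) (.g (nat_lit 1) (.e (nat_lit 74269) (nat_lit 0) .nil) .nil))) 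
(.lf (nat_lit 465488) (.g (nat_lit 2020) (.e (nat_lit 3238) (nat_lit 197) (.e (nat_lit 532547) (nat_lit 11) (.e (nat_lit 352314) (nat_lit 23) (.e (nat_lit 98350) (nat_lit 24) (.e (nat_lit 409648) (nat_lit 18) (.e (nat_lit 303109) (nat_lit 0) .nil)))))) (.g (nat_lit 1) (.e (nat_lit 75040) (nat_lit 0) .nil) .nil)))) (.nd (nat_lit 9) 
(.lf (nat_lit 465232) (.g (nat_lit 4885) (.e (nat_lit 3238) (nat_lit 197) (.e (nat_lit 532523) (nat_lit 7) (.e (nat_lit 319531) (nat_lit 16) (.e (nat_lit 286733) (nat_lit 2) (.e (nat_lit 90177) (nat_lit 15) (.e (nat_lit 188434) (nat_lit 20) .nil)))))) (.g (nat_lit 1) (.e (nat_lit 74623) (nat_lit 0) .nil) .nil))) 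
(.lf (nat_lit 465744) (.g (nat_lit 3697) (.e (nat_lit 3238) (nat_lit 197) (.e (nat_lit 532569) (nat_lit 16) (.e (nat_lit 401451) (nat_lit 12) (.e (nat_lit 475185) (nat_lit 29) (.e (nat_lit 557107) (nat_lit 15) .nil))))) (.g (nat_lit 0) (.e (nat_lit 75313) (nat_lit 0) .nil) .nil))))) (.nd (nat_lit 8) (.nd (nat_lit 9) 
(.lf (nat_lit 465104) (.g (nat_lit 4360) (.e (nat_lit 3238) (nat_lit 197) (.e (nat_lit 532503) (nat_lit 1) (.e (nat_lit 57847) (nat_lit 252) (.e (nat_lit 57407) (nat_lit 12) (.e (nat_lit 336454) (nat_lit 34) (.e (nat_lit 483385) (nat_lit 23) (.e (nat_lit 336306) (nat_lit 15) .nil))))))) (.g (nat_lit 1) (.e (nat_lit 74455) (nat_lit 0) .nil) .nil))) 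
(.lf (nat_lit 465616) (.g (nat_lit 3403) (.e (nat_lit 3238) (nat_lit 197) (.e (nat_lit 532550) (nat_lit 12) (.e (nat_lit 360474) (nat_lit 8) (.e (nat_lit 557094) (nat_lit 12) (.e (nat_lit 164022) (nat_lit 46) (.e (nat_lit 704737) (nat_lit 11) (.e (nat_lit 16384) (nat_lit 0) .nil))))))) (.g (nat_lit 1) (.e (nat_lit 75178) (nat_lit 0) .nil) .nil)))) (.nd (nat_lit 9) 
(.lf (nat_lit 465360) (.g (nat_lit 3788) (.e (nat_lit 3238) (nat_lit 197) (.e (nat_lit 532523) (nat_lit 7) (.e (nat_lit 319534) (nat_lit 16) (.e (nat_lit 286734) (nat_lit 3) (.e (nat_lit 98371) (nat_lit 28) (.e (nat_lit 442407) (nat_lit 20) .nil)))))) (.g (nat_lit 1) (.e (nat_lit 74756) (nat_lit 0) .nil) .nil))) 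
(.lf (nat_lit 465872) (.g (nat_lit 1696) (.e (nat_lit 3243) (nat_lit 197) (.e (nat_lit 532500) (nat_lit 1) (.e (nat_lit 57851) (nat_lit 252) (.e (nat_lit 57408) (nat_lit 12) .nil)))) (.g (nat_lit 0) (.e (nat_lit 75569) (nat_lit 0) .nil) .nil))))))) (.nd (nat_lit 6) (.nd (nat_lit 7) (.nd (nat_lit 8) (.nd (nat_lit 9) 
(.lf (nat_lit 464944) (.g (nat_lit 1702) (.e (nat_lit 3233) (nat_lit 197) (.e (nat_lit 532549) (nat_lit 12) (.e (nat_lit 360473) (nat_lit 8) (.e (nat_lit 557093) (nat_lit 12) .nil)))) (.g (nat_lit 0) (.e (nat_lit 74214) (nat_lit 0) .nil) .nil))) 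
(.lf (nat_lit 465456) (.g (nat_lit 4282) (.e (nat_lit 3238) (nat_lit 197) (.e (nat_lit 532535) (nat_lit 9) (.e (nat_lit 336173) (nat_lit 10) (.e (nat_lit 344117) (nat_lit 21) (.e (nat_lit 516139) (nat_lit 7) (.e (nat_lit 409649) (nat_lit 18) (.e (nat_lit 303104) (nat_lit 0) .nil))))))) (.g (nat_lit 1) (.e (nat_lit 74897) (nat_lit 0) .nil) .nil)))) (.nd (nat_lit 9) 
(.lf (nat_lit 465200) (.g (nat_lit 3645) (.e (nat_lit 3238) (nat_lit 197) (.e (nat_lit 532523) (nat_lit 7) (.e (nat_lit 319530) (nat_lit 16) (.e (nat_lit 286733) (nat_lit 2) (.e (nat_lit 90134) (nat_lit 9) (.e (nat_lit 2992) (nat_lit 186) (.e (nat_lit 442406) (nat_lit 20) .nil))))))) (.g (nat_lit 1) (.e (nat_lit 74591) (nat_lit 0) .nil) .nil))) 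
(.lf (nat_lit 465712) (.g (nat_lit 2511) (.e (nat_lit 3238) (nat_lit 197) (.e (nat_lit 532560) (nat_lit 14) (.e (nat_lit 376868) (nat_lit 23) (.e (nat_lit 98350) (nat_lit 24) (.e (nat_lit 409648) (nat_lit 18) (.e (nat_lit 303104) (nat_lit 0) .nil)))))) (.g (nat_lit 1) (.e (nat_lit 75278) (nat_lit 0) .nil) .nil))))) (.nd (nat_lit 8) (.nd (nat_lit 9) 
(.lf (nat_lit 465072) (.g (nat_lit 3718) (.e (nat_lit 3238) (nat_lit 197) (.e (nat_lit 532500) (nat_lit 1) (.e (nat_lit 57851) (nat_lit 252) (.e (nat_lit 57406) (nat_lit 12) (.e (nat_lit 336456) (nat_lit 34) (.e (nat_lit 483383) (nat_lit 23) (.e (nat_lit 336260) (nat_lit 15) .nil))))))) (.g (nat_lit 1) (.e (nat_lit 74417) (nat_lit 0) .nil) .nil))) 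
(.lf (nat_lit 465584) (.g (nat_lit 3328) (.e (nat_lit 3238) (nat_lit 197) (.e (nat_lit 532550) (nat_lit 12) (.e (nat_lit 360467) (nat_lit 3) (.e (nat_lit 516139) (nat_lit 7) (.e (nat_lit 409648) (nat_lit 18) (.e (nat_lit 303104) (nat_lit 0) .nil)))))) (.g (nat_lit 1) (.e (nat_lit 75145) (nat_lit 0) .nil) .nil)))) (.nd (nat_lit 9) 
(.lf (nat_lit 465328) (.g (nat_lit 4948) (.e (nat_lit 3238) (nat_lit 197) (.e (nat_lit 532523) (nat_lit 7) (.e (nat_lit 319534) (nat_lit 16) (.e (nat_lit 286732) (nat_lit 2) (.e (nat_lit 90176) (nat_lit 15) (.e (nat_lit 188437) (nat_lit 20) .nil)))))) (.g (nat_lit 1) (.e (nat_lit 74723) (nat_lit 0) .nil) .nil))) 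
(.lf (nat_lit 465840) (.g (nat_lit 2085) (.e (nat_lit 3241) (nat_lit 197) (.e (nat_lit 532499) (nat_lit 1) (.e (nat_lit 57927) (nat_lit 282) (.e (nat_lit 163869) (nat_lit 2) (.e (nat_lit 196670) (nat_lit 14) (.e (nat_lit 73746) (nat_lit 3) (.e (nat_lit 516129) (nat_lit 3) (.e (nat_lit 221198) (nat_lit 20) .nil)))))))) (.g (nat_lit 1) (.e (nat_lit 75502) (nat_lit 0) .nil) .nil)))))) 
(.nd (nat_lit 7) (.nd (nat_lit 8) (.nd (nat_lit 9) 
(.lf (nat_lit 465008) (.g (nat_lit 2242) (.e (nat_lit 3236) (nat_lit 197) (.e (nat_lit 532504) (nat_lit 1) (.e (nat_lit 57851) (nat_lit 252) (.e (nat_lit 57406) (nat_lit 12) (.e (nat_lit 336454) (nat_lit 34) .nil))))) (.g (nat_lit 0) (.e (nat_lit 74328) (nat_lit 0) .nil) .nil))) 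
(.lf (nat_lit 465520) (.g (nat_lit 3801) (.e (nat_lit 3238) (nat_lit 197) (.e (nat_lit 532549) (nat_lit 12) (.e (nat_lit 360473) (nat_lit 8) (.e (nat_lit 557086) (nat_lit 11) (.e (nat_lit 24664) (nat_lit 14) (.e (nat_lit 401414) (nat_lit 0) .nil)))))) (.g (nat_lit 1) (.e (nat_lit 75074) (nat_lit 0) .nil) .nil)))) (.nd (nat_lit 9) 
(.lf (nat_lit 465264) (.g (nat_lit 3227) (.e (nat_lit 3238) (nat_lit 197) (.e (nat_lit 532523) (nat_lit 7) (.e (nat_lit 319532) (nat_lit 16) (.e (nat_lit 286733) (nat_lit 2) (.e (nat_lit 90178) (nat_lit 15) (.e (nat_lit 188441) (nat_lit 20) .nil)))))) (.g (nat_lit 1) (.e (nat_lit 74655) (nat_lit 0) .nil) .nil))) 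
(.lf (nat_lit 465776) (.g (nat_lit 2112) (.e (nat_lit 3237) (nat_lit 197) (.e (nat_lit 532499) (nat_lit 1) (.e (nat_lit 57926) (nat_lit 282) (.e (nat_lit 163869) (nat_lit 2) (.e (nat_lit 196670) (nat_lit 14) .nil))))) (.g (nat_lit 0) (.e (nat_lit 75410) (nat_lit 0) .nil) .nil))))) (.nd (nat_lit 8) (.nd (nat_lit 9) 
(.lf (nat_lit 465136) (.g (nat_lit 2587) (.e (nat_lit 3238) (nat_lit 197) (.e (nat_lit 532507) (nat_lit 2) (.e (nat_lit 106536) (nat_lit 11) (.e (nat_lit 16412) (nat_lit 2) (.e (nat_lit 196674) (nat_lit 15) (.e (nat_lit 89856) (nat_lit 0) .nil)))))) (.g (nat_lit 1) (.e (nat_lit 74496) (nat_lit 0) .nil) .nil))) 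
(.lf (nat_lit 465648) (.g (nat_lit 4228) (.e (nat_lit 3238) (nat_lit 197) (.e (nat_lit 532550) (nat_lit 12) (.e (nat_lit 360475) (nat_lit 8) (.e (nat_lit 557089) (nat_lit 12) (.e (nat_lit 163843) (nat_lit 0) (.e (nat_lit 6255) (nat_lit 337) (.e (nat_lit 2630) (nat_lit 164) (.e (nat_lit 172046) (nat_lit 0) .nil)))))))) (.g (nat_lit 1) (.e (nat_lit 75211) (nat_lit 0) .nil) .nil)))) (.nd (nat_lit 9) 
(.lf (nat_lit 465392) (.g (nat_lit 3245) (.e (nat_lit 3238) (nat_lit 197) (.e (nat_lit 532530) (nat_lit 9) (.e (nat_lit 336326) (nat_lit 18) (.e (nat_lit 204854) (nat_lit 26) (.e (nat_lit 336324) (nat_lit 18) (.e (nat_lit 204854) (nat_lit 26) (.e (nat_lit 336306) (nat_lit 15) .nil))))))) (.g (nat_lit 1) (.e (nat_lit 74819) (nat_lit 0) .nil) .nil))) 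
(.lf (nat_lit 465904) (.g (nat_lit 2852) (.e (nat_lit 3242) (nat_lit 197) (.e (nat_lit 532499) (nat_lit 1) (.e (nat_lit 57927) (nat_lit 282) (.e (nat_lit 163869) (nat_lit 2) (.e (nat_lit 196670) (nat_lit 14) (.e (nat_lit 73746) (nat_lit 3) (.e (nat_lit 516131) (nat_lit 3) (.e (nat_lit 221198) (nat_lit 20) .nil)))))))) (.g (nat_lit 1) (.e (nat_lit 75610) (nat_lit 0) .nil) .nil))))))))) 
(.nd (nat_lit 4) (.nd (nat_lit 5) (.nd (nat_lit 6) (.nd (nat_lit 7) (.nd (nat_lit 8) 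
(.nd (nat_lit 9) 
(.lf (nat_lit 464904) (.g (nat_lit 2579) (.e (nat_lit 3234) (nat_lit 197) (.e (nat_lit 532563) (nat_lit 15) (.e (nat_lit 385066) (nat_lit 26) (.e (nat_lit 532534) (nat_lit 9) (.e (nat_lit 336326) (nat_lit 18) (.e (nat_lit 204854) (nat_lit 26) (.e (nat_lit 336304) (nat_lit 15) .nil))))))) (.g (nat_lit 1) (.e (nat_lit 74101) (nat_lit 0) .nil) .nil))) 
(.lf (nat_lit 465416) (.g (nat_lit 5912) (.e (nat_lit 3238) (nat_lit 197) (.e (nat_lit 532535) (nat_lit 9) (.e (nat_lit 336099) (nat_lit 9) (.e (nat_lit 336013) (nat_lit 2) (.e (nat_lit 90130) (nat_lit 9) (.e (nat_lit 2830) (nat_lit 182) (.e (nat_lit 409648) (nat_lit 18) (.e (nat_lit 303109) (nat_lit 0) .nil)))))))) (.g (nat_lit 1) (.e (nat_lit 74855) (nat_lit 0) .nil) .nil)))) (.nd (nat_lit 9) 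
(.lf (nat_lit 465160) (.g (nat_lit 638) (.e (nat_lit 3238) (nat_lit 197) (.e (nat_lit 532523) (nat_lit 7) (.e (nat_lit 319528) (nat_lit 16) .nil))) (.g (nat_lit 0) (.e (nat_lit 74551) (nat_lit 0) .nil) .nil))) 
(.lf (nat_lit 465672) (.g (nat_lit 3350) (.e (nat_lit 3238) (nat_lit 197) (.e (nat_lit 532550) (nat_lit 12) (.e (nat_lit 360475) (nat_lit 8) (.e (nat_lit 557089) (nat_lit 12) (.e (nat_lit 163850) (nat_lit 0) (.e (nat_lit 6425) (nat_lit 342) (.e (nat_lit 229402) (nat_lit 12) (.e (nat_lit 426039) (nat_lit 0) .nil)))))))) (.g (nat_lit 1) (.e (nat_lit 75235) (nat_lit 0) .nil) .nil))))) 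
(.nd (nat_lit 8) (.nd (nat_lit 9) 
(.lf (nat_lit 465032) (.g (nat_lit 2012) (.e (nat_lit 3238) (nat_lit 197) (.e (nat_lit 532499) (nat_lit 1) (.e (nat_lit 57847) (nat_lit 252) (.e (nat_lit 57410) (nat_lit 12) .nil)))) (.g (nat_lit 0) (.e (nat_lit 74371) (nat_lit 0) .nil) .nil))) 
(.lf (nat_lit 465544) (.g (nat_lit 3243) (.e (nat_lit 3238) (nat_lit 197) (.e (nat_lit 532549) (nat_lit 12) (.e (nat_lit 360473) (nat_lit 8) (.e (nat_lit 557094) (nat_lit 12) (.e (nat_lit 164022) (nat_lit 46) (.e (nat_lit 704737) (nat_lit 11) (.e (nat_lit 16396) (nat_lit 0) .nil))))))) (.g (nat_lit 1) (.e (nat_lit 75099) (nat_lit 0) .nil) .nil)))) (.nd (nat_lit 9) 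
(.lf (nat_lit 465288) (.g (nat_lit 3987) (.e (nat_lit 3238) (nat_lit 197) (.e (nat_lit 532523) (nat_lit 7) (.e (nat_lit 319533) (nat_lit 16) (.e (nat_lit 286733) (nat_lit 2) (.e (nat_lit 90177) (nat_lit 15) (.e (nat_lit 188434) (nat_lit 20) .nil)))))) (.g (nat_lit 1) (.e (nat_lit 74681) (nat_lit 0) .nil) .nil))) 
(.lf (nat_lit 465800) (.g (nat_lit 4067) (.e (nat_lit 3237) (nat_lit 197) (.e (nat_lit 532550) (nat_lit 12) (.e (nat_lit 360474) (nat_lit 8) (.e (nat_lit 557094) (nat_lit 12) .nil)))) (.g (nat_lit 0) (.e (nat_lit 75444) (nat_lit 0) .nil) .nil)))))) (.nd (nat_lit 7) (.nd (nat_lit 8) (.nd (nat_lit 9) 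
(.lf (nat_lit 464968) (.g (nat_lit 6024) (.e (nat_lit 3233) (nat_lit 197) (.e (nat_lit 532550) (nat_lit 12) (.e (nat_lit 360475) (nat_lit 8) (.e (nat_lit 557094) (nat_lit 12) .nil)))) (.g (nat_lit 0) (.e (nat_lit 74251) (nat_lit 0) .nil) .nil))) 
(.lf (nat_lit 465480) (.g (nat_lit 1656) (.e (nat_lit 3238) (nat_lit 197) (.e (nat_lit 532543) (nat_lit 10) (.e (nat_lit 344130) (nat_lit 26) (.e (nat_lit 557103) (nat_lit 14) (.e (nat_lit 188160) (nat_lit 3) (.e (nat_lit 516106) (nat_lit 0) (.e (nat_lit 7936) (nat_lit 219) (.e (nat_lit 712719) (nat_lit 15) .nil)))))))) (.g (nat_lit 1) (.e (nat_lit 75023) (nat_lit 0) .nil) .nil)))) 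
(.nd (nat_lit 9) 
(.lf (nat_lit 465224) (.g (nat_lit 3822) (.e (nat_lit 3238) (nat_lit 197) (.e (nat_lit 532523) (nat_lit 7) (.e (nat_lit 319531) (nat_lit 16) (.e (nat_lit 286727) (nat_lit 0) (.e (nat_lit 1799) (nat_lit 119) (.e (nat_lit 516177) (nat_lit 14) (.e (nat_lit 466955) (nat_lit 20) .nil))))))) (.g (nat_lit 1) (.e (nat_lit 74615) (nat_lit 0) .nil) .nil))) 
(.lf (nat_lit 465736) (.g (nat_lit 2194) (.e (nat_lit 3238) (nat_lit 197) (.e (nat_lit 532569) (nat_lit 16) (.e (nat_lit 401448) (nat_lit 10) (.e (nat_lit 434232) (nat_lit 23) .nil)))) (.g (nat_lit 0) (.e (nat_lit 75303) (nat_lit 0) .nil) .nil))))) (.nd (nat_lit 8) (.nd (nat_lit 9) 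
(.lf (nat_lit 465096) (.g (nat_lit 2820) (.e (nat_lit 3238) (nat_lit 197) (.e (nat_lit 532501) (nat_lit 1) (.e (nat_lit 57854) (nat_lit 252) (.e (nat_lit 57409) (nat_lit 12) (.e (nat_lit 336454) (nat_lit 34) (.e (nat_lit 483385) (nat_lit 23) (.e (nat_lit 336306) (nat_lit 15) .nil))))))) (.g (nat_lit 1) (.e (nat_lit 74444) (nat_lit 0) .nil) .nil))) 
(.lf (nat_lit 465608) (.g (nat_lit 4280) (.e (nat_lit 3238) (nat_lit 197) (.e (nat_lit 532550) (nat_lit 12) (.e (nat_lit 360474) (nat_lit 8) (.e (nat_lit 557093) (nat_lit 12) (.e (nat_lit 164022) (nat_lit 46) (.e (nat_lit 704738) (nat_lit 11) (.e (nat_lit 16397) (nat_lit 0) .nil))))))) (.g (nat_lit 1) (.e (nat_lit 75170) (nat_lit 0) .nil) .nil)))) (.nd (nat_lit 9) 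
(.lf (nat_lit 465352) (.g (nat_lit 2604) (.e (nat_lit 3238) (nat_lit 197) (.e (nat_lit 532523) (nat_lit 7) (.e (nat_lit 319534) (nat_lit 16) (.e (nat_lit 286734) (nat_lit 3) (.e (nat_lit 98369) (nat_lit 28) .nil))))) (.g (nat_lit 0) (.e (nat_lit 74748) (nat_lit 0) .nil) .nil))) 
(.lf (nat_lit 465864) (.g (nat_lit 5085) (.e (nat_lit 3241) (nat_lit 197) (.e (nat_lit 532550) (nat_lit 12) (.e (nat_lit 360475) (nat_lit 8) (.e (nat_lit 557087) (nat_lit 11) .nil)))) (.g (nat_lit 0) (.e (nat_lit 75560) (nat_lit 0) .nil) .nil))))))) (.nd (nat_lit 6) (.nd (nat_lit 7) (.nd (nat_lit 8) (.nd (nat_lit 9) 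
(.lf (nat_lit 464936) (.g (nat_lit 1628) (.e (nat_lit 3233) (nat_lit 197) (.e (nat_lit 532523) (nat_lit 7) (.e (nat_lit 319533) (nat_lit 16) (.e (nat_lit 286734) (nat_lit 3) .nil)))) (.g (nat_lit 0) (.e (nat_lit 74191) (nat_lit 0) .nil) .nil))) 
(.lf (nat_lit 465448) (.g (nat_lit 4753) (.e (nat_lit 3238) (nat_lit 197) (.e (nat_lit 532535) (nat_lit 9) (.e (nat_lit 336111) (nat_lit 9) (.e (nat_lit 336028) (nat_lit 3) (.e (nat_lit 98350) (nat_lit 24) (.e (nat_lit 409649) (nat_lit 18) (.e (nat_lit 303111) (nat_lit 0) .nil))))))) (.g (nat_lit 1) (.e (nat_lit 74887) (nat_lit 0) .nil) .nil)))) (.nd (nat_lit 9) 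
(.lf (nat_lit 465192) (.g (nat_lit 3022) (.e (nat_lit 3238) (nat_lit 197) (.e (nat_lit 532523) (nat_lit 7) (.e (nat_lit 319529) (nat_lit 16) (.e (nat_lit 286735) (nat_lit 3) (.e (nat_lit 98371) (nat_lit 28) (.e (nat_lit 442404) (nat_lit 20) .nil)))))) (.g (nat_lit 1) (.e (nat_lit 74583) (nat_lit 0) .nil) .nil))) 
(.lf (nat_lit 465704) (.g (nat_lit 2458) (.e (nat_lit 3238) (nat_lit 197) (.e (nat_lit 532558) (nat_lit 14) (.e (nat_lit 376868) (nat_lit 23) (.e (nat_lit 98350) (nat_lit 24) (.e (nat_lit 409648) (nat_lit 18) (.e (nat_lit 303104) (nat_lit 0) .nil)))))) (.g (nat_lit 1) (.e (nat_lit 75270) (nat_lit 0) .nil) .nil))))) (.nd (nat_lit 8) (.nd (nat_lit 9) 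
(.lf (nat_lit 465064) (.g (nat_lit 2482) (.e (nat_lit 3238) (nat_lit 197) (.e (nat_lit 532500) (nat_lit 1) (.e (nat_lit 57851) (nat_lit 252) (.e (nat_lit 57406) (nat_lit 12) (.e (nat_lit 336456) (nat_lit 34) (.e (nat_lit 483378) (nat_lit 23) (.e (nat_lit 336306) (nat_lit 15) .nil))))))) (.g (nat_lit 1) (.e (nat_lit 74409) (nat_lit 0) .nil) .nil))) 
(.lf (nat_lit 465576) (.g (nat_lit 4138) (.e (nat_lit 3238) (nat_lit 197) (.e (nat_lit 532549) (nat_lit 12) (.e (nat_lit 360475) (nat_lit 8) (.e (nat_lit 557091) (nat_lit 12) (.e (nat_lit 164022) (nat_lit 46) (.e (nat_lit 704738) (nat_lit 11) (.e (nat_lit 16396) (nat_lit 0) .nil))))))) (.g (nat_lit 1) (.e (nat_lit 75132) (nat_lit 0) .nil) .nil)))) (.nd (nat_lit 9) 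
(.lf (nat_lit 465320) (.g (nat_lit 2744) (.e (nat_lit 3238) (nat_lit 197) (.e (nat_lit 532523) (nat_lit 7) (.e (nat_lit 319534) (nat_lit 16) (.e (nat_lit 286728) (nat_lit 0) (.e (nat_lit 1802) (nat_lit 119) (.e (nat_lit 516164) (nat_lit 11) (.e (nat_lit 442404) (nat_lit 20) .nil))))))) (.g (nat_lit 1) (.e (nat_lit 74715) (nat_lit 0) .nil) .nil))) 
(.lf (nat_lit 465832) (.g (nat_lit 5038) (.e (nat_lit 3240) (nat_lit 197) (.e (nat_lit 532550) (nat_lit 12) (.e (nat_lit 360474) (nat_lit 8) (.e (nat_lit 557093) (nat_lit 12) (.e (nat_lit 164022) (nat_lit 46) (.e (nat_lit 704738) (nat_lit 11) (.e (nat_lit 16385) (nat_lit 0) .nil))))))) (.g (nat_lit 1) (.e (nat_lit 75492) (nat_lit 0) .nil) .nil)))))) 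
(.nd (nat_lit 7) (.nd (nat_lit 8) (.nd (nat_lit 9) 
(.lf (nat_lit 465000) (.g (nat_lit 2215) (.e (nat_lit 3236) (nat_lit 197) (.e (nat_lit 532499) (nat_lit 1) (.e (nat_lit 57927) (nat_lit 282) (.e (nat_lit 163869) (nat_lit 2) (.e (nat_lit 196668) (nat_lit 14) (.e (nat_lit 73747) (nat_lit 3) (.e (nat_lit 516129) (nat_lit 3) (.e (nat_lit 221197) (nat_lit 20) .nil)))))))) (.g (nat_lit 1) (.e (nat_lit 74319) (nat_lit 0) .nil) .nil))) 
(.lf (nat_lit 465512) (.g (nat_lit 3690) (.e (nat_lit 3238) (nat_lit 197) (.e (nat_lit 532549) (nat_lit 12) (.e (nat_lit 360467) (nat_lit 3) (.e (nat_lit 516139) (nat_lit 7) (.e (nat_lit 409648) (nat_lit 18) (.e (nat_lit 303108) (nat_lit 0) .nil)))))) (.g (nat_lit 1) (.e (nat_lit 75066) (nat_lit 0) .nil) .nil)))) (.nd (nat_lit 9) 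
(.lf (nat_lit 465256) (.g (nat_lit 2625) (.e (nat_lit 3238) (nat_lit 197) (.e (nat_lit 532523) (nat_lit 7) (.e (nat_lit 319532) (nat_lit 16) (.e (nat_lit 286732) (nat_lit 2) (.e (nat_lit 90178) (nat_lit 15) (.e (nat_lit 188440) (nat_lit 20) .nil)))))) (.g (nat_lit 1) (.e (nat_lit 74647) (nat_lit 0) .nil) .nil))) 
(.lf (nat_lit 465768) (.g (nat_lit 4579) (.e (nat_lit 3239) (nat_lit 197) (.e (nat_lit 532550) (nat_lit 12) (.e (nat_lit 360474) (nat_lit 8) (.e (nat_lit 557093) (nat_lit 12) (.e (nat_lit 164022) (nat_lit 46) (.e (nat_lit 704738) (nat_lit 11) (.e (nat_lit 16384) (nat_lit 0) .nil))))))) (.g (nat_lit 1) (.e (nat_lit 75401) (nat_lit 0) .nil) .nil))))) (.nd (nat_lit 8) (.nd (nat_lit 9) 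
(.lf (nat_lit 465128) (.g (nat_lit 3483) (.e (nat_lit 3238) (nat_lit 197) (.e (nat_lit 532504) (nat_lit 1) (.e (nat_lit 57854) (nat_lit 252) (.e (nat_lit 57447) (nat_lit 19) (.e (nat_lit 393229) (nat_lit 9) (.e (nat_lit 336086) (nat_lit 9) (.e (nat_lit 336306) (nat_lit 15) .nil))))))) (.g (nat_lit 1) (.e (nat_lit 74484) (nat_lit 0) .nil) .nil))) 
(.lf (nat_lit 465640) (.g (nat_lit 2104) (.e (nat_lit 3238) (nat_lit 197) (.e (nat_lit 532550) (nat_lit 12) (.e (nat_lit 360475) (nat_lit 8) (.e (nat_lit 557087) (nat_lit 11) (.e (nat_lit 24580) (nat_lit 0) .nil))))) (.g (nat_lit 0) (.e (nat_lit 75203) (nat_lit 0) .nil) .nil)))) (.nd (nat_lit 9) 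
(.lf (nat_lit 465384) (.g (nat_lit 3508) (.e (nat_lit 3238) (nat_lit 197) (.e (nat_lit 532523) (nat_lit 7) (.e (nat_lit 319534) (nat_lit 16) (.e (nat_lit 286735) (nat_lit 3) (.e (nat_lit 98381) (nat_lit 31) (.e (nat_lit 466955) (nat_lit 20) .nil)))))) (.g (nat_lit 1) (.e (nat_lit 74780) (nat_lit 0) .nil) .nil))) 
(.lf (nat_lit 465896) (.g (nat_lit 2332) (.e (nat_lit 3242) (nat_lit 197) (.e (nat_lit 532499) (nat_lit 1) (.e (nat_lit 57927) (nat_lit 282) (.e (nat_lit 163869) (nat_lit 2) (.e (nat_lit 196666) (nat_lit 13) (.e (nat_lit 65571) (nat_lit 3) (.e (nat_lit 98342) (nat_lit 20) (.e (nat_lit 221198) (nat_lit 20) .nil)))))))) (.g (nat_lit 1) (.e (nat_lit 75602) (nat_lit 0) .nil) .nil)))))))) 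
(.nd (nat_lit 5) (.nd (nat_lit 6) (.nd (nat_lit 7) (.nd (nat_lit 8) (.nd (nat_lit 9) 
(.lf (nat_lit 464920) (.g (nat_lit 2413) (.e (nat_lit 3233) (nat_lit 197) (.e (nat_lit 532499) (nat_lit 1) (.e (nat_lit 57927) (nat_lit 282) (.e (nat_lit 163868) (nat_lit 2) (.e (nat_lit 196670) (nat_lit 14) (.e (nat_lit 73746) (nat_lit 3) (.e (nat_lit 516129) (nat_lit 3) (.e (nat_lit 221202) (nat_lit 20) .nil)))))))) (.g (nat_lit 1) (.e (nat_lit 74120) (nat_lit 0) .nil) .nil))) 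
(.lf (nat_lit 465432) (.g (nat_lit 5753) (.e (nat_lit 3238) (nat_lit 197) (.e (nat_lit 532535) (nat_lit 9) (.e (nat_lit 336099) (nat_lit 9) (.e (nat_lit 336028) (nat_lit 3) (.e (nat_lit 98349) (nat_lit 24) (.e (nat_lit 409646) (nat_lit 18) (.e (nat_lit 303111) (nat_lit 0) .nil))))))) (.g (nat_lit 1) (.e (nat_lit 74871) (nat_lit 0) .nil) .nil)))) (.nd (nat_lit 9) 
(.lf (nat_lit 465176) (.g (nat_lit 2608) (.e (nat_lit 3238) (nat_lit 197) (.e (nat_lit 532523) (nat_lit 7) (.e (nat_lit 319528) (nat_lit 16) (.e (nat_lit 286735) (nat_lit 3) (.e (nat_lit 98370) (nat_lit 28) (.e (nat_lit 442392) (nat_lit 20) .nil)))))) (.g (nat_lit 1) (.e (nat_lit 74567) (nat_lit 0) .nil) .nil))) 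
(.lf (nat_lit 465688) (.g (nat_lit 3141) (.e (nat_lit 3238) (nat_lit 197) (.e (nat_lit 532550) (nat_lit 12) (.e (nat_lit 360475) (nat_lit 8) (.e (nat_lit 557091) (nat_lit 12) (.e (nat_lit 163844) (nat_lit 0) (.e (nat_lit 6420) (nat_lit 341) (.e (nat_lit 163902) (nat_lit 12) (.e (nat_lit 426093) (nat_lit 0) .nil)))))))) (.g (nat_lit 1) (.e (nat_lit 75251) (nat_lit 0) .nil) .nil))))) 
(.nd (nat_lit 8) (.nd (nat_lit 9) 
(.lf (nat_lit 465048) (.g (nat_lit 4140) (.e (nat_lit 3238) (nat_lit 197) (.e (nat_lit 532499) (nat_lit 1) (.e (nat_lit 57927) (nat_lit 282) (.e (nat_lit 163869) (nat_lit 2) (.e (nat_lit 196670) (nat_lit 14) (.e (nat_lit 73746) (nat_lit 3) (.e (nat_lit 516129) (nat_lit 3) (.e (nat_lit 221195) (nat_lit 20) .nil)))))))) (.g (nat_lit 1) (.e (nat_lit 74389) (nat_lit 0) .nil) .nil))) 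
(.lf (nat_lit 465560) (.g (nat_lit 4748) (.e (nat_lit 3238) (nat_lit 197) (.e (nat_lit 532549) (nat_lit 12) (.e (nat_lit 360475) (nat_lit 8) (.e (nat_lit 557085) (nat_lit 11) (.e (nat_lit 24665) (nat_lit 14) (.e (nat_lit 401414) (nat_lit 0) .nil)))))) (.g (nat_lit 1) (.e (nat_lit 75115) (nat_lit 0) .nil) .nil)))) (.nd (nat_lit 9) 
(.lf (nat_lit 465304) (.g (nat_lit 1345) (.e (nat_lit 3238) (nat_lit 197) (.e (nat_lit 532523) (nat_lit 7) (.e (nat_lit 319533) (nat_lit 16) (.e (nat_lit 286735) (nat_lit 3) .nil)))) (.g (nat_lit 0) (.e (nat_lit 74697) (nat_lit 0) .nil) .nil))) 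
(.lf (nat_lit 465816) (.g (nat_lit 2447) (.e (nat_lit 3237) (nat_lit 197) (.e (nat_lit 532563) (nat_lit 15) (.e (nat_lit 385066) (nat_lit 26) (.e (nat_lit 532563) (nat_lit 15) (.e (nat_lit 385066) (nat_lit 26) .nil))))) (.g (nat_lit 0) (.e (nat_lit 75462) (nat_lit 0) .nil) .nil)))))) (.nd (nat_lit 7) (.nd (nat_lit 8) (.nd (nat_lit 9) 
(.lf (nat_lit 464984) (.g (nat_lit 877) (.e (nat_lit 3233) (nat_lit 197) (.e (nat_lit 532563) (nat_lit 15) (.e (nat_lit 385066) (nat_lit 26) .nil))) (.g (nat_lit 0) (.e (nat_lit 74277) (nat_lit 0) .nil) .nil))) 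
(.lf (nat_lit 465496) (.g (nat_lit 2266) (.e (nat_lit 3238) (nat_lit 197) (.e (nat_lit 532547) (nat_lit 11) (.e (nat_lit 352315) (nat_lit 23) (.e (nat_lit 98350) (nat_lit 24) (.e (nat_lit 409648) (nat_lit 18) .nil))))) (.g (nat_lit 0) (.e (nat_lit 75048) (nat_lit 0) .nil) .nil)))) (.nd (nat_lit 9) 
(.lf (nat_lit 465240) (.g (nat_lit 2907) (.e (nat_lit 3238) (nat_lit 197) (.e (nat_lit 532523) (nat_lit 7) (.e (nat_lit 319531) (nat_lit 16) (.e (nat_lit 286735) (nat_lit 3) (.e (nat_lit 98369) (nat_lit 28) .nil))))) (.g (nat_lit 0) (.e (nat_lit 74631) (nat_lit 0) .nil) .nil))) 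
(.lf (nat_lit 465752) (.g (nat_lit 3259) (.e (nat_lit 3238) (nat_lit 197) (.e (nat_lit 532579) (nat_lit 26) (.e (nat_lit 426188) (nat_lit 9) (.e (nat_lit 426566) (nat_lit 34) (.e (nat_lit 393253) (nat_lit 18) (.e (nat_lit 164329) (nat_lit 230) (.e (nat_lit 163850) (nat_lit 0) .nil))))))) (.g (nat_lit 1) (.e (nat_lit 75362) (nat_lit 0) .nil) .nil))))) (.nd (nat_lit 8) (.nd (nat_lit 9) 
(.lf (nat_lit 465112) (.g (nat_lit 2377) (.e (nat_lit 3238) (nat_lit 197) (.e (nat_lit 532503) (nat_lit 1) (.e (nat_lit 57848) (nat_lit 252) (.e (nat_lit 57411) (nat_lit 12) (.e (nat_lit 336454) (nat_lit 34) .nil))))) (.g (nat_lit 0) (.e (nat_lit 74464) (nat_lit 0) .nil) .nil))) 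
(.lf (nat_lit 465624) (.g (nat_lit 3665) (.e (nat_lit 3238) (nat_lit 197) (.e (nat_lit 532550) (nat_lit 12) (.e (nat_lit 360475) (nat_lit 8) (.e (nat_lit 557071) (nat_lit 9) .nil)))) (.g (nat_lit 0) (.e (nat_lit 75187) (nat_lit 0) .nil) .nil)))) (.nd (nat_lit 9) 
(.lf (nat_lit 465368) (.g (nat_lit 2961) (.e (nat_lit 3238) (nat_lit 197) (.e (nat_lit 532523) (nat_lit 7) (.e (nat_lit 319534) (nat_lit 16) (.e (nat_lit 286735) (nat_lit 3) (.e (nat_lit 98369) (nat_lit 28) (.e (nat_lit 442392) (nat_lit 20) .nil)))))) (.g (nat_lit 1) (.e (nat_lit 74764) (nat_lit 0) .nil) .nil))) 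
(.lf (nat_lit 465880) (.g (nat_lit 3925) (.e (nat_lit 3243) (nat_lit 197) (.e (nat_lit 532550) (nat_lit 12) (.e (nat_lit 360474) (nat_lit 8) (.e (nat_lit 557094) (nat_lit 12) (.e (nat_lit 164022) (nat_lit 46) (.e (nat_lit 704738) (nat_lit 11) (.e (nat_lit 16390) (nat_lit 0) .nil))))))) (.g (nat_lit 1) (.e (nat_lit 75585) (nat_lit 0) .nil) .nil))))))) 
(.nd (nat_lit 6) (.nd (nat_lit 7) (.nd (nat_lit 8) (.nd (nat_lit 9) 
(.lf (nat_lit 464952) (.g (nat_lit 5134) (.e (nat_lit 3233) (nat_lit 197) (.e (nat_lit 532550) (nat_lit 12) (.e (nat_lit 360474) (nat_lit 8) (.e (nat_lit 557093) (nat_lit 12) (.e (nat_lit 164023) (nat_lit 46) (.e (nat_lit 704738) (nat_lit 11) (.e (nat_lit 16401) (nat_lit 0) .nil))))))) (.g (nat_lit 1) (.e (nat_lit 74229) (nat_lit 0) .nil) .nil))) 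
(.lf (nat_lit 465464) (.g (nat_lit 4926) (.e (nat_lit 3238) (nat_lit 197) (.e (nat_lit 532535) (nat_lit 9) (.e (nat_lit 336173) (nat_lit 10) (.e (nat_lit 344119) (nat_lit 21) (.e (nat_lit 516139) (nat_lit 7) (.e (nat_lit 409649) (nat_lit 18) (.e (nat_lit 303104) (nat_lit 0) .nil))))))) (.g (nat_lit 1) (.e (nat_lit 74905) (nat_lit 0) .nil) .nil)))) (.nd (nat_lit 9) 
(.lf (nat_lit 465208) (.g (nat_lit 4539) (.e (nat_lit 3238) (nat_lit 197) (.e (nat_lit 532523) (nat_lit 7) (.e (nat_lit 319530) (nat_lit 16) (.e (nat_lit 286733) (nat_lit 2) (.e (nat_lit 90177) (nat_lit 15) (.e (nat_lit 188437) (nat_lit 20) .nil)))))) (.g (nat_lit 1) (.e (nat_lit 74599) (nat_lit 0) .nil) .nil))) 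
(.lf (nat_lit 465720) (.g (nat_lit 3923) (.e (nat_lit 3238) (nat_lit 197) (.e (nat_lit 532560) (nat_lit 14) (.e (nat_lit 376869) (nat_lit 23) (.e (nat_lit 98350) (nat_lit 24) (.e (nat_lit 409649) (nat_lit 18) (.e (nat_lit 303111) (nat_lit 0) .nil)))))) (.g (nat_lit 1) (.e (nat_lit 75286) (nat_lit 0) .nil) .nil))))) (.nd (nat_lit 8) (.nd (nat_lit 9) 
(.lf (nat_lit 465080) (.g (nat_lit 2268) (.e (nat_lit 3238) (nat_lit 197) (.e (nat_lit 532500) (nat_lit 1) (.e (nat_lit 57854) (nat_lit 252) (.e (nat_lit 57406) (nat_lit 12) (.e (nat_lit 336454) (nat_lit 34) (.e (nat_lit 483384) (nat_lit 23) (.e (nat_lit 336306) (nat_lit 15) .nil))))))) (.g (nat_lit 1) (.e (nat_lit 74426) (nat_lit 0) .nil) .nil))) 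
(.lf (nat_lit 465592) (.g (nat_lit 2523) (.e (nat_lit 3238) (nat_lit 197) (.e (nat_lit 532550) (nat_lit 12) (.e (nat_lit 360468) (nat_lit 3) (.e (nat_lit 516139) (nat_lit 7) (.e (nat_lit 409649) (nat_lit 18) (.e (nat_lit 303104) (nat_lit 0) .nil)))))) (.g (nat_lit 1) (.e (nat_lit 75153) (nat_lit 0) .nil) .nil)))) (.nd (nat_lit 9) 
(.lf (nat_lit 465336) (.g (nat_lit 4273) (.e (nat_lit 3238) (nat_lit 197) (.e (nat_lit 532523) (nat_lit 7) (.e (nat_lit 319534) (nat_lit 16) (.e (nat_lit 286733) (nat_lit 2) (.e (nat_lit 90134) (nat_lit 9) (.e (nat_lit 2992) (nat_lit 186) (.e (nat_lit 442406) (nat_lit 20) .nil))))))) (.g (nat_lit 1) (.e (nat_lit 74732) (nat_lit 0) .nil) .nil))) 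
(.lf (nat_lit 465848) (.g (nat_lit 2138) (.e (nat_lit 3241) (nat_lit 197) (.e (nat_lit 532500) (nat_lit 1) (.e (nat_lit 57926) (nat_lit 282) (.e (nat_lit 163869) (nat_lit 2) (.e (nat_lit 196670) (nat_lit 14) (.e (nat_lit 73746) (nat_lit 3) (.e (nat_lit 516129) (nat_lit 3) (.e (nat_lit 221197) (nat_lit 20) .nil)))))))) (.g (nat_lit 1) (.e (nat_lit 75512) (nat_lit 0) .nil) .nil)))))) 
(.nd (nat_lit 7) (.nd (nat_lit 8) (.nd (nat_lit 9) 
(.lf (nat_lit 465016) (.g (nat_lit 7391) (.e (nat_lit 3236) (nat_lit 197) (.e (nat_lit 532550) (nat_lit 12) (.e (nat_lit 360475) (nat_lit 8) (.e (nat_lit 557090) (nat_lit 12) .nil)))) (.g (nat_lit 0) (.e (nat_lit 74345) (nat_lit 0) .nil) .nil))) 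
(.lf (nat_lit 465528) (.g (nat_lit 2334) (.e (nat_lit 3238) (nat_lit 197) (.e (nat_lit 532549) (nat_lit 12) (.e (nat_lit 360473) (nat_lit 8) (.e (nat_lit 557091) (nat_lit 12) (.e (nat_lit 164022) (nat_lit 46) (.e (nat_lit 704735) (nat_lit 11) (.e (nat_lit 16396) (nat_lit 0) .nil))))))) (.g (nat_lit 1) (.e (nat_lit 75083) (nat_lit 0) .nil) .nil)))) (.nd (nat_lit 9) 
(.lf (nat_lit 465272) (.g (nat_lit 1385) (.e (nat_lit 3238) (nat_lit 197) (.e (nat_lit 532523) (nat_lit 7) (.e (nat_lit 319533) (nat_lit 16) (.e (nat_lit 286732) (nat_lit 2) .nil)))) (.g (nat_lit 0) (.e (nat_lit 74664) (nat_lit 0) .nil) .nil))) 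
(.lf (nat_lit 465784) (.g (nat_lit 2794) (.e (nat_lit 3237) (nat_lit 197) (.e (nat_lit 532501) (nat_lit 1) (.e (nat_lit 57851) (nat_lit 252) (.e (nat_lit 57406) (nat_lit 12) (.e (nat_lit 336456) (nat_lit 34) (.e (nat_lit 483383) (nat_lit 23) (.e (nat_lit 336258) (nat_lit 15) .nil))))))) (.g (nat_lit 1) (.e (nat_lit 75420) (nat_lit 0) .nil) .nil))))) (.nd (nat_lit 8) (.nd (nat_lit 9) 
(.lf (nat_lit 465144) (.g (nat_lit 2434) (.e (nat_lit 3238) (nat_lit 197) (.e (nat_lit 532513) (nat_lit 3) (.e (nat_lit 114714) (nat_lit 22) (.e (nat_lit 90172) (nat_lit 14) (.e (nat_lit 180244) (nat_lit 5) (.e (nat_lit 532503) (nat_lit 1) (.e (nat_lit 57688) (nat_lit 156) (.e (nat_lit 163850) (nat_lit 0) .nil)))))))) (.g (nat_lit 1) (.e (nat_lit 74510) (nat_lit 0) .nil) .nil))) 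
(.lf (nat_lit 465656) (.g (nat_lit 3756) (.e (nat_lit 3238) (nat_lit 197) (.e (nat_lit 532550) (nat_lit 12) (.e (nat_lit 360475) (nat_lit 8) (.e (nat_lit 557089) (nat_lit 12) (.e (nat_lit 163844) (nat_lit 0) (.e (nat_lit 6418) (nat_lit 341) (.e (nat_lit 163908) (nat_lit 12) (.e (nat_lit 426039) (nat_lit 0) .nil)))))))) (.g (nat_lit 1) (.e (nat_lit 75219) (nat_lit 0) .nil) .nil)))) 
(.nd (nat_lit 9) 
(.lf (nat_lit 465400) (.g (nat_lit 3660) (.e (nat_lit 3238) (nat_lit 197) (.e (nat_lit 532535) (nat_lit 9) (.e (nat_lit 336073) (nat_lit 9) (.e (nat_lit 336028) (nat_lit 3) (.e (nat_lit 98350) (nat_lit 24) (.e (nat_lit 409648) (nat_lit 18) (.e (nat_lit 303108) (nat_lit 0) .nil))))))) (.g (nat_lit 1) (.e (nat_lit 74833) (nat_lit 0) .nil) .nil))) 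
(.lf (nat_lit 465912) (.g (nat_lit 959) (.e (nat_lit 3242) (nat_lit 197) (.e (nat_lit 532550) (nat_lit 12) (.e (nat_lit 360474) (nat_lit 8) .nil))) (.g (nat_lit 0) (.e (nat_lit 75632) (nat_lit 0) .nil) .nil)))))))))) (.nd (nat_lit 3) (.nd (nat_lit 4) (.nd (nat_lit 5) (.nd (nat_lit 6) (.nd (nat_lit 7) (.nd (nat_lit 8) (.nd (nat_lit 9) 
(.lf (nat_lit 464900) (.g (nat_lit 2418) (.e (nat_lit 3234) (nat_lit 197) (.e (nat_lit 532563) (nat_lit 15) (.e (nat_lit 385066) (nat_lit 26) (.e (nat_lit 532530) (nat_lit 9) (.e (nat_lit 336316) (nat_lit 17) (.e (nat_lit 196666) (nat_lit 13) (.e (nat_lit 65642) (nat_lit 15) .nil))))))) (.g (nat_lit 1) (.e (nat_lit 74097) (nat_lit 0) .nil) .nil))) 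
(.lf (nat_lit 465412) (.g (nat_lit 5242) (.e (nat_lit 3238) (nat_lit 197) (.e (nat_lit 532535) (nat_lit 9) (.e (nat_lit 336099) (nat_lit 9) (.e (nat_lit 336013) (nat_lit 2) (.e (nat_lit 90127) (nat_lit 9) (.e (nat_lit 2830) (nat_lit 182) (.e (nat_lit 409649) (nat_lit 18) (.e (nat_lit 303111) (nat_lit 0) .nil)))))))) (.g (nat_lit 1) (.e (nat_lit 74851) (nat_lit 0) .nil) .nil)))) (.nd (nat_lit 9) 
(.lf (nat_lit 465156) (.g (nat_lit 881) (.e (nat_lit 3238) (nat_lit 197) (.e (nat_lit 532523) (nat_lit 7) (.e (nat_lit 319491) (nat_lit 0) .nil))) (.g (nat_lit 0) (.e (nat_lit 74547) (nat_lit 0) .nil) .nil))) 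
(.lf (nat_lit 465668) (.g (nat_lit 5520) (.e (nat_lit 3238) (nat_lit 197) (.e (nat_lit 532550) (nat_lit 12) (.e (nat_lit 360475) (nat_lit 8) (.e (nat_lit 557089) (nat_lit 12) (.e (nat_lit 163849) (nat_lit 0) (.e (nat_lit 6420) (nat_lit 341) (.e (nat_lit 163902) (nat_lit 12) (.e (nat_lit 426093) (nat_lit 0) .nil)))))))) (.g (nat_lit 1) (.e (nat_lit 75231) (nat_lit 0) .nil) .nil))))) 
(.nd (nat_lit 8) (.nd (nat_lit 9) 
(.lf (nat_lit 465028) (.g (nat_lit 497) (.e (nat_lit 3238) (nat_lit 197) (.e (nat_lit 532499) (nat_lit 1) (.e (nat_lit 57688) (nat_lit 156) .nil))) (.g (nat_lit 0) (.e (nat_lit 74366) (nat_lit 0) .nil) .nil))) 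
(.lf (nat_lit 465540) (.g (nat_lit 3386) (.e (nat_lit 3238) (nat_lit 197) (.e (nat_lit 532549) (nat_lit 12) (.e (nat_lit 360473) (nat_lit 8) (.e (nat_lit 557093) (nat_lit 12) (.e (nat_lit 164022) (nat_lit 46) (.e (nat_lit 704738) (nat_lit 11) (.e (nat_lit 16397) (nat_lit 0) .nil))))))) (.g (nat_lit 1) (.e (nat_lit 75095) (nat_lit 0) .nil) .nil)))) (.nd (nat_lit 9) 
(.lf (nat_lit 465284) (.g (nat_lit 3645) (.e (nat_lit 3238) (nat_lit 197) (.e (nat_lit 532523) (nat_lit 7) (.e (nat_lit 319533) (nat_lit 16) (.e (nat_lit 286733) (nat_lit 2) (.e (nat_lit 90134) (nat_lit 9) (.e (nat_lit 3002) (nat_lit 186) (.e (nat_lit 442404) (nat_lit 20) .nil))))))) (.g (nat_lit 1) (.e (nat_lit 74677) (nat_lit 0) .nil) .nil))) 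
(.lf (nat_lit 465796) (.g (nat_lit 4107) (.e (nat_lit 3237) (nat_lit 197) (.e (nat_lit 532550) (nat_lit 12) (.e (nat_lit 360474) (nat_lit 8) (.e (nat_lit 557093) (nat_lit 12) .nil)))) (.g (nat_lit 0) (.e (nat_lit 75440) (nat_lit 0) .nil) .nil)))))) (.nd (nat_lit 7) (.nd (nat_lit 8) (.nd (nat_lit 9) 
(.lf (nat_lit 464964) (.g (nat_lit 4565) (.e (nat_lit 3233) (nat_lit 197) (.e (nat_lit 532550) (nat_lit 12) (.e (nat_lit 360475) (nat_lit 8) (.e (nat_lit 557091) (nat_lit 12) (.e (nat_lit 164022) (nat_lit 46) (.e (nat_lit 704736) (nat_lit 11) (.e (nat_lit 16401) (nat_lit 0) .nil))))))) (.g (nat_lit 1) (.e (nat_lit 74246) (nat_lit 0) .nil) .nil))) 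
(.lf (nat_lit 465476) (.g (nat_lit 4540) (.e (nat_lit 3238) (nat_lit 197) (.e (nat_lit 532535) (nat_lit 9) (.e (nat_lit 336178) (nat_lit 10) (.e (nat_lit 344117) (nat_lit 21) (.e (nat_lit 516139) (nat_lit 7) (.e (nat_lit 409649) (nat_lit 18) (.e (nat_lit 303111) (nat_lit 0) .nil))))))) (.g (nat_lit 1) (.e (nat_lit 74988) (nat_lit 0) .nil) .nil)))) (.nd (nat_lit 9) 
(.lf (nat_lit 465220) (.g (nat_lit 3669) (.e (nat_lit 3238) (nat_lit 197) (.e (nat_lit 532523) (nat_lit 7) (.e (nat_lit 319530) (nat_lit 16) (.e (nat_lit 286735) (nat_lit 3) (.e (nat_lit 98382) (nat_lit 31) (.e (nat_lit 466955) (nat_lit 20) .nil)))))) (.g (nat_lit 1) (.e (nat_lit 74611) (nat_lit 0) .nil) .nil))) 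
(.lf (nat_lit 465732) (.g (nat_lit 3206) (.e (nat_lit 3238) (nat_lit 197) (.e (nat_lit 532564) (nat_lit 15) (.e (nat_lit 385066) (nat_lit 26) (.e (nat_lit 532534) (nat_lit 9) (.e (nat_lit 336326) (nat_lit 18) (.e (nat_lit 204854) (nat_lit 26) (.e (nat_lit 336306) (nat_lit 15) .nil))))))) (.g (nat_lit 1) (.e (nat_lit 75298) (nat_lit 0) .nil) .nil))))) (.nd (nat_lit 8) (.nd (nat_lit 9) 
(.lf (nat_lit 465092) (.g (nat_lit 4069) (.e (nat_lit 3238) (nat_lit 197) (.e (nat_lit 532501) (nat_lit 1) (.e (nat_lit 57851) (nat_lit 252) (.e (nat_lit 57406) (nat_lit 12) (.e (nat_lit 336456) (nat_lit 34) (.e (nat_lit 483384) (nat_lit 23) (.e (nat_lit 336306) (nat_lit 15) .nil))))))) (.g (nat_lit 1) (.e (nat_lit 74438) (nat_lit 0) .nil) .nil))) 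
(.lf (nat_lit 465604) (.g (nat_lit 4423) (.e (nat_lit 3238) (nat_lit 197) (.e (nat_lit 532550) (nat_lit 12) (.e (nat_lit 360474) (nat_lit 8) (.e (nat_lit 557093) (nat_lit 12) (.e (nat_lit 164022) (nat_lit 46) (.e (nat_lit 704737) (nat_lit 11) (.e (nat_lit 16396) (nat_lit 0) .nil))))))) (.g (nat_lit 1) (.e (nat_lit 75166) (nat_lit 0) .nil) .nil)))) (.nd (nat_lit 9) 
(.lf (nat_lit 465348) (.g (nat_lit 4670) (.e (nat_lit 3238) (nat_lit 197) (.e (nat_lit 532523) (nat_lit 7) (.e (nat_lit 319534) (nat_lit 16) (.e (nat_lit 286733) (nat_lit 2) (.e (nat_lit 90177) (nat_lit 15) (.e (nat_lit 188437) (nat_lit 20) .nil)))))) (.g (nat_lit 1) (.e (nat_lit 74744) (nat_lit 0) .nil) .nil))) 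
(.lf (nat_lit 465860) (.g (nat_lit 3016) (.e (nat_lit 3241) (nat_lit 197) (.e (nat_lit 532550) (nat_lit 12) (.e (nat_lit 360474) (nat_lit 8) (.e (nat_lit 557093) (nat_lit 12) .nil)))) (.g (nat_lit 0) (.e (nat_lit 75554) (nat_lit 0) .nil) .nil))))))) (.nd (nat_lit 6) (.nd (nat_lit 7) (.nd (nat_lit 8) (.nd (nat_lit 9) 
(.lf (nat_lit 464932) (.g (nat_lit 635) (.e (nat_lit 3233) (nat_lit 197) (.e (nat_lit 532523) (nat_lit 7) (.e (nat_lit 319528) (nat_lit 16) .nil))) (.g (nat_lit 0) (.e (nat_lit 74187) (nat_lit 0) .nil) .nil))) 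
(.lf (nat_lit 465444) (.g (nat_lit 3225) (.e (nat_lit 3238) (nat_lit 197) (.e (nat_lit 532535) (nat_lit 9) (.e (nat_lit 336111) (nat_lit 9) (.e (nat_lit 336028) (nat_lit 3) (.e (nat_lit 98349) (nat_lit 24) (.e (nat_lit 409648) (nat_lit 18) (.e (nat_lit 303104) (nat_lit 0) .nil))))))) (.g (nat_lit 1) (.e (nat_lit 74883) (nat_lit 0) .nil) .nil)))) (.nd (nat_lit 9) 
(.lf (nat_lit 465188) (.g (nat_lit 2552) (.e (nat_lit 3238) (nat_lit 197) (.e (nat_lit 532523) (nat_lit 7) (.e (nat_lit 319529) (nat_lit 16) (.e (nat_lit 286735) (nat_lit 3) (.e (nat_lit 98369) (nat_lit 28) .nil))))) (.g (nat_lit 0) (.e (nat_lit 74579) (nat_lit 0) .nil) .nil))) 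
(.lf (nat_lit 465700) (.g (nat_lit 5068) (.e (nat_lit 3238) (nat_lit 197) (.e (nat_lit 532550) (nat_lit 12) (.e (nat_lit 360475) (nat_lit 8) (.e (nat_lit 557091) (nat_lit 12) (.e (nat_lit 164022) (nat_lit 46) (.e (nat_lit 704738) (nat_lit 11) (.e (nat_lit 16396) (nat_lit 0) .nil))))))) (.g (nat_lit 1) (.e (nat_lit 75263) (nat_lit 0) .nil) .nil))))) (.nd (nat_lit 8) (.nd (nat_lit 9) 
(.lf (nat_lit 465060) (.g (nat_lit 4009) (.e (nat_lit 3238) (nat_lit 197) (.e (nat_lit 532500) (nat_lit 1) (.e (nat_lit 57851) (nat_lit 252) (.e (nat_lit 57406) (nat_lit 12) (.e (nat_lit 336454) (nat_lit 34) (.e (nat_lit 483384) (nat_lit 23) (.e (nat_lit 336306) (nat_lit 15) .nil))))))) (.g (nat_lit 1) (.e (nat_lit 74405) (nat_lit 0) .nil) .nil))) 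
(.lf (nat_lit 465572) (.g (nat_lit 3539) (.e (nat_lit 3238) (nat_lit 197) (.e (nat_lit 532549) (nat_lit 12) (.e (nat_lit 360475) (nat_lit 8) (.e (nat_lit 557090) (nat_lit 12) .nil)))) (.g (nat_lit 0) (.e (nat_lit 75128) (nat_lit 0) .nil) .nil)))) (.nd (nat_lit 9) 
(.lf (nat_lit 465316) (.g (nat_lit 2308) (.e (nat_lit 3238) (nat_lit 197) (.e (nat_lit 532523) (nat_lit 7) (.e (nat_lit 319534) (nat_lit 16) (.e (nat_lit 286728) (nat_lit 0) (.e (nat_lit 1788) (nat_lit 119) (.e (nat_lit 516162) (nat_lit 11) (.e (nat_lit 442404) (nat_lit 20) .nil))))))) (.g (nat_lit 1) (.e (nat_lit 74711) (nat_lit 0) .nil) .nil))) 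
(.lf (nat_lit 465828) (.g (nat_lit 1788) (.e (nat_lit 3240) (nat_lit 197) (.e (nat_lit 532500) (nat_lit 1) (.e (nat_lit 57851) (nat_lit 252) (.e (nat_lit 57406) (nat_lit 12) .nil)))) (.g (nat_lit 0) (.e (nat_lit 75479) (nat_lit 0) .nil) .nil)))))) (.nd (nat_lit 7) (.nd (nat_lit 8) (.nd (nat_lit 9) 
(.lf (nat_lit 464996) (.g (nat_lit 2259) (.e (nat_lit 3233) (nat_lit 197) (.e (nat_lit 532569) (nat_lit 16) (.e (nat_lit 401448) (nat_lit 10) (.e (nat_lit 434246) (nat_lit 28) .nil)))) (.g (nat_lit 0) (.e (nat_lit 74297) (nat_lit 0) .nil) .nil))) 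
(.lf (nat_lit 465508) (.g (nat_lit 3021) (.e (nat_lit 3238) (nat_lit 197) (.e (nat_lit 532549) (nat_lit 12) (.e (nat_lit 360466) (nat_lit 3) (.e (nat_lit 516139) (nat_lit 7) (.e (nat_lit 409648) (nat_lit 18) (.e (nat_lit 303109) (nat_lit 0) .nil)))))) (.g (nat_lit 1) (.e (nat_lit 75060) (nat_lit 0) .nil) .nil)))) (.nd (nat_lit 9) 
(.lf (nat_lit 465252) (.g (nat_lit 3422) (.e (nat_lit 3238) (nat_lit 197) (.e (nat_lit 532523) (nat_lit 7) (.e (nat_lit 319531) (nat_lit 16) (.e (nat_lit 286735) (nat_lit 3) (.e (nat_lit 98380) (nat_lit 31) (.e (nat_lit 466955) (nat_lit 20) .nil)))))) (.g (nat_lit 1) (.e (nat_lit 74643) (nat_lit 0) .nil) .nil))) 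
(.lf (nat_lit 465764) (.g (nat_lit 3826) (.e (nat_lit 3239) (nat_lit 197) (.e (nat_lit 532535) (nat_lit 9) (.e (nat_lit 336176) (nat_lit 10) (.e (nat_lit 344132) (nat_lit 26) .nil)))) (.g (nat_lit 0) (.e (nat_lit 75395) (nat_lit 0) .nil) .nil))))) (.nd (nat_lit 8) (.nd (nat_lit 9) 
(.lf (nat_lit 465124) (.g (nat_lit 2986) (.e (nat_lit 3238) (nat_lit 197) (.e (nat_lit 532504) (nat_lit 1) (.e (nat_lit 57852) (nat_lit 252) (.e (nat_lit 57447) (nat_lit 19) (.e (nat_lit 393229) (nat_lit 9) (.e (nat_lit 336086) (nat_lit 9) (.e (nat_lit 336306) (nat_lit 15) .nil))))))) (.g (nat_lit 1) (.e (nat_lit 74480) (nat_lit 0) .nil) .nil))) 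
(.lf (nat_lit 465636) (.g (nat_lit 4436) (.e (nat_lit 3238) (nat_lit 197) (.e (nat_lit 532550) (nat_lit 12) (.e (nat_lit 360475) (nat_lit 8) (.e (nat_lit 557086) (nat_lit 11) (.e (nat_lit 24664) (nat_lit 14) (.e (nat_lit 401414) (nat_lit 0) .nil)))))) (.g (nat_lit 1) (.e (nat_lit 75199) (nat_lit 0) .nil) .nil)))) (.nd (nat_lit 9) 
(.lf (nat_lit 465380) (.g (nat_lit 2832) (.e (nat_lit 3238) (nat_lit 197) (.e (nat_lit 532523) (nat_lit 7) (.e (nat_lit 319534) (nat_lit 16) (.e (nat_lit 286735) (nat_lit 3) (.e (nat_lit 98371) (nat_lit 28) (.e (nat_lit 442403) (nat_lit 20) .nil)))))) (.g (nat_lit 1) (.e (nat_lit 74776) (nat_lit 0) .nil) .nil))) 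
(.lf (nat_lit 465892) (.g (nat_lit 2764) (.e (nat_lit 3242) (nat_lit 197) (.e (nat_lit 532499) (nat_lit 1) (.e (nat_lit 57927) (nat_lit 282) (.e (nat_lit 163868) (nat_lit 2) (.e (nat_lit 196668) (nat_lit 14) (.e (nat_lit 73747) (nat_lit 3) (.e (nat_lit 516131) (nat_lit 3) (.e (nat_lit 221198) (nat_lit 20) .nil)))))))) (.g (nat_lit 1) (.e (nat_lit 75598) (nat_lit 0) .nil) .nil)))))))) 
(.nd (nat_lit 5) (.nd (nat_lit 6) (.nd (nat_lit 7) (.nd (nat_lit 8) (.nd (nat_lit 9) 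
(.lf (nat_lit 464916) (.g (nat_lit 4982) (.e (nat_lit 3235) (nat_lit 197) (.e (nat_lit 532550) (nat_lit 12) (.e (nat_lit 360475) (nat_lit 8) (.e (nat_lit 557091) (nat_lit 12) .nil)))) (.g (nat_lit 0) (.e (nat_lit 74113) (nat_lit 0) .nil) .nil))) 
(.lf (nat_lit 465428) (.g (nat_lit 4431) (.e (nat_lit 3238) (nat_lit 197) (.e (nat_lit 532535) (nat_lit 9) (.e (nat_lit 336099) (nat_lit 9) (.e (nat_lit 336013) (nat_lit 2) (.e (nat_lit 90165) (nat_lit 12) (.e (nat_lit 164208) (nat_lit 176) (.e (nat_lit 2819) (nat_lit 181) (.e (nat_lit 311296) (nat_lit 0) .nil)))))))) (.g (nat_lit 1) (.e (nat_lit 74867) (nat_lit 0) .nil) .nil)))) (.nd (nat_lit 9) 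
(.lf (nat_lit 465172) (.g (nat_lit 2406) (.e (nat_lit 3238) (nat_lit 197) (.e (nat_lit 532523) (nat_lit 7) (.e (nat_lit 319528) (nat_lit 16) (.e (nat_lit 286735) (nat_lit 3) (.e (nat_lit 98359) (nat_lit 26) (.e (nat_lit 426208) (nat_lit 9) (.e (nat_lit 426039) (nat_lit 0) .nil))))))) (.g (nat_lit 1) (.e (nat_lit 74563) (nat_lit 0) .nil) .nil))) 
(.lf (nat_lit 465684) (.g (nat_lit 3130) (.e (nat_lit 3238) (nat_lit 197) (.e (nat_lit 532550) (nat_lit 12) (.e (nat_lit 360475) (nat_lit 8) (.e (nat_lit 557091) (nat_lit 12) (.e (nat_lit 163843) (nat_lit 0) (.e (nat_lit 6420) (nat_lit 341) (.e (nat_lit 163902) (nat_lit 12) (.e (nat_lit 426091) (nat_lit 0) .nil)))))))) (.g (nat_lit 1) (.e (nat_lit 75247) (nat_lit 0) .nil) .nil))))) 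
(.nd (nat_lit 8) (.nd (nat_lit 9) 
(.lf (nat_lit 465044) (.g (nat_lit 2917) (.e (nat_lit 3238) (nat_lit 197) (.e (nat_lit 532499) (nat_lit 1) (.e (nat_lit 57927) (nat_lit 282) (.e (nat_lit 163869) (nat_lit 2) (.e (nat_lit 196668) (nat_lit 14) (.e (nat_lit 73746) (nat_lit 3) (.e (nat_lit 516129) (nat_lit 3) (.e (nat_lit 221195) (nat_lit 20) .nil)))))))) (.g (nat_lit 1) (.e (nat_lit 74385) (nat_lit 0) .nil) .nil))) 
(.lf (nat_lit 465556) (.g (nat_lit 2785) (.e (nat_lit 3238) (nat_lit 197) (.e (nat_lit 532549) (nat_lit 12) (.e (nat_lit 360475) (nat_lit 8) (.e (nat_lit 557085) (nat_lit 11) .nil)))) (.g (nat_lit 0) (.e (nat_lit 75111) (nat_lit 0) .nil) .nil)))) (.nd (nat_lit 9) 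
(.lf (nat_lit 465300) (.g (nat_lit 3689) (.e (nat_lit 3238) (nat_lit 197) (.e (nat_lit 532523) (nat_lit 7) (.e (nat_lit 319533) (nat_lit 16) (.e (nat_lit 286734) (nat_lit 3) (.e (nat_lit 98371) (nat_lit 28) (.e (nat_lit 442407) (nat_lit 20) .nil)))))) (.g (nat_lit 1) (.e (nat_lit 74693) (nat_lit 0) .nil) .nil))) 
(.lf (nat_lit 465812) (.g (nat_lit 4204) (.e (nat_lit 3237) (nat_lit 197) (.e (nat_lit 532550) (nat_lit 12) (.e (nat_lit 360475) (nat_lit 8) (.e (nat_lit 557091) (nat_lit 12) .nil)))) (.g (nat_lit 0) (.e (nat_lit 75457) (nat_lit 0) .nil) .nil)))))) (.nd (nat_lit 7) (.nd (nat_lit 8) (.nd (nat_lit 9) 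
(.lf (nat_lit 464980) (.g (nat_lit 2246) (.e (nat_lit 3233) (nat_lit 197) (.e (nat_lit 532561) (nat_lit 14) (.e (nat_lit 376862) (nat_lit 22) (.e (nat_lit 90185) (nat_lit 17) (.e (nat_lit 237585) (nat_lit 1) (.e (nat_lit 164403) (nat_lit 256) (.e (nat_lit 57579) (nat_lit 61) .nil))))))) (.g (nat_lit 1) (.e (nat_lit 74273) (nat_lit 0) .nil) .nil))) 
(.lf (nat_lit 465492) (.g (nat_lit 2337) (.e (nat_lit 3238) (nat_lit 197) (.e (nat_lit 532547) (nat_lit 11) (.e (nat_lit 352315) (nat_lit 23) (.e (nat_lit 98349) (nat_lit 24) (.e (nat_lit 409646) (nat_lit 18) (.e (nat_lit 303111) (nat_lit 0) .nil)))))) (.g (nat_lit 1) (.e (nat_lit 75044) (nat_lit 0) .nil) .nil)))) (.nd (nat_lit 9) 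
(.lf (nat_lit 465236) (.g (nat_lit 5339) (.e (nat_lit 3238) (nat_lit 197) (.e (nat_lit 532523) (nat_lit 7) (.e (nat_lit 319531) (nat_lit 16) (.e (nat_lit 286733) (nat_lit 2) (.e (nat_lit 90178) (nat_lit 15) (.e (nat_lit 188441) (nat_lit 20) .nil)))))) (.g (nat_lit 1) (.e (nat_lit 74627) (nat_lit 0) .nil) .nil))) 
(.lf (nat_lit 465748) (.g (nat_lit 4245) (.e (nat_lit 3238) (nat_lit 197) (.e (nat_lit 532569) (nat_lit 16) (.e (nat_lit 401451) (nat_lit 12) (.e (nat_lit 475185) (nat_lit 29) (.e (nat_lit 557107) (nat_lit 15) (.e (nat_lit 188440) (nat_lit 20) .nil)))))) (.g (nat_lit 1) (.e (nat_lit 75317) (nat_lit 0) .nil) .nil))))) (.nd (nat_lit 8) (.nd (nat_lit 9) 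
(.lf (nat_lit 465108) (.g (nat_lit 3001) (.e (nat_lit 3238) (nat_lit 197) (.e (nat_lit 532503) (nat_lit 1) (.e (nat_lit 57847) (nat_lit 252) (.e (nat_lit 57447) (nat_lit 19) (.e (nat_lit 393229) (nat_lit 9) (.e (nat_lit 336086) (nat_lit 9) (.e (nat_lit 336306) (nat_lit 15) .nil))))))) (.g (nat_lit 1) (.e (nat_lit 74460) (nat_lit 0) .nil) .nil))) 
(.lf (nat_lit 465620) (.g (nat_lit 4429) (.e (nat_lit 3238) (nat_lit 197) (.e (nat_lit 532550) (nat_lit 12) (.e (nat_lit 360474) (nat_lit 8) (.e (nat_lit 557094) (nat_lit 12) (.e (nat_lit 164022) (nat_lit 46) (.e (nat_lit 704738) (nat_lit 11) (.e (nat_lit 16396) (nat_lit 0) .nil))))))) (.g (nat_lit 1) (.e (nat_lit 75182) (nat_lit 0) .nil) .nil)))) (.nd (nat_lit 9) 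
(.lf (nat_lit 465364) (.g (nat_lit 1424) (.e (nat_lit 3238) (nat_lit 197) (.e (nat_lit 532523) (nat_lit 7) (.e (nat_lit 319534) (nat_lit 16) (.e (nat_lit 286735) (nat_lit 3) .nil)))) (.g (nat_lit 0) (.e (nat_lit 74760) (nat_lit 0) .nil) .nil))) 
(.lf (nat_lit 465876) (.g (nat_lit 3690) (.e (nat_lit 3243) (nat_lit 197) (.e (nat_lit 532550) (nat_lit 12) (.e (nat_lit 360474) (nat_lit 8) (.e (nat_lit 557085) (nat_lit 11) .nil)))) (.g (nat_lit 0) (.e (nat_lit 75581) (nat_lit 0) .nil) .nil))))))) (.nd (nat_lit 6) (.nd (nat_lit 7) (.nd (nat_lit 8) (.nd (nat_lit 9) 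
(.lf (nat_lit 464948) (.g (nat_lit 3479) (.e (nat_lit 3233) (nat_lit 197) (.e (nat_lit 532550) (nat_lit 12) (.e (nat_lit 360474) (nat_lit 8) (.e (nat_lit 557093) (nat_lit 12) .nil)))) (.g (nat_lit 0) (.e (nat_lit 74225) (nat_lit 0) .nil) .nil))) 
(.lf (nat_lit 465460) (.g (nat_lit 4530) (.e (nat_lit 3238) (nat_lit 197) (.e (nat_lit 532535) (nat_lit 9) (.e (nat_lit 336173) (nat_lit 10) (.e (nat_lit 344119) (nat_lit 21) (.e (nat_lit 516139) (nat_lit 7) (.e (nat_lit 409648) (nat_lit 18) (.e (nat_lit 303107) (nat_lit 0) .nil))))))) (.g (nat_lit 1) (.e (nat_lit 74901) (nat_lit 0) .nil) .nil)))) (.nd (nat_lit 9) 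
(.lf (nat_lit 465204) (.g (nat_lit 3652) (.e (nat_lit 3238) (nat_lit 197) (.e (nat_lit 532523) (nat_lit 7) (.e (nat_lit 319530) (nat_lit 16) (.e (nat_lit 286733) (nat_lit 2) (.e (nat_lit 90176) (nat_lit 15) (.e (nat_lit 188437) (nat_lit 20) .nil)))))) (.g (nat_lit 1) (.e (nat_lit 74595) (nat_lit 0) .nil) .nil))) 
(.lf (nat_lit 465716) (.g (nat_lit 2109) (.e (nat_lit 3238) (nat_lit 197) (.e (nat_lit 532560) (nat_lit 14) (.e (nat_lit 376869) (nat_lit 23) (.e (nat_lit 98349) (nat_lit 24) (.e (nat_lit 409646) (nat_lit 18) (.e (nat_lit 303104) (nat_lit 0) .nil)))))) (.g (nat_lit 1) (.e (nat_lit 75282) (nat_lit 0) .nil) .nil))))) (.nd (nat_lit 8) (.nd (nat_lit 9) 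
(.lf (nat_lit 465076) (.g (nat_lit 2423) (.e (nat_lit 3238) (nat_lit 197) (.e (nat_lit 532500) (nat_lit 1) (.e (nat_lit 57851) (nat_lit 252) (.e (nat_lit 57408) (nat_lit 12) (.e (nat_lit 336454) (nat_lit 34) (.e (nat_lit 483382) (nat_lit 23) (.e (nat_lit 336306) (nat_lit 15) .nil))))))) (.g (nat_lit 1) (.e (nat_lit 74421) (nat_lit 0) .nil) .nil))) 
(.lf (nat_lit 465588) (.g (nat_lit 4995) (.e (nat_lit 3238) (nat_lit 197) (.e (nat_lit 532550) (nat_lit 12) (.e (nat_lit 360467) (nat_lit 3) (.e (nat_lit 516139) (nat_lit 7) (.e (nat_lit 409649) (nat_lit 18) (.e (nat_lit 303111) (nat_lit 0) .nil)))))) (.g (nat_lit 1) (.e (nat_lit 75149) (nat_lit 0) .nil) .nil)))) (.nd (nat_lit 9) 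
(.lf (nat_lit 465332) (.g (nat_lit 2977) (.e (nat_lit 3238) (nat_lit 197) (.e (nat_lit 532523) (nat_lit 7) (.e (nat_lit 319534) (nat_lit 16) (.e (nat_lit 286732) (nat_lit 2) (.e (nat_lit 90177) (nat_lit 15) (.e (nat_lit 188437) (nat_lit 20) .nil)))))) (.g (nat_lit 1) (.e (nat_lit 74727) (nat_lit 0) .nil) .nil))) 
(.lf (nat_lit 465844) (.g (nat_lit 3360) (.e (nat_lit 3241) (nat_lit 197) (.e (nat_lit 532500) (nat_lit 1) (.e (nat_lit 57851) (nat_lit 252) (.e (nat_lit 57406) (nat_lit 12) (.e (nat_lit 336456) (nat_lit 34) (.e (nat_lit 483379) (nat_lit 23) (.e (nat_lit 336258) (nat_lit 15) .nil))))))) (.g (nat_lit 1) (.e (nat_lit 75508) (nat_lit 0) .nil) .nil)))))) 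
(.nd (nat_lit 7) (.nd (nat_lit 8) (.nd (nat_lit 9) 
(.lf (nat_lit 465012) (.g (nat_lit 3515) (.e (nat_lit 3236) (nat_lit 197) (.e (nat_lit 532535) (nat_lit 9) (.e (nat_lit 336173) (nat_lit 10) (.e (nat_lit 344126) (nat_lit 25) (.e (nat_lit 548889) (nat_lit 9) .nil))))) (.g (nat_lit 0) (.e (nat_lit 74335) (nat_lit 0) .nil) .nil))) 
(.lf (nat_lit 465524) (.g (nat_lit 1113) (.e (nat_lit 3238) (nat_lit 197) (.e (nat_lit 532549) (nat_lit 12) (.e (nat_lit 360473) (nat_lit 8) (.e (nat_lit 557089) (nat_lit 12) .nil)))) (.g (nat_lit 0) (.e (nat_lit 75078) (nat_lit 0) .nil) .nil)))) (.nd (nat_lit 9) 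
(.lf (nat_lit 465268) (.g (nat_lit 2802) (.e (nat_lit 3238) (nat_lit 197) (.e (nat_lit 532523) (nat_lit 7) (.e (nat_lit 319532) (nat_lit 16) (.e (nat_lit 286735) (nat_lit 3) (.e (nat_lit 98369) (nat_lit 28) (.e (nat_lit 442406) (nat_lit 20) .nil)))))) (.g (nat_lit 1) (.e (nat_lit 74659) (nat_lit 0) .nil) .nil))) 
(.lf (nat_lit 465780) (.g (nat_lit 2100) (.e (nat_lit 3237) (nat_lit 197) (.e (nat_lit 532499) (nat_lit 1) (.e (nat_lit 57927) (nat_lit 282) (.e (nat_lit 163868) (nat_lit 2) (.e (nat_lit 196670) (nat_lit 14) (.e (nat_lit 73746) (nat_lit 3) (.e (nat_lit 516131) (nat_lit 3) (.e (nat_lit 221198) (nat_lit 20) .nil)))))))) (.g (nat_lit 1) (.e (nat_lit 75414) (nat_lit 0) .nil) .nil))))) 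
(.nd (nat_lit 8) (.nd (nat_lit 9) 
(.lf (nat_lit 465140) (.g (nat_lit 3314) (.e (nat_lit 3238) (nat_lit 197) (.e (nat_lit 532513) (nat_lit 3) (.e (nat_lit 114714) (nat_lit 22) (.e (nat_lit 90172) (nat_lit 14) (.e (nat_lit 180243) (nat_lit 5) (.e (nat_lit 532503) (nat_lit 1) (.e (nat_lit 57693) (nat_lit 157) (.e (nat_lit 229379) (nat_lit 0) .nil)))))))) (.g (nat_lit 1) (.e (nat_lit 74506) (nat_lit 0) .nil) .nil))) 
(.lf (nat_lit 465652) (.g (nat_lit 3430) (.e (nat_lit 3238) (nat_lit 197) (.e (nat_lit 532550) (nat_lit 12) (.e (nat_lit 360475) (nat_lit 8) (.e (nat_lit 557089) (nat_lit 12) (.e (nat_lit 163843) (nat_lit 0) (.e (nat_lit 6420) (nat_lit 341) (.e (nat_lit 163908) (nat_lit 12) (.e (nat_lit 426039) (nat_lit 0) .nil)))))))) (.g (nat_lit 1) (.e (nat_lit 75215) (nat_lit 0) .nil) .nil)))) 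
(.nd (nat_lit 9) 
(.lf (nat_lit 465396) (.g (nat_lit 3157) (.e (nat_lit 3238) (nat_lit 197) (.e (nat_lit 532531) (nat_lit 9) (.e (nat_lit 336324) (nat_lit 18) (.e (nat_lit 204852) (nat_lit 26) (.e (nat_lit 336326) (nat_lit 18) (.e (nat_lit 204854) (nat_lit 26) (.e (nat_lit 336306) (nat_lit 15) .nil))))))) (.g (nat_lit 1) (.e (nat_lit 74823) (nat_lit 0) .nil) .nil))) 
(.lf (nat_lit 465908) (.g (nat_lit 2433) (.e (nat_lit 3242) (nat_lit 197) (.e (nat_lit 532535) (nat_lit 9) (.e (nat_lit 336099) (nat_lit 9) (.e (nat_lit 336028) (nat_lit 3) .nil)))) (.g (nat_lit 0) (.e (nat_lit 75623) (nat_lit 0) .nil) .nil))))))))) (.nd (nat_lit 4) (.nd (nat_lit 5) (.nd (nat_lit 6) (.nd (nat_lit 7) (.nd (nat_lit 8) (.nd (nat_lit 9) 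
(.lf (nat_lit 464908) (.g (nat_lit 4032) (.e (nat_lit 3234) (nat_lit 197) (.e (nat_lit 532569) (nat_lit 16) (.e (nat_lit 401451) (nat_lit 12) (.e (nat_lit 475185) (nat_lit 29) (.e (nat_lit 557107) (nat_lit 15) .nil))))) (.g (nat_lit 0) (.e (nat_lit 74105) (nat_lit 0) .nil) .nil))) 
(.lf (nat_lit 465420) (.g (nat_lit 4631) (.e (nat_lit 3238) (nat_lit 197) (.e (nat_lit 532535) (nat_lit 9) (.e (nat_lit 336099) (nat_lit 9) (.e (nat_lit 336013) (nat_lit 2) (.e (nat_lit 90131) (nat_lit 9) (.e (nat_lit 2830) (nat_lit 182) (.e (nat_lit 409649) (nat_lit 18) (.e (nat_lit 303111) (nat_lit 0) .nil)))))))) (.g (nat_lit 1) (.e (nat_lit 74859) (nat_lit 0) .nil) .nil)))) (.nd (nat_lit 9) 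
(.lf (nat_lit 465164) (.g (nat_lit 2496) (.e (nat_lit 3238) (nat_lit 197) (.e (nat_lit 532523) (nat_lit 7) (.e (nat_lit 319528) (nat_lit 16) (.e (nat_lit 286733) (nat_lit 2) (.e (nat_lit 90176) (nat_lit 15) (.e (nat_lit 188424) (nat_lit 20) .nil)))))) (.g (nat_lit 1) (.e (nat_lit 74555) (nat_lit 0) .nil) .nil))) 
(.lf (nat_lit 465676) (.g (nat_lit 3905) (.e (nat_lit 3238) (nat_lit 197) (.e (nat_lit 532550) (nat_lit 12) (.e (nat_lit 360475) (nat_lit 8) (.e (nat_lit 557089) (nat_lit 12) (.e (nat_lit 164020) (nat_lit 45) (.e (nat_lit 696343) (nat_lit 8) (.e (nat_lit 172046) (nat_lit 0) .nil))))))) (.g (nat_lit 1) (.e (nat_lit 75239) (nat_lit 0) .nil) .nil))))) (.nd (nat_lit 8) (.nd (nat_lit 9) 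
(.lf (nat_lit 465036) (.g (nat_lit 2396) (.e (nat_lit 3238) (nat_lit 197) (.e (nat_lit 532499) (nat_lit 1) (.e (nat_lit 57927) (nat_lit 282) (.e (nat_lit 163868) (nat_lit 2) (.e (nat_lit 196668) (nat_lit 14) (.e (nat_lit 73746) (nat_lit 3) (.e (nat_lit 516129) (nat_lit 3) (.e (nat_lit 229120) (nat_lit 20) .nil)))))))) (.g (nat_lit 1) (.e (nat_lit 74377) (nat_lit 0) .nil) .nil))) 
(.lf (nat_lit 465548) (.g (nat_lit 2285) (.e (nat_lit 3238) (nat_lit 197) (.e (nat_lit 532549) (nat_lit 12) (.e (nat_lit 360474) (nat_lit 8) (.e (nat_lit 557085) (nat_lit 11) (.e (nat_lit 24665) (nat_lit 14) (.e (nat_lit 401408) (nat_lit 0) .nil)))))) (.g (nat_lit 1) (.e (nat_lit 75103) (nat_lit 0) .nil) .nil)))) (.nd (nat_lit 9) 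
(.lf (nat_lit 465292) (.g (nat_lit 1423) (.e (nat_lit 3238) (nat_lit 197) (.e (nat_lit 532523) (nat_lit 7) (.e (nat_lit 319533) (nat_lit 16) (.e (nat_lit 286734) (nat_lit 3) .nil)))) (.g (nat_lit 0) (.e (nat_lit 74685) (nat_lit 0) .nil) .nil))) 
(.lf (nat_lit 465804) (.g (nat_lit 5162) (.e (nat_lit 3237) (nat_lit 197) (.e (nat_lit 532550) (nat_lit 12) (.e (nat_lit 360474) (nat_lit 8) (.e (nat_lit 557094) (nat_lit 12) (.e (nat_lit 164022) (nat_lit 46) (.e (nat_lit 704737) (nat_lit 11) (.e (nat_lit 16384) (nat_lit 0) .nil))))))) (.g (nat_lit 1) (.e (nat_lit 75448) (nat_lit 0) .nil) .nil)))))) 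
(.nd (nat_lit 7) (.nd (nat_lit 8) (.nd (nat_lit 9) 
(.lf (nat_lit 464972) (.g (nat_lit 2882) (.e (nat_lit 3233) (nat_lit 197) (.e (nat_lit 532559) (nat_lit 14) (.e (nat_lit 376865) (nat_lit 22) (.e (nat_lit 90185) (nat_lit 17) (.e (nat_lit 237585) (nat_lit 1) (.e (nat_lit 164403) (nat_lit 256) (.e (nat_lit 57579) (nat_lit 61) .nil))))))) (.g (nat_lit 1) (.e (nat_lit 74262) (nat_lit 0) .nil) .nil))) 
(.lf (nat_lit 465484) (.g (nat_lit 2737) (.e (nat_lit 3238) (nat_lit 197) (.e (nat_lit 532546) (nat_lit 11) (.e (nat_lit 352315) (nat_lit 23) (.e (nat_lit 98350) (nat_lit 24) (.e (nat_lit 409649) (nat_lit 18) (.e (nat_lit 303111) (nat_lit 0) .nil)))))) (.g (nat_lit 1) (.e (nat_lit 75027) (nat_lit 0) .nil) .nil)))) (.nd (nat_lit 9) 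
(.lf (nat_lit 465228) (.g (nat_lit 2872) (.e (nat_lit 3238) (nat_lit 197) (.e (nat_lit 532523) (nat_lit 7) (.e (nat_lit 319531) (nat_lit 16) (.e (nat_lit 286733) (nat_lit 2) (.e (nat_lit 90175) (nat_lit 15) .nil))))) (.g (nat_lit 0) (.e (nat_lit 74619) (nat_lit 0) .nil) .nil))) 
(.lf (nat_lit 465740) (.g (nat_lit 1711) (.e (nat_lit 3238) (nat_lit 197) (.e (nat_lit 532569) (nat_lit 16) (.e (nat_lit 401448) (nat_lit 10) (.e (nat_lit 434244) (nat_lit 28) .nil)))) (.g (nat_lit 0) (.e (nat_lit 75307) (nat_lit 0) .nil) .nil))))) (.nd (nat_lit 8) (.nd (nat_lit 9) 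
(.lf (nat_lit 465100) (.g (nat_lit 2324) (.e (nat_lit 3238) (nat_lit 197) (.e (nat_lit 532502) (nat_lit 1) (.e (nat_lit 57849) (nat_lit 252) (.e (nat_lit 57411) (nat_lit 12) (.e (nat_lit 336454) (nat_lit 34) (.e (nat_lit 483385) (nat_lit 23) (.e (nat_lit 336306) (nat_lit 15) .nil))))))) (.g (nat_lit 1) (.e (nat_lit 74451) (nat_lit 0) .nil) .nil))) 
(.lf (nat_lit 465612) (.g (nat_lit 4324) (.e (nat_lit 3238) (nat_lit 197) (.e (nat_lit 532550) (nat_lit 12) (.e (nat_lit 360474) (nat_lit 8) (.e (nat_lit 557093) (nat_lit 12) (.e (nat_lit 164023) (nat_lit 46) (.e (nat_lit 704737) (nat_lit 11) (.e (nat_lit 16396) (nat_lit 0) .nil))))))) (.g (nat_lit 1) (.e (nat_lit 75174) (nat_lit 0) .nil) .nil)))) (.nd (nat_lit 9) 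
(.lf (nat_lit 465356) (.g (nat_lit 4390) (.e (nat_lit 3238) (nat_lit 197) (.e (nat_lit 532523) (nat_lit 7) (.e (nat_lit 319534) (nat_lit 16) (.e (nat_lit 286734) (nat_lit 3) (.e (nat_lit 98369) (nat_lit 28) (.e (nat_lit 442406) (nat_lit 20) .nil)))))) (.g (nat_lit 1) (.e (nat_lit 74752) (nat_lit 0) .nil) .nil))) 
(.lf (nat_lit 465868) (.g (nat_lit 4907) (.e (nat_lit 3241) (nat_lit 197) (.e (nat_lit 532550) (nat_lit 12) (.e (nat_lit 360475) (nat_lit 8) (.e (nat_lit 557091) (nat_lit 12) (.e (nat_lit 164022) (nat_lit 46) (.e (nat_lit 704735) (nat_lit 11) (.e (nat_lit 16389) (nat_lit 0) .nil))))))) (.g (nat_lit 1) (.e (nat_lit 75565) (nat_lit 0) .nil) .nil))))))) 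
(.nd (nat_lit 6) (.nd (nat_lit 7) (.nd (nat_lit 8) (.nd (nat_lit 9) 
(.lf (nat_lit 464940) (.g (nat_lit 1539) (.e (nat_lit 3233) (nat_lit 197) (.e (nat_lit 532530) (nat_lit 9) (.e (nat_lit 336326) (nat_lit 18) (.e (nat_lit 204854) (nat_lit 26) .nil)))) (.g (nat_lit 0) (.e (nat_lit 74198) (nat_lit 0) .nil) .nil))) 
(.lf (nat_lit 465452) (.g (nat_lit 4513) (.e (nat_lit 3238) (nat_lit 197) (.e (nat_lit 532535) (nat_lit 9) (.e (nat_lit 336173) (nat_lit 10) (.e (nat_lit 344116) (nat_lit 21) (.e (nat_lit 516139) (nat_lit 7) (.e (nat_lit 409649) (nat_lit 18) (.e (nat_lit 303111) (nat_lit 0) .nil))))))) (.g (nat_lit 1) (.e (nat_lit 74893) (nat_lit 0) .nil) .nil)))) (.nd (nat_lit 9) 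
(.lf (nat_lit 465196) (.g (nat_lit 2912) (.e (nat_lit 3238) (nat_lit 197) (.e (nat_lit 532523) (nat_lit 7) (.e (nat_lit 319530) (nat_lit 16) (.e (nat_lit 286727) (nat_lit 0) (.e (nat_lit 1799) (nat_lit 119) .nil))))) (.g (nat_lit 0) (.e (nat_lit 74587) (nat_lit 0) .nil) .nil))) 
(.lf (nat_lit 465708) (.g (nat_lit 3466) (.e (nat_lit 3238) (nat_lit 197) (.e (nat_lit 532559) (nat_lit 14) (.e (nat_lit 376868) (nat_lit 23) (.e (nat_lit 98350) (nat_lit 24) (.e (nat_lit 409649) (nat_lit 18) (.e (nat_lit 303111) (nat_lit 0) .nil)))))) (.g (nat_lit 1) (.e (nat_lit 75274) (nat_lit 0) .nil) .nil))))) (.nd (nat_lit 8) (.nd (nat_lit 9) 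
(.lf (nat_lit 465068) (.g (nat_lit 3952) (.e (nat_lit 3238) (nat_lit 197) (.e (nat_lit 532500) (nat_lit 1) (.e (nat_lit 57851) (nat_lit 252) (.e (nat_lit 57406) (nat_lit 12) (.e (nat_lit 336456) (nat_lit 34) (.e (nat_lit 483379) (nat_lit 23) (.e (nat_lit 336306) (nat_lit 15) .nil))))))) (.g (nat_lit 1) (.e (nat_lit 74413) (nat_lit 0) .nil) .nil))) 
(.lf (nat_lit 465580) (.g (nat_lit 2413) (.e (nat_lit 3238) (nat_lit 197) (.e (nat_lit 532550) (nat_lit 12) (.e (nat_lit 360466) (nat_lit 3) (.e (nat_lit 516139) (nat_lit 7) (.e (nat_lit 409646) (nat_lit 18) .nil))))) (.g (nat_lit 0) (.e (nat_lit 75141) (nat_lit 0) .nil) .nil)))) (.nd (nat_lit 9) 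
(.lf (nat_lit 465324) (.g (nat_lit 1464) (.e (nat_lit 3238) (nat_lit 197) (.e (nat_lit 532523) (nat_lit 7) (.e (nat_lit 319534) (nat_lit 16) (.e (nat_lit 286732) (nat_lit 2) .nil)))) (.g (nat_lit 0) (.e (nat_lit 74719) (nat_lit 0) .nil) .nil))) 
(.lf (nat_lit 465836) (.g (nat_lit 2324) (.e (nat_lit 3241) (nat_lit 197) (.e (nat_lit 532499) (nat_lit 1) (.e (nat_lit 57926) (nat_lit 282) (.e (nat_lit 163869) (nat_lit 2) (.e (nat_lit 196670) (nat_lit 14) (.e (nat_lit 73746) (nat_lit 3) (.e (nat_lit 516129) (nat_lit 3) (.e (nat_lit 221196) (nat_lit 20) .nil)))))))) (.g (nat_lit 1) (.e (nat_lit 75498) (nat_lit 0) .nil) .nil)))))) 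
(.nd (nat_lit 7) (.nd (nat_lit 8) (.nd (nat_lit 9) 
(.lf (nat_lit 465004) (.g (nat_lit 2690) (.e (nat_lit 3236) (nat_lit 197) (.e (nat_lit 532501) (nat_lit 1) (.e (nat_lit 57851) (nat_lit 252) (.e (nat_lit 57406) (nat_lit 12) (.e (nat_lit 336456) (nat_lit 34) .nil))))) (.g (nat_lit 0) (.e (nat_lit 74323) (nat_lit 0) .nil) .nil))) 
(.lf (nat_lit 465516) (.g (nat_lit 3740) (.e (nat_lit 3238) (nat_lit 197) (.e (nat_lit 532549) (nat_lit 12) (.e (nat_lit 360468) (nat_lit 3) (.e (nat_lit 516139) (nat_lit 7) (.e (nat_lit 409649) (nat_lit 18) (.e (nat_lit 303111) (nat_lit 0) .nil)))))) (.g (nat_lit 1) (.e (nat_lit 75070) (nat_lit 0) .nil) .nil)))) (.nd (nat_lit 9) 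
(.lf (nat_lit 465260) (.g (nat_lit 2883) (.e (nat_lit 3238) (nat_lit 197) (.e (nat_lit 532523) (nat_lit 7) (.e (nat_lit 319532) (nat_lit 16) (.e (nat_lit 286733) (nat_lit 2) (.e (nat_lit 90176) (nat_lit 15) (.e (nat_lit 188439) (nat_lit 20) .nil)))))) (.g (nat_lit 1) (.e (nat_lit 74651) (nat_lit 0) .nil) .nil))) 
(.lf (nat_lit 465772) (.g (nat_lit 4669) (.e (nat_lit 3239) (nat_lit 197) (.e (nat_lit 532550) (nat_lit 12) (.e (nat_lit 360475) (nat_lit 8) (.e (nat_lit 557089) (nat_lit 12) .nil)))) (.g (nat_lit 0) (.e (nat_lit 75406) (nat_lit 0) .nil) .nil))))) (.nd (nat_lit 8) (.nd (nat_lit 9) 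
(.lf (nat_lit 465132) (.g (nat_lit 1736) (.e (nat_lit 3238) (nat_lit 197) (.e (nat_lit 532506) (nat_lit 2) (.e (nat_lit 106536) (nat_lit 11) (.e (nat_lit 16413) (nat_lit 2) (.e (nat_lit 196674) (nat_lit 15) (.e (nat_lit 89856) (nat_lit 0) .nil)))))) (.g (nat_lit 1) (.e (nat_lit 74488) (nat_lit 0) .nil) .nil))) 
(.lf (nat_lit 465644) (.g (nat_lit 4382) (.e (nat_lit 3238) (nat_lit 197) (.e (nat_lit 532550) (nat_lit 12) (.e (nat_lit 360475) (nat_lit 8) (.e (nat_lit 557087) (nat_lit 11) (.e (nat_lit 24665) (nat_lit 14) (.e (nat_lit 401413) (nat_lit 0) .nil)))))) (.g (nat_lit 1) (.e (nat_lit 75207) (nat_lit 0) .nil) .nil)))) (.nd (nat_lit 9) 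
(.lf (nat_lit 465388) (.g (nat_lit 2040) (.e (nat_lit 3238) (nat_lit 197) (.e (nat_lit 532523) (nat_lit 7) (.e (nat_lit 327424) (nat_lit 16) (.e (nat_lit 286727) (nat_lit 0) (.e (nat_lit 1799) (nat_lit 119) (.e (nat_lit 516177) (nat_lit 14) (.e (nat_lit 466955) (nat_lit 20) .nil))))))) (.g (nat_lit 1) (.e (nat_lit 74785) (nat_lit 0) .nil) .nil))) 
(.lf (nat_lit 465900) (.g (nat_lit 3128) (.e (nat_lit 3242) (nat_lit 197) (.e (nat_lit 532499) (nat_lit 1) (.e (nat_lit 57927) (nat_lit 282) (.e (nat_lit 163869) (nat_lit 2) (.e (nat_lit 196670) (nat_lit 14) (.e (nat_lit 73746) (nat_lit 3) (.e (nat_lit 516129) (nat_lit 3) (.e (nat_lit 221196) (nat_lit 20) .nil)))))))) (.g (nat_lit 1) (.e (nat_lit 75606) (nat_lit 0) .nil) .nil)))))))) 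
(.nd (nat_lit 5) (.nd (nat_lit 6) (.nd (nat_lit 7) (.nd (nat_lit 8) (.nd (nat_lit 9) 
(.lf (nat_lit 464924) (.g (nat_lit 2087) (.e (nat_lit 3233) (nat_lit 197) (.e (nat_lit 532501) (nat_lit 1) (.e (nat_lit 57851) (nat_lit 252) (.e (nat_lit 57406) (nat_lit 12) (.e (nat_lit 336367) (nat_lit 27) (.e (nat_lit 426542) (nat_lit 29) (.e (nat_lit 360192) (nat_lit 0) .nil))))))) (.g (nat_lit 1) (.e (nat_lit 74125) (nat_lit 0) .nil) .nil))) 
(.lf (nat_lit 465436) (.g (nat_lit 5587) (.e (nat_lit 3238) (nat_lit 197) (.e (nat_lit 532535) (nat_lit 9) (.e (nat_lit 336099) (nat_lit 9) (.e (nat_lit 336028) (nat_lit 3) (.e (nat_lit 98349) (nat_lit 24) (.e (nat_lit 409649) (nat_lit 18) (.e (nat_lit 303111) (nat_lit 0) .nil))))))) (.g (nat_lit 1) (.e (nat_lit 74875) (nat_lit 0) .nil) .nil)))) (.nd (nat_lit 9) 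
(.lf (nat_lit 465180) (.g (nat_lit 2331) (.e (nat_lit 3238) (nat_lit 197) (.e (nat_lit 532523) (nat_lit 7) (.e (nat_lit 319528) (nat_lit 16) (.e (nat_lit 286735) (nat_lit 3) (.e (nat_lit 98371) (nat_lit 28) (.e (nat_lit 442407) (nat_lit 20) .nil)))))) (.g (nat_lit 1) (.e (nat_lit 74571) (nat_lit 0) .nil) .nil))) 
(.lf (nat_lit 465692) (.g (nat_lit 2854) (.e (nat_lit 3238) (nat_lit 197) (.e (nat_lit 532550) (nat_lit 12) (.e (nat_lit 360475) (nat_lit 8) (.e (nat_lit 557091) (nat_lit 12) (.e (nat_lit 164017) (nat_lit 44) (.e (nat_lit 688138) (nat_lit 5) (.e (nat_lit 2887) (nat_lit 184) (.e (nat_lit 426043) (nat_lit 0) .nil)))))))) (.g (nat_lit 1) (.e (nat_lit 75255) (nat_lit 0) .nil) .nil))))) 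
(.nd (nat_lit 8) (.nd (nat_lit 9) 
(.lf (nat_lit 465052) (.g (nat_lit 3017) (.e (nat_lit 3238) (nat_lit 197) (.e (nat_lit 532499) (nat_lit 1) (.e (nat_lit 57927) (nat_lit 282) (.e (nat_lit 163871) (nat_lit 2) (.e (nat_lit 196670) (nat_lit 14) (.e (nat_lit 73746) (nat_lit 3) (.e (nat_lit 516129) (nat_lit 3) (.e (nat_lit 221195) (nat_lit 20) .nil)))))))) (.g (nat_lit 1) (.e (nat_lit 74397) (nat_lit 0) .nil) .nil))) 
(.lf (nat_lit 465564) (.g (nat_lit 4491) (.e (nat_lit 3238) (nat_lit 197) (.e (nat_lit 532549) (nat_lit 12) (.e (nat_lit 360475) (nat_lit 8) (.e (nat_lit 557086) (nat_lit 11) (.e (nat_lit 24665) (nat_lit 14) (.e (nat_lit 401414) (nat_lit 0) .nil)))))) (.g (nat_lit 1) (.e (nat_lit 75119) (nat_lit 0) .nil) .nil)))) (.nd (nat_lit 9) 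
(.lf (nat_lit 465308) (.g (nat_lit 3804) (.e (nat_lit 3238) (nat_lit 197) (.e (nat_lit 532523) (nat_lit 7) (.e (nat_lit 319533) (nat_lit 16) (.e (nat_lit 286735) (nat_lit 3) (.e (nat_lit 98369) (nat_lit 28) (.e (nat_lit 442404) (nat_lit 20) .nil)))))) (.g (nat_lit 1) (.e (nat_lit 74701) (nat_lit 0) .nil) .nil))) 
(.lf (nat_lit 465820) (.g (nat_lit 2296) (.e (nat_lit 3240) (nat_lit 197) (.e (nat_lit 532499) (nat_lit 1) (.e (nat_lit 57927) (nat_lit 282) (.e (nat_lit 163868) (nat_lit 2) (.e (nat_lit 196668) (nat_lit 14) (.e (nat_lit 73747) (nat_lit 3) (.e (nat_lit 516129) (nat_lit 3) (.e (nat_lit 221196) (nat_lit 20) .nil)))))))) (.g (nat_lit 1) (.e (nat_lit 75466) (nat_lit 0) .nil) .nil)))))) 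
(.nd (nat_lit 7) (.nd (nat_lit 8) (.nd (nat_lit 9) 
(.lf (nat_lit 464988) (.g (nat_lit 2039) (.e (nat_lit 3233) (nat_lit 197) (.e (nat_lit 532563) (nat_lit 15) (.e (nat_lit 385066) (nat_lit 26) (.e (nat_lit 532534) (nat_lit 9) (.e (nat_lit 336316) (nat_lit 17) .nil))))) (.g (nat_lit 0) (.e (nat_lit 74281) (nat_lit 0) .nil) .nil))) 
(.lf (nat_lit 465500) (.g (nat_lit 4393) (.e (nat_lit 3238) (nat_lit 197) (.e (nat_lit 532547) (nat_lit 11) (.e (nat_lit 352315) (nat_lit 23) (.e (nat_lit 98350) (nat_lit 24) (.e (nat_lit 409649) (nat_lit 18) (.e (nat_lit 303111) (nat_lit 0) .nil)))))) (.g (nat_lit 1) (.e (nat_lit 75052) (nat_lit 0) .nil) .nil)))) (.nd (nat_lit 9) 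
(.lf (nat_lit 465244) (.g (nat_lit 2532) (.e (nat_lit 3238) (nat_lit 197) (.e (nat_lit 532523) (nat_lit 7) (.e (nat_lit 319531) (nat_lit 16) (.e (nat_lit 286735) (nat_lit 3) (.e (nat_lit 98370) (nat_lit 28) .nil))))) (.g (nat_lit 0) (.e (nat_lit 74635) (nat_lit 0) .nil) .nil))) 
(.lf (nat_lit 465756) (.g (nat_lit 2271) (.e (nat_lit 3239) (nat_lit 197) (.e (nat_lit 532501) (nat_lit 1) (.e (nat_lit 57851) (nat_lit 252) (.e (nat_lit 57406) (nat_lit 12) .nil)))) (.g (nat_lit 0) (.e (nat_lit 75384) (nat_lit 0) .nil) .nil))))) (.nd (nat_lit 8) (.nd (nat_lit 9) 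
(.lf (nat_lit 465116) (.g (nat_lit 2439) (.e (nat_lit 3238) (nat_lit 197) (.e (nat_lit 532503) (nat_lit 1) (.e (nat_lit 57931) (nat_lit 282) (.e (nat_lit 163867) (nat_lit 2) (.e (nat_lit 196670) (nat_lit 14) .nil))))) (.g (nat_lit 0) (.e (nat_lit 74468) (nat_lit 0) .nil) .nil))) 
(.lf (nat_lit 465628) (.g (nat_lit 3309) (.e (nat_lit 3238) (nat_lit 197) (.e (nat_lit 532550) (nat_lit 12) (.e (nat_lit 360475) (nat_lit 8) (.e (nat_lit 557085) (nat_lit 11) (.e (nat_lit 24663) (nat_lit 14) (.e (nat_lit 401414) (nat_lit 0) .nil)))))) (.g (nat_lit 1) (.e (nat_lit 75191) (nat_lit 0) .nil) .nil)))) (.nd (nat_lit 9) 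
(.lf (nat_lit 465372) (.g (nat_lit 3790) (.e (nat_lit 3238) (nat_lit 197) (.e (nat_lit 532523) (nat_lit 7) (.e (nat_lit 319534) (nat_lit 16) (.e (nat_lit 286735) (nat_lit 3) (.e (nat_lit 98369) (nat_lit 28) (.e (nat_lit 442407) (nat_lit 20) .nil)))))) (.g (nat_lit 1) (.e (nat_lit 74768) (nat_lit 0) .nil) .nil))) 
(.lf (nat_lit 465884) (.g (nat_lit 4811) (.e (nat_lit 3243) (nat_lit 197) (.e (nat_lit 532550) (nat_lit 12) (.e (nat_lit 360475) (nat_lit 8) (.e (nat_lit 557089) (nat_lit 12) .nil)))) (.g (nat_lit 0) (.e (nat_lit 75590) (nat_lit 0) .nil) .nil))))))) (.nd (nat_lit 6) (.nd (nat_lit 7) (.nd (nat_lit 8) (.nd (nat_lit 9) 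
(.lf (nat_lit 464956) (.g (nat_lit 4104) (.e (nat_lit 3233) (nat_lit 197) (.e (nat_lit 532550) (nat_lit 12) (.e (nat_lit 360475) (nat_lit 8) (.e (nat_lit 557089) (nat_lit 12) .nil)))) (.g (nat_lit 0) (.e (nat_lit 74237) (nat_lit 0) .nil) .nil))) 
(.lf (nat_lit 465468) (.g (nat_lit 1474) (.e (nat_lit 3238) (nat_lit 197) (.e (nat_lit 532535) (nat_lit 9) (.e (nat_lit 336176) (nat_lit 10) (.e (nat_lit 344119) (nat_lit 21) .nil)))) (.g (nat_lit 0) (.e (nat_lit 74913) (nat_lit 0) .nil) .nil)))) (.nd (nat_lit 9) 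
(.lf (nat_lit 465212) (.g (nat_lit 2042) (.e (nat_lit 3238) (nat_lit 197) (.e (nat_lit 532523) (nat_lit 7) (.e (nat_lit 319530) (nat_lit 16) (.e (nat_lit 286735) (nat_lit 3) .nil)))) (.g (nat_lit 0) (.e (nat_lit 74603) (nat_lit 0) .nil) .nil))) 
(.lf (nat_lit 465724) (.g (nat_lit 4337) (.e (nat_lit 3238) (nat_lit 197) (.e (nat_lit 532563) (nat_lit 15) (.e (nat_lit 385066) (nat_lit 26) (.e (nat_lit 532534) (nat_lit 9) (.e (nat_lit 336324) (nat_lit 18) (.e (nat_lit 204854) (nat_lit 26) (.e (nat_lit 336306) (nat_lit 15) .nil))))))) (.g (nat_lit 1) (.e (nat_lit 75290) (nat_lit 0) .nil) .nil))))) (.nd (nat_lit 8) (.nd (nat_lit 9) 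
(.lf (nat_lit 465084) (.g (nat_lit 2709) (.e (nat_lit 3238) (nat_lit 197) (.e (nat_lit 532500) (nat_lit 1) (.e (nat_lit 57927) (nat_lit 282) (.e (nat_lit 163869) (nat_lit 2) (.e (nat_lit 196670) (nat_lit 14) (.e (nat_lit 73746) (nat_lit 3) (.e (nat_lit 516129) (nat_lit 3) (.e (nat_lit 221195) (nat_lit 20) .nil)))))))) (.g (nat_lit 1) (.e (nat_lit 74430) (nat_lit 0) .nil) .nil))) 
(.lf (nat_lit 465596) (.g (nat_lit 4335) (.e (nat_lit 3238) (nat_lit 197) (.e (nat_lit 532550) (nat_lit 12) (.e (nat_lit 360474) (nat_lit 8) (.e (nat_lit 557085) (nat_lit 11) (.e (nat_lit 24664) (nat_lit 14) (.e (nat_lit 401414) (nat_lit 0) .nil)))))) (.g (nat_lit 1) (.e (nat_lit 75158) (nat_lit 0) .nil) .nil)))) (.nd (nat_lit 9) 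
(.lf (nat_lit 465340) (.g (nat_lit 2800) (.e (nat_lit 3238) (nat_lit 197) (.e (nat_lit 532523) (nat_lit 7) (.e (nat_lit 319534) (nat_lit 16) (.e (nat_lit 286733) (nat_lit 2) (.e (nat_lit 90176) (nat_lit 15) (.e (nat_lit 188436) (nat_lit 20) .nil)))))) (.g (nat_lit 1) (.e (nat_lit 74736) (nat_lit 0) .nil) .nil))) 
(.lf (nat_lit 465852) (.g (nat_lit 2132) (.e (nat_lit 3241) (nat_lit 197) (.e (nat_lit 532500) (nat_lit 1) (.e (nat_lit 57927) (nat_lit 282) (.e (nat_lit 163869) (nat_lit 2) (.e (nat_lit 196670) (nat_lit 14) (.e (nat_lit 73746) (nat_lit 3) (.e (nat_lit 516129) (nat_lit 3) (.e (nat_lit 221197) (nat_lit 20) .nil)))))))) (.g (nat_lit 1) (.e (nat_lit 75516) (nat_lit 0) .nil) .nil)))))) 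
(.nd (nat_lit 7) (.nd (nat_lit 8) (.nd (nat_lit 9) 
(.lf (nat_lit 465020) (.g (nat_lit 2049) (.e (nat_lit 3238) (nat_lit 197) (.e (nat_lit 532482) (nat_lit 0) (.e (nat_lit 6722) (nat_lit 362) (.e (nat_lit 180244) (nat_lit 5) (.e (nat_lit 532566) (nat_lit 15) (.e (nat_lit 385104) (nat_lit 50) (.e (nat_lit 786436) (nat_lit 0) .nil))))))) (.g (nat_lit 1) (.e (nat_lit 74351) (nat_lit 0) .nil) .nil))) 
(.lf (nat_lit 465532) (.g (nat_lit 3234) (.e (nat_lit 3238) (nat_lit 197) (.e (nat_lit 532549) (nat_lit 12) (.e (nat_lit 360473) (nat_lit 8) (.e (nat_lit 557091) (nat_lit 12) (.e (nat_lit 164022) (nat_lit 46) (.e (nat_lit 704738) (nat_lit 11) (.e (nat_lit 16384) (nat_lit 0) .nil))))))) (.g (nat_lit 1) (.e (nat_lit 75087) (nat_lit 0) .nil) .nil)))) (.nd (nat_lit 9) 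
(.lf (nat_lit 465276) (.g (nat_lit 4046) (.e (nat_lit 3238) (nat_lit 197) (.e (nat_lit 532523) (nat_lit 7) (.e (nat_lit 319533) (nat_lit 16) (.e (nat_lit 286732) (nat_lit 2) (.e (nat_lit 90176) (nat_lit 15) (.e (nat_lit 188439) (nat_lit 20) .nil)))))) (.g (nat_lit 1) (.e (nat_lit 74668) (nat_lit 0) .nil) .nil))) 
(.lf (nat_lit 465788) (.g (nat_lit 2514) (.e (nat_lit 3237) (nat_lit 197) (.e (nat_lit 532504) (nat_lit 1) (.e (nat_lit 57851) (nat_lit 252) (.e (nat_lit 57406) (nat_lit 12) (.e (nat_lit 336456) (nat_lit 34) .nil))))) (.g (nat_lit 0) (.e (nat_lit 75424) (nat_lit 0) .nil) .nil))))) (.nd (nat_lit 8) (.nd (nat_lit 9) 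
(.lf (nat_lit 465148) (.g (nat_lit 2774) (.e (nat_lit 3238) (nat_lit 197) (.e (nat_lit 532513) (nat_lit 3) (.e (nat_lit 114714) (nat_lit 22) (.e (nat_lit 90174) (nat_lit 14) (.e (nat_lit 180243) (nat_lit 5) (.e (nat_lit 532501) (nat_lit 1) (.e (nat_lit 57693) (nat_lit 157) (.e (nat_lit 229379) (nat_lit 0) .nil)))))))) (.g (nat_lit 1) (.e (nat_lit 74519) (nat_lit 0) .nil) .nil))) 
(.lf (nat_lit 465660) (.g (nat_lit 4183) (.e (nat_lit 3238) (nat_lit 197) (.e (nat_lit 532550) (nat_lit 12) (.e (nat_lit 360475) (nat_lit 8) (.e (nat_lit 557089) (nat_lit 12) (.e (nat_lit 163844) (nat_lit 0) (.e (nat_lit 6420) (nat_lit 341) (.e (nat_lit 163908) (nat_lit 12) (.e (nat_lit 426039) (nat_lit 0) .nil)))))))) (.g (nat_lit 1) (.e (nat_lit 75223) (nat_lit 0) .nil) .nil)))) 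
(.nd (nat_lit 9) 
(.lf (nat_lit 465404) (.g (nat_lit 4207) (.e (nat_lit 3238) (nat_lit 197) (.e (nat_lit 532535) (nat_lit 9) (.e (nat_lit 336099) (nat_lit 9) (.e (nat_lit 336013) (nat_lit 2) (.e (nat_lit 90121) (nat_lit 9) .nil))))) (.g (nat_lit 0) (.e (nat_lit 74843) (nat_lit 0) .nil) .nil))) 
(.lf (nat_lit 465916) (.g (nat_lit 4476) (.e (nat_lit 3242) (nat_lit 197) (.e (nat_lit 532550) (nat_lit 12) (.e (nat_lit 360474) (nat_lit 8) (.e (nat_lit 557093) (nat_lit 12) (.e (nat_lit 164022) (nat_lit 46) (.e (nat_lit 704735) (nat_lit 11) (.e (nat_lit 16390) (nat_lit 0) .nil))))))) (.g (nat_lit 1) (.e (nat_lit 75639) (nat_lit 0) .nil) .nil))))))))))) 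
(.nd (nat_lit 2) (.nd (nat_lit 3) (.nd (nat_lit 4) (.nd (nat_lit 5) (.nd (nat_lit 6) 
(.nd (nat_lit 7) (.nd (nat_lit 8) (.nd (nat_lit 9) 
(.lf (nat_lit 464898) (.g (nat_lit 5081) (.e (nat_lit 3234) (nat_lit 197) (.e (nat_lit 532550) (nat_lit 12) (.e (nat_lit 360475) (nat_lit 8) (.e (nat_lit 557087) (nat_lit 11) .nil)))) (.g (nat_lit 0) (.e (nat_lit 74077) (nat_lit 0) .nil) .nil))) 
(.lf (nat_lit 465410) (.g (nat_lit 5903) (.e (nat_lit 3238) (nat_lit 197) (.e (nat_lit 532535) (nat_lit 9) (.e (nat_lit 336099) (nat_lit 9) (.e (nat_lit 336013) (nat_lit 2) (.e (nat_lit 90127) (nat_lit 9) (.e (nat_lit 2830) (nat_lit 182) (.e (nat_lit 409648) (nat_lit 18) (.e (nat_lit 303104) (nat_lit 0) .nil)))))))) (.g (nat_lit 1) (.e (nat_lit 74849) (nat_lit 0) .nil) .nil)))) (.nd (nat_lit 9) 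
(.lf (nat_lit 465154) (.g (nat_lit 2943) (.e (nat_lit 3238) (nat_lit 197) (.e (nat_lit 532522) (nat_lit 7) (.e (nat_lit 319531) (nat_lit 16) (.e (nat_lit 286733) (nat_lit 2) (.e (nat_lit 90134) (nat_lit 9) (.e (nat_lit 2992) (nat_lit 186) (.e (nat_lit 442406) (nat_lit 20) .nil))))))) (.g (nat_lit 1) (.e (nat_lit 74545) (nat_lit 0) .nil) .nil))) 
(.lf (nat_lit 465666) (.g (nat_lit 3665) (.e (nat_lit 3238) (nat_lit 197) (.e (nat_lit 532550) (nat_lit 12) (.e (nat_lit 360475) (nat_lit 8) (.e (nat_lit 557089) (nat_lit 12) (.e (nat_lit 163849) (nat_lit 0) (.e (nat_lit 6416) (nat_lit 341) (.e (nat_lit 163908) (nat_lit 12) (.e (nat_lit 426003) (nat_lit 0) .nil)))))))) (.g (nat_lit 1) (.e (nat_lit 75229) (nat_lit 0) .nil) .nil))))) 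
(.nd (nat_lit 8) (.nd (nat_lit 9) 
(.lf (nat_lit 465026) (.g (nat_lit 3670) (.e (nat_lit 3238) (nat_lit 197) (.e (nat_lit 532482) (nat_lit 0) (.e (nat_lit 6724) (nat_lit 362) (.e (nat_lit 180243) (nat_lit 5) (.e (nat_lit 532566) (nat_lit 15) (.e (nat_lit 385106) (nat_lit 50) (.e (nat_lit 786436) (nat_lit 0) .nil))))))) (.g (nat_lit 1) (.e (nat_lit 74358) (nat_lit 0) .nil) .nil))) 
(.lf (nat_lit 465538) (.g (nat_lit 2940) (.e (nat_lit 3238) (nat_lit 197) (.e (nat_lit 532549) (nat_lit 12) (.e (nat_lit 360473) (nat_lit 8) (.e (nat_lit 557093) (nat_lit 12) (.e (nat_lit 164022) (nat_lit 46) (.e (nat_lit 704738) (nat_lit 11) (.e (nat_lit 16384) (nat_lit 0) .nil))))))) (.g (nat_lit 1) (.e (nat_lit 75093) (nat_lit 0) .nil) .nil)))) (.nd (nat_lit 9) 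
(.lf (nat_lit 465282) (.g (nat_lit 3512) (.e (nat_lit 3238) (nat_lit 197) (.e (nat_lit 532523) (nat_lit 7) (.e (nat_lit 319533) (nat_lit 16) (.e (nat_lit 286732) (nat_lit 2) (.e (nat_lit 90178) (nat_lit 15) (.e (nat_lit 188441) (nat_lit 20) .nil)))))) (.g (nat_lit 1) (.e (nat_lit 74674) (nat_lit 0) .nil) .nil))) 
(.lf (nat_lit 465794) (.g (nat_lit 4177) (.e (nat_lit 3237) (nat_lit 197) (.e (nat_lit 532550) (nat_lit 12) (.e (nat_lit 360474) (nat_lit 8) (.e (nat_lit 557085) (nat_lit 11) .nil)))) (.g (nat_lit 0) (.e (nat_lit 75438) (nat_lit 0) .nil) .nil)))))) (.nd (nat_lit 7) (.nd (nat_lit 8) (.nd (nat_lit 9) 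
(.lf (nat_lit 464962) (.g (nat_lit 4712) (.e (nat_lit 3233) (nat_lit 197) (.e (nat_lit 532550) (nat_lit 12) (.e (nat_lit 360475) (nat_lit 8) (.e (nat_lit 557091) (nat_lit 12) (.e (nat_lit 163844) (nat_lit 0) .nil))))) (.g (nat_lit 0) (.e (nat_lit 74244) (nat_lit 0) .nil) .nil))) 
(.lf (nat_lit 465474) (.g (nat_lit 1838) (.e (nat_lit 3238) (nat_lit 197) (.e (nat_lit 532535) (nat_lit 9) (.e (nat_lit 336176) (nat_lit 10) (.e (nat_lit 344133) (nat_lit 26) (.e (nat_lit 557091) (nat_lit 12) .nil))))) (.g (nat_lit 0) (.e (nat_lit 74966) (nat_lit 0) .nil) .nil)))) (.nd (nat_lit 9) 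
(.lf (nat_lit 465218) (.g (nat_lit 3214) (.e (nat_lit 3238) (nat_lit 197) (.e (nat_lit 532523) (nat_lit 7) (.e (nat_lit 319530) (nat_lit 16) (.e (nat_lit 286735) (nat_lit 3) (.e (nat_lit 98371) (nat_lit 28) (.e (nat_lit 442407) (nat_lit 20) .nil)))))) (.g (nat_lit 1) (.e (nat_lit 74609) (nat_lit 0) .nil) .nil))) 
(.lf (nat_lit 465730) (.g (nat_lit 3374) (.e (nat_lit 3238) (nat_lit 197) (.e (nat_lit 532564) (nat_lit 15) (.e (nat_lit 385066) (nat_lit 26) (.e (nat_lit 532530) (nat_lit 9) (.e (nat_lit 336326) (nat_lit 18) (.e (nat_lit 204854) (nat_lit 26) (.e (nat_lit 336306) (nat_lit 15) .nil))))))) (.g (nat_lit 1) (.e (nat_lit 75296) (nat_lit 0) .nil) .nil))))) (.nd (nat_lit 8) (.nd (nat_lit 9) 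
(.lf (nat_lit 465090) (.g (nat_lit 3453) (.e (nat_lit 3238) (nat_lit 197) (.e (nat_lit 532501) (nat_lit 1) (.e (nat_lit 57851) (nat_lit 252) (.e (nat_lit 57406) (nat_lit 12) (.e (nat_lit 336456) (nat_lit 34) (.e (nat_lit 483382) (nat_lit 23) (.e (nat_lit 336306) (nat_lit 15) .nil))))))) (.g (nat_lit 1) (.e (nat_lit 74436) (nat_lit 0) .nil) .nil))) 
(.lf (nat_lit 465602) (.g (nat_lit 3656) (.e (nat_lit 3238) (nat_lit 197) (.e (nat_lit 532550) (nat_lit 12) (.e (nat_lit 360474) (nat_lit 8) (.e (nat_lit 557093) (nat_lit 12) (.e (nat_lit 164022) (nat_lit 46) (.e (nat_lit 704736) (nat_lit 11) (.e (nat_lit 16396) (nat_lit 0) .nil))))))) (.g (nat_lit 1) (.e (nat_lit 75164) (nat_lit 0) .nil) .nil)))) (.nd (nat_lit 9) 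
(.lf (nat_lit 465346) (.g (nat_lit 4500) (.e (nat_lit 3238) (nat_lit 197) (.e (nat_lit 532523) (nat_lit 7) (.e (nat_lit 319534) (nat_lit 16) (.e (nat_lit 286733) (nat_lit 2) (.e (nat_lit 90177) (nat_lit 15) (.e (nat_lit 188434) (nat_lit 20) .nil)))))) (.g (nat_lit 1) (.e (nat_lit 74742) (nat_lit 0) .nil) .nil))) 
(.lf (nat_lit 465858) (.g (nat_lit 4041) (.e (nat_lit 3241) (nat_lit 197) (.e (nat_lit 532535) (nat_lit 9) (.e (nat_lit 336099) (nat_lit 9) (.e (nat_lit 336028) (nat_lit 3) (.e (nat_lit 98349) (nat_lit 24) (.e (nat_lit 409645) (nat_lit 18) (.e (nat_lit 303106) (nat_lit 0) .nil))))))) (.g (nat_lit 1) (.e (nat_lit 75538) (nat_lit 0) .nil) .nil))))))) 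
(.nd (nat_lit 6) (.nd (nat_lit 7) (.nd (nat_lit 8) (.nd (nat_lit 9) 
(.lf (nat_lit 464930) (.g (nat_lit 1284) (.e (nat_lit 3233) (nat_lit 197) (.e (nat_lit 532511) (nat_lit 2) (.e (nat_lit 106536) (nat_lit 11) (.e (nat_lit 16413) (nat_lit 2) (.e (nat_lit 196672) (nat_lit 15) (.e (nat_lit 89856) (nat_lit 0) .nil)))))) (.g (nat_lit 1) (.e (nat_lit 74131) (nat_lit 0) .nil) .nil))) 
(.lf (nat_lit 465442) (.g (nat_lit 3550) (.e (nat_lit 3238) (nat_lit 197) (.e (nat_lit 532535) (nat_lit 9) (.e (nat_lit 336110) (nat_lit 9) (.e (nat_lit 336028) (nat_lit 3) (.e (nat_lit 98350) (nat_lit 24) (.e (nat_lit 409648) (nat_lit 18) (.e (nat_lit 303108) (nat_lit 0) .nil))))))) (.g (nat_lit 1) (.e (nat_lit 74881) (nat_lit 0) .nil) .nil)))) (.nd (nat_lit 9) 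
(.lf (nat_lit 465186) (.g (nat_lit 3673) (.e (nat_lit 3238) (nat_lit 197) (.e (nat_lit 532523) (nat_lit 7) (.e (nat_lit 319529) (nat_lit 16) (.e (nat_lit 286733) (nat_lit 2) (.e (nat_lit 90178) (nat_lit 15) (.e (nat_lit 188424) (nat_lit 20) .nil)))))) (.g (nat_lit 1) (.e (nat_lit 74577) (nat_lit 0) .nil) .nil))) 
(.lf (nat_lit 465698) (.g (nat_lit 4714) (.e (nat_lit 3238) (nat_lit 197) (.e (nat_lit 532550) (nat_lit 12) (.e (nat_lit 360475) (nat_lit 8) (.e (nat_lit 557091) (nat_lit 12) (.e (nat_lit 164022) (nat_lit 46) (.e (nat_lit 704737) (nat_lit 11) (.e (nat_lit 16396) (nat_lit 0) .nil))))))) (.g (nat_lit 1) (.e (nat_lit 75261) (nat_lit 0) .nil) .nil))))) (.nd (nat_lit 8) (.nd (nat_lit 9) 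
(.lf (nat_lit 465058) (.g (nat_lit 3313) (.e (nat_lit 3238) (nat_lit 197) (.e (nat_lit 532500) (nat_lit 1) (.e (nat_lit 57851) (nat_lit 252) (.e (nat_lit 57406) (nat_lit 12) (.e (nat_lit 336454) (nat_lit 34) (.e (nat_lit 483382) (nat_lit 23) (.e (nat_lit 336306) (nat_lit 15) .nil))))))) (.g (nat_lit 1) (.e (nat_lit 74403) (nat_lit 0) .nil) .nil))) 
(.lf (nat_lit 465570) (.g (nat_lit 4859) (.e (nat_lit 3238) (nat_lit 197) (.e (nat_lit 532549) (nat_lit 12) (.e (nat_lit 360475) (nat_lit 8) (.e (nat_lit 557087) (nat_lit 11) (.e (nat_lit 24665) (nat_lit 14) (.e (nat_lit 401414) (nat_lit 0) .nil)))))) (.g (nat_lit 1) (.e (nat_lit 75126) (nat_lit 0) .nil) .nil)))) (.nd (nat_lit 9) 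
(.lf (nat_lit 465314) (.g (nat_lit 3508) (.e (nat_lit 3238) (nat_lit 197) (.e (nat_lit 532523) (nat_lit 7) (.e (nat_lit 319533) (nat_lit 16) (.e (nat_lit 286735) (nat_lit 3) (.e (nat_lit 98371) (nat_lit 28) (.e (nat_lit 442407) (nat_lit 20) .nil)))))) (.g (nat_lit 1) (.e (nat_lit 74707) (nat_lit 0) .nil) .nil))) 
(.lf (nat_lit 465826) (.g (nat_lit 2966) (.e (nat_lit 3240) (nat_lit 197) (.e (nat_lit 532499) (nat_lit 1) (.e (nat_lit 57927) (nat_lit 282) (.e (nat_lit 163869) (nat_lit 2) (.e (nat_lit 196670) (nat_lit 14) (.e (nat_lit 73746) (nat_lit 3) (.e (nat_lit 516129) (nat_lit 3) (.e (nat_lit 221196) (nat_lit 20) .nil)))))))) (.g (nat_lit 1) (.e (nat_lit 75472) (nat_lit 0) .nil) .nil)))))) 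
(.nd (nat_lit 7) (.nd (nat_lit 8) (.nd (nat_lit 9) 
(.lf (nat_lit 464994) (.g (nat_lit 2273) (.e (nat_lit 3233) (nat_lit 197) (.e (nat_lit 532569) (nat_lit 16) (.e (nat_lit 401448) (nat_lit 10) (.e (nat_lit 434244) (nat_lit 28) .nil)))) (.g (nat_lit 0) (.e (nat_lit 74295) (nat_lit 0) .nil) .nil))) 
(.lf (nat_lit 465506) (.g (nat_lit 3182) (.e (nat_lit 3238) (nat_lit 197) (.e (nat_lit 532549) (nat_lit 12) (.e (nat_lit 360466) (nat_lit 3) (.e (nat_lit 516139) (nat_lit 7) (.e (nat_lit 409648) (nat_lit 18) (.e (nat_lit 303107) (nat_lit 0) .nil)))))) (.g (nat_lit 1) (.e (nat_lit 75058) (nat_lit 0) .nil) .nil)))) (.nd (nat_lit 9) 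
(.lf (nat_lit 465250) (.g (nat_lit 3738) (.e (nat_lit 3238) (nat_lit 197) (.e (nat_lit 532523) (nat_lit 7) (.e (nat_lit 319531) (nat_lit 16) (.e (nat_lit 286735) (nat_lit 3) (.e (nat_lit 98371) (nat_lit 28) (.e (nat_lit 442406) (nat_lit 20) .nil)))))) (.g (nat_lit 1) (.e (nat_lit 74641) (nat_lit 0) .nil) .nil))) 
(.lf (nat_lit 465762) (.g (nat_lit 3636) (.e (nat_lit 3239) (nat_lit 197) (.e (nat_lit 532535) (nat_lit 9) (.e (nat_lit 336099) (nat_lit 9) (.e (nat_lit 336013) (nat_lit 2) (.e (nat_lit 90165) (nat_lit 12) .nil))))) (.g (nat_lit 0) (.e (nat_lit 75392) (nat_lit 0) .nil) .nil))))) (.nd (nat_lit 8) (.nd (nat_lit 9) 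
(.lf (nat_lit 465122) (.g (nat_lit 2976) (.e (nat_lit 3238) (nat_lit 197) (.e (nat_lit 532504) (nat_lit 1) (.e (nat_lit 57852) (nat_lit 252) (.e (nat_lit 57409) (nat_lit 12) (.e (nat_lit 336454) (nat_lit 34) (.e (nat_lit 483385) (nat_lit 23) (.e (nat_lit 336306) (nat_lit 15) .nil))))))) (.g (nat_lit 1) (.e (nat_lit 74474) (nat_lit 0) .nil) .nil))) 
(.lf (nat_lit 465634) (.g (nat_lit 2560) (.e (nat_lit 3238) (nat_lit 197) (.e (nat_lit 532550) (nat_lit 12) (.e (nat_lit 360475) (nat_lit 8) (.e (nat_lit 557086) (nat_lit 11) (.e (nat_lit 24662) (nat_lit 14) .nil))))) (.g (nat_lit 0) (.e (nat_lit 75197) (nat_lit 0) .nil) .nil)))) (.nd (nat_lit 9) 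
(.lf (nat_lit 465378) (.g (nat_lit 3240) (.e (nat_lit 3238) (nat_lit 197) (.e (nat_lit 532523) (nat_lit 7) (.e (nat_lit 319534) (nat_lit 16) (.e (nat_lit 286735) (nat_lit 3) (.e (nat_lit 98370) (nat_lit 28) (.e (nat_lit 442412) (nat_lit 20) .nil)))))) (.g (nat_lit 1) (.e (nat_lit 74774) (nat_lit 0) .nil) .nil))) 
(.lf (nat_lit 465890) (.g (nat_lit 2458) (.e (nat_lit 3242) (nat_lit 197) (.e (nat_lit 532499) (nat_lit 1) (.e (nat_lit 57927) (nat_lit 282) (.e (nat_lit 163868) (nat_lit 2) (.e (nat_lit 196668) (nat_lit 14) (.e (nat_lit 73747) (nat_lit 3) (.e (nat_lit 516129) (nat_lit 3) (.e (nat_lit 221196) (nat_lit 20) .nil)))))))) (.g (nat_lit 1) (.e (nat_lit 75596) (nat_lit 0) .nil) .nil)))))))) 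
(.nd (nat_lit 5) (.nd (nat_lit 6) (.nd (nat_lit 7) (.nd (nat_lit 8) (.nd (nat_lit 9) 
(.lf (nat_lit 464914) (.g (nat_lit 4242) (.e (nat_lit 3235) (nat_lit 197) (.e (nat_lit 532550) (nat_lit 12) (.e (nat_lit 360474) (nat_lit 8) (.e (nat_lit 557094) (nat_lit 12) .nil)))) (.g (nat_lit 0) (.e (nat_lit 74111) (nat_lit 0) .nil) .nil))) 
(.lf (nat_lit 465426) (.g (nat_lit 4433) (.e (nat_lit 3238) (nat_lit 197) (.e (nat_lit 532535) (nat_lit 9) (.e (nat_lit 336099) (nat_lit 9) (.e (nat_lit 336013) (nat_lit 2) (.e (nat_lit 90141) (nat_lit 9) (.e (nat_lit 2829) (nat_lit 182) (.e (nat_lit 409648) (nat_lit 18) (.e (nat_lit 303104) (nat_lit 0) .nil)))))))) (.g (nat_lit 1) (.e (nat_lit 74865) (nat_lit 0) .nil) .nil)))) (.nd (nat_lit 9) 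
(.lf (nat_lit 465170) (.g (nat_lit 3591) (.e (nat_lit 3238) (nat_lit 197) (.e (nat_lit 532523) (nat_lit 7) (.e (nat_lit 319528) (nat_lit 16) (.e (nat_lit 286733) (nat_lit 2) (.e (nat_lit 90178) (nat_lit 15) (.e (nat_lit 188440) (nat_lit 20) .nil)))))) (.g (nat_lit 1) (.e (nat_lit 74561) (nat_lit 0) .nil) .nil))) 
(.lf (nat_lit 465682) (.g (nat_lit 2302) (.e (nat_lit 3238) (nat_lit 197) (.e (nat_lit 532550) (nat_lit 12) (.e (nat_lit 360475) (nat_lit 8) (.e (nat_lit 557091) (nat_lit 12) (.e (nat_lit 163843) (nat_lit 0) (.e (nat_lit 6254) (nat_lit 337) (.e (nat_lit 2630) (nat_lit 164) (.e (nat_lit 172046) (nat_lit 0) .nil)))))))) (.g (nat_lit 1) (.e (nat_lit 75245) (nat_lit 0) .nil) .nil))))) 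
(.nd (nat_lit 8) (.nd (nat_lit 9) 
(.lf (nat_lit 465042) (.g (nat_lit 2324) (.e (nat_lit 3238) (nat_lit 197) (.e (nat_lit 532499) (nat_lit 1) (.e (nat_lit 57927) (nat_lit 282) (.e (nat_lit 163868) (nat_lit 2) (.e (nat_lit 196670) (nat_lit 14) (.e (nat_lit 73746) (nat_lit 3) (.e (nat_lit 516129) (nat_lit 3) (.e (nat_lit 229120) (nat_lit 20) .nil)))))))) (.g (nat_lit 1) (.e (nat_lit 74383) (nat_lit 0) .nil) .nil))) 
(.lf (nat_lit 465554) (.g (nat_lit 2390) (.e (nat_lit 3238) (nat_lit 197) (.e (nat_lit 532549) (nat_lit 12) (.e (nat_lit 360474) (nat_lit 8) (.e (nat_lit 557093) (nat_lit 12) (.e (nat_lit 164022) (nat_lit 46) (.e (nat_lit 704738) (nat_lit 11) (.e (nat_lit 16397) (nat_lit 0) .nil))))))) (.g (nat_lit 1) (.e (nat_lit 75109) (nat_lit 0) .nil) .nil)))) (.nd (nat_lit 9) 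
(.lf (nat_lit 465298) (.g (nat_lit 3706) (.e (nat_lit 3238) (nat_lit 197) (.e (nat_lit 532523) (nat_lit 7) (.e (nat_lit 319533) (nat_lit 16) (.e (nat_lit 286734) (nat_lit 3) (.e (nat_lit 98371) (nat_lit 28) (.e (nat_lit 442404) (nat_lit 20) .nil)))))) (.g (nat_lit 1) (.e (nat_lit 74691) (nat_lit 0) .nil) .nil))) 
(.lf (nat_lit 465810) (.g (nat_lit 4726) (.e (nat_lit 3237) (nat_lit 197) (.e (nat_lit 532550) (nat_lit 12) (.e (nat_lit 360475) (nat_lit 8) (.e (nat_lit 557089) (nat_lit 12) .nil)))) (.g (nat_lit 0) (.e (nat_lit 75455) (nat_lit 0) .nil) .nil)))))) (.nd (nat_lit 7) (.nd (nat_lit 8) (.nd (nat_lit 9) 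
(.lf (nat_lit 464978) (.g (nat_lit 3226) (.e (nat_lit 3233) (nat_lit 197) (.e (nat_lit 532560) (nat_lit 14) (.e (nat_lit 376865) (nat_lit 22) (.e (nat_lit 90185) (nat_lit 17) (.e (nat_lit 237585) (nat_lit 1) (.e (nat_lit 164403) (nat_lit 256) (.e (nat_lit 57579) (nat_lit 61) .nil))))))) (.g (nat_lit 1) (.e (nat_lit 74271) (nat_lit 0) .nil) .nil))) 
(.lf (nat_lit 465490) (.g (nat_lit 481) (.e (nat_lit 3238) (nat_lit 197) (.e (nat_lit 532547) (nat_lit 11) (.e (nat_lit 352315) (nat_lit 23) .nil))) (.g (nat_lit 0) (.e (nat_lit 75042) (nat_lit 0) .nil) .nil)))) (.nd (nat_lit 9) 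
(.lf (nat_lit 465234) (.g (nat_lit 4498) (.e (nat_lit 3238) (nat_lit 197) (.e (nat_lit 532523) (nat_lit 7) (.e (nat_lit 319531) (nat_lit 16) (.e (nat_lit 286733) (nat_lit 2) (.e (nat_lit 90177) (nat_lit 15) (.e (nat_lit 188437) (nat_lit 20) .nil)))))) (.g (nat_lit 1) (.e (nat_lit 74625) (nat_lit 0) .nil) .nil))) 
(.lf (nat_lit 465746) (.g (nat_lit 5078) (.e (nat_lit 3238) (nat_lit 197) (.e (nat_lit 532569) (nat_lit 16) (.e (nat_lit 401451) (nat_lit 12) (.e (nat_lit 475185) (nat_lit 29) (.e (nat_lit 557107) (nat_lit 15) (.e (nat_lit 188437) (nat_lit 20) .nil)))))) (.g (nat_lit 1) (.e (nat_lit 75315) (nat_lit 0) .nil) .nil))))) (.nd (nat_lit 8) (.nd (nat_lit 9) 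
(.lf (nat_lit 465106) (.g (nat_lit 2469) (.e (nat_lit 3238) (nat_lit 197) (.e (nat_lit 532503) (nat_lit 1) (.e (nat_lit 57847) (nat_lit 252) (.e (nat_lit 57445) (nat_lit 19) (.e (nat_lit 393229) (nat_lit 9) (.e (nat_lit 336085) (nat_lit 9) (.e (nat_lit 336306) (nat_lit 15) .nil))))))) (.g (nat_lit 1) (.e (nat_lit 74458) (nat_lit 0) .nil) .nil))) 
(.lf (nat_lit 465618) (.g (nat_lit 3031) (.e (nat_lit 3238) (nat_lit 197) (.e (nat_lit 532550) (nat_lit 12) (.e (nat_lit 360474) (nat_lit 8) (.e (nat_lit 557094) (nat_lit 12) (.e (nat_lit 164022) (nat_lit 46) (.e (nat_lit 704737) (nat_lit 11) (.e (nat_lit 16397) (nat_lit 0) .nil))))))) (.g (nat_lit 1) (.e (nat_lit 75180) (nat_lit 0) .nil) .nil)))) (.nd (nat_lit 9) 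
(.lf (nat_lit 465362) (.g (nat_lit 4027) (.e (nat_lit 3238) (nat_lit 197) (.e (nat_lit 532523) (nat_lit 7) (.e (nat_lit 319534) (nat_lit 16) (.e (nat_lit 286734) (nat_lit 3) (.e (nat_lit 98381) (nat_lit 31) (.e (nat_lit 466955) (nat_lit 20) .nil)))))) (.g (nat_lit 1) (.e (nat_lit 74758) (nat_lit 0) .nil) .nil))) 
(.lf (nat_lit 465874) (.g (nat_lit 3052) (.e (nat_lit 3243) (nat_lit 197) (.e (nat_lit 532535) (nat_lit 9) (.e (nat_lit 336099) (nat_lit 9) (.e (nat_lit 336028) (nat_lit 3) .nil)))) (.g (nat_lit 0) (.e (nat_lit 75574) (nat_lit 0) .nil) .nil))))))) (.nd (nat_lit 6) (.nd (nat_lit 7) (.nd (nat_lit 8) (.nd (nat_lit 9) 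
(.lf (nat_lit 464946) (.g (nat_lit 5134) (.e (nat_lit 3233) (nat_lit 197) (.e (nat_lit 532550) (nat_lit 12) (.e (nat_lit 360474) (nat_lit 8) (.e (nat_lit 557089) (nat_lit 12) .nil)))) (.g (nat_lit 0) (.e (nat_lit 74223) (nat_lit 0) .nil) .nil))) 
(.lf (nat_lit 465458) (.g (nat_lit 1727) (.e (nat_lit 3238) (nat_lit 197) (.e (nat_lit 532535) (nat_lit 9) (.e (nat_lit 336173) (nat_lit 10) (.e (nat_lit 344119) (nat_lit 21) .nil)))) (.g (nat_lit 0) (.e (nat_lit 74899) (nat_lit 0) .nil) .nil)))) (.nd (nat_lit 9) 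
(.lf (nat_lit 465202) (.g (nat_lit 4480) (.e (nat_lit 3238) (nat_lit 197) (.e (nat_lit 532523) (nat_lit 7) (.e (nat_lit 319530) (nat_lit 16) (.e (nat_lit 286733) (nat_lit 2) (.e (nat_lit 90134) (nat_lit 9) (.e (nat_lit 3002) (nat_lit 186) (.e (nat_lit 442406) (nat_lit 20) .nil))))))) (.g (nat_lit 1) (.e (nat_lit 74593) (nat_lit 0) .nil) .nil))) 
(.lf (nat_lit 465714) (.g (nat_lit 3697) (.e (nat_lit 3238) (nat_lit 197) (.e (nat_lit 532560) (nat_lit 14) (.e (nat_lit 376868) (nat_lit 23) (.e (nat_lit 98350) (nat_lit 24) (.e (nat_lit 409649) (nat_lit 18) (.e (nat_lit 303111) (nat_lit 0) .nil)))))) (.g (nat_lit 1) (.e (nat_lit 75280) (nat_lit 0) .nil) .nil))))) (.nd (nat_lit 8) (.nd (nat_lit 9) 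
(.lf (nat_lit 465074) (.g (nat_lit 4539) (.e (nat_lit 3238) (nat_lit 197) (.e (nat_lit 532500) (nat_lit 1) (.e (nat_lit 57851) (nat_lit 252) (.e (nat_lit 57406) (nat_lit 12) (.e (nat_lit 336456) (nat_lit 34) (.e (nat_lit 483383) (nat_lit 23) (.e (nat_lit 336306) (nat_lit 15) .nil))))))) (.g (nat_lit 1) (.e (nat_lit 74419) (nat_lit 0) .nil) .nil))) 
(.lf (nat_lit 465586) (.g (nat_lit 4338) (.e (nat_lit 3238) (nat_lit 197) (.e (nat_lit 532550) (nat_lit 12) (.e (nat_lit 360467) (nat_lit 3) (.e (nat_lit 516139) (nat_lit 7) (.e (nat_lit 409648) (nat_lit 18) (.e (nat_lit 303108) (nat_lit 0) .nil)))))) (.g (nat_lit 1) (.e (nat_lit 75147) (nat_lit 0) .nil) .nil)))) (.nd (nat_lit 9) 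
(.lf (nat_lit 465330) (.g (nat_lit 4291) (.e (nat_lit 3238) (nat_lit 197) (.e (nat_lit 532523) (nat_lit 7) (.e (nat_lit 319534) (nat_lit 16) (.e (nat_lit 286732) (nat_lit 2) (.e (nat_lit 90176) (nat_lit 15) (.e (nat_lit 188439) (nat_lit 20) .nil)))))) (.g (nat_lit 1) (.e (nat_lit 74725) (nat_lit 0) .nil) .nil))) 
(.lf (nat_lit 465842) (.g (nat_lit 1514) (.e (nat_lit 3241) (nat_lit 197) (.e (nat_lit 532500) (nat_lit 1) (.e (nat_lit 57851) (nat_lit 252) (.e (nat_lit 57406) (nat_lit 12) .nil)))) (.g (nat_lit 0) (.e (nat_lit 75506) (nat_lit 0) .nil) .nil)))))) (.nd (nat_lit 7) (.nd (nat_lit 8) (.nd (nat_lit 9) 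
(.lf (nat_lit 465010) (.g (nat_lit 2261) (.e (nat_lit 3236) (nat_lit 197) (.e (nat_lit 532504) (nat_lit 1) (.e (nat_lit 57851) (nat_lit 252) (.e (nat_lit 57408) (nat_lit 12) .nil)))) (.g (nat_lit 0) (.e (nat_lit 74330) (nat_lit 0) .nil) .nil))) 
(.lf (nat_lit 465522) (.g (nat_lit 4212) (.e (nat_lit 3238) (nat_lit 197) (.e (nat_lit 532549) (nat_lit 12) (.e (nat_lit 360473) (nat_lit 8) (.e (nat_lit 557087) (nat_lit 11) (.e (nat_lit 24665) (nat_lit 14) (.e (nat_lit 401408) (nat_lit 0) .nil)))))) (.g (nat_lit 1) (.e (nat_lit 75076) (nat_lit 0) .nil) .nil)))) (.nd (nat_lit 9) 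
(.lf (nat_lit 465266) (.g (nat_lit 2499) (.e (nat_lit 3238) (nat_lit 197) (.e (nat_lit 532523) (nat_lit 7) (.e (nat_lit 319532) (nat_lit 16) (.e (nat_lit 286734) (nat_lit 3) (.e (nat_lit 98380) (nat_lit 31) (.e (nat_lit 466955) (nat_lit 20) .nil)))))) (.g (nat_lit 1) (.e (nat_lit 74657) (nat_lit 0) .nil) .nil))) 
(.lf (nat_lit 465778) (.g (nat_lit 2269) (.e (nat_lit 3237) (nat_lit 197) (.e (nat_lit 532499) (nat_lit 1) (.e (nat_lit 57927) (nat_lit 282) (.e (nat_lit 163868) (nat_lit 2) (.e (nat_lit 196668) (nat_lit 14) (.e (nat_lit 73747) (nat_lit 3) (.e (nat_lit 516129) (nat_lit 3) (.e (nat_lit 221197) (nat_lit 20) .nil)))))))) (.g (nat_lit 1) (.e (nat_lit 75412) (nat_lit 0) .nil) .nil))))) 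
(.nd (nat_lit 8) (.nd (nat_lit 9) 
(.lf (nat_lit 465138) (.g (nat_lit 1651) (.e (nat_lit 3238) (nat_lit 197) (.e (nat_lit 532511) (nat_lit 2) (.e (nat_lit 106536) (nat_lit 11) (.e (nat_lit 16412) (nat_lit 2) (.e (nat_lit 196672) (nat_lit 15) (.e (nat_lit 89856) (nat_lit 0) .nil)))))) (.g (nat_lit 1) (.e (nat_lit 74498) (nat_lit 0) .nil) .nil))) 
(.lf (nat_lit 465650) (.g (nat_lit 4160) (.e (nat_lit 3238) (nat_lit 197) (.e (nat_lit 532550) (nat_lit 12) (.e (nat_lit 360475) (nat_lit 8) (.e (nat_lit 557089) (nat_lit 12) (.e (nat_lit 163843) (nat_lit 0) (.e (nat_lit 6420) (nat_lit 341) (.e (nat_lit 163902) (nat_lit 12) (.e (nat_lit 426091) (nat_lit 0) .nil)))))))) (.g (nat_lit 1) (.e (nat_lit 75213) (nat_lit 0) .nil) .nil)))) 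
(.nd (nat_lit 9) 
(.lf (nat_lit 465394) (.g (nat_lit 2264) (.e (nat_lit 3238) (nat_lit 197) (.e (nat_lit 532530) (nat_lit 9) (.e (nat_lit 336326) (nat_lit 18) (.e (nat_lit 204880) (nat_lit 32) (.e (nat_lit 385066) (nat_lit 26) (.e (nat_lit 532532) (nat_lit 9) (.e (nat_lit 336306) (nat_lit 15) .nil))))))) (.g (nat_lit 1) (.e (nat_lit 74821) (nat_lit 0) .nil) .nil))) 
(.lf (nat_lit 465906) (.g (nat_lit 3130) (.e (nat_lit 3242) (nat_lit 197) (.e (nat_lit 532535) (nat_lit 9) (.e (nat_lit 336099) (nat_lit 9) (.e (nat_lit 336013) (nat_lit 2) (.e (nat_lit 90165) (nat_lit 12) .nil))))) (.g (nat_lit 0) (.e (nat_lit 75621) (nat_lit 0) .nil) .nil))))))))) (.nd (nat_lit 4) (.nd (nat_lit 5) (.nd (nat_lit 6) (.nd (nat_lit 7) (.nd (nat_lit 8) (.nd (nat_lit 9) 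
(.lf (nat_lit 464906) (.g (nat_lit 2512) (.e (nat_lit 3234) (nat_lit 197) (.e (nat_lit 532563) (nat_lit 15) (.e (nat_lit 385066) (nat_lit 26) (.e (nat_lit 532534) (nat_lit 9) (.e (nat_lit 336326) (nat_lit 18) (.e (nat_lit 204854) (nat_lit 26) (.e (nat_lit 336297) (nat_lit 15) .nil))))))) (.g (nat_lit 1) (.e (nat_lit 74103) (nat_lit 0) .nil) .nil))) 
(.lf (nat_lit 465418) (.g (nat_lit 5316) (.e (nat_lit 3238) (nat_lit 197) (.e (nat_lit 532535) (nat_lit 9) (.e (nat_lit 336099) (nat_lit 9) (.e (nat_lit 336013) (nat_lit 2) (.e (nat_lit 90131) (nat_lit 9) (.e (nat_lit 2830) (nat_lit 182) (.e (nat_lit 409648) (nat_lit 18) (.e (nat_lit 303104) (nat_lit 0) .nil)))))))) (.g (nat_lit 1) (.e (nat_lit 74857) (nat_lit 0) .nil) .nil)))) (.nd (nat_lit 9) 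
(.lf (nat_lit 465162) (.g (nat_lit 2848) (.e (nat_lit 3238) (nat_lit 197) (.e (nat_lit 532523) (nat_lit 7) (.e (nat_lit 319528) (nat_lit 16) (.e (nat_lit 286733) (nat_lit 2) (.e (nat_lit 90134) (nat_lit 9) (.e (nat_lit 2992) (nat_lit 186) (.e (nat_lit 442406) (nat_lit 20) .nil))))))) (.g (nat_lit 1) (.e (nat_lit 74553) (nat_lit 0) .nil) .nil))) 
(.lf (nat_lit 465674) (.g (nat_lit 3562) (.e (nat_lit 3238) (nat_lit 197) (.e (nat_lit 532550) (nat_lit 12) (.e (nat_lit 360475) (nat_lit 8) (.e (nat_lit 557089) (nat_lit 12) (.e (nat_lit 164017) (nat_lit 44) (.e (nat_lit 688138) (nat_lit 5) (.e (nat_lit 2887) (nat_lit 184) (.e (nat_lit 426039) (nat_lit 0) .nil)))))))) (.g (nat_lit 1) (.e (nat_lit 75237) (nat_lit 0) .nil) .nil))))) 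
(.nd (nat_lit 8) (.nd (nat_lit 9) 
(.lf (nat_lit 465034) (.g (nat_lit 2285) (.e (nat_lit 3238) (nat_lit 197) (.e (nat_lit 532499) (nat_lit 1) (.e (nat_lit 57927) (nat_lit 282) (.e (nat_lit 163866) (nat_lit 2) (.e (nat_lit 196670) (nat_lit 14) (.e (nat_lit 73746) (nat_lit 3) (.e (nat_lit 516129) (nat_lit 3) (.e (nat_lit 221195) (nat_lit 20) .nil)))))))) (.g (nat_lit 1) (.e (nat_lit 74374) (nat_lit 0) .nil) .nil))) 
(.lf (nat_lit 465546) (.g (nat_lit 3180) (.e (nat_lit 3238) (nat_lit 197) (.e (nat_lit 532549) (nat_lit 12) (.e (nat_lit 360473) (nat_lit 8) (.e (nat_lit 557094) (nat_lit 12) (.e (nat_lit 164022) (nat_lit 46) (.e (nat_lit 704738) (nat_lit 11) (.e (nat_lit 16397) (nat_lit 0) .nil))))))) (.g (nat_lit 1) (.e (nat_lit 75101) (nat_lit 0) .nil) .nil)))) (.nd (nat_lit 9) 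
(.lf (nat_lit 465290) (.g (nat_lit 4127) (.e (nat_lit 3238) (nat_lit 197) (.e (nat_lit 532523) (nat_lit 7) (.e (nat_lit 319533) (nat_lit 16) (.e (nat_lit 286733) (nat_lit 2) (.e (nat_lit 90177) (nat_lit 15) (.e (nat_lit 188437) (nat_lit 20) .nil)))))) (.g (nat_lit 1) (.e (nat_lit 74683) (nat_lit 0) .nil) .nil))) 
(.lf (nat_lit 465802) (.g (nat_lit 4697) (.e (nat_lit 3237) (nat_lit 197) (.e (nat_lit 532550) (nat_lit 12) (.e (nat_lit 360474) (nat_lit 8) (.e (nat_lit 557094) (nat_lit 12) (.e (nat_lit 164022) (nat_lit 46) (.e (nat_lit 704736) (nat_lit 11) (.e (nat_lit 16385) (nat_lit 0) .nil))))))) (.g (nat_lit 1) (.e (nat_lit 75446) (nat_lit 0) .nil) .nil)))))) 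
(.nd (nat_lit 7) (.nd (nat_lit 8) (.nd (nat_lit 9) 
(.lf (nat_lit 464970) (.g (nat_lit 2572) (.e (nat_lit 3233) (nat_lit 197) (.e (nat_lit 532559) (nat_lit 14) (.e (nat_lit 376865) (nat_lit 22) (.e (nat_lit 90185) (nat_lit 17) (.e (nat_lit 237585) (nat_lit 1) (.e (nat_lit 164402) (nat_lit 256) (.e (nat_lit 57579) (nat_lit 61) .nil))))))) (.g (nat_lit 1) (.e (nat_lit 74260) (nat_lit 0) .nil) .nil))) 
(.lf (nat_lit 465482) (.g (nat_lit 2080) (.e (nat_lit 3238) (nat_lit 197) (.e (nat_lit 532543) (nat_lit 10) (.e (nat_lit 344133) (nat_lit 26) (.e (nat_lit 557105) (nat_lit 14) (.e (nat_lit 188160) (nat_lit 3) (.e (nat_lit 516106) (nat_lit 0) (.e (nat_lit 7936) (nat_lit 219) (.e (nat_lit 712719) (nat_lit 15) .nil)))))))) (.g (nat_lit 1) (.e (nat_lit 75025) (nat_lit 0) .nil) .nil)))) 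
(.nd (nat_lit 9) 
(.lf (nat_lit 465226) (.g (nat_lit 2780) (.e (nat_lit 3238) (nat_lit 197) (.e (nat_lit 532523) (nat_lit 7) (.e (nat_lit 319531) (nat_lit 16) (.e (nat_lit 286733) (nat_lit 2) (.e (nat_lit 90134) (nat_lit 9) .nil))))) (.g (nat_lit 0) (.e (nat_lit 74617) (nat_lit 0) .nil) .nil))) 
(.lf (nat_lit 465738) (.g (nat_lit 3537) (.e (nat_lit 3238) (nat_lit 197) (.e (nat_lit 532569) (nat_lit 16) (.e (nat_lit 401448) (nat_lit 10) (.e (nat_lit 434232) (nat_lit 23) (.e (nat_lit 532566) (nat_lit 15) (.e (nat_lit 385104) (nat_lit 50) (.e (nat_lit 786436) (nat_lit 0) .nil))))))) (.g (nat_lit 1) (.e (nat_lit 75305) (nat_lit 0) .nil) .nil))))) (.nd (nat_lit 8) (.nd (nat_lit 9) 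
(.lf (nat_lit 465098) (.g (nat_lit 2864) (.e (nat_lit 3238) (nat_lit 197) (.e (nat_lit 532501) (nat_lit 1) (.e (nat_lit 57854) (nat_lit 252) (.e (nat_lit 57447) (nat_lit 19) (.e (nat_lit 393229) (nat_lit 9) (.e (nat_lit 336086) (nat_lit 9) (.e (nat_lit 336306) (nat_lit 15) .nil))))))) (.g (nat_lit 1) (.e (nat_lit 74446) (nat_lit 0) .nil) .nil))) 
(.lf (nat_lit 465610) (.g (nat_lit 2543) (.e (nat_lit 3238) (nat_lit 197) (.e (nat_lit 532550) (nat_lit 12) (.e (nat_lit 360474) (nat_lit 8) (.e (nat_lit 557093) (nat_lit 12) (.e (nat_lit 164023) (nat_lit 46) (.e (nat_lit 704736) (nat_lit 11) (.e (nat_lit 16396) (nat_lit 0) .nil))))))) (.g (nat_lit 1) (.e (nat_lit 75172) (nat_lit 0) .nil) .nil)))) (.nd (nat_lit 9) 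
(.lf (nat_lit 465354) (.g (nat_lit 3079) (.e (nat_lit 3238) (nat_lit 197) (.e (nat_lit 532523) (nat_lit 7) (.e (nat_lit 319534) (nat_lit 16) (.e (nat_lit 286734) (nat_lit 3) (.e (nat_lit 98369) (nat_lit 28) (.e (nat_lit 442403) (nat_lit 20) .nil)))))) (.g (nat_lit 1) (.e (nat_lit 74750) (nat_lit 0) .nil) .nil))) 
(.lf (nat_lit 465866) (.g (nat_lit 6992) (.e (nat_lit 3241) (nat_lit 197) (.e (nat_lit 532550) (nat_lit 12) (.e (nat_lit 360475) (nat_lit 8) (.e (nat_lit 557090) (nat_lit 12) .nil)))) (.g (nat_lit 0) (.e (nat_lit 75562) (nat_lit 0) .nil) .nil))))))) (.nd (nat_lit 6) (.nd (nat_lit 7) (.nd (nat_lit 8) (.nd (nat_lit 9) 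
(.lf (nat_lit 464938) (.g (nat_lit 2495) (.e (nat_lit 3233) (nat_lit 197) (.e (nat_lit 532523) (nat_lit 7) (.e (nat_lit 319534) (nat_lit 16) (.e (nat_lit 286734) (nat_lit 3) (.e (nat_lit 98381) (nat_lit 31) .nil))))) (.g (nat_lit 0) (.e (nat_lit 74193) (nat_lit 0) .nil) .nil))) 
(.lf (nat_lit 465450) (.g (nat_lit 3463) (.e (nat_lit 3238) (nat_lit 197) (.e (nat_lit 532535) (nat_lit 9) (.e (nat_lit 336163) (nat_lit 10) (.e (nat_lit 344133) (nat_lit 26) (.e (nat_lit 557087) (nat_lit 11) (.e (nat_lit 24665) (nat_lit 14) (.e (nat_lit 401414) (nat_lit 0) .nil))))))) (.g (nat_lit 1) (.e (nat_lit 74890) (nat_lit 0) .nil) .nil)))) (.nd (nat_lit 9) 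
(.lf (nat_lit 465194) (.g (nat_lit 2879) (.e (nat_lit 3238) (nat_lit 197) (.e (nat_lit 532523) (nat_lit 7) (.e (nat_lit 319529) (nat_lit 16) (.e (nat_lit 286735) (nat_lit 3) (.e (nat_lit 98371) (nat_lit 28) (.e (nat_lit 442407) (nat_lit 20) .nil)))))) (.g (nat_lit 1) (.e (nat_lit 74585) (nat_lit 0) .nil) .nil))) 
(.lf (nat_lit 465706) (.g (nat_lit 3832) (.e (nat_lit 3238) (nat_lit 197) (.e (nat_lit 532558) (nat_lit 14) (.e (nat_lit 376868) (nat_lit 23) (.e (nat_lit 98350) (nat_lit 24) (.e (nat_lit 409649) (nat_lit 18) (.e (nat_lit 303111) (nat_lit 0) .nil)))))) (.g (nat_lit 1) (.e (nat_lit 75272) (nat_lit 0) .nil) .nil))))) (.nd (nat_lit 8) (.nd (nat_lit 9) 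
(.lf (nat_lit 465066) (.g (nat_lit 2405) (.e (nat_lit 3238) (nat_lit 197) (.e (nat_lit 532500) (nat_lit 1) (.e (nat_lit 57851) (nat_lit 252) (.e (nat_lit 57406) (nat_lit 12) (.e (nat_lit 336456) (nat_lit 34) (.e (nat_lit 483379) (nat_lit 23) (.e (nat_lit 336259) (nat_lit 15) .nil))))))) (.g (nat_lit 1) (.e (nat_lit 74411) (nat_lit 0) .nil) .nil))) 
(.lf (nat_lit 465578) (.g (nat_lit 2088) (.e (nat_lit 3238) (nat_lit 197) (.e (nat_lit 532550) (nat_lit 12) (.e (nat_lit 360465) (nat_lit 3) (.e (nat_lit 516139) (nat_lit 7) (.e (nat_lit 409648) (nat_lit 18) (.e (nat_lit 303108) (nat_lit 0) .nil)))))) (.g (nat_lit 1) (.e (nat_lit 75139) (nat_lit 0) .nil) .nil)))) (.nd (nat_lit 9) 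
(.lf (nat_lit 465322) (.g (nat_lit 3058) (.e (nat_lit 3238) (nat_lit 197) (.e (nat_lit 532523) (nat_lit 7) (.e (nat_lit 319534) (nat_lit 16) (.e (nat_lit 286727) (nat_lit 0) (.e (nat_lit 1799) (nat_lit 119) (.e (nat_lit 516164) (nat_lit 11) (.e (nat_lit 442406) (nat_lit 20) .nil))))))) (.g (nat_lit 1) (.e (nat_lit 74717) (nat_lit 0) .nil) .nil))) 
(.lf (nat_lit 465834) (.g (nat_lit 1034) (.e (nat_lit 3240) (nat_lit 197) (.e (nat_lit 532550) (nat_lit 12) (.e (nat_lit 360475) (nat_lit 8) .nil))) (.g (nat_lit 0) (.e (nat_lit 75494) (nat_lit 0) .nil) .nil)))))) (.nd (nat_lit 7) (.nd (nat_lit 8) (.nd (nat_lit 9) 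
(.lf (nat_lit 465002) (.g (nat_lit 2547) (.e (nat_lit 3236) (nat_lit 197) (.e (nat_lit 532499) (nat_lit 1) (.e (nat_lit 57927) (nat_lit 282) (.e (nat_lit 163871) (nat_lit 2) (.e (nat_lit 196670) (nat_lit 14) (.e (nat_lit 73746) (nat_lit 3) (.e (nat_lit 516129) (nat_lit 3) (.e (nat_lit 221196) (nat_lit 20) .nil)))))))) (.g (nat_lit 1) (.e (nat_lit 74321) (nat_lit 0) .nil) .nil))) 
(.lf (nat_lit 465514) (.g (nat_lit 4568) (.e (nat_lit 3238) (nat_lit 197) (.e (nat_lit 532549) (nat_lit 12) (.e (nat_lit 360467) (nat_lit 3) (.e (nat_lit 516139) (nat_lit 7) (.e (nat_lit 409649) (nat_lit 18) (.e (nat_lit 303111) (nat_lit 0) .nil)))))) (.g (nat_lit 1) (.e (nat_lit 75068) (nat_lit 0) .nil) .nil)))) (.nd (nat_lit 9) 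
(.lf (nat_lit 465258) (.g (nat_lit 2659) (.e (nat_lit 3238) (nat_lit 197) (.e (nat_lit 532523) (nat_lit 7) (.e (nat_lit 319532) (nat_lit 16) (.e (nat_lit 286733) (nat_lit 2) (.e (nat_lit 90176) (nat_lit 15) (.e (nat_lit 188424) (nat_lit 20) .nil)))))) (.g (nat_lit 1) (.e (nat_lit 74649) (nat_lit 0) .nil) .nil))) 
(.lf (nat_lit 465770) (.g (nat_lit 4629) (.e (nat_lit 3239) (nat_lit 197) (.e (nat_lit 532550) (nat_lit 12) (.e (nat_lit 360475) (nat_lit 8) (.e (nat_lit 557085) (nat_lit 11) .nil)))) (.g (nat_lit 0) (.e (nat_lit 75404) (nat_lit 0) .nil) .nil))))) (.nd (nat_lit 8) (.nd (nat_lit 9) 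
(.lf (nat_lit 465130) (.g (nat_lit 2184) (.e (nat_lit 3238) (nat_lit 197) (.e (nat_lit 532506) (nat_lit 2) (.e (nat_lit 106536) (nat_lit 11) (.e (nat_lit 16412) (nat_lit 2) (.e (nat_lit 196674) (nat_lit 15) (.e (nat_lit 89856) (nat_lit 0) .nil)))))) (.g (nat_lit 1) (.e (nat_lit 74486) (nat_lit 0) .nil) .nil))) 
(.lf (nat_lit 465642) (.g (nat_lit 4528) (.e (nat_lit 3238) (nat_lit 197) (.e (nat_lit 532550) (nat_lit 12) (.e (nat_lit 360475) (nat_lit 8) (.e (nat_lit 557087) (nat_lit 11) (.e (nat_lit 24664) (nat_lit 14) (.e (nat_lit 401414) (nat_lit 0) .nil)))))) (.g (nat_lit 1) (.e (nat_lit 75205) (nat_lit 0) .nil) .nil)))) (.nd (nat_lit 9) 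
(.lf (nat_lit 465386) (.g (nat_lit 620) (.e (nat_lit 3238) (nat_lit 197) (.e (nat_lit 532523) (nat_lit 7) (.e (nat_lit 327424) (nat_lit 16) .nil))) (.g (nat_lit 0) (.e (nat_lit 74783) (nat_lit 0) .nil) .nil))) 
(.lf (nat_lit 465898) (.g (nat_lit 2515) (.e (nat_lit 3242) (nat_lit 197) (.e (nat_lit 532499) (nat_lit 1) (.e (nat_lit 57927) (nat_lit 282) (.e (nat_lit 163869) (nat_lit 2) (.e (nat_lit 196668) (nat_lit 14) (.e (nat_lit 73747) (nat_lit 3) (.e (nat_lit 516131) (nat_lit 3) (.e (nat_lit 221197) (nat_lit 20) .nil)))))))) (.g (nat_lit 1) (.e (nat_lit 75604) (nat_lit 0) .nil) .nil)))))))) 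
(.nd (nat_lit 5) (.nd (nat_lit 6) (.nd (nat_lit 7) (.nd (nat_lit 8) (.nd (nat_lit 9) 
(.lf (nat_lit 464922) (.g (nat_lit 2060) (.e (nat_lit 3233) (nat_lit 197) (.e (nat_lit 532499) (nat_lit 1) (.e (nat_lit 57927) (nat_lit 282) (.e (nat_lit 163871) (nat_lit 2) (.e (nat_lit 196670) (nat_lit 14) (.e (nat_lit 73746) (nat_lit 3) (.e (nat_lit 516129) (nat_lit 3) (.e (nat_lit 221202) (nat_lit 20) .nil)))))))) (.g (nat_lit 1) (.e (nat_lit 74123) (nat_lit 0) .nil) .nil))) 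
(.lf (nat_lit 465434) (.g (nat_lit 4939) (.e (nat_lit 3238) (nat_lit 197) (.e (nat_lit 532535) (nat_lit 9) (.e (nat_lit 336099) (nat_lit 9) (.e (nat_lit 336028) (nat_lit 3) (.e (nat_lit 98349) (nat_lit 24) (.e (nat_lit 409648) (nat_lit 18) (.e (nat_lit 303109) (nat_lit 0) .nil))))))) (.g (nat_lit 1) (.e (nat_lit 74873) (nat_lit 0) .nil) .nil)))) (.nd (nat_lit 9) 
(.lf (nat_lit 465178) (.g (nat_lit 2474) (.e (nat_lit 3238) (nat_lit 197) (.e (nat_lit 532523) (nat_lit 7) (.e (nat_lit 319528) (nat_lit 16) (.e (nat_lit 286735) (nat_lit 3) (.e (nat_lit 98371) (nat_lit 28) (.e (nat_lit 442404) (nat_lit 20) .nil)))))) (.g (nat_lit 1) (.e (nat_lit 74569) (nat_lit 0) .nil) .nil))) 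
(.lf (nat_lit 465690) (.g (nat_lit 2988) (.e (nat_lit 3238) (nat_lit 197) (.e (nat_lit 532550) (nat_lit 12) (.e (nat_lit 360475) (nat_lit 8) (.e (nat_lit 557091) (nat_lit 12) (.e (nat_lit 163847) (nat_lit 0) (.e (nat_lit 6420) (nat_lit 341) (.e (nat_lit 163902) (nat_lit 12) (.e (nat_lit 426093) (nat_lit 0) .nil)))))))) (.g (nat_lit 1) (.e (nat_lit 75253) (nat_lit 0) .nil) .nil))))) 
(.nd (nat_lit 8) (.nd (nat_lit 9) 
(.lf (nat_lit 465050) (.g (nat_lit 3162) (.e (nat_lit 3238) (nat_lit 197) (.e (nat_lit 532499) (nat_lit 1) (.e (nat_lit 57927) (nat_lit 282) (.e (nat_lit 163869) (nat_lit 2) (.e (nat_lit 196670) (nat_lit 14) (.e (nat_lit 73746) (nat_lit 3) (.e (nat_lit 516131) (nat_lit 3) (.e (nat_lit 221195) (nat_lit 20) .nil)))))))) (.g (nat_lit 1) (.e (nat_lit 74391) (nat_lit 0) .nil) .nil))) 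
(.lf (nat_lit 465562) (.g (nat_lit 3141) (.e (nat_lit 3238) (nat_lit 197) (.e (nat_lit 532549) (nat_lit 12) (.e (nat_lit 360475) (nat_lit 8) (.e (nat_lit 557086) (nat_lit 11) (.e (nat_lit 24663) (nat_lit 14) .nil))))) (.g (nat_lit 0) (.e (nat_lit 75117) (nat_lit 0) .nil) .nil)))) (.nd (nat_lit 9) 
(.lf (nat_lit 465306) (.g (nat_lit 2542) (.e (nat_lit 3238) (nat_lit 197) (.e (nat_lit 532523) (nat_lit 7) (.e (nat_lit 319533) (nat_lit 16) (.e (nat_lit 286735) (nat_lit 3) (.e (nat_lit 98369) (nat_lit 28) (.e (nat_lit 442392) (nat_lit 20) .nil)))))) (.g (nat_lit 1) (.e (nat_lit 74699) (nat_lit 0) .nil) .nil))) 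
(.lf (nat_lit 465818) (.g (nat_lit 2196) (.e (nat_lit 3240) (nat_lit 197) (.e (nat_lit 532499) (nat_lit 1) (.e (nat_lit 57927) (nat_lit 282) (.e (nat_lit 163868) (nat_lit 2) (.e (nat_lit 196663) (nat_lit 13) (.e (nat_lit 65571) (nat_lit 3) (.e (nat_lit 98342) (nat_lit 20) (.e (nat_lit 221198) (nat_lit 20) .nil)))))))) (.g (nat_lit 1) (.e (nat_lit 75464) (nat_lit 0) .nil) .nil)))))) 
(.nd (nat_lit 7) (.nd (nat_lit 8) (.nd (nat_lit 9) 
(.lf (nat_lit 464986) (.g (nat_lit 2381) (.e (nat_lit 3233) (nat_lit 197) (.e (nat_lit 532563) (nat_lit 15) (.e (nat_lit 385066) (nat_lit 26) (.e (nat_lit 532530) (nat_lit 9) (.e (nat_lit 336326) (nat_lit 18) .nil))))) (.g (nat_lit 0) (.e (nat_lit 74279) (nat_lit 0) .nil) .nil))) 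
(.lf (nat_lit 465498) (.g (nat_lit 4230) (.e (nat_lit 3238) (nat_lit 197) (.e (nat_lit 532547) (nat_lit 11) (.e (nat_lit 352315) (nat_lit 23) (.e (nat_lit 98350) (nat_lit 24) (.e (nat_lit 409648) (nat_lit 18) (.e (nat_lit 303108) (nat_lit 0) .nil)))))) (.g (nat_lit 1) (.e (nat_lit 75050) (nat_lit 0) .nil) .nil)))) (.nd (nat_lit 9) 
(.lf (nat_lit 465242) (.g (nat_lit 3939) (.e (nat_lit 3238) (nat_lit 197) (.e (nat_lit 532523) (nat_lit 7) (.e (nat_lit 319531) (nat_lit 16) (.e (nat_lit 286735) (nat_lit 3) (.e (nat_lit 98369) (nat_lit 28) (.e (nat_lit 442406) (nat_lit 20) .nil)))))) (.g (nat_lit 1) (.e (nat_lit 74633) (nat_lit 0) .nil) .nil))) 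
(.lf (nat_lit 465754) (.g (nat_lit 2679) (.e (nat_lit 3238) (nat_lit 197) (.e (nat_lit 532579) (nat_lit 26) (.e (nat_lit 426200) (nat_lit 9) (.e (nat_lit 426566) (nat_lit 34) (.e (nat_lit 393254) (nat_lit 18) (.e (nat_lit 164329) (nat_lit 230) (.e (nat_lit 163850) (nat_lit 0) .nil))))))) (.g (nat_lit 1) (.e (nat_lit 75369) (nat_lit 0) .nil) .nil))))) (.nd (nat_lit 8) (.nd (nat_lit 9) 
(.lf (nat_lit 465114) (.g (nat_lit 3913) (.e (nat_lit 3238) (nat_lit 197) (.e (nat_lit 532503) (nat_lit 1) (.e (nat_lit 57848) (nat_lit 252) (.e (nat_lit 57445) (nat_lit 19) (.e (nat_lit 393229) (nat_lit 9) (.e (nat_lit 336086) (nat_lit 9) (.e (nat_lit 336306) (nat_lit 15) .nil))))))) (.g (nat_lit 1) (.e (nat_lit 74466) (nat_lit 0) .nil) .nil))) 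
(.lf (nat_lit 465626) (.g (nat_lit 2282) (.e (nat_lit 3238) (nat_lit 197) (.e (nat_lit 532550) (nat_lit 12) (.e (nat_lit 360475) (nat_lit 8) (.e (nat_lit 557073) (nat_lit 9) .nil)))) (.g (nat_lit 0) (.e (nat_lit 75189) (nat_lit 0) .nil) .nil)))) (.nd (nat_lit 9) 
(.lf (nat_lit 465370) (.g (nat_lit 4297) (.e (nat_lit 3238) (nat_lit 197) (.e (nat_lit 532523) (nat_lit 7) (.e (nat_lit 319534) (nat_lit 16) (.e (nat_lit 286735) (nat_lit 3) (.e (nat_lit 98369) (nat_lit 28) (.e (nat_lit 442404) (nat_lit 20) .nil)))))) (.g (nat_lit 1) (.e (nat_lit 74766) (nat_lit 0) .nil) .nil))) 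
(.lf (nat_lit 465882) (.g (nat_lit 5050) (.e (nat_lit 3243) (nat_lit 197) (.e (nat_lit 532550) (nat_lit 12) (.e (nat_lit 360475) (nat_lit 8) (.e (nat_lit 557086) (nat_lit 11) .nil)))) (.g (nat_lit 0) (.e (nat_lit 75588) (nat_lit 0) .nil) .nil))))))) (.nd (nat_lit 6) (.nd (nat_lit 7) (.nd (nat_lit 8) (.nd (nat_lit 9) 
(.lf (nat_lit 464954) (.g (nat_lit 670) (.e (nat_lit 3233) (nat_lit 197) (.e (nat_lit 532550) (nat_lit 12) (.e (nat_lit 360475) (nat_lit 8) .nil))) (.g (nat_lit 0) (.e (nat_lit 74233) (nat_lit 0) .nil) .nil))) 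
(.lf (nat_lit 465466) (.g (nat_lit 6718) (.e (nat_lit 3238) (nat_lit 197) (.e (nat_lit 532535) (nat_lit 9) (.e (nat_lit 336173) (nat_lit 10) (.e (nat_lit 344119) (nat_lit 21) (.e (nat_lit 516139) (nat_lit 7) (.e (nat_lit 409649) (nat_lit 18) (.e (nat_lit 303111) (nat_lit 0) .nil))))))) (.g (nat_lit 1) (.e (nat_lit 74907) (nat_lit 0) .nil) .nil)))) (.nd (nat_lit 9) 
(.lf (nat_lit 465210) (.g (nat_lit 4813) (.e (nat_lit 3238) (nat_lit 197) (.e (nat_lit 532523) (nat_lit 7) (.e (nat_lit 319530) (nat_lit 16) (.e (nat_lit 286733) (nat_lit 2) (.e (nat_lit 90178) (nat_lit 15) (.e (nat_lit 188436) (nat_lit 20) .nil)))))) (.g (nat_lit 1) (.e (nat_lit 74601) (nat_lit 0) .nil) .nil))) 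
(.lf (nat_lit 465722) (.g (nat_lit 2408) (.e (nat_lit 3238) (nat_lit 197) (.e (nat_lit 532563) (nat_lit 15) (.e (nat_lit 385066) (nat_lit 26) (.e (nat_lit 532529) (nat_lit 9) (.e (nat_lit 336326) (nat_lit 18) (.e (nat_lit 204854) (nat_lit 26) (.e (nat_lit 336306) (nat_lit 15) .nil))))))) (.g (nat_lit 1) (.e (nat_lit 75288) (nat_lit 0) .nil) .nil))))) (.nd (nat_lit 8) (.nd (nat_lit 9) 
(.lf (nat_lit 465082) (.g (nat_lit 3728) (.e (nat_lit 3238) (nat_lit 197) (.e (nat_lit 532500) (nat_lit 1) (.e (nat_lit 57854) (nat_lit 252) (.e (nat_lit 57409) (nat_lit 12) (.e (nat_lit 336454) (nat_lit 34) (.e (nat_lit 483385) (nat_lit 23) (.e (nat_lit 336260) (nat_lit 15) .nil))))))) (.g (nat_lit 1) (.e (nat_lit 74428) (nat_lit 0) .nil) .nil))) 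
(.lf (nat_lit 465594) (.g (nat_lit 1139) (.e (nat_lit 3238) (nat_lit 197) (.e (nat_lit 532550) (nat_lit 12) (.e (nat_lit 360473) (nat_lit 8) (.e (nat_lit 557086) (nat_lit 11) .nil)))) (.g (nat_lit 0) (.e (nat_lit 75156) (nat_lit 0) .nil) .nil)))) (.nd (nat_lit 9) 
(.lf (nat_lit 465338) (.g (nat_lit 3943) (.e (nat_lit 3238) (nat_lit 197) (.e (nat_lit 532523) (nat_lit 7) (.e (nat_lit 319534) (nat_lit 16) (.e (nat_lit 286733) (nat_lit 2) (.e (nat_lit 90175) (nat_lit 15) (.e (nat_lit 188437) (nat_lit 20) .nil)))))) (.g (nat_lit 1) (.e (nat_lit 74734) (nat_lit 0) .nil) .nil))) 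
(.lf (nat_lit 465850) (.g (nat_lit 1503) (.e (nat_lit 3241) (nat_lit 197) (.e (nat_lit 532500) (nat_lit 1) (.e (nat_lit 57926) (nat_lit 282) (.e (nat_lit 163871) (nat_lit 2) .nil)))) (.g (nat_lit 0) (.e (nat_lit 75514) (nat_lit 0) .nil) .nil)))))) (.nd (nat_lit 7) (.nd (nat_lit 8) (.nd (nat_lit 9) 
(.lf (nat_lit 465018) (.g (nat_lit 764) (.e (nat_lit 3236) (nat_lit 197) (.e (nat_lit 532560) (nat_lit 14) (.e (nat_lit 376868) (nat_lit 23) .nil))) (.g (nat_lit 0) (.e (nat_lit 74347) (nat_lit 0) .nil) .nil))) 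
(.lf (nat_lit 465530) (.g (nat_lit 2807) (.e (nat_lit 3238) (nat_lit 197) (.e (nat_lit 532549) (nat_lit 12) (.e (nat_lit 360473) (nat_lit 8) (.e (nat_lit 557091) (nat_lit 12) (.e (nat_lit 164022) (nat_lit 46) (.e (nat_lit 704737) (nat_lit 11) (.e (nat_lit 16384) (nat_lit 0) .nil))))))) (.g (nat_lit 1) (.e (nat_lit 75085) (nat_lit 0) .nil) .nil)))) (.nd (nat_lit 9) 
(.lf (nat_lit 465274) (.g (nat_lit 4181) (.e (nat_lit 3238) (nat_lit 197) (.e (nat_lit 532523) (nat_lit 7) (.e (nat_lit 319533) (nat_lit 16) (.e (nat_lit 286732) (nat_lit 2) (.e (nat_lit 90176) (nat_lit 15) (.e (nat_lit 188424) (nat_lit 20) .nil)))))) (.g (nat_lit 1) (.e (nat_lit 74666) (nat_lit 0) .nil) .nil))) 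
(.lf (nat_lit 465786) (.g (nat_lit 2192) (.e (nat_lit 3237) (nat_lit 197) (.e (nat_lit 532503) (nat_lit 1) (.e (nat_lit 57931) (nat_lit 282) (.e (nat_lit 163869) (nat_lit 2) (.e (nat_lit 196666) (nat_lit 13) (.e (nat_lit 65571) (nat_lit 3) (.e (nat_lit 98342) (nat_lit 20) (.e (nat_lit 221198) (nat_lit 20) .nil)))))))) (.g (nat_lit 1) (.e (nat_lit 75422) (nat_lit 0) .nil) .nil))))) 
(.nd (nat_lit 8) (.nd (nat_lit 9) 
(.lf (nat_lit 465146) (.g (nat_lit 3051) (.e (nat_lit 3238) (nat_lit 197) (.e (nat_lit 532513) (nat_lit 3) (.e (nat_lit 114714) (nat_lit 22) (.e (nat_lit 90172) (nat_lit 14) (.e (nat_lit 180244) (nat_lit 5) (.e (nat_lit 532503) (nat_lit 1) (.e (nat_lit 57694) (nat_lit 157) (.e (nat_lit 229379) (nat_lit 0) .nil)))))))) (.g (nat_lit 1) (.e (nat_lit 74512) (nat_lit 0) .nil) .nil))) 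
(.lf (nat_lit 465658) (.g (nat_lit 3677) (.e (nat_lit 3238) (nat_lit 197) (.e (nat_lit 532550) (nat_lit 12) (.e (nat_lit 360475) (nat_lit 8) (.e (nat_lit 557089) (nat_lit 12) (.e (nat_lit 163844) (nat_lit 0) (.e (nat_lit 6420) (nat_lit 341) (.e (nat_lit 163902) (nat_lit 12) (.e (nat_lit 426095) (nat_lit 0) .nil)))))))) (.g (nat_lit 1) (.e (nat_lit 75221) (nat_lit 0) .nil) .nil)))) 
(.nd (nat_lit 9) 
(.lf (nat_lit 465402) (.g (nat_lit 1122) (.e (nat_lit 3238) (nat_lit 197) (.e (nat_lit 532535) (nat_lit 9) (.e (nat_lit 336099) (nat_lit 9) .nil))) (.g (nat_lit 0) (.e (nat_lit 74836) (nat_lit 0) .nil) .nil))) 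
(.lf (nat_lit 465914) (.g (nat_lit 4206) (.e (nat_lit 3242) (nat_lit 197) (.e (nat_lit 532550) (nat_lit 12) (.e (nat_lit 360474) (nat_lit 8) (.e (nat_lit 557093) (nat_lit 12) (.e (nat_lit 164022) (nat_lit 46) .nil))))) (.g (nat_lit 0) (.e (nat_lit 75637) (nat_lit 0) .nil) .nil)))))))))) 
(.nd (nat_lit 3) (.nd (nat_lit 4) (.nd (nat_lit 5) (.nd (nat_lit 6) (.nd (nat_lit 7) 
(.nd (nat_lit 8) (.nd (nat_lit 9) 
(.lf (nat_lit 464902) (.g (nat_lit 2530) (.e (nat_lit 3234) (nat_lit 197) (.e (nat_lit 532563) (nat_lit 15) (.e (nat_lit 385066) (nat_lit 26) (.e (nat_lit 532534) (nat_lit 9) (.e (nat_lit 336326) (nat_lit 18) (.e (nat_lit 204854) (nat_lit 26) (.e (nat_lit 336263) (nat_lit 15) .nil))))))) (.g (nat_lit 1) (.e (nat_lit 74099) (nat_lit 0) .nil) .nil))) 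
(.lf (nat_lit 465414) (.g (nat_lit 5017) (.e (nat_lit 3238) (nat_lit 197) (.e (nat_lit 532535) (nat_lit 9) (.e (nat_lit 336099) (nat_lit 9) (.e (nat_lit 336013) (nat_lit 2) (.e (nat_lit 90130) (nat_lit 9) (.e (nat_lit 2830) (nat_lit 182) (.e (nat_lit 409648) (nat_lit 18) (.e (nat_lit 303107) (nat_lit 0) .nil)))))))) (.g (nat_lit 1) (.e (nat_lit 74853) (nat_lit 0) .nil) .nil)))) (.nd (nat_lit 9) 
(.lf (nat_lit 465158) (.g (nat_lit 2140) (.e (nat_lit 3238) (nat_lit 197) (.e (nat_lit 532523) (nat_lit 7) (.e (nat_lit 319504) (nat_lit 10) (.e (nat_lit 5396) (nat_lit 301) (.e (nat_lit 57464) (nat_lit 23) (.e (nat_lit 516164) (nat_lit 11) (.e (nat_lit 442406) (nat_lit 20) .nil))))))) (.g (nat_lit 1) (.e (nat_lit 74549) (nat_lit 0) .nil) .nil))) 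
(.lf (nat_lit 465670) (.g (nat_lit 3709) (.e (nat_lit 3238) (nat_lit 197) (.e (nat_lit 532550) (nat_lit 12) (.e (nat_lit 360475) (nat_lit 8) (.e (nat_lit 557089) (nat_lit 12) (.e (nat_lit 163849) (nat_lit 0) (.e (nat_lit 6420) (nat_lit 341) (.e (nat_lit 163908) (nat_lit 12) (.e (nat_lit 426003) (nat_lit 0) .nil)))))))) (.g (nat_lit 1) (.e (nat_lit 75233) (nat_lit 0) .nil) .nil))))) 
(.nd (nat_lit 8) (.nd (nat_lit 9) 
(.lf (nat_lit 465030) (.g (nat_lit 2614) (.e (nat_lit 3238) (nat_lit 197) (.e (nat_lit 532499) (nat_lit 1) (.e (nat_lit 57847) (nat_lit 252) (.e (nat_lit 57406) (nat_lit 12) .nil)))) (.g (nat_lit 0) (.e (nat_lit 74369) (nat_lit 0) .nil) .nil))) 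
(.lf (nat_lit 465542) (.g (nat_lit 1189) (.e (nat_lit 3238) (nat_lit 197) (.e (nat_lit 532549) (nat_lit 12) (.e (nat_lit 360473) (nat_lit 8) (.e (nat_lit 557094) (nat_lit 12) .nil)))) (.g (nat_lit 0) (.e (nat_lit 75097) (nat_lit 0) .nil) .nil)))) (.nd (nat_lit 9) 
(.lf (nat_lit 465286) (.g (nat_lit 3381) (.e (nat_lit 3238) (nat_lit 197) (.e (nat_lit 532523) (nat_lit 7) (.e (nat_lit 319533) (nat_lit 16) (.e (nat_lit 286733) (nat_lit 2) (.e (nat_lit 90175) (nat_lit 15) (.e (nat_lit 188437) (nat_lit 20) .nil)))))) (.g (nat_lit 1) (.e (nat_lit 74679) (nat_lit 0) .nil) .nil))) 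
(.lf (nat_lit 465798) (.g (nat_lit 4869) (.e (nat_lit 3237) (nat_lit 197) (.e (nat_lit 532550) (nat_lit 12) (.e (nat_lit 360474) (nat_lit 8) (.e (nat_lit 557093) (nat_lit 12) (.e (nat_lit 164022) (nat_lit 46) (.e (nat_lit 704736) (nat_lit 11) (.e (nat_lit 16385) (nat_lit 0) .nil))))))) (.g (nat_lit 1) (.e (nat_lit 75442) (nat_lit 0) .nil) .nil)))))) 
(.nd (nat_lit 7) (.nd (nat_lit 8) (.nd (nat_lit 9) 
(.lf (nat_lit 464966) (.g (nat_lit 6126) (.e (nat_lit 3233) (nat_lit 197) (.e (nat_lit 532550) (nat_lit 12) (.e (nat_lit 360475) (nat_lit 8) (.e (nat_lit 557091) (nat_lit 12) (.e (nat_lit 164022) (nat_lit 46) (.e (nat_lit 704738) (nat_lit 11) (.e (nat_lit 16401) (nat_lit 0) .nil))))))) (.g (nat_lit 1) (.e (nat_lit 74248) (nat_lit 0) .nil) .nil))) 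
(.lf (nat_lit 465478) (.g (nat_lit 4000) (.e (nat_lit 3238) (nat_lit 197) (.e (nat_lit 532535) (nat_lit 9) (.e (nat_lit 336295) (nat_lit 15) (.e (nat_lit 3253) (nat_lit 197) (.e (nat_lit 532563) (nat_lit 15) (.e (nat_lit 385066) (nat_lit 26) (.e (nat_lit 532532) (nat_lit 9) (.e (nat_lit 336306) (nat_lit 15) .nil)))))))) (.g (nat_lit 1) (.e (nat_lit 75017) (nat_lit 0) .nil) .nil)))) 
(.nd (nat_lit 9) 
(.lf (nat_lit 465222) (.g (nat_lit 2557) (.e (nat_lit 3238) (nat_lit 197) (.e (nat_lit 532523) (nat_lit 7) (.e (nat_lit 319531) (nat_lit 16) (.e (nat_lit 286727) (nat_lit 0) (.e (nat_lit 1799) (nat_lit 119) .nil))))) (.g (nat_lit 0) (.e (nat_lit 74613) (nat_lit 0) .nil) .nil))) 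
(.lf (nat_lit 465734) (.g (nat_lit 540) (.e (nat_lit 3238) (nat_lit 197) (.e (nat_lit 532569) (nat_lit 16) (.e (nat_lit 401448) (nat_lit 10) .nil))) (.g (nat_lit 0) (.e (nat_lit 75301) (nat_lit 0) .nil) .nil))))) (.nd (nat_lit 8) (.nd (nat_lit 9) 
(.lf (nat_lit 465094) (.g (nat_lit 2107) (.e (nat_lit 3238) (nat_lit 197) (.e (nat_lit 532501) (nat_lit 1) (.e (nat_lit 57852) (nat_lit 252) (.e (nat_lit 57409) (nat_lit 12) (.e (nat_lit 336454) (nat_lit 34) .nil))))) (.g (nat_lit 0) (.e (nat_lit 74440) (nat_lit 0) .nil) .nil))) 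
(.lf (nat_lit 465606) (.g (nat_lit 4278) (.e (nat_lit 3238) (nat_lit 197) (.e (nat_lit 532550) (nat_lit 12) (.e (nat_lit 360474) (nat_lit 8) (.e (nat_lit 557093) (nat_lit 12) (.e (nat_lit 164022) (nat_lit 46) (.e (nat_lit 704738) (nat_lit 11) (.e (nat_lit 16384) (nat_lit 0) .nil))))))) (.g (nat_lit 1) (.e (nat_lit 75168) (nat_lit 0) .nil) .nil)))) (.nd (nat_lit 9) 
(.lf (nat_lit 465350) (.g (nat_lit 5174) (.e (nat_lit 3238) (nat_lit 197) (.e (nat_lit 532523) (nat_lit 7) (.e (nat_lit 319534) (nat_lit 16) (.e (nat_lit 286733) (nat_lit 2) (.e (nat_lit 90178) (nat_lit 15) (.e (nat_lit 188440) (nat_lit 20) .nil)))))) (.g (nat_lit 1) (.e (nat_lit 74746) (nat_lit 0) .nil) .nil))) 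
(.lf (nat_lit 465862) (.g (nat_lit 3498) (.e (nat_lit 3241) (nat_lit 197) (.e (nat_lit 532550) (nat_lit 12) (.e (nat_lit 360475) (nat_lit 8) (.e (nat_lit 557085) (nat_lit 11) .nil)))) (.g (nat_lit 0) (.e (nat_lit 75558) (nat_lit 0) .nil) .nil))))))) (.nd (nat_lit 6) (.nd (nat_lit 7) (.nd (nat_lit 8) (.nd (nat_lit 9) 
(.lf (nat_lit 464934) (.g (nat_lit 2544) (.e (nat_lit 3233) (nat_lit 197) (.e (nat_lit 532523) (nat_lit 7) (.e (nat_lit 319531) (nat_lit 16) (.e (nat_lit 286735) (nat_lit 3) (.e (nat_lit 98380) (nat_lit 31) (.e (nat_lit 466965) (nat_lit 20) .nil)))))) (.g (nat_lit 1) (.e (nat_lit 74189) (nat_lit 0) .nil) .nil))) 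
(.lf (nat_lit 465446) (.g (nat_lit 3647) (.e (nat_lit 3238) (nat_lit 197) (.e (nat_lit 532535) (nat_lit 9) (.e (nat_lit 336111) (nat_lit 9) (.e (nat_lit 336028) (nat_lit 3) (.e (nat_lit 98350) (nat_lit 24) (.e (nat_lit 409648) (nat_lit 18) (.e (nat_lit 303108) (nat_lit 0) .nil))))))) (.g (nat_lit 1) (.e (nat_lit 74885) (nat_lit 0) .nil) .nil)))) (.nd (nat_lit 9) 
(.lf (nat_lit 465190) (.g (nat_lit 3159) (.e (nat_lit 3238) (nat_lit 197) (.e (nat_lit 532523) (nat_lit 7) (.e (nat_lit 319529) (nat_lit 16) (.e (nat_lit 286735) (nat_lit 3) (.e (nat_lit 98369) (nat_lit 28) (.e (nat_lit 442406) (nat_lit 20) .nil)))))) (.g (nat_lit 1) (.e (nat_lit 74581) (nat_lit 0) .nil) .nil))) 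
(.lf (nat_lit 465702) (.g (nat_lit 3192) (.e (nat_lit 3238) (nat_lit 197) (.e (nat_lit 532551) (nat_lit 12) (.e (nat_lit 360467) (nat_lit 3) (.e (nat_lit 516139) (nat_lit 7) (.e (nat_lit 409648) (nat_lit 18) (.e (nat_lit 303108) (nat_lit 0) .nil)))))) (.g (nat_lit 1) (.e (nat_lit 75268) (nat_lit 0) .nil) .nil))))) (.nd (nat_lit 8) (.nd (nat_lit 9) 
(.lf (nat_lit 465062) (.g (nat_lit 2321) (.e (nat_lit 3238) (nat_lit 197) (.e (nat_lit 532500) (nat_lit 1) (.e (nat_lit 57851) (nat_lit 252) (.e (nat_lit 57406) (nat_lit 12) (.e (nat_lit 336455) (nat_lit 34) (.e (nat_lit 483384) (nat_lit 23) (.e (nat_lit 336306) (nat_lit 15) .nil))))))) (.g (nat_lit 1) (.e (nat_lit 74407) (nat_lit 0) .nil) .nil))) 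
(.lf (nat_lit 465574) (.g (nat_lit 3784) (.e (nat_lit 3238) (nat_lit 197) (.e (nat_lit 532549) (nat_lit 12) (.e (nat_lit 360475) (nat_lit 8) (.e (nat_lit 557091) (nat_lit 12) (.e (nat_lit 164022) (nat_lit 46) (.e (nat_lit 704737) (nat_lit 11) (.e (nat_lit 16396) (nat_lit 0) .nil))))))) (.g (nat_lit 1) (.e (nat_lit 75130) (nat_lit 0) .nil) .nil)))) (.nd (nat_lit 9) 
(.lf (nat_lit 465318) (.g (nat_lit 3019) (.e (nat_lit 3238) (nat_lit 197) (.e (nat_lit 532523) (nat_lit 7) (.e (nat_lit 319534) (nat_lit 16) (.e (nat_lit 286728) (nat_lit 0) (.e (nat_lit 1788) (nat_lit 119) (.e (nat_lit 516164) (nat_lit 11) (.e (nat_lit 442406) (nat_lit 20) .nil))))))) (.g (nat_lit 1) (.e (nat_lit 74713) (nat_lit 0) .nil) .nil))) 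
(.lf (nat_lit 465830) (.g (nat_lit 3657) (.e (nat_lit 3240) (nat_lit 197) (.e (nat_lit 532535) (nat_lit 9) (.e (nat_lit 336099) (nat_lit 9) (.e (nat_lit 336013) (nat_lit 2) (.e (nat_lit 90165) (nat_lit 12) .nil))))) (.g (nat_lit 0) (.e (nat_lit 75485) (nat_lit 0) .nil) .nil)))))) (.nd (nat_lit 7) (.nd (nat_lit 8) (.nd (nat_lit 9) 
(.lf (nat_lit 464998) (.g (nat_lit 2981) (.e (nat_lit 3236) (nat_lit 197) (.e (nat_lit 532499) (nat_lit 1) (.e (nat_lit 57927) (nat_lit 282) (.e (nat_lit 163868) (nat_lit 2) (.e (nat_lit 196668) (nat_lit 14) (.e (nat_lit 73747) (nat_lit 3) (.e (nat_lit 516129) (nat_lit 3) (.e (nat_lit 221196) (nat_lit 20) .nil)))))))) (.g (nat_lit 1) (.e (nat_lit 74317) (nat_lit 0) .nil) .nil))) 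
(.lf (nat_lit 465510) (.g (nat_lit 3040) (.e (nat_lit 3238) (nat_lit 197) (.e (nat_lit 532549) (nat_lit 12) (.e (nat_lit 360467) (nat_lit 3) (.e (nat_lit 516139) (nat_lit 7) (.e (nat_lit 409648) (nat_lit 18) (.e (nat_lit 303104) (nat_lit 0) .nil)))))) (.g (nat_lit 1) (.e (nat_lit 75064) (nat_lit 0) .nil) .nil)))) (.nd (nat_lit 9) 
(.lf (nat_lit 465254) (.g (nat_lit 3950) (.e (nat_lit 3238) (nat_lit 197) (.e (nat_lit 532523) (nat_lit 7) (.e (nat_lit 319531) (nat_lit 16) (.e (nat_lit 286735) (nat_lit 3) (.e (nat_lit 98382) (nat_lit 31) (.e (nat_lit 466955) (nat_lit 20) .nil)))))) (.g (nat_lit 1) (.e (nat_lit 74645) (nat_lit 0) .nil) .nil))) 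
(.lf (nat_lit 465766) (.g (nat_lit 3967) (.e (nat_lit 3239) (nat_lit 197) (.e (nat_lit 532550) (nat_lit 12) (.e (nat_lit 360474) (nat_lit 8) (.e (nat_lit 557093) (nat_lit 12) .nil)))) (.g (nat_lit 0) (.e (nat_lit 75399) (nat_lit 0) .nil) .nil))))) (.nd (nat_lit 8) (.nd (nat_lit 9) 
(.lf (nat_lit 465126) (.g (nat_lit 3459) (.e (nat_lit 3238) (nat_lit 197) (.e (nat_lit 532504) (nat_lit 1) (.e (nat_lit 57854) (nat_lit 252) (.e (nat_lit 57409) (nat_lit 12) (.e (nat_lit 336454) (nat_lit 34) (.e (nat_lit 483385) (nat_lit 23) (.e (nat_lit 336306) (nat_lit 15) .nil))))))) (.g (nat_lit 1) (.e (nat_lit 74482) (nat_lit 0) .nil) .nil))) 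
(.lf (nat_lit 465638) (.g (nat_lit 2556) (.e (nat_lit 3238) (nat_lit 197) (.e (nat_lit 532550) (nat_lit 12) (.e (nat_lit 360475) (nat_lit 8) (.e (nat_lit 557086) (nat_lit 11) (.e (nat_lit 24665) (nat_lit 14) (.e (nat_lit 401413) (nat_lit 0) .nil)))))) (.g (nat_lit 1) (.e (nat_lit 75201) (nat_lit 0) .nil) .nil)))) (.nd (nat_lit 9) 
(.lf (nat_lit 465382) (.g (nat_lit 4026) (.e (nat_lit 3238) (nat_lit 197) (.e (nat_lit 532523) (nat_lit 7) (.e (nat_lit 319534) (nat_lit 16) (.e (nat_lit 286735) (nat_lit 3) (.e (nat_lit 98371) (nat_lit 28) (.e (nat_lit 442407) (nat_lit 20) .nil)))))) (.g (nat_lit 1) (.e (nat_lit 74778) (nat_lit 0) .nil) .nil))) 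
(.lf (nat_lit 465894) (.g (nat_lit 2097) (.e (nat_lit 3242) (nat_lit 197) (.e (nat_lit 532499) (nat_lit 1) (.e (nat_lit 57927) (nat_lit 282) (.e (nat_lit 163868) (nat_lit 2) (.e (nat_lit 196670) (nat_lit 14) (.e (nat_lit 73746) (nat_lit 3) (.e (nat_lit 516131) (nat_lit 3) (.e (nat_lit 221198) (nat_lit 20) .nil)))))))) (.g (nat_lit 1) (.e (nat_lit 75600) (nat_lit 0) .nil) .nil)))))))) 
(.nd (nat_lit 5) (.nd (nat_lit 6) (.nd (nat_lit 7) (.nd (nat_lit 8) (.nd (nat_lit 9) 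
(.lf (nat_lit 464918) (.g (nat_lit 2583) (.e (nat_lit 3235) (nat_lit 197) (.e (nat_lit 532563) (nat_lit 15) (.e (nat_lit 385066) (nat_lit 26) (.e (nat_lit 532534) (nat_lit 9) (.e (nat_lit 336326) (nat_lit 18) .nil))))) (.g (nat_lit 0) (.e (nat_lit 74115) (nat_lit 0) .nil) .nil))) 
(.lf (nat_lit 465430) (.g (nat_lit 5797) (.e (nat_lit 3238) (nat_lit 197) (.e (nat_lit 532535) (nat_lit 9) (.e (nat_lit 336099) (nat_lit 9) (.e (nat_lit 336028) (nat_lit 3) (.e (nat_lit 98349) (nat_lit 24) (.e (nat_lit 409645) (nat_lit 18) (.e (nat_lit 303104) (nat_lit 0) .nil))))))) (.g (nat_lit 1) (.e (nat_lit 74869) (nat_lit 0) .nil) .nil)))) (.nd (nat_lit 9) 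
(.lf (nat_lit 465174) (.g (nat_lit 2515) (.e (nat_lit 3238) (nat_lit 197) (.e (nat_lit 532523) (nat_lit 7) (.e (nat_lit 319528) (nat_lit 16) (.e (nat_lit 286735) (nat_lit 3) (.e (nat_lit 98369) (nat_lit 28) (.e (nat_lit 442404) (nat_lit 20) .nil)))))) (.g (nat_lit 1) (.e (nat_lit 74565) (nat_lit 0) .nil) .nil))) 
(.lf (nat_lit 465686) (.g (nat_lit 2392) (.e (nat_lit 3238) (nat_lit 197) (.e (nat_lit 532550) (nat_lit 12) (.e (nat_lit 360475) (nat_lit 8) (.e (nat_lit 557091) (nat_lit 12) (.e (nat_lit 163843) (nat_lit 0) (.e (nat_lit 6420) (nat_lit 341) (.e (nat_lit 163908) (nat_lit 12) (.e (nat_lit 426039) (nat_lit 0) .nil)))))))) (.g (nat_lit 1) (.e (nat_lit 75249) (nat_lit 0) .nil) .nil))))) 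
(.nd (nat_lit 8) (.nd (nat_lit 9) 
(.lf (nat_lit 465046) (.g (nat_lit 2393) (.e (nat_lit 3238) (nat_lit 197) (.e (nat_lit 532499) (nat_lit 1) (.e (nat_lit 57927) (nat_lit 282) (.e (nat_lit 163869) (nat_lit 2) (.e (nat_lit 196668) (nat_lit 14) (.e (nat_lit 73747) (nat_lit 3) (.e (nat_lit 516129) (nat_lit 3) (.e (nat_lit 229120) (nat_lit 20) .nil)))))))) (.g (nat_lit 1) (.e (nat_lit 74387) (nat_lit 0) .nil) .nil))) 
(.lf (nat_lit 465558) (.g (nat_lit 4314) (.e (nat_lit 3238) (nat_lit 197) (.e (nat_lit 532549) (nat_lit 12) (.e (nat_lit 360475) (nat_lit 8) (.e (nat_lit 557085) (nat_lit 11) (.e (nat_lit 24665) (nat_lit 14) (.e (nat_lit 401408) (nat_lit 0) .nil)))))) (.g (nat_lit 1) (.e (nat_lit 75113) (nat_lit 0) .nil) .nil)))) (.nd (nat_lit 9) 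
(.lf (nat_lit 465302) (.g (nat_lit 3833) (.e (nat_lit 3238) (nat_lit 197) (.e (nat_lit 532523) (nat_lit 7) (.e (nat_lit 319533) (nat_lit 16) (.e (nat_lit 286734) (nat_lit 3) (.e (nat_lit 98381) (nat_lit 31) (.e (nat_lit 466955) (nat_lit 20) .nil)))))) (.g (nat_lit 1) (.e (nat_lit 74695) (nat_lit 0) .nil) .nil))) 
(.lf (nat_lit 465814) (.g (nat_lit 765) (.e (nat_lit 3237) (nat_lit 197) (.e (nat_lit 532560) (nat_lit 14) (.e (nat_lit 376868) (nat_lit 23) .nil))) (.g (nat_lit 0) (.e (nat_lit 75460) (nat_lit 0) .nil) .nil)))))) (.nd (nat_lit 7) (.nd (nat_lit 8) (.nd (nat_lit 9) 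
(.lf (nat_lit 464982) (.g (nat_lit 3069) (.e (nat_lit 3233) (nat_lit 197) (.e (nat_lit 532561) (nat_lit 14) (.e (nat_lit 376865) (nat_lit 22) (.e (nat_lit 90185) (nat_lit 17) (.e (nat_lit 237585) (nat_lit 1) (.e (nat_lit 164402) (nat_lit 256) (.e (nat_lit 57580) (nat_lit 61) .nil))))))) (.g (nat_lit 1) (.e (nat_lit 74275) (nat_lit 0) .nil) .nil))) 
(.lf (nat_lit 465494) (.g (nat_lit 3468) (.e (nat_lit 3238) (nat_lit 197) (.e (nat_lit 532547) (nat_lit 11) (.e (nat_lit 352315) (nat_lit 23) (.e (nat_lit 98349) (nat_lit 24) (.e (nat_lit 409649) (nat_lit 18) (.e (nat_lit 303104) (nat_lit 0) .nil)))))) (.g (nat_lit 1) (.e (nat_lit 75046) (nat_lit 0) .nil) .nil)))) (.nd (nat_lit 9) 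
(.lf (nat_lit 465238) (.g (nat_lit 2682) (.e (nat_lit 3238) (nat_lit 197) (.e (nat_lit 532523) (nat_lit 7) (.e (nat_lit 319531) (nat_lit 16) (.e (nat_lit 286735) (nat_lit 3) (.e (nat_lit 98359) (nat_lit 26) .nil))))) (.g (nat_lit 0) (.e (nat_lit 74629) (nat_lit 0) .nil) .nil))) 
(.lf (nat_lit 465750) (.g (nat_lit 5596) (.e (nat_lit 3238) (nat_lit 197) (.e (nat_lit 532569) (nat_lit 16) (.e (nat_lit 401451) (nat_lit 12) (.e (nat_lit 475185) (nat_lit 29) (.e (nat_lit 557109) (nat_lit 15) (.e (nat_lit 188424) (nat_lit 20) .nil)))))) (.g (nat_lit 1) (.e (nat_lit 75319) (nat_lit 0) .nil) .nil))))) (.nd (nat_lit 8) (.nd (nat_lit 9) 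
(.lf (nat_lit 465110) (.g (nat_lit 2960) (.e (nat_lit 3238) (nat_lit 197) (.e (nat_lit 532503) (nat_lit 1) (.e (nat_lit 57848) (nat_lit 252) (.e (nat_lit 57407) (nat_lit 12) (.e (nat_lit 336454) (nat_lit 34) (.e (nat_lit 483385) (nat_lit 23) (.e (nat_lit 336260) (nat_lit 15) .nil))))))) (.g (nat_lit 1) (.e (nat_lit 74462) (nat_lit 0) .nil) .nil))) 
(.lf (nat_lit 465622) (.g (nat_lit 2814) (.e (nat_lit 3238) (nat_lit 197) (.e (nat_lit 532550) (nat_lit 12) (.e (nat_lit 360475) (nat_lit 8) (.e (nat_lit 557065) (nat_lit 9) .nil)))) (.g (nat_lit 0) (.e (nat_lit 75184) (nat_lit 0) .nil) .nil)))) (.nd (nat_lit 9) 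
(.lf (nat_lit 465366) (.g (nat_lit 3814) (.e (nat_lit 3238) (nat_lit 197) (.e (nat_lit 532523) (nat_lit 7) (.e (nat_lit 319534) (nat_lit 16) (.e (nat_lit 286735) (nat_lit 3) (.e (nat_lit 98359) (nat_lit 26) (.e (nat_lit 426208) (nat_lit 9) (.e (nat_lit 426039) (nat_lit 0) .nil))))))) (.g (nat_lit 1) (.e (nat_lit 74762) (nat_lit 0) .nil) .nil))) 
(.lf (nat_lit 465878) (.g (nat_lit 4588) (.e (nat_lit 3243) (nat_lit 197) (.e (nat_lit 532550) (nat_lit 12) (.e (nat_lit 360474) (nat_lit 8) (.e (nat_lit 557094) (nat_lit 12) (.e (nat_lit 164022) (nat_lit 46) (.e (nat_lit 704738) (nat_lit 11) (.e (nat_lit 16384) (nat_lit 0) .nil))))))) (.g (nat_lit 1) (.e (nat_lit 75583) (nat_lit 0) .nil) .nil))))))) 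
(.nd (nat_lit 6) (.nd (nat_lit 7) (.nd (nat_lit 8) (.nd (nat_lit 9) 
(.lf (nat_lit 464950) (.g (nat_lit 4331) (.e (nat_lit 3233) (nat_lit 197) (.e (nat_lit 532550) (nat_lit 12) (.e (nat_lit 360474) (nat_lit 8) (.e (nat_lit 557093) (nat_lit 12) (.e (nat_lit 164023) (nat_lit 46) (.e (nat_lit 704735) (nat_lit 11) (.e (nat_lit 16401) (nat_lit 0) .nil))))))) (.g (nat_lit 1) (.e (nat_lit 74227) (nat_lit 0) .nil) .nil))) 
(.lf (nat_lit 465462) (.g (nat_lit 4369) (.e (nat_lit 3238) (nat_lit 197) (.e (nat_lit 532535) (nat_lit 9) (.e (nat_lit 336173) (nat_lit 10) (.e (nat_lit 344119) (nat_lit 21) (.e (nat_lit 516139) (nat_lit 7) (.e (nat_lit 409648) (nat_lit 18) (.e (nat_lit 303109) (nat_lit 0) .nil))))))) (.g (nat_lit 1) (.e (nat_lit 74903) (nat_lit 0) .nil) .nil)))) (.nd (nat_lit 9) 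
(.lf (nat_lit 465206) (.g (nat_lit 3261) (.e (nat_lit 3238) (nat_lit 197) (.e (nat_lit 532523) (nat_lit 7) (.e (nat_lit 319530) (nat_lit 16) (.e (nat_lit 286733) (nat_lit 2) (.e (nat_lit 90177) (nat_lit 15) (.e (nat_lit 188424) (nat_lit 20) .nil)))))) (.g (nat_lit 1) (.e (nat_lit 74597) (nat_lit 0) .nil) .nil))) 
(.lf (nat_lit 465718) (.g (nat_lit 2524) (.e (nat_lit 3238) (nat_lit 197) (.e (nat_lit 532560) (nat_lit 14) (.e (nat_lit 376869) (nat_lit 23) (.e (nat_lit 98350) (nat_lit 24) (.e (nat_lit 409648) (nat_lit 18) (.e (nat_lit 303104) (nat_lit 0) .nil)))))) (.g (nat_lit 1) (.e (nat_lit 75284) (nat_lit 0) .nil) .nil))))) (.nd (nat_lit 8) (.nd (nat_lit 9) 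
(.lf (nat_lit 465078) (.g (nat_lit 4521) (.e (nat_lit 3238) (nat_lit 197) (.e (nat_lit 532500) (nat_lit 1) (.e (nat_lit 57852) (nat_lit 252) (.e (nat_lit 57406) (nat_lit 12) (.e (nat_lit 336454) (nat_lit 34) (.e (nat_lit 483385) (nat_lit 23) (.e (nat_lit 336260) (nat_lit 15) .nil))))))) (.g (nat_lit 1) (.e (nat_lit 74423) (nat_lit 0) .nil) .nil))) 
(.lf (nat_lit 465590) (.g (nat_lit 2172) (.e (nat_lit 3238) (nat_lit 197) (.e (nat_lit 532550) (nat_lit 12) (.e (nat_lit 360468) (nat_lit 3) (.e (nat_lit 516139) (nat_lit 7) (.e (nat_lit 409648) (nat_lit 18) (.e (nat_lit 303107) (nat_lit 0) .nil)))))) (.g (nat_lit 1) (.e (nat_lit 75151) (nat_lit 0) .nil) .nil)))) (.nd (nat_lit 9) 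
(.lf (nat_lit 465334) (.g (nat_lit 4203) (.e (nat_lit 3238) (nat_lit 197) (.e (nat_lit 532523) (nat_lit 7) (.e (nat_lit 319534) (nat_lit 16) (.e (nat_lit 286732) (nat_lit 2) (.e (nat_lit 90178) (nat_lit 15) (.e (nat_lit 188440) (nat_lit 20) .nil)))))) (.g (nat_lit 1) (.e (nat_lit 74729) (nat_lit 0) .nil) .nil))) 
(.lf (nat_lit 465846) (.g (nat_lit 1616) (.e (nat_lit 3241) (nat_lit 197) (.e (nat_lit 532500) (nat_lit 1) (.e (nat_lit 57851) (nat_lit 252) (.e (nat_lit 57408) (nat_lit 12) .nil)))) (.g (nat_lit 0) (.e (nat_lit 75510) (nat_lit 0) .nil) .nil)))))) (.nd (nat_lit 7) (.nd (nat_lit 8) (.nd (nat_lit 9) 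
(.lf (nat_lit 465014) (.g (nat_lit 1066) (.e (nat_lit 3236) (nat_lit 197) (.e (nat_lit 532550) (nat_lit 12) (.e (nat_lit 360475) (nat_lit 8) .nil))) (.g (nat_lit 0) (.e (nat_lit 74342) (nat_lit 0) .nil) .nil))) 
(.lf (nat_lit 465526) (.g (nat_lit 2011) (.e (nat_lit 3238) (nat_lit 197) (.e (nat_lit 532549) (nat_lit 12) (.e (nat_lit 360473) (nat_lit 8) (.e (nat_lit 557089) (nat_lit 12) (.e (nat_lit 163849) (nat_lit 0) (.e (nat_lit 6420) (nat_lit 341) (.e (nat_lit 163902) (nat_lit 12) (.e (nat_lit 426093) (nat_lit 0) .nil)))))))) (.g (nat_lit 1) (.e (nat_lit 75080) (nat_lit 0) .nil) .nil)))) 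
(.nd (nat_lit 9) 
(.lf (nat_lit 465270) (.g (nat_lit 2023) (.e (nat_lit 3238) (nat_lit 197) (.e (nat_lit 532523) (nat_lit 7) (.e (nat_lit 319533) (nat_lit 16) (.e (nat_lit 286724) (nat_lit 0) (.e (nat_lit 1788) (nat_lit 119) (.e (nat_lit 516162) (nat_lit 11) (.e (nat_lit 442406) (nat_lit 20) .nil))))))) (.g (nat_lit 1) (.e (nat_lit 74662) (nat_lit 0) .nil) .nil))) 
(.lf (nat_lit 465782) (.g (nat_lit 2874) (.e (nat_lit 3237) (nat_lit 197) (.e (nat_lit 532499) (nat_lit 1) (.e (nat_lit 57927) (nat_lit 282) (.e (nat_lit 163869) (nat_lit 2) (.e (nat_lit 196670) (nat_lit 14) (.e (nat_lit 73746) (nat_lit 3) (.e (nat_lit 516131) (nat_lit 3) (.e (nat_lit 221198) (nat_lit 20) .nil)))))))) (.g (nat_lit 1) (.e (nat_lit 75416) (nat_lit 0) .nil) .nil))))) 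
(.nd (nat_lit 8) (.nd (nat_lit 9) 
(.lf (nat_lit 465142) (.g (nat_lit 2733) (.e (nat_lit 3238) (nat_lit 197) (.e (nat_lit 532513) (nat_lit 3) (.e (nat_lit 114714) (nat_lit 22) (.e (nat_lit 90172) (nat_lit 14) (.e (nat_lit 180244) (nat_lit 5) (.e (nat_lit 532501) (nat_lit 1) (.e (nat_lit 57693) (nat_lit 157) (.e (nat_lit 229379) (nat_lit 0) .nil)))))))) (.g (nat_lit 1) (.e (nat_lit 74508) (nat_lit 0) .nil) .nil))) 
(.lf (nat_lit 465654) (.g (nat_lit 4310) (.e (nat_lit 3238) (nat_lit 197) (.e (nat_lit 532550) (nat_lit 12) (.e (nat_lit 360475) (nat_lit 8) (.e (nat_lit 557089) (nat_lit 12) (.e (nat_lit 163844) (nat_lit 0) (.e (nat_lit 6416) (nat_lit 341) (.e (nat_lit 163908) (nat_lit 12) (.e (nat_lit 426039) (nat_lit 0) .nil)))))))) (.g (nat_lit 1) (.e (nat_lit 75217) (nat_lit 0) .nil) .nil)))) 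
(.nd (nat_lit 9) 
(.lf (nat_lit 465398) (.g (nat_lit 682) (.e (nat_lit 3238) (nat_lit 197) (.e (nat_lit 532535) (nat_lit 9) (.e (nat_lit 336073) (nat_lit 9) .nil))) (.g (nat_lit 0) (.e (nat_lit 74831) (nat_lit 0) .nil) .nil))) 
(.lf (nat_lit 465910) (.g (nat_lit 4081) (.e (nat_lit 3242) (nat_lit 197) (.e (nat_lit 532535) (nat_lit 9) (.e (nat_lit 336099) (nat_lit 9) (.e (nat_lit 336028) (nat_lit 3) (.e (nat_lit 98349) (nat_lit 24) (.e (nat_lit 409646) (nat_lit 18) (.e (nat_lit 303106) (nat_lit 0) .nil))))))) (.g (nat_lit 1) (.e (nat_lit 75625) (nat_lit 0) .nil) .nil))))))))) 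
(.nd (nat_lit 4) (.nd (nat_lit 5) (.nd (nat_lit 6) (.nd (nat_lit 7) (.nd (nat_lit 8) 
(.nd (nat_lit 9) 
(.lf (nat_lit 464910) (.g (nat_lit 2372) (.e (nat_lit 3235) (nat_lit 197) (.e (nat_lit 532501) (nat_lit 1) (.e (nat_lit 57851) (nat_lit 252) (.e (nat_lit 57406) (nat_lit 12) .nil)))) (.g (nat_lit 0) (.e (nat_lit 74107) (nat_lit 0) .nil) .nil))) 
(.lf (nat_lit 465422) (.g (nat_lit 4961) (.e (nat_lit 3238) (nat_lit 197) (.e (nat_lit 532535) (nat_lit 9) (.e (nat_lit 336099) (nat_lit 9) (.e (nat_lit 336013) (nat_lit 2) (.e (nat_lit 90134) (nat_lit 9) (.e (nat_lit 2822) (nat_lit 182) (.e (nat_lit 409646) (nat_lit 18) (.e (nat_lit 303104) (nat_lit 0) .nil)))))))) (.g (nat_lit 1) (.e (nat_lit 74861) (nat_lit 0) .nil) .nil)))) (.nd (nat_lit 9) 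
(.lf (nat_lit 465166) (.g (nat_lit 2720) (.e (nat_lit 3238) (nat_lit 197) (.e (nat_lit 532523) (nat_lit 7) (.e (nat_lit 319528) (nat_lit 16) (.e (nat_lit 286733) (nat_lit 2) (.e (nat_lit 90176) (nat_lit 15) (.e (nat_lit 188439) (nat_lit 20) .nil)))))) (.g (nat_lit 1) (.e (nat_lit 74557) (nat_lit 0) .nil) .nil))) 
(.lf (nat_lit 465678) (.g (nat_lit 6069) (.e (nat_lit 3238) (nat_lit 197) (.e (nat_lit 532550) (nat_lit 12) (.e (nat_lit 360475) (nat_lit 8) (.e (nat_lit 557090) (nat_lit 12) (.e (nat_lit 164020) (nat_lit 45) (.e (nat_lit 696343) (nat_lit 8) (.e (nat_lit 172046) (nat_lit 0) .nil))))))) (.g (nat_lit 1) (.e (nat_lit 75241) (nat_lit 0) .nil) .nil))))) (.nd (nat_lit 8) (.nd (nat_lit 9) 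
(.lf (nat_lit 465038) (.g (nat_lit 3396) (.e (nat_lit 3238) (nat_lit 197) (.e (nat_lit 532499) (nat_lit 1) (.e (nat_lit 57927) (nat_lit 282) (.e (nat_lit 163868) (nat_lit 2) (.e (nat_lit 196668) (nat_lit 14) (.e (nat_lit 73747) (nat_lit 3) (.e (nat_lit 516129) (nat_lit 3) (.e (nat_lit 221195) (nat_lit 20) .nil)))))))) (.g (nat_lit 1) (.e (nat_lit 74379) (nat_lit 0) .nil) .nil))) 
(.lf (nat_lit 465550) (.g (nat_lit 2800) (.e (nat_lit 3238) (nat_lit 197) (.e (nat_lit 532549) (nat_lit 12) (.e (nat_lit 360474) (nat_lit 8) (.e (nat_lit 557085) (nat_lit 11) (.e (nat_lit 24665) (nat_lit 14) (.e (nat_lit 401414) (nat_lit 0) .nil)))))) (.g (nat_lit 1) (.e (nat_lit 75105) (nat_lit 0) .nil) .nil)))) (.nd (nat_lit 9) 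
(.lf (nat_lit 465294) (.g (nat_lit 3078) (.e (nat_lit 3238) (nat_lit 197) (.e (nat_lit 532523) (nat_lit 7) (.e (nat_lit 319533) (nat_lit 16) (.e (nat_lit 286734) (nat_lit 3) (.e (nat_lit 98369) (nat_lit 28) (.e (nat_lit 442403) (nat_lit 20) .nil)))))) (.g (nat_lit 1) (.e (nat_lit 74687) (nat_lit 0) .nil) .nil))) 
(.lf (nat_lit 465806) (.g (nat_lit 4564) (.e (nat_lit 3237) (nat_lit 197) (.e (nat_lit 532550) (nat_lit 12) (.e (nat_lit 360474) (nat_lit 8) (.e (nat_lit 557094) (nat_lit 12) (.e (nat_lit 164022) (nat_lit 46) (.e (nat_lit 704738) (nat_lit 11) (.e (nat_lit 16389) (nat_lit 0) .nil))))))) (.g (nat_lit 1) (.e (nat_lit 75450) (nat_lit 0) .nil) .nil)))))) 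
(.nd (nat_lit 7) (.nd (nat_lit 8) (.nd (nat_lit 9) 
(.lf (nat_lit 464974) (.g (nat_lit 729) (.e (nat_lit 3233) (nat_lit 197) (.e (nat_lit 532560) (nat_lit 14) (.e (nat_lit 376865) (nat_lit 22) .nil))) (.g (nat_lit 0) (.e (nat_lit 74266) (nat_lit 0) .nil) .nil))) 
(.lf (nat_lit 465486) (.g (nat_lit 3092) (.e (nat_lit 3238) (nat_lit 197) (.e (nat_lit 532547) (nat_lit 11) (.e (nat_lit 352314) (nat_lit 23) (.e (nat_lit 98350) (nat_lit 24) (.e (nat_lit 409648) (nat_lit 18) (.e (nat_lit 303104) (nat_lit 0) .nil)))))) (.g (nat_lit 1) (.e (nat_lit 75038) (nat_lit 0) .nil) .nil)))) (.nd (nat_lit 9) 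
(.lf (nat_lit 465230) (.g (nat_lit 3644) (.e (nat_lit 3238) (nat_lit 197) (.e (nat_lit 532523) (nat_lit 7) (.e (nat_lit 319531) (nat_lit 16) (.e (nat_lit 286733) (nat_lit 2) (.e (nat_lit 90176) (nat_lit 15) (.e (nat_lit 188437) (nat_lit 20) .nil)))))) (.g (nat_lit 1) (.e (nat_lit 74621) (nat_lit 0) .nil) .nil))) 
(.lf (nat_lit 465742) (.g (nat_lit 2047) (.e (nat_lit 3238) (nat_lit 197) (.e (nat_lit 532569) (nat_lit 16) (.e (nat_lit 401448) (nat_lit 10) (.e (nat_lit 434248) (nat_lit 28) .nil)))) (.g (nat_lit 0) (.e (nat_lit 75310) (nat_lit 0) .nil) .nil))))) (.nd (nat_lit 8) (.nd (nat_lit 9) 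
(.lf (nat_lit 465102) (.g (nat_lit 3112) (.e (nat_lit 3238) (nat_lit 197) (.e (nat_lit 532503) (nat_lit 1) (.e (nat_lit 57846) (nat_lit 252) (.e (nat_lit 57407) (nat_lit 12) (.e (nat_lit 336454) (nat_lit 34) (.e (nat_lit 483385) (nat_lit 23) (.e (nat_lit 336306) (nat_lit 15) .nil))))))) (.g (nat_lit 1) (.e (nat_lit 74453) (nat_lit 0) .nil) .nil))) 
(.lf (nat_lit 465614) (.g (nat_lit 2585) (.e (nat_lit 3238) (nat_lit 197) (.e (nat_lit 532550) (nat_lit 12) (.e (nat_lit 360474) (nat_lit 8) (.e (nat_lit 557094) (nat_lit 12) (.e (nat_lit 164022) (nat_lit 46) (.e (nat_lit 704735) (nat_lit 11) (.e (nat_lit 16396) (nat_lit 0) .nil))))))) (.g (nat_lit 1) (.e (nat_lit 75176) (nat_lit 0) .nil) .nil)))) (.nd (nat_lit 9) 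
(.lf (nat_lit 465358) (.g (nat_lit 2809) (.e (nat_lit 3238) (nat_lit 197) (.e (nat_lit 532523) (nat_lit 7) (.e (nat_lit 319534) (nat_lit 16) (.e (nat_lit 286734) (nat_lit 3) (.e (nat_lit 98371) (nat_lit 28) .nil))))) (.g (nat_lit 0) (.e (nat_lit 74754) (nat_lit 0) .nil) .nil))) 
(.lf (nat_lit 465870) (.g (nat_lit 4293) (.e (nat_lit 3241) (nat_lit 197) (.e (nat_lit 532550) (nat_lit 12) (.e (nat_lit 360475) (nat_lit 8) (.e (nat_lit 557091) (nat_lit 12) (.e (nat_lit 164022) (nat_lit 46) (.e (nat_lit 704737) (nat_lit 11) (.e (nat_lit 16395) (nat_lit 0) .nil))))))) (.g (nat_lit 1) (.e (nat_lit 75567) (nat_lit 0) .nil) .nil))))))) 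
(.nd (nat_lit 6) (.nd (nat_lit 7) (.nd (nat_lit 8) (.nd (nat_lit 9) 
(.lf (nat_lit 464942) (.g (nat_lit 3006) (.e (nat_lit 3233) (nat_lit 197) (.e (nat_lit 532535) (nat_lit 9) (.e (nat_lit 336099) (nat_lit 9) (.e (nat_lit 336013) (nat_lit 2) .nil)))) (.g (nat_lit 0) (.e (nat_lit 74203) (nat_lit 0) .nil) .nil))) 
(.lf (nat_lit 465454) (.g (nat_lit 4135) (.e (nat_lit 3238) (nat_lit 197) (.e (nat_lit 532535) (nat_lit 9) (.e (nat_lit 336173) (nat_lit 10) (.e (nat_lit 344117) (nat_lit 21) (.e (nat_lit 516138) (nat_lit 7) (.e (nat_lit 409646) (nat_lit 18) (.e (nat_lit 303104) (nat_lit 0) .nil))))))) (.g (nat_lit 1) (.e (nat_lit 74895) (nat_lit 0) .nil) .nil)))) (.nd (nat_lit 9) 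
(.lf (nat_lit 465198) (.g (nat_lit 3109) (.e (nat_lit 3238) (nat_lit 197) (.e (nat_lit 532523) (nat_lit 7) (.e (nat_lit 319530) (nat_lit 16) (.e (nat_lit 286727) (nat_lit 0) (.e (nat_lit 1799) (nat_lit 119) (.e (nat_lit 516174) (nat_lit 14) (.e (nat_lit 466955) (nat_lit 20) .nil))))))) (.g (nat_lit 1) (.e (nat_lit 74589) (nat_lit 0) .nil) .nil))) 
(.lf (nat_lit 465710) (.g (nat_lit 2997) (.e (nat_lit 3238) (nat_lit 197) (.e (nat_lit 532560) (nat_lit 14) (.e (nat_lit 376855) (nat_lit 20) (.e (nat_lit 1800) (nat_lit 119) (.e (nat_lit 516139) (nat_lit 7) (.e (nat_lit 409648) (nat_lit 18) (.e (nat_lit 303108) (nat_lit 0) .nil))))))) (.g (nat_lit 1) (.e (nat_lit 75276) (nat_lit 0) .nil) .nil))))) (.nd (nat_lit 8) (.nd (nat_lit 9) 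
(.lf (nat_lit 465070) (.g (nat_lit 3347) (.e (nat_lit 3238) (nat_lit 197) (.e (nat_lit 532500) (nat_lit 1) (.e (nat_lit 57851) (nat_lit 252) (.e (nat_lit 57406) (nat_lit 12) (.e (nat_lit 336456) (nat_lit 34) (.e (nat_lit 483382) (nat_lit 23) (.e (nat_lit 336306) (nat_lit 15) .nil))))))) (.g (nat_lit 1) (.e (nat_lit 74415) (nat_lit 0) .nil) .nil))) 
(.lf (nat_lit 465582) (.g (nat_lit 3568) (.e (nat_lit 3238) (nat_lit 197) (.e (nat_lit 532550) (nat_lit 12) (.e (nat_lit 360466) (nat_lit 3) (.e (nat_lit 516139) (nat_lit 7) (.e (nat_lit 409648) (nat_lit 18) (.e (nat_lit 303108) (nat_lit 0) .nil)))))) (.g (nat_lit 1) (.e (nat_lit 75143) (nat_lit 0) .nil) .nil)))) (.nd (nat_lit 9) 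
(.lf (nat_lit 465326) (.g (nat_lit 3404) (.e (nat_lit 3238) (nat_lit 197) (.e (nat_lit 532523) (nat_lit 7) (.e (nat_lit 319534) (nat_lit 16) (.e (nat_lit 286732) (nat_lit 2) (.e (nat_lit 90175) (nat_lit 15) (.e (nat_lit 188437) (nat_lit 20) .nil)))))) (.g (nat_lit 1) (.e (nat_lit 74721) (nat_lit 0) .nil) .nil))) 
(.lf (nat_lit 465838) (.g (nat_lit 2850) (.e (nat_lit 3241) (nat_lit 197) (.e (nat_lit 532499) (nat_lit 1) (.e (nat_lit 57927) (nat_lit 282) (.e (nat_lit 163869) (nat_lit 2) (.e (nat_lit 196668) (nat_lit 14) (.e (nat_lit 73747) (nat_lit 3) (.e (nat_lit 516129) (nat_lit 3) (.e (nat_lit 221196) (nat_lit 20) .nil)))))))) (.g (nat_lit 1) (.e (nat_lit 75500) (nat_lit 0) .nil) .nil)))))) 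
(.nd (nat_lit 7) (.nd (nat_lit 8) (.nd (nat_lit 9) 
(.lf (nat_lit 465006) (.g (nat_lit 3526) (.e (nat_lit 3236) (nat_lit 197) (.e (nat_lit 532503) (nat_lit 1) (.e (nat_lit 57931) (nat_lit 282) (.e (nat_lit 163869) (nat_lit 2) (.e (nat_lit 196668) (nat_lit 14) (.e (nat_lit 73747) (nat_lit 3) (.e (nat_lit 516129) (nat_lit 3) (.e (nat_lit 221196) (nat_lit 20) .nil)))))))) (.g (nat_lit 1) (.e (nat_lit 74326) (nat_lit 0) .nil) .nil))) 
(.lf (nat_lit 465518) (.g (nat_lit 3723) (.e (nat_lit 3238) (nat_lit 197) (.e (nat_lit 532549) (nat_lit 12) (.e (nat_lit 360473) (nat_lit 8) (.e (nat_lit 557085) (nat_lit 11) (.e (nat_lit 24665) (nat_lit 14) (.e (nat_lit 401408) (nat_lit 0) .nil)))))) (.g (nat_lit 1) (.e (nat_lit 75072) (nat_lit 0) .nil) .nil)))) (.nd (nat_lit 9) 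
(.lf (nat_lit 465262) (.g (nat_lit 2797) (.e (nat_lit 3238) (nat_lit 197) (.e (nat_lit 532523) (nat_lit 7) (.e (nat_lit 319532) (nat_lit 16) (.e (nat_lit 286733) (nat_lit 2) (.e (nat_lit 90177) (nat_lit 15) (.e (nat_lit 188437) (nat_lit 20) .nil)))))) (.g (nat_lit 1) (.e (nat_lit 74653) (nat_lit 0) .nil) .nil))) 
(.lf (nat_lit 465774) (.g (nat_lit 4173) (.e (nat_lit 3239) (nat_lit 197) (.e (nat_lit 532550) (nat_lit 12) (.e (nat_lit 360475) (nat_lit 8) (.e (nat_lit 557091) (nat_lit 12) .nil)))) (.g (nat_lit 0) (.e (nat_lit 75408) (nat_lit 0) .nil) .nil))))) (.nd (nat_lit 8) (.nd (nat_lit 9) 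
(.lf (nat_lit 465134) (.g (nat_lit 1933) (.e (nat_lit 3238) (nat_lit 197) (.e (nat_lit 532507) (nat_lit 2) (.e (nat_lit 106534) (nat_lit 11) (.e (nat_lit 16413) (nat_lit 2) (.e (nat_lit 196674) (nat_lit 15) (.e (nat_lit 89856) (nat_lit 0) .nil)))))) (.g (nat_lit 1) (.e (nat_lit 74494) (nat_lit 0) .nil) .nil))) 
(.lf (nat_lit 465646) (.g (nat_lit 2444) (.e (nat_lit 3238) (nat_lit 197) (.e (nat_lit 532550) (nat_lit 12) (.e (nat_lit 360475) (nat_lit 8) (.e (nat_lit 557089) (nat_lit 12) .nil)))) (.g (nat_lit 0) (.e (nat_lit 75209) (nat_lit 0) .nil) .nil)))) (.nd (nat_lit 9) 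
(.lf (nat_lit 465390) (.g (nat_lit 2887) (.e (nat_lit 3238) (nat_lit 197) (.e (nat_lit 532530) (nat_lit 9) (.e (nat_lit 336326) (nat_lit 18) (.e (nat_lit 204852) (nat_lit 26) (.e (nat_lit 336324) (nat_lit 18) (.e (nat_lit 204854) (nat_lit 26) (.e (nat_lit 336306) (nat_lit 15) .nil))))))) (.g (nat_lit 1) (.e (nat_lit 74817) (nat_lit 0) .nil) .nil))) 
(.lf (nat_lit 465902) (.g (nat_lit 2133) (.e (nat_lit 3242) (nat_lit 197) (.e (nat_lit 532499) (nat_lit 1) (.e (nat_lit 57927) (nat_lit 282) (.e (nat_lit 163869) (nat_lit 2) (.e (nat_lit 196670) (nat_lit 14) (.e (nat_lit 73746) (nat_lit 3) (.e (nat_lit 516129) (nat_lit 3) (.e (nat_lit 221198) (nat_lit 20) .nil)))))))) (.g (nat_lit 1) (.e (nat_lit 75608) (nat_lit 0) .nil) .nil)))))))) 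
(.nd (nat_lit 5) (.nd (nat_lit 6) (.nd (nat_lit 7) (.nd (nat_lit 8) (.nd (nat_lit 9) 
(.lf (nat_lit 464926) (.g (nat_lit 602) (.e (nat_lit 3233) (nat_lit 197) (.e (nat_lit 532503) (nat_lit 1) (.e (nat_lit 57848) (nat_lit 252) .nil))) (.g (nat_lit 0) (.e (nat_lit 74127) (nat_lit 0) .nil) .nil))) 
(.lf (nat_lit 465438) (.g (nat_lit 5042) (.e (nat_lit 3238) (nat_lit 197) (.e (nat_lit 532535) (nat_lit 9) (.e (nat_lit 336099) (nat_lit 9) (.e (nat_lit 336028) (nat_lit 3) (.e (nat_lit 98350) (nat_lit 24) (.e (nat_lit 409648) (nat_lit 18) (.e (nat_lit 303108) (nat_lit 0) .nil))))))) (.g (nat_lit 1) (.e (nat_lit 74877) (nat_lit 0) .nil) .nil)))) (.nd (nat_lit 9) 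
(.lf (nat_lit 465182) (.g (nat_lit 2937) (.e (nat_lit 3238) (nat_lit 197) (.e (nat_lit 532523) (nat_lit 7) (.e (nat_lit 319529) (nat_lit 16) (.e (nat_lit 286733) (nat_lit 2) (.e (nat_lit 90134) (nat_lit 9) (.e (nat_lit 2992) (nat_lit 186) (.e (nat_lit 442406) (nat_lit 20) .nil))))))) (.g (nat_lit 1) (.e (nat_lit 74573) (nat_lit 0) .nil) .nil))) 
(.lf (nat_lit 465694) (.g (nat_lit 3243) (.e (nat_lit 3238) (nat_lit 197) (.e (nat_lit 532550) (nat_lit 12) (.e (nat_lit 360475) (nat_lit 8) (.e (nat_lit 557091) (nat_lit 12) (.e (nat_lit 164022) (nat_lit 46) (.e (nat_lit 704735) (nat_lit 11) (.e (nat_lit 16396) (nat_lit 0) .nil))))))) (.g (nat_lit 1) (.e (nat_lit 75257) (nat_lit 0) .nil) .nil))))) (.nd (nat_lit 8) (.nd (nat_lit 9) 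
(.lf (nat_lit 465054) (.g (nat_lit 915) (.e (nat_lit 3238) (nat_lit 197) (.e (nat_lit 532500) (nat_lit 1) (.e (nat_lit 57851) (nat_lit 252) (.e (nat_lit 57406) (nat_lit 12) .nil)))) (.g (nat_lit 0) (.e (nat_lit 74399) (nat_lit 0) .nil) .nil))) 
(.lf (nat_lit 465566) (.g (nat_lit 4021) (.e (nat_lit 3238) (nat_lit 197) (.e (nat_lit 532549) (nat_lit 12) (.e (nat_lit 360475) (nat_lit 8) (.e (nat_lit 557087) (nat_lit 11) (.e (nat_lit 24663) (nat_lit 14) (.e (nat_lit 401414) (nat_lit 0) .nil)))))) (.g (nat_lit 1) (.e (nat_lit 75122) (nat_lit 0) .nil) .nil)))) (.nd (nat_lit 9) 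
(.lf (nat_lit 465310) (.g (nat_lit 4416) (.e (nat_lit 3238) (nat_lit 197) (.e (nat_lit 532523) (nat_lit 7) (.e (nat_lit 319533) (nat_lit 16) (.e (nat_lit 286735) (nat_lit 3) (.e (nat_lit 98370) (nat_lit 28) (.e (nat_lit 442404) (nat_lit 20) .nil)))))) (.g (nat_lit 1) (.e (nat_lit 74703) (nat_lit 0) .nil) .nil))) 
(.lf (nat_lit 465822) (.g (nat_lit 2215) (.e (nat_lit 3240) (nat_lit 197) (.e (nat_lit 532499) (nat_lit 1) (.e (nat_lit 57927) (nat_lit 282) (.e (nat_lit 163868) (nat_lit 2) (.e (nat_lit 196670) (nat_lit 14) (.e (nat_lit 73746) (nat_lit 3) (.e (nat_lit 516129) (nat_lit 3) (.e (nat_lit 221196) (nat_lit 20) .nil)))))))) (.g (nat_lit 1) (.e (nat_lit 75468) (nat_lit 0) .nil) .nil)))))) 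
(.nd (nat_lit 7) (.nd (nat_lit 8) (.nd (nat_lit 9) 
(.lf (nat_lit 464990) (.g (nat_lit 2618) (.e (nat_lit 3233) (nat_lit 197) (.e (nat_lit 532563) (nat_lit 15) (.e (nat_lit 385066) (nat_lit 26) (.e (nat_lit 532534) (nat_lit 9) (.e (nat_lit 336326) (nat_lit 18) (.e (nat_lit 204854) (nat_lit 26) (.e (nat_lit 336247) (nat_lit 15) .nil))))))) (.g (nat_lit 1) (.e (nat_lit 74283) (nat_lit 0) .nil) .nil))) 
(.lf (nat_lit 465502) (.g (nat_lit 3954) (.e (nat_lit 3238) (nat_lit 197) (.e (nat_lit 532549) (nat_lit 12) (.e (nat_lit 360466) (nat_lit 3) (.e (nat_lit 516138) (nat_lit 7) (.e (nat_lit 409646) (nat_lit 18) (.e (nat_lit 303111) (nat_lit 0) .nil)))))) (.g (nat_lit 1) (.e (nat_lit 75054) (nat_lit 0) .nil) .nil)))) (.nd (nat_lit 9) 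
(.lf (nat_lit 465246) (.g (nat_lit 3379) (.e (nat_lit 3238) (nat_lit 197) (.e (nat_lit 532523) (nat_lit 7) (.e (nat_lit 319531) (nat_lit 16) (.e (nat_lit 286735) (nat_lit 3) (.e (nat_lit 98370) (nat_lit 28) (.e (nat_lit 442410) (nat_lit 20) .nil)))))) (.g (nat_lit 1) (.e (nat_lit 74637) (nat_lit 0) .nil) .nil))) 
(.lf (nat_lit 465758) (.g (nat_lit 1969) (.e (nat_lit 3239) (nat_lit 197) (.e (nat_lit 532504) (nat_lit 1) (.e (nat_lit 57851) (nat_lit 252) (.e (nat_lit 57406) (nat_lit 12) .nil)))) (.g (nat_lit 0) (.e (nat_lit 75386) (nat_lit 0) .nil) .nil))))) (.nd (nat_lit 8) (.nd (nat_lit 9) 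
(.lf (nat_lit 465118) (.g (nat_lit 2253) (.e (nat_lit 3238) (nat_lit 197) (.e (nat_lit 532504) (nat_lit 1) (.e (nat_lit 57851) (nat_lit 252) (.e (nat_lit 57406) (nat_lit 12) .nil)))) (.g (nat_lit 0) (.e (nat_lit 74470) (nat_lit 0) .nil) .nil))) 
(.lf (nat_lit 465630) (.g (nat_lit 5313) (.e (nat_lit 3238) (nat_lit 197) (.e (nat_lit 532550) (nat_lit 12) (.e (nat_lit 360475) (nat_lit 8) (.e (nat_lit 557085) (nat_lit 11) (.e (nat_lit 24665) (nat_lit 14) (.e (nat_lit 401408) (nat_lit 0) .nil)))))) (.g (nat_lit 1) (.e (nat_lit 75193) (nat_lit 0) .nil) .nil)))) (.nd (nat_lit 9) 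
(.lf (nat_lit 465374) (.g (nat_lit 5090) (.e (nat_lit 3238) (nat_lit 197) (.e (nat_lit 532523) (nat_lit 7) (.e (nat_lit 319534) (nat_lit 16) (.e (nat_lit 286735) (nat_lit 3) (.e (nat_lit 98370) (nat_lit 28) (.e (nat_lit 442404) (nat_lit 20) .nil)))))) (.g (nat_lit 1) (.e (nat_lit 74770) (nat_lit 0) .nil) .nil))) 
(.lf (nat_lit 465886) (.g (nat_lit 5009) (.e (nat_lit 3243) (nat_lit 197) (.e (nat_lit 532550) (nat_lit 12) (.e (nat_lit 360475) (nat_lit 8) (.e (nat_lit 557091) (nat_lit 12) (.e (nat_lit 164022) (nat_lit 46) .nil))))) (.g (nat_lit 0) (.e (nat_lit 75592) (nat_lit 0) .nil) .nil))))))) (.nd (nat_lit 6) (.nd (nat_lit 7) (.nd (nat_lit 8) (.nd (nat_lit 9) 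
(.lf (nat_lit 464958) (.g (nat_lit 4745) (.e (nat_lit 3233) (nat_lit 197) (.e (nat_lit 532550) (nat_lit 12) (.e (nat_lit 360475) (nat_lit 8) (.e (nat_lit 557089) (nat_lit 12) (.e (nat_lit 163849) (nat_lit 0) .nil))))) (.g (nat_lit 0) (.e (nat_lit 74239) (nat_lit 0) .nil) .nil))) 
(.lf (nat_lit 465470) (.g (nat_lit 2928) (.e (nat_lit 3238) (nat_lit 197) (.e (nat_lit 532535) (nat_lit 9) (.e (nat_lit 336176) (nat_lit 10) (.e (nat_lit 344120) (nat_lit 21) (.e (nat_lit 516139) (nat_lit 7) (.e (nat_lit 409649) (nat_lit 18) (.e (nat_lit 303111) (nat_lit 0) .nil))))))) (.g (nat_lit 1) (.e (nat_lit 74915) (nat_lit 0) .nil) .nil)))) (.nd (nat_lit 9) 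
(.lf (nat_lit 465214) (.g (nat_lit 3267) (.e (nat_lit 3238) (nat_lit 197) (.e (nat_lit 532523) (nat_lit 7) (.e (nat_lit 319530) (nat_lit 16) (.e (nat_lit 286735) (nat_lit 3) (.e (nat_lit 98369) (nat_lit 28) (.e (nat_lit 442404) (nat_lit 20) .nil)))))) (.g (nat_lit 1) (.e (nat_lit 74605) (nat_lit 0) .nil) .nil))) 
(.lf (nat_lit 465726) (.g (nat_lit 2840) (.e (nat_lit 3238) (nat_lit 197) (.e (nat_lit 532563) (nat_lit 15) (.e (nat_lit 385066) (nat_lit 26) (.e (nat_lit 532565) (nat_lit 15) (.e (nat_lit 385066) (nat_lit 26) (.e (nat_lit 532532) (nat_lit 9) (.e (nat_lit 336306) (nat_lit 15) .nil))))))) (.g (nat_lit 1) (.e (nat_lit 75292) (nat_lit 0) .nil) .nil))))) (.nd (nat_lit 8) (.nd (nat_lit 9) 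
(.lf (nat_lit 465086) (.g (nat_lit 3268) (.e (nat_lit 3238) (nat_lit 197) (.e (nat_lit 532501) (nat_lit 1) (.e (nat_lit 57851) (nat_lit 252) (.e (nat_lit 57406) (nat_lit 12) (.e (nat_lit 336454) (nat_lit 34) (.e (nat_lit 483382) (nat_lit 23) (.e (nat_lit 336306) (nat_lit 15) .nil))))))) (.g (nat_lit 1) (.e (nat_lit 74432) (nat_lit 0) .nil) .nil))) 
(.lf (nat_lit 465598) (.g (nat_lit 4583) (.e (nat_lit 3238) (nat_lit 197) (.e (nat_lit 532550) (nat_lit 12) (.e (nat_lit 360474) (nat_lit 8) (.e (nat_lit 557085) (nat_lit 11) (.e (nat_lit 24665) (nat_lit 14) (.e (nat_lit 401413) (nat_lit 0) .nil)))))) (.g (nat_lit 1) (.e (nat_lit 75160) (nat_lit 0) .nil) .nil)))) (.nd (nat_lit 9) 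
(.lf (nat_lit 465342) (.g (nat_lit 4005) (.e (nat_lit 3238) (nat_lit 197) (.e (nat_lit 532523) (nat_lit 7) (.e (nat_lit 319534) (nat_lit 16) (.e (nat_lit 286733) (nat_lit 2) (.e (nat_lit 90176) (nat_lit 15) (.e (nat_lit 188438) (nat_lit 20) .nil)))))) (.g (nat_lit 1) (.e (nat_lit 74738) (nat_lit 0) .nil) .nil))) 
(.lf (nat_lit 465854) (.g (nat_lit 2131) (.e (nat_lit 3241) (nat_lit 197) (.e (nat_lit 532500) (nat_lit 1) (.e (nat_lit 57927) (nat_lit 282) (.e (nat_lit 163871) (nat_lit 2) (.e (nat_lit 196670) (nat_lit 14) (.e (nat_lit 73746) (nat_lit 3) (.e (nat_lit 516129) (nat_lit 3) (.e (nat_lit 221196) (nat_lit 20) .nil)))))))) (.g (nat_lit 1) (.e (nat_lit 75520) (nat_lit 0) .nil) .nil)))))) 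
(.nd (nat_lit 7) (.nd (nat_lit 8) (.nd (nat_lit 9) 
(.lf (nat_lit 465022) (.g (nat_lit 3440) (.e (nat_lit 3238) (nat_lit 197) (.e (nat_lit 532482) (nat_lit 0) (.e (nat_lit 6724) (nat_lit 362) (.e (nat_lit 180243) (nat_lit 5) (.e (nat_lit 532563) (nat_lit 15) (.e (nat_lit 385104) (nat_lit 50) (.e (nat_lit 786436) (nat_lit 0) .nil))))))) (.g (nat_lit 1) (.e (nat_lit 74354) (nat_lit 0) .nil) .nil))) 
(.lf (nat_lit 465534) (.g (nat_lit 3727) (.e (nat_lit 3238) (nat_lit 197) (.e (nat_lit 532549) (nat_lit 12) (.e (nat_lit 360473) (nat_lit 8) (.e (nat_lit 557091) (nat_lit 12) (.e (nat_lit 164022) (nat_lit 46) (.e (nat_lit 704738) (nat_lit 11) (.e (nat_lit 16397) (nat_lit 0) .nil))))))) (.g (nat_lit 1) (.e (nat_lit 75089) (nat_lit 0) .nil) .nil)))) (.nd (nat_lit 9) 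
(.lf (nat_lit 465278) (.g (nat_lit 2788) (.e (nat_lit 3238) (nat_lit 197) (.e (nat_lit 532523) (nat_lit 7) (.e (nat_lit 319533) (nat_lit 16) (.e (nat_lit 286732) (nat_lit 2) (.e (nat_lit 90177) (nat_lit 15) (.e (nat_lit 188437) (nat_lit 20) .nil)))))) (.g (nat_lit 1) (.e (nat_lit 74670) (nat_lit 0) .nil) .nil))) 
(.lf (nat_lit 465790) (.g (nat_lit 2216) (.e (nat_lit 3237) (nat_lit 197) (.e (nat_lit 532530) (nat_lit 9) (.e (nat_lit 336326) (nat_lit 18) (.e (nat_lit 204880) (nat_lit 32) (.e (nat_lit 385066) (nat_lit 26) .nil))))) (.g (nat_lit 0) (.e (nat_lit 75426) (nat_lit 0) .nil) .nil))))) (.nd (nat_lit 8) (.nd (nat_lit 9) 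
(.lf (nat_lit 465150) (.g (nat_lit 3588) (.e (nat_lit 3238) (nat_lit 197) (.e (nat_lit 532513) (nat_lit 3) (.e (nat_lit 114714) (nat_lit 22) (.e (nat_lit 90174) (nat_lit 14) (.e (nat_lit 180243) (nat_lit 5) (.e (nat_lit 532504) (nat_lit 1) (.e (nat_lit 57693) (nat_lit 157) (.e (nat_lit 229379) (nat_lit 0) .nil)))))))) (.g (nat_lit 1) (.e (nat_lit 74521) (nat_lit 0) .nil) .nil))) 
(.lf (nat_lit 465662) (.g (nat_lit 3559) (.e (nat_lit 3238) (nat_lit 197) (.e (nat_lit 532550) (nat_lit 12) (.e (nat_lit 360475) (nat_lit 8) (.e (nat_lit 557089) (nat_lit 12) (.e (nat_lit 163848) (nat_lit 0) (.e (nat_lit 6416) (nat_lit 341) (.e (nat_lit 163908) (nat_lit 12) (.e (nat_lit 426003) (nat_lit 0) .nil)))))))) (.g (nat_lit 1) (.e (nat_lit 75225) (nat_lit 0) .nil) .nil)))) 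
(.nd (nat_lit 9) 
(.lf (nat_lit 465406) (.g (nat_lit 6766) (.e (nat_lit 3238) (nat_lit 197) (.e (nat_lit 532535) (nat_lit 9) (.e (nat_lit 336099) (nat_lit 9) (.e (nat_lit 336013) (nat_lit 2) (.e (nat_lit 90121) (nat_lit 9) (.e (nat_lit 2830) (nat_lit 182) (.e (nat_lit 409648) (nat_lit 18) (.e (nat_lit 303104) (nat_lit 0) .nil)))))))) (.g (nat_lit 1) (.e (nat_lit 74845) (nat_lit 0) .nil) .nil))) 
(.lf (nat_lit 465918) (.g (nat_lit 4807) (.e (nat_lit 3242) (nat_lit 197) (.e (nat_lit 532550) (nat_lit 12) (.e (nat_lit 360474) (nat_lit 8) (.e (nat_lit 557093) (nat_lit 12) (.e (nat_lit 164022) (nat_lit 46) (.e (nat_lit 704736) (nat_lit 11) (.e (nat_lit 16389) (nat_lit 0) .nil))))))) (.g (nat_lit 1) (.e (nat_lit 75641) (nat_lit 0) .nil) .nil)))))))))))) 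
(.nd (nat_lit 1) (.nd (nat_lit 2) (.nd (nat_lit 3) (.nd (nat_lit 4) (.nd (nat_lit 5) 
(.nd (nat_lit 6) (.nd (nat_lit 7) (.nd (nat_lit 8) (.nd (nat_lit 9) 
(.lf (nat_lit 464897) (.g (nat_lit 4997) (.e (nat_lit 3234) (nat_lit 197) (.e (nat_lit 532550) (nat_lit 12) (.e (nat_lit 360475) (nat_lit 8) (.e (nat_lit 557086) (nat_lit 11) .nil)))) (.g (nat_lit 0) (.e (nat_lit 74076) (nat_lit 0) .nil) .nil))) 
(.lf (nat_lit 465409) (.g (nat_lit 6081) (.e (nat_lit 3238) (nat_lit 197) (.e (nat_lit 532535) (nat_lit 9) (.e (nat_lit 336099) (nat_lit 9) (.e (nat_lit 336013) (nat_lit 2) (.e (nat_lit 90121) (nat_lit 9) (.e (nat_lit 2830) (nat_lit 182) (.e (nat_lit 409649) (nat_lit 18) (.e (nat_lit 303111) (nat_lit 0) .nil)))))))) (.g (nat_lit 1) (.e (nat_lit 74848) (nat_lit 0) .nil) .nil)))) (.nd (nat_lit 9) 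
(.lf (nat_lit 465153) (.g (nat_lit 2777) (.e (nat_lit 3238) (nat_lit 197) (.e (nat_lit 532522) (nat_lit 7) (.e (nat_lit 319531) (nat_lit 16) (.e (nat_lit 286733) (nat_lit 2) (.e (nat_lit 90134) (nat_lit 9) .nil))))) (.g (nat_lit 0) (.e (nat_lit 74544) (nat_lit 0) .nil) .nil))) 
(.lf (nat_lit 465665) (.g (nat_lit 3704) (.e (nat_lit 3238) (nat_lit 197) (.e (nat_lit 532550) (nat_lit 12) (.e (nat_lit 360475) (nat_lit 8) (.e (nat_lit 557089) (nat_lit 12) (.e (nat_lit 163848) (nat_lit 0) (.e (nat_lit 6418) (nat_lit 341) (.e (nat_lit 163908) (nat_lit 12) (.e (nat_lit 426039) (nat_lit 0) .nil)))))))) (.g (nat_lit 1) (.e (nat_lit 75228) (nat_lit 0) .nil) .nil))))) 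
(.nd (nat_lit 8) (.nd (nat_lit 9) 
(.lf (nat_lit 465025) (.g (nat_lit 3095) (.e (nat_lit 3238) (nat_lit 197) (.e (nat_lit 532482) (nat_lit 0) (.e (nat_lit 6724) (nat_lit 362) (.e (nat_lit 180243) (nat_lit 5) (.e (nat_lit 532566) (nat_lit 15) (.e (nat_lit 385104) (nat_lit 50) (.e (nat_lit 786436) (nat_lit 0) .nil))))))) (.g (nat_lit 1) (.e (nat_lit 74357) (nat_lit 0) .nil) .nil))) 
(.lf (nat_lit 465537) (.g (nat_lit 3398) (.e (nat_lit 3238) (nat_lit 197) (.e (nat_lit 532549) (nat_lit 12) (.e (nat_lit 360473) (nat_lit 8) (.e (nat_lit 557093) (nat_lit 12) (.e (nat_lit 164022) (nat_lit 46) (.e (nat_lit 704737) (nat_lit 11) (.e (nat_lit 16396) (nat_lit 0) .nil))))))) (.g (nat_lit 1) (.e (nat_lit 75092) (nat_lit 0) .nil) .nil)))) (.nd (nat_lit 9) 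
(.lf (nat_lit 465281) (.g (nat_lit 3846) (.e (nat_lit 3238) (nat_lit 197) (.e (nat_lit 532523) (nat_lit 7) (.e (nat_lit 319533) (nat_lit 16) (.e (nat_lit 286732) (nat_lit 2) (.e (nat_lit 90178) (nat_lit 15) (.e (nat_lit 188440) (nat_lit 20) .nil)))))) (.g (nat_lit 1) (.e (nat_lit 74673) (nat_lit 0) .nil) .nil))) 
(.lf (nat_lit 465793) (.g (nat_lit 3515) (.e (nat_lit 3237) (nat_lit 197) (.e (nat_lit 532535) (nat_lit 9) (.e (nat_lit 336173) (nat_lit 10) (.e (nat_lit 344126) (nat_lit 25) (.e (nat_lit 548889) (nat_lit 9) .nil))))) (.g (nat_lit 0) (.e (nat_lit 75431) (nat_lit 0) .nil) .nil)))))) (.nd (nat_lit 7) (.nd (nat_lit 8) (.nd (nat_lit 9) 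
(.lf (nat_lit 464961) (.g (nat_lit 4436) (.e (nat_lit 3233) (nat_lit 197) (.e (nat_lit 532550) (nat_lit 12) (.e (nat_lit 360475) (nat_lit 8) (.e (nat_lit 557091) (nat_lit 12) (.e (nat_lit 163843) (nat_lit 0) .nil))))) (.g (nat_lit 0) (.e (nat_lit 74243) (nat_lit 0) .nil) .nil))) 
(.lf (nat_lit 465473) (.g (nat_lit 1058) (.e (nat_lit 3238) (nat_lit 197) (.e (nat_lit 532535) (nat_lit 9) (.e (nat_lit 336176) (nat_lit 10) (.e (nat_lit 344133) (nat_lit 26) .nil)))) (.g (nat_lit 0) (.e (nat_lit 74959) (nat_lit 0) .nil) .nil)))) (.nd (nat_lit 9) 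
(.lf (nat_lit 465217) (.g (nat_lit 3506) (.e (nat_lit 3238) (nat_lit 197) (.e (nat_lit 532523) (nat_lit 7) (.e (nat_lit 319530) (nat_lit 16) (.e (nat_lit 286735) (nat_lit 3) (.e (nat_lit 98371) (nat_lit 28) (.e (nat_lit 442406) (nat_lit 20) .nil)))))) (.g (nat_lit 1) (.e (nat_lit 74608) (nat_lit 0) .nil) .nil))) 
(.lf (nat_lit 465729) (.g (nat_lit 3470) (.e (nat_lit 3238) (nat_lit 197) (.e (nat_lit 532564) (nat_lit 15) (.e (nat_lit 385066) (nat_lit 26) (.e (nat_lit 532530) (nat_lit 9) (.e (nat_lit 336324) (nat_lit 18) (.e (nat_lit 204854) (nat_lit 26) (.e (nat_lit 336306) (nat_lit 15) .nil))))))) (.g (nat_lit 1) (.e (nat_lit 75295) (nat_lit 0) .nil) .nil))))) (.nd (nat_lit 8) (.nd (nat_lit 9) 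
(.lf (nat_lit 465089) (.g (nat_lit 4060) (.e (nat_lit 3238) (nat_lit 197) (.e (nat_lit 532501) (nat_lit 1) (.e (nat_lit 57851) (nat_lit 252) (.e (nat_lit 57406) (nat_lit 12) (.e (nat_lit 336456) (nat_lit 34) (.e (nat_lit 483379) (nat_lit 23) (.e (nat_lit 336306) (nat_lit 15) .nil))))))) (.g (nat_lit 1) (.e (nat_lit 74435) (nat_lit 0) .nil) .nil))) 
(.lf (nat_lit 465601) (.g (nat_lit 2591) (.e (nat_lit 3238) (nat_lit 197) (.e (nat_lit 532550) (nat_lit 12) (.e (nat_lit 360474) (nat_lit 8) (.e (nat_lit 557093) (nat_lit 12) (.e (nat_lit 164022) (nat_lit 46) (.e (nat_lit 704736) (nat_lit 11) (.e (nat_lit 16384) (nat_lit 0) .nil))))))) (.g (nat_lit 1) (.e (nat_lit 75163) (nat_lit 0) .nil) .nil)))) (.nd (nat_lit 9) 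
(.lf (nat_lit 465345) (.g (nat_lit 3276) (.e (nat_lit 3238) (nat_lit 197) (.e (nat_lit 532523) (nat_lit 7) (.e (nat_lit 319534) (nat_lit 16) (.e (nat_lit 286733) (nat_lit 2) (.e (nat_lit 90177) (nat_lit 15) (.e (nat_lit 188424) (nat_lit 20) .nil)))))) (.g (nat_lit 1) (.e (nat_lit 74741) (nat_lit 0) .nil) .nil))) 
(.lf (nat_lit 465857) (.g (nat_lit 2372) (.e (nat_lit 3241) (nat_lit 197) (.e (nat_lit 532535) (nat_lit 9) (.e (nat_lit 336099) (nat_lit 9) (.e (nat_lit 336028) (nat_lit 3) .nil)))) (.g (nat_lit 0) (.e (nat_lit 75536) (nat_lit 0) .nil) .nil))))))) (.nd (nat_lit 6) (.nd (nat_lit 7) (.nd (nat_lit 8) (.nd (nat_lit 9) 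
(.lf (nat_lit 464929) (.g (nat_lit 963) (.e (nat_lit 3233) (nat_lit 197) (.e (nat_lit 532510) (nat_lit 2) (.e (nat_lit 106536) (nat_lit 11) (.e (nat_lit 16413) (nat_lit 2) (.e (nat_lit 196672) (nat_lit 15) (.e (nat_lit 89856) (nat_lit 0) .nil)))))) (.g (nat_lit 1) (.e (nat_lit 74130) (nat_lit 0) .nil) .nil))) 
(.lf (nat_lit 465441) (.g (nat_lit 3116) (.e (nat_lit 3238) (nat_lit 197) (.e (nat_lit 532535) (nat_lit 9) (.e (nat_lit 336110) (nat_lit 9) (.e (nat_lit 336028) (nat_lit 3) (.e (nat_lit 98350) (nat_lit 24) (.e (nat_lit 409648) (nat_lit 18) (.e (nat_lit 303104) (nat_lit 0) .nil))))))) (.g (nat_lit 1) (.e (nat_lit 74880) (nat_lit 0) .nil) .nil)))) (.nd (nat_lit 9) 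
(.lf (nat_lit 465185) (.g (nat_lit 2740) (.e (nat_lit 3238) (nat_lit 197) (.e (nat_lit 532523) (nat_lit 7) (.e (nat_lit 319529) (nat_lit 16) (.e (nat_lit 286733) (nat_lit 2) (.e (nat_lit 90177) (nat_lit 15) (.e (nat_lit 188435) (nat_lit 20) .nil)))))) (.g (nat_lit 1) (.e (nat_lit 74576) (nat_lit 0) .nil) .nil))) 
(.lf (nat_lit 465697) (.g (nat_lit 3996) (.e (nat_lit 3238) (nat_lit 197) (.e (nat_lit 532550) (nat_lit 12) (.e (nat_lit 360475) (nat_lit 8) (.e (nat_lit 557091) (nat_lit 12) (.e (nat_lit 164022) (nat_lit 46) (.e (nat_lit 704737) (nat_lit 11) (.e (nat_lit 16384) (nat_lit 0) .nil))))))) (.g (nat_lit 1) (.e (nat_lit 75260) (nat_lit 0) .nil) .nil))))) (.nd (nat_lit 8) (.nd (nat_lit 9) 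
(.lf (nat_lit 465057) (.g (nat_lit 2251) (.e (nat_lit 3238) (nat_lit 197) (.e (nat_lit 532500) (nat_lit 1) (.e (nat_lit 57851) (nat_lit 252) (.e (nat_lit 57406) (nat_lit 12) (.e (nat_lit 336367) (nat_lit 27) (.e (nat_lit 426555) (nat_lit 32) (.e (nat_lit 384768) (nat_lit 0) .nil))))))) (.g (nat_lit 1) (.e (nat_lit 74402) (nat_lit 0) .nil) .nil))) 
(.lf (nat_lit 465569) (.g (nat_lit 4164) (.e (nat_lit 3238) (nat_lit 197) (.e (nat_lit 532549) (nat_lit 12) (.e (nat_lit 360475) (nat_lit 8) (.e (nat_lit 557087) (nat_lit 11) (.e (nat_lit 24665) (nat_lit 14) (.e (nat_lit 401413) (nat_lit 0) .nil)))))) (.g (nat_lit 1) (.e (nat_lit 75125) (nat_lit 0) .nil) .nil)))) (.nd (nat_lit 9) 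
(.lf (nat_lit 465313) (.g (nat_lit 3800) (.e (nat_lit 3238) (nat_lit 197) (.e (nat_lit 532523) (nat_lit 7) (.e (nat_lit 319533) (nat_lit 16) (.e (nat_lit 286735) (nat_lit 3) (.e (nat_lit 98371) (nat_lit 28) (.e (nat_lit 442406) (nat_lit 20) .nil)))))) (.g (nat_lit 1) (.e (nat_lit 74706) (nat_lit 0) .nil) .nil))) 
(.lf (nat_lit 465825) (.g (nat_lit 2356) (.e (nat_lit 3240) (nat_lit 197) (.e (nat_lit 532499) (nat_lit 1) (.e (nat_lit 57927) (nat_lit 282) (.e (nat_lit 163869) (nat_lit 2) (.e (nat_lit 196668) (nat_lit 14) (.e (nat_lit 73747) (nat_lit 3) (.e (nat_lit 516129) (nat_lit 3) (.e (nat_lit 221196) (nat_lit 20) .nil)))))))) (.g (nat_lit 1) (.e (nat_lit 75471) (nat_lit 0) .nil) .nil)))))) 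
(.nd (nat_lit 7) (.nd (nat_lit 8) (.nd (nat_lit 9) 
(.lf (nat_lit 464993) (.g (nat_lit 2421) (.e (nat_lit 3233) (nat_lit 197) (.e (nat_lit 532569) (nat_lit 16) (.e (nat_lit 401448) (nat_lit 10) (.e (nat_lit 434232) (nat_lit 23) .nil)))) (.g (nat_lit 0) (.e (nat_lit 74294) (nat_lit 0) .nil) .nil))) 
(.lf (nat_lit 465505) (.g (nat_lit 4048) (.e (nat_lit 3238) (nat_lit 197) (.e (nat_lit 532549) (nat_lit 12) (.e (nat_lit 360466) (nat_lit 3) (.e (nat_lit 516139) (nat_lit 7) (.e (nat_lit 409648) (nat_lit 18) (.e (nat_lit 303104) (nat_lit 0) .nil)))))) (.g (nat_lit 1) (.e (nat_lit 75057) (nat_lit 0) .nil) .nil)))) (.nd (nat_lit 9) 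
(.lf (nat_lit 465249) (.g (nat_lit 3478) (.e (nat_lit 3238) (nat_lit 197) (.e (nat_lit 532523) (nat_lit 7) (.e (nat_lit 319531) (nat_lit 16) (.e (nat_lit 286735) (nat_lit 3) (.e (nat_lit 98371) (nat_lit 28) (.e (nat_lit 442404) (nat_lit 20) .nil)))))) (.g (nat_lit 1) (.e (nat_lit 74640) (nat_lit 0) .nil) .nil))) 
(.lf (nat_lit 465761) (.g (nat_lit 908) (.e (nat_lit 3239) (nat_lit 197) (.e (nat_lit 532511) (nat_lit 2) (.e (nat_lit 106536) (nat_lit 11) (.e (nat_lit 16413) (nat_lit 2) (.e (nat_lit 196672) (nat_lit 15) .nil))))) (.g (nat_lit 0) (.e (nat_lit 75389) (nat_lit 0) .nil) .nil))))) (.nd (nat_lit 8) (.nd (nat_lit 9) 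
(.lf (nat_lit 465121) (.g (nat_lit 1744) (.e (nat_lit 3238) (nat_lit 197) (.e (nat_lit 532504) (nat_lit 1) (.e (nat_lit 57852) (nat_lit 252) (.e (nat_lit 57409) (nat_lit 12) .nil)))) (.g (nat_lit 0) (.e (nat_lit 74473) (nat_lit 0) .nil) .nil))) 
(.lf (nat_lit 465633) (.g (nat_lit 1535) (.e (nat_lit 3238) (nat_lit 197) (.e (nat_lit 532550) (nat_lit 12) (.e (nat_lit 360475) (nat_lit 8) (.e (nat_lit 557086) (nat_lit 11) .nil)))) (.g (nat_lit 0) (.e (nat_lit 75196) (nat_lit 0) .nil) .nil)))) (.nd (nat_lit 9) 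
(.lf (nat_lit 465377) (.g (nat_lit 4219) (.e (nat_lit 3238) (nat_lit 197) (.e (nat_lit 532523) (nat_lit 7) (.e (nat_lit 319534) (nat_lit 16) (.e (nat_lit 286735) (nat_lit 3) (.e (nat_lit 98370) (nat_lit 28) (.e (nat_lit 442411) (nat_lit 20) .nil)))))) (.g (nat_lit 1) (.e (nat_lit 74773) (nat_lit 0) .nil) .nil))) 
(.lf (nat_lit 465889) (.g (nat_lit 2430) (.e (nat_lit 3242) (nat_lit 197) (.e (nat_lit 532499) (nat_lit 1) (.e (nat_lit 57927) (nat_lit 282) (.e (nat_lit 163868) (nat_lit 2) (.e (nat_lit 196668) (nat_lit 14) (.e (nat_lit 73746) (nat_lit 3) (.e (nat_lit 516129) (nat_lit 3) (.e (nat_lit 221196) (nat_lit 20) .nil)))))))) (.g (nat_lit 1) (.e (nat_lit 75595) (nat_lit 0) .nil) .nil)))))))) 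
(.nd (nat_lit 5) (.nd (nat_lit 6) (.nd (nat_lit 7) (.nd (nat_lit 8) (.nd (nat_lit 9) 
(.lf (nat_lit 464913) (.g (nat_lit 4304) (.e (nat_lit 3235) (nat_lit 197) (.e (nat_lit 532550) (nat_lit 12) (.e (nat_lit 360474) (nat_lit 8) (.e (nat_lit 557093) (nat_lit 12) .nil)))) (.g (nat_lit 0) (.e (nat_lit 74110) (nat_lit 0) .nil) .nil))) 
(.lf (nat_lit 465425) (.g (nat_lit 4523) (.e (nat_lit 3238) (nat_lit 197) (.e (nat_lit 532535) (nat_lit 9) (.e (nat_lit 336099) (nat_lit 9) (.e (nat_lit 336013) (nat_lit 2) (.e (nat_lit 90134) (nat_lit 9) (.e (nat_lit 2828) (nat_lit 182) (.e (nat_lit 409649) (nat_lit 18) (.e (nat_lit 303104) (nat_lit 0) .nil)))))))) (.g (nat_lit 1) (.e (nat_lit 74864) (nat_lit 0) .nil) .nil)))) (.nd (nat_lit 9) 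
(.lf (nat_lit 465169) (.g (nat_lit 2755) (.e (nat_lit 3238) (nat_lit 197) (.e (nat_lit 532523) (nat_lit 7) (.e (nat_lit 319528) (nat_lit 16) (.e (nat_lit 286733) (nat_lit 2) (.e (nat_lit 90178) (nat_lit 15) (.e (nat_lit 188436) (nat_lit 20) .nil)))))) (.g (nat_lit 1) (.e (nat_lit 74560) (nat_lit 0) .nil) .nil))) 
(.lf (nat_lit 465681) (.g (nat_lit 2062) (.e (nat_lit 3238) (nat_lit 197) (.e (nat_lit 532550) (nat_lit 12) (.e (nat_lit 360475) (nat_lit 8) (.e (nat_lit 557091) (nat_lit 12) (.e (nat_lit 163843) (nat_lit 0) .nil))))) (.g (nat_lit 0) (.e (nat_lit 75244) (nat_lit 0) .nil) .nil))))) (.nd (nat_lit 8) (.nd (nat_lit 9) 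
(.lf (nat_lit 465041) (.g (nat_lit 3370) (.e (nat_lit 3238) (nat_lit 197) (.e (nat_lit 532499) (nat_lit 1) (.e (nat_lit 57927) (nat_lit 282) (.e (nat_lit 163868) (nat_lit 2) (.e (nat_lit 196670) (nat_lit 14) (.e (nat_lit 73746) (nat_lit 3) (.e (nat_lit 516129) (nat_lit 3) (.e (nat_lit 221195) (nat_lit 20) .nil)))))))) (.g (nat_lit 1) (.e (nat_lit 74382) (nat_lit 0) .nil) .nil))) 
(.lf (nat_lit 465553) (.g (nat_lit 2779) (.e (nat_lit 3238) (nat_lit 197) (.e (nat_lit 532549) (nat_lit 12) (.e (nat_lit 360474) (nat_lit 8) (.e (nat_lit 557093) (nat_lit 12) (.e (nat_lit 164022) (nat_lit 46) (.e (nat_lit 704738) (nat_lit 11) (.e (nat_lit 16396) (nat_lit 0) .nil))))))) (.g (nat_lit 1) (.e (nat_lit 75108) (nat_lit 0) .nil) .nil)))) (.nd (nat_lit 9) 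
(.lf (nat_lit 465297) (.g (nat_lit 2708) (.e (nat_lit 3238) (nat_lit 197) (.e (nat_lit 532523) (nat_lit 7) (.e (nat_lit 319533) (nat_lit 16) (.e (nat_lit 286734) (nat_lit 3) (.e (nat_lit 98371) (nat_lit 28) .nil))))) (.g (nat_lit 0) (.e (nat_lit 74690) (nat_lit 0) .nil) .nil))) 
(.lf (nat_lit 465809) (.g (nat_lit 5153) (.e (nat_lit 3237) (nat_lit 197) (.e (nat_lit 532550) (nat_lit 12) (.e (nat_lit 360475) (nat_lit 8) (.e (nat_lit 557087) (nat_lit 11) .nil)))) (.g (nat_lit 0) (.e (nat_lit 75454) (nat_lit 0) .nil) .nil)))))) (.nd (nat_lit 7) (.nd (nat_lit 8) (.nd (nat_lit 9) 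
(.lf (nat_lit 464977) (.g (nat_lit 3228) (.e (nat_lit 3233) (nat_lit 197) (.e (nat_lit 532560) (nat_lit 14) (.e (nat_lit 376865) (nat_lit 22) (.e (nat_lit 90185) (nat_lit 17) (.e (nat_lit 237585) (nat_lit 1) (.e (nat_lit 164402) (nat_lit 256) (.e (nat_lit 57580) (nat_lit 61) .nil))))))) (.g (nat_lit 1) (.e (nat_lit 74270) (nat_lit 0) .nil) .nil))) 
(.lf (nat_lit 465489) (.g (nat_lit 2808) (.e (nat_lit 3238) (nat_lit 197) (.e (nat_lit 532547) (nat_lit 11) (.e (nat_lit 352314) (nat_lit 23) (.e (nat_lit 98350) (nat_lit 24) (.e (nat_lit 409649) (nat_lit 18) (.e (nat_lit 303104) (nat_lit 0) .nil)))))) (.g (nat_lit 1) (.e (nat_lit 75041) (nat_lit 0) .nil) .nil)))) (.nd (nat_lit 9) 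
(.lf (nat_lit 465233) (.g (nat_lit 3973) (.e (nat_lit 3238) (nat_lit 197) (.e (nat_lit 532523) (nat_lit 7) (.e (nat_lit 319531) (nat_lit 16) (.e (nat_lit 286733) (nat_lit 2) (.e (nat_lit 90177) (nat_lit 15) (.e (nat_lit 188435) (nat_lit 20) .nil)))))) (.g (nat_lit 1) (.e (nat_lit 74624) (nat_lit 0) .nil) .nil))) 
(.lf (nat_lit 465745) (.g (nat_lit 5168) (.e (nat_lit 3238) (nat_lit 197) (.e (nat_lit 532569) (nat_lit 16) (.e (nat_lit 401451) (nat_lit 12) (.e (nat_lit 475185) (nat_lit 29) (.e (nat_lit 557107) (nat_lit 15) (.e (nat_lit 188424) (nat_lit 20) .nil)))))) (.g (nat_lit 1) (.e (nat_lit 75314) (nat_lit 0) .nil) .nil))))) (.nd (nat_lit 8) (.nd (nat_lit 9) 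
(.lf (nat_lit 465105) (.g (nat_lit 3857) (.e (nat_lit 3238) (nat_lit 197) (.e (nat_lit 532503) (nat_lit 1) (.e (nat_lit 57847) (nat_lit 252) (.e (nat_lit 57411) (nat_lit 12) (.e (nat_lit 336454) (nat_lit 34) (.e (nat_lit 483385) (nat_lit 23) (.e (nat_lit 336306) (nat_lit 15) .nil))))))) (.g (nat_lit 1) (.e (nat_lit 74456) (nat_lit 0) .nil) .nil))) 
(.lf (nat_lit 465617) (.g (nat_lit 4089) (.e (nat_lit 3238) (nat_lit 197) (.e (nat_lit 532550) (nat_lit 12) (.e (nat_lit 360474) (nat_lit 8) (.e (nat_lit 557094) (nat_lit 12) (.e (nat_lit 164022) (nat_lit 46) (.e (nat_lit 704737) (nat_lit 11) (.e (nat_lit 16396) (nat_lit 0) .nil))))))) (.g (nat_lit 1) (.e (nat_lit 75179) (nat_lit 0) .nil) .nil)))) (.nd (nat_lit 9) 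
(.lf (nat_lit 465361) (.g (nat_lit 3770) (.e (nat_lit 3238) (nat_lit 197) (.e (nat_lit 532523) (nat_lit 7) (.e (nat_lit 319534) (nat_lit 16) (.e (nat_lit 286734) (nat_lit 3) (.e (nat_lit 98380) (nat_lit 31) (.e (nat_lit 466955) (nat_lit 20) .nil)))))) (.g (nat_lit 1) (.e (nat_lit 74757) (nat_lit 0) .nil) .nil))) 
(.lf (nat_lit 465873) (.g (nat_lit 3657) (.e (nat_lit 3243) (nat_lit 197) (.e (nat_lit 532535) (nat_lit 9) (.e (nat_lit 336099) (nat_lit 9) (.e (nat_lit 336013) (nat_lit 2) (.e (nat_lit 90165) (nat_lit 12) .nil))))) (.g (nat_lit 0) (.e (nat_lit 75572) (nat_lit 0) .nil) .nil))))))) (.nd (nat_lit 6) (.nd (nat_lit 7) (.nd (nat_lit 8) (.nd (nat_lit 9) 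
(.lf (nat_lit 464945) (.g (nat_lit 893) (.e (nat_lit 3233) (nat_lit 197) (.e (nat_lit 532550) (nat_lit 12) (.e (nat_lit 360474) (nat_lit 8) .nil))) (.g (nat_lit 0) (.e (nat_lit 74218) (nat_lit 0) .nil) .nil))) 
(.lf (nat_lit 465457) (.g (nat_lit 6079) (.e (nat_lit 3238) (nat_lit 197) (.e (nat_lit 532535) (nat_lit 9) (.e (nat_lit 336173) (nat_lit 10) (.e (nat_lit 344117) (nat_lit 21) (.e (nat_lit 516139) (nat_lit 7) (.e (nat_lit 409649) (nat_lit 18) (.e (nat_lit 303111) (nat_lit 0) .nil))))))) (.g (nat_lit 1) (.e (nat_lit 74898) (nat_lit 0) .nil) .nil)))) (.nd (nat_lit 9) 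
(.lf (nat_lit 465201) (.g (nat_lit 3771) (.e (nat_lit 3238) (nat_lit 197) (.e (nat_lit 532523) (nat_lit 7) (.e (nat_lit 319530) (nat_lit 16) (.e (nat_lit 286733) (nat_lit 2) (.e (nat_lit 90134) (nat_lit 9) (.e (nat_lit 3002) (nat_lit 186) (.e (nat_lit 442404) (nat_lit 20) .nil))))))) (.g (nat_lit 1) (.e (nat_lit 74592) (nat_lit 0) .nil) .nil))) 
(.lf (nat_lit 465713) (.g (nat_lit 2704) (.e (nat_lit 3238) (nat_lit 197) (.e (nat_lit 532560) (nat_lit 14) (.e (nat_lit 376868) (nat_lit 23) (.e (nat_lit 98350) (nat_lit 24) (.e (nat_lit 409648) (nat_lit 18) (.e (nat_lit 303108) (nat_lit 0) .nil)))))) (.g (nat_lit 1) (.e (nat_lit 75279) (nat_lit 0) .nil) .nil))))) (.nd (nat_lit 8) (.nd (nat_lit 9) 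
(.lf (nat_lit 465073) (.g (nat_lit 3073) (.e (nat_lit 3238) (nat_lit 197) (.e (nat_lit 532500) (nat_lit 1) (.e (nat_lit 57851) (nat_lit 252) (.e (nat_lit 57406) (nat_lit 12) (.e (nat_lit 336456) (nat_lit 34) (.e (nat_lit 483383) (nat_lit 23) (.e (nat_lit 336303) (nat_lit 15) .nil))))))) (.g (nat_lit 1) (.e (nat_lit 74418) (nat_lit 0) .nil) .nil))) 
(.lf (nat_lit 465585) (.g (nat_lit 2581) (.e (nat_lit 3238) (nat_lit 197) (.e (nat_lit 532550) (nat_lit 12) (.e (nat_lit 360467) (nat_lit 3) (.e (nat_lit 516139) (nat_lit 7) (.e (nat_lit 409648) (nat_lit 18) (.e (nat_lit 303107) (nat_lit 0) .nil)))))) (.g (nat_lit 1) (.e (nat_lit 75146) (nat_lit 0) .nil) .nil)))) (.nd (nat_lit 9) 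
(.lf (nat_lit 465329) (.g (nat_lit 2546) (.e (nat_lit 3238) (nat_lit 197) (.e (nat_lit 532523) (nat_lit 7) (.e (nat_lit 319534) (nat_lit 16) (.e (nat_lit 286732) (nat_lit 2) (.e (nat_lit 90176) (nat_lit 15) (.e (nat_lit 188438) (nat_lit 20) .nil)))))) (.g (nat_lit 1) (.e (nat_lit 74724) (nat_lit 0) .nil) .nil))) 
(.lf (nat_lit 465841) (.g (nat_lit 2006) (.e (nat_lit 3241) (nat_lit 197) (.e (nat_lit 532499) (nat_lit 1) (.e (nat_lit 57927) (nat_lit 282) (.e (nat_lit 163869) (nat_lit 2) (.e (nat_lit 196670) (nat_lit 14) (.e (nat_lit 73746) (nat_lit 3) (.e (nat_lit 516131) (nat_lit 3) (.e (nat_lit 221196) (nat_lit 20) .nil)))))))) (.g (nat_lit 1) (.e (nat_lit 75503) (nat_lit 0) .nil) .nil)))))) 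
(.nd (nat_lit 7) (.nd (nat_lit 8) (.nd (nat_lit 9) 
(.lf (nat_lit 465009) (.g (nat_lit 2494) (.e (nat_lit 3236) (nat_lit 197) (.e (nat_lit 532504) (nat_lit 1) (.e (nat_lit 57851) (nat_lit 252) (.e (nat_lit 57406) (nat_lit 12) (.e (nat_lit 336456) (nat_lit 34) .nil))))) (.g (nat_lit 0) (.e (nat_lit 74329) (nat_lit 0) .nil) .nil))) 
(.lf (nat_lit 465521) (.g (nat_lit 4034) (.e (nat_lit 3238) (nat_lit 197) (.e (nat_lit 532549) (nat_lit 12) (.e (nat_lit 360473) (nat_lit 8) (.e (nat_lit 557087) (nat_lit 11) (.e (nat_lit 24664) (nat_lit 14) (.e (nat_lit 401414) (nat_lit 0) .nil)))))) (.g (nat_lit 1) (.e (nat_lit 75075) (nat_lit 0) .nil) .nil)))) (.nd (nat_lit 9) 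
(.lf (nat_lit 465265) (.g (nat_lit 2362) (.e (nat_lit 3238) (nat_lit 197) (.e (nat_lit 532523) (nat_lit 7) (.e (nat_lit 319532) (nat_lit 16) (.e (nat_lit 286734) (nat_lit 3) (.e (nat_lit 98371) (nat_lit 28) .nil))))) (.g (nat_lit 0) (.e (nat_lit 74656) (nat_lit 0) .nil) .nil))) 
(.lf (nat_lit 465777) (.g (nat_lit 2189) (.e (nat_lit 3237) (nat_lit 197) (.e (nat_lit 532499) (nat_lit 1) (.e (nat_lit 57926) (nat_lit 282) (.e (nat_lit 163869) (nat_lit 2) (.e (nat_lit 196670) (nat_lit 14) (.e (nat_lit 73746) (nat_lit 3) (.e (nat_lit 516129) (nat_lit 3) (.e (nat_lit 221196) (nat_lit 20) .nil)))))))) (.g (nat_lit 1) (.e (nat_lit 75411) (nat_lit 0) .nil) .nil))))) 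
(.nd (nat_lit 8) (.nd (nat_lit 9) 
(.lf (nat_lit 465137) (.g (nat_lit 2845) (.e (nat_lit 3238) (nat_lit 197) (.e (nat_lit 532507) (nat_lit 2) (.e (nat_lit 106536) (nat_lit 11) (.e (nat_lit 16416) (nat_lit 3) (.e (nat_lit 204877) (nat_lit 31) (.e (nat_lit 384768) (nat_lit 0) .nil)))))) (.g (nat_lit 1) (.e (nat_lit 74497) (nat_lit 0) .nil) .nil))) 
(.lf (nat_lit 465649) (.g (nat_lit 3628) (.e (nat_lit 3238) (nat_lit 197) (.e (nat_lit 532550) (nat_lit 12) (.e (nat_lit 360475) (nat_lit 8) (.e (nat_lit 557089) (nat_lit 12) (.e (nat_lit 163843) (nat_lit 0) (.e (nat_lit 6416) (nat_lit 341) (.e (nat_lit 163908) (nat_lit 12) (.e (nat_lit 426039) (nat_lit 0) .nil)))))))) (.g (nat_lit 1) (.e (nat_lit 75212) (nat_lit 0) .nil) .nil)))) 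
(.nd (nat_lit 9) 
(.lf (nat_lit 465393) (.g (nat_lit 2860) (.e (nat_lit 3238) (nat_lit 197) (.e (nat_lit 532530) (nat_lit 9) (.e (nat_lit 336326) (nat_lit 18) (.e (nat_lit 204854) (nat_lit 26) (.e (nat_lit 336326) (nat_lit 18) (.e (nat_lit 204854) (nat_lit 26) (.e (nat_lit 336306) (nat_lit 15) .nil))))))) (.g (nat_lit 1) (.e (nat_lit 74820) (nat_lit 0) .nil) .nil))) 
(.lf (nat_lit 465905) (.g (nat_lit 2669) (.e (nat_lit 3242) (nat_lit 197) (.e (nat_lit 532499) (nat_lit 1) (.e (nat_lit 57927) (nat_lit 282) (.e (nat_lit 163874) (nat_lit 3) (.e (nat_lit 204854) (nat_lit 26) (.e (nat_lit 336019) (nat_lit 3) (.e (nat_lit 98342) (nat_lit 20) (.e (nat_lit 221198) (nat_lit 20) .nil)))))))) (.g (nat_lit 1) (.e (nat_lit 75614) (nat_lit 0) .nil) .nil))))))))) 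
(.nd (nat_lit 4) (.nd (nat_lit 5) (.nd (nat_lit 6) (.nd (nat_lit 7) (.nd (nat_lit 8) 
(.nd (nat_lit 9) 
(.lf (nat_lit 464905) (.g (nat_lit 2502) (.e (nat_lit 3234) (nat_lit 197) (.e (nat_lit 532563) (nat_lit 15) (.e (nat_lit 385066) (nat_lit 26) (.e (nat_lit 532534) (nat_lit 9) (.e (nat_lit 336326) (nat_lit 18) (.e (nat_lit 204854) (nat_lit 26) (.e (nat_lit 336308) (nat_lit 15) .nil))))))) (.g (nat_lit 1) (.e (nat_lit 74102) (nat_lit 0) .nil) .nil))) 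
(.lf (nat_lit 465417) (.g (nat_lit 4938) (.e (nat_lit 3238) (nat_lit 197) (.e (nat_lit 532535) (nat_lit 9) (.e (nat_lit 336099) (nat_lit 9) (.e (nat_lit 336013) (nat_lit 2) (.e (nat_lit 90130) (nat_lit 9) (.e (nat_lit 2830) (nat_lit 182) (.e (nat_lit 409649) (nat_lit 18) (.e (nat_lit 303107) (nat_lit 0) .nil)))))))) (.g (nat_lit 1) (.e (nat_lit 74856) (nat_lit 0) .nil) .nil)))) (.nd (nat_lit 9) 
(.lf (nat_lit 465161) (.g (nat_lit 1711) (.e (nat_lit 3238) (nat_lit 197) (.e (nat_lit 532523) (nat_lit 7) (.e (nat_lit 319528) (nat_lit 16) (.e (nat_lit 286727) (nat_lit 0) (.e (nat_lit 1799) (nat_lit 119) .nil))))) (.g (nat_lit 0) (.e (nat_lit 74552) (nat_lit 0) .nil) .nil))) 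
(.lf (nat_lit 465673) (.g (nat_lit 3200) (.e (nat_lit 3238) (nat_lit 197) (.e (nat_lit 532550) (nat_lit 12) (.e (nat_lit 360475) (nat_lit 8) (.e (nat_lit 557089) (nat_lit 12) (.e (nat_lit 164017) (nat_lit 44) .nil))))) (.g (nat_lit 0) (.e (nat_lit 75236) (nat_lit 0) .nil) .nil))))) (.nd (nat_lit 8) (.nd (nat_lit 9) 
(.lf (nat_lit 465033) (.g (nat_lit 2929) (.e (nat_lit 3238) (nat_lit 197) (.e (nat_lit 532499) (nat_lit 1) (.e (nat_lit 57926) (nat_lit 282) (.e (nat_lit 163869) (nat_lit 2) (.e (nat_lit 196670) (nat_lit 14) (.e (nat_lit 73746) (nat_lit 3) (.e (nat_lit 516129) (nat_lit 3) (.e (nat_lit 221195) (nat_lit 20) .nil)))))))) (.g (nat_lit 1) (.e (nat_lit 74373) (nat_lit 0) .nil) .nil))) 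
(.lf (nat_lit 465545) (.g (nat_lit 2673) (.e (nat_lit 3238) (nat_lit 197) (.e (nat_lit 532549) (nat_lit 12) (.e (nat_lit 360473) (nat_lit 8) (.e (nat_lit 557094) (nat_lit 12) (.e (nat_lit 164022) (nat_lit 46) (.e (nat_lit 704738) (nat_lit 11) (.e (nat_lit 16384) (nat_lit 0) .nil))))))) (.g (nat_lit 1) (.e (nat_lit 75100) (nat_lit 0) .nil) .nil)))) (.nd (nat_lit 9) 
(.lf (nat_lit 465289) (.g (nat_lit 3075) (.e (nat_lit 3238) (nat_lit 197) (.e (nat_lit 532523) (nat_lit 7) (.e (nat_lit 319533) (nat_lit 16) (.e (nat_lit 286733) (nat_lit 2) (.e (nat_lit 90177) (nat_lit 15) (.e (nat_lit 188435) (nat_lit 20) .nil)))))) (.g (nat_lit 1) (.e (nat_lit 74682) (nat_lit 0) .nil) .nil))) 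
(.lf (nat_lit 465801) (.g (nat_lit 4507) (.e (nat_lit 3237) (nat_lit 197) (.e (nat_lit 532550) (nat_lit 12) (.e (nat_lit 360474) (nat_lit 8) (.e (nat_lit 557094) (nat_lit 12) (.e (nat_lit 164022) (nat_lit 46) .nil))))) (.g (nat_lit 0) (.e (nat_lit 75445) (nat_lit 0) .nil) .nil)))))) (.nd (nat_lit 7) (.nd (nat_lit 8) (.nd (nat_lit 9) 
(.lf (nat_lit 464969) (.g (nat_lit 2047) (.e (nat_lit 3233) (nat_lit 197) (.e (nat_lit 532559) (nat_lit 14) (.e (nat_lit 376865) (nat_lit 22) (.e (nat_lit 90185) (nat_lit 17) (.e (nat_lit 237582) (nat_lit 1) .nil))))) (.g (nat_lit 0) (.e (nat_lit 74259) (nat_lit 0) .nil) .nil))) 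
(.lf (nat_lit 465481) (.g (nat_lit 1645) (.e (nat_lit 3238) (nat_lit 197) (.e (nat_lit 532543) (nat_lit 10) (.e (nat_lit 344130) (nat_lit 26) (.e (nat_lit 557104) (nat_lit 14) (.e (nat_lit 188160) (nat_lit 3) (.e (nat_lit 516106) (nat_lit 0) (.e (nat_lit 7936) (nat_lit 219) (.e (nat_lit 712719) (nat_lit 15) .nil)))))))) (.g (nat_lit 1) (.e (nat_lit 75024) (nat_lit 0) .nil) .nil)))) 
(.nd (nat_lit 9) 
(.lf (nat_lit 465225) (.g (nat_lit 1454) (.e (nat_lit 3238) (nat_lit 197) (.e (nat_lit 532523) (nat_lit 7) (.e (nat_lit 319531) (nat_lit 16) (.e (nat_lit 286733) (nat_lit 2) .nil)))) (.g (nat_lit 0) (.e (nat_lit 74616) (nat_lit 0) .nil) .nil))) 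
(.lf (nat_lit 465737) (.g (nat_lit 3129) (.e (nat_lit 3238) (nat_lit 197) (.e (nat_lit 532569) (nat_lit 16) (.e (nat_lit 401448) (nat_lit 10) (.e (nat_lit 434232) (nat_lit 23) (.e (nat_lit 532563) (nat_lit 15) (.e (nat_lit 385106) (nat_lit 50) (.e (nat_lit 786436) (nat_lit 0) .nil))))))) (.g (nat_lit 1) (.e (nat_lit 75304) (nat_lit 0) .nil) .nil))))) (.nd (nat_lit 8) (.nd (nat_lit 9) 
(.lf (nat_lit 465097) (.g (nat_lit 2661) (.e (nat_lit 3238) (nat_lit 197) (.e (nat_lit 532501) (nat_lit 1) (.e (nat_lit 57854) (nat_lit 252) (.e (nat_lit 57445) (nat_lit 19) (.e (nat_lit 393229) (nat_lit 9) (.e (nat_lit 336086) (nat_lit 9) (.e (nat_lit 336306) (nat_lit 15) .nil))))))) (.g (nat_lit 1) (.e (nat_lit 74445) (nat_lit 0) .nil) .nil))) 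
(.lf (nat_lit 465609) (.g (nat_lit 3550) (.e (nat_lit 3238) (nat_lit 197) (.e (nat_lit 532550) (nat_lit 12) (.e (nat_lit 360474) (nat_lit 8) (.e (nat_lit 557093) (nat_lit 12) (.e (nat_lit 164023) (nat_lit 46) (.e (nat_lit 704735) (nat_lit 11) (.e (nat_lit 16396) (nat_lit 0) .nil))))))) (.g (nat_lit 1) (.e (nat_lit 75171) (nat_lit 0) .nil) .nil)))) (.nd (nat_lit 9) 
(.lf (nat_lit 465353) (.g (nat_lit 2609) (.e (nat_lit 3238) (nat_lit 197) (.e (nat_lit 532523) (nat_lit 7) (.e (nat_lit 319534) (nat_lit 16) (.e (nat_lit 286734) (nat_lit 3) (.e (nat_lit 98369) (nat_lit 28) (.e (nat_lit 442392) (nat_lit 20) .nil)))))) (.g (nat_lit 1) (.e (nat_lit 74749) (nat_lit 0) .nil) .nil))) 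
(.lf (nat_lit 465865) (.g (nat_lit 3536) (.e (nat_lit 3241) (nat_lit 197) (.e (nat_lit 532550) (nat_lit 12) (.e (nat_lit 360475) (nat_lit 8) (.e (nat_lit 557089) (nat_lit 12) .nil)))) (.g (nat_lit 0) (.e (nat_lit 75561) (nat_lit 0) .nil) .nil))))))) (.nd (nat_lit 6) (.nd (nat_lit 7) (.nd (nat_lit 8) (.nd (nat_lit 9) 
(.lf (nat_lit 464937) (.g (nat_lit 2815) (.e (nat_lit 3233) (nat_lit 197) (.e (nat_lit 532523) (nat_lit 7) (.e (nat_lit 319534) (nat_lit 16) (.e (nat_lit 286734) (nat_lit 3) (.e (nat_lit 98380) (nat_lit 31) .nil))))) (.g (nat_lit 0) (.e (nat_lit 74192) (nat_lit 0) .nil) .nil))) 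
(.lf (nat_lit 465449) (.g (nat_lit 3348) (.e (nat_lit 3238) (nat_lit 197) (.e (nat_lit 532535) (nat_lit 9) (.e (nat_lit 336163) (nat_lit 10) (.e (nat_lit 344119) (nat_lit 21) (.e (nat_lit 516139) (nat_lit 7) (.e (nat_lit 409648) (nat_lit 18) (.e (nat_lit 303108) (nat_lit 0) .nil))))))) (.g (nat_lit 1) (.e (nat_lit 74889) (nat_lit 0) .nil) .nil)))) (.nd (nat_lit 9) 
(.lf (nat_lit 465193) (.g (nat_lit 3171) (.e (nat_lit 3238) (nat_lit 197) (.e (nat_lit 532523) (nat_lit 7) (.e (nat_lit 319529) (nat_lit 16) (.e (nat_lit 286735) (nat_lit 3) (.e (nat_lit 98371) (nat_lit 28) (.e (nat_lit 442406) (nat_lit 20) .nil)))))) (.g (nat_lit 1) (.e (nat_lit 74584) (nat_lit 0) .nil) .nil))) 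
(.lf (nat_lit 465705) (.g (nat_lit 2853) (.e (nat_lit 3238) (nat_lit 197) (.e (nat_lit 532558) (nat_lit 14) (.e (nat_lit 376868) (nat_lit 23) (.e (nat_lit 98350) (nat_lit 24) (.e (nat_lit 409648) (nat_lit 18) (.e (nat_lit 303108) (nat_lit 0) .nil)))))) (.g (nat_lit 1) (.e (nat_lit 75271) (nat_lit 0) .nil) .nil))))) (.nd (nat_lit 8) (.nd (nat_lit 9) 
(.lf (nat_lit 465065) (.g (nat_lit 2106) (.e (nat_lit 3238) (nat_lit 197) (.e (nat_lit 532500) (nat_lit 1) (.e (nat_lit 57851) (nat_lit 252) (.e (nat_lit 57406) (nat_lit 12) (.e (nat_lit 336456) (nat_lit 34) (.e (nat_lit 483379) (nat_lit 23) (.e (nat_lit 336257) (nat_lit 15) .nil))))))) (.g (nat_lit 1) (.e (nat_lit 74410) (nat_lit 0) .nil) .nil))) 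
(.lf (nat_lit 465577) (.g (nat_lit 3720) (.e (nat_lit 3238) (nat_lit 197) (.e (nat_lit 532549) (nat_lit 12) (.e (nat_lit 360475) (nat_lit 8) (.e (nat_lit 557091) (nat_lit 12) (.e (nat_lit 164022) (nat_lit 46) (.e (nat_lit 704738) (nat_lit 11) (.e (nat_lit 16397) (nat_lit 0) .nil))))))) (.g (nat_lit 1) (.e (nat_lit 75133) (nat_lit 0) .nil) .nil)))) (.nd (nat_lit 9) 
(.lf (nat_lit 465321) (.g (nat_lit 2657) (.e (nat_lit 3238) (nat_lit 197) (.e (nat_lit 532523) (nat_lit 7) (.e (nat_lit 319534) (nat_lit 16) (.e (nat_lit 286727) (nat_lit 0) (.e (nat_lit 1799) (nat_lit 119) .nil))))) (.g (nat_lit 0) (.e (nat_lit 74716) (nat_lit 0) .nil) .nil))) 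
(.lf (nat_lit 465833) (.g (nat_lit 4855) (.e (nat_lit 3240) (nat_lit 197) (.e (nat_lit 532550) (nat_lit 12) (.e (nat_lit 360474) (nat_lit 8) (.e (nat_lit 557094) (nat_lit 12) (.e (nat_lit 164022) (nat_lit 46) (.e (nat_lit 704738) (nat_lit 11) (.e (nat_lit 16384) (nat_lit 0) .nil))))))) (.g (nat_lit 1) (.e (nat_lit 75493) (nat_lit 0) .nil) .nil)))))) 
(.nd (nat_lit 7) (.nd (nat_lit 8) (.nd (nat_lit 9) 
(.lf (nat_lit 465001) (.g (nat_lit 2854) (.e (nat_lit 3236) (nat_lit 197) (.e (nat_lit 532499) (nat_lit 1) (.e (nat_lit 57927) (nat_lit 282) (.e (nat_lit 163869) (nat_lit 2) (.e (nat_lit 196670) (nat_lit 14) (.e (nat_lit 73746) (nat_lit 3) (.e (nat_lit 516131) (nat_lit 3) (.e (nat_lit 221197) (nat_lit 20) .nil)))))))) (.g (nat_lit 1) (.e (nat_lit 74320) (nat_lit 0) .nil) .nil))) 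
(.lf (nat_lit 465513) (.g (nat_lit 3058) (.e (nat_lit 3238) (nat_lit 197) (.e (nat_lit 532549) (nat_lit 12) (.e (nat_lit 360467) (nat_lit 3) (.e (nat_lit 516139) (nat_lit 7) (.e (nat_lit 409649) (nat_lit 18) (.e (nat_lit 303104) (nat_lit 0) .nil)))))) (.g (nat_lit 1) (.e (nat_lit 75067) (nat_lit 0) .nil) .nil)))) (.nd (nat_lit 9) 
(.lf (nat_lit 465257) (.g (nat_lit 2937) (.e (nat_lit 3238) (nat_lit 197) (.e (nat_lit 532523) (nat_lit 7) (.e (nat_lit 319532) (nat_lit 16) (.e (nat_lit 286733) (nat_lit 2) (.e (nat_lit 90134) (nat_lit 9) (.e (nat_lit 2992) (nat_lit 186) (.e (nat_lit 442406) (nat_lit 20) .nil))))))) (.g (nat_lit 1) (.e (nat_lit 74648) (nat_lit 0) .nil) .nil))) 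
(.lf (nat_lit 465769) (.g (nat_lit 4526) (.e (nat_lit 3239) (nat_lit 197) (.e (nat_lit 532550) (nat_lit 12) (.e (nat_lit 360474) (nat_lit 8) (.e (nat_lit 557094) (nat_lit 12) (.e (nat_lit 164022) (nat_lit 46) .nil))))) (.g (nat_lit 0) (.e (nat_lit 75402) (nat_lit 0) .nil) .nil))))) (.nd (nat_lit 8) (.nd (nat_lit 9) 
(.lf (nat_lit 465129) (.g (nat_lit 2529) (.e (nat_lit 3238) (nat_lit 197) (.e (nat_lit 532506) (nat_lit 2) (.e (nat_lit 106536) (nat_lit 11) (.e (nat_lit 16412) (nat_lit 2) (.e (nat_lit 196672) (nat_lit 15) (.e (nat_lit 89856) (nat_lit 0) .nil)))))) (.g (nat_lit 1) (.e (nat_lit 74485) (nat_lit 0) .nil) .nil))) 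
(.lf (nat_lit 465641) (.g (nat_lit 2615) (.e (nat_lit 3238) (nat_lit 197) (.e (nat_lit 532550) (nat_lit 12) (.e (nat_lit 360475) (nat_lit 8) (.e (nat_lit 557087) (nat_lit 11) (.e (nat_lit 24664) (nat_lit 14) (.e (nat_lit 401408) (nat_lit 0) .nil)))))) (.g (nat_lit 1) (.e (nat_lit 75204) (nat_lit 0) .nil) .nil)))) (.nd (nat_lit 9) 
(.lf (nat_lit 465385) (.g (nat_lit 2171) (.e (nat_lit 3238) (nat_lit 197) (.e (nat_lit 532523) (nat_lit 7) (.e (nat_lit 319534) (nat_lit 16) (.e (nat_lit 286735) (nat_lit 3) (.e (nat_lit 98382) (nat_lit 31) .nil))))) (.g (nat_lit 0) (.e (nat_lit 74781) (nat_lit 0) .nil) .nil))) 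
(.lf (nat_lit 465897) (.g (nat_lit 2518) (.e (nat_lit 3242) (nat_lit 197) (.e (nat_lit 532499) (nat_lit 1) (.e (nat_lit 57927) (nat_lit 282) (.e (nat_lit 163869) (nat_lit 2) (.e (nat_lit 196668) (nat_lit 14) (.e (nat_lit 73747) (nat_lit 3) (.e (nat_lit 516129) (nat_lit 3) (.e (nat_lit 221196) (nat_lit 20) .nil)))))))) (.g (nat_lit 1) (.e (nat_lit 75603) (nat_lit 0) .nil) .nil)))))))) 
(.nd (nat_lit 5) (.nd (nat_lit 6) (.nd (nat_lit 7) (.nd (nat_lit 8) (.nd (nat_lit 9) 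
(.lf (nat_lit 464921) (.g (nat_lit 3183) (.e (nat_lit 3233) (nat_lit 197) (.e (nat_lit 532499) (nat_lit 1) (.e (nat_lit 57927) (nat_lit 282) (.e (nat_lit 163869) (nat_lit 2) (.e (nat_lit 196670) (nat_lit 14) (.e (nat_lit 73746) (nat_lit 3) (.e (nat_lit 516129) (nat_lit 3) (.e (nat_lit 221202) (nat_lit 20) .nil)))))))) (.g (nat_lit 1) (.e (nat_lit 74121) (nat_lit 0) .nil) .nil))) 
(.lf (nat_lit 465433) (.g (nat_lit 6676) (.e (nat_lit 3238) (nat_lit 197) (.e (nat_lit 532535) (nat_lit 9) (.e (nat_lit 336099) (nat_lit 9) (.e (nat_lit 336028) (nat_lit 3) (.e (nat_lit 98349) (nat_lit 24) (.e (nat_lit 409648) (nat_lit 18) (.e (nat_lit 303104) (nat_lit 0) .nil))))))) (.g (nat_lit 1) (.e (nat_lit 74872) (nat_lit 0) .nil) .nil)))) (.nd (nat_lit 9) 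
(.lf (nat_lit 465177) (.g (nat_lit 2945) (.e (nat_lit 3238) (nat_lit 197) (.e (nat_lit 532523) (nat_lit 7) (.e (nat_lit 319528) (nat_lit 16) (.e (nat_lit 286735) (nat_lit 3) (.e (nat_lit 98370) (nat_lit 28) (.e (nat_lit 442404) (nat_lit 20) .nil)))))) (.g (nat_lit 1) (.e (nat_lit 74568) (nat_lit 0) .nil) .nil))) 
(.lf (nat_lit 465689) (.g (nat_lit 2353) (.e (nat_lit 3238) (nat_lit 197) (.e (nat_lit 532550) (nat_lit 12) (.e (nat_lit 360475) (nat_lit 8) (.e (nat_lit 557091) (nat_lit 12) (.e (nat_lit 163847) (nat_lit 0) (.e (nat_lit 6420) (nat_lit 341) (.e (nat_lit 163902) (nat_lit 12) (.e (nat_lit 426091) (nat_lit 0) .nil)))))))) (.g (nat_lit 1) (.e (nat_lit 75252) (nat_lit 0) .nil) .nil))))) 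
(.nd (nat_lit 8) (.nd (nat_lit 9) 
(.lf (nat_lit 465049) (.g (nat_lit 3094) (.e (nat_lit 3238) (nat_lit 197) (.e (nat_lit 532499) (nat_lit 1) (.e (nat_lit 57927) (nat_lit 282) (.e (nat_lit 163869) (nat_lit 2) (.e (nat_lit 196670) (nat_lit 14) (.e (nat_lit 73746) (nat_lit 3) (.e (nat_lit 516129) (nat_lit 3) (.e (nat_lit 229120) (nat_lit 20) .nil)))))))) (.g (nat_lit 1) (.e (nat_lit 74390) (nat_lit 0) .nil) .nil))) 
(.lf (nat_lit 465561) (.g (nat_lit 1813) (.e (nat_lit 3238) (nat_lit 197) (.e (nat_lit 532549) (nat_lit 12) (.e (nat_lit 360475) (nat_lit 8) (.e (nat_lit 557086) (nat_lit 11) .nil)))) (.g (nat_lit 0) (.e (nat_lit 75116) (nat_lit 0) .nil) .nil)))) (.nd (nat_lit 9) 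
(.lf (nat_lit 465305) (.g (nat_lit 2511) (.e (nat_lit 3238) (nat_lit 197) (.e (nat_lit 532523) (nat_lit 7) (.e (nat_lit 319533) (nat_lit 16) (.e (nat_lit 286735) (nat_lit 3) (.e (nat_lit 98369) (nat_lit 28) .nil))))) (.g (nat_lit 0) (.e (nat_lit 74698) (nat_lit 0) .nil) .nil))) 
(.lf (nat_lit 465817) (.g (nat_lit 2112) (.e (nat_lit 3240) (nat_lit 197) (.e (nat_lit 532499) (nat_lit 1) (.e (nat_lit 57926) (nat_lit 282) (.e (nat_lit 163869) (nat_lit 2) (.e (nat_lit 196670) (nat_lit 14) .nil))))) (.g (nat_lit 0) (.e (nat_lit 75463) (nat_lit 0) .nil) .nil)))))) (.nd (nat_lit 7) (.nd (nat_lit 8) (.nd (nat_lit 9) 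
(.lf (nat_lit 464985) (.g (nat_lit 1568) (.e (nat_lit 3233) (nat_lit 197) (.e (nat_lit 532563) (nat_lit 15) (.e (nat_lit 385066) (nat_lit 26) (.e (nat_lit 532530) (nat_lit 9) .nil)))) (.g (nat_lit 0) (.e (nat_lit 74278) (nat_lit 0) .nil) .nil))) 
(.lf (nat_lit 465497) (.g (nat_lit 3628) (.e (nat_lit 3238) (nat_lit 197) (.e (nat_lit 532547) (nat_lit 11) (.e (nat_lit 352315) (nat_lit 23) (.e (nat_lit 98350) (nat_lit 24) (.e (nat_lit 409648) (nat_lit 18) (.e (nat_lit 303104) (nat_lit 0) .nil)))))) (.g (nat_lit 1) (.e (nat_lit 75049) (nat_lit 0) .nil) .nil)))) (.nd (nat_lit 9) 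
(.lf (nat_lit 465241) (.g (nat_lit 3458) (.e (nat_lit 3238) (nat_lit 197) (.e (nat_lit 532523) (nat_lit 7) (.e (nat_lit 319531) (nat_lit 16) (.e (nat_lit 286735) (nat_lit 3) (.e (nat_lit 98369) (nat_lit 28) (.e (nat_lit 442404) (nat_lit 20) .nil)))))) (.g (nat_lit 1) (.e (nat_lit 74632) (nat_lit 0) .nil) .nil))) 
(.lf (nat_lit 465753) (.g (nat_lit 3132) (.e (nat_lit 3238) (nat_lit 197) (.e (nat_lit 532579) (nat_lit 26) (.e (nat_lit 426200) (nat_lit 9) (.e (nat_lit 426566) (nat_lit 34) (.e (nat_lit 393253) (nat_lit 18) (.e (nat_lit 164329) (nat_lit 230) (.e (nat_lit 163850) (nat_lit 0) .nil))))))) (.g (nat_lit 1) (.e (nat_lit 75368) (nat_lit 0) .nil) .nil))))) (.nd (nat_lit 8) (.nd (nat_lit 9) 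
(.lf (nat_lit 465113) (.g (nat_lit 3454) (.e (nat_lit 3238) (nat_lit 197) (.e (nat_lit 532503) (nat_lit 1) (.e (nat_lit 57848) (nat_lit 252) (.e (nat_lit 57445) (nat_lit 19) (.e (nat_lit 393229) (nat_lit 9) (.e (nat_lit 336085) (nat_lit 9) (.e (nat_lit 336306) (nat_lit 15) .nil))))))) (.g (nat_lit 1) (.e (nat_lit 74465) (nat_lit 0) .nil) .nil))) 
(.lf (nat_lit 465625) (.g (nat_lit 3619) (.e (nat_lit 3238) (nat_lit 197) (.e (nat_lit 532550) (nat_lit 12) (.e (nat_lit 360475) (nat_lit 8) (.e (nat_lit 557072) (nat_lit 9) .nil)))) (.g (nat_lit 0) (.e (nat_lit 75188) (nat_lit 0) .nil) .nil)))) (.nd (nat_lit 9) 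
(.lf (nat_lit 465369) (.g (nat_lit 3431) (.e (nat_lit 3238) (nat_lit 197) (.e (nat_lit 532523) (nat_lit 7) (.e (nat_lit 319534) (nat_lit 16) (.e (nat_lit 286735) (nat_lit 3) (.e (nat_lit 98369) (nat_lit 28) (.e (nat_lit 442403) (nat_lit 20) .nil)))))) (.g (nat_lit 1) (.e (nat_lit 74765) (nat_lit 0) .nil) .nil))) 
(.lf (nat_lit 465881) (.g (nat_lit 4771) (.e (nat_lit 3243) (nat_lit 197) (.e (nat_lit 532550) (nat_lit 12) (.e (nat_lit 360475) (nat_lit 8) (.e (nat_lit 557085) (nat_lit 11) .nil)))) (.g (nat_lit 0) (.e (nat_lit 75587) (nat_lit 0) .nil) .nil))))))) (.nd (nat_lit 6) (.nd (nat_lit 7) (.nd (nat_lit 8) (.nd (nat_lit 9) 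
(.lf (nat_lit 464953) (.g (nat_lit 3460) (.e (nat_lit 3233) (nat_lit 197) (.e (nat_lit 532550) (nat_lit 12) (.e (nat_lit 360474) (nat_lit 8) (.e (nat_lit 557094) (nat_lit 12) .nil)))) (.g (nat_lit 0) (.e (nat_lit 74231) (nat_lit 0) .nil) .nil))) 
(.lf (nat_lit 465465) (.g (nat_lit 4191) (.e (nat_lit 3238) (nat_lit 197) (.e (nat_lit 532535) (nat_lit 9) (.e (nat_lit 336173) (nat_lit 10) (.e (nat_lit 344119) (nat_lit 21) (.e (nat_lit 516139) (nat_lit 7) (.e (nat_lit 409649) (nat_lit 18) (.e (nat_lit 303107) (nat_lit 0) .nil))))))) (.g (nat_lit 1) (.e (nat_lit 74906) (nat_lit 0) .nil) .nil)))) (.nd (nat_lit 9) 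
(.lf (nat_lit 465209) (.g (nat_lit 5057) (.e (nat_lit 3238) (nat_lit 197) (.e (nat_lit 532523) (nat_lit 7) (.e (nat_lit 319530) (nat_lit 16) (.e (nat_lit 286733) (nat_lit 2) (.e (nat_lit 90178) (nat_lit 15) (.e (nat_lit 188424) (nat_lit 20) .nil)))))) (.g (nat_lit 1) (.e (nat_lit 74600) (nat_lit 0) .nil) .nil))) 
(.lf (nat_lit 465721) (.g (nat_lit 2374) (.e (nat_lit 3238) (nat_lit 197) (.e (nat_lit 532563) (nat_lit 15) (.e (nat_lit 385066) (nat_lit 26) (.e (nat_lit 532528) (nat_lit 9) (.e (nat_lit 336324) (nat_lit 18) (.e (nat_lit 204854) (nat_lit 26) (.e (nat_lit 336306) (nat_lit 15) .nil))))))) (.g (nat_lit 1) (.e (nat_lit 75287) (nat_lit 0) .nil) .nil))))) (.nd (nat_lit 8) (.nd (nat_lit 9) 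
(.lf (nat_lit 465081) (.g (nat_lit 3915) (.e (nat_lit 3238) (nat_lit 197) (.e (nat_lit 532500) (nat_lit 1) (.e (nat_lit 57854) (nat_lit 252) (.e (nat_lit 57406) (nat_lit 12) (.e (nat_lit 336454) (nat_lit 34) (.e (nat_lit 483385) (nat_lit 23) (.e (nat_lit 336260) (nat_lit 15) .nil))))))) (.g (nat_lit 1) (.e (nat_lit 74427) (nat_lit 0) .nil) .nil))) 
(.lf (nat_lit 465593) (.g (nat_lit 4486) (.e (nat_lit 3238) (nat_lit 197) (.e (nat_lit 532550) (nat_lit 12) (.e (nat_lit 360468) (nat_lit 3) (.e (nat_lit 516139) (nat_lit 7) (.e (nat_lit 409649) (nat_lit 18) (.e (nat_lit 303111) (nat_lit 0) .nil)))))) (.g (nat_lit 1) (.e (nat_lit 75154) (nat_lit 0) .nil) .nil)))) (.nd (nat_lit 9) 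
(.lf (nat_lit 465337) (.g (nat_lit 4334) (.e (nat_lit 3238) (nat_lit 197) (.e (nat_lit 532523) (nat_lit 7) (.e (nat_lit 319534) (nat_lit 16) (.e (nat_lit 286733) (nat_lit 2) (.e (nat_lit 90134) (nat_lit 9) (.e (nat_lit 3002) (nat_lit 186) (.e (nat_lit 442404) (nat_lit 20) .nil))))))) (.g (nat_lit 1) (.e (nat_lit 74733) (nat_lit 0) .nil) .nil))) 
(.lf (nat_lit 465849) (.g (nat_lit 2109) (.e (nat_lit 3241) (nat_lit 197) (.e (nat_lit 532500) (nat_lit 1) (.e (nat_lit 57926) (nat_lit 282) (.e (nat_lit 163869) (nat_lit 2) (.e (nat_lit 196670) (nat_lit 14) (.e (nat_lit 73746) (nat_lit 3) (.e (nat_lit 516131) (nat_lit 3) (.e (nat_lit 221197) (nat_lit 20) .nil)))))))) (.g (nat_lit 1) (.e (nat_lit 75513) (nat_lit 0) .nil) .nil)))))) 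
(.nd (nat_lit 7) (.nd (nat_lit 8) (.nd (nat_lit 9) 
(.lf (nat_lit 465017) (.g (nat_lit 4537) (.e (nat_lit 3236) (nat_lit 197) (.e (nat_lit 532550) (nat_lit 12) (.e (nat_lit 360475) (nat_lit 8) (.e (nat_lit 557091) (nat_lit 12) .nil)))) (.g (nat_lit 0) (.e (nat_lit 74346) (nat_lit 0) .nil) .nil))) 
(.lf (nat_lit 465529) (.g (nat_lit 2993) (.e (nat_lit 3238) (nat_lit 197) (.e (nat_lit 532549) (nat_lit 12) (.e (nat_lit 360473) (nat_lit 8) (.e (nat_lit 557091) (nat_lit 12) (.e (nat_lit 164022) (nat_lit 46) (.e (nat_lit 704736) (nat_lit 11) (.e (nat_lit 16396) (nat_lit 0) .nil))))))) (.g (nat_lit 1) (.e (nat_lit 75084) (nat_lit 0) .nil) .nil)))) (.nd (nat_lit 9) 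
(.lf (nat_lit 465273) (.g (nat_lit 3167) (.e (nat_lit 3238) (nat_lit 197) (.e (nat_lit 532523) (nat_lit 7) (.e (nat_lit 319533) (nat_lit 16) (.e (nat_lit 286732) (nat_lit 2) (.e (nat_lit 90175) (nat_lit 15) (.e (nat_lit 188437) (nat_lit 20) .nil)))))) (.g (nat_lit 1) (.e (nat_lit 74665) (nat_lit 0) .nil) .nil))) 
(.lf (nat_lit 465785) (.g (nat_lit 2412) (.e (nat_lit 3237) (nat_lit 197) (.e (nat_lit 532503) (nat_lit 1) (.e (nat_lit 57931) (nat_lit 282) (.e (nat_lit 163867) (nat_lit 2) (.e (nat_lit 196668) (nat_lit 14) (.e (nat_lit 73747) (nat_lit 3) (.e (nat_lit 516129) (nat_lit 3) (.e (nat_lit 221196) (nat_lit 20) .nil)))))))) (.g (nat_lit 1) (.e (nat_lit 75421) (nat_lit 0) .nil) .nil))))) 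
(.nd (nat_lit 8) (.nd (nat_lit 9) 
(.lf (nat_lit 465145) (.g (nat_lit 4272) (.e (nat_lit 3238) (nat_lit 197) (.e (nat_lit 532513) (nat_lit 3) (.e (nat_lit 114714) (nat_lit 22) (.e (nat_lit 90172) (nat_lit 14) (.e (nat_lit 180244) (nat_lit 5) (.e (nat_lit 532503) (nat_lit 1) (.e (nat_lit 57693) (nat_lit 157) (.e (nat_lit 229379) (nat_lit 0) .nil)))))))) (.g (nat_lit 1) (.e (nat_lit 74511) (nat_lit 0) .nil) .nil))) 
(.lf (nat_lit 465657) (.g (nat_lit 5561) (.e (nat_lit 3238) (nat_lit 197) (.e (nat_lit 532550) (nat_lit 12) (.e (nat_lit 360475) (nat_lit 8) (.e (nat_lit 557089) (nat_lit 12) (.e (nat_lit 163844) (nat_lit 0) (.e (nat_lit 6420) (nat_lit 341) (.e (nat_lit 163902) (nat_lit 12) (.e (nat_lit 426093) (nat_lit 0) .nil)))))))) (.g (nat_lit 1) (.e (nat_lit 75220) (nat_lit 0) .nil) .nil)))) 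
(.nd (nat_lit 9) 
(.lf (nat_lit 465401) (.g (nat_lit 3424) (.e (nat_lit 3238) (nat_lit 197) (.e (nat_lit 532535) (nat_lit 9) (.e (nat_lit 336073) (nat_lit 9) (.e (nat_lit 336028) (nat_lit 3) (.e (nat_lit 98350) (nat_lit 24) (.e (nat_lit 409649) (nat_lit 18) (.e (nat_lit 303104) (nat_lit 0) .nil))))))) (.g (nat_lit 1) (.e (nat_lit 74834) (nat_lit 0) .nil) .nil))) 
(.lf (nat_lit 465913) (.g (nat_lit 3598) (.e (nat_lit 3242) (nat_lit 197) (.e (nat_lit 532550) (nat_lit 12) (.e (nat_lit 360474) (nat_lit 8) (.e (nat_lit 557093) (nat_lit 12) .nil)))) (.g (nat_lit 0) (.e (nat_lit 75636) (nat_lit 0) .nil) .nil)))))))))) (.nd (nat_lit 3) (.nd (nat_lit 4) (.nd (nat_lit 5) (.nd (nat_lit 6) (.nd (nat_lit 7) (.nd (nat_lit 8) (.nd (nat_lit 9) 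
(.lf (nat_lit 464901) (.g (nat_lit 2616) (.e (nat_lit 3234) (nat_lit 197) (.e (nat_lit 532563) (nat_lit 15) (.e (nat_lit 385066) (nat_lit 26) (.e (nat_lit 532530) (nat_lit 9) (.e (nat_lit 336326) (nat_lit 18) (.e (nat_lit 204854) (nat_lit 26) (.e (nat_lit 336301) (nat_lit 15) .nil))))))) (.g (nat_lit 1) (.e (nat_lit 74098) (nat_lit 0) .nil) .nil))) 
(.lf (nat_lit 465413) (.g (nat_lit 4412) (.e (nat_lit 3238) (nat_lit 197) (.e (nat_lit 532535) (nat_lit 9) (.e (nat_lit 336099) (nat_lit 9) (.e (nat_lit 336013) (nat_lit 2) (.e (nat_lit 90130) (nat_lit 9) .nil))))) (.g (nat_lit 0) (.e (nat_lit 74852) (nat_lit 0) .nil) .nil)))) (.nd (nat_lit 9) 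
(.lf (nat_lit 465157) (.g (nat_lit 2153) (.e (nat_lit 3238) (nat_lit 197) (.e (nat_lit 532523) (nat_lit 7) (.e (nat_lit 319504) (nat_lit 10) (.e (nat_lit 5389) (nat_lit 301) (.e (nat_lit 57464) (nat_lit 23) (.e (nat_lit 516164) (nat_lit 11) (.e (nat_lit 442406) (nat_lit 20) .nil))))))) (.g (nat_lit 1) (.e (nat_lit 74548) (nat_lit 0) .nil) .nil))) 
(.lf (nat_lit 465669) (.g (nat_lit 3636) (.e (nat_lit 3238) (nat_lit 197) (.e (nat_lit 532550) (nat_lit 12) (.e (nat_lit 360475) (nat_lit 8) (.e (nat_lit 557089) (nat_lit 12) (.e (nat_lit 163849) (nat_lit 0) (.e (nat_lit 6420) (nat_lit 341) (.e (nat_lit 163902) (nat_lit 12) (.e (nat_lit 426095) (nat_lit 0) .nil)))))))) (.g (nat_lit 1) (.e (nat_lit 75232) (nat_lit 0) .nil) .nil))))) 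
(.nd (nat_lit 8) (.nd (nat_lit 9) 
(.lf (nat_lit 465029) (.g (nat_lit 3350) (.e (nat_lit 3238) (nat_lit 197) (.e (nat_lit 532499) (nat_lit 1) (.e (nat_lit 57847) (nat_lit 252) (.e (nat_lit 57405) (nat_lit 12) (.e (nat_lit 336454) (nat_lit 34) (.e (nat_lit 483385) (nat_lit 23) (.e (nat_lit 336306) (nat_lit 15) .nil))))))) (.g (nat_lit 1) (.e (nat_lit 74368) (nat_lit 0) .nil) .nil))) 
(.lf (nat_lit 465541) (.g (nat_lit 2902) (.e (nat_lit 3238) (nat_lit 197) (.e (nat_lit 532549) (nat_lit 12) (.e (nat_lit 360473) (nat_lit 8) (.e (nat_lit 557093) (nat_lit 12) (.e (nat_lit 164023) (nat_lit 46) (.e (nat_lit 704735) (nat_lit 11) (.e (nat_lit 16396) (nat_lit 0) .nil))))))) (.g (nat_lit 1) (.e (nat_lit 75096) (nat_lit 0) .nil) .nil)))) (.nd (nat_lit 9) 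
(.lf (nat_lit 465285) (.g (nat_lit 4480) (.e (nat_lit 3238) (nat_lit 197) (.e (nat_lit 532523) (nat_lit 7) (.e (nat_lit 319533) (nat_lit 16) (.e (nat_lit 286733) (nat_lit 2) (.e (nat_lit 90134) (nat_lit 9) (.e (nat_lit 3002) (nat_lit 186) (.e (nat_lit 442406) (nat_lit 20) .nil))))))) (.g (nat_lit 1) (.e (nat_lit 74678) (nat_lit 0) .nil) .nil))) 
(.lf (nat_lit 465797) (.g (nat_lit 4718) (.e (nat_lit 3237) (nat_lit 197) (.e (nat_lit 532550) (nat_lit 12) (.e (nat_lit 360474) (nat_lit 8) (.e (nat_lit 557093) (nat_lit 12) (.e (nat_lit 164022) (nat_lit 46) .nil))))) (.g (nat_lit 0) (.e (nat_lit 75441) (nat_lit 0) .nil) .nil)))))) (.nd (nat_lit 7) (.nd (nat_lit 8) (.nd (nat_lit 9) 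
(.lf (nat_lit 464965) (.g (nat_lit 5983) (.e (nat_lit 3233) (nat_lit 197) (.e (nat_lit 532550) (nat_lit 12) (.e (nat_lit 360475) (nat_lit 8) (.e (nat_lit 557091) (nat_lit 12) (.e (nat_lit 164022) (nat_lit 46) (.e (nat_lit 704737) (nat_lit 11) (.e (nat_lit 16401) (nat_lit 0) .nil))))))) (.g (nat_lit 1) (.e (nat_lit 74247) (nat_lit 0) .nil) .nil))) 
(.lf (nat_lit 465477) (.g (nat_lit 1474) (.e (nat_lit 3238) (nat_lit 197) (.e (nat_lit 532535) (nat_lit 9) (.e (nat_lit 336178) (nat_lit 10) (.e (nat_lit 344119) (nat_lit 21) .nil)))) (.g (nat_lit 0) (.e (nat_lit 74989) (nat_lit 0) .nil) .nil)))) (.nd (nat_lit 9) 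
(.lf (nat_lit 465221) (.g (nat_lit 1529) (.e (nat_lit 3238) (nat_lit 197) (.e (nat_lit 532523) (nat_lit 7) (.e (nat_lit 319531) (nat_lit 16) (.e (nat_lit 286722) (nat_lit 0) .nil)))) (.g (nat_lit 0) (.e (nat_lit 74612) (nat_lit 0) .nil) .nil))) 
(.lf (nat_lit 465733) (.g (nat_lit 1895) (.e (nat_lit 3238) (nat_lit 197) (.e (nat_lit 532564) (nat_lit 15) (.e (nat_lit 385066) (nat_lit 26) (.e (nat_lit 532566) (nat_lit 15) (.e (nat_lit 385066) (nat_lit 26) (.e (nat_lit 532532) (nat_lit 9) (.e (nat_lit 336306) (nat_lit 15) .nil))))))) (.g (nat_lit 1) (.e (nat_lit 75299) (nat_lit 0) .nil) .nil))))) (.nd (nat_lit 8) (.nd (nat_lit 9) 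
(.lf (nat_lit 465093) (.g (nat_lit 3099) (.e (nat_lit 3238) (nat_lit 197) (.e (nat_lit 532501) (nat_lit 1) (.e (nat_lit 57852) (nat_lit 252) (.e (nat_lit 57406) (nat_lit 12) (.e (nat_lit 336454) (nat_lit 34) (.e (nat_lit 483385) (nat_lit 23) (.e (nat_lit 336306) (nat_lit 15) .nil))))))) (.g (nat_lit 1) (.e (nat_lit 74439) (nat_lit 0) .nil) .nil))) 
(.lf (nat_lit 465605) (.g (nat_lit 3262) (.e (nat_lit 3238) (nat_lit 197) (.e (nat_lit 532550) (nat_lit 12) (.e (nat_lit 360474) (nat_lit 8) (.e (nat_lit 557093) (nat_lit 12) (.e (nat_lit 164022) (nat_lit 46) (.e (nat_lit 704737) (nat_lit 11) (.e (nat_lit 16397) (nat_lit 0) .nil))))))) (.g (nat_lit 1) (.e (nat_lit 75167) (nat_lit 0) .nil) .nil)))) (.nd (nat_lit 9) 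
(.lf (nat_lit 465349) (.g (nat_lit 4390) (.e (nat_lit 3238) (nat_lit 197) (.e (nat_lit 532523) (nat_lit 7) (.e (nat_lit 319534) (nat_lit 16) (.e (nat_lit 286733) (nat_lit 2) (.e (nat_lit 90178) (nat_lit 15) (.e (nat_lit 188424) (nat_lit 20) .nil)))))) (.g (nat_lit 1) (.e (nat_lit 74745) (nat_lit 0) .nil) .nil))) 
(.lf (nat_lit 465861) (.g (nat_lit 3625) (.e (nat_lit 3241) (nat_lit 197) (.e (nat_lit 532550) (nat_lit 12) (.e (nat_lit 360474) (nat_lit 8) (.e (nat_lit 557093) (nat_lit 12) (.e (nat_lit 164022) (nat_lit 46) .nil))))) (.g (nat_lit 0) (.e (nat_lit 75555) (nat_lit 0) .nil) .nil))))))) (.nd (nat_lit 6) (.nd (nat_lit 7) (.nd (nat_lit 8) (.nd (nat_lit 9) 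
(.lf (nat_lit 464933) (.g (nat_lit 1925) (.e (nat_lit 3233) (nat_lit 197) (.e (nat_lit 532523) (nat_lit 7) (.e (nat_lit 319530) (nat_lit 16) (.e (nat_lit 286735) (nat_lit 3) .nil)))) (.g (nat_lit 0) (.e (nat_lit 74188) (nat_lit 0) .nil) .nil))) 
(.lf (nat_lit 465445) (.g (nat_lit 3213) (.e (nat_lit 3238) (nat_lit 197) (.e (nat_lit 532535) (nat_lit 9) (.e (nat_lit 336111) (nat_lit 9) (.e (nat_lit 336028) (nat_lit 3) (.e (nat_lit 98350) (nat_lit 24) (.e (nat_lit 409648) (nat_lit 18) (.e (nat_lit 303104) (nat_lit 0) .nil))))))) (.g (nat_lit 1) (.e (nat_lit 74884) (nat_lit 0) .nil) .nil)))) (.nd (nat_lit 9) 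
(.lf (nat_lit 465189) (.g (nat_lit 2728) (.e (nat_lit 3238) (nat_lit 197) (.e (nat_lit 532523) (nat_lit 7) (.e (nat_lit 319529) (nat_lit 16) (.e (nat_lit 286735) (nat_lit 3) (.e (nat_lit 98369) (nat_lit 28) (.e (nat_lit 442404) (nat_lit 20) .nil)))))) (.g (nat_lit 1) (.e (nat_lit 74580) (nat_lit 0) .nil) .nil))) 
(.lf (nat_lit 465701) (.g (nat_lit 4677) (.e (nat_lit 3238) (nat_lit 197) (.e (nat_lit 532550) (nat_lit 12) (.e (nat_lit 360475) (nat_lit 8) (.e (nat_lit 557091) (nat_lit 12) (.e (nat_lit 164022) (nat_lit 46) (.e (nat_lit 704738) (nat_lit 11) (.e (nat_lit 16397) (nat_lit 0) .nil))))))) (.g (nat_lit 1) (.e (nat_lit 75264) (nat_lit 0) .nil) .nil))))) (.nd (nat_lit 8) (.nd (nat_lit 9) 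
(.lf (nat_lit 465061) (.g (nat_lit 1720) (.e (nat_lit 3238) (nat_lit 197) (.e (nat_lit 532500) (nat_lit 1) (.e (nat_lit 57851) (nat_lit 252) (.e (nat_lit 57406) (nat_lit 12) (.e (nat_lit 336455) (nat_lit 34) .nil))))) (.g (nat_lit 0) (.e (nat_lit 74406) (nat_lit 0) .nil) .nil))) 
(.lf (nat_lit 465573) (.g (nat_lit 4577) (.e (nat_lit 3238) (nat_lit 197) (.e (nat_lit 532549) (nat_lit 12) (.e (nat_lit 360475) (nat_lit 8) (.e (nat_lit 557090) (nat_lit 12) (.e (nat_lit 164020) (nat_lit 45) (.e (nat_lit 696344) (nat_lit 8) (.e (nat_lit 172046) (nat_lit 0) .nil))))))) (.g (nat_lit 1) (.e (nat_lit 75129) (nat_lit 0) .nil) .nil)))) (.nd (nat_lit 9) 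
(.lf (nat_lit 465317) (.g (nat_lit 3460) (.e (nat_lit 3238) (nat_lit 197) (.e (nat_lit 532523) (nat_lit 7) (.e (nat_lit 319534) (nat_lit 16) (.e (nat_lit 286728) (nat_lit 0) (.e (nat_lit 1788) (nat_lit 119) (.e (nat_lit 516162) (nat_lit 11) (.e (nat_lit 442406) (nat_lit 20) .nil))))))) (.g (nat_lit 1) (.e (nat_lit 74712) (nat_lit 0) .nil) .nil))) 
(.lf (nat_lit 465829) (.g (nat_lit 1360) (.e (nat_lit 3240) (nat_lit 197) (.e (nat_lit 532535) (nat_lit 9) (.e (nat_lit 336099) (nat_lit 9) .nil))) (.g (nat_lit 0) (.e (nat_lit 75482) (nat_lit 0) .nil) .nil)))))) (.nd (nat_lit 7) (.nd (nat_lit 8) (.nd (nat_lit 9) 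
(.lf (nat_lit 464997) (.g (nat_lit 2571) (.e (nat_lit 3233) (nat_lit 197) (.e (nat_lit 532569) (nat_lit 16) (.e (nat_lit 401448) (nat_lit 10) (.e (nat_lit 434248) (nat_lit 28) .nil)))) (.g (nat_lit 0) (.e (nat_lit 74298) (nat_lit 0) .nil) .nil))) 
(.lf (nat_lit 465509) (.g (nat_lit 5467) (.e (nat_lit 3238) (nat_lit 197) (.e (nat_lit 532549) (nat_lit 12) (.e (nat_lit 360466) (nat_lit 3) (.e (nat_lit 516139) (nat_lit 7) (.e (nat_lit 409649) (nat_lit 18) (.e (nat_lit 303111) (nat_lit 0) .nil)))))) (.g (nat_lit 1) (.e (nat_lit 75061) (nat_lit 0) .nil) .nil)))) (.nd (nat_lit 9) 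
(.lf (nat_lit 465253) (.g (nat_lit 3422) (.e (nat_lit 3238) (nat_lit 197) (.e (nat_lit 532523) (nat_lit 7) (.e (nat_lit 319531) (nat_lit 16) (.e (nat_lit 286735) (nat_lit 3) (.e (nat_lit 98381) (nat_lit 31) (.e (nat_lit 466955) (nat_lit 20) .nil)))))) (.g (nat_lit 1) (.e (nat_lit 74644) (nat_lit 0) .nil) .nil))) 
(.lf (nat_lit 465765) (.g (nat_lit 4243) (.e (nat_lit 3239) (nat_lit 197) (.e (nat_lit 532550) (nat_lit 12) (.e (nat_lit 360474) (nat_lit 8) (.e (nat_lit 557085) (nat_lit 11) .nil)))) (.g (nat_lit 0) (.e (nat_lit 75398) (nat_lit 0) .nil) .nil))))) (.nd (nat_lit 8) (.nd (nat_lit 9) 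
(.lf (nat_lit 465125) (.g (nat_lit 3462) (.e (nat_lit 3238) (nat_lit 197) (.e (nat_lit 532504) (nat_lit 1) (.e (nat_lit 57854) (nat_lit 252) (.e (nat_lit 57406) (nat_lit 12) (.e (nat_lit 336454) (nat_lit 34) (.e (nat_lit 483385) (nat_lit 23) (.e (nat_lit 336306) (nat_lit 15) .nil))))))) (.g (nat_lit 1) (.e (nat_lit 74481) (nat_lit 0) .nil) .nil))) 
(.lf (nat_lit 465637) (.g (nat_lit 2082) (.e (nat_lit 3238) (nat_lit 197) (.e (nat_lit 532550) (nat_lit 12) (.e (nat_lit 360475) (nat_lit 8) (.e (nat_lit 557086) (nat_lit 11) (.e (nat_lit 24665) (nat_lit 14) .nil))))) (.g (nat_lit 0) (.e (nat_lit 75200) (nat_lit 0) .nil) .nil)))) (.nd (nat_lit 9) 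
(.lf (nat_lit 465381) (.g (nat_lit 4304) (.e (nat_lit 3238) (nat_lit 197) (.e (nat_lit 532523) (nat_lit 7) (.e (nat_lit 319534) (nat_lit 16) (.e (nat_lit 286735) (nat_lit 3) (.e (nat_lit 98371) (nat_lit 28) (.e (nat_lit 442406) (nat_lit 20) .nil)))))) (.g (nat_lit 1) (.e (nat_lit 74777) (nat_lit 0) .nil) .nil))) 
(.lf (nat_lit 465893) (.g (nat_lit 2377) (.e (nat_lit 3242) (nat_lit 197) (.e (nat_lit 532499) (nat_lit 1) (.e (nat_lit 57927) (nat_lit 282) (.e (nat_lit 163868) (nat_lit 2) (.e (nat_lit 196670) (nat_lit 14) (.e (nat_lit 73746) (nat_lit 3) (.e (nat_lit 516129) (nat_lit 3) (.e (nat_lit 221196) (nat_lit 20) .nil)))))))) (.g (nat_lit 1) (.e (nat_lit 75599) (nat_lit 0) .nil) .nil)))))))) 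
(.nd (nat_lit 5) (.nd (nat_lit 6) (.nd (nat_lit 7) (.nd (nat_lit 8) (.nd (nat_lit 9) 
(.lf (nat_lit 464917) (.g (nat_lit 2577) (.e (nat_lit 3235) (nat_lit 197) (.e (nat_lit 532563) (nat_lit 15) (.e (nat_lit 385066) (nat_lit 26) (.e (nat_lit 532530) (nat_lit 9) (.e (nat_lit 336326) (nat_lit 18) .nil))))) (.g (nat_lit 0) (.e (nat_lit 74114) (nat_lit 0) .nil) .nil))) 
(.lf (nat_lit 465429) (.g (nat_lit 1970) (.e (nat_lit 3238) (nat_lit 197) (.e (nat_lit 532535) (nat_lit 9) (.e (nat_lit 336099) (nat_lit 9) (.e (nat_lit 336028) (nat_lit 3) .nil)))) (.g (nat_lit 0) (.e (nat_lit 74868) (nat_lit 0) .nil) .nil)))) (.nd (nat_lit 9) 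
(.lf (nat_lit 465173) (.g (nat_lit 2138) (.e (nat_lit 3238) (nat_lit 197) (.e (nat_lit 532523) (nat_lit 7) (.e (nat_lit 319528) (nat_lit 16) (.e (nat_lit 286735) (nat_lit 3) (.e (nat_lit 98369) (nat_lit 28) .nil))))) (.g (nat_lit 0) (.e (nat_lit 74564) (nat_lit 0) .nil) .nil))) 
(.lf (nat_lit 465685) (.g (nat_lit 3765) (.e (nat_lit 3238) (nat_lit 197) (.e (nat_lit 532550) (nat_lit 12) (.e (nat_lit 360475) (nat_lit 8) (.e (nat_lit 557091) (nat_lit 12) (.e (nat_lit 163843) (nat_lit 0) (.e (nat_lit 6420) (nat_lit 341) (.e (nat_lit 163902) (nat_lit 12) (.e (nat_lit 426093) (nat_lit 0) .nil)))))))) (.g (nat_lit 1) (.e (nat_lit 75248) (nat_lit 0) .nil) .nil))))) 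
(.nd (nat_lit 8) (.nd (nat_lit 9) 
(.lf (nat_lit 465045) (.g (nat_lit 3475) (.e (nat_lit 3238) (nat_lit 197) (.e (nat_lit 532499) (nat_lit 1) (.e (nat_lit 57927) (nat_lit 282) (.e (nat_lit 163869) (nat_lit 2) (.e (nat_lit 196668) (nat_lit 14) (.e (nat_lit 73747) (nat_lit 3) (.e (nat_lit 516129) (nat_lit 3) (.e (nat_lit 221195) (nat_lit 20) .nil)))))))) (.g (nat_lit 1) (.e (nat_lit 74386) (nat_lit 0) .nil) .nil))) 
(.lf (nat_lit 465557) (.g (nat_lit 4386) (.e (nat_lit 3238) (nat_lit 197) (.e (nat_lit 532549) (nat_lit 12) (.e (nat_lit 360475) (nat_lit 8) (.e (nat_lit 557085) (nat_lit 11) (.e (nat_lit 24664) (nat_lit 14) (.e (nat_lit 401414) (nat_lit 0) .nil)))))) (.g (nat_lit 1) (.e (nat_lit 75112) (nat_lit 0) .nil) .nil)))) (.nd (nat_lit 9) 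
(.lf (nat_lit 465301) (.g (nat_lit 3207) (.e (nat_lit 3238) (nat_lit 197) (.e (nat_lit 532523) (nat_lit 7) (.e (nat_lit 319533) (nat_lit 16) (.e (nat_lit 286734) (nat_lit 3) (.e (nat_lit 98380) (nat_lit 31) (.e (nat_lit 466955) (nat_lit 20) .nil)))))) (.g (nat_lit 1) (.e (nat_lit 74694) (nat_lit 0) .nil) .nil))) 
(.lf (nat_lit 465813) (.g (nat_lit 4931) (.e (nat_lit 3237) (nat_lit 197) (.e (nat_lit 532550) (nat_lit 12) (.e (nat_lit 360475) (nat_lit 8) (.e (nat_lit 557091) (nat_lit 12) (.e (nat_lit 164022) (nat_lit 46) .nil))))) (.g (nat_lit 0) (.e (nat_lit 75458) (nat_lit 0) .nil) .nil)))))) (.nd (nat_lit 7) (.nd (nat_lit 8) (.nd (nat_lit 9) 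
(.lf (nat_lit 464981) (.g (nat_lit 2757) (.e (nat_lit 3233) (nat_lit 197) (.e (nat_lit 532561) (nat_lit 14) (.e (nat_lit 376865) (nat_lit 22) (.e (nat_lit 90185) (nat_lit 17) (.e (nat_lit 237585) (nat_lit 1) (.e (nat_lit 164402) (nat_lit 256) (.e (nat_lit 57579) (nat_lit 61) .nil))))))) (.g (nat_lit 1) (.e (nat_lit 74274) (nat_lit 0) .nil) .nil))) 
(.lf (nat_lit 465493) (.g (nat_lit 3979) (.e (nat_lit 3238) (nat_lit 197) (.e (nat_lit 532547) (nat_lit 11) (.e (nat_lit 352315) (nat_lit 23) (.e (nat_lit 98349) (nat_lit 24) (.e (nat_lit 409648) (nat_lit 18) (.e (nat_lit 303104) (nat_lit 0) .nil)))))) (.g (nat_lit 1) (.e (nat_lit 75045) (nat_lit 0) .nil) .nil)))) (.nd (nat_lit 9) 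
(.lf (nat_lit 465237) (.g (nat_lit 1589) (.e (nat_lit 3238) (nat_lit 197) (.e (nat_lit 532523) (nat_lit 7) (.e (nat_lit 319531) (nat_lit 16) (.e (nat_lit 286734) (nat_lit 3) .nil)))) (.g (nat_lit 0) (.e (nat_lit 74628) (nat_lit 0) .nil) .nil))) 
(.lf (nat_lit 465749) (.g (nat_lit 4061) (.e (nat_lit 3238) (nat_lit 197) (.e (nat_lit 532569) (nat_lit 16) (.e (nat_lit 401451) (nat_lit 12) (.e (nat_lit 475185) (nat_lit 29) (.e (nat_lit 557109) (nat_lit 15) .nil))))) (.g (nat_lit 0) (.e (nat_lit 75318) (nat_lit 0) .nil) .nil))))) (.nd (nat_lit 8) (.nd (nat_lit 9) 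
(.lf (nat_lit 465109) (.g (nat_lit 3452) (.e (nat_lit 3238) (nat_lit 197) (.e (nat_lit 532503) (nat_lit 1) (.e (nat_lit 57847) (nat_lit 252) (.e (nat_lit 57448) (nat_lit 19) (.e (nat_lit 393229) (nat_lit 9) (.e (nat_lit 336086) (nat_lit 9) (.e (nat_lit 336306) (nat_lit 15) .nil))))))) (.g (nat_lit 1) (.e (nat_lit 74461) (nat_lit 0) .nil) .nil))) 
(.lf (nat_lit 465621) (.g (nat_lit 3879) (.e (nat_lit 3238) (nat_lit 197) (.e (nat_lit 532550) (nat_lit 12) (.e (nat_lit 360474) (nat_lit 8) (.e (nat_lit 557094) (nat_lit 12) (.e (nat_lit 164022) (nat_lit 46) (.e (nat_lit 704738) (nat_lit 11) (.e (nat_lit 16397) (nat_lit 0) .nil))))))) (.g (nat_lit 1) (.e (nat_lit 75183) (nat_lit 0) .nil) .nil)))) (.nd (nat_lit 9) 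
(.lf (nat_lit 465365) (.g (nat_lit 2846) (.e (nat_lit 3238) (nat_lit 197) (.e (nat_lit 532523) (nat_lit 7) (.e (nat_lit 319534) (nat_lit 16) (.e (nat_lit 286735) (nat_lit 3) (.e (nat_lit 98359) (nat_lit 26) (.e (nat_lit 426208) (nat_lit 9) (.e (nat_lit 426003) (nat_lit 0) .nil))))))) (.g (nat_lit 1) (.e (nat_lit 74761) (nat_lit 0) .nil) .nil))) 
(.lf (nat_lit 465877) (.g (nat_lit 4267) (.e (nat_lit 3243) (nat_lit 197) (.e (nat_lit 532550) (nat_lit 12) (.e (nat_lit 360474) (nat_lit 8) (.e (nat_lit 557093) (nat_lit 12) (.e (nat_lit 164023) (nat_lit 46) .nil))))) (.g (nat_lit 0) (.e (nat_lit 75582) (nat_lit 0) .nil) .nil))))))) (.nd (nat_lit 6) (.nd (nat_lit 7) (.nd (nat_lit 8) (.nd (nat_lit 9) 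
(.lf (nat_lit 464949) (.g (nat_lit 5205) (.e (nat_lit 3233) (nat_lit 197) (.e (nat_lit 532550) (nat_lit 12) (.e (nat_lit 360474) (nat_lit 8) (.e (nat_lit 557093) (nat_lit 12) (.e (nat_lit 164022) (nat_lit 46) (.e (nat_lit 704737) (nat_lit 11) (.e (nat_lit 16401) (nat_lit 0) .nil))))))) (.g (nat_lit 1) (.e (nat_lit 74226) (nat_lit 0) .nil) .nil))) 
(.lf (nat_lit 465461) (.g (nat_lit 5928) (.e (nat_lit 3238) (nat_lit 197) (.e (nat_lit 532535) (nat_lit 9) (.e (nat_lit 336173) (nat_lit 10) (.e (nat_lit 344119) (nat_lit 21) (.e (nat_lit 516139) (nat_lit 7) (.e (nat_lit 409648) (nat_lit 18) (.e (nat_lit 303108) (nat_lit 0) .nil))))))) (.g (nat_lit 1) (.e (nat_lit 74902) (nat_lit 0) .nil) .nil)))) (.nd (nat_lit 9) 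
(.lf (nat_lit 465205) (.g (nat_lit 3831) (.e (nat_lit 3238) (nat_lit 197) (.e (nat_lit 532523) (nat_lit 7) (.e (nat_lit 319530) (nat_lit 16) (.e (nat_lit 286733) (nat_lit 2) (.e (nat_lit 90176) (nat_lit 15) (.e (nat_lit 188439) (nat_lit 20) .nil)))))) (.g (nat_lit 1) (.e (nat_lit 74596) (nat_lit 0) .nil) .nil))) 
(.lf (nat_lit 465717) (.g (nat_lit 1955) (.e (nat_lit 3238) (nat_lit 197) (.e (nat_lit 532560) (nat_lit 14) (.e (nat_lit 376869) (nat_lit 23) (.e (nat_lit 98349) (nat_lit 24) (.e (nat_lit 409649) (nat_lit 18) (.e (nat_lit 303104) (nat_lit 0) .nil)))))) (.g (nat_lit 1) (.e (nat_lit 75283) (nat_lit 0) .nil) .nil))))) (.nd (nat_lit 8) (.nd (nat_lit 9) 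
(.lf (nat_lit 465077) (.g (nat_lit 2976) (.e (nat_lit 3238) (nat_lit 197) (.e (nat_lit 532500) (nat_lit 1) (.e (nat_lit 57852) (nat_lit 252) (.e (nat_lit 57406) (nat_lit 12) (.e (nat_lit 336454) (nat_lit 34) (.e (nat_lit 483384) (nat_lit 23) (.e (nat_lit 336306) (nat_lit 15) .nil))))))) (.g (nat_lit 1) (.e (nat_lit 74422) (nat_lit 0) .nil) .nil))) 
(.lf (nat_lit 465589) (.g (nat_lit 2601) (.e (nat_lit 3238) (nat_lit 197) (.e (nat_lit 532550) (nat_lit 12) (.e (nat_lit 360468) (nat_lit 3) (.e (nat_lit 516139) (nat_lit 7) (.e (nat_lit 409648) (nat_lit 18) (.e (nat_lit 303104) (nat_lit 0) .nil)))))) (.g (nat_lit 1) (.e (nat_lit 75150) (nat_lit 0) .nil) .nil)))) (.nd (nat_lit 9) 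
(.lf (nat_lit 465333) (.g (nat_lit 3279) (.e (nat_lit 3238) (nat_lit 197) (.e (nat_lit 532523) (nat_lit 7) (.e (nat_lit 319534) (nat_lit 16) (.e (nat_lit 286732) (nat_lit 2) (.e (nat_lit 90178) (nat_lit 15) (.e (nat_lit 188436) (nat_lit 20) .nil)))))) (.g (nat_lit 1) (.e (nat_lit 74728) (nat_lit 0) .nil) .nil))) 
(.lf (nat_lit 465845) (.g (nat_lit 4165) (.e (nat_lit 3241) (nat_lit 197) (.e (nat_lit 532500) (nat_lit 1) (.e (nat_lit 57851) (nat_lit 252) (.e (nat_lit 57406) (nat_lit 12) (.e (nat_lit 336456) (nat_lit 34) (.e (nat_lit 483383) (nat_lit 23) (.e (nat_lit 336258) (nat_lit 15) .nil))))))) (.g (nat_lit 1) (.e (nat_lit 75509) (nat_lit 0) .nil) .nil)))))) 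
(.nd (nat_lit 7) (.nd (nat_lit 8) (.nd (nat_lit 9) 
(.lf (nat_lit 465013) (.g (nat_lit 4429) (.e (nat_lit 3236) (nat_lit 197) (.e (nat_lit 532550) (nat_lit 12) (.e (nat_lit 360474) (nat_lit 8) (.e (nat_lit 557085) (nat_lit 11) .nil)))) (.g (nat_lit 0) (.e (nat_lit 74341) (nat_lit 0) .nil) .nil))) 
(.lf (nat_lit 465525) (.g (nat_lit 2049) (.e (nat_lit 3238) (nat_lit 197) (.e (nat_lit 532549) (nat_lit 12) (.e (nat_lit 360473) (nat_lit 8) (.e (nat_lit 557089) (nat_lit 12) (.e (nat_lit 163844) (nat_lit 0) (.e (nat_lit 6420) (nat_lit 341) (.e (nat_lit 163902) (nat_lit 12) (.e (nat_lit 426093) (nat_lit 0) .nil)))))))) (.g (nat_lit 1) (.e (nat_lit 75079) (nat_lit 0) .nil) .nil)))) 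
(.nd (nat_lit 9) 
(.lf (nat_lit 465269) (.g (nat_lit 2364) (.e (nat_lit 3238) (nat_lit 197) (.e (nat_lit 532523) (nat_lit 7) (.e (nat_lit 319532) (nat_lit 16) (.e (nat_lit 286735) (nat_lit 3) (.e (nat_lit 98371) (nat_lit 28) .nil))))) (.g (nat_lit 0) (.e (nat_lit 74660) (nat_lit 0) .nil) .nil))) 
(.lf (nat_lit 465781) (.g (nat_lit 2913) (.e (nat_lit 3237) (nat_lit 197) (.e (nat_lit 532499) (nat_lit 1) (.e (nat_lit 57927) (nat_lit 282) (.e (nat_lit 163869) (nat_lit 2) (.e (nat_lit 196668) (nat_lit 14) (.e (nat_lit 73747) (nat_lit 3) (.e (nat_lit 516131) (nat_lit 3) (.e (nat_lit 221197) (nat_lit 20) .nil)))))))) (.g (nat_lit 1) (.e (nat_lit 75415) (nat_lit 0) .nil) .nil))))) 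
(.nd (nat_lit 8) (.nd (nat_lit 9) 
(.lf (nat_lit 465141) (.g (nat_lit 3464) (.e (nat_lit 3238) (nat_lit 197) (.e (nat_lit 532513) (nat_lit 3) (.e (nat_lit 114714) (nat_lit 22) (.e (nat_lit 90172) (nat_lit 14) (.e (nat_lit 180243) (nat_lit 5) (.e (nat_lit 532504) (nat_lit 1) (.e (nat_lit 57693) (nat_lit 157) (.e (nat_lit 229379) (nat_lit 0) .nil)))))))) (.g (nat_lit 1) (.e (nat_lit 74507) (nat_lit 0) .nil) .nil))) 
(.lf (nat_lit 465653) (.g (nat_lit 3799) (.e (nat_lit 3238) (nat_lit 197) (.e (nat_lit 532550) (nat_lit 12) (.e (nat_lit 360475) (nat_lit 8) (.e (nat_lit 557089) (nat_lit 12) (.e (nat_lit 163844) (nat_lit 0) (.e (nat_lit 6416) (nat_lit 341) (.e (nat_lit 163908) (nat_lit 12) (.e (nat_lit 426003) (nat_lit 0) .nil)))))))) (.g (nat_lit 1) (.e (nat_lit 75216) (nat_lit 0) .nil) .nil)))) 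
(.nd (nat_lit 9) 
(.lf (nat_lit 465397) (.g (nat_lit 1961) (.e (nat_lit 3238) (nat_lit 197) (.e (nat_lit 532531) (nat_lit 9) (.e (nat_lit 336324) (nat_lit 18) (.e (nat_lit 204881) (nat_lit 32) (.e (nat_lit 385066) (nat_lit 26) (.e (nat_lit 532532) (nat_lit 9) (.e (nat_lit 336306) (nat_lit 15) .nil))))))) (.g (nat_lit 1) (.e (nat_lit 74824) (nat_lit 0) .nil) .nil))) 
(.lf (nat_lit 465909) (.g (nat_lit 4158) (.e (nat_lit 3242) (nat_lit 197) (.e (nat_lit 532535) (nat_lit 9) (.e (nat_lit 336099) (nat_lit 9) (.e (nat_lit 336028) (nat_lit 3) (.e (nat_lit 98349) (nat_lit 24) (.e (nat_lit 409645) (nat_lit 18) (.e (nat_lit 303106) (nat_lit 0) .nil))))))) (.g (nat_lit 1) (.e (nat_lit 75624) (nat_lit 0) .nil) .nil))))))))) 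
(.nd (nat_lit 4) (.nd (nat_lit 5) (.nd (nat_lit 6) (.nd (nat_lit 7) (.nd (nat_lit 8) 
(.nd (nat_lit 9) 
(.lf (nat_lit 464909) (.g (nat_lit 4396) (.e (nat_lit 3234) (nat_lit 197) (.e (nat_lit 532569) (nat_lit 16) (.e (nat_lit 401451) (nat_lit 12) (.e (nat_lit 475185) (nat_lit 29) (.e (nat_lit 557109) (nat_lit 15) .nil))))) (.g (nat_lit 0) (.e (nat_lit 74106) (nat_lit 0) .nil) .nil))) 
(.lf (nat_lit 465421) (.g (nat_lit 4859) (.e (nat_lit 3238) (nat_lit 197) (.e (nat_lit 532535) (nat_lit 9) (.e (nat_lit 336099) (nat_lit 9) (.e (nat_lit 336013) (nat_lit 2) (.e (nat_lit 90134) (nat_lit 9) (.e (nat_lit 2822) (nat_lit 182) (.e (nat_lit 409645) (nat_lit 18) (.e (nat_lit 303104) (nat_lit 0) .nil)))))))) (.g (nat_lit 1) (.e (nat_lit 74860) (nat_lit 0) .nil) .nil)))) (.nd (nat_lit 9) 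
(.lf (nat_lit 465165) (.g (nat_lit 2543) (.e (nat_lit 3238) (nat_lit 197) (.e (nat_lit 532523) (nat_lit 7) (.e (nat_lit 319528) (nat_lit 16) (.e (nat_lit 286733) (nat_lit 2) (.e (nat_lit 90176) (nat_lit 15) (.e (nat_lit 188437) (nat_lit 20) .nil)))))) (.g (nat_lit 1) (.e (nat_lit 74556) (nat_lit 0) .nil) .nil))) 
(.lf (nat_lit 465677) (.g (nat_lit 5367) (.e (nat_lit 3238) (nat_lit 197) (.e (nat_lit 532550) (nat_lit 12) (.e (nat_lit 360475) (nat_lit 8) (.e (nat_lit 557090) (nat_lit 12) (.e (nat_lit 164020) (nat_lit 45) .nil))))) (.g (nat_lit 0) (.e (nat_lit 75240) (nat_lit 0) .nil) .nil))))) (.nd (nat_lit 8) (.nd (nat_lit 9) 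
(.lf (nat_lit 465037) (.g (nat_lit 2349) (.e (nat_lit 3238) (nat_lit 197) (.e (nat_lit 532499) (nat_lit 1) (.e (nat_lit 57927) (nat_lit 282) (.e (nat_lit 163868) (nat_lit 2) (.e (nat_lit 196668) (nat_lit 14) (.e (nat_lit 73746) (nat_lit 3) (.e (nat_lit 516131) (nat_lit 3) (.e (nat_lit 221195) (nat_lit 20) .nil)))))))) (.g (nat_lit 1) (.e (nat_lit 74378) (nat_lit 0) .nil) .nil))) 
(.lf (nat_lit 465549) (.g (nat_lit 2348) (.e (nat_lit 3238) (nat_lit 197) (.e (nat_lit 532549) (nat_lit 12) (.e (nat_lit 360474) (nat_lit 8) (.e (nat_lit 557085) (nat_lit 11) (.e (nat_lit 24665) (nat_lit 14) (.e (nat_lit 401413) (nat_lit 0) .nil)))))) (.g (nat_lit 1) (.e (nat_lit 75104) (nat_lit 0) .nil) .nil)))) (.nd (nat_lit 9) 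
(.lf (nat_lit 465293) (.g (nat_lit 2560) (.e (nat_lit 3238) (nat_lit 197) (.e (nat_lit 532523) (nat_lit 7) (.e (nat_lit 319533) (nat_lit 16) (.e (nat_lit 286734) (nat_lit 3) (.e (nat_lit 98369) (nat_lit 28) .nil))))) (.g (nat_lit 0) (.e (nat_lit 74686) (nat_lit 0) .nil) .nil))) 
(.lf (nat_lit 465805) (.g (nat_lit 4518) (.e (nat_lit 3237) (nat_lit 197) (.e (nat_lit 532550) (nat_lit 12) (.e (nat_lit 360474) (nat_lit 8) (.e (nat_lit 557094) (nat_lit 12) (.e (nat_lit 164022) (nat_lit 46) (.e (nat_lit 704737) (nat_lit 11) (.e (nat_lit 16389) (nat_lit 0) .nil))))))) (.g (nat_lit 1) (.e (nat_lit 75449) (nat_lit 0) .nil) .nil)))))) 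
(.nd (nat_lit 7) (.nd (nat_lit 8) (.nd (nat_lit 9) 
(.lf (nat_lit 464973) (.g (nat_lit 2318) (.e (nat_lit 3233) (nat_lit 197) (.e (nat_lit 532560) (nat_lit 14) (.e (nat_lit 376862) (nat_lit 22) (.e (nat_lit 90185) (nat_lit 17) (.e (nat_lit 237585) (nat_lit 1) .nil))))) (.g (nat_lit 0) (.e (nat_lit 74265) (nat_lit 0) .nil) .nil))) 
(.lf (nat_lit 465485) (.g (nat_lit 3165) (.e (nat_lit 3238) (nat_lit 197) (.e (nat_lit 532547) (nat_lit 11) (.e (nat_lit 352313) (nat_lit 23) (.e (nat_lit 98350) (nat_lit 24) (.e (nat_lit 409649) (nat_lit 18) (.e (nat_lit 303111) (nat_lit 0) .nil)))))) (.g (nat_lit 1) (.e (nat_lit 75037) (nat_lit 0) .nil) .nil)))) (.nd (nat_lit 9) 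
(.lf (nat_lit 465229) (.g (nat_lit 3809) (.e (nat_lit 3238) (nat_lit 197) (.e (nat_lit 532523) (nat_lit 7) (.e (nat_lit 319531) (nat_lit 16) (.e (nat_lit 286733) (nat_lit 2) (.e (nat_lit 90176) (nat_lit 15) (.e (nat_lit 188424) (nat_lit 20) .nil)))))) (.g (nat_lit 1) (.e (nat_lit 74620) (nat_lit 0) .nil) .nil))) 
(.lf (nat_lit 465741) (.g (nat_lit 2049) (.e (nat_lit 3238) (nat_lit 197) (.e (nat_lit 532569) (nat_lit 16) (.e (nat_lit 401448) (nat_lit 10) (.e (nat_lit 434246) (nat_lit 28) .nil)))) (.g (nat_lit 0) (.e (nat_lit 75309) (nat_lit 0) .nil) .nil))))) (.nd (nat_lit 8) (.nd (nat_lit 9) 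
(.lf (nat_lit 465101) (.g (nat_lit 2642) (.e (nat_lit 3238) (nat_lit 197) (.e (nat_lit 532502) (nat_lit 1) (.e (nat_lit 57852) (nat_lit 252) (.e (nat_lit 57406) (nat_lit 12) (.e (nat_lit 336454) (nat_lit 34) (.e (nat_lit 483385) (nat_lit 23) (.e (nat_lit 336306) (nat_lit 15) .nil))))))) (.g (nat_lit 1) (.e (nat_lit 74452) (nat_lit 0) .nil) .nil))) 
(.lf (nat_lit 465613) (.g (nat_lit 2762) (.e (nat_lit 3238) (nat_lit 197) (.e (nat_lit 532550) (nat_lit 12) (.e (nat_lit 360474) (nat_lit 8) (.e (nat_lit 557093) (nat_lit 12) (.e (nat_lit 164023) (nat_lit 46) (.e (nat_lit 704738) (nat_lit 11) (.e (nat_lit 16397) (nat_lit 0) .nil))))))) (.g (nat_lit 1) (.e (nat_lit 75175) (nat_lit 0) .nil) .nil)))) (.nd (nat_lit 9) 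
(.lf (nat_lit 465357) (.g (nat_lit 3438) (.e (nat_lit 3238) (nat_lit 197) (.e (nat_lit 532523) (nat_lit 7) (.e (nat_lit 319534) (nat_lit 16) (.e (nat_lit 286734) (nat_lit 3) (.e (nat_lit 98369) (nat_lit 28) (.e (nat_lit 442407) (nat_lit 20) .nil)))))) (.g (nat_lit 1) (.e (nat_lit 74753) (nat_lit 0) .nil) .nil))) 
(.lf (nat_lit 465869) (.g (nat_lit 4300) (.e (nat_lit 3241) (nat_lit 197) (.e (nat_lit 532550) (nat_lit 12) (.e (nat_lit 360475) (nat_lit 8) (.e (nat_lit 557091) (nat_lit 12) (.e (nat_lit 164022) (nat_lit 46) (.e (nat_lit 704736) (nat_lit 11) (.e (nat_lit 16384) (nat_lit 0) .nil))))))) (.g (nat_lit 1) (.e (nat_lit 75566) (nat_lit 0) .nil) .nil))))))) 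
(.nd (nat_lit 6) (.nd (nat_lit 7) (.nd (nat_lit 8) (.nd (nat_lit 9) 
(.lf (nat_lit 464941) (.g (nat_lit 2188) (.e (nat_lit 3233) (nat_lit 197) (.e (nat_lit 532530) (nat_lit 9) (.e (nat_lit 336326) (nat_lit 18) (.e (nat_lit 204854) (nat_lit 26) (.e (nat_lit 336326) (nat_lit 18) .nil))))) (.g (nat_lit 0) (.e (nat_lit 74200) (nat_lit 0) .nil) .nil))) 
(.lf (nat_lit 465453) (.g (nat_lit 1989) (.e (nat_lit 3238) (nat_lit 197) (.e (nat_lit 532535) (nat_lit 9) (.e (nat_lit 336173) (nat_lit 10) (.e (nat_lit 344117) (nat_lit 21) .nil)))) (.g (nat_lit 0) (.e (nat_lit 74894) (nat_lit 0) .nil) .nil)))) (.nd (nat_lit 9) 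
(.lf (nat_lit 465197) (.g (nat_lit 3585) (.e (nat_lit 3238) (nat_lit 197) (.e (nat_lit 532523) (nat_lit 7) (.e (nat_lit 319530) (nat_lit 16) (.e (nat_lit 286727) (nat_lit 0) (.e (nat_lit 1799) (nat_lit 119) (.e (nat_lit 516164) (nat_lit 11) (.e (nat_lit 442404) (nat_lit 20) .nil))))))) (.g (nat_lit 1) (.e (nat_lit 74588) (nat_lit 0) .nil) .nil))) 
(.lf (nat_lit 465709) (.g (nat_lit 3163) (.e (nat_lit 3238) (nat_lit 197) (.e (nat_lit 532559) (nat_lit 14) (.e (nat_lit 376869) (nat_lit 23) (.e (nat_lit 98350) (nat_lit 24) (.e (nat_lit 409649) (nat_lit 18) (.e (nat_lit 303111) (nat_lit 0) .nil)))))) (.g (nat_lit 1) (.e (nat_lit 75275) (nat_lit 0) .nil) .nil))))) (.nd (nat_lit 8) (.nd (nat_lit 9) 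
(.lf (nat_lit 465069) (.g (nat_lit 1999) (.e (nat_lit 3238) (nat_lit 197) (.e (nat_lit 532500) (nat_lit 1) (.e (nat_lit 57851) (nat_lit 252) (.e (nat_lit 57406) (nat_lit 12) (.e (nat_lit 336456) (nat_lit 34) (.e (nat_lit 483380) (nat_lit 23) (.e (nat_lit 336257) (nat_lit 15) .nil))))))) (.g (nat_lit 1) (.e (nat_lit 74414) (nat_lit 0) .nil) .nil))) 
(.lf (nat_lit 465581) (.g (nat_lit 2822) (.e (nat_lit 3238) (nat_lit 197) (.e (nat_lit 532550) (nat_lit 12) (.e (nat_lit 360466) (nat_lit 3) (.e (nat_lit 516139) (nat_lit 7) (.e (nat_lit 409648) (nat_lit 18) (.e (nat_lit 303104) (nat_lit 0) .nil)))))) (.g (nat_lit 1) (.e (nat_lit 75142) (nat_lit 0) .nil) .nil)))) (.nd (nat_lit 9) 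
(.lf (nat_lit 465325) (.g (nat_lit 2777) (.e (nat_lit 3238) (nat_lit 197) (.e (nat_lit 532523) (nat_lit 7) (.e (nat_lit 319534) (nat_lit 16) (.e (nat_lit 286732) (nat_lit 2) (.e (nat_lit 90134) (nat_lit 9) .nil))))) (.g (nat_lit 0) (.e (nat_lit 74720) (nat_lit 0) .nil) .nil))) 
(.lf (nat_lit 465837) (.g (nat_lit 2234) (.e (nat_lit 3241) (nat_lit 197) (.e (nat_lit 532499) (nat_lit 1) (.e (nat_lit 57927) (nat_lit 282) (.e (nat_lit 163868) (nat_lit 2) (.e (nat_lit 196668) (nat_lit 14) (.e (nat_lit 73747) (nat_lit 3) (.e (nat_lit 516131) (nat_lit 3) (.e (nat_lit 221197) (nat_lit 20) .nil)))))))) (.g (nat_lit 1) (.e (nat_lit 75499) (nat_lit 0) .nil) .nil)))))) 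
(.nd (nat_lit 7) (.nd (nat_lit 8) (.nd (nat_lit 9) 
(.lf (nat_lit 465005) (.g (nat_lit 2712) (.e (nat_lit 3236) (nat_lit 197) (.e (nat_lit 532501) (nat_lit 1) (.e (nat_lit 57851) (nat_lit 252) (.e (nat_lit 57406) (nat_lit 12) (.e (nat_lit 336456) (nat_lit 34) (.e (nat_lit 483383) (nat_lit 23) (.e (nat_lit 336258) (nat_lit 15) .nil))))))) (.g (nat_lit 1) (.e (nat_lit 74324) (nat_lit 0) .nil) .nil))) 
(.lf (nat_lit 465517) (.g (nat_lit 3942) (.e (nat_lit 3238) (nat_lit 197) (.e (nat_lit 532549) (nat_lit 12) (.e (nat_lit 360473) (nat_lit 8) (.e (nat_lit 557085) (nat_lit 11) (.e (nat_lit 24664) (nat_lit 14) (.e (nat_lit 401414) (nat_lit 0) .nil)))))) (.g (nat_lit 1) (.e (nat_lit 75071) (nat_lit 0) .nil) .nil)))) (.nd (nat_lit 9) 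
(.lf (nat_lit 465261) (.g (nat_lit 2627) (.e (nat_lit 3238) (nat_lit 197) (.e (nat_lit 532523) (nat_lit 7) (.e (nat_lit 319532) (nat_lit 16) (.e (nat_lit 286733) (nat_lit 2) (.e (nat_lit 90177) (nat_lit 15) (.e (nat_lit 188434) (nat_lit 20) .nil)))))) (.g (nat_lit 1) (.e (nat_lit 74652) (nat_lit 0) .nil) .nil))) 
(.lf (nat_lit 465773) (.g (nat_lit 7269) (.e (nat_lit 3239) (nat_lit 197) (.e (nat_lit 532550) (nat_lit 12) (.e (nat_lit 360475) (nat_lit 8) (.e (nat_lit 557090) (nat_lit 12) .nil)))) (.g (nat_lit 0) (.e (nat_lit 75407) (nat_lit 0) .nil) .nil))))) (.nd (nat_lit 8) (.nd (nat_lit 9) 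
(.lf (nat_lit 465133) (.g (nat_lit 1895) (.e (nat_lit 3238) (nat_lit 197) (.e (nat_lit 532507) (nat_lit 2) (.e (nat_lit 106534) (nat_lit 11) (.e (nat_lit 16413) (nat_lit 2) (.e (nat_lit 196672) (nat_lit 15) (.e (nat_lit 89856) (nat_lit 0) .nil)))))) (.g (nat_lit 1) (.e (nat_lit 74493) (nat_lit 0) .nil) .nil))) 
(.lf (nat_lit 465645) (.g (nat_lit 4828) (.e (nat_lit 3238) (nat_lit 197) (.e (nat_lit 532550) (nat_lit 12) (.e (nat_lit 360475) (nat_lit 8) (.e (nat_lit 557087) (nat_lit 11) (.e (nat_lit 24665) (nat_lit 14) (.e (nat_lit 401414) (nat_lit 0) .nil)))))) (.g (nat_lit 1) (.e (nat_lit 75208) (nat_lit 0) .nil) .nil)))) (.nd (nat_lit 9) 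
(.lf (nat_lit 465389) (.g (nat_lit 3050) (.e (nat_lit 3238) (nat_lit 197) (.e (nat_lit 532530) (nat_lit 9) (.e (nat_lit 336326) (nat_lit 18) (.e (nat_lit 204851) (nat_lit 26) (.e (nat_lit 336324) (nat_lit 18) (.e (nat_lit 204854) (nat_lit 26) (.e (nat_lit 336306) (nat_lit 15) .nil))))))) (.g (nat_lit 1) (.e (nat_lit 74816) (nat_lit 0) .nil) .nil))) 
(.lf (nat_lit 465901) (.g (nat_lit 2630) (.e (nat_lit 3242) (nat_lit 197) (.e (nat_lit 532499) (nat_lit 1) (.e (nat_lit 57927) (nat_lit 282) (.e (nat_lit 163869) (nat_lit 2) (.e (nat_lit 196670) (nat_lit 14) (.e (nat_lit 73746) (nat_lit 3) (.e (nat_lit 516129) (nat_lit 3) (.e (nat_lit 221197) (nat_lit 20) .nil)))))))) (.g (nat_lit 1) (.e (nat_lit 75607) (nat_lit 0) .nil) .nil)))))))) 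
(.nd (nat_lit 5) (.nd (nat_lit 6) (.nd (nat_lit 7) (.nd (nat_lit 8) (.nd (nat_lit 9) 
(.lf (nat_lit 464925) (.g (nat_lit 2166) (.e (nat_lit 3233) (nat_lit 197) (.e (nat_lit 532503) (nat_lit 1) (.e (nat_lit 57844) (nat_lit 252) (.e (nat_lit 57406) (nat_lit 12) (.e (nat_lit 336367) (nat_lit 27) .nil))))) (.g (nat_lit 0) (.e (nat_lit 74126) (nat_lit 0) .nil) .nil))) 
(.lf (nat_lit 465437) (.g (nat_lit 4656) (.e (nat_lit 3238) (nat_lit 197) (.e (nat_lit 532535) (nat_lit 9) (.e (nat_lit 336099) (nat_lit 9) (.e (nat_lit 336028) (nat_lit 3) (.e (nat_lit 98350) (nat_lit 24) (.e (nat_lit 409648) (nat_lit 18) (.e (nat_lit 303104) (nat_lit 0) .nil))))))) (.g (nat_lit 1) (.e (nat_lit 74876) (nat_lit 0) .nil) .nil)))) (.nd (nat_lit 9) 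
(.lf (nat_lit 465181) (.g (nat_lit 2337) (.e (nat_lit 3238) (nat_lit 197) (.e (nat_lit 532523) (nat_lit 7) (.e (nat_lit 319529) (nat_lit 16) (.e (nat_lit 286727) (nat_lit 0) (.e (nat_lit 1799) (nat_lit 119) .nil))))) (.g (nat_lit 0) (.e (nat_lit 74572) (nat_lit 0) .nil) .nil))) 
(.lf (nat_lit 465693) (.g (nat_lit 2194) (.e (nat_lit 3238) (nat_lit 197) (.e (nat_lit 532550) (nat_lit 12) (.e (nat_lit 360475) (nat_lit 8) (.e (nat_lit 557091) (nat_lit 12) (.e (nat_lit 164022) (nat_lit 46) .nil))))) (.g (nat_lit 0) (.e (nat_lit 75256) (nat_lit 0) .nil) .nil))))) (.nd (nat_lit 8) (.nd (nat_lit 9) 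
(.lf (nat_lit 465053) (.g (nat_lit 3132) (.e (nat_lit 3238) (nat_lit 197) (.e (nat_lit 532499) (nat_lit 1) (.e (nat_lit 57931) (nat_lit 282) (.e (nat_lit 163869) (nat_lit 2) (.e (nat_lit 196670) (nat_lit 14) (.e (nat_lit 73746) (nat_lit 3) (.e (nat_lit 516129) (nat_lit 3) (.e (nat_lit 221195) (nat_lit 20) .nil)))))))) (.g (nat_lit 1) (.e (nat_lit 74398) (nat_lit 0) .nil) .nil))) 
(.lf (nat_lit 465565) (.g (nat_lit 3283) (.e (nat_lit 3238) (nat_lit 197) (.e (nat_lit 532549) (nat_lit 12) (.e (nat_lit 360475) (nat_lit 8) (.e (nat_lit 557087) (nat_lit 11) (.e (nat_lit 24661) (nat_lit 14) .nil))))) (.g (nat_lit 0) (.e (nat_lit 75121) (nat_lit 0) .nil) .nil)))) (.nd (nat_lit 9) 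
(.lf (nat_lit 465309) (.g (nat_lit 4361) (.e (nat_lit 3238) (nat_lit 197) (.e (nat_lit 532523) (nat_lit 7) (.e (nat_lit 319533) (nat_lit 16) (.e (nat_lit 286735) (nat_lit 3) (.e (nat_lit 98369) (nat_lit 28) (.e (nat_lit 442406) (nat_lit 20) .nil)))))) (.g (nat_lit 1) (.e (nat_lit 74702) (nat_lit 0) .nil) .nil))) 
(.lf (nat_lit 465821) (.g (nat_lit 3045) (.e (nat_lit 3240) (nat_lit 197) (.e (nat_lit 532499) (nat_lit 1) (.e (nat_lit 57927) (nat_lit 282) (.e (nat_lit 163868) (nat_lit 2) (.e (nat_lit 196668) (nat_lit 14) (.e (nat_lit 73747) (nat_lit 3) (.e (nat_lit 516131) (nat_lit 3) (.e (nat_lit 221198) (nat_lit 20) .nil)))))))) (.g (nat_lit 1) (.e (nat_lit 75467) (nat_lit 0) .nil) .nil)))))) 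
(.nd (nat_lit 7) (.nd (nat_lit 8) (.nd (nat_lit 9) 
(.lf (nat_lit 464989) (.g (nat_lit 2402) (.e (nat_lit 3233) (nat_lit 197) (.e (nat_lit 532563) (nat_lit 15) (.e (nat_lit 385066) (nat_lit 26) (.e (nat_lit 532534) (nat_lit 9) (.e (nat_lit 336326) (nat_lit 18) .nil))))) (.g (nat_lit 0) (.e (nat_lit 74282) (nat_lit 0) .nil) .nil))) 
(.lf (nat_lit 465501) (.g (nat_lit 399) (.e (nat_lit 3238) (nat_lit 197) (.e (nat_lit 532549) (nat_lit 12) (.e (nat_lit 360466) (nat_lit 3) .nil))) (.g (nat_lit 0) (.e (nat_lit 75053) (nat_lit 0) .nil) .nil)))) (.nd (nat_lit 9) 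
(.lf (nat_lit 465245) (.g (nat_lit 4017) (.e (nat_lit 3238) (nat_lit 197) (.e (nat_lit 532523) (nat_lit 7) (.e (nat_lit 319531) (nat_lit 16) (.e (nat_lit 286735) (nat_lit 3) (.e (nat_lit 98370) (nat_lit 28) (.e (nat_lit 442404) (nat_lit 20) .nil)))))) (.g (nat_lit 1) (.e (nat_lit 74636) (nat_lit 0) .nil) .nil))) 
(.lf (nat_lit 465757) (.g (nat_lit 2778) (.e (nat_lit 3239) (nat_lit 197) (.e (nat_lit 532501) (nat_lit 1) (.e (nat_lit 57851) (nat_lit 252) (.e (nat_lit 57406) (nat_lit 12) (.e (nat_lit 336456) (nat_lit 34) .nil))))) (.g (nat_lit 0) (.e (nat_lit 75385) (nat_lit 0) .nil) .nil))))) (.nd (nat_lit 8) (.nd (nat_lit 9) 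
(.lf (nat_lit 465117) (.g (nat_lit 2813) (.e (nat_lit 3238) (nat_lit 197) (.e (nat_lit 532503) (nat_lit 1) (.e (nat_lit 57931) (nat_lit 282) (.e (nat_lit 163869) (nat_lit 2) (.e (nat_lit 196670) (nat_lit 14) (.e (nat_lit 73746) (nat_lit 3) (.e (nat_lit 516129) (nat_lit 3) (.e (nat_lit 221195) (nat_lit 20) .nil)))))))) (.g (nat_lit 1) (.e (nat_lit 74469) (nat_lit 0) .nil) .nil))) 
(.lf (nat_lit 465629) (.g (nat_lit 5301) (.e (nat_lit 3238) (nat_lit 197) (.e (nat_lit 532550) (nat_lit 12) (.e (nat_lit 360475) (nat_lit 8) (.e (nat_lit 557085) (nat_lit 11) (.e (nat_lit 24664) (nat_lit 14) (.e (nat_lit 401414) (nat_lit 0) .nil)))))) (.g (nat_lit 1) (.e (nat_lit 75192) (nat_lit 0) .nil) .nil)))) (.nd (nat_lit 9) 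
(.lf (nat_lit 465373) (.g (nat_lit 2401) (.e (nat_lit 3238) (nat_lit 197) (.e (nat_lit 532523) (nat_lit 7) (.e (nat_lit 319534) (nat_lit 16) (.e (nat_lit 286735) (nat_lit 3) (.e (nat_lit 98370) (nat_lit 28) .nil))))) (.g (nat_lit 0) (.e (nat_lit 74769) (nat_lit 0) .nil) .nil))) 
(.lf (nat_lit 465885) (.g (nat_lit 4282) (.e (nat_lit 3243) (nat_lit 197) (.e (nat_lit 532550) (nat_lit 12) (.e (nat_lit 360475) (nat_lit 8) (.e (nat_lit 557091) (nat_lit 12) .nil)))) (.g (nat_lit 0) (.e (nat_lit 75591) (nat_lit 0) .nil) .nil))))))) (.nd (nat_lit 6) (.nd (nat_lit 7) (.nd (nat_lit 8) (.nd (nat_lit 9) 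
(.lf (nat_lit 464957) (.g (nat_lit 4747) (.e (nat_lit 3233) (nat_lit 197) (.e (nat_lit 532550) (nat_lit 12) (.e (nat_lit 360475) (nat_lit 8) (.e (nat_lit 557089) (nat_lit 12) (.e (nat_lit 163844) (nat_lit 0) .nil))))) (.g (nat_lit 0) (.e (nat_lit 74238) (nat_lit 0) .nil) .nil))) 
(.lf (nat_lit 465469) (.g (nat_lit 1479) (.e (nat_lit 3238) (nat_lit 197) (.e (nat_lit 532535) (nat_lit 9) (.e (nat_lit 336176) (nat_lit 10) (.e (nat_lit 344120) (nat_lit 21) .nil)))) (.g (nat_lit 0) (.e (nat_lit 74914) (nat_lit 0) .nil) .nil)))) (.nd (nat_lit 9) 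
(.lf (nat_lit 465213) (.g (nat_lit 3231) (.e (nat_lit 3238) (nat_lit 197) (.e (nat_lit 532523) (nat_lit 7) (.e (nat_lit 319530) (nat_lit 16) (.e (nat_lit 286735) (nat_lit 3) (.e (nat_lit 98369) (nat_lit 28) .nil))))) (.g (nat_lit 0) (.e (nat_lit 74604) (nat_lit 0) .nil) .nil))) 
(.lf (nat_lit 465725) (.g (nat_lit 2798) (.e (nat_lit 3238) (nat_lit 197) (.e (nat_lit 532563) (nat_lit 15) (.e (nat_lit 385066) (nat_lit 26) (.e (nat_lit 532564) (nat_lit 15) (.e (nat_lit 385066) (nat_lit 26) (.e (nat_lit 532532) (nat_lit 9) (.e (nat_lit 336306) (nat_lit 15) .nil))))))) (.g (nat_lit 1) (.e (nat_lit 75291) (nat_lit 0) .nil) .nil))))) (.nd (nat_lit 8) (.nd (nat_lit 9) 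
(.lf (nat_lit 465085) (.g (nat_lit 2489) (.e (nat_lit 3238) (nat_lit 197) (.e (nat_lit 532501) (nat_lit 1) (.e (nat_lit 57851) (nat_lit 252) (.e (nat_lit 57406) (nat_lit 12) .nil)))) (.g (nat_lit 0) (.e (nat_lit 74431) (nat_lit 0) .nil) .nil))) 
(.lf (nat_lit 465597) (.g (nat_lit 4464) (.e (nat_lit 3238) (nat_lit 197) (.e (nat_lit 532550) (nat_lit 12) (.e (nat_lit 360474) (nat_lit 8) (.e (nat_lit 557085) (nat_lit 11) (.e (nat_lit 24665) (nat_lit 14) (.e (nat_lit 401408) (nat_lit 0) .nil)))))) (.g (nat_lit 1) (.e (nat_lit 75159) (nat_lit 0) .nil) .nil)))) (.nd (nat_lit 9) 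
(.lf (nat_lit 465341) (.g (nat_lit 4796) (.e (nat_lit 3238) (nat_lit 197) (.e (nat_lit 532523) (nat_lit 7) (.e (nat_lit 319534) (nat_lit 16) (.e (nat_lit 286733) (nat_lit 2) (.e (nat_lit 90176) (nat_lit 15) (.e (nat_lit 188437) (nat_lit 20) .nil)))))) (.g (nat_lit 1) (.e (nat_lit 74737) (nat_lit 0) .nil) .nil))) 
(.lf (nat_lit 465853) (.g (nat_lit 2103) (.e (nat_lit 3241) (nat_lit 197) (.e (nat_lit 532500) (nat_lit 1) (.e (nat_lit 57927) (nat_lit 282) (.e (nat_lit 163869) (nat_lit 2) (.e (nat_lit 196670) (nat_lit 14) (.e (nat_lit 73746) (nat_lit 3) (.e (nat_lit 516131) (nat_lit 3) (.e (nat_lit 221197) (nat_lit 20) .nil)))))))) (.g (nat_lit 1) (.e (nat_lit 75517) (nat_lit 0) .nil) .nil)))))) 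
(.nd (nat_lit 7) (.nd (nat_lit 8) (.nd (nat_lit 9) 
(.lf (nat_lit 465021) (.g (nat_lit 2624) (.e (nat_lit 3238) (nat_lit 197) (.e (nat_lit 532482) (nat_lit 0) (.e (nat_lit 6722) (nat_lit 362) (.e (nat_lit 180244) (nat_lit 5) (.e (nat_lit 532566) (nat_lit 15) (.e (nat_lit 385106) (nat_lit 50) (.e (nat_lit 786436) (nat_lit 0) .nil))))))) (.g (nat_lit 1) (.e (nat_lit 74352) (nat_lit 0) .nil) .nil))) 
(.lf (nat_lit 465533) (.g (nat_lit 4160) (.e (nat_lit 3238) (nat_lit 197) (.e (nat_lit 532549) (nat_lit 12) (.e (nat_lit 360473) (nat_lit 8) (.e (nat_lit 557091) (nat_lit 12) (.e (nat_lit 164022) (nat_lit 46) (.e (nat_lit 704738) (nat_lit 11) (.e (nat_lit 16396) (nat_lit 0) .nil))))))) (.g (nat_lit 1) (.e (nat_lit 75088) (nat_lit 0) .nil) .nil)))) (.nd (nat_lit 9) 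
(.lf (nat_lit 465277) (.g (nat_lit 2530) (.e (nat_lit 3238) (nat_lit 197) (.e (nat_lit 532523) (nat_lit 7) (.e (nat_lit 319533) (nat_lit 16) (.e (nat_lit 286732) (nat_lit 2) (.e (nat_lit 90177) (nat_lit 15) (.e (nat_lit 188434) (nat_lit 20) .nil)))))) (.g (nat_lit 1) (.e (nat_lit 74669) (nat_lit 0) .nil) .nil))) 
(.lf (nat_lit 465789) (.g (nat_lit 2273) (.e (nat_lit 3237) (nat_lit 197) (.e (nat_lit 532504) (nat_lit 1) (.e (nat_lit 57851) (nat_lit 252) (.e (nat_lit 57408) (nat_lit 12) .nil)))) (.g (nat_lit 0) (.e (nat_lit 75425) (nat_lit 0) .nil) .nil))))) (.nd (nat_lit 8) (.nd (nat_lit 9) 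
(.lf (nat_lit 465149) (.g (nat_lit 3521) (.e (nat_lit 3238) (nat_lit 197) (.e (nat_lit 532513) (nat_lit 3) (.e (nat_lit 114714) (nat_lit 22) (.e (nat_lit 90174) (nat_lit 14) (.e (nat_lit 180243) (nat_lit 5) (.e (nat_lit 532503) (nat_lit 1) (.e (nat_lit 57693) (nat_lit 157) (.e (nat_lit 229379) (nat_lit 0) .nil)))))))) (.g (nat_lit 1) (.e (nat_lit 74520) (nat_lit 0) .nil) .nil))) 
(.lf (nat_lit 465661) (.g (nat_lit 3754) (.e (nat_lit 3238) (nat_lit 197) (.e (nat_lit 532550) (nat_lit 12) (.e (nat_lit 360475) (nat_lit 8) (.e (nat_lit 557089) (nat_lit 12) (.e (nat_lit 163848) (nat_lit 0) (.e (nat_lit 6252) (nat_lit 337) (.e (nat_lit 2630) (nat_lit 164) (.e (nat_lit 172046) (nat_lit 0) .nil)))))))) (.g (nat_lit 1) (.e (nat_lit 75224) (nat_lit 0) .nil) .nil)))) (.nd (nat_lit 9) 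
(.lf (nat_lit 465405) (.g (nat_lit 4876) (.e (nat_lit 3238) (nat_lit 197) (.e (nat_lit 532535) (nat_lit 9) (.e (nat_lit 336099) (nat_lit 9) (.e (nat_lit 336013) (nat_lit 2) (.e (nat_lit 90121) (nat_lit 9) (.e (nat_lit 2829) (nat_lit 182) (.e (nat_lit 409648) (nat_lit 18) (.e (nat_lit 303104) (nat_lit 0) .nil)))))))) (.g (nat_lit 1) (.e (nat_lit 74844) (nat_lit 0) .nil) .nil))) 
(.lf (nat_lit 465917) (.g (nat_lit 4920) (.e (nat_lit 3242) (nat_lit 197) (.e (nat_lit 532550) (nat_lit 12) (.e (nat_lit 360474) (nat_lit 8) (.e (nat_lit 557093) (nat_lit 12) (.e (nat_lit 164022) (nat_lit 46) (.e (nat_lit 704736) (nat_lit 11) (.e (nat_lit 16385) (nat_lit 0) .nil))))))) (.g (nat_lit 1) (.e (nat_lit 75640) (nat_lit 0) .nil) .nil))))))))))) 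
(.nd (nat_lit 2) (.nd (nat_lit 3) (.nd (nat_lit 4) (.nd (nat_lit 5) (.nd (nat_lit 6) 
(.nd (nat_lit 7) (.nd (nat_lit 8) (.nd (nat_lit 9) 
(.lf (nat_lit 464899) (.g (nat_lit 707) (.e (nat_lit 3234) (nat_lit 197) (.e (nat_lit 532563) (nat_lit 15) (.e (nat_lit 385066) (nat_lit 26) .nil))) (.g (nat_lit 0) (.e (nat_lit 74096) (nat_lit 0) .nil) .nil))) 
(.lf (nat_lit 465411) (.g (nat_lit 5737) (.e (nat_lit 3238) (nat_lit 197) (.e (nat_lit 532535) (nat_lit 9) (.e (nat_lit 336099) (nat_lit 9) (.e (nat_lit 336013) (nat_lit 2) (.e (nat_lit 90127) (nat_lit 9) (.e (nat_lit 2830) (nat_lit 182) (.e (nat_lit 409649) (nat_lit 18) (.e (nat_lit 303104) (nat_lit 0) .nil)))))))) (.g (nat_lit 1) (.e (nat_lit 74850) (nat_lit 0) .nil) .nil)))) (.nd (nat_lit 9) 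
(.lf (nat_lit 465155) (.g (nat_lit 2294) (.e (nat_lit 3238) (nat_lit 197) (.e (nat_lit 532522) (nat_lit 7) (.e (nat_lit 319531) (nat_lit 16) (.e (nat_lit 286735) (nat_lit 3) (.e (nat_lit 98382) (nat_lit 31) .nil))))) (.g (nat_lit 0) (.e (nat_lit 74546) (nat_lit 0) .nil) .nil))) 
(.lf (nat_lit 465667) (.g (nat_lit 4181) (.e (nat_lit 3238) (nat_lit 197) (.e (nat_lit 532550) (nat_lit 12) (.e (nat_lit 360475) (nat_lit 8) (.e (nat_lit 557089) (nat_lit 12) (.e (nat_lit 163849) (nat_lit 0) (.e (nat_lit 6416) (nat_lit 341) (.e (nat_lit 163908) (nat_lit 12) (.e (nat_lit 426039) (nat_lit 0) .nil)))))))) (.g (nat_lit 1) (.e (nat_lit 75230) (nat_lit 0) .nil) .nil))))) 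
(.nd (nat_lit 8) (.nd (nat_lit 9) 
(.lf (nat_lit 465027) (.g (nat_lit 559) (.e (nat_lit 3238) (nat_lit 197) (.e (nat_lit 532490) (nat_lit 0) (.e (nat_lit 7936) (nat_lit 362) .nil))) (.g (nat_lit 0) (.e (nat_lit 74364) (nat_lit 0) .nil) .nil))) 
(.lf (nat_lit 465539) (.g (nat_lit 3790) (.e (nat_lit 3238) (nat_lit 197) (.e (nat_lit 532549) (nat_lit 12) (.e (nat_lit 360473) (nat_lit 8) (.e (nat_lit 557093) (nat_lit 12) (.e (nat_lit 164022) (nat_lit 46) (.e (nat_lit 704738) (nat_lit 11) (.e (nat_lit 16396) (nat_lit 0) .nil))))))) (.g (nat_lit 1) (.e (nat_lit 75094) (nat_lit 0) .nil) .nil)))) (.nd (nat_lit 9) 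
(.lf (nat_lit 465283) (.g (nat_lit 3771) (.e (nat_lit 3238) (nat_lit 197) (.e (nat_lit 532523) (nat_lit 7) (.e (nat_lit 319533) (nat_lit 16) (.e (nat_lit 286733) (nat_lit 2) (.e (nat_lit 90134) (nat_lit 9) (.e (nat_lit 2992) (nat_lit 186) (.e (nat_lit 442406) (nat_lit 20) .nil))))))) (.g (nat_lit 1) (.e (nat_lit 74676) (nat_lit 0) .nil) .nil))) 
(.lf (nat_lit 465795) (.g (nat_lit 5439) (.e (nat_lit 3237) (nat_lit 197) (.e (nat_lit 532550) (nat_lit 12) (.e (nat_lit 360474) (nat_lit 8) (.e (nat_lit 557091) (nat_lit 12) .nil)))) (.g (nat_lit 0) (.e (nat_lit 75439) (nat_lit 0) .nil) .nil)))))) (.nd (nat_lit 7) (.nd (nat_lit 8) (.nd (nat_lit 9) 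
(.lf (nat_lit 464963) (.g (nat_lit 4526) (.e (nat_lit 3233) (nat_lit 197) (.e (nat_lit 532550) (nat_lit 12) (.e (nat_lit 360475) (nat_lit 8) (.e (nat_lit 557091) (nat_lit 12) (.e (nat_lit 164022) (nat_lit 46) .nil))))) (.g (nat_lit 0) (.e (nat_lit 74245) (nat_lit 0) .nil) .nil))) 
(.lf (nat_lit 465475) (.g (nat_lit 3212) (.e (nat_lit 3238) (nat_lit 197) (.e (nat_lit 532535) (nat_lit 9) (.e (nat_lit 336177) (nat_lit 10) (.e (nat_lit 344117) (nat_lit 21) (.e (nat_lit 516139) (nat_lit 7) (.e (nat_lit 409649) (nat_lit 18) (.e (nat_lit 303111) (nat_lit 0) .nil))))))) (.g (nat_lit 1) (.e (nat_lit 74987) (nat_lit 0) .nil) .nil)))) (.nd (nat_lit 9) 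
(.lf (nat_lit 465219) (.g (nat_lit 3307) (.e (nat_lit 3238) (nat_lit 197) (.e (nat_lit 532523) (nat_lit 7) (.e (nat_lit 319530) (nat_lit 16) (.e (nat_lit 286735) (nat_lit 3) (.e (nat_lit 98381) (nat_lit 31) (.e (nat_lit 466955) (nat_lit 20) .nil)))))) (.g (nat_lit 1) (.e (nat_lit 74610) (nat_lit 0) .nil) .nil))) 
(.lf (nat_lit 465731) (.g (nat_lit 3415) (.e (nat_lit 3238) (nat_lit 197) (.e (nat_lit 532564) (nat_lit 15) (.e (nat_lit 385066) (nat_lit 26) (.e (nat_lit 532534) (nat_lit 9) (.e (nat_lit 336324) (nat_lit 18) (.e (nat_lit 204854) (nat_lit 26) (.e (nat_lit 336306) (nat_lit 15) .nil))))))) (.g (nat_lit 1) (.e (nat_lit 75297) (nat_lit 0) .nil) .nil))))) (.nd (nat_lit 8) (.nd (nat_lit 9) 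
(.lf (nat_lit 465091) (.g (nat_lit 4664) (.e (nat_lit 3238) (nat_lit 197) (.e (nat_lit 532501) (nat_lit 1) (.e (nat_lit 57851) (nat_lit 252) (.e (nat_lit 57406) (nat_lit 12) (.e (nat_lit 336456) (nat_lit 34) (.e (nat_lit 483383) (nat_lit 23) (.e (nat_lit 336306) (nat_lit 15) .nil))))))) (.g (nat_lit 1) (.e (nat_lit 74437) (nat_lit 0) .nil) .nil))) 
(.lf (nat_lit 465603) (.g (nat_lit 3846) (.e (nat_lit 3238) (nat_lit 197) (.e (nat_lit 532550) (nat_lit 12) (.e (nat_lit 360474) (nat_lit 8) (.e (nat_lit 557093) (nat_lit 12) (.e (nat_lit 164022) (nat_lit 46) (.e (nat_lit 704737) (nat_lit 11) (.e (nat_lit 16384) (nat_lit 0) .nil))))))) (.g (nat_lit 1) (.e (nat_lit 75165) (nat_lit 0) .nil) .nil)))) (.nd (nat_lit 9) 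
(.lf (nat_lit 465347) (.g (nat_lit 3588) (.e (nat_lit 3238) (nat_lit 197) (.e (nat_lit 532523) (nat_lit 7) (.e (nat_lit 319534) (nat_lit 16) (.e (nat_lit 286733) (nat_lit 2) (.e (nat_lit 90177) (nat_lit 15) (.e (nat_lit 188435) (nat_lit 20) .nil)))))) (.g (nat_lit 1) (.e (nat_lit 74743) (nat_lit 0) .nil) .nil))) 
(.lf (nat_lit 465859) (.g (nat_lit 2152) (.e (nat_lit 3241) (nat_lit 197) (.e (nat_lit 532535) (nat_lit 9) (.e (nat_lit 336176) (nat_lit 10) .nil))) (.g (nat_lit 0) (.e (nat_lit 75542) (nat_lit 0) .nil) .nil))))))) (.nd (nat_lit 6) (.nd (nat_lit 7) (.nd (nat_lit 8) (.nd (nat_lit 9) 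
(.lf (nat_lit 464931) (.g (nat_lit 2064) (.e (nat_lit 3233) (nat_lit 197) (.e (nat_lit 532523) (nat_lit 7) (.e (nat_lit 319538) (nat_lit 19) (.e (nat_lit 311312) (nat_lit 2) .nil)))) (.g (nat_lit 0) (.e (nat_lit 74186) (nat_lit 0) .nil) .nil))) 
(.lf (nat_lit 465443) (.g (nat_lit 3182) (.e (nat_lit 3238) (nat_lit 197) (.e (nat_lit 532535) (nat_lit 9) (.e (nat_lit 336110) (nat_lit 9) (.e (nat_lit 336028) (nat_lit 3) (.e (nat_lit 98350) (nat_lit 24) (.e (nat_lit 409649) (nat_lit 18) (.e (nat_lit 303104) (nat_lit 0) .nil))))))) (.g (nat_lit 1) (.e (nat_lit 74882) (nat_lit 0) .nil) .nil)))) (.nd (nat_lit 9) 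
(.lf (nat_lit 465187) (.g (nat_lit 4029) (.e (nat_lit 3238) (nat_lit 197) (.e (nat_lit 532523) (nat_lit 7) (.e (nat_lit 319529) (nat_lit 16) (.e (nat_lit 286733) (nat_lit 2) (.e (nat_lit 90178) (nat_lit 15) (.e (nat_lit 188441) (nat_lit 20) .nil)))))) (.g (nat_lit 1) (.e (nat_lit 74578) (nat_lit 0) .nil) .nil))) 
(.lf (nat_lit 465699) (.g (nat_lit 4414) (.e (nat_lit 3238) (nat_lit 197) (.e (nat_lit 532550) (nat_lit 12) (.e (nat_lit 360475) (nat_lit 8) (.e (nat_lit 557091) (nat_lit 12) (.e (nat_lit 164022) (nat_lit 46) (.e (nat_lit 704738) (nat_lit 11) (.e (nat_lit 16384) (nat_lit 0) .nil))))))) (.g (nat_lit 1) (.e (nat_lit 75262) (nat_lit 0) .nil) .nil))))) (.nd (nat_lit 8) (.nd (nat_lit 9) 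
(.lf (nat_lit 465059) (.g (nat_lit 3339) (.e (nat_lit 3238) (nat_lit 197) (.e (nat_lit 532500) (nat_lit 1) (.e (nat_lit 57851) (nat_lit 252) (.e (nat_lit 57406) (nat_lit 12) (.e (nat_lit 336454) (nat_lit 34) (.e (nat_lit 483383) (nat_lit 23) (.e (nat_lit 336306) (nat_lit 15) .nil))))))) (.g (nat_lit 1) (.e (nat_lit 74404) (nat_lit 0) .nil) .nil))) 
(.lf (nat_lit 465571) (.g (nat_lit 2055) (.e (nat_lit 3238) (nat_lit 197) (.e (nat_lit 532549) (nat_lit 12) (.e (nat_lit 360475) (nat_lit 8) (.e (nat_lit 557089) (nat_lit 12) .nil)))) (.g (nat_lit 0) (.e (nat_lit 75127) (nat_lit 0) .nil) .nil)))) (.nd (nat_lit 9) 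
(.lf (nat_lit 465315) (.g (nat_lit 2831) (.e (nat_lit 3238) (nat_lit 197) (.e (nat_lit 532523) (nat_lit 7) (.e (nat_lit 319533) (nat_lit 16) (.e (nat_lit 286735) (nat_lit 3) (.e (nat_lit 98380) (nat_lit 31) (.e (nat_lit 466955) (nat_lit 20) .nil)))))) (.g (nat_lit 1) (.e (nat_lit 74708) (nat_lit 0) .nil) .nil))) 
(.lf (nat_lit 465827) (.g (nat_lit 3049) (.e (nat_lit 3240) (nat_lit 197) (.e (nat_lit 532499) (nat_lit 1) (.e (nat_lit 57927) (nat_lit 282) (.e (nat_lit 163869) (nat_lit 2) (.e (nat_lit 196670) (nat_lit 14) (.e (nat_lit 73746) (nat_lit 3) (.e (nat_lit 516131) (nat_lit 3) (.e (nat_lit 221198) (nat_lit 20) .nil)))))))) (.g (nat_lit 1) (.e (nat_lit 75473) (nat_lit 0) .nil) .nil)))))) 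
(.nd (nat_lit 7) (.nd (nat_lit 8) (.nd (nat_lit 9) 
(.lf (nat_lit 464995) (.g (nat_lit 2223) (.e (nat_lit 3233) (nat_lit 197) (.e (nat_lit 532569) (nat_lit 16) (.e (nat_lit 401448) (nat_lit 10) (.e (nat_lit 434245) (nat_lit 28) .nil)))) (.g (nat_lit 0) (.e (nat_lit 74296) (nat_lit 0) .nil) .nil))) 
(.lf (nat_lit 465507) (.g (nat_lit 4416) (.e (nat_lit 3238) (nat_lit 197) (.e (nat_lit 532549) (nat_lit 12) (.e (nat_lit 360466) (nat_lit 3) (.e (nat_lit 516139) (nat_lit 7) (.e (nat_lit 409648) (nat_lit 18) (.e (nat_lit 303108) (nat_lit 0) .nil)))))) (.g (nat_lit 1) (.e (nat_lit 75059) (nat_lit 0) .nil) .nil)))) (.nd (nat_lit 9) 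
(.lf (nat_lit 465251) (.g (nat_lit 3571) (.e (nat_lit 3238) (nat_lit 197) (.e (nat_lit 532523) (nat_lit 7) (.e (nat_lit 319531) (nat_lit 16) (.e (nat_lit 286735) (nat_lit 3) (.e (nat_lit 98371) (nat_lit 28) (.e (nat_lit 442407) (nat_lit 20) .nil)))))) (.g (nat_lit 1) (.e (nat_lit 74642) (nat_lit 0) .nil) .nil))) 
(.lf (nat_lit 465763) (.g (nat_lit 3039) (.e (nat_lit 3239) (nat_lit 197) (.e (nat_lit 532535) (nat_lit 9) (.e (nat_lit 336099) (nat_lit 9) (.e (nat_lit 336028) (nat_lit 3) .nil)))) (.g (nat_lit 0) (.e (nat_lit 75393) (nat_lit 0) .nil) .nil))))) (.nd (nat_lit 8) (.nd (nat_lit 9) 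
(.lf (nat_lit 465123) (.g (nat_lit 1801) (.e (nat_lit 3238) (nat_lit 197) (.e (nat_lit 532504) (nat_lit 1) (.e (nat_lit 57852) (nat_lit 252) (.e (nat_lit 57447) (nat_lit 19) .nil)))) (.g (nat_lit 0) (.e (nat_lit 74479) (nat_lit 0) .nil) .nil))) 
(.lf (nat_lit 465635) (.g (nat_lit 3141) (.e (nat_lit 3238) (nat_lit 197) (.e (nat_lit 532550) (nat_lit 12) (.e (nat_lit 360475) (nat_lit 8) (.e (nat_lit 557086) (nat_lit 11) (.e (nat_lit 24663) (nat_lit 14) (.e (nat_lit 401414) (nat_lit 0) .nil)))))) (.g (nat_lit 1) (.e (nat_lit 75198) (nat_lit 0) .nil) .nil)))) (.nd (nat_lit 9) 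
(.lf (nat_lit 465379) (.g (nat_lit 2790) (.e (nat_lit 3238) (nat_lit 197) (.e (nat_lit 532523) (nat_lit 7) (.e (nat_lit 319534) (nat_lit 16) (.e (nat_lit 286735) (nat_lit 3) (.e (nat_lit 98371) (nat_lit 28) .nil))))) (.g (nat_lit 0) (.e (nat_lit 74775) (nat_lit 0) .nil) .nil))) 
(.lf (nat_lit 465891) (.g (nat_lit 2451) (.e (nat_lit 3242) (nat_lit 197) (.e (nat_lit 532499) (nat_lit 1) (.e (nat_lit 57927) (nat_lit 282) (.e (nat_lit 163868) (nat_lit 2) (.e (nat_lit 196668) (nat_lit 14) (.e (nat_lit 73747) (nat_lit 3) (.e (nat_lit 516131) (nat_lit 3) (.e (nat_lit 221197) (nat_lit 20) .nil)))))))) (.g (nat_lit 1) (.e (nat_lit 75597) (nat_lit 0) .nil) .nil)))))))) 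
(.nd (nat_lit 5) (.nd (nat_lit 6) (.nd (nat_lit 7) (.nd (nat_lit 8) (.nd (nat_lit 9) 
(.lf (nat_lit 464915) (.g (nat_lit 4910) (.e (nat_lit 3235) (nat_lit 197) (.e (nat_lit 532550) (nat_lit 12) (.e (nat_lit 360475) (nat_lit 8) (.e (nat_lit 557089) (nat_lit 12) .nil)))) (.g (nat_lit 0) (.e (nat_lit 74112) (nat_lit 0) .nil) .nil))) 
(.lf (nat_lit 465427) (.g (nat_lit 4665) (.e (nat_lit 3238) (nat_lit 197) (.e (nat_lit 532535) (nat_lit 9) (.e (nat_lit 336099) (nat_lit 9) (.e (nat_lit 336013) (nat_lit 2) (.e (nat_lit 90144) (nat_lit 9) (.e (nat_lit 2829) (nat_lit 182) (.e (nat_lit 409648) (nat_lit 18) (.e (nat_lit 303104) (nat_lit 0) .nil)))))))) (.g (nat_lit 1) (.e (nat_lit 74866) (nat_lit 0) .nil) .nil)))) (.nd (nat_lit 9) 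
(.lf (nat_lit 465171) (.g (nat_lit 3289) (.e (nat_lit 3238) (nat_lit 197) (.e (nat_lit 532523) (nat_lit 7) (.e (nat_lit 319528) (nat_lit 16) (.e (nat_lit 286733) (nat_lit 2) (.e (nat_lit 90178) (nat_lit 15) (.e (nat_lit 188441) (nat_lit 20) .nil)))))) (.g (nat_lit 1) (.e (nat_lit 74562) (nat_lit 0) .nil) .nil))) 
(.lf (nat_lit 465683) (.g (nat_lit 2522) (.e (nat_lit 3238) (nat_lit 197) (.e (nat_lit 532550) (nat_lit 12) (.e (nat_lit 360475) (nat_lit 8) (.e (nat_lit 557091) (nat_lit 12) (.e (nat_lit 163843) (nat_lit 0) (.e (nat_lit 6416) (nat_lit 341) (.e (nat_lit 163908) (nat_lit 12) (.e (nat_lit 426039) (nat_lit 0) .nil)))))))) (.g (nat_lit 1) (.e (nat_lit 75246) (nat_lit 0) .nil) .nil))))) 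
(.nd (nat_lit 8) (.nd (nat_lit 9) 
(.lf (nat_lit 465043) (.g (nat_lit 2388) (.e (nat_lit 3238) (nat_lit 197) (.e (nat_lit 532499) (nat_lit 1) (.e (nat_lit 57927) (nat_lit 282) (.e (nat_lit 163868) (nat_lit 2) (.e (nat_lit 196670) (nat_lit 14) (.e (nat_lit 73746) (nat_lit 3) (.e (nat_lit 516131) (nat_lit 3) (.e (nat_lit 221195) (nat_lit 20) .nil)))))))) (.g (nat_lit 1) (.e (nat_lit 74384) (nat_lit 0) .nil) .nil))) 
(.lf (nat_lit 465555) (.g (nat_lit 1307) (.e (nat_lit 3238) (nat_lit 197) (.e (nat_lit 532549) (nat_lit 12) (.e (nat_lit 360474) (nat_lit 8) (.e (nat_lit 557094) (nat_lit 12) .nil)))) (.g (nat_lit 0) (.e (nat_lit 75110) (nat_lit 0) .nil) .nil)))) (.nd (nat_lit 9) 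
(.lf (nat_lit 465299) (.g (nat_lit 4014) (.e (nat_lit 3238) (nat_lit 197) (.e (nat_lit 532523) (nat_lit 7) (.e (nat_lit 319533) (nat_lit 16) (.e (nat_lit 286734) (nat_lit 3) (.e (nat_lit 98371) (nat_lit 28) (.e (nat_lit 442406) (nat_lit 20) .nil)))))) (.g (nat_lit 1) (.e (nat_lit 74692) (nat_lit 0) .nil) .nil))) 
(.lf (nat_lit 465811) (.g (nat_lit 7195) (.e (nat_lit 3237) (nat_lit 197) (.e (nat_lit 532550) (nat_lit 12) (.e (nat_lit 360475) (nat_lit 8) (.e (nat_lit 557090) (nat_lit 12) .nil)))) (.g (nat_lit 0) (.e (nat_lit 75456) (nat_lit 0) .nil) .nil)))))) (.nd (nat_lit 7) (.nd (nat_lit 8) (.nd (nat_lit 9) 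
(.lf (nat_lit 464979) (.g (nat_lit 1918) (.e (nat_lit 3233) (nat_lit 197) (.e (nat_lit 532561) (nat_lit 14) (.e (nat_lit 376862) (nat_lit 22) (.e (nat_lit 90185) (nat_lit 17) (.e (nat_lit 237585) (nat_lit 1) (.e (nat_lit 164402) (nat_lit 256) (.e (nat_lit 57579) (nat_lit 61) .nil))))))) (.g (nat_lit 1) (.e (nat_lit 74272) (nat_lit 0) .nil) .nil))) 
(.lf (nat_lit 465491) (.g (nat_lit 3734) (.e (nat_lit 3238) (nat_lit 197) (.e (nat_lit 532547) (nat_lit 11) (.e (nat_lit 352315) (nat_lit 23) (.e (nat_lit 98349) (nat_lit 24) (.e (nat_lit 409646) (nat_lit 18) (.e (nat_lit 303104) (nat_lit 0) .nil)))))) (.g (nat_lit 1) (.e (nat_lit 75043) (nat_lit 0) .nil) .nil)))) (.nd (nat_lit 9) 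
(.lf (nat_lit 465235) (.g (nat_lit 5525) (.e (nat_lit 3238) (nat_lit 197) (.e (nat_lit 532523) (nat_lit 7) (.e (nat_lit 319531) (nat_lit 16) (.e (nat_lit 286733) (nat_lit 2) (.e (nat_lit 90178) (nat_lit 15) (.e (nat_lit 188440) (nat_lit 20) .nil)))))) (.g (nat_lit 1) (.e (nat_lit 74626) (nat_lit 0) .nil) .nil))) 
(.lf (nat_lit 465747) (.g (nat_lit 3773) (.e (nat_lit 3238) (nat_lit 197) (.e (nat_lit 532569) (nat_lit 16) (.e (nat_lit 401451) (nat_lit 12) (.e (nat_lit 475185) (nat_lit 29) (.e (nat_lit 557107) (nat_lit 15) (.e (nat_lit 188438) (nat_lit 20) .nil)))))) (.g (nat_lit 1) (.e (nat_lit 75316) (nat_lit 0) .nil) .nil))))) (.nd (nat_lit 8) (.nd (nat_lit 9) 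
(.lf (nat_lit 465107) (.g (nat_lit 3724) (.e (nat_lit 3238) (nat_lit 197) (.e (nat_lit 532503) (nat_lit 1) (.e (nat_lit 57847) (nat_lit 252) (.e (nat_lit 57445) (nat_lit 19) (.e (nat_lit 393229) (nat_lit 9) (.e (nat_lit 336086) (nat_lit 9) (.e (nat_lit 336306) (nat_lit 15) .nil))))))) (.g (nat_lit 1) (.e (nat_lit 74459) (nat_lit 0) .nil) .nil))) 
(.lf (nat_lit 465619) (.g (nat_lit 3816) (.e (nat_lit 3238) (nat_lit 197) (.e (nat_lit 532550) (nat_lit 12) (.e (nat_lit 360474) (nat_lit 8) (.e (nat_lit 557094) (nat_lit 12) (.e (nat_lit 164022) (nat_lit 46) (.e (nat_lit 704738) (nat_lit 11) (.e (nat_lit 16384) (nat_lit 0) .nil))))))) (.g (nat_lit 1) (.e (nat_lit 75181) (nat_lit 0) .nil) .nil)))) (.nd (nat_lit 9) 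
(.lf (nat_lit 465363) (.g (nat_lit 2575) (.e (nat_lit 3238) (nat_lit 197) (.e (nat_lit 532523) (nat_lit 7) (.e (nat_lit 319534) (nat_lit 16) (.e (nat_lit 286734) (nat_lit 3) (.e (nat_lit 98382) (nat_lit 31) .nil))))) (.g (nat_lit 0) (.e (nat_lit 74759) (nat_lit 0) .nil) .nil))) 
(.lf (nat_lit 465875) (.g (nat_lit 1008) (.e (nat_lit 3243) (nat_lit 197) (.e (nat_lit 532550) (nat_lit 12) (.e (nat_lit 360474) (nat_lit 8) .nil))) (.g (nat_lit 0) (.e (nat_lit 75579) (nat_lit 0) .nil) .nil))))))) (.nd (nat_lit 6) (.nd (nat_lit 7) (.nd (nat_lit 8) (.nd (nat_lit 9) 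
(.lf (nat_lit 464947) (.g (nat_lit 5153) (.e (nat_lit 3233) (nat_lit 197) (.e (nat_lit 532550) (nat_lit 12) (.e (nat_lit 360474) (nat_lit 8) (.e (nat_lit 557091) (nat_lit 12) .nil)))) (.g (nat_lit 0) (.e (nat_lit 74224) (nat_lit 0) .nil) .nil))) 
(.lf (nat_lit 465459) (.g (nat_lit 5247) (.e (nat_lit 3238) (nat_lit 197) (.e (nat_lit 532535) (nat_lit 9) (.e (nat_lit 336173) (nat_lit 10) (.e (nat_lit 344119) (nat_lit 21) (.e (nat_lit 516139) (nat_lit 7) (.e (nat_lit 409648) (nat_lit 18) (.e (nat_lit 303104) (nat_lit 0) .nil))))))) (.g (nat_lit 1) (.e (nat_lit 74900) (nat_lit 0) .nil) .nil)))) (.nd (nat_lit 9) 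
(.lf (nat_lit 465203) (.g (nat_lit 3589) (.e (nat_lit 3238) (nat_lit 197) (.e (nat_lit 532523) (nat_lit 7) (.e (nat_lit 319530) (nat_lit 16) (.e (nat_lit 286733) (nat_lit 2) (.e (nat_lit 90176) (nat_lit 15) (.e (nat_lit 188424) (nat_lit 20) .nil)))))) (.g (nat_lit 1) (.e (nat_lit 74594) (nat_lit 0) .nil) .nil))) 
(.lf (nat_lit 465715) (.g (nat_lit 523) (.e (nat_lit 3238) (nat_lit 197) (.e (nat_lit 532560) (nat_lit 14) (.e (nat_lit 376869) (nat_lit 23) .nil))) (.g (nat_lit 0) (.e (nat_lit 75281) (nat_lit 0) .nil) .nil))))) (.nd (nat_lit 8) (.nd (nat_lit 9) 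
(.lf (nat_lit 465075) (.g (nat_lit 2817) (.e (nat_lit 3238) (nat_lit 197) (.e (nat_lit 532500) (nat_lit 1) (.e (nat_lit 57851) (nat_lit 252) (.e (nat_lit 57406) (nat_lit 12) (.e (nat_lit 336456) (nat_lit 34) (.e (nat_lit 483391) (nat_lit 23) (.e (nat_lit 336305) (nat_lit 15) .nil))))))) (.g (nat_lit 1) (.e (nat_lit 74420) (nat_lit 0) .nil) .nil))) 
(.lf (nat_lit 465587) (.g (nat_lit 3363) (.e (nat_lit 3238) (nat_lit 197) (.e (nat_lit 532550) (nat_lit 12) (.e (nat_lit 360467) (nat_lit 3) (.e (nat_lit 516139) (nat_lit 7) (.e (nat_lit 409649) (nat_lit 18) (.e (nat_lit 303104) (nat_lit 0) .nil)))))) (.g (nat_lit 1) (.e (nat_lit 75148) (nat_lit 0) .nil) .nil)))) (.nd (nat_lit 9) 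
(.lf (nat_lit 465331) (.g (nat_lit 2752) (.e (nat_lit 3238) (nat_lit 197) (.e (nat_lit 532523) (nat_lit 7) (.e (nat_lit 319534) (nat_lit 16) (.e (nat_lit 286732) (nat_lit 2) (.e (nat_lit 90177) (nat_lit 15) .nil))))) (.g (nat_lit 0) (.e (nat_lit 74726) (nat_lit 0) .nil) .nil))) 
(.lf (nat_lit 465843) (.g (nat_lit 1987) (.e (nat_lit 3241) (nat_lit 197) (.e (nat_lit 532500) (nat_lit 1) (.e (nat_lit 57851) (nat_lit 252) (.e (nat_lit 57406) (nat_lit 12) (.e (nat_lit 336454) (nat_lit 34) (.e (nat_lit 483380) (nat_lit 23) (.e (nat_lit 336258) (nat_lit 15) .nil))))))) (.g (nat_lit 1) (.e (nat_lit 75507) (nat_lit 0) .nil) .nil)))))) 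
(.nd (nat_lit 7) (.nd (nat_lit 8) (.nd (nat_lit 9) 
(.lf (nat_lit 465011) (.g (nat_lit 2990) (.e (nat_lit 3236) (nat_lit 197) (.e (nat_lit 532535) (nat_lit 9) (.e (nat_lit 336099) (nat_lit 9) (.e (nat_lit 336028) (nat_lit 3) .nil)))) (.g (nat_lit 0) (.e (nat_lit 74333) (nat_lit 0) .nil) .nil))) 
(.lf (nat_lit 465523) (.g (nat_lit 4208) (.e (nat_lit 3238) (nat_lit 197) (.e (nat_lit 532549) (nat_lit 12) (.e (nat_lit 360473) (nat_lit 8) (.e (nat_lit 557087) (nat_lit 11) (.e (nat_lit 24665) (nat_lit 14) (.e (nat_lit 401413) (nat_lit 0) .nil)))))) (.g (nat_lit 1) (.e (nat_lit 75077) (nat_lit 0) .nil) .nil)))) (.nd (nat_lit 9) 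
(.lf (nat_lit 465267) (.g (nat_lit 2392) (.e (nat_lit 3238) (nat_lit 197) (.e (nat_lit 532523) (nat_lit 7) (.e (nat_lit 319532) (nat_lit 16) (.e (nat_lit 286735) (nat_lit 3) (.e (nat_lit 98369) (nat_lit 28) .nil))))) (.g (nat_lit 0) (.e (nat_lit 74658) (nat_lit 0) .nil) .nil))) 
(.lf (nat_lit 465779) (.g (nat_lit 2225) (.e (nat_lit 3237) (nat_lit 197) (.e (nat_lit 532499) (nat_lit 1) (.e (nat_lit 57927) (nat_lit 282) (.e (nat_lit 163868) (nat_lit 2) (.e (nat_lit 196670) (nat_lit 14) (.e (nat_lit 73746) (nat_lit 3) (.e (nat_lit 516131) (nat_lit 3) (.e (nat_lit 221197) (nat_lit 20) .nil)))))))) (.g (nat_lit 1) (.e (nat_lit 75413) (nat_lit 0) .nil) .nil))))) 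
(.nd (nat_lit 8) (.nd (nat_lit 9) 
(.lf (nat_lit 465139) (.g (nat_lit 2460) (.e (nat_lit 3238) (nat_lit 197) (.e (nat_lit 532513) (nat_lit 3) (.e (nat_lit 114714) (nat_lit 22) (.e (nat_lit 90172) (nat_lit 14) (.e (nat_lit 180243) (nat_lit 5) (.e (nat_lit 532501) (nat_lit 1) (.e (nat_lit 57693) (nat_lit 157) (.e (nat_lit 229379) (nat_lit 0) .nil)))))))) (.g (nat_lit 1) (.e (nat_lit 74505) (nat_lit 0) .nil) .nil))) 
(.lf (nat_lit 465651) (.g (nat_lit 4795) (.e (nat_lit 3238) (nat_lit 197) (.e (nat_lit 532550) (nat_lit 12) (.e (nat_lit 360475) (nat_lit 8) (.e (nat_lit 557089) (nat_lit 12) (.e (nat_lit 163843) (nat_lit 0) (.e (nat_lit 6420) (nat_lit 341) (.e (nat_lit 163902) (nat_lit 12) (.e (nat_lit 426093) (nat_lit 0) .nil)))))))) (.g (nat_lit 1) (.e (nat_lit 75214) (nat_lit 0) .nil) .nil)))) 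
(.nd (nat_lit 9) 
(.lf (nat_lit 465395) (.g (nat_lit 2444) (.e (nat_lit 3238) (nat_lit 197) (.e (nat_lit 532530) (nat_lit 9) (.e (nat_lit 336326) (nat_lit 18) (.e (nat_lit 204882) (nat_lit 32) (.e (nat_lit 385066) (nat_lit 26) (.e (nat_lit 532532) (nat_lit 9) (.e (nat_lit 336306) (nat_lit 15) .nil))))))) (.g (nat_lit 1) (.e (nat_lit 74822) (nat_lit 0) .nil) .nil))) 
(.lf (nat_lit 465907) (.g (nat_lit 3981) (.e (nat_lit 3242) (nat_lit 197) (.e (nat_lit 532535) (nat_lit 9) (.e (nat_lit 336099) (nat_lit 9) (.e (nat_lit 336013) (nat_lit 2) (.e (nat_lit 90165) (nat_lit 12) (.e (nat_lit 164208) (nat_lit 176) (.e (nat_lit 2819) (nat_lit 181) (.e (nat_lit 311300) (nat_lit 0) .nil)))))))) (.g (nat_lit 1) (.e (nat_lit 75622) (nat_lit 0) .nil) .nil))))))))) 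
(.nd (nat_lit 4) (.nd (nat_lit 5) (.nd (nat_lit 6) (.nd (nat_lit 7) (.nd (nat_lit 8) 
(.nd (nat_lit 9) 
(.lf (nat_lit 464907) (.g (nat_lit 2500) (.e (nat_lit 3234) (nat_lit 197) (.e (nat_lit 532563) (nat_lit 15) (.e (nat_lit 385066) (nat_lit 26) (.e (nat_lit 532534) (nat_lit 9) (.e (nat_lit 336326) (nat_lit 18) (.e (nat_lit 204854) (nat_lit 26) (.e (nat_lit 336301) (nat_lit 15) .nil))))))) (.g (nat_lit 1) (.e (nat_lit 74104) (nat_lit 0) .nil) .nil))) 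
(.lf (nat_lit 465419) (.g (nat_lit 5126) (.e (nat_lit 3238) (nat_lit 197) (.e (nat_lit 532535) (nat_lit 9) (.e (nat_lit 336099) (nat_lit 9) (.e (nat_lit 336013) (nat_lit 2) (.e (nat_lit 90131) (nat_lit 9) (.e (nat_lit 2830) (nat_lit 182) (.e (nat_lit 409649) (nat_lit 18) (.e (nat_lit 303104) (nat_lit 0) .nil)))))))) (.g (nat_lit 1) (.e (nat_lit 74858) (nat_lit 0) .nil) .nil)))) (.nd (nat_lit 9) 
(.lf (nat_lit 465163) (.g (nat_lit 3557) (.e (nat_lit 3238) (nat_lit 197) (.e (nat_lit 532523) (nat_lit 7) (.e (nat_lit 319528) (nat_lit 16) (.e (nat_lit 286733) (nat_lit 2) (.e (nat_lit 90134) (nat_lit 9) (.e (nat_lit 3002) (nat_lit 186) (.e (nat_lit 442406) (nat_lit 20) .nil))))))) (.g (nat_lit 1) (.e (nat_lit 74554) (nat_lit 0) .nil) .nil))) 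
(.lf (nat_lit 465675) (.g (nat_lit 3563) (.e (nat_lit 3238) (nat_lit 197) (.e (nat_lit 532550) (nat_lit 12) (.e (nat_lit 360475) (nat_lit 8) (.e (nat_lit 557089) (nat_lit 12) (.e (nat_lit 164017) (nat_lit 44) (.e (nat_lit 688138) (nat_lit 5) (.e (nat_lit 2887) (nat_lit 184) (.e (nat_lit 426042) (nat_lit 0) .nil)))))))) (.g (nat_lit 1) (.e (nat_lit 75238) (nat_lit 0) .nil) .nil))))) 
(.nd (nat_lit 8) (.nd (nat_lit 9) 
(.lf (nat_lit 465035) (.g (nat_lit 3472) (.e (nat_lit 3238) (nat_lit 197) (.e (nat_lit 532499) (nat_lit 1) (.e (nat_lit 57927) (nat_lit 282) (.e (nat_lit 163868) (nat_lit 2) (.e (nat_lit 196668) (nat_lit 14) (.e (nat_lit 73746) (nat_lit 3) (.e (nat_lit 516129) (nat_lit 3) (.e (nat_lit 221195) (nat_lit 20) .nil)))))))) (.g (nat_lit 1) (.e (nat_lit 74376) (nat_lit 0) .nil) .nil))) 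
(.lf (nat_lit 465547) (.g (nat_lit 2667) (.e (nat_lit 3238) (nat_lit 197) (.e (nat_lit 532549) (nat_lit 12) (.e (nat_lit 360474) (nat_lit 8) (.e (nat_lit 557085) (nat_lit 11) (.e (nat_lit 24664) (nat_lit 14) (.e (nat_lit 401414) (nat_lit 0) .nil)))))) (.g (nat_lit 1) (.e (nat_lit 75102) (nat_lit 0) .nil) .nil)))) (.nd (nat_lit 9) 
(.lf (nat_lit 465291) (.g (nat_lit 4330) (.e (nat_lit 3238) (nat_lit 197) (.e (nat_lit 532523) (nat_lit 7) (.e (nat_lit 319533) (nat_lit 16) (.e (nat_lit 286733) (nat_lit 2) (.e (nat_lit 90178) (nat_lit 15) (.e (nat_lit 188440) (nat_lit 20) .nil)))))) (.g (nat_lit 1) (.e (nat_lit 74684) (nat_lit 0) .nil) .nil))) 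
(.lf (nat_lit 465803) (.g (nat_lit 4545) (.e (nat_lit 3237) (nat_lit 197) (.e (nat_lit 532550) (nat_lit 12) (.e (nat_lit 360474) (nat_lit 8) (.e (nat_lit 557094) (nat_lit 12) (.e (nat_lit 164022) (nat_lit 46) (.e (nat_lit 704736) (nat_lit 11) (.e (nat_lit 16390) (nat_lit 0) .nil))))))) (.g (nat_lit 1) (.e (nat_lit 75447) (nat_lit 0) .nil) .nil)))))) 
(.nd (nat_lit 7) (.nd (nat_lit 8) (.nd (nat_lit 9) 
(.lf (nat_lit 464971) (.g (nat_lit 2884) (.e (nat_lit 3233) (nat_lit 197) (.e (nat_lit 532559) (nat_lit 14) (.e (nat_lit 376865) (nat_lit 22) (.e (nat_lit 90185) (nat_lit 17) (.e (nat_lit 237585) (nat_lit 1) (.e (nat_lit 164402) (nat_lit 256) (.e (nat_lit 57580) (nat_lit 61) .nil))))))) (.g (nat_lit 1) (.e (nat_lit 74261) (nat_lit 0) .nil) .nil))) 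
(.lf (nat_lit 465483) (.g (nat_lit 2432) (.e (nat_lit 3238) (nat_lit 197) (.e (nat_lit 532546) (nat_lit 11) (.e (nat_lit 352314) (nat_lit 23) (.e (nat_lit 98350) (nat_lit 24) (.e (nat_lit 409648) (nat_lit 18) (.e (nat_lit 303108) (nat_lit 0) .nil)))))) (.g (nat_lit 1) (.e (nat_lit 75026) (nat_lit 0) .nil) .nil)))) (.nd (nat_lit 9) 
(.lf (nat_lit 465227) (.g (nat_lit 4334) (.e (nat_lit 3238) (nat_lit 197) (.e (nat_lit 532523) (nat_lit 7) (.e (nat_lit 319531) (nat_lit 16) (.e (nat_lit 286733) (nat_lit 2) (.e (nat_lit 90134) (nat_lit 9) (.e (nat_lit 2992) (nat_lit 186) (.e (nat_lit 442406) (nat_lit 20) .nil))))))) (.g (nat_lit 1) (.e (nat_lit 74618) (nat_lit 0) .nil) .nil))) 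
(.lf (nat_lit 465739) (.g (nat_lit 4035) (.e (nat_lit 3238) (nat_lit 197) (.e (nat_lit 532569) (nat_lit 16) (.e (nat_lit 401448) (nat_lit 10) (.e (nat_lit 434232) (nat_lit 23) (.e (nat_lit 532566) (nat_lit 15) (.e (nat_lit 385106) (nat_lit 50) (.e (nat_lit 786436) (nat_lit 0) .nil))))))) (.g (nat_lit 1) (.e (nat_lit 75306) (nat_lit 0) .nil) .nil))))) (.nd (nat_lit 8) (.nd (nat_lit 9) 
(.lf (nat_lit 465099) (.g (nat_lit 2918) (.e (nat_lit 3238) (nat_lit 197) (.e (nat_lit 532502) (nat_lit 1) (.e (nat_lit 57692) (nat_lit 156) (.e (nat_lit 163874) (nat_lit 3) (.e (nat_lit 204838) (nat_lit 20) (.e (nat_lit 114715) (nat_lit 22) (.e (nat_lit 90170) (nat_lit 13) (.e (nat_lit 172046) (nat_lit 0) .nil)))))))) (.g (nat_lit 1) (.e (nat_lit 74450) (nat_lit 0) .nil) .nil))) 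
(.lf (nat_lit 465611) (.g (nat_lit 3203) (.e (nat_lit 3238) (nat_lit 197) (.e (nat_lit 532550) (nat_lit 12) (.e (nat_lit 360474) (nat_lit 8) (.e (nat_lit 557093) (nat_lit 12) (.e (nat_lit 164023) (nat_lit 46) (.e (nat_lit 704737) (nat_lit 11) (.e (nat_lit 16384) (nat_lit 0) .nil))))))) (.g (nat_lit 1) (.e (nat_lit 75173) (nat_lit 0) .nil) .nil)))) (.nd (nat_lit 9) 
(.lf (nat_lit 465355) (.g (nat_lit 3945) (.e (nat_lit 3238) (nat_lit 197) (.e (nat_lit 532523) (nat_lit 7) (.e (nat_lit 319534) (nat_lit 16) (.e (nat_lit 286734) (nat_lit 3) (.e (nat_lit 98369) (nat_lit 28) (.e (nat_lit 442404) (nat_lit 20) .nil)))))) (.g (nat_lit 1) (.e (nat_lit 74751) (nat_lit 0) .nil) .nil))) 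
(.lf (nat_lit 465867) (.g (nat_lit 3533) (.e (nat_lit 3241) (nat_lit 197) (.e (nat_lit 532550) (nat_lit 12) (.e (nat_lit 360475) (nat_lit 8) (.e (nat_lit 557091) (nat_lit 12) .nil)))) (.g (nat_lit 0) (.e (nat_lit 75563) (nat_lit 0) .nil) .nil))))))) (.nd (nat_lit 6) (.nd (nat_lit 7) (.nd (nat_lit 8) (.nd (nat_lit 9) 
(.lf (nat_lit 464939) (.g (nat_lit 2267) (.e (nat_lit 3233) (nat_lit 197) (.e (nat_lit 532530) (nat_lit 9) (.e (nat_lit 336326) (nat_lit 18) (.e (nat_lit 204852) (nat_lit 26) (.e (nat_lit 336326) (nat_lit 18) .nil))))) (.g (nat_lit 0) (.e (nat_lit 74197) (nat_lit 0) .nil) .nil))) 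
(.lf (nat_lit 465451) (.g (nat_lit 3473) (.e (nat_lit 3238) (nat_lit 197) (.e (nat_lit 532535) (nat_lit 9) (.e (nat_lit 336171) (nat_lit 10) (.e (nat_lit 344133) (nat_lit 26) (.e (nat_lit 557087) (nat_lit 11) (.e (nat_lit 24665) (nat_lit 14) (.e (nat_lit 401414) (nat_lit 0) .nil))))))) (.g (nat_lit 1) (.e (nat_lit 74892) (nat_lit 0) .nil) .nil)))) (.nd (nat_lit 9) 
(.lf (nat_lit 465195) (.g (nat_lit 2896) (.e (nat_lit 3238) (nat_lit 197) (.e (nat_lit 532523) (nat_lit 7) (.e (nat_lit 319529) (nat_lit 16) (.e (nat_lit 286735) (nat_lit 3) (.e (nat_lit 98382) (nat_lit 31) (.e (nat_lit 466955) (nat_lit 20) .nil)))))) (.g (nat_lit 1) (.e (nat_lit 74586) (nat_lit 0) .nil) .nil))) 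
(.lf (nat_lit 465707) (.g (nat_lit 2447) (.e (nat_lit 3238) (nat_lit 197) (.e (nat_lit 532559) (nat_lit 14) (.e (nat_lit 376868) (nat_lit 23) (.e (nat_lit 98350) (nat_lit 24) (.e (nat_lit 409648) (nat_lit 18) (.e (nat_lit 303108) (nat_lit 0) .nil)))))) (.g (nat_lit 1) (.e (nat_lit 75273) (nat_lit 0) .nil) .nil))))) (.nd (nat_lit 8) (.nd (nat_lit 9) 
(.lf (nat_lit 465067) (.g (nat_lit 3418) (.e (nat_lit 3238) (nat_lit 197) (.e (nat_lit 532500) (nat_lit 1) (.e (nat_lit 57851) (nat_lit 252) (.e (nat_lit 57406) (nat_lit 12) (.e (nat_lit 336456) (nat_lit 34) (.e (nat_lit 483379) (nat_lit 23) (.e (nat_lit 336303) (nat_lit 15) .nil))))))) (.g (nat_lit 1) (.e (nat_lit 74412) (nat_lit 0) .nil) .nil))) 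
(.lf (nat_lit 465579) (.g (nat_lit 3193) (.e (nat_lit 3238) (nat_lit 197) (.e (nat_lit 532550) (nat_lit 12) (.e (nat_lit 360465) (nat_lit 3) (.e (nat_lit 516139) (nat_lit 7) (.e (nat_lit 409649) (nat_lit 18) (.e (nat_lit 303111) (nat_lit 0) .nil)))))) (.g (nat_lit 1) (.e (nat_lit 75140) (nat_lit 0) .nil) .nil)))) (.nd (nat_lit 9) 
(.lf (nat_lit 465323) (.g (nat_lit 3066) (.e (nat_lit 3238) (nat_lit 197) (.e (nat_lit 532523) (nat_lit 7) (.e (nat_lit 319534) (nat_lit 16) (.e (nat_lit 286727) (nat_lit 0) (.e (nat_lit 1799) (nat_lit 119) (.e (nat_lit 516177) (nat_lit 14) (.e (nat_lit 466955) (nat_lit 20) .nil))))))) (.g (nat_lit 1) (.e (nat_lit 74718) (nat_lit 0) .nil) .nil))) 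
(.lf (nat_lit 465835) (.g (nat_lit 5181) (.e (nat_lit 3240) (nat_lit 197) (.e (nat_lit 532550) (nat_lit 12) (.e (nat_lit 360475) (nat_lit 8) (.e (nat_lit 557091) (nat_lit 12) (.e (nat_lit 164022) (nat_lit 46) (.e (nat_lit 704738) (nat_lit 11) (.e (nat_lit 16384) (nat_lit 0) .nil))))))) (.g (nat_lit 1) (.e (nat_lit 75497) (nat_lit 0) .nil) .nil)))))) 
(.nd (nat_lit 7) (.nd (nat_lit 8) (.nd (nat_lit 9) 
(.lf (nat_lit 465003) (.g (nat_lit 2183) (.e (nat_lit 3236) (nat_lit 197) (.e (nat_lit 532501) (nat_lit 1) (.e (nat_lit 57851) (nat_lit 252) (.e (nat_lit 57406) (nat_lit 12) .nil)))) (.g (nat_lit 0) (.e (nat_lit 74322) (nat_lit 0) .nil) .nil))) 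
(.lf (nat_lit 465515) (.g (nat_lit 2028) (.e (nat_lit 3238) (nat_lit 197) (.e (nat_lit 532549) (nat_lit 12) (.e (nat_lit 360468) (nat_lit 3) (.e (nat_lit 516139) (nat_lit 7) (.e (nat_lit 409648) (nat_lit 18) (.e (nat_lit 303104) (nat_lit 0) .nil)))))) (.g (nat_lit 1) (.e (nat_lit 75069) (nat_lit 0) .nil) .nil)))) (.nd (nat_lit 9) 
(.lf (nat_lit 465259) (.g (nat_lit 2706) (.e (nat_lit 3238) (nat_lit 197) (.e (nat_lit 532523) (nat_lit 7) (.e (nat_lit 319532) (nat_lit 16) (.e (nat_lit 286733) (nat_lit 2) (.e (nat_lit 90176) (nat_lit 15) (.e (nat_lit 188437) (nat_lit 20) .nil)))))) (.g (nat_lit 1) (.e (nat_lit 74650) (nat_lit 0) .nil) .nil))) 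
(.lf (nat_lit 465771) (.g (nat_lit 4908) (.e (nat_lit 3239) (nat_lit 197) (.e (nat_lit 532550) (nat_lit 12) (.e (nat_lit 360475) (nat_lit 8) (.e (nat_lit 557086) (nat_lit 11) .nil)))) (.g (nat_lit 0) (.e (nat_lit 75405) (nat_lit 0) .nil) .nil))))) (.nd (nat_lit 8) (.nd (nat_lit 9) 
(.lf (nat_lit 465131) (.g (nat_lit 1696) (.e (nat_lit 3238) (nat_lit 197) (.e (nat_lit 532506) (nat_lit 2) (.e (nat_lit 106536) (nat_lit 11) (.e (nat_lit 16413) (nat_lit 2) (.e (nat_lit 196672) (nat_lit 15) (.e (nat_lit 89856) (nat_lit 0) .nil)))))) (.g (nat_lit 1) (.e (nat_lit 74487) (nat_lit 0) .nil) .nil))) 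
(.lf (nat_lit 465643) (.g (nat_lit 4625) (.e (nat_lit 3238) (nat_lit 197) (.e (nat_lit 532550) (nat_lit 12) (.e (nat_lit 360475) (nat_lit 8) (.e (nat_lit 557087) (nat_lit 11) (.e (nat_lit 24665) (nat_lit 14) (.e (nat_lit 401408) (nat_lit 0) .nil)))))) (.g (nat_lit 1) (.e (nat_lit 75206) (nat_lit 0) .nil) .nil)))) (.nd (nat_lit 9) 
(.lf (nat_lit 465387) (.g (nat_lit 2026) (.e (nat_lit 3238) (nat_lit 197) (.e (nat_lit 532523) (nat_lit 7) (.e (nat_lit 327424) (nat_lit 16) (.e (nat_lit 286727) (nat_lit 0) (.e (nat_lit 1799) (nat_lit 119) (.e (nat_lit 516164) (nat_lit 11) (.e (nat_lit 442406) (nat_lit 20) .nil))))))) (.g (nat_lit 1) (.e (nat_lit 74784) (nat_lit 0) .nil) .nil))) 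
(.lf (nat_lit 465899) (.g (nat_lit 2828) (.e (nat_lit 3242) (nat_lit 197) (.e (nat_lit 532499) (nat_lit 1) (.e (nat_lit 57927) (nat_lit 282) (.e (nat_lit 163869) (nat_lit 2) (.e (nat_lit 196668) (nat_lit 14) (.e (nat_lit 73747) (nat_lit 3) (.e (nat_lit 516131) (nat_lit 3) (.e (nat_lit 221198) (nat_lit 20) .nil)))))))) (.g (nat_lit 1) (.e (nat_lit 75605) (nat_lit 0) .nil) .nil)))))))) 
(.nd (nat_lit 5) (.nd (nat_lit 6) (.nd (nat_lit 7) (.nd (nat_lit 8) (.nd (nat_lit 9) 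
(.lf (nat_lit 464923) (.g (nat_lit 3091) (.e (nat_lit 3233) (nat_lit 197) (.e (nat_lit 532500) (nat_lit 1) (.e (nat_lit 57851) (nat_lit 252) (.e (nat_lit 57406) (nat_lit 12) (.e (nat_lit 336456) (nat_lit 34) (.e (nat_lit 483393) (nat_lit 23) (.e (nat_lit 336271) (nat_lit 15) .nil))))))) (.g (nat_lit 1) (.e (nat_lit 74124) (nat_lit 0) .nil) .nil))) 
(.lf (nat_lit 465435) (.g (nat_lit 6143) (.e (nat_lit 3238) (nat_lit 197) (.e (nat_lit 532535) (nat_lit 9) (.e (nat_lit 336099) (nat_lit 9) (.e (nat_lit 336028) (nat_lit 3) (.e (nat_lit 98349) (nat_lit 24) (.e (nat_lit 409649) (nat_lit 18) (.e (nat_lit 303104) (nat_lit 0) .nil))))))) (.g (nat_lit 1) (.e (nat_lit 74874) (nat_lit 0) .nil) .nil)))) (.nd (nat_lit 9) 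
(.lf (nat_lit 465179) (.g (nat_lit 2623) (.e (nat_lit 3238) (nat_lit 197) (.e (nat_lit 532523) (nat_lit 7) (.e (nat_lit 319528) (nat_lit 16) (.e (nat_lit 286735) (nat_lit 3) (.e (nat_lit 98371) (nat_lit 28) (.e (nat_lit 442406) (nat_lit 20) .nil)))))) (.g (nat_lit 1) (.e (nat_lit 74570) (nat_lit 0) .nil) .nil))) 
(.lf (nat_lit 465691) (.g (nat_lit 2497) (.e (nat_lit 3238) (nat_lit 197) (.e (nat_lit 532550) (nat_lit 12) (.e (nat_lit 360475) (nat_lit 8) (.e (nat_lit 557091) (nat_lit 12) (.e (nat_lit 163849) (nat_lit 0) (.e (nat_lit 6420) (nat_lit 341) (.e (nat_lit 163902) (nat_lit 12) (.e (nat_lit 426093) (nat_lit 0) .nil)))))))) (.g (nat_lit 1) (.e (nat_lit 75254) (nat_lit 0) .nil) .nil))))) 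
(.nd (nat_lit 8) (.nd (nat_lit 9) 
(.lf (nat_lit 465051) (.g (nat_lit 2008) (.e (nat_lit 3238) (nat_lit 197) (.e (nat_lit 532499) (nat_lit 1) (.e (nat_lit 57927) (nat_lit 282) (.e (nat_lit 163871) (nat_lit 2) (.e (nat_lit 196670) (nat_lit 14) .nil))))) (.g (nat_lit 0) (.e (nat_lit 74396) (nat_lit 0) .nil) .nil))) 
(.lf (nat_lit 465563) (.g (nat_lit 4751) (.e (nat_lit 3238) (nat_lit 197) (.e (nat_lit 532549) (nat_lit 12) (.e (nat_lit 360475) (nat_lit 8) (.e (nat_lit 557086) (nat_lit 11) (.e (nat_lit 24664) (nat_lit 14) (.e (nat_lit 401414) (nat_lit 0) .nil)))))) (.g (nat_lit 1) (.e (nat_lit 75118) (nat_lit 0) .nil) .nil)))) (.nd (nat_lit 9) 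
(.lf (nat_lit 465307) (.g (nat_lit 3064) (.e (nat_lit 3238) (nat_lit 197) (.e (nat_lit 532523) (nat_lit 7) (.e (nat_lit 319533) (nat_lit 16) (.e (nat_lit 286735) (nat_lit 3) (.e (nat_lit 98369) (nat_lit 28) (.e (nat_lit 442403) (nat_lit 20) .nil)))))) (.g (nat_lit 1) (.e (nat_lit 74700) (nat_lit 0) .nil) .nil))) 
(.lf (nat_lit 465819) (.g (nat_lit 2347) (.e (nat_lit 3240) (nat_lit 197) (.e (nat_lit 532499) (nat_lit 1) (.e (nat_lit 57927) (nat_lit 282) (.e (nat_lit 163868) (nat_lit 2) (.e (nat_lit 196668) (nat_lit 14) (.e (nat_lit 73746) (nat_lit 3) (.e (nat_lit 516131) (nat_lit 3) (.e (nat_lit 221198) (nat_lit 20) .nil)))))))) (.g (nat_lit 1) (.e (nat_lit 75465) (nat_lit 0) .nil) .nil)))))) 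
(.nd (nat_lit 7) (.nd (nat_lit 8) (.nd (nat_lit 9) 
(.lf (nat_lit 464987) (.g (nat_lit 2478) (.e (nat_lit 3233) (nat_lit 197) (.e (nat_lit 532563) (nat_lit 15) (.e (nat_lit 385066) (nat_lit 26) (.e (nat_lit 532530) (nat_lit 9) (.e (nat_lit 336326) (nat_lit 18) (.e (nat_lit 204854) (nat_lit 26) (.e (nat_lit 336238) (nat_lit 15) .nil))))))) (.g (nat_lit 1) (.e (nat_lit 74280) (nat_lit 0) .nil) .nil))) 
(.lf (nat_lit 465499) (.g (nat_lit 3514) (.e (nat_lit 3238) (nat_lit 197) (.e (nat_lit 532547) (nat_lit 11) (.e (nat_lit 352315) (nat_lit 23) (.e (nat_lit 98350) (nat_lit 24) (.e (nat_lit 409649) (nat_lit 18) (.e (nat_lit 303104) (nat_lit 0) .nil)))))) (.g (nat_lit 1) (.e (nat_lit 75051) (nat_lit 0) .nil) .nil)))) (.nd (nat_lit 9) 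
(.lf (nat_lit 465243) (.g (nat_lit 3053) (.e (nat_lit 3238) (nat_lit 197) (.e (nat_lit 532523) (nat_lit 7) (.e (nat_lit 319531) (nat_lit 16) (.e (nat_lit 286735) (nat_lit 3) (.e (nat_lit 98369) (nat_lit 28) (.e (nat_lit 442407) (nat_lit 20) .nil)))))) (.g (nat_lit 1) (.e (nat_lit 74634) (nat_lit 0) .nil) .nil))) 
(.lf (nat_lit 465755) (.g (nat_lit 2486) (.e (nat_lit 3239) (nat_lit 197) (.e (nat_lit 532500) (nat_lit 1) (.e (nat_lit 57851) (nat_lit 252) (.e (nat_lit 57406) (nat_lit 12) (.e (nat_lit 336456) (nat_lit 34) .nil))))) (.g (nat_lit 0) (.e (nat_lit 75383) (nat_lit 0) .nil) .nil))))) (.nd (nat_lit 8) (.nd (nat_lit 9) 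
(.lf (nat_lit 465115) (.g (nat_lit 2697) (.e (nat_lit 3238) (nat_lit 197) (.e (nat_lit 532503) (nat_lit 1) (.e (nat_lit 57848) (nat_lit 252) (.e (nat_lit 57448) (nat_lit 19) (.e (nat_lit 393229) (nat_lit 9) (.e (nat_lit 336086) (nat_lit 9) (.e (nat_lit 336306) (nat_lit 15) .nil))))))) (.g (nat_lit 1) (.e (nat_lit 74467) (nat_lit 0) .nil) .nil))) 
(.lf (nat_lit 465627) (.g (nat_lit 3322) (.e (nat_lit 3238) (nat_lit 197) (.e (nat_lit 532550) (nat_lit 12) (.e (nat_lit 360475) (nat_lit 8) (.e (nat_lit 557074) (nat_lit 9) .nil)))) (.g (nat_lit 0) (.e (nat_lit 75190) (nat_lit 0) .nil) .nil)))) (.nd (nat_lit 9) 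
(.lf (nat_lit 465371) (.g (nat_lit 4717) (.e (nat_lit 3238) (nat_lit 197) (.e (nat_lit 532523) (nat_lit 7) (.e (nat_lit 319534) (nat_lit 16) (.e (nat_lit 286735) (nat_lit 3) (.e (nat_lit 98369) (nat_lit 28) (.e (nat_lit 442406) (nat_lit 20) .nil)))))) (.g (nat_lit 1) (.e (nat_lit 74767) (nat_lit 0) .nil) .nil))) 
(.lf (nat_lit 465883) (.g (nat_lit 4844) (.e (nat_lit 3243) (nat_lit 197) (.e (nat_lit 532550) (nat_lit 12) (.e (nat_lit 360475) (nat_lit 8) (.e (nat_lit 557087) (nat_lit 11) .nil)))) (.g (nat_lit 0) (.e (nat_lit 75589) (nat_lit 0) .nil) .nil))))))) (.nd (nat_lit 6) (.nd (nat_lit 7) (.nd (nat_lit 8) (.nd (nat_lit 9) 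
(.lf (nat_lit 464955) (.g (nat_lit 5071) (.e (nat_lit 3233) (nat_lit 197) (.e (nat_lit 532550) (nat_lit 12) (.e (nat_lit 360475) (nat_lit 8) (.e (nat_lit 557087) (nat_lit 11) .nil)))) (.g (nat_lit 0) (.e (nat_lit 74236) (nat_lit 0) .nil) .nil))) 
(.lf (nat_lit 465467) (.g (nat_lit 2082) (.e (nat_lit 3238) (nat_lit 197) (.e (nat_lit 532535) (nat_lit 9) (.e (nat_lit 336173) (nat_lit 10) (.e (nat_lit 344132) (nat_lit 26) .nil)))) (.g (nat_lit 0) (.e (nat_lit 74909) (nat_lit 0) .nil) .nil)))) (.nd (nat_lit 9) 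
(.lf (nat_lit 465211) (.g (nat_lit 5574) (.e (nat_lit 3238) (nat_lit 197) (.e (nat_lit 532523) (nat_lit 7) (.e (nat_lit 319530) (nat_lit 16) (.e (nat_lit 286733) (nat_lit 2) (.e (nat_lit 90178) (nat_lit 15) (.e (nat_lit 188440) (nat_lit 20) .nil)))))) (.g (nat_lit 1) (.e (nat_lit 74602) (nat_lit 0) .nil) .nil))) 
(.lf (nat_lit 465723) (.g (nat_lit 4187) (.e (nat_lit 3238) (nat_lit 197) (.e (nat_lit 532563) (nat_lit 15) (.e (nat_lit 385066) (nat_lit 26) (.e (nat_lit 532530) (nat_lit 9) (.e (nat_lit 336324) (nat_lit 18) (.e (nat_lit 204854) (nat_lit 26) (.e (nat_lit 336306) (nat_lit 15) .nil))))))) (.g (nat_lit 1) (.e (nat_lit 75289) (nat_lit 0) .nil) .nil))))) (.nd (nat_lit 8) (.nd (nat_lit 9) 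
(.lf (nat_lit 465083) (.g (nat_lit 4370) (.e (nat_lit 3238) (nat_lit 197) (.e (nat_lit 532500) (nat_lit 1) (.e (nat_lit 57854) (nat_lit 252) (.e (nat_lit 57409) (nat_lit 12) (.e (nat_lit 336454) (nat_lit 34) (.e (nat_lit 483385) (nat_lit 23) (.e (nat_lit 336306) (nat_lit 15) .nil))))))) (.g (nat_lit 1) (.e (nat_lit 74429) (nat_lit 0) .nil) .nil))) 
(.lf (nat_lit 465595) (.g (nat_lit 2493) (.e (nat_lit 3238) (nat_lit 197) (.e (nat_lit 532550) (nat_lit 12) (.e (nat_lit 360474) (nat_lit 8) (.e (nat_lit 557085) (nat_lit 11) (.e (nat_lit 24663) (nat_lit 14) .nil))))) (.g (nat_lit 0) (.e (nat_lit 75157) (nat_lit 0) .nil) .nil)))) (.nd (nat_lit 9) 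
(.lf (nat_lit 465339) (.g (nat_lit 5069) (.e (nat_lit 3238) (nat_lit 197) (.e (nat_lit 532523) (nat_lit 7) (.e (nat_lit 319534) (nat_lit 16) (.e (nat_lit 286733) (nat_lit 2) (.e (nat_lit 90176) (nat_lit 15) (.e (nat_lit 188424) (nat_lit 20) .nil)))))) (.g (nat_lit 1) (.e (nat_lit 74735) (nat_lit 0) .nil) .nil))) 
(.lf (nat_lit 465851) (.g (nat_lit 1468) (.e (nat_lit 3241) (nat_lit 197) (.e (nat_lit 532500) (nat_lit 1) (.e (nat_lit 57926) (nat_lit 282) (.e (nat_lit 163875) (nat_lit 3) .nil)))) (.g (nat_lit 0) (.e (nat_lit 75515) (nat_lit 0) .nil) .nil)))))) (.nd (nat_lit 7) (.nd (nat_lit 8) (.nd (nat_lit 9) 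
(.lf (nat_lit 465019) (.g (nat_lit 2453) (.e (nat_lit 3236) (nat_lit 197) (.e (nat_lit 532563) (nat_lit 15) (.e (nat_lit 385066) (nat_lit 26) (.e (nat_lit 532563) (nat_lit 15) (.e (nat_lit 385066) (nat_lit 26) .nil))))) (.g (nat_lit 0) (.e (nat_lit 74348) (nat_lit 0) .nil) .nil))) 
(.lf (nat_lit 465531) (.g (nat_lit 3797) (.e (nat_lit 3238) (nat_lit 197) (.e (nat_lit 532549) (nat_lit 12) (.e (nat_lit 360473) (nat_lit 8) (.e (nat_lit 557091) (nat_lit 12) (.e (nat_lit 164022) (nat_lit 46) (.e (nat_lit 704737) (nat_lit 11) (.e (nat_lit 16396) (nat_lit 0) .nil))))))) (.g (nat_lit 1) (.e (nat_lit 75086) (nat_lit 0) .nil) .nil)))) (.nd (nat_lit 9) 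
(.lf (nat_lit 465275) (.g (nat_lit 4673) (.e (nat_lit 3238) (nat_lit 197) (.e (nat_lit 532523) (nat_lit 7) (.e (nat_lit 319533) (nat_lit 16) (.e (nat_lit 286732) (nat_lit 2) (.e (nat_lit 90176) (nat_lit 15) (.e (nat_lit 188437) (nat_lit 20) .nil)))))) (.g (nat_lit 1) (.e (nat_lit 74667) (nat_lit 0) .nil) .nil))) 
(.lf (nat_lit 465787) (.g (nat_lit 2261) (.e (nat_lit 3237) (nat_lit 197) (.e (nat_lit 532504) (nat_lit 1) (.e (nat_lit 57851) (nat_lit 252) (.e (nat_lit 57406) (nat_lit 12) (.e (nat_lit 336454) (nat_lit 34) .nil))))) (.g (nat_lit 0) (.e (nat_lit 75423) (nat_lit 0) .nil) .nil))))) (.nd (nat_lit 8) (.nd (nat_lit 9) 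
(.lf (nat_lit 465147) (.g (nat_lit 2758) (.e (nat_lit 3238) (nat_lit 197) (.e (nat_lit 532513) (nat_lit 3) (.e (nat_lit 114714) (nat_lit 22) (.e (nat_lit 90174) (nat_lit 14) (.e (nat_lit 180243) (nat_lit 5) (.e (nat_lit 532499) (nat_lit 1) (.e (nat_lit 57694) (nat_lit 157) (.e (nat_lit 229379) (nat_lit 0) .nil)))))))) (.g (nat_lit 1) (.e (nat_lit 74518) (nat_lit 0) .nil) .nil))) 
(.lf (nat_lit 465659) (.g (nat_lit 3803) (.e (nat_lit 3238) (nat_lit 197) (.e (nat_lit 532550) (nat_lit 12) (.e (nat_lit 360475) (nat_lit 8) (.e (nat_lit 557089) (nat_lit 12) (.e (nat_lit 163844) (nat_lit 0) (.e (nat_lit 6420) (nat_lit 341) (.e (nat_lit 163908) (nat_lit 12) (.e (nat_lit 426003) (nat_lit 0) .nil)))))))) (.g (nat_lit 1) (.e (nat_lit 75222) (nat_lit 0) .nil) .nil)))) 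
(.nd (nat_lit 9) 
(.lf (nat_lit 465403) (.g (nat_lit 1948) (.e (nat_lit 3238) (nat_lit 197) (.e (nat_lit 532535) (nat_lit 9) (.e (nat_lit 336099) (nat_lit 9) (.e (nat_lit 336013) (nat_lit 2) .nil)))) (.g (nat_lit 0) (.e (nat_lit 74838) (nat_lit 0) .nil) .nil))) 
(.lf (nat_lit 465915) (.g (nat_lit 4315) (.e (nat_lit 3242) (nat_lit 197) (.e (nat_lit 532550) (nat_lit 12) (.e (nat_lit 360474) (nat_lit 8) (.e (nat_lit 557093) (nat_lit 12) (.e (nat_lit 164022) (nat_lit 46) (.e (nat_lit 704735) (nat_lit 11) (.e (nat_lit 16389) (nat_lit 0) .nil))))))) (.g (nat_lit 1) (.e (nat_lit 75638) (nat_lit 0) .nil) .nil)))))))))) 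
(.nd (nat_lit 3) (.nd (nat_lit 4) (.nd (nat_lit 5) (.nd (nat_lit 6) (.nd (nat_lit 7) 
(.nd (nat_lit 8) (.nd (nat_lit 9) 
(.lf (nat_lit 464903) (.g (nat_lit 2568) (.e (nat_lit 3234) (nat_lit 197) (.e (nat_lit 532563) (nat_lit 15) (.e (nat_lit 385066) (nat_lit 26) (.e (nat_lit 532534) (nat_lit 9) (.e (nat_lit 336326) (nat_lit 18) (.e (nat_lit 204854) (nat_lit 26) (.e (nat_lit 336265) (nat_lit 15) .nil))))))) (.g (nat_lit 1) (.e (nat_lit 74100) (nat_lit 0) .nil) .nil))) 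
(.lf (nat_lit 465415) (.g (nat_lit 5136) (.e (nat_lit 3238) (nat_lit 197) (.e (nat_lit 532535) (nat_lit 9) (.e (nat_lit 336099) (nat_lit 9) (.e (nat_lit 336013) (nat_lit 2) (.e (nat_lit 90130) (nat_lit 9) (.e (nat_lit 2830) (nat_lit 182) (.e (nat_lit 409648) (nat_lit 18) (.e (nat_lit 303108) (nat_lit 0) .nil)))))))) (.g (nat_lit 1) (.e (nat_lit 74854) (nat_lit 0) .nil) .nil)))) (.nd (nat_lit 9) 
(.lf (nat_lit 465159) (.g (nat_lit 2223) (.e (nat_lit 3238) (nat_lit 197) (.e (nat_lit 532523) (nat_lit 7) (.e (nat_lit 319505) (nat_lit 10) (.e (nat_lit 5395) (nat_lit 301) (.e (nat_lit 57464) (nat_lit 23) (.e (nat_lit 516164) (nat_lit 11) (.e (nat_lit 442406) (nat_lit 20) .nil))))))) (.g (nat_lit 1) (.e (nat_lit 74550) (nat_lit 0) .nil) .nil))) 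
(.lf (nat_lit 465671) (.g (nat_lit 4089) (.e (nat_lit 3238) (nat_lit 197) (.e (nat_lit 532550) (nat_lit 12) (.e (nat_lit 360475) (nat_lit 8) (.e (nat_lit 557089) (nat_lit 12) (.e (nat_lit 163849) (nat_lit 0) (.e (nat_lit 6420) (nat_lit 341) (.e (nat_lit 163908) (nat_lit 12) (.e (nat_lit 426039) (nat_lit 0) .nil)))))))) (.g (nat_lit 1) (.e (nat_lit 75234) (nat_lit 0) .nil) .nil))))) 
(.nd (nat_lit 8) (.nd (nat_lit 9) 
(.lf (nat_lit 465031) (.g (nat_lit 3516) (.e (nat_lit 3238) (nat_lit 197) (.e (nat_lit 532499) (nat_lit 1) (.e (nat_lit 57847) (nat_lit 252) (.e (nat_lit 57406) (nat_lit 12) (.e (nat_lit 336454) (nat_lit 34) (.e (nat_lit 483385) (nat_lit 23) (.e (nat_lit 336306) (nat_lit 15) .nil))))))) (.g (nat_lit 1) (.e (nat_lit 74370) (nat_lit 0) .nil) .nil))) 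
(.lf (nat_lit 465543) (.g (nat_lit 2232) (.e (nat_lit 3238) (nat_lit 197) (.e (nat_lit 532549) (nat_lit 12) (.e (nat_lit 360473) (nat_lit 8) (.e (nat_lit 557094) (nat_lit 12) (.e (nat_lit 164022) (nat_lit 46) (.e (nat_lit 704737) (nat_lit 11) (.e (nat_lit 16384) (nat_lit 0) .nil))))))) (.g (nat_lit 1) (.e (nat_lit 75098) (nat_lit 0) .nil) .nil)))) (.nd (nat_lit 9) 
(.lf (nat_lit 465287) (.g (nat_lit 2790) (.e (nat_lit 3238) (nat_lit 197) (.e (nat_lit 532523) (nat_lit 7) (.e (nat_lit 319533) (nat_lit 16) (.e (nat_lit 286733) (nat_lit 2) (.e (nat_lit 90177) (nat_lit 15) (.e (nat_lit 188424) (nat_lit 20) .nil)))))) (.g (nat_lit 1) (.e (nat_lit 74680) (nat_lit 0) .nil) .nil))) 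
(.lf (nat_lit 465799) (.g (nat_lit 5000) (.e (nat_lit 3237) (nat_lit 197) (.e (nat_lit 532550) (nat_lit 12) (.e (nat_lit 360474) (nat_lit 8) (.e (nat_lit 557093) (nat_lit 12) (.e (nat_lit 164023) (nat_lit 46) (.e (nat_lit 704735) (nat_lit 11) (.e (nat_lit 16390) (nat_lit 0) .nil))))))) (.g (nat_lit 1) (.e (nat_lit 75443) (nat_lit 0) .nil) .nil)))))) 
(.nd (nat_lit 7) (.nd (nat_lit 8) (.nd (nat_lit 9) 
(.lf (nat_lit 464967) (.g (nat_lit 6574) (.e (nat_lit 3233) (nat_lit 197) (.e (nat_lit 532550) (nat_lit 12) (.e (nat_lit 360475) (nat_lit 8) (.e (nat_lit 557093) (nat_lit 12) .nil)))) (.g (nat_lit 0) (.e (nat_lit 74250) (nat_lit 0) .nil) .nil))) 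
(.lf (nat_lit 465479) (.g (nat_lit 2869) (.e (nat_lit 3238) (nat_lit 197) (.e (nat_lit 532543) (nat_lit 10) (.e (nat_lit 344129) (nat_lit 26) (.e (nat_lit 557103) (nat_lit 14) (.e (nat_lit 188160) (nat_lit 3) (.e (nat_lit 516106) (nat_lit 0) (.e (nat_lit 7936) (nat_lit 219) (.e (nat_lit 712719) (nat_lit 15) .nil)))))))) (.g (nat_lit 1) (.e (nat_lit 75022) (nat_lit 0) .nil) .nil)))) 
(.nd (nat_lit 9) 
(.lf (nat_lit 465223) (.g (nat_lit 2930) (.e (nat_lit 3238) (nat_lit 197) (.e (nat_lit 532523) (nat_lit 7) (.e (nat_lit 319531) (nat_lit 16) (.e (nat_lit 286727) (nat_lit 0) (.e (nat_lit 1799) (nat_lit 119) (.e (nat_lit 516164) (nat_lit 11) (.e (nat_lit 442404) (nat_lit 20) .nil))))))) (.g (nat_lit 1) (.e (nat_lit 74614) (nat_lit 0) .nil) .nil))) 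
(.lf (nat_lit 465735) (.g (nat_lit 1488) (.e (nat_lit 3238) (nat_lit 197) (.e (nat_lit 532569) (nat_lit 16) (.e (nat_lit 401448) (nat_lit 10) (.e (nat_lit 434227) (nat_lit 20) .nil)))) (.g (nat_lit 0) (.e (nat_lit 75302) (nat_lit 0) .nil) .nil))))) (.nd (nat_lit 8) (.nd (nat_lit 9) 
(.lf (nat_lit 465095) (.g (nat_lit 2852) (.e (nat_lit 3238) (nat_lit 197) (.e (nat_lit 532501) (nat_lit 1) (.e (nat_lit 57854) (nat_lit 252) (.e (nat_lit 57406) (nat_lit 12) (.e (nat_lit 336454) (nat_lit 34) (.e (nat_lit 483385) (nat_lit 23) (.e (nat_lit 336306) (nat_lit 15) .nil))))))) (.g (nat_lit 1) (.e (nat_lit 74443) (nat_lit 0) .nil) .nil))) 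
(.lf (nat_lit 465607) (.g (nat_lit 4803) (.e (nat_lit 3238) (nat_lit 197) (.e (nat_lit 532550) (nat_lit 12) (.e (nat_lit 360474) (nat_lit 8) (.e (nat_lit 557093) (nat_lit 12) (.e (nat_lit 164022) (nat_lit 46) (.e (nat_lit 704738) (nat_lit 11) (.e (nat_lit 16396) (nat_lit 0) .nil))))))) (.g (nat_lit 1) (.e (nat_lit 75169) (nat_lit 0) .nil) .nil)))) (.nd (nat_lit 9) 
(.lf (nat_lit 465351) (.g (nat_lit 4872) (.e (nat_lit 3238) (nat_lit 197) (.e (nat_lit 532523) (nat_lit 7) (.e (nat_lit 319534) (nat_lit 16) (.e (nat_lit 286733) (nat_lit 2) (.e (nat_lit 90178) (nat_lit 15) (.e (nat_lit 188441) (nat_lit 20) .nil)))))) (.g (nat_lit 1) (.e (nat_lit 74747) (nat_lit 0) .nil) .nil))) 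
(.lf (nat_lit 465863) (.g (nat_lit 3777) (.e (nat_lit 3241) (nat_lit 197) (.e (nat_lit 532550) (nat_lit 12) (.e (nat_lit 360475) (nat_lit 8) (.e (nat_lit 557086) (nat_lit 11) .nil)))) (.g (nat_lit 0) (.e (nat_lit 75559) (nat_lit 0) .nil) .nil))))))) (.nd (nat_lit 6) (.nd (nat_lit 7) (.nd (nat_lit 8) (.nd (nat_lit 9) 
(.lf (nat_lit 464935) (.g (nat_lit 1394) (.e (nat_lit 3233) (nat_lit 197) (.e (nat_lit 532523) (nat_lit 7) (.e (nat_lit 319532) (nat_lit 16) (.e (nat_lit 286734) (nat_lit 3) .nil)))) (.g (nat_lit 0) (.e (nat_lit 74190) (nat_lit 0) .nil) .nil))) 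
(.lf (nat_lit 465447) (.g (nat_lit 3398) (.e (nat_lit 3238) (nat_lit 197) (.e (nat_lit 532535) (nat_lit 9) (.e (nat_lit 336111) (nat_lit 9) (.e (nat_lit 336028) (nat_lit 3) (.e (nat_lit 98350) (nat_lit 24) (.e (nat_lit 409649) (nat_lit 18) (.e (nat_lit 303104) (nat_lit 0) .nil))))))) (.g (nat_lit 1) (.e (nat_lit 74886) (nat_lit 0) .nil) .nil)))) (.nd (nat_lit 9) 
(.lf (nat_lit 465191) (.g (nat_lit 2537) (.e (nat_lit 3238) (nat_lit 197) (.e (nat_lit 532523) (nat_lit 7) (.e (nat_lit 319529) (nat_lit 16) (.e (nat_lit 286735) (nat_lit 3) (.e (nat_lit 98371) (nat_lit 28) .nil))))) (.g (nat_lit 0) (.e (nat_lit 74582) (nat_lit 0) .nil) .nil))) 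
(.lf (nat_lit 465703) (.g (nat_lit 3903) (.e (nat_lit 3238) (nat_lit 197) (.e (nat_lit 532551) (nat_lit 12) (.e (nat_lit 360467) (nat_lit 3) (.e (nat_lit 516139) (nat_lit 7) (.e (nat_lit 409649) (nat_lit 18) (.e (nat_lit 303111) (nat_lit 0) .nil)))))) (.g (nat_lit 1) (.e (nat_lit 75269) (nat_lit 0) .nil) .nil))))) (.nd (nat_lit 8) (.nd (nat_lit 9) 
(.lf (nat_lit 465063) (.g (nat_lit 1496) (.e (nat_lit 3238) (nat_lit 197) (.e (nat_lit 532500) (nat_lit 1) (.e (nat_lit 57851) (nat_lit 252) (.e (nat_lit 57406) (nat_lit 12) (.e (nat_lit 336456) (nat_lit 34) .nil))))) (.g (nat_lit 0) (.e (nat_lit 74408) (nat_lit 0) .nil) .nil))) 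
(.lf (nat_lit 465575) (.g (nat_lit 3212) (.e (nat_lit 3238) (nat_lit 197) (.e (nat_lit 532549) (nat_lit 12) (.e (nat_lit 360475) (nat_lit 8) (.e (nat_lit 557091) (nat_lit 12) (.e (nat_lit 164022) (nat_lit 46) (.e (nat_lit 704738) (nat_lit 11) (.e (nat_lit 16384) (nat_lit 0) .nil))))))) (.g (nat_lit 1) (.e (nat_lit 75131) (nat_lit 0) .nil) .nil)))) (.nd (nat_lit 9) 
(.lf (nat_lit 465319) (.g (nat_lit 2524) (.e (nat_lit 3238) (nat_lit 197) (.e (nat_lit 532523) (nat_lit 7) (.e (nat_lit 319534) (nat_lit 16) (.e (nat_lit 286728) (nat_lit 0) (.e (nat_lit 1788) (nat_lit 119) (.e (nat_lit 516176) (nat_lit 14) (.e (nat_lit 466955) (nat_lit 20) .nil))))))) (.g (nat_lit 1) (.e (nat_lit 74714) (nat_lit 0) .nil) .nil))) 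
(.lf (nat_lit 465831) (.g (nat_lit 4429) (.e (nat_lit 3240) (nat_lit 197) (.e (nat_lit 532550) (nat_lit 12) (.e (nat_lit 360474) (nat_lit 8) (.e (nat_lit 557085) (nat_lit 11) .nil)))) (.g (nat_lit 0) (.e (nat_lit 75491) (nat_lit 0) .nil) .nil)))))) (.nd (nat_lit 7) (.nd (nat_lit 8) (.nd (nat_lit 9) 
(.lf (nat_lit 464999) (.g (nat_lit 2125) (.e (nat_lit 3236) (nat_lit 197) (.e (nat_lit 532499) (nat_lit 1) (.e (nat_lit 57927) (nat_lit 282) (.e (nat_lit 163868) (nat_lit 2) (.e (nat_lit 196670) (nat_lit 14) (.e (nat_lit 73746) (nat_lit 3) (.e (nat_lit 516129) (nat_lit 3) (.e (nat_lit 221197) (nat_lit 20) .nil)))))))) (.g (nat_lit 1) (.e (nat_lit 74318) (nat_lit 0) .nil) .nil))) 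
(.lf (nat_lit 465511) (.g (nat_lit 2293) (.e (nat_lit 3238) (nat_lit 197) (.e (nat_lit 532549) (nat_lit 12) (.e (nat_lit 360467) (nat_lit 3) (.e (nat_lit 516139) (nat_lit 7) (.e (nat_lit 409648) (nat_lit 18) (.e (nat_lit 303107) (nat_lit 0) .nil)))))) (.g (nat_lit 1) (.e (nat_lit 75065) (nat_lit 0) .nil) .nil)))) (.nd (nat_lit 9) 
(.lf (nat_lit 465255) (.g (nat_lit 2310) (.e (nat_lit 3238) (nat_lit 197) (.e (nat_lit 532523) (nat_lit 7) (.e (nat_lit 319532) (nat_lit 16) (.e (nat_lit 286732) (nat_lit 2) (.e (nat_lit 90178) (nat_lit 15) .nil))))) (.g (nat_lit 0) (.e (nat_lit 74646) (nat_lit 0) .nil) .nil))) 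
(.lf (nat_lit 465767) (.g (nat_lit 4575) (.e (nat_lit 3239) (nat_lit 197) (.e (nat_lit 532550) (nat_lit 12) (.e (nat_lit 360474) (nat_lit 8) (.e (nat_lit 557093) (nat_lit 12) (.e (nat_lit 164022) (nat_lit 46) .nil))))) (.g (nat_lit 0) (.e (nat_lit 75400) (nat_lit 0) .nil) .nil))))) (.nd (nat_lit 8) (.nd (nat_lit 9) 
(.lf (nat_lit 465127) (.g (nat_lit 3250) (.e (nat_lit 3238) (nat_lit 197) (.e (nat_lit 532504) (nat_lit 1) (.e (nat_lit 57854) (nat_lit 252) (.e (nat_lit 57445) (nat_lit 19) (.e (nat_lit 393229) (nat_lit 9) (.e (nat_lit 336086) (nat_lit 9) (.e (nat_lit 336306) (nat_lit 15) .nil))))))) (.g (nat_lit 1) (.e (nat_lit 74483) (nat_lit 0) .nil) .nil))) 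
(.lf (nat_lit 465639) (.g (nat_lit 4618) (.e (nat_lit 3238) (nat_lit 197) (.e (nat_lit 532550) (nat_lit 12) (.e (nat_lit 360475) (nat_lit 8) (.e (nat_lit 557086) (nat_lit 11) (.e (nat_lit 24665) (nat_lit 14) (.e (nat_lit 401414) (nat_lit 0) .nil)))))) (.g (nat_lit 1) (.e (nat_lit 75202) (nat_lit 0) .nil) .nil)))) (.nd (nat_lit 9) 
(.lf (nat_lit 465383) (.g (nat_lit 3053) (.e (nat_lit 3238) (nat_lit 197) (.e (nat_lit 532523) (nat_lit 7) (.e (nat_lit 319534) (nat_lit 16) (.e (nat_lit 286735) (nat_lit 3) (.e (nat_lit 98380) (nat_lit 31) (.e (nat_lit 466955) (nat_lit 20) .nil)))))) (.g (nat_lit 1) (.e (nat_lit 74779) (nat_lit 0) .nil) .nil))) 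
(.lf (nat_lit 465895) (.g (nat_lit 2407) (.e (nat_lit 3242) (nat_lit 197) (.e (nat_lit 532499) (nat_lit 1) (.e (nat_lit 57927) (nat_lit 282) (.e (nat_lit 163869) (nat_lit 2) (.e (nat_lit 196666) (nat_lit 13) (.e (nat_lit 65569) (nat_lit 3) (.e (nat_lit 98342) (nat_lit 20) (.e (nat_lit 221198) (nat_lit 20) .nil)))))))) (.g (nat_lit 1) (.e (nat_lit 75601) (nat_lit 0) .nil) .nil)))))))) 
(.nd (nat_lit 5) (.nd (nat_lit 6) (.nd (nat_lit 7) (.nd (nat_lit 8) (.nd (nat_lit 9) 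
(.lf (nat_lit 464919) (.g (nat_lit 2595) (.e (nat_lit 3233) (nat_lit 197) (.e (nat_lit 532499) (nat_lit 1) (.e (nat_lit 57927) (nat_lit 282) (.e (nat_lit 163868) (nat_lit 2) (.e (nat_lit 196668) (nat_lit 14) (.e (nat_lit 73747) (nat_lit 3) (.e (nat_lit 516129) (nat_lit 3) (.e (nat_lit 221202) (nat_lit 20) .nil)))))))) (.g (nat_lit 1) (.e (nat_lit 74119) (nat_lit 0) .nil) .nil))) 
(.lf (nat_lit 465431) (.g (nat_lit 4580) (.e (nat_lit 3238) (nat_lit 197) (.e (nat_lit 532535) (nat_lit 9) (.e (nat_lit 336099) (nat_lit 9) (.e (nat_lit 336028) (nat_lit 3) (.e (nat_lit 98349) (nat_lit 24) (.e (nat_lit 409645) (nat_lit 18) (.e (nat_lit 303111) (nat_lit 0) .nil))))))) (.g (nat_lit 1) (.e (nat_lit 74870) (nat_lit 0) .nil) .nil)))) (.nd (nat_lit 9) 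
(.lf (nat_lit 465175) (.g (nat_lit 2946) (.e (nat_lit 3238) (nat_lit 197) (.e (nat_lit 532523) (nat_lit 7) (.e (nat_lit 319528) (nat_lit 16) (.e (nat_lit 286735) (nat_lit 3) (.e (nat_lit 98369) (nat_lit 28) (.e (nat_lit 442406) (nat_lit 20) .nil)))))) (.g (nat_lit 1) (.e (nat_lit 74566) (nat_lit 0) .nil) .nil))) 
(.lf (nat_lit 465687) (.g (nat_lit 2506) (.e (nat_lit 3238) (nat_lit 197) (.e (nat_lit 532550) (nat_lit 12) (.e (nat_lit 360475) (nat_lit 8) (.e (nat_lit 557091) (nat_lit 12) (.e (nat_lit 163844) (nat_lit 0) (.e (nat_lit 6420) (nat_lit 341) (.e (nat_lit 163902) (nat_lit 12) (.e (nat_lit 426091) (nat_lit 0) .nil)))))))) (.g (nat_lit 1) (.e (nat_lit 75250) (nat_lit 0) .nil) .nil))))) 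
(.nd (nat_lit 8) (.nd (nat_lit 9) 
(.lf (nat_lit 465047) (.g (nat_lit 2927) (.e (nat_lit 3238) (nat_lit 197) (.e (nat_lit 532499) (nat_lit 1) (.e (nat_lit 57927) (nat_lit 282) (.e (nat_lit 163869) (nat_lit 2) (.e (nat_lit 196668) (nat_lit 14) (.e (nat_lit 73747) (nat_lit 3) (.e (nat_lit 516131) (nat_lit 3) (.e (nat_lit 221195) (nat_lit 20) .nil)))))))) (.g (nat_lit 1) (.e (nat_lit 74388) (nat_lit 0) .nil) .nil))) 
(.lf (nat_lit 465559) (.g (nat_lit 4363) (.e (nat_lit 3238) (nat_lit 197) (.e (nat_lit 532549) (nat_lit 12) (.e (nat_lit 360475) (nat_lit 8) (.e (nat_lit 557085) (nat_lit 11) (.e (nat_lit 24665) (nat_lit 14) (.e (nat_lit 401413) (nat_lit 0) .nil)))))) (.g (nat_lit 1) (.e (nat_lit 75114) (nat_lit 0) .nil) .nil)))) (.nd (nat_lit 9) 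
(.lf (nat_lit 465303) (.g (nat_lit 2129) (.e (nat_lit 3238) (nat_lit 197) (.e (nat_lit 532523) (nat_lit 7) (.e (nat_lit 319533) (nat_lit 16) (.e (nat_lit 286734) (nat_lit 3) (.e (nat_lit 98382) (nat_lit 31) .nil))))) (.g (nat_lit 0) (.e (nat_lit 74696) (nat_lit 0) .nil) .nil))) 
(.lf (nat_lit 465815) (.g (nat_lit 708) (.e (nat_lit 3237) (nat_lit 197) (.e (nat_lit 532560) (nat_lit 14) (.e (nat_lit 376869) (nat_lit 23) .nil))) (.g (nat_lit 0) (.e (nat_lit 75461) (nat_lit 0) .nil) .nil)))))) (.nd (nat_lit 7) (.nd (nat_lit 8) (.nd (nat_lit 9) 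
(.lf (nat_lit 464983) (.g (nat_lit 3067) (.e (nat_lit 3233) (nat_lit 197) (.e (nat_lit 532561) (nat_lit 14) (.e (nat_lit 376865) (nat_lit 22) (.e (nat_lit 90185) (nat_lit 17) (.e (nat_lit 237585) (nat_lit 1) (.e (nat_lit 164403) (nat_lit 256) (.e (nat_lit 57579) (nat_lit 61) .nil))))))) (.g (nat_lit 1) (.e (nat_lit 74276) (nat_lit 0) .nil) .nil))) 
(.lf (nat_lit 465495) (.g (nat_lit 2384) (.e (nat_lit 3238) (nat_lit 197) (.e (nat_lit 532547) (nat_lit 11) (.e (nat_lit 352315) (nat_lit 23) (.e (nat_lit 98349) (nat_lit 24) (.e (nat_lit 409649) (nat_lit 18) (.e (nat_lit 303111) (nat_lit 0) .nil)))))) (.g (nat_lit 1) (.e (nat_lit 75047) (nat_lit 0) .nil) .nil)))) (.nd (nat_lit 9) 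
(.lf (nat_lit 465239) (.g (nat_lit 3196) (.e (nat_lit 3238) (nat_lit 197) (.e (nat_lit 532523) (nat_lit 7) (.e (nat_lit 319531) (nat_lit 16) (.e (nat_lit 286735) (nat_lit 3) (.e (nat_lit 98359) (nat_lit 26) (.e (nat_lit 426208) (nat_lit 9) (.e (nat_lit 426039) (nat_lit 0) .nil))))))) (.g (nat_lit 1) (.e (nat_lit 74630) (nat_lit 0) .nil) .nil))) 
(.lf (nat_lit 465751) (.g (nat_lit 5446) (.e (nat_lit 3238) (nat_lit 197) (.e (nat_lit 532569) (nat_lit 16) (.e (nat_lit 401451) (nat_lit 12) (.e (nat_lit 475185) (nat_lit 29) (.e (nat_lit 557109) (nat_lit 15) (.e (nat_lit 188434) (nat_lit 20) .nil)))))) (.g (nat_lit 1) (.e (nat_lit 75320) (nat_lit 0) .nil) .nil))))) (.nd (nat_lit 8) (.nd (nat_lit 9) 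
(.lf (nat_lit 465111) (.g (nat_lit 2081) (.e (nat_lit 3238) (nat_lit 197) (.e (nat_lit 532503) (nat_lit 1) (.e (nat_lit 57848) (nat_lit 252) (.e (nat_lit 57407) (nat_lit 12) (.e (nat_lit 336456) (nat_lit 34) (.e (nat_lit 483384) (nat_lit 23) (.e (nat_lit 336306) (nat_lit 15) .nil))))))) (.g (nat_lit 1) (.e (nat_lit 74463) (nat_lit 0) .nil) .nil))) 
(.lf (nat_lit 465623) (.g (nat_lit 1568) (.e (nat_lit 3238) (nat_lit 197) (.e (nat_lit 532550) (nat_lit 12) (.e (nat_lit 360475) (nat_lit 8) (.e (nat_lit 557068) (nat_lit 9) .nil)))) (.g (nat_lit 0) (.e (nat_lit 75186) (nat_lit 0) .nil) .nil)))) (.nd (nat_lit 9) 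
(.lf (nat_lit 465367) (.g (nat_lit 2704) (.e (nat_lit 3238) (nat_lit 197) (.e (nat_lit 532523) (nat_lit 7) (.e (nat_lit 319534) (nat_lit 16) (.e (nat_lit 286735) (nat_lit 3) (.e (nat_lit 98369) (nat_lit 28) .nil))))) (.g (nat_lit 0) (.e (nat_lit 74763) (nat_lit 0) .nil) .nil))) 
(.lf (nat_lit 465879) (.g (nat_lit 4100) (.e (nat_lit 3243) (nat_lit 197) (.e (nat_lit 532550) (nat_lit 12) (.e (nat_lit 360474) (nat_lit 8) (.e (nat_lit 557094) (nat_lit 12) (.e (nat_lit 164022) (nat_lit 46) (.e (nat_lit 704738) (nat_lit 11) (.e (nat_lit 16385) (nat_lit 0) .nil))))))) (.g (nat_lit 1) (.e (nat_lit 75584) (nat_lit 0) .nil) .nil))))))) 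
(.nd (nat_lit 6) (.nd (nat_lit 7) (.nd (nat_lit 8) (.nd (nat_lit 9) 
(.lf (nat_lit 464951) (.g (nat_lit 5460) (.e (nat_lit 3233) (nat_lit 197) (.e (nat_lit 532550) (nat_lit 12) (.e (nat_lit 360474) (nat_lit 8) (.e (nat_lit 557093) (nat_lit 12) (.e (nat_lit 164023) (nat_lit 46) (.e (nat_lit 704737) (nat_lit 11) (.e (nat_lit 16401) (nat_lit 0) .nil))))))) (.g (nat_lit 1) (.e (nat_lit 74228) (nat_lit 0) .nil) .nil))) 
(.lf (nat_lit 465463) (.g (nat_lit 3876) (.e (nat_lit 3238) (nat_lit 197) (.e (nat_lit 532535) (nat_lit 9) (.e (nat_lit 336173) (nat_lit 10) (.e (nat_lit 344119) (nat_lit 21) (.e (nat_lit 516139) (nat_lit 7) (.e (nat_lit 409648) (nat_lit 18) (.e (nat_lit 303111) (nat_lit 0) .nil))))))) (.g (nat_lit 1) (.e (nat_lit 74904) (nat_lit 0) .nil) .nil)))) (.nd (nat_lit 9) 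
(.lf (nat_lit 465207) (.g (nat_lit 3546) (.e (nat_lit 3238) (nat_lit 197) (.e (nat_lit 532523) (nat_lit 7) (.e (nat_lit 319530) (nat_lit 16) (.e (nat_lit 286733) (nat_lit 2) (.e (nat_lit 90177) (nat_lit 15) (.e (nat_lit 188435) (nat_lit 20) .nil)))))) (.g (nat_lit 1) (.e (nat_lit 74598) (nat_lit 0) .nil) .nil))) 
(.lf (nat_lit 465719) (.g (nat_lit 2614) (.e (nat_lit 3238) (nat_lit 197) (.e (nat_lit 532560) (nat_lit 14) (.e (nat_lit 376869) (nat_lit 23) (.e (nat_lit 98350) (nat_lit 24) (.e (nat_lit 409649) (nat_lit 18) (.e (nat_lit 303104) (nat_lit 0) .nil)))))) (.g (nat_lit 1) (.e (nat_lit 75285) (nat_lit 0) .nil) .nil))))) (.nd (nat_lit 8) (.nd (nat_lit 9) 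
(.lf (nat_lit 465079) (.g (nat_lit 2363) (.e (nat_lit 3238) (nat_lit 197) (.e (nat_lit 532500) (nat_lit 1) (.e (nat_lit 57852) (nat_lit 252) (.e (nat_lit 57409) (nat_lit 12) (.e (nat_lit 336454) (nat_lit 34) (.e (nat_lit 483385) (nat_lit 23) (.e (nat_lit 336306) (nat_lit 15) .nil))))))) (.g (nat_lit 1) (.e (nat_lit 74424) (nat_lit 0) .nil) .nil))) 
(.lf (nat_lit 465591) (.g (nat_lit 3785) (.e (nat_lit 3238) (nat_lit 197) (.e (nat_lit 532550) (nat_lit 12) (.e (nat_lit 360468) (nat_lit 3) (.e (nat_lit 516139) (nat_lit 7) (.e (nat_lit 409648) (nat_lit 18) (.e (nat_lit 303108) (nat_lit 0) .nil)))))) (.g (nat_lit 1) (.e (nat_lit 75152) (nat_lit 0) .nil) .nil)))) (.nd (nat_lit 9) 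
(.lf (nat_lit 465335) (.g (nat_lit 2780) (.e (nat_lit 3238) (nat_lit 197) (.e (nat_lit 532523) (nat_lit 7) (.e (nat_lit 319534) (nat_lit 16) (.e (nat_lit 286733) (nat_lit 2) (.e (nat_lit 90134) (nat_lit 9) .nil))))) (.g (nat_lit 0) (.e (nat_lit 74731) (nat_lit 0) .nil) .nil))) 
(.lf (nat_lit 465847) (.g (nat_lit 1253) (.e (nat_lit 3241) (nat_lit 197) (.e (nat_lit 532500) (nat_lit 1) (.e (nat_lit 57854) (nat_lit 252) (.e (nat_lit 57409) (nat_lit 12) .nil)))) (.g (nat_lit 0) (.e (nat_lit 75511) (nat_lit 0) .nil) .nil)))))) (.nd (nat_lit 7) (.nd (nat_lit 8) (.nd (nat_lit 9) 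
(.lf (nat_lit 465015) (.g (nat_lit 4791) (.e (nat_lit 3236) (nat_lit 197) (.e (nat_lit 532550) (nat_lit 12) (.e (nat_lit 360475) (nat_lit 8) (.e (nat_lit 557089) (nat_lit 12) .nil)))) (.g (nat_lit 0) (.e (nat_lit 74344) (nat_lit 0) .nil) .nil))) 
(.lf (nat_lit 465527) (.g (nat_lit 2247) (.e (nat_lit 3238) (nat_lit 197) (.e (nat_lit 532549) (nat_lit 12) (.e (nat_lit 360473) (nat_lit 8) (.e (nat_lit 557090) (nat_lit 12) .nil)))) (.g (nat_lit 0) (.e (nat_lit 75081) (nat_lit 0) .nil) .nil)))) (.nd (nat_lit 9) 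
(.lf (nat_lit 465271) (.g (nat_lit 2591) (.e (nat_lit 3238) (nat_lit 197) (.e (nat_lit 532523) (nat_lit 7) (.e (nat_lit 319533) (nat_lit 16) (.e (nat_lit 286727) (nat_lit 0) (.e (nat_lit 1799) (nat_lit 119) .nil))))) (.g (nat_lit 0) (.e (nat_lit 74663) (nat_lit 0) .nil) .nil))) 
(.lf (nat_lit 465783) (.g (nat_lit 2652) (.e (nat_lit 3237) (nat_lit 197) (.e (nat_lit 532501) (nat_lit 1) (.e (nat_lit 57851) (nat_lit 252) (.e (nat_lit 57406) (nat_lit 12) (.e (nat_lit 336456) (nat_lit 34) .nil))))) (.g (nat_lit 0) (.e (nat_lit 75419) (nat_lit 0) .nil) .nil))))) (.nd (nat_lit 8) (.nd (nat_lit 9) 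
(.lf (nat_lit 465143) (.g (nat_lit 2290) (.e (nat_lit 3238) (nat_lit 197) (.e (nat_lit 532513) (nat_lit 3) (.e (nat_lit 114714) (nat_lit 22) (.e (nat_lit 90172) (nat_lit 14) (.e (nat_lit 180244) (nat_lit 5) (.e (nat_lit 532503) (nat_lit 1) (.e (nat_lit 57685) (nat_lit 156) (.e (nat_lit 163850) (nat_lit 0) .nil)))))))) (.g (nat_lit 1) (.e (nat_lit 74509) (nat_lit 0) .nil) .nil))) 
(.lf (nat_lit 465655) (.g (nat_lit 3514) (.e (nat_lit 3238) (nat_lit 197) (.e (nat_lit 532550) (nat_lit 12) (.e (nat_lit 360475) (nat_lit 8) (.e (nat_lit 557089) (nat_lit 12) (.e (nat_lit 163844) (nat_lit 0) (.e (nat_lit 6418) (nat_lit 341) (.e (nat_lit 163908) (nat_lit 12) (.e (nat_lit 426003) (nat_lit 0) .nil)))))))) (.g (nat_lit 1) (.e (nat_lit 75218) (nat_lit 0) .nil) .nil)))) 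
(.nd (nat_lit 9) 
(.lf (nat_lit 465399) (.g (nat_lit 3089) (.e (nat_lit 3238) (nat_lit 197) (.e (nat_lit 532535) (nat_lit 9) (.e (nat_lit 336073) (nat_lit 9) (.e (nat_lit 336019) (nat_lit 3) (.e (nat_lit 98350) (nat_lit 24) (.e (nat_lit 409649) (nat_lit 18) (.e (nat_lit 303111) (nat_lit 0) .nil))))))) (.g (nat_lit 1) (.e (nat_lit 74832) (nat_lit 0) .nil) .nil))) 
(.lf (nat_lit 465911) (.g (nat_lit 2152) (.e (nat_lit 3242) (nat_lit 197) (.e (nat_lit 532535) (nat_lit 9) (.e (nat_lit 336176) (nat_lit 10) .nil))) (.g (nat_lit 0) (.e (nat_lit 75629) (nat_lit 0) .nil) .nil))))))))) (.nd (nat_lit 4) (.nd (nat_lit 5) (.nd (nat_lit 6) (.nd (nat_lit 7) (.nd (nat_lit 8) (.nd (nat_lit 9) 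
(.lf (nat_lit 464911) (.g (nat_lit 2468) (.e (nat_lit 3235) (nat_lit 197) (.e (nat_lit 532504) (nat_lit 1) (.e (nat_lit 57851) (nat_lit 252) (.e (nat_lit 57406) (nat_lit 12) (.e (nat_lit 336456) (nat_lit 34) .nil))))) (.g (nat_lit 0) (.e (nat_lit 74108) (nat_lit 0) .nil) .nil))) 
(.lf (nat_lit 465423) (.g (nat_lit 4859) (.e (nat_lit 3238) (nat_lit 197) (.e (nat_lit 532535) (nat_lit 9) (.e (nat_lit 336099) (nat_lit 9) (.e (nat_lit 336013) (nat_lit 2) (.e (nat_lit 90134) (nat_lit 9) (.e (nat_lit 2822) (nat_lit 182) (.e (nat_lit 409648) (nat_lit 18) (.e (nat_lit 303104) (nat_lit 0) .nil)))))))) (.g (nat_lit 1) (.e (nat_lit 74862) (nat_lit 0) .nil) .nil)))) (.nd (nat_lit 9) 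
(.lf (nat_lit 465167) (.g (nat_lit 2882) (.e (nat_lit 3238) (nat_lit 197) (.e (nat_lit 532523) (nat_lit 7) (.e (nat_lit 319528) (nat_lit 16) (.e (nat_lit 286733) (nat_lit 2) (.e (nat_lit 90177) (nat_lit 15) (.e (nat_lit 188434) (nat_lit 20) .nil)))))) (.g (nat_lit 1) (.e (nat_lit 74558) (nat_lit 0) .nil) .nil))) 
(.lf (nat_lit 465679) (.g (nat_lit 5401) (.e (nat_lit 3238) (nat_lit 197) (.e (nat_lit 532550) (nat_lit 12) (.e (nat_lit 360475) (nat_lit 8) (.e (nat_lit 557090) (nat_lit 12) (.e (nat_lit 164020) (nat_lit 45) (.e (nat_lit 696344) (nat_lit 8) (.e (nat_lit 172042) (nat_lit 0) .nil))))))) (.g (nat_lit 1) (.e (nat_lit 75242) (nat_lit 0) .nil) .nil))))) (.nd (nat_lit 8) (.nd (nat_lit 9) 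
(.lf (nat_lit 465039) (.g (nat_lit 2314) (.e (nat_lit 3238) (nat_lit 197) (.e (nat_lit 532499) (nat_lit 1) (.e (nat_lit 57927) (nat_lit 282) (.e (nat_lit 163868) (nat_lit 2) (.e (nat_lit 196668) (nat_lit 14) (.e (nat_lit 73747) (nat_lit 3) (.e (nat_lit 516129) (nat_lit 3) (.e (nat_lit 229120) (nat_lit 20) .nil)))))))) (.g (nat_lit 1) (.e (nat_lit 74380) (nat_lit 0) .nil) .nil))) 
(.lf (nat_lit 465551) (.g (nat_lit 2628) (.e (nat_lit 3238) (nat_lit 197) (.e (nat_lit 532549) (nat_lit 12) (.e (nat_lit 360474) (nat_lit 8) (.e (nat_lit 557091) (nat_lit 12) .nil)))) (.g (nat_lit 0) (.e (nat_lit 75106) (nat_lit 0) .nil) .nil)))) (.nd (nat_lit 9) 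
(.lf (nat_lit 465295) (.g (nat_lit 3818) (.e (nat_lit 3238) (nat_lit 197) (.e (nat_lit 532523) (nat_lit 7) (.e (nat_lit 319533) (nat_lit 16) (.e (nat_lit 286734) (nat_lit 3) (.e (nat_lit 98369) (nat_lit 28) (.e (nat_lit 442404) (nat_lit 20) .nil)))))) (.g (nat_lit 1) (.e (nat_lit 74688) (nat_lit 0) .nil) .nil))) 
(.lf (nat_lit 465807) (.g (nat_lit 4686) (.e (nat_lit 3237) (nat_lit 197) (.e (nat_lit 532550) (nat_lit 12) (.e (nat_lit 360475) (nat_lit 8) (.e (nat_lit 557085) (nat_lit 11) .nil)))) (.g (nat_lit 0) (.e (nat_lit 75452) (nat_lit 0) .nil) .nil)))))) (.nd (nat_lit 7) (.nd (nat_lit 8) (.nd (nat_lit 9) 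
(.lf (nat_lit 464975) (.g (nat_lit 2562) (.e (nat_lit 3233) (nat_lit 197) (.e (nat_lit 532560) (nat_lit 14) (.e (nat_lit 376865) (nat_lit 22) (.e (nat_lit 90185) (nat_lit 17) (.e (nat_lit 237582) (nat_lit 1) (.e (nat_lit 164403) (nat_lit 256) (.e (nat_lit 57579) (nat_lit 61) .nil))))))) (.g (nat_lit 1) (.e (nat_lit 74268) (nat_lit 0) .nil) .nil))) 
(.lf (nat_lit 465487) (.g (nat_lit 3479) (.e (nat_lit 3238) (nat_lit 197) (.e (nat_lit 532547) (nat_lit 11) (.e (nat_lit 352314) (nat_lit 23) (.e (nat_lit 98350) (nat_lit 24) (.e (nat_lit 409648) (nat_lit 18) (.e (nat_lit 303108) (nat_lit 0) .nil)))))) (.g (nat_lit 1) (.e (nat_lit 75039) (nat_lit 0) .nil) .nil)))) (.nd (nat_lit 9) 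
(.lf (nat_lit 465231) (.g (nat_lit 3688) (.e (nat_lit 3238) (nat_lit 197) (.e (nat_lit 532523) (nat_lit 7) (.e (nat_lit 319531) (nat_lit 16) (.e (nat_lit 286733) (nat_lit 2) (.e (nat_lit 90177) (nat_lit 15) (.e (nat_lit 188424) (nat_lit 20) .nil)))))) (.g (nat_lit 1) (.e (nat_lit 74622) (nat_lit 0) .nil) .nil))) 
(.lf (nat_lit 465743) (.g (nat_lit 3749) (.e (nat_lit 3238) (nat_lit 197) (.e (nat_lit 532569) (nat_lit 16) (.e (nat_lit 401451) (nat_lit 12) (.e (nat_lit 475184) (nat_lit 29) (.e (nat_lit 557109) (nat_lit 15) .nil))))) (.g (nat_lit 0) (.e (nat_lit 75312) (nat_lit 0) .nil) .nil))))) (.nd (nat_lit 8) (.nd (nat_lit 9) 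
(.lf (nat_lit 465103) (.g (nat_lit 2571) (.e (nat_lit 3238) (nat_lit 197) (.e (nat_lit 532503) (nat_lit 1) (.e (nat_lit 57847) (nat_lit 252) (.e (nat_lit 57407) (nat_lit 12) (.e (nat_lit 336454) (nat_lit 34) (.e (nat_lit 483385) (nat_lit 23) (.e (nat_lit 336260) (nat_lit 15) .nil))))))) (.g (nat_lit 1) (.e (nat_lit 74454) (nat_lit 0) .nil) .nil))) 
(.lf (nat_lit 465615) (.g (nat_lit 3268) (.e (nat_lit 3238) (nat_lit 197) (.e (nat_lit 532550) (nat_lit 12) (.e (nat_lit 360474) (nat_lit 8) (.e (nat_lit 557094) (nat_lit 12) (.e (nat_lit 164022) (nat_lit 46) (.e (nat_lit 704736) (nat_lit 11) (.e (nat_lit 16396) (nat_lit 0) .nil))))))) (.g (nat_lit 1) (.e (nat_lit 75177) (nat_lit 0) .nil) .nil)))) (.nd (nat_lit 9) 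
(.lf (nat_lit 465359) (.g (nat_lit 3931) (.e (nat_lit 3238) (nat_lit 197) (.e (nat_lit 532523) (nat_lit 7) (.e (nat_lit 319534) (nat_lit 16) (.e (nat_lit 286734) (nat_lit 3) (.e (nat_lit 98371) (nat_lit 28) (.e (nat_lit 442404) (nat_lit 20) .nil)))))) (.g (nat_lit 1) (.e (nat_lit 74755) (nat_lit 0) .nil) .nil))) 
(.lf (nat_lit 465871) (.g (nat_lit 5721) (.e (nat_lit 3241) (nat_lit 197) (.e (nat_lit 532550) (nat_lit 12) (.e (nat_lit 360475) (nat_lit 8) (.e (nat_lit 557091) (nat_lit 12) (.e (nat_lit 164022) (nat_lit 46) (.e (nat_lit 704738) (nat_lit 11) (.e (nat_lit 16384) (nat_lit 0) .nil))))))) (.g (nat_lit 1) (.e (nat_lit 75568) (nat_lit 0) .nil) .nil))))))) 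
(.nd (nat_lit 6) (.nd (nat_lit 7) (.nd (nat_lit 8) (.nd (nat_lit 9) 
(.lf (nat_lit 464943) (.g (nat_lit 1743) (.e (nat_lit 3233) (nat_lit 197) (.e (nat_lit 532549) (nat_lit 12) (.e (nat_lit 360473) (nat_lit 8) (.e (nat_lit 557091) (nat_lit 12) .nil)))) (.g (nat_lit 0) (.e (nat_lit 74213) (nat_lit 0) .nil) .nil))) 
(.lf (nat_lit 465455) (.g (nat_lit 4578) (.e (nat_lit 3238) (nat_lit 197) (.e (nat_lit 532535) (nat_lit 9) (.e (nat_lit 336173) (nat_lit 10) (.e (nat_lit 344117) (nat_lit 21) (.e (nat_lit 516139) (nat_lit 7) (.e (nat_lit 409648) (nat_lit 18) (.e (nat_lit 303108) (nat_lit 0) .nil))))))) (.g (nat_lit 1) (.e (nat_lit 74896) (nat_lit 0) .nil) .nil)))) (.nd (nat_lit 9) 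
(.lf (nat_lit 465199) (.g (nat_lit 1756) (.e (nat_lit 3238) (nat_lit 197) (.e (nat_lit 532523) (nat_lit 7) (.e (nat_lit 319530) (nat_lit 16) (.e (nat_lit 286733) (nat_lit 2) .nil)))) (.g (nat_lit 0) (.e (nat_lit 74590) (nat_lit 0) .nil) .nil))) 
(.lf (nat_lit 465711) (.g (nat_lit 2435) (.e (nat_lit 3238) (nat_lit 197) (.e (nat_lit 532560) (nat_lit 14) (.e (nat_lit 376867) (nat_lit 23) (.e (nat_lit 98350) (nat_lit 24) (.e (nat_lit 409649) (nat_lit 18) (.e (nat_lit 303111) (nat_lit 0) .nil)))))) (.g (nat_lit 1) (.e (nat_lit 75277) (nat_lit 0) .nil) .nil))))) (.nd (nat_lit 8) (.nd (nat_lit 9) 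
(.lf (nat_lit 465071) (.g (nat_lit 2151) (.e (nat_lit 3238) (nat_lit 197) (.e (nat_lit 532500) (nat_lit 1) (.e (nat_lit 57851) (nat_lit 252) (.e (nat_lit 57406) (nat_lit 12) (.e (nat_lit 336456) (nat_lit 34) (.e (nat_lit 483383) (nat_lit 23) (.e (nat_lit 336257) (nat_lit 15) .nil))))))) (.g (nat_lit 1) (.e (nat_lit 74416) (nat_lit 0) .nil) .nil))) 
(.lf (nat_lit 465583) (.g (nat_lit 4357) (.e (nat_lit 3238) (nat_lit 197) (.e (nat_lit 532550) (nat_lit 12) (.e (nat_lit 360466) (nat_lit 3) (.e (nat_lit 516139) (nat_lit 7) (.e (nat_lit 409649) (nat_lit 18) (.e (nat_lit 303111) (nat_lit 0) .nil)))))) (.g (nat_lit 1) (.e (nat_lit 75144) (nat_lit 0) .nil) .nil)))) (.nd (nat_lit 9) 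
(.lf (nat_lit 465327) (.g (nat_lit 4399) (.e (nat_lit 3238) (nat_lit 197) (.e (nat_lit 532523) (nat_lit 7) (.e (nat_lit 319534) (nat_lit 16) (.e (nat_lit 286732) (nat_lit 2) (.e (nat_lit 90176) (nat_lit 15) (.e (nat_lit 188424) (nat_lit 20) .nil)))))) (.g (nat_lit 1) (.e (nat_lit 74722) (nat_lit 0) .nil) .nil))) 
(.lf (nat_lit 465839) (.g (nat_lit 2301) (.e (nat_lit 3241) (nat_lit 197) (.e (nat_lit 532499) (nat_lit 1) (.e (nat_lit 57927) (nat_lit 282) (.e (nat_lit 163869) (nat_lit 2) (.e (nat_lit 196668) (nat_lit 14) (.e (nat_lit 73747) (nat_lit 3) (.e (nat_lit 516131) (nat_lit 3) (.e (nat_lit 221197) (nat_lit 20) .nil)))))))) (.g (nat_lit 1) (.e (nat_lit 75501) (nat_lit 0) .nil) .nil)))))) 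
(.nd (nat_lit 7) (.nd (nat_lit 8) (.nd (nat_lit 9) 
(.lf (nat_lit 465007) (.g (nat_lit 2587) (.e (nat_lit 3236) (nat_lit 197) (.e (nat_lit 532503) (nat_lit 1) (.e (nat_lit 57931) (nat_lit 282) (.e (nat_lit 163869) (nat_lit 2) (.e (nat_lit 196670) (nat_lit 14) (.e (nat_lit 73746) (nat_lit 3) (.e (nat_lit 516131) (nat_lit 3) (.e (nat_lit 221196) (nat_lit 20) .nil)))))))) (.g (nat_lit 1) (.e (nat_lit 74327) (nat_lit 0) .nil) .nil))) 
(.lf (nat_lit 465519) (.g (nat_lit 3699) (.e (nat_lit 3238) (nat_lit 197) (.e (nat_lit 532549) (nat_lit 12) (.e (nat_lit 360473) (nat_lit 8) (.e (nat_lit 557085) (nat_lit 11) (.e (nat_lit 24665) (nat_lit 14) (.e (nat_lit 401413) (nat_lit 0) .nil)))))) (.g (nat_lit 1) (.e (nat_lit 75073) (nat_lit 0) .nil) .nil)))) (.nd (nat_lit 9) 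
(.lf (nat_lit 465263) (.g (nat_lit 2871) (.e (nat_lit 3238) (nat_lit 197) (.e (nat_lit 532523) (nat_lit 7) (.e (nat_lit 319532) (nat_lit 16) (.e (nat_lit 286733) (nat_lit 2) (.e (nat_lit 90178) (nat_lit 15) (.e (nat_lit 188424) (nat_lit 20) .nil)))))) (.g (nat_lit 1) (.e (nat_lit 74654) (nat_lit 0) .nil) .nil))) 
(.lf (nat_lit 465775) (.g (nat_lit 2448) (.e (nat_lit 3239) (nat_lit 197) (.e (nat_lit 532563) (nat_lit 15) (.e (nat_lit 385066) (nat_lit 26) (.e (nat_lit 532563) (nat_lit 15) (.e (nat_lit 385066) (nat_lit 26) .nil))))) (.g (nat_lit 0) (.e (nat_lit 75409) (nat_lit 0) .nil) .nil))))) (.nd (nat_lit 8) (.nd (nat_lit 9) 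
(.lf (nat_lit 465135) (.g (nat_lit 2958) (.e (nat_lit 3238) (nat_lit 197) (.e (nat_lit 532507) (nat_lit 2) (.e (nat_lit 106536) (nat_lit 11) (.e (nat_lit 16412) (nat_lit 2) (.e (nat_lit 196672) (nat_lit 15) (.e (nat_lit 89856) (nat_lit 0) .nil)))))) (.g (nat_lit 1) (.e (nat_lit 74495) (nat_lit 0) .nil) .nil))) 
(.lf (nat_lit 465647) (.g (nat_lit 3471) (.e (nat_lit 3238) (nat_lit 197) (.e (nat_lit 532550) (nat_lit 12) (.e (nat_lit 360475) (nat_lit 8) (.e (nat_lit 557089) (nat_lit 12) (.e (nat_lit 163843) (nat_lit 0) (.e (nat_lit 6254) (nat_lit 337) (.e (nat_lit 2630) (nat_lit 164) (.e (nat_lit 172046) (nat_lit 0) .nil)))))))) (.g (nat_lit 1) (.e (nat_lit 75210) (nat_lit 0) .nil) .nil)))) (.nd (nat_lit 9) 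
(.lf (nat_lit 465391) (.g (nat_lit 2901) (.e (nat_lit 3238) (nat_lit 197) (.e (nat_lit 532530) (nat_lit 9) (.e (nat_lit 336326) (nat_lit 18) (.e (nat_lit 204852) (nat_lit 26) (.e (nat_lit 336326) (nat_lit 18) (.e (nat_lit 204854) (nat_lit 26) (.e (nat_lit 336306) (nat_lit 15) .nil))))))) (.g (nat_lit 1) (.e (nat_lit 74818) (nat_lit 0) .nil) .nil))) 
(.lf (nat_lit 465903) (.g (nat_lit 2601) (.e (nat_lit 3242) (nat_lit 197) (.e (nat_lit 532499) (nat_lit 1) (.e (nat_lit 57927) (nat_lit 282) (.e (nat_lit 163869) (nat_lit 2) (.e (nat_lit 196670) (nat_lit 14) (.e (nat_lit 73746) (nat_lit 3) (.e (nat_lit 516131) (nat_lit 3) (.e (nat_lit 221197) (nat_lit 20) .nil)))))))) (.g (nat_lit 1) (.e (nat_lit 75609) (nat_lit 0) .nil) .nil)))))))) 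
(.nd (nat_lit 5) (.nd (nat_lit 6) (.nd (nat_lit 7) (.nd (nat_lit 8) (.nd (nat_lit 9) 
(.lf (nat_lit 464927) (.g (nat_lit 2582) (.e (nat_lit 3233) (nat_lit 197) (.e (nat_lit 532503) (nat_lit 1) (.e (nat_lit 57931) (nat_lit 282) (.e (nat_lit 163869) (nat_lit 2) (.e (nat_lit 196670) (nat_lit 14) .nil))))) (.g (nat_lit 0) (.e (nat_lit 74128) (nat_lit 0) .nil) .nil))) 
(.lf (nat_lit 465439) (.g (nat_lit 4907) (.e (nat_lit 3238) (nat_lit 197) (.e (nat_lit 532535) (nat_lit 9) (.e (nat_lit 336099) (nat_lit 9) (.e (nat_lit 336028) (nat_lit 3) (.e (nat_lit 98350) (nat_lit 24) (.e (nat_lit 409649) (nat_lit 18) (.e (nat_lit 303104) (nat_lit 0) .nil))))))) (.g (nat_lit 1) (.e (nat_lit 74878) (nat_lit 0) .nil) .nil)))) (.nd (nat_lit 9) 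
(.lf (nat_lit 465183) (.g (nat_lit 2579) (.e (nat_lit 3238) (nat_lit 197) (.e (nat_lit 532523) (nat_lit 7) (.e (nat_lit 319529) (nat_lit 16) (.e (nat_lit 286733) (nat_lit 2) (.e (nat_lit 90176) (nat_lit 15) .nil))))) (.g (nat_lit 0) (.e (nat_lit 74574) (nat_lit 0) .nil) .nil))) 
(.lf (nat_lit 465695) (.g (nat_lit 2917) (.e (nat_lit 3238) (nat_lit 197) (.e (nat_lit 532550) (nat_lit 12) (.e (nat_lit 360475) (nat_lit 8) (.e (nat_lit 557091) (nat_lit 12) (.e (nat_lit 164022) (nat_lit 46) (.e (nat_lit 704736) (nat_lit 11) (.e (nat_lit 16384) (nat_lit 0) .nil))))))) (.g (nat_lit 1) (.e (nat_lit 75258) (nat_lit 0) .nil) .nil))))) (.nd (nat_lit 8) (.nd (nat_lit 9) 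
(.lf (nat_lit 465055) (.g (nat_lit 1793) (.e (nat_lit 3238) (nat_lit 197) (.e (nat_lit 532500) (nat_lit 1) (.e (nat_lit 57851) (nat_lit 252) (.e (nat_lit 57406) (nat_lit 12) (.e (nat_lit 336367) (nat_lit 27) (.e (nat_lit 426540) (nat_lit 29) (.e (nat_lit 360192) (nat_lit 0) .nil))))))) (.g (nat_lit 1) (.e (nat_lit 74400) (nat_lit 0) .nil) .nil))) 
(.lf (nat_lit 465567) (.g (nat_lit 4310) (.e (nat_lit 3238) (nat_lit 197) (.e (nat_lit 532549) (nat_lit 12) (.e (nat_lit 360475) (nat_lit 8) (.e (nat_lit 557087) (nat_lit 11) (.e (nat_lit 24664) (nat_lit 14) (.e (nat_lit 401414) (nat_lit 0) .nil)))))) (.g (nat_lit 1) (.e (nat_lit 75123) (nat_lit 0) .nil) .nil)))) (.nd (nat_lit 9) 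
(.lf (nat_lit 465311) (.g (nat_lit 2724) (.e (nat_lit 3238) (nat_lit 197) (.e (nat_lit 532523) (nat_lit 7) (.e (nat_lit 319533) (nat_lit 16) (.e (nat_lit 286735) (nat_lit 3) (.e (nat_lit 98371) (nat_lit 28) .nil))))) (.g (nat_lit 0) (.e (nat_lit 74704) (nat_lit 0) .nil) .nil))) 
(.lf (nat_lit 465823) (.g (nat_lit 2294) (.e (nat_lit 3240) (nat_lit 197) (.e (nat_lit 532499) (nat_lit 1) (.e (nat_lit 57927) (nat_lit 282) (.e (nat_lit 163868) (nat_lit 2) (.e (nat_lit 196670) (nat_lit 14) (.e (nat_lit 73746) (nat_lit 3) (.e (nat_lit 516131) (nat_lit 3) (.e (nat_lit 221198) (nat_lit 20) .nil)))))))) (.g (nat_lit 1) (.e (nat_lit 75469) (nat_lit 0) .nil) .nil)))))) 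
(.nd (nat_lit 7) (.nd (nat_lit 8) (.nd (nat_lit 9) 
(.lf (nat_lit 464991) (.g (nat_lit 669) (.e (nat_lit 3233) (nat_lit 197) (.e (nat_lit 532569) (nat_lit 16) (.e (nat_lit 401448) (nat_lit 10) .nil))) (.g (nat_lit 0) (.e (nat_lit 74289) (nat_lit 0) .nil) .nil))) 
(.lf (nat_lit 465503) (.g (nat_lit 2720) (.e (nat_lit 3238) (nat_lit 197) (.e (nat_lit 532549) (nat_lit 12) (.e (nat_lit 360466) (nat_lit 3) (.e (nat_lit 516139) (nat_lit 7) (.e (nat_lit 409646) (nat_lit 18) (.e (nat_lit 303111) (nat_lit 0) .nil)))))) (.g (nat_lit 1) (.e (nat_lit 75055) (nat_lit 0) .nil) .nil)))) (.nd (nat_lit 9) 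
(.lf (nat_lit 465247) (.g (nat_lit 3450) (.e (nat_lit 3238) (nat_lit 197) (.e (nat_lit 532523) (nat_lit 7) (.e (nat_lit 319531) (nat_lit 16) (.e (nat_lit 286735) (nat_lit 3) (.e (nat_lit 98370) (nat_lit 28) (.e (nat_lit 442411) (nat_lit 20) .nil)))))) (.g (nat_lit 1) (.e (nat_lit 74638) (nat_lit 0) .nil) .nil))) 
(.lf (nat_lit 465759) (.g (nat_lit 2483) (.e (nat_lit 3239) (nat_lit 197) (.e (nat_lit 532504) (nat_lit 1) (.e (nat_lit 57851) (nat_lit 252) (.e (nat_lit 57406) (nat_lit 12) (.e (nat_lit 336456) (nat_lit 34) .nil))))) (.g (nat_lit 0) (.e (nat_lit 75387) (nat_lit 0) .nil) .nil))))) (.nd (nat_lit 8) (.nd (nat_lit 9) 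
(.lf (nat_lit 465119) (.g (nat_lit 2546) (.e (nat_lit 3238) (nat_lit 197) (.e (nat_lit 532504) (nat_lit 1) (.e (nat_lit 57852) (nat_lit 252) (.e (nat_lit 57406) (nat_lit 12) (.e (nat_lit 336454) (nat_lit 34) (.e (nat_lit 483385) (nat_lit 23) (.e (nat_lit 336260) (nat_lit 15) .nil))))))) (.g (nat_lit 1) (.e (nat_lit 74471) (nat_lit 0) .nil) .nil))) 
(.lf (nat_lit 465631) (.g (nat_lit 5396) (.e (nat_lit 3238) (nat_lit 197) (.e (nat_lit 532550) (nat_lit 12) (.e (nat_lit 360475) (nat_lit 8) (.e (nat_lit 557085) (nat_lit 11) (.e (nat_lit 24665) (nat_lit 14) (.e (nat_lit 401413) (nat_lit 0) .nil)))))) (.g (nat_lit 1) (.e (nat_lit 75194) (nat_lit 0) .nil) .nil)))) (.nd (nat_lit 9) 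
(.lf (nat_lit 465375) (.g (nat_lit 3151) (.e (nat_lit 3238) (nat_lit 197) (.e (nat_lit 532523) (nat_lit 7) (.e (nat_lit 319534) (nat_lit 16) (.e (nat_lit 286735) (nat_lit 3) (.e (nat_lit 98370) (nat_lit 28) (.e (nat_lit 442407) (nat_lit 20) .nil)))))) (.g (nat_lit 1) (.e (nat_lit 74771) (nat_lit 0) .nil) .nil))) 
(.lf (nat_lit 465887) (.g (nat_lit 2601) (.e (nat_lit 3243) (nat_lit 197) (.e (nat_lit 532563) (nat_lit 15) (.e (nat_lit 385066) (nat_lit 26) (.e (nat_lit 532530) (nat_lit 9) (.e (nat_lit 336326) (nat_lit 18) (.e (nat_lit 204854) (nat_lit 26) (.e (nat_lit 336240) (nat_lit 15) .nil))))))) (.g (nat_lit 1) (.e (nat_lit 75593) (nat_lit 0) .nil) .nil))))))) 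
(.nd (nat_lit 6) (.nd (nat_lit 7) (.nd (nat_lit 8) (.nd (nat_lit 9) 
(.lf (nat_lit 464959) (.g (nat_lit 6401) (.e (nat_lit 3233) (nat_lit 197) (.e (nat_lit 532550) (nat_lit 12) (.e (nat_lit 360475) (nat_lit 8) (.e (nat_lit 557090) (nat_lit 12) .nil)))) (.g (nat_lit 0) (.e (nat_lit 74241) (nat_lit 0) .nil) .nil))) 
(.lf (nat_lit 465471) (.g (nat_lit 1007) (.e (nat_lit 3238) (nat_lit 197) (.e (nat_lit 532535) (nat_lit 9) (.e (nat_lit 336176) (nat_lit 10) (.e (nat_lit 344130) (nat_lit 26) .nil)))) (.g (nat_lit 0) (.e (nat_lit 74916) (nat_lit 0) .nil) .nil)))) (.nd (nat_lit 9) 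
(.lf (nat_lit 465215) (.g (nat_lit 3698) (.e (nat_lit 3238) (nat_lit 197) (.e (nat_lit 532523) (nat_lit 7) (.e (nat_lit 319530) (nat_lit 16) (.e (nat_lit 286735) (nat_lit 3) (.e (nat_lit 98369) (nat_lit 28) (.e (nat_lit 442406) (nat_lit 20) .nil)))))) (.g (nat_lit 1) (.e (nat_lit 74606) (nat_lit 0) .nil) .nil))) 
(.lf (nat_lit 465727) (.g (nat_lit 3441) (.e (nat_lit 3238) (nat_lit 197) (.e (nat_lit 532563) (nat_lit 15) (.e (nat_lit 385068) (nat_lit 26) (.e (nat_lit 532530) (nat_lit 9) (.e (nat_lit 336324) (nat_lit 18) (.e (nat_lit 204854) (nat_lit 26) (.e (nat_lit 336306) (nat_lit 15) .nil))))))) (.g (nat_lit 1) (.e (nat_lit 75293) (nat_lit 0) .nil) .nil))))) (.nd (nat_lit 8) (.nd (nat_lit 9) 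
(.lf (nat_lit 465087) (.g (nat_lit 3313) (.e (nat_lit 3238) (nat_lit 197) (.e (nat_lit 532501) (nat_lit 1) (.e (nat_lit 57851) (nat_lit 252) (.e (nat_lit 57406) (nat_lit 12) (.e (nat_lit 336454) (nat_lit 34) (.e (nat_lit 483383) (nat_lit 23) (.e (nat_lit 336306) (nat_lit 15) .nil))))))) (.g (nat_lit 1) (.e (nat_lit 74433) (nat_lit 0) .nil) .nil))) 
(.lf (nat_lit 465599) (.g (nat_lit 2666) (.e (nat_lit 3238) (nat_lit 197) (.e (nat_lit 532550) (nat_lit 12) (.e (nat_lit 360474) (nat_lit 8) (.e (nat_lit 557093) (nat_lit 12) (.e (nat_lit 163849) (nat_lit 0) (.e (nat_lit 6420) (nat_lit 341) (.e (nat_lit 163902) (nat_lit 12) (.e (nat_lit 426093) (nat_lit 0) .nil)))))))) (.g (nat_lit 1) (.e (nat_lit 75161) (nat_lit 0) .nil) .nil)))) 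
(.nd (nat_lit 9) 
(.lf (nat_lit 465343) (.g (nat_lit 5446) (.e (nat_lit 3238) (nat_lit 197) (.e (nat_lit 532523) (nat_lit 7) (.e (nat_lit 319534) (nat_lit 16) (.e (nat_lit 286733) (nat_lit 2) (.e (nat_lit 90176) (nat_lit 15) (.e (nat_lit 188439) (nat_lit 20) .nil)))))) (.g (nat_lit 1) (.e (nat_lit 74739) (nat_lit 0) .nil) .nil))) 
(.lf (nat_lit 465855) (.g (nat_lit 1284) (.e (nat_lit 3241) (nat_lit 197) (.e (nat_lit 532500) (nat_lit 1) (.e (nat_lit 57927) (nat_lit 282) (.e (nat_lit 163875) (nat_lit 3) .nil)))) (.g (nat_lit 0) (.e (nat_lit 75522) (nat_lit 0) .nil) .nil)))))) (.nd (nat_lit 7) (.nd (nat_lit 8) (.nd (nat_lit 9) 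
(.lf (nat_lit 465023) (.g (nat_lit 3922) (.e (nat_lit 3238) (nat_lit 197) (.e (nat_lit 532482) (nat_lit 0) (.e (nat_lit 6724) (nat_lit 362) (.e (nat_lit 180243) (nat_lit 5) (.e (nat_lit 532563) (nat_lit 15) (.e (nat_lit 385106) (nat_lit 50) (.e (nat_lit 786436) (nat_lit 0) .nil))))))) (.g (nat_lit 1) (.e (nat_lit 74355) (nat_lit 0) .nil) .nil))) 
(.lf (nat_lit 465535) (.g (nat_lit 2640) (.e (nat_lit 3238) (nat_lit 197) (.e (nat_lit 532549) (nat_lit 12) (.e (nat_lit 360473) (nat_lit 8) (.e (nat_lit 557093) (nat_lit 12) (.e (nat_lit 164022) (nat_lit 46) (.e (nat_lit 704736) (nat_lit 11) (.e (nat_lit 16396) (nat_lit 0) .nil))))))) (.g (nat_lit 1) (.e (nat_lit 75090) (nat_lit 0) .nil) .nil)))) (.nd (nat_lit 9) 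
(.lf (nat_lit 465279) (.g (nat_lit 3334) (.e (nat_lit 3238) (nat_lit 197) (.e (nat_lit 532523) (nat_lit 7) (.e (nat_lit 319533) (nat_lit 16) (.e (nat_lit 286732) (nat_lit 2) (.e (nat_lit 90178) (nat_lit 15) (.e (nat_lit 188424) (nat_lit 20) .nil)))))) (.g (nat_lit 1) (.e (nat_lit 74671) (nat_lit 0) .nil) .nil))) 
(.lf (nat_lit 465791) (.g (nat_lit 3006) (.e (nat_lit 3237) (nat_lit 197) (.e (nat_lit 532535) (nat_lit 9) (.e (nat_lit 336099) (nat_lit 9) (.e (nat_lit 336013) (nat_lit 2) .nil)))) (.g (nat_lit 0) (.e (nat_lit 75428) (nat_lit 0) .nil) .nil))))) (.nd (nat_lit 8) (.nd (nat_lit 9) 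
(.lf (nat_lit 465151) (.g (nat_lit 2703) (.e (nat_lit 3238) (nat_lit 197) (.e (nat_lit 532522) (nat_lit 7) (.e (nat_lit 319530) (nat_lit 16) (.e (nat_lit 286733) (nat_lit 2) (.e (nat_lit 90134) (nat_lit 9) (.e (nat_lit 2992) (nat_lit 186) (.e (nat_lit 442406) (nat_lit 20) .nil))))))) (.g (nat_lit 1) (.e (nat_lit 74542) (nat_lit 0) .nil) .nil))) 
(.lf (nat_lit 465663) (.g (nat_lit 4078) (.e (nat_lit 3238) (nat_lit 197) (.e (nat_lit 532550) (nat_lit 12) (.e (nat_lit 360475) (nat_lit 8) (.e (nat_lit 557089) (nat_lit 12) (.e (nat_lit 163848) (nat_lit 0) (.e (nat_lit 6416) (nat_lit 341) (.e (nat_lit 163908) (nat_lit 12) (.e (nat_lit 426039) (nat_lit 0) .nil)))))))) (.g (nat_lit 1) (.e (nat_lit 75226) (nat_lit 0) .nil) .nil)))) 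
(.nd (nat_lit 9) 
(.lf (nat_lit 465407) (.g (nat_lit 4466) (.e (nat_lit 3238) (nat_lit 197) (.e (nat_lit 532535) (nat_lit 9) (.e (nat_lit 336099) (nat_lit 9) (.e (nat_lit 336013) (nat_lit 2) (.e (nat_lit 90121) (nat_lit 9) (.e (nat_lit 2830) (nat_lit 182) (.e (nat_lit 409648) (nat_lit 18) (.e (nat_lit 303109) (nat_lit 0) .nil)))))))) (.g (nat_lit 1) (.e (nat_lit 74846) (nat_lit 0) .nil) .nil))) 
(.lf (nat_lit 465919) (.g (nat_lit 4811) (.e (nat_lit 3242) (nat_lit 197) (.e (nat_lit 532550) (nat_lit 12) (.e (nat_lit 360474) (nat_lit 8) (.e (nat_lit 557093) (nat_lit 12) (.e (nat_lit 164022) (nat_lit 46) (.e (nat_lit 704736) (nat_lit 11) (.e (nat_lit 16390) (nat_lit 0) .nil))))))) (.g (nat_lit 1) (.e (nat_lit 75642) (nat_lit 0) .nil) .nil)))))))))))))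


end

end Pool.Agent.Lib.MP_5854e1_co.Cz
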